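import Mathlib
import Pool.Agent.LC.Defs

/-! Parts: LCA.Base, LCA.Stmts1, LCA.Stmts2, LCA.Stmts3, LCA.LFI, LCA.CNG, LCA.RPL, LCA.EEX, LCA.PIN, LCA.PUD, LCA.PHG, LCA.CEE, LCA.CER, LCA.ATR, LCA.MOV, LCA.SWI, LCA.MVP, LCA.TCH, LCA.LAG, LCA.FIN, LCA.BXC, LCA.SDG, LCA.SDM, LCA.CYL, LCA.SWP, LCA.FEQ, LCA.FLD, LCA.Chk, LCA.Stmts4, LCA.LNP, LCA.STF, LCA.STG, LCA.Chk2, LCA.Stmts5, LCA.MVR, LCA.STW, LCA.INR, LCA.INC, LCA.FDR, LCA.SDC, LCA.STS, LCA.STX, LCA.STB -/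

section

/-!
# Part A: movies of front polygons give exact Lagrangian caps. Basic definitions

Coordinates: `s = e^t`, `p = s y`; `e^t (dz - y dx) = d (s z) - z ds - p dx`. A surface `L` in the
symplectization is described by its lift, a set of points `(s, x, p, z, F)` with `dF = z ds + p dx`.
-/

namespace LCA

open Set Filter
open scoped ContDiff Topology

/-- The space of the points `(s, x, p, z, F)`. -/
abbrev E5 : Type := ℝ × ℝ × ℝ × ℝ × ℝ

/-- A smooth parametrization `f` near `a` of a piece of a surface, with `dF = z ds + p dx`, whose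
projection to `(s, x, p, z)` is an immersion. -/
structure ExactChart (f : ℝ × ℝ → E5) (a : ℝ × ℝ) : Prop where
  smooth : ∀ᶠ b in 𝓝 a, ContDiffAt ℝ ∞ f b
  exact : ∀ᶠ b in 𝓝 a, ∀ w, (fderiv ℝ f b w).2.2.2.2 =
    (f b).2.2.2.1 * (fderiv ℝ f b w).1 + (f b).2.2.1 * (fderiv ℝ f b w).2.1
  immersion : ∀ w, (fderiv ℝ f a w).1 = 0 → (fderiv ℝ f a w).2.1 = 0 →
    (fderiv ℝ f a w).2.2.1 = 0 → (fderiv ℝ f a w).2.2.2.1 = 0 → w = 0

/-- Near `q`, the set `A` is a smooth exact Lagrangian surface. -/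
def ChartAt (A : Set E5) (q : E5) : Prop :=
  ∃ (f : ℝ × ℝ → E5) (a : ℝ × ℝ), ExactChart f a ∧ f a = q ∧ (∀ᶠ b in 𝓝 a, f b ∈ A) ∧
    ∀ N ∈ 𝓝 a, f '' N ∈ 𝓝[A] q

/-- Over `s ∈ J`, the set `A` is the lift of a properly embedded exact Lagrangian surface with
compact slices. -/
structure Good (J : Set ℝ) (A : Set E5) : Prop where
  closed : ∀ q ∈ closure A, q.1 ∈ J → q ∈ A
  bounded : ∀ K ⊆ J, IsCompact K → ∃ M : ℝ, ∀ q ∈ A, q.1 ∈ K → ‖q.2‖ ≤ M
  chart : ∀ q ∈ A, q.1 ∈ J → ChartAt A q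
  inj : ∀ q ∈ A, ∀ q' ∈ A, q.1 ∈ J → q.1 = q'.1 → q.2.1 = q'.2.1 → q.2.2.1 = q'.2.2.1 →
    q.2.2.2.1 = q'.2.2.2.1 → q = q'

/-- Every point over `s ∈ J` can be joined to the slices at smaller times in `J`, by a path which
stays between the two times. -/
def Down (J : Set ℝ) (A : Set E5) : Prop :=
  ∀ q ∈ A, q.1 ∈ J → ∀ c ∈ J, c ≤ q.1 →
    ∃ q' ∈ A, q'.1 = c ∧ JoinedIn {r ∈ A | r.1 ∈ Icc c q.1} q q'

/-- Every point over `s ∈ J` can be joined to the slices at larger times in `J`, by a path which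
stays between the two times. -/
def Up (J : Set ℝ) (A : Set E5) : Prop :=
  ∀ q ∈ A, q.1 ∈ J → ∀ c ∈ J, q.1 ≤ c →
    ∃ q' ∈ A, q'.1 = c ∧ JoinedIn {r ∈ A | r.1 ∈ Icc q.1 c} q q'

/-- The sets agree over `J`. -/
def Agree (J : Set ℝ) (A A' : Set E5) : Prop := ∀ q : E5, q.1 ∈ J → (q ∈ A ↔ q ∈ A')

/-- The lift of the cylinder over a subset of `ℝ³`. -/
def cyl (K : Set LC.R3) : Set E5 :=
  {q | ∃ r ∈ K, q.2 = (r.1, q.1 * r.2.1, r.2.2, q.1 * r.2.2)}

/-! ### profiles -/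

/-- The smooth profiles. `τ` is the transition of the slope at a vertex; `ξ` is the `x`-coordinate
at a right tip; `ΘP`, `ΘR` are the corresponding primitives. -/
structure Shape where
  τ : ℝ → ℝ
  ξ : ℝ → ℝ
  ΘP : ℝ → ℝ
  ΘR : ℝ → ℝ
  τ_smooth : ContDiff ℝ ∞ τ
  ξ_smooth : ContDiff ℝ ∞ ξ
  ΘP_smooth : ContDiff ℝ ∞ ΘP
  ΘR_smooth : ContDiff ℝ ∞ ΘR
  τ_low : ∀ u, u ≤ -1 → τ u = 0
  τ_high : ∀ u, 1 ≤ u → τ u = 1
  τ_mem : ∀ u, 0 ≤ τ u ∧ τ u ≤ 1
  τ_deriv : ∀ u, -1 < u → u < 1 → 0 < deriv τ u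
  τ_symm : ∀ u, τ (-u) = 1 - τ u
  ξ_out : ∀ u, 1 ≤ |u| → ξ u = -|u|
  ξ_in : ∀ u, |u| ≤ 1 → |ξ u| ≤ 1
  ξ_even : ∀ u, ξ (-u) = ξ u
  ξ_anti : StrictAntiOn ξ (Ici 0)
  ΘP_deriv : ∀ u, HasDerivAt ΘP (τ u) u
  ΘP_low : ∀ u, u ≤ -1 → ΘP u = 0
  ΘP_high : ∀ u, 1 ≤ u → ΘP u = u
  ΘR_deriv : ∀ u, HasDerivAt ΘR (τ u * deriv ξ u) u
  ΘR_low : ∀ u, u ≤ -1 → ΘR u = 0
  ΘR_high : ∀ u, 1 ≤ u → ΘR u = -u
  ΘP_bd : ∀ u, |u| ≤ 2 → |ΘP u| ≤ 2
  ΘR_bd : ∀ u, |u| ≤ 2 → |ΘR u| ≤ 2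

/-- The type of a vertex of a front polygon: pass, right tip, left tip. -/
inductive Ty
  | P | R | L
  deriving DecidableEq

/-- The `x`-coordinate of the profile for `u ≤ -1`. -/
def Ty.inX : Ty → ℝ → ℝ
  | .P, u => u
  | .R, u => u
  | .L, u => -u

/-- The `x`-coordinate of the profile for `1 ≤ u`. -/
def Ty.outX : Ty → ℝ → ℝ
  | .P, u => u
  | .R, u => -u
  | .L, u => u

/-- A profile, depending on the time: functions of `(s, u)`. -/
structure Prof where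
  X : ℝ → ℝ → ℝ
  P : ℝ → ℝ → ℝ
  Θ : ℝ → ℝ → ℝ
  Y : ℝ → ℝ → ℝ

/-- The static profile of a vertex of type `t`. -/
def Shape.st (sh : Shape) (t : Ty) : Prof where
  X _ u := match t with
    | .P => u
    | .R => sh.ξ u
    | .L => -sh.ξ u
  P _ u := sh.τ u
  Θ _ u := match t with
    | .P => sh.ΘP u
    | .R => sh.ΘR u
    | .L => -sh.ΘR u
  Y _ _ := 0

/-- The constant in the bounds for the moving profiles. -/
def CY : ℝ := 1000

/-- Bounds for a profile of a vertex of type `t` at the time `s`. -/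
structure ProfBd (t : Ty) (s : ℝ) (π : Prof) : Prop where
  low : ∀ u, u ≤ -1 → π.X s u = t.inX u ∧ π.P s u = 0 ∧ π.Θ s u = 0
  high : ∀ u, 1 ≤ u → π.X s u = t.outX u ∧ π.P s u = 1 ∧ π.Θ s u = t.outX u
  X_bd : ∀ u, |u| ≤ 1 → |π.X s u| ≤ 1
  P_mem : ∀ u, 0 ≤ π.P s u ∧ π.P s u ≤ 1
  Θ_bd : ∀ u, |u| ≤ 2 → |π.Θ s u| ≤ 2
  Y_bd : ∀ u, |u| ≤ 2 → |π.Y s u| ≤ CY

/-- A profile for a vertex of type `t` whose two slopes differ by `D s`, over the times `J`. -/
structure ProfOK (J : Set ℝ) (t : Ty) (D : ℝ → ℝ) (π : Prof) : Prop where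
  X_smooth : ContDiffOn ℝ ∞ (fun a : ℝ × ℝ => π.X a.1 a.2) (J ×ˢ univ)
  P_smooth : ContDiffOn ℝ ∞ (fun a : ℝ × ℝ => π.P a.1 a.2) (J ×ˢ univ)
  Θ_smooth : ContDiffOn ℝ ∞ (fun a : ℝ × ℝ => π.Θ a.1 a.2) (J ×ˢ univ)
  dΘ : ∀ s ∈ J, ∀ u, HasDerivAt (π.Θ s) (π.P s u * deriv (π.X s) u) u
  Y_eq : ∀ s ∈ J, ∀ u, π.Y s u =
    deriv (fun r => π.Θ r u) s - π.P s u * deriv (fun r => π.X r u) s
  bd : ∀ s ∈ J, ProfBd t s π
  imm : ∀ s ∈ J, ∀ u, |u| < 1 → deriv (π.X s) u ≠ 0 ∨ D s * deriv (π.P s) u ≠ 0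
  inj : ∀ s ∈ J, ∀ u u', |u| ≤ 2 → |u'| ≤ 2 → π.X s u = π.X s u' →
    D s * π.P s u = D s * π.P s u' → u = u'

/-! ### front polygons -/

/-- The combinatorics of a closed front polygon (possibly with several components) with `m` edges
and `n` vertices. Every edge goes from its left end `lf e` to its right end `rt e`. A pass `i` has
the edge `ea i` on the left and the edge `eb i` on the right; the edges `ea i`, `eb i` of a right
tip (left tip) are on the left (right) of `i`. -/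
structure Comb (m n : ℕ) where
  lf : Fin m → Fin n
  rt : Fin m → Fin n
  ty : Fin n → Ty
  ea : Fin n → Fin m
  eb : Fin n → Fin m

variable {m n : ℕ}

/-- The vertex `i` is an end of the edge `ea i`, at the correct side. -/
def Comb.OKa (c : Comb m n) (i : Fin n) : Prop :=
  match c.ty i with
  | .P => c.rt (c.ea i) = i
  | .R => c.rt (c.ea i) = i
  | .L => c.lf (c.ea i) = i

/-- The vertex `i` is an end of the edge `eb i`, at the correct side. -/
def Comb.OKb (c : Comb m n) (i : Fin n) : Prop :=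
  match c.ty i with
  | .P => c.lf (c.eb i) = i
  | .R => c.rt (c.eb i) = i
  | .L => c.lf (c.eb i) = i

/-- The combinatorics is consistent. -/
structure Comb.Valid (c : Comb m n) : Prop where
  oka : ∀ i, c.OKa i
  okb : ∀ i, c.OKb i
  ne : ∀ i, c.ea i ≠ c.eb i
  rt : ∀ e, (c.ty (c.rt e) ≠ .L ∧ c.ea (c.rt e) = e) ∨ (c.ty (c.rt e) = .R ∧ c.eb (c.rt e) = e)
  lf : ∀ e, (c.ty (c.lf e) = .L ∧ c.ea (c.lf e) = e) ∨ (c.ty (c.lf e) ≠ .R ∧ c.eb (c.lf e) = e)

/-- The positions of the vertices in the front: the functions `x_i` and `F_i`. -/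
abbrev St (n : ℕ) : Type := (Fin n → ℝ) × (Fin n → ℝ)

/-- The slope of the edge `e`. -/
noncomputable def Comb.pe (c : Comb m n) (q : St n) (e : Fin m) : ℝ :=
  (q.2 (c.rt e) - q.2 (c.lf e)) / (q.1 (c.rt e) - q.1 (c.lf e))

/-- The edge `e` is on the line `F = pe x + ae`. -/
noncomputable def Comb.ae (c : Comb m n) (q : St n) (e : Fin m) : ℝ :=
  q.2 (c.lf e) - c.pe q e * q.1 (c.lf e)

/-- The derivative of the slope, `v` is the velocity of the vertices. -/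
noncomputable def Comb.dpe (c : Comb m n) (q v : St n) (e : Fin m) : ℝ :=
  (v.2 (c.rt e) - v.2 (c.lf e) - c.pe q e * (v.1 (c.rt e) - v.1 (c.lf e))) /
    (q.1 (c.rt e) - q.1 (c.lf e))

/-- The derivative of `ae`. -/
noncomputable def Comb.dae (c : Comb m n) (q v : St n) (e : Fin m) : ℝ :=
  v.2 (c.lf e) - c.dpe q v e * q.1 (c.lf e) - c.pe q e * v.1 (c.lf e)

/-- The point `(x, p, z, F)` of the edge `e`. -/
noncomputable def Comb.ept (c : Comb m n) (q v : St n) (e : Fin m) (x : ℝ) : ℝ × ℝ × ℝ × ℝ :=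
  (x, c.pe q e, c.dpe q v e * x + c.dae q v e, c.pe q e * x + c.ae q e)

/-- The difference of the slopes at the vertex `i`. -/
noncomputable def Comb.dl (c : Comb m n) (q : St n) (i : Fin n) : ℝ :=
  c.pe q (c.eb i) - c.pe q (c.ea i)

/-- The point `(x, p, z, F)` of the piece of the vertex `i` of width `w`; `X`, `P`, `Θ`, `Y` are the
values of the profile. -/
noncomputable def Comb.vpt (c : Comb m n) (q v : St n) (i : Fin n) (w X P Θ Y : ℝ) :
    ℝ × ℝ × ℝ × ℝ :=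
  (q.1 i + w * X, c.pe q (c.ea i) + c.dl q i * P,
    c.dpe q v (c.ea i) * (q.1 i + w * X) + c.dae q v (c.ea i)
      + w * ((c.dpe q v (c.eb i) - c.dpe q v (c.ea i)) * Θ + c.dl q i * Y)
      - c.dl q i * P * v.1 i,
    c.pe q (c.ea i) * (q.1 i + w * X) + c.ae q (c.ea i) + w * c.dl q i * Θ)

/-- The point of the piece of the vertex `i` with the parameter `u`, at the time `s`. -/
noncomputable def Comb.vp (c : Comb m n) (w : Fin n → ℝ) (π : Fin n → Prof) (s : ℝ) (q v : St n)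
    (i : Fin n) (u : ℝ) : ℝ × ℝ × ℝ × ℝ :=
  c.vpt q v i (w i) ((π i).X s u) ((π i).P s u) ((π i).Θ s u) ((π i).Y s u)

/-- The range of `x` on the edge `e`, without the parts which belong to its ends. -/
def Comb.rg (c : Comb m n) (w : Fin n → ℝ) (q : St n) (e : Fin m) : Set ℝ :=
  Icc (q.1 (c.lf e) + 2 * w (c.lf e)) (q.1 (c.rt e) - 2 * w (c.rt e))

/-- The slice at the time `s`. -/
def Comb.slice (c : Comb m n) (w : Fin n → ℝ) (π : Fin n → Prof) (s : ℝ) (q v : St n) :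
    Set (ℝ × ℝ × ℝ × ℝ) :=
  {r | (∃ e, ∃ x ∈ c.rg w q e, r = c.ept q v e x) ∨
    ∃ i, ∃ u, |u| ≤ 2 ∧ r = c.vp w π s q v i u}

/-- The surface of a moving front polygon. -/
def Comb.surf (c : Comb m n) (w : Fin n → ℝ) (π : Fin n → Prof) (q : ℝ → St n) : Set E5 :=
  {r | r.2 ∈ c.slice w π r.1 (q r.1) (deriv q r.1)}

/-- The points agree in the coordinates `x`, `p`, `z`. -/
def Meet (a b : ℝ × ℝ × ℝ × ℝ) : Prop := a.1 = b.1 ∧ a.2.1 = b.2.1 ∧ a.2.2.1 = b.2.2.1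

/-- The slice is admissible: the edges are long enough, the slopes at the tips are different, the
pieces which do not share an end are disjoint in the space `(x, p, z)`. -/
structure Comb.Adm (c : Comb m n) (w : Fin n → ℝ) (π : Fin n → Prof) (s : ℝ) (q v : St n) :
    Prop where
  len : ∀ e, 2 * (w (c.lf e) + w (c.rt e)) < q.1 (c.rt e) - q.1 (c.lf e)
  tip : ∀ i, c.ty i ≠ .P → c.dl q i ≠ 0
  ee : ∀ e e', e ≠ e' → ∀ x ∈ c.rg w q e, ∀ x' ∈ c.rg w q e',
    ¬ Meet (c.ept q v e x) (c.ept q v e' x')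
  vv : ∀ i j, i ≠ j → ∀ u u', |u| ≤ 2 → |u'| ≤ 2 →
    ¬ Meet (c.vp w π s q v i u) (c.vp w π s q v j u')
  ve : ∀ i e, c.ea i ≠ e → c.eb i ≠ e → ∀ u, |u| ≤ 2 → ∀ x ∈ c.rg w q e,
    ¬ Meet (c.vp w π s q v i u) (c.ept q v e x)

/-- The static profiles of all vertices. -/
def Comb.sp (c : Comb m n) (sh : Shape) : Fin n → Prof := fun i => sh.st (c.ty i)

/-- A moving front polygon over the open interval `J` all of whose slices are admissible. -/
structure IsPhase (c : Comb m n) (w : Fin n → ℝ) (J : Set ℝ) (π : Fin n → Prof)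
    (q : ℝ → St n) : Prop where
  valid : c.Valid
  wpos : ∀ i, 0 < w i
  openJ : IsOpen J
  conn : J.OrdConnected
  smooth : ContDiffOn ℝ ∞ q J
  prof : ∀ i, ProfOK J (c.ty i) (fun s => c.dl (q s) i) (π i)
  adm : ∀ s ∈ J, c.Adm w π s (q s) (deriv q s)

/-! ### certificates -/

/-- The function `z_e(x) - z_e'(x)`. -/
noncomputable def Comb.Dee (c : Comb m n) (q v : St n) (e e' : Fin m) (x : ℝ) : ℝ :=
  (c.dpe q v e * x + c.dae q v e) - (c.dpe q v e' * x + c.dae q v e')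

/-- The difference of the values of `z` at the height `p` on the verticals of `i` and `j`. -/
def Dvv (v : St n) (i j : Fin n) (p : ℝ) : ℝ := (v.2 i - p * v.1 i) - (v.2 j - p * v.1 j)

/-- The difference of the values of `z` of the vertical of `i` and of the edge `e`. -/
noncomputable def Comb.Dve (c : Comb m n) (q v : St n) (i : Fin n) (e : Fin m) : ℝ :=
  (v.2 i - c.pe q e * v.1 i) - (c.dpe q v e * q.1 i + c.dae q v e)

/-- The lower end of the vertical of `i`. -/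
noncomputable def Comb.plo (c : Comb m n) (q : St n) (i : Fin n) : ℝ :=
  min (c.pe q (c.ea i)) (c.pe q (c.eb i))

/-- The upper end of the vertical of `i`. -/
noncomputable def Comb.phi (c : Comb m n) (q : St n) (i : Fin n) : ℝ :=
  max (c.pe q (c.ea i)) (c.pe q (c.eb i))

/-- The bound for the rounding error at the vertex `i`. -/
noncomputable def Comb.err (c : Comb m n) (w : Fin n → ℝ) (q v : St n) (i : Fin n) : ℝ :=
  w i * (2 * |c.dpe q v (c.ea i)| + 2 * |c.dpe q v (c.eb i) - c.dpe q v (c.ea i)|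
    + CY * |c.dl q i|)

/-- Two edges are separated by their values of `z`; the sign of `z_e - z_e'` is the sign of `σ`. -/
def Comb.Zee (c : Comb m n) (q v : St n) (e e' : Fin m) (σ : ℝ) : Prop :=
  0 < σ * c.Dee q v e e' (max (q.1 (c.lf e)) (q.1 (c.lf e'))) ∧
    0 < σ * c.Dee q v e e' (min (q.1 (c.rt e)) (q.1 (c.rt e')))

/-- Positional separation of two edges. -/
def Comb.See (c : Comb m n) (w : Fin n → ℝ) (q : St n) (e e' : Fin m) : Prop :=
  q.1 (c.rt e) - 2 * w (c.rt e) < q.1 (c.lf e') + 2 * w (c.lf e') ∨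
    q.1 (c.rt e') - 2 * w (c.rt e') < q.1 (c.lf e) + 2 * w (c.lf e) ∨ c.pe q e ≠ c.pe q e'

/-- Two verticals are separated by their values of `z`. -/
def Comb.Zvv (c : Comb m n) (w : Fin n → ℝ) (q v : St n) (i j : Fin n) (σ : ℝ) : Prop :=
  c.err w q v i + c.err w q v j < σ * Dvv v i j (max (c.plo q i) (c.plo q j)) ∧
    c.err w q v i + c.err w q v j < σ * Dvv v i j (min (c.phi q i) (c.phi q j))

/-- Positional separation of two verticals. -/
def Comb.Svv (c : Comb m n) (w : Fin n → ℝ) (q : St n) (i j : Fin n) : Prop :=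
  2 * (w i + w j) < q.1 j - q.1 i ∨ 2 * (w i + w j) < q.1 i - q.1 j ∨
    c.phi q i < c.plo q j ∨ c.phi q j < c.plo q i

/-- A vertical and an edge are separated by their values of `z`. -/
def Comb.Zve (c : Comb m n) (w : Fin n → ℝ) (q v : St n) (i : Fin n) (e : Fin m) (σ : ℝ) : Prop :=
  c.err w q v i + 2 * w i * |c.dpe q v e| < σ * c.Dve q v i e

/-- Positional separation of a vertical and an edge. -/
def Comb.Sve (c : Comb m n) (w : Fin n → ℝ) (q : St n) (i : Fin n) (e : Fin m) : Prop :=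
  q.1 i + 2 * w i < q.1 (c.lf e) + 2 * w (c.lf e) ∨
    q.1 (c.rt e) - 2 * w (c.rt e) < q.1 i - 2 * w i ∨
    c.pe q e < c.plo q i ∨ c.phi q i < c.pe q e

/-- Sufficient conditions for admissibility. -/
structure Comb.Cert (c : Comb m n) (w : Fin n → ℝ) (q v : St n) : Prop where
  len : ∀ e, 2 * (w (c.lf e) + w (c.rt e)) < q.1 (c.rt e) - q.1 (c.lf e)
  tip : ∀ i, c.ty i ≠ .P → c.dl q i ≠ 0
  ee : ∀ e e', e ≠ e' → c.See w q e e' ∨ ∃ σ : ℝ, |σ| = 1 ∧ c.Zee q v e e' σ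
  vv : ∀ i j, i ≠ j → c.Svv w q i j ∨ ∃ σ : ℝ, |σ| = 1 ∧ c.Zvv w q v i j σ
  ve : ∀ i e, c.ea i ≠ e → c.eb i ≠ e → c.Sve w q i e ∨ ∃ σ : ℝ, |σ| = 1 ∧ c.Zve w q v i e σ

/-! ### states -/

/-- The moving polygon with the positions `Q` and the velocities `V` at the time `t`. -/
def lin {n : ℕ} (Q V : St n) (t : ℝ) (s : ℝ) : St n := Q + (s - t) • V

/-- The front polygon of the data `c`, `w`, with the positions `Q` and the velocities `V` at the
time `t`, is reached: there is a surface over `(0, t + ε)` which starts with the cylinder over `K`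
and ends with this moving polygon. -/
def At (K : Set LC.R3) (sh : Shape) (c : Comb m n) (w : Fin n → ℝ) (Q V : St n) (t : ℝ) : Prop :=
  0 < t ∧ ∃ ε > 0, ε < t ∧ ∃ A : Set E5, ∃ e₀ > 0, e₀ < t ∧
    Good (Ioo 0 (t + ε)) A ∧ Down (Ioo 0 (t + ε)) A ∧ Agree (Ioo 0 e₀) A (cyl K) ∧
    Agree (Ioo (t - ε) (t + ε)) A (c.surf w (c.sp sh) (lin Q V t))

/-- The cap is complete. -/
def Capped (K : Set LC.R3) : Prop :=
  ∃ A : Set E5, Good (Ioi 0) A ∧ Down (Ioi 0) A ∧ (∃ e₀ > 0, Agree (Ioo 0 e₀) A (cyl K)) ∧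
    ∃ S : ℝ, ∀ q ∈ A, 0 < q.1 → q.1 ≤ S

end LCA


end

section

/-!
# Part A: statements about lifted surfaces, phases, and the transfer to the symplectization
-/

namespace LCA

open Set Filter
open scoped ContDiff Topology

/-! ### generalities on lifted surfaces -/

/-- LFI: an exact chart has a smooth left inverse defined near `f a`, which depends only on
`(s, x, p, z)`. -/
def Stmt_LFI : Prop :=
  ∀ (f : ℝ × ℝ → E5) (a : ℝ × ℝ), ExactChart f a →
    ∃ (g : ℝ × ℝ × ℝ × ℝ → ℝ × ℝ) (U : Set (ℝ × ℝ)) (V : Set (ℝ × ℝ × ℝ × ℝ)),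
      IsOpen U ∧ a ∈ U ∧ IsOpen V ∧ ((f a).1, (f a).2.1, (f a).2.2.1, (f a).2.2.2.1) ∈ V ∧
      ContDiffOn ℝ ∞ f U ∧ ContDiffOn ℝ ∞ g V ∧
      ∀ b ∈ U, ((f b).1, (f b).2.1, (f b).2.2.1, (f b).2.2.2.1) ∈ V ∧
        g ((f b).1, (f b).2.1, (f b).2.2.1, (f b).2.2.2.1) = b

/-- CNG: the properties are local in time. -/
def Stmt_CNG : Prop :=
  ∀ (J : Set ℝ) (A A' : Set E5), IsOpen J → J.OrdConnected → Agree J A A' →
    (Good J A → Good J A') ∧ (Down J A → Down J A') ∧ (Up J A → Up J A')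

/-- RST: restriction to a smaller interval. -/
def Stmt_RST : Prop :=
  ∀ (J J' : Set ℝ) (A : Set E5), IsOpen J' → J' ⊆ J → Good J A → Good J' A

/-- GLU: two surfaces which agree over the intersection of two intervals can be glued. -/
def Stmt_GLU : Prop :=
  ∀ (a b c d : ℝ) (A A' : Set E5), a < c → c < b → b < d →
    Good (Ioo a b) A → Down (Ioo a b) A → Good (Ioo c d) A' → Down (Ioo c d) A' →
    Agree (Ioo c b) A A' →
    ∃ B : Set E5, Good (Ioo a d) B ∧ Down (Ioo a d) B ∧ Agree (Ioo a b) B A ∧ Agree (Ioo c d) B A'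

/-- The projection to `(s, x, p, z)`. -/
def pr4 (q : E5) : ℝ × ℝ × ℝ × ℝ := (q.1, q.2.1, q.2.2.1, q.2.2.2.1)

/-- RPL: inside an open set `B` of the space `(s, x, p, z)`, the surface `A` may be replaced by the
surface `N`, if they agree on `B` outside a closed subset `C`. -/
def Stmt_RPL : Prop :=
  ∀ (J : Set ℝ) (A N : Set E5) (B C : Set (ℝ × ℝ × ℝ × ℝ)), IsOpen J → Good J A →
    IsClosed N → (∀ q ∈ N, q.1 ∈ J → ChartAt N q) →
    (∀ q ∈ N, ∀ q' ∈ N, q.1 ∈ J → pr4 q = pr4 q' → q = q') →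
    (∀ r ∈ B, r.1 ∈ J → B ∈ 𝓝 r) → (∀ r ∈ closure C, r.1 ∈ J → r ∈ C) → C ⊆ B →
    (∀ K ⊆ J, IsCompact K → ∃ M : ℝ, ∀ q ∈ N, q.1 ∈ K → pr4 q ∈ B → ‖q.2‖ ≤ M) →
    (∀ q : E5, q.1 ∈ J → pr4 q ∈ B → pr4 q ∉ C → (q ∈ A ↔ q ∈ N)) →
    Good J {q | (pr4 q ∉ B ∧ q ∈ A) ∨ (pr4 q ∈ B ∧ q ∈ N)}

/-- The reflection of the time at `s₀`. -/
def rev (s₀ : ℝ) (q : E5) : E5 := (2 * s₀ - q.1, q.2.1, q.2.2.1, -q.2.2.2.1, q.2.2.2.2)

/-- REV: reversal of the time. -/
def Stmt_REV : Prop :=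
  ∀ (s₀ : ℝ) (J : Set ℝ) (A : Set E5), IsOpen J →
    (Good J A → Good ((fun s => 2 * s₀ - s) ⁻¹' J) (rev s₀ ⁻¹' A)) ∧
    (Down J A → Up ((fun s => 2 * s₀ - s) ⁻¹' J) (rev s₀ ⁻¹' A)) ∧
    (Up J A → Down ((fun s => 2 * s₀ - s) ⁻¹' J) (rev s₀ ⁻¹' A)) ∧
    ∀ (sh : Shape) (m n : ℕ) (c : Comb m n) (w : Fin n → ℝ) (q : ℝ → St n),
      rev s₀ ⁻¹' (c.surf w (c.sp sh) q) = c.surf w (c.sp sh) (fun s => q (2 * s₀ - s))

/-! ### shapes -/

/-- SHP: the profiles exist. -/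
def Stmt_SHP : Prop := Nonempty Shape

/-- PST: the static profiles. -/
def Stmt_PST : Prop :=
  ∀ (sh : Shape) (J : Set ℝ) (t : Ty) (D : ℝ → ℝ), (∀ s ∈ J, t ≠ .P → D s ≠ 0) →
    ProfOK J t D (sh.st t)

/-! ### phases -/

variable {m n : ℕ}

/-- VEX: the piece of a vertex is an exact chart. -/
def Stmt_VEX : Prop :=
  ∀ {m n : ℕ} (c : Comb m n) (w : Fin n → ℝ) (J : Set ℝ) (π : Fin n → Prof) (q : ℝ → St n),
    IsPhase c w J π q → ∀ i, ∀ s ∈ J, ∀ u,
      ExactChart (fun b : ℝ × ℝ => (b.1, c.vp w π b.1 (q b.1) (deriv q b.1) i b.2)) (s, u)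

/-- EEX: an edge is an exact chart; it contains its two end points. -/
def Stmt_EEX : Prop :=
  ∀ {m n : ℕ} (c : Comb m n) (w : Fin n → ℝ) (J : Set ℝ) (π : Fin n → Prof) (q : ℝ → St n),
    IsPhase c w J π q → ∀ e, ∀ s ∈ J, ∀ x,
      ExactChart (fun b : ℝ × ℝ => (b.1, c.ept (q b.1) (deriv q b.1) e b.2)) (s, x)

/-- VLN: for `|u| ≥ 1` the piece of a vertex lies on the line of an edge. -/
def Stmt_VLN : Prop :=
  ∀ {m n : ℕ} (c : Comb m n) (w : Fin n → ℝ) (π : Fin n → Prof) (s : ℝ) (q v : St n) (i : Fin n),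
    c.Valid → (∀ i, ProfBd (c.ty i) s (π i)) → (∀ e, q.1 (c.lf e) < q.1 (c.rt e)) →
    (∀ u, u ≤ -1 → (π i).Y s u = 0 →
      c.vp w π s q v i u = c.ept q v (c.ea i) (q.1 i + w i * (c.ty i).inX u)) ∧
    (∀ u, 1 ≤ u → (π i).Y s u = 0 →
      c.vp w π s q v i u = c.ept q v (c.eb i) (q.1 i + w i * (c.ty i).outX u))

/-- PCL: closedness and boundedness of a phase; also of every part of it: the edges in `SE` and the
vertices in `SV`. -/
def Stmt_PCL : Prop :=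
  ∀ {m n : ℕ} (c : Comb m n) (w : Fin n → ℝ) (J : Set ℝ) (π : Fin n → Prof) (q : ℝ → St n),
    IsPhase c w J π q → ∀ (SE : Set (Fin m)) (SV : Set (Fin n)),
    let A : Set E5 := {r | (∃ e ∈ SE, ∃ x ∈ c.rg w (q r.1) e,
        r.2 = c.ept (q r.1) (deriv q r.1) e x) ∨
      ∃ i ∈ SV, ∃ u, |u| ≤ 2 ∧ r.2 = c.vp w π r.1 (q r.1) (deriv q r.1) i u}
    (∀ r ∈ closure A, r.1 ∈ J → r ∈ A) ∧
    ∀ K ⊆ J, IsCompact K → ∃ M : ℝ, ∀ r ∈ A, r.1 ∈ K → ‖r.2‖ ≤ M

/-- PIN: the slices of a phase are embedded. -/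
def Stmt_PIN : Prop :=
  ∀ {m n : ℕ} (c : Comb m n) (w : Fin n → ℝ) (J : Set ℝ) (π : Fin n → Prof) (q : ℝ → St n),
    IsPhase c w J π q → ∀ s ∈ J, ∀ a ∈ c.slice w π s (q s) (deriv q s),
    ∀ b ∈ c.slice w π s (q s) (deriv q s), Meet a b → a = b

/-- PCH: charts of a phase. -/
def Stmt_PCH : Prop :=
  ∀ {m n : ℕ} (c : Comb m n) (w : Fin n → ℝ) (J : Set ℝ) (π : Fin n → Prof) (q : ℝ → St n),
    IsPhase c w J π q → ∀ r ∈ c.surf w π q, r.1 ∈ J → ChartAt (c.surf w π q) r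

/-- PUD: paths in a phase. -/
def Stmt_PUD : Prop :=
  ∀ {m n : ℕ} (c : Comb m n) (w : Fin n → ℝ) (J : Set ℝ) (π : Fin n → Prof) (q : ℝ → St n),
    IsPhase c w J π q → Down J (c.surf w π q) ∧ Up J (c.surf w π q)

/-- PHG: phases. -/
def Stmt_PHG : Prop :=
  ∀ {m n : ℕ} (c : Comb m n) (w : Fin n → ℝ) (J : Set ℝ) (π : Fin n → Prof) (q : ℝ → St n),
    IsPhase c w J π q → Good J (c.surf w π q) ∧ Down J (c.surf w π q) ∧ Up J (c.surf w π q)

/-! ### certificates -/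

/-- CEE: separation of two edges. -/
def Stmt_CEE : Prop :=
  ∀ {m n : ℕ} (c : Comb m n) (w : Fin n → ℝ) (q v : St n), (∀ i, 0 < w i) → c.Cert w q v →
    ∀ e e', e ≠ e' → ∀ x ∈ c.rg w q e, ∀ x' ∈ c.rg w q e',
      ¬ Meet (c.ept q v e x) (c.ept q v e' x')

/-- CVV: separation of two vertices. -/
def Stmt_CVV : Prop :=
  ∀ {m n : ℕ} (c : Comb m n) (w : Fin n → ℝ) (π : Fin n → Prof) (s : ℝ) (q v : St n), c.Valid →
    (∀ i, 0 < w i) → (∀ i, ProfBd (c.ty i) s (π i)) → c.Cert w q v →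
    ∀ i j, i ≠ j → ∀ u u', |u| ≤ 2 → |u'| ≤ 2 →
      ¬ Meet (c.vp w π s q v i u) (c.vp w π s q v j u')

/-- CVE: separation of a vertex and an edge. -/
def Stmt_CVE : Prop :=
  ∀ {m n : ℕ} (c : Comb m n) (w : Fin n → ℝ) (π : Fin n → Prof) (s : ℝ) (q v : St n), c.Valid →
    (∀ i, 0 < w i) → (∀ i, ProfBd (c.ty i) s (π i)) → c.Cert w q v →
    ∀ i e, c.ea i ≠ e → c.eb i ≠ e → ∀ u, |u| ≤ 2 → ∀ x ∈ c.rg w q e,
      ¬ Meet (c.vp w π s q v i u) (c.ept q v e x)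

/-- CER: certificates are sufficient. -/
def Stmt_CER : Prop :=
  ∀ {m n : ℕ} (c : Comb m n) (w : Fin n → ℝ) (π : Fin n → Prof) (s : ℝ) (q v : St n), c.Valid →
    (∀ i, 0 < w i) → (∀ i, ProfBd (c.ty i) s (π i)) → c.Cert w q v → c.Adm w π s q v

/-- OPC: the certificates are open conditions. -/
def Stmt_OPC : Prop :=
  ∀ {m n : ℕ} (c : Comb m n) (w : Fin n → ℝ), (∀ i, 0 < w i) →
    IsOpen {a : St n × St n | c.Cert w a.1 a.2}

/-- SM2: smoothing of a path with one corner, with the velocities in an open set of allowed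
positions and velocities. -/
def Stmt_SM2 : Prop :=
  ∀ {n : ℕ} (_sh : Shape) (U : Set (St n × St n)) (Q V V' : St n) (t : ℝ), IsOpen U →
    (∀ l ∈ Icc (0 : ℝ) 1, (Q, (1 - l) • V + l • V') ∈ U) → ∀ η > 0,
    ∃ (q : ℝ → St n) (δ : ℝ), 0 < δ ∧ δ < η ∧ ContDiff ℝ ∞ q ∧
      (∀ s, s ≤ t - δ → q s = lin Q V t s) ∧ (∀ s, t + δ ≤ s → q s = lin Q V' t s) ∧
      ∀ s ∈ Icc (t - δ) (t + δ), (q s, deriv q s) ∈ U

/-! ### elementary moves -/

/-- ATR: a transition over the time interval `[t, t']`. -/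
def Stmt_ATR : Prop :=
  ∀ {m n m' n' : ℕ} (K : Set LC.R3) (sh : Shape) (c : Comb m n) (w : Fin n → ℝ) (Q V : St n)
    (t : ℝ) (c' : Comb m' n') (w' : Fin n' → ℝ) (Q' V' : St n') (t' ε : ℝ) (B : Set E5),
    t < t' → 0 < ε → At K sh c w Q V t → Good (Ioo (t - ε) (t' + ε)) B →
    Down (Ioo (t - ε) (t' + ε)) B →
    Agree (Ioo (t - ε) (t + ε)) B (c.surf w (c.sp sh) (lin Q V t)) →
    Agree (Ioo (t' - ε) (t' + ε)) B (c'.surf w' (c'.sp sh) (lin Q' V' t')) →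
    At K sh c' w' Q' V' t'

/-- MOV: linear motion. -/
def Stmt_MOV : Prop :=
  ∀ {m n : ℕ} (K : Set LC.R3) (sh : Shape) (c : Comb m n) (w : Fin n → ℝ) (Q V : St n) (t t' : ℝ),
    c.Valid → (∀ i, 0 < w i) → At K sh c w Q V t → t < t' →
    (∀ s ∈ Icc t t', c.Cert w (lin Q V t s) V) → At K sh c w (lin Q V t t') V t'

/-- SWI: change of the velocities. -/
def Stmt_SWI : Prop :=
  ∀ {m n : ℕ} (K : Set LC.R3) (sh : Shape) (c : Comb m n) (w : Fin n → ℝ) (Q V V' : St n)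
    (t t' : ℝ), c.Valid → (∀ i, 0 < w i) → At K sh c w Q V t → t < t' →
    (∀ l ∈ Icc (0 : ℝ) 1, c.Cert w Q ((1 - l) • V + l • V')) →
    (∀ s ∈ Icc t t', c.Cert w (lin Q V' t s) V') → At K sh c w (lin Q V' t t') V' t'

/-- EQA: a different description of the same surface near the time `t`. -/
def Stmt_EQA : Prop :=
  ∀ {m n m' n' : ℕ} (K : Set LC.R3) (sh : Shape) (c : Comb m n) (w : Fin n → ℝ) (Q V : St n)
    (c' : Comb m' n') (w' : Fin n' → ℝ) (Q' V' : St n') (t η : ℝ), 0 < η →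
    (∀ s ∈ Ioo (t - η) (t + η), c.slice w (c.sp sh) 0 (lin Q V t s) V =
      c'.slice w' (c'.sp sh) 0 (lin Q' V' t s) V') →
    At K sh c w Q V t → At K sh c' w' Q' V' t

/-- MVP: motion with moving profiles. -/
def Stmt_MVP : Prop :=
  ∀ {m n : ℕ} (c : Comb m n) (w : Fin n → ℝ) (Q V : St n) (t ε : ℝ) (π : Fin n → Prof),
    c.Valid → (∀ i, 0 < w i) → 0 < ε → (∀ s ∈ Icc t (t + 1), c.Cert w (lin Q V t s) V) →
    (∀ i, ProfOK (Ioo (t - ε) (t + 1 + ε)) (c.ty i) (fun s => c.dl (lin Q V t s) i) (π i)) →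
    ∃ ε' > 0, ε' ≤ ε ∧ Good (Ioo (t - ε') (t + 1 + ε')) (c.surf w π (lin Q V t)) ∧
      Down (Ioo (t - ε') (t + 1 + ε')) (c.surf w π (lin Q V t))

/-! ### the transfer to the symplectization -/

/-- The surface in the symplectization. -/
def surfL (A : Set E5) : Set LC.R4 :=
  {q | ∃ F, (Real.exp q.1, q.2.1, Real.exp q.1 * q.2.2.1, q.2.2.2, F) ∈ A}

/-- TCH: charts of the surface in the symplectization. -/
def Stmt_TCH : Prop :=
  ∀ A : Set E5, Good (Ioi 0) A → ∀ p ∈ surfL A, ∃ U V φ, LC.IsChart (surfL A) U V φ ∧ p ∈ V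

/-- TEX: the surface in the symplectization is exact. -/
def Stmt_TEX : Prop :=
  ∀ A : Set E5, Good (Ioi 0) A → ∃ f : LC.R4 → ℝ,
    (∀ q : LC.R4, ∀ F, (Real.exp q.1, q.2.1, Real.exp q.1 * q.2.2.1, q.2.2.2, F) ∈ A →
      f q = Real.exp q.1 * q.2.2.2 - F) ∧
    ∀ U V φ, LC.IsChart (surfL A) U V φ → ContDiffOn ℝ ∞ (fun w => f (φ w)) U ∧
      ∀ u ∈ U, ∀ v, fderiv ℝ (fun w => f (φ w)) u v = LC.lam (φ u) (fderiv ℝ φ u v)

/-- LAG: exact surfaces are Lagrangian. -/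
def Stmt_LAG : Prop :=
  ∀ (U : Set (ℝ × ℝ)) (φ : ℝ × ℝ → LC.R4) (h : ℝ × ℝ → ℝ), IsOpen U → ContDiffOn ℝ ∞ φ U →
    ContDiffOn ℝ ∞ h U → (∀ u ∈ U, ∀ v, fderiv ℝ h u v = LC.lam (φ u) (fderiv ℝ φ u v)) →
    ∀ u ∈ U, ∀ v w, LC.omega (φ u) (fderiv ℝ φ u v) (fderiv ℝ φ u w) = 0

/-- TTO: closedness, compactness and connectedness of the surface in the symplectization. -/
def Stmt_TTO : Prop :=
  ∀ (Λ : LC.LegKnot) (A : Set E5) (e₀ S : ℝ), Good (Ioi 0) A → Down (Ioi 0) A → 0 < e₀ →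
    Agree (Ioo 0 e₀) A (cyl Λ.carrier) → (∀ q ∈ A, 0 < q.1 → q.1 ≤ S) →
    IsClosed (surfL A) ∧ IsConnected (surfL A) ∧
    ∀ T : ℝ, IsCompact (surfL A ∩ {q | -T ≤ q.1})

/-- FIN: a complete cap is an exact Lagrangian cap. -/
def Stmt_FIN : Prop := ∀ Λ : LC.LegKnot, Capped Λ.carrier → ∃ L, LC.IsExactCap Λ L

end LCA


end

section

/-!
# Part A: critical points
-/

namespace LCA

open Set Filter
open scoped ContDiff Topology

variable {m n : ℕ}

/-! ### the events -/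

/-- The data of a critical point: time, position, value of `F`, value of `z`, mean slopes on the
left and on the right, gap, speed of the tips, width. -/
structure Evt where
  s₀ : ℝ
  x₀ : ℝ
  F₀ : ℝ
  z₀ : ℝ
  P₁ : ℝ
  P₂ : ℝ
  g : ℝ
  v : ℝ
  r : ℝ

/-- The constants are positive. -/
structure Evt.Pos (E : Evt) : Prop where
  g : 0 < E.g
  v : 0 < E.v
  r : 0 < E.r

/-- Half of the difference of the values of `z` on the two strands. -/
noncomputable def Evt.ζ (E : Evt) : ℝ := E.g * E.v / 2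

/-- The function `Ψ(U) = 2 ΘP(U) - U`, which is `|U|` for `|U| ≥ 1`. -/
def Shape.Psi (sh : Shape) (U : ℝ) : ℝ := 2 * sh.ΘP U - U

/-- The point of the surface near a critical point, with the parameters `(u, x)`; `(ε₁, ε₂)` is
`(1, 1)` and `(-1, 1)` for the two saddles and `(-1, -1)` for a maximum. -/
noncomputable def Evt.pt (E : Evt) (sh : Shape) (ε₁ ε₂ : ℝ) (a : ℝ × ℝ) : E5 :=
  let U := (a.2 - E.x₀) / E.r
  let s := E.s₀ + ε₁ * (-(E.r / E.v) * sh.ξ a.1 - ε₂ * (E.r / E.v) * sh.Psi U)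
  let zb := E.ζ * (2 * sh.τ a.1 - 1)
  (s, a.2, ε₁ * ε₂ * zb * ((2 * sh.τ U - 1) / E.v) + E.P₁ + (E.P₂ - E.P₁) * sh.τ U, E.z₀ + zb,
    E.F₀ - ε₁ * (E.ζ * E.r / E.v) * (2 * sh.ΘR a.1 - sh.ξ a.1) + E.P₁ * (a.2 - E.x₀)
      + (E.P₂ - E.P₁) * E.r * sh.ΘP U + E.z₀ * (s - E.s₀))

/-- The surface near a critical point. -/
def Evt.set (E : Evt) (sh : Shape) (ε₁ ε₂ : ℝ) : Set E5 := range (E.pt sh ε₁ ε₂)

/-- ECH: the surface near a critical point is properly embedded and exact. -/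
def Stmt_ECH : Prop :=
  ∀ (E : Evt) (sh : Shape) (ε₁ ε₂ : ℝ), E.Pos → |ε₁| = 1 → |ε₂| = 1 →
    (∀ a, ExactChart (E.pt sh ε₁ ε₂) a) ∧ IsClosed (E.set sh ε₁ ε₂) ∧
    (∀ q ∈ E.set sh ε₁ ε₂, ChartAt (E.set sh ε₁ ε₂) q) ∧
    (∀ a b, pr4 (E.pt sh ε₁ ε₂ a) = pr4 (E.pt sh ε₁ ε₂ b) → a = b) ∧
    ∀ M : ℝ, ∃ M' : ℝ, ∀ q ∈ E.set sh ε₁ ε₂, |q.1| ≤ M → |q.2.1| ≤ M → ‖q.2‖ ≤ M'

/-- The combinatorics of a saddle: before, the edges `H₁` (left, upper) and `H₃` (left, lower) meet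
at the right tip `L`, the edges `H₂` (right, upper) and `H₄` (right, lower) meet at the left tip
`R`; after, `H₁` and `H₄` meet at the pass `L`, `H₃` and `H₂` meet at the pass `R`. -/
structure SadComb (c c' : Comb m n) (L R : Fin n) (H₁ H₂ H₃ H₄ : Fin m) : Prop where
  valid : c.Valid
  valid' : c'.Valid
  LR : L ≠ R
  h12 : H₁ ≠ H₂
  h13 : H₁ ≠ H₃
  h14 : H₁ ≠ H₄
  h23 : H₂ ≠ H₃
  h24 : H₂ ≠ H₄
  h34 : H₃ ≠ H₄
  tyL : c.ty L = .R
  tyR : c.ty R = .L
  aL : c.ea L = H₁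
  bL : c.eb L = H₃
  aR : c.ea R = H₄
  bR : c.eb R = H₂
  tyL' : c'.ty L = .P
  tyR' : c'.ty R = .P
  aL' : c'.ea L = H₁
  bL' : c'.eb L = H₄
  aR' : c'.ea R = H₃
  bR' : c'.eb R = H₂
  ty : ∀ i, i ≠ L → i ≠ R → c.ty i = c'.ty i
  ea : ∀ i, i ≠ L → i ≠ R → c.ea i = c'.ea i
  eb : ∀ i, i ≠ L → i ≠ R → c.eb i = c'.eb i
  lf : ∀ e, e ≠ H₄ → c.lf e = c'.lf e
  rt : ∀ e, e ≠ H₃ → c.rt e = c'.rt e

/-- The edge `e` does not meet the box around a critical point. -/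
def Comb.BoxE (c : Comb m n) (w : Fin n → ℝ) (E : Evt) (ρ : ℝ) (q v : St n) (e : Fin m) : Prop :=
  q.1 (c.rt e) - 2 * w (c.rt e) < E.x₀ - ρ ∨ E.x₀ + ρ < q.1 (c.lf e) + 2 * w (c.lf e) ∨
    c.pe q e < min E.P₁ E.P₂ - E.g / 2 ∨ max E.P₁ E.P₂ + E.g / 2 < c.pe q e ∨
    E.ζ + |c.dpe q v e| * ρ < |c.dpe q v e * E.x₀ + c.dae q v e - E.z₀|

/-- The vertical of `i` does not meet the box around a critical point. -/
def Comb.BoxV (c : Comb m n) (w : Fin n → ℝ) (E : Evt) (ρ : ℝ) (q v : St n) (i : Fin n) : Prop :=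
  q.1 i + 2 * w i < E.x₀ - ρ ∨ E.x₀ + ρ < q.1 i - 2 * w i ∨
    c.phi q i < min E.P₁ E.P₂ - E.g / 2 ∨ max E.P₁ E.P₂ + E.g / 2 < c.plo q i ∨
    ∃ σ : ℝ, |σ| = 1 ∧
      E.ζ + c.err w q v i <
        σ * (v.2 i - max (c.plo q i) (min E.P₁ E.P₂ - E.g / 2) * v.1 i - E.z₀) ∧
      E.ζ + c.err w q v i <
        σ * (v.2 i - min (c.phi q i) (max E.P₁ E.P₂ + E.g / 2) * v.1 i - E.z₀)

/-- BXC: the pieces do not meet the box. -/
def Stmt_BXC : Prop :=
  ∀ {m n : ℕ} (c : Comb m n) (w : Fin n → ℝ) (π : Fin n → Prof) (s : ℝ) (E : Evt) (ρ : ℝ)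
    (q v : St n), c.Valid → (∀ i, 0 < w i) → (∀ i, ProfBd (c.ty i) s (π i)) →
    (∀ e, q.1 (c.lf e) < q.1 (c.rt e)) →
    (∀ e, c.BoxE w E ρ q v e → ∀ x ∈ c.rg w q e, |x - E.x₀| ≤ ρ →
      min E.P₁ E.P₂ - E.g / 2 ≤ c.pe q e → c.pe q e ≤ max E.P₁ E.P₂ + E.g / 2 →
      E.ζ < |(c.ept q v e x).2.2.1 - E.z₀|) ∧
    (∀ i, c.BoxV w E ρ q v i → ∀ u, |u| ≤ 2 → |(c.vp w π s q v i u).1 - E.x₀| ≤ ρ →
      min E.P₁ E.P₂ - E.g / 2 ≤ (c.vp w π s q v i u).2.1 →
      (c.vp w π s q v i u).2.1 ≤ max E.P₁ E.P₂ + E.g / 2 →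
      E.ζ < |(c.vp w π s q v i u).2.2.1 - E.z₀|)

/-- A saddle: `c` with the path `Q + (s - s₀) V` (two tips, for `s < s₀`) and `c'` with the path
`Q + (s - s₀) V'` (two passes, for `s > s₀`). The half length of the time interval is `η`. -/
structure Saddle (c c' : Comb m n) (w : Fin n → ℝ) (L R : Fin n)
    (H₁ H₂ H₃ H₄ : Fin m) (E : Evt) (Q V V' : St n) (η : ℝ) : Prop where
  comb : SadComb c c' L R H₁ H₂ H₃ H₄
  pos : E.Pos
  wpos : ∀ i, 0 < w i
  wL : w L = E.r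
  wR : w R = E.r
  xL : Q.1 L = E.x₀
  xR : Q.1 R = E.x₀
  FL : Q.2 L = E.F₀
  FR : Q.2 R = E.F₀
  p1 : c'.pe Q H₁ = E.P₁ + E.g / 2
  p3 : c'.pe Q H₃ = E.P₁ - E.g / 2
  p2 : c'.pe Q H₂ = E.P₂ + E.g / 2
  p4 : c'.pe Q H₄ = E.P₂ - E.g / 2
  ovl : |E.P₂ - E.P₁| < E.g
  d1 : c'.dpe Q V' H₁ = 0
  d2 : c'.dpe Q V' H₂ = 0
  d3 : c'.dpe Q V' H₃ = 0
  d4 : c'.dpe Q V' H₄ = 0
  xL' : V'.1 L = 0
  xR' : V'.1 R = 0
  FL' : V'.2 L = E.z₀ - E.ζ
  FR' : V'.2 R = E.z₀ + E.ζ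
  vxL : V.1 L = E.v
  vxR : V.1 R = -E.v
  vFL : V.2 L = E.z₀ - E.ζ + (E.P₁ + E.g / 2) * E.v
  vFR : V.2 R = E.z₀ + E.ζ - (E.P₂ + E.g / 2) * E.v
  vx : ∀ i, i ≠ L → i ≠ R → V.1 i = V'.1 i
  vF : ∀ i, i ≠ L → i ≠ R → V.2 i = V'.2 i
  small : 16 * E.r < E.v * η
  len1 : ∀ t ∈ Icc (-η) η, (Q + t • V').1 (c'.lf H₁) + 2 * w (c'.lf H₁) <
    E.x₀ - (E.v * η + 4 * E.r)
  len3 : ∀ t ∈ Icc (-η) η, (Q + t • V').1 (c'.lf H₃) + 2 * w (c'.lf H₃) <
    E.x₀ - (E.v * η + 4 * E.r)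
  len2 : ∀ t ∈ Icc (-η) η, E.x₀ + (E.v * η + 4 * E.r) <
    (Q + t • V').1 (c'.rt H₂) - 2 * w (c'.rt H₂)
  len4 : ∀ t ∈ Icc (-η) η, E.x₀ + (E.v * η + 4 * E.r) <
    (Q + t • V').1 (c'.rt H₄) - 2 * w (c'.rt H₄)
  cert : ∀ t ∈ Icc (-η) η, c'.Cert w (Q + t • V') V'
  boxe : ∀ t ∈ Icc (-η) η, ∀ e, e ≠ H₁ → e ≠ H₂ → e ≠ H₃ → e ≠ H₄ →
    c'.BoxE w E (E.v * η + 4 * E.r) (Q + t • V') V' e
  boxv : ∀ t ∈ Icc (-η) η, ∀ i, i ≠ L → i ≠ R →
    c'.BoxV w E (E.v * η + 4 * E.r) (Q + t • V') V' i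

/-- The surface over a time interval around a saddle. -/
def Comb.sad (c : Comb m n) (w : Fin n → ℝ) (π : Fin n → Prof) (q : ℝ → St n) (L R : Fin n)
    (H₁ H₂ H₃ H₄ : Fin m) (E : Evt) (sh : Shape) (ρ : ℝ) : Set E5 :=
  {r | (∃ e, e ≠ H₁ ∧ e ≠ H₂ ∧ e ≠ H₃ ∧ e ≠ H₄ ∧ ∃ x ∈ c.rg w (q r.1) e,
      r.2 = c.ept (q r.1) (deriv q r.1) e x) ∨
    (∃ i, i ≠ L ∧ i ≠ R ∧ ∃ u, |u| ≤ 2 ∧ r.2 = c.vp w π r.1 (q r.1) (deriv q r.1) i u) ∨
    (∃ e, (e = H₁ ∨ e = H₂ ∨ e = H₃ ∨ e = H₄) ∧ ∃ x ∈ c.rg w (q r.1) e, ρ ≤ |x - E.x₀| ∧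
      r.2 = c.ept (q r.1) (deriv q r.1) e x) ∨
    (r ∈ E.set sh 1 1 ∧ |r.2.1 - E.x₀| < ρ)}

/-- SDG: the surface near a saddle is good. -/
def Stmt_SDG : Prop :=
  ∀ {m n : ℕ} (sh : Shape) (c c' : Comb m n) (w : Fin n → ℝ) (L R : Fin n) (H₁ H₂ H₃ H₄ : Fin m)
    (E : Evt) (Q V V' : St n) (η : ℝ), Saddle c c' w L R H₁ H₂ H₃ H₄ E Q V V' η →
    Good (Ioo (E.s₀ - η) (E.s₀ + η)) (c'.sad w (c'.sp sh) (lin Q V' E.s₀) L R
      H₁ H₂ H₃ H₄ E sh (E.v * η + 2 * E.r))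

/-- SDU: paths in the surface near a saddle. -/
def Stmt_SDU : Prop :=
  ∀ {m n : ℕ} (sh : Shape) (c c' : Comb m n) (w : Fin n → ℝ) (L R : Fin n) (H₁ H₂ H₃ H₄ : Fin m)
    (E : Evt) (Q V V' : St n) (η : ℝ), Saddle c c' w L R H₁ H₂ H₃ H₄ E Q V V' η →
    let A := c'.sad w (c'.sp sh) (lin Q V' E.s₀) L R
      H₁ H₂ H₃ H₄ E sh (E.v * η + 2 * E.r)
    Down (Ioo (E.s₀ - η) (E.s₀ + η)) A ∧ Up (Ioo (E.s₀ - η) (E.s₀ + η)) A

/-- SDA: after the saddle. -/
def Stmt_SDA : Prop :=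
  ∀ {m n : ℕ} (sh : Shape) (c c' : Comb m n) (w : Fin n → ℝ) (L R : Fin n) (H₁ H₂ H₃ H₄ : Fin m)
    (E : Evt) (Q V V' : St n) (η : ℝ), Saddle c c' w L R H₁ H₂ H₃ H₄ E Q V V' η →
    Agree (Ioo (E.s₀ + 8 * E.r / E.v) (E.s₀ + η))
      (c'.sad w (c'.sp sh) (lin Q V' E.s₀) L R H₁ H₂ H₃ H₄ E sh
        (E.v * η + 2 * E.r))
      (c'.surf w (c'.sp sh) (lin Q V' E.s₀))

/-- SDB: before the saddle. -/
def Stmt_SDB : Prop :=
  ∀ {m n : ℕ} (sh : Shape) (c c' : Comb m n) (w : Fin n → ℝ) (L R : Fin n) (H₁ H₂ H₃ H₄ : Fin m)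
    (E : Evt) (Q V V' : St n) (η : ℝ), Saddle c c' w L R H₁ H₂ H₃ H₄ E Q V V' η →
    Agree (Ioo (E.s₀ - η) (E.s₀ - 8 * E.r / E.v))
      (c'.sad w (c'.sp sh) (lin Q V' E.s₀) L R H₁ H₂ H₃ H₄ E sh
        (E.v * η + 2 * E.r))
      (c.surf w (c.sp sh) (lin Q V E.s₀))

/-- SDP: two tips become two passes. The times are `s₀ - η < t < s₀ - 8 r / v` and
`s₀ + 8 r / v < t' < s₀ + η`. -/
def Stmt_SDP : Prop :=
  ∀ {m n : ℕ} (K : Set LC.R3) (sh : Shape) (c c' : Comb m n) (w : Fin n → ℝ) (L R : Fin n)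
    (H₁ H₂ H₃ H₄ : Fin m) (E : Evt) (Q V V' : St n) (η t t' : ℝ),
    Saddle c c' w L R H₁ H₂ H₃ H₄ E Q V V' η → E.s₀ - η < t → t < E.s₀ - 8 * E.r / E.v →
    E.s₀ + 8 * E.r / E.v < t' → t' < E.s₀ + η → 0 < E.s₀ - η →
    At K sh c w (lin Q V E.s₀ t) V t → At K sh c' w (lin Q V' E.s₀ t') V' t'

/-- SDM: two passes become two tips (the time reversal of the former). -/
def Stmt_SDM : Prop :=
  ∀ {m n : ℕ} (K : Set LC.R3) (sh : Shape) (c c' : Comb m n) (w : Fin n → ℝ) (L R : Fin n)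
    (H₁ H₂ H₃ H₄ : Fin m) (E : Evt) (Q V V' : St n) (η t t' : ℝ),
    Saddle c c' w L R H₁ H₂ H₃ H₄ E Q V V' η → E.s₀ - η < t → t < E.s₀ - 8 * E.r / E.v →
    E.s₀ + 8 * E.r / E.v < t' → t' < E.s₀ + η → 0 < E.s₀ - η →
    At K sh c' w (lin Q (-V') E.s₀ t) (-V') t → At K sh c w (lin Q (-V) E.s₀ t') (-V) t'

/-- The end of a component: two tips and two passes; the path is `Q + (s - s₀) V` for `s < s₀`. -/
structure Death (c : Comb 4 4) (w : Fin 4 → ℝ) (lt rt pa pb : Fin 4) (H₁ H₂ H₃ H₄ : Fin 4)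
    (E : Evt) (Q V : St 4) : Prop where
  valid : c.Valid
  pos : E.Pos
  vert : ∀ i, i = lt ∨ i = rt ∨ i = pa ∨ i = pb
  edge : ∀ e, e = H₁ ∨ e = H₂ ∨ e = H₃ ∨ e = H₄
  tyl : c.ty lt = .L
  tyr : c.ty rt = .R
  tya : c.ty pa = .P
  tyb : c.ty pb = .P
  al : c.ea lt = H₁
  bl : c.eb lt = H₃
  ar : c.ea rt = H₄
  br : c.eb rt = H₂
  aa : c.ea pa = H₁
  ab : c.eb pa = H₄
  ba : c.ea pb = H₃
  bb : c.eb pb = H₂
  hw : ∀ i, w i = E.r
  hx : ∀ i, Q.1 i = E.x₀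
  hF : ∀ i, Q.2 i = E.F₀
  ovl : |E.P₂ - E.P₁| < E.g
  vxl : V.1 lt = E.v
  vxr : V.1 rt = -E.v
  vxa : V.1 pa = 0
  vxb : V.1 pb = 0
  vFl : V.2 lt = E.z₀ - E.ζ + (E.P₁ + E.g / 2) * E.v
  vFr : V.2 rt = E.z₀ + E.ζ - (E.P₂ + E.g / 2) * E.v
  vFa : V.2 pa = E.z₀ - E.ζ
  vFb : V.2 pb = E.z₀ + E.ζ

/-- DTA: before the maximum. -/
def Stmt_DTA : Prop :=
  ∀ (sh : Shape) (c : Comb 4 4) (w : Fin 4 → ℝ) (lt rt pa pb : Fin 4) (H₁ H₂ H₃ H₄ : Fin 4)
    (E : Evt) (Q V : St 4), Death c w lt rt pa pb H₁ H₂ H₃ H₄ E Q V →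
    Agree (Iio (E.s₀ - 8 * E.r / E.v)) (E.set sh (-1) (-1))
      (c.surf w (c.sp sh) (lin Q V E.s₀))

/-- DTG: the surface near a maximum is good. -/
def Stmt_DTG : Prop :=
  ∀ (sh : Shape) (E : Evt) (J : Set ℝ), E.Pos → IsOpen J → J.OrdConnected →
    Good J (E.set sh (-1) (-1)) ∧ Down J (E.set sh (-1) (-1)) ∧
    ∀ q ∈ E.set sh (-1) (-1), q.1 ≤ E.s₀ + E.r / E.v

/-- DTH: the maximum completes the cap. -/
def Stmt_DTH : Prop :=
  ∀ (K : Set LC.R3) (sh : Shape) (c : Comb 4 4) (w : Fin 4 → ℝ) (lt rt pa pb : Fin 4)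
    (H₁ H₂ H₃ H₄ : Fin 4) (E : Evt) (Q V : St 4) (t : ℝ),
    Death c w lt rt pa pb H₁ H₂ H₃ H₄ E Q V → t < E.s₀ - 8 * E.r / E.v →
    At K sh c w (lin Q V E.s₀ t) V t → Capped K

end LCA


end

section

/-!
# Part A: the initial cylinder and knot, widths, trivial vertices, folds
-/

namespace LCA

open Set Filter
open scoped ContDiff Topology

variable {m n m' n' : ℕ}

/-! ### the beginning -/

/-- The subset of `ℝ³` given by a slice at the time `1` of a cylinder. -/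
def Comb.knot (c : Comb m n) (sh : Shape) (w : Fin n → ℝ) (Q : St n) : Set LC.R3 :=
  {r | (r.1, r.2.1, r.2.2, r.2.2) ∈ c.slice w (c.sp sh) 0 Q (0, Q.2)}

/-- CYL: the cylinder. -/
def Stmt_CYL : Prop :=
  ∀ {m n : ℕ} (sh : Shape) (c : Comb m n) (w : Fin n → ℝ) (Q : St n), c.Valid →
    (∀ i, 0 < w i) → c.Cert w Q (0, Q.2) → At (c.knot sh w Q) sh c w Q (0, Q.2) 1

/-- The polygon has one component; the vertex `i + 1` follows the vertex `i`, the edge `i` joins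
them. -/
structure Comb.Cyc [NeZero n] (c : Comb n n) : Prop where
  edge : ∀ i, (c.lf i = i ∧ c.rt i = i + 1) ∨ (c.lf i = i + 1 ∧ c.rt i = i)
  vert : ∀ i, (c.ea (i + 1) = i ∧ c.eb (i + 1) = i + 1) ∨ (c.ea (i + 1) = i + 1 ∧ c.eb (i + 1) = i)

/-- KNT: the slice is a Legendrian knot. -/
def Stmt_KNT : Prop :=
  ∀ {n : ℕ} [NeZero n] (sh : Shape) (c : Comb n n) (w : Fin n → ℝ) (Q : St n), c.Valid → c.Cyc →
    (∀ i, 0 < w i) → c.Cert w Q (0, Q.2) →
    (∀ e, 6 * (w (c.lf e) + w (c.rt e)) < Q.1 (c.rt e) - Q.1 (c.lf e)) →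
    ∃ Λ : LC.LegKnot, Λ.carrier = c.knot sh w Q

/-! ### changes of the description -/

/-- The edges `ea` and `eb` of a tip are exchanged. -/
structure SwpComb (c c' : Comb m n) (i : Fin n) : Prop where
  valid : c.Valid
  tip : c.ty i ≠ .P
  lf : c'.lf = c.lf
  rt : c'.rt = c.rt
  ty : c'.ty = c.ty
  ea : c'.ea i = c.eb i
  eb : c'.eb i = c.ea i
  ea' : ∀ j, j ≠ i → c'.ea j = c.ea j
  eb' : ∀ j, j ≠ i → c'.eb j = c.eb j

/-- SWP: exchange of `ea` and `eb` at a tip. -/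
def Stmt_SWP : Prop :=
  ∀ {m n : ℕ} (sh : Shape) (c c' : Comb m n) (w : Fin n → ℝ) (i : Fin n) (q v : St n),
    SwpComb c c' i → (∀ e, q.1 (c.lf e) < q.1 (c.rt e)) →
    c'.Valid ∧ c.slice w (c.sp sh) 0 q v = c'.slice w (c'.sp sh) 0 q v

/-- The polygon `c'` is obtained from `c` by a trivial vertex `j` on the edge `e₀`. The edge
`ιE e₀` is the left part, `e` is the right part. -/
structure InsComb (c : Comb m n) (c' : Comb m' n') (ιE : Fin m → Fin m') (ιV : Fin n → Fin n')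
    (e₀ : Fin m) (e : Fin m') (j : Fin n') : Prop where
  valid : c.Valid
  injE : Function.Injective ιE
  injV : Function.Injective ιV
  newE : ∀ d, ιE d ≠ e
  newV : ∀ k, ιV k ≠ j
  covE : ∀ d', d' = e ∨ ∃ d, ιE d = d'
  covV : ∀ k', k' = j ∨ ∃ k, ιV k = k'
  ty : ∀ k, c'.ty (ιV k) = c.ty k
  tyj : c'.ty j = .P
  eaj : c'.ea j = ιE e₀
  ebj : c'.eb j = e
  lf : ∀ d, c'.lf (ιE d) = ιV (c.lf d)
  rt : ∀ d, d ≠ e₀ → c'.rt (ιE d) = ιV (c.rt d)
  rt₀ : c'.rt (ιE e₀) = j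
  lfe : c'.lf e = j
  rte : c'.rt e = ιV (c.rt e₀)
  ea : ∀ k, ¬ (k = c.rt e₀ ∧ c.ea k = e₀) → c'.ea (ιV k) = ιE (c.ea k)
  eb : ∀ k, ¬ (k = c.rt e₀ ∧ c.eb k = e₀) → c'.eb (ιV k) = ιE (c.eb k)
  ea₀ : c.ea (c.rt e₀) = e₀ → c'.ea (ιV (c.rt e₀)) = e
  eb₀ : c.eb (c.rt e₀) = e₀ → c'.eb (ιV (c.rt e₀)) = e

/-- The positions and velocities after the insertion of a trivial vertex. -/
structure InsSt (c : Comb m n) (c' : Comb m' n') (ιV : Fin n → Fin n') (e₀ : Fin m) (j : Fin n')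
    (w : Fin n → ℝ) (w' : Fin n' → ℝ) (q v : St n) (q' v' : St n') : Prop where
  len : ∀ d, q.1 (c.lf d) < q.1 (c.rt d)
  hw : ∀ k, w' (ιV k) = w k
  wj : 0 < w' j
  qx : ∀ k, q'.1 (ιV k) = q.1 k
  qF : ∀ k, q'.2 (ιV k) = q.2 k
  vx : ∀ k, v'.1 (ιV k) = v.1 k
  vF : ∀ k, v'.2 (ιV k) = v.2 k
  left : q.1 (c.lf e₀) + 2 * w (c.lf e₀) ≤ q'.1 j - 2 * w' j
  right : q'.1 j + 2 * w' j ≤ q.1 (c.rt e₀) - 2 * w (c.rt e₀)
  Fj : q'.2 j = c.pe q e₀ * q'.1 j + c.ae q e₀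
  vj : v'.2 j = c.dpe q v e₀ * q'.1 j + c.dae q v e₀ + c.pe q e₀ * v'.1 j

/-- INS: insertion of a trivial vertex. -/
def Stmt_INS : Prop :=
  ∀ {m n m' n' : ℕ} (sh : Shape) (c : Comb m n) (c' : Comb m' n') (ιE : Fin m → Fin m')
    (ιV : Fin n → Fin n') (e₀ : Fin m) (e : Fin m') (j : Fin n') (w : Fin n → ℝ)
    (w' : Fin n' → ℝ) (q v : St n) (q' v' : St n'), InsComb c c' ιE ιV e₀ e j →
    (∀ i, 0 < w i) → InsSt c c' ιV e₀ j w w' q v q' v' →
    c'.Valid ∧ c.slice w (c.sp sh) 0 q v = c'.slice w' (c'.sp sh) 0 q' v'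

/-! ### moving profiles -/

/-- WPR: profiles with decreasing widths. -/
def Stmt_WPR : Prop :=
  ∀ (sh : Shape) (ty : Ty) (l : ℝ), 0 < l → l ≤ 1 → ∃ π : Prof,
    (∀ (J : Set ℝ) (D : ℝ → ℝ), IsOpen J → (∀ s ∈ J, ty ≠ .P → D s ≠ 0) → ProfOK J ty D π) ∧
    (∀ s ≤ -(1 / 4 : ℝ), ∀ u, π.X s u = (sh.st ty).X 0 u ∧ π.P s u = sh.τ u ∧
      π.Θ s u = (sh.st ty).Θ 0 u) ∧
    ∀ s ≥ (1 / 4 : ℝ), ∀ u, π.X s u = l * (sh.st ty).X 0 (u / l) ∧ π.P s u = sh.τ (u / l) ∧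
      π.Θ s u = l * (sh.st ty).Θ 0 (u / l)

/-- WEQ: a profile of width `l w` is a profile of width `w`. -/
def Stmt_WEQ : Prop :=
  ∀ {m n : ℕ} (sh : Shape) (c : Comb m n) (w w' l : Fin n → ℝ) (q v : St n) (π : Fin n → Prof)
    (s : ℝ), c.Valid → (∀ i, 0 < w i) → (∀ i, 0 < l i) → (∀ i, l i ≤ 1) →
    (∀ i, w' i = l i * w i) → (∀ e, 2 * (w (c.lf e) + w (c.rt e)) < q.1 (c.rt e) - q.1 (c.lf e)) →
    (∀ i, ∀ u, (π i).X s u = l i * (sh.st (c.ty i)).X 0 (u / l i) ∧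
      (π i).P s u = sh.τ (u / l i) ∧ (π i).Θ s u = l i * (sh.st (c.ty i)).Θ 0 (u / l i) ∧
      (π i).Y s u = 0) →
    c.slice w π s q v = c.slice w' (c.sp sh) 0 q v

/-- WID: the widths may be decreased or increased. -/
def Stmt_WID : Prop :=
  ∀ {m n : ℕ} (K : Set LC.R3) (sh : Shape) (c : Comb m n) (w w' : Fin n → ℝ) (Q V : St n) (t : ℝ),
    c.Valid → (∀ i, 0 < w' i) → (∀ i, w' i ≤ w i) →
    (∀ s ∈ Icc t (t + 1), c.Cert w (lin Q V t s) V) →
    (At K sh c w Q V t → At K sh c w' (lin Q V t (t + 1)) V (t + 1)) ∧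
    (At K sh c w' Q V t → At K sh c w (lin Q V t (t + 1)) V (t + 1))

/-- The polygon `c'` is obtained from `c` by a fold at the pass `i`: the pass is replaced by the
right tip `ιV i`, the edge `e` and the left tip `j`. -/
structure FoldComb (c : Comb m n) (c' : Comb m' n') (ιE : Fin m → Fin m') (ιV : Fin n → Fin n')
    (i : Fin n) (e : Fin m') (j : Fin n') : Prop where
  valid : c.Valid
  injE : Function.Injective ιE
  injV : Function.Injective ιV
  newE : ∀ d, ιE d ≠ e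
  newV : ∀ k, ιV k ≠ j
  covE : ∀ d', d' = e ∨ ∃ d, ιE d = d'
  covV : ∀ k', k' = j ∨ ∃ k, ιV k = k'
  tyi : c.ty i = .P
  tyi' : c'.ty (ιV i) = .R
  tyj : c'.ty j = .L
  eai : c'.ea (ιV i) = ιE (c.ea i)
  ebi : c'.eb (ιV i) = e
  eaj : c'.ea j = e
  ebj : c'.eb j = ιE (c.eb i)
  lfe : c'.lf e = j
  rte : c'.rt e = ιV i
  lf₀ : c'.lf (ιE (c.eb i)) = j
  lf : ∀ d, d ≠ c.eb i → c'.lf (ιE d) = ιV (c.lf d)
  rt : ∀ d, c'.rt (ιE d) = ιV (c.rt d)
  ty : ∀ k, k ≠ i → c'.ty (ιV k) = c.ty k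
  ea : ∀ k, k ≠ i → c'.ea (ιV k) = ιE (c.ea k)
  eb : ∀ k, k ≠ i → c'.eb (ιV k) = ιE (c.eb k)

/-- The positions, velocities and widths after a fold. -/
structure FoldSt (c : Comb m n) (c' : Comb m' n') (ιV : Fin n → Fin n') (i : Fin n) (j : Fin n')
    (w : Fin n → ℝ) (w' : Fin n' → ℝ) (q v : St n) (q' v' : St n') : Prop where
  len : ∀ d, 2 * (w (c.lf d) + w (c.rt d)) < q.1 (c.rt d) - q.1 (c.lf d)
  hw : ∀ k, k ≠ i → w' (ιV k) = w k
  wi : w' (ιV i) = w i / 8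
  wj : w' j = w i / 8
  qx : ∀ k, k ≠ i → q'.1 (ιV k) = q.1 k
  qF : ∀ k, k ≠ i → q'.2 (ιV k) = q.2 k
  vx : ∀ k, k ≠ i → v'.1 (ιV k) = v.1 k
  vF : ∀ k, k ≠ i → v'.2 (ιV k) = v.2 k
  xi : q'.1 (ιV i) = q.1 i + w i / 2
  xj : q'.1 j = q.1 i - w i / 2
  Fi : q'.2 (ιV i) = q.2 i + c.pe q (c.ea i) * (w i / 2)
  Fj : q'.2 j = q.2 i - c.pe q (c.eb i) * (w i / 2)
  vxi : v'.1 (ιV i) = v.1 i
  vxj : v'.1 j = v.1 i
  vFi : v'.2 (ιV i) = v.2 i + c.dpe q v (c.ea i) * (w i / 2)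
  vFj : v'.2 j = v.2 i - c.dpe q v (c.eb i) * (w i / 2)

/-- The folded profile. -/
def FoldSet (sh : Shape) (x p θ : ℝ) : Prop :=
  (-2 ≤ x ∧ x ≤ 1 / 4 ∧ p = 0 ∧ θ = 0) ∨
  (∃ u, |u| ≤ 2 ∧ x = 1 / 2 + sh.ξ u / 8 ∧ p = sh.τ u / 2 ∧ θ = sh.ΘR u / 16) ∨
  (-(1 / 4) ≤ x ∧ x ≤ 1 / 4 ∧ p = 1 / 2 ∧ θ = (x - 1 / 2) / 2) ∨
  (∃ u, |u| ≤ 2 ∧ x = -(1 / 2) - sh.ξ u / 8 ∧ p = 1 / 2 + sh.τ u / 2 ∧
    θ = (x - 1 / 2) / 2 - sh.ΘR u / 16) ∨
  (-(1 / 4) ≤ x ∧ x ≤ 2 ∧ p = 1 ∧ θ = x)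

/-- A profile which folds. -/
structure FoldProf (sh : Shape) (π : Prof) : Prop where
  ok : ∀ (J : Set ℝ) (D : ℝ → ℝ), IsOpen J → (∀ s ∈ J, D s ≠ 0) → ProfOK J .P D π
  early : ∀ s ≤ -(1 / 4 : ℝ), ∀ u, π.X s u = u ∧ π.P s u = sh.τ u ∧ π.Θ s u = sh.ΘP u
  const : ∀ s ≥ (1 / 4 : ℝ), ∀ u, π.X s u = π.X 1 u ∧ π.P s u = π.P 1 u ∧ π.Θ s u = π.Θ 1 u
  late : ∀ x p θ, (∃ u, |u| ≤ 2 ∧ π.X 1 u = x ∧ π.P 1 u = p ∧ π.Θ 1 u = θ) ↔ FoldSet sh x p θ

/-- FPR: a folding profile exists. -/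
def Stmt_FPR : Prop := ∀ sh : Shape, ∃ π : Prof, FoldProf sh π

/-- FEQ: the folded slice. -/
def Stmt_FEQ : Prop :=
  ∀ {m n m' n' : ℕ} (sh : Shape) (c : Comb m n) (c' : Comb m' n') (ιE : Fin m → Fin m')
    (ιV : Fin n → Fin n') (i : Fin n) (e : Fin m') (j : Fin n') (w : Fin n → ℝ)
    (w' : Fin n' → ℝ) (q v : St n) (q' v' : St n') (π : Fin n → Prof) (s : ℝ),
    FoldComb c c' ιE ιV i e j → (∀ i, 0 < w i) → FoldSt c c' ιV i j w w' q v q' v' →
    FoldProf sh (π i) → 1 / 4 ≤ s → (∀ u, (π i).Y s u = 0) →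
    (∀ k, k ≠ i → π k = sh.st (c.ty k)) →
    c'.Valid ∧ c.slice w π s q v = c'.slice w' (c'.sp sh) 0 q' v'

/-- FLD: a fold. -/
def Stmt_FLD : Prop :=
  ∀ {m n m' n' : ℕ} (K : Set LC.R3) (sh : Shape) (c : Comb m n) (c' : Comb m' n')
    (ιE : Fin m → Fin m') (ιV : Fin n → Fin n') (i : Fin n) (e : Fin m') (j : Fin n')
    (w : Fin n → ℝ) (w' : Fin n' → ℝ) (Q V : St n) (Q' V' : St n') (t : ℝ),
    FoldComb c c' ιE ιV i e j → (∀ i, 0 < w i) →
    (∀ s ∈ Icc t (t + 1), c.Cert w (lin Q V t s) V) →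
    (∀ s ∈ Icc t (t + 1), c.dl (lin Q V t s) i ≠ 0) →
    (∀ s : ℝ, (∀ d, 2 * (w (c.lf d) + w (c.rt d)) <
        (lin Q V t s).1 (c.rt d) - (lin Q V t s).1 (c.lf d)) →
      FoldSt c c' ιV i j w w' (lin Q V t s) V (lin Q' V' t s) V') →
    (At K sh c w Q V t → At K sh c' w' (lin Q' V' t (t + 1)) V' (t + 1)) ∧
    (At K sh c' w' Q' V' t → At K sh c w (lin Q V t (t + 1)) V (t + 1))

end LCA


end

section

/-!
# LFI: left inverses of exact charts
-/

namespace LCA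

open Set Filter
open scoped ContDiff Topology

namespace LFI

/-- The projection to `(s, x, p, z)` as a continuous linear map. -/
noncomputable def P : E5 →L[ℝ] ℝ × ℝ × ℝ × ℝ :=
  (ContinuousLinearMap.fst ℝ ℝ (ℝ × ℝ × ℝ × ℝ)).prod
    (((ContinuousLinearMap.fst ℝ ℝ (ℝ × ℝ × ℝ)).comp
        (ContinuousLinearMap.snd ℝ ℝ (ℝ × ℝ × ℝ × ℝ))).prod
      (((ContinuousLinearMap.fst ℝ ℝ (ℝ × ℝ)).comp
          ((ContinuousLinearMap.snd ℝ ℝ (ℝ × ℝ × ℝ)).comp
            (ContinuousLinearMap.snd ℝ ℝ (ℝ × ℝ × ℝ × ℝ)))).prod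
        ((ContinuousLinearMap.fst ℝ ℝ ℝ).comp
          ((ContinuousLinearMap.snd ℝ ℝ (ℝ × ℝ)).comp
            ((ContinuousLinearMap.snd ℝ ℝ (ℝ × ℝ × ℝ)).comp
              (ContinuousLinearMap.snd ℝ ℝ (ℝ × ℝ × ℝ × ℝ)))))))

theorem P_apply (q : E5) : P q = (q.1, q.2.1, q.2.2.1, q.2.2.2.1) := rfl

end LFI

open _root_.LCA.LFI in
theorem t_LFI : Stmt_LFI := by
  intro f a hf
  have hsm : ContDiffAt ℝ ∞ f a := hf.smooth.self_of_nhds
  have hfd : HasFDerivAt f (fderiv ℝ f a) a :=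
    (hsm.differentiableAt (by simp)).hasFDerivAt
  set D : ℝ × ℝ →L[ℝ] ℝ × ℝ × ℝ × ℝ := P.comp (fderiv ℝ f a) with hD
  have hker : LinearMap.ker D.toLinearMap = ⊥ := by
    rw [LinearMap.ker_eq_bot']
    intro w hw
    have h0 : P (fderiv ℝ f a w) = 0 := hw
    rw [P_apply] at h0
    have h1 := congrArg Prod.fst h0
    have h2 := congrArg (fun r => r.2.1) h0
    have h3 := congrArg (fun r => r.2.2.1) h0
    have h4 := congrArg (fun r => r.2.2.2) h0
    exact hf.immersion w h1 h2 h3 h4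
  obtain ⟨l₀, hl₀⟩ := D.toLinearMap.exists_leftInverse_of_injective hker
  set l : ℝ × ℝ × ℝ × ℝ →L[ℝ] ℝ × ℝ := LinearMap.toContinuousLinearMap l₀ with hl
  have hlD : l.comp D = ContinuousLinearMap.id ℝ (ℝ × ℝ) := by
    refine ContinuousLinearMap.ext fun w => ?_
    have := LinearMap.congr_fun hl₀ w
    exact this
  set k : ℝ × ℝ → ℝ × ℝ := fun b => l (P (f b)) with hk
  have hks : ∀ b, ContDiffAt ℝ ∞ f b → ContDiffAt ℝ ∞ k b := fun b hb =>
    (l.contDiff.contDiffAt).comp b ((P.contDiff.contDiffAt).comp b hb)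
  have hka : ContDiffAt ℝ ∞ k a := hks a hsm
  have hkd : HasFDerivAt k (ContinuousLinearEquiv.refl ℝ (ℝ × ℝ) : ℝ × ℝ →L[ℝ] ℝ × ℝ) a := by
    have h1 : HasFDerivAt k (l.comp (P.comp (fderiv ℝ f a))) a :=
      (l.hasFDerivAt).comp a ((P.hasFDerivAt).comp a hfd)
    have h2 : l.comp (P.comp (fderiv ℝ f a)) =
        (ContinuousLinearEquiv.refl ℝ (ℝ × ℝ) : ℝ × ℝ →L[ℝ] ℝ × ℝ) := by
      rw [← hD, hlD]
      rfl
    rwa [h2] at h1
  set E := hka.toOpenPartialHomeomorph k hkd (by simp) with hE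
  have hEk : ∀ b, E b = k b := fun b => by rw [hE, ContDiffAt.toOpenPartialHomeomorph_coe]
  have haE : a ∈ E.source := ContDiffAt.mem_toOpenPartialHomeomorph_source hka hkd (by simp)
  have hcont : ContinuousAt (fderiv ℝ k) a :=
    (hka.fderiv_right (m := 0) (by simp)).continuousAt
  have hinv : ∀ᶠ b in 𝓝 a, fderiv ℝ k b ∈
      range ((↑) : ((ℝ × ℝ) ≃L[ℝ] (ℝ × ℝ)) → (ℝ × ℝ →L[ℝ] ℝ × ℝ)) := by
    apply hcont.eventually_mem
    rw [hkd.fderiv]
    exact ContinuousLinearEquiv.nhds _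
  obtain ⟨N, hN, hNo, haN⟩ := eventually_nhds_iff.1 (hf.smooth.and hinv)
  refine ⟨fun v => E.symm (l v), N ∩ E.source, (fun v => l v) ⁻¹' (E '' (N ∩ E.source)),
    hNo.inter E.open_source, ⟨haN, haE⟩,
    (E.isOpen_image_of_subset_source (hNo.inter E.open_source) inter_subset_right).preimage
      l.continuous, ⟨a, ⟨haN, haE⟩, hEk a⟩,
    fun b hb => (hN b hb.1).1.contDiffWithinAt, ?_, fun b hb => ⟨⟨b, hb, hEk b⟩, ?_⟩⟩
  · rintro v ⟨b, hb, hbv⟩
    have hsymm : E.symm (l v) = b := by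
      have h1 : E.symm (E b) = b := E.left_inv hb.2
      rw [← h1]
      exact congrArg E.symm hbv.symm
    obtain ⟨⟨hb1, ⟨e, he⟩⟩, hb2⟩ := And.intro (hN b hb.1) hb.2
    have hkb : ContDiffAt ℝ ∞ k b := hks b hb1
    have hkdb : HasFDerivAt k (e : ℝ × ℝ →L[ℝ] ℝ × ℝ) b := by
      rw [he]
      exact (hkb.differentiableAt (by simp)).hasFDerivAt
    have hEfun : (E : ℝ × ℝ → ℝ × ℝ) = k := funext hEk
    have hlv : l v ∈ E.target := by
      have h1 : E b ∈ E.target := E.map_source hb.2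
      have h2 : E b = l v := hbv
      rwa [h2] at h1
    have h5 : ContDiffAt ℝ ∞ E.symm (l v) := by
      apply E.contDiffAt_symm hlv (f₀' := e)
      · rw [hsymm, hEfun]
        exact hkdb
      · rw [hsymm, hEfun]
        exact hkb
    exact (h5.comp v l.contDiff.contDiffAt).contDiffWithinAt
  · have h1 : E.symm (E b) = b := E.left_inv hb.2
    have h2 : E b = l (P (f b)) := hEk b
    have h3 : E.symm (l (P (f b))) = b := by rw [← h2, h1]
    exact h3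

end LCA


end

section

/-!
# CNG: the properties are local in time
-/

namespace LCA

open Set Filter
open scoped ContDiff Topology

namespace CNG

lemma isOpen_times {J : Set ℝ} (hJ : IsOpen J) : IsOpen {q : E5 | q.1 ∈ J} :=
  hJ.preimage continuous_fst

lemma symm {J : Set ℝ} {A A' : Set E5} (h : Agree J A A') : Agree J A' A :=
  fun q hq => (h q hq).symm

lemma inter_eq {J : Set ℝ} {A A' : Set E5} (h : Agree J A A') :
    A' ∩ {q : E5 | q.1 ∈ J} = A ∩ {q : E5 | q.1 ∈ J} := by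
  ext q
  constructor
  · rintro ⟨h1, h2⟩
    exact ⟨(h q h2).2 h1, h2⟩
  · rintro ⟨h1, h2⟩
    exact ⟨(h q h2).1 h1, h2⟩

lemma nhdsWithin_eq {J : Set ℝ} {A A' : Set E5} (hJ : IsOpen J) (h : Agree J A A') {q : E5}
    (hq : q.1 ∈ J) : 𝓝[A] q = 𝓝[A'] q := by
  have hO := isOpen_times hJ
  rw [nhdsWithin_restrict A hq hO, nhdsWithin_restrict A' hq hO]
  rw [inter_eq h]

lemma chart {J : Set ℝ} {A A' : Set E5} (hJ : IsOpen J) (h : Agree J A A') {q : E5}
    (hq : q.1 ∈ J) (hc : ChartAt A q) : ChartAt A' q := by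
  obtain ⟨f, a, he, hfa, hm, hn⟩ := hc
  refine ⟨f, a, he, hfa, ?_, ?_⟩
  · have hcont : ContinuousAt f a := (he.smooth.self_of_nhds).continuousAt
    have hO : {q : E5 | q.1 ∈ J} ∈ 𝓝 (f a) := (isOpen_times hJ).mem_nhds (by rw [hfa]; exact hq)
    have h2 : ∀ᶠ b in 𝓝 a, f b ∈ {q : E5 | q.1 ∈ J} := hcont hO
    filter_upwards [hm, h2] with b h3 h4
    exact (h _ h4).1 h3
  · intro N hN
    rw [← nhdsWithin_eq hJ h hq]
    exact hn N hN

lemma good {J : Set ℝ} {A A' : Set E5} (hJ : IsOpen J) (h : Agree J A A') (hG : Good J A) :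
    Good J A' where
  closed := by
    intro q hq hqJ
    apply (h q hqJ).1
    apply hG.closed q _ hqJ
    have hO := isOpen_times hJ
    have h1 : q ∈ closure (A' ∩ {q : E5 | q.1 ∈ J}) := by
      rw [mem_closure_iff]
      intro o ho hqo
      obtain ⟨r, hr1, hr2⟩ := (mem_closure_iff.1 hq) (o ∩ {q : E5 | q.1 ∈ J}) (ho.inter hO)
        ⟨hqo, hqJ⟩
      exact ⟨r, hr1.1, hr2, hr1.2⟩
    rw [inter_eq h] at h1
    exact closure_mono inter_subset_left h1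
  bounded := by
    intro K hK hKc
    obtain ⟨M, hM⟩ := hG.bounded K hK hKc
    exact ⟨M, fun q hq hqK => hM q ((h q (hK hqK)).2 hq) hqK⟩
  chart := by
    intro q hq hqJ
    exact chart hJ h hqJ (hG.chart q ((h q hqJ).2 hq) hqJ)
  inj := by
    intro q hq q' hq' hqJ h1 h2 h3 h4
    exact hG.inj q ((h q hqJ).2 hq) q' ((h q' (h1 ▸ hqJ)).2 hq') hqJ h1 h2 h3 h4

lemma down {J : Set ℝ} {A A' : Set E5} (hc : J.OrdConnected) (h : Agree J A A') (hD : Down J A) :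
    Down J A' := by
  intro q hq hqJ c hcJ hcq
  obtain ⟨q', h1, h2, h3⟩ := hD q ((h q hqJ).2 hq) hqJ c hcJ hcq
  have hsub : Icc c q.1 ⊆ J := hc.out hcJ hqJ
  refine ⟨q', (h q' (h2 ▸ hcJ)).1 h1, h2, h3.mono ?_⟩
  rintro r ⟨hr1, hr2⟩
  exact ⟨(h r (hsub hr2)).1 hr1, hr2⟩

lemma up {J : Set ℝ} {A A' : Set E5} (hc : J.OrdConnected) (h : Agree J A A') (hD : Up J A) :
    Up J A' := by
  intro q hq hqJ c hcJ hcq
  obtain ⟨q', h1, h2, h3⟩ := hD q ((h q hqJ).2 hq) hqJ c hcJ hcq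
  have hsub : Icc q.1 c ⊆ J := hc.out hqJ hcJ
  refine ⟨q', (h q' (h2 ▸ hcJ)).1 h1, h2, h3.mono ?_⟩
  rintro r ⟨hr1, hr2⟩
  exact ⟨(h r (hsub hr2)).1 hr1, hr2⟩

end CNG

/-- the properties are local in time -/
theorem t_CNG : Stmt_CNG := by
  intro J A A' hJ hc h
  exact ⟨CNG.good hJ h, CNG.down hc h, CNG.up hc h⟩

end LCA


end

section

/-!
# RPL: replacement of a surface inside an open set
-/

namespace LCA

open Set Filter
open scoped ContDiff Topology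

namespace RPL

theorem continuous_pr4 : Continuous pr4 := by
  unfold pr4
  fun_prop

/-- `ChartAt` depends only on the germ of the set. -/
theorem chartAt_congr {A A' : Set E5} {q : E5} (h : ∀ᶠ r in 𝓝 q, (r ∈ A' ↔ r ∈ A))
    (hc : ChartAt A q) : ChartAt A' q := by
  obtain ⟨f, a, hf, hfa, hA, hN⟩ := hc
  have hcont : Tendsto f (𝓝 a) (𝓝 q) := by
    have h1 : ContDiffAt ℝ ∞ f a := hf.smooth.self_of_nhds
    have h2 := h1.continuousAt
    rw [ContinuousAt, hfa] at h2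
    exact h2
  have hset : 𝓝[A'] q = 𝓝[A] q := by
    rw [nhdsWithin_eq_iff_eventuallyEq]
    filter_upwards [h] with r hr
    exact propext hr
  refine ⟨f, a, hf, hfa, ?_, ?_⟩
  · filter_upwards [hA, hcont.eventually h] with b hb1 hb2
    exact hb2.2 hb1
  · intro U hU
    rw [hset]
    exact hN U hU

/-- Membership in the closure depends only on the germ of the set. -/
theorem closure_congr {A A' : Set E5} {q : E5} (h : ∀ᶠ r in 𝓝 q, (r ∈ A' ↔ r ∈ A))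
    (hq : q ∈ closure A') : q ∈ closure A := by
  rw [mem_closure_iff_frequently] at hq ⊢
  exact (hq.and_eventually h).mono (fun r hr => hr.2.1 hr.1)

end RPL

open _root_.LCA.RPL in
theorem t_RPL : Stmt_RPL := by
  intro J A N B C hJ hA hNc hNchart hNinj hB hC hCB hNb hAN
  set A1 : Set E5 := {q | (pr4 q ∉ B ∧ q ∈ A) ∨ (pr4 q ∈ B ∧ q ∈ N)} with hA1
  -- local equality with `N`
  have locN : ∀ q : E5, q.1 ∈ J → pr4 q ∈ B → ∀ᶠ r in 𝓝 q, (r ∈ A1 ↔ r ∈ N) := by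
    intro q hqJ hqB
    have h1 : ∀ᶠ r in 𝓝 q, pr4 r ∈ B :=
      continuous_pr4.continuousAt.eventually (hB (pr4 q) hqB hqJ)
    filter_upwards [h1] with r hr
    constructor
    · rintro (h | h)
      · exact absurd hr h.1
      · exact h.2
    · intro h
      exact Or.inr ⟨hr, h⟩
  -- local equality with `A`
  have locA : ∀ q : E5, q.1 ∈ J → pr4 q ∉ B → ∀ᶠ r in 𝓝 q, (r ∈ A1 ↔ r ∈ A) := by
    intro q hqJ hqB
    have h0 : pr4 q ∈ (closure C)ᶜ := by
      intro h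
      exact hqB (hCB (hC (pr4 q) h hqJ))
    have h1 : ∀ᶠ r in 𝓝 q, pr4 r ∈ (closure C)ᶜ :=
      continuous_pr4.continuousAt.eventually (isClosed_closure.isOpen_compl.mem_nhds h0)
    have h2 : ∀ᶠ r in 𝓝 q, r.1 ∈ J :=
      continuous_fst.continuousAt.eventually (hJ.mem_nhds hqJ)
    filter_upwards [h1, h2] with r hr hrJ
    have hrC : pr4 r ∉ C := fun h => hr (subset_closure h)
    constructor
    · rintro (h | h)
      · exact h.2
      · exact (hAN r hrJ h.1 hrC).2 h.2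
    · intro h
      by_cases hb : pr4 r ∈ B
      · exact Or.inr ⟨hb, (hAN r hrJ hb hrC).1 h⟩
      · exact Or.inl ⟨hb, h⟩
  refine ⟨?_, ?_, ?_, ?_⟩
  · intro q hq hqJ
    by_cases hb : pr4 q ∈ B
    · have h := closure_congr (locN q hqJ hb) hq
      rw [hNc.closure_eq] at h
      exact Or.inr ⟨hb, h⟩
    · have h := closure_congr (locA q hqJ hb) hq
      exact Or.inl ⟨hb, hA.closed q h hqJ⟩
  · intro K hKJ hK
    obtain ⟨M1, hM1⟩ := hA.bounded K hKJ hK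
    obtain ⟨M2, hM2⟩ := hNb K hKJ hK
    refine ⟨max M1 M2, ?_⟩
    rintro q (h | h) hqK
    · exact (hM1 q h.2 hqK).trans (le_max_left _ _)
    · exact (hM2 q h.2 hqK h.1).trans (le_max_right _ _)
  · rintro q hq hqJ
    rcases hq with h | h
    · exact chartAt_congr (locA q hqJ h.1) (hA.chart q h.2 hqJ)
    · exact chartAt_congr (locN q hqJ h.1) (hNchart q h.2 hqJ)
  · intro q hq q' hq' hqJ e1 e2 e3 e4
    have hpr : pr4 q = pr4 q' := by
      unfold pr4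
      rw [e1, e2, e3, e4]
    rcases hq with h | h
    · rcases hq' with h' | h'
      · exact hA.inj q h.2 q' h'.2 hqJ e1 e2 e3 e4
      · exact absurd (hpr ▸ h'.1) h.1
    · rcases hq' with h' | h'
      · exact absurd (hpr ▸ h.1) h'.1
      · exact hNinj q h.2 q' h'.2 hqJ hpr

end LCA


end

section

/-!
# EEX: an edge is an exact chart
-/

namespace LCA

open Set Filter
open scoped ContDiff Topology

namespace EEX

variable {m n : ℕ}

/-- The coordinate functions of the positions, first factor. -/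
noncomputable def L1 (n : ℕ) (i : Fin n) : St n →L[ℝ] ℝ :=
  (ContinuousLinearMap.proj i).comp (ContinuousLinearMap.fst ℝ (Fin n → ℝ) (Fin n → ℝ))

/-- The coordinate functions of the positions, second factor. -/
noncomputable def L2 (n : ℕ) (i : Fin n) : St n →L[ℝ] ℝ :=
  (ContinuousLinearMap.proj i).comp (ContinuousLinearMap.snd ℝ (Fin n → ℝ) (Fin n → ℝ))

lemma L1_apply (i : Fin n) (q : St n) : L1 n i q = q.1 i := rfl

lemma L2_apply (i : Fin n) (q : St n) : L2 n i q = q.2 i := rfl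

lemma smooth1 {J : Set ℝ} {q : ℝ → St n} (hq : ContDiffOn ℝ ∞ q J) (i : Fin n) :
    ContDiffOn ℝ ∞ (fun s => (q s).1 i) J :=
  (L1 n i).contDiff.comp_contDiffOn hq

lemma smooth2 {J : Set ℝ} {q : ℝ → St n} (hq : ContDiffOn ℝ ∞ q J) (i : Fin n) :
    ContDiffOn ℝ ∞ (fun s => (q s).2 i) J :=
  (L2 n i).contDiff.comp_contDiffOn hq

lemma deriv1 {q : ℝ → St n} {s : ℝ} (hq : DifferentiableAt ℝ q s) (i : Fin n) :
    HasDerivAt (fun s => (q s).1 i) ((deriv q s).1 i) s :=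
  (L1 n i).hasFDerivAt.comp_hasDerivAt s hq.hasDerivAt

lemma deriv2 {q : ℝ → St n} {s : ℝ} (hq : DifferentiableAt ℝ q s) (i : Fin n) :
    HasDerivAt (fun s => (q s).2 i) ((deriv q s).2 i) s :=
  (L2 n i).hasFDerivAt.comp_hasDerivAt s hq.hasDerivAt

lemma smooth_pe (c : Comb m n) {J : Set ℝ} {q : ℝ → St n} (hq : ContDiffOn ℝ ∞ q J) (e : Fin m)
    (hne : ∀ s ∈ J, (q s).1 (c.rt e) - (q s).1 (c.lf e) ≠ 0) :
    ContDiffOn ℝ ∞ (fun s => c.pe (q s) e) J :=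
  ((smooth2 hq _).sub (smooth2 hq _)).div ((smooth1 hq _).sub (smooth1 hq _)) hne

lemma smooth_ae (c : Comb m n) {J : Set ℝ} {q : ℝ → St n} (hq : ContDiffOn ℝ ∞ q J) (e : Fin m)
    (hne : ∀ s ∈ J, (q s).1 (c.rt e) - (q s).1 (c.lf e) ≠ 0) :
    ContDiffOn ℝ ∞ (fun s => c.ae (q s) e) J :=
  (smooth2 hq _).sub ((smooth_pe c hq e hne).mul (smooth1 hq _))

lemma deriv_pe (c : Comb m n) {q : ℝ → St n} {s : ℝ} (hq : DifferentiableAt ℝ q s) (e : Fin m)
    (hne : (q s).1 (c.rt e) - (q s).1 (c.lf e) ≠ 0) :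
    HasDerivAt (fun s => c.pe (q s) e) (c.dpe (q s) (deriv q s) e) s := by
  have h := ((deriv2 hq (c.rt e)).sub (deriv2 hq (c.lf e))).div
    ((deriv1 hq (c.rt e)).sub (deriv1 hq (c.lf e))) hne
  refine HasDerivAt.congr_deriv h ?_
  simp only [Comb.dpe, Comb.pe, Pi.sub_apply]
  field_simp

lemma deriv_ae (c : Comb m n) {q : ℝ → St n} {s : ℝ} (hq : DifferentiableAt ℝ q s) (e : Fin m)
    (hne : (q s).1 (c.rt e) - (q s).1 (c.lf e) ≠ 0) :
    HasDerivAt (fun s => c.ae (q s) e) (c.dae (q s) (deriv q s) e) s := by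
  have h := (deriv2 hq (c.lf e)).sub ((deriv_pe c hq e hne).mul (deriv1 hq (c.lf e)))
  refine HasDerivAt.congr_deriv h ?_
  simp only [Comb.dae]
  ring

/-- The abstract form: `P`, `A` smooth with the derivatives `dP`, `dA`. -/
lemma exact_of {J : Set ℝ} (hJ : IsOpen J) {P A dP dA : ℝ → ℝ} (hP : ContDiffOn ℝ ∞ P J)
    (hA : ContDiffOn ℝ ∞ A J) (hdP : ∀ s ∈ J, HasDerivAt P (dP s) s)
    (hdA : ∀ s ∈ J, HasDerivAt A (dA s) s) (s x : ℝ) (hs : s ∈ J) :
    ExactChart (fun b : ℝ × ℝ =>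
      ((b.1, b.2, P b.1, dP b.1 * b.2 + dA b.1, P b.1 * b.2 + A b.1) : E5)) (s, x) := by
  have hdPs : ContDiffOn ℝ ∞ dP J := by
    refine (hP.deriv_of_isOpen hJ (m := ∞) (by simp)).congr ?_
    intro r hr
    exact (hdP r hr).deriv.symm
  have hdAs : ContDiffOn ℝ ∞ dA J := by
    refine (hA.deriv_of_isOpen hJ (m := ∞) (by simp)).congr ?_
    intro r hr
    exact (hdA r hr).deriv.symm
  have hev : ∀ᶠ b : ℝ × ℝ in 𝓝 (s, x), b.1 ∈ J :=
    continuousAt_fst.eventually (hJ.mem_nhds hs)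
  have key : ∀ b : ℝ × ℝ, b.1 ∈ J → ContDiffAt ℝ ∞ (fun b : ℝ × ℝ =>
      ((b.1, b.2, P b.1, dP b.1 * b.2 + dA b.1, P b.1 * b.2 + A b.1) : E5)) b := by
    intro b hb
    have c1 : ∀ {g : ℝ → ℝ}, ContDiffOn ℝ ∞ g J → ContDiffAt ℝ ∞ (fun b : ℝ × ℝ => g b.1) b := by
      intro g hg
      exact ContDiffAt.comp b (hg.contDiffAt (hJ.mem_nhds hb)) contDiffAt_fst
    exact contDiffAt_fst.prodMk (contDiffAt_snd.prodMk ((c1 hP).prodMk
      ((((c1 hdPs).mul contDiffAt_snd).add (c1 hdAs)).prodMk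
        (((c1 hP).mul contDiffAt_snd).add (c1 hA)))))
  have fd : ∀ b : ℝ × ℝ, b.1 ∈ J → ∀ w : ℝ × ℝ,
      (fderiv ℝ (fun b : ℝ × ℝ =>
        ((b.1, b.2, P b.1, dP b.1 * b.2 + dA b.1, P b.1 * b.2 + A b.1) : E5)) b w).1 = w.1 ∧
      (fderiv ℝ (fun b : ℝ × ℝ =>
        ((b.1, b.2, P b.1, dP b.1 * b.2 + dA b.1, P b.1 * b.2 + A b.1) : E5)) b w).2.1 = w.2 ∧
      (fderiv ℝ (fun b : ℝ × ℝ =>
        ((b.1, b.2, P b.1, dP b.1 * b.2 + dA b.1, P b.1 * b.2 + A b.1) : E5)) b w).2.2.2.2 =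
        (dP b.1 * b.2 + dA b.1) * w.1 + P b.1 * w.2 := by
    intro b hb w
    have hd := (key b hb).differentiableAt (by simp)
    have h1 : HasFDerivAt (fun b : ℝ × ℝ =>
        ((b.1, b.2, P b.1, dP b.1 * b.2 + dA b.1, P b.1 * b.2 + A b.1) : E5)) _ b := hd.hasFDerivAt
    have hfst : HasFDerivAt (fun b : ℝ × ℝ => b.1) (ContinuousLinearMap.fst ℝ ℝ ℝ) b :=
      hasFDerivAt_fst
    have hsnd : HasFDerivAt (fun b : ℝ × ℝ => b.2) (ContinuousLinearMap.snd ℝ ℝ ℝ) b :=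
      hasFDerivAt_snd
    have hPb : HasFDerivAt (fun b : ℝ × ℝ => P b.1)
        (dP b.1 • ContinuousLinearMap.fst ℝ ℝ ℝ) b :=
      (hdP b.1 hb).comp_hasFDerivAt b hfst
    have hAb : HasFDerivAt (fun b : ℝ × ℝ => A b.1)
        (dA b.1 • ContinuousLinearMap.fst ℝ ℝ ℝ) b :=
      (hdA b.1 hb).comp_hasFDerivAt b hfst
    have hFb := (hPb.mul hsnd).add hAb
    refine ⟨?_, ?_, ?_⟩
    · have h2 := h1.fst
      have h3 := h2.unique hfst
      have h4 := congrArg (fun l => l w) h3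
      simpa using h4
    · have h2 := h1.snd.fst
      have h3 := h2.unique hsnd
      have h4 := congrArg (fun l => l w) h3
      simpa using h4
    · have h2 := h1.snd.snd.snd.snd
      have h3 := h2.unique hFb
      have h4 := congrArg (fun l => l w) h3
      have h5 : (fderiv ℝ (fun b : ℝ × ℝ =>
          ((b.1, b.2, P b.1, dP b.1 * b.2 + dA b.1, P b.1 * b.2 + A b.1) : E5)) b w).2.2.2.2 =
          P b.1 * w.2 + b.2 * (dP b.1 * w.1) + dA b.1 * w.1 := by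
        simpa using h4
      rw [h5]
      ring
  refine ⟨?_, ?_, ?_⟩
  · exact hev.mono fun b hb => key b hb
  · refine hev.mono fun b hb w => ?_
    obtain ⟨h1, h2, h3⟩ := fd b hb w
    rw [h1, h2, h3]
  · intro w h1 h2 _ _
    obtain ⟨k1, k2, _⟩ := fd (s, x) hs w
    exact Prod.ext (k1.symm.trans h1) (k2.symm.trans h2)

end EEX

theorem t_EEX : Stmt_EEX := by
  intro m n c w J π q hph e s hs x
  have hne : ∀ r ∈ J, (q r).1 (c.rt e) - (q r).1 (c.lf e) ≠ 0 := by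
    intro r hr
    have h := (hph.adm r hr).len e
    have h1 := hph.wpos (c.lf e)
    have h2 := hph.wpos (c.rt e)
    intro h0
    rw [h0] at h
    linarith
  have hdq : ∀ r ∈ J, DifferentiableAt ℝ q r := fun r hr =>
    (hph.smooth.contDiffAt (hph.openJ.mem_nhds hr)).differentiableAt (by simp)
  exact EEX.exact_of hph.openJ (EEX.smooth_pe c hph.smooth e hne)
    (EEX.smooth_ae c hph.smooth e hne)
    (fun r hr => EEX.deriv_pe c (hdq r hr) e (hne r hr))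
    (fun r hr => EEX.deriv_ae c (hdq r hr) e (hne r hr)) s x hs

end LCA


end

section

/-!
# PIN: the slices of a phase are embedded
-/

namespace LCA

open Set Filter
open scoped ContDiff Topology

namespace PIN

variable {m n : ℕ} {c : Comb m n} {w : Fin n → ℝ} {J : Set ℝ} {π : Fin n → Prof} {q : ℝ → St n}

/-- For `|u| ≥ 1` the function `Y` vanishes. -/
theorem Y_low (h : IsPhase c w J π q) (i : Fin n) {s : ℝ} (hs : s ∈ J) {u : ℝ} (hu : u ≤ -1) :
    (π i).Y s u = 0 := by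
  have hJ : J ∈ 𝓝 s := h.openJ.mem_nhds hs
  rw [(h.prof i).Y_eq s hs u]
  have h1 : (fun r => (π i).Θ r u) =ᶠ[𝓝 s] fun _ => (0 : ℝ) := by
    filter_upwards [hJ] with r hr
    exact (((h.prof i).bd r hr).low u hu).2.2
  have h2 : (fun r => (π i).X r u) =ᶠ[𝓝 s] fun _ => (c.ty i).inX u := by
    filter_upwards [hJ] with r hr
    exact (((h.prof i).bd r hr).low u hu).1
  rw [h1.deriv_eq, h2.deriv_eq]
  simp

theorem Y_high (h : IsPhase c w J π q) (i : Fin n) {s : ℝ} (hs : s ∈ J) {u : ℝ} (hu : 1 ≤ u) :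
    (π i).Y s u = 0 := by
  have hJ : J ∈ 𝓝 s := h.openJ.mem_nhds hs
  rw [(h.prof i).Y_eq s hs u]
  have h1 : (fun r => (π i).Θ r u) =ᶠ[𝓝 s] fun _ => (c.ty i).outX u := by
    filter_upwards [hJ] with r hr
    exact (((h.prof i).bd r hr).high u hu).2.2
  have h2 : (fun r => (π i).X r u) =ᶠ[𝓝 s] fun _ => (c.ty i).outX u := by
    filter_upwards [hJ] with r hr
    exact (((h.prof i).bd r hr).high u hu).1
  rw [h1.deriv_eq, h2.deriv_eq]
  simp

theorem lt_edge (h : IsPhase c w J π q) {s : ℝ} (hs : s ∈ J) (e : Fin m) :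
    (q s).1 (c.lf e) < (q s).1 (c.rt e) := by
  have h1 := (h.adm s hs).len e
  have h2 := h.wpos (c.lf e)
  have h3 := h.wpos (c.rt e)
  linarith

/-- A point of the piece of `i` and a point of an edge. -/
theorem ve_eq (hVLN : Stmt_VLN) (h : IsPhase c w J π q) {s : ℝ} (hs : s ∈ J) (i : Fin n)
    (e : Fin m) {u x : ℝ} (hu : |u| ≤ 2) (hx : x ∈ c.rg w (q s) e)
    (hM : Meet (c.vp w π s (q s) (deriv q s) i u) (c.ept (q s) (deriv q s) e x)) :
    c.vp w π s (q s) (deriv q s) i u = c.ept (q s) (deriv q s) e x := by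
  have hA := h.adm s hs
  have hwi := h.wpos i
  have hbd := (h.prof i).bd s hs
  obtain ⟨hV1, hV2⟩ := hVLN c w π s (q s) (deriv q s) i h.valid (fun j => (h.prof j).bd s hs)
    (lt_edge h hs)
  have hxX : (q s).1 i + w i * (π i).X s u = x := hM.1
  have hpP : c.pe (q s) (c.ea i) + c.dl (q s) i * (π i).P s u = c.pe (q s) e := hM.2.1
  obtain ⟨hu1, hu2⟩ := abs_le.mp hu
  obtain ⟨hx1, hx2⟩ := hx
  by_cases hea : c.ea i = e
  · subst hea
    have hdP : c.dl (q s) i * (π i).P s u = 0 := by linarith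
    rcases le_or_gt u (-1) with hlow | hlow
    · rw [hV1 u hlow (Y_low h i hs hlow), ← (hbd.low u hlow).1, hxX]
    · rcases le_or_gt 1 u with hhigh | hhigh
      · exfalso
        obtain ⟨hX, hP, -⟩ := hbd.high u hhigh
        rw [hP, mul_one] at hdP
        have ht := hA.tip i
        have ho := h.valid.oka i
        unfold Comb.OKa at ho
        cases htt : c.ty i with
        | P =>
          rw [htt] at ho hX
          simp only at ho
          rw [ho] at hx2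
          have hX' : (π i).X s u = u := hX
          rw [hX'] at hxX
          nlinarith
        | R =>
          exact ht (by rw [htt]; exact fun hh => Ty.noConfusion hh) hdP
        | L =>
          exact ht (by rw [htt]; exact fun hh => Ty.noConfusion hh) hdP
      · exfalso
        have hXb := abs_le.mp (hbd.X_bd u (abs_le.mpr ⟨hlow.le, hhigh.le⟩))
        have ho := h.valid.oka i
        unfold Comb.OKa at ho
        cases htt : c.ty i with
        | P =>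
          rw [htt] at ho
          simp only at ho
          rw [ho] at hx2
          nlinarith
        | R =>
          rw [htt] at ho
          simp only at ho
          rw [ho] at hx2
          nlinarith
        | L =>
          rw [htt] at ho
          simp only at ho
          rw [ho] at hx1
          nlinarith
  · by_cases heb : c.eb i = e
    · subst heb
      have hdP : c.dl (q s) i * (π i).P s u = c.dl (q s) i := by
        have : c.dl (q s) i = c.pe (q s) (c.eb i) - c.pe (q s) (c.ea i) := rfl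
        linarith
      rcases le_or_gt 1 u with hhigh | hhigh
      · rw [hV2 u hhigh (Y_high h i hs hhigh), ← (hbd.high u hhigh).1, hxX]
      · rcases le_or_gt u (-1) with hlow | hlow
        · exfalso
          obtain ⟨hX, hP, -⟩ := hbd.low u hlow
          rw [hP, mul_zero] at hdP
          have ht := hA.tip i
          have ho := h.valid.okb i
          unfold Comb.OKb at ho
          cases htt : c.ty i with
          | P =>
            rw [htt] at ho hX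
            simp only at ho
            rw [ho] at hx1
            have hX' : (π i).X s u = u := hX
            rw [hX'] at hxX
            nlinarith
          | R =>
            exact ht (by rw [htt]; exact fun hh => Ty.noConfusion hh) hdP.symm
          | L =>
            exact ht (by rw [htt]; exact fun hh => Ty.noConfusion hh) hdP.symm
        · exfalso
          have hXb := abs_le.mp (hbd.X_bd u (abs_le.mpr ⟨hlow.le, hhigh.le⟩))
          have ho := h.valid.okb i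
          unfold Comb.OKb at ho
          cases htt : c.ty i with
          | P =>
            rw [htt] at ho
            simp only at ho
            rw [ho] at hx1
            nlinarith
          | R =>
            rw [htt] at ho
            simp only at ho
            rw [ho] at hx2
            nlinarith
          | L =>
            rw [htt] at ho
            simp only at ho
            rw [ho] at hx1
            nlinarith
    · exact absurd hM (hA.ve i e hea heb u hu x ⟨hx1, hx2⟩)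

end PIN

/-- PIN: the slices of a phase are embedded. -/
theorem t_PIN (hVLN : Stmt_VLN) : Stmt_PIN := by
  intro m n c w J π q h s hs a ha b hb hM
  have hA := h.adm s hs
  rcases ha with ⟨e, x, hx, rfl⟩ | ⟨i, u, hu, rfl⟩
  · rcases hb with ⟨e', x', hx', rfl⟩ | ⟨j, u', hu', rfl⟩
    · by_cases hee : e = e'
      · subst hee
        have hxx : x = x' := hM.1
        rw [hxx]
      · exact absurd hM (hA.ee e e' hee x hx x' hx')
    · exact (PIN.ve_eq hVLN h hs j e hu' hx ⟨hM.1.symm, hM.2.1.symm, hM.2.2.symm⟩).symm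
  · rcases hb with ⟨e', x', hx', rfl⟩ | ⟨j, u', hu', rfl⟩
    · exact PIN.ve_eq hVLN h hs i e' hu hx' hM
    · by_cases hij : i = j
      · subst hij
        have h1 : (q s).1 i + w i * (π i).X s u = (q s).1 i + w i * (π i).X s u' := hM.1
        have h2 : c.pe (q s) (c.ea i) + c.dl (q s) i * (π i).P s u =
            c.pe (q s) (c.ea i) + c.dl (q s) i * (π i).P s u' := hM.2.1
        have h3 : (π i).X s u = (π i).X s u' :=
          mul_left_cancel₀ (h.wpos i).ne' (add_left_cancel h1)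
        have h4 := (h.prof i).inj s hs u u' hu hu' h3 (add_left_cancel h2)
        rw [h4]
      · exact absurd hM (hA.vv i j hij u u' hu hu')

end LCA


end

section

/-!
# PUD: paths in a phase
-/

namespace LCA

open Set Filter
open scoped ContDiff Topology

namespace PUD

/-- A continuous section over an interval joins its points. -/
lemma joined {A : Set E5} {J : Set ℝ} (hJ : J.OrdConnected) {G : ℝ → ℝ × ℝ × ℝ × ℝ}
    (hG : ContinuousOn G J) (hA : ∀ s ∈ J, ((s, G s) : E5) ∈ A) {s c a b : ℝ} (ha : a ∈ J)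
    (hb : b ∈ J) (hs : s ∈ Icc a b) (hc : c ∈ Icc a b) :
    JoinedIn {r ∈ A | r.1 ∈ Icc a b} ((s, G s) : E5) ((c, G c) : E5) := by
  have hsub : Icc a b ⊆ J := hJ.out ha hb
  have hp : IsPathConnected (Icc a b) := (convex_Icc a b).isPathConnected ⟨s, hs⟩
  have hf : ContinuousOn (fun t : ℝ => ((t, G t) : E5)) (Icc a b) :=
    continuousOn_id.prodMk (hG.mono hsub)
  have hi : IsPathConnected ((fun t : ℝ => ((t, G t) : E5)) '' Icc a b) := hp.image' hf
  refine (hi.joinedIn _ (mem_image_of_mem _ hs) _ (mem_image_of_mem _ hc)).mono ?_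
  rintro _ ⟨t, ht, rfl⟩
  exact ⟨hA t (hsub ht), ht⟩

variable {m n : ℕ} {c : Comb m n} {w : Fin n → ℝ} {J : Set ℝ} {π : Fin n → Prof} {q : ℝ → St n}

lemma cq (h : IsPhase c w J π q) : ContinuousOn q J := h.smooth.continuousOn

lemma cv (h : IsPhase c w J π q) : ContinuousOn (deriv q) J :=
  h.smooth.continuousOn_deriv_of_isOpen h.openJ (by simp)

lemma cx (h : IsPhase c w J π q) (i : Fin n) : ContinuousOn (fun s => (q s).1 i) J :=
  (continuous_apply i).comp_continuousOn (continuous_fst.comp_continuousOn (cq h))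

lemma cF (h : IsPhase c w J π q) (i : Fin n) : ContinuousOn (fun s => (q s).2 i) J :=
  (continuous_apply i).comp_continuousOn (continuous_snd.comp_continuousOn (cq h))

lemma cvx (h : IsPhase c w J π q) (i : Fin n) : ContinuousOn (fun s => (deriv q s).1 i) J :=
  (continuous_apply i).comp_continuousOn (continuous_fst.comp_continuousOn (cv h))

lemma cvF (h : IsPhase c w J π q) (i : Fin n) : ContinuousOn (fun s => (deriv q s).2 i) J :=
  (continuous_apply i).comp_continuousOn (continuous_snd.comp_continuousOn (cv h))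

lemma den (h : IsPhase c w J π q) (e : Fin m) : ∀ s ∈ J,
    (q s).1 (c.rt e) - (q s).1 (c.lf e) ≠ 0 := by
  intro s hs
  have h1 := (h.adm s hs).len e
  have h2 := h.wpos (c.lf e)
  have h3 := h.wpos (c.rt e)
  have : 0 < (q s).1 (c.rt e) - (q s).1 (c.lf e) := by linarith
  exact this.ne'

lemma cpe (h : IsPhase c w J π q) (e : Fin m) : ContinuousOn (fun s => c.pe (q s) e) J :=
  ((cF h _).sub (cF h _)).div ((cx h _).sub (cx h _)) (den h e)

lemma cae (h : IsPhase c w J π q) (e : Fin m) : ContinuousOn (fun s => c.ae (q s) e) J :=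
  (cF h _).sub ((cpe h e).mul (cx h _))

lemma cdpe (h : IsPhase c w J π q) (e : Fin m) :
    ContinuousOn (fun s => c.dpe (q s) (deriv q s) e) J :=
  (((cvF h _).sub (cvF h _)).sub ((cpe h e).mul ((cvx h _).sub (cvx h _)))).div
    ((cx h _).sub (cx h _)) (den h e)

lemma cdae (h : IsPhase c w J π q) (e : Fin m) :
    ContinuousOn (fun s => c.dae (q s) (deriv q s) e) J :=
  ((cvF h _).sub ((cdpe h e).mul (cx h _))).sub ((cpe h e).mul (cvx h _))

lemma cdl (h : IsPhase c w J π q) (i : Fin n) : ContinuousOn (fun s => c.dl (q s) i) J :=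
  (cpe h _).sub (cpe h _)

/-- Restriction of a smooth function to a line of constant `u`. -/
lemma line {f : ℝ → ℝ → ℝ}
    (hf : ContDiffOn ℝ ∞ (fun a : ℝ × ℝ => f a.1 a.2) (J ×ˢ univ)) (u : ℝ) :
    ContDiffOn ℝ ∞ (fun s => f s u) J := by
  have hg : ContDiffOn ℝ ∞ (fun s : ℝ => ((s, u) : ℝ × ℝ)) J :=
    (contDiff_id.prodMk contDiff_const).contDiffOn
  exact hf.comp hg (fun s hs => ⟨hs, mem_univ _⟩)

lemma cX (h : IsPhase c w J π q) (i : Fin n) (u : ℝ) : ContinuousOn (fun s => (π i).X s u) J :=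
  (line (h.prof i).X_smooth u).continuousOn

lemma cP (h : IsPhase c w J π q) (i : Fin n) (u : ℝ) : ContinuousOn (fun s => (π i).P s u) J :=
  (line (h.prof i).P_smooth u).continuousOn

lemma cΘ (h : IsPhase c w J π q) (i : Fin n) (u : ℝ) : ContinuousOn (fun s => (π i).Θ s u) J :=
  (line (h.prof i).Θ_smooth u).continuousOn

lemma cY (h : IsPhase c w J π q) (i : Fin n) (u : ℝ) : ContinuousOn (fun s => (π i).Y s u) J := by
  have h1 : ContinuousOn (deriv (fun r => (π i).Θ r u)) J :=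
    (line (h.prof i).Θ_smooth u).continuousOn_deriv_of_isOpen h.openJ (by simp)
  have h2 : ContinuousOn (deriv (fun r => (π i).X r u)) J :=
    (line (h.prof i).X_smooth u).continuousOn_deriv_of_isOpen h.openJ (by simp)
  refine (h1.sub ((cP h i u).mul h2)).congr ?_
  intro s hs
  exact (h.prof i).Y_eq s hs u

/-- The path on an edge. -/
lemma cept (h : IsPhase c w J π q) (e : Fin m) {x : ℝ → ℝ} (hx : ContinuousOn x J) :
    ContinuousOn (fun s => c.ept (q s) (deriv q s) e (x s)) J :=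
  hx.prodMk ((cpe h e).prodMk ((((cdpe h e).mul hx).add (cdae h e)).prodMk
    (((cpe h e).mul hx).add (cae h e))))

/-- The path on the piece of a vertex. -/
lemma cvp (h : IsPhase c w J π q) (i : Fin n) (u : ℝ) :
    ContinuousOn (fun s => c.vp w π s (q s) (deriv q s) i u) J := by
  have hX := cX h i u
  have hP := cP h i u
  have hΘ := cΘ h i u
  have hY := cY h i u
  have hx : ContinuousOn (fun s => (q s).1 i + w i * (π i).X s u) J :=
    (cx h i).add (continuousOn_const.mul hX)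
  have hl := cdl h i
  refine hx.prodMk (((cpe h _).add (hl.mul hP)).prodMk (ContinuousOn.prodMk ?_ ?_))
  · exact ((((cdpe h _).mul hx).add (cdae h _)).add (continuousOn_const.mul
      ((((cdpe h _).sub (cdpe h _)).mul hΘ).add (hl.mul hY)))).sub ((hl.mul hP).mul (cvx h i))
  · exact (((cpe h _).mul hx).add (cae h _)).add ((continuousOn_const.mul hl).mul hΘ)

/-- Every point can be joined to every time. -/
lemma main (h : IsPhase c w J π q) (r : E5) (hr : r ∈ c.surf w π q) (hJ : r.1 ∈ J) (t a b : ℝ)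
    (ht : t ∈ J) (ha : a ∈ J) (hb : b ∈ J) (hra : r.1 ∈ Icc a b) (hta : t ∈ Icc a b) :
    ∃ r' ∈ c.surf w π q, r'.1 = t ∧
      JoinedIn {r ∈ c.surf w π q | r.1 ∈ Icc a b} r r' := by
  obtain ⟨s, y⟩ := r
  change s ∈ J at hJ
  change s ∈ Icc a b at hra
  rcases hr with ⟨e, x, hx, hy⟩ | ⟨i, u, hu, hy⟩
  · change y = c.ept (q s) (deriv q s) e x at hy
    change x ∈ c.rg w (q s) e at hx
    set l : ℝ → ℝ := fun s => (q s).1 (c.lf e) + 2 * w (c.lf e) with hl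
    set R : ℝ → ℝ := fun s => (q s).1 (c.rt e) - 2 * w (c.rt e) with hR
    have hlt : ∀ s ∈ J, l s < R s := by
      intro s hs
      have h1 := (h.adm s hs).len e
      simp only [hl, hR]
      linarith
    have hx1 : l s ≤ x := hx.1
    have hx2 : x ≤ R s := hx.2
    have hpos : 0 < R s - l s := by linarith [hlt s hJ]
    set k : ℝ := (x - l s) / (R s - l s) with hk
    have hk0 : 0 ≤ k := div_nonneg (by linarith) hpos.le
    have hk1 : k ≤ 1 := (div_le_one hpos).2 (by linarith)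
    have hxe : x = l s + k * (R s - l s) := by
      rw [hk, div_mul_cancel₀ _ hpos.ne']
      ring
    have hcl : ContinuousOn l J := (cx h _).add continuousOn_const
    have hcR : ContinuousOn R J := (cx h _).sub continuousOn_const
    have hcx : ContinuousOn (fun s => l s + k * (R s - l s)) J :=
      hcl.add (continuousOn_const.mul (hcR.sub hcl))
    have hA : ∀ s ∈ J, ((s, c.ept (q s) (deriv q s) e (l s + k * (R s - l s))) : E5) ∈
        c.surf w π q := by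
      intro s hs
      refine Or.inl ⟨e, _, ⟨?_, ?_⟩, rfl⟩
      · have := hlt s hs
        change l s ≤ l s + k * (R s - l s)
        nlinarith
      · have := hlt s hs
        change l s + k * (R s - l s) ≤ R s
        nlinarith
    have hj := joined h.conn (cept h e hcx) hA ha hb hra hta
    refine ⟨_, hA t ht, rfl, ?_⟩
    have he : ((s, y) : E5) = (s, c.ept (q s) (deriv q s) e (l s + k * (R s - l s))) := by
      rw [hy, ← hxe]
    rw [he]
    exact hj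
  · change y = c.vp w π s (q s) (deriv q s) i u at hy
    have hA : ∀ s ∈ J, ((s, c.vp w π s (q s) (deriv q s) i u) : E5) ∈ c.surf w π q :=
      fun s _ => Or.inr ⟨i, u, hu, rfl⟩
    have hj := joined h.conn (cvp h i u) hA ha hb hra hta
    refine ⟨_, hA t ht, rfl, ?_⟩
    rw [hy]
    exact hj

end PUD

theorem t_PUD : Stmt_PUD := by
  intro m n c w J π q h
  refine ⟨?_, ?_⟩
  · intro r hr hJ t ht hle
    exact PUD.main h r hr hJ t t r.1 ht ht hJ ⟨hle, le_rfl⟩ ⟨le_rfl, hle⟩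
  · intro r hr hJ t ht hle
    exact PUD.main h r hr hJ t r.1 t ht hJ ht ⟨le_rfl, hle⟩ ⟨hle, le_rfl⟩

end LCA


end

section

/-!
# PHG: phases
-/

namespace LCA

open Set Filter
open scoped ContDiff Topology

namespace PHG

theorem surf_eq {m n : ℕ} (c : Comb m n) (w : Fin n → ℝ) (π : Fin n → Prof) (q : ℝ → St n) :
    {r : E5 | (∃ e ∈ (univ : Set (Fin m)), ∃ x ∈ c.rg w (q r.1) e,
        r.2 = c.ept (q r.1) (deriv q r.1) e x) ∨
      ∃ i ∈ (univ : Set (Fin n)), ∃ u, |u| ≤ 2 ∧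
        r.2 = c.vp w π r.1 (q r.1) (deriv q r.1) i u} = c.surf w π q := by
  ext r
  constructor
  · rintro (⟨e, -, x, hx, h⟩ | ⟨i, -, u, hu, h⟩)
    · exact Or.inl ⟨e, x, hx, h⟩
    · exact Or.inr ⟨i, u, hu, h⟩
  · rintro (⟨e, x, hx, h⟩ | ⟨i, u, hu, h⟩)
    · exact Or.inl ⟨e, mem_univ e, x, hx, h⟩
    · exact Or.inr ⟨i, mem_univ i, u, hu, h⟩

end PHG

open _root_.LCA.PHG in
theorem t_PHG (hPCL : Stmt_PCL) (hPIN : Stmt_PIN) (hPCH : Stmt_PCH) (hPUD : Stmt_PUD) :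
    Stmt_PHG := by
  intro m n c w J π q h
  have h1 := hPCL c w J π q h univ univ
  simp only [surf_eq] at h1
  refine ⟨⟨h1.1, h1.2, hPCH c w J π q h, ?_⟩, (hPUD c w J π q h).1, (hPUD c w J π q h).2⟩
  intro a ha b hb haJ e1 e2 e3 e4
  have h2 : a.2 ∈ c.slice w π a.1 (q a.1) (deriv q a.1) := ha
  have h3 : b.2 ∈ c.slice w π b.1 (q b.1) (deriv q b.1) := hb
  rw [← e1] at h3
  have h4 := hPIN c w J π q h a.1 haJ a.2 h2 b.2 h3 ⟨e2, e3, e4⟩
  exact Prod.ext e1 h4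

end LCA


end

section

/-!
# CEE: separation of two edges
-/

namespace LCA

open Set Filter
open scoped ContDiff Topology

namespace CEE

/-- An affine function which is positive at the two ends of an interval does not vanish in it. -/
theorem affine_ne {A B M m x : ℝ} (h1 : M ≤ x) (h2 : x ≤ m) (hM : 0 < A * M + B)
    (hm : 0 < A * m + B) (hx : A * x + B = 0) : False := by
  have e : (x - M) * (A * m + B) + (m - x) * (A * M + B) = (m - M) * (A * x + B) := by ring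
  rw [hx, mul_zero] at e
  have a1 : 0 ≤ (x - M) * (A * m + B) := mul_nonneg (by linarith) hm.le
  have a2 : 0 ≤ (m - x) * (A * M + B) := mul_nonneg (by linarith) hM.le
  have a3 : (x - M) * (A * m + B) = 0 := by linarith
  rcases mul_eq_zero.1 a3 with h | h
  · have : x = M := by linarith
    rw [this] at hx
    linarith
  · linarith

end CEE

theorem t_CEE : Stmt_CEE := by
  intro m n c w q v hw hc e e' hne x hx x' hx' hM
  obtain ⟨hx1, hp, hz⟩ := hM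
  have hxx : x = x' := hx1
  subst hxx
  have hp' : c.pe q e = c.pe q e' := hp
  have hz' : c.dpe q v e * x + c.dae q v e = c.dpe q v e' * x + c.dae q v e' := hz
  have r1 : q.1 (c.lf e) + 2 * w (c.lf e) ≤ x := hx.1
  have r2 : x ≤ q.1 (c.rt e) - 2 * w (c.rt e) := hx.2
  have r3 : q.1 (c.lf e') + 2 * w (c.lf e') ≤ x := hx'.1
  have r4 : x ≤ q.1 (c.rt e') - 2 * w (c.rt e') := hx'.2
  have w1 := hw (c.lf e)
  have w2 := hw (c.rt e)
  have w3 := hw (c.lf e')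
  have w4 := hw (c.rt e')
  rcases hc.ee e e' hne with h | ⟨σ, hσ, h1, h2⟩
  · rcases h with h | h | h
    · linarith
    · linarith
    · exact h hp'
  · have l1 : max (q.1 (c.lf e)) (q.1 (c.lf e')) ≤ x := max_le (by linarith) (by linarith)
    have l2 : x ≤ min (q.1 (c.rt e)) (q.1 (c.rt e')) := le_min (by linarith) (by linarith)
    unfold Comb.Dee at h1 h2
    refine CEE.affine_ne (A := σ * (c.dpe q v e - c.dpe q v e'))
      (B := σ * (c.dae q v e - c.dae q v e')) l1 l2 ?_ ?_ ?_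
    · calc (0 : ℝ) < _ := h1
        _ = _ := by ring
    · calc (0 : ℝ) < _ := h2
        _ = _ := by ring
    · have : σ * (c.dpe q v e - c.dpe q v e') * x + σ * (c.dae q v e - c.dae q v e')
          = σ * ((c.dpe q v e * x + c.dae q v e) - (c.dpe q v e' * x + c.dae q v e')) := by ring
      rw [this, hz', sub_self, mul_zero]

end LCA


end

section

/-!
# CER: certificates are sufficient
-/

namespace LCA

open Set Filter
open scoped ContDiff Topology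

theorem t_CER (hCEE : Stmt_CEE) (hCVV : Stmt_CVV) (hCVE : Stmt_CVE) : Stmt_CER := by
  intro m n c w π s q v hv hw hπ hc
  exact
    { len := hc.len
      tip := hc.tip
      ee := hCEE c w q v hw hc
      vv := hCVV c w π s q v hv hw hπ hc
      ve := hCVE c w π s q v hv hw hπ hc }

end LCA


end

section

/-!
# Part A: ATR, the transition of `At`
-/

namespace LCA

open Set Filter
open scoped ContDiff Topology

namespace ATR

theorem good_mono {J J' : Set ℝ} {A : Set E5} (h : J' ⊆ J) (hA : Good J A) : Good J' A where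
  closed q hq hs := hA.closed q hq (h hs)
  bounded K hK hc := hA.bounded K (hK.trans h) hc
  chart q hq hs := hA.chart q hq (h hs)
  inj q hq q' hq' hs := hA.inj q hq q' hq' (h hs)

theorem down_mono {J J' : Set ℝ} {A : Set E5} (h : J' ⊆ J) (hA : Down J A) : Down J' A :=
  fun q hq hs c hc hcs => hA q hq (h hs) c (h hc) hcs

end ATR

theorem t_ATR (hGLU : Stmt_GLU) (_hCNG : Stmt_CNG) : Stmt_ATR := by
  intro m n m' n' K sh c w Q V t c' w' Q' V' t' ε B htt hε hAt hB hBd hag hag'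
  obtain ⟨ht, ε₁, hε₁, hε₁t, A, e₀, he₀, he₀t, hA, hAd, hAK, hAs⟩ := hAt
  set ε₂ : ℝ := min ε ε₁ with hε₂def
  have hε₂ : 0 < ε₂ := lt_min hε hε₁
  have h2ε : ε₂ ≤ ε := min_le_left _ _
  have h2ε₁ : ε₂ ≤ ε₁ := min_le_right _ _
  have hsubA : Ioo 0 (t + ε₂) ⊆ Ioo 0 (t + ε₁) := Ioo_subset_Ioo le_rfl (by linarith)
  have hsubB : Ioo (t - ε₂) (t' + ε) ⊆ Ioo (t - ε) (t' + ε) :=
    Ioo_subset_Ioo (by linarith) le_rfl
  have hagAB : Agree (Ioo (t - ε₂) (t + ε₂)) A B := by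
    intro q hq
    have h1 := hAs q ⟨by linarith [hq.1], by linarith [hq.2]⟩
    have h2 := hag q ⟨by linarith [hq.1], by linarith [hq.2]⟩
    exact h1.trans h2.symm
  obtain ⟨B', hG, hD, hA1, hA2⟩ := hGLU 0 (t + ε₂) (t - ε₂) (t' + ε) A B (by linarith)
    (by linarith) (by linarith) (ATR.good_mono hsubA hA) (ATR.down_mono hsubA hAd)
    (ATR.good_mono hsubB hB) (ATR.down_mono hsubB hBd) hagAB
  have hsub : Ioo 0 (t' + ε₂) ⊆ Ioo 0 (t' + ε) := Ioo_subset_Ioo le_rfl (by linarith)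
  refine ⟨by linarith, ε₂, hε₂, by linarith, B', e₀, he₀, by linarith,
    ATR.good_mono hsub hG, ATR.down_mono hsub hD, ?_, ?_⟩
  · intro q hq
    exact (hA1 q ⟨hq.1, by linarith [hq.2]⟩).trans (hAK q hq)
  · intro q hq
    exact (hA2 q ⟨by linarith [hq.1], by linarith [hq.2]⟩).trans
      (hag' q ⟨by linarith [hq.1], by linarith [hq.2]⟩)

end LCA


end

section

/-!
# MOV: linear motion
-/

namespace LCA

open Set Filter
open scoped ContDiff Topology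

namespace MOV

/-- The linear motion is continuous. -/
theorem continuous_lin {n : ℕ} (Q V : St n) (t : ℝ) : Continuous (lin Q V t) := by
  unfold lin
  fun_prop

/-- The linear motion is smooth. -/
theorem contDiff_lin {n : ℕ} (Q V : St n) (t : ℝ) : ContDiff ℝ ∞ (lin Q V t) := by
  unfold lin
  exact contDiff_const.add ((contDiff_id.sub contDiff_const).smul contDiff_const)

/-- The velocity of the linear motion. -/
theorem deriv_lin {n : ℕ} (Q V : St n) (t s : ℝ) : deriv (lin Q V t) s = V := by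
  have h : HasDerivAt (lin Q V t) ((1 : ℝ) • V) s := by
    unfold lin
    exact (((hasDerivAt_id s).sub_const t).smul_const V).const_add Q
  rw [h.deriv, one_smul]

/-- A different base point of the same motion. -/
theorem lin_lin {n : ℕ} (Q V : St n) (t t' : ℝ) : lin (lin Q V t t') V t' = lin Q V t := by
  funext s
  unfold lin
  rw [add_assoc, ← add_smul]
  congr 2
  ring

end MOV

open _root_.LCA.MOV in
theorem t_MOV (hOPC : Stmt_OPC) (hCER : Stmt_CER) (hPHG : Stmt_PHG) (hPST : Stmt_PST)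
    (hATR : Stmt_ATR) : Stmt_MOV := by
  intro m n K sh c w Q V t t' hc hw hAt htt hcert
  -- the certificates hold on a larger interval
  have hO : IsOpen {s : ℝ | c.Cert w (lin Q V t s) V} := by
    have h := hOPC c w hw
    exact h.preimage (f := fun s : ℝ => ((lin Q V t s, V) : St n × St n))
      ((continuous_lin Q V t).prodMk continuous_const)
  obtain ⟨e1, he1, h1⟩ := Metric.isOpen_iff.1 hO t (hcert t ⟨le_rfl, htt.le⟩)
  obtain ⟨e2, he2, h2⟩ := Metric.isOpen_iff.1 hO t' (hcert t' ⟨htt.le, le_rfl⟩)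
  obtain ⟨e, he, he1', he2'⟩ : ∃ e : ℝ, 0 < e ∧ e ≤ e1 ∧ e ≤ e2 :=
    ⟨min e1 e2, lt_min he1 he2, min_le_left _ _, min_le_right _ _⟩
  have hJ : ∀ s ∈ Ioo (t - e) (t' + e), c.Cert w (lin Q V t s) V := by
    intro s hs
    rcases lt_or_ge s t with h | h
    · refine h1 ?_
      rw [Metric.mem_ball, Real.dist_eq, abs_lt]
      constructor <;> linarith [hs.1, hs.2]
    · rcases le_or_gt s t' with h' | h'
      · exact hcert s ⟨h, h'⟩
      · refine h2 ?_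
        rw [Metric.mem_ball, Real.dist_eq, abs_lt]
        constructor <;> linarith [hs.1, hs.2]
  have hprof : ∀ i, ProfOK (Ioo (t - e) (t' + e)) (c.ty i)
      (fun s => c.dl (lin Q V t s) i) (c.sp sh i) := by
    intro i
    exact hPST sh _ _ _ fun s hs h => (hJ s hs).tip i h
  have hph : IsPhase c w (Ioo (t - e) (t' + e)) (c.sp sh) (lin Q V t) := by
    refine ⟨hc, hw, isOpen_Ioo, ordConnected_Ioo, (contDiff_lin Q V t).contDiffOn, hprof, ?_⟩
    intro s hs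
    rw [deriv_lin]
    exact hCER c w (c.sp sh) s _ _ hc hw (fun i => (hprof i).bd s hs) (hJ s hs)
  obtain ⟨hg, hd, -⟩ := hPHG c w _ _ _ hph
  refine hATR K sh c w Q V t c w (lin Q V t t') V t' e (c.surf w (c.sp sh) (lin Q V t)) htt he
    hAt hg hd (fun q _ => Iff.rfl) ?_
  rw [lin_lin]
  exact fun q _ => Iff.rfl

end LCA


end

section

/-!
# SWI: change of the velocities

`ATR` wants the surface over a neighbourhood of the time `t` to be the one of `lin Q V t`. So the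
corner is rounded after the time `t`, and the displacement is removed slowly: the path is
`q s = lin Q V' t s + g s • (V - V')` with `g s = s - t` for `s ≤ t + δ`, `g = 0` near `t'`,
`g' ∈ [0, 1]` for `s ≤ t + 3 δ` and `g`, `g'` small afterwards. (`SM2` is not needed.)
-/

namespace LCA.SWI

open Set Filter
open scoped ContDiff Topology

/-- Tube lemma for a family with two small parameters. -/
lemma tube {E : Type*} [TopologicalSpace E] (F : ℝ → ℝ → ℝ → E)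
    (hF : Continuous (fun x : ℝ × ℝ × ℝ => F x.1 x.2.1 x.2.2)) (U : Set E) (hU : IsOpen U)
    (I : Set ℝ) (hI : IsCompact I) (h : ∀ l ∈ I, F l 0 0 ∈ U) :
    ∃ ρ > 0, ∀ l ∈ I, ∀ a b : ℝ, |a| < ρ → |b| < ρ → F l a b ∈ U := by
  have hn : IsOpen ((fun x : ℝ × ℝ × ℝ => F x.1 x.2.1 x.2.2) ⁻¹' U) := hU.preimage hF
  have hsub : I ×ˢ ({((0 : ℝ), (0 : ℝ))} : Set (ℝ × ℝ)) ⊆
      (fun x : ℝ × ℝ × ℝ => F x.1 x.2.1 x.2.2) ⁻¹' U := by
    rintro ⟨l, x⟩ ⟨hl, hx⟩
    have hx' : x = (0, 0) := hx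
    subst hx'
    exact h l hl
  obtain ⟨u, v, hu, hv, hIu, h0v, huv⟩ := generalized_tube_lemma hI isCompact_singleton hn hsub
  have h0 : ((0 : ℝ), (0 : ℝ)) ∈ v := h0v rfl
  obtain ⟨ρ, hρ, hball⟩ := Metric.isOpen_iff.1 hv _ h0
  refine ⟨ρ, hρ, fun l hl a b ha hb => ?_⟩
  have hab : ((a : ℝ), (b : ℝ)) ∈ v := by
    apply hball
    rw [Metric.mem_ball, Prod.dist_eq, Real.dist_eq, Real.dist_eq]
    simp only [sub_zero]
    exact max_lt ha hb
  exact huv (Set.mk_mem_prod (hIu hl) hab)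

/-- The derivative of `τ` is bounded. -/
lemma tau_deriv_bd (sh : Shape) : ∃ C : ℝ, 0 < C ∧ ∀ u, |deriv sh.τ u| ≤ C := by
  have hc : Continuous (deriv sh.τ) := sh.τ_smooth.continuous_deriv (by simp)
  obtain ⟨C, hC⟩ := (isCompact_Icc (a := (-1 : ℝ)) (b := 1)).exists_bound_of_continuousOn
    hc.continuousOn
  refine ⟨|C| + 1, by positivity, fun u => ?_⟩
  by_cases h1 : u < -1
  · have : sh.τ =ᶠ[𝓝 u] fun _ => (0 : ℝ) := by
      filter_upwards [Iio_mem_nhds h1] with v hv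
      exact sh.τ_low v (le_of_lt hv)
    rw [this.deriv_eq]
    simp only [deriv_const', abs_zero]
    positivity
  by_cases h2 : 1 < u
  · have : sh.τ =ᶠ[𝓝 u] fun _ => (1 : ℝ) := by
      filter_upwards [Ioi_mem_nhds h2] with v hv
      exact sh.τ_high v (le_of_lt hv)
    rw [this.deriv_eq]
    simp only [deriv_const', abs_zero]
    positivity
  have := hC u ⟨not_lt.1 h1, not_lt.1 h2⟩
  rw [Real.norm_eq_abs] at this
  have := le_abs_self C
  linarith

/-- The initial part of the correction. -/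
noncomputable def hh (sh : Shape) (t δ s : ℝ) : ℝ := (s - t) - δ * sh.ΘP ((s - t - 2 * δ) / δ)

/-- The cut off. -/
noncomputable def sg (sh : Shape) (t t' s : ℝ) : ℝ :=
  sh.τ (6 * (s - (t + t') / 2) / (t' - t))

/-- The correction. -/
noncomputable def gg (sh : Shape) (t t' δ s : ℝ) : ℝ := hh sh t δ s * (1 - sg sh t t' s)

lemma hh_smooth (sh : Shape) (t δ : ℝ) : ContDiff ℝ ∞ (hh sh t δ) := by
  unfold hh
  have h1 : ContDiff ℝ ∞ (fun s : ℝ => (s - t - 2 * δ) / δ) := by fun_prop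
  have h2 : ContDiff ℝ ∞ (fun s : ℝ => sh.ΘP ((s - t - 2 * δ) / δ)) := sh.ΘP_smooth.comp h1
  exact (contDiff_id.sub contDiff_const).sub (contDiff_const.mul h2)

lemma sg_smooth (sh : Shape) (t t' : ℝ) : ContDiff ℝ ∞ (sg sh t t') := by
  unfold sg
  have h1 : ContDiff ℝ ∞ (fun s : ℝ => 6 * (s - (t + t') / 2) / (t' - t)) := by fun_prop
  exact sh.τ_smooth.comp h1

lemma gg_smooth (sh : Shape) (t t' δ : ℝ) : ContDiff ℝ ∞ (gg sh t t' δ) := by
  unfold gg
  exact (hh_smooth sh t δ).mul (contDiff_const.sub (sg_smooth sh t t'))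

lemma hh_deriv (sh : Shape) (t δ s : ℝ) (hδ : 0 < δ) :
    HasDerivAt (hh sh t δ) (1 - sh.τ ((s - t - 2 * δ) / δ)) s := by
  unfold hh
  have h1 : HasDerivAt (fun s : ℝ => (s - t - 2 * δ) / δ) (1 / δ) s := by
    have := (((hasDerivAt_id s).sub_const t).sub_const (2 * δ)).div_const δ
    simpa using this
  have h2 := (sh.ΘP_deriv ((s - t - 2 * δ) / δ)).comp s h1
  have h3 := ((hasDerivAt_id s).sub_const t).sub (h2.const_mul δ)
  have e : 1 - δ * (sh.τ ((s - t - 2 * δ) / δ) * (1 / δ)) = 1 - sh.τ ((s - t - 2 * δ) / δ) := by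
    field_simp
  rw [e] at h3
  exact h3

lemma hh_low (sh : Shape) (t δ s : ℝ) (hδ : 0 < δ) (hs : s ≤ t + δ) : hh sh t δ s = s - t := by
  unfold hh
  have : (s - t - 2 * δ) / δ ≤ -1 := by
    rw [div_le_iff₀ hδ]; linarith
  rw [sh.ΘP_low _ this]; ring

lemma hh_high (sh : Shape) (t δ s : ℝ) (hδ : 0 < δ) (hs : t + 3 * δ ≤ s) :
    hh sh t δ s = 2 * δ := by
  unfold hh
  have : 1 ≤ (s - t - 2 * δ) / δ := by
    rw [le_div_iff₀ hδ]; linarith
  rw [sh.ΘP_high _ this]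
  field_simp
  ring

lemma hh_bd (sh : Shape) (t δ s : ℝ) (hδ : 0 < δ) (h1 : t - δ ≤ s) (h2 : s ≤ t + 3 * δ) :
    |hh sh t δ s| ≤ 5 * δ := by
  by_cases h : s ≤ t + δ
  · rw [hh_low sh t δ s hδ h, abs_le]
    constructor <;> linarith
  · have hu : |(s - t - 2 * δ) / δ| ≤ 2 := by
      rw [abs_div, abs_of_pos hδ, div_le_iff₀ hδ, abs_le]
      push Not at h
      constructor <;> linarith
    have hb := sh.ΘP_bd _ hu
    unfold hh
    have e1 : |δ * sh.ΘP ((s - t - 2 * δ) / δ)| ≤ δ * 2 := by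
      rw [abs_mul, abs_of_pos hδ]
      exact mul_le_mul_of_nonneg_left hb hδ.le
    have e2 : |s - t| ≤ 3 * δ := by
      rw [abs_le]; constructor <;> linarith
    calc |(s - t) - δ * sh.ΘP ((s - t - 2 * δ) / δ)|
        ≤ |s - t| + |δ * sh.ΘP ((s - t - 2 * δ) / δ)| := abs_sub _ _
      _ ≤ 5 * δ := by linarith

lemma sg_deriv (sh : Shape) (t t' s : ℝ) :
    HasDerivAt (sg sh t t') (deriv sh.τ (6 * (s - (t + t') / 2) / (t' - t)) * (6 / (t' - t))) s := by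
  unfold sg
  have h1 : HasDerivAt (fun s : ℝ => 6 * (s - (t + t') / 2) / (t' - t)) (6 / (t' - t)) s := by
    have := (((hasDerivAt_id s).sub_const ((t + t') / 2)).const_mul 6).div_const (t' - t)
    simpa using this
  have h2 : HasDerivAt sh.τ (deriv sh.τ (6 * (s - (t + t') / 2) / (t' - t)))
      (6 * (s - (t + t') / 2) / (t' - t)) :=
    ((sh.τ_smooth.differentiable (by simp)) _).hasDerivAt
  exact h2.comp s h1

lemma sg_low (sh : Shape) (t t' s : ℝ) (htt : t < t') (hs : s ≤ t + (t' - t) / 3) :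
    sg sh t t' s = 0 := by
  unfold sg
  apply sh.τ_low
  rw [div_le_iff₀ (by linarith)]
  linarith

lemma sg_high (sh : Shape) (t t' s : ℝ) (htt : t < t') (hs : t' - (t' - t) / 3 ≤ s) :
    sg sh t t' s = 1 := by
  unfold sg
  apply sh.τ_high
  rw [le_div_iff₀ (by linarith)]
  linarith only [hs]

lemma sg_mem (sh : Shape) (t t' s : ℝ) : 0 ≤ sg sh t t' s ∧ sg sh t t' s ≤ 1 := sh.τ_mem _

/-- The derivative of the correction. -/
noncomputable def gd (sh : Shape) (t t' δ s : ℝ) : ℝ :=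
  (1 - sh.τ ((s - t - 2 * δ) / δ)) * (1 - sg sh t t' s)
    - hh sh t δ s * (deriv sh.τ (6 * (s - (t + t') / 2) / (t' - t)) * (6 / (t' - t)))

lemma gg_deriv (sh : Shape) (t t' δ s : ℝ) (hδ : 0 < δ) :
    HasDerivAt (gg sh t t' δ) (gd sh t t' δ s) s := by
  unfold gg gd
  have h := (hh_deriv sh t δ s hδ).mul ((sg_deriv sh t t' s).const_sub 1)
  have e : (1 - sh.τ ((s - t - 2 * δ) / δ)) * (1 - sg sh t t' s)
      + hh sh t δ s * -(deriv sh.τ (6 * (s - (t + t') / 2) / (t' - t)) * (6 / (t' - t))) =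
      (1 - sh.τ ((s - t - 2 * δ) / δ)) * (1 - sg sh t t' s)
        - hh sh t δ s * (deriv sh.τ (6 * (s - (t + t') / 2) / (t' - t)) * (6 / (t' - t))) := by
    ring
  rw [e] at h
  exact h

/-- The path. -/
noncomputable def pa {n : ℕ} (sh : Shape) (Q V V' : St n) (t t' δ s : ℝ) : St n :=
  lin Q V' t s + gg sh t t' δ s • (V - V')

lemma pa_smooth {n : ℕ} (sh : Shape) (Q V V' : St n) (t t' δ : ℝ) :
    ContDiff ℝ ∞ (pa sh Q V V' t t' δ) := by
  unfold pa lin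
  exact (contDiff_const.add ((contDiff_id.sub contDiff_const).smul contDiff_const)).add
    ((gg_smooth sh t t' δ).smul contDiff_const)

lemma lin_hasDerivAt {n : ℕ} (Q V : St n) (t s : ℝ) : HasDerivAt (lin Q V t) V s := by
  unfold lin
  have h1 : HasDerivAt (fun s : ℝ => s - t) 1 s := (hasDerivAt_id s).sub_const t
  have h2 := (h1.smul_const V).const_add Q
  simpa using h2

lemma pa_deriv {n : ℕ} (sh : Shape) (Q V V' : St n) (t t' δ s : ℝ) (hδ : 0 < δ) :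
    deriv (pa sh Q V V' t t' δ) s = V' + gd sh t t' δ s • (V - V') := by
  have h1 := (gg_deriv sh t t' δ s hδ).smul_const (V - V')
  have h2 := (lin_hasDerivAt Q V' t s).add h1
  exact h2.deriv

lemma lin_lin {n : ℕ} (Q V : St n) (t t' s : ℝ) : lin (lin Q V t t') V t' s = lin Q V t s := by
  unfold lin
  rw [add_assoc, ← add_smul]
  congr 2
  ring

lemma pa_low {n : ℕ} (sh : Shape) (Q V V' : St n) (t t' δ s : ℝ) (hδ : 0 < δ) (htt : t < t')
    (h : s ≤ t + δ) (h3 : δ ≤ (t' - t) / 3) : pa sh Q V V' t t' δ s = lin Q V t s := by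
  unfold pa gg
  rw [hh_low sh t δ s hδ h, sg_low sh t t' s htt (by linarith only [h, h3])]
  unfold lin
  rw [sub_zero, mul_one, smul_sub, add_assoc]
  congr 1
  abel

lemma pa_high {n : ℕ} (sh : Shape) (Q V V' : St n) (t t' δ s : ℝ) (htt : t < t')
    (h : t' - (t' - t) / 3 ≤ s) : pa sh Q V V' t t' δ s = lin Q V' t s := by
  unfold pa gg
  rw [sg_high sh t t' s htt h]
  simp

end LCA.SWI

namespace LCA

open Set Filter
open scoped ContDiff Topology
open SWI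

theorem t_SWI (hOPC : Stmt_OPC) (hCER : Stmt_CER) (hPHG : Stmt_PHG) (hPST : Stmt_PST)
    (hATR : Stmt_ATR) (hSM2 : Stmt_SM2) : Stmt_SWI := by
  intro m n K sh c w Q V V' t t' hval hw hAt htt hseg hlin
  have hU : IsOpen {a : St n × St n | c.Cert w a.1 a.2} := hOPC c w hw
  -- the two tubes
  obtain ⟨ρ₁, hρ₁, hT₁⟩ := tube
    (fun l a b => ((Q + a • V' + b • (V - V'), (1 - l) • V + l • V') : St n × St n))
    (by fun_prop) _ hU (Icc 0 1) isCompact_Icc (by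
      intro l hl
      have := hseg l hl
      simpa using this)
  obtain ⟨η, hη, hη'⟩ : ∃ η > 0, ∀ s ∈ Icc t (t' + η), c.Cert w (lin Q V' t s) V' := by
    have hc : Continuous (fun s : ℝ => ((lin Q V' t s, V') : St n × St n)) := by
      unfold lin; fun_prop
    have hO : IsOpen ((fun s : ℝ => ((lin Q V' t s, V') : St n × St n)) ⁻¹'
      {a : St n × St n | c.Cert w a.1 a.2}) := hU.preimage hc
    obtain ⟨η, hη, hb⟩ := Metric.isOpen_iff.1 hO t' (hlin t' ⟨htt.le, le_rfl⟩)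
    refine ⟨η / 2, by positivity, fun s hs => ?_⟩
    by_cases h : s ≤ t'
    · exact hlin s ⟨hs.1, h⟩
    · have : s ∈ Metric.ball t' η := by
        rw [Metric.mem_ball, Real.dist_eq, abs_of_pos (by linarith)]
        linarith [hs.2]
      exact hb this
  obtain ⟨ρ₂, hρ₂, hT₂⟩ := tube
    (fun s a b => ((lin Q V' t s + a • (V - V'), V' + b • (V - V')) : St n × St n))
    (by unfold lin; fun_prop) _ hU (Icc t (t' + η)) isCompact_Icc (by
      intro s hs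
      have := hη' s hs
      simpa using this)
  obtain ⟨C, hC, hCb⟩ := tau_deriv_bd sh
  -- the choice of δ
  have htp : 0 < t' - t := by linarith
  set L : ℝ := C * (6 / (t' - t)) with hL
  have hLp : 0 < L := by positivity
  obtain ⟨δ, hδ, hδ1, hδ2, hδ3, hδ4⟩ : ∃ δ > 0, 5 * δ < ρ₁ ∧ 2 * δ < ρ₂ ∧ 2 * δ * L < ρ₂ ∧
      δ ≤ (t' - t) / 9 := by
    refine ⟨min (min (ρ₁ / 6) (ρ₂ / 3)) (min (ρ₂ / (3 * L)) ((t' - t) / 9)), by positivity,
      ?_, ?_, ?_, ?_⟩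
    · have : min (min (ρ₁ / 6) (ρ₂ / 3)) (min (ρ₂ / (3 * L)) ((t' - t) / 9)) ≤ ρ₁ / 6 :=
        (min_le_left _ _).trans (min_le_left _ _)
      linarith
    · have : min (min (ρ₁ / 6) (ρ₂ / 3)) (min (ρ₂ / (3 * L)) ((t' - t) / 9)) ≤ ρ₂ / 3 :=
        (min_le_left _ _).trans (min_le_right _ _)
      linarith
    · have h1 : min (min (ρ₁ / 6) (ρ₂ / 3)) (min (ρ₂ / (3 * L)) ((t' - t) / 9)) ≤ ρ₂ / (3 * L) :=
        (min_le_right _ _).trans (min_le_left _ _)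
      rw [le_div_iff₀ (by positivity)] at h1
      linarith
    · exact (min_le_right _ _).trans (min_le_right _ _)
  obtain ⟨ε, hε, hε1, hε2⟩ : ∃ ε > 0, ε ≤ δ ∧ ε ≤ η :=
    ⟨min δ η, lt_min hδ hη, min_le_left _ _, min_le_right _ _⟩
  set q : ℝ → St n := pa sh Q V V' t t' δ with hq
  -- the certificates
  have hcert : ∀ s ∈ Ioo (t - ε) (t' + ε), c.Cert w (q s) (deriv q s) := by
    intro s hs
    rw [hq, pa_deriv sh Q V V' t t' δ s hδ]
    by_cases h : s ≤ t + 3 * δ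
    · have hsg : sg sh t t' s = 0 := sg_low sh t t' s htt (by linarith)
      -- the derivative of the cut off vanishes
      have hz : deriv sh.τ (6 * (s - (t + t') / 2) / (t' - t)) = 0 := by
        have hle : 6 * (s - (t + t') / 2) / (t' - t) ≤ -1 := by
          rw [div_le_iff₀ htp]; linarith
        have hmin : IsLocalMin sh.τ (6 * (s - (t + t') / 2) / (t' - t)) := by
          filter_upwards with v
          rw [sh.τ_low _ hle]
          exact (sh.τ_mem v).1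
        exact hmin.deriv_eq_zero
      have hgd : gd sh t t' δ s = 1 - sh.τ ((s - t - 2 * δ) / δ) := by
        unfold gd
        rw [hsg, hz]; ring
      have hgg : gg sh t t' δ s = hh sh t δ s := by
        unfold gg
        rw [hsg]; ring
      have hm := sh.τ_mem ((s - t - 2 * δ) / δ)
      have ha : |s - t| < ρ₁ := by
        rw [abs_lt]
        constructor <;> linarith [hs.1]
      have hb : |hh sh t δ s| < ρ₁ :=
        lt_of_le_of_lt (hh_bd sh t δ s hδ (by linarith [hs.1]) h) hδ1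
      have key := hT₁ (sh.τ ((s - t - 2 * δ) / δ)) ⟨hm.1, hm.2⟩ (s - t) (hh sh t δ s) ha hb
      have e1 : pa sh Q V V' t t' δ s = Q + (s - t) • V' + hh sh t δ s • (V - V') := by
        unfold pa
        rw [hgg]; rfl
      have e2 : V' + gd sh t t' δ s • (V - V') =
          (1 - sh.τ ((s - t - 2 * δ) / δ)) • V + sh.τ ((s - t - 2 * δ) / δ) • V' := by
        rw [hgd]
        module
      rw [e1, e2]
      exact key
    · push Not at h
      have hh1 : hh sh t δ s = 2 * δ := hh_high sh t δ s hδ h.le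
      have hτ1 : sh.τ ((s - t - 2 * δ) / δ) = 1 := by
        apply sh.τ_high
        rw [le_div_iff₀ hδ]; linarith
      have hsm := sg_mem sh t t' s
      have ha : |gg sh t t' δ s| < ρ₂ := by
        unfold gg
        rw [hh1, abs_mul, abs_of_pos (by positivity : 0 < 2 * δ), abs_of_nonneg (by linarith)]
        have : 2 * δ * (1 - sg sh t t' s) ≤ 2 * δ * 1 :=
          mul_le_mul_of_nonneg_left (by linarith) (by positivity)
        linarith
      have hb : |gd sh t t' δ s| < ρ₂ := by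
        unfold gd
        have e0 : |2 * δ| = 2 * δ := abs_of_pos (by positivity)
        have e1 : |6 / (t' - t)| = 6 / (t' - t) := abs_of_pos (by positivity)
        rw [hh1, hτ1, sub_self, zero_mul, zero_sub, abs_neg, abs_mul (2 * δ), abs_mul (deriv _ _),
          e0, e1]
        have h3 : |deriv sh.τ (6 * (s - (t + t') / 2) / (t' - t))| * (6 / (t' - t)) ≤ L :=
          mul_le_mul_of_nonneg_right (hCb _) (by positivity)
        have h4 : 2 * δ * (|deriv sh.τ (6 * (s - (t + t') / 2) / (t' - t))| * (6 / (t' - t))) ≤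
          2 * δ * L := mul_le_mul_of_nonneg_left h3 (by positivity)
        linarith
      exact hT₂ s ⟨by linarith, by linarith [hs.2]⟩ _ _ ha hb
  -- the phase
  have hprof : ∀ i, ProfOK (Ioo (t - ε) (t' + ε)) (c.ty i) (fun s => c.dl (q s) i)
      (c.sp sh i) := by
    intro i
    exact hPST sh _ (c.ty i) _ (fun s hs hi => (hcert s hs).tip i hi)
  have hphase : IsPhase c w (Ioo (t - ε) (t' + ε)) (c.sp sh) q := by
    refine ⟨hval, hw, isOpen_Ioo, ordConnected_Ioo, (pa_smooth sh Q V V' t t' δ).contDiffOn,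
      hprof, fun s hs => ?_⟩
    exact hCER c w (c.sp sh) s (q s) (deriv q s) hval hw (fun i => (hprof i).bd s hs) (hcert s hs)
  obtain ⟨hG, hD, -⟩ := hPHG c w _ _ q hphase
  refine hATR K sh c w Q V t c w (lin Q V' t t') V' t' ε (c.surf w (c.sp sh) q) htt hε hAt hG hD
    ?_ ?_
  · intro r hr
    have e : ∀ s ∈ Ioo (t - ε) (t + ε), q s = lin Q V t s := by
      intro s hs
      exact pa_low sh Q V V' t t' δ s hδ htt (by linarith [hs.2]) (by linarith)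
    have e2 : deriv q r.1 = deriv (lin Q V t) r.1 := by
      apply Filter.EventuallyEq.deriv_eq
      filter_upwards [isOpen_Ioo.mem_nhds hr] with s hs
      exact e s hs
    unfold Comb.surf
    simp only [Set.mem_ofPred_eq]
    rw [e2, e r.1 hr]
  · intro r hr
    have e : ∀ s ∈ Ioo (t' - ε) (t' + ε), q s = lin (lin Q V' t t') V' t' s := by
      intro s hs
      rw [lin_lin]
      exact pa_high sh Q V V' t t' δ s htt (by linarith [hs.1])
    have e2 : deriv q r.1 = deriv (lin (lin Q V' t t') V' t') r.1 := by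
      apply Filter.EventuallyEq.deriv_eq
      filter_upwards [isOpen_Ioo.mem_nhds hr] with s hs
      exact e s hs
    unfold Comb.surf
    simp only [Set.mem_ofPred_eq]
    rw [e2, e r.1 hr]

end LCA


end

section

/-!
# MVP: motion with moving profiles
-/

namespace LCA

open Set Filter
open scoped ContDiff Topology

theorem MVP.hasDerivAt_lin {n : ℕ} (Q V : St n) (t s : ℝ) : HasDerivAt (lin Q V t) V s := by
  have h1 : HasDerivAt (fun r : ℝ => (r - t) • V) V s := by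
    simpa using ((hasDerivAt_id s).sub_const t).smul_const V
  exact h1.const_add Q

theorem MVP.contDiff_lin {n : ℕ} (Q V : St n) (t : ℝ) : ContDiff ℝ ∞ (lin Q V t) := by
  unfold lin
  exact contDiff_const.add ((contDiff_id.sub contDiff_const).smul contDiff_const)

theorem MVP.profOK_mono {J J' : Set ℝ} {t : Ty} {D : ℝ → ℝ} {π : Prof} (h : J' ⊆ J)
    (hp : ProfOK J t D π) : ProfOK J' t D π where
  X_smooth := hp.X_smooth.mono (prod_mono h Subset.rfl)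
  P_smooth := hp.P_smooth.mono (prod_mono h Subset.rfl)
  Θ_smooth := hp.Θ_smooth.mono (prod_mono h Subset.rfl)
  dΘ s hs := hp.dΘ s (h hs)
  Y_eq s hs := hp.Y_eq s (h hs)
  bd s hs := hp.bd s (h hs)
  imm s hs := hp.imm s (h hs)
  inj s hs := hp.inj s (h hs)

theorem MVP.exists_nhd {U : Set ℝ} (hU : IsOpen U) (t : ℝ) (h : Icc t (t + 1) ⊆ U) :
    ∃ δ > 0, Ioo (t - δ) (t + 1 + δ) ⊆ U := by
  obtain ⟨δ, hδ, hsub⟩ := isCompact_Icc.exists_thickening_subset_open hU h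
  refine ⟨δ, hδ, fun s hs => ?_⟩
  by_cases h1 : s < t
  · refine hsub (Metric.mem_thickening_iff.2 ⟨t, ⟨le_rfl, by linarith⟩, ?_⟩)
    rw [Real.dist_eq, abs_lt]
    constructor <;> linarith [hs.1]
  · by_cases h2 : t + 1 < s
    · refine hsub (Metric.mem_thickening_iff.2 ⟨t + 1, ⟨by linarith, le_rfl⟩, ?_⟩)
      rw [Real.dist_eq, abs_lt]
      constructor <;> linarith [hs.2]
    · exact h ⟨not_lt.1 h1, not_lt.1 h2⟩

/-- MVP. -/
theorem t_MVP (hOPC : Stmt_OPC) (hCER : Stmt_CER) (hPHG : Stmt_PHG) : Stmt_MVP := by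
  intro m n c w Q V t ε π hval hw hε hcert hprof
  have hU : IsOpen {s : ℝ | c.Cert w (lin Q V t s) V} := by
    have hcont : Continuous (fun s : ℝ => ((lin Q V t s, V) : St n × St n)) :=
      (MVP.contDiff_lin Q V t).continuous.prodMk continuous_const
    exact (hOPC c w hw).preimage hcont
  obtain ⟨δ, hδ, hsub⟩ := MVP.exists_nhd hU t (fun s hs => hcert s hs)
  have hε' : 0 < min ε δ := lt_min hε hδ
  have hJ1 : Ioo (t - min ε δ) (t + 1 + min ε δ) ⊆ Ioo (t - ε) (t + 1 + ε) := fun s hs =>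
    ⟨by linarith [hs.1, min_le_left ε δ], by linarith [hs.2, min_le_left ε δ]⟩
  have hJ2 : Ioo (t - min ε δ) (t + 1 + min ε δ) ⊆ Ioo (t - δ) (t + 1 + δ) := fun s hs =>
    ⟨by linarith [hs.1, min_le_right ε δ], by linarith [hs.2, min_le_right ε δ]⟩
  have hphase : IsPhase c w (Ioo (t - min ε δ) (t + 1 + min ε δ)) π (lin Q V t) :=
    { valid := hval
      wpos := hw
      openJ := isOpen_Ioo
      conn := ordConnected_Ioo
      smooth := (MVP.contDiff_lin Q V t).contDiffOn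
      prof := fun i => MVP.profOK_mono hJ1 (hprof i)
      adm := by
        intro s hs
        rw [(MVP.hasDerivAt_lin Q V t s).deriv]
        exact hCER c w π s (lin Q V t s) V hval hw (fun i => (hprof i).bd s (hJ1 hs))
          (hsub (hJ2 hs)) }
  obtain ⟨hg, hd, -⟩ := hPHG c w _ π (lin Q V t) hphase
  exact ⟨min ε δ, hε', min_le_left ε δ, hg, hd⟩

end LCA


end

section

/-!
# TCH: charts of the surface in the symplectization
-/

namespace LCA

open Set Filter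
open scoped ContDiff Topology

namespace TCH

/-- the projection of a point of the symplectization to `(s, x, p, z)` -/
noncomputable def rho (q : LC.R4) : ℝ × ℝ × ℝ × ℝ :=
  (Real.exp q.1, q.2.1, Real.exp q.1 * q.2.2.1, q.2.2.2)

/-- the point of the symplectization -/
noncomputable def sg (r : E5) : LC.R4 :=
  (Real.log r.1, (r.2.1, (r.2.2.1 / r.1, r.2.2.2.1)))

theorem rho_sg {r : E5} (h : 0 < r.1) : rho (sg r) = pr4 r := by
  unfold rho sg pr4
  simp only [Real.exp_log h]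
  rw [mul_div_cancel₀ _ h.ne']

theorem sg_mk (q : LC.R4) (F : ℝ) :
    sg (Real.exp q.1, q.2.1, Real.exp q.1 * q.2.2.1, q.2.2.2, F) = q := by
  unfold sg
  simp only [Real.log_exp]
  rw [mul_div_cancel_left₀ _ (Real.exp_ne_zero _)]

theorem rho_smooth : ContDiff ℝ ∞ rho := by
  unfold rho
  have h1 : ContDiff ℝ ∞ fun q : LC.R4 => Real.exp q.1 := Real.contDiff_exp.comp contDiff_fst
  have h2 : ContDiff ℝ ∞ fun q : LC.R4 => q.2.1 := contDiff_fst.comp contDiff_snd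
  have h3 : ContDiff ℝ ∞ fun q : LC.R4 => q.2.2.1 :=
    contDiff_fst.comp (contDiff_snd.comp contDiff_snd)
  have h4 : ContDiff ℝ ∞ fun q : LC.R4 => q.2.2.2 :=
    contDiff_snd.comp (contDiff_snd.comp contDiff_snd)
  exact h1.prodMk (h2.prodMk ((h1.mul h3).prodMk h4))

theorem sg_smooth {r : E5} (h : 0 < r.1) : ContDiffAt ℝ ∞ sg r := by
  unfold sg
  have h1 : ContDiffAt ℝ ∞ (fun r : E5 => r.1) r := contDiffAt_fst
  have h2 : ContDiffAt ℝ ∞ (fun r : E5 => r.2.1) r :=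
    (contDiff_fst.comp contDiff_snd).contDiffAt
  have h3 : ContDiffAt ℝ ∞ (fun r : E5 => r.2.2.1) r :=
    (contDiff_fst.comp (contDiff_snd.comp contDiff_snd)).contDiffAt
  have h4 : ContDiffAt ℝ ∞ (fun r : E5 => r.2.2.2.1) r :=
    (contDiff_fst.comp (contDiff_snd.comp (contDiff_snd.comp contDiff_snd))).contDiffAt
  exact (h1.log h.ne').prodMk (h2.prodMk ((h3.div h1 h.ne').prodMk h4))

theorem pr4_cont : Continuous pr4 := by
  unfold pr4
  fun_prop

/-- a continuous local inverse gives an embedding -/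
theorem emb {X Y : Type} [TopologicalSpace X] [TopologicalSpace Y] {U : Set X} {φ : X → Y}
    {G : Y → X} (hφ : ContinuousOn φ U) (hG : ∀ u ∈ U, ContinuousAt G (φ u))
    (h : ∀ u ∈ U, G (φ u) = u) : Topology.IsEmbedding fun u : U => φ u := by
  have hc : Continuous fun u : U => φ u := continuousOn_iff_continuous_domRestrict.1 hφ
  refine ⟨?_, ?_⟩
  · rw [Topology.isInducing_iff_nhds]
    intro x
    apply le_antisymm
    · exact (hc.tendsto x).le_comap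
    · rw [nhds_subtype_eq_comap, ← Filter.tendsto_iff_comap]
      have h1 : Tendsto (fun u : U => G (φ u)) (comap (fun u : U => φ u) (𝓝 (φ x)))
          (𝓝 (G (φ x))) := (hG x x.2).tendsto.comp tendsto_comap
      rw [h x x.2] at h1
      refine h1.congr ?_
      intro u
      exact h u u.2
  · intro u v huv
    apply Subtype.ext
    rw [← h u u.2, ← h v v.2]
    exact congrArg G huv

end TCH

open _root_.LCA.TCH in
theorem t_TCH (hLFI : Stmt_LFI) : Stmt_TCH := by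
  intro A hA p hp
  obtain ⟨F₀, hF₀⟩ := hp
  set q₀ : E5 := (Real.exp p.1, p.2.1, Real.exp p.1 * p.2.2.1, p.2.2.2, F₀) with hq₀
  have hpos : 0 < q₀.1 := Real.exp_pos _
  obtain ⟨f, a, hf, hfa, hfA, hN⟩ := hA.chart q₀ hF₀ hpos
  obtain ⟨g, U₀, V₀, hU₀, haU₀, hV₀, haV₀, hfs, hgs, hg⟩ := hLFI f a hf
  -- the open set `U₁`
  have hev : ∀ᶠ b in 𝓝 a, b ∈ U₀ ∧ f b ∈ A ∧ 0 < (f b).1 := by
    have h0 : ∀ᶠ b in 𝓝 a, b ∈ U₀ := hU₀.mem_nhds haU₀
    refine h0.and (hfA.and ?_)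
    have h1 : ContinuousAt f a := (hfs.continuousOn.continuousAt (hU₀.mem_nhds haU₀))
    have h2 : ContinuousAt (fun b => (f b).1) a := continuous_fst.continuousAt.comp h1
    refine h2.eventually (lt_mem_nhds ?_)
    show 0 < (f a).1
    rw [hfa]
    exact hpos
  obtain ⟨U₁, hU₁s, hU₁o, haU₁⟩ := mem_nhds_iff.1 hev
  -- the neighbourhood `W`
  have hW := hN U₁ (hU₁o.mem_nhds haU₁)
  rw [mem_nhdsWithin] at hW
  obtain ⟨W, hWo, hqW, hWA⟩ := hW
  -- the compact set `C`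
  set s₁ : ℝ := q₀.1 / 2 with hs₁
  set s₂ : ℝ := 2 * q₀.1 with hs₂
  have hs₁0 : 0 < s₁ := by positivity
  obtain ⟨M, hM⟩ := hA.bounded (Icc s₁ s₂) (fun s hs => hs₁0.trans_le hs.1) isCompact_Icc
  set C : Set E5 := {q ∈ A | q.1 ∈ Icc s₁ s₂} \ W with hC
  have hCclosed : IsClosed C := by
    have h1 : IsClosed {q ∈ A | q.1 ∈ Icc s₁ s₂} := by
      rw [← closure_subset_iff_isClosed]
      intro q hq
      have h2 : q ∈ closure A := closure_mono (fun r hr => hr.1) hq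
      have h3 : q.1 ∈ Icc s₁ s₂ := by
        have h4 : IsClosed {r : E5 | r.1 ∈ Icc s₁ s₂} := isClosed_Icc.preimage continuous_fst
        have h5 : q ∈ closure {r : E5 | r.1 ∈ Icc s₁ s₂} := closure_mono (fun r hr => hr.2) hq
        rw [h4.closure_eq] at h5
        exact h5
      exact ⟨hA.closed q h2 (hs₁0.trans_le h3.1), h3⟩
    exact h1.sdiff hWo
  have hCcomp : IsCompact C := by
    refine Metric.isCompact_of_isClosed_isBounded hCclosed ?_
    rw [isBounded_iff_forall_norm_le]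
    refine ⟨max s₂ M, ?_⟩
    intro q hq
    have h1 : q ∈ A := hq.1.1
    have h2 : q.1 ∈ Icc s₁ s₂ := hq.1.2
    rw [Prod.norm_def]
    apply max_le
    · rw [Real.norm_eq_abs, abs_of_pos (hs₁0.trans_le h2.1)]
      exact h2.2.trans (le_max_left _ _)
    · exact (hM q h1 h2).trans (le_max_right _ _)
  have hI : IsClosed (pr4 '' C) := (hCcomp.image pr4_cont).isClosed
  have hnot : pr4 q₀ ∉ pr4 '' C := by
    rintro ⟨q, hq, hqe⟩
    unfold pr4 at hqe
    simp only [Prod.mk.injEq] at hqe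
    have h1 : q = q₀ := hA.inj q hq.1.1 q₀ hF₀ (hs₁0.trans_le hq.1.2.1) hqe.1 hqe.2.1 hqe.2.2.1
      hqe.2.2.2
    rw [h1] at hq
    exact hq.2 hqW
  -- the open set `V`
  set V : Set LC.R4 := rho ⁻¹' {r | r.1 ∈ Ioo s₁ s₂ ∧ r ∉ pr4 '' C} with hV
  have hrc : Continuous rho := rho_smooth.continuous
  have hVo : IsOpen V := by
    apply IsOpen.preimage hrc
    exact (isOpen_Ioo.preimage continuous_fst).inter hI.isOpen_compl
  have hrp : rho p = pr4 q₀ := rfl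
  have hpV : p ∈ V := by
    show (rho p).1 ∈ Ioo s₁ s₂ ∧ rho p ∉ pr4 '' C
    rw [hrp]
    refine ⟨⟨?_, ?_⟩, hnot⟩
    · show s₁ < q₀.1
      rw [hs₁]
      linarith
    · show q₀.1 < s₂
      rw [hs₂]
      linarith
  -- the chart
  set φ : ℝ × ℝ → LC.R4 := fun b => sg (f b) with hφ
  have hφs : ContDiffOn ℝ ∞ φ U₁ := by
    intro b hb
    obtain ⟨h1, h2, h3⟩ := hU₁s hb
    have h4 : ContDiffAt ℝ ∞ f b := (hfs b h1).contDiffAt (hU₀.mem_nhds h1)
    exact ((sg_smooth h3).comp b h4).contDiffWithinAt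
  have hrφ : ∀ b ∈ U₁, rho (φ b) = pr4 (f b) := fun b hb => rho_sg (hU₁s hb).2.2
  set U : Set (ℝ × ℝ) := U₁ ∩ φ ⁻¹' V with hU
  have hUo : IsOpen U := hφs.continuousOn.isOpen_inter_preimage hU₁o hVo
  set G : LC.R4 → ℝ × ℝ := fun q => g (rho q) with hG
  have hGφ : ∀ b ∈ U₁, G (φ b) = b := by
    intro b hb
    show g (rho (φ b)) = b
    rw [hrφ b hb]
    exact (hg b (hU₁s hb).1).2
  have hGs : ∀ b ∈ U₁, ContDiffAt ℝ ∞ G (φ b) := by
    intro b hb
    have h1 : rho (φ b) ∈ V₀ := by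
      rw [hrφ b hb]
      exact (hg b (hU₁s hb).1).1
    have h2 : ContDiffAt ℝ ∞ g (rho (φ b)) := (hgs _ h1).contDiffAt (hV₀.mem_nhds h1)
    exact h2.comp (φ b) rho_smooth.contDiffAt
  refine ⟨U, V, φ, ⟨hUo, hVo, hφs.mono inter_subset_left, ?_, ?_, ?_⟩, hpV⟩
  · intro b hb
    have h1 : DifferentiableAt ℝ φ b :=
      ((hφs b hb.1).contDiffAt (hU₁o.mem_nhds hb.1)).differentiableAt (by simp)
    have h2 : DifferentiableAt ℝ G (φ b) := (hGs b hb.1).differentiableAt (by simp)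
    have h3 : fderiv ℝ (G ∘ φ) b = (fderiv ℝ G (φ b)).comp (fderiv ℝ φ b) := fderiv_comp b h2 h1
    have h4 : G ∘ φ =ᶠ[𝓝 b] id := by
      filter_upwards [hU₁o.mem_nhds hb.1] with c hc
      exact hGφ c hc
    rw [h4.fderiv_eq, fderiv_id] at h3
    intro v w hvw
    have h5 := congrArg (fun l : (ℝ × ℝ) →L[ℝ] (ℝ × ℝ) => l v) h3
    have h6 := congrArg (fun l : (ℝ × ℝ) →L[ℝ] (ℝ × ℝ) => l w) h3
    simp only [ContinuousLinearMap.coe_id', id_eq, ContinuousLinearMap.coe_comp,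
      Function.comp_apply] at h5 h6
    rw [h5, h6, hvw]
  · exact emb (hφs.continuousOn.mono inter_subset_left)
      (fun u hu => (hGs u hu.1).continuousAt) fun u hu => hGφ u hu.1
  · ext q
    constructor
    · rintro ⟨b, hb, rfl⟩
      refine ⟨⟨(f b).2.2.2.2, ?_⟩, hb.2⟩
      have h1 := hrφ b hb.1
      unfold rho pr4 at h1
      simp only [Prod.mk.injEq] at h1
      obtain ⟨e1, e2, e3, e4⟩ := h1
      rw [e3, e1, e2, e4]
      exact (hU₁s hb.1).2.1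
    · rintro ⟨⟨F, hF⟩, hqV⟩
      set r : E5 := (Real.exp q.1, q.2.1, Real.exp q.1 * q.2.2.1, q.2.2.2, F) with hr
      have hrW : r ∈ W := by
        by_contra hrW
        apply hqV.2
        refine ⟨r, ⟨⟨hF, ?_⟩, hrW⟩, rfl⟩
        exact ⟨hqV.1.1.le, hqV.1.2.le⟩
      obtain ⟨b, hb, hfb⟩ := hWA ⟨hrW, hF⟩
      have h1 : φ b = q := by
        show sg (f b) = q
        rw [hfb]
        exact sg_mk q F
      refine ⟨b, ⟨hb, ?_⟩, h1⟩
      show φ b ∈ V
      rw [h1]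
      exact hqV

end LCA


end

section

/-! # LAG: exact surfaces are Lagrangian -/

namespace LCA

open Set Filter
open scoped ContDiff Topology

namespace LAG

/-- The second derivative of a smooth map is symmetric. -/
theorem symm {E : Type} [NormedAddCommGroup E] [NormedSpace ℝ E] {g : ℝ × ℝ → E} {u : ℝ × ℝ}
    (hg : ContDiffAt ℝ ∞ g u) (v w : ℝ × ℝ) :
    fderiv ℝ (fderiv ℝ g) u v w = fderiv ℝ (fderiv ℝ g) u w v :=
  (hg.isSymmSndFDerivAt (by
    rw [minSmoothness_of_isRCLikeNormedField]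
    exact (WithTop.coe_le_coe.2 (le_top : (2 : ℕ∞) ≤ ⊤)))).eq v w

/-- The derivative of a smooth map is differentiable. -/
theorem diff2 {E : Type} [NormedAddCommGroup E] [NormedSpace ℝ E] {g : ℝ × ℝ → E} {u : ℝ × ℝ}
    (hg : ContDiffAt ℝ ∞ g u) : DifferentiableAt ℝ (fderiv ℝ g) u :=
  (hg.fderiv_right (m := 1) (WithTop.coe_le_coe.2 (le_top : (1 + 1 : ℕ∞) ≤ ⊤))).differentiableAt (by simp)

end LAG

theorem t_LAG : Stmt_LAG := by
  intro U φ h hU hφ hh heq u hu v w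
  have hUn : U ∈ 𝓝 u := hU.mem_nhds hu
  have cφ : ContDiffAt ℝ ∞ φ u := hφ.contDiffAt hUn
  have ch : ContDiffAt ℝ ∞ h u := hh.contDiffAt hUn
  have dφ : DifferentiableAt ℝ φ u := cφ.differentiableAt (by simp)
  have hφd : HasFDerivAt φ (fderiv ℝ φ u) u := dφ.hasFDerivAt
  have hφ2 : HasFDerivAt (fderiv ℝ φ) (fderiv ℝ (fderiv ℝ φ) u) u := (LAG.diff2 cφ).hasFDerivAt
  have hh2 : HasFDerivAt (fderiv ℝ h) (fderiv ℝ (fderiv ℝ h) u) u := (LAG.diff2 ch).hasFDerivAt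
  -- the derivative of `x ↦ lam (φ x) (dφ x b)` in the direction `a`
  have key : ∀ a b : ℝ × ℝ, fderiv ℝ (fderiv ℝ h) u a b =
      Real.exp (φ u).1 * (fderiv ℝ φ u a).1 * LC.alpha (φ u).2 (fderiv ℝ φ u b).2 +
      Real.exp (φ u).1 * ((fderiv ℝ (fderiv ℝ φ) u a b).2.2.2 -
        ((fderiv ℝ φ u a).2.2.1 * (fderiv ℝ φ u b).2.1 +
          (φ u).2.2.1 * (fderiv ℝ (fderiv ℝ φ) u a b).2.1)) := by
    intro a b
    have e1 : (fun x => fderiv ℝ h x b) =ᶠ[𝓝 u] fun x => LC.lam (φ x) (fderiv ℝ φ x b) := by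
      filter_upwards [hUn] with x hx using heq x hx b
    have l1 : HasFDerivAt (fun x => fderiv ℝ h x b)
        ((ContinuousLinearMap.apply ℝ ℝ b).comp (fderiv ℝ (fderiv ℝ h) u)) u :=
      (ContinuousLinearMap.apply ℝ ℝ b).hasFDerivAt.comp u hh2
    -- line restriction
    have hline : HasDerivAt (fun t : ℝ => u + t • a) a 0 := by
      have := ((hasDerivAt_id (0 : ℝ)).smul_const a).const_add u
      simpa using this
    have hu0 : u + (0 : ℝ) • a = u := by simp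
    have d1 : HasDerivAt (fun t : ℝ => fderiv ℝ h (u + t • a) b)
        (fderiv ℝ (fderiv ℝ h) u a b) 0 := by
      have l1' : HasFDerivAt (fun x => fderiv ℝ h x b)
        ((ContinuousLinearMap.apply ℝ ℝ b).comp (fderiv ℝ (fderiv ℝ h) u)) (u + (0 : ℝ) • a) := by
        rw [hu0]; exact l1
      exact l1'.comp_hasDerivAt 0 hline
    have dφl : HasDerivAt (fun t : ℝ => φ (u + t • a)) (fderiv ℝ φ u a) 0 := by
      have l1' : HasFDerivAt φ (fderiv ℝ φ u) (u + (0 : ℝ) • a) := by rw [hu0]; exact hφd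
      exact l1'.comp_hasDerivAt 0 hline
    have l2 : HasFDerivAt (fun x => fderiv ℝ φ x b)
        ((ContinuousLinearMap.apply ℝ LC.R4 b).comp (fderiv ℝ (fderiv ℝ φ) u)) u :=
      (ContinuousLinearMap.apply ℝ LC.R4 b).hasFDerivAt.comp u hφ2
    have d2 : HasDerivAt (fun t : ℝ => fderiv ℝ φ (u + t • a) b)
        (fderiv ℝ (fderiv ℝ φ) u a b) 0 := by
      have l2' : HasFDerivAt (fun x => fderiv ℝ φ x b)
        ((ContinuousLinearMap.apply ℝ LC.R4 b).comp (fderiv ℝ (fderiv ℝ φ) u))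
          (u + (0 : ℝ) • a) := by
        rw [hu0]; exact l2
      exact l2'.comp_hasDerivAt 0 hline
    -- coordinates
    have ct : HasDerivAt (fun t : ℝ => (φ (u + t • a)).1) (fderiv ℝ φ u a).1 0 :=
      (ContinuousLinearMap.fst ℝ ℝ LC.R3).hasFDerivAt.comp_hasDerivAt 0 dφl
    have c2 : HasDerivAt (fun t : ℝ => (φ (u + t • a)).2) (fderiv ℝ φ u a).2 0 :=
      (ContinuousLinearMap.snd ℝ ℝ LC.R3).hasFDerivAt.comp_hasDerivAt 0 dφl
    have c22 : HasDerivAt (fun t : ℝ => (φ (u + t • a)).2.2) (fderiv ℝ φ u a).2.2 0 :=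
      (ContinuousLinearMap.snd ℝ ℝ (ℝ × ℝ)).hasFDerivAt.comp_hasDerivAt 0 c2
    have cy : HasDerivAt (fun t : ℝ => (φ (u + t • a)).2.2.1) (fderiv ℝ φ u a).2.2.1 0 :=
      (ContinuousLinearMap.fst ℝ ℝ ℝ).hasFDerivAt.comp_hasDerivAt 0 c22
    have b2 : HasDerivAt (fun t : ℝ => (fderiv ℝ φ (u + t • a) b).2)
        (fderiv ℝ (fderiv ℝ φ) u a b).2 0 :=
      (ContinuousLinearMap.snd ℝ ℝ LC.R3).hasFDerivAt.comp_hasDerivAt 0 d2
    have bx : HasDerivAt (fun t : ℝ => (fderiv ℝ φ (u + t • a) b).2.1)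
        (fderiv ℝ (fderiv ℝ φ) u a b).2.1 0 :=
      (ContinuousLinearMap.fst ℝ ℝ (ℝ × ℝ)).hasFDerivAt.comp_hasDerivAt 0 b2
    have b22 : HasDerivAt (fun t : ℝ => (fderiv ℝ φ (u + t • a) b).2.2)
        (fderiv ℝ (fderiv ℝ φ) u a b).2.2 0 :=
      (ContinuousLinearMap.snd ℝ ℝ (ℝ × ℝ)).hasFDerivAt.comp_hasDerivAt 0 b2
    have bz : HasDerivAt (fun t : ℝ => (fderiv ℝ φ (u + t • a) b).2.2.2)
        (fderiv ℝ (fderiv ℝ φ) u a b).2.2.2 0 :=
      (ContinuousLinearMap.snd ℝ ℝ ℝ).hasFDerivAt.comp_hasDerivAt 0 b22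
    have d3 := (ct.exp).mul (bz.sub (cy.mul bx))
    have e2 : (fun t : ℝ => fderiv ℝ h (u + t • a) b) =ᶠ[𝓝 0]
        fun t : ℝ => Real.exp (φ (u + t • a)).1 * ((fderiv ℝ φ (u + t • a) b).2.2.2 -
          (φ (u + t • a)).2.2.1 * (fderiv ℝ φ (u + t • a) b).2.1) := by
      have hc : Tendsto (fun t : ℝ => u + t • a) (𝓝 0) (𝓝 u) := by
        have := hline.continuousAt.tendsto
        rwa [hu0] at this
      filter_upwards [hc.eventually e1] with t ht
      rw [ht]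
      rfl
    have d4 := d1.congr_of_eventuallyEq e2.symm
    have := d4.unique d3
    rw [this]
    simp only [hu0, Pi.sub_apply, Pi.mul_apply, LC.alpha]
  have k1 := key v w
  have k2 := key w v
  have s1 := LAG.symm ch v w
  have s2 := LAG.symm cφ v w
  rw [k1, k2, s2] at s1
  simp only [LC.omega]
  linarith
end LCA


end

section

/-!
# Part A: a complete cap is an exact Lagrangian cap
-/

namespace LCA

open Set Filter
open scoped ContDiff Topology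

namespace FIN

/-- The surface in the symplectization over the cylindrical part. -/
theorem mem_end {K : Set LC.R3} {A : Set E5} {e₀ : ℝ} (hA : Agree (Ioo 0 e₀) A (cyl K))
    {q : LC.R4} (hq : Real.exp q.1 < e₀) {F : ℝ}
    (h : (Real.exp q.1, q.2.1, Real.exp q.1 * q.2.2.1, q.2.2.2, F) ∈ A) :
    q.2 ∈ K ∧ F = Real.exp q.1 * q.2.2.2 := by
  have h1 := (hA (Real.exp q.1, q.2.1, Real.exp q.1 * q.2.2.1, q.2.2.2, F)
    ⟨Real.exp_pos _, hq⟩).1 h
  obtain ⟨r, hr, e⟩ := h1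
  simp only [Prod.mk.injEq] at e
  obtain ⟨e1, e2, e3, e4⟩ := e
  have e5 : q.2.2.1 = r.2.1 := mul_left_cancel₀ (Real.exp_pos q.1).ne' e2
  have e6 : q.2 = r := Prod.ext e1 (Prod.ext e5 e3)
  refine ⟨by rw [e6]; exact hr, ?_⟩
  rw [e4, e3]

theorem end_mem {K : Set LC.R3} {A : Set E5} {e₀ : ℝ} (hA : Agree (Ioo 0 e₀) A (cyl K))
    {q : LC.R4} (hq : Real.exp q.1 < e₀) (h : q.2 ∈ K) :
    (Real.exp q.1, q.2.1, Real.exp q.1 * q.2.2.1, q.2.2.2, Real.exp q.1 * q.2.2.2) ∈ A :=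
  (hA _ ⟨Real.exp_pos _, hq⟩).2 ⟨q.2, h, rfl⟩

end FIN

open _root_.LCA.FIN in
/-- FIN: a complete cap is an exact Lagrangian cap. -/
theorem t_FIN (hTCH : Stmt_TCH) (hTEX : Stmt_TEX) (hLAG : Stmt_LAG) (hTTO : Stmt_TTO) :
    Stmt_FIN := by
  intro Λ hC
  obtain ⟨A, hG, hD, ⟨e₀, he₀, hA⟩, S, hS⟩ := hC
  obtain ⟨hcl, hco, hcp⟩ := hTTO Λ A e₀ S hG hD he₀ hA hS
  obtain ⟨f, hf, hch⟩ := hTEX A hG
  refine ⟨surfL A, hcl, hco, hTCH A hG, ?_, ?_⟩
  · intro U V φ hφ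
    obtain ⟨h1, h2⟩ := hch U V φ hφ
    exact hLAG U φ _ hφ.openU hφ.smooth h1 h2
  · obtain ⟨T₁, hT₁⟩ : ∃ T₁ : ℝ, Real.exp (-T₁) = e₀ :=
      ⟨-Real.log e₀, by rw [neg_neg, Real.exp_log he₀]⟩
    have hS1 : S < Real.exp (|S| + 1) := by
      have h1 := Real.add_one_le_exp (|S| + 1)
      linarith [le_abs_self S]
    have hlt : ∀ q : LC.R4, q.1 < -(max T₁ (|S| + 1)) → Real.exp q.1 < e₀ := by
      intro q hq
      rw [← hT₁, Real.exp_lt_exp]
      linarith [le_max_left T₁ (|S| + 1)]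
    refine ⟨max T₁ (|S| + 1), lt_of_lt_of_le (by positivity) (le_max_right _ _), ?_, ?_,
      hcp _, f, 0, ?_, ?_⟩
    · intro q hq
      constructor
      · rintro ⟨F, hF⟩
        exact (mem_end hA (hlt q hq) hF).1
      · intro h
        exact ⟨_, end_mem hA (hlt q hq) h⟩
    · rintro q ⟨F, hF⟩
      have h1 : Real.exp q.1 ≤ S := hS _ hF (Real.exp_pos _)
      have h2 : Real.exp q.1 < Real.exp (|S| + 1) := lt_of_le_of_lt h1 hS1
      exact ((Real.exp_lt_exp.1 h2).le).trans (le_max_right _ _)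
    · rintro q ⟨F, hF⟩ hq
      rw [hf q F hF, (mem_end hA (hlt q hq) hF).2, sub_self]
    · intro U V φ hφ u hu
      obtain ⟨h1, h2⟩ := hch U V φ hφ
      exact ⟨(h1.contDiffAt (hφ.openU.mem_nhds hu)).differentiableAt (by norm_num), h2 u hu⟩

end LCA


end

section

/-!
# Part A, BXC: the pieces do not meet the box around a critical point
-/

namespace LCA

open Set Filter
open scoped ContDiff Topology

namespace BXC

variable {m n : ℕ}

/-- (I2) at the left end. -/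
theorem i2_lf (c : Comb m n) (q v : St n) (e : Fin m) :
    v.2 (c.lf e) = c.dpe q v e * q.1 (c.lf e) + c.pe q e * v.1 (c.lf e) + c.dae q v e := by
  unfold Comb.dae
  ring

/-- (I2) at the right end. -/
theorem i2_rt (c : Comb m n) (q v : St n) (e : Fin m) (h : q.1 (c.lf e) < q.1 (c.rt e)) :
    v.2 (c.rt e) = c.dpe q v e * q.1 (c.rt e) + c.pe q e * v.1 (c.rt e) + c.dae q v e := by
  have h0 : q.1 (c.rt e) - q.1 (c.lf e) ≠ 0 := by
    have := sub_pos.mpr h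
    exact this.ne'
  have h1 : c.dpe q v e * (q.1 (c.rt e) - q.1 (c.lf e)) =
      v.2 (c.rt e) - v.2 (c.lf e) - c.pe q e * (v.1 (c.rt e) - v.1 (c.lf e)) := by
    unfold Comb.dpe
    exact div_mul_cancel₀ _ h0
  have h2 := i2_lf c q v e
  linarith [h1, h2]

/-- (I2) for the first edge of a vertex. -/
theorem i2_ea (c : Comb m n) (hv : c.Valid) (q v : St n)
    (h : ∀ e, q.1 (c.lf e) < q.1 (c.rt e)) (i : Fin n) :
    v.2 i = c.dpe q v (c.ea i) * q.1 i + c.pe q (c.ea i) * v.1 i + c.dae q v (c.ea i) := by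
  have hi := hv.oka i
  unfold Comb.OKa at hi
  rcases ht : c.ty i with _ | _ | _
  · rw [ht] at hi
    have := i2_rt c q v (c.ea i) (h _)
    rw [hi] at this
    exact this
  · rw [ht] at hi
    have := i2_rt c q v (c.ea i) (h _)
    rw [hi] at this
    exact this
  · rw [ht] at hi
    have := i2_lf c q v (c.ea i)
    rw [hi] at this
    exact this

/-- The bound for the `x`-coordinate of a profile. -/
theorem X_bd {t : Ty} {s : ℝ} {π : Prof} (h : ProfBd t s π) {u : ℝ} (hu : |u| ≤ 2) :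
    |π.X s u| ≤ 2 := by
  rcases le_or_gt |u| 1 with h1 | h1
  · exact (h.X_bd u h1).trans (by norm_num)
  · rcases lt_abs.mp h1 with h2 | h2
    · rw [(h.high u h2.le).1]
      cases t
      · exact hu
      · show |-u| ≤ 2
        rw [abs_neg]
        exact hu
      · exact hu
    · rw [(h.low u (by linarith)).1]
      cases t
      · exact hu
      · exact hu
      · show |-u| ≤ 2
        rw [abs_neg]
        exact hu

/-- An affine function which is larger than `K` at both ends of an interval is larger than `K`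
on the interval. -/
theorem aff {A B K l r p : ℝ} (h1 : l ≤ p) (h2 : p ≤ r) (hl : K < A - l * B)
    (hr : K < A - r * B) : K < A - p * B := by
  rcases le_total 0 B with hB | hB
  · have : p * B ≤ r * B := mul_le_mul_of_nonneg_right h2 hB
    linarith
  · have : p * B ≤ l * B := mul_le_mul_of_nonpos_right h1 hB
    linarith

/-- The height of a point of the piece of a vertex. -/
theorem p_mem (c : Comb m n) (q : St n) (i : Fin n) {P : ℝ} (h0 : 0 ≤ P) (h1 : P ≤ 1) :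
    c.plo q i ≤ c.pe q (c.ea i) + c.dl q i * P ∧ c.pe q (c.ea i) + c.dl q i * P ≤ c.phi q i := by
  unfold Comb.plo Comb.phi Comb.dl
  rcases le_total (c.pe q (c.ea i)) (c.pe q (c.eb i)) with h | h
  · rw [min_eq_left h, max_eq_right h]
    have hd : 0 ≤ c.pe q (c.eb i) - c.pe q (c.ea i) := sub_nonneg.mpr h
    have := mul_nonneg hd h0
    have := mul_le_mul_of_nonneg_left h1 hd
    constructor <;> linarith
  · rw [min_eq_right h, max_eq_left h]
    have hd : 0 ≤ c.pe q (c.ea i) - c.pe q (c.eb i) := sub_nonneg.mpr h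
    have := mul_nonneg hd h0
    have := mul_le_mul_of_nonneg_left h1 hd
    constructor <;> linarith

/-- The error term. -/
theorem err_bd {w a b d X Θ Y : ℝ} (hw : 0 < w) (hX : |X| ≤ 2) (hΘ : |Θ| ≤ 2) (hY : |Y| ≤ CY) :
    |w * (a * X + b * Θ + d * Y)| ≤ w * (2 * |a| + 2 * |b| + CY * |d|) := by
  rw [abs_mul, abs_of_pos hw]
  apply mul_le_mul_of_nonneg_left _ hw.le
  have h1 : |a * X| ≤ 2 * |a| := by
    rw [abs_mul, mul_comm]
    exact mul_le_mul_of_nonneg_right hX (abs_nonneg _)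
  have h2 : |b * Θ| ≤ 2 * |b| := by
    rw [abs_mul, mul_comm]
    exact mul_le_mul_of_nonneg_right hΘ (abs_nonneg _)
  have h3 : |d * Y| ≤ CY * |d| := by
    rw [abs_mul, mul_comm]
    exact mul_le_mul_of_nonneg_right hY (abs_nonneg _)
  have h4 := abs_add_three (a * X) (b * Θ) (d * Y)
  linarith

/-- (I4) with the bound of the error. -/
theorem z_bd (c : Comb m n) (hv : c.Valid) (w : Fin n → ℝ) (hw : ∀ i, 0 < w i)
    (π : Fin n → Prof) (s : ℝ) (q v : St n) (hπ : ∀ i, ProfBd (c.ty i) s (π i))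
    (h : ∀ e, q.1 (c.lf e) < q.1 (c.rt e)) (i : Fin n) (u : ℝ) (hu : |u| ≤ 2) :
    |(c.vp w π s q v i u).2.2.1 - (v.2 i - (c.vp w π s q v i u).2.1 * v.1 i)| ≤
      c.err w q v i := by
  have e1 : (c.vp w π s q v i u).2.2.1 - (v.2 i - (c.vp w π s q v i u).2.1 * v.1 i) =
      w i * (c.dpe q v (c.ea i) * (π i).X s u
        + (c.dpe q v (c.eb i) - c.dpe q v (c.ea i)) * (π i).Θ s u
        + c.dl q i * (π i).Y s u) := by
    have := i2_ea c hv q v h i
    simp only [Comb.vp, Comb.vpt]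
    rw [this]
    ring
  rw [e1]
  exact err_bd (hw i) (X_bd (hπ i) hu) ((hπ i).Θ_bd u hu) ((hπ i).Y_bd u hu)

theorem x_bd (c : Comb m n) (w : Fin n → ℝ) (hw : ∀ i, 0 < w i)
    (π : Fin n → Prof) (s : ℝ) (q v : St n) (hπ : ∀ i, ProfBd (c.ty i) s (π i))
    (i : Fin n) (u : ℝ) (hu : |u| ≤ 2) :
    |(c.vp w π s q v i u).1 - q.1 i| ≤ 2 * w i := by
  have e1 : (c.vp w π s q v i u).1 - q.1 i = w i * (π i).X s u := by
    simp only [Comb.vp, Comb.vpt]
    ring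
  rw [e1, abs_mul, abs_of_pos (hw i), mul_comm]
  exact mul_le_mul_of_nonneg_right (X_bd (hπ i) hu) (hw i).le

end BXC

/-- BXC: the pieces do not meet the box. -/
theorem t_BXC : Stmt_BXC := by
  intro m n c w π s E ρ q v hv hw hπ hlr
  constructor
  · intro e he x hx hxρ hp1 hp2
    have hx1 := abs_le.mp hxρ
    unfold Comb.rg at hx
    rcases he with h | h | h | h | h
    · exact absurd hx.2 (by linarith [hx1.1])
    · exact absurd hx.1 (by linarith [hx1.2])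
    · exact absurd hp1 (by linarith)
    · exact absurd hp2 (by linarith)
    · show E.ζ < |c.dpe q v e * x + c.dae q v e - E.z₀|
      have e1 : c.dpe q v e * E.x₀ + c.dae q v e - E.z₀ =
          (c.dpe q v e * x + c.dae q v e - E.z₀) - c.dpe q v e * (x - E.x₀) := by ring
      have e2 := abs_sub (c.dpe q v e * x + c.dae q v e - E.z₀) (c.dpe q v e * (x - E.x₀))
      rw [← e1, abs_mul] at e2
      have e3 : |c.dpe q v e| * |x - E.x₀| ≤ |c.dpe q v e| * ρ :=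
        mul_le_mul_of_nonneg_left hxρ (abs_nonneg _)
      linarith
  · intro i hi u hu hxρ hp1 hp2
    have hx1 := abs_le.mp hxρ
    have hx2 := abs_le.mp (BXC.x_bd c w hw π s q v hπ i u hu)
    have hz := BXC.z_bd c hv w hw π s q v hπ hlr i u hu
    have hp := BXC.p_mem c q i ((hπ i).P_mem u).1 ((hπ i).P_mem u).2
    have hpe : (c.vp w π s q v i u).2.1 = c.pe q (c.ea i) + c.dl q i * (π i).P s u := rfl
    rw [← hpe] at hp
    rcases hi with h | h | h | h | ⟨σ, hσ, h1, h2⟩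
    · exact absurd hx1.1 (by linarith [hx2.2])
    · exact absurd hx1.2 (by linarith [hx2.1])
    · exact absurd hp1 (by linarith [hp.2])
    · exact absurd hp2 (by linarith [hp.1])
    · set p := (c.vp w π s q v i u).2.1 with hpdef
      set z := (c.vp w π s q v i u).2.2.1 with hzdef
      have hl : max (c.plo q i) (min E.P₁ E.P₂ - E.g / 2) ≤ p := max_le hp.1 hp1
      have hr : p ≤ min (c.phi q i) (max E.P₁ E.P₂ + E.g / 2) := le_min hp.2 hp2
      have k1 : E.ζ + c.err w q v i < σ * (v.2 i - E.z₀) -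
          max (c.plo q i) (min E.P₁ E.P₂ - E.g / 2) * (σ * v.1 i) := by
        linarith [h1]
      have k2 : E.ζ + c.err w q v i < σ * (v.2 i - E.z₀) -
          min (c.phi q i) (max E.P₁ E.P₂ + E.g / 2) * (σ * v.1 i) := by
        linarith [h2]
      have k3 := BXC.aff hl hr k1 k2
      have k4 : |σ * (z - (v.2 i - p * v.1 i))| ≤ c.err w q v i := by
        rw [abs_mul, hσ, one_mul]
        exact hz
      have k5 := (abs_le.mp k4).1
      have k6 : E.ζ < σ * (z - E.z₀) := by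
        have e1 : σ * (z - E.z₀) = (σ * (v.2 i - E.z₀) - p * (σ * v.1 i))
          + σ * (z - (v.2 i - p * v.1 i)) := by ring
        rw [e1]
        linarith
      calc E.ζ < σ * (z - E.z₀) := k6
        _ ≤ |σ * (z - E.z₀)| := le_abs_self _
        _ = |z - E.z₀| := by rw [abs_mul, hσ, one_mul]

end LCA


end

section

/-!
# Part A: the surface near a saddle is good
-/

set_option autoImplicit false

namespace LCA

open Set Filter
open scoped ContDiff Topology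

namespace SDG

variable {m n : ℕ}

/-! ### generalities -/

lemma hasDerivAt_lin (Q V : St n) (t s : ℝ) : HasDerivAt (lin Q V t) V s := by
  have h : HasDerivAt (lin Q V t) ((1 : ℝ) • V) s :=
    (((hasDerivAt_id s).sub_const t).smul_const V).const_add Q
  rwa [one_smul] at h

lemma deriv_lin (Q V : St n) (t s : ℝ) : deriv (lin Q V t) s = V :=
  (hasDerivAt_lin Q V t s).deriv

lemma contDiff_lin (Q V : St n) (t : ℝ) : ContDiff ℝ ∞ (lin Q V t) :=
  contDiff_const.add ((contDiff_id.sub contDiff_const).smul contDiff_const)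

/-- The property `Good` is local in time. -/
lemma good_congr (J : Set ℝ) (hJ : IsOpen J) (A A' : Set E5) (h : Agree J A A')
    (hA : Good J A) : Good J A' := by
  have hnh : ∀ q : E5, q.1 ∈ J → 𝓝[A'] q = 𝓝[A] q := by
    intro q hq
    rw [nhdsWithin_eq_iff_eventuallyEq]
    have hopen : {r : E5 | r.1 ∈ J} ∈ 𝓝 q := (hJ.preimage continuous_fst).mem_nhds hq
    filter_upwards [hopen] with r hr
    exact propext (h r hr).symm
  refine ⟨?_, ?_, ?_, ?_⟩
  · intro q hq hqJ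
    rw [mem_closure_iff_nhdsWithin_neBot, hnh q hqJ, ← mem_closure_iff_nhdsWithin_neBot] at hq
    exact (h q hqJ).1 (hA.closed q hq hqJ)
  · intro K hKJ hK
    obtain ⟨M, hM⟩ := hA.bounded K hKJ hK
    exact ⟨M, fun q hq hqK => hM q ((h q (hKJ hqK)).2 hq) hqK⟩
  · intro q hq hqJ
    obtain ⟨f, a, hf, hfa, hmem, hN⟩ := hA.chart q ((h q hqJ).2 hq) hqJ
    refine ⟨f, a, hf, hfa, ?_, ?_⟩
    · have hc : ContinuousAt f a := hf.smooth.self_of_nhds.continuousAt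
      have hJa : ∀ᶠ b in 𝓝 a, (f b).1 ∈ J := by
        have h1 : ContinuousAt (fun b => (f b).1) a := continuous_fst.continuousAt.comp hc
        apply h1.eventually_mem
        rw [hfa]
        exact hJ.mem_nhds hqJ
      filter_upwards [hmem, hJa] with b hb hbJ
      exact (h _ hbJ).1 hb
    · intro N hNa
      rw [hnh q hqJ]
      exact hN N hNa
  · intro q hq q' hq' hqJ h1 h2 h3 h4
    exact hA.inj q ((h q hqJ).2 hq) q' ((h q' (h1 ▸ hqJ)).2 hq') hqJ h1 h2 h3 h4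

lemma continuous_pr4 : Continuous pr4 := by
  unfold pr4
  fun_prop

/-- The projection of a closed set with bounded slices is closed. -/
lemma closed_image (J : Set ℝ) (hJ : IsOpen J) (A : Set E5)
    (hcl : ∀ r ∈ closure A, r.1 ∈ J → r ∈ A)
    (hbd : ∀ K ⊆ J, IsCompact K → ∃ M : ℝ, ∀ r ∈ A, r.1 ∈ K → ‖r.2‖ ≤ M)
    (r : ℝ × ℝ × ℝ × ℝ) (hr : r ∈ closure (pr4 '' A)) (hrJ : r.1 ∈ J) : r ∈ pr4 '' A := by
  obtain ⟨δ, hδ, hball⟩ := Metric.isOpen_iff.1 hJ r.1 hrJ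
  have hKJ : Metric.closedBall r.1 (δ / 2) ⊆ J :=
    (Metric.closedBall_subset_ball (by linarith)).trans hball
  have hK : IsCompact (Metric.closedBall r.1 (δ / 2)) := isCompact_closedBall _ _
  obtain ⟨M, hM⟩ := hbd _ hKJ hK
  have hclosed : IsClosed (A ∩ {q : E5 | q.1 ∈ Metric.closedBall r.1 (δ / 2)}) := by
    apply isClosed_of_closure_subset
    intro q hq
    have h1 : q.1 ∈ Metric.closedBall r.1 (δ / 2) := by
      have h2 : q ∈ closure {q : E5 | q.1 ∈ Metric.closedBall r.1 (δ / 2)} :=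
        closure_mono inter_subset_right hq
      have h3 : IsClosed {q : E5 | q.1 ∈ Metric.closedBall r.1 (δ / 2)} :=
        hK.isClosed.preimage continuous_fst
      rwa [h3.closure_eq] at h2
    exact ⟨hcl q (closure_mono inter_subset_left hq) (hKJ h1), h1⟩
  have hcomp : IsCompact (A ∩ {q : E5 | q.1 ∈ Metric.closedBall r.1 (δ / 2)}) := by
    refine (hK.prod (isCompact_closedBall (0 : ℝ × ℝ × ℝ × ℝ) M)).of_isClosed_subset hclosed ?_
    rintro q ⟨hqA, hqK⟩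
    refine ⟨hqK, ?_⟩
    rw [mem_closedBall_zero_iff]
    exact hM q hqA hqK
  have himg := (hcomp.image continuous_pr4).isClosed
  have hmem : r ∈ closure (pr4 '' (A ∩ {q : E5 | q.1 ∈ Metric.closedBall r.1 (δ / 2)})) := by
    rw [mem_closure_iff_nhds] at hr ⊢
    intro t ht
    have h1 : {r' : ℝ × ℝ × ℝ × ℝ | r'.1 ∈ Metric.ball r.1 (δ / 2)} ∈ 𝓝 r :=
      (Metric.isOpen_ball.preimage continuous_fst).mem_nhds (Metric.mem_ball_self (by linarith))
    obtain ⟨y, ⟨hy1, hy2⟩, q, hq, rfl⟩ := hr _ (inter_mem ht h1)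
    exact ⟨pr4 q, hy1, q, ⟨hq, Metric.ball_subset_closedBall hy2⟩, rfl⟩
  rw [himg.closure_eq] at hmem
  exact image_mono inter_subset_left hmem

/-! ### the edges and the passes -/

lemma fst_add_smul (Q V : St n) (t : ℝ) (i : Fin n) : (Q + t • V).1 i = Q.1 i + t * V.1 i := rfl

lemma snd_add_smul (Q V : St n) (t : ℝ) (i : Fin n) : (Q + t • V).2 i = Q.2 i + t * V.2 i := rfl

/-- The data of an edge with constant slope. -/
lemma edge_const (c : Comb m n) (Q V : St n) (e : Fin m) (t : ℝ)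
    (h0 : Q.1 (c.lf e) < Q.1 (c.rt e))
    (ht : (Q + t • V).1 (c.lf e) < (Q + t • V).1 (c.rt e)) (hd : c.dpe Q V e = 0)
    (i : Fin n) (hi : i = c.lf e ∨ i = c.rt e) :
    c.pe (Q + t • V) e = c.pe Q e ∧ c.dpe (Q + t • V) V e = 0 ∧
      c.dae (Q + t • V) V e = V.2 i - c.pe Q e * V.1 i ∧
      c.ae (Q + t • V) e = Q.2 i + t * V.2 i - c.pe Q e * (Q.1 i + t * V.1 i) := by
  have hd' : V.2 (c.rt e) - V.2 (c.lf e) = c.pe Q e * (V.1 (c.rt e) - V.1 (c.lf e)) := by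
    unfold Comb.dpe at hd
    rcases div_eq_zero_iff.1 hd with h | h
    · linarith
    · exfalso; linarith
  have hp : Q.2 (c.rt e) - Q.2 (c.lf e) = c.pe Q e * (Q.1 (c.rt e) - Q.1 (c.lf e)) := by
    unfold Comb.pe
    rw [div_mul_cancel₀]
    intro h
    linarith
  have hne : (Q + t • V).1 (c.rt e) - (Q + t • V).1 (c.lf e) ≠ 0 := by
    intro h
    linarith
  have h1 : c.pe (Q + t • V) e = c.pe Q e := by
    have : c.pe (Q + t • V) e = ((Q + t • V).2 (c.rt e) - (Q + t • V).2 (c.lf e)) /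
      ((Q + t • V).1 (c.rt e) - (Q + t • V).1 (c.lf e)) := rfl
    rw [this, div_eq_iff hne]
    simp only [fst_add_smul, snd_add_smul]
    linear_combination hp + t * hd'
  have h2 : c.dpe (Q + t • V) V e = 0 := by
    unfold Comb.dpe
    rw [h1, hd', sub_self, zero_div]
  refine ⟨h1, h2, ?_, ?_⟩
  · unfold Comb.dae
    rw [h1, h2]
    rcases hi with rfl | rfl
    · ring
    · linear_combination -hd'
  · unfold Comb.ae
    rw [h1]
    simp only [fst_add_smul, snd_add_smul]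
    rcases hi with rfl | rfl
    · ring
    · linear_combination -hp - t * hd'

/-- The points of an edge with constant slope. -/
lemma ept_gen (c : Comb m n) (Q V : St n) (e : Fin m) (t : ℝ)
    (h0 : Q.1 (c.lf e) < Q.1 (c.rt e))
    (ht : (Q + t • V).1 (c.lf e) < (Q + t • V).1 (c.rt e)) (hd : c.dpe Q V e = 0)
    (i : Fin n) (hi : i = c.lf e ∨ i = c.rt e) (x₀ F₀ z p : ℝ) (hx : Q.1 i = x₀)
    (hF : Q.2 i = F₀) (hvx : V.1 i = 0) (hvF : V.2 i = z) (hp : c.pe Q e = p) (x : ℝ) :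
    c.ept (Q + t • V) V e x = (x, p, z, F₀ + p * (x - x₀) + t * z) := by
  obtain ⟨h1, h2, h3, h4⟩ := edge_const c Q V e t h0 ht hd i hi
  unfold Comb.ept
  rw [h1, h2, h3, h4, hx, hF, hvx, hvF, hp]
  refine Prod.ext rfl (Prod.ext rfl (Prod.ext ?_ ?_))
  · simp
  · simp only
    ring

/-- The points of a pass between two edges with constant slopes. -/
lemma vp_gen (c : Comb m n) (w : Fin n → ℝ) (sh : Shape) (s : ℝ) (Q V : St n) (t : ℝ) (i : Fin n)
    (e e' : Fin m) (hty : c.ty i = .P) (hea : c.ea i = e) (heb : c.eb i = e')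
    (h0 : Q.1 (c.lf e) < Q.1 (c.rt e)) (h0' : Q.1 (c.lf e') < Q.1 (c.rt e'))
    (ht : (Q + t • V).1 (c.lf e) < (Q + t • V).1 (c.rt e))
    (ht' : (Q + t • V).1 (c.lf e') < (Q + t • V).1 (c.rt e'))
    (hd : c.dpe Q V e = 0) (hd' : c.dpe Q V e' = 0)
    (hi : i = c.lf e ∨ i = c.rt e) (hi' : i = c.lf e' ∨ i = c.rt e') (x₀ z p p' r : ℝ)
    (hx : Q.1 i = x₀) (hvx : V.1 i = 0) (hvF : V.2 i = z) (hp : c.pe Q e = p)
    (hp' : c.pe Q e' = p') (hw : w i = r) (u : ℝ) :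
    (c.vp w (c.sp sh) s (Q + t • V) V i u).1 = x₀ + r * u ∧
    (c.vp w (c.sp sh) s (Q + t • V) V i u).2.1 = p + (p' - p) * sh.τ u ∧
    (c.vp w (c.sp sh) s (Q + t • V) V i u).2.2.1 = z := by
  obtain ⟨h1, h2, h3, -⟩ := edge_const c Q V e t h0 ht hd i hi
  obtain ⟨h1', h2', -, -⟩ := edge_const c Q V e' t h0' ht' hd' i hi'
  have hX : (c.sp sh i).X s u = u := by
    simp only [Comb.sp, Shape.st, hty]
  have hP : (c.sp sh i).P s u = sh.τ u := rfl
  have hY : (c.sp sh i).Y s u = 0 := rfl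
  unfold Comb.vp Comb.vpt Comb.dl
  rw [hX, hP, hY, hea, heb, h1, h1', h2, h2', h3, hp, hp', hw, hvx, hvF, fst_add_smul, hx, hvx]
  refine ⟨?_, rfl, ?_⟩
  · simp
  · simp

/-! ### the local surface -/

/-- The ranges of `p` and `z` on the local surface. -/
lemma pt_range (E : Evt) (sh : Shape) (hE : E.Pos) (a : ℝ × ℝ) :
    min E.P₁ E.P₂ - E.g / 2 ≤ (E.pt sh 1 1 a).2.2.1 ∧
    (E.pt sh 1 1 a).2.2.1 ≤ max E.P₁ E.P₂ + E.g / 2 ∧
    |(E.pt sh 1 1 a).2.2.2.1 - E.z₀| ≤ E.ζ := by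
  obtain ⟨u, x⟩ := a
  have hg := hE.g
  have hv := hE.v
  have hz : (E.pt sh 1 1 (u, x)).2.2.2.1 = E.z₀ + E.ζ * (2 * sh.τ u - 1) := rfl
  have hp : (E.pt sh 1 1 (u, x)).2.2.1 = 1 * 1 * (E.ζ * (2 * sh.τ u - 1)) *
      ((2 * sh.τ ((x - E.x₀) / E.r) - 1) / E.v) + E.P₁ +
      (E.P₂ - E.P₁) * sh.τ ((x - E.x₀) / E.r) := rfl
  have hζ : 0 < E.ζ := by
    unfold Evt.ζ
    positivity
  have hτ := sh.τ_mem u
  have hT := sh.τ_mem ((x - E.x₀) / E.r)
  set T := sh.τ ((x - E.x₀) / E.r) with hTdef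
  have hp' : (E.pt sh 1 1 (u, x)).2.2.1 =
      (E.g / 2) * ((2 * sh.τ u - 1) * (2 * T - 1)) + (E.P₁ + (E.P₂ - E.P₁) * T) := by
    rw [hp]
    unfold Evt.ζ
    field_simp
    ring
  have hprod : |(2 * sh.τ u - 1) * (2 * T - 1)| ≤ 1 := by
    rw [abs_mul]
    have h1 : |2 * sh.τ u - 1| ≤ 1 := by rw [abs_le]; constructor <;> (first | linarith only [hτ] | linarith)
    have h2 : |2 * T - 1| ≤ 1 := by rw [abs_le]; constructor <;> (first | linarith only [hT] | linarith)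
    calc |2 * sh.τ u - 1| * |2 * T - 1| ≤ 1 * 1 :=
          mul_le_mul h1 h2 (abs_nonneg _) zero_le_one
      _ = 1 := one_mul 1
  rw [abs_le] at hprod
  have hlo : min E.P₁ E.P₂ ≤ E.P₁ + (E.P₂ - E.P₁) * T := by
    have h1 := min_le_left E.P₁ E.P₂
    have h2 := min_le_right E.P₁ E.P₂
    nlinarith only [hT, h2, h1]
  have hhi : E.P₁ + (E.P₂ - E.P₁) * T ≤ max E.P₁ E.P₂ := by
    have h1 := le_max_left E.P₁ E.P₂
    have h2 := le_max_right E.P₁ E.P₂
    nlinarith only [hT, h2, h1]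
  refine ⟨?_, ?_, ?_⟩
  · rw [hp']
    nlinarith only [hlo, hg, hprod]
  · rw [hp']
    nlinarith only [hhi, hg, hprod]
  · rw [hz, add_sub_cancel_left, abs_mul, abs_of_pos hζ]
    have h1 : |2 * sh.τ u - 1| ≤ 1 := by rw [abs_le]; constructor <;> (first | linarith only [hτ] | linarith)
    calc E.ζ * |2 * sh.τ u - 1| ≤ E.ζ * 1 := mul_le_mul_of_nonneg_left h1 hζ.le
      _ = E.ζ := mul_one _

/-- The local surface away from the critical point: four lines. -/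
lemma pt_line (E : Evt) (sh : Shape) (hE : E.Pos) (σ σ' u x s : ℝ)
    (hσ : (σ = -1 ∧ u ≤ -1) ∨ (σ = 1 ∧ 1 ≤ u))
    (hσ' : (σ' = -1 ∧ x ≤ E.x₀ - E.r) ∨ (σ' = 1 ∧ E.x₀ + E.r ≤ x))
    (hs : s = E.s₀ + (E.r / E.v) * (σ * u) - σ' * (x - E.x₀) / E.v) :
    E.pt sh 1 1 (u, x) = (s, x, E.P₁ + (E.P₂ - E.P₁) * ((1 + σ') / 2) + σ * σ' * (E.g / 2),
      E.z₀ + σ * E.ζ, E.F₀ + (E.P₁ + (E.P₂ - E.P₁) * ((1 + σ') / 2) + σ * σ' * (E.g / 2)) *
        (x - E.x₀) + (s - E.s₀) * (E.z₀ + σ * E.ζ)) := by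
  have hg := hE.g
  have hv := hE.v
  have hr := hE.r
  have hu1 : sh.τ u = (1 + σ) / 2 ∧ sh.ξ u = -(σ * u) ∧ sh.ΘR u = -((1 + σ) / 2) * u := by
    rcases hσ with ⟨rfl, h⟩ | ⟨rfl, h⟩
    · refine ⟨?_, ?_, ?_⟩
      · rw [sh.τ_low u h]; norm_num
      · rw [sh.ξ_out u (by rw [abs_of_nonpos (by linarith)]; linarith),
          abs_of_nonpos (by linarith)]
        ring
      · rw [sh.ΘR_low u h]; norm_num
    · refine ⟨?_, ?_, ?_⟩
      · rw [sh.τ_high u h]; norm_num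
      · rw [sh.ξ_out u (by rw [abs_of_nonneg (by linarith)]; linarith),
          abs_of_nonneg (by linarith)]
        ring
      · rw [sh.ΘR_high u h]; norm_num
  set U := (x - E.x₀) / E.r with hU
  have hUx : E.r * U = x - E.x₀ := by
    rw [hU]
    field_simp
  have hU1 : sh.τ U = (1 + σ') / 2 ∧ sh.ΘP U = ((1 + σ') / 2) * U := by
    rcases hσ' with ⟨rfl, h⟩ | ⟨rfl, h⟩
    · have hU2 : U ≤ -1 := by
        rw [hU, div_le_iff₀ hr]
        linarith
      refine ⟨?_, ?_⟩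
      · rw [sh.τ_low U hU2]; norm_num
      · rw [sh.ΘP_low U hU2]; norm_num
    · have hU2 : 1 ≤ U := by
        rw [hU, le_div_iff₀ hr]
        linarith
      refine ⟨?_, ?_⟩
      · rw [sh.τ_high U hU2]; norm_num
      · rw [sh.ΘP_high U hU2]; norm_num
  have hPsi : sh.Psi U = σ' * U := by
    unfold Shape.Psi
    rw [hU1.2]
    ring
  have h1 : E.s₀ + 1 * (-(E.r / E.v) * sh.ξ u - 1 * (E.r / E.v) * sh.Psi U) = s := by
    rw [hu1.2.1, hPsi, hs]
    have : x - E.x₀ = E.r * U := hUx.symm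
    rw [this]
    field_simp
    ring
  have hσ2 : σ * σ = 1 := by
    rcases hσ with ⟨rfl, -⟩ | ⟨rfl, -⟩ <;> norm_num
  have hpt : E.pt sh 1 1 (u, x) =
      (E.s₀ + 1 * (-(E.r / E.v) * sh.ξ u - 1 * (E.r / E.v) * sh.Psi U), x,
        1 * 1 * (E.ζ * (2 * sh.τ u - 1)) * ((2 * sh.τ U - 1) / E.v) + E.P₁ +
          (E.P₂ - E.P₁) * sh.τ U, E.z₀ + E.ζ * (2 * sh.τ u - 1),
        E.F₀ - 1 * (E.ζ * E.r / E.v) * (2 * sh.ΘR u - sh.ξ u) + E.P₁ * (x - E.x₀)
          + (E.P₂ - E.P₁) * E.r * sh.ΘP U +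
          E.z₀ * ((E.s₀ + 1 * (-(E.r / E.v) * sh.ξ u - 1 * (E.r / E.v) * sh.Psi U)) - E.s₀)) :=
    rfl
  rw [hpt, h1]
  refine Prod.ext rfl (Prod.ext rfl (Prod.ext ?_ (Prod.ext ?_ ?_)))
  · simp only
    rw [hu1.1, hU1.1]
    unfold Evt.ζ
    field_simp
    ring
  · simp only
    rw [hu1.1]
    ring
  · simp only
    rw [hu1.2.2, hu1.2.1, hU1.2]
    have h2 : (E.ζ * E.r / E.v) * u * σ = E.ζ * (s - E.s₀) + E.ζ * σ' * (x - E.x₀) / E.v := by
      rw [hs]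
      field_simp
      ring
    have h3 : E.ζ / E.v = E.g / 2 := by
      unfold Evt.ζ
      field_simp
    have h4 : E.F₀ - 1 * (E.ζ * E.r / E.v) * (2 * (-((1 + σ) / 2) * u) - -(σ * u)) +
        E.P₁ * (x - E.x₀) + (E.P₂ - E.P₁) * E.r * ((1 + σ') / 2 * U) + E.z₀ * (s - E.s₀) =
        E.F₀ + (E.ζ * E.r / E.v) * u + E.P₁ * (x - E.x₀) +
          (E.P₂ - E.P₁) * ((1 + σ') / 2) * (E.r * U) + E.z₀ * (s - E.s₀) := by
      ring
    rw [h4, hUx]
    have h5 : (E.ζ * E.r / E.v) * u = σ * ((E.ζ * E.r / E.v) * u * σ) := by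
      linear_combination (-(E.ζ * E.r / E.v) * u) * hσ2
    rw [h5, h2]
    have h6 : E.ζ * σ' * (x - E.x₀) / E.v = (E.ζ / E.v) * σ' * (x - E.x₀) := by ring
    rw [h6, h3]
    ring

/-! ### the facts about a saddle -/

section

variable {c c' : Comb m n} {w : Fin n → ℝ} {L R : Fin n} {H₁ H₂ H₃ H₄ : Fin m} {E : Evt}
  {Q V V' : St n} {η : ℝ}

lemma eta_pos (hS : Saddle c c' w L R H₁ H₂ H₃ H₄ E Q V V' η) : 0 < η := by
  have h1 := hS.small
  have h2 := hS.pos.v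
  have h3 := hS.pos.r
  by_contra h
  push Not at h
  nlinarith

lemma mem_Icc_of_mem {s : ℝ} (hs : s ∈ Ioo (E.s₀ - η) (E.s₀ + η)) :
    s - E.s₀ ∈ Icc (-η) η := ⟨by linarith [hs.1], by linarith [hs.2]⟩

lemma lt_of_cert (hS : Saddle c c' w L R H₁ H₂ H₃ H₄ E Q V V' η) (t : ℝ) (ht : t ∈ Icc (-η) η)
    (e : Fin m) : (Q + t • V').1 (c'.lf e) < (Q + t • V').1 (c'.rt e) := by
  have h1 := (hS.cert t ht).len e
  have h2 := hS.wpos (c'.lf e)
  have h3 := hS.wpos (c'.rt e)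
  linarith

lemma lt_zero (hS : Saddle c c' w L R H₁ H₂ H₃ H₄ E Q V V' η) (e : Fin m) :
    Q.1 (c'.lf e) < Q.1 (c'.rt e) := by
  have h := eta_pos hS
  have h1 := lt_of_cert hS 0 ⟨by linarith, by linarith⟩ e
  simp only [fst_add_smul, zero_mul, add_zero] at h1
  exact h1

lemma ends (hS : Saddle c c' w L R H₁ H₂ H₃ H₄ E Q V V' η) :
    c'.rt H₁ = L ∧ c'.lf H₂ = R ∧ c'.rt H₃ = R ∧ c'.lf H₄ = L := by
  have hC := hS.comb
  have h1 := hC.valid'.oka L
  have h2 := hC.valid'.okb L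
  have h3 := hC.valid'.oka R
  have h4 := hC.valid'.okb R
  simp only [Comb.OKa, Comb.OKb, hC.tyL', hC.tyR', hC.aL', hC.bL', hC.aR', hC.bR'] at h1 h2 h3 h4
  exact ⟨h1, h4, h3, h2⟩

/-- `e` is the edge `H_k` with the signs `σ` (of `z - z₀`) and `σ'` (of `x - x₀`). -/
def IsH (H₁ H₂ H₃ H₄ e : Fin m) (σ σ' : ℝ) : Prop :=
  (e = H₁ ∧ σ = -1 ∧ σ' = -1) ∨ (e = H₂ ∧ σ = 1 ∧ σ' = 1) ∨ (e = H₃ ∧ σ = 1 ∧ σ' = -1) ∨
    (e = H₄ ∧ σ = -1 ∧ σ' = 1)

/-- The slope of the line with the signs `σ`, `σ'`. -/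
noncomputable def slp (E : Evt) (σ σ' : ℝ) : ℝ :=
  E.P₁ + (E.P₂ - E.P₁) * ((1 + σ') / 2) + σ * σ' * (E.g / 2)

lemma IsH.signs {e : Fin m} {σ σ' : ℝ} (h : IsH H₁ H₂ H₃ H₄ e σ σ') :
    (σ = -1 ∨ σ = 1) ∧ (σ' = -1 ∨ σ' = 1) := by
  rcases h with ⟨-, h, h'⟩ | ⟨-, h, h'⟩ | ⟨-, h, h'⟩ | ⟨-, h, h'⟩ <;> simp [h, h']

lemma IsH.mem {e : Fin m} {σ σ' : ℝ} (h : IsH H₁ H₂ H₃ H₄ e σ σ') :
    e = H₁ ∨ e = H₂ ∨ e = H₃ ∨ e = H₄ := by
  rcases h with ⟨h, -⟩ | ⟨h, -⟩ | ⟨h, -⟩ | ⟨h, -⟩ <;> simp [h]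

lemma exists_IsH (H₁ H₂ H₃ H₄ : Fin m) (σ σ' : ℝ) (hσ : σ = -1 ∨ σ = 1)
    (hσ' : σ' = -1 ∨ σ' = 1) : ∃ e, IsH H₁ H₂ H₃ H₄ e σ σ' := by
  rcases hσ with h | h <;> rcases hσ' with h' | h'
  · exact ⟨H₁, Or.inl ⟨rfl, h, h'⟩⟩
  · exact ⟨H₄, Or.inr (Or.inr (Or.inr ⟨rfl, h, h'⟩))⟩
  · exact ⟨H₃, Or.inr (Or.inr (Or.inl ⟨rfl, h, h'⟩))⟩
  · exact ⟨H₂, Or.inr (Or.inl ⟨rfl, h, h'⟩)⟩

lemma exists_signs {e : Fin m} (h : e = H₁ ∨ e = H₂ ∨ e = H₃ ∨ e = H₄) :
    ∃ σ σ', IsH H₁ H₂ H₃ H₄ e σ σ' := by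
  rcases h with h | h | h | h
  · exact ⟨-1, -1, Or.inl ⟨h, rfl, rfl⟩⟩
  · exact ⟨1, 1, Or.inr (Or.inl ⟨h, rfl, rfl⟩)⟩
  · exact ⟨1, -1, Or.inr (Or.inr (Or.inl ⟨h, rfl, rfl⟩))⟩
  · exact ⟨-1, 1, Or.inr (Or.inr (Or.inr ⟨h, rfl, rfl⟩))⟩

lemma slp_range (hE : E.Pos) {σ σ' : ℝ} (hσ : σ = -1 ∨ σ = 1) (hσ' : σ' = -1 ∨ σ' = 1) :
    min E.P₁ E.P₂ - E.g / 2 ≤ slp E σ σ' ∧ slp E σ σ' ≤ max E.P₁ E.P₂ + E.g / 2 := by
  have hg := hE.g
  have h1 := min_le_left E.P₁ E.P₂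
  have h2 := min_le_right E.P₁ E.P₂
  have h3 := le_max_left E.P₁ E.P₂
  have h4 := le_max_right E.P₁ E.P₂
  unfold slp
  rcases hσ with rfl | rfl <;> rcases hσ' with rfl | rfl <;> constructor <;> linarith

/-- The points of the edges at the saddle. -/
lemma ept_H (hS : Saddle c c' w L R H₁ H₂ H₃ H₄ E Q V V' η) {e : Fin m} {σ σ' : ℝ}
    (he : IsH H₁ H₂ H₃ H₄ e σ σ') (t : ℝ) (ht : t ∈ Icc (-η) η) (x : ℝ) :
    c'.ept (Q + t • V') V' e x = (x, slp E σ σ', E.z₀ + σ * E.ζ,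
      E.F₀ + slp E σ σ' * (x - E.x₀) + t * (E.z₀ + σ * E.ζ)) := by
  obtain ⟨e1, e2, e3, e4⟩ := ends hS
  rcases he with ⟨rfl, rfl, rfl⟩ | ⟨rfl, rfl, rfl⟩ | ⟨rfl, rfl, rfl⟩ | ⟨rfl, rfl, rfl⟩
  · refine ept_gen c' Q V' e t (lt_zero hS e) (lt_of_cert hS t ht e) hS.d1 L (Or.inr e1.symm)
      _ _ _ _ hS.xL hS.FL hS.xL' ?_ ?_ x
    · rw [hS.FL']; ring
    · rw [hS.p1]; unfold slp; ring
  · refine ept_gen c' Q V' e t (lt_zero hS e) (lt_of_cert hS t ht e) hS.d2 R (Or.inl e2.symm)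
      _ _ _ _ hS.xR hS.FR hS.xR' ?_ ?_ x
    · rw [hS.FR']; ring
    · rw [hS.p2]; unfold slp; ring
  · refine ept_gen c' Q V' e t (lt_zero hS e) (lt_of_cert hS t ht e) hS.d3 R (Or.inr e3.symm)
      _ _ _ _ hS.xR hS.FR hS.xR' ?_ ?_ x
    · rw [hS.FR']; ring
    · rw [hS.p3]; unfold slp; ring
  · refine ept_gen c' Q V' e t (lt_zero hS e) (lt_of_cert hS t ht e) hS.d4 L (Or.inl e4.symm)
      _ _ _ _ hS.xL hS.FL hS.xL' ?_ ?_ x
    · rw [hS.FL']; ring
    · rw [hS.p4]; unfold slp; ring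

/-- The ranges of `x` on the edges at the saddle. -/
lemma rg_H (hS : Saddle c c' w L R H₁ H₂ H₃ H₄ E Q V V' η) {e : Fin m} {σ σ' : ℝ}
    (he : IsH H₁ H₂ H₃ H₄ e σ σ') (t : ℝ) (ht : t ∈ Icc (-η) η) (x : ℝ) :
    (x ∈ c'.rg w (Q + t • V') e → 2 * E.r ≤ σ' * (x - E.x₀)) ∧
    (2 * E.r ≤ σ' * (x - E.x₀) → σ' * (x - E.x₀) ≤ E.v * η + 4 * E.r →
      x ∈ c'.rg w (Q + t • V') e) := by
  obtain ⟨e1, e2, e3, e4⟩ := ends hS
  have hL : (Q + t • V').1 L = E.x₀ := by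
    rw [fst_add_smul, hS.xL, hS.xL']; ring
  have hR : (Q + t • V').1 R = E.x₀ := by
    rw [fst_add_smul, hS.xR, hS.xR']; ring
  unfold Comb.rg
  rcases he with ⟨rfl, rfl, rfl⟩ | ⟨rfl, rfl, rfl⟩ | ⟨rfl, rfl, rfl⟩ | ⟨rfl, rfl, rfl⟩
  · rw [e1, hL, hS.wL]
    have h := hS.len1 t ht
    constructor
    · rintro ⟨h1, h2⟩
      linarith
    · intro h1 h2
      constructor <;> linarith
  · rw [e2, hR, hS.wR]
    have h := hS.len2 t ht
    constructor
    · rintro ⟨h1, h2⟩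
      linarith
    · intro h1 h2
      constructor <;> linarith
  · rw [e3, hR, hS.wR]
    have h := hS.len3 t ht
    constructor
    · rintro ⟨h1, h2⟩
      linarith
    · intro h1 h2
      constructor <;> linarith
  · rw [e4, hL, hS.wL]
    have h := hS.len4 t ht
    constructor
    · rintro ⟨h1, h2⟩
      linarith
    · intro h1 h2
      constructor <;> linarith

/-- The pieces of the passes `L` and `R`. -/
lemma vp_LR (hS : Saddle c c' w L R H₁ H₂ H₃ H₄ E Q V V' η) (sh : Shape) (i : Fin n)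
    (hi : i = L ∨ i = R) (s t : ℝ) (ht : t ∈ Icc (-η) η) (u : ℝ) (hu : |u| ≤ 2) :
    |(c'.vp w (c'.sp sh) s (Q + t • V') V' i u).1 - E.x₀| ≤ 2 * E.r ∧
    min E.P₁ E.P₂ - E.g / 2 ≤ (c'.vp w (c'.sp sh) s (Q + t • V') V' i u).2.1 ∧
    (c'.vp w (c'.sp sh) s (Q + t • V') V' i u).2.1 ≤ max E.P₁ E.P₂ + E.g / 2 ∧
    |(c'.vp w (c'.sp sh) s (Q + t • V') V' i u).2.2.1 - E.z₀| ≤ E.ζ := by
  obtain ⟨e1, e2, e3, e4⟩ := ends hS
  have hr := hS.pos.r
  have hg := hS.pos.g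
  have hv := hS.pos.v
  have hζ : 0 < E.ζ := by
    unfold Evt.ζ
    positivity
  have hτ := sh.τ_mem u
  have h1 := min_le_left E.P₁ E.P₂
  have h2 := min_le_right E.P₁ E.P₂
  have h3 := le_max_left E.P₁ E.P₂
  have h4 := le_max_right E.P₁ E.P₂
  have habs : |E.r * u| ≤ 2 * E.r := by
    rw [abs_mul, abs_of_pos hr]
    nlinarith only [hu, hr]
  rcases hi with rfl | rfl
  · obtain ⟨hx, hp, hz⟩ := vp_gen c' w sh s Q V' t i H₁ H₄ hS.comb.tyL' hS.comb.aL' hS.comb.bL'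
      (lt_zero hS _) (lt_zero hS _) (lt_of_cert hS t ht _) (lt_of_cert hS t ht _) hS.d1 hS.d4
      (Or.inr e1.symm) (Or.inl e4.symm) E.x₀ _ _ _ E.r hS.xL hS.xL' hS.FL' hS.p1 hS.p4 hS.wL u
    rw [hx, hp, hz]
    refine ⟨?_, ?_, ?_, ?_⟩
    · rw [add_sub_cancel_left]; exact habs
    · nlinarith only [hg, hτ, h2, h1]
    · nlinarith only [hg, hτ, h4, h3]
    · rw [show E.z₀ - E.ζ - E.z₀ = -E.ζ by ring, abs_neg, abs_of_pos hζ]
  · obtain ⟨hx, hp, hz⟩ := vp_gen c' w sh s Q V' t i H₃ H₂ hS.comb.tyR' hS.comb.aR' hS.comb.bR'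
      (lt_zero hS _) (lt_zero hS _) (lt_of_cert hS t ht _) (lt_of_cert hS t ht _) hS.d3 hS.d2
      (Or.inr e3.symm) (Or.inl e2.symm) E.x₀ _ _ _ E.r hS.xR hS.xR' hS.FR' hS.p3 hS.p2 hS.wR u
    rw [hx, hp, hz]
    refine ⟨?_, ?_, ?_, ?_⟩
    · rw [add_sub_cancel_left]; exact habs
    · nlinarith only [hg, hτ, h2, h1]
    · nlinarith only [hg, hτ, h4, h3]
    · rw [show E.z₀ + E.ζ - E.z₀ = E.ζ by ring, abs_of_pos hζ]

/-- The lines of the edges at the saddle lie in the local surface, away from the critical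
point. -/
lemma H_mem_set (hS : Saddle c c' w L R H₁ H₂ H₃ H₄ E Q V V' η) (sh : Shape) {e : Fin m}
    {σ σ' : ℝ} (he : IsH H₁ H₂ H₃ H₄ e σ σ') (s : ℝ) (hs : s ∈ Ioo (E.s₀ - η) (E.s₀ + η))
    (x : ℝ) (hx : E.v * η + 3 / 2 * E.r < σ' * (x - E.x₀)) :
    ((s, c'.ept (Q + (s - E.s₀) • V') V' e x) : E5) ∈ E.set sh 1 1 := by
  have hr := hS.pos.r
  have hv := hS.pos.v
  have hη := eta_pos hS
  have hvη : 0 < E.v * η := mul_pos hv hη
  obtain ⟨hσ, hσ'⟩ := he.signs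
  have hσ2 : σ * σ = 1 := by
    rcases hσ with rfl | rfl <;> norm_num
  have hu0 : 1 ≤ (E.v * (s - E.s₀) + σ' * (x - E.x₀)) / E.r := by
    rw [le_div_iff₀ hr]
    have h1 : -(E.v * η) < E.v * (s - E.s₀) := by
      have := hs.1
      nlinarith only [hv, this]
    linarith
  refine ⟨(σ * ((E.v * (s - E.s₀) + σ' * (x - E.x₀)) / E.r), x), ?_⟩
  rw [pt_line E sh hS.pos σ σ' _ x s ?_ ?_ ?_, ept_H hS he _ (mem_Icc_of_mem hs) x]
  · rfl
  · rcases hσ with rfl | rfl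
    · left
      refine ⟨rfl, ?_⟩
      linarith
    · right
      refine ⟨rfl, ?_⟩
      linarith
  · rcases hσ' with rfl | rfl
    · left
      refine ⟨rfl, ?_⟩
      linarith
    · right
      refine ⟨rfl, ?_⟩
      linarith
  · have h1 : σ * (σ * ((E.v * (s - E.s₀) + σ' * (x - E.x₀)) / E.r)) =
        (E.v * (s - E.s₀) + σ' * (x - E.x₀)) / E.r := by
      rw [← mul_assoc, hσ2, one_mul]
    rw [h1]
    field_simp
    ring

/-- The local surface away from the critical point consists of the lines of the edges. -/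
lemma set_mem_H (hS : Saddle c c' w L R H₁ H₂ H₃ H₄ E Q V V' η) (sh : Shape) (q : E5)
    (hq : q ∈ E.set sh 1 1) (hs : q.1 ∈ Ioo (E.s₀ - η) (E.s₀ + η))
    (hx : E.v * η + 3 / 2 * E.r < |q.2.1 - E.x₀|) :
    ∃ e σ σ', IsH H₁ H₂ H₃ H₄ e σ σ' ∧ σ' * (q.2.1 - E.x₀) = |q.2.1 - E.x₀| ∧
      q.2 = c'.ept (Q + (q.1 - E.s₀) • V') V' e q.2.1 := by
  obtain ⟨⟨u, x⟩, rfl⟩ := hq
  have hr := hS.pos.r
  have hv := hS.pos.v
  have hη := eta_pos hS
  have hvη : 0 < E.v * η := mul_pos hv hη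
  have hx1 : (E.pt sh 1 1 (u, x)).2.1 = x := rfl
  rw [hx1] at hx ⊢
  obtain ⟨σ', hσ', hσx⟩ : ∃ σ' : ℝ, (σ' = -1 ∨ σ' = 1) ∧ σ' * (x - E.x₀) = |x - E.x₀| := by
    rcases le_total 0 (x - E.x₀) with h | h
    · exact ⟨1, Or.inr rfl, by rw [one_mul, abs_of_nonneg h]⟩
    · exact ⟨-1, Or.inl rfl, by rw [abs_of_nonpos h]; ring⟩
  set U := (x - E.x₀) / E.r with hU
  have hUx : E.r * U = x - E.x₀ := by
    rw [hU]
    field_simp
  have hPsi : E.r * sh.Psi U = |x - E.x₀| := by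
    unfold Shape.Psi
    rcases hσ' with rfl | rfl
    · have hU2 : U ≤ -1 := by
        rw [hU, div_le_iff₀ hr]
        linarith
      rw [sh.ΘP_low U hU2, ← hσx, ← hUx]
      ring
    · have hU2 : 1 ≤ U := by
        rw [hU, le_div_iff₀ hr]
        linarith
      rw [sh.ΘP_high U hU2, ← hσx, ← hUx]
      ring
  have hs1 : (E.pt sh 1 1 (u, x)).1 =
      E.s₀ + 1 * (-(E.r / E.v) * sh.ξ u - 1 * (E.r / E.v) * sh.Psi U) := rfl
  have hξ : E.v * ((E.pt sh 1 1 (u, x)).1 - E.s₀) = -(E.r * sh.ξ u) - |x - E.x₀| := by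
    rw [hs1, ← hPsi]
    field_simp
    ring
  have hξ2 : E.r * 1 < -(E.r * sh.ξ u) := by
    have h1 : -(E.v * η) < E.v * ((E.pt sh 1 1 (u, x)).1 - E.s₀) := by
      have := hs.1
      nlinarith only [hv, this]
    linarith only [hx, hr, hξ, h1]
  have hξ3 : sh.ξ u < -1 := by
    by_contra hcon
    push Not at hcon
    nlinarith only [hξ2, hr, hcon]
  have hu : 1 < |u| := by
    by_contra hcon
    push Not at hcon
    have := (abs_le.1 (sh.ξ_in u hcon)).1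
    linarith only [hξ3, this]
  have hξu : sh.ξ u = -|u| := sh.ξ_out u hu.le
  obtain ⟨σ, hσ, hσu⟩ : ∃ σ : ℝ, ((σ = -1 ∧ u ≤ -1) ∨ (σ = 1 ∧ 1 ≤ u)) ∧ σ * u = |u| := by
    rcases le_total 0 u with h | h
    · rw [abs_of_nonneg h] at hu ⊢
      exact ⟨1, Or.inr ⟨rfl, hu.le⟩, one_mul u⟩
    · rw [abs_of_nonpos h] at hu ⊢
      exact ⟨-1, Or.inl ⟨rfl, by linarith only [hu]⟩, by ring⟩
  have hσ1 : σ = -1 ∨ σ = 1 := by
    rcases hσ with ⟨h, -⟩ | ⟨h, -⟩
    · exact Or.inl h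
    · exact Or.inr h
  obtain ⟨e, he⟩ := exists_IsH H₁ H₂ H₃ H₄ σ σ' hσ1 hσ'
  refine ⟨e, σ, σ', he, hσx, ?_⟩
  have hline := pt_line E sh hS.pos σ σ' u x (E.pt sh 1 1 (u, x)).1 hσ ?_ ?_
  · rw [ept_H hS he _ (mem_Icc_of_mem hs) x]
    have h2 := congrArg Prod.snd hline
    exact h2
  · rcases hσ' with rfl | rfl
    · left
      refine ⟨rfl, ?_⟩
      linarith
    · right
      refine ⟨rfl, ?_⟩
      linarith
  · have h3 : E.v * ((E.pt sh 1 1 (u, x)).1 - E.s₀) = E.r * (σ * u) - σ' * (x - E.x₀) := by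
      rw [hξ, hξu, hσu, hσx]
      ring
    have h4 : (E.pt sh 1 1 (u, x)).1 - E.s₀ = (E.r * (σ * u) - σ' * (x - E.x₀)) / E.v := by
      rw [← h3]
      field_simp
    have h5 : (E.pt sh 1 1 (u, x)).1 = E.s₀ + ((E.pt sh 1 1 (u, x)).1 - E.s₀) := by ring
    rw [h5, h4]
    ring

/-- The part of the surface which is not changed. -/
def Oth (c : Comb m n) (w : Fin n → ℝ) (π : Fin n → Prof) (q : ℝ → St n) (L R : Fin n)
    (H₁ H₂ H₃ H₄ : Fin m) : Set E5 :=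
  {r | (∃ e ∈ {e | e ≠ H₁ ∧ e ≠ H₂ ∧ e ≠ H₃ ∧ e ≠ H₄}, ∃ x ∈ c.rg w (q r.1) e,
      r.2 = c.ept (q r.1) (deriv q r.1) e x) ∨
    ∃ i ∈ {i | i ≠ L ∧ i ≠ R}, ∃ u, |u| ≤ 2 ∧ r.2 = c.vp w π r.1 (q r.1) (deriv q r.1) i u}

/-- The other pieces do not meet the box. -/
lemma oth_box (hBXC : Stmt_BXC) (hPST : Stmt_PST)
    (hS : Saddle c c' w L R H₁ H₂ H₃ H₄ E Q V V' η) (sh : Shape) (r : E5)
    (hrJ : r.1 ∈ Ioo (E.s₀ - η) (E.s₀ + η))
    (hr : r ∈ Oth c' w (c'.sp sh) (lin Q V' E.s₀) L R H₁ H₂ H₃ H₄)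
    (hx : |r.2.1 - E.x₀| ≤ E.v * η + 4 * E.r) (hp1 : min E.P₁ E.P₂ - E.g / 2 ≤ r.2.2.1)
    (hp2 : r.2.2.1 ≤ max E.P₁ E.P₂ + E.g / 2) : E.ζ < |r.2.2.2.1 - E.z₀| := by
  have ht := mem_Icc_of_mem hrJ
  have hbd : ∀ i, ProfBd (c'.ty i) r.1 (c'.sp sh i) := fun i =>
    (hPST sh {r.1} (c'.ty i) (fun _ => 1) (fun _ _ _ => one_ne_zero)).bd r.1 rfl
  obtain ⟨hbe, hbv⟩ := hBXC c' w (c'.sp sh) r.1 E (E.v * η + 4 * E.r) (Q + (r.1 - E.s₀) • V') V'
    hS.comb.valid' hS.wpos hbd (fun e => lt_of_cert hS _ ht e)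
  rcases hr with ⟨e, ⟨he1, he2, he3, he4⟩, x, hxrg, h⟩ | ⟨i, ⟨hiL, hiR⟩, u, hu, h⟩
  · rw [deriv_lin] at h
    have h1 := hbe e (hS.boxe _ ht e he1 he2 he3 he4) x hxrg
    have h' : r.2 = c'.ept (Q + (r.1 - E.s₀) • V') V' e x := h
    rw [h'] at hx hp1 hp2 ⊢
    exact h1 hx hp1 hp2
  · rw [deriv_lin] at h
    have h1 := hbv i (hS.boxv _ ht i hiL hiR) u hu
    have h' : r.2 = c'.vp w (c'.sp sh) r.1 (Q + (r.1 - E.s₀) • V') V' i u := h
    rw [h'] at hx hp1 hp2 ⊢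
    exact h1 hx hp1 hp2

/-- The moving polygon `c'` is a phase. -/
lemma isPhase (hCER : Stmt_CER) (hPST : Stmt_PST)
    (hS : Saddle c c' w L R H₁ H₂ H₃ H₄ E Q V V' η) (sh : Shape) :
    IsPhase c' w (Ioo (E.s₀ - η) (E.s₀ + η)) (c'.sp sh) (lin Q V' E.s₀) := by
  have hprof : ∀ i, ProfOK (Ioo (E.s₀ - η) (E.s₀ + η)) (c'.ty i)
      (fun s => c'.dl (lin Q V' E.s₀ s) i) (c'.sp sh i) := fun i =>
    hPST sh _ (c'.ty i) _ (fun s hs h => (hS.cert _ (mem_Icc_of_mem hs)).tip i h)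
  refine ⟨hS.comb.valid', hS.wpos, isOpen_Ioo, ordConnected_Ioo, (contDiff_lin _ _ _).contDiffOn,
    hprof, ?_⟩
  intro s hs
  rw [deriv_lin]
  exact hCER c' w (c'.sp sh) s _ V' hS.comb.valid' hS.wpos (fun i => (hprof i).bd s hs)
    (hS.cert _ (mem_Icc_of_mem hs))

end

end SDG

open _root_.LCA.SDG in
/-- The surface near a saddle is good. -/
theorem t_SDG (hRPL : Stmt_RPL) (hBXC : Stmt_BXC) (hECH : Stmt_ECH) (hCER : Stmt_CER)
    (hPHG : Stmt_PHG) (hPST : Stmt_PST) (hPCL : Stmt_PCL) (hPIN : Stmt_PIN)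
    (hVLN : Stmt_VLN) : Stmt_SDG := by
  have _ : Stmt_VLN := hVLN
  have _ : Stmt_PIN := @hPIN
  intro m n sh c c' w L R H₁ H₂ H₃ H₄ E Q V V' η hS
  have hr := hS.pos.r
  have hv := hS.pos.v
  have hg := hS.pos.g
  have hη := eta_pos hS
  have hsmall := hS.small
  have hvη : 0 < E.v * η := mul_pos hv hη
  have hζ : 0 < E.ζ := by
    unfold Evt.ζ
    positivity
  have hph := isPhase hCER hPST hS sh
  obtain ⟨hcl, hbd⟩ := hPCL c' w _ _ _ hph {e | e ≠ H₁ ∧ e ≠ H₂ ∧ e ≠ H₃ ∧ e ≠ H₄}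
    {i | i ≠ L ∧ i ≠ R}
  have hGA := (hPHG c' w _ _ _ hph).1
  obtain ⟨-, hNcl, hNch, hNinj, hNbd⟩ := hECH E sh 1 1 hS.pos (by norm_num) (by norm_num)
  set J := Ioo (E.s₀ - η) (E.s₀ + η) with hJdef
  have hJ : IsOpen J := isOpen_Ioo
  set O : Set E5 := Oth c' w (c'.sp sh) (lin Q V' E.s₀) L R H₁ H₂ H₃ H₄ with hO
  change ∀ r ∈ closure O, r.1 ∈ J → r ∈ O at hcl
  change ∀ K ⊆ J, IsCompact K → ∃ M : ℝ, ∀ r ∈ O, r.1 ∈ K → ‖r.2‖ ≤ M at hbd
  set A : Set E5 := c'.surf w (c'.sp sh) (lin Q V' E.s₀) with hA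
  set N : Set E5 := E.set sh 1 1 with hN
  set ρ := E.v * η + 2 * E.r with hρ
  have hbox : ∀ r ∈ O, r.1 ∈ J → |r.2.1 - E.x₀| ≤ E.v * η + 4 * E.r →
      min E.P₁ E.P₂ - E.g / 2 ≤ r.2.2.1 → r.2.2.1 ≤ max E.P₁ E.P₂ + E.g / 2 →
      E.ζ < |r.2.2.2.1 - E.z₀| := fun r hr hrJ h1 h2 h3 =>
    oth_box hBXC hPST hS sh r hrJ hr h1 h2 h3
  -- points of `A` with the same projection are equal
  have hAinj : ∀ q ∈ A, ∀ q' ∈ A, q.1 ∈ J → pr4 q = pr4 q' → q = q' := by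
    intro q hq q' hq' hqJ h
    have h1 : q.1 = q'.1 := congrArg (fun r => r.1) h
    have h2 : q.2.1 = q'.2.1 := congrArg (fun r => r.2.1) h
    have h3 : q.2.2.1 = q'.2.2.1 := congrArg (fun r => r.2.2.1) h
    have h4 : q.2.2.2.1 = q'.2.2.2.1 := congrArg (fun r => r.2.2.2) h
    exact hGA.inj q hq q' hq' hqJ h1 h2 h3 h4
  have hOA : O ⊆ A := by
    rintro r (⟨e, -, x, hx, h⟩ | ⟨i, -, u, hu, h⟩)
    · exact Or.inl ⟨e, x, hx, h⟩
    · exact Or.inr ⟨i, u, hu, h⟩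
  -- the local surface over the tube is in the box
  have hNbox : ∀ q ∈ N, q.1 ∈ J → |q.2.1 - E.x₀| < ρ → pr4 q ∉ pr4 '' O := by
    rintro q ⟨a, rfl⟩ hqJ hx ⟨q', hq', h⟩
    have h1 : q'.1 = (E.pt sh 1 1 a).1 := congrArg (fun r => r.1) h
    have h2 : q'.2.1 = (E.pt sh 1 1 a).2.1 := congrArg (fun r => r.2.1) h
    have h3 : q'.2.2.1 = (E.pt sh 1 1 a).2.2.1 := congrArg (fun r => r.2.2.1) h
    have h4 : q'.2.2.2.1 = (E.pt sh 1 1 a).2.2.2.1 := congrArg (fun r => r.2.2.2) h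
    obtain ⟨p1, p2, p3⟩ := pt_range E sh hS.pos a
    have h5 := hbox q' hq' (h1 ▸ hqJ) (by rw [h2]; linarith) (by rw [h3]; exact p1)
      (by rw [h3]; exact p2)
    rw [h4] at h5
    linarith
  set B : Set (ℝ × ℝ × ℝ × ℝ) := {r | |r.2.1 - E.x₀| < ρ ∧ r ∉ pr4 '' O} with hB
  set C : Set (ℝ × ℝ × ℝ × ℝ) := {r | r.1 ∈ J ∧ |r.2.1 - E.x₀| ≤ E.v * η + 3 / 2 * E.r ∧
    min E.P₁ E.P₂ - E.g / 2 ≤ r.2.2.1 ∧ r.2.2.1 ≤ max E.P₁ E.P₂ + E.g / 2 ∧
    |r.2.2.2 - E.z₀| ≤ E.ζ} with hC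
  have hc1 : Continuous fun r : ℝ × ℝ × ℝ × ℝ => |r.2.1 - E.x₀| := by fun_prop
  have hc2 : Continuous fun r : ℝ × ℝ × ℝ × ℝ => r.2.2.1 := by fun_prop
  have hc3 : Continuous fun r : ℝ × ℝ × ℝ × ℝ => |r.2.2.2 - E.z₀| := by fun_prop
  have hmain : Good J {q | (pr4 q ∉ B ∧ q ∈ A) ∨ (pr4 q ∈ B ∧ q ∈ N)} := by
    apply hRPL J A N B C hJ hGA hNcl (fun q hq _ => hNch q hq)
    · rintro q ⟨a, rfl⟩ q' ⟨b, rfl⟩ - h
      rw [hNinj a b h]
    · -- `B` is open over `J`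
      rintro r ⟨hr1, hr2⟩ hrJ
      have h1 : {r' : ℝ × ℝ × ℝ × ℝ | |r'.2.1 - E.x₀| < ρ} ∈ 𝓝 r :=
        (isOpen_lt hc1 continuous_const).mem_nhds hr1
      have h2 : (closure (pr4 '' O))ᶜ ∈ 𝓝 r := by
        apply isClosed_closure.isOpen_compl.mem_nhds
        intro hcon
        exact hr2 (closed_image J hJ O hcl hbd r hcon hrJ)
      filter_upwards [h1, h2] with r' hr'1 hr'2
      exact ⟨hr'1, fun hcon => hr'2 (subset_closure hcon)⟩
    · -- `C` is closed over `J`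
      intro r hr hrJ
      refine ⟨hrJ, ?_⟩
      have hclosed : IsClosed {r : ℝ × ℝ × ℝ × ℝ | |r.2.1 - E.x₀| ≤ E.v * η + 3 / 2 * E.r ∧
          min E.P₁ E.P₂ - E.g / 2 ≤ r.2.2.1 ∧ r.2.2.1 ≤ max E.P₁ E.P₂ + E.g / 2 ∧
          |r.2.2.2 - E.z₀| ≤ E.ζ} := by
        simp only [Set.ofPred_and]
        exact (isClosed_le hc1 continuous_const).inter ((isClosed_le continuous_const hc2).inter
          ((isClosed_le hc2 continuous_const).inter (isClosed_le hc3 continuous_const)))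
      have h1 : closure C ⊆ {r : ℝ × ℝ × ℝ × ℝ | |r.2.1 - E.x₀| ≤ E.v * η + 3 / 2 * E.r ∧
          min E.P₁ E.P₂ - E.g / 2 ≤ r.2.2.1 ∧ r.2.2.1 ≤ max E.P₁ E.P₂ + E.g / 2 ∧
          |r.2.2.2 - E.z₀| ≤ E.ζ} := closure_minimal (fun r hr => hr.2) hclosed
      exact h1 hr
    · -- `C ⊆ B`
      rintro r ⟨hrJ, h1, h2, h3, h4⟩
      refine ⟨by linarith, ?_⟩
      rintro ⟨q', hq', rfl⟩
      have h5 := hbox q' hq' hrJ (by
        have : |q'.2.1 - E.x₀| ≤ E.v * η + 3 / 2 * E.r := h1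
        linarith) h2 h3
      have h6 : |q'.2.2.2.1 - E.z₀| ≤ E.ζ := h4
      linarith only [h5, h6]
    · -- boundedness
      intro K hKJ hK
      obtain ⟨M₀, hM₀⟩ := hK.isBounded.exists_norm_le
      obtain ⟨M', hM'⟩ := hNbd (max M₀ (|E.x₀| + ρ))
      refine ⟨M', ?_⟩
      rintro q hq hqK ⟨hqB, -⟩
      apply hM' q hq
      · exact (hM₀ q.1 hqK).trans (le_max_left _ _)
      · have h1 : |q.2.1| ≤ |E.x₀| + |q.2.1 - E.x₀| := by
          calc |q.2.1| = |E.x₀ + (q.2.1 - E.x₀)| := by ring_nf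
            _ ≤ |E.x₀| + |q.2.1 - E.x₀| := abs_add_le _ _
        have h2 : |q.2.1 - E.x₀| < ρ := hqB
        exact le_trans (by linarith) (le_max_right _ _)
    · -- agreement outside of `C`
      rintro q hqJ ⟨hqB, hqO⟩ hqC
      have hqB' : |q.2.1 - E.x₀| < ρ := hqB
      have ht := mem_Icc_of_mem hqJ
      constructor
      · intro hqA
        rcases hqA with ⟨e, x, hx, h⟩ | ⟨i, u, hu, h⟩
        · by_cases he : e = H₁ ∨ e = H₂ ∨ e = H₃ ∨ e = H₄
          · obtain ⟨σ, σ', hσ⟩ := exists_signs he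
            obtain ⟨hs1, hs2⟩ := hσ.signs
            rw [deriv_lin] at h
            have h' : q.2 = c'.ept (Q + (q.1 - E.s₀) • V') V' e x := h
            have hx2 := (rg_H hS hσ _ ht x).1 hx
            have habs : σ' * (x - E.x₀) = |x - E.x₀| := by
              rcases hs2 with rfl | rfl
              · rw [abs_of_nonpos (by linarith)]; ring
              · rw [abs_of_nonneg (by linarith)]; ring
            have hept := ept_H hS hσ _ ht x
            have hqx : q.2.1 = x := by rw [h', hept]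
            have hfar : E.v * η + 3 / 2 * E.r < |q.2.1 - E.x₀| := by
              by_contra hcon
              push Not at hcon
              apply hqC
              refine ⟨hqJ, hcon, ?_, ?_, ?_⟩
              · change _ ≤ q.2.2.1
                rw [h', hept]
                exact (slp_range hS.pos hs1 hs2).1
              · change q.2.2.1 ≤ _
                rw [h', hept]
                exact (slp_range hS.pos hs1 hs2).2
              · change |q.2.2.2.1 - E.z₀| ≤ E.ζ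
                rw [h', hept]
                simp only [add_sub_cancel_left]
                rw [abs_mul, abs_of_pos hζ]
                rcases hs1 with rfl | rfl <;> simp
            have hmem := H_mem_set hS sh hσ q.1 hqJ x (by rw [habs, ← hqx]; exact hfar)
            have hq : q = (q.1, c'.ept (Q + (q.1 - E.s₀) • V') V' e x) := Prod.ext rfl h'
            rw [hq]
            exact hmem
          · exfalso
            apply hqO
            push Not at he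
            exact ⟨q, Or.inl ⟨e, he, x, hx, h⟩, rfl⟩
        · by_cases hi : i = L ∨ i = R
          · exfalso
            rw [deriv_lin] at h
            have h' : q.2 = c'.vp w (c'.sp sh) q.1 (Q + (q.1 - E.s₀) • V') V' i u := h
            obtain ⟨h1, h2, h3, h4⟩ := vp_LR hS sh i hi q.1 _ ht u hu
            rw [← h'] at h1 h2 h3 h4
            apply hqC
            refine ⟨hqJ, ?_, h2, h3, h4⟩
            change |q.2.1 - E.x₀| ≤ _
            linarith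
          · exfalso
            apply hqO
            push Not at hi
            exact ⟨q, Or.inr ⟨i, hi, u, hu, h⟩, rfl⟩
      · intro hqN
        have hfar : E.v * η + 3 / 2 * E.r < |q.2.1 - E.x₀| := by
          by_contra hcon
          push Not at hcon
          apply hqC
          obtain ⟨a, ha⟩ := hqN
          obtain ⟨p1, p2, p3⟩ := pt_range E sh hS.pos a
          rw [ha] at p1 p2 p3
          exact ⟨hqJ, hcon, p1, p2, p3⟩
        obtain ⟨e, σ, σ', hσ, habs, h⟩ := set_mem_H hS sh q hqN hqJ hfar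
        refine Or.inl ⟨e, q.2.1, ?_, ?_⟩
        · apply (rg_H hS hσ _ ht q.2.1).2
          · rw [habs]; linarith
          · rw [habs]; linarith
        · rw [deriv_lin]
          exact h
  -- the set of the statement
  refine good_congr J hJ _ _ ?_ hmain
  intro q hqJ
  have ht := mem_Icc_of_mem hqJ
  constructor
  · rintro (⟨hqB, hqA⟩ | ⟨hqB, hqN⟩)
    · by_cases hqO : pr4 q ∈ pr4 '' O
      · obtain ⟨q', hq', h⟩ := hqO
        have h1 : q'.1 = q.1 := congrArg (fun r => r.1) h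
        have h2 : q' = q := hAinj q' (hOA hq') q hqA (h1 ▸ hqJ) h
        rw [h2] at hq'
        rcases hq' with ⟨e, ⟨he1, he2, he3, he4⟩, x, hx, h⟩ | ⟨i, ⟨hi1, hi2⟩, u, hu, h⟩
        · exact Or.inl ⟨e, he1, he2, he3, he4, x, hx, h⟩
        · exact Or.inr (Or.inl ⟨i, hi1, hi2, u, hu, h⟩)
      · have hfar : ρ ≤ |q.2.1 - E.x₀| := by
          by_contra hcon
          push Not at hcon
          exact hqB ⟨hcon, hqO⟩
        rcases hqA with ⟨e, x, hx, h⟩ | ⟨i, u, hu, h⟩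
        · by_cases he : e = H₁ ∨ e = H₂ ∨ e = H₃ ∨ e = H₄
          · have hqx : q.2.1 = x := by rw [h]; rfl
            exact Or.inr (Or.inr (Or.inl ⟨e, he, x, hx, hqx ▸ hfar, h⟩))
          · exfalso
            apply hqO
            push Not at he
            exact ⟨q, Or.inl ⟨e, he, x, hx, h⟩, rfl⟩
        · by_cases hi : i = L ∨ i = R
          · exfalso
            rw [deriv_lin] at h
            have h' : q.2 = c'.vp w (c'.sp sh) q.1 (Q + (q.1 - E.s₀) • V') V' i u := h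
            obtain ⟨h1, -, -, -⟩ := vp_LR hS sh i hi q.1 _ ht u hu
            rw [← h'] at h1
            linarith
          · exfalso
            apply hqO
            push Not at hi
            exact ⟨q, Or.inr ⟨i, hi, u, hu, h⟩, rfl⟩
    · exact Or.inr (Or.inr (Or.inr ⟨hqN, hqB.1⟩))
  · rintro (⟨e, he1, he2, he3, he4, x, hx, h⟩ | ⟨i, hi1, hi2, u, hu, h⟩ | ⟨e, he, x, hx, hfar, h⟩ |
      ⟨hqN, hx⟩)
    · refine Or.inl ⟨fun hcon => hcon.2 ⟨q, Or.inl ⟨e, ⟨he1, he2, he3, he4⟩, x, hx, h⟩, rfl⟩,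
        Or.inl ⟨e, x, hx, h⟩⟩
    · refine Or.inl ⟨fun hcon => hcon.2 ⟨q, Or.inr ⟨i, ⟨hi1, hi2⟩, u, hu, h⟩, rfl⟩,
        Or.inr ⟨i, u, hu, h⟩⟩
    · have hqx : q.2.1 = x := by rw [h]; rfl
      refine Or.inl ⟨fun hcon => ?_, Or.inl ⟨e, x, hx, h⟩⟩
      have h1 : |q.2.1 - E.x₀| < ρ := hcon.1
      rw [hqx] at h1
      linarith
    · exact Or.inr ⟨⟨hx, hNbox q hqN hqJ hx⟩, hqN⟩

end LCA


end

section

/-!
# SDM: the reversed saddle transition
-/

namespace LCA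

open Set Filter
open scoped ContDiff Topology

namespace SDM

variable {m n : ℕ}

/-- The path of the moving polygon does not depend on the reference time. -/
theorem lin_lin (Q V : St n) (s₀ t : ℝ) : lin (lin Q V s₀ t) V t = lin Q V s₀ := by
  funext s
  unfold lin
  rw [add_assoc, ← add_smul]
  congr 2
  ring

/-- The reversed path. -/
theorem lin_rev (Q V : St n) (s₀ : ℝ) : (fun s => lin Q V s₀ (2 * s₀ - s)) = lin Q (-V) s₀ := by
  funext s
  show Q + (2 * s₀ - s - s₀) • V = Q + (s - s₀) • (-V)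
  rw [smul_neg, ← neg_smul]
  congr 2
  ring

/-- Reversal of the agreement of a surface with a moving polygon. -/
theorem agree_rev (hREV : Stmt_REV) (sh : Shape) (c : Comb m n) (w : Fin n → ℝ) (Q V : St n)
    (s₀ a b a' b' t : ℝ) (A : Set E5) (ha : a ≤ 2 * s₀ - b') (hb : 2 * s₀ - a' ≤ b)
    (h : Agree (Ioo a b) A (c.surf w (c.sp sh) (lin Q V s₀))) :
    Agree (Ioo a' b') (rev s₀ ⁻¹' A) (c.surf w (c.sp sh) (lin (lin Q (-V) s₀ t) (-V) t)) := by
  have h1 : rev s₀ ⁻¹' (c.surf w (c.sp sh) (lin Q V s₀)) =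
      c.surf w (c.sp sh) (lin (lin Q (-V) s₀ t) (-V) t) := by
    rw [lin_lin, ← lin_rev]
    exact (hREV s₀ univ univ isOpen_univ).2.2.2 sh m n c w (lin Q V s₀)
  intro q hq
  rw [← h1]
  refine h (rev s₀ q) ?_
  show 2 * s₀ - q.1 ∈ Ioo a b
  exact ⟨by linarith [hq.2], by linarith [hq.1]⟩

end SDM

/-- SDM: two passes become two tips. -/
theorem t_SDM (hSDG : Stmt_SDG) (hSDU : Stmt_SDU) (hSDA : Stmt_SDA) (hSDB : Stmt_SDB)
    (hATR : Stmt_ATR) (hREV : Stmt_REV) (hRST : Stmt_RST) : Stmt_SDM := by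
  intro m n K sh c c' w L R H₁ H₂ H₃ H₄ E Q V V' η t t' hS ht1 ht2 ht3 ht4 h0 hAt
  have hG := hSDG sh c c' w L R H₁ H₂ H₃ H₄ E Q V V' η hS
  have hU := (hSDU sh c c' w L R H₁ H₂ H₃ H₄ E Q V V' η hS).2
  have hA := hSDA sh c c' w L R H₁ H₂ H₃ H₄ E Q V V' η hS
  have hB := hSDB sh c c' w L R H₁ H₂ H₃ H₄ E Q V V' η hS
  have hrv : 0 < 8 * E.r / E.v := by
    have h1 := hS.pos.r
    have h2 := hS.pos.v
    positivity
  obtain ⟨ε, hε, h1, h2, h3, h4⟩ : ∃ ε : ℝ, 0 < ε ∧ E.s₀ - η ≤ t - ε ∧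
      t + ε ≤ E.s₀ - 8 * E.r / E.v ∧ E.s₀ + 8 * E.r / E.v ≤ t' - ε ∧ t' + ε ≤ E.s₀ + η := by
    refine ⟨min (min (t - (E.s₀ - η)) (E.s₀ - 8 * E.r / E.v - t))
      (min (t' - (E.s₀ + 8 * E.r / E.v)) (E.s₀ + η - t')), ?_, ?_, ?_, ?_, ?_⟩
    · exact lt_min (lt_min (by linarith) (by linarith)) (lt_min (by linarith) (by linarith))
    · have := (min_le_left (min (t - (E.s₀ - η)) (E.s₀ - 8 * E.r / E.v - t))
        (min (t' - (E.s₀ + 8 * E.r / E.v)) (E.s₀ + η - t'))).trans (min_le_left _ _)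
      linarith
    · have := (min_le_left (min (t - (E.s₀ - η)) (E.s₀ - 8 * E.r / E.v - t))
        (min (t' - (E.s₀ + 8 * E.r / E.v)) (E.s₀ + η - t'))).trans (min_le_right _ _)
      linarith
    · have := (min_le_right (min (t - (E.s₀ - η)) (E.s₀ - 8 * E.r / E.v - t))
        (min (t' - (E.s₀ + 8 * E.r / E.v)) (E.s₀ + η - t'))).trans (min_le_left _ _)
      linarith
    · have := (min_le_right (min (t - (E.s₀ - η)) (E.s₀ - 8 * E.r / E.v - t))
        (min (t' - (E.s₀ + 8 * E.r / E.v)) (E.s₀ + η - t'))).trans (min_le_right _ _)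
      linarith
  obtain ⟨r1, -, r3, -⟩ := hREV E.s₀ (Ioo (E.s₀ - η) (E.s₀ + η))
    (c'.sad w (c'.sp sh) (lin Q V' E.s₀) L R H₁ H₂ H₃ H₄ E sh (E.v * η + 2 * E.r)) isOpen_Ioo
  have hsub : Ioo (t - ε) (t' + ε) ⊆
      (fun s => 2 * E.s₀ - s) ⁻¹' (Ioo (E.s₀ - η) (E.s₀ + η)) := by
    intro s hs
    show 2 * E.s₀ - s ∈ Ioo (E.s₀ - η) (E.s₀ + η)
    exact ⟨by linarith [hs.2], by linarith [hs.1]⟩
  refine hATR K sh c' w (lin Q (-V') E.s₀ t) (-V') t c w (lin Q (-V) E.s₀ t') (-V) t' ε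
    (rev E.s₀ ⁻¹' (c'.sad w (c'.sp sh) (lin Q V' E.s₀) L R H₁ H₂ H₃ H₄ E sh
      (E.v * η + 2 * E.r))) (by linarith) hε hAt ?_ ?_ ?_ ?_
  · exact hRST _ _ _ isOpen_Ioo hsub (r1 hG)
  · intro q hq hq1 a ha haq
    exact r3 hU q hq (hsub hq1) a (hsub ha) haq
  · exact SDM.agree_rev hREV sh c' w Q V' E.s₀ _ _ _ _ t _ (by linarith) (by linarith) hA
  · exact SDM.agree_rev hREV sh c w Q V E.s₀ _ _ _ _ t' _ (by linarith) (by linarith) hB

end LCA


end

section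

/-!
# CYL: the initial cylinder
-/

namespace LCA

open Set Filter
open scoped ContDiff Topology

namespace CYL

variable {m n : ℕ} (c : Comb m n) (Q : St n)

/-- the positions at the time `s` -/
def sc (s : ℝ) : St n := (Q.1, s • Q.2)

theorem lin_eq (s : ℝ) : lin Q ((0, Q.2) : St n) 1 s = sc Q s := by
  unfold lin sc
  apply Prod.ext
  · simp
  · funext i
    simp
    ring

theorem sc_one : sc Q 1 = Q := by
  unfold sc
  rw [one_smul]

theorem pe_sc (s : ℝ) (e : Fin m) : c.pe (sc Q s) e = s * c.pe Q e := by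
  simp only [Comb.pe, sc, Pi.smul_apply, smul_eq_mul]
  ring

theorem ae_sc (s : ℝ) (e : Fin m) : c.ae (sc Q s) e = s * c.ae Q e := by
  simp only [Comb.ae, pe_sc]
  simp only [sc, Pi.smul_apply, smul_eq_mul]
  ring

theorem dpe_sc (s : ℝ) (e : Fin m) : c.dpe (sc Q s) ((0, Q.2) : St n) e = c.pe Q e := by
  simp only [Comb.dpe, Comb.pe, sc, Pi.zero_apply, sub_zero, mul_zero]

theorem dae_sc (s : ℝ) (e : Fin m) : c.dae (sc Q s) ((0, Q.2) : St n) e = c.ae Q e := by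
  simp only [Comb.dae, dpe_sc]
  simp only [Comb.ae, sc, Pi.zero_apply, sub_zero, mul_zero]

theorem dl_sc (s : ℝ) (i : Fin n) : c.dl (sc Q s) i = s * c.dl Q i := by
  simp only [Comb.dl, pe_sc]
  ring

/-- the points `(x, y, z)` of the knot -/
def S1 (sh : Shape) (w : Fin n → ℝ) : Set LC.R3 :=
  {t | (∃ e, ∃ x ∈ c.rg w Q e, t = (x, c.pe Q e, c.pe Q e * x + c.ae Q e)) ∨
    ∃ i, ∃ u, |u| ≤ 2 ∧ t = (Q.1 i + w i * ((c.sp sh) i).X 0 u,
      c.pe Q (c.ea i) + c.dl Q i * ((c.sp sh) i).P 0 u,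
      c.pe Q (c.ea i) * (Q.1 i + w i * ((c.sp sh) i).X 0 u) + c.ae Q (c.ea i) +
        w i * c.dl Q i * ((c.sp sh) i).Θ 0 u)}

theorem ept_sc (s x : ℝ) (e : Fin m) : c.ept (sc Q s) ((0, Q.2) : St n) e x =
    (x, s * c.pe Q e, c.pe Q e * x + c.ae Q e, s * (c.pe Q e * x + c.ae Q e)) := by
  simp only [Comb.ept, pe_sc, ae_sc, dpe_sc, dae_sc, Prod.mk.injEq, true_and]
  ring

theorem vp_sc (sh : Shape) (w : Fin n → ℝ) (s τ u : ℝ) (i : Fin n) :
    c.vp w (c.sp sh) τ (sc Q s) ((0, Q.2) : St n) i u =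
      (Q.1 i + w i * ((c.sp sh) i).X 0 u,
        s * (c.pe Q (c.ea i) + c.dl Q i * ((c.sp sh) i).P 0 u),
        c.pe Q (c.ea i) * (Q.1 i + w i * ((c.sp sh) i).X 0 u) + c.ae Q (c.ea i) +
          w i * c.dl Q i * ((c.sp sh) i).Θ 0 u,
        s * (c.pe Q (c.ea i) * (Q.1 i + w i * ((c.sp sh) i).X 0 u) + c.ae Q (c.ea i) +
          w i * c.dl Q i * ((c.sp sh) i).Θ 0 u)) := by
  have hX : ((c.sp sh) i).X τ u = ((c.sp sh) i).X 0 u := rfl
  have hP : ((c.sp sh) i).P τ u = ((c.sp sh) i).P 0 u := rfl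
  have hT : ((c.sp sh) i).Θ τ u = ((c.sp sh) i).Θ 0 u := rfl
  have hY : ((c.sp sh) i).Y τ u = 0 := rfl
  have hd : c.pe Q (c.eb i) - c.pe Q (c.ea i) = c.dl Q i := rfl
  simp only [Comb.vp, Comb.vpt, hX, hP, hT, hY, pe_sc, ae_sc, dpe_sc, dae_sc, dl_sc, hd]
  have h1 : (sc Q s).1 i = Q.1 i := rfl
  rw [h1, Pi.zero_apply]
  refine Prod.ext rfl (Prod.ext ?_ (Prod.ext ?_ ?_))
  · show s * c.pe Q (c.ea i) + s * c.dl Q i * _ = _
    ring
  · show c.pe Q (c.ea i) * _ + c.ae Q (c.ea i) + w i * (c.dl Q i * _ + s * c.dl Q i * 0)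
      - s * c.dl Q i * _ * 0 = _
    ring
  · show s * c.pe Q (c.ea i) * _ + s * c.ae Q (c.ea i) + w i * (s * c.dl Q i) * _ = _
    ring

theorem slice_sc (sh : Shape) (w : Fin n → ℝ) (s τ : ℝ) (r : ℝ × ℝ × ℝ × ℝ) :
    r ∈ c.slice w (c.sp sh) τ (sc Q s) ((0, Q.2) : St n) ↔
      ∃ t ∈ S1 c Q sh w, r = (t.1, s * t.2.1, t.2.2, s * t.2.2) := by
  have hrg : ∀ e, c.rg w (sc Q s) e = c.rg w Q e := fun e => rfl
  constructor
  · rintro (⟨e, x, hx, h⟩ | ⟨i, u, hu, h⟩)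
    · refine ⟨_, Or.inl ⟨e, x, hx, rfl⟩, ?_⟩
      rw [h, ept_sc]
    · refine ⟨_, Or.inr ⟨i, u, hu, rfl⟩, ?_⟩
      rw [h, vp_sc]
  · rintro ⟨t, ⟨e, x, hx, rfl⟩ | ⟨i, u, hu, rfl⟩, h⟩
    · refine Or.inl ⟨e, x, hx, ?_⟩
      rw [h, ept_sc]
    · refine Or.inr ⟨i, u, hu, ?_⟩
      rw [h, vp_sc]

theorem knot_eq (sh : Shape) (w : Fin n → ℝ) : c.knot sh w Q = S1 c Q sh w := by
  ext r
  have h := slice_sc c Q sh w 1 0 (r.1, r.2.1, r.2.2, r.2.2)
  rw [sc_one] at h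
  constructor
  · intro hr
    obtain ⟨t, ht, he⟩ := h.1 hr
    simp only [one_mul, Prod.mk.injEq] at he
    have : r = t := Prod.ext he.1 (Prod.ext he.2.1 he.2.2.1)
    rw [this]
    exact ht
  · intro hr
    refine h.2 ⟨r, hr, ?_⟩
    simp only [one_mul]

theorem plo_sc {s : ℝ} (hs : 0 < s) (i : Fin n) : c.plo (sc Q s) i = s * c.plo Q i := by
  simp only [Comb.plo, pe_sc]
  rw [mul_min_of_nonneg _ _ hs.le]

theorem phi_sc {s : ℝ} (hs : 0 < s) (i : Fin n) : c.phi (sc Q s) i = s * c.phi Q i := by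
  simp only [Comb.phi, pe_sc]
  rw [mul_max_of_nonneg _ _ hs.le]

theorem dpe_one (e : Fin m) : c.dpe Q ((0, Q.2) : St n) e = c.pe Q e := by
  have := dpe_sc c Q 1 e
  rwa [sc_one] at this

theorem dae_one (e : Fin m) : c.dae Q ((0, Q.2) : St n) e = c.ae Q e := by
  have := dae_sc c Q 1 e
  rwa [sc_one] at this

theorem err_sc (w : Fin n → ℝ) (hw : ∀ i, 0 < w i) {s : ℝ} (hs : 0 < s) (hs1 : s ≤ 1)
    (i : Fin n) : c.err w (sc Q s) ((0, Q.2) : St n) i ≤ c.err w Q ((0, Q.2) : St n) i := by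
  simp only [Comb.err, dpe_sc, dl_sc, dpe_one]
  apply mul_le_mul_of_nonneg_left _ (hw i).le
  have h1 : |s * c.dl Q i| ≤ |c.dl Q i| := by
    rw [abs_mul, abs_of_pos hs]
    exact mul_le_of_le_one_left (abs_nonneg _) hs1
  have h2 : (0 : ℝ) ≤ CY := by
    unfold CY
    norm_num
  have := mul_le_mul_of_nonneg_left h1 h2
  linarith

theorem Dvv_eq (i j : Fin n) (p : ℝ) : Dvv ((0, Q.2) : St n) i j p = Q.2 i - Q.2 j := by
  simp only [Dvv, Pi.zero_apply, mul_zero, sub_zero]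

theorem cert_sc (w : Fin n → ℝ) (hw : ∀ i, 0 < w i) (h : c.Cert w Q ((0, Q.2) : St n)) {s : ℝ}
    (hs : 0 < s) (hs1 : s ≤ 1) : c.Cert w (sc Q s) ((0, Q.2) : St n) := by
  have hp : ∀ e, c.pe (sc Q s) e = s * c.pe Q e := pe_sc c Q s
  refine ⟨h.len, ?_, ?_, ?_, ?_⟩
  · intro i hi
    rw [dl_sc]
    exact mul_ne_zero hs.ne' (h.tip i hi)
  · intro e e' hee
    rcases h.ee e e' hee with h1 | ⟨σ, hσ, h1, h2⟩
    · left
      rcases h1 with h1 | h1 | h1
      · exact Or.inl h1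
      · exact Or.inr (Or.inl h1)
      · refine Or.inr (Or.inr ?_)
        rw [hp, hp]
        exact fun h2 => h1 (mul_left_cancel₀ hs.ne' h2)
    · right
      refine ⟨σ, hσ, ?_, ?_⟩
      · simp only [Comb.Dee, dpe_sc, dae_sc]
        simp only [Comb.Dee, dpe_one, dae_one] at h1
        exact h1
      · simp only [Comb.Dee, dpe_sc, dae_sc]
        simp only [Comb.Dee, dpe_one, dae_one] at h2
        exact h2
  · intro i j hij
    rcases h.vv i j hij with h1 | ⟨σ, hσ, h1, h2⟩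
    · left
      rcases h1 with h1 | h1 | h1 | h1
      · exact Or.inl h1
      · exact Or.inr (Or.inl h1)
      · refine Or.inr (Or.inr (Or.inl ?_))
        rw [phi_sc c Q hs, plo_sc c Q hs]
        exact mul_lt_mul_of_pos_left h1 hs
      · refine Or.inr (Or.inr (Or.inr ?_))
        rw [phi_sc c Q hs, plo_sc c Q hs]
        exact mul_lt_mul_of_pos_left h1 hs
    · right
      refine ⟨σ, hσ, ?_, ?_⟩
      · rw [Dvv_eq] at h1 ⊢
        have := err_sc c Q w hw hs hs1 i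
        have := err_sc c Q w hw hs hs1 j
        linarith
      · rw [Dvv_eq] at h2 ⊢
        have := err_sc c Q w hw hs hs1 i
        have := err_sc c Q w hw hs hs1 j
        linarith
  · intro i e h1 h2
    rcases h.ve i e h1 h2 with h3 | ⟨σ, hσ, h3⟩
    · left
      rcases h3 with h3 | h3 | h3 | h3
      · exact Or.inl h3
      · exact Or.inr (Or.inl h3)
      · refine Or.inr (Or.inr (Or.inl ?_))
        rw [plo_sc c Q hs, hp]
        exact mul_lt_mul_of_pos_left h3 hs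
      · refine Or.inr (Or.inr (Or.inr ?_))
        rw [phi_sc c Q hs, hp]
        exact mul_lt_mul_of_pos_left h3 hs
    · right
      refine ⟨σ, hσ, ?_⟩
      have h4 := err_sc c Q w hw hs hs1 i
      have e1 : c.Dve (sc Q s) ((0, Q.2) : St n) i e = c.Dve Q ((0, Q.2) : St n) i e := by
        simp only [Comb.Dve, dpe_sc, dae_sc, dpe_one, dae_one, Pi.zero_apply, mul_zero]
        rfl
      unfold Comb.Zve at h3 ⊢
      rw [e1, dpe_sc]
      rw [dpe_one] at h3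
      linarith

theorem deriv_lin (Q V : St n) (t s : ℝ) : deriv (lin Q V t) s = V := by
  have h : HasDerivAt (lin Q V t) ((1 : ℝ) • V) s := by
    have h1 : HasDerivAt (fun s : ℝ => s - t) 1 s := (hasDerivAt_id s).sub_const t
    exact (h1.smul_const V).const_add Q
  rw [h.deriv, one_smul]

theorem lin_smooth (Q V : St n) (t : ℝ) : ContDiff ℝ ∞ (lin Q V t) := by
  unfold lin
  exact contDiff_const.add ((contDiff_id.sub contDiff_const).smul contDiff_const)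

end CYL

open _root_.LCA.CYL in
theorem t_CYL (hOPC : Stmt_OPC) (hCER : Stmt_CER) (hPHG : Stmt_PHG) (hPST : Stmt_PST)
    (hCNG : Stmt_CNG) : Stmt_CYL := by
  intro m n sh c w Q hc hw hcert
  set V : St n := (0, Q.2) with hV
  -- the certificate near the time `1`
  have hev : ∀ᶠ s in 𝓝 (1 : ℝ), c.Cert w (lin Q V 1 s) V := by
    have h1 : IsOpen {a : St n × St n | c.Cert w a.1 a.2} := hOPC c w hw
    have h2 : Continuous fun s : ℝ => ((lin Q V 1 s, V) : St n × St n) :=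
      (lin_smooth Q V 1).continuous.prodMk continuous_const
    have h3 : ((lin Q V 1 1, V) : St n × St n) ∈ {a : St n × St n | c.Cert w a.1 a.2} := by
      show c.Cert w (lin Q V 1 1) V
      rw [hV, lin_eq, sc_one]
      exact hcert
    exact (h2.tendsto 1).eventually (h1.mem_nhds h3)
  obtain ⟨δ, hδ, hδ1⟩ := Metric.eventually_nhds_iff.1 hev
  set ε : ℝ := min δ (1 / 2) with hε
  have hε0 : 0 < ε := lt_min hδ (by norm_num)
  have hεδ : ε ≤ δ := min_le_left _ _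
  have hε2 : ε ≤ 1 / 2 := min_le_right _ _
  have hC : ∀ s ∈ Ioo 0 (1 + ε), c.Cert w (lin Q V 1 s) V := by
    intro s hs
    rcases le_or_gt s 1 with h1 | h1
    · rw [hV, lin_eq]
      exact cert_sc c Q w hw hcert hs.1 h1
    · apply hδ1
      rw [Real.dist_eq, abs_of_pos (by linarith)]
      linarith [hs.2]
  have hph : IsPhase c w (Ioo 0 (1 + ε)) (c.sp sh) (lin Q V 1) := by
    have hprof : ∀ i, ProfOK (Ioo 0 (1 + ε)) (c.ty i) (fun s => c.dl (lin Q V 1 s) i)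
        (c.sp sh i) := by
      intro i
      exact hPST sh (Ioo 0 (1 + ε)) (c.ty i) _ fun s hs hi => (hC s hs).tip i hi
    refine ⟨hc, hw, isOpen_Ioo, ordConnected_Ioo, (lin_smooth Q V 1).contDiffOn, hprof, ?_⟩
    intro s hs
    rw [deriv_lin]
    exact hCER c w (c.sp sh) s _ _ hc hw (fun i => (hprof i).bd s hs) (hC s hs)
  obtain ⟨hG, hD, -⟩ := hPHG c w _ _ _ hph
  refine ⟨one_pos, ε, hε0, by linarith, c.surf w (c.sp sh) (lin Q V 1), 1 / 2, by norm_num,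
    by norm_num, hG, hD, ?_, fun q _ => Iff.rfl⟩
  intro q _
  rw [knot_eq]
  have h1 : q ∈ c.surf w (c.sp sh) (lin Q V 1) ↔
      q.2 ∈ c.slice w (c.sp sh) q.1 (sc Q q.1) ((0, Q.2) : St n) := by
    have h2 : q ∈ c.surf w (c.sp sh) (lin Q V 1) ↔
      q.2 ∈ c.slice w (c.sp sh) q.1 (lin Q V 1 q.1) (deriv (lin Q V 1) q.1) := Iff.rfl
    rw [h2, deriv_lin, hV, lin_eq]
  rw [h1, slice_sc]
  rfl

end LCA


end

section

/-!
# SWP: exchange of the edges at a tip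
-/

namespace LCA

open Set Filter
open scoped ContDiff Topology

namespace SWP

variable {m n : ℕ}

theorem deriv_xi_neg (sh : Shape) (u : ℝ) : deriv sh.ξ (-u) = -deriv sh.ξ u := by
  have h1 : (fun u => sh.ξ (-u)) = sh.ξ := funext sh.ξ_even
  have h2 : deriv (fun u => sh.ξ (-u)) u = -deriv sh.ξ (-u) := deriv_comp_neg _ _
  rw [h1] at h2
  linarith

/-- The symmetry of the primitive at a tip. -/
theorem theta_symm (sh : Shape) (u : ℝ) : sh.ΘR (-u) = sh.ξ u - sh.ΘR u := by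
  have hd : ∀ x, HasDerivAt (fun u => sh.ΘR u + sh.ΘR (-u) - sh.ξ u) 0 x := by
    intro x
    have h1 := sh.ΘR_deriv x
    have h2 : HasDerivAt (fun u => sh.ΘR (-u)) (-(sh.τ (-x) * deriv sh.ξ (-x))) x := by
      have h3 : HasDerivAt sh.ΘR (sh.τ (-x) * deriv sh.ξ (-x)) (-x) := sh.ΘR_deriv (-x)
      have h4 := h3.comp x (hasDerivAt_neg x)
      refine h4.congr_deriv ?_
      ring
    have h5 : HasDerivAt sh.ξ (deriv sh.ξ x) x :=
      ((sh.ξ_smooth.differentiable (by simp)) x).hasDerivAt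
    refine ((h1.add h2).sub h5).congr_deriv ?_
    rw [deriv_xi_neg, sh.τ_symm]
    ring
  have hc := is_const_of_deriv_eq_zero (fun x => (hd x).differentiableAt)
    (fun x => (hd x).deriv) u 1
  have h1 : sh.ΘR 1 = -1 := sh.ΘR_high 1 le_rfl
  have h2 : sh.ΘR (-1) = 0 := sh.ΘR_low (-1) le_rfl
  have h3 : sh.ξ 1 = -1 := by
    have := sh.ξ_out 1 (by norm_num)
    simpa using this
  simp only [h1, h2, h3] at hc
  linarith

theorem I1l (c : Comb m n) (q : St n) (e : Fin m) :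
    q.2 (c.lf e) = c.pe q e * q.1 (c.lf e) + c.ae q e := by
  unfold Comb.ae
  ring

theorem I2l (c : Comb m n) (q v : St n) (e : Fin m) :
    v.2 (c.lf e) = c.dpe q v e * q.1 (c.lf e) + c.pe q e * v.1 (c.lf e) + c.dae q v e := by
  unfold Comb.dae
  ring

theorem I1r (c : Comb m n) (q : St n) (e : Fin m) (h : q.1 (c.lf e) < q.1 (c.rt e)) :
    q.2 (c.rt e) = c.pe q e * q.1 (c.rt e) + c.ae q e := by
  have h0 : q.1 (c.rt e) - q.1 (c.lf e) ≠ 0 := (sub_pos.2 h).ne'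
  have h1 : c.pe q e * (q.1 (c.rt e) - q.1 (c.lf e)) = q.2 (c.rt e) - q.2 (c.lf e) := by
    unfold Comb.pe
    field_simp
  unfold Comb.ae
  linarith

theorem I2r (c : Comb m n) (q v : St n) (e : Fin m) (h : q.1 (c.lf e) < q.1 (c.rt e)) :
    v.2 (c.rt e) = c.dpe q v e * q.1 (c.rt e) + c.pe q e * v.1 (c.rt e) + c.dae q v e := by
  have h0 : q.1 (c.rt e) - q.1 (c.lf e) ≠ 0 := (sub_pos.2 h).ne'
  have h1 : c.dpe q v e * (q.1 (c.rt e) - q.1 (c.lf e)) =
      v.2 (c.rt e) - v.2 (c.lf e) - c.pe q e * (v.1 (c.rt e) - v.1 (c.lf e)) := by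
    unfold Comb.dpe
    field_simp
  unfold Comb.dae
  linarith

variable {c c' : Comb m n} {i : Fin n}

theorem pe_eq (H : SwpComb c c' i) (q : St n) (e : Fin m) : c'.pe q e = c.pe q e := by
  unfold Comb.pe
  rw [H.lf, H.rt]

theorem ae_eq (H : SwpComb c c' i) (q : St n) (e : Fin m) : c'.ae q e = c.ae q e := by
  unfold Comb.ae
  rw [pe_eq H, H.lf]

theorem dpe_eq (H : SwpComb c c' i) (q v : St n) (e : Fin m) : c'.dpe q v e = c.dpe q v e := by
  unfold Comb.dpe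
  rw [pe_eq H, H.lf, H.rt]

theorem dae_eq (H : SwpComb c c' i) (q v : St n) (e : Fin m) : c'.dae q v e = c.dae q v e := by
  unfold Comb.dae
  rw [dpe_eq H, pe_eq H, H.lf]

theorem ept_eq (H : SwpComb c c' i) (q v : St n) (e : Fin m) (x : ℝ) :
    c'.ept q v e x = c.ept q v e x := by
  unfold Comb.ept
  rw [dpe_eq H, dae_eq H, pe_eq H, ae_eq H]

theorem rg_eq (H : SwpComb c c' i) (w : Fin n → ℝ) (q : St n) (e : Fin m) :
    c'.rg w q e = c.rg w q e := by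
  unfold Comb.rg
  rw [H.lf, H.rt]

theorem vp_eq (H : SwpComb c c' i) (sh : Shape) (w : Fin n → ℝ) (q v : St n) (j : Fin n)
    (hj : j ≠ i) (u : ℝ) :
    c'.vp w (c'.sp sh) 0 q v j u = c.vp w (c.sp sh) 0 q v j u := by
  unfold Comb.vp Comb.vpt Comb.dl Comb.sp
  rw [H.ty, H.ea' j hj, H.eb' j hj]
  simp only [pe_eq H, ae_eq H, dpe_eq H, dae_eq H]

theorem valid' (H : SwpComb c c' i) : c'.Valid := by
  have hty : c.ty i = .R ∨ c.ty i = .L := by
    have h := H.tip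
    cases h' : c.ty i
    · exact absurd h' h
    · exact Or.inl rfl
    · exact Or.inr rfl
  constructor
  · intro j
    by_cases hj : j = i
    · subst hj
      have h := H.valid.okb j
      unfold Comb.OKb at h
      unfold Comb.OKa
      rw [H.ty, H.ea, H.rt, H.lf]
      rcases hty with ht | ht
      · simp only [ht] at h ⊢
        exact h
      · simp only [ht] at h ⊢
        exact h
    · have h := H.valid.oka j
      unfold Comb.OKa at h ⊢
      rw [H.ty, H.ea' j hj, H.rt, H.lf]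
      exact h
  · intro j
    by_cases hj : j = i
    · subst hj
      have h := H.valid.oka j
      unfold Comb.OKa at h
      unfold Comb.OKb
      rw [H.ty, H.eb, H.rt, H.lf]
      rcases hty with ht | ht
      · simp only [ht] at h ⊢
        exact h
      · simp only [ht] at h ⊢
        exact h
    · have h := H.valid.okb j
      unfold Comb.OKb at h ⊢
      rw [H.ty, H.eb' j hj, H.rt, H.lf]
      exact h
  · intro j
    by_cases hj : j = i
    · subst hj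
      rw [H.ea, H.eb]
      exact (H.valid.ne j).symm
    · rw [H.ea' j hj, H.eb' j hj]
      exact H.valid.ne j
  · intro e
    rw [H.rt, H.ty]
    by_cases hj : c.rt e = i
    · rw [hj, H.ea, H.eb]
      rcases H.valid.rt e with ⟨h1, h2⟩ | ⟨h1, h2⟩
      · rw [hj] at h1 h2
        refine Or.inr ⟨?_, h2⟩
        rcases hty with ht | ht
        · exact ht
        · exact absurd ht h1
      · rw [hj] at h1 h2
        refine Or.inl ⟨?_, h2⟩
        rw [h1]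
        decide
    · rw [H.ea' _ hj, H.eb' _ hj]
      exact H.valid.rt e
  · intro e
    rw [H.lf, H.ty]
    by_cases hj : c.lf e = i
    · rw [hj, H.ea, H.eb]
      rcases H.valid.lf e with ⟨h1, h2⟩ | ⟨h1, h2⟩
      · rw [hj] at h1 h2
        refine Or.inr ⟨?_, h2⟩
        rw [h1]
        decide
      · rw [hj] at h1 h2
        refine Or.inl ⟨?_, h2⟩
        rcases hty with ht | ht
        · exact absurd ht h1
        · exact ht
    · rw [H.ea' _ hj, H.eb' _ hj]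
      exact H.valid.lf e

/-- The piece of the tip with exchanged edges. -/
theorem vp_swap (H : SwpComb c c' i) (sh : Shape) (w : Fin n → ℝ) (q v : St n)
    (hq : ∀ e, q.1 (c.lf e) < q.1 (c.rt e)) (u : ℝ) :
    c'.vp w (c'.sp sh) 0 q v i (-u) = c.vp w (c.sp sh) 0 q v i u := by
  have hA1 : q.2 i = c.pe q (c.ea i) * q.1 i + c.ae q (c.ea i) := by
    have h := H.valid.oka i
    unfold Comb.OKa at h
    cases ht : c.ty i
    · exact absurd ht H.tip
    · simp only [ht] at h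
      have := I1r c q (c.ea i) (hq _)
      rwa [h] at this
    · simp only [ht] at h
      have := I1l c q (c.ea i)
      rwa [h] at this
  have hA2 : v.2 i = c.dpe q v (c.ea i) * q.1 i + c.pe q (c.ea i) * v.1 i
      + c.dae q v (c.ea i) := by
    have h := H.valid.oka i
    unfold Comb.OKa at h
    cases ht : c.ty i
    · exact absurd ht H.tip
    · simp only [ht] at h
      have := I2r c q v (c.ea i) (hq _)
      rwa [h] at this
    · simp only [ht] at h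
      have := I2l c q v (c.ea i)
      rwa [h] at this
  have hB1 : q.2 i = c.pe q (c.eb i) * q.1 i + c.ae q (c.eb i) := by
    have h := H.valid.okb i
    unfold Comb.OKb at h
    cases ht : c.ty i
    · exact absurd ht H.tip
    · simp only [ht] at h
      have := I1r c q (c.eb i) (hq _)
      rwa [h] at this
    · simp only [ht] at h
      have := I1l c q (c.eb i)
      rwa [h] at this
  have hB2 : v.2 i = c.dpe q v (c.eb i) * q.1 i + c.pe q (c.eb i) * v.1 i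
      + c.dae q v (c.eb i) := by
    have h := H.valid.okb i
    unfold Comb.OKb at h
    cases ht : c.ty i
    · exact absurd ht H.tip
    · simp only [ht] at h
      have := I2r c q v (c.eb i) (hq _)
      rwa [h] at this
    · simp only [ht] at h
      have := I2l c q v (c.eb i)
      rwa [h] at this
  have h1 : c.ae q (c.eb i) = c.ae q (c.ea i) - (c.pe q (c.eb i) - c.pe q (c.ea i)) * q.1 i := by
    linarith
  have h2 : c.dae q v (c.eb i) = c.dae q v (c.ea i)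
      - (c.dpe q v (c.eb i) - c.dpe q v (c.ea i)) * q.1 i
      - (c.pe q (c.eb i) - c.pe q (c.ea i)) * v.1 i := by
    linarith
  have hτ := sh.τ_symm u
  have hξ := sh.ξ_even u
  have hΘ := theta_symm sh u
  cases ht : c.ty i
  · exact absurd ht H.tip
  · unfold Comb.vp Comb.vpt Comb.dl Comb.sp Shape.st
    simp only [H.ty, ht, H.ea, H.eb, pe_eq H, ae_eq H, dpe_eq H, dae_eq H, h1, h2, hτ, hξ, hΘ]
    refine Prod.ext rfl (Prod.ext ?_ (Prod.ext ?_ ?_)) <;> dsimp only <;> ring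
  · unfold Comb.vp Comb.vpt Comb.dl Comb.sp Shape.st
    simp only [H.ty, ht, H.ea, H.eb, pe_eq H, ae_eq H, dpe_eq H, dae_eq H, h1, h2, hτ, hξ, hΘ]
    refine Prod.ext rfl (Prod.ext ?_ (Prod.ext ?_ ?_)) <;> dsimp only <;> ring

end SWP

theorem t_SWP : Stmt_SWP := by
  intro m n sh c c' w i q v H hq
  refine ⟨SWP.valid' H, ?_⟩
  ext r
  constructor
  · rintro (⟨e, x, hx, rfl⟩ | ⟨j, u, hu, rfl⟩)
    · exact Or.inl ⟨e, x, by rwa [SWP.rg_eq H], (SWP.ept_eq H q v e x).symm⟩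
    · by_cases hj : j = i
      · subst hj
        exact Or.inr ⟨j, -u, by rwa [abs_neg], (SWP.vp_swap H sh w q v hq u).symm⟩
      · exact Or.inr ⟨j, u, hu, (SWP.vp_eq H sh w q v j hj u).symm⟩
  · rintro (⟨e, x, hx, rfl⟩ | ⟨j, u, hu, rfl⟩)
    · exact Or.inl ⟨e, x, by rwa [SWP.rg_eq H] at hx, SWP.ept_eq H q v e x⟩
    · by_cases hj : j = i
      · subst hj
        refine Or.inr ⟨j, -u, by rwa [abs_neg], ?_⟩
        have := SWP.vp_swap H sh w q v hq (-u)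
        rwa [neg_neg] at this
      · exact Or.inr ⟨j, u, hu, SWP.vp_eq H sh w q v j hj u⟩

end LCA


end

section

/-!
# FEQ: the folded slice
-/

namespace LCA

open Set Filter
open scoped ContDiff Topology

namespace FEQ

variable {m n m' n' : ℕ}

theorem I1l (c : Comb m n) (q : St n) (e : Fin m) :
    q.2 (c.lf e) = c.pe q e * q.1 (c.lf e) + c.ae q e := by
  unfold Comb.ae; ring

theorem I1r (c : Comb m n) (q : St n) (e : Fin m) (h : q.1 (c.lf e) < q.1 (c.rt e)) :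
    q.2 (c.rt e) = c.pe q e * q.1 (c.rt e) + c.ae q e := by
  have hne : q.1 (c.rt e) - q.1 (c.lf e) ≠ 0 := sub_ne_zero.2 h.ne'
  have h1 : c.pe q e * (q.1 (c.rt e) - q.1 (c.lf e)) = q.2 (c.rt e) - q.2 (c.lf e) := by
    unfold Comb.pe; field_simp
  have h2 : c.ae q e = q.2 (c.lf e) - c.pe q e * q.1 (c.lf e) := rfl
  rw [h2]
  linear_combination -h1

theorem I2l (c : Comb m n) (q v : St n) (e : Fin m) :
    v.2 (c.lf e) = c.dpe q v e * q.1 (c.lf e) + c.pe q e * v.1 (c.lf e) + c.dae q v e := by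
  unfold Comb.dae; ring

theorem I2r (c : Comb m n) (q v : St n) (e : Fin m) (h : q.1 (c.lf e) < q.1 (c.rt e)) :
    v.2 (c.rt e) = c.dpe q v e * q.1 (c.rt e) + c.pe q e * v.1 (c.rt e) + c.dae q v e := by
  have hne : q.1 (c.rt e) - q.1 (c.lf e) ≠ 0 := sub_ne_zero.2 h.ne'
  have h1 : c.dpe q v e * (q.1 (c.rt e) - q.1 (c.lf e)) =
      v.2 (c.rt e) - v.2 (c.lf e) - c.pe q e * (v.1 (c.rt e) - v.1 (c.lf e)) := by
    unfold Comb.dpe; field_simp
  have h2 : c.dae q v e = v.2 (c.lf e) - c.dpe q v e * q.1 (c.lf e) - c.pe q e * v.1 (c.lf e) :=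
    rfl
  rw [h2]
  linear_combination -h1

theorem line (c : Comb m n) (q v : St n) (e : Fin m) (p A dp dA : ℝ)
    (h : q.1 (c.lf e) < q.1 (c.rt e))
    (h1 : q.2 (c.lf e) = p * q.1 (c.lf e) + A) (h2 : q.2 (c.rt e) = p * q.1 (c.rt e) + A)
    (h3 : v.2 (c.lf e) = dp * q.1 (c.lf e) + p * v.1 (c.lf e) + dA)
    (h4 : v.2 (c.rt e) = dp * q.1 (c.rt e) + p * v.1 (c.rt e) + dA) :
    c.pe q e = p ∧ c.ae q e = A ∧ c.dpe q v e = dp ∧ c.dae q v e = dA := by
  have hne : q.1 (c.rt e) - q.1 (c.lf e) ≠ 0 := sub_ne_zero.2 h.ne'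
  have e1 : c.pe q e = p := by
    unfold Comb.pe
    rw [div_eq_iff hne, h1, h2]; ring
  have e2 : c.ae q e = A := by
    unfold Comb.ae
    rw [e1, h1]; ring
  have e3 : c.dpe q v e = dp := by
    unfold Comb.dpe
    rw [div_eq_iff hne, h3, h4, e1]; ring
  refine ⟨e1, e2, e3, ?_⟩
  unfold Comb.dae
  rw [e1, e3, h3]; ring

variable {c : Comb m n} {c' : Comb m' n'} {ιE : Fin m → Fin m'} {ιV : Fin n → Fin n'}
  {i : Fin n} {e : Fin m'} {j : Fin n'}

theorem rt_ea (H : FoldComb c c' ιE ιV i e j) : c.rt (c.ea i) = i := by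
  have := H.valid.oka i
  unfold Comb.OKa at this
  rw [H.tyi] at this
  exact this

theorem lf_eb (H : FoldComb c c' ιE ιV i e j) : c.lf (c.eb i) = i := by
  have := H.valid.okb i
  unfold Comb.OKb at this
  rw [H.tyi] at this
  exact this

theorem rt_i (H : FoldComb c c' ιE ιV i e j) {d : Fin m} (h : c.rt d = i) : c.ea i = d := by
  have := H.valid.rt d
  rw [h, H.tyi] at this
  rcases this with h | h
  · exact h.2
  · exact absurd h.1 (by decide)

theorem lf_i (H : FoldComb c c' ιE ιV i e j) {d : Fin m} (h : c.lf d = i) : c.eb i = d := by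
  have := H.valid.lf d
  rw [h, H.tyi] at this
  rcases this with h | h
  · exact absurd h.1 (by decide)
  · exact h.2

theorem valid' (H : FoldComb c c' ιE ιV i e j) : c'.Valid := by
  refine ⟨?_, ?_, ?_, ?_, ?_⟩
  · intro k'
    rcases H.covV k' with rfl | ⟨k, rfl⟩
    · unfold Comb.OKa
      rw [H.tyj, H.eaj]
      exact H.lfe
    · by_cases hk : k = i
      · subst hk
        unfold Comb.OKa
        rw [H.tyi', H.eai]
        show c'.rt (ιE (c.ea k)) = ιV k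
        rw [H.rt, rt_ea H]
      · have ok := H.valid.oka k
        unfold Comb.OKa at ok ⊢
        rw [H.ty k hk, H.ea k hk]
        cases ht : c.ty k with
        | P =>
          rw [ht] at ok
          show c'.rt (ιE (c.ea k)) = ιV k
          have ok' : c.rt (c.ea k) = k := ok
          rw [H.rt, ok']
        | R =>
          rw [ht] at ok
          show c'.rt (ιE (c.ea k)) = ιV k
          have ok' : c.rt (c.ea k) = k := ok
          rw [H.rt, ok']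
        | L =>
          rw [ht] at ok
          show c'.lf (ιE (c.ea k)) = ιV k
          have ok' : c.lf (c.ea k) = k := ok
          have hne : c.ea k ≠ c.eb i := by
            intro h
            apply hk
            rw [← ok', h, lf_eb H]
          rw [H.lf _ hne, ok']
  · intro k'
    rcases H.covV k' with rfl | ⟨k, rfl⟩
    · unfold Comb.OKb
      rw [H.tyj, H.ebj]
      exact H.lf₀
    · by_cases hk : k = i
      · subst hk
        unfold Comb.OKb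
        rw [H.tyi', H.ebi]
        exact H.rte
      · have ok := H.valid.okb k
        unfold Comb.OKb at ok ⊢
        rw [H.ty k hk, H.eb k hk]
        cases ht : c.ty k with
        | P =>
          rw [ht] at ok
          show c'.lf (ιE (c.eb k)) = ιV k
          have ok' : c.lf (c.eb k) = k := ok
          have hne : c.eb k ≠ c.eb i := by
            intro h
            apply hk
            rw [← ok', h, lf_eb H]
          rw [H.lf _ hne, ok']
        | R =>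
          rw [ht] at ok
          show c'.rt (ιE (c.eb k)) = ιV k
          have ok' : c.rt (c.eb k) = k := ok
          rw [H.rt, ok']
        | L =>
          rw [ht] at ok
          show c'.lf (ιE (c.eb k)) = ιV k
          have ok' : c.lf (c.eb k) = k := ok
          have hne : c.eb k ≠ c.eb i := by
            intro h
            apply hk
            rw [← ok', h, lf_eb H]
          rw [H.lf _ hne, ok']
  · intro k'
    rcases H.covV k' with rfl | ⟨k, rfl⟩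
    · rw [H.eaj, H.ebj]
      exact (H.newE _).symm
    · by_cases hk : k = i
      · subst hk
        rw [H.eai, H.ebi]
        exact H.newE _
      · rw [H.ea k hk, H.eb k hk]
        exact fun h => H.valid.ne k (H.injE h)
  · intro d'
    rcases H.covE d' with rfl | ⟨d, rfl⟩
    · right
      rw [H.rte]
      exact ⟨H.tyi', H.ebi⟩
    · rw [H.rt]
      by_cases hk : c.rt d = i
      · left
        rw [hk, H.tyi', H.eai, rt_i H hk]
        exact ⟨by decide, rfl⟩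
      · rw [H.ty _ hk, H.ea _ hk, H.eb _ hk]
        rcases H.valid.rt d with h | h
        · left; exact ⟨h.1, by rw [h.2]⟩
        · right; exact ⟨h.1, by rw [h.2]⟩
  · intro d'
    rcases H.covE d' with rfl | ⟨d, rfl⟩
    · left
      rw [H.lfe]
      exact ⟨H.tyj, H.eaj⟩
    · by_cases hd : d = c.eb i
      · right
        subst hd
        rw [H.lf₀, H.tyj, H.ebj]
        exact ⟨by decide, rfl⟩
      · rw [H.lf _ hd]
        have hk : c.lf d ≠ i := fun h => hd (lf_i H h).symm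
        rw [H.ty _ hk, H.ea _ hk, H.eb _ hk]
        rcases H.valid.lf d with h | h
        · left; exact ⟨h.1, by rw [h.2]⟩
        · right; exact ⟨h.1, by rw [h.2]⟩

variable {w : Fin n → ℝ} {w' : Fin n' → ℝ} {q v : St n} {q' v' : St n'}

theorem lt (hw : ∀ i, 0 < w i) (S : FoldSt c c' ιV i j w w' q v q' v') (d : Fin m) :
    q.1 (c.lf d) < q.1 (c.rt d) := by
  have h1 := S.len d
  have h2 := hw (c.lf d)
  have h3 := hw (c.rt d)
  linarith

theorem Fi (H : FoldComb c c' ιE ιV i e j) (hw : ∀ i, 0 < w i)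
    (S : FoldSt c c' ιV i j w w' q v q' v') :
    q.2 i = c.pe q (c.ea i) * q.1 i + c.ae q (c.ea i) := by
  have := I1r c q (c.ea i) (lt hw S _)
  rwa [rt_ea H] at this

theorem Fi' (H : FoldComb c c' ιE ιV i e j) (q : St n) :
    q.2 i = c.pe q (c.eb i) * q.1 i + c.ae q (c.eb i) := by
  have := I1l c q (c.eb i)
  rwa [lf_eb H] at this

theorem Vi (H : FoldComb c c' ιE ιV i e j) (hw : ∀ i, 0 < w i)
    (S : FoldSt c c' ιV i j w w' q v q' v') :
    v.2 i = c.dpe q v (c.ea i) * q.1 i + c.pe q (c.ea i) * v.1 i + c.dae q v (c.ea i) := by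
  have := I2r c q v (c.ea i) (lt hw S _)
  rwa [rt_ea H] at this

theorem Vi' (H : FoldComb c c' ιE ιV i e j) (q v : St n) :
    v.2 i = c.dpe q v (c.eb i) * q.1 i + c.pe q (c.eb i) * v.1 i + c.dae q v (c.eb i) := by
  have := I2l c q v (c.eb i)
  rwa [lf_eb H] at this

/-- The data at the right end of an old edge. -/
theorem rt_data (H : FoldComb c c' ιE ιV i e j) (hw : ∀ i, 0 < w i)
    (S : FoldSt c c' ιV i j w w' q v q' v') (d : Fin m) :
    q.1 (c.rt d) ≤ q'.1 (c'.rt (ιE d)) ∧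
    q.1 (c.rt d) - 2 * w (c.rt d) ≤ q'.1 (c'.rt (ιE d)) - 2 * w' (c'.rt (ιE d)) ∧
    q'.2 (c'.rt (ιE d)) = c.pe q d * q'.1 (c'.rt (ιE d)) + c.ae q d ∧
    v'.2 (c'.rt (ιE d)) = c.dpe q v d * q'.1 (c'.rt (ιE d)) + c.pe q d * v'.1 (c'.rt (ιE d))
      + c.dae q v d := by
  rw [H.rt]
  by_cases hk : c.rt d = i
  · have hd := rt_i H hk
    subst hd
    rw [hk]
    have hwi := hw i
    refine ⟨?_, ?_, ?_, ?_⟩
    · rw [S.xi]; linarith
    · rw [S.xi, S.wi]; linarith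
    · rw [S.xi, S.Fi, Fi H hw S]; ring
    · rw [S.xi, S.vFi, S.vxi, Vi H hw S]; ring
  · rw [S.qx _ hk, S.qF _ hk, S.vx _ hk, S.vF _ hk, S.hw _ hk]
    exact ⟨le_refl _, le_refl _, I1r c q d (lt hw S d), I2r c q v d (lt hw S d)⟩

/-- The data at the left end of an old edge. -/
theorem lf_data (H : FoldComb c c' ιE ιV i e j) (hw : ∀ i, 0 < w i)
    (S : FoldSt c c' ιV i j w w' q v q' v') (d : Fin m) :
    q'.1 (c'.lf (ιE d)) ≤ q.1 (c.lf d) ∧
    q'.1 (c'.lf (ιE d)) + 2 * w' (c'.lf (ιE d)) ≤ q.1 (c.lf d) + 2 * w (c.lf d) ∧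
    q'.2 (c'.lf (ιE d)) = c.pe q d * q'.1 (c'.lf (ιE d)) + c.ae q d ∧
    v'.2 (c'.lf (ιE d)) = c.dpe q v d * q'.1 (c'.lf (ιE d)) + c.pe q d * v'.1 (c'.lf (ιE d))
      + c.dae q v d := by
  by_cases hd : d = c.eb i
  · subst hd
    rw [H.lf₀, lf_eb H]
    have hwi := hw i
    refine ⟨?_, ?_, ?_, ?_⟩
    · rw [S.xj]; linarith
    · rw [S.xj, S.wj]; linarith
    · rw [S.xj, S.Fj, Fi' H q]; ring
    · rw [S.xj, S.vFj, S.vxj, Vi' H q v]; ring
  · have hk : c.lf d ≠ i := fun h => hd (lf_i H h).symm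
    rw [H.lf _ hd, S.qx _ hk, S.qF _ hk, S.vx _ hk, S.vF _ hk, S.hw _ hk]
    exact ⟨le_refl _, le_refl _, I1l c q d, I2l c q v d⟩

theorem old (H : FoldComb c c' ιE ιV i e j) (hw : ∀ i, 0 < w i)
    (S : FoldSt c c' ιV i j w w' q v q' v') (d : Fin m) :
    c'.pe q' (ιE d) = c.pe q d ∧ c'.ae q' (ιE d) = c.ae q d ∧
      c'.dpe q' v' (ιE d) = c.dpe q v d ∧ c'.dae q' v' (ιE d) = c.dae q v d := by
  obtain ⟨a1, -, a3, a4⟩ := rt_data H hw S d
  obtain ⟨b1, -, b3, b4⟩ := lf_data H hw S d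
  exact line c' q' v' (ιE d) _ _ _ _ (by have := lt hw S d; linarith) b3 a3 b4 a4

theorem new (H : FoldComb c c' ιE ιV i e j) (hw : ∀ i, 0 < w i)
    (S : FoldSt c c' ιV i j w w' q v q' v') :
    c'.pe q' e = c.pe q (c.ea i) + c.dl q i / 2 ∧
      c'.ae q' e = c.ae q (c.ea i) - c.dl q i / 2 * (q.1 i + w i / 2) ∧
      c'.dpe q' v' e = c.dpe q v (c.ea i) + (c.dpe q v (c.eb i) - c.dpe q v (c.ea i)) / 2 ∧
      c'.dae q' v' e = c.dae q v (c.ea i)
        - (c.dpe q v (c.eb i) - c.dpe q v (c.ea i)) / 2 * (q.1 i + w i / 2)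
        - c.dl q i / 2 * v.1 i := by
  have hwi := hw i
  have f1 := Fi H hw S
  have f3 := Vi H hw S
  apply line c' q' v' e
  · rw [H.lfe, H.rte, S.xi, S.xj]; linarith
  · rw [H.lfe, S.xj, S.Fj, f1]
    unfold Comb.dl
    ring
  · rw [H.rte, S.xi, S.Fi, f1]
    unfold Comb.dl
    ring
  · rw [H.lfe, S.xj, S.vFj, S.vxj, f3]
    unfold Comb.dl
    ring
  · rw [H.rte, S.xi, S.vFi, S.vxi, f3]
    unfold Comb.dl
    ring

theorem old_ept (H : FoldComb c c' ιE ιV i e j) (hw : ∀ i, 0 < w i)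
    (S : FoldSt c c' ιV i j w w' q v q' v') (d : Fin m) (x : ℝ) :
    c'.ept q' v' (ιE d) x = c.ept q v d x := by
  obtain ⟨h1, h2, h3, h4⟩ := old H hw S d
  unfold Comb.ept
  rw [h1, h2, h3, h4]

theorem old_vpt (H : FoldComb c c' ιE ιV i e j) (hw : ∀ i, 0 < w i)
    (S : FoldSt c c' ιV i j w w' q v q' v') {k : Fin n} (hk : k ≠ i) (W X P Θ Y : ℝ) :
    c'.vpt q' v' (ιV k) W X P Θ Y = c.vpt q v k W X P Θ Y := by
  obtain ⟨h1, h2, h3, h4⟩ := old H hw S (c.ea k)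
  obtain ⟨g1, g2, g3, g4⟩ := old H hw S (c.eb k)
  unfold Comb.vpt Comb.dl
  rw [H.ea k hk, H.eb k hk, h1, h2, h3, h4, g1, g3, S.qx k hk, S.vx k hk]

theorem I3 (H : FoldComb c c' ιE ιV i e j) (hw : ∀ i, 0 < w i)
    (S : FoldSt c c' ιV i j w w' q v q' v') :
    c.ae q (c.eb i) = c.ae q (c.ea i) - c.dl q i * q.1 i ∧
    c.dae q v (c.eb i) = c.dae q v (c.ea i)
      - (c.dpe q v (c.eb i) - c.dpe q v (c.ea i)) * q.1 i - c.dl q i * v.1 i := by
  have f1 := Fi H hw S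
  have f2 := Fi' H q
  have f3 := Vi H hw S
  have f4 := Vi' H q v
  unfold Comb.dl
  constructor
  · linear_combination f1 - f2
  · linear_combination f3 - f4

theorem part1 (x : ℝ) :
    c.vpt q v i (w i) x 0 0 0 = c.ept q v (c.ea i) (q.1 i + w i * x) := by
  unfold Comb.vpt Comb.ept
  simp only [Prod.mk.injEq]
  refine ⟨trivial, ?_, ?_, ?_⟩ <;> ring

theorem part5 (H : FoldComb c c' ιE ιV i e j) (hw : ∀ i, 0 < w i)
    (S : FoldSt c c' ιV i j w w' q v q' v') (x : ℝ) :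
    c.vpt q v i (w i) x 1 x 0 = c.ept q v (c.eb i) (q.1 i + w i * x) := by
  obtain ⟨h1, h2⟩ := I3 H hw S
  unfold Comb.vpt Comb.ept
  rw [h1, h2]
  unfold Comb.dl
  simp only [Prod.mk.injEq]
  refine ⟨trivial, ?_, ?_, ?_⟩ <;> ring

theorem part3 (H : FoldComb c c' ιE ιV i e j) (hw : ∀ i, 0 < w i)
    (S : FoldSt c c' ιV i j w w' q v q' v') (x : ℝ) :
    c.vpt q v i (w i) x (1 / 2) ((x - 1 / 2) / 2) 0 = c'.ept q' v' e (q.1 i + w i * x) := by
  obtain ⟨h1, h2, h3, h4⟩ := new H hw S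
  unfold Comb.vpt Comb.ept
  rw [h1, h2, h3, h4]
  simp only [Prod.mk.injEq]
  refine ⟨trivial, ?_, ?_, ?_⟩ <;> ring

theorem part2 (H : FoldComb c c' ιE ιV i e j) (hw : ∀ i, 0 < w i)
    (S : FoldSt c c' ιV i j w w' q v q' v') (sh : Shape) (u : ℝ) :
    c.vpt q v i (w i) (1 / 2 + sh.ξ u / 8) (sh.τ u / 2) (sh.ΘR u / 16) 0
      = c'.vp w' (c'.sp sh) 0 q' v' (ιV i) u := by
  have e1 : c'.vp w' (c'.sp sh) 0 q' v' (ιV i) u
      = c'.vpt q' v' (ιV i) (w i / 8) (sh.ξ u) (sh.τ u) (sh.ΘR u) 0 := by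
    unfold Comb.vp Comb.sp
    rw [H.tyi', S.wi]
    rfl
  obtain ⟨h1, h2, h3, h4⟩ := new H hw S
  obtain ⟨g1, g2, g3, g4⟩ := old H hw S (c.ea i)
  rw [e1]
  unfold Comb.vpt
  have hdl : c'.dl q' (ιV i) = c.dl q i / 2 := by
    have : c'.dl q' (ιV i) = c'.pe q' (c'.eb (ιV i)) - c'.pe q' (c'.ea (ιV i)) := rfl
    rw [this, H.eai, H.ebi, g1, h1]; ring
  rw [hdl, H.eai, H.ebi, g1, g2, g3, g4, h3, S.xi, S.vxi]
  simp only [Prod.mk.injEq]
  refine ⟨?_, ?_, ?_, ?_⟩ <;> ring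

theorem part4 (H : FoldComb c c' ιE ιV i e j) (hw : ∀ i, 0 < w i)
    (S : FoldSt c c' ιV i j w w' q v q' v') (sh : Shape) (u x : ℝ)
    (hx : x = -(1 / 2) - sh.ξ u / 8) :
    c.vpt q v i (w i) x (1 / 2 + sh.τ u / 2) ((x - 1 / 2) / 2 - sh.ΘR u / 16) 0
      = c'.vp w' (c'.sp sh) 0 q' v' j u := by
  have e1 : c'.vp w' (c'.sp sh) 0 q' v' j u
      = c'.vpt q' v' j (w i / 8) (-sh.ξ u) (sh.τ u) (-sh.ΘR u) 0 := by
    unfold Comb.vp Comb.sp
    rw [H.tyj, S.wj]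
    rfl
  obtain ⟨h1, h2, h3, h4⟩ := new H hw S
  obtain ⟨g1, g2, g3, g4⟩ := old H hw S (c.eb i)
  rw [e1, hx]
  unfold Comb.vpt
  have hdl : c'.dl q' j = c.dl q i / 2 := by
    have : c'.dl q' j = c'.pe q' (c'.eb j) - c'.pe q' (c'.ea j) := rfl
    rw [this, H.eaj, H.ebj, g1, h1]
    unfold Comb.dl
    ring
  rw [hdl, H.eaj, H.ebj, g3, h1, h2, h3, h4, S.xj, S.vxj]
  simp only [Prod.mk.injEq]
  refine ⟨?_, ?_, ?_, ?_⟩ <;> ring

theorem rg_old (H : FoldComb c c' ιE ιV i e j) (hw : ∀ i, 0 < w i)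
    (S : FoldSt c c' ιV i j w w' q v q' v') (d : Fin m) : c.rg w q d ⊆ c'.rg w' q' (ιE d) := by
  intro x hx
  obtain ⟨-, a2, -, -⟩ := rt_data H hw S d
  obtain ⟨-, b2, -, -⟩ := lf_data H hw S d
  exact ⟨b2.trans hx.1, hx.2.trans a2⟩

/-- The new range of the edge `ea i`. -/
theorem rg_ea (H : FoldComb c c' ιE ιV i e j)
    (S : FoldSt c c' ιV i j w w' q v q' v') (x : ℝ) : x ∈ c'.rg w' q' (ιE (c.ea i)) ↔
      q.1 (c.lf (c.ea i)) + 2 * w (c.lf (c.ea i)) ≤ x ∧ x ≤ q.1 i + w i / 4 := by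
  have hab : c.ea i ≠ c.eb i := H.valid.ne i
  have hk : c.lf (c.ea i) ≠ i := fun h => hab (lf_i H h).symm
  unfold Comb.rg
  rw [H.lf _ hab, H.rt, rt_ea H, S.qx _ hk, S.hw _ hk, S.xi, S.wi, mem_Icc]
  constructor
  · rintro ⟨h1, h2⟩; exact ⟨h1, by linarith⟩
  · rintro ⟨h1, h2⟩; exact ⟨h1, by linarith⟩

/-- The new range of the edge `eb i`. -/
theorem rg_eb (H : FoldComb c c' ιE ιV i e j)
    (S : FoldSt c c' ιV i j w w' q v q' v') (x : ℝ) : x ∈ c'.rg w' q' (ιE (c.eb i)) ↔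
      q.1 i - w i / 4 ≤ x ∧ x ≤ q.1 (c.rt (c.eb i)) - 2 * w (c.rt (c.eb i)) := by
  have hab : c.ea i ≠ c.eb i := H.valid.ne i
  have hk : c.rt (c.eb i) ≠ i := fun h => hab (rt_i H h)
  unfold Comb.rg
  rw [H.lf₀, H.rt, S.qx _ hk, S.hw _ hk, S.xj, S.wj, mem_Icc]
  constructor
  · rintro ⟨h1, h2⟩; exact ⟨by linarith, h2⟩
  · rintro ⟨h1, h2⟩; exact ⟨by linarith, h2⟩

/-- The range of the new edge. -/
theorem rg_new (H : FoldComb c c' ιE ιV i e j)
    (S : FoldSt c c' ιV i j w w' q v q' v') (x : ℝ) : x ∈ c'.rg w' q' e ↔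
      q.1 i - w i / 4 ≤ x ∧ x ≤ q.1 i + w i / 4 := by
  unfold Comb.rg
  rw [H.lfe, H.rte, S.xj, S.wj, S.xi, S.wi, mem_Icc]
  constructor
  · rintro ⟨h1, h2⟩; exact ⟨by linarith only [h1], by linarith only [h2]⟩
  · rintro ⟨h1, h2⟩; exact ⟨by linarith, by linarith⟩

/-- The range of the other old edges does not change. -/
theorem rg_other (H : FoldComb c c' ιE ιV i e j)
    (S : FoldSt c c' ιV i j w w' q v q' v') {d : Fin m} (h1 : d ≠ c.ea i) (h2 : d ≠ c.eb i) :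
    c'.rg w' q' (ιE d) = c.rg w q d := by
  have k1 : c.rt d ≠ i := fun h => h1 (rt_i H h).symm
  have k2 : c.lf d ≠ i := fun h => h2 (lf_i H h).symm
  unfold Comb.rg
  rw [H.lf _ h2, H.rt, S.qx _ k1, S.qx _ k2, S.hw _ k1, S.hw _ k2]

theorem fold_mem (H : FoldComb c c' ιE ιV i e j) (hw : ∀ i, 0 < w i)
    (S : FoldSt c c' ιV i j w w' q v q' v') (sh : Shape) {x p θ : ℝ} (h : FoldSet sh x p θ) :
    c.vpt q v i (w i) x p θ 0 ∈ c'.slice w' (c'.sp sh) 0 q' v' := by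
  have hwi := hw i
  rcases h with ⟨h1, h2, rfl, rfl⟩ | ⟨u, hu, rfl, rfl, rfl⟩ | ⟨h1, h2, rfl, rfl⟩ |
    ⟨u, hu, hx, rfl, rfl⟩ | ⟨h1, h2, rfl, rfl⟩
  · left
    refine ⟨ιE (c.ea i), q.1 i + w i * x, (rg_ea H S _).2 ⟨?_, ?_⟩, ?_⟩
    · have := S.len (c.ea i)
      rw [rt_ea H] at this
      nlinarith
    · nlinarith
    · rw [part1, old_ept H hw S]
  · right
    exact ⟨ιV i, u, hu, part2 H hw S sh u⟩
  · left
    refine ⟨e, q.1 i + w i * x, (rg_new H S _).2 ⟨?_, ?_⟩, part3 H hw S x⟩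
    · nlinarith only [hwi, h1]
    · nlinarith
  · right
    exact ⟨j, u, hu, part4 H hw S sh u x hx⟩
  · left
    refine ⟨ιE (c.eb i), q.1 i + w i * θ, (rg_eb H S _).2 ⟨?_, ?_⟩, ?_⟩
    · nlinarith
    · have := S.len (c.eb i)
      rw [lf_eb H] at this
      nlinarith
    · rw [part5 H hw S, old_ept H hw S]

end FEQ

theorem t_FEQ (hVLN : Stmt_VLN) : Stmt_FEQ := by
  intro m n m' n' sh c c' ιE ιV i e j w w' q v q' v' π s H hw S hπ hs hY hst
  refine ⟨FEQ.valid' H, ?_⟩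
  have hwi := hw i
  have hvp : ∀ u, c.vp w π s q v i u =
      c.vpt q v i (w i) ((π i).X 1 u) ((π i).P 1 u) ((π i).Θ 1 u) 0 := by
    intro u
    obtain ⟨c1, c2, c3⟩ := hπ.const s hs u
    unfold Comb.vp
    rw [c1, c2, c3, hY]
  have hback : ∀ x p θ, FoldSet sh x p θ → c.vpt q v i (w i) x p θ 0 ∈ c.slice w π s q v := by
    intro x p θ h
    obtain ⟨u, hu, rfl, rfl, rfl⟩ := (hπ.late x p θ).2 h
    right
    exact ⟨i, u, hu, (hvp u).symm⟩
  have hother : ∀ k, k ≠ i → ∀ u, c.vp w π s q v k u = c'.vp w' (c'.sp sh) 0 q' v' (ιV k) u := by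
    intro k hk u
    unfold Comb.vp Comb.sp
    rw [hst k hk, H.ty k hk, S.hw k hk, FEQ.old_vpt H hw S hk]
    cases c.ty k <;> rfl
  ext r
  constructor
  · rintro (⟨d, x, hx, rfl⟩ | ⟨k, u, hu, rfl⟩)
    · left
      exact ⟨ιE d, x, FEQ.rg_old H hw S d hx, (FEQ.old_ept H hw S d x).symm⟩
    · by_cases hk : k = i
      · rw [hk, hvp]
        exact FEQ.fold_mem H hw S sh ((hπ.late _ _ _).1 ⟨u, hu, rfl, rfl, rfl⟩)
      · right
        exact ⟨ιV k, u, hu, hother k hk u⟩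
  · rintro (⟨d', x, hx, rfl⟩ | ⟨k', u, hu, rfl⟩)
    · rcases H.covE d' with rfl | ⟨d, rfl⟩
      · rw [FEQ.rg_new H S] at hx
        have hxx : q.1 i + w i * ((x - q.1 i) / w i) = x := by
          field_simp
          ring
        have := FEQ.part3 H hw S ((x - q.1 i) / w i)
        rw [hxx] at this
        rw [← this]
        apply hback
        right; right; left
        refine ⟨?_, ?_, rfl, rfl⟩
        · rw [le_div_iff₀ hwi]; linarith
        · rw [div_le_iff₀ hwi]; linarith only [hx]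
      · rw [FEQ.old_ept H hw S]
        by_cases h1 : d = c.ea i
        · subst h1
          rw [FEQ.rg_ea H S] at hx
          rcases le_or_gt x (q.1 i - 2 * w i) with hc | hc
          · left
            refine ⟨c.ea i, x, ⟨hx.1, ?_⟩, rfl⟩
            rw [FEQ.rt_ea H]
            exact hc
          · have hxx : q.1 i + w i * ((x - q.1 i) / w i) = x := by
              field_simp
              ring
            have := FEQ.part1 (c := c) (q := q) (v := v) (w := w) (i := i) ((x - q.1 i) / w i)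
            rw [hxx] at this
            rw [← this]
            apply hback
            left
            refine ⟨?_, ?_, rfl, rfl⟩
            · rw [le_div_iff₀ hwi]; linarith
            · rw [div_le_iff₀ hwi]; linarith only [hx]
        · by_cases h2 : d = c.eb i
          · subst h2
            rw [FEQ.rg_eb H S] at hx
            rcases le_or_gt (q.1 i + 2 * w i) x with hc | hc
            · left
              refine ⟨c.eb i, x, ⟨?_, hx.2⟩, rfl⟩
              rw [FEQ.lf_eb H]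
              exact hc
            · have hxx : q.1 i + w i * ((x - q.1 i) / w i) = x := by
                field_simp
                ring
              have := FEQ.part5 H hw S ((x - q.1 i) / w i)
              rw [hxx] at this
              rw [← this]
              apply hback
              right; right; right; right
              refine ⟨?_, ?_, rfl, rfl⟩
              · rw [le_div_iff₀ hwi]; linarith
              · rw [div_le_iff₀ hwi]; linarith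
          · rw [FEQ.rg_other H S h1 h2] at hx
            left
            exact ⟨d, x, hx, rfl⟩
    · rcases H.covV k' with rfl | ⟨k, rfl⟩
      · rw [← FEQ.part4 H hw S sh u _ rfl]
        apply hback
        right; right; right; left
        exact ⟨u, hu, rfl, rfl, rfl⟩
      · by_cases hk : k = i
        · subst hk
          rw [← FEQ.part2 H hw S sh u]
          apply hback
          right; left
          exact ⟨u, hu, rfl, rfl, rfl⟩
        · rw [← hother k hk u]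
          right
          exact ⟨k, u, hu, rfl⟩

end LCA


end

section

/-!
# Module FLD: the fold transition
-/

namespace LCA

open Set Filter
open scoped ContDiff Topology

namespace FLD

/-! ### linear paths -/

lemma lin_fst {n : ℕ} (Q V : St n) (t s : ℝ) (k : Fin n) :
    (lin Q V t s).1 k = Q.1 k + (s - t) * V.1 k := by
  simp [lin]

lemma lin_snd {n : ℕ} (Q V : St n) (t s : ℝ) (k : Fin n) :
    (lin Q V t s).2 k = Q.2 k + (s - t) * V.2 k := by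
  simp [lin]

lemma lin_lin {n : ℕ} (Q V : St n) (t t' s : ℝ) : lin (lin Q V t t') V t' s = lin Q V t s := by
  unfold lin
  rw [add_assoc, ← add_smul]
  congr 2
  ring

lemma deriv_lin {n : ℕ} (Q V : St n) (t s : ℝ) : deriv (lin Q V t) s = V := by
  have h : HasDerivAt (fun r : ℝ => Q + (r - t) • V) ((1 : ℝ) • V) s :=
    (((hasDerivAt_id s).sub_const t).smul_const V).const_add Q
  have h' := h.deriv
  rw [one_smul] at h'
  exact h'

/-! ### slices -/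

lemma slice_congr {m n : ℕ} (c : Comb m n) (w : Fin n → ℝ) (π π' : Fin n → Prof) (s s' : ℝ)
    (q v : St n) (h : ∀ k u, (π k).X s u = (π' k).X s' u ∧ (π k).P s u = (π' k).P s' u ∧
      (π k).Θ s u = (π' k).Θ s' u ∧ (π k).Y s u = (π' k).Y s' u) :
    c.slice w π s q v = c.slice w π' s' q v := by
  have hv : ∀ k u, c.vp w π s q v k u = c.vp w π' s' q v k u := by
    intro k u
    obtain ⟨h1, h2, h3, h4⟩ := h k u
    unfold Comb.vp
    rw [h1, h2, h3, h4]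
  unfold Comb.slice
  ext r
  simp only [mem_ofPred_eq]
  simp only [hv]

/-! ### reparametrized profiles -/

/-- The profile with the time `a s + b`. -/
def tp (π : Prof) (a b : ℝ) : Prof where
  X s u := π.X (a * s + b) u
  P s u := π.P (a * s + b) u
  Θ s u := π.Θ (a * s + b) u
  Y s u := a * π.Y (a * s + b) u

lemma smooth_comp (f : ℝ → ℝ → ℝ) (a b : ℝ)
    (h : ContDiff ℝ ∞ (fun p : ℝ × ℝ => f p.1 p.2)) :
    ContDiff ℝ ∞ (fun p : ℝ × ℝ => f (a * p.1 + b) p.2) := by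
  have hg : ContDiff ℝ ∞ (fun p : ℝ × ℝ => (a * p.1 + b, p.2)) :=
    ((contDiff_const.mul contDiff_fst).add contDiff_const).prodMk contDiff_snd
  exact h.comp hg

lemma deriv_time (f : ℝ → ℝ → ℝ) (a b : ℝ)
    (h : ContDiff ℝ ∞ (fun p : ℝ × ℝ => f p.1 p.2)) (s u : ℝ) :
    deriv (fun r => f (a * r + b) u) s = a * deriv (fun r => f r u) (a * s + b) := by
  have hf : Differentiable ℝ (fun r => f r u) := by
    have h1 : ContDiff ℝ ∞ (fun r : ℝ => (r, u)) := contDiff_id.prodMk contDiff_const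
    have h2 : ContDiff ℝ ∞ (fun r : ℝ => f r u) := h.comp h1
    exact h2.differentiable (by simp)
  have h1 : HasDerivAt (fun r : ℝ => a * r + b) a s := by
    simpa using ((hasDerivAt_id s).const_mul a).add_const b
  have h2 : HasDerivAt (fun r => f r u) (deriv (fun r => f r u) (a * s + b)) (a * s + b) :=
    (hf _).hasDerivAt
  have h3 := (HasDerivAt.comp s h2 h1).deriv
  rw [mul_comm] at h3
  exact h3

section prof

variable {sh : Shape} {π : Prof}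

lemma okU (hπ : FoldProf sh π) : ProfOK univ .P (fun _ => 1) π :=
  hπ.ok univ (fun _ => 1) isOpen_univ (fun _ _ => one_ne_zero)

lemma smU {f : ℝ × ℝ → ℝ} (h : ContDiffOn ℝ ∞ f ((univ : Set ℝ) ×ˢ (univ : Set ℝ))) :
    ContDiff ℝ ∞ f := by
  rw [univ_prod_univ, contDiffOn_univ] at h
  exact h

lemma tp_ok (hπ : FoldProf sh π) (a b : ℝ) (ha : |a| = 1) (J : Set ℝ) (D : ℝ → ℝ)
    (hD : ∀ s ∈ J, D s ≠ 0) : ProfOK J .P D (tp π a b) := by
  have H := okU hπ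
  have sX := smU H.X_smooth
  have sP := smU H.P_smooth
  have sΘ := smU H.Θ_smooth
  refine ⟨(smooth_comp π.X a b sX).contDiffOn, (smooth_comp π.P a b sP).contDiffOn,
    (smooth_comp π.Θ a b sΘ).contDiffOn, ?_, ?_, ?_, ?_, ?_⟩
  · intro s _ u
    exact H.dΘ (a * s + b) (mem_univ _) u
  · intro s _ u
    change a * π.Y (a * s + b) u = deriv (fun r => π.Θ (a * r + b) u) s
      - π.P (a * s + b) u * deriv (fun r => π.X (a * r + b) u) s
    rw [deriv_time π.Θ a b sΘ, deriv_time π.X a b sX, H.Y_eq (a * s + b) (mem_univ _) u]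
    ring
  · intro s _
    have B := H.bd (a * s + b) (mem_univ _)
    refine ⟨B.low, B.high, B.X_bd, B.P_mem, B.Θ_bd, ?_⟩
    intro u hu
    change |a * π.Y (a * s + b) u| ≤ CY
    rw [abs_mul, ha, one_mul]
    exact B.Y_bd u hu
  · intro s hs u hu
    rcases H.imm (a * s + b) (mem_univ _) u hu with h | h
    · exact Or.inl h
    · right
      rw [one_mul] at h
      exact mul_ne_zero (hD s hs) h
  · intro s hs u u' hu hu' hX hP
    apply H.inj (a * s + b) (mem_univ _) u u' hu hu' hX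
    have := mul_left_cancel₀ (hD s hs) hP
    change π.P (a * s + b) u = π.P (a * s + b) u' at this
    change (1 : ℝ) * π.P (a * s + b) u = 1 * π.P (a * s + b) u'
    rw [this]

lemma Y_early (hπ : FoldProf sh π) (s : ℝ) (hs : s < -(1 / 4 : ℝ)) (u : ℝ) : π.Y s u = 0 := by
  have H := okU hπ
  rw [H.Y_eq s (mem_univ _) u]
  have e1 : (fun r => π.Θ r u) =ᶠ[𝓝 s] fun _ => sh.ΘP u := by
    filter_upwards [Iio_mem_nhds hs] with r hr
    exact (hπ.early r (le_of_lt hr) u).2.2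
  have e2 : (fun r => π.X r u) =ᶠ[𝓝 s] fun _ => u := by
    filter_upwards [Iio_mem_nhds hs] with r hr
    exact (hπ.early r (le_of_lt hr) u).1
  rw [e1.deriv_eq, e2.deriv_eq]
  simp

lemma Y_late (hπ : FoldProf sh π) (s : ℝ) (hs : (1 / 4 : ℝ) < s) (u : ℝ) : π.Y s u = 0 := by
  have H := okU hπ
  rw [H.Y_eq s (mem_univ _) u]
  have e1 : (fun r => π.Θ r u) =ᶠ[𝓝 s] fun _ => π.Θ 1 u := by
    filter_upwards [Ioi_mem_nhds hs] with r hr
    exact (hπ.const r (le_of_lt hr) u).2.2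
  have e2 : (fun r => π.X r u) =ᶠ[𝓝 s] fun _ => π.X 1 u := by
    filter_upwards [Ioi_mem_nhds hs] with r hr
    exact (hπ.const r (le_of_lt hr) u).1
  rw [e1.deriv_eq, e2.deriv_eq]
  simp

end prof

/-! ### a neighbourhood of the time interval -/

lemma contAt_pe {m n : ℕ} (c : Comb m n) (Q V : St n) (t s : ℝ) (e : Fin m)
    (h : (lin Q V t s).1 (c.rt e) - (lin Q V t s).1 (c.lf e) ≠ 0) :
    ContinuousAt (fun r => c.pe (lin Q V t r) e) s := by
  unfold Comb.pe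
  simp only [lin_fst, lin_snd] at h ⊢
  apply ContinuousAt.div
  · fun_prop
  · fun_prop
  · exact h

lemma contAt_dl {m n : ℕ} (c : Comb m n) (Q V : St n) (t s : ℝ) (k : Fin n)
    (h : ∀ e, (lin Q V t s).1 (c.rt e) - (lin Q V t s).1 (c.lf e) ≠ 0) :
    ContinuousAt (fun r => c.dl (lin Q V t r) k) s := by
  unfold Comb.dl
  exact (contAt_pe c Q V t s _ (h _)).sub (contAt_pe c Q V t s _ (h _))

/-- The conditions which are needed near the time interval. -/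
def US {m n : ℕ} (c : Comb m n) (w : Fin n → ℝ) (i : Fin n) (Q V : St n) (t : ℝ) : Set ℝ :=
  {s | (∀ d, 2 * (w (c.lf d) + w (c.rt d)) <
        (lin Q V t s).1 (c.rt d) - (lin Q V t s).1 (c.lf d)) ∧
      (∀ k, c.ty k ≠ .P → c.dl (lin Q V t s) k ≠ 0) ∧ c.dl (lin Q V t s) i ≠ 0}

lemma US_nhds {m n : ℕ} (c : Comb m n) (w : Fin n → ℝ) (i : Fin n) (Q V : St n) (t s : ℝ)
    (hw : ∀ i, 0 < w i) (hs : s ∈ US c w i Q V t) : US c w i Q V t ∈ 𝓝 s := by
  obtain ⟨h1, h2, h3⟩ := hs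
  have hne : ∀ e, (lin Q V t s).1 (c.rt e) - (lin Q V t s).1 (c.lf e) ≠ 0 := by
    intro e
    have := h1 e
    have h4 := hw (c.lf e)
    have h5 := hw (c.rt e)
    have : 0 < (lin Q V t s).1 (c.rt e) - (lin Q V t s).1 (c.lf e) := by linarith
    exact ne_of_gt this
  have g1 : ∀ᶠ r in 𝓝 s, ∀ d, 2 * (w (c.lf d) + w (c.rt d)) <
        (lin Q V t r).1 (c.rt d) - (lin Q V t r).1 (c.lf d) := by
    rw [eventually_all]
    intro d
    have hc : ContinuousAt (fun r => (lin Q V t r).1 (c.rt d) - (lin Q V t r).1 (c.lf d)) s := by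
      simp only [lin_fst]
      fun_prop
    exact hc.eventually (lt_mem_nhds (h1 d))
  have g2 : ∀ᶠ r in 𝓝 s, ∀ k, c.ty k ≠ .P → c.dl (lin Q V t r) k ≠ 0 := by
    rw [eventually_all]
    intro k
    by_cases hk : c.ty k = .P
    · exact Eventually.of_forall fun r h => absurd hk h
    · have := (contAt_dl c Q V t s k hne).eventually_ne (h2 k hk)
      filter_upwards [this] with r hr _
      exact hr
  have g3 : ∀ᶠ r in 𝓝 s, c.dl (lin Q V t r) i ≠ 0 :=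
    (contAt_dl c Q V t s i hne).eventually_ne h3
  filter_upwards [g1, g2, g3] with r r1 r2 r3
  exact ⟨r1, r2, r3⟩

lemma exists_eps (U : Set ℝ) (t : ℝ) (h : ∀ s ∈ Icc t (t + 1), U ∈ 𝓝 s) :
    ∃ ε > 0, ε ≤ 1 / 4 ∧ Ioo (t - ε) (t + 1 + ε) ⊆ U := by
  have hsub : Icc t (t + 1) ⊆ interior U := fun s hs => mem_interior_iff_mem_nhds.2 (h s hs)
  obtain ⟨δ, hδ, hth⟩ := isCompact_Icc.exists_thickening_subset_open isOpen_interior hsub
  refine ⟨min δ (1 / 4), by positivity, min_le_right _ _, ?_⟩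
  intro s hs
  apply interior_subset
  apply hth
  have hd : min δ (1 / 4) ≤ δ := min_le_left _ _
  have hs1 : t - δ < s := by linarith [hs.1]
  have hs2 : s < t + 1 + δ := by linarith [hs.2]
  rw [Metric.mem_thickening_iff]
  rcases le_total s t with c1 | c1
  · refine ⟨t, ⟨le_rfl, by linarith⟩, ?_⟩
    rw [Real.dist_eq, abs_lt]
    constructor <;> linarith
  · rcases le_total s (t + 1) with c2 | c2
    · refine ⟨s, ⟨c1, c2⟩, ?_⟩
      rw [dist_self]
      exact hδ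
    · refine ⟨t + 1, ⟨by linarith, le_rfl⟩, ?_⟩
      rw [Real.dist_eq, abs_lt]
      constructor <;> linarith

end FLD

open _root_.LCA.FLD in
theorem t_FLD (hFPR : Stmt_FPR) (hFEQ : Stmt_FEQ) (hMVP : Stmt_MVP) (hATR : Stmt_ATR)
    (hPST : Stmt_PST) : Stmt_FLD := by
  intro m n m' n' K sh c c' ιE ιV i e j w w' Q V Q' V' t hC hw hcert hdl hst
  obtain ⟨π₀, hπ⟩ := hFPR sh
  -- the neighbourhood
  obtain ⟨ε, hε, hε4, hU⟩ := exists_eps (US c w i Q V t) t (fun s hs =>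
    US_nhds c w i Q V t s hw ⟨(hcert s hs).len, (hcert s hs).tip, hdl s hs⟩)
  -- the moving profiles
  have hprof : ∀ a b : ℝ, |a| = 1 → ∀ k, ProfOK (Ioo (t - ε) (t + 1 + ε)) (c.ty k)
      (fun s => c.dl (lin Q V t s) k) (if k = i then tp π₀ a b else sh.st (c.ty k)) := by
    intro a b ha k
    by_cases hk : k = i
    · rw [if_pos hk, hk, hC.tyi]
      exact tp_ok hπ a b ha _ _ (fun s hs => (hU hs).2.2)
    · rw [if_neg hk]
      exact hPST sh _ _ _ (fun s hs h => (hU hs).2.1 k h)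
  -- the slices of the static polygon
  have hstat : ∀ a b s : ℝ, a * s + b < -(1 / 4 : ℝ) → ∀ q v : St n,
      c.slice w (fun k => if k = i then tp π₀ a b else sh.st (c.ty k)) s q v
        = c.slice w (c.sp sh) s q v := by
    intro a b s hs q v
    apply slice_congr
    intro k u
    by_cases hk : k = i
    · subst hk
      simp only [if_true, Comb.sp, hC.tyi]
      obtain ⟨h1, h2, h3⟩ := hπ.early (a * s + b) hs.le u
      refine ⟨h1, h2, h3, ?_⟩
      change a * π₀.Y (a * s + b) u = 0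
      rw [Y_early hπ _ hs, mul_zero]
    · have e1 : (if k = i then tp π₀ a b else sh.st (c.ty k)) = sh.st (c.ty k) := if_neg hk
      refine ⟨?_, ?_, ?_, ?_⟩ <;> simp only [e1, Comb.sp]
  -- the slices of the folded polygon
  have hfold : ∀ a b s : ℝ, (1 / 4 : ℝ) < a * s + b → s ∈ Ioo (t - ε) (t + 1 + ε) →
      c'.Valid ∧ c.slice w (fun k => if k = i then tp π₀ a b else sh.st (c.ty k)) s
        (lin Q V t s) V = c'.slice w' (c'.sp sh) 0 (lin Q' V' t s) V' := by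
    intro a b s hs hs'
    have hS := hst s (hU hs').1
    have hF := hFEQ sh c c' ιE ιV i e j w w' (lin Q V t s) V (lin Q' V' t s) V'
      (fun k => if k = i then π₀ else sh.st (c.ty k)) (a * s + b) hC hw hS
      (by simpa using hπ) hs.le
      (by
        intro u
        simp only [if_true]
        exact Y_late hπ _ hs u)
      (by
        intro k hk
        simp only [if_neg hk])
    refine ⟨hF.1, ?_⟩
    rw [← hF.2]
    apply slice_congr
    intro k u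
    by_cases hk : k = i
    · subst hk
      simp only [if_true]
      refine ⟨rfl, rfl, rfl, ?_⟩
      change a * π₀.Y (a * s + b) u = π₀.Y (a * s + b) u
      rw [Y_late hπ _ hs, mul_zero]
    · have e1 : (if k = i then tp π₀ a b else sh.st (c.ty k)) = sh.st (c.ty k) := if_neg hk
      have e2 : (if k = i then π₀ else sh.st (c.ty k)) = sh.st (c.ty k) := if_neg hk
      simp only [e1, e2]
      exact ⟨rfl, rfl, rfl, rfl⟩
  have hstat0' : ∀ s : ℝ, ∀ q v : St n',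
      c'.slice w' (c'.sp sh) s q v = c'.slice w' (c'.sp sh) 0 q v :=
    fun s q v => slice_congr c' w' _ _ _ _ q v (fun k u => ⟨rfl, rfl, rfl, rfl⟩)
  constructor
  · intro hAt
    obtain ⟨ε', hε', hle, hG, hD⟩ := hMVP c w Q V t ε
      (fun k => if k = i then tp π₀ 1 (-(t + 1 / 2)) else sh.st (c.ty k))
      hC.valid hw hε hcert (hprof 1 _ (by simp))
    refine hATR K sh c w Q V t c' w' _ V' (t + 1) ε' _ (by linarith) hε' hAt hG hD ?_ ?_
    · intro r hr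
      unfold Comb.surf
      simp only [mem_ofPred_eq]
      rw [hstat 1 (-(t + 1 / 2)) r.1 (by linarith [hr.2])]
    · intro r hr
      unfold Comb.surf
      simp only [mem_ofPred_eq]
      have hh := (hfold 1 (-(t + 1 / 2)) r.1 (by linarith [hr.1])
        ⟨by linarith [hr.1], by linarith [hr.2]⟩).2
      have hl : lin (lin Q' V' t (t + 1)) V' (t + 1) = lin Q' V' t := by
        funext s
        exact lin_lin Q' V' t (t + 1) s
      rw [hl, deriv_lin, deriv_lin, hh, hstat0' r.1]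
  · intro hAt
    obtain ⟨ε', hε', hle, hG, hD⟩ := hMVP c w Q V t ε
      (fun k => if k = i then tp π₀ (-1) (t + 1 / 2) else sh.st (c.ty k))
      hC.valid hw hε hcert (hprof (-1) _ (by simp))
    refine hATR K sh c' w' Q' V' t c w _ V (t + 1) ε' _ (by linarith) hε' hAt hG hD ?_ ?_
    · intro r hr
      unfold Comb.surf
      simp only [mem_ofPred_eq]
      have hh := (hfold (-1) (t + 1 / 2) r.1 (by linarith [hr.2])
        ⟨by linarith [hr.1], by linarith [hr.2]⟩).2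
      rw [deriv_lin, deriv_lin, hh, hstat0' r.1]
    · intro r hr
      unfold Comb.surf
      simp only [mem_ofPred_eq]
      have hl : lin (lin Q V t (t + 1)) V (t + 1) = lin Q V t := by
        funext s
        exact lin_lin Q V t (t + 1) s
      rw [hl, hstat (-1) (t + 1 / 2) r.1 (by linarith [hr.1])]

end LCA


end

section

/-!
# Part A: integer data and the checker

A state of a moving front polygon is given by integers; `stOK` checks that the data are consistent,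
`goOK` checks a linear motion together with the change of the velocities at its beginning. The
functions are written with recursors, so that the kernel evaluates them fast.
-/

namespace LCA

noncomputable section

/-! ### Booleans, integers, lists -/

/-- `a && b`, lazily. -/
def bnd (a b : Bool) : Bool := Bool.rec false b a

/-- `a || b`, lazily. -/
def bor (a b : Bool) : Bool := Bool.rec b true a

/-- `a < b` for integers. -/
def ilt (a b : ℤ) : Bool :=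
  Int.rec (fun i => Int.rec (fun j => Nat.ble (Nat.succ i) j) (fun _ => false) b)
    (fun i => Int.rec (fun _ => true) (fun j => Nat.ble (Nat.succ j) i) b) a

/-- `a = b` for integers. -/
def ieq (a b : ℤ) : Bool :=
  Int.rec (fun i => Int.rec (fun j => Nat.beq i j) (fun _ => false) b)
    (fun i => Int.rec (fun _ => false) (fun j => Nat.beq i j) b) a

/-- The maximum. -/
def imax (a b : ℤ) : ℤ := Bool.rec a b (ilt a b)

/-- The minimum. -/
def imin (a b : ℤ) : ℤ := Bool.rec b a (ilt a b)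

/-- The absolute value. -/
def iabs (a : ℤ) : ℤ := Int.rec (fun i => Int.ofNat i) (fun i => Int.ofNat (Nat.succ i)) a

/-- All members of the list have the property. -/
def allL {α : Type} (p : α → Bool) (l : List α) : Bool :=
  List.rec true (fun a _ ih => bnd (p a) ih) l

/-- All members of the list have the property, which depends on the index; the first index is
`k`. -/
def allI {α : Type} (p : ℕ → α → Bool) (l : List α) : ℕ → Bool :=
  List.rec (fun _ => true) (fun a _ ih k => bnd (p k a) (ih (Nat.succ k))) l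

/-- The property holds for the corresponding members of the lists. -/
def all2 {α β : Type} (p : α → β → Bool) (l : List α) : List β → Bool :=
  List.rec (fun _ => true)
    (fun a _ ih l' => List.rec true (fun b t _ => bnd (p a b) (ih t)) l') l

/-- The same with an index. -/
def all2I {α β : Type} (p : ℕ → α → β → Bool) (l : List α) : List β → ℕ → Bool :=
  List.rec (fun _ _ => true)
    (fun a _ ih l' k => List.rec true (fun b t _ => bnd (p k a b) (ih t (Nat.succ k))) l') l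

/-- The property holds for all pairs of members. -/
def prs2 {α β : Type} (p : α → β → α → β → Bool) (l : List α) : List β → Bool :=
  List.rec (fun _ => true)
    (fun a t ih l' => List.rec true (fun b t' _ => bnd (all2 (p a b) t t') (ih t')) l') l

/-- The member with the index `i`. -/
def lkp {α : Type} (d : α) (l : List α) : ℕ → α :=
  List.rec (fun _ => d) (fun a _ ih i => Nat.rec a (fun k _ => ih k) i) l

/-- The length of the list. -/
def len {α : Type} (l : List α) : ℕ := List.rec 0 (fun _ _ ih => Nat.succ ih) l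

/-! ### data -/

/-- The data of a vertex. `ty` is `0`, `1`, `2` for a pass, a right tip, a left tip; `ea`, `eb` the
edges; `w` the width; `x`, `F` the position; `dx`, `dF` the velocity; `jl = x - 2 w`, `jr = x + 2 w`;
`pa`, `pb` the slopes of the edges, `lo`, `hi` their minimum and maximum;
`er = 2 |dpa| + 2 |dpb - dpa|`. -/
structure VS where
  ty : ℕ
  ea : ℕ
  eb : ℕ
  w : ℤ
  x : ℤ
  F : ℤ
  dx : ℤ
  dF : ℤ
  jl : ℤ
  jr : ℤ
  pa : ℤ
  pb : ℤ
  lo : ℤ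
  hi : ℤ
  er : ℤ

/-- The data of an edge. `lf`, `rt` are the ends; `xl`, `xr` their positions; `il = xl + 2 w`,
`ir = xr - 2 w`; `p` the slope, `dp` its derivative, `da` the derivative of `a`, where the line is
`F = p x + a`. -/
structure ES where
  lf : ℕ
  rt : ℕ
  xl : ℤ
  xr : ℤ
  il : ℤ
  ir : ℤ
  p : ℤ
  dp : ℤ
  da : ℤ

/-- A default value. -/
def vs0 : VS := ⟨0, 0, 0, 0, 0, 0, 0, 0, 0, 0, 0, 0, 0, 0, 0⟩

/-- A default value. -/
def es0 : ES := ⟨0, 0, 0, 0, 0, 0, 0, 0, 0⟩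

/-- The data of a state. -/
structure SD where
  vs : List VS
  es : List ES

/-- The vertex with the index `i`. -/
def SD.v (S : SD) (i : ℕ) : VS := lkp vs0 S.vs i

/-- The edge with the index `e`. -/
def SD.e (S : SD) (e : ℕ) : ES := lkp es0 S.es e

/-- The type of a vertex. -/
def tyOf (k : ℕ) : Ty := Nat.rec .P (fun k _ => Nat.rec .R (fun _ _ => .L) k) k

/-- The combinatorics of a state with `m + 1` edges and `n + 1` vertices. -/
def SD.cb (m n : ℕ) (S : SD) : Comb (m + 1) (n + 1) where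
  lf e := Fin.ofNat (n + 1) (S.e e).lf
  rt e := Fin.ofNat (n + 1) (S.e e).rt
  ty i := tyOf (S.v i).ty
  ea i := Fin.ofNat (m + 1) (S.v i).ea
  eb i := Fin.ofNat (m + 1) (S.v i).eb

/-- The widths. -/
def SD.W (n : ℕ) (S : SD) : Fin (n + 1) → ℝ := fun i => ((S.v i).w : ℝ)

/-- The positions. -/
def SD.Q (n : ℕ) (S : SD) : St (n + 1) := (fun i => ((S.v i).x : ℝ), fun i => ((S.v i).F : ℝ))

/-- The velocities. -/
def SD.V (n : ℕ) (S : SD) : St (n + 1) := (fun i => ((S.v i).dx : ℝ), fun i => ((S.v i).dF : ℝ))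

/-- The state of the data `S` is reached at the time `t`. -/
def AtD (K : Set LC.R3) (sh : Shape) (m n : ℕ) (S : SD) (t : ℤ) : Prop :=
  At K sh (S.cb m n) (S.W n) (S.Q n) (S.V n) (t : ℝ)

/-! ### consistency of the data -/

/-- Consistency of an edge: `a`, `b` are the data of its ends; `k` is its index. -/
def okE (n k : ℕ) (f : ES) (a b : VS) : Bool :=
  bnd (Nat.ble (Nat.succ f.lf) (Nat.succ n)) <| bnd (Nat.ble (Nat.succ f.rt) (Nat.succ n)) <|
  bnd (ieq f.xl a.x) <| bnd (ieq f.xr b.x) <|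
  bnd (ieq f.il a.jr) <| bnd (ieq f.ir b.jl) <|
  bnd (ilt f.il f.ir) <|
  bnd (ieq (Int.mul f.p (Int.sub f.xr f.xl)) (Int.sub b.F a.F)) <|
  bnd (ieq (Int.mul f.dp (Int.sub f.xr f.xl))
    (Int.sub (Int.sub b.dF a.dF) (Int.mul f.p (Int.sub b.dx a.dx)))) <|
  bnd (ieq f.da (Int.sub (Int.sub a.dF (Int.mul f.dp f.xl)) (Int.mul f.p a.dx))) <|
  bnd (ieq (Int.mul f.dp a.dx) 0) <| bnd (ieq (Int.mul f.dp b.dx) 0) <|
  -- the right end
  bnd (bor (bnd (bor (Nat.beq b.ty 0) (Nat.beq b.ty 1)) (Nat.beq b.ea k))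
    (bnd (Nat.beq b.ty 1) (Nat.beq b.eb k))) <|
  -- the left end
  bor (bnd (Nat.beq a.ty 2) (Nat.beq a.ea k))
    (bnd (bor (Nat.beq a.ty 0) (Nat.beq a.ty 2)) (Nat.beq a.eb k))

/-- Consistency of a vertex: `f`, `g` are the data of its edges; `k` is its index. -/
def okV (m k : ℕ) (a : VS) (f g : ES) : Bool :=
  bnd (Nat.ble (Nat.succ a.ea) (Nat.succ m)) <| bnd (Nat.ble (Nat.succ a.eb) (Nat.succ m)) <|
  bnd (bor (Nat.beq a.ty 0) (bor (Nat.beq a.ty 1) (Nat.beq a.ty 2))) <|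
  bnd (ilt 0 a.w) <|
  bnd (ieq a.jl (Int.sub a.x (Int.mul 2 a.w))) <| bnd (ieq a.jr (Int.add a.x (Int.mul 2 a.w))) <|
  bnd (ieq a.pa f.p) <| bnd (ieq a.pb g.p) <|
  bnd (ieq a.lo (imin a.pa a.pb)) <| bnd (ieq a.hi (imax a.pa a.pb)) <|
  bnd (ieq a.er (Int.add (Int.mul 2 (iabs f.dp)) (Int.mul 2 (iabs (Int.sub g.dp f.dp))))) <|
  bnd (bor (Nat.beq a.ty 0) (ilt a.lo a.hi)) <|
  bnd (Bool.rec true false (Nat.beq a.ea a.eb)) <|
  -- the edge `ea`
  bnd (bor (bnd (bor (Nat.beq a.ty 0) (Nat.beq a.ty 1)) (Nat.beq f.rt k))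
    (bnd (Nat.beq a.ty 2) (Nat.beq f.lf k))) <|
  -- the edge `eb`
  bor (bnd (bor (Nat.beq a.ty 0) (Nat.beq a.ty 2)) (Nat.beq g.lf k))
    (bnd (Nat.beq a.ty 1) (Nat.beq g.rt k))

/-- Consistency of a state with `m + 1` edges and `n + 1` vertices. -/
def stOK (m n : ℕ) (S : SD) : Bool :=
  bnd (Nat.beq (len S.es) (Nat.succ m)) <| bnd (Nat.beq (len S.vs) (Nat.succ n)) <|
  bnd (allI (fun k f => okE n k f (S.v f.lf) (S.v f.rt)) S.es 0) <|
  allI (fun k a => okV m k a (S.e a.ea) (S.e a.eb)) S.vs 0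

/-! ### linear motions -/

/-- Positional separation of two edges. -/
def posEE (f f' : ES) : Bool :=
  bor (ilt f.ir f'.il) <| bor (ilt f'.ir f.il) <| bor (ilt f.p f'.p) (ilt f'.p f.p)

/-- Positional separation of two vertices. -/
def posVV (a a' : VS) : Bool :=
  bor (ilt a.jr a'.jl) <| bor (ilt a'.jr a.jl) <| bor (ilt a.hi a'.lo) (ilt a'.hi a.lo)

/-- Positional separation of a vertex and an edge. -/
def posVE (a : VS) (f : ES) : Bool :=
  bor (ilt a.jr f.il) <| bor (ilt f.ir a.jl) <| bor (ilt f.p a.lo) (ilt a.hi f.p)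

/-- The value at `x` of the difference of `z` on two edges. -/
def dEE (f f' : ES) (x : ℤ) : ℤ :=
  Int.add (Int.mul (Int.sub f.dp f'.dp) x) (Int.sub f.da f'.da)

/-- The value at `p` of the difference of `z` on two verticals. -/
def dVV (a a' : VS) (p : ℤ) : ℤ :=
  Int.sub (Int.sub a.dF a'.dF) (Int.mul p (Int.sub a.dx a'.dx))

/-- The difference of `z` on the vertical of `a` and on the edge `f`; here `x` is the position of
the vertical and `p` the slope of the edge. -/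
def dVE (a : VS) (f : ES) (x p : ℤ) : ℤ :=
  Int.sub (Int.sub a.dF (Int.mul p a.dx)) (Int.add (Int.mul f.dp x) f.da)

/-- The bound of the error at a vertex; `l` is the bound for the difference of the slopes. -/
def erV (a : VS) (l : ℤ) : ℤ := Int.mul a.w (Int.add a.er (Int.mul 1000 l))

/-- Both numbers are positive and the condition holds, or both numbers are negative and the other
condition holds. -/
def sgn2 (d d' : ℤ) (cp cn : Bool) : Bool :=
  bor (bnd (ilt 0 d) (bnd (ilt 0 d') cp)) (bnd (ilt d 0) (bnd (ilt d' 0) cn))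

/-- Both numbers are larger than `E` and the condition holds, or both numbers are smaller than `-E`
and the other condition holds. -/
def sgn3 (E d d' : ℤ) (cp cn : Bool) : Bool :=
  bor (bnd (ilt E d) (bnd (ilt E d') cp))
    (bnd (ilt d (Int.neg E)) (bnd (ilt d' (Int.neg E)) cn))

/-- Two edges with the data `f`, `f'` at the beginning (before the change of the velocities) and
`g`, `g'` at the end. -/
def chEE (f g f' g' : ES) : Bool :=
  bor (bnd (ilt f.ir f'.il) (ilt g.ir g'.il)) <|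
  bor (bnd (ilt f'.ir f.il) (ilt g'.ir g.il)) <|
  bor (bnd (ilt f.p f'.p) (ilt g.p g'.p)) <|
  bor (bnd (ilt f'.p f.p) (ilt g'.p g.p)) <|
  sgn2 (dEE g g' (imax (imin f.xl g.xl) (imin f'.xl g'.xl)))
    (dEE g g' (imin (imax f.xr g.xr) (imax f'.xr g'.xr)))
    (bor (posEE f f') (bnd (ilt 0 (dEE f f' (imax f.xl f'.xl))) (ilt 0 (dEE f f' (imin f.xr f'.xr)))))
    (bor (posEE f f') (bnd (ilt (dEE f f' (imax f.xl f'.xl)) 0) (ilt (dEE f f' (imin f.xr f'.xr)) 0)))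

/-- Two vertices with the data `a`, `a'` at the beginning (before the change of the velocities) and
`b`, `b'` at the end. -/
def chVV (a b a' b' : VS) : Bool :=
  bor (bnd (ilt a.jr a'.jl) (ilt b.jr b'.jl)) <|
  bor (bnd (ilt a'.jr a.jl) (ilt b'.jr b.jl)) <|
  bor (bnd (ilt a.hi a'.lo) (ilt b.hi b'.lo)) <|
  bor (bnd (ilt a'.hi a.lo) (ilt b'.hi b.lo)) <|
  sgn3 (Int.add (erV b (imax (Int.sub a.hi a.lo) (Int.sub b.hi b.lo)))
      (erV b' (imax (Int.sub a'.hi a'.lo) (Int.sub b'.hi b'.lo))))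
    (dVV b b' (imax (imin a.lo b.lo) (imin a'.lo b'.lo)))
    (dVV b b' (imin (imax a.hi b.hi) (imax a'.hi b'.hi)))
    (bor (posVV a a') (bnd
      (ilt (Int.add (erV a (Int.sub a.hi a.lo)) (erV a' (Int.sub a'.hi a'.lo)))
        (dVV a a' (imax a.lo a'.lo)))
      (ilt (Int.add (erV a (Int.sub a.hi a.lo)) (erV a' (Int.sub a'.hi a'.lo)))
        (dVV a a' (imin a.hi a'.hi)))))
    (bor (posVV a a') (bnd
      (ilt (dVV a a' (imax a.lo a'.lo))
        (Int.neg (Int.add (erV a (Int.sub a.hi a.lo)) (erV a' (Int.sub a'.hi a'.lo)))))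
      (ilt (dVV a a' (imin a.hi a'.hi))
        (Int.neg (Int.add (erV a (Int.sub a.hi a.lo)) (erV a' (Int.sub a'.hi a'.lo)))))))

/-- A vertex with the data `a` at the beginning (before the change of the velocities) and `b` at the
end and the edge with the index `k` and the data `f`, `g`. -/
def chVE (a b : VS) (k : ℕ) (f g : ES) : Bool :=
  bor (bnd (ilt a.jr f.il) (ilt b.jr g.il)) <|
  bor (bnd (ilt f.ir a.jl) (ilt g.ir b.jl)) <|
  bor (bnd (ilt f.p a.lo) (ilt g.p b.lo)) <|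
  bor (bnd (ilt a.hi f.p) (ilt b.hi g.p)) <|
  bor (Nat.beq a.ea k) <| bor (Nat.beq a.eb k) <|
  sgn3 (Int.add (erV b (imax (Int.sub a.hi a.lo) (Int.sub b.hi b.lo)))
      (Int.mul (Int.mul 2 b.w) (iabs g.dp)))
    (dVE b g a.x f.p) (dVE b g b.x g.p)
    (bor (posVE a f) (ilt (Int.add (erV a (Int.sub a.hi a.lo)) (Int.mul (Int.mul 2 a.w) (iabs f.dp)))
      (dVE a f a.x f.p)))
    (bor (posVE a f) (ilt (dVE a f a.x f.p)
      (Int.neg (Int.add (erV a (Int.sub a.hi a.lo)) (Int.mul (Int.mul 2 a.w) (iabs f.dp))))))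

/-- The same vertex at the beginning and at the end of a motion of duration `T`. -/
def smV (T : ℤ) (a b : VS) : Bool :=
  bnd (Nat.beq a.ty b.ty) <| bnd (Nat.beq a.ea b.ea) <| bnd (Nat.beq a.eb b.eb) <|
  bnd (ieq a.w b.w) <|
  bnd (ieq b.x (Int.add a.x (Int.mul T b.dx))) <|
  bnd (ieq b.F (Int.add a.F (Int.mul T b.dF))) <|
  bor (Nat.beq a.ty 0) <|
  bor (bnd (ilt a.pa a.pb) (ilt b.pa b.pb)) (bnd (ilt a.pb a.pa) (ilt b.pb b.pa))

/-- The same edge. -/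
def smE (f g : ES) : Bool := bnd (Nat.beq f.lf g.lf) (Nat.beq f.rt g.rt)

/-- A change of the velocities and a linear motion of duration `T`: `A` is the state before the
change, `B` is the state at the end of the motion. -/
def goOK (T : ℤ) (A B : SD) : Bool :=
  bnd (ilt 0 T) <| bnd (all2 (smV T) A.vs B.vs) <| bnd (all2 smE A.es B.es) <|
  bnd (prs2 chEE A.es B.es) <| bnd (prs2 chVV A.vs B.vs) <|
  all2 (fun a b => all2I (chVE a b) A.es B.es 0) A.vs B.vs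

end

end LCA


end

section

/-!
# Part A: linear motions with data at the two ends, and the soundness of the checker
-/

namespace LCA

open Set Filter
open scoped ContDiff Topology

variable {m n m' n' : ℕ}

/-! ### linear motions (real numbers) -/

/-- A linear motion of duration `T` from the positions `Q` to the positions `Q'` with the velocities
`V'`: the edges do not degenerate, every edge moves parallel to itself in one of the two
directions. -/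
structure Comb.Lin (c : Comb m n) (T : ℝ) (Q Q' V' : St n) : Prop where
  pos : 0 < T
  move : Q' = Q + T • V'
  len : ∀ e, Q.1 (c.lf e) < Q.1 (c.rt e)
  len' : ∀ e, Q'.1 (c.lf e) < Q'.1 (c.rt e)
  fl : ∀ e, c.dpe Q' V' e * V'.1 (c.lf e) = 0
  fr : ∀ e, c.dpe Q' V' e * V'.1 (c.rt e) = 0

/-- LNP: the slopes during a linear motion. -/
def Stmt_LNP : Prop :=
  ∀ {m n : ℕ} (c : Comb m n) (T : ℝ) (Q Q' V' : St n), c.Lin T Q Q' V' → ∀ e, ∀ s : ℝ,
    (Q + s • V').1 (c.lf e) < (Q + s • V').1 (c.rt e) →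
    c.pe (Q + s • V') e = c.pe Q' e + (s - T) * c.dpe Q' V' e ∧
    c.dpe (Q + s • V') V' e = c.dpe Q' V' e ∧ c.dae (Q + s • V') V' e = c.dae Q' V' e

/-- Two edges: `V` are the velocities before the beginning of the motion. -/
def Comb.LEE (c : Comb m n) (w : Fin n → ℝ) (Q V Q' V' : St n) (e e' : Fin m) : Prop :=
  (Q.1 (c.rt e) - 2 * w (c.rt e) < Q.1 (c.lf e') + 2 * w (c.lf e') ∧
    Q'.1 (c.rt e) - 2 * w (c.rt e) < Q'.1 (c.lf e') + 2 * w (c.lf e')) ∨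
  (Q.1 (c.rt e') - 2 * w (c.rt e') < Q.1 (c.lf e) + 2 * w (c.lf e) ∧
    Q'.1 (c.rt e') - 2 * w (c.rt e') < Q'.1 (c.lf e) + 2 * w (c.lf e)) ∨
  (c.pe Q e < c.pe Q e' ∧ c.pe Q' e < c.pe Q' e') ∨
  (c.pe Q e' < c.pe Q e ∧ c.pe Q' e' < c.pe Q' e) ∨
  ∃ σ : ℝ, |σ| = 1 ∧
    0 < σ * c.Dee Q' V' e e' (max (min (Q.1 (c.lf e)) (Q'.1 (c.lf e)))
      (min (Q.1 (c.lf e')) (Q'.1 (c.lf e')))) ∧
    0 < σ * c.Dee Q' V' e e' (min (max (Q.1 (c.rt e)) (Q'.1 (c.rt e)))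
      (max (Q.1 (c.rt e')) (Q'.1 (c.rt e')))) ∧
    (c.See w Q e e' ∨ c.Zee Q V e e' σ)

/-- The bound for the rounding error during the motion. -/
noncomputable def Comb.erS (c : Comb m n) (w : Fin n → ℝ) (Q Q' V' : St n) (i : Fin n) : ℝ :=
  w i * (2 * |c.dpe Q' V' (c.ea i)| + 2 * |c.dpe Q' V' (c.eb i) - c.dpe Q' V' (c.ea i)|
    + CY * max |c.dl Q i| |c.dl Q' i|)

/-- Two vertices. -/
def Comb.LVV (c : Comb m n) (w : Fin n → ℝ) (Q V Q' V' : St n) (i j : Fin n) : Prop :=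
  (2 * (w i + w j) < Q.1 j - Q.1 i ∧ 2 * (w i + w j) < Q'.1 j - Q'.1 i) ∨
  (2 * (w i + w j) < Q.1 i - Q.1 j ∧ 2 * (w i + w j) < Q'.1 i - Q'.1 j) ∨
  (c.phi Q i < c.plo Q j ∧ c.phi Q' i < c.plo Q' j) ∨
  (c.phi Q j < c.plo Q i ∧ c.phi Q' j < c.plo Q' i) ∨
  ∃ σ : ℝ, |σ| = 1 ∧
    c.erS w Q Q' V' i + c.erS w Q Q' V' j <
      σ * Dvv V' i j (max (min (c.plo Q i) (c.plo Q' i)) (min (c.plo Q j) (c.plo Q' j))) ∧
    c.erS w Q Q' V' i + c.erS w Q Q' V' j <
      σ * Dvv V' i j (min (max (c.phi Q i) (c.phi Q' i)) (max (c.phi Q j) (c.phi Q' j))) ∧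
    (c.Svv w Q i j ∨ c.Zvv w Q V i j σ)

/-- A vertex and an edge. -/
def Comb.LVE (c : Comb m n) (w : Fin n → ℝ) (Q V Q' V' : St n) (i : Fin n) (e : Fin m) : Prop :=
  (Q.1 i + 2 * w i < Q.1 (c.lf e) + 2 * w (c.lf e) ∧
    Q'.1 i + 2 * w i < Q'.1 (c.lf e) + 2 * w (c.lf e)) ∨
  (Q.1 (c.rt e) - 2 * w (c.rt e) < Q.1 i - 2 * w i ∧
    Q'.1 (c.rt e) - 2 * w (c.rt e) < Q'.1 i - 2 * w i) ∨
  (c.pe Q e < c.plo Q i ∧ c.pe Q' e < c.plo Q' i) ∨
  (c.phi Q i < c.pe Q e ∧ c.phi Q' i < c.pe Q' e) ∨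
  ∃ σ : ℝ, |σ| = 1 ∧
    c.erS w Q Q' V' i + 2 * w i * |c.dpe Q' V' e| <
      σ * ((V'.2 i - c.pe Q e * V'.1 i) - (c.dpe Q' V' e * Q.1 i + c.dae Q' V' e)) ∧
    c.erS w Q Q' V' i + 2 * w i * |c.dpe Q' V' e| <
      σ * ((V'.2 i - c.pe Q' e * V'.1 i) - (c.dpe Q' V' e * Q'.1 i + c.dae Q' V' e)) ∧
    (c.Sve w Q i e ∨ c.Zve w Q V i e σ)

/-- SEE: two edges during the motion and at the change of the velocities. -/
def Stmt_SEE : Prop :=
  ∀ {m n : ℕ} (c : Comb m n) (w : Fin n → ℝ) (T : ℝ) (Q V Q' V' : St n) (e e' : Fin m),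
    (∀ i, 0 < w i) → c.Lin T Q Q' V' → e ≠ e' → c.LEE w Q V Q' V' e e' →
    (∀ s ∈ Icc (0 : ℝ) T, c.See w (Q + s • V') e e' ∨
      ∃ σ : ℝ, |σ| = 1 ∧ c.Zee (Q + s • V') V' e e' σ) ∧
    ∀ l ∈ Icc (0 : ℝ) 1, c.See w Q e e' ∨
      ∃ σ : ℝ, |σ| = 1 ∧ c.Zee Q ((1 - l) • V + l • V') e e' σ

/-- SVV: two vertices during the motion and at the change of the velocities. -/
def Stmt_SVV : Prop :=
  ∀ {m n : ℕ} (c : Comb m n) (w : Fin n → ℝ) (T : ℝ) (Q V Q' V' : St n) (i j : Fin n),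
    (∀ i, 0 < w i) → c.Valid → c.Lin T Q Q' V' → i ≠ j → c.LVV w Q V Q' V' i j →
    (∀ s ∈ Icc (0 : ℝ) T, c.Svv w (Q + s • V') i j ∨
      ∃ σ : ℝ, |σ| = 1 ∧ c.Zvv w (Q + s • V') V' i j σ) ∧
    ∀ l ∈ Icc (0 : ℝ) 1, c.Svv w Q i j ∨
      ∃ σ : ℝ, |σ| = 1 ∧ c.Zvv w Q ((1 - l) • V + l • V') i j σ

/-- SVE: a vertex and an edge during the motion and at the change of the velocities. -/
def Stmt_SVE : Prop :=
  ∀ {m n : ℕ} (c : Comb m n) (w : Fin n → ℝ) (T : ℝ) (Q V Q' V' : St n) (i : Fin n) (e : Fin m),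
    (∀ i, 0 < w i) → c.Valid → c.Lin T Q Q' V' → c.LVE w Q V Q' V' i e →
    (∀ s ∈ Icc (0 : ℝ) T, c.Sve w (Q + s • V') i e ∨
      ∃ σ : ℝ, |σ| = 1 ∧ c.Zve w (Q + s • V') V' i e σ) ∧
    ∀ l ∈ Icc (0 : ℝ) 1, c.Sve w Q i e ∨
      ∃ σ : ℝ, |σ| = 1 ∧ c.Zve w Q ((1 - l) • V + l • V') i e σ

/-- All conditions for a change of the velocities from `V` to `V'` and a linear motion. -/
structure Comb.Go (c : Comb m n) (w : Fin n → ℝ) (T : ℝ) (Q V Q' V' : St n) : Prop where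
  valid : c.Valid
  wpos : ∀ i, 0 < w i
  lin : c.Lin T Q Q' V'
  len : ∀ e, 2 * (w (c.lf e) + w (c.rt e)) < Q.1 (c.rt e) - Q.1 (c.lf e)
  len' : ∀ e, 2 * (w (c.lf e) + w (c.rt e)) < Q'.1 (c.rt e) - Q'.1 (c.lf e)
  tip : ∀ i, c.ty i ≠ .P → (0 < c.dl Q i ∧ 0 < c.dl Q' i) ∨ (c.dl Q i < 0 ∧ c.dl Q' i < 0)
  ee : ∀ e e', e ≠ e' → c.LEE w Q V Q' V' e e'
  vv : ∀ i j, i ≠ j → c.LVV w Q V Q' V' i j
  ve : ∀ i e, c.ea i ≠ e → c.eb i ≠ e → c.LVE w Q V Q' V' i e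

/-- GOC: the certificates during the motion and at the change of the velocities. -/
def Stmt_GOC : Prop :=
  ∀ {m n : ℕ} (c : Comb m n) (w : Fin n → ℝ) (T : ℝ) (Q V Q' V' : St n), c.Go w T Q V Q' V' →
    (∀ s ∈ Icc (0 : ℝ) T, c.Cert w (Q + s • V') V') ∧
    ∀ l ∈ Icc (0 : ℝ) 1, c.Cert w Q ((1 - l) • V + l • V')

/-! ### soundness of the checker: the basic functions -/

/-- CBL: the basic functions of the checker. -/
def Stmt_CBL : Prop :=
  (∀ a b : Bool, bnd a b = true ↔ a = true ∧ b = true) ∧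
  (∀ a b : Bool, bor a b = true ↔ a = true ∨ b = true) ∧
  (∀ a b : ℤ, ilt a b = true ↔ a < b) ∧ (∀ a b : ℤ, ieq a b = true ↔ a = b) ∧
  (∀ a b : ℤ, imax a b = max a b) ∧ (∀ a b : ℤ, imin a b = min a b) ∧
  (∀ a : ℤ, iabs a = |a|) ∧
  (∀ (α : Type) (d : α) (p : α → Bool) (l : List α), allL p l = true ↔
    ∀ i < len l, p (lkp d l i) = true) ∧
  (∀ (α : Type) (d : α) (p : ℕ → α → Bool) (l : List α), allI p l 0 = true ↔
    ∀ i < len l, p i (lkp d l i) = true) ∧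
  (∀ (α β : Type) (d : α) (d' : β) (p : α → β → Bool) (l : List α) (l' : List β),
    all2 p l l' = true ↔ ∀ i < len l, i < len l' → p (lkp d l i) (lkp d' l' i) = true) ∧
  (∀ (α β : Type) (d : α) (d' : β) (p : ℕ → α → β → Bool) (l : List α) (l' : List β),
    all2I p l l' 0 = true ↔ ∀ i < len l, i < len l' → p i (lkp d l i) (lkp d' l' i) = true) ∧
  (∀ (α β : Type) (d : α) (d' : β) (p : α → β → α → β → Bool) (l : List α) (l' : List β),
    prs2 p l l' = true ↔ ∀ i j, i < j → j < len l → j < len l' →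
      p (lkp d l i) (lkp d' l' i) (lkp d l j) (lkp d' l' j) = true)

/-- The facts given by `stOK`. -/
structure SD.Facts (m n : ℕ) (S : SD) : Prop where
  lenE : len S.es = m + 1
  lenV : len S.vs = n + 1
  lf : ∀ e < m + 1, (S.e e).lf < n + 1
  rt : ∀ e < m + 1, (S.e e).rt < n + 1
  ea : ∀ i < n + 1, (S.v i).ea < m + 1
  eb : ∀ i < n + 1, (S.v i).eb < m + 1
  xl : ∀ e < m + 1, (S.e e).xl = (S.v (S.e e).lf).x
  xr : ∀ e < m + 1, (S.e e).xr = (S.v (S.e e).rt).x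
  il : ∀ e < m + 1, (S.e e).il = (S.v (S.e e).lf).x + 2 * (S.v (S.e e).lf).w
  ir : ∀ e < m + 1, (S.e e).ir = (S.v (S.e e).rt).x - 2 * (S.v (S.e e).rt).w
  il_ir : ∀ e < m + 1, (S.e e).il < (S.e e).ir
  jl : ∀ i < n + 1, (S.v i).jl = (S.v i).x - 2 * (S.v i).w
  jr : ∀ i < n + 1, (S.v i).jr = (S.v i).x + 2 * (S.v i).w
  w : ∀ i < n + 1, 0 < (S.v i).w
  ty : ∀ i < n + 1, (S.v i).ty = 0 ∨ (S.v i).ty = 1 ∨ (S.v i).ty = 2
  tip : ∀ i < n + 1, (S.v i).ty = 0 ∨ (S.v i).lo < (S.v i).hi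
  pa : ∀ i < n + 1, (S.v i).pa = (S.e (S.v i).ea).p
  pb : ∀ i < n + 1, (S.v i).pb = (S.e (S.v i).eb).p
  lo : ∀ i < n + 1, (S.v i).lo = min (S.v i).pa (S.v i).pb
  hi : ∀ i < n + 1, (S.v i).hi = max (S.v i).pa (S.v i).pb
  er : ∀ i < n + 1, (S.v i).er = 2 * |(S.e (S.v i).ea).dp| +
    2 * |(S.e (S.v i).eb).dp - (S.e (S.v i).ea).dp|
  p : ∀ e < m + 1, (S.e e).p * ((S.e e).xr - (S.e e).xl) =
    (S.v (S.e e).rt).F - (S.v (S.e e).lf).F
  dp : ∀ e < m + 1, (S.e e).dp * ((S.e e).xr - (S.e e).xl) =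
    (S.v (S.e e).rt).dF - (S.v (S.e e).lf).dF -
      (S.e e).p * ((S.v (S.e e).rt).dx - (S.v (S.e e).lf).dx)
  da : ∀ e < m + 1, (S.e e).da = (S.v (S.e e).lf).dF - (S.e e).dp * (S.e e).xl -
    (S.e e).p * (S.v (S.e e).lf).dx
  fl : ∀ e < m + 1, (S.e e).dp * (S.v (S.e e).lf).dx = 0
  fr : ∀ e < m + 1, (S.e e).dp * (S.v (S.e e).rt).dx = 0
  valid : (S.cb m n).Valid

/-- STF: the facts given by `stOK`. -/
def Stmt_STF : Prop := ∀ (m n : ℕ) (S : SD), stOK m n S = true → S.Facts m n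

/-- The real numbers which belong to the data. -/
structure SD.Vals (m n : ℕ) (S : SD) : Prop where
  valid : (S.cb m n).Valid
  wpos : ∀ i, 0 < S.W n i
  len : ∀ e, 2 * (S.W n ((S.cb m n).lf e) + S.W n ((S.cb m n).rt e)) <
    (S.Q n).1 ((S.cb m n).rt e) - (S.Q n).1 ((S.cb m n).lf e)
  tip : ∀ i, (S.cb m n).ty i ≠ .P → (S.cb m n).dl (S.Q n) i ≠ 0
  lfv : ∀ e : Fin (m + 1), (((S.cb m n).lf e : Fin (n + 1)) : ℕ) = (S.e e).lf
  rtv : ∀ e : Fin (m + 1), (((S.cb m n).rt e : Fin (n + 1)) : ℕ) = (S.e e).rt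
  eav : ∀ i : Fin (n + 1), (((S.cb m n).ea i : Fin (m + 1)) : ℕ) = (S.v i).ea
  ebv : ∀ i : Fin (n + 1), (((S.cb m n).eb i : Fin (m + 1)) : ℕ) = (S.v i).eb
  xl : ∀ e : Fin (m + 1), (S.Q n).1 ((S.cb m n).lf e) = ((S.e e).xl : ℝ)
  xr : ∀ e : Fin (m + 1), (S.Q n).1 ((S.cb m n).rt e) = ((S.e e).xr : ℝ)
  il : ∀ e : Fin (m + 1), (S.Q n).1 ((S.cb m n).lf e) + 2 * S.W n ((S.cb m n).lf e) =
    ((S.e e).il : ℝ)
  ir : ∀ e : Fin (m + 1), (S.Q n).1 ((S.cb m n).rt e) - 2 * S.W n ((S.cb m n).rt e) =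
    ((S.e e).ir : ℝ)
  jl : ∀ i : Fin (n + 1), (S.Q n).1 i - 2 * S.W n i = ((S.v i).jl : ℝ)
  jr : ∀ i : Fin (n + 1), (S.Q n).1 i + 2 * S.W n i = ((S.v i).jr : ℝ)
  pe : ∀ e : Fin (m + 1), (S.cb m n).pe (S.Q n) e = ((S.e e).p : ℝ)
  dpe : ∀ e : Fin (m + 1), (S.cb m n).dpe (S.Q n) (S.V n) e = ((S.e e).dp : ℝ)
  dae : ∀ e : Fin (m + 1), (S.cb m n).dae (S.Q n) (S.V n) e = ((S.e e).da : ℝ)
  pea : ∀ i : Fin (n + 1), (S.cb m n).pe (S.Q n) ((S.cb m n).ea i) = ((S.v i).pa : ℝ)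
  peb : ∀ i : Fin (n + 1), (S.cb m n).pe (S.Q n) ((S.cb m n).eb i) = ((S.v i).pb : ℝ)
  plo : ∀ i : Fin (n + 1), (S.cb m n).plo (S.Q n) i = ((S.v i).lo : ℝ)
  phi : ∀ i : Fin (n + 1), (S.cb m n).phi (S.Q n) i = ((S.v i).hi : ℝ)
  dl : ∀ i : Fin (n + 1), |(S.cb m n).dl (S.Q n) i| = ((S.v i).hi - (S.v i).lo : ℝ)
  er : ∀ i : Fin (n + 1), 2 * |(S.cb m n).dpe (S.Q n) (S.V n) ((S.cb m n).ea i)| +
    2 * |(S.cb m n).dpe (S.Q n) (S.V n) ((S.cb m n).eb i) -
      (S.cb m n).dpe (S.Q n) (S.V n) ((S.cb m n).ea i)| = ((S.v i).er : ℝ)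
  fl : ∀ e : Fin (m + 1), (S.cb m n).dpe (S.Q n) (S.V n) e * (S.V n).1 ((S.cb m n).lf e) = 0
  fr : ∀ e : Fin (m + 1), (S.cb m n).dpe (S.Q n) (S.V n) e * (S.V n).1 ((S.cb m n).rt e) = 0

/-- SVL: the real numbers which belong to the data. -/
def Stmt_SVL : Prop := ∀ (m n : ℕ) (S : SD), S.Facts m n → S.Vals m n

/-- The state at the beginning and the state at the end of a motion have the same combinatorics and
widths; the positions at the end. -/
structure SD.Same (m n : ℕ) (T : ℤ) (A B : SD) : Prop where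
  pos : (0 : ℝ) < T
  cb : A.cb m n = B.cb m n
  w : A.W n = B.W n
  move : B.Q n = A.Q n + (T : ℝ) • B.V n
  tip : ∀ i, (A.cb m n).ty i ≠ .P →
    (0 < (A.cb m n).dl (A.Q n) i ∧ 0 < (A.cb m n).dl (B.Q n) i) ∨
    ((A.cb m n).dl (A.Q n) i < 0 ∧ (A.cb m n).dl (B.Q n) i < 0)

/-- SAM: the first part of `goOK`. -/
def Stmt_SAM : Prop :=
  ∀ (m n : ℕ) (T : ℤ) (A B : SD), A.Facts m n → B.Facts m n → A.Vals m n → B.Vals m n →
    goOK T A B = true → SD.Same m n T A B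

/-- GEE: two edges. -/
def Stmt_GEE : Prop :=
  ∀ (m n : ℕ) (A B : SD), A.Vals m n → B.Vals m n → A.cb m n = B.cb m n → A.W n = B.W n →
    ∀ e e' : Fin (m + 1), chEE (A.e e) (B.e e) (A.e e') (B.e e') = true →
      (A.cb m n).LEE (A.W n) (A.Q n) (A.V n) (B.Q n) (B.V n) e e' ∧
      (A.cb m n).LEE (A.W n) (A.Q n) (A.V n) (B.Q n) (B.V n) e' e

/-- GVV: two vertices. -/
def Stmt_GVV : Prop :=
  ∀ (m n : ℕ) (A B : SD), A.Vals m n → B.Vals m n → A.cb m n = B.cb m n → A.W n = B.W n →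
    ∀ i j : Fin (n + 1), chVV (A.v i) (B.v i) (A.v j) (B.v j) = true →
      (A.cb m n).LVV (A.W n) (A.Q n) (A.V n) (B.Q n) (B.V n) i j ∧
      (A.cb m n).LVV (A.W n) (A.Q n) (A.V n) (B.Q n) (B.V n) j i

/-- GVE: a vertex and an edge. -/
def Stmt_GVE : Prop :=
  ∀ (m n : ℕ) (A B : SD), A.Vals m n → B.Vals m n → A.cb m n = B.cb m n → A.W n = B.W n →
    ∀ (i : Fin (n + 1)) (e : Fin (m + 1)), (A.cb m n).ea i ≠ e → (A.cb m n).eb i ≠ e →
      chVE (A.v i) (B.v i) e (A.e e) (B.e e) = true →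
      (A.cb m n).LVE (A.W n) (A.Q n) (A.V n) (B.Q n) (B.V n) i e

/-- GOK: the conditions of a motion. -/
def Stmt_GOK : Prop :=
  ∀ (m n : ℕ) (T : ℤ) (A B : SD), stOK m n A = true → stOK m n B = true → goOK T A B = true →
    (A.cb m n).Go (A.W n) T (A.Q n) (A.V n) (B.Q n) (B.V n) ∧ A.cb m n = B.cb m n ∧
      A.W n = B.W n

/-- STG: a change of the velocities and a motion. -/
def Stmt_STG : Prop :=
  ∀ (K : Set LC.R3) (sh : Shape) (m n : ℕ) (T t : ℤ) (A B : SD), stOK m n A = true →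
    stOK m n B = true → goOK T A B = true → AtD K sh m n A t → AtD K sh m n B (t + T)

end LCA


end

section

/-!
# Part A, LNP: the slopes during a linear motion
-/

namespace LCA

open Set Filter
open scoped ContDiff Topology

namespace LNP

theorem alg {x y vx vy f g vf vg T s : ℝ}
    (h' : 0 < (y + T * vy) - (x + T * vx)) (hs : 0 < (y + s * vy) - (x + s * vx))
    {p d : ℝ} (hp : p = ((g + T * vg) - (f + T * vf)) / ((y + T * vy) - (x + T * vx)))
    (hd : d = (vg - vf - p * (vy - vx)) / ((y + T * vy) - (x + T * vx)))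
    (h1 : d * vx = 0) (h2 : d * vy = 0) :
    ((g + s * vg) - (f + s * vf)) / ((y + s * vy) - (x + s * vx)) = p + (s - T) * d ∧
    (vg - vf - (p + (s - T) * d) * (vy - vx)) / ((y + s * vy) - (x + s * vx)) = d ∧
    vf - d * (x + s * vx) - (p + (s - T) * d) * vx = vf - d * (x + T * vx) - p * vx := by
  have hp' : p * ((y + T * vy) - (x + T * vx)) = (g + T * vg) - (f + T * vf) := by
    rw [hp, div_mul_cancel₀ _ h'.ne']
  have hd' : d * ((y + T * vy) - (x + T * vx)) = vg - vf - p * (vy - vx) := by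
    rw [hd, div_mul_cancel₀ _ h'.ne']
  refine ⟨?_, ?_, ?_⟩
  · rw [div_eq_iff hs.ne']
    linear_combination (-1 : ℝ) * hp' - (s - T) * hd' - (s - T) ^ 2 * h2 + (s - T) ^ 2 * h1
  · rw [div_eq_iff hs.ne']
    linear_combination (-1 : ℝ) * hd' - 2 * (s - T) * h2 + 2 * (s - T) * h1
  · linear_combination (-2 : ℝ) * (s - T) * h1

end LNP

theorem t_LNP : Stmt_LNP := by
  intro m n c T Q Q' V' h e s hs
  have h' := h.len' e
  have h1 := h.fl e
  have h2 := h.fr e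
  have hm := h.move
  subst hm
  have key := LNP.alg (x := Q.1 (c.lf e)) (y := Q.1 (c.rt e)) (vx := V'.1 (c.lf e))
    (vy := V'.1 (c.rt e)) (f := Q.2 (c.lf e)) (g := Q.2 (c.rt e)) (vf := V'.2 (c.lf e))
    (vg := V'.2 (c.rt e)) (T := T) (s := s) (sub_pos.mpr h') (sub_pos.mpr hs)
    (p := c.pe (Q + T • V') e) (d := c.dpe (Q + T • V') V' e) rfl rfl h1 h2
  have k1 : c.pe (Q + s • V') e = c.pe (Q + T • V') e + (s - T) * c.dpe (Q + T • V') V' e := key.1
  have k2 : c.dpe (Q + s • V') V' e = c.dpe (Q + T • V') V' e := by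
    have : c.dpe (Q + s • V') V' e = (V'.2 (c.rt e) - V'.2 (c.lf e) -
      c.pe (Q + s • V') e * (V'.1 (c.rt e) - V'.1 (c.lf e))) /
      ((Q + s • V').1 (c.rt e) - (Q + s • V').1 (c.lf e)) := rfl
    rw [this, k1]
    exact key.2.1
  refine ⟨k1, k2, ?_⟩
  have : c.dae (Q + s • V') V' e = V'.2 (c.lf e) - c.dpe (Q + s • V') V' e *
    (Q + s • V').1 (c.lf e) - c.pe (Q + s • V') e * V'.1 (c.lf e) := rfl
  rw [this, k2, k1]
  exact key.2.2

end LCA


end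

section

/-!
# STF: the facts given by `stOK`
-/

namespace LCA

open Set Filter
open scoped ContDiff Topology

namespace STF

theorem iadd (a b : ℤ) : Int.add a b = a + b := rfl
theorem isub (a b : ℤ) : Int.sub a b = a - b := rfl
theorem imul (a b : ℤ) : Int.mul a b = a * b := rfl

/-- The facts on an edge. -/
structure FE (n k : ℕ) (f : ES) (a b : VS) : Prop where
  lf : f.lf < n + 1
  rt : f.rt < n + 1
  xl : f.xl = a.x
  xr : f.xr = b.x
  il : f.il = a.jr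
  ir : f.ir = b.jl
  il_ir : f.il < f.ir
  p : f.p * (f.xr - f.xl) = b.F - a.F
  dp : f.dp * (f.xr - f.xl) = b.dF - a.dF - f.p * (b.dx - a.dx)
  da : f.da = a.dF - f.dp * f.xl - f.p * a.dx
  fl : f.dp * a.dx = 0
  fr : f.dp * b.dx = 0
  re : ((b.ty = 0 ∨ b.ty = 1) ∧ b.ea = k) ∨ (b.ty = 1 ∧ b.eb = k)
  le : (a.ty = 2 ∧ a.ea = k) ∨ ((a.ty = 0 ∨ a.ty = 2) ∧ a.eb = k)

/-- The facts on a vertex. -/
structure FV (m k : ℕ) (a : VS) (f g : ES) : Prop where
  ea : a.ea < m + 1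
  eb : a.eb < m + 1
  ty : a.ty = 0 ∨ a.ty = 1 ∨ a.ty = 2
  w : 0 < a.w
  jl : a.jl = a.x - 2 * a.w
  jr : a.jr = a.x + 2 * a.w
  pa : a.pa = f.p
  pb : a.pb = g.p
  lo : a.lo = min a.pa a.pb
  hi : a.hi = max a.pa a.pb
  er : a.er = 2 * |f.dp| + 2 * |g.dp - f.dp|
  tip : a.ty = 0 ∨ a.lo < a.hi
  ne : a.ea ≠ a.eb
  oa : ((a.ty = 0 ∨ a.ty = 1) ∧ f.rt = k) ∨ (a.ty = 2 ∧ f.lf = k)
  ob : ((a.ty = 0 ∨ a.ty = 2) ∧ g.lf = k) ∨ (a.ty = 1 ∧ g.rt = k)

theorem notb (b : Bool) : (Bool.rec true false b : Bool) = true ↔ b = false := by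
  cases b <;> simp

theorem fe (hCBL : Stmt_CBL) {n k : ℕ} {f : ES} {a b : VS} (h : okE n k f a b = true) :
    FE n k f a b := by
  obtain ⟨hb, ho, hlt, heq, -⟩ := hCBL
  unfold okE at h
  simp only [hb, ho, hlt, heq, Nat.ble_eq, Nat.beq_eq, isub, imul] at h
  obtain ⟨h1, h2, h3, h4, h5, h6, h7, h8, h9, h10, h11, h12, h13, h14⟩ := h
  exact ⟨by omega, by omega, h3, h4, h5, h6, h7, h8, h9, h10, h11, h12, h13, h14⟩

theorem fv (hCBL : Stmt_CBL) {m k : ℕ} {a : VS} {f g : ES} (h : okV m k a f g = true) :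
    FV m k a f g := by
  obtain ⟨hb, ho, hlt, heq, hmax, hmin, habs, -⟩ := hCBL
  unfold okV at h
  simp only [hb, ho, hlt, heq, hmax, hmin, habs, notb, Nat.ble_eq, Nat.beq_eq, isub, imul,
    iadd] at h
  obtain ⟨h1, h2, h3, h4, h5, h6, h7, h8, h9, h10, h11, h12, h13, h14, h15⟩ := h
  refine ⟨by omega, by omega, h3, h4, h5, h6, h7, h8, h9, h10, h11, h12, ?_, h14, h15⟩
  intro e
  rw [e] at h13
  have : Nat.beq a.eb a.eb = true := by rw [Nat.beq_eq]
  rw [this] at h13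
  exact absurd h13 (by decide)

theorem vlf {m n : ℕ} {S : SD} (e : Fin (m + 1)) (h : (S.e e).lf < n + 1) :
    (((S.cb m n).lf e : Fin (n + 1)) : ℕ) = (S.e e).lf := Nat.mod_eq_of_lt h

theorem vrt {m n : ℕ} {S : SD} (e : Fin (m + 1)) (h : (S.e e).rt < n + 1) :
    (((S.cb m n).rt e : Fin (n + 1)) : ℕ) = (S.e e).rt := Nat.mod_eq_of_lt h

theorem vea {m n : ℕ} {S : SD} (i : Fin (n + 1)) (h : (S.v i).ea < m + 1) :
    (((S.cb m n).ea i : Fin (m + 1)) : ℕ) = (S.v i).ea := Nat.mod_eq_of_lt h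

theorem veb {m n : ℕ} {S : SD} (i : Fin (n + 1)) (h : (S.v i).eb < m + 1) :
    (((S.cb m n).eb i : Fin (m + 1)) : ℕ) = (S.v i).eb := Nat.mod_eq_of_lt h

theorem cty {m n : ℕ} {S : SD} (i : Fin (n + 1)) : (S.cb m n).ty i = tyOf (S.v i).ty := rfl

theorem ty0 : tyOf 0 = .P := rfl
theorem ty1 : tyOf 1 = .R := rfl
theorem ty2 : tyOf 2 = .L := rfl

theorem valid {m n : ℕ} {S : SD}
    (hE : ∀ e < m + 1, FE n e (S.e e) (S.v (S.e e).lf) (S.v (S.e e).rt))
    (hV : ∀ i < n + 1, FV m i (S.v i) (S.e (S.v i).ea) (S.e (S.v i).eb)) :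
    (S.cb m n).Valid := by
  have elf : ∀ e : Fin (m + 1), (((S.cb m n).lf e : Fin (n + 1)) : ℕ) = (S.e e).lf :=
    fun e => vlf e (hE e e.2).lf
  have ert : ∀ e : Fin (m + 1), (((S.cb m n).rt e : Fin (n + 1)) : ℕ) = (S.e e).rt :=
    fun e => vrt e (hE e e.2).rt
  have eea : ∀ i : Fin (n + 1), (((S.cb m n).ea i : Fin (m + 1)) : ℕ) = (S.v i).ea :=
    fun i => vea i (hV i i.2).ea
  have eeb : ∀ i : Fin (n + 1), (((S.cb m n).eb i : Fin (m + 1)) : ℕ) = (S.v i).eb :=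
    fun i => veb i (hV i i.2).eb
  refine ⟨fun i => ?_, fun i => ?_, fun i => ?_, fun e => ?_, fun e => ?_⟩
  · unfold Comb.OKa
    rw [cty]
    rcases (hV i i.2).oa with ⟨h0 | h1, h⟩ | ⟨h2, h⟩
    · rw [h0, ty0]
      apply Fin.ext
      rw [ert, eea, h]
    · rw [h1, ty1]
      apply Fin.ext
      rw [ert, eea, h]
    · rw [h2, ty2]
      apply Fin.ext
      rw [elf, eea, h]
  · unfold Comb.OKb
    rw [cty]
    rcases (hV i i.2).ob with ⟨h0 | h1, h⟩ | ⟨h2, h⟩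
    · rw [h0, ty0]
      apply Fin.ext
      rw [elf, eeb, h]
    · rw [h1, ty2]
      apply Fin.ext
      rw [elf, eeb, h]
    · rw [h2, ty1]
      apply Fin.ext
      rw [ert, eeb, h]
  · intro h
    apply (hV i i.2).ne
    rw [← eea, ← eeb, h]
  · rw [cty, ert]
    rcases (hE e e.2).re with ⟨h0 | h1, h⟩ | ⟨h2, h⟩
    · left
      rw [h0, ty0]
      refine ⟨by decide, ?_⟩
      apply Fin.ext
      rw [eea, ert, h]
    · left
      rw [h1, ty1]
      refine ⟨by decide, ?_⟩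
      apply Fin.ext
      rw [eea, ert, h]
    · right
      rw [h2, ty1]
      refine ⟨rfl, ?_⟩
      apply Fin.ext
      rw [eeb, ert, h]
  · rw [cty, elf]
    rcases (hE e e.2).le with ⟨h2, h⟩ | ⟨h0 | h1, h⟩
    · left
      rw [h2, ty2]
      refine ⟨rfl, ?_⟩
      apply Fin.ext
      rw [eea, elf, h]
    · right
      rw [h0, ty0]
      refine ⟨by decide, ?_⟩
      apply Fin.ext
      rw [eeb, elf, h]
    · right
      rw [h1, ty2]
      refine ⟨by decide, ?_⟩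
      apply Fin.ext
      rw [eeb, elf, h]

end STF

theorem t_STF (hCBL : Stmt_CBL) : Stmt_STF := by
  intro m n S h
  obtain ⟨hb, -, -, -, -, -, -, -, hI, -⟩ := id hCBL
  unfold stOK at h
  simp only [hb, hI ES es0, hI VS vs0, Nat.beq_eq] at h
  obtain ⟨h1, h2, h3, h4⟩ := h
  have hE : ∀ e < m + 1, STF.FE n e (S.e e) (S.v (S.e e).lf) (S.v (S.e e).rt) := fun e he =>
    STF.fe hCBL (h3 e (by omega))
  have hV : ∀ i < n + 1, STF.FV m i (S.v i) (S.e (S.v i).ea) (S.e (S.v i).eb) := fun i hi =>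
    STF.fv hCBL (h4 i (by omega))
  exact
    { lenE := h1
      lenV := h2
      lf := fun e he => (hE e he).lf
      rt := fun e he => (hE e he).rt
      ea := fun i hi => (hV i hi).ea
      eb := fun i hi => (hV i hi).eb
      xl := fun e he => (hE e he).xl
      xr := fun e he => (hE e he).xr
      il := fun e he => by rw [(hE e he).il, (hV _ (hE e he).lf).jr]
      ir := fun e he => by rw [(hE e he).ir, (hV _ (hE e he).rt).jl]
      il_ir := fun e he => (hE e he).il_ir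
      jl := fun i hi => (hV i hi).jl
      jr := fun i hi => (hV i hi).jr
      w := fun i hi => (hV i hi).w
      ty := fun i hi => (hV i hi).ty
      tip := fun i hi => (hV i hi).tip
      pa := fun i hi => (hV i hi).pa
      pb := fun i hi => (hV i hi).pb
      lo := fun i hi => (hV i hi).lo
      hi := fun i hi => (hV i hi).hi
      er := fun i hi => (hV i hi).er
      p := fun e he => (hE e he).p
      dp := fun e he => (hE e he).dp
      da := fun e he => (hE e he).da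
      fl := fun e he => (hE e he).fl
      fr := fun e he => (hE e he).fr
      valid := STF.valid hE hV }

end LCA


end

section

/-!
# Part A, STG: a change of the velocities and a linear motion, checked on the data
-/

namespace LCA

open Set Filter
open scoped ContDiff Topology

/-- STG. -/
theorem t_STG (hSWI : Stmt_SWI) (hGOC : Stmt_GOC) (hGOK : Stmt_GOK) : Stmt_STG := by
  intro K sh m n T t A B hA hB hgo hat
  obtain ⟨go, hcb, hw⟩ := hGOK m n T A B hA hB hgo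
  obtain ⟨h1, h2⟩ := hGOC _ _ _ _ _ _ _ go
  have hT : (0 : ℝ) < (T : ℝ) := go.lin.pos
  have hat' : At K sh (A.cb m n) (A.W n) (A.Q n) (A.V n) (t : ℝ) := hat
  have h := hSWI K sh (A.cb m n) (A.W n) (A.Q n) (A.V n) (B.V n) (t : ℝ) ((t : ℝ) + (T : ℝ))
    go.valid go.wpos hat' (by linarith) h2 (by
      intro s hs
      have h3 := h1 (s - t) ⟨by linarith [hs.1], by linarith [hs.2]⟩
      exact h3)
  have hlin : lin (A.Q n) (B.V n) (t : ℝ) ((t : ℝ) + (T : ℝ)) = B.Q n := by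
    have h4 : lin (A.Q n) (B.V n) (t : ℝ) ((t : ℝ) + (T : ℝ))
        = A.Q n + ((t : ℝ) + (T : ℝ) - (t : ℝ)) • B.V n := rfl
    rw [h4, add_sub_cancel_left]
    exact go.lin.move.symm
  rw [hlin, hcb, hw] at h
  have h5 : AtD K sh m n B (t + T) = At K sh (B.cb m n) (B.W n) (B.Q n) (B.V n) ((t + T : ℤ) : ℝ) := rfl
  rw [h5, Int.cast_add]
  exact h

end LCA


end

section

/-!
# Part A: the checker for the other operations
-/

namespace LCA

noncomputable section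

/-! ### indices -/

/-- `i < j`. -/
def nlt (i j : ℕ) : Bool := Nat.ble (Nat.succ i) j

/-- `i ≠ j`. -/
def nne (i j : ℕ) : Bool := Bool.rec true false (Nat.beq i j)

/-- `if b then i else j`. -/
def nif (b : Bool) (i j : ℕ) : ℕ := Bool.rec j i b

/-- `¬ b`. -/
def bnt (b : Bool) : Bool := Bool.rec true false b

/-- The list `ι` is an embedding of `{0, ..., a}` into `{0, ..., b}` whose image is the complement
of `e`; `κ` is its inverse. -/
def embB (a b : ℕ) (ι κ : List ℕ) (e : ℕ) : Bool :=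
  bnd (Nat.beq (len ι) (Nat.succ a)) <| bnd (Nat.beq (len κ) (Nat.succ b)) <|
  bnd (nlt e (Nat.succ b)) <|
  bnd (allI (fun d x => bnd (nlt x (Nat.succ b)) (bnd (nne x e) (Nat.beq (lkp 0 κ x) d))) ι 0) <|
  allI (fun d y => bor (Nat.beq d e) (bnd (nlt y (Nat.succ a)) (Nat.beq (lkp 0 ι y) d))) κ 0

/-- The function between finite types which is given by a list. -/
def ixf (a b : ℕ) (l : List ℕ) : Fin (a + 1) → Fin (b + 1) :=
  fun i => Fin.ofNat (b + 1) (lkp 0 l i)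

/-! ### simple relations between two states -/

/-- The vertex has moved for the time `T` with the same velocity. -/
def mvV (T : ℤ) (a b : VS) : Bool :=
  bnd (Nat.beq a.ty b.ty) <| bnd (Nat.beq a.ea b.ea) <| bnd (Nat.beq a.eb b.eb) <|
  bnd (ieq a.w b.w) <| bnd (ieq a.dx b.dx) <| bnd (ieq a.dF b.dF) <|
  bnd (ieq b.x (Int.add a.x (Int.mul T b.dx))) <| ieq b.F (Int.add a.F (Int.mul T b.dF))

/-- The state has moved for the time `T` with the same velocities. -/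
def mvOK (T : ℤ) (A B : SD) : Bool := bnd (all2 (mvV T) A.vs B.vs) (all2 smE A.es B.es)

/-- The velocities are reversed. -/
def ngV (a b : VS) : Bool :=
  bnd (Nat.beq a.ty b.ty) <| bnd (Nat.beq a.ea b.ea) <| bnd (Nat.beq a.eb b.eb) <|
  bnd (ieq a.w b.w) <| bnd (ieq a.x b.x) <| bnd (ieq a.F b.F) <|
  bnd (ieq b.dx (Int.neg a.dx)) <| ieq b.dF (Int.neg a.dF)

/-- The velocities are reversed. -/
def ngOK (A B : SD) : Bool := bnd (all2 ngV A.vs B.vs) (all2 smE A.es B.es)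

/-- The widths of `b` are not larger. -/
def wdV (a b : VS) : Bool :=
  bnd (Nat.beq a.ty b.ty) <| bnd (Nat.beq a.ea b.ea) <| bnd (Nat.beq a.eb b.eb) <|
  bnd (ieq a.x b.x) <| bnd (ieq a.F b.F) <| bnd (ieq a.dx b.dx) <| bnd (ieq a.dF b.dF) <|
  bnt (ilt a.w b.w)

/-- The widths of `B` are not larger. -/
def wdOK (A B : SD) : Bool := bnd (all2 wdV A.vs B.vs) (all2 smE A.es B.es)

/-- The edges `ea`, `eb` are exchanged at the vertex with the index `i`. -/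
def swV (i k : ℕ) (a b : VS) : Bool :=
  bnd (Nat.beq a.ty b.ty) <| bnd (ieq a.w b.w) <|
  bnd (ieq a.x b.x) <| bnd (ieq a.F b.F) <| bnd (ieq a.dx b.dx) <| bnd (ieq a.dF b.dF) <|
  bor (bnd (Nat.beq k i) <| bnd (nne a.ty 0) <| bnd (Nat.beq a.ea b.eb) (Nat.beq a.eb b.ea))
    (bnd (nne k i) <| bnd (Nat.beq a.ea b.ea) (Nat.beq a.eb b.eb))

/-- The edges `ea`, `eb` are exchanged at the vertex with the index `i`. -/
def swOK (n i : ℕ) (A B : SD) : Bool :=
  bnd (nlt i (Nat.succ n)) <| bnd (all2I (swV i) A.vs B.vs 0) (all2 smE A.es B.es)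

/-! ### trivial vertices -/

/-- The vertex `k` of `A` (the data `a`) and the corresponding vertex of `B` (the data `b`). -/
def inV (ιE : List ℕ) (e₀ e r₀ k : ℕ) (a b : VS) : Bool :=
  bnd (Nat.beq a.ty b.ty) <| bnd (ieq a.w b.w) <|
  bnd (ieq a.x b.x) <| bnd (ieq a.F b.F) <| bnd (ieq a.dx b.dx) <| bnd (ieq a.dF b.dF) <|
  bnd (Nat.beq b.ea (nif (bnd (Nat.beq k r₀) (Nat.beq a.ea e₀)) e (lkp 0 ιE a.ea))) <|
  Nat.beq b.eb (nif (bnd (Nat.beq k r₀) (Nat.beq a.eb e₀)) e (lkp 0 ιE a.eb))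

/-- The state `B` is obtained from `A` by a trivial vertex `j` on the edge `e₀`. -/
def inOK (m n m' n' : ℕ) (ιE κE ιV κV : List ℕ) (e₀ e j : ℕ) (A B : SD) : Bool :=
  bnd (nlt e₀ (Nat.succ m)) <|
  bnd (embB m m' ιE κE e) <| bnd (embB n n' ιV κV j) <|
  -- the vertices
  bnd (allI (fun k a => inV ιE e₀ e (A.e e₀).rt k a (B.v (lkp 0 ιV k))) A.vs 0) <|
  -- the edges
  bnd (allI (fun d f => bnd (Nat.beq (B.e (lkp 0 ιE d)).lf (lkp 0 ιV f.lf))
    (Nat.beq (B.e (lkp 0 ιE d)).rt (nif (Nat.beq d e₀) j (lkp 0 ιV f.rt)))) A.es 0) <|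
  -- the new elements
  bnd (Nat.beq (B.v j).ty 0) <| bnd (Nat.beq (B.v j).ea (lkp 0 ιE e₀)) <|
  bnd (Nat.beq (B.v j).eb e) <| bnd (Nat.beq (B.e e).lf j) <|
  bnd (Nat.beq (B.e e).rt (lkp 0 ιV (A.e e₀).rt)) <|
  bnd (ilt (A.e e₀).il (B.v j).jl) <| bnd (ilt (B.v j).jr (A.e e₀).ir) <|
  bnd (ieq (B.v j).F (Int.add (A.v (A.e e₀).lf).F
    (Int.mul (A.e e₀).p (Int.sub (B.v j).x (A.e e₀).xl)))) <|
  bnd (ieq (B.v j).dF (Int.add (Int.add (Int.mul (A.e e₀).dp (B.v j).x) (A.e e₀).da)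
    (Int.mul (A.e e₀).p (B.v j).dx))) <|
  ieq (Int.mul (A.e e₀).dp (B.v j).dx) 0

/-! ### folds -/

/-- The vertex `k` of `A` (the data `a`) and the corresponding vertex of `B` (the data `b`). -/
def fdV (ιE : List ℕ) (i e k : ℕ) (a b : VS) (da : ℤ) : Bool :=
  bor
    (bnd (nne k i) <| bnd (Nat.beq a.ty b.ty) <| bnd (ieq a.w b.w) <|
      bnd (ieq a.x b.x) <| bnd (ieq a.F b.F) <| bnd (ieq a.dx b.dx) <| bnd (ieq a.dF b.dF) <|
      bnd (Nat.beq b.ea (lkp 0 ιE a.ea)) (Nat.beq b.eb (lkp 0 ιE a.eb)))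
    (bnd (Nat.beq k i) <| bnd (Nat.beq a.ty 0) <| bnd (Nat.beq b.ty 1) <|
      bnd (Nat.beq b.ea (lkp 0 ιE a.ea)) <| bnd (Nat.beq b.eb e) <|
      bnd (ieq (Int.mul 8 b.w) a.w) <|
      bnd (ieq (Int.mul 2 b.x) (Int.add (Int.mul 2 a.x) a.w)) <|
      bnd (ieq (Int.mul 2 b.F) (Int.add (Int.mul 2 a.F) (Int.mul a.pa a.w))) <|
      bnd (ieq b.dx a.dx) <|
      ieq (Int.mul 2 b.dF) (Int.add (Int.mul 2 a.dF) (Int.mul da a.w)))

/-- The new left tip; `a` are the data of the folded vertex, `db` the derivative of the slope of its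
edge `eb`. -/
def fdJ (ιE : List ℕ) (e : ℕ) (a b : VS) (db : ℤ) : Bool :=
  bnd (Nat.beq b.ty 2) <| bnd (Nat.beq b.ea e) <| bnd (Nat.beq b.eb (lkp 0 ιE a.eb)) <|
  bnd (ieq (Int.mul 8 b.w) a.w) <|
  bnd (ieq (Int.mul 2 b.x) (Int.sub (Int.mul 2 a.x) a.w)) <|
  bnd (ieq (Int.mul 2 b.F) (Int.sub (Int.mul 2 a.F) (Int.mul a.pb a.w))) <|
  bnd (ieq b.dx a.dx) <|
  ieq (Int.mul 2 b.dF) (Int.sub (Int.mul 2 a.dF) (Int.mul db a.w))

/-- The state `B` is obtained from `A` by a fold at the pass `i`. -/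
def fdOK (m n m' n' : ℕ) (ιE κE ιV κV : List ℕ) (i e j : ℕ) (A B : SD) : Bool :=
  bnd (nlt i (Nat.succ n)) <|
  bnd (embB m m' ιE κE e) <| bnd (embB n n' ιV κV j) <|
  bnd (allI (fun k a => fdV ιE i e k a (B.v (lkp 0 ιV k)) (A.e a.ea).dp) A.vs 0) <|
  bnd (allI (fun d f => bnd (Nat.beq (B.e (lkp 0 ιE d)).rt (lkp 0 ιV f.rt))
    (Nat.beq (B.e (lkp 0 ιE d)).lf (nif (Nat.beq d (A.v i).eb) j (lkp 0 ιV f.lf)))) A.es 0) <|
  bnd (Nat.beq (B.e e).lf j) <| bnd (Nat.beq (B.e e).rt (lkp 0 ιV i)) <|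
  fdJ ιE e (A.v i) (B.v j) (A.e (A.v i).eb).dp

/-- The slopes at the vertex `i` are in the same order in both states. -/
def fdS (i : ℕ) (A A' : SD) : Bool :=
  bor (bnd (ilt (A.v i).pa (A.v i).pb) (ilt (A'.v i).pa (A'.v i).pb))
    (bnd (ilt (A.v i).pb (A.v i).pa) (ilt (A'.v i).pb (A'.v i).pa))

/-! ### saddles and the maximum -/

/-- The data of a critical point: position, value of `F`, value of `z`, mean slopes on the left and
on the right, half of the gap, speed of the tips, width. -/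
structure ED where
  x : ℤ
  F : ℤ
  z : ℤ
  P₁ : ℤ
  P₂ : ℤ
  h : ℤ
  v : ℤ
  r : ℤ

/-- The critical point at the time `s₀`. -/
def ED.ev (E : ED) (s₀ : ℝ) : Evt where
  s₀ := s₀
  x₀ := E.x
  F₀ := E.F
  z₀ := E.z
  P₁ := E.P₁
  P₂ := E.P₂
  g := 2 * E.h
  v := E.v
  r := E.r

/-- The constants are admissible. -/
def ED.ok (E : ED) : Bool :=
  bnd (ilt 0 E.h) <| bnd (ilt 0 E.v) <| bnd (ilt 0 E.r) <|
  bnd (ilt (Int.mul 8 E.r) E.v) <| ilt (iabs (Int.sub E.P₂ E.P₁)) (Int.mul 2 E.h)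

/-- `ρ = 2 v + 4 r`. -/
def ED.ρ (E : ED) : ℤ := Int.add (Int.mul 2 E.v) (Int.mul 4 E.r)

/-- The lower side of the box. -/
def ED.lo (E : ED) : ℤ := Int.sub (imin E.P₁ E.P₂) E.h

/-- The upper side of the box. -/
def ED.hi (E : ED) : ℤ := Int.add (imax E.P₁ E.P₂) E.h

/-- `ζ = h v`. -/
def ED.ζ (E : ED) : ℤ := Int.mul E.h E.v

/-- The edge (the data at the two ends of the time interval) does not meet the box. -/
def bxE (E : ED) (f g : ES) : Bool :=
  bor (bnd (ilt f.ir (Int.sub E.x E.ρ)) (ilt g.ir (Int.sub E.x E.ρ))) <|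
  bor (bnd (ilt (Int.add E.x E.ρ) f.il) (ilt (Int.add E.x E.ρ) g.il)) <|
  bor (bnd (ilt f.p E.lo) (ilt g.p E.lo)) <|
  bor (bnd (ilt E.hi f.p) (ilt E.hi g.p)) <|
  ilt (Int.add E.ζ (Int.mul (iabs g.dp) E.ρ))
    (iabs (Int.sub (Int.add (Int.mul g.dp E.x) g.da) E.z))

/-- The value of `z` on the vertical at the height `p`, relative to the critical point. -/
def dBV (E : ED) (b : VS) (p : ℤ) : ℤ := Int.sub (Int.sub b.dF (Int.mul p b.dx)) E.z

/-- The vertical (the data at the two ends of the time interval) does not meet the box. -/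
def bxV (E : ED) (a b : VS) : Bool :=
  bor (bnd (ilt a.jr (Int.sub E.x E.ρ)) (ilt b.jr (Int.sub E.x E.ρ))) <|
  bor (bnd (ilt (Int.add E.x E.ρ) a.jl) (ilt (Int.add E.x E.ρ) b.jl)) <|
  bor (bnd (ilt a.hi E.lo) (ilt b.hi E.lo)) <|
  bor (bnd (ilt E.hi a.lo) (ilt E.hi b.lo)) <|
  sgn3 (Int.add E.ζ (erV b (imax (Int.sub a.hi a.lo) (Int.sub b.hi b.lo))))
    (dBV E b (imax (imin a.lo b.lo) E.lo)) (dBV E b (imin (imax a.hi b.hi) E.hi)) true true

/-- The state `A` before the saddle and the state `C` of the other combinatorics, at the times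
`s₀ - 1` and `s₀ - 2`; vertices. -/
def sdV (L R k : ℕ) (a c : VS) : Bool :=
  bnd (ieq a.w c.w) <|
  bnd (ieq (Int.add a.x a.dx) (Int.add c.x (Int.mul 2 c.dx))) <|
  bnd (ieq (Int.add a.F a.dF) (Int.add c.F (Int.mul 2 c.dF))) <|
  bor (Nat.beq k L) <| bor (Nat.beq k R) <|
  bnd (Nat.beq a.ty c.ty) <| bnd (Nat.beq a.ea c.ea) <| bnd (Nat.beq a.eb c.eb) <|
  bnd (ieq a.dx c.dx) (ieq a.dF c.dF)

/-- The same for the edges. -/
def sdE (H₃ H₄ k : ℕ) (f g : ES) : Bool :=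
  bnd (bor (Nat.beq k H₄) (Nat.beq f.lf g.lf)) (bor (Nat.beq k H₃) (Nat.beq f.rt g.rt))

/-- The conditions at the two tips before the saddle. -/
def sdT (L R H₁ H₂ H₃ H₄ : ℕ) (E : ED) (A : SD) : Bool :=
  bnd (Nat.beq (A.v L).ty 1) <| bnd (Nat.beq (A.v R).ty 2) <|
  bnd (Nat.beq (A.v L).ea H₁) <| bnd (Nat.beq (A.v L).eb H₃) <|
  bnd (Nat.beq (A.v R).ea H₄) <| bnd (Nat.beq (A.v R).eb H₂) <|
  bnd (ieq (A.v L).dx E.v) <| bnd (ieq (A.v R).dx (Int.neg E.v)) <|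
  bnd (ieq (A.v L).dF (Int.add (Int.sub E.z E.ζ) (Int.mul (Int.add E.P₁ E.h) E.v))) <|
  ieq (A.v R).dF (Int.sub (Int.add E.z E.ζ) (Int.mul (Int.add E.P₂ E.h) E.v))

/-- The conditions at the two passes. -/
def sdP (L R H₁ H₂ H₃ H₄ : ℕ) (E : ED) (C : SD) : Bool :=
  bnd (Nat.beq (C.v L).ty 0) <| bnd (Nat.beq (C.v R).ty 0) <|
  bnd (Nat.beq (C.v L).ea H₁) <| bnd (Nat.beq (C.v L).eb H₄) <|
  bnd (Nat.beq (C.v R).ea H₃) <| bnd (Nat.beq (C.v R).eb H₂) <|
  bnd (ieq (C.v L).w E.r) <| bnd (ieq (C.v R).w E.r) <|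
  bnd (ieq (C.v L).x E.x) <| bnd (ieq (C.v R).x E.x) <|
  bnd (ieq (C.v L).dx 0) <| bnd (ieq (C.v R).dx 0) <|
  bnd (ieq (C.v L).dF (Int.sub E.z E.ζ)) <| bnd (ieq (C.v R).dF (Int.add E.z E.ζ)) <|
  bnd (ieq (Int.add (C.v L).F (Int.mul 2 (C.v L).dF)) E.F) <|
  bnd (ieq (Int.add (C.v R).F (Int.mul 2 (C.v R).dF)) E.F) <|
  bnd (ieq (C.e H₁).p (Int.add E.P₁ E.h)) <| bnd (ieq (C.e H₃).p (Int.sub E.P₁ E.h)) <|
  bnd (ieq (C.e H₂).p (Int.add E.P₂ E.h)) <| bnd (ieq (C.e H₄).p (Int.sub E.P₂ E.h)) <|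
  bnd (ieq (C.e H₁).dp 0) <| bnd (ieq (C.e H₂).dp 0) <| bnd (ieq (C.e H₃).dp 0) <|
  ieq (C.e H₄).dp 0

/-- The lengths of the four edges. -/
def sdL (H₁ H₂ H₃ H₄ : ℕ) (E : ED) (C : SD) : Bool :=
  bnd (ilt (C.e H₁).il (Int.sub E.x E.ρ)) <| bnd (ilt (C.e H₃).il (Int.sub E.x E.ρ)) <|
  bnd (ilt (Int.add E.x E.ρ) (C.e H₂).ir) <| ilt (Int.add E.x E.ρ) (C.e H₄).ir

/-- A saddle at the time `s₀`: `A` is the state with the two tips at the time `s₀ - 1`, `C`, `C'`,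
`B` are the states with the two passes at the times `s₀ - 2`, `s₀ + 2`, `s₀ + 1`. -/
def sdOK (m n : ℕ) (L R H₁ H₂ H₃ H₄ : ℕ) (E : ED) (A B C C' : SD) : Bool :=
  bnd E.ok <| bnd (nlt L (Nat.succ n)) <| bnd (nlt R (Nat.succ n)) <| bnd (nne L R) <|
  bnd (nlt H₁ (Nat.succ m)) <| bnd (nlt H₂ (Nat.succ m)) <| bnd (nlt H₃ (Nat.succ m)) <|
  bnd (nlt H₄ (Nat.succ m)) <| bnd (nne H₁ H₂) <| bnd (nne H₁ H₃) <| bnd (nne H₁ H₄) <|
  bnd (nne H₂ H₃) <| bnd (nne H₂ H₄) <| bnd (nne H₃ H₄) <|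
  bnd (mvOK 4 C C') <| bnd (mvOK 3 C B) <| bnd (goOK 4 C C') <|
  bnd (all2I (sdV L R) A.vs C.vs 0) <| bnd (all2I (sdE H₃ H₄) A.es C.es 0) <|
  bnd (sdT L R H₁ H₂ H₃ H₄ E A) <| bnd (sdP L R H₁ H₂ H₃ H₄ E C) <|
  bnd (sdL H₁ H₂ H₃ H₄ E C) <| bnd (sdL H₁ H₂ H₃ H₄ E C') <|
  bnd (all2I (fun k f g => bor (Nat.beq k H₁) <| bor (Nat.beq k H₂) <| bor (Nat.beq k H₃) <|
    bor (Nat.beq k H₄) (bxE E f g)) C.es C'.es 0) <|
  all2I (fun k a b => bor (Nat.beq k L) <| bor (Nat.beq k R) (bxV E a b)) C.vs C'.vs 0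

/-- The maximum at the time `s₀`: `A` is the state at the time `s₀ - 1`. -/
def dtOK (lt rt pa pb H₁ H₂ H₃ H₄ : ℕ) (E : ED) (A : SD) : Bool :=
  bnd E.ok <| bnd (nlt lt 4) <| bnd (nlt rt 4) <| bnd (nlt pa 4) <| bnd (nlt pb 4) <|
  bnd (nlt H₁ 4) <| bnd (nlt H₂ 4) <| bnd (nlt H₃ 4) <| bnd (nlt H₄ 4) <|
  bnd (nne lt rt) <| bnd (nne lt pa) <| bnd (nne lt pb) <| bnd (nne rt pa) <|
  bnd (nne rt pb) <| bnd (nne pa pb) <|
  bnd (nne H₁ H₂) <| bnd (nne H₁ H₃) <| bnd (nne H₁ H₄) <| bnd (nne H₂ H₃) <|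
  bnd (nne H₂ H₄) <| bnd (nne H₃ H₄) <|
  bnd (allL (fun a => bnd (ieq a.w E.r) <| bnd (ieq (Int.add a.x a.dx) E.x)
    (ieq (Int.add a.F a.dF) E.F)) A.vs) <|
  bnd (Nat.beq (A.v lt).ty 2) <| bnd (Nat.beq (A.v rt).ty 1) <|
  bnd (Nat.beq (A.v pa).ty 0) <| bnd (Nat.beq (A.v pb).ty 0) <|
  bnd (Nat.beq (A.v lt).ea H₁) <| bnd (Nat.beq (A.v lt).eb H₃) <|
  bnd (Nat.beq (A.v rt).ea H₄) <| bnd (Nat.beq (A.v rt).eb H₂) <|
  bnd (Nat.beq (A.v pa).ea H₁) <| bnd (Nat.beq (A.v pa).eb H₄) <|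
  bnd (Nat.beq (A.v pb).ea H₃) <| bnd (Nat.beq (A.v pb).eb H₂) <|
  bnd (ieq (A.v lt).dx E.v) <| bnd (ieq (A.v rt).dx (Int.neg E.v)) <|
  bnd (ieq (A.v pa).dx 0) <| bnd (ieq (A.v pb).dx 0) <|
  bnd (ieq (A.v lt).dF (Int.add (Int.sub E.z E.ζ) (Int.mul (Int.add E.P₁ E.h) E.v))) <|
  bnd (ieq (A.v rt).dF (Int.sub (Int.add E.z E.ζ) (Int.mul (Int.add E.P₂ E.h) E.v))) <|
  bnd (ieq (A.v pa).dF (Int.sub E.z E.ζ)) <| ieq (A.v pb).dF (Int.add E.z E.ζ)

/-! ### the beginning -/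

/-- The state `A` is the beginning of a cylinder over a polygon with one component and `n + 1`
vertices; the state `A'` is the state at the time `2`. -/
def bgOK (n : ℕ) (A A' : SD) : Bool :=
  bnd (goOK 1 A A') <|
  bnd (allL (fun a => bnd (ieq a.dx 0) (ieq a.dF a.F)) A.vs) <|
  bnd (allL (fun a => bnd (ieq a.dx 0) (ieq (Int.mul 2 a.dF) a.F)) A'.vs) <|
  bnd (allI (fun k f => bnd
    (bor (bnd (Nat.beq f.lf k) (Nat.beq f.rt (nif (Nat.beq k n) 0 (Nat.succ k))))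
      (bnd (Nat.beq f.rt k) (Nat.beq f.lf (nif (Nat.beq k n) 0 (Nat.succ k)))))
    (ilt (Int.add (Int.mul 3 (Int.sub f.il f.xl)) (Int.mul 3 (Int.sub f.xr f.ir)))
      (Int.sub f.xr f.xl))) A.es 0) <|
  allI (fun k a =>
    bor (bnd (Nat.beq a.ea (nif (Nat.beq k 0) n (Nat.pred k))) (Nat.beq a.eb k))
      (bnd (Nat.beq a.eb (nif (Nat.beq k 0) n (Nat.pred k))) (Nat.beq a.ea k))) A.vs 0

end

end LCA


end

section

/-!
# Part A: soundness of the checker for the other operations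
-/

namespace LCA

open Set Filter
open scoped ContDiff Topology

variable {m n m' n' : ℕ}

/-! ### basic functions -/

/-- CB2: the basic functions. -/
def Stmt_CB2 : Prop :=
  (∀ i j : ℕ, nlt i j = true ↔ i < j) ∧ (∀ i j : ℕ, nne i j = true ↔ i ≠ j) ∧
  (∀ (b : Bool) (i j : ℕ), nif b i j = if b = true then i else j) ∧
  (∀ b : Bool, bnt b = true ↔ b = false) ∧
  ∀ (a b : ℕ) (ι κ : List ℕ) (e : ℕ), embB a b ι κ e = true →
    e < b + 1 ∧ Function.Injective (ixf a b ι) ∧ (∀ d, ixf a b ι d ≠ Fin.ofNat (b + 1) e) ∧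
    (∀ d', d' = Fin.ofNat (b + 1) e ∨ ∃ d, ixf a b ι d = d') ∧
    ∀ d : Fin (a + 1), ((ixf a b ι d : Fin (b + 1)) : ℕ) = lkp 0 ι d

/-- MVR: simple relations between two states. -/
def Stmt_MVR : Prop :=
  ∀ (m n : ℕ) (A B : SD), A.Facts m n → B.Facts m n →
    (∀ T : ℤ, mvOK T A B = true → A.cb m n = B.cb m n ∧ A.W n = B.W n ∧ B.V n = A.V n ∧
      B.Q n = A.Q n + (T : ℝ) • A.V n) ∧
    (ngOK A B = true → A.cb m n = B.cb m n ∧ A.W n = B.W n ∧ B.V n = -A.V n ∧ B.Q n = A.Q n) ∧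
    (wdOK A B = true → A.cb m n = B.cb m n ∧ (∀ i, B.W n i ≤ A.W n i) ∧ B.V n = A.V n ∧
      B.Q n = A.Q n) ∧
    ∀ i : ℕ, swOK n i A B = true → SwpComb (A.cb m n) (B.cb m n) (Fin.ofNat (n + 1) i) ∧
      A.W n = B.W n ∧ B.V n = A.V n ∧ B.Q n = A.Q n

/-! ### exchange of the edges of a tip, widths -/

/-- STW: exchange of the edges of a tip. -/
def Stmt_STW : Prop :=
  ∀ (K : Set LC.R3) (sh : Shape) (m n : ℕ) (t : ℤ) (i : ℕ) (A B : SD), stOK m n A = true →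
    stOK m n B = true → swOK n i A B = true → AtD K sh m n A t → AtD K sh m n B t

/-- STV: change of the widths. `A`, `A'` are the states with the larger widths at the times `t`,
`t + 1`. -/
def Stmt_STV : Prop :=
  ∀ (K : Set LC.R3) (sh : Shape) (m n : ℕ) (t : ℤ) (A A' : SD), stOK m n A = true →
    stOK m n A' = true → goOK 1 A A' = true → mvOK 1 A A' = true →
    (∀ B : SD, stOK m n B = true → wdOK A' B = true → AtD K sh m n A t →
      AtD K sh m n B (t + 1)) ∧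
    ∀ B : SD, stOK m n B = true → wdOK A B = true → AtD K sh m n B t → AtD K sh m n A' (t + 1)

/-! ### trivial vertices -/

/-- INR: insertion of a trivial vertex at the time `t`. -/
def Stmt_INR : Prop :=
  ∀ {m n m' n' : ℕ} (K : Set LC.R3) (sh : Shape) (c : Comb m n) (c' : Comb m' n')
    (ιE : Fin m → Fin m') (ιV : Fin n → Fin n') (e₀ : Fin m) (e : Fin m') (j : Fin n')
    (w : Fin n → ℝ) (w' : Fin n' → ℝ) (q v : St n) (q' v' : St n') (t : ℝ),
    InsComb c c' ιE ιV e₀ e j → (∀ i, 0 < w i) → InsSt c c' ιV e₀ j w w' q v q' v' →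
    q.1 (c.lf e₀) + 2 * w (c.lf e₀) < q'.1 j - 2 * w' j →
    q'.1 j + 2 * w' j < q.1 (c.rt e₀) - 2 * w (c.rt e₀) →
    c.dpe q v e₀ * v.1 (c.lf e₀) = 0 → c.dpe q v e₀ * v.1 (c.rt e₀) = 0 →
    c.dpe q v e₀ * v'.1 j = 0 →
    (At K sh c w q v t ↔ At K sh c' w' q' v' t)

/-- INC: the conditions of the checker for a trivial vertex. -/
def Stmt_INC : Prop :=
  ∀ (m n m' n' : ℕ) (ιE κE ιV κV : List ℕ) (e₀ e j : ℕ) (A B : SD), A.Facts m n →
    B.Facts m' n' → A.Vals m n → B.Vals m' n' →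
    inOK m n m' n' ιE κE ιV κV e₀ e j A B = true →
    InsComb (A.cb m n) (B.cb m' n') (ixf m m' ιE) (ixf n n' ιV) (Fin.ofNat (m + 1) e₀)
      (Fin.ofNat (m' + 1) e) (Fin.ofNat (n' + 1) j) ∧
    InsSt (A.cb m n) (B.cb m' n') (ixf n n' ιV) (Fin.ofNat (m + 1) e₀) (Fin.ofNat (n' + 1) j)
      (A.W n) (B.W n') (A.Q n) (A.V n) (B.Q n') (B.V n') ∧
    (A.Q n).1 ((A.cb m n).lf (Fin.ofNat (m + 1) e₀)) +
        2 * A.W n ((A.cb m n).lf (Fin.ofNat (m + 1) e₀)) <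
      (B.Q n').1 (Fin.ofNat (n' + 1) j) - 2 * B.W n' (Fin.ofNat (n' + 1) j) ∧
    (B.Q n').1 (Fin.ofNat (n' + 1) j) + 2 * B.W n' (Fin.ofNat (n' + 1) j) <
      (A.Q n).1 ((A.cb m n).rt (Fin.ofNat (m + 1) e₀)) -
        2 * A.W n ((A.cb m n).rt (Fin.ofNat (m + 1) e₀)) ∧
    (A.cb m n).dpe (A.Q n) (A.V n) (Fin.ofNat (m + 1) e₀) *
      (B.V n').1 (Fin.ofNat (n' + 1) j) = 0

/-- STI: insertion and removal of a trivial vertex. -/
def Stmt_STI : Prop :=
  ∀ (K : Set LC.R3) (sh : Shape) (m n m' n' : ℕ) (t : ℤ) (ιE κE ιV κV : List ℕ) (e₀ e j : ℕ)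
    (A B : SD), stOK m n A = true → stOK m' n' B = true →
    inOK m n m' n' ιE κE ιV κV e₀ e j A B = true →
    (AtD K sh m n A t ↔ AtD K sh m' n' B t)

/-! ### folds -/

/-- FDR: if the relation of a fold holds at one time, then it holds at all times. -/
def Stmt_FDR : Prop :=
  ∀ {m n m' n' : ℕ} (c : Comb m n) (c' : Comb m' n') (ιE : Fin m → Fin m')
    (ιV : Fin n → Fin n') (i : Fin n) (e : Fin m') (j : Fin n') (w : Fin n → ℝ)
    (w' : Fin n' → ℝ) (q v : St n) (q' v' : St n') (s : ℝ),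
    FoldComb c c' ιE ιV i e j → FoldSt c c' ιV i j w w' q v q' v' →
    (∀ d, c.dpe q v d * v.1 (c.lf d) = 0) → (∀ d, c.dpe q v d * v.1 (c.rt d) = 0) →
    (∀ i, 0 < w i) →
    (∀ d, 2 * (w (c.lf d) + w (c.rt d)) < (q + s • v).1 (c.rt d) - (q + s • v).1 (c.lf d)) →
    FoldSt c c' ιV i j w w' (q + s • v) v (q' + s • v') v'

/-- FDC: the conditions of the checker for a fold. -/
def Stmt_FDC : Prop :=
  ∀ (m n m' n' : ℕ) (ιE κE ιV κV : List ℕ) (i e j : ℕ) (A B : SD), A.Facts m n →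
    B.Facts m' n' → A.Vals m n → B.Vals m' n' →
    fdOK m n m' n' ιE κE ιV κV i e j A B = true →
    i < n + 1 ∧
    FoldComb (A.cb m n) (B.cb m' n') (ixf m m' ιE) (ixf n n' ιV) (Fin.ofNat (n + 1) i)
      (Fin.ofNat (m' + 1) e) (Fin.ofNat (n' + 1) j) ∧
    FoldSt (A.cb m n) (B.cb m' n') (ixf n n' ιV) (Fin.ofNat (n + 1) i) (Fin.ofNat (n' + 1) j)
      (A.W n) (B.W n') (A.Q n) (A.V n) (B.Q n') (B.V n')

/-- STD: folds. `A`, `A'` are the states without the fold at the times `t`, `t + 1`. -/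
def Stmt_STD : Prop :=
  ∀ (K : Set LC.R3) (sh : Shape) (m n m' n' : ℕ) (t : ℤ) (ιE κE ιV κV : List ℕ) (i e j : ℕ)
    (A A' : SD), stOK m n A = true → stOK m n A' = true → goOK 1 A A' = true →
    mvOK 1 A A' = true → fdS i A A' = true →
    (∀ B : SD, stOK m' n' B = true → fdOK m n m' n' ιE κE ιV κV i e j A' B = true →
      AtD K sh m n A t → AtD K sh m' n' B (t + 1)) ∧
    ∀ B : SD, stOK m' n' B = true → fdOK m n m' n' ιE κE ιV κV i e j A B = true →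
      AtD K sh m' n' B t → AtD K sh m n A' (t + 1)

/-! ### saddles and the maximum -/

/-- The edge does not meet the box: conditions at the two ends of the time interval. -/
def Comb.LBE (c : Comb m n) (w : Fin n → ℝ) (E : Evt) (ρ : ℝ) (Q Q' V' : St n) (e : Fin m) :
    Prop :=
  (Q.1 (c.rt e) - 2 * w (c.rt e) < E.x₀ - ρ ∧ Q'.1 (c.rt e) - 2 * w (c.rt e) < E.x₀ - ρ) ∨
  (E.x₀ + ρ < Q.1 (c.lf e) + 2 * w (c.lf e) ∧ E.x₀ + ρ < Q'.1 (c.lf e) + 2 * w (c.lf e)) ∨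
  (c.pe Q e < min E.P₁ E.P₂ - E.g / 2 ∧ c.pe Q' e < min E.P₁ E.P₂ - E.g / 2) ∨
  (max E.P₁ E.P₂ + E.g / 2 < c.pe Q e ∧ max E.P₁ E.P₂ + E.g / 2 < c.pe Q' e) ∨
  E.ζ + |c.dpe Q' V' e| * ρ < |c.dpe Q' V' e * E.x₀ + c.dae Q' V' e - E.z₀|

/-- The vertical does not meet the box: conditions at the two ends of the time interval. -/
def Comb.LBV (c : Comb m n) (w : Fin n → ℝ) (E : Evt) (ρ : ℝ) (Q Q' V' : St n) (i : Fin n) :
    Prop :=
  (Q.1 i + 2 * w i < E.x₀ - ρ ∧ Q'.1 i + 2 * w i < E.x₀ - ρ) ∨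
  (E.x₀ + ρ < Q.1 i - 2 * w i ∧ E.x₀ + ρ < Q'.1 i - 2 * w i) ∨
  (c.phi Q i < min E.P₁ E.P₂ - E.g / 2 ∧ c.phi Q' i < min E.P₁ E.P₂ - E.g / 2) ∨
  (max E.P₁ E.P₂ + E.g / 2 < c.plo Q i ∧ max E.P₁ E.P₂ + E.g / 2 < c.plo Q' i) ∨
  ∃ σ : ℝ, |σ| = 1 ∧
    E.ζ + c.erS w Q Q' V' i < σ * (V'.2 i -
      max (min (c.plo Q i) (c.plo Q' i)) (min E.P₁ E.P₂ - E.g / 2) * V'.1 i - E.z₀) ∧
    E.ζ + c.erS w Q Q' V' i < σ * (V'.2 i -
      min (max (c.phi Q i) (c.phi Q' i)) (max E.P₁ E.P₂ + E.g / 2) * V'.1 i - E.z₀)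

/-- BXL: the box during a linear motion. -/
def Stmt_BXL : Prop :=
  ∀ {m n : ℕ} (c : Comb m n) (w : Fin n → ℝ) (T : ℝ) (E : Evt) (ρ : ℝ) (Q Q' V' : St n),
    (∀ i, 0 < w i) → c.Valid → c.Lin T Q Q' V' → E.Pos →
    (∀ e, c.LBE w E ρ Q Q' V' e → ∀ s ∈ Icc (0 : ℝ) T, c.BoxE w E ρ (Q + s • V') V' e) ∧
    ∀ i, c.LBV w E ρ Q Q' V' i → ∀ s ∈ Icc (0 : ℝ) T, c.BoxV w E ρ (Q + s • V') V' i

/-- BXI: the conditions of the checker for the box. -/
def Stmt_BXI : Prop :=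
  ∀ (m n : ℕ) (E : ED) (s₀ : ℝ) (A B : SD), A.Vals m n → B.Vals m n → A.cb m n = B.cb m n →
    A.W n = B.W n →
    (∀ e : Fin (m + 1), bxE E (A.e e) (B.e e) = true →
      (A.cb m n).LBE (A.W n) (E.ev s₀) E.ρ (A.Q n) (B.Q n) (B.V n) e) ∧
    ∀ i : Fin (n + 1), bxV E (A.v i) (B.v i) = true →
      (A.cb m n).LBV (A.W n) (E.ev s₀) E.ρ (A.Q n) (B.Q n) (B.V n) i

/-- SDC: the combinatorics of a checked saddle. -/
def Stmt_SDC : Prop :=
  ∀ (m n L R H₁ H₂ H₃ H₄ : ℕ) (E : ED) (A B C C' : SD), A.Facts m n → C.Facts m n →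
    sdOK m n L R H₁ H₂ H₃ H₄ E A B C C' = true →
    SadComb (A.cb m n) (C.cb m n) (Fin.ofNat (n + 1) L) (Fin.ofNat (n + 1) R)
      (Fin.ofNat (m + 1) H₁) (Fin.ofNat (m + 1) H₂) (Fin.ofNat (m + 1) H₃)
      (Fin.ofNat (m + 1) H₄)

/-- SDR: a checked saddle. -/
def Stmt_SDR : Prop :=
  ∀ (m n L R H₁ H₂ H₃ H₄ : ℕ) (E : ED) (A B C C' : SD) (s₀ : ℝ), stOK m n A = true →
    stOK m n B = true → stOK m n C = true → stOK m n C' = true →
    sdOK m n L R H₁ H₂ H₃ H₄ E A B C C' = true →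
    Saddle (A.cb m n) (C.cb m n) (A.W n) (Fin.ofNat (n + 1) L) (Fin.ofNat (n + 1) R)
      (Fin.ofNat (m + 1) H₁) (Fin.ofNat (m + 1) H₂) (Fin.ofNat (m + 1) H₃)
      (Fin.ofNat (m + 1) H₄) (E.ev s₀) (A.Q n + A.V n) (A.V n) (C.V n) 2 ∧
    (8 * E.r / E.v : ℝ) < 1 ∧ B.cb m n = C.cb m n ∧ B.W n = A.W n ∧ B.V n = C.V n ∧
    B.Q n = A.Q n + A.V n + C.V n

/-- STS: a saddle, two tips become two passes. -/
def Stmt_STS : Prop :=
  ∀ (K : Set LC.R3) (sh : Shape) (m n : ℕ) (t : ℤ) (L R H₁ H₂ H₃ H₄ : ℕ) (E : ED)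
    (A B C C' : SD), stOK m n A = true → stOK m n B = true → stOK m n C = true →
    stOK m n C' = true → sdOK m n L R H₁ H₂ H₃ H₄ E A B C C' = true → 2 ≤ t →
    AtD K sh m n A t → AtD K sh m n B (t + 2)

/-- STM: a saddle, two passes become two tips; `A'`, `B'` are `A`, `B` with reversed velocities. -/
def Stmt_STM : Prop :=
  ∀ (K : Set LC.R3) (sh : Shape) (m n : ℕ) (t : ℤ) (L R H₁ H₂ H₃ H₄ : ℕ) (E : ED)
    (A B C C' A' B' : SD), stOK m n A = true → stOK m n B = true → stOK m n C = true →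
    stOK m n C' = true → stOK m n A' = true → stOK m n B' = true →
    sdOK m n L R H₁ H₂ H₃ H₄ E A B C C' = true → ngOK A A' = true → ngOK B B' = true → 2 ≤ t →
    AtD K sh m n B' t → AtD K sh m n A' (t + 2)

/-- STX: the maximum. -/
def Stmt_STX : Prop :=
  ∀ (K : Set LC.R3) (sh : Shape) (t : ℤ) (lt rt pa pb H₁ H₂ H₃ H₄ : ℕ) (E : ED) (A : SD),
    stOK 3 3 A = true → dtOK lt rt pa pb H₁ H₂ H₃ H₄ E A = true →
    AtD K sh 3 3 A t → Capped K

/-! ### the beginning -/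

/-- STB: the beginning. -/
def Stmt_STB : Prop :=
  ∀ (sh : Shape) (n : ℕ) (A A' : SD), stOK n n A = true → stOK n n A' = true →
    bgOK n A A' = true → ∃ Λ : LC.LegKnot,
      Λ.carrier = (A.cb n n).knot sh (A.W n) (A.Q n) ∧ AtD Λ.carrier sh n n A 1

end LCA


end

section

/-!
# MVR: simple relations between two states
-/

namespace LCA

open Set Filter
open scoped ContDiff Topology

namespace MVR

/-- The combinatorics are equal if the data of all edges and vertices are equal. -/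
theorem cb_eq {m n : ℕ} {A B : SD}
    (hE : ∀ i, i < m + 1 → (A.e i).lf = (B.e i).lf ∧ (A.e i).rt = (B.e i).rt)
    (hV : ∀ i, i < n + 1 → (A.v i).ty = (B.v i).ty ∧ (A.v i).ea = (B.v i).ea ∧
      (A.v i).eb = (B.v i).eb) : A.cb m n = B.cb m n := by
  unfold SD.cb
  rw [Comb.mk.injEq]
  refine ⟨?_, ?_, ?_, ?_, ?_⟩
  · funext e
    rw [(hE e e.2).1]
  · funext e
    rw [(hE e e.2).2]
  · funext i
    rw [(hV i i.2).1]
  · funext i
    rw [(hV i i.2).2.1]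
  · funext i
    rw [(hV i i.2).2.2]

/-- The list of the edges. -/
theorem edges (hCBL : Stmt_CBL) {m n : ℕ} {A B : SD} (fA : A.Facts m n) (fB : B.Facts m n)
    (h : all2 smE A.es B.es = true) :
    ∀ i, i < m + 1 → (A.e i).lf = (B.e i).lf ∧ (A.e i).rt = (B.e i).rt := by
  obtain ⟨hb, ho, hl, he, -, -, -, -, -, h2, -, -⟩ := hCBL
  intro i hi
  have h1 := (h2 ES ES es0 es0 smE A.es B.es).mp h i (by rw [fA.lenE]; exact hi)
    (by rw [fB.lenE]; exact hi)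
  unfold smE at h1
  rw [hb] at h1
  exact ⟨Nat.eq_of_beq_eq_true h1.1, Nat.eq_of_beq_eq_true h1.2⟩

/-- The list of the vertices. -/
theorem verts (hCBL : Stmt_CBL) {m n : ℕ} {A B : SD} (fA : A.Facts m n) (fB : B.Facts m n)
    {p : VS → VS → Bool} (h : all2 p A.vs B.vs = true) :
    ∀ i, i < n + 1 → p (A.v i) (B.v i) = true := by
  obtain ⟨hb, ho, hl, he, -, -, -, -, -, h2, -, -⟩ := hCBL
  intro i hi
  exact (h2 VS VS vs0 vs0 p A.vs B.vs).mp h i (by rw [fA.lenV]; exact hi)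
    (by rw [fB.lenV]; exact hi)

end MVR

theorem t_MVR (hCBL : Stmt_CBL) (hCB2 : Stmt_CB2) : Stmt_MVR := by
  intro m n A B fA fB
  have hCBL' := hCBL
  obtain ⟨hb, ho, hl, he, -, -, -, -, -, h2, h2I, -⟩ := hCBL'
  obtain ⟨hnl, hnn, -, hbn, -⟩ := hCB2
  refine ⟨?_, ?_, ?_, ?_⟩
  · intro T h
    unfold mvOK at h
    rw [hb] at h
    have hE := MVR.edges hCBL fA fB h.2
    have hV : ∀ i, i < n + 1 → (A.v i).ty = (B.v i).ty ∧ (A.v i).ea = (B.v i).ea ∧
        (A.v i).eb = (B.v i).eb ∧ (A.v i).w = (B.v i).w ∧ (A.v i).dx = (B.v i).dx ∧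
        (A.v i).dF = (B.v i).dF ∧ (B.v i).x = (A.v i).x + T * (B.v i).dx ∧
        (B.v i).F = (A.v i).F + T * (B.v i).dF := by
      intro i hi
      have h1 := MVR.verts hCBL fA fB h.1 i hi
      unfold mvV at h1
      rw [hb, hb, hb, hb, hb, hb, hb, he, he, he, he, he] at h1
      obtain ⟨a1, a2, a3, a4, a5, a6, a7, a8⟩ := h1
      exact ⟨Nat.eq_of_beq_eq_true a1, Nat.eq_of_beq_eq_true a2, Nat.eq_of_beq_eq_true a3, a4, a5,
        a6, a7, a8⟩
    refine ⟨MVR.cb_eq hE (fun i hi => ⟨(hV i hi).1, (hV i hi).2.1, (hV i hi).2.2.1⟩), ?_, ?_, ?_⟩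
    · funext i
      show ((A.v i).w : ℝ) = ((B.v i).w : ℝ)
      rw [(hV i i.2).2.2.2.1]
    · refine Prod.ext ?_ ?_
      · funext i
        show ((B.v i).dx : ℝ) = ((A.v i).dx : ℝ)
        rw [(hV i i.2).2.2.2.2.1]
      · funext i
        show ((B.v i).dF : ℝ) = ((A.v i).dF : ℝ)
        rw [(hV i i.2).2.2.2.2.2.1]
    · refine Prod.ext ?_ ?_
      · funext i
        show ((B.v i).x : ℝ) = ((A.v i).x : ℝ) + (T : ℝ) * ((A.v i).dx : ℝ)
        rw [(hV i i.2).2.2.2.2.1]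
        exact_mod_cast (hV i i.2).2.2.2.2.2.2.1
      · funext i
        show ((B.v i).F : ℝ) = ((A.v i).F : ℝ) + (T : ℝ) * ((A.v i).dF : ℝ)
        rw [(hV i i.2).2.2.2.2.2.1]
        exact_mod_cast (hV i i.2).2.2.2.2.2.2.2
  · intro h
    unfold ngOK at h
    rw [hb] at h
    have hE := MVR.edges hCBL fA fB h.2
    have hV : ∀ i, i < n + 1 → (A.v i).ty = (B.v i).ty ∧ (A.v i).ea = (B.v i).ea ∧
        (A.v i).eb = (B.v i).eb ∧ (A.v i).w = (B.v i).w ∧ (A.v i).x = (B.v i).x ∧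
        (A.v i).F = (B.v i).F ∧ (B.v i).dx = -(A.v i).dx ∧ (B.v i).dF = -(A.v i).dF := by
      intro i hi
      have h1 := MVR.verts hCBL fA fB h.1 i hi
      unfold ngV at h1
      rw [hb, hb, hb, hb, hb, hb, hb, he, he, he, he, he] at h1
      obtain ⟨a1, a2, a3, a4, a5, a6, a7, a8⟩ := h1
      exact ⟨Nat.eq_of_beq_eq_true a1, Nat.eq_of_beq_eq_true a2, Nat.eq_of_beq_eq_true a3, a4, a5,
        a6, a7, a8⟩
    refine ⟨MVR.cb_eq hE (fun i hi => ⟨(hV i hi).1, (hV i hi).2.1, (hV i hi).2.2.1⟩), ?_, ?_, ?_⟩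
    · funext i
      show ((A.v i).w : ℝ) = ((B.v i).w : ℝ)
      rw [(hV i i.2).2.2.2.1]
    · refine Prod.ext ?_ ?_
      · funext i
        show ((B.v i).dx : ℝ) = -((A.v i).dx : ℝ)
        exact_mod_cast (hV i i.2).2.2.2.2.2.2.1
      · funext i
        show ((B.v i).dF : ℝ) = -((A.v i).dF : ℝ)
        exact_mod_cast (hV i i.2).2.2.2.2.2.2.2
    · refine Prod.ext ?_ ?_
      · funext i
        show ((B.v i).x : ℝ) = ((A.v i).x : ℝ)
        rw [(hV i i.2).2.2.2.2.1]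
      · funext i
        show ((B.v i).F : ℝ) = ((A.v i).F : ℝ)
        rw [(hV i i.2).2.2.2.2.2.1]
  · intro h
    unfold wdOK at h
    rw [hb] at h
    have hE := MVR.edges hCBL fA fB h.2
    have hV : ∀ i, i < n + 1 → (A.v i).ty = (B.v i).ty ∧ (A.v i).ea = (B.v i).ea ∧
        (A.v i).eb = (B.v i).eb ∧ (A.v i).x = (B.v i).x ∧ (A.v i).F = (B.v i).F ∧
        (A.v i).dx = (B.v i).dx ∧ (A.v i).dF = (B.v i).dF ∧ (B.v i).w ≤ (A.v i).w := by
      intro i hi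
      have h1 := MVR.verts hCBL fA fB h.1 i hi
      unfold wdV at h1
      rw [hb, hb, hb, hb, hb, hb, hb, he, he, he, he, hbn] at h1
      obtain ⟨a1, a2, a3, a4, a5, a6, a7, a8⟩ := h1
      refine ⟨Nat.eq_of_beq_eq_true a1, Nat.eq_of_beq_eq_true a2, Nat.eq_of_beq_eq_true a3, a4, a5,
        a6, a7, ?_⟩
      by_contra hlt
      rw [not_le] at hlt
      rw [(hl _ _).mpr hlt] at a8
      exact Bool.noConfusion a8
    refine ⟨MVR.cb_eq hE (fun i hi => ⟨(hV i hi).1, (hV i hi).2.1, (hV i hi).2.2.1⟩), ?_, ?_, ?_⟩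
    · intro i
      show ((B.v i).w : ℝ) ≤ ((A.v i).w : ℝ)
      exact_mod_cast (hV i i.2).2.2.2.2.2.2.2
    · refine Prod.ext ?_ ?_
      · funext i
        show ((B.v i).dx : ℝ) = ((A.v i).dx : ℝ)
        rw [(hV i i.2).2.2.2.2.2.1]
      · funext i
        show ((B.v i).dF : ℝ) = ((A.v i).dF : ℝ)
        rw [(hV i i.2).2.2.2.2.2.2.1]
    · refine Prod.ext ?_ ?_
      · funext i
        show ((B.v i).x : ℝ) = ((A.v i).x : ℝ)
        rw [(hV i i.2).2.2.2.1]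
      · funext i
        show ((B.v i).F : ℝ) = ((A.v i).F : ℝ)
        rw [(hV i i.2).2.2.2.2.1]
  · intro i h
    unfold swOK at h
    rw [hb, hb] at h
    obtain ⟨hi, hv, hes⟩ := h
    rw [hnl] at hi
    have hi' : i < n + 1 := hi
    have hE := MVR.edges hCBL fA fB hes
    have hV : ∀ k, k < n + 1 → (A.v k).ty = (B.v k).ty ∧ (A.v k).w = (B.v k).w ∧
        (A.v k).x = (B.v k).x ∧ (A.v k).F = (B.v k).F ∧
        (A.v k).dx = (B.v k).dx ∧ (A.v k).dF = (B.v k).dF ∧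
        ((k = i ∧ (A.v k).ty ≠ 0 ∧ (A.v k).ea = (B.v k).eb ∧ (A.v k).eb = (B.v k).ea) ∨
          (k ≠ i ∧ (A.v k).ea = (B.v k).ea ∧ (A.v k).eb = (B.v k).eb)) := by
      intro k hk
      have h1 := (h2I VS VS vs0 vs0 (swV i) A.vs B.vs).mp hv k (by rw [fA.lenV]; exact hk)
        (by rw [fB.lenV]; exact hk)
      unfold swV at h1
      rw [hb, hb, hb, hb, hb, hb, ho, hb, hb, hb, hb, hb, he, he, he, he, he, hnn, hnn] at h1
      obtain ⟨a1, a2, a3, a4, a5, a6, a7⟩ := h1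
      refine ⟨Nat.eq_of_beq_eq_true a1, a2, a3, a4, a5, a6, ?_⟩
      rcases a7 with a7 | a7
      · exact Or.inl ⟨Nat.eq_of_beq_eq_true a7.1, a7.2.1, Nat.eq_of_beq_eq_true a7.2.2.1,
          Nat.eq_of_beq_eq_true a7.2.2.2⟩
      · exact Or.inr ⟨a7.1, Nat.eq_of_beq_eq_true a7.2.1, Nat.eq_of_beq_eq_true a7.2.2⟩
    have hiv : ((Fin.ofNat (n + 1) i : Fin (n + 1)) : ℕ) = i := by
      rw [Fin.val_ofNat]
      exact Nat.mod_eq_of_lt hi'
    have hii : (A.v i).ty ≠ 0 ∧ (A.v i).ea = (B.v i).eb ∧ (A.v i).eb = (B.v i).ea := by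
      rcases (hV i hi').2.2.2.2.2.2 with h | h
      · exact h.2
      · exact absurd rfl h.1
    refine ⟨⟨fA.valid, ?_, ?_, ?_, ?_, ?_, ?_, ?_, ?_⟩, ?_, ?_, ?_⟩
    · show tyOf (A.v ((Fin.ofNat (n + 1) i : Fin (n + 1)) : ℕ)).ty ≠ .P
      rw [hiv]
      rcases fA.ty i hi' with h | h | h
      · exact absurd h hii.1
      · rw [h]
        intro h'
        exact Ty.noConfusion h'
      · rw [h]
        intro h'
        exact Ty.noConfusion h'
    · funext e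
      show Fin.ofNat (n + 1) (B.e e).lf = Fin.ofNat (n + 1) (A.e e).lf
      rw [(hE e e.2).1]
    · funext e
      show Fin.ofNat (n + 1) (B.e e).rt = Fin.ofNat (n + 1) (A.e e).rt
      rw [(hE e e.2).2]
    · funext k
      show tyOf (B.v k).ty = tyOf (A.v k).ty
      rw [(hV k k.2).1]
    · show Fin.ofNat (m + 1) (B.v ((Fin.ofNat (n + 1) i : Fin (n + 1)) : ℕ)).ea =
        Fin.ofNat (m + 1) (A.v ((Fin.ofNat (n + 1) i : Fin (n + 1)) : ℕ)).eb
      rw [hiv, hii.2.2]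
    · show Fin.ofNat (m + 1) (B.v ((Fin.ofNat (n + 1) i : Fin (n + 1)) : ℕ)).eb =
        Fin.ofNat (m + 1) (A.v ((Fin.ofNat (n + 1) i : Fin (n + 1)) : ℕ)).ea
      rw [hiv, hii.2.1]
    · intro j hj
      have hj' : (j : ℕ) ≠ i := by
        intro h
        apply hj
        apply Fin.ext
        rw [hiv]
        exact h
      show Fin.ofNat (m + 1) (B.v j).ea = Fin.ofNat (m + 1) (A.v j).ea
      rcases (hV j j.2).2.2.2.2.2.2 with h | h
      · exact absurd h.1 hj'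
      · rw [h.2.1]
    · intro j hj
      have hj' : (j : ℕ) ≠ i := by
        intro h
        apply hj
        apply Fin.ext
        rw [hiv]
        exact h
      show Fin.ofNat (m + 1) (B.v j).eb = Fin.ofNat (m + 1) (A.v j).eb
      rcases (hV j j.2).2.2.2.2.2.2 with h | h
      · exact absurd h.1 hj'
      · rw [h.2.2]
    · funext k
      show ((A.v k).w : ℝ) = ((B.v k).w : ℝ)
      rw [(hV k k.2).2.1]
    · refine Prod.ext ?_ ?_
      · funext k
        show ((B.v k).dx : ℝ) = ((A.v k).dx : ℝ)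
        rw [(hV k k.2).2.2.2.2.1]
      · funext k
        show ((B.v k).dF : ℝ) = ((A.v k).dF : ℝ)
        rw [(hV k k.2).2.2.2.2.2.1]
    · refine Prod.ext ?_ ?_
      · funext k
        show ((B.v k).x : ℝ) = ((A.v k).x : ℝ)
        rw [(hV k k.2).2.2.1]
      · funext k
        show ((B.v k).F : ℝ) = ((A.v k).F : ℝ)
        rw [(hV k k.2).2.2.2.1]

end LCA


end

section

/-!
# Part A: exchange of the edges of a tip (module STW)
-/

set_option autoImplicit false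

namespace LCA

open Set Filter
open scoped ContDiff Topology

namespace STW

theorem near {m n : ℕ} (c : Comb m n) (Q V : St n) (t : ℝ)
    (h : ∀ e, Q.1 (c.lf e) < Q.1 (c.rt e)) :
    ∃ η > 0, ∀ s ∈ Ioo (t - η) (t + η), ∀ e,
      (lin Q V t s).1 (c.lf e) < (lin Q V t s).1 (c.rt e) := by
  have h1 : ∀ i, Continuous fun s : ℝ => (lin Q V t s).1 i := by
    intro i
    have h2 : (fun s : ℝ => (lin Q V t s).1 i) = fun s : ℝ => Q.1 i + (s - t) * V.1 i := by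
      funext s
      simp [lin]
    rw [h2]
    fun_prop
  have h3 : ∀ᶠ s in 𝓝 t, ∀ e, (lin Q V t s).1 (c.lf e) < (lin Q V t s).1 (c.rt e) := by
    rw [eventually_all]
    intro e
    have h4 : (lin Q V t t).1 (c.lf e) < (lin Q V t t).1 (c.rt e) := by
      simpa [lin] using h e
    exact (h1 _).continuousAt.eventually_lt (h1 _).continuousAt h4
  obtain ⟨η, hη, h5⟩ := Metric.eventually_nhds_iff.1 h3
  refine ⟨η, hη, fun s hs => h5 ?_⟩
  rw [Real.dist_eq, abs_lt]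
  constructor
  · linarith [hs.1]
  · linarith [hs.2]

end STW

theorem t_STW (hMVR : Stmt_MVR) (hSTF : Stmt_STF) (hSVL : Stmt_SVL) (hSWP : Stmt_SWP)
    (hEQA : Stmt_EQA) : Stmt_STW := by
  intro K sh m n t i A B hA hB hsw hAt
  have FA := hSTF m n A hA
  have FB := hSTF m n B hB
  have VA := hSVL m n A FA
  obtain ⟨hC, hW, hV, hQ⟩ := (hMVR m n A B FA FB).2.2.2 i hsw
  unfold AtD at hAt ⊢
  rw [← hW, hV, hQ]
  have hlen : ∀ e, (A.Q n).1 ((A.cb m n).lf e) < (A.Q n).1 ((A.cb m n).rt e) := by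
    intro e
    have h1 := VA.len e
    have h2 := VA.wpos ((A.cb m n).lf e)
    have h3 := VA.wpos ((A.cb m n).rt e)
    linarith
  obtain ⟨η, hη, h4⟩ := STW.near (A.cb m n) (A.Q n) (A.V n) (t : ℝ) hlen
  exact hEQA K sh (A.cb m n) (A.W n) (A.Q n) (A.V n) (B.cb m n) (A.W n) (A.Q n) (A.V n) t η hη
    (fun s hs => (hSWP sh (A.cb m n) (B.cb m n) (A.W n) (Fin.ofNat (n + 1) i)
      (lin (A.Q n) (A.V n) t s) (A.V n) hC (h4 s hs)).2) hAt

end LCA


end

section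

/-!
# Part A, INR: insertion of a trivial vertex, real numbers
-/

namespace LCA

open Set Filter
open scoped ContDiff Topology

variable {m n m' n' : ℕ}

namespace INR

theorem alg {x y vx vy f g vf vg s : ℝ}
    (h' : 0 < y - x) (hs : 0 < (y + s * vy) - (x + s * vx))
    {p d : ℝ} (hp : p = (g - f) / (y - x))
    (hd : d = (vg - vf - p * (vy - vx)) / (y - x))
    (h1 : d * vx = 0) (h2 : d * vy = 0) :
    ((g + s * vg) - (f + s * vf)) / ((y + s * vy) - (x + s * vx)) = p + s * d ∧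
    (vg - vf - (p + s * d) * (vy - vx)) / ((y + s * vy) - (x + s * vx)) = d ∧
    vf - d * (x + s * vx) - (p + s * d) * vx = vf - d * x - p * vx ∧
    (f + s * vf) - (p + s * d) * (x + s * vx) = (f - p * x) + s * (vf - d * x - p * vx) := by
  have hp' : p * (y - x) = g - f := by
    rw [hp, div_mul_cancel₀ _ h'.ne']
  have hd' : d * (y - x) = vg - vf - p * (vy - vx) := by
    rw [hd, div_mul_cancel₀ _ h'.ne']
  refine ⟨?_, ?_, ?_, ?_⟩
  · rw [div_eq_iff hs.ne']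
    linear_combination (-1 : ℝ) * hp' - s * hd' - s ^ 2 * h2 + s ^ 2 * h1
  · rw [div_eq_iff hs.ne']
    linear_combination (-1 : ℝ) * hd' - 2 * s * h2 + 2 * s * h1
  · linear_combination (-2 : ℝ) * s * h1
  · linear_combination (- s ^ 2) * h1

/-- The slopes at the time `s`. -/
theorem slopes (c : Comb m n) (q v : St n) (e : Fin m) (s : ℝ)
    (h0 : q.1 (c.lf e) < q.1 (c.rt e))
    (h1 : c.dpe q v e * v.1 (c.lf e) = 0) (h2 : c.dpe q v e * v.1 (c.rt e) = 0)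
    (hs : (q + s • v).1 (c.lf e) < (q + s • v).1 (c.rt e)) :
    c.pe (q + s • v) e = c.pe q e + s * c.dpe q v e ∧
    c.dpe (q + s • v) v e = c.dpe q v e ∧ c.dae (q + s • v) v e = c.dae q v e ∧
    c.ae (q + s • v) e = c.ae q e + s * c.dae q v e := by
  have key := alg (x := q.1 (c.lf e)) (y := q.1 (c.rt e)) (vx := v.1 (c.lf e))
    (vy := v.1 (c.rt e)) (f := q.2 (c.lf e)) (g := q.2 (c.rt e)) (vf := v.2 (c.lf e))
    (vg := v.2 (c.rt e)) (s := s) (sub_pos.mpr h0) (sub_pos.mpr hs)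
    (p := c.pe q e) (d := c.dpe q v e) rfl rfl h1 h2
  have k1 : c.pe (q + s • v) e = c.pe q e + s * c.dpe q v e := key.1
  have k2 : c.dpe (q + s • v) v e = c.dpe q v e := by
    have : c.dpe (q + s • v) v e = (v.2 (c.rt e) - v.2 (c.lf e) -
      c.pe (q + s • v) e * (v.1 (c.rt e) - v.1 (c.lf e))) /
      ((q + s • v).1 (c.rt e) - (q + s • v).1 (c.lf e)) := rfl
    rw [this, k1]
    exact key.2.1
  refine ⟨k1, k2, ?_, ?_⟩
  · have : c.dae (q + s • v) v e = v.2 (c.lf e) - c.dpe (q + s • v) v e *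
      (q + s • v).1 (c.lf e) - c.pe (q + s • v) e * v.1 (c.lf e) := rfl
    rw [this, k2, k1]
    exact key.2.2.1
  · have : c.ae (q + s • v) e = (q + s • v).2 (c.lf e) - c.pe (q + s • v) e *
      (q + s • v).1 (c.lf e) := rfl
    rw [this, k1]
    exact key.2.2.2

/-- Strict inequalities between the positions hold near the time `t`. -/
theorem near_lt (a b a' b' t : ℝ) (h : a < b) :
    ∀ᶠ s in 𝓝 t, a + (s - t) * a' < b + (s - t) * b' := by
  have hc : Continuous fun s : ℝ => a + (s - t) * a' := by fun_prop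
  have hc' : Continuous fun s : ℝ => b + (s - t) * b' := by fun_prop
  refine hc.continuousAt.eventually_lt hc'.continuousAt ?_
  simpa using h

theorem insSt_at {c : Comb m n} {c' : Comb m' n'} {ιV : Fin n → Fin n'} {e₀ : Fin m} {j : Fin n'}
    {w : Fin n → ℝ} {w' : Fin n' → ℝ} {q v : St n} {q' v' : St n'}
    (hI : InsSt c c' ιV e₀ j w w' q v q' v') (h1 : c.dpe q v e₀ * v.1 (c.lf e₀) = 0)
    (h2 : c.dpe q v e₀ * v.1 (c.rt e₀) = 0) (h3 : c.dpe q v e₀ * v'.1 j = 0) (u : ℝ)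
    (hl : ∀ d, (q + u • v).1 (c.lf d) < (q + u • v).1 (c.rt d))
    (hL : (q + u • v).1 (c.lf e₀) + 2 * w (c.lf e₀) ≤ (q' + u • v').1 j - 2 * w' j)
    (hR : (q' + u • v').1 j + 2 * w' j ≤ (q + u • v).1 (c.rt e₀) - 2 * w (c.rt e₀)) :
    InsSt c c' ιV e₀ j w w' (q + u • v) v (q' + u • v') v' := by
  obtain ⟨k1, k2, k3, k4⟩ := slopes c q v e₀ u (hI.len e₀) h1 h2 (hl e₀)
  refine ⟨hl, hI.hw, hI.wj, ?_, ?_, hI.vx, hI.vF, hL, hR, ?_, ?_⟩
  · intro k
    change q'.1 (ιV k) + u * v'.1 (ιV k) = q.1 k + u * v.1 k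
    rw [hI.qx, hI.vx]
  · intro k
    change q'.2 (ιV k) + u * v'.2 (ιV k) = q.2 k + u * v.2 k
    rw [hI.qF, hI.vF]
  · rw [k1, k4]
    change q'.2 j + u * v'.2 j = (c.pe q e₀ + u * c.dpe q v e₀) * (q'.1 j + u * v'.1 j) +
      (c.ae q e₀ + u * c.dae q v e₀)
    linear_combination hI.Fj + u * hI.vj - u ^ 2 * h3
  · rw [k1, k2, k3]
    change v'.2 j = c.dpe q v e₀ * (q'.1 j + u * v'.1 j) + c.dae q v e₀ +
      (c.pe q e₀ + u * c.dpe q v e₀) * v'.1 j
    linear_combination hI.vj - 2 * u * h3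

end INR

open _root_.LCA.INR in
theorem t_INR (hLNP : Stmt_LNP) (hINS : Stmt_INS) (hEQA : Stmt_EQA) : Stmt_INR := by
  intro m n m' n' K sh c c' ιE ιV e₀ e j w w' q v q' v' t hC hw hI hL hR h1 h2 h3
  clear hLNP
  have e1 : ∀ᶠ s in 𝓝 t, ∀ d, q.1 (c.lf d) + (s - t) * v.1 (c.lf d) <
      q.1 (c.rt d) + (s - t) * v.1 (c.rt d) := by
    rw [eventually_all]
    intro d
    exact near_lt _ _ _ _ _ (hI.len d)
  have e2 := near_lt _ _ (v.1 (c.lf e₀)) (v'.1 j) t hL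
  have e3 := near_lt _ _ (v'.1 j) (v.1 (c.rt e₀)) t hR
  obtain ⟨η, hη, hball⟩ := Metric.eventually_nhds_iff_ball.1 (e1.and (e2.and e3))
  have key : ∀ s ∈ Ioo (t - η) (t + η), c.slice w (c.sp sh) 0 (lin q v t s) v =
      c'.slice w' (c'.sp sh) 0 (lin q' v' t s) v' := by
    intro s hs
    have hsb : s ∈ Metric.ball t η := by
      rw [Real.ball_eq_Ioo]
      exact hs
    obtain ⟨f1, f2, f3⟩ := hball s hsb
    refine (hINS sh c c' ιE ιV e₀ e j w w' (q + (s - t) • v) v (q' + (s - t) • v') v' hC hw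
      (insSt_at hI h1 h2 h3 (s - t) f1 ?_ ?_)).2
    · change q.1 (c.lf e₀) + (s - t) * v.1 (c.lf e₀) + 2 * w (c.lf e₀) ≤
        q'.1 j + (s - t) * v'.1 j - 2 * w' j
      linarith
    · change q'.1 j + (s - t) * v'.1 j + 2 * w' j ≤
        q.1 (c.rt e₀) + (s - t) * v.1 (c.rt e₀) - 2 * w (c.rt e₀)
      linarith
  constructor
  · intro h
    exact hEQA K sh c w q v c' w' q' v' t η hη key h
  · intro h
    exact hEQA K sh c' w' q' v' c w q v t η hη (fun s hs => (key s hs).symm) h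

end LCA


end

section

/-!
# INC: insertion of a trivial vertex, the checker
-/

namespace LCA

open Set Filter
open scoped ContDiff Topology

namespace INC

theorem val_ofNat (b a : ℕ) (h : a < b + 1) : ((Fin.ofNat (b + 1) a : Fin (b + 1)) : ℕ) = a := by
  rw [Fin.val_ofNat]
  exact Nat.mod_eq_of_lt h

end INC

open _root_.LCA.INC in
theorem t_INC (hCBL : Stmt_CBL) (hCB2 : Stmt_CB2) : Stmt_INC := by
  intro m n m' n' ιE κE ιV κV e₀ e j A B hA hB vA vB h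
  obtain ⟨hbnd, hbor, hilt, hieq, -, -, -, -, hallI, -, -, -⟩ := hCBL
  obtain ⟨hnlt, hnne, hnif, -, hemb⟩ := hCB2
  have hbeq : ∀ i k : ℕ, Nat.beq i k = true ↔ i = k := fun i k => by
    rw [Nat.beq_eq]
  unfold inOK at h
  simp only [hbnd] at h
  obtain ⟨h1, h2, h3, h4, h5, h6, h7, h8, h9, h10, h11, h12, h13, h14, h15⟩ := h
  rw [hnlt] at h1
  obtain ⟨he, injE, newE, covE, valE⟩ := hemb _ _ _ _ _ h2
  obtain ⟨hj, injV, newV, covV, valV⟩ := hemb _ _ _ _ _ h3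
  rw [hallI VS vs0] at h4
  rw [hallI ES es0] at h5
  rw [hbeq] at h6 h7 h8 h9 h10
  rw [hilt] at h11 h12
  rw [hieq] at h13 h14 h15
  rw [hA.lenV] at h4
  rw [hA.lenE] at h5
  set E0 : Fin (m + 1) := Fin.ofNat (m + 1) e₀ with hE0
  set J : Fin (n' + 1) := Fin.ofNat (n' + 1) j with hJ
  set EE : Fin (m' + 1) := Fin.ofNat (m' + 1) e with hEE
  have vE0 : (E0 : ℕ) = e₀ := val_ofNat m e₀ h1
  have vJ : (J : ℕ) = j := val_ofNat n' j hj
  have vEE : (EE : ℕ) = e := val_ofNat m' e he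
  -- the vertices
  have h4' : ∀ k : Fin (n + 1), (A.v k).ty = (B.v (lkp 0 ιV k)).ty ∧
      (A.v k).w = (B.v (lkp 0 ιV k)).w ∧ (A.v k).x = (B.v (lkp 0 ιV k)).x ∧
      (A.v k).F = (B.v (lkp 0 ιV k)).F ∧ (A.v k).dx = (B.v (lkp 0 ιV k)).dx ∧
      (A.v k).dF = (B.v (lkp 0 ιV k)).dF ∧
      (B.v (lkp 0 ιV k)).ea = (if ((k : ℕ) = (A.e e₀).rt ∧ (A.v k).ea = e₀) then e
        else lkp 0 ιE (A.v k).ea) ∧
      (B.v (lkp 0 ιV k)).eb = (if ((k : ℕ) = (A.e e₀).rt ∧ (A.v k).eb = e₀) then e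
        else lkp 0 ιE (A.v k).eb) := by
    intro k
    have h := h4 k k.2
    have h' : inV ιE e₀ e (A.e e₀).rt k (A.v k) (B.v (lkp 0 ιV k)) = true := h
    unfold inV at h'
    simp only [hbnd, hbeq, hieq, hnif] at h'
    exact h'
  have h5' : ∀ d : Fin (m + 1), (B.e (lkp 0 ιE d)).lf = lkp 0 ιV (A.e d).lf ∧
      (B.e (lkp 0 ιE d)).rt = (if (d : ℕ) = e₀ then j else lkp 0 ιV (A.e d).rt) := by
    intro d
    have h := h5 d d.2
    have h' : bnd (Nat.beq (B.e (lkp 0 ιE d)).lf (lkp 0 ιV (A.e d).lf))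
      (Nat.beq (B.e (lkp 0 ιE d)).rt (nif (Nat.beq d e₀) j (lkp 0 ιV (A.e d).rt))) = true := h
    simp only [hbnd, hbeq, hnif] at h'
    exact h'
  have hrt : ∀ k : Fin (n + 1), k = (A.cb m n).rt E0 ↔ (k : ℕ) = (A.e e₀).rt := by
    intro k
    rw [Fin.ext_iff, vA.rtv, vE0]
  have hea : ∀ k : Fin (n + 1), (A.cb m n).ea k = E0 ↔ (A.v k).ea = e₀ := by
    intro k
    rw [Fin.ext_iff, vA.eav, vE0]
  have heb : ∀ k : Fin (n + 1), (A.cb m n).eb k = E0 ↔ (A.v k).eb = e₀ := by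
    intro k
    rw [Fin.ext_iff, vA.ebv, vE0]
  have L1 : (A.Q n).1 ((A.cb m n).lf E0) + 2 * A.W n ((A.cb m n).lf E0) <
      (B.Q n').1 J - 2 * B.W n' J := by
    rw [vA.il, vB.jl, vE0, vJ]
    exact_mod_cast h11
  have L2 : (B.Q n').1 J + 2 * B.W n' J <
      (A.Q n).1 ((A.cb m n).rt E0) - 2 * A.W n ((A.cb m n).rt E0) := by
    rw [vA.ir, vB.jr, vE0, vJ]
    exact_mod_cast h12
  have qJ : (B.Q n').1 J = ((B.v j).x : ℝ) := by
    have : (B.Q n').1 J = ((B.v J).x : ℝ) := rfl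
    rw [this, vJ]
  have FJ : (B.Q n').2 J = ((B.v j).F : ℝ) := by
    have : (B.Q n').2 J = ((B.v J).F : ℝ) := rfl
    rw [this, vJ]
  have dxJ : (B.V n').1 J = ((B.v j).dx : ℝ) := by
    have : (B.V n').1 J = ((B.v J).dx : ℝ) := rfl
    rw [this, vJ]
  have dFJ : (B.V n').2 J = ((B.v j).dF : ℝ) := by
    have : (B.V n').2 J = ((B.v J).dF : ℝ) := rfl
    rw [this, vJ]
  refine ⟨⟨vA.valid, injE, injV, newE, newV, covE, covV, ?_, ?_, ?_, ?_, ?_, ?_, ?_, ?_, ?_, ?_,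
    ?_, ?_, ?_⟩, ⟨?_, ?_, ?_, ?_, ?_, ?_, ?_, L1.le, L2.le, ?_, ?_⟩, L1, L2, ?_⟩
  · -- ty
    intro k
    have h := (h4' k).1
    have h' : (B.cb m' n').ty (ixf n n' ιV k) = tyOf (B.v (ixf n n' ιV k)).ty := rfl
    rw [h', valV, ← h]
    rfl
  · -- tyj
    have h' : (B.cb m' n').ty J = tyOf (B.v J).ty := rfl
    rw [h', vJ, h6]
    rfl
  · -- eaj
    apply Fin.ext
    rw [vB.eav, valE, vJ, h7, vE0]
  · -- ebj
    apply Fin.ext
    rw [vB.ebv, vJ, h8, vEE]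
  · -- lf
    intro d
    apply Fin.ext
    rw [vB.lfv, valE, valV, vA.lfv]
    exact (h5' d).1
  · -- rt
    intro d hd
    apply Fin.ext
    rw [vB.rtv, valE, valV, vA.rtv, (h5' d).2, if_neg]
    intro h
    exact hd (Fin.ext (by rw [h, vE0]))
  · -- rt₀
    apply Fin.ext
    rw [vB.rtv, valE, (h5' E0).2, if_pos vE0, vJ]
  · -- lfe
    apply Fin.ext
    rw [vB.lfv, vEE, h9, vJ]
  · -- rte
    apply Fin.ext
    rw [vB.rtv, vEE, h10, valV, vA.rtv, vE0]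
  · -- ea
    intro k hk
    apply Fin.ext
    rw [hrt, hea] at hk
    rw [vB.eav, valV, (h4' k).2.2.2.2.2.2.1, if_neg hk, valE, vA.eav]
  · -- eb
    intro k hk
    apply Fin.ext
    rw [hrt, heb] at hk
    rw [vB.ebv, valV, (h4' k).2.2.2.2.2.2.2, if_neg hk, valE, vA.ebv]
  · -- ea₀
    intro hk
    apply Fin.ext
    have h1 := (hrt ((A.cb m n).rt E0)).1 rfl
    rw [vB.eav, valV, (h4' ((A.cb m n).rt E0)).2.2.2.2.2.2.1, if_pos ⟨h1, (hea _).1 hk⟩, vEE]
  · -- eb₀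
    intro hk
    apply Fin.ext
    have h1 := (hrt ((A.cb m n).rt E0)).1 rfl
    rw [vB.ebv, valV, (h4' ((A.cb m n).rt E0)).2.2.2.2.2.2.2, if_pos ⟨h1, (heb _).1 hk⟩, vEE]
  · -- len
    intro d
    have h1 := vA.len d
    have h2 := vA.wpos ((A.cb m n).lf d)
    have h3 := vA.wpos ((A.cb m n).rt d)
    linarith
  · -- hw
    intro k
    have h' : B.W n' (ixf n n' ιV k) = ((B.v (ixf n n' ιV k)).w : ℝ) := rfl
    rw [h', valV, ← (h4' k).2.1]
    rfl
  · exact vB.wpos J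
  · intro k
    have h' : (B.Q n').1 (ixf n n' ιV k) = ((B.v (ixf n n' ιV k)).x : ℝ) := rfl
    rw [h', valV, ← (h4' k).2.2.1]
    rfl
  · intro k
    have h' : (B.Q n').2 (ixf n n' ιV k) = ((B.v (ixf n n' ιV k)).F : ℝ) := rfl
    rw [h', valV, ← (h4' k).2.2.2.1]
    rfl
  · intro k
    have h' : (B.V n').1 (ixf n n' ιV k) = ((B.v (ixf n n' ιV k)).dx : ℝ) := rfl
    rw [h', valV, ← (h4' k).2.2.2.2.1]
    rfl
  · intro k
    have h' : (B.V n').2 (ixf n n' ιV k) = ((B.v (ixf n n' ιV k)).dF : ℝ) := rfl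
    rw [h', valV, ← (h4' k).2.2.2.2.2.1]
    rfl
  · -- Fj
    have h1 : (A.Q n).2 ((A.cb m n).lf E0) = ((A.v (A.e e₀).lf).F : ℝ) := by
      have h' : (A.Q n).2 ((A.cb m n).lf E0) = ((A.v ((A.cb m n).lf E0)).F : ℝ) := rfl
      rw [h', vA.lfv, vE0]
    have h2 : (A.cb m n).ae (A.Q n) E0 = (A.Q n).2 ((A.cb m n).lf E0) -
      (A.cb m n).pe (A.Q n) E0 * (A.Q n).1 ((A.cb m n).lf E0) := rfl
    rw [h2, h1, vA.pe, vA.xl, vE0, qJ, FJ, h13]
    have h3 : ((Int.add (A.v (A.e e₀).lf).F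
      (Int.mul (A.e e₀).p (Int.sub (B.v j).x (A.e e₀).xl)) : ℤ) : ℝ) =
        (A.v (A.e e₀).lf).F + (A.e e₀).p * ((B.v j).x - (A.e e₀).xl) := by
      have h4 : Int.add (A.v (A.e e₀).lf).F (Int.mul (A.e e₀).p (Int.sub (B.v j).x (A.e e₀).xl)) =
        (A.v (A.e e₀).lf).F + (A.e e₀).p * ((B.v j).x - (A.e e₀).xl) := rfl
      rw [h4]
      push_cast
      ring
    rw [h3]
    ring
  · -- vj
    rw [vA.pe, vA.dpe, vA.dae, vE0, qJ, dxJ, dFJ, h14]
    have h4 : Int.add (Int.add (Int.mul (A.e e₀).dp (B.v j).x) (A.e e₀).da)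
        (Int.mul (A.e e₀).p (B.v j).dx) =
      (A.e e₀).dp * (B.v j).x + (A.e e₀).da + (A.e e₀).p * (B.v j).dx := rfl
    rw [h4]
    push_cast
    ring
  · rw [vA.dpe, vE0, dxJ]
    have h4 : (A.e e₀).dp * (B.v j).dx = 0 := h15
    exact_mod_cast h4

end LCA


end

section

/-!
# FDR: the relation of a fold at all times
-/

namespace LCA

open Set Filter
open scoped ContDiff Topology

namespace FDR

variable {m n m' n' : ℕ}

theorem slopes (c : Comb m n) (q v : St n) (s : ℝ) (d : Fin m)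
    (hl : 0 < q.1 (c.rt d) - q.1 (c.lf d))
    (hl' : 0 < (q + s • v).1 (c.rt d) - (q + s • v).1 (c.lf d))
    (h1 : c.dpe q v d * v.1 (c.lf d) = 0) (h2 : c.dpe q v d * v.1 (c.rt d) = 0) :
    c.pe (q + s • v) d = c.pe q d + s * c.dpe q v d ∧ c.dpe (q + s • v) v d = c.dpe q v d := by
  have ex : ∀ k, (q + s • v).1 k = q.1 k + s * v.1 k := fun k => rfl
  have eF : ∀ k, (q + s • v).2 k = q.2 k + s * v.2 k := fun k => rfl
  rw [ex, ex] at hl'
  have hp : q.2 (c.rt d) - q.2 (c.lf d) = c.pe q d * (q.1 (c.rt d) - q.1 (c.lf d)) := by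
    unfold Comb.pe
    rw [div_mul_cancel₀ _ hl.ne']
  have hd : v.2 (c.rt d) - v.2 (c.lf d) - c.pe q d * (v.1 (c.rt d) - v.1 (c.lf d)) =
      c.dpe q v d * (q.1 (c.rt d) - q.1 (c.lf d)) := by
    unfold Comb.dpe
    rw [div_mul_cancel₀ _ hl.ne']
  have e1 : c.pe (q + s • v) d = c.pe q d + s * c.dpe q v d := by
    have : c.pe (q + s • v) d = (q.2 (c.rt d) + s * v.2 (c.rt d) - (q.2 (c.lf d) +
        s * v.2 (c.lf d))) / (q.1 (c.rt d) + s * v.1 (c.rt d) - (q.1 (c.lf d) +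
        s * v.1 (c.lf d))) := rfl
    rw [this, div_eq_iff hl'.ne']
    linear_combination hp + s * hd + s ^ 2 * h1 - s ^ 2 * h2
  refine ⟨e1, ?_⟩
  have : c.dpe (q + s • v) v d = (v.2 (c.rt d) - v.2 (c.lf d) - c.pe (q + s • v) d *
      (v.1 (c.rt d) - v.1 (c.lf d))) / (q.1 (c.rt d) + s * v.1 (c.rt d) - (q.1 (c.lf d) +
        s * v.1 (c.lf d))) := rfl
  rw [this, e1, div_eq_iff hl'.ne']
  linear_combination hd + 2 * s * h1 - 2 * s * h2

end FDR

theorem t_FDR (hLNP : Stmt_LNP) : Stmt_FDR := by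
  intro m n m' n' c c' ιE ιV i e j w w' q v q' v' s hc hs h1 h2 hw hl
  have key : ∀ d, c.pe (q + s • v) d = c.pe q d + s * c.dpe q v d ∧
      c.dpe (q + s • v) v d = c.dpe q v d := by
    intro d
    refine FDR.slopes c q v s d ?_ ?_ (h1 d) (h2 d)
    · have := hs.len d
      have a := hw (c.lf d)
      have b := hw (c.rt d)
      linarith
    · have := hl d
      have a := hw (c.lf d)
      have b := hw (c.rt d)
      linarith
  have ex : ∀ k, (q + s • v).1 k = q.1 k + s * v.1 k := fun k => rfl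
  have eF : ∀ k, (q + s • v).2 k = q.2 k + s * v.2 k := fun k => rfl
  have ex' : ∀ k, (q' + s • v').1 k = q'.1 k + s * v'.1 k := fun k => rfl
  have eF' : ∀ k, (q' + s • v').2 k = q'.2 k + s * v'.2 k := fun k => rfl
  constructor
  · exact hl
  · exact hs.hw
  · exact hs.wi
  · exact hs.wj
  · intro k hk
    rw [ex, ex', hs.qx k hk, hs.vx k hk]
  · intro k hk
    rw [eF, eF', hs.qF k hk, hs.vF k hk]
  · exact hs.vx
  · exact hs.vF
  · rw [ex, ex', hs.xi, hs.vxi]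
    ring
  · rw [ex, ex', hs.xj, hs.vxj]
    ring
  · rw [eF, eF', hs.Fi, hs.vFi, (key _).1]
    ring
  · rw [eF, eF', hs.Fj, hs.vFj, (key _).1]
    ring
  · exact hs.vxi
  · exact hs.vxj
  · rw [hs.vFi, (key _).2]
  · rw [hs.vFj, (key _).2]

end LCA


end

section

/-!
# SDC: the combinatorics of a checked saddle
-/

namespace LCA

open Set Filter
open scoped ContDiff Topology

namespace SDC

theorem val_of {n k : ℕ} (h : k < n + 1) : ((Fin.ofNat (n + 1) k : Fin (n + 1)) : ℕ) = k := by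
  simp [Fin.ofNat, Nat.mod_eq_of_lt h]

theorem ofNat_ne {n a b : ℕ} (ha : a < n + 1) (hb : b < n + 1) (h : a ≠ b) :
    Fin.ofNat (n + 1) a ≠ Fin.ofNat (n + 1) b := fun e =>
  h (by rw [← val_of ha, ← val_of hb, e])

theorem ne_val {n a : ℕ} {i : Fin (n + 1)} (ha : a < n + 1) (h : i ≠ Fin.ofNat (n + 1) a) :
    (i : ℕ) ≠ a := fun e => h (Fin.ext (by rw [val_of ha]; exact e))

theorem cb_ty {m n : ℕ} (S : SD) {k : ℕ} (h : k < n + 1) :
    (S.cb m n).ty (Fin.ofNat (n + 1) k) = tyOf (S.v k).ty := by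
  change tyOf (S.v ((Fin.ofNat (n + 1) k : Fin (n + 1)) : ℕ)).ty = _
  rw [val_of h]

theorem cb_ea {m n : ℕ} (S : SD) {k : ℕ} (h : k < n + 1) :
    (S.cb m n).ea (Fin.ofNat (n + 1) k) = Fin.ofNat (m + 1) (S.v k).ea := by
  change Fin.ofNat (m + 1) (S.v ((Fin.ofNat (n + 1) k : Fin (n + 1)) : ℕ)).ea = _
  rw [val_of h]

theorem cb_eb {m n : ℕ} (S : SD) {k : ℕ} (h : k < n + 1) :
    (S.cb m n).eb (Fin.ofNat (n + 1) k) = Fin.ofNat (m + 1) (S.v k).eb := by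
  change Fin.ofNat (m + 1) (S.v ((Fin.ofNat (n + 1) k : Fin (n + 1)) : ℕ)).eb = _
  rw [val_of h]

end SDC

open _root_.LCA.SDC in
theorem t_SDC (hCBL : Stmt_CBL) (hCB2 : Stmt_CB2) : Stmt_SDC := by
  obtain ⟨hb, ho, -, -, -, -, -, -, -, -, ha2, -⟩ := hCBL
  obtain ⟨hnl, hnn, -, -, -⟩ := hCB2
  intro m n L R H₁ H₂ H₃ H₄ E A B C C' hA hC h
  simp only [sdOK, hb, hnl, hnn] at h
  obtain ⟨-, hL, hR, hLR, h1, h2, h3, h4, h12, h13, h14, h23, h24, h34, -, -, -, hV, hE, hT, hP,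
    -, -, -, -⟩ := h
  simp only [sdT, hb, Nat.beq_eq] at hT
  obtain ⟨tL, tR, aL, bL, aR, bR, -, -, -, -⟩ := hT
  simp only [sdP, hb, Nat.beq_eq] at hP
  obtain ⟨tL', tR', aL', bL', aR', bR', -⟩ := hP
  have hV' := (ha2 _ _ vs0 vs0 (sdV L R) A.vs C.vs).mp hV
  have hE' := (ha2 _ _ es0 es0 (sdE H₃ H₄) A.es C.es).mp hE
  have hv : ∀ i : Fin (n + 1), i ≠ Fin.ofNat (n + 1) L → i ≠ Fin.ofNat (n + 1) R →
      (A.v i).ty = (C.v i).ty ∧ (A.v i).ea = (C.v i).ea ∧ (A.v i).eb = (C.v i).eb := by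
    intro i hiL hiR
    have hi1 := ne_val hL hiL
    have hi2 := ne_val hR hiR
    have h5 := hV' i (by rw [hA.lenV]; exact i.isLt) (by rw [hC.lenV]; exact i.isLt)
    simp only [sdV, hb, ho, Nat.beq_eq] at h5
    obtain ⟨-, -, -, h6⟩ := h5
    rcases h6 with h6 | h6 | ⟨h6, h7, h8, -⟩
    · exact absurd h6 hi1
    · exact absurd h6 hi2
    · exact ⟨h6, h7, h8⟩
  have he : ∀ e : Fin (m + 1), (e ≠ Fin.ofNat (m + 1) H₄ → (A.e e).lf = (C.e e).lf) ∧
      (e ≠ Fin.ofNat (m + 1) H₃ → (A.e e).rt = (C.e e).rt) := by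
    intro e
    have h5 := hE' e (by rw [hA.lenE]; exact e.isLt) (by rw [hC.lenE]; exact e.isLt)
    simp only [sdE, hb, ho, Nat.beq_eq] at h5
    obtain ⟨h6, h7⟩ := h5
    refine ⟨fun hne => ?_, fun hne => ?_⟩
    · rcases h6 with h6 | h6
      · exact absurd h6 (ne_val h4 hne)
      · exact h6
    · rcases h7 with h7 | h7
      · exact absurd h7 (ne_val h3 hne)
      · exact h7
  exact
    { valid := hA.valid
      valid' := hC.valid
      LR := ofNat_ne hL hR hLR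
      h12 := ofNat_ne h1 h2 h12
      h13 := ofNat_ne h1 h3 h13
      h14 := ofNat_ne h1 h4 h14
      h23 := ofNat_ne h2 h3 h23
      h24 := ofNat_ne h2 h4 h24
      h34 := ofNat_ne h3 h4 h34
      tyL := by rw [cb_ty A hL, tL]; rfl
      tyR := by rw [cb_ty A hR, tR]; rfl
      aL := by rw [cb_ea A hL, aL]
      bL := by rw [cb_eb A hL, bL]
      aR := by rw [cb_ea A hR, aR]
      bR := by rw [cb_eb A hR, bR]
      tyL' := by rw [cb_ty C hL, tL']; rfl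
      tyR' := by rw [cb_ty C hR, tR']; rfl
      aL' := by rw [cb_ea C hL, aL']
      bL' := by rw [cb_eb C hL, bL']
      aR' := by rw [cb_ea C hR, aR']
      bR' := by rw [cb_eb C hR, bR']
      ty := fun i h5 h6 => by
        change tyOf (A.v i).ty = tyOf (C.v i).ty
        rw [(hv i h5 h6).1]
      ea := fun i h5 h6 => by
        change Fin.ofNat (m + 1) (A.v i).ea = Fin.ofNat (m + 1) (C.v i).ea
        rw [(hv i h5 h6).2.1]
      eb := fun i h5 h6 => by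
        change Fin.ofNat (m + 1) (A.v i).eb = Fin.ofNat (m + 1) (C.v i).eb
        rw [(hv i h5 h6).2.2]
      lf := fun e h5 => by
        change Fin.ofNat (n + 1) (A.e e).lf = Fin.ofNat (n + 1) (C.e e).lf
        rw [(he e).1 h5]
      rt := fun e h5 => by
        change Fin.ofNat (n + 1) (A.e e).rt = Fin.ofNat (n + 1) (C.e e).rt
        rw [(he e).2 h5] }

end LCA


end

section

/-!
# Part A: STS, a saddle where two tips become two passes
-/

namespace LCA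

open Set Filter
open scoped ContDiff Topology

/-- STS. -/
theorem t_STS (hSDR : Stmt_SDR) (hSDP : Stmt_SDP) : Stmt_STS := by
  intro K sh m n t L R H₁ H₂ H₃ H₄ E A B C C' hA hB hC hC' hsd ht hAt
  obtain ⟨hS, hr, hcb, hW, hV, hQ⟩ := hSDR m n L R H₁ H₂ H₃ H₄ E A B C C' ((t : ℝ) + 1)
    hA hB hC hC' hsd
  have ht2 : (2 : ℝ) ≤ (t : ℝ) := by exact_mod_cast ht
  have hs0 : (E.ev ((t : ℝ) + 1)).s₀ = (t : ℝ) + 1 := rfl
  have hr0 : (E.ev ((t : ℝ) + 1)).r = (E.r : ℝ) := rfl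
  have hv0 : (E.ev ((t : ℝ) + 1)).v = (E.v : ℝ) := rfl
  have key := hSDP K sh _ _ _ _ _ _ _ _ _ _ _ _ _ 2 (t : ℝ) ((t : ℝ) + 2) hS
    (by rw [hs0]; linarith) (by rw [hs0, hr0, hv0]; linarith) (by rw [hs0, hr0, hv0]; linarith)
    (by rw [hs0]; linarith) (by rw [hs0]; linarith)
  have h1 : lin (A.Q n + A.V n) (A.V n) (E.ev ((t : ℝ) + 1)).s₀ (t : ℝ) = A.Q n := by
    rw [hs0]
    unfold lin
    have : ((t : ℝ) - ((t : ℝ) + 1)) = -1 := by ring
    rw [this]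
    simp
  have h2 : lin (A.Q n + A.V n) (C.V n) (E.ev ((t : ℝ) + 1)).s₀ ((t : ℝ) + 2) = B.Q n := by
    rw [hs0, hQ]
    unfold lin
    have : (((t : ℝ) + 2) - ((t : ℝ) + 1)) = 1 := by ring
    rw [this, one_smul]
  rw [h1, h2] at key
  have h3 := key hAt
  unfold AtD
  rw [hcb, hW, hV]
  push_cast
  exact h3

end LCA


end

section

/-!
# The maximum: soundness of the checker
-/

namespace LCA

open Set Filter
open scoped ContDiff Topology

namespace STX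

lemma four (a b c d i : Fin 4) (h1 : a ≠ b) (h2 : a ≠ c) (h3 : a ≠ d) (h4 : b ≠ c) (h5 : b ≠ d)
    (h6 : c ≠ d) : i = a ∨ i = b ∨ i = c ∨ i = d := by
  rw [Fin.ext_iff, Fin.ext_iff, Fin.ext_iff, Fin.ext_iff]
  rw [Ne, Fin.ext_iff] at h1 h2 h3 h4 h5 h6
  omega

lemma val_ofNat (k : ℕ) (h : k < 4) : ((Fin.ofNat 4 k : Fin 4) : ℕ) = k :=
  Nat.mod_eq_of_lt h

lemma ofNat_ne {k l : ℕ} (hk : k < 4) (hl : l < 4) (h : k ≠ l) :
    (Fin.ofNat 4 k : Fin 4) ≠ Fin.ofNat 4 l := by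
  intro h'
  apply h
  have := congrArg (fun x : Fin 4 => (x : ℕ)) h'
  simpa only [val_ofNat k hk, val_ofNat l hl] using this

end STX

open _root_.LCA.STX in
theorem t_STX (hCBL : Stmt_CBL) (hCB2 : Stmt_CB2) (hSTF : Stmt_STF) (hSVL : Stmt_SVL)
    (hDTH : Stmt_DTH) : Stmt_STX := by
  intro K sh t lt rt pa pb H₁ H₂ H₃ H₄ E A hst hd hat
  obtain ⟨hb, hbo, hlt, heq, hmax, hmin, habs, hall, -⟩ := hCBL
  obtain ⟨hnlt, hnne, -⟩ := hCB2
  have hF := hSTF 3 3 A hst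
  unfold dtOK at hd
  simp only [hb, hlt, heq, hnlt, hnne, Nat.beq_eq, ED.ok, habs, hall VS vs0] at hd
  obtain ⟨⟨e1, e2, e3, e4, e5⟩, l1, l2, l3, l4, m1, m2, m3, m4, n1, n2, n3, n4, n5, n6, o1, o2, o3,
    o4, o5, o6, hA, y1, y2, y3, y4, a1, a2, a3, a4, a5, a6, a7, a8, v1, v2, v3, v4, f1, f2, f3,
    f4⟩ := hd
  have q1 : (0 : ℝ) < (E.h : ℝ) := by exact_mod_cast e1
  have q2 : (0 : ℝ) < (E.v : ℝ) := by exact_mod_cast e2
  have q3 : (0 : ℝ) < (E.r : ℝ) := by exact_mod_cast e3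
  have q4 : (8 : ℝ) * (E.r : ℝ) < (E.v : ℝ) := by
    have : (8 : ℤ) * E.r < E.v := e4
    exact_mod_cast this
  have q5 : |(E.P₂ : ℝ) - (E.P₁ : ℝ)| < 2 * (E.h : ℝ) := by
    have : |E.P₂ - E.P₁| < 2 * E.h := e5
    exact_mod_cast this
  have hA' : ∀ i : Fin 4, (A.v i).w = E.r ∧ (A.v i).x + (A.v i).dx = E.x ∧
      (A.v i).F + (A.v i).dF = E.F := by
    intro i
    exact hA i (by rw [hF.lenV]; exact i.2)
  have hD : Death (A.cb 3 3) (A.W 3) (Fin.ofNat 4 lt) (Fin.ofNat 4 rt) (Fin.ofNat 4 pa)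
      (Fin.ofNat 4 pb) (Fin.ofNat 4 H₁) (Fin.ofNat 4 H₂) (Fin.ofNat 4 H₃) (Fin.ofNat 4 H₄)
      (E.ev ((t : ℝ) + 1)) (A.Q 3 + A.V 3) (A.V 3) := by
    refine
      { valid := hF.valid
        pos := ⟨by show (0 : ℝ) < 2 * (E.h : ℝ); positivity, q2, q3⟩
        vert := fun i => four _ _ _ _ i (ofNat_ne l1 l2 n1) (ofNat_ne l1 l3 n2)
          (ofNat_ne l1 l4 n3) (ofNat_ne l2 l3 n4) (ofNat_ne l2 l4 n5) (ofNat_ne l3 l4 n6)
        edge := fun i => four _ _ _ _ i (ofNat_ne m1 m2 o1) (ofNat_ne m1 m3 o2)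
          (ofNat_ne m1 m4 o3) (ofNat_ne m2 m3 o4) (ofNat_ne m2 m4 o5) (ofNat_ne m3 m4 o6)
        tyl := ?_, tyr := ?_, tya := ?_, tyb := ?_
        al := ?_, bl := ?_, ar := ?_, br := ?_, aa := ?_, ab := ?_, ba := ?_, bb := ?_
        hw := ?_, hx := ?_, hF := ?_
        ovl := q5
        vxl := ?_, vxr := ?_, vxa := ?_, vxb := ?_, vFl := ?_, vFr := ?_, vFa := ?_, vFb := ?_ }
    · show tyOf (A.v ((Fin.ofNat 4 lt : Fin 4) : ℕ)).ty = .L
      rw [val_ofNat lt l1, y1]; rfl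
    · show tyOf (A.v ((Fin.ofNat 4 rt : Fin 4) : ℕ)).ty = .R
      rw [val_ofNat rt l2, y2]; rfl
    · show tyOf (A.v ((Fin.ofNat 4 pa : Fin 4) : ℕ)).ty = .P
      rw [val_ofNat pa l3, y3]; rfl
    · show tyOf (A.v ((Fin.ofNat 4 pb : Fin 4) : ℕ)).ty = .P
      rw [val_ofNat pb l4, y4]; rfl
    · show Fin.ofNat 4 (A.v ((Fin.ofNat 4 lt : Fin 4) : ℕ)).ea = _
      rw [val_ofNat lt l1, a1]
    · show Fin.ofNat 4 (A.v ((Fin.ofNat 4 lt : Fin 4) : ℕ)).eb = _
      rw [val_ofNat lt l1, a2]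
    · show Fin.ofNat 4 (A.v ((Fin.ofNat 4 rt : Fin 4) : ℕ)).ea = _
      rw [val_ofNat rt l2, a3]
    · show Fin.ofNat 4 (A.v ((Fin.ofNat 4 rt : Fin 4) : ℕ)).eb = _
      rw [val_ofNat rt l2, a4]
    · show Fin.ofNat 4 (A.v ((Fin.ofNat 4 pa : Fin 4) : ℕ)).ea = _
      rw [val_ofNat pa l3, a5]
    · show Fin.ofNat 4 (A.v ((Fin.ofNat 4 pa : Fin 4) : ℕ)).eb = _
      rw [val_ofNat pa l3, a6]
    · show Fin.ofNat 4 (A.v ((Fin.ofNat 4 pb : Fin 4) : ℕ)).ea = _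
      rw [val_ofNat pb l4, a7]
    · show Fin.ofNat 4 (A.v ((Fin.ofNat 4 pb : Fin 4) : ℕ)).eb = _
      rw [val_ofNat pb l4, a8]
    · intro i
      show ((A.v i).w : ℝ) = (E.r : ℝ)
      rw [(hA' i).1]
    · intro i
      show ((A.v i).x : ℝ) + ((A.v i).dx : ℝ) = (E.x : ℝ)
      rw [← (hA' i).2.1]; push_cast; ring
    · intro i
      show ((A.v i).F : ℝ) + ((A.v i).dF : ℝ) = (E.F : ℝ)
      rw [← (hA' i).2.2]; push_cast; ring
    · show ((A.v ((Fin.ofNat 4 lt : Fin 4) : ℕ)).dx : ℝ) = (E.v : ℝ)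
      rw [val_ofNat lt l1, v1]
    · show ((A.v ((Fin.ofNat 4 rt : Fin 4) : ℕ)).dx : ℝ) = -(E.v : ℝ)
      rw [val_ofNat rt l2, v2]
      show ((-E.v : ℤ) : ℝ) = _
      push_cast; ring
    · show ((A.v ((Fin.ofNat 4 pa : Fin 4) : ℕ)).dx : ℝ) = 0
      rw [val_ofNat pa l3, v3]; simp
    · show ((A.v ((Fin.ofNat 4 pb : Fin 4) : ℕ)).dx : ℝ) = 0
      rw [val_ofNat pb l4, v4]; simp
    · show ((A.v ((Fin.ofNat 4 lt : Fin 4) : ℕ)).dF : ℝ) = (E.z : ℝ) -
        2 * (E.h : ℝ) * (E.v : ℝ) / 2 + ((E.P₁ : ℝ) + 2 * (E.h : ℝ) / 2) * (E.v : ℝ)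
      rw [val_ofNat lt l1, f1]
      show ((E.z - E.h * E.v + (E.P₁ + E.h) * E.v : ℤ) : ℝ) = _
      push_cast; ring
    · show ((A.v ((Fin.ofNat 4 rt : Fin 4) : ℕ)).dF : ℝ) = (E.z : ℝ) +
        2 * (E.h : ℝ) * (E.v : ℝ) / 2 - ((E.P₂ : ℝ) + 2 * (E.h : ℝ) / 2) * (E.v : ℝ)
      rw [val_ofNat rt l2, f2]
      show ((E.z + E.h * E.v - (E.P₂ + E.h) * E.v : ℤ) : ℝ) = _
      push_cast; ring
    · show ((A.v ((Fin.ofNat 4 pa : Fin 4) : ℕ)).dF : ℝ) = (E.z : ℝ) -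
        2 * (E.h : ℝ) * (E.v : ℝ) / 2
      rw [val_ofNat pa l3, f3]
      show ((E.z - E.h * E.v : ℤ) : ℝ) = _
      push_cast; ring
    · show ((A.v ((Fin.ofNat 4 pb : Fin 4) : ℕ)).dF : ℝ) = (E.z : ℝ) +
        2 * (E.h : ℝ) * (E.v : ℝ) / 2
      rw [val_ofNat pb l4, f4]
      show ((E.z + E.h * E.v : ℤ) : ℝ) = _
      push_cast; ring
  refine hDTH K sh (A.cb 3 3) (A.W 3) _ _ _ _ _ _ _ _ (E.ev ((t : ℝ) + 1)) (A.Q 3 + A.V 3) (A.V 3)
    (t : ℝ) hD ?_ ?_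
  · show (t : ℝ) < (t : ℝ) + 1 - 8 * (E.r : ℝ) / (E.v : ℝ)
    have : 8 * (E.r : ℝ) / (E.v : ℝ) < 1 := (div_lt_one q2).2 q4
    linarith
  · have : lin (A.Q 3 + A.V 3) (A.V 3) (E.ev ((t : ℝ) + 1)).s₀ (t : ℝ) = A.Q 3 := by
      show A.Q 3 + A.V 3 + ((t : ℝ) - ((t : ℝ) + 1)) • A.V 3 = A.Q 3
      have h1 : (t : ℝ) - ((t : ℝ) + 1) = -1 := by ring
      rw [h1, neg_smul, one_smul]
      abel
    rw [this]
    exact hat

end LCA


end

section

/-!
# Part A, STB: the beginning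
-/

namespace LCA

open Set Filter
open scoped ContDiff Topology

namespace STB

/-- The value of `i + 1` in `Fin (n + 1)`. -/
theorem val_succ {n : ℕ} (i : Fin (n + 1)) :
    ((i + 1 : Fin (n + 1)) : ℕ) = if (i : ℕ) = n then 0 else (i : ℕ) + 1 := by
  rw [Fin.val_add_one i]
  by_cases h : (i : ℕ) = n
  · have h' : i = Fin.last n := Fin.ext h
    simp [h']
  · have h' : i ≠ Fin.last n := by
      intro h''
      apply h
      rw [h'']
      rfl
    simp [h, h']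

/-- The velocities at the beginning of a cylinder. -/
theorem vel {n : ℕ} {A : SD} (h : ∀ i < n + 1, (A.v i).dx = 0 ∧ (A.v i).dF = (A.v i).F) :
    A.V n = (0, (A.Q n).2) := by
  apply Prod.ext
  · funext i
    show (((A.v i).dx : ℤ) : ℝ) = 0
    rw [(h i i.2).1]
    norm_num
  · funext i
    show (((A.v i).dF : ℤ) : ℝ) = (((A.v i).F : ℤ) : ℝ)
    rw [(h i i.2).2]

/-- The polygon has one component. -/
theorem cyc {n : ℕ} {A : SD} (V : A.Vals n n)
    (hE : ∀ k < n + 1, ((A.e k).lf = k ∧ (A.e k).rt = if k = n then 0 else k + 1) ∨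
      ((A.e k).rt = k ∧ (A.e k).lf = if k = n then 0 else k + 1))
    (hV : ∀ k < n + 1, ((A.v k).ea = (if k = 0 then n else k - 1) ∧ (A.v k).eb = k) ∨
      ((A.v k).eb = (if k = 0 then n else k - 1) ∧ (A.v k).ea = k)) :
    (A.cb n n).Cyc := by
  refine ⟨fun i => ?_, fun i => ?_⟩
  · rcases hE i i.2 with ⟨h1, h2⟩ | ⟨h1, h2⟩
    · left
      refine ⟨Fin.ext ?_, Fin.ext ?_⟩
      · rw [V.lfv, h1]
      · rw [V.rtv, h2, val_succ]
    · right
      refine ⟨Fin.ext ?_, Fin.ext ?_⟩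
      · rw [V.lfv, h2, val_succ]
      · rw [V.rtv, h1]
  · have hk : (if ((i + 1 : Fin (n + 1)) : ℕ) = 0 then n else ((i + 1 : Fin (n + 1)) : ℕ) - 1)
        = (i : ℕ) := by
      rw [val_succ]
      by_cases h : (i : ℕ) = n
      · simp [h]
      · simp [h]
    rcases hV (i + 1 : Fin (n + 1)) (i + 1 : Fin (n + 1)).2 with ⟨h1, h2⟩ | ⟨h1, h2⟩
    · left
      refine ⟨Fin.ext ?_, Fin.ext ?_⟩
      · rw [V.eav, h1, hk]
      · rw [V.ebv, h2]
    · right
      refine ⟨Fin.ext ?_, Fin.ext ?_⟩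
      · rw [V.eav, h2]
      · rw [V.ebv, h1, hk]

/-- The edges are long. -/
theorem len6 {n : ℕ} {A : SD} (V : A.Vals n n)
    (h : ∀ k < n + 1, 3 * ((A.e k).il - (A.e k).xl) + 3 * ((A.e k).xr - (A.e k).ir) <
      (A.e k).xr - (A.e k).xl) (e : Fin (n + 1)) :
    6 * (A.W n ((A.cb n n).lf e) + A.W n ((A.cb n n).rt e)) <
      (A.Q n).1 ((A.cb n n).rt e) - (A.Q n).1 ((A.cb n n).lf e) := by
  have h1 : ((3 * ((A.e e).il - (A.e e).xl) + 3 * ((A.e e).xr - (A.e e).ir) : ℤ) : ℝ) <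
      (((A.e e).xr - (A.e e).xl : ℤ) : ℝ) := by exact_mod_cast h e e.2
  push_cast at h1
  have h2 := V.il e
  have h3 := V.ir e
  have h4 := V.xl e
  have h5 := V.xr e
  rw [← h4, ← h5, ← h2, ← h3] at h1
  linarith

end STB

theorem t_STB (hCBL : Stmt_CBL) (hCB2 : Stmt_CB2) (hSTF : Stmt_STF) (hSVL : Stmt_SVL)
    (hGOK : Stmt_GOK) (hGOC : Stmt_GOC) (hCYL : Stmt_CYL) (hKNT : Stmt_KNT) : Stmt_STB := by
  intro sh n A A' hA hA' hbg
  obtain ⟨hbnd, hbor, hilt, hieq, -, -, -, hallL, hallI, -, -, -⟩ := hCBL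
  obtain ⟨-, -, hnif, -, -⟩ := hCB2
  have FA := hSTF n n A hA
  have VA := hSVL n n A FA
  unfold bgOK at hbg
  simp only [hbnd] at hbg
  obtain ⟨hgo, hv, -, hE, hV⟩ := hbg
  rw [hallL VS vs0] at hv
  rw [hallI ES es0] at hE
  rw [hallI VS vs0] at hV
  obtain ⟨go, -, -⟩ := hGOK n n 1 A A' hA hA' hgo
  obtain ⟨-, h2⟩ := hGOC _ _ _ _ _ _ _ go
  have hcert : (A.cb n n).Cert (A.W n) (A.Q n) (A.V n) := by
    have h3 := h2 0 ⟨le_refl _, zero_le_one⟩
    rw [sub_zero, one_smul, zero_smul, add_zero] at h3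
    exact h3
  have hvel : A.V n = (0, (A.Q n).2) := by
    apply STB.vel
    intro i hi
    have h3 := hv i (by rw [FA.lenV]; exact hi)
    simp only [hbnd, hieq] at h3
    exact h3
  have hE' : ∀ k < n + 1, ((((A.e k).lf = k ∧ (A.e k).rt = if k = n then 0 else k + 1) ∨
      ((A.e k).rt = k ∧ (A.e k).lf = if k = n then 0 else k + 1)) ∧
      3 * ((A.e k).il - (A.e k).xl) + 3 * ((A.e k).xr - (A.e k).ir) <
        (A.e k).xr - (A.e k).xl) := by
    intro k hk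
    have h3 := hE k (by rw [FA.lenE]; exact hk)
    simp only [hbnd, hbor, hilt, hnif, Nat.beq_eq] at h3
    exact h3
  have hV' : ∀ k < n + 1, ((A.v k).ea = (if k = 0 then n else k - 1) ∧ (A.v k).eb = k) ∨
      ((A.v k).eb = (if k = 0 then n else k - 1) ∧ (A.v k).ea = k) := by
    intro k hk
    have h3 := hV k (by rw [FA.lenV]; exact hk)
    simp only [hbnd, hbor, hnif, Nat.beq_eq] at h3
    exact h3
  rw [hvel] at hcert
  obtain ⟨Λ, hΛ⟩ := hKNT sh (A.cb n n) (A.W n) (A.Q n) VA.valid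
    (STB.cyc VA (fun k hk => (hE' k hk).1) hV') VA.wpos hcert
    (STB.len6 VA (fun k hk => (hE' k hk).2))
  refine ⟨Λ, hΛ, ?_⟩
  have h4 := hCYL sh (A.cb n n) (A.W n) (A.Q n) VA.valid VA.wpos hcert
  show At Λ.carrier sh (A.cb n n) (A.W n) (A.Q n) (A.V n) (((1 : ℤ)) : ℝ)
  rw [hΛ, hvel, Int.cast_one]
  exact h4

end LCA


end
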