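import Mathlib
import Pool.Agent.LC.Defs
import Pool.Agent.NDM.C02

/-! Parts: LH.Base, LH.Stmts1, LH.Stmts2, LH.EVF, LHS.Stmts, LHE.Base, LHE.Stmts1, LHE.Stmts2, LHE.Stmts3, LG.Crt, LHJ.Base, LHJ.IEN, LHJ.NGB, LHE.CRE, LHE.TWF -/

section

/-!
# Sampled walks of front polygons

Definitions for part C of the solution of MP_093788_gt.
-/

namespace LH

open Set LG

/-! ### cyclic lists of columns and rows -/

/-- A position of a column or a row: a line and a height, ordered lexicographically. -/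
abbrev Q : Type := ℝ ×ₗ ℝ

/-- An entry of a cyclic list: a column (`inl`) or a row (`inr`). -/
abbrev En : Type := Q ⊕ Q

/-- The cyclically consecutive pairs. -/
def cp {α : Type*} (w : List α) : List (α × α) := w.zip (w.rotate 1)

/-- Columns and rows alternate. -/
def Alt (W : List En) : Prop := W ≠ [] ∧ ∀ p ∈ cp W, p.1.isLeft = !p.2.isLeft

/-- The alternating list of a list of pairs. -/
def fl {α β : Type*} (M : List (α × β)) : List (α ⊕ β) :=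
  M.flatMap fun p => [Sum.inl p.1, Sum.inr p.2]

/-- `M` represents `W`: the same cyclic sequence, the order of the columns is reversed, the order of
the rows is kept. -/
def Rp (W : List En) (M : List (ℝ × ℝ)) : Prop :=
  W.Nodup ∧ ∃ f g : Q → ℝ,
    (∀ a b, Sum.inl a ∈ W → Sum.inl b ∈ W → a < b → f b < f a) ∧
    (∀ a b, Sum.inr a ∈ W → Sum.inr b ∈ W → a < b → g a < g b) ∧
    (fl M).IsRotated (W.map (Sum.map f g))

/-- Legendrian equivalence. -/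
def WE (W W' : List En) : Prop := ∃ M M', Rp W M ∧ Rp W' M' ∧ LEq M M'

/-- The marks: the corners (column, row). -/
def Mk (W : List En) (c r : Q) : Prop :=
  (Sum.inl c, Sum.inr r) ∈ cp W ∨ (Sum.inr r, Sum.inl c) ∈ cp W

/-- `x` is strictly between `a` and `b`. -/
def Btw {α : Type*} [LT α] (a b x : α) : Prop := a < x ∧ x < b ∨ b < x ∧ x < a

/-! ### walks -/

/-- Kinds of points of a walk: passing to the right, passing to the left, right turn, left turn. -/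
inductive Kd | rt | lt | R | L
  deriving DecidableEq

/-- The walk leaves a point of this kind to the right. -/
def Kd.fw : Kd → Prop
  | .rt => True | .lt => False | .R => False | .L => True

/-- The walk arrives at a point of this kind from the left. -/
def Kd.ar : Kd → Prop
  | .rt => True | .lt => False | .R => True | .L => False

/-- A point of a walk: on the line `t` at the height `h`. -/
structure Pt where
  k : Kd
  t : ℝ
  h : ℝ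

/-- The column of a point. -/
def Pt.c (p : Pt) : Q := toLex (p.t, p.h)

/-- The row of a point. -/
def Pt.r (p : Pt) : Q := toLex (-p.t, p.h)

/-- The entries of a point. -/
def ent (p : Pt) : List En :=
  match p.k with
  | .rt => [Sum.inl p.c, Sum.inr p.r]
  | .lt => [Sum.inr p.r, Sum.inl p.c]
  | .R => [Sum.inl p.c]
  | .L => [Sum.inr p.r]

/-- The cyclic list of a walk. -/
def ents (w : List Pt) : List En := w.flatMap ent

/-- A step of a walk. -/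
def Stp (p q : Pt) : Prop :=
  p.k.fw ∧ q.k.ar ∧ p.t < q.t ∨ ¬ p.k.fw ∧ ¬ q.k.ar ∧ q.t < p.t

/-- A closed walk. -/
structure CW (w : List Pt) : Prop where
  nd : (ents w).Nodup
  st : ∀ x ∈ cp w, Stp x.1 x.2
  len : 4 ≤ (ents w).length

/-- `p` and `q` are consecutive, `p` on the left. -/
def Lk (w : List Pt) (p q : Pt) : Prop := p.t < q.t ∧ ((p, q) ∈ cp w ∨ (q, p) ∈ cp w)

/-! ### polygons -/

/-- A closed front polygon with `N` edges: the vertices `(x i, z i)`, the edge `i` goes from the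
vertex `i` to the vertex `i + 1` and has the slope `y i`. -/
structure Pg (N : ℕ) where
  x : ℤ → ℝ
  y : ℤ → ℝ
  z : ℤ → ℝ
  px : ∀ i, x (i + N) = x i
  py : ∀ i, y (i + N) = y i
  pz : ∀ i, z (i + N) = z i
  cl : ∀ i, z (i + 1) = z i + y i * (x (i + 1) - x i)

variable {N : ℕ}

/-- The line of the edge `i`. -/
def Pg.l (P : Pg N) (i : ℤ) (t : ℝ) : ℝ := P.z i + P.y i * (t - P.x i)

/-- The edges `p, ..., q` form a component of the part of the polygon over `(a, b)`. -/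
structure Comp (P : Pg N) (a b : ℝ) (p q : ℤ) : Prop where
  le : p ≤ q
  ins : ∀ i, p < i → i ≤ q → a < P.x i ∧ P.x i < b
  fst : P.x p < a ∨ b < P.x p
  lst : P.x (q + 1) < a ∨ b < P.x (q + 1)
  one : p = q → P.x p < a ∧ b < P.x (q + 1) ∨ P.x (q + 1) < a ∧ b < P.x p

/-- The edges `p, ..., q` form a component of the polygon over the point `e`. -/
structure CompE (P : Pg N) (e : ℝ) (p q : ℤ) : Prop where
  le : p ≤ q
  ins : ∀ i, p < i → i ≤ q → P.x i = e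
  fst : P.x p ≠ e
  lst : P.x (q + 1) ≠ e
  one : p = q → P.x p < e ∧ e < P.x (q + 1) ∨ P.x (q + 1) < e ∧ e < P.x p

/-- The component `p, ..., q` is monotone in `x` or in `y`. -/
def Ty (P : Pg N) (p q : ℤ) : Prop :=
  (StrictMonoOn P.x (Icc p (q + 1)) ∨ StrictAntiOn P.x (Icc p (q + 1))) ∨
    StrictMonoOn P.y (Icc p q) ∨ StrictAntiOn P.y (Icc p q)

/-- Embedded polygons. -/
structure Emb (P : Pg N) : Prop where
  nc : ∃ i, P.x i ≠ P.x 0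
  ty : ∀ e p q, CompE P e p q → Ty P p q
  sep : ∀ e p q p' q', CompE P e p q → CompE P e p' q' → q < p' → q' < p + N →
    P.l p e = P.l p' e →
    (∀ i ∈ Icc p q, ∀ j ∈ Icc p' q', P.y i < P.y j) ∨ ∀ i ∈ Icc p q, ∀ j ∈ Icc p' q', P.y j < P.y i

/-- The lines of the edges of two components are completely ordered at `t`. -/
def Sep (P : Pg N) (p q p' q' : ℤ) (t : ℝ) : Prop :=
  (∀ i ∈ Icc p q, ∀ j ∈ Icc p' q', P.l i t < P.l j t) ∨
    ∀ i ∈ Icc p q, ∀ j ∈ Icc p' q', P.l j t < P.l i t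

/-- A good cell. -/
structure Good (P : Pg N) (a b : ℝ) : Prop where
  lt : a < b
  av : ∀ i, P.x i ≠ a ∧ P.x i ≠ b
  out : ∃ i, P.x i < a ∨ b < P.x i
  ty : ∀ p q, Comp P a b p q → Ty P p q
  sep : ∀ p q p' q', Comp P a b p q → Comp P a b p' q' → q < p' → q' < p + N →
    Sep P p q p' q' a ∧ Sep P p q p' q' b

/-- Adjacent elements of a finite set. -/
def AdjX (X : Finset ℝ) (a b : ℝ) : Prop := a ∈ X ∧ b ∈ X ∧ a < b ∧ ∀ t ∈ X, ¬ (a < t ∧ t < b)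

/-- A good set of lines. -/
structure GoodX (P : Pg N) (X : Finset ℝ) : Prop where
  lo : ∃ a ∈ X, ∀ i, a < P.x i
  hi : ∃ b ∈ X, ∀ i, P.x i < b
  gd : ∀ a b, AdjX X a b → Good P a b

/-! ### walks of polygons -/

/-- An item of a walk of a polygon: kind, line, edge. -/
structure It where
  k : Kd
  t : ℝ
  e : ℤ

/-- The item passes through the line. -/
def ItOK (P : Pg N) (i : It) : Prop :=
  (i.k = .rt → P.x i.e < i.t ∧ i.t < P.x (i.e + 1)) ∧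
    (i.k = .lt → P.x (i.e + 1) < i.t ∧ i.t < P.x i.e)

/-- Consecutive items. -/
structure Lnk (P : Pg N) (X : Finset ℝ) (i j : It) : Prop where
  le : i.e ≤ j.e
  tl : i.k = .R ∨ i.k = .L → i.e < j.e
  adj : AdjX X i.t j.t ∨ AdjX X j.t i.t
  ins : ∀ m, i.e < m → m ≤ j.e → Btw i.t j.t (P.x m)
  dir : i.k.fw ∧ j.k.ar ∧ i.t < j.t ∨ ¬ i.k.fw ∧ ¬ j.k.ar ∧ j.t < i.t

/-- The same item one period later. -/
def It.sh (N : ℕ) (i : It) : It := { i with e := i.e + N }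

/-- A walk of the polygon `P` with the lines `X`; zigzags of turns are allowed. -/
def EW (P : Pg N) (X : Finset ℝ) (w : List It) : Prop :=
  ∃ i w', w = i :: w' ∧ (∀ j ∈ w, ItOK P j) ∧ List.IsChain (Lnk P X) (w ++ [i.sh N])

/-- A walk without zigzags. -/
def GW (P : Pg N) (X : Finset ℝ) (w : List It) : Prop :=
  EW P X w ∧ ∀ x ∈ cp w, ¬ ((x.1.k = .R ∨ x.1.k = .L) ∧ (x.2.k = .R ∨ x.2.k = .L))

/-- The point of an item. -/
def pt (P : Pg N) (i : It) : Pt := ⟨i.k, i.t, P.l i.e i.t⟩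

/-- The cyclic list of a walk of a polygon. -/
def lst (P : Pg N) (w : List It) : List En := ents (w.map (pt P))

/-! ### polygons of Legendrian knots -/

/-- The slopes before the correction. -/
noncomputable def y0 (Λ : LC.LegKnot) (N : ℕ) (i : ℤ) : ℝ := Λ.y ((i + 1 / 2) / N)

/-- The vertices. -/
noncomputable def x0 (Λ : LC.LegKnot) (N : ℕ) (i : ℤ) : ℝ := Λ.x (i / N)

/-- The correction factor. -/
noncomputable def mu (Λ : LC.LegKnot) (N : ℕ) : ℝ :=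
  (∑ i ∈ Finset.range N, y0 Λ N i * (x0 Λ N (i + 1) - x0 Λ N i)) /
    ∑ i ∈ Finset.range N, (x0 Λ N (i + 1) - x0 Λ N i) ^ 2

/-- The slopes. -/
noncomputable def y1 (Λ : LC.LegKnot) (N : ℕ) (i : ℤ) : ℝ :=
  y0 Λ N i - mu Λ N * (x0 Λ N (i + 1) - x0 Λ N i)

/-- `P` is the `N`-gon of the knot `Λ`. -/
def IsPN (Λ : LC.LegKnot) (N : ℕ) (P : Pg N) : Prop :=
  P.x = x0 Λ N ∧ P.y = y1 Λ N ∧ P.z 0 = 0

/-- Two embedded polygons are joined by a continuous path of embedded polygons. -/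
def EPath (P P' : Pg N) : Prop :=
  ∃ F : ℝ → Pg N, (∀ t ∈ Icc (0 : ℝ) 1, Emb (F t)) ∧
    (∀ i, ContinuousOn (fun t => (F t).x i) (Icc 0 1)) ∧
    (∀ i, ContinuousOn (fun t => (F t).y i) (Icc 0 1)) ∧
    (∀ i, ContinuousOn (fun t => (F t).z i) (Icc 0 1)) ∧
    (F 0).x = P.x ∧ (F 0).y = P.y ∧ (F 1).x = P'.x ∧ (F 1).y = P'.y

/-! ### the three main statements -/

/-- The sampled walks of polygons joined by a path are Legendrian equivalent. -/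
def T_INV : Prop :=
  ∀ (N : ℕ) (P P' : Pg N), EPath P P' → ∀ (X X' : Finset ℝ) (w w' : List It),
    GoodX P X → GW P X w → GoodX P' X' → GW P' X' w' → WE (lst P w) (lst P' w')

/-- From smooth isotopies to paths of polygons. -/
def T_SM : Prop :=
  ∀ Λ Λ' Λ'' : LC.LegKnot, LC.Isotopic Λ Λ' → LC.IsStabilization Λ' Λ'' →
    ∃ Λ₁ Λ₂ : LC.LegKnot, LC.IsStabilization Λ₁ Λ₂ ∧ ∃ N₀ : ℕ, ∀ N ≥ N₀,
      ∃ P P₁ : Pg N, IsPN Λ N P ∧ IsPN Λ₁ N P₁ ∧ Relation.TransGen EPath P P₁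

/-- The polygons of a stabilised knot. -/
def T_S : Prop :=
  ∀ Λ₁ Λ₂ : LC.LegKnot, LC.IsStabilization Λ₁ Λ₂ → ∃ N₀ : ℕ, ∀ N ≥ N₀, ∀ P : Pg N,
    IsPN Λ₁ N P → Emb P → ∃ X w, GoodX P X ∧ GW P X w ∧ ∃ M, Rp (lst P w) M ∧ (VL M ∨ VP M)

end LH


end

section

/-!
# Part C, first part: cyclic lists and walks
-/

namespace LH

open Set LG

/-! ### lists of entries -/

/-- RPE: representations exist. -/
def Stmt_RPE : Prop := ∀ W : List En, Alt W → W.Nodup → ∃ M, Rp W M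

/-- RPU: representations are unique up to Legendrian equivalence. -/
def Stmt_RPU : Prop := ∀ (W : List En) (M M' : List (ℝ × ℝ)), Rp W M → Rp W M' → LEq M M'

/-- Elementary properties of `WE`. -/
structure P_WEB : Prop where
  refl : ∀ W : List En, Alt W → W.Nodup → WE W W
  symm : ∀ W W' : List En, WE W W' → WE W' W
  trans : ∀ W W' W'' : List En, WE W W' → WE W' W'' → WE W W''
  rot : ∀ A B : List En, Alt (A ++ B) → (A ++ B).Nodup → WE (A ++ B) (B ++ A)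
  iso : ∀ (W : List En) (φ ψ : Q → Q), Alt W → W.Nodup →
    (∀ a b, Sum.inl a ∈ W → Sum.inl b ∈ W → a < b → φ a < φ b) →
    (∀ a b, Sum.inr a ∈ W → Sum.inr b ∈ W → a < b → ψ a < ψ b) → WE W (W.map (Sum.map φ ψ))
  all : ∀ (W W' : List En) (M M' : List (ℝ × ℝ)), WE W W' → Rp W M → Rp W' M' → LEq M M'

/-- WEB -/
def Stmt_WEB : Prop := Stmt_RPE → Stmt_RPU → P_WEB

/-- RM: a row moves over a rectangle without marks. -/
def P_RM : Prop :=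
  ∀ (b b' c₁ c₂ : Q) (B : List En), Alt (.inr b :: .inl c₂ :: (B ++ [.inl c₁])) →
    (Sum.inr b :: .inl c₂ :: (B ++ [.inl c₁])).Nodup → Sum.inr b' ∉ B → b' ≠ b →
    (∀ c r, Mk (.inr b :: .inl c₂ :: (B ++ [.inl c₁])) c r → Btw b b' r → c ∉ uIcc c₁ c₂) →
    WE (.inr b :: .inl c₂ :: (B ++ [.inl c₁])) (.inr b' :: .inl c₂ :: (B ++ [.inl c₁]))

/-- RM -/
def Stmt_RM : Prop := P_WEB → Stmt_RPE → P_RM

/-- CM: a column moves over a rectangle without marks. -/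
def P_CM : Prop :=
  ∀ (a a' r₁ r₂ : Q) (B : List En), Alt (.inl a :: .inr r₂ :: (B ++ [.inr r₁])) →
    (Sum.inl a :: .inr r₂ :: (B ++ [.inr r₁])).Nodup → Sum.inl a' ∉ B → a' ≠ a →
    (∀ c r, Mk (.inl a :: .inr r₂ :: (B ++ [.inr r₁])) c r → Btw a a' c → r ∉ uIcc r₁ r₂) →
    WE (.inl a :: .inr r₂ :: (B ++ [.inr r₁])) (.inl a' :: .inr r₂ :: (B ++ [.inr r₁]))

/-- CM -/
def Stmt_CM : Prop := P_WEB → Stmt_RPE → P_CM

/-- DC1: the row `b₁` moves next to the row `b₀`, then the short column `c₁` between them is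
removed. `c₀`, `c₂` are the other columns of the rows `b₀`, `b₁`. -/
def P_DC1 : Prop :=
  ∀ (c₁ b₁ c₂ c₀ b₀ : Q) (B : List En),
    Alt (.inl c₁ :: .inr b₁ :: .inl c₂ :: (B ++ [.inl c₀, .inr b₀])) →
    (Sum.inl c₁ :: .inr b₁ :: .inl c₂ :: (B ++ [.inl c₀, .inr b₀])).Nodup →
    (∀ c r, Mk (.inl c₁ :: .inr b₁ :: .inl c₂ :: (B ++ [.inl c₀, .inr b₀])) c r → Btw b₁ b₀ r →
      c ∉ uIcc c₁ c₂) →
    (b₁ < b₀ ∧ cyc c₂ c₀ c₁ ∨ b₀ < b₁ ∧ cyc c₀ c₂ c₁) →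
    WE (.inl c₁ :: .inr b₁ :: .inl c₂ :: (B ++ [.inl c₀, .inr b₀]))
      (.inl c₂ :: (B ++ [.inl c₀, .inr b₀]))

/-- DC1 -/
def Stmt_DC1 : Prop := P_WEB → Stmt_RPE → P_RM → P_DC1

/-- DC2: the same for the other direction of the walk. -/
def P_DC2 : Prop :=
  ∀ (c₁ b₁ c₂ c₀ b₀ : Q) (B : List En),
    Alt (.inr b₁ :: .inl c₁ :: .inr b₀ :: .inl c₀ :: (B ++ [.inl c₂])) →
    (Sum.inr b₁ :: .inl c₁ :: .inr b₀ :: .inl c₀ :: (B ++ [.inl c₂])).Nodup →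
    (∀ c r, Mk (.inr b₁ :: .inl c₁ :: .inr b₀ :: .inl c₀ :: (B ++ [.inl c₂])) c r → Btw b₁ b₀ r →
      c ∉ uIcc c₁ c₂) →
    (b₁ < b₀ ∧ cyc c₂ c₀ c₁ ∨ b₀ < b₁ ∧ cyc c₀ c₂ c₁) →
    WE (.inr b₁ :: .inl c₁ :: .inr b₀ :: .inl c₀ :: (B ++ [.inl c₂]))
      (.inr b₀ :: .inl c₀ :: (B ++ [.inl c₂]))

/-- DC2 -/
def Stmt_DC2 : Prop := P_WEB → Stmt_RPE → P_RM → P_DC2

/-- DR1: the column `c₁` moves next to the column `c₀`, then the short row `b₁` between them is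
removed. `b₀`, `b₂` are the other rows of the columns `c₀`, `c₁`. -/
def P_DR1 : Prop :=
  ∀ (b₁ c₁ b₂ b₀ c₀ : Q) (B : List En),
    Alt (.inr b₁ :: .inl c₁ :: .inr b₂ :: (B ++ [.inr b₀, .inl c₀])) →
    (Sum.inr b₁ :: .inl c₁ :: .inr b₂ :: (B ++ [.inr b₀, .inl c₀])).Nodup →
    (∀ c r, Mk (.inr b₁ :: .inl c₁ :: .inr b₂ :: (B ++ [.inr b₀, .inl c₀])) c r → Btw c₁ c₀ c →
      r ∉ uIcc b₁ b₂) →
    (c₁ < c₀ ∧ cyc b₁ b₂ b₀ ∨ c₀ < c₁ ∧ cyc b₁ b₀ b₂) →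
    WE (.inr b₁ :: .inl c₁ :: .inr b₂ :: (B ++ [.inr b₀, .inl c₀]))
      (.inr b₂ :: (B ++ [.inr b₀, .inl c₀]))

/-- DR1 -/
def Stmt_DR1 : Prop := P_WEB → Stmt_RPE → P_CM → P_DR1

/-- DR2: the same for the other direction of the walk. -/
def P_DR2 : Prop :=
  ∀ (b₁ c₁ b₂ b₀ c₀ : Q) (B : List En),
    Alt (.inl c₁ :: .inr b₁ :: .inl c₀ :: .inr b₀ :: (B ++ [.inr b₂])) →
    (Sum.inl c₁ :: .inr b₁ :: .inl c₀ :: .inr b₀ :: (B ++ [.inr b₂])).Nodup →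
    (∀ c r, Mk (.inl c₁ :: .inr b₁ :: .inl c₀ :: .inr b₀ :: (B ++ [.inr b₂])) c r → Btw c₁ c₀ c →
      r ∉ uIcc b₁ b₂) →
    (c₁ < c₀ ∧ cyc b₁ b₂ b₀ ∨ c₀ < c₁ ∧ cyc b₁ b₀ b₂) →
    WE (.inl c₁ :: .inr b₁ :: .inl c₀ :: .inr b₀ :: (B ++ [.inr b₂]))
      (.inl c₀ :: .inr b₀ :: (B ++ [.inr b₂]))

/-- DR2 -/
def Stmt_DR2 : Prop := P_WEB → Stmt_RPE → P_CM → P_DR2

/-! ### walks -/

/-- MK: the marks of a walk. -/
def Stmt_MK : Prop :=
  ∀ w : List Pt, w ≠ [] → (∀ x ∈ cp w, Stp x.1 x.2) → ∀ c r : Q,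
    Mk (ents w) c r ↔ (∃ p q, Lk w p q ∧ c = q.c ∧ r = p.r) ∨
      ∃ p ∈ w, (p.k = .rt ∨ p.k = .lt) ∧ c = p.c ∧ r = p.r

/-- CWA: elementary properties of closed walks. -/
structure P_CWA : Prop where
  alt : ∀ w, CW w → Alt (ents w)
  rot : ∀ A B : List Pt, CW (A ++ B) → CW (B ++ A) ∧ WE (ents (A ++ B)) (ents (B ++ A))
  lk : ∀ (A B : List Pt) (p q : Pt), Lk (A ++ B) p q ↔ Lk (B ++ A) p q
  nd : ∀ w, CW w → w.Nodup
  lft : ∀ w, CW w → ∀ p p' q, Lk w p q → Lk w p' q → q.k ≠ .R → p = p'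
  rgt : ∀ w, CW w → ∀ p q q', Lk w p q → Lk w p q' → p.k ≠ .L → q = q'
  kl : ∀ w, CW w → ∀ p q, Lk w p q → p.k ≠ .R ∧ q.k ≠ .L

/-- CWA -/
def Stmt_CWA : Prop := P_WEB → P_CWA

/-- DEL: removal of the passing point `u` with the left neighbour `l` and the right neighbour
`g`. -/
def P_DEL : Prop :=
  ∀ (u : Pt) (T : List Pt) (l g : Pt), CW (u :: T) → CW T → (u.k = .rt ∨ u.k = .lt) →
    Lk (u :: T) l u → Lk (u :: T) u g →
    (∀ x y, Lk (u :: T) x y → Btw u.r l.r x.r → y.c < u.c ∨ g.c < y.c) →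
    (∀ x ∈ T, (x.k = .rt ∨ x.k = .lt) → Btw u.r l.r x.r → x.c < u.c ∨ g.c < x.c) →
    (l.k = .L → ∀ o, Lk (u :: T) l o → o ≠ u → o.c < u.c ∨ g.c < o.c) →
    WE (ents (u :: T)) (ents T)

/-- DEL -/
def Stmt_DEL : Prop := P_WEB → P_CWA → P_DC1 → P_DC2 → Stmt_MK → P_DEL

/-- FRM: a right turn moves. -/
def P_FRM : Prop :=
  ∀ (u u' : Pt) (T : List Pt) (p q : Pt), CW (u :: T) → CW (u' :: T) → u.k = .R → u'.k = .R →
    (p, u) ∈ cp (u :: T) → (u, q) ∈ cp (u :: T) →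
    (∀ x y, Lk (u :: T) x y → Btw u.c u'.c y.c → x.r ∉ uIcc p.r q.r) →
    (∀ x ∈ T, (x.k = .rt ∨ x.k = .lt) → Btw u.c u'.c x.c → x.r ∉ uIcc p.r q.r) →
    WE (ents (u :: T)) (ents (u' :: T))

/-- FRM -/
def Stmt_FRM : Prop := P_WEB → P_CWA → P_CM → Stmt_MK → P_FRM

/-- FLM: a left turn moves. -/
def P_FLM : Prop :=
  ∀ (u u' : Pt) (T : List Pt) (p q : Pt), CW (u :: T) → CW (u' :: T) → u.k = .L → u'.k = .L →
    (p, u) ∈ cp (u :: T) → (u, q) ∈ cp (u :: T) →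
    (∀ x y, Lk (u :: T) x y → Btw u.r u'.r x.r → y.c ∉ uIcc p.c q.c) →
    (∀ x ∈ T, (x.k = .rt ∨ x.k = .lt) → Btw u.r u'.r x.r → x.c ∉ uIcc p.c q.c) →
    WE (ents (u :: T)) (ents (u' :: T))

/-- FLM -/
def Stmt_FLM : Prop := P_WEB → P_CWA → P_RM → Stmt_MK → P_FLM

/-- ZR1: removal of a zigzag, walking to the right: `p`, right turn `u`, left turn `v`, `q`. -/
def P_ZR1 : Prop :=
  ∀ (u v q p : Pt) (B : List Pt), CW (u :: v :: q :: (B ++ [p])) → CW (q :: (B ++ [p])) →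
    u.k = .R → v.k = .L →
    (∀ x ∈ u :: v :: q :: (B ++ [p]), x.k ≠ .R → ¬ Btw p.r v.r x.r) →
    (∀ c₀, (p.k = .rt ∧ c₀ = p.c ∨ p.k = .L ∧ ∃ o, (o, p) ∈ cp (u :: v :: q :: (B ++ [p])) ∧
        c₀ = o.c) → v.r < p.r ∧ cyc q.c c₀ u.c ∨ p.r < v.r ∧ cyc c₀ q.c u.c) →
    WE (ents (u :: v :: q :: (B ++ [p]))) (ents (q :: (B ++ [p])))

/-- ZR1 -/
def Stmt_ZR1 : Prop := P_WEB → P_CWA → P_DC1 → Stmt_MK → P_ZR1

/-- ZR2: removal of a zigzag, walking to the left: `q`, left turn `v`, right turn `u`, `p`. -/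
def P_ZR2 : Prop :=
  ∀ (u v q p : Pt) (B : List Pt), CW (v :: u :: p :: (B ++ [q])) → CW (p :: (B ++ [q])) →
    u.k = .R → v.k = .L →
    (∀ x ∈ v :: u :: p :: (B ++ [q]), x.k ≠ .R → ¬ Btw p.r v.r x.r) →
    (∀ c₀, (p.k = .lt ∧ c₀ = p.c ∨ p.k = .L ∧ ∃ o, (p, o) ∈ cp (v :: u :: p :: (B ++ [q])) ∧
        c₀ = o.c) → v.r < p.r ∧ cyc q.c c₀ u.c ∨ p.r < v.r ∧ cyc c₀ q.c u.c) →
    WE (ents (v :: u :: p :: (B ++ [q]))) (ents (p :: (B ++ [q])))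

/-- ZR2 -/
def Stmt_ZR2 : Prop := P_WEB → P_CWA → P_DC2 → Stmt_MK → P_ZR2

/-- RTR: retraction of a finger to the right: `s₁`, right turn `u`, `s₂` with adjacent points
`s₁`, `s₂` on the line `s` become a right turn on the line `s`. -/
def P_RTR : Prop :=
  ∀ (s₁ u s₂ q p : Pt) (B : List Pt), CW (s₁ :: u :: s₂ :: q :: (B ++ [p])) →
    CW (⟨.R, s₁.t, s₁.h⟩ :: q :: (B ++ [p])) → s₁.k = .rt → u.k = .R → s₂.k = .lt → s₁.t = s₂.t →
    (∀ x ∈ s₁ :: u :: s₂ :: q :: (B ++ [p]), x.k ≠ .L → ¬ Btw s₁.c s₂.c x.c) →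
    (∀ x ∈ s₁ :: u :: s₂ :: q :: (B ++ [p]), x.k ≠ .R → ¬ Btw s₁.r s₂.r x.r) →
    (s₂.h < s₁.h ∧ q.r < p.r ∨ s₁.h < s₂.h ∧ p.r < q.r) →
    WE (ents (s₁ :: u :: s₂ :: q :: (B ++ [p]))) (ents (⟨.R, s₁.t, s₁.h⟩ :: q :: (B ++ [p])))

/-- RTR -/
def Stmt_RTR : Prop := P_WEB → P_CWA → P_DC1 → P_DR1 → Stmt_MK → P_RTR

/-- RTL: retraction of a finger to the left. -/
def P_RTL : Prop :=
  ∀ (s₂ u s₃ q p : Pt) (B : List Pt), CW (s₂ :: u :: s₃ :: q :: (B ++ [p])) →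
    CW (⟨.L, s₂.t, s₂.h⟩ :: q :: (B ++ [p])) → s₂.k = .lt → u.k = .L → s₃.k = .rt → s₂.t = s₃.t →
    (∀ x ∈ s₂ :: u :: s₃ :: q :: (B ++ [p]), x.k ≠ .L → ¬ Btw s₂.c s₃.c x.c) →
    (∀ x ∈ s₂ :: u :: s₃ :: q :: (B ++ [p]), x.k ≠ .R → ¬ Btw s₂.r s₃.r x.r) →
    (s₃.h < s₂.h ∧ q.c < p.c ∨ s₂.h < s₃.h ∧ p.c < q.c) →
    WE (ents (s₂ :: u :: s₃ :: q :: (B ++ [p]))) (ents (⟨.L, s₂.t, s₂.h⟩ :: q :: (B ++ [p])))

/-- RTL -/
def Stmt_RTL : Prop := P_WEB → P_CWA → P_DC1 → P_DR1 → Stmt_MK → P_RTL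

/-- The points `s₁`, `s₂`, `s₃` are on the same line and adjacent. -/
structure Tri (w : List Pt) (s₁ s₂ s₃ : Pt) : Prop where
  t₂ : s₁.t = s₂.t
  t₃ : s₁.t = s₃.t
  col : ∀ x ∈ w, x.k ≠ .L → Btw s₁.c s₃.c x.c → x = s₂
  row : ∀ x ∈ w, x.k ≠ .R → Btw s₁.r s₃.r x.r → x = s₂

/-- A zigzag, walking to the right. -/
structure ZgR (s₁ u s₂ v s₃ : Pt) (T : List Pt) : Prop where
  cw : CW (s₁ :: u :: s₂ :: v :: s₃ :: T)
  k₁ : s₁.k = .rt
  ku : u.k = .R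
  k₂ : s₂.k = .lt
  kv : v.k = .L
  k₃ : s₃.k = .rt
  tri : Tri (s₁ :: u :: s₂ :: v :: s₃ :: T) s₁ s₂ s₃

/-- A zigzag, walking to the left. -/
structure ZgL (s₁ u s₂ v s₃ : Pt) (T : List Pt) : Prop where
  cw : CW (s₁ :: u :: s₂ :: v :: s₃ :: T)
  k₁ : s₁.k = .lt
  ku : u.k = .L
  k₂ : s₂.k = .rt
  kv : v.k = .R
  k₃ : s₃.k = .lt
  tri : Tri (s₁ :: u :: s₂ :: v :: s₃ :: T) s₁ s₂ s₃

/-- The conclusion of `LG.Stmt_LWR`. -/
def P_LWR : Prop :=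
  ∀ (c₁ r₁ c₂ r₂ : ℝ) (B : List (ℝ × ℝ)) (z : ℝ × ℝ), Nd ((c₁, r₁) :: (c₂, r₂) :: (B ++ [z])) →
    (∀ d ∈ ((c₁, r₁) :: (c₂, r₂) :: (B ++ [z])).map Prod.fst, ¬ cyc c₁ d c₂) → cyc r₁ z.2 r₂ →
    VL ((c₁, r₁) :: (c₂, r₂) :: (B ++ [z]))

/-- A list with a short row of the wrong type in the other direction. -/
def P_LWP : Prop :=
  ∀ (c₁ r₁ c₂ r₂ : ℝ) (B : List (ℝ × ℝ)) (z : ℝ × ℝ), Nd ((c₁, r₁) :: (c₂, r₂) :: (B ++ [z])) →
    (∀ d ∈ ((c₁, r₁) :: (c₂, r₂) :: (B ++ [z])).map Prod.fst, ¬ cyc c₂ d c₁) → cyc r₁ r₂ z.2 →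
    VP ((c₁, r₁) :: (c₂, r₂) :: (B ++ [z]))

/-- LWP -/
def Stmt_LWP : Prop := P_LWR → P_LWP

/-- WZR: zigzags to the right are of the wrong type for `λ⁻` (descending) or `λ⁺` (ascending). -/
def P_WZR : Prop :=
  ∀ (s₁ u s₂ v s₃ : Pt) (T : List Pt), ZgR s₁ u s₂ v s₃ T →
    ∀ M, Rp (ents (s₁ :: u :: s₂ :: v :: s₃ :: T)) M →
      (s₃.h < s₂.h → s₂.h < s₁.h → VL M) ∧ (s₁.h < s₂.h → s₂.h < s₃.h → VP M)

/-- WZR -/
def Stmt_WZR : Prop :=
  P_LEQ → P_LWR → P_LWP → P_WEB → P_CWA → P_DC1 → P_DR2 → Stmt_MK → P_WZR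

/-- WZL: zigzags to the left are of the wrong type for `λ⁻` (descending) or `λ⁺` (ascending). -/
def P_WZL : Prop :=
  ∀ (s₁ u s₂ v s₃ : Pt) (T : List Pt), ZgL s₁ u s₂ v s₃ T →
    ∀ M, Rp (ents (s₁ :: u :: s₂ :: v :: s₃ :: T)) M →
      (s₃.h < s₂.h → s₂.h < s₁.h → VL M) ∧ (s₁.h < s₂.h → s₂.h < s₃.h → VP M)

/-- WZL -/
def Stmt_WZL : Prop :=
  P_LEQ → P_LWR → P_LWP → P_WEB → P_CWA → P_DC2 → P_DR2 → Stmt_MK → P_WZL

/-! ### removal of a line -/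

/-- The heights on the left side of the point `u` of the line `s`. -/
def KS (w : List Pt) (el : Pt → ℝ) (u : Pt) : Set ℝ :=
  {h | (∃ p, Lk w p u ∧ h = p.h) ∨ u.k = .L ∧ h = el u}

/-- The heights on the right side of the point `u` of the line `s`. -/
def RS (w : List Pt) (er : Pt → ℝ) (u : Pt) : Set ℝ :=
  {h | (∃ q, Lk w u q ∧ h = q.h) ∨ u.k = .R ∧ h = er u}

open Classical in
/-- Removal of the line `s` between the lines `a` and `d`: the passing points of the line `s`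
disappear, the right turns move to the line `d`, the left turns move to the line `a`. -/
noncomputable def rm1 (a s d : ℝ) (el er : Pt → ℝ) (p : Pt) : Option Pt :=
  if p.t = s then
    match p.k with
    | .rt => none
    | .lt => none
    | .R => some ⟨.R, d, er p⟩
    | .L => some ⟨.L, a, el p⟩
  else some p

/-- The walk without the line `s`. -/
noncomputable def rmv (a s d : ℝ) (el er : Pt → ℝ) (w : List Pt) : List Pt :=
  w.filterMap (rm1 a s d el er)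

/-- The conditions for the removal of the line `s`. -/
structure Rem (w : List Pt) (a s d : ℝ) (el er : Pt → ℝ) : Prop where
  cw : CW w
  lt₁ : a < s
  lt₂ : s < d
  ln : ∀ p ∈ w, p.t ≤ a ∨ p.t = s ∨ d ≤ p.t
  lk : ∀ p q, Lk w p q → (p.t = s → q.t = d) ∧ (q.t = s → p.t = a) ∧
    (p.t < s → s < q.t → p.t = a ∧ q.t = d)
  dr : ∀ u ∈ w, u.k = .R → u.t = s → ∀ v ∈ w, (v.k ≠ .L → v.t = d → v.h ≠ er u) ∧
    (v.k = .R → v.t = s → er v = er u → v = u)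
  dl : ∀ u ∈ w, u.k = .L → u.t = s → ∀ v ∈ w, (v.k ≠ .R → v.t = a → v.h ≠ el u) ∧
    (v.k = .L → v.t = s → el v = el u → v = u)
  st : ∀ u ∈ w, ∀ v ∈ w, u.t = s → v.t = s → u ≠ v → u.h ≤ v.h →
    (∀ x ∈ KS w el v, ∀ y ∈ KS w el u, y < x) ∨ ∀ x ∈ RS w er v, ∀ y ∈ RS w er u, y < x
  lg : ∀ p q, Lk w p q → p.t = a → q.t = d → ∀ u ∈ w, u.t = s →
    (∀ y ∈ KS w el u, y < p.h) ∨ ∀ y ∈ RS w er u, y < q.h
  len : 4 ≤ (ents (rmv a s d el er w)).length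

/-- TRA: removal of one point at the top of the line `s`. -/
def P_TRA : Prop :=
  ∀ (u : Pt) (T : List Pt) (a s d : ℝ) (el er : Pt → ℝ), Rem (u :: T) a s d el er → u.t = s →
    (∀ v ∈ T, v.t = s → v.h ≤ u.h) → CW ((rm1 a s d el er u).toList ++ T) →
    WE (ents (u :: T)) (ents ((rm1 a s d el er u).toList ++ T))

/-- TRA -/
def Stmt_TRA : Prop := P_WEB → P_CWA → P_DEL → P_FRM → P_FLM → P_TRA

/-- TRB: the conditions remain true. -/
def P_TRB : Prop :=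
  ∀ (u : Pt) (T : List Pt) (a s d : ℝ) (el er : Pt → ℝ), Rem (u :: T) a s d el er → u.t = s →
    (∀ v ∈ T, v.t = s → v.h ≤ u.h) → Rem ((rm1 a s d el er u).toList ++ T) a s d el er

/-- TRB -/
def Stmt_TRB : Prop := P_CWA → P_TRB

/-- TRC: rotation. -/
def P_TRC : Prop :=
  ∀ (A B : List Pt) (a s d : ℝ) (el er : Pt → ℝ), Rem (A ++ B) a s d el er →
    Rem (B ++ A) a s d el er

/-- TRC -/
def Stmt_TRC : Prop := P_CWA → P_TRC

/-- Removal of a line. -/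
def P_TRL : Prop :=
  ∀ (w : List Pt) (a s d : ℝ) (el er : Pt → ℝ), Rem w a s d el er →
    WE (ents w) (ents (rmv a s d el er w)) ∧ CW (rmv a s d el er w)

/-- TRL -/
def Stmt_TRL : Prop := P_WEB → P_CWA → P_TRA → P_TRB → P_TRC → P_TRL

end LH


end

section

/-!
# Part C, second part: walks of polygons
-/

namespace LH

open Set LG

/-! ### lines of a polygon -/

/-- Elementary properties of the lines of a polygon. -/
structure P_PGB : Prop where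
  ls : ∀ {N : ℕ} (P : Pg N) (i : ℤ) (t : ℝ),
    P.l (i + 1) t - P.l i t = (P.y (i + 1) - P.y i) * (t - P.x (i + 1))
  lz : ∀ {N : ℕ} (P : Pg N) (i : ℤ), P.l i (P.x i) = P.z i ∧ P.l i (P.x (i + 1)) = P.z (i + 1)
  sh : ∀ {N : ℕ} (P : Pg N) (i k : ℤ), P.x (i + k * N) = P.x i ∧ P.y (i + k * N) = P.y i ∧
    P.z (i + k * N) = P.z i ∧ ∀ t, P.l (i + k * N) t = P.l i t
  dt : ∀ {N : ℕ} (P : Pg N) (i : ℤ) (s t : ℝ), P.l i t - P.l i s = P.y i * (t - s)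
  m1 : ∀ {N : ℕ} (P : Pg N) (i j : ℤ) (t : ℝ), i < j → StrictMonoOn P.y (Icc i j) →
    (∀ m, i < m → m ≤ j → P.x m < t) → P.l i t < P.l j t
  m2 : ∀ {N : ℕ} (P : Pg N) (i j : ℤ) (t : ℝ), i < j → StrictMonoOn P.y (Icc i j) →
    (∀ m, i < m → m ≤ j → t < P.x m) → P.l j t < P.l i t
  m3 : ∀ {N : ℕ} (P : Pg N) (i j : ℤ) (t : ℝ), i < j → StrictAntiOn P.y (Icc i j) →
    (∀ m, i < m → m ≤ j → P.x m < t) → P.l j t < P.l i t
  m4 : ∀ {N : ℕ} (P : Pg N) (i j : ℤ) (t : ℝ), i < j → StrictAntiOn P.y (Icc i j) →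
    (∀ m, i < m → m ≤ j → t < P.x m) → P.l i t < P.l j t

/-- PGB -/
def Stmt_PGB : Prop := P_PGB

/-- Monotone in `y`. -/
def YM {N : ℕ} (P : Pg N) (p q : ℤ) : Prop := StrictMonoOn P.y (Icc p q) ∨ StrictAntiOn P.y (Icc p q)

/-- Increments of the height between two lines `s < t`; all vertices between the edges `i ≤ j` are
between the lines. -/
structure P_INC : Prop where
  r : ∀ {N : ℕ} (P : Pg N) (i j : ℤ) (s t m M : ℝ), i ≤ j → s < t →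
    (∀ k, i < k → k ≤ j → s < P.x k ∧ P.x k < t) → (∀ k, i ≤ k → k ≤ j → m ≤ P.y k ∧ P.y k ≤ M) →
    (YM P i j ∨ StrictMonoOn P.x (Icc i (j + 1))) →
    m * (t - s) ≤ P.l j t - P.l i s ∧ P.l j t - P.l i s ≤ M * (t - s)
  l : ∀ {N : ℕ} (P : Pg N) (i j : ℤ) (s t m M : ℝ), i ≤ j → s < t →
    (∀ k, i < k → k ≤ j → s < P.x k ∧ P.x k < t) → (∀ k, i ≤ k → k ≤ j → m ≤ P.y k ∧ P.y k ≤ M) →
    (YM P i j ∨ StrictAntiOn P.x (Icc i (j + 1))) →
    m * (t - s) ≤ P.l i t - P.l j s ∧ P.l i t - P.l j s ≤ M * (t - s)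

/-- INC -/
def Stmt_INC : Prop := P_PGB → P_INC

/-! ### components -/

/-- The edge `e` meets the open slab `(a, b)` (used when no vertex is on the lines `a`, `b`). -/
def Mts {N : ℕ} (P : Pg N) (a b : ℝ) (e : ℤ) : Prop :=
  ¬ (P.x e < a ∧ P.x (e + 1) < a) ∧ ¬ (b < P.x e ∧ b < P.x (e + 1))

/-- Properties of components. -/
structure P_CMP : Prop where
  ex : ∀ {N : ℕ} (P : Pg N) (a b : ℝ), 0 < N → Good P a b → ∀ e, Mts P a b e →
    ∃ p q, Comp P a b p q ∧ p ≤ e ∧ e ≤ q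
  un : ∀ {N : ℕ} (P : Pg N) (a b : ℝ) (p q p' q' e : ℤ), Comp P a b p q → Comp P a b p' q' →
    p ≤ e → e ≤ q → p' ≤ e → e ≤ q' → p = p' ∧ q = q'
  ln : ∀ {N : ℕ} (P : Pg N) (a b : ℝ) (p q : ℤ), 0 < N → Good P a b → Comp P a b p q → q < p + N
  sh : ∀ {N : ℕ} (P : Pg N) (a b : ℝ) (p q k : ℤ), Comp P a b p q →
    Comp P a b (p + k * N) (q + k * N)
  sep : ∀ {N : ℕ} (P : Pg N) (a b : ℝ) (p q p' q' : ℤ), 0 < N → Good P a b → Comp P a b p q →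
    Comp P a b p' q' → (∃ k : ℤ, p' = p + k * N ∧ q' = q + k * N) ∨
      Sep P p q p' q' a ∧ Sep P p q p' q' b
  mt : ∀ {N : ℕ} (P : Pg N) (a b : ℝ) (p q e : ℤ), Good P a b → Comp P a b p q → p ≤ e → e ≤ q →
    Mts P a b e

/-- CMP -/
def Stmt_CMP : Prop := P_PGB → P_CMP

/-! ### walks as sequences -/

/-- The periodic sequence of a walk. -/
structure Sq {N : ℕ} (P : Pg N) (X : Finset ℝ) (w : List It) (W : ℤ → It) : Prop where
  ne : 0 < w.length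
  per : ∀ n, W (n + w.length) = (W n).sh N
  lnk : ∀ n, Lnk P X (W n) (W (n + 1))
  ok : ∀ n, ItOK P (W n)
  get : ∀ (k : ℕ) (h : k < w.length), w[k] = W k

/-- Sequences of walks. -/
structure P_SEQ : Prop where
  ex : ∀ {N : ℕ} (P : Pg N) (X : Finset ℝ) (w : List It), EW P X w → ∃ W, Sq P X w W
  ew : ∀ {N : ℕ} (P : Pg N) (X : Finset ℝ) (w : List It) (W : ℤ → It), Sq P X w W → EW P X w
  rot : ∀ {N : ℕ} (P : Pg N) (X : Finset ℝ) (i : It) (w : List It), EW P X (i :: w) →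
    EW P X (w ++ [i.sh N])
  pos : ∀ {N : ℕ} (P : Pg N) (X : Finset ℝ) (w : List It), EW P X w → 0 < N
  cp : ∀ {N : ℕ} (P : Pg N) (X : Finset ℝ) (w : List It) (W : ℤ → It), Sq P X w W →
    ∀ x, x ∈ cp (w.map (pt P)) ↔ ∃ n, x = (pt P (W n), pt P (W (n + 1)))
  mem : ∀ {N : ℕ} (P : Pg N) (X : Finset ℝ) (w : List It) (W : ℤ → It), Sq P X w W →
    ∀ n, ∃ i ∈ w, ∃ k : ℤ, (W n).k = i.k ∧ (W n).t = i.t ∧ (W n).e = i.e + k * N
  /-- the edges increase between two items of the same line -/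
  lt : ∀ {N : ℕ} (P : Pg N) (X : Finset ℝ) (w : List It) (W : ℤ → It), Sq P X w W →
    ∀ n n', n < n' → (W n).t = (W n').t → (W n).e < (W n').e
  mo : ∀ {N : ℕ} (P : Pg N) (X : Finset ℝ) (w : List It) (W : ℤ → It), Sq P X w W →
    ∀ n n', n ≤ n' → (W n).e ≤ (W n').e
  /-- if two items have the same edge, then all items between them run in the same direction -/
  eq : ∀ {N : ℕ} (P : Pg N) (X : Finset ℝ) (w : List It) (W : ℤ → It), Sq P X w W →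
    ∀ n n', n < n' → (W n).e = (W n').e →
      (∀ m, n ≤ m → m < n' → (W m).k = .rt ∧ (W m).t < (W (m + 1)).t) ∨
        ∀ m, n ≤ m → m < n' → (W m).k = .lt ∧ (W (m + 1)).t < (W m).t
  /-- every crossing is an item -/
  cov : ∀ {N : ℕ} (P : Pg N) (X : Finset ℝ) (w : List It) (W : ℤ → It), Sq P X w W →
    ∀ t ∈ X, ∀ e, (P.x e < t → t < P.x (e + 1) → ∃ n, W n = ⟨.rt, t, e⟩) ∧
      (P.x (e + 1) < t → t < P.x e → ∃ n, W n = ⟨.lt, t, e⟩)

/-- SEQ: existence, conversely, rotation, `cp`, `mem`. -/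
def Stmt_SEQ : Prop := P_PGB →
  ((∀ {N : ℕ} (P : Pg N) (X : Finset ℝ) (w : List It), EW P X w → ∃ W, Sq P X w W) ∧
   (∀ {N : ℕ} (P : Pg N) (X : Finset ℝ) (w : List It) (W : ℤ → It), Sq P X w W → EW P X w) ∧
   (∀ {N : ℕ} (P : Pg N) (X : Finset ℝ) (i : It) (w : List It), EW P X (i :: w) →
     EW P X (w ++ [i.sh N])) ∧
   (∀ {N : ℕ} (P : Pg N) (X : Finset ℝ) (w : List It) (W : ℤ → It), Sq P X w W →
     ∀ x, x ∈ cp (w.map (pt P)) ↔ ∃ n, x = (pt P (W n), pt P (W (n + 1)))) ∧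
   ∀ {N : ℕ} (P : Pg N) (X : Finset ℝ) (w : List It) (W : ℤ → It), Sq P X w W →
     ∀ n, ∃ i ∈ w, ∃ k : ℤ, (W n).k = i.k ∧ (W n).t = i.t ∧ (W n).e = i.e + k * N)

/-- SQO: order of the edges in a sequence. -/
def Stmt_SQO : Prop :=
  (∀ {N : ℕ} (P : Pg N) (X : Finset ℝ) (w : List It) (W : ℤ → It), Sq P X w W →
    ∀ n n', n < n' → (W n).t = (W n').t → (W n).e < (W n').e) ∧
  (∀ {N : ℕ} (P : Pg N) (X : Finset ℝ) (w : List It) (W : ℤ → It), Sq P X w W →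
    ∀ n n', n ≤ n' → (W n).e ≤ (W n').e) ∧
  (∀ {N : ℕ} (P : Pg N) (X : Finset ℝ) (w : List It) (W : ℤ → It), Sq P X w W →
    ∀ n n', n < n' → (W n).e = (W n').e →
      (∀ m, n ≤ m → m < n' → (W m).k = .rt ∧ (W m).t < (W (m + 1)).t) ∨
        ∀ m, n ≤ m → m < n' → (W m).k = .lt ∧ (W (m + 1)).t < (W m).t) ∧
  ∀ {N : ℕ} (P : Pg N) (X : Finset ℝ) (w : List It), (∃ W, Sq P X w W) → 0 < N

/-- COV: every crossing is an item. -/
def Stmt_COV : Prop :=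
  ∀ {N : ℕ} (P : Pg N) (X : Finset ℝ) (w : List It) (W : ℤ → It), Sq P X w W →
    ∀ t ∈ X, ∀ e, (P.x e < t → t < P.x (e + 1) → ∃ n, W n = ⟨.rt, t, e⟩) ∧
      (P.x (e + 1) < t → t < P.x e → ∃ n, W n = ⟨.lt, t, e⟩)

/-- WON: every crossing is an item of the list, up to periods. -/
def P_WON : Prop :=
  ∀ {N : ℕ} (P : Pg N) (X : Finset ℝ) (w : List It), EW P X w → ∀ t ∈ X, ∀ e,
    (P.x e < t → t < P.x (e + 1) → ∃ j : ℤ, (⟨.rt, t, e + j * N⟩ : It) ∈ w) ∧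
      (P.x (e + 1) < t → t < P.x e → ∃ j : ℤ, (⟨.lt, t, e + j * N⟩ : It) ∈ w)

/-- WON -/
def Stmt_WON : Prop := P_SEQ → P_WON

/-- The turns in the cell `(a, b)` belong to components which are monotone in `y`. -/
def YF {N : ℕ} (P : Pg N) (a b : ℝ) (w : List It) : Prop :=
  ∀ i ∈ w, (i.k = .R ∨ i.k = .L) → a < P.x (i.e + 1) → P.x (i.e + 1) < b →
    ∃ p q, Comp P a b p q ∧ p ≤ i.e ∧ i.e ≤ q ∧ YM P p q

/-- The same for all cells of `X`. -/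
def YX {N : ℕ} (P : Pg N) (X : Finset ℝ) (w : List It) : Prop :=
  ∀ a b, AdjX X a b → YF P a b w

/-- Generic lines. -/
def Gen {N : ℕ} (P : Pg N) (Y : Finset ℝ) : Prop :=
  ∀ s ∈ Y, (∀ i, P.x i ≠ s) ∧ ∀ i j, P.y i ≠ P.y j → P.l i s ≠ P.l j s

/-- The heights on the left side of the item `n`; `a` is the line to the left. -/
def KI {N : ℕ} (P : Pg N) (W : ℤ → It) (a : ℝ) (n : ℤ) : Set ℝ :=
  {h | (∃ j, (j = n - 1 ∨ j = n + 1) ∧ (W j).t < (W n).t ∧ h = P.l (W j).e (W j).t) ∨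
    (W n).k = .L ∧ h = P.l (W n).e a}

/-- The heights on the right side of the item `n`; `d` is the line to the right. -/
def RI {N : ℕ} (P : Pg N) (W : ℤ → It) (d : ℝ) (n : ℤ) : Set ℝ :=
  {h | (∃ j, (j = n - 1 ∨ j = n + 1) ∧ (W n).t < (W j).t ∧ h = P.l (W j).e (W j).t) ∨
    (W n).k = .R ∧ h = P.l (W n).e d}

/-- The situation of the removal of the line `s` from the walk `w` with the lines `Y` in the good
cell `(a, b)`. -/
structure Sit {N : ℕ} (P : Pg N) (a b s d : ℝ) (Y : Finset ℝ) (w : List It) (W : ℤ → It) :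
    Prop where
  gd : Good P a b
  l : AdjX Y a s
  r : AdjX Y s d
  db : d ≤ b
  sq : Sq P Y w W
  yf : YF P a b w

/-- ITM: the edges near an item of the line `s`. -/
def P_ITM : Prop :=
  ∀ {N : ℕ} (P : Pg N) (a b s d : ℝ) (Y : Finset ℝ) (w : List It) (W : ℤ → It),
    Sit P a b s d Y w W → ∀ n, (W n).t = s → ∃ p q, Comp P a b p q ∧ p ≤ (W n).e ∧ (W n).e ≤ q ∧
      (∀ h ∈ KI P W a n, ∃ e, p ≤ e ∧ e ≤ q ∧ h = P.l e a) ∧
      (∀ h ∈ RI P W d n, ∃ e, p ≤ e ∧ e ≤ q ∧ h = P.l e d) ∧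
      ∀ h ∈ RI P W d n, ∀ m M : ℝ, (∀ k, p ≤ k → k ≤ q → m ≤ P.y k ∧ P.y k ≤ M) →
        m * (d - s) ≤ h - P.l (W n).e s ∧ h - P.l (W n).e s ≤ M * (d - s)

/-- ITM -/
def Stmt_ITM : Prop := P_PGB → P_INC → P_CMP → P_SEQ → P_ITM

/-- The dichotomy for two items of the line `s`. -/
def Dich {N : ℕ} (P : Pg N) (W : ℤ → It) (a s d : ℝ) (n n' : ℤ) : Prop :=
  P.l (W n).e s ≤ P.l (W n').e s →
    (∀ x ∈ KI P W a n', ∀ y ∈ KI P W a n, y < x) ∨ ∀ x ∈ RI P W d n', ∀ y ∈ RI P W d n, y < x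

/-- STD: the dichotomy for items of different components. -/
def P_STD : Prop :=
  ∀ {N : ℕ} (P : Pg N) (a b s d : ℝ) (Y : Finset ℝ) (w : List It) (W : ℤ → It),
    Sit P a b s d Y w W → ∀ n n' p q p' q', (W n).t = s → (W n').t = s → Comp P a b p q →
      p ≤ (W n).e → (W n).e ≤ q → Comp P a b p' q' → p' ≤ (W n').e → (W n').e ≤ q' →
      (¬ ∃ k : ℤ, p' = p + k * N) → Dich P W a s d n n'

/-- STD -/
def Stmt_STD : Prop := P_PGB → P_CMP → P_SEQ → P_ITM → P_STD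

/-- STI: the dichotomy for items of the same component, increasing in `y`. -/
def P_STI : Prop :=
  ∀ {N : ℕ} (P : Pg N) (a b s d : ℝ) (Y : Finset ℝ) (w : List It) (W : ℤ → It),
    Sit P a b s d Y w W → ∀ n n' p q, n ≠ n' → (W n).t = s → (W n').t = s → Comp P a b p q →
      p ≤ (W n).e → (W n).e ≤ q → p ≤ (W n').e → (W n').e ≤ q → StrictMonoOn P.y (Icc p q) →
      Dich P W a s d n n'

/-- STI -/
def Stmt_STI : Prop := P_PGB → P_INC → P_CMP → P_SEQ → P_STI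

/-- The reflected polygon. -/
def Pg.rf {N : ℕ} (P : Pg N) : Pg N where
  x := P.x
  y i := -P.y i
  z i := -P.z i
  px := P.px
  py i := by simp [P.py i]
  pz i := by simp [P.pz i]
  cl i := by have := P.cl i; linarith

/-- RFL: reflection of a situation. -/
def P_RFL : Prop :=
  ∀ {N : ℕ} (P : Pg N) (a b s d : ℝ) (Y : Finset ℝ) (w : List It) (W : ℤ → It),
    (Sit P a b s d Y w W → Sit P.rf a b s d Y w W) ∧
      ∀ n n', Dich P.rf W a s d n' n → P.l (W n).e s ≤ P.l (W n').e s →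
        (∀ x ∈ KI P W a n', ∀ y ∈ KI P W a n, y < x) ∨ ∀ x ∈ RI P W d n', ∀ y ∈ RI P W d n, y < x

/-- RFL -/
def Stmt_RFL : Prop := P_RFL

/-- STA: the dichotomy for all items. -/
def P_STA : Prop :=
  ∀ {N : ℕ} (P : Pg N) (a b s d : ℝ) (Y : Finset ℝ) (w : List It) (W : ℤ → It),
    Sit P a b s d Y w W → ∀ n n', (W n).t = s → (W n').t = s →
      (¬ ∃ k : ℤ, n' = n + k * w.length) → Dich P W a s d n n'

/-- STA -/
def Stmt_STA : Prop := P_PGB → P_CMP → P_SEQ → P_ITM → P_STD → P_STI → P_RFL → P_STA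

/-! ### removal of a line from the walk of a polygon -/

open Classical in
/-- Removal of the line `s` between the lines `a` and `d`. -/
noncomputable def ri1 (a s d : ℝ) (i : It) : Option It :=
  if i.t = s then
    match i.k with
    | .rt => none
    | .lt => none
    | .R => some ⟨.R, d, i.e⟩
    | .L => some ⟨.L, a, i.e⟩
  else some i

/-- The walk without the line `s`. -/
noncomputable def riv (a s d : ℝ) (w : List It) : List It := w.filterMap (ri1 a s d)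

/-- RMP: the conditions for the removal of the line. -/
def P_RMP : Prop :=
  ∀ {N : ℕ} (P : Pg N) (a b s d : ℝ) (Y : Finset ℝ) (w : List It) (W : ℤ → It),
    Sit P a b s d Y w W → Gen P Y → CW (w.map (pt P)) →
    4 ≤ (ents ((riv a s d w).map (pt P))).length →
    ∃ el er : Pt → ℝ, Rem (w.map (pt P)) a s d el er ∧
      rmv a s d el er (w.map (pt P)) = (riv a s d w).map (pt P)

/-- RMP -/
def Stmt_RMP : Prop := P_PGB → P_CMP → P_SEQ → P_CWA → P_STA → P_RMP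

/-- EWP: the walk without the line `s` is a walk with the lines `Y.erase s`. -/
def P_EWP : Prop :=
  ∀ {N : ℕ} (P : Pg N) (a b s d : ℝ) (Y : Finset ℝ) (w : List It) (W : ℤ → It),
    Sit P a b s d Y w W → (∀ i, P.x i ≠ s) → EW P (Y.erase s) (riv a s d w)

/-- EWP -/
def Stmt_EWP : Prop := P_SEQ → P_EWP

/-- LEN: a walk has at least four entries. -/
def P_LEN : Prop :=
  ∀ {N : ℕ} (P : Pg N) (X Y : Finset ℝ) (w : List It), GoodX P X → X ⊆ Y → EW P Y w →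
    4 ≤ (ents (w.map (pt P))).length

/-- LEN -/
def Stmt_LEN : Prop := P_SEQ → P_LEN

/-- Removal of one line. -/
def P_PH1 : Prop :=
  ∀ {N : ℕ} (P : Pg N) (a b s d : ℝ) (X Y : Finset ℝ) (w : List It) (W : ℤ → It),
    Sit P a b s d Y w W → Gen P Y → GoodX P X → X ⊆ Y → s ∉ X → YX P X w → CW (w.map (pt P)) →
    ∃ w', EW P (Y.erase s) w' ∧ YX P X w' ∧ CW (w'.map (pt P)) ∧ WE (lst P w) (lst P w')

/-- PH1 -/
def Stmt_PH1 : Prop := P_SEQ → P_TRL → P_RMP → P_EWP → P_LEN → P_PH1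

/-- RED: removal of many lines. -/
def P_RED : Prop :=
  ∀ {N : ℕ} (P : Pg N) (X Y : Finset ℝ) (w : List It), GoodX P X → X ⊆ Y → Gen P Y → EW P Y w →
    YX P X w → CW (w.map (pt P)) →
    ∃ w', EW P X w' ∧ YX P X w' ∧ CW (w'.map (pt P)) ∧ WE (lst P w) (lst P w')

/-- RED -/
def Stmt_RED : Prop := P_SEQ → P_WEB → P_CWA → P_PH1 → P_RED

/-! ### zigzags -/

/-- ZRM: removal of one zigzag. -/
def P_ZRM : Prop :=
  ∀ {N : ℕ} (P : Pg N) (X : Finset ℝ) (w : List It), GoodX P X → EW P X w → YX P X w →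
    CW (w.map (pt P)) → ¬ GW P X w →
    ∃ w', w'.length < w.length ∧ EW P X w' ∧ YX P X w' ∧ CW (w'.map (pt P)) ∧
      WE (lst P w) (lst P w')

/-- ZRM -/
def Stmt_ZRM : Prop :=
  P_PGB → P_CMP → P_SEQ → P_WEB → P_CWA → P_ZR1 → P_ZR2 → P_LEN → P_ZRM

/-- Removal of all zigzags. -/
def P_ZAL : Prop :=
  ∀ {N : ℕ} (P : Pg N) (X : Finset ℝ) (w : List It), GoodX P X → EW P X w → YX P X w →
    CW (w.map (pt P)) → ∃ w', GW P X w' ∧ WE (lst P w) (lst P w')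

/-- ZAL -/
def Stmt_ZAL : Prop := P_WEB → P_CWA → P_ZRM → P_ZAL

/-! ### comparison of walks with the same lines -/

/-- GYF: in a walk without zigzags all turns are in components monotone in `y`. -/
def P_GYF : Prop :=
  ∀ {N : ℕ} (P : Pg N) (X Y : Finset ℝ) (w : List It), GoodX P X → X ⊆ Y →
    (∀ s ∈ Y, ∀ i, P.x i ≠ s) → GW P Y w → YX P X w

/-- GYF -/
def Stmt_GYF : Prop := P_PGB → P_CMP → P_SEQ → P_GYF

/-- CWG: the walk of points for a good set of lines. -/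
def P_CWG : Prop :=
  ∀ {N : ℕ} (P : Pg N) (X : Finset ℝ) (w : List It), GoodX P X → GW P X w → CW (w.map (pt P))

/-- CWG -/
def Stmt_CWG : Prop := P_PGB → P_CMP → P_SEQ → P_LEN → P_GYF → P_CWG

/-- CWP: the walk of points for generic lines. -/
def P_CWP : Prop :=
  ∀ {N : ℕ} (P : Pg N) (X Y : Finset ℝ) (w : List It), GoodX P X → X ⊆ Y → Gen P Y → EW P Y w →
    YX P X w → CW (w.map (pt P))

/-- CWP -/
def Stmt_CWP : Prop := P_PGB → P_CMP → P_SEQ → P_LEN → P_CWP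

/-- Two walks have the same items up to the edges of the turns. -/
def SmI (i j : It) : Prop := i.k = j.k ∧ i.t = j.t ∧ ((i.k = .rt ∨ i.k = .lt) → i.e = j.e)

/-- NXT: two walks without zigzags have the same items. -/
def P_NXT : Prop :=
  ∀ {N : ℕ} (P : Pg N) (X : Finset ℝ) (w w' : List It), GoodX P X → GW P X w → GW P X w' →
    ∃ W W' : ℤ → It, ∃ c : ℤ, Sq P X w W ∧ Sq P X w' W' ∧ w.length = w'.length ∧
      ∀ n, SmI (W n) (W' (n + c))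

/-- NXT -/
def Stmt_NXT : Prop := P_SEQ → P_LEN → P_NXT

/-- UNI: two walks without zigzags with the same lines are equivalent. -/
def P_UNI : Prop :=
  ∀ {N : ℕ} (P : Pg N) (X : Finset ℝ) (w w' : List It), GoodX P X → GW P X w → GW P X w' →
    WE (lst P w) (lst P w')

/-- UNI -/
def Stmt_UNI : Prop := P_PGB → P_CMP → P_SEQ → P_WEB → P_CWA → P_CWG → P_GYF → P_NXT → P_UNI

/-! ### existence -/

/-- EXW: walks exist. -/
def P_EXW : Prop :=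
  ∀ {N : ℕ} (P : Pg N) (Y : Finset ℝ), 0 < N → (∀ s ∈ Y, ∀ i, P.x i ≠ s) →
    (∃ a ∈ Y, ∀ i, a < P.x i) → (∃ b ∈ Y, ∀ i, P.x i < b) → (∃ s ∈ Y, ∃ i j, P.x i < s ∧ s < P.x j) →
    ∃ w, GW P Y w

/-- EXW -/
def Stmt_EXW : Prop := P_EXW

/-- The events of a polygon. -/
def Ev {N : ℕ} (P : Pg N) : Set ℝ :=
  {t | (∃ i, P.x i = t) ∨ ∃ i j, P.y i ≠ P.y j ∧ P.l i t = P.l j t}

/-- EVF: the set of events is finite. -/
def P_EVF : Prop := ∀ {N : ℕ} (P : Pg N), 0 < N → (Ev P).Finite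

/-- EVF -/
def Stmt_EVF : Prop := P_PGB → P_EVF

/-- FGC: cells with at most one event are good. -/
def P_FGC : Prop :=
  ∀ {N : ℕ} (P : Pg N) (a b : ℝ), 0 < N → Emb P → a < b → a ∉ Ev P → b ∉ Ev P →
    (∀ s t, s ∈ Ev P → t ∈ Ev P → a < s → s < b → a < t → t < b → s = t) → Good P a b

/-- FGC -/
def Stmt_FGC : Prop := P_PGB → P_FGC

/-- EGX: good sets of lines exist, containing a given set of lines without events. -/
def P_EGX : Prop :=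
  ∀ {N : ℕ} (P : Pg N), 0 < N → Emb P → ∀ F : Finset ℝ, (∀ s ∈ F, s ∉ Ev P) →
    ∃ X : Finset ℝ, F ⊆ X ∧ GoodX P X ∧ (∀ s ∈ X, s ∉ Ev P) ∧
      (∃ s ∈ X, ∃ i j, P.x i < s ∧ s < P.x j)

/-- EGX -/
def Stmt_EGX : Prop := P_EVF → P_FGC → P_EGX

/-- T_EX: good sets of lines with small mesh. -/
def P_TEX : Prop :=
  ∀ {N : ℕ} (P : Pg N), 0 < N → Emb P → ∀ ε > 0, ∃ X w, GoodX P X ∧ GW P X w ∧
    ∀ a b, AdjX X a b → b - a < ε

/-- TEX -/
def Stmt_TEX : Prop := P_EVF → P_EGX → P_EXW → P_TEX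

/-! ### perturbation of lines -/

/-- PER: the lines can be made generic. -/
def P_PER : Prop :=
  ∀ {N : ℕ} (P : Pg N) (X : Finset ℝ) (w : List It), GoodX P X → GW P X w →
    ∃ X' w', GoodX P X' ∧ Gen P X' ∧ GW P X' w' ∧ WE (lst P w) (lst P w')

/-- Moving the lines a little. -/
def P_PEA : Prop :=
  ∀ {N : ℕ} (P : Pg N) (X : Finset ℝ) (w : List It), 0 < N → GoodX P X → GW P X w →
    ∃ ε > 0, ∀ σ : ℝ → ℝ, (∀ t ∈ X, |σ t - t| < ε) →
      (∀ s ∈ X, ∀ t ∈ X, s < t → σ s < σ t) ∧ GoodX P (X.image σ) ∧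
        GW P (X.image σ) (w.map fun i => ⟨i.k, σ i.t, i.e⟩) ∧
        WE (lst P w) (lst P (w.map fun i => ⟨i.k, σ i.t, i.e⟩))

/-- PEA -/
def Stmt_PEA : Prop := P_PGB → P_CMP → P_SEQ → P_WEB → P_CWA → P_CWG → P_PEA

/-- PER -/
def Stmt_PER : Prop := P_SEQ → P_EVF → P_PEA → P_PER

/-- IN1: independence of the lines. -/
def P_IN1 : Prop :=
  ∀ {N : ℕ} (P : Pg N) (X X' : Finset ℝ) (w w' : List It), GoodX P X → GW P X w → GoodX P X' →
    GW P X' w' → WE (lst P w) (lst P w')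

/-- IN1 -/
def Stmt_IN1 : Prop :=
  P_SEQ → P_WEB → P_CWA → P_EXW → P_CWP → P_GYF → P_RED → P_ZAL → P_UNI → P_PER → P_IN1

/-! ### paths -/

/-- Continuity of a family of polygons at `t₀` in the interval `[0, 1]`. -/
def CtA {N : ℕ} (F : ℝ → Pg N) (t₀ : ℝ) : Prop :=
  ∀ i, ContinuousWithinAt (fun t => (F t).x i) (Icc 0 1) t₀ ∧
    ContinuousWithinAt (fun t => (F t).y i) (Icc 0 1) t₀ ∧
    ContinuousWithinAt (fun t => (F t).z i) (Icc 0 1) t₀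

/-- OPG: goodness is an open condition. -/
def P_OPG : Prop :=
  ∀ {N : ℕ} (F : ℝ → Pg N) (t₀ : ℝ) (X : Finset ℝ), 0 < N → CtA F t₀ → GoodX (F t₀) X →
    ∀ᶠ t in nhdsWithin t₀ (Icc 0 1), GoodX (F t) X

/-- OPG -/
def Stmt_OPG : Prop := P_PGB → P_CMP → P_OPG

/-- OPW: the same items are a walk of the nearby polygons. -/
def P_OPW : Prop :=
  ∀ {N : ℕ} (F : ℝ → Pg N) (t₀ : ℝ) (X : Finset ℝ) (w : List It), 0 < N → CtA F t₀ →
    GW (F t₀) X w → ∀ᶠ t in nhdsWithin t₀ (Icc 0 1), GW (F t) X w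

/-- OPW -/
def Stmt_OPW : Prop := P_PGB → P_OPW

/-- LOC: the cyclic list does not change locally. -/
def P_LOC : Prop :=
  ∀ {N : ℕ} (F : ℝ → Pg N) (t₀ : ℝ) (w : List It), 0 < N → CtA F t₀ →
    CW (w.map (pt (F t₀))) → ∀ᶠ t in nhdsWithin t₀ (Icc 0 1), WE (lst (F t₀) w) (lst (F t) w)

/-- LOC -/
def Stmt_LOC : Prop := P_WEB → P_CWA → P_LOC

/-- ZSH: the heights may be changed by a constant. -/
def P_ZSH : Prop :=
  ∀ {N : ℕ} (P P' : Pg N) (w : List It), P.x = P'.x → P.y = P'.y → CW (w.map (pt P)) →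
    WE (lst P w) (lst P' w) ∧ CW (w.map (pt P')) ∧ (∀ X, GoodX P X → GoodX P' X) ∧
      (∀ X, GW P X w → GW P' X w) ∧ (Emb P → Emb P')

/-- ZSH -/
def Stmt_ZSH : Prop := P_PGB → P_WEB → P_CWA → P_ZSH

/-- INV: the main theorem of part C. -/
def Stmt_INV : Prop :=
  P_SEQ → P_WEB → P_CWA → P_EXW → P_EGX → P_IN1 → P_OPG → P_OPW → P_LOC → P_ZSH → P_CWG → T_INV

end LH


end

section

/-!
# The set of events of a polygon is finite
-/

namespace LH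

open Set LG

namespace EVF

theorem red (h : P_PGB) {N : ℕ} (P : Pg N) (hN : 0 < N) (i : ℤ) :
    ∃ i0 ∈ Ico (0 : ℤ) N, P.x i = P.x i0 ∧ P.y i = P.y i0 ∧ ∀ t, P.l i t = P.l i0 t := by
  have hN' : (0 : ℤ) < N := by exact_mod_cast hN
  obtain ⟨h1, h2, _, h4⟩ := h.sh P (i % N) (i / N)
  have e : i % N + i / N * N = i := by
    rw [mul_comm]; exact Int.emod_add_mul_ediv i N
  rw [e] at h1 h2 h4
  exact ⟨i % N, ⟨Int.emod_nonneg i hN'.ne', Int.emod_lt_of_pos i hN'⟩, h1, h2, h4⟩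

/-- The meeting points of two lines. -/
def M2 {N : ℕ} (P : Pg N) (i j : ℤ) : Set ℝ := {t | P.y i ≠ P.y j ∧ P.l i t = P.l j t}

theorem sub {N : ℕ} (P : Pg N) (i j : ℤ) : (M2 P i j).Subsingleton := by
  rintro s ⟨hy, hs⟩ t ⟨-, ht⟩
  unfold Pg.l at hs ht
  have h1 : (P.y i - P.y j) * (s - t) = 0 := by linarith
  rcases mul_eq_zero.1 h1 with h2 | h2
  · exact absurd (sub_eq_zero.1 h2) hy
  · exact sub_eq_zero.1 h2

end EVF

theorem t_EVF : Stmt_EVF := by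
  intro h N P hN
  have hfin : (Ico (0 : ℤ) N).Finite := finite_Ico _ _
  have h1 : (P.x '' Ico (0 : ℤ) N).Finite := hfin.image _
  have h2 : (⋃ i ∈ Ico (0 : ℤ) N, ⋃ j ∈ Ico (0 : ℤ) N, EVF.M2 P i j).Finite :=
    hfin.biUnion fun i _ => hfin.biUnion fun j _ => (EVF.sub P i j).finite
  refine (h1.union h2).subset ?_
  rintro t (⟨i, hi⟩ | ⟨i, j, hy, hl⟩)
  · obtain ⟨i0, hi0, hx, -, -⟩ := EVF.red h P hN i
    exact Or.inl ⟨i0, hi0, by rw [← hx, hi]⟩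
  · obtain ⟨i0, hi0, -, hyi, hli⟩ := EVF.red h P hN i
    obtain ⟨j0, hj0, -, hyj, hlj⟩ := EVF.red h P hN j
    refine Or.inr (mem_iUnion₂.2 ⟨i0, hi0, mem_iUnion₂.2 ⟨j0, hj0, ?_, ?_⟩⟩)
    · rw [← hyi, ← hyj]; exact hy
    · rw [← hli, ← hlj]; exact hl

end LH


end

section

/-!
# Part C, smooth side: from smooth Legendrian isotopies to paths of polygons

Statements for the theorem `LH.T_SM` (architect helper9).
-/

namespace LHS

open Set LH LC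
open scoped ContDiff

/-! ### definitions -/

/-- The `z`-coordinate of the knot. -/
def zc (Λ : LegKnot) (u : ℝ) : ℝ := (Λ.γ u).2.2

/-- A smooth family of knots over `[0, 1]`. -/
def Fam (K : ℝ → LegKnot) : Prop :=
  ContDiffOn ℝ ∞ (fun q : ℝ × ℝ => (K q.1).γ q.2) (Icc 0 1 ×ˢ univ)

/-- `Λ` and `Λ'` (as parametrised knots) are the ends of a smooth family. -/
def FP (Λ Λ' : LegKnot) : Prop := ∃ K, Fam K ∧ (K 0).γ = Λ.γ ∧ (K 1).γ = Λ'.γ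

/-- `Λ` is `Λ'` in another parametrisation of the same direction. -/
def Pos (Λ Λ' : LegKnot) : Prop :=
  ∃ φ : ℝ → ℝ, ContDiff ℝ ∞ φ ∧ (∀ u, 0 < deriv φ u) ∧ (∀ u, φ (u + 1) = φ u + 1) ∧
    ∀ u, Λ.γ u = Λ'.γ (φ u)

/-- `Λ'` is `Λ` with the opposite direction. -/
def Rv (Λ Λ' : LegKnot) : Prop := ∀ u, Λ'.γ u = Λ.γ (-u)

/-- Uniform bounds of a knot: `M` bounds the height of the slopes and the Lipschitz constants of
`x`, `y`, `x'`; at every point `η ≤ |x'|` or `η ≤ |y'|`; `c` is a lower bound of the width. -/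
structure Bd (Λ : LegKnot) (M η c : ℝ) : Prop where
  yb : ∀ u, |Λ.y u| ≤ M
  xl : ∀ u v, |Λ.x u - Λ.x v| ≤ M * |u - v|
  yl : ∀ u v, |Λ.y u - Λ.y v| ≤ M * |u - v|
  xd : ∀ u v, |deriv Λ.x u - deriv Λ.x v| ≤ M * |u - v|
  im : ∀ u, η ≤ |deriv Λ.x u| ∨ η ≤ |deriv Λ.y u|
  rg : ∃ u, c ≤ |Λ.x u - Λ.x 0|

/-- Points whose parameters differ by at least `ρ` have distance at least `σ`. -/
def Sg (Λ : LegKnot) (ρ σ : ℝ) : Prop :=
  ∀ u v, ρ ≤ v - u → v - u ≤ 1 - ρ →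
    σ ≤ |Λ.x u - Λ.x v| ∨ σ ≤ |Λ.y u - Λ.y v| ∨ σ ≤ |zc Λ u - zc Λ v|

/-- `N` is large with respect to the constants. -/
structure NL (M η c σ : ℝ) (N : ℕ) : Prop where
  M1 : 1 ≤ M
  η0 : 0 < η
  c0 : 0 < c
  n1 : 1 ≤ N
  n2 : 2 * M ≤ c * N
  n3 : 2 * (4 * M ^ 2 / c ^ 2) * M < η * N
  n4 : 12 * M ≤ η * N
  n5 : (6 + 4 * (4 * M ^ 2 / c ^ 2)) * M ^ 2 < σ * N

/-! ### knots and families -/

/-- BAS: elementary properties of the coordinates. -/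
def Stmt_BAS : Prop :=
  ∀ Λ : LegKnot, ContDiff ℝ ∞ Λ.x ∧ ContDiff ℝ ∞ Λ.y ∧ ContDiff ℝ ∞ (zc Λ) ∧
    (∀ u, Λ.x (u + 1) = Λ.x u) ∧ (∀ u, Λ.y (u + 1) = Λ.y u) ∧ (∀ u, zc Λ (u + 1) = zc Λ u) ∧
    (∀ u, HasDerivAt Λ.x (deriv Λ.x u) u) ∧ (∀ u, HasDerivAt Λ.y (deriv Λ.y u) u) ∧
    (∀ u, HasDerivAt (zc Λ) (Λ.y u * deriv Λ.x u) u) ∧
    (∀ u, deriv Λ.x u ≠ 0 ∨ deriv Λ.y u ≠ 0) ∧
    (∀ u, HasDerivAt Λ.γ (deriv Λ.x u, deriv Λ.y u, Λ.y u * deriv Λ.x u) u)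

/-- CTN: the coordinates of a family and their derivatives along the knots are continuous. -/
def Stmt_CTN : Prop :=
  ∀ K : ℝ → LegKnot, Fam K →
    ContinuousOn (fun q : ℝ × ℝ => (K q.1).γ q.2) (Icc 0 1 ×ˢ univ) ∧
    ContinuousOn (fun q : ℝ × ℝ => (K q.1).x q.2) (Icc 0 1 ×ˢ univ) ∧
    ContinuousOn (fun q : ℝ × ℝ => (K q.1).y q.2) (Icc 0 1 ×ˢ univ) ∧
    ContinuousOn (fun q : ℝ × ℝ => zc (K q.1) q.2) (Icc 0 1 ×ˢ univ) ∧
    ContinuousOn (fun q : ℝ × ℝ => deriv (K q.1).x q.2) (Icc 0 1 ×ˢ univ) ∧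
    ContinuousOn (fun q : ℝ × ℝ => deriv (K q.1).y q.2) (Icc 0 1 ×ˢ univ) ∧
    ContinuousOn (fun q : ℝ × ℝ => deriv (deriv (K q.1).x) q.2) (Icc 0 1 ×ˢ univ)

/-- The upper bounds of a family. -/
def P_BD1 : Prop :=
  ∀ K : ℝ → LegKnot, Fam K → ∃ M : ℝ, 1 ≤ M ∧ ∀ t ∈ Icc (0 : ℝ) 1,
    (∀ u, |(K t).y u| ≤ M) ∧ (∀ u v, |(K t).x u - (K t).x v| ≤ M * |u - v|) ∧
    (∀ u v, |(K t).y u - (K t).y v| ≤ M * |u - v|) ∧
    (∀ u v, |deriv (K t).x u - deriv (K t).x v| ≤ M * |u - v|)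

/-- BD1 -/
def Stmt_BD1 : Prop := Stmt_BAS → Stmt_CTN → P_BD1

/-- The lower bound of `max(|x'|, |y'|)`. -/
def P_BD2 : Prop :=
  ∀ K : ℝ → LegKnot, Fam K → ∃ η : ℝ, 0 < η ∧ ∀ t ∈ Icc (0 : ℝ) 1,
    ∀ u, η ≤ |deriv (K t).x u| ∨ η ≤ |deriv (K t).y u|

/-- BD2 -/
def Stmt_BD2 : Prop := Stmt_BAS → Stmt_CTN → P_BD2

/-- The lower bound of the width. -/
def P_BD3 : Prop :=
  ∀ K : ℝ → LegKnot, Fam K → ∃ c : ℝ, 0 < c ∧ ∀ t ∈ Icc (0 : ℝ) 1,
    ∃ u, c ≤ |(K t).x u - (K t).x 0|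

/-- BD3 -/
def Stmt_BD3 : Prop := Stmt_BAS → Stmt_CTN → P_BD3

/-- The distance of far pairs. -/
def P_SGM : Prop :=
  ∀ K : ℝ → LegKnot, Fam K → ∀ ρ > 0, ∃ σ : ℝ, 0 < σ ∧ ∀ t ∈ Icc (0 : ℝ) 1, Sg (K t) ρ σ

/-- SGM -/
def Stmt_SGM : Prop := Stmt_BAS → Stmt_CTN → P_SGM

/-! ### the polygons of a knot -/

/-- The midpoint estimate. -/
def P_MID : Prop :=
  ∀ (Λ : LegKnot) (M η c : ℝ), Bd Λ M η c → ∀ N : ℕ, 1 ≤ N → ∀ i : ℤ,
    |y0 Λ N i * (x0 Λ N (i + 1) - x0 Λ N i) -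
      (zc Λ (((i : ℝ) + 1) / N) - zc Λ ((i : ℝ) / N))| ≤ M ^ 2 / (N : ℝ) ^ 2

/-- MID -/
def Stmt_MID : Prop := Stmt_BAS → P_MID

/-- The bound of the correction factor, and the denominator. -/
def P_MUB : Prop :=
  ∀ (Λ : LegKnot) (M η c : ℝ), 1 ≤ M → 0 < c → Bd Λ M η c → ∀ N : ℕ, 1 ≤ N → 2 * M ≤ c * N →
    0 < ∑ i ∈ Finset.range N, (x0 Λ N ((i : ℤ) + 1) - x0 Λ N (i : ℤ)) ^ 2 ∧
    |mu Λ N| ≤ 4 * M ^ 2 / c ^ 2

/-- MUB -/
def Stmt_MUB : Prop := Stmt_BAS → P_MID → P_MUB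

/-- PEX: the polygon exists. -/
def Stmt_PEX : Prop := ∀ (Λ : LegKnot) (N : ℕ), 1 ≤ N → ∃ P : Pg N, IsPN Λ N P

/-- The polygon is close to the front of the knot. -/
def P_ZAP : Prop :=
  ∀ (Λ : LegKnot) (M η c : ℝ), 1 ≤ M → 0 < c → Bd Λ M η c → ∀ N : ℕ, 1 ≤ N → 2 * M ≤ c * N →
    ∀ P : Pg N, IsPN Λ N P → ∀ i : ℤ,
      |P.z i - (zc Λ ((i : ℝ) / N) - zc Λ 0)| ≤ (M ^ 2 + 4 * M ^ 4 / c ^ 2) / N

/-- ZAP -/
def Stmt_ZAP : Prop := Stmt_BAS → P_MID → P_MUB → P_ZAP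

/-- HLN: the edges of a component over `e` have the same height at `e`. -/
def Stmt_HLN : Prop :=
  ∀ (N : ℕ) (P : Pg N) (e : ℝ) (p q : ℤ), CompE P e p q → ∀ i ∈ Icc p q, P.l i e = P.l p e

/-- SHF: components can be shifted by a period. -/
def Stmt_SHF : Prop :=
  ∀ (N : ℕ) (P : Pg N) (e : ℝ) (p q : ℤ), CompE P e p q → CompE P e (p + N) (q + N)

/-- The knot crosses `e` in the parameter interval of every edge of a component. -/
def P_CRS : Prop :=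
  ∀ (Λ : LegKnot) (N : ℕ) (P : Pg N), 1 ≤ N → IsPN Λ N P → ∀ (e : ℝ) (p q : ℤ), CompE P e p q →
    ∀ i ∈ Icc p q, ∃ u ∈ Icc ((i : ℝ) / N) (((i : ℝ) + 1) / N), Λ.x u = e

/-- CRS -/
def Stmt_CRS : Prop := Stmt_BAS → P_CRS

/-- A component over `e` is strictly monotone in `x` or `|x'|` is small on it. -/
def P_ZON : Prop :=
  ∀ (Λ : LegKnot) (M η c : ℝ), Bd Λ M η c → ∀ N : ℕ, 1 ≤ N → ∀ P : Pg N, IsPN Λ N P →
    ∀ (e : ℝ) (p q : ℤ), CompE P e p q →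
      (StrictMonoOn P.x (Icc p (q + 1)) ∨ StrictAntiOn P.x (Icc p (q + 1))) ∨
        ∀ u ∈ Icc ((p : ℝ) / N) (((q : ℝ) + 1) / N), |deriv Λ.x u| ≤ 2 * M / N

/-- ZON -/
def Stmt_ZON : Prop := Stmt_BAS → P_ZON

/-- STM: strict monotonicity on an interval of integers from the successor steps. -/
def Stmt_STM : Prop :=
  ∀ (f : ℤ → ℝ) (p q : ℤ),
    ((∀ i, p ≤ i → i < q → f i < f (i + 1)) → StrictMonoOn f (Icc p q)) ∧
      ((∀ i, p ≤ i → i < q → f (i + 1) < f i) → StrictAntiOn f (Icc p q))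

/-- The slopes are strictly monotone where `|x'|` is small. -/
def P_YMO : Prop :=
  ∀ (Λ : LegKnot) (M η c σ : ℝ) (N : ℕ), Bd Λ M η c → NL M η c σ N → ∀ P : Pg N, IsPN Λ N P →
    ∀ p q : ℤ, (∀ u ∈ Icc ((p : ℝ) / N) (((q : ℝ) + 1) / N), |deriv Λ.x u| < η) →
      StrictMonoOn P.y (Icc p q) ∨ StrictAntiOn P.y (Icc p q)

/-- YMO -/
def Stmt_YMO : Prop := Stmt_BAS → P_MUB → Stmt_STM → P_YMO

/-- The components are monotone. -/
def P_TYP : Prop :=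
  ∀ (Λ : LegKnot) (M η c σ : ℝ) (N : ℕ), Bd Λ M η c → NL M η c σ N → ∀ P : Pg N, IsPN Λ N P →
    ∀ e p q, CompE P e p q → Ty P p q

/-- TYP -/
def Stmt_TYP : Prop := P_ZON → P_YMO → P_TYP

/-- Near components over the same point are in one zone with small `|x'|`. -/
def P_NEA : Prop :=
  ∀ (Λ : LegKnot) (M η c σ : ℝ) (N : ℕ), Bd Λ M η c → NL M η c σ N → ∀ P : Pg N, IsPN Λ N P →
    ∀ (e : ℝ) (p q p' q' : ℤ), CompE P e p q → CompE P e p' q' → q < p' →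
      ∀ i ∈ Icc p q, ∀ j ∈ Icc p' q', (j : ℝ) - i ≤ η / (4 * M) * N →
        ∀ u ∈ Icc ((p : ℝ) / N) (((q' : ℝ) + 1) / N), |deriv Λ.x u| < η

/-- NEA -/
def Stmt_NEA : Prop := Stmt_BAS → P_CRS → P_ZON → P_NEA

/-- SGN: discrete intermediate value argument. -/
def Stmt_SGN : Prop :=
  ∀ (f : ℤ → ℝ) (p q p' q' : ℤ) (s : ℝ), 0 < s → p ≤ q → p' ≤ q' →
    (∀ i ∈ Icc p q, ∀ j ∈ Icc p' q', s ≤ |f i - f j|) →
    (∀ i, |f (i + 1) - f i| < s) →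
    (∀ i ∈ Icc p q, ∀ j ∈ Icc p' q', f i < f j) ∨ ∀ i ∈ Icc p q, ∀ j ∈ Icc p' q', f j < f i

/-- Far components with the same front point are ordered. -/
def P_FAR : Prop :=
  ∀ (Λ : LegKnot) (M η c ρ σ : ℝ) (N : ℕ), Bd Λ M η c → NL M η c σ N → Sg Λ ρ σ →
    ∀ P : Pg N, IsPN Λ N P → ∀ (e : ℝ) (p q p' q' : ℤ), CompE P e p q → CompE P e p' q' →
      P.l p e = P.l p' e →
      (∀ i ∈ Icc p q, ∀ j ∈ Icc p' q', ρ * N ≤ (j : ℝ) - i ∧ (j : ℝ) - i ≤ (1 - ρ) * N) →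
      (∀ i ∈ Icc p q, ∀ j ∈ Icc p' q', P.y i < P.y j) ∨
        ∀ i ∈ Icc p q, ∀ j ∈ Icc p' q', P.y j < P.y i

/-- FAR -/
def Stmt_FAR : Prop := Stmt_BAS → P_MUB → P_ZAP → Stmt_HLN → P_CRS → Stmt_SGN → P_FAR

/-- Separation of components with the same front point. -/
def P_SEP : Prop :=
  ∀ (Λ : LegKnot) (M η c σ : ℝ) (N : ℕ), Bd Λ M η c → NL M η c σ N → Sg Λ (η / (4 * M)) σ →
    ∀ P : Pg N, IsPN Λ N P → ∀ e p q p' q', CompE P e p q → CompE P e p' q' → q < p' →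
      q' < p + N → P.l p e = P.l p' e →
      (∀ i ∈ Icc p q, ∀ j ∈ Icc p' q', P.y i < P.y j) ∨
        ∀ i ∈ Icc p q, ∀ j ∈ Icc p' q', P.y j < P.y i

/-- SEP -/
def Stmt_SEP : Prop := Stmt_SHF → P_YMO → P_NEA → P_FAR → P_SEP

/-- The polygons are embedded. -/
def P_EMB : Prop :=
  ∀ (Λ : LegKnot) (M η c σ : ℝ) (N : ℕ), Bd Λ M η c → NL M η c σ N → Sg Λ (η / (4 * M)) σ →
    ∀ P : Pg N, IsPN Λ N P → Emb P

/-- EMB -/
def Stmt_EMB : Prop := P_MUB → P_TYP → P_SEP → P_EMB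

/-! ### paths of polygons -/

/-- A family of knots with embedded polygons gives a path. -/
def P_PTH : Prop :=
  ∀ (K : ℝ → LegKnot) (N : ℕ), Fam K → 1 ≤ N →
    (∀ t ∈ Icc (0 : ℝ) 1,
      0 < ∑ i ∈ Finset.range N, (x0 (K t) N ((i : ℤ) + 1) - x0 (K t) N (i : ℤ)) ^ 2) →
    (∀ t ∈ Icc (0 : ℝ) 1, ∀ P : Pg N, IsPN (K t) N P → Emb P) →
    ∀ P P' : Pg N, IsPN (K 0) N P → IsPN (K 1) N P' → EPath P P'

/-- PTH -/
def Stmt_PTH : Prop := Stmt_CTN → Stmt_PEX → P_PTH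

/-- The ends of a family are joined by a path for large `N`. -/
def P_FPE : Prop :=
  ∀ Λ Λ' : LegKnot, FP Λ Λ' → ∃ N₀ : ℕ, ∀ N ≥ N₀, ∀ P P' : Pg N,
    IsPN Λ N P → IsPN Λ' N P' → EPath P P'

/-- FPE -/
def Stmt_FPE : Prop := P_BD1 → P_BD2 → P_BD3 → P_SGM → P_MUB → P_EMB → P_PTH → P_FPE

/-! ### change of the parametrisation -/

/-- LFT: knots with the same carrier. -/
def Stmt_LFT : Prop :=
  ∀ Λ Λ' : LegKnot, Λ.carrier = Λ'.carrier →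
    ∃ φ : ℝ → ℝ, Continuous φ ∧ ∀ u, Λ.γ u = Λ'.γ (φ u)

/-- The change of the parameter is smooth. -/
def P_SMT : Prop :=
  ∀ (Λ Λ' : LegKnot) (φ : ℝ → ℝ), Continuous φ → (∀ u, Λ.γ u = Λ'.γ (φ u)) →
    ContDiff ℝ ∞ φ ∧ ∀ u, deriv φ u ≠ 0

/-- SMT -/
def Stmt_SMT : Prop := Stmt_BAS → P_SMT

/-- DEG: the degree is `1` or `-1`. -/
def Stmt_DEG : Prop :=
  ∀ (Λ Λ' : LegKnot) (φ : ℝ → ℝ), ContDiff ℝ ∞ φ → (∀ u, deriv φ u ≠ 0) →
    (∀ u, Λ.γ u = Λ'.γ (φ u)) →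
    ((∀ u, 0 < deriv φ u) ∧ ∀ u, φ (u + 1) = φ u + 1) ∨
      ((∀ u, deriv φ u < 0) ∧ ∀ u, φ (u + 1) = φ u - 1)

/-- RVX: the reversed knot. -/
def Stmt_RVX : Prop := ∀ Λ : LegKnot, ∃ Λ' : LegKnot, Rv Λ Λ'

/-- RVS: the reverse of a stabilisation. -/
def Stmt_RVS : Prop :=
  ∀ Λ' Λ'' Λ₁ Λ₂ : LegKnot, IsStabilization Λ' Λ'' → Rv Λ' Λ₁ → Rv Λ'' Λ₂ → IsStabilization Λ₁ Λ₂

/-- The reverse of a family. -/
def P_RVF : Prop := ∀ Λ Λ' Λ₁ Λ₁' : LegKnot, FP Λ Λ' → Rv Λ Λ₁ → Rv Λ' Λ₁' → FP Λ₁ Λ₁'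

/-- RVF -/
def Stmt_RVF : Prop := Stmt_RVX → P_RVF

/-- PSF: reparametrised knots are the ends of families. -/
def Stmt_PSF : Prop := ∀ Λ Λ' : LegKnot, Pos Λ Λ' → FP Λ Λ' ∧ FP Λ' Λ

/-- Knots with the same carrier. -/
def P_CAR : Prop :=
  ∀ Λ Λ' : LegKnot, Λ.carrier = Λ'.carrier → Pos Λ Λ' ∨
    ∀ Λ₁ : LegKnot, Rv Λ Λ₁ → Pos Λ₁ Λ'

/-- CAR -/
def Stmt_CAR : Prop := Stmt_LFT → P_SMT → Stmt_DEG → P_CAR

/-- FIN: the theorem. -/
def Stmt_FIN : Prop :=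
  Stmt_RVX → Stmt_RVS → P_RVF → Stmt_PSF → P_CAR → Stmt_PEX → P_FPE → T_SM

end LHS


end

section

/-!
# The two ends of part C: stabilised knots and the knot `J`

Definitions.
-/

namespace LHE

open Set LG LH

/-! ### directions -/

/-- Passing in the direction `s` (`true`: to the right). -/
def pass (s : Bool) : Kd := if s then .rt else .lt

/-- The turn which ends a motion in the direction `s`. -/
def turn (s : Bool) : Kd := if s then .R else .L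

/-- The sign of the direction. -/
def sn (s : Bool) : ℝ := if s then 1 else -1

/-- The line `t'` comes after the line `t` in the direction `s`. -/
def up (s : Bool) (t t' : ℝ) : Prop := sn s * t < sn s * t'

theorem sn_true : sn true = 1 := rfl

theorem sn_false : sn false = -1 := rfl

theorem sn_not (s : Bool) : sn (!s) = -sn s := by cases s <;> simp [sn]

theorem sn_sq (s : Bool) : sn s * sn s = 1 := by cases s <;> simp [sn]

theorem sn_or (s : Bool) : sn s = 1 ∨ sn s = -1 := by cases s <;> simp [sn]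

/-- The `z`-coordinate of a knot. -/
def zz (Λ : LC.LegKnot) (u : ℝ) : ℝ := (Λ.γ u).2.2

/-! ### fingers: the smooth case -/

/-- A finger of a knot: in the direction `s`, `x` increases on `[a, c]` and decreases on `[c, d]`;
beyond the position `τ` no other part of the front meets the region between the two arcs. -/
structure FgS (Λ : LC.LegKnot) (s : Bool) (a c d τ : ℝ) : Prop where
  ac : a < c
  cd : c < d
  da : d < a + 1
  m1 : StrictMonoOn (fun u => sn s * Λ.x u) (Icc a c)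
  m2 : StrictAntiOn (fun u => sn s * Λ.x u) (Icc c d)
  xa : sn s * Λ.x a < τ
  xd : sn s * Λ.x d < τ
  gap : ∀ u₁ ∈ Icc a c, ∀ u₂ ∈ Icc c d, ∀ u ∈ Icc d (a + 1), Λ.x u₁ = Λ.x u →
    Λ.x u₂ = Λ.x u → τ ≤ sn s * Λ.x u → zz Λ u ∉ uIcc (zz Λ u₁) (zz Λ u₂)

/-- The order of the two arcs of a finger; `o` is the sign of the order. -/
structure OdS (Λ : LC.LegKnot) (s : Bool) (a c d : ℝ) (o : Bool) : Prop where
  yc : 0 < sn o * (sn s * deriv Λ.y c)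
  od : ∀ u₁ ∈ Icc a c, ∀ u₂ ∈ Icc c d, Λ.x u₁ = Λ.x u₂ → u₁ ≠ c →
    sn o * zz Λ u₂ < sn o * zz Λ u₁

/-- A zigzag of a knot: two fingers of opposite directions. -/
structure ZigS (Λ : LC.LegKnot) (s : Bool) (a c d b ξ₁ ξ₂ : ℝ) (o : Bool) : Prop where
  f1 : FgS Λ s a c d ξ₁
  f2 : FgS Λ (!s) c d b (-ξ₂)
  o1 : OdS Λ s a c d o
  o2 : OdS Λ (!s) c d b o
  ba : b < a + 1
  lt : ξ₁ < ξ₂

/-! ### fingers: polygons -/

variable {N : ℕ}

/-- A finger of a polygon: in the direction `s`, `x` increases on `[A, C]` and decreases on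
`[C, D]`; at the positions `t` beyond `τ` no other edge near `t` is between the two edges. -/
structure Fg (P : Pg N) (s : Bool) (A C D : ℤ) (τ δ : ℝ) : Prop where
  AC : A < C
  CD : C < D
  DA : D ≤ A + N
  m1 : MonotoneOn (fun i => sn s * P.x i) (Icc A C)
  m2 : AntitoneOn (fun i => sn s * P.x i) (Icc C D)
  xa : sn s * P.x A < τ
  xd : sn s * P.x D < τ
  gap : ∀ t, τ ≤ sn s * t → ∀ e₁ ∈ Ico A C, ∀ e₂ ∈ Ico C D, ∀ e ∈ Ico D (A + N),
    |P.x e₁ - t| < 2 * δ → |P.x e₂ - t| < 2 * δ → |P.x e - t| < 2 * δ →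
    P.l e t ∉ uIcc (P.l e₁ t) (P.l e₂ t)

/-- The edge `e` crosses the line `t` in the direction `s`. -/
def Crs (P : Pg N) (s : Bool) (t : ℝ) (e : ℤ) : Prop :=
  sn s * P.x e < sn s * t ∧ sn s * t < sn s * P.x (e + 1)

/-- The order of the two arcs of a finger of a polygon. -/
def OdP (P : Pg N) (s : Bool) (A C D : ℤ) (τ : ℝ) (o : Bool) : Prop :=
  ∀ t, τ ≤ sn s * t → ∀ e ∈ Ico A C, ∀ f ∈ Ico C D, Crs P s t e → Crs P (!s) t f →
    sn o * P.l f t < sn o * P.l e t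

/-- A zigzag of a polygon. -/
structure ZigP (P : Pg N) (s : Bool) (A C D B : ℤ) (ξ₁ ξ₂ δ : ℝ) (o : Bool) : Prop where
  f1 : Fg P s A C D ξ₁ δ
  f2 : Fg P (!s) C D B (-ξ₂) δ
  o1 : OdP P s A C D ξ₁ o
  o2 : OdP P (!s) C D B (-ξ₂) o
  BA : B ≤ A + N
  lt : ξ₁ < ξ₂
  dpos : 0 < δ
  st : ∀ i, |P.x (i + 1) - P.x i| < δ

/-! ### fingers: walks -/

/-- The items of a finger, in the direction `s`, beyond the line `t`. -/
inductive FI (P : Pg N) (s : Bool) (A C D : ℤ) (X : Finset ℝ) : ℝ → List It → Prop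
  | tip (t t' : ℝ) (e : ℤ) : up s t t' → FI P s A C D X t [⟨turn s, t', e⟩]
  | step (t t' : ℝ) (e f : ℤ) (F : List It) : up s t t' → t' ∈ X → e ∈ Ico A C → f ∈ Ico C D →
      Crs P s t' e → Crs P (!s) t' f → FI P s A C D X t' F →
      FI P s A C D X t (⟨pass s, t', e⟩ :: F ++ [⟨pass (!s), t', f⟩])

/-- The points of a finger, in the direction `s`, beyond the line `t`; the pairs of points on the
same line satisfy the condition `V`. -/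
inductive PF (s : Bool) (V : ℝ → ℝ → ℝ → Prop) : ℝ → List Pt → Prop
  | tip (t t' h : ℝ) : up s t t' → PF s V t [⟨turn s, t', h⟩]
  | step (t t' h₁ h₂ : ℝ) (F : List Pt) : up s t t' → V t' h₁ h₂ → PF s V t' F →
      PF s V t (⟨pass s, t', h₁⟩ :: F ++ [⟨pass (!s), t', h₂⟩])

/-- No point of the walk on the line `t` is strictly between the heights `h₁` and `h₂`. -/
def AdjW (w : List Pt) (t h₁ h₂ : ℝ) : Prop := ∀ p ∈ w, p.t = t → ¬ Btw h₁ h₂ p.h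

/-- The condition for the pairs of points of a finger: adjacent, and ordered by `o`. -/
def AO (w : List Pt) (o : Bool) (t h₁ h₂ : ℝ) : Prop := AdjW w t h₁ h₂ ∧ sn o * h₂ < sn o * h₁

end LHE


end

section

/-!
# Stabilised knots (task T_S): statements
-/

namespace LHE

open Set LG LH

variable {N : ℕ}

/-! ### the polygons of a knot -/

/-- EST: the polygons approximate the knot. -/
def Stmt_EST : Prop :=
  ∀ Λ : LC.LegKnot, ∃ K > (0 : ℝ), ∃ N₀ : ℕ, 0 < N₀ ∧ ∀ N ≥ N₀, ∀ P : Pg N, IsPN Λ N P →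
    |mu Λ N| ≤ K ∧ ∀ i : ℤ, |P.y i - Λ.y ((i + 1 / 2) / N)| ≤ K / N ∧
      |P.z i - (zz Λ (i / N) - zz Λ 0)| ≤ K / N ∧ |P.x (i + 1) - P.x i| ≤ K / N ∧
      |P.x (i + 2) - 2 * P.x (i + 1) + P.x i| ≤ K / N ^ 2 ∧ |P.y i| ≤ K

/-! ### the zigzag of a stabilised knot -/

/-- The data in the definition of a stabilisation. -/
structure StD (Λ' Λ : LC.LegKnot) (a c d b : ℝ) (D : Set (ℝ × ℝ)) : Prop where
  ac : a < c
  cd : c < d
  db : d < b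
  ba : b < a + 1
  out : ∀ u ∈ Icc b (a + 1), Λ'.γ u = Λ.γ u
  op : IsOpen D
  cv : Convex ℝ D
  outD : ∀ u ∈ Icc b (a + 1), LC.front (Λ.γ u) ∉ D
  inD : ∀ u ∈ Ioo a b, LC.front (Λ.γ u) ∈ D ∧ deriv Λ.x u ≠ 0
  inD' : ∀ u ∈ Ioo a b, LC.front (Λ'.γ u) ∈ D
  inj : InjOn (fun u => LC.front (Λ'.γ u)) (Icc a b)
  cr : ∀ u ∈ Icc a b, deriv Λ'.x u = 0 ↔ u = c ∨ u = d
  c2 : deriv (deriv Λ'.x) c ≠ 0
  d2 : deriv (deriv Λ'.x) d ≠ 0
  zz : deriv Λ'.y c * deriv Λ'.y d < 0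

/-- ZMO: the signs of the derivative of `x` on the three arcs. -/
def Stmt_ZMO : Prop :=
  ∀ (Λ' Λ : LC.LegKnot) (a c d b : ℝ) (D : Set (ℝ × ℝ)), StD Λ' Λ a c d b D →
    ∃ s : Bool, (∀ u ∈ Ico a c, 0 < sn s * deriv Λ'.x u) ∧
      (∀ u ∈ Ioo c d, sn s * deriv Λ'.x u < 0) ∧ (∀ u ∈ Ioc d b, 0 < sn s * deriv Λ'.x u) ∧
      sn s * Λ'.x a < sn s * Λ'.x b

/-- CUS: the order of the two arcs at a cusp. -/
def Stmt_CUS : Prop :=
  ∀ (Λ : LC.LegKnot) (s o : Bool) (a c d : ℝ), a < c → c < d →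
    (∀ u ∈ Ioo a c, 0 < sn s * deriv Λ.x u) → (∀ u ∈ Ioo c d, sn s * deriv Λ.x u < 0) →
    InjOn (fun u => LC.front (Λ.γ u)) (Icc a d) → 0 < sn o * (sn s * deriv Λ.y c) →
    ∀ u₁ ∈ Icc a c, ∀ u₂ ∈ Icc c d, Λ.x u₁ = Λ.x u₂ → u₁ ≠ c → sn o * zz Λ u₂ < sn o * zz Λ u₁

/-- ZGS: a stabilised knot has a zigzag. -/
def P_ZGS : Prop :=
  ∀ (Λ' Λ : LC.LegKnot), LC.IsStabilization Λ' Λ →
    ∃ (s : Bool) (a c d b ξ₁ ξ₂ : ℝ) (o : Bool), ZigS Λ' s a c d b ξ₁ ξ₂ o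

/-- ZGS -/
def Stmt_ZGS : Prop := Stmt_ZMO → Stmt_CUS → P_ZGS

/-! ### from the knot to the polygons -/

/-- The indices `A`, `C`, `D` are close to the parameters `a`, `c`, `d`; `C` is a tip. -/
structure Ixs (P : Pg N) (s : Bool) (a c d : ℝ) (A C D : ℤ) : Prop where
  a : |(A : ℝ) - a * N| ≤ 1
  c : |(C : ℝ) - c * N| ≤ 1
  d : |(D : ℝ) - d * N| ≤ 1
  xa : sn s * P.x A ≤ sn s * P.x (A + 1)
  xc : sn s * P.x (C - 1) ≤ sn s * P.x C
  xc' : sn s * P.x (C + 1) ≤ sn s * P.x C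
  xd : sn s * P.x D ≤ sn s * P.x (D - 1)

/-- FGP: fingers of the polygons. -/
def P_FGP : Prop :=
  ∀ (Λ : LC.LegKnot) (s : Bool) (a c d τ : ℝ), FgS Λ s a c d τ →
    ∃ δ₀ > (0 : ℝ), ∀ δ, 0 < δ → δ ≤ δ₀ → ∃ N₀ : ℕ, ∀ N ≥ N₀, ∀ P : Pg N, IsPN Λ N P →
      ∀ A C D : ℤ, Ixs P s a c d A C D → Fg P s A C D τ δ

/-- FGP -/
def Stmt_FGP : Prop := Stmt_EST → P_FGP

/-- FGO: the order of the two arcs of a finger for the polygons. -/
def P_FGO : Prop :=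
  ∀ (Λ : LC.LegKnot) (s o : Bool) (a c d τ : ℝ), FgS Λ s a c d τ → OdS Λ s a c d o →
    ∃ N₀ : ℕ, ∀ N ≥ N₀, ∀ P : Pg N, IsPN Λ N P →
      ∀ A C D : ℤ, Ixs P s a c d A C D → OdP P s A C D τ o

/-- FGO -/
def Stmt_FGO : Prop := Stmt_EST → P_PGB → P_FGO

/-- IDX: the choice of the indices. -/
def Stmt_IDX : Prop :=
  ∀ (Λ : LC.LegKnot) (s : Bool) (a c d b : ℝ), a < c → c < d → d < b →
    StrictMonoOn (fun u => sn s * Λ.x u) (Icc a c) →
    StrictAntiOn (fun u => sn s * Λ.x u) (Icc c d) →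
    StrictMonoOn (fun u => sn s * Λ.x u) (Icc d b) →
    ∃ N₀ : ℕ, ∀ N ≥ N₀, ∀ P : Pg N, IsPN Λ N P → ∃ A C D B : ℤ,
      Ixs P s a c d A C D ∧ Ixs P (!s) c d b C D B

/-- The polygons of a stabilised knot have a zigzag. -/
def P_ZPN : Prop :=
  ∀ Λ' Λ : LC.LegKnot, LC.IsStabilization Λ' Λ → ∃ (s : Bool) (ξ₁ ξ₂ δ : ℝ) (o : Bool) (N₀ : ℕ),
    0 < N₀ ∧ ∀ N ≥ N₀, ∀ P : Pg N, IsPN Λ' N P → ∃ A C D B : ℤ, ZigP P s A C D B ξ₁ ξ₂ δ o

/-- ZPN -/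
def Stmt_ZPN : Prop := Stmt_EST → P_ZGS → P_FGP → P_FGO → Stmt_IDX → P_ZPN

/-! ### walks -/

/-- The cells have width less than `ε`. -/
def Mesh (X : Finset ℝ) (ε : ℝ) : Prop := ∀ a b, AdjX X a b → b - a < ε

/-- MSH: there is a line in a given interval. -/
def Stmt_MSH : Prop :=
  ∀ (N : ℕ) (P : Pg N) (X : Finset ℝ) (s : Bool) (ξ₁ ξ₂ : ℝ) (i j : ℤ), GoodX P X →
    Mesh X (ξ₂ - ξ₁) → ξ₁ < ξ₂ → sn s * P.x i < ξ₁ → ξ₂ < sn s * P.x j →
    ∃ t ∈ X, ξ₁ < sn s * t ∧ sn s * t < ξ₂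

/-- CRE: there is an edge which crosses a line. -/
def Stmt_CRE : Prop :=
  ∀ (N : ℕ) (P : Pg N) (X : Finset ℝ) (s : Bool) (A C : ℤ), GoodX P X → A < C →
    ∀ t ∈ X, sn s * P.x A < sn s * t → sn s * t < sn s * P.x C → ∃ e ∈ Ico A C, Crs P s t e

/-- ROT: rotation and shift of a walk. -/
def Stmt_ROT : Prop :=
  ∀ (N : ℕ) (P : Pg N) (X : Finset ℝ) (w : List It), GW P X w → ∀ j ∈ w, ∀ k : ℤ,
    ∃ w' : List It, GW P X ({ j with e := j.e + k * N } :: w') ∧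
      ((({ j with e := j.e + k * N } : It) :: w').map (pt P)).IsRotated (w.map (pt P))

/-- The item is a turn. -/
def Tn (i : It) : Prop := i.k = .R ∨ i.k = .L

/-- FNG: the first finger of a chain of items. -/
def Stmt_FNG : Prop :=
  ∀ (N : ℕ) (P : Pg N) (X : Finset ℝ) (s : Bool) (A C D : ℤ), GoodX P X → A < C → C < D →
    MonotoneOn (fun i => sn s * P.x i) (Icc A C) → AntitoneOn (fun i => sn s * P.x i) (Icc C D) →
    ∀ (i : It) (l : List It), List.IsChain (Lnk P X) (i :: l) → (∀ j ∈ i :: l, ItOK P j) →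
      List.IsChain (fun i j => ¬ (Tn i ∧ Tn j)) (i :: l) → i.k = pass s → i.e ∈ Ico A C →
      i.t ∈ X → sn s * P.x D < sn s * i.t → (∃ j ∈ l, D ≤ j.e) →
      ∃ (F : List It) (j : It) (l' : List It), l = F ++ j :: l' ∧ j.k = pass (!s) ∧ j.t = i.t ∧
        j.e ∈ Ico C D ∧ FI P s A C D X i.t F

/-- ADJ: no point of the walk is between the two arcs of a finger. -/
def Stmt_ADJ : Prop :=
  ∀ (N : ℕ) (P : Pg N) (X : Finset ℝ) (s : Bool) (A C D : ℤ) (τ δ : ℝ) (i : It) (w : List It),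
    GoodX P X → Mesh X δ → GW P X (i :: w) → ¬ Tn i → Fg P s A C D τ δ →
    (∀ i, |P.x (i + 1) - P.x i| < δ) → ∀ t ∈ X, τ ≤ sn s * t → ∀ e ∈ Ico A C, ∀ f ∈ Ico C D,
      Crs P s t e → Crs P (!s) t f → AdjW ((i :: w).map (pt P)) t (P.l e t) (P.l f t)

/-- A walk with two fingers of opposite directions between three adjacent points of one line. -/
structure TwoF (w : List Pt) (s o : Bool) (ξ h₁ h₂ h₃ : ℝ) (F G r : List Pt) : Prop where
  eq : w = ⟨pass s, ξ, h₁⟩ :: (F ++ ⟨pass (!s), ξ, h₂⟩ :: (G ++ ⟨pass s, ξ, h₃⟩ :: r))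
  f : PF s (AO w o) ξ F
  g : PF (!s) (AO w o) ξ G
  a₁ : AO w o ξ h₁ h₂
  a₂ : AO w o ξ h₂ h₃

/-- The walk of a polygon with a zigzag has two fingers. -/
def P_EXT : Prop :=
  ∀ (N : ℕ) (P : Pg N) (X : Finset ℝ) (s : Bool) (A C D B : ℤ) (ξ₁ ξ₂ δ : ℝ) (o : Bool)
    (w : List It), ZigP P s A C D B ξ₁ ξ₂ δ o → GoodX P X → GW P X w → Mesh X δ →
    Mesh X (ξ₂ - ξ₁) →
    ∃ (w' : List Pt) (ξ h₁ h₂ h₃ : ℝ) (F G r : List Pt), w'.IsRotated (w.map (pt P)) ∧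
      TwoF w' s o ξ h₁ h₂ h₃ F G r

/-- EXT -/
def Stmt_EXT : Prop :=
  P_WON → Stmt_MSH → Stmt_CRE → Stmt_ROT → Stmt_FNG → Stmt_ADJ → P_EXT

/-! ### retraction of the fingers -/

/-- The elementary retraction of a finger. -/
def P_RET : Prop :=
  ∀ (s o : Bool) (t₀ t t' g₁ g₂ h₁ h₂ h' : ℝ) (r w : List Pt),
    w = ⟨pass s, t₀, g₁⟩ :: ⟨pass s, t, h₁⟩ :: ⟨turn s, t', h'⟩ :: ⟨pass (!s), t, h₂⟩ ::
      ⟨pass (!s), t₀, g₂⟩ :: r → CW w → AO w o t h₁ h₂ → sn o * g₂ < sn o * g₁ →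
    CW (⟨pass s, t₀, g₁⟩ :: ⟨turn s, t, h₁⟩ :: ⟨pass (!s), t₀, g₂⟩ :: r) ∧
      WE (ents w) (ents (⟨pass s, t₀, g₁⟩ :: ⟨turn s, t, h₁⟩ :: ⟨pass (!s), t₀, g₂⟩ :: r))

/-- RET: from the statements for the right and for the left. -/
def Stmt_RET : Prop := P_RTR → P_RTL → P_WEB → P_CWA → P_RET

/-- FRT: retraction of a finger. -/
def P_FRT : Prop :=
  ∀ (s o : Bool) (w F r : List Pt) (t h₁ h₂ : ℝ),
    w = ⟨pass s, t, h₁⟩ :: (F ++ ⟨pass (!s), t, h₂⟩ :: r) → CW w → PF s (AO w o) t F →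
    sn o * h₂ < sn o * h₁ →
    ∃ t' h', up s t t' ∧ CW (⟨pass s, t, h₁⟩ :: ⟨turn s, t', h'⟩ :: ⟨pass (!s), t, h₂⟩ :: r) ∧
      WE (ents w) (ents (⟨pass s, t, h₁⟩ :: ⟨turn s, t', h'⟩ :: ⟨pass (!s), t, h₂⟩ :: r))

/-- FRT -/
def Stmt_FRT : Prop := P_RET → P_WEB → P_CWA → P_FRT

/-- A zigzag of two short fingers kills one of the two classes. -/
def P_WRG : Prop :=
  ∀ (s o : Bool) (ξ t' t'' h₁ h₂ h₃ h' h'' : ℝ) (r w : List Pt),
    w = ⟨pass s, ξ, h₁⟩ :: ⟨turn s, t', h'⟩ :: ⟨pass (!s), ξ, h₂⟩ :: ⟨turn (!s), t'', h''⟩ ::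
      ⟨pass s, ξ, h₃⟩ :: r → CW w → AO w o ξ h₁ h₂ → AO w o ξ h₂ h₃ →
    ∃ M, Rp (ents w) M ∧ (VL M ∨ VP M)

/-- WRG: from the statements for the right and for the left. -/
def Stmt_WRG : Prop := P_WZR → P_WZL → Stmt_RPE → P_CWA → P_WRG

/-- The class of a walk with two opposite fingers. -/
def P_TWF : Prop :=
  ∀ (w : List Pt) (s o : Bool) (ξ h₁ h₂ h₃ : ℝ) (F G r : List Pt), CW w →
    TwoF w s o ξ h₁ h₂ h₃ F G r → ∃ M, Rp (ents w) M ∧ (VL M ∨ VP M)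

/-- TWF -/
def Stmt_TWF : Prop := P_FRT → P_WRG → P_LEQ → P_WEB → P_CWA → Stmt_RPE → P_TWF

/-- TSF: the polygons of a stabilised knot. -/
def Stmt_TSF : Prop := P_ZPN → P_TEX → P_CWG → P_EXT → P_TWF → P_CWA → P_WEB → T_S

end LHE


end

section

/-!
# The knot `J` (task T_J), first part: from a decomposition of the knot into arcs to the walks of
its polygons
-/

namespace LHE

open Set LG LH

/-! ### arcs of a knot -/

/-- The tangent line of the front at the parameter `u`, evaluated at `t`. -/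
noncomputable def TL (Λ : LC.LegKnot) (u t : ℝ) : ℝ := zz Λ u + Λ.y u * (t - Λ.x u)

/-- `k` and `l` are congruent modulo `K`. -/
def Cg (K : ℕ) (k l : ℤ) : Prop := ∃ j : ℤ, l = k + j * K

/-- Combinatorial data of the arcs: the arc `k` starts on the line `s k` in the direction `g k`
and lies over the cell `(a k, b k)` of `X`; the arc `k + 1` starts at its end. -/
structure ArcD (K : ℕ) (s a b : ℤ → ℝ) (g : ℤ → Bool) (X : Finset ℝ) : Prop where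
  Kpos : 0 < K
  ps : ∀ k, s (k + K) = s k
  pa : ∀ k, a (k + K) = a k
  pb : ∀ k, b (k + K) = b k
  pg : ∀ k, g (k + K) = g k
  adj : ∀ k, AdjX X (a k) (b k)
  st : ∀ k, s k = if g k then a k else b k
  en : ∀ k, s (k + 1) = if g (k + 1) then b k else a k
  tr : ∃ k, g k = g (k + 1)

/-- A decomposition of a knot into arcs over cells: the arc `k` is `[θ k, θ (k + 1)]`. -/
structure Arcs (Λ : LC.LegKnot) (K : ℕ) (θ s a b : ℤ → ℝ) (g : ℤ → Bool) (X : Finset ℝ) :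
    Prop where
  d : ArcD K s a b g X
  mono : ∀ k, θ k < θ (k + 1)
  pθ : ∀ k, θ (k + K) = θ k + 1
  hit : ∀ k, Λ.x (θ k) = s k
  der : ∀ k, 0 < sn (g k) * deriv Λ.x (θ k)
  ins : ∀ k, ∀ u ∈ Ioo (θ k) (θ (k + 1)), a k < Λ.x u ∧ Λ.x u < b k
  ty : ∀ k, (∀ u ∈ Icc (θ k) (θ (k + 1)), deriv Λ.x u ≠ 0) ∨
    ∀ u ∈ Icc (θ k) (θ (k + 1)), deriv Λ.y u ≠ 0
  sep : ∀ k l, ¬ Cg K k l → a k = a l → ∀ t, t = a k ∨ t = b k →
    (∀ u ∈ Icc (θ k) (θ (k + 1)), ∀ v ∈ Icc (θ l) (θ (l + 1)), TL Λ u t < TL Λ v t) ∨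
      ∀ u ∈ Icc (θ k) (θ (k + 1)), ∀ v ∈ Icc (θ l) (θ (l + 1)), TL Λ v t < TL Λ u t
  lo : ∃ a ∈ X, ∀ u, a < Λ.x u
  hi : ∃ b ∈ X, ∀ u, Λ.x u < b
  irr : ∀ t ∈ X, ∀ q : ℚ, Λ.x q ≠ t

/-- The line of the turn of the arc `k`. -/
def oL (a b : ℤ → ℝ) (g : ℤ → Bool) (k : ℤ) : ℝ := if g k then b k else a k

/-- The points of the arc `k`: its start, and the turn if it is a turning arc. -/
def aPt (s o : ℤ → ℝ) (g : ℤ → Bool) (H V : ℤ → ℝ) (k : ℤ) : List Pt :=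
  if g k = g (k + 1) then [⟨pass (g k), s k, H k⟩]
  else [⟨pass (g k), s k, H k⟩, ⟨turn (g k), o k, V k⟩]

/-- The walk of the arcs. -/
def aPts (K : ℕ) (s o : ℤ → ℝ) (g : ℤ → Bool) (H V : ℤ → ℝ) : List Pt :=
  (List.range K).flatMap fun k => aPt s o g H V k

/-- The items of the arc `k`. -/
def aIt (s o : ℤ → ℝ) (g : ℤ → Bool) (e : ℤ → ℤ) (k : ℤ) : List It :=
  if g k = g (k + 1) then [⟨pass (g k), s k, e k⟩]
  else [⟨pass (g k), s k, e k⟩, ⟨turn (g k), o k, e k⟩]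

/-- The walk of the arcs. -/
def aIts (K : ℕ) (s o : ℤ → ℝ) (g : ℤ → Bool) (e : ℤ → ℤ) : List It :=
  (List.range K).flatMap fun k => aIt s o g e k

/-! ### arcs of a polygon -/

/-- A decomposition of a polygon into arcs: the arc `k` consists of the edges `e k, ..., e (k + 1)`. -/
structure ArcP {N : ℕ} (P : Pg N) (K : ℕ) (e : ℤ → ℤ) (s a b : ℤ → ℝ) (g : ℤ → Bool)
    (X : Finset ℝ) : Prop where
  d : ArcD K s a b g X
  mono : ∀ k, e k < e (k + 1)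
  pe : ∀ k, e (k + K) = e k + N
  crs : ∀ k, Crs P (g k) (s k) (e k)
  ins : ∀ k i, e k < i → i ≤ e (k + 1) → a k < P.x i ∧ P.x i < b k
  ty : ∀ k, Ty P (e k) (e (k + 1))
  sep : ∀ k l, ¬ Cg K k l → a k = a l → ∀ t, t = a k ∨ t = b k →
    Sep P (e k) (e (k + 1)) (e l) (e (l + 1)) t
  lo : ∃ a ∈ X, ∀ i, a < P.x i
  hi : ∃ b ∈ X, ∀ i, P.x i < b
  sm : ∀ c d, AdjX X c d → ∀ i, |P.x (i + 1) - P.x i| < d - c

/-- AR1: the indices. -/
def P_AR1 : Prop :=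
  ∀ (Λ : LC.LegKnot) (K : ℕ) (θ s a b : ℤ → ℝ) (g : ℤ → Bool) (X : Finset ℝ),
    Arcs Λ K θ s a b g X → ∃ N₀ : ℕ, 0 < N₀ ∧ ∀ N ≥ N₀, ∀ P : Pg N, IsPN Λ N P →
      (∀ k : ℤ, ⌊N * θ k⌋ < ⌊N * θ (k + 1)⌋) ∧ (∀ k : ℤ, ⌊N * θ (k + K)⌋ = ⌊N * θ k⌋ + N) ∧
      (∀ k, Crs P (g k) (s k) ⌊N * θ k⌋) ∧
      (∀ k i, ⌊N * θ k⌋ < i → i ≤ ⌊N * θ (k + 1)⌋ → a k < P.x i ∧ P.x i < b k) ∧
      (∃ a ∈ X, ∀ i, a < P.x i) ∧ (∃ b ∈ X, ∀ i, P.x i < b) ∧
      ∀ c d, AdjX X c d → ∀ i, |P.x (i + 1) - P.x i| < d - c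

/-- AR1 -/
def Stmt_AR1 : Prop := Stmt_EST → P_AR1

/-- AR2: the arcs of the polygons are monotone. -/
def P_AR2 : Prop :=
  ∀ (Λ : LC.LegKnot) (K : ℕ) (θ s a b : ℤ → ℝ) (g : ℤ → Bool) (X : Finset ℝ),
    Arcs Λ K θ s a b g X → ∃ N₀ : ℕ, 0 < N₀ ∧ ∀ N ≥ N₀, ∀ P : Pg N, IsPN Λ N P →
      ∀ k : ℤ, Ty P ⌊N * θ k⌋ ⌊N * θ (k + 1)⌋

/-- AR2 -/
def Stmt_AR2 : Prop := Stmt_EST → P_AR2

/-- AR3: the arcs of the polygons are separated. -/
def P_AR3 : Prop :=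
  ∀ (Λ : LC.LegKnot) (K : ℕ) (θ s a b : ℤ → ℝ) (g : ℤ → Bool) (X : Finset ℝ),
    Arcs Λ K θ s a b g X → ∃ N₀ : ℕ, 0 < N₀ ∧ ∀ N ≥ N₀, ∀ P : Pg N, IsPN Λ N P →
      ∀ k l : ℤ, ¬ Cg K k l → a k = a l → ∀ t, t = a k ∨ t = b k →
        Sep P ⌊N * θ k⌋ ⌊N * θ (k + 1)⌋ ⌊N * θ l⌋ ⌊N * θ (l + 1)⌋ t

/-- AR3 -/
def Stmt_AR3 : Prop := Stmt_EST → P_AR3

/-- AR4: the heights of the points of the walk. -/
def P_AR4 : Prop :=
  ∀ (Λ : LC.LegKnot) (K : ℕ) (θ s a b : ℤ → ℝ) (g : ℤ → Bool) (X : Finset ℝ),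
    Arcs Λ K θ s a b g X → ∀ ε > (0 : ℝ), ∃ N₀ : ℕ, 0 < N₀ ∧ ∀ N ≥ N₀, ∀ P : Pg N,
      IsPN Λ N P → ∀ k : ℤ, |P.l ⌊N * θ k⌋ (s k) - (zz Λ (θ k) - zz Λ 0)| < ε ∧
        |P.l ⌊N * θ k⌋ (oL a b g k) - (TL Λ (θ k) (oL a b g k) - zz Λ 0)| < ε

/-- AR4 -/
def Stmt_AR4 : Prop := Stmt_EST → P_AR4

/-- GDX: a polygon with a decomposition into arcs has good cells. -/
def P_GDX : Prop :=
  ∀ (N : ℕ) (P : Pg N) (K : ℕ) (e : ℤ → ℤ) (s a b : ℤ → ℝ) (g : ℤ → Bool) (X : Finset ℝ),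
    ArcP P K e s a b g X → GoodX P X

/-- GDX -/
def Stmt_GDX : Prop := P_GDX

/-- GWA: the arcs give a walk. -/
def P_GWA : Prop :=
  ∀ (N : ℕ) (P : Pg N) (K : ℕ) (e : ℤ → ℤ) (s a b : ℤ → ℝ) (g : ℤ → Bool) (X : Finset ℝ),
    ArcP P K e s a b g X → GW P X (aIts K s (oL a b g) g e)

/-- GWA -/
def Stmt_GWA : Prop := P_GWA

/-- The point has a column. -/
def hc (p : Pt) : Prop := p.k ≠ .L

/-- The point has a row. -/
def hr (p : Pt) : Prop := p.k ≠ .R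

/-- Two lists of points of the same kinds with the same order of the columns and of the rows. -/
structure SO (w w' : List Pt) : Prop where
  len : w.length = w'.length
  k : ∀ i (h : i < w.length) (h' : i < w'.length), (w[i]).k = (w'[i]).k
  c : ∀ i j (h : i < w.length) (h' : i < w'.length) (l : j < w.length) (l' : j < w'.length),
    hc w[i] → hc w[j] → ((w[i]).c < (w[j]).c ↔ (w'[i]).c < (w'[j]).c)
  r : ∀ i j (h : i < w.length) (h' : i < w'.length) (l : j < w.length) (l' : j < w'.length),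
    hr w[i] → hr w[j] → ((w[i]).r < (w[j]).r ↔ (w'[i]).r < (w'[j]).r)

/-- ORE: lists with the same order have the same representations. -/
def P_ORE : Prop := ∀ w w' : List Pt, SO w w' → ∀ M, Rp (ents w) M → Rp (ents w') M

/-- ORE -/
def Stmt_ORE : Prop := P_ORE

/-- DST: different points of the walk of the arcs have different positions. -/
def P_DST : Prop :=
  ∀ (Λ : LC.LegKnot) (K : ℕ) (θ s a b : ℤ → ℝ) (g : ℤ → Bool) (X : Finset ℝ),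
    Arcs Λ K θ s a b g X →
    (∀ k l, ¬ Cg K k l → s k = s l → zz Λ (θ k) ≠ zz Λ (θ l)) ∧
    (∀ k l, g k ≠ g (k + 1) → s l = oL a b g k → TL Λ (θ k) (oL a b g k) ≠ zz Λ (θ l)) ∧
    ∀ k l, ¬ Cg K k l → g k ≠ g (k + 1) → g l ≠ g (l + 1) → g k = g l →
      oL a b g k = oL a b g l → TL Λ (θ k) (oL a b g k) ≠ TL Λ (θ l) (oL a b g l)

/-- DST -/
def Stmt_DST : Prop := P_DST

/-- CMB: the walk of the polygon has the same order as the walk of the arcs, if the heights are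
close. `H`, `V`: the heights of the passing points and of the turns. -/
def P_CMB : Prop :=
  ∀ (K : ℕ) (s a b : ℤ → ℝ) (g : ℤ → Bool) (X : Finset ℝ) (H V H' V' : ℤ → ℝ), ArcD K s a b g X →
    (∀ k l, ¬ Cg K k l → s k = s l → (H k < H l ↔ H' k < H' l)) →
    (∀ k l, g k ≠ g (k + 1) → s l = oL a b g k →
      (V k < H l ↔ V' k < H' l) ∧ (H l < V k ↔ H' l < V' k)) →
    (∀ k l, ¬ Cg K k l → g k ≠ g (k + 1) → g l ≠ g (l + 1) → g k = g l →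
      oL a b g k = oL a b g l → (V k < V l ↔ V' k < V' l)) →
    SO (aPts K s (oL a b g) g H V) (aPts K s (oL a b g) g H' V')

/-- CMB -/
def Stmt_CMB : Prop := P_CMB

/-- The polygons of a knot with a decomposition into arcs. -/
def P_SGM : Prop :=
  ∀ (Λ : LC.LegKnot) (K : ℕ) (θ s a b : ℤ → ℝ) (g : ℤ → Bool) (X : Finset ℝ),
    Arcs Λ K θ s a b g X → ∃ N₀ : ℕ, 0 < N₀ ∧ ∀ N ≥ N₀, ∀ P : Pg N, IsPN Λ N P →
      ∃ w, GoodX P X ∧ GW P X w ∧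
        ∀ M, Rp (ents (aPts K s (oL a b g) g (fun k => zz Λ (θ k))
          (fun k => TL Λ (θ k) (oL a b g k)))) M → Rp (lst P w) M

/-- SGM: assembly. -/
def Stmt_SGM : Prop :=
  P_AR1 → P_AR2 → P_AR3 → P_AR4 → P_GDX → P_GWA → P_ORE → P_DST → P_CMB → P_SGM

end LHE


end

section

/-!
# The knot `J` (task T_J), second part: knots along lattice paths

A lattice path: the points `(m i, z i)`, `i : ℤ`, periodic with period `L`; `σ i = sg m i = ±1` is the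
direction of the edge `i` from the point `i` to the point `i + 1`, `sl m z i = ±1` is its slope.
The point `i` is a tip if `σ (i - 1) ≠ σ i`.
-/

namespace LHE

open Set LG LH

/-- The direction of the edge `i`. -/
def sg (m : ℤ → ℤ) (i : ℤ) : ℤ := m (i + 1) - m i

/-- The slope of the edge `i`. -/
def sl (m z : ℤ → ℤ) (i : ℤ) : ℤ := (z (i + 1) - z i) * (m (i + 1) - m i)

/-- A closed lattice path which is the front of a knot. -/
structure LatD (L : ℕ) (m z : ℤ → ℤ) : Prop where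
  Lpos : 0 < L
  pm : ∀ i, m (i + L) = m i
  pz : ∀ i, z (i + L) = z i
  dm : ∀ i, m (i + 1) = m i + 1 ∨ m (i + 1) = m i - 1
  dz : ∀ i, z (i + 1) = z i + 1 ∨ z (i + 1) = z i - 1
  nb : ∀ i, sg m (i - 1) ≠ sg m i → sl m z (i - 1) ≠ sl m z i
  dis : ∀ i j, ¬ Cg L i j → m i = m j → z i = z j → sg m (i - 1) = sg m i ∧
    sl m z (i - 1) = sl m z i ∧ sg m (j - 1) = sg m j ∧ sl m z (j - 1) = sl m z j ∧
    sl m z i ≠ sl m z j

/-- A knot along a lattice path with the scales `X₀`, `P₀` (for `x` and for the slopes) and the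
widths `w` of the corners; `ν i` is the parameter of the point `i`. -/
structure LatS (Λ : LC.LegKnot) (X₀ P₀ w : ℝ) (L : ℕ) (m z : ℤ → ℤ) (ν : ℤ → ℝ) : Prop where
  X0 : 0 < X₀
  P0 : 0 < P₀
  w0 : 0 < w
  wX : 100 * w ≤ X₀
  mono : ∀ i, ν i < ν (i + 1)
  pν : ∀ i, ν (i + L) = ν i + 1
  dx : ∀ i, ∀ u ∈ Ioo (ν i) (ν (i + 1)), 0 < (sg m i : ℝ) * deriv Λ.x u
  vx : ∀ i, sg m (i - 1) = sg m i → Λ.x (ν i) = X₀ * m i ∧ 0 < (sg m i : ℝ) * deriv Λ.x (ν i)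
  tx : ∀ i, sg m (i - 1) ≠ sg m i → (sg m i : ℝ) * Λ.x (ν i) ≤ sg m i * (X₀ * m i)
  tb : ∀ i, |Λ.x (ν i) - X₀ * m i| ≤ 3 / 4 * w
  zs : ∀ i, sg m (i - 1) = sg m i → sl m z (i - 1) = sl m z i →
    ∀ u ∈ Icc (ν (i - 1)) (ν (i + 1)), |Λ.x u - X₀ * m i| ≤ 3 / 4 * X₀ →
    ∀ t, TL Λ u t = X₀ * P₀ * z i + P₀ * sl m z i * (t - X₀ * m i)
  zb : ∀ i, ∀ u ∈ Icc (ν (i - 1)) (ν (i + 1)), |Λ.x u - X₀ * m i| ≤ 3 / 4 * X₀ →
    ∀ t, |t - X₀ * m i| ≤ 51 / 100 * X₀ → |TL Λ u t - X₀ * P₀ * z i| ≤ 5 / 8 * (X₀ * P₀)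
  zi : ∀ i, ∀ u ∈ Icc (ν (i - 1)) (ν i), w ≤ -(sg m (i - 1) : ℝ) * (Λ.x u - X₀ * m i) →
    -(sg m (i - 1) : ℝ) * (Λ.x u - X₀ * m i) ≤ 3 / 4 * X₀ →
    ∀ t, TL Λ u t = X₀ * P₀ * z i + P₀ * sl m z (i - 1) * (t - X₀ * m i)
  zo : ∀ i, ∀ u ∈ Icc (ν i) (ν (i + 1)), w ≤ (sg m i : ℝ) * (Λ.x u - X₀ * m i) →
    (sg m i : ℝ) * (Λ.x u - X₀ * m i) ≤ 3 / 4 * X₀ →
    ∀ t, TL Λ u t = X₀ * P₀ * z i + P₀ * sl m z i * (t - X₀ * m i)
  ym : ∀ i, sg m (i - 1) ≠ sg m i → ∀ u ∈ Ioo (ν (i - 1)) (ν (i + 1)),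
    |Λ.x u - X₀ * m i| ≤ 3 / 4 * X₀ → 0 ≤ ((sl m z i : ℝ) - sl m z (i - 1)) * deriv Λ.y u
  yt : ∀ i, sg m (i - 1) ≠ sg m i → ∀ u ∈ Ioo (ν (i - 1)) (ν (i + 1)),
    (sg m i : ℝ) * (Λ.x u - X₀ * m i) < w → deriv Λ.y u ≠ 0

/-! ### the lines and the combinatorics of the arcs -/

/-- The line with the code `n`: `3 m`, `3 m + 1`, `3 m + 2` are the lines shortly before and
shortly after `X₀ m`, and in the middle between `X₀ m` and `X₀ (m + 1)`. -/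
noncomputable def ln (X₀ w ε : ℝ) (n : ℤ) : ℝ :=
  X₀ * (n / 3 : ℤ) + (if n % 3 = 0 then -(7 / 8 * w) else if n % 3 = 1 then 7 / 8 * w else X₀ / 2) + ε

/-- The code of the line of the start of the arc `k`. The arcs `3 i`, `3 i + 1`, `3 i + 2` start
in the middle of the edge `i - 1`, shortly before the point `i`, shortly after the point `i`. -/
def cs (m : ℤ → ℤ) (k : ℤ) : ℤ :=
  if k % 3 = 0 then (if sg m (k / 3 - 1) = 1 then 3 * m (k / 3) - 1 else 3 * m (k / 3) + 2)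
  else if k % 3 = 1 then (if sg m (k / 3 - 1) = 1 then 3 * m (k / 3) else 3 * m (k / 3) + 1)
  else (if sg m (k / 3) = 1 then 3 * m (k / 3) + 1 else 3 * m (k / 3))

/-- The code of the left line of the cell of the arc `k`. -/
def ca (m : ℤ → ℤ) (k : ℤ) : ℤ :=
  if k % 3 = 0 then (if sg m (k / 3 - 1) = 1 then 3 * m (k / 3) - 1 else 3 * m (k / 3) + 1)
  else if k % 3 = 1 then 3 * m (k / 3)
  else (if sg m (k / 3) = 1 then 3 * m (k / 3) + 1 else 3 * m (k / 3) - 1)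

/-- The direction at the start of the arc `k`. -/
def gd (m : ℤ → ℤ) (k : ℤ) : Bool :=
  if k % 3 = 2 then decide (sg m (k / 3) = 1) else decide (sg m (k / 3 - 1) = 1)

/-- The code of the height of the start of the arc `k`. -/
def hcd (m z : ℤ → ℤ) (k : ℤ) : ℤ :=
  if k % 3 = 0 then 2 * z (k / 3) - sg m (k / 3 - 1) * sl m z (k / 3 - 1)
  else if k % 3 = 1 then 4 * z (k / 3) - sg m (k / 3 - 1) * sl m z (k / 3 - 1)
  else 4 * z (k / 3) + sg m (k / 3) * sl m z (k / 3)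

/-- The code of the height of the turn of the arc `k`. -/
def vcd (z : ℤ → ℤ) (k : ℤ) : ℤ := 4 * z (k / 3)

/-- The lines of the arcs. -/
noncomputable def sR (X₀ w ε : ℝ) (m : ℤ → ℤ) (k : ℤ) : ℝ := ln X₀ w ε (cs m k)

/-- The left lines of the cells. -/
noncomputable def aR (X₀ w ε : ℝ) (m : ℤ → ℤ) (k : ℤ) : ℝ := ln X₀ w ε (ca m k)

/-- The right lines of the cells. -/
noncomputable def bR (X₀ w ε : ℝ) (m : ℤ → ℤ) (k : ℤ) : ℝ := ln X₀ w ε (ca m k + 1)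

/-- All lines. -/
noncomputable def XL (X₀ w ε : ℝ) (lo hi : ℤ) : Finset ℝ := (Finset.Icc lo hi).image (ln X₀ w ε)

/-- The range of the codes. -/
def Rng (m : ℤ → ℤ) (lo hi : ℤ) : Prop := ∀ i, lo + 3 ≤ 3 * m i ∧ 3 * m i + 4 ≤ hi

/-- LNM: the lines are increasing; adjacent lines are adjacent codes. -/
def P_LNM : Prop :=
  ∀ (X₀ w ε : ℝ), 0 < X₀ → 0 < w → 100 * w ≤ X₀ → StrictMono (ln X₀ w ε) ∧
    ∀ lo hi c d, AdjX (XL X₀ w ε lo hi) c d ↔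
      ∃ n, lo ≤ n ∧ n + 1 ≤ hi ∧ c = ln X₀ w ε n ∧ d = ln X₀ w ε (n + 1)

/-- LNM -/
def Stmt_LNM : Prop := P_LNM

/-- ARD: the combinatorial data of the arcs. -/
def P_ARD : Prop :=
  ∀ (X₀ w ε : ℝ) (L : ℕ) (m z : ℤ → ℤ) (lo hi : ℤ), 0 < X₀ → 0 < w → 100 * w ≤ X₀ → LatD L m z →
    Rng m lo hi →
    ArcD (3 * L) (sR X₀ w ε m) (aR X₀ w ε m) (bR X₀ w ε m) (gd m) (XL X₀ w ε lo hi)

/-- ARD -/
def Stmt_ARD : Prop := P_LNM → P_ARD

/-- The positions of the parameters of the arcs. -/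
structure Tht (Λ : LC.LegKnot) (X₀ w ε : ℝ) (L : ℕ) (m : ℤ → ℤ) (ν θ : ℤ → ℝ) : Prop where
  pθ : ∀ k, θ (k + (3 * L : ℕ)) = θ k + 1
  h₀ : ∀ i : ℤ, ν (i - 1) < θ (3 * i)
  h₁ : ∀ i : ℤ, θ (3 * i) < θ (3 * i + 1)
  h₂ : ∀ i : ℤ, θ (3 * i + 1) < ν i
  h₃ : ∀ i : ℤ, ν i < θ (3 * i + 2)
  h₄ : ∀ i : ℤ, θ (3 * i + 2) < θ (3 * i + 3)
  hit : ∀ k, Λ.x (θ k) = sR X₀ w ε m k

/-- THT: the parameters of the arcs. -/
def P_THT : Prop :=
  ∀ (Λ : LC.LegKnot) (X₀ P₀ w ε : ℝ) (L : ℕ) (m z : ℤ → ℤ) (ν : ℤ → ℝ), LatD L m z →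
    LatS Λ X₀ P₀ w L m z ν → 0 < ε → ε < w / 16 → ∃ θ, Tht Λ X₀ w ε L m ν θ

/-- THT -/
def Stmt_THT : Prop := P_THT

/-- THI: the arcs are over their cells; the derivatives at their ends. -/
def P_THI : Prop :=
  ∀ (Λ : LC.LegKnot) (X₀ P₀ w ε : ℝ) (L : ℕ) (m z : ℤ → ℤ) (ν θ : ℤ → ℝ), LatD L m z →
    LatS Λ X₀ P₀ w L m z ν → 0 < ε → ε < w / 16 → Tht Λ X₀ w ε L m ν θ →
    (∀ k, θ k < θ (k + 1)) ∧ (∀ k, 0 < sn (gd m k) * deriv Λ.x (θ k)) ∧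
    (∀ k, ∀ u ∈ Ioo (θ k) (θ (k + 1)), aR X₀ w ε m k < Λ.x u ∧ Λ.x u < bR X₀ w ε m k) ∧
    ∀ k, (∀ u ∈ Icc (θ k) (θ (k + 1)), deriv Λ.x u ≠ 0) ∨
      ∀ u ∈ Icc (θ k) (θ (k + 1)), deriv Λ.y u ≠ 0

/-- THI -/
def Stmt_THI : Prop := P_LNM → P_THI

/-- TSP: the two sides of a tip are separated. -/
def P_TSP : Prop :=
  ∀ (Λ : LC.LegKnot) (X₀ P₀ w : ℝ) (L : ℕ) (m z : ℤ → ℤ) (ν : ℤ → ℝ), LatD L m z →
    LatS Λ X₀ P₀ w L m z ν → ∀ i, sg m (i - 1) ≠ sg m i → ∀ α β β' α' a b : ℝ,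
      ν (i - 1) < α → α < β → β < ν i → ν i < β' → β' < α' → α' < ν (i + 1) →
      Λ.x α = a → Λ.x α' = a → Λ.x β = b → Λ.x β' = b →
      w ≤ (sg m i : ℝ) * (a - X₀ * m i) → (sg m i : ℝ) * (a - X₀ * m i) ≤ 3 / 4 * X₀ →
      0 < (sg m i : ℝ) * (b - X₀ * m i) → (sg m i : ℝ) * b ≤ sg m i * a →
      ∀ u ∈ Icc α β, ∀ v ∈ Icc β' α', ∀ t, t = a ∨ t = b →
        0 < ((sg m i : ℝ) * sl m z i) * (TL Λ v t - TL Λ u t)

/-- TSP -/
def Stmt_TSP : Prop := P_TSP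

/-- LHD: the heights in the middle of the edges are different. -/
def P_LHD : Prop :=
  ∀ (L : ℕ) (m z : ℤ → ℤ), LatD L m z →
    (∀ i j, m i = m j → (z i - z j) % 2 = 0) ∧
    ∀ i j, ¬ Cg L i j → cs m (3 * i) = cs m (3 * j) → hcd m z (3 * i) ≠ hcd m z (3 * j) ∧
      (hcd m z (3 * i) - hcd m z (3 * j)) % 2 = 0

/-- LHD -/
def Stmt_LHD : Prop := P_LHD

/-- SPA: the arcs are separated. -/
def P_SPA : Prop :=
  ∀ (Λ : LC.LegKnot) (X₀ P₀ w ε : ℝ) (L : ℕ) (m z : ℤ → ℤ) (ν θ : ℤ → ℝ), LatD L m z →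
    LatS Λ X₀ P₀ w L m z ν → 0 < ε → ε < w / 16 → Tht Λ X₀ w ε L m ν θ →
    ∀ k l, ¬ Cg (3 * L) k l → ca m k = ca m l → ∀ n, n = ca m k ∨ n = ca m k + 1 →
      (∀ u ∈ Icc (θ k) (θ (k + 1)), ∀ v ∈ Icc (θ l) (θ (l + 1)),
        TL Λ u (ln X₀ w ε n) < TL Λ v (ln X₀ w ε n)) ∨
      ∀ u ∈ Icc (θ k) (θ (k + 1)), ∀ v ∈ Icc (θ l) (θ (l + 1)),
        TL Λ v (ln X₀ w ε n) < TL Λ u (ln X₀ w ε n)

/-- SPA -/
def Stmt_SPA : Prop := P_LNM → P_THI → P_TSP → P_LHD → P_SPA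

/-- HOR: the order of the heights is the order of the codes. -/
def P_HOR : Prop :=
  ∀ (Λ : LC.LegKnot) (X₀ P₀ w ε : ℝ) (L : ℕ) (m z : ℤ → ℤ) (ν θ : ℤ → ℝ), LatD L m z →
    LatS Λ X₀ P₀ w L m z ν → 0 < ε → ε < w / 16 → Tht Λ X₀ w ε L m ν θ →
    (∀ k l, ¬ Cg (3 * L) k l → cs m k = cs m l →
      (zz Λ (θ k) < zz Λ (θ l) ↔ hcd m z k < hcd m z l)) ∧
    (∀ k l, gd m k ≠ gd m (k + 1) → cs m l = (if gd m k then ca m k + 1 else ca m k) →
      (TL Λ (θ k) (sR X₀ w ε m l) < zz Λ (θ l) ↔ vcd z k < hcd m z l) ∧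
      (zz Λ (θ l) < TL Λ (θ k) (sR X₀ w ε m l) ↔ hcd m z l < vcd z k)) ∧
    ∀ k l, ¬ Cg (3 * L) k l → gd m k ≠ gd m (k + 1) → gd m l ≠ gd m (l + 1) → gd m k = gd m l →
      ca m k = ca m l → ∀ n, n = (if gd m k then ca m k + 1 else ca m k) →
      (TL Λ (θ k) (ln X₀ w ε n) < TL Λ (θ l) (ln X₀ w ε n) ↔ vcd z k < vcd z l)

/-- HOR -/
def Stmt_HOR : Prop := P_LNM → P_THI → P_TSP → P_LHD → P_HOR

/-- EPC: the shift of the lines can be chosen such that no line contains a point with a rational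
parameter. -/
def P_EPC : Prop :=
  ∀ (Λ : LC.LegKnot) (X₀ w : ℝ) (lo hi : ℤ), 0 < w →
    ∃ ε, 0 < ε ∧ ε < w / 16 ∧ ∀ t ∈ XL X₀ w ε lo hi, ∀ q : ℚ, Λ.x q ≠ t

/-- EPC -/
def Stmt_EPC : Prop := P_EPC

/-- The code of the line of the turn of the arc `k`. -/
def co (m : ℤ → ℤ) (k : ℤ) : ℤ := if gd m k then ca m k + 1 else ca m k

/-- The walk of the lattice path in terms of the codes. -/
noncomputable def cPts (L : ℕ) (m z : ℤ → ℤ) : List Pt :=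
  aPts (3 * L) (fun k => (cs m k : ℝ)) (fun k => (co m k : ℝ)) (gd m)
    (fun k => (hcd m z k : ℝ)) (fun k => (vcd z k : ℝ))

/-- CDM: the lines can be replaced by their codes. -/
def P_CDM : Prop :=
  ∀ (K : ℕ) (c o : ℤ → ℤ) (g : ℤ → Bool) (H V : ℤ → ℝ) (f : ℤ → ℝ), StrictMono f →
    SO (aPts K (fun k => (c k : ℝ)) (fun k => (o k : ℝ)) g H V)
      (aPts K (fun k => f (c k)) (fun k => f (o k)) g H V)

/-- CDM -/
def Stmt_CDM : Prop := P_CDM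

/-- The polygons of a knot along a lattice path. -/
def P_LAT : Prop :=
  ∀ (Λ : LC.LegKnot) (X₀ P₀ w : ℝ) (L : ℕ) (m z : ℤ → ℤ) (ν : ℤ → ℝ), LatD L m z →
    LatS Λ X₀ P₀ w L m z ν → ∃ N₀ : ℕ, 0 < N₀ ∧ ∀ N ≥ N₀, ∀ P : Pg N, IsPN Λ N P →
      ∃ X w, GoodX P X ∧ GW P X w ∧ ∀ M, Rp (ents (cPts L m z)) M → Rp (lst P w) M

/-- LAT: assembly. -/
def Stmt_LAT : Prop :=
  P_LNM → P_ARD → P_THT → P_THI → P_SPA → P_HOR → P_EPC → P_CDM → P_CMB → P_ORE → P_SGM → P_LAT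

end LHE


end

section

/-!
# Certificates for the nonvanishing of `λ⁻`
-/

namespace LG

/-- Cyclic order of natural numbers. -/
def cycb (a b c : ℕ) : Bool := (a < b && b < c) || (b < c && c < a) || (c < a && a < b)

/-- Half open cyclic interval. -/
def icob (a b c : ℕ) : Bool := b == a || cycb a b c

/-- The column of the entry `i`. -/
def gc (L : List (ℕ × ℕ)) (i : ℕ) : ℕ := (L.getD i (0, 0)).1

/-- The row of the entry `i`. -/
def gr (L : List (ℕ × ℕ)) (i : ℕ) : ℕ := (L.getD i (0, 0)).2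

/-- The rectangle `(i, j)` of the state `x` is empty. -/
def empb (L : List (ℕ × ℕ)) (x : List ℕ) (i j : ℕ) : Bool :=
  (List.range L.length).all fun k =>
    !(cycb (gc L i) (gc L k) (gc L j) &&
      cycb (gr L (x.getD i 0)) (gr L (x.getD k 0)) (gr L (x.getD j 0)))

/-- The rectangle `(i, j)` of the state `x` has no marks. -/
def mrkb (L : List (ℕ × ℕ)) (x : List ℕ) (i j : ℕ) : Bool :=
  (List.range L.length).all fun m =>
    !((icob (gc L i) (gc L m) (gc L j) || icob (gc L i) (gc L ((m + 1) % L.length)) (gc L j)) &&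
      icob (gr L (x.getD i 0)) (gr L m) (gr L (x.getD j 0)))

/-- Exchange of two values. -/
def swb (x : List ℕ) (i j : ℕ) : List ℕ := (x.set i (x.getD j 0)).set j (x.getD i 0)

/-- The states with rectangles into the set `S`, with multiplicities. -/
def preb (L : List (ℕ × ℕ)) (S : List (List ℕ)) : List (List ℕ) :=
  S.flatMap fun y => (List.range L.length).flatMap fun i => (List.range L.length).flatMap fun j =>
    if i != j && (empb L (swb y i j) i j && mrkb L (swb y i j) i j) then [swb y i j] else []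

/-- Distinct elements. -/
def ndb {α : Type} [DecidableEq α] : List α → Bool
  | [] => true
  | a :: l => !(l.contains a) && ndb l

/-- The checker: `S` is a cocycle which contains the state `1`. -/
def chkb (L : List (ℕ × ℕ)) (S : List (List ℕ)) : Bool :=
  ndb (L.map Prod.fst) && ndb (L.map Prod.snd) && ndb S && S.contains (List.range L.length) &&
    (S.all fun y => y.length == L.length && ndb y && y.all fun k => k < L.length) &&
    (preb L S).all fun x => (preb L S).count x % 2 == 0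

/-- CRT: soundness of the checker. -/
def Stmt_CRT : Prop :=
  ∀ (L : List (ℕ × ℕ)) (S : List (List ℕ)), chkb L S = true →
    ¬ VL (L.map fun p => ((p.1 : ℝ), (p.2 : ℝ)))

/-- The grid with small certificates. -/
def LJ : List (ℕ × ℕ) :=
  [(11, 0), (2, 7), (4, 11), (10, 3), (6, 9), (1, 4), (9, 10), (5, 5), (0, 1), (8, 6), (3, 8), (7, 2)]

/-- The same grid, rotated by the angle `π`. -/
def LJn : List (ℕ × ℕ) :=
  [(0, 11), (9, 4), (7, 0), (1, 8), (5, 2), (10, 7), (2, 1), (6, 6), (11, 10), (3, 5), (8, 3), (4, 9)]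

end LG


end

section

/-!
# The knot `J`: checkers for the walk and for the path to the final grid
-/

namespace LHJ

open Set LG LH LHE

/-! ### paths of Legendrian moves -/

/-- The list with real coordinates. -/
def cst (L : List (ℕ × ℕ)) : List (ℝ × ℝ) := L.map fun p => ((p.1 : ℝ), (p.2 : ℝ))

/-- `x` is strictly between `a` and `b`. -/
def btb (a b x : ℕ) : Bool := (decide (a < x) && decide (x < b)) || (decide (b < x) && decide (x < a))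

/-- Unlinked pairs. -/
def unb (a b c d : ℕ) : Bool :=
  !(a == c) && !(a == d) && !(b == c) && !(b == d) && (cycb a c b == cycb a d b)

/-- `f` holds for all consecutive elements. -/
def adb (f : ℕ × ℕ → ℕ × ℕ → Bool) : List (ℕ × ℕ) → Bool
  | x :: y :: L => f x y && adb f (y :: L)
  | _ => true

/-- The operations: rotation by `k`, move of the column or of the row of the first entry to `t`,
removal of a short row, removal of a short column. -/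
inductive Op | rot (k : ℕ) | col (t : ℕ) | row (t : ℕ) | sr | sc

/-- One operation. -/
def stp : Op → List (ℕ × ℕ) → Option (List (ℕ × ℕ))
  | .rot k, L => some (L.drop k ++ L.take k)
  | .col t, (c, r) :: x :: B =>
    if (((c, r) :: x :: B).all fun p => !(p.1 == t)) &&
      adb (fun y w => !(btb c t w.1) || unb ((x :: B).getLastD (0, 0)).2 r y.2 w.2)
        ((c, r) :: x :: B)
    then some ((t, r) :: x :: B) else none
  | .row t, (c, r) :: x :: B =>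
    if (((c, r) :: x :: B).all fun p => !(p.2 == t)) &&
      adb (fun w y => !(btb r t w.2) || unb c x.1 w.1 y.1) ((c, r) :: x :: B ++ [(c, r)])
    then some ((c, t) :: x :: B) else none
  | .sr, (c₁, r₁) :: (c₂, r₂) :: x :: B =>
    if (((c₁, r₁) :: (c₂, r₂) :: x :: B).all fun p => !(cycb c₁ p.1 c₂)) &&
        cycb r₁ r₂ ((x :: B).getLastD (0, 0)).2 ||
      (((c₁, r₁) :: (c₂, r₂) :: x :: B).all fun p => !(cycb c₂ p.1 c₁)) &&
        cycb ((x :: B).getLastD (0, 0)).2 r₂ r₁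
    then some ((c₂, r₂) :: x :: B) else none
  | .sc, (c₁, r₁) :: (c₂, r₂) :: z :: B =>
    if (((c₁, r₁) :: (c₂, r₂) :: z :: B).all fun p => !(cycb r₁ p.2 r₂)) && cycb z.1 c₁ c₂ ||
      (((c₁, r₁) :: (c₂, r₂) :: z :: B).all fun p => !(cycb r₂ p.2 r₁)) && cycb c₂ c₁ z.1
    then some ((c₁, r₁) :: z :: B) else none
  | _, _ => none

/-- A sequence of operations. -/
def run : List Op → List (ℕ × ℕ) → Option (List (ℕ × ℕ))
  | [], L => some L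
  | o :: os, L => match stp o L with
    | some L' => run os L'
    | none => none

/-- PTH: soundness of the path checker. -/
def Stmt_PTH : Prop :=
  ∀ (os : List Op) (L L' : List (ℕ × ℕ)), Nd (cst L) → run os L = some L' →
    Nd (cst L') ∧ LEq (cst L) (cst L')

/-- NGB: the rotation by the angle `π` in natural numbers. -/
def Stmt_NGB : Prop :=
  ∀ (B : ℕ) (L : List (ℕ × ℕ)), (∀ p ∈ L, p.1 ≤ B ∧ p.2 ≤ B) → Nd (cst L) →
    LEq (neg (cst L)) (cst (L.map fun p => (B - p.1, B - p.2)))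

/-! ### representations of integer lists -/

/-- The entry of an integer entry: kind (`true`: column), first and second coordinate. -/
noncomputable def toEn (e : Bool × ℤ × ℤ) : En :=
  if e.1 then Sum.inl (toLex ((e.2.1 : ℝ), (e.2.2 : ℝ)))
  else Sum.inr (toLex ((e.2.1 : ℝ), (e.2.2 : ℝ)))

/-- The key of an integer position. -/
def kyb (e : ℤ × ℤ) : ℕ := ((e.1 + 1000) * 2000 + (e.2 + 1000)).toNat

/-- The bounds of an integer position. -/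
def bdb (e : ℤ × ℤ) : Bool :=
  decide (-1000 ≤ e.1) && decide (-1000 ≤ e.2) && decide (e.2 < 1000)

/-- The alternating list. -/
def flb (M : List (ℕ × ℕ)) : List (Bool × ℕ) := M.flatMap fun p => [(true, p.1), (false, p.2)]

/-- Kind, key, rank: the keys of the same kind are different, the ranks have the same order (rows)
or the reversed order (columns). -/
def prb : List (Bool × ℕ × ℕ) → Bool
  | [] => true
  | x :: L => (L.all fun y => !(x.1 == y.1) ||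
      (if x.1 then (decide (x.2.1 < y.2.1) && decide (y.2.2 < x.2.2)) ||
        (decide (y.2.1 < x.2.1) && decide (x.2.2 < y.2.2))
      else (decide (x.2.1 < y.2.1) && decide (x.2.2 < y.2.2)) ||
        (decide (y.2.1 < x.2.1) && decide (y.2.2 < x.2.2)))) && prb L

/-- The checker: `T` is the list of kinds, keys and ranks. -/
def rpb (E : List (Bool × ℤ × ℤ)) (M : List (ℕ × ℕ)) (k : ℕ) (T : List (Bool × ℕ × ℕ)) : Bool :=
  (E.all fun e => bdb e.2) && prb T &&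
    decide (T.map (fun t => (t.1, t.2.1)) = E.map (fun e => (e.1, kyb e.2))) &&
    decide (T.map (fun t => (t.1, t.2.2)) = (flb M).drop k ++ (flb M).take k)

/-- RPC: soundness of the checker. -/
def Stmt_RPC : Prop :=
  ∀ (E : List (Bool × ℤ × ℤ)) (M : List (ℕ × ℕ)) (k : ℕ) (T : List (Bool × ℕ × ℕ)),
    rpb E M k T = true → Rp (E.map toEn) (cst M)

/-- The integer entries of the arc `k`. -/
def iEn (m z : ℤ → ℤ) (k : ℤ) : List (Bool × ℤ × ℤ) :=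
  (if gd m k then [(true, cs m k, hcd m z k), (false, -cs m k, hcd m z k)]
    else [(false, -cs m k, hcd m z k), (true, cs m k, hcd m z k)]) ++
  if gd m k = gd m (k + 1) then []
  else if gd m k then [(true, co m k, vcd z k)] else [(false, -co m k, vcd z k)]

/-- The integer entries of a lattice path. -/
def iE (L : ℕ) (m z : ℤ → ℤ) : List (Bool × ℤ × ℤ) :=
  (List.range (3 * L)).flatMap fun k => iEn m z (k : ℤ)

/-- IEN: the entries of the walk of a lattice path. -/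
def Stmt_IEN : Prop := ∀ (L : ℕ) (m z : ℤ → ℤ), ents (cPts L m z) = (iE L m z).map toEn

end LHJ


end

section

/-!
# IEN: the entries of the walk of a lattice path
-/

namespace LHJ

open Set LG LH LHE

theorem IEN.one (m z : ℤ → ℤ) (k : ℤ) :
    (aPt (fun k => (cs m k : ℝ)) (fun k => (co m k : ℝ)) (gd m)
      (fun k => (hcd m z k : ℝ)) (fun k => (vcd z k : ℝ)) k).flatMap ent = (iEn m z k).map toEn := by
  unfold aPt iEn LHE.pass LHE.turn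
  cases h1 : gd m k <;> cases h2 : gd m (k + 1) <;>
    simp [ent, toEn, Pt.c, Pt.r]

theorem t_IEN : Stmt_IEN := by
  intro L m z
  unfold cPts ents aPts iE
  rw [List.flatMap_assoc, List.map_flatMap]
  congr 1
  funext k
  exact IEN.one m z k

end LHJ


end

section

/-!
# Rotation by the angle `π` in natural numbers
-/

namespace LHJ

open Set LG LH LHE

namespace NGB

theorem nd_neg (M : List (ℝ × ℝ)) (h : Nd M) : Nd (neg M) := by
  have h1 : (neg M).map Prod.fst = (M.map Prod.fst).map (fun x => -x) := by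
    unfold neg
    rw [List.map_map, List.map_map]
    rfl
  have h2 : (neg M).map Prod.snd = (M.map Prod.snd).map (fun x => -x) := by
    unfold neg
    rw [List.map_map, List.map_map]
    rfl
  refine ⟨?_, ?_⟩
  · rw [h1]
    exact h.1.map neg_injective
  · rw [h2]
    exact h.2.map neg_injective

end NGB

theorem t_NGB : Stmt_NGB := by
  intro B L hB hnd
  have h := Mv.iso (neg (cst L)) (fun x => (B : ℝ) + x) (fun x => (B : ℝ) + x)
    (NGB.nd_neg _ hnd) (fun p _ q _ hpq => by simpa using hpq) (fun p _ q _ hpq => by simpa using hpq)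
  have h2 : (neg (cst L)).map (fun p : ℝ × ℝ => ((B : ℝ) + p.1, (B : ℝ) + p.2)) =
      cst (L.map fun p => (B - p.1, B - p.2)) := by
    unfold neg cst
    rw [List.map_map, List.map_map, List.map_map]
    refine List.map_congr_left fun p hp => ?_
    obtain ⟨h3, h4⟩ := hB p hp
    simp only [Function.comp]
    rw [Nat.cast_sub h3, Nat.cast_sub h4]
    ext <;> simp [sub_eq_add_neg]
  rw [h2] at h
  exact Relation.EqvGen.rel _ _ h

end LHJ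


end

section

/-!
# CRE: an edge which crosses a line
-/

namespace LHE

open Set LG LH

namespace CRE

variable {N : ℕ}

/-- No vertex of the polygon is on a line of a good set. -/
theorem av {P : Pg N} {X : Finset ℝ} (h : GoodX P X) {t : ℝ} (ht : t ∈ X) (i : ℤ) :
    P.x i ≠ t := by
  obtain ⟨b, hb, hbi⟩ := h.hi
  by_cases htb : b ≤ t
  · exact ne_of_lt (lt_of_lt_of_le (hbi i) htb)
  · push Not at htb
    have hne : (X.filter (fun u => t < u)).Nonempty :=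
      ⟨b, Finset.mem_filter.mpr ⟨hb, htb⟩⟩
    have hm := Finset.min'_mem _ hne
    rw [Finset.mem_filter] at hm
    have hadj : AdjX X t ((X.filter (fun u => t < u)).min' hne) := by
      refine ⟨ht, hm.1, hm.2, ?_⟩
      rintro u hu ⟨h1, h2⟩
      have := Finset.min'_le _ u (Finset.mem_filter.mpr ⟨hu, h1⟩)
      exact absurd h2 (not_lt.mpr this)
    exact ((h.gd _ _ hadj).av i).1

/-- Discrete intermediate values. -/
theorem aux {P : Pg N} {X : Finset ℝ} (h : GoodX P X) (s : Bool) {t : ℝ} (ht : t ∈ X) (A : ℤ)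
    (hA : sn s * P.x A < sn s * t) :
    ∀ n : ℕ, sn s * t < sn s * P.x (A + n) → ∃ e ∈ Ico A (A + n), Crs P s t e := by
  intro n
  induction n with
  | zero =>
    intro h0
    simp only [Nat.cast_zero, add_zero] at h0
    exact absurd (lt_trans hA h0) (lt_irrefl _)
  | succ n ih =>
    intro hn
    rcases lt_trichotomy (sn s * t) (sn s * P.x (A + n)) with h1 | h1 | h1
    · obtain ⟨e, he, hc⟩ := ih h1
      refine ⟨e, ⟨he.1, lt_of_lt_of_le he.2 ?_⟩, hc⟩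
      push_cast
      omega
    · exfalso
      have h2 : t = P.x (A + n) := by
        have h3 : sn s * (sn s * t) = sn s * (sn s * P.x (A + n)) := by rw [h1]
        rw [← mul_assoc, ← mul_assoc, sn_sq, one_mul, one_mul] at h3
        exact h3
      exact av h ht (A + n) h2.symm
    · refine ⟨A + n, ⟨by omega, by push_cast; omega⟩, h1, ?_⟩
      have h2 : A + (n : ℤ) + 1 = A + ((n + 1 : ℕ) : ℤ) := by push_cast; ring
      rw [h2]
      exact hn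

end CRE

theorem t_CRE : Stmt_CRE := by
  intro N P X s A C hX hAC t ht hA hC
  obtain ⟨n, hn⟩ : ∃ n : ℕ, C = A + n := ⟨(C - A).toNat, by omega⟩
  subst hn
  exact CRE.aux hX s ht A hA n hC

end LHE


end

section

/-!
# TWF: the class of a walk with two opposite fingers
-/

namespace LHE

open Set LG LH

namespace TWF

theorem up_trans {s : Bool} {a b c : ℝ} (h : up s a b) (h' : up s b c) : up s a c :=
  lt_trans h h'

/-- The condition of a finger may be changed to one which holds beyond the line. -/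
theorem pf_mono {s : Bool} {V V' : ℝ → ℝ → ℝ → Prop} {t : ℝ} {F : List Pt} (h : PF s V t F) :
    (∀ t' h₁ h₂, up s t t' → V t' h₁ h₂ → V' t' h₁ h₂) → PF s V' t F := by
  induction h with
  | tip t t' h hu => intro _; exact PF.tip t t' h hu
  | step t t' h₁ h₂ F hu hV _ ih =>
    intro hVV
    exact PF.step t t' h₁ h₂ F hu (hVV _ _ _ hu hV)
      (ih fun t'' a b hu' hV' => hVV t'' a b (up_trans hu hu') hV')

/-- Conditions for a smaller walk with some new points which are not on the line. -/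
theorem ao_mono {w w' : List Pt} {o : Bool} {t h₁ h₂ : ℝ} (h : AO w o t h₁ h₂)
    (hw : ∀ p ∈ w', p.t = t → p ∈ w) : AO w' o t h₁ h₂ :=
  ⟨fun p hp hpt => h.1 p (hw p hp hpt) hpt, h.2⟩

theorem up_ne {s : Bool} {a b : ℝ} (h : up s a b) : b ≠ a := by
  rintro rfl
  exact lt_irrefl _ h

theorem up_not {s : Bool} {a b : ℝ} : up (!s) a b ↔ up s b a := by
  unfold up
  rw [sn_not]
  constructor <;> intro h <;> linarith

end TWF

open _root_.LHE.TWF in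
theorem t_TWF : Stmt_TWF := by
  intro hF hW hL hE hC hR w s o ξ h₁ h₂ h₃ F G r hw h
  -- first finger
  obtain ⟨t', h', hu, hw1, he1⟩ :=
    hF s o w F (G ++ ⟨pass s, ξ, h₃⟩ :: r) ξ h₁ h₂ h.eq hw h.f h.a₁.2
  -- rotate
  have hr1 := hC.rot [⟨pass s, ξ, h₁⟩, ⟨turn s, t', h'⟩]
    (⟨pass (!s), ξ, h₂⟩ :: (G ++ ⟨pass s, ξ, h₃⟩ :: r)) hw1
  set w2 : List Pt := ⟨pass (!s), ξ, h₂⟩ ::
    (G ++ ⟨pass s, ξ, h₃⟩ :: (r ++ [⟨pass s, ξ, h₁⟩, ⟨turn s, t', h'⟩])) with hw2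
  have e2 : (⟨pass (!s), ξ, h₂⟩ :: (G ++ ⟨pass s, ξ, h₃⟩ :: r)) ++
      [(⟨pass s, ξ, h₁⟩ : Pt), ⟨turn s, t', h'⟩] = w2 := by
    rw [hw2]
    simp
  rw [e2] at hr1
  -- second finger
  have hg : PF (!s) (AO w2 o) ξ G := by
    apply pf_mono h.g
    intro t a b hut hV
    apply ao_mono hV
    intro p hp hpt
    rw [hw2] at hp
    rw [h.eq]
    simp only [List.mem_cons, List.mem_append, List.not_mem_nil, or_false] at hp ⊢
    rcases hp with hp | hp | hp | hp | hp | hp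
    · exact Or.inr (Or.inr (Or.inl hp))
    · exact Or.inr (Or.inr (Or.inr (Or.inl hp)))
    · exact Or.inr (Or.inr (Or.inr (Or.inr (Or.inl hp))))
    · exact Or.inr (Or.inr (Or.inr (Or.inr (Or.inr hp))))
    · exact Or.inl hp
    · exfalso
      rw [hp] at hpt
      have h1 : up s t ξ := up_not.mp hut
      exact up_ne (up_trans h1 hu) hpt
  obtain ⟨t'', h'', hu', hw3, he3⟩ :=
    hF (!s) o w2 G (r ++ [⟨pass s, ξ, h₁⟩, ⟨turn s, t', h'⟩]) ξ h₂ h₃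
      (by rw [hw2, Bool.not_not]) hr1.1 hg h.a₂.2
  rw [Bool.not_not] at hw3 he3
  -- rotate back
  have hr2 := hC.rot (⟨pass (!s), ξ, h₂⟩ :: ⟨turn (!s), t'', h''⟩ :: ⟨pass s, ξ, h₃⟩ :: r)
    [⟨pass s, ξ, h₁⟩, ⟨turn s, t', h'⟩] hw3
  have hao : ∀ a b, AO w o ξ a b → AO ([(⟨pass s, ξ, h₁⟩ : Pt), ⟨turn s, t', h'⟩] ++
      (⟨pass (!s), ξ, h₂⟩ :: ⟨turn (!s), t'', h''⟩ :: ⟨pass s, ξ, h₃⟩ :: r)) o ξ a b := by
    intro a b hV
    apply ao_mono hV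
    intro p hp hpt
    rw [h.eq]
    simp only [List.mem_cons, List.mem_append, List.not_mem_nil, or_false] at hp ⊢
    rcases hp with (hp | hp) | hp | hp | hp | hp
    · exact Or.inl hp
    · exfalso
      rw [hp] at hpt
      exact up_ne hu hpt
    · exact Or.inr (Or.inr (Or.inl hp))
    · exfalso
      rw [hp] at hpt
      exact up_ne hu' hpt
    · exact Or.inr (Or.inr (Or.inr (Or.inr (Or.inl hp))))
    · exact Or.inr (Or.inr (Or.inr (Or.inr (Or.inr hp))))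
  obtain ⟨M', hM', hV'⟩ := hW s o ξ t' t'' h₁ h₂ h₃ h' h'' r _ rfl hr2.1 (hao _ _ h.a₁)
    (hao _ _ h.a₂)
  have he : WE (ents w) (ents ([(⟨pass s, ξ, h₁⟩ : Pt), ⟨turn s, t', h'⟩] ++
      (⟨pass (!s), ξ, h₂⟩ :: ⟨turn (!s), t'', h''⟩ :: ⟨pass s, ξ, h₃⟩ :: r))) :=
    hE.trans _ _ _ he1 (hE.trans _ _ _ hr1.2 (hE.trans _ _ _ he3 hr2.2))
  obtain ⟨M, hM⟩ := hR (ents w) (hC.alt w hw) hw.nd
  have hq := hL M M' (hE.all _ _ M M' he hM hM')
  exact ⟨M, hM, hV'.imp hq.1.mpr hq.2.mpr⟩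

end LHE


end
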