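import Mathlib
import Pool.Agent.NDM.C01
import Pool.Agent.NDM.C03

/-! Parts: LH.COV, LH.EWP, LH.SEQ, LH.TRA, LH.TRB, LHS.BAS, LHS.CTN, LHS.BD1, LHS.BD2, LHS.BD3, LHS.MID, LHS.MUB, LHS.ZAP, LHS.LFT, LHJ.PTH, LHE.EST, LHE.AR1, LHE.AR3, LHE.GDX, LCA.GLU, LCA.DTA, LCA.SEE, LCA.CBL, LCA.SDR -/

section

/-!
# COV: every crossing is an item
-/

namespace LH

open Set LG

namespace COV

theorem key (x : ℤ → ℝ) (E : ℤ → ℤ) (T : ℤ → ℝ) (X : Set ℝ) (F A : ℤ → Prop)
    (mono : ∀ n n', n ≤ n' → E n ≤ E n')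
    (adj : ∀ n, ∀ s ∈ X, ¬ Btw (T n) (T (n + 1)) s)
    (ins : ∀ n m, E n < m → m ≤ E (n + 1) → Btw (T n) (T (n + 1)) (x m))
    (dir : ∀ n, F n ∧ A (n + 1) ∧ T n < T (n + 1) ∨ ¬ F n ∧ ¬ A (n + 1) ∧ T (n + 1) < T n)
    (tl : ∀ n, ¬ (F n ↔ A n) → E n < E (n + 1))
    (okl : ∀ n, ¬ F n → ¬ A n → x (E n + 1) < T n ∧ T n < x (E n))
    (s : ℝ) (hs : s ∈ X) (e : ℤ) (lo : ∃ n, E n < e) (hi : ∃ n, e < E n) (h1 : x e < s)
    (h2 : s < x (e + 1)) : ∃ n, F n ∧ A n ∧ T n = s ∧ E n = e := by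
  by_contra hno
  push Not at hno
  obtain ⟨a, ha⟩ := lo
  obtain ⟨b, hb⟩ := hi
  obtain ⟨n₀, h₀, h₀'⟩ := Int.exists_least_of_bdd (P := fun n => e ≤ E n)
    ⟨a, fun z hz => by
      by_contra hc
      have := mono z a (by omega)
      omega⟩ ⟨b, hb.le⟩
  obtain ⟨n₁, h₁, h₁'⟩ := Int.exists_greatest_of_bdd (P := fun n => E n ≤ e)
    ⟨b, fun z hz => by
      by_contra hc
      have := mono b z (by omega)
      omega⟩ ⟨a, ha.le⟩
  have p₀ : E (n₀ - 1) < e := by
    by_contra hc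
    have := h₀' (n₀ - 1) (by omega)
    omega
  have p₁ : e < E (n₁ + 1) := by
    by_contra hc
    have := h₁' (n₁ + 1) (by omega)
    omega
  have i₀ : Btw (T (n₀ - 1)) (T n₀) (x e) := by
    have := ins (n₀ - 1) e p₀ (by simpa using h₀)
    simpa using this
  have i₁ : Btw (T n₁) (T (n₁ + 1)) (x (e + 1)) := ins n₁ (e + 1) (by omega) (by omega)
  have e₀ : E n₀ = e := by
    by_contra hc
    have h := ins (n₀ - 1) (e + 1) (by omega) (by simp; omega)
    simp only [sub_add_cancel] at h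
    have h' := adj (n₀ - 1) s hs
    simp only [sub_add_cancel] at h'
    rcases i₀ with i | i <;> rcases h with h | h
    · exact h' (Or.inl ⟨i.1.trans h1, h2.trans h.2⟩)
    · linarith [i.1, i.2, h.1, h.2]
    · linarith [i.1, i.2, h.1, h.2]
    · exact h' (Or.inr ⟨i.1.trans h1, h2.trans h.2⟩)
  have e₁ : E n₁ = e := by
    by_contra hc
    have h := ins n₁ e (by omega) (by omega)
    have h' := adj n₁ s hs
    rcases i₁ with i | i <;> rcases h with h | h
    · exact h' (Or.inl ⟨h.1.trans h1, h2.trans i.2⟩)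
    · linarith [i.1, i.2, h.1, h.2]
    · linarith [i.1, i.2, h.1, h.2]
    · exact h' (Or.inr ⟨h.1.trans h1, h2.trans i.2⟩)
  have h01 : n₀ ≤ n₁ := h₁' n₀ e₀.le
  have eq : ∀ k, n₀ ≤ k → k ≤ n₁ → E k = e := fun k hk hk' =>
    le_antisymm ((mono k n₁ hk').trans e₁.le) (e₀.ge.trans (mono n₀ k hk))
  -- the claim
  have claim : ∀ k, n₀ ≤ k → k ≤ n₁ → A k ∧ T (k - 1) < s ∧ T (k - 1) < T k := by
    intro k hk
    induction k, hk using Int.leInduction with
    | base =>
      intro _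
      have d := dir (n₀ - 1)
      simp only [sub_add_cancel] at d
      rcases d with ⟨_, d2, d3⟩ | ⟨_, d2, d3⟩
      · refine ⟨d2, ?_, d3⟩
        rcases i₀ with i | i
        · exact i.1.trans h1
        · linarith [i.1, i.2]
      · exfalso
        have i : T n₀ < x e := by
          rcases i₀ with i | i
          · linarith [i.1, i.2]
          · exact i.1
        by_cases hF : F n₀
        · have := tl n₀ (by simp [hF, d2])
          have hn : n₁ = n₀ := by
            by_contra hc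
            have := eq (n₀ + 1) (by omega) (by omega)
            omega
          subst hn
          rcases dir n₁ with ⟨_, _, d⟩ | ⟨d, _, _⟩
          · rcases i₁ with j | j
            · exact adj n₁ s hs (Or.inl ⟨i.trans h1, h2.trans j.2⟩)
            · linarith [j.1, j.2]
          · exact d hF
        · have := okl n₀ hF d2
          rw [e₀] at this
          linarith [this.1, this.2]
    | succ k hk ih =>
      intro hk'
      obtain ⟨c1, c2, c3⟩ := ih (by omega)
      have ek := eq k hk (by omega)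
      have ek' := eq (k + 1) (by omega) hk'
      have hF : F k := by
        by_contra hF
        have := tl k (by simp [hF, c1])
        omega
      rcases dir k with ⟨_, d2, d3⟩ | ⟨d, _, _⟩
      · refine ⟨d2, ?_, ?_⟩
        · simp only [add_sub_cancel_right]
          have hne := hno k hF c1
          have had := adj (k - 1) s hs
          simp only [sub_add_cancel] at had
          rcases lt_trichotomy (T k) s with h | h | h
          · exact h
          · exact absurd ek (hne h)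
          · exact absurd (Or.inl ⟨c2, h⟩) had
        · simpa using d3
      · exact absurd hF d
  obtain ⟨c1, c2, c3⟩ := claim n₁ h01 le_rfl
  have had := adj (n₁ - 1) s hs
  simp only [sub_add_cancel] at had
  by_cases hF : F n₁
  · rcases dir n₁ with ⟨_, _, d⟩ | ⟨d, _, _⟩
    · rcases lt_trichotomy (T n₁) s with h | h | h
      · rcases i₁ with j | j
        · exact adj n₁ s hs (Or.inl ⟨h, h2.trans j.2⟩)
        · linarith [j.1, j.2]
      · exact hno n₁ hF c1 h e₁
      · exact had (Or.inl ⟨c2, h⟩)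
    · exact d hF
  · rcases dir n₁ with ⟨d, _, _⟩ | ⟨_, _, d⟩
    · exact hF d
    · rcases i₁ with j | j
      · linarith [j.1, j.2]
      · exact had (Or.inl ⟨c2, h2.trans j.2⟩)

theorem btw_neg {a b s : ℝ} : Btw (-a) (-b) (-s) ↔ Btw a b s := by
  simp only [Btw, neg_lt_neg_iff]
  constructor
  · rintro (h | h)
    · exact Or.inr ⟨h.2, h.1⟩
    · exact Or.inl ⟨h.2, h.1⟩
  · rintro (h | h)
    · exact Or.inr ⟨h.2, h.1⟩
    · exact Or.inl ⟨h.2, h.1⟩

theorem kd_cases (k : Kd) : (k.fw ∧ k.ar ∧ k = .rt) ∨ (¬ k.fw ∧ ¬ k.ar ∧ k = .lt) ∨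
    ((k = .R ∨ k = .L) ∧ ¬ (k.fw ↔ k.ar)) := by
  cases k <;> simp [Kd.fw, Kd.ar]

variable {N : ℕ} {P : Pg N} {X : Finset ℝ} {w : List It} {W : ℤ → It}

theorem mono (h : Sq P X w W) (n n' : ℤ) (hn : n ≤ n') : (W n).e ≤ (W n').e := by
  induction n', hn using Int.leInduction with
  | base => exact le_rfl
  | succ k _ ih => exact ih.trans (h.lnk k).le

theorem adj (h : Sq P X w W) (n : ℤ) (s : ℝ) (hs : s ∈ X) : ¬ Btw (W n).t (W (n + 1)).t s := by
  intro hb
  rcases (h.lnk n).adj with ha | ha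
  · rcases hb with hb | hb
    · exact ha.2.2.2 s hs hb
    · linarith [ha.2.2.1, hb.1, hb.2]
  · rcases hb with hb | hb
    · linarith [ha.2.2.1, hb.1, hb.2]
    · exact ha.2.2.2 s hs hb

theorem tl (h : Sq P X w W) (n : ℤ) (hn : ¬ ((W n).k.fw ↔ (W n).k.ar)) :
    (W n).e < (W (n + 1)).e := by
  rcases kd_cases (W n).k with hk | hk | hk
  · exact absurd (iff_of_true hk.1 hk.2.1) hn
  · exact absurd (iff_of_false hk.1 hk.2.1) hn
  · exact (h.lnk n).tl hk.1

theorem pos (h : Sq P X w W) : 0 < N := by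
  rcases Nat.eq_zero_or_pos N with h0 | h0
  · exfalso
    have hm := h.ne
    have hc : ∀ n, (W n).e = (W (n + 1)).e := by
      intro n
      refine le_antisymm (h.lnk n).le ?_
      have h1 := mono h (n + 1) (n + w.length) (by omega)
      rw [h.per n] at h1
      simpa [It.sh, h0] using h1
    have hT : (W (0 + w.length)).t = (W 0).t := by
      rw [h.per 0]
      rfl
    have hfa : ∀ n, ((W n).k.fw ↔ (W n).k.ar) := by
      intro n
      by_contra hn
      have := tl h n hn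
      have := hc n
      omega
    by_cases hF : (W 0).k.fw
    · have hall : ∀ k : ℕ, (W k).k.fw ∧ (0 < k → (W 0).t < (W k).t) := by
        intro k
        induction k with
        | zero => exact ⟨hF, fun h => absurd h (lt_irrefl 0)⟩
        | succ k ih =>
          push_cast
          rcases (h.lnk k).dir with d | d
          · refine ⟨(hfa _).2 d.2.1, fun _ => ?_⟩
            rcases Nat.eq_zero_or_pos k with rfl | hk
            · simpa using d.2.2
            · exact (ih.2 hk).trans d.2.2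
          · exact absurd ih.1 d.1
      have := (hall w.length).2 hm
      rw [zero_add] at hT
      linarith
    · have hall : ∀ k : ℕ, ¬ (W k).k.fw ∧ (0 < k → (W k).t < (W 0).t) := by
        intro k
        induction k with
        | zero => exact ⟨hF, fun h => absurd h (lt_irrefl 0)⟩
        | succ k ih =>
          push_cast
          rcases (h.lnk k).dir with d | d
          · exact absurd d.1 ih.1
          · refine ⟨fun h' => d.2.1 ((hfa _).1 h'), fun _ => ?_⟩
            rcases Nat.eq_zero_or_pos k with rfl | hk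
            · simpa using d.2.2
            · exact d.2.2.trans (ih.2 hk)
      have := (hall w.length).2 hm
      rw [zero_add] at hT
      linarith
  · exact h0

theorem hi (h : Sq P X w W) (e : ℤ) : ∃ n, e < (W n).e := by
  have hN := pos h
  have h1 : ∀ k : ℕ, (W 0).e + k ≤ (W (k * w.length : ℤ)).e := by
    intro k
    induction k with
    | zero => simp
    | succ k ih =>
      have e1 : (((k + 1 : ℕ) : ℤ) * w.length : ℤ) = k * w.length + w.length := by
        push_cast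
        ring
      rw [e1, h.per]
      show _ ≤ (W (k * w.length : ℤ)).e + N
      push_cast
      omega
  refine ⟨((e - (W 0).e + 1).toNat : ℤ) * w.length, ?_⟩
  have := h1 (e - (W 0).e + 1).toNat
  have h2 : e - (W 0).e + 1 ≤ (e - (W 0).e + 1).toNat := Int.self_le_toNat _
  omega

theorem lo (h : Sq P X w W) (e : ℤ) : ∃ n, (W n).e < e := by
  have hN := pos h
  have h1 : ∀ k : ℕ, (W (-(k * w.length : ℤ))).e + k ≤ (W 0).e := by
    intro k
    induction k with
    | zero => simp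
    | succ k ih =>
      have e1 : (-(k * w.length : ℤ)) = -(((k + 1 : ℕ) : ℤ) * w.length : ℤ) + w.length := by
        push_cast
        ring
      rw [e1, h.per] at ih
      have ih' : (W (-(((k + 1 : ℕ) : ℤ) * w.length : ℤ))).e + N + k ≤ (W 0).e := ih
      push_cast at ih' ⊢
      omega
  refine ⟨-(((W 0).e - e + 1).toNat * w.length : ℤ), ?_⟩
  have := h1 ((W 0).e - e + 1).toNat
  have h2 : (W 0).e - e + 1 ≤ ((W 0).e - e + 1).toNat := Int.self_le_toNat _
  omega

end COV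

open _root_.LH.COV in
/-- COV -/
theorem t_COV : Stmt_COV := by
  intro N P X w W h t ht e
  constructor
  · intro h1 h2
    obtain ⟨n, hF, hA, hT, hE⟩ := key P.x (fun n => (W n).e) (fun n => (W n).t) X
      (fun n => (W n).k.fw) (fun n => (W n).k.ar) (mono h) (fun n s hs => adj h n s hs)
      (fun n m => (h.lnk n).ins m) (fun n => (h.lnk n).dir) (tl h)
      (by
        intro n hF hA
        rcases kd_cases (W n).k with hk | hk | hk
        · exact absurd hk.1 hF
        · exact (h.ok n).2 hk.2.2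
        · exact absurd (iff_of_false hF hA) hk.2) t ht e (lo h e) (hi h e) h1 h2
    refine ⟨n, ?_⟩
    rcases kd_cases (W n).k with hk | hk | hk
    · cases hw : W n
      rw [hw] at hk hT hE
      simp only at hk hT hE
      rw [hk.2.2, hT, hE]
    · exact absurd hF hk.1
    · exact absurd (iff_of_true hF hA) hk.2
  · intro h1 h2
    obtain ⟨n, hF, hA, hT, hE⟩ := key (fun i => - P.x i) (fun n => (W n).e)
      (fun n => - (W n).t) {s | -s ∈ X}
      (fun n => ¬ (W n).k.fw) (fun n => ¬ (W n).k.ar) (mono h)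
      (by
        intro n s hs hb
        refine adj h n (-s) hs (btw_neg.1 ?_)
        rwa [neg_neg])
      (by
        intro n m h3 h4
        exact btw_neg.2 ((h.lnk n).ins m h3 h4))
      (by
        intro n
        rcases (h.lnk n).dir with d | d
        · exact Or.inr ⟨not_not.2 d.1, not_not.2 d.2.1, neg_lt_neg d.2.2⟩
        · exact Or.inl ⟨d.1, d.2.1, neg_lt_neg d.2.2⟩)
      (by
        intro n hn
        exact tl h n (fun h' => hn (not_congr h')))
      (by
        intro n hF hA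
        have hF' := not_not.1 hF
        have hA' := not_not.1 hA
        rcases kd_cases (W n).k with hk | hk | hk
        · have := (h.ok n).1 hk.2.2
          exact ⟨neg_lt_neg this.2, neg_lt_neg this.1⟩
        · exact absurd hF' hk.1
        · exact absurd (iff_of_true hF' hA') hk.2) (-t) (by simpa using ht) e (lo h e) (hi h e)
        (neg_lt_neg h2) (neg_lt_neg h1)
    refine ⟨n, ?_⟩
    rcases kd_cases (W n).k with hk | hk | hk
    · exact absurd hk.1 hF
    · cases hw : W n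
      rw [hw] at hk hT hE
      simp only [neg_inj] at hk hT hE
      rw [hk.2.2, hT, hE]
    · exact absurd (iff_of_false hF hA) hk.2

end LH


end

section

/-!
# EWP: the walk without the line `s` is a walk with the lines `Y.erase s`
-/

namespace LH

namespace EWP

open Set LG

variable {N : ℕ}

theorem adj_left {Y : Finset ℝ} {a s x : ℝ} (h : AdjX Y a s) (h' : AdjX Y x s) : x = a := by
  obtain ⟨h1, _, h3, h4⟩ := h
  obtain ⟨k1, _, k3, k4⟩ := h'
  rcases lt_trichotomy x a with hx | hx | hx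
  · exact absurd ⟨hx, h3⟩ (k4 a h1)
  · exact hx
  · exact absurd ⟨hx, k3⟩ (h4 x k1)

theorem adj_right {Y : Finset ℝ} {s d x : ℝ} (h : AdjX Y s d) (h' : AdjX Y s x) : x = d := by
  obtain ⟨_, h2, h3, h4⟩ := h
  obtain ⟨_, k2, k3, k4⟩ := h'
  rcases lt_trichotomy x d with hx | hx | hx
  · exact absurd ⟨k3, hx⟩ (h4 x k2)
  · exact hx
  · exact absurd ⟨h3, hx⟩ (k4 d h2)

theorem adj_new {Y : Finset ℝ} {a s d : ℝ} (h : AdjX Y a s) (h' : AdjX Y s d) :
    AdjX (Y.erase s) a d := by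
  obtain ⟨h1, h2, h3, h4⟩ := h
  obtain ⟨k1, k2, k3, k4⟩ := h'
  refine ⟨Finset.mem_erase.2 ⟨h3.ne, h1⟩, Finset.mem_erase.2 ⟨k3.ne', k2⟩, h3.trans k3, ?_⟩
  intro t ht hh
  obtain ⟨ht1, ht2⟩ := Finset.mem_erase.1 ht
  rcases lt_or_gt_of_ne ht1 with hx | hx
  · exact h4 t ht2 ⟨hh.1, hx⟩
  · exact k4 t ht2 ⟨hx, hh.2⟩

theorem adj_erase {Y : Finset ℝ} {s x y : ℝ} (h : AdjX Y x y) (hx : x ≠ s) (hy : y ≠ s) :
    AdjX (Y.erase s) x y := by
  obtain ⟨h1, h2, h3, h4⟩ := h
  exact ⟨Finset.mem_erase.2 ⟨hx, h1⟩, Finset.mem_erase.2 ⟨hy, h2⟩, h3,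
    fun t ht => h4 t (Finset.mem_of_mem_erase ht)⟩

theorem ri1_ne {a s d : ℝ} {i : It} (h : i.t ≠ s) : ri1 a s d i = some i := by
  simp [ri1, h]

/-- The three possibilities for `ri1`. -/
theorem ri1_cases (a s d : ℝ) (i : It) :
    (i.t ≠ s ∧ ri1 a s d i = some i) ∨
      (i.t = s ∧ i.k = .R ∧ ri1 a s d i = some ⟨.R, d, i.e⟩) ∨
      (i.t = s ∧ i.k = .L ∧ ri1 a s d i = some ⟨.L, a, i.e⟩) ∨
      (i.t = s ∧ (i.k = .rt ∨ i.k = .lt) ∧ ri1 a s d i = none) := by
  by_cases h : i.t = s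
  · obtain ⟨k, t, e⟩ := i
    cases k <;> simp_all [ri1]
  · left; exact ⟨h, ri1_ne h⟩

/-- Direction of a link ending at the line `s`. -/
theorem link_to {P : Pg N} {Y : Finset ℝ} {a s d : ℝ} (hl : AdjX Y a s) (hr : AdjX Y s d)
    {i j : It} (h : Lnk P Y i j) (hj : j.t = s) :
    (i.t = a ∧ i.k.fw ∧ j.k.ar) ∨ (i.t = d ∧ ¬ i.k.fw ∧ ¬ j.k.ar) := by
  have hadj := h.adj
  rw [hj] at hadj
  rcases h.dir with ⟨h1, h2, h3⟩ | ⟨h1, h2, h3⟩
  · rw [hj] at h3
    rcases hadj with ha | ha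
    · exact Or.inl ⟨adj_left hl ha, h1, h2⟩
    · exact absurd ha.2.2.1 (not_lt.2 h3.le)
  · rw [hj] at h3
    rcases hadj with ha | ha
    · exact absurd ha.2.2.1 (not_lt.2 h3.le)
    · exact Or.inr ⟨adj_right hr ha, h1, h2⟩

/-- Direction of a link starting at the line `s`. -/
theorem link_from {P : Pg N} {Y : Finset ℝ} {a s d : ℝ} (hl : AdjX Y a s) (hr : AdjX Y s d)
    {i j : It} (h : Lnk P Y i j) (hi : i.t = s) :
    (j.t = d ∧ i.k.fw ∧ j.k.ar) ∨ (j.t = a ∧ ¬ i.k.fw ∧ ¬ j.k.ar) := by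
  have hadj := h.adj
  rw [hi] at hadj
  rcases h.dir with ⟨h1, h2, h3⟩ | ⟨h1, h2, h3⟩
  · rw [hi] at h3
    rcases hadj with ha | ha
    · exact Or.inl ⟨adj_right hr ha, h1, h2⟩
    · exact absurd ha.2.2.1 (not_lt.2 h3.le)
  · rw [hi] at h3
    rcases hadj with ha | ha
    · exact absurd ha.2.2.1 (not_lt.2 h3.le)
    · exact Or.inr ⟨adj_left hl ha, h1, h2⟩

theorem btw_symm {x y z : ℝ} (h : Btw x y z) : Btw y x z := Or.symm h

theorem btw_as {a s d x : ℝ} (hl : a < s) (hr : s < d) (h : Btw a s x) : Btw a d x := by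
  unfold Btw at *
  rcases h with ⟨h1, h2⟩ | ⟨h1, h2⟩
  · exact Or.inl ⟨h1, h2.trans hr⟩
  · exact absurd (h1.trans h2) (not_lt.2 hl.le)

theorem btw_sd {a s d x : ℝ} (hl : a < s) (hr : s < d) (h : Btw s d x) : Btw a d x := by
  unfold Btw at *
  rcases h with ⟨h1, h2⟩ | ⟨h1, h2⟩
  · exact Or.inl ⟨hl.trans h1, h2⟩
  · exact absurd (h1.trans h2) (not_lt.2 hr.le)

theorem L1 {P : Pg N} {Y : Finset ℝ} {a s d : ℝ} (hl : AdjX Y a s) (hr : AdjX Y s d)
    {i j i' j' : It} (h : Lnk P Y i j) (hi : ri1 a s d i = some i') (hj : ri1 a s d j = some j') :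
    Lnk P (Y.erase s) i' j' := by
  have has := hl.2.2.1
  have hsd := hr.2.2.1
  have hn := adj_new hl hr
  rcases ri1_cases a s d i with ⟨h1, h2⟩ | ⟨h1, h1k, h2⟩ | ⟨h1, h1k, h2⟩ | ⟨h1, h1k, h2⟩
  · rw [h2, Option.some_inj] at hi
    subst hi
    rcases ri1_cases a s d j with ⟨k1, k2⟩ | ⟨k1, k1k, k2⟩ | ⟨k1, k1k, k2⟩ | ⟨k1, k1k, k2⟩
    · rw [k2, Option.some_inj] at hj
      subst hj
      exact ⟨h.le, h.tl, h.adj.imp (fun x => adj_erase x h1 k1) (fun x => adj_erase x k1 h1),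
        h.ins, h.dir⟩
    · rw [k2, Option.some_inj] at hj
      subst hj
      rcases link_to hl hr h k1 with ⟨e1, e2, e3⟩ | ⟨e1, e2, e3⟩
      · refine ⟨h.le, h.tl, Or.inl ?_, ?_, Or.inl ⟨e2, trivial, ?_⟩⟩
        · simp only [e1]; exact hn
        · intro m hm1 hm2
          have := h.ins m hm1 hm2
          rw [e1, k1] at this
          simp only [e1]
          exact btw_as has hsd this
        · simp only [e1]; exact has.trans hsd
      · rw [k1k] at e3
        exact absurd trivial e3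
    · rw [k2, Option.some_inj] at hj
      subst hj
      rcases link_to hl hr h k1 with ⟨e1, e2, e3⟩ | ⟨e1, e2, e3⟩
      · rw [k1k] at e3
        exact e3.elim
      · refine ⟨h.le, h.tl, Or.inr ?_, ?_, Or.inr ⟨e2, fun x => x, ?_⟩⟩
        · simp only [e1]; exact hn
        · intro m hm1 hm2
          have := h.ins m hm1 hm2
          rw [e1, k1] at this
          simp only [e1]
          exact btw_symm (btw_sd has hsd (btw_symm this))
        · simp only [e1]; exact has.trans hsd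
    · rw [k2] at hj
      exact absurd hj (by simp)
  · rw [h2, Option.some_inj] at hi
    subst hi
    rcases link_from hl hr h h1 with ⟨e1, e2, e3⟩ | ⟨e1, e2, e3⟩
    · rw [h1k] at e2
      exact e2.elim
    · have hjs : j.t ≠ s := by rw [e1]; exact has.ne
      rw [ri1_ne hjs, Option.some_inj] at hj
      subst hj
      refine ⟨h.le, fun _ => h.tl (Or.inl h1k), Or.inr ?_, ?_, Or.inr ⟨fun x => x, e3, ?_⟩⟩
      · simp only [e1]; exact hn
      · intro m hm1 hm2
        have := h.ins m hm1 hm2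
        rw [e1, h1] at this
        simp only [e1]
        exact btw_symm (btw_as has hsd (btw_symm this))
      · simp only [e1]; exact has.trans hsd
  · rw [h2, Option.some_inj] at hi
    subst hi
    rcases link_from hl hr h h1 with ⟨e1, e2, e3⟩ | ⟨e1, e2, e3⟩
    · have hjs : j.t ≠ s := by rw [e1]; exact hsd.ne'
      rw [ri1_ne hjs, Option.some_inj] at hj
      subst hj
      refine ⟨h.le, fun _ => h.tl (Or.inr h1k), Or.inl ?_, ?_, Or.inl ⟨trivial, e3, ?_⟩⟩
      · simp only [e1]; exact hn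
      · intro m hm1 hm2
        have := h.ins m hm1 hm2
        rw [e1, h1] at this
        simp only [e1]
        exact btw_sd has hsd this
      · simp only [e1]; exact has.trans hsd
    · rw [h1k] at e2
      exact absurd trivial e2
  · rw [h2] at hi
    exact absurd hi (by simp)

theorem L2 {P : Pg N} {Y : Finset ℝ} {a s d : ℝ} (hl : AdjX Y a s) (hr : AdjX Y s d)
    {i u j : It} (h : Lnk P Y i u) (h' : Lnk P Y u j) (hu : ri1 a s d u = none) :
    ri1 a s d i = some i ∧ ri1 a s d j = some j ∧ Lnk P (Y.erase s) i j := by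
  have has := hl.2.2.1
  have hsd := hr.2.2.1
  have hn := adj_new hl hr
  rcases ri1_cases a s d u with ⟨k1, k2⟩ | ⟨k1, k1k, k2⟩ | ⟨k1, k1k, k2⟩ | ⟨k1, k1k, k2⟩
  · rw [k2] at hu; exact absurd hu (by simp)
  · rw [k2] at hu; exact absurd hu (by simp)
  · rw [k2] at hu; exact absurd hu (by simp)
  · rcases link_to hl hr h k1 with ⟨e1, e2, e3⟩ | ⟨e1, e2, e3⟩
    · rcases link_from hl hr h' k1 with ⟨f1, f2, f3⟩ | ⟨f1, f2, f3⟩
      · have his : i.t ≠ s := by rw [e1]; exact has.ne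
        have hjs : j.t ≠ s := by rw [f1]; exact hsd.ne'
        refine ⟨ri1_ne his, ri1_ne hjs, h.le.trans h'.le, fun x => (h.tl x).trans_le h'.le,
          Or.inl ?_, ?_, Or.inl ⟨e2, f3, ?_⟩⟩
        · rw [e1, f1]; exact hn
        · intro m hm1 hm2
          rw [e1, f1]
          rcases le_or_gt m u.e with hm | hm
          · have := h.ins m hm1 hm
            rw [e1, k1] at this
            exact btw_as has hsd this
          · have := h'.ins m hm hm2
            rw [f1, k1] at this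
            exact btw_sd has hsd this
        · rw [e1, f1]; exact has.trans hsd
      · exfalso
        rcases k1k with hk | hk
        · rw [hk] at f2; exact f2 trivial
        · rw [hk] at e3; exact e3
    · rcases link_from hl hr h' k1 with ⟨f1, f2, f3⟩ | ⟨f1, f2, f3⟩
      · exfalso
        rcases k1k with hk | hk
        · rw [hk] at e3; exact e3 trivial
        · rw [hk] at f2; exact f2
      · have his : i.t ≠ s := by rw [e1]; exact hsd.ne'
        have hjs : j.t ≠ s := by rw [f1]; exact has.ne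
        refine ⟨ri1_ne his, ri1_ne hjs, h.le.trans h'.le, fun x => (h.tl x).trans_le h'.le,
          Or.inr ?_, ?_, Or.inr ⟨e2, f3, ?_⟩⟩
        · rw [e1, f1]; exact hn
        · intro m hm1 hm2
          rw [e1, f1]
          rcases le_or_gt m u.e with hm | hm
          · have := h.ins m hm1 hm
            rw [e1, k1] at this
            exact btw_symm (btw_sd has hsd (btw_symm this))
          · have := h'.ins m hm hm2
            rw [f1, k1] at this
            exact btw_symm (btw_as has hsd (btw_symm this))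
        · rw [e1, f1]; exact has.trans hsd

theorem chain {P : Pg N} {Y : Finset ℝ} {a s d : ℝ} (hl : AdjX Y a s) (hr : AdjX Y s d) :
    ∀ (n : ℕ) (l : List It), l.length ≤ n → ∀ i i' : It, List.IsChain (Lnk P Y) (i :: l) →
      ri1 a s d i = some i' → ri1 a s d ((i :: l).getLast (by simp)) ≠ none →
      List.IsChain (Lnk P (Y.erase s)) ((i :: l).filterMap (ri1 a s d))
  | n, [], _, i, i', _, hi, _ => by
      rw [List.filterMap_cons_some hi]
      simp
  | 0, _ :: _, hn, _, _, _, _, _ => by simp at hn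
  | n + 1, j :: l, hn, i, i', hc, hi, hlast => by
      obtain ⟨h1, h2⟩ := List.isChain_cons_cons.1 hc
      have hlast' : ri1 a s d ((j :: l).getLast (by simp)) ≠ none := by
        simpa using hlast
      cases hj : ri1 a s d j with
      | some j' =>
          have ih := chain hl hr n l (by simp at hn; omega) j j' h2 hj hlast'
          rw [List.filterMap_cons_some hi]
          rw [List.filterMap_cons_some hj] at ih ⊢
          exact List.isChain_cons_cons.2 ⟨L1 hl hr h1 hi hj, ih⟩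
      | none =>
          cases l with
          | nil => exact absurd hj (by simpa using hlast')
          | cons k l =>
              obtain ⟨h3, h4⟩ := List.isChain_cons_cons.1 h2
              obtain ⟨g1, g2, g3⟩ := L2 hl hr h1 h3 hj
              have hlast'' : ri1 a s d ((k :: l).getLast (by simp)) ≠ none := by
                simpa using hlast'
              have ih := chain hl hr n l (by simp at hn; omega) k k h4 g2 hlast''
              rw [List.filterMap_cons_some hi, List.filterMap_cons_none hj]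
              rw [List.filterMap_cons_some g2] at ih ⊢
              rw [g1, Option.some_inj] at hi
              subst hi
              exact List.isChain_cons_cons.2 ⟨g3, ih⟩

theorem ri1_sh (a s d : ℝ) (i : It) : ri1 a s d (i.sh N) = (ri1 a s d i).map (It.sh N) := by
  obtain ⟨k, t, e⟩ := i
  by_cases h : t = s
  · cases k <;> simp [ri1, h, It.sh]
  · simp [ri1, h, It.sh]

theorem lnk_sh {P : Pg N} {Y : Finset ℝ} {i j : It} (h : Lnk P Y i j) :
    Lnk P Y (i.sh N) (j.sh N) := by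
  refine ⟨?_, ?_, h.adj, ?_, h.dir⟩
  · have := h.le
    simp only [It.sh]; omega
  · intro hk
    have := h.tl hk
    simp only [It.sh]; omega
  · intro m hm1 hm2
    simp only [It.sh] at hm1 hm2 ⊢
    have := h.ins (m - N) (by omega) (by omega)
    rw [← P.px (m - N), sub_add_cancel] at this
    exact this

theorem ok_ri {P : Pg N} {a s d : ℝ} {i i' : It} (h : ItOK P i) (hi : ri1 a s d i = some i') :
    ItOK P i' := by
  rcases ri1_cases a s d i with ⟨h1, h2⟩ | ⟨h1, h1k, h2⟩ | ⟨h1, h1k, h2⟩ | ⟨h1, h1k, h2⟩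
  · rw [h2, Option.some_inj] at hi; subst hi; exact h
  · rw [h2, Option.some_inj] at hi; subst hi
    exact ⟨fun x => by simp at x, fun x => by simp at x⟩
  · rw [h2, Option.some_inj] at hi; subst hi
    exact ⟨fun x => by simp at x, fun x => by simp at x⟩
  · rw [h2] at hi; exact absurd hi (by simp)

end EWP

open _root_.LH.EWP in
theorem t_EWP : Stmt_EWP := by
  intro hSEQ N P a b s d Y w W hS _
  obtain ⟨i, w', rfl, hok, hch⟩ := hSEQ.ew P Y w W hS.sq
  have hl := hS.l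
  have hr := hS.r
  have hok' : ∀ j ∈ riv a s d (i :: w'), ItOK P j := by
    intro j hj
    obtain ⟨k, hk, hkj⟩ := List.mem_filterMap.1 hj
    exact ok_ri (hok k hk) hkj
  cases hi : ri1 a s d i with
  | some i' =>
      have hsh : ri1 a s d (i.sh N) = some (i'.sh N) := by rw [ri1_sh, hi]; rfl
      have hc := chain hl hr _ (w' ++ [i.sh N]) le_rfl i i' (by simpa using hch) hi (by
        have : (i :: (w' ++ [i.sh N])).getLast (by simp) = i.sh N := by simp
        rw [this, hsh]; simp)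
      refine ⟨i', riv a s d w', ?_, hok', ?_⟩
      · unfold riv; rw [List.filterMap_cons_some hi]
      · have e : (i :: (w' ++ [i.sh N])).filterMap (ri1 a s d) =
            riv a s d (i :: w') ++ [i'.sh N] := by
          unfold riv
          rw [← List.cons_append, List.filterMap_append, List.filterMap_cons_some hsh]
          simp
        rw [e] at hc
        exact hc
  | none =>
      cases w' with
      | nil =>
          exfalso
          have h : Lnk P Y i (i.sh N) := by simpa using hch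
          rcases h.dir with ⟨_, _, h3⟩ | ⟨_, _, h3⟩
          · exact absurd h3 (lt_irrefl _)
          · exact absurd h3 (lt_irrefl _)
      | cons j w' =>
          have hch' : List.IsChain (Lnk P Y) (i :: j :: (w' ++ [i.sh N])) := by simpa using hch
          obtain ⟨h1, h2⟩ := List.isChain_cons_cons.1 hch'
          have hsi : ri1 a s d (i.sh N) = none := by rw [ri1_sh, hi]; rfl
          -- the item `j` survives
          have hits : i.t = s := by
            rcases ri1_cases a s d i with ⟨_, h2⟩ | ⟨h1, _, _⟩ | ⟨h1, _, _⟩ | ⟨h1, _, _⟩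
            · rw [h2] at hi; exact absurd hi (by simp)
            · exact h1
            · exact h1
            · exact h1
          have hjs : j.t ≠ s := by
            intro hj
            rcases h1.dir with ⟨_, _, h3⟩ | ⟨_, _, h3⟩
            · rw [hj, hits] at h3; exact absurd h3 (lt_irrefl _)
            · rw [hj, hits] at h3; exact absurd h3 (lt_irrefl _)
          have hj : ri1 a s d j = some j := ri1_ne hjs
          have hsj : ri1 a s d (j.sh N) = some (j.sh N) := by rw [ri1_sh, hj]; rfl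
          have hlong : List.IsChain (Lnk P Y) (j :: (w' ++ [i.sh N, j.sh N])) := by
            have e : j :: (w' ++ [i.sh N, j.sh N]) = (j :: (w' ++ [i.sh N])) ++ [j.sh N] := by
              simp
            rw [e]
            rw [List.isChain_append]
            refine ⟨h2, by simp, ?_⟩
            intro x hx y hy
            have hx' : x = i.sh N := by
              have : (j :: (w' ++ [i.sh N])).getLast? = some (i.sh N) := by
                rw [← List.cons_append, List.getLast?_append]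
                simp
              rw [this] at hx
              exact (Option.mem_some.1 hx).symm
            have hy' : y = j.sh N := by simpa using hy.symm
            rw [hx', hy']
            exact lnk_sh h1
          have hc := chain hl hr _ (w' ++ [i.sh N, j.sh N]) le_rfl j j hlong hj (by
            have : (j :: (w' ++ [i.sh N, j.sh N])).getLast (by simp) = j.sh N := by simp
            rw [this, hsj]; simp)
          refine ⟨j, riv a s d w', ?_, hok', ?_⟩
          · unfold riv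
            rw [List.filterMap_cons_none hi, List.filterMap_cons_some hj]
          · have e : (j :: (w' ++ [i.sh N, j.sh N])).filterMap (ri1 a s d) =
                riv a s d (i :: j :: w') ++ [j.sh N] := by
              unfold riv
              rw [List.filterMap_cons_none hi, ← List.cons_append, List.filterMap_append,
                List.filterMap_cons_none hsi, List.filterMap_cons_some hsj]
              simp
            rw [e] at hc
            exact hc

end LH


end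

section

/-!
# Walks of polygons as periodic sequences
-/

namespace LH

open Set LG

namespace SEQ

theorem mem_cp_iff {α : Type*} (w : List α) (p q : α) :
    (p, q) ∈ cp w ↔ ∃ (i : ℕ) (h : i < w.length), w[i] = p ∧
      w[(i + 1) % w.length]'(Nat.mod_lt _ (Nat.lt_of_le_of_lt (Nat.zero_le _) h)) = q := by
  unfold cp
  constructor
  · intro h
    obtain ⟨i, hi, he⟩ := List.mem_iff_getElem.1 h
    have hi' : i < w.length := by
      simp only [List.length_zip, List.length_rotate] at hi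
      omega
    refine ⟨i, hi', ?_⟩
    rw [List.getElem_zip, List.getElem_rotate] at he
    exact Prod.mk.inj he
  · rintro ⟨i, hi, h1, h2⟩
    refine List.mem_iff_getElem.2 ⟨i, by simp [List.length_zip, hi], ?_⟩
    rw [List.getElem_zip, List.getElem_rotate, h1, h2]

variable {N : ℕ}

/-- The same item `c` periods later. -/
def shz (N : ℕ) (c : ℤ) (i : It) : It := { i with e := i.e + c * N }

theorem shz_zero (i : It) : shz N 0 i = i := by
  simp [shz]

theorem sh_eq (i : It) : i.sh N = shz N 1 i := by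
  simp [shz, It.sh]

theorem sh_shz (c : ℤ) (i : It) : (shz N c i).sh N = shz N (c + 1) i := by
  simp only [shz, It.sh, It.mk.injEq, true_and]
  ring

theorem shz_shz (c d : ℤ) (i : It) : shz N c (shz N d i) = shz N (d + c) i := by
  simp only [shz, It.mk.injEq, true_and]
  ring

variable {P : Pg N} {X : Finset ℝ}

theorem px_shift (hP : P_PGB) (i c : ℤ) : P.x (i + c * N) = P.x i := (hP.sh P i c).1

theorem ok_shz (hP : P_PGB) {i : It} (h : ItOK P i) (c : ℤ) : ItOK P (shz N c i) := by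
  have h1 : P.x (i.e + c * N) = P.x i.e := px_shift hP _ _
  have h2 : P.x (i.e + c * N + 1) = P.x (i.e + 1) := by
    rw [show i.e + c * N + 1 = i.e + 1 + c * N by ring]
    exact px_shift hP _ _
  constructor
  · intro hk
    change P.x (i.e + c * N) < i.t ∧ i.t < P.x (i.e + c * N + 1)
    rw [h1, h2]
    exact h.1 hk
  · intro hk
    change P.x (i.e + c * N + 1) < i.t ∧ i.t < P.x (i.e + c * N)
    rw [h1, h2]
    exact h.2 hk

theorem lnk_shz (hP : P_PGB) {i j : It} (h : Lnk P X i j) (c : ℤ) :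
    Lnk P X (shz N c i) (shz N c j) where
  le := by
    change i.e + c * N ≤ j.e + c * N
    linarith [h.le]
  tl := by
    intro hk
    change i.e + c * N < j.e + c * N
    linarith [h.tl hk]
  adj := h.adj
  ins := by
    intro m h1 h2
    change i.e + c * N < m at h1
    change m ≤ j.e + c * N at h2
    have h3 := h.ins (m - c * N) (by linarith) (by linarith)
    have h4 : P.x (m - c * N) = P.x m := by
      rw [← px_shift hP (m - c * N) c]
      congr 1
      ring
    rw [h4] at h3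
    exact h3
  dir := h.dir

/-- Shifting by periods. -/
theorem per_z {w : List It} {W : ℤ → It} (h : Sq P X w W) (n c : ℤ) :
    W (n + c * w.length) = shz N c (W n) := by
  induction c using Int.induction_on with
  | zero => rw [zero_mul, add_zero, shz_zero]
  | succ c ih =>
    rw [show n + ((c : ℤ) + 1) * w.length = n + c * w.length + w.length by ring, h.per, ih, sh_shz]
  | pred c ih =>
    have h1 := h.per (n + (-(c : ℤ) - 1) * w.length)
    rw [show n + (-(c : ℤ) - 1) * w.length + w.length = n + -(c : ℤ) * w.length by ring, ih] at h1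
    have h2 := congrArg (shz N (-1)) h1
    rw [sh_eq, shz_shz, shz_shz] at h2
    rw [show (1 : ℤ) + -1 = 0 by ring, shz_zero] at h2
    rw [← h2]
    congr 1

theorem mod_div {w : List It} {W : ℤ → It} (h : Sq P X w W) (n : ℤ) :
    ∃ k : ℕ, ∃ hk : k < w.length, (k : ℤ) = n % w.length ∧ W n = shz N (n / w.length) w[k] := by
  have hm : (0 : ℤ) < w.length := by exact_mod_cast h.ne
  have h1 : 0 ≤ n % w.length := Int.emod_nonneg _ hm.ne'
  have h2 : n % w.length < w.length := Int.emod_lt_of_pos _ hm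
  refine ⟨(n % w.length).toNat, by omega, Int.toNat_of_nonneg h1, ?_⟩
  rw [h.get, Int.toNat_of_nonneg h1, ← per_z h]
  congr 1
  have h3 := Int.emod_add_mul_ediv n w.length
  linarith

theorem pt_shz (hP : P_PGB) (c : ℤ) (i : It) : pt P (shz N c i) = pt P i := by
  change (⟨i.k, i.t, P.l (i.e + c * N) i.t⟩ : Pt) = ⟨i.k, i.t, P.l i.e i.t⟩
  rw [(hP.sh P i.e c).2.2.2 i.t]

theorem ex (hP : P_PGB) (w : List It) (h : EW P X w) : ∃ W, Sq P X w W := by
  obtain ⟨i, w', hw, hok, hc⟩ := h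
  have hne : 0 < w.length := by rw [hw]; simp
  have hm : (0 : ℤ) < w.length := by exact_mod_cast hne
  have hget : ∀ (k : ℕ) (hk : k < w.length), w.getD k i = w[k] := fun k hk =>
    List.getD_eq_getElem w i hk
  have h0 : w[0] = i := by simp [hw]
  have hch := List.isChain_iff_getElem.1 hc
  -- the steps of the chain
  have hstep : ∀ (k : ℕ) (hk : k + 1 < w.length), Lnk P X (w[k]'(by omega)) w[k + 1] := by
    intro k hk
    have h1 := hch k (by rw [List.length_append]; simp; omega)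
    rw [List.getElem_append_left (by omega), List.getElem_append_left hk] at h1
    exact h1
  have hlast : ∀ (k : ℕ) (hk : k + 1 = w.length), Lnk P X (w[k]'(by omega)) (i.sh N) := by
    intro k hk
    have h1 := hch k (by rw [List.length_append]; simp; omega)
    rw [List.getElem_append_left (by omega), List.getElem_append_right (by omega)] at h1
    simpa using h1
  refine ⟨fun n => shz N (n / w.length) (w.getD (n % w.length).toNat i), hne, ?_, ?_, ?_, ?_⟩
  · intro n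
    have e1 : (n + (w.length : ℤ)) / w.length = n / w.length + 1 := by
      have := Int.add_mul_ediv_right n 1 hm.ne'
      rwa [one_mul] at this
    rw [Int.add_emod_right, e1, sh_shz]
  · intro n
    obtain ⟨k, hk⟩ : ∃ k : ℕ, (k : ℤ) = n % w.length :=
      ⟨(n % w.length).toNat, Int.toNat_of_nonneg (Int.emod_nonneg _ hm.ne')⟩
    have hk1 : k < w.length := by
      have := Int.emod_lt_of_pos n hm
      omega
    have hn : n = k + n / w.length * w.length := by
      have := Int.emod_add_mul_ediv n w.length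
      rw [← hk] at this
      linarith
    have e1 : (n % w.length).toNat = k := by omega
    rw [e1, hget k hk1]
    rcases Nat.lt_or_ge (k + 1) w.length with h1 | h1
    · have e2 : (n + 1) % w.length = ((k + 1 : ℕ) : ℤ) := by
        have e3 : n + 1 = ((k + 1 : ℕ) : ℤ) + n / w.length * w.length := by
          push_cast
          linarith
        rw [e3, Int.add_mul_emod_self_right]
        exact Int.emod_eq_of_lt (by omega) (by omega)
      have e4 : (n + 1) / w.length = n / w.length := by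
        have e3 : n + 1 = ((k + 1 : ℕ) : ℤ) + n / w.length * w.length := by
          push_cast
          linarith
        rw [e3, Int.add_mul_ediv_right _ _ hm.ne', Int.ediv_eq_zero_of_lt (by omega) (by omega),
          zero_add]
      rw [e2, e4, Int.toNat_natCast, hget _ h1]
      exact lnk_shz hP (hstep k h1) _
    · have h2 : k + 1 = w.length := by omega
      have e3 : n + 1 = (n / w.length + 1) * w.length := by
        have : (k : ℤ) + 1 = w.length := by exact_mod_cast h2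
        linarith
      have e2 : (n + 1) % w.length = 0 := by
        rw [e3, Int.mul_emod_left]
      have e4 : (n + 1) / w.length = n / w.length + 1 := by
        rw [e3, Int.mul_ediv_cancel _ hm.ne']
      rw [e2, e4, Int.toNat_zero, hget 0 hne, h0]
      have h3 := lnk_shz hP (hlast k h2) (n / w.length)
      rw [sh_eq, shz_shz, add_comm] at h3
      exact h3
  · intro n
    refine ok_shz hP (hok _ ?_) _
    have h1 := Int.emod_nonneg n hm.ne'
    have h2 := Int.emod_lt_of_pos n hm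
    rw [hget _ (by omega : (n % w.length).toNat < w.length)]
    exact List.getElem_mem _
  · intro k hk
    rw [Int.ediv_eq_zero_of_lt (by omega) (by omega), shz_zero,
      Int.emod_eq_of_lt (by omega) (by omega), Int.toNat_natCast, hget k hk]

theorem ew (w : List It) (W : ℤ → It) (h : Sq P X w W) : EW P X w := by
  obtain ⟨i, w', hw⟩ := List.exists_cons_of_length_pos h.ne
  have h0 : i = W 0 := by
    have h1 := h.get 0 h.ne
    rw [← Nat.cast_zero, ← h1]
    simp [hw]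
  refine ⟨i, w', hw, ?_, ?_⟩
  · intro j hj
    obtain ⟨k, hk, rfl⟩ := List.mem_iff_getElem.1 hj
    rw [h.get k hk]
    exact h.ok k
  · refine List.isChain_iff_getElem.2 fun k hk => ?_
    rw [List.length_append, List.length_singleton] at hk
    have hk1 : k < w.length := by omega
    rw [List.getElem_append_left hk1, h.get k hk1]
    rcases Nat.lt_or_ge (k + 1) w.length with h1 | h1
    · rw [List.getElem_append_left h1, h.get _ h1]
      push_cast
      exact h.lnk k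
    · rw [List.getElem_append_right h1]
      have h2 : k + 1 = w.length := by omega
      have h3 : (W 0).sh N = W (k + 1) := by
        rw [← h.per, zero_add, ← h2]
        push_cast
        rfl
      simp only [List.getElem_singleton]
      rw [h0, h3]
      exact h.lnk k

theorem rot (hP : P_PGB) (i : It) (w : List It) (h : EW P X (i :: w)) :
    EW P X (w ++ [i.sh N]) := by
  obtain ⟨W, hW⟩ := ex hP _ h
  have hlen : (w ++ [i.sh N]).length = (i :: w).length := by simp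
  refine ew _ (fun n => W (n + 1)) ⟨by rw [hlen]; exact hW.ne, ?_, ?_, ?_, ?_⟩
  · intro n
    rw [hlen]
    rw [← hW.per (n + 1)]
    congr 1
    ring
  · intro n
    exact hW.lnk (n + 1)
  · intro n
    exact hW.ok (n + 1)
  · intro k hk
    rw [hlen, List.length_cons] at hk
    rcases Nat.lt_or_ge k w.length with h1 | h1
    · rw [List.getElem_append_left h1]
      have h2 := hW.get (k + 1) (by simp; omega)
      rw [List.getElem_cons_succ] at h2
      rw [h2]
      push_cast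
      rfl
    · have h2 : k = w.length := by omega
      rw [List.getElem_append_right h1]
      simp only [List.getElem_singleton]
      have h3 := hW.get 0 hW.ne
      rw [List.getElem_cons_zero, Nat.cast_zero] at h3
      rw [h3, ← hW.per, zero_add, List.length_cons, h2]
      push_cast
      rfl

theorem pt_mod (hP : P_PGB) {w : List It} {W : ℤ → It} (h : Sq P X w W) (n c : ℤ) :
    pt P (W (n + c * w.length)) = pt P (W n) := by
  rw [per_z h, pt_shz hP]

theorem cp_iff (hP : P_PGB) (w : List It) (W : ℤ → It) (h : Sq P X w W) (x : Pt × Pt) :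
    x ∈ cp (w.map (pt P)) ↔ ∃ n, x = (pt P (W n), pt P (W (n + 1))) := by
  have hm : (0 : ℤ) < w.length := by exact_mod_cast h.ne
  -- the pair at the place `k`
  have hpair : ∀ (k : ℕ) (hk : k < w.length),
      (w.map (pt P))[k]'(by simpa using hk) = pt P (W k) ∧
      (w.map (pt P))[(k + 1) % (w.map (pt P)).length]'(by
        rw [List.length_map]; exact Nat.mod_lt _ h.ne) = pt P (W ((k : ℤ) + 1)) := by
    intro k hk
    constructor
    · rw [List.getElem_map, h.get k hk]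
    · rw [List.getElem_map, h.get _ (by rw [List.length_map]; exact Nat.mod_lt _ h.ne),
        List.length_map]
      have h1 : ((k : ℤ) + 1) = (((k + 1) % w.length : ℕ) : ℤ) +
          ((k + 1) / w.length : ℤ) * w.length := by
        push_cast
        have := Int.emod_add_mul_ediv ((k : ℤ) + 1) w.length
        linarith
      conv_rhs => rw [h1]
      rw [pt_mod hP h]
  obtain ⟨a, b⟩ := x
  rw [mem_cp_iff]
  constructor
  · rintro ⟨k, hk, h1, h2⟩
    have hk' : k < w.length := by simpa using hk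
    obtain ⟨h3, h4⟩ := hpair k hk'
    exact ⟨k, by rw [← h1, ← h2, h3, h4]⟩
  · rintro ⟨n, hn⟩
    obtain ⟨k, hk, hkn, -⟩ := mod_div h n
    obtain ⟨h3, h4⟩ := hpair k hk
    have hn1 : n = (k : ℤ) + n / w.length * w.length := by
      have := Int.emod_add_mul_ediv n w.length
      rw [← hkn] at this
      linarith
    have h5 : pt P (W n) = pt P (W k) := by
      rw [hn1, pt_mod hP h]
    have h6 : pt P (W (n + 1)) = pt P (W ((k : ℤ) + 1)) := by
      rw [show n + 1 = ((k : ℤ) + 1) + n / w.length * w.length by linarith, pt_mod hP h]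
    rw [h5, h6] at hn
    obtain ⟨rfl, rfl⟩ := Prod.mk.inj hn
    exact ⟨k, by simpa using hk, h3, h4⟩

end SEQ

/-- SEQ: existence, conversely, rotation, `cp`, `mem`. -/
theorem t_SEQ : Stmt_SEQ := by
  intro hP
  refine ⟨fun P X w h => SEQ.ex hP w h, fun P X w W h => SEQ.ew w W h,
    fun P X i w h => SEQ.rot hP i w h, fun P X w W h x => SEQ.cp_iff hP w W h x, ?_⟩
  intro N P X w W h n
  obtain ⟨k, hk, -, h1⟩ := SEQ.mod_div h n
  exact ⟨w[k], List.getElem_mem hk, n / w.length, by rw [h1]; rfl, by rw [h1]; rfl,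
    by rw [h1]; rfl⟩

end LH


end

section

/-!
# TRA: removal of the highest point of a line
-/

namespace LH

open Set LG

namespace TRA

lemma c_lt {p q : Pt} : p.c < q.c ↔ p.t < q.t ∨ p.t = q.t ∧ p.h < q.h := by
  unfold Pt.c
  exact Prod.Lex.toLex_lt_toLex

lemma r_lt {p q : Pt} : p.r < q.r ↔ q.t < p.t ∨ p.t = q.t ∧ p.h < q.h := by
  unfold Pt.r
  rw [Prod.Lex.toLex_lt_toLex]
  simp only [neg_lt_neg_iff, neg_inj]

lemma nu1 {x a b : Q} (h1 : x < a) (h2 : x < b) : x ∉ uIcc a b := by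
  intro h
  rw [uIcc, mem_Icc] at h
  exact absurd h.1 (not_le.2 (lt_min h1 h2))

lemma nu2 {x a b : Q} (h1 : a < x) (h2 : b < x) : x ∉ uIcc a b := by
  intro h
  rw [uIcc, mem_Icc] at h
  exact absurd h.2 (not_le.2 (max_lt h1 h2))

lemma cp_mem {α : Type*} {w : List α} {x : α × α} (h : x ∈ cp w) : x.1 ∈ w ∧ x.2 ∈ w := by
  unfold cp at h
  have h' : (x.1, x.2) ∈ w.zip (w.rotate 1) := h
  have := List.of_mem_zip h'
  exact ⟨this.1, List.mem_rotate.1 this.2⟩

lemma lk_mem {w : List Pt} {p q : Pt} (h : Lk w p q) : p ∈ w ∧ q ∈ w := by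
  rcases h.2 with h | h
  · exact cp_mem h
  · exact (cp_mem h).symm

/-- The first element of a list has a successor. -/
lemma ex_suc {α : Type*} (u : α) (T : List α) : ∃ q, (u, q) ∈ cp (u :: T) := by
  cases T with
  | nil => exact ⟨u, by simp [cp]⟩
  | cons q T => exact ⟨q, by simp [cp]⟩

/-- The first element of a list has a predecessor. -/
lemma ex_pre {α : Type*} (u : α) (T : List α) : ∃ p, (p, u) ∈ cp (u :: T) := by
  rcases List.eq_nil_or_concat T with h | ⟨T', p, h⟩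
  · exact ⟨u, by simp [cp, h]⟩
  · refine ⟨p, ?_⟩
    rw [h, List.concat_eq_append]
    have h1 : cp (u :: (T' ++ [p])) = (u :: T').zip (T' ++ [p]) ++ [(p, u)] := by
      unfold cp
      have h2 : (u :: (T' ++ [p])).rotate 1 = (T' ++ [p]) ++ [u] := by simp
      rw [h2, ← List.cons_append, List.zip_append (by simp)]
      rfl
    rw [h1]
    simp

/-- Two points with equal columns are equal. -/
lemma col_ne {u y : Pt} {T : List Pt} (hnd : (ents (u :: T)).Nodup) (hu : u.k ≠ .L)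
    (hy : y ∈ T) (hyk : y.k ≠ .L) : y.c ≠ u.c := by
  intro he
  have h1 : Sum.inl u.c ∈ ent u := by
    unfold ent
    cases h : u.k <;> simp_all
  have h2 : Sum.inl y.c ∈ ent y := by
    unfold ent
    cases h : y.k <;> simp_all
  have h3 : Sum.inl y.c ∈ ents T := by
    unfold ents
    exact List.mem_flatMap.2 ⟨y, hy, h2⟩
  have h4 : ents (u :: T) = ent u ++ ents T := by
    unfold ents
    simp
  rw [h4, List.nodup_append] at hnd
  exact hnd.2.2 _ h1 _ h3 (by rw [he])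

end TRA

open _root_.LH.TRA

theorem t_TRA : Stmt_TRA := by
  intro hWEB hCWA hDEL hFRM hFLM u T a s d el er hR hut hmax hCW
  have hw := hR.cw
  have uw : u ∈ u :: T := List.mem_cons_self
  obtain ⟨p, hp⟩ := ex_pre u T
  obtain ⟨q, hq⟩ := ex_suc u T
  have hSp := hw.st _ hp
  have hSq := hw.st _ hq
  simp only [Stp] at hSp hSq
  -- points above `u` on the line `s` do not exist
  have habove : ∀ x ∈ u :: T, x.t = s → x.h ≤ u.h := by
    intro x hx hxs
    rcases List.mem_cons.1 hx with h | h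
    · rw [h]
    · exact hmax x h hxs
  -- rows between `u.r` and a row of the line `a`
  have hrow : ∀ (m : ℝ) (R : Q), R = toLex (-a, m) → ∀ x ∈ u :: T, Btw u.r R x.r →
      x.t = a ∧ x.h < m := by
    intro m R hRm x hx hb
    have e1 : u.r < R := by
      rw [hRm]
      unfold Pt.r
      rw [Prod.Lex.toLex_lt_toLex]
      left
      simp only [hut]
      linarith [hR.lt₁]
    rcases hb with ⟨h1, h2⟩ | ⟨h1, h2⟩
    · rw [r_lt] at h1
      rw [hRm] at h2
      unfold Pt.r at h2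
      rw [Prod.Lex.toLex_lt_toLex] at h2
      simp only [neg_lt_neg_iff, neg_inj] at h2
      rcases hR.ln x hx with h | h | h
      · rcases h2 with h2 | h2
        · exact absurd h2 (not_lt.2 h)
        · exact h2
      · have h3 := habove x hx h
        rcases h1 with h1 | h1
        · rw [hut, h] at h1
          exact absurd h1 (lt_irrefl _)
        · exact absurd h1.2 (not_lt.2 h3)
      · rcases h1 with h1 | h1
        · linarith [hR.lt₂]
        · linarith [hR.lt₂]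
    · exact absurd (h1.trans h2) (not_lt.2 e1.le)
  -- columns between `u.c` and a column of the line `d`
  have hcol : ∀ (m : ℝ) (C : Q), C = toLex (d, m) → ∀ x ∈ u :: T, Btw u.c C x.c →
      x.t = d ∧ x.h < m := by
    intro m C hCm x hx hb
    have e1 : u.c < C := by
      rw [hCm]
      unfold Pt.c
      rw [Prod.Lex.toLex_lt_toLex]
      left
      simp only [hut]
      exact hR.lt₂
    rcases hb with ⟨h1, h2⟩ | ⟨h1, h2⟩
    · rw [c_lt] at h1
      rw [hCm] at h2
      unfold Pt.c at h2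
      rw [Prod.Lex.toLex_lt_toLex] at h2
      simp only at h2
      rcases hR.ln x hx with h | h | h
      · rcases h1 with h1 | h1
        · linarith [hR.lt₁]
        · linarith [hR.lt₁]
      · have h3 := habove x hx h
        rcases h1 with h1 | h1
        · rw [hut, h] at h1
          exact absurd h1 (lt_irrefl _)
        · exact absurd h1.2 (not_lt.2 h3)
      · rcases h2 with h2 | h2
        · exact absurd h2 (not_lt.2 h)
        · exact h2
    · exact absurd (h1.trans h2) (not_lt.2 e1.le)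
  have has : a < s := hR.lt₁
  have hsd : s < d := hR.lt₂
  -- the passing case
  have main : ∀ l g : Pt, (u.k = .rt ∨ u.k = .lt) → Lk (u :: T) l u → Lk (u :: T) u g →
      WE (ents (u :: T)) (ents T) := by
    intro l g hk hl hg
    have hrm : rm1 a s d el er u = none := by
      unfold rm1
      rw [if_pos hut]
      rcases hk with hk | hk <;> rw [hk]
    rw [hrm] at hCW
    have hCT : CW T := hCW
    have hukL : u.k ≠ .L := by rcases hk with hk | hk <;> rw [hk] <;> simp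
    have hukR : u.k ≠ .R := by rcases hk with hk | hk <;> rw [hk] <;> simp
    have hla : l.t = a := (hR.lk _ _ hl).2.1 hut
    have hgd : g.t = d := (hR.lk _ _ hg).1 hut
    have hlr : l.r = toLex (-a, l.h) := by unfold Pt.r; rw [hla]
    have hlK : l.h ∈ KS (u :: T) el u := Or.inl ⟨l, hl, rfl⟩
    have hgK : g.h ∈ RS (u :: T) er u := Or.inl ⟨g, hg, rfl⟩
    -- points with a column on the line `s`
    have hcs : ∀ y ∈ u :: T, y ≠ u → y.k ≠ .L → y.t = s → y.c < u.c := by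
      intro y hy hyu hyk hys
      have hyT : y ∈ T := by
        rcases List.mem_cons.1 hy with h | h
        · exact absurd h hyu
        · exact h
      have h1 := col_ne hw.nd hukL hyT hyk
      have h2 := habove y hy hys
      rw [c_lt]
      right
      refine ⟨by rw [hys, hut], lt_of_le_of_ne h2 ?_⟩
      intro h3
      apply h1
      unfold Pt.c
      rw [h3, hys, hut]
    refine hDEL u T l g hw hCT hk hl hg ?_ ?_ ?_
    · intro x y hxy hb
      have hx := (lk_mem hxy).1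
      have hy := (lk_mem hxy).2
      obtain ⟨hxa, hxh⟩ := hrow l.h l.r hlr x hx hb
      have hlt := hxy.1
      rcases hR.ln y hy with h | h | h
      · linarith
      · left
        refine hcs y hy ?_ (hCWA.kl _ hw _ _ hxy).2 h
        intro hyu
        rw [hyu] at hxy
        have := hCWA.lft _ hw _ _ _ hxy hl hukR
        rw [this] at hxh
        exact lt_irrefl _ hxh
      · right
        have hyd := ((hR.lk _ _ hxy).2.2 (by linarith) (by linarith)).2
        rw [c_lt]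
        right
        refine ⟨by rw [hgd, hyd], ?_⟩
        rcases hR.lg _ _ hxy hxa hyd u uw hut with h4 | h4
        · exact absurd (h4 _ hlK) (not_lt.2 hxh.le)
        · exact h4 _ hgK
    · intro x hx _ hb
      left
      obtain ⟨hxa, _⟩ := hrow l.h l.r hlr x (List.mem_cons_of_mem _ hx) hb
      rw [c_lt]
      left
      rw [hxa, hut]
      exact has
    · intro _ o ho hou
      have hoM := (lk_mem ho).2
      have hlt := ho.1
      rcases hR.ln o hoM with h | h | h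
      · linarith
      · left
        exact hcs o hoM hou (hCWA.kl _ hw _ _ ho).2 h
      · right
        have hyd := ((hR.lk _ _ ho).2.2 (by linarith) (by linarith)).2
        rw [c_lt]
        right
        refine ⟨by rw [hgd, hyd], ?_⟩
        rcases hR.lg _ _ ho hla hyd u uw hut with h4 | h4
        · exact absurd (h4 _ hlK) (lt_irrefl _)
        · exact h4 _ hgK
  cases hk : u.k with
  | rt =>
    have hrm : rm1 a s d el er u = none := by
      unfold rm1
      rw [if_pos hut, hk]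
    rw [hk] at hSp hSq
    simp only [Kd.fw, Kd.ar, not_true_eq_false, false_and, and_false, or_false,
      true_and] at hSp hSq
    rw [hrm]
    exact main p q (Or.inl hk) ⟨hSp.2, Or.inl hp⟩ ⟨hSq.2, Or.inl hq⟩
  | lt =>
    have hrm : rm1 a s d el er u = none := by
      unfold rm1
      rw [if_pos hut, hk]
    rw [hk] at hSp hSq
    simp only [Kd.fw, Kd.ar, not_false_eq_true, false_and, and_false, false_or, true_and] at hSp hSq
    rw [hrm]
    exact main q p (Or.inr hk) ⟨hSq.2, Or.inr hq⟩ ⟨hSp.2, Or.inr hp⟩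
  | R =>
    have hrm : rm1 a s d el er u = some ⟨.R, d, er u⟩ := by
      unfold rm1
      rw [if_pos hut, hk]
    rw [hk] at hSp hSq
    simp only [Kd.fw, Kd.ar, not_true_eq_false, not_false_eq_true, false_and, and_false, or_false,
      false_or, true_and] at hSp hSq
    rw [hrm] at hCW ⊢
    have hLp : Lk (u :: T) p u := ⟨hSp.2, Or.inl hp⟩
    have hLq : Lk (u :: T) q u := ⟨hSq.2, Or.inr hq⟩
    have hpa : p.t = a := (hR.lk _ _ hLp).2.1 hut
    have hqa : q.t = a := (hR.lk _ _ hLq).2.1 hut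
    have huc : (⟨.R, d, er u⟩ : Pt).c = toLex (d, er u) := rfl
    have heK : er u ∈ RS (u :: T) er u := Or.inr ⟨hk, rfl⟩
    refine hFRM u ⟨.R, d, er u⟩ T p q hw hCW hk rfl hp hq ?_ ?_
    · intro x y hxy hb
      have hx := (lk_mem hxy).1
      have hy := (lk_mem hxy).2
      obtain ⟨hyd, hyh⟩ := hcol (er u) _ huc y hy hb
      have hlt := hxy.1
      rcases hR.ln x hx with h | h | h
      · have hxa := ((hR.lk _ _ hxy).2.2 (by linarith) (by linarith)).1
        rcases hR.lg _ _ hxy hxa hyd u uw hut with h4 | h4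
        · apply nu2
          · rw [r_lt]
            right
            exact ⟨by rw [hpa, hxa], h4 _ (Or.inl ⟨p, hLp, rfl⟩)⟩
          · rw [r_lt]
            right
            exact ⟨by rw [hqa, hxa], h4 _ (Or.inl ⟨q, hLq, rfl⟩)⟩
        · exact absurd (h4 _ heK) (not_lt.2 hyh.le)
      · apply nu1
        · rw [r_lt]
          left
          rw [hpa, h]
          exact has
        · rw [r_lt]
          left
          rw [hqa, h]
          exact has
      · linarith
    · intro x hx _ hb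
      obtain ⟨hxd, _⟩ := hcol (er u) _ huc x (List.mem_cons_of_mem _ hx) hb
      apply nu1
      · rw [r_lt]
        left
        rw [hpa, hxd]
        linarith
      · rw [r_lt]
        left
        rw [hqa, hxd]
        linarith
  | L =>
    have hrm : rm1 a s d el er u = some ⟨.L, a, el u⟩ := by
      unfold rm1
      rw [if_pos hut, hk]
    rw [hk] at hSp hSq
    simp only [Kd.fw, Kd.ar, not_true_eq_false, not_false_eq_true, false_and, and_false, or_false,
      false_or, true_and] at hSp hSq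
    rw [hrm] at hCW ⊢
    have hLp : Lk (u :: T) u p := ⟨hSp.2, Or.inr hp⟩
    have hLq : Lk (u :: T) u q := ⟨hSq.2, Or.inl hq⟩
    have hpd : p.t = d := (hR.lk _ _ hLp).1 hut
    have hqd : q.t = d := (hR.lk _ _ hLq).1 hut
    have hur : (⟨.L, a, el u⟩ : Pt).r = toLex (-a, el u) := rfl
    have heK : el u ∈ KS (u :: T) el u := Or.inr ⟨hk, rfl⟩
    refine hFLM u ⟨.L, a, el u⟩ T p q hw hCW hk rfl hp hq ?_ ?_
    · intro x y hxy hb
      have hx := (lk_mem hxy).1
      have hy := (lk_mem hxy).2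
      obtain ⟨hxa, hxh⟩ := hrow (el u) _ hur x hx hb
      have hlt := hxy.1
      rcases hR.ln y hy with h | h | h
      · linarith
      · apply nu1
        · rw [c_lt]
          left
          rw [hpd, h]
          exact hsd
        · rw [c_lt]
          left
          rw [hqd, h]
          exact hsd
      · have hyd := ((hR.lk _ _ hxy).2.2 (by linarith) (by linarith)).2
        rcases hR.lg _ _ hxy hxa hyd u uw hut with h4 | h4
        · exact absurd (h4 _ heK) (not_lt.2 hxh.le)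
        · apply nu2
          · rw [c_lt]
            right
            exact ⟨by rw [hpd, hyd], h4 _ (Or.inl ⟨p, hLp, rfl⟩)⟩
          · rw [c_lt]
            right
            exact ⟨by rw [hqd, hyd], h4 _ (Or.inl ⟨q, hLq, rfl⟩)⟩
    · intro x hx _ hb
      obtain ⟨hxa, _⟩ := hrow (el u) _ hur x (List.mem_cons_of_mem _ hx) hb
      apply nu1
      · rw [c_lt]
        left
        rw [hpd, hxa]
        linarith
      · rw [c_lt]
        left
        rw [hqd, hxa]
        linarith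

end LH


end

section

/-!
# Part C: removal of a line, the conditions remain true
-/

namespace LH

open Set LG

namespace TRB

theorem zip_tail_append {α : Type*} (T : List α) (h : T ≠ []) (v : α) :
    T.zip (T.tail ++ [v]) = T.zip T.tail ++ [(T.getLast h, v)] := by
  rcases List.eq_nil_or_concat T with rfl | ⟨B, p, rfl⟩
  · exact absurd rfl h
  · simp only [List.concat_eq_append] at h ⊢
    have hR : B.length = (B ++ [p]).tail.length := by simp
    generalize (B ++ [p]).tail = R at hR ⊢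
    rw [List.zip_append hR]
    have : (B ++ [p]).zip R = (B ++ [p]).zip (R ++ []) := by rw [List.append_nil]
    rw [this, List.zip_append hR]
    simp

theorem mem_cp_cons (u : Pt) (T : List Pt) (h : T ≠ []) (z : Pt × Pt) :
    z ∈ cp (u :: T) ↔ z = (u, T.head h) ∨ z ∈ T.zip T.tail ∨ z = (T.getLast h, u) := by
  have e : cp (u :: T) = (u, T.head h) :: (T.zip (T.tail ++ [u])) := by
    cases T with
    | nil => exact absurd rfl h
    | cons q T₂ => simp [cp]
  rw [e, zip_tail_append T h u]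
  simp

theorem mem_cp (T : List Pt) (h : T ≠ []) (z : Pt × Pt) :
    z ∈ cp T ↔ z ∈ T.zip T.tail ∨ z = (T.getLast h, T.head h) := by
  have e : cp T = T.zip (T.tail ++ [T.head h]) := by
    cases T with
    | nil => exact absurd rfl h
    | cons q T₂ => simp [cp]
  rw [e, zip_tail_append T h]
  simp

theorem core (hC : P_CWA) (u : Pt) (T N : List Pt) (a s d : ℝ) (el er : Pt → ℝ)
    (hw : Rem (u :: T) a s d el er) (hu : u.t = s) (ht : ∀ v ∈ T, v.t = s → v.h ≤ u.h)
    (hcw : CW N) (hm : ∀ x ∈ N, x ∈ T ∨ x.t = a ∨ x.t = d)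
    (hl : ∀ x y, Lk N x y → Lk (u :: T) x y ∨
      x.t = a ∧ y.t = d ∧ x.h ∈ KS (u :: T) el u ∧ y.h ∈ RS (u :: T) er u)
    (hdr : ∀ u ∈ N, u.k = .R → u.t = s → ∀ v ∈ N, (v.k ≠ .L → v.t = d → v.h ≠ er u) ∧
      (v.k = .R → v.t = s → er v = er u → v = u))
    (hdl : ∀ u ∈ N, u.k = .L → u.t = s → ∀ v ∈ N, (v.k ≠ .R → v.t = a → v.h ≠ el u) ∧
      (v.k = .L → v.t = s → el v = el u → v = u))
    (hlen : rmv a s d el er N = rmv a s d el er (u :: T)) : Rem N a s d el er := by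
  have h1 := hw.lt₁
  have h2 := hw.lt₂
  have huT : u ∉ T := by
    have := hC.nd _ hw.cw
    exact (List.nodup_cons.mp this).1
  have hmT : ∀ x ∈ N, x.t = s → x ∈ T := by
    intro x hx hs
    rcases hm x hx with h | h | h
    · exact h
    · exact absurd (hs.symm.trans h) h1.ne'
    · exact absurd (hs.symm.trans h) h2.ne
  have hK : ∀ v : Pt, v.t = s → KS N el v ⊆ KS (u :: T) el v := by
    intro v hv h hh
    rcases hh with ⟨p, hp, e⟩ | hh
    · rcases hl p v hp with h3 | ⟨_, h3, _⟩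
      · exact Or.inl ⟨p, h3, e⟩
      · exact absurd (hv.symm.trans h3) h2.ne
    · exact Or.inr hh
  have hR : ∀ v : Pt, v.t = s → RS N er v ⊆ RS (u :: T) er v := by
    intro v hv h hh
    rcases hh with ⟨p, hp, e⟩ | hh
    · rcases hl v p hp with h3 | ⟨h3, _⟩
      · exact Or.inl ⟨p, h3, e⟩
      · exact absurd (hv.symm.trans h3) h1.ne'
    · exact Or.inr hh
  refine ⟨hcw, h1, h2, ?_, ?_, hdr, hdl, ?_, ?_, ?_⟩
  · intro p hp
    rcases hm p hp with h | h | h
    · exact hw.ln p (List.mem_cons_of_mem _ h)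
    · exact Or.inl h.le
    · exact Or.inr (Or.inr h.ge)
  · intro p q hpq
    rcases hl p q hpq with h | ⟨h3, h4, _⟩
    · exact hw.lk p q h
    · exact ⟨fun _ => h4, fun _ => h3, fun _ _ => ⟨h3, h4⟩⟩
  · intro v hv v' hv' hs hs' hne hle
    rcases hw.st v (List.mem_cons_of_mem _ (hmT v hv hs)) v'
      (List.mem_cons_of_mem _ (hmT v' hv' hs')) hs hs' hne hle with h | h
    · exact Or.inl fun x hx y hy => h x (hK v' hs' hx) y (hK v hs hy)
    · exact Or.inr fun x hx y hy => h x (hR v' hs' hx) y (hR v hs hy)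
  · intro p q hpq hp hq v hv hs
    have hvT := hmT v hv hs
    have hvu : v ≠ u := fun e => huT (e ▸ hvT)
    rcases hl p q hpq with h | ⟨_, _, h5, h6⟩
    · rcases hw.lg p q h hp hq v (List.mem_cons_of_mem _ hvT) hs with h | h
      · exact Or.inl fun y hy => h y (hK v hs hy)
      · exact Or.inr fun y hy => h y (hR v hs hy)
    · rcases hw.st v (List.mem_cons_of_mem _ hvT) u List.mem_cons_self hs hu hvu
        (ht v hvT hs) with h | h
      · exact Or.inl fun y hy => h _ h5 y (hK v hs hy)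
      · exact Or.inr fun y hy => h _ h6 y (hR v hs hy)
  · rw [hlen]; exact hw.len

theorem rmv_cons (a s d : ℝ) (el er : Pt → ℝ) (p : Pt) (T : List Pt) :
    rmv a s d el er (p :: T) = (rm1 a s d el er p).toList ++ rmv a s d el er T := by
  unfold rmv
  rw [List.filterMap_cons]
  cases rm1 a s d el er p <;> simp

theorem len_rm1 (a s d : ℝ) (el er : Pt → ℝ) (p : Pt) :
    (ents (rm1 a s d el er p).toList).length ≤ (ent p).length := by
  by_cases h : p.t = s
  · cases hk : p.k <;> simp [rm1, h, hk, ents, ent]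
  · simp [rm1, h, ents]

theorem len_rmv (a s d : ℝ) (el er : Pt → ℝ) (T : List Pt) :
    (ents (rmv a s d el er T)).length ≤ (ents T).length := by
  induction T with
  | nil => simp [rmv, ents]
  | cons p T ih =>
    rw [rmv_cons]
    have h1 := len_rm1 a s d el er p
    unfold ents at *
    rw [List.flatMap_append, List.flatMap_cons, List.length_append, List.length_append]
    omega

theorem len_ent (p : Pt) : (ent p).length ≤ 2 := by
  unfold ent
  cases p.k <;> simp

theorem main : Stmt_TRB := by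
  intro hC u T a s d el er hw hu ht
  have h1 := hw.lt₁
  have h2 := hw.lt₂
  have had : a < d := h1.trans h2
  have huT : u ∉ T := by
    have := hC.nd _ hw.cw
    exact (List.nodup_cons.mp this).1
  have hlen := hw.len
  have hT : T ≠ [] := by
    rintro rfl
    have h3 := len_rmv a s d el er [u]
    have h4 := len_ent u
    simp only [ents, List.flatMap_cons, List.flatMap_nil, List.append_nil] at h3 hlen
    omega
  -- the neighbours
  have hq : (u, T.head hT) ∈ cp (u :: T) := (mem_cp_cons u T hT _).mpr (Or.inl rfl)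
  have hp : (T.getLast hT, u) ∈ cp (u :: T) := (mem_cp_cons u T hT _).mpr (Or.inr (Or.inr rfl))
  have hadj : ∀ z ∈ T.zip T.tail, z ∈ cp (u :: T) := fun z hz =>
    (mem_cp_cons u T hT z).mpr (Or.inr (Or.inl hz))
  have sq := hw.cw.st _ hq
  have sp := hw.cw.st _ hp
  simp only at sq sp
  have hnd := hw.cw.nd
  have hndT : (ents T).Nodup := by
    have : ents (u :: T) = ent u ++ ents T := by simp [ents]
    rw [this] at hnd
    exact hnd.of_append_right
  generalize hqq : T.head hT = q at *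
  generalize hpp : T.getLast hT = p at *
  have huw : u ∈ u :: T := List.mem_cons_self
  have hTw : ∀ v ∈ T, v ∈ u :: T := fun v hv => List.mem_cons_of_mem _ hv
  -- the passing case
  have hpass : rm1 a s d el er u = none → p.t = a ∧ q.t = d ∧ p.k.fw ∧ q.k.ar ∨
      q.t = a ∧ p.t = d ∧ ¬ p.k.fw ∧ ¬ q.k.ar →
      Rem ((rm1 a s d el er u).toList ++ T) a s d el er := by
    intro hn hpq
    have hr : rmv a s d el er T = rmv a s d el er (u :: T) := by
      rw [rmv_cons, hn]; simp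
    rw [hn]
    simp only [Option.toList_none, List.nil_append]
    have hcw : CW T := by
      refine ⟨hndT, ?_, ?_⟩
      · intro z hz
        rcases (mem_cp T hT z).mp hz with h | h
        · exact hw.cw.st z (hadj z h)
        · rw [h, hqq, hpp]
          rcases hpq with ⟨e1, e2, e3, e4⟩ | ⟨e1, e2, e3, e4⟩
          · exact Or.inl ⟨e3, e4, by rw [e1, e2]; exact had⟩
          · exact Or.inr ⟨e3, e4, by rw [e1, e2]; exact had⟩
      · have h3 := len_rmv a s d el er T
        rw [hr] at h3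
        omega
    refine core hC u T T a s d el er hw hu ht hcw (fun x hx => Or.inl hx) ?_ ?_ ?_ hr
    · rintro x y ⟨hlt, hxy⟩
      have key : ∀ x y : Pt, x.t < y.t → (x, y) ∈ cp T ∨ (y, x) ∈ cp T →
          Lk (u :: T) x y ∨ (x = p ∧ y = q ∨ x = q ∧ y = p) := by
        intro x y hlt hxy
        rcases hxy with h | h
        · rcases (mem_cp T hT _).mp h with h | h
          · exact Or.inl ⟨hlt, Or.inl (hadj _ h)⟩
          · rw [hqq, hpp, Prod.mk.injEq] at h
            exact Or.inr (Or.inl h)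
        · rcases (mem_cp T hT _).mp h with h | h
          · exact Or.inl ⟨hlt, Or.inr (hadj _ h)⟩
          · rw [hqq, hpp, Prod.mk.injEq] at h
            exact Or.inr (Or.inr ⟨h.2, h.1⟩)
      rcases key x y hlt hxy with h | h
      · exact Or.inl h
      · right
        rcases hpq with ⟨e1, e2, e3, e4⟩ | ⟨e1, e2, e3, e4⟩
        · rcases h with ⟨rfl, rfl⟩ | ⟨rfl, rfl⟩
          · refine ⟨e1, e2, Or.inl ⟨x, ⟨?_, Or.inl hp⟩, rfl⟩, Or.inl ⟨y, ⟨?_, Or.inl hq⟩, rfl⟩⟩
            · rw [e1, hu]; exact h1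
            · rw [e2, hu]; exact h2
          · rw [e1, e2] at hlt
            exact absurd hlt had.not_gt
        · rcases h with ⟨rfl, rfl⟩ | ⟨rfl, rfl⟩
          · rw [e1, e2] at hlt
            exact absurd hlt had.not_gt
          · refine ⟨e1, e2, Or.inl ⟨x, ⟨?_, Or.inr hq⟩, rfl⟩, Or.inl ⟨y, ⟨?_, Or.inr hp⟩, rfl⟩⟩
            · rw [e1, hu]; exact h1
            · rw [e2, hu]; exact h2
    · exact fun u₁ h₁ hk₁ ht₁ v hv => hw.dr u₁ (hTw _ h₁) hk₁ ht₁ v (hTw _ hv)
    · exact fun u₁ h₁ hk₁ ht₁ v hv => hw.dl u₁ (hTw _ h₁) hk₁ ht₁ v (hTw _ hv)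
  -- the turns
  have hturn : ∀ u' : Pt, rm1 a s d el er u = some u' →
      (u'.t = d ∧ p.t = a ∧ q.t = a ∧ u'.h ∈ RS (u :: T) er u ∨
        u'.t = a ∧ p.t = d ∧ q.t = d ∧ u'.h ∈ KS (u :: T) el u) →
      Stp p u' → Stp u' q → (ent u').length = (ent u).length →
      (∀ e ∈ ent u', e ∉ ents T) → (ent u').Nodup →
      (∀ u₁ ∈ T, u₁.k = .R → u₁.t = s → (u'.k ≠ .L → u'.t = d → u'.h ≠ er u₁)) →
      (∀ u₁ ∈ T, u₁.k = .L → u₁.t = s → (u'.k ≠ .R → u'.t = a → u'.h ≠ el u₁)) →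
      Rem ((rm1 a s d el er u).toList ++ T) a s d el er := by
    intro u' hn hpq st1 st2 hle hdis hndu hR hL
    have hr' : rm1 a s d el er u' = some u' := by
      have : u'.t ≠ s := by
        rcases hpq with h | h
        · rw [h.1]; exact h2.ne'
        · rw [h.1]; exact h1.ne
      simp [rm1, this]
    have hus : u'.t ≠ s := by
      rcases hpq with h | h
      · rw [h.1]; exact h2.ne'
      · rw [h.1]; exact h1.ne
    have hr : rmv a s d el er (u' :: T) = rmv a s d el er (u :: T) := by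
      rw [rmv_cons, rmv_cons, hn, hr']
    rw [hn]
    simp only [Option.toList_some, List.singleton_append]
    have hcw : CW (u' :: T) := by
      refine ⟨?_, ?_, ?_⟩
      · have : ents (u' :: T) = ent u' ++ ents T := by simp [ents]
        rw [this, List.nodup_append]
        refine ⟨hndu, hndT, ?_⟩
        intro x hx y hy e
        exact hdis x hx (e ▸ hy)
      · intro z hz
        rcases (mem_cp_cons u' T hT z).mp hz with h | h | h
        · rw [h, hqq]; exact st2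
        · exact hw.cw.st z (hadj z h)
        · rw [h, hpp]; exact st1
      · have h3 := hw.cw.len
        simp only [ents, List.flatMap_cons, List.length_append] at h3 ⊢
        omega
    refine core hC u T (u' :: T) a s d el er hw hu ht hcw ?_ ?_ ?_ ?_ hr
    · intro x hx
      rcases List.mem_cons.mp hx with rfl | hx
      · rcases hpq with h | h
        · exact Or.inr (Or.inr h.1)
        · exact Or.inr (Or.inl h.1)
      · exact Or.inl hx
    · rintro x y ⟨hlt, hxy⟩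
      have key : Lk (u :: T) x y ∨ (x = u' ∧ (y = p ∨ y = q)) ∨ (y = u' ∧ (x = p ∨ x = q)) := by
        rcases hxy with h | h
        · rcases (mem_cp_cons u' T hT _).mp h with h | h | h
          · rw [hqq, Prod.mk.injEq] at h
            exact Or.inr (Or.inl ⟨h.1, Or.inr h.2⟩)
          · exact Or.inl ⟨hlt, Or.inl (hadj _ h)⟩
          · rw [hpp, Prod.mk.injEq] at h
            exact Or.inr (Or.inr ⟨h.2, Or.inl h.1⟩)
        · rcases (mem_cp_cons u' T hT _).mp h with h | h | h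
          · rw [hqq, Prod.mk.injEq] at h
            exact Or.inr (Or.inr ⟨h.1, Or.inr h.2⟩)
          · exact Or.inl ⟨hlt, Or.inr (hadj _ h)⟩
          · rw [hpp, Prod.mk.injEq] at h
            exact Or.inr (Or.inl ⟨h.2, Or.inl h.1⟩)
      rcases key with h | h
      · exact Or.inl h
      right
      rcases hpq with ⟨e1, e2, e3, e4⟩ | ⟨e1, e2, e3, e4⟩
      · rcases h with ⟨hx, hy⟩ | ⟨hy, hx⟩
        · exfalso
          rw [hx, e1] at hlt
          rcases hy with rfl | rfl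
          · rw [e2] at hlt; exact absurd hlt had.not_gt
          · rw [e3] at hlt; exact absurd hlt had.not_gt
        · rcases hx with rfl | rfl
          · refine ⟨e2, hy ▸ e1, Or.inl ⟨x, ⟨?_, Or.inl hp⟩, rfl⟩, hy ▸ e4⟩
            rw [e2, hu]; exact h1
          · refine ⟨e3, hy ▸ e1, Or.inl ⟨x, ⟨?_, Or.inr hq⟩, rfl⟩, hy ▸ e4⟩
            rw [e3, hu]; exact h1
      · rcases h with ⟨hx, hy⟩ | ⟨hy, hx⟩
        · rcases hy with rfl | rfl
          · refine ⟨hx ▸ e1, e2, hx ▸ e4, Or.inl ⟨y, ⟨?_, Or.inr hp⟩, rfl⟩⟩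
            rw [e2, hu]; exact h2
          · refine ⟨hx ▸ e1, e3, hx ▸ e4, Or.inl ⟨y, ⟨?_, Or.inl hq⟩, rfl⟩⟩
            rw [e3, hu]; exact h2
        · exfalso
          rw [hy, e1] at hlt
          rcases hx with rfl | rfl
          · rw [e2] at hlt; exact absurd hlt had.not_gt
          · rw [e3] at hlt; exact absurd hlt had.not_gt
    · intro u₁ h₁ hk₁ ht₁ v hv
      rcases List.mem_cons.mp h₁ with rfl | h₁
      · exact absurd ht₁ hus
      rcases List.mem_cons.mp hv with e | hv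
      · subst e
        exact ⟨hR u₁ (by assumption) hk₁ ht₁, fun _ h => absurd h hus⟩
      · exact hw.dr u₁ (hTw _ h₁) hk₁ ht₁ v (hTw _ hv)
    · intro u₁ h₁ hk₁ ht₁ v hv
      rcases List.mem_cons.mp h₁ with rfl | h₁
      · exact absurd ht₁ hus
      rcases List.mem_cons.mp hv with e | hv
      · subst e
        exact ⟨hL u₁ (by assumption) hk₁ ht₁, fun _ h => absurd h hus⟩
      · exact hw.dl u₁ (hTw _ h₁) hk₁ ht₁ v (hTw _ hv)
  cases hk : u.k
  · -- passing to the right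
    have e1 : p.k.fw ∧ p.t < u.t := by
      rcases sp with h | h
      · exact ⟨h.1, h.2.2⟩
      · rw [hk] at h; exact absurd trivial h.2.1
    have e2 : q.k.ar ∧ u.t < q.t := by
      rcases sq with h | h
      · exact ⟨h.2.1, h.2.2⟩
      · rw [hk] at h; exact absurd trivial h.1
    have e3 := (hw.lk p u ⟨e1.2, Or.inl hp⟩).2.1 hu
    have e4 := (hw.lk u q ⟨e2.2, Or.inl hq⟩).1 hu
    exact hpass (by simp [rm1, hu, hk]) (Or.inl ⟨e3, e4, e1.1, e2.1⟩)
  · -- passing to the left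
    have e1 : ¬ p.k.fw ∧ u.t < p.t := by
      rcases sp with h | h
      · rw [hk] at h; exact absurd h.2.1 (fun h => h)
      · exact ⟨h.1, h.2.2⟩
    have e2 : ¬ q.k.ar ∧ q.t < u.t := by
      rcases sq with h | h
      · rw [hk] at h; exact absurd h.1 (fun h => h)
      · exact ⟨h.2.1, h.2.2⟩
    have e3 := (hw.lk u p ⟨e1.2, Or.inr hp⟩).1 hu
    have e4 := (hw.lk q u ⟨e2.2, Or.inr hq⟩).2.1 hu
    exact hpass (by simp [rm1, hu, hk]) (Or.inr ⟨e4, e3, e1.1, e2.1⟩)
  · -- right turn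
    have e1 : p.k.fw ∧ p.t < u.t := by
      rcases sp with h | h
      · exact ⟨h.1, h.2.2⟩
      · rw [hk] at h; exact absurd trivial h.2.1
    have e2 : ¬ q.k.ar ∧ q.t < u.t := by
      rcases sq with h | h
      · rw [hk] at h; exact absurd h.1 (fun h => h)
      · exact ⟨h.2.1, h.2.2⟩
    have e3 := (hw.lk p u ⟨e1.2, Or.inl hp⟩).2.1 hu
    have e4 := (hw.lk q u ⟨e2.2, Or.inr hq⟩).2.1 hu
    have hdr := hw.dr u huw hk hu
    refine hturn ⟨.R, d, er u⟩ (by simp [rm1, hu, hk]) (Or.inl ⟨rfl, e3, e4, Or.inr ⟨hk, rfl⟩⟩)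
      (Or.inl ⟨e1.1, trivial, by rw [e3]; exact had⟩)
      (Or.inr ⟨fun h => h, e2.1, by rw [e4]; exact had⟩) (by simp [ent, hk]) ?_ (by simp [ent]) ?_ ?_
    · intro e he hh
      simp only [ent, List.mem_singleton] at he
      rw [he] at hh
      obtain ⟨v, hv, hve⟩ := List.mem_flatMap.mp hh
      have h5 := (hdr v (hTw _ hv)).1
      have h6 : v.k ≠ .L ∧ v.c = toLex (d, er u) := by
        unfold ent at hve
        cases hkv : v.k <;> simp [hkv, Pt.c] at hve ⊢ <;> exact ⟨hve.1.symm, hve.2.symm⟩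
      have h7 : (v.t, v.h) = (d, er u) := toLex.injective h6.2
      rw [Prod.mk.injEq] at h7
      exact h5 h6.1 h7.1 h7.2
    · intro u₁ h₁ hk₁ ht₁ _ _ h8
      have h9 := (hw.dr u₁ (hTw _ h₁) hk₁ ht₁ u huw).2 hk hu h8
      exact huT (h9 ▸ h₁)
    · intro u₁ _ _ _ h8
      exact absurd rfl h8
  · -- left turn
    have e1 : ¬ p.k.fw ∧ u.t < p.t := by
      rcases sp with h | h
      · rw [hk] at h; exact absurd h.2.1 (fun h => h)
      · exact ⟨h.1, h.2.2⟩
    have e2 : q.k.ar ∧ u.t < q.t := by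
      rcases sq with h | h
      · exact ⟨h.2.1, h.2.2⟩
      · rw [hk] at h; exact absurd trivial h.1
    have e3 := (hw.lk u p ⟨e1.2, Or.inr hp⟩).1 hu
    have e4 := (hw.lk u q ⟨e2.2, Or.inl hq⟩).1 hu
    have hdl := hw.dl u huw hk hu
    refine hturn ⟨.L, a, el u⟩ (by simp [rm1, hu, hk]) (Or.inr ⟨rfl, e3, e4, Or.inr ⟨hk, rfl⟩⟩)
      (Or.inr ⟨e1.1, fun h => h, by rw [e3]; exact had⟩)
      (Or.inl ⟨trivial, e2.1, by rw [e4]; exact had⟩) (by simp [ent, hk]) ?_ (by simp [ent]) ?_ ?_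
    · intro e he hh
      simp only [ent, List.mem_singleton] at he
      rw [he] at hh
      obtain ⟨v, hv, hve⟩ := List.mem_flatMap.mp hh
      have h5 := (hdl v (hTw _ hv)).1
      have h6 : v.k ≠ .R ∧ v.r = toLex (-a, el u) := by
        unfold ent at hve
        cases hkv : v.k <;> simp [hkv, Pt.r] at hve ⊢ <;> exact ⟨hve.1.symm, hve.2.symm⟩
      have h7 : (-v.t, v.h) = (-a, el u) := toLex.injective h6.2
      rw [Prod.mk.injEq] at h7
      exact h5 h6.1 (neg_injective h7.1) h7.2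
    · intro u₁ _ _ _ h8
      exact absurd rfl h8
    · intro u₁ h₁ hk₁ ht₁ _ _ h8
      have h9 := (hw.dl u₁ (hTw _ h₁) hk₁ ht₁ u huw).2 hk hu h8
      exact huT (h9 ▸ h₁)

end TRB

theorem t_TRB : Stmt_TRB := TRB.main

end LH


end

section

/-!
# Elementary properties of the coordinates of a Legendrian knot
-/

namespace LHS

open Set LH LC Filter
open scoped ContDiff Topology

namespace BAS

theorem hasDeriv (Λ : LegKnot) (u : ℝ) : HasDerivAt Λ.γ (deriv Λ.γ u) u :=
  ((Λ.smooth.differentiable (by simp)) u).hasDerivAt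

theorem hx (Λ : LegKnot) (u : ℝ) : HasDerivAt Λ.x (deriv Λ.γ u).1 u := by
  have h := (hasFDerivAt_fst (𝕜 := ℝ) (E := ℝ) (F := ℝ × ℝ) (p := Λ.γ u)).comp_hasDerivAt u
    (hasDeriv Λ u)
  exact h

theorem h2 (Λ : LegKnot) (u : ℝ) : HasDerivAt (fun v => (Λ.γ v).2) (deriv Λ.γ u).2 u := by
  have h := (hasFDerivAt_snd (𝕜 := ℝ) (E := ℝ) (F := ℝ × ℝ) (p := Λ.γ u)).comp_hasDerivAt u
    (hasDeriv Λ u)
  exact h

theorem hy (Λ : LegKnot) (u : ℝ) : HasDerivAt Λ.y (deriv Λ.γ u).2.1 u := by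
  have h := (hasFDerivAt_fst (𝕜 := ℝ) (E := ℝ) (F := ℝ) (p := (Λ.γ u).2)).comp_hasDerivAt u
    (h2 Λ u)
  exact h

theorem hz (Λ : LegKnot) (u : ℝ) : HasDerivAt (zc Λ) (deriv Λ.γ u).2.2 u := by
  have h := (hasFDerivAt_snd (𝕜 := ℝ) (E := ℝ) (F := ℝ) (p := (Λ.γ u).2)).comp_hasDerivAt u
    (h2 Λ u)
  exact h

theorem leg (Λ : LegKnot) (u : ℝ) : (deriv Λ.γ u).2.2 = Λ.y u * (deriv Λ.γ u).1 := by
  have h := Λ.legendrian u
  unfold alpha at h
  have h' : (deriv Λ.γ u).2.2 - Λ.y u * (deriv Λ.γ u).1 = 0 := h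
  linarith

end BAS

theorem t_BAS : Stmt_BAS := by
  intro Λ
  have e1 : ∀ u, deriv Λ.x u = (deriv Λ.γ u).1 := fun u => (BAS.hx Λ u).deriv
  have e2 : ∀ u, deriv Λ.y u = (deriv Λ.γ u).2.1 := fun u => (BAS.hy Λ u).deriv
  have e3 : ∀ u, Λ.y u * deriv Λ.x u = (deriv Λ.γ u).2.2 := fun u => by
    rw [e1 u, BAS.leg Λ u]
  refine ⟨contDiff_fst.comp Λ.smooth, contDiff_fst.comp (contDiff_snd.comp Λ.smooth),
    contDiff_snd.comp (contDiff_snd.comp Λ.smooth), fun u => ?_, fun u => ?_, fun u => ?_,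
    fun u => ?_, fun u => ?_, fun u => ?_, fun u => ?_, fun u => ?_⟩
  · unfold LegKnot.x
    rw [Λ.periodic u]
  · unfold LegKnot.y
    rw [Λ.periodic u]
  · unfold zc
    rw [Λ.periodic u]
  · rw [e1 u]; exact BAS.hx Λ u
  · rw [e2 u]; exact BAS.hy Λ u
  · rw [e3 u]; exact BAS.hz Λ u
  · by_contra hcon
    rw [not_or, not_not, not_not] at hcon
    obtain ⟨ha, hb⟩ := hcon
    apply Λ.immersion u
    rw [e1 u] at ha
    rw [e2 u] at hb
    have hc : (deriv Λ.γ u).2.2 = 0 := by rw [BAS.leg Λ u, ha, mul_zero]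
    exact Prod.ext ha (Prod.ext hb hc)
  · have h : (deriv Λ.x u, deriv Λ.y u, Λ.y u * deriv Λ.x u) = deriv Λ.γ u := by
      rw [e3 u, e1 u, e2 u]
    rw [h]
    exact BAS.hasDeriv Λ u

end LHS


end

section

/-!
# CTN: continuity of the coordinates of a family and of their derivatives
-/

namespace LHS

open Set LH LC Filter
open scoped ContDiff Topology

namespace CTN

/-- The derivative in the second variable of a smooth function on the strip. -/
lemma dsnd {E : Type*} [NormedAddCommGroup E] [NormedSpace ℝ E] {F : ℝ × ℝ → E}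
    (hF : ContDiffOn ℝ ∞ F (Icc (0 : ℝ) 1 ×ˢ univ)) :
    ContDiffOn ℝ ∞ (fun q : ℝ × ℝ => deriv (fun v => F (q.1, v)) q.2)
      (Icc (0 : ℝ) 1 ×ˢ univ) := by
  have hS : UniqueDiffOn ℝ (Icc (0 : ℝ) 1 ×ˢ (univ : Set ℝ)) :=
    (uniqueDiffOn_Icc zero_lt_one).prod uniqueDiffOn_univ
  have h1 : ContDiffOn ℝ ∞ (fderivWithin ℝ F (Icc (0 : ℝ) 1 ×ˢ univ))
      (Icc (0 : ℝ) 1 ×ˢ univ) := hF.fderivWithin hS (by norm_num)
  have h2 : ContDiffOn ℝ ∞ (fun q => fderivWithin ℝ F (Icc (0 : ℝ) 1 ×ˢ univ) q (0, 1))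
      (Icc (0 : ℝ) 1 ×ˢ univ) := h1.clm_apply contDiffOn_const
  refine h2.congr ?_
  rintro ⟨t, u⟩ hq
  have h3 : HasFDerivWithinAt F (fderivWithin ℝ F (Icc (0 : ℝ) 1 ×ˢ univ) (t, u))
      (Icc (0 : ℝ) 1 ×ˢ univ) (t, u) :=
    ((hF.differentiableOn (by norm_num)) _ hq).hasFDerivWithinAt
  have h4 : HasDerivWithinAt (fun v : ℝ => (t, v)) ((0 : ℝ), (1 : ℝ)) univ u :=
    ((hasDerivAt_const u t).prodMk (hasDerivAt_id u)).hasDerivWithinAt
  have h5 : MapsTo (fun v : ℝ => (t, v)) univ (Icc (0 : ℝ) 1 ×ˢ univ) := by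
    intro v _
    exact ⟨hq.1, mem_univ _⟩
  have h6 := h3.comp_hasDerivWithinAt u h4 h5
  rw [hasDerivWithinAt_univ] at h6
  exact h6.deriv

end CTN

open _root_.LHS.CTN

theorem t_CTN : Stmt_CTN := by
  intro K hK
  have hγ : ContDiffOn ℝ ∞ (fun q : ℝ × ℝ => (K q.1).γ q.2) (Icc 0 1 ×ˢ univ) := hK
  have hx : ContDiffOn ℝ ∞ (fun q : ℝ × ℝ => (K q.1).x q.2) (Icc 0 1 ×ˢ univ) := hγ.fst
  have hy : ContDiffOn ℝ ∞ (fun q : ℝ × ℝ => (K q.1).y q.2) (Icc 0 1 ×ˢ univ) := hγ.snd.fst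
  have hz : ContDiffOn ℝ ∞ (fun q : ℝ × ℝ => zc (K q.1) q.2) (Icc 0 1 ×ˢ univ) := hγ.snd.snd
  have hx1 : ContDiffOn ℝ ∞ (fun q : ℝ × ℝ => deriv (K q.1).x q.2) (Icc 0 1 ×ˢ univ) := dsnd hx
  have hy1 : ContDiffOn ℝ ∞ (fun q : ℝ × ℝ => deriv (K q.1).y q.2) (Icc 0 1 ×ˢ univ) := dsnd hy
  have hx2 : ContDiffOn ℝ ∞ (fun q : ℝ × ℝ => deriv (deriv (K q.1).x) q.2)
      (Icc 0 1 ×ˢ univ) := dsnd hx1
  exact ⟨hγ.continuousOn, hx.continuousOn, hy.continuousOn, hz.continuousOn, hx1.continuousOn,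
    hy1.continuousOn, hx2.continuousOn⟩

end LHS


end

section

/-!
# BD1: uniform upper bounds of a family of knots
-/

namespace LHS

open Set LH LC Filter
open scoped ContDiff Topology

namespace BD1

/-- A periodic continuous family is bounded. -/
theorem bound (f : ℝ → ℝ → ℝ)
    (hf : ContinuousOn (fun q : ℝ × ℝ => f q.1 q.2) (Icc 0 1 ×ˢ univ))
    (hp : ∀ t ∈ Icc (0 : ℝ) 1, ∀ u, f t (u + 1) = f t u) :
    ∃ C : ℝ, ∀ t ∈ Icc (0 : ℝ) 1, ∀ u, |f t u| ≤ C := by
  have hc : IsCompact (Icc (0 : ℝ) 1 ×ˢ Icc (0 : ℝ) 1) := isCompact_Icc.prod isCompact_Icc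
  obtain ⟨C, hC⟩ := hc.exists_bound_of_continuousOn
    (hf.mono (prod_mono (Subset.refl _) (subset_univ _)))
  refine ⟨C, fun t ht u => ?_⟩
  have hper : Function.Periodic (f t) 1 := fun u => hp t ht u
  have h1 : f t (Int.fract u) = f t u := by
    have h5 := hper.sub_zsmul_eq (x := u) ⌊u⌋
    rw [zsmul_one] at h5
    exact h5
  have h2 := hC (t, Int.fract u) ⟨ht, Int.fract_nonneg u, (Int.fract_lt_one u).le⟩
  rw [← h1]
  simpa [Real.norm_eq_abs] using h2

theorem per_deriv (f : ℝ → ℝ) (h : ∀ u, f (u + 1) = f u) (u : ℝ) : deriv f (u + 1) = deriv f u := by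
  have h1 : (fun u => f (u + 1)) = f := funext h
  have h2 := deriv_comp_add_const (f := f) 1 u
  rw [h1] at h2
  exact h2.symm

/-- Lipschitz bound. -/
theorem lip (f : ℝ → ℝ) (hf : Differentiable ℝ f) (C : ℝ) (h : ∀ u, |deriv f u| ≤ C) (u v : ℝ) :
    |f u - f v| ≤ C * |u - v| := by
  have := Convex.norm_image_sub_le_of_norm_deriv_le (f := f) (C := C) (s := univ) (x := v) (y := u)
    (fun x _ => hf x) (fun x _ => by simpa [Real.norm_eq_abs] using h x) convex_univ
    (mem_univ _) (mem_univ _)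
  simpa [Real.norm_eq_abs] using this

end BD1

open _root_.LHS.BD1

/-- BD1 -/
theorem t_BD1 : Stmt_BD1 := by
  intro hB hC K hK
  obtain ⟨-, cx, cy, -, cdx, cdy, cddx⟩ := hC K hK
  have hper : ∀ t, (∀ u, (K t).x (u + 1) = (K t).x u) ∧ (∀ u, (K t).y (u + 1) = (K t).y u) := by
    intro t
    obtain ⟨-, -, -, h1, h2, -⟩ := hB (K t)
    exact ⟨h1, h2⟩
  have hsx : ∀ t, ContDiff ℝ ∞ (K t).x := fun t => (hB (K t)).1
  have hsy : ∀ t, ContDiff ℝ ∞ (K t).y := fun t => (hB (K t)).2.1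
  have hsdx : ∀ t, ContDiff ℝ ∞ (deriv (K t).x) := by
    intro t
    exact (contDiff_infty_iff_deriv.1 (hsx t)).2
  obtain ⟨C1, h1⟩ := bound (fun t u => (K t).y u) cy (fun t _ u => (hper t).2 u)
  obtain ⟨C2, h2⟩ := bound (fun t u => deriv (K t).x u) cdx
    (fun t _ u => per_deriv _ (hper t).1 u)
  obtain ⟨C3, h3⟩ := bound (fun t u => deriv (K t).y u) cdy
    (fun t _ u => per_deriv _ (hper t).2 u)
  obtain ⟨C4, h4⟩ := bound (fun t u => deriv (deriv (K t).x) u) cddx
    (fun t _ u => per_deriv _ (per_deriv _ (hper t).1) u)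
  refine ⟨max 1 (max (max C1 C2) (max C3 C4)), le_max_left _ _, fun t ht => ⟨?_, ?_, ?_, ?_⟩⟩
  · intro u
    exact (h1 t ht u).trans (by simp)
  · intro u v
    exact lip _ ((hsx t).differentiable (by simp)) _ (fun w => (h2 t ht w).trans (by simp)) u v
  · intro u v
    exact lip _ ((hsy t).differentiable (by simp)) _ (fun w => (h3 t ht w).trans (by simp)) u v
  · intro u v
    exact lip _ ((hsdx t).differentiable (by simp)) _ (fun w => (h4 t ht w).trans (by simp)) u v

end LHS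


end

section

/-!
# Module BD2: uniform lower bound of `max(|x'|, |y'|)`
-/

namespace LHS

open Set LH LC Filter
open scoped ContDiff Topology

namespace BD2

/-- The derivative of a `1`-periodic function is `1`-periodic. -/
lemma deriv_periodic {f : ℝ → ℝ} (h : ∀ u, f (u + 1) = f u) : Function.Periodic (deriv f) 1 := by
  intro u
  have h1 : (fun v => f (v + 1)) = f := funext h
  have h2 : deriv (fun v => f (v + 1)) u = deriv f (u + 1) := deriv_comp_add_const f 1 u
  rw [h1] at h2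
  exact h2.symm

/-- The value of the derivative at the fractional part. -/
lemma deriv_fract {f : ℝ → ℝ} (h : ∀ u, f (u + 1) = f u) (u : ℝ) :
    deriv f (Int.fract u) = deriv f u := by
  have := (deriv_periodic h).sub_int_mul_eq (x := u) ⌊u⌋
  rw [mul_one] at this
  exact this

end BD2

theorem t_BD2 : Stmt_BD2 := by
  intro hBAS hCTN K hK
  obtain ⟨-, -, -, -, hx, hy, -⟩ := hCTN K hK
  have hsub : (Icc (0 : ℝ) 1 ×ˢ Icc (0 : ℝ) 1 : Set (ℝ × ℝ)) ⊆ Icc 0 1 ×ˢ univ :=
    prod_mono subset_rfl (subset_univ _)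
  have hcont : ContinuousOn (fun q : ℝ × ℝ => |deriv (K q.1).x q.2| + |deriv (K q.1).y q.2|)
      (Icc (0 : ℝ) 1 ×ˢ Icc (0 : ℝ) 1) :=
    ((hx.mono hsub).abs).add ((hy.mono hsub).abs)
  have hcomp : IsCompact (Icc (0 : ℝ) 1 ×ˢ Icc (0 : ℝ) 1 : Set (ℝ × ℝ)) :=
    isCompact_Icc.prod isCompact_Icc
  have hne : (Icc (0 : ℝ) 1 ×ˢ Icc (0 : ℝ) 1 : Set (ℝ × ℝ)).Nonempty :=
    ⟨(0, 0), by simp⟩
  obtain ⟨q, hq, hmin⟩ := hcomp.exists_isMinOn hne hcont
  have hpos : 0 < |deriv (K q.1).x q.2| + |deriv (K q.1).y q.2| := by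
    obtain ⟨-, -, -, -, -, -, -, -, -, h, -⟩ := hBAS (K q.1)
    rcases h q.2 with h | h
    · have := abs_pos.mpr h
      have := abs_nonneg (deriv (K q.1).y q.2)
      linarith
    · have := abs_pos.mpr h
      have := abs_nonneg (deriv (K q.1).x q.2)
      linarith
  refine ⟨(|deriv (K q.1).x q.2| + |deriv (K q.1).y q.2|) / 2, by linarith, ?_⟩
  intro t ht u
  obtain ⟨-, -, -, px, py, -⟩ := hBAS (K t)
  have e1 : deriv (K t).x (Int.fract u) = deriv (K t).x u :=
    BD2.deriv_fract px u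
  have e2 : deriv (K t).y (Int.fract u) = deriv (K t).y u :=
    BD2.deriv_fract py u
  have hm : |deriv (K q.1).x q.2| + |deriv (K q.1).y q.2| ≤
      |deriv (K t).x (Int.fract u)| + |deriv (K t).y (Int.fract u)| :=
    hmin (show ((t, Int.fract u) : ℝ × ℝ) ∈ Icc (0 : ℝ) 1 ×ˢ Icc (0 : ℝ) 1 from
      ⟨ht, Int.fract_nonneg u, (Int.fract_lt_one u).le⟩)
  rw [e1, e2] at hm
  by_contra hcon
  push Not at hcon
  linarith [hcon.1, hcon.2]

end LHS


end

section

/-!
# BD3: uniform lower bound of the width of a family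
-/

namespace LHS

open Set LH LC Filter
open scoped ContDiff Topology

theorem t_BD3 : Stmt_BD3 := by
  intro hB hC K hK
  by_contra hcon
  push Not at hcon
  have h1 : ∀ n : ℕ, ∃ t ∈ Icc (0 : ℝ) 1, ∀ u, |(K t).x u - (K t).x 0| < 1 / ((n : ℝ) + 1) := by
    intro n
    have hn : (0 : ℝ) < 1 / ((n : ℝ) + 1) := by positivity
    exact hcon _ hn
  choose t ht hlt using h1
  obtain ⟨a, ha, φ, hφ, hlim⟩ := isCompact_Icc.tendsto_subseq ht
  obtain ⟨-, hx, -, -, -, -, -⟩ := hC K hK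
  have hcx : ∀ u : ℝ, Tendsto (fun n => (K (t (φ n))).x u) atTop (𝓝 ((K a).x u)) := by
    intro u
    have h2 : ContinuousWithinAt (fun q : ℝ × ℝ => (K q.1).x q.2) (Icc 0 1 ×ˢ univ) (a, u) :=
      hx (a, u) ⟨ha, mem_univ _⟩
    have h3 : Tendsto (fun n => ((t (φ n), u) : ℝ × ℝ)) atTop (𝓝[Icc 0 1 ×ˢ univ] (a, u)) := by
      refine tendsto_nhdsWithin_iff.2 ⟨?_, ?_⟩
      · exact hlim.prodMk_nhds tendsto_const_nhds
      · exact Eventually.of_forall fun n => ⟨ht _, mem_univ _⟩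
    exact h2.tendsto.comp h3
  have hconst : ∀ u, (K a).x u = (K a).x 0 := by
    intro u
    have h4 : Tendsto (fun n => |(K (t (φ n))).x u - (K (t (φ n))).x 0|) atTop
        (𝓝 |(K a).x u - (K a).x 0|) := ((hcx u).sub (hcx 0)).abs
    have h5 : Tendsto (fun n : ℕ => 1 / (((φ n : ℕ) : ℝ) + 1)) atTop (𝓝 0) :=
      tendsto_one_div_add_atTop_nhds_zero_nat.comp hφ.tendsto_atTop
    have h6 : |(K a).x u - (K a).x 0| ≤ 0 :=
      le_of_tendsto_of_tendsto' h4 h5 fun n => (hlt (φ n) u).le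
    have h7 := abs_nonpos_iff.1 h6
    linarith
  obtain ⟨-, -, -, -, hpy, -, -, hdy, -, him, -⟩ := hB (K a)
  have hdx0 : ∀ u, deriv (K a).x u = 0 := by
    intro u
    have h8 : (K a).x = fun _ => (K a).x 0 := funext hconst
    rw [h8]
    exact deriv_const _ _
  have hy01 : (K a).y 0 = (K a).y 1 := by
    have := hpy 0
    rw [zero_add] at this
    exact this.symm
  have hcy : ContinuousOn (K a).y (Icc 0 1) := fun u _ =>
    (hdy u).continuousAt.continuousWithinAt
  obtain ⟨c, -, hc⟩ := exists_deriv_eq_zero zero_lt_one hcy hy01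
  rcases him c with h | h
  · exact h (hdx0 c)
  · exact h hc

end LHS


end

section

/-!
# MID: the midpoint estimate
-/

namespace LHS

open Set LH LC Filter
open scoped ContDiff Topology

theorem t_MID : Stmt_MID := by
  intro hbas Λ M η c hB N hN i
  obtain ⟨-, -, -, -, -, -, hx, -, hz, -, -⟩ := hbas Λ
  have hNr : (1 : ℝ) ≤ N := by exact_mod_cast hN
  have hN0 : (0 : ℝ) < N := by linarith
  have hM : 0 ≤ M := by
    have h1 := hB.xl 1 0
    have h2 : |(1 : ℝ) - 0| = 1 := by norm_num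
    rw [h2, mul_one] at h1
    exact le_trans (abs_nonneg _) h1
  have hxd : ∀ u, |deriv Λ.x u| ≤ M := by
    intro u
    have h1 := (hx u).le_of_lip' hM (Filter.Eventually.of_forall (fun v => by
      simpa [Real.norm_eq_abs] using hB.xl v u))
    simpa [Real.norm_eq_abs] using h1
  have hy0 : y0 Λ N i = Λ.y (((i : ℝ) + 1 / 2) / N) := rfl
  have hx1 : x0 Λ N (i + 1) = Λ.x (((i : ℝ) + 1) / N) := by
    unfold x0
    push_cast
    rfl
  have hx0 : x0 Λ N i = Λ.x ((i : ℝ) / N) := rfl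
  rw [hy0, hx1, hx0]
  set a : ℝ := (i : ℝ) / N with ha
  set b : ℝ := ((i : ℝ) + 1) / N with hb
  set m : ℝ := ((i : ℝ) + 1 / 2) / N with hm
  have hab : b - a = 1 / N := by
    rw [ha, hb]
    ring
  have hab0 : a ≤ b := by
    have : 0 ≤ b - a := by rw [hab]; positivity
    linarith
  have ham : m - a = 1 / N / 2 := by
    rw [ha, hm]
    ring
  have hpos : (0 : ℝ) < 1 / N := by positivity
  have hg : ∀ u, HasDerivAt (fun u => zc Λ u - Λ.y m * Λ.x u)
      (Λ.y u * deriv Λ.x u - Λ.y m * deriv Λ.x u) u := fun u =>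
    (hz u).sub ((hx u).const_mul (Λ.y m))
  have hbound : ∀ u ∈ Icc a b, ‖Λ.y u * deriv Λ.x u - Λ.y m * deriv Λ.x u‖ ≤ M * (1 / N) * M := by
    intro u hu
    have h1 : Λ.y u * deriv Λ.x u - Λ.y m * deriv Λ.x u = (Λ.y u - Λ.y m) * deriv Λ.x u := by ring
    rw [h1, norm_mul, Real.norm_eq_abs, Real.norm_eq_abs]
    have h2 : |u - m| ≤ 1 / N := by
      rw [abs_le]
      constructor
      · linarith [hu.1]
      · linarith [hu.2]
    have h3 : |Λ.y u - Λ.y m| ≤ M * (1 / N) :=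
      le_trans (hB.yl u m) (mul_le_mul_of_nonneg_left h2 hM)
    exact mul_le_mul h3 (hxd u) (abs_nonneg _) (by positivity)
  have hmv := Convex.norm_image_sub_le_of_norm_hasDerivWithin_le
    (fun u _ => (hg u).hasDerivWithinAt) hbound (convex_Icc a b)
    (left_mem_Icc.2 hab0) (right_mem_Icc.2 hab0)
  rw [Real.norm_eq_abs, Real.norm_eq_abs, hab, abs_of_pos hpos] at hmv
  have e1 : Λ.y m * (Λ.x b - Λ.x a) - (zc Λ b - zc Λ a)
      = -(zc Λ b - Λ.y m * Λ.x b - (zc Λ a - Λ.y m * Λ.x a)) := by ring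
  rw [e1, abs_neg]
  refine le_trans hmv (le_of_eq ?_)
  field_simp

end LHS


end

section

/-!
# MUB: the bound of the correction factor, and the denominator
-/

namespace LHS

open Set LH LC Filter
open scoped ContDiff Topology

namespace MUB

theorem x0_nat (Λ : LegKnot) (N i : ℕ) : x0 Λ N (i : ℤ) = Λ.x ((i : ℝ) / N) := by
  simp [x0]

theorem x0_nat_succ (Λ : LegKnot) (N i : ℕ) :
    x0 Λ N ((i : ℤ) + 1) = Λ.x (((i + 1 : ℕ) : ℝ) / N) := by
  simp [x0]

theorem sum_abs (X : ℕ → ℝ) (n N : ℕ) (hn : n ≤ N) :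
    |X n - X 0| ≤ ∑ j ∈ Finset.range N, |X (j + 1) - X j| := by
  rw [← Finset.sum_range_sub X n]
  refine (Finset.abs_sum_le_sum_abs _ _).trans ?_
  exact Finset.sum_le_sum_of_subset_of_nonneg (Finset.range_mono hn)
    (fun i _ _ => abs_nonneg _)

theorem sum_sq (X : ℕ → ℝ) (n N : ℕ) (hn : n ≤ N) :
    (X n - X 0) ^ 2 ≤ N * ∑ j ∈ Finset.range N, (X (j + 1) - X j) ^ 2 := by
  have h1 := sum_abs X n N hn
  have h2 : (∑ j ∈ Finset.range N, |X (j + 1) - X j|) ^ 2 ≤
      (Finset.range N).card * ∑ j ∈ Finset.range N, |X (j + 1) - X j| ^ 2 :=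
    sq_sum_le_card_mul_sum_sq
  simp only [sq_abs, Finset.card_range] at h2
  refine le_trans ?_ h2
  rw [← sq_abs]
  exact pow_le_pow_left₀ (abs_nonneg _) h1 2

theorem den (Λ : LegKnot) (M η c : ℝ) (hM : 1 ≤ M) (hc : 0 < c) (hB : Bd Λ M η c) (N : ℕ)
    (hN : 1 ≤ N) (h2 : 2 * M ≤ c * N) :
    c ^ 2 / (4 * N) ≤ ∑ i ∈ Finset.range N, (x0 Λ N ((i : ℤ) + 1) - x0 Λ N (i : ℤ)) ^ 2 := by
  have hN0 : (0 : ℝ) < N := by exact_mod_cast hN
  have hper : Function.Periodic Λ.x 1 := by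
    intro u
    unfold LegKnot.x
    rw [Λ.periodic]
  obtain ⟨u, hu⟩ := hB.rg
  obtain ⟨v, hv0, hv1, hv⟩ : ∃ v : ℝ, 0 ≤ v ∧ v < 1 ∧ c ≤ |Λ.x v - Λ.x 0| := by
    refine ⟨Int.fract u, Int.fract_nonneg u, Int.fract_lt_one u, ?_⟩
    have : Λ.x (Int.fract u) = Λ.x u := by
      have h := hper.sub_zsmul_eq (x := u) (⌊u⌋)
      rw [zsmul_eq_mul, mul_one] at h
      exact h
    rw [this]
    exact hu
  set n : ℕ := ⌊v * N⌋₊ with hn
  have hvN : 0 ≤ v * N := by positivity
  have hn1 : (n : ℝ) ≤ v * N := Nat.floor_le hvN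
  have hn2 : v * N < n + 1 := Nat.lt_floor_add_one _
  have hnN : n ≤ N := by
    have : (n : ℝ) < N := by
      calc (n : ℝ) ≤ v * N := hn1
        _ < 1 * N := mul_lt_mul_of_pos_right hv1 hN0
        _ = N := one_mul _
    exact_mod_cast this.le
  have hd : |v - (n : ℝ) / N| ≤ 1 / N := by
    rw [abs_le]
    constructor
    · have : (n : ℝ) / N ≤ v := by rw [div_le_iff₀ hN0]; exact hn1
      have h3 : (0 : ℝ) < 1 / N := by positivity
      linarith
    · have : v ≤ ((n : ℝ) + 1) / N := by rw [le_div_iff₀ hN0]; exact hn2.le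
      rw [add_div] at this
      linarith
  have hx : |Λ.x v - Λ.x ((n : ℝ) / N)| ≤ c / 2 := by
    refine (hB.xl _ _).trans ?_
    calc M * |v - (n : ℝ) / N| ≤ M * (1 / N) := by
          exact mul_le_mul_of_nonneg_left hd (by linarith)
      _ = M / N := by ring
      _ ≤ c / 2 := by
          rw [div_le_div_iff₀ hN0 two_pos]
          linarith
  have hx0 : c / 2 ≤ |Λ.x ((n : ℝ) / N) - Λ.x 0| := by
    have h3 : |Λ.x v - Λ.x 0| ≤ |Λ.x v - Λ.x ((n : ℝ) / N)| + |Λ.x ((n : ℝ) / N) - Λ.x 0| :=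
      abs_sub_le _ _ _
    linarith only [hv, hx, h3]
  have h4 := sum_sq (fun j : ℕ => Λ.x ((j : ℝ) / N)) n N hnN
  simp only [Nat.cast_zero, zero_div] at h4
  have h5 : ∑ i ∈ Finset.range N, (x0 Λ N ((i : ℤ) + 1) - x0 Λ N (i : ℤ)) ^ 2 =
      ∑ j ∈ Finset.range N, (Λ.x (((j + 1 : ℕ) : ℝ) / N) - Λ.x ((j : ℝ) / N)) ^ 2 := by
    refine Finset.sum_congr rfl fun i _ => ?_
    rw [x0_nat, x0_nat_succ]
  rw [h5]
  have h6 : (c / 2) ^ 2 ≤ (Λ.x ((n : ℝ) / N) - Λ.x 0) ^ 2 := by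
    rw [← sq_abs (Λ.x ((n : ℝ) / N) - Λ.x 0)]
    exact pow_le_pow_left₀ (by positivity) hx0 2
  rw [div_le_iff₀ (by positivity)]
  linarith only [h4, h6]

theorem num (mid : P_MID) (Λ : LegKnot) (M η c : ℝ) (hB : Bd Λ M η c) (N : ℕ) (hN : 1 ≤ N) :
    |∑ i ∈ Finset.range N, y0 Λ N (i : ℤ) * (x0 Λ N ((i : ℤ) + 1) - x0 Λ N (i : ℤ))| ≤
      M ^ 2 / N := by
  have hN0 : (0 : ℝ) < N := by exact_mod_cast hN
  have hz : ∑ i ∈ Finset.range N, (zc Λ (((i + 1 : ℕ) : ℝ) / N) - zc Λ ((i : ℝ) / N)) = 0 := by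
    rw [Finset.sum_range_sub (fun i : ℕ => zc Λ ((i : ℝ) / N)) N]
    rw [div_self hN0.ne', Nat.cast_zero, zero_div]
    have : zc Λ (0 + 1) = zc Λ 0 := by
      unfold zc
      rw [Λ.periodic]
    rw [zero_add] at this
    rw [this, sub_self]
  have h1 : ∑ i ∈ Finset.range N, y0 Λ N (i : ℤ) * (x0 Λ N ((i : ℤ) + 1) - x0 Λ N (i : ℤ)) =
      ∑ i ∈ Finset.range N, (y0 Λ N (i : ℤ) * (x0 Λ N ((i : ℤ) + 1) - x0 Λ N (i : ℤ)) -
        (zc Λ (((i + 1 : ℕ) : ℝ) / N) - zc Λ ((i : ℝ) / N))) := by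
    rw [Finset.sum_sub_distrib, hz, sub_zero]
  rw [h1]
  refine (Finset.abs_sum_le_sum_abs _ _).trans ?_
  have h2 : ∀ i ∈ Finset.range N,
      |y0 Λ N (i : ℤ) * (x0 Λ N ((i : ℤ) + 1) - x0 Λ N (i : ℤ)) -
        (zc Λ (((i + 1 : ℕ) : ℝ) / N) - zc Λ ((i : ℝ) / N))| ≤ M ^ 2 / (N : ℝ) ^ 2 := by
    intro i _
    have h := mid Λ M η c hB N hN (i : ℤ)
    simpa only [Int.cast_natCast, Nat.cast_add, Nat.cast_one] using h
  refine (Finset.sum_le_sum h2).trans ?_
  rw [Finset.sum_const, Finset.card_range, nsmul_eq_mul]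
  apply le_of_eq
  field_simp

end MUB

theorem t_MUB : Stmt_MUB := by
  intro _ mid Λ M η c hM hc hB N hN h2
  have hN0 : (0 : ℝ) < N := by exact_mod_cast hN
  have hden := MUB.den Λ M η c hM hc hB N hN h2
  have hnum := MUB.num mid Λ M η c hB N hN
  have hc4 : 0 < c ^ 2 / (4 * N) := by positivity
  have hpos := lt_of_lt_of_le hc4 hden
  refine ⟨hpos, ?_⟩
  unfold mu
  rw [abs_div, abs_of_pos hpos, div_le_iff₀ hpos]
  refine hnum.trans ?_
  calc M ^ 2 / N = 4 * M ^ 2 / c ^ 2 * (c ^ 2 / (4 * N)) := by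
        field_simp
    _ ≤ _ := mul_le_mul_of_nonneg_left hden (by positivity)

end LHS


end

section

/-!
# ZAP: the vertices of the polygon are close to the front of the knot
-/

namespace LHS

open Set LH LC Filter
open scoped ContDiff Topology

namespace ZAP

/-- The error at the vertex `i`. -/
noncomputable def er (Λ : LegKnot) {N : ℕ} (P : Pg N) (i : ℤ) : ℝ := P.z i - (zc Λ ((i : ℝ) / N) - zc Λ 0)

theorem er_zero (Λ : LegKnot) {N : ℕ} (P : Pg N) (h : P.z 0 = 0) : er Λ P 0 = 0 := by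
  unfold er; simp [h]

theorem er_per (Λ : LegKnot) {N : ℕ} (hN : 1 ≤ N) (P : Pg N)
    (hz : ∀ u, zc Λ (u + 1) = zc Λ u) (i : ℤ) : er Λ P (i + N) = er Λ P i := by
  unfold er
  have hN' : (N : ℝ) ≠ 0 := by positivity
  have : (((i + N : ℤ) : ℝ)) / N = (i : ℝ) / N + 1 := by
    push_cast; field_simp
  rw [P.pz, this, hz]

theorem er_step (Λ : LegKnot) {M c : ℝ} (hM : 1 ≤ M) (hc : 0 < c) {N : ℕ} (hN : 1 ≤ N)
    (P : Pg N) (hP : IsPN Λ N P)
    (hxl : ∀ u v, |Λ.x u - Λ.x v| ≤ M * |u - v|)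
    (hmid : ∀ i : ℤ, |y0 Λ N i * (x0 Λ N (i + 1) - x0 Λ N i) -
      (zc Λ (((i : ℝ) + 1) / N) - zc Λ ((i : ℝ) / N))| ≤ M ^ 2 / (N : ℝ) ^ 2)
    (hmu : |mu Λ N| ≤ 4 * M ^ 2 / c ^ 2) (i : ℤ) :
    |er Λ P (i + 1) - er Λ P i| ≤ (M ^ 2 + 4 * M ^ 4 / c ^ 2) / (N : ℝ) ^ 2 := by
  have hN0 : (0 : ℝ) < N := by positivity
  obtain ⟨hx, hy, -⟩ := hP
  have hD : |x0 Λ N (i + 1) - x0 Λ N i| ≤ M / N := by
    have h := hxl (((i + 1 : ℤ) : ℝ) / N) ((i : ℝ) / N)
    have e : ((i + 1 : ℤ) : ℝ) / N - (i : ℝ) / N = 1 / N := by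
      push_cast; field_simp; ring
    rw [e, abs_of_pos (by positivity : (0 : ℝ) < 1 / N)] at h
    unfold x0
    calc |Λ.x (((i + 1 : ℤ) : ℝ) / N) - Λ.x ((i : ℝ) / N)| ≤ M * (1 / N) := h
      _ = M / N := by ring
  have hcl := P.cl i
  rw [hx, hy] at hcl
  have e1 : er Λ P (i + 1) - er Λ P i =
      (y0 Λ N i * (x0 Λ N (i + 1) - x0 Λ N i) -
        (zc Λ (((i : ℝ) + 1) / N) - zc Λ ((i : ℝ) / N))) -
      mu Λ N * (x0 Λ N (i + 1) - x0 Λ N i) ^ 2 := by
    unfold er
    rw [hcl]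
    unfold y1
    push_cast
    ring
  rw [e1]
  have h2 : |mu Λ N * (x0 Λ N (i + 1) - x0 Λ N i) ^ 2| ≤ 4 * M ^ 2 / c ^ 2 * (M / N) ^ 2 := by
    rw [abs_mul, abs_pow]
    exact mul_le_mul hmu (pow_le_pow_left₀ (abs_nonneg _) hD 2) (by positivity) (by positivity)
  calc |(y0 Λ N i * (x0 Λ N (i + 1) - x0 Λ N i) -
        (zc Λ (((i : ℝ) + 1) / N) - zc Λ ((i : ℝ) / N))) -
      mu Λ N * (x0 Λ N (i + 1) - x0 Λ N i) ^ 2|
      ≤ |y0 Λ N i * (x0 Λ N (i + 1) - x0 Λ N i) -
        (zc Λ (((i : ℝ) + 1) / N) - zc Λ ((i : ℝ) / N))| +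
        |mu Λ N * (x0 Λ N (i + 1) - x0 Λ N i) ^ 2| := abs_sub _ _
    _ ≤ M ^ 2 / (N : ℝ) ^ 2 + 4 * M ^ 2 / c ^ 2 * (M / N) ^ 2 := add_le_add (hmid i) h2
    _ = (M ^ 2 + 4 * M ^ 4 / c ^ 2) / (N : ℝ) ^ 2 := by
      field_simp

theorem bound_nat (f : ℤ → ℝ) (C : ℝ) (h0 : f 0 = 0) (hs : ∀ i, |f (i + 1) - f i| ≤ C) (n : ℕ) :
    |f n| ≤ n * C := by
  induction n with
  | zero => simp [h0]
  | succ n ih =>
    have h := hs n
    have e : f ((n + 1 : ℕ) : ℤ) = (f ((n : ℤ) + 1) - f n) + f n := by push_cast; ring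
    rw [e]
    calc |f ((n : ℤ) + 1) - f n + f n| ≤ |f ((n : ℤ) + 1) - f n| + |f n| := abs_add_le _ _
      _ ≤ C + n * C := add_le_add h ih
      _ = ((n + 1 : ℕ) : ℝ) * C := by push_cast; ring

theorem per_int (f : ℤ → ℝ) (N : ℕ) (hp : ∀ i, f (i + N) = f i) (i k : ℤ) :
    f (i + k * N) = f i := by
  have hper : Function.Periodic f (N : ℤ) := hp
  have := hper.int_mul k i
  simpa using this

end ZAP

theorem t_ZAP : Stmt_ZAP := by
  intro hBAS hMID hMUB Λ M η c hM hc hB N hN hNc P hP i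
  obtain ⟨-, -, -, -, -, hz, -⟩ := hBAS Λ
  have hmid := hMID Λ M η c hB N hN
  obtain ⟨-, hmu⟩ := hMUB Λ M η c hM hc hB N hN hNc
  have hN0 : (0 : ℝ) < N := by positivity
  have hs := ZAP.er_step Λ hM hc hN P hP hB.xl hmid hmu
  have h0 := ZAP.er_zero Λ P hP.2.2
  have hp := ZAP.er_per Λ hN P hz
  have hbn := ZAP.bound_nat (ZAP.er Λ P) _ h0 hs
  have hNz : (0 : ℤ) < (N : ℤ) := by exact_mod_cast hN
  have e1 : ZAP.er Λ P i = ZAP.er Λ P (i % N) := by
    have := ZAP.per_int (ZAP.er Λ P) N hp (i % N) (i / N)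
    rw [← this, mul_comm, Int.emod_add_mul_ediv]
  obtain ⟨n, hn⟩ := Int.eq_ofNat_of_zero_le (Int.emod_nonneg i hNz.ne')
  have hlt : i % N < N := Int.emod_lt_of_pos i hNz
  have hnN : (n : ℝ) ≤ N := by
    have : (n : ℤ) < N := by rw [← hn]; exact hlt
    exact_mod_cast this.le
  change |ZAP.er Λ P i| ≤ _
  rw [e1, hn]
  refine (hbn n).trans ?_
  have hC : 0 ≤ (M ^ 2 + 4 * M ^ 4 / c ^ 2) / (N : ℝ) ^ 2 := by positivity
  calc (n : ℝ) * ((M ^ 2 + 4 * M ^ 4 / c ^ 2) / (N : ℝ) ^ 2)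
      ≤ N * ((M ^ 2 + 4 * M ^ 4 / c ^ 2) / (N : ℝ) ^ 2) := mul_le_mul_of_nonneg_right hnN hC
    _ = (M ^ 2 + 4 * M ^ 4 / c ^ 2) / N := by field_simp

end LHS


end

section

/-!
# LFT: knots with the same carrier differ by a continuous change of the parameter
-/

namespace LHS

open Set LH LC Filter
open scoped ContDiff Topology

namespace LFT

/-- The knot as a map of the circle. -/
noncomputable def circ (Λ : LegKnot) : AddCircle (1 : ℝ) → R3 :=
  Function.Periodic.lift (f := Λ.γ) (c := (1 : ℝ)) Λ.periodic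

theorem circ_coe (Λ : LegKnot) (u : ℝ) : circ Λ (u : AddCircle (1 : ℝ)) = Λ.γ u := rfl

theorem circ_continuous (Λ : LegKnot) : Continuous (circ Λ) := by
  have h : Continuous Λ.γ := Λ.smooth.continuous
  exact continuous_coinduced_dom.mpr h

theorem circ_injective (Λ : LegKnot) : Function.Injective (circ Λ) := by
  intro a b hab
  obtain ⟨u, rfl⟩ := QuotientAddGroup.mk_surjective a
  obtain ⟨v, rfl⟩ := QuotientAddGroup.mk_surjective b
  have h : Λ.γ u = Λ.γ v := hab
  obtain ⟨k, hk⟩ := Λ.injective u v h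
  have h2 : ((v - u : ℝ) : AddCircle (1 : ℝ)) = 0 := by
    rw [AddCircle.coe_eq_zero_iff]
    exact ⟨k, by rw [hk]; simp⟩
  have h3 : ((v : ℝ) : AddCircle (1 : ℝ)) = (u : AddCircle (1 : ℝ)) := by
    rw [AddCircle.coe_sub, sub_eq_zero] at h2
    exact h2
  exact h3.symm

end LFT

theorem t_LFT : Stmt_LFT := by
  intro Λ Λ' hcar
  haveI : Fact ((0 : ℝ) < 1) := ⟨zero_lt_one⟩
  have hemb : Topology.IsClosedEmbedding (LFT.circ Λ') :=
    (LFT.circ_continuous Λ').isClosedEmbedding (LFT.circ_injective Λ')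
  have hex : ∀ u : ℝ, ∃ a : AddCircle (1 : ℝ), LFT.circ Λ' a = Λ.γ u := by
    intro u
    have h1 : Λ.γ u ∈ Λ'.carrier := by
      rw [← hcar]
      exact ⟨u, rfl⟩
    obtain ⟨v, hv⟩ := h1
    exact ⟨(v : AddCircle (1 : ℝ)), hv⟩
  choose θ hθ using hex
  have hθc : Continuous θ := by
    rw [hemb.isEmbedding.continuous_iff]
    have h2 : (LFT.circ Λ') ∘ θ = Λ.γ := funext hθ
    rw [h2]
    exact Λ.smooth.continuous
  obtain ⟨e₀, he₀⟩ := QuotientAddGroup.mk_surjective (θ 0)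
  obtain ⟨F, ⟨-, hF⟩, -⟩ :=
    (AddCircle.isCoveringMap_coe (1 : ℝ)).existsUnique_continuousMap_lifts
      (⟨θ, hθc⟩ : C(ℝ, AddCircle (1 : ℝ))) 0 e₀ he₀
  refine ⟨F, F.continuous, fun u => ?_⟩
  have h3 : ((F u : ℝ) : AddCircle (1 : ℝ)) = θ u := congrFun hF u
  have h4 := hθ u
  rw [← h3] at h4
  exact h4.symm

end LHS


end

section

/-!
# PTH: soundness of the path checker
-/

set_option autoImplicit false

namespace LHJ

open Set LG LH LHE

namespace PTH

theorem cycb_iff (a b c : ℕ) : cycb a b c = true ↔ cyc (a : ℝ) b c := by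
  unfold cycb cyc
  simp only [Bool.or_eq_true, Bool.and_eq_true, decide_eq_true_eq, Nat.cast_lt, or_assoc]

theorem btb_iff (a b x : ℕ) : btb a b x = true ↔
    ((a : ℝ) < x ∧ (x : ℝ) < b ∨ (b : ℝ) < x ∧ (x : ℝ) < a) := by
  unfold btb
  simp only [Bool.or_eq_true, Bool.and_eq_true, decide_eq_true_eq, Nat.cast_lt]

theorem unb_imp {a b c d : ℕ} (h : unb a b c d = true) : Unl (a : ℝ) b c d := by
  unfold unb at h
  simp only [Bool.and_eq_true, Bool.not_eq_true', beq_eq_false_iff_ne, beq_iff_eq] at h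
  obtain ⟨⟨⟨⟨h1, h2⟩, h3⟩, h4⟩, h5⟩ := h
  refine ⟨?_, ?_, ?_, ?_, ?_⟩
  · exact_mod_cast h1
  · exact_mod_cast h2
  · exact_mod_cast h3
  · exact_mod_cast h4
  · rw [← cycb_iff, ← cycb_iff, h5]

theorem adb_spec {f : ℕ × ℕ → ℕ × ℕ → Bool} (B₁ B₂ : List (ℕ × ℕ)) (y x : ℕ × ℕ)
    (h : adb f (B₁ ++ y :: x :: B₂) = true) : f y x = true := by
  induction B₁ with
  | nil =>
    have h1 : (f y x && adb f (x :: B₂)) = true := h
    rw [Bool.and_eq_true] at h1
    exact h1.1
  | cons b B₁ ih =>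
    apply ih
    cases B₁ with
    | nil =>
      have h1 : (f b y && adb f (y :: x :: B₂)) = true := h
      rw [Bool.and_eq_true] at h1
      exact h1.2
    | cons w B₁ =>
      have h1 : (f b w && adb f (w :: (B₁ ++ y :: x :: B₂))) = true := h
      rw [Bool.and_eq_true] at h1
      exact h1.2

theorem dec {L : List (ℕ × ℕ)} {B₁ B₂ : List (ℝ × ℝ)} {y x : ℝ × ℝ}
    (h : cst L = B₁ ++ y :: x :: B₂) : ∃ (A₁ A₂ : List (ℕ × ℕ)) (y' x' : ℕ × ℕ),
      L = A₁ ++ y' :: x' :: A₂ ∧ y = ((y'.1 : ℝ), (y'.2 : ℝ)) ∧ x = ((x'.1 : ℝ), (x'.2 : ℝ)) := by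
  unfold cst at h
  obtain ⟨l₁, l₂, h1, -, h3⟩ := List.map_eq_append_iff.mp h
  obtain ⟨y', l₃, h4, h5, h6⟩ := List.map_eq_cons_iff.mp h3
  obtain ⟨x', l₄, h7, h8, -⟩ := List.map_eq_cons_iff.mp h6
  exact ⟨l₁, l₄, y', x', by rw [h1, h4, h7], h5.symm, h8.symm⟩

theorem cst_cons (a b : ℕ) (L : List (ℕ × ℕ)) : cst ((a, b) :: L) = ((a : ℝ), (b : ℝ)) :: cst L :=
  rfl

theorem cst_append (L L' : List (ℕ × ℕ)) : cst (L ++ L') = cst L ++ cst L' := by
  unfold cst
  exact List.map_append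

theorem lst (x : ℕ × ℕ) (B : List (ℕ × ℕ)) : ∃ (B0 : List (ℕ × ℕ)) (z : ℕ × ℕ),
    x :: B = B0 ++ [z] ∧ (x :: B).getLastD (0, 0) = z := by
  have hne : x :: B ≠ [] := List.cons_ne_nil _ _
  refine ⟨(x :: B).dropLast, (x :: B).getLast hne, (List.dropLast_append_getLast hne).symm, ?_⟩
  rw [List.getLastD_eq_getLast?, List.getLast?_eq_some_getLast hne]
  rfl

theorem all_fst {L : List (ℕ × ℕ)} {t : ℕ} (h : (L.all fun p => !(p.1 == t)) = true) :
    (t : ℝ) ∉ (cst L).map Prod.fst := by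
  intro hm
  obtain ⟨p, hp, h1⟩ := List.mem_map.mp hm
  obtain ⟨q, hq, h2⟩ := List.mem_map.mp hp
  have h3 := List.all_eq_true.mp h q hq
  simp only [Bool.not_eq_true', beq_eq_false_iff_ne] at h3
  rw [← h2] at h1
  have h4 : (q.1 : ℝ) = t := h1
  exact h3 (by exact_mod_cast h4)

theorem all_snd {L : List (ℕ × ℕ)} {t : ℕ} (h : (L.all fun p => !(p.2 == t)) = true) :
    (t : ℝ) ∉ (cst L).map Prod.snd := by
  intro hm
  obtain ⟨p, hp, h1⟩ := List.mem_map.mp hm
  obtain ⟨q, hq, h2⟩ := List.mem_map.mp hp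
  have h3 := List.all_eq_true.mp h q hq
  simp only [Bool.not_eq_true', beq_eq_false_iff_ne] at h3
  rw [← h2] at h1
  have h4 : (q.2 : ℝ) = t := h1
  exact h3 (by exact_mod_cast h4)

theorem all_cyc_fst {L : List (ℕ × ℕ)} {a b : ℕ}
    (h : (L.all fun p => !(cycb a p.1 b)) = true) :
    ∀ d ∈ (cst L).map Prod.fst, ¬ cyc (a : ℝ) d b := by
  intro d hd
  obtain ⟨p, hp, h1⟩ := List.mem_map.mp hd
  obtain ⟨q, hq, h2⟩ := List.mem_map.mp hp
  have h3 := List.all_eq_true.mp h q hq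
  rw [← h1, ← h2]
  simp only
  rw [← cycb_iff]
  intro h4
  rw [h4] at h3
  exact Bool.noConfusion h3

theorem all_cyc_snd {L : List (ℕ × ℕ)} {a b : ℕ}
    (h : (L.all fun p => !(cycb a p.2 b)) = true) :
    ∀ d ∈ (cst L).map Prod.snd, ¬ cyc (a : ℝ) d b := by
  intro d hd
  obtain ⟨p, hp, h1⟩ := List.mem_map.mp hd
  obtain ⟨q, hq, h2⟩ := List.mem_map.mp hp
  have h3 := List.all_eq_true.mp h q hq
  rw [← h1, ← h2]
  simp only
  rw [← cycb_iff]
  intro h4
  rw [h4] at h3
  exact Bool.noConfusion h3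

theorem nd_tail {a : ℝ × ℝ} {L : List (ℝ × ℝ)} (h : Nd (a :: L)) : Nd L :=
  ⟨(List.nodup_cons.mp h.1).2, (List.nodup_cons.mp h.2).2⟩

theorem nd_skip {a b : ℝ × ℝ} {L : List (ℝ × ℝ)} (h : Nd (a :: b :: L)) : Nd (a :: L) := by
  refine ⟨List.Nodup.sublist ?_ h.1, List.Nodup.sublist ?_ h.2⟩
  · exact List.Sublist.map _ (List.Sublist.cons_cons _ (List.sublist_cons_self _ _))
  · exact List.Sublist.map _ (List.Sublist.cons_cons _ (List.sublist_cons_self _ _))

theorem sound_col {c r t : ℕ} {x : ℕ × ℕ} {B L' : List (ℕ × ℕ)}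
    (hN : Nd (cst ((c, r) :: x :: B))) (h : stp (.col t) ((c, r) :: x :: B) = some L') :
    Nd (cst L') ∧ LEq (cst ((c, r) :: x :: B)) (cst L') := by
  obtain ⟨B0, z, h1, h2⟩ := lst x B
  change (if _ then _ else none) = some L' at h
  split_ifs at h with hc
  have h' := Option.some.inj h
  rw [Bool.and_eq_true] at hc
  obtain ⟨hc1, hc2⟩ := hc
  have ht := all_fst hc1
  rw [← h']
  rw [h2] at hc2
  rw [h1] at hN hc2 ht ⊢
  constructor
  · refine ⟨?_, hN.2⟩
    have ht2 : (t : ℝ) ∉ (cst (B0 ++ [z])).map Prod.fst := fun hm =>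
      ht (List.mem_cons_of_mem _ hm)
    exact List.nodup_cons.mpr ⟨ht2, (List.nodup_cons.mp hN.1).2⟩
  · have e : cst (B0 ++ [z]) = cst B0 ++ [((z.1 : ℝ), (z.2 : ℝ))] := cst_append _ _
    refine Relation.EqvGen.rel _ _ ?_
    rw [cst_cons, cst_cons]
    rw [cst_cons] at hN ht
    rw [e] at hN ht ⊢
    refine Mv.col _ _ _ _ _ hN ht ?_
    intro B₁ B₂ y x' hd hb
    rw [← e, ← cst_cons] at hd
    obtain ⟨A₁, A₂, y', x'', h3, h4, h5⟩ := dec hd
    rw [h3] at hc2
    have h6 := adb_spec _ _ _ _ hc2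
    rw [h5] at hb
    have h7 := (btb_iff c t x''.1).mpr hb
    rw [h7, Bool.not_true, Bool.false_or] at h6
    rw [h4, h5]
    exact unb_imp h6

theorem sound_row {c r t : ℕ} {x : ℕ × ℕ} {B L' : List (ℕ × ℕ)}
    (hN : Nd (cst ((c, r) :: x :: B))) (h : stp (.row t) ((c, r) :: x :: B) = some L') :
    Nd (cst L') ∧ LEq (cst ((c, r) :: x :: B)) (cst L') := by
  change (if _ then _ else none) = some L' at h
  split_ifs at h with hc
  have h' := Option.some.inj h
  rw [Bool.and_eq_true] at hc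
  obtain ⟨hc1, hc2⟩ := hc
  have ht := all_snd hc1
  rw [← h']
  constructor
  · refine ⟨hN.1, ?_⟩
    have ht2 : (t : ℝ) ∉ (cst (x :: B)).map Prod.snd := fun hm =>
      ht (List.mem_cons_of_mem _ hm)
    exact List.nodup_cons.mpr ⟨ht2, (List.nodup_cons.mp hN.2).2⟩
  · refine Relation.EqvGen.rel _ _ ?_
    refine Mv.row _ _ _ _ _ hN ht ?_
    intro B₁ B₂ x' y hd hb
    have e : cst ((c, r) :: x :: B ++ [(c, r)]) = ((c : ℝ), (r : ℝ)) :: ((x.1 : ℝ), (x.2 : ℝ)) ::
        cst B ++ [((c : ℝ), (r : ℝ))] := by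
      rw [cst_append]
      rfl
    have hd' : cst ((c, r) :: x :: B ++ [(c, r)]) = B₁ ++ x' :: y :: B₂ := e.trans hd
    obtain ⟨A₁, A₂, y', x'', h3, h4, h5⟩ := dec hd'
    rw [h3] at hc2
    have h6 := adb_spec _ _ _ _ hc2
    rw [h4] at hb
    have h7 := (btb_iff r t y'.2).mpr hb
    rw [h7, Bool.not_true, Bool.false_or] at h6
    rw [h4, h5]
    exact unb_imp h6

theorem sound_sr {c₁ r₁ c₂ r₂ : ℕ} {x : ℕ × ℕ} {B L' : List (ℕ × ℕ)}
    (hN : Nd (cst ((c₁, r₁) :: (c₂, r₂) :: x :: B)))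
    (h : stp .sr ((c₁, r₁) :: (c₂, r₂) :: x :: B) = some L') :
    Nd (cst L') ∧ LEq (cst ((c₁, r₁) :: (c₂, r₂) :: x :: B)) (cst L') := by
  obtain ⟨B0, z, h1, h2⟩ := lst x B
  change (if _ then _ else none) = some L' at h
  split_ifs at h with hc
  have h' := Option.some.inj h
  rw [← h']
  refine ⟨nd_tail hN, ?_⟩
  rw [h2] at hc
  rw [h1] at hN hc ⊢
  have e : cst (B0 ++ [z]) = cst B0 ++ [((z.1 : ℝ), (z.2 : ℝ))] := cst_append _ _
  refine Relation.EqvGen.rel _ _ ?_
  have ha : (∀ d ∈ (cst ((c₁, r₁) :: (c₂, r₂) :: (B0 ++ [z]))).map Prod.fst, ¬ cyc (c₁ : ℝ) d c₂) ∧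
        cyc (r₁ : ℝ) r₂ z.2 ∨
      (∀ d ∈ (cst ((c₁, r₁) :: (c₂, r₂) :: (B0 ++ [z]))).map Prod.fst, ¬ cyc (c₂ : ℝ) d c₁) ∧
        cyc (z.2 : ℝ) r₂ r₁ := by
    rw [Bool.or_eq_true, Bool.and_eq_true, Bool.and_eq_true] at hc
    rcases hc with ⟨a1, a2⟩ | ⟨a1, a2⟩
    · exact Or.inl ⟨all_cyc_fst a1, (cycb_iff _ _ _).mp a2⟩
    · exact Or.inr ⟨all_cyc_fst a1, (cycb_iff _ _ _).mp a2⟩
  rw [cst_cons, cst_cons, e] at hN ha ⊢
  exact Mv.srow _ _ _ _ _ _ hN ha

theorem sound_sc {c₁ r₁ c₂ r₂ : ℕ} {z : ℕ × ℕ} {B L' : List (ℕ × ℕ)}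
    (hN : Nd (cst ((c₁, r₁) :: (c₂, r₂) :: z :: B)))
    (h : stp .sc ((c₁, r₁) :: (c₂, r₂) :: z :: B) = some L') :
    Nd (cst L') ∧ LEq (cst ((c₁, r₁) :: (c₂, r₂) :: z :: B)) (cst L') := by
  change (if _ then _ else none) = some L' at h
  split_ifs at h with hc
  have h' := Option.some.inj h
  rw [← h']
  refine ⟨nd_skip hN, ?_⟩
  refine Relation.EqvGen.rel _ _ ?_
  have ha : (∀ d ∈ (cst ((c₁, r₁) :: (c₂, r₂) :: z :: B)).map Prod.snd, ¬ cyc (r₁ : ℝ) d r₂) ∧
        cyc (z.1 : ℝ) c₁ c₂ ∨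
      (∀ d ∈ (cst ((c₁, r₁) :: (c₂, r₂) :: z :: B)).map Prod.snd, ¬ cyc (r₂ : ℝ) d r₁) ∧
        cyc (c₂ : ℝ) c₁ z.1 := by
    rw [Bool.or_eq_true, Bool.and_eq_true, Bool.and_eq_true] at hc
    rcases hc with ⟨a1, a2⟩ | ⟨a1, a2⟩
    · exact Or.inl ⟨all_cyc_snd a1, (cycb_iff _ _ _).mp a2⟩
    · exact Or.inr ⟨all_cyc_snd a1, (cycb_iff _ _ _).mp a2⟩
  exact Mv.scol _ _ _ _ _ _ hN ha

theorem sound (o : Op) (L L' : List (ℕ × ℕ)) (hN : Nd (cst L)) (h : stp o L = some L') :
    Nd (cst L') ∧ LEq (cst L) (cst L') := by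
  match o, L, hN, h with
  | .rot k, L, hN, h =>
    have h' : L.drop k ++ L.take k = L' := Option.some.inj h
    rw [← h', cst_append]
    have e : cst L = cst (L.take k) ++ cst (L.drop k) := by
      rw [← cst_append, List.take_append_drop]
    rw [e] at hN ⊢
    constructor
    · refine ⟨?_, ?_⟩
      · exact (List.Perm.map _ List.perm_append_comm).nodup_iff.mp hN.1
      · exact (List.Perm.map _ List.perm_append_comm).nodup_iff.mp hN.2
    · exact Relation.EqvGen.rel _ _ (Mv.rot _ _)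
  | .col t, (c, r) :: x :: B, hN, h => exact sound_col hN h
  | .row t, (c, r) :: x :: B, hN, h => exact sound_row hN h
  | .sr, (c₁, r₁) :: (c₂, r₂) :: x :: B, hN, h => exact sound_sr hN h
  | .sc, (c₁, r₁) :: (c₂, r₂) :: z :: B, hN, h => exact sound_sc hN h
  | .col t, [], hN, h => exact absurd h (by simp [stp])
  | .col t, [_], hN, h => exact absurd h (by simp [stp])
  | .row t, [], hN, h => exact absurd h (by simp [stp])
  | .row t, [_], hN, h => exact absurd h (by simp [stp])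
  | .sr, [], hN, h => exact absurd h (by simp [stp])
  | .sr, [_], hN, h => exact absurd h (by simp [stp])
  | .sr, [_, _], hN, h => exact absurd h (by simp [stp])
  | .sc, [], hN, h => exact absurd h (by simp [stp])
  | .sc, [_], hN, h => exact absurd h (by simp [stp])
  | .sc, [_, _], hN, h => exact absurd h (by simp [stp])

end PTH

theorem t_PTH : Stmt_PTH := by
  intro os
  induction os with
  | nil =>
    intro L L' hN h
    have h' : L = L' := Option.some.inj h
    rw [← h']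
    exact ⟨hN, Relation.EqvGen.refl _⟩
  | cons o os ih =>
    intro L L' hN h
    unfold run at h
    cases hs : stp o L with
    | none =>
      rw [hs] at h
      have h2 : (none : Option (List (ℕ × ℕ))) = some L' := h
      exact nomatch h2
    | some L₁ =>
      rw [hs] at h
      obtain ⟨h1, h2⟩ := PTH.sound o L L₁ hN hs
      obtain ⟨h3, h4⟩ := ih L₁ L' h1 h
      exact ⟨h3, Relation.EqvGen.trans _ _ _ h2 h4⟩

end LHJ


end

section

/-!
# The polygons approximate the knot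
-/

namespace LHE

open Set LG LH
open scoped ContDiff

namespace EST

/-- The uniform bounds of one knot. -/
theorem ex_Bd (Λ : LC.LegKnot) : ∃ M η c : ℝ, 1 ≤ M ∧ 0 < c ∧ LHS.Bd Λ M η c := by
  have hF : LHS.Fam (fun _ => Λ) := (Λ.smooth.comp contDiff_snd).contDiffOn
  obtain ⟨M, hM, h1⟩ := LHS.t_BD1 LHS.t_BAS LHS.t_CTN _ hF
  obtain ⟨η, -, h2⟩ := LHS.t_BD2 LHS.t_BAS LHS.t_CTN _ hF
  obtain ⟨c, hc, h3⟩ := LHS.t_BD3 LHS.t_BAS LHS.t_CTN _ hF
  have h0 : (0 : ℝ) ∈ Icc (0 : ℝ) 1 := ⟨le_refl _, zero_le_one⟩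
  obtain ⟨a1, a2, a3, a4⟩ := h1 0 h0
  exact ⟨M, η, c, hM, hc, ⟨a1, a2, a3, a4, h2 0 h0, h3 0 h0⟩⟩

/-- The second difference. -/
theorem second_diff (Λ : LC.LegKnot) {M : ℝ}
    (hd : ∀ u v, |deriv Λ.x u - deriv Λ.x v| ≤ M * |u - v|) (u h : ℝ) (hh : 0 ≤ h) :
    |Λ.x (u + h + h) - 2 * Λ.x (u + h) + Λ.x u| ≤ M * h * h := by
  have hx : ∀ v, HasDerivAt Λ.x (deriv Λ.x v) v := (LHS.t_BAS Λ).2.2.2.2.2.2.1
  have hg : ∀ v ∈ Icc u (u + h), HasDerivWithinAt (fun v => Λ.x (v + h) - Λ.x v)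
      (deriv Λ.x (v + h) - deriv Λ.x v) (Icc u (u + h)) v := by
    intro v _
    exact (((hx (v + h)).comp_add_const v h).sub (hx v)).hasDerivWithinAt
  have hb : ∀ v ∈ Icc u (u + h), ‖deriv Λ.x (v + h) - deriv Λ.x v‖ ≤ M * h := by
    intro v _
    rw [Real.norm_eq_abs]
    refine (hd _ _).trans (le_of_eq ?_)
    rw [add_sub_cancel_left, abs_of_nonneg hh]
  have h1 := (convex_Icc u (u + h)).norm_image_sub_le_of_norm_hasDerivWithin_le hg hb
    (left_mem_Icc.mpr (by linarith)) (right_mem_Icc.mpr (by linarith))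
  rw [Real.norm_eq_abs, Real.norm_eq_abs, add_sub_cancel_left, abs_of_nonneg hh] at h1
  have e : Λ.x (u + h + h) - 2 * Λ.x (u + h) + Λ.x u =
      Λ.x (u + h + h) - Λ.x (u + h) - (Λ.x (u + h) - Λ.x u) := by ring
  rw [e]
  exact h1

end EST

open _root_.LHE.EST in
theorem t_EST : Stmt_EST := by
  intro Λ
  obtain ⟨M, η, c, hM, hc, hB⟩ := ex_Bd Λ
  have hMID := LHS.t_MID LHS.t_BAS
  have hMUB := LHS.t_MUB LHS.t_BAS hMID
  have hZAP := LHS.t_ZAP LHS.t_BAS hMID hMUB
  set B : ℝ := 4 * M ^ 2 / c ^ 2 with hBdef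
  have hB0 : 0 ≤ B := by positivity
  have hM0 : 0 < M := by linarith
  set Z : ℝ := M ^ 2 + 4 * M ^ 4 / c ^ 2 with hZdef
  have hZ0 : 0 ≤ Z := by positivity
  have hBM : 0 ≤ B * M := by positivity
  refine ⟨B + B * M + Z + M + 1, by positivity, ⌈2 * M / c⌉₊ + 1, Nat.succ_pos _, ?_⟩
  intro N hN P hP
  have hN1 : 1 ≤ N := le_trans (Nat.succ_le_succ (Nat.zero_le _)) hN
  have hNR : (1 : ℝ) ≤ N := by exact_mod_cast hN1
  have hN0 : (0 : ℝ) < N := by linarith
  have hcN : 2 * M ≤ c * N := by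
    have h1 : 2 * M / c ≤ ⌈2 * M / c⌉₊ := Nat.le_ceil _
    have h2 : ((⌈2 * M / c⌉₊ + 1 : ℕ) : ℝ) ≤ N := by exact_mod_cast hN
    push_cast at h2
    have h3 : 2 * M / c ≤ N := by linarith
    rw [div_le_iff₀ hc] at h3
    linarith
  obtain ⟨hpx, hpy, hpz⟩ := hP
  have hmu : |mu Λ N| ≤ B := (hMUB Λ M η c hM hc hB N hN1 hcN).2
  have hxx : ∀ i : ℤ, |P.x (i + 1) - P.x i| ≤ M / N := by
    intro i
    rw [hpx]
    unfold x0
    have h1 := hB.xl (((i + 1 : ℤ) : ℝ) / N) ((i : ℝ) / N)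
    have h2 : (((i + 1 : ℤ) : ℝ) / N - (i : ℝ) / N) = 1 / N := by
      push_cast
      ring
    rw [h2, abs_of_pos (by positivity : (0 : ℝ) < 1 / N)] at h1
    have h3 : M * (1 / (N : ℝ)) = M / N := by ring
    rwa [h3] at h1
  have hyy : ∀ i : ℤ, |P.y i - Λ.y ((i + 1 / 2) / N)| ≤ B * M / N := by
    intro i
    rw [hpy]
    unfold y1 y0
    have h1 : Λ.y (((i : ℝ) + 1 / 2) / N) - mu Λ N * (x0 Λ N (i + 1) - x0 Λ N i) -
        Λ.y (((i : ℝ) + 1 / 2) / N) = -(mu Λ N * (x0 Λ N (i + 1) - x0 Λ N i)) := by ring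
    rw [h1, abs_neg, abs_mul]
    have h2 := hxx i
    rw [hpx] at h2
    calc |mu Λ N| * |x0 Λ N (i + 1) - x0 Λ N i| ≤ B * (M / N) :=
          mul_le_mul hmu h2 (abs_nonneg _) hB0
      _ = B * M / N := by ring
  have hle : ∀ a : ℝ, a ≤ B + B * M + Z + M + 1 → a / N ≤ (B + B * M + Z + M + 1) / N :=
    fun a ha => div_le_div_of_nonneg_right ha hN0.le
  refine ⟨hmu.trans (by linarith), fun i => ⟨?_, ?_, ?_, ?_, ?_⟩⟩
  · exact (hyy i).trans (hle _ (by linarith))
  · exact (hZAP Λ M η c hM hc hB N hN1 hcN P ⟨hpx, hpy, hpz⟩ i).trans (hle _ (by linarith))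
  · exact (hxx i).trans (hle _ (by linarith))
  · rw [hpx]
    unfold x0
    have h1 := second_diff Λ hB.xd ((i : ℝ) / N) (1 / N) (by positivity)
    have e1 : (i : ℝ) / N + 1 / N = ((i + 1 : ℤ) : ℝ) / N := by push_cast; ring
    have e2 : ((i + 1 : ℤ) : ℝ) / N + 1 / N = ((i + 2 : ℤ) : ℝ) / N := by push_cast; ring
    rw [e1, e2] at h1
    refine h1.trans ?_
    have e3 : M * (1 / (N : ℝ)) * (1 / N) = M / N ^ 2 := by ring
    rw [e3]
    exact div_le_div_of_nonneg_right (by linarith) (by positivity)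
  · have h1 := hyy i
    have h2 := hB.yb (((i : ℝ) + 1 / 2) / N)
    have h3 : B * M / N ≤ B * M := div_le_self hBM hNR
    have h4 : |P.y i| ≤ |P.y i - Λ.y ((i + 1 / 2) / N)| + |Λ.y ((i + 1 / 2) / N)| := by
      have := abs_add_le (P.y i - Λ.y ((i + 1 / 2) / N)) (Λ.y ((i + 1 / 2) / N))
      rwa [sub_add_cancel] at this
    linarith

end LHE


end

section

/-!
# The indices of the arcs of the polygons
-/

namespace LHE

open Set LG LH

namespace AR1

theorem per {α : Type*} (f : ℤ → α) (K : ℤ) (h : ∀ k, f (k + K) = f k) (k j : ℤ) :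
    f (k + j * K) = f k := by
  induction j using Int.induction_on with
  | zero => rw [zero_mul, add_zero]
  | succ i ih => rw [add_mul, one_mul, ← add_assoc, h, ih]
  | pred i ih =>
    have h1 := h (k + (-(i : ℤ) - 1) * K)
    have e : k + (-(i : ℤ) - 1) * K + K = k + -(i : ℤ) * K := by ring
    rw [e, ih] at h1
    exact h1.symm

theorem per' (f : ℤ → ℝ) (K : ℤ) (h : ∀ k, f (k + K) = f k + 1) (k j : ℤ) :
    f (k + j * K) = f k + j := by
  induction j using Int.induction_on with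
  | zero => rw [zero_mul, add_zero, Int.cast_zero, add_zero]
  | succ i ih =>
    rw [add_mul, one_mul, ← add_assoc, h, ih]
    push_cast
    ring
  | pred i ih =>
    have h1 := h (k + (-(i : ℤ) - 1) * K)
    have e : k + (-(i : ℤ) - 1) * K + K = k + -(i : ℤ) * K := by ring
    rw [e, ih] at h1
    push_cast at h1 ⊢
    linarith

theorem x_add_int (Λ : LC.LegKnot) (u : ℝ) (j : ℤ) : Λ.x (u + j) = Λ.x u := by
  have hp : Function.Periodic Λ.x 1 := (LHS.t_BAS Λ).2.2.2.1
  have h := hp.int_mul j u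
  rwa [mul_one] at h

theorem exists_lb {α : Type*} (S : Finset α) (f : α → ℝ) (h : ∀ x ∈ S, 0 < f x) :
    ∃ γ > (0 : ℝ), ∀ x ∈ S, γ ≤ f x := by
  rcases S.eq_empty_or_nonempty with rfl | hS
  · exact ⟨1, one_pos, fun x hx => absurd hx (Finset.notMem_empty x)⟩
  · obtain ⟨y, hy, hmin⟩ := S.exists_min_image f hS
    exact ⟨f y, h y hy, hmin⟩

theorem loc {f : ℝ → ℝ} {f' x : ℝ} (hf : HasDerivAt f f' x) (h : 0 < f') :
    ∃ δ > (0 : ℝ), ∀ u, |u - x| < δ → (u < x → f u < f x) ∧ (x < u → f x < f u) := by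
  have h1 := (hasDerivAt_iff_tendsto_slope.mp hf).eventually (lt_mem_nhds h)
  rw [eventually_nhdsWithin_iff, Metric.eventually_nhds_iff] at h1
  obtain ⟨δ, hδ, h2⟩ := h1
  refine ⟨δ, hδ, fun u hu => ⟨fun hux => ?_, fun hux => ?_⟩⟩
  · have h3 := h2 (show dist u x < δ by rwa [Real.dist_eq]) (ne_of_lt hux)
    rw [slope_def_field, div_pos_iff] at h3
    rcases h3 with ⟨h4, h5⟩ | ⟨h4, h5⟩
    · linarith
    · linarith
  · have h3 := h2 (show dist u x < δ by rwa [Real.dist_eq]) (ne_of_gt hux)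
    rw [slope_def_field, div_pos_iff] at h3
    rcases h3 with ⟨h4, h5⟩ | ⟨h4, h5⟩
    · linarith
    · linarith

end AR1

open _root_.LHE.AR1 in
theorem t_AR1 : Stmt_AR1 := by
  intro hEST Λ K θ s a b g X A
  obtain ⟨C, hC, N₁, hN₁, hE⟩ := hEST Λ
  have hK0 : (0 : ℤ) < K := by exact_mod_cast A.d.Kpos
  -- reduction to `0 ≤ k < K`
  have hred : ∀ k : ℤ, ∃ k₀ ∈ Finset.range K, ∃ j : ℤ, k = (k₀ : ℤ) + j * K := by
    intro k
    have h1 : 0 ≤ k % K := Int.emod_nonneg k hK0.ne'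
    have h2 : k % K < K := Int.emod_lt_of_pos k hK0
    refine ⟨(k % K).toNat, ?_, k / K, ?_⟩
    · rw [Finset.mem_range]
      omega
    · rw [Int.toNat_of_nonneg h1]
      have := Int.emod_add_mul_ediv k K
      linarith
  have hθ : ∀ k j : ℤ, θ (k + j * K) = θ k + j := per' θ K A.pθ
  -- the least gap
  obtain ⟨m, hm, hmgap⟩ := exists_lb (Finset.range K) (fun k : ℕ => θ ((k : ℤ) + 1) - θ k)
    (fun k _ => sub_pos.mpr (A.mono k))
  have hgap : ∀ k : ℤ, m ≤ θ (k + 1) - θ k := by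
    intro k
    obtain ⟨k₀, hk₀, j, rfl⟩ := hred k
    have e : (k₀ : ℤ) + j * K + 1 = (k₀ : ℤ) + 1 + j * K := by ring
    rw [e, hθ, hθ]
    have := hmgap k₀ hk₀
    linarith
  -- the local monotonicity
  have hloc0 : ∀ k : ℕ, ∃ δ > (0 : ℝ), ∀ u, |u - θ k| < δ →
      (u < θ k → sn (g k) * Λ.x u < sn (g k) * s k) ∧
      (θ k < u → sn (g k) * s k < sn (g k) * Λ.x u) := by
    intro k
    have hx : HasDerivAt Λ.x (deriv Λ.x (θ k)) (θ k) := (LHS.t_BAS Λ).2.2.2.2.2.2.1 _
    obtain ⟨δ, hδ, h1⟩ := loc (hx.const_mul (sn (g k))) (A.der k)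
    refine ⟨δ, hδ, fun u hu => ?_⟩
    have h2 := h1 u hu
    rwa [A.hit] at h2
  choose δ hδ hloc1 using hloc0
  obtain ⟨δm, hδm, hδmin⟩ := exists_lb (Finset.range K) δ (fun k _ => hδ k)
  have hloc : ∀ k : ℤ, ∀ u, |u - θ k| < δm →
      (u < θ k → sn (g k) * Λ.x u < sn (g k) * s k) ∧
      (θ k < u → sn (g k) * s k < sn (g k) * Λ.x u) := by
    intro k
    obtain ⟨k₀, hk₀, j, rfl⟩ := hred k
    intro u hu
    rw [hθ] at hu ⊢
    rw [per s K A.d.ps, per g K A.d.pg]
    have h1 : |u - j - θ k₀| < δ k₀ := by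
      have e : u - j - θ k₀ = u - (θ k₀ + j) := by ring
      rw [e]
      exact lt_of_lt_of_le hu (hδmin k₀ hk₀)
    have h2 := hloc1 k₀ (u - j) h1
    have h3 : Λ.x (u - j) = Λ.x u := by
      have := x_add_int Λ (u - j) j
      rw [sub_add_cancel] at this
      exact this.symm
    rw [h3] at h2
    exact ⟨fun h => h2.1 (by linarith), fun h => h2.2 (by linarith)⟩
  -- the least gap of `X`
  obtain ⟨γ, hγ, hγX⟩ := exists_lb ((X ×ˢ X).filter fun p : ℝ × ℝ => p.1 < p.2)
    (fun p => p.2 - p.1) (fun p hp => sub_pos.mpr (Finset.mem_filter.mp hp).2)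
  -- membership of the lines
  have hsX : ∀ k, s k ∈ X := by
    intro k
    rw [A.d.st]
    split
    · exact (A.d.adj k).1
    · exact (A.d.adj k).2.1
  refine ⟨N₁ + ⌈1 / m⌉₊ + ⌈1 / δm⌉₊ + ⌈C / γ⌉₊ + 1, by omega, ?_⟩
  intro N hN P hP
  have hN1 : N₁ ≤ N := by omega
  have hNpos : 0 < N := by omega
  have hN0 : (0 : ℝ) < N := by exact_mod_cast hNpos
  have hNR : (N₁ : ℝ) + ⌈1 / m⌉₊ + ⌈1 / δm⌉₊ + ⌈C / γ⌉₊ + 1 ≤ N := by exact_mod_cast hN
  have c1 : 1 / m ≤ ⌈1 / m⌉₊ := Nat.le_ceil _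
  have c2 : 1 / δm ≤ ⌈1 / δm⌉₊ := Nat.le_ceil _
  have c3 : C / γ ≤ ⌈C / γ⌉₊ := Nat.le_ceil _
  have z1 : (0 : ℝ) ≤ N₁ := Nat.cast_nonneg _
  have z2 : (0 : ℝ) ≤ ⌈1 / m⌉₊ := Nat.cast_nonneg _
  have z3 : (0 : ℝ) ≤ ⌈1 / δm⌉₊ := Nat.cast_nonneg _
  have z4 : (0 : ℝ) ≤ ⌈C / γ⌉₊ := Nat.cast_nonneg _
  have d1 : 1 ≤ m * N := by
    have h1 : 1 / m ≤ N := by linarith only [hNR, c1]
    rw [div_le_iff₀ hm] at h1
    linarith only [h1]
  have d2 : 1 / (N : ℝ) < δm := by
    have h1 : 1 / δm < N := by linarith only [hNR, c2]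
    rw [div_lt_iff₀ hδm] at h1
    rw [div_lt_iff₀ hN0]
    linarith only [h1]
  have d3 : C / N < γ := by
    have h1 : C / γ < N := by linarith only [hNR, c3]
    rw [div_lt_iff₀ hγ] at h1
    rw [div_lt_iff₀ hN0]
    linarith only [h1]
  have hPx : ∀ i : ℤ, P.x i = Λ.x ((i : ℝ) / N) := by
    intro i
    rw [hP.1]
    rfl
  have hrat : ∀ (i : ℤ) (k : ℤ), (i : ℝ) / N ≠ θ k := by
    intro i k h
    have h1 := A.irr (s k) (hsX k) ((i : ℚ) / (N : ℚ))
    apply h1
    push_cast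
    rw [h]
    exact A.hit k
  refine ⟨?_, ?_, ?_, ?_, ?_, ?_, ?_⟩
  · intro k
    rw [← Int.add_one_le_iff, Int.le_floor]
    push_cast
    have h1 := hgap k
    have h2 : 1 ≤ (N : ℝ) * (θ (k + 1) - θ k) := by
      have := mul_le_mul_of_nonneg_left h1 hN0.le
      linarith only [d1, this]
    have h3 := Int.floor_le ((N : ℝ) * θ k)
    linarith only [h2, h3]
  · intro k
    rw [A.pθ, mul_add, mul_one]
    exact Int.floor_add_natCast _ _
  · intro k
    have h1 := Int.floor_le ((N : ℝ) * θ k)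
    have h2 := Int.lt_floor_add_one ((N : ℝ) * θ k)
    have h3 : (⌊(N : ℝ) * θ k⌋ : ℝ) / N < θ k := by
      refine lt_of_le_of_ne ?_ (hrat _ _)
      rw [div_le_iff₀ hN0]
      linarith only [h1]
    have h4 : θ k < ((⌊(N : ℝ) * θ k⌋ + 1 : ℤ) : ℝ) / N := by
      rw [lt_div_iff₀ hN0]
      push_cast
      linarith only [h2]
    have e5 : ((⌊(N : ℝ) * θ k⌋ + 1 : ℤ) : ℝ) / N = (⌊(N : ℝ) * θ k⌋ : ℝ) / N + 1 / N := by
      push_cast
      ring
    unfold Crs
    rw [hPx, hPx]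
    constructor
    · refine (hloc k _ ?_).1 h3
      rw [abs_lt]
      rw [e5] at h4
      constructor <;> (first | linarith only [d2, h4] | linarith only [d2, h3, h4] | linarith)
    · refine (hloc k _ ?_).2 h4
      rw [abs_lt]
      rw [e5] at h4 ⊢
      constructor <;> (first | linarith only [d2, h3, h4] | linarith only [d2, h3] | linarith)
  · intro k i h1 h2
    rw [Int.floor_lt] at h1
    rw [Int.le_floor] at h2
    rw [hPx]
    refine A.ins k _ ⟨?_, ?_⟩
    · rw [lt_div_iff₀ hN0]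
      linarith only [h1]
    · refine lt_of_le_of_ne ?_ (hrat _ _)
      rw [div_le_iff₀ hN0]
      linarith only [h2]
  · obtain ⟨c, hc, h⟩ := A.lo
    exact ⟨c, hc, fun i => by rw [hPx]; exact h _⟩
  · obtain ⟨c, hc, h⟩ := A.hi
    exact ⟨c, hc, fun i => by rw [hPx]; exact h _⟩
  · intro c d hcd i
    have h1 := ((hE N hN1 P hP).2 i).2.2.1
    have h2 := hγX (c, d) (Finset.mem_filter.mpr ⟨Finset.mem_product.mpr ⟨hcd.1, hcd.2.1⟩, hcd.2.2.1⟩)
    simp only at h2
    linarith only [d3, h1, h2]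

end LHE


end

section

/-!
# AR3: the arcs of the polygons are separated
-/

namespace LHE

open Set LG LH

namespace AR3

theorem cx (Λ : LC.LegKnot) : Continuous Λ.x :=
  continuous_fst.comp Λ.smooth.continuous

theorem cy (Λ : LC.LegKnot) : Continuous Λ.y :=
  (continuous_fst.comp continuous_snd).comp Λ.smooth.continuous

theorem cz (Λ : LC.LegKnot) : Continuous (zz Λ) :=
  (continuous_snd.comp continuous_snd).comp Λ.smooth.continuous

theorem px (Λ : LC.LegKnot) (u : ℝ) : Λ.x (u + 1) = Λ.x u := by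
  unfold LC.LegKnot.x
  rw [Λ.periodic]

theorem py (Λ : LC.LegKnot) (u : ℝ) : Λ.y (u + 1) = Λ.y u := by
  unfold LC.LegKnot.y
  rw [Λ.periodic]

theorem pz (Λ : LC.LegKnot) (u : ℝ) : zz Λ (u + 1) = zz Λ u := by
  unfold zz
  rw [Λ.periodic]

theorem cTL (Λ : LC.LegKnot) (t : ℝ) : Continuous fun u => TL Λ u t :=
  (cz Λ).add ((cy Λ).mul (continuous_const.sub (cx Λ)))

theorem pTL (Λ : LC.LegKnot) (t u : ℝ) : TL Λ (u + 1) t = TL Λ u t := by
  unfold TL
  rw [px, py, pz]

/-- Uniform continuity of periodic functions. -/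
theorem uc {f : ℝ → ℝ} (hc : Continuous f) (hp : ∀ u, f (u + 1) = f u) {ε : ℝ} (hε : 0 < ε) :
    ∃ δ > 0, ∀ u v, |u - v| < δ → |f u - f v| < ε := by
  have h := isCompact_Icc.uniformContinuousOn_of_continuous
    (hc.continuousOn (s := Icc (-1 : ℝ) 2))
  rw [Metric.uniformContinuousOn_iff] at h
  obtain ⟨δ, hδ, h⟩ := h ε hε
  refine ⟨min δ 1, lt_min hδ one_pos, fun u v huv => ?_⟩
  have hp' : Function.Periodic f 1 := hp
  have hf : ∀ w : ℝ, f (w - (⌊u⌋ : ℝ)) = f w := by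
    intro w
    have := hp'.sub_int_mul_eq (x := w) ⌊u⌋
    rwa [mul_one] at this
  have h1 := Int.floor_le u
  have h2 := Int.lt_floor_add_one u
  have h3 := abs_lt.1 (lt_of_lt_of_le huv (min_le_right _ _))
  have h4 := h (u - ⌊u⌋) ⟨by linarith, by linarith⟩ (v - ⌊u⌋)
    ⟨by linarith [h3.1, h3.2], by linarith [h3.1, h3.2]⟩ (by
      rw [Real.dist_eq]
      have : u - ⌊u⌋ - (v - ⌊u⌋) = u - v := by ring
      rw [this]
      exact lt_of_lt_of_le huv (min_le_left _ _))
  rw [Real.dist_eq, hf, hf] at h4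
  exact h4

/-- Boundedness of periodic functions. -/
theorem bd {f : ℝ → ℝ} (hc : Continuous f) (hp : ∀ u, f (u + 1) = f u) :
    ∃ M > 0, ∀ u, |f u| ≤ M := by
  have hp' : Function.Periodic f 1 := hp
  have h := hp'.isBounded_of_continuous one_ne_zero hc
  obtain ⟨M, hM⟩ := h.exists_norm_le
  refine ⟨max M 1, lt_max_of_lt_right one_pos, fun u => ?_⟩
  exact (hM _ ⟨u, rfl⟩).trans (le_max_left _ _)

/-- The lines of the edges are close to the tangent lines. -/
theorem approx (hE : Stmt_EST) (Λ : LC.LegKnot) (t : ℝ) {ε : ℝ} (hε : 0 < ε) :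
    ∃ N₀ : ℕ, 0 < N₀ ∧ ∀ N ≥ N₀, ∀ P : Pg N, IsPN Λ N P → ∀ i : ℤ,
      |P.l i t - (TL Λ (i / N) t - zz Λ 0)| < ε := by
  obtain ⟨K, hK, N₁, hN₁, h1⟩ := hE Λ
  obtain ⟨M, hM, h2⟩ := bd (f := fun u => t - Λ.x u) (continuous_const.sub (cx Λ))
    (fun u => by simp only [px])
  have hδ : 0 < ε / (4 * (M + 1)) := by positivity
  obtain ⟨ρ, hρ, h3⟩ := uc (cy Λ) (py Λ) hδ
  obtain ⟨N₂, h4⟩ := exists_nat_gt (K / (ε / (4 * (M + 1))))
  obtain ⟨N₃, h5⟩ := exists_nat_gt (1 / ρ)
  refine ⟨N₁ + N₂ + N₃, by omega, fun N hN P hP i => ?_⟩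
  have hN1 : N₁ ≤ N := by omega
  have hN0 : (0 : ℝ) < N := by
    have : 0 < N := by omega
    exact_mod_cast this
  have hN2 : (N₂ : ℝ) ≤ N := by
    have : N₂ ≤ N := by omega
    exact_mod_cast this
  have hN3 : (N₃ : ℝ) ≤ N := by
    have : N₃ ≤ N := by omega
    exact_mod_cast this
  have e1 := (h1 N hN1 P hP).2 i
  have e2 : K / N < ε / (4 * (M + 1)) := by
    rw [div_lt_iff₀ hN0, mul_comm]
    have := lt_of_lt_of_le h4 hN2
    rwa [div_lt_iff₀ hδ] at this
  have e3 : 1 / (N : ℝ) < ρ := by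
    rw [div_lt_iff₀ hN0, mul_comm]
    have := lt_of_lt_of_le h5 hN3
    rwa [div_lt_iff₀ hρ] at this
  have e4 : |Λ.y ((i + 1 / 2) / N) - Λ.y (i / N)| < ε / (4 * (M + 1)) := by
    apply h3
    have : ((i : ℝ) + 1 / 2) / N - i / N = 1 / 2 * (1 / N) := by ring
    rw [this, abs_of_nonneg (by positivity)]
    have : 0 < 1 / (N : ℝ) := by positivity
    linarith
  have hx : P.x i = Λ.x (i / N) := by rw [hP.1]; rfl
  have e5 : |P.y i - Λ.y (i / N)| < 2 * (ε / (4 * (M + 1))) := by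
    have : P.y i - Λ.y (i / N) = (P.y i - Λ.y ((i + 1 / 2) / N)) +
      (Λ.y ((i + 1 / 2) / N) - Λ.y (i / N)) := by ring
    rw [this]
    have := abs_add_le (P.y i - Λ.y ((i + 1 / 2) / N)) (Λ.y ((i + 1 / 2) / N) - Λ.y (i / N))
    linarith only [e1, e2, e4, this]
  have e6 : P.l i t - (TL Λ (i / N) t - zz Λ 0) = (P.z i - (zz Λ (i / N) - zz Λ 0)) +
      (P.y i - Λ.y (i / N)) * (t - Λ.x (i / N)) := by
    unfold Pg.l TL
    rw [hx]
    ring
  rw [e6]
  have e7 : |(P.y i - Λ.y (i / N)) * (t - Λ.x (i / N))| ≤ 2 * (ε / (4 * (M + 1))) * M := by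
    rw [abs_mul]
    exact mul_le_mul e5.le (h2 _) (abs_nonneg _) (by positivity)
  have e8 := abs_add_le (P.z i - (zz Λ (i / N) - zz Λ 0))
    ((P.y i - Λ.y (i / N)) * (t - Λ.x (i / N)))
  have e9 : ε / (4 * (M + 1)) * (4 * (M + 1)) = ε := by
    field_simp
  linarith only [hε, hδ, e1, e2, e7, e8, e9]

/-- The parameters `i / N` are close to the arc. -/
theorem arc (Λ : LC.LegKnot) (t : ℝ) {ε : ℝ} (hε : 0 < ε) :
    ∃ N₀ : ℕ, 0 < N₀ ∧ ∀ N : ℕ, N₀ ≤ N → ∀ p q : ℝ, p ≤ q → ∀ i : ℤ, ⌊N * p⌋ ≤ i → i ≤ ⌊N * q⌋ →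
      ∃ u ∈ Icc p q, |TL Λ u t - TL Λ (i / N) t| < ε := by
  obtain ⟨ρ, hρ, h3⟩ := uc (cTL Λ t) (pTL Λ t) hε
  obtain ⟨N₃, h5⟩ := exists_nat_gt (1 / ρ)
  refine ⟨N₃ + 1, by omega, fun N hN p q hpq i h1 h2 => ?_⟩
  have hN0 : (0 : ℝ) < N := by
    have : 0 < N := by omega
    exact_mod_cast this
  have hN3 : (N₃ : ℝ) ≤ N := by
    have : N₃ ≤ N := by omega
    exact_mod_cast this
  have e3 : 1 / (N : ℝ) < ρ := by
    rw [div_lt_iff₀ hN0, mul_comm]
    have := lt_of_lt_of_le h5 hN3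
    rwa [div_lt_iff₀ hρ] at this
  have e4 : (i : ℝ) / N ≤ q := by
    rw [div_le_iff₀ hN0, mul_comm]
    exact Int.le_floor.1 h2
  have e5 : p - 1 / N < (i : ℝ) / N := by
    rw [lt_div_iff₀ hN0, sub_mul, one_div, inv_mul_cancel₀ hN0.ne', mul_comm]
    have := Int.lt_floor_add_one ((N : ℝ) * p)
    have h6 : ((⌊(N : ℝ) * p⌋ : ℤ) : ℝ) ≤ i := by exact_mod_cast h1
    linarith only [this, h6]
  refine ⟨max p (i / N), ⟨le_max_left _ _, max_le hpq e4⟩, h3 _ _ ?_⟩
  rcases le_total p ((i : ℝ) / N) with h | h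
  · rw [max_eq_right h, sub_self, abs_zero]
    exact hρ
  · rw [max_eq_left h, abs_of_nonneg (by linarith only [h])]
    linarith only [e3, e5]

/-- A margin for separated arcs. -/
theorem margin (Λ : LC.LegKnot) (t p q p' q' : ℝ)
    (h : ∀ u ∈ Icc p q, ∀ v ∈ Icc p' q', TL Λ u t < TL Λ v t) :
    ∃ γ > 0, ∀ u ∈ Icc p q, ∀ v ∈ Icc p' q', γ ≤ TL Λ v t - TL Λ u t := by
  have hc : IsCompact (Icc p q ×ˢ Icc p' q') := isCompact_Icc.prod isCompact_Icc
  have hf : Continuous fun w : ℝ × ℝ => TL Λ w.2 t - TL Λ w.1 t :=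
    ((cTL Λ t).comp continuous_snd).sub ((cTL Λ t).comp continuous_fst)
  obtain ⟨γ, h1, h2⟩ := hc.exists_forall_le' hf.continuousOn (a := 0)
    (fun w hw => sub_pos.2 (h w.1 hw.1 w.2 hw.2))
  exact ⟨γ, h1, fun u hu v hv => h2 (u, v) ⟨hu, hv⟩⟩

/-- Separation of two arcs at one line, in one order. -/
theorem half (hE : Stmt_EST) (Λ : LC.LegKnot) (t p q p' q' : ℝ) (hpq : p ≤ q) (hpq' : p' ≤ q')
    (h : ∀ u ∈ Icc p q, ∀ v ∈ Icc p' q', TL Λ u t < TL Λ v t) :
    ∃ N₀ : ℕ, 0 < N₀ ∧ ∀ N ≥ N₀, ∀ P : Pg N, IsPN Λ N P →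
      ∀ i ∈ Icc ⌊N * p⌋ ⌊N * q⌋, ∀ j ∈ Icc ⌊N * p'⌋ ⌊N * q'⌋, P.l i t < P.l j t := by
  obtain ⟨γ, hγ, h1⟩ := margin Λ t p q p' q' h
  have hγ' : 0 < γ / 5 := by positivity
  obtain ⟨N₁, hN₁, h2⟩ := approx hE Λ t hγ'
  obtain ⟨N₂, hN₂, h3⟩ := arc Λ t hγ'
  refine ⟨N₁ + N₂, by omega, fun N hN P hP i hi j hj => ?_⟩
  obtain ⟨u, hu, e1⟩ := h3 N (by omega) p q hpq i hi.1 hi.2
  obtain ⟨v, hv, e2⟩ := h3 N (by omega) p' q' hpq' j hj.1 hj.2
  have e3 := h2 N (by omega) P hP i
  have e4 := h2 N (by omega) P hP j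
  have e5 := h1 u hu v hv
  rw [abs_lt] at e1 e2 e3 e4
  linarith only [e1, e2, e3, e4, e5]

/-- Separation of two arcs at one line. -/
theorem one (hE : Stmt_EST) (Λ : LC.LegKnot) (t p q p' q' : ℝ) (hpq : p ≤ q) (hpq' : p' ≤ q')
    (h : (∀ u ∈ Icc p q, ∀ v ∈ Icc p' q', TL Λ u t < TL Λ v t) ∨
      ∀ u ∈ Icc p q, ∀ v ∈ Icc p' q', TL Λ v t < TL Λ u t) :
    ∃ N₀ : ℕ, 0 < N₀ ∧ ∀ N ≥ N₀, ∀ P : Pg N, IsPN Λ N P →
      Sep P ⌊N * p⌋ ⌊N * q⌋ ⌊N * p'⌋ ⌊N * q'⌋ t := by
  rcases h with h | h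
  · obtain ⟨N₀, h1, h2⟩ := half hE Λ t p q p' q' hpq hpq' h
    exact ⟨N₀, h1, fun N hN P hP => Or.inl (h2 N hN P hP)⟩
  · obtain ⟨N₀, h1, h2⟩ := half hE Λ t p' q' p q hpq' hpq (fun u hu v hv => h v hv u hu)
    exact ⟨N₀, h1, fun N hN P hP => Or.inr fun i hi j hj => h2 N hN P hP j hj i hi⟩

/-- Periodicity with integer multiples. -/
theorem per {K : ℕ} {f : ℤ → ℝ} (h : ∀ k, f (k + K) = f k) (k j : ℤ) : f (k + j * K) = f k :=
  (Function.Periodic.int_mul (h : Function.Periodic f (K : ℤ)) j) k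

theorem pth {K : ℕ} (hK : 0 < K) {θ : ℤ → ℝ} (h : ∀ k, θ (k + K) = θ k + 1) (k j : ℤ) :
    θ (k + j * K) = θ k + j := by
  have hK' : (K : ℝ) ≠ 0 := by exact_mod_cast hK.ne'
  have h1 := per (K := K) (f := fun k : ℤ => θ k - k / K) (fun k => by
    rw [h]
    push_cast
    field_simp
    ring) k j
  push_cast at h1
  have h2 : ((k : ℝ) + j * K) / K = k / K + j := by
    field_simp
  rw [h2] at h1
  linarith

theorem pl {N : ℕ} (P : Pg N) (i j : ℤ) (t : ℝ) : P.l (i + j * N) t = P.l i t := by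
  unfold Pg.l
  rw [per P.px, per P.py, per P.pz]

theorem sep_shift {N : ℕ} (P : Pg N) {p q p' q' : ℤ} {t : ℝ} (j j' : ℤ)
    (h : Sep P p q p' q' t) :
    Sep P (p + j * N) (q + j * N) (p' + j' * N) (q' + j' * N) t := by
  have e : ∀ i c : ℤ, P.l (i - c * N) t = P.l i t := by
    intro i c
    have := pl P (i - c * N) c t
    rw [sub_add_cancel] at this
    exact this.symm
  rcases h with h | h
  · left
    intro i hi i' hi'
    have := h (i - j * N) ⟨by linarith [hi.1], by linarith [hi.2]⟩ (i' - j' * N)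
      ⟨by linarith [hi'.1], by linarith [hi'.2]⟩
    rwa [e, e] at this
  · right
    intro i hi i' hi'
    have := h (i - j * N) ⟨by linarith [hi.1], by linarith [hi.2]⟩ (i' - j' * N)
      ⟨by linarith [hi'.1], by linarith [hi'.2]⟩
    rwa [e, e] at this

theorem fl {K : ℕ} (hK : 0 < K) {θ : ℤ → ℝ} (h : ∀ k, θ (k + K) = θ k + 1) (N : ℕ) (k j : ℤ) :
    ⌊(N : ℝ) * θ (k + j * K)⌋ = ⌊(N : ℝ) * θ k⌋ + j * N := by
  rw [pth hK h, mul_add]
  have : (N : ℝ) * (j : ℝ) = ((j * N : ℤ) : ℝ) := by push_cast; ring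
  rw [this, Int.floor_add_intCast]

theorem red {K : ℕ} (hK : 0 < K) (k : ℤ) : ∃ m ∈ Finset.range K, ∃ j : ℤ, k = m + j * K := by
  have hK' : (0 : ℤ) < K := by exact_mod_cast hK
  refine ⟨(k % K).toNat, ?_, k / K, ?_⟩
  · rw [Finset.mem_range]
    have h1 := Int.emod_lt_of_pos k hK'
    have h2 := Int.emod_nonneg k hK'.ne'
    omega
  · rw [Int.toNat_of_nonneg (Int.emod_nonneg k hK'.ne')]
    have := Int.emod_add_mul_ediv k K
    linarith only [this]

end AR3

theorem t_AR3 : Stmt_AR3 := by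
  intro hE Λ K θ s a b g X hA
  have hex : ∀ k l : ℤ, ∃ N₀ : ℕ, 0 < N₀ ∧ ∀ N ≥ N₀, ∀ P : Pg N, IsPN Λ N P →
      ¬ Cg K k l → a k = a l → ∀ t, t = a k ∨ t = b k →
        Sep P ⌊N * θ k⌋ ⌊N * θ (k + 1)⌋ ⌊N * θ l⌋ ⌊N * θ (l + 1)⌋ t := by
    intro k l
    by_cases hc : ¬ Cg K k l ∧ a k = a l
    · obtain ⟨N₁, h1, h2⟩ := AR3.one hE Λ (a k) (θ k) (θ (k + 1)) (θ l) (θ (l + 1))
        (hA.mono k).le (hA.mono l).le (hA.sep k l hc.1 hc.2 (a k) (Or.inl rfl))
      obtain ⟨N₂, h3, h4⟩ := AR3.one hE Λ (b k) (θ k) (θ (k + 1)) (θ l) (θ (l + 1))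
        (hA.mono k).le (hA.mono l).le (hA.sep k l hc.1 hc.2 (b k) (Or.inr rfl))
      refine ⟨N₁ + N₂, by omega, fun N hN P hP _ _ t ht => ?_⟩
      rcases ht with rfl | rfl
      · exact h2 N (by omega) P hP
      · exact h4 N (by omega) P hP
    · exact ⟨1, one_pos, fun N _ P _ h1 h2 => absurd ⟨h1, h2⟩ hc⟩
  choose n hn0 hn using hex
  have hK := hA.d.Kpos
  have hle : ∀ k ∈ Finset.range K, ∀ l ∈ Finset.range K,
      n k l ≤ ∑ k ∈ Finset.range K, ∑ l ∈ Finset.range K, n (k : ℤ) (l : ℤ) := by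
    intro k hk l hl
    refine (Finset.single_le_sum (f := fun l : ℕ => n (k : ℤ) (l : ℤ))
      (fun _ _ => Nat.zero_le _) hl).trans ?_
    exact Finset.single_le_sum (f := fun k : ℕ => ∑ l ∈ Finset.range K, n (k : ℤ) (l : ℤ))
      (fun _ _ => Nat.zero_le _) hk
  refine ⟨∑ k ∈ Finset.range K, ∑ l ∈ Finset.range K, n (k : ℤ) (l : ℤ), ?_, ?_⟩
  · have h0 := hle 0 (Finset.mem_range.2 hK) 0 (Finset.mem_range.2 hK)
    exact lt_of_lt_of_le (hn0 _ _) h0
  · intro N hN P hP k l hkl hab t ht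
    obtain ⟨k₀, hk₀, j, rfl⟩ := AR3.red hK k
    obtain ⟨l₀, hl₀, j', rfl⟩ := AR3.red hK l
    have e1 : ((k₀ : ℤ) + j * K) + 1 = ((k₀ : ℤ) + 1) + j * K := by ring
    have e2 : ((l₀ : ℤ) + j' * K) + 1 = ((l₀ : ℤ) + 1) + j' * K := by ring
    rw [AR3.per hA.d.pa, AR3.per hA.d.pa] at hab
    rw [AR3.per hA.d.pa, AR3.per hA.d.pb] at ht
    have hkl' : ¬ Cg K (k₀ : ℤ) (l₀ : ℤ) := by
      rintro ⟨i, hi⟩
      apply hkl
      refine ⟨i + j' - j, ?_⟩
      rw [hi]
      ring
    have h1 := hn (k₀ : ℤ) (l₀ : ℤ) N ((hle k₀ hk₀ l₀ hl₀).trans hN) P hP hkl' hab t ht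
    rw [e1, e2, AR3.fl hK hA.pθ, AR3.fl hK hA.pθ, AR3.fl hK hA.pθ, AR3.fl hK hA.pθ]
    exact AR3.sep_shift P j j' h1

end LHE


end

section

/-!
# A polygon with a decomposition into arcs has good cells
-/

namespace LHE

open Set LG LH

namespace GDX

/-- A point of a cell is not a line. -/
theorem ne_of_in {X : Finset ℝ} {a b c x : ℝ} (h : AdjX X a b) (hc : c ∈ X) (h1 : a < x)
    (h2 : x < b) : x ≠ c := by
  rintro rfl
  exact h.2.2.2 _ hc ⟨h1, h2⟩

/-- A point which is in two cells. -/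
theorem eq_cell {X : Finset ℝ} {a b c d x : ℝ} (h : AdjX X a b) (h' : AdjX X c d) (h1 : a < x)
    (h2 : x < b) (h3 : c < x) (h4 : x < d) : a = c ∧ b = d := by
  obtain ⟨ha, hb, -, hab⟩ := h
  obtain ⟨hc, hd, -, hcd⟩ := h'
  have e1 := hab c hc
  have e2 := hab d hd
  have e3 := hcd a ha
  have e4 := hcd b hb
  constructor
  · refine le_antisymm ?_ ?_
    · by_contra h5
      exact e3 ⟨not_le.mp h5, h1.trans h4⟩
    · by_contra h5
      exact e1 ⟨not_le.mp h5, h3.trans h2⟩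
  · refine le_antisymm ?_ ?_
    · by_contra h5
      exact e2 ⟨h1.trans h4, not_le.mp h5⟩
    · by_contra h5
      exact e4 ⟨h3.trans h2, not_le.mp h5⟩

theorem adj_next {K : ℕ} {s a b : ℤ → ℝ} {g : ℤ → Bool} {X : Finset ℝ}
    (h : ArcD K s a b g X) (k : ℤ) : a (k + 1) ≠ a k := by
  have h1 := h.st (k + 1)
  have h2 := h.en k
  have h3 := (h.adj k).2.2.1
  have h4 := (h.adj (k + 1)).2.2.1
  cases hg : g (k + 1) with
  | true =>
    rw [hg] at h1 h2
    simp only [if_true] at h1 h2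
    intro h5
    rw [← h1, h2] at h5
    exact absurd h5 (ne_of_gt h3)
  | false =>
    rw [hg] at h1 h2
    simp only [Bool.false_eq_true, if_false] at h1 h2
    intro h5
    rw [← h1, h2, h5] at h4
    exact lt_irrefl _ h4

theorem grow {e : ℤ → ℤ} (h : ∀ k, e k < e (k + 1)) (k : ℤ) (n : ℕ) : e k + n ≤ e (k + n) := by
  induction n with
  | zero => simp
  | succ n ih =>
    have h1 := h (k + n)
    have h2 : k + ((n + 1 : ℕ) : ℤ) = k + n + 1 := by push_cast; ring
    rw [h2]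
    push_cast
    omega

theorem exists_arc {e : ℤ → ℤ} (h : ∀ k, e k < e (k + 1)) (i : ℤ) :
    ∃ k, e k < i ∧ i ≤ e (k + 1) := by
  obtain ⟨k, hk, hk'⟩ := Int.exists_greatest_of_bdd (P := fun k => e k < i)
    ⟨max 0 (i - e 0), fun z hz => by
      rcases le_or_gt z 0 with h0 | h0
      · exact h0.trans (le_max_left _ _)
      · obtain ⟨n, rfl⟩ := Int.eq_ofNat_of_zero_le h0.le
        have := grow h 0 n
        rw [zero_add] at this
        refine le_trans ?_ (le_max_right _ _)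
        have hz' : e (n : ℤ) < i := hz
        omega⟩
    ⟨-(((i - e 0).natAbs + 1 : ℕ) : ℤ), by
      have := grow h (-(((i - e 0).natAbs + 1 : ℕ) : ℤ)) ((i - e 0).natAbs + 1)
      rw [neg_add_cancel] at this
      change e _ < i
      push_cast at this ⊢
      have h2 : -|i - e 0| ≤ i - e 0 := neg_abs_le _
      omega⟩
  refine ⟨k, hk, ?_⟩
  by_contra h1
  have := hk' (k + 1) (not_le.mp h1)
  omega

theorem per {e : ℤ → ℤ} {K N : ℕ} (h : ∀ k, e (k + K) = e k + N) (k j : ℤ) :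
    e (k + j * K) = e k + j * N := by
  induction j using Int.induction_on with
  | zero => simp
  | succ j ih =>
    have h1 := h (k + j * K)
    have h2 : k + ((j : ℤ) + 1) * K = k + j * K + K := by ring
    rw [h2, h1, ih]
    ring
  | pred j ih =>
    have h1 := h (k + (-(j : ℤ) - 1) * K)
    have h2 : k + (-(j : ℤ) - 1) * K + K = k + (-(j : ℤ)) * K := by ring
    rw [h2, ih] at h1
    have h3 : e (k + (-(j : ℤ) - 1) * K) = e k + -(j : ℤ) * N - N := by linarith
    rw [h3]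
    ring

variable {N : ℕ} {P : Pg N} {K : ℕ} {e : ℤ → ℤ} {s a b : ℤ → ℝ} {g : ℤ → Bool} {X : Finset ℝ}

/-- The components over a cell are arcs. -/
theorem comp (h : ArcP P K e s a b g X) {c d : ℝ} (hcd : AdjX X c d) {p q : ℤ}
    (hp : Comp P c d p q) : ∃ k, p = e k ∧ q = e (k + 1) ∧ a k = c ∧ b k = d := by
  have hpq : p < q := by
    rcases lt_or_eq_of_le hp.le with h1 | h1
    · exact h1
    · exfalso
      have h2 := hp.one h1
      rw [← h1] at h2
      have h3 := abs_lt.mp (h.sm c d hcd p)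
      rcases h2 with h2 | h2
      · linarith [h2.1, h2.2, h3.1, h3.2]
      · linarith [h2.1, h2.2, h3.1, h3.2]
  obtain ⟨k, hk1, hk2⟩ := exists_arc h.mono (p + 1)
  have h1 := hp.ins (p + 1) (by omega) (by omega)
  have h2 := h.ins k (p + 1) hk1 hk2
  have h3 := eq_cell (h.d.adj k) hcd h2.1 h2.2 h1.1 h1.2
  have hpk : p = e k := by
    by_contra hne
    have h4 := h.ins k p (by omega) (by omega)
    rw [h3.1, h3.2] at h4
    rcases hp.fst with h5 | h5
    · exact lt_asymm h4.1 h5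
    · exact lt_asymm h4.2 h5
  have hq1 : q ≤ e (k + 1) := by
    by_contra hne
    have h4 := h.mono (k + 1)
    have h5 := h.ins (k + 1) (e (k + 1) + 1) (by omega) (by omega)
    have h6 := hp.ins (e (k + 1) + 1) (by have := h.mono k; omega) (by omega)
    have h7 := eq_cell (h.d.adj (k + 1)) hcd h5.1 h5.2 h6.1 h6.2
    exact adj_next h.d k (h7.1.trans h3.1.symm)
  have hq2 : q = e (k + 1) := by
    by_contra hne
    have h4 := h.ins k (q + 1) (by omega) (by omega)
    rw [h3.1, h3.2] at h4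
    rcases hp.lst with h5 | h5
    · exact lt_asymm h4.1 h5
    · exact lt_asymm h4.2 h5
  exact ⟨k, hpk, hq2, h3.1, h3.2⟩

end GDX

/-- GDX: a polygon with a decomposition into arcs has good cells. -/
theorem t_GDX : Stmt_GDX := by
  intro N P K e s a b g X h
  refine ⟨h.lo, h.hi, fun c d hcd => ⟨hcd.2.2.1, ?_, ?_, ?_, ?_⟩⟩
  · intro i
    obtain ⟨k, hk1, hk2⟩ := GDX.exists_arc h.mono i
    have h1 := h.ins k i hk1 hk2
    exact ⟨GDX.ne_of_in (h.d.adj k) hcd.1 h1.1 h1.2, GDX.ne_of_in (h.d.adj k) hcd.2.1 h1.1 h1.2⟩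
  · by_contra hout
    have h1 : ∀ k, a k = c := by
      intro k
      have h2 := h.ins k (e (k + 1)) (h.mono k) le_rfl
      have h3 : ¬ (P.x (e (k + 1)) < c) := fun h4 => hout ⟨_, Or.inl h4⟩
      have h4 : ¬ (d < P.x (e (k + 1))) := fun h4 => hout ⟨_, Or.inr h4⟩
      have h5 := GDX.ne_of_in (h.d.adj k) hcd.1 h2.1 h2.2
      have h6 := GDX.ne_of_in (h.d.adj k) hcd.2.1 h2.1 h2.2
      exact (GDX.eq_cell (h.d.adj k) hcd h2.1 h2.2
        (lt_of_le_of_ne (not_lt.mp h3) (Ne.symm h5)) (lt_of_le_of_ne (not_lt.mp h4) h6)).1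
    exact GDX.adj_next h.d 0 ((h1 _).trans (h1 _).symm)
  · intro p q hp
    obtain ⟨k, rfl, rfl, -, -⟩ := GDX.comp h hcd hp
    exact h.ty k
  · intro p q p' q' hp hp' hq hq'
    obtain ⟨k, h1, h2, h3, h4⟩ := GDX.comp h hcd hp
    obtain ⟨l, h1', h2', h3', h4'⟩ := GDX.comp h hcd hp'
    have hC : ¬ Cg K k l := by
      rintro ⟨j, hj⟩
      have h5 := GDX.per h.pe k j
      rw [← hj] at h5
      have h6 := h.mono k
      have h7 := h.mono l
      have h8 : 0 < j * (N : ℤ) := by omega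
      have h9 : j * (N : ℤ) < N := by
        have h10 := GDX.per h.pe (k + 1) j
        have h11 : k + 1 + j * K = l + 1 := by rw [hj]; ring
        rw [h11] at h10
        omega
      have h10 : 0 < j := by
        by_contra h11
        have : j * (N : ℤ) ≤ 0 := mul_nonpos_of_nonpos_of_nonneg (not_lt.mp h11) (Int.natCast_nonneg N)
        omega
      have h11 : (N : ℤ) ≤ j * N := by
        have : (1 : ℤ) ≤ j := h10
        nlinarith [Int.natCast_nonneg N]
      omega
    have h5 := h.sep k l hC (h3.trans h3'.symm)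
    rw [h1, h2, h1', h2']
    exact ⟨h5 c (Or.inl h3.symm), h5 d (Or.inr h4.symm)⟩

end LHE


end

section

/-!
# GLU: gluing over overlapping intervals
-/

namespace LCA

open Set Filter
open scoped ContDiff Topology

namespace GLU

/-- The glued set. -/
def glue (b c : ℝ) (A A' : Set E5) : Set E5 := {q | (q ∈ A ∧ q.1 < b) ∨ (q ∈ A' ∧ c < q.1)}

theorem good_glue {a b c d : ℝ} {B : Set E5} (hac : a < c) (hcb : c < b) (hbd : b < d)
    (h1 : Good (Ioo a b) B) (h2 : Good (Ioo c d) B) : Good (Ioo a d) B := by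
  refine ⟨?_, ?_, ?_, ?_⟩
  · intro q hq hJ
    rcases lt_or_ge q.1 b with h | h
    · exact h1.closed q hq ⟨hJ.1, h⟩
    · exact h2.closed q hq ⟨hcb.trans_le h, hJ.2⟩
  · intro K hK hKc
    have hm1 : c < (b + c) / 2 := by linarith
    have hm2 : (b + c) / 2 < b := by linarith
    obtain ⟨M1, hM1⟩ := h1.bounded (K ∩ Iic ((b + c) / 2))
      (fun x hx => ⟨(hK hx.1).1, lt_of_le_of_lt hx.2 hm2⟩) (hKc.inter_right isClosed_Iic)
    obtain ⟨M2, hM2⟩ := h2.bounded (K ∩ Ici ((b + c) / 2))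
      (fun x hx => ⟨lt_of_lt_of_le hm1 hx.2, (hK hx.1).2⟩) (hKc.inter_right isClosed_Ici)
    refine ⟨max M1 M2, fun q hq hqK => ?_⟩
    rcases le_total q.1 ((b + c) / 2) with h | h
    · exact (hM1 q hq ⟨hqK, h⟩).trans (le_max_left _ _)
    · exact (hM2 q hq ⟨hqK, h⟩).trans (le_max_right _ _)
  · intro q hq hJ
    rcases lt_or_ge q.1 b with h | h
    · exact h1.chart q hq ⟨hJ.1, h⟩
    · exact h2.chart q hq ⟨hcb.trans_le h, hJ.2⟩
  · intro q hq q' hq' hJ
    rcases lt_or_ge q.1 b with h | h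
    · exact h1.inj q hq q' hq' ⟨hJ.1, h⟩
    · exact h2.inj q hq q' hq' ⟨hcb.trans_le h, hJ.2⟩

theorem down_glue {a b c d : ℝ} {B : Set E5} (hac : a < c) (hcb : c < b) (hbd : b < d)
    (h1 : Down (Ioo a b) B) (h2 : Down (Ioo c d) B) : Down (Ioo a d) B := by
  intro q hq hJ c0 hc0 hle
  rcases lt_or_ge q.1 b with h | h
  · exact h1 q hq ⟨hJ.1, h⟩ c0 ⟨hc0.1, hle.trans_lt h⟩ hle
  · rcases lt_or_ge c c0 with h' | h'
    · exact h2 q hq ⟨hcb.trans_le h, hJ.2⟩ c0 ⟨h', hc0.2⟩ hle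
    · have hm1 : c < (b + c) / 2 := by linarith
      have hm2 : (b + c) / 2 < b := by linarith
      obtain ⟨q', hq', e, hj⟩ := h2 q hq ⟨hcb.trans_le h, hJ.2⟩ ((b + c) / 2)
        ⟨hm1, hm2.trans hbd⟩ (hm2.le.trans h)
      obtain ⟨q'', hq'', e', hj'⟩ := h1 q' hq' (by rw [e]; exact ⟨hac.trans hm1, hm2⟩) c0
        ⟨hc0.1, h'.trans_lt hcb⟩ (by rw [e]; exact h'.trans hm1.le)
      have s1 : {r ∈ B | r.1 ∈ Icc ((b + c) / 2) q.1} ⊆ {r ∈ B | r.1 ∈ Icc c0 q.1} :=
        fun r hr => ⟨hr.1, (h'.trans hm1.le).trans hr.2.1, hr.2.2⟩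
      have s2 : {r ∈ B | r.1 ∈ Icc c0 q'.1} ⊆ {r ∈ B | r.1 ∈ Icc c0 q.1} :=
        fun r hr => ⟨hr.1, hr.2.1, hr.2.2.trans (by rw [e]; exact hm2.le.trans h)⟩
      exact ⟨q'', hq'', e', (hj.mono s1).trans (hj'.mono s2)⟩

end GLU

open _root_.LCA.GLU in
theorem t_GLU (hCNG : Stmt_CNG) : Stmt_GLU := by
  intro a b c d A A' hac hcb hbd gA dA gA' dA' hagr
  have e1 : Agree (Ioo a b) A (glue b c A A') := by
    intro q hq
    constructor
    · intro h
      exact Or.inl ⟨h, hq.2⟩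
    · rintro (h | h)
      · exact h.1
      · exact (hagr q ⟨h.2, hq.2⟩).2 h.1
  have e2 : Agree (Ioo c d) A' (glue b c A A') := by
    intro q hq
    constructor
    · intro h
      exact Or.inr ⟨h, hq.1⟩
    · rintro (h | h)
      · exact (hagr q ⟨hq.1, h.2⟩).1 h.1
      · exact h.1
  obtain ⟨g1, d1, -⟩ := hCNG (Ioo a b) A (glue b c A A') isOpen_Ioo ordConnected_Ioo e1
  obtain ⟨g2, d2, -⟩ := hCNG (Ioo c d) A' (glue b c A A') isOpen_Ioo ordConnected_Ioo e2
  exact ⟨glue b c A A', good_glue hac hcb hbd (g1 gA) (g2 gA'),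
    down_glue hac hcb hbd (d1 dA) (d2 dA'), fun q hq => (e1 q hq).symm,
    fun q hq => (e2 q hq).symm⟩

end LCA


end

section

/-!
# DTA: before the maximum, the surface is the moving polygon
-/

namespace LCA

open Set Filter
open scoped ContDiff Topology

namespace DTA

variable {sh : Shape} {c : Comb 4 4} {w : Fin 4 → ℝ} {lt rt pa pb : Fin 4} {H₁ H₂ H₃ H₄ : Fin 4}
  {E : Evt} {Q V : St 4}

theorem lfH1 (h : Death c w lt rt pa pb H₁ H₂ H₃ H₄ E Q V) : c.lf H₁ = lt := by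
  have := h.valid.oka lt
  simpa only [Comb.OKa, h.tyl, h.al] using this

theorem lfH3 (h : Death c w lt rt pa pb H₁ H₂ H₃ H₄ E Q V) : c.lf H₃ = lt := by
  have := h.valid.okb lt
  simpa only [Comb.OKb, h.tyl, h.bl] using this

theorem rtH4 (h : Death c w lt rt pa pb H₁ H₂ H₃ H₄ E Q V) : c.rt H₄ = rt := by
  have := h.valid.oka rt
  simpa only [Comb.OKa, h.tyr, h.ar] using this

theorem rtH2 (h : Death c w lt rt pa pb H₁ H₂ H₃ H₄ E Q V) : c.rt H₂ = rt := by
  have := h.valid.okb rt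
  simpa only [Comb.OKb, h.tyr, h.br] using this

theorem rtH1 (h : Death c w lt rt pa pb H₁ H₂ H₃ H₄ E Q V) : c.rt H₁ = pa := by
  have := h.valid.oka pa
  simpa only [Comb.OKa, h.tya, h.aa] using this

theorem lfH4 (h : Death c w lt rt pa pb H₁ H₂ H₃ H₄ E Q V) : c.lf H₄ = pa := by
  have := h.valid.okb pa
  simpa only [Comb.OKb, h.tya, h.ab] using this

theorem rtH3 (h : Death c w lt rt pa pb H₁ H₂ H₃ H₄ E Q V) : c.rt H₃ = pb := by
  have := h.valid.oka pb
  simpa only [Comb.OKa, h.tyb, h.ba] using this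

theorem lfH2 (h : Death c w lt rt pa pb H₁ H₂ H₃ H₄ E Q V) : c.lf H₂ = pb := by
  have := h.valid.okb pb
  simpa only [Comb.OKb, h.tyb, h.bb] using this

theorem lin1 {n : ℕ} (Q V : St n) (t s : ℝ) (i : Fin n) :
    (lin Q V t s).1 i = Q.1 i + (s - t) * V.1 i := by
  simp [lin]

theorem lin2 {n : ℕ} (Q V : St n) (t s : ℝ) (i : Fin n) :
    (lin Q V t s).2 i = Q.2 i + (s - t) * V.2 i := by
  simp [lin]

theorem deriv_lin {n : ℕ} (Q V : St n) (t s : ℝ) : deriv (lin Q V t) s = V := by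
  have h1 : HasDerivAt (fun r : ℝ => (r - t) • V) V s := by
    simpa using ((hasDerivAt_id s).sub_const t).smul_const V
  exact (h1.const_add Q).deriv

/-- The four edges: slope, derivative of the slope, derivative of the constant, constant. -/
theorem edge1 (h : Death c w lt rt pa pb H₁ H₂ H₃ H₄ E Q V) {s : ℝ} (hs : s < E.s₀) :
    c.pe (lin Q V E.s₀ s) H₁ = E.P₁ + E.g / 2 ∧ c.dpe (lin Q V E.s₀ s) V H₁ = 0 ∧
    c.dae (lin Q V E.s₀ s) V H₁ = E.z₀ - E.ζ ∧
    c.ae (lin Q V E.s₀ s) H₁ = E.F₀ + (s - E.s₀) * (E.z₀ - E.ζ) - (E.P₁ + E.g / 2) * E.x₀ := by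
  have hv := h.pos.v
  have hne : (s - E.s₀) * E.v ≠ 0 := mul_ne_zero (by linarith) hv.ne'
  have hpe : c.pe (lin Q V E.s₀ s) H₁ = E.P₁ + E.g / 2 := by
    unfold Comb.pe
    rw [rtH1 h, lfH1 h]
    simp only [lin1, lin2, h.hx, h.hF, h.vxl, h.vxa, h.vFl, h.vFa]
    rw [div_eq_iff (by intro h0; apply hne; linarith)]
    ring
  have hdpe : c.dpe (lin Q V E.s₀ s) V H₁ = 0 := by
    unfold Comb.dpe
    rw [hpe, rtH1 h, lfH1 h]
    simp only [h.vxl, h.vxa, h.vFl, h.vFa]
    rw [div_eq_zero_iff]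
    left
    ring
  refine ⟨hpe, hdpe, ?_, ?_⟩
  · unfold Comb.dae
    rw [hdpe, hpe, lfH1 h]
    simp only [h.vxl, h.vFl]
    ring
  · unfold Comb.ae
    rw [hpe, lfH1 h]
    simp only [lin1, lin2, h.hx, h.hF, h.vxl, h.vFl]
    ring

theorem edge3 (h : Death c w lt rt pa pb H₁ H₂ H₃ H₄ E Q V) {s : ℝ} (hs : s < E.s₀) :
    c.pe (lin Q V E.s₀ s) H₃ = E.P₁ - E.g / 2 ∧ c.dpe (lin Q V E.s₀ s) V H₃ = 0 ∧
    c.dae (lin Q V E.s₀ s) V H₃ = E.z₀ + E.ζ ∧
    c.ae (lin Q V E.s₀ s) H₃ = E.F₀ + (s - E.s₀) * (E.z₀ + E.ζ) - (E.P₁ - E.g / 2) * E.x₀ := by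
  have hv := h.pos.v
  have hne : (s - E.s₀) * E.v ≠ 0 := mul_ne_zero (by linarith) hv.ne'
  have hpe : c.pe (lin Q V E.s₀ s) H₃ = E.P₁ - E.g / 2 := by
    unfold Comb.pe
    rw [rtH3 h, lfH3 h]
    simp only [lin1, lin2, h.hx, h.hF, h.vxl, h.vxb, h.vFl, h.vFb]
    rw [div_eq_iff (by intro h0; apply hne; linarith)]
    unfold Evt.ζ
    ring
  have hdpe : c.dpe (lin Q V E.s₀ s) V H₃ = 0 := by
    unfold Comb.dpe
    rw [hpe, rtH3 h, lfH3 h]
    simp only [h.vxl, h.vxb, h.vFl, h.vFb]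
    rw [div_eq_zero_iff]
    left
    unfold Evt.ζ
    ring
  refine ⟨hpe, hdpe, ?_, ?_⟩
  · unfold Comb.dae
    rw [hdpe, hpe, lfH3 h]
    simp only [h.vxl, h.vFl]
    unfold Evt.ζ
    ring
  · unfold Comb.ae
    rw [hpe, lfH3 h]
    simp only [lin1, lin2, h.hx, h.hF, h.vxl, h.vFl]
    unfold Evt.ζ
    ring

theorem edge4 (h : Death c w lt rt pa pb H₁ H₂ H₃ H₄ E Q V) {s : ℝ} (hs : s < E.s₀) :
    c.pe (lin Q V E.s₀ s) H₄ = E.P₂ - E.g / 2 ∧ c.dpe (lin Q V E.s₀ s) V H₄ = 0 ∧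
    c.dae (lin Q V E.s₀ s) V H₄ = E.z₀ - E.ζ ∧
    c.ae (lin Q V E.s₀ s) H₄ = E.F₀ + (s - E.s₀) * (E.z₀ - E.ζ) - (E.P₂ - E.g / 2) * E.x₀ := by
  have hv := h.pos.v
  have hne : (s - E.s₀) * E.v ≠ 0 := mul_ne_zero (by linarith) hv.ne'
  have hpe : c.pe (lin Q V E.s₀ s) H₄ = E.P₂ - E.g / 2 := by
    unfold Comb.pe
    rw [rtH4 h, lfH4 h]
    simp only [lin1, lin2, h.hx, h.hF, h.vxr, h.vxa, h.vFr, h.vFa]
    rw [div_eq_iff (by intro h0; apply hne; linarith)]
    unfold Evt.ζ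
    ring
  have hdpe : c.dpe (lin Q V E.s₀ s) V H₄ = 0 := by
    unfold Comb.dpe
    rw [hpe, rtH4 h, lfH4 h]
    simp only [h.vxr, h.vxa, h.vFr, h.vFa]
    rw [div_eq_zero_iff]
    left
    unfold Evt.ζ
    ring
  refine ⟨hpe, hdpe, ?_, ?_⟩
  · unfold Comb.dae
    rw [hdpe, hpe, lfH4 h]
    simp only [h.vxa, h.vFa]
    ring
  · unfold Comb.ae
    rw [hpe, lfH4 h]
    simp only [lin1, lin2, h.hx, h.hF, h.vxa, h.vFa]
    ring

theorem edge2 (h : Death c w lt rt pa pb H₁ H₂ H₃ H₄ E Q V) {s : ℝ} (hs : s < E.s₀) :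
    c.pe (lin Q V E.s₀ s) H₂ = E.P₂ + E.g / 2 ∧ c.dpe (lin Q V E.s₀ s) V H₂ = 0 ∧
    c.dae (lin Q V E.s₀ s) V H₂ = E.z₀ + E.ζ ∧
    c.ae (lin Q V E.s₀ s) H₂ = E.F₀ + (s - E.s₀) * (E.z₀ + E.ζ) - (E.P₂ + E.g / 2) * E.x₀ := by
  have hv := h.pos.v
  have hne : (s - E.s₀) * E.v ≠ 0 := mul_ne_zero (by linarith) hv.ne'
  have hpe : c.pe (lin Q V E.s₀ s) H₂ = E.P₂ + E.g / 2 := by
    unfold Comb.pe
    rw [rtH2 h, lfH2 h]
    simp only [lin1, lin2, h.hx, h.hF, h.vxr, h.vxb, h.vFr, h.vFb]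
    rw [div_eq_iff (by intro h0; apply hne; linarith)]
    ring
  have hdpe : c.dpe (lin Q V E.s₀ s) V H₂ = 0 := by
    unfold Comb.dpe
    rw [hpe, rtH2 h, lfH2 h]
    simp only [h.vxr, h.vxb, h.vFr, h.vFb]
    rw [div_eq_zero_iff]
    left
    ring
  refine ⟨hpe, hdpe, ?_, ?_⟩
  · unfold Comb.dae
    rw [hdpe, hpe, lfH2 h]
    simp only [h.vxb, h.vFb]
    ring
  · unfold Comb.ae
    rw [hpe, lfH2 h]
    simp only [lin1, lin2, h.hx, h.hF, h.vxb, h.vFb]
    ring

/-! ### the points of the polygon -/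

theorem ept1 (h : Death c w lt rt pa pb H₁ H₂ H₃ H₄ E Q V) {s : ℝ} (hs : s < E.s₀) (x : ℝ) :
    c.ept (lin Q V E.s₀ s) V H₁ x = (x, E.P₁ + E.g / 2, E.z₀ - E.ζ,
      E.F₀ + (s - E.s₀) * (E.z₀ - E.ζ) + (E.P₁ + E.g / 2) * (x - E.x₀)) := by
  obtain ⟨h1, h2, h3, h4⟩ := edge1 h hs
  unfold Comb.ept
  rw [h1, h2, h3, h4]
  refine Prod.ext rfl (Prod.ext rfl (Prod.ext ?_ ?_)) <;> simp only <;> ring

theorem ept3 (h : Death c w lt rt pa pb H₁ H₂ H₃ H₄ E Q V) {s : ℝ} (hs : s < E.s₀) (x : ℝ) :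
    c.ept (lin Q V E.s₀ s) V H₃ x = (x, E.P₁ - E.g / 2, E.z₀ + E.ζ,
      E.F₀ + (s - E.s₀) * (E.z₀ + E.ζ) + (E.P₁ - E.g / 2) * (x - E.x₀)) := by
  obtain ⟨h1, h2, h3, h4⟩ := edge3 h hs
  unfold Comb.ept
  rw [h1, h2, h3, h4]
  refine Prod.ext rfl (Prod.ext rfl (Prod.ext ?_ ?_)) <;> simp only <;> ring

theorem ept4 (h : Death c w lt rt pa pb H₁ H₂ H₃ H₄ E Q V) {s : ℝ} (hs : s < E.s₀) (x : ℝ) :
    c.ept (lin Q V E.s₀ s) V H₄ x = (x, E.P₂ - E.g / 2, E.z₀ - E.ζ,
      E.F₀ + (s - E.s₀) * (E.z₀ - E.ζ) + (E.P₂ - E.g / 2) * (x - E.x₀)) := by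
  obtain ⟨h1, h2, h3, h4⟩ := edge4 h hs
  unfold Comb.ept
  rw [h1, h2, h3, h4]
  refine Prod.ext rfl (Prod.ext rfl (Prod.ext ?_ ?_)) <;> simp only <;> ring

theorem ept2 (h : Death c w lt rt pa pb H₁ H₂ H₃ H₄ E Q V) {s : ℝ} (hs : s < E.s₀) (x : ℝ) :
    c.ept (lin Q V E.s₀ s) V H₂ x = (x, E.P₂ + E.g / 2, E.z₀ + E.ζ,
      E.F₀ + (s - E.s₀) * (E.z₀ + E.ζ) + (E.P₂ + E.g / 2) * (x - E.x₀)) := by
  obtain ⟨h1, h2, h3, h4⟩ := edge2 h hs
  unfold Comb.ept
  rw [h1, h2, h3, h4]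
  refine Prod.ext rfl (Prod.ext rfl (Prod.ext ?_ ?_)) <;> simp only <;> ring

theorem vpl (h : Death c w lt rt pa pb H₁ H₂ H₃ H₄ E Q V) {s : ℝ} (hs : s < E.s₀) (u : ℝ) :
    c.vp w (c.sp sh) s (lin Q V E.s₀ s) V lt u =
      (E.x₀ + (s - E.s₀) * E.v - E.r * sh.ξ u, E.P₁ + E.g / 2 - E.g * sh.τ u,
        E.z₀ + E.ζ * (2 * sh.τ u - 1),
        E.F₀ + (s - E.s₀) * (E.z₀ - E.ζ)
          + (E.P₁ + E.g / 2) * ((s - E.s₀) * E.v - E.r * sh.ξ u) + E.r * E.g * sh.ΘR u) := by
  obtain ⟨h1, h2, h3, h4⟩ := edge1 h hs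
  obtain ⟨k1, k2, k3, k4⟩ := edge3 h hs
  unfold Comb.vp Comb.vpt Comb.dl
  simp only [Comb.sp, Shape.st, h.tyl, h.al, h.bl, h1, h2, h3, h4, k1, k2, lin1, h.hx, h.vxl, h.hw]
  refine Prod.ext ?_ (Prod.ext ?_ (Prod.ext ?_ ?_)) <;> simp only [Evt.ζ] <;> ring

theorem vpr (h : Death c w lt rt pa pb H₁ H₂ H₃ H₄ E Q V) {s : ℝ} (hs : s < E.s₀) (u : ℝ) :
    c.vp w (c.sp sh) s (lin Q V E.s₀ s) V rt u =
      (E.x₀ - (s - E.s₀) * E.v + E.r * sh.ξ u, E.P₂ - E.g / 2 + E.g * sh.τ u,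
        E.z₀ + E.ζ * (2 * sh.τ u - 1),
        E.F₀ + (s - E.s₀) * (E.z₀ - E.ζ)
          + (E.P₂ - E.g / 2) * (-(s - E.s₀) * E.v + E.r * sh.ξ u) + E.r * E.g * sh.ΘR u) := by
  obtain ⟨h1, h2, h3, h4⟩ := edge4 h hs
  obtain ⟨k1, k2, k3, k4⟩ := edge2 h hs
  unfold Comb.vp Comb.vpt Comb.dl
  simp only [Comb.sp, Shape.st, h.tyr, h.ar, h.br, h1, h2, h3, h4, k1, k2, lin1, h.hx, h.vxr, h.hw]
  refine Prod.ext ?_ (Prod.ext ?_ (Prod.ext ?_ ?_)) <;> simp only [Evt.ζ] <;> ring

theorem vpa (h : Death c w lt rt pa pb H₁ H₂ H₃ H₄ E Q V) {s : ℝ} (hs : s < E.s₀) (u : ℝ) :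
    c.vp w (c.sp sh) s (lin Q V E.s₀ s) V pa u =
      (E.x₀ + E.r * u, E.P₁ + E.g / 2 + (E.P₂ - E.P₁ - E.g) * sh.τ u, E.z₀ - E.ζ,
        E.F₀ + (s - E.s₀) * (E.z₀ - E.ζ) + (E.P₁ + E.g / 2) * (E.r * u)
          + E.r * (E.P₂ - E.P₁ - E.g) * sh.ΘP u) := by
  obtain ⟨h1, h2, h3, h4⟩ := edge1 h hs
  obtain ⟨k1, k2, k3, k4⟩ := edge4 h hs
  unfold Comb.vp Comb.vpt Comb.dl
  simp only [Comb.sp, Shape.st, h.tya, h.aa, h.ab, h1, h2, h3, h4, k1, k2, lin1, h.hx, h.vxa, h.hw]
  refine Prod.ext ?_ (Prod.ext ?_ (Prod.ext ?_ ?_)) <;> simp only <;> ring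

theorem vpb (h : Death c w lt rt pa pb H₁ H₂ H₃ H₄ E Q V) {s : ℝ} (hs : s < E.s₀) (u : ℝ) :
    c.vp w (c.sp sh) s (lin Q V E.s₀ s) V pb u =
      (E.x₀ + E.r * u, E.P₁ - E.g / 2 + (E.P₂ - E.P₁ + E.g) * sh.τ u, E.z₀ + E.ζ,
        E.F₀ + (s - E.s₀) * (E.z₀ + E.ζ) + (E.P₁ - E.g / 2) * (E.r * u)
          + E.r * (E.P₂ - E.P₁ + E.g) * sh.ΘP u) := by
  obtain ⟨h1, h2, h3, h4⟩ := edge3 h hs
  obtain ⟨k1, k2, k3, k4⟩ := edge2 h hs
  unfold Comb.vp Comb.vpt Comb.dl
  simp only [Comb.sp, Shape.st, h.tyb, h.ba, h.bb, h1, h2, h3, h4, k1, k2, lin1, h.hx, h.vxb, h.hw]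
  refine Prod.ext ?_ (Prod.ext ?_ (Prod.ext ?_ ?_)) <;> simp only <;> ring

/-! ### the points of the surface near the maximum -/

theorem psi_low {U : ℝ} (hU : U ≤ -1) : sh.Psi U = -U := by
  unfold Shape.Psi
  rw [sh.ΘP_low U hU]
  ring

theorem psi_high {U : ℝ} (hU : 1 ≤ U) : sh.Psi U = U := by
  unfold Shape.Psi
  rw [sh.ΘP_high U hU]
  ring

/-- `U ≤ -1`: the piece of the left tip. -/
theorem ptl (hp : E.Pos) {u x : ℝ} (hU : (x - E.x₀) / E.r ≤ -1) :
    let s := (E.pt sh (-1) (-1) (u, x)).1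
    x = E.x₀ + (s - E.s₀) * E.v - E.r * sh.ξ u ∧
    E.pt sh (-1) (-1) (u, x) = (s, x, E.P₁ + E.g / 2 - E.g * sh.τ u,
        E.z₀ + E.ζ * (2 * sh.τ u - 1),
        E.F₀ + (s - E.s₀) * (E.z₀ - E.ζ)
          + (E.P₁ + E.g / 2) * ((s - E.s₀) * E.v - E.r * sh.ξ u) + E.r * E.g * sh.ΘR u) := by
  intro s
  have hr := hp.r.ne'
  have hv := hp.v.ne'
  have h1 := sh.τ_low _ hU
  have h2 := sh.ΘP_low _ hU
  have h3 := psi_low (sh := sh) hU
  have hs : s = E.s₀ + (E.r / E.v) * sh.ξ u + (E.r / E.v) * ((x - E.x₀) / E.r) := by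
    show E.s₀ + -1 * (-(E.r / E.v) * sh.ξ u - -1 * (E.r / E.v) * sh.Psi ((x - E.x₀) / E.r)) = _
    rw [h3]
    ring
  have hx : x = E.x₀ + (s - E.s₀) * E.v - E.r * sh.ξ u := by
    rw [hs]
    field_simp
    ring
  refine ⟨hx, ?_⟩
  show (s, x, -1 * -1 * (E.ζ * (2 * sh.τ u - 1)) * ((2 * sh.τ ((x - E.x₀) / E.r) - 1) / E.v)
      + E.P₁ + (E.P₂ - E.P₁) * sh.τ ((x - E.x₀) / E.r), E.z₀ + E.ζ * (2 * sh.τ u - 1),
      E.F₀ - -1 * (E.ζ * E.r / E.v) * (2 * sh.ΘR u - sh.ξ u) + E.P₁ * (x - E.x₀)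
      + (E.P₂ - E.P₁) * E.r * sh.ΘP ((x - E.x₀) / E.r) + E.z₀ * (s - E.s₀)) = _
  rw [h1, h2]
  refine Prod.ext rfl (Prod.ext rfl (Prod.ext ?_ (Prod.ext rfl ?_)))
  · simp only [Evt.ζ]
    field_simp
    ring
  · simp only [Evt.ζ]
    have : x - E.x₀ = (s - E.s₀) * E.v - E.r * sh.ξ u := by linarith only [hx]
    rw [this]
    field_simp
    ring

/-- `1 ≤ U`: the piece of the right tip. -/
theorem ptr (hp : E.Pos) {u x : ℝ} (hU : 1 ≤ (x - E.x₀) / E.r) :
    let s := (E.pt sh (-1) (-1) (u, x)).1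
    x = E.x₀ - (s - E.s₀) * E.v + E.r * sh.ξ u ∧
    E.pt sh (-1) (-1) (u, x) = (s, x, E.P₂ - E.g / 2 + E.g * sh.τ u,
        E.z₀ + E.ζ * (2 * sh.τ u - 1),
        E.F₀ + (s - E.s₀) * (E.z₀ - E.ζ)
          + (E.P₂ - E.g / 2) * (-(s - E.s₀) * E.v + E.r * sh.ξ u) + E.r * E.g * sh.ΘR u) := by
  intro s
  have hr := hp.r.ne'
  have hv := hp.v.ne'
  have h1 := sh.τ_high _ hU
  have h2 := sh.ΘP_high _ hU
  have h3 := psi_high (sh := sh) hU
  have hs : s = E.s₀ + (E.r / E.v) * sh.ξ u - (E.r / E.v) * ((x - E.x₀) / E.r) := by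
    show E.s₀ + -1 * (-(E.r / E.v) * sh.ξ u - -1 * (E.r / E.v) * sh.Psi ((x - E.x₀) / E.r)) = _
    rw [h3]
    ring
  have hx : x = E.x₀ - (s - E.s₀) * E.v + E.r * sh.ξ u := by
    rw [hs]
    field_simp
    ring
  refine ⟨hx, ?_⟩
  show (s, x, -1 * -1 * (E.ζ * (2 * sh.τ u - 1)) * ((2 * sh.τ ((x - E.x₀) / E.r) - 1) / E.v)
      + E.P₁ + (E.P₂ - E.P₁) * sh.τ ((x - E.x₀) / E.r), E.z₀ + E.ζ * (2 * sh.τ u - 1),
      E.F₀ - -1 * (E.ζ * E.r / E.v) * (2 * sh.ΘR u - sh.ξ u) + E.P₁ * (x - E.x₀)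
      + (E.P₂ - E.P₁) * E.r * sh.ΘP ((x - E.x₀) / E.r) + E.z₀ * (s - E.s₀)) = _
  rw [h1, h2]
  refine Prod.ext rfl (Prod.ext rfl (Prod.ext ?_ (Prod.ext rfl ?_)))
  · simp only [Evt.ζ]
    field_simp
    ring
  · simp only [Evt.ζ]
    have h5 : (E.P₂ - E.P₁) * E.r * ((x - E.x₀) / E.r) = (E.P₂ - E.P₁) * (x - E.x₀) := by
      field_simp
    have : x - E.x₀ = -(s - E.s₀) * E.v + E.r * sh.ξ u := by linarith only [hx]
    rw [h5, this]
    field_simp
    ring

/-- `u ≤ -1`: the piece of the first pass. -/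
theorem pta (hp : E.Pos) {u x : ℝ} (hu : u ≤ -1) :
    let s := (E.pt sh (-1) (-1) (u, x)).1
    E.pt sh (-1) (-1) (u, x) = (s, E.x₀ + E.r * ((x - E.x₀) / E.r),
        E.P₁ + E.g / 2 + (E.P₂ - E.P₁ - E.g) * sh.τ ((x - E.x₀) / E.r), E.z₀ - E.ζ,
        E.F₀ + (s - E.s₀) * (E.z₀ - E.ζ) + (E.P₁ + E.g / 2) * (E.r * ((x - E.x₀) / E.r))
          + E.r * (E.P₂ - E.P₁ - E.g) * sh.ΘP ((x - E.x₀) / E.r)) := by
  intro s
  have hr := hp.r.ne'
  have hv := hp.v.ne'
  have h1 := sh.τ_low _ hu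
  have h2 := sh.ΘR_low _ hu
  have h3 : sh.ξ u = u := by
    rw [sh.ξ_out u (by rw [abs_of_nonpos (by linarith)]; linarith),
      abs_of_nonpos (by linarith)]
    ring
  have hs : (s - E.s₀) = (E.r / E.v) * u -
      (E.r / E.v) * (2 * sh.ΘP ((x - E.x₀) / E.r) - (x - E.x₀) / E.r) := by
    show E.s₀ + -1 * (-(E.r / E.v) * sh.ξ u - -1 * (E.r / E.v) * sh.Psi ((x - E.x₀) / E.r))
      - E.s₀ = _
    rw [h3]
    unfold Shape.Psi
    ring
  show (s, x, -1 * -1 * (E.ζ * (2 * sh.τ u - 1)) * ((2 * sh.τ ((x - E.x₀) / E.r) - 1) / E.v)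
      + E.P₁ + (E.P₂ - E.P₁) * sh.τ ((x - E.x₀) / E.r), E.z₀ + E.ζ * (2 * sh.τ u - 1),
      E.F₀ - -1 * (E.ζ * E.r / E.v) * (2 * sh.ΘR u - sh.ξ u) + E.P₁ * (x - E.x₀)
      + (E.P₂ - E.P₁) * E.r * sh.ΘP ((x - E.x₀) / E.r) + E.z₀ * (s - E.s₀)) = _
  rw [h1, h2, h3]
  have hx : E.r * ((x - E.x₀) / E.r) = x - E.x₀ := by field_simp
  refine Prod.ext rfl (Prod.ext ?_ (Prod.ext ?_ (Prod.ext ?_ ?_)))
  · simp only [hx]
    ring
  · simp only [Evt.ζ]
    field_simp
    ring
  · simp only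
    ring
  · simp only [Evt.ζ, hx, hs]
    generalize sh.ΘP ((x - E.x₀) / E.r) = A
    field_simp
    ring

/-- `1 ≤ u`: the piece of the second pass. -/
theorem ptb (hp : E.Pos) {u x : ℝ} (hu : 1 ≤ u) :
    let s := (E.pt sh (-1) (-1) (u, x)).1
    E.pt sh (-1) (-1) (u, x) = (s, E.x₀ + E.r * ((x - E.x₀) / E.r),
        E.P₁ - E.g / 2 + (E.P₂ - E.P₁ + E.g) * sh.τ ((x - E.x₀) / E.r), E.z₀ + E.ζ,
        E.F₀ + (s - E.s₀) * (E.z₀ + E.ζ) + (E.P₁ - E.g / 2) * (E.r * ((x - E.x₀) / E.r))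
          + E.r * (E.P₂ - E.P₁ + E.g) * sh.ΘP ((x - E.x₀) / E.r)) := by
  intro s
  have hr := hp.r.ne'
  have hv := hp.v.ne'
  have h1 := sh.τ_high _ hu
  have h2 := sh.ΘR_high _ hu
  have h3 : sh.ξ u = -u := by
    rw [sh.ξ_out u (by rw [abs_of_nonneg (by linarith)]; linarith),
      abs_of_nonneg (by linarith)]
  have hs : (s - E.s₀) = -(E.r / E.v) * u -
      (E.r / E.v) * (2 * sh.ΘP ((x - E.x₀) / E.r) - (x - E.x₀) / E.r) := by
    show E.s₀ + -1 * (-(E.r / E.v) * sh.ξ u - -1 * (E.r / E.v) * sh.Psi ((x - E.x₀) / E.r))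
      - E.s₀ = _
    rw [h3]
    unfold Shape.Psi
    ring
  show (s, x, -1 * -1 * (E.ζ * (2 * sh.τ u - 1)) * ((2 * sh.τ ((x - E.x₀) / E.r) - 1) / E.v)
      + E.P₁ + (E.P₂ - E.P₁) * sh.τ ((x - E.x₀) / E.r), E.z₀ + E.ζ * (2 * sh.τ u - 1),
      E.F₀ - -1 * (E.ζ * E.r / E.v) * (2 * sh.ΘR u - sh.ξ u) + E.P₁ * (x - E.x₀)
      + (E.P₂ - E.P₁) * E.r * sh.ΘP ((x - E.x₀) / E.r) + E.z₀ * (s - E.s₀)) = _
  rw [h1, h2, h3]
  have hx : E.r * ((x - E.x₀) / E.r) = x - E.x₀ := by field_simp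
  refine Prod.ext rfl (Prod.ext ?_ (Prod.ext ?_ (Prod.ext ?_ ?_)))
  · simp only [hx]
    ring
  · simp only [Evt.ζ]
    field_simp
    ring
  · simp only
    ring
  · simp only [Evt.ζ, hx, hs]
    generalize sh.ΘP ((x - E.x₀) / E.r) = A
    field_simp
    ring

theorem time (E : Evt) (sh : Shape) (u x : ℝ) : (E.pt sh (-1) (-1) (u, x)).1 =
    E.s₀ + (E.r / E.v) * (sh.ξ u - sh.Psi ((x - E.x₀) / E.r)) := by
  show E.s₀ + -1 * (-(E.r / E.v) * sh.ξ u - -1 * (E.r / E.v) * sh.Psi ((x - E.x₀) / E.r)) = _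
  ring

theorem xi_bd (sh : Shape) {u : ℝ} (hu : |u| ≤ 2) : |sh.ξ u| ≤ 2 := by
  by_cases h : |u| ≤ 1
  · exact (sh.ξ_in u h).trans (by norm_num)
  · rw [sh.ξ_out u (not_le.1 h).le, abs_neg, abs_abs]
    exact hu

theorem xi_low (sh : Shape) {u : ℝ} (hu : u ≤ -1) : sh.ξ u = u := by
  rw [sh.ξ_out u (by rw [abs_of_nonpos (by linarith)]; linarith), abs_of_nonpos (by linarith)]
  ring

theorem xi_high (sh : Shape) {u : ℝ} (hu : 1 ≤ u) : sh.ξ u = -u := by
  rw [sh.ξ_out u (by rw [abs_of_nonneg (by linarith)]; linarith), abs_of_nonneg (by linarith)]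

theorem psi_bd (sh : Shape) {U : ℝ} (hU : |U| ≤ 2) : sh.Psi U ≤ 6 := by
  have h1 := (abs_le.1 (sh.ΘP_bd U hU)).2
  have h2 := (abs_le.1 hU).1
  unfold Shape.Psi
  linarith

/-- From the surface to the polygon. -/
theorem fwd (h : Death c w lt rt pa pb H₁ H₂ H₃ H₄ E Q V) {u x : ℝ}
    (hs8 : (E.pt sh (-1) (-1) (u, x)).1 < E.s₀ - 8 * E.r / E.v) :
    (E.pt sh (-1) (-1) (u, x)).2 ∈ c.slice w (c.sp sh) (E.pt sh (-1) (-1) (u, x)).1
      (lin Q V E.s₀ (E.pt sh (-1) (-1) (u, x)).1) V := by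
  have hr := h.pos.r
  have hv := h.pos.v
  have hpos : 0 < 8 * E.r / E.v := by positivity
  have htime := time E sh u x
  have hs : (E.pt sh (-1) (-1) (u, x)).1 < E.s₀ := by linarith
  have h8 : 8 < sh.Psi ((x - E.x₀) / E.r) - sh.ξ u := by
    have h1 : (E.r / E.v) * 8 < (E.r / E.v) * (sh.Psi ((x - E.x₀) / E.r) - sh.ξ u) := by
      have h2 : (E.r / E.v) * 8 = 8 * E.r / E.v := by ring
      rw [h2]
      linarith
    exact lt_of_mul_lt_mul_left h1 (by positivity)
  have hxU : x = E.x₀ + E.r * ((x - E.x₀) / E.r) := by field_simp; ring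
  by_cases hU2 : |(x - E.x₀) / E.r| ≤ 2
  · have h6 := psi_bd sh hU2
    have hu1 : ¬ |u| ≤ 1 := by
      intro h1
      have := (abs_le.1 (sh.ξ_in u h1)).1
      linarith
    rcases le_or_gt 0 u with hu | hu
    · rw [abs_of_nonneg hu] at hu1
      have h1u : 1 ≤ u := (not_le.1 hu1).le
      refine Or.inr ⟨pb, (x - E.x₀) / E.r, hU2, ?_⟩
      rw [vpb h hs]
      exact congrArg Prod.snd (ptb h.pos (sh := sh) (x := x) h1u)
    · rw [abs_of_neg hu] at hu1
      have h1u : u ≤ -1 := by linarith only [hu1]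
      refine Or.inr ⟨pa, (x - E.x₀) / E.r, hU2, ?_⟩
      rw [vpa h hs]
      exact congrArg Prod.snd (pta h.pos (sh := sh) (x := x) h1u)
  · rcases le_or_gt 0 ((x - E.x₀) / E.r) with hU | hU
    · rw [abs_of_nonneg hU] at hU2
      have h2U : 2 < (x - E.x₀) / E.r := not_le.1 hU2
      have hx2 : E.x₀ + 2 * E.r ≤ x := by
        rw [lt_div_iff₀ hr] at h2U
        linarith only [h2U]
      obtain ⟨hx, hpt⟩ := ptr h.pos (sh := sh) (u := u) (x := x) (by linarith only [hU2])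
      have hpt2 := congrArg Prod.snd hpt
      by_cases hu2 : |u| ≤ 2
      · refine Or.inr ⟨rt, u, hu2, ?_⟩
        rw [vpr h hs, hpt2, ← hx]
      · rcases le_or_gt 0 u with hu | hu
        · rw [abs_of_nonneg hu] at hu2
          have h1u : 1 ≤ u := by linarith only [hu2]
          have e1 := xi_high sh h1u
          have e2 := sh.τ_high u h1u
          have e3 := sh.ΘR_high u h1u
          rw [e1] at hx
          refine Or.inl ⟨H₂, x, ?_, ?_⟩
          · unfold Comb.rg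
            rw [lfH2 h, rtH2 h, lin1, lin1, h.hx, h.hx, h.vxb, h.vxr, h.hw, h.hw]
            constructor
            · linarith only [hx2]
            · nlinarith only [hx, hr, hu2]
          · rw [ept2 h hs, hpt2]
            refine Prod.ext rfl (Prod.ext ?_ (Prod.ext ?_ ?_))
            · simp only [e2]
              ring
            · simp only [e2]
              ring
            · simp only [e1, e3]
              have h7 : x - E.x₀ = -((E.pt sh (-1) (-1) (u, x)).1 - E.s₀) * E.v - E.r * u := by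
                linarith only [hx]
              rw [h7]
              unfold Evt.ζ
              ring
        · rw [abs_of_neg hu] at hu2
          have h1u : u ≤ -1 := by linarith only [hu2]
          have e1 := xi_low sh h1u
          have e2 := sh.τ_low u h1u
          have e3 := sh.ΘR_low u h1u
          rw [e1] at hx
          refine Or.inl ⟨H₄, x, ?_, ?_⟩
          · unfold Comb.rg
            rw [lfH4 h, rtH4 h, lin1, lin1, h.hx, h.hx, h.vxa, h.vxr, h.hw, h.hw]
            constructor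
            · linarith
            · nlinarith only [hx, hr, hu2]
          · rw [ept4 h hs, hpt2]
            refine Prod.ext rfl (Prod.ext ?_ (Prod.ext ?_ ?_))
            · simp only [e2]
              ring
            · simp only [e2]
              ring
            · simp only [e1, e3]
              have h7 : x - E.x₀ = -((E.pt sh (-1) (-1) (u, x)).1 - E.s₀) * E.v + E.r * u := by
                linarith only [hx]
              rw [h7]
              ring
    · rw [abs_of_neg hU] at hU2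
      have h2U : (x - E.x₀) / E.r < -2 := by linarith
      have hx2 : x ≤ E.x₀ - 2 * E.r := by
        rw [div_lt_iff₀ hr] at h2U
        linarith
      obtain ⟨hx, hpt⟩ := ptl h.pos (sh := sh) (u := u) (x := x) (by linarith)
      have hpt2 := congrArg Prod.snd hpt
      by_cases hu2 : |u| ≤ 2
      · refine Or.inr ⟨lt, u, hu2, ?_⟩
        rw [vpl h hs, hpt2, ← hx]
      · rcases le_or_gt 0 u with hu | hu
        · rw [abs_of_nonneg hu] at hu2
          have h1u : 1 ≤ u := by linarith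
          have e1 := xi_high sh h1u
          have e2 := sh.τ_high u h1u
          have e3 := sh.ΘR_high u h1u
          rw [e1] at hx
          refine Or.inl ⟨H₃, x, ?_, ?_⟩
          · unfold Comb.rg
            rw [lfH3 h, rtH3 h, lin1, lin1, h.hx, h.hx, h.vxb, h.vxl, h.hw, h.hw]
            constructor
            · nlinarith only [hx, hr, hu2]
            · linarith
          · rw [ept3 h hs, hpt2]
            refine Prod.ext rfl (Prod.ext ?_ (Prod.ext ?_ ?_))
            · simp only [e2]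
              ring
            · simp only [e2]
              ring
            · simp only [e1, e3]
              have h7 : x - E.x₀ = ((E.pt sh (-1) (-1) (u, x)).1 - E.s₀) * E.v + E.r * u := by
                linarith only [hx]
              rw [h7]
              unfold Evt.ζ
              ring
        · rw [abs_of_neg hu] at hu2
          have h1u : u ≤ -1 := by linarith
          have e1 := xi_low sh h1u
          have e2 := sh.τ_low u h1u
          have e3 := sh.ΘR_low u h1u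
          rw [e1] at hx
          refine Or.inl ⟨H₁, x, ?_, ?_⟩
          · unfold Comb.rg
            rw [lfH1 h, rtH1 h, lin1, lin1, h.hx, h.hx, h.vxa, h.vxl, h.hw, h.hw]
            constructor
            · nlinarith only [hx, hr, hu2]
            · linarith
          · rw [ept1 h hs, hpt2]
            refine Prod.ext rfl (Prod.ext ?_ (Prod.ext ?_ ?_))
            · simp only [e2]
              ring
            · simp only [e2]
              ring
            · simp only [e1, e3]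
              have h7 : x - E.x₀ = ((E.pt sh (-1) (-1) (u, x)).1 - E.s₀) * E.v - E.r * u := by
                linarith only [hx]
              rw [h7]
              ring

/-- The point of the surface on the piece of the left tip. -/
theorem bwdl (h : Death c w lt rt pa pb H₁ H₂ H₃ H₄ E Q V) {s u : ℝ}
    (hU : (s - E.s₀) * E.v - E.r * sh.ξ u ≤ -E.r) :
    E.pt sh (-1) (-1) (u, E.x₀ + (s - E.s₀) * E.v - E.r * sh.ξ u) =
      (s, E.x₀ + (s - E.s₀) * E.v - E.r * sh.ξ u, E.P₁ + E.g / 2 - E.g * sh.τ u,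
        E.z₀ + E.ζ * (2 * sh.τ u - 1),
        E.F₀ + (s - E.s₀) * (E.z₀ - E.ζ)
          + (E.P₁ + E.g / 2) * ((s - E.s₀) * E.v - E.r * sh.ξ u) + E.r * E.g * sh.ΘR u) := by
  have hr := h.pos.r
  have hv := h.pos.v
  have hU' : (E.x₀ + (s - E.s₀) * E.v - E.r * sh.ξ u - E.x₀) / E.r ≤ -1 := by
    rw [div_le_iff₀ hr]
    linarith
  obtain ⟨hx, hpt⟩ := ptl h.pos (sh := sh) (u := u) hU'
  have hst : (E.pt sh (-1) (-1) (u, E.x₀ + (s - E.s₀) * E.v - E.r * sh.ξ u)).1 = s := by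
    have h1 : ((E.pt sh (-1) (-1) (u, E.x₀ + (s - E.s₀) * E.v - E.r * sh.ξ u)).1 - s) * E.v = 0 := by
      linarith only [hx]
    rcases mul_eq_zero.1 h1 with h2 | h2
    · linarith
    · exact absurd h2 hv.ne'
  rw [hst] at hpt
  exact hpt

/-- The point of the surface on the piece of the right tip. -/
theorem bwdr (h : Death c w lt rt pa pb H₁ H₂ H₃ H₄ E Q V) {s u : ℝ}
    (hU : E.r ≤ -(s - E.s₀) * E.v + E.r * sh.ξ u) :
    E.pt sh (-1) (-1) (u, E.x₀ - (s - E.s₀) * E.v + E.r * sh.ξ u) =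
      (s, E.x₀ - (s - E.s₀) * E.v + E.r * sh.ξ u, E.P₂ - E.g / 2 + E.g * sh.τ u,
        E.z₀ + E.ζ * (2 * sh.τ u - 1),
        E.F₀ + (s - E.s₀) * (E.z₀ - E.ζ)
          + (E.P₂ - E.g / 2) * (-(s - E.s₀) * E.v + E.r * sh.ξ u) + E.r * E.g * sh.ΘR u) := by
  have hr := h.pos.r
  have hv := h.pos.v
  have hU' : 1 ≤ (E.x₀ - (s - E.s₀) * E.v + E.r * sh.ξ u - E.x₀) / E.r := by
    rw [le_div_iff₀ hr]
    linarith
  obtain ⟨hx, hpt⟩ := ptr h.pos (sh := sh) (u := u) hU'
  have hst : (E.pt sh (-1) (-1) (u, E.x₀ - (s - E.s₀) * E.v + E.r * sh.ξ u)).1 = s := by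
    have h1 : ((E.pt sh (-1) (-1) (u, E.x₀ - (s - E.s₀) * E.v + E.r * sh.ξ u)).1 - s) * E.v = 0 := by
      linarith only [hx]
    rcases mul_eq_zero.1 h1 with h2 | h2
    · linarith only [h2]
    · exact absurd h2 hv.ne'
  rw [hst] at hpt
  exact hpt

/-- From the polygon to the surface. -/
theorem bwd (h : Death c w lt rt pa pb H₁ H₂ H₃ H₄ E Q V) {s : ℝ}
    (hs8 : s < E.s₀ - 8 * E.r / E.v) {y : ℝ × ℝ × ℝ × ℝ}
    (hy : y ∈ c.slice w (c.sp sh) s (lin Q V E.s₀ s) V) :
    (s, y) ∈ E.set sh (-1) (-1) := by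
  have hr := h.pos.r
  have hv := h.pos.v
  have hpos : 0 < 8 * E.r / E.v := by positivity
  have hs : s < E.s₀ := by linarith
  have h8 : (s - E.s₀) * E.v < -(8 * E.r) := by
    have h1 : s - E.s₀ < -(8 * E.r) / E.v := by
      rw [neg_div]
      linarith
    rwa [lt_div_iff₀ hv] at h1
  rcases hy with ⟨e, x, hx, rfl⟩ | ⟨i, u, hu, rfl⟩
  · rcases h.edge e with rfl | rfl | rfl | rfl
    · unfold Comb.rg at hx
      rw [lfH1 h, rtH1 h, lin1, lin1, h.hx, h.hx, h.vxa, h.vxl, h.hw, h.hw] at hx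
      obtain ⟨hx1, hx2⟩ := hx
      have hru : E.r * ((E.x₀ + (s - E.s₀) * E.v - x) / E.r) = E.x₀ + (s - E.s₀) * E.v - x := by
        field_simp
      have hu1 : (E.x₀ + (s - E.s₀) * E.v - x) / E.r ≤ -1 := by
        rw [div_le_iff₀ hr]
        linarith
      have e1 := xi_low sh hu1
      have e2 := sh.τ_low _ hu1
      have e3 := sh.ΘR_low _ hu1
      have hb := bwdl h (sh := sh) (s := s) (u := (E.x₀ + (s - E.s₀) * E.v - x) / E.r)
        (by rw [e1, hru]; linarith)
      rw [ept1 h hs]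
      refine ⟨_, hb.trans ?_⟩
      rw [e1, e2, e3, hru]
      refine Prod.ext rfl (Prod.ext ?_ (Prod.ext ?_ (Prod.ext ?_ ?_))) <;> simp only <;> ring
    · unfold Comb.rg at hx
      rw [lfH2 h, rtH2 h, lin1, lin1, h.hx, h.hx, h.vxb, h.vxr, h.hw, h.hw] at hx
      obtain ⟨hx1, hx2⟩ := hx
      have hru : E.r * ((E.x₀ - (s - E.s₀) * E.v - x) / E.r) = E.x₀ - (s - E.s₀) * E.v - x := by
        field_simp
      have hu1 : 1 ≤ (E.x₀ - (s - E.s₀) * E.v - x) / E.r := by
        rw [le_div_iff₀ hr]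
        linarith
      have e1 := xi_high sh hu1
      have e2 := sh.τ_high _ hu1
      have e3 := sh.ΘR_high _ hu1
      have hb := bwdr h (sh := sh) (s := s) (u := (E.x₀ - (s - E.s₀) * E.v - x) / E.r)
        (by rw [e1, mul_neg, hru]; linarith only [hr, hx1])
      rw [ept2 h hs]
      refine ⟨_, hb.trans ?_⟩
      rw [e1, e2, e3]
      refine Prod.ext rfl (Prod.ext ?_ (Prod.ext ?_ (Prod.ext ?_ ?_)))
      · simp only [mul_neg, hru]
        ring
      · simp only
        ring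
      · simp only
        ring
      · simp only [mul_neg, hru]
        have h9 : E.r * E.g * ((E.x₀ - (s - E.s₀) * E.v - x) / E.r) =
            E.g * (E.x₀ - (s - E.s₀) * E.v - x) := by
          field_simp
        rw [h9]
        unfold Evt.ζ
        ring
    · unfold Comb.rg at hx
      rw [lfH3 h, rtH3 h, lin1, lin1, h.hx, h.hx, h.vxb, h.vxl, h.hw, h.hw] at hx
      obtain ⟨hx1, hx2⟩ := hx
      have hru : E.r * ((x - (E.x₀ + (s - E.s₀) * E.v)) / E.r) =
          x - (E.x₀ + (s - E.s₀) * E.v) := by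
        field_simp
      have hu1 : 1 ≤ (x - (E.x₀ + (s - E.s₀) * E.v)) / E.r := by
        rw [le_div_iff₀ hr]
        linarith
      have e1 := xi_high sh hu1
      have e2 := sh.τ_high _ hu1
      have e3 := sh.ΘR_high _ hu1
      have hb := bwdl h (sh := sh) (s := s) (u := (x - (E.x₀ + (s - E.s₀) * E.v)) / E.r)
        (by rw [e1, mul_neg, hru]; linarith)
      rw [ept3 h hs]
      refine ⟨_, hb.trans ?_⟩
      rw [e1, e2, e3]
      refine Prod.ext rfl (Prod.ext ?_ (Prod.ext ?_ (Prod.ext ?_ ?_)))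
      · simp only [mul_neg, hru]
        ring
      · simp only
        ring
      · simp only
        ring
      · simp only [mul_neg, hru]
        have h9 : E.r * E.g * ((x - (E.x₀ + (s - E.s₀) * E.v)) / E.r) =
            E.g * (x - (E.x₀ + (s - E.s₀) * E.v)) := by
          field_simp
        rw [h9]
        unfold Evt.ζ
        ring
    · unfold Comb.rg at hx
      rw [lfH4 h, rtH4 h, lin1, lin1, h.hx, h.hx, h.vxa, h.vxr, h.hw, h.hw] at hx
      obtain ⟨hx1, hx2⟩ := hx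
      have hru : E.r * ((x - (E.x₀ - (s - E.s₀) * E.v)) / E.r) =
          x - (E.x₀ - (s - E.s₀) * E.v) := by
        field_simp
      have hu1 : (x - (E.x₀ - (s - E.s₀) * E.v)) / E.r ≤ -1 := by
        rw [div_le_iff₀ hr]
        linarith
      have e1 := xi_low sh hu1
      have e2 := sh.τ_low _ hu1
      have e3 := sh.ΘR_low _ hu1
      have hb := bwdr h (sh := sh) (s := s) (u := (x - (E.x₀ - (s - E.s₀) * E.v)) / E.r)
        (by rw [e1, hru]; linarith)
      rw [ept4 h hs]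
      refine ⟨_, hb.trans ?_⟩
      rw [e1, e2, e3, hru]
      refine Prod.ext rfl (Prod.ext ?_ (Prod.ext ?_ (Prod.ext ?_ ?_))) <;> simp only <;> ring
  · rcases h.vert i with rfl | rfl | rfl | rfl
    · have hxi := abs_le.1 (xi_bd sh hu)
      rw [vpl h hs]
      exact ⟨_, bwdl h (by nlinarith only [hr, h8, hxi])⟩
    · have hxi := abs_le.1 (xi_bd sh hu)
      rw [vpr h hs]
      exact ⟨_, bwdr h (by nlinarith [hxi.1])⟩
    · have h6 := psi_bd sh hu
      have hu1 : (s - E.s₀) * E.v / E.r + sh.Psi u ≤ -1 := by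
        have : (s - E.s₀) * E.v / E.r < -8 := by
          rw [div_lt_iff₀ hr]
          linarith
        linarith
      have hU : (E.x₀ + E.r * u - E.x₀) / E.r = u := by field_simp; ring
      have hpt := pta h.pos (sh := sh) (x := E.x₀ + E.r * u) hu1
      have hst : (E.pt sh (-1) (-1) ((s - E.s₀) * E.v / E.r + sh.Psi u, E.x₀ + E.r * u)).1 = s := by
        rw [time, xi_low sh hu1, hU]
        field_simp
        ring
      rw [hst, hU] at hpt
      rw [vpa h hs]
      exact ⟨_, hpt⟩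
    · have h6 := psi_bd sh hu
      have hu1 : 1 ≤ -((s - E.s₀) * E.v / E.r) - sh.Psi u := by
        have : (s - E.s₀) * E.v / E.r < -8 := by
          rw [div_lt_iff₀ hr]
          linarith
        linarith
      have hU : (E.x₀ + E.r * u - E.x₀) / E.r = u := by field_simp; ring
      have hpt := ptb h.pos (sh := sh) (x := E.x₀ + E.r * u) hu1
      have hst : (E.pt sh (-1) (-1) (-((s - E.s₀) * E.v / E.r) - sh.Psi u,
          E.x₀ + E.r * u)).1 = s := by
        rw [time, xi_high sh hu1, hU]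
        field_simp
        ring
      rw [hst, hU] at hpt
      rw [vpb h hs]
      exact ⟨_, hpt⟩

end DTA

set_option linter.unusedVariables false in
/-- DTA: before the maximum. -/
theorem t_DTA (hVLN : Stmt_VLN) : Stmt_DTA := by
  intro sh c w lt rt pa pb H₁ H₂ H₃ H₄ E Q V h q hq
  constructor
  · rintro ⟨⟨u, x⟩, rfl⟩
    show (E.pt sh (-1) (-1) (u, x)).2 ∈ c.slice w (c.sp sh) (E.pt sh (-1) (-1) (u, x)).1
      (lin Q V E.s₀ (E.pt sh (-1) (-1) (u, x)).1)
      (deriv (lin Q V E.s₀) (E.pt sh (-1) (-1) (u, x)).1)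
    rw [DTA.deriv_lin]
    exact DTA.fwd h hq
  · intro hy
    have hy' : q.2 ∈ c.slice w (c.sp sh) q.1 (lin Q V E.s₀ q.1) (deriv (lin Q V E.s₀) q.1) := hy
    rw [DTA.deriv_lin] at hy'
    exact DTA.bwd h hq hy'

end LCA


end

section

/-!
# SEE: two edges during a linear motion and at the change of the velocities
-/

namespace LCA

open Set Filter
open scoped ContDiff Topology

namespace SEE

/-- An affine function that is positive at the ends of an interval is positive on it. -/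
theorem aff_pos {T s a b : ℝ} (hT : 0 < T) (h0 : 0 ≤ s) (h1 : s ≤ T) (ha : 0 < a)
    (hb : 0 < a + T * b) : 0 < a + s * b := by
  have h : 0 < T * (a + s * b) := by
    have e : T * (a + s * b) = (T - s) * a + s * (a + T * b) := by ring
    rw [e]
    rcases eq_or_lt_of_le h0 with h | h
    · subst h
      have : 0 < (T - 0) * a := by
        rw [sub_zero]
        exact mul_pos hT ha
      linarith
    · have h2 : 0 ≤ (T - s) * a := mul_nonneg (by linarith) ha.le
      have h3 : 0 < s * (a + T * b) := mul_pos h hb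
      linarith
  exact (mul_pos_iff_of_pos_left hT).1 h

/-- An affine function is at least the minimum of its values at the ends. -/
theorem min_le_aff {T s a b : ℝ} (h0 : 0 ≤ s) (h1 : s ≤ T) :
    min a (a + T * b) ≤ a + s * b := by
  rcases le_total 0 b with hb | hb
  · exact (min_le_left _ _).trans (by nlinarith [mul_nonneg h0 hb])
  · exact (min_le_right _ _).trans (by nlinarith [mul_nonneg (sub_nonneg.2 h1) (neg_nonneg.2 hb)])

/-- An affine function is at most the maximum of its values at the ends. -/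
theorem aff_le_max {T s a b : ℝ} (h0 : 0 ≤ s) (h1 : s ≤ T) :
    a + s * b ≤ max a (a + T * b) := by
  rcases le_total 0 b with hb | hb
  · exact le_trans (by nlinarith [mul_nonneg (sub_nonneg.2 h1) hb]) (le_max_right _ _)
  · exact le_trans (by nlinarith [mul_nonneg h0 (neg_nonneg.2 hb)]) (le_max_left _ _)

/-- An affine function that is positive at two points is positive between them. -/
theorem aff_pos' {lo hi x a b : ℝ} (h0 : lo ≤ x) (h1 : x ≤ hi) (ha : 0 < a * lo + b)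
    (hb : 0 < a * hi + b) : 0 < a * x + b := by
  rcases le_total 0 a with h | h
  · nlinarith [mul_le_mul_of_nonneg_left h0 h]
  · nlinarith [mul_le_mul_of_nonpos_left h1 h]

variable {m n : ℕ}

theorem dee_eq (c : Comb m n) (q v : St n) (e e' : Fin m) (x : ℝ) :
    c.Dee q v e e' x = (c.dpe q v e - c.dpe q v e') * x + (c.dae q v e - c.dae q v e') := by
  unfold Comb.Dee
  ring

theorem dpe_lin (c : Comb m n) (q v v' : St n) (e : Fin m) (l : ℝ) :
    c.dpe q ((1 - l) • v + l • v') e = (1 - l) * c.dpe q v e + l * c.dpe q v' e := by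
  unfold Comb.dpe
  simp only [Prod.fst_add, Prod.snd_add, Prod.smul_fst, Prod.smul_snd, Pi.add_apply,
    Pi.smul_apply, smul_eq_mul]
  ring

theorem dae_lin (c : Comb m n) (q v v' : St n) (e : Fin m) (l : ℝ) :
    c.dae q ((1 - l) • v + l • v') e = (1 - l) * c.dae q v e + l * c.dae q v' e := by
  unfold Comb.dae
  rw [dpe_lin]
  simp only [Prod.fst_add, Prod.snd_add, Prod.smul_fst, Prod.smul_snd, Pi.add_apply,
    Pi.smul_apply, smul_eq_mul]
  ring

theorem dee_lin (c : Comb m n) (q v v' : St n) (e e' : Fin m) (l x : ℝ) :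
    c.Dee q ((1 - l) • v + l • v') e e' x =
      (1 - l) * c.Dee q v e e' x + l * c.Dee q v' e e' x := by
  unfold Comb.Dee
  rw [dpe_lin, dae_lin, dpe_lin, dae_lin]
  ring

theorem comb_pos {l a b : ℝ} (h0 : 0 ≤ l) (h1 : l ≤ 1) (ha : 0 < a) (hb : 0 < b) :
    0 < (1 - l) * a + l * b := by
  rcases eq_or_lt_of_le h0 with h | h
  · subst h
    simpa using ha
  · have h2 : 0 ≤ (1 - l) * a := mul_nonneg (by linarith) ha.le
    have h3 : 0 < l * b := mul_pos h hb
    linarith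

theorem fst_at (Q V : St n) (s : ℝ) (i : Fin n) : (Q + s • V).1 i = Q.1 i + s * V.1 i := by
  simp [Prod.fst_add, Prod.smul_fst]

/-- The main case: separation by the values of `z` during the motion. -/
theorem z_at (hLNP : Stmt_LNP) (c : Comb m n) (w : Fin n → ℝ) (T : ℝ) (Q Q' V' : St n)
    (e e' : Fin m) (hw : ∀ i, 0 < w i) (hL : c.Lin T Q Q' V') (σ : ℝ)
    (h1 : 0 < σ * c.Dee Q' V' e e' (max (min (Q.1 (c.lf e)) (Q'.1 (c.lf e)))
      (min (Q.1 (c.lf e')) (Q'.1 (c.lf e')))))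
    (h2 : 0 < σ * c.Dee Q' V' e e' (min (max (Q.1 (c.rt e)) (Q'.1 (c.rt e)))
      (max (Q.1 (c.rt e')) (Q'.1 (c.rt e'))))) (s : ℝ) (hs : s ∈ Icc (0 : ℝ) T) :
    c.See w (Q + s • V') e e' ∨ c.Zee (Q + s • V') V' e e' σ := by
  have hT := hL.pos
  have hmv := hL.move
  have hlen := hL.len
  have hlen' := hL.len'
  obtain ⟨hs0, hs1⟩ := hs
  have hQ' : ∀ i, Q'.1 i = Q.1 i + T * V'.1 i := by
    intro i
    rw [hmv]
    exact fst_at Q V' T i
  have hlens : ∀ d, (Q + s • V').1 (c.lf d) < (Q + s • V').1 (c.rt d) := by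
    intro d
    rw [fst_at, fst_at]
    have a1 := hlen d
    have a2 := hlen' d
    rw [hQ', hQ'] at a2
    have := aff_pos (a := Q.1 (c.rt d) - Q.1 (c.lf d)) (b := V'.1 (c.rt d) - V'.1 (c.lf d))
      hT hs0 hs1 (by linarith) (by linarith)
    linarith
  by_cases hlr : max ((Q + s • V').1 (c.lf e)) ((Q + s • V').1 (c.lf e')) <
      min ((Q + s • V').1 (c.rt e)) ((Q + s • V').1 (c.rt e'))
  · right
    have hlo : max (min (Q.1 (c.lf e)) (Q'.1 (c.lf e))) (min (Q.1 (c.lf e')) (Q'.1 (c.lf e'))) ≤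
        max ((Q + s • V').1 (c.lf e)) ((Q + s • V').1 (c.lf e')) := by
      apply max_le_max
      · rw [fst_at, hQ']
        exact min_le_aff hs0 hs1
      · rw [fst_at, hQ']
        exact min_le_aff hs0 hs1
    have hhi : min ((Q + s • V').1 (c.rt e)) ((Q + s • V').1 (c.rt e')) ≤
        min (max (Q.1 (c.rt e)) (Q'.1 (c.rt e))) (max (Q.1 (c.rt e')) (Q'.1 (c.rt e'))) := by
      apply min_le_min
      · rw [fst_at, hQ']
        exact aff_le_max hs0 hs1
      · rw [fst_at, hQ']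
        exact aff_le_max hs0 hs1
    obtain ⟨-, d1, d2⟩ := hLNP c T Q Q' V' hL e s (hlens e)
    obtain ⟨-, d3, d4⟩ := hLNP c T Q Q' V' hL e' s (hlens e')
    rw [dee_eq] at h1 h2
    have key : ∀ x, max ((Q + s • V').1 (c.lf e)) ((Q + s • V').1 (c.lf e')) ≤ x →
        x ≤ min ((Q + s • V').1 (c.rt e)) ((Q + s • V').1 (c.rt e')) →
        0 < σ * c.Dee (Q + s • V') V' e e' x := by
      intro x hx1 hx2
      rw [dee_eq, d1, d2, d3, d4]
      have h := aff_pos' (lo := max (min (Q.1 (c.lf e)) (Q'.1 (c.lf e)))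
        (min (Q.1 (c.lf e')) (Q'.1 (c.lf e'))))
        (hi := min (max (Q.1 (c.rt e)) (Q'.1 (c.rt e))) (max (Q.1 (c.rt e')) (Q'.1 (c.rt e'))))
        (x := x) (a := σ * (c.dpe Q' V' e - c.dpe Q' V' e'))
        (b := σ * (c.dae Q' V' e - c.dae Q' V' e')) (hlo.trans hx1) (hx2.trans hhi)
        (by linarith) (by linarith)
      linarith
    exact ⟨key _ le_rfl hlr.le, key _ hlr.le le_rfl⟩
  · left
    rw [not_lt, min_le_iff, le_max_iff, le_max_iff] at hlr
    unfold Comb.See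
    have w1 := hw (c.rt e)
    have w2 := hw (c.rt e')
    have w3 := hw (c.lf e)
    have w4 := hw (c.lf e')
    have l1 := hlens e
    have l2 := hlens e'
    rcases hlr with (h | h) | (h | h)
    · linarith
    · left
      linarith
    · right; left
      linarith
    · linarith

end SEE

theorem t_SEE (hLNP : Stmt_LNP) : Stmt_SEE := by
  intro m n c w T Q V Q' V' e e' hw hL hne h
  have hT := hL.pos
  have hQ' : ∀ i, Q'.1 i = Q.1 i + T * V'.1 i := by
    intro i
    rw [hL.move]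
    exact SEE.fst_at Q V' T i
  have hzero : Q + (0 : ℝ) • V' = Q := by simp
  have hlens : ∀ s ∈ Icc (0 : ℝ) T, ∀ d,
      (Q + s • V').1 (c.lf d) < (Q + s • V').1 (c.rt d) := by
    intro s hs d
    rw [SEE.fst_at, SEE.fst_at]
    have a1 := hL.len d
    have a2 := hL.len' d
    rw [hQ', hQ'] at a2
    have := SEE.aff_pos (a := Q.1 (c.rt d) - Q.1 (c.lf d)) (b := V'.1 (c.rt d) - V'.1 (c.lf d))
      hT hs.1 hs.2 (by linarith) (by linarith)
    linarith
  have hpe : ∀ s ∈ Icc (0 : ℝ) T, ∀ d, c.pe (Q + s • V') d = c.pe Q d + s * c.dpe Q' V' d := by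
    intro s hs d
    have b1 := (hLNP c T Q Q' V' hL d s (hlens s hs d)).1
    have b2 := (hLNP c T Q Q' V' hL d 0 (hlens 0 ⟨le_rfl, hT.le⟩ d)).1
    rw [hzero] at b2
    rw [b1, b2]
    ring
  have hpe' : ∀ d, c.pe Q' d = c.pe Q d + T * c.dpe Q' V' d := by
    intro d
    rw [← hpe T ⟨hT.le, le_rfl⟩ d, hL.move]
  rcases h with ⟨h1, h2⟩ | ⟨h1, h2⟩ | ⟨h1, h2⟩ | ⟨h1, h2⟩ | ⟨σ, hσ, h1, h2, h3⟩
  · refine ⟨fun s hs => Or.inl (Or.inl ?_), fun l _ => Or.inl (Or.inl h1)⟩
    rw [SEE.fst_at, SEE.fst_at]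
    rw [hQ', hQ'] at h2
    have := SEE.aff_pos (a := Q.1 (c.lf e') + 2 * w (c.lf e') - (Q.1 (c.rt e) - 2 * w (c.rt e)))
      (b := V'.1 (c.lf e') - V'.1 (c.rt e)) hT hs.1 hs.2 (by linarith) (by linarith)
    linarith
  · refine ⟨fun s hs => Or.inl (Or.inr (Or.inl ?_)), fun l _ => Or.inl (Or.inr (Or.inl h1))⟩
    rw [SEE.fst_at, SEE.fst_at]
    rw [hQ', hQ'] at h2
    have := SEE.aff_pos (a := Q.1 (c.lf e) + 2 * w (c.lf e) - (Q.1 (c.rt e') - 2 * w (c.rt e')))
      (b := V'.1 (c.lf e) - V'.1 (c.rt e')) hT hs.1 hs.2 (by linarith) (by linarith)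
    linarith
  · refine ⟨fun s hs => Or.inl (Or.inr (Or.inr ?_)), fun l _ => Or.inl (Or.inr (Or.inr h1.ne))⟩
    rw [hpe s hs, hpe s hs]
    rw [hpe', hpe'] at h2
    have := SEE.aff_pos (a := c.pe Q e' - c.pe Q e) (b := c.dpe Q' V' e' - c.dpe Q' V' e)
      hT hs.1 hs.2 (by linarith) (by linarith)
    exact ne_of_lt (by linarith)
  · refine ⟨fun s hs => Or.inl (Or.inr (Or.inr ?_)), fun l _ => Or.inl (Or.inr (Or.inr h1.ne'))⟩
    rw [hpe s hs, hpe s hs]
    rw [hpe', hpe'] at h2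
    have := SEE.aff_pos (a := c.pe Q e - c.pe Q e') (b := c.dpe Q' V' e - c.dpe Q' V' e')
      hT hs.1 hs.2 (by linarith) (by linarith)
    exact ne_of_gt (by linarith)
  · have hz := SEE.z_at hLNP c w T Q Q' V' e e' hw hL σ h1 h2
    refine ⟨fun s hs => ?_, fun l hl => ?_⟩
    · rcases hz s hs with h | h
      · exact Or.inl h
      · exact Or.inr ⟨σ, hσ, h⟩
    · rcases h3 with h | h
      · exact Or.inl h
      · have h4 := hz 0 ⟨le_rfl, hT.le⟩
        rw [hzero] at h4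
        rcases h4 with h4 | h4
        · exact Or.inl h4
        · right
          refine ⟨σ, hσ, ?_, ?_⟩
          · rw [SEE.dee_lin]
            have := SEE.comb_pos hl.1 hl.2 h.1 h4.1
            linarith
          · rw [SEE.dee_lin]
            have := SEE.comb_pos hl.1 hl.2 h.2 h4.2
            linarith

end LCA


end

section

/-!
# CBL: the basic functions of the checker
-/

namespace LCA

open Set Filter
open scoped ContDiff Topology

namespace CBL

theorem bnd_iff (a b : Bool) : bnd a b = true ↔ a = true ∧ b = true := by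
  cases a <;> cases b <;> simp [bnd]

theorem bor_iff (a b : Bool) : bor a b = true ↔ a = true ∨ b = true := by
  cases a <;> cases b <;> simp [bor]

theorem ilt_iff (a b : ℤ) : ilt a b = true ↔ a < b := by
  cases a with
  | ofNat i =>
    cases b with
    | ofNat j =>
      change Nat.ble (Nat.succ i) j = true ↔ _
      rw [Nat.ble_eq]
      simp only [Int.ofNat_eq_natCast]
      omega
    | negSucc j =>
      change false = true ↔ _
      simp only [Bool.false_eq_true, false_iff, Int.ofNat_eq_natCast]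
      omega
  | negSucc i =>
    cases b with
    | ofNat j =>
      change true = true ↔ _
      simp only [Int.ofNat_eq_natCast, true_iff]
      omega
    | negSucc j =>
      change Nat.ble (Nat.succ j) i = true ↔ _
      rw [Nat.ble_eq]
      omega

theorem ieq_iff (a b : ℤ) : ieq a b = true ↔ a = b := by
  cases a with
  | ofNat i =>
    cases b with
    | ofNat j =>
      change Nat.beq i j = true ↔ _
      rw [Nat.beq_eq]
      simp only [Int.ofNat_eq_natCast]
      omega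
    | negSucc j =>
      change false = true ↔ _
      simp only [Bool.false_eq_true, false_iff, Int.ofNat_eq_natCast]
      omega
  | negSucc i =>
    cases b with
    | ofNat j =>
      change false = true ↔ _
      simp only [Bool.false_eq_true, false_iff, Int.ofNat_eq_natCast]
      omega
    | negSucc j =>
      change Nat.beq i j = true ↔ _
      rw [Nat.beq_eq]
      omega

theorem imax_eq (a b : ℤ) : imax a b = max a b := by
  unfold imax
  cases h : ilt a b with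
  | false =>
    change a = _
    have h1 : ¬ a < b := fun hc => by
      rw [← ilt_iff, h] at hc
      exact Bool.false_ne_true hc
    exact (max_eq_left (not_lt.mp h1)).symm
  | true =>
    change b = _
    exact (max_eq_right ((ilt_iff a b).mp h).le).symm

theorem imin_eq (a b : ℤ) : imin a b = min a b := by
  unfold imin
  cases h : ilt a b with
  | false =>
    change b = _
    have h1 : ¬ a < b := fun hc => by
      rw [← ilt_iff, h] at hc
      exact Bool.false_ne_true hc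
    exact (min_eq_right (not_lt.mp h1)).symm
  | true =>
    change a = _
    exact (min_eq_left ((ilt_iff a b).mp h).le).symm

theorem iabs_eq (a : ℤ) : iabs a = |a| := by
  cases a with
  | ofNat i =>
    change Int.ofNat i = _
    exact (abs_of_nonneg (Int.natCast_nonneg i)).symm
  | negSucc i =>
    change Int.ofNat (Nat.succ i) = _
    rw [abs_of_neg (Int.negSucc_lt_zero i), Int.neg_negSucc]
    rfl

theorem lkp_zero {α : Type} (d a : α) (t : List α) : lkp d (a :: t) 0 = a := rfl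

theorem lkp_succ {α : Type} (d a : α) (t : List α) (i : ℕ) :
    lkp d (a :: t) (i + 1) = lkp d t i := rfl

theorem len_cons {α : Type} (a : α) (t : List α) : len (a :: t) = len t + 1 := rfl

theorem allL_iff {α : Type} (d : α) (p : α → Bool) (l : List α) :
    allL p l = true ↔ ∀ i < len l, p (lkp d l i) = true := by
  induction l with
  | nil =>
    constructor
    · intro _ i hi
      exact absurd hi (Nat.not_lt_zero i)
    · intro _
      rfl
  | cons a t ih =>
    change bnd (p a) (allL p t) = true ↔ _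
    rw [bnd_iff, ih]
    constructor
    · rintro ⟨h1, h2⟩ i hi
      cases i with
      | zero => exact h1
      | succ i => exact h2 i (Nat.lt_of_succ_lt_succ hi)
    · intro h
      exact ⟨h 0 (Nat.succ_pos _), fun i hi => h (i + 1) (Nat.succ_lt_succ hi)⟩

theorem allI_iff {α : Type} (d : α) (p : ℕ → α → Bool) (l : List α) : ∀ k : ℕ,
    allI p l k = true ↔ ∀ i < len l, p (k + i) (lkp d l i) = true := by
  induction l with
  | nil =>
    intro k
    constructor
    · intro _ i hi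
      exact absurd hi (Nat.not_lt_zero i)
    · intro _
      rfl
  | cons a t ih =>
    intro k
    change bnd (p k a) (allI p t (k + 1)) = true ↔ _
    rw [bnd_iff, ih]
    constructor
    · rintro ⟨h1, h2⟩ i hi
      cases i with
      | zero => exact h1
      | succ i =>
        have h3 := h2 i (Nat.lt_of_succ_lt_succ hi)
        rw [show k + 1 + i = k + (i + 1) by omega] at h3
        exact h3
    · intro h
      refine ⟨h 0 (Nat.succ_pos _), fun i hi => ?_⟩
      rw [show k + 1 + i = k + (i + 1) by omega]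
      exact h (i + 1) (Nat.succ_lt_succ hi)

theorem all2_iff {α β : Type} (d : α) (d' : β) (p : α → β → Bool) (l : List α) :
    ∀ l' : List β, all2 p l l' = true ↔
      ∀ i < len l, i < len l' → p (lkp d l i) (lkp d' l' i) = true := by
  induction l with
  | nil =>
    intro l'
    constructor
    · intro _ i hi
      exact absurd hi (Nat.not_lt_zero i)
    · intro _
      rfl
  | cons a t ih =>
    intro l'
    cases l' with
    | nil =>
      constructor
      · intro _ i _ hi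
        exact absurd hi (Nat.not_lt_zero i)
      · intro _
        rfl
    | cons b t' =>
      change bnd (p a b) (all2 p t t') = true ↔ _
      rw [bnd_iff, ih]
      constructor
      · rintro ⟨h1, h2⟩ i hi hi'
        cases i with
        | zero => exact h1
        | succ i => exact h2 i (Nat.lt_of_succ_lt_succ hi) (Nat.lt_of_succ_lt_succ hi')
      · intro h
        exact ⟨h 0 (Nat.succ_pos _) (Nat.succ_pos _),
          fun i hi hi' => h (i + 1) (Nat.succ_lt_succ hi) (Nat.succ_lt_succ hi')⟩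

theorem all2I_iff {α β : Type} (d : α) (d' : β) (p : ℕ → α → β → Bool) (l : List α) :
    ∀ (l' : List β) (k : ℕ), all2I p l l' k = true ↔
      ∀ i < len l, i < len l' → p (k + i) (lkp d l i) (lkp d' l' i) = true := by
  induction l with
  | nil =>
    intro l' k
    constructor
    · intro _ i hi
      exact absurd hi (Nat.not_lt_zero i)
    · intro _
      rfl
  | cons a t ih =>
    intro l' k
    cases l' with
    | nil =>
      constructor
      · intro _ i _ hi
        exact absurd hi (Nat.not_lt_zero i)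
      · intro _
        rfl
    | cons b t' =>
      change bnd (p k a b) (all2I p t t' (k + 1)) = true ↔ _
      rw [bnd_iff, ih]
      constructor
      · rintro ⟨h1, h2⟩ i hi hi'
        cases i with
        | zero => exact h1
        | succ i =>
          have h3 := h2 i (Nat.lt_of_succ_lt_succ hi) (Nat.lt_of_succ_lt_succ hi')
          rw [show k + 1 + i = k + (i + 1) by omega] at h3
          exact h3
      · intro h
        refine ⟨h 0 (Nat.succ_pos _) (Nat.succ_pos _), fun i hi hi' => ?_⟩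
        rw [show k + 1 + i = k + (i + 1) by omega]
        exact h (i + 1) (Nat.succ_lt_succ hi) (Nat.succ_lt_succ hi')

theorem prs2_iff {α β : Type} (d : α) (d' : β) (p : α → β → α → β → Bool) (l : List α) :
    ∀ l' : List β, prs2 p l l' = true ↔ ∀ i j, i < j → j < len l → j < len l' →
      p (lkp d l i) (lkp d' l' i) (lkp d l j) (lkp d' l' j) = true := by
  induction l with
  | nil =>
    intro l'
    constructor
    · intro _ i j _ hj
      exact absurd hj (Nat.not_lt_zero j)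
    · intro _
      rfl
  | cons a t ih =>
    intro l'
    cases l' with
    | nil =>
      constructor
      · intro _ i j _ _ hj
        exact absurd hj (Nat.not_lt_zero j)
      · intro _
        rfl
    | cons b t' =>
      change bnd (all2 (p a b) t t') (prs2 p t t') = true ↔ _
      rw [bnd_iff, ih, all2_iff d d']
      constructor
      · rintro ⟨h1, h2⟩ i j hij hj hj'
        cases j with
        | zero => exact absurd hij (Nat.not_lt_zero i)
        | succ j =>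
          cases i with
          | zero => exact h1 j (Nat.lt_of_succ_lt_succ hj) (Nat.lt_of_succ_lt_succ hj')
          | succ i =>
            exact h2 i j (Nat.lt_of_succ_lt_succ hij) (Nat.lt_of_succ_lt_succ hj)
              (Nat.lt_of_succ_lt_succ hj')
      · intro h
        exact ⟨fun i hi hi' => h 0 (i + 1) (Nat.succ_pos _) (Nat.succ_lt_succ hi)
            (Nat.succ_lt_succ hi'),
          fun i j hij hj hj' => h (i + 1) (j + 1) (Nat.succ_lt_succ hij) (Nat.succ_lt_succ hj)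
            (Nat.succ_lt_succ hj')⟩

end CBL

theorem t_CBL : Stmt_CBL := by
  refine ⟨CBL.bnd_iff, CBL.bor_iff, CBL.ilt_iff, CBL.ieq_iff, CBL.imax_eq, CBL.imin_eq,
    CBL.iabs_eq, fun α d p l => CBL.allL_iff d p l, fun α d p l => ?_,
    fun α β d d' p l l' => CBL.all2_iff d d' p l l', fun α β d d' p l l' => ?_,
    fun α β d d' p l l' => CBL.prs2_iff d d' p l l'⟩
  · rw [CBL.allI_iff d p l 0]
    simp only [Nat.zero_add]
  · rw [CBL.all2I_iff d d' p l l' 0]
    simp only [Nat.zero_add]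

end LCA


end

section

/-!
# SDR: a checked saddle
-/

namespace LCA

open Set Filter
open scoped ContDiff Topology

namespace SDR

theorem val_of {n k : ℕ} (h : k < n + 1) : ((Fin.ofNat (n + 1) k : Fin (n + 1)) : ℕ) = k := by
  simp [Fin.ofNat, Nat.mod_eq_of_lt h]

theorem ne_val {n a : ℕ} {i : Fin (n + 1)} (ha : a < n + 1) (h : i ≠ Fin.ofNat (n + 1) a) :
    (i : ℕ) ≠ a := fun e => h (Fin.ext (by rw [val_of ha]; exact e))

/-- An affine function which is smaller than `c` at the two ends of the interval. -/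
theorem aff_lt {a b c t : ℝ} (h0 : a < c) (h1 : a + 4 * b < c) (ht : t ∈ Icc (-2 : ℝ) 2) :
    a + 2 * b + t * b < c := by
  obtain ⟨h2, h3⟩ := ht
  rcases le_total 0 b with h | h
  · nlinarith
  · nlinarith

/-- An affine function which is larger than `c` at the two ends of the interval. -/
theorem aff_gt {a b c t : ℝ} (h0 : c < a) (h1 : c < a + 4 * b) (ht : t ∈ Icc (-2 : ℝ) 2) :
    c < a + 2 * b + t * b := by
  obtain ⟨h2, h3⟩ := ht
  rcases le_total 0 b with h | h
  · nlinarith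
  · nlinarith

theorem Q1 {n : ℕ} (S : SD) {k : ℕ} (h : k < n + 1) :
    (S.Q n).1 (Fin.ofNat (n + 1) k) = ((S.v k).x : ℝ) := by
  change ((S.v ((Fin.ofNat (n + 1) k : Fin (n + 1)) : ℕ)).x : ℝ) = _
  rw [val_of h]

theorem Q2 {n : ℕ} (S : SD) {k : ℕ} (h : k < n + 1) :
    (S.Q n).2 (Fin.ofNat (n + 1) k) = ((S.v k).F : ℝ) := by
  change ((S.v ((Fin.ofNat (n + 1) k : Fin (n + 1)) : ℕ)).F : ℝ) = _
  rw [val_of h]

theorem V1 {n : ℕ} (S : SD) {k : ℕ} (h : k < n + 1) :
    (S.V n).1 (Fin.ofNat (n + 1) k) = ((S.v k).dx : ℝ) := by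
  change ((S.v ((Fin.ofNat (n + 1) k : Fin (n + 1)) : ℕ)).dx : ℝ) = _
  rw [val_of h]

theorem V2 {n : ℕ} (S : SD) {k : ℕ} (h : k < n + 1) :
    (S.V n).2 (Fin.ofNat (n + 1) k) = ((S.v k).dF : ℝ) := by
  change ((S.v ((Fin.ofNat (n + 1) k : Fin (n + 1)) : ℕ)).dF : ℝ) = _
  rw [val_of h]

theorem Wv {n : ℕ} (S : SD) {k : ℕ} (h : k < n + 1) :
    S.W n (Fin.ofNat (n + 1) k) = ((S.v k).w : ℝ) := by
  change ((S.v ((Fin.ofNat (n + 1) k : Fin (n + 1)) : ℕ)).w : ℝ) = _
  rw [val_of h]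

theorem ia (a b : ℤ) : Int.add a b = a + b := rfl

theorem im (a b : ℤ) : Int.mul a b = a * b := rfl

theorem is (a b : ℤ) : Int.sub a b = a - b := rfl

theorem ine (a : ℤ) : Int.neg a = -a := rfl

/-- The real numbers which belong to the data of a critical point. -/
theorem ev_ζ (E : ED) (s₀ : ℝ) : (E.ev s₀).ζ = (E.h : ℝ) * E.v := by
  change (2 * (E.h : ℝ)) * (E.v : ℝ) / 2 = _
  ring

theorem ev_g (E : ED) (s₀ : ℝ) : (E.ev s₀).g / 2 = (E.h : ℝ) := by
  change (2 * (E.h : ℝ)) / 2 = _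
  ring

theorem cast_ζ (E : ED) : ((E.ζ : ℤ) : ℝ) = (E.h : ℝ) * E.v := by
  change ((E.h * E.v : ℤ) : ℝ) = _
  push_cast
  ring

theorem cast_ρ (E : ED) : ((E.ρ : ℤ) : ℝ) = (E.v : ℝ) * 2 + 4 * E.r := by
  change ((2 * E.v + 4 * E.r : ℤ) : ℝ) = _
  push_cast
  ring

/-- The slope of an edge whose slope is constant. -/
theorem slope (hLNP : Stmt_LNP) {m n : ℕ} (c : Comb m n) (T : ℝ) (Q Q' V : St n)
    (hlin : c.Lin T Q Q' V) (e : Fin m) (hd : c.dpe Q V e = 0) (s : ℝ)
    (hs : (Q + s • V).1 (c.lf e) < (Q + s • V).1 (c.rt e)) :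
    c.pe (Q + s • V) e = c.pe Q e ∧ c.dpe (Q + s • V) V e = 0 := by
  have h0 := hLNP c T Q Q' V hlin e 0 (by rw [zero_smul, add_zero]; exact hlin.len e)
  rw [zero_smul, add_zero] at h0
  have h1 := hLNP c T Q Q' V hlin e s hs
  have h2 : c.dpe Q' V e = 0 := by rw [← h0.2.1, hd]
  refine ⟨?_, ?_⟩
  · rw [h1.1, h0.1, h2]
    ring
  · rw [h1.2.1, h2]

end SDR

open _root_.LCA.SDR in
theorem t_SDR (hSDC : Stmt_SDC) (hBXL : Stmt_BXL) (hBXI : Stmt_BXI) (hMVR : Stmt_MVR)
    (hSTF : Stmt_STF) (hSVL : Stmt_SVL) (hGOK : Stmt_GOK) (hGOC : Stmt_GOC) (hLNP : Stmt_LNP)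
    (hCBL : Stmt_CBL) (hCB2 : Stmt_CB2) : Stmt_SDR := by
  obtain ⟨hb, ho, hl, he, -, -, hia, -, -, -, ha2, -⟩ := hCBL
  obtain ⟨hnl, hnn, -, -, -⟩ := hCB2
  intro m n L R H₁ H₂ H₃ H₄ E A B C C' s₀ okA okB okC okC' h
  have fA := hSTF m n A okA
  have fB := hSTF m n B okB
  have fC := hSTF m n C okC
  have fC' := hSTF m n C' okC'
  have vC := hSVL m n C fC
  have vC' := hSVL m n C' fC'
  have hcomb := hSDC m n L R H₁ H₂ H₃ H₄ E A B C C' fA fC h
  simp only [sdOK, hb, hnl, hnn] at h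
  obtain ⟨hE, hL, hR, hLR, h1, h2, h3, h4, -, -, -, -, -, -, hmv4, hmv3, hgo, hV, -, hT, hP,
    hl1, hl2, hbe, hbv⟩ := h
  simp only [ED.ok, hb, hl, hia, im, is] at hE
  obtain ⟨eh, ev, er, erv, eP⟩ := hE
  simp only [sdT, hb, he, Nat.beq_eq, ia, im, is, ine] at hT
  obtain ⟨-, -, -, -, -, -, tLx, tRx, tLF, tRF⟩ := hT
  simp only [sdP, hb, he, Nat.beq_eq, ia, im, is] at hP
  obtain ⟨-, -, -, -, -, -, wL, wR, xL, xR, dxL, dxR, dFL, dFR, FL, FR, p1, p3, p2, p4, d1, d2, d3,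
    d4⟩ := hP
  simp only [sdL, hb, hl, ia, is] at hl1 hl2
  obtain ⟨q1, q3, q2, q4⟩ := hl1
  obtain ⟨q1', q3', q2', q4'⟩ := hl2
  -- the vertices
  have hv : ∀ i : Fin (n + 1), (A.v i).w = (C.v i).w ∧
      (A.v i).x + (A.v i).dx = (C.v i).x + 2 * (C.v i).dx ∧
      (A.v i).F + (A.v i).dF = (C.v i).F + 2 * (C.v i).dF ∧
      (i ≠ Fin.ofNat (n + 1) L → i ≠ Fin.ofNat (n + 1) R →
        (A.v i).dx = (C.v i).dx ∧ (A.v i).dF = (C.v i).dF) := by
    intro i
    have h5 := (ha2 _ _ vs0 vs0 (sdV L R) A.vs C.vs).mp hV i (by rw [fA.lenV]; exact i.isLt)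
      (by rw [fC.lenV]; exact i.isLt)
    simp only [sdV, hb, ho, he, Nat.beq_eq, ia, im] at h5
    obtain ⟨h6, h7, h8, h9⟩ := h5
    refine ⟨h6, h7, h8, fun hiL hiR => ?_⟩
    rcases h9 with h9 | h9 | ⟨-, -, -, h10, h11⟩
    · exact absurd h9 (ne_val hL hiL)
    · exact absurd h9 (ne_val hR hiR)
    · exact ⟨h10, h11⟩
  have hW : A.W n = C.W n := by
    funext i
    change ((A.v i).w : ℝ) = ((C.v i).w : ℝ)
    rw [(hv i).1]
  have hQ : A.Q n + A.V n = C.Q n + (2 : ℝ) • C.V n := by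
    refine Prod.ext ?_ ?_
    · funext i
      change ((A.v i).x : ℝ) + ((A.v i).dx : ℝ) = ((C.v i).x : ℝ) + 2 * ((C.v i).dx : ℝ)
      exact_mod_cast (hv i).2.1
    · funext i
      change ((A.v i).F : ℝ) + ((A.v i).dF : ℝ) = ((C.v i).F : ℝ) + 2 * ((C.v i).dF : ℝ)
      exact_mod_cast (hv i).2.2.1
  obtain ⟨cC, wC, VC, QC⟩ := (hMVR m n C C' fC fC').1 4 hmv4
  obtain ⟨cB, wB, VB, QB⟩ := (hMVR m n C B fC fB).1 3 hmv3
  obtain ⟨hGo, -, -⟩ := hGOK m n 4 C C' okC okC' hgo
  have hcert := (hGOC (C.cb m n) (C.W n) ((4 : ℤ) : ℝ) (C.Q n) (C.V n) (C'.Q n) (C'.V n) hGo).1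
  have hlin := hGo.lin
  rw [hQ, hW]
  -- real numbers
  have eh' : (0 : ℝ) < E.h := by exact_mod_cast eh
  have ev' : (0 : ℝ) < E.v := by exact_mod_cast ev
  have er' : (0 : ℝ) < E.r := by exact_mod_cast er
  have erv' : 8 * (E.r : ℝ) < E.v := by exact_mod_cast erv
  have eP' : |(E.P₂ : ℝ) - E.P₁| < 2 * E.h := by exact_mod_cast eP
  have hpos : (E.ev s₀).Pos := by
    refine ⟨?_, ev', er'⟩
    change 0 < 2 * (E.h : ℝ)
    linarith
  -- slopes
  have hmid : ∀ k : Fin (m + 1), (C.Q n + (2 : ℝ) • C.V n).1 ((C.cb m n).lf k) <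
      (C.Q n + (2 : ℝ) • C.V n).1 ((C.cb m n).rt k) := by
    intro k
    have a1 := hlin.len k
    have a2 := hlin.len' k
    rw [QC] at a2
    change (C.Q n).1 _ + ((4 : ℤ) : ℝ) * (C.V n).1 _ < (C.Q n).1 _ + ((4 : ℤ) : ℝ) * (C.V n).1 _ at a2
    change (C.Q n).1 _ + 2 * (C.V n).1 _ < (C.Q n).1 _ + 2 * (C.V n).1 _
    push_cast at a2
    linarith
  have hsl : ∀ k : Fin (m + 1), (C.e k).dp = 0 →
      (C.cb m n).pe (C.Q n + (2 : ℝ) • C.V n) k = ((C.e k).p : ℝ) ∧
      (C.cb m n).dpe (C.Q n + (2 : ℝ) • C.V n) (C.V n) k = 0 := by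
    intro k hk
    refine ⟨?_, ?_⟩
    · rw [(slope hLNP (C.cb m n) _ (C.Q n) (C'.Q n) (C.V n) (VC ▸ hlin) k
        (by rw [vC.dpe, hk, Int.cast_zero]) 2 (hmid k)).1, vC.pe]
    · exact (slope hLNP (C.cb m n) _ (C.Q n) (C'.Q n) (C.V n) (VC ▸ hlin) k
        (by rw [vC.dpe, hk, Int.cast_zero]) 2 (hmid k)).2
  have hsh : ∀ t : ℝ, C.Q n + (2 : ℝ) • C.V n + t • C.V n = C.Q n + (t + 2) • C.V n := by
    intro t
    rw [add_smul, add_assoc, add_comm ((2 : ℝ) • C.V n)]
  have hIcc : ∀ t ∈ Icc (-2 : ℝ) 2, t + 2 ∈ Icc (0 : ℝ) ((4 : ℤ) : ℝ) := by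
    intro t ht
    refine ⟨by linarith [ht.1], ?_⟩
    push_cast
    linarith [ht.2]
  have hρ : ((E.ρ : ℤ) : ℝ) = (E.ev s₀).v * 2 + 4 * (E.ev s₀).r := cast_ρ E
  have hlf : ∀ k : ℕ, k < m + 1 → (C.e k).il < E.x - E.ρ → (C'.e k).il < E.x - E.ρ →
      ∀ t ∈ Icc (-2 : ℝ) 2, (C.Q n + (2 : ℝ) • C.V n + t • C.V n).1
        ((C.cb m n).lf (Fin.ofNat (m + 1) k)) + 2 * C.W n ((C.cb m n).lf (Fin.ofNat (m + 1) k)) <
        (E.ev s₀).x₀ - ((E.ev s₀).v * 2 + 4 * (E.ev s₀).r) := by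
    intro k hk a1 a2 t ht
    have b1 := vC.il (Fin.ofNat (m + 1) k)
    have b2 := vC'.il (Fin.ofNat (m + 1) k)
    rw [val_of hk] at b1 b2
    rw [← cC, ← wC, QC] at b2
    have c1 : ((C.e k).il : ℝ) < (E.x : ℝ) - (E.ρ : ℤ) := by exact_mod_cast a1
    have c2 : ((C'.e k).il : ℝ) < (E.x : ℝ) - (E.ρ : ℤ) := by exact_mod_cast a2
    rw [hρ, ← b1] at c1
    rw [hρ, ← b2] at c2
    generalize (C.cb m n).lf (Fin.ofNat (m + 1) k) = i at c1 c2 ⊢
    change (C.Q n).1 i + 2 * (C.V n).1 i + t * (C.V n).1 i + 2 * C.W n i < _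
    change (C.Q n).1 i + ((4 : ℤ) : ℝ) * (C.V n).1 i + 2 * C.W n i < _ at c2
    push_cast at c2
    have c3 := aff_lt (a := (C.Q n).1 i + 2 * C.W n i) (b := (C.V n).1 i) c1 (by linarith) ht
    have c4 : (E.ev s₀).x₀ = (E.x : ℝ) := rfl
    linarith
  have hrt : ∀ k : ℕ, k < m + 1 → E.x + E.ρ < (C.e k).ir → E.x + E.ρ < (C'.e k).ir →
      ∀ t ∈ Icc (-2 : ℝ) 2, (E.ev s₀).x₀ + ((E.ev s₀).v * 2 + 4 * (E.ev s₀).r) <
        (C.Q n + (2 : ℝ) • C.V n + t • C.V n).1
        ((C.cb m n).rt (Fin.ofNat (m + 1) k)) -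
          2 * C.W n ((C.cb m n).rt (Fin.ofNat (m + 1) k)) := by
    intro k hk a1 a2 t ht
    have b1 := vC.ir (Fin.ofNat (m + 1) k)
    have b2 := vC'.ir (Fin.ofNat (m + 1) k)
    rw [val_of hk] at b1 b2
    rw [← cC, ← wC, QC] at b2
    have c1 : (E.x : ℝ) + (E.ρ : ℤ) < ((C.e k).ir : ℝ) := by exact_mod_cast a1
    have c2 : (E.x : ℝ) + (E.ρ : ℤ) < ((C'.e k).ir : ℝ) := by exact_mod_cast a2
    rw [hρ, ← b1] at c1
    rw [hρ, ← b2] at c2
    generalize (C.cb m n).rt (Fin.ofNat (m + 1) k) = i at c1 c2 ⊢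
    change _ < (C.Q n).1 i + 2 * (C.V n).1 i + t * (C.V n).1 i - 2 * C.W n i
    change _ < (C.Q n).1 i + ((4 : ℤ) : ℝ) * (C.V n).1 i - 2 * C.W n i at c2
    push_cast at c2
    have c3 := aff_gt (a := (C.Q n).1 i - 2 * C.W n i) (b := (C.V n).1 i) c1 (by linarith) ht
    have c4 : (E.ev s₀).x₀ = (E.x : ℝ) := rfl
    linarith
  refine ⟨?_, ?_, cB.symm, wB.symm, VB, ?_⟩
  · exact
      { comb := hcomb
        pos := hpos
        wpos := vC.wpos
        wL := by
          rw [Wv C hL, wL]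
          rfl
        wR := by
          rw [Wv C hR, wR]
          rfl
        xL := by
          change (C.Q n).1 _ + 2 * (C.V n).1 _ = (E.x : ℝ)
          rw [Q1 C hL, V1 C hL, xL, dxL, Int.cast_zero, mul_zero, add_zero]
        xR := by
          change (C.Q n).1 _ + 2 * (C.V n).1 _ = (E.x : ℝ)
          rw [Q1 C hR, V1 C hR, xR, dxR, Int.cast_zero, mul_zero, add_zero]
        FL := by
          change (C.Q n).2 _ + 2 * (C.V n).2 _ = (E.F : ℝ)
          rw [Q2 C hL, V2 C hL]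
          exact_mod_cast FL
        FR := by
          change (C.Q n).2 _ + 2 * (C.V n).2 _ = (E.F : ℝ)
          rw [Q2 C hR, V2 C hR]
          exact_mod_cast FR
        p1 := by
          rw [(hsl _ (by rw [val_of h1]; exact d1)).1, val_of h1, p1, ev_g, Int.cast_add]
          rfl
        p3 := by
          rw [(hsl _ (by rw [val_of h3]; exact d3)).1, val_of h3, p3, ev_g, Int.cast_sub]
          rfl
        p2 := by
          rw [(hsl _ (by rw [val_of h2]; exact d2)).1, val_of h2, p2, ev_g, Int.cast_add]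
          rfl
        p4 := by
          rw [(hsl _ (by rw [val_of h4]; exact d4)).1, val_of h4, p4, ev_g, Int.cast_sub]
          rfl
        ovl := by
          change |(E.P₂ : ℝ) - E.P₁| < 2 * E.h
          exact eP'
        d1 := (hsl _ (by rw [val_of h1]; exact d1)).2
        d2 := (hsl _ (by rw [val_of h2]; exact d2)).2
        d3 := (hsl _ (by rw [val_of h3]; exact d3)).2
        d4 := (hsl _ (by rw [val_of h4]; exact d4)).2
        xL' := by
          rw [V1 C hL, dxL, Int.cast_zero]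
        xR' := by
          rw [V1 C hR, dxR, Int.cast_zero]
        FL' := by
          rw [V2 C hL, dFL, ev_ζ, Int.cast_sub, cast_ζ]
          rfl
        FR' := by
          rw [V2 C hR, dFR, ev_ζ, Int.cast_add, cast_ζ]
          rfl
        vxL := by
          rw [V1 A hL, tLx]
          rfl
        vxR := by
          rw [V1 A hR, tRx, Int.cast_neg]
          rfl
        vFL := by
          rw [V2 A hL, tLF, ev_ζ, ev_g]
          push_cast
          rw [cast_ζ]
          rfl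
        vFR := by
          rw [V2 A hR, tRF, ev_ζ, ev_g]
          push_cast
          rw [cast_ζ]
          rfl
        vx := by
          intro i hi1 hi2
          change ((A.v i).dx : ℝ) = ((C.v i).dx : ℝ)
          rw [((hv i).2.2.2 hi1 hi2).1]
        vF := by
          intro i hi1 hi2
          change ((A.v i).dF : ℝ) = ((C.v i).dF : ℝ)
          rw [((hv i).2.2.2 hi1 hi2).2]
        small := by
          change 16 * (E.r : ℝ) < (E.v : ℝ) * 2
          linarith
        len1 := hlf _ h1 q1 q1'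
        len3 := hlf _ h3 q3 q3'
        len2 := hrt _ h2 q2 q2'
        len4 := hrt _ h4 q4 q4'
        cert := by
          intro t ht
          have a1 := hcert (t + 2) (hIcc t ht)
          rw [VC] at a1
          rw [hsh]
          exact a1
        boxe := by
          intro t ht e e1 e2 e3 e4
          have a1 := (ha2 _ _ es0 es0 _ C.es C'.es).mp hbe e (by rw [fC.lenE]; exact e.isLt)
            (by rw [fC'.lenE]; exact e.isLt)
          simp only [ho, Nat.beq_eq] at a1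
          have a2 : bxE E (C.e e) (C'.e e) = true := by
            rcases a1 with a1 | a1 | a1 | a1 | a1
            · exact absurd a1 (ne_val h1 e1)
            · exact absurd a1 (ne_val h2 e2)
            · exact absurd a1 (ne_val h3 e3)
            · exact absurd a1 (ne_val h4 e4)
            · exact a1
          have a3 := (hBXI m n E s₀ C C' vC vC' cC wC).1 e a2
          have a4 := (hBXL (C.cb m n) (C.W n) ((4 : ℤ) : ℝ) (E.ev s₀) ((E.ρ : ℤ) : ℝ) (C.Q n)
            (C'.Q n) (C'.V n) vC.wpos vC.valid hlin hpos).1 e a3 (t + 2) (hIcc t ht)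
          rw [VC, hρ] at a4
          rw [hsh]
          exact a4
        boxv := by
          intro t ht i i1 i2
          have a1 := (ha2 _ _ vs0 vs0 _ C.vs C'.vs).mp hbv i (by rw [fC.lenV]; exact i.isLt)
            (by rw [fC'.lenV]; exact i.isLt)
          simp only [ho, Nat.beq_eq] at a1
          have a2 : bxV E (C.v i) (C'.v i) = true := by
            rcases a1 with a1 | a1 | a1
            · exact absurd a1 (ne_val hL i1)
            · exact absurd a1 (ne_val hR i2)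
            · exact a1
          have a3 := (hBXI m n E s₀ C C' vC vC' cC wC).2 i a2
          have a4 := (hBXL (C.cb m n) (C.W n) ((4 : ℤ) : ℝ) (E.ev s₀) ((E.ρ : ℤ) : ℝ) (C.Q n)
            (C'.Q n) (C'.V n) vC.wpos vC.valid hlin hpos).2 i a3 (t + 2) (hIcc t ht)
          rw [VC, hρ] at a4
          rw [hsh]
          exact a4 }
  · rw [div_lt_one ev']
    exact erv'
  · have h9 : ((3 : ℤ) : ℝ) = 2 + 1 := by norm_num
    rw [QB, h9, add_smul, one_smul, add_assoc]

end LCA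


end
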