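import Mathlib
import Pool.Agent.NDM.C01
import Pool.Agent.NDM.C02
import Pool.Agent.NDM.C03

/-! Parts: LG.SB1, LG.SB2, LG.WR, LH.GYF, LH.LWP, LH.ZR2, LH.ZRM, LCA.SHP, LHE.DST, LHE.LAT, LCA.SDU, LCA.BXI, LHE.FRT, LCA.CapJ.D4, LCA.CapJ.D8, LCA.CapJ.C8 -/

section

/-!
# Part D: SB1, the composite of the two special maps is the identity
-/

namespace LG

open Equiv Finset Function

namespace SB1

section

variable {ι κ α β : Type} [Fintype ι] [DecidableEq ι] [Fintype κ] [DecidableEq κ] [LinearOrder α]
  [LinearOrder β] {c : ι → α} {r : ι → β} {a : κ → α} {b : κ → β} {l k : ι} {m : κ}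

theorem ar1 {γ : Type} [LinearOrder γ] {A B K L : γ} (hAB : A ≠ B) (hKL : L ≠ K)
    (h1 : ico A K B) (h2 : ¬ ico A L B) (h3 : ¬ cyc L A K) : A = K := by
  unfold ico cyc at *; grind

theorem ar2 {γ : Type} [LinearOrder γ] {A B K L : γ} (hAB : A ≠ B) (hKL : L ≠ K)
    (h1 : ico A L B) (h2 : ¬ ico A K B) (h3 : ¬ cyc L B K) : B = K := by
  unfold ico cyc at *; grind

/-- the condition on a rectangle -/
def RC (c : ι → α) (r : ι → β) (a : κ → α) (b : κ → β) (S : Finset (ι ⊕ κ)) (x : Perm ι)
    (i j : ι) : Prop :=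
  i ≠ j ∧ Emp (gm c r a b) x i j ∧ (univ.filter fun m => Ins (gm c r a b) x i j m) = S

instance (S : Finset (ι ⊕ κ)) (x : Perm ι) (i j : ι) : Decidable (RC c r a b S x i j) := by
  unfold RC; infer_instance

theorem mem_iff {S : Finset (ι ⊕ κ)} {x : Perm ι} {i j : ι} (h : RC c r a b S x i j)
    (t : ι ⊕ κ) : t ∈ S ↔ Ins (gm c r a b) x i j t := by
  rw [← h.2.2]
  simp

theorem lem2 (hB : Blk c r a b l k m) {x : Perm ι} {i j : ι}
    (h : RC c r a b {Sum.inl k} x i j) : x i = k := by
  have h1 : Ins (gm c r a b) x i j (Sum.inl k) := (mem_iff h _).1 (by simp)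
  have h2 : ¬ Ins (gm c r a b) x i j (Sum.inr m) := fun hh => by
    have := (mem_iff h _).2 hh
    simp at this
  have h1a : ico (c i) (c k) (c j) := h1.1
  have h1b : ico (r (x i)) (r k) (r (x j)) := h1.2
  have h2b : ¬ ico (r (x i)) (r l) (r (x j)) := by
    intro hh
    apply h2
    refine ⟨?_, ?_⟩
    · show ico (c i) (a m) (c j)
      rw [hB.am]; exact h1a
    · show ico (r (x i)) (b m) (r (x j))
      rw [hB.bm]; exact hh
  apply hB.gd.ri
  refine ar1 ?_ ?_ h1b h2b (hB.ra (x i))
  · intro hh
    exact h.1 (x.injective (hB.gd.ri hh))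
  · intro hh
    exact hB.ne (hB.gd.ri hh)

theorem lem3 (hB : Blk c r a b l k m) {x : Perm ι} {i j : ι}
    (h : RC c r a b {Sum.inr m} x i j) : i = k ∧ x j = k := by
  have h1 : Ins (gm c r a b) x i j (Sum.inr m) := (mem_iff h _).1 (by simp)
  have h2 : ¬ Ins (gm c r a b) x i j (Sum.inl k) := fun hh => by
    have := (mem_iff h _).2 hh
    simp at this
  have h3 : ¬ Ins (gm c r a b) x i j (Sum.inl l) := fun hh => by
    have := (mem_iff h _).2 hh
    simp at this
  have h1a : ico (c i) (c k) (c j) := by
    have : ico (c i) (a m) (c j) := h1.1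
    rwa [hB.am] at this
  have h1b : ico (r (x i)) (r l) (r (x j)) := by
    have : ico (r (x i)) (b m) (r (x j)) := h1.2
    rwa [hB.bm] at this
  have h2b : ¬ ico (r (x i)) (r k) (r (x j)) := fun hh => h2 ⟨h1a, hh⟩
  have h3a : ¬ ico (c i) (c l) (c j) := fun hh => h3 ⟨hh, h1b⟩
  have hne : r (x i) ≠ r (x j) := fun hh => h.1 (x.injective (hB.gd.ri hh))
  have hnc : c i ≠ c j := fun hh => h.1 (hB.gd.ci hh)
  have hlk : r l ≠ r k := fun hh => hB.ne (hB.gd.ri hh)
  have hlkc : c l ≠ c k := fun hh => hB.ne (hB.gd.ci hh)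
  refine ⟨?_, ?_⟩
  · apply hB.gd.ci
    exact ar1 hnc hlkc h1a h3a (hB.ca i)
  · apply hB.gd.ri
    exact ar2 hne hlk h1b h2b (hB.ra (x j))

/-- the condition that `j` is the next circle after `k` -/
def Suc (c : ι → α) (k j : ι) : Prop := j ≠ k ∧ ∀ i, ¬ cyc (c k) (c i) (c j)

instance (k j : ι) : Decidable (Suc c k j) := by unfold Suc; infer_instance

omit [DecidableEq ι] in
theorem exists_suc [DecidableEq ι] (hc : Injective c) (h : ∃ j, j ≠ k) : ∃ j, Suc c k j := by
  obtain ⟨j0, hj0⟩ := h
  have hne : (univ.erase k : Finset ι).Nonempty := ⟨j0, by simp [hj0]⟩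
  obtain ⟨j, hj, hmin⟩ := Finset.exists_min_image (univ.erase k)
    (fun j => (univ.filter fun i => cyc (c k) (c i) (c j)).card) hne
  refine ⟨j, Finset.ne_of_mem_erase hj, ?_⟩
  intro i hi
  have hik : i ≠ k := by
    rintro rfl
    exact (cyc_ne hi).1 rfl
  have h1 := hmin i (by simp [hik])
  have h2 : (univ.filter fun i' => cyc (c k) (c i') (c i)) ⊂
      (univ.filter fun i' => cyc (c k) (c i') (c j)) := by
    rw [Finset.ssubset_iff_of_subset]
    · refine ⟨i, by simpa using hi, ?_⟩
      simp only [Finset.mem_filter, Finset.mem_univ, true_and]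
      intro hh
      exact (cyc_ne hh).2.1 rfl
    · intro t ht
      simp only [Finset.mem_filter, Finset.mem_univ, true_and] at ht ⊢
      exact cyc_trans ht hi
  have h3 := Finset.card_lt_card h2
  omega

omit [Fintype ι] [DecidableEq ι] in
theorem suc_unique (hc : Injective c) {j j' : ι} (h : Suc c k j) (h' : Suc c k j') : j = j' := by
  by_contra hne
  have h1 : c k ≠ c j := fun hh => h.1 (hc hh).symm
  have h2 : c k ≠ c j' := fun hh => h'.1 (hc hh).symm
  have h3 : c j ≠ c j' := fun hh => hne (hc hh)
  rcases cyc_total h1 h3 h2 with hh | hh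
  · exact h'.2 j hh
  · exact h.2 j' hh

/-- both conditions together say that `j` is the next circle -/
theorem both_iff (hB : Blk c r a b l k m) {z : Perm ι} (hz : z k = k) (j : ι) (hj : j ≠ k) :
    (RC c r a b {Sum.inl k} z k j ∧ RC c r a b {Sum.inr m} (z * Equiv.swap k j) k j) ↔ Suc c k j := by
  have hyk : (z * Equiv.swap k j) k = z j := by simp
  have hyj : (z * Equiv.swap k j) j = k := by simp [hz]
  have hzj : z j ≠ k := fun hh => hj (z.injective (hh.trans hz.symm))
  have hrj : r (z j) ≠ r k := fun hh => hzj (hB.gd.ri hh)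
  constructor
  · rintro ⟨h1, h2⟩
    refine ⟨hj, fun i hi => ?_⟩
    have hik : i ≠ k := by
      rintro rfl
      exact (cyc_ne hi).1 rfl
    have hij : i ≠ j := by
      rintro rfl
      exact (cyc_ne hi).2.1 rfl
    have e1 : ¬ (cyc (c k) (c i) (c j) ∧ cyc (r (z k)) (r (z i)) (r (z j))) := h1.2.1 i
    have e2 : ¬ (cyc (c k) (c i) (c j) ∧ cyc (r ((z * Equiv.swap k j) k)) (r ((z * Equiv.swap k j) i))
        (r ((z * Equiv.swap k j) j))) := h2.2.1 i
    have e3 : (z * Equiv.swap k j) i = z i := by
      rw [Perm.mul_apply, swap_apply_of_ne_of_ne hik hij]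
    rw [hyk, hyj, e3] at e2
    rw [hz] at e1
    have hzi : r (z i) ≠ r k := fun hh => hik (z.injective ((hB.gd.ri hh).trans hz.symm))
    have hzij : r (z i) ≠ r (z j) := fun hh => hij (z.injective (hB.gd.ri hh))
    rcases cyc_total hzi.symm hzij hrj.symm with hh | hh
    · exact e1 ⟨hi, hh⟩
    · exact e2 ⟨hi, cyc_rot.1 hh⟩
  · rintro ⟨-, hs⟩
    have hcol : ∀ t : ι ⊕ κ, ico (c k) (Sum.elim c a t) (c j) → t = Sum.inl k ∨ t = Sum.inr m := by
      intro t ht
      rcases t with i | n
      · rcases ht with hh | hh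
        · left
          rw [hB.gd.ci hh]
        · exact absurd hh (hs i)
      · obtain ⟨i, hi⟩ := hB.gd.ac n
        have ht' : ico (c k) (a n) (c j) := ht
        rw [hi] at ht'
        rcases ht' with hh | hh
        · right
          have : a n = a m := by rw [hi, hh, hB.am]
          rw [hB.gd.ai this]
        · exact absurd hh (hs i)
    have hl : ¬ ico (r k) (r l) (r (z j)) := by
      rintro (hh | hh)
      · exact hB.ne (hB.gd.ri hh)
      · exact hB.ra (z j) (cyc_rot.1 hh)
    have hl' : ico (r (z j)) (r l) (r k) := by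
      rw [ico_compl hrj]
      exact hl
    refine ⟨⟨hj.symm, fun i hi => hs i hi.1, ?_⟩, ⟨hj.symm, fun i hi => hs i hi.1, ?_⟩⟩
    · ext t
      simp only [Finset.mem_filter, Finset.mem_univ, true_and, Finset.mem_singleton]
      constructor
      · intro ht
        have ht1 : ico (c k) (Sum.elim c a t) (c j) := ht.1
        have ht2 : ico (r (z k)) (Sum.elim r b t) (r (z j)) := ht.2
        rcases hcol t ht1 with hh | hh
        · exact hh
        · exfalso
          rw [hh, hz] at ht2
          have : ico (r k) (b m) (r (z j)) := ht2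
          rw [hB.bm] at this
          exact hl this
      · rintro rfl
        refine ⟨Or.inl rfl, ?_⟩
        show ico (r (z k)) (r k) (r (z j))
        rw [hz]
        exact Or.inl rfl
    · ext t
      simp only [Finset.mem_filter, Finset.mem_univ, true_and, Finset.mem_singleton]
      constructor
      · intro ht
        have ht1 : ico (c k) (Sum.elim c a t) (c j) := ht.1
        have ht2 : ico (r ((z * Equiv.swap k j) k)) (Sum.elim r b t) (r ((z * Equiv.swap k j) j)) := ht.2
        rw [hyk, hyj] at ht2
        rcases hcol t ht1 with hh | hh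
        · exfalso
          rw [hh] at ht2
          have ht3 : ico (r (z j)) (r k) (r k) := ht2
          rcases ht3 with h4 | h4
          · exact hrj h4.symm
          · exact (cyc_ne h4).2.1 rfl
        · exact hh
      · rintro rfl
        refine ⟨?_, ?_⟩
        · show ico (c k) (a m) (c j)
          rw [hB.am]
          exact Or.inl rfl
        · show ico (r ((z * Equiv.swap k j) k)) (b m) (r ((z * Equiv.swap k j) j))
          rw [hyk, hyj, hB.bm]
          exact hl'

theorem bdS_eq (S : Finset (ι ⊕ κ)) (f : Perm ι → ZMod 2) (y : Perm ι) :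
    bdS c r a b S f y = ∑ i, ∑ j, f (y * Equiv.swap i j) *
      (if RC c r a b S (y * Equiv.swap i j) i j then 1 else 0) := rfl

theorem inner (hB : Blk c r a b l k m) {f : Perm ι → ZMod 2} (hf : ∀ x, x k ≠ k → f x = 0)
    {z : Perm ι} (hz : z k = k) (j : ι) (hj : j ≠ k) :
    bdS c r a b {Sum.inl k} f (z * Equiv.swap k j)
      = f z * (if RC c r a b {Sum.inl k} z k j then 1 else 0) := by
  rw [bdS_eq]
  set y := z * Equiv.swap k j with hy
  have hyj : y j = k := by simp [hy, hz]
  have key : ∀ i j2, RC c r a b {Sum.inl k} (y * Equiv.swap i j2) i j2 → f (y * Equiv.swap i j2) ≠ 0 →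
      i = k ∧ j2 = j := by
    intro i j2 h1 h2
    have h3 : (y * Equiv.swap i j2) k = k := by
      by_contra hh
      exact h2 (hf _ hh)
    have h4 : (y * Equiv.swap i j2) i = k := lem2 hB h1
    have h5 : i = k := (y * Equiv.swap i j2).injective (h4.trans h3.symm)
    refine ⟨h5, ?_⟩
    rw [h5] at h4
    have h6 : y j2 = k := by simpa using h4
    exact y.injective (h6.trans hyj.symm)
  rw [Finset.sum_eq_single k, Finset.sum_eq_single j]
  · have e : y * Equiv.swap k j = z := by
      rw [hy, mul_assoc, swap_mul_self, mul_one]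
    rw [e]
  · intro j2 _ hne
    by_cases h1 : RC c r a b {Sum.inl k} (y * Equiv.swap k j2) k j2
    · by_cases h2 : f (y * Equiv.swap k j2) = 0
      · rw [h2, zero_mul]
      · exact absurd (key k j2 h1 h2).2 hne
    · rw [if_neg h1, mul_zero]
  · intro h
    exact absurd (Finset.mem_univ j) h
  · intro i _ hne
    apply Finset.sum_eq_zero
    intro j2 _
    by_cases h1 : RC c r a b {Sum.inl k} (y * Equiv.swap i j2) i j2
    · by_cases h2 : f (y * Equiv.swap i j2) = 0
      · rw [h2, zero_mul]
      · exact absurd (key i j2 h1 h2).1 hne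
    · rw [if_neg h1, mul_zero]
  · intro h
    exact absurd (Finset.mem_univ k) h

end

end SB1

open _root_.LG.SB1 in
theorem t_SB1 : Stmt_SB1 := by
  intro ι κ α β _ _ _ _ _ _ c r a b l k m hB f hf
  funext z
  rw [bdS_eq]
  have h0 : ∀ i j, RC c r a b {Sum.inr m} (z * Equiv.swap i j) i j → i = k ∧ z k = k := by
    intro i j h
    obtain ⟨h1, h2⟩ := lem3 hB h
    subst h1
    refine ⟨rfl, ?_⟩
    simpa using h2
  by_cases hz : z k = k
  · rw [Finset.sum_eq_single k]
    · have h1 : ∀ j, bdS c r a b {Sum.inl k} f (z * Equiv.swap k j) *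
          (if RC c r a b {Sum.inr m} (z * Equiv.swap k j) k j then 1 else 0)
          = if Suc c k j then f z else 0 := by
        intro j
        by_cases hj : j = k
        · have e1 : ¬ RC c r a b {Sum.inr m} (z * Equiv.swap k j) k j := fun h => h.1 hj.symm
          have e2 : ¬ Suc c k j := fun h => h.1 hj
          rw [if_neg e1, if_neg e2, mul_zero]
        · rw [inner hB hf hz j hj]
          by_cases hs : Suc c k j
          · obtain ⟨h2, h3⟩ := (both_iff hB hz j hj).2 hs
            rw [if_pos h2, if_pos h3, if_pos hs, mul_one, mul_one]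
          · rw [if_neg hs]
            by_cases h2 : RC c r a b {Sum.inl k} z k j
            · have h3 : ¬ RC c r a b {Sum.inr m} (z * Equiv.swap k j) k j := fun h =>
                hs ((both_iff hB hz j hj).1 ⟨h2, h⟩)
              rw [if_neg h3, mul_zero]
            · rw [if_neg h2, mul_zero, zero_mul]
      rw [Finset.sum_congr rfl fun j _ => h1 j]
      obtain ⟨j0, hj0⟩ := exists_suc (c := c) (k := k) hB.gd.ci ⟨l, hB.ne⟩
      rw [Finset.sum_eq_single j0]
      · rw [if_pos hj0]
      · intro j _ hne
        rw [if_neg]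
        intro hs
        exact hne (suc_unique hB.gd.ci hs hj0)
      · intro h
        exact absurd (Finset.mem_univ j0) h
    · intro i _ hne
      apply Finset.sum_eq_zero
      intro j _
      rw [if_neg (fun h => hne (h0 i j h).1), mul_zero]
    · intro h
      exact absurd (Finset.mem_univ k) h
  · rw [hf z hz]
    apply Finset.sum_eq_zero
    intro i _
    apply Finset.sum_eq_zero
    intro j _
    rw [if_neg (fun h => hz (h0 i j h).2), mul_zero]

end LG


end

section

/-!
# SB2: the complex of the states through the centre of a block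
-/

namespace LG

open Equiv Finset Function

namespace SB2

theorem ico_adj {α : Type*} [LinearOrder α] {A B K L : α} (hAB : A ≠ B) (hA : A ≠ K) (hB : B ≠ K)
    (hL : L ≠ K) (h1 : ¬ cyc L A K) (h2 : ¬ cyc L B K) : ico A K B ↔ ico A L B := by
  unfold ico cyc at *; grind

section

variable {ι κ α β : Type} [Fintype ι] [DecidableEq ι] [Fintype κ] [LinearOrder α] [LinearOrder β]

theorem wt_eq (c : ι → α) (r : ι → β) (a : κ → α) (b : κ → β) (x : Perm ι) (i j : ι) :
    Wt (gm c r a b) x i j =
      if i ≠ j ∧ Emp (gm c r a b) x i j ∧ ∀ m, ¬ Ins (gm c r a b) x i j m then 1 else 0 := by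
  unfold Wt
  by_cases h : i ≠ j ∧ Emp (gm c r a b) x i j
  · rw [if_pos h]
    by_cases h' : ∀ m, ¬ Ins (gm c r a b) x i j m
    · rw [if_pos ⟨h.1, h.2, h'⟩]
      exact Finset.prod_eq_one fun m _ => if_neg (h' m)
    · rw [if_neg fun hh => h' hh.2.2]
      push Not at h'
      obtain ⟨m, hm⟩ := h'
      exact Finset.prod_eq_zero (Finset.mem_univ m) (by rw [if_pos hm]; rfl)
  · rw [if_neg h, if_neg fun hh => h ⟨hh.1, hh.2.1⟩]

end

section

variable {ι : Type} [DecidableEq ι]

/-- The extension of a permutation by the fixed point `k`. -/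
def E (k : ι) : Perm {i // i ≠ k} →* Perm ι := Perm.ofSubtype

theorem E_k (k : ι) (s : Perm {i // i ≠ k}) : E k s k = k :=
  Perm.ofSubtype_apply_of_not_mem s (by simp)

theorem E_coe (k : ι) (s : Perm {i // i ≠ k}) (i : {i // i ≠ k}) : E k s i = (s i : ι) :=
  Perm.ofSubtype_apply_coe s i

theorem E_swap (k : ι) (i j : {i // i ≠ k}) : E k (swap i j) = swap (i : ι) j :=
  Perm.ofSubtype_swap_eq i j

theorem E_inj (k : ι) : Injective (E k) := Perm.ofSubtype_injective

theorem E_surj (k : ι) {x : Perm ι} (hx : x k = k) : ∃ s, E k s = x := by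
  have h1 : ∀ i, x i ≠ k ↔ i ≠ k := by
    intro i
    refine not_congr ⟨fun h => x.injective (h.trans hx.symm), fun h => by rw [h, hx]⟩
  refine ⟨x.subtypePerm h1, ?_⟩
  exact Perm.ofSubtype_subtypePerm h1 (fun i hi hik => hi (by rw [hik, hx]))

end

section

variable {ι κ α β : Type} [Fintype ι] [DecidableEq ι] [Fintype κ] [DecidableEq κ] [LinearOrder α]
  [LinearOrder β] {c : ι → α} {r : ι → β} {a : κ → α} {b : κ → β} {l k : ι} {m : κ}

theorem key (hb : Blk c r a b l k m) (s : Perm {i // i ≠ k}) (i j : {i // i ≠ k}) :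
    Wt (gm c r a b) (E k s) i j =
      Wt (gm (fun i : {i // i ≠ k} => c i) (fun i : {i // i ≠ k} => r i)
        (fun n : {n // n ≠ m} => a n)
        (fun n : {n // n ≠ m} => if b n = r k then r l else b n)) s i j := by
  rw [wt_eq, wt_eq]
  have hc : ∀ i' : ι, i' ≠ k → c i' ≠ c k := fun i' h h' => h (hb.gd.ci h')
  have hr : ∀ i' : ι, i' ≠ k → r i' ≠ r k := fun i' h h' => h (hb.gd.ri h')
  have hcol : i ≠ j → (ico (c i) (c k) (c j) ↔ ico (c i) (c l) (c j)) := fun hij =>
    ico_adj (fun h => hij (Subtype.ext (hb.gd.ci h))) (hc _ i.2) (hc _ j.2) (hc _ hb.ne) (hb.ca _)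
      (hb.ca _)
  have hrow : i ≠ j → (ico (r (s i)) (r k) (r (s j)) ↔ ico (r (s i)) (r l) (r (s j))) := fun hij =>
    ico_adj (fun h => hij (s.injective (Subtype.ext (hb.gd.ri h)))) (hr _ (s i).2) (hr _ (s j).2)
      (hr _ hb.ne) (hb.ra _) (hb.ra _)
  refine if_congr ?_ rfl rfl
  constructor
  · rintro ⟨h1, h2, h3⟩
    have hij : i ≠ j := fun h => h1 (by rw [h])
    refine ⟨hij, ?_, ?_⟩
    · intro k'
      have := h2 k'
      simp only [gm, E_coe] at this ⊢
      exact this
    · rintro (i' | ⟨n, hn⟩)
      · have := h3 (Sum.inl i')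
        simp only [Ins, gm, E_coe, Sum.elim_inl] at this ⊢
        exact this
      · have := h3 (Sum.inr n)
        simp only [Ins, gm, E_coe, Sum.elim_inr] at this ⊢
        by_cases hn' : b n = r k
        · rw [if_pos hn']
          rw [hn', hrow hij] at this
          exact this
        · rw [if_neg hn']
          exact this
  · rintro ⟨hij, h2, h3⟩
    have hl : ¬ (ico (c i) (c l) (c j) ∧ ico (r (s i)) (r l) (r (s j))) := by
      have := h3 (Sum.inl ⟨l, hb.ne⟩)
      simp only [Ins, gm, Sum.elim_inl] at this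
      exact this
    refine ⟨fun h => hij (Subtype.ext h), ?_, ?_⟩
    · intro k'
      by_cases hk' : k' = k
      · subst hk'
        simp only [gm, E_coe, E_k]
        rintro ⟨h4, h5⟩
        exact hl ⟨(hcol hij).1 (Or.inr h4), (hrow hij).1 (Or.inr h5)⟩
      · have := h2 ⟨k', hk'⟩
        have h6 : E k s k' = (s ⟨k', hk'⟩ : ι) := E_coe k s ⟨k', hk'⟩
        simp only [gm] at this
        simp only [gm, E_coe, h6]
        exact this
    · rintro (i' | n)
      · by_cases hi' : i' = k
        · subst hi'
          simp only [Ins, gm, E_coe, Sum.elim_inl]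
          rintro ⟨h4, h5⟩
          exact hl ⟨(hcol hij).1 h4, (hrow hij).1 h5⟩
        · have := h3 (Sum.inl ⟨i', hi'⟩)
          simp only [Ins, gm, E_coe, Sum.elim_inl] at this ⊢
          exact this
      · by_cases hn : n = m
        · subst hn
          simp only [Ins, gm, E_coe, Sum.elim_inr]
          rintro ⟨h4, h5⟩
          rw [hb.am] at h4
          rw [hb.bm] at h5
          exact hl ⟨(hcol hij).1 h4, h5⟩
        · have := h3 (Sum.inr ⟨n, hn⟩)
          simp only [Ins, gm, E_coe, Sum.elim_inr] at this ⊢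
          by_cases hn' : b n = r k
          · rw [if_pos hn'] at this
            rw [hn', hrow hij]
            exact this
          · rw [if_neg hn'] at this
            exact this

theorem bd_E (hb : Blk c r a b l k m) (f : Perm ι → ZMod 2) (hf : ∀ x, x k ≠ k → f x = 0)
    (s : Perm {i // i ≠ k}) :
    bd c r a b f (E k s) =
      bd (fun i : {i // i ≠ k} => c i) (fun i : {i // i ≠ k} => r i)
        (fun n : {n // n ≠ m} => a n)
        (fun n : {n // n ≠ m} => if b n = r k then r l else b n) (fun t => f (E k t)) s := by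
  have h0 : ∀ i j : ι, (i = k ∨ j = k) →
      f (E k s * swap i j) * Wt (gm c r a b) (E k s * swap i j) i j = 0 := by
    intro i j hij
    by_cases h : i = j
    · rw [wt_eq, if_neg (fun hh => hh.1 h), mul_zero]
    · rw [hf, zero_mul]
      rcases hij with rfl | rfl
      · rw [Perm.mul_apply, swap_apply_left]
        intro h'
        exact h ((E i s).injective (h'.trans (E_k i s).symm)).symm
      · rw [Perm.mul_apply, swap_apply_right]
        intro h'
        exact h ((E j s).injective (h'.trans (E_k j s).symm))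
  unfold bd del
  have h1 : ∀ g : ι → ZMod 2, g k = 0 → ∑ i, g i = ∑ i : {i // i ≠ k}, g i := by
    intro g hg
    rw [← Finset.sum_subtype (s := univ.filter (· ≠ k)) (f := g) (by simp)]
    refine (Finset.sum_subset (Finset.filter_subset _ _) ?_).symm
    intro i _ hi
    have : i = k := by simpa using hi
    rw [this, hg]
  rw [h1 _ (Finset.sum_eq_zero fun j _ => h0 k j (Or.inl rfl))]
  refine Finset.sum_congr rfl fun i _ => ?_
  rw [h1 _ (h0 _ k (Or.inr rfl))]
  refine Finset.sum_congr rfl fun j _ => ?_
  have h2 : E k s * swap (i : ι) j = E k (s * swap i j) := by rw [map_mul, E_swap]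
  rw [h2, key hb]

end

end SB2

open _root_.LG.SB2 in
theorem t_SB2 : Stmt_SB2 := by
  intro ι κ α β _ _ _ _ _ _ c r a b l k m hb
  have hone : ∀ s : Perm {i // i ≠ k},
      (Pi.single 1 1 : Perm ι → ZMod 2) (E k s) =
        (Pi.single 1 1 : Perm {i // i ≠ k} → ZMod 2) s := by
    intro s
    by_cases hs : s = 1
    · rw [hs, map_one, Pi.single_eq_same, Pi.single_eq_same]
    · rw [Pi.single_eq_of_ne hs, Pi.single_eq_of_ne]
      intro h
      exact hs (E_inj k (h.trans (map_one _).symm))
  constructor
  · rintro ⟨f', hf'⟩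
    have he : ∀ t, Function.extend (E k) f' 0 (E k t) = f' t := fun t =>
      (E_inj k).extend_apply f' 0 t
    have hsup : ∀ x : Perm ι, x k ≠ k → Function.extend (E k) f' 0 x = 0 := by
      intro x hx
      rw [Function.extend_apply']
      · rfl
      · rintro ⟨t, ht⟩
        exact hx (by rw [← ht, E_k])
    refine ⟨Function.extend (E k) f' 0, hsup, ?_⟩
    intro y hy
    obtain ⟨s, rfl⟩ := E_surj k hy
    rw [bd_E hb _ hsup s, hone, ← hf']
    have : (fun t => Function.extend (E k) f' 0 (E k t)) = f' := funext he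
    rw [this]
  · rintro ⟨f, hf, hy⟩
    refine ⟨fun t => f (E k t), ?_⟩
    funext s
    rw [← bd_E hb f hf s, hy _ (E_k k s), hone]

end LG


end

section

/-!
# Part D: WR
-/

namespace LG

open Equiv Finset Function

namespace WR

theorem cyc_in {β : Type} [LinearOrder β] {a b c d : β} (h₁ : cyc a b d) (h₂ : cyc b c d) :
    cyc a c d ∧ cyc a b c := by
  unfold cyc at *; grind

/-- The last circle before `l`. -/
theorem exists_last {ι β : Type} [Fintype ι] [LinearOrder β] (r : ι → β) (k l : ι)
    (h : ∃ i, cyc (r k) (r i) (r l)) :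
    ∃ j, cyc (r k) (r j) (r l) ∧ ∀ i, ¬ cyc (r j) (r i) (r l) := by
  classical
  obtain ⟨i0, hi0⟩ := h
  obtain ⟨j, hj, hmin⟩ := Finset.exists_min_image
    (univ.filter fun i => cyc (r k) (r i) (r l))
    (fun j => (univ.filter fun i => cyc (r j) (r i) (r l)).card) ⟨i0, by simpa using hi0⟩
  have hj' : cyc (r k) (r j) (r l) := by simpa using hj
  refine ⟨j, hj', fun i hi => ?_⟩
  have hi' : i ∈ univ.filter fun i => cyc (r k) (r i) (r l) := by
    simpa using (cyc_in hj' hi).1
  have h1 := hmin i hi'
  have h2 : (univ.filter fun i' => cyc (r i) (r i') (r l)) ⊂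
      (univ.filter fun i' => cyc (r j) (r i') (r l)) := by
    rw [Finset.ssubset_iff_of_subset]
    · refine ⟨i, by simpa using hi, ?_⟩
      simp only [mem_filter, mem_univ, true_and]
      unfold cyc; grind
    · intro i' h'
      simp only [mem_filter, mem_univ, true_and] at h' ⊢
      exact (cyc_in hi h').1
  exact absurd (Finset.card_lt_card h2) (by omega)

theorem gd_swap {ι κ α β : Type} [LinearOrder α] [LinearOrder β]
    {c : ι → α} {r : ι → β} {a : κ → α} {b : κ → β} (h : Gd c r a b) (s : Perm β) :
    Gd c (s ∘ r) a (s ∘ b) where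
  ci := h.ci
  ri := s.injective.comp h.ri
  ai := h.ai
  bi := s.injective.comp h.bi
  ac := h.ac
  ca := h.ca
  br := fun m => by
    obtain ⟨k, hk⟩ := h.br m
    exact ⟨k, congrArg s hk⟩
  rb := fun k => by
    obtain ⟨m, hm⟩ := h.rb k
    exact ⟨m, congrArg s hm⟩
  ne := fun k m hh => h.ne k m ⟨hh.1, s.injective hh.2⟩

theorem unl_adj {α : Type} [LinearOrder α] {x y u v : α} (hx : ¬ cyc u x v) (hy : ¬ cyc u y v)
    (h1 : x ≠ u) (h2 : x ≠ v) (h3 : y ≠ u) (h4 : y ≠ v) (h5 : u ≠ v) : Unl x y u v := by
  refine ⟨h1, h2, h3, h4, ?_⟩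
  unfold cyc at *; grind

theorem main (hrow : P_ROW) (hblk : Stmt_BLK) (N : ℕ) :
    ∀ (ι κ α β : Type) [Fintype ι] [DecidableEq ι] [Fintype κ] [DecidableEq κ] [LinearOrder α]
    [LinearOrder β] (c : ι → α) (r : ι → β) (a : κ → α) (b : κ → β) (l k : ι) (m n : κ),
    Srt c r a b l k m n → (∀ i, ¬ cyc (c l) (c i) (c k)) → cyc (r l) (b n) (r k) →
    (univ.filter fun i => cyc (r k) (r i) (r l)).card = N → V c r a b := by
  induction N using Nat.strong_induction_on with
  | _ N ih =>
  intro ι κ α β _ _ _ _ _ _ c r a b l k m n hs hadj hc hN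
  by_cases he : ∃ i, cyc (r k) (r i) (r l)
  · obtain ⟨j, hj, hlast⟩ := exists_last r k l he
    obtain ⟨m', hm'⟩ := hs.gd.rb j
    obtain ⟨i', hi'⟩ := hs.gd.ac m'
    have hjl : j ≠ l := by
      rintro rfl; unfold cyc at hj; grind
    have hjk : j ≠ k := by
      rintro rfl; unfold cyc at hj; grind
    have hbj : b n ≠ r j := by
      intro h; rw [h] at hc; unfold cyc at hj hc; grind
    have hnm : n ≠ m := by
      rintro rfl
      exact hs.ne (hs.gd.ci (hs.an.symm.trans hs.am))
    have hbl : b n ≠ r l := by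
      intro h; exact hnm (hs.gd.bi (h.trans hs.bm.symm))
    have hm'n : m' ≠ n := by
      rintro rfl; exact hbj hm'.symm
    have hm'm : m' ≠ m := by
      rintro rfl; exact hjl (hs.gd.ri (hm'.trans hs.bm))
    have hunl : Unl (c j) (a m') (c l) (a m) := by
      rw [hs.am]
      refine unl_adj (hadj j) (by rw [hi']; exact hadj i') (fun h => hjl (hs.gd.ci h))
        (fun h => hjk (hs.gd.ci h)) ?_ ?_ (fun h => hs.ne (hs.gd.ci h))
      · rw [← hs.an]; exact fun h => hm'n (hs.gd.ai h)
      · rw [← hs.am]; exact fun h => hm'm (hs.gd.ai h)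
    rw [hrow ι κ α β c r a b hs.gd j l m' m hjl hlast hm'.symm hs.bm hunl]
    have e1 : (swap (r j) (r l) ∘ r) l = r j := by simp
    have e2 : (swap (r j) (r l) ∘ r) k = r k := by
      simp only [comp_apply]
      exact swap_apply_of_ne_of_ne (fun h => hjk (hs.gd.ri h.symm))
        (fun h => hs.ne (hs.gd.ri h.symm))
    have e3 : (swap (r j) (r l) ∘ b) n = b n := by
      simp only [comp_apply]
      exact swap_apply_of_ne_of_ne hbj hbl
    have e4 : (swap (r j) (r l) ∘ b) m = r j := by
      simp [hs.bm]
    refine ih _ ?_ ι κ α β c (swap (r j) (r l) ∘ r) a (swap (r j) (r l) ∘ b) l k m n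
      ⟨gd_swap hs.gd _, hs.ne, hs.am, by rw [e1, e4], hs.an⟩ hadj ?_ rfl
    · rw [← hN]
      apply Finset.card_lt_card
      rw [Finset.ssubset_iff_of_subset]
      · refine ⟨j, by simpa using hj, ?_⟩
        simp only [mem_filter, mem_univ, true_and, e1, e2]
        simp only [comp_apply, swap_apply_left]
        unfold cyc at *; grind
      · intro i hi
        simp only [mem_filter, mem_univ, true_and, e1, e2] at hi ⊢
        simp only [comp_apply] at hi
        by_cases h1 : r i = r j
        · rw [h1]; exact hj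
        · by_cases h2 : r i = r l
          · rw [h2, swap_apply_right] at hi
            exact absurd rfl (cyc_ne hi).2.1
          · rw [swap_apply_of_ne_of_ne h1 h2] at hi
            unfold cyc at *; grind
    · rw [e1, e2, e3]
      unfold cyc at *; grind
  · refine hblk ι κ α β c r a b hs.gd l k m hs.ne hs.am hs.bm hadj (fun i hi => he ⟨i, hi⟩) ?_
    intro n' hn' hb
    have hnn : n' = n := hs.gd.ai (hn'.trans hs.an.symm)
    rw [hnn] at hb
    exact (cyc_ne hc).2.1 hb

end WR

theorem t_WR : Stmt_WR := by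
  intro hrow hblk ι κ α β _ _ _ _ _ _ c r a b l k m n hs hadj hc
  exact WR.main hrow hblk _ ι κ α β c r a b l k m n hs hadj hc rfl

end LG


end

section

/-!
# Turns of walks without zigzags are in components monotone in `y`
-/

namespace LH

open Set LG

namespace GYF

theorem cp_map {α β : Type*} (f : α → β) (w : List α) :
    cp (w.map f) = (cp w).map (Prod.map f f) := by
  unfold cp
  rw [← List.map_rotate, List.zip_map]

theorem noz {N : ℕ} {P : Pg N} {Y : Finset ℝ} {w : List It} {W : ℤ → It} (hS : P_SEQ)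
    (hg : GW P Y w) (hW : Sq P Y w W) (n : ℤ) :
    ¬ (((W n).k = .R ∨ (W n).k = .L) ∧ ((W (n + 1)).k = .R ∨ (W (n + 1)).k = .L)) := by
  have h1 : (pt P (W n), pt P (W (n + 1))) ∈ cp (w.map (pt P)) :=
    (hS.cp P Y w W hW _).mpr ⟨n, rfl⟩
  rw [cp_map] at h1
  obtain ⟨x, hx, hx'⟩ := List.mem_map.mp h1
  have h2 : pt P x.1 = pt P (W n) := congrArg Prod.fst hx'
  have h3 : pt P x.2 = pt P (W (n + 1)) := congrArg Prod.snd hx'
  have h4 : x.1.k = (W n).k := congrArg Pt.k h2
  have h5 : x.2.k = (W (n + 1)).k := congrArg Pt.k h3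
  rw [← h4, ← h5]
  exact hg.2 x hx

/-- Adjacent lines of `Y` and adjacent lines of the subset `X`. -/
theorem adj_sub {X Y : Finset ℝ} (hXY : X ⊆ Y) {a b s t x : ℝ} (hab : AdjX X a b)
    (hst : AdjX Y s t) (h1 : s < x) (h2 : x < t) (h3 : a < x) (h4 : x < b) : a ≤ s ∧ t ≤ b := by
  obtain ⟨ha, hb, _, _⟩ := hab
  obtain ⟨_, _, _, hn⟩ := hst
  constructor
  · by_contra h
    exact hn a (hXY ha) ⟨not_le.mp h, by linarith⟩
  · by_contra h
    exact hn b (hXY hb) ⟨by linarith, not_le.mp h⟩

theorem adj_right {Y : Finset ℝ} {s s' t : ℝ} (h : AdjX Y s t) (h' : AdjX Y s' t) : s = s' := by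
  obtain ⟨hs, _, hst, hn⟩ := h
  obtain ⟨hs', _, hst', hn'⟩ := h'
  rcases lt_trichotomy s s' with h1 | h1 | h1
  · exact absurd ⟨h1, hst'⟩ (hn s' hs')
  · exact h1
  · exact absurd ⟨h1, hst⟩ (hn' s hs)

theorem adj_left {Y : Finset ℝ} {s t t' : ℝ} (h : AdjX Y s t) (h' : AdjX Y s t') : t = t' := by
  obtain ⟨_, ht, hst, hn⟩ := h
  obtain ⟨_, ht', hst', hn'⟩ := h'
  rcases lt_trichotomy t t' with h1 | h1 | h1
  · exact absurd ⟨hst, h1⟩ (hn' t ht)
  · exact h1
  · exact absurd ⟨hst', h1⟩ (hn t' ht')

theorem main {N : ℕ} {P : Pg N} {X Y : Finset ℝ} {w : List It} {W : ℤ → It} (hC : P_CMP)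
    (hN : 0 < N) (hX : GoodX P X) (hXY : X ⊆ Y) (hW : Sq P Y w W) (n : ℤ)
    (hz : ¬ ((W n).k = .R ∨ (W n).k = .L) ∨ ¬ ((W (n + 1)).k = .R ∨ (W (n + 1)).k = .L))
    (hz' : ¬ ((W (n + 1)).k = .R ∨ (W (n + 1)).k = .L) ∨
      ¬ ((W (n + 1 + 1)).k = .R ∨ (W (n + 1 + 1)).k = .L)) {a b : ℝ}
    (hab : AdjX X a b) (hk : (W (n + 1)).k = .R ∨ (W (n + 1)).k = .L)
    (ha : a < P.x ((W (n + 1)).e + 1)) (hb : P.x ((W (n + 1)).e + 1) < b) :
    ∃ p q, Comp P a b p q ∧ p ≤ (W (n + 1)).e ∧ (W (n + 1)).e ≤ q ∧ YM P p q := by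
  have hgd := hX.gd a b hab
  have l1 := hW.lnk n
  have l2 := hW.lnk (n + 1)
  have o1 := hW.ok n
  have o2 := hW.ok (n + 1 + 1)
  have z1 : ¬ ((W n).k = .R ∨ (W n).k = .L) := hz.resolve_right (fun h => h hk)
  have z2 : ¬ ((W (n + 1 + 1)).k = .R ∨ (W (n + 1 + 1)).k = .L) :=
    hz'.resolve_left (fun h => h hk)
  have e12 : (W (n + 1)).e < (W (n + 1 + 1)).e := l2.tl hk
  have hv := l2.ins ((W (n + 1)).e + 1) (by omega) (by omega)
  obtain ⟨p, q, hpq, hp, hq⟩ := hC.ex P a b hN hgd (W (n + 1)).e
    ⟨fun h => by linarith [h.2], fun h => by linarith [h.2]⟩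
  refine ⟨p, q, hpq, hp, hq, ?_⟩
  -- the vertices near the turn are inside
  have key : (∀ m, (W n).e < m → m ≤ (W (n + 1)).e → a < P.x m ∧ P.x m < b) ∧
      (∀ m, (W (n + 1)).e < m → m ≤ (W (n + 1 + 1)).e → a < P.x m ∧ P.x m < b) ∧
      (((P.x (W n).e < P.x ((W n).e + 1)) ∧
          P.x ((W (n + 1 + 1)).e + 1) < P.x (W (n + 1 + 1)).e) ∨
        (P.x ((W n).e + 1) < P.x (W n).e ∧
          P.x (W (n + 1 + 1)).e < P.x ((W (n + 1 + 1)).e + 1))) := by
    rcases hk with hk | hk
    · -- a right turn
      have d1 : (W n).k.fw ∧ (W n).t < (W (n + 1)).t := by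
        rcases l1.dir with h | h
        · exact ⟨h.1, h.2.2⟩
        · exact absurd (by rw [hk]; trivial) h.2.1
      have d2 : ¬ (W (n + 1 + 1)).k.ar ∧ (W (n + 1 + 1)).t < (W (n + 1)).t := by
        rcases l2.dir with h | h
        · exact absurd h.1 (by rw [hk]; exact fun h => h)
        · exact ⟨h.2.1, h.2.2⟩
      have k1 : (W n).k = .rt := by
        have := d1.1
        cases hh : (W n).k
        · rfl
        · rw [hh] at this; exact this.elim
        · exact absurd (Or.inl hh) z1
        · exact absurd (Or.inr hh) z1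
      have k2 : (W (n + 1 + 1)).k = .lt := by
        have := d2.1
        cases hh : (W (n + 1 + 1)).k
        · rw [hh] at this; exact absurd trivial this
        · rfl
        · exact absurd (Or.inl hh) z2
        · exact absurd (Or.inr hh) z2
      have a1 : AdjX Y (W n).t (W (n + 1)).t := by
        rcases l1.adj with h | h
        · exact h
        · exact absurd h.2.2.1 (by linarith [d1.2])
      have a2 : AdjX Y (W (n + 1 + 1)).t (W (n + 1)).t := by
        rcases l2.adj with h | h
        · exact absurd h.2.2.1 (by linarith [d2.2])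
        · exact h
      have a3 := adj_right a1 a2
      have hv' : (W n).t < P.x ((W (n + 1)).e + 1) ∧ P.x ((W (n + 1)).e + 1) < (W (n + 1)).t := by
        rcases hv with h | h
        · exact absurd (h.1.trans h.2) (by linarith [d2.2])
        · rw [a3]; exact h
      obtain ⟨b1, b2⟩ := adj_sub hXY hab a1 hv'.1 hv'.2 ha hb
      refine ⟨?_, ?_, Or.inl ⟨?_, ?_⟩⟩
      · intro m hm hm'
        rcases l1.ins m hm hm' with h | h
        · exact ⟨by linarith [h.1], by linarith [h.2]⟩
        · exact absurd (h.1.trans h.2) (by linarith [d1.2])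
      · intro m hm hm'
        rcases l2.ins m hm hm' with h | h
        · exact absurd (h.1.trans h.2) (by linarith [d2.2])
        · rw [← a3] at h
          exact ⟨by linarith [h.1], by linarith [h.2]⟩
      · have := o1.1 k1
        linarith [this.1, this.2]
      · have := o2.2 k2
        linarith [this.1, this.2]
    · -- a left turn
      have d1 : ¬ (W n).k.fw ∧ (W (n + 1)).t < (W n).t := by
        rcases l1.dir with h | h
        · exact absurd h.2.1 (by rw [hk]; exact fun h => h)
        · exact ⟨h.1, h.2.2⟩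
      have d2 : (W (n + 1 + 1)).k.ar ∧ (W (n + 1)).t < (W (n + 1 + 1)).t := by
        rcases l2.dir with h | h
        · exact ⟨h.2.1, h.2.2⟩
        · exact absurd (by rw [hk]; trivial) h.1
      have k1 : (W n).k = .lt := by
        have := d1.1
        cases hh : (W n).k
        · rw [hh] at this; exact absurd trivial this
        · rfl
        · exact absurd (Or.inl hh) z1
        · exact absurd (Or.inr hh) z1
      have k2 : (W (n + 1 + 1)).k = .rt := by
        have := d2.1
        cases hh : (W (n + 1 + 1)).k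
        · rfl
        · rw [hh] at this; exact this.elim
        · exact absurd (Or.inl hh) z2
        · exact absurd (Or.inr hh) z2
      have a1 : AdjX Y (W (n + 1)).t (W n).t := by
        rcases l1.adj with h | h
        · exact absurd h.2.2.1 (by linarith [d1.2])
        · exact h
      have a2 : AdjX Y (W (n + 1)).t (W (n + 1 + 1)).t := by
        rcases l2.adj with h | h
        · exact h
        · exact absurd h.2.2.1 (by linarith [d2.2])
      have a3 := adj_left a1 a2
      have hv' : (W (n + 1)).t < P.x ((W (n + 1)).e + 1) ∧ P.x ((W (n + 1)).e + 1) < (W n).t := by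
        rcases hv with h | h
        · rw [a3]; exact h
        · exact absurd (h.1.trans h.2) (by linarith [d2.2])
      obtain ⟨b1, b2⟩ := adj_sub hXY hab a1 hv'.1 hv'.2 ha hb
      refine ⟨?_, ?_, Or.inr ⟨?_, ?_⟩⟩
      · intro m hm hm'
        rcases l1.ins m hm hm' with h | h
        · exact absurd (h.1.trans h.2) (by linarith [d1.2])
        · exact ⟨by linarith [h.1], by linarith [h.2]⟩
      · intro m hm hm'
        rcases l2.ins m hm hm' with h | h
        · rw [← a3] at h
          exact ⟨by linarith [h.1], by linarith [h.2]⟩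
        · exact absurd (h.1.trans h.2) (by linarith [d2.2])
      · have := o1.2 k1
        linarith [this.1, this.2]
      · have := o2.1 k2
        linarith [this.1, this.2]
  obtain ⟨c1, c2, c3⟩ := key
  have hp' : p ≤ (W n).e := by
    by_contra h
    have h1 := c1 p (not_le.mp h) hp
    rcases hpq.fst with h2 | h2
    · linarith [h1.1]
    · linarith [h1.2]
  have hq' : (W (n + 1 + 1)).e ≤ q := by
    by_contra h
    have h1 := c2 (q + 1) (by omega) (by omega)
    rcases hpq.lst with h2 | h2
    · linarith [h1.1]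
    · linarith [h1.2]
  have e01 : (W n).e ≤ (W (n + 1)).e := l1.le
  have m1 : (W n).e ∈ Icc p (q + 1) := ⟨hp', by omega⟩
  have m2 : (W n).e + 1 ∈ Icc p (q + 1) := ⟨by omega, by omega⟩
  have m3 : (W (n + 1 + 1)).e ∈ Icc p (q + 1) := ⟨by omega, by omega⟩
  have m4 : (W (n + 1 + 1)).e + 1 ∈ Icc p (q + 1) := ⟨by omega, by omega⟩
  rcases hgd.ty p q hpq with (h | h) | h
  · have f1 := h m1 m2 (by omega)
    have f2 := h m3 m4 (by omega)
    rcases c3 with c3 | c3
    · linarith [c3.2]
    · linarith [c3.1]
  · have f1 := h m1 m2 (by omega)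
    have f2 := h m3 m4 (by omega)
    rcases c3 with c3 | c3
    · linarith [c3.1]
    · linarith [c3.2]
  · exact h

end GYF

theorem t_GYF : Stmt_GYF := by
  intro _ hC hS N P X Y w hX hXY _ hg a b hab i hi hk ha hb
  obtain ⟨W, hW⟩ := hS.ex P Y w hg.1
  have hN := hS.pos P Y w hg.1
  obtain ⟨k, hk', hik⟩ := List.getElem_of_mem hi
  have h1 : i = W ((k : ℤ) - 1 + 1) := by
    rw [← hik, hW.get k hk', sub_add_cancel]
  rw [h1] at hk ha hb ⊢
  refine GYF.main hC hN hX hXY hW ((k : ℤ) - 1) ?_ ?_ hab hk ha hb
  · exact not_and_or.mp (GYF.noz hS hg hW ((k : ℤ) - 1))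
  · exact not_and_or.mp (GYF.noz hS hg hW ((k : ℤ) - 1 + 1))

end LH


end

section

/-!
# LWP: a short row of the wrong type for `λ⁺`
-/

namespace LH

open Set LG

theorem LWP.cyc_neg {a b c : ℝ} : cyc (-a) (-b) (-c) ↔ cyc c b a := by
  unfold cyc
  simp only [neg_lt_neg_iff]
  tauto

theorem t_LWP : Stmt_LWP := by
  intro hW c₁ r₁ c₂ r₂ B z hN hc hr
  have h1 : neg ((c₁, r₁) :: (c₂, r₂) :: (B ++ [z])) =
      (-c₁, -r₁) :: (-c₂, -r₂) :: (neg B ++ [(-z.1, -z.2)]) := by
    simp [neg]
  have hinj : Function.Injective (fun x : ℝ => -x) := neg_injective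
  have h2 : (neg ((c₁, r₁) :: (c₂, r₂) :: (B ++ [z]))).map Prod.fst =
      (((c₁, r₁) :: (c₂, r₂) :: (B ++ [z])).map Prod.fst).map (fun x : ℝ => -x) := by
    rw [neg, List.map_map, List.map_map]
    rfl
  have h3 : (neg ((c₁, r₁) :: (c₂, r₂) :: (B ++ [z]))).map Prod.snd =
      (((c₁, r₁) :: (c₂, r₂) :: (B ++ [z])).map Prod.snd).map (fun x : ℝ => -x) := by
    rw [neg, List.map_map, List.map_map]
    rfl
  have h4 := hW (-c₁) (-r₁) (-c₂) (-r₂) (neg B) (-z.1, -z.2)
  rw [← h1] at h4
  unfold VP
  refine h4 ⟨?_, ?_⟩ ?_ ?_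
  · rw [h2]
    exact hN.1.map hinj
  · rw [h3]
    exact hN.2.map hinj
  · intro d hd
    rw [h2, List.mem_map] at hd
    obtain ⟨e, he, rfl⟩ := hd
    rw [LWP.cyc_neg]
    exact hc e he
  · show cyc (-r₁) (-z.2) (-r₂)
    rw [LWP.cyc_neg, cyc_rot, cyc_rot]
    exact hr

end LH


end

section

/-!
# ZR2: removal of a zigzag, walking to the left
-/

namespace LH

open Set LG

namespace ZR2

theorem ents_cons (u : Pt) (T : List Pt) : ents (u :: T) = ent u ++ ents T := by
  simp [ents]

theorem ents_append (A B : List Pt) : ents (A ++ B) = ents A ++ ents B := by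
  simp [ents]

theorem cp_last {α : Type*} (a : α) (T : List α) (q : α) : (q, a) ∈ cp (a :: (T ++ [q])) := by
  have e : cp (a :: (T ++ [q])) = ((a :: T).zip (T ++ [q])) ++ [(q, a)] := by
    rw [cp, List.rotate_cons_succ, List.rotate_zero, ← List.cons_append, List.zip_append]
    · rfl
    · simp
  rw [e]
  simp

theorem btw_symm {a b x : Q} (h : Btw a b x) : Btw b a x := by
  rcases h with h | h
  · exact Or.inr h
  · exact Or.inl h

end ZR2

open _root_.LH.ZR2 in
/-- ZR2 -/
theorem t_ZR2 : Stmt_ZR2 := by
  intro hW hC hD hM u v q p B hw hw' hku hkv hb hc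
  have hup : (u, p) ∈ cp (v :: u :: p :: (B ++ [q])) := by
    simp [cp]
  have hqv : (q, v) ∈ cp (v :: u :: p :: (B ++ [q])) := cp_last v (u :: p :: B) q
  have sup : Stp u p := hw.st (u, p) hup
  have sqv : Stp q v := hw.st (q, v) hqv
  have hpk : p.k = .lt ∨ p.k = .L := by
    rcases sup with ⟨h, _, _⟩ | ⟨_, h, _⟩
    · rw [hku] at h
      exact absurd h (by simp [Kd.fw])
    · revert h
      cases p.k <;> simp [Kd.ar]
  have hqk : q.k = .lt ∨ q.k = .R := by
    rcases sqv with ⟨_, h, _⟩ | ⟨h, _, _⟩
    · rw [hkv] at h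
      exact absurd h (by simp [Kd.ar])
    · revert h
      cases q.k <;> simp [Kd.fw]
  -- the end of the list
  obtain ⟨B₂, g₂⟩ : ∃ B₂, ent q = B₂ ++ [Sum.inl q.c] := by
    rcases hqk with h | h
    · exact ⟨[Sum.inr q.r], by simp [ent, h]⟩
    · exact ⟨[], by simp [ent, h]⟩
  have eB : ents (B ++ [q]) = ents B ++ (B₂ ++ [Sum.inl q.c]) := by
    rw [ents_append, ← g₂]
    simp [ents]
  have hl := hw'.len
  -- the beginning of the list
  have key : ∃ c₀ B', ents (p :: (B ++ [q])) = Sum.inr p.r :: Sum.inl c₀ :: (B' ++ [Sum.inl q.c]) ∧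
      (v.r < p.r ∧ cyc q.c c₀ u.c ∨ p.r < v.r ∧ cyc c₀ q.c u.c) := by
    rcases hpk with h | h
    · refine ⟨p.c, ents B ++ B₂, ?_, hc p.c (Or.inl ⟨h, rfl⟩)⟩
      rw [ents_cons, eB]
      simp [ent, h]
    · cases B with
      | nil =>
        exfalso
        have hlast : (q, p) ∈ cp (p :: ([] ++ [q])) := cp_last p [] q
        have h1 : Stp q p := hw'.st (q, p) hlast
        have hpq : (p, q) ∈ cp (p :: ([] ++ [q])) := by simp [cp]
        have h2 : Stp p q := hw'.st (p, q) hpq
        have hqR : q.k = .R := by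
          rcases hqk with h' | h'
          · rcases h2 with ⟨_, h3, _⟩ | ⟨h3, _, _⟩
            · rw [h'] at h3
              exact absurd h3 (by simp [Kd.ar])
            · rw [h] at h3
              exact absurd trivial h3
          · exact h'
        simp [ents, ent, h, hqR] at hl
      | cons o B₁ =>
        have hpo : (p, o) ∈ cp (v :: u :: p :: (o :: B₁ ++ [q])) := by simp [cp]
        have spo : Stp p o := hw.st (p, o) hpo
        have hok : o.k = .rt ∨ o.k = .R := by
          rcases spo with ⟨_, h', _⟩ | ⟨h', _, _⟩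
          · revert h'
            cases o.k <;> simp [Kd.ar]
          · rw [h] at h'
            exact absurd trivial h'
        obtain ⟨B₃, g₃⟩ : ∃ B₃, ent o = Sum.inl o.c :: B₃ := by
          rcases hok with h' | h'
          · exact ⟨[Sum.inr o.r], by simp [ent, h']⟩
          · exact ⟨[], by simp [ent, h']⟩
        refine ⟨o.c, B₃ ++ (ents B₁ ++ B₂), ?_, hc o.c (Or.inr ⟨h, o, hpo, rfl⟩)⟩
        rw [ents_cons, eB, ents_cons, g₃]
        simp [ent, h]
  obtain ⟨c₀, B', e, hcyc⟩ := key
  have e' : ents (v :: u :: p :: (B ++ [q])) =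
      Sum.inr v.r :: Sum.inl u.c :: Sum.inr p.r :: Sum.inl c₀ :: (B' ++ [Sum.inl q.c]) := by
    rw [ents_cons, ents_cons, e]
    simp [ent, hku, hkv]
  have ha := hC.alt _ hw
  have hn := hw.nd
  have hm := hM (v :: u :: p :: (B ++ [q])) (by simp) hw.st
  rw [e'] at ha hn
  rw [e, e']
  refine hD u.c v.r q.c c₀ p.r B' ha hn ?_ hcyc
  intro c r hmk hbt
  exfalso
  rw [← e', hm] at hmk
  rcases hmk with ⟨x, y, hl, rfl, rfl⟩ | ⟨x, hx, hxk, rfl, rfl⟩
  · refine hb x ?_ (hC.kl _ hw x y hl).1 (btw_symm hbt)
    rcases hl.2 with h | h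
    · exact (List.of_mem_zip h).1
    · exact List.mem_rotate.1 (List.of_mem_zip h).2
  · refine hb x hx ?_ (btw_symm hbt)
    rcases hxk with h | h <;> rw [h] <;> decide

end LH


end

section

/-!
# ZRM: removal of one zigzag
-/

namespace LH

open Set LG

namespace ZRM

/-! ### cyclic pairs -/

theorem cp_rotate {α : Type*} (w : List α) (n : ℕ) : cp (w.rotate n) = (cp w).rotate n := by
  have h := List.zipWith_rotate_distrib (Prod.mk : α → α → α × α) w (w.rotate 1) n (by simp)
  change List.zipWith Prod.mk (w.rotate n) ((w.rotate n).rotate 1) =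
    (List.zipWith Prod.mk w (w.rotate 1)).rotate n
  rw [h, List.rotate_rotate, List.rotate_rotate, Nat.add_comm]

theorem cp_rot {α : Type*} (A B : List α) (x : α × α) : x ∈ cp (A ++ B) ↔ x ∈ cp (B ++ A) := by
  rw [← List.rotate_append_length_eq A B, cp_rotate, List.mem_rotate]

theorem zip_split {α : Type*} (z x y : α) : ∀ (w : List α) (i : α),
    (x, y) ∈ (i :: w).zip (w ++ [z]) →
    (∃ A B, i :: w = A ++ x :: y :: B) ∨ (∃ A, i :: w = A ++ [x] ∧ y = z) := by
  intro w
  induction w with
  | nil =>
    intro i h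
    simp only [List.nil_append, List.zip_cons_cons, List.zip_nil_right, List.mem_singleton,
      Prod.mk.injEq] at h
    exact Or.inr ⟨[], by simp [h.1], h.2⟩
  | cons j w ih =>
    intro i h
    rw [List.cons_append, List.zip_cons_cons, List.mem_cons] at h
    rcases h with h | h
    · rw [Prod.mk.injEq] at h
      exact Or.inl ⟨[], w, by simp [h.1, h.2]⟩
    · rcases ih j h with ⟨A, B, h⟩ | ⟨A, h, h'⟩
      · exact Or.inl ⟨i :: A, B, by rw [h]; rfl⟩
      · exact Or.inr ⟨i :: A, by rw [h]; rfl, h'⟩

theorem cp_split {α : Type*} (w : List α) (x y : α) (h : (x, y) ∈ cp w) :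
    (∃ A B, w = A ++ x :: y :: B) ∨ (∃ A, w = y :: (A ++ [x])) ∨ (w = [x] ∧ x = y) := by
  cases w with
  | nil => simp [cp] at h
  | cons i w =>
    unfold cp at h
    rw [show (i :: w).rotate 1 = w ++ [i] by simp] at h
    rcases zip_split i x y w i h with h | ⟨A, h, h'⟩
    · exact Or.inl h
    · subst h'
      cases A with
      | nil =>
        simp only [List.nil_append, List.cons.injEq] at h
        exact Or.inr (Or.inr ⟨by rw [h.1, h.2], h.1.symm⟩)
      | cons a A =>
        simp only [List.cons_append, List.cons.injEq] at h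
        exact Or.inr (Or.inl ⟨A, by rw [h.2]⟩)

theorem cp_get {α : Type*} (w : List α) (x y : α) (h : (x, y) ∈ cp w) :
    ∃ (k : ℕ) (hk : k < w.length), w[k] = x ∧ (w.rotate 1)[k]'(by simpa using hk) = y := by
  unfold cp at h
  obtain ⟨k, hk, e⟩ := List.mem_iff_getElem.1 h
  rw [List.getElem_zip, Prod.mk.injEq] at e
  have hk' : k < w.length := by
    rw [List.length_zip] at hk; exact lt_of_lt_of_le hk (min_le_left _ _)
  exact ⟨k, hk', e.1, e.2⟩

theorem cp_pred {α : Type*} (w : List α) (hn : w.Nodup) {x y z : α} (h : (x, z) ∈ cp w)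
    (h' : (y, z) ∈ cp w) : x = y := by
  obtain ⟨k, hk, e1, e2⟩ := cp_get w x z h
  obtain ⟨j, hj, f1, f2⟩ := cp_get w y z h'
  have hr : (w.rotate 1).Nodup := List.nodup_rotate.2 hn
  have : k = j := (hr.getElem_inj_iff).1 (e2.trans f2.symm)
  subst this
  exact e1.symm.trans f1

theorem cp_succ {α : Type*} (w : List α) (hn : w.Nodup) {x y z : α} (h : (z, x) ∈ cp w)
    (h' : (z, y) ∈ cp w) : x = y := by
  obtain ⟨k, hk, e1, e2⟩ := cp_get w z x h
  obtain ⟨j, hj, f1, f2⟩ := cp_get w z y h'
  have : k = j := (hn.getElem_inj_iff).1 (e1.trans f1.symm)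
  subst this
  exact e2.symm.trans f2

/-! ### shifts and rotations -/

variable {N : ℕ}

theorem l_sh (hB : P_PGB) (P : Pg N) (e k : ℤ) (t : ℝ) : P.l (e + k * N) t = P.l e t :=
  (hB.sh P e k).2.2.2 t

theorem pt_sh (hB : P_PGB) (P : Pg N) (i : It) : pt P (i.sh N) = pt P i := by
  have h := l_sh hB P i.e 1 i.t
  rw [one_mul] at h
  unfold pt It.sh
  rw [Pt.mk.injEq]
  exact ⟨rfl, rfl, h⟩

theorem map_pt_sh (hB : P_PGB) (P : Pg N) (A : List It) :
    (A.map (It.sh N)).map (pt P) = A.map (pt P) := by
  rw [List.map_map]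
  exact List.map_congr_left fun i _ => pt_sh hB P i

/-- The three properties. -/
structure Qw (P : Pg N) (X : Finset ℝ) (w : List It) : Prop where
  ew : EW P X w
  yx : YX P X w
  cw : CW (w.map (pt P))

theorem ew_rot (hS : P_SEQ) (P : Pg N) (X : Finset ℝ) : ∀ (A B : List It), EW P X (A ++ B) →
    EW P X (B ++ A.map (It.sh N)) := by
  intro A
  induction A with
  | nil => intro B h; simpa using h
  | cons i A ih =>
    intro B h
    have h1 := hS.rot P X i (A ++ B) h
    rw [List.append_assoc] at h1
    have h2 := ih (B ++ [i.sh N]) h1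
    simpa using h2

theorem ym_sh (hB : P_PGB) (P : Pg N) (p q k : ℤ) (h : YM P p q) :
    YM P (p + k * N) (q + k * N) := by
  have e : ∀ i, P.y (i - k * N) = P.y i := by
    intro i
    have := (hB.sh P (i - k * N) k).2.1
    rw [sub_add_cancel] at this
    exact this.symm
  have m : ∀ i ∈ Icc (p + k * N) (q + k * N), i - k * N ∈ Icc p q := by
    intro i hi; rw [mem_Icc] at *; constructor <;> linarith [hi.1, hi.2]
  rcases h with h | h
  · left
    intro i hi j hj hij
    have := h (m i hi) (m j hj) (by linarith)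
    rwa [e, e] at this
  · right
    intro i hi j hj hij
    have := h (m i hi) (m j hj) (by linarith)
    rwa [e, e] at this

theorem yf_sh (hB : P_PGB) (hC : P_CMP) (P : Pg N) (a b : ℝ) (i : It)
    (h : (i.k = .R ∨ i.k = .L) → a < P.x (i.e + 1) → P.x (i.e + 1) < b →
      ∃ p q, Comp P a b p q ∧ p ≤ i.e ∧ i.e ≤ q ∧ YM P p q) :
    ((i.sh N).k = .R ∨ (i.sh N).k = .L) → a < P.x ((i.sh N).e + 1) → P.x ((i.sh N).e + 1) < b →
      ∃ p q, Comp P a b p q ∧ p ≤ (i.sh N).e ∧ (i.sh N).e ≤ q ∧ YM P p q := by
  intro h1 h2 h3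
  have e : (i.sh N).e + 1 = (i.e + 1) + 1 * N := by
    change i.e + N + 1 = _
    ring
  have e2 : P.x ((i.sh N).e + 1) = P.x (i.e + 1) := by rw [e]; exact (hB.sh P (i.e + 1) 1).1
  rw [e2] at h2 h3
  obtain ⟨p, q, g1, g2, g3, g4⟩ := h h1 h2 h3
  refine ⟨p + 1 * N, q + 1 * N, hC.sh P a b p q 1 g1, ?_, ?_, ym_sh hB P p q 1 g4⟩
  · change p + 1 * N ≤ i.e + N
    linarith
  · change i.e + N ≤ q + 1 * N
    linarith

theorem yx_rot (hB : P_PGB) (hC : P_CMP) (P : Pg N) (X : Finset ℝ) (A B : List It)
    (h : YX P X (A ++ B)) : YX P X (B ++ A.map (It.sh N)) := by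
  intro a b hab i hi
  rw [List.mem_append] at hi
  rcases hi with hi | hi
  · exact h a b hab i (List.mem_append.2 (Or.inr hi))
  · obtain ⟨j, hj, rfl⟩ := List.mem_map.1 hi
    exact yf_sh hB hC P a b j (h a b hab j (List.mem_append.2 (Or.inl hj)))

theorem qw_rot (hB : P_PGB) (hC : P_CMP) (hS : P_SEQ) (hA : P_CWA) (P : Pg N)
    (X : Finset ℝ) (A B : List It) (h : Qw P X (A ++ B)) :
    Qw P X (B ++ A.map (It.sh N)) ∧ WE (lst P (A ++ B)) (lst P (B ++ A.map (It.sh N))) := by
  have h1 := h.cw
  rw [List.map_append] at h1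
  obtain ⟨h2, h3⟩ := hA.rot _ _ h1
  refine ⟨⟨ew_rot hS P X A B h.ew, yx_rot hB hC P X A B h.yx, ?_⟩, ?_⟩
  · rw [List.map_append, map_pt_sh hB]; exact h2
  · unfold lst
    rw [List.map_append, List.map_append, map_pt_sh hB]; exact h3

theorem zig (hB : P_PGB) (hC : P_CMP) (hS : P_SEQ) (hA : P_CWA) (P : Pg N)
    (X : Finset ℝ) (w : List It) (h : Qw P X w) (hz : ¬ GW P X w) :
    ∃ D u v, Qw P X (D ++ [u, v]) ∧ (D ++ [u, v]).length = w.length ∧
      WE (lst P w) (lst P (D ++ [u, v])) ∧ (u.k = .R ∨ u.k = .L) ∧ (v.k = .R ∨ v.k = .L) := by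
  have h1 : ∃ x ∈ cp w, (x.1.k = .R ∨ x.1.k = .L) ∧ (x.2.k = .R ∨ x.2.k = .L) := by
    by_contra hne
    apply hz
    refine ⟨h.ew, fun x hx hk => hne ⟨x, hx, hk⟩⟩
  obtain ⟨⟨u, v⟩, hx, hu, hv⟩ := h1
  rcases cp_split w u v hx with ⟨A, B, e⟩ | ⟨A, e⟩ | ⟨e, e'⟩
  · subst e
    have e1 : A ++ u :: v :: B = (A ++ [u, v]) ++ B := by simp
    rw [e1] at h
    obtain ⟨h2, h3⟩ := qw_rot hB hC hS hA P X (A ++ [u, v]) B h
    have e2 : B ++ (A ++ [u, v]).map (It.sh N) = (B ++ A.map (It.sh N)) ++ [u.sh N, v.sh N] := by
      simp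
    rw [e2] at h2 h3
    refine ⟨B ++ A.map (It.sh N), u.sh N, v.sh N, h2, ?_, ?_, hu, hv⟩
    · simp; omega
    · rw [e1]; exact h3
  · subst e
    have e1 : v :: (A ++ [u]) = [v] ++ (A ++ [u]) := by simp
    rw [e1] at h
    obtain ⟨h2, h3⟩ := qw_rot hB hC hS hA P X [v] (A ++ [u]) h
    have e2 : (A ++ [u]) ++ [v].map (It.sh N) = A ++ [u, v.sh N] := by simp
    rw [e2] at h2 h3
    exact ⟨A, u, v.sh N, h2, by simp, by rw [e1]; exact h3, hu, hv⟩
  · exfalso
    subst e'
    obtain ⟨i, w', g1, -, g2⟩ := h.ew
    rw [e] at g1 g2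
    simp only [List.cons.injEq] at g1
    rw [← g1.1] at g2
    simp only [List.cons_append, List.nil_append, List.isChain_cons_cons] at g2
    have g3 := g2.1.dir
    have e1 : (u.sh N).k = u.k := rfl
    rw [e1] at g3
    rcases hu with hu | hu <;> rw [hu] at g3 <;> simp [Kd.fw, Kd.ar] at g3

/-! ### geometry -/

theorem adj_r {X : Finset ℝ} {a b b' : ℝ} (h : AdjX X a b) (h' : AdjX X a b') : b' = b := by
  obtain ⟨-, h2, h3, h4⟩ := h
  obtain ⟨-, g2, g3, g4⟩ := h'
  rcases lt_trichotomy b b' with hb | hb | hb
  · exact absurd ⟨h3, hb⟩ (g4 b h2)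
  · exact hb.symm
  · exact absurd ⟨g3, hb⟩ (h4 b' g2)

theorem adj_l {X : Finset ℝ} {a a' b : ℝ} (h : AdjX X a b) (h' : AdjX X a' b) : a' = a := by
  obtain ⟨h1, -, h3, h4⟩ := h
  obtain ⟨g1, -, g3, g4⟩ := h'
  rcases lt_trichotomy a a' with hb | hb | hb
  · exact absurd ⟨hb, g3⟩ (h4 a' g1)
  · exact hb.symm
  · exact absurd ⟨hb, h3⟩ (g4 a h1)

/-- A link to the right. -/
theorem lnk_r {P : Pg N} {X : Finset ℝ} {i j : It} (h : Lnk P X i j) (hk : i.k.fw ∨ j.k.ar) :
    i.k.fw ∧ j.k.ar ∧ AdjX X i.t j.t := by
  rcases h.dir with ⟨h1, h2, h3⟩ | ⟨h1, h2, h3⟩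
  · refine ⟨h1, h2, ?_⟩
    rcases h.adj with h4 | h4
    · exact h4
    · exact absurd h4.2.2.1 (not_lt.2 h3.le)
  · rcases hk with hk | hk
    · exact absurd hk h1
    · exact absurd hk h2

/-- A link to the left. -/
theorem lnk_l {P : Pg N} {X : Finset ℝ} {i j : It} (h : Lnk P X i j) (hk : ¬ i.k.fw ∨ ¬ j.k.ar) :
    ¬ i.k.fw ∧ ¬ j.k.ar ∧ AdjX X j.t i.t := by
  rcases h.dir with ⟨h1, h2, h3⟩ | ⟨h1, h2, h3⟩
  · rcases hk with hk | hk
    · exact absurd h1 hk
    · exact absurd h2 hk
  · refine ⟨h1, h2, ?_⟩
    rcases h.adj with h4 | h4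
    · exact absurd h4.2.2.1 (not_lt.2 h3.le)
    · exact h4

theorem lnk_ins {P : Pg N} {X : Finset ℝ} {i j : It} (h : Lnk P X i j) {a b : ℝ} (hab : a < b)
    (ht : i.t = a ∧ j.t = b ∨ i.t = b ∧ j.t = a) :
    ∀ m, i.e < m → m ≤ j.e → a < P.x m ∧ P.x m < b := by
  intro m h1 h2
  have h3 := h.ins m h1 h2
  rcases ht with ⟨e1, e2⟩ | ⟨e1, e2⟩ <;> rw [e1, e2] at h3 <;> rcases h3 with h3 | h3
  · exact h3
  · exact absurd (h3.1.trans h3.2) (not_lt.2 hab.le)
  · exact absurd (h3.1.trans h3.2) (not_lt.2 hab.le)
  · exact h3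

theorem rng {P : Pg N} {a b : ℝ} {p q i j e : ℤ} (hc : Comp P a b p q) (he : p ≤ e)
    (he' : e ≤ q) (hi : i ≤ e) (hj : e ≤ j)
    (hin : ∀ m, i < m → m ≤ j → a < P.x m ∧ P.x m < b) : p ≤ i ∧ j ≤ q := by
  constructor
  · by_contra h
    have h1 := hin p (not_le.1 h) (he.trans hj)
    rcases hc.fst with h2 | h2
    · exact absurd h1.1 (not_lt.2 h2.le)
    · exact absurd h1.2 (not_lt.2 h2.le)
  · by_contra h
    have h1 := hin (q + 1) (by omega) (by omega)
    rcases hc.lst with h2 | h2
    · exact absurd h1.1 (not_lt.2 h2.le)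
    · exact absurd h1.2 (not_lt.2 h2.le)

/-- The heights at the two lines are strictly monotone in the edge. -/
def Inc (P : Pg N) (a b : ℝ) (p q : ℤ) : Prop :=
  ∀ i j, p ≤ i → i < j → j ≤ q → P.l j a < P.l i a ∧ P.l i b < P.l j b

/-- The same for decreasing slopes. -/
def Dec (P : Pg N) (a b : ℝ) (p q : ℤ) : Prop :=
  ∀ i j, p ≤ i → i < j → j ≤ q → P.l i a < P.l j a ∧ P.l j b < P.l i b

theorem hts (hB : P_PGB) {P : Pg N} {a b : ℝ} {p q : ℤ} (hc : Comp P a b p q) (hy : YM P p q) :
    Inc P a b p q ∨ Dec P a b p q := by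
  rcases hy with hy | hy
  · left
    intro i j h1 h2 h3
    have hs : Icc i j ⊆ Icc p q := Icc_subset_Icc h1 h3
    have hin : ∀ m, i < m → m ≤ j → a < P.x m ∧ P.x m < b := fun m g1 g2 =>
      hc.ins m (by omega) (by omega)
    exact ⟨hB.m2 P i j a h2 (hy.mono hs) fun m g1 g2 => (hin m g1 g2).1,
      hB.m1 P i j b h2 (hy.mono hs) fun m g1 g2 => (hin m g1 g2).2⟩
  · right
    intro i j h1 h2 h3
    have hs : Icc i j ⊆ Icc p q := Icc_subset_Icc h1 h3
    have hin : ∀ m, i < m → m ≤ j → a < P.x m ∧ P.x m < b := fun m g1 g2 =>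
      hc.ins m (by omega) (by omega)
    exact ⟨hB.m4 P i j a h2 (hy.mono hs) fun m g1 g2 => (hin m g1 g2).1,
      hB.m3 P i j b h2 (hy.mono hs) fun m g1 g2 => (hin m g1 g2).2⟩

theorem sq_sh {P : Pg N} {X : Finset ℝ} {w : List It} {W : ℤ → It} (hW : Sq P X w W) (n c : ℤ) :
    (W (n + c * w.length)).k = (W n).k ∧ (W (n + c * w.length)).t = (W n).t ∧
      (W (n + c * w.length)).e = (W n).e + c * N := by
  have hs : ∀ n, (W (n + w.length)).k = (W n).k ∧ (W (n + w.length)).t = (W n).t ∧
      (W (n + w.length)).e = (W n).e + N := by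
    intro n; rw [hW.per n]; exact ⟨rfl, rfl, rfl⟩
  induction c using Int.induction_on generalizing n with
  | zero => simp
  | succ c ih =>
    have e : n + ((c : ℤ) + 1) * w.length = (n + (c : ℤ) * w.length) + w.length := by ring
    obtain ⟨h1, h2, h3⟩ := hs (n + (c : ℤ) * w.length)
    obtain ⟨g1, g2, g3⟩ := ih n
    rw [e, h1, h2, h3, g1, g2, g3]
    exact ⟨rfl, rfl, by ring⟩
  | pred c ih =>
    obtain ⟨h1, h2, h3⟩ := hs (n + (-(c : ℤ) - 1) * w.length)
    have e : n + (-(c : ℤ) - 1) * w.length + w.length = n + (-(c : ℤ)) * w.length := by ring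
    rw [e] at h1 h2 h3
    obtain ⟨g1, g2, g3⟩ := ih n
    rw [g1] at h1
    rw [g2] at h2
    rw [g3] at h3
    exact ⟨h1.symm, h2.symm, by linarith⟩

theorem mts {P : Pg N} {X : Finset ℝ} {w : List It} {W : ℤ → It} (hW : Sq P X w W) {a b : ℝ}
    (hab : AdjX X a b) (k : ℤ) (ht : (W k).t = a) (hk : (W k).k ≠ .R) : Mts P a b (W k).e := by
  have hlt := hab.2.2.1
  have hok := hW.ok k
  unfold ItOK at hok
  rw [ht] at hok
  have hcases : (W k).k = .rt ∨ (W k).k = .lt ∨ (W k).k = .L := by
    cases hh : (W k).k
    · exact Or.inl rfl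
    · exact Or.inr (Or.inl rfl)
    · exact absurd hh hk
    · exact Or.inr (Or.inr rfl)
  rcases hcases with h | h | h
  · obtain ⟨h1, h2⟩ := hok.1 h
    exact ⟨fun g => absurd g.2 (not_lt.2 h2.le), fun g => by linarith [g.1]⟩
  · obtain ⟨h1, h2⟩ := hok.2 h
    exact ⟨fun g => absurd g.1 (not_lt.2 h2.le), fun g => by linarith [g.2]⟩
  · have hl := hW.lnk k
    have h1 := hl.tl (Or.inr h)
    obtain ⟨-, -, h2⟩ := lnk_r hl (Or.inl (by rw [h]; trivial))
    rw [ht] at h2
    have h3 := adj_r hab h2
    have h4 := lnk_ins hl hlt (Or.inl ⟨ht, h3⟩) ((W k).e + 1) (by omega) (by omega)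
    exact ⟨fun g => absurd g.2 (not_lt.2 h4.1.le), fun g => absurd g.2 (not_lt.2 h4.2.le)⟩

theorem lex_btw {a h1 h2 t h : ℝ} (g1 : -a < -t ∨ -a = -t ∧ h1 < h)
    (g2 : -t < -a ∨ -t = -a ∧ h < h2) : t = a ∧ h1 < h ∧ h < h2 := by
  rcases g1 with g1 | ⟨e1, g1⟩ <;> rcases g2 with g2 | ⟨e2, g2⟩
  · linarith
  · linarith
  · linarith
  · exact ⟨by linarith, g1, g2⟩

theorem btw_r {p q x : Pt} {a : ℝ} (hp : p.t = a) (hq : q.t = a) (h : Btw p.r q.r x.r) :
    x.t = a ∧ (p.h < x.h ∧ x.h < q.h ∨ q.h < x.h ∧ x.h < p.h) := by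
  unfold Btw Pt.r at h
  simp only [Prod.Lex.toLex_lt_toLex, hp, hq] at h
  rcases h with ⟨g1, g2⟩ | ⟨g1, g2⟩
  · obtain ⟨e, g3⟩ := lex_btw g1 g2
    exact ⟨e, Or.inl g3⟩
  · obtain ⟨e, g3⟩ := lex_btw g1 g2
    exact ⟨e, Or.inr g3⟩

/-- No row strictly between the rows of the items `n` and `n + 2` on the line `a`. -/
theorem rows (hB : P_PGB) (hC : P_CMP) (hS : P_SEQ) {P : Pg N} {X : Finset ℝ} {w : List It}
    {W : ℤ → It} (hX : GoodX P X) (hN : 0 < N) (hW : Sq P X w W) {a b : ℝ} {p q : ℤ}
    (hab : AdjX X a b) (hc : Comp P a b p q) (hy : YM P p q) (n : ℤ) (h1 : (W n).t = a)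
    (h2 : (W (n + 1)).t ≠ a) (h3 : (W (n + 2)).t = a) (h4 : p ≤ (W n).e)
    (h5 : (W (n + 2)).e ≤ q) : ∀ x ∈ w.map (pt P), x.k ≠ .R →
      ¬ Btw (pt P (W n)).r (pt P (W (n + 2))).r x.r := by
  intro x hx hk hb
  have hg := hX.gd a b hab
  have hmo := hS.mo P X w W hW
  have hnn := hmo n (n + 2) (by omega)
  obtain ⟨i, hi, rfl⟩ := List.mem_map.1 hx
  obtain ⟨k, hk1, hk2⟩ := List.mem_iff_getElem.1 hi
  rw [hW.get k hk1] at hk2
  subst hk2
  obtain ⟨ht, hh⟩ := btw_r (a := a) h1 h3 hb
  change (W k).t = a at ht
  change P.l (W n).e (W n).t < P.l (W k).e (W k).t ∧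
    P.l (W k).e (W k).t < P.l (W (n + 2)).e (W (n + 2)).t ∨
    P.l (W (n + 2)).e (W (n + 2)).t < P.l (W k).e (W k).t ∧
    P.l (W k).e (W k).t < P.l (W n).e (W n).t at hh
  rw [h1, h3, ht] at hh
  obtain ⟨p', q', g1, g2, g3⟩ := hC.ex P a b hN hg (W k).e (mts hW hab k ht hk)
  rcases hC.sep P a b p q p' q' hN hg hc g1 with ⟨c, e1, e2⟩ | ⟨g4, -⟩
  · -- the same component
    obtain ⟨s1, s2, s3⟩ := sq_sh hW ((k : ℤ) - c * w.length) c
    rw [sub_add_cancel] at s1 s2 s3
    set m := (k : ℤ) - c * w.length with hm
    have e3 : P.l (W k).e a = P.l (W m).e a := by rw [s3]; exact l_sh hB P _ c a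
    rw [e3] at hh
    have g5 : p ≤ (W m).e := by rw [e1, s3] at g2; linarith
    have g6 : (W m).e ≤ q := by rw [e2, s3] at g3; linarith
    have g7 : (W m).t = a := s2.symm.trans ht
    have g8 : (W m).e ≤ (W n).e ∨ (W (n + 2)).e ≤ (W m).e := by
      rcases lt_trichotomy m (n + 1) with hmn | hmn | hmn
      · exact Or.inl (hmo m n (by omega))
      · exact absurd (hmn ▸ g7) h2
      · exact Or.inr (hmo (n + 2) m (by omega))
    rcases hts hB hc hy with hI | hI
    · have hle : ∀ i j, p ≤ i → i ≤ j → j ≤ q → P.l j a ≤ P.l i a := by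
        intro i j r1 r2 r3
        rcases r2.eq_or_lt with r2 | r2
        · rw [r2]
        · exact (hI i j r1 r2 r3).1.le
      have t1 := hle _ _ h4 hnn h5
      rcases g8 with g8 | g8
      · have t2 := hle _ _ g5 g8 (hnn.trans h5)
        rcases hh with hh | hh <;> linarith [hh.1, hh.2]
      · have t2 := hle _ _ (h4.trans hnn) g8 g6
        rcases hh with hh | hh <;> linarith [hh.1, hh.2]
    · have hle : ∀ i j, p ≤ i → i ≤ j → j ≤ q → P.l i a ≤ P.l j a := by
        intro i j r1 r2 r3
        rcases r2.eq_or_lt with r2 | r2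
        · rw [r2]
        · exact (hI i j r1 r2 r3).1.le
      have t1 := hle _ _ h4 hnn h5
      rcases g8 with g8 | g8
      · have t2 := hle _ _ g5 g8 (hnn.trans h5)
        rcases hh with hh | hh <;> linarith [hh.1, hh.2]
      · have t2 := hle _ _ (h4.trans hnn) g8 g6
        rcases hh with hh | hh <;> linarith [hh.1, hh.2]
  · -- different components
    have m1 : (W n).e ∈ Icc p q := ⟨h4, hnn.trans h5⟩
    have m2 : (W (n + 2)).e ∈ Icc p q := ⟨h4.trans hnn, h5⟩
    have m3 : (W k).e ∈ Icc p' q' := ⟨g2, g3⟩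
    rcases g4 with g4 | g4
    · have t1 := g4 _ m1 _ m3
      have t2 := g4 _ m2 _ m3
      rcases hh with hh | hh <;> linarith [hh.1, hh.2]
    · have t1 := g4 _ m1 _ m3
      have t2 := g4 _ m2 _ m3
      rcases hh with hh | hh <;> linarith [hh.1, hh.2]

/-! ### removal -/

theorem cw_of_ew (hS : P_SEQ) (hLn : P_LEN) {P : Pg N} {X : Finset ℝ} (hX : GoodX P X)
    {w : List It} (h : EW P X w) (hn : (ents (w.map (pt P))).Nodup) : CW (w.map (pt P)) := by
  refine ⟨hn, ?_, hLn P X X w hX (Finset.Subset.refl X) h⟩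
  obtain ⟨W, hW⟩ := hS.ex P X w h
  intro x hx
  obtain ⟨n, rfl⟩ := (hS.cp P X w W hW x).1 hx
  exact (hW.lnk n).dir

theorem qw_del (hS : P_SEQ) (hLn : P_LEN) {P : Pg N} {X : Finset ℝ} (hX : GoodX P X)
    (d : It) (D : List It) (l u v : It) (h : Qw P X ((d :: (D ++ [l])) ++ [u, v]))
    (hl : Lnk P X l (d.sh N)) : Qw P X (d :: (D ++ [l])) := by
  have hsub : ∀ i ∈ d :: (D ++ [l]), i ∈ (d :: (D ++ [l])) ++ [u, v] := fun i hi =>
    List.mem_append.2 (Or.inl hi)
  have hew : EW P X (d :: (D ++ [l])) := by
    obtain ⟨i, w', -, g2, g3⟩ := h.ew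
    refine ⟨d, D ++ [l], rfl, fun j hj => g2 j (hsub j hj), ?_⟩
    have g4 := g3.left_of_append.left_of_append
    rw [List.isChain_append]
    refine ⟨g4, List.isChain_singleton _, ?_⟩
    intro x hx y hy
    have e : d :: (D ++ [l]) = (d :: D) ++ [l] := rfl
    rw [e, List.getLast?_append] at hx
    simp at hx hy
    rw [← hx, ← hy]
    exact hl
  refine ⟨hew, fun a b hab i hi => h.yx a b hab i (hsub i hi), cw_of_ew hS hLn hX hew ?_⟩
  have h1 := h.cw.nd
  rw [List.map_append] at h1
  unfold ents at h1 ⊢
  rw [List.flatMap_append] at h1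
  exact h1.of_append_left

theorem getW {P : Pg N} {X : Finset ℝ} {d l u v : It} {D : List It} {W : ℤ → It}
    (hW : Sq P X ((d :: (D ++ [l])) ++ [u, v]) W) :
    W ((D.length : ℤ) + 1) = l ∧ W ((D.length : ℤ) + 2) = u ∧ W ((D.length : ℤ) + 3) = v ∧
      W ((D.length : ℤ) + 4) = d.sh N := by
  have e : (d :: (D ++ [l])) ++ [u, v] = d :: (D ++ [l, u, v]) := by simp
  have hlen : ((d :: (D ++ [l])) ++ [u, v]).length = D.length + 4 := by simp
  have h0 := hW.get 0 (by omega)
  have h1 := hW.get (D.length + 1) (by omega)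
  have h2 := hW.get (D.length + 2) (by omega)
  have h3 := hW.get (D.length + 3) (by omega)
  have h4 := hW.per 0
  rw [hlen] at h4
  simp at h0 h1 h2 h3 h4
  refine ⟨h1.symm, ?_, ?_, ?_⟩
  · rw [← h2]
  · rw [← h3]
  · rw [h4, h0]

theorem cc_lt {p q : Pt} (h : p.t < q.t ∨ p.t = q.t ∧ p.h < q.h) : p.c < q.c := by
  unfold Pt.c
  rw [Prod.Lex.toLex_lt_toLex]
  exact h

theorem rr_lt {p q : Pt} (h : p.t = q.t) (h' : p.h < q.h) : p.r < q.r := by
  unfold Pt.r
  rw [Prod.Lex.toLex_lt_toLex]
  exact Or.inr ⟨by simp only [h], h'⟩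

theorem btw_symm {α : Type*} [LT α] {a b x : α} (h : Btw a b x) : Btw b a x := Or.symm h

/-- The zigzag `R`, `L`. -/
theorem case1 (hB : P_PGB) (hC : P_CMP) (hS : P_SEQ) (hA : P_CWA) (hW' : P_WEB) (hZ : P_ZR1)
    (hLn : P_LEN) {P : Pg N} {X : Finset ℝ} (hX : GoodX P X) (hN : 0 < N)
    (d : It) (D : List It) (l u v : It) (h : Qw P X ((d :: (D ++ [l])) ++ [u, v]))
    (hu : u.k = .R) (hv : v.k = .L) :
    Qw P X (d :: (D ++ [l])) ∧
      WE (lst P ((d :: (D ++ [l])) ++ [u, v])) (lst P (d :: (D ++ [l]))) := by
  obtain ⟨W, hW⟩ := hS.ex P X _ h.ew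
  obtain ⟨w1, w2, w3, w4⟩ := getW hW
  set n : ℤ := (D.length : ℤ) + 1 with hn
  have w2' : W (n + 1) = u := by rw [← w2]; congr 1
  have w3' : W (n + 2) = v := by rw [← w3]; congr 1
  have w4' : W (n + 3) = d.sh N := by rw [← w4]; congr 1
  have l1 := hW.lnk n
  rw [w1, w2'] at l1
  have l2 := hW.lnk (n + 1)
  rw [show n + 1 + 1 = n + 2 by ring, w2', w3'] at l2
  have l3 := hW.lnk (n + 2)
  rw [show n + 2 + 1 = n + 3 by ring, w3', w4'] at l3
  obtain ⟨-, -, hab⟩ := lnk_l l2 (Or.inl (by rw [hu]; exact fun h => h))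
  obtain ⟨k1, -, b1⟩ := lnk_r l1 (Or.inr (by rw [hu]; trivial))
  obtain ⟨-, k3, b3⟩ := lnk_r l3 (Or.inl (by rw [hv]; trivial))
  have tl := adj_l hab b1
  have td : (d.sh N).t = u.t := adj_r hab b3
  have hlt := hab.2.2.1
  have i1 := lnk_ins l1 hlt (Or.inl ⟨tl, rfl⟩)
  have i2 := lnk_ins l2 hlt (Or.inr ⟨rfl, rfl⟩)
  have i3 := lnk_ins l3 hlt (Or.inl ⟨rfl, td⟩)
  have e1 := l1.le
  have e2 := l2.tl (Or.inl hu)
  have e3 := l3.tl (Or.inr hv)
  have hins : ∀ m, l.e < m → m ≤ (d.sh N).e → v.t < P.x m ∧ P.x m < u.t := by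
    intro m h1 h2
    by_cases c1 : m ≤ u.e
    · exact i1 m h1 c1
    · by_cases c2 : m ≤ v.e
      · exact i2 m (by omega) c2
      · exact i3 m (by omega) h2
  have hl : Lnk P X l (d.sh N) := by
    refine ⟨by omega, fun _ => by omega, Or.inl (by rw [tl, td]; exact hab), ?_,
      Or.inl ⟨k1, k3, by rw [tl, td]; exact hlt⟩⟩
    intro m h1 h2
    rw [tl, td]
    exact Or.inl (hins m h1 h2)
  have hq := qw_del hS hLn hX d D l u v h hl
  refine ⟨hq, ?_⟩
  have um : u ∈ (d :: (D ++ [l])) ++ [u, v] := by simp
  have i2' := i2 (u.e + 1) (by omega) (by omega)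
  obtain ⟨p, q, hc, hp, hq', hy⟩ := h.yx v.t u.t hab u um (Or.inl hu) i2'.1 i2'.2
  obtain ⟨r1, r2⟩ := rng hc hp hq' (i := l.e) (j := (d.sh N).e) e1 (by omega) hins
  have hcw := h.cw
  rw [List.map_append] at hcw
  obtain ⟨hcw1, hwe1⟩ := hA.rot _ _ hcw
  have eq1 : [u, v].map (pt P) ++ (d :: (D ++ [l])).map (pt P) =
    pt P u :: pt P v :: pt P d :: (D.map (pt P) ++ [pt P l]) := by simp
  have eq2 : (d :: (D ++ [l])).map (pt P) = pt P d :: (D.map (pt P) ++ [pt P l]) := by simp
  rw [eq1] at hcw1 hwe1
  have hcw2 := hq.cw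
  rw [eq2] at hcw2
  have pd : pt P d = pt P (d.sh N) := (pt_sh hB P d).symm
  have hmem : ∀ x, x ∈ pt P u :: pt P v :: pt P d :: (D.map (pt P) ++ [pt P l]) →
      x ∈ ((d :: (D ++ [l])) ++ [u, v]).map (pt P) := by
    intro x hx
    rw [← eq1, List.mem_append] at hx
    rw [List.map_append, List.mem_append]
    exact hx.symm
  have hrows := rows hB hC hS hX hN hW hab hc hy n (by rw [w1]; exact tl)
    (by rw [w2']; exact hlt.ne') (by rw [w3']) (by rw [w1]; exact r1) (by rw [w3']; omega)
  rw [w1, w3'] at hrows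
  have hlast : ∀ c₀ : Q, ((pt P l).k = .rt ∧ c₀ = (pt P l).c ∨ (pt P l).k = .L ∧
      ∃ o, (o, pt P l) ∈ cp (pt P u :: pt P v :: pt P d :: (D.map (pt P) ++ [pt P l])) ∧
        c₀ = o.c) → c₀ = (pt P l).c ∨ ∃ e, p ≤ e ∧ e < u.e ∧ c₀ = (Pt.mk .R u.t (P.l e u.t)).c := by
    intro c₀ h0
    rcases h0 with ⟨-, h0⟩ | ⟨h0, o, h1, h2⟩
    · exact Or.inl h0
    · right
      rw [← eq1, cp_rot, ← List.map_append] at h1
      have h3 := (hS.cp P X _ W hW (pt P (W (n - 1)), pt P (W (n - 1 + 1)))).2 ⟨n - 1, rfl⟩
      rw [sub_add_cancel, w1] at h3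
      have h4 := cp_pred _ (hA.nd _ h.cw) h1 h3
      have l0 := hW.lnk (n - 1)
      rw [sub_add_cancel, w1] at l0
      change l.k = .L at h0
      obtain ⟨-, -, b0⟩ := lnk_l l0 (Or.inr (by rw [h0]; exact fun h => h))
      rw [tl] at b0
      have t0 := adj_r hab b0
      have i0 := lnk_ins l0 hlt (Or.inr ⟨t0, tl⟩)
      have e0 := l0.le
      have e1' := l1.tl (Or.inr h0)
      obtain ⟨r3, -⟩ := rng hc hp hq' (i := (W (n - 1)).e) (j := u.e) (by omega) le_rfl
        (fun m g1 g2 => by
          by_cases c : m ≤ l.e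
          · exact i0 m g1 c
          · exact i1 m (by omega) g2)
      refine ⟨(W (n - 1)).e, r3, by omega, ?_⟩
      rw [h2, h4]
      unfold Pt.c pt
      simp only [t0]
  have key := hZ (pt P u) (pt P v) (pt P d) (pt P l) (D.map (pt P)) hcw1 hcw2 hu hv
    (fun x hx hk => hrows x (hmem x hx) hk) ?_
  · unfold lst
    rw [List.map_append, eq2]
    rw [eq2] at hwe1
    exact hW'.trans _ _ _ hwe1 key
  · intro c₀ h0
    have hc0 := hlast c₀ h0
    rw [pd]
    have htd : (pt P (d.sh N)).t = u.t := td
    have htl : (pt P l).t = v.t := tl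
    rcases hts hB hc hy with hI | hI
    · left
      refine ⟨rr_lt htl.symm ?_, Or.inr (Or.inl ⟨?_, cc_lt (Or.inr ⟨htd.symm, ?_⟩)⟩)⟩
      · change P.l v.e v.t < P.l l.e l.t
        rw [tl]
        exact (hI l.e v.e r1 (by omega) (by omega)).1
      · rcases hc0 with hc0 | ⟨e, g1, g2, g3⟩
        · rw [hc0]; exact cc_lt (Or.inl (by rw [htl]; exact hlt))
        · rw [g3]
          exact cc_lt (Or.inr ⟨rfl, (hI e u.e g1 g2 hq').2⟩)
      · change P.l u.e u.t < P.l (d.sh N).e (d.sh N).t
        rw [td]
        exact (hI u.e (d.sh N).e hp (by omega) r2).2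
    · right
      refine ⟨rr_lt htl ?_, ?_⟩
      · change P.l l.e l.t < P.l v.e v.t
        rw [tl]
        exact (hI l.e v.e r1 (by omega) (by omega)).1
      · have g0 : (pt P (d.sh N)).c < (pt P u).c := by
          refine cc_lt (Or.inr ⟨htd, ?_⟩)
          change P.l (d.sh N).e (d.sh N).t < P.l u.e u.t
          rw [td]
          exact (hI u.e (d.sh N).e hp (by omega) r2).2
        rcases hc0 with hc0 | ⟨e, g1, g2, g3⟩
        · left
          refine ⟨?_, g0⟩
          rw [hc0]; exact cc_lt (Or.inl (by rw [htl, htd]; exact hlt))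
        · right; left
          refine ⟨g0, ?_⟩
          rw [g3]
          exact cc_lt (Or.inr ⟨rfl, (hI e u.e g1 g2 hq').2⟩)

/-- The zigzag `L`, `R`. -/
theorem case2 (hB : P_PGB) (hC : P_CMP) (hS : P_SEQ) (hA : P_CWA) (hW' : P_WEB) (hZ : P_ZR2)
    (hLn : P_LEN) {P : Pg N} {X : Finset ℝ} (hX : GoodX P X) (hN : 0 < N)
    (d : It) (D : List It) (l u v : It) (h : Qw P X ((d :: (D ++ [l])) ++ [u, v]))
    (hu : u.k = .L) (hv : v.k = .R) :
    Qw P X (d :: (D ++ [l])) ∧
      WE (lst P ((d :: (D ++ [l])) ++ [u, v])) (lst P (d :: (D ++ [l]))) := by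
  obtain ⟨W, hW⟩ := hS.ex P X _ h.ew
  obtain ⟨w1, w2, w3, w4⟩ := getW hW
  set n : ℤ := (D.length : ℤ) + 1 with hn
  have w2' : W (n + 1) = u := by rw [← w2]; congr 1
  have w3' : W (n + 2) = v := by rw [← w3]; congr 1
  have w4' : W (n + 3) = d.sh N := by rw [← w4]; congr 1
  have l1 := hW.lnk n
  rw [w1, w2'] at l1
  have l2 := hW.lnk (n + 1)
  rw [show n + 1 + 1 = n + 2 by ring, w2', w3'] at l2
  have l3 := hW.lnk (n + 2)
  rw [show n + 2 + 1 = n + 3 by ring, w3', w4'] at l3
  obtain ⟨-, -, hab⟩ := lnk_r l2 (Or.inl (by rw [hu]; trivial))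
  obtain ⟨k1, -, b1⟩ := lnk_l l1 (Or.inr (by rw [hu]; exact fun h => h))
  obtain ⟨-, k3, b3⟩ := lnk_l l3 (Or.inl (by rw [hv]; exact fun h => h))
  have tl := adj_r hab b1
  have td : (d.sh N).t = u.t := adj_l hab b3
  have hlt := hab.2.2.1
  have i1 := lnk_ins l1 hlt (Or.inr ⟨tl, rfl⟩)
  have i2 := lnk_ins l2 hlt (Or.inl ⟨rfl, rfl⟩)
  have i3 := lnk_ins l3 hlt (Or.inr ⟨rfl, td⟩)
  have e1 := l1.le
  have e2 := l2.tl (Or.inr hu)
  have e3 := l3.tl (Or.inl hv)
  have hins : ∀ m, l.e < m → m ≤ (d.sh N).e → u.t < P.x m ∧ P.x m < v.t := by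
    intro m h1 h2
    by_cases c1 : m ≤ u.e
    · exact i1 m h1 c1
    · by_cases c2 : m ≤ v.e
      · exact i2 m (by omega) c2
      · exact i3 m (by omega) h2
  have hl : Lnk P X l (d.sh N) := by
    refine ⟨by omega, fun _ => by omega, Or.inr (by rw [tl, td]; exact hab), ?_,
      Or.inr ⟨k1, k3, by rw [tl, td]; exact hlt⟩⟩
    intro m h1 h2
    rw [tl, td]
    exact Or.inr (hins m h1 h2)
  have hq := qw_del hS hLn hX d D l u v h hl
  refine ⟨hq, ?_⟩
  have um : u ∈ (d :: (D ++ [l])) ++ [u, v] := by simp
  have i2' := i2 (u.e + 1) (by omega) (by omega)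
  obtain ⟨p, q, hc, hp, hq', hy⟩ := h.yx u.t v.t hab u um (Or.inr hu) i2'.1 i2'.2
  obtain ⟨r1, r2⟩ := rng hc hp hq' (i := l.e) (j := (d.sh N).e) e1 (by omega) hins
  have hcw := h.cw
  rw [List.map_append] at hcw
  obtain ⟨hcw1, hwe1⟩ := hA.rot _ _ hcw
  have eq1 : [u, v].map (pt P) ++ (d :: (D ++ [l])).map (pt P) =
    pt P u :: pt P v :: pt P d :: (D.map (pt P) ++ [pt P l]) := by simp
  have eq2 : (d :: (D ++ [l])).map (pt P) = pt P d :: (D.map (pt P) ++ [pt P l]) := by simp
  rw [eq1] at hcw1 hwe1
  have hcw2 := hq.cw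
  rw [eq2] at hcw2
  have pd : pt P d = pt P (d.sh N) := (pt_sh hB P d).symm
  have hmem : ∀ x, x ∈ pt P u :: pt P v :: pt P d :: (D.map (pt P) ++ [pt P l]) →
      x ∈ ((d :: (D ++ [l])) ++ [u, v]).map (pt P) := by
    intro x hx
    rw [← eq1, List.mem_append] at hx
    rw [List.map_append, List.mem_append]
    exact hx.symm
  have hrows := rows hB hC hS hX hN hW hab hc hy (n + 1) (by rw [w2'])
    (by rw [show n + 1 + 1 = n + 2 by ring, w3']; exact hlt.ne')
    (by rw [show n + 1 + 2 = n + 3 by ring, w4']; exact td)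
    (by rw [w2']; exact hp) (by rw [show n + 1 + 2 = n + 3 by ring, w4']; exact r2)
  rw [show n + 1 + 2 = n + 3 by ring, w2', w4', ← pd] at hrows
  have hlast : ∀ c₀ : Q, ((pt P d).k = .lt ∧ c₀ = (pt P d).c ∨ (pt P d).k = .L ∧
      ∃ o, (pt P d, o) ∈ cp (pt P u :: pt P v :: pt P d :: (D.map (pt P) ++ [pt P l])) ∧
        c₀ = o.c) → c₀ = (pt P d).c ∨ ∃ e, e ≤ q ∧ v.e < e ∧ c₀ = (Pt.mk .R v.t (P.l e v.t)).c := by
    intro c₀ h0
    rcases h0 with ⟨-, h0⟩ | ⟨h0, o, h1, h2⟩
    · exact Or.inl h0
    · right
      rw [← eq1, cp_rot, ← List.map_append] at h1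
      have h3 := (hS.cp P X _ W hW (pt P (W (n + 3)), pt P (W (n + 3 + 1)))).2 ⟨n + 3, rfl⟩
      rw [w4', ← pd] at h3
      have h4 := cp_succ _ (hA.nd _ h.cw) h1 h3
      have l0 := hW.lnk (n + 3)
      rw [w4'] at l0
      change d.k = .L at h0
      have h0' : (d.sh N).k = .L := h0
      obtain ⟨-, -, b0⟩ := lnk_r l0 (Or.inl (by rw [h0']; trivial))
      rw [td] at b0
      have t0 := adj_r hab b0
      have i0 := lnk_ins l0 hlt (Or.inl ⟨td, t0⟩)
      have e0 := l0.tl (Or.inr h0')
      obtain ⟨-, r3⟩ := rng hc hp hq' (i := l.e) (j := (W (n + 3 + 1)).e) e1 (by omega)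
        (fun m g1 g2 => by
          by_cases c : m ≤ (d.sh N).e
          · exact hins m g1 c
          · exact i0 m (by omega) g2)
      refine ⟨(W (n + 3 + 1)).e, r3, by omega, ?_⟩
      rw [h2, h4]
      unfold Pt.c pt
      simp only [t0]
  have key := hZ (pt P v) (pt P u) (pt P l) (pt P d) (D.map (pt P)) hcw1 hcw2 hv hu
    (fun x hx hk hb => hrows x (hmem x hx) hk (btw_symm hb)) ?_
  · unfold lst
    rw [List.map_append, eq2]
    rw [eq2] at hwe1
    exact hW'.trans _ _ _ hwe1 key
  · intro c₀ h0
    have hc0 := hlast c₀ h0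
    have htd : (pt P d).t = u.t := td
    have htl : (pt P l).t = v.t := tl
    have hld : P.l d.e d.t = P.l (d.sh N).e u.t := by
      have := congrArg Pt.h pd
      rw [← td]
      exact this
    rcases hts hB hc hy with hI | hI
    · right
      have g0 : (pt P l).c < (pt P v).c := by
        refine cc_lt (Or.inr ⟨htl, ?_⟩)
        change P.l l.e l.t < P.l v.e v.t
        rw [tl]
        exact (hI l.e v.e r1 (by omega) (by omega)).2
      refine ⟨rr_lt htd ?_, ?_⟩
      · change P.l d.e d.t < P.l u.e u.t
        rw [hld]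
        exact (hI u.e (d.sh N).e hp (by omega) r2).1
      · rcases hc0 with hc0 | ⟨e, g1, g2, g3⟩
        · left
          refine ⟨?_, g0⟩
          rw [hc0]; exact cc_lt (Or.inl (by rw [htl, htd]; exact hlt))
        · right; left
          refine ⟨g0, ?_⟩
          rw [g3]
          exact cc_lt (Or.inr ⟨rfl, (hI v.e e (by omega) g2 g1).2⟩)
    · left
      have g0 : (pt P v).c < (pt P l).c := by
        refine cc_lt (Or.inr ⟨htl.symm, ?_⟩)
        change P.l v.e v.t < P.l l.e l.t
        rw [tl]
        exact (hI l.e v.e r1 (by omega) (by omega)).2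
      refine ⟨rr_lt htd.symm ?_, Or.inr (Or.inl ⟨?_, g0⟩)⟩
      · change P.l u.e u.t < P.l d.e d.t
        rw [hld]
        exact (hI u.e (d.sh N).e hp (by omega) r2).1
      · rcases hc0 with hc0 | ⟨e, g1, g2, g3⟩
        · rw [hc0]
          refine cc_lt (Or.inl ?_)
          rw [htd]
          exact hlt
        · rw [g3]
          exact cc_lt (Or.inr ⟨rfl, (hI v.e e (by omega) g2 g1).2⟩)

theorem uv {P : Pg N} {X : Finset ℝ} {D : List It} {u v : It} (h : EW P X (D ++ [u, v])) :
    Lnk P X u v := by
  obtain ⟨i, w', -, -, g⟩ := h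
  rw [List.append_assoc] at g
  have g1 := g.right_of_append
  simp only [List.cons_append, List.nil_append, List.isChain_cons_cons] at g1
  exact g1.1

theorem no_rr {P : Pg N} {X : Finset ℝ} {u v : It} (h : Lnk P X u v) (hu : u.k = .R)
    (hv : v.k = .R) : False := by
  have := (lnk_l h (Or.inl (by rw [hu]; exact fun h => h))).2.1
  rw [hv] at this
  exact this trivial

theorem no_ll {P : Pg N} {X : Finset ℝ} {u v : It} (h : Lnk P X u v) (hu : u.k = .L)
    (hv : v.k = .L) : False := by
  have := (lnk_r h (Or.inl (by rw [hu]; trivial))).2.1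
  rw [hv] at this
  exact this

theorem no_one {P : Pg N} {X : Finset ℝ} {d u v : It} (h : EW P X [d, u, v])
    (hu : u.k = .R ∨ u.k = .L) (hv : v.k = .R ∨ v.k = .L) : False := by
  have huv := uv (D := [d]) h
  obtain ⟨i, w', g0, -, g⟩ := h
  simp only [List.cons.injEq] at g0
  rw [← g0.1] at g
  simp only [List.cons_append, List.nil_append, List.isChain_cons_cons] at g
  obtain ⟨g1, -, g3, -⟩ := g
  rcases hu with hu | hu <;> rcases hv with hv | hv
  · exact no_rr huv hu hv
  · obtain ⟨-, -, hab⟩ := lnk_l huv (Or.inl (by rw [hu]; exact fun h => h))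
    obtain ⟨-, -, b1⟩ := lnk_r g1 (Or.inr (by rw [hu]; trivial))
    obtain ⟨-, -, b3⟩ := lnk_r g3 (Or.inl (by rw [hv]; trivial))
    have t1 := adj_l hab b1
    have t2 : d.t = u.t := adj_r hab b3
    exact hab.2.2.1.ne (t1.symm.trans t2)
  · obtain ⟨-, -, hab⟩ := lnk_r huv (Or.inl (by rw [hu]; trivial))
    obtain ⟨-, -, b1⟩ := lnk_l g1 (Or.inr (by rw [hu]; exact fun h => h))
    obtain ⟨-, -, b3⟩ := lnk_l g3 (Or.inl (by rw [hv]; exact fun h => h))
    have t1 := adj_r hab b1
    have t2 : d.t = u.t := adj_l hab b3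
    exact hab.2.2.1.ne (t2.symm.trans t1)
  · exact no_ll huv hu hv

end ZRM

theorem t_ZRM : Stmt_ZRM := by
  intro hB hC hS hWe hA hZ1 hZ2 hLn N P X w hX hew hyx hcw hng
  have hN := hS.pos P X w hew
  obtain ⟨D, u, v, h1, h2, h3, hu, hv⟩ := ZRM.zig hB hC hS hA P X w ⟨hew, hyx, hcw⟩ hng
  have huv := ZRM.uv h1.ew
  rcases D with _ | ⟨d, D⟩
  · exfalso
    have := h1.cw.len
    rcases hu with hu | hu <;> rcases hv with hv | hv <;>
      simp [ents, ent, pt, hu, hv] at this
  · rcases List.eq_nil_or_concat D with hD | ⟨D', l, hD⟩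
    · exfalso
      subst hD
      exact ZRM.no_one h1.ew hu hv
    · rw [List.concat_eq_append] at hD
      subst hD
      have h4 : ZRM.Qw P X (d :: (D' ++ [l])) ∧
          WE (lst P ((d :: (D' ++ [l])) ++ [u, v])) (lst P (d :: (D' ++ [l]))) := by
        rcases hu with hu | hu <;> rcases hv with hv | hv
        · exact (ZRM.no_rr huv hu hv).elim
        · exact ZRM.case1 hB hC hS hA hWe hZ1 hLn hX hN d D' l u v h1 hu hv
        · exact ZRM.case2 hB hC hS hA hWe hZ2 hLn hX hN d D' l u v h1 hu hv
        · exact (ZRM.no_ll huv hu hv).elim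
      refine ⟨d :: (D' ++ [l]), ?_, h4.1.ew, h4.1.yx, h4.1.cw, hWe.trans _ _ _ h3 h4.2⟩
      rw [← h2]
      simp

end LH


end

section

/-!
# SHP: existence of the profiles
-/

namespace LCA

open Set Filter
open scoped ContDiff Topology

namespace SHP

/-! ### the transition of the slope -/

noncomputable def tau (u : ℝ) : ℝ := Real.smoothTransition ((u + 1) / 2)

theorem tau_smooth : ContDiff ℝ ∞ tau :=
  Real.smoothTransition.contDiff.comp ((contDiff_id.add contDiff_const).div_const 2)

theorem tau_low {u : ℝ} (h : u ≤ -1) : tau u = 0 :=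
  Real.smoothTransition.zero_of_nonpos (by linarith)

theorem tau_high {u : ℝ} (h : 1 ≤ u) : tau u = 1 :=
  Real.smoothTransition.one_of_one_le (by linarith)

theorem tau_nonneg (u : ℝ) : 0 ≤ tau u := Real.smoothTransition.nonneg _

theorem tau_le_one (u : ℝ) : tau u ≤ 1 := Real.smoothTransition.le_one _

theorem tau_symm (u : ℝ) : tau (-u) = 1 - tau u := by
  have h := Real.smoothTransition.pos_denom ((u + 1) / 2)
  have e : (-u + 1) / 2 = 1 - (u + 1) / 2 := by ring
  have e2 : 1 - (1 - (u + 1) / 2) = (u + 1) / 2 := by ring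
  unfold tau Real.smoothTransition
  rw [e, e2, eq_sub_iff_add_eq, add_comm (expNegInvGlue (1 - (u + 1) / 2)), ← add_div,
    add_comm (expNegInvGlue (1 - (u + 1) / 2)), div_self h.ne']

theorem glue_deriv {x : ℝ} (hx : 0 < x) :
    ∃ d : ℝ, 0 < d ∧ HasDerivAt expNegInvGlue d x := by
  refine ⟨Real.exp (-x⁻¹) * (x ^ 2)⁻¹, by positivity, ?_⟩
  have h1 : HasDerivAt (fun y : ℝ => Real.exp (-y⁻¹)) (Real.exp (-x⁻¹) * (x ^ 2)⁻¹) x := by
    have h2 := (hasDerivAt_inv hx.ne').neg.exp
    exact h2.congr_deriv (by simp)
  refine h1.congr_of_eventuallyEq ?_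
  filter_upwards [lt_mem_nhds hx] with y hy
  simp [expNegInvGlue, not_le.2 hy]

theorem st_deriv {x : ℝ} (h0 : 0 < x) (h1 : x < 1) :
    ∃ d : ℝ, 0 < d ∧ HasDerivAt Real.smoothTransition d x := by
  obtain ⟨d1, hd1, H1⟩ := glue_deriv h0
  obtain ⟨d2, hd2, H2⟩ := glue_deriv (x := 1 - x) (by linarith)
  have H3 : HasDerivAt (fun y : ℝ => expNegInvGlue (1 - y)) (-d2) x := by
    have h5 := HasDerivAt.comp x H2 ((hasDerivAt_id x).const_sub 1)
    exact h5.congr_deriv (by ring)
  have hden : 0 < expNegInvGlue x + expNegInvGlue (1 - x) := Real.smoothTransition.pos_denom x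
  have H4 := H1.div (H1.add H3) hden.ne'
  refine ⟨_, ?_, H4⟩
  have hf : 0 < expNegInvGlue x := expNegInvGlue.pos_of_pos h0
  have hg : 0 < expNegInvGlue (1 - x) := expNegInvGlue.pos_of_pos (by linarith)
  apply div_pos
  · have e : d1 * (expNegInvGlue + fun y : ℝ => expNegInvGlue (1 - y)) x
        - expNegInvGlue x * (d1 + -d2) = d1 * expNegInvGlue (1 - x) + expNegInvGlue x * d2 := by
      simp only [Pi.add_apply]
      ring
    rw [e]
    positivity
  · exact pow_pos hden 2

theorem tau_deriv_pos {u : ℝ} (h0 : -1 < u) (h1 : u < 1) : 0 < deriv tau u := by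
  obtain ⟨d, hd, H⟩ := st_deriv (x := (u + 1) / 2) (by linarith) (by linarith)
  have H2 : HasDerivAt (fun y : ℝ => (y + 1) / 2) (1 / 2) u :=
    ((hasDerivAt_id u).add_const 1).div_const 2
  have H3 : HasDerivAt tau (d * (1 / 2)) u := HasDerivAt.comp u H H2
  rw [H3.deriv]
  positivity

theorem tau_deriv_nonneg (u : ℝ) : 0 ≤ deriv tau u := by
  rcases le_or_gt u (-1) with h | h
  · have h1 : IsLocalMin tau u := Filter.Eventually.of_forall fun y => by
      rw [tau_low h]
      exact tau_nonneg y
    rw [h1.deriv_eq_zero]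
  · rcases le_or_gt 1 u with h' | h'
    · have h1 : IsLocalMax tau u := Filter.Eventually.of_forall fun y => by
        rw [tau_high h']
        exact tau_le_one y
      rw [h1.deriv_eq_zero]
    · exact (tau_deriv_pos h h').le

theorem tau_hasDeriv (u : ℝ) : HasDerivAt tau (deriv tau u) u :=
  ((tau_smooth.differentiable (by simp)) u).hasDerivAt

theorem tau_mono : Monotone tau :=
  monotone_of_deriv_nonneg (tau_smooth.differentiable (by simp)) tau_deriv_nonneg

theorem tau_zero : tau 0 = 1 / 2 := by
  have h := tau_symm 0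
  rw [neg_zero] at h
  linarith

theorem tau_gt {v : ℝ} (hv : 0 < v) : 1 / 2 < tau v := by
  rcases le_or_gt 1 v with h | h
  · rw [tau_high h]
    norm_num
  · have h1 : StrictMonoOn tau (Icc (-1) 1) := by
      refine strictMonoOn_of_deriv_pos (convex_Icc _ _) tau_smooth.continuous.continuousOn ?_
      intro x hx
      rw [interior_Icc] at hx
      exact tau_deriv_pos hx.1 hx.2
    have h2 := h1 (show (0 : ℝ) ∈ Icc (-1) 1 by constructor <;> norm_num)
      (show v ∈ Icc (-1) 1 from ⟨by linarith, h.le⟩) hv
    rwa [tau_zero] at h2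

/-! ### the odd transition and its primitives -/

noncomputable def sg (u : ℝ) : ℝ := 2 * tau u - 1

theorem sg_smooth : ContDiff ℝ ∞ sg := (contDiff_const.mul tau_smooth).sub contDiff_const

theorem sg_cont : Continuous sg := sg_smooth.continuous

theorem sg_neg (u : ℝ) : sg (-u) = -sg u := by
  unfold sg
  rw [tau_symm]
  ring

theorem sg_high {u : ℝ} (h : 1 ≤ u) : sg u = 1 := by
  unfold sg
  rw [tau_high h]
  norm_num

theorem sg_low {u : ℝ} (h : u ≤ -1) : sg u = -1 := by
  unfold sg
  rw [tau_low h]
  norm_num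

theorem sg_mono : Monotone sg := fun a b h => by
  unfold sg
  have := tau_mono h
  linarith

theorem sg_zero : sg 0 = 0 := by
  unfold sg
  rw [tau_zero]
  norm_num

theorem sg_nonneg {u : ℝ} (h : 0 ≤ u) : 0 ≤ sg u := by
  rw [← sg_zero]
  exact sg_mono h

theorem sg_nonpos {u : ℝ} (h : u ≤ 0) : sg u ≤ 0 := by
  rw [← sg_zero]
  exact sg_mono h

theorem sg_pos {u : ℝ} (h : 0 < u) : 0 < sg u := by
  unfold sg
  have := tau_gt h
  linarith

theorem sg_le (u : ℝ) : sg u ≤ 1 := by
  unfold sg
  have := tau_le_one u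
  linarith

theorem sg_ge (u : ℝ) : -1 ≤ sg u := by
  unfold sg
  have := tau_nonneg u
  linarith

theorem sg_hasDeriv (u : ℝ) : HasDerivAt sg (2 * deriv tau u) u :=
  ((tau_hasDeriv u).const_mul 2).sub_const 1

noncomputable def TT (u : ℝ) : ℝ := ∫ t in (0 : ℝ)..u, sg t

noncomputable def SS (u : ℝ) : ℝ := ∫ t in (0 : ℝ)..u, sg t ^ 2

theorem TT_hasDeriv (u : ℝ) : HasDerivAt TT (sg u) u :=
  (sg_cont.integral_hasStrictDerivAt 0 u).hasDerivAt

theorem SS_hasDeriv (u : ℝ) : HasDerivAt SS (sg u ^ 2) u :=
  ((sg_cont.pow 2).integral_hasStrictDerivAt 0 u).hasDerivAt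

theorem smooth_of_deriv {f g : ℝ → ℝ} (h : ∀ u, HasDerivAt f (g u) u) (hg : ContDiff ℝ ∞ g) :
    ContDiff ℝ ∞ f := by
  rw [contDiff_infty_iff_deriv]
  refine ⟨fun u => (h u).differentiableAt, ?_⟩
  have : deriv f = g := funext fun u => (h u).deriv
  rw [this]
  exact hg

theorem TT_smooth : ContDiff ℝ ∞ TT := smooth_of_deriv TT_hasDeriv sg_smooth

theorem SS_smooth : ContDiff ℝ ∞ SS := smooth_of_deriv SS_hasDeriv (sg_smooth.pow 2)

theorem TT_high {u : ℝ} (h : 1 ≤ u) : TT u = TT 1 + (u - 1) := by
  unfold TT
  rw [← intervalIntegral.integral_add_adjacent_intervals (sg_cont.intervalIntegrable 0 1)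
    (sg_cont.intervalIntegrable 1 u)]
  congr 1
  have h1 : ∫ t in (1 : ℝ)..u, sg t = ∫ t in (1 : ℝ)..u, (1 : ℝ) := by
    refine intervalIntegral.integral_congr fun t ht => ?_
    rw [uIcc_of_le h] at ht
    exact sg_high ht.1
  rw [h1]
  simp

theorem SS_high {u : ℝ} (h : 1 ≤ u) : SS u = SS 1 + (u - 1) := by
  have hc : Continuous fun t : ℝ => sg t ^ 2 := sg_cont.pow 2
  unfold SS
  rw [← intervalIntegral.integral_add_adjacent_intervals (hc.intervalIntegrable 0 1)
    (hc.intervalIntegrable 1 u)]
  congr 1
  have h1 : ∫ t in (1 : ℝ)..u, sg t ^ 2 = ∫ t in (1 : ℝ)..u, (1 : ℝ) := by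
    refine intervalIntegral.integral_congr fun t ht => ?_
    rw [uIcc_of_le h] at ht
    simp only [sg_high ht.1, one_pow]
  rw [h1]
  simp

theorem TT_even (u : ℝ) : TT (-u) = TT u := by
  have h := intervalIntegral.integral_comp_neg (a := 0) (b := u) sg
  simp only [sg_neg, intervalIntegral.integral_neg, neg_zero] at h
  unfold TT
  rw [intervalIntegral.integral_symm] at h
  have h2 : ∫ t in (0 : ℝ)..(-u), sg t = ∫ t in (0 : ℝ)..u, sg t := by
    rw [intervalIntegral.integral_symm (-u) 0]
    rw [intervalIntegral.integral_symm] at h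
    linarith
  exact h2

theorem SS_odd (u : ℝ) : SS (-u) = -SS u := by
  have h := intervalIntegral.integral_comp_neg (a := 0) (b := u) (fun t => sg t ^ 2)
  simp only [sg_neg, neg_zero] at h
  unfold SS
  rw [intervalIntegral.integral_symm (-u) 0, ← h]
  simp

theorem SS_one_nonneg : 0 ≤ SS 1 :=
  intervalIntegral.integral_nonneg zero_le_one fun t _ => sq_nonneg _

theorem SS_one_le : SS 1 ≤ 1 := by
  have h : SS 1 ≤ ∫ t in (0 : ℝ)..1, (1 : ℝ) := by
    refine intervalIntegral.integral_mono_on zero_le_one ((sg_cont.pow 2).intervalIntegrable _ _)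
      (continuous_const.intervalIntegrable _ _) fun t _ => ?_
    have h1 := sg_le t
    have h2 := sg_ge t
    nlinarith
  simpa using h

/-! ### the profile of a tip -/

noncomputable def ka : ℝ := 3 / 4 * (1 - SS 1)

theorem ka_nonneg : 0 ≤ ka := by
  unfold ka
  have := SS_one_le
  linarith

theorem ka_le : ka ≤ 3 / 4 := by
  unfold ka
  have := SS_one_nonneg
  linarith

noncomputable def xi (u : ℝ) : ℝ := -(u * sg u) + ka * (1 - sg u ^ 2)

theorem xi_smooth : ContDiff ℝ ∞ xi :=
  (contDiff_id.mul sg_smooth).neg.add (contDiff_const.mul (contDiff_const.sub (sg_smooth.pow 2)))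

theorem xi_even (u : ℝ) : xi (-u) = xi u := by
  unfold xi
  rw [sg_neg]
  ring

theorem xi_high {u : ℝ} (h : 1 ≤ u) : xi u = -u := by
  unfold xi
  rw [sg_high h]
  ring

theorem xi_zero : xi 0 = ka := by
  unfold xi
  rw [sg_zero]
  ring

theorem xi_anti : StrictAntiOn xi (Ici 0) := by
  intro a ha b hb hab
  have ha' : 0 ≤ a := ha
  have h1 := sg_mono hab.le
  have h2 := sg_nonneg ha'
  have h3 : 0 < sg b := sg_pos (lt_of_le_of_lt ha' hab)
  have h4 := ka_nonneg
  unfold xi
  have h5 : a * sg a < b * sg b := by nlinarith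
  have h6 : sg a ^ 2 ≤ sg b ^ 2 := by nlinarith
  nlinarith

theorem xi_hasDeriv (u : ℝ) : HasDerivAt xi
    (-(sg u + u * (2 * deriv tau u)) - ka * (2 * sg u * (2 * deriv tau u))) u := by
  have h1 := ((hasDerivAt_id u).mul (sg_hasDeriv u)).neg
  have h2 := (((sg_hasDeriv u).pow 2).const_sub 1).const_mul ka
  have h3 := h1.add h2
  refine h3.congr_deriv ?_
  simp only [id]
  push_cast
  ring

theorem xi_deriv_nonpos {u : ℝ} (h : 0 ≤ u) : deriv xi u ≤ 0 := by
  rw [(xi_hasDeriv u).deriv]
  have h1 := sg_nonneg h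
  have h2 := tau_deriv_nonneg u
  have h3 := ka_nonneg
  have h4 : 0 ≤ u * (2 * deriv tau u) := by positivity
  have h5 : 0 ≤ ka * (2 * sg u * (2 * deriv tau u)) := by positivity
  linarith

theorem xi_deriv_nonneg {u : ℝ} (h : u ≤ 0) : 0 ≤ deriv xi u := by
  rw [(xi_hasDeriv u).deriv]
  have h1 := sg_nonpos h
  have h2 := tau_deriv_nonneg u
  have h3 := ka_nonneg
  have h4 : 0 ≤ (-u) * (2 * deriv tau u) := mul_nonneg (by linarith) (by positivity)
  have h5 : 0 ≤ ka * (2 * (-sg u) * (2 * deriv tau u)) :=
    mul_nonneg h3 (mul_nonneg (by linarith) (by positivity))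
  nlinarith

theorem xi_in {u : ℝ} (h : |u| ≤ 1) : |xi u| ≤ 1 := by
  have key : ∀ v : ℝ, 0 ≤ v → v ≤ 1 → |xi v| ≤ 1 := by
    intro v h0 h1
    have h2 := xi_anti.antitoneOn (show (0 : ℝ) ∈ Ici 0 by simp) (show v ∈ Ici 0 from h0) h0
    have h3 := xi_anti.antitoneOn (show v ∈ Ici 0 from h0)
      (show (1 : ℝ) ∈ Ici 0 by simp) h1
    rw [xi_zero] at h2
    rw [xi_high le_rfl] at h3
    have h4 := ka_le
    rw [abs_le]
    constructor <;> linarith
  rw [abs_le] at h
  rcases le_total 0 u with h0 | h0
  · exact key u h0 h.2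
  · have := key (-u) (by linarith) (by linarith)
    rwa [xi_even] at this

/-! ### the primitives -/

noncomputable def thP (u : ℝ) : ℝ := (u + TT u + 1 - TT 1) / 2

theorem thP_hasDeriv (u : ℝ) : HasDerivAt thP (tau u) u := by
  have h := ((((hasDerivAt_id u).add (TT_hasDeriv u)).add_const 1).sub_const (TT 1)).div_const 2
  refine h.congr_deriv ?_
  unfold sg
  ring

theorem thP_high {u : ℝ} (h : 1 ≤ u) : thP u = u := by
  unfold thP
  rw [TT_high h]
  ring

theorem thP_low {u : ℝ} (h : u ≤ -1) : thP u = 0 := by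
  unfold thP
  rw [← TT_even, TT_high (u := -u) (by linarith)]
  ring

theorem thP_bd {u : ℝ} (h : |u| ≤ 2) : |thP u| ≤ 2 := by
  have hm : Monotone thP := monotone_of_deriv_nonneg
    (fun u => (thP_hasDeriv u).differentiableAt) fun u => by
      rw [(thP_hasDeriv u).deriv]
      exact tau_nonneg u
  rw [abs_le] at h
  have h1 := hm h.1
  have h2 := hm h.2
  rw [thP_low (u := -2) (by norm_num)] at h1
  rw [thP_high (u := 2) (by norm_num)] at h2
  rw [abs_le]
  constructor <;> linarith

noncomputable def thR (u : ℝ) : ℝ :=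
  tau u * xi u + (u * sg u ^ 2 - SS u) / 4 - ka * (2 * tau u ^ 2 - 4 / 3 * tau u ^ 3)
    + (1 - SS 1) / 4

theorem thR_hasDeriv (u : ℝ) : HasDerivAt thR (tau u * deriv xi u) u := by
  have h0 := tau_hasDeriv u
  have h1 := h0.mul (xi_hasDeriv u)
  have h2 := (((hasDerivAt_id u).mul ((sg_hasDeriv u).pow 2)).sub (SS_hasDeriv u)).div_const 4
  have h3 := (((h0.pow 2).const_mul 2).sub ((h0.pow 3).const_mul (4 / 3))).const_mul ka
  have h4 := ((h1.add h2).sub h3).add_const ((1 - SS 1) / 4)
  rw [(xi_hasDeriv u).deriv]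
  refine h4.congr_deriv ?_
  simp only [id, Pi.pow_apply]
  unfold xi sg
  push_cast
  ring

theorem thR_high {u : ℝ} (h : 1 ≤ u) : thR u = -u := by
  unfold thR
  rw [tau_high h, xi_high h, sg_high h, SS_high h]
  unfold ka
  ring

theorem thR_low {u : ℝ} (h : u ≤ -1) : thR u = 0 := by
  have h1 : SS u = -(SS 1 + (-u - 1)) := by
    rw [← SS_high (u := -u) (by linarith), SS_odd]
    ring
  unfold thR
  rw [tau_low h, sg_low h, h1]
  ring

theorem thR_zero : thR 0 = ka / 2 := by
  have h : SS 0 = 0 := by unfold SS; simp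
  unfold thR
  rw [tau_zero, xi_zero, sg_zero, h]
  unfold ka
  ring

theorem thR_bd {u : ℝ} (h : |u| ≤ 2) : |thR u| ≤ 2 := by
  have hd : ∀ u, HasDerivAt thR (tau u * deriv xi u) u := thR_hasDeriv
  have hc : Continuous thR := continuous_iff_continuousAt.2 fun u => (hd u).continuousAt
  have h1 : MonotoneOn thR (Iic 0) := by
    refine monotoneOn_of_deriv_nonneg (convex_Iic 0) hc.continuousOn
      (fun u _ => (hd u).differentiableAt.differentiableWithinAt) fun u hu => ?_
    rw [interior_Iic] at hu
    rw [(hd u).deriv]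
    exact mul_nonneg (tau_nonneg u) (xi_deriv_nonneg (le_of_lt hu))
  have h2 : AntitoneOn thR (Ici 0) := by
    refine antitoneOn_of_deriv_nonpos (convex_Ici 0) hc.continuousOn
      (fun u _ => (hd u).differentiableAt.differentiableWithinAt) fun u hu => ?_
    rw [interior_Ici] at hu
    rw [(hd u).deriv]
    exact mul_nonpos_of_nonneg_of_nonpos (tau_nonneg u) (xi_deriv_nonpos (le_of_lt hu))
  have h3 := ka_le
  rw [abs_le] at h ⊢
  rcases le_total 0 u with h0 | h0
  · have h4 := h2 (show (0 : ℝ) ∈ Ici 0 by simp) (show u ∈ Ici 0 from h0) h0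
    have h5 := h2 (show u ∈ Ici 0 from h0) (show (2 : ℝ) ∈ Ici 0 by simp) h.2
    rw [thR_zero] at h4
    rw [thR_high (u := 2) (by norm_num)] at h5
    constructor <;> linarith
  · have h4 := h1 (show u ∈ Iic 0 from h0) (show (0 : ℝ) ∈ Iic 0 by simp) h0
    have h5 := h1 (show (-2 : ℝ) ∈ Iic 0 by simp) (show u ∈ Iic 0 from h0) h.1
    rw [thR_zero] at h4
    rw [thR_low (u := -2) (by norm_num)] at h5
    constructor <;> linarith

end SHP

open _root_.LCA.SHP in
theorem t_SHP : Stmt_SHP := by
  refine ⟨{
    τ := tau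
    ξ := xi
    ΘP := thP
    ΘR := thR
    τ_smooth := tau_smooth
    ξ_smooth := xi_smooth
    ΘP_smooth := smooth_of_deriv thP_hasDeriv tau_smooth
    ΘR_smooth := ?_
    τ_low := fun u h => tau_low h
    τ_high := fun u h => tau_high h
    τ_mem := fun u => ⟨tau_nonneg u, tau_le_one u⟩
    τ_deriv := fun u h0 h1 => tau_deriv_pos h0 h1
    τ_symm := tau_symm
    ξ_out := ?_
    ξ_in := fun u h => xi_in h
    ξ_even := xi_even
    ξ_anti := xi_anti
    ΘP_deriv := thP_hasDeriv
    ΘP_low := fun u h => thP_low h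
    ΘP_high := fun u h => thP_high h
    ΘR_deriv := thR_hasDeriv
    ΘR_low := fun u h => thR_low h
    ΘR_high := fun u h => thR_high h
    ΘP_bd := fun u h => thP_bd h
    ΘR_bd := fun u h => thR_bd h }⟩
  · refine smooth_of_deriv thR_hasDeriv (tau_smooth.mul ?_)
    exact (contDiff_infty_iff_deriv.1 xi_smooth).2
  · intro u h
    rcases le_total 0 u with h0 | h0
    · rw [abs_of_nonneg h0] at h ⊢
      exact xi_high h
    · rw [abs_of_nonpos h0] at h ⊢
      rw [← xi_even]
      exact xi_high h

end LCA


end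

section

/-!
# DST: different points of the walk of the arcs have different positions
-/

namespace LHE

open Set LG LH

namespace DST

theorem hasDeriv (Λ : LC.LegKnot) (u : ℝ) : HasDerivAt Λ.γ (deriv Λ.γ u) u :=
  ((Λ.smooth.differentiable (by simp)) u).hasDerivAt

theorem hx (Λ : LC.LegKnot) (u : ℝ) : HasDerivAt Λ.x (deriv Λ.γ u).1 u := by
  have h := (hasFDerivAt_fst (𝕜 := ℝ) (E := ℝ) (F := ℝ × ℝ) (p := Λ.γ u)).comp_hasDerivAt u
    (hasDeriv Λ u)
  exact h

theorem h2 (Λ : LC.LegKnot) (u : ℝ) : HasDerivAt (fun v => (Λ.γ v).2) (deriv Λ.γ u).2 u := by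
  have h := (hasFDerivAt_snd (𝕜 := ℝ) (E := ℝ) (F := ℝ × ℝ) (p := Λ.γ u)).comp_hasDerivAt u
    (hasDeriv Λ u)
  exact h

theorem hy (Λ : LC.LegKnot) (u : ℝ) : HasDerivAt Λ.y (deriv Λ.y u) u := by
  have h := (hasFDerivAt_fst (𝕜 := ℝ) (E := ℝ) (F := ℝ) (p := (Λ.γ u).2)).comp_hasDerivAt u
    (h2 Λ u)
  have h' : HasDerivAt Λ.y (deriv Λ.γ u).2.1 u := h
  rw [h'.deriv]
  exact h'

theorem hz (Λ : LC.LegKnot) (u : ℝ) : HasDerivAt (zz Λ) (Λ.y u * deriv Λ.x u) u := by
  have h := (hasFDerivAt_snd (𝕜 := ℝ) (E := ℝ) (F := ℝ) (p := (Λ.γ u).2)).comp_hasDerivAt u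
    (h2 Λ u)
  have h3 : HasDerivAt (zz Λ) (deriv Λ.γ u).2.2 u := h
  have h4 := Λ.legendrian u
  unfold LC.alpha at h4
  have h5 : (deriv Λ.γ u).2.2 - Λ.y u * (deriv Λ.γ u).1 = 0 := h4
  rw [(hx Λ u).deriv]
  rw [sub_eq_zero] at h5
  rw [← h5]
  exact h3

theorem hTL (Λ : LC.LegKnot) (t u : ℝ) :
    HasDerivAt (fun v => TL Λ v t) (deriv Λ.y u * (t - Λ.x u)) u := by
  have h1 := hz Λ u
  have h3 : HasDerivAt (fun v => t - Λ.x v) (-(deriv Λ.x u)) u := by
    have h := (hx Λ u).const_sub t
    rw [(hx Λ u).deriv]
    exact h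
  have h4 := h1.add ((hy Λ u).mul h3)
  have e : Λ.y u * deriv Λ.x u + (deriv Λ.y u * (t - Λ.x u) + Λ.y u * -(deriv Λ.x u)) =
      deriv Λ.y u * (t - Λ.x u) := by ring
  rw [e] at h4
  exact h4

theorem TL_hit (Λ : LC.LegKnot) {u t : ℝ} (h : Λ.x u = t) : TL Λ u t = zz Λ u := by
  unfold TL
  rw [h]
  ring

theorem adj_r {X : Finset ℝ} {a b b' : ℝ} (h : AdjX X a b) (h' : AdjX X a b') : b = b' := by
  rcases lt_trichotomy b b' with hb | hb | hb
  · exact absurd ⟨h.2.2.1, hb⟩ (h'.2.2.2 b h.2.1)
  · exact hb
  · exact absurd ⟨h'.2.2.1, hb⟩ (h.2.2.2 b' h'.2.1)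

theorem adj_l {X : Finset ℝ} {a a' b : ℝ} (h : AdjX X a b) (h' : AdjX X a' b) : a = a' := by
  rcases lt_trichotomy a a' with hb | hb | hb
  · exact absurd ⟨hb, h'.2.2.1⟩ (h.2.2.2 a' h'.1)
  · exact hb
  · exact absurd ⟨hb, h.2.2.1⟩ (h'.2.2.2 a h.1)

theorem per_g {K : ℕ} {g : ℤ → Bool} (h : ∀ k, g (k + K) = g k) (k j : ℤ) :
    g (k + j * K) = g k := by
  have hp : Function.Periodic g (K : ℤ) := h
  have := hp.int_mul j k
  rwa [Int.cast_id] at this

theorem per_s {K : ℕ} {s : ℤ → ℝ} (h : ∀ k, s (k + K) = s k) (k j : ℤ) :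
    s (k + j * K) = s k := by
  have hp : Function.Periodic s (K : ℤ) := h
  have := hp.int_mul j k
  rwa [Int.cast_id] at this

theorem per_th {K : ℕ} {θ : ℤ → ℝ} (h : ∀ k, θ (k + K) = θ k + 1) (k j : ℤ) :
    θ (k + j * K) = θ k + j := by
  induction j using Int.induction_on with
  | zero => simp
  | succ i ih =>
    have e : k + ((i : ℤ) + 1) * K = (k + (i : ℤ) * K) + K := by ring
    rw [e, h, ih]
    push_cast
    ring
  | pred i ih =>
    have e : k + (-(i : ℤ)) * K = (k + (-(i : ℤ) - 1) * K) + K := by ring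
    rw [e, h] at ih
    push_cast at ih ⊢
    linarith

theorem per_zz (Λ : LC.LegKnot) (u : ℝ) (j : ℤ) : zz Λ (u + j) = zz Λ u := by
  have hp : Function.Periodic Λ.γ (1 : ℝ) := Λ.periodic
  have := hp.int_mul j u
  rw [mul_one] at this
  unfold zz
  rw [this]

variable {Λ : LC.LegKnot} {K : ℕ} {θ s a b : ℤ → ℝ} {g : ℤ → Bool} {X : Finset ℝ}

theorem cgs {K : ℕ} {k l : ℤ} (h : Cg K k l) : Cg K l k := by
  obtain ⟨j, hj⟩ := h
  exact ⟨-j, by rw [hj]; ring⟩

theorem sepne (H : Arcs Λ K θ s a b g X) {k l : ℤ} (hc : ¬ Cg K k l) (ha : a k = a l) {t : ℝ}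
    (ht : t = a k ∨ t = b k) {u v : ℝ} (hu : u ∈ Icc (θ k) (θ (k + 1)))
    (hv : v ∈ Icc (θ l) (θ (l + 1))) : TL Λ u t ≠ TL Λ v t := by
  rcases H.sep k l hc ha t ht with h | h
  · exact (h u hu v hv).ne
  · exact (h u hu v hv).ne'

theorem meml (H : Arcs Λ K θ s a b g X) (k : ℤ) : θ k ∈ Icc (θ k) (θ (k + 1)) :=
  left_mem_Icc.2 (H.mono k).le

theorem memr (H : Arcs Λ K θ s a b g X) (l : ℤ) : θ l ∈ Icc (θ (l - 1)) (θ (l - 1 + 1)) := by
  have h := H.mono (l - 1)
  rw [sub_add_cancel] at h ⊢
  exact right_mem_Icc.2 h.le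

/-- The two ends of a turning arc. -/
theorem turnne (H : Arcs Λ K θ s a b g X) {k : ℤ} (hk : g k = true) (hk1 : g (k + 1) = false) :
    zz Λ (θ k) ≠ zz Λ (θ (k + 1)) := by
  have hs : s k = a k := by rw [H.d.st k, hk]; rfl
  have hs1 : s (k + 1) = a k := by rw [H.d.en k, hk1]; rfl
  have h0 : Λ.x (θ k) = a k := (H.hit k).trans hs
  have h1 : Λ.x (θ (k + 1)) = a k := (H.hit (k + 1)).trans hs1
  have hm := H.mono k
  rcases H.ty k with h | h
  · exfalso
    have hcont : ContinuousOn Λ.x (Icc (θ k) (θ (k + 1))) :=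
      fun u _ => (hx Λ u).continuousAt.continuousWithinAt
    obtain ⟨c, hc, hd⟩ := exists_deriv_eq_zero hm hcont (h0.trans h1.symm)
    exact h c (Ioo_subset_Icc_self hc) hd
  · rw [← TL_hit Λ h0, ← TL_hit Λ h1]
    intro he
    have hcont : ContinuousOn (fun v => TL Λ v (a k)) (Icc (θ k) (θ (k + 1))) :=
      fun u _ => (hTL Λ (a k) u).continuousAt.continuousWithinAt
    obtain ⟨c, hc, hd⟩ := exists_deriv_eq_zero hm hcont he
    rw [(hTL Λ (a k) c).deriv] at hd
    have hi := (H.ins k c hc).1
    rcases mul_eq_zero.1 hd with h2 | h2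
    · exact h c (Ioo_subset_Icc_self hc) h2
    · exact hi.ne (sub_eq_zero.1 h2)

/-- Passing points of different directions on one line. -/
theorem case_tf (H : Arcs Λ K θ s a b g X) {k l : ℤ} (hk : g k = true) (hl : g l = false)
    (hs : s k = s l) : zz Λ (θ k) ≠ zz Λ (θ l) := by
  have hsk : s k = a k := by rw [H.d.st k, hk]; rfl
  have hen : s l = a (l - 1) := by
    have h := H.d.en (l - 1)
    rw [sub_add_cancel, hl] at h
    exact h
  have haa : a k = a (l - 1) := by rw [← hsk, hs, hen]
  by_cases hc : Cg K k (l - 1)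
  · obtain ⟨j, hj⟩ := hc
    have hl' : l = (k + 1) + j * K := by linarith
    have hg1 : g (k + 1) = false := by rw [← hl, hl', per_g H.d.pg]
    have hz : zz Λ (θ l) = zz Λ (θ (k + 1)) := by
      rw [hl', per_th H.pθ, per_zz]
    rw [hz]
    exact turnne H hk hg1
  · have h := sepne H hc haa (Or.inl rfl) (meml H k) (memr H l)
    rw [TL_hit Λ ((H.hit k).trans hsk), TL_hit Λ ((H.hit l).trans (hen.trans haa.symm))] at h
    exact h

theorem part1 (H : Arcs Λ K θ s a b g X) (k l : ℤ) (hc : ¬ Cg K k l) (hs : s k = s l) :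
    zz Λ (θ k) ≠ zz Λ (θ l) := by
  rcases hk : g k with _ | _ <;> rcases hl : g l with _ | _
  · have hsk : s k = b k := by rw [H.d.st k, hk]; rfl
    have hsl : s l = b l := by rw [H.d.st l, hl]; rfl
    have hb : b k = b l := by rw [← hsk, hs, hsl]
    have ha : a k = a l := adj_l (H.d.adj k) (hb ▸ H.d.adj l)
    have h := sepne H hc ha (Or.inr rfl) (meml H k) (meml H l)
    rw [TL_hit Λ ((H.hit k).trans hsk), TL_hit Λ ((H.hit l).trans (hsl.trans hb.symm))] at h
    exact h
  · exact (case_tf H hl hk hs.symm).symm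
  · exact case_tf H hk hl hs
  · have hsk : s k = a k := by rw [H.d.st k, hk]; rfl
    have hsl : s l = a l := by rw [H.d.st l, hl]; rfl
    have ha : a k = a l := by rw [← hsk, hs, hsl]
    have h := sepne H hc ha (Or.inl rfl) (meml H k) (meml H l)
    rw [TL_hit Λ ((H.hit k).trans hsk), TL_hit Λ ((H.hit l).trans (hsl.trans ha.symm))] at h
    exact h

theorem part2 (H : Arcs Λ K θ s a b g X) (k l : ℤ) (hg : g k ≠ g (k + 1))
    (hs : s l = oL a b g k) : TL Λ (θ k) (oL a b g k) ≠ zz Λ (θ l) := by
  have hit : Λ.x (θ l) = oL a b g k := (H.hit l).trans hs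
  rw [← TL_hit Λ hit]
  have ncg : ¬ Cg K k l ∨ g l = g k := by
    by_cases h : g l = g k
    · exact Or.inr h
    · left
      rintro ⟨j, hj⟩
      exact h (by rw [hj, per_g H.d.pg])
  have ncg1 : ¬ Cg K k (l - 1) ∨ g l = g (k + 1) := by
    by_cases h : g l = g (k + 1)
    · exact Or.inr h
    · left
      rintro ⟨j, hj⟩
      have hl' : l = (k + 1) + j * K := by linarith
      exact h (by rw [hl', per_g H.d.pg])
  rcases hk : g k with _ | _
  · have ho : oL a b g k = a k := by unfold oL; rw [hk]; rfl
    rw [ho] at hs ⊢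
    have hk1 : g (k + 1) = true := by
      rcases h : g (k + 1) with _ | _
      · exact absurd (hk.trans h.symm) hg
      · rfl
    rcases hl : g l with _ | _
    · have hen : s l = a (l - 1) := by
        have h := H.d.en (l - 1)
        rw [sub_add_cancel, hl] at h
        exact h
      have haa : a k = a (l - 1) := by rw [← hs, hen]
      have hc : ¬ Cg K k (l - 1) := by
        rcases ncg1 with h | h
        · exact h
        · rw [hl, hk1] at h
          exact absurd h (by simp)
      exact sepne H hc haa (Or.inl rfl) (meml H k) (memr H l)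
    · have hsl : s l = a l := by rw [H.d.st l, hl]; rfl
      have hc : ¬ Cg K k l := by
        rcases ncg with h | h
        · exact h
        · rw [hl, hk] at h
          exact absurd h (by simp)
      exact sepne H hc (hs.symm.trans hsl) (Or.inl rfl) (meml H k) (meml H l)
  · have ho : oL a b g k = b k := by unfold oL; rw [hk]; rfl
    rw [ho] at hs ⊢
    have hk1 : g (k + 1) = false := by
      rcases h : g (k + 1) with _ | _
      · rfl
      · exact absurd (hk.trans h.symm) hg
    rcases hl : g l with _ | _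
    · have hsl : s l = b l := by rw [H.d.st l, hl]; rfl
      have hb : b k = b l := hs.symm.trans hsl
      have ha : a k = a l := adj_l (H.d.adj k) (hb ▸ H.d.adj l)
      have hc : ¬ Cg K k l := by
        rcases ncg with h | h
        · exact h
        · rw [hl, hk] at h
          exact absurd h (by simp)
      exact sepne H hc ha (Or.inr rfl) (meml H k) (meml H l)
    · have hen : s l = b (l - 1) := by
        have h := H.d.en (l - 1)
        rw [sub_add_cancel, hl] at h
        exact h
      have hb : b k = b (l - 1) := hs.symm.trans hen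
      have ha : a k = a (l - 1) := adj_l (H.d.adj k) (hb ▸ H.d.adj (l - 1))
      have hc : ¬ Cg K k (l - 1) := by
        rcases ncg1 with h | h
        · exact h
        · rw [hl, hk1] at h
          exact absurd h (by simp)
      exact sepne H hc ha (Or.inr rfl) (meml H k) (memr H l)

theorem part3 (H : Arcs Λ K θ s a b g X) (k l : ℤ) (hc : ¬ Cg K k l) (hg : g k = g l)
    (ho : oL a b g k = oL a b g l) :
    TL Λ (θ k) (oL a b g k) ≠ TL Λ (θ l) (oL a b g l) := by
  rw [← ho]
  rcases hk : g k with _ | _
  · have h1 : oL a b g k = a k := by unfold oL; rw [hk]; rfl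
    have h2 : oL a b g l = a l := by unfold oL; rw [← hg, hk]; rfl
    have ha : a k = a l := by rw [← h1, ho, h2]
    exact sepne H hc ha (Or.inl h1) (meml H k) (meml H l)
  · have h1 : oL a b g k = b k := by unfold oL; rw [hk]; rfl
    have h2 : oL a b g l = b l := by unfold oL; rw [← hg, hk]; rfl
    have hb : b k = b l := by rw [← h1, ho, h2]
    have ha : a k = a l := adj_l (H.d.adj k) (hb ▸ H.d.adj l)
    exact sepne H hc ha (Or.inr h1) (meml H k) (meml H l)

end DST

theorem t_DST : Stmt_DST := by
  intro Λ K θ s a b g X H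
  exact ⟨fun k l hc hs => DST.part1 H k l hc hs, fun k l hg hs => DST.part2 H k l hg hs,
    fun k l hc _ _ hg ho => DST.part3 H k l hc hg ho⟩

end LHE


end

section

/-!
# LAT: the polygons of a knot along a lattice path

Module LHE_LAT of the project MP_093788_gt. See `PAPER.md`, LAT.
-/

namespace LHE

open Set LG LH

namespace LAT

/-- A periodic integer sequence is bounded. -/
theorem bdd {L : ℕ} {m z : ℤ → ℤ} (D : LatD L m z) : ∃ B : ℤ, ∀ i, |m i| ≤ B := by
  have hper : ∀ (j : ℕ) (i : ℤ), m (i + j * L) = m i := by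
    intro j
    induction j with
    | zero => intro i; simp
    | succ j ih =>
      intro i
      have h := D.pm (i + j * L)
      rw [ih i] at h
      rw [← h]
      congr 1
      push_cast
      ring
  have hperz : ∀ (j i : ℤ), m (i + j * L) = m i := by
    intro j i
    rcases le_total 0 j with hj | hj
    · obtain ⟨n, rfl⟩ := Int.eq_ofNat_of_zero_le hj
      exact hper n i
    · obtain ⟨n, hn⟩ := Int.eq_ofNat_of_zero_le (neg_nonneg.2 hj)
      have h := hper n (i + j * L)
      have e : i + j * L + (n : ℤ) * L = i := by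
        rw [← hn]; ring
      rw [e] at h
      exact h.symm
  refine ⟨∑ r ∈ Finset.range L, |m r|, fun i => ?_⟩
  have hL : (0 : ℤ) < L := by exact_mod_cast D.Lpos
  have h0 : 0 ≤ i % L := Int.emod_nonneg i hL.ne'
  have h1 : i % L < L := Int.emod_lt_of_pos i hL
  obtain ⟨r, hr⟩ := Int.eq_ofNat_of_zero_le h0
  have hr' : r < L := by
    have : (r : ℤ) < L := by rw [← hr]; exact h1
    exact_mod_cast this
  have e : m i = m r := by
    have h := hperz (i / L) (i % L)
    have e2 : i % L + i / L * L = i := by
      have := Int.emod_add_mul_ediv i L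
      linarith [mul_comm (L : ℤ) (i / L)]
    rw [e2] at h
    rw [h, hr]
  rw [e]
  exact Finset.single_le_sum (f := fun r : ℕ => |m r|) (fun _ _ => abs_nonneg _)
    (Finset.mem_range.2 hr')

/-- Bounds for the codes of the left lines. -/
theorem ca_bd {m : ℤ → ℤ} {lo hi : ℤ} (R : Rng m lo hi) (k : ℤ) :
    lo + 2 ≤ ca m k ∧ ca m k + 1 ≤ hi - 1 := by
  have h := R (k / 3)
  unfold ca
  split_ifs <;> constructor <;> omega

/-- Bounds for the codes of the starting lines. -/
theorem cs_bd {m : ℤ → ℤ} {lo hi : ℤ} (R : Rng m lo hi) (k : ℤ) :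
    lo + 2 ≤ cs m k ∧ cs m k ≤ hi - 1 := by
  have h := R (k / 3)
  unfold cs
  split_ifs <;> constructor <;> omega

/-- Every real number lies in one of the intervals. -/
theorem find {θ : ℤ → ℝ} {K : ℕ} (hm : ∀ k, θ k < θ (k + 1))
    (hp : ∀ k, θ (k + (K : ℤ)) = θ k + 1) (u : ℝ) : ∃ k, θ k ≤ u ∧ u < θ (k + 1) := by
  have hs : StrictMono θ := strictMono_int_of_lt_succ hm
  have hper : ∀ (j : ℕ), θ (j * K) = θ 0 + j ∧ θ (-(j * K)) = θ 0 - j := by
    intro j
    induction j with
    | zero => simp
    | succ j ih =>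
      have h1 := hp (j * K)
      have h2 := hp (-((j + 1) * K))
      have e1 : ((j + 1 : ℕ) : ℤ) * K = j * K + K := by push_cast; ring
      have e2 : -(((j + 1 : ℕ) : ℤ) * K) = -((j + 1) * K) := by push_cast; ring
      have e3 : -(((j : ℤ) + 1) * K) + K = -(j * K) := by ring
      rw [e3] at h2
      have i1 := ih.1
      have i2 := ih.2
      constructor
      · rw [e1, h1, i1]
        push_cast
        ring
      · rw [e2]
        push_cast
        linarith
  obtain ⟨n, hn⟩ := exists_nat_gt (|u - θ 0|)
  have hn1 := (abs_lt.1 hn).1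
  have hn2 := (abs_lt.1 hn).2
  have hb : ∀ k, θ k ≤ u → k ≤ n * K := by
    intro k hk
    by_contra hc
    push Not at hc
    have := hs hc
    rw [(hper n).1] at this
    linarith
  have hi : θ (-(n * K)) ≤ u := by
    rw [(hper n).2]
    linarith
  obtain ⟨k, hk, hk'⟩ := Int.exists_greatest_of_bdd (P := fun k => θ k ≤ u) ⟨_, hb⟩ ⟨_, hi⟩
  refine ⟨k, hk, ?_⟩
  by_contra hc
  push Not at hc
  have := hk' (k + 1) hc
  omega

/-- The line of the turn. -/
theorem ln_co (X₀ w ε : ℝ) (m : ℤ → ℤ) (k : ℤ) :
    ln X₀ w ε (co m k) = oL (aR X₀ w ε m) (bR X₀ w ε m) (gd m) k := by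
  unfold co oL aR bR
  split_ifs <;> rfl

/-- The knot along a lattice path has a decomposition into arcs. -/
theorem arcs (hLNM : P_LNM) (hARD : P_ARD) (hTHI : P_THI) (hSPA : P_SPA) {Λ : LC.LegKnot}
    {X₀ P₀ w ε : ℝ} {L : ℕ} {m z : ℤ → ℤ} {ν θ : ℤ → ℝ} {lo hi : ℤ} (D : LatD L m z)
    (S : LatS Λ X₀ P₀ w L m z ν) (h0 : 0 < ε) (h1 : ε < w / 16) (T : Tht Λ X₀ w ε L m ν θ)
    (R : Rng m lo hi) (hq : ∀ t ∈ XL X₀ w ε lo hi, ∀ q : ℚ, Λ.x q ≠ t) :
    Arcs Λ (3 * L) θ (sR X₀ w ε m) (aR X₀ w ε m) (bR X₀ w ε m) (gd m) (XL X₀ w ε lo hi) := by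
  obtain ⟨hmono, -⟩ := hLNM X₀ w ε S.X0 S.w0 S.wX
  obtain ⟨t1, t2, t3, t4⟩ := hTHI Λ X₀ P₀ w ε L m z ν θ D S h0 h1 T
  have hlh : lo ≤ hi := by
    have := R 0
    omega
  refine ⟨hARD X₀ w ε L m z lo hi S.X0 S.w0 S.wX D R, t1, T.pθ, T.hit, t2, t3, t4, ?_, ?_, ?_, hq⟩
  · intro k l hkl hab t ht
    have hc : ca m k = ca m l := hmono.injective hab
    have hs := hSPA Λ X₀ P₀ w ε L m z ν θ D S h0 h1 T k l hkl hc
    rcases ht with rfl | rfl
    · exact hs _ (Or.inl rfl)
    · exact hs _ (Or.inr rfl)
  · refine ⟨ln X₀ w ε lo, Finset.mem_image_of_mem _ (Finset.mem_Icc.2 ⟨le_rfl, hlh⟩), fun u => ?_⟩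
    obtain ⟨k, hk1, hk2⟩ := find t1 T.pθ u
    rcases hk1.eq_or_lt with he | hl
    · rw [← he, T.hit]
      exact hmono (by have := (cs_bd R k).1; omega)
    · exact (hmono (by have := (ca_bd R k).1; omega)).trans (t3 k u ⟨hl, hk2⟩).1
  · refine ⟨ln X₀ w ε hi, Finset.mem_image_of_mem _ (Finset.mem_Icc.2 ⟨hlh, le_rfl⟩), fun u => ?_⟩
    obtain ⟨k, hk1, hk2⟩ := find t1 T.pθ u
    rcases hk1.eq_or_lt with he | hl
    · rw [← he, T.hit]
      exact hmono (by have := (cs_bd R k).2; omega)
    · exact (t3 k u ⟨hl, hk2⟩).2.trans (hmono (by have := (ca_bd R k).2; omega))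

/-- The walk of the arcs has the order of the walk of the codes. -/
theorem order (hLNM : P_LNM) (hARD : P_ARD) (hHOR : P_HOR) (hCMB : P_CMB) {Λ : LC.LegKnot}
    {X₀ P₀ w ε : ℝ} {L : ℕ} {m z : ℤ → ℤ} {ν θ : ℤ → ℝ} {lo hi : ℤ} (D : LatD L m z)
    (S : LatS Λ X₀ P₀ w L m z ν) (h0 : 0 < ε) (h1 : ε < w / 16) (T : Tht Λ X₀ w ε L m ν θ)
    (R : Rng m lo hi) :
    SO (aPts (3 * L) (sR X₀ w ε m) (oL (aR X₀ w ε m) (bR X₀ w ε m) (gd m)) (gd m)
        (fun k => (hcd m z k : ℝ)) (fun k => (vcd z k : ℝ)))
      (aPts (3 * L) (sR X₀ w ε m) (oL (aR X₀ w ε m) (bR X₀ w ε m) (gd m)) (gd m)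
        (fun k => zz Λ (θ k))
        (fun k => TL Λ (θ k) (oL (aR X₀ w ε m) (bR X₀ w ε m) (gd m) k))) := by
  obtain ⟨hmono, -⟩ := hLNM X₀ w ε S.X0 S.w0 S.wX
  obtain ⟨o1, o2, o3⟩ := hHOR Λ X₀ P₀ w ε L m z ν θ D S h0 h1 T
  refine hCMB (3 * L) _ _ _ _ (XL X₀ w ε lo hi) _ _ _ _
    (hARD X₀ w ε L m z lo hi S.X0 S.w0 S.wX D R) ?_ ?_ ?_
  · intro k l hkl hs
    have hc : cs m k = cs m l := hmono.injective hs
    rw [o1 k l hkl hc]
    exact Int.cast_lt
  · intro k l hg hs
    have hc : cs m l = co m k := by
      apply hmono.injective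
      rw [ln_co]
      exact hs
    have := o2 k l hg hc
    rw [← hs]
    refine ⟨?_, ?_⟩
    · rw [this.1]
      exact Int.cast_lt
    · rw [this.2]
      exact Int.cast_lt
  · intro k l hkl hg hg' hgg hs
    have hc : co m k = co m l := by
      apply hmono.injective
      rw [ln_co, ln_co]
      exact hs
    have hca : ca m k = ca m l := by
      unfold co at hc
      rw [hgg] at hc
      split_ifs at hc with h
      · omega
      · exact hc
    have := o3 k l hkl hg hg' hgg hca (co m k) rfl
    rw [← hs, ← ln_co, this]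
    exact Int.cast_lt

end LAT

theorem t_LAT : Stmt_LAT := by
  intro hLNM hARD hTHT hTHI hSPA hHOR hEPC hCDM hCMB hORE hSGM Λ X₀ P₀ w L m z ν D S
  obtain ⟨B, hB⟩ := LAT.bdd D
  have R : Rng m (-(3 * B) - 3) (3 * B + 4) := by
    intro i
    have := abs_le.1 (hB i)
    constructor <;> omega
  obtain ⟨ε, h0, h1, hq⟩ := hEPC Λ X₀ w (-(3 * B) - 3) (3 * B + 4) S.w0
  obtain ⟨θ, T⟩ := hTHT Λ X₀ P₀ w ε L m z ν D S h0 h1
  have A := LAT.arcs hLNM hARD hTHI hSPA D S h0 h1 T R hq
  obtain ⟨N₀, hN₀, hN⟩ := hSGM Λ (3 * L) θ _ _ _ _ _ A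
  refine ⟨N₀, hN₀, fun N hN' P hP => ?_⟩
  obtain ⟨W, hG, hW, hM⟩ := hN N hN' P hP
  refine ⟨_, W, hG, hW, fun M hRp => hM M ?_⟩
  have hmono := (hLNM X₀ w ε S.X0 S.w0 S.wX).1
  have s1 := hCDM (3 * L) (cs m) (co m) (gd m) (fun k => (hcd m z k : ℝ))
    (fun k => (vcd z k : ℝ)) (ln X₀ w ε) hmono
  have e1 : (fun k => ln X₀ w ε (co m k)) = oL (aR X₀ w ε m) (bR X₀ w ε m) (gd m) :=
    funext (LAT.ln_co X₀ w ε m)
  rw [e1] at s1
  exact hORE _ _ (LAT.order hLNM hARD hHOR hCMB D S h0 h1 T R) M (hORE _ _ s1 M hRp)

end LHE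


end

section

/-!
# Part A: paths in the surface near a saddle
-/

namespace LCA

open Set Filter
open scoped ContDiff Topology

namespace SDU

variable {m n : ℕ}

/-! ### paths -/

lemma joined_of {F : Set E5} {a b : ℝ} (γ : ℝ → E5) (hγ : ContinuousOn γ (uIcc a b))
    (hF : ∀ t ∈ uIcc a b, γ t ∈ F) : JoinedIn F (γ a) (γ b) := by
  have h1 : IsPathConnected (uIcc a b) :=
    (convex_uIcc a b).isPathConnected ⟨a, left_mem_uIcc⟩
  have h2 := h1.image' hγ
  refine (h2.joinedIn (γ a) (mem_image_of_mem _ left_mem_uIcc) (γ b)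
    (mem_image_of_mem _ right_mem_uIcc)).mono ?_
  rintro _ ⟨t, ht, rfl⟩
  exact hF t ht

lemma lin_fst (Q V : St n) (t s : ℝ) (i : Fin n) :
    (lin Q V t s).1 i = Q.1 i + (s - t) * V.1 i := by
  simp [lin]

lemma lin_snd (Q V : St n) (t s : ℝ) (i : Fin n) :
    (lin Q V t s).2 i = Q.2 i + (s - t) * V.2 i := by
  simp [lin]

lemma deriv_lin (Q V : St n) (t s : ℝ) : deriv (lin Q V t) s = V := by
  have h : HasDerivAt (lin Q V t) V s := by
    have h1 : HasDerivAt (fun s : ℝ => (s - t) • V) ((1 : ℝ) • V) s :=
      ((hasDerivAt_id s).sub_const t).smul_const V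
    have h2 := h1.const_add Q
    rw [one_smul] at h2
    exact h2
  exact h.deriv

lemma cont_fst (Q V : St n) (t : ℝ) (i : Fin n) : Continuous fun s => (lin Q V t s).1 i := by
  simp only [lin_fst]
  fun_prop

lemma cont_snd (Q V : St n) (t : ℝ) (i : Fin n) : Continuous fun s => (lin Q V t s).2 i := by
  simp only [lin_snd]
  fun_prop

lemma cont_pe (c : Comb m n) (Q V : St n) (t : ℝ) (K : Set ℝ) (e : Fin m)
    (h : ∀ s ∈ K, (lin Q V t s).1 (c.lf e) < (lin Q V t s).1 (c.rt e)) :
    ContinuousOn (fun s => c.pe (lin Q V t s) e) K := by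
  unfold Comb.pe
  apply ContinuousOn.div
  · exact ((cont_snd Q V t _).sub (cont_snd Q V t _)).continuousOn
  · exact ((cont_fst Q V t _).sub (cont_fst Q V t _)).continuousOn
  · intro s hs
    exact ne_of_gt (sub_pos.2 (h s hs))

lemma cont_ae (c : Comb m n) (Q V : St n) (t : ℝ) (K : Set ℝ) (e : Fin m)
    (h : ∀ s ∈ K, (lin Q V t s).1 (c.lf e) < (lin Q V t s).1 (c.rt e)) :
    ContinuousOn (fun s => c.ae (lin Q V t s) e) K := by
  unfold Comb.ae
  exact (cont_snd Q V t _).continuousOn.sub
    ((cont_pe c Q V t K e h).mul (cont_fst Q V t _).continuousOn)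

lemma cont_dpe (c : Comb m n) (Q V : St n) (t : ℝ) (K : Set ℝ) (e : Fin m)
    (h : ∀ s ∈ K, (lin Q V t s).1 (c.lf e) < (lin Q V t s).1 (c.rt e)) :
    ContinuousOn (fun s => c.dpe (lin Q V t s) V e) K := by
  unfold Comb.dpe
  apply ContinuousOn.div
  · exact continuousOn_const.sub ((cont_pe c Q V t K e h).mul continuousOn_const)
  · exact ((cont_fst Q V t _).sub (cont_fst Q V t _)).continuousOn
  · intro s hs
    exact ne_of_gt (sub_pos.2 (h s hs))

lemma cont_dae (c : Comb m n) (Q V : St n) (t : ℝ) (K : Set ℝ) (e : Fin m)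
    (h : ∀ s ∈ K, (lin Q V t s).1 (c.lf e) < (lin Q V t s).1 (c.rt e)) :
    ContinuousOn (fun s => c.dae (lin Q V t s) V e) K := by
  unfold Comb.dae
  exact (continuousOn_const.sub ((cont_dpe c Q V t K e h).mul
    (cont_fst Q V t _).continuousOn)).sub ((cont_pe c Q V t K e h).mul continuousOn_const)

lemma cont_ept (c : Comb m n) (Q V : St n) (t : ℝ) (K : Set ℝ) (e : Fin m)
    (h : ∀ s ∈ K, (lin Q V t s).1 (c.lf e) < (lin Q V t s).1 (c.rt e)) (x : ℝ → ℝ)
    (hx : ContinuousOn x K) :
    ContinuousOn (fun s => ((s, c.ept (lin Q V t s) V e (x s)) : E5)) K := by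
  unfold Comb.ept
  have h1 := cont_pe c Q V t K e h
  have h2 := cont_ae c Q V t K e h
  have h3 := cont_dpe c Q V t K e h
  have h4 := cont_dae c Q V t K e h
  exact continuousOn_id.prodMk (hx.prodMk (h1.prodMk (((h3.mul hx).add h4).prodMk
    ((h1.mul hx).add h2))))

lemma cont_vpt (c : Comb m n) (Q V : St n) (t : ℝ) (K : Set ℝ) (i : Fin n)
    (h : ∀ e, ∀ s ∈ K, (lin Q V t s).1 (c.lf e) < (lin Q V t s).1 (c.rt e))
    (w X P Θ Y : ℝ) :
    ContinuousOn (fun s => ((s, c.vpt (lin Q V t s) V i w X P Θ Y) : E5)) K := by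
  unfold Comb.vpt Comb.dl
  have h1 := fun e => cont_pe c Q V t K e (h e)
  have h2 := fun e => cont_ae c Q V t K e (h e)
  have h3 := fun e => cont_dpe c Q V t K e (h e)
  have h4 := fun e => cont_dae c Q V t K e (h e)
  have h5 : ContinuousOn (fun s => (lin Q V t s).1 i + w * X) K :=
    (cont_fst Q V t i).continuousOn.add continuousOn_const
  have h6 := (h1 (c.eb i)).sub (h1 (c.ea i))
  refine continuousOn_id.prodMk (h5.prodMk (((h1 _).add (h6.mul continuousOn_const)).prodMk
    (ContinuousOn.prodMk ?_ ?_)))
  · exact ((((h3 _).mul h5).add (h4 _)).add (continuousOn_const.mul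
      ((((h3 _).sub (h3 _)).mul continuousOn_const).add (h6.mul continuousOn_const)))).sub
      ((h6.mul continuousOn_const).mul continuousOn_const)
  · exact (((h1 _).mul h5).add (h2 _)).add ((continuousOn_const.mul h6).mul continuousOn_const)

/-- Paths along an edge. -/
lemma edge_path (c : Comb m n) (Q V : St n) (t : ℝ) (J : Set ℝ) (hJ : J.OrdConnected)
    (A : Set E5) (e : Fin m) (l r : ℝ → ℝ) (hl : Continuous l) (hr : Continuous r)
    (hlr : ∀ s ∈ J, l s ≤ r s)
    (hlt : ∀ s ∈ J, (lin Q V t s).1 (c.lf e) < (lin Q V t s).1 (c.rt e))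
    (hA : ∀ s ∈ J, ∀ x ∈ Icc (l s) (r s), ((s, c.ept (lin Q V t s) V e x) : E5) ∈ A)
    (s : ℝ) (hs : s ∈ J) (x : ℝ) (hx : x ∈ Icc (l s) (r s)) (d : ℝ) (hd : d ∈ J) :
    ∃ q' ∈ A, q'.1 = d ∧
      JoinedIn {r ∈ A | r.1 ∈ uIcc s d} ((s, c.ept (lin Q V t s) V e x) : E5) q' := by
  rw [← segment_eq_Icc (hlr s hs)] at hx
  obtain ⟨a, b, ha, hb, hab, rfl⟩ := hx
  have hsub : uIcc s d ⊆ J := hJ.uIcc_subset hs hd
  have hin : ∀ s' ∈ J, a • l s' + b • r s' ∈ Icc (l s') (r s') := by
    intro s' hs'
    rw [← segment_eq_Icc (hlr s' hs')]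
    exact ⟨a, b, ha, hb, hab, rfl⟩
  have hc : Continuous fun s' => a • l s' + b • r s' := by
    simp only [smul_eq_mul]
    exact (continuous_const.mul hl).add (continuous_const.mul hr)
  have hγ := cont_ept c Q V t (uIcc s d) e (fun s' hs' => hlt s' (hsub hs'))
    (fun s' => a • l s' + b • r s') hc.continuousOn
  refine ⟨(d, c.ept (lin Q V t d) V e (a • l d + b • r d)), hA d hd _ (hin d hd), rfl, ?_⟩
  exact joined_of _ hγ fun s' hs' => ⟨hA s' (hsub hs') _ (hin s' (hsub hs')), hs'⟩

/-! ### the profiles -/

lemma tau_zero (sh : Shape) : sh.τ 0 = 1 / 2 := by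
  have h := sh.τ_symm 0
  rw [neg_zero] at h
  linarith

lemma tau_mono (sh : Shape) : MonotoneOn sh.τ (Icc (-1) 1) := by
  have h : StrictMonoOn sh.τ (Icc (-1) 1) := by
    apply strictMonoOn_of_deriv_pos (convex_Icc _ _) sh.τ_smooth.continuous.continuousOn
    intro u hu
    rw [interior_Icc] at hu
    exact sh.τ_deriv u hu.1 hu.2
  exact h.monotoneOn

lemma tau_half (sh : Shape) (u : ℝ) (hu : 0 ≤ u) : 1 / 2 ≤ sh.τ u := by
  rcases le_total u 1 with h | h
  · rw [← tau_zero sh]
    exact tau_mono sh ⟨by norm_num, by norm_num⟩ ⟨by linarith, h⟩ hu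
  · rw [sh.τ_high u h]
    norm_num

lemma psi_deriv (sh : Shape) (u : ℝ) : HasDerivAt sh.Psi (2 * sh.τ u - 1) u := by
  unfold Shape.Psi
  exact ((sh.ΘP_deriv u).const_mul 2).sub (hasDerivAt_id u)

lemma psi_cont (sh : Shape) : Continuous sh.Psi :=
  continuous_iff_continuousAt.2 fun u => (psi_deriv sh u).continuousAt

lemma psi_mono (sh : Shape) : MonotoneOn sh.Psi (Ici 0) := by
  apply monotoneOn_of_deriv_nonneg (convex_Ici 0) (psi_cont sh).continuousOn
  · intro u _
    exact (psi_deriv sh u).differentiableAt.differentiableWithinAt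
  · intro u hu
    rw [interior_Ici] at hu
    rw [(psi_deriv sh u).deriv]
    have := tau_half sh u (le_of_lt hu)
    linarith

lemma psi_even (sh : Shape) (u : ℝ) : sh.Psi (-u) = sh.Psi u := by
  have h1 : ∀ u, HasDerivAt (fun u => sh.Psi u - sh.Psi (-u)) 0 u := by
    intro u
    have h2 := (psi_deriv sh (-u)).comp u (hasDerivAt_neg u)
    have h3 := (psi_deriv sh u).sub h2
    have h4 : 2 * sh.τ u - 1 - (2 * sh.τ (-u) - 1) * -1 = 0 := by
      rw [sh.τ_symm u]
      ring
    rw [h4] at h3
    exact h3
  have h5 := is_const_of_deriv_eq_zero (fun u => (h1 u).differentiableAt)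
    (fun u => (h1 u).deriv) u 0
  simp only [neg_zero, sub_self] at h5
  linarith

lemma psi_high (sh : Shape) (u : ℝ) (hu : 1 ≤ u) : sh.Psi u = u := by
  unfold Shape.Psi
  rw [sh.ΘP_high u hu]
  ring

lemma xi_cont (sh : Shape) : Continuous sh.ξ := sh.ξ_smooth.continuous

lemma xi_abs (sh : Shape) (u : ℝ) : sh.ξ u = sh.ξ |u| := by
  rcases abs_choice u with h | h
  · rw [h]
  · rw [h, sh.ξ_even]

lemma xi_le (sh : Shape) {u u' : ℝ} (h : |u| ≤ |u'|) : sh.ξ u' ≤ sh.ξ u := by
  rw [xi_abs sh u, xi_abs sh u']
  exact sh.ξ_anti.antitoneOn (abs_nonneg u) (abs_nonneg u') h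

/-! ### the surface near the critical point -/

lemma pt_cont (E : Evt) (sh : Shape) (ε₁ ε₂ : ℝ) : Continuous (E.pt sh ε₁ ε₂) := by
  have h1 := psi_cont sh
  have h2 := xi_cont sh
  have h3 := sh.τ_smooth.continuous
  have h4 := sh.ΘR_smooth.continuous
  have h5 := sh.ΘP_smooth.continuous
  unfold Evt.pt
  fun_prop

lemma pt_time (E : Evt) (sh : Shape) (u x : ℝ) : (E.pt sh 1 1 (u, x)).1 =
    E.s₀ - (E.r / E.v) * sh.ξ u - (E.r / E.v) * sh.Psi ((x - E.x₀) / E.r) := by
  simp only [Evt.pt]
  ring

lemma pt_x (E : Evt) (sh : Shape) (u x : ℝ) : (E.pt sh 1 1 (u, x)).2.1 = x := rfl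

/-- For `|u| ≥ 1` and `|x - x₀| ≥ r` the surface consists of four planes. -/
lemma pt_line (E : Evt) (hE : E.Pos) (sh : Shape) (u x : ℝ) (hu : 1 ≤ |u|)
    (hx : E.r ≤ |x - E.x₀|) : E.pt sh 1 1 (u, x) = ((E.pt sh 1 1 (u, x)).1, x,
      (if x < E.x₀ then E.P₁ else E.P₂) + (if x < E.x₀ then -1 else 1) *
        (if u < 0 then -1 else 1) * (E.g / 2),
      E.z₀ + (if u < 0 then -1 else 1) * E.ζ,
      E.F₀ + ((E.pt sh 1 1 (u, x)).1 - E.s₀) * (E.z₀ + (if u < 0 then -1 else 1) * E.ζ) +
        ((if x < E.x₀ then E.P₁ else E.P₂) + (if x < E.x₀ then -1 else 1) *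
        (if u < 0 then -1 else 1) * (E.g / 2)) * (x - E.x₀)) := by
  have hr := hE.r
  have hv := hE.v
  have hU : (x < E.x₀ ∧ (x - E.x₀) / E.r ≤ -1 ∧ sh.τ ((x - E.x₀) / E.r) = 0 ∧
      sh.ΘP ((x - E.x₀) / E.r) = 0) ∨ (¬ x < E.x₀ ∧ 1 ≤ (x - E.x₀) / E.r ∧
      sh.τ ((x - E.x₀) / E.r) = 1 ∧ sh.ΘP ((x - E.x₀) / E.r) = (x - E.x₀) / E.r) := by
    rcases le_or_gt E.x₀ x with h | h
    · rw [abs_of_nonneg (by linarith)] at hx
      have h1 : 1 ≤ (x - E.x₀) / E.r := by
        rw [le_div_iff₀ hr]
        linarith
      exact Or.inr ⟨not_lt.2 h, h1, sh.τ_high _ h1, sh.ΘP_high _ h1⟩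
    · rw [abs_of_neg (by linarith)] at hx
      have h1 : (x - E.x₀) / E.r ≤ -1 := by
        rw [div_le_iff₀ hr]
        linarith
      exact Or.inl ⟨h, h1, sh.τ_low _ h1, sh.ΘP_low _ h1⟩
  have hu' : (u < 0 ∧ sh.τ u = 0 ∧ sh.ξ u = u ∧ sh.ΘR u = 0) ∨
      (¬ u < 0 ∧ sh.τ u = 1 ∧ sh.ξ u = -u ∧ sh.ΘR u = -u) := by
    rcases le_or_gt 0 u with h | h
    · have h1 : 1 ≤ u := by
        rw [abs_of_nonneg h] at hu
        exact hu
      refine Or.inr ⟨not_lt.2 h, sh.τ_high _ h1, ?_, sh.ΘR_high _ h1⟩
      rw [sh.ξ_out u hu, abs_of_nonneg h]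
    · have h1 : u ≤ -1 := by
        rw [abs_of_neg h] at hu
        linarith
      refine Or.inl ⟨h, sh.τ_low _ h1, ?_, sh.ΘR_low _ h1⟩
      rw [sh.ξ_out u hu, abs_of_neg h]
      ring
  rcases hU with ⟨a1, -, a3, a4⟩ | ⟨a1, -, a3, a4⟩ <;>
  rcases hu' with ⟨b1, b2, b3, b4⟩ | ⟨b1, b2, b3, b4⟩ <;>
  simp only [Evt.pt, Shape.Psi, Evt.ζ, a1, a3, a4, b1, b2, b3, b4, if_true, if_false,
    Prod.mk.injEq, true_and] <;>
  refine ⟨?_, ?_, ?_⟩ <;> field_simp <;> ring

/-! ### the edges at the critical point -/

/-- An edge with constant slope. -/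
lemma pe_const (c : Comb m n) (Q V : St n) (t s : ℝ) (e : Fin m)
    (h0 : Q.1 (c.lf e) < Q.1 (c.rt e))
    (h : (lin Q V t s).1 (c.lf e) < (lin Q V t s).1 (c.rt e)) (hd : c.dpe Q V e = 0) :
    c.pe (lin Q V t s) e = c.pe Q e ∧ c.dpe (lin Q V t s) V e = 0 ∧
      V.2 (c.rt e) - V.2 (c.lf e) = c.pe Q e * (V.1 (c.rt e) - V.1 (c.lf e)) ∧
      Q.2 (c.rt e) - Q.2 (c.lf e) = c.pe Q e * (Q.1 (c.rt e) - Q.1 (c.lf e)) := by
  have h1 : V.2 (c.rt e) - V.2 (c.lf e) = c.pe Q e * (V.1 (c.rt e) - V.1 (c.lf e)) := by
    unfold Comb.dpe at hd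
    rw [div_eq_zero_iff] at hd
    rcases hd with hd | hd
    · linarith
    · linarith
  have h2 : Q.2 (c.rt e) - Q.2 (c.lf e) = c.pe Q e * (Q.1 (c.rt e) - Q.1 (c.lf e)) := by
    unfold Comb.pe
    rw [div_mul_cancel₀]
    linarith
  have h3 : c.pe (lin Q V t s) e = c.pe Q e := by
    have h4 : (lin Q V t s).1 (c.rt e) - (lin Q V t s).1 (c.lf e) ≠ 0 := by linarith
    rw [show c.pe (lin Q V t s) e = ((lin Q V t s).2 (c.rt e) - (lin Q V t s).2 (c.lf e)) /
      ((lin Q V t s).1 (c.rt e) - (lin Q V t s).1 (c.lf e)) from rfl, div_eq_iff h4]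
    simp only [lin_fst, lin_snd]
    linear_combination h2 + (s - t) * h1
  refine ⟨h3, ?_, h1, h2⟩
  unfold Comb.dpe
  rw [h3, h1]
  simp

/-- The line of an edge with constant slope one of whose ends does not move horizontally. -/
lemma ept_end (c : Comb m n) (Q V : St n) (t s : ℝ) (e : Fin m) (i : Fin n)
    (hi : c.lf e = i ∨ c.rt e = i) (h0 : Q.1 (c.lf e) < Q.1 (c.rt e))
    (h : (lin Q V t s).1 (c.lf e) < (lin Q V t s).1 (c.rt e)) (hd : c.dpe Q V e = 0)
    (hV : V.1 i = 0) (x : ℝ) :
    c.ept (lin Q V t s) V e x = (x, c.pe Q e, V.2 i,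
      Q.2 i + (s - t) * V.2 i + c.pe Q e * (x - Q.1 i)) := by
  obtain ⟨h1, h2, h3, h4⟩ := pe_const c Q V t s e h0 h hd
  unfold Comb.ept Comb.dae Comb.ae
  rw [h1, h2]
  rcases hi with rfl | rfl
  · simp only [lin_fst, lin_snd, hV, Prod.mk.injEq, true_and]
    constructor <;> ring
  · simp only [lin_fst, lin_snd, Prod.mk.injEq, true_and]
    rw [hV] at h3
    constructor
    · linear_combination -h3
    · linear_combination -h4 - (s - t) * h3

variable {c c' : Comb m n} {w : Fin n → ℝ} {L R : Fin n} {H₁ H₂ H₃ H₄ : Fin m} {E : Evt}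
  {Q V V' : St n} {η : ℝ}

/-- The ends of the four edges. -/
lemma ends (S : Saddle c c' w L R H₁ H₂ H₃ H₄ E Q V V' η) :
    c'.rt H₁ = L ∧ c'.lf H₂ = R ∧ c'.rt H₃ = R ∧ c'.lf H₄ = L := by
  have hC := S.comb
  have a1 := hC.valid'.oka L
  have a2 := hC.valid'.okb L
  have a3 := hC.valid'.oka R
  have a4 := hC.valid'.okb R
  unfold Comb.OKa at a1 a3
  unfold Comb.OKb at a2 a4
  rw [hC.tyL'] at a1 a2
  rw [hC.tyR'] at a3 a4
  rw [hC.aL'] at a1
  rw [hC.bL'] at a2
  rw [hC.aR'] at a3
  rw [hC.bR'] at a4
  exact ⟨a1, a4, a3, a2⟩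

lemma eta_pos (S : Saddle c c' w L R H₁ H₂ H₃ H₄ E Q V V' η) : 0 < η := by
  have h1 := S.small
  have h2 := S.pos.v
  have h3 := S.pos.r
  have h4 : 0 < E.v * η := by linarith
  exact (pos_iff_pos_of_mul_pos h4).1 h2

lemma len (S : Saddle c c' w L R H₁ H₂ H₃ H₄ E Q V V' η) {s : ℝ}
    (hs : s ∈ Ioo (E.s₀ - η) (E.s₀ + η)) (e : Fin m) :
    2 * (w (c'.lf e) + w (c'.rt e)) <
      (lin Q V' E.s₀ s).1 (c'.rt e) - (lin Q V' E.s₀ s).1 (c'.lf e) :=
  (S.cert (s - E.s₀) ⟨by linarith [hs.1], by linarith [hs.2]⟩).len e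

lemma lt (S : Saddle c c' w L R H₁ H₂ H₃ H₄ E Q V V' η) {s : ℝ}
    (hs : s ∈ Ioo (E.s₀ - η) (E.s₀ + η)) (e : Fin m) :
    (lin Q V' E.s₀ s).1 (c'.lf e) < (lin Q V' E.s₀ s).1 (c'.rt e) := by
  have h1 := len S hs e
  have h2 := S.wpos (c'.lf e)
  have h3 := S.wpos (c'.rt e)
  linarith

lemma lt0 (S : Saddle c c' w L R H₁ H₂ H₃ H₄ E Q V V' η) (e : Fin m) :
    Q.1 (c'.lf e) < Q.1 (c'.rt e) := by
  have h := eta_pos S
  have h1 := lt S (s := E.s₀) ⟨by linarith, by linarith⟩ e
  simpa only [lin_fst, sub_self, zero_mul, add_zero] using h1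

lemma posL (S : Saddle c c' w L R H₁ H₂ H₃ H₄ E Q V V' η) (s : ℝ) :
    (lin Q V' E.s₀ s).1 L = E.x₀ := by
  rw [lin_fst, S.xL, S.xL', mul_zero, add_zero]

lemma posR (S : Saddle c c' w L R H₁ H₂ H₃ H₄ E Q V V' η) (s : ℝ) :
    (lin Q V' E.s₀ s).1 R = E.x₀ := by
  rw [lin_fst, S.xR, S.xR', mul_zero, add_zero]

/-- The two edges on the left and on the right. -/
def Lft (w : Fin n → ℝ) (c' : Comb m n) (E : Evt) (Q V' : St n) (η : ℝ) (e : Fin m) : Prop :=
  (∀ s, (lin Q V' E.s₀ s).1 (c'.rt e) - 2 * w (c'.rt e) = E.x₀ - 2 * E.r) ∧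
    ∀ s ∈ Ioo (E.s₀ - η) (E.s₀ + η), (lin Q V' E.s₀ s).1 (c'.lf e) + 2 * w (c'.lf e) <
      E.x₀ - (E.v * η + 4 * E.r)

/-- The two edges on the left and on the right. -/
def Rgt (w : Fin n → ℝ) (c' : Comb m n) (E : Evt) (Q V' : St n) (η : ℝ) (e : Fin m) : Prop :=
  (∀ s, (lin Q V' E.s₀ s).1 (c'.lf e) + 2 * w (c'.lf e) = E.x₀ + 2 * E.r) ∧
    ∀ s ∈ Ioo (E.s₀ - η) (E.s₀ + η), E.x₀ + (E.v * η + 4 * E.r) <
      (lin Q V' E.s₀ s).1 (c'.rt e) - 2 * w (c'.rt e)

lemma l1 (S : Saddle c c' w L R H₁ H₂ H₃ H₄ E Q V V' η) : Lft w c' E Q V' η H₁ := by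
  refine ⟨fun s => ?_, fun s hs => S.len1 (s - E.s₀) ⟨by linarith [hs.1], by linarith [hs.2]⟩⟩
  rw [(ends S).1, posL S, S.wL]

lemma l3 (S : Saddle c c' w L R H₁ H₂ H₃ H₄ E Q V V' η) : Lft w c' E Q V' η H₃ := by
  refine ⟨fun s => ?_, fun s hs => S.len3 (s - E.s₀) ⟨by linarith [hs.1], by linarith [hs.2]⟩⟩
  rw [(ends S).2.2.1, posR S, S.wR]

lemma r2 (S : Saddle c c' w L R H₁ H₂ H₃ H₄ E Q V V' η) : Rgt w c' E Q V' η H₂ := by
  refine ⟨fun s => ?_, fun s hs => S.len2 (s - E.s₀) ⟨by linarith [hs.1], by linarith [hs.2]⟩⟩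
  rw [(ends S).2.1, posR S, S.wR]

lemma r4 (S : Saddle c c' w L R H₁ H₂ H₃ H₄ E Q V V' η) : Rgt w c' E Q V' η H₄ := by
  refine ⟨fun s => ?_, fun s hs => S.len4 (s - E.s₀) ⟨by linarith [hs.1], by linarith [hs.2]⟩⟩
  rw [(ends S).2.2.2, posL S, S.wL]

/-- The surface. -/
def AA (c' : Comb m n) (w : Fin n → ℝ) (L R : Fin n) (H₁ H₂ H₃ H₄ : Fin m) (E : Evt)
    (Q V' : St n) (η : ℝ) (sh : Shape) : Set E5 :=
  c'.sad w (c'.sp sh) (lin Q V' E.s₀) L R H₁ H₂ H₃ H₄ E sh (E.v * η + 2 * E.r)

/-- Paths on the four edges. -/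
lemma hk_path (S : Saddle c c' w L R H₁ H₂ H₃ H₄ E Q V V' η) (sh : Shape) (s : ℝ)
    (hs : s ∈ Ioo (E.s₀ - η) (E.s₀ + η)) (e : Fin m)
    (he : e = H₁ ∨ e = H₂ ∨ e = H₃ ∨ e = H₄) (x : ℝ)
    (hx : x ∈ c'.rg w (lin Q V' E.s₀ s) e) (hρ : E.v * η + 2 * E.r ≤ |x - E.x₀|) (d : ℝ)
    (hd : d ∈ Ioo (E.s₀ - η) (E.s₀ + η)) :
    ∃ q' ∈ AA c' w L R H₁ H₂ H₃ H₄ E Q V' η sh, q'.1 = d ∧
      JoinedIn {r ∈ AA c' w L R H₁ H₂ H₃ H₄ E Q V' η sh | r.1 ∈ uIcc s d}
        ((s, c'.ept (lin Q V' E.s₀ s) V' e x) : E5) q' := by
  have hη := eta_pos S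
  have hr := S.pos.r
  have hv := S.pos.v
  have hvη : 0 < E.v * η := mul_pos hv hη
  have hcl : Lft w c' E Q V' η e ∨ Rgt w c' E Q V' η e := by
    rcases he with rfl | rfl | rfl | rfl
    · exact Or.inl (l1 S)
    · exact Or.inr (r2 S)
    · exact Or.inl (l3 S)
    · exact Or.inr (r4 S)
  have hmem : ∀ s' : ℝ, ∀ x' ∈ c'.rg w (lin Q V' E.s₀ s') e, E.v * η + 2 * E.r ≤ |x' - E.x₀| →
      ((s', c'.ept (lin Q V' E.s₀ s') V' e x') : E5) ∈
        AA c' w L R H₁ H₂ H₃ H₄ E Q V' η sh := by
    intro s' x' hx' hx''
    refine Or.inr (Or.inr (Or.inl ⟨e, he, x', hx', hx'', ?_⟩))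
    simp only [deriv_lin]
  rcases hcl with ⟨h1, h2⟩ | ⟨h1, h2⟩
  · have hx0 : x ≤ E.x₀ - 2 * E.r := by
      rw [← h1 s]
      exact hx.2
    rw [abs_of_neg (by linarith)] at hρ
    refine edge_path c' Q V' E.s₀ (Ioo (E.s₀ - η) (E.s₀ + η)) ordConnected_Ioo _ e
      (fun s => (lin Q V' E.s₀ s).1 (c'.lf e) + 2 * w (c'.lf e))
      (fun _ => E.x₀ - (E.v * η + 2 * E.r)) ((cont_fst Q V' E.s₀ _).add continuous_const)
      continuous_const (fun s hs => ?_) (fun s hs => lt S hs e) (fun s hs x hx => ?_) s hs x
      ⟨hx.1, by linarith⟩ d hd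
    · have := h2 s hs
      linarith
    · apply hmem s x
      · refine ⟨hx.1, ?_⟩
        rw [h1 s]
        linarith [hx.2]
      · rw [abs_of_neg (by linarith [hx.2])]
        linarith [hx.2]
  · have hx0 : E.x₀ + 2 * E.r ≤ x := by
      rw [← h1 s]
      exact hx.1
    rw [abs_of_pos (by linarith)] at hρ
    refine edge_path c' Q V' E.s₀ (Ioo (E.s₀ - η) (E.s₀ + η)) ordConnected_Ioo _ e
      (fun _ => E.x₀ + (E.v * η + 2 * E.r))
      (fun s => (lin Q V' E.s₀ s).1 (c'.rt e) - 2 * w (c'.rt e))
      continuous_const ((cont_fst Q V' E.s₀ _).sub continuous_const)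
      (fun s hs => ?_) (fun s hs => lt S hs e) (fun s hs x hx => ?_) s hs x
      ⟨by linarith, hx.2⟩ d hd
    · have := h2 s hs
      linarith
    · apply hmem s x
      · refine ⟨?_, hx.2⟩
        rw [h1 s]
        linarith [hx.1]
      · rw [abs_of_pos (by linarith [hx.1])]
        linarith [hx.1]

/-- Paths on the other pieces and on the four edges. -/
lemma out_path (S : Saddle c c' w L R H₁ H₂ H₃ H₄ E Q V V' η) (sh : Shape) (q : E5)
    (hq : q ∈ AA c' w L R H₁ H₂ H₃ H₄ E Q V' η sh) (hs : q.1 ∈ Ioo (E.s₀ - η) (E.s₀ + η))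
    (hn : ¬ (q ∈ E.set sh 1 1 ∧ |q.2.1 - E.x₀| < E.v * η + 2 * E.r)) (d : ℝ)
    (hd : d ∈ Ioo (E.s₀ - η) (E.s₀ + η)) :
    ∃ q' ∈ AA c' w L R H₁ H₂ H₃ H₄ E Q V' η sh, q'.1 = d ∧
      JoinedIn {r ∈ AA c' w L R H₁ H₂ H₃ H₄ E Q V' η sh | r.1 ∈ uIcc q.1 d} q q' := by
  obtain ⟨s, q2⟩ := q
  simp only at hs
  rcases hq with ⟨e, e1, e2, e3, e4, x, hx, hq⟩ | ⟨i, i1, i2, u, hu, hq⟩ |
    ⟨e, he, x, hx, hρ, hq⟩ | h
  · simp only [deriv_lin] at hx hq
    subst hq
    refine edge_path c' Q V' E.s₀ (Ioo (E.s₀ - η) (E.s₀ + η)) ordConnected_Ioo _ e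
      (fun s => (lin Q V' E.s₀ s).1 (c'.lf e) + 2 * w (c'.lf e))
      (fun s => (lin Q V' E.s₀ s).1 (c'.rt e) - 2 * w (c'.rt e))
      ((cont_fst Q V' E.s₀ _).add continuous_const)
      ((cont_fst Q V' E.s₀ _).sub continuous_const) (fun s hs => ?_)
      (fun s hs => lt S hs e) (fun s hs x hx => ?_) s hs x hx d hd
    · have := len S hs e
      linarith
    · refine Or.inl ⟨e, e1, e2, e3, e4, x, hx, ?_⟩
      simp only [deriv_lin]
  · simp only [deriv_lin] at hq
    subst hq
    have hmem : ∀ s' : ℝ, ((s', c'.vp w (c'.sp sh) s' (lin Q V' E.s₀ s') V' i u) : E5) ∈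
        AA c' w L R H₁ H₂ H₃ H₄ E Q V' η sh := by
      intro s'
      refine Or.inr (Or.inl ⟨i, i1, i2, u, hu, ?_⟩)
      simp only [deriv_lin]
    have hsub : uIcc s d ⊆ Ioo (E.s₀ - η) (E.s₀ + η) := ordConnected_Ioo.uIcc_subset hs hd
    refine ⟨(d, c'.vp w (c'.sp sh) d (lin Q V' E.s₀ d) V' i u), hmem d, rfl, ?_⟩
    refine joined_of (fun s' => ((s', c'.vp w (c'.sp sh) s' (lin Q V' E.s₀ s') V' i u) : E5))
      ?_ fun s' hs' => ⟨hmem s', hs'⟩
    exact cont_vpt c' Q V' E.s₀ (uIcc s d) i (fun e s' hs' => lt S (hsub hs') e) (w i)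
      ((c'.sp sh i).X 0 u) ((c'.sp sh i).P 0 u) ((c'.sp sh i).Θ 0 u) ((c'.sp sh i).Y 0 u)
  · simp only [deriv_lin] at hx hq
    subst hq
    exact hk_path S sh s hs e he x hx hρ d hd
  · exact absurd h hn

/-- On the boundary of the tube the surface continues with the four edges. -/
lemma bdry (S : Saddle c c' w L R H₁ H₂ H₃ H₄ E Q V V' η) (sh : Shape) (u x : ℝ)
    (hu : 1 ≤ |u|) (hx : |x - E.x₀| = E.v * η + 2 * E.r)
    (hs : (E.pt sh 1 1 (u, x)).1 ∈ Ioo (E.s₀ - η) (E.s₀ + η)) :
    ∃ e, (e = H₁ ∨ e = H₂ ∨ e = H₃ ∨ e = H₄) ∧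
      x ∈ c'.rg w (lin Q V' E.s₀ (E.pt sh 1 1 (u, x)).1) e ∧
      E.pt sh 1 1 (u, x) = ((E.pt sh 1 1 (u, x)).1,
        c'.ept (lin Q V' E.s₀ (E.pt sh 1 1 (u, x)).1) V' e x) := by
  have hη := eta_pos S
  have hr := S.pos.r
  have hv := S.pos.v
  have hvη : 0 < E.v * η := mul_pos hv hη
  have hpt := pt_line E S.pos sh u x hu (by rw [hx]; linarith)
  have hE := ends S
  generalize (E.pt sh 1 1 (u, x)).1 = s at hpt hs ⊢
  rcases le_or_gt E.x₀ x with h | h
  · have hx' : x = E.x₀ + (E.v * η + 2 * E.r) := by
      rw [abs_of_nonneg (by linarith)] at hx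
      linarith
    rcases le_or_gt 0 u with h' | h'
    · obtain ⟨a1, a2⟩ := r2 S
      refine ⟨H₂, by simp, ⟨?_, ?_⟩, ?_⟩
      · rw [a1 s, hx']
        linarith
      · have := a2 s hs
        linarith
      · rw [hpt, ept_end c' Q V' E.s₀ s H₂ R (Or.inl hE.2.1) (lt0 S _) (lt S hs _) S.d2 S.xR' x,
          S.p2, S.FR', S.FR, S.xR]
        simp only [not_lt.2 h, not_lt.2 h', if_false, Prod.mk.injEq, true_and]
        refine ⟨?_, ?_, ?_⟩ <;> ring
    · obtain ⟨a1, a2⟩ := r4 S
      refine ⟨H₄, by simp, ⟨?_, ?_⟩, ?_⟩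
      · rw [a1 s, hx']
        linarith
      · have := a2 s hs
        linarith
      · rw [hpt, ept_end c' Q V' E.s₀ s H₄ L (Or.inl hE.2.2.2) (lt0 S _) (lt S hs _) S.d4
          S.xL' x, S.p4, S.FL', S.FL, S.xL]
        simp only [not_lt.2 h, h', if_false, if_true, Prod.mk.injEq, true_and]
        refine ⟨?_, ?_, ?_⟩ <;> ring
  · have hx' : x = E.x₀ - (E.v * η + 2 * E.r) := by
      rw [abs_of_neg (by linarith)] at hx
      linarith
    rcases le_or_gt 0 u with h' | h'
    · obtain ⟨a1, a2⟩ := l3 S
      refine ⟨H₃, by simp, ⟨?_, ?_⟩, ?_⟩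
      · have := a2 s hs
        linarith
      · rw [a1 s, hx']
        linarith
      · rw [hpt, ept_end c' Q V' E.s₀ s H₃ R (Or.inr hE.2.2.1) (lt0 S _) (lt S hs _) S.d3
          S.xR' x, S.p3, S.FR', S.FR, S.xR]
        simp only [h, not_lt.2 h', if_false, if_true, Prod.mk.injEq, true_and]
        refine ⟨?_, ?_, ?_⟩ <;> ring
    · obtain ⟨a1, a2⟩ := l1 S
      refine ⟨H₁, by simp, ⟨?_, ?_⟩, ?_⟩
      · have := a2 s hs
        linarith
      · rw [a1 s, hx']
        linarith
      · rw [hpt, ept_end c' Q V' E.s₀ s H₁ L (Or.inr hE.1) (lt0 S _) (lt S hs _) S.d1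
          S.xL' x, S.p1, S.FL', S.FL, S.xL]
        simp only [h, h', if_true, Prod.mk.injEq, true_and]
        refine ⟨?_, ?_, ?_⟩ <;> ring

/-- Up in the tube: `x` is fixed. -/
lemma tube_up (S : Saddle c c' w L R H₁ H₂ H₃ H₄ E Q V V' η) (sh : Shape) (u x : ℝ)
    (hx : |x - E.x₀| < E.v * η + 2 * E.r)
    (d : ℝ) (hsd : (E.pt sh 1 1 (u, x)).1 ≤ d) :
    ∃ q' ∈ AA c' w L R H₁ H₂ H₃ H₄ E Q V' η sh, q'.1 = d ∧
      JoinedIn {r ∈ AA c' w L R H₁ H₂ H₃ H₄ E Q V' η sh |
        r.1 ∈ Icc (E.pt sh 1 1 (u, x)).1 d} (E.pt sh 1 1 (u, x)) q' := by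
  have hr := S.pos.r
  have hv := S.pos.v
  have hrv : 0 < E.r / E.v := div_pos hr hv
  -- the time as a function of `u`
  have hcont : Continuous fun u' => (E.pt sh 1 1 (u', x)).1 := by
    have h1 := pt_cont E sh 1 1
    fun_prop
  have hmono : ∀ u₁ u₂ : ℝ, |u₁| ≤ |u₂| → (E.pt sh 1 1 (u₁, x)).1 ≤ (E.pt sh 1 1 (u₂, x)).1 := by
    intro u₁ u₂ h
    rw [pt_time, pt_time]
    have := mul_le_mul_of_nonneg_left (xi_le sh h) hrv.le
    linarith
  -- a far away parameter
  obtain ⟨M, hM1, hM2, hM3⟩ : ∃ M : ℝ, 1 ≤ M ∧ |u| ≤ M ∧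
      d ≤ E.s₀ + (E.r / E.v) * M - (E.r / E.v) * sh.Psi ((x - E.x₀) / E.r) := by
    refine ⟨max (max 1 |u|) ((d - E.s₀ + (E.r / E.v) * sh.Psi ((x - E.x₀) / E.r)) /
      (E.r / E.v)), le_trans (le_max_left _ _) (le_max_left _ _),
      le_trans (le_max_right _ _) (le_max_left _ _), ?_⟩
    have h1 := le_max_right (max 1 |u|) ((d - E.s₀ + (E.r / E.v) *
      sh.Psi ((x - E.x₀) / E.r)) / (E.r / E.v))
    have h2 := mul_le_mul_of_nonneg_left h1 hrv.le
    rw [mul_div_cancel₀ _ hrv.ne'] at h2
    linarith only [h2]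
  -- the sign of `u`
  obtain ⟨σ, hσ, hσu⟩ : ∃ σ : ℝ, |σ| = 1 ∧ σ * |u| = u := by
    rcases le_or_gt 0 u with h | h
    · exact ⟨1, by simp, by rw [abs_of_nonneg h, one_mul]⟩
    · exact ⟨-1, by simp, by rw [abs_of_neg h]; ring⟩
  have hg : ContinuousOn (fun y => (E.pt sh 1 1 (σ * y, x)).1) (Icc |u| M) :=
    (hcont.comp (continuous_const.mul continuous_id)).continuousOn
  have hend : d ≤ (E.pt sh 1 1 (σ * M, x)).1 := by
    have h1 : |σ * M| = M := by rw [abs_mul, hσ, one_mul, abs_of_nonneg (by linarith)]
    rw [pt_time, sh.ξ_out (σ * M) (by rw [h1]; exact hM1), h1]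
    linarith
  have hstart : (E.pt sh 1 1 (σ * |u|, x)).1 ≤ d := by
    rw [hσu]
    exact hsd
  obtain ⟨y, hy, hyd⟩ := intermediate_value_Icc hM2 hg ⟨hstart, hend⟩
  simp only at hyd
  have hin : ∀ u', E.pt sh 1 1 (u', x) ∈ AA c' w L R H₁ H₂ H₃ H₄ E Q V' η sh :=
    fun u' => Or.inr (Or.inr (Or.inr ⟨⟨(u', x), rfl⟩, hx⟩))
  refine ⟨E.pt sh 1 1 (σ * y, x), hin _, hyd, ?_⟩
  have hJ := joined_of (F := {r ∈ AA c' w L R H₁ H₂ H₃ H₄ E Q V' η sh |
    r.1 ∈ Icc (E.pt sh 1 1 (u, x)).1 d}) (a := |u|) (b := y)
    (fun y' => E.pt sh 1 1 (σ * y', x)) ?_ ?_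
  · simp only [hσu] at hJ
    exact hJ
  · have h1 := pt_cont E sh 1 1
    exact (h1.comp (by fun_prop : Continuous fun y' : ℝ => (σ * y', x))).continuousOn
  · intro y' hy'
    rw [uIcc_of_le hy.1] at hy'
    refine ⟨hin _, ?_⟩
    have h0 : 0 ≤ |u| := abs_nonneg u
    have h1 : ∀ z : ℝ, 0 ≤ z → |σ * z| = z := fun z hz => by
      rw [abs_mul, hσ, one_mul, abs_of_nonneg hz]
    have h2 := hmono (σ * |u|) (σ * y') (by
      rw [h1 _ h0, h1 _ (le_trans h0 hy'.1)]
      exact hy'.1)
    have h3 := hmono (σ * y') (σ * y) (by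
      rw [h1 _ (le_trans h0 hy'.1), h1 _ (le_trans h0 hy.1)]
      exact hy'.2)
    rw [hσu] at h2
    rw [hyd] at h3
    exact ⟨h2, h3⟩

/-- Down in the tube: `u` is fixed. -/
lemma tube_down (S : Saddle c c' w L R H₁ H₂ H₃ H₄ E Q V V' η) (sh : Shape) (u x : ℝ)
    (hx : |x - E.x₀| < E.v * η + 2 * E.r)
    (hs : (E.pt sh 1 1 (u, x)).1 ∈ Ioo (E.s₀ - η) (E.s₀ + η)) (d : ℝ)
    (hd : d ∈ Ioo (E.s₀ - η) (E.s₀ + η)) (hsd : d ≤ (E.pt sh 1 1 (u, x)).1) :
    ∃ q' ∈ AA c' w L R H₁ H₂ H₃ H₄ E Q V' η sh, q'.1 = d ∧
      JoinedIn {r ∈ AA c' w L R H₁ H₂ H₃ H₄ E Q V' η sh |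
        r.1 ∈ Icc d (E.pt sh 1 1 (u, x)).1} (E.pt sh 1 1 (u, x)) q' := by
  have hη := eta_pos S
  have hr := S.pos.r
  have hv := S.pos.v
  have hvη : 0 < E.v * η := mul_pos hv hη
  have hrv : 0 < E.r / E.v := div_pos hr hv
  set ρ : ℝ := E.v * η + 2 * E.r with hρ
  -- the side
  obtain ⟨σ, hσ, hσx⟩ : ∃ σ : ℝ, |σ| = 1 ∧ E.x₀ + σ * |x - E.x₀| = x := by
    rcases le_or_gt 0 (x - E.x₀) with h | h
    · exact ⟨1, by simp, by rw [abs_of_nonneg h]; ring⟩
    · exact ⟨-1, by simp, by rw [abs_of_neg h]; ring⟩
  set y₀ : ℝ := |x - E.x₀| with hy₀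
  have hy₀0 : 0 ≤ y₀ := abs_nonneg _
  have hpsi : ∀ y : ℝ, sh.Psi ((E.x₀ + σ * y - E.x₀) / E.r) = sh.Psi (y / E.r) := by
    intro y
    rcases (abs_eq (zero_le_one)).1 hσ with h | h
    · rw [h]
      congr 1
      ring
    · rw [h, ← psi_even]
      congr 1
      ring
  have htime : ∀ y : ℝ, (E.pt sh 1 1 (u, E.x₀ + σ * y)).1 =
      E.s₀ - (E.r / E.v) * sh.ξ u - (E.r / E.v) * sh.Psi (y / E.r) := by
    intro y
    rw [pt_time, hpsi]
  have hmono : ∀ y₁ y₂ : ℝ, 0 ≤ y₁ → y₁ ≤ y₂ →
      (E.pt sh 1 1 (u, E.x₀ + σ * y₂)).1 ≤ (E.pt sh 1 1 (u, E.x₀ + σ * y₁)).1 := by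
    intro y₁ y₂ h1 h2
    rw [htime, htime]
    have h3 : sh.Psi (y₁ / E.r) ≤ sh.Psi (y₂ / E.r) := by
      apply psi_mono sh
      · exact div_nonneg h1 hr.le
      · exact div_nonneg (le_trans h1 h2) hr.le
      · exact div_le_div_of_nonneg_right h2 hr.le
    have := mul_le_mul_of_nonneg_left h3 hrv.le
    linarith
  have hptc : Continuous fun y : ℝ => E.pt sh 1 1 (u, E.x₀ + σ * y) :=
    (pt_cont E sh 1 1).comp (by fun_prop : Continuous fun y : ℝ => (u, E.x₀ + σ * y))
  have hin : ∀ y : ℝ, 0 ≤ y → y < ρ →
      E.pt sh 1 1 (u, E.x₀ + σ * y) ∈ AA c' w L R H₁ H₂ H₃ H₄ E Q V' η sh := by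
    intro y hy0 hy
    refine Or.inr (Or.inr (Or.inr ⟨⟨(u, E.x₀ + σ * y), rfl⟩, ?_⟩))
    rw [pt_x, add_sub_cancel_left, abs_mul, hσ, one_mul, abs_of_nonneg hy0]
    exact hy
  rcases lt_or_ge (E.pt sh 1 1 (u, E.x₀ + σ * ρ)).1 d with hcase | hcase
  · -- the time `d` is reached inside of the tube
    have hg : ContinuousOn (fun y => (E.pt sh 1 1 (u, E.x₀ + σ * y)).1) (Icc y₀ ρ) :=
      hptc.fst.continuousOn
    have hstart : d ≤ (E.pt sh 1 1 (u, E.x₀ + σ * y₀)).1 := by
      rw [hσx]
      exact hsd
    obtain ⟨y, hy, hyd⟩ := intermediate_value_Icc' hx.le hg ⟨hcase.le, hstart⟩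
    simp only at hyd
    have hyρ : y < ρ := by
      rcases lt_or_eq_of_le hy.2 with h | h
      · exact h
      · rw [h] at hyd
        exact absurd hyd hcase.ne
    refine ⟨E.pt sh 1 1 (u, E.x₀ + σ * y), hin y (le_trans hy₀0 hy.1) hyρ, hyd, ?_⟩
    have hJ := joined_of (F := {r ∈ AA c' w L R H₁ H₂ H₃ H₄ E Q V' η sh |
      r.1 ∈ Icc d (E.pt sh 1 1 (u, x)).1}) (a := y₀) (b := y)
      (fun y' => E.pt sh 1 1 (u, E.x₀ + σ * y')) hptc.continuousOn ?_
    · simp only [hσx] at hJ
      exact hJ
    · intro y' hy'
      rw [uIcc_of_le hy.1] at hy'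
      refine ⟨hin y' (le_trans hy₀0 hy'.1) (lt_of_le_of_lt hy'.2 hyρ), ?_⟩
      have h2 := hmono y₀ y' hy₀0 hy'.1
      have h3 := hmono y' y (le_trans hy₀0 hy'.1) hy'.2
      rw [hσx] at h2
      rw [hyd] at h3
      exact ⟨h3, h2⟩
  · -- the boundary of the tube is reached
    have hle := hmono y₀ ρ hy₀0 hx.le
    rw [hσx] at hle
    have hsρ : (E.pt sh 1 1 (u, E.x₀ + σ * ρ)).1 ∈ Ioo (E.s₀ - η) (E.s₀ + η) :=
      ⟨lt_of_lt_of_le hd.1 hcase, lt_of_le_of_lt hle hs.2⟩
    have hρr : 1 ≤ ρ / E.r := by
      rw [le_div_iff₀ hr, hρ]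
      linarith
    have hu : 1 ≤ |u| := by
      by_contra hlt
      push Not at hlt
      have h1 := sh.ξ_in u hlt.le
      have h2 := hsρ.1
      rw [htime, psi_high sh _ hρr] at h2
      have h3 : E.r / E.v * (ρ / E.r) = η + 2 * (E.r / E.v) := by
        rw [hρ]
        field_simp
      rw [h3] at h2
      have h4 := (abs_le.1 h1).1
      have h5 := mul_le_mul_of_nonneg_left h4 hrv.le
      linarith only [hrv, h2, h5]
    have hρ0 : 0 ≤ ρ := by rw [hρ]; linarith
    have habs : |E.x₀ + σ * ρ - E.x₀| = ρ := by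
      rw [add_sub_cancel_left, abs_mul, hσ, one_mul, abs_of_nonneg hρ0]
    obtain ⟨e, he, hxe, hpe⟩ := bdry S sh u (E.x₀ + σ * ρ) hu habs hsρ
    have hinρ : E.pt sh 1 1 (u, E.x₀ + σ * ρ) ∈ AA c' w L R H₁ H₂ H₃ H₄ E Q V' η sh := by
      refine Or.inr (Or.inr (Or.inl ⟨e, he, E.x₀ + σ * ρ, hxe, habs.ge, ?_⟩))
      simp only [deriv_lin]
      exact congrArg Prod.snd hpe
    obtain ⟨q', hq', hq'd, hJ2⟩ := hk_path S sh _ hsρ e he _ hxe habs.ge d hd
    rw [← hpe] at hJ2
    rw [uIcc_of_ge hcase] at hJ2
    refine ⟨q', hq', hq'd, JoinedIn.trans ?_ (hJ2.mono fun r hr' =>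
      ⟨hr'.1, hr'.2.1, le_trans hr'.2.2 hle⟩)⟩
    have hJ := joined_of (F := {r ∈ AA c' w L R H₁ H₂ H₃ H₄ E Q V' η sh |
      r.1 ∈ Icc d (E.pt sh 1 1 (u, x)).1}) (a := y₀) (b := ρ)
      (fun y' => E.pt sh 1 1 (u, E.x₀ + σ * y')) hptc.continuousOn ?_
    · simp only [hσx] at hJ
      exact hJ
    · intro y' hy'
      rw [uIcc_of_le hx.le] at hy'
      constructor
      · rcases lt_or_eq_of_le hy'.2 with h | h
        · exact hin y' (le_trans hy₀0 hy'.1) h
        · rw [h]
          exact hinρ
      · have h2 := hmono y₀ y' hy₀0 hy'.1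
        have h3 := hmono y' ρ (le_trans hy₀0 hy'.1) hy'.2
        rw [hσx] at h2
        exact ⟨le_trans hcase h3, h2⟩

end SDU

theorem t_SDU (_hECH : Stmt_ECH) (_hCER : Stmt_CER) (_hPST : Stmt_PST) : Stmt_SDU := by
  intro m n sh c c' w L R H₁ H₂ H₃ H₄ E Q V V' η S A
  constructor
  · intro q hq hs d hd hdq
    by_cases hn : q ∈ E.set sh 1 1 ∧ |q.2.1 - E.x₀| < E.v * η + 2 * E.r
    · obtain ⟨⟨⟨u, x⟩, rfl⟩, hx⟩ := hn
      exact SDU.tube_down S sh u x hx hs d hd hdq
    · have h := SDU.out_path S sh q hq hs hn d hd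
      rwa [uIcc_of_ge hdq] at h
  · intro q hq hs d hd hdq
    by_cases hn : q ∈ E.set sh 1 1 ∧ |q.2.1 - E.x₀| < E.v * η + 2 * E.r
    · obtain ⟨⟨⟨u, x⟩, rfl⟩, hx⟩ := hn
      exact SDU.tube_up S sh u x hx d hdq
    · have h := SDU.out_path S sh q hq hs hn d hd
      rwa [uIcc_of_le hdq] at h

end LCA


end

section

/-!
# BXI: the conditions of the checker for the box
-/

namespace LCA

open Set Filter
open scoped ContDiff Topology

namespace BXI

theorem iadd (a b : ℤ) : Int.add a b = a + b := rfl
theorem isub (a b : ℤ) : Int.sub a b = a - b := rfl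
theorem imul (a b : ℤ) : Int.mul a b = a * b := rfl
theorem ineg (a : ℤ) : Int.neg a = -a := rfl

theorem lo (hCBL : Stmt_CBL) (E : ED) (s₀ : ℝ) :
    min (E.ev s₀).P₁ (E.ev s₀).P₂ - (E.ev s₀).g / 2 = ((E.lo : ℤ) : ℝ) := by
  obtain ⟨-, -, -, -, -, hmin, -⟩ := hCBL
  have e : E.lo = min E.P₁ E.P₂ - E.h := by
    unfold ED.lo
    rw [hmin]
    rfl
  rw [e]
  push_cast
  simp only [ED.ev]
  ring

theorem hi (hCBL : Stmt_CBL) (E : ED) (s₀ : ℝ) :
    max (E.ev s₀).P₁ (E.ev s₀).P₂ + (E.ev s₀).g / 2 = ((E.hi : ℤ) : ℝ) := by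
  obtain ⟨-, -, -, -, hmax, -, -⟩ := hCBL
  have e : E.hi = max E.P₁ E.P₂ + E.h := by
    unfold ED.hi
    rw [hmax]
    rfl
  rw [e]
  push_cast
  simp only [ED.ev]
  ring

theorem ze (E : ED) (s₀ : ℝ) : (E.ev s₀).ζ = ((E.ζ : ℤ) : ℝ) := by
  have e : E.ζ = E.h * E.v := rfl
  rw [e]
  push_cast
  simp only [ED.ev, Evt.ζ]
  ring

theorem x0 (E : ED) (s₀ : ℝ) : (E.ev s₀).x₀ = (E.x : ℝ) := rfl
theorem z0 (E : ED) (s₀ : ℝ) : (E.ev s₀).z₀ = (E.z : ℝ) := rfl

theorem edge (hCBL : Stmt_CBL) (m n : ℕ) (E : ED) (s₀ : ℝ) (A B : SD) (hA : A.Vals m n)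
    (hB : B.Vals m n) (hcb : A.cb m n = B.cb m n) (hw : A.W n = B.W n) (e : Fin (m + 1))
    (h : bxE E (A.e e) (B.e e) = true) :
    (A.cb m n).LBE (A.W n) (E.ev s₀) E.ρ (A.Q n) (B.Q n) (B.V n) e := by
  have hlo := lo hCBL E s₀
  have hhi := hi hCBL E s₀
  obtain ⟨hb, ho, hlt, -, -, -, habs, -⟩ := hCBL
  have a1 := hA.ir e
  have a2 := hA.il e
  have a3 := hA.pe e
  have b1 := hB.ir e
  have b2 := hB.il e
  have b3 := hB.pe e
  have b4 := hB.dpe e
  have b5 := hB.dae e
  rw [← hcb, ← hw] at b1 b2
  rw [← hcb] at b3 b4 b5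
  unfold Comb.LBE
  rw [a1, a2, a3, b1, b2, b3, b4, b5, hlo, hhi, ze, x0, z0]
  unfold bxE at h
  simp only [hb, ho, hlt, habs, iadd, isub, imul] at h
  rcases h with h | h | h | h | h
  · left
    exact_mod_cast h
  · right; left
    exact_mod_cast h
  · right; right; left
    exact_mod_cast h
  · right; right; right; left
    exact_mod_cast h
  · right; right; right; right
    exact_mod_cast h

theorem ers (m n : ℕ) (A B : SD) (hA : A.Vals m n) (hB : B.Vals m n)
    (hcb : A.cb m n = B.cb m n) (hw : A.W n = B.W n) (i : Fin (n + 1)) :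
    (A.cb m n).erS (A.W n) (A.Q n) (B.Q n) (B.V n) i =
      (((B.v i).w * ((B.v i).er + 1000 * max ((A.v i).hi - (A.v i).lo)
        ((B.v i).hi - (B.v i).lo)) : ℤ) : ℝ) := by
  have a1 := hA.dl i
  have b1 := hB.dl i
  have b2 := hB.er i
  rw [← hcb] at b1 b2
  have hwi : A.W n i = ((B.v i).w : ℝ) := congrFun hw i
  unfold Comb.erS
  rw [a1, b1, b2, hwi]
  push_cast
  unfold CY
  ring

theorem vert (hCBL : Stmt_CBL) (m n : ℕ) (E : ED) (s₀ : ℝ) (A B : SD) (hA : A.Vals m n)
    (hB : B.Vals m n) (hcb : A.cb m n = B.cb m n) (hw : A.W n = B.W n) (i : Fin (n + 1))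
    (h : bxV E (A.v i) (B.v i) = true) :
    (A.cb m n).LBV (A.W n) (E.ev s₀) E.ρ (A.Q n) (B.Q n) (B.V n) i := by
  have hlo := lo hCBL E s₀
  have hhi := hi hCBL E s₀
  obtain ⟨hb, ho, hlt, -, hmax, hmin, habs, -⟩ := hCBL
  have a1 := hA.jl i
  have a2 := hA.jr i
  have a3 := hA.plo i
  have a4 := hA.phi i
  have b1 := hB.jl i
  have b2 := hB.jr i
  have b3 := hB.plo i
  have b4 := hB.phi i
  rw [← hw] at b1 b2
  rw [← hcb] at b3 b4
  have v1 : (B.V n).1 i = ((B.v i).dx : ℝ) := rfl
  have v2 : (B.V n).2 i = ((B.v i).dF : ℝ) := rfl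
  unfold Comb.LBV
  rw [a1, a2, a3, a4, b1, b2, b3, b4, hlo, hhi, ze, x0, z0, ers m n A B hA hB hcb hw i, v1, v2]
  unfold bxV sgn3 erV dBV at h
  simp only [hb, ho, hlt, habs, hmax, hmin, iadd, isub, imul, ineg, and_true] at h
  rcases h with h | h | h | h | ⟨h1, h2⟩ | ⟨h1, h2⟩
  · left
    exact_mod_cast h
  · right; left
    exact_mod_cast h
  · right; right; left
    exact_mod_cast h
  · right; right; right; left
    exact_mod_cast h
  · right; right; right; right
    refine ⟨1, by simp, ?_, ?_⟩
    · rw [one_mul]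
      exact_mod_cast h1
    · rw [one_mul]
      exact_mod_cast h2
  · right; right; right; right
    refine ⟨-1, by simp, ?_, ?_⟩
    · rw [neg_one_mul, lt_neg]
      exact_mod_cast h1
    · rw [neg_one_mul, lt_neg]
      exact_mod_cast h2

end BXI

theorem t_BXI (hCBL : Stmt_CBL) : Stmt_BXI := fun m n E s₀ A B hA hB hcb hw =>
  ⟨fun e h => BXI.edge hCBL m n E s₀ A B hA hB hcb hw e h,
    fun i h => BXI.vert hCBL m n E s₀ A B hA hB hcb hw i h⟩

end LCA


end

section

/-!
# Stabilised knots: retraction of a finger (FRT)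
-/

namespace LHE

open Set LG LH

namespace FRT

theorem core (hRET : P_RET) (hWEB : P_WEB) (hCWA : P_CWA) (s o : Bool) (w₀ : List Pt)
    (t : ℝ) (F : List Pt) (hF : PF s (AO w₀ o) t F) :
    ∀ (r : List Pt) (h₁ h₂ : ℝ),
      (∀ p ∈ (⟨pass s, t, h₁⟩ :: (F ++ ⟨pass (!s), t, h₂⟩ :: r) : List Pt), p ∈ w₀) →
      CW (⟨pass s, t, h₁⟩ :: (F ++ ⟨pass (!s), t, h₂⟩ :: r)) → sn o * h₂ < sn o * h₁ →
      ∃ t' h', up s t t' ∧ CW (⟨pass s, t, h₁⟩ :: ⟨turn s, t', h'⟩ :: ⟨pass (!s), t, h₂⟩ :: r) ∧
        WE (ents (⟨pass s, t, h₁⟩ :: (F ++ ⟨pass (!s), t, h₂⟩ :: r)))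
          (ents (⟨pass s, t, h₁⟩ :: ⟨turn s, t', h'⟩ :: ⟨pass (!s), t, h₂⟩ :: r)) := by
  induction hF with
  | tip t t' h hup =>
    intro r h₁ h₂ _ hC _
    refine ⟨t', h, hup, ?_, ?_⟩
    · simpa using hC
    · have h1 : CW (⟨pass s, t, h₁⟩ :: ⟨turn s, t', h⟩ :: ⟨pass (!s), t, h₂⟩ :: r) := by
        simpa using hC
      have h2 := hWEB.refl _ (hCWA.alt _ h1) h1.nd
      simpa using h2
  | step t t' k₁ k₂ F' hup hV hF' ih =>
    intro r h₁ h₂ hsub hC ho
    -- the rotated walk
    have e1 : (⟨pass s, t, h₁⟩ :: ((⟨pass s, t', k₁⟩ :: F' ++ [⟨pass (!s), t', k₂⟩]) ++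
        ⟨pass (!s), t, h₂⟩ :: r) : List Pt) =
        [⟨pass s, t, h₁⟩] ++ (⟨pass s, t', k₁⟩ :: (F' ++ ⟨pass (!s), t', k₂⟩ ::
          ⟨pass (!s), t, h₂⟩ :: r)) := by
      simp
    have e2 : ((⟨pass s, t', k₁⟩ :: (F' ++ ⟨pass (!s), t', k₂⟩ ::
          ⟨pass (!s), t, h₂⟩ :: r)) ++ [⟨pass s, t, h₁⟩] : List Pt) =
        ⟨pass s, t', k₁⟩ :: (F' ++ ⟨pass (!s), t', k₂⟩ ::
          (⟨pass (!s), t, h₂⟩ :: (r ++ [⟨pass s, t, h₁⟩]))) := by
      simp
    rw [e1] at hC
    obtain ⟨hC1, hW1⟩ := hCWA.rot _ _ hC
    rw [e2] at hC1 hW1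
    have hsub1 : ∀ p ∈ (⟨pass s, t', k₁⟩ :: (F' ++ ⟨pass (!s), t', k₂⟩ ::
          (⟨pass (!s), t, h₂⟩ :: (r ++ [⟨pass s, t, h₁⟩]))) : List Pt), p ∈ w₀ := by
      intro p hp
      apply hsub
      simp only [List.mem_cons, List.mem_append, List.not_mem_nil, or_false] at hp ⊢
      tauto
    obtain ⟨t'', h'', hup', hC2, hW2⟩ := ih _ k₁ k₂ hsub1 hC1 hV.2
    have e3 : (⟨pass s, t', k₁⟩ :: ⟨turn s, t'', h''⟩ :: ⟨pass (!s), t', k₂⟩ ::
          (⟨pass (!s), t, h₂⟩ :: (r ++ [⟨pass s, t, h₁⟩])) : List Pt) =
        (⟨pass s, t', k₁⟩ :: ⟨turn s, t'', h''⟩ :: ⟨pass (!s), t', k₂⟩ ::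
          ⟨pass (!s), t, h₂⟩ :: r) ++ [⟨pass s, t, h₁⟩] := by
      simp
    rw [e3] at hC2 hW2
    obtain ⟨hC3, hW3⟩ := hCWA.rot _ _ hC2
    have e4 : ([⟨pass s, t, h₁⟩] ++ (⟨pass s, t', k₁⟩ :: ⟨turn s, t'', h''⟩ ::
          ⟨pass (!s), t', k₂⟩ :: ⟨pass (!s), t, h₂⟩ :: r) : List Pt) =
        ⟨pass s, t, h₁⟩ :: ⟨pass s, t', k₁⟩ :: ⟨turn s, t'', h''⟩ ::
          ⟨pass (!s), t', k₂⟩ :: ⟨pass (!s), t, h₂⟩ :: r := rfl
    rw [e4] at hC3 hW3
    have hAO : AO (⟨pass s, t, h₁⟩ :: ⟨pass s, t', k₁⟩ :: ⟨turn s, t'', h''⟩ ::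
          ⟨pass (!s), t', k₂⟩ :: ⟨pass (!s), t, h₂⟩ :: r) o t' k₁ k₂ := by
      refine ⟨?_, hV.2⟩
      intro p hp hpt
      by_cases hpu : p = ⟨turn s, t'', h''⟩
      · exfalso
        subst hpu
        have h1 : t'' = t' := hpt
        have h2 : sn s * t' < sn s * t'' := hup'
        rw [h1] at h2
        exact lt_irrefl _ h2
      · refine hV.1 p ?_ hpt
        apply hsub
        simp only [List.mem_cons, List.mem_append, List.not_mem_nil, or_false] at hp ⊢
        tauto
    obtain ⟨hC4, hW4⟩ := hRET s o t t' t'' h₁ h₂ k₁ k₂ h'' r _ rfl hC3 hAO ho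
    refine ⟨t', k₁, hup, hC4, ?_⟩
    rw [e1]
    exact hWEB.trans _ _ _ hW1 (hWEB.trans _ _ _ hW2 (hWEB.trans _ _ _ hW3 hW4))

end FRT

theorem t_FRT : Stmt_FRT := by
  intro hRET hWEB hCWA s o w F r t h₁ h₂ hw hC hF ho
  subst hw
  exact FRT.core hRET hWEB hCWA s o _ t F hF r h₁ h₂ (fun p hp => hp) hC ho

end LHE


end

section

set_option maxRecDepth 100000

namespace LCA.CapJ

open LCA

def S100 : SD where
  vs := [
    ⟨nat_lit 0, nat_lit 0, nat_lit 18, (.ofNat (nat_lit 8)), (.negSucc (nat_lit 833252799)), (.ofNat (nat_lit 7338685306906967695954764526272)), (.negSucc (nat_lit 262143)), (.ofNat (nat_lit 6090857958338986262937206784)), (.negSucc (nat_lit 833252815)), (.negSucc (nat_lit 833252783)), (.negSucc (nat_lit 7744926399662000354686)), (.ofNat (nat_lit 7744926399662000354687)), (.negSucc (nat_lit 7744926399662000354686)), (.ofNat (nat_lit 7744926399662000354687)), (.ofNat (nat_lit 0))⟩,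
    ⟨nat_lit 2, nat_lit 0, nat_lit 1, (.ofNat (nat_lit 8)), (.negSucc (nat_lit 5867697855)), (.ofNat (nat_lit 46330091728769205452678978103744)), (.negSucc (nat_lit 1835007)), (.ofNat (nat_lit 18272573875016958788811620352)), (.negSucc (nat_lit 5867697871)), (.negSucc (nat_lit 5867697839)), (.negSucc (nat_lit 7744926399662000354686)), (.ofNat (nat_lit 7744926399662000354687)), (.negSucc (nat_lit 7744926399662000354686)), (.ofNat (nat_lit 7744926399662000354687)), (.ofNat (nat_lit 0))⟩,
    ⟨nat_lit 0, nat_lit 1, nat_lit 2, (.ofNat (nat_lit 8)), (.negSucc (nat_lit 5709248383)), (.ofNat (nat_lit 47557271227474510387342945979008)), (.negSucc (nat_lit 1048575)), (.ofNat (nat_lit 24363431833355945051748827136)), (.negSucc (nat_lit 5709248399)), (.negSucc (nat_lit 5709248367)), (.ofNat (nat_lit 7744926399662000354687)), (.negSucc (nat_lit 7744926399662000354686)), (.negSucc (nat_lit 7744926399662000354686)), (.ofNat (nat_lit 7744926399662000354687)), (.ofNat (nat_lit 0))⟩,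
    ⟨nat_lit 0, nat_lit 2, nat_lit 3, (.ofNat (nat_lit 8)), (.negSucc (nat_lit 2493535487)), (.ofNat (nat_lit 22651811525510565805619386035456)), (.ofNat (nat_lit 0)), (.ofNat (nat_lit 16242287888903963367832551424)), (.negSucc (nat_lit 2493535503)), (.negSucc (nat_lit 2493535471)), (.negSucc (nat_lit 7744926399662000354686)), (.ofNat (nat_lit 7744926399662000354687)), (.negSucc (nat_lit 7744926399662000354686)), (.ofNat (nat_lit 7744926399662000354687)), (.ofNat (nat_lit 0))⟩,
    ⟨nat_lit 1, nat_lit 3, nat_lit 4, (.ofNat (nat_lit 8)), (.negSucc (nat_lit 339309503)), (.ofNat (nat_lit 39336133219830015787103337622464)), (.ofNat (nat_lit 579796672)), (.ofNat (nat_lit 4506724839297873693878174753088)), (.negSucc (nat_lit 339309519)), (.negSucc (nat_lit 339309487)), (.ofNat (nat_lit 7744926399662000354687)), (.negSucc (nat_lit 7744926399662000354686)), (.negSucc (nat_lit 7744926399662000354686)), (.ofNat (nat_lit 7744926399662000354687)), (.ofNat (nat_lit 0))⟩,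
    ⟨nat_lit 0, nat_lit 5, nat_lit 4, (.ofNat (nat_lit 8)), (.negSucc (nat_lit 3595147839)), (.ofNat (nat_lit 64552361501348013984338869503296)), (.ofNat (nat_lit 578485952)), (.ofNat (nat_lit 4516876269228438670983070097728)), (.negSucc (nat_lit 3595147855)), (.negSucc (nat_lit 3595147823)), (.ofNat (nat_lit 7744926399662000354687)), (.negSucc (nat_lit 7744926399662000354686)), (.negSucc (nat_lit 7744926399662000354686)), (.ofNat (nat_lit 7744926399662000354687)), (.ofNat (nat_lit 0))⟩,
    ⟨nat_lit 2, nat_lit 6, nat_lit 5, (.ofNat (nat_lit 8)), (.negSucc (nat_lit 5830802303)), (.ofNat (nat_lit 47237382222592214800213294630528)), (.negSucc (nat_lit 1835007)), (.ofNat (nat_lit 22333145847242949630769758208)), (.negSucc (nat_lit 5830802319)), (.negSucc (nat_lit 5830802287)), (.negSucc (nat_lit 7744926399662000354686)), (.ofNat (nat_lit 7744926399662000354687)), (.negSucc (nat_lit 7744926399662000354686)), (.ofNat (nat_lit 7744926399662000354687)), (.ofNat (nat_lit 0))⟩,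
    ⟨nat_lit 0, nat_lit 7, nat_lit 8, (.ofNat (nat_lit 8)), (.negSucc (nat_lit 2880469631)), (.ofNat (nat_lit 35477197494326898851467342449152)), (.ofNat (nat_lit 578748096)), (.ofNat (nat_lit 4502664267325647703036216615232)), (.negSucc (nat_lit 2880469647)), (.negSucc (nat_lit 2880469615)), (.ofNat (nat_lit 7744926399662000354687)), (.negSucc (nat_lit 7744926399662000354686)), (.negSucc (nat_lit 7744926399662000354686)), (.ofNat (nat_lit 7744926399662000354687)), (.ofNat (nat_lit 0))⟩,
    ⟨nat_lit 0, nat_lit 8, nat_lit 9, (.ofNat (nat_lit 8)), (.ofNat (nat_lit 831503808)), (.ofNat (nat_lit 6728236404026728557598618935872)), (.ofNat (nat_lit 580058816)), (.ofNat (nat_lit 4492512837395082725931321270592)), (.ofNat (nat_lit 831503792)), (.ofNat (nat_lit 831503824)), (.negSucc (nat_lit 7744926399662000354686)), (.ofNat (nat_lit 7744926399662000354687)), (.negSucc (nat_lit 7744926399662000354686)), (.ofNat (nat_lit 7744926399662000354687)), (.ofNat (nat_lit 0))⟩,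
    ⟨nat_lit 1, nat_lit 9, nat_lit 10, (.ofNat (nat_lit 8)), (.ofNat (nat_lit 2320080960)), (.ofNat (nat_lit 18257156886485202808201583247296)), (.ofNat (nat_lit 580583104)), (.ofNat (nat_lit 4496573409367308716773279408448)), (.ofNat (nat_lit 2320080944)), (.ofNat (nat_lit 2320080976)), (.ofNat (nat_lit 7744926399662000354687)), (.negSucc (nat_lit 7744926399662000354686)), (.negSucc (nat_lit 7744926399662000354686)), (.ofNat (nat_lit 7744926399662000354687)), (.ofNat (nat_lit 0))⟩,
    ⟨nat_lit 0, nat_lit 18, nat_lit 10, (.ofNat (nat_lit 8)), (.ofNat (nat_lit 1448293056)), (.ofNat (nat_lit 25009090039080804405861419553344)), (.ofNat (nat_lit 580058816)), (.ofNat (nat_lit 4500633981339534707615237546304)), (.ofNat (nat_lit 1448293040)), (.ofNat (nat_lit 1448293072)), (.ofNat (nat_lit 7744926399662000354687)), (.negSucc (nat_lit 7744926399662000354686)), (.negSucc (nat_lit 7744926399662000354686)), (.ofNat (nat_lit 7744926399662000354687)), (.ofNat (nat_lit 0))⟩,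
    ⟨nat_lit 1, nat_lit 11, nat_lit 17, (.ofNat (nat_lit 8)), (.negSucc (nat_lit 3945103551)), (.ofNat (nat_lit 43462832241088077550233832809408)), (.negSucc (nat_lit 262143)), (.ofNat (nat_lit 22333145847242949630769758208)), (.negSucc (nat_lit 3945103567)), (.negSucc (nat_lit 3945103535)), (.ofNat (nat_lit 7744926399662000354687)), (.negSucc (nat_lit 7744926399662000354686)), (.negSucc (nat_lit 7744926399662000354686)), (.ofNat (nat_lit 7744926399662000354687)), (.ofNat (nat_lit 0))⟩,
    ⟨nat_lit 0, nat_lit 6, nat_lit 11, (.ofNat (nat_lit 8)), (.negSucc (nat_lit 4644274047)), (.ofNat (nat_lit 38047808208752902529895147094656)), (.negSucc (nat_lit 1048575)), (.ofNat (nat_lit 16242287888903963367832551424)), (.negSucc (nat_lit 4644274063)), (.negSucc (nat_lit 4644274031)), (.negSucc (nat_lit 7744926399662000354686)), (.ofNat (nat_lit 7744926399662000354687)), (.negSucc (nat_lit 7744926399662000354686)), (.ofNat (nat_lit 7744926399662000354687)), (.ofNat (nat_lit 0))⟩,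
    ⟨nat_lit 0, nat_lit 19, nat_lit 12, (.ofNat (nat_lit 8)), (.negSucc (nat_lit 145542079)), (.ofNat (nat_lit 1622601486914710554564731147456)), (.negSucc (nat_lit 262143)), (.ofNat (nat_lit 2030285986112995420979068928)), (.negSucc (nat_lit 145542095)), (.negSucc (nat_lit 145542063)), (.negSucc (nat_lit 7744926399662000354686)), (.ofNat (nat_lit 7744926399662000354687)), (.negSucc (nat_lit 7744926399662000354686)), (.ofNat (nat_lit 7744926399662000354687)), (.ofNat (nat_lit 0))⟩,
    ⟨nat_lit 1, nat_lit 12, nat_lit 13, (.ofNat (nat_lit 8)), (.ofNat (nat_lit 2012894656)), (.ofNat (nat_lit 18339535145561390103366181729088)), (.ofNat (nat_lit 580058816)), (.ofNat (nat_lit 4496573409367308716773279408448)), (.ofNat (nat_lit 2012894640)), (.ofNat (nat_lit 2012894672)), (.ofNat (nat_lit 7744926399662000354687)), (.negSucc (nat_lit 7744926399662000354686)), (.negSucc (nat_lit 7744926399662000354686)), (.ofNat (nat_lit 7744926399662000354687)), (.ofNat (nat_lit 0))⟩,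
    ⟨nat_lit 0, nat_lit 14, nat_lit 13, (.ofNat (nat_lit 8)), (.ofNat (nat_lit 409715328)), (.ofNat (nat_lit 30756041046380975259129048039424)), (.ofNat (nat_lit 579534528)), (.ofNat (nat_lit 4500633981339534707615237546304)), (.ofNat (nat_lit 409715312)), (.ofNat (nat_lit 409715344)), (.ofNat (nat_lit 7744926399662000354687)), (.negSucc (nat_lit 7744926399662000354686)), (.negSucc (nat_lit 7744926399662000354686)), (.ofNat (nat_lit 7744926399662000354687)), (.ofNat (nat_lit 0))⟩,
    ⟨nat_lit 0, nat_lit 15, nat_lit 14, (.ofNat (nat_lit 8)), (.negSucc (nat_lit 1596235711)), (.ofNat (nat_lit 15220097880255529999164291514944)), (.ofNat (nat_lit 0)), (.ofNat (nat_lit 12181715916677972525874413568)), (.negSucc (nat_lit 1596235727)), (.negSucc (nat_lit 1596235695)), (.negSucc (nat_lit 7744926399662000354686)), (.ofNat (nat_lit 7744926399662000354687)), (.negSucc (nat_lit 7744926399662000354686)), (.ofNat (nat_lit 7744926399662000354687)), (.ofNat (nat_lit 0))⟩,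
    ⟨nat_lit 2, nat_lit 15, nat_lit 16, (.ofNat (nat_lit 8)), (.negSucc (nat_lit 5700252543)), (.ofNat (nat_lit 47005406187069538565589709606528)), (.negSucc (nat_lit 1048575)), (.ofNat (nat_lit 20302859861129954209790689280)), (.negSucc (nat_lit 5700252559)), (.negSucc (nat_lit 5700252527)), (.negSucc (nat_lit 7744926399662000354686)), (.ofNat (nat_lit 7744926399662000354687)), (.negSucc (nat_lit 7744926399662000354686)), (.ofNat (nat_lit 7744926399662000354687)), (.ofNat (nat_lit 0))⟩,
    ⟨nat_lit 0, nat_lit 16, nat_lit 17, (.ofNat (nat_lit 8)), (.negSucc (nat_lit 5051380927)), (.ofNat (nat_lit 52030869095819282589528036470720)), (.negSucc (nat_lit 524287)), (.ofNat (nat_lit 24363431833355945051748827136)), (.negSucc (nat_lit 5051380943)), (.negSucc (nat_lit 5051380911)), (.ofNat (nat_lit 7744926399662000354687)), (.negSucc (nat_lit 7744926399662000354686)), (.negSucc (nat_lit 7744926399662000354686)), (.ofNat (nat_lit 7744926399662000354687)), (.ofNat (nat_lit 0))⟩,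
    ⟨nat_lit 2, nat_lit 19, nat_lit 7, (.ofNat (nat_lit 8)), (.negSucc (nat_lit 3698604159)), (.ofNat (nat_lit 29140805789944688831749661116416)), (.negSucc (nat_lit 1310719)), (.ofNat (nat_lit 10151429930564977104895344640)), (.negSucc (nat_lit 3698604175)), (.negSucc (nat_lit 3698604143)), (.negSucc (nat_lit 7744926399662000354686)), (.ofNat (nat_lit 7744926399662000354687)), (.negSucc (nat_lit 7744926399662000354686)), (.ofNat (nat_lit 7744926399662000354687)), (.ofNat (nat_lit 0))⟩]
  es := [
    ⟨nat_lit 1, nat_lit 0, (.negSucc (nat_lit 5867697855)), (.negSucc (nat_lit 833252799)), (.negSucc (nat_lit 5867697839)), (.negSucc (nat_lit 833252815)), (.negSucc (nat_lit 7744926399662000354686)), (.ofNat (nat_lit 0)), (.ofNat (nat_lit 4060571972225990841958137856))⟩,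
    ⟨nat_lit 1, nat_lit 2, (.negSucc (nat_lit 5867697855)), (.negSucc (nat_lit 5709248383)), (.negSucc (nat_lit 5867697839)), (.negSucc (nat_lit 5709248399)), (.ofNat (nat_lit 7744926399662000354687)), (.ofNat (nat_lit 0)), (.ofNat (nat_lit 32484575777807926735665102848))⟩,
    ⟨nat_lit 2, nat_lit 3, (.negSucc (nat_lit 5709248383)), (.negSucc (nat_lit 2493535487)), (.negSucc (nat_lit 5709248367)), (.negSucc (nat_lit 2493535503)), (.negSucc (nat_lit 7744926399662000354686)), (.ofNat (nat_lit 0)), (.ofNat (nat_lit 16242287888903963367832551424))⟩,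
    ⟨nat_lit 3, nat_lit 4, (.negSucc (nat_lit 2493535487)), (.negSucc (nat_lit 339309503)), (.negSucc (nat_lit 2493535471)), (.negSucc (nat_lit 339309519)), (.ofNat (nat_lit 7744926399662000354687)), (.ofNat (nat_lit 0)), (.ofNat (nat_lit 16242287888903963367832551424))⟩,
    ⟨nat_lit 5, nat_lit 4, (.negSucc (nat_lit 3595147839)), (.negSucc (nat_lit 339309503)), (.negSucc (nat_lit 3595147823)), (.negSucc (nat_lit 339309519)), (.negSucc (nat_lit 7744926399662000354686)), (.ofNat (nat_lit 0)), (.ofNat (nat_lit 8997207390706843424388516954752))⟩,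
    ⟨nat_lit 6, nat_lit 5, (.negSucc (nat_lit 5830802303)), (.negSucc (nat_lit 3595147839)), (.negSucc (nat_lit 5830802287)), (.negSucc (nat_lit 3595147855)), (.ofNat (nat_lit 7744926399662000354687)), (.ofNat (nat_lit 0)), (.ofNat (nat_lit 36545147750033917577623240704))⟩,
    ⟨nat_lit 6, nat_lit 12, (.negSucc (nat_lit 5830802303)), (.negSucc (nat_lit 4644274047)), (.negSucc (nat_lit 5830802287)), (.negSucc (nat_lit 4644274063)), (.negSucc (nat_lit 7744926399662000354686)), (.ofNat (nat_lit 0)), (.ofNat (nat_lit 8121143944451981683916275712))⟩,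
    ⟨nat_lit 19, nat_lit 7, (.negSucc (nat_lit 3698604159)), (.negSucc (nat_lit 2880469631)), (.negSucc (nat_lit 3698604143)), (.negSucc (nat_lit 2880469647)), (.ofNat (nat_lit 7744926399662000354687)), (.ofNat (nat_lit 0)), (.ofNat (nat_lit 20302859861129954209790689280))⟩,
    ⟨nat_lit 7, nat_lit 8, (.negSucc (nat_lit 2880469631)), (.ofNat (nat_lit 831503808)), (.negSucc (nat_lit 2880469615)), (.ofNat (nat_lit 831503792)), (.negSucc (nat_lit 7744926399662000354686)), (.ofNat (nat_lit 0)), (.ofNat (nat_lit 8985025674790165451862642541184))⟩,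
    ⟨nat_lit 8, nat_lit 9, (.ofNat (nat_lit 831503808)), (.ofNat (nat_lit 2320080960)), (.ofNat (nat_lit 831503824)), (.ofNat (nat_lit 2320080944)), (.ofNat (nat_lit 7744926399662000354687)), (.ofNat (nat_lit 0)), (.ofNat (nat_lit 0))⟩,
    ⟨nat_lit 10, nat_lit 9, (.ofNat (nat_lit 1448293056)), (.ofNat (nat_lit 2320080960)), (.ofNat (nat_lit 1448293072)), (.ofNat (nat_lit 2320080944)), (.negSucc (nat_lit 7744926399662000354686)), (.ofNat (nat_lit 0)), (.ofNat (nat_lit 8993146818734617433546558816896))⟩,
    ⟨nat_lit 12, nat_lit 11, (.negSucc (nat_lit 4644274047)), (.negSucc (nat_lit 3945103551)), (.negSucc (nat_lit 4644274031)), (.negSucc (nat_lit 3945103567)), (.ofNat (nat_lit 7744926399662000354687)), (.ofNat (nat_lit 0)), (.ofNat (nat_lit 24363431833355945051748827136))⟩,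
    ⟨nat_lit 13, nat_lit 14, (.negSucc (nat_lit 145542079)), (.ofNat (nat_lit 2012894656)), (.negSucc (nat_lit 145542063)), (.ofNat (nat_lit 2012894640)), (.ofNat (nat_lit 7744926399662000354687)), (.ofNat (nat_lit 0)), (.ofNat (nat_lit 4060571972225990841958137856))⟩,
    ⟨nat_lit 15, nat_lit 14, (.ofNat (nat_lit 409715328)), (.ofNat (nat_lit 2012894656)), (.ofNat (nat_lit 409715344)), (.ofNat (nat_lit 2012894640)), (.negSucc (nat_lit 7744926399662000354686)), (.ofNat (nat_lit 0)), (.ofNat (nat_lit 8989086246762391442704600679040))⟩,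
    ⟨nat_lit 16, nat_lit 15, (.negSucc (nat_lit 1596235711)), (.ofNat (nat_lit 409715328)), (.negSucc (nat_lit 1596235695)), (.ofNat (nat_lit 409715312)), (.ofNat (nat_lit 7744926399662000354687)), (.ofNat (nat_lit 0)), (.ofNat (nat_lit 12181715916677972525874413568))⟩,
    ⟨nat_lit 17, nat_lit 16, (.negSucc (nat_lit 5700252543)), (.negSucc (nat_lit 1596235711)), (.negSucc (nat_lit 5700252527)), (.negSucc (nat_lit 1596235727)), (.negSucc (nat_lit 7744926399662000354686)), (.ofNat (nat_lit 0)), (.ofNat (nat_lit 12181715916677972525874413568))⟩,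
    ⟨nat_lit 17, nat_lit 18, (.negSucc (nat_lit 5700252543)), (.negSucc (nat_lit 5051380927)), (.negSucc (nat_lit 5700252527)), (.negSucc (nat_lit 5051380943)), (.ofNat (nat_lit 7744926399662000354687)), (.ofNat (nat_lit 0)), (.ofNat (nat_lit 28424003805581935893706964992))⟩,
    ⟨nat_lit 18, nat_lit 11, (.negSucc (nat_lit 5051380927)), (.negSucc (nat_lit 3945103551)), (.negSucc (nat_lit 5051380911)), (.negSucc (nat_lit 3945103567)), (.negSucc (nat_lit 7744926399662000354686)), (.ofNat (nat_lit 0)), (.ofNat (nat_lit 20302859861129954209790689280))⟩,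
    ⟨nat_lit 0, nat_lit 10, (.negSucc (nat_lit 833252799)), (.ofNat (nat_lit 1448293056)), (.negSucc (nat_lit 833252783)), (.ofNat (nat_lit 1448293040)), (.ofNat (nat_lit 7744926399662000354687)), (.ofNat (nat_lit 0)), (.ofNat (nat_lit 8121143944451981683916275712))⟩,
    ⟨nat_lit 19, nat_lit 13, (.negSucc (nat_lit 3698604159)), (.negSucc (nat_lit 145542079)), (.negSucc (nat_lit 3698604143)), (.negSucc (nat_lit 145542095)), (.negSucc (nat_lit 7744926399662000354686)), (.ofNat (nat_lit 0)), (.ofNat (nat_lit 0))⟩]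

theorem ok100 : stOK 19 19 S100 = true := by decide +kernel

def S101 : SD where
  vs := [
    ⟨nat_lit 0, nat_lit 0, nat_lit 18, (.ofNat (nat_lit 8)), (.negSucc (nat_lit 833252799)), (.ofNat (nat_lit 7453352264827389066203124979968)), (.ofNat (nat_lit 0)), (.ofNat (nat_lit 114666957920421370248360453696)), (.negSucc (nat_lit 833252815)), (.negSucc (nat_lit 833252783)), (.negSucc (nat_lit 7865940874656719110227)), (.ofNat (nat_lit 7865940874656719110228)), (.negSucc (nat_lit 7865940874656719110227)), (.ofNat (nat_lit 7865940874656719110228)), (.ofNat (nat_lit 726086849968312533246))⟩,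
    ⟨nat_lit 2, nat_lit 0, nat_lit 1, (.ofNat (nat_lit 8)), (.negSucc (nat_lit 5867697855)), (.ofNat (nat_lit 47053999412031224287871198612736)), (.ofNat (nat_lit 0)), (.ofNat (nat_lit 723907683262018835192220508992)), (.negSucc (nat_lit 5867697871)), (.negSucc (nat_lit 5867697839)), (.negSucc (nat_lit 7865940874656719110227)), (.ofNat (nat_lit 7865940874384978460756)), (.negSucc (nat_lit 7865940874656719110227)), (.ofNat (nat_lit 7865940874384978460756)), (.ofNat (nat_lit 726086849424831234302))⟩,
    ⟨nat_lit 0, nat_lit 1, nat_lit 2, (.ofNat (nat_lit 8)), (.negSucc (nat_lit 5709248383)), (.ofNat (nat_lit 48300353590360742449709359533568)), (.ofNat (nat_lit 0)), (.ofNat (nat_lit 743082362886232062366413554560)), (.negSucc (nat_lit 5709248399)), (.negSucc (nat_lit 5709248367)), (.ofNat (nat_lit 7865940874384978460756)), (.negSucc (nat_lit 7865941208745054768826)), (.negSucc (nat_lit 7865941208745054768826)), (.ofNat (nat_lit 7865940874384978460756)), (.ofNat (nat_lit 726087517058021252556))⟩,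
    ⟨nat_lit 0, nat_lit 2, nat_lit 3, (.ofNat (nat_lit 8)), (.negSucc (nat_lit 2493535487)), (.ofNat (nat_lit 23005745006221441853366076840576)), (.ofNat (nat_lit 0)), (.ofNat (nat_lit 353933480710876047746690805120)), (.negSucc (nat_lit 2493535503)), (.negSucc (nat_lit 2493535471)), (.negSucc (nat_lit 7865941208745054768826)), (.ofNat (nat_lit 7865941373385837839010)), (.negSucc (nat_lit 7865941208745054768826)), (.ofNat (nat_lit 7865941373385837839010)), (.ofNat (nat_lit 726089183779892625206))⟩,
    ⟨nat_lit 1, nat_lit 3, nat_lit 4, (.ofNat (nat_lit 8)), (.negSucc (nat_lit 339309503)), (.ofNat (nat_lit 39950760301389859783771827676416)), (.ofNat (nat_lit 0)), (.ofNat (nat_lit 614627081559843996668490053952)), (.negSucc (nat_lit 339309519)), (.negSucc (nat_lit 339309487)), (.ofNat (nat_lit 7865941373385837839010)), (.negSucc (nat_lit 7865940874656719110227)), (.negSucc (nat_lit 7865940874656719110227)), (.ofNat (nat_lit 7865941373385837839010)), (.ofNat (nat_lit 726088844884787448374))⟩,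
    ⟨nat_lit 0, nat_lit 5, nat_lit 4, (.ofNat (nat_lit 8)), (.negSucc (nat_lit 3595147839)), (.ofNat (nat_lit 65560992149806576702835959777024)), (.ofNat (nat_lit 0)), (.ofNat (nat_lit 1008630648458562718497090273728)), (.negSucc (nat_lit 3595147855)), (.negSucc (nat_lit 3595147823)), (.ofNat (nat_lit 7865940874656719110228)), (.negSucc (nat_lit 7865940874656719110227)), (.negSucc (nat_lit 7865940874656719110227)), (.ofNat (nat_lit 7865940874656719110228)), (.ofNat (nat_lit 726086849968312533246))⟩,
    ⟨nat_lit 2, nat_lit 6, nat_lit 5, (.ofNat (nat_lit 8)), (.negSucc (nat_lit 5830802303)), (.ofNat (nat_lit 47975466319820218156460623519232)), (.ofNat (nat_lit 0)), (.ofNat (nat_lit 738084097228003356247328888704)), (.negSucc (nat_lit 5830802319)), (.negSucc (nat_lit 5830802287)), (.negSucc (nat_lit 7865940874656719110227)), (.ofNat (nat_lit 7865940874656719110228)), (.negSucc (nat_lit 7865940874656719110227)), (.ofNat (nat_lit 7865940874656719110228)), (.ofNat (nat_lit 726086849968312533246))⟩,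
    ⟨nat_lit 0, nat_lit 7, nat_lit 8, (.ofNat (nat_lit 8)), (.negSucc (nat_lit 2880469631)), (.ofNat (nat_lit 36031528705175756646017010546688)), (.ofNat (nat_lit 0)), (.ofNat (nat_lit 554331210848857794549668097536)), (.negSucc (nat_lit 2880469647)), (.negSucc (nat_lit 2880469615)), (.ofNat (nat_lit 7865940874656719110228)), (.negSucc (nat_lit 7865940874656719110227)), (.negSucc (nat_lit 7865940874656719110227)), (.ofNat (nat_lit 7865940874656719110228)), (.ofNat (nat_lit 726086849968312533246))⟩,
    ⟨nat_lit 0, nat_lit 8, nat_lit 9, (.ofNat (nat_lit 8)), (.ofNat (nat_lit 831503808)), (.ofNat (nat_lit 6833365097839646191310242202368)), (.ofNat (nat_lit 0)), (.ofNat (nat_lit 105128693812917633711623266496)), (.ofNat (nat_lit 831503792)), (.ofNat (nat_lit 831503824)), (.negSucc (nat_lit 7865940874656719110227)), (.ofNat (nat_lit 7865940874656719110228)), (.negSucc (nat_lit 7865940874656719110227)), (.ofNat (nat_lit 7865940874656719110228)), (.ofNat (nat_lit 726086849968312533246))⟩,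
    ⟨nat_lit 1, nat_lit 9, nat_lit 10, (.ofNat (nat_lit 8)), (.ofNat (nat_lit 2320080960)), (.ofNat (nat_lit 18542424962836534102077412513024)), (.ofNat (nat_lit 0)), (.ofNat (nat_lit 285268076351331293875829265728)), (.ofNat (nat_lit 2320080944)), (.ofNat (nat_lit 2320080976)), (.ofNat (nat_lit 7865940874656719110228)), (.negSucc (nat_lit 7865940874656719110227)), (.negSucc (nat_lit 7865940874656719110227)), (.ofNat (nat_lit 7865940874656719110228)), (.ofNat (nat_lit 726086849968312533246))⟩,
    ⟨nat_lit 0, nat_lit 18, nat_lit 10, (.ofNat (nat_lit 8)), (.ofNat (nat_lit 1448293056)), (.ofNat (nat_lit 25399857070941441974699825595136)), (.ofNat (nat_lit 0)), (.ofNat (nat_lit 390767031860637568838406041792)), (.ofNat (nat_lit 1448293040)), (.ofNat (nat_lit 1448293072)), (.ofNat (nat_lit 7865940874656719110228)), (.negSucc (nat_lit 7865940874656719110227)), (.negSucc (nat_lit 7865940874656719110227)), (.ofNat (nat_lit 7865940874656719110228)), (.ofNat (nat_lit 726086849968312533246))⟩,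
    ⟨nat_lit 1, nat_lit 11, nat_lit 17, (.ofNat (nat_lit 8)), (.negSucc (nat_lit 3945103551)), (.ofNat (nat_lit 44141938994855078761950712349952)), (.ofNat (nat_lit 0)), (.ofNat (nat_lit 679106753767001211716879540544)), (.negSucc (nat_lit 3945103567)), (.negSucc (nat_lit 3945103535)), (.ofNat (nat_lit 7865940874656719110228)), (.negSucc (nat_lit 7865940874656719110227)), (.negSucc (nat_lit 7865940874656719110227)), (.ofNat (nat_lit 7865940874656719110228)), (.ofNat (nat_lit 726086849968312533246))⟩,
    ⟨nat_lit 0, nat_lit 6, nat_lit 11, (.ofNat (nat_lit 8)), (.negSucc (nat_lit 4644274047)), (.ofNat (nat_lit 38642305212014666631919922916864)), (.ofNat (nat_lit 0)), (.ofNat (nat_lit 594497003261764102024775822208)), (.negSucc (nat_lit 4644274063)), (.negSucc (nat_lit 4644274031)), (.negSucc (nat_lit 7865940874656719110227)), (.ofNat (nat_lit 7865940874656719110228)), (.negSucc (nat_lit 7865940874656719110227)), (.ofNat (nat_lit 7865940874656719110228)), (.ofNat (nat_lit 726086849968312533246))⟩,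
    ⟨nat_lit 0, nat_lit 19, nat_lit 12, (.ofNat (nat_lit 8)), (.negSucc (nat_lit 145542079)), (.ofNat (nat_lit 1647954635147752906979598840064)), (.ofNat (nat_lit 0)), (.ofNat (nat_lit 25353148233042352414867692608)), (.negSucc (nat_lit 145542095)), (.negSucc (nat_lit 145542063)), (.negSucc (nat_lit 7865940874656719110227)), (.ofNat (nat_lit 7865940874656719110228)), (.negSucc (nat_lit 7865940874656719110227)), (.ofNat (nat_lit 7865940874656719110228)), (.ofNat (nat_lit 726086849968312533246))⟩,
    ⟨nat_lit 1, nat_lit 12, nat_lit 13, (.ofNat (nat_lit 8)), (.ofNat (nat_lit 2012894656)), (.ofNat (nat_lit 18626090382210786823728947375872)), (.ofNat (nat_lit 0)), (.ofNat (nat_lit 286555236649396720362765646784)), (.ofNat (nat_lit 2012894640)), (.ofNat (nat_lit 2012894672)), (.ofNat (nat_lit 7865940874656719110228)), (.negSucc (nat_lit 7865940874656719110227)), (.negSucc (nat_lit 7865940874656719110227)), (.ofNat (nat_lit 7865940874656719110228)), (.ofNat (nat_lit 726086849968312533246))⟩,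
    ⟨nat_lit 0, nat_lit 14, nat_lit 13, (.ofNat (nat_lit 8)), (.ofNat (nat_lit 409715328)), (.ofNat (nat_lit 31236604187730677997549030342656)), (.ofNat (nat_lit 0)), (.ofNat (nat_lit 480563141349702738419982303232)), (.ofNat (nat_lit 409715312)), (.ofNat (nat_lit 409715344)), (.ofNat (nat_lit 7865940874656719110228)), (.negSucc (nat_lit 7865940874656719110227)), (.negSucc (nat_lit 7865940874656719110227)), (.ofNat (nat_lit 7865940874656719110228)), (.ofNat (nat_lit 726086849968312533246))⟩,
    ⟨nat_lit 0, nat_lit 15, nat_lit 14, (.ofNat (nat_lit 8)), (.negSucc (nat_lit 1596235711)), (.ofNat (nat_lit 15457911909634522655399299105536)), (.ofNat (nat_lit 0)), (.ofNat (nat_lit 237814029378992656235007590592)), (.negSucc (nat_lit 1596235727)), (.negSucc (nat_lit 1596235695)), (.negSucc (nat_lit 7865940874656719110227)), (.ofNat (nat_lit 7865940874656719110228)), (.negSucc (nat_lit 7865940874656719110227)), (.ofNat (nat_lit 7865940874656719110228)), (.ofNat (nat_lit 726086849968312533246))⟩,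
    ⟨nat_lit 2, nat_lit 15, nat_lit 16, (.ofNat (nat_lit 8)), (.negSucc (nat_lit 5700252543)), (.ofNat (nat_lit 47739865658742500105671074463232)), (.ofNat (nat_lit 0)), (.ofNat (nat_lit 734459471672961540081364856704)), (.negSucc (nat_lit 5700252559)), (.negSucc (nat_lit 5700252527)), (.negSucc (nat_lit 7865940874656719110227)), (.ofNat (nat_lit 7865940874656719110228)), (.negSucc (nat_lit 7865940874656719110227)), (.ofNat (nat_lit 7865940874656719110228)), (.ofNat (nat_lit 726086849968312533246))⟩,
    ⟨nat_lit 0, nat_lit 16, nat_lit 17, (.ofNat (nat_lit 8)), (.negSucc (nat_lit 5051380927)), (.ofNat (nat_lit 52843851425441458879982798951680)), (.ofNat (nat_lit 0)), (.ofNat (nat_lit 812982329622176290454762480960)), (.negSucc (nat_lit 5051380943)), (.negSucc (nat_lit 5051380911)), (.ofNat (nat_lit 7865940874656719110228)), (.negSucc (nat_lit 7865940874656719110227)), (.negSucc (nat_lit 7865940874656719110227)), (.ofNat (nat_lit 7865940874656719110228)), (.ofNat (nat_lit 726086849968312533246))⟩,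
    ⟨nat_lit 2, nat_lit 19, nat_lit 7, (.ofNat (nat_lit 8)), (.negSucc (nat_lit 3698604159)), (.ofNat (nat_lit 29596130880412574594742045794304)), (.ofNat (nat_lit 0)), (.ofNat (nat_lit 455325090467885762992384677888)), (.negSucc (nat_lit 3698604175)), (.negSucc (nat_lit 3698604143)), (.negSucc (nat_lit 7865940874656719110227)), (.ofNat (nat_lit 7865940874656719110228)), (.negSucc (nat_lit 7865940874656719110227)), (.ofNat (nat_lit 7865940874656719110228)), (.ofNat (nat_lit 726086849968312533246))⟩]
  es := [
    ⟨nat_lit 1, nat_lit 0, (.negSucc (nat_lit 5867697855)), (.negSucc (nat_lit 833252799)), (.negSucc (nat_lit 5867697839)), (.negSucc (nat_lit 833252815)), (.negSucc (nat_lit 7865940874656719110227)), (.negSucc (nat_lit 121014474994718755540)), (.ofNat (nat_lit 13831307790541981981306688896))⟩,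
    ⟨nat_lit 1, nat_lit 2, (.negSucc (nat_lit 5867697855)), (.negSucc (nat_lit 5709248383)), (.negSucc (nat_lit 5867697839)), (.negSucc (nat_lit 5709248399)), (.ofNat (nat_lit 7865940874384978460756)), (.ofNat (nat_lit 121014474722978106069)), (.ofNat (nat_lit 1433984057139003662108232397056))⟩,
    ⟨nat_lit 2, nat_lit 3, (.negSucc (nat_lit 5709248383)), (.negSucc (nat_lit 2493535487)), (.negSucc (nat_lit 5709248367)), (.negSucc (nat_lit 2493535503)), (.negSucc (nat_lit 7865941208745054768826)), (.negSucc (nat_lit 121014809083054414139)), (.ofNat (nat_lit 52178759688735126653551804800))⟩,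
    ⟨nat_lit 3, nat_lit 4, (.negSucc (nat_lit 2493535487)), (.negSucc (nat_lit 339309503)), (.negSucc (nat_lit 2493535471)), (.negSucc (nat_lit 339309519)), (.ofNat (nat_lit 7865941373385837839010)), (.ofNat (nat_lit 121014973723837484323)), (.ofNat (nat_lit 655688612270652326450734959744))⟩,
    ⟨nat_lit 5, nat_lit 4, (.negSucc (nat_lit 3595147839)), (.negSucc (nat_lit 339309503)), (.negSucc (nat_lit 3595147823)), (.negSucc (nat_lit 339309519)), (.negSucc (nat_lit 7865940874656719110227)), (.negSucc (nat_lit 121014474994718755540)), (.ofNat (nat_lit 573565720072565573106376092288))⟩,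
    ⟨nat_lit 6, nat_lit 5, (.negSucc (nat_lit 5830802303)), (.negSucc (nat_lit 3595147839)), (.negSucc (nat_lit 5830802287)), (.negSucc (nat_lit 3595147855)), (.ofNat (nat_lit 7865940874656719110228)), (.ofNat (nat_lit 121014474994718755541)), (.ofNat (nat_lit 1443695576844559863887804455168))⟩,
    ⟨nat_lit 6, nat_lit 12, (.negSucc (nat_lit 5830802303)), (.negSucc (nat_lit 4644274047)), (.negSucc (nat_lit 5830802287)), (.negSucc (nat_lit 4644274063)), (.negSucc (nat_lit 7865940874656719110227)), (.negSucc (nat_lit 121014474994718755540)), (.ofNat (nat_lit 32472617611446848606853322240))⟩,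
    ⟨nat_lit 19, nat_lit 7, (.negSucc (nat_lit 3698604159)), (.negSucc (nat_lit 2880469631)), (.negSucc (nat_lit 3698604143)), (.negSucc (nat_lit 2880469647)), (.ofNat (nat_lit 7865940874656719110228)), (.ofNat (nat_lit 121014474994718755541)), (.ofNat (nat_lit 902909731103568530266350328448))⟩,
    ⟨nat_lit 7, nat_lit 8, (.negSucc (nat_lit 2880469631)), (.ofNat (nat_lit 831503808)), (.negSucc (nat_lit 2880469615)), (.ofNat (nat_lit 831503792)), (.negSucc (nat_lit 7865940874656719110227)), (.negSucc (nat_lit 121014474994718755540)), (.ofNat (nat_lit 205752690594147058832985866624))⟩,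
    ⟨nat_lit 8, nat_lit 9, (.ofNat (nat_lit 831503808)), (.ofNat (nat_lit 2320080960)), (.ofNat (nat_lit 831503824)), (.ofNat (nat_lit 2320080944)), (.ofNat (nat_lit 7865940874656719110228)), (.ofNat (nat_lit 121014474994718755541)), (.ofNat (nat_lit 4504697031688208590260666368))⟩,
    ⟨nat_lit 10, nat_lit 9, (.ofNat (nat_lit 1448293056)), (.ofNat (nat_lit 2320080960)), (.ofNat (nat_lit 1448293072)), (.ofNat (nat_lit 2320080944)), (.negSucc (nat_lit 7865940874656719110227)), (.negSucc (nat_lit 121014474994718755540)), (.ofNat (nat_lit 566031455670974379161397865088))⟩,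
    ⟨nat_lit 12, nat_lit 11, (.negSucc (nat_lit 4644274047)), (.negSucc (nat_lit 3945103551)), (.negSucc (nat_lit 4644274031)), (.negSucc (nat_lit 3945103567)), (.ofNat (nat_lit 7865940874656719110228)), (.ofNat (nat_lit 121014474994718755541)), (.ofNat (nat_lit 1156521388912081355442698322176))⟩,
    ⟨nat_lit 13, nat_lit 14, (.negSucc (nat_lit 145542079)), (.ofNat (nat_lit 2012894656)), (.negSucc (nat_lit 145542063)), (.ofNat (nat_lit 2012894640)), (.ofNat (nat_lit 7865940874656719110228)), (.ofNat (nat_lit 121014474994718755541)), (.ofNat (nat_lit 42965846633881709111316357888))⟩,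
    ⟨nat_lit 15, nat_lit 14, (.ofNat (nat_lit 409715328)), (.ofNat (nat_lit 2012894656)), (.ofNat (nat_lit 409715344)), (.ofNat (nat_lit 2012894640)), (.negSucc (nat_lit 7865940874656719110227)), (.negSucc (nat_lit 121014474994718755540)), (.ofNat (nat_lit 530144626664911731614214935680))⟩,
    ⟨nat_lit 16, nat_lit 15, (.negSucc (nat_lit 1596235711)), (.ofNat (nat_lit 409715328)), (.negSucc (nat_lit 1596235695)), (.ofNat (nat_lit 409715312)), (.ofNat (nat_lit 7865940874656719110228)), (.ofNat (nat_lit 121014474994718755541)), (.ofNat (nat_lit 430981656034493745225749670784))⟩,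
    ⟨nat_lit 17, nat_lit 16, (.negSucc (nat_lit 5700252543)), (.negSucc (nat_lit 1596235711)), (.negSucc (nat_lit 5700252527)), (.negSucc (nat_lit 1596235727)), (.negSucc (nat_lit 7865940874656719110227)), (.negSucc (nat_lit 121014474994718755540)), (.ofNat (nat_lit 44646402723491567244265510400))⟩,
    ⟨nat_lit 17, nat_lit 18, (.negSucc (nat_lit 5700252543)), (.negSucc (nat_lit 5051380927)), (.negSucc (nat_lit 5700252527)), (.negSucc (nat_lit 5051380943)), (.ofNat (nat_lit 7865940874656719110228)), (.ofNat (nat_lit 121014474994718755541)), (.ofNat (nat_lit 1424272540622431512918464203008))⟩,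
    ⟨nat_lit 18, nat_lit 11, (.negSucc (nat_lit 5051380927)), (.negSucc (nat_lit 3945103551)), (.negSucc (nat_lit 5051380911)), (.negSucc (nat_lit 3945103567)), (.negSucc (nat_lit 7865940874656719110227)), (.negSucc (nat_lit 121014474994718755540)), (.ofNat (nat_lit 201692118621921067991060758912))⟩,
    ⟨nat_lit 0, nat_lit 10, (.negSucc (nat_lit 833252799)), (.ofNat (nat_lit 1448293056)), (.negSucc (nat_lit 833252783)), (.ofNat (nat_lit 1448293040)), (.ofNat (nat_lit 7865940874656719110228)), (.ofNat (nat_lit 121014474994718755541)), (.ofNat (nat_lit 215502608050300758515414218496))⟩,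
    ⟨nat_lit 19, nat_lit 13, (.negSucc (nat_lit 3698604159)), (.negSucc (nat_lit 145542079)), (.negSucc (nat_lit 3698604143)), (.negSucc (nat_lit 145542095)), (.negSucc (nat_lit 7865940874656719110227)), (.negSucc (nat_lit 121014474994718755540)), (.ofNat (nat_lit 7740449832202995718419027328))⟩]

theorem ok101 : stOK 19 19 S101 = true := by decide +kernel

def S102 : SD where
  vs := [
    ⟨nat_lit 0, nat_lit 0, nat_lit 18, (.ofNat (nat_lit 8)), (.negSucc (nat_lit 833514943)), (.ofNat (nat_lit 7459538292441327099126419806464)), (.negSucc (nat_lit 262143)), (.ofNat (nat_lit 6186027613938032923294826496)), (.negSucc (nat_lit 833514959)), (.negSucc (nat_lit 833514927)), (.negSucc (nat_lit 7865940874656719110227)), (.ofNat (nat_lit 7865940874656719110228)), (.negSucc (nat_lit 7865940874656719110227)), (.ofNat (nat_lit 7865940874656719110228)), (.ofNat (nat_lit 0))⟩,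
    ⟨nat_lit 2, nat_lit 0, nat_lit 1, (.ofNat (nat_lit 8)), (.negSucc (nat_lit 5869532863)), (.ofNat (nat_lit 47072557494873038386641083092224)), (.negSucc (nat_lit 1835007)), (.ofNat (nat_lit 18558082841814098769884479488)), (.negSucc (nat_lit 5869532879)), (.negSucc (nat_lit 5869532847)), (.negSucc (nat_lit 7865940874656719110227)), (.ofNat (nat_lit 7865940874384978460756)), (.negSucc (nat_lit 7865940874656719110227)), (.ofNat (nat_lit 7865940874384978460756)), (.ofNat (nat_lit 0))⟩,
    ⟨nat_lit 0, nat_lit 1, nat_lit 2, (.ofNat (nat_lit 8)), (.negSucc (nat_lit 5075777727)), (.ofNat (nat_lit 53316188463388445881115532535040)), (.ofNat (nat_lit 633470656)), (.ofNat (nat_lit 5015834873027703431406173001472)), (.negSucc (nat_lit 5075777743)), (.negSucc (nat_lit 5075777711)), (.ofNat (nat_lit 7865940874384978460756)), (.negSucc (nat_lit 7865941208745054768826)), (.negSucc (nat_lit 7865941208745054768826)), (.ofNat (nat_lit 7865940874384978460756)), (.ofNat (nat_lit 0))⟩,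
    ⟨nat_lit 0, nat_lit 2, nat_lit 3, (.ofNat (nat_lit 8)), (.negSucc (nat_lit 1859016255)), (.ofNat (nat_lit 28013331842080244230222972301696)), (.ofNat (nat_lit 634519232)), (.ofNat (nat_lit 5007586835858802376856895461120)), (.negSucc (nat_lit 1859016271)), (.negSucc (nat_lit 1859016239)), (.negSucc (nat_lit 7865941208745054768826)), (.ofNat (nat_lit 7865941373385837839010)), (.negSucc (nat_lit 7865941208745054768826)), (.ofNat (nat_lit 7865941373385837839010)), (.ofNat (nat_lit 0))⟩,
    ⟨nat_lit 1, nat_lit 3, nat_lit 4, (.ofNat (nat_lit 8)), (.ofNat (nat_lit 296258304)), (.ofNat (nat_lit 44966595174590201588926600887296)), (.ofNat (nat_lit 635567808)), (.ofNat (nat_lit 5015834873200341805154773210880)), (.ofNat (nat_lit 296258288)), (.ofNat (nat_lit 296258320)), (.ofNat (nat_lit 7865941373385837839010)), (.negSucc (nat_lit 7865940874656719110227)), (.negSucc (nat_lit 7865940874656719110227)), (.ofNat (nat_lit 7865941373385837839010)), (.ofNat (nat_lit 0))⟩,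
    ⟨nat_lit 0, nat_lit 5, nat_lit 4, (.ofNat (nat_lit 8)), (.negSucc (nat_lit 2960890751)), (.ofNat (nat_lit 70587137069030148562862891032064)), (.ofNat (nat_lit 634257088)), (.ofNat (nat_lit 5026144919223571860026931255040)), (.negSucc (nat_lit 2960890767)), (.negSucc (nat_lit 2960890735)), (.ofNat (nat_lit 7865940874656719110228)), (.negSucc (nat_lit 7865940874656719110227)), (.negSucc (nat_lit 7865940874656719110227)), (.ofNat (nat_lit 7865940874656719110228)), (.ofNat (nat_lit 0))⟩,
    ⟨nat_lit 2, nat_lit 6, nat_lit 5, (.ofNat (nat_lit 8)), (.negSucc (nat_lit 5832637311)), (.ofNat (nat_lit 47998148421071324277179371216384)), (.negSucc (nat_lit 1835007)), (.ofNat (nat_lit 22682101251106120718747697152)), (.negSucc (nat_lit 5832637327)), (.negSucc (nat_lit 5832637295)), (.negSucc (nat_lit 7865940874656719110227)), (.ofNat (nat_lit 7865940874656719110228)), (.negSucc (nat_lit 7865940874656719110227)), (.ofNat (nat_lit 7865940874656719110228)), (.ofNat (nat_lit 0))⟩,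
    ⟨nat_lit 0, nat_lit 7, nat_lit 8, (.ofNat (nat_lit 8)), (.negSucc (nat_lit 2245950399)), (.ofNat (nat_lit 41043239559966806429222920539904)), (.ofNat (nat_lit 634519232)), (.ofNat (nat_lit 5011710854791049783205909993216)), (.negSucc (nat_lit 2245950415)), (.negSucc (nat_lit 2245950383)), (.ofNat (nat_lit 7865940874656719110228)), (.negSucc (nat_lit 7865940874656719110227)), (.negSucc (nat_lit 7865940874656719110227)), (.ofNat (nat_lit 7865940874656719110228)), (.ofNat (nat_lit 0))⟩,
    ⟨nat_lit 0, nat_lit 8, nat_lit 9, (.ofNat (nat_lit 8)), (.ofNat (nat_lit 1467333760)), (.ofNat (nat_lit 11834765906607465919643994151424)), (.ofNat (nat_lit 635829952)), (.ofNat (nat_lit 5001400808767819728333751949056)), (.ofNat (nat_lit 1467333744)), (.ofNat (nat_lit 1467333776)), (.negSucc (nat_lit 7865940874656719110227)), (.ofNat (nat_lit 7865940874656719110228)), (.negSucc (nat_lit 7865940874656719110227)), (.ofNat (nat_lit 7865940874656719110228)), (.ofNat (nat_lit 0))⟩,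
    ⟨nat_lit 1, nat_lit 9, nat_lit 10, (.ofNat (nat_lit 8)), (.ofNat (nat_lit 2956435200)), (.ofNat (nat_lit 23547949790013645852360027679744)), (.ofNat (nat_lit 636354240)), (.ofNat (nat_lit 5005524827177111750282615166720)), (.ofNat (nat_lit 2956435184)), (.ofNat (nat_lit 2956435216)), (.ofNat (nat_lit 7865940874656719110228)), (.negSucc (nat_lit 7865940874656719110227)), (.negSucc (nat_lit 7865940874656719110227)), (.ofNat (nat_lit 7865940874656719110228)), (.ofNat (nat_lit 0))⟩,
    ⟨nat_lit 0, nat_lit 18, nat_lit 10, (.ofNat (nat_lit 8)), (.ofNat (nat_lit 2084123008)), (.ofNat (nat_lit 30409505916527845746931303979520)), (.ofNat (nat_lit 635829952)), (.ofNat (nat_lit 5009648845586403772231478384384)), (.ofNat (nat_lit 2084122992)), (.ofNat (nat_lit 2084123024)), (.ofNat (nat_lit 7865940874656719110228)), (.negSucc (nat_lit 7865940874656719110227)), (.negSucc (nat_lit 7865940874656719110227)), (.ofNat (nat_lit 7865940874656719110228)), (.ofNat (nat_lit 0))⟩,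
    ⟨nat_lit 1, nat_lit 11, nat_lit 17, (.ofNat (nat_lit 8)), (.negSucc (nat_lit 3945627839)), (.ofNat (nat_lit 44162559086901538871695028438272)), (.negSucc (nat_lit 524287)), (.ofNat (nat_lit 20620092046460109744316088320)), (.negSucc (nat_lit 3945627855)), (.negSucc (nat_lit 3945627823)), (.ofNat (nat_lit 7865940874656719110228)), (.negSucc (nat_lit 7865940874656719110227)), (.negSucc (nat_lit 7865940874656719110227)), (.ofNat (nat_lit 7865940874656719110228)), (.ofNat (nat_lit 0))⟩,
    ⟨nat_lit 0, nat_lit 6, nat_lit 11, (.ofNat (nat_lit 8)), (.negSucc (nat_lit 4645322623)), (.ofNat (nat_lit 38658801285651834719715375787520)), (.negSucc (nat_lit 1048575)), (.ofNat (nat_lit 16496073637168087795452870656)), (.negSucc (nat_lit 4645322639)), (.negSucc (nat_lit 4645322607)), (.negSucc (nat_lit 7865940874656719110227)), (.ofNat (nat_lit 7865940874656719110228)), (.negSucc (nat_lit 7865940874656719110227)), (.ofNat (nat_lit 7865940874656719110228)), (.ofNat (nat_lit 0))⟩,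
    ⟨nat_lit 0, nat_lit 19, nat_lit 12, (.ofNat (nat_lit 8)), (.negSucc (nat_lit 145804223)), (.ofNat (nat_lit 1650016644352398917954030448896)), (.negSucc (nat_lit 262143)), (.ofNat (nat_lit 2062009204646010974431608832)), (.negSucc (nat_lit 145804239)), (.negSucc (nat_lit 145804207)), (.negSucc (nat_lit 7865940874656719110227)), (.ofNat (nat_lit 7865940874656719110228)), (.negSucc (nat_lit 7865940874656719110227)), (.ofNat (nat_lit 7865940874656719110228)), (.ofNat (nat_lit 0))⟩,
    ⟨nat_lit 1, nat_lit 12, nat_lit 13, (.ofNat (nat_lit 8)), (.ofNat (nat_lit 2648724608)), (.ofNat (nat_lit 23631615209387898574011562542592)), (.ofNat (nat_lit 635829952)), (.ofNat (nat_lit 5005524827177111750282615166720)), (.ofNat (nat_lit 2648724592)), (.ofNat (nat_lit 2648724624)), (.ofNat (nat_lit 7865940874656719110228)), (.negSucc (nat_lit 7865940874656719110227)), (.negSucc (nat_lit 7865940874656719110227)), (.ofNat (nat_lit 7865940874656719110228)), (.ofNat (nat_lit 0))⟩,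
    ⟨nat_lit 0, nat_lit 14, nat_lit 13, (.ofNat (nat_lit 8)), (.ofNat (nat_lit 1045020992)), (.ofNat (nat_lit 36246253033317081769780508727040)), (.ofNat (nat_lit 635305664)), (.ofNat (nat_lit 5009648845586403772231478384384)), (.ofNat (nat_lit 1045020976)), (.ofNat (nat_lit 1045021008)), (.ofNat (nat_lit 7865940874656719110228)), (.negSucc (nat_lit 7865940874656719110227)), (.negSucc (nat_lit 7865940874656719110227)), (.ofNat (nat_lit 7865940874656719110228)), (.ofNat (nat_lit 0))⟩,
    ⟨nat_lit 0, nat_lit 15, nat_lit 14, (.ofNat (nat_lit 8)), (.negSucc (nat_lit 1596235711)), (.ofNat (nat_lit 15470283964862398721245888758528)), (.ofNat (nat_lit 0)), (.ofNat (nat_lit 12372055227876065846589652992)), (.negSucc (nat_lit 1596235727)), (.negSucc (nat_lit 1596235695)), (.negSucc (nat_lit 7865940874656719110227)), (.ofNat (nat_lit 7865940874656719110228)), (.negSucc (nat_lit 7865940874656719110227)), (.ofNat (nat_lit 7865940874656719110228)), (.ofNat (nat_lit 0))⟩,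
    ⟨nat_lit 2, nat_lit 15, nat_lit 16, (.ofNat (nat_lit 8)), (.negSucc (nat_lit 5701301119)), (.ofNat (nat_lit 47760485750788960215415390551552)), (.negSucc (nat_lit 1048575)), (.ofNat (nat_lit 20620092046460109744316088320)), (.negSucc (nat_lit 5701301135)), (.negSucc (nat_lit 5701301103)), (.negSucc (nat_lit 7865940874656719110227)), (.ofNat (nat_lit 7865940874656719110228)), (.negSucc (nat_lit 7865940874656719110227)), (.ofNat (nat_lit 7865940874656719110228)), (.ofNat (nat_lit 0))⟩,
    ⟨nat_lit 0, nat_lit 16, nat_lit 17, (.ofNat (nat_lit 8)), (.negSucc (nat_lit 5052167359)), (.ofNat (nat_lit 52866533526692565000701546648832)), (.negSucc (nat_lit 786431)), (.ofNat (nat_lit 22682101251106120718747697152)), (.negSucc (nat_lit 5052167375)), (.negSucc (nat_lit 5052167343)), (.ofNat (nat_lit 7865940874656719110228)), (.negSucc (nat_lit 7865940874656719110227)), (.negSucc (nat_lit 7865940874656719110227)), (.ofNat (nat_lit 7865940874656719110228)), (.ofNat (nat_lit 0))⟩,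
    ⟨nat_lit 2, nat_lit 19, nat_lit 7, (.ofNat (nat_lit 8)), (.negSucc (nat_lit 3699914879)), (.ofNat (nat_lit 29606440926435804649614203838464)), (.negSucc (nat_lit 1310719)), (.ofNat (nat_lit 10310046023230054872158044160)), (.negSucc (nat_lit 3699914895)), (.negSucc (nat_lit 3699914863)), (.negSucc (nat_lit 7865940874656719110227)), (.ofNat (nat_lit 7865940874656719110228)), (.negSucc (nat_lit 7865940874656719110227)), (.ofNat (nat_lit 7865940874656719110228)), (.ofNat (nat_lit 0))⟩]
  es := [
    ⟨nat_lit 1, nat_lit 0, (.negSucc (nat_lit 5869532863)), (.negSucc (nat_lit 833514943)), (.negSucc (nat_lit 5869532847)), (.negSucc (nat_lit 833514959)), (.negSucc (nat_lit 7865940874656719110227)), (.ofNat (nat_lit 0)), (.ofNat (nat_lit 4124018409292021948863217664))⟩,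
    ⟨nat_lit 1, nat_lit 2, (.negSucc (nat_lit 5869532863)), (.negSucc (nat_lit 5075777727)), (.negSucc (nat_lit 5869532847)), (.negSucc (nat_lit 5075777743)), (.ofNat (nat_lit 7865940874384978460756)), (.ofNat (nat_lit 0)), (.ofNat (nat_lit 32992147273837529325199425536))⟩,
    ⟨nat_lit 2, nat_lit 3, (.negSucc (nat_lit 5075777727)), (.negSucc (nat_lit 1859016255)), (.negSucc (nat_lit 5075777711)), (.negSucc (nat_lit 1859016271)), (.negSucc (nat_lit 7865941208745054768826)), (.ofNat (nat_lit 0)), (.ofNat (nat_lit 9998677810588866212570941041984))⟩,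
    ⟨nat_lit 3, nat_lit 4, (.negSucc (nat_lit 1859016255)), (.ofNat (nat_lit 296258304)), (.negSucc (nat_lit 1859016239)), (.ofNat (nat_lit 296258288)), (.ofNat (nat_lit 7865941373385837839010)), (.ofNat (nat_lit 0)), (.ofNat (nat_lit 16495756660995311571730620800))⟩,
    ⟨nat_lit 5, nat_lit 4, (.negSucc (nat_lit 2960890751)), (.ofNat (nat_lit 296258304)), (.negSucc (nat_lit 2960890735)), (.ofNat (nat_lit 296258288)), (.negSucc (nat_lit 7865940874656719110227)), (.ofNat (nat_lit 0)), (.ofNat (nat_lit 10015173672763515522514093551104))⟩,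
    ⟨nat_lit 6, nat_lit 5, (.negSucc (nat_lit 5832637311)), (.negSucc (nat_lit 2960890751)), (.negSucc (nat_lit 5832637295)), (.negSucc (nat_lit 2960890767)), (.ofNat (nat_lit 7865940874656719110228)), (.ofNat (nat_lit 0)), (.ofNat (nat_lit 37116165683628197539768958976))⟩,
    ⟨nat_lit 6, nat_lit 12, (.negSucc (nat_lit 5832637311)), (.negSucc (nat_lit 4645322623)), (.negSucc (nat_lit 5832637295)), (.negSucc (nat_lit 4645322639)), (.negSucc (nat_lit 7865940874656719110227)), (.ofNat (nat_lit 0)), (.ofNat (nat_lit 8248036818584043897726435328))⟩,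
    ⟨nat_lit 19, nat_lit 7, (.negSucc (nat_lit 3699914879)), (.negSucc (nat_lit 2245950399)), (.negSucc (nat_lit 3699914863)), (.negSucc (nat_lit 2245950415)), (.ofNat (nat_lit 7865940874656719110228)), (.ofNat (nat_lit 0)), (.ofNat (nat_lit 20620092046460109744316088320))⟩,
    ⟨nat_lit 7, nat_lit 8, (.negSucc (nat_lit 2245950399)), (.ofNat (nat_lit 1467333760)), (.negSucc (nat_lit 2245950383)), (.ofNat (nat_lit 1467333744)), (.negSucc (nat_lit 7865940874656719110227)), (.ofNat (nat_lit 0)), (.ofNat (nat_lit 10002801617535639456667503898112))⟩,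
    ⟨nat_lit 8, nat_lit 9, (.ofNat (nat_lit 1467333760)), (.ofNat (nat_lit 2956435200)), (.ofNat (nat_lit 1467333776)), (.ofNat (nat_lit 2956435184)), (.ofNat (nat_lit 7865940874656719110228)), (.ofNat (nat_lit 0)), (.ofNat (nat_lit 0))⟩,
    ⟨nat_lit 10, nat_lit 9, (.ofNat (nat_lit 2084123008)), (.ofNat (nat_lit 2956435200)), (.ofNat (nat_lit 2084123024)), (.ofNat (nat_lit 2956435184)), (.negSucc (nat_lit 7865940874656719110227)), (.ofNat (nat_lit 0)), (.ofNat (nat_lit 10011049654354223500565230333440))⟩,
    ⟨nat_lit 12, nat_lit 11, (.negSucc (nat_lit 4645322623)), (.negSucc (nat_lit 3945627839)), (.negSucc (nat_lit 4645322607)), (.negSucc (nat_lit 3945627855)), (.ofNat (nat_lit 7865940874656719110228)), (.ofNat (nat_lit 0)), (.ofNat (nat_lit 24744110455752131693179305984))⟩,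
    ⟨nat_lit 13, nat_lit 14, (.negSucc (nat_lit 145804223)), (.ofNat (nat_lit 2648724608)), (.negSucc (nat_lit 145804207)), (.ofNat (nat_lit 2648724592)), (.ofNat (nat_lit 7865940874656719110228)), (.ofNat (nat_lit 0)), (.ofNat (nat_lit 4124018409292021948863217664))⟩,
    ⟨nat_lit 15, nat_lit 14, (.ofNat (nat_lit 1045020992)), (.ofNat (nat_lit 2648724608)), (.ofNat (nat_lit 1045021008)), (.ofNat (nat_lit 2648724592)), (.negSucc (nat_lit 7865940874656719110227)), (.ofNat (nat_lit 0)), (.ofNat (nat_lit 10006925635944931478616367115776))⟩,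
    ⟨nat_lit 16, nat_lit 15, (.negSucc (nat_lit 1596235711)), (.ofNat (nat_lit 1045020992)), (.negSucc (nat_lit 1596235695)), (.ofNat (nat_lit 1045020976)), (.ofNat (nat_lit 7865940874656719110228)), (.ofNat (nat_lit 0)), (.ofNat (nat_lit 12372055227876065846589652992))⟩,
    ⟨nat_lit 17, nat_lit 16, (.negSucc (nat_lit 5701301119)), (.negSucc (nat_lit 1596235711)), (.negSucc (nat_lit 5701301103)), (.negSucc (nat_lit 1596235727)), (.negSucc (nat_lit 7865940874656719110227)), (.ofNat (nat_lit 0)), (.ofNat (nat_lit 12372055227876065846589652992))⟩,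
    ⟨nat_lit 17, nat_lit 18, (.negSucc (nat_lit 5701301119)), (.negSucc (nat_lit 5052167359)), (.negSucc (nat_lit 5701301103)), (.negSucc (nat_lit 5052167375)), (.ofNat (nat_lit 7865940874656719110228)), (.ofNat (nat_lit 0)), (.ofNat (nat_lit 28868128865044153642042523648))⟩,
    ⟨nat_lit 18, nat_lit 11, (.negSucc (nat_lit 5052167359)), (.negSucc (nat_lit 3945627839)), (.negSucc (nat_lit 5052167343)), (.negSucc (nat_lit 3945627855)), (.negSucc (nat_lit 7865940874656719110227)), (.ofNat (nat_lit 0)), (.ofNat (nat_lit 16496073637168087795452870656))⟩,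
    ⟨nat_lit 0, nat_lit 10, (.negSucc (nat_lit 833514943)), (.ofNat (nat_lit 2084123008)), (.negSucc (nat_lit 833514927)), (.ofNat (nat_lit 2084122992)), (.ofNat (nat_lit 7865940874656719110228)), (.ofNat (nat_lit 0)), (.ofNat (nat_lit 8248036818584043897726435328))⟩,
    ⟨nat_lit 19, nat_lit 13, (.negSucc (nat_lit 3699914879)), (.negSucc (nat_lit 145804223)), (.negSucc (nat_lit 3699914863)), (.negSucc (nat_lit 145804239)), (.negSucc (nat_lit 7865940874656719110227)), (.ofNat (nat_lit 0)), (.ofNat (nat_lit 0))⟩]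

theorem ok102 : stOK 19 19 S102 = true := by decide +kernel

def S103 : SD where
  vs := [
    ⟨nat_lit 0, nat_lit 0, nat_lit 18, (.ofNat (nat_lit 8)), (.negSucc (nat_lit 833514943)), (.ofNat (nat_lit 7576093578260722835049973761600)), (.ofNat (nat_lit 0)), (.ofNat (nat_lit 116555285819395735923553955136)), (.negSucc (nat_lit 833514959)), (.negSucc (nat_lit 833514927)), (.negSucc (nat_lit 7988846200823230346324)), (.ofNat (nat_lit 7988846200823230346325)), (.negSucc (nat_lit 7988846200823230346324)), (.ofNat (nat_lit 7988846200823230346325)), (.ofNat (nat_lit 737431956999067416582))⟩,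
    ⟨nat_lit 2, nat_lit 0, nat_lit 1, (.ofNat (nat_lit 8)), (.negSucc (nat_lit 5869532863)), (.ofNat (nat_lit 47808066205730429611430479905600)), (.ofNat (nat_lit 0)), (.ofNat (nat_lit 735508710857391224789396813376)), (.negSucc (nat_lit 5869532879)), (.negSucc (nat_lit 5869532847)), (.negSucc (nat_lit 7988846200823230346324)), (.ofNat (nat_lit 7988846200823230346325)), (.negSucc (nat_lit 7988846200823230346324)), (.ofNat (nat_lit 7988846200823230346325)), (.ofNat (nat_lit 737431957542548715526))⟩,
    ⟨nat_lit 0, nat_lit 1, nat_lit 2, (.ofNat (nat_lit 8)), (.negSucc (nat_lit 5075777727)), (.ofNat (nat_lit 54149253908347956126937007380800)), (.ofNat (nat_lit 0)), (.ofNat (nat_lit 833065444959510245821474845760)), (.negSucc (nat_lit 5075777743)), (.negSucc (nat_lit 5075777711)), (.ofNat (nat_lit 7988846200823230346325)), (.negSucc (nat_lit 7988846200823230346324)), (.negSucc (nat_lit 7988846200823230346324)), (.ofNat (nat_lit 7988846200823230346325)), (.ofNat (nat_lit 737431289909358697272))⟩,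
    ⟨nat_lit 0, nat_lit 2, nat_lit 3, (.ofNat (nat_lit 8)), (.negSucc (nat_lit 1859016255)), (.ofNat (nat_lit 28451041243806214066297530590400)), (.ofNat (nat_lit 0)), (.ofNat (nat_lit 437709401725969836074558288704)), (.negSucc (nat_lit 1859016271)), (.negSucc (nat_lit 1859016239)), (.negSucc (nat_lit 7988846200823230346324)), (.ofNat (nat_lit 7988846200823230346325)), (.negSucc (nat_lit 7988846200823230346324)), (.ofNat (nat_lit 7988846200823230346325)), (.ofNat (nat_lit 737429623187487324622))⟩,
    ⟨nat_lit 1, nat_lit 3, nat_lit 4, (.ofNat (nat_lit 8)), (.ofNat (nat_lit 296258304)), (.ofNat (nat_lit 45669198224193173488751792582400)), (.ofNat (nat_lit 0)), (.ofNat (nat_lit 702603049602971899825191695104)), (.ofNat (nat_lit 296258288)), (.ofNat (nat_lit 296258320)), (.ofNat (nat_lit 7988846200823230346325)), (.negSucc (nat_lit 7988846200823230346324)), (.negSucc (nat_lit 7988846200823230346324)), (.ofNat (nat_lit 7988846200823230346325)), (.ofNat (nat_lit 737429962082592501454))⟩,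
    ⟨nat_lit 0, nat_lit 5, nat_lit 4, (.ofNat (nat_lit 8)), (.negSucc (nat_lit 2960890751)), (.ofNat (nat_lit 71690061085733744634154819401600)), (.ofNat (nat_lit 0)), (.ofNat (nat_lit 1102924016703596071291928369536)), (.negSucc (nat_lit 2960890767)), (.negSucc (nat_lit 2960890735)), (.ofNat (nat_lit 7988846200823230346325)), (.negSucc (nat_lit 7988846200823230346324)), (.negSucc (nat_lit 7988846200823230346324)), (.ofNat (nat_lit 7988846200823230346325)), (.ofNat (nat_lit 737431956999067416582))⟩,
    ⟨nat_lit 2, nat_lit 6, nat_lit 5, (.ofNat (nat_lit 8)), (.negSucc (nat_lit 5832637311)), (.ofNat (nat_lit 48748119490150563719008392009600)), (.ofNat (nat_lit 0)), (.ofNat (nat_lit 749971069079239441829020793216)), (.negSucc (nat_lit 5832637327)), (.negSucc (nat_lit 5832637295)), (.negSucc (nat_lit 7988846200823230346324)), (.ofNat (nat_lit 7988846200823230346325)), (.negSucc (nat_lit 7988846200823230346324)), (.ofNat (nat_lit 7988846200823230346325)), (.ofNat (nat_lit 737431956999067416582))⟩,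
    ⟨nat_lit 0, nat_lit 7, nat_lit 8, (.ofNat (nat_lit 8)), (.negSucc (nat_lit 2245950399)), (.ofNat (nat_lit 41684540178091287779677898097600)), (.ofNat (nat_lit 0)), (.ofNat (nat_lit 641300618124481350454977557696)), (.negSucc (nat_lit 2245950415)), (.negSucc (nat_lit 2245950383)), (.ofNat (nat_lit 7988846200823230346325)), (.negSucc (nat_lit 7988846200823230346324)), (.negSucc (nat_lit 7988846200823230346324)), (.ofNat (nat_lit 7988846200823230346325)), (.ofNat (nat_lit 737431956999067416582))⟩,
    ⟨nat_lit 0, nat_lit 8, nat_lit 9, (.ofNat (nat_lit 8)), (.ofNat (nat_lit 1467333760)), (.ofNat (nat_lit 12019684123898207574637961385600)), (.ofNat (nat_lit 0)), (.ofNat (nat_lit 184918217290741654993967234176)), (.ofNat (nat_lit 1467333744)), (.ofNat (nat_lit 1467333776)), (.negSucc (nat_lit 7988846200823230346324)), (.ofNat (nat_lit 7988846200823230346325)), (.negSucc (nat_lit 7988846200823230346324)), (.ofNat (nat_lit 7988846200823230346325)), (.ofNat (nat_lit 737431956999067416582))⟩,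
    ⟨nat_lit 1, nat_lit 9, nat_lit 10, (.ofNat (nat_lit 8)), (.ofNat (nat_lit 2956435200)), (.ofNat (nat_lit 23915886505482609068802217593600)), (.ofNat (nat_lit 0)), (.ofNat (nat_lit 367936715468963216442189913856)), (.ofNat (nat_lit 2956435184)), (.ofNat (nat_lit 2956435216)), (.ofNat (nat_lit 7988846200823230346325)), (.negSucc (nat_lit 7988846200823230346324)), (.negSucc (nat_lit 7988846200823230346324)), (.ofNat (nat_lit 7988846200823230346325)), (.ofNat (nat_lit 737431956999067416582))⟩,
    ⟨nat_lit 0, nat_lit 18, nat_lit 10, (.ofNat (nat_lit 8)), (.ofNat (nat_lit 2084123008)), (.ofNat (nat_lit 30884654446473593336725897488000)), (.ofNat (nat_lit 0)), (.ofNat (nat_lit 475148529945747589794593508480)), (.ofNat (nat_lit 2084122992)), (.ofNat (nat_lit 2084123024)), (.ofNat (nat_lit 7988846200823230346325)), (.negSucc (nat_lit 7988846200823230346324)), (.negSucc (nat_lit 7988846200823230346324)), (.ofNat (nat_lit 7988846200823230346325)), (.ofNat (nat_lit 737431956999067416582))⟩,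
    ⟨nat_lit 1, nat_lit 11, nat_lit 17, (.ofNat (nat_lit 8)), (.negSucc (nat_lit 3945627839)), (.ofNat (nat_lit 44852599072634375416563508756800)), (.ofNat (nat_lit 0)), (.ofNat (nat_lit 690039985732836544868480318528)), (.negSucc (nat_lit 3945627855)), (.negSucc (nat_lit 3945627823)), (.ofNat (nat_lit 7988846200823230346325)), (.negSucc (nat_lit 7988846200823230346324)), (.negSucc (nat_lit 7988846200823230346324)), (.ofNat (nat_lit 7988846200823230346325)), (.ofNat (nat_lit 737431956999067416582))⟩,
    ⟨nat_lit 0, nat_lit 6, nat_lit 11, (.ofNat (nat_lit 8)), (.negSucc (nat_lit 4645322623)), (.ofNat (nat_lit 39262845055740144637209392688000)), (.ofNat (nat_lit 0)), (.ofNat (nat_lit 604043770088309917494016900480)), (.negSucc (nat_lit 4645322639)), (.negSucc (nat_lit 4645322607)), (.negSucc (nat_lit 7988846200823230346324)), (.ofNat (nat_lit 7988846200823230346325)), (.negSucc (nat_lit 7988846200823230346324)), (.ofNat (nat_lit 7988846200823230346325)), (.ofNat (nat_lit 737431956999067416582))⟩,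
    ⟨nat_lit 0, nat_lit 19, nat_lit 12, (.ofNat (nat_lit 8)), (.negSucc (nat_lit 145804223)), (.ofNat (nat_lit 1675798154420405151046996622400)), (.ofNat (nat_lit 0)), (.ofNat (nat_lit 25781510068006233092966173504)), (.negSucc (nat_lit 145804239)), (.negSucc (nat_lit 145804207)), (.negSucc (nat_lit 7988846200823230346324)), (.ofNat (nat_lit 7988846200823230346325)), (.negSucc (nat_lit 7988846200823230346324)), (.ofNat (nat_lit 7988846200823230346325)), (.ofNat (nat_lit 737431956999067416582))⟩,
    ⟨nat_lit 1, nat_lit 12, nat_lit 13, (.ofNat (nat_lit 8)), (.ofNat (nat_lit 2648724608)), (.ofNat (nat_lit 24000859197034584489229554364800)), (.ofNat (nat_lit 0)), (.ofNat (nat_lit 369243987646685915217991822208)), (.ofNat (nat_lit 2648724592)), (.ofNat (nat_lit 2648724624)), (.ofNat (nat_lit 7988846200823230346325)), (.negSucc (nat_lit 7988846200823230346324)), (.negSucc (nat_lit 7988846200823230346324)), (.ofNat (nat_lit 7988846200823230346325)), (.ofNat (nat_lit 737431956999067416582))⟩,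
    ⟨nat_lit 0, nat_lit 14, nat_lit 13, (.ofNat (nat_lit 8)), (.ofNat (nat_lit 1045020992)), (.ofNat (nat_lit 36812600736962661172431889176000)), (.ofNat (nat_lit 0)), (.ofNat (nat_lit 566347703645579402651380448960)), (.ofNat (nat_lit 1045020976)), (.ofNat (nat_lit 1045021008)), (.ofNat (nat_lit 7988846200823230346325)), (.negSucc (nat_lit 7988846200823230346324)), (.negSucc (nat_lit 7988846200823230346324)), (.ofNat (nat_lit 7988846200823230346325)), (.ofNat (nat_lit 737431956999067416582))⟩,
    ⟨nat_lit 0, nat_lit 15, nat_lit 14, (.ofNat (nat_lit 8)), (.negSucc (nat_lit 1596235711)), (.ofNat (nat_lit 15712007151813373701264741163200)), (.ofNat (nat_lit 0)), (.ofNat (nat_lit 241723186950974980018852404672)), (.negSucc (nat_lit 1596235727)), (.negSucc (nat_lit 1596235695)), (.negSucc (nat_lit 7988846200823230346324)), (.ofNat (nat_lit 7988846200823230346325)), (.negSucc (nat_lit 7988846200823230346324)), (.ofNat (nat_lit 7988846200823230346325)), (.ofNat (nat_lit 737431956999067416582))⟩,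
    ⟨nat_lit 2, nat_lit 15, nat_lit 16, (.ofNat (nat_lit 8)), (.negSucc (nat_lit 5701301119)), (.ofNat (nat_lit 48506743340645037718779358588800)), (.ofNat (nat_lit 0)), (.ofNat (nat_lit 746257589856077503363968037248)), (.negSucc (nat_lit 5701301135)), (.negSucc (nat_lit 5701301103)), (.negSucc (nat_lit 7988846200823230346324)), (.ofNat (nat_lit 7988846200823230346325)), (.negSucc (nat_lit 7988846200823230346324)), (.ofNat (nat_lit 7988846200823230346325)), (.ofNat (nat_lit 737431956999067416582))⟩,
    ⟨nat_lit 0, nat_lit 16, nat_lit 17, (.ofNat (nat_lit 8)), (.negSucc (nat_lit 5052167359)), (.ofNat (nat_lit 53692573113047136328835408020800)), (.ofNat (nat_lit 0)), (.ofNat (nat_lit 826039586354571328133861371968)), (.negSucc (nat_lit 5052167375)), (.negSucc (nat_lit 5052167343)), (.ofNat (nat_lit 7988846200823230346325)), (.negSucc (nat_lit 7988846200823230346324)), (.negSucc (nat_lit 7988846200823230346324)), (.ofNat (nat_lit 7988846200823230346325)), (.ofNat (nat_lit 737431956999067416582))⟩,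
    ⟨nat_lit 2, nat_lit 19, nat_lit 7, (.ofNat (nat_lit 8)), (.negSucc (nat_lit 3699914879)), (.ofNat (nat_lit 30069041565911364097263249561600)), (.ofNat (nat_lit 0)), (.ofNat (nat_lit 462600639475559447649045723136)), (.negSucc (nat_lit 3699914895)), (.negSucc (nat_lit 3699914863)), (.negSucc (nat_lit 7988846200823230346324)), (.ofNat (nat_lit 7988846200823230346325)), (.negSucc (nat_lit 7988846200823230346324)), (.ofNat (nat_lit 7988846200823230346325)), (.ofNat (nat_lit 737431956999067416582))⟩]
  es := [
    ⟨nat_lit 1, nat_lit 0, (.negSucc (nat_lit 5869532863)), (.negSucc (nat_lit 833514943)), (.negSucc (nat_lit 5869532847)), (.negSucc (nat_lit 833514959)), (.negSucc (nat_lit 7988846200823230346324)), (.negSucc (nat_lit 122905326166511236096)), (.ofNat (nat_lit 14111859762414388292792221568))⟩,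
    ⟨nat_lit 1, nat_lit 2, (.negSucc (nat_lit 5869532863)), (.negSucc (nat_lit 5075777727)), (.negSucc (nat_lit 5869532847)), (.negSucc (nat_lit 5075777743)), (.ofNat (nat_lit 7988846200823230346325)), (.ofNat (nat_lit 122905326438251885569)), (.ofNat (nat_lit 1456905563547358733846609652992))⟩,
    ⟨nat_lit 2, nat_lit 3, (.negSucc (nat_lit 5075777727)), (.negSucc (nat_lit 1859016255)), (.negSucc (nat_lit 5075777711)), (.negSucc (nat_lit 1859016271)), (.negSucc (nat_lit 7988846200823230346324)), (.negSucc (nat_lit 122904992078175577497)), (.ofNat (nat_lit 209227023509090214683588481216))⟩,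
    ⟨nat_lit 3, nat_lit 4, (.negSucc (nat_lit 1859016255)), (.ofNat (nat_lit 296258304)), (.negSucc (nat_lit 1859016239)), (.ofNat (nat_lit 296258288)), (.ofNat (nat_lit 7988846200823230346325)), (.ofNat (nat_lit 122904827437392507315)), (.ofNat (nat_lit 666191473872957329425742201344))⟩,
    ⟨nat_lit 5, nat_lit 4, (.negSucc (nat_lit 2960890751)), (.ofNat (nat_lit 296258304)), (.negSucc (nat_lit 2960890735)), (.ofNat (nat_lit 296258288)), (.negSucc (nat_lit 7988846200823230346324)), (.negSucc (nat_lit 122905326166511236096)), (.ofNat (nat_lit 739014773085629340228232494592))⟩,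
    ⟨nat_lit 6, nat_lit 5, (.negSucc (nat_lit 5832637311)), (.negSucc (nat_lit 2960890751)), (.negSucc (nat_lit 5832637295)), (.negSucc (nat_lit 2960890767)), (.ofNat (nat_lit 7988846200823230346325)), (.ofNat (nat_lit 122905326166511236097)), (.ofNat (nat_lit 1466833260321562802355624244480))⟩,
    ⟨nat_lit 6, nat_lit 12, (.negSucc (nat_lit 5832637311)), (.negSucc (nat_lit 4645322623)), (.negSucc (nat_lit 5832637295)), (.negSucc (nat_lit 4645322639)), (.negSucc (nat_lit 7988846200823230346324)), (.negSucc (nat_lit 122905326166511236096)), (.ofNat (nat_lit 33108877836916081302417341952))⟩,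
    ⟨nat_lit 19, nat_lit 7, (.negSucc (nat_lit 3699914879)), (.negSucc (nat_lit 2245950399)), (.negSucc (nat_lit 3699914863)), (.negSucc (nat_lit 2245950415)), (.ofNat (nat_lit 7988846200823230346325)), (.ofNat (nat_lit 122905326166511236097)), (.ofNat (nat_lit 917339884590287727771529146496))⟩,
    ⟨nat_lit 7, nat_lit 8, (.negSucc (nat_lit 2245950399)), (.ofNat (nat_lit 1467333760)), (.negSucc (nat_lit 2245950383)), (.ofNat (nat_lit 1467333744)), (.negSucc (nat_lit 7988846200823230346324)), (.negSucc (nat_lit 122905326166511236096)), (.ofNat (nat_lit 365261351658674973138425968896))⟩,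
    ⟨nat_lit 8, nat_lit 9, (.ofNat (nat_lit 1467333760)), (.ofNat (nat_lit 2956435200)), (.ofNat (nat_lit 1467333776)), (.ofNat (nat_lit 2956435184)), (.ofNat (nat_lit 7988846200823230346325)), (.ofNat (nat_lit 122905326166511236097)), (.ofNat (nat_lit 4575082922808336849508499456))⟩,
    ⟨nat_lit 10, nat_lit 9, (.ofNat (nat_lit 2084123008)), (.ofNat (nat_lit 2956435200)), (.ofNat (nat_lit 2084123024)), (.ofNat (nat_lit 2956435184)), (.negSucc (nat_lit 7988846200823230346324)), (.negSucc (nat_lit 122905326166511236096)), (.ofNat (nat_lit 731298348015118096034871328256))⟩,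
    ⟨nat_lit 12, nat_lit 11, (.negSucc (nat_lit 4645322623)), (.negSucc (nat_lit 3945627839)), (.negSucc (nat_lit 4645322607)), (.negSucc (nat_lit 3945627855)), (.ofNat (nat_lit 7988846200823230346325)), (.ofNat (nat_lit 122905326166511236097)), (.ofNat (nat_lit 1174978662339703753685616459008))⟩,
    ⟨nat_lit 13, nat_lit 14, (.negSucc (nat_lit 145804223)), (.ofNat (nat_lit 2648724608)), (.negSucc (nat_lit 145804207)), (.ofNat (nat_lit 2648724592)), (.ofNat (nat_lit 7988846200823230346325)), (.ofNat (nat_lit 122905326166511236097)), (.ofNat (nat_lit 43701625775181298659370047232))⟩,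
    ⟨nat_lit 15, nat_lit 14, (.ofNat (nat_lit 1045020992)), (.ofNat (nat_lit 2648724608)), (.ofNat (nat_lit 1045021008)), (.ofNat (nat_lit 2648724592)), (.negSucc (nat_lit 7988846200823230346324)), (.negSucc (nat_lit 122905326166511236096)), (.ofNat (nat_lit 694786349518190531776613597184))⟩,
    ⟨nat_lit 16, nat_lit 15, (.negSucc (nat_lit 1596235711)), (.ofNat (nat_lit 1045020992)), (.negSucc (nat_lit 1596235695)), (.ofNat (nat_lit 1045020976)), (.ofNat (nat_lit 7988846200823230346325)), (.ofNat (nat_lit 122905326166511236097)), (.ofNat (nat_lit 437909057772968273526147300736))⟩,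
    ⟨nat_lit 17, nat_lit 16, (.negSucc (nat_lit 5701301119)), (.negSucc (nat_lit 1596235711)), (.negSucc (nat_lit 5701301103)), (.negSucc (nat_lit 1596235727)), (.negSucc (nat_lit 7988846200823230346324)), (.negSucc (nat_lit 122905326166511236096)), (.ofNat (nat_lit 45537316128981686511557508608))⟩,
    ⟨nat_lit 17, nat_lit 18, (.negSucc (nat_lit 5701301119)), (.negSucc (nat_lit 5052167359)), (.negSucc (nat_lit 5701301103)), (.negSucc (nat_lit 5052167375)), (.ofNat (nat_lit 7988846200823230346325)), (.ofNat (nat_lit 122905326166511236097)), (.ofNat (nat_lit 1446977863583173320216378565888))⟩,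
    ⟨nat_lit 18, nat_lit 11, (.negSucc (nat_lit 5052167359)), (.negSucc (nat_lit 3945627839)), (.negSucc (nat_lit 5052167343)), (.negSucc (nat_lit 3945627855)), (.negSucc (nat_lit 7988846200823230346324)), (.negSucc (nat_lit 122905326166511236096)), (.ofNat (nat_lit 205101309125969336051344178048))⟩,
    ⟨nat_lit 0, nat_lit 10, (.negSucc (nat_lit 833514943)), (.ofNat (nat_lit 2084123008)), (.negSucc (nat_lit 833514927)), (.ofNat (nat_lit 2084122992)), (.ofNat (nat_lit 7988846200823230346325)), (.ofNat (nat_lit 122905326166511236097)), (.ofNat (nat_lit 218998711876377083554315688704))⟩,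
    ⟨nat_lit 19, nat_lit 13, (.negSucc (nat_lit 3699914879)), (.negSucc (nat_lit 145804223)), (.negSucc (nat_lit 3699914863)), (.negSucc (nat_lit 145804239)), (.negSucc (nat_lit 7988846200823230346324)), (.negSucc (nat_lit 122905326166511236096)), (.ofNat (nat_lit 7861394360831167526562299776))⟩]

theorem ok103 : stOK 19 19 S103 = true := by decide +kernel

def S104 : SD where
  vs := [
    ⟨nat_lit 0, nat_lit 0, nat_lit 18, (.ofNat (nat_lit 8)), (.negSucc (nat_lit 833777087)), (.ofNat (nat_lit 7582376262556128649737694824000)), (.negSucc (nat_lit 262143)), (.ofNat (nat_lit 6282684295405814687721062400)), (.negSucc (nat_lit 833777103)), (.negSucc (nat_lit 833777071)), (.negSucc (nat_lit 7988846200823230346324)), (.ofNat (nat_lit 7988846200823230346325)), (.negSucc (nat_lit 7988846200823230346324)), (.ofNat (nat_lit 7988846200823230346325)), (.ofNat (nat_lit 0))⟩,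
    ⟨nat_lit 2, nat_lit 0, nat_lit 1, (.ofNat (nat_lit 8)), (.negSucc (nat_lit 5871367871)), (.ofNat (nat_lit 47826914258616647055493643092800)), (.negSucc (nat_lit 1835007)), (.ofNat (nat_lit 18848052886217444063163187200)), (.negSucc (nat_lit 5871367887)), (.negSucc (nat_lit 5871367855)), (.negSucc (nat_lit 7988846200823230346324)), (.ofNat (nat_lit 7988846200823230346325)), (.negSucc (nat_lit 7988846200823230346324)), (.ofNat (nat_lit 7988846200823230346325)), (.ofNat (nat_lit 0))⟩,
    ⟨nat_lit 0, nat_lit 1, nat_lit 2, (.ofNat (nat_lit 8)), (.negSucc (nat_lit 4309911231)), (.ofNat (nat_lit 60301151204830853546012313940800)), (.ofNat (nat_lit 765866496)), (.ofNat (nat_lit 6151897296482897419075306560000)), (.negSucc (nat_lit 4309911247)), (.negSucc (nat_lit 4309911215)), (.ofNat (nat_lit 7988846200823230346325)), (.negSucc (nat_lit 7988846200823230346324)), (.negSucc (nat_lit 7988846200823230346324)), (.ofNat (nat_lit 7988846200823230346325)), (.ofNat (nat_lit 0))⟩,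
    ⟨nat_lit 0, nat_lit 2, nat_lit 3, (.ofNat (nat_lit 8)), (.negSucc (nat_lit 1092101183)), (.ofNat (nat_lit 34594561627895237065789209067200)), (.ofNat (nat_lit 766915072)), (.ofNat (nat_lit 6143520384089022999491678476800)), (.negSucc (nat_lit 1092101199)), (.negSucc (nat_lit 1092101167)), (.negSucc (nat_lit 7988846200823230346324)), (.ofNat (nat_lit 7988846200823230346325)), (.negSucc (nat_lit 7988846200823230346324)), (.ofNat (nat_lit 7988846200823230346325)), (.ofNat (nat_lit 0))⟩,
    ⟨nat_lit 1, nat_lit 3, nat_lit 4, (.ofNat (nat_lit 8)), (.ofNat (nat_lit 1064221952)), (.ofNat (nat_lit 51821095520676070907827099142400)), (.ofNat (nat_lit 767963648)), (.ofNat (nat_lit 6151897296482897419075306560000)), (.ofNat (nat_lit 1064221936)), (.ofNat (nat_lit 1064221968)), (.ofNat (nat_lit 7988846200823230346325)), (.negSucc (nat_lit 7988846200823230346324)), (.negSucc (nat_lit 7988846200823230346324)), (.ofNat (nat_lit 7988846200823230346325)), (.ofNat (nat_lit 0))⟩,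
    ⟨nat_lit 0, nat_lit 5, nat_lit 4, (.ofNat (nat_lit 8)), (.negSucc (nat_lit 2194237823)), (.ofNat (nat_lit 77852429522708985077709661065600)), (.ofNat (nat_lit 766652928)), (.ofNat (nat_lit 6162368436975240443554841664000)), (.negSucc (nat_lit 2194237839)), (.negSucc (nat_lit 2194237807)), (.ofNat (nat_lit 7988846200823230346325)), (.negSucc (nat_lit 7988846200823230346324)), (.negSucc (nat_lit 7988846200823230346324)), (.ofNat (nat_lit 7988846200823230346325)), (.ofNat (nat_lit 0))⟩,
    ⟨nat_lit 2, nat_lit 6, nat_lit 5, (.ofNat (nat_lit 8)), (.negSucc (nat_lit 5834472319)), (.ofNat (nat_lit 48771155999233718372863369238400)), (.negSucc (nat_lit 1835007)), (.ofNat (nat_lit 23036509083154653854977228800)), (.negSucc (nat_lit 5834472335)), (.negSucc (nat_lit 5834472303)), (.negSucc (nat_lit 7988846200823230346324)), (.ofNat (nat_lit 7988846200823230346325)), (.negSucc (nat_lit 7988846200823230346324)), (.ofNat (nat_lit 7988846200823230346325)), (.ofNat (nat_lit 0))⟩,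
    ⟨nat_lit 0, nat_lit 7, nat_lit 8, (.ofNat (nat_lit 8)), (.negSucc (nat_lit 1479035327)), (.ofNat (nat_lit 47832249018377247988961390616000)), (.ofNat (nat_lit 766915072)), (.ofNat (nat_lit 6147708840285960209283492518400)), (.negSucc (nat_lit 1479035343)), (.negSucc (nat_lit 1479035311)), (.ofNat (nat_lit 7988846200823230346325)), (.negSucc (nat_lit 7988846200823230346324)), (.negSucc (nat_lit 7988846200823230346324)), (.ofNat (nat_lit 7988846200823230346325)), (.ofNat (nat_lit 0))⟩,
    ⟨nat_lit 0, nat_lit 8, nat_lit 9, (.ofNat (nat_lit 8)), (.ofNat (nat_lit 2235559552)), (.ofNat (nat_lit 18156921823691824759441918800000)), (.ofNat (nat_lit 768225792)), (.ofNat (nat_lit 6137237699793617184803957414400)), (.ofNat (nat_lit 2235559536)), (.ofNat (nat_lit 2235559568)), (.negSucc (nat_lit 7988846200823230346324)), (.ofNat (nat_lit 7988846200823230346325)), (.negSucc (nat_lit 7988846200823230346324)), (.ofNat (nat_lit 7988846200823230346325)), (.ofNat (nat_lit 0))⟩,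
    ⟨nat_lit 1, nat_lit 9, nat_lit 10, (.ofNat (nat_lit 8)), (.ofNat (nat_lit 3725185280)), (.ofNat (nat_lit 30057312661473163463397989049600)), (.ofNat (nat_lit 768750080)), (.ofNat (nat_lit 6141426155990554394595771456000)), (.ofNat (nat_lit 3725185264)), (.ofNat (nat_lit 3725185296)), (.ofNat (nat_lit 7988846200823230346325)), (.negSucc (nat_lit 7988846200823230346324)), (.negSucc (nat_lit 7988846200823230346324)), (.ofNat (nat_lit 7988846200823230346325)), (.ofNat (nat_lit 0))⟩,
    ⟨nat_lit 0, nat_lit 18, nat_lit 10, (.ofNat (nat_lit 8)), (.ofNat (nat_lit 2852348800)), (.ofNat (nat_lit 37030269058661084941113482985600)), (.ofNat (nat_lit 768225792)), (.ofNat (nat_lit 6145614612187491604387585497600)), (.ofNat (nat_lit 2852348784)), (.ofNat (nat_lit 2852348816)), (.ofNat (nat_lit 7988846200823230346325)), (.negSucc (nat_lit 7988846200823230346324)), (.negSucc (nat_lit 7988846200823230346324)), (.ofNat (nat_lit 7988846200823230346325)), (.ofNat (nat_lit 0))⟩,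
    ⟨nat_lit 1, nat_lit 11, nat_lit 17, (.ofNat (nat_lit 8)), (.negSucc (nat_lit 3179499199)), (.ofNat (nat_lit 50998213684821867020951094254400)), (.ofNat (nat_lit 766128640)), (.ofNat (nat_lit 6145614612187491604387585497600)), (.negSucc (nat_lit 3179499215)), (.negSucc (nat_lit 3179499183)), (.ofNat (nat_lit 7988846200823230346325)), (.negSucc (nat_lit 7988846200823230346324)), (.negSucc (nat_lit 7988846200823230346324)), (.ofNat (nat_lit 7988846200823230346325)), (.ofNat (nat_lit 0))⟩,
    ⟨nat_lit 0, nat_lit 6, nat_lit 11, (.ofNat (nat_lit 8)), (.negSucc (nat_lit 4646371199)), (.ofNat (nat_lit 39279598880527893476376648854400)), (.negSucc (nat_lit 1048575)), (.ofNat (nat_lit 16753824787748839167256166400)), (.negSucc (nat_lit 4646371215)), (.negSucc (nat_lit 4646371183)), (.negSucc (nat_lit 7988846200823230346324)), (.ofNat (nat_lit 7988846200823230346325)), (.negSucc (nat_lit 7988846200823230346324)), (.ofNat (nat_lit 7988846200823230346325)), (.ofNat (nat_lit 0))⟩,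
    ⟨nat_lit 0, nat_lit 19, nat_lit 12, (.ofNat (nat_lit 8)), (.negSucc (nat_lit 146066367)), (.ofNat (nat_lit 1677892382518873755942903643200)), (.negSucc (nat_lit 262143)), (.ofNat (nat_lit 2094228098468604895907020800)), (.negSucc (nat_lit 146066383)), (.negSucc (nat_lit 146066351)), (.negSucc (nat_lit 7988846200823230346324)), (.ofNat (nat_lit 7988846200823230346325)), (.negSucc (nat_lit 7988846200823230346324)), (.ofNat (nat_lit 7988846200823230346325)), (.ofNat (nat_lit 0))⟩,
    ⟨nat_lit 1, nat_lit 12, nat_lit 13, (.ofNat (nat_lit 8)), (.ofNat (nat_lit 3416950400)), (.ofNat (nat_lit 30142285353025138883825325820800)), (.ofNat (nat_lit 768225792)), (.ofNat (nat_lit 6141426155990554394595771456000)), (.ofNat (nat_lit 3416950384)), (.ofNat (nat_lit 3416950416)), (.ofNat (nat_lit 7988846200823230346325)), (.negSucc (nat_lit 7988846200823230346324)), (.negSucc (nat_lit 7988846200823230346324)), (.ofNat (nat_lit 7988846200823230346325)), (.ofNat (nat_lit 0))⟩,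
    ⟨nat_lit 0, nat_lit 14, nat_lit 13, (.ofNat (nat_lit 8)), (.ofNat (nat_lit 1812722496)), (.ofNat (nat_lit 42958215349150152776819474673600)), (.ofNat (nat_lit 767701504)), (.ofNat (nat_lit 6145614612187491604387585497600)), (.ofNat (nat_lit 1812722480)), (.ofNat (nat_lit 1812722512)), (.ofNat (nat_lit 7988846200823230346325)), (.negSucc (nat_lit 7988846200823230346324)), (.negSucc (nat_lit 7988846200823230346324)), (.ofNat (nat_lit 7988846200823230346325)), (.ofNat (nat_lit 0))⟩,
    ⟨nat_lit 0, nat_lit 15, nat_lit 14, (.ofNat (nat_lit 8)), (.negSucc (nat_lit 829582783)), (.ofNat (nat_lit 21849244851606990886068698577600)), (.ofNat (nat_lit 766652928)), (.ofNat (nat_lit 6137237699793617184803957414400)), (.negSucc (nat_lit 829582799)), (.negSucc (nat_lit 829582767)), (.negSucc (nat_lit 7988846200823230346324)), (.ofNat (nat_lit 7988846200823230346325)), (.negSucc (nat_lit 7988846200823230346324)), (.ofNat (nat_lit 7988846200823230346325)), (.ofNat (nat_lit 0))⟩,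
    ⟨nat_lit 2, nat_lit 15, nat_lit 16, (.ofNat (nat_lit 8)), (.negSucc (nat_lit 4935696767)), (.ofNat (nat_lit 54652357952832529323166944086400)), (.ofNat (nat_lit 765604352)), (.ofNat (nat_lit 6145614612187491604387585497600)), (.negSucc (nat_lit 4935696783)), (.negSucc (nat_lit 4935696751)), (.negSucc (nat_lit 7988846200823230346324)), (.ofNat (nat_lit 7988846200823230346325)), (.negSucc (nat_lit 7988846200823230346324)), (.ofNat (nat_lit 7988846200823230346325)), (.ofNat (nat_lit 0))⟩,
    ⟨nat_lit 0, nat_lit 16, nat_lit 17, (.ofNat (nat_lit 8)), (.negSucc (nat_lit 4286300863)), (.ofNat (nat_lit 59840281953333096538118900539200)), (.ofNat (nat_lit 765866496)), (.ofNat (nat_lit 6147708840285960209283492518400)), (.negSucc (nat_lit 4286300879)), (.negSucc (nat_lit 4286300847)), (.ofNat (nat_lit 7988846200823230346325)), (.negSucc (nat_lit 7988846200823230346324)), (.negSucc (nat_lit 7988846200823230346324)), (.ofNat (nat_lit 7988846200823230346325)), (.ofNat (nat_lit 0))⟩,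
    ⟨nat_lit 2, nat_lit 19, nat_lit 7, (.ofNat (nat_lit 8)), (.negSucc (nat_lit 3701225599)), (.ofNat (nat_lit 30079512706403707121742784665600)), (.negSucc (nat_lit 1310719)), (.ofNat (nat_lit 10471140492343024479535104000)), (.negSucc (nat_lit 3701225615)), (.negSucc (nat_lit 3701225583)), (.negSucc (nat_lit 7988846200823230346324)), (.ofNat (nat_lit 7988846200823230346325)), (.negSucc (nat_lit 7988846200823230346324)), (.ofNat (nat_lit 7988846200823230346325)), (.ofNat (nat_lit 0))⟩]
  es := [
    ⟨nat_lit 1, nat_lit 0, (.negSucc (nat_lit 5871367871)), (.negSucc (nat_lit 833777087)), (.negSucc (nat_lit 5871367855)), (.negSucc (nat_lit 833777103)), (.negSucc (nat_lit 7988846200823230346324)), (.ofNat (nat_lit 0)), (.ofNat (nat_lit 4188456196937209791814041600))⟩,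
    ⟨nat_lit 1, nat_lit 2, (.negSucc (nat_lit 5871367871)), (.negSucc (nat_lit 4309911231)), (.negSucc (nat_lit 5871367855)), (.negSucc (nat_lit 4309911247)), (.ofNat (nat_lit 7988846200823230346325)), (.ofNat (nat_lit 0)), (.ofNat (nat_lit 33507649575497678334512332800))⟩,
    ⟨nat_lit 2, nat_lit 3, (.negSucc (nat_lit 4309911231)), (.negSucc (nat_lit 1092101183)), (.negSucc (nat_lit 4309911215)), (.negSucc (nat_lit 1092101199)), (.negSucc (nat_lit 7988846200823230346324)), (.ofNat (nat_lit 0)), (.ofNat (nat_lit 12270286943390297159816100787200))⟩,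
    ⟨nat_lit 3, nat_lit 4, (.negSucc (nat_lit 1092101183)), (.ofNat (nat_lit 1064221952)), (.negSucc (nat_lit 1092101167)), (.ofNat (nat_lit 1064221936)), (.ofNat (nat_lit 7988846200823230346325)), (.ofNat (nat_lit 0)), (.ofNat (nat_lit 16753824787748839167256166400))⟩,
    ⟨nat_lit 5, nat_lit 4, (.negSucc (nat_lit 2194237823)), (.ofNat (nat_lit 1064221952)), (.negSucc (nat_lit 2194237807)), (.ofNat (nat_lit 1064221936)), (.negSucc (nat_lit 7988846200823230346324)), (.ofNat (nat_lit 0)), (.ofNat (nat_lit 12287040768178045998983356953600))⟩,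
    ⟨nat_lit 6, nat_lit 5, (.negSucc (nat_lit 5834472319)), (.negSucc (nat_lit 2194237823)), (.negSucc (nat_lit 5834472303)), (.negSucc (nat_lit 2194237839)), (.ofNat (nat_lit 7988846200823230346325)), (.ofNat (nat_lit 0)), (.ofNat (nat_lit 37696105772434888126326374400))⟩,
    ⟨nat_lit 6, nat_lit 12, (.negSucc (nat_lit 5834472319)), (.negSucc (nat_lit 4646371199)), (.negSucc (nat_lit 5834472303)), (.negSucc (nat_lit 4646371215)), (.negSucc (nat_lit 7988846200823230346324)), (.ofNat (nat_lit 0)), (.ofNat (nat_lit 8376912393874419583628083200))⟩,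
    ⟨nat_lit 19, nat_lit 7, (.negSucc (nat_lit 3701225599)), (.negSucc (nat_lit 1479035327)), (.negSucc (nat_lit 3701225583)), (.negSucc (nat_lit 1479035343)), (.ofNat (nat_lit 7988846200823230346325)), (.ofNat (nat_lit 0)), (.ofNat (nat_lit 20942280984686048959070208000))⟩,
    ⟨nat_lit 7, nat_lit 8, (.negSucc (nat_lit 1479035327)), (.ofNat (nat_lit 2235559552)), (.negSucc (nat_lit 1479035311)), (.ofNat (nat_lit 2235559536)), (.negSucc (nat_lit 7988846200823230346324)), (.ofNat (nat_lit 0)), (.ofNat (nat_lit 12274475399587234369607914828800))⟩,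
    ⟨nat_lit 8, nat_lit 9, (.ofNat (nat_lit 2235559552)), (.ofNat (nat_lit 3725185280)), (.ofNat (nat_lit 2235559568)), (.ofNat (nat_lit 3725185264)), (.ofNat (nat_lit 7988846200823230346325)), (.ofNat (nat_lit 0)), (.ofNat (nat_lit 0))⟩,
    ⟨nat_lit 10, nat_lit 9, (.ofNat (nat_lit 2852348800)), (.ofNat (nat_lit 3725185280)), (.ofNat (nat_lit 2852348816)), (.ofNat (nat_lit 3725185264)), (.negSucc (nat_lit 7988846200823230346324)), (.ofNat (nat_lit 0)), (.ofNat (nat_lit 12282852311981108789191542912000))⟩,
    ⟨nat_lit 12, nat_lit 11, (.negSucc (nat_lit 4646371199)), (.negSucc (nat_lit 3179499199)), (.negSucc (nat_lit 4646371183)), (.negSucc (nat_lit 3179499215)), (.ofNat (nat_lit 7988846200823230346325)), (.ofNat (nat_lit 0)), (.ofNat (nat_lit 25130737181623258750884249600))⟩,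
    ⟨nat_lit 13, nat_lit 14, (.negSucc (nat_lit 146066367)), (.ofNat (nat_lit 3416950400)), (.negSucc (nat_lit 146066351)), (.ofNat (nat_lit 3416950384)), (.ofNat (nat_lit 7988846200823230346325)), (.ofNat (nat_lit 0)), (.ofNat (nat_lit 4188456196937209791814041600))⟩,
    ⟨nat_lit 15, nat_lit 14, (.ofNat (nat_lit 1812722496)), (.ofNat (nat_lit 3416950400)), (.ofNat (nat_lit 1812722512)), (.ofNat (nat_lit 3416950384)), (.negSucc (nat_lit 7988846200823230346324)), (.ofNat (nat_lit 0)), (.ofNat (nat_lit 12278663855784171579399728870400))⟩,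
    ⟨nat_lit 16, nat_lit 15, (.negSucc (nat_lit 829582783)), (.ofNat (nat_lit 1812722496)), (.negSucc (nat_lit 829582767)), (.ofNat (nat_lit 1812722480)), (.ofNat (nat_lit 7988846200823230346325)), (.ofNat (nat_lit 0)), (.ofNat (nat_lit 12565368590811629375442124800))⟩,
    ⟨nat_lit 17, nat_lit 16, (.negSucc (nat_lit 4935696767)), (.negSucc (nat_lit 829582783)), (.negSucc (nat_lit 4935696751)), (.negSucc (nat_lit 829582799)), (.negSucc (nat_lit 7988846200823230346324)), (.ofNat (nat_lit 0)), (.ofNat (nat_lit 12261910030996422740232472704000))⟩,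
    ⟨nat_lit 17, nat_lit 18, (.negSucc (nat_lit 4935696767)), (.negSucc (nat_lit 4286300863)), (.negSucc (nat_lit 4935696751)), (.negSucc (nat_lit 4286300879)), (.ofNat (nat_lit 7988846200823230346325)), (.ofNat (nat_lit 0)), (.ofNat (nat_lit 29319193378560468542698291200))⟩,
    ⟨nat_lit 18, nat_lit 11, (.negSucc (nat_lit 4286300863)), (.negSucc (nat_lit 3179499199)), (.negSucc (nat_lit 4286300847)), (.negSucc (nat_lit 3179499215)), (.negSucc (nat_lit 7988846200823230346324)), (.ofNat (nat_lit 0)), (.ofNat (nat_lit 12266098487193359950024286745600))⟩,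
    ⟨nat_lit 0, nat_lit 10, (.negSucc (nat_lit 833777087)), (.ofNat (nat_lit 2852348800)), (.negSucc (nat_lit 833777071)), (.ofNat (nat_lit 2852348784)), (.ofNat (nat_lit 7988846200823230346325)), (.ofNat (nat_lit 0)), (.ofNat (nat_lit 8376912393874419583628083200))⟩,
    ⟨nat_lit 19, nat_lit 13, (.negSucc (nat_lit 3701225599)), (.negSucc (nat_lit 146066367)), (.negSucc (nat_lit 3701225583)), (.negSucc (nat_lit 146066383)), (.negSucc (nat_lit 7988846200823230346324)), (.ofNat (nat_lit 0)), (.ofNat (nat_lit 0))⟩]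

theorem ok104 : stOK 19 19 S104 = true := by decide +kernel

def S105 : SD where
  vs := [
    ⟨nat_lit 0, nat_lit 0, nat_lit 18, (.ofNat (nat_lit 8)), (.negSucc (nat_lit 833777087)), (.ofNat (nat_lit 7700846776632443262135137113728)), (.ofNat (nat_lit 0)), (.ofNat (nat_lit 118470514076314612397442289728)), (.negSucc (nat_lit 833777103)), (.negSucc (nat_lit 833777071)), (.negSucc (nat_lit 8113672739575007310398)), (.ofNat (nat_lit 8113673039321469520090)), (.negSucc (nat_lit 8113672739575007310398)), (.ofNat (nat_lit 8113673039321469520090)), (.ofNat (nat_lit 748959832003586203826))⟩,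
    ⟨nat_lit 2, nat_lit 0, nat_lit 1, (.ofNat (nat_lit 8)), (.negSucc (nat_lit 5871367871)), (.ofNat (nat_lit 48574209793907532165733766876544)), (.ofNat (nat_lit 0)), (.ofNat (nat_lit 747295535290885110240123783744)), (.negSucc (nat_lit 5871367887)), (.negSucc (nat_lit 5871367855)), (.negSucc (nat_lit 8113672739575007310398)), (.ofNat (nat_lit 8113671922711093320486)), (.negSucc (nat_lit 8113672739575007310398)), (.ofNat (nat_lit 8113671922711093320486)), (.ofNat (nat_lit 748957598782833804618))⟩,
    ⟨nat_lit 0, nat_lit 1, nat_lit 2, (.ofNat (nat_lit 8)), (.negSucc (nat_lit 4309911231)), (.ofNat (nat_lit 61243356692406335632666279603584)), (.ofNat (nat_lit 0)), (.ofNat (nat_lit 942205487575482086653965662784)), (.negSucc (nat_lit 4309911247)), (.negSucc (nat_lit 4309911215)), (.ofNat (nat_lit 8113671922711093320486)), (.negSucc (nat_lit 8113671922711093320485)), (.negSucc (nat_lit 8113671922711093320485)), (.ofNat (nat_lit 8113671922711093320486)), (.ofNat (nat_lit 748954331327177844966))⟩,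
    ⟨nat_lit 0, nat_lit 2, nat_lit 3, (.ofNat (nat_lit 8)), (.negSucc (nat_lit 1092101183)), (.ofNat (nat_lit 35135101653331100144940744560256)), (.ofNat (nat_lit 0)), (.ofNat (nat_lit 540540025435863079151535493056)), (.negSucc (nat_lit 1092101199)), (.negSucc (nat_lit 1092101167)), (.negSucc (nat_lit 8113671922711093320485)), (.ofNat (nat_lit 8113671922711093320486)), (.negSucc (nat_lit 8113671922711093320485)), (.ofNat (nat_lit 8113671922711093320486)), (.ofNat (nat_lit 748954331327177844966))⟩,
    ⟨nat_lit 1, nat_lit 3, nat_lit 4, (.ofNat (nat_lit 8)), (.ofNat (nat_lit 1064221952)), (.ofNat (nat_lit 52630800138186634515759769124352)), (.ofNat (nat_lit 0)), (.ofNat (nat_lit 809704617510563607932669981952)), (.ofNat (nat_lit 1064221936)), (.ofNat (nat_lit 1064221968)), (.ofNat (nat_lit 8113671922711093320486)), (.negSucc (nat_lit 8113671922711093320485)), (.negSucc (nat_lit 8113671922711093320485)), (.ofNat (nat_lit 8113671922711093320486)), (.ofNat (nat_lit 748954331327177844966))⟩,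
    ⟨nat_lit 0, nat_lit 5, nat_lit 4, (.ofNat (nat_lit 8)), (.negSucc (nat_lit 2194237823)), (.ofNat (nat_lit 79068873734001312969545676895488)), (.ofNat (nat_lit 0)), (.ofNat (nat_lit 1216444211292327891836015829888)), (.negSucc (nat_lit 2194237839)), (.negSucc (nat_lit 2194237807)), (.ofNat (nat_lit 8113671922711093320486)), (.negSucc (nat_lit 8113671922711093320485)), (.negSucc (nat_lit 8113671922711093320485)), (.ofNat (nat_lit 8113671922711093320486)), (.ofNat (nat_lit 748954331327177844966))⟩,
    ⟨nat_lit 2, nat_lit 6, nat_lit 5, (.ofNat (nat_lit 8)), (.negSucc (nat_lit 5834472319)), (.ofNat (nat_lit 49533205311721745222437356210432)), (.ofNat (nat_lit 0)), (.ofNat (nat_lit 762049312488026849573986972032)), (.negSucc (nat_lit 5834472335)), (.negSucc (nat_lit 5834472303)), (.negSucc (nat_lit 8113671922711093320485)), (.ofNat (nat_lit 8113671922711093320486)), (.negSucc (nat_lit 8113671922711093320485)), (.ofNat (nat_lit 8113671922711093320486)), (.ofNat (nat_lit 748954331327177844966))⟩,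
    ⟨nat_lit 0, nat_lit 7, nat_lit 8, (.ofNat (nat_lit 8)), (.negSucc (nat_lit 1479035327)), (.ofNat (nat_lit 48579627909289392488786947735680)), (.ofNat (nat_lit 0)), (.ofNat (nat_lit 747378890912144499825557119680)), (.negSucc (nat_lit 1479035343)), (.negSucc (nat_lit 1479035311)), (.ofNat (nat_lit 8113671922711093320486)), (.negSucc (nat_lit 8113671922711093320485)), (.negSucc (nat_lit 8113671922711093320485)), (.ofNat (nat_lit 8113671922711093320486)), (.ofNat (nat_lit 748954331327177844966))⟩,
    ⟨nat_lit 0, nat_lit 8, nat_lit 9, (.ofNat (nat_lit 8)), (.ofNat (nat_lit 2235559552)), (.ofNat (nat_lit 18440623727187009521307453024000)), (.ofNat (nat_lit 0)), (.ofNat (nat_lit 283701903495184761865534224000)), (.ofNat (nat_lit 2235559536)), (.ofNat (nat_lit 2235559568)), (.negSucc (nat_lit 8113671922711093320485)), (.ofNat (nat_lit 8113671922711093320486)), (.negSucc (nat_lit 8113671922711093320485)), (.ofNat (nat_lit 8113671922711093320486)), (.ofNat (nat_lit 748954331327177844966))⟩,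
    ⟨nat_lit 1, nat_lit 9, nat_lit 10, (.ofNat (nat_lit 8)), (.ofNat (nat_lit 3725185280)), (.ofNat (nat_lit 30526958171808681642512348087808)), (.ofNat (nat_lit 0)), (.ofNat (nat_lit 469645510335518179114359038208)), (.ofNat (nat_lit 3725185264)), (.ofNat (nat_lit 3725185296)), (.ofNat (nat_lit 8113671922711093320486)), (.negSucc (nat_lit 8113671923788373707557)), (.negSucc (nat_lit 8113671923788373707557)), (.ofNat (nat_lit 8113671922711093320486)), (.ofNat (nat_lit 748954333481738619110))⟩,
    ⟨nat_lit 0, nat_lit 18, nat_lit 10, (.ofNat (nat_lit 8)), (.ofNat (nat_lit 2852348800)), (.ofNat (nat_lit 37608867013642954014341822203648)), (.ofNat (nat_lit 0)), (.ofNat (nat_lit 578597954981869073228339218048)), (.ofNat (nat_lit 2852348784)), (.ofNat (nat_lit 2852348816)), (.ofNat (nat_lit 8113673039321469520090)), (.negSucc (nat_lit 8113671923788373707557)), (.negSucc (nat_lit 8113671923788373707557)), (.ofNat (nat_lit 8113673039321469520090)), (.ofNat (nat_lit 748958799923243417526))⟩,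
    ⟨nat_lit 1, nat_lit 11, nat_lit 17, (.ofNat (nat_lit 8)), (.negSucc (nat_lit 3179499199)), (.ofNat (nat_lit 51795060773647208693151360458112)), (.ofNat (nat_lit 0)), (.ofNat (nat_lit 796847088825341672200266203712)), (.negSucc (nat_lit 3179499215)), (.negSucc (nat_lit 3179499183)), (.ofNat (nat_lit 8113671922711093320486)), (.negSucc (nat_lit 8113671922711093320485)), (.negSucc (nat_lit 8113671922711093320485)), (.ofNat (nat_lit 8113671922711093320486)), (.ofNat (nat_lit 748954331327177844966))⟩,
    ⟨nat_lit 0, nat_lit 6, nat_lit 11, (.ofNat (nat_lit 8)), (.negSucc (nat_lit 4646371199)), (.ofNat (nat_lit 39893342613036141811943420666112)), (.ofNat (nat_lit 0)), (.ofNat (nat_lit 613743732508248335566771811712)), (.negSucc (nat_lit 4646371215)), (.negSucc (nat_lit 4646371183)), (.negSucc (nat_lit 8113671922711093320485)), (.ofNat (nat_lit 8113671922711093320486)), (.negSucc (nat_lit 8113671922711093320485)), (.ofNat (nat_lit 8113671922711093320486)), (.ofNat (nat_lit 748954331327177844966))⟩,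
    ⟨nat_lit 0, nat_lit 19, nat_lit 12, (.ofNat (nat_lit 8)), (.negSucc (nat_lit 146066367)), (.ofNat (nat_lit 1704109450995731158379442596736)), (.ofNat (nat_lit 0)), (.ofNat (nat_lit 26217068476857402436538953536)), (.negSucc (nat_lit 146066383)), (.negSucc (nat_lit 146066351)), (.negSucc (nat_lit 8113671922711093320485)), (.ofNat (nat_lit 8113671922711093320486)), (.negSucc (nat_lit 8113671922711093320485)), (.ofNat (nat_lit 8113671922711093320486)), (.ofNat (nat_lit 748954331327177844966))⟩,
    ⟨nat_lit 1, nat_lit 12, nat_lit 13, (.ofNat (nat_lit 8)), (.ofNat (nat_lit 3416950400)), (.ofNat (nat_lit 30613258561666156678883858505984)), (.ofNat (nat_lit 0)), (.ofNat (nat_lit 470973208641017795058532685184)), (.ofNat (nat_lit 3416950384)), (.ofNat (nat_lit 3416950416)), (.ofNat (nat_lit 8113671922711093320486)), (.negSucc (nat_lit 8113671922711093320485)), (.negSucc (nat_lit 8113671922711093320485)), (.ofNat (nat_lit 8113671922711093320486)), (.ofNat (nat_lit 748954331327177844966))⟩,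
    ⟨nat_lit 0, nat_lit 14, nat_lit 13, (.ofNat (nat_lit 8)), (.ofNat (nat_lit 1812722496)), (.ofNat (nat_lit 43629437463980623913955514547328)), (.ofNat (nat_lit 0)), (.ofNat (nat_lit 671222114830471137136039873728)), (.ofNat (nat_lit 1812722480)), (.ofNat (nat_lit 1812722512)), (.ofNat (nat_lit 8113671922711093320486)), (.negSucc (nat_lit 8113671922711093320485)), (.negSucc (nat_lit 8113671922711093320485)), (.ofNat (nat_lit 8113671922711093320486)), (.ofNat (nat_lit 748954331327177844966))⟩,
    ⟨nat_lit 0, nat_lit 15, nat_lit 14, (.ofNat (nat_lit 8)), (.negSucc (nat_lit 829582783)), (.ofNat (nat_lit 22190639302413350118662624581248)), (.ofNat (nat_lit 0)), (.ofNat (nat_lit 341394450806359232593926003648)), (.negSucc (nat_lit 829582799)), (.negSucc (nat_lit 829582767)), (.negSucc (nat_lit 8113671922711093320485)), (.ofNat (nat_lit 8113671922711093320486)), (.negSucc (nat_lit 8113671922711093320485)), (.ofNat (nat_lit 8113671922711093320486)), (.ofNat (nat_lit 748954331327177844966))⟩,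
    ⟨nat_lit 2, nat_lit 15, nat_lit 16, (.ofNat (nat_lit 8)), (.negSucc (nat_lit 4935696767)), (.ofNat (nat_lit 55506301045845537593839182857472)), (.ofNat (nat_lit 0)), (.ofNat (nat_lit 853943093013008270672238771072)), (.negSucc (nat_lit 4935696783)), (.negSucc (nat_lit 4935696751)), (.negSucc (nat_lit 8113671922711093320485)), (.ofNat (nat_lit 8113671922711093320486)), (.negSucc (nat_lit 8113671922711093320485)), (.ofNat (nat_lit 8113671922711093320486)), (.ofNat (nat_lit 748954331327177844966))⟩,
    ⟨nat_lit 0, nat_lit 16, nat_lit 17, (.ofNat (nat_lit 8)), (.negSucc (nat_lit 4286300863)), (.ofNat (nat_lit 60775286358853926171524550546816)), (.ofNat (nat_lit 0)), (.ofNat (nat_lit 935004405520829633405650007616)), (.negSucc (nat_lit 4286300879)), (.negSucc (nat_lit 4286300847)), (.ofNat (nat_lit 8113671922711093320486)), (.negSucc (nat_lit 8113671922711093320485)), (.negSucc (nat_lit 8113671922711093320485)), (.ofNat (nat_lit 8113671922711093320486)), (.ofNat (nat_lit 748954331327177844966))⟩,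
    ⟨nat_lit 2, nat_lit 19, nat_lit 7, (.ofNat (nat_lit 8)), (.negSucc (nat_lit 3701225599)), (.ofNat (nat_lit 30549505092441265045518780223488)), (.ofNat (nat_lit 0)), (.ofNat (nat_lit 469992386037557923775995557888)), (.negSucc (nat_lit 3701225615)), (.negSucc (nat_lit 3701225583)), (.negSucc (nat_lit 8113671922711093320485)), (.ofNat (nat_lit 8113671922711093320486)), (.negSucc (nat_lit 8113671922711093320485)), (.ofNat (nat_lit 8113671922711093320486)), (.ofNat (nat_lit 748954331327177844966))⟩]
  es := [
    ⟨nat_lit 1, nat_lit 0, (.negSucc (nat_lit 5871367871)), (.negSucc (nat_lit 833777087)), (.negSucc (nat_lit 5871367855)), (.negSucc (nat_lit 833777103)), (.negSucc (nat_lit 8113672739575007310398)), (.negSucc (nat_lit 124826538751776964073)), (.ofNat (nat_lit 14393006090738860466341953216))⟩,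
    ⟨nat_lit 1, nat_lit 2, (.negSucc (nat_lit 5871367871)), (.negSucc (nat_lit 4309911231)), (.negSucc (nat_lit 5871367855)), (.negSucc (nat_lit 4309911247)), (.ofNat (nat_lit 8113671922711093320486)), (.ofNat (nat_lit 124825721887862974161)), (.ofNat (nat_lit 1480193268382490963467385339136))⟩,
    ⟨nat_lit 2, nat_lit 3, (.negSucc (nat_lit 4309911231)), (.negSucc (nat_lit 1092101183)), (.negSucc (nat_lit 4309911215)), (.negSucc (nat_lit 1092101199)), (.negSucc (nat_lit 8113671922711093320485)), (.negSucc (nat_lit 124825721887862974160)), (.ofNat (nat_lit 404217706768473209840545986432))⟩,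
    ⟨nat_lit 3, nat_lit 4, (.negSucc (nat_lit 1092101183)), (.ofNat (nat_lit 1064221952)), (.negSucc (nat_lit 1092101167)), (.ofNat (nat_lit 1064221936)), (.ofNat (nat_lit 8113671922711093320486)), (.ofNat (nat_lit 124825721887862974161)), (.ofNat (nat_lit 676862344103252948462524999680))⟩,
    ⟨nat_lit 5, nat_lit 4, (.negSucc (nat_lit 2194237823)), (.ofNat (nat_lit 1064221952)), (.negSucc (nat_lit 2194237807)), (.ofNat (nat_lit 1064221936)), (.negSucc (nat_lit 8113671922711093320485)), (.negSucc (nat_lit 124825721887862974160)), (.ofNat (nat_lit 942546890917874267402814964224))⟩,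
    ⟨nat_lit 6, nat_lit 5, (.negSucc (nat_lit 5834472319)), (.negSucc (nat_lit 2194237823)), (.negSucc (nat_lit 5834472303)), (.negSucc (nat_lit 2194237839)), (.ofNat (nat_lit 8113671922711093320486)), (.ofNat (nat_lit 124825721887862974161)), (.ofNat (nat_lit 1490341531666781516269216695552))⟩,
    ⟨nat_lit 6, nat_lit 12, (.negSucc (nat_lit 5834472319)), (.negSucc (nat_lit 4646371199)), (.negSucc (nat_lit 5834472303)), (.negSucc (nat_lit 4646371215)), (.negSucc (nat_lit 8113671922711093320485)), (.negSucc (nat_lit 124825721887862974160)), (.ofNat (nat_lit 33757093309272182878757248512))⟩,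
    ⟨nat_lit 19, nat_lit 7, (.negSucc (nat_lit 3701225599)), (.negSucc (nat_lit 1479035327)), (.negSucc (nat_lit 3701225583)), (.negSucc (nat_lit 1479035343)), (.ofNat (nat_lit 8113671922711093320486)), (.ofNat (nat_lit 124825721887862974161)), (.ofNat (nat_lit 932000543427396693032827279488))⟩,
    ⟨nat_lit 7, nat_lit 8, (.negSucc (nat_lit 1479035327)), (.ofNat (nat_lit 2235559552)), (.negSucc (nat_lit 1479035311)), (.ofNat (nat_lit 2235559536)), (.negSucc (nat_lit 8113671922711093320485)), (.negSucc (nat_lit 124825721887862974160)), (.ofNat (nat_lit 562757238396892306618286959872))⟩,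
    ⟨nat_lit 8, nat_lit 9, (.ofNat (nat_lit 2235559552)), (.ofNat (nat_lit 3725185280)), (.ofNat (nat_lit 2235559568)), (.ofNat (nat_lit 3725185264)), (.ofNat (nat_lit 8113671922711093320486)), (.ofNat (nat_lit 124825721887862974161)), (.ofNat (nat_lit 4646568593477217112781488128))⟩,
    ⟨nat_lit 10, nat_lit 9, (.ofNat (nat_lit 2852348800)), (.ofNat (nat_lit 3725185280)), (.ofNat (nat_lit 2852348816)), (.ofNat (nat_lit 3725185264)), (.negSucc (nat_lit 8113671923788373707557)), (.negSucc (nat_lit 124825722965143361232)), (.ofNat (nat_lit 934644456090628181469253288448))⟩,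
    ⟨nat_lit 12, nat_lit 11, (.negSucc (nat_lit 4646371199)), (.negSucc (nat_lit 3179499199)), (.negSucc (nat_lit 4646371183)), (.negSucc (nat_lit 3179499215)), (.ofNat (nat_lit 8113671922711093320486)), (.ofNat (nat_lit 124825721887862974161)), (.ofNat (nat_lit 1193730371707224488254786374912))⟩,
    ⟨nat_lit 13, nat_lit 14, (.negSucc (nat_lit 146066367)), (.ofNat (nat_lit 3416950400)), (.negSucc (nat_lit 146066351)), (.ofNat (nat_lit 3416950384)), (.ofNat (nat_lit 8113671922711093320486)), (.ofNat (nat_lit 124825721887862974161)), (.ofNat (nat_lit 44449908305995650353914070784))⟩,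
    ⟨nat_lit 15, nat_lit 14, (.ofNat (nat_lit 1812722496)), (.ofNat (nat_lit 3416950400)), (.ofNat (nat_lit 1812722512)), (.ofNat (nat_lit 3416950384)), (.negSucc (nat_lit 8113671922711093320485)), (.negSucc (nat_lit 124825721887862974160)), (.ofNat (nat_lit 897496508976039939763151299584))⟩,
    ⟨nat_lit 16, nat_lit 15, (.negSucc (nat_lit 829582783)), (.ofNat (nat_lit 1812722496)), (.negSucc (nat_lit 829582767)), (.ofNat (nat_lit 1812722480)), (.ofNat (nat_lit 8113671922711093320486)), (.ofNat (nat_lit 124825721887862974161)), (.ofNat (nat_lit 444947720684902334508928447872))⟩,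
    ⟨nat_lit 17, nat_lit 16, (.negSucc (nat_lit 4935696767)), (.negSucc (nat_lit 829582783)), (.negSucc (nat_lit 4935696751)), (.negSucc (nat_lit 829582799)), (.negSucc (nat_lit 8113671922711093320485)), (.negSucc (nat_lit 124825721887862974160)), (.ofNat (nat_lit 237841180927816130678923559424))⟩,
    ⟨nat_lit 17, nat_lit 18, (.negSucc (nat_lit 4935696767)), (.negSucc (nat_lit 4286300863)), (.negSucc (nat_lit 4935696751)), (.negSucc (nat_lit 4286300879)), (.ofNat (nat_lit 8113671922711093320486)), (.ofNat (nat_lit 124825721887862974161)), (.ofNat (nat_lit 1470045005098200410665553982720))⟩,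
    ⟨nat_lit 18, nat_lit 11, (.negSucc (nat_lit 4286300863)), (.negSucc (nat_lit 3179499199)), (.negSucc (nat_lit 4286300847)), (.negSucc (nat_lit 3179499215)), (.negSucc (nat_lit 8113671922711093320485)), (.negSucc (nat_lit 124825721887862974160)), (.ofNat (nat_lit 399963805943458856145746032512))⟩,
    ⟨nat_lit 0, nat_lit 10, (.negSucc (nat_lit 833777087)), (.ofNat (nat_lit 2852348800)), (.negSucc (nat_lit 833777071)), (.ofNat (nat_lit 2852348784)), (.ofNat (nat_lit 8113673039321469520090)), (.ofNat (nat_lit 124826838498239173765)), (.ofNat (nat_lit 222548271983622763826749986048))⟩,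
    ⟨nat_lit 19, nat_lit 13, (.negSucc (nat_lit 3701225599)), (.negSucc (nat_lit 146066367)), (.negSucc (nat_lit 3701225583)), (.negSucc (nat_lit 146066383)), (.negSucc (nat_lit 8113671922711093320485)), (.negSucc (nat_lit 124825721887862974160)), (.ofNat (nat_lit 7984228647719154519163836288))⟩]

theorem ok105 : stOK 19 19 S105 = true := by decide +kernel

def S106 : SD where
  vs := [
    ⟨nat_lit 0, nat_lit 0, nat_lit 18, (.ofNat (nat_lit 8)), (.negSucc (nat_lit 1741643519)), (.ofNat (nat_lit 15071231055277077806173746636288)), (.negSucc (nat_lit 907866431)), (.ofNat (nat_lit 7370384278644634544038609522560)), (.negSucc (nat_lit 1741643535)), (.negSucc (nat_lit 1741643503)), (.negSucc (nat_lit 8113672739575007310398)), (.ofNat (nat_lit 8113673039321469520090)), (.negSucc (nat_lit 8113672739575007310398)), (.ofNat (nat_lit 8113673039321469520090)), (.ofNat (nat_lit 0))⟩,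
    ⟨nat_lit 2, nat_lit 0, nat_lit 1, (.ofNat (nat_lit 8)), (.negSucc (nat_lit 6780545023)), (.ofNat (nat_lit 55955228825685382463354262576384)), (.negSucc (nat_lit 909177151)), (.ofNat (nat_lit 7381019031777850297620495699840)), (.negSucc (nat_lit 6780545039)), (.negSucc (nat_lit 6780545007)), (.negSucc (nat_lit 8113672739575007310398)), (.ofNat (nat_lit 8113671922711093320486)), (.negSucc (nat_lit 8113672739575007310398)), (.ofNat (nat_lit 8113671922711093320486)), (.ofNat (nat_lit 0))⟩,
    ⟨nat_lit 0, nat_lit 1, nat_lit 2, (.ofNat (nat_lit 8)), (.negSucc (nat_lit 5218039807)), (.ofNat (nat_lit 68632883525834214637676397231360)), (.negSucc (nat_lit 908128575)), (.ofNat (nat_lit 7389526833427879005010117627776)), (.negSucc (nat_lit 5218039823)), (.negSucc (nat_lit 5218039791)), (.ofNat (nat_lit 8113671922711093320486)), (.negSucc (nat_lit 8113671922711093320485)), (.negSucc (nat_lit 8113671922711093320485)), (.ofNat (nat_lit 8113671922711093320486)), (.ofNat (nat_lit 0))⟩,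
    ⟨nat_lit 0, nat_lit 2, nat_lit 3, (.ofNat (nat_lit 8)), (.negSucc (nat_lit 1999181183)), (.ofNat (nat_lit 42516120685108950442561240260096)), (.negSucc (nat_lit 907079999)), (.ofNat (nat_lit 7381019031777850297620495699840)), (.negSucc (nat_lit 1999181199)), (.negSucc (nat_lit 1999181167)), (.negSucc (nat_lit 8113671922711093320485)), (.ofNat (nat_lit 8113671922711093320486)), (.negSucc (nat_lit 8113671922711093320485)), (.ofNat (nat_lit 8113671922711093320486)), (.ofNat (nat_lit 0))⟩,
    ⟨nat_lit 1, nat_lit 3, nat_lit 4, (.ofNat (nat_lit 8)), (.ofNat (nat_lit 158190528)), (.ofNat (nat_lit 60020326971614513520769886752128)), (.negSucc (nat_lit 906031423)), (.ofNat (nat_lit 7389526833427879005010117627776)), (.ofNat (nat_lit 158190512)), (.ofNat (nat_lit 158190544)), (.ofNat (nat_lit 8113671922711093320486)), (.negSucc (nat_lit 8113671922711093320485)), (.negSucc (nat_lit 8113671922711093320485)), (.ofNat (nat_lit 8113671922711093320486)), (.ofNat (nat_lit 0))⟩,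
    ⟨nat_lit 0, nat_lit 5, nat_lit 4, (.ofNat (nat_lit 8)), (.negSucc (nat_lit 3101579967)), (.ofNat (nat_lit 86469035319491727858792821933184)), (.negSucc (nat_lit 907342143)), (.ofNat (nat_lit 7400161585490414889247145037696)), (.negSucc (nat_lit 3101579983)), (.negSucc (nat_lit 3101579951)), (.ofNat (nat_lit 8113671922711093320486)), (.negSucc (nat_lit 8113671922711093320485)), (.negSucc (nat_lit 8113671922711093320485)), (.ofNat (nat_lit 8113671922711093320486)), (.ofNat (nat_lit 0))⟩,
    ⟨nat_lit 2, nat_lit 6, nat_lit 5, (.ofNat (nat_lit 8)), (.negSucc (nat_lit 6743649471)), (.ofNat (nat_lit 56918478244324609873752662874240)), (.negSucc (nat_lit 909177151)), (.ofNat (nat_lit 7385272932602864651315306663808)), (.negSucc (nat_lit 6743649487)), (.negSucc (nat_lit 6743649455)), (.negSucc (nat_lit 8113671922711093320485)), (.ofNat (nat_lit 8113671922711093320486)), (.negSucc (nat_lit 8113671922711093320485)), (.ofNat (nat_lit 8113671922711093320486)), (.ofNat (nat_lit 0))⟩,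
    ⟨nat_lit 0, nat_lit 7, nat_lit 8, (.ofNat (nat_lit 8)), (.negSucc (nat_lit 2386115327)), (.ofNat (nat_lit 55964900841892257140102254399488)), (.negSucc (nat_lit 907079999)), (.ofNat (nat_lit 7385272932602864651315306663808)), (.negSucc (nat_lit 2386115343)), (.negSucc (nat_lit 2386115311)), (.ofNat (nat_lit 8113671922711093320486)), (.negSucc (nat_lit 8113671922711093320485)), (.negSucc (nat_lit 8113671922711093320485)), (.ofNat (nat_lit 8113671922711093320486)), (.ofNat (nat_lit 0))⟩,
    ⟨nat_lit 0, nat_lit 8, nat_lit 9, (.ofNat (nat_lit 8)), (.ofNat (nat_lit 2237132416)), (.ofNat (nat_lit 18453385429662052582391885915904)), (.ofNat (nat_lit 1572864)), (.ofNat (nat_lit 12761702475043061084432891904)), (.ofNat (nat_lit 2237132400)), (.ofNat (nat_lit 2237132432)), (.negSucc (nat_lit 8113671922711093320485)), (.ofNat (nat_lit 8113671922711093320486)), (.negSucc (nat_lit 8113671922711093320485)), (.ofNat (nat_lit 8113671922711093320486)), (.ofNat (nat_lit 0))⟩,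
    ⟨nat_lit 1, nat_lit 9, nat_lit 10, (.ofNat (nat_lit 8)), (.ofNat (nat_lit 3727282432)), (.ofNat (nat_lit 30543973775108739057291591943680)), (.ofNat (nat_lit 2097152)), (.ofNat (nat_lit 17015603300057414779243855872)), (.ofNat (nat_lit 3727282416)), (.ofNat (nat_lit 3727282448)), (.ofNat (nat_lit 8113671922711093320486)), (.negSucc (nat_lit 8113671923788373707557)), (.negSucc (nat_lit 8113671923788373707557)), (.ofNat (nat_lit 8113671922711093320486)), (.ofNat (nat_lit 0))⟩,
    ⟨nat_lit 0, nat_lit 18, nat_lit 10, (.ofNat (nat_lit 8)), (.ofNat (nat_lit 1946317376)), (.ofNat (nat_lit 44994139947224127769521553036928)), (.negSucc (nat_lit 906031423)), (.ofNat (nat_lit 7385272933581173755179730833280)), (.ofNat (nat_lit 1946317360)), (.ofNat (nat_lit 1946317392)), (.ofNat (nat_lit 8113673039321469520090)), (.negSucc (nat_lit 8113671923788373707557)), (.negSucc (nat_lit 8113671923788373707557)), (.ofNat (nat_lit 8113673039321469520090)), (.ofNat (nat_lit 0))⟩,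
    ⟨nat_lit 1, nat_lit 11, nat_lit 17, (.ofNat (nat_lit 8)), (.negSucc (nat_lit 4087365631)), (.ofNat (nat_lit 59178206755837566167619261639936)), (.negSucc (nat_lit 907866431)), (.ofNat (nat_lit 7383145982190357474467901181824)), (.negSucc (nat_lit 4087365647)), (.negSucc (nat_lit 4087365615)), (.ofNat (nat_lit 8113671922711093320486)), (.negSucc (nat_lit 8113671922711093320485)), (.negSucc (nat_lit 8113671922711093320485)), (.ofNat (nat_lit 8113671922711093320486)), (.ofNat (nat_lit 0))⟩,
    ⟨nat_lit 0, nat_lit 6, nat_lit 11, (.ofNat (nat_lit 8)), (.negSucc (nat_lit 5554761919)), (.ofNat (nat_lit 47272234694401484932716510883968)), (.negSucc (nat_lit 908390719)), (.ofNat (nat_lit 7378892081365343120773090217856)), (.negSucc (nat_lit 5554761935)), (.negSucc (nat_lit 5554761903)), (.negSucc (nat_lit 8113671922711093320485)), (.ofNat (nat_lit 8113671922711093320486)), (.negSucc (nat_lit 8113671922711093320485)), (.ofNat (nat_lit 8113671922711093320486)), (.ofNat (nat_lit 0))⟩,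
    ⟨nat_lit 0, nat_lit 19, nat_lit 12, (.ofNat (nat_lit 8)), (.negSucc (nat_lit 146328511)), (.ofNat (nat_lit 1706236401408238335226848078720)), (.negSucc (nat_lit 262143)), (.ofNat (nat_lit 2126950412507176847405481984)), (.negSucc (nat_lit 146328527)), (.negSucc (nat_lit 146328495)), (.negSucc (nat_lit 8113671922711093320485)), (.ofNat (nat_lit 8113671922711093320486)), (.negSucc (nat_lit 8113671922711093320485)), (.ofNat (nat_lit 8113671922711093320486)), (.ofNat (nat_lit 0))⟩,
    ⟨nat_lit 1, nat_lit 12, nat_lit 13, (.ofNat (nat_lit 8)), (.ofNat (nat_lit 3418523264)), (.ofNat (nat_lit 30630274164966214093663102361856)), (.ofNat (nat_lit 1572864)), (.ofNat (nat_lit 17015603300057414779243855872)), (.ofNat (nat_lit 3418523248)), (.ofNat (nat_lit 3418523280)), (.ofNat (nat_lit 8113671922711093320486)), (.negSucc (nat_lit 8113671922711093320485)), (.negSucc (nat_lit 8113671922711093320485)), (.ofNat (nat_lit 8113671922711093320486)), (.ofNat (nat_lit 0))⟩,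
    ⟨nat_lit 0, nat_lit 14, nat_lit 13, (.ofNat (nat_lit 8)), (.ofNat (nat_lit 1814033216)), (.ofNat (nat_lit 43648580017693188505582163885184)), (.ofNat (nat_lit 1310720)), (.ofNat (nat_lit 19142553712564591626649337856)), (.ofNat (nat_lit 1814033200)), (.ofNat (nat_lit 1814033232)), (.ofNat (nat_lit 8113671922711093320486)), (.negSucc (nat_lit 8113671922711093320485)), (.negSucc (nat_lit 8113671922711093320485)), (.ofNat (nat_lit 8113671922711093320486)), (.ofNat (nat_lit 0))⟩,
    ⟨nat_lit 0, nat_lit 15, nat_lit 14, (.ofNat (nat_lit 8)), (.negSucc (nat_lit 829320639)), (.ofNat (nat_lit 22201274054475886002899651991168)), (.ofNat (nat_lit 262144)), (.ofNat (nat_lit 10634752062535884237027409920)), (.negSucc (nat_lit 829320655)), (.negSucc (nat_lit 829320623)), (.negSucc (nat_lit 8113671922711093320485)), (.ofNat (nat_lit 8113671922711093320486)), (.negSucc (nat_lit 8113671922711093320485)), (.ofNat (nat_lit 8113671922711093320486)), (.ofNat (nat_lit 0))⟩,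
    ⟨nat_lit 2, nat_lit 15, nat_lit 16, (.ofNat (nat_lit 8)), (.negSucc (nat_lit 5844087487)), (.ofNat (nat_lit 62889447028035895068307084039296)), (.negSucc (nat_lit 908390719)), (.ofNat (nat_lit 7383145982190357474467901181824)), (.negSucc (nat_lit 5844087503)), (.negSucc (nat_lit 5844087471)), (.negSucc (nat_lit 8113671922711093320485)), (.ofNat (nat_lit 8113671922711093320486)), (.negSucc (nat_lit 8113671922711093320485)), (.ofNat (nat_lit 8113671922711093320486)), (.ofNat (nat_lit 0))⟩,
    ⟨nat_lit 0, nat_lit 16, nat_lit 17, (.ofNat (nat_lit 8)), (.negSucc (nat_lit 5194429439)), (.ofNat (nat_lit 68160559291456790822839857210624)), (.negSucc (nat_lit 908128575)), (.ofNat (nat_lit 7385272932602864651315306663808)), (.negSucc (nat_lit 5194429455)), (.negSucc (nat_lit 5194429423)), (.ofNat (nat_lit 8113671922711093320486)), (.negSucc (nat_lit 8113671922711093320485)), (.negSucc (nat_lit 8113671922711093320485)), (.ofNat (nat_lit 8113671922711093320486)), (.ofNat (nat_lit 0))⟩,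
    ⟨nat_lit 2, nat_lit 19, nat_lit 7, (.ofNat (nat_lit 8)), (.negSucc (nat_lit 4609878463)), (.ofNat (nat_lit 37922016322569086635749653995392)), (.negSucc (nat_lit 908652863)), (.ofNat (nat_lit 7372511230127821590230873771904)), (.negSucc (nat_lit 4609878479)), (.negSucc (nat_lit 4609878447)), (.negSucc (nat_lit 8113671922711093320485)), (.ofNat (nat_lit 8113671922711093320486)), (.negSucc (nat_lit 8113671922711093320485)), (.ofNat (nat_lit 8113671922711093320486)), (.ofNat (nat_lit 0))⟩]
  es := [
    ⟨nat_lit 1, nat_lit 0, (.negSucc (nat_lit 6780545023)), (.negSucc (nat_lit 1741643519)), (.negSucc (nat_lit 6780545007)), (.negSucc (nat_lit 1741643535)), (.negSucc (nat_lit 8113672739575007310398)), (.ofNat (nat_lit 0)), (.ofNat (nat_lit 4253158151007460772752896192))⟩,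
    ⟨nat_lit 1, nat_lit 2, (.negSucc (nat_lit 6780545023)), (.negSucc (nat_lit 5218039807)), (.negSucc (nat_lit 6780545007)), (.negSucc (nat_lit 5218039823)), (.ofNat (nat_lit 8113671922711093320486)), (.ofNat (nat_lit 0)), (.ofNat (nat_lit 14757784162730686241546180435712))⟩,
    ⟨nat_lit 2, nat_lit 3, (.negSucc (nat_lit 5218039807)), (.negSucc (nat_lit 1999181183)), (.negSucc (nat_lit 5218039791)), (.negSucc (nat_lit 1999181199)), (.negSucc (nat_lit 8113671922711093320485)), (.ofNat (nat_lit 0)), (.ofNat (nat_lit 21269504125071768474054819840))⟩,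
    ⟨nat_lit 3, nat_lit 4, (.negSucc (nat_lit 1999181183)), (.ofNat (nat_lit 158190528)), (.negSucc (nat_lit 1999181167)), (.ofNat (nat_lit 158190512)), (.ofNat (nat_lit 8113671922711093320486)), (.ofNat (nat_lit 0)), (.ofNat (nat_lit 14740768559430628826766936579840))⟩,
    ⟨nat_lit 5, nat_lit 4, (.negSucc (nat_lit 3101579967)), (.ofNat (nat_lit 158190528)), (.negSucc (nat_lit 3101579951)), (.ofNat (nat_lit 158190512)), (.negSucc (nat_lit 8113671922711093320485)), (.ofNat (nat_lit 0)), (.ofNat (nat_lit 38285107425129183253298675712))⟩,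
    ⟨nat_lit 6, nat_lit 5, (.negSucc (nat_lit 6743649471)), (.negSucc (nat_lit 3101579967)), (.negSucc (nat_lit 6743649455)), (.negSucc (nat_lit 3101579983)), (.ofNat (nat_lit 8113671922711093320486)), (.ofNat (nat_lit 0)), (.ofNat (nat_lit 14762038063555700595240991399680))⟩,
    ⟨nat_lit 6, nat_lit 12, (.negSucc (nat_lit 6743649471)), (.negSucc (nat_lit 5554761919)), (.negSucc (nat_lit 6743649455)), (.negSucc (nat_lit 5554761935)), (.negSucc (nat_lit 8113671922711093320485)), (.ofNat (nat_lit 0)), (.ofNat (nat_lit 8507801650028707389621927936))⟩,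
    ⟨nat_lit 19, nat_lit 7, (.negSucc (nat_lit 4609878463)), (.negSucc (nat_lit 2386115327)), (.negSucc (nat_lit 4609878447)), (.negSucc (nat_lit 2386115343)), (.ofNat (nat_lit 8113671922711093320486)), (.ofNat (nat_lit 0)), (.ofNat (nat_lit 14745022460255643180461747543808))⟩,
    ⟨nat_lit 7, nat_lit 8, (.negSucc (nat_lit 2386115327)), (.ofNat (nat_lit 2237132416)), (.negSucc (nat_lit 2386115311)), (.ofNat (nat_lit 2237132400)), (.negSucc (nat_lit 8113671922711093320485)), (.ofNat (nat_lit 0)), (.ofNat (nat_lit 25523404950086122168865783808))⟩,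
    ⟨nat_lit 8, nat_lit 9, (.ofNat (nat_lit 2237132416)), (.ofNat (nat_lit 3727282432)), (.ofNat (nat_lit 2237132432)), (.ofNat (nat_lit 3727282416)), (.ofNat (nat_lit 8113671922711093320486)), (.ofNat (nat_lit 0)), (.ofNat (nat_lit 0))⟩,
    ⟨nat_lit 10, nat_lit 9, (.ofNat (nat_lit 1946317376)), (.ofNat (nat_lit 3727282432)), (.ofNat (nat_lit 1946317392)), (.ofNat (nat_lit 3727282416)), (.negSucc (nat_lit 8113671923788373707557)), (.ofNat (nat_lit 0)), (.ofNat (nat_lit 34031206602374050276796530688))⟩,
    ⟨nat_lit 12, nat_lit 11, (.negSucc (nat_lit 5554761919)), (.negSucc (nat_lit 4087365631)), (.negSucc (nat_lit 5554761903)), (.negSucc (nat_lit 4087365647)), (.ofNat (nat_lit 8113671922711093320486)), (.ofNat (nat_lit 0)), (.ofNat (nat_lit 14749276361080657534156558507776))⟩,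
    ⟨nat_lit 13, nat_lit 14, (.negSucc (nat_lit 146328511)), (.ofNat (nat_lit 3418523264)), (.negSucc (nat_lit 146328495)), (.ofNat (nat_lit 3418523248)), (.ofNat (nat_lit 8113671922711093320486)), (.ofNat (nat_lit 0)), (.ofNat (nat_lit 4253900825014353694810963968))⟩,
    ⟨nat_lit 15, nat_lit 14, (.ofNat (nat_lit 1814033216)), (.ofNat (nat_lit 3418523264)), (.ofNat (nat_lit 1814033232)), (.ofNat (nat_lit 3418523248)), (.negSucc (nat_lit 8113671922711093320485)), (.ofNat (nat_lit 0)), (.ofNat (nat_lit 29777305775100475863676747776))⟩,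
    ⟨nat_lit 16, nat_lit 15, (.negSucc (nat_lit 829320639)), (.ofNat (nat_lit 1814033216)), (.negSucc (nat_lit 829320623)), (.ofNat (nat_lit 1814033200)), (.ofNat (nat_lit 8113671922711093320486)), (.ofNat (nat_lit 0)), (.ofNat (nat_lit 8507801650028707389621927936))⟩,
    ⟨nat_lit 17, nat_lit 16, (.negSucc (nat_lit 5844087487)), (.negSucc (nat_lit 829320639)), (.negSucc (nat_lit 5844087471)), (.negSucc (nat_lit 829320655)), (.negSucc (nat_lit 8113671922711093320485)), (.ofNat (nat_lit 0)), (.ofNat (nat_lit 12761702475043061084432891904))⟩,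
    ⟨nat_lit 17, nat_lit 18, (.negSucc (nat_lit 5844087487)), (.negSucc (nat_lit 5194429439)), (.negSucc (nat_lit 5844087471)), (.negSucc (nat_lit 5194429455)), (.ofNat (nat_lit 8113671922711093320486)), (.ofNat (nat_lit 0)), (.ofNat (nat_lit 14753530261905671887851369471744))⟩,
    ⟨nat_lit 18, nat_lit 11, (.negSucc (nat_lit 5194429439)), (.negSucc (nat_lit 4087365631)), (.negSucc (nat_lit 5194429423)), (.negSucc (nat_lit 4087365647)), (.negSucc (nat_lit 8113671922711093320485)), (.ofNat (nat_lit 0)), (.ofNat (nat_lit 17015603300057414779243855872))⟩,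
    ⟨nat_lit 0, nat_lit 10, (.negSucc (nat_lit 1741643519)), (.ofNat (nat_lit 1946317376)), (.negSucc (nat_lit 1741643503)), (.ofNat (nat_lit 1946317360)), (.ofNat (nat_lit 8113673039321469520090)), (.ofNat (nat_lit 0)), (.ofNat (nat_lit 14736515671268012778239470141440))⟩,
    ⟨nat_lit 19, nat_lit 13, (.negSucc (nat_lit 4609878463)), (.negSucc (nat_lit 146328511)), (.negSucc (nat_lit 4609878447)), (.negSucc (nat_lit 146328527)), (.negSucc (nat_lit 8113671922711093320485)), (.ofNat (nat_lit 0)), (.ofNat (nat_lit 0))⟩]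

theorem ok106 : stOK 19 19 S106 = true := by decide +kernel

def S107 : SD where
  vs := [
    ⟨nat_lit 0, nat_lit 0, nat_lit 18, (.ofNat (nat_lit 8)), (.negSucc (nat_lit 1741643519)), (.ofNat (nat_lit 15306723220926599488479290942720)), (.ofNat (nat_lit 0)), (.ofNat (nat_lit 235492165649521682305544306432)), (.negSucc (nat_lit 1741643535)), (.negSucc (nat_lit 1741643503)), (.negSucc (nat_lit 8240448046503454153617)), (.ofNat (nat_lit 8240448046503454153618)), (.negSucc (nat_lit 8240448046503454153617)), (.ofNat (nat_lit 8240448046503454153618)), (.ofNat (nat_lit 760651242077756639932))⟩,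
    ⟨nat_lit 2, nat_lit 0, nat_lit 1, (.ofNat (nat_lit 8)), (.negSucc (nat_lit 6780545023)), (.ofNat (nat_lit 56829529276086716564340078184192)), (.ofNat (nat_lit 0)), (.ofNat (nat_lit 874300450401334100985815607808)), (.negSucc (nat_lit 6780545039)), (.negSucc (nat_lit 6780545007)), (.negSucc (nat_lit 8240448046503454153617)), (.ofNat (nat_lit 8240448046503454153618)), (.negSucc (nat_lit 8240448046503454153617)), (.ofNat (nat_lit 8240448046503454153618)), (.ofNat (nat_lit 760653475298509039140))⟩,
    ⟨nat_lit 0, nat_lit 1, nat_lit 2, (.ofNat (nat_lit 8)), (.negSucc (nat_lit 5218039807)), (.ofNat (nat_lit 69705272330925374241385068455680)), (.ofNat (nat_lit 0)), (.ofNat (nat_lit 1072388805091159603708671224320)), (.negSucc (nat_lit 5218039823)), (.negSucc (nat_lit 5218039791)), (.ofNat (nat_lit 8240448046503454153618)), (.negSucc (nat_lit 8240448046503454153617)), (.negSucc (nat_lit 8240448046503454153617)), (.ofNat (nat_lit 8240448046503454153618)), (.ofNat (nat_lit 760656742754164998792))⟩,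
    ⟨nat_lit 0, nat_lit 2, nat_lit 3, (.ofNat (nat_lit 8)), (.negSucc (nat_lit 1999181183)), (.ofNat (nat_lit 43180435070813777793223148354048)), (.ofNat (nat_lit 0)), (.ofNat (nat_lit 664314385704827350661908093952)), (.negSucc (nat_lit 1999181199)), (.negSucc (nat_lit 1999181167)), (.negSucc (nat_lit 8240448046503454153617)), (.ofNat (nat_lit 8240448046503454153618)), (.negSucc (nat_lit 8240448046503454153617)), (.ofNat (nat_lit 8240448046503454153618)), (.ofNat (nat_lit 760656742754164998792))⟩,
    ⟨nat_lit 1, nat_lit 3, nat_lit 4, (.ofNat (nat_lit 8)), (.ofNat (nat_lit 158190528)), (.ofNat (nat_lit 60958144580545990294527524008064)), (.ofNat (nat_lit 0)), (.ofNat (nat_lit 937817608931476773757637255936)), (.ofNat (nat_lit 158190512)), (.ofNat (nat_lit 158190544)), (.ofNat (nat_lit 8240448046503454153618)), (.negSucc (nat_lit 8240448046503454153617)), (.negSucc (nat_lit 8240448046503454153617)), (.ofNat (nat_lit 8240448046503454153618)), (.ofNat (nat_lit 760656742754164998792))⟩,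
    ⟨nat_lit 0, nat_lit 5, nat_lit 4, (.ofNat (nat_lit 8)), (.negSucc (nat_lit 3101579967)), (.ofNat (nat_lit 87820113996358786106580132062592)), (.ofNat (nat_lit 0)), (.ofNat (nat_lit 1351078676867058247787310129408)), (.negSucc (nat_lit 3101579983)), (.negSucc (nat_lit 3101579951)), (.ofNat (nat_lit 8240448046503454153618)), (.negSucc (nat_lit 8240448046503454153617)), (.negSucc (nat_lit 8240448046503454153617)), (.ofNat (nat_lit 8240448046503454153618)), (.ofNat (nat_lit 760656742754164998792))⟩,
    ⟨nat_lit 2, nat_lit 6, nat_lit 5, (.ofNat (nat_lit 8)), (.negSucc (nat_lit 6743649471)), (.ofNat (nat_lit 57807829466892181903025882997120)), (.ofNat (nat_lit 0)), (.ofNat (nat_lit 889351222567572029273220122880)), (.negSucc (nat_lit 6743649487)), (.negSucc (nat_lit 6743649455)), (.negSucc (nat_lit 8240448046503454153617)), (.ofNat (nat_lit 8240448046503454153618)), (.negSucc (nat_lit 8240448046503454153617)), (.ofNat (nat_lit 8240448046503454153618)), (.ofNat (nat_lit 760656742754164998792))⟩,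
    ⟨nat_lit 0, nat_lit 7, nat_lit 8, (.ofNat (nat_lit 8)), (.negSucc (nat_lit 2386115327)), (.ofNat (nat_lit 56839352417546823657912256671744)), (.ofNat (nat_lit 0)), (.ofNat (nat_lit 874451575654566517810002272256)), (.negSucc (nat_lit 2386115343)), (.negSucc (nat_lit 2386115311)), (.ofNat (nat_lit 8240448046503454153618)), (.negSucc (nat_lit 8240448046503454153617)), (.negSucc (nat_lit 8240448046503454153617)), (.ofNat (nat_lit 8240448046503454153618)), (.ofNat (nat_lit 760656742754164998792))⟩,
    ⟨nat_lit 0, nat_lit 8, nat_lit 9, (.ofNat (nat_lit 8)), (.ofNat (nat_lit 2237132416)), (.ofNat (nat_lit 18741719577000522153990408733952)), (.ofNat (nat_lit 0)), (.ofNat (nat_lit 288334147338469571598522818048)), (.ofNat (nat_lit 2237132400)), (.ofNat (nat_lit 2237132432)), (.negSucc (nat_lit 8240448046503454153617)), (.ofNat (nat_lit 8240448046503454153618)), (.negSucc (nat_lit 8240448046503454153617)), (.ofNat (nat_lit 8240448046503454153618)), (.ofNat (nat_lit 760656742754164998792))⟩,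
    ⟨nat_lit 1, nat_lit 9, nat_lit 10, (.ofNat (nat_lit 8)), (.ofNat (nat_lit 3727282432)), (.ofNat (nat_lit 31021223365344813105059537891840)), (.ofNat (nat_lit 0)), (.ofNat (nat_lit 477249590236074047767945948160)), (.ofNat (nat_lit 3727282416)), (.ofNat (nat_lit 3727282448)), (.ofNat (nat_lit 8240448046503454153618)), (.negSucc (nat_lit 8240448046503454153617)), (.negSucc (nat_lit 8240448046503454153617)), (.ofNat (nat_lit 8240448046503454153618)), (.ofNat (nat_lit 760656740599604224648))⟩,
    ⟨nat_lit 0, nat_lit 18, nat_lit 10, (.ofNat (nat_lit 8)), (.ofNat (nat_lit 1946317376)), (.ofNat (nat_lit 45697173381950927935951251864448)), (.ofNat (nat_lit 0)), (.ofNat (nat_lit 703033434726800166429698827520)), (.ofNat (nat_lit 1946317360)), (.ofNat (nat_lit 1946317392)), (.ofNat (nat_lit 8240448046503454153618)), (.negSucc (nat_lit 8240448046503454153617)), (.negSucc (nat_lit 8240448046503454153617)), (.ofNat (nat_lit 8240448046503454153618)), (.ofNat (nat_lit 760652274158099426232))⟩,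
    ⟨nat_lit 1, nat_lit 11, nat_lit 17, (.ofNat (nat_lit 8)), (.negSucc (nat_lit 4087365631)), (.ofNat (nat_lit 60102866236397528138983982003968)), (.ofNat (nat_lit 0)), (.ofNat (nat_lit 924659480559961971364720364032)), (.negSucc (nat_lit 4087365647)), (.negSucc (nat_lit 4087365615)), (.ofNat (nat_lit 8240448046503454153618)), (.negSucc (nat_lit 8240448046503454153617)), (.negSucc (nat_lit 8240448046503454153617)), (.ofNat (nat_lit 8240448046503454153618)), (.ofNat (nat_lit 760656742754164998792))⟩,
    ⟨nat_lit 0, nat_lit 6, nat_lit 11, (.ofNat (nat_lit 8)), (.negSucc (nat_lit 5554761919)), (.ofNat (nat_lit 48010863361501508134786747033984)), (.ofNat (nat_lit 0)), (.ofNat (nat_lit 738628667100023202070236150016)), (.negSucc (nat_lit 5554761935)), (.negSucc (nat_lit 5554761903)), (.negSucc (nat_lit 8240448046503454153617)), (.ofNat (nat_lit 8240448046503454153618)), (.negSucc (nat_lit 8240448046503454153617)), (.ofNat (nat_lit 8240448046503454153618)), (.ofNat (nat_lit 760656742754164998792))⟩,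
    ⟨nat_lit 0, nat_lit 19, nat_lit 12, (.ofNat (nat_lit 8)), (.negSucc (nat_lit 146328511)), (.ofNat (nat_lit 1732896345180242059214642719360)), (.ofNat (nat_lit 0)), (.ofNat (nat_lit 26659943772003723987794640640)), (.negSucc (nat_lit 146328527)), (.negSucc (nat_lit 146328495)), (.negSucc (nat_lit 8240448046503454153617)), (.ofNat (nat_lit 8240448046503454153618)), (.negSucc (nat_lit 8240448046503454153617)), (.ofNat (nat_lit 8240448046503454153618)), (.ofNat (nat_lit 760656742754164998792))⟩,
    ⟨nat_lit 1, nat_lit 12, nat_lit 13, (.ofNat (nat_lit 8)), (.ofNat (nat_lit 3418523264)), (.ofNat (nat_lit 31108872198793811188874346844928)), (.ofNat (nat_lit 0)), (.ofNat (nat_lit 478598033827597095211244483072)), (.ofNat (nat_lit 3418523248)), (.ofNat (nat_lit 3418523280)), (.ofNat (nat_lit 8240448046503454153618)), (.negSucc (nat_lit 8240448046503454153617)), (.negSucc (nat_lit 8240448046503454153617)), (.ofNat (nat_lit 8240448046503454153618)), (.ofNat (nat_lit 760656742754164998792))⟩,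
    ⟨nat_lit 0, nat_lit 14, nat_lit 13, (.ofNat (nat_lit 8)), (.ofNat (nat_lit 1814033216)), (.ofNat (nat_lit 44330589080469644575978691038592)), (.ofNat (nat_lit 0)), (.ofNat (nat_lit 682009062776456070396527153408)), (.ofNat (nat_lit 1814033200)), (.ofNat (nat_lit 1814033232)), (.ofNat (nat_lit 8240448046503454153618)), (.negSucc (nat_lit 8240448046503454153617)), (.negSucc (nat_lit 8240448046503454153617)), (.ofNat (nat_lit 8240448046503454153618)), (.ofNat (nat_lit 760656742754164998792))⟩,
    ⟨nat_lit 0, nat_lit 15, nat_lit 14, (.ofNat (nat_lit 8)), (.negSucc (nat_lit 829320639)), (.ofNat (nat_lit 22548168961577071721693334387584)), (.ofNat (nat_lit 0)), (.ofNat (nat_lit 346894907101185718793682396416)), (.negSucc (nat_lit 829320655)), (.negSucc (nat_lit 829320623)), (.negSucc (nat_lit 8240448046503454153617)), (.ofNat (nat_lit 8240448046503454153618)), (.negSucc (nat_lit 8240448046503454153617)), (.ofNat (nat_lit 8240448046503454153618)), (.ofNat (nat_lit 760656742754164998792))⟩,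
    ⟨nat_lit 2, nat_lit 15, nat_lit 16, (.ofNat (nat_lit 8)), (.negSucc (nat_lit 5844087487)), (.ofNat (nat_lit 63872094637848955928744780043648)), (.ofNat (nat_lit 0)), (.ofNat (nat_lit 982647609813060860437696004352)), (.negSucc (nat_lit 5844087503)), (.negSucc (nat_lit 5844087471)), (.negSucc (nat_lit 8240448046503454153617)), (.ofNat (nat_lit 8240448046503454153618)), (.negSucc (nat_lit 8240448046503454153617)), (.ofNat (nat_lit 8240448046503454153618)), (.ofNat (nat_lit 760656742754164998792))⟩,
    ⟨nat_lit 0, nat_lit 16, nat_lit 17, (.ofNat (nat_lit 8)), (.negSucc (nat_lit 5194429439)), (.ofNat (nat_lit 69225568030385803179441742061312)), (.ofNat (nat_lit 0)), (.ofNat (nat_lit 1065008738929012356601884850688)), (.negSucc (nat_lit 5194429455)), (.negSucc (nat_lit 5194429423)), (.ofNat (nat_lit 8240448046503454153618)), (.negSucc (nat_lit 8240448046503454153617)), (.negSucc (nat_lit 8240448046503454153617)), (.ofNat (nat_lit 8240448046503454153618)), (.ofNat (nat_lit 760656742754164998792))⟩,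
    ⟨nat_lit 2, nat_lit 19, nat_lit 7, (.ofNat (nat_lit 8)), (.negSucc (nat_lit 4609878463)), (.ofNat (nat_lit 38514547827609228614430467245696)), (.ofNat (nat_lit 0)), (.ofNat (nat_lit 592531505040141978680813250304)), (.negSucc (nat_lit 4609878479)), (.negSucc (nat_lit 4609878447)), (.negSucc (nat_lit 8240448046503454153617)), (.ofNat (nat_lit 8240448046503454153618)), (.negSucc (nat_lit 8240448046503454153617)), (.ofNat (nat_lit 8240448046503454153618)), (.ofNat (nat_lit 760656742754164998792))⟩]
  es := [
    ⟨nat_lit 1, nat_lit 0, (.negSucc (nat_lit 6780545023)), (.negSucc (nat_lit 1741643519)), (.negSucc (nat_lit 6780545007)), (.negSucc (nat_lit 1741643535)), (.negSucc (nat_lit 8240448046503454153617)), (.negSucc (nat_lit 126775306928446843218)), (.ofNat (nat_lit 14694773841581134148717015552))⟩,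
    ⟨nat_lit 1, nat_lit 2, (.negSucc (nat_lit 6780545023)), (.negSucc (nat_lit 5218039807)), (.negSucc (nat_lit 6780545007)), (.negSucc (nat_lit 5218039823)), (.ofNat (nat_lit 8240448046503454153618)), (.ofNat (nat_lit 126776123792360833132)), (.ofNat (nat_lit 1733911665743634357291492542976))⟩,
    ⟨nat_lit 2, nat_lit 3, (.negSucc (nat_lit 5218039807)), (.negSucc (nat_lit 1999181183)), (.negSucc (nat_lit 5218039791)), (.negSucc (nat_lit 1999181199)), (.negSucc (nat_lit 8240448046503454153617)), (.negSucc (nat_lit 126776123792360833131)), (.ofNat (nat_lit 410865944438684850125849905664))⟩,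
    ⟨nat_lit 3, nat_lit 4, (.negSucc (nat_lit 1999181183)), (.ofNat (nat_lit 158190528)), (.negSucc (nat_lit 1999181167)), (.ofNat (nat_lit 158190512)), (.ofNat (nat_lit 8240448046503454153618)), (.ofNat (nat_lit 126776123792360833132)), (.ofNat (nat_lit 917762826970969851197966282240))⟩,
    ⟨nat_lit 5, nat_lit 4, (.negSucc (nat_lit 3101579967)), (.ofNat (nat_lit 158190528)), (.negSucc (nat_lit 3101579951)), (.ofNat (nat_lit 158190512)), (.negSucc (nat_lit 8240448046503454153617)), (.negSucc (nat_lit 126776123792360833131)), (.ofNat (nat_lit 957872390891983696317308229632))⟩,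
    ⟨nat_lit 6, nat_lit 5, (.negSucc (nat_lit 6743649471)), (.negSucc (nat_lit 3101579967)), (.negSucc (nat_lit 6743649455)), (.negSucc (nat_lit 3101579983)), (.ofNat (nat_lit 8240448046503454153618)), (.ofNat (nat_lit 126776123792360833132)), (.ofNat (nat_lit 1744284962842132799257312029184))⟩,
    ⟨nat_lit 6, nat_lit 12, (.negSucc (nat_lit 6743649471)), (.negSucc (nat_lit 5554761919)), (.negSucc (nat_lit 6743649455)), (.negSucc (nat_lit 5554761935)), (.negSucc (nat_lit 8240448046503454153617)), (.negSucc (nat_lit 126776123792360833131)), (.ofNat (nat_lit 34417482293011259289128216576))⟩,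
    ⟨nat_lit 19, nat_lit 7, (.negSucc (nat_lit 4609878463)), (.negSucc (nat_lit 2386115327)), (.negSucc (nat_lit 4609878447)), (.negSucc (nat_lit 2386115343)), (.ofNat (nat_lit 8240448046503454153618)), (.ofNat (nat_lit 126776123792360833132)), (.ofNat (nat_lit 1176954027859944191053117719552))⟩,
    ⟨nat_lit 7, nat_lit 8, (.negSucc (nat_lit 2386115327)), (.ofNat (nat_lit 2237132416)), (.negSucc (nat_lit 2386115311)), (.ofNat (nat_lit 2237132400)), (.negSucc (nat_lit 8240448046503454153617)), (.negSucc (nat_lit 126776123792360833131)), (.ofNat (nat_lit 571949123449188844566886824960))⟩,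
    ⟨nat_lit 8, nat_lit 9, (.ofNat (nat_lit 2237132416)), (.ofNat (nat_lit 3727282432)), (.ofNat (nat_lit 2237132432)), (.ofNat (nat_lit 3727282416)), (.ofNat (nat_lit 8240448046503454153618)), (.ofNat (nat_lit 126776123792360833132)), (.ofNat (nat_lit 4719171227750298630158811136))⟩,
    ⟨nat_lit 10, nat_lit 9, (.ofNat (nat_lit 1946317376)), (.ofNat (nat_lit 3727282432)), (.ofNat (nat_lit 1946317392)), (.ofNat (nat_lit 3727282416)), (.negSucc (nat_lit 8240448046503454153617)), (.negSucc (nat_lit 126776122715080446059)), (.ofNat (nat_lit 949780005229069535834107566080))⟩,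
    ⟨nat_lit 12, nat_lit 11, (.negSucc (nat_lit 5554761919)), (.negSucc (nat_lit 4087365631)), (.negSucc (nat_lit 5554761903)), (.negSucc (nat_lit 4087365647)), (.ofNat (nat_lit 8240448046503454153618)), (.ofNat (nat_lit 126776123792360833132)), (.ofNat (nat_lit 1442839851907035144851344083456))⟩,
    ⟨nat_lit 13, nat_lit 14, (.negSucc (nat_lit 146328511)), (.ofNat (nat_lit 3418523264)), (.negSucc (nat_lit 146328495)), (.ofNat (nat_lit 3418523248)), (.ofNat (nat_lit 8240448046503454153618)), (.ofNat (nat_lit 126776123792360833132)), (.ofNat (nat_lit 45210905323667681667080500224))⟩,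
    ⟨nat_lit 15, nat_lit 14, (.ofNat (nat_lit 1814033216)), (.ofNat (nat_lit 3418523264)), (.ofNat (nat_lit 1814033232)), (.ofNat (nat_lit 3418523248)), (.negSucc (nat_lit 8240448046503454153617)), (.negSucc (nat_lit 126776123792360833131)), (.ofNat (nat_lit 911985162331526508755408465920))⟩,
    ⟨nat_lit 16, nat_lit 15, (.negSucc (nat_lit 829320639)), (.ofNat (nat_lit 1814033216)), (.negSucc (nat_lit 829320623)), (.ofNat (nat_lit 1814033200)), (.ofNat (nat_lit 8240448046503454153618)), (.ofNat (nat_lit 126776123792360833132)), (.ofNat (nat_lit 452032963221385632037645840896))⟩,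
    ⟨nat_lit 17, nat_lit 16, (.negSucc (nat_lit 5844087487)), (.negSucc (nat_lit 829320639)), (.negSucc (nat_lit 5844087471)), (.negSucc (nat_lit 829320655)), (.negSucc (nat_lit 8240448046503454153617)), (.negSucc (nat_lit 126776123792360833131)), (.ofNat (nat_lit 241756850980985805549718951936))⟩,
    ⟨nat_lit 17, nat_lit 18, (.negSucc (nat_lit 5844087487)), (.negSucc (nat_lit 5194429439)), (.negSucc (nat_lit 5844087471)), (.negSucc (nat_lit 5194429455)), (.ofNat (nat_lit 8240448046503454153618)), (.ofNat (nat_lit 126776123792360833132)), (.ofNat (nat_lit 1723538368645135915325673056768))⟩,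
    ⟨nat_lit 18, nat_lit 11, (.negSucc (nat_lit 5194429439)), (.negSucc (nat_lit 4087365631)), (.negSucc (nat_lit 5194429423)), (.negSucc (nat_lit 4087365647)), (.negSucc (nat_lit 8240448046503454153617)), (.negSucc (nat_lit 126776123792360833131)), (.ofNat (nat_lit 406479109212888797878096644608))⟩,
    ⟨nat_lit 0, nat_lit 10, (.negSucc (nat_lit 1741643519)), (.ofNat (nat_lit 1946317376)), (.negSucc (nat_lit 1741643503)), (.ofNat (nat_lit 1946317360)), (.ofNat (nat_lit 8240448046503454153618)), (.ofNat (nat_lit 126775007181984633528)), (.ofNat (nat_lit 456289035405978680029160244992))⟩,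
    ⟨nat_lit 19, nat_lit 13, (.negSucc (nat_lit 4609878463)), (.negSucc (nat_lit 146328511)), (.negSucc (nat_lit 4609878447)), (.negSucc (nat_lit 146328527)), (.negSucc (nat_lit 8240448046503454153617)), (.negSucc (nat_lit 126776123792360833131)), (.ofNat (nat_lit 8108982220339766308508781056))⟩]

theorem ok107 : stOK 19 19 S107 = true := by decide +kernel

def S108 : SD where
  vs := [
    ⟨nat_lit 0, nat_lit 0, nat_lit 18, (.ofNat (nat_lit 8)), (.negSucc (nat_lit 2927490815)), (.ofNat (nat_lit 25082956622726608054178456933632)), (.negSucc (nat_lit 1185847295)), (.ofNat (nat_lit 9776233401800008565699165990912)), (.negSucc (nat_lit 2927490831)), (.negSucc (nat_lit 2927490799)), (.negSucc (nat_lit 8240448046503454153617)), (.ofNat (nat_lit 8240448046503454153618)), (.negSucc (nat_lit 8240448046503454153617)), (.ofNat (nat_lit 8240448046503454153618)), (.ofNat (nat_lit 0))⟩,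
    ⟨nat_lit 2, nat_lit 0, nat_lit 1, (.ofNat (nat_lit 8)), (.negSucc (nat_lit 7967703039)), (.ofNat (nat_lit 66616563597950238137467474360064)), (.negSucc (nat_lit 1187158015)), (.ofNat (nat_lit 9787034321863521573127396175872)), (.negSucc (nat_lit 7967703055)), (.negSucc (nat_lit 7967703023)), (.negSucc (nat_lit 8240448046503454153617)), (.ofNat (nat_lit 8240448046503454153618)), (.negSucc (nat_lit 8240448046503454153617)), (.ofNat (nat_lit 8240448046503454153618)), (.ofNat (nat_lit 0))⟩,
    ⟨nat_lit 0, nat_lit 1, nat_lit 2, (.ofNat (nat_lit 8)), (.negSucc (nat_lit 6404149247)), (.ofNat (nat_lit 79500947388839706220455048779520)), (.negSucc (nat_lit 1186109439)), (.ofNat (nat_lit 9795675057914331979069980323840)), (.negSucc (nat_lit 6404149263)), (.negSucc (nat_lit 6404149231)), (.ofNat (nat_lit 8240448046503454153618)), (.negSucc (nat_lit 8240448046503454153617)), (.negSucc (nat_lit 8240448046503454153617)), (.ofNat (nat_lit 8240448046503454153618)), (.ofNat (nat_lit 0))⟩,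
    ⟨nat_lit 0, nat_lit 2, nat_lit 3, (.ofNat (nat_lit 8)), (.negSucc (nat_lit 3184242047)), (.ofNat (nat_lit 52967469392677299366350544529920)), (.negSucc (nat_lit 1185060863)), (.ofNat (nat_lit 9787034321863521573127396175872)), (.negSucc (nat_lit 3184242063)), (.negSucc (nat_lit 3184242031)), (.negSucc (nat_lit 8240448046503454153617)), (.ofNat (nat_lit 8240448046503454153618)), (.negSucc (nat_lit 8240448046503454153617)), (.ofNat (nat_lit 8240448046503454153618)), (.ofNat (nat_lit 0))⟩,
    ⟨nat_lit 1, nat_lit 3, nat_lit 4, (.ofNat (nat_lit 8)), (.negSucc (nat_lit 1025821759)), (.ofNat (nat_lit 70753819638460322273597504331904)), (.negSucc (nat_lit 1184012287)), (.ofNat (nat_lit 9795675057914331979069980323840)), (.negSucc (nat_lit 1025821775)), (.negSucc (nat_lit 1025821743)), (.ofNat (nat_lit 8240448046503454153618)), (.negSucc (nat_lit 8240448046503454153617)), (.negSucc (nat_lit 8240448046503454153617)), (.ofNat (nat_lit 8240448046503454153618)), (.ofNat (nat_lit 0))⟩,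
    ⟨nat_lit 0, nat_lit 5, nat_lit 4, (.ofNat (nat_lit 8)), (.negSucc (nat_lit 4286902975)), (.ofNat (nat_lit 97626589974336631093078342571392)), (.negSucc (nat_lit 1185323007)), (.ofNat (nat_lit 9806475977977844986498210508800)), (.negSucc (nat_lit 4286902991)), (.negSucc (nat_lit 4286902959)), (.ofNat (nat_lit 8240448046503454153618)), (.negSucc (nat_lit 8240448046503454153617)), (.negSucc (nat_lit 8240448046503454153617)), (.ofNat (nat_lit 8240448046503454153618)), (.ofNat (nat_lit 0))⟩,
    ⟨nat_lit 2, nat_lit 6, nat_lit 5, (.ofNat (nat_lit 8)), (.negSucc (nat_lit 7930807487)), (.ofNat (nat_lit 67599184156781108679124571246976)), (.negSucc (nat_lit 1187158015)), (.ofNat (nat_lit 9791354689888926776098688249856)), (.negSucc (nat_lit 7930807503)), (.negSucc (nat_lit 7930807471)), (.negSucc (nat_lit 8240448046503454153617)), (.ofNat (nat_lit 8240448046503454153618)), (.negSucc (nat_lit 8240448046503454153617)), (.ofNat (nat_lit 8240448046503454153618)), (.ofNat (nat_lit 0))⟩,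
    ⟨nat_lit 0, nat_lit 7, nat_lit 8, (.ofNat (nat_lit 8)), (.negSucc (nat_lit 3571176191)), (.ofNat (nat_lit 66630707107435750434010944921600)), (.negSucc (nat_lit 1185060863)), (.ofNat (nat_lit 9791354689888926776098688249856)), (.negSucc (nat_lit 3571176207)), (.negSucc (nat_lit 3571176175)), (.ofNat (nat_lit 8240448046503454153618)), (.negSucc (nat_lit 8240448046503454153617)), (.negSucc (nat_lit 8240448046503454153617)), (.ofNat (nat_lit 8240448046503454153618)), (.ofNat (nat_lit 0))⟩,
    ⟨nat_lit 0, nat_lit 8, nat_lit 9, (.ofNat (nat_lit 8)), (.ofNat (nat_lit 2238705280)), (.ofNat (nat_lit 18754680681076737762904284955904)), (.ofNat (nat_lit 1572864)), (.ofNat (nat_lit 12961104076215608913876221952)), (.ofNat (nat_lit 2238705264)), (.ofNat (nat_lit 2238705296)), (.negSucc (nat_lit 8240448046503454153617)), (.ofNat (nat_lit 8240448046503454153618)), (.negSucc (nat_lit 8240448046503454153617)), (.ofNat (nat_lit 8240448046503454153618)), (.ofNat (nat_lit 0))⟩,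
    ⟨nat_lit 1, nat_lit 9, nat_lit 10, (.ofNat (nat_lit 8)), (.ofNat (nat_lit 3729379584)), (.ofNat (nat_lit 31038504837446433916944706187776)), (.ofNat (nat_lit 2097152)), (.ofNat (nat_lit 17281472101620811885168295936)), (.ofNat (nat_lit 3729379568)), (.ofNat (nat_lit 3729379600)), (.ofNat (nat_lit 8240448046503454153618)), (.negSucc (nat_lit 8240448046503454153617)), (.negSucc (nat_lit 8240448046503454153617)), (.ofNat (nat_lit 8240448046503454153618)), (.ofNat (nat_lit 0))⟩,
    ⟨nat_lit 0, nat_lit 18, nat_lit 10, (.ofNat (nat_lit 8)), (.ofNat (nat_lit 762305088)), (.ofNat (nat_lit 55488528071839854712049940114304)), (.negSucc (nat_lit 1184012287)), (.ofNat (nat_lit 9791354689888926776098688249856)), (.ofNat (nat_lit 762305072)), (.ofNat (nat_lit 762305104)), (.ofNat (nat_lit 8240448046503454153618)), (.negSucc (nat_lit 8240448046503454153617)), (.negSucc (nat_lit 8240448046503454153617)), (.ofNat (nat_lit 8240448046503454153618)), (.ofNat (nat_lit 0))⟩,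
    ⟨nat_lit 1, nat_lit 11, nat_lit 17, (.ofNat (nat_lit 8)), (.negSucc (nat_lit 5273212927)), (.ofNat (nat_lit 69892060742273752313597024216832)), (.negSucc (nat_lit 1185847295)), (.ofNat (nat_lit 9789194505876224174613042212864)), (.negSucc (nat_lit 5273212943)), (.negSucc (nat_lit 5273212911)), (.ofNat (nat_lit 8240448046503454153618)), (.negSucc (nat_lit 8240448046503454153617)), (.negSucc (nat_lit 8240448046503454153617)), (.ofNat (nat_lit 8240448046503454153618)), (.ofNat (nat_lit 0))⟩,
    ⟨nat_lit 0, nat_lit 6, nat_lit 11, (.ofNat (nat_lit 8)), (.negSucc (nat_lit 6741133503)), (.ofNat (nat_lit 57795737499352327106428497172864)), (.negSucc (nat_lit 1186371583)), (.ofNat (nat_lit 9784874137850818971641750138880)), (.negSucc (nat_lit 6741133519)), (.negSucc (nat_lit 6741133487)), (.negSucc (nat_lit 8240448046503454153617)), (.ofNat (nat_lit 8240448046503454153618)), (.negSucc (nat_lit 8240448046503454153617)), (.ofNat (nat_lit 8240448046503454153618)), (.ofNat (nat_lit 0))⟩,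
    ⟨nat_lit 0, nat_lit 19, nat_lit 12, (.ofNat (nat_lit 8)), (.negSucc (nat_lit 1331913663)), (.ofNat (nat_lit 11502649194942142820456870599296)), (.negSucc (nat_lit 1185585151)), (.ofNat (nat_lit 9769752849761900761242227879936)), (.negSucc (nat_lit 1331913679)), (.negSucc (nat_lit 1331913647)), (.negSucc (nat_lit 8240448046503454153617)), (.ofNat (nat_lit 8240448046503454153618)), (.negSucc (nat_lit 8240448046503454153617)), (.ofNat (nat_lit 8240448046503454153618)), (.ofNat (nat_lit 0))⟩,
    ⟨nat_lit 1, nat_lit 12, nat_lit 13, (.ofNat (nat_lit 8)), (.ofNat (nat_lit 2234773120)), (.ofNat (nat_lit 40893746336644630160516096983808)), (.negSucc (nat_lit 1183750143)), (.ofNat (nat_lit 9784874137850818971641750138880)), (.ofNat (nat_lit 2234773104)), (.ofNat (nat_lit 2234773136)), (.ofNat (nat_lit 8240448046503454153618)), (.negSucc (nat_lit 8240448046503454153617)), (.negSucc (nat_lit 8240448046503454153617)), (.ofNat (nat_lit 8240448046503454153618)), (.ofNat (nat_lit 0))⟩,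
    ⟨nat_lit 0, nat_lit 14, nat_lit 13, (.ofNat (nat_lit 8)), (.ofNat (nat_lit 630020928)), (.ofNat (nat_lit 54117623402333166149106087214464)), (.negSucc (nat_lit 1184012287)), (.ofNat (nat_lit 9787034321863521573127396175872)), (.ofNat (nat_lit 630020912)), (.ofNat (nat_lit 630020944)), (.ofNat (nat_lit 8240448046503454153618)), (.negSucc (nat_lit 8240448046503454153617)), (.negSucc (nat_lit 8240448046503454153617)), (.ofNat (nat_lit 8240448046503454153618)), (.ofNat (nat_lit 0))⟩,
    ⟨nat_lit 0, nat_lit 15, nat_lit 14, (.ofNat (nat_lit 8)), (.negSucc (nat_lit 2014381503)), (.ofNat (nat_lit 32326562547389782888878146415488)), (.negSucc (nat_lit 1185060863)), (.ofNat (nat_lit 9778393585812711167184812027904)), (.negSucc (nat_lit 2014381519)), (.negSucc (nat_lit 2014381487)), (.negSucc (nat_lit 8240448046503454153617)), (.ofNat (nat_lit 8240448046503454153618)), (.negSucc (nat_lit 8240448046503454153617)), (.ofNat (nat_lit 8240448046503454153618)), (.ofNat (nat_lit 0))⟩,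
    ⟨nat_lit 2, nat_lit 15, nat_lit 16, (.ofNat (nat_lit 8)), (.negSucc (nat_lit 7030459071)), (.ofNat (nat_lit 73661289143725180103357822256512)), (.negSucc (nat_lit 1186371583)), (.ofNat (nat_lit 9789194505876224174613042212864)), (.negSucc (nat_lit 7030459087)), (.negSucc (nat_lit 7030459055)), (.negSucc (nat_lit 8240448046503454153617)), (.ofNat (nat_lit 8240448046503454153618)), (.negSucc (nat_lit 8240448046503454153617)), (.ofNat (nat_lit 8240448046503454153618)), (.ofNat (nat_lit 0))⟩,
    ⟨nat_lit 0, nat_lit 16, nat_lit 17, (.ofNat (nat_lit 8)), (.negSucc (nat_lit 6380538879)), (.ofNat (nat_lit 79016922720274729955540430311168)), (.negSucc (nat_lit 1186109439)), (.ofNat (nat_lit 9791354689888926776098688249856)), (.negSucc (nat_lit 6380538895)), (.negSucc (nat_lit 6380538863)), (.ofNat (nat_lit 8240448046503454153618)), (.negSucc (nat_lit 8240448046503454153617)), (.negSucc (nat_lit 8240448046503454153617)), (.ofNat (nat_lit 8240448046503454153618)), (.ofNat (nat_lit 0))⟩,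
    ⟨nat_lit 2, nat_lit 19, nat_lit 7, (.ofNat (nat_lit 8)), (.negSucc (nat_lit 5796512191)), (.ofNat (nat_lit 48292941413421939781615279273600)), (.negSucc (nat_lit 1186633727)), (.ofNat (nat_lit 9778393585812711167184812027904)), (.negSucc (nat_lit 5796512207)), (.negSucc (nat_lit 5796512175)), (.negSucc (nat_lit 8240448046503454153617)), (.ofNat (nat_lit 8240448046503454153618)), (.negSucc (nat_lit 8240448046503454153617)), (.ofNat (nat_lit 8240448046503454153618)), (.ofNat (nat_lit 0))⟩]
  es := [
    ⟨nat_lit 1, nat_lit 0, (.negSucc (nat_lit 7967703039)), (.negSucc (nat_lit 2927490815)), (.negSucc (nat_lit 7967703023)), (.negSucc (nat_lit 2927490831)), (.negSucc (nat_lit 8240448046503454153617)), (.ofNat (nat_lit 0)), (.ofNat (nat_lit 4320368025405202971292073984))⟩,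
    ⟨nat_lit 1, nat_lit 2, (.negSucc (nat_lit 7967703039)), (.negSucc (nat_lit 6404149247)), (.negSucc (nat_lit 7967703023)), (.negSucc (nat_lit 6404149263)), (.ofNat (nat_lit 8240448046503454153618)), (.ofNat (nat_lit 0)), (.ofNat (nat_lit 19569748275701637943283500277760))⟩,
    ⟨nat_lit 2, nat_lit 3, (.negSucc (nat_lit 6404149247)), (.negSucc (nat_lit 3184242047)), (.negSucc (nat_lit 6404149231)), (.negSucc (nat_lit 3184242063)), (.negSucc (nat_lit 8240448046503454153617)), (.ofNat (nat_lit 0)), (.ofNat (nat_lit 21601840127026014856460369920))⟩,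
    ⟨nat_lit 3, nat_lit 4, (.negSucc (nat_lit 3184242047)), (.negSucc (nat_lit 1025821759)), (.negSucc (nat_lit 3184242031)), (.negSucc (nat_lit 1025821775)), (.ofNat (nat_lit 8240448046503454153618)), (.ofNat (nat_lit 0)), (.ofNat (nat_lit 19552466803600017131398331981824))⟩,
    ⟨nat_lit 5, nat_lit 4, (.negSucc (nat_lit 4286902975)), (.negSucc (nat_lit 1025821759)), (.negSucc (nat_lit 4286902959)), (.negSucc (nat_lit 1025821775)), (.negSucc (nat_lit 8240448046503454153617)), (.ofNat (nat_lit 0)), (.ofNat (nat_lit 38883312228646826741628665856))⟩,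
    ⟨nat_lit 6, nat_lit 5, (.negSucc (nat_lit 7930807487)), (.negSucc (nat_lit 4286902975)), (.negSucc (nat_lit 7930807471)), (.negSucc (nat_lit 4286902991)), (.ofNat (nat_lit 8240448046503454153618)), (.ofNat (nat_lit 0)), (.ofNat (nat_lit 19574068643727043146254792351744))⟩,
    ⟨nat_lit 6, nat_lit 12, (.negSucc (nat_lit 7930807487)), (.negSucc (nat_lit 6741133503)), (.negSucc (nat_lit 7930807471)), (.negSucc (nat_lit 6741133519)), (.negSucc (nat_lit 8240448046503454153617)), (.ofNat (nat_lit 0)), (.ofNat (nat_lit 8640736050810405942584147968))⟩,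
    ⟨nat_lit 19, nat_lit 7, (.negSucc (nat_lit 5796512191)), (.negSucc (nat_lit 3571176191)), (.negSucc (nat_lit 5796512175)), (.negSucc (nat_lit 3571176207)), (.ofNat (nat_lit 8240448046503454153618)), (.ofNat (nat_lit 0)), (.ofNat (nat_lit 19556787171625422334369624055808))⟩,
    ⟨nat_lit 7, nat_lit 8, (.negSucc (nat_lit 3571176191)), (.ofNat (nat_lit 2238705280)), (.negSucc (nat_lit 3571176175)), (.ofNat (nat_lit 2238705264)), (.negSucc (nat_lit 8240448046503454153617)), (.ofNat (nat_lit 0)), (.ofNat (nat_lit 25922208152431217827752443904))⟩,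
    ⟨nat_lit 8, nat_lit 9, (.ofNat (nat_lit 2238705280)), (.ofNat (nat_lit 3729379584)), (.ofNat (nat_lit 2238705296)), (.ofNat (nat_lit 3729379568)), (.ofNat (nat_lit 8240448046503454153618)), (.ofNat (nat_lit 0)), (.ofNat (nat_lit 0))⟩,
    ⟨nat_lit 10, nat_lit 9, (.ofNat (nat_lit 762305088)), (.ofNat (nat_lit 3729379584)), (.ofNat (nat_lit 762305104)), (.ofNat (nat_lit 3729379568)), (.negSucc (nat_lit 8240448046503454153617)), (.ofNat (nat_lit 0)), (.ofNat (nat_lit 34562944203241623770336591872))⟩,
    ⟨nat_lit 12, nat_lit 11, (.negSucc (nat_lit 6741133503)), (.negSucc (nat_lit 5273212927)), (.negSucc (nat_lit 6741133487)), (.negSucc (nat_lit 5273212943)), (.ofNat (nat_lit 8240448046503454153618)), (.ofNat (nat_lit 0)), (.ofNat (nat_lit 19561107539650827537340916129792))⟩,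
    ⟨nat_lit 13, nat_lit 14, (.negSucc (nat_lit 1331913663)), (.ofNat (nat_lit 2234773120)), (.negSucc (nat_lit 1331913647)), (.ofNat (nat_lit 2234773104)), (.ofNat (nat_lit 8240448046503454153618)), (.ofNat (nat_lit 0)), (.ofNat (nat_lit 19539505699523801522484455759872))⟩,
    ⟨nat_lit 15, nat_lit 14, (.ofNat (nat_lit 630020928)), (.ofNat (nat_lit 2234773120)), (.ofNat (nat_lit 630020944)), (.ofNat (nat_lit 2234773104)), (.negSucc (nat_lit 8240448046503454153617)), (.ofNat (nat_lit 0)), (.ofNat (nat_lit 30242576177836420799044517888))⟩,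
    ⟨nat_lit 16, nat_lit 15, (.negSucc (nat_lit 2014381503)), (.ofNat (nat_lit 630020928)), (.negSucc (nat_lit 2014381487)), (.ofNat (nat_lit 630020912)), (.ofNat (nat_lit 8240448046503454153618)), (.ofNat (nat_lit 0)), (.ofNat (nat_lit 19543826067549206725455747833856))⟩,
    ⟨nat_lit 17, nat_lit 16, (.negSucc (nat_lit 7030459071)), (.negSucc (nat_lit 2014381503)), (.negSucc (nat_lit 7030459055)), (.negSucc (nat_lit 2014381519)), (.negSucc (nat_lit 8240448046503454153617)), (.ofNat (nat_lit 0)), (.ofNat (nat_lit 12961104076215608913876221952))⟩,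
    ⟨nat_lit 17, nat_lit 18, (.negSucc (nat_lit 7030459071)), (.negSucc (nat_lit 6380538879)), (.negSucc (nat_lit 7030459055)), (.negSucc (nat_lit 6380538895)), (.ofNat (nat_lit 8240448046503454153618)), (.ofNat (nat_lit 0)), (.ofNat (nat_lit 19565427907676232740312208203776))⟩,
    ⟨nat_lit 18, nat_lit 11, (.negSucc (nat_lit 6380538879)), (.negSucc (nat_lit 5273212927)), (.negSucc (nat_lit 6380538863)), (.negSucc (nat_lit 5273212943)), (.negSucc (nat_lit 8240448046503454153617)), (.ofNat (nat_lit 0)), (.ofNat (nat_lit 17281472101620811885168295936))⟩,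
    ⟨nat_lit 0, nat_lit 10, (.negSucc (nat_lit 2927490815)), (.ofNat (nat_lit 762305088)), (.negSucc (nat_lit 2927490799)), (.ofNat (nat_lit 762305072)), (.ofNat (nat_lit 8240448046503454153618)), (.ofNat (nat_lit 0)), (.ofNat (nat_lit 19548146435574611928427039907840))⟩,
    ⟨nat_lit 19, nat_lit 13, (.negSucc (nat_lit 5796512191)), (.negSucc (nat_lit 1331913663)), (.negSucc (nat_lit 5796512175)), (.negSucc (nat_lit 1331913679)), (.negSucc (nat_lit 8240448046503454153617)), (.ofNat (nat_lit 0)), (.ofNat (nat_lit 0))⟩]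

theorem ok108 : stOK 19 19 S108 = true := by decide +kernel

def S109 : SD where
  vs := [
    ⟨nat_lit 0, nat_lit 0, nat_lit 18, (.ofNat (nat_lit 8)), (.negSucc (nat_lit 2927490815)), (.ofNat (nat_lit 25474877819956711305024139231232)), (.ofNat (nat_lit 0)), (.ofNat (nat_lit 391921197230103250845682297600)), (.negSucc (nat_lit 2927490831)), (.negSucc (nat_lit 2927490799)), (.negSucc (nat_lit 8369205047230070624767)), (.ofNat (nat_lit 8369205047230070624768)), (.negSucc (nat_lit 8369205047230070624767)), (.ofNat (nat_lit 8369205047230070624768)), (.ofNat (nat_lit 772542004359698826900))⟩,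
    ⟨nat_lit 2, nat_lit 0, nat_lit 1, (.ofNat (nat_lit 8)), (.negSucc (nat_lit 7967703039)), (.ofNat (nat_lit 67657447404168210608363129995264)), (.ofNat (nat_lit 0)), (.ofNat (nat_lit 1040883806217972470895655635200)), (.negSucc (nat_lit 7967703055)), (.negSucc (nat_lit 7967703023)), (.negSucc (nat_lit 8369205047230070624767)), (.ofNat (nat_lit 8369205047230070624768)), (.negSucc (nat_lit 8369205047230070624767)), (.ofNat (nat_lit 8369205047230070624768)), (.ofNat (nat_lit 772542004359698826900))⟩,
    ⟨nat_lit 0, nat_lit 1, nat_lit 2, (.ofNat (nat_lit 8)), (.negSucc (nat_lit 6404149247)), (.ofNat (nat_lit 80743149691790326630146945515520)), (.ofNat (nat_lit 0)), (.ofNat (nat_lit 1242202302950620409691896736000)), (.negSucc (nat_lit 6404149263)), (.negSucc (nat_lit 6404149231)), (.ofNat (nat_lit 8369205047230070624768)), (.negSucc (nat_lit 8369205047230070624767)), (.negSucc (nat_lit 8369205047230070624767)), (.ofNat (nat_lit 8369205047230070624768)), (.ofNat (nat_lit 772542004359698826900))⟩,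
    ⟨nat_lit 0, nat_lit 2, nat_lit 3, (.ofNat (nat_lit 8)), (.negSucc (nat_lit 3184242047)), (.ofNat (nat_lit 53795086101937882168947963985920)), (.ofNat (nat_lit 0)), (.ofNat (nat_lit 827616709260582802597419456000)), (.negSucc (nat_lit 3184242063)), (.negSucc (nat_lit 3184242031)), (.negSucc (nat_lit 8369205047230070624767)), (.ofNat (nat_lit 8369205047230070624768)), (.negSucc (nat_lit 8369205047230070624767)), (.ofNat (nat_lit 8369205047230070624768)), (.ofNat (nat_lit 772542004359698826900))⟩,
    ⟨nat_lit 1, nat_lit 3, nat_lit 4, (.ofNat (nat_lit 8)), (.negSucc (nat_lit 1025821759)), (.ofNat (nat_lit 71859348070311264809120050479104)), (.ofNat (nat_lit 0)), (.ofNat (nat_lit 1105528431850942535522546147200)), (.negSucc (nat_lit 1025821775)), (.negSucc (nat_lit 1025821743)), (.ofNat (nat_lit 8369205047230070624768)), (.negSucc (nat_lit 8369205047230070624767)), (.negSucc (nat_lit 8369205047230070624767)), (.ofNat (nat_lit 8369205047230070624768)), (.ofNat (nat_lit 772542004359698826900))⟩,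
    ⟨nat_lit 0, nat_lit 5, nat_lit 4, (.ofNat (nat_lit 8)), (.negSucc (nat_lit 4286902975)), (.ofNat (nat_lit 99152005442685640953904359636992)), (.ofNat (nat_lit 0)), (.ofNat (nat_lit 1525415468349009860826017065600)), (.negSucc (nat_lit 4286902991)), (.negSucc (nat_lit 4286902959)), (.ofNat (nat_lit 8369205047230070624768)), (.negSucc (nat_lit 8369205047230070624767)), (.negSucc (nat_lit 8369205047230070624767)), (.ofNat (nat_lit 8369205047230070624768)), (.ofNat (nat_lit 772542004359698826900))⟩,
    ⟨nat_lit 2, nat_lit 6, nat_lit 5, (.ofNat (nat_lit 8)), (.negSucc (nat_lit 7930807487)), (.ofNat (nat_lit 68655421409230813502233585483776)), (.ofNat (nat_lit 0)), (.ofNat (nat_lit 1056237252449704823109014236800)), (.negSucc (nat_lit 7930807503)), (.negSucc (nat_lit 7930807471)), (.negSucc (nat_lit 8369205047230070624767)), (.ofNat (nat_lit 8369205047230070624768)), (.negSucc (nat_lit 8369205047230070624767)), (.ofNat (nat_lit 8369205047230070624768)), (.ofNat (nat_lit 772542004359698826900))⟩,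
    ⟨nat_lit 0, nat_lit 7, nat_lit 8, (.ofNat (nat_lit 8)), (.negSucc (nat_lit 3571176191)), (.ofNat (nat_lit 67671811906008939728243857817600)), (.ofNat (nat_lit 0)), (.ofNat (nat_lit 1041104798573189294232912896000)), (.negSucc (nat_lit 3571176207)), (.negSucc (nat_lit 3571176175)), (.ofNat (nat_lit 8369205047238835905024)), (.negSucc (nat_lit 8369205088455001057120)), (.negSucc (nat_lit 8369205088455001057120)), (.ofNat (nat_lit 8369205047238835905024)), (.ofNat (nat_lit 772542086844620812630))⟩,
    ⟨nat_lit 0, nat_lit 8, nat_lit 9, (.ofNat (nat_lit 8)), (.ofNat (nat_lit 2238705280)), (.ofNat (nat_lit 19047722327226107980736146255488)), (.ofNat (nat_lit 0)), (.ofNat (nat_lit 293041646149370217831861299584)), (.ofNat (nat_lit 2238705264)), (.ofNat (nat_lit 2238705296)), (.negSucc (nat_lit 8369205088455001057120)), (.ofNat (nat_lit 8369205207890553714247)), (.negSucc (nat_lit 8369205088455001057120)), (.ofNat (nat_lit 8369205207890553714247)), (.ofNat (nat_lit 772542490580386735270))⟩,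
    ⟨nat_lit 1, nat_lit 9, nat_lit 10, (.ofNat (nat_lit 8)), (.ofNat (nat_lit 3729379584)), (.ofNat (nat_lit 31523481475531534446895907864576)), (.ofNat (nat_lit 0)), (.ofNat (nat_lit 484976638085100529951201676800)), (.ofNat (nat_lit 3729379568)), (.ofNat (nat_lit 3729379600)), (.ofNat (nat_lit 8369205207890553714247)), (.negSucc (nat_lit 8369205047230070624767)), (.negSucc (nat_lit 8369205047230070624767)), (.ofNat (nat_lit 8369205207890553714247)), (.ofNat (nat_lit 772542647001631184816))⟩,
    ⟨nat_lit 0, nat_lit 18, nat_lit 10, (.ofNat (nat_lit 8)), (.ofNat (nat_lit 762305088)), (.ofNat (nat_lit 56355536322962352441923826581504)), (.ofNat (nat_lit 0)), (.ofNat (nat_lit 867008251122497729873886467200)), (.ofNat (nat_lit 762305072)), (.ofNat (nat_lit 762305104)), (.ofNat (nat_lit 8369205047230070624768)), (.negSucc (nat_lit 8369205047230070624767)), (.negSucc (nat_lit 8369205047230070624767)), (.ofNat (nat_lit 8369205047230070624768)), (.ofNat (nat_lit 772542004359698826900))⟩,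
    ⟨nat_lit 1, nat_lit 11, nat_lit 17, (.ofNat (nat_lit 8)), (.negSucc (nat_lit 5273212927)), (.ofNat (nat_lit 70984124191371779693494592274432)), (.ofNat (nat_lit 0)), (.ofNat (nat_lit 1092063449098027379897568057600)), (.negSucc (nat_lit 5273212943)), (.negSucc (nat_lit 5273212911)), (.ofNat (nat_lit 8369205047230070624768)), (.negSucc (nat_lit 8369205047230070624767)), (.negSucc (nat_lit 8369205047230070624767)), (.ofNat (nat_lit 8369205047230070624768)), (.ofNat (nat_lit 772542004359698826900))⟩,
    ⟨nat_lit 0, nat_lit 6, nat_lit 11, (.ofNat (nat_lit 8)), (.negSucc (nat_lit 6741133503)), (.ofNat (nat_lit 58698795897779707217464469848064)), (.ofNat (nat_lit 0)), (.ofNat (nat_lit 903058398427380111035972675200)), (.negSucc (nat_lit 6741133519)), (.negSucc (nat_lit 6741133487)), (.negSucc (nat_lit 8369205047230070624767)), (.ofNat (nat_lit 8369205047230070624768)), (.negSucc (nat_lit 8369205047230070624767)), (.ofNat (nat_lit 8369205047230070624768)), (.ofNat (nat_lit 772542004359698826900))⟩,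
    ⟨nat_lit 0, nat_lit 19, nat_lit 12, (.ofNat (nat_lit 8)), (.negSucc (nat_lit 1331913663)), (.ofNat (nat_lit 11682378088613113802026116612096)), (.ofNat (nat_lit 0)), (.ofNat (nat_lit 179728893670970981569246012800)), (.negSucc (nat_lit 1331913679)), (.negSucc (nat_lit 1331913647)), (.negSucc (nat_lit 8369205047230070624767)), (.ofNat (nat_lit 8369205047230070624768)), (.negSucc (nat_lit 8369205047230070624767)), (.ofNat (nat_lit 8369205047230070624768)), (.ofNat (nat_lit 772542004359698826900))⟩,
    ⟨nat_lit 1, nat_lit 12, nat_lit 13, (.ofNat (nat_lit 8)), (.ofNat (nat_lit 2234773120)), (.ofNat (nat_lit 41532711123154702506772765278208)), (.ofNat (nat_lit 0)), (.ofNat (nat_lit 638964786510072346256668294400)), (.ofNat (nat_lit 2234773104)), (.ofNat (nat_lit 2234773136)), (.ofNat (nat_lit 8369205047230070624768)), (.negSucc (nat_lit 8369205047230070624767)), (.negSucc (nat_lit 8369205047230070624767)), (.ofNat (nat_lit 8369205047230070624768)), (.ofNat (nat_lit 772542004359698826900))⟩,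
    ⟨nat_lit 0, nat_lit 14, nat_lit 13, (.ofNat (nat_lit 8)), (.ofNat (nat_lit 630020928)), (.ofNat (nat_lit 54963211267994621870184022769664)), (.ofNat (nat_lit 0)), (.ofNat (nat_lit 845587865661455721077935555200)), (.ofNat (nat_lit 630020912)), (.ofNat (nat_lit 630020944)), (.ofNat (nat_lit 8369205047230070624768)), (.negSucc (nat_lit 8369205047230070624767)), (.negSucc (nat_lit 8369205047230070624767)), (.ofNat (nat_lit 8369205047230070624768)), (.ofNat (nat_lit 772542004359698826900))⟩,
    ⟨nat_lit 0, nat_lit 15, nat_lit 14, (.ofNat (nat_lit 8)), (.negSucc (nat_lit 2014381503)), (.ofNat (nat_lit 32831665087192748246515764133888)), (.ofNat (nat_lit 0)), (.ofNat (nat_lit 505102539802965357637617718400)), (.negSucc (nat_lit 2014381519)), (.negSucc (nat_lit 2014381487)), (.negSucc (nat_lit 8369205047230070624767)), (.ofNat (nat_lit 8369205047230070624768)), (.negSucc (nat_lit 8369205047230070624767)), (.ofNat (nat_lit 8369205047230070624768)), (.ofNat (nat_lit 772542004359698826900))⟩,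
    ⟨nat_lit 2, nat_lit 15, nat_lit 16, (.ofNat (nat_lit 8)), (.negSucc (nat_lit 7030459071)), (.ofNat (nat_lit 74812246786595886042470274138112)), (.ofNat (nat_lit 0)), (.ofNat (nat_lit 1150957642870705939112451881600)), (.negSucc (nat_lit 7030459087)), (.negSucc (nat_lit 7030459055)), (.negSucc (nat_lit 8369205047230070624767)), (.ofNat (nat_lit 8369205047230070624768)), (.negSucc (nat_lit 8369205047230070624767)), (.ofNat (nat_lit 8369205047230070624768)), (.ofNat (nat_lit 772542004359698826900))⟩,
    ⟨nat_lit 0, nat_lit 16, nat_lit 17, (.ofNat (nat_lit 8)), (.negSucc (nat_lit 6380538879)), (.ofNat (nat_lit 80251562137779022611093052653568)), (.ofNat (nat_lit 0)), (.ofNat (nat_lit 1234639417504292655552622342400)), (.negSucc (nat_lit 6380538895)), (.negSucc (nat_lit 6380538863)), (.ofNat (nat_lit 8369205047230070624768)), (.negSucc (nat_lit 8369205047230070624767)), (.negSucc (nat_lit 8369205047230070624767)), (.ofNat (nat_lit 8369205047230070624768)), (.ofNat (nat_lit 772542004359698826900))⟩,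
    ⟨nat_lit 2, nat_lit 19, nat_lit 7, (.ofNat (nat_lit 8)), (.negSucc (nat_lit 5796512191)), (.ofNat (nat_lit 49047518623006657590701369753600)), (.ofNat (nat_lit 0)), (.ofNat (nat_lit 754577209584717809086090480000)), (.negSucc (nat_lit 5796512207)), (.negSucc (nat_lit 5796512175)), (.negSucc (nat_lit 8369205047230070624767)), (.ofNat (nat_lit 8369205047238835905024)), (.negSucc (nat_lit 8369205047230070624767)), (.ofNat (nat_lit 8369205047238835905024)), (.ofNat (nat_lit 772542004377229387412))⟩]
  es := [
    ⟨nat_lit 1, nat_lit 0, (.negSucc (nat_lit 7967703039)), (.negSucc (nat_lit 2927490815)), (.negSucc (nat_lit 7967703023)), (.negSucc (nat_lit 2927490831)), (.negSucc (nat_lit 8369205047230070624767)), (.negSucc (nat_lit 128757000726616471149)), (.ofNat (nat_lit 14986260107228204799728339200))⟩,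
    ⟨nat_lit 1, nat_lit 2, (.negSucc (nat_lit 7967703039)), (.negSucc (nat_lit 6404149247)), (.negSucc (nat_lit 7967703023)), (.negSucc (nat_lit 6404149263)), (.ofNat (nat_lit 8369205047230070624768)), (.ofNat (nat_lit 128757000726616471150)), (.ofNat (nat_lit 2066781352328716736991582931200))⟩,
    ⟨nat_lit 2, nat_lit 3, (.negSucc (nat_lit 6404149247)), (.negSucc (nat_lit 3184242047)), (.negSucc (nat_lit 6404149231)), (.negSucc (nat_lit 3184242063)), (.negSucc (nat_lit 8369205047230070624767)), (.negSucc (nat_lit 128757000726616471149)), (.ofNat (nat_lit 417623253572524082392210540800))⟩,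
    ⟨nat_lit 3, nat_lit 4, (.negSucc (nat_lit 3184242047)), (.negSucc (nat_lit 1025821759)), (.negSucc (nat_lit 3184242031)), (.negSucc (nat_lit 1025821775)), (.ofNat (nat_lit 8369205047230070624768)), (.ofNat (nat_lit 128757000726616471150)), (.ofNat (nat_lit 1237610164948641522802628371200))⟩,
    ⟨nat_lit 5, nat_lit 4, (.negSucc (nat_lit 4286902975)), (.negSucc (nat_lit 1025821759)), (.negSucc (nat_lit 4286902959)), (.negSucc (nat_lit 1025821775)), (.negSucc (nat_lit 8369205047230070624767)), (.negSucc (nat_lit 128757000726616471149)), (.ofNat (nat_lit 973446698753243548242463923200))⟩,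
    ⟨nat_lit 6, nat_lit 5, (.negSucc (nat_lit 7930807487)), (.negSucc (nat_lit 4286902975)), (.negSucc (nat_lit 7930807471)), (.negSucc (nat_lit 4286902991)), (.ofNat (nat_lit 8369205047230070624768)), (.ofNat (nat_lit 128757000726616471150)), (.ofNat (nat_lit 2077384237944776173409570208000))⟩,
    ⟨nat_lit 6, nat_lit 12, (.negSucc (nat_lit 7930807487)), (.negSucc (nat_lit 6741133503)), (.negSucc (nat_lit 7930807471)), (.negSucc (nat_lit 6741133519)), (.negSucc (nat_lit 8369205047230070624767)), (.negSucc (nat_lit 128757000726616471149)), (.ofNat (nat_lit 35090266954633472808458265600))⟩,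
    ⟨nat_lit 19, nat_lit 7, (.negSucc (nat_lit 5796512191)), (.negSucc (nat_lit 3571176191)), (.negSucc (nat_lit 5796512175)), (.negSucc (nat_lit 3571176207)), (.ofNat (nat_lit 8369205047238835905024)), (.ofNat (nat_lit 128757000735381751406)), (.ofNat (nat_lit 1500918734152711096885282621952))⟩,
    ⟨nat_lit 7, nat_lit 8, (.negSucc (nat_lit 3571176191)), (.ofNat (nat_lit 2238705280)), (.negSucc (nat_lit 3571176175)), (.ofNat (nat_lit 2238705264)), (.negSucc (nat_lit 8369205088455001057120)), (.negSucc (nat_lit 128757041951546903502)), (.ofNat (nat_lit 581290715803479774871677895424))⟩,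
    ⟨nat_lit 8, nat_lit 9, (.ofNat (nat_lit 2238705280)), (.ofNat (nat_lit 3729379584)), (.ofNat (nat_lit 2238705296)), (.ofNat (nat_lit 3729379568)), (.ofNat (nat_lit 8369205207890553714247)), (.ofNat (nat_lit 128757161387099560629)), (.ofNat (nat_lit 4792309114258307566038878464))⟩,
    ⟨nat_lit 10, nat_lit 9, (.ofNat (nat_lit 762305088)), (.ofNat (nat_lit 3729379584)), (.ofNat (nat_lit 762305104)), (.ofNat (nat_lit 3729379568)), (.negSucc (nat_lit 8369205047230070624767)), (.negSucc (nat_lit 128757000726616471149)), (.ofNat (nat_lit 965160367892017162856136678400))⟩,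
    ⟨nat_lit 12, nat_lit 11, (.negSucc (nat_lit 6741133503)), (.negSucc (nat_lit 5273212927)), (.negSucc (nat_lit 6741133487)), (.negSucc (nat_lit 5273212943)), (.ofNat (nat_lit 8369205047230070624768)), (.ofNat (nat_lit 128757000726616471150)), (.ofNat (nat_lit 1771026529900126749263487084800))⟩,
    ⟨nat_lit 13, nat_lit 14, (.negSucc (nat_lit 1331913663)), (.ofNat (nat_lit 2234773120)), (.negSucc (nat_lit 1331913647)), (.ofNat (nat_lit 2234773104)), (.ofNat (nat_lit 8369205047230070624768)), (.ofNat (nat_lit 128757000726616471150)), (.ofNat (nat_lit 351222102274409387981392806400))⟩,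
    ⟨nat_lit 15, nat_lit 14, (.ofNat (nat_lit 630020928)), (.ofNat (nat_lit 2234773120)), (.ofNat (nat_lit 630020944)), (.ofNat (nat_lit 2234773104)), (.negSucc (nat_lit 8369205047230070624767)), (.negSucc (nat_lit 128757000726616471149)), (.ofNat (nat_lit 926707470745735304531943782400))⟩,
    ⟨nat_lit 16, nat_lit 15, (.negSucc (nat_lit 2014381503)), (.ofNat (nat_lit 630020928)), (.negSucc (nat_lit 2014381487)), (.ofNat (nat_lit 630020912)), (.ofNat (nat_lit 8369205047230070624768)), (.ofNat (nat_lit 128757000726616471150)), (.ofNat (nat_lit 764468260577176137623927328000))⟩,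
    ⟨nat_lit 17, nat_lit 16, (.negSucc (nat_lit 7030459071)), (.negSucc (nat_lit 2014381503)), (.negSucc (nat_lit 7030459055)), (.negSucc (nat_lit 2014381519)), (.negSucc (nat_lit 8369205047230070624767)), (.negSucc (nat_lit 128757000726616471149)), (.ofNat (nat_lit 245736819028754577651308108800))⟩,
    ⟨nat_lit 17, nat_lit 18, (.negSucc (nat_lit 7030459071)), (.negSucc (nat_lit 6380538879)), (.negSucc (nat_lit 7030459055)), (.negSucc (nat_lit 6380538895)), (.ofNat (nat_lit 8369205047230070624768)), (.ofNat (nat_lit 128757000726616471150)), (.ofNat (nat_lit 2056178466712657300573595654400))⟩,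
    ⟨nat_lit 18, nat_lit 11, (.negSucc (nat_lit 6380538879)), (.negSucc (nat_lit 5273212927)), (.negSucc (nat_lit 6380538863)), (.negSucc (nat_lit 5273212943)), (.negSucc (nat_lit 8369205047230070624767)), (.negSucc (nat_lit 128757000726616471149)), (.ofNat (nat_lit 413100368295928010531649030400))⟩,
    ⟨nat_lit 0, nat_lit 10, (.negSucc (nat_lit 2927490815)), (.ofNat (nat_lit 762305088)), (.negSucc (nat_lit 2927490799)), (.ofNat (nat_lit 762305072)), (.ofNat (nat_lit 8369205047230070624768)), (.ofNat (nat_lit 128757000726616471150)), (.ofNat (nat_lit 768856134352978296891636256000))⟩,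
    ⟨nat_lit 19, nat_lit 13, (.negSucc (nat_lit 5796512191)), (.negSucc (nat_lit 1331913663)), (.negSucc (nat_lit 5796512175)), (.negSucc (nat_lit 1331913679)), (.negSucc (nat_lit 8369205047230070624767)), (.negSucc (nat_lit 128757000726616471149)), (.ofNat (nat_lit 8235685067532575157099219200))⟩]

theorem ok109 : stOK 19 19 S109 = true := by decide +kernel

def S110 : SD where
  vs := [
    ⟨nat_lit 0, nat_lit 0, nat_lit 18, (.ofNat (nat_lit 8)), (.negSucc (nat_lit 2928015103)), (.ofNat (nat_lit 25483653567508315623559575961600)), (.negSucc (nat_lit 524287)), (.ofNat (nat_lit 8775747551604318535436730368)), (.negSucc (nat_lit 2928015119)), (.negSucc (nat_lit 2928015087)), (.negSucc (nat_lit 8369205047230070624767)), (.ofNat (nat_lit 8369205047230070624768)), (.negSucc (nat_lit 8369205047230070624767)), (.ofNat (nat_lit 8369205047230070624768)), (.ofNat (nat_lit 0))⟩,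
    ⟨nat_lit 2, nat_lit 0, nat_lit 1, (.ofNat (nat_lit 8)), (.negSucc (nat_lit 7969538047)), (.ofNat (nat_lit 67677192836159320325067862638592)), (.negSucc (nat_lit 1835007)), (.ofNat (nat_lit 19745431991109716704732643328)), (.negSucc (nat_lit 7969538063)), (.negSucc (nat_lit 7969538031)), (.negSucc (nat_lit 8369205047230070624767)), (.ofNat (nat_lit 8369205047230070624768)), (.negSucc (nat_lit 8369205047230070624767)), (.ofNat (nat_lit 8369205047230070624768)), (.ofNat (nat_lit 0))⟩,
    ⟨nat_lit 0, nat_lit 1, nat_lit 2, (.ofNat (nat_lit 8)), (.negSucc (nat_lit 6404935679)), (.ofNat (nat_lit 80771670871333040665387114889216)), (.negSucc (nat_lit 786431)), (.ofNat (nat_lit 28521179542714035240169373696)), (.negSucc (nat_lit 6404935695)), (.negSucc (nat_lit 6404935663)), (.ofNat (nat_lit 8369205047230070624768)), (.negSucc (nat_lit 8369205047230070624767)), (.negSucc (nat_lit 8369205047230070624767)), (.ofNat (nat_lit 8369205047230070624768)), (.ofNat (nat_lit 0))⟩,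
    ⟨nat_lit 0, nat_lit 2, nat_lit 3, (.ofNat (nat_lit 8)), (.negSucc (nat_lit 3183979903)), (.ofNat (nat_lit 53814831533928991885652696629248)), (.ofNat (nat_lit 262144)), (.ofNat (nat_lit 19745431991109716704732643328)), (.negSucc (nat_lit 3183979919)), (.negSucc (nat_lit 3183979887)), (.negSucc (nat_lit 8369205047230070624767)), (.ofNat (nat_lit 8369205047230070624768)), (.negSucc (nat_lit 8369205047230070624767)), (.ofNat (nat_lit 8369205047230070624768)), (.ofNat (nat_lit 0))⟩,
    ⟨nat_lit 1, nat_lit 3, nat_lit 4, (.ofNat (nat_lit 8)), (.ofNat (nat_lit 333354816)), (.ofNat (nat_lit 83252127025350559122201274974208)), (.ofNat (nat_lit 1359176576)), (.ofNat (nat_lit 11392778955039294313081224495104)), (.ofNat (nat_lit 333354800)), (.ofNat (nat_lit 333354832)), (.ofNat (nat_lit 8369205047230070624768)), (.negSucc (nat_lit 8369205047230070624767)), (.negSucc (nat_lit 8369205047230070624767)), (.ofNat (nat_lit 8369205047230070624768)), (.ofNat (nat_lit 0))⟩,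
    ⟨nat_lit 0, nat_lit 5, nat_lit 4, (.ofNat (nat_lit 8)), (.negSucc (nat_lit 2929037119)), (.ofNat (nat_lit 110555754082164440665154880045056)), (.ofNat (nat_lit 1357865856)), (.ofNat (nat_lit 11403748639478799711250520408064)), (.negSucc (nat_lit 2929037135)), (.negSucc (nat_lit 2929037103)), (.ofNat (nat_lit 8369205047230070624768)), (.negSucc (nat_lit 8369205047230070624767)), (.negSucc (nat_lit 8369205047230070624767)), (.ofNat (nat_lit 8369205047230070624768)), (.ofNat (nat_lit 0))⟩,
    ⟨nat_lit 2, nat_lit 6, nat_lit 5, (.ofNat (nat_lit 8)), (.negSucc (nat_lit 7932642495)), (.ofNat (nat_lit 68679554714997725378206036492288)), (.negSucc (nat_lit 1835007)), (.ofNat (nat_lit 24133305766911875972451008512)), (.negSucc (nat_lit 7932642511)), (.negSucc (nat_lit 7932642479)), (.negSucc (nat_lit 8369205047230070624767)), (.ofNat (nat_lit 8369205047230070624768)), (.negSucc (nat_lit 8369205047230070624767)), (.ofNat (nat_lit 8369205047230070624768)), (.ofNat (nat_lit 0))⟩,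
    ⟨nat_lit 0, nat_lit 7, nat_lit 8, (.ofNat (nat_lit 8)), (.negSucc (nat_lit 2212786047)), (.ofNat (nat_lit 79062396924172251120828508471296)), (.ofNat (nat_lit 1358390144)), (.ofNat (nat_lit 11390585018163311392584650653696)), (.negSucc (nat_lit 2212786063)), (.negSucc (nat_lit 2212786031)), (.ofNat (nat_lit 8369205047238835905024)), (.negSucc (nat_lit 8369205088455001057120)), (.negSucc (nat_lit 8369205088455001057120)), (.ofNat (nat_lit 8369205047238835905024)), (.ofNat (nat_lit 0))⟩,
    ⟨nat_lit 0, nat_lit 8, nat_lit 9, (.ofNat (nat_lit 8)), (.ofNat (nat_lit 3598406144)), (.ofNat (nat_lit 30427337660895879634335207272064)), (.ofNat (nat_lit 1359700864)), (.ofNat (nat_lit 11379615333669771653599061016576)), (.ofNat (nat_lit 3598406128)), (.ofNat (nat_lit 3598406160)), (.negSucc (nat_lit 8369205088455001057120)), (.ofNat (nat_lit 8369205207890553714247)), (.negSucc (nat_lit 8369205088455001057120)), (.ofNat (nat_lit 8369205207890553714247)), (.ofNat (nat_lit 0))⟩,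
    ⟨nat_lit 1, nat_lit 9, nat_lit 10, (.ofNat (nat_lit 8)), (.ofNat (nat_lit 5089342592)), (.ofNat (nat_lit 42905290746131323361807836446720)), (.ofNat (nat_lit 1359963008)), (.ofNat (nat_lit 11381809270599788914911928582144)), (.ofNat (nat_lit 5089342576)), (.ofNat (nat_lit 5089342608)), (.ofNat (nat_lit 8369205207890553714247)), (.negSucc (nat_lit 8369205047230070624767)), (.negSucc (nat_lit 8369205047230070624767)), (.ofNat (nat_lit 8369205207890553714247)), (.ofNat (nat_lit 0))⟩,
    ⟨nat_lit 0, nat_lit 18, nat_lit 10, (.ofNat (nat_lit 8)), (.ofNat (nat_lit 2121481664)), (.ofNat (nat_lit 67743927404225844595737332711424)), (.ofNat (nat_lit 1359176576)), (.ofNat (nat_lit 11388391081263492153813506129920)), (.ofNat (nat_lit 2121481648)), (.ofNat (nat_lit 2121481680)), (.ofNat (nat_lit 8369205047230070624768)), (.negSucc (nat_lit 8369205047230070624767)), (.negSucc (nat_lit 8369205047230070624767)), (.ofNat (nat_lit 8369205047230070624768)), (.ofNat (nat_lit 0))⟩,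
    ⟨nat_lit 1, nat_lit 11, nat_lit 17, (.ofNat (nat_lit 8)), (.negSucc (nat_lit 5273737215)), (.ofNat (nat_lit 71006063560250790489833184100352)), (.negSucc (nat_lit 524287)), (.ofNat (nat_lit 21939368879010796338591825920)), (.negSucc (nat_lit 5273737231)), (.negSucc (nat_lit 5273737199)), (.ofNat (nat_lit 8369205047230070624768)), (.negSucc (nat_lit 8369205047230070624767)), (.negSucc (nat_lit 8369205047230070624767)), (.ofNat (nat_lit 8369205047230070624768)), (.ofNat (nat_lit 0))⟩,
    ⟨nat_lit 0, nat_lit 6, nat_lit 11, (.ofNat (nat_lit 8)), (.negSucc (nat_lit 6742182079)), (.ofNat (nat_lit 58716347392882915854535343308800)), (.negSucc (nat_lit 1048575)), (.ofNat (nat_lit 17551495103208637070873460736)), (.negSucc (nat_lit 6742182095)), (.negSucc (nat_lit 6742182063)), (.negSucc (nat_lit 8369205047230070624767)), (.ofNat (nat_lit 8369205047230070624768)), (.negSucc (nat_lit 8369205047230070624767)), (.ofNat (nat_lit 8369205047230070624768)), (.ofNat (nat_lit 0))⟩,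
    ⟨nat_lit 0, nat_lit 19, nat_lit 12, (.ofNat (nat_lit 8)), (.negSucc (nat_lit 1332175807)), (.ofNat (nat_lit 11684572025501014881659975794688)), (.negSucc (nat_lit 262143)), (.ofNat (nat_lit 2193936887901079633859182592)), (.negSucc (nat_lit 1332175823)), (.negSucc (nat_lit 1332175791)), (.negSucc (nat_lit 8369205047230070624767)), (.ofNat (nat_lit 8369205047230070624768)), (.negSucc (nat_lit 8369205047230070624767)), (.ofNat (nat_lit 8369205047230070624768)), (.ofNat (nat_lit 0))⟩,
    ⟨nat_lit 1, nat_lit 12, nat_lit 13, (.ofNat (nat_lit 8)), (.ofNat (nat_lit 2236083840)), (.ofNat (nat_lit 41548068681370010064209779556352)), (.ofNat (nat_lit 1310720)), (.ofNat (nat_lit 15357558215307557437014278144)), (.ofNat (nat_lit 2236083824)), (.ofNat (nat_lit 2236083856)), (.ofNat (nat_lit 8369205047230070624768)), (.negSucc (nat_lit 8369205047230070624767)), (.negSucc (nat_lit 8369205047230070624767)), (.ofNat (nat_lit 8369205047230070624768)), (.ofNat (nat_lit 0))⟩,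
    ⟨nat_lit 0, nat_lit 14, nat_lit 13, (.ofNat (nat_lit 8)), (.ofNat (nat_lit 631069504)), (.ofNat (nat_lit 54980762763097830507254896230400)), (.ofNat (nat_lit 1048576)), (.ofNat (nat_lit 17551495103208637070873460736)), (.ofNat (nat_lit 631069488)), (.ofNat (nat_lit 631069520)), (.ofNat (nat_lit 8369205047230070624768)), (.negSucc (nat_lit 8369205047230070624767)), (.negSucc (nat_lit 8369205047230070624767)), (.ofNat (nat_lit 8369205047230070624768)), (.ofNat (nat_lit 0))⟩,
    ⟨nat_lit 0, nat_lit 15, nat_lit 14, (.ofNat (nat_lit 8)), (.negSucc (nat_lit 2014119359)), (.ofNat (nat_lit 32842634771632253644685060046848)), (.ofNat (nat_lit 262144)), (.ofNat (nat_lit 10969684439505398169295912960)), (.negSucc (nat_lit 2014119375)), (.negSucc (nat_lit 2014119343)), (.negSucc (nat_lit 8369205047230070624767)), (.ofNat (nat_lit 8369205047230070624768)), (.negSucc (nat_lit 8369205047230070624767)), (.ofNat (nat_lit 8369205047230070624768)), (.ofNat (nat_lit 0))⟩,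
    ⟨nat_lit 2, nat_lit 15, nat_lit 16, (.ofNat (nat_lit 8)), (.negSucc (nat_lit 7031507647)), (.ofNat (nat_lit 74834186155474896838808865964032)), (.negSucc (nat_lit 1048575)), (.ofNat (nat_lit 21939368879010796338591825920)), (.negSucc (nat_lit 7031507663)), (.negSucc (nat_lit 7031507631)), (.negSucc (nat_lit 8369205047230070624767)), (.ofNat (nat_lit 8369205047230070624768)), (.negSucc (nat_lit 8369205047230070624767)), (.ofNat (nat_lit 8369205047230070624768)), (.ofNat (nat_lit 0))⟩,
    ⟨nat_lit 0, nat_lit 16, nat_lit 17, (.ofNat (nat_lit 8)), (.negSucc (nat_lit 6381325311)), (.ofNat (nat_lit 80275695443545934487065503662080)), (.negSucc (nat_lit 786431)), (.ofNat (nat_lit 24133305766911875972451008512)), (.negSucc (nat_lit 6381325327)), (.negSucc (nat_lit 6381325295)), (.ofNat (nat_lit 8369205047230070624768)), (.negSucc (nat_lit 8369205047230070624767)), (.negSucc (nat_lit 8369205047230070624767)), (.ofNat (nat_lit 8369205047230070624768)), (.ofNat (nat_lit 0))⟩,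
    ⟨nat_lit 2, nat_lit 19, nat_lit 7, (.ofNat (nat_lit 8)), (.negSucc (nat_lit 5797822911)), (.ofNat (nat_lit 49058488307446162988870665666560)), (.negSucc (nat_lit 1310719)), (.ofNat (nat_lit 10969684439505398169295912960)), (.negSucc (nat_lit 5797822927)), (.negSucc (nat_lit 5797822895)), (.negSucc (nat_lit 8369205047230070624767)), (.ofNat (nat_lit 8369205047238835905024)), (.negSucc (nat_lit 8369205047230070624767)), (.ofNat (nat_lit 8369205047238835905024)), (.ofNat (nat_lit 0))⟩]
  es := [
    ⟨nat_lit 1, nat_lit 0, (.negSucc (nat_lit 7969538047)), (.negSucc (nat_lit 2928015103)), (.negSucc (nat_lit 7969538031)), (.negSucc (nat_lit 2928015119)), (.negSucc (nat_lit 8369205047230070624767)), (.ofNat (nat_lit 0)), (.ofNat (nat_lit 4387873775802159267718365184))⟩,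
    ⟨nat_lit 1, nat_lit 2, (.negSucc (nat_lit 7969538047)), (.negSucc (nat_lit 6404935679)), (.negSucc (nat_lit 7969538031)), (.negSucc (nat_lit 6404935695)), (.ofNat (nat_lit 8369205047230070624768)), (.ofNat (nat_lit 0)), (.ofNat (nat_lit 35102990206417274141746921472))⟩,
    ⟨nat_lit 2, nat_lit 3, (.negSucc (nat_lit 6404935679)), (.negSucc (nat_lit 3183979903)), (.negSucc (nat_lit 6404935663)), (.negSucc (nat_lit 3183979919)), (.negSucc (nat_lit 8369205047230070624767)), (.ofNat (nat_lit 0)), (.ofNat (nat_lit 21939368879010796338591825920))⟩,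
    ⟨nat_lit 3, nat_lit 4, (.negSucc (nat_lit 3183979903)), (.ofNat (nat_lit 333354816)), (.negSucc (nat_lit 3183979887)), (.ofNat (nat_lit 333354800)), (.ofNat (nat_lit 8369205047230070624768)), (.ofNat (nat_lit 0)), (.ofNat (nat_lit 17551495103208637070873460736))⟩,
    ⟨nat_lit 5, nat_lit 4, (.negSucc (nat_lit 2929037119)), (.ofNat (nat_lit 333354816)), (.negSucc (nat_lit 2929037103)), (.ofNat (nat_lit 333354800)), (.negSucc (nat_lit 8369205047230070624767)), (.ofNat (nat_lit 0)), (.ofNat (nat_lit 22768006414975379989091575529472))⟩,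
    ⟨nat_lit 6, nat_lit 5, (.negSucc (nat_lit 7932642495)), (.negSucc (nat_lit 2929037119)), (.negSucc (nat_lit 7932642479)), (.negSucc (nat_lit 2929037135)), (.ofNat (nat_lit 8369205047230070624768)), (.ofNat (nat_lit 0)), (.ofNat (nat_lit 39490863982219433409465286656))⟩,
    ⟨nat_lit 6, nat_lit 12, (.negSucc (nat_lit 7932642495)), (.negSucc (nat_lit 6742182079)), (.negSucc (nat_lit 7932642479)), (.negSucc (nat_lit 6742182095)), (.negSucc (nat_lit 8369205047230070624767)), (.ofNat (nat_lit 0)), (.ofNat (nat_lit 8775747551604318535436730368))⟩,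
    ⟨nat_lit 19, nat_lit 7, (.negSucc (nat_lit 5797822911)), (.negSucc (nat_lit 2212786047)), (.negSucc (nat_lit 5797822895)), (.negSucc (nat_lit 2212786063)), (.ofNat (nat_lit 8369205047238835905024)), (.ofNat (nat_lit 0)), (.ofNat (nat_lit 21939368879022285166728970240))⟩,
    ⟨nat_lit 7, nat_lit 8, (.negSucc (nat_lit 2212786047)), (.ofNat (nat_lit 3598406144)), (.negSucc (nat_lit 2212786031)), (.ofNat (nat_lit 3598406128)), (.negSucc (nat_lit 8369205088455001057120)), (.ofNat (nat_lit 0)), (.ofNat (nat_lit 22759230723435233016087398069120))⟩,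
    ⟨nat_lit 8, nat_lit 9, (.ofNat (nat_lit 3598406144)), (.ofNat (nat_lit 5089342592)), (.ofNat (nat_lit 3598406160)), (.ofNat (nat_lit 5089342576)), (.ofNat (nat_lit 8369205207890553714247)), (.ofNat (nat_lit 0)), (.negSucc (nat_lit 218492313849100993992831))⟩,
    ⟨nat_lit 10, nat_lit 9, (.ofNat (nat_lit 2121481664)), (.ofNat (nat_lit 5089342592)), (.ofNat (nat_lit 2121481680)), (.ofNat (nat_lit 5089342576)), (.negSucc (nat_lit 8369205047230070624767)), (.ofNat (nat_lit 0)), (.ofNat (nat_lit 22763618541199577829823857164288))⟩,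
    ⟨nat_lit 12, nat_lit 11, (.negSucc (nat_lit 6742182079)), (.negSucc (nat_lit 5273737215)), (.negSucc (nat_lit 6742182063)), (.negSucc (nat_lit 5273737231)), (.ofNat (nat_lit 8369205047230070624768)), (.ofNat (nat_lit 0)), (.ofNat (nat_lit 26327242654812955606310191104))⟩,
    ⟨nat_lit 13, nat_lit 14, (.negSucc (nat_lit 1332175807)), (.ofNat (nat_lit 2236083840)), (.negSucc (nat_lit 1332175791)), (.ofNat (nat_lit 2236083824)), (.ofNat (nat_lit 8369205047230070624768)), (.ofNat (nat_lit 0)), (.ofNat (nat_lit 4387873775802159267718365184))⟩,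
    ⟨nat_lit 15, nat_lit 14, (.ofNat (nat_lit 631069504)), (.ofNat (nat_lit 2236083840)), (.ofNat (nat_lit 631069520)), (.ofNat (nat_lit 2236083824)), (.negSucc (nat_lit 8369205047230070624767)), (.ofNat (nat_lit 0)), (.ofNat (nat_lit 26327242654812955606310191104))⟩,
    ⟨nat_lit 16, nat_lit 15, (.negSucc (nat_lit 2014119359)), (.ofNat (nat_lit 631069504)), (.negSucc (nat_lit 2014119343)), (.ofNat (nat_lit 631069488)), (.ofNat (nat_lit 8369205047230070624768)), (.ofNat (nat_lit 0)), (.ofNat (nat_lit 8775747551604318535436730368))⟩,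
    ⟨nat_lit 17, nat_lit 16, (.negSucc (nat_lit 7031507647)), (.negSucc (nat_lit 2014119359)), (.negSucc (nat_lit 7031507631)), (.negSucc (nat_lit 2014119375)), (.negSucc (nat_lit 8369205047230070624767)), (.ofNat (nat_lit 0)), (.ofNat (nat_lit 13163621327406477803155095552))⟩,
    ⟨nat_lit 17, nat_lit 18, (.negSucc (nat_lit 7031507647)), (.negSucc (nat_lit 6381325311)), (.negSucc (nat_lit 7031507631)), (.negSucc (nat_lit 6381325327)), (.ofNat (nat_lit 8369205047230070624768)), (.ofNat (nat_lit 0)), (.ofNat (nat_lit 30715116430615114874028556288))⟩,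
    ⟨nat_lit 18, nat_lit 11, (.negSucc (nat_lit 6381325311)), (.negSucc (nat_lit 5273737215)), (.negSucc (nat_lit 6381325295)), (.negSucc (nat_lit 5273737231)), (.negSucc (nat_lit 8369205047230070624767)), (.ofNat (nat_lit 0)), (.ofNat (nat_lit 17551495103208637070873460736))⟩,
    ⟨nat_lit 0, nat_lit 10, (.negSucc (nat_lit 2928015103)), (.ofNat (nat_lit 2121481664)), (.negSucc (nat_lit 2928015087)), (.ofNat (nat_lit 2121481648)), (.ofNat (nat_lit 8369205047230070624768)), (.ofNat (nat_lit 0)), (.ofNat (nat_lit 13163621327406477803155095552))⟩,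
    ⟨nat_lit 19, nat_lit 13, (.negSucc (nat_lit 5797822911)), (.negSucc (nat_lit 1332175807)), (.negSucc (nat_lit 5797822895)), (.negSucc (nat_lit 1332175823)), (.negSucc (nat_lit 8369205047230070624767)), (.ofNat (nat_lit 0)), (.ofNat (nat_lit 0))⟩]

theorem ok110 : stOK 19 19 S110 = true := by decide +kernel

def S111 : SD where
  vs := [
    ⟨nat_lit 0, nat_lit 0, nat_lit 18, (.ofNat (nat_lit 8)), (.negSucc (nat_lit 2928015103)), (.ofNat (nat_lit 25881835654500633055177694336000)), (.ofNat (nat_lit 0)), (.ofNat (nat_lit 398182086992317431618118374400)), (.negSucc (nat_lit 2928015119)), (.negSucc (nat_lit 2928015087)), (.negSucc (nat_lit 8499973876093040478279)), (.ofNat (nat_lit 8499973876093040478280)), (.negSucc (nat_lit 8499973876093040478279)), (.ofNat (nat_lit 8499973876093040478280)), (.ofNat (nat_lit 784612973177819121072))⟩,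
    ⟨nat_lit 2, nat_lit 0, nat_lit 1, (.ofNat (nat_lit 8)), (.negSucc (nat_lit 7969538047)), (.ofNat (nat_lit 68734648974224309705147047992320)), (.ofNat (nat_lit 0)), (.ofNat (nat_lit 1057456138064989380079185353728)), (.negSucc (nat_lit 7969538063)), (.negSucc (nat_lit 7969538031)), (.negSucc (nat_lit 8499973876093040478279)), (.ofNat (nat_lit 8499973876093040478280)), (.negSucc (nat_lit 8499973876093040478279)), (.ofNat (nat_lit 8499973876093040478280)), (.ofNat (nat_lit 784612973177819121072))⟩,
    ⟨nat_lit 0, nat_lit 1, nat_lit 2, (.ofNat (nat_lit 8)), (.negSucc (nat_lit 6404935679)), (.ofNat (nat_lit 82033728228697619425783788559360)), (.ofNat (nat_lit 0)), (.ofNat (nat_lit 1262057357364578760396673670144)), (.negSucc (nat_lit 6404935695)), (.negSucc (nat_lit 6404935663)), (.ofNat (nat_lit 8499973876093040478280)), (.negSucc (nat_lit 8499973876093040478279)), (.negSucc (nat_lit 8499973876093040478279)), (.ofNat (nat_lit 8499973876093040478280)), (.ofNat (nat_lit 784612973177819121072))⟩,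
    ⟨nat_lit 0, nat_lit 2, nat_lit 3, (.ofNat (nat_lit 8)), (.negSucc (nat_lit 3183979903)), (.ofNat (nat_lit 54655688276646632383866020014080)), (.ofNat (nat_lit 0)), (.ofNat (nat_lit 840856742717640498213323384832)), (.negSucc (nat_lit 3183979919)), (.negSucc (nat_lit 3183979887)), (.negSucc (nat_lit 8499973876093040478279)), (.ofNat (nat_lit 8499973876093040478280)), (.negSucc (nat_lit 8499973876093040478279)), (.ofNat (nat_lit 8499973876093040478280)), (.ofNat (nat_lit 784612973177819121072))⟩,
    ⟨nat_lit 1, nat_lit 3, nat_lit 4, (.ofNat (nat_lit 8)), (.ofNat (nat_lit 333354816)), (.ofNat (nat_lit 84552941510121661608485669895680)), (.ofNat (nat_lit 0)), (.ofNat (nat_lit 1300814484771102486284394921472)), (.ofNat (nat_lit 333354800)), (.ofNat (nat_lit 333354832)), (.ofNat (nat_lit 8499973876093040478280)), (.negSucc (nat_lit 8499973876093040478279)), (.negSucc (nat_lit 8499973876093040478279)), (.ofNat (nat_lit 8499973876093040478280)), (.ofNat (nat_lit 784612973177819121072))⟩,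
    ⟨nat_lit 0, nat_lit 5, nat_lit 4, (.ofNat (nat_lit 8)), (.negSucc (nat_lit 2929037119)), (.ofNat (nat_lit 112283187739698260050547925045760)), (.ofNat (nat_lit 0)), (.ofNat (nat_lit 1727433657533819385393045000704)), (.negSucc (nat_lit 2929037135)), (.negSucc (nat_lit 2929037103)), (.ofNat (nat_lit 8499973876093040478280)), (.negSucc (nat_lit 8499973876093040478279)), (.negSucc (nat_lit 8499973876093040478279)), (.ofNat (nat_lit 8499973876093040478280)), (.ofNat (nat_lit 784612973177819121072))⟩,
    ⟨nat_lit 2, nat_lit 6, nat_lit 5, (.ofNat (nat_lit 8)), (.negSucc (nat_lit 7932642495)), (.ofNat (nat_lit 69752672757419564837240505812480)), (.ofNat (nat_lit 0)), (.ofNat (nat_lit 1073118042421839459034469320192)), (.negSucc (nat_lit 7932642511)), (.negSucc (nat_lit 7932642479)), (.negSucc (nat_lit 8499973876093040478279)), (.ofNat (nat_lit 8499973876093040478280)), (.negSucc (nat_lit 8499973876093040478279)), (.ofNat (nat_lit 8499973876093040478280)), (.ofNat (nat_lit 784612973177819121072))⟩,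
    ⟨nat_lit 0, nat_lit 7, nat_lit 8, (.ofNat (nat_lit 8)), (.negSucc (nat_lit 2212786047)), (.ofNat (nat_lit 80297746876080527694049761131520)), (.ofNat (nat_lit 0)), (.ofNat (nat_lit 1235349951908276573221252660224)), (.negSucc (nat_lit 2212786063)), (.negSucc (nat_lit 2212786031)), (.ofNat (nat_lit 8499973876093040478280)), (.negSucc (nat_lit 8499973876093040478279)), (.negSucc (nat_lit 8499973876093040478279)), (.ofNat (nat_lit 8499973876093040478280)), (.ofNat (nat_lit 784612890692897135342))⟩,
    ⟨nat_lit 0, nat_lit 8, nat_lit 9, (.ofNat (nat_lit 8)), (.ofNat (nat_lit 3598406144)), (.ofNat (nat_lit 30902765055124675401129079541760)), (.ofNat (nat_lit 0)), (.ofNat (nat_lit 475427394228795766793872269696)), (.ofNat (nat_lit 3598406128)), (.ofNat (nat_lit 3598406160)), (.negSucc (nat_lit 8499973876093040478279)), (.ofNat (nat_lit 8499973876093040478280)), (.negSucc (nat_lit 8499973876093040478279)), (.ofNat (nat_lit 8499973876093040478280)), (.ofNat (nat_lit 784612486957131212702))⟩,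
    ⟨nat_lit 1, nat_lit 9, nat_lit 10, (.ofNat (nat_lit 8)), (.ofNat (nat_lit 5089342592)), (.ofNat (nat_lit 43575685914039625289336083891200)), (.ofNat (nat_lit 0)), (.ofNat (nat_lit 670395167908301927528247444480)), (.ofNat (nat_lit 5089342576)), (.ofNat (nat_lit 5089342608)), (.ofNat (nat_lit 8499973876093040478280)), (.negSucc (nat_lit 8499973876093040478279)), (.negSucc (nat_lit 8499973876093040478279)), (.ofNat (nat_lit 8499973876093040478280)), (.ofNat (nat_lit 784612330535886763156))⟩,
    ⟨nat_lit 0, nat_lit 18, nat_lit 10, (.ofNat (nat_lit 8)), (.ofNat (nat_lit 2121481664)), (.ofNat (nat_lit 68802426269916873417545728535040)), (.ofNat (nat_lit 0)), (.ofNat (nat_lit 1058498865691028821808395823616)), (.ofNat (nat_lit 2121481648)), (.ofNat (nat_lit 2121481680)), (.ofNat (nat_lit 8499973876093040478280)), (.negSucc (nat_lit 8499973876093040478279)), (.negSucc (nat_lit 8499973876093040478279)), (.ofNat (nat_lit 8499973876093040478280)), (.ofNat (nat_lit 784612973177819121072))⟩,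
    ⟨nat_lit 1, nat_lit 11, nat_lit 17, (.ofNat (nat_lit 8)), (.negSucc (nat_lit 5273737215)), (.ofNat (nat_lit 72115533303379709091236827601920)), (.ofNat (nat_lit 0)), (.ofNat (nat_lit 1109469743128918601403643501568)), (.negSucc (nat_lit 5273737231)), (.negSucc (nat_lit 5273737199)), (.ofNat (nat_lit 8499973876093040478280)), (.negSucc (nat_lit 8499973876093040478279)), (.negSucc (nat_lit 8499973876093040478279)), (.ofNat (nat_lit 8499973876093040478280)), (.ofNat (nat_lit 784612973177819121072))⟩,
    ⟨nat_lit 0, nat_lit 6, nat_lit 11, (.ofNat (nat_lit 8)), (.negSucc (nat_lit 6742182079)), (.ofNat (nat_lit 59633790320896711414762458048000)), (.ofNat (nat_lit 0)), (.ofNat (nat_lit 917442928013795560227114739200)), (.negSucc (nat_lit 6742182095)), (.negSucc (nat_lit 6742182063)), (.negSucc (nat_lit 8499973876093040478279)), (.ofNat (nat_lit 8499973876093040478280)), (.negSucc (nat_lit 8499973876093040478279)), (.ofNat (nat_lit 8499973876093040478280)), (.ofNat (nat_lit 784612973177819121072))⟩,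
    ⟨nat_lit 0, nat_lit 19, nat_lit 12, (.ofNat (nat_lit 8)), (.negSucc (nat_lit 1332175807)), (.ofNat (nat_lit 11867143463399468239185912916480)), (.ofNat (nat_lit 0)), (.ofNat (nat_lit 182571437898453357525937121792)), (.negSucc (nat_lit 1332175823)), (.negSucc (nat_lit 1332175791)), (.negSucc (nat_lit 8499973876093040478279)), (.ofNat (nat_lit 8499973876093040478280)), (.negSucc (nat_lit 8499973876093040478279)), (.ofNat (nat_lit 8499973876093040478280)), (.ofNat (nat_lit 784612973177819121072))⟩,
    ⟨nat_lit 1, nat_lit 12, nat_lit 13, (.ofNat (nat_lit 8)), (.ofNat (nat_lit 2236083840)), (.ofNat (nat_lit 42197257254516416471463057361920)), (.ofNat (nat_lit 0)), (.ofNat (nat_lit 649188573146406407253277805568)), (.ofNat (nat_lit 2236083824)), (.ofNat (nat_lit 2236083856)), (.ofNat (nat_lit 8499973876093040478280)), (.negSucc (nat_lit 8499973876093040478279)), (.negSucc (nat_lit 8499973876093040478279)), (.ofNat (nat_lit 8499973876093040478280)), (.ofNat (nat_lit 784612973177819121072))⟩,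
    ⟨nat_lit 0, nat_lit 14, nat_lit 13, (.ofNat (nat_lit 8)), (.ofNat (nat_lit 631069504)), (.ofNat (nat_lit 55839837181271234108930753984000)), (.ofNat (nat_lit 0)), (.ofNat (nat_lit 859074418173403601675857753600)), (.ofNat (nat_lit 631069488)), (.ofNat (nat_lit 631069520)), (.ofNat (nat_lit 8499973876093040478280)), (.negSucc (nat_lit 8499973876093040478279)), (.negSucc (nat_lit 8499973876093040478279)), (.ofNat (nat_lit 8499973876093040478280)), (.ofNat (nat_lit 784612973177819121072))⟩,
    ⟨nat_lit 0, nat_lit 15, nat_lit 14, (.ofNat (nat_lit 8)), (.negSucc (nat_lit 2014119359)), (.ofNat (nat_lit 33355800939939007607883264110080)), (.ofNat (nat_lit 0)), (.ofNat (nat_lit 513166168306753963198204063232)), (.negSucc (nat_lit 2014119375)), (.negSucc (nat_lit 2014119343)), (.negSucc (nat_lit 8499973876093040478279)), (.ofNat (nat_lit 8499973876093040478280)), (.negSucc (nat_lit 8499973876093040478279)), (.ofNat (nat_lit 8499973876093040478280)), (.ofNat (nat_lit 784612973177819121072))⟩,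
    ⟨nat_lit 2, nat_lit 15, nat_lit 16, (.ofNat (nat_lit 8)), (.negSucc (nat_lit 7031507647)), (.ofNat (nat_lit 76003470314154192101915254494720)), (.ofNat (nat_lit 0)), (.ofNat (nat_lit 1169284158679295263106388530688)), (.negSucc (nat_lit 7031507663)), (.negSucc (nat_lit 7031507631)), (.negSucc (nat_lit 8499973876093040478279)), (.ofNat (nat_lit 8499973876093040478280)), (.negSucc (nat_lit 8499973876093040478279)), (.ofNat (nat_lit 8499973876093040478280)), (.ofNat (nat_lit 784612973177819121072))⟩,
    ⟨nat_lit 0, nat_lit 16, nat_lit 17, (.ofNat (nat_lit 8)), (.negSucc (nat_lit 6381325311)), (.ofNat (nat_lit 81530003184851339713425902156800)), (.ofNat (nat_lit 0)), (.ofNat (nat_lit 1254307741305405226360398494720)), (.negSucc (nat_lit 6381325327)), (.negSucc (nat_lit 6381325295)), (.ofNat (nat_lit 8499973876093040478280)), (.negSucc (nat_lit 8499973876093040478279)), (.negSucc (nat_lit 8499973876093040478279)), (.ofNat (nat_lit 8499973876093040478280)), (.ofNat (nat_lit 784612973177819121072))⟩,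
    ⟨nat_lit 2, nat_lit 19, nat_lit 7, (.ofNat (nat_lit 8)), (.negSucc (nat_lit 5797822911)), (.ofNat (nat_lit 49825027187250009285571769817600)), (.ofNat (nat_lit 0)), (.ofNat (nat_lit 766538879803846296701104151040)), (.negSucc (nat_lit 5797822927)), (.negSucc (nat_lit 5797822895)), (.negSucc (nat_lit 8499973876093040478279)), (.ofNat (nat_lit 8499973876093040478280)), (.negSucc (nat_lit 8499973876093040478279)), (.ofNat (nat_lit 8499973876093040478280)), (.ofNat (nat_lit 784612973160288560560))⟩]
  es := [
    ⟨nat_lit 1, nat_lit 0, (.negSucc (nat_lit 7969538047)), (.negSucc (nat_lit 2928015103)), (.negSucc (nat_lit 7969538031)), (.negSucc (nat_lit 2928015119)), (.negSucc (nat_lit 8499973876093040478279)), (.negSucc (nat_lit 130768828862969853511)), (.ofNat (nat_lit 15288980949150554238314929152))⟩,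
    ⟨nat_lit 1, nat_lit 2, (.negSucc (nat_lit 7969538047)), (.negSucc (nat_lit 6404935679)), (.negSucc (nat_lit 7969538031)), (.negSucc (nat_lit 6404935695)), (.ofNat (nat_lit 8499973876093040478280)), (.ofNat (nat_lit 130768828862969853512)), (.ofNat (nat_lit 2099623295180828205920055778304))⟩,
    ⟨nat_lit 2, nat_lit 3, (.negSucc (nat_lit 6404935679)), (.negSucc (nat_lit 3183979903)), (.negSucc (nat_lit 6404935663)), (.negSucc (nat_lit 3183979919)), (.negSucc (nat_lit 8499973876093040478279)), (.negSucc (nat_lit 130768828862969853511)), (.ofNat (nat_lit 424491419548329314873291561984))⟩,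
    ⟨nat_lit 3, nat_lit 4, (.negSucc (nat_lit 3183979903)), (.ofNat (nat_lit 333354816)), (.negSucc (nat_lit 3183979887)), (.ofNat (nat_lit 333354800)), (.ofNat (nat_lit 8499973876093040478280)), (.ofNat (nat_lit 130768828862969853512)), (.ofNat (nat_lit 1257222065886951681553355207680))⟩,
    ⟨nat_lit 5, nat_lit 4, (.negSucc (nat_lit 2929037119)), (.ofNat (nat_lit 333354816)), (.negSucc (nat_lit 2929037103)), (.ofNat (nat_lit 333354800)), (.negSucc (nat_lit 8499973876093040478279)), (.negSucc (nat_lit 130768828862969853511)), (.ofNat (nat_lit 1344406903655253291015434635264))⟩,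
    ⟨nat_lit 6, nat_lit 5, (.negSucc (nat_lit 7932642495)), (.negSucc (nat_lit 2929037119)), (.negSucc (nat_lit 7932642479)), (.negSucc (nat_lit 2929037135)), (.ofNat (nat_lit 8499973876093040478280)), (.ofNat (nat_lit 130768828862969853512)), (.ofNat (nat_lit 2110460411412385479770655366144))⟩,
    ⟨nat_lit 6, nat_lit 12, (.negSucc (nat_lit 7932642495)), (.negSucc (nat_lit 6742182079)), (.negSucc (nat_lit 7932642479)), (.negSucc (nat_lit 6742182095)), (.negSucc (nat_lit 8499973876093040478279)), (.negSucc (nat_lit 130768828862969853511)), (.ofNat (nat_lit 35775673431293438298283274240))⟩,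
    ⟨nat_lit 19, nat_lit 7, (.negSucc (nat_lit 5797822911)), (.negSucc (nat_lit 2212786047)), (.negSucc (nat_lit 5797822895)), (.negSucc (nat_lit 2212786063)), (.ofNat (nat_lit 8499973876093040478280)), (.ofNat (nat_lit 130768828854204573256)), (.ofNat (nat_lit 1524713391910160279059923392512))⟩,
    ⟨nat_lit 7, nat_lit 8, (.negSucc (nat_lit 2212786047)), (.ofNat (nat_lit 3598406144)), (.negSucc (nat_lit 2212786031)), (.ofNat (nat_lit 3598406128)), (.negSucc (nat_lit 8499973876093040478279)), (.negSucc (nat_lit 130768787638039421158)), (.ofNat (nat_lit 945986603108948068006621470592))⟩,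
    ⟨nat_lit 8, nat_lit 9, (.ofNat (nat_lit 3598406144)), (.ofNat (nat_lit 5089342592)), (.ofNat (nat_lit 3598406160)), (.ofNat (nat_lit 5089342576)), (.ofNat (nat_lit 8499973876093040478280)), (.ofNat (nat_lit 130768668202486764033)), (.ofNat (nat_lit 4868615126269959018846850944))⟩,
    ⟨nat_lit 10, nat_lit 9, (.ofNat (nat_lit 2121481664)), (.ofNat (nat_lit 5089342592)), (.ofNat (nat_lit 2121481680)), (.ofNat (nat_lit 5089342576)), (.negSucc (nat_lit 8499973876093040478279)), (.negSucc (nat_lit 130768828862969853511)), (.ofNat (nat_lit 1335922538346573334618869827584))⟩,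
    ⟨nat_lit 12, nat_lit 11, (.negSucc (nat_lit 6742182079)), (.negSucc (nat_lit 5273737215)), (.negSucc (nat_lit 6742182063)), (.negSucc (nat_lit 5273737231)), (.ofNat (nat_lit 8499973876093040478280)), (.ofNat (nat_lit 130768828862969853512)), (.ofNat (nat_lit 1799110182596297682155946204160))⟩,
    ⟨nat_lit 13, nat_lit 14, (.negSucc (nat_lit 1332175807)), (.ofNat (nat_lit 2236083840)), (.negSucc (nat_lit 1332175791)), (.ofNat (nat_lit 2236083824)), (.ofNat (nat_lit 8499973876093040478280)), (.ofNat (nat_lit 130768828862969853512)), (.ofNat (nat_lit 356778508150193943407927359488))⟩,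
    ⟨nat_lit 15, nat_lit 14, (.ofNat (nat_lit 631069504)), (.ofNat (nat_lit 2236083840)), (.ofNat (nat_lit 631069520)), (.ofNat (nat_lit 2236083824)), (.negSucc (nat_lit 8499973876093040478279)), (.negSucc (nat_lit 130768828862969853511)), (.ofNat (nat_lit 941598638142618871098628251648))⟩,
    ⟨nat_lit 16, nat_lit 15, (.negSucc (nat_lit 2014119359)), (.ofNat (nat_lit 631069504)), (.negSucc (nat_lit 2014119343)), (.ofNat (nat_lit 631069488)), (.ofNat (nat_lit 8499973876093040478280)), (.ofNat (nat_lit 130768828862969853512)), (.ofNat (nat_lit 776550198204188332253087255552))⟩,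
    ⟨nat_lit 17, nat_lit 16, (.negSucc (nat_lit 7031507647)), (.negSucc (nat_lit 2014119359)), (.negSucc (nat_lit 7031507631)), (.negSucc (nat_lit 2014119375)), (.negSucc (nat_lit 8499973876093040478279)), (.negSucc (nat_lit 130768828862969853511)), (.ofNat (nat_lit 249782138409319594143320870912))⟩,
    ⟨nat_lit 17, nat_lit 18, (.negSucc (nat_lit 7031507647)), (.negSucc (nat_lit 6381325311)), (.negSucc (nat_lit 7031507631)), (.negSucc (nat_lit 6381325327)), (.ofNat (nat_lit 8499973876093040478280)), (.ofNat (nat_lit 130768828862969853512)), (.ofNat (nat_lit 2088786178949270932069456190464))⟩,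
    ⟨nat_lit 18, nat_lit 11, (.negSucc (nat_lit 6381325311)), (.negSucc (nat_lit 5273737215)), (.negSucc (nat_lit 6381325295)), (.negSucc (nat_lit 5273737231)), (.negSucc (nat_lit 8499973876093040478279)), (.negSucc (nat_lit 130768828862969853511)), (.ofNat (nat_lit 419829303661539520651340798976))⟩,
    ⟨nat_lit 0, nat_lit 10, (.negSucc (nat_lit 2928015103)), (.ofNat (nat_lit 2121481664)), (.negSucc (nat_lit 2928015087)), (.ofNat (nat_lit 2121481648)), (.ofNat (nat_lit 8499973876093040478280)), (.ofNat (nat_lit 130768828862969853512)), (.ofNat (nat_lit 781075193035484308997921819648))⟩,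
    ⟨nat_lit 19, nat_lit 13, (.negSucc (nat_lit 5797822911)), (.negSucc (nat_lit 1332175807)), (.negSucc (nat_lit 5797822895)), (.negSucc (nat_lit 1332175823)), (.negSucc (nat_lit 8499973876093040478279)), (.negSucc (nat_lit 130768828862969853511)), (.ofNat (nat_lit 8364367646712771643946884096))⟩]

theorem ok111 : stOK 19 19 S111 = true := by decide +kernel

def S112 : SD where
  vs := [
    ⟨nat_lit 0, nat_lit 0, nat_lit 18, (.ofNat (nat_lit 8)), (.negSucc (nat_lit 2928539391)), (.ofNat (nat_lit 25890748523107731191190247265280)), (.negSucc (nat_lit 524287)), (.ofNat (nat_lit 8912868607098136012552929280)), (.negSucc (nat_lit 2928539407)), (.negSucc (nat_lit 2928539375)), (.negSucc (nat_lit 8499973876093040478279)), (.ofNat (nat_lit 8499973876093040478280)), (.negSucc (nat_lit 8499973876093040478279)), (.ofNat (nat_lit 8499973876093040478280)), (.ofNat (nat_lit 0))⟩,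
    ⟨nat_lit 2, nat_lit 0, nat_lit 1, (.ofNat (nat_lit 8)), (.negSucc (nat_lit 7971373055)), (.ofNat (nat_lit 68754702928590280511175292083200)), (.negSucc (nat_lit 1835007)), (.ofNat (nat_lit 20053954365970806028244090880)), (.negSucc (nat_lit 7971373071)), (.negSucc (nat_lit 7971373039)), (.negSucc (nat_lit 8499973876093040478279)), (.ofNat (nat_lit 8499973876093040478280)), (.negSucc (nat_lit 8499973876093040478279)), (.ofNat (nat_lit 8499973876093040478280)), (.ofNat (nat_lit 0))⟩,
    ⟨nat_lit 0, nat_lit 1, nat_lit 2, (.ofNat (nat_lit 8)), (.negSucc (nat_lit 4411764159)), (.ofNat (nat_lit 99011285553698669121348874862080)), (.ofNat (nat_lit 1993171520)), (.ofNat (nat_lit 16977557325001049695565086302720)), (.negSucc (nat_lit 4411764175)), (.negSucc (nat_lit 4411764143)), (.ofNat (nat_lit 8499973876093040478280)), (.negSucc (nat_lit 8499973876093040478279)), (.negSucc (nat_lit 8499973876093040478279)), (.ofNat (nat_lit 8499973876093040478280)), (.ofNat (nat_lit 0))⟩,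
    ⟨nat_lit 0, nat_lit 2, nat_lit 3, (.ofNat (nat_lit 8)), (.negSucc (nat_lit 1189759807)), (.ofNat (nat_lit 71624332733040583943418553387520)), (.ofNat (nat_lit 1994220096)), (.ofNat (nat_lit 16968644456393951559552533373440)), (.negSucc (nat_lit 1189759823)), (.negSucc (nat_lit 1189759791)), (.negSucc (nat_lit 8499973876093040478279)), (.ofNat (nat_lit 8499973876093040478280)), (.negSucc (nat_lit 8499973876093040478279)), (.ofNat (nat_lit 8499973876093040478280)), (.ofNat (nat_lit 0))⟩,
    ⟨nat_lit 1, nat_lit 3, nat_lit 4, (.ofNat (nat_lit 8)), (.ofNat (nat_lit 2328361344)), (.ofNat (nat_lit 101528270617970936770047617966080)), (.ofNat (nat_lit 1995006528)), (.ofNat (nat_lit 16975329107849275161561948070400)), (.ofNat (nat_lit 2328361328)), (.ofNat (nat_lit 2328361360)), (.ofNat (nat_lit 8499973876093040478280)), (.negSucc (nat_lit 8499973876093040478279)), (.negSucc (nat_lit 8499973876093040478279)), (.ofNat (nat_lit 8499973876093040478280)), (.ofNat (nat_lit 0))⟩,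
    ⟨nat_lit 0, nat_lit 5, nat_lit 4, (.ofNat (nat_lit 8)), (.negSucc (nat_lit 935341311)), (.ofNat (nat_lit 129269657933306407882125564277760)), (.ofNat (nat_lit 1993695808)), (.ofNat (nat_lit 16986470193608147831577639232000)), (.negSucc (nat_lit 935341327)), (.negSucc (nat_lit 935341295)), (.ofNat (nat_lit 8499973876093040478280)), (.negSucc (nat_lit 8499973876093040478279)), (.negSucc (nat_lit 8499973876093040478279)), (.ofNat (nat_lit 8499973876093040478280)), (.ofNat (nat_lit 0))⟩,
    ⟨nat_lit 2, nat_lit 6, nat_lit 5, (.ofNat (nat_lit 8)), (.negSucc (nat_lit 7934477503)), (.ofNat (nat_lit 69777183146089084711275026368000)), (.negSucc (nat_lit 1835007)), (.ofNat (nat_lit 24510388669519874034520555520)), (.negSucc (nat_lit 7934477519)), (.negSucc (nat_lit 7934477487)), (.negSucc (nat_lit 8499973876093040478279)), (.ofNat (nat_lit 8499973876093040478280)), (.negSucc (nat_lit 8499973876093040478279)), (.ofNat (nat_lit 8499973876093040478280)), (.ofNat (nat_lit 0))⟩,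
    ⟨nat_lit 0, nat_lit 7, nat_lit 8, (.ofNat (nat_lit 8)), (.negSucc (nat_lit 218565951)), (.ofNat (nat_lit 97270847766778028321608570969600)), (.ofNat (nat_lit 1994220096)), (.ofNat (nat_lit 16973100890697500627558809838080)), (.negSucc (nat_lit 218565967)), (.negSucc (nat_lit 218565935)), (.ofNat (nat_lit 8499973876093040478280)), (.negSucc (nat_lit 8499973876093040478279)), (.negSucc (nat_lit 8499973876093040478279)), (.ofNat (nat_lit 8499973876093040478280)), (.ofNat (nat_lit 0))⟩,
    ⟨nat_lit 0, nat_lit 8, nat_lit 9, (.ofNat (nat_lit 8)), (.ofNat (nat_lit 5593936960)), (.ofNat (nat_lit 47864724860063303358672198218240)), (.ofNat (nat_lit 1995530816)), (.ofNat (nat_lit 16961959804938627957543118676480)), (.ofNat (nat_lit 5593936944)), (.ofNat (nat_lit 5593936976)), (.negSucc (nat_lit 8499973876093040478279)), (.ofNat (nat_lit 8499973876093040478280)), (.negSucc (nat_lit 8499973876093040478279)), (.ofNat (nat_lit 8499973876093040478280)), (.ofNat (nat_lit 0))⟩,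
    ⟨nat_lit 1, nat_lit 9, nat_lit 10, (.ofNat (nat_lit 8)), (.ofNat (nat_lit 7085135552)), (.ofNat (nat_lit 60539873936130027780882340800000)), (.ofNat (nat_lit 1995792960)), (.ofNat (nat_lit 16964188022090402491546256908800)), (.ofNat (nat_lit 7085135536)), (.ofNat (nat_lit 7085135568)), (.ofNat (nat_lit 8499973876093040478280)), (.negSucc (nat_lit 8499973876093040478279)), (.negSucc (nat_lit 8499973876093040478279)), (.ofNat (nat_lit 8499973876093040478280)), (.ofNat (nat_lit 0))⟩,
    ⟨nat_lit 0, nat_lit 18, nat_lit 10, (.ofNat (nat_lit 8)), (.ofNat (nat_lit 4116488192)), (.ofNat (nat_lit 85773298943462599511101400140800)), (.ofNat (nat_lit 1995006528)), (.ofNat (nat_lit 16970872673545726093555671605760)), (.ofNat (nat_lit 4116488176)), (.ofNat (nat_lit 4116488208)), (.ofNat (nat_lit 8499973876093040478280)), (.negSucc (nat_lit 8499973876093040478279)), (.negSucc (nat_lit 8499973876093040478279)), (.ofNat (nat_lit 8499973876093040478280)), (.ofNat (nat_lit 0))⟩,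
    ⟨nat_lit 1, nat_lit 11, nat_lit 17, (.ofNat (nat_lit 8)), (.negSucc (nat_lit 5274261503)), (.ofNat (nat_lit 72137815474897454431268209925120)), (.negSucc (nat_lit 524287)), (.ofNat (nat_lit 22282171517745340031382323200)), (.negSucc (nat_lit 5274261519)), (.negSucc (nat_lit 5274261487)), (.ofNat (nat_lit 8499973876093040478280)), (.negSucc (nat_lit 8499973876093040478279)), (.negSucc (nat_lit 8499973876093040478279)), (.ofNat (nat_lit 8499973876093040478280)), (.ofNat (nat_lit 0))⟩,
    ⟨nat_lit 0, nat_lit 6, nat_lit 11, (.ofNat (nat_lit 8)), (.negSucc (nat_lit 6743230655)), (.ofNat (nat_lit 59651616058110907686787563906560)), (.negSucc (nat_lit 1048575)), (.ofNat (nat_lit 17825737214196272025105858560)), (.negSucc (nat_lit 6743230671)), (.negSucc (nat_lit 6743230639)), (.negSucc (nat_lit 8499973876093040478279)), (.ofNat (nat_lit 8499973876093040478280)), (.negSucc (nat_lit 8499973876093040478279)), (.ofNat (nat_lit 8499973876093040478280)), (.ofNat (nat_lit 0))⟩,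
    ⟨nat_lit 0, nat_lit 19, nat_lit 12, (.ofNat (nat_lit 8)), (.negSucc (nat_lit 1332437951)), (.ofNat (nat_lit 11869371680551242773189051148800)), (.negSucc (nat_lit 262143)), (.ofNat (nat_lit 2228217151774534003138232320)), (.negSucc (nat_lit 1332437967)), (.negSucc (nat_lit 1332437935)), (.negSucc (nat_lit 8499973876093040478279)), (.ofNat (nat_lit 8499973876093040478280)), (.negSucc (nat_lit 8499973876093040478279)), (.ofNat (nat_lit 8499973876093040478280)), (.ofNat (nat_lit 0))⟩,
    ⟨nat_lit 1, nat_lit 12, nat_lit 13, (.ofNat (nat_lit 8)), (.ofNat (nat_lit 2237132416)), (.ofNat (nat_lit 42210626557427063675481886755840)), (.ofNat (nat_lit 1048576)), (.ofNat (nat_lit 13369302910647204018829393920)), (.ofNat (nat_lit 2237132400)), (.ofNat (nat_lit 2237132432)), (.ofNat (nat_lit 8499973876093040478280)), (.negSucc (nat_lit 8499973876093040478279)), (.negSucc (nat_lit 8499973876093040478279)), (.ofNat (nat_lit 8499973876093040478280)), (.ofNat (nat_lit 0))⟩,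
    ⟨nat_lit 0, nat_lit 14, nat_lit 13, (.ofNat (nat_lit 8)), (.ofNat (nat_lit 631855936)), (.ofNat (nat_lit 55855434701333655846952721610240)), (.ofNat (nat_lit 786432)), (.ofNat (nat_lit 15597520062421738021967626240)), (.ofNat (nat_lit 631855920)), (.ofNat (nat_lit 631855952)), (.ofNat (nat_lit 8499973876093040478280)), (.negSucc (nat_lit 8499973876093040478279)), (.negSucc (nat_lit 8499973876093040478279)), (.ofNat (nat_lit 8499973876093040478280)), (.ofNat (nat_lit 0))⟩,
    ⟨nat_lit 0, nat_lit 15, nat_lit 14, (.ofNat (nat_lit 8)), (.negSucc (nat_lit 2013857215)), (.ofNat (nat_lit 33366942025697880277898955271680)), (.ofNat (nat_lit 262144)), (.ofNat (nat_lit 11141085758872670015691161600)), (.negSucc (nat_lit 2013857231)), (.negSucc (nat_lit 2013857199)), (.negSucc (nat_lit 8499973876093040478279)), (.ofNat (nat_lit 8499973876093040478280)), (.negSucc (nat_lit 8499973876093040478279)), (.ofNat (nat_lit 8499973876093040478280)), (.ofNat (nat_lit 0))⟩,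
    ⟨nat_lit 2, nat_lit 15, nat_lit 16, (.ofNat (nat_lit 8)), (.negSucc (nat_lit 7032556223)), (.ofNat (nat_lit 76025752485671937441946636817920)), (.negSucc (nat_lit 1048575)), (.ofNat (nat_lit 22282171517745340031382323200)), (.negSucc (nat_lit 7032556239)), (.negSucc (nat_lit 7032556207)), (.negSucc (nat_lit 8499973876093040478279)), (.ofNat (nat_lit 8499973876093040478280)), (.negSucc (nat_lit 8499973876093040478279)), (.ofNat (nat_lit 8499973876093040478280)), (.ofNat (nat_lit 0))⟩,
    ⟨nat_lit 0, nat_lit 16, nat_lit 17, (.ofNat (nat_lit 8)), (.negSucc (nat_lit 6382111743)), (.ofNat (nat_lit 81554513573520859587460422712320)), (.negSucc (nat_lit 786431)), (.ofNat (nat_lit 24510388669519874034520555520)), (.negSucc (nat_lit 6382111759)), (.negSucc (nat_lit 6382111727)), (.ofNat (nat_lit 8499973876093040478280)), (.negSucc (nat_lit 8499973876093040478279)), (.negSucc (nat_lit 8499973876093040478279)), (.ofNat (nat_lit 8499973876093040478280)), (.ofNat (nat_lit 0))⟩,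
    ⟨nat_lit 2, nat_lit 19, nat_lit 7, (.ofNat (nat_lit 8)), (.negSucc (nat_lit 5799133631)), (.ofNat (nat_lit 49836168273008881955587460979200)), (.negSucc (nat_lit 1310719)), (.ofNat (nat_lit 11141085758872670015691161600)), (.negSucc (nat_lit 5799133647)), (.negSucc (nat_lit 5799133615)), (.negSucc (nat_lit 8499973876093040478279)), (.ofNat (nat_lit 8499973876093040478280)), (.negSucc (nat_lit 8499973876093040478279)), (.ofNat (nat_lit 8499973876093040478280)), (.ofNat (nat_lit 0))⟩]
  es := [
    ⟨nat_lit 1, nat_lit 0, (.negSucc (nat_lit 7971373055)), (.negSucc (nat_lit 2928539391)), (.negSucc (nat_lit 7971373039)), (.negSucc (nat_lit 2928539407)), (.negSucc (nat_lit 8499973876093040478279)), (.ofNat (nat_lit 0)), (.ofNat (nat_lit 4456434303549068006276464640))⟩,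
    ⟨nat_lit 1, nat_lit 2, (.negSucc (nat_lit 7971373055)), (.negSucc (nat_lit 4411764159)), (.negSucc (nat_lit 7971373039)), (.negSucc (nat_lit 4411764175)), (.ofNat (nat_lit 8499973876093040478280)), (.ofNat (nat_lit 0)), (.ofNat (nat_lit 35651474428392544050211717120))⟩,
    ⟨nat_lit 2, nat_lit 3, (.negSucc (nat_lit 4411764159)), (.negSucc (nat_lit 1189759807)), (.negSucc (nat_lit 4411764143)), (.negSucc (nat_lit 1189759823)), (.negSucc (nat_lit 8499973876093040478279)), (.ofNat (nat_lit 0)), (.ofNat (nat_lit 33919463175573706847079960888320))⟩,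
    ⟨nat_lit 3, nat_lit 4, (.negSucc (nat_lit 1189759807)), (.ofNat (nat_lit 2328361344)), (.negSucc (nat_lit 1189759791)), (.ofNat (nat_lit 2328361328)), (.ofNat (nat_lit 8499973876093040478280)), (.ofNat (nat_lit 0)), (.ofNat (nat_lit 17825737214196272025105858560))⟩,
    ⟨nat_lit 5, nat_lit 4, (.negSucc (nat_lit 935341311)), (.ofNat (nat_lit 2328361344)), (.negSucc (nat_lit 935341295)), (.ofNat (nat_lit 2328361328)), (.negSucc (nat_lit 8499973876093040478279)), (.ofNat (nat_lit 0)), (.ofNat (nat_lit 33932832478484354051098790282240))⟩,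
    ⟨nat_lit 6, nat_lit 5, (.negSucc (nat_lit 7934477503)), (.negSucc (nat_lit 935341311)), (.negSucc (nat_lit 7934477487)), (.negSucc (nat_lit 935341327)), (.ofNat (nat_lit 8499973876093040478280)), (.ofNat (nat_lit 0)), (.ofNat (nat_lit 40107908731941612056488181760))⟩,
    ⟨nat_lit 6, nat_lit 12, (.negSucc (nat_lit 7934477503)), (.negSucc (nat_lit 6743230655)), (.negSucc (nat_lit 7934477487)), (.negSucc (nat_lit 6743230671)), (.negSucc (nat_lit 8499973876093040478279)), (.ofNat (nat_lit 0)), (.ofNat (nat_lit 8912868607098136012552929280))⟩,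
    ⟨nat_lit 19, nat_lit 7, (.negSucc (nat_lit 5799133631)), (.negSucc (nat_lit 218565951)), (.negSucc (nat_lit 5799133615)), (.negSucc (nat_lit 218565967)), (.ofNat (nat_lit 8499973876093040478280)), (.ofNat (nat_lit 0)), (.ofNat (nat_lit 22282171517745340031382323200))⟩,
    ⟨nat_lit 7, nat_lit 8, (.negSucc (nat_lit 218565951)), (.ofNat (nat_lit 5593936960)), (.negSucc (nat_lit 218565935)), (.ofNat (nat_lit 5593936944)), (.negSucc (nat_lit 8499973876093040478279)), (.ofNat (nat_lit 0)), (.ofNat (nat_lit 33923919609877255915086237352960))⟩,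
    ⟨nat_lit 8, nat_lit 9, (.ofNat (nat_lit 5593936960)), (.ofNat (nat_lit 7085135552)), (.ofNat (nat_lit 5593936976)), (.ofNat (nat_lit 7085135536)), (.ofNat (nat_lit 8499973876093040478280)), (.ofNat (nat_lit 0)), (.ofNat (nat_lit 0))⟩,
    ⟨nat_lit 10, nat_lit 9, (.ofNat (nat_lit 4116488192)), (.ofNat (nat_lit 7085135552)), (.ofNat (nat_lit 4116488208)), (.ofNat (nat_lit 7085135536)), (.negSucc (nat_lit 8499973876093040478279)), (.ofNat (nat_lit 0)), (.ofNat (nat_lit 33928376044180804983092513817600))⟩,
    ⟨nat_lit 12, nat_lit 11, (.negSucc (nat_lit 6743230655)), (.negSucc (nat_lit 5274261503)), (.negSucc (nat_lit 6743230639)), (.negSucc (nat_lit 5274261519)), (.ofNat (nat_lit 8499973876093040478280)), (.ofNat (nat_lit 0)), (.ofNat (nat_lit 26738605821294408037658787840))⟩,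
    ⟨nat_lit 13, nat_lit 14, (.negSucc (nat_lit 1332437951)), (.ofNat (nat_lit 2237132416)), (.negSucc (nat_lit 1332437935)), (.ofNat (nat_lit 2237132400)), (.ofNat (nat_lit 8499973876093040478280)), (.ofNat (nat_lit 0)), (.ofNat (nat_lit 4456434303549068006276464640))⟩,
    ⟨nat_lit 15, nat_lit 14, (.ofNat (nat_lit 631855936)), (.ofNat (nat_lit 2237132416)), (.ofNat (nat_lit 631855952)), (.ofNat (nat_lit 2237132400)), (.negSucc (nat_lit 8499973876093040478279)), (.ofNat (nat_lit 0)), (.ofNat (nat_lit 22282171517745340031382323200))⟩,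
    ⟨nat_lit 16, nat_lit 15, (.negSucc (nat_lit 2013857215)), (.ofNat (nat_lit 631855936)), (.negSucc (nat_lit 2013857199)), (.ofNat (nat_lit 631855920)), (.ofNat (nat_lit 8499973876093040478280)), (.ofNat (nat_lit 0)), (.ofNat (nat_lit 8912868607098136012552929280))⟩,
    ⟨nat_lit 17, nat_lit 16, (.negSucc (nat_lit 7032556223)), (.negSucc (nat_lit 2013857215)), (.negSucc (nat_lit 7032556207)), (.negSucc (nat_lit 2013857231)), (.negSucc (nat_lit 8499973876093040478279)), (.ofNat (nat_lit 0)), (.ofNat (nat_lit 13369302910647204018829393920))⟩,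
    ⟨nat_lit 17, nat_lit 18, (.negSucc (nat_lit 7032556223)), (.negSucc (nat_lit 6382111743)), (.negSucc (nat_lit 7032556207)), (.negSucc (nat_lit 6382111759)), (.ofNat (nat_lit 8499973876093040478280)), (.ofNat (nat_lit 0)), (.ofNat (nat_lit 31195040124843476043935252480))⟩,
    ⟨nat_lit 18, nat_lit 11, (.negSucc (nat_lit 6382111743)), (.negSucc (nat_lit 5274261503)), (.negSucc (nat_lit 6382111727)), (.negSucc (nat_lit 5274261519)), (.negSucc (nat_lit 8499973876093040478279)), (.ofNat (nat_lit 0)), (.ofNat (nat_lit 17825737214196272025105858560))⟩,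
    ⟨nat_lit 0, nat_lit 10, (.negSucc (nat_lit 2928539391)), (.ofNat (nat_lit 4116488192)), (.negSucc (nat_lit 2928539375)), (.ofNat (nat_lit 4116488176)), (.ofNat (nat_lit 8499973876093040478280)), (.ofNat (nat_lit 0)), (.ofNat (nat_lit 13369302910647204018829393920))⟩,
    ⟨nat_lit 19, nat_lit 13, (.negSucc (nat_lit 5799133631)), (.negSucc (nat_lit 1332437951)), (.negSucc (nat_lit 5799133615)), (.negSucc (nat_lit 1332437967)), (.negSucc (nat_lit 8499973876093040478279)), (.ofNat (nat_lit 0)), (.ofNat (nat_lit 0))⟩]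

theorem ok112 : stOK 19 19 S112 = true := by decide +kernel

def S113 : SD where
  vs := [
    ⟨nat_lit 0, nat_lit 0, nat_lit 18, (.ofNat (nat_lit 8)), (.negSucc (nat_lit 2929063679)), (.ofNat (nat_lit 25899661391714829327202800194560)), (.negSucc (nat_lit 524287)), (.ofNat (nat_lit 8912868607098136012552929280)), (.negSucc (nat_lit 2929063695)), (.negSucc (nat_lit 2929063663)), (.negSucc (nat_lit 8499973876093040478279)), (.ofNat (nat_lit 8499973876093040478280)), (.negSucc (nat_lit 8499973876093040478279)), (.ofNat (nat_lit 8499973876093040478280)), (.ofNat (nat_lit 0))⟩,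
    ⟨nat_lit 2, nat_lit 0, nat_lit 1, (.ofNat (nat_lit 8)), (.negSucc (nat_lit 7973208063)), (.ofNat (nat_lit 68774756882956251317203536174080)), (.negSucc (nat_lit 1835007)), (.ofNat (nat_lit 20053954365970806028244090880)), (.negSucc (nat_lit 7973208079)), (.negSucc (nat_lit 7973208047)), (.negSucc (nat_lit 8499973876093040478279)), (.ofNat (nat_lit 8499973876093040478280)), (.negSucc (nat_lit 8499973876093040478279)), (.ofNat (nat_lit 8499973876093040478280)), (.ofNat (nat_lit 0))⟩,
    ⟨nat_lit 0, nat_lit 1, nat_lit 2, (.ofNat (nat_lit 8)), (.negSucc (nat_lit 2400504703)), (.ofNat (nat_lit 116142589862172161663130499194880)), (.ofNat (nat_lit 2011259456)), (.ofNat (nat_lit 17131304308473492541781624332800)), (.negSucc (nat_lit 2400504719)), (.negSucc (nat_lit 2400504687)), (.ofNat (nat_lit 8499973876093040478280)), (.negSucc (nat_lit 8499973876093040478279)), (.negSucc (nat_lit 8499973876093040478279)), (.ofNat (nat_lit 8499973876093040478280)), (.ofNat (nat_lit 0))⟩,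
    ⟨nat_lit 0, nat_lit 2, nat_lit 3, (.ofNat (nat_lit 8)), (.ofNat (nat_lit 822548224)), (.ofNat (nat_lit 88746724172906978349187624791040)), (.ofNat (nat_lit 2012308032)), (.ofNat (nat_lit 17122391439866394405769071403520)), (.ofNat (nat_lit 822548208)), (.ofNat (nat_lit 822548240)), (.negSucc (nat_lit 8499973876093040478279)), (.ofNat (nat_lit 8499973876093040478280)), (.negSucc (nat_lit 8499973876093040478279)), (.ofNat (nat_lit 8499973876093040478280)), (.ofNat (nat_lit 0))⟩,
    ⟨nat_lit 1, nat_lit 3, nat_lit 4, (.ofNat (nat_lit 8)), (.ofNat (nat_lit 4341455808)), (.ofNat (nat_lit 118657346709292654777826104066560)), (.ofNat (nat_lit 2013094464)), (.ofNat (nat_lit 17129076091321718007778486100480)), (.ofNat (nat_lit 4341455792)), (.ofNat (nat_lit 4341455824)), (.ofNat (nat_lit 8499973876093040478280)), (.negSucc (nat_lit 8499973876093040478279)), (.negSucc (nat_lit 8499973876093040478279)), (.ofNat (nat_lit 8499973876093040478280)), (.ofNat (nat_lit 0))⟩,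
    ⟨nat_lit 0, nat_lit 5, nat_lit 4, (.ofNat (nat_lit 8)), (.ofNat (nat_lit 1076442432)), (.ofNat (nat_lit 146409875110386998559919741539840)), (.ofNat (nat_lit 2011783744)), (.ofNat (nat_lit 17140217177080590677794177262080)), (.ofNat (nat_lit 1076442416)), (.ofNat (nat_lit 1076442448)), (.ofNat (nat_lit 8499973876093040478280)), (.negSucc (nat_lit 8499973876093040478279)), (.negSucc (nat_lit 8499973876093040478279)), (.ofNat (nat_lit 8499973876093040478280)), (.ofNat (nat_lit 0))⟩,
    ⟨nat_lit 2, nat_lit 6, nat_lit 5, (.ofNat (nat_lit 8)), (.negSucc (nat_lit 7936312511)), (.ofNat (nat_lit 69801693534758604585309546923520)), (.negSucc (nat_lit 1835007)), (.ofNat (nat_lit 24510388669519874034520555520)), (.negSucc (nat_lit 7936312527)), (.negSucc (nat_lit 7936312495)), (.negSucc (nat_lit 8499973876093040478279)), (.ofNat (nat_lit 8499973876093040478280)), (.negSucc (nat_lit 8499973876093040478279)), (.ofNat (nat_lit 8499973876093040478280)), (.ofNat (nat_lit 0))⟩,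
    ⟨nat_lit 0, nat_lit 7, nat_lit 8, (.ofNat (nat_lit 8)), (.ofNat (nat_lit 1793742080)), (.ofNat (nat_lit 114397695640947971795383918837760)), (.ofNat (nat_lit 2012308032)), (.ofNat (nat_lit 17126847874169943473775347868160)), (.ofNat (nat_lit 1793742064)), (.ofNat (nat_lit 1793742096)), (.ofNat (nat_lit 8499973876093040478280)), (.negSucc (nat_lit 8499973876093040478279)), (.negSucc (nat_lit 8499973876093040478279)), (.ofNat (nat_lit 8499973876093040478280)), (.ofNat (nat_lit 0))⟩,
    ⟨nat_lit 0, nat_lit 8, nat_lit 9, (.ofNat (nat_lit 8)), (.ofNat (nat_lit 7607555712)), (.ofNat (nat_lit 64980431648474374162431854924800)), (.ofNat (nat_lit 2013618752)), (.ofNat (nat_lit 17115706788411070803759656706560)), (.ofNat (nat_lit 7607555696)), (.ofNat (nat_lit 7607555728)), (.negSucc (nat_lit 8499973876093040478279)), (.ofNat (nat_lit 8499973876093040478280)), (.negSucc (nat_lit 8499973876093040478279)), (.ofNat (nat_lit 8499973876093040478280)), (.ofNat (nat_lit 0))⟩,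
    ⟨nat_lit 1, nat_lit 9, nat_lit 10, (.ofNat (nat_lit 8)), (.ofNat (nat_lit 9099016448)), (.ofNat (nat_lit 77657808941692873118645135738880)), (.ofNat (nat_lit 2013880896)), (.ofNat (nat_lit 17117935005562845337762794938880)), (.ofNat (nat_lit 9099016432)), (.ofNat (nat_lit 9099016464)), (.ofNat (nat_lit 8499973876093040478280)), (.negSucc (nat_lit 8499973876093040478279)), (.negSucc (nat_lit 8499973876093040478279)), (.ofNat (nat_lit 8499973876093040478280)), (.ofNat (nat_lit 0))⟩,
    ⟨nat_lit 0, nat_lit 18, nat_lit 10, (.ofNat (nat_lit 8)), (.ofNat (nat_lit 6129582656)), (.ofNat (nat_lit 102897918600480768450873609776640)), (.ofNat (nat_lit 2013094464)), (.ofNat (nat_lit 17124619657018168939772209635840)), (.ofNat (nat_lit 6129582640)), (.ofNat (nat_lit 6129582672)), (.ofNat (nat_lit 8499973876093040478280)), (.negSucc (nat_lit 8499973876093040478279)), (.negSucc (nat_lit 8499973876093040478279)), (.ofNat (nat_lit 8499973876093040478280)), (.ofNat (nat_lit 0))⟩,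
    ⟨nat_lit 1, nat_lit 11, nat_lit 17, (.ofNat (nat_lit 8)), (.negSucc (nat_lit 3262739903)), (.ofNat (nat_lit 89262435131915623371040419560960)), (.ofNat (nat_lit 2011521600)), (.ofNat (nat_lit 17124619657018168939772209635840)), (.negSucc (nat_lit 3262739919)), (.negSucc (nat_lit 3262739887)), (.ofNat (nat_lit 8499973876093040478280)), (.negSucc (nat_lit 8499973876093040478279)), (.negSucc (nat_lit 8499973876093040478279)), (.ofNat (nat_lit 8499973876093040478280)), (.ofNat (nat_lit 0))⟩,
    ⟨nat_lit 0, nat_lit 6, nat_lit 11, (.ofNat (nat_lit 8)), (.negSucc (nat_lit 6744279231)), (.ofNat (nat_lit 59669441795325103958812669765120)), (.negSucc (nat_lit 1048575)), (.ofNat (nat_lit 17825737214196272025105858560)), (.negSucc (nat_lit 6744279247)), (.negSucc (nat_lit 6744279215)), (.negSucc (nat_lit 8499973876093040478279)), (.ofNat (nat_lit 8499973876093040478280)), (.negSucc (nat_lit 8499973876093040478279)), (.ofNat (nat_lit 8499973876093040478280)), (.ofNat (nat_lit 0))⟩,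
    ⟨nat_lit 0, nat_lit 19, nat_lit 12, (.ofNat (nat_lit 8)), (.negSucc (nat_lit 1332700095)), (.ofNat (nat_lit 11871599897703017307192189381120)), (.negSucc (nat_lit 262143)), (.ofNat (nat_lit 2228217151774534003138232320)), (.negSucc (nat_lit 1332700111)), (.negSucc (nat_lit 1332700079)), (.negSucc (nat_lit 8499973876093040478279)), (.ofNat (nat_lit 8499973876093040478280)), (.negSucc (nat_lit 8499973876093040478279)), (.ofNat (nat_lit 8499973876093040478280)), (.ofNat (nat_lit 0))⟩,
    ⟨nat_lit 1, nat_lit 12, nat_lit 13, (.ofNat (nat_lit 8)), (.ofNat (nat_lit 2237918848)), (.ofNat (nat_lit 42221767643185936345497577917440)), (.ofNat (nat_lit 786432)), (.ofNat (nat_lit 11141085758872670015691161600)), (.ofNat (nat_lit 2237918832)), (.ofNat (nat_lit 2237918864)), (.ofNat (nat_lit 8499973876093040478280)), (.negSucc (nat_lit 8499973876093040478279)), (.negSucc (nat_lit 8499973876093040478279)), (.ofNat (nat_lit 8499973876093040478280)), (.ofNat (nat_lit 0))⟩,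
    ⟨nat_lit 0, nat_lit 14, nat_lit 13, (.ofNat (nat_lit 8)), (.ofNat (nat_lit 632380224)), (.ofNat (nat_lit 55868804004244303050971551004160)), (.ofNat (nat_lit 524288)), (.ofNat (nat_lit 13369302910647204018829393920)), (.ofNat (nat_lit 632380208)), (.ofNat (nat_lit 632380240)), (.ofNat (nat_lit 8499973876093040478280)), (.negSucc (nat_lit 8499973876093040478279)), (.negSucc (nat_lit 8499973876093040478279)), (.ofNat (nat_lit 8499973876093040478280)), (.ofNat (nat_lit 0))⟩,
    ⟨nat_lit 0, nat_lit 15, nat_lit 14, (.ofNat (nat_lit 8)), (.negSucc (nat_lit 2013595071)), (.ofNat (nat_lit 33378083111456752947914646433280)), (.ofNat (nat_lit 262144)), (.ofNat (nat_lit 11141085758872670015691161600)), (.negSucc (nat_lit 2013595087)), (.negSucc (nat_lit 2013595055)), (.negSucc (nat_lit 8499973876093040478279)), (.ofNat (nat_lit 8499973876093040478280)), (.negSucc (nat_lit 8499973876093040478279)), (.ofNat (nat_lit 8499973876093040478280)), (.ofNat (nat_lit 0))⟩,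
    ⟨nat_lit 2, nat_lit 15, nat_lit 16, (.ofNat (nat_lit 8)), (.negSucc (nat_lit 7033604799)), (.ofNat (nat_lit 76048034657189682781978019141120)), (.negSucc (nat_lit 1048575)), (.ofNat (nat_lit 22282171517745340031382323200)), (.negSucc (nat_lit 7033604815)), (.negSucc (nat_lit 7033604783)), (.negSucc (nat_lit 8499973876093040478279)), (.ofNat (nat_lit 8499973876093040478280)), (.negSucc (nat_lit 8499973876093040478279)), (.ofNat (nat_lit 8499973876093040478280)), (.ofNat (nat_lit 0))⟩,
    ⟨nat_lit 0, nat_lit 16, nat_lit 17, (.ofNat (nat_lit 8)), (.negSucc (nat_lit 4370852287)), (.ofNat (nat_lit 98681361447690803061235770580480)), (.ofNat (nat_lit 2011259456)), (.ofNat (nat_lit 17126847874169943473775347868160)), (.negSucc (nat_lit 4370852303)), (.negSucc (nat_lit 4370852271)), (.ofNat (nat_lit 8499973876093040478280)), (.negSucc (nat_lit 8499973876093040478279)), (.negSucc (nat_lit 8499973876093040478279)), (.ofNat (nat_lit 8499973876093040478280)), (.ofNat (nat_lit 0))⟩,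
    ⟨nat_lit 2, nat_lit 19, nat_lit 7, (.ofNat (nat_lit 8)), (.negSucc (nat_lit 5800444351)), (.ofNat (nat_lit 49847309358767754625603152140800)), (.negSucc (nat_lit 1310719)), (.ofNat (nat_lit 11141085758872670015691161600)), (.negSucc (nat_lit 5800444367)), (.negSucc (nat_lit 5800444335)), (.negSucc (nat_lit 8499973876093040478279)), (.ofNat (nat_lit 8499973876093040478280)), (.negSucc (nat_lit 8499973876093040478279)), (.ofNat (nat_lit 8499973876093040478280)), (.ofNat (nat_lit 0))⟩]
  es := [
    ⟨nat_lit 1, nat_lit 0, (.negSucc (nat_lit 7973208063)), (.negSucc (nat_lit 2929063679)), (.negSucc (nat_lit 7973208047)), (.negSucc (nat_lit 2929063695)), (.negSucc (nat_lit 8499973876093040478279)), (.ofNat (nat_lit 0)), (.ofNat (nat_lit 4456434303549068006276464640))⟩,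
    ⟨nat_lit 1, nat_lit 2, (.negSucc (nat_lit 7973208063)), (.negSucc (nat_lit 2400504703)), (.negSucc (nat_lit 7973208047)), (.negSucc (nat_lit 2400504719)), (.ofNat (nat_lit 8499973876093040478280)), (.ofNat (nat_lit 0)), (.ofNat (nat_lit 35651474428392544050211717120))⟩,
    ⟨nat_lit 2, nat_lit 3, (.negSucc (nat_lit 2400504703)), (.ofNat (nat_lit 822548224)), (.negSucc (nat_lit 2400504687)), (.ofNat (nat_lit 822548208)), (.negSucc (nat_lit 8499973876093040478279)), (.ofNat (nat_lit 0)), (.ofNat (nat_lit 34226957142518592539513036948480))⟩,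
    ⟨nat_lit 3, nat_lit 4, (.ofNat (nat_lit 822548224)), (.ofNat (nat_lit 4341455808)), (.ofNat (nat_lit 822548240)), (.ofNat (nat_lit 4341455792)), (.ofNat (nat_lit 8499973876093040478280)), (.ofNat (nat_lit 0)), (.ofNat (nat_lit 17825737214196272025105858560))⟩,
    ⟨nat_lit 5, nat_lit 4, (.ofNat (nat_lit 1076442432)), (.ofNat (nat_lit 4341455808)), (.ofNat (nat_lit 1076442448)), (.ofNat (nat_lit 4341455792)), (.negSucc (nat_lit 8499973876093040478279)), (.ofNat (nat_lit 0)), (.ofNat (nat_lit 34240326445429239743531866342400))⟩,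
    ⟨nat_lit 6, nat_lit 5, (.negSucc (nat_lit 7936312511)), (.ofNat (nat_lit 1076442432)), (.negSucc (nat_lit 7936312495)), (.ofNat (nat_lit 1076442416)), (.ofNat (nat_lit 8499973876093040478280)), (.ofNat (nat_lit 0)), (.ofNat (nat_lit 40107908731941612056488181760))⟩,
    ⟨nat_lit 6, nat_lit 12, (.negSucc (nat_lit 7936312511)), (.negSucc (nat_lit 6744279231)), (.negSucc (nat_lit 7936312495)), (.negSucc (nat_lit 6744279247)), (.negSucc (nat_lit 8499973876093040478279)), (.ofNat (nat_lit 0)), (.ofNat (nat_lit 8912868607098136012552929280))⟩,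
    ⟨nat_lit 19, nat_lit 7, (.negSucc (nat_lit 5800444351)), (.ofNat (nat_lit 1793742080)), (.negSucc (nat_lit 5800444335)), (.ofNat (nat_lit 1793742064)), (.ofNat (nat_lit 8499973876093040478280)), (.ofNat (nat_lit 0)), (.ofNat (nat_lit 22282171517745340031382323200))⟩,
    ⟨nat_lit 7, nat_lit 8, (.ofNat (nat_lit 1793742080)), (.ofNat (nat_lit 7607555712)), (.ofNat (nat_lit 1793742096)), (.ofNat (nat_lit 7607555696)), (.negSucc (nat_lit 8499973876093040478279)), (.ofNat (nat_lit 0)), (.ofNat (nat_lit 34231413576822141607519313413120))⟩,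
    ⟨nat_lit 8, nat_lit 9, (.ofNat (nat_lit 7607555712)), (.ofNat (nat_lit 9099016448)), (.ofNat (nat_lit 7607555728)), (.ofNat (nat_lit 9099016432)), (.ofNat (nat_lit 8499973876093040478280)), (.ofNat (nat_lit 0)), (.ofNat (nat_lit 0))⟩,
    ⟨nat_lit 10, nat_lit 9, (.ofNat (nat_lit 6129582656)), (.ofNat (nat_lit 9099016448)), (.ofNat (nat_lit 6129582672)), (.ofNat (nat_lit 9099016432)), (.negSucc (nat_lit 8499973876093040478279)), (.ofNat (nat_lit 0)), (.ofNat (nat_lit 34235870011125690675525589877760))⟩,
    ⟨nat_lit 12, nat_lit 11, (.negSucc (nat_lit 6744279231)), (.negSucc (nat_lit 3262739903)), (.negSucc (nat_lit 6744279215)), (.negSucc (nat_lit 3262739919)), (.ofNat (nat_lit 8499973876093040478280)), (.ofNat (nat_lit 0)), (.ofNat (nat_lit 26738605821294408037658787840))⟩,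
    ⟨nat_lit 13, nat_lit 14, (.negSucc (nat_lit 1332700095)), (.ofNat (nat_lit 2237918848)), (.negSucc (nat_lit 1332700079)), (.ofNat (nat_lit 2237918832)), (.ofNat (nat_lit 8499973876093040478280)), (.ofNat (nat_lit 0)), (.ofNat (nat_lit 4456434303549068006276464640))⟩,
    ⟨nat_lit 15, nat_lit 14, (.ofNat (nat_lit 632380224)), (.ofNat (nat_lit 2237918848)), (.ofNat (nat_lit 632380240)), (.ofNat (nat_lit 2237918832)), (.negSucc (nat_lit 8499973876093040478279)), (.ofNat (nat_lit 0)), (.ofNat (nat_lit 17825737214196272025105858560))⟩,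
    ⟨nat_lit 16, nat_lit 15, (.negSucc (nat_lit 2013595071)), (.ofNat (nat_lit 632380224)), (.negSucc (nat_lit 2013595055)), (.ofNat (nat_lit 632380208)), (.ofNat (nat_lit 8499973876093040478280)), (.ofNat (nat_lit 0)), (.ofNat (nat_lit 8912868607098136012552929280))⟩,
    ⟨nat_lit 17, nat_lit 16, (.negSucc (nat_lit 7033604799)), (.negSucc (nat_lit 2013595071)), (.negSucc (nat_lit 7033604783)), (.negSucc (nat_lit 2013595087)), (.negSucc (nat_lit 8499973876093040478279)), (.ofNat (nat_lit 0)), (.ofNat (nat_lit 13369302910647204018829393920))⟩,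
    ⟨nat_lit 17, nat_lit 18, (.negSucc (nat_lit 7033604799)), (.negSucc (nat_lit 4370852287)), (.negSucc (nat_lit 7033604783)), (.negSucc (nat_lit 4370852303)), (.ofNat (nat_lit 8499973876093040478280)), (.ofNat (nat_lit 0)), (.ofNat (nat_lit 31195040124843476043935252480))⟩,
    ⟨nat_lit 18, nat_lit 11, (.negSucc (nat_lit 4370852287)), (.negSucc (nat_lit 3262739903)), (.negSucc (nat_lit 4370852271)), (.negSucc (nat_lit 3262739919)), (.negSucc (nat_lit 8499973876093040478279)), (.ofNat (nat_lit 0)), (.ofNat (nat_lit 34222500708215043471506760483840))⟩,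
    ⟨nat_lit 0, nat_lit 10, (.negSucc (nat_lit 2929063679)), (.ofNat (nat_lit 6129582656)), (.negSucc (nat_lit 2929063663)), (.ofNat (nat_lit 6129582640)), (.ofNat (nat_lit 8499973876093040478280)), (.ofNat (nat_lit 0)), (.ofNat (nat_lit 13369302910647204018829393920))⟩,
    ⟨nat_lit 19, nat_lit 13, (.negSucc (nat_lit 5800444351)), (.negSucc (nat_lit 1332700095)), (.negSucc (nat_lit 5800444335)), (.negSucc (nat_lit 1332700111)), (.negSucc (nat_lit 8499973876093040478279)), (.ofNat (nat_lit 0)), (.ofNat (nat_lit 0))⟩]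

theorem ok113 : stOK 19 19 S113 = true := by decide +kernel

def S114 : SD where
  vs := [
    ⟨nat_lit 0, nat_lit 0, nat_lit 18, (.ofNat (nat_lit 8)), (.negSucc (nat_lit 2929587967)), (.ofNat (nat_lit 25908574260321927463215353123840)), (.negSucc (nat_lit 524287)), (.ofNat (nat_lit 8912868607098136012552929280)), (.negSucc (nat_lit 2929587983)), (.negSucc (nat_lit 2929587951)), (.negSucc (nat_lit 8499973876093040478279)), (.ofNat (nat_lit 8499973876093040478280)), (.negSucc (nat_lit 8499973876093040478279)), (.ofNat (nat_lit 8499973876093040478280)), (.ofNat (nat_lit 0))⟩,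
    ⟨nat_lit 2, nat_lit 0, nat_lit 1, (.ofNat (nat_lit 8)), (.negSucc (nat_lit 7975043071)), (.ofNat (nat_lit 68794810837322222123231780264960)), (.negSucc (nat_lit 1835007)), (.ofNat (nat_lit 20053954365970806028244090880)), (.negSucc (nat_lit 7975043087)), (.negSucc (nat_lit 7975043055)), (.negSucc (nat_lit 8499973876093040478279)), (.ofNat (nat_lit 8499973876093040478280)), (.negSucc (nat_lit 8499973876093040478279)), (.ofNat (nat_lit 8499973876093040478280)), (.ofNat (nat_lit 0))⟩,
    ⟨nat_lit 0, nat_lit 1, nat_lit 2, (.ofNat (nat_lit 8)), (.ofNat (nat_lit 244684096)), (.ofNat (nat_lit 138662277033934452638273610176000)), (.ofNat (nat_lit 2645188800)), (.ofNat (nat_lit 22519687171762290975143110981120)), (.ofNat (nat_lit 244684080)), (.ofNat (nat_lit 244684112)), (.ofNat (nat_lit 8499973876093040478280)), (.negSucc (nat_lit 8499973876093040478279)), (.negSucc (nat_lit 8499973876093040478279)), (.ofNat (nat_lit 8499973876093040478280)), (.ofNat (nat_lit 0))⟩,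
    ⟨nat_lit 0, nat_lit 2, nat_lit 3, (.ofNat (nat_lit 8)), (.ofNat (nat_lit 3468785600)), (.ofNat (nat_lit 111257498476062171188318182842880)), (.ofNat (nat_lit 2646237376)), (.ofNat (nat_lit 22510774303155192839130558051840)), (.ofNat (nat_lit 3468785584)), (.ofNat (nat_lit 3468785616)), (.negSucc (nat_lit 8499973876093040478279)), (.ofNat (nat_lit 8499973876093040478280)), (.negSucc (nat_lit 8499973876093040478279)), (.ofNat (nat_lit 8499973876093040478280)), (.ofNat (nat_lit 0))⟩,
    ⟨nat_lit 1, nat_lit 3, nat_lit 4, (.ofNat (nat_lit 8)), (.ofNat (nat_lit 6988479616)), (.ofNat (nat_lit 141174805663903171218966076815360)), (.ofNat (nat_lit 2647023808)), (.ofNat (nat_lit 22517458954610516441139972748800)), (.ofNat (nat_lit 6988479600)), (.ofNat (nat_lit 6988479632)), (.ofNat (nat_lit 8499973876093040478280)), (.negSucc (nat_lit 8499973876093040478279)), (.negSucc (nat_lit 8499973876093040478279)), (.ofNat (nat_lit 8499973876093040478280)), (.ofNat (nat_lit 0))⟩,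
    ⟨nat_lit 0, nat_lit 5, nat_lit 4, (.ofNat (nat_lit 8)), (.ofNat (nat_lit 3722155520)), (.ofNat (nat_lit 168938475150756387671075405450240)), (.ofNat (nat_lit 2645713088)), (.ofNat (nat_lit 22528600040369389111155663910400)), (.ofNat (nat_lit 3722155504)), (.ofNat (nat_lit 3722155536)), (.ofNat (nat_lit 8499973876093040478280)), (.negSucc (nat_lit 8499973876093040478279)), (.negSucc (nat_lit 8499973876093040478279)), (.ofNat (nat_lit 8499973876093040478280)), (.ofNat (nat_lit 0))⟩,
    ⟨nat_lit 2, nat_lit 6, nat_lit 5, (.ofNat (nat_lit 8)), (.negSucc (nat_lit 7938147519)), (.ofNat (nat_lit 69826203923428124459344067479040)), (.negSucc (nat_lit 1835007)), (.ofNat (nat_lit 24510388669519874034520555520)), (.negSucc (nat_lit 7938147535)), (.negSucc (nat_lit 7938147503)), (.negSucc (nat_lit 8499973876093040478279)), (.ofNat (nat_lit 8499973876093040478280)), (.negSucc (nat_lit 8499973876093040478279)), (.ofNat (nat_lit 8499973876093040478280)), (.ofNat (nat_lit 0))⟩,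
    ⟨nat_lit 0, nat_lit 7, nat_lit 8, (.ofNat (nat_lit 8)), (.ofNat (nat_lit 4439979456)), (.ofNat (nat_lit 136912926378406713702520753354240)), (.ofNat (nat_lit 2646237376)), (.ofNat (nat_lit 22515230737458741907136834516480)), (.ofNat (nat_lit 4439979440)), (.ofNat (nat_lit 4439979472)), (.ofNat (nat_lit 8499973876093040478280)), (.negSucc (nat_lit 8499973876093040478279)), (.negSucc (nat_lit 8499973876093040478279)), (.ofNat (nat_lit 8499973876093040478280)), (.ofNat (nat_lit 0))⟩,
    ⟨nat_lit 0, nat_lit 8, nat_lit 9, (.ofNat (nat_lit 8)), (.ofNat (nat_lit 10255103808)), (.ofNat (nat_lit 87484521300174243399552998279680)), (.ofNat (nat_lit 2647548096)), (.ofNat (nat_lit 22504089651699869237121143354880)), (.ofNat (nat_lit 10255103792)), (.ofNat (nat_lit 10255103824)), (.negSucc (nat_lit 8499973876093040478279)), (.ofNat (nat_lit 8499973876093040478280)), (.negSucc (nat_lit 8499973876093040478279)), (.ofNat (nat_lit 8499973876093040478280)), (.ofNat (nat_lit 0))⟩,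
    ⟨nat_lit 1, nat_lit 9, nat_lit 10, (.ofNat (nat_lit 8)), (.ofNat (nat_lit 11746826688)), (.ofNat (nat_lit 100164126810544516889769417326080)), (.ofNat (nat_lit 2647810240)), (.ofNat (nat_lit 22506317868851643771124281587200)), (.ofNat (nat_lit 11746826672)), (.ofNat (nat_lit 11746826704)), (.ofNat (nat_lit 8499973876093040478280)), (.negSucc (nat_lit 8499973876093040478279)), (.negSucc (nat_lit 8499973876093040478279)), (.ofNat (nat_lit 8499973876093040478280)), (.ofNat (nat_lit 0))⟩,
    ⟨nat_lit 0, nat_lit 18, nat_lit 10, (.ofNat (nat_lit 8)), (.ofNat (nat_lit 8776606464)), (.ofNat (nat_lit 125410921120787735824007306060800)), (.ofNat (nat_lit 2647023808)), (.ofNat (nat_lit 22513002520306967373133696284160)), (.ofNat (nat_lit 8776606448)), (.ofNat (nat_lit 8776606480)), (.ofNat (nat_lit 8499973876093040478280)), (.negSucc (nat_lit 8499973876093040478279)), (.negSucc (nat_lit 8499973876093040478279)), (.ofNat (nat_lit 8499973876093040478280)), (.ofNat (nat_lit 0))⟩,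
    ⟨nat_lit 1, nat_lit 11, nat_lit 17, (.ofNat (nat_lit 8)), (.negSucc (nat_lit 617288959)), (.ofNat (nat_lit 111775437652222590744174115845120)), (.ofNat (nat_lit 2645450944)), (.ofNat (nat_lit 22513002520306967373133696284160)), (.negSucc (nat_lit 617288975)), (.negSucc (nat_lit 617288943)), (.ofNat (nat_lit 8499973876093040478280)), (.negSucc (nat_lit 8499973876093040478279)), (.negSucc (nat_lit 8499973876093040478279)), (.ofNat (nat_lit 8499973876093040478280)), (.ofNat (nat_lit 0))⟩,
    ⟨nat_lit 0, nat_lit 6, nat_lit 11, (.ofNat (nat_lit 8)), (.negSucc (nat_lit 6745327807)), (.ofNat (nat_lit 59687267532539300230837775623680)), (.negSucc (nat_lit 1048575)), (.ofNat (nat_lit 17825737214196272025105858560)), (.negSucc (nat_lit 6745327823)), (.negSucc (nat_lit 6745327791)), (.negSucc (nat_lit 8499973876093040478279)), (.ofNat (nat_lit 8499973876093040478280)), (.negSucc (nat_lit 8499973876093040478279)), (.ofNat (nat_lit 8499973876093040478280)), (.ofNat (nat_lit 0))⟩,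
    ⟨nat_lit 0, nat_lit 19, nat_lit 12, (.ofNat (nat_lit 8)), (.negSucc (nat_lit 1332962239)), (.ofNat (nat_lit 11873828114854791841195327613440)), (.negSucc (nat_lit 262143)), (.ofNat (nat_lit 2228217151774534003138232320)), (.negSucc (nat_lit 1332962255)), (.negSucc (nat_lit 1332962223)), (.negSucc (nat_lit 8499973876093040478279)), (.ofNat (nat_lit 8499973876093040478280)), (.negSucc (nat_lit 8499973876093040478279)), (.ofNat (nat_lit 8499973876093040478280)), (.ofNat (nat_lit 0))⟩,
    ⟨nat_lit 1, nat_lit 12, nat_lit 13, (.ofNat (nat_lit 8)), (.ofNat (nat_lit 2238443136)), (.ofNat (nat_lit 42230680511793034481510130846720)), (.ofNat (nat_lit 524288)), (.ofNat (nat_lit 8912868607098136012552929280)), (.ofNat (nat_lit 2238443120)), (.ofNat (nat_lit 2238443152)), (.ofNat (nat_lit 8499973876093040478280)), (.negSucc (nat_lit 8499973876093040478279)), (.negSucc (nat_lit 8499973876093040478279)), (.ofNat (nat_lit 8499973876093040478280)), (.ofNat (nat_lit 0))⟩,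
    ⟨nat_lit 0, nat_lit 14, nat_lit 13, (.ofNat (nat_lit 8)), (.ofNat (nat_lit 632642368)), (.ofNat (nat_lit 55879945090003175720987242165760)), (.ofNat (nat_lit 262144)), (.ofNat (nat_lit 11141085758872670015691161600)), (.ofNat (nat_lit 632642352)), (.ofNat (nat_lit 632642384)), (.ofNat (nat_lit 8499973876093040478280)), (.negSucc (nat_lit 8499973876093040478279)), (.negSucc (nat_lit 8499973876093040478279)), (.ofNat (nat_lit 8499973876093040478280)), (.ofNat (nat_lit 0))⟩,
    ⟨nat_lit 0, nat_lit 15, nat_lit 14, (.ofNat (nat_lit 8)), (.ofNat (nat_lit 632642304)), (.ofNat (nat_lit 55879944546004847651032651555840)), (.ofNat (nat_lit 2646237376)), (.ofNat (nat_lit 22501861434548094703118005122560)), (.ofNat (nat_lit 632642288)), (.ofNat (nat_lit 632642320)), (.negSucc (nat_lit 8499973876093040478279)), (.ofNat (nat_lit 8499973876093040478280)), (.negSucc (nat_lit 8499973876093040478279)), (.ofNat (nat_lit 8499973876093040478280)), (.ofNat (nat_lit 0))⟩,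
    ⟨nat_lit 2, nat_lit 15, nat_lit 16, (.ofNat (nat_lit 8)), (.negSucc (nat_lit 4388678143)), (.ofNat (nat_lit 98561037177496650155111715425280)), (.ofNat (nat_lit 2644926656)), (.ofNat (nat_lit 22513002520306967373133696284160)), (.negSucc (nat_lit 4388678159)), (.negSucc (nat_lit 4388678127)), (.negSucc (nat_lit 8499973876093040478279)), (.ofNat (nat_lit 8499973876093040478280)), (.negSucc (nat_lit 8499973876093040478279)), (.ofNat (nat_lit 8499973876093040478280)), (.ofNat (nat_lit 0))⟩,
    ⟨nat_lit 0, nat_lit 16, nat_lit 17, (.ofNat (nat_lit 8)), (.negSucc (nat_lit 1725663487)), (.ofNat (nat_lit 121196592185149544968372605096960)), (.ofNat (nat_lit 2645188800)), (.ofNat (nat_lit 22515230737458741907136834516480)), (.negSucc (nat_lit 1725663503)), (.negSucc (nat_lit 1725663471)), (.ofNat (nat_lit 8499973876093040478280)), (.negSucc (nat_lit 8499973876093040478279)), (.negSucc (nat_lit 8499973876093040478279)), (.ofNat (nat_lit 8499973876093040478280)), (.ofNat (nat_lit 0))⟩,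
    ⟨nat_lit 2, nat_lit 19, nat_lit 7, (.ofNat (nat_lit 8)), (.negSucc (nat_lit 5801755071)), (.ofNat (nat_lit 49858450444526627295618843302400)), (.negSucc (nat_lit 1310719)), (.ofNat (nat_lit 11141085758872670015691161600)), (.negSucc (nat_lit 5801755087)), (.negSucc (nat_lit 5801755055)), (.negSucc (nat_lit 8499973876093040478279)), (.ofNat (nat_lit 8499973876093040478280)), (.negSucc (nat_lit 8499973876093040478279)), (.ofNat (nat_lit 8499973876093040478280)), (.ofNat (nat_lit 0))⟩]
  es := [
    ⟨nat_lit 1, nat_lit 0, (.negSucc (nat_lit 7975043071)), (.negSucc (nat_lit 2929587967)), (.negSucc (nat_lit 7975043055)), (.negSucc (nat_lit 2929587983)), (.negSucc (nat_lit 8499973876093040478279)), (.ofNat (nat_lit 0)), (.ofNat (nat_lit 4456434303549068006276464640))⟩,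
    ⟨nat_lit 1, nat_lit 2, (.negSucc (nat_lit 7975043071)), (.ofNat (nat_lit 244684096)), (.negSucc (nat_lit 7975043055)), (.ofNat (nat_lit 244684080)), (.ofNat (nat_lit 8499973876093040478280)), (.ofNat (nat_lit 0)), (.ofNat (nat_lit 35651474428392544050211717120))⟩,
    ⟨nat_lit 2, nat_lit 3, (.ofNat (nat_lit 244684096)), (.ofNat (nat_lit 3468785600)), (.ofNat (nat_lit 244684112)), (.ofNat (nat_lit 3468785584)), (.negSucc (nat_lit 8499973876093040478279)), (.ofNat (nat_lit 0)), (.ofNat (nat_lit 45003722869096189406236010245120))⟩,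
    ⟨nat_lit 3, nat_lit 4, (.ofNat (nat_lit 3468785600)), (.ofNat (nat_lit 6988479616)), (.ofNat (nat_lit 3468785616)), (.ofNat (nat_lit 6988479600)), (.ofNat (nat_lit 8499973876093040478280)), (.ofNat (nat_lit 0)), (.ofNat (nat_lit 17825737214196272025105858560))⟩,
    ⟨nat_lit 5, nat_lit 4, (.ofNat (nat_lit 3722155520)), (.ofNat (nat_lit 6988479616)), (.ofNat (nat_lit 3722155536)), (.ofNat (nat_lit 6988479600)), (.negSucc (nat_lit 8499973876093040478279)), (.ofNat (nat_lit 0)), (.ofNat (nat_lit 45017092172006836610254839639040))⟩,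
    ⟨nat_lit 6, nat_lit 5, (.negSucc (nat_lit 7938147519)), (.ofNat (nat_lit 3722155520)), (.negSucc (nat_lit 7938147503)), (.ofNat (nat_lit 3722155504)), (.ofNat (nat_lit 8499973876093040478280)), (.ofNat (nat_lit 0)), (.ofNat (nat_lit 40107908731941612056488181760))⟩,
    ⟨nat_lit 6, nat_lit 12, (.negSucc (nat_lit 7938147519)), (.negSucc (nat_lit 6745327807)), (.negSucc (nat_lit 7938147503)), (.negSucc (nat_lit 6745327823)), (.negSucc (nat_lit 8499973876093040478279)), (.ofNat (nat_lit 0)), (.ofNat (nat_lit 8912868607098136012552929280))⟩,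
    ⟨nat_lit 19, nat_lit 7, (.negSucc (nat_lit 5801755071)), (.ofNat (nat_lit 4439979456)), (.negSucc (nat_lit 5801755055)), (.ofNat (nat_lit 4439979440)), (.ofNat (nat_lit 8499973876093040478280)), (.ofNat (nat_lit 0)), (.ofNat (nat_lit 22282171517745340031382323200))⟩,
    ⟨nat_lit 7, nat_lit 8, (.ofNat (nat_lit 4439979456)), (.ofNat (nat_lit 10255103808)), (.ofNat (nat_lit 4439979472)), (.ofNat (nat_lit 10255103792)), (.negSucc (nat_lit 8499973876093040478279)), (.ofNat (nat_lit 0)), (.ofNat (nat_lit 45008179303399738474242286709760))⟩,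
    ⟨nat_lit 8, nat_lit 9, (.ofNat (nat_lit 10255103808)), (.ofNat (nat_lit 11746826688)), (.ofNat (nat_lit 10255103824)), (.ofNat (nat_lit 11746826672)), (.ofNat (nat_lit 8499973876093040478280)), (.ofNat (nat_lit 0)), (.ofNat (nat_lit 0))⟩,
    ⟨nat_lit 10, nat_lit 9, (.ofNat (nat_lit 8776606464)), (.ofNat (nat_lit 11746826688)), (.ofNat (nat_lit 8776606480)), (.ofNat (nat_lit 11746826672)), (.negSucc (nat_lit 8499973876093040478279)), (.ofNat (nat_lit 0)), (.ofNat (nat_lit 45012635737703287542248563174400))⟩,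
    ⟨nat_lit 12, nat_lit 11, (.negSucc (nat_lit 6745327807)), (.negSucc (nat_lit 617288959)), (.negSucc (nat_lit 6745327791)), (.negSucc (nat_lit 617288975)), (.ofNat (nat_lit 8499973876093040478280)), (.ofNat (nat_lit 0)), (.ofNat (nat_lit 26738605821294408037658787840))⟩,
    ⟨nat_lit 13, nat_lit 14, (.negSucc (nat_lit 1332962239)), (.ofNat (nat_lit 2238443136)), (.negSucc (nat_lit 1332962223)), (.ofNat (nat_lit 2238443120)), (.ofNat (nat_lit 8499973876093040478280)), (.ofNat (nat_lit 0)), (.ofNat (nat_lit 4456434303549068006276464640))⟩,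
    ⟨nat_lit 15, nat_lit 14, (.ofNat (nat_lit 632642368)), (.ofNat (nat_lit 2238443136)), (.ofNat (nat_lit 632642384)), (.ofNat (nat_lit 2238443120)), (.negSucc (nat_lit 8499973876093040478279)), (.ofNat (nat_lit 0)), (.ofNat (nat_lit 13369302910647204018829393920))⟩,
    ⟨nat_lit 16, nat_lit 15, (.ofNat (nat_lit 632642304)), (.ofNat (nat_lit 632642368)), (.ofNat (nat_lit 632642320)), (.ofNat (nat_lit 632642352)), (.ofNat (nat_lit 8499973876093040478280)), (.ofNat (nat_lit 0)), (.ofNat (nat_lit 8912868607098136012552929280))⟩,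
    ⟨nat_lit 17, nat_lit 16, (.negSucc (nat_lit 4388678143)), (.ofNat (nat_lit 632642304)), (.negSucc (nat_lit 4388678127)), (.ofNat (nat_lit 632642288)), (.negSucc (nat_lit 8499973876093040478279)), (.ofNat (nat_lit 0)), (.ofNat (nat_lit 44994810000489091270223457315840))⟩,
    ⟨nat_lit 17, nat_lit 18, (.negSucc (nat_lit 4388678143)), (.negSucc (nat_lit 1725663487)), (.negSucc (nat_lit 4388678127)), (.negSucc (nat_lit 1725663503)), (.ofNat (nat_lit 8499973876093040478280)), (.ofNat (nat_lit 0)), (.ofNat (nat_lit 31195040124843476043935252480))⟩,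
    ⟨nat_lit 18, nat_lit 11, (.negSucc (nat_lit 1725663487)), (.negSucc (nat_lit 617288959)), (.negSucc (nat_lit 1725663471)), (.negSucc (nat_lit 617288975)), (.negSucc (nat_lit 8499973876093040478279)), (.ofNat (nat_lit 0)), (.ofNat (nat_lit 44999266434792640338229733780480))⟩,
    ⟨nat_lit 0, nat_lit 10, (.negSucc (nat_lit 2929587967)), (.ofNat (nat_lit 8776606464)), (.negSucc (nat_lit 2929587951)), (.ofNat (nat_lit 8776606448)), (.ofNat (nat_lit 8499973876093040478280)), (.ofNat (nat_lit 0)), (.ofNat (nat_lit 13369302910647204018829393920))⟩,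
    ⟨nat_lit 19, nat_lit 13, (.negSucc (nat_lit 5801755071)), (.negSucc (nat_lit 1332962239)), (.negSucc (nat_lit 5801755055)), (.negSucc (nat_lit 1332962255)), (.negSucc (nat_lit 8499973876093040478279)), (.ofNat (nat_lit 0)), (.ofNat (nat_lit 0))⟩]

theorem ok114 : stOK 19 19 S114 = true := by decide +kernel

def S115 : SD where
  vs := [
    ⟨nat_lit 0, nat_lit 0, nat_lit 18, (.ofNat (nat_lit 8)), (.negSucc (nat_lit 2929587967)), (.ofNat (nat_lit 26313396676569386572721970253440)), (.ofNat (nat_lit 0)), (.ofNat (nat_lit 404822416247459109506617129600)), (.negSucc (nat_lit 2929587983)), (.negSucc (nat_lit 2929587951)), (.negSucc (nat_lit 8632786277423437317104)), (.ofNat (nat_lit 8632786277423437317105)), (.negSucc (nat_lit 8632786277423437317104)), (.ofNat (nat_lit 8632786277423437317105)), (.ofNat (nat_lit 796874407982381032950))⟩,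
    ⟨nat_lit 2, nat_lit 0, nat_lit 1, (.ofNat (nat_lit 8)), (.negSucc (nat_lit 7975043071)), (.ofNat (nat_lit 69869732261736628353533459007360)), (.ofNat (nat_lit 0)), (.ofNat (nat_lit 1074921424414406230301678742400)), (.negSucc (nat_lit 7975043087)), (.negSucc (nat_lit 7975043055)), (.negSucc (nat_lit 8632786277423437317104)), (.ofNat (nat_lit 8632786277423437317105)), (.negSucc (nat_lit 8632786277423437317104)), (.ofNat (nat_lit 8632786277423437317105)), (.ofNat (nat_lit 796874407982381032950))⟩,
    ⟨nat_lit 0, nat_lit 1, nat_lit 2, (.ofNat (nat_lit 8)), (.ofNat (nat_lit 244684096)), (.ofNat (nat_lit 140828880161811641108886458616000)), (.ofNat (nat_lit 0)), (.ofNat (nat_lit 2166603127877188470612848440000)), (.ofNat (nat_lit 244684080)), (.ofNat (nat_lit 244684112)), (.ofNat (nat_lit 8632786277423437317105)), (.negSucc (nat_lit 8632786277423437317104)), (.negSucc (nat_lit 8632786277423437317104)), (.ofNat (nat_lit 8632786277423437317105)), (.ofNat (nat_lit 796874407982381032950))⟩,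
    ⟨nat_lit 0, nat_lit 2, nat_lit 3, (.ofNat (nat_lit 8)), (.ofNat (nat_lit 3468785600)), (.ofNat (nat_lit 112995900941060175609958503190080)), (.ofNat (nat_lit 0)), (.ofNat (nat_lit 1738402464998004421640320347200)), (.ofNat (nat_lit 3468785584)), (.ofNat (nat_lit 3468785616)), (.negSucc (nat_lit 8632786277423437317104)), (.ofNat (nat_lit 8632786277423437317105)), (.negSucc (nat_lit 8632786277423437317104)), (.ofNat (nat_lit 8632786277423437317105)), (.ofNat (nat_lit 796874407982381032950))⟩,
    ⟨nat_lit 1, nat_lit 3, nat_lit 4, (.ofNat (nat_lit 8)), (.ofNat (nat_lit 6988479616)), (.ofNat (nat_lit 143380667143114363833124066133760)), (.ofNat (nat_lit 0)), (.ofNat (nat_lit 2205861479211192614157989318400)), (.ofNat (nat_lit 6988479600)), (.ofNat (nat_lit 6988479632)), (.ofNat (nat_lit 8632786277423437317105)), (.negSucc (nat_lit 8632786277423437317104)), (.negSucc (nat_lit 8632786277423437317104)), (.ofNat (nat_lit 8632786277423437317105)), (.ofNat (nat_lit 796874407982381032950))⟩,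
    ⟨nat_lit 0, nat_lit 5, nat_lit 4, (.ofNat (nat_lit 8)), (.ofNat (nat_lit 3722155520)), (.ofNat (nat_lit 171578144976680677937129720595840)), (.ofNat (nat_lit 0)), (.ofNat (nat_lit 2639669825924290266054315145600)), (.ofNat (nat_lit 3722155504)), (.ofNat (nat_lit 3722155536)), (.ofNat (nat_lit 8632786277423437317105)), (.negSucc (nat_lit 8632786277423437317104)), (.negSucc (nat_lit 8632786277423437317104)), (.ofNat (nat_lit 8632786277423437317105)), (.ofNat (nat_lit 796874407982381032950))⟩,
    ⟨nat_lit 2, nat_lit 6, nat_lit 5, (.ofNat (nat_lit 8)), (.negSucc (nat_lit 7938147519)), (.ofNat (nat_lit 70917240902369888421240845096640)), (.ofNat (nat_lit 0)), (.ofNat (nat_lit 1091036978941763961896777617600)), (.negSucc (nat_lit 7938147535)), (.negSucc (nat_lit 7938147503)), (.negSucc (nat_lit 8632786277423437317104)), (.ofNat (nat_lit 8632786277423437317105)), (.negSucc (nat_lit 8632786277423437317104)), (.ofNat (nat_lit 8632786277423437317105)), (.ofNat (nat_lit 796874407982381032950))⟩,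
    ⟨nat_lit 0, nat_lit 7, nat_lit 8, (.ofNat (nat_lit 8)), (.ofNat (nat_lit 4439979456)), (.ofNat (nat_lit 139052195838590756933727455259840)), (.ofNat (nat_lit 0)), (.ofNat (nat_lit 2139269460184043231206701905600)), (.ofNat (nat_lit 4439979440)), (.ofNat (nat_lit 4439979472)), (.ofNat (nat_lit 8632786277423437317105)), (.negSucc (nat_lit 8632786277423437317104)), (.negSucc (nat_lit 8632786277423437317104)), (.ofNat (nat_lit 8632786277423437317105)), (.ofNat (nat_lit 796874407982381032950))⟩,
    ⟨nat_lit 0, nat_lit 8, nat_lit 9, (.ofNat (nat_lit 8)), (.ofNat (nat_lit 10255103808)), (.ofNat (nat_lit 88851470131134298775484623618880)), (.ofNat (nat_lit 0)), (.ofNat (nat_lit 1366948830960055375931625339200)), (.ofNat (nat_lit 10255103792)), (.ofNat (nat_lit 10255103824)), (.negSucc (nat_lit 8632786277423437317104)), (.ofNat (nat_lit 8632786277423437317105)), (.negSucc (nat_lit 8632786277423437317104)), (.ofNat (nat_lit 8632786277423437317105)), (.ofNat (nat_lit 796874407982381032950))⟩,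
    ⟨nat_lit 1, nat_lit 9, nat_lit 10, (.ofNat (nat_lit 8)), (.ofNat (nat_lit 11746826688)), (.ofNat (nat_lit 101729194939316867669655967481280)), (.ofNat (nat_lit 0)), (.ofNat (nat_lit 1565068128772350779886550155200)), (.ofNat (nat_lit 11746826672)), (.ofNat (nat_lit 11746826704)), (.ofNat (nat_lit 8632786277423437317105)), (.negSucc (nat_lit 8632786277423437317104)), (.negSucc (nat_lit 8632786277423437317104)), (.ofNat (nat_lit 8632786277423437317105)), (.ofNat (nat_lit 796874407982381032950))⟩,
    ⟨nat_lit 0, nat_lit 18, nat_lit 10, (.ofNat (nat_lit 8)), (.ofNat (nat_lit 8776606464)), (.ofNat (nat_lit 127370471329989635800517539612800)), (.ofNat (nat_lit 0)), (.ofNat (nat_lit 1959550209201899976510233552000)), (.ofNat (nat_lit 8776606448)), (.ofNat (nat_lit 8776606480)), (.ofNat (nat_lit 8632786277423437317105)), (.negSucc (nat_lit 8632786277423437317104)), (.negSucc (nat_lit 8632786277423437317104)), (.ofNat (nat_lit 8632786277423437317105)), (.ofNat (nat_lit 796874407982381032950))⟩,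
    ⟨nat_lit 1, nat_lit 11, nat_lit 17, (.ofNat (nat_lit 8)), (.negSucc (nat_lit 617288959)), (.ofNat (nat_lit 113521932935708241043513941217920)), (.ofNat (nat_lit 0)), (.ofNat (nat_lit 1746495283485650299339825372800)), (.negSucc (nat_lit 617288975)), (.negSucc (nat_lit 617288943)), (.ofNat (nat_lit 8632786277423437317105)), (.negSucc (nat_lit 8632786277423437317104)), (.negSucc (nat_lit 8632786277423437317104)), (.ofNat (nat_lit 8632786277423437317105)), (.ofNat (nat_lit 796874407982381032950))⟩,
    ⟨nat_lit 0, nat_lit 6, nat_lit 11, (.ofNat (nat_lit 8)), (.negSucc (nat_lit 6745327807)), (.ofNat (nat_lit 60619883261176111818601606322880)), (.ofNat (nat_lit 0)), (.ofNat (nat_lit 932615728636811587763830699200)), (.negSucc (nat_lit 6745327823)), (.negSucc (nat_lit 6745327791)), (.negSucc (nat_lit 8632786277423437317104)), (.ofNat (nat_lit 8632786277423437317105)), (.negSucc (nat_lit 8632786277423437317104)), (.ofNat (nat_lit 8632786277423437317105)), (.ofNat (nat_lit 796874407982381032950))⟩,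
    ⟨nat_lit 0, nat_lit 19, nat_lit 12, (.ofNat (nat_lit 8)), (.negSucc (nat_lit 1332962239)), (.ofNat (nat_lit 12059357111520731975209356767040)), (.ofNat (nat_lit 0)), (.ofNat (nat_lit 185528996665940134014029153600)), (.negSucc (nat_lit 1332962255)), (.negSucc (nat_lit 1332962223)), (.negSucc (nat_lit 8632786277423437317104)), (.ofNat (nat_lit 8632788752105719482595)), (.negSucc (nat_lit 8632786277423437317104)), (.ofNat (nat_lit 8632788752105719482595)), (.ofNat (nat_lit 796879357346945363930))⟩,
    ⟨nat_lit 1, nat_lit 12, nat_lit 13, (.ofNat (nat_lit 8)), (.ofNat (nat_lit 2238443136)), (.ofNat (nat_lit 42890545270663429855697078197760)), (.ofNat (nat_lit 0)), (.ofNat (nat_lit 659864758870395374186947351040)), (.ofNat (nat_lit 2238443120)), (.ofNat (nat_lit 2238443152)), (.ofNat (nat_lit 8632788752105719482595)), (.negSucc (nat_lit 8632784777060032178398)), (.negSucc (nat_lit 8632784777060032178398)), (.ofNat (nat_lit 8632788752105719482595)), (.ofNat (nat_lit 796881305984699417498))⟩,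
    ⟨nat_lit 0, nat_lit 14, nat_lit 13, (.ofNat (nat_lit 8)), (.ofNat (nat_lit 632642368)), (.ofNat (nat_lit 56753077695645138309874905408192)), (.ofNat (nat_lit 0)), (.ofNat (nat_lit 873132605641962588887663242432)), (.ofNat (nat_lit 632642352)), (.ofNat (nat_lit 632642384)), (.negSucc (nat_lit 8632784777060032178398)), (.negSucc (nat_lit 8632784777060032178398)), (.negSucc (nat_lit 8632784777060032178398)), (.negSucc (nat_lit 8632784777060032178398)), (.ofNat (nat_lit 68265412810678307226478))⟩,
    ⟨nat_lit 0, nat_lit 15, nat_lit 14, (.ofNat (nat_lit 8)), (.ofNat (nat_lit 632642304)), (.ofNat (nat_lit 56753078248143364041716964825728)), (.ofNat (nat_lit 0)), (.ofNat (nat_lit 873133702138516390684313269888)), (.ofNat (nat_lit 632642288)), (.ofNat (nat_lit 632642320)), (.negSucc (nat_lit 8632784777060032178398)), (.negSucc (nat_lit 8632784777060032178398)), (.negSucc (nat_lit 8632784777060032178398)), (.negSucc (nat_lit 8632784777060032178398)), (.ofNat (nat_lit 34265517306306145313358))⟩,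
    ⟨nat_lit 2, nat_lit 15, nat_lit 16, (.ofNat (nat_lit 8)), (.negSucc (nat_lit 4388678143)), (.ofNat (nat_lit 100101056972378024942649847428480)), (.ofNat (nat_lit 0)), (.ofNat (nat_lit 1540019794881374787538132003200)), (.negSucc (nat_lit 4388678159)), (.negSucc (nat_lit 4388678127)), (.negSucc (nat_lit 8632784777060032178398)), (.ofNat (nat_lit 8632786277423437317105)), (.negSucc (nat_lit 8632784777060032178398)), (.ofNat (nat_lit 8632786277423437317105)), (.ofNat (nat_lit 796868406528760478126))⟩,
    ⟨nat_lit 0, nat_lit 16, nat_lit 17, (.ofNat (nat_lit 8)), (.negSucc (nat_lit 1725663487)), (.ofNat (nat_lit 123090293351272320435997781919360)), (.ofNat (nat_lit 0)), (.ofNat (nat_lit 1893701166122775467625176822400)), (.negSucc (nat_lit 1725663503)), (.negSucc (nat_lit 1725663471)), (.ofNat (nat_lit 8632786277423437317105)), (.negSucc (nat_lit 8632786277423437317104)), (.negSucc (nat_lit 8632786277423437317104)), (.ofNat (nat_lit 8632786277423437317105)), (.ofNat (nat_lit 796874407982381032950))⟩,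
    ⟨nat_lit 2, nat_lit 19, nat_lit 7, (.ofNat (nat_lit 8)), (.negSucc (nat_lit 5801755071)), (.ofNat (nat_lit 50637490548258552086689491758400)), (.ofNat (nat_lit 0)), (.ofNat (nat_lit 779040103731924791070648456000)), (.negSucc (nat_lit 5801755087)), (.negSucc (nat_lit 5801755055)), (.negSucc (nat_lit 8632786277423437317104)), (.ofNat (nat_lit 8632786277423437317105)), (.negSucc (nat_lit 8632786277423437317104)), (.ofNat (nat_lit 8632786277423437317105)), (.ofNat (nat_lit 796874407982381032950))⟩]
  es := [
    ⟨nat_lit 1, nat_lit 0, (.negSucc (nat_lit 7975043071)), (.negSucc (nat_lit 2929587967)), (.negSucc (nat_lit 7975043055)), (.negSucc (nat_lit 2929587983)), (.negSucc (nat_lit 8632786277423437317104)), (.negSucc (nat_lit 132812401330396838824)), (.ofNat (nat_lit 15736803308741337819661872000))⟩,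
    ⟨nat_lit 1, nat_lit 2, (.negSucc (nat_lit 7975043071)), (.ofNat (nat_lit 244684096)), (.negSucc (nat_lit 7975043055)), (.ofNat (nat_lit 244684080)), (.ofNat (nat_lit 8632786277423437317105)), (.ofNat (nat_lit 132812401330396838825)), (.ofNat (nat_lit 2134106045520071122783695612800))⟩,
    ⟨nat_lit 2, nat_lit 3, (.ofNat (nat_lit 244684096)), (.ofNat (nat_lit 3468785600)), (.ofNat (nat_lit 244684112)), (.ofNat (nat_lit 3468785584)), (.negSucc (nat_lit 8632786277423437317104)), (.negSucc (nat_lit 132812401330396838824)), (.ofNat (nat_lit 2199100210234305818442001267200))⟩,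
    ⟨nat_lit 3, nat_lit 4, (.ofNat (nat_lit 3468785600)), (.ofNat (nat_lit 6988479616)), (.ofNat (nat_lit 3468785616)), (.ofNat (nat_lit 6988479600)), (.ofNat (nat_lit 8632786277423437317105)), (.ofNat (nat_lit 132812401330396838825)), (.ofNat (nat_lit 1277704719761703024838639427200))⟩,
    ⟨nat_lit 5, nat_lit 4, (.ofNat (nat_lit 3722155520)), (.ofNat (nat_lit 6988479616)), (.ofNat (nat_lit 3722155536)), (.ofNat (nat_lit 6988479600)), (.negSucc (nat_lit 8632786277423437317104)), (.negSucc (nat_lit 132812401330396838824)), (.ofNat (nat_lit 3134018238660682203477339209600))⟩,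
    ⟨nat_lit 6, nat_lit 5, (.negSucc (nat_lit 7938147519)), (.ofNat (nat_lit 3722155520)), (.negSucc (nat_lit 7938147503)), (.ofNat (nat_lit 3722155504)), (.ofNat (nat_lit 8632786277423437317105)), (.ofNat (nat_lit 132812401330396838825)), (.ofNat (nat_lit 2145321413187898328631291081600))⟩,
    ⟨nat_lit 6, nat_lit 12, (.negSucc (nat_lit 7938147519)), (.negSucc (nat_lit 6745327807)), (.negSucc (nat_lit 7938147503)), (.negSucc (nat_lit 6745327823)), (.negSucc (nat_lit 8632786277423437317104)), (.negSucc (nat_lit 132812401330396838824)), (.ofNat (nat_lit 36752544695629595162264153600))⟩,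
    ⟨nat_lit 19, nat_lit 7, (.negSucc (nat_lit 5801755071)), (.ofNat (nat_lit 4439979456)), (.negSucc (nat_lit 5801755055)), (.ofNat (nat_lit 4439979440)), (.ofNat (nat_lit 8632786277423437317105)), (.ofNat (nat_lit 132812401330396838825)), (.ofNat (nat_lit 1549585126775054198496358726400))⟩,
    ⟨nat_lit 7, nat_lit 8, (.ofNat (nat_lit 4439979456)), (.ofNat (nat_lit 10255103808)), (.ofNat (nat_lit 4439979472)), (.ofNat (nat_lit 10255103792)), (.negSucc (nat_lit 8632786277423437317104)), (.negSucc (nat_lit 132812401330396838824)), (.ofNat (nat_lit 2728953793593032263917045084800))⟩,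
    ⟨nat_lit 8, nat_lit 9, (.ofNat (nat_lit 10255103808)), (.ofNat (nat_lit 11746826688)), (.ofNat (nat_lit 10255103824)), (.ofNat (nat_lit 11746826672)), (.ofNat (nat_lit 8632786277423437317105)), (.ofNat (nat_lit 132812401330396838825)), (.ofNat (nat_lit 4943868327078487946205593600))⟩,
    ⟨nat_lit 10, nat_lit 9, (.ofNat (nat_lit 8776606464)), (.ofNat (nat_lit 11746826688)), (.ofNat (nat_lit 8776606480)), (.ofNat (nat_lit 11746826672)), (.negSucc (nat_lit 8632786277423437317104)), (.negSucc (nat_lit 132812401330396838824)), (.ofNat (nat_lit 3125192389217623071826894716800))⟩,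
    ⟨nat_lit 12, nat_lit 11, (.negSucc (nat_lit 6745327807)), (.negSucc (nat_lit 617288959)), (.negSucc (nat_lit 6745327791)), (.negSucc (nat_lit 617288975)), (.ofNat (nat_lit 8632786277423437317105)), (.ofNat (nat_lit 132812401330396838825)), (.ofNat (nat_lit 1828478912577993580365397244800))⟩,
    ⟨nat_lit 13, nat_lit 14, (.negSucc (nat_lit 1332962239)), (.ofNat (nat_lit 2238443136)), (.negSucc (nat_lit 1332962223)), (.ofNat (nat_lit 2238443120)), (.ofNat (nat_lit 8632788752105719482595)), (.ofNat (nat_lit 132814876012679004315)), (.ofNat (nat_lit 362566211301123008006721219200))⟩,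
    ⟨nat_lit 15, nat_lit 14, (.ofNat (nat_lit 632642368)), (.ofNat (nat_lit 2238443136)), (.ofNat (nat_lit 632642384)), (.ofNat (nat_lit 2238443120)), (.negSucc (nat_lit 8632784777060032178398)), (.negSucc (nat_lit 132810900966991700118)), (.ofNat (nat_lit 957154408525933707887293284224))⟩,
    ⟨nat_lit 16, nat_lit 15, (.ofNat (nat_lit 632642304)), (.ofNat (nat_lit 632642368)), (.ofNat (nat_lit 632642320)), (.ofNat (nat_lit 632642352)), (.negSucc (nat_lit 8632784777060032178398)), (.negSucc (nat_lit 17132758653153072656678)), (.ofNat (nat_lit 11712041610345213140885116818304))⟩,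
    ⟨nat_lit 17, nat_lit 16, (.negSucc (nat_lit 4388678143)), (.ofNat (nat_lit 632642304)), (.negSucc (nat_lit 4388678127)), (.ofNat (nat_lit 632642288)), (.negSucc (nat_lit 8632784777060032178398)), (.negSucc (nat_lit 132810900966991700118)), (.ofNat (nat_lit 957155496522589847796474504064))⟩,
    ⟨nat_lit 17, nat_lit 18, (.negSucc (nat_lit 4388678143)), (.negSucc (nat_lit 1725663487)), (.negSucc (nat_lit 4388678127)), (.negSucc (nat_lit 1725663503)), (.ofNat (nat_lit 8632786277423437317105)), (.ofNat (nat_lit 132812401330396838825)), (.ofNat (nat_lit 2122890677852243916936100144000))⟩,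
    ⟨nat_lit 18, nat_lit 11, (.negSucc (nat_lit 1725663487)), (.negSucc (nat_lit 617288959)), (.negSucc (nat_lit 1725663471)), (.negSucc (nat_lit 617288975)), (.negSucc (nat_lit 8632786277423437317104)), (.negSucc (nat_lit 132812401330396838824)), (.ofNat (nat_lit 1664511654393307018314253500800))⟩,
    ⟨nat_lit 0, nat_lit 10, (.negSucc (nat_lit 2929587967)), (.ofNat (nat_lit 8776606464)), (.negSucc (nat_lit 2929587951)), (.ofNat (nat_lit 8776606448)), (.ofNat (nat_lit 8632786277423437317105)), (.ofNat (nat_lit 132812401330396838825)), (.ofNat (nat_lit 793908029186176881193572387200))⟩,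
    ⟨nat_lit 19, nat_lit 13, (.negSucc (nat_lit 5801755071)), (.negSucc (nat_lit 1332962239)), (.negSucc (nat_lit 5801755055)), (.negSucc (nat_lit 1332962255)), (.negSucc (nat_lit 8632786277423437317104)), (.negSucc (nat_lit 132812401330396838824)), (.ofNat (nat_lit 8495080688795383644938185600))⟩]

theorem ok115 : stOK 19 19 S115 = true := by decide +kernel

def S116 : SD where
  vs := [
    ⟨nat_lit 0, nat_lit 0, nat_lit 18, (.ofNat (nat_lit 8)), (.negSucc (nat_lit 2926704383)), (.ofNat (nat_lit 26351868239709837695106908196480)), (.ofNat (nat_lit 2883584)), (.ofNat (nat_lit 38471563140451122384937943040)), (.negSucc (nat_lit 2926704399)), (.negSucc (nat_lit 2926704367)), (.negSucc (nat_lit 8632786277423437317104)), (.ofNat (nat_lit 8632786277423437317105)), (.negSucc (nat_lit 8632786277423437317104)), (.ofNat (nat_lit 8632786277423437317105)), (.ofNat (nat_lit 0))⟩,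
    ⟨nat_lit 2, nat_lit 0, nat_lit 1, (.ofNat (nat_lit 8)), (.negSucc (nat_lit 7973470207)), (.ofNat (nat_lit 69919518990506623923678672816000)), (.ofNat (nat_lit 1572864)), (.ofNat (nat_lit 49786728769995570145213808640)), (.negSucc (nat_lit 7973470223)), (.negSucc (nat_lit 7973470191)), (.negSucc (nat_lit 8632786277423437317104)), (.ofNat (nat_lit 8632786277423437317105)), (.negSucc (nat_lit 8632786277423437317104)), (.ofNat (nat_lit 8632786277423437317105)), (.ofNat (nat_lit 0))⟩,
    ⟨nat_lit 0, nat_lit 1, nat_lit 2, (.ofNat (nat_lit 8)), (.ofNat (nat_lit 1275033472)), (.ofNat (nat_lit 149759874645910784869173592262400)), (.ofNat (nat_lit 1030349376)), (.ofNat (nat_lit 8930994484099143760287133646400)), (.ofNat (nat_lit 1275033456)), (.ofNat (nat_lit 1275033488)), (.ofNat (nat_lit 8632786277423437317105)), (.negSucc (nat_lit 8632786277423437317104)), (.negSucc (nat_lit 8632786277423437317104)), (.ofNat (nat_lit 8632786277423437317105)), (.ofNat (nat_lit 0))⟩,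
    ⟨nat_lit 0, nat_lit 2, nat_lit 3, (.ofNat (nat_lit 8)), (.ofNat (nat_lit 4500183552)), (.ofNat (nat_lit 121917843292655683812037416144000)), (.ofNat (nat_lit 1031397952)), (.ofNat (nat_lit 8921942351595508202078912953920)), (.ofNat (nat_lit 4500183536)), (.ofNat (nat_lit 4500183568)), (.negSucc (nat_lit 8632786277423437317104)), (.ofNat (nat_lit 8632786277423437317105)), (.negSucc (nat_lit 8632786277423437317104)), (.ofNat (nat_lit 8632786277423437317105)), (.ofNat (nat_lit 0))⟩,
    ⟨nat_lit 1, nat_lit 3, nat_lit 4, (.ofNat (nat_lit 8)), (.ofNat (nat_lit 8460625728)), (.ofNat (nat_lit 156107494162157501573592344364480)), (.ofNat (nat_lit 1472146112)), (.ofNat (nat_lit 12726827019043137740468278230720)), (.ofNat (nat_lit 8460625712)), (.ofNat (nat_lit 8460625744)), (.ofNat (nat_lit 8632786277423437317105)), (.negSucc (nat_lit 8632786277423437317104)), (.negSucc (nat_lit 8632786277423437317104)), (.ofNat (nat_lit 8632786277423437317105)), (.ofNat (nat_lit 0))⟩,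
    ⟨nat_lit 0, nat_lit 5, nat_lit 4, (.ofNat (nat_lit 8)), (.ofNat (nat_lit 5192990912)), (.ofNat (nat_lit 184316287161353360125358274692160)), (.ofNat (nat_lit 1470835392)), (.ofNat (nat_lit 12738142184672682188228554096320)), (.ofNat (nat_lit 5192990896)), (.ofNat (nat_lit 5192990928)), (.ofNat (nat_lit 8632786277423437317105)), (.negSucc (nat_lit 8632786277423437317104)), (.negSucc (nat_lit 8632786277423437317104)), (.ofNat (nat_lit 8632786277423437317105)), (.ofNat (nat_lit 0))⟩,
    ⟨nat_lit 2, nat_lit 6, nat_lit 5, (.ofNat (nat_lit 8)), (.negSucc (nat_lit 7926684927)), (.ofNat (nat_lit 71056929605557552106381387448960)), (.ofNat (nat_lit 11462592)), (.ofNat (nat_lit 139688703187663685140542352320)), (.negSucc (nat_lit 7926684943)), (.negSucc (nat_lit 7926684911)), (.negSucc (nat_lit 8632786277423437317104)), (.ofNat (nat_lit 8632786277423437317105)), (.negSucc (nat_lit 8632786277423437317104)), (.ofNat (nat_lit 8632786277423437317105)), (.ofNat (nat_lit 0))⟩,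
    ⟨nat_lit 0, nat_lit 7, nat_lit 8, (.ofNat (nat_lit 8)), (.ofNat (nat_lit 5720720448)), (.ofNat (nat_lit 150131189430521126142806883259200)), (.ofNat (nat_lit 1280740992)), (.ofNat (nat_lit 11078993591930369209079427999360)), (.ofNat (nat_lit 5720720432)), (.ofNat (nat_lit 5720720464)), (.ofNat (nat_lit 8632786277423437317105)), (.negSucc (nat_lit 8632786277423437317104)), (.negSucc (nat_lit 8632786277423437317104)), (.ofNat (nat_lit 8632786277423437317105)), (.ofNat (nat_lit 0))⟩,
    ⟨nat_lit 0, nat_lit 8, nat_lit 9, (.ofNat (nat_lit 8)), (.ofNat (nat_lit 11537155520)), (.ofNat (nat_lit 99919148557435123536803775752640)), (.ofNat (nat_lit 1282051712)), (.ofNat (nat_lit 11067678426300824761319152133760)), (.ofNat (nat_lit 11537155504)), (.ofNat (nat_lit 11537155536)), (.negSucc (nat_lit 8632786277423437317104)), (.ofNat (nat_lit 8632786277423437317105)), (.negSucc (nat_lit 8632786277423437317104)), (.ofNat (nat_lit 8632786277423437317105)), (.ofNat (nat_lit 0))⟩,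
    ⟨nat_lit 1, nat_lit 9, nat_lit 10, (.ofNat (nat_lit 8)), (.ofNat (nat_lit 13215605888)), (.ofNat (nat_lit 114408851861641841993523595697280)), (.ofNat (nat_lit 1468779200)), (.ofNat (nat_lit 12679656922324974323867628216000)), (.ofNat (nat_lit 13215605872)), (.ofNat (nat_lit 13215605904)), (.ofNat (nat_lit 8632786277423437317105)), (.negSucc (nat_lit 8632786277423437317104)), (.negSucc (nat_lit 8632786277423437317104)), (.ofNat (nat_lit 8632786277423437317105)), (.ofNat (nat_lit 0))⟩,
    ⟨nat_lit 0, nat_lit 18, nat_lit 10, (.ofNat (nat_lit 8)), (.ofNat (nat_lit 10244599232)), (.ofNat (nat_lit 140056917351692336793041333348160)), (.ofNat (nat_lit 1467992768)), (.ofNat (nat_lit 12686446021702700992523793735360)), (.ofNat (nat_lit 10244599216)), (.ofNat (nat_lit 10244599248)), (.ofNat (nat_lit 8632786277423437317105)), (.negSucc (nat_lit 8632786277423437317104)), (.negSucc (nat_lit 8632786277423437317104)), (.ofNat (nat_lit 8632786277423437317105)), (.ofNat (nat_lit 0))⟩,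
    ⟨nat_lit 1, nat_lit 11, nat_lit 17, (.ofNat (nat_lit 8)), (.ofNat (nat_lit 161751296)), (.ofNat (nat_lit 120274377364776389346056035674240)), (.ofNat (nat_lit 779040256)), (.ofNat (nat_lit 6752444429068148302542094456320)), (.ofNat (nat_lit 161751280)), (.ofNat (nat_lit 161751312)), (.ofNat (nat_lit 8632786277423437317105)), (.negSucc (nat_lit 8632786277423437317104)), (.negSucc (nat_lit 8632786277423437317104)), (.ofNat (nat_lit 8632786277423437317105)), (.ofNat (nat_lit 0))⟩,
    ⟨nat_lit 0, nat_lit 6, nat_lit 11, (.ofNat (nat_lit 8)), (.negSucc (nat_lit 6733078783)), (.ofNat (nat_lit 60752782864986048835085983155840)), (.ofNat (nat_lit 12249024)), (.ofNat (nat_lit 132899603809937016484376832960)), (.negSucc (nat_lit 6733078799)), (.negSucc (nat_lit 6733078767)), (.negSucc (nat_lit 8632786277423437317104)), (.ofNat (nat_lit 8632786277423437317105)), (.negSucc (nat_lit 8632786277423437317104)), (.ofNat (nat_lit 8632786277423437317105)), (.ofNat (nat_lit 0))⟩,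
    ⟨nat_lit 0, nat_lit 19, nat_lit 12, (.ofNat (nat_lit 8)), (.negSucc (nat_lit 1333224383)), (.ofNat (nat_lit 12061620144646640864761411940160)), (.negSucc (nat_lit 262143)), (.ofNat (nat_lit 2263033125908889552055173120)), (.negSucc (nat_lit 1333224399)), (.negSucc (nat_lit 1333224367)), (.negSucc (nat_lit 8632786277423437317104)), (.ofNat (nat_lit 8632788752105719482595)), (.negSucc (nat_lit 8632786277423437317104)), (.ofNat (nat_lit 8632788752105719482595)), (.ofNat (nat_lit 0))⟩,
    ⟨nat_lit 1, nat_lit 12, nat_lit 13, (.ofNat (nat_lit 8)), (.ofNat (nat_lit 2685655168)), (.ofNat (nat_lit 46755758337219913835610477337600)), (.ofNat (nat_lit 447212032)), (.ofNat (nat_lit 3865213066556483979913399139840)), (.ofNat (nat_lit 2685655152)), (.ofNat (nat_lit 2685655184)), (.ofNat (nat_lit 8632788752105719482595)), (.negSucc (nat_lit 8632784777060032178398)), (.negSucc (nat_lit 8632784777060032178398)), (.ofNat (nat_lit 8632788752105719482595)), (.ofNat (nat_lit 0))⟩,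
    ⟨nat_lit 0, nat_lit 14, nat_lit 13, (.ofNat (nat_lit 8)), (.ofNat (nat_lit 1079592256)), (.ofNat (nat_lit 60620553794934219914863678775488)), (.ofNat (nat_lit 446949888)), (.ofNat (nat_lit 3867476099289081604988773367296)), (.ofNat (nat_lit 1079592240)), (.ofNat (nat_lit 1079592272)), (.negSucc (nat_lit 8632784777060032178398)), (.negSucc (nat_lit 8632784777060032178398)), (.negSucc (nat_lit 8632784777060032178398)), (.negSucc (nat_lit 8632784777060032178398)), (.ofNat (nat_lit 0))⟩,
    ⟨nat_lit 0, nat_lit 15, nat_lit 14, (.ofNat (nat_lit 8)), (.ofNat (nat_lit 1079592192)), (.ofNat (nat_lit 60620554347432445646705738193024)), (.ofNat (nat_lit 446949888)), (.ofNat (nat_lit 3867476099289081604988773367296)), (.ofNat (nat_lit 1079592176)), (.ofNat (nat_lit 1079592208)), (.negSucc (nat_lit 8632784777060032178398)), (.negSucc (nat_lit 8632784777060032178398)), (.negSucc (nat_lit 8632784777060032178398)), (.negSucc (nat_lit 8632784777060032178398)), (.ofNat (nat_lit 0))⟩,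
    ⟨nat_lit 2, nat_lit 15, nat_lit 16, (.ofNat (nat_lit 8)), (.negSucc (nat_lit 3943038911)), (.ofNat (nat_lit 103979847682831868941173432515520)), (.ofNat (nat_lit 445639232)), (.ofNat (nat_lit 3878790710453843998523585087040)), (.negSucc (nat_lit 3943038927)), (.negSucc (nat_lit 3943038895)), (.negSucc (nat_lit 8632784777060032178398)), (.ofNat (nat_lit 8632786277423437317105)), (.negSucc (nat_lit 8632784777060032178398)), (.ofNat (nat_lit 8632786277423437317105)), (.ofNat (nat_lit 0))⟩,
    ⟨nat_lit 0, nat_lit 16, nat_lit 17, (.ofNat (nat_lit 8)), (.negSucc (nat_lit 946885375)), (.ofNat (nat_lit 129845000813466377628091931548800)), (.ofNat (nat_lit 778778112)), (.ofNat (nat_lit 6754707462194057192094149629440)), (.negSucc (nat_lit 946885391)), (.negSucc (nat_lit 946885359)), (.ofNat (nat_lit 8632786277423437317105)), (.negSucc (nat_lit 8632786277423437317104)), (.negSucc (nat_lit 8632786277423437317104)), (.ofNat (nat_lit 8632786277423437317105)), (.ofNat (nat_lit 0))⟩,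
    ⟨nat_lit 2, nat_lit 19, nat_lit 7, (.ofNat (nat_lit 8)), (.negSucc (nat_lit 5803065791)), (.ofNat (nat_lit 50648805713888096534449767624000)), (.negSucc (nat_lit 1310719)), (.ofNat (nat_lit 11315165629544447760275865600)), (.negSucc (nat_lit 5803065807)), (.negSucc (nat_lit 5803065775)), (.negSucc (nat_lit 8632786277423437317104)), (.ofNat (nat_lit 8632786277423437317105)), (.negSucc (nat_lit 8632786277423437317104)), (.ofNat (nat_lit 8632786277423437317105)), (.ofNat (nat_lit 0))⟩]
  es := [
    ⟨nat_lit 1, nat_lit 0, (.negSucc (nat_lit 7973470207)), (.negSucc (nat_lit 2926704383)), (.negSucc (nat_lit 7973470191)), (.negSucc (nat_lit 2926704399)), (.negSucc (nat_lit 8632786277423437317104)), (.ofNat (nat_lit 0)), (.ofNat (nat_lit 63364927525448907457544847360))⟩,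
    ⟨nat_lit 1, nat_lit 2, (.negSucc (nat_lit 7973470207)), (.ofNat (nat_lit 1275033472)), (.negSucc (nat_lit 7973470191)), (.ofNat (nat_lit 1275033456)), (.ofNat (nat_lit 8632786277423437317105)), (.ofNat (nat_lit 0)), (.ofNat (nat_lit 36208530014542232832882769920))⟩,
    ⟨nat_lit 2, nat_lit 3, (.ofNat (nat_lit 1275033472)), (.ofNat (nat_lit 4500183552)), (.ofNat (nat_lit 1275033488)), (.ofNat (nat_lit 4500183536)), (.negSucc (nat_lit 8632786277423437317104)), (.ofNat (nat_lit 0)), (.ofNat (nat_lit 17825780438183745287741384522880))⟩,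
    ⟨nat_lit 3, nat_lit 4, (.ofNat (nat_lit 4500183552)), (.ofNat (nat_lit 8460625728)), (.ofNat (nat_lit 4500183568)), (.ofNat (nat_lit 8460625712)), (.ofNat (nat_lit 8632786277423437317105)), (.ofNat (nat_lit 0)), (.ofNat (nat_lit 18104265007271116416441384960))⟩,
    ⟨nat_lit 5, nat_lit 4, (.ofNat (nat_lit 5192990912)), (.ofNat (nat_lit 8460625728)), (.ofNat (nat_lit 5192990928)), (.ofNat (nat_lit 8460625712)), (.negSucc (nat_lit 8632786277423437317104)), (.ofNat (nat_lit 0)), (.ofNat (nat_lit 25435549773079004364520115076480))⟩,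
    ⟨nat_lit 6, nat_lit 5, (.negSucc (nat_lit 7926684927)), (.ofNat (nat_lit 5192990912)), (.negSucc (nat_lit 7926684911)), (.ofNat (nat_lit 5192990896)), (.ofNat (nat_lit 8632786277423437317105)), (.ofNat (nat_lit 0)), (.ofNat (nat_lit 40734596266360011936993116160))⟩,
    ⟨nat_lit 6, nat_lit 12, (.negSucc (nat_lit 7926684927)), (.negSucc (nat_lit 6733078783)), (.negSucc (nat_lit 7926684911)), (.negSucc (nat_lit 6733078799)), (.negSucc (nat_lit 8632786277423437317104)), (.ofNat (nat_lit 0)), (.ofNat (nat_lit 238642810108967358344091588480))⟩,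
    ⟨nat_lit 19, nat_lit 7, (.negSucc (nat_lit 5803065791)), (.ofNat (nat_lit 5720720448)), (.negSucc (nat_lit 5803065775)), (.ofNat (nat_lit 5720720432)), (.ofNat (nat_lit 8632786277423437317105)), (.ofNat (nat_lit 0)), (.ofNat (nat_lit 22630331259088895520551731200))⟩,
    ⟨nat_lit 7, nat_lit 8, (.ofNat (nat_lit 5720720448)), (.ofNat (nat_lit 11537155520)), (.ofNat (nat_lit 5720720464)), (.ofNat (nat_lit 11537155504)), (.negSucc (nat_lit 8632786277423437317104)), (.ofNat (nat_lit 0)), (.ofNat (nat_lit 22135356852601649522638304267520))⟩,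
    ⟨nat_lit 8, nat_lit 9, (.ofNat (nat_lit 11537155520)), (.ofNat (nat_lit 13215605888)), (.ofNat (nat_lit 11537155536)), (.ofNat (nat_lit 13215605872)), (.ofNat (nat_lit 8632786277423437317105)), (.ofNat (nat_lit 0)), (.ofNat (nat_lit 0))⟩,
    ⟨nat_lit 10, nat_lit 9, (.ofNat (nat_lit 10244599232)), (.ofNat (nat_lit 13215605888)), (.ofNat (nat_lit 10244599248)), (.ofNat (nat_lit 13215605872)), (.negSucc (nat_lit 8632786277423437317104)), (.ofNat (nat_lit 0)), (.ofNat (nat_lit 25359313844649948647735256432000))⟩,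
    ⟨nat_lit 12, nat_lit 11, (.negSucc (nat_lit 6733078783)), (.ofNat (nat_lit 161751296)), (.negSucc (nat_lit 6733078767)), (.ofNat (nat_lit 161751280)), (.ofNat (nat_lit 8632786277423437317105)), (.ofNat (nat_lit 0)), (.ofNat (nat_lit 27156397510906674624662077440))⟩,
    ⟨nat_lit 13, nat_lit 14, (.negSucc (nat_lit 1333224383)), (.ofNat (nat_lit 2685655168)), (.negSucc (nat_lit 1333224367)), (.ofNat (nat_lit 2685655152)), (.ofNat (nat_lit 8632788752105719482595)), (.ofNat (nat_lit 0)), (.ofNat (nat_lit 4526066900540891280100556800))⟩,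
    ⟨nat_lit 15, nat_lit 14, (.ofNat (nat_lit 1079592256)), (.ofNat (nat_lit 2685655168)), (.ofNat (nat_lit 1079592272)), (.ofNat (nat_lit 2685655152)), (.negSucc (nat_lit 8632784777060032178398)), (.ofNat (nat_lit 0)), (.ofNat (nat_lit 7725898288524167956400602436608))⟩,
    ⟨nat_lit 16, nat_lit 15, (.ofNat (nat_lit 1079592192)), (.ofNat (nat_lit 1079592256)), (.ofNat (nat_lit 1079592208)), (.ofNat (nat_lit 1079592240)), (.negSucc (nat_lit 8632784777060032178398)), (.ofNat (nat_lit 0)), (.ofNat (nat_lit 7725898288524167956400602436608))⟩,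
    ⟨nat_lit 17, nat_lit 16, (.negSucc (nat_lit 3943038911)), (.ofNat (nat_lit 1079592192)), (.negSucc (nat_lit 3943038895)), (.ofNat (nat_lit 1079592176)), (.negSucc (nat_lit 8632784777060032178398)), (.ofNat (nat_lit 0)), (.ofNat (nat_lit 7725898288524167956400602436608))⟩,
    ⟨nat_lit 17, nat_lit 18, (.negSucc (nat_lit 3943038911)), (.negSucc (nat_lit 946885375)), (.negSucc (nat_lit 3943038895)), (.negSucc (nat_lit 946885391)), (.ofNat (nat_lit 8632786277423437317105)), (.ofNat (nat_lit 0)), (.ofNat (nat_lit 31682463762724453728772423680))⟩,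
    ⟨nat_lit 18, nat_lit 11, (.negSucc (nat_lit 946885375)), (.ofNat (nat_lit 161751296)), (.negSucc (nat_lit 946885359)), (.ofNat (nat_lit 161751280)), (.negSucc (nat_lit 8632786277423437317104)), (.ofNat (nat_lit 0)), (.ofNat (nat_lit 13477732460625389930459526835200))⟩,
    ⟨nat_lit 0, nat_lit 10, (.negSucc (nat_lit 2926704383)), (.ofNat (nat_lit 10244599232)), (.negSucc (nat_lit 2926704367)), (.ofNat (nat_lit 10244599216)), (.ofNat (nat_lit 8632786277423437317105)), (.ofNat (nat_lit 0)), (.ofNat (nat_lit 13578198755453337312331038720))⟩,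
    ⟨nat_lit 19, nat_lit 13, (.negSucc (nat_lit 5803065791)), (.negSucc (nat_lit 1333224383)), (.negSucc (nat_lit 5803065775)), (.negSucc (nat_lit 1333224399)), (.negSucc (nat_lit 8632786277423437317104)), (.ofNat (nat_lit 0)), (.ofNat (nat_lit 0))⟩]

theorem ok116 : stOK 19 19 S116 = true := by decide +kernel

def S117 : SD where
  vs := [
    ⟨nat_lit 0, nat_lit 0, nat_lit 17, (.ofNat (nat_lit 8)), (.negSucc (nat_lit 2926704383)), (.ofNat (nat_lit 26351868239709837695106908196480)), (.ofNat (nat_lit 2883584)), (.ofNat (nat_lit 38471563140451122384937943040)), (.negSucc (nat_lit 2926704399)), (.negSucc (nat_lit 2926704367)), (.negSucc (nat_lit 8632786277423437317104)), (.ofNat (nat_lit 8632786277423437317105)), (.negSucc (nat_lit 8632786277423437317104)), (.ofNat (nat_lit 8632786277423437317105)), (.ofNat (nat_lit 0))⟩,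
    ⟨nat_lit 2, nat_lit 0, nat_lit 1, (.ofNat (nat_lit 8)), (.negSucc (nat_lit 7973470207)), (.ofNat (nat_lit 69919518990506623923678672816000)), (.ofNat (nat_lit 1572864)), (.ofNat (nat_lit 49786728769995570145213808640)), (.negSucc (nat_lit 7973470223)), (.negSucc (nat_lit 7973470191)), (.negSucc (nat_lit 8632786277423437317104)), (.ofNat (nat_lit 8632786277423437317105)), (.negSucc (nat_lit 8632786277423437317104)), (.ofNat (nat_lit 8632786277423437317105)), (.ofNat (nat_lit 0))⟩,
    ⟨nat_lit 0, nat_lit 1, nat_lit 2, (.ofNat (nat_lit 8)), (.ofNat (nat_lit 1275033472)), (.ofNat (nat_lit 149759874645910784869173592262400)), (.ofNat (nat_lit 1030349376)), (.ofNat (nat_lit 8930994484099143760287133646400)), (.ofNat (nat_lit 1275033456)), (.ofNat (nat_lit 1275033488)), (.ofNat (nat_lit 8632786277423437317105)), (.negSucc (nat_lit 8632786277423437317104)), (.negSucc (nat_lit 8632786277423437317104)), (.ofNat (nat_lit 8632786277423437317105)), (.ofNat (nat_lit 0))⟩,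
    ⟨nat_lit 0, nat_lit 2, nat_lit 3, (.ofNat (nat_lit 8)), (.ofNat (nat_lit 4500183552)), (.ofNat (nat_lit 121917843292655683812037416144000)), (.ofNat (nat_lit 1031397952)), (.ofNat (nat_lit 8921942351595508202078912953920)), (.ofNat (nat_lit 4500183536)), (.ofNat (nat_lit 4500183568)), (.negSucc (nat_lit 8632786277423437317104)), (.ofNat (nat_lit 8632786277423437317105)), (.negSucc (nat_lit 8632786277423437317104)), (.ofNat (nat_lit 8632786277423437317105)), (.ofNat (nat_lit 0))⟩,
    ⟨nat_lit 1, nat_lit 3, nat_lit 4, (.ofNat (nat_lit 8)), (.ofNat (nat_lit 8460625728)), (.ofNat (nat_lit 156107494162157501573592344364480)), (.ofNat (nat_lit 1472146112)), (.ofNat (nat_lit 12726827019043137740468278230720)), (.ofNat (nat_lit 8460625712)), (.ofNat (nat_lit 8460625744)), (.ofNat (nat_lit 8632786277423437317105)), (.negSucc (nat_lit 8632786277423437317104)), (.negSucc (nat_lit 8632786277423437317104)), (.ofNat (nat_lit 8632786277423437317105)), (.ofNat (nat_lit 0))⟩,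
    ⟨nat_lit 0, nat_lit 5, nat_lit 4, (.ofNat (nat_lit 8)), (.ofNat (nat_lit 5192990912)), (.ofNat (nat_lit 184316287161353360125358274692160)), (.ofNat (nat_lit 1470835392)), (.ofNat (nat_lit 12738142184672682188228554096320)), (.ofNat (nat_lit 5192990896)), (.ofNat (nat_lit 5192990928)), (.ofNat (nat_lit 8632786277423437317105)), (.negSucc (nat_lit 8632786277423437317104)), (.negSucc (nat_lit 8632786277423437317104)), (.ofNat (nat_lit 8632786277423437317105)), (.ofNat (nat_lit 0))⟩,
    ⟨nat_lit 2, nat_lit 6, nat_lit 5, (.ofNat (nat_lit 8)), (.negSucc (nat_lit 7926684927)), (.ofNat (nat_lit 71056929605557552106381387448960)), (.ofNat (nat_lit 11462592)), (.ofNat (nat_lit 139688703187663685140542352320)), (.negSucc (nat_lit 7926684943)), (.negSucc (nat_lit 7926684911)), (.negSucc (nat_lit 8632786277423437317104)), (.ofNat (nat_lit 8632786277423437317105)), (.negSucc (nat_lit 8632786277423437317104)), (.ofNat (nat_lit 8632786277423437317105)), (.ofNat (nat_lit 0))⟩,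
    ⟨nat_lit 0, nat_lit 7, nat_lit 8, (.ofNat (nat_lit 8)), (.ofNat (nat_lit 5720720448)), (.ofNat (nat_lit 150131189430521126142806883259200)), (.ofNat (nat_lit 1280740992)), (.ofNat (nat_lit 11078993591930369209079427999360)), (.ofNat (nat_lit 5720720432)), (.ofNat (nat_lit 5720720464)), (.ofNat (nat_lit 8632786277423437317105)), (.negSucc (nat_lit 8632786277423437317104)), (.negSucc (nat_lit 8632786277423437317104)), (.ofNat (nat_lit 8632786277423437317105)), (.ofNat (nat_lit 0))⟩,
    ⟨nat_lit 0, nat_lit 8, nat_lit 9, (.ofNat (nat_lit 8)), (.ofNat (nat_lit 11537155520)), (.ofNat (nat_lit 99919148557435123536803775752640)), (.ofNat (nat_lit 1282051712)), (.ofNat (nat_lit 11067678426300824761319152133760)), (.ofNat (nat_lit 11537155504)), (.ofNat (nat_lit 11537155536)), (.negSucc (nat_lit 8632786277423437317104)), (.ofNat (nat_lit 8632786277423437317105)), (.negSucc (nat_lit 8632786277423437317104)), (.ofNat (nat_lit 8632786277423437317105)), (.ofNat (nat_lit 0))⟩,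
    ⟨nat_lit 1, nat_lit 9, nat_lit 10, (.ofNat (nat_lit 8)), (.ofNat (nat_lit 13215605888)), (.ofNat (nat_lit 114408851861641841993523595697280)), (.ofNat (nat_lit 1468779200)), (.ofNat (nat_lit 12679656922324974323867628216000)), (.ofNat (nat_lit 13215605872)), (.ofNat (nat_lit 13215605904)), (.ofNat (nat_lit 8632786277423437317105)), (.negSucc (nat_lit 8632786277423437317104)), (.negSucc (nat_lit 8632786277423437317104)), (.ofNat (nat_lit 8632786277423437317105)), (.ofNat (nat_lit 0))⟩,
    ⟨nat_lit 0, nat_lit 17, nat_lit 10, (.ofNat (nat_lit 8)), (.ofNat (nat_lit 10244599232)), (.ofNat (nat_lit 140056917351692336793041333348160)), (.ofNat (nat_lit 1467992768)), (.ofNat (nat_lit 12686446021702700992523793735360)), (.ofNat (nat_lit 10244599216)), (.ofNat (nat_lit 10244599248)), (.ofNat (nat_lit 8632786277423437317105)), (.negSucc (nat_lit 8632786277423437317104)), (.negSucc (nat_lit 8632786277423437317104)), (.ofNat (nat_lit 8632786277423437317105)), (.ofNat (nat_lit 0))⟩,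
    ⟨nat_lit 1, nat_lit 11, nat_lit 16, (.ofNat (nat_lit 8)), (.ofNat (nat_lit 161751296)), (.ofNat (nat_lit 120274377364776389346056035674240)), (.ofNat (nat_lit 779040256)), (.ofNat (nat_lit 6752444429068148302542094456320)), (.ofNat (nat_lit 161751280)), (.ofNat (nat_lit 161751312)), (.ofNat (nat_lit 8632786277423437317105)), (.negSucc (nat_lit 8632786277423437317104)), (.negSucc (nat_lit 8632786277423437317104)), (.ofNat (nat_lit 8632786277423437317105)), (.ofNat (nat_lit 0))⟩,
    ⟨nat_lit 0, nat_lit 6, nat_lit 11, (.ofNat (nat_lit 8)), (.negSucc (nat_lit 6733078783)), (.ofNat (nat_lit 60752782864986048835085983155840)), (.ofNat (nat_lit 12249024)), (.ofNat (nat_lit 132899603809937016484376832960)), (.negSucc (nat_lit 6733078799)), (.negSucc (nat_lit 6733078767)), (.negSucc (nat_lit 8632786277423437317104)), (.ofNat (nat_lit 8632786277423437317105)), (.negSucc (nat_lit 8632786277423437317104)), (.ofNat (nat_lit 8632786277423437317105)), (.ofNat (nat_lit 0))⟩,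
    ⟨nat_lit 0, nat_lit 18, nat_lit 12, (.ofNat (nat_lit 8)), (.negSucc (nat_lit 1333224383)), (.ofNat (nat_lit 12061620144646640864761411940160)), (.negSucc (nat_lit 262143)), (.ofNat (nat_lit 2263033125908889552055173120)), (.negSucc (nat_lit 1333224399)), (.negSucc (nat_lit 1333224367)), (.negSucc (nat_lit 8632786277423437317104)), (.ofNat (nat_lit 8632788752105719482595)), (.negSucc (nat_lit 8632786277423437317104)), (.ofNat (nat_lit 8632788752105719482595)), (.ofNat (nat_lit 0))⟩,
    ⟨nat_lit 1, nat_lit 12, nat_lit 13, (.ofNat (nat_lit 8)), (.ofNat (nat_lit 2685655168)), (.ofNat (nat_lit 46755758337219913835610477337600)), (.ofNat (nat_lit 447212032)), (.ofNat (nat_lit 3865213066556483979913399139840)), (.ofNat (nat_lit 2685655152)), (.ofNat (nat_lit 2685655184)), (.ofNat (nat_lit 8632788752105719482595)), (.negSucc (nat_lit 8632784777060032178398)), (.negSucc (nat_lit 8632784777060032178398)), (.ofNat (nat_lit 8632788752105719482595)), (.ofNat (nat_lit 0))⟩,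
    ⟨nat_lit 0, nat_lit 14, nat_lit 13, (.ofNat (nat_lit 8)), (.ofNat (nat_lit 1079592256)), (.ofNat (nat_lit 60620553794934219914863678775488)), (.ofNat (nat_lit 446949888)), (.ofNat (nat_lit 3867476099289081604988773367296)), (.ofNat (nat_lit 1079592240)), (.ofNat (nat_lit 1079592272)), (.negSucc (nat_lit 8632784777060032178398)), (.negSucc (nat_lit 8632784777060032178398)), (.negSucc (nat_lit 8632784777060032178398)), (.negSucc (nat_lit 8632784777060032178398)), (.ofNat (nat_lit 0))⟩,
    ⟨nat_lit 2, nat_lit 14, nat_lit 15, (.ofNat (nat_lit 8)), (.negSucc (nat_lit 3943038911)), (.ofNat (nat_lit 103979847682831868941173432515520)), (.ofNat (nat_lit 445639232)), (.ofNat (nat_lit 3878790710453843998523585087040)), (.negSucc (nat_lit 3943038927)), (.negSucc (nat_lit 3943038895)), (.negSucc (nat_lit 8632784777060032178398)), (.ofNat (nat_lit 8632786277423437317105)), (.negSucc (nat_lit 8632784777060032178398)), (.ofNat (nat_lit 8632786277423437317105)), (.ofNat (nat_lit 0))⟩,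
    ⟨nat_lit 0, nat_lit 15, nat_lit 16, (.ofNat (nat_lit 8)), (.negSucc (nat_lit 946885375)), (.ofNat (nat_lit 129845000813466377628091931548800)), (.ofNat (nat_lit 778778112)), (.ofNat (nat_lit 6754707462194057192094149629440)), (.negSucc (nat_lit 946885391)), (.negSucc (nat_lit 946885359)), (.ofNat (nat_lit 8632786277423437317105)), (.negSucc (nat_lit 8632786277423437317104)), (.negSucc (nat_lit 8632786277423437317104)), (.ofNat (nat_lit 8632786277423437317105)), (.ofNat (nat_lit 0))⟩,
    ⟨nat_lit 2, nat_lit 18, nat_lit 7, (.ofNat (nat_lit 8)), (.negSucc (nat_lit 5803065791)), (.ofNat (nat_lit 50648805713888096534449767624000)), (.negSucc (nat_lit 1310719)), (.ofNat (nat_lit 11315165629544447760275865600)), (.negSucc (nat_lit 5803065807)), (.negSucc (nat_lit 5803065775)), (.negSucc (nat_lit 8632786277423437317104)), (.ofNat (nat_lit 8632786277423437317105)), (.negSucc (nat_lit 8632786277423437317104)), (.ofNat (nat_lit 8632786277423437317105)), (.ofNat (nat_lit 0))⟩]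
  es := [
    ⟨nat_lit 1, nat_lit 0, (.negSucc (nat_lit 7973470207)), (.negSucc (nat_lit 2926704383)), (.negSucc (nat_lit 7973470191)), (.negSucc (nat_lit 2926704399)), (.negSucc (nat_lit 8632786277423437317104)), (.ofNat (nat_lit 0)), (.ofNat (nat_lit 63364927525448907457544847360))⟩,
    ⟨nat_lit 1, nat_lit 2, (.negSucc (nat_lit 7973470207)), (.ofNat (nat_lit 1275033472)), (.negSucc (nat_lit 7973470191)), (.ofNat (nat_lit 1275033456)), (.ofNat (nat_lit 8632786277423437317105)), (.ofNat (nat_lit 0)), (.ofNat (nat_lit 36208530014542232832882769920))⟩,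
    ⟨nat_lit 2, nat_lit 3, (.ofNat (nat_lit 1275033472)), (.ofNat (nat_lit 4500183552)), (.ofNat (nat_lit 1275033488)), (.ofNat (nat_lit 4500183536)), (.negSucc (nat_lit 8632786277423437317104)), (.ofNat (nat_lit 0)), (.ofNat (nat_lit 17825780438183745287741384522880))⟩,
    ⟨nat_lit 3, nat_lit 4, (.ofNat (nat_lit 4500183552)), (.ofNat (nat_lit 8460625728)), (.ofNat (nat_lit 4500183568)), (.ofNat (nat_lit 8460625712)), (.ofNat (nat_lit 8632786277423437317105)), (.ofNat (nat_lit 0)), (.ofNat (nat_lit 18104265007271116416441384960))⟩,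
    ⟨nat_lit 5, nat_lit 4, (.ofNat (nat_lit 5192990912)), (.ofNat (nat_lit 8460625728)), (.ofNat (nat_lit 5192990928)), (.ofNat (nat_lit 8460625712)), (.negSucc (nat_lit 8632786277423437317104)), (.ofNat (nat_lit 0)), (.ofNat (nat_lit 25435549773079004364520115076480))⟩,
    ⟨nat_lit 6, nat_lit 5, (.negSucc (nat_lit 7926684927)), (.ofNat (nat_lit 5192990912)), (.negSucc (nat_lit 7926684911)), (.ofNat (nat_lit 5192990896)), (.ofNat (nat_lit 8632786277423437317105)), (.ofNat (nat_lit 0)), (.ofNat (nat_lit 40734596266360011936993116160))⟩,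
    ⟨nat_lit 6, nat_lit 12, (.negSucc (nat_lit 7926684927)), (.negSucc (nat_lit 6733078783)), (.negSucc (nat_lit 7926684911)), (.negSucc (nat_lit 6733078799)), (.negSucc (nat_lit 8632786277423437317104)), (.ofNat (nat_lit 0)), (.ofNat (nat_lit 238642810108967358344091588480))⟩,
    ⟨nat_lit 18, nat_lit 7, (.negSucc (nat_lit 5803065791)), (.ofNat (nat_lit 5720720448)), (.negSucc (nat_lit 5803065775)), (.ofNat (nat_lit 5720720432)), (.ofNat (nat_lit 8632786277423437317105)), (.ofNat (nat_lit 0)), (.ofNat (nat_lit 22630331259088895520551731200))⟩,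
    ⟨nat_lit 7, nat_lit 8, (.ofNat (nat_lit 5720720448)), (.ofNat (nat_lit 11537155520)), (.ofNat (nat_lit 5720720464)), (.ofNat (nat_lit 11537155504)), (.negSucc (nat_lit 8632786277423437317104)), (.ofNat (nat_lit 0)), (.ofNat (nat_lit 22135356852601649522638304267520))⟩,
    ⟨nat_lit 8, nat_lit 9, (.ofNat (nat_lit 11537155520)), (.ofNat (nat_lit 13215605888)), (.ofNat (nat_lit 11537155536)), (.ofNat (nat_lit 13215605872)), (.ofNat (nat_lit 8632786277423437317105)), (.ofNat (nat_lit 0)), (.ofNat (nat_lit 0))⟩,
    ⟨nat_lit 10, nat_lit 9, (.ofNat (nat_lit 10244599232)), (.ofNat (nat_lit 13215605888)), (.ofNat (nat_lit 10244599248)), (.ofNat (nat_lit 13215605872)), (.negSucc (nat_lit 8632786277423437317104)), (.ofNat (nat_lit 0)), (.ofNat (nat_lit 25359313844649948647735256432000))⟩,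
    ⟨nat_lit 12, nat_lit 11, (.negSucc (nat_lit 6733078783)), (.ofNat (nat_lit 161751296)), (.negSucc (nat_lit 6733078767)), (.ofNat (nat_lit 161751280)), (.ofNat (nat_lit 8632786277423437317105)), (.ofNat (nat_lit 0)), (.ofNat (nat_lit 27156397510906674624662077440))⟩,
    ⟨nat_lit 13, nat_lit 14, (.negSucc (nat_lit 1333224383)), (.ofNat (nat_lit 2685655168)), (.negSucc (nat_lit 1333224367)), (.ofNat (nat_lit 2685655152)), (.ofNat (nat_lit 8632788752105719482595)), (.ofNat (nat_lit 0)), (.ofNat (nat_lit 4526066900540891280100556800))⟩,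
    ⟨nat_lit 15, nat_lit 14, (.ofNat (nat_lit 1079592256)), (.ofNat (nat_lit 2685655168)), (.ofNat (nat_lit 1079592272)), (.ofNat (nat_lit 2685655152)), (.negSucc (nat_lit 8632784777060032178398)), (.ofNat (nat_lit 0)), (.ofNat (nat_lit 7725898288524167956400602436608))⟩,
    ⟨nat_lit 16, nat_lit 15, (.negSucc (nat_lit 3943038911)), (.ofNat (nat_lit 1079592256)), (.negSucc (nat_lit 3943038895)), (.ofNat (nat_lit 1079592240)), (.negSucc (nat_lit 8632784777060032178398)), (.ofNat (nat_lit 0)), (.ofNat (nat_lit 7725898288524167956400602436608))⟩,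
    ⟨nat_lit 16, nat_lit 17, (.negSucc (nat_lit 3943038911)), (.negSucc (nat_lit 946885375)), (.negSucc (nat_lit 3943038895)), (.negSucc (nat_lit 946885391)), (.ofNat (nat_lit 8632786277423437317105)), (.ofNat (nat_lit 0)), (.ofNat (nat_lit 31682463762724453728772423680))⟩,
    ⟨nat_lit 17, nat_lit 11, (.negSucc (nat_lit 946885375)), (.ofNat (nat_lit 161751296)), (.negSucc (nat_lit 946885359)), (.ofNat (nat_lit 161751280)), (.negSucc (nat_lit 8632786277423437317104)), (.ofNat (nat_lit 0)), (.ofNat (nat_lit 13477732460625389930459526835200))⟩,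
    ⟨nat_lit 0, nat_lit 10, (.negSucc (nat_lit 2926704383)), (.ofNat (nat_lit 10244599232)), (.negSucc (nat_lit 2926704367)), (.ofNat (nat_lit 10244599216)), (.ofNat (nat_lit 8632786277423437317105)), (.ofNat (nat_lit 0)), (.ofNat (nat_lit 13578198755453337312331038720))⟩,
    ⟨nat_lit 18, nat_lit 13, (.negSucc (nat_lit 5803065791)), (.negSucc (nat_lit 1333224383)), (.negSucc (nat_lit 5803065775)), (.negSucc (nat_lit 1333224399)), (.negSucc (nat_lit 8632786277423437317104)), (.ofNat (nat_lit 0)), (.ofNat (nat_lit 0))⟩]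

theorem ok117 : stOK 18 18 S117 = true := by decide +kernel

def S118 : SD where
  vs := [
    ⟨nat_lit 0, nat_lit 0, nat_lit 16, (.ofNat (nat_lit 8)), (.negSucc (nat_lit 2926704383)), (.ofNat (nat_lit 26351868239709837695106908196480)), (.ofNat (nat_lit 2883584)), (.ofNat (nat_lit 38471563140451122384937943040)), (.negSucc (nat_lit 2926704399)), (.negSucc (nat_lit 2926704367)), (.negSucc (nat_lit 8632786277423437317104)), (.ofNat (nat_lit 8632786277423437317105)), (.negSucc (nat_lit 8632786277423437317104)), (.ofNat (nat_lit 8632786277423437317105)), (.ofNat (nat_lit 0))⟩,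
    ⟨nat_lit 2, nat_lit 0, nat_lit 1, (.ofNat (nat_lit 8)), (.negSucc (nat_lit 7973470207)), (.ofNat (nat_lit 69919518990506623923678672816000)), (.ofNat (nat_lit 1572864)), (.ofNat (nat_lit 49786728769995570145213808640)), (.negSucc (nat_lit 7973470223)), (.negSucc (nat_lit 7973470191)), (.negSucc (nat_lit 8632786277423437317104)), (.ofNat (nat_lit 8632786277423437317105)), (.negSucc (nat_lit 8632786277423437317104)), (.ofNat (nat_lit 8632786277423437317105)), (.ofNat (nat_lit 0))⟩,
    ⟨nat_lit 0, nat_lit 1, nat_lit 2, (.ofNat (nat_lit 8)), (.ofNat (nat_lit 1275033472)), (.ofNat (nat_lit 149759874645910784869173592262400)), (.ofNat (nat_lit 1030349376)), (.ofNat (nat_lit 8930994484099143760287133646400)), (.ofNat (nat_lit 1275033456)), (.ofNat (nat_lit 1275033488)), (.ofNat (nat_lit 8632786277423437317105)), (.negSucc (nat_lit 8632786277423437317104)), (.negSucc (nat_lit 8632786277423437317104)), (.ofNat (nat_lit 8632786277423437317105)), (.ofNat (nat_lit 0))⟩,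
    ⟨nat_lit 0, nat_lit 2, nat_lit 3, (.ofNat (nat_lit 8)), (.ofNat (nat_lit 4500183552)), (.ofNat (nat_lit 121917843292655683812037416144000)), (.ofNat (nat_lit 1031397952)), (.ofNat (nat_lit 8921942351595508202078912953920)), (.ofNat (nat_lit 4500183536)), (.ofNat (nat_lit 4500183568)), (.negSucc (nat_lit 8632786277423437317104)), (.ofNat (nat_lit 8632786277423437317105)), (.negSucc (nat_lit 8632786277423437317104)), (.ofNat (nat_lit 8632786277423437317105)), (.ofNat (nat_lit 0))⟩,
    ⟨nat_lit 1, nat_lit 3, nat_lit 4, (.ofNat (nat_lit 8)), (.ofNat (nat_lit 8460625728)), (.ofNat (nat_lit 156107494162157501573592344364480)), (.ofNat (nat_lit 1472146112)), (.ofNat (nat_lit 12726827019043137740468278230720)), (.ofNat (nat_lit 8460625712)), (.ofNat (nat_lit 8460625744)), (.ofNat (nat_lit 8632786277423437317105)), (.negSucc (nat_lit 8632786277423437317104)), (.negSucc (nat_lit 8632786277423437317104)), (.ofNat (nat_lit 8632786277423437317105)), (.ofNat (nat_lit 0))⟩,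
    ⟨nat_lit 0, nat_lit 5, nat_lit 4, (.ofNat (nat_lit 8)), (.ofNat (nat_lit 5192990912)), (.ofNat (nat_lit 184316287161353360125358274692160)), (.ofNat (nat_lit 1470835392)), (.ofNat (nat_lit 12738142184672682188228554096320)), (.ofNat (nat_lit 5192990896)), (.ofNat (nat_lit 5192990928)), (.ofNat (nat_lit 8632786277423437317105)), (.negSucc (nat_lit 8632786277423437317104)), (.negSucc (nat_lit 8632786277423437317104)), (.ofNat (nat_lit 8632786277423437317105)), (.ofNat (nat_lit 0))⟩,
    ⟨nat_lit 2, nat_lit 6, nat_lit 5, (.ofNat (nat_lit 8)), (.negSucc (nat_lit 7926684927)), (.ofNat (nat_lit 71056929605557552106381387448960)), (.ofNat (nat_lit 11462592)), (.ofNat (nat_lit 139688703187663685140542352320)), (.negSucc (nat_lit 7926684943)), (.negSucc (nat_lit 7926684911)), (.negSucc (nat_lit 8632786277423437317104)), (.ofNat (nat_lit 8632786277423437317105)), (.negSucc (nat_lit 8632786277423437317104)), (.ofNat (nat_lit 8632786277423437317105)), (.ofNat (nat_lit 0))⟩,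
    ⟨nat_lit 0, nat_lit 7, nat_lit 8, (.ofNat (nat_lit 8)), (.ofNat (nat_lit 5720720448)), (.ofNat (nat_lit 150131189430521126142806883259200)), (.ofNat (nat_lit 1280740992)), (.ofNat (nat_lit 11078993591930369209079427999360)), (.ofNat (nat_lit 5720720432)), (.ofNat (nat_lit 5720720464)), (.ofNat (nat_lit 8632786277423437317105)), (.negSucc (nat_lit 8632786277423437317104)), (.negSucc (nat_lit 8632786277423437317104)), (.ofNat (nat_lit 8632786277423437317105)), (.ofNat (nat_lit 0))⟩,
    ⟨nat_lit 0, nat_lit 8, nat_lit 9, (.ofNat (nat_lit 8)), (.ofNat (nat_lit 11537155520)), (.ofNat (nat_lit 99919148557435123536803775752640)), (.ofNat (nat_lit 1282051712)), (.ofNat (nat_lit 11067678426300824761319152133760)), (.ofNat (nat_lit 11537155504)), (.ofNat (nat_lit 11537155536)), (.negSucc (nat_lit 8632786277423437317104)), (.ofNat (nat_lit 8632786277423437317105)), (.negSucc (nat_lit 8632786277423437317104)), (.ofNat (nat_lit 8632786277423437317105)), (.ofNat (nat_lit 0))⟩,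
    ⟨nat_lit 1, nat_lit 9, nat_lit 10, (.ofNat (nat_lit 8)), (.ofNat (nat_lit 13215605888)), (.ofNat (nat_lit 114408851861641841993523595697280)), (.ofNat (nat_lit 1468779200)), (.ofNat (nat_lit 12679656922324974323867628216000)), (.ofNat (nat_lit 13215605872)), (.ofNat (nat_lit 13215605904)), (.ofNat (nat_lit 8632786277423437317105)), (.negSucc (nat_lit 8632786277423437317104)), (.negSucc (nat_lit 8632786277423437317104)), (.ofNat (nat_lit 8632786277423437317105)), (.ofNat (nat_lit 0))⟩,
    ⟨nat_lit 0, nat_lit 16, nat_lit 10, (.ofNat (nat_lit 8)), (.ofNat (nat_lit 10244599232)), (.ofNat (nat_lit 140056917351692336793041333348160)), (.ofNat (nat_lit 1467992768)), (.ofNat (nat_lit 12686446021702700992523793735360)), (.ofNat (nat_lit 10244599216)), (.ofNat (nat_lit 10244599248)), (.ofNat (nat_lit 8632786277423437317105)), (.negSucc (nat_lit 8632786277423437317104)), (.negSucc (nat_lit 8632786277423437317104)), (.ofNat (nat_lit 8632786277423437317105)), (.ofNat (nat_lit 0))⟩,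
    ⟨nat_lit 1, nat_lit 11, nat_lit 15, (.ofNat (nat_lit 8)), (.ofNat (nat_lit 161751296)), (.ofNat (nat_lit 120274377364776389346056035674240)), (.ofNat (nat_lit 779040256)), (.ofNat (nat_lit 6752444429068148302542094456320)), (.ofNat (nat_lit 161751280)), (.ofNat (nat_lit 161751312)), (.ofNat (nat_lit 8632786277423437317105)), (.negSucc (nat_lit 8632786277423437317104)), (.negSucc (nat_lit 8632786277423437317104)), (.ofNat (nat_lit 8632786277423437317105)), (.ofNat (nat_lit 0))⟩,
    ⟨nat_lit 0, nat_lit 6, nat_lit 11, (.ofNat (nat_lit 8)), (.negSucc (nat_lit 6733078783)), (.ofNat (nat_lit 60752782864986048835085983155840)), (.ofNat (nat_lit 12249024)), (.ofNat (nat_lit 132899603809937016484376832960)), (.negSucc (nat_lit 6733078799)), (.negSucc (nat_lit 6733078767)), (.negSucc (nat_lit 8632786277423437317104)), (.ofNat (nat_lit 8632786277423437317105)), (.negSucc (nat_lit 8632786277423437317104)), (.ofNat (nat_lit 8632786277423437317105)), (.ofNat (nat_lit 0))⟩,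
    ⟨nat_lit 0, nat_lit 17, nat_lit 12, (.ofNat (nat_lit 8)), (.negSucc (nat_lit 1333224383)), (.ofNat (nat_lit 12061620144646640864761411940160)), (.negSucc (nat_lit 262143)), (.ofNat (nat_lit 2263033125908889552055173120)), (.negSucc (nat_lit 1333224399)), (.negSucc (nat_lit 1333224367)), (.negSucc (nat_lit 8632786277423437317104)), (.ofNat (nat_lit 8632788752105719482595)), (.negSucc (nat_lit 8632786277423437317104)), (.ofNat (nat_lit 8632788752105719482595)), (.ofNat (nat_lit 0))⟩,
    ⟨nat_lit 1, nat_lit 12, nat_lit 13, (.ofNat (nat_lit 8)), (.ofNat (nat_lit 2685655168)), (.ofNat (nat_lit 46755758337219913835610477337600)), (.ofNat (nat_lit 447212032)), (.ofNat (nat_lit 3865213066556483979913399139840)), (.ofNat (nat_lit 2685655152)), (.ofNat (nat_lit 2685655184)), (.ofNat (nat_lit 8632788752105719482595)), (.negSucc (nat_lit 8632784777060032178398)), (.negSucc (nat_lit 8632784777060032178398)), (.ofNat (nat_lit 8632788752105719482595)), (.ofNat (nat_lit 0))⟩,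
    ⟨nat_lit 2, nat_lit 13, nat_lit 14, (.ofNat (nat_lit 8)), (.negSucc (nat_lit 3943038911)), (.ofNat (nat_lit 103979847682831868941173432515520)), (.ofNat (nat_lit 445639232)), (.ofNat (nat_lit 3878790710453843998523585087040)), (.negSucc (nat_lit 3943038927)), (.negSucc (nat_lit 3943038895)), (.negSucc (nat_lit 8632784777060032178398)), (.ofNat (nat_lit 8632786277423437317105)), (.negSucc (nat_lit 8632784777060032178398)), (.ofNat (nat_lit 8632786277423437317105)), (.ofNat (nat_lit 0))⟩,
    ⟨nat_lit 0, nat_lit 14, nat_lit 15, (.ofNat (nat_lit 8)), (.negSucc (nat_lit 946885375)), (.ofNat (nat_lit 129845000813466377628091931548800)), (.ofNat (nat_lit 778778112)), (.ofNat (nat_lit 6754707462194057192094149629440)), (.negSucc (nat_lit 946885391)), (.negSucc (nat_lit 946885359)), (.ofNat (nat_lit 8632786277423437317105)), (.negSucc (nat_lit 8632786277423437317104)), (.negSucc (nat_lit 8632786277423437317104)), (.ofNat (nat_lit 8632786277423437317105)), (.ofNat (nat_lit 0))⟩,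
    ⟨nat_lit 2, nat_lit 17, nat_lit 7, (.ofNat (nat_lit 8)), (.negSucc (nat_lit 5803065791)), (.ofNat (nat_lit 50648805713888096534449767624000)), (.negSucc (nat_lit 1310719)), (.ofNat (nat_lit 11315165629544447760275865600)), (.negSucc (nat_lit 5803065807)), (.negSucc (nat_lit 5803065775)), (.negSucc (nat_lit 8632786277423437317104)), (.ofNat (nat_lit 8632786277423437317105)), (.negSucc (nat_lit 8632786277423437317104)), (.ofNat (nat_lit 8632786277423437317105)), (.ofNat (nat_lit 0))⟩]
  es := [
    ⟨nat_lit 1, nat_lit 0, (.negSucc (nat_lit 7973470207)), (.negSucc (nat_lit 2926704383)), (.negSucc (nat_lit 7973470191)), (.negSucc (nat_lit 2926704399)), (.negSucc (nat_lit 8632786277423437317104)), (.ofNat (nat_lit 0)), (.ofNat (nat_lit 63364927525448907457544847360))⟩,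
    ⟨nat_lit 1, nat_lit 2, (.negSucc (nat_lit 7973470207)), (.ofNat (nat_lit 1275033472)), (.negSucc (nat_lit 7973470191)), (.ofNat (nat_lit 1275033456)), (.ofNat (nat_lit 8632786277423437317105)), (.ofNat (nat_lit 0)), (.ofNat (nat_lit 36208530014542232832882769920))⟩,
    ⟨nat_lit 2, nat_lit 3, (.ofNat (nat_lit 1275033472)), (.ofNat (nat_lit 4500183552)), (.ofNat (nat_lit 1275033488)), (.ofNat (nat_lit 4500183536)), (.negSucc (nat_lit 8632786277423437317104)), (.ofNat (nat_lit 0)), (.ofNat (nat_lit 17825780438183745287741384522880))⟩,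
    ⟨nat_lit 3, nat_lit 4, (.ofNat (nat_lit 4500183552)), (.ofNat (nat_lit 8460625728)), (.ofNat (nat_lit 4500183568)), (.ofNat (nat_lit 8460625712)), (.ofNat (nat_lit 8632786277423437317105)), (.ofNat (nat_lit 0)), (.ofNat (nat_lit 18104265007271116416441384960))⟩,
    ⟨nat_lit 5, nat_lit 4, (.ofNat (nat_lit 5192990912)), (.ofNat (nat_lit 8460625728)), (.ofNat (nat_lit 5192990928)), (.ofNat (nat_lit 8460625712)), (.negSucc (nat_lit 8632786277423437317104)), (.ofNat (nat_lit 0)), (.ofNat (nat_lit 25435549773079004364520115076480))⟩,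
    ⟨nat_lit 6, nat_lit 5, (.negSucc (nat_lit 7926684927)), (.ofNat (nat_lit 5192990912)), (.negSucc (nat_lit 7926684911)), (.ofNat (nat_lit 5192990896)), (.ofNat (nat_lit 8632786277423437317105)), (.ofNat (nat_lit 0)), (.ofNat (nat_lit 40734596266360011936993116160))⟩,
    ⟨nat_lit 6, nat_lit 12, (.negSucc (nat_lit 7926684927)), (.negSucc (nat_lit 6733078783)), (.negSucc (nat_lit 7926684911)), (.negSucc (nat_lit 6733078799)), (.negSucc (nat_lit 8632786277423437317104)), (.ofNat (nat_lit 0)), (.ofNat (nat_lit 238642810108967358344091588480))⟩,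
    ⟨nat_lit 17, nat_lit 7, (.negSucc (nat_lit 5803065791)), (.ofNat (nat_lit 5720720448)), (.negSucc (nat_lit 5803065775)), (.ofNat (nat_lit 5720720432)), (.ofNat (nat_lit 8632786277423437317105)), (.ofNat (nat_lit 0)), (.ofNat (nat_lit 22630331259088895520551731200))⟩,
    ⟨nat_lit 7, nat_lit 8, (.ofNat (nat_lit 5720720448)), (.ofNat (nat_lit 11537155520)), (.ofNat (nat_lit 5720720464)), (.ofNat (nat_lit 11537155504)), (.negSucc (nat_lit 8632786277423437317104)), (.ofNat (nat_lit 0)), (.ofNat (nat_lit 22135356852601649522638304267520))⟩,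
    ⟨nat_lit 8, nat_lit 9, (.ofNat (nat_lit 11537155520)), (.ofNat (nat_lit 13215605888)), (.ofNat (nat_lit 11537155536)), (.ofNat (nat_lit 13215605872)), (.ofNat (nat_lit 8632786277423437317105)), (.ofNat (nat_lit 0)), (.ofNat (nat_lit 0))⟩,
    ⟨nat_lit 10, nat_lit 9, (.ofNat (nat_lit 10244599232)), (.ofNat (nat_lit 13215605888)), (.ofNat (nat_lit 10244599248)), (.ofNat (nat_lit 13215605872)), (.negSucc (nat_lit 8632786277423437317104)), (.ofNat (nat_lit 0)), (.ofNat (nat_lit 25359313844649948647735256432000))⟩,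
    ⟨nat_lit 12, nat_lit 11, (.negSucc (nat_lit 6733078783)), (.ofNat (nat_lit 161751296)), (.negSucc (nat_lit 6733078767)), (.ofNat (nat_lit 161751280)), (.ofNat (nat_lit 8632786277423437317105)), (.ofNat (nat_lit 0)), (.ofNat (nat_lit 27156397510906674624662077440))⟩,
    ⟨nat_lit 13, nat_lit 14, (.negSucc (nat_lit 1333224383)), (.ofNat (nat_lit 2685655168)), (.negSucc (nat_lit 1333224367)), (.ofNat (nat_lit 2685655152)), (.ofNat (nat_lit 8632788752105719482595)), (.ofNat (nat_lit 0)), (.ofNat (nat_lit 4526066900540891280100556800))⟩,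
    ⟨nat_lit 15, nat_lit 14, (.negSucc (nat_lit 3943038911)), (.ofNat (nat_lit 2685655168)), (.negSucc (nat_lit 3943038895)), (.ofNat (nat_lit 2685655152)), (.negSucc (nat_lit 8632784777060032178398)), (.ofNat (nat_lit 0)), (.ofNat (nat_lit 7725898288524167956400602436608))⟩,
    ⟨nat_lit 15, nat_lit 16, (.negSucc (nat_lit 3943038911)), (.negSucc (nat_lit 946885375)), (.negSucc (nat_lit 3943038895)), (.negSucc (nat_lit 946885391)), (.ofNat (nat_lit 8632786277423437317105)), (.ofNat (nat_lit 0)), (.ofNat (nat_lit 31682463762724453728772423680))⟩,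
    ⟨nat_lit 16, nat_lit 11, (.negSucc (nat_lit 946885375)), (.ofNat (nat_lit 161751296)), (.negSucc (nat_lit 946885359)), (.ofNat (nat_lit 161751280)), (.negSucc (nat_lit 8632786277423437317104)), (.ofNat (nat_lit 0)), (.ofNat (nat_lit 13477732460625389930459526835200))⟩,
    ⟨nat_lit 0, nat_lit 10, (.negSucc (nat_lit 2926704383)), (.ofNat (nat_lit 10244599232)), (.negSucc (nat_lit 2926704367)), (.ofNat (nat_lit 10244599216)), (.ofNat (nat_lit 8632786277423437317105)), (.ofNat (nat_lit 0)), (.ofNat (nat_lit 13578198755453337312331038720))⟩,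
    ⟨nat_lit 17, nat_lit 13, (.negSucc (nat_lit 5803065791)), (.negSucc (nat_lit 1333224383)), (.negSucc (nat_lit 5803065775)), (.negSucc (nat_lit 1333224399)), (.negSucc (nat_lit 8632786277423437317104)), (.ofNat (nat_lit 0)), (.ofNat (nat_lit 0))⟩]

theorem ok118 : stOK 17 17 S118 = true := by decide +kernel

def S119 : SD where
  vs := [
    ⟨nat_lit 0, nat_lit 0, nat_lit 16, (.ofNat (nat_lit 8)), (.negSucc (nat_lit 2926704383)), (.ofNat (nat_lit 26763616180955303909090616541184)), (.ofNat (nat_lit 0)), (.ofNat (nat_lit 411747941245466213983708344704)), (.negSucc (nat_lit 2926704399)), (.negSucc (nat_lit 2926704367)), (.negSucc (nat_lit 8767673563008178525183)), (.ofNat (nat_lit 8767673563008178525184)), (.negSucc (nat_lit 8767673563008178525183)), (.ofNat (nat_lit 8767673563008178525184)), (.ofNat (nat_lit 809323713508447248474))⟩,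
    ⟨nat_lit 2, nat_lit 0, nat_lit 1, (.ofNat (nat_lit 8)), (.negSucc (nat_lit 7973470207)), (.ofNat (nat_lit 71012011474733289922479951052800)), (.ofNat (nat_lit 0)), (.ofNat (nat_lit 1092492484226665998801278236800)), (.negSucc (nat_lit 7973470223)), (.negSucc (nat_lit 7973470191)), (.negSucc (nat_lit 8767673563008178525183)), (.ofNat (nat_lit 8767673563008178525184)), (.negSucc (nat_lit 8767673563008178525183)), (.ofNat (nat_lit 8767673563008178525184)), (.ofNat (nat_lit 809323713508447248474))⟩,
    ⟨nat_lit 0, nat_lit 1, nat_lit 2, (.ofNat (nat_lit 8)), (.ofNat (nat_lit 1275033472)), (.ofNat (nat_lit 152099872687253140882741147729920)), (.ofNat (nat_lit 0)), (.ofNat (nat_lit 2339998041342356013567555467520)), (.ofNat (nat_lit 1275033456)), (.ofNat (nat_lit 1275033488)), (.ofNat (nat_lit 8767673563008178525184)), (.negSucc (nat_lit 8767673563008178525183)), (.negSucc (nat_lit 8767673563008178525183)), (.ofNat (nat_lit 8767673563008178525184)), (.ofNat (nat_lit 809323713508447248474))⟩,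
    ⟨nat_lit 0, nat_lit 2, nat_lit 3, (.ofNat (nat_lit 8)), (.ofNat (nat_lit 4500183552)), (.ofNat (nat_lit 123822809594103428871589688115200)), (.ofNat (nat_lit 0)), (.ofNat (nat_lit 1904966301447745059552271971200)), (.ofNat (nat_lit 4500183536)), (.ofNat (nat_lit 4500183568)), (.negSucc (nat_lit 8767673563008178525183)), (.ofNat (nat_lit 8767673563008178525184)), (.negSucc (nat_lit 8767673563008178525183)), (.ofNat (nat_lit 8767673563008178525184)), (.ofNat (nat_lit 809323713508447248474))⟩,
    ⟨nat_lit 1, nat_lit 3, nat_lit 4, (.ofNat (nat_lit 8)), (.ofNat (nat_lit 8460625728)), (.ofNat (nat_lit 158546673758441212535665879875584)), (.ofNat (nat_lit 0)), (.ofNat (nat_lit 2439179596283710962073535511104)), (.ofNat (nat_lit 8460625712)), (.ofNat (nat_lit 8460625744)), (.ofNat (nat_lit 8767673563008178525184)), (.negSucc (nat_lit 8767673563008178525183)), (.negSucc (nat_lit 8767673563008178525183)), (.ofNat (nat_lit 8767673563008178525184)), (.ofNat (nat_lit 809323713508447248474))⟩,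
    ⟨nat_lit 0, nat_lit 5, nat_lit 4, (.ofNat (nat_lit 8)), (.ofNat (nat_lit 5192990912)), (.ofNat (nat_lit 187196229148249506377300651081728)), (.ofNat (nat_lit 0)), (.ofNat (nat_lit 2879941986896146251942376389568)), (.ofNat (nat_lit 5192990896)), (.ofNat (nat_lit 5192990928)), (.ofNat (nat_lit 8767673563008178525184)), (.negSucc (nat_lit 8767673563008178525183)), (.negSucc (nat_lit 8767673563008178525183)), (.ofNat (nat_lit 8767673563008178525184)), (.ofNat (nat_lit 809323713508447248474))⟩,
    ⟨nat_lit 2, nat_lit 6, nat_lit 5, (.ofNat (nat_lit 8)), (.negSucc (nat_lit 7926684927)), (.ofNat (nat_lit 72167194130644388858037294727168)), (.ofNat (nat_lit 0)), (.ofNat (nat_lit 1110264525086836751655907278208)), (.negSucc (nat_lit 7926684943)), (.negSucc (nat_lit 7926684911)), (.negSucc (nat_lit 8767673563008178525183)), (.ofNat (nat_lit 8767673563008178525184)), (.negSucc (nat_lit 8767673563008178525183)), (.ofNat (nat_lit 8767673563008178525184)), (.ofNat (nat_lit 809323713508447248474))⟩,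
    ⟨nat_lit 0, nat_lit 7, nat_lit 8, (.ofNat (nat_lit 8)), (.ofNat (nat_lit 5720720448)), (.ofNat (nat_lit 152476989265373018738774925967360)), (.ofNat (nat_lit 0)), (.ofNat (nat_lit 2345799834851892595968042708160)), (.ofNat (nat_lit 5720720432)), (.ofNat (nat_lit 5720720464)), (.ofNat (nat_lit 8767673563008178525184)), (.negSucc (nat_lit 8767673563008178525183)), (.negSucc (nat_lit 8767673563008178525183)), (.ofNat (nat_lit 8767673563008178525184)), (.ofNat (nat_lit 809323713508447248474))⟩,
    ⟨nat_lit 0, nat_lit 8, nat_lit 9, (.ofNat (nat_lit 8)), (.ofNat (nat_lit 11537155520)), (.ofNat (nat_lit 101480385253645047342057473114112)), (.ofNat (nat_lit 0)), (.ofNat (nat_lit 1561236696209923805253697361472)), (.ofNat (nat_lit 11537155504)), (.ofNat (nat_lit 11537155536)), (.negSucc (nat_lit 8767673563008178525183)), (.ofNat (nat_lit 8767673563008178525184)), (.negSucc (nat_lit 8767673563008178525183)), (.ofNat (nat_lit 8767673563008178525184)), (.ofNat (nat_lit 809323713508447248474))⟩,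
    ⟨nat_lit 1, nat_lit 9, nat_lit 10, (.ofNat (nat_lit 8)), (.ofNat (nat_lit 13215605888)), (.ofNat (nat_lit 116196490171979995774662255181824)), (.ofNat (nat_lit 0)), (.ofNat (nat_lit 1787638310338153781138659484544)), (.ofNat (nat_lit 13215605872)), (.ofNat (nat_lit 13215605904)), (.ofNat (nat_lit 8767673563008178525184)), (.negSucc (nat_lit 8767673563008178525183)), (.negSucc (nat_lit 8767673563008178525183)), (.ofNat (nat_lit 8767673563008178525184)), (.ofNat (nat_lit 809323713508447248474))⟩,
    ⟨nat_lit 0, nat_lit 16, nat_lit 10, (.ofNat (nat_lit 8)), (.ofNat (nat_lit 10244599232)), (.ofNat (nat_lit 142245306685312529555420182806528)), (.ofNat (nat_lit 0)), (.ofNat (nat_lit 2188389333620192762378849458368)), (.ofNat (nat_lit 10244599216)), (.ofNat (nat_lit 10244599248)), (.ofNat (nat_lit 8767673563008178525184)), (.negSucc (nat_lit 8767673563008178525183)), (.negSucc (nat_lit 8767673563008178525183)), (.ofNat (nat_lit 8767673563008178525184)), (.ofNat (nat_lit 809323713508447248474))⟩,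
    ⟨nat_lit 1, nat_lit 11, nat_lit 15, (.ofNat (nat_lit 8)), (.ofNat (nat_lit 161751296)), (.ofNat (nat_lit 122153664511101020429577494331392)), (.ofNat (nat_lit 0)), (.ofNat (nat_lit 1879287146324631083521458657152)), (.ofNat (nat_lit 161751280)), (.ofNat (nat_lit 161751312)), (.ofNat (nat_lit 8767673563008178525184)), (.negSucc (nat_lit 8767673563008178525183)), (.negSucc (nat_lit 8767673563008178525183)), (.ofNat (nat_lit 8767673563008178525184)), (.ofNat (nat_lit 809323713508447248474))⟩,
    ⟨nat_lit 0, nat_lit 6, nat_lit 11, (.ofNat (nat_lit 8)), (.negSucc (nat_lit 6733078783)), (.ofNat (nat_lit 61702045097251455848128813596672)), (.ofNat (nat_lit 0)), (.ofNat (nat_lit 949262232265407013042830440832)), (.negSucc (nat_lit 6733078799)), (.negSucc (nat_lit 6733078767)), (.negSucc (nat_lit 8767673563008178525183)), (.ofNat (nat_lit 8767673563008178525184)), (.negSucc (nat_lit 8767673563008178525183)), (.ofNat (nat_lit 8767673563008178525184)), (.ofNat (nat_lit 809323713508447248474))⟩,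
    ⟨nat_lit 0, nat_lit 17, nat_lit 12, (.ofNat (nat_lit 8)), (.negSucc (nat_lit 1333224383)), (.ofNat (nat_lit 12250082959406744628272239280128)), (.ofNat (nat_lit 0)), (.ofNat (nat_lit 188462814760103763510827339968)), (.negSucc (nat_lit 1333224399)), (.negSucc (nat_lit 1333224367)), (.negSucc (nat_lit 8767673563008178525183)), (.ofNat (nat_lit 8767673563008178525184)), (.negSucc (nat_lit 8767673563008178525183)), (.ofNat (nat_lit 8767673563008178525184)), (.ofNat (nat_lit 809318764143882917494))⟩,
    ⟨nat_lit 1, nat_lit 12, nat_lit 13, (.ofNat (nat_lit 8)), (.ofNat (nat_lit 2685655168)), (.ofNat (nat_lit 47486306960391296911899733917696)), (.ofNat (nat_lit 0)), (.ofNat (nat_lit 730548623171383076289256580096)), (.ofNat (nat_lit 2685655152)), (.ofNat (nat_lit 2685655184)), (.ofNat (nat_lit 8767673563008178525184)), (.negSucc (nat_lit 8767673563008178525183)), (.negSucc (nat_lit 8767673563008178525183)), (.ofNat (nat_lit 8767673563008178525184)), (.ofNat (nat_lit 809316815506128863926))⟩,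
    ⟨nat_lit 2, nat_lit 13, nat_lit 14, (.ofNat (nat_lit 8)), (.negSucc (nat_lit 3943038911)), (.ofNat (nat_lit 105604532802876116893370045628416)), (.ofNat (nat_lit 0)), (.ofNat (nat_lit 1624685120044247952196613112896)), (.negSucc (nat_lit 3943038927)), (.negSucc (nat_lit 3943038895)), (.negSucc (nat_lit 8767673563008178525183)), (.ofNat (nat_lit 8767673563008178525184)), (.negSucc (nat_lit 8767673563008178525183)), (.ofNat (nat_lit 8767673563008178525184)), (.ofNat (nat_lit 809329714962067803298))⟩,
    ⟨nat_lit 0, nat_lit 14, nat_lit 15, (.ofNat (nat_lit 8)), (.negSucc (nat_lit 946885375)), (.ofNat (nat_lit 131873828951176789778519352279040)), (.ofNat (nat_lit 0)), (.ofNat (nat_lit 2028828137710412150427420730240)), (.negSucc (nat_lit 946885391)), (.negSucc (nat_lit 946885359)), (.ofNat (nat_lit 8767673563008178525184)), (.negSucc (nat_lit 8767673563008178525183)), (.negSucc (nat_lit 8767673563008178525183)), (.ofNat (nat_lit 8767673563008178525184)), (.ofNat (nat_lit 809323713508447248474))⟩,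
    ⟨nat_lit 2, nat_lit 17, nat_lit 7, (.ofNat (nat_lit 8)), (.negSucc (nat_lit 5803065791)), (.ofNat (nat_lit 51440193303167598042796053299200)), (.ofNat (nat_lit 0)), (.ofNat (nat_lit 791387589279501508346285675200)), (.negSucc (nat_lit 5803065807)), (.negSucc (nat_lit 5803065775)), (.negSucc (nat_lit 8767673563008178525183)), (.ofNat (nat_lit 8767673563008178525184)), (.negSucc (nat_lit 8767673563008178525183)), (.ofNat (nat_lit 8767673563008178525184)), (.ofNat (nat_lit 809323713508447248474))⟩]
  es := [
    ⟨nat_lit 1, nat_lit 0, (.negSucc (nat_lit 7973470207)), (.negSucc (nat_lit 2926704383)), (.negSucc (nat_lit 7973470191)), (.negSucc (nat_lit 2926704399)), (.negSucc (nat_lit 8767673563008178525183)), (.negSucc (nat_lit 134887285584741208078)), (.ofNat (nat_lit 16972731178744116793442826368))⟩,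
    ⟨nat_lit 1, nat_lit 2, (.negSucc (nat_lit 7973470207)), (.ofNat (nat_lit 1275033472)), (.negSucc (nat_lit 7973470191)), (.ofNat (nat_lit 1275033456)), (.ofNat (nat_lit 8767673563008178525184)), (.ofNat (nat_lit 134887285584741208079)), (.ofNat (nat_lit 2168012237274587880809113647232))⟩,
    ⟨nat_lit 2, nat_lit 3, (.ofNat (nat_lit 1275033472)), (.ofNat (nat_lit 4500183552)), (.ofNat (nat_lit 1275033488)), (.ofNat (nat_lit 4500183536)), (.negSucc (nat_lit 8767673563008178525183)), (.negSucc (nat_lit 134887285584741208078)), (.ofNat (nat_lit 2511983845410124146325997287808))⟩,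
    ⟨nat_lit 3, nat_lit 4, (.ofNat (nat_lit 4500183552)), (.ofNat (nat_lit 8460625728)), (.ofNat (nat_lit 4500183568)), (.ofNat (nat_lit 8460625712)), (.ofNat (nat_lit 8767673563008178525184)), (.ofNat (nat_lit 134887285584741208079)), (.ofNat (nat_lit 1297948757485365972778546654592))⟩,
    ⟨nat_lit 5, nat_lit 4, (.ofNat (nat_lit 5192990912)), (.ofNat (nat_lit 8460625728)), (.ofNat (nat_lit 5192990928)), (.ofNat (nat_lit 8460625712)), (.negSucc (nat_lit 8767673563008178525183)), (.negSucc (nat_lit 134887285584741208078)), (.ofNat (nat_lit 3580410435082055951368524367616))⟩,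
    ⟨nat_lit 6, nat_lit 5, (.negSucc (nat_lit 7926684927)), (.ofNat (nat_lit 5192990912)), (.negSucc (nat_lit 7926684911)), (.ofNat (nat_lit 5192990896)), (.ofNat (nat_lit 8767673563008178525184)), (.ofNat (nat_lit 134887285584741208079)), (.ofNat (nat_lit 2179473538710236552516228411520))⟩,
    ⟨nat_lit 6, nat_lit 12, (.negSucc (nat_lit 7926684927)), (.negSucc (nat_lit 6733078783)), (.negSucc (nat_lit 7926684911)), (.negSucc (nat_lit 6733078799)), (.negSucc (nat_lit 8767673563008178525183)), (.negSucc (nat_lit 134887285584741208078)), (.ofNat (nat_lit 41055511463436950795586144896))⟩,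
    ⟨nat_lit 17, nat_lit 7, (.negSucc (nat_lit 5803065791)), (.ofNat (nat_lit 5720720448)), (.negSucc (nat_lit 5803065775)), (.ofNat (nat_lit 5720720432)), (.ofNat (nat_lit 8767673563008178525184)), (.ofNat (nat_lit 134887285584741208079)), (.ofNat (nat_lit 1574147382032047930122284608768))⟩,
    ⟨nat_lit 7, nat_lit 8, (.ofNat (nat_lit 5720720448)), (.ofNat (nat_lit 11537155520)), (.ofNat (nat_lit 5720720464)), (.ofNat (nat_lit 11537155504)), (.negSucc (nat_lit 8767673563008178525183)), (.negSucc (nat_lit 134887285584741208078)), (.ofNat (nat_lit 3117452287671737261813800807552))⟩,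
    ⟨nat_lit 8, nat_lit 9, (.ofNat (nat_lit 11537155520)), (.ofNat (nat_lit 13215605888)), (.ofNat (nat_lit 11537155536)), (.ofNat (nat_lit 13215605872)), (.ofNat (nat_lit 8767673563008178525184)), (.ofNat (nat_lit 134887285584741208079)), (.ofNat (nat_lit 5021104748110348693593915392))⟩,
    ⟨nat_lit 10, nat_lit 9, (.ofNat (nat_lit 10244599232)), (.ofNat (nat_lit 13215605888)), (.ofNat (nat_lit 10244599248)), (.ofNat (nat_lit 13215605872)), (.negSucc (nat_lit 8767673563008178525183)), (.negSucc (nat_lit 134887285584741208078)), (.ofNat (nat_lit 3570255515928197213583725053696))⟩,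
    ⟨nat_lit 12, nat_lit 11, (.negSucc (nat_lit 6733078783)), (.ofNat (nat_lit 161751296)), (.negSucc (nat_lit 6733078767)), (.ofNat (nat_lit 161751280)), (.ofNat (nat_lit 8767673563008178525184)), (.ofNat (nat_lit 134887285584741208079)), (.ofNat (nat_lit 1857468953067377075290074736768))⟩,
    ⟨nat_lit 13, nat_lit 14, (.negSucc (nat_lit 1333224383)), (.ofNat (nat_lit 2685655168)), (.negSucc (nat_lit 1333224367)), (.ofNat (nat_lit 2685655152)), (.ofNat (nat_lit 8767673563008178525184)), (.ofNat (nat_lit 134884810902459042589)), (.ofNat (nat_lit 368294533686491204651776630144))⟩,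
    ⟨nat_lit 15, nat_lit 14, (.negSucc (nat_lit 3943038911)), (.ofNat (nat_lit 2685655168)), (.negSucc (nat_lit 3943038895)), (.ofNat (nat_lit 2685655152)), (.negSucc (nat_lit 8767673563008178525183)), (.negSucc (nat_lit 134888785948146346784)), (.ofNat (nat_lit 1092813388258268092552712014976))⟩,
    ⟨nat_lit 15, nat_lit 16, (.negSucc (nat_lit 3943038911)), (.negSucc (nat_lit 946885375)), (.negSucc (nat_lit 3943038895)), (.negSucc (nat_lit 946885391)), (.ofNat (nat_lit 8767673563008178525184)), (.ofNat (nat_lit 134887285584741208079)), (.ofNat (nat_lit 2156550935838939209101998882944))⟩,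
    ⟨nat_lit 16, nat_lit 11, (.negSucc (nat_lit 946885375)), (.ofNat (nat_lit 161751296)), (.negSucc (nat_lit 946885359)), (.ofNat (nat_lit 161751280)), (.negSucc (nat_lit 8767673563008178525183)), (.negSucc (nat_lit 134887285584741208078)), (.ofNat (nat_lit 1901105339581885091752842577536))⟩,
    ⟨nat_lit 0, nat_lit 10, (.negSucc (nat_lit 2926704383)), (.ofNat (nat_lit 10244599232)), (.negSucc (nat_lit 2926704367)), (.ofNat (nat_lit 10244599216)), (.ofNat (nat_lit 8767673563008178525184)), (.ofNat (nat_lit 134887285584741208079)), (.ofNat (nat_lit 806523151312188311173973863040))⟩,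
    ⟨nat_lit 17, nat_lit 13, (.negSucc (nat_lit 5803065791)), (.negSucc (nat_lit 1333224383)), (.negSucc (nat_lit 5803065775)), (.negSucc (nat_lit 1333224399)), (.negSucc (nat_lit 8767673563008178525183)), (.negSucc (nat_lit 134887285584741208078)), (.ofNat (nat_lit 8627796526955086570286741632))⟩]

theorem ok119 : stOK 17 17 S119 = true := by decide +kernel

def S120 : SD where
  vs := [
    ⟨nat_lit 0, nat_lit 0, nat_lit 16, (.ofNat (nat_lit 8)), (.negSucc (nat_lit 2926704383)), (.ofNat (nat_lit 27181797683782730532670157424640)), (.ofNat (nat_lit 0)), (.ofNat (nat_lit 418181502827426623579540883456)), (.negSucc (nat_lit 2926704399)), (.negSucc (nat_lit 2926704367)), (.negSucc (nat_lit 8904668462430065338774)), (.ofNat (nat_lit 8904668462430181314640)), (.negSucc (nat_lit 8904668462430065338774)), (.ofNat (nat_lit 8904668462430181314640)), (.ofNat (nat_lit 821969396531552833276))⟩,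
    ⟨nat_lit 2, nat_lit 0, nat_lit 1, (.ofNat (nat_lit 8)), (.negSucc (nat_lit 7973470207)), (.ofNat (nat_lit 72121574154025412274486809450240)), (.ofNat (nat_lit 0)), (.ofNat (nat_lit 1109562679292122352006858397440)), (.negSucc (nat_lit 7973470223)), (.negSucc (nat_lit 7973470191)), (.negSucc (nat_lit 8904668462430065338774)), (.ofNat (nat_lit 8904668462430198812274)), (.negSucc (nat_lit 8904668462430065338774)), (.ofNat (nat_lit 8904668462430198812274)), (.ofNat (nat_lit 821969396531587828544))⟩,
    ⟨nat_lit 0, nat_lit 1, nat_lit 2, (.ofNat (nat_lit 8)), (.ofNat (nat_lit 1275033472)), (.ofNat (nat_lit 154476433197991047732934527618560)), (.ofNat (nat_lit 0)), (.ofNat (nat_lit 2376560510737906850193379888640)), (.ofNat (nat_lit 1275033456)), (.ofNat (nat_lit 1275033488)), (.ofNat (nat_lit 8904668462430198812274)), (.negSucc (nat_lit 8904668462430050010331)), (.negSucc (nat_lit 8904668462430050010331)), (.ofNat (nat_lit 8904668462430198812274)), (.ofNat (nat_lit 821969396531824118656))⟩,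
    ⟨nat_lit 0, nat_lit 2, nat_lit 3, (.ofNat (nat_lit 8)), (.ofNat (nat_lit 4500183552)), (.ofNat (nat_lit 125757540994011294947708276992000)), (.ofNat (nat_lit 0)), (.ofNat (nat_lit 1934731399907866076118588876800)), (.ofNat (nat_lit 4500183536)), (.ofNat (nat_lit 4500183568)), (.negSucc (nat_lit 8904668462430050010331)), (.ofNat (nat_lit 8904668462430181314640)), (.negSucc (nat_lit 8904668462430050010331)), (.ofNat (nat_lit 8904668462430181314640)), (.ofNat (nat_lit 821969396531491519504))⟩,
    ⟨nat_lit 1, nat_lit 3, nat_lit 4, (.ofNat (nat_lit 8)), (.ofNat (nat_lit 8460625728)), (.ofNat (nat_lit 161023965535916856481535659248640)), (.ofNat (nat_lit 0)), (.ofNat (nat_lit 2477291777475643945869779373056)), (.ofNat (nat_lit 8460625712)), (.ofNat (nat_lit 8460625744)), (.ofNat (nat_lit 8904668462430181314640)), (.negSucc (nat_lit 8904668462430181314639)), (.negSucc (nat_lit 8904668462430181314639)), (.ofNat (nat_lit 8904668462430181314640)), (.ofNat (nat_lit 821969396532016736736))⟩,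
    ⟨nat_lit 0, nat_lit 5, nat_lit 4, (.ofNat (nat_lit 8)), (.ofNat (nat_lit 5192990912)), (.ofNat (nat_lit 190121170228690904914445973754880)), (.ofNat (nat_lit 0)), (.ofNat (nat_lit 2924941080441398537145322673152)), (.ofNat (nat_lit 5192990896)), (.ofNat (nat_lit 5192990928)), (.ofNat (nat_lit 8904668462430181314640)), (.negSucc (nat_lit 8904668462430181314639)), (.negSucc (nat_lit 8904668462430181314639)), (.ofNat (nat_lit 8904668462430181314640)), (.ofNat (nat_lit 821969396532016736736))⟩,
    ⟨nat_lit 2, nat_lit 6, nat_lit 5, (.ofNat (nat_lit 8)), (.negSucc (nat_lit 7926684927)), (.ofNat (nat_lit 73294806538935707433944127457280)), (.ofNat (nat_lit 0)), (.ofNat (nat_lit 1127612408291318575906832730112)), (.negSucc (nat_lit 7926684943)), (.negSucc (nat_lit 7926684911)), (.negSucc (nat_lit 8904668462430181314639)), (.ofNat (nat_lit 8904668462430181314640)), (.negSucc (nat_lit 8904668462430181314639)), (.ofNat (nat_lit 8904668462430181314640)), (.ofNat (nat_lit 821969396532016736736))⟩,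
    ⟨nat_lit 0, nat_lit 7, nat_lit 8, (.ofNat (nat_lit 8)), (.ofNat (nat_lit 5720720448)), (.ofNat (nat_lit 154859442222644472156568284185600)), (.ofNat (nat_lit 0)), (.ofNat (nat_lit 2382452957271453417793358218240)), (.ofNat (nat_lit 5720720432)), (.ofNat (nat_lit 5720720464)), (.ofNat (nat_lit 8904668462430181314640)), (.negSucc (nat_lit 8904668462430181314639)), (.negSucc (nat_lit 8904668462430181314639)), (.ofNat (nat_lit 8904668462430181314640)), (.ofNat (nat_lit 821969396532016736736))⟩,
    ⟨nat_lit 0, nat_lit 8, nat_lit 9, (.ofNat (nat_lit 8)), (.ofNat (nat_lit 11537155520)), (.ofNat (nat_lit 103066016273233251206777121131520)), (.ofNat (nat_lit 0)), (.ofNat (nat_lit 1585631019588203864719648017408)), (.ofNat (nat_lit 11537155504)), (.ofNat (nat_lit 11537155536)), (.negSucc (nat_lit 8904668462430181314639)), (.ofNat (nat_lit 8904668462430181314640)), (.negSucc (nat_lit 8904668462430181314639)), (.ofNat (nat_lit 8904668462430181314640)), (.ofNat (nat_lit 821969396532016736736))⟩,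
    ⟨nat_lit 1, nat_lit 9, nat_lit 10, (.ofNat (nat_lit 8)), (.ofNat (nat_lit 13215605888)), (.ofNat (nat_lit 118012060330917183208641352919040)), (.ofNat (nat_lit 0)), (.ofNat (nat_lit 1815570158937187433979097737216)), (.ofNat (nat_lit 13215605872)), (.ofNat (nat_lit 13215605904)), (.ofNat (nat_lit 8904668462430181314640)), (.negSucc (nat_lit 8904668462430181314639)), (.negSucc (nat_lit 8904668462430181314639)), (.ofNat (nat_lit 8904668462430181314640)), (.ofNat (nat_lit 821969396532016736736))⟩,
    ⟨nat_lit 0, nat_lit 16, nat_lit 10, (.ofNat (nat_lit 8)), (.ofNat (nat_lit 10244599232)), (.ofNat (nat_lit 144467889602270537829723623162880)), (.ofNat (nat_lit 0)), (.ofNat (nat_lit 2222582916958008274303440356352)), (.ofNat (nat_lit 10244599216)), (.ofNat (nat_lit 10244599248)), (.ofNat (nat_lit 8904668462430181314640)), (.negSucc (nat_lit 8904668462430181314639)), (.negSucc (nat_lit 8904668462430181314639)), (.ofNat (nat_lit 8904668462430181314640)), (.ofNat (nat_lit 821969396532016736736))⟩,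
    ⟨nat_lit 1, nat_lit 11, nat_lit 15, (.ofNat (nat_lit 8)), (.ofNat (nat_lit 161751296)), (.ofNat (nat_lit 124062315519086973873789642680320)), (.ofNat (nat_lit 0)), (.ofNat (nat_lit 1908651007985953444212148348928)), (.ofNat (nat_lit 161751280)), (.ofNat (nat_lit 161751312)), (.ofNat (nat_lit 8904668462430181314640)), (.negSucc (nat_lit 8904668462430181314639)), (.negSucc (nat_lit 8904668462430181314639)), (.ofNat (nat_lit 8904668462430181314640)), (.ofNat (nat_lit 821969396532016736736))⟩,
    ⟨nat_lit 0, nat_lit 6, nat_lit 11, (.ofNat (nat_lit 8)), (.negSucc (nat_lit 6733078783)), (.ofNat (nat_lit 62666139551896009845755826309120)), (.ofNat (nat_lit 0)), (.ofNat (nat_lit 964094454644553997627012712448)), (.negSucc (nat_lit 6733078799)), (.negSucc (nat_lit 6733078767)), (.negSucc (nat_lit 8904668462430181314639)), (.ofNat (nat_lit 8904668462430181314640)), (.negSucc (nat_lit 8904668462430181314639)), (.ofNat (nat_lit 8904668462430181314640)), (.ofNat (nat_lit 821969396532016736736))⟩,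
    ⟨nat_lit 0, nat_lit 17, nat_lit 12, (.ofNat (nat_lit 8)), (.negSucc (nat_lit 1333224383)), (.ofNat (nat_lit 12441490505647475013088993018880)), (.ofNat (nat_lit 0)), (.ofNat (nat_lit 191407546240730384816753738752)), (.negSucc (nat_lit 1333224399)), (.negSucc (nat_lit 1333224367)), (.negSucc (nat_lit 8904668462430181314639)), (.ofNat (nat_lit 8904668462430181314640)), (.negSucc (nat_lit 8904668462430181314639)), (.ofNat (nat_lit 8904668462430181314640)), (.ofNat (nat_lit 821969396532016736736))⟩,
    ⟨nat_lit 1, nat_lit 12, nat_lit 13, (.ofNat (nat_lit 8)), (.ofNat (nat_lit 2685655168)), (.ofNat (nat_lit 48228280506647410926148167260160)), (.ofNat (nat_lit 0)), (.ofNat (nat_lit 741973546256114014248433342464)), (.ofNat (nat_lit 2685655152)), (.ofNat (nat_lit 2685655184)), (.ofNat (nat_lit 8904668462430181314640)), (.negSucc (nat_lit 8904668462430181314639)), (.negSucc (nat_lit 8904668462430181314639)), (.ofNat (nat_lit 8904668462430181314640)), (.ofNat (nat_lit 821969396532016736736))⟩,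
    ⟨nat_lit 2, nat_lit 13, nat_lit 14, (.ofNat (nat_lit 8)), (.negSucc (nat_lit 3943038911)), (.ofNat (nat_lit 107254603627921056219828952591360)), (.ofNat (nat_lit 0)), (.ofNat (nat_lit 1650070825044939326458906962944)), (.negSucc (nat_lit 3943038927)), (.negSucc (nat_lit 3943038895)), (.negSucc (nat_lit 8904668462430181314639)), (.ofNat (nat_lit 8904668462430181314640)), (.negSucc (nat_lit 8904668462430181314639)), (.ofNat (nat_lit 8904668462430181314640)), (.ofNat (nat_lit 821969396532016736736))⟩,
    ⟨nat_lit 0, nat_lit 14, nat_lit 15, (.ofNat (nat_lit 8)), (.negSucc (nat_lit 946885375)), (.ofNat (nat_lit 133934357528538927118808717158400)), (.ofNat (nat_lit 0)), (.ofNat (nat_lit 2060528577362137340289364879360)), (.negSucc (nat_lit 946885391)), (.negSucc (nat_lit 946885359)), (.ofNat (nat_lit 8904668462430181314640)), (.negSucc (nat_lit 8904668462430181314639)), (.negSucc (nat_lit 8904668462430181314639)), (.ofNat (nat_lit 8904668462430181314640)), (.ofNat (nat_lit 821969396532016736736))⟩,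
    ⟨nat_lit 2, nat_lit 17, nat_lit 7, (.ofNat (nat_lit 8)), (.negSucc (nat_lit 5803065791)), (.ofNat (nat_lit 52243946323529591762214741632000)), (.ofNat (nat_lit 0)), (.ofNat (nat_lit 803753020361993719418688332800)), (.negSucc (nat_lit 5803065807)), (.negSucc (nat_lit 5803065775)), (.negSucc (nat_lit 8904668462430181314639)), (.ofNat (nat_lit 8904668462430181314640)), (.negSucc (nat_lit 8904668462430181314639)), (.ofNat (nat_lit 8904668462430181314640)), (.ofNat (nat_lit 821969396532016736736))⟩]
  es := [
    ⟨nat_lit 1, nat_lit 0, (.negSucc (nat_lit 7973470207)), (.negSucc (nat_lit 2926704383)), (.negSucc (nat_lit 7973470191)), (.negSucc (nat_lit 2926704399)), (.negSucc (nat_lit 8904668462430065338774)), (.negSucc (nat_lit 136994899421886813590)), (.ofNat (nat_lit 17237930103751420690970400512))⟩,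
    ⟨nat_lit 1, nat_lit 2, (.negSucc (nat_lit 7973470207)), (.ofNat (nat_lit 1275033472)), (.negSucc (nat_lit 7973470191)), (.ofNat (nat_lit 1275033456)), (.ofNat (nat_lit 8904668462430198812274)), (.ofNat (nat_lit 136994899422020287090)), (.ofNat (nat_lit 2201887428481557530290580412160))⟩,
    ⟨nat_lit 2, nat_lit 3, (.ofNat (nat_lit 1275033472)), (.ofNat (nat_lit 4500183552)), (.ofNat (nat_lit 1275033488)), (.ofNat (nat_lit 4500183536)), (.negSucc (nat_lit 8904668462430050010331)), (.negSucc (nat_lit 136994899421871485147)), (.ofNat (nat_lit 2551233592994066442639430762496))⟩,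
    ⟨nat_lit 3, nat_lit 4, (.ofNat (nat_lit 4500183552)), (.ofNat (nat_lit 8460625728)), (.ofNat (nat_lit 4500183568)), (.ofNat (nat_lit 8460625712)), (.ofNat (nat_lit 8904668462430181314640)), (.ofNat (nat_lit 136994899422002789456)), (.ofNat (nat_lit 1318229206821074816110578649088))⟩,
    ⟨nat_lit 5, nat_lit 4, (.ofNat (nat_lit 5192990912)), (.ofNat (nat_lit 8460625728)), (.ofNat (nat_lit 5192990928)), (.ofNat (nat_lit 8460625712)), (.negSucc (nat_lit 8904668462430181314639)), (.negSucc (nat_lit 136994899422002789455)), (.ofNat (nat_lit 3636354348130213075628980097024))⟩,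
    ⟨nat_lit 6, nat_lit 5, (.negSucc (nat_lit 7926684927)), (.ofNat (nat_lit 5192990912)), (.negSucc (nat_lit 7926684911)), (.ofNat (nat_lit 5192990896)), (.ofNat (nat_lit 8904668462430181314640)), (.ofNat (nat_lit 136994899422002789456)), (.ofNat (nat_lit 2213527812752583998661665249280))⟩,
    ⟨nat_lit 6, nat_lit 12, (.negSucc (nat_lit 7926684927)), (.negSucc (nat_lit 6733078783)), (.negSucc (nat_lit 7926684911)), (.negSucc (nat_lit 6733078799)), (.negSucc (nat_lit 8904668462430181314639)), (.negSucc (nat_lit 136994899422002789455)), (.ofNat (nat_lit 41697003830053153152000210944))⟩,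
    ⟨nat_lit 17, nat_lit 7, (.negSucc (nat_lit 5803065791)), (.ofNat (nat_lit 5720720448)), (.negSucc (nat_lit 5803065775)), (.ofNat (nat_lit 5720720432)), (.ofNat (nat_lit 8904668462430181314640)), (.ofNat (nat_lit 136994899422002789456)), (.ofNat (nat_lit 1598743434876298679039380221952))⟩,
    ⟨nat_lit 7, nat_lit 8, (.ofNat (nat_lit 5720720448)), (.ofNat (nat_lit 11537155520)), (.ofNat (nat_lit 5720720464)), (.ofNat (nat_lit 11537155504)), (.negSucc (nat_lit 8904668462430181314639)), (.negSucc (nat_lit 136994899422002789455)), (.ofNat (nat_lit 3166162479666608156547336214528))⟩,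
    ⟨nat_lit 8, nat_lit 9, (.ofNat (nat_lit 11537155520)), (.ofNat (nat_lit 13215605888)), (.ofNat (nat_lit 11537155536)), (.ofNat (nat_lit 13215605872)), (.ofNat (nat_lit 8904668462430181314640)), (.ofNat (nat_lit 136994899422002789456)), (.ofNat (nat_lit 5099559509799572891959820288))⟩,
    ⟨nat_lit 10, nat_lit 9, (.ofNat (nat_lit 10244599232)), (.ofNat (nat_lit 13215605888)), (.ofNat (nat_lit 10244599248)), (.ofNat (nat_lit 13215605872)), (.negSucc (nat_lit 8904668462430181314639)), (.negSucc (nat_lit 136994899422002789455)), (.ofNat (nat_lit 3626040758364575295066235654144))⟩,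
    ⟨nat_lit 12, nat_lit 11, (.negSucc (nat_lit 6733078783)), (.ofNat (nat_lit 161751296)), (.negSucc (nat_lit 6733078767)), (.ofNat (nat_lit 161751280)), (.ofNat (nat_lit 8904668462430181314640)), (.ofNat (nat_lit 136994899422002789456)), (.ofNat (nat_lit 1886491905459054842102025213952))⟩,
    ⟨nat_lit 13, nat_lit 14, (.negSucc (nat_lit 1333224383)), (.ofNat (nat_lit 2685655168)), (.negSucc (nat_lit 1333224367)), (.ofNat (nat_lit 2685655152)), (.ofNat (nat_lit 8904668462430181314640)), (.ofNat (nat_lit 136994899422002789456)), (.ofNat (nat_lit 374052486633772009835511033856))⟩,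
    ⟨nat_lit 15, nat_lit 14, (.negSucc (nat_lit 3943038911)), (.ofNat (nat_lit 2685655168)), (.negSucc (nat_lit 3943038895)), (.ofNat (nat_lit 2685655152)), (.negSucc (nat_lit 8904668462430181314639)), (.negSucc (nat_lit 136994899422002789455)), (.ofNat (nat_lit 1109894605878456018661355651072))⟩,
    ⟨nat_lit 15, nat_lit 16, (.negSucc (nat_lit 3943038911)), (.negSucc (nat_lit 946885375)), (.negSucc (nat_lit 3943038895)), (.negSucc (nat_lit 946885391)), (.ofNat (nat_lit 8904668462430181314640)), (.ofNat (nat_lit 136994899422002789456)), (.ofNat (nat_lit 2190247044211422634256458274816))⟩,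
    ⟨nat_lit 16, nat_lit 11, (.negSucc (nat_lit 946885375)), (.ofNat (nat_lit 161751296)), (.negSucc (nat_lit 946885359)), (.ofNat (nat_lit 161751280)), (.negSucc (nat_lit 8904668462430181314639)), (.negSucc (nat_lit 136994899422002789455)), (.ofNat (nat_lit 1930810110512852046322271483904))⟩,
    ⟨nat_lit 0, nat_lit 10, (.negSucc (nat_lit 2926704383)), (.ofNat (nat_lit 10244599232)), (.negSucc (nat_lit 2926704367)), (.ofNat (nat_lit 10244599216)), (.ofNat (nat_lit 8904668462430181314640)), (.ofNat (nat_lit 136994899422002789456)), (.ofNat (nat_lit 819125075551441253540645058560))⟩,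
    ⟨nat_lit 17, nat_lit 13, (.negSucc (nat_lit 5803065791)), (.negSucc (nat_lit 1333224383)), (.negSucc (nat_lit 5803065775)), (.negSucc (nat_lit 1333224399)), (.negSucc (nat_lit 8904668462430181314639)), (.negSucc (nat_lit 136994899422002789455)), (.ofNat (nat_lit 8762605847688759797996443648))⟩]

theorem ok120 : stOK 17 17 S120 = true := by decide +kernel

def S121 : SD where
  vs := [
    ⟨nat_lit 0, nat_lit 0, nat_lit 16, (.ofNat (nat_lit 8)), (.negSucc (nat_lit 2926966527)), (.ofNat (nat_lit 27188800600010976425021792389120)), (.negSucc (nat_lit 262143)), (.ofNat (nat_lit 7002916228245892351634964480)), (.negSucc (nat_lit 2926966543)), (.negSucc (nat_lit 2926966511)), (.negSucc (nat_lit 8904668462430065338774)), (.ofNat (nat_lit 8904668462430181314640)), (.negSucc (nat_lit 8904668462430065338774)), (.ofNat (nat_lit 8904668462430181314640)), (.ofNat (nat_lit 0))⟩,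
    ⟨nat_lit 2, nat_lit 0, nat_lit 1, (.ofNat (nat_lit 8)), (.negSucc (nat_lit 7974780927)), (.ofNat (nat_lit 72137914291891319235031115749120)), (.negSucc (nat_lit 1310719)), (.ofNat (nat_lit 16340137865906960544306298880)), (.negSucc (nat_lit 7974780943)), (.negSucc (nat_lit 7974780911)), (.negSucc (nat_lit 8904668462430065338774)), (.ofNat (nat_lit 8904668462430198812274)), (.negSucc (nat_lit 8904668462430065338774)), (.ofNat (nat_lit 8904668462430198812274)), (.ofNat (nat_lit 0))⟩,
    ⟨nat_lit 0, nat_lit 1, nat_lit 2, (.ofNat (nat_lit 8)), (.ofNat (nat_lit 1274771328)), (.ofNat (nat_lit 154502110557494615901628612939264)), (.negSucc (nat_lit 262143)), (.ofNat (nat_lit 25677359503568168694085320704)), (.ofNat (nat_lit 1274771312)), (.ofNat (nat_lit 1274771344)), (.ofNat (nat_lit 8904668462430198812274)), (.negSucc (nat_lit 8904668462430050010331)), (.negSucc (nat_lit 8904668462430050010331)), (.ofNat (nat_lit 8904668462430198812274)), (.ofNat (nat_lit 0))⟩,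
    ⟨nat_lit 0, nat_lit 2, nat_lit 3, (.ofNat (nat_lit 8)), (.ofNat (nat_lit 4500707840)), (.ofNat (nat_lit 125776215437286617327312636897280)), (.ofNat (nat_lit 524288)), (.ofNat (nat_lit 18674443275322379604359905280)), (.ofNat (nat_lit 4500707824)), (.ofNat (nat_lit 4500707856)), (.negSucc (nat_lit 8904668462430050010331)), (.ofNat (nat_lit 8904668462430181314640)), (.negSucc (nat_lit 8904668462430050010331)), (.ofNat (nat_lit 8904668462430181314640)), (.ofNat (nat_lit 0))⟩,
    ⟨nat_lit 1, nat_lit 3, nat_lit 4, (.ofNat (nat_lit 8)), (.ofNat (nat_lit 8461936448)), (.ofNat (nat_lit 161049642895420424753491654118400)), (.ofNat (nat_lit 1310720)), (.ofNat (nat_lit 25677359503568271955994869760)), (.ofNat (nat_lit 8461936432)), (.ofNat (nat_lit 8461936464)), (.ofNat (nat_lit 8904668462430181314640)), (.negSucc (nat_lit 8904668462430181314639)), (.negSucc (nat_lit 8904668462430181314639)), (.ofNat (nat_lit 8904668462430181314640)), (.ofNat (nat_lit 0))⟩,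
    ⟨nat_lit 0, nat_lit 5, nat_lit 4, (.ofNat (nat_lit 8)), (.ofNat (nat_lit 5133991104)), (.ofNat (nat_lit 190683892844828585584623641154560)), (.negSucc (nat_lit 58999807)), (.ofNat (nat_lit 562722616137680670177667399680)), (.ofNat (nat_lit 5133991088)), (.ofNat (nat_lit 5133991120)), (.ofNat (nat_lit 8904668462430181314640)), (.negSucc (nat_lit 8904668462430181314639)), (.negSucc (nat_lit 8904668462430181314639)), (.ofNat (nat_lit 8904668462430181314640)), (.ofNat (nat_lit 0))⟩,
    ⟨nat_lit 2, nat_lit 6, nat_lit 5, (.ofNat (nat_lit 8)), (.negSucc (nat_lit 7987257599)), (.ofNat (nat_lit 73843523322616896319418524928000)), (.negSucc (nat_lit 60572671)), (.ofNat (nat_lit 548716783681188885474397470720)), (.negSucc (nat_lit 7987257615)), (.negSucc (nat_lit 7987257583)), (.negSucc (nat_lit 8904668462430181314639)), (.ofNat (nat_lit 8904668462430181314640)), (.negSucc (nat_lit 8904668462430181314639)), (.ofNat (nat_lit 8904668462430181314640)), (.ofNat (nat_lit 0))⟩,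
    ⟨nat_lit 0, nat_lit 7, nat_lit 8, (.ofNat (nat_lit 8)), (.ofNat (nat_lit 5721244736)), (.ofNat (nat_lit 154882785276738625131073734067200)), (.ofNat (nat_lit 524288)), (.ofNat (nat_lit 23343054094152974505449881600)), (.ofNat (nat_lit 5721244720)), (.ofNat (nat_lit 5721244752)), (.ofNat (nat_lit 8904668462430181314640)), (.negSucc (nat_lit 8904668462430181314639)), (.negSucc (nat_lit 8904668462430181314639)), (.ofNat (nat_lit 8904668462430181314640)), (.ofNat (nat_lit 0))⟩,
    ⟨nat_lit 0, nat_lit 8, nat_lit 9, (.ofNat (nat_lit 8)), (.ofNat (nat_lit 11538728384)), (.ofNat (nat_lit 103080022105689742991480391060480)), (.ofNat (nat_lit 1572864)), (.ofNat (nat_lit 14005832456491784703269928960)), (.ofNat (nat_lit 11538728368)), (.ofNat (nat_lit 11538728400)), (.negSucc (nat_lit 8904668462430181314639)), (.ofNat (nat_lit 8904668462430181314640)), (.negSucc (nat_lit 8904668462430181314639)), (.ofNat (nat_lit 8904668462430181314640)), (.ofNat (nat_lit 0))⟩,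
    ⟨nat_lit 1, nat_lit 9, nat_lit 10, (.ofNat (nat_lit 8)), (.ofNat (nat_lit 13217440896)), (.ofNat (nat_lit 118028400468783090290795167836160)), (.ofNat (nat_lit 1835008)), (.ofNat (nat_lit 16340137865907082153814917120)), (.ofNat (nat_lit 13217440880)), (.ofNat (nat_lit 13217440912)), (.ofNat (nat_lit 8904668462430181314640)), (.negSucc (nat_lit 8904668462430181314639)), (.negSucc (nat_lit 8904668462430181314639)), (.ofNat (nat_lit 8904668462430181314640)), (.ofNat (nat_lit 0))⟩,
    ⟨nat_lit 0, nat_lit 16, nat_lit 10, (.ofNat (nat_lit 8)), (.ofNat (nat_lit 10245909952)), (.ofNat (nat_lit 144488898350955275506778528056320)), (.ofNat (nat_lit 1310720)), (.ofNat (nat_lit 21008748684737677054904893440)), (.ofNat (nat_lit 10245909936)), (.ofNat (nat_lit 10245909968)), (.ofNat (nat_lit 8904668462430181314640)), (.negSucc (nat_lit 8904668462430181314639)), (.negSucc (nat_lit 8904668462430181314639)), (.ofNat (nat_lit 8904668462430181314640)), (.ofNat (nat_lit 0))⟩,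
    ⟨nat_lit 1, nat_lit 11, nat_lit 15, (.ofNat (nat_lit 8)), (.ofNat (nat_lit 161489152)), (.ofNat (nat_lit 124083324267771711550844547573760)), (.negSucc (nat_lit 262143)), (.ofNat (nat_lit 21008748684737677054904893440)), (.ofNat (nat_lit 161489136)), (.ofNat (nat_lit 161489168)), (.ofNat (nat_lit 8904668462430181314640)), (.negSucc (nat_lit 8904668462430181314639)), (.negSucc (nat_lit 8904668462430181314639)), (.ofNat (nat_lit 8904668462430181314640)), (.ofNat (nat_lit 0))⟩,
    ⟨nat_lit 0, nat_lit 6, nat_lit 11, (.ofNat (nat_lit 8)), (.negSucc (nat_lit 6733865215)), (.ofNat (nat_lit 62682479689761916927909641226240)), (.negSucc (nat_lit 786431)), (.ofNat (nat_lit 16340137865907082153814917120)), (.negSucc (nat_lit 6733865231)), (.negSucc (nat_lit 6733865199)), (.negSucc (nat_lit 8904668462430181314639)), (.ofNat (nat_lit 8904668462430181314640)), (.negSucc (nat_lit 8904668462430181314639)), (.ofNat (nat_lit 8904668462430181314640)), (.ofNat (nat_lit 0))⟩,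
    ⟨nat_lit 0, nat_lit 17, nat_lit 12, (.ofNat (nat_lit 8)), (.negSucc (nat_lit 1333486527)), (.ofNat (nat_lit 12443824811056890310539538007040)), (.negSucc (nat_lit 262143)), (.ofNat (nat_lit 2334305409415297450544988160)), (.negSucc (nat_lit 1333486543)), (.negSucc (nat_lit 1333486511)), (.negSucc (nat_lit 8904668462430181314639)), (.ofNat (nat_lit 8904668462430181314640)), (.negSucc (nat_lit 8904668462430181314639)), (.ofNat (nat_lit 8904668462430181314640)), (.ofNat (nat_lit 0))⟩,
    ⟨nat_lit 1, nat_lit 12, nat_lit 13, (.ofNat (nat_lit 8)), (.ofNat (nat_lit 2686179456)), (.ofNat (nat_lit 48237617728285072115950347212800)), (.ofNat (nat_lit 524288)), (.ofNat (nat_lit 9337221637661189802179952640)), (.ofNat (nat_lit 2686179440)), (.ofNat (nat_lit 2686179472)), (.ofNat (nat_lit 8904668462430181314640)), (.negSucc (nat_lit 8904668462430181314639)), (.negSucc (nat_lit 8904668462430181314639)), (.ofNat (nat_lit 8904668462430181314640)), (.ofNat (nat_lit 0))⟩,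
    ⟨nat_lit 2, nat_lit 13, nat_lit 14, (.ofNat (nat_lit 8)), (.negSucc (nat_lit 4003087295)), (.ofNat (nat_lit 107803320411602245105303350062080)), (.negSucc (nat_lit 60048383)), (.ofNat (nat_lit 548716783681188885474397470720)), (.negSucc (nat_lit 4003087311)), (.negSucc (nat_lit 4003087279)), (.negSucc (nat_lit 8904668462430181314639)), (.ofNat (nat_lit 8904668462430181314640)), (.negSucc (nat_lit 8904668462430181314639)), (.ofNat (nat_lit 8904668462430181314640)), (.ofNat (nat_lit 0))⟩,
    ⟨nat_lit 0, nat_lit 14, nat_lit 15, (.ofNat (nat_lit 8)), (.negSucc (nat_lit 1006671615)), (.ofNat (nat_lit 134485408617629531301733659617280)), (.negSucc (nat_lit 59786239)), (.ofNat (nat_lit 551051089090604182924942458880)), (.negSucc (nat_lit 1006671631)), (.negSucc (nat_lit 1006671599)), (.ofNat (nat_lit 8904668462430181314640)), (.negSucc (nat_lit 8904668462430181314639)), (.negSucc (nat_lit 8904668462430181314639)), (.ofNat (nat_lit 8904668462430181314640)), (.ofNat (nat_lit 0))⟩,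
    ⟨nat_lit 2, nat_lit 17, nat_lit 7, (.ofNat (nat_lit 8)), (.negSucc (nat_lit 5804114367)), (.ofNat (nat_lit 52253283545167252952016921584640)), (.negSucc (nat_lit 1048575)), (.ofNat (nat_lit 9337221637661189802179952640)), (.negSucc (nat_lit 5804114383)), (.negSucc (nat_lit 5804114351)), (.negSucc (nat_lit 8904668462430181314639)), (.ofNat (nat_lit 8904668462430181314640)), (.negSucc (nat_lit 8904668462430181314639)), (.ofNat (nat_lit 8904668462430181314640)), (.ofNat (nat_lit 0))⟩]
  es := [
    ⟨nat_lit 1, nat_lit 0, (.negSucc (nat_lit 7974780927)), (.negSucc (nat_lit 2926966527)), (.negSucc (nat_lit 7974780911)), (.negSucc (nat_lit 2926966543)), (.negSucc (nat_lit 8904668462430065338774)), (.ofNat (nat_lit 0)), (.ofNat (nat_lit 4668610818830625303467130880))⟩,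
    ⟨nat_lit 1, nat_lit 2, (.negSucc (nat_lit 7974780927)), (.ofNat (nat_lit 1274771328)), (.negSucc (nat_lit 7974780911)), (.ofNat (nat_lit 1274771312)), (.ofNat (nat_lit 8904668462430198812274)), (.ofNat (nat_lit 0)), (.ofNat (nat_lit 28011664912983470731530076160))⟩,
    ⟨nat_lit 2, nat_lit 3, (.ofNat (nat_lit 1274771328)), (.ofNat (nat_lit 4500707840)), (.ofNat (nat_lit 1274771344)), (.ofNat (nat_lit 4500707824)), (.negSucc (nat_lit 8904668462430050010331)), (.ofNat (nat_lit 0)), (.ofNat (nat_lit 23343054094152905664176848896))⟩,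
    ⟨nat_lit 3, nat_lit 4, (.ofNat (nat_lit 4500707840)), (.ofNat (nat_lit 8461936448)), (.ofNat (nat_lit 4500707856)), (.ofNat (nat_lit 8461936432)), (.ofNat (nat_lit 8904668462430181314640)), (.ofNat (nat_lit 0)), (.ofNat (nat_lit 14005832456491784703269928960))⟩,
    ⟨nat_lit 5, nat_lit 4, (.ofNat (nat_lit 5133991104)), (.ofNat (nat_lit 8461936448)), (.ofNat (nat_lit 5133991120)), (.ofNat (nat_lit 8461936432)), (.negSucc (nat_lit 8904668462430181314639)), (.ofNat (nat_lit 0)), (.ofNat (nat_lit 37348886550644759208719810560))⟩,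
    ⟨nat_lit 6, nat_lit 5, (.negSucc (nat_lit 7987257599)), (.ofNat (nat_lit 5133991104)), (.negSucc (nat_lit 7987257583)), (.ofNat (nat_lit 5133991088)), (.ofNat (nat_lit 8904668462430181314640)), (.ofNat (nat_lit 0)), (.ofNat (nat_lit 1088096345724716581146614988800))⟩,
    ⟨nat_lit 6, nat_lit 12, (.negSucc (nat_lit 7987257599)), (.negSucc (nat_lit 6733865215)), (.negSucc (nat_lit 7987257583)), (.negSucc (nat_lit 6733865231)), (.negSucc (nat_lit 8904668462430181314639)), (.ofNat (nat_lit 0)), (.ofNat (nat_lit 9337221637661189802179952640))⟩,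
    ⟨nat_lit 17, nat_lit 7, (.negSucc (nat_lit 5804114367)), (.ofNat (nat_lit 5721244736)), (.negSucc (nat_lit 5804114351)), (.ofNat (nat_lit 5721244720)), (.ofNat (nat_lit 8904668462430181314640)), (.ofNat (nat_lit 0)), (.ofNat (nat_lit 18674443275322379604359905280))⟩,
    ⟨nat_lit 7, nat_lit 8, (.ofNat (nat_lit 5721244736)), (.ofNat (nat_lit 11538728384)), (.ofNat (nat_lit 5721244752)), (.ofNat (nat_lit 11538728368)), (.negSucc (nat_lit 8904668462430181314639)), (.ofNat (nat_lit 0)), (.ofNat (nat_lit 28011664912983569406539857920))⟩,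
    ⟨nat_lit 8, nat_lit 9, (.ofNat (nat_lit 11538728384)), (.ofNat (nat_lit 13217440896)), (.ofNat (nat_lit 11538728400)), (.ofNat (nat_lit 13217440880)), (.ofNat (nat_lit 8904668462430181314640)), (.ofNat (nat_lit 0)), (.ofNat (nat_lit 0))⟩,
    ⟨nat_lit 10, nat_lit 9, (.ofNat (nat_lit 10245909952)), (.ofNat (nat_lit 13217440896)), (.ofNat (nat_lit 10245909968)), (.ofNat (nat_lit 13217440880)), (.negSucc (nat_lit 8904668462430181314639)), (.ofNat (nat_lit 0)), (.ofNat (nat_lit 32680275731814164307629834240))⟩,
    ⟨nat_lit 12, nat_lit 11, (.negSucc (nat_lit 6733865215)), (.ofNat (nat_lit 161489152)), (.negSucc (nat_lit 6733865199)), (.ofNat (nat_lit 161489136)), (.ofNat (nat_lit 8904668462430181314640)), (.ofNat (nat_lit 0)), (.ofNat (nat_lit 23343054094152974505449881600))⟩,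
    ⟨nat_lit 13, nat_lit 14, (.negSucc (nat_lit 1333486527)), (.ofNat (nat_lit 2686179456)), (.negSucc (nat_lit 1333486511)), (.ofNat (nat_lit 2686179440)), (.ofNat (nat_lit 8904668462430181314640)), (.ofNat (nat_lit 0)), (.ofNat (nat_lit 4668610818830594901089976320))⟩,
    ⟨nat_lit 15, nat_lit 14, (.negSucc (nat_lit 4003087295)), (.ofNat (nat_lit 2686179456)), (.negSucc (nat_lit 4003087279)), (.ofNat (nat_lit 2686179440)), (.negSucc (nat_lit 8904668462430181314639)), (.ofNat (nat_lit 0)), (.ofNat (nat_lit 14005832456491784703269928960))⟩,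
    ⟨nat_lit 15, nat_lit 16, (.negSucc (nat_lit 4003087295)), (.negSucc (nat_lit 1006671615)), (.negSucc (nat_lit 4003087279)), (.negSucc (nat_lit 1006671631)), (.ofNat (nat_lit 8904668462430181314640)), (.ofNat (nat_lit 0)), (.ofNat (nat_lit 1083427734905885986245525012480))⟩,
    ⟨nat_lit 16, nat_lit 11, (.negSucc (nat_lit 1006671615)), (.ofNat (nat_lit 161489152)), (.negSucc (nat_lit 1006671599)), (.ofNat (nat_lit 161489136)), (.negSucc (nat_lit 8904668462430181314639)), (.ofNat (nat_lit 0)), (.ofNat (nat_lit 18674443275322379604359905280))⟩,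
    ⟨nat_lit 0, nat_lit 10, (.negSucc (nat_lit 2926966527)), (.ofNat (nat_lit 10245909952)), (.negSucc (nat_lit 2926966511)), (.ofNat (nat_lit 10245909936)), (.ofNat (nat_lit 8904668462430181314640)), (.ofNat (nat_lit 0)), (.ofNat (nat_lit 9337221637661189802179952640))⟩,
    ⟨nat_lit 17, nat_lit 13, (.negSucc (nat_lit 5804114367)), (.negSucc (nat_lit 1333486527)), (.negSucc (nat_lit 5804114351)), (.negSucc (nat_lit 1333486543)), (.negSucc (nat_lit 8904668462430181314639)), (.ofNat (nat_lit 0)), (.ofNat (nat_lit 0))⟩]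

theorem ok121 : stOK 17 17 S121 = true := by decide +kernel

def S122 : SD where
  vs := [
    ⟨nat_lit 0, nat_lit 0, nat_lit 16, (.ofNat (nat_lit 8)), (.negSucc (nat_lit 2926966527)), (.ofNat (nat_lit 27613625609386147931661994565248)), (.ofNat (nat_lit 0)), (.ofNat (nat_lit 424825009375171506640202176128)), (.negSucc (nat_lit 2926966543)), (.negSucc (nat_lit 2926966511)), (.negSucc (nat_lit 9043803907155652897680)), (.ofNat (nat_lit 9043803907155652897681)), (.negSucc (nat_lit 9043803907155652897680)), (.ofNat (nat_lit 9043803907155652897681)), (.ofNat (nat_lit 834812668353293401706))⟩,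
    ⟨nat_lit 2, nat_lit 0, nat_lit 1, (.ofNat (nat_lit 8)), (.negSucc (nat_lit 7974780927)), (.ofNat (nat_lit 73265069202702715669977872971648)), (.ofNat (nat_lit 0)), (.ofNat (nat_lit 1127154910811396434946757222528)), (.negSucc (nat_lit 7974780943)), (.negSucc (nat_lit 7974780911)), (.negSucc (nat_lit 9043803907155652897680)), (.ofNat (nat_lit 9043803907155652897681)), (.negSucc (nat_lit 9043803907155652897680)), (.ofNat (nat_lit 9043803907155652897681)), (.ofNat (nat_lit 834812668353258406438))⟩,
    ⟨nat_lit 0, nat_lit 1, nat_lit 2, (.ofNat (nat_lit 8)), (.ofNat (nat_lit 1274771328)), (.ofNat (nat_lit 156916206034955899472876103689984)), (.ofNat (nat_lit 0)), (.ofNat (nat_lit 2414095477461283571247490750720)), (.ofNat (nat_lit 1274771312)), (.ofNat (nat_lit 1274771344)), (.ofNat (nat_lit 9043803907155652897681)), (.negSucc (nat_lit 9043803907155652897680)), (.negSucc (nat_lit 9043803907155652897680)), (.ofNat (nat_lit 9043803907155652897681)), (.ofNat (nat_lit 834812668353022116326))⟩,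
    ⟨nat_lit 0, nat_lit 2, nat_lit 3, (.ofNat (nat_lit 8)), (.ofNat (nat_lit 4500707840)), (.ofNat (nat_lit 127741468803494220723048365661312)), (.ofNat (nat_lit 0)), (.ofNat (nat_lit 1965253366207603395735728764032)), (.ofNat (nat_lit 4500707824)), (.ofNat (nat_lit 4500707856)), (.negSucc (nat_lit 9043803907155652897680)), (.ofNat (nat_lit 9043803907155652897681)), (.negSucc (nat_lit 9043803907155652897680)), (.ofNat (nat_lit 9043803907155652897681)), (.ofNat (nat_lit 834812668353354715478))⟩,
    ⟨nat_lit 1, nat_lit 3, nat_lit 4, (.ofNat (nat_lit 8)), (.ofNat (nat_lit 8461936448)), (.ofNat (nat_lit 163566043565661368890260439719360)), (.ofNat (nat_lit 0)), (.ofNat (nat_lit 2516400670240944136768785600960)), (.ofNat (nat_lit 8461936432)), (.ofNat (nat_lit 8461936464)), (.ofNat (nat_lit 9043803907155652897681)), (.negSucc (nat_lit 9043803907155652897680)), (.negSucc (nat_lit 9043803907155652897680)), (.ofNat (nat_lit 9043803907155652897681)), (.ofNat (nat_lit 834812668352829498246))⟩,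
    ⟨nat_lit 0, nat_lit 5, nat_lit 4, (.ofNat (nat_lit 8)), (.ofNat (nat_lit 5133991104)), (.ofNat (nat_lit 193663328670529032234378032066624)), (.ofNat (nat_lit 0)), (.ofNat (nat_lit 2979435825700446649754390912064)), (.ofNat (nat_lit 5133991088)), (.ofNat (nat_lit 5133991120)), (.ofNat (nat_lit 9043803907155652897681)), (.negSucc (nat_lit 9043803907155652897680)), (.negSucc (nat_lit 9043803907155652897680)), (.ofNat (nat_lit 9043803907155652897681)), (.ofNat (nat_lit 834812668352829498246))⟩,
    ⟨nat_lit 2, nat_lit 6, nat_lit 5, (.ofNat (nat_lit 8)), (.negSucc (nat_lit 7987257599)), (.ofNat (nat_lit 74997328374532785324407366211200)), (.ofNat (nat_lit 0)), (.ofNat (nat_lit 1153805051915889004988841283200)), (.negSucc (nat_lit 7987257615)), (.negSucc (nat_lit 7987257583)), (.negSucc (nat_lit 9043803907155652897680)), (.ofNat (nat_lit 9043803907155652897681)), (.negSucc (nat_lit 9043803907155652897680)), (.ofNat (nat_lit 9043803907155652897681)), (.ofNat (nat_lit 834812668352829498246))⟩,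
    ⟨nat_lit 0, nat_lit 7, nat_lit 8, (.ofNat (nat_lit 8)), (.ofNat (nat_lit 5721244736)), (.ofNat (nat_lit 157302828796687666148742412802880)), (.ofNat (nat_lit 0)), (.ofNat (nat_lit 2420043519949041017668678735680)), (.ofNat (nat_lit 5721244720)), (.ofNat (nat_lit 5721244752)), (.ofNat (nat_lit 9043803907155652897681)), (.negSucc (nat_lit 9043803907155652897680)), (.negSucc (nat_lit 9043803907155652897680)), (.ofNat (nat_lit 9043803907155652897681)), (.ofNat (nat_lit 834812668352829498246))⟩,
    ⟨nat_lit 0, nat_lit 8, nat_lit 9, (.ofNat (nat_lit 8)), (.ofNat (nat_lit 11538728384)), (.ofNat (nat_lit 104690647451091145225719378182592)), (.ofNat (nat_lit 0)), (.ofNat (nat_lit 1610625345401402234238987122112)), (.ofNat (nat_lit 11538728368)), (.ofNat (nat_lit 11538728400)), (.negSucc (nat_lit 9043803907155652897680)), (.ofNat (nat_lit 9043803907155652897681)), (.negSucc (nat_lit 9043803907155652897680)), (.ofNat (nat_lit 9043803907155652897681)), (.ofNat (nat_lit 834812668352829498246))⟩,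
    ⟨nat_lit 1, nat_lit 9, nat_lit 10, (.ofNat (nat_lit 8)), (.ofNat (nat_lit 13217440896)), (.ofNat (nat_lit 119872594226107826076585528667264)), (.ofNat (nat_lit 0)), (.ofNat (nat_lit 1844193757324735785790360831104)), (.ofNat (nat_lit 13217440880)), (.ofNat (nat_lit 13217440912)), (.ofNat (nat_lit 9043803907155652897681)), (.negSucc (nat_lit 9043803907155652897680)), (.negSucc (nat_lit 9043803907155652897680)), (.ofNat (nat_lit 9043803907155652897681)), (.ofNat (nat_lit 834812668352829498246))⟩,
    ⟨nat_lit 0, nat_lit 16, nat_lit 10, (.ofNat (nat_lit 8)), (.ofNat (nat_lit 10245909952)), (.ofNat (nat_lit 146746537387688951686567886008128)), (.ofNat (nat_lit 0)), (.ofNat (nat_lit 2257639036733676179789357951808)), (.ofNat (nat_lit 10245909936)), (.ofNat (nat_lit 10245909968)), (.ofNat (nat_lit 9043803907155652897681)), (.negSucc (nat_lit 9043803907155652897680)), (.negSucc (nat_lit 9043803907155652897680)), (.ofNat (nat_lit 9043803907155652897681)), (.ofNat (nat_lit 834812668352829498246))⟩,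
    ⟨nat_lit 1, nat_lit 11, nat_lit 15, (.ofNat (nat_lit 8)), (.ofNat (nat_lit 161489152)), (.ofNat (nat_lit 126022126209455644543823009970304)), (.ofNat (nat_lit 0)), (.ofNat (nat_lit 1938801941683932992978462396544)), (.ofNat (nat_lit 161489136)), (.ofNat (nat_lit 161489168)), (.ofNat (nat_lit 9043803907155652897681)), (.negSucc (nat_lit 9043803907155652897680)), (.negSucc (nat_lit 9043803907155652897680)), (.ofNat (nat_lit 9043803907155652897681)), (.ofNat (nat_lit 834812668352829498246))⟩,
    ⟨nat_lit 0, nat_lit 6, nat_lit 11, (.ofNat (nat_lit 8)), (.negSucc (nat_lit 6733865215)), (.ofNat (nat_lit 63661893434914446879906469549696)), (.ofNat (nat_lit 0)), (.ofNat (nat_lit 979413745152529951996828323456)), (.negSucc (nat_lit 6733865231)), (.negSucc (nat_lit 6733865199)), (.negSucc (nat_lit 9043803907155652897680)), (.ofNat (nat_lit 9043803907155652897681)), (.negSucc (nat_lit 9043803907155652897680)), (.ofNat (nat_lit 9043803907155652897681)), (.ofNat (nat_lit 834812668352829498246))⟩,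
    ⟨nat_lit 0, nat_lit 17, nat_lit 12, (.ofNat (nat_lit 8)), (.negSucc (nat_lit 1333486527)), (.ofNat (nat_lit 12638259573729654221641368926016)), (.ofNat (nat_lit 0)), (.ofNat (nat_lit 194434762672763911101830918976)), (.negSucc (nat_lit 1333486543)), (.negSucc (nat_lit 1333486511)), (.negSucc (nat_lit 9043803907155652897680)), (.ofNat (nat_lit 9043803907155652897681)), (.negSucc (nat_lit 9043803907155652897680)), (.ofNat (nat_lit 9043803907155652897681)), (.ofNat (nat_lit 834812668352829498246))⟩,
    ⟨nat_lit 1, nat_lit 12, nat_lit 13, (.ofNat (nat_lit 8)), (.ofNat (nat_lit 2686179456)), (.ofNat (nat_lit 48991330505289526367760717109120)), (.ofNat (nat_lit 0)), (.ofNat (nat_lit 753712777004454251810369896320)), (.ofNat (nat_lit 2686179440)), (.ofNat (nat_lit 2686179472)), (.ofNat (nat_lit 9043803907155652897681)), (.negSucc (nat_lit 9043803907155652897680)), (.negSucc (nat_lit 9043803907155652897680)), (.ofNat (nat_lit 9043803907155652897681)), (.ofNat (nat_lit 834812668352829498246))⟩,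
    ⟨nat_lit 2, nat_lit 13, nat_lit 14, (.ofNat (nat_lit 8)), (.negSucc (nat_lit 4003087295)), (.ofNat (nat_lit 109487747293033530185070688311232)), (.ofNat (nat_lit 0)), (.ofNat (nat_lit 1684426881431285079767338249152)), (.negSucc (nat_lit 4003087311)), (.negSucc (nat_lit 4003087279)), (.negSucc (nat_lit 9043803907155652897680)), (.ofNat (nat_lit 9043803907155652897681)), (.negSucc (nat_lit 9043803907155652897680)), (.ofNat (nat_lit 9043803907155652897681)), (.ofNat (nat_lit 834812668352829498246))⟩,
    ⟨nat_lit 0, nat_lit 14, nat_lit 15, (.ofNat (nat_lit 8)), (.negSucc (nat_lit 1006671615)), (.ofNat (nat_lit 136586743127279992728319472349312)), (.ofNat (nat_lit 0)), (.ofNat (nat_lit 2101334509650461426585812732032)), (.negSucc (nat_lit 1006671631)), (.negSucc (nat_lit 1006671599)), (.ofNat (nat_lit 9043803907155652897681)), (.negSucc (nat_lit 9043803907155652897680)), (.negSucc (nat_lit 9043803907155652897680)), (.ofNat (nat_lit 9043803907155652897681)), (.ofNat (nat_lit 834812668352829498246))⟩,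
    ⟨nat_lit 2, nat_lit 17, nat_lit 7, (.ofNat (nat_lit 8)), (.negSucc (nat_lit 5804114367)), (.ofNat (nat_lit 53069741100560491279390718965056)), (.ofNat (nat_lit 0)), (.ofNat (nat_lit 816457555393238327373797380416)), (.negSucc (nat_lit 5804114383)), (.negSucc (nat_lit 5804114351)), (.negSucc (nat_lit 9043803907155652897680)), (.ofNat (nat_lit 9043803907155652897681)), (.negSucc (nat_lit 9043803907155652897680)), (.ofNat (nat_lit 9043803907155652897681)), (.ofNat (nat_lit 834812668352829498246))⟩]
  es := [
    ⟨nat_lit 1, nat_lit 0, (.negSucc (nat_lit 7974780927)), (.negSucc (nat_lit 2926966527)), (.negSucc (nat_lit 7974780911)), (.negSucc (nat_lit 2926966543)), (.negSucc (nat_lit 9043803907155652897680)), (.negSucc (nat_lit 139135444725587558905)), (.ofNat (nat_lit 17580219804982576589111877760))⟩,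
    ⟨nat_lit 1, nat_lit 2, (.negSucc (nat_lit 7974780927)), (.ofNat (nat_lit 1274771328)), (.negSucc (nat_lit 7974780911)), (.ofNat (nat_lit 1274771312)), (.ofNat (nat_lit 9043803907155652897681)), (.ofNat (nat_lit 139135444725454085407)), (.ofNat (nat_lit 2236729601816745871390183940224))⟩,
    ⟨nat_lit 2, nat_lit 3, (.ofNat (nat_lit 1274771328)), (.ofNat (nat_lit 4500707840)), (.ofNat (nat_lit 1274771344)), (.ofNat (nat_lit 4500707824)), (.negSucc (nat_lit 9043803907155652897680)), (.negSucc (nat_lit 139135444725602887348)), (.ofNat (nat_lit 2591461353106010959554009880192))⟩,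
    ⟨nat_lit 3, nat_lit 4, (.ofNat (nat_lit 4500707840)), (.ofNat (nat_lit 8461936448)), (.ofNat (nat_lit 4500707856)), (.ofNat (nat_lit 8461936432)), (.ofNat (nat_lit 9043803907155652897681)), (.ofNat (nat_lit 139135444725471583041)), (.ofNat (nat_lit 1339045379309786794245889022592))⟩,
    ⟨nat_lit 5, nat_lit 4, (.ofNat (nat_lit 5133991104)), (.ofNat (nat_lit 8461936448)), (.ofNat (nat_lit 5133991120)), (.ofNat (nat_lit 8461936432)), (.negSucc (nat_lit 9043803907155652897680)), (.negSucc (nat_lit 139135444725471583040)), (.ofNat (nat_lit 3693755961172101479291682179328))⟩,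
    ⟨nat_lit 6, nat_lit 5, (.negSucc (nat_lit 7987257599)), (.ofNat (nat_lit 5133991104)), (.negSucc (nat_lit 7987257583)), (.ofNat (nat_lit 5133991088)), (.ofNat (nat_lit 9043803907155652897681)), (.ofNat (nat_lit 139135444725471583041)), (.ofNat (nat_lit 2265115690228791820217099644800))⟩,
    ⟨nat_lit 6, nat_lit 12, (.negSucc (nat_lit 7987257599)), (.negSucc (nat_lit 6733865215)), (.negSucc (nat_lit 7987257583)), (.negSucc (nat_lit 6733865231)), (.negSucc (nat_lit 9043803907155652897680)), (.negSucc (nat_lit 139135444725471583040)), (.ofNat (nat_lit 42494413602986189760582921600))⟩,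
    ⟨nat_lit 17, nat_lit 7, (.negSucc (nat_lit 5804114367)), (.ofNat (nat_lit 5721244736)), (.negSucc (nat_lit 5804114351)), (.ofNat (nat_lit 5721244720)), (.ofNat (nat_lit 9043803907155652897681)), (.ofNat (nat_lit 139135444725471583041)), (.ofNat (nat_lit 1624015589222417758077770613504))⟩,
    ⟨nat_lit 7, nat_lit 8, (.ofNat (nat_lit 5721244736)), (.ofNat (nat_lit 11538728384)), (.ofNat (nat_lit 5721244752)), (.ofNat (nat_lit 11538728368)), (.negSucc (nat_lit 9043803907155652897680)), (.negSucc (nat_lit 139135444725471583040)), (.ofNat (nat_lit 3216071450675664277259586857856))⟩,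
    ⟨nat_lit 8, nat_lit 9, (.ofNat (nat_lit 11538728384)), (.ofNat (nat_lit 13217440896)), (.ofNat (nat_lit 11538728400)), (.ofNat (nat_lit 13217440880)), (.ofNat (nat_lit 9043803907155652897681)), (.ofNat (nat_lit 139135444725471583041)), (.ofNat (nat_lit 5179240127140191218387386368))⟩,
    ⟨nat_lit 10, nat_lit 9, (.ofNat (nat_lit 10245909952)), (.ofNat (nat_lit 13217440896)), (.ofNat (nat_lit 10245909968)), (.ofNat (nat_lit 13217440880)), (.negSucc (nat_lit 9043803907155652897680)), (.negSucc (nat_lit 139135444725471583040)), (.ofNat (nat_lit 3683208274522331380362334275840))⟩,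
    ⟨nat_lit 12, nat_lit 11, (.negSucc (nat_lit 6733865215)), (.ofNat (nat_lit 161489152)), (.negSucc (nat_lit 6733865199)), (.ofNat (nat_lit 161489136)), (.ofNat (nat_lit 9043803907155652897681)), (.ofNat (nat_lit 139135444725471583041)), (.ofNat (nat_lit 1916333076702073714233073725312))⟩,
    ⟨nat_lit 13, nat_lit 14, (.negSucc (nat_lit 1333486527)), (.ofNat (nat_lit 2686179456)), (.negSucc (nat_lit 1333486511)), (.ofNat (nat_lit 2686179440)), (.ofNat (nat_lit 9043803907155652897681)), (.ofNat (nat_lit 139135444725471583041)), (.ofNat (nat_lit 379970003781468925533837690624))⟩,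
    ⟨nat_lit 15, nat_lit 14, (.negSucc (nat_lit 4003087295)), (.ofNat (nat_lit 2686179456)), (.negSucc (nat_lit 4003087279)), (.ofNat (nat_lit 2686179440)), (.negSucc (nat_lit 9043803907155652897680)), (.negSucc (nat_lit 139135444725471583040)), (.ofNat (nat_lit 1127455550227439578086902102016))⟩,
    ⟨nat_lit 15, nat_lit 16, (.negSucc (nat_lit 4003087295)), (.negSucc (nat_lit 1006671615)), (.negSucc (nat_lit 4003087279)), (.negSucc (nat_lit 1006671631)), (.ofNat (nat_lit 9043803907155652897681)), (.ofNat (nat_lit 139135444725471583041)), (.ofNat (nat_lit 2241398212635130581447774396288))⟩,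
    ⟨nat_lit 16, nat_lit 11, (.negSucc (nat_lit 1006671615)), (.ofNat (nat_lit 161489152)), (.negSucc (nat_lit 1006671599)), (.ofNat (nat_lit 161489136)), (.negSucc (nat_lit 9043803907155652897680)), (.negSucc (nat_lit 139135444725471583040)), (.ofNat (nat_lit 1961270806665792271723851067776))⟩,
    ⟨nat_lit 0, nat_lit 10, (.negSucc (nat_lit 2926966527)), (.ofNat (nat_lit 10245909952)), (.negSucc (nat_lit 2926966511)), (.ofNat (nat_lit 10245909936)), (.ofNat (nat_lit 9043803907155652897681)), (.ofNat (nat_lit 139135444725471583041)), (.ofNat (nat_lit 832069798945020979216381627776))⟩,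
    ⟨nat_lit 17, nat_lit 13, (.negSucc (nat_lit 5804114367)), (.negSucc (nat_lit 1333486527)), (.negSucc (nat_lit 5804114351)), (.negSucc (nat_lit 1333486543)), (.negSucc (nat_lit 9043803907155652897680)), (.negSucc (nat_lit 139135444725471583040)), (.ofNat (nat_lit 8899521564058896669824147328))⟩]

theorem ok122 : stOK 17 17 S122 = true := by decide +kernel

def S123 : SD where
  vs := [
    ⟨nat_lit 0, nat_lit 0, nat_lit 16, (.ofNat (nat_lit 8)), (.negSucc (nat_lit 2926966527)), (.ofNat (nat_lit 28045088509532806493093402192256)), (.ofNat (nat_lit 0)), (.ofNat (nat_lit 431462900146658561431407627008)), (.negSucc (nat_lit 2926966543)), (.negSucc (nat_lit 2926966511)), (.negSucc (nat_lit 9185113343204945402960)), (.ofNat (nat_lit 9185113343204959974207)), (.negSucc (nat_lit 9185113343204945402960)), (.ofNat (nat_lit 9185113343204959974207)), (.ofNat (nat_lit 847856616295784174172))⟩,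
    ⟨nat_lit 2, nat_lit 0, nat_lit 1, (.ofNat (nat_lit 8)), (.negSucc (nat_lit 7974780927)), (.ofNat (nat_lit 74409835908994872049373740630656)), (.ofNat (nat_lit 0)), (.ofNat (nat_lit 1144766706292156379395867659008)), (.negSucc (nat_lit 7974780943)), (.negSucc (nat_lit 7974780911)), (.negSucc (nat_lit 9185113343204945402960)), (.ofNat (nat_lit 9185113343204961062278)), (.negSucc (nat_lit 9185113343204945402960)), (.ofNat (nat_lit 9185113343204961062278)), (.ofNat (nat_lit 847856616295786350314))⟩,
    ⟨nat_lit 0, nat_lit 1, nat_lit 2, (.ofNat (nat_lit 8)), (.ofNat (nat_lit 1274771328)), (.ofNat (nat_lit 159368021754252021913359372029824)), (.ofNat (nat_lit 0)), (.ofNat (nat_lit 2451815719296122440483268339840)), (.ofNat (nat_lit 1274771312)), (.ofNat (nat_lit 1274771344)), (.ofNat (nat_lit 9185113343204961062278)), (.negSucc (nat_lit 9185113343204940293479)), (.negSucc (nat_lit 9185113343204940293479)), (.ofNat (nat_lit 9185113343204961062278)), (.ofNat (nat_lit 847856616295807449986))⟩,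
    ⟨nat_lit 0, nat_lit 2, nat_lit 3, (.ofNat (nat_lit 8)), (.ofNat (nat_lit 4500707840)), (.ofNat (nat_lit 129737429253548817921842244488064)), (.ofNat (nat_lit 0)), (.ofNat (nat_lit 1995960450054597198793878826752)), (.ofNat (nat_lit 4500707824)), (.ofNat (nat_lit 4500707856)), (.negSucc (nat_lit 9185113343204940293479)), (.ofNat (nat_lit 9185113343204959974207)), (.negSucc (nat_lit 9185113343204940293479)), (.ofNat (nat_lit 9185113343204959974207)), (.ofNat (nat_lit 847856616295763736248))⟩,
    ⟨nat_lit 1, nat_lit 3, nat_lit 4, (.ofNat (nat_lit 8)), (.ofNat (nat_lit 8461936448)), (.ofNat (nat_lit 166121762996374827779165955001920)), (.ofNat (nat_lit 0)), (.ofNat (nat_lit 2555719430713458888905515282560)), (.ofNat (nat_lit 8461936432)), (.ofNat (nat_lit 8461936464)), (.ofNat (nat_lit 9185113343204959974207)), (.negSucc (nat_lit 9185113343204959974206)), (.negSucc (nat_lit 9185113343204959974206)), (.ofNat (nat_lit 9185113343204959974207)), (.ofNat (nat_lit 847856616295842459156))⟩,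
    ⟨nat_lit 0, nat_lit 5, nat_lit 4, (.ofNat (nat_lit 8)), (.ofNat (nat_lit 5133991104)), (.ofNat (nat_lit 196689318181006048363034500744128)), (.ofNat (nat_lit 0)), (.ofNat (nat_lit 3025989510477016128656468677504)), (.ofNat (nat_lit 5133991088)), (.ofNat (nat_lit 5133991120)), (.ofNat (nat_lit 9185113343204959974207)), (.negSucc (nat_lit 9185113343204959974206)), (.negSucc (nat_lit 9185113343204959974206)), (.ofNat (nat_lit 9185113343204959974207)), (.ofNat (nat_lit 847856616295842459156))⟩,
    ⟨nat_lit 2, nat_lit 6, nat_lit 5, (.ofNat (nat_lit 8)), (.negSucc (nat_lit 7987257599)), (.ofNat (nat_lit 76169161630384860095099028566400)), (.ofNat (nat_lit 0)), (.ofNat (nat_lit 1171833255852074770691662355200)), (.negSucc (nat_lit 7987257615)), (.negSucc (nat_lit 7987257583)), (.negSucc (nat_lit 9185113343204959974206)), (.ofNat (nat_lit 9185113343204959974207)), (.negSucc (nat_lit 9185113343204959974206)), (.ofNat (nat_lit 9185113343204959974207)), (.ofNat (nat_lit 847856616295842459156))⟩,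
    ⟨nat_lit 0, nat_lit 7, nat_lit 8, (.ofNat (nat_lit 8)), (.ofNat (nat_lit 5721244736)), (.ofNat (nat_lit 159760685496635910932311892871360)), (.ofNat (nat_lit 0)), (.ofNat (nat_lit 2457856699948244783569480068480)), (.ofNat (nat_lit 5721244720)), (.ofNat (nat_lit 5721244752)), (.ofNat (nat_lit 9185113343204959974207)), (.negSucc (nat_lit 9185113343204959974206)), (.negSucc (nat_lit 9185113343204959974206)), (.ofNat (nat_lit 9185113343204959974207)), (.ofNat (nat_lit 847856616295842459156))⟩,
    ⟨nat_lit 0, nat_lit 8, nat_lit 9, (.ofNat (nat_lit 8)), (.ofNat (nat_lit 11538728384)), (.ofNat (nat_lit 106326438817514444369868168604224)), (.ofNat (nat_lit 0)), (.ofNat (nat_lit 1635791366423299144148790421632)), (.ofNat (nat_lit 11538728368)), (.ofNat (nat_lit 11538728400)), (.negSucc (nat_lit 9185113343204959974206)), (.ofNat (nat_lit 9185113343204959974207)), (.negSucc (nat_lit 9185113343204959974206)), (.ofNat (nat_lit 9185113343204959974207)), (.ofNat (nat_lit 847856616295842459156))⟩,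
    ⟨nat_lit 1, nat_lit 9, nat_lit 10, (.ofNat (nat_lit 8)), (.ofNat (nat_lit 13217440896)), (.ofNat (nat_lit 121745603510890760859028656782208)), (.ofNat (nat_lit 0)), (.ofNat (nat_lit 1873009284782934782443128114944)), (.ofNat (nat_lit 13217440880)), (.ofNat (nat_lit 13217440912)), (.ofNat (nat_lit 9185113343204959974207)), (.negSucc (nat_lit 9185113343204959974206)), (.negSucc (nat_lit 9185113343204959974206)), (.ofNat (nat_lit 9185113343204959974207)), (.ofNat (nat_lit 847856616295842459156))⟩,
    ⟨nat_lit 0, nat_lit 16, nat_lit 10, (.ofNat (nat_lit 8)), (.ofNat (nat_lit 10245909952)), (.ofNat (nat_lit 149039452034371591556666199143616)), (.ofNat (nat_lit 0)), (.ofNat (nat_lit 2292914646682639870098313135488)), (.ofNat (nat_lit 10245909936)), (.ofNat (nat_lit 10245909968)), (.ofNat (nat_lit 9185113343204959974207)), (.negSucc (nat_lit 9185113343204959974206)), (.negSucc (nat_lit 9185113343204959974206)), (.ofNat (nat_lit 9185113343204959974207)), (.ofNat (nat_lit 847856616295842459156))⟩,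
    ⟨nat_lit 1, nat_lit 11, nat_lit 15, (.ofNat (nat_lit 8)), (.ofNat (nat_lit 161489152)), (.ofNat (nat_lit 127991221931478388989816543113088)), (.ofNat (nat_lit 0)), (.ofNat (nat_lit 1969095722022744445993533142784)), (.ofNat (nat_lit 161489136)), (.ofNat (nat_lit 161489168)), (.ofNat (nat_lit 9185113343204959974207)), (.negSucc (nat_lit 9185113343204959974206)), (.negSucc (nat_lit 9185113343204959974206)), (.ofNat (nat_lit 9185113343204959974207)), (.ofNat (nat_lit 847856616295842459156))⟩,
    ⟨nat_lit 0, nat_lit 6, nat_lit 11, (.ofNat (nat_lit 8)), (.negSucc (nat_lit 6733865215)), (.ofNat (nat_lit 64656610519834985112403138326912)), (.ofNat (nat_lit 0)), (.ofNat (nat_lit 994717084920538232496668777216)), (.negSucc (nat_lit 6733865231)), (.negSucc (nat_lit 6733865199)), (.negSucc (nat_lit 9185113343204959974206)), (.ofNat (nat_lit 9185113343204959974207)), (.negSucc (nat_lit 9185113343204959974206)), (.ofNat (nat_lit 9185113343204959974207)), (.ofNat (nat_lit 847856616295842459156))⟩,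
    ⟨nat_lit 0, nat_lit 17, nat_lit 12, (.ofNat (nat_lit 8)), (.negSucc (nat_lit 1333486527)), (.ofNat (nat_lit 12835732379569180068854144117952)), (.ofNat (nat_lit 0)), (.ofNat (nat_lit 197472805839525847212775191936)), (.negSucc (nat_lit 1333486543)), (.negSucc (nat_lit 1333486511)), (.negSucc (nat_lit 9185113343204959974206)), (.ofNat (nat_lit 9185113343204959974207)), (.negSucc (nat_lit 9185113343204959974206)), (.ofNat (nat_lit 9185113343204959974207)), (.ofNat (nat_lit 847856616295842459156))⟩,
    ⟨nat_lit 1, nat_lit 12, nat_lit 13, (.ofNat (nat_lit 8)), (.ofNat (nat_lit 2686179456)), (.ofNat (nat_lit 49756820044434675217255539392640)), (.ofNat (nat_lit 0)), (.ofNat (nat_lit 765489539145148849494822283520)), (.ofNat (nat_lit 2686179440)), (.ofNat (nat_lit 2686179472)), (.ofNat (nat_lit 9185113343204959974207)), (.negSucc (nat_lit 9185113343204959974206)), (.negSucc (nat_lit 9185113343204959974206)), (.ofNat (nat_lit 9185113343204959974207)), (.ofNat (nat_lit 847856616295842459156))⟩,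
    ⟨nat_lit 2, nat_lit 13, nat_lit 14, (.ofNat (nat_lit 8)), (.negSucc (nat_lit 4003087295)), (.ofNat (nat_lit 111198493344487179094209202058304)), (.ofNat (nat_lit 0)), (.ofNat (nat_lit 1710746051453648909138513747072)), (.negSucc (nat_lit 4003087311)), (.negSucc (nat_lit 4003087279)), (.negSucc (nat_lit 9185113343204959974206)), (.ofNat (nat_lit 9185113343204959974207)), (.negSucc (nat_lit 9185113343204959974206)), (.ofNat (nat_lit 9185113343204959974207)), (.ofNat (nat_lit 847856616295842459156))⟩,
    ⟨nat_lit 0, nat_lit 14, nat_lit 15, (.ofNat (nat_lit 8)), (.negSucc (nat_lit 1006671615)), (.ofNat (nat_lit 138720910988643742614695452424064)), (.ofNat (nat_lit 0)), (.ofNat (nat_lit 2134167861363749886375980074752)), (.negSucc (nat_lit 1006671631)), (.negSucc (nat_lit 1006671599)), (.ofNat (nat_lit 9185113343204959974207)), (.negSucc (nat_lit 9185113343204959974206)), (.negSucc (nat_lit 9185113343204959974206)), (.ofNat (nat_lit 9185113343204959974207)), (.ofNat (nat_lit 847856616295842459156))⟩,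
    ⟨nat_lit 2, nat_lit 17, nat_lit 7, (.ofNat (nat_lit 8)), (.negSucc (nat_lit 5804114367)), (.ofNat (nat_lit 53898955805256748955629640240832)), (.ofNat (nat_lit 0)), (.ofNat (nat_lit 829214704696257676238921275776)), (.negSucc (nat_lit 5804114383)), (.negSucc (nat_lit 5804114351)), (.negSucc (nat_lit 9185113343204959974206)), (.ofNat (nat_lit 9185113343204959974207)), (.negSucc (nat_lit 9185113343204959974206)), (.ofNat (nat_lit 9185113343204959974207)), (.ofNat (nat_lit 847856616295842459156))⟩]
  es := [
    ⟨nat_lit 1, nat_lit 0, (.negSucc (nat_lit 7974780927)), (.negSucc (nat_lit 2926966527)), (.negSucc (nat_lit 7974780911)), (.negSucc (nat_lit 2926966543)), (.negSucc (nat_lit 9185113343204945402960)), (.negSucc (nat_lit 141309436049292505279)), (.ofNat (nat_lit 17854910739822840395584359168))⟩,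
    ⟨nat_lit 1, nat_lit 2, (.negSucc (nat_lit 7974780927)), (.ofNat (nat_lit 1274771328)), (.negSucc (nat_lit 7974780911)), (.ofNat (nat_lit 1274771312)), (.ofNat (nat_lit 9185113343204961062278)), (.ofNat (nat_lit 141309436049308164597)), (.ofNat (nat_lit 2271678501844614798018708065024))⟩,
    ⟨nat_lit 2, nat_lit 3, (.ofNat (nat_lit 1274771328)), (.ofNat (nat_lit 4500707840)), (.ofNat (nat_lit 1274771344)), (.ofNat (nat_lit 4500707824)), (.negSucc (nat_lit 9185113343204940293479)), (.negSucc (nat_lit 141309436049287395798)), (.ofNat (nat_lit 2631952936747603607479621190912))⟩,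
    ⟨nat_lit 3, nat_lit 4, (.ofNat (nat_lit 4500707840)), (.ofNat (nat_lit 8461936448)), (.ofNat (nat_lit 4500707856)), (.ofNat (nat_lit 8461936432)), (.ofNat (nat_lit 9185113343204959974207)), (.ofNat (nat_lit 141309436049307076526)), (.ofNat (nat_lit 1359967963361502212905830662912))⟩,
    ⟨nat_lit 5, nat_lit 4, (.ofNat (nat_lit 5133991104)), (.ofNat (nat_lit 8461936448)), (.ofNat (nat_lit 5133991120)), (.ofNat (nat_lit 8461936432)), (.negSucc (nat_lit 9185113343204959974206)), (.negSucc (nat_lit 141309436049307076525)), (.ofNat (nat_lit 3751470898065415564905199902208))⟩,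
    ⟨nat_lit 6, nat_lit 5, (.negSucc (nat_lit 7987257599)), (.ofNat (nat_lit 5133991104)), (.negSucc (nat_lit 7987257583)), (.ofNat (nat_lit 5133991088)), (.ofNat (nat_lit 9185113343204959974207)), (.ofNat (nat_lit 141309436049307076526)), (.ofNat (nat_lit 2300508122888616692407737452800))⟩,
    ⟨nat_lit 6, nat_lit 12, (.negSucc (nat_lit 7987257599)), (.negSucc (nat_lit 6733865215)), (.negSucc (nat_lit 7987257583)), (.negSucc (nat_lit 6733865231)), (.negSucc (nat_lit 9185113343204959974206)), (.negSucc (nat_lit 141309436049307076525)), (.ofNat (nat_lit 43158388815532848975587257600))⟩,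
    ⟨nat_lit 17, nat_lit 7, (.negSucc (nat_lit 5804114367)), (.ofNat (nat_lit 5721244736)), (.negSucc (nat_lit 5804114351)), (.ofNat (nat_lit 5721244720)), (.ofNat (nat_lit 9185113343204959974207)), (.ofNat (nat_lit 141309436049307076526)), (.ofNat (nat_lit 1649390832804018035547553401344))⟩,
    ⟨nat_lit 7, nat_lit 8, (.ofNat (nat_lit 5721244736)), (.ofNat (nat_lit 11538728384)), (.ofNat (nat_lit 5721244752)), (.ofNat (nat_lit 11538728368)), (.negSucc (nat_lit 9185113343204959974206)), (.negSucc (nat_lit 141309436049307076525)), (.ofNat (nat_lit 3266322567092471531591406735616))⟩,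
    ⟨nat_lit 8, nat_lit 9, (.ofNat (nat_lit 11538728384)), (.ofNat (nat_lit 13217440896)), (.ofNat (nat_lit 11538728400)), (.ofNat (nat_lit 13217440880)), (.ofNat (nat_lit 9185113343204959974207)), (.ofNat (nat_lit 141309436049307076526)), (.ofNat (nat_lit 5260165754126756706174107648))⟩,
    ⟨nat_lit 10, nat_lit 9, (.ofNat (nat_lit 10245909952)), (.ofNat (nat_lit 13217440896)), (.ofNat (nat_lit 10245909968)), (.ofNat (nat_lit 13217440880)), (.negSucc (nat_lit 9185113343204959974206)), (.negSucc (nat_lit 141309436049307076525)), (.ofNat (nat_lit 3740758403811742808180082122240))⟩,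
    ⟨nat_lit 12, nat_lit 11, (.negSucc (nat_lit 6733865215)), (.ofNat (nat_lit 161489152)), (.negSucc (nat_lit 6733865199)), (.ofNat (nat_lit 161489136)), (.ofNat (nat_lit 9185113343204959974207)), (.ofNat (nat_lit 141309436049307076526)), (.ofNat (nat_lit 1946275781025543616017750296832))⟩,
    ⟨nat_lit 13, nat_lit 14, (.negSucc (nat_lit 1333486527)), (.ofNat (nat_lit 2686179456)), (.negSucc (nat_lit 1333486511)), (.ofNat (nat_lit 2686179440)), (.ofNat (nat_lit 9185113343204959974207)), (.ofNat (nat_lit 141309436049307076526)), (.ofNat (nat_lit 385907035090554377495261233664))⟩,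
    ⟨nat_lit 15, nat_lit 14, (.negSucc (nat_lit 4003087295)), (.ofNat (nat_lit 2686179456)), (.negSucc (nat_lit 4003087279)), (.ofNat (nat_lit 2686179440)), (.negSucc (nat_lit 9185113343204959974206)), (.negSucc (nat_lit 141309436049307076525)), (.ofNat (nat_lit 1145072043199743321494383333376))⟩,
    ⟨nat_lit 15, nat_lit 16, (.negSucc (nat_lit 4003087295)), (.negSucc (nat_lit 1006671615)), (.negSucc (nat_lit 4003087279)), (.negSucc (nat_lit 1006671631)), (.ofNat (nat_lit 9185113343204959974207)), (.ofNat (nat_lit 141309436049307076526)), (.ofNat (nat_lit 2276420059707554496782644160768))⟩,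
    ⟨nat_lit 16, nat_lit 11, (.negSucc (nat_lit 1006671615)), (.ofNat (nat_lit 161489152)), (.negSucc (nat_lit 1006671599)), (.ofNat (nat_lit 161489136)), (.negSucc (nat_lit 9185113343204959974206)), (.negSucc (nat_lit 141309436049307076525)), (.ofNat (nat_lit 1991915663019945275969315988736))⟩,
    ⟨nat_lit 0, nat_lit 10, (.negSucc (nat_lit 2926966527)), (.ofNat (nat_lit 10245909952)), (.negSucc (nat_lit 2926966511)), (.ofNat (nat_lit 10245909936)), (.ofNat (nat_lit 9185113343204959974207)), (.ofNat (nat_lit 141309436049307076526)), (.ofNat (nat_lit 845070889553536932016544148736))⟩,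
    ⟨nat_lit 17, nat_lit 13, (.negSucc (nat_lit 5804114367)), (.negSucc (nat_lit 1333486527)), (.negSucc (nat_lit 5804114351)), (.negSucc (nat_lit 1333486543)), (.negSucc (nat_lit 9185113343204959974206)), (.negSucc (nat_lit 141309436049307076525)), (.ofNat (nat_lit 9038576588497316930289150208))⟩]

theorem ok123 : stOK 17 17 S123 = true := by decide +kernel

def S124 : SD where
  vs := [
    ⟨nat_lit 0, nat_lit 0, nat_lit 16, (.ofNat (nat_lit 8)), (.negSucc (nat_lit 2927228671)), (.ofNat (nat_lit 28052311976589529856175837751680)), (.negSucc (nat_lit 262143)), (.ofNat (nat_lit 7223467056723363082435559424)), (.negSucc (nat_lit 2927228687)), (.negSucc (nat_lit 2927228655)), (.negSucc (nat_lit 9185113343204945402960)), (.ofNat (nat_lit 9185113343204959974207)), (.negSucc (nat_lit 9185113343204945402960)), (.ofNat (nat_lit 9185113343204959974207)), (.ofNat (nat_lit 0))⟩,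
    ⟨nat_lit 2, nat_lit 0, nat_lit 1, (.ofNat (nat_lit 8)), (.negSucc (nat_lit 7975829503)), (.ofNat (nat_lit 74424282843108318764079317615232)), (.negSucc (nat_lit 1048575)), (.ofNat (nat_lit 14446934113446714705576984576)), (.negSucc (nat_lit 7975829519)), (.negSucc (nat_lit 7975829487)), (.negSucc (nat_lit 9185113343204945402960)), (.ofNat (nat_lit 9185113343204961062278)), (.negSucc (nat_lit 9185113343204945402960)), (.ofNat (nat_lit 9185113343204961062278)), (.ofNat (nat_lit 0))⟩,
    ⟨nat_lit 0, nat_lit 1, nat_lit 2, (.ofNat (nat_lit 8)), (.ofNat (nat_lit 1274771328)), (.ofNat (nat_lit 159392099977774433113315788230528)), (.ofNat (nat_lit 0)), (.ofNat (nat_lit 24078223522411199956416200704)), (.ofNat (nat_lit 1274771312)), (.ofNat (nat_lit 1274771344)), (.ofNat (nat_lit 9185113343204961062278)), (.negSucc (nat_lit 9185113343204940293479)), (.negSucc (nat_lit 9185113343204940293479)), (.ofNat (nat_lit 9185113343204961062278)), (.ofNat (nat_lit 0))⟩,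
    ⟨nat_lit 0, nat_lit 2, nat_lit 3, (.ofNat (nat_lit 8)), (.ofNat (nat_lit 4501232128)), (.ofNat (nat_lit 129756691832366746890062072646528)), (.ofNat (nat_lit 524288)), (.ofNat (nat_lit 19262578817928968219828158464)), (.ofNat (nat_lit 4501232112)), (.ofNat (nat_lit 4501232144)), (.negSucc (nat_lit 9185113343204940293479)), (.ofNat (nat_lit 9185113343204959974207)), (.negSucc (nat_lit 9185113343204940293479)), (.ofNat (nat_lit 9185113343204959974207)), (.ofNat (nat_lit 0))⟩,
    ⟨nat_lit 1, nat_lit 3, nat_lit 4, (.ofNat (nat_lit 8)), (.ofNat (nat_lit 8463247168)), (.ofNat (nat_lit 166148249042249480110468218719808)), (.ofNat (nat_lit 1310720)), (.ofNat (nat_lit 26486045874652331302263717888)), (.ofNat (nat_lit 8463247152)), (.ofNat (nat_lit 8463247184)), (.ofNat (nat_lit 9185113343204959974207)), (.negSucc (nat_lit 9185113343204959974206)), (.negSucc (nat_lit 9185113343204959974206)), (.ofNat (nat_lit 9185113343204959974207)), (.ofNat (nat_lit 0))⟩,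
    ⟨nat_lit 0, nat_lit 5, nat_lit 4, (.ofNat (nat_lit 8)), (.ofNat (nat_lit 3966092480)), (.ofNat (nat_lit 207455124573455018803325587852224)), (.negSucc (nat_lit 1167898623)), (.ofNat (nat_lit 10765806392448970440291087108096)), (.ofNat (nat_lit 3966092464)), (.ofNat (nat_lit 3966092496)), (.ofNat (nat_lit 9185113343204959974207)), (.negSucc (nat_lit 9185113343204959974206)), (.negSucc (nat_lit 9185113343204959974206)), (.ofNat (nat_lit 9185113343204959974207)), (.ofNat (nat_lit 0))⟩,
    ⟨nat_lit 2, nat_lit 6, nat_lit 5, (.ofNat (nat_lit 8)), (.negSucc (nat_lit 9156729087)), (.ofNat (nat_lit 86920521088720383809225244555648)), (.negSucc (nat_lit 1169471487)), (.ofNat (nat_lit 10751359458335523714126215989248)), (.negSucc (nat_lit 9156729103)), (.negSucc (nat_lit 9156729071)), (.negSucc (nat_lit 9185113343204959974206)), (.ofNat (nat_lit 9185113343204959974207)), (.negSucc (nat_lit 9185113343204959974206)), (.ofNat (nat_lit 9185113343204959974207)), (.ofNat (nat_lit 0))⟩,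
    ⟨nat_lit 0, nat_lit 7, nat_lit 8, (.ofNat (nat_lit 8)), (.ofNat (nat_lit 5721769024)), (.ofNat (nat_lit 159784763720158322142586678069440)), (.ofNat (nat_lit 524288)), (.ofNat (nat_lit 24078223522411210274785198080)), (.ofNat (nat_lit 5721769008)), (.ofNat (nat_lit 5721769040)), (.ofNat (nat_lit 9185113343204959974207)), (.negSucc (nat_lit 9185113343204959974206)), (.negSucc (nat_lit 9185113343204959974206)), (.ofNat (nat_lit 9185113343204959974207)), (.ofNat (nat_lit 0))⟩,
    ⟨nat_lit 0, nat_lit 8, nat_lit 9, (.ofNat (nat_lit 8)), (.ofNat (nat_lit 11540301248)), (.ofNat (nat_lit 106340885751627891096033039723072)), (.ofNat (nat_lit 1572864)), (.ofNat (nat_lit 14446934113446726164871118848)), (.ofNat (nat_lit 11540301232)), (.ofNat (nat_lit 11540301264)), (.negSucc (nat_lit 9185113343204959974206)), (.ofNat (nat_lit 9185113343204959974207)), (.negSucc (nat_lit 9185113343204959974206)), (.ofNat (nat_lit 9185113343204959974207)), (.ofNat (nat_lit 0))⟩,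
    ⟨nat_lit 1, nat_lit 9, nat_lit 10, (.ofNat (nat_lit 8)), (.ofNat (nat_lit 13219275904)), (.ofNat (nat_lit 121762458267356448706221006420864)), (.ofNat (nat_lit 1835008)), (.ofNat (nat_lit 16854756465687847192349638656)), (.ofNat (nat_lit 13219275888)), (.ofNat (nat_lit 13219275920)), (.ofNat (nat_lit 9185113343204959974207)), (.negSucc (nat_lit 9185113343204959974206)), (.negSucc (nat_lit 9185113343204959974206)), (.ofNat (nat_lit 9185113343204959974207)), (.ofNat (nat_lit 0))⟩,
    ⟨nat_lit 0, nat_lit 16, nat_lit 10, (.ofNat (nat_lit 8)), (.ofNat (nat_lit 10247220672)), (.ofNat (nat_lit 149061122435541761645913505821888)), (.ofNat (nat_lit 1310720)), (.ofNat (nat_lit 21670401170170089247306678272)), (.ofNat (nat_lit 10247220656)), (.ofNat (nat_lit 10247220688)), (.ofNat (nat_lit 9185113343204959974207)), (.negSucc (nat_lit 9185113343204959974206)), (.negSucc (nat_lit 9185113343204959974206)), (.ofNat (nat_lit 9185113343204959974207)), (.ofNat (nat_lit 0))⟩,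
    ⟨nat_lit 1, nat_lit 11, nat_lit 15, (.ofNat (nat_lit 8)), (.negSucc (nat_lit 1006933759)), (.ofNat (nat_lit 138742581389813912703942759102336)), (.negSucc (nat_lit 1168422911)), (.ofNat (nat_lit 10751359458335523714126215989248)), (.negSucc (nat_lit 1006933775)), (.negSucc (nat_lit 1006933743)), (.ofNat (nat_lit 9185113343204959974207)), (.negSucc (nat_lit 9185113343204959974206)), (.negSucc (nat_lit 9185113343204959974206)), (.ofNat (nat_lit 9185113343204959974207)), (.ofNat (nat_lit 0))⟩,
    ⟨nat_lit 0, nat_lit 6, nat_lit 11, (.ofNat (nat_lit 8)), (.negSucc (nat_lit 7902812415)), (.ofNat (nat_lit 75403154333466026584474397276544)), (.negSucc (nat_lit 1168947199)), (.ofNat (nat_lit 10746543813631041472071258949632)), (.negSucc (nat_lit 7902812431)), (.negSucc (nat_lit 7902812399)), (.negSucc (nat_lit 9185113343204959974206)), (.ofNat (nat_lit 9185113343204959974207)), (.negSucc (nat_lit 9185113343204959974206)), (.ofNat (nat_lit 9185113343204959974207)), (.ofNat (nat_lit 0))⟩,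
    ⟨nat_lit 0, nat_lit 17, nat_lit 12, (.ofNat (nat_lit 8)), (.negSucc (nat_lit 1333748671)), (.ofNat (nat_lit 12838140201921421189881622637760)), (.negSucc (nat_lit 262143)), (.ofNat (nat_lit 2407822352241121027478519808)), (.negSucc (nat_lit 1333748687)), (.negSucc (nat_lit 1333748655)), (.negSucc (nat_lit 9185113343204959974206)), (.ofNat (nat_lit 9185113343204959974207)), (.negSucc (nat_lit 9185113343204959974206)), (.ofNat (nat_lit 9185113343204959974207)), (.ofNat (nat_lit 0))⟩,
    ⟨nat_lit 1, nat_lit 12, nat_lit 13, (.ofNat (nat_lit 8)), (.ofNat (nat_lit 2686703744)), (.ofNat (nat_lit 49766451333843639701365453471872)), (.ofNat (nat_lit 524288)), (.ofNat (nat_lit 9631289408964484109914079232)), (.ofNat (nat_lit 2686703728)), (.ofNat (nat_lit 2686703760)), (.ofNat (nat_lit 9185113343204959974207)), (.negSucc (nat_lit 9185113343204959974206)), (.negSucc (nat_lit 9185113343204959974206)), (.ofNat (nat_lit 9185113343204959974207)), (.ofNat (nat_lit 0))⟩,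
    ⟨nat_lit 2, nat_lit 13, nat_lit 14, (.ofNat (nat_lit 8)), (.negSucc (nat_lit 5172034495)), (.ofNat (nat_lit 121949852802822702808335418047552)), (.negSucc (nat_lit 1168947199)), (.ofNat (nat_lit 10751359458335523714126215989248)), (.negSucc (nat_lit 5172034511)), (.negSucc (nat_lit 5172034479)), (.negSucc (nat_lit 9185113343204959974206)), (.ofNat (nat_lit 9185113343204959974207)), (.negSucc (nat_lit 9185113343204959974206)), (.ofNat (nat_lit 9185113343204959974207)), (.ofNat (nat_lit 0))⟩,
    ⟨nat_lit 0, nat_lit 14, nat_lit 15, (.ofNat (nat_lit 8)), (.negSucc (nat_lit 2175356671)), (.ofNat (nat_lit 149474678269331507449849146933120)), (.negSucc (nat_lit 1168685055)), (.ofNat (nat_lit 10753767280687764835153694509056)), (.negSucc (nat_lit 2175356687)), (.negSucc (nat_lit 2175356655)), (.ofNat (nat_lit 9185113343204959974207)), (.negSucc (nat_lit 9185113343204959974206)), (.negSucc (nat_lit 9185113343204959974206)), (.ofNat (nat_lit 9185113343204959974207)), (.ofNat (nat_lit 0))⟩,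
    ⟨nat_lit 2, nat_lit 17, nat_lit 7, (.ofNat (nat_lit 8)), (.negSucc (nat_lit 5805162943)), (.ofNat (nat_lit 53908587094665713439739554320064)), (.negSucc (nat_lit 1048575)), (.ofNat (nat_lit 9631289408964484109914079232)), (.negSucc (nat_lit 5805162959)), (.negSucc (nat_lit 5805162927)), (.negSucc (nat_lit 9185113343204959974206)), (.ofNat (nat_lit 9185113343204959974207)), (.negSucc (nat_lit 9185113343204959974206)), (.ofNat (nat_lit 9185113343204959974207)), (.ofNat (nat_lit 0))⟩]
  es := [
    ⟨nat_lit 1, nat_lit 0, (.negSucc (nat_lit 7975829503)), (.negSucc (nat_lit 2927228671)), (.negSucc (nat_lit 7975829487)), (.negSucc (nat_lit 2927228687)), (.negSucc (nat_lit 9185113343204945402960)), (.ofNat (nat_lit 0)), (.ofNat (nat_lit 4815644704482245874721751040))⟩,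
    ⟨nat_lit 1, nat_lit 2, (.negSucc (nat_lit 7975829503)), (.ofNat (nat_lit 1274771328)), (.negSucc (nat_lit 7975829487)), (.ofNat (nat_lit 1274771312)), (.ofNat (nat_lit 9185113343204961062278)), (.ofNat (nat_lit 0)), (.ofNat (nat_lit 24078223522411199956416200704))⟩,
    ⟨nat_lit 2, nat_lit 3, (.ofNat (nat_lit 1274771328)), (.ofNat (nat_lit 4501232128)), (.ofNat (nat_lit 1274771344)), (.ofNat (nat_lit 4501232112)), (.negSucc (nat_lit 9185113343204940293479)), (.ofNat (nat_lit 0)), (.ofNat (nat_lit 24078223522411199956416200704))⟩,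
    ⟨nat_lit 3, nat_lit 4, (.ofNat (nat_lit 4501232128)), (.ofNat (nat_lit 8463247168)), (.ofNat (nat_lit 4501232144)), (.ofNat (nat_lit 8463247152)), (.ofNat (nat_lit 9185113343204959974207)), (.ofNat (nat_lit 0)), (.ofNat (nat_lit 14446934113446726164871118848))⟩,
    ⟨nat_lit 5, nat_lit 4, (.ofNat (nat_lit 3966092480)), (.ofNat (nat_lit 8463247168)), (.ofNat (nat_lit 3966092496)), (.ofNat (nat_lit 8463247152)), (.negSucc (nat_lit 9185113343204959974206)), (.ofNat (nat_lit 0)), (.ofNat (nat_lit 38525157635857936439656316928))⟩,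
    ⟨nat_lit 6, nat_lit 5, (.negSucc (nat_lit 9156729087)), (.ofNat (nat_lit 3966092480)), (.negSucc (nat_lit 9156729071)), (.ofNat (nat_lit 3966092464)), (.ofNat (nat_lit 9185113343204959974207)), (.ofNat (nat_lit 0)), (.ofNat (nat_lit 21493087627262082944142517899264))⟩,
    ⟨nat_lit 6, nat_lit 12, (.negSucc (nat_lit 9156729087)), (.negSucc (nat_lit 7902812415)), (.negSucc (nat_lit 9156729071)), (.negSucc (nat_lit 7902812431)), (.negSucc (nat_lit 9185113343204959974206)), (.ofNat (nat_lit 0)), (.ofNat (nat_lit 9631289408964484109914079232))⟩,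
    ⟨nat_lit 17, nat_lit 7, (.negSucc (nat_lit 5805162943)), (.ofNat (nat_lit 5721769024)), (.negSucc (nat_lit 5805162927)), (.ofNat (nat_lit 5721769008)), (.ofNat (nat_lit 9185113343204959974207)), (.ofNat (nat_lit 0)), (.ofNat (nat_lit 19262578817928968219828158464))⟩,
    ⟨nat_lit 7, nat_lit 8, (.ofNat (nat_lit 5721769024)), (.ofNat (nat_lit 11540301248)), (.ofNat (nat_lit 5721769040)), (.ofNat (nat_lit 11540301232)), (.negSucc (nat_lit 9185113343204959974206)), (.ofNat (nat_lit 0)), (.ofNat (nat_lit 28893868226893452329742237696))⟩,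
    ⟨nat_lit 8, nat_lit 9, (.ofNat (nat_lit 11540301248)), (.ofNat (nat_lit 13219275904)), (.ofNat (nat_lit 11540301264)), (.ofNat (nat_lit 13219275888)), (.ofNat (nat_lit 9185113343204959974207)), (.ofNat (nat_lit 0)), (.ofNat (nat_lit 0))⟩,
    ⟨nat_lit 10, nat_lit 9, (.ofNat (nat_lit 10247220672)), (.ofNat (nat_lit 13219275904)), (.ofNat (nat_lit 10247220688)), (.ofNat (nat_lit 13219275888)), (.negSucc (nat_lit 9185113343204959974206)), (.ofNat (nat_lit 0)), (.ofNat (nat_lit 33709512931375694384699277312))⟩,
    ⟨nat_lit 12, nat_lit 11, (.negSucc (nat_lit 7902812415)), (.negSucc (nat_lit 1006933759)), (.negSucc (nat_lit 7902812399)), (.negSucc (nat_lit 1006933775)), (.ofNat (nat_lit 9185113343204959974207)), (.ofNat (nat_lit 0)), (.ofNat (nat_lit 21483456337853118460032603820032))⟩,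
    ⟨nat_lit 13, nat_lit 14, (.negSucc (nat_lit 1333748671)), (.ofNat (nat_lit 2686703744)), (.negSucc (nat_lit 1333748655)), (.ofNat (nat_lit 2686703728)), (.ofNat (nat_lit 9185113343204959974207)), (.ofNat (nat_lit 0)), (.ofNat (nat_lit 4815644704482242054957039616))⟩,
    ⟨nat_lit 15, nat_lit 14, (.negSucc (nat_lit 5172034495)), (.ofNat (nat_lit 2686703744)), (.negSucc (nat_lit 5172034479)), (.ofNat (nat_lit 2686703728)), (.negSucc (nat_lit 9185113343204959974206)), (.ofNat (nat_lit 0)), (.ofNat (nat_lit 14446934113446726164871118848))⟩,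
    ⟨nat_lit 15, nat_lit 16, (.negSucc (nat_lit 5172034495)), (.negSucc (nat_lit 2175356671)), (.negSucc (nat_lit 5172034479)), (.negSucc (nat_lit 2175356687)), (.ofNat (nat_lit 9185113343204959974207)), (.ofNat (nat_lit 0)), (.ofNat (nat_lit 21488271982557600702087560859648))⟩,
    ⟨nat_lit 16, nat_lit 11, (.negSucc (nat_lit 2175356671)), (.negSucc (nat_lit 1006933759)), (.negSucc (nat_lit 2175356655)), (.negSucc (nat_lit 1006933775)), (.negSucc (nat_lit 9185113343204959974206)), (.ofNat (nat_lit 0)), (.ofNat (nat_lit 19262578817928968219828158464))⟩,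
    ⟨nat_lit 0, nat_lit 10, (.negSucc (nat_lit 2927228671)), (.ofNat (nat_lit 10247220672)), (.negSucc (nat_lit 2927228655)), (.ofNat (nat_lit 10247220656)), (.ofNat (nat_lit 9185113343204959974207)), (.ofNat (nat_lit 0)), (.ofNat (nat_lit 9631289408964484109914079232))⟩,
    ⟨nat_lit 17, nat_lit 13, (.negSucc (nat_lit 5805162943)), (.negSucc (nat_lit 1333748671)), (.negSucc (nat_lit 5805162927)), (.negSucc (nat_lit 1333748687)), (.negSucc (nat_lit 9185113343204959974206)), (.ofNat (nat_lit 0)), (.ofNat (nat_lit 0))⟩]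

theorem ok124 : stOK 17 17 S124 = true := by decide +kernel

end LCA.CapJ


end

section

set_option maxRecDepth 100000

namespace LCA.CapJ

open LCA

def S200 : SD where
  vs := [
    ⟨nat_lit 1, nat_lit 4, nat_lit 6, (.ofNat (nat_lit 16)), (.ofNat (nat_lit 274877906944000)), (.ofNat (nat_lit 427022055691249813819662113080920290633805987840000000)), (.ofNat (nat_lit 0)), (.ofNat (nat_lit 47453994184212208645411060601141731214229504000000)), (.ofNat (nat_lit 274877906943968)), (.ofNat (nat_lit 274877906944032)), (.negSucc (nat_lit 26782155479893645680620430711928651775999)), (.negSucc (nat_lit 27619097838640322108139819171676422143999)), (.negSucc (nat_lit 27619097838640322108139819171676422143999)), (.negSucc (nat_lit 26782155479893645680620430711928651775999)), (.ofNat (nat_lit 8545512945123862038409597515988992000))⟩,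
    ⟨nat_lit 2, nat_lit 0, nat_lit 1, (.ofNat (nat_lit 16)), (.negSucc (nat_lit 549755813887999)), (.ofNat (nat_lit 120279437284502097135725017355140140065026473984000000)), (.ofNat (nat_lit 0)), (.ofNat (nat_lit 0)), (.negSucc (nat_lit 549755813888031)), (.negSucc (nat_lit 549755813887967)), (.ofNat (nat_lit 56354118822276212786305489623016538112000)), (.ofNat (nat_lit 0)), (.ofNat (nat_lit 0)), (.ofNat (nat_lit 56354118822276212786305489623016538112000)), (.ofNat (nat_lit 34872598281111517813307852489490432000))⟩,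
    ⟨nat_lit 1, nat_lit 7, nat_lit 1, (.ofNat (nat_lit 16)), (.ofNat (nat_lit 1099511627776000)), (.ofNat (nat_lit 120279437284502097135725017355140140065026473984000000)), (.ofNat (nat_lit 0)), (.ofNat (nat_lit 0)), (.ofNat (nat_lit 1099511627775968)), (.ofNat (nat_lit 1099511627776032)), (.ofNat (nat_lit 11159231449955685700258512796636938240000)), (.ofNat (nat_lit 0)), (.ofNat (nat_lit 0)), (.ofNat (nat_lit 11159231449955685700258512796636938240000)), (.ofNat (nat_lit 6905465006160696596694624255344640000))⟩,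
    ⟨nat_lit 1, nat_lit 3, nat_lit 5, (.ofNat (nat_lit 16)), (.ofNat (nat_lit 549755813888000)), (.negSucc (nat_lit 125644194109482061743278484230214721593134574206975999999)), (.ofNat (nat_lit 0)), (.negSucc (nat_lit 19456137615527005544618534846468109797834096639999999)), (.ofNat (nat_lit 549755813887968)), (.ofNat (nat_lit 549755813888032)), (.negSucc (nat_lit 242713284036536163980622653326853406719999)), (.negSucc (nat_lit 133910777399468228403102153559643258879999)), (.negSucc (nat_lit 242713284036536163980622653326853406719999)), (.negSucc (nat_lit 133910777399468228403102153559643258879999)), (.ofNat (nat_lit 108761073847030971397940332021678080000))⟩,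
    ⟨nat_lit 2, nat_lit 4, nat_lit 3, (.ofNat (nat_lit 16)), (.ofNat (nat_lit 0)), (.ofNat (nat_lit 7788844897453195014234152410499643904284514320384000000)), (.ofNat (nat_lit 0)), (.ofNat (nat_lit 1186349854605305216135276515028543280355737600000000)), (.negSucc (nat_lit 31)), (.ofNat (nat_lit 32)), (.negSucc (nat_lit 26782155479893645680620430711928651775999)), (.negSucc (nat_lit 242713284036536163980622653326853406719999)), (.negSucc (nat_lit 242713284036536163980622653326853406719999)), (.negSucc (nat_lit 26782155479893645680620430711928651775999)), (.ofNat (nat_lit 75096931941997575489054038776872960000))⟩,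
    ⟨nat_lit 2, nat_lit 5, nat_lit 2, (.ofNat (nat_lit 16)), (.negSucc (nat_lit 274877906943999)), (.negSucc (nat_lit 15216851483052883737061129768933867388373949218815999999)), (.ofNat (nat_lit 0)), (.negSucc (nat_lit 2372699709210610432270553030057086560711475199999999)), (.negSucc (nat_lit 274877906944031)), (.negSucc (nat_lit 274877906943967)), (.negSucc (nat_lit 133910777399468228403102153559643258879999)), (.ofNat (nat_lit 11159231449955685700258512796636938240000)), (.negSucc (nat_lit 133910777399468228403102153559643258879999)), (.ofNat (nat_lit 11159231449955685700258512796636938240000)), (.ofNat (nat_lit 86318312577008707458682803191808000000))⟩,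
    ⟨nat_lit 0, nat_lit 0, nat_lit 6, (.ofNat (nat_lit 16)), (.negSucc (nat_lit 274877906943999)), (.ofNat (nat_lit 15610781666825261789674548351507037743788391923712000000)), (.ofNat (nat_lit 0)), (.ofNat (nat_lit 2396426706302716536593258560357657426318589952000000)), (.negSucc (nat_lit 274877906944031)), (.negSucc (nat_lit 274877906943967)), (.ofNat (nat_lit 56354118822276212786305489623016538112000)), (.negSucc (nat_lit 27619097838640322108139819171676422143999)), (.negSucc (nat_lit 27619097838640322108139819171676422143999)), (.ofNat (nat_lit 56354118822276212786305489623016538112000)), (.ofNat (nat_lit 43418111226235379851717450005479424000))⟩,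
    ⟨nat_lit 0, nat_lit 2, nat_lit 7, (.ofNat (nat_lit 16)), (.ofNat (nat_lit 824633720832000)), (.negSucc (nat_lit 2947146746782975069703645939902661365622768664575999999)), (.ofNat (nat_lit 0)), (.negSucc (nat_lit 474539941842122086454110606011417312142295039999999)), (.ofNat (nat_lit 824633720831968)), (.ofNat (nat_lit 824633720832032)), (.ofNat (nat_lit 11159231449955685700258512796636938240000)), (.ofNat (nat_lit 11159231449955685700258512796636938240000)), (.ofNat (nat_lit 11159231449955685700258512796636938240000)), (.ofNat (nat_lit 11159231449955685700258512796636938240000)), (.ofNat (nat_lit 3452732503080348298347312127672320000))⟩]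
  es := [
    ⟨nat_lit 1, nat_lit 6, (.negSucc (nat_lit 549755813887999)), (.negSucc (nat_lit 274877906943999)), (.negSucc (nat_lit 549755813887967)), (.negSucc (nat_lit 274877906944031)), (.ofNat (nat_lit 56354118822276212786305489623016538112000)), (.ofNat (nat_lit 8718149570277879453326963122372608000)), (.ofNat (nat_lit 4792853412605433073186517120715314852637179904000000))⟩,
    ⟨nat_lit 1, nat_lit 2, (.negSucc (nat_lit 549755813887999)), (.ofNat (nat_lit 1099511627776000)), (.negSucc (nat_lit 549755813887967)), (.ofNat (nat_lit 1099511627775968)), (.ofNat (nat_lit 0)), (.ofNat (nat_lit 0)), (.ofNat (nat_lit 0))⟩,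
    ⟨nat_lit 5, nat_lit 7, (.negSucc (nat_lit 274877906943999)), (.ofNat (nat_lit 824633720832000)), (.negSucc (nat_lit 274877906943967)), (.ofNat (nat_lit 824633720831968)), (.ofNat (nat_lit 11159231449955685700258512796636938240000)), (.ofNat (nat_lit 1726366251540174149173656063836160000)), (.negSucc (nat_lit 1898159767368488345816442424045669248569180159999999))⟩,
    ⟨nat_lit 4, nat_lit 3, (.ofNat (nat_lit 0)), (.ofNat (nat_lit 549755813888000)), (.ofNat (nat_lit 32)), (.ofNat (nat_lit 549755813887968)), (.negSucc (nat_lit 242713284036536163980622653326853406719999)), (.negSucc (nat_lit 37548465970998787744527019388436479999)), (.ofNat (nat_lit 1186349854605305216135276515028543280355737600000000))⟩,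
    ⟨nat_lit 4, nat_lit 0, (.ofNat (nat_lit 0)), (.ofNat (nat_lit 274877906944000)), (.ofNat (nat_lit 32)), (.ofNat (nat_lit 274877906943968)), (.negSucc (nat_lit 26782155479893645680620430711928651775999)), (.negSucc (nat_lit 4143279003696417958016774553206783999)), (.ofNat (nat_lit 1186349854605305216135276515028543280355737600000000))⟩,
    ⟨nat_lit 5, nat_lit 3, (.negSucc (nat_lit 274877906943999)), (.ofNat (nat_lit 549755813888000)), (.negSucc (nat_lit 274877906943967)), (.ofNat (nat_lit 549755813887968)), (.negSucc (nat_lit 133910777399468228403102153559643258879999)), (.negSucc (nat_lit 20716395018482089790083872766033919999)), (.negSucc (nat_lit 8067179011316075469719880302194094306419015679999999))⟩,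
    ⟨nat_lit 6, nat_lit 0, (.negSucc (nat_lit 274877906943999)), (.ofNat (nat_lit 274877906944000)), (.negSucc (nat_lit 274877906943967)), (.ofNat (nat_lit 274877906943968)), (.negSucc (nat_lit 27619097838640322108139819171676422143999)), (.negSucc (nat_lit 4272756472561931019204798757994495999)), (.ofNat (nat_lit 1221940350243464372619334810479399578766409728000000))⟩,
    ⟨nat_lit 7, nat_lit 2, (.ofNat (nat_lit 824633720832000)), (.ofNat (nat_lit 1099511627776000)), (.ofNat (nat_lit 824633720832032)), (.ofNat (nat_lit 1099511627775968)), (.ofNat (nat_lit 11159231449955685700258512796636938240000)), (.ofNat (nat_lit 1726366251540174149173656063836160000)), (.negSucc (nat_lit 1898159767368488345816442424045669248569180159999999))⟩]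

theorem ok200 : stOK 7 7 S200 = true := by decide +kernel

def S201 : SD where
  vs := [
    ⟨nat_lit 1, nat_lit 4, nat_lit 6, (.ofNat (nat_lit 16)), (.ofNat (nat_lit 274877906944000)), (.ofNat (nat_lit 733764674097997530503599208806700441202585501696000000)), (.ofNat (nat_lit 0)), (.ofNat (nat_lit 4792853412605433073186517120715314852637179904000000)), (.ofNat (nat_lit 274877906943968)), (.ofNat (nat_lit 274877906944032)), (.negSucc (nat_lit 28456040197386998535659207631424192511999)), (.negSucc (nat_lit 29571963342382567105685058911087886335999)), (.negSucc (nat_lit 29571963342382567105685058911087886335999)), (.negSucc (nat_lit 28456040197386998535659207631424192511999)), (.ofNat (nat_lit 61027046991945156173288741856608256000))⟩,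
    ⟨nat_lit 2, nat_lit 0, nat_lit 1, (.ofNat (nat_lit 16)), (.negSucc (nat_lit 549755813887999)), (.ofNat (nat_lit 120279437284502097135725017355140140065026473984000000)), (.ofNat (nat_lit 0)), (.ofNat (nat_lit 0)), (.negSucc (nat_lit 549755813888031)), (.negSucc (nat_lit 549755813887967)), (.ofNat (nat_lit 61375772974756271351421820381503160320000)), (.ofNat (nat_lit 0)), (.ofNat (nat_lit 0)), (.ofNat (nat_lit 61375772974756271351421820381503160320000)), (.ofNat (nat_lit 313853384530003660319770672405413888000))⟩,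
    ⟨nat_lit 1, nat_lit 7, nat_lit 1, (.ofNat (nat_lit 16)), (.ofNat (nat_lit 1099511627776000)), (.ofNat (nat_lit 120279437284502097135725017355140140065026473984000000)), (.ofNat (nat_lit 0)), (.ofNat (nat_lit 0)), (.ofNat (nat_lit 1099511627775968)), (.ofNat (nat_lit 1099511627776032)), (.ofNat (nat_lit 245503091899025085405687281526012641280000)), (.ofNat (nat_lit 0)), (.ofNat (nat_lit 0)), (.ofNat (nat_lit 245503091899025085405687281526012641280000)), (.ofNat (nat_lit 14646491278066837481589298045585981440000))⟩,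
    ⟨nat_lit 1, nat_lit 3, nat_lit 5, (.ofNat (nat_lit 16)), (.ofNat (nat_lit 549755813888000)), (.negSucc (nat_lit 172882557344121210112604796971984864780726619340799999999)), (.ofNat (nat_lit 0)), (.negSucc (nat_lit 738099425541236693270723636590158487306125705215999999)), (.ofNat (nat_lit 549755813887968)), (.ofNat (nat_lit 549755813888032)), (.negSucc (nat_lit 330034270132439404585145515960537448447999)), (.negSucc (nat_lit 187475088359255519764343014983500562431999)), (.negSucc (nat_lit 330034270132439404585145515960537448447999)), (.negSucc (nat_lit 187475088359255519764343014983500562431999)), (.ofNat (nat_lit 3783676913500599682743901995109711872000))⟩,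
    ⟨nat_lit 2, nat_lit 4, nat_lit 3, (.ofNat (nat_lit 16)), (.ofNat (nat_lit 0)), (.ofNat (nat_lit 8555701443470064305943995149814094280706463105024000000)), (.ofNat (nat_lit 0)), (.ofNat (nat_lit 11982133531513582682966292801788287131592949760000000)), (.negSucc (nat_lit 31)), (.ofNat (nat_lit 32)), (.negSucc (nat_lit 28456040197386998535659207631424192511999)), (.negSucc (nat_lit 330034270132439404585145515960537448447999)), (.negSucc (nat_lit 330034270132439404585145515960537448447999)), (.negSucc (nat_lit 28456040197386998535659207631424192511999)), (.ofNat (nat_lit 2728780815496976268891339457302626304000))⟩,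
    ⟨nat_lit 2, nat_lit 5, nat_lit 2, (.ofNat (nat_lit 16)), (.negSucc (nat_lit 274877906943999)), (.negSucc (nat_lit 18284277667120360903900500726191668894061744357375999999)), (.ofNat (nat_lit 0)), (.negSucc (nat_lit 47928534126054330731865171207153148526371799039999999)), (.negSucc (nat_lit 274877906944031)), (.negSucc (nat_lit 274877906943967)), (.negSucc (nat_lit 187475088359255519764343014983500562431999)), (.negSucc (nat_lit 44636925799822742801034051186547752959999)), (.negSucc (nat_lit 187475088359255519764343014983500562431999)), (.negSucc (nat_lit 44636925799822742801034051186547752959999)), (.ofNat (nat_lit 1743629914055575890665392624474521600000))⟩,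
    ⟨nat_lit 0, nat_lit 0, nat_lit 6, (.ofNat (nat_lit 16)), (.negSucc (nat_lit 274877906943999)), (.ofNat (nat_lit 16991123449655626514752265282273048421347899736064000000)), (.ofNat (nat_lit 0)), (.ofNat (nat_lit 21567840356724448829339327043218916836867309568000000)), (.negSucc (nat_lit 274877906944031)), (.negSucc (nat_lit 274877906943967)), (.ofNat (nat_lit 61375772974756271351421820381503160320000)), (.negSucc (nat_lit 29571963342382567105685058911087886335999)), (.negSucc (nat_lit 29571963342382567105685058911087886335999)), (.ofNat (nat_lit 61375772974756271351421820381503160320000)), (.ofNat (nat_lit 374880431521948816493059414262022144000))⟩,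
    ⟨nat_lit 0, nat_lit 2, nat_lit 7, (.ofNat (nat_lit 16)), (.ofNat (nat_lit 824633720832000)), (.negSucc (nat_lit 67363096612199995573330436042316492985066466574335999999)), (.ofNat (nat_lit 0)), (.negSucc (nat_lit 1006499216647140945369168595350216119053807779839999999)), (.ofNat (nat_lit 824633720831968)), (.ofNat (nat_lit 824633720832032)), (.negSucc (nat_lit 44636925799822742801034051186547752959999)), (.ofNat (nat_lit 245503091899025085405687281526012641280000)), (.negSucc (nat_lit 44636925799822742801034051186547752959999)), (.ofNat (nat_lit 245503091899025085405687281526012641280000)), (.ofNat (nat_lit 10810505467144570522125434271742033920000))⟩]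
  es := [
    ⟨nat_lit 1, nat_lit 6, (.negSucc (nat_lit 549755813887999)), (.negSucc (nat_lit 274877906943999)), (.negSucc (nat_lit 549755813887967)), (.negSucc (nat_lit 274877906944031)), (.ofNat (nat_lit 61375772974756271351421820381503160320000)), (.ofNat (nat_lit 78463346132500915079942668101353472000)), (.ofNat (nat_lit 43135680713448897658678654086437833673734619136000000))⟩,
    ⟨nat_lit 1, nat_lit 2, (.negSucc (nat_lit 549755813887999)), (.ofNat (nat_lit 1099511627776000)), (.negSucc (nat_lit 549755813887967)), (.ofNat (nat_lit 1099511627775968)), (.ofNat (nat_lit 0)), (.ofNat (nat_lit 0)), (.ofNat (nat_lit 0))⟩,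
    ⟨nat_lit 5, nat_lit 7, (.negSucc (nat_lit 274877906943999)), (.ofNat (nat_lit 824633720832000)), (.negSucc (nat_lit 274877906943967)), (.ofNat (nat_lit 824633720831968)), (.negSucc (nat_lit 44636925799822742801034051186547752959999)), (.negSucc (nat_lit 871814957027787945332696312237260799999)), (.negSucc (nat_lit 287571204756325984391191027242918891158230794239999999))⟩,
    ⟨nat_lit 4, nat_lit 3, (.ofNat (nat_lit 0)), (.ofNat (nat_lit 549755813888000)), (.ofNat (nat_lit 32)), (.ofNat (nat_lit 549755813887968)), (.negSucc (nat_lit 330034270132439404585145515960537448447999)), (.negSucc (nat_lit 1364390407748488134445669728651313151999)), (.ofNat (nat_lit 11982133531513582682966292801788287131592949760000000))⟩,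
    ⟨nat_lit 4, nat_lit 0, (.ofNat (nat_lit 0)), (.ofNat (nat_lit 274877906944000)), (.ofNat (nat_lit 32)), (.ofNat (nat_lit 274877906943968)), (.negSucc (nat_lit 28456040197386998535659207631424192511999)), (.negSucc (nat_lit 26154448710833638359980889367117823999)), (.ofNat (nat_lit 11982133531513582682966292801788287131592949760000000))⟩,
    ⟨nat_lit 5, nat_lit 3, (.negSucc (nat_lit 274877906943999)), (.ofNat (nat_lit 549755813888000)), (.negSucc (nat_lit 274877906943967)), (.ofNat (nat_lit 549755813887968)), (.negSucc (nat_lit 187475088359255519764343014983500562431999)), (.negSucc (nat_lit 836942358746676427519388459747770367999)), (.negSucc (nat_lit 277985497931115118244817993001488261452956434431999999))⟩,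
    ⟨nat_lit 6, nat_lit 0, (.negSucc (nat_lit 274877906943999)), (.ofNat (nat_lit 274877906944000)), (.negSucc (nat_lit 274877906943967)), (.ofNat (nat_lit 274877906943968)), (.negSucc (nat_lit 29571963342382567105685058911087886335999)), (.negSucc (nat_lit 30513523495972578086644370928304127999)), (.ofNat (nat_lit 13180346884664940951262922081967115844752244736000000))⟩,
    ⟨nat_lit 7, nat_lit 2, (.ofNat (nat_lit 824633720832000)), (.ofNat (nat_lit 1099511627776000)), (.ofNat (nat_lit 824633720832032)), (.ofNat (nat_lit 1099511627775968)), (.ofNat (nat_lit 245503091899025085405687281526012641280000)), (.ofNat (nat_lit 3661622819516709370397324511396495360000)), (.negSucc (nat_lit 4025996866588563781476674381400864476215231119359999999))⟩]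

theorem ok201 : stOK 7 7 S201 = true := by decide +kernel

def S202 : SD where
  vs := [
    ⟨nat_lit 1, nat_lit 4, nat_lit 6, (.ofNat (nat_lit 16)), (.ofNat (nat_lit 274877906944000)), (.ofNat (nat_lit 733764674097997530503599208806700441202585501696000000)), (.ofNat (nat_lit 0)), (.ofNat (nat_lit 0)), (.ofNat (nat_lit 274877906943968)), (.ofNat (nat_lit 274877906944032)), (.negSucc (nat_lit 28456040197386998535659207631424192511999)), (.negSucc (nat_lit 29850944128631459248191521731003809791999)), (.negSucc (nat_lit 29850944128631459248191521731003809791999)), (.negSucc (nat_lit 28456040197386998535659207631424192511999)), (.ofNat (nat_lit 8718149570277879453326963122372608000))⟩,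
    ⟨nat_lit 2, nat_lit 0, nat_lit 1, (.ofNat (nat_lit 16)), (.negSucc (nat_lit 549755813887999)), (.ofNat (nat_lit 120279437284502097135725017355140140065026473984000000)), (.ofNat (nat_lit 0)), (.ofNat (nat_lit 0)), (.negSucc (nat_lit 549755813888031)), (.negSucc (nat_lit 549755813887967)), (.ofNat (nat_lit 61933734547254055636434746021335007232000)), (.ofNat (nat_lit 0)), (.ofNat (nat_lit 0)), (.ofNat (nat_lit 61933734547254055636434746021335007232000)), (.ofNat (nat_lit 34872598281111517813307852489490432000))⟩,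
    ⟨nat_lit 1, nat_lit 7, nat_lit 1, (.ofNat (nat_lit 16)), (.ofNat (nat_lit 1099511627776000)), (.ofNat (nat_lit 120279437284502097135725017355140140065026473984000000)), (.ofNat (nat_lit 0)), (.ofNat (nat_lit 0)), (.ofNat (nat_lit 1099511627775968)), (.ofNat (nat_lit 1099511627776032)), (.ofNat (nat_lit 674575541149754686377973000965658857135936)), (.ofNat (nat_lit 0)), (.ofNat (nat_lit 0)), (.ofNat (nat_lit 674575541149754686377973000965658857135936)), (.ofNat (nat_lit 26817028078170600060767857464977888490996))⟩,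
    ⟨nat_lit 1, nat_lit 3, nat_lit 5, (.ofNat (nat_lit 16)), (.ofNat (nat_lit 549755813888000)), (.negSucc (nat_lit 173035928653324583970946765519847754856011009097727999999)), (.ofNat (nat_lit 0)), (.negSucc (nat_lit 2396426706302716536593258560357657426318589951999999)), (.ofNat (nat_lit 549755813887968)), (.ofNat (nat_lit 549755813888032)), (.negSucc (nat_lit 330313250918688296727651978780453371903999)), (.negSucc (nat_lit 187475088359255519764343014983500562431999)), (.negSucc (nat_lit 330313250918688296727651978780453371903999)), (.negSucc (nat_lit 187475088359255519764343014983500562431999)), (.ofNat (nat_lit 17436299140555758906653926244745216000))⟩,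
    ⟨nat_lit 2, nat_lit 4, nat_lit 3, (.ofNat (nat_lit 16)), (.ofNat (nat_lit 0)), (.ofNat (nat_lit 8555701443470064305943995149814094280706463105024000000)), (.ofNat (nat_lit 0)), (.ofNat (nat_lit 0)), (.negSucc (nat_lit 31)), (.ofNat (nat_lit 32)), (.negSucc (nat_lit 28456040197386998535659207631424192511999)), (.negSucc (nat_lit 330313250918688296727651978780453371903999)), (.negSucc (nat_lit 330313250918688296727651978780453371903999)), (.negSucc (nat_lit 28456040197386998535659207631424192511999)), (.ofNat (nat_lit 8718149570277879453326963122372608000))⟩,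
    ⟨nat_lit 2, nat_lit 5, nat_lit 2, (.ofNat (nat_lit 16)), (.ofNat (nat_lit 549755813887872)), (.negSucc (nat_lit 173035928653300587159636780813317918950093121025736703999)), (.ofNat (nat_lit 12884901887998)), (.negSucc (nat_lit 2417994546659066035245879376361347657125490260443135999)), (.ofNat (nat_lit 549755813887840)), (.ofNat (nat_lit 549755813887904)), (.negSucc (nat_lit 187475088359255519764343014983500562431999)), (.negSucc (nat_lit 44636925799822742801034051186547752959999)), (.negSucc (nat_lit 187475088359255519764343014983500562431999)), (.negSucc (nat_lit 44636925799822742801034051186547752959999)), (.ofNat (nat_lit 0))⟩,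
    ⟨nat_lit 0, nat_lit 0, nat_lit 6, (.ofNat (nat_lit 16)), (.negSucc (nat_lit 274877906943999)), (.ofNat (nat_lit 17144494758859000373094233830135938496632289492992000000)), (.ofNat (nat_lit 0)), (.ofNat (nat_lit 2396426706302716536593258560357657426318589952000000)), (.negSucc (nat_lit 274877906944031)), (.negSucc (nat_lit 274877906943967)), (.ofNat (nat_lit 61933734547254055636434746021335007232000)), (.negSucc (nat_lit 29850944128631459248191521731003809791999)), (.negSucc (nat_lit 29850944128631459248191521731003809791999)), (.ofNat (nat_lit 61933734547254055636434746021335007232000)), (.ofNat (nat_lit 43590747851389397266634815611863040000))⟩,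
    ⟨nat_lit 0, nat_lit 2, nat_lit 7, (.ofNat (nat_lit 16)), (.ofNat (nat_lit 824633720832000)), (.negSucc (nat_lit 185305633389576209353496641953427657331396179692355583999)), (.ofNat (nat_lit 0)), (.negSucc (nat_lit 1842852137146503340315096967361111942911401767469055999)), (.ofNat (nat_lit 824633720831968)), (.ofNat (nat_lit 824633720832032)), (.negSucc (nat_lit 44636925799822742801034051186547752959999)), (.ofNat (nat_lit 674575541149754686377973000965658857135936)), (.negSucc (nat_lit 44636925799822742801034051186547752959999)), (.ofNat (nat_lit 674575541149754686377973000965658857135936)), (.ofNat (nat_lit 13408514039085300030383928732488944245498))⟩]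
  es := [
    ⟨nat_lit 1, nat_lit 6, (.negSucc (nat_lit 549755813887999)), (.negSucc (nat_lit 274877906943999)), (.negSucc (nat_lit 549755813887967)), (.negSucc (nat_lit 274877906944031)), (.ofNat (nat_lit 61933734547254055636434746021335007232000)), (.ofNat (nat_lit 8718149570277879453326963122372608000)), (.ofNat (nat_lit 4792853412605433073186517120715314852637179904000000))⟩,
    ⟨nat_lit 1, nat_lit 2, (.negSucc (nat_lit 549755813887999)), (.ofNat (nat_lit 1099511627776000)), (.negSucc (nat_lit 549755813887967)), (.ofNat (nat_lit 1099511627775968)), (.ofNat (nat_lit 0)), (.ofNat (nat_lit 0)), (.ofNat (nat_lit 0))⟩,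
    ⟨nat_lit 5, nat_lit 7, (.ofNat (nat_lit 549755813887872)), (.ofNat (nat_lit 824633720832000)), (.ofNat (nat_lit 549755813887904)), (.ofNat (nat_lit 824633720831968)), (.negSucc (nat_lit 44636925799822742801034051186547752959999)), (.ofNat (nat_lit 0)), (.negSucc (nat_lit 1842852137146503340315096967361111942911401767469055999))⟩,
    ⟨nat_lit 4, nat_lit 3, (.ofNat (nat_lit 0)), (.ofNat (nat_lit 549755813888000)), (.ofNat (nat_lit 32)), (.ofNat (nat_lit 549755813887968)), (.negSucc (nat_lit 330313250918688296727651978780453371903999)), (.negSucc (nat_lit 4359074785138939726663481561186303999)), (.ofNat (nat_lit 0))⟩,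
    ⟨nat_lit 4, nat_lit 0, (.ofNat (nat_lit 0)), (.ofNat (nat_lit 274877906944000)), (.ofNat (nat_lit 32)), (.ofNat (nat_lit 274877906943968)), (.negSucc (nat_lit 28456040197386998535659207631424192511999)), (.ofNat (nat_lit 0)), (.ofNat (nat_lit 0))⟩,
    ⟨nat_lit 5, nat_lit 3, (.ofNat (nat_lit 549755813887872)), (.ofNat (nat_lit 549755813888000)), (.ofNat (nat_lit 549755813887904)), (.ofNat (nat_lit 549755813887968)), (.negSucc (nat_lit 187475088359255519764343014983500562431999)), (.ofNat (nat_lit 0)), (.negSucc (nat_lit 2396426706302716536593258560357657426318589951999999))⟩,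
    ⟨nat_lit 6, nat_lit 0, (.negSucc (nat_lit 274877906943999)), (.ofNat (nat_lit 274877906944000)), (.negSucc (nat_lit 274877906943967)), (.ofNat (nat_lit 274877906943968)), (.negSucc (nat_lit 29850944128631459248191521731003809791999)), (.negSucc (nat_lit 4359074785138939726663481561186303999)), (.ofNat (nat_lit 1198213353151358268296629280178828713159294976000000))⟩,
    ⟨nat_lit 7, nat_lit 2, (.ofNat (nat_lit 824633720832000)), (.ofNat (nat_lit 1099511627776000)), (.ofNat (nat_lit 824633720832032)), (.ofNat (nat_lit 1099511627775968)), (.ofNat (nat_lit 674575541149754686377973000965658857135936)), (.ofNat (nat_lit 6704257019542650015191964366244472122749)), (.negSucc (nat_lit 7371408548586013361260387869444447771645607069876223999))⟩]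

theorem ok202 : stOK 7 7 S202 = true := by decide +kernel

def S203 : SD where
  vs := [
    ⟨nat_lit 1, nat_lit 4, nat_lit 6, (.ofNat (nat_lit 16)), (.ofNat (nat_lit 274877906944000)), (.ofNat (nat_lit 582789791600926388698223919504168023344514334720000000)), (.ofNat (nat_lit 0)), (.negSucc (nat_lit 2396426706302716536593258560357657426318589951999999)), (.ofNat (nat_lit 274877906943968)), (.ofNat (nat_lit 274877906944032)), (.negSucc (nat_lit 28456040197386998535659207631424192511999)), (.negSucc (nat_lit 30400187551558965653751120407713284095999)), (.negSucc (nat_lit 30400187551558965653751120407713284095999)), (.negSucc (nat_lit 28456040197386998535659207631424192511999)), (.ofNat (nat_lit 17436299140555758906653926244745216000))⟩,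
    ⟨nat_lit 2, nat_lit 0, nat_lit 1, (.ofNat (nat_lit 16)), (.negSucc (nat_lit 549755813887999)), (.ofNat (nat_lit 120279437284502097135725017355140140065026473984000000)), (.ofNat (nat_lit 0)), (.ofNat (nat_lit 0)), (.negSucc (nat_lit 549755813888031)), (.negSucc (nat_lit 549755813887967)), (.ofNat (nat_lit 62482977970181562041994344698044481536000)), (.ofNat (nat_lit 0)), (.ofNat (nat_lit 0)), (.ofNat (nat_lit 62482977970181562041994344698044481536000)), (.ofNat (nat_lit 34872598281111517813307852489490432000))⟩,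
    ⟨nat_lit 1, nat_lit 7, nat_lit 1, (.ofNat (nat_lit 16)), (.ofNat (nat_lit 1099511627776000)), (.ofNat (nat_lit 120279437284502097135725017355140140065026473984000000)), (.ofNat (nat_lit 0)), (.ofNat (nat_lit 0)), (.ofNat (nat_lit 1099511627775968)), (.ofNat (nat_lit 1099511627776032)), (.ofNat (nat_lit 675124784572682192783532599642368331439936)), (.ofNat (nat_lit 0)), (.ofNat (nat_lit 0)), (.ofNat (nat_lit 675124784572682192783532599642368331439936)), (.ofNat (nat_lit 34872598281111517813307852489490432000))⟩,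
    ⟨nat_lit 1, nat_lit 3, nat_lit 5, (.ofNat (nat_lit 16)), (.ofNat (nat_lit 549755813888000)), (.negSucc (nat_lit 173186903535821655112752140809150287273869080264703999999)), (.ofNat (nat_lit 0)), (.negSucc (nat_lit 2396426706302716536593258560357657426318589951999999)), (.ofNat (nat_lit 549755813887968)), (.ofNat (nat_lit 549755813888032)), (.negSucc (nat_lit 330313250918688296727651978780453371903999)), (.negSucc (nat_lit 187475088359255519764343014983500562431999)), (.negSucc (nat_lit 330313250918688296727651978780453371903999)), (.negSucc (nat_lit 187475088359255519764343014983500562431999)), (.ofNat (nat_lit 0))⟩,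
    ⟨nat_lit 2, nat_lit 4, nat_lit 3, (.ofNat (nat_lit 16)), (.ofNat (nat_lit 0)), (.ofNat (nat_lit 8404726560972993164138619860511561862848391938048000000)), (.ofNat (nat_lit 0)), (.negSucc (nat_lit 2396426706302716536593258560357657426318589951999999)), (.negSucc (nat_lit 31)), (.ofNat (nat_lit 32)), (.negSucc (nat_lit 28456040197386998535659207631424192511999)), (.negSucc (nat_lit 330313250918688296727651978780453371903999)), (.negSucc (nat_lit 330313250918688296727651978780453371903999)), (.negSucc (nat_lit 28456040197386998535659207631424192511999)), (.ofNat (nat_lit 0))⟩,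
    ⟨nat_lit 2, nat_lit 5, nat_lit 2, (.ofNat (nat_lit 16)), (.ofNat (nat_lit 549755813887872)), (.negSucc (nat_lit 173186903535797658301442156102620451367951192192712703999)), (.ofNat (nat_lit 0)), (.negSucc (nat_lit 2396426706302716536593258560357657426318589951999999)), (.ofNat (nat_lit 549755813887840)), (.ofNat (nat_lit 549755813887904)), (.negSucc (nat_lit 187475088359255519764343014983500562431999)), (.negSucc (nat_lit 44636925799822742801034051186547752959999)), (.negSucc (nat_lit 187475088359255519764343014983500562431999)), (.negSucc (nat_lit 44636925799822742801034051186547752959999)), (.ofNat (nat_lit 0))⟩,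
    ⟨nat_lit 0, nat_lit 0, nat_lit 6, (.ofNat (nat_lit 16)), (.negSucc (nat_lit 274877906943999)), (.ofNat (nat_lit 17295469641356071514899609119438470914490360659968000000)), (.ofNat (nat_lit 0)), (.ofNat (nat_lit 2396426706302716536593258560357657426318589952000000)), (.negSucc (nat_lit 274877906944031)), (.negSucc (nat_lit 274877906943967)), (.ofNat (nat_lit 62482977970181562041994344698044481536000)), (.negSucc (nat_lit 30400187551558965653751120407713284095999)), (.negSucc (nat_lit 30400187551558965653751120407713284095999)), (.ofNat (nat_lit 62482977970181562041994344698044481536000)), (.ofNat (nat_lit 52308897421667276719961778734235648000))⟩,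
    ⟨nat_lit 0, nat_lit 2, nat_lit 7, (.ofNat (nat_lit 16)), (.ofNat (nat_lit 824633720832000)), (.negSucc (nat_lit 185456608272073280495302017242730189749254250859331583999)), (.ofNat (nat_lit 0)), (.negSucc (nat_lit 2396426706302716536593258560357657426318589951999999)), (.ofNat (nat_lit 824633720831968)), (.ofNat (nat_lit 824633720832032)), (.negSucc (nat_lit 44636925799822742801034051186547752959999)), (.ofNat (nat_lit 675124784572682192783532599642368331439936)), (.negSucc (nat_lit 44636925799822742801034051186547752959999)), (.ofNat (nat_lit 675124784572682192783532599642368331439936)), (.ofNat (nat_lit 17436299140555758906653926244745216000))⟩]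
  es := [
    ⟨nat_lit 1, nat_lit 6, (.negSucc (nat_lit 549755813887999)), (.negSucc (nat_lit 274877906943999)), (.negSucc (nat_lit 549755813887967)), (.negSucc (nat_lit 274877906944031)), (.ofNat (nat_lit 62482977970181562041994344698044481536000)), (.ofNat (nat_lit 8718149570277879453326963122372608000)), (.ofNat (nat_lit 4792853412605433073186517120715314852637179904000000))⟩,
    ⟨nat_lit 1, nat_lit 2, (.negSucc (nat_lit 549755813887999)), (.ofNat (nat_lit 1099511627776000)), (.negSucc (nat_lit 549755813887967)), (.ofNat (nat_lit 1099511627775968)), (.ofNat (nat_lit 0)), (.ofNat (nat_lit 0)), (.ofNat (nat_lit 0))⟩,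
    ⟨nat_lit 5, nat_lit 7, (.ofNat (nat_lit 549755813887872)), (.ofNat (nat_lit 824633720832000)), (.ofNat (nat_lit 549755813887904)), (.ofNat (nat_lit 824633720831968)), (.negSucc (nat_lit 44636925799822742801034051186547752959999)), (.ofNat (nat_lit 0)), (.negSucc (nat_lit 2396426706302716536593258560357657426318589951999999))⟩,
    ⟨nat_lit 4, nat_lit 3, (.ofNat (nat_lit 0)), (.ofNat (nat_lit 549755813888000)), (.ofNat (nat_lit 32)), (.ofNat (nat_lit 549755813887968)), (.negSucc (nat_lit 330313250918688296727651978780453371903999)), (.ofNat (nat_lit 0)), (.negSucc (nat_lit 2396426706302716536593258560357657426318589951999999))⟩,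
    ⟨nat_lit 4, nat_lit 0, (.ofNat (nat_lit 0)), (.ofNat (nat_lit 274877906944000)), (.ofNat (nat_lit 32)), (.ofNat (nat_lit 274877906943968)), (.negSucc (nat_lit 28456040197386998535659207631424192511999)), (.ofNat (nat_lit 0)), (.negSucc (nat_lit 2396426706302716536593258560357657426318589951999999))⟩,
    ⟨nat_lit 5, nat_lit 3, (.ofNat (nat_lit 549755813887872)), (.ofNat (nat_lit 549755813888000)), (.ofNat (nat_lit 549755813887904)), (.ofNat (nat_lit 549755813887968)), (.negSucc (nat_lit 187475088359255519764343014983500562431999)), (.ofNat (nat_lit 0)), (.negSucc (nat_lit 2396426706302716536593258560357657426318589951999999))⟩,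
    ⟨nat_lit 6, nat_lit 0, (.negSucc (nat_lit 274877906943999)), (.ofNat (nat_lit 274877906944000)), (.negSucc (nat_lit 274877906943967)), (.ofNat (nat_lit 274877906943968)), (.negSucc (nat_lit 30400187551558965653751120407713284095999)), (.negSucc (nat_lit 8718149570277879453326963122372607999)), (.ofNat (nat_lit 0))⟩,
    ⟨nat_lit 7, nat_lit 2, (.ofNat (nat_lit 824633720832000)), (.ofNat (nat_lit 1099511627776000)), (.ofNat (nat_lit 824633720832032)), (.ofNat (nat_lit 1099511627775968)), (.ofNat (nat_lit 675124784572682192783532599642368331439936)), (.ofNat (nat_lit 8718149570277879453326963122372608000)), (.negSucc (nat_lit 9585706825210866146373034241430629705274359807999999))⟩]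

theorem ok203 : stOK 7 7 S203 = true := by decide +kernel

def S204 : SD where
  vs := [
    ⟨nat_lit 1, nat_lit 4, nat_lit 5, (.ofNat (nat_lit 16)), (.ofNat (nat_lit 274877906944000)), (.ofNat (nat_lit 582789791600926388698223919504168023344514334720000000)), (.ofNat (nat_lit 0)), (.negSucc (nat_lit 2396426706302716536593258560357657426318589951999999)), (.ofNat (nat_lit 274877906943968)), (.ofNat (nat_lit 274877906944032)), (.negSucc (nat_lit 28456040197386998535659207631424192511999)), (.negSucc (nat_lit 30400187551558965653751120407713284095999)), (.negSucc (nat_lit 30400187551558965653751120407713284095999)), (.negSucc (nat_lit 28456040197386998535659207631424192511999)), (.ofNat (nat_lit 17436299140555758906653926244745216000))⟩,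
    ⟨nat_lit 2, nat_lit 0, nat_lit 1, (.ofNat (nat_lit 16)), (.negSucc (nat_lit 549755813887999)), (.ofNat (nat_lit 120279437284502097135725017355140140065026473984000000)), (.ofNat (nat_lit 0)), (.ofNat (nat_lit 0)), (.negSucc (nat_lit 549755813888031)), (.negSucc (nat_lit 549755813887967)), (.ofNat (nat_lit 62482977970181562041994344698044481536000)), (.ofNat (nat_lit 0)), (.ofNat (nat_lit 0)), (.ofNat (nat_lit 62482977970181562041994344698044481536000)), (.ofNat (nat_lit 34872598281111517813307852489490432000))⟩,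
    ⟨nat_lit 1, nat_lit 6, nat_lit 1, (.ofNat (nat_lit 16)), (.ofNat (nat_lit 1099511627776000)), (.ofNat (nat_lit 120279437284502097135725017355140140065026473984000000)), (.ofNat (nat_lit 0)), (.ofNat (nat_lit 0)), (.ofNat (nat_lit 1099511627775968)), (.ofNat (nat_lit 1099511627776032)), (.ofNat (nat_lit 675124784572682192783532599642368331439936)), (.ofNat (nat_lit 0)), (.ofNat (nat_lit 0)), (.ofNat (nat_lit 675124784572682192783532599642368331439936)), (.ofNat (nat_lit 34872598281111517813307852489490432000))⟩,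
    ⟨nat_lit 0, nat_lit 3, nat_lit 2, (.ofNat (nat_lit 128)), (.ofNat (nat_lit 549755813887936)), (.negSucc (nat_lit 173186903535800515064693344758159717547227131248902143999)), (.ofNat (nat_lit 0)), (.negSucc (nat_lit 2396426706302716536593258560357657426318589951999999)), (.ofNat (nat_lit 549755813887680)), (.ofNat (nat_lit 549755813888192)), (.negSucc (nat_lit 330313250918688296727651978780453371903999)), (.negSucc (nat_lit 44636925799822742801034051186547752959999)), (.negSucc (nat_lit 330313250918688296727651978780453371903999)), (.negSucc (nat_lit 44636925799822742801034051186547752959999)), (.ofNat (nat_lit 0))⟩,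
    ⟨nat_lit 2, nat_lit 4, nat_lit 3, (.ofNat (nat_lit 16)), (.ofNat (nat_lit 0)), (.ofNat (nat_lit 8404726560972993164138619860511561862848391938048000000)), (.ofNat (nat_lit 0)), (.negSucc (nat_lit 2396426706302716536593258560357657426318589951999999)), (.negSucc (nat_lit 31)), (.ofNat (nat_lit 32)), (.negSucc (nat_lit 28456040197386998535659207631424192511999)), (.negSucc (nat_lit 330313250918688296727651978780453371903999)), (.negSucc (nat_lit 330313250918688296727651978780453371903999)), (.negSucc (nat_lit 28456040197386998535659207631424192511999)), (.ofNat (nat_lit 0))⟩,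
    ⟨nat_lit 0, nat_lit 0, nat_lit 5, (.ofNat (nat_lit 16)), (.negSucc (nat_lit 274877906943999)), (.ofNat (nat_lit 17295469641356071514899609119438470914490360659968000000)), (.ofNat (nat_lit 0)), (.ofNat (nat_lit 2396426706302716536593258560357657426318589952000000)), (.negSucc (nat_lit 274877906944031)), (.negSucc (nat_lit 274877906943967)), (.ofNat (nat_lit 62482977970181562041994344698044481536000)), (.negSucc (nat_lit 30400187551558965653751120407713284095999)), (.negSucc (nat_lit 30400187551558965653751120407713284095999)), (.ofNat (nat_lit 62482977970181562041994344698044481536000)), (.ofNat (nat_lit 52308897421667276719961778734235648000))⟩,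
    ⟨nat_lit 0, nat_lit 2, nat_lit 6, (.ofNat (nat_lit 16)), (.ofNat (nat_lit 824633720832000)), (.negSucc (nat_lit 185456608272073280495302017242730189749254250859331583999)), (.ofNat (nat_lit 0)), (.negSucc (nat_lit 2396426706302716536593258560357657426318589951999999)), (.ofNat (nat_lit 824633720831968)), (.ofNat (nat_lit 824633720832032)), (.negSucc (nat_lit 44636925799822742801034051186547752959999)), (.ofNat (nat_lit 675124784572682192783532599642368331439936)), (.negSucc (nat_lit 44636925799822742801034051186547752959999)), (.ofNat (nat_lit 675124784572682192783532599642368331439936)), (.ofNat (nat_lit 17436299140555758906653926244745216000))⟩]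
  es := [
    ⟨nat_lit 1, nat_lit 5, (.negSucc (nat_lit 549755813887999)), (.negSucc (nat_lit 274877906943999)), (.negSucc (nat_lit 549755813887967)), (.negSucc (nat_lit 274877906944031)), (.ofNat (nat_lit 62482977970181562041994344698044481536000)), (.ofNat (nat_lit 8718149570277879453326963122372608000)), (.ofNat (nat_lit 4792853412605433073186517120715314852637179904000000))⟩,
    ⟨nat_lit 1, nat_lit 2, (.negSucc (nat_lit 549755813887999)), (.ofNat (nat_lit 1099511627776000)), (.negSucc (nat_lit 549755813887967)), (.ofNat (nat_lit 1099511627775968)), (.ofNat (nat_lit 0)), (.ofNat (nat_lit 0)), (.ofNat (nat_lit 0))⟩,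
    ⟨nat_lit 3, nat_lit 6, (.ofNat (nat_lit 549755813887936)), (.ofNat (nat_lit 824633720832000)), (.ofNat (nat_lit 549755813888192)), (.ofNat (nat_lit 824633720831968)), (.negSucc (nat_lit 44636925799822742801034051186547752959999)), (.ofNat (nat_lit 0)), (.negSucc (nat_lit 2396426706302716536593258560357657426318589951999999))⟩,
    ⟨nat_lit 4, nat_lit 3, (.ofNat (nat_lit 0)), (.ofNat (nat_lit 549755813887936)), (.ofNat (nat_lit 32)), (.ofNat (nat_lit 549755813887680)), (.negSucc (nat_lit 330313250918688296727651978780453371903999)), (.ofNat (nat_lit 0)), (.negSucc (nat_lit 2396426706302716536593258560357657426318589951999999))⟩,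
    ⟨nat_lit 4, nat_lit 0, (.ofNat (nat_lit 0)), (.ofNat (nat_lit 274877906944000)), (.ofNat (nat_lit 32)), (.ofNat (nat_lit 274877906943968)), (.negSucc (nat_lit 28456040197386998535659207631424192511999)), (.ofNat (nat_lit 0)), (.negSucc (nat_lit 2396426706302716536593258560357657426318589951999999))⟩,
    ⟨nat_lit 5, nat_lit 0, (.negSucc (nat_lit 274877906943999)), (.ofNat (nat_lit 274877906944000)), (.negSucc (nat_lit 274877906943967)), (.ofNat (nat_lit 274877906943968)), (.negSucc (nat_lit 30400187551558965653751120407713284095999)), (.negSucc (nat_lit 8718149570277879453326963122372607999)), (.ofNat (nat_lit 0))⟩,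
    ⟨nat_lit 6, nat_lit 2, (.ofNat (nat_lit 824633720832000)), (.ofNat (nat_lit 1099511627776000)), (.ofNat (nat_lit 824633720832032)), (.ofNat (nat_lit 1099511627775968)), (.ofNat (nat_lit 675124784572682192783532599642368331439936)), (.ofNat (nat_lit 8718149570277879453326963122372608000)), (.negSucc (nat_lit 9585706825210866146373034241430629705274359807999999))⟩]

theorem ok204 : stOK 6 6 S204 = true := by decide +kernel

def S205 : SD where
  vs := [
    ⟨nat_lit 1, nat_lit 4, nat_lit 5, (.ofNat (nat_lit 16)), (.ofNat (nat_lit 274877906944000)), (.ofNat (nat_lit 580393364894623672161630660943810365918195744768000000)), (.ofNat (nat_lit 0)), (.negSucc (nat_lit 2396426706302716536593258560357657426318589951999999)), (.ofNat (nat_lit 274877906943968)), (.ofNat (nat_lit 274877906944032)), (.negSucc (nat_lit 28456040197386998535659207631424192511999)), (.negSucc (nat_lit 30408905701129243533204447370835656703999)), (.negSucc (nat_lit 30408905701129243533204447370835656703999)), (.negSucc (nat_lit 28456040197386998535659207631424192511999)),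 (.ofNat (nat_lit 17436299140555758906653926244745216000))⟩,
    ⟨nat_lit 2, nat_lit 0, nat_lit 1, (.ofNat (nat_lit 16)), (.negSucc (nat_lit 549755813887999)), (.ofNat (nat_lit 120279437284502097135725017355140140065026473984000000)), (.ofNat (nat_lit 0)), (.ofNat (nat_lit 0)), (.negSucc (nat_lit 549755813888031)), (.negSucc (nat_lit 549755813887967)), (.ofNat (nat_lit 62491696119751839921447671661166854144000)), (.ofNat (nat_lit 0)), (.ofNat (nat_lit 0)), (.ofNat (nat_lit 62491696119751839921447671661166854144000)), (.ofNat (nat_lit 34872598281111517813307852489490432000))⟩,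
    ⟨nat_lit 1, nat_lit 6, nat_lit 1, (.ofNat (nat_lit 16)), (.ofNat (nat_lit 1099511627776000)), (.ofNat (nat_lit 120279437284502097135725017355140140065026473984000000)), (.ofNat (nat_lit 0)), (.ofNat (nat_lit 0)), (.ofNat (nat_lit 1099511627775968)), (.ofNat (nat_lit 1099511627776032)), (.ofNat (nat_lit 675133502722252470662985926605490704047936)), (.ofNat (nat_lit 0)), (.ofNat (nat_lit 0)), (.ofNat (nat_lit 675133502722252470662985926605490704047936)), (.ofNat (nat_lit 34872598281111517813307852489490432000))⟩,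
    ⟨nat_lit 0, nat_lit 3, nat_lit 2, (.ofNat (nat_lit 128)), (.ofNat (nat_lit 549755813887936)), (.negSucc (nat_lit 173189299962506817781229938016720075204653449838854143999)), (.ofNat (nat_lit 0)), (.negSucc (nat_lit 2396426706302716536593258560357657426318589951999999)), (.ofNat (nat_lit 549755813887680)), (.ofNat (nat_lit 549755813888192)), (.negSucc (nat_lit 330313250918688296727651978780453371903999)), (.negSucc (nat_lit 44636925799822742801034051186547752959999)), (.negSucc (nat_lit 330313250918688296727651978780453371903999)), (.negSucc (nat_lit 44636925799822742801034051186547752959999)), (.ofNat (nat_lit 0))⟩,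
    ⟨nat_lit 2, nat_lit 4, nat_lit 3, (.ofNat (nat_lit 16)), (.ofNat (nat_lit 0)), (.ofNat (nat_lit 8402330134266690447602026601951204205422073348096000000)), (.ofNat (nat_lit 0)), (.negSucc (nat_lit 2396426706302716536593258560357657426318589951999999)), (.negSucc (nat_lit 31)), (.ofNat (nat_lit 32)), (.negSucc (nat_lit 28456040197386998535659207631424192511999)), (.negSucc (nat_lit 330313250918688296727651978780453371903999)), (.negSucc (nat_lit 330313250918688296727651978780453371903999)), (.negSucc (nat_lit 28456040197386998535659207631424192511999)), (.ofNat (nat_lit 0))⟩,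
    ⟨nat_lit 0, nat_lit 0, nat_lit 5, (.ofNat (nat_lit 16)), (.negSucc (nat_lit 274877906943999)), (.ofNat (nat_lit 17297866068062374231436202377998828571916679249920000000)), (.ofNat (nat_lit 0)), (.ofNat (nat_lit 2396426706302716536593258560357657426318589952000000)), (.negSucc (nat_lit 274877906944031)), (.negSucc (nat_lit 274877906943967)), (.ofNat (nat_lit 62491696119751839921447671661166854144000)), (.negSucc (nat_lit 30408905701129243533204447370835656703999)), (.negSucc (nat_lit 30408905701129243533204447370835656703999)), (.ofNat (nat_lit 62491696119751839921447671661166854144000)), (.ofNat (nat_lit 52308897421667276719961778734235648000))⟩,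
    ⟨nat_lit 0, nat_lit 2, nat_lit 6, (.ofNat (nat_lit 16)), (.ofNat (nat_lit 824633720832000)), (.negSucc (nat_lit 185459004698779583211838610501290547406680569449283583999)), (.ofNat (nat_lit 0)), (.negSucc (nat_lit 2396426706302716536593258560357657426318589951999999)), (.ofNat (nat_lit 824633720831968)), (.ofNat (nat_lit 824633720832032)), (.negSucc (nat_lit 44636925799822742801034051186547752959999)), (.ofNat (nat_lit 675133502722252470662985926605490704047936)), (.negSucc (nat_lit 44636925799822742801034051186547752959999)), (.ofNat (nat_lit 675133502722252470662985926605490704047936)), (.ofNat (nat_lit 17436299140555758906653926244745216000))⟩]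
  es := [
    ⟨nat_lit 1, nat_lit 5, (.negSucc (nat_lit 549755813887999)), (.negSucc (nat_lit 274877906943999)), (.negSucc (nat_lit 549755813887967)), (.negSucc (nat_lit 274877906944031)), (.ofNat (nat_lit 62491696119751839921447671661166854144000)), (.ofNat (nat_lit 8718149570277879453326963122372608000)), (.ofNat (nat_lit 4792853412605433073186517120715314852637179904000000))⟩,
    ⟨nat_lit 1, nat_lit 2, (.negSucc (nat_lit 549755813887999)), (.ofNat (nat_lit 1099511627776000)), (.negSucc (nat_lit 549755813887967)), (.ofNat (nat_lit 1099511627775968)), (.ofNat (nat_lit 0)), (.ofNat (nat_lit 0)), (.ofNat (nat_lit 0))⟩,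
    ⟨nat_lit 3, nat_lit 6, (.ofNat (nat_lit 549755813887936)), (.ofNat (nat_lit 824633720832000)), (.ofNat (nat_lit 549755813888192)), (.ofNat (nat_lit 824633720831968)), (.negSucc (nat_lit 44636925799822742801034051186547752959999)), (.ofNat (nat_lit 0)), (.negSucc (nat_lit 2396426706302716536593258560357657426318589951999999))⟩,
    ⟨nat_lit 4, nat_lit 3, (.ofNat (nat_lit 0)), (.ofNat (nat_lit 549755813887936)), (.ofNat (nat_lit 32)), (.ofNat (nat_lit 549755813887680)), (.negSucc (nat_lit 330313250918688296727651978780453371903999)), (.ofNat (nat_lit 0)), (.negSucc (nat_lit 2396426706302716536593258560357657426318589951999999))⟩,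
    ⟨nat_lit 4, nat_lit 0, (.ofNat (nat_lit 0)), (.ofNat (nat_lit 274877906944000)), (.ofNat (nat_lit 32)), (.ofNat (nat_lit 274877906943968)), (.negSucc (nat_lit 28456040197386998535659207631424192511999)), (.ofNat (nat_lit 0)), (.negSucc (nat_lit 2396426706302716536593258560357657426318589951999999))⟩,
    ⟨nat_lit 5, nat_lit 0, (.negSucc (nat_lit 274877906943999)), (.ofNat (nat_lit 274877906944000)), (.negSucc (nat_lit 274877906943967)), (.ofNat (nat_lit 274877906943968)), (.negSucc (nat_lit 30408905701129243533204447370835656703999)), (.negSucc (nat_lit 8718149570277879453326963122372607999)), (.ofNat (nat_lit 0))⟩,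
    ⟨nat_lit 6, nat_lit 2, (.ofNat (nat_lit 824633720832000)), (.ofNat (nat_lit 1099511627776000)), (.ofNat (nat_lit 824633720832032)), (.ofNat (nat_lit 1099511627775968)), (.ofNat (nat_lit 675133502722252470662985926605490704047936)), (.ofNat (nat_lit 8718149570277879453326963122372608000)), (.negSucc (nat_lit 9585706825210866146373034241430629705274359807999999))⟩]

theorem ok205 : stOK 6 6 S205 = true := by decide +kernel

def S206 : SD where
  vs := [
    ⟨nat_lit 1, nat_lit 4, nat_lit 5, (.ofNat (nat_lit 16)), (.ofNat (nat_lit 274877906944000)), (.ofNat (nat_lit 6134250977461890915564057449975082313749557673984000000)), (.ofNat (nat_lit 0)), (.ofNat (nat_lit 86779025196363550678162918578613624184865030144000000)), (.ofNat (nat_lit 274877906943968)), (.ofNat (nat_lit 274877906944032)), (.negSucc (nat_lit 525088824230833166956581329515315199999999)), (.negSucc (nat_lit 536028174735642191268176773880217599999999)), (.negSucc (nat_lit 536028174735642191268176773880217599999999)), (.negSucc (nat_lit 525088824230833166956581329515315199999999)),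 (.ofNat (nat_lit 15800602157328529616717885203418185728000))⟩,
    ⟨nat_lit 2, nat_lit 0, nat_lit 1, (.ofNat (nat_lit 16)), (.negSucc (nat_lit 549755813887999)), (.ofNat (nat_lit 120279437284502097135725017355140140065026473984000000)), (.ofNat (nat_lit 0)), (.ofNat (nat_lit 0)), (.negSucc (nat_lit 549755813888031)), (.negSucc (nat_lit 549755813887967)), (.ofNat (nat_lit 1093935050480902431159544436490240000000000)), (.ofNat (nat_lit 0)), (.ofNat (nat_lit 0)), (.ofNat (nat_lit 1093935050480902431159544436490240000000000)), (.ofNat (nat_lit 64465209647571911952381047801817071616000))⟩,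
    ⟨nat_lit 1, nat_lit 6, nat_lit 1, (.ofNat (nat_lit 16)), (.ofNat (nat_lit 1099511627776000)), (.ofNat (nat_lit 120279437284502097135725017355140140065026473984000000)), (.ofNat (nat_lit 0)), (.ofNat (nat_lit 0)), (.ofNat (nat_lit 1099511627775968)), (.ofNat (nat_lit 1099511627776032)), (.ofNat (nat_lit 1093935050480902431159544436490240000000000)), (.ofNat (nat_lit 0)), (.ofNat (nat_lit 0)), (.ofNat (nat_lit 1093935050480902431159544436490240000000000)), (.ofNat (nat_lit 26175096734915622531034906867796830997004))⟩,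
    ⟨nat_lit 0, nat_lit 3, nat_lit 2, (.ofNat (nat_lit 128)), (.ofNat (nat_lit 549755813887936)), (.negSucc (nat_lit 150229009067115212441957196920346308780080565846015999999)), (.ofNat (nat_lit 0)), (.ofNat (nat_lit 358754545240493833426136579630840100383951312388096000)), (.ofNat (nat_lit 549755813887680)), (.ofNat (nat_lit 549755813888192)), (.negSucc (nat_lit 546967525240451215579772218245119999999999)), (.negSucc (nat_lit 546967525240451215579772218245119999999999)), (.negSucc (nat_lit 546967525240451215579772218245119999999999)), (.negSucc (nat_lit 546967525240451215579772218245119999999999)), (.ofNat (nat_lit 15697831232519639774335567720580382720000))⟩,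
    ⟨nat_lit 2, nat_lit 4, nat_lit 3, (.ofNat (nat_lit 16)), (.ofNat (nat_lit 0)), (.ofNat (nat_lit 150469567941719222557844035832853694482178306473984000000)), (.ofNat (nat_lit 0)), (.ofNat (nat_lit 2219800590741445814222531394232851410574316142592000000)), (.negSucc (nat_lit 31)), (.ofNat (nat_lit 32)), (.negSucc (nat_lit 525088824230833166956581329515315199999999)), (.negSucc (nat_lit 546967525240451215579772218245119999999999)), (.negSucc (nat_lit 546967525240451215579772218245119999999999)), (.negSucc (nat_lit 525088824230833166956581329515315199999999)), (.ofNat (nat_lit 24269102929535294312178875134472355840000))⟩,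
    ⟨nat_lit 0, nat_lit 0, nat_lit 5, (.ofNat (nat_lit 16)), (.negSucc (nat_lit 274877906943999)), (.ofNat (nat_lit 300818856446153943018552346648352248824291586473984000000)), (.ofNat (nat_lit 0)), (.ofNat (nat_lit 4430015474657680762298689754224272191443357925376000000)), (.negSucc (nat_lit 274877906944031)), (.negSucc (nat_lit 274877906943967)), (.ofNat (nat_lit 1093935050480902431159544436490240000000000)), (.negSucc (nat_lit 536028174735642191268176773880217599999999)), (.negSucc (nat_lit 536028174735642191268176773880217599999999)), (.ofNat (nat_lit 1093935050480902431159544436490240000000000)), (.ofNat (nat_lit 80265811804900441569098933005235257344000))⟩,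
    ⟨nat_lit 0, nat_lit 2, nat_lit 6, (.ofNat (nat_lit 16)), (.ofNat (nat_lit 824633720832000)), (.negSucc (nat_lit 300578297571584938824280896613641968544161533526015999999)), (.ofNat (nat_lit 0)), (.negSucc (nat_lit 1798738951137583681444410720505490955273140063698943999)), (.ofNat (nat_lit 824633720831968)), (.ofNat (nat_lit 824633720832032)), (.negSucc (nat_lit 546967525240451215579772218245119999999999)), (.ofNat (nat_lit 1093935050480902431159544436490240000000000)), (.negSucc (nat_lit 546967525240451215579772218245119999999999)), (.ofNat (nat_lit 1093935050480902431159544436490240000000000)), (.ofNat (nat_lit 44483210832497090814188588875059180938502))⟩]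
  es := [
    ⟨nat_lit 1, nat_lit 5, (.negSucc (nat_lit 549755813887999)), (.negSucc (nat_lit 274877906943999)), (.negSucc (nat_lit 549755813887967)), (.negSucc (nat_lit 274877906944031)), (.ofNat (nat_lit 1093935050480902431159544436490240000000000)), (.ofNat (nat_lit 16116302411892977988095261950454267904000)), (.ofNat (nat_lit 8860030949315361524597379508448544382886715850752000000))⟩,
    ⟨nat_lit 1, nat_lit 2, (.negSucc (nat_lit 549755813887999)), (.ofNat (nat_lit 1099511627776000)), (.negSucc (nat_lit 549755813887967)), (.ofNat (nat_lit 1099511627775968)), (.ofNat (nat_lit 0)), (.ofNat (nat_lit 0)), (.ofNat (nat_lit 0))⟩,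
    ⟨nat_lit 3, nat_lit 6, (.ofNat (nat_lit 549755813887936)), (.ofNat (nat_lit 824633720832000)), (.ofNat (nat_lit 549755813888192)), (.ofNat (nat_lit 824633720831968)), (.negSucc (nat_lit 546967525240451215579772218245119999999999)), (.negSucc (nat_lit 7848915616259819887167783860290191359999)), (.ofNat (nat_lit 4673741537995141871368909294485165997196958347821056000))⟩,
    ⟨nat_lit 4, nat_lit 3, (.ofNat (nat_lit 0)), (.ofNat (nat_lit 549755813887936)), (.ofNat (nat_lit 32)), (.ofNat (nat_lit 549755813887680)), (.negSucc (nat_lit 546967525240451215579772218245119999999999)), (.negSucc (nat_lit 3385223036277545607064378741635416063999)), (.ofNat (nat_lit 2219800590741445814222531394232851410574316142592000000))⟩,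
    ⟨nat_lit 4, nat_lit 0, (.ofNat (nat_lit 0)), (.ofNat (nat_lit 274877906944000)), (.ofNat (nat_lit 32)), (.ofNat (nat_lit 274877906943968)), (.negSucc (nat_lit 525088824230833166956581329515315199999999)), (.negSucc (nat_lit 7759887250522596381576908154435796991999)), (.ofNat (nat_lit 2219800590741445814222531394232851410574316142592000000))⟩,
    ⟨nat_lit 5, nat_lit 0, (.negSucc (nat_lit 274877906943999)), (.ofNat (nat_lit 274877906944000)), (.negSucc (nat_lit 274877906943967)), (.ofNat (nat_lit 274877906943968)), (.negSucc (nat_lit 536028174735642191268176773880217599999999)), (.negSucc (nat_lit 7900301078664264808358942601709092863999)), (.ofNat (nat_lit 2258397249927022156488426336401442907814111477760000000))⟩,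
    ⟨nat_lit 6, nat_lit 2, (.ofNat (nat_lit 824633720832000)), (.ofNat (nat_lit 1099511627776000)), (.ofNat (nat_lit 824633720832032)), (.ofNat (nat_lit 1099511627775968)), (.ofNat (nat_lit 1093935050480902431159544436490240000000000)), (.ofNat (nat_lit 6543774183728905632758726716949207749251)), (.negSucc (nat_lit 7194955804550334725777642882021963821092560254795775999))⟩]

theorem ok206 : stOK 6 6 S206 = true := by decide +kernel

def S207 : SD where
  vs := [
    ⟨nat_lit 1, nat_lit 4, nat_lit 5, (.ofNat (nat_lit 16)), (.ofNat (nat_lit 274877906944000)), (.ofNat (nat_lit 6134250977461890915564057449975082313749557673984000000)), (.ofNat (nat_lit 0)), (.ofNat (nat_lit 0)), (.ofNat (nat_lit 274877906943968)), (.ofNat (nat_lit 274877906944032)), (.negSucc (nat_lit 525104207692480554647019510608953343999999)), (.negSucc (nat_lit 536045267470805955368663641762037759999999)), (.negSucc (nat_lit 536045267470805955368663641762037759999999)), (.negSucc (nat_lit 525104207692480554647019510608953343999999)), (.ofNat (nat_lit 34185470327528200973735763640320000000))⟩,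
    ⟨nat_lit 2, nat_lit 0, nat_lit 1, (.ofNat (nat_lit 16)), (.negSucc (nat_lit 549755813887999)), (.ofNat (nat_lit 120279437284502097135725017355140140065026473984000000)), (.ofNat (nat_lit 0)), (.ofNat (nat_lit 0)), (.negSucc (nat_lit 549755813888031)), (.negSucc (nat_lit 549755813887967)), (.ofNat (nat_lit 1093969235951229959360518172253880320000000)), (.ofNat (nat_lit 0)), (.ofNat (nat_lit 0)), (.ofNat (nat_lit 1093969235951229959360518172253880320000000)), (.ofNat (nat_lit 136741881310112803894943054561280000000))⟩,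
    ⟨nat_lit 1, nat_lit 6, nat_lit 1, (.ofNat (nat_lit 16)), (.ofNat (nat_lit 1099511627776000)), (.ofNat (nat_lit 120279437284502097135725017355140140065026473984000000)), (.ofNat (nat_lit 0)), (.ofNat (nat_lit 0)), (.ofNat (nat_lit 1099511627775968)), (.ofNat (nat_lit 1099511627776032)), (.ofNat (nat_lit 1093969235951229959360518172253880320000000)), (.ofNat (nat_lit 0)), (.ofNat (nat_lit 0)), (.ofNat (nat_lit 1093969235951229959360518172253880320000000)), (.ofNat (nat_lit 136741881310112803894943054561280000000))⟩,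
    ⟨nat_lit 0, nat_lit 3, nat_lit 2, (.ofNat (nat_lit 128)), (.ofNat (nat_lit 549755813887936)), (.negSucc (nat_lit 150233864096223167089001525161344042466671574646783999999)), (.ofNat (nat_lit 0)), (.negSucc (nat_lit 4855029107954647044328240997733686591008800767999999)), (.ofNat (nat_lit 549755813887680)), (.ofNat (nat_lit 549755813888192)), (.negSucc (nat_lit 546984048217776187543576190530879487999999)), (.negSucc (nat_lit 546984048217776187543576190530879487999999)), (.negSucc (nat_lit 546984048217776187543576190530879487999999)), (.negSucc (nat_lit 546984048217776187543576190530879487999999)), (.ofNat (nat_lit 33045954649943927607944571518976000000))⟩,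
    ⟨nat_lit 2, nat_lit 4, nat_lit 3, (.ofNat (nat_lit 16)), (.ofNat (nat_lit 0)), (.ofNat (nat_lit 150473796515458409784356993254095380379019178409984000000)), (.ofNat (nat_lit 0)), (.ofNat (nat_lit 4228573739187226512957421241685896840871936000000000)), (.negSucc (nat_lit 31)), (.ofNat (nat_lit 32)), (.negSucc (nat_lit 525104207692480554647019510608953343999999)), (.negSucc (nat_lit 546984048217776187543576190530879487999999)), (.negSucc (nat_lit 546984048217776187543576190530879487999999)), (.negSucc (nat_lit 525104207692480554647019510608953343999999)), (.ofNat (nat_lit 33045954649943927607944571518976000000))⟩,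
    ⟨nat_lit 0, nat_lit 0, nat_lit 5, (.ofNat (nat_lit 16)), (.negSucc (nat_lit 274877906943999)), (.ofNat (nat_lit 300828253276685470188581140917778217483937968553984000000)), (.ofNat (nat_lit 0)), (.ofNat (nat_lit 9396830531527170028794269425968659646382080000000000)), (.negSucc (nat_lit 274877906944031)), (.negSucc (nat_lit 274877906943967)), (.ofNat (nat_lit 1093969235951229959360518172253880320000000)), (.negSucc (nat_lit 536045267470805955368663641762037759999999)), (.negSucc (nat_lit 536045267470805955368663641762037759999999)), (.ofNat (nat_lit 1093969235951229959360518172253880320000000)), (.ofNat (nat_lit 170927351637641004868678818201600000000))⟩,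
    ⟨nat_lit 0, nat_lit 2, nat_lit 6, (.ofNat (nat_lit 16)), (.ofNat (nat_lit 824633720832000)), (.negSucc (nat_lit 300587694402116465994309690883067937203807915606015999999)), (.ofNat (nat_lit 0)), (.negSucc (nat_lit 9396830531527170028794269425968659646382079999999999)), (.ofNat (nat_lit 824633720831968)), (.ofNat (nat_lit 824633720832032)), (.negSucc (nat_lit 546984048217776187543576190530879487999999)), (.ofNat (nat_lit 1093969235951229959360518172253880320000000)), (.negSucc (nat_lit 546984048217776187543576190530879487999999)), (.ofNat (nat_lit 1093969235951229959360518172253880320000000)), (.ofNat (nat_lit 134462849954944257163360670318592000000))⟩]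
  es := [
    ⟨nat_lit 1, nat_lit 5, (.negSucc (nat_lit 549755813887999)), (.negSucc (nat_lit 274877906943999)), (.negSucc (nat_lit 549755813887967)), (.negSucc (nat_lit 274877906944031)), (.ofNat (nat_lit 1093969235951229959360518172253880320000000)), (.ofNat (nat_lit 34185470327528200973735763640320000000)), (.ofNat (nat_lit 18793661063054340057588538851937319292764160000000000))⟩,
    ⟨nat_lit 1, nat_lit 2, (.negSucc (nat_lit 549755813887999)), (.ofNat (nat_lit 1099511627776000)), (.negSucc (nat_lit 549755813887967)), (.ofNat (nat_lit 1099511627775968)), (.ofNat (nat_lit 0)), (.ofNat (nat_lit 0)), (.ofNat (nat_lit 0))⟩,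
    ⟨nat_lit 3, nat_lit 6, (.ofNat (nat_lit 549755813887936)), (.ofNat (nat_lit 824633720832000)), (.ofNat (nat_lit 549755813888192)), (.ofNat (nat_lit 824633720831968)), (.negSucc (nat_lit 546984048217776187543576190530879487999999)), (.negSucc (nat_lit 16522977324971963803972285759487999999)), (.ofNat (nat_lit 4228573739187226512957421241685896840871936000000000))⟩,
    ⟨nat_lit 4, nat_lit 3, (.ofNat (nat_lit 0)), (.ofNat (nat_lit 549755813887936)), (.ofNat (nat_lit 32)), (.ofNat (nat_lit 549755813887680)), (.negSucc (nat_lit 546984048217776187543576190530879487999999)), (.negSucc (nat_lit 16522977324971963803972285759487999999)), (.ofNat (nat_lit 4228573739187226512957421241685896840871936000000000))⟩,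
    ⟨nat_lit 4, nat_lit 0, (.ofNat (nat_lit 0)), (.ofNat (nat_lit 274877906944000)), (.ofNat (nat_lit 32)), (.ofNat (nat_lit 274877906943968)), (.negSucc (nat_lit 525104207692480554647019510608953343999999)), (.negSucc (nat_lit 15383461647387690438181093638143999999)), (.ofNat (nat_lit 4228573739187226512957421241685896840871936000000000))⟩,
    ⟨nat_lit 5, nat_lit 0, (.negSucc (nat_lit 274877906943999)), (.ofNat (nat_lit 274877906944000)), (.negSucc (nat_lit 274877906943967)), (.ofNat (nat_lit 274877906943968)), (.negSucc (nat_lit 536045267470805955368663641762037759999999)), (.negSucc (nat_lit 17092735163764100486867881820159999999)), (.ofNat (nat_lit 4698415265763585014397134712984329823191040000000000))⟩,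
    ⟨nat_lit 6, nat_lit 2, (.ofNat (nat_lit 824633720832000)), (.ofNat (nat_lit 1099511627776000)), (.ofNat (nat_lit 824633720832032)), (.ofNat (nat_lit 1099511627775968)), (.ofNat (nat_lit 1093969235951229959360518172253880320000000)), (.ofNat (nat_lit 34185470327528200973735763640320000000)), (.negSucc (nat_lit 37587322126108680115177077703874638585528319999999999))⟩]

theorem ok207 : stOK 6 6 S207 = true := by decide +kernel

def S208 : SD where
  vs := [
    ⟨nat_lit 1, nat_lit 3, nat_lit 4, (.ofNat (nat_lit 16)), (.ofNat (nat_lit 274877906944000)), (.ofNat (nat_lit 6134250977461890915564057449975082313749557673984000000)), (.ofNat (nat_lit 0)), (.ofNat (nat_lit 0)), (.ofNat (nat_lit 274877906943968)), (.ofNat (nat_lit 274877906944032)), (.negSucc (nat_lit 525104207692480554647019510608953343999999)), (.negSucc (nat_lit 536045267470805955368663641762037759999999)), (.negSucc (nat_lit 536045267470805955368663641762037759999999)), (.negSucc (nat_lit 525104207692480554647019510608953343999999)), (.ofNat (nat_lit 34185470327528200973735763640320000000))⟩,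
    ⟨nat_lit 2, nat_lit 0, nat_lit 1, (.ofNat (nat_lit 16)), (.negSucc (nat_lit 549755813887999)), (.ofNat (nat_lit 120279437284502097135725017355140140065026473984000000)), (.ofNat (nat_lit 0)), (.ofNat (nat_lit 0)), (.negSucc (nat_lit 549755813888031)), (.negSucc (nat_lit 549755813887967)), (.ofNat (nat_lit 1093969235951229959360518172253880320000000)), (.ofNat (nat_lit 0)), (.ofNat (nat_lit 0)), (.ofNat (nat_lit 1093969235951229959360518172253880320000000)), (.ofNat (nat_lit 136741881310112803894943054561280000000))⟩,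
    ⟨nat_lit 1, nat_lit 5, nat_lit 1, (.ofNat (nat_lit 16)), (.ofNat (nat_lit 1099511627776000)), (.ofNat (nat_lit 120279437284502097135725017355140140065026473984000000)), (.ofNat (nat_lit 0)), (.ofNat (nat_lit 0)), (.ofNat (nat_lit 1099511627775968)), (.ofNat (nat_lit 1099511627776032)), (.ofNat (nat_lit 1093969235951229959360518172253880320000000)), (.ofNat (nat_lit 0)), (.ofNat (nat_lit 0)), (.ofNat (nat_lit 1093969235951229959360518172253880320000000)), (.ofNat (nat_lit 136741881310112803894943054561280000000))⟩,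
    ⟨nat_lit 2, nat_lit 3, nat_lit 2, (.ofNat (nat_lit 16)), (.ofNat (nat_lit 0)), (.ofNat (nat_lit 150473796515458409784356993254095380379019178409984000000)), (.ofNat (nat_lit 0)), (.ofNat (nat_lit 4228573739187226512957421241685896840871936000000000)), (.negSucc (nat_lit 31)), (.ofNat (nat_lit 32)), (.negSucc (nat_lit 525104207692480554647019510608953343999999)), (.negSucc (nat_lit 546984048217776187543576190530879487999999)), (.negSucc (nat_lit 546984048217776187543576190530879487999999)), (.negSucc (nat_lit 525104207692480554647019510608953343999999)), (.ofNat (nat_lit 33045954649943927607944571518976000000))⟩,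
    ⟨nat_lit 0, nat_lit 0, nat_lit 4, (.ofNat (nat_lit 16)), (.negSucc (nat_lit 274877906943999)), (.ofNat (nat_lit 300828253276685470188581140917778217483937968553984000000)), (.ofNat (nat_lit 0)), (.ofNat (nat_lit 9396830531527170028794269425968659646382080000000000)), (.negSucc (nat_lit 274877906944031)), (.negSucc (nat_lit 274877906943967)), (.ofNat (nat_lit 1093969235951229959360518172253880320000000)), (.negSucc (nat_lit 536045267470805955368663641762037759999999)), (.negSucc (nat_lit 536045267470805955368663641762037759999999)), (.ofNat (nat_lit 1093969235951229959360518172253880320000000)), (.ofNat (nat_lit 170927351637641004868678818201600000000))⟩,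
    ⟨nat_lit 0, nat_lit 2, nat_lit 5, (.ofNat (nat_lit 16)), (.ofNat (nat_lit 824633720832000)), (.negSucc (nat_lit 300587694402116465994309690883067937203807915606015999999)), (.ofNat (nat_lit 0)), (.negSucc (nat_lit 9396830531527170028794269425968659646382079999999999)), (.ofNat (nat_lit 824633720831968)), (.ofNat (nat_lit 824633720832032)), (.negSucc (nat_lit 546984048217776187543576190530879487999999)), (.ofNat (nat_lit 1093969235951229959360518172253880320000000)), (.negSucc (nat_lit 546984048217776187543576190530879487999999)), (.ofNat (nat_lit 1093969235951229959360518172253880320000000)), (.ofNat (nat_lit 134462849954944257163360670318592000000))⟩]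
  es := [
    ⟨nat_lit 1, nat_lit 4, (.negSucc (nat_lit 549755813887999)), (.negSucc (nat_lit 274877906943999)), (.negSucc (nat_lit 549755813887967)), (.negSucc (nat_lit 274877906944031)), (.ofNat (nat_lit 1093969235951229959360518172253880320000000)), (.ofNat (nat_lit 34185470327528200973735763640320000000)), (.ofNat (nat_lit 18793661063054340057588538851937319292764160000000000))⟩,
    ⟨nat_lit 1, nat_lit 2, (.negSucc (nat_lit 549755813887999)), (.ofNat (nat_lit 1099511627776000)), (.negSucc (nat_lit 549755813887967)), (.ofNat (nat_lit 1099511627775968)), (.ofNat (nat_lit 0)), (.ofNat (nat_lit 0)), (.ofNat (nat_lit 0))⟩,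
    ⟨nat_lit 3, nat_lit 5, (.ofNat (nat_lit 0)), (.ofNat (nat_lit 824633720832000)), (.ofNat (nat_lit 32)), (.ofNat (nat_lit 824633720831968)), (.negSucc (nat_lit 546984048217776187543576190530879487999999)), (.negSucc (nat_lit 16522977324971963803972285759487999999)), (.ofNat (nat_lit 4228573739187226512957421241685896840871936000000000))⟩,
    ⟨nat_lit 3, nat_lit 0, (.ofNat (nat_lit 0)), (.ofNat (nat_lit 274877906944000)), (.ofNat (nat_lit 32)), (.ofNat (nat_lit 274877906943968)), (.negSucc (nat_lit 525104207692480554647019510608953343999999)), (.negSucc (nat_lit 15383461647387690438181093638143999999)), (.ofNat (nat_lit 4228573739187226512957421241685896840871936000000000))⟩,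
    ⟨nat_lit 4, nat_lit 0, (.negSucc (nat_lit 274877906943999)), (.ofNat (nat_lit 274877906944000)), (.negSucc (nat_lit 274877906943967)), (.ofNat (nat_lit 274877906943968)), (.negSucc (nat_lit 536045267470805955368663641762037759999999)), (.negSucc (nat_lit 17092735163764100486867881820159999999)), (.ofNat (nat_lit 4698415265763585014397134712984329823191040000000000))⟩,
    ⟨nat_lit 5, nat_lit 2, (.ofNat (nat_lit 824633720832000)), (.ofNat (nat_lit 1099511627776000)), (.ofNat (nat_lit 824633720832032)), (.ofNat (nat_lit 1099511627775968)), (.ofNat (nat_lit 1093969235951229959360518172253880320000000)), (.ofNat (nat_lit 34185470327528200973735763640320000000)), (.negSucc (nat_lit 37587322126108680115177077703874638585528319999999999))⟩]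

theorem ok208 : stOK 5 5 S208 = true := by decide +kernel

def S209 : SD where
  vs := [
    ⟨nat_lit 1, nat_lit 3, nat_lit 4, (.ofNat (nat_lit 16)), (.ofNat (nat_lit 274877906944000)), (.ofNat (nat_lit 6134250977461890915564057449975082313749557673984000000)), (.ofNat (nat_lit 0)), (.ofNat (nat_lit 0)), (.ofNat (nat_lit 274877906943968)), (.ofNat (nat_lit 274877906944032)), (.negSucc (nat_lit 526073365776265979144624919508156415999999)), (.negSucc (nat_lit 537122109786123093699336318316707839999999)), (.negSucc (nat_lit 537122109786123093699336318316707839999999)), (.negSucc (nat_lit 526073365776265979144624919508156415999999)), (.ofNat (nat_lit 34185470327528200973735763640320000000))⟩,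
    ⟨nat_lit 2, nat_lit 0, nat_lit 1, (.ofNat (nat_lit 16)), (.negSucc (nat_lit 549755813887999)), (.ofNat (nat_lit 120279437284502097135725017355140140065026473984000000)), (.ofNat (nat_lit 0)), (.ofNat (nat_lit 0)), (.negSucc (nat_lit 549755813888031)), (.negSucc (nat_lit 549755813887967)), (.ofNat (nat_lit 1096122920581864236021863525363220480000000)), (.ofNat (nat_lit 0)), (.ofNat (nat_lit 0)), (.ofNat (nat_lit 1096122920581864236021863525363220480000000)), (.ofNat (nat_lit 136741881310112803894943054561280000000))⟩,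
    ⟨nat_lit 1, nat_lit 5, nat_lit 1, (.ofNat (nat_lit 16)), (.ofNat (nat_lit 1099511627776000)), (.ofNat (nat_lit 120279437284502097135725017355140140065026473984000000)), (.ofNat (nat_lit 0)), (.ofNat (nat_lit 0)), (.ofNat (nat_lit 1099511627775968)), (.ofNat (nat_lit 1099511627776032)), (.ofNat (nat_lit 1096122920581864236021863525363220480000000)), (.ofNat (nat_lit 0)), (.ofNat (nat_lit 0)), (.ofNat (nat_lit 1096122920581864236021863525363220480000000)), (.ofNat (nat_lit 136741881310112803894943054561280000000))⟩,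
    ⟨nat_lit 2, nat_lit 3, nat_lit 2, (.ofNat (nat_lit 16)), (.ofNat (nat_lit 0)), (.ofNat (nat_lit 150740196661027205054673310792321591879994110377984000000)), (.ofNat (nat_lit 0)), (.ofNat (nat_lit 4228573739187226512957421241685896840871936000000000)), (.negSucc (nat_lit 31)), (.ofNat (nat_lit 32)), (.negSucc (nat_lit 526073365776265979144624919508156415999999)), (.negSucc (nat_lit 548024995789249421263226444533727231999999)), (.negSucc (nat_lit 548024995789249421263226444533727231999999)), (.negSucc (nat_lit 526073365776265979144624919508156415999999)), (.ofNat (nat_lit 33045954649943927607944571518976000000))⟩,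
    ⟨nat_lit 0, nat_lit 0, nat_lit 4, (.ofNat (nat_lit 16)), (.negSucc (nat_lit 274877906943999)), (.ofNat (nat_lit 301420253600171681900395179891614243041660039593984000000)), (.ofNat (nat_lit 0)), (.ofNat (nat_lit 9396830531527170028794269425968659646382080000000000)), (.negSucc (nat_lit 274877906944031)), (.negSucc (nat_lit 274877906943967)), (.ofNat (nat_lit 1096122920581864236021863525363220480000000)), (.negSucc (nat_lit 537122109786123093699336318316707839999999)), (.negSucc (nat_lit 537122109786123093699336318316707839999999)), (.ofNat (nat_lit 1096122920581864236021863525363220480000000)), (.ofNat (nat_lit 170927351637641004868678818201600000000))⟩,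
    ⟨nat_lit 0, nat_lit 2, nat_lit 5, (.ofNat (nat_lit 16)), (.ofNat (nat_lit 824633720832000)), (.negSucc (nat_lit 301179694725602677706123729856903962761529986646015999999)), (.ofNat (nat_lit 0)), (.negSucc (nat_lit 9396830531527170028794269425968659646382079999999999)), (.ofNat (nat_lit 824633720831968)), (.ofNat (nat_lit 824633720832032)), (.negSucc (nat_lit 548024995789249421263226444533727231999999)), (.ofNat (nat_lit 1096122920581864236021863525363220480000000)), (.negSucc (nat_lit 548024995789249421263226444533727231999999)), (.ofNat (nat_lit 1096122920581864236021863525363220480000000)), (.ofNat (nat_lit 134462849954944257163360670318592000000))⟩]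
  es := [
    ⟨nat_lit 1, nat_lit 4, (.negSucc (nat_lit 549755813887999)), (.negSucc (nat_lit 274877906943999)), (.negSucc (nat_lit 549755813887967)), (.negSucc (nat_lit 274877906944031)), (.ofNat (nat_lit 1096122920581864236021863525363220480000000)), (.ofNat (nat_lit 34185470327528200973735763640320000000)), (.ofNat (nat_lit 18793661063054340057588538851937319292764160000000000))⟩,
    ⟨nat_lit 1, nat_lit 2, (.negSucc (nat_lit 549755813887999)), (.ofNat (nat_lit 1099511627776000)), (.negSucc (nat_lit 549755813887967)), (.ofNat (nat_lit 1099511627775968)), (.ofNat (nat_lit 0)), (.ofNat (nat_lit 0)), (.ofNat (nat_lit 0))⟩,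
    ⟨nat_lit 3, nat_lit 5, (.ofNat (nat_lit 0)), (.ofNat (nat_lit 824633720832000)), (.ofNat (nat_lit 32)), (.ofNat (nat_lit 824633720831968)), (.negSucc (nat_lit 548024995789249421263226444533727231999999)), (.negSucc (nat_lit 16522977324971963803972285759487999999)), (.ofNat (nat_lit 4228573739187226512957421241685896840871936000000000))⟩,
    ⟨nat_lit 3, nat_lit 0, (.ofNat (nat_lit 0)), (.ofNat (nat_lit 274877906944000)), (.ofNat (nat_lit 32)), (.ofNat (nat_lit 274877906943968)), (.negSucc (nat_lit 526073365776265979144624919508156415999999)), (.negSucc (nat_lit 15383461647387690438181093638143999999)), (.ofNat (nat_lit 4228573739187226512957421241685896840871936000000000))⟩,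
    ⟨nat_lit 4, nat_lit 0, (.negSucc (nat_lit 274877906943999)), (.ofNat (nat_lit 274877906944000)), (.negSucc (nat_lit 274877906943967)), (.ofNat (nat_lit 274877906943968)), (.negSucc (nat_lit 537122109786123093699336318316707839999999)), (.negSucc (nat_lit 17092735163764100486867881820159999999)), (.ofNat (nat_lit 4698415265763585014397134712984329823191040000000000))⟩,
    ⟨nat_lit 5, nat_lit 2, (.ofNat (nat_lit 824633720832000)), (.ofNat (nat_lit 1099511627776000)), (.ofNat (nat_lit 824633720832032)), (.ofNat (nat_lit 1099511627775968)), (.ofNat (nat_lit 1096122920581864236021863525363220480000000)), (.ofNat (nat_lit 34185470327528200973735763640320000000)), (.negSucc (nat_lit 37587322126108680115177077703874638585528319999999999))⟩]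

theorem ok209 : stOK 5 5 S209 = true := by decide +kernel

def S210 : SD where
  vs := [
    ⟨nat_lit 1, nat_lit 3, nat_lit 4, (.ofNat (nat_lit 16)), (.ofNat (nat_lit 274877906944000)), (.ofNat (nat_lit 6134250977461890915564057449975082313749557673984000000)), (.ofNat (nat_lit 0)), (.ofNat (nat_lit 0)), (.ofNat (nat_lit 274877906943968)), (.ofNat (nat_lit 274877906944032)), (.negSucc (nat_lit 527057907321698791332668509500997631999999)), (.negSucc (nat_lit 538216044836603996130495862753198079999999)), (.negSucc (nat_lit 538216044836603996130495862753198079999999)), (.negSucc (nat_lit 527057907321698791332668509500997631999999)), (.ofNat (nat_lit 68370940655056401947471527280640000000))⟩,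
    ⟨nat_lit 2, nat_lit 0, nat_lit 1, (.ofNat (nat_lit 16)), (.negSucc (nat_lit 549755813887999)), (.ofNat (nat_lit 120279437284502097135725017355140140065026473984000000)), (.ofNat (nat_lit 0)), (.ofNat (nat_lit 0)), (.negSucc (nat_lit 549755813888031)), (.negSucc (nat_lit 549755813887967)), (.ofNat (nat_lit 1098310790682826040884182614236200960000000)), (.ofNat (nat_lit 0)), (.ofNat (nat_lit 0)), (.ofNat (nat_lit 1098310790682826040884182614236200960000000)), (.ofNat (nat_lit 273483762620225607789886109122560000000))⟩,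
    ⟨nat_lit 1, nat_lit 5, nat_lit 1, (.ofNat (nat_lit 16)), (.ofNat (nat_lit 1099511627776000)), (.ofNat (nat_lit 120279437284502097135725017355140140065026473984000000)), (.ofNat (nat_lit 0)), (.ofNat (nat_lit 0)), (.ofNat (nat_lit 1099511627775968)), (.ofNat (nat_lit 1099511627776032)), (.ofNat (nat_lit 1098310790682826040884182614236200960000000)), (.ofNat (nat_lit 0)), (.ofNat (nat_lit 0)), (.ofNat (nat_lit 1098310790682826040884182614236200960000000)), (.ofNat (nat_lit 273483762620225607789886109122560000000))⟩,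
    ⟨nat_lit 2, nat_lit 3, nat_lit 2, (.ofNat (nat_lit 16)), (.ofNat (nat_lit 0)), (.ofNat (nat_lit 151010825380335187551502585751789489277809914281984000000)), (.ofNat (nat_lit 0)), (.ofNat (nat_lit 8457147478374453025914842483371793681743872000000000)), (.negSucc (nat_lit 31)), (.ofNat (nat_lit 32)), (.negSucc (nat_lit 527057907321698791332668509500997631999999)), (.negSucc (nat_lit 549082466338047626946680670822334463999999)), (.negSucc (nat_lit 549082466338047626946680670822334463999999)), (.negSucc (nat_lit 527057907321698791332668509500997631999999)), (.ofNat (nat_lit 66091909299887855215889143037952000000))⟩,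
    ⟨nat_lit 0, nat_lit 0, nat_lit 4, (.ofNat (nat_lit 16)), (.negSucc (nat_lit 274877906943999)), (.ofNat (nat_lit 302021650754189420782238013134876237259028492713984000000)), (.ofNat (nat_lit 0)), (.ofNat (nat_lit 18793661063054340057588538851937319292764160000000000)), (.negSucc (nat_lit 274877906944031)), (.negSucc (nat_lit 274877906943967)), (.ofNat (nat_lit 1098310790682826040884182614236200960000000)), (.negSucc (nat_lit 538216044836603996130495862753198079999999)), (.negSucc (nat_lit 538216044836603996130495862753198079999999)), (.ofNat (nat_lit 1098310790682826040884182614236200960000000)), (.ofNat (nat_lit 341854703275282009737357636403200000000))⟩,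
    ⟨nat_lit 0, nat_lit 2, nat_lit 5, (.ofNat (nat_lit 16)), (.ofNat (nat_lit 824633720832000)), (.negSucc (nat_lit 301781091879620416587966563100165956978898439766015999999)), (.ofNat (nat_lit 0)), (.negSucc (nat_lit 18793661063054340057588538851937319292764159999999999)), (.ofNat (nat_lit 824633720831968)), (.ofNat (nat_lit 824633720832032)), (.negSucc (nat_lit 549082466338047626946680670822334463999999)), (.ofNat (nat_lit 1098310790682826040884182614236200960000000)), (.negSucc (nat_lit 549082466338047626946680670822334463999999)), (.ofNat (nat_lit 1098310790682826040884182614236200960000000)), (.ofNat (nat_lit 268925699909888514326721340637184000000))⟩]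
  es := [
    ⟨nat_lit 1, nat_lit 4, (.negSucc (nat_lit 549755813887999)), (.negSucc (nat_lit 274877906943999)), (.negSucc (nat_lit 549755813887967)), (.negSucc (nat_lit 274877906944031)), (.ofNat (nat_lit 1098310790682826040884182614236200960000000)), (.ofNat (nat_lit 68370940655056401947471527280640000000)), (.ofNat (nat_lit 37587322126108680115177077703874638585528320000000000))⟩,
    ⟨nat_lit 1, nat_lit 2, (.negSucc (nat_lit 549755813887999)), (.ofNat (nat_lit 1099511627776000)), (.negSucc (nat_lit 549755813887967)), (.ofNat (nat_lit 1099511627775968)), (.ofNat (nat_lit 0)), (.ofNat (nat_lit 0)), (.ofNat (nat_lit 0))⟩,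
    ⟨nat_lit 3, nat_lit 5, (.ofNat (nat_lit 0)), (.ofNat (nat_lit 824633720832000)), (.ofNat (nat_lit 32)), (.ofNat (nat_lit 824633720831968)), (.negSucc (nat_lit 549082466338047626946680670822334463999999)), (.negSucc (nat_lit 33045954649943927607944571518975999999)), (.ofNat (nat_lit 8457147478374453025914842483371793681743872000000000))⟩,
    ⟨nat_lit 3, nat_lit 0, (.ofNat (nat_lit 0)), (.ofNat (nat_lit 274877906944000)), (.ofNat (nat_lit 32)), (.ofNat (nat_lit 274877906943968)), (.negSucc (nat_lit 527057907321698791332668509500997631999999)), (.negSucc (nat_lit 30766923294775380876362187276287999999)), (.ofNat (nat_lit 8457147478374453025914842483371793681743872000000000))⟩,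
    ⟨nat_lit 4, nat_lit 0, (.negSucc (nat_lit 274877906943999)), (.ofNat (nat_lit 274877906944000)), (.negSucc (nat_lit 274877906943967)), (.ofNat (nat_lit 274877906943968)), (.negSucc (nat_lit 538216044836603996130495862753198079999999)), (.negSucc (nat_lit 34185470327528200973735763640319999999)), (.ofNat (nat_lit 9396830531527170028794269425968659646382080000000000))⟩,
    ⟨nat_lit 5, nat_lit 2, (.ofNat (nat_lit 824633720832000)), (.ofNat (nat_lit 1099511627776000)), (.ofNat (nat_lit 824633720832032)), (.ofNat (nat_lit 1099511627775968)), (.ofNat (nat_lit 1098310790682826040884182614236200960000000)), (.ofNat (nat_lit 68370940655056401947471527280640000000)), (.negSucc (nat_lit 75174644252217360230354155407749277171056639999999999))⟩]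

theorem ok210 : stOK 5 5 S210 = true := by decide +kernel

def S211 : SD where
  vs := [
    ⟨nat_lit 1, nat_lit 3, nat_lit 4, (.ofNat (nat_lit 16)), (.ofNat (nat_lit 274877906944000)), (.ofNat (nat_lit 6134250977461890915564057449975082313749557673984000000)), (.ofNat (nat_lit 0)), (.ofNat (nat_lit 0)), (.ofNat (nat_lit 274877906943968)), (.ofNat (nat_lit 274877906944032)), (.negSucc (nat_lit 527057907321698791332668509500997631999999)), (.negSucc (nat_lit 538216044836603996130495862753198079999999)), (.negSucc (nat_lit 538216044836603996130495862753198079999999)), (.negSucc (nat_lit 527057907321698791332668509500997631999999)), (.ofNat (nat_lit 68370940655056401947471527280640000000))⟩,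
    ⟨nat_lit 2, nat_lit 0, nat_lit 1, (.ofNat (nat_lit 16)), (.negSucc (nat_lit 549755813887999)), (.ofNat (nat_lit 120279437284502097135725017355140140065026473984000000)), (.ofNat (nat_lit 0)), (.ofNat (nat_lit 0)), (.negSucc (nat_lit 549755813888031)), (.negSucc (nat_lit 549755813887967)), (.ofNat (nat_lit 1098310790682826040884182614236200960000000)), (.ofNat (nat_lit 0)), (.ofNat (nat_lit 0)), (.ofNat (nat_lit 1098310790682826040884182614236200960000000)), (.ofNat (nat_lit 273483762620225607789886109122560000000))⟩,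
    ⟨nat_lit 1, nat_lit 5, nat_lit 6, (.ofNat (nat_lit 16)), (.ofNat (nat_lit 1099511627776000)), (.ofNat (nat_lit 120279437284502097135725017355140140065026473984000000)), (.ofNat (nat_lit 0)), (.ofNat (nat_lit 0)), (.ofNat (nat_lit 1099511627775968)), (.ofNat (nat_lit 1099511627776032)), (.ofNat (nat_lit 1098310790682826040884182614236200960000000)), (.ofNat (nat_lit 0)), (.ofNat (nat_lit 0)), (.ofNat (nat_lit 1098310790682826040884182614236200960000000)), (.ofNat (nat_lit 273483762620225607789886109122560000000))⟩,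
    ⟨nat_lit 2, nat_lit 3, nat_lit 2, (.ofNat (nat_lit 16)), (.ofNat (nat_lit 0)), (.ofNat (nat_lit 151010825380335187551502585751789489277809914281984000000)), (.ofNat (nat_lit 0)), (.ofNat (nat_lit 8457147478374453025914842483371793681743872000000000)), (.negSucc (nat_lit 31)), (.ofNat (nat_lit 32)), (.negSucc (nat_lit 527057907321698791332668509500997631999999)), (.negSucc (nat_lit 549082466338047626946680670822334463999999)), (.negSucc (nat_lit 549082466338047626946680670822334463999999)), (.negSucc (nat_lit 527057907321698791332668509500997631999999)), (.ofNat (nat_lit 66091909299887855215889143037952000000))⟩,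
    ⟨nat_lit 0, nat_lit 0, nat_lit 4, (.ofNat (nat_lit 16)), (.negSucc (nat_lit 274877906943999)), (.ofNat (nat_lit 302021650754189420782238013134876237259028492713984000000)), (.ofNat (nat_lit 0)), (.ofNat (nat_lit 18793661063054340057588538851937319292764160000000000)), (.negSucc (nat_lit 274877906944031)), (.negSucc (nat_lit 274877906943967)), (.ofNat (nat_lit 1098310790682826040884182614236200960000000)), (.negSucc (nat_lit 538216044836603996130495862753198079999999)), (.negSucc (nat_lit 538216044836603996130495862753198079999999)), (.ofNat (nat_lit 1098310790682826040884182614236200960000000)), (.ofNat (nat_lit 341854703275282009737357636403200000000))⟩,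
    ⟨nat_lit 0, nat_lit 2, nat_lit 5, (.ofNat (nat_lit 16)), (.ofNat (nat_lit 824633720832000)), (.negSucc (nat_lit 301781091879620416587966563100165956978898439766015999999)), (.ofNat (nat_lit 0)), (.negSucc (nat_lit 18793661063054340057588538851937319292764159999999999)), (.ofNat (nat_lit 824633720831968)), (.ofNat (nat_lit 824633720832032)), (.negSucc (nat_lit 549082466338047626946680670822334463999999)), (.ofNat (nat_lit 1098310790682826040884182614236200960000000)), (.negSucc (nat_lit 549082466338047626946680670822334463999999)), (.ofNat (nat_lit 1098310790682826040884182614236200960000000)), (.ofNat (nat_lit 268925699909888514326721340637184000000))⟩,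
    ⟨nat_lit 0, nat_lit 1, nat_lit 6, (.ofNat (nat_lit 128)), (.negSucc (nat_lit 219902325555199)), (.ofNat (nat_lit 120279437284502097135725017355140140065026473984000000)), (.ofNat (nat_lit 0)), (.ofNat (nat_lit 0)), (.negSucc (nat_lit 219902325555455)), (.negSucc (nat_lit 219902325554943)), (.ofNat (nat_lit 0)), (.ofNat (nat_lit 0)), (.ofNat (nat_lit 0)), (.ofNat (nat_lit 0)), (.ofNat (nat_lit 0))⟩]
  es := [
    ⟨nat_lit 1, nat_lit 4, (.negSucc (nat_lit 549755813887999)), (.negSucc (nat_lit 274877906943999)), (.negSucc (nat_lit 549755813887967)), (.negSucc (nat_lit 274877906944031)), (.ofNat (nat_lit 1098310790682826040884182614236200960000000)), (.ofNat (nat_lit 68370940655056401947471527280640000000)), (.ofNat (nat_lit 37587322126108680115177077703874638585528320000000000))⟩,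
    ⟨nat_lit 1, nat_lit 6, (.negSucc (nat_lit 549755813887999)), (.negSucc (nat_lit 219902325555199)), (.negSucc (nat_lit 549755813887967)), (.negSucc (nat_lit 219902325555455)), (.ofNat (nat_lit 0)), (.ofNat (nat_lit 0)), (.ofNat (nat_lit 0))⟩,
    ⟨nat_lit 3, nat_lit 5, (.ofNat (nat_lit 0)), (.ofNat (nat_lit 824633720832000)), (.ofNat (nat_lit 32)), (.ofNat (nat_lit 824633720831968)), (.negSucc (nat_lit 549082466338047626946680670822334463999999)), (.negSucc (nat_lit 33045954649943927607944571518975999999)), (.ofNat (nat_lit 8457147478374453025914842483371793681743872000000000))⟩,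
    ⟨nat_lit 3, nat_lit 0, (.ofNat (nat_lit 0)), (.ofNat (nat_lit 274877906944000)), (.ofNat (nat_lit 32)), (.ofNat (nat_lit 274877906943968)), (.negSucc (nat_lit 527057907321698791332668509500997631999999)), (.negSucc (nat_lit 30766923294775380876362187276287999999)), (.ofNat (nat_lit 8457147478374453025914842483371793681743872000000000))⟩,
    ⟨nat_lit 4, nat_lit 0, (.negSucc (nat_lit 274877906943999)), (.ofNat (nat_lit 274877906944000)), (.negSucc (nat_lit 274877906943967)), (.ofNat (nat_lit 274877906943968)), (.negSucc (nat_lit 538216044836603996130495862753198079999999)), (.negSucc (nat_lit 34185470327528200973735763640319999999)), (.ofNat (nat_lit 9396830531527170028794269425968659646382080000000000))⟩,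
    ⟨nat_lit 5, nat_lit 2, (.ofNat (nat_lit 824633720832000)), (.ofNat (nat_lit 1099511627776000)), (.ofNat (nat_lit 824633720832032)), (.ofNat (nat_lit 1099511627775968)), (.ofNat (nat_lit 1098310790682826040884182614236200960000000)), (.ofNat (nat_lit 68370940655056401947471527280640000000)), (.negSucc (nat_lit 75174644252217360230354155407749277171056639999999999))⟩,
    ⟨nat_lit 6, nat_lit 2, (.negSucc (nat_lit 219902325555199)), (.ofNat (nat_lit 1099511627776000)), (.negSucc (nat_lit 219902325554943)), (.ofNat (nat_lit 1099511627775968)), (.ofNat (nat_lit 0)), (.ofNat (nat_lit 0)), (.ofNat (nat_lit 0))⟩]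

theorem ok211 : stOK 6 6 S211 = true := by decide +kernel

def S212 : SD where
  vs := [
    ⟨nat_lit 1, nat_lit 3, nat_lit 4, (.ofNat (nat_lit 16)), (.ofNat (nat_lit 274877906944000)), (.ofNat (nat_lit 6134250977461890915564057449975082313749557673984000000)), (.ofNat (nat_lit 0)), (.ofNat (nat_lit 0)), (.ofNat (nat_lit 274877906943968)), (.ofNat (nat_lit 274877906944032)), (.negSucc (nat_lit 527057907321698791332668509500997631999999)), (.negSucc (nat_lit 538216044836603996130495862753198079999999)), (.negSucc (nat_lit 538216044836603996130495862753198079999999)), (.negSucc (nat_lit 527057907321698791332668509500997631999999)), (.ofNat (nat_lit 68370940655056401947471527280640000000))⟩,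
    ⟨nat_lit 2, nat_lit 0, nat_lit 1, (.ofNat (nat_lit 16)), (.negSucc (nat_lit 549755813887999)), (.ofNat (nat_lit 120279437284502097135725017355140140065026473984000000)), (.ofNat (nat_lit 0)), (.ofNat (nat_lit 0)), (.negSucc (nat_lit 549755813888031)), (.negSucc (nat_lit 549755813887967)), (.ofNat (nat_lit 1098310790682826040884182614236200960000000)), (.ofNat (nat_lit 0)), (.ofNat (nat_lit 0)), (.ofNat (nat_lit 1098310790682826040884182614236200960000000)), (.ofNat (nat_lit 273483762620225607789886109122560000000))⟩,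
    ⟨nat_lit 1, nat_lit 5, nat_lit 7, (.ofNat (nat_lit 16)), (.ofNat (nat_lit 1099511627776000)), (.ofNat (nat_lit 120279437284502097135725017355140140065026473984000000)), (.ofNat (nat_lit 0)), (.ofNat (nat_lit 0)), (.ofNat (nat_lit 1099511627775968)), (.ofNat (nat_lit 1099511627776032)), (.ofNat (nat_lit 1098310790682826040884182614236200960000000)), (.ofNat (nat_lit 0)), (.ofNat (nat_lit 0)), (.ofNat (nat_lit 1098310790682826040884182614236200960000000)), (.ofNat (nat_lit 273483762620225607789886109122560000000))⟩,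
    ⟨nat_lit 2, nat_lit 3, nat_lit 2, (.ofNat (nat_lit 16)), (.ofNat (nat_lit 0)), (.ofNat (nat_lit 151010825380335187551502585751789489277809914281984000000)), (.ofNat (nat_lit 0)), (.ofNat (nat_lit 8457147478374453025914842483371793681743872000000000)), (.negSucc (nat_lit 31)), (.ofNat (nat_lit 32)), (.negSucc (nat_lit 527057907321698791332668509500997631999999)), (.negSucc (nat_lit 549082466338047626946680670822334463999999)), (.negSucc (nat_lit 549082466338047626946680670822334463999999)), (.negSucc (nat_lit 527057907321698791332668509500997631999999)), (.ofNat (nat_lit 66091909299887855215889143037952000000))⟩,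
    ⟨nat_lit 0, nat_lit 0, nat_lit 4, (.ofNat (nat_lit 16)), (.negSucc (nat_lit 274877906943999)), (.ofNat (nat_lit 302021650754189420782238013134876237259028492713984000000)), (.ofNat (nat_lit 0)), (.ofNat (nat_lit 18793661063054340057588538851937319292764160000000000)), (.negSucc (nat_lit 274877906944031)), (.negSucc (nat_lit 274877906943967)), (.ofNat (nat_lit 1098310790682826040884182614236200960000000)), (.negSucc (nat_lit 538216044836603996130495862753198079999999)), (.negSucc (nat_lit 538216044836603996130495862753198079999999)), (.ofNat (nat_lit 1098310790682826040884182614236200960000000)), (.ofNat (nat_lit 341854703275282009737357636403200000000))⟩,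
    ⟨nat_lit 0, nat_lit 2, nat_lit 5, (.ofNat (nat_lit 16)), (.ofNat (nat_lit 824633720832000)), (.negSucc (nat_lit 301781091879620416587966563100165956978898439766015999999)), (.ofNat (nat_lit 0)), (.negSucc (nat_lit 18793661063054340057588538851937319292764159999999999)), (.ofNat (nat_lit 824633720831968)), (.ofNat (nat_lit 824633720832032)), (.negSucc (nat_lit 549082466338047626946680670822334463999999)), (.ofNat (nat_lit 1098310790682826040884182614236200960000000)), (.negSucc (nat_lit 549082466338047626946680670822334463999999)), (.ofNat (nat_lit 1098310790682826040884182614236200960000000)), (.ofNat (nat_lit 268925699909888514326721340637184000000))⟩,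
    ⟨nat_lit 0, nat_lit 1, nat_lit 6, (.ofNat (nat_lit 128)), (.negSucc (nat_lit 219902325555199)), (.ofNat (nat_lit 120279437284502097135725017355140140065026473984000000)), (.ofNat (nat_lit 0)), (.ofNat (nat_lit 0)), (.negSucc (nat_lit 219902325555455)), (.negSucc (nat_lit 219902325554943)), (.ofNat (nat_lit 0)), (.ofNat (nat_lit 0)), (.ofNat (nat_lit 0)), (.ofNat (nat_lit 0)), (.ofNat (nat_lit 0))⟩,
    ⟨nat_lit 0, nat_lit 6, nat_lit 7, (.ofNat (nat_lit 128)), (.negSucc (nat_lit 213030377881599)), (.ofNat (nat_lit 120279437284502097135725017355140140065026473984000000)), (.ofNat (nat_lit 0)), (.ofNat (nat_lit 0)), (.negSucc (nat_lit 213030377881855)), (.negSucc (nat_lit 213030377881343)), (.ofNat (nat_lit 0)), (.ofNat (nat_lit 0)), (.ofNat (nat_lit 0)), (.ofNat (nat_lit 0)), (.ofNat (nat_lit 0))⟩]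
  es := [
    ⟨nat_lit 1, nat_lit 4, (.negSucc (nat_lit 549755813887999)), (.negSucc (nat_lit 274877906943999)), (.negSucc (nat_lit 549755813887967)), (.negSucc (nat_lit 274877906944031)), (.ofNat (nat_lit 1098310790682826040884182614236200960000000)), (.ofNat (nat_lit 68370940655056401947471527280640000000)), (.ofNat (nat_lit 37587322126108680115177077703874638585528320000000000))⟩,
    ⟨nat_lit 1, nat_lit 6, (.negSucc (nat_lit 549755813887999)), (.negSucc (nat_lit 219902325555199)), (.negSucc (nat_lit 549755813887967)), (.negSucc (nat_lit 219902325555455)), (.ofNat (nat_lit 0)), (.ofNat (nat_lit 0)), (.ofNat (nat_lit 0))⟩,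
    ⟨nat_lit 3, nat_lit 5, (.ofNat (nat_lit 0)), (.ofNat (nat_lit 824633720832000)), (.ofNat (nat_lit 32)), (.ofNat (nat_lit 824633720831968)), (.negSucc (nat_lit 549082466338047626946680670822334463999999)), (.negSucc (nat_lit 33045954649943927607944571518975999999)), (.ofNat (nat_lit 8457147478374453025914842483371793681743872000000000))⟩,
    ⟨nat_lit 3, nat_lit 0, (.ofNat (nat_lit 0)), (.ofNat (nat_lit 274877906944000)), (.ofNat (nat_lit 32)), (.ofNat (nat_lit 274877906943968)), (.negSucc (nat_lit 527057907321698791332668509500997631999999)), (.negSucc (nat_lit 30766923294775380876362187276287999999)), (.ofNat (nat_lit 8457147478374453025914842483371793681743872000000000))⟩,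
    ⟨nat_lit 4, nat_lit 0, (.negSucc (nat_lit 274877906943999)), (.ofNat (nat_lit 274877906944000)), (.negSucc (nat_lit 274877906943967)), (.ofNat (nat_lit 274877906943968)), (.negSucc (nat_lit 538216044836603996130495862753198079999999)), (.negSucc (nat_lit 34185470327528200973735763640319999999)), (.ofNat (nat_lit 9396830531527170028794269425968659646382080000000000))⟩,
    ⟨nat_lit 5, nat_lit 2, (.ofNat (nat_lit 824633720832000)), (.ofNat (nat_lit 1099511627776000)), (.ofNat (nat_lit 824633720832032)), (.ofNat (nat_lit 1099511627775968)), (.ofNat (nat_lit 1098310790682826040884182614236200960000000)), (.ofNat (nat_lit 68370940655056401947471527280640000000)), (.negSucc (nat_lit 75174644252217360230354155407749277171056639999999999))⟩,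
    ⟨nat_lit 6, nat_lit 7, (.negSucc (nat_lit 219902325555199)), (.negSucc (nat_lit 213030377881599)), (.negSucc (nat_lit 219902325554943)), (.negSucc (nat_lit 213030377881855)), (.ofNat (nat_lit 0)), (.ofNat (nat_lit 0)), (.ofNat (nat_lit 0))⟩,
    ⟨nat_lit 7, nat_lit 2, (.negSucc (nat_lit 213030377881599)), (.ofNat (nat_lit 1099511627776000)), (.negSucc (nat_lit 213030377881343)), (.ofNat (nat_lit 1099511627775968)), (.ofNat (nat_lit 0)), (.ofNat (nat_lit 0)), (.ofNat (nat_lit 0))⟩]

theorem ok212 : stOK 7 7 S212 = true := by decide +kernel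

def S213 : SD where
  vs := [
    ⟨nat_lit 1, nat_lit 3, nat_lit 4, (.ofNat (nat_lit 16)), (.ofNat (nat_lit 274877906944000)), (.ofNat (nat_lit 6134250977461890915564057449975082313749557673984000000)), (.ofNat (nat_lit 0)), (.ofNat (nat_lit 0)), (.ofNat (nat_lit 274877906943968)), (.ofNat (nat_lit 274877906944032)), (.negSucc (nat_lit 528042448867131603520712099493838847999999)), (.negSucc (nat_lit 539309979887084898561655407189688319999999)), (.negSucc (nat_lit 539309979887084898561655407189688319999999)), (.negSucc (nat_lit 528042448867131603520712099493838847999999)), (.ofNat (nat_lit 68370940655056401947471527280640000000))⟩,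
    ⟨nat_lit 2, nat_lit 0, nat_lit 1, (.ofNat (nat_lit 16)), (.negSucc (nat_lit 549755813887999)), (.ofNat (nat_lit 120279437284502097135725017355140140065026473984000000)), (.ofNat (nat_lit 0)), (.ofNat (nat_lit 0)), (.negSucc (nat_lit 549755813888031)), (.negSucc (nat_lit 549755813887967)), (.ofNat (nat_lit 1100498660783787845746501703109181440000000)), (.ofNat (nat_lit 0)), (.ofNat (nat_lit 0)), (.ofNat (nat_lit 1100498660783787845746501703109181440000000)), (.ofNat (nat_lit 273483762620225607789886109122560000000))⟩,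
    ⟨nat_lit 1, nat_lit 5, nat_lit 7, (.ofNat (nat_lit 16)), (.ofNat (nat_lit 1099511627776000)), (.ofNat (nat_lit 120279437284502097135725017355140140065026473984000000)), (.ofNat (nat_lit 0)), (.ofNat (nat_lit 0)), (.ofNat (nat_lit 1099511627775968)), (.ofNat (nat_lit 1099511627776032)), (.ofNat (nat_lit 1100498660783787845746501703109181440000000)), (.ofNat (nat_lit 0)), (.ofNat (nat_lit 0)), (.ofNat (nat_lit 1100498660783787845746501703109181440000000)), (.ofNat (nat_lit 273483762620225607789886109122560000000))⟩,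
    ⟨nat_lit 2, nat_lit 3, nat_lit 2, (.ofNat (nat_lit 16)), (.ofNat (nat_lit 0)), (.ofNat (nat_lit 151281454099643170048331860711257386675625718185984000000)), (.ofNat (nat_lit 0)), (.ofNat (nat_lit 8457147478374453025914842483371793681743872000000000)), (.negSucc (nat_lit 31)), (.ofNat (nat_lit 32)), (.negSucc (nat_lit 528042448867131603520712099493838847999999)), (.negSucc (nat_lit 550139936886845832630134897110941695999999)), (.negSucc (nat_lit 550139936886845832630134897110941695999999)), (.negSucc (nat_lit 528042448867131603520712099493838847999999)), (.ofNat (nat_lit 66091909299887855215889143037952000000))⟩,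
    ⟨nat_lit 0, nat_lit 0, nat_lit 4, (.ofNat (nat_lit 16)), (.negSucc (nat_lit 274877906943999)), (.ofNat (nat_lit 302623047908207159664080846378138231476396945833984000000)), (.ofNat (nat_lit 0)), (.ofNat (nat_lit 18793661063054340057588538851937319292764160000000000)), (.negSucc (nat_lit 274877906944031)), (.negSucc (nat_lit 274877906943967)), (.ofNat (nat_lit 1100498660783787845746501703109181440000000)), (.negSucc (nat_lit 539309979887084898561655407189688319999999)), (.negSucc (nat_lit 539309979887084898561655407189688319999999)), (.ofNat (nat_lit 1100498660783787845746501703109181440000000)), (.ofNat (nat_lit 341854703275282009737357636403200000000))⟩,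
    ⟨nat_lit 0, nat_lit 2, nat_lit 5, (.ofNat (nat_lit 16)), (.ofNat (nat_lit 824633720832000)), (.negSucc (nat_lit 302382489033638155469809396343427951196266892886015999999)), (.ofNat (nat_lit 0)), (.negSucc (nat_lit 18793661063054340057588538851937319292764159999999999)), (.ofNat (nat_lit 824633720831968)), (.ofNat (nat_lit 824633720832032)), (.negSucc (nat_lit 550139936886845832630134897110941695999999)), (.ofNat (nat_lit 1100498660783787845746501703109181440000000)), (.negSucc (nat_lit 550139936886845832630134897110941695999999)), (.ofNat (nat_lit 1100498660783787845746501703109181440000000)), (.ofNat (nat_lit 268925699909888514326721340637184000000))⟩,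
    ⟨nat_lit 0, nat_lit 1, nat_lit 6, (.ofNat (nat_lit 128)), (.negSucc (nat_lit 219902325555199)), (.ofNat (nat_lit 120279437284502097135725017355140140065026473984000000)), (.ofNat (nat_lit 0)), (.ofNat (nat_lit 0)), (.negSucc (nat_lit 219902325555455)), (.negSucc (nat_lit 219902325554943)), (.ofNat (nat_lit 0)), (.ofNat (nat_lit 0)), (.ofNat (nat_lit 0)), (.ofNat (nat_lit 0)), (.ofNat (nat_lit 0))⟩,
    ⟨nat_lit 0, nat_lit 6, nat_lit 7, (.ofNat (nat_lit 128)), (.negSucc (nat_lit 213030377881599)), (.ofNat (nat_lit 120279437284502097135725017355140140065026473984000000)), (.ofNat (nat_lit 0)), (.ofNat (nat_lit 0)), (.negSucc (nat_lit 213030377881855)), (.negSucc (nat_lit 213030377881343)), (.ofNat (nat_lit 0)), (.ofNat (nat_lit 0)), (.ofNat (nat_lit 0)), (.ofNat (nat_lit 0)), (.ofNat (nat_lit 0))⟩]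
  es := [
    ⟨nat_lit 1, nat_lit 4, (.negSucc (nat_lit 549755813887999)), (.negSucc (nat_lit 274877906943999)), (.negSucc (nat_lit 549755813887967)), (.negSucc (nat_lit 274877906944031)), (.ofNat (nat_lit 1100498660783787845746501703109181440000000)), (.ofNat (nat_lit 68370940655056401947471527280640000000)), (.ofNat (nat_lit 37587322126108680115177077703874638585528320000000000))⟩,
    ⟨nat_lit 1, nat_lit 6, (.negSucc (nat_lit 549755813887999)), (.negSucc (nat_lit 219902325555199)), (.negSucc (nat_lit 549755813887967)), (.negSucc (nat_lit 219902325555455)), (.ofNat (nat_lit 0)), (.ofNat (nat_lit 0)), (.ofNat (nat_lit 0))⟩,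
    ⟨nat_lit 3, nat_lit 5, (.ofNat (nat_lit 0)), (.ofNat (nat_lit 824633720832000)), (.ofNat (nat_lit 32)), (.ofNat (nat_lit 824633720831968)), (.negSucc (nat_lit 550139936886845832630134897110941695999999)), (.negSucc (nat_lit 33045954649943927607944571518975999999)), (.ofNat (nat_lit 8457147478374453025914842483371793681743872000000000))⟩,
    ⟨nat_lit 3, nat_lit 0, (.ofNat (nat_lit 0)), (.ofNat (nat_lit 274877906944000)), (.ofNat (nat_lit 32)), (.ofNat (nat_lit 274877906943968)), (.negSucc (nat_lit 528042448867131603520712099493838847999999)), (.negSucc (nat_lit 30766923294775380876362187276287999999)), (.ofNat (nat_lit 8457147478374453025914842483371793681743872000000000))⟩,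
    ⟨nat_lit 4, nat_lit 0, (.negSucc (nat_lit 274877906943999)), (.ofNat (nat_lit 274877906944000)), (.negSucc (nat_lit 274877906943967)), (.ofNat (nat_lit 274877906943968)), (.negSucc (nat_lit 539309979887084898561655407189688319999999)), (.negSucc (nat_lit 34185470327528200973735763640319999999)), (.ofNat (nat_lit 9396830531527170028794269425968659646382080000000000))⟩,
    ⟨nat_lit 5, nat_lit 2, (.ofNat (nat_lit 824633720832000)), (.ofNat (nat_lit 1099511627776000)), (.ofNat (nat_lit 824633720832032)), (.ofNat (nat_lit 1099511627775968)), (.ofNat (nat_lit 1100498660783787845746501703109181440000000)), (.ofNat (nat_lit 68370940655056401947471527280640000000)), (.negSucc (nat_lit 75174644252217360230354155407749277171056639999999999))⟩,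
    ⟨nat_lit 6, nat_lit 7, (.negSucc (nat_lit 219902325555199)), (.negSucc (nat_lit 213030377881599)), (.negSucc (nat_lit 219902325554943)), (.negSucc (nat_lit 213030377881855)), (.ofNat (nat_lit 0)), (.ofNat (nat_lit 0)), (.ofNat (nat_lit 0))⟩,
    ⟨nat_lit 7, nat_lit 2, (.negSucc (nat_lit 213030377881599)), (.ofNat (nat_lit 1099511627776000)), (.negSucc (nat_lit 213030377881343)), (.ofNat (nat_lit 1099511627775968)), (.ofNat (nat_lit 0)), (.ofNat (nat_lit 0)), (.ofNat (nat_lit 0))⟩]

theorem ok213 : stOK 7 7 S213 = true := by decide +kernel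

def S214 : SD where
  vs := [
    ⟨nat_lit 1, nat_lit 3, nat_lit 4, (.ofNat (nat_lit 16)), (.ofNat (nat_lit 274877906944000)), (.ofNat (nat_lit 13534255021039537313239544622925401785275445673984000000)), (.ofNat (nat_lit 0)), (.ofNat (nat_lit 117460381644089625359928367824608245579776000000000000)), (.ofNat (nat_lit 274877906943968)), (.ofNat (nat_lit 274877906944032)), (.negSucc (nat_lit 515551078009452798884909051459665919999999)), (.negSucc (nat_lit 526926293260937807758919626810982399999999)), (.negSucc (nat_lit 526926293260937807758919626810982399999999)), (.negSucc (nat_lit 515551078009452798884909051459665919999999)), (.ofNat (nat_lit 399970002832079951392708434591744000000))⟩,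
    ⟨nat_lit 2, nat_lit 0, nat_lit 1, (.ofNat (nat_lit 16)), (.negSucc (nat_lit 549755813887999)), (.ofNat (nat_lit 120279437284502097135725017355140140065026473984000000)), (.ofNat (nat_lit 0)), (.ofNat (nat_lit 0)), (.negSucc (nat_lit 549755813888031)), (.negSucc (nat_lit 549755813887967)), (.ofNat (nat_lit 1102652345414422122407847056218521600000000)), (.ofNat (nat_lit 0)), (.ofNat (nat_lit 0)), (.ofNat (nat_lit 1102652345414422122407847056218521600000000)), (.ofNat (nat_lit 136741881310112803894943054561280000000))⟩,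
    ⟨nat_lit 1, nat_lit 5, nat_lit 7, (.ofNat (nat_lit 16)), (.ofNat (nat_lit 1099511627776000)), (.ofNat (nat_lit 14920287524439794892486699363255779083116802473984000000)), (.ofNat (nat_lit 0)), (.ofNat (nat_lit 234920763288179250719856735649216491159552000000000000)), (.ofNat (nat_lit 1099511627775968)), (.ofNat (nat_lit 1099511627776032)), (.ofNat (nat_lit 1102652345414422122407847056218521600000000)), (.ofNat (nat_lit 0)), (.ofNat (nat_lit 0)), (.ofNat (nat_lit 1102652345414422122407847056218521600000000)), (.ofNat (nat_lit 136741881310112803894943054561280000000))⟩,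
    ⟨nat_lit 2, nat_lit 3, nat_lit 2, (.ofNat (nat_lit 16)), (.ofNat (nat_lit 0)), (.ofNat (nat_lit 155247856267000788517485921835958757912363594153984000000)), (.ofNat (nat_lit 0)), (.ofNat (nat_lit 62958764561232039192921605153990019630759936000000000)), (.negSucc (nat_lit 31)), (.ofNat (nat_lit 32)), (.negSucc (nat_lit 515551078009452798884909051459665919999999)), (.negSucc (nat_lit 537720355516854837216376694180413439999999)), (.negSucc (nat_lit 537720355516854837216376694180413439999999)), (.negSucc (nat_lit 515551078009452798884909051459665919999999)), (.ofNat (nat_lit 398830487154495678026917242470400000000))⟩,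
    ⟨nat_lit 0, nat_lit 0, nat_lit 4, (.ofNat (nat_lit 16)), (.negSucc (nat_lit 274877906943999)), (.ofNat (nat_lit 303215048231693371375894885351974257034119016873984000000)), (.ofNat (nat_lit 0)), (.ofNat (nat_lit 9396830531527170028794269425968659646382080000000000)), (.negSucc (nat_lit 274877906944031)), (.negSucc (nat_lit 274877906943967)), (.ofNat (nat_lit 1102652345414422122407847056218521600000000)), (.negSucc (nat_lit 526926293260937807758919626810982399999999)), (.negSucc (nat_lit 526926293260937807758919626810982399999999)), (.ofNat (nat_lit 1102652345414422122407847056218521600000000)), (.ofNat (nat_lit 393132908766574311197961281863680000000))⟩,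
    ⟨nat_lit 0, nat_lit 2, nat_lit 5, (.ofNat (nat_lit 16)), (.ofNat (nat_lit 824633720832000)), (.negSucc (nat_lit 288174481269969074386272460971363337810937187926015999999)), (.ofNat (nat_lit 0)), (.ofNat (nat_lit 225523932756652080691062466223247831513169920000000000)), (.ofNat (nat_lit 824633720831968)), (.ofNat (nat_lit 824633720832032)), (.negSucc (nat_lit 537720355516854837216376694180413439999999)), (.ofNat (nat_lit 1102652345414422122407847056218521600000000)), (.negSucc (nat_lit 537720355516854837216376694180413439999999)), (.ofNat (nat_lit 1102652345414422122407847056218521600000000)), (.ofNat (nat_lit 720173908233260767180033420689408000000))⟩,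
    ⟨nat_lit 0, nat_lit 1, nat_lit 6, (.ofNat (nat_lit 128)), (.negSucc (nat_lit 219902325555199)), (.ofNat (nat_lit 120279437284502097135725017355140140065026473984000000)), (.ofNat (nat_lit 0)), (.ofNat (nat_lit 0)), (.negSucc (nat_lit 219902325555455)), (.negSucc (nat_lit 219902325554943)), (.ofNat (nat_lit 0)), (.ofNat (nat_lit 2153684630634276661345353109340160000000000)), (.ofNat (nat_lit 0)), (.ofNat (nat_lit 2153684630634276661345353109340160000000000)), (.ofNat (nat_lit 68370940655056401947471527280640000000000))⟩,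
    ⟨nat_lit 0, nat_lit 6, nat_lit 7, (.ofNat (nat_lit 128)), (.negSucc (nat_lit 213030377881599)), (.ofNat (nat_lit 14920287524439794892486699363255779083116802473984000000)), (.ofNat (nat_lit 0)), (.ofNat (nat_lit 234920763288179250719856735649216491159552000000000000)), (.negSucc (nat_lit 213030377881855)), (.negSucc (nat_lit 213030377881343)), (.ofNat (nat_lit 2153684630634276661345353109340160000000000)), (.ofNat (nat_lit 0)), (.ofNat (nat_lit 0)), (.ofNat (nat_lit 2153684630634276661345353109340160000000000)), (.ofNat (nat_lit 136741881310112803894943054561280000000000))⟩]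
  es := [
    ⟨nat_lit 1, nat_lit 4, (.negSucc (nat_lit 549755813887999)), (.negSucc (nat_lit 274877906943999)), (.negSucc (nat_lit 549755813887967)), (.negSucc (nat_lit 274877906944031)), (.ofNat (nat_lit 1102652345414422122407847056218521600000000)), (.ofNat (nat_lit 34185470327528200973735763640320000000)), (.ofNat (nat_lit 18793661063054340057588538851937319292764160000000000))⟩,
    ⟨nat_lit 1, nat_lit 6, (.negSucc (nat_lit 549755813887999)), (.negSucc (nat_lit 219902325555199)), (.negSucc (nat_lit 549755813887967)), (.negSucc (nat_lit 219902325555455)), (.ofNat (nat_lit 0)), (.ofNat (nat_lit 0)), (.ofNat (nat_lit 0))⟩,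
    ⟨nat_lit 3, nat_lit 5, (.ofNat (nat_lit 0)), (.ofNat (nat_lit 824633720832000)), (.ofNat (nat_lit 32)), (.ofNat (nat_lit 824633720831968)), (.negSucc (nat_lit 537720355516854837216376694180413439999999)), (.ofNat (nat_lit 197136212222079292281876236992512000000)), (.ofNat (nat_lit 62958764561232039192921605153990019630759936000000000))⟩,
    ⟨nat_lit 3, nat_lit 0, (.ofNat (nat_lit 0)), (.ofNat (nat_lit 274877906944000)), (.ofNat (nat_lit 32)), (.ofNat (nat_lit 274877906943968)), (.negSucc (nat_lit 515551078009452798884909051459665919999999)), (.ofNat (nat_lit 198275727899663565647667429113856000000)), (.ofNat (nat_lit 62958764561232039192921605153990019630759936000000000))⟩,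
    ⟨nat_lit 4, nat_lit 0, (.negSucc (nat_lit 274877906943999)), (.ofNat (nat_lit 274877906944000)), (.negSucc (nat_lit 274877906943967)), (.ofNat (nat_lit 274877906943968)), (.negSucc (nat_lit 526926293260937807758919626810982399999999)), (.ofNat (nat_lit 196566454383287155598980640931840000000)), (.ofNat (nat_lit 63428606087808397694361318625288452613079040000000000))⟩,
    ⟨nat_lit 5, nat_lit 2, (.ofNat (nat_lit 824633720832000)), (.ofNat (nat_lit 1099511627776000)), (.ofNat (nat_lit 824633720832032)), (.ofNat (nat_lit 1099511627775968)), (.ofNat (nat_lit 1102652345414422122407847056218521600000000)), (.ofNat (nat_lit 34185470327528200973735763640320000000)), (.ofNat (nat_lit 197333441162070570604679657945341852574023680000000000))⟩,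
    ⟨nat_lit 6, nat_lit 7, (.negSucc (nat_lit 219902325555199)), (.negSucc (nat_lit 213030377881599)), (.negSucc (nat_lit 219902325554943)), (.negSucc (nat_lit 213030377881855)), (.ofNat (nat_lit 2153684630634276661345353109340160000000000)), (.ofNat (nat_lit 34185470327528200973735763640320000000000)), (.ofNat (nat_lit 7517464425221736023035415540774927717105664000000000000))⟩,
    ⟨nat_lit 7, nat_lit 2, (.negSucc (nat_lit 213030377881599)), (.ofNat (nat_lit 1099511627776000)), (.negSucc (nat_lit 213030377881343)), (.ofNat (nat_lit 1099511627775968)), (.ofNat (nat_lit 0)), (.ofNat (nat_lit 0)), (.ofNat (nat_lit 234920763288179250719856735649216491159552000000000000))⟩]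

theorem ok214 : stOK 7 7 S214 = true := by decide +kernel

def S215 : SD where
  vs := [
    ⟨nat_lit 1, nat_lit 3, nat_lit 4, (.ofNat (nat_lit 16)), (.ofNat (nat_lit 274877906944000)), (.ofNat (nat_lit 13651715402683626938599472990750010030855221673984000000)), (.ofNat (nat_lit 0)), (.ofNat (nat_lit 117460381644089625359928367824608245579776000000000000)), (.ofNat (nat_lit 274877906943968)), (.ofNat (nat_lit 274877906944032)), (.negSucc (nat_lit 515352802281553135319261384030552063999999)), (.negSucc (nat_lit 526729726806554520603320646170050559999999)), (.negSucc (nat_lit 526729726806554520603320646170050559999999)), (.negSucc (nat_lit 515352802281553135319261384030552063999999)), (.ofNat (nat_lit 399970002832079951392708434591744000000))⟩,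
    ⟨nat_lit 2, nat_lit 0, nat_lit 1, (.ofNat (nat_lit 16)), (.negSucc (nat_lit 549755813887999)), (.ofNat (nat_lit 120279437284502097135725017355140140065026473984000000)), (.ofNat (nat_lit 0)), (.ofNat (nat_lit 0)), (.negSucc (nat_lit 549755813888031)), (.negSucc (nat_lit 549755813887967)), (.ofNat (nat_lit 1102686530884749650608820791982161920000000)), (.ofNat (nat_lit 0)), (.ofNat (nat_lit 0)), (.ofNat (nat_lit 1102686530884749650608820791982161920000000)), (.ofNat (nat_lit 136741881310112803894943054561280000000))⟩,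
    ⟨nat_lit 1, nat_lit 5, nat_lit 7, (.ofNat (nat_lit 16)), (.ofNat (nat_lit 1099511627776000)), (.ofNat (nat_lit 15155208287727974143206556098904995574276354473984000000)), (.ofNat (nat_lit 0)), (.ofNat (nat_lit 234920763288179250719856735649216491159552000000000000)), (.ofNat (nat_lit 1099511627775968)), (.ofNat (nat_lit 1099511627776032)), (.ofNat (nat_lit 1102686530884749650608820791982161920000000)), (.ofNat (nat_lit 0)), (.ofNat (nat_lit 0)), (.ofNat (nat_lit 1102686530884749650608820791982161920000000)), (.ofNat (nat_lit 136741881310112803894943054561280000000))⟩,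
    ⟨nat_lit 2, nat_lit 3, nat_lit 2, (.ofNat (nat_lit 16)), (.ofNat (nat_lit 0)), (.ofNat (nat_lit 155310815031562020556678843441112747931994354089984000000)), (.ofNat (nat_lit 0)), (.ofNat (nat_lit 62958764561232039192921605153990019630759936000000000)), (.negSucc (nat_lit 31)), (.ofNat (nat_lit 32)), (.negSucc (nat_lit 515352802281553135319261384030552063999999)), (.negSucc (nat_lit 537523219304632757924094817943420927999999)), (.negSucc (nat_lit 537523219304632757924094817943420927999999)), (.negSucc (nat_lit 515352802281553135319261384030552063999999)), (.ofNat (nat_lit 398830487154495678026917242470400000000))⟩,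
    ⟨nat_lit 0, nat_lit 0, nat_lit 4, (.ofNat (nat_lit 16)), (.negSucc (nat_lit 274877906943999)), (.ofNat (nat_lit 303224445062224898545923679621400225693765398953984000000)), (.ofNat (nat_lit 0)), (.ofNat (nat_lit 9396830531527170028794269425968659646382080000000000)), (.negSucc (nat_lit 274877906944031)), (.negSucc (nat_lit 274877906943967)), (.ofNat (nat_lit 1102686530884749650608820791982161920000000)), (.negSucc (nat_lit 526729726806554520603320646170050559999999)), (.negSucc (nat_lit 526729726806554520603320646170050559999999)), (.ofNat (nat_lit 1102686530884749650608820791982161920000000)), (.ofNat (nat_lit 393132908766574311197961281863680000000))⟩,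
    ⟨nat_lit 0, nat_lit 2, nat_lit 5, (.ofNat (nat_lit 16)), (.ofNat (nat_lit 824633720832000)), (.negSucc (nat_lit 287948957337212422305581398505140089979424018006015999999)), (.ofNat (nat_lit 0)), (.ofNat (nat_lit 225523932756652080691062466223247831513169920000000000)), (.ofNat (nat_lit 824633720831968)), (.ofNat (nat_lit 824633720832032)), (.negSucc (nat_lit 537523219304632757924094817943420927999999)), (.ofNat (nat_lit 1102686530884749650608820791982161920000000)), (.negSucc (nat_lit 537523219304632757924094817943420927999999)), (.ofNat (nat_lit 1102686530884749650608820791982161920000000)), (.ofNat (nat_lit 720173908233260767180033420689408000000))⟩,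
    ⟨nat_lit 0, nat_lit 1, nat_lit 6, (.ofNat (nat_lit 128)), (.negSucc (nat_lit 219902325555199)), (.ofNat (nat_lit 120279437284502097135725017355140140065026473984000000)), (.ofNat (nat_lit 0)), (.ofNat (nat_lit 0)), (.negSucc (nat_lit 219902325555455)), (.negSucc (nat_lit 219902325554943)), (.ofNat (nat_lit 0)), (.ofNat (nat_lit 2187870100961804862319088872980480000000000)), (.ofNat (nat_lit 0)), (.ofNat (nat_lit 2187870100961804862319088872980480000000000)), (.ofNat (nat_lit 68370940655056401947471527280640000000000))⟩,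
    ⟨nat_lit 0, nat_lit 6, nat_lit 7, (.ofNat (nat_lit 128)), (.negSucc (nat_lit 213030377881599)), (.ofNat (nat_lit 15155208287727974143206556098904995574276354473984000000)), (.ofNat (nat_lit 0)), (.ofNat (nat_lit 234920763288179250719856735649216491159552000000000000)), (.negSucc (nat_lit 213030377881855)), (.negSucc (nat_lit 213030377881343)), (.ofNat (nat_lit 2187870100961804862319088872980480000000000)), (.ofNat (nat_lit 0)), (.ofNat (nat_lit 0)), (.ofNat (nat_lit 2187870100961804862319088872980480000000000)), (.ofNat (nat_lit 136741881310112803894943054561280000000000))⟩]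
  es := [
    ⟨nat_lit 1, nat_lit 4, (.negSucc (nat_lit 549755813887999)), (.negSucc (nat_lit 274877906943999)), (.negSucc (nat_lit 549755813887967)), (.negSucc (nat_lit 274877906944031)), (.ofNat (nat_lit 1102686530884749650608820791982161920000000)), (.ofNat (nat_lit 34185470327528200973735763640320000000)), (.ofNat (nat_lit 18793661063054340057588538851937319292764160000000000))⟩,
    ⟨nat_lit 1, nat_lit 6, (.negSucc (nat_lit 549755813887999)), (.negSucc (nat_lit 219902325555199)), (.negSucc (nat_lit 549755813887967)), (.negSucc (nat_lit 219902325555455)), (.ofNat (nat_lit 0)), (.ofNat (nat_lit 0)), (.ofNat (nat_lit 0))⟩,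
    ⟨nat_lit 3, nat_lit 5, (.ofNat (nat_lit 0)), (.ofNat (nat_lit 824633720832000)), (.ofNat (nat_lit 32)), (.ofNat (nat_lit 824633720831968)), (.negSucc (nat_lit 537523219304632757924094817943420927999999)), (.ofNat (nat_lit 197136212222079292281876236992512000000)), (.ofNat (nat_lit 62958764561232039192921605153990019630759936000000000))⟩,
    ⟨nat_lit 3, nat_lit 0, (.ofNat (nat_lit 0)), (.ofNat (nat_lit 274877906944000)), (.ofNat (nat_lit 32)), (.ofNat (nat_lit 274877906943968)), (.negSucc (nat_lit 515352802281553135319261384030552063999999)), (.ofNat (nat_lit 198275727899663565647667429113856000000)), (.ofNat (nat_lit 62958764561232039192921605153990019630759936000000000))⟩,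
    ⟨nat_lit 4, nat_lit 0, (.negSucc (nat_lit 274877906943999)), (.ofNat (nat_lit 274877906944000)), (.negSucc (nat_lit 274877906943967)), (.ofNat (nat_lit 274877906943968)), (.negSucc (nat_lit 526729726806554520603320646170050559999999)), (.ofNat (nat_lit 196566454383287155598980640931840000000)), (.ofNat (nat_lit 63428606087808397694361318625288452613079040000000000))⟩,
    ⟨nat_lit 5, nat_lit 2, (.ofNat (nat_lit 824633720832000)), (.ofNat (nat_lit 1099511627776000)), (.ofNat (nat_lit 824633720832032)), (.ofNat (nat_lit 1099511627775968)), (.ofNat (nat_lit 1102686530884749650608820791982161920000000)), (.ofNat (nat_lit 34185470327528200973735763640320000000)), (.ofNat (nat_lit 197333441162070570604679657945341852574023680000000000))⟩,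
    ⟨nat_lit 6, nat_lit 7, (.negSucc (nat_lit 219902325555199)), (.negSucc (nat_lit 213030377881599)), (.negSucc (nat_lit 219902325554943)), (.negSucc (nat_lit 213030377881855)), (.ofNat (nat_lit 2187870100961804862319088872980480000000000)), (.ofNat (nat_lit 34185470327528200973735763640320000000000)), (.ofNat (nat_lit 7517464425221736023035415540774927717105664000000000000))⟩,
    ⟨nat_lit 7, nat_lit 2, (.negSucc (nat_lit 213030377881599)), (.ofNat (nat_lit 1099511627776000)), (.negSucc (nat_lit 213030377881343)), (.ofNat (nat_lit 1099511627775968)), (.ofNat (nat_lit 0)), (.ofNat (nat_lit 0)), (.ofNat (nat_lit 234920763288179250719856735649216491159552000000000000))⟩]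

theorem ok215 : stOK 7 7 S215 = true := by decide +kernel

def S216 : SD where
  vs := [
    ⟨nat_lit 1, nat_lit 3, nat_lit 4, (.ofNat (nat_lit 16)), (.ofNat (nat_lit 274877906944000)), (.ofNat (nat_lit 13651715402683626938599472990750010030855221673984000000)), (.ofNat (nat_lit 0)), (.ofNat (nat_lit 117460381644089625359928367824608245579776000000000000)), (.ofNat (nat_lit 274877906943968)), (.ofNat (nat_lit 274877906944032)), (.negSucc (nat_lit 515352802281553135319261384030552063999999)), (.negSucc (nat_lit 526729726806554520603320646170050559999999)), (.negSucc (nat_lit 526729726806554520603320646170050559999999)), (.negSucc (nat_lit 515352802281553135319261384030552063999999)), (.ofNat (nat_lit 399970002832079951392708434591744000000))⟩,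
    ⟨nat_lit 2, nat_lit 0, nat_lit 1, (.ofNat (nat_lit 16)), (.negSucc (nat_lit 549755813887999)), (.ofNat (nat_lit 120279437284502097135725017355140140065026473984000000)), (.ofNat (nat_lit 0)), (.ofNat (nat_lit 0)), (.negSucc (nat_lit 549755813888031)), (.negSucc (nat_lit 549755813887967)), (.ofNat (nat_lit 1102686530884749650608820791982161920000000)), (.ofNat (nat_lit 0)), (.ofNat (nat_lit 0)), (.ofNat (nat_lit 1102686530884749650608820791982161920000000)), (.ofNat (nat_lit 136741881310112803894943054561280000000))⟩,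
    ⟨nat_lit 1, nat_lit 5, nat_lit 7, (.ofNat (nat_lit 16)), (.ofNat (nat_lit 1099511627776000)), (.ofNat (nat_lit 15155208287727974143206556098904995574276354473984000000)), (.ofNat (nat_lit 0)), (.ofNat (nat_lit 234920763288179250719856735649216491159552000000000000)), (.ofNat (nat_lit 1099511627775968)), (.ofNat (nat_lit 1099511627776032)), (.ofNat (nat_lit 1102686530884749650608820791982161920000000)), (.ofNat (nat_lit 0)), (.ofNat (nat_lit 0)), (.ofNat (nat_lit 1102686530884749650608820791982161920000000)), (.ofNat (nat_lit 136741881310112803894943054561280000000))⟩,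
    ⟨nat_lit 2, nat_lit 3, nat_lit 2, (.ofNat (nat_lit 16)), (.ofNat (nat_lit 0)), (.ofNat (nat_lit 155310815031562020556678843441112747931994354089984000000)), (.ofNat (nat_lit 0)), (.ofNat (nat_lit 62958764561232039192921605153990019630759936000000000)), (.negSucc (nat_lit 31)), (.ofNat (nat_lit 32)), (.negSucc (nat_lit 515352802281553135319261384030552063999999)), (.negSucc (nat_lit 537523219304632757924094817943420927999999)), (.negSucc (nat_lit 537523219304632757924094817943420927999999)), (.negSucc (nat_lit 515352802281553135319261384030552063999999)), (.ofNat (nat_lit 398830487154495678026917242470400000000))⟩,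
    ⟨nat_lit 0, nat_lit 0, nat_lit 4, (.ofNat (nat_lit 16)), (.negSucc (nat_lit 274877906943999)), (.ofNat (nat_lit 303224445062224898545923679621400225693765398953984000000)), (.ofNat (nat_lit 0)), (.ofNat (nat_lit 9396830531527170028794269425968659646382080000000000)), (.negSucc (nat_lit 274877906944031)), (.negSucc (nat_lit 274877906943967)), (.ofNat (nat_lit 1102686530884749650608820791982161920000000)), (.negSucc (nat_lit 526729726806554520603320646170050559999999)), (.negSucc (nat_lit 526729726806554520603320646170050559999999)), (.ofNat (nat_lit 1102686530884749650608820791982161920000000)), (.ofNat (nat_lit 393132908766574311197961281863680000000))⟩,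
    ⟨nat_lit 0, nat_lit 2, nat_lit 5, (.ofNat (nat_lit 16)), (.ofNat (nat_lit 824633720832000)), (.negSucc (nat_lit 287948957337212422305581398505140089979424018006015999999)), (.ofNat (nat_lit 0)), (.ofNat (nat_lit 225523932756652080691062466223247831513169920000000000)), (.ofNat (nat_lit 824633720831968)), (.ofNat (nat_lit 824633720832032)), (.negSucc (nat_lit 537523219304632757924094817943420927999999)), (.ofNat (nat_lit 1102686530884749650608820791982161920000000)), (.negSucc (nat_lit 537523219304632757924094817943420927999999)), (.ofNat (nat_lit 1102686530884749650608820791982161920000000)), (.ofNat (nat_lit 720173908233260767180033420689408000000))⟩,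
    ⟨nat_lit 0, nat_lit 1, nat_lit 6, (.ofNat (nat_lit 128)), (.negSucc (nat_lit 219902325555199)), (.ofNat (nat_lit 120279437284502097135725017355140140065026473984000000)), (.ofNat (nat_lit 0)), (.ofNat (nat_lit 0)), (.negSucc (nat_lit 219902325555455)), (.negSucc (nat_lit 219902325554943)), (.ofNat (nat_lit 0)), (.ofNat (nat_lit 2187870100961804862319088872980480000000000)), (.ofNat (nat_lit 0)), (.ofNat (nat_lit 2187870100961804862319088872980480000000000)), (.ofNat (nat_lit 68370940655056401947471527280640000000000))⟩,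
    ⟨nat_lit 1, nat_lit 6, nat_lit 8, (.ofNat (nat_lit 16)), (.negSucc (nat_lit 213030377881535)), (.ofNat (nat_lit 15155208287867997829668111610093417262147105193984000000)), (.ofNat (nat_lit 0)), (.ofNat (nat_lit 234920763290367120820818540511535580032532480000000000)), (.negSucc (nat_lit 213030377881567)), (.negSucc (nat_lit 213030377881503)), (.ofNat (nat_lit 2187870100961804862319088872980480000000000)), (.ofNat (nat_lit 1093935050480902431159544436490240000000000)), (.ofNat (nat_lit 1093935050480902431159544436490240000000000)), (.ofNat (nat_lit 2187870100961804862319088872980480000000000)), (.ofNat (nat_lit 102556410982584602921207290920960000000000))⟩,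
    ⟨nat_lit 2, nat_lit 8, nat_lit 7, (.ofNat (nat_lit 16)), (.negSucc (nat_lit 213030377881663)), (.ofNat (nat_lit 15155208287727974143206556098904995574276354473984000000)), (.ofNat (nat_lit 0)), (.ofNat (nat_lit 234920763288179250719856735649216491159552000000000000)), (.negSucc (nat_lit 213030377881695)), (.negSucc (nat_lit 213030377881631)), (.ofNat (nat_lit 1093935050480902431159544436490240000000000)), (.ofNat (nat_lit 0)), (.ofNat (nat_lit 0)), (.ofNat (nat_lit 1093935050480902431159544436490240000000000)), (.ofNat (nat_lit 68370940655056401947471527280640000000000))⟩]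
  es := [
    ⟨nat_lit 1, nat_lit 4, (.negSucc (nat_lit 549755813887999)), (.negSucc (nat_lit 274877906943999)), (.negSucc (nat_lit 549755813887967)), (.negSucc (nat_lit 274877906944031)), (.ofNat (nat_lit 1102686530884749650608820791982161920000000)), (.ofNat (nat_lit 34185470327528200973735763640320000000)), (.ofNat (nat_lit 18793661063054340057588538851937319292764160000000000))⟩,
    ⟨nat_lit 1, nat_lit 6, (.negSucc (nat_lit 549755813887999)), (.negSucc (nat_lit 219902325555199)), (.negSucc (nat_lit 549755813887967)), (.negSucc (nat_lit 219902325555455)), (.ofNat (nat_lit 0)), (.ofNat (nat_lit 0)), (.ofNat (nat_lit 0))⟩,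
    ⟨nat_lit 3, nat_lit 5, (.ofNat (nat_lit 0)), (.ofNat (nat_lit 824633720832000)), (.ofNat (nat_lit 32)), (.ofNat (nat_lit 824633720831968)), (.negSucc (nat_lit 537523219304632757924094817943420927999999)), (.ofNat (nat_lit 197136212222079292281876236992512000000)), (.ofNat (nat_lit 62958764561232039192921605153990019630759936000000000))⟩,
    ⟨nat_lit 3, nat_lit 0, (.ofNat (nat_lit 0)), (.ofNat (nat_lit 274877906944000)), (.ofNat (nat_lit 32)), (.ofNat (nat_lit 274877906943968)), (.negSucc (nat_lit 515352802281553135319261384030552063999999)), (.ofNat (nat_lit 198275727899663565647667429113856000000)), (.ofNat (nat_lit 62958764561232039192921605153990019630759936000000000))⟩,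
    ⟨nat_lit 4, nat_lit 0, (.negSucc (nat_lit 274877906943999)), (.ofNat (nat_lit 274877906944000)), (.negSucc (nat_lit 274877906943967)), (.ofNat (nat_lit 274877906943968)), (.negSucc (nat_lit 526729726806554520603320646170050559999999)), (.ofNat (nat_lit 196566454383287155598980640931840000000)), (.ofNat (nat_lit 63428606087808397694361318625288452613079040000000000))⟩,
    ⟨nat_lit 5, nat_lit 2, (.ofNat (nat_lit 824633720832000)), (.ofNat (nat_lit 1099511627776000)), (.ofNat (nat_lit 824633720832032)), (.ofNat (nat_lit 1099511627775968)), (.ofNat (nat_lit 1102686530884749650608820791982161920000000)), (.ofNat (nat_lit 34185470327528200973735763640320000000)), (.ofNat (nat_lit 197333441162070570604679657945341852574023680000000000))⟩,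
    ⟨nat_lit 6, nat_lit 7, (.negSucc (nat_lit 219902325555199)), (.negSucc (nat_lit 213030377881535)), (.negSucc (nat_lit 219902325554943)), (.negSucc (nat_lit 213030377881567)), (.ofNat (nat_lit 2187870100961804862319088872980480000000000)), (.ofNat (nat_lit 34185470327528200973735763640320000000000)), (.ofNat (nat_lit 7517464425221736023035415540774927717105664000000000000))⟩,
    ⟨nat_lit 8, nat_lit 2, (.negSucc (nat_lit 213030377881663)), (.ofNat (nat_lit 1099511627776000)), (.negSucc (nat_lit 213030377881631)), (.ofNat (nat_lit 1099511627775968)), (.ofNat (nat_lit 0)), (.ofNat (nat_lit 0)), (.ofNat (nat_lit 234920763288179250719856735649216491159552000000000000))⟩,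
    ⟨nat_lit 8, nat_lit 7, (.negSucc (nat_lit 213030377881663)), (.negSucc (nat_lit 213030377881535)), (.negSucc (nat_lit 213030377881631)), (.negSucc (nat_lit 213030377881567)), (.ofNat (nat_lit 1093935050480902431159544436490240000000000)), (.ofNat (nat_lit 17092735163764100486867881820160000000000)), (.ofNat (nat_lit 3876192594256051571928117040643231648569098240000000000))⟩]

theorem ok216 : stOK 8 8 S216 = true := by decide +kernel

def S217 : SD where
  vs := [
    ⟨nat_lit 1, nat_lit 3, nat_lit 4, (.ofNat (nat_lit 16)), (.ofNat (nat_lit 274877906944000)), (.ofNat (nat_lit 24927912040516230973152596301912401606513717673984000000)), (.ofNat (nat_lit 0)), (.ofNat (nat_lit 176190572466134438039892551736912368369664000000000000)), (.ofNat (nat_lit 274877906943968)), (.ofNat (nat_lit 274877906944032)), (.negSucc (nat_lit 495826061630469026923063515839201279999999)), (.negSucc (nat_lit 507312379660518502450238732422348799999999)), (.negSucc (nat_lit 507312379660518502450238732422348799999999)), (.negSucc (nat_lit 495826061630469026923063515839201279999999)),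 (.ofNat (nat_lit 613629192379131207478556957343744000000))⟩,
    ⟨nat_lit 2, nat_lit 0, nat_lit 1, (.ofNat (nat_lit 16)), (.negSucc (nat_lit 549755813887999)), (.ofNat (nat_lit 120279437284502097135725017355140140065026473984000000)), (.ofNat (nat_lit 0)), (.ofNat (nat_lit 0)), (.negSucc (nat_lit 549755813888031)), (.negSucc (nat_lit 549755813887967)), (.ofNat (nat_lit 1104874400985711455471139880855142400000000)), (.ofNat (nat_lit 0)), (.ofNat (nat_lit 0)), (.ofNat (nat_lit 1104874400985711455471139880855142400000000)), (.ofNat (nat_lit 136741881310112803894943054561280000000))⟩,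
    ⟨nat_lit 1, nat_lit 5, nat_lit 7, (.ofNat (nat_lit 16)), (.ofNat (nat_lit 1099511627776000)), (.ofNat (nat_lit 37707601563393182212312802721229778725593346473984000000)), (.ofNat (nat_lit 0)), (.ofNat (nat_lit 352381144932268876079785103473824736739328000000000000)), (.ofNat (nat_lit 1099511627775968)), (.ofNat (nat_lit 1099511627776032)), (.ofNat (nat_lit 1104874400985711455471139880855142400000000)), (.ofNat (nat_lit 0)), (.ofNat (nat_lit 0)), (.ofNat (nat_lit 1104874400985711455471139880855142400000000)), (.ofNat (nat_lit 136741881310112803894943054561280000000))⟩,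
    ⟨nat_lit 2, nat_lit 3, nat_lit 2, (.ofNat (nat_lit 16)), (.ofNat (nat_lit 0)), (.ofNat (nat_lit 161219542069786305070784680056161841117639405993984000000)), (.ofNat (nat_lit 0)), (.ofNat (nat_lit 92323859972254445532903697110142081025703936000000000)), (.negSucc (nat_lit 31)), (.ofNat (nat_lit 32)), (.negSucc (nat_lit 495826061630469026923063515839201279999999)), (.negSucc (nat_lit 518069407656914043023307586047836159999999)), (.negSucc (nat_lit 518069407656914043023307586047836159999999)), (.negSucc (nat_lit 495826061630469026923063515839201279999999)), (.ofNat (nat_lit 612489676701546934112765765222400000000))⟩,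
    ⟨nat_lit 0, nat_lit 0, nat_lit 4, (.ofNat (nat_lit 16)), (.negSucc (nat_lit 274877906943999)), (.ofNat (nat_lit 303825842216242637427766512864662219911133852073984000000)), (.ofNat (nat_lit 0)), (.ofNat (nat_lit 9396830531527170028794269425968659646382080000000000)), (.negSucc (nat_lit 274877906944031)), (.negSucc (nat_lit 274877906943967)), (.ofNat (nat_lit 1104874400985711455471139880855142400000000)), (.negSucc (nat_lit 507312379660518502450238732422348799999999)), (.negSucc (nat_lit 507312379660518502450238732422348799999999)), (.ofNat (nat_lit 1104874400985711455471139880855142400000000)), (.ofNat (nat_lit 606792098313625567283809804615680000000))⟩,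
    ⟨nat_lit 0, nat_lit 2, nat_lit 5, (.ofNat (nat_lit 16)), (.ofNat (nat_lit 824633720832000)), (.negSucc (nat_lit 265997961215564953118317985126077301045475479126015999999)), (.ofNat (nat_lit 0)), (.ofNat (nat_lit 342984314400741706050990834047856077092945920000000000)), (.ofNat (nat_lit 824633720831968)), (.ofNat (nat_lit 824633720832032)), (.negSucc (nat_lit 518069407656914043023307586047836159999999)), (.ofNat (nat_lit 1104874400985711455471139880855142400000000)), (.negSucc (nat_lit 518069407656914043023307586047836159999999)), (.ofNat (nat_lit 1104874400985711455471139880855142400000000)), (.ofNat (nat_lit 1147492287327363279351730466193408000000))⟩,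
    ⟨nat_lit 0, nat_lit 1, nat_lit 6, (.ofNat (nat_lit 128)), (.negSucc (nat_lit 219902325555199)), (.ofNat (nat_lit 120279437284502097135725017355140140065026473984000000)), (.ofNat (nat_lit 0)), (.ofNat (nat_lit 0)), (.negSucc (nat_lit 219902325555455)), (.negSucc (nat_lit 219902325554943)), (.ofNat (nat_lit 0)), (.ofNat (nat_lit 2187870100961804862319088872980480000000000)), (.ofNat (nat_lit 0)), (.ofNat (nat_lit 2187870100961804862319088872980480000000000)), (.ofNat (nat_lit 0))⟩,
    ⟨nat_lit 1, nat_lit 6, nat_lit 8, (.ofNat (nat_lit 16)), (.negSucc (nat_lit 192414534860799)), (.ofNat (nat_lit 60259994839058390281419049343554561876910338473984000000)), (.ofNat (nat_lit 322122547199)), (.ofNat (nat_lit 704762289862349882058608402085330384605675520000000000)), (.negSucc (nat_lit 192414534860831)), (.negSucc (nat_lit 192414534860767)), (.ofNat (nat_lit 2187870100961804862319088872980480000000000)), (.ofNat (nat_lit 1093935050480902431159544436490240000000000)), (.ofNat (nat_lit 1093935050480902431159544436490240000000000)),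 (.ofNat (nat_lit 2187870100961804862319088872980480000000000)), (.ofNat (nat_lit 0))⟩,
    ⟨nat_lit 2, nat_lit 8, nat_lit 7, (.ofNat (nat_lit 16)), (.negSucc (nat_lit 213030377881599)), (.ofNat (nat_lit 37707601563393182212312802721229778725593346473984000000)), (.ofNat (nat_lit 1)), (.ofNat (nat_lit 352381144932268876079785103473824736739328000000000000)), (.negSucc (nat_lit 213030377881631)), (.negSucc (nat_lit 213030377881567)), (.ofNat (nat_lit 1093935050480902431159544436490240000000000)), (.ofNat (nat_lit 0)), (.ofNat (nat_lit 0)), (.ofNat (nat_lit 1093935050480902431159544436490240000000000)), (.ofNat (nat_lit 0))⟩]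
  es := [
    ⟨nat_lit 1, nat_lit 4, (.negSucc (nat_lit 549755813887999)), (.negSucc (nat_lit 274877906943999)), (.negSucc (nat_lit 549755813887967)), (.negSucc (nat_lit 274877906944031)), (.ofNat (nat_lit 1104874400985711455471139880855142400000000)), (.ofNat (nat_lit 34185470327528200973735763640320000000)), (.ofNat (nat_lit 18793661063054340057588538851937319292764160000000000))⟩,
    ⟨nat_lit 1, nat_lit 6, (.negSucc (nat_lit 549755813887999)), (.negSucc (nat_lit 219902325555199)), (.negSucc (nat_lit 549755813887967)), (.negSucc (nat_lit 219902325555455)), (.ofNat (nat_lit 0)), (.ofNat (nat_lit 0)), (.ofNat (nat_lit 0))⟩,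
    ⟨nat_lit 3, nat_lit 5, (.ofNat (nat_lit 0)), (.ofNat (nat_lit 824633720832000)), (.ofNat (nat_lit 32)), (.ofNat (nat_lit 824633720831968)), (.negSucc (nat_lit 518069407656914043023307586047836159999999)), (.ofNat (nat_lit 303965806995604920324800498368512000000)), (.ofNat (nat_lit 92323859972254445532903697110142081025703936000000000))⟩,
    ⟨nat_lit 3, nat_lit 0, (.ofNat (nat_lit 0)), (.ofNat (nat_lit 274877906944000)), (.ofNat (nat_lit 32)), (.ofNat (nat_lit 274877906943968)), (.negSucc (nat_lit 495826061630469026923063515839201279999999)), (.ofNat (nat_lit 305105322673189193690591690489856000000)), (.ofNat (nat_lit 92323859972254445532903697110142081025703936000000000))⟩,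
    ⟨nat_lit 4, nat_lit 0, (.negSucc (nat_lit 274877906943999)), (.ofNat (nat_lit 274877906944000)), (.negSucc (nat_lit 274877906943967)), (.ofNat (nat_lit 274877906943968)), (.negSucc (nat_lit 507312379660518502450238732422348799999999)), (.ofNat (nat_lit 303396049156812783641904902307840000000)), (.ofNat (nat_lit 92793701498830804034343410581440514008023040000000000))⟩,
    ⟨nat_lit 5, nat_lit 2, (.ofNat (nat_lit 824633720832000)), (.ofNat (nat_lit 1099511627776000)), (.ofNat (nat_lit 824633720832032)), (.ofNat (nat_lit 1099511627775968)), (.ofNat (nat_lit 1104874400985711455471139880855142400000000)), (.ofNat (nat_lit 34185470327528200973735763640320000000)), (.ofNat (nat_lit 314793822806160195964608025769950098153799680000000000))⟩,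
    ⟨nat_lit 6, nat_lit 7, (.negSucc (nat_lit 219902325555199)), (.negSucc (nat_lit 192414534860799)), (.negSucc (nat_lit 219902325554943)), (.negSucc (nat_lit 192414534860831)), (.ofNat (nat_lit 2187870100961804862319088872980480000000000)), (.ofNat (nat_lit 0)), (.ofNat (nat_lit 0))⟩,
    ⟨nat_lit 8, nat_lit 2, (.negSucc (nat_lit 213030377881599)), (.ofNat (nat_lit 1099511627776000)), (.negSucc (nat_lit 213030377881567)), (.ofNat (nat_lit 1099511627775968)), (.ofNat (nat_lit 0)), (.ofNat (nat_lit 0)), (.ofNat (nat_lit 352381144932268876079785103473824736739328000000000000))⟩,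
    ⟨nat_lit 8, nat_lit 7, (.negSucc (nat_lit 213030377881599)), (.negSucc (nat_lit 192414534860799)), (.negSucc (nat_lit 213030377881567)), (.negSucc (nat_lit 192414534860831)), (.ofNat (nat_lit 1093935050480902431159544436490240000000000)), (.ofNat (nat_lit 0)), (.ofNat (nat_lit 352381144931174941029304201042665192302837760000000000))⟩]

theorem ok217 : stOK 8 8 S217 = true := by decide +kernel

def S218 : SD where
  vs := [
    ⟨nat_lit 1, nat_lit 3, nat_lit 4, (.ofNat (nat_lit 16)), (.ofNat (nat_lit 274877906944000)), (.ofNat (nat_lit 13877239335440279019290535456973257862368391593984000000)), (.ofNat (nat_lit 0)), (.negSucc (nat_lit 172666761016811749279094700702174121002270719999999999)), (.ofNat (nat_lit 274877906943968)), (.ofNat (nat_lit 274877906944032)), (.negSucc (nat_lit 516911659728488421283663734852550655999999)), (.negSucc (nat_lit 528507371263585987053954905879347199999999)), (.negSucc (nat_lit 528507371263585987053954905879347199999999)), (.negSucc (nat_lit 516911659728488421283663734852550655999999)),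 (.ofNat (nat_lit 662343487595858893866130420531200000000))⟩,
    ⟨nat_lit 2, nat_lit 0, nat_lit 1, (.ofNat (nat_lit 16)), (.negSucc (nat_lit 549755813887999)), (.ofNat (nat_lit 120279437284502097135725017355140140065026473984000000)), (.ofNat (nat_lit 0)), (.ofNat (nat_lit 0)), (.negSucc (nat_lit 549755813888031)), (.negSucc (nat_lit 549755813887967)), (.ofNat (nat_lit 1107062271086673260333458969728122880000000)), (.ofNat (nat_lit 0)), (.ofNat (nat_lit 0)), (.ofNat (nat_lit 1107062271086673260333458969728122880000000)), (.ofNat (nat_lit 136741881310112803894943054561280000000))⟩,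
    ⟨nat_lit 1, nat_lit 5, nat_lit 7, (.ofNat (nat_lit 16)), (.ofNat (nat_lit 1099511627776000)), (.ofNat (nat_lit 15606256153241278304588681031351491237302694313984000000)), (.ofNat (nat_lit 0)), (.negSucc (nat_lit 345333522033623498558189401404348242004541439999999999)), (.ofNat (nat_lit 1099511627775968)), (.ofNat (nat_lit 1099511627776032)), (.ofNat (nat_lit 1107062271086673260333458969728122880000000)), (.ofNat (nat_lit 0)), (.ofNat (nat_lit 0)), (.ofNat (nat_lit 1107062271086673260333458969728122880000000)), (.ofNat (nat_lit 136741881310112803894943054561280000000))⟩,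
    ⟨nat_lit 2, nat_lit 3, nat_lit 2, (.ofNat (nat_lit 16)), (.ofNat (nat_lit 0)), (.ofNat (nat_lit 155964834436556311590682924593160166643382546857984000000)), (.ofNat (nat_lit 0)), (.negSucc (nat_lit 82104806769218648126589929109401163660263423999999999)), (.negSucc (nat_lit 31)), (.ofNat (nat_lit 32)), (.negSucc (nat_lit 516911659728488421283663734852550655999999)), (.negSucc (nat_lit 539227934758298830879318441356951551999999)), (.negSucc (nat_lit 539227934758298830879318441356951551999999)), (.negSucc (nat_lit 516911659728488421283663734852550655999999)), (.ofNat (nat_lit 661203971918274620500339228409856000000))⟩,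
    ⟨nat_lit 0, nat_lit 0, nat_lit 4, (.ofNat (nat_lit 16)), (.negSucc (nat_lit 274877906943999)), (.ofNat (nat_lit 304427239370260376309609346107924214128502305193984000000)), (.ofNat (nat_lit 0)), (.ofNat (nat_lit 9396830531527170028794269425968659646382080000000000)), (.negSucc (nat_lit 274877906944031)), (.negSucc (nat_lit 274877906943967)), (.ofNat (nat_lit 1107062271086673260333458969728122880000000)), (.negSucc (nat_lit 528507371263585987053954905879347199999999)), (.negSucc (nat_lit 528507371263585987053954905879347199999999)), (.ofNat (nat_lit 1107062271086673260333458969728122880000000)), (.ofNat (nat_lit 799085368905971697761073475092480000000))⟩,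
    ⟨nat_lit 0, nat_lit 2, nat_lit 5, (.ofNat (nat_lit 16)), (.ofNat (nat_lit 824633720832000)), (.negSucc (nat_lit 288700703779734595907884940059217582751134584406015999999)), (.ofNat (nat_lit 0)), (.negSucc (nat_lit 354730352565150668586983670830316901650923519999999999)), (.ofNat (nat_lit 824633720831968)), (.ofNat (nat_lit 824633720832032)), (.negSucc (nat_lit 539227934758298830879318441356951551999999)), (.ofNat (nat_lit 1107062271086673260333458969728122880000000)), (.negSucc (nat_lit 539227934758298830879318441356951551999999)), (.ofNat (nat_lit 1107062271086673260333458969728122880000000)), (.ofNat (nat_lit 1390778884491605642948149984100352000000))⟩,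
    ⟨nat_lit 0, nat_lit 1, nat_lit 6, (.ofNat (nat_lit 128)), (.negSucc (nat_lit 219902325555199)), (.ofNat (nat_lit 120279437284502097135725017355140140065026473984000000)), (.ofNat (nat_lit 0)), (.ofNat (nat_lit 0)), (.negSucc (nat_lit 219902325555455)), (.negSucc (nat_lit 219902325554943)), (.ofNat (nat_lit 0)), (.ofNat (nat_lit 2187870100961804862319088872980480000000000)), (.ofNat (nat_lit 0)), (.ofNat (nat_lit 2187870100961804862319088872980480000000000)), (.ofNat (nat_lit 0))⟩,
    ⟨nat_lit 1, nat_lit 6, nat_lit 8, (.ofNat (nat_lit 16)), (.negSucc (nat_lit 192414534860799)), (.ofNat (nat_lit 60259994839058390281419049343554561876910338473984000000)), (.ofNat (nat_lit 0)), (.ofNat (nat_lit 0)), (.negSucc (nat_lit 192414534860831)), (.negSucc (nat_lit 192414534860767)), (.ofNat (nat_lit 2187870100961804862319088872980480000000000)), (.ofNat (nat_lit 2165991399952186813695897984250675200000000)), (.ofNat (nat_lit 2165991399952186813695897984250675200000000)), (.ofNat (nat_lit 2187870100961804862319088872980480000000000)),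 (.ofNat (nat_lit 33501760920977636954261048367513600000000))⟩,
    ⟨nat_lit 2, nat_lit 8, nat_lit 7, (.ofNat (nat_lit 16)), (.negSucc (nat_lit 213030377881599)), (.ofNat (nat_lit 15606256153241278304588681031351491237302694313984000000)), (.ofNat (nat_lit 0)), (.negSucc (nat_lit 345333522033623498558189401404348242004541439999999999)), (.negSucc (nat_lit 213030377881631)), (.negSucc (nat_lit 213030377881567)), (.ofNat (nat_lit 2165991399952186813695897984250675200000000)), (.ofNat (nat_lit 0)), (.ofNat (nat_lit 0)), (.ofNat (nat_lit 2165991399952186813695897984250675200000000)), (.ofNat (nat_lit 67003521841955273908522096735027200000000))⟩]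
  es := [
    ⟨nat_lit 1, nat_lit 4, (.negSucc (nat_lit 549755813887999)), (.negSucc (nat_lit 274877906943999)), (.negSucc (nat_lit 549755813887967)), (.negSucc (nat_lit 274877906944031)), (.ofNat (nat_lit 1107062271086673260333458969728122880000000)), (.ofNat (nat_lit 34185470327528200973735763640320000000)), (.ofNat (nat_lit 18793661063054340057588538851937319292764160000000000))⟩,
    ⟨nat_lit 1, nat_lit 6, (.negSucc (nat_lit 549755813887999)), (.negSucc (nat_lit 219902325555199)), (.negSucc (nat_lit 549755813887967)), (.negSucc (nat_lit 219902325555455)), (.ofNat (nat_lit 0)), (.ofNat (nat_lit 0)), (.ofNat (nat_lit 0))⟩,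
    ⟨nat_lit 3, nat_lit 5, (.ofNat (nat_lit 0)), (.ofNat (nat_lit 824633720832000)), (.ofNat (nat_lit 32)), (.ofNat (nat_lit 824633720831968)), (.negSucc (nat_lit 539227934758298830879318441356951551999999)), (.negSucc (nat_lit 330601985959137310250169614204927999999)), (.negSucc (nat_lit 82104806769218648126589929109401163660263423999999999))⟩,
    ⟨nat_lit 3, nat_lit 0, (.ofNat (nat_lit 0)), (.ofNat (nat_lit 274877906944000)), (.ofNat (nat_lit 32)), (.ofNat (nat_lit 274877906943968)), (.negSucc (nat_lit 516911659728488421283663734852550655999999)), (.negSucc (nat_lit 329462470281553036884378422083583999999)), (.negSucc (nat_lit 82104806769218648126589929109401163660263423999999999))⟩,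
    ⟨nat_lit 4, nat_lit 0, (.negSucc (nat_lit 274877906943999)), (.ofNat (nat_lit 274877906944000)), (.negSucc (nat_lit 274877906943967)), (.ofNat (nat_lit 274877906943968)), (.negSucc (nat_lit 528507371263585987053954905879347199999999)), (.negSucc (nat_lit 331171743797929446933065210265599999999)), (.negSucc (nat_lit 81634965242642289625150215638102730677944319999999999))⟩,
    ⟨nat_lit 5, nat_lit 2, (.ofNat (nat_lit 824633720832000)), (.ofNat (nat_lit 1099511627776000)), (.ofNat (nat_lit 824633720832032)), (.ofNat (nat_lit 1099511627775968)), (.ofNat (nat_lit 1107062271086673260333458969728122880000000)), (.ofNat (nat_lit 34185470327528200973735763640320000000)), (.negSucc (nat_lit 382920844159732178673366479108222880590069759999999999))⟩,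
    ⟨nat_lit 6, nat_lit 7, (.negSucc (nat_lit 219902325555199)), (.negSucc (nat_lit 192414534860799)), (.negSucc (nat_lit 219902325554943)), (.negSucc (nat_lit 192414534860831)), (.ofNat (nat_lit 2187870100961804862319088872980480000000000)), (.ofNat (nat_lit 0)), (.ofNat (nat_lit 0))⟩,
    ⟨nat_lit 8, nat_lit 2, (.negSucc (nat_lit 213030377881599)), (.ofNat (nat_lit 1099511627776000)), (.negSucc (nat_lit 213030377881567)), (.ofNat (nat_lit 1099511627775968)), (.ofNat (nat_lit 0)), (.ofNat (nat_lit 0)), (.negSucc (nat_lit 345333522033623498558189401404348242004541439999999999))⟩,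
    ⟨nat_lit 8, nat_lit 7, (.negSucc (nat_lit 213030377881599)), (.negSucc (nat_lit 192414534860799)), (.negSucc (nat_lit 213030377881567)), (.negSucc (nat_lit 192414534860831)), (.ofNat (nat_lit 2165991399952186813695897984250675200000000)), (.ofNat (nat_lit 16750880460488818477130524183756800000000)), (.ofNat (nat_lit 3223112872313819319876434413107250258709053440000000000))⟩]

theorem ok218 : stOK 8 8 S218 = true := by decide +kernel

def S219 : SD where
  vs := [
    ⟨nat_lit 1, nat_lit 3, nat_lit 4, (.ofNat (nat_lit 16)), (.ofNat (nat_lit 274877906944000)), (.ofNat (nat_lit 40038015535211920379453781538870006317896102313984000000)), (.ofNat (nat_lit 0)), (.ofNat (nat_lit 408762128121431896252550720029636694617620480000000000)), (.ofNat (nat_lit 274877906943968)), (.ofNat (nat_lit 274877906944032)), (.negSucc (nat_lit 470310026578001977716267141858066431999999)), (.negSucc (nat_lit 482015131618147633729674267328511999999999)), (.negSucc (nat_lit 482015131618147633729674267328511999999999)), (.negSucc (nat_lit 470310026578001977716267141858066431999999)),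 (.ofNat (nat_lit 1459719582985454181578517107441664000000))⟩,
    ⟨nat_lit 2, nat_lit 0, nat_lit 1, (.ofNat (nat_lit 16)), (.negSucc (nat_lit 549755813887999)), (.ofNat (nat_lit 120279437284502097135725017355140140065026473984000000)), (.ofNat (nat_lit 0)), (.ofNat (nat_lit 0)), (.negSucc (nat_lit 549755813888031)), (.negSucc (nat_lit 549755813887967)), (.ofNat (nat_lit 1109250141187635065195778058601103360000000)), (.ofNat (nat_lit 0)), (.ofNat (nat_lit 0)), (.ofNat (nat_lit 1109250141187635065195778058601103360000000)), (.ofNat (nat_lit 136741881310112803894943054561280000000))⟩,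
    ⟨nat_lit 1, nat_lit 5, nat_lit 7, (.ofNat (nat_lit 16)), (.ofNat (nat_lit 1099511627776000)), (.ofNat (nat_lit 67927808552784561024915173195144988148358115753984000000)), (.ofNat (nat_lit 0)), (.ofNat (nat_lit 817524256242863792505101440059273389235240960000000000)), (.ofNat (nat_lit 1099511627775968)), (.ofNat (nat_lit 1099511627776032)), (.ofNat (nat_lit 1109250141187635065195778058601103360000000)), (.ofNat (nat_lit 0)), (.ofNat (nat_lit 0)), (.ofNat (nat_lit 1109250141187635065195778058601103360000000)), (.ofNat (nat_lit 136741881310112803894943054561280000000))⟩,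
    ⟨nat_lit 2, nat_lit 3, nat_lit 2, (.ofNat (nat_lit 16)), (.ofNat (nat_lit 0)), (.ofNat (nat_lit 169315851255750114767593822593576438268962206121984000000)), (.ofNat (nat_lit 0)), (.ofNat (nat_lit 208609637799903174639232781256504244149682176000000000)), (.negSucc (nat_lit 31)), (.ofNat (nat_lit 32)), (.negSucc (nat_lit 470310026578001977716267141858066431999999)), (.negSucc (nat_lit 492699230611177780807332484658233343999999)), (.negSucc (nat_lit 492699230611177780807332484658233343999999)), (.negSucc (nat_lit 470310026578001977716267141858066431999999)), (.ofNat (nat_lit 1458580067307869908212725915320320000000))⟩,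
    ⟨nat_lit 0, nat_lit 0, nat_lit 4, (.ofNat (nat_lit 16)), (.negSucc (nat_lit 274877906943999)), (.ofNat (nat_lit 305028636524278115191452179351186208345870758313984000000)), (.ofNat (nat_lit 0)), (.ofNat (nat_lit 9396830531527170028794269425968659646382080000000000)), (.negSucc (nat_lit 274877906944031)), (.negSucc (nat_lit 274877906943967)), (.ofNat (nat_lit 1109250141187635065195778058601103360000000)), (.negSucc (nat_lit 482015131618147633729674267328511999999999)), (.negSucc (nat_lit 482015131618147633729674267328511999999999)), (.ofNat (nat_lit 1109250141187635065195778058601103360000000)), (.ofNat (nat_lit 1452882488919948541383769954713600000000))⟩,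
    ⟨nat_lit 0, nat_lit 2, nat_lit 5, (.ofNat (nat_lit 16)), (.ofNat (nat_lit 824633720832000)), (.negSucc (nat_lit 236980548534209052069401281138686080057447616086015999999)), (.ofNat (nat_lit 0)), (.ofNat (nat_lit 808127425711336622476307170633304729588858880000000000)), (.ofNat (nat_lit 824633720831968)), (.ofNat (nat_lit 824633720832032)), (.negSucc (nat_lit 492699230611177780807332484658233343999999)), (.ofNat (nat_lit 1109250141187635065195778058601103360000000)), (.negSucc (nat_lit 492699230611177780807332484658233343999999)), (.ofNat (nat_lit 1109250141187635065195778058601103360000000)), (.ofNat (nat_lit 2839673068540009227551650766389248000000))⟩,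
    ⟨nat_lit 0, nat_lit 1, nat_lit 6, (.ofNat (nat_lit 128)), (.negSucc (nat_lit 219902325555199)), (.ofNat (nat_lit 120279437284502097135725017355140140065026473984000000)), (.ofNat (nat_lit 0)), (.ofNat (nat_lit 0)), (.negSucc (nat_lit 219902325555455)), (.negSucc (nat_lit 219902325554943)), (.ofNat (nat_lit 0)), (.ofNat (nat_lit 2187870100961804862319088872980480000000000)), (.ofNat (nat_lit 0)), (.ofNat (nat_lit 2187870100961804862319088872980480000000000)), (.ofNat (nat_lit 0))⟩,
    ⟨nat_lit 1, nat_lit 6, nat_lit 8, (.ofNat (nat_lit 16)), (.ofNat (nat_lit 2199023255552000)), (.ofNat (nat_lit 5292415234793386662314068265722904252982452482473984000000)), (.ofNat (nat_lit 37366215475200)), (.ofNat (nat_lit 81752425624286379250510144005927338923524096000000000000)), (.ofNat (nat_lit 2199023255551968)), (.ofNat (nat_lit 2199023255552032)), (.ofNat (nat_lit 2187870100961804862319088872980480000000000)), (.ofNat (nat_lit 2165991399952186813695897984250675200000000)), (.ofNat (nat_lit 2165991399952186813695897984250675200000000)),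 (.ofNat (nat_lit 2187870100961804862319088872980480000000000)), (.ofNat (nat_lit 0))⟩,
    ⟨nat_lit 2, nat_lit 8, nat_lit 7, (.ofNat (nat_lit 16)), (.negSucc (nat_lit 213030377881599)), (.ofNat (nat_lit 67927808552784561024915173195144988148358115753984000000)), (.ofNat (nat_lit 0)), (.ofNat (nat_lit 817524256242863792505101440059273389235240960000000000)), (.negSucc (nat_lit 213030377881631)), (.negSucc (nat_lit 213030377881567)), (.ofNat (nat_lit 2165991399952186813695897984250675200000000)), (.ofNat (nat_lit 0)), (.ofNat (nat_lit 0)), (.ofNat (nat_lit 2165991399952186813695897984250675200000000)), (.ofNat (nat_lit 0))⟩]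
  es := [
    ⟨nat_lit 1, nat_lit 4, (.negSucc (nat_lit 549755813887999)), (.negSucc (nat_lit 274877906943999)), (.negSucc (nat_lit 549755813887967)), (.negSucc (nat_lit 274877906944031)), (.ofNat (nat_lit 1109250141187635065195778058601103360000000)), (.ofNat (nat_lit 34185470327528200973735763640320000000)), (.ofNat (nat_lit 18793661063054340057588538851937319292764160000000000))⟩,
    ⟨nat_lit 1, nat_lit 6, (.negSucc (nat_lit 549755813887999)), (.negSucc (nat_lit 219902325555199)), (.negSucc (nat_lit 549755813887967)), (.negSucc (nat_lit 219902325555455)), (.ofNat (nat_lit 0)), (.ofNat (nat_lit 0)), (.ofNat (nat_lit 0))⟩,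
    ⟨nat_lit 3, nat_lit 5, (.ofNat (nat_lit 0)), (.ofNat (nat_lit 824633720832000)), (.ofNat (nat_lit 32)), (.ofNat (nat_lit 824633720831968)), (.negSucc (nat_lit 492699230611177780807332484658233343999999)), (.ofNat (nat_lit 727011002298766407374780573417472000000)), (.ofNat (nat_lit 208609637799903174639232781256504244149682176000000000))⟩,
    ⟨nat_lit 3, nat_lit 0, (.ofNat (nat_lit 0)), (.ofNat (nat_lit 274877906944000)), (.ofNat (nat_lit 32)), (.ofNat (nat_lit 274877906943968)), (.negSucc (nat_lit 470310026578001977716267141858066431999999)), (.ofNat (nat_lit 728150517976350680740571765538816000000)), (.ofNat (nat_lit 208609637799903174639232781256504244149682176000000000))⟩,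
    ⟨nat_lit 4, nat_lit 0, (.negSucc (nat_lit 274877906943999)), (.ofNat (nat_lit 274877906944000)), (.negSucc (nat_lit 274877906943967)), (.ofNat (nat_lit 274877906943968)), (.negSucc (nat_lit 482015131618147633729674267328511999999999)), (.ofNat (nat_lit 726441244459974270691884977356800000000)), (.ofNat (nat_lit 209079479326479533140672494727802677132001280000000000))⟩,
    ⟨nat_lit 5, nat_lit 2, (.ofNat (nat_lit 824633720832000)), (.ofNat (nat_lit 1099511627776000)), (.ofNat (nat_lit 824633720832032)), (.ofNat (nat_lit 1099511627775968)), (.ofNat (nat_lit 1109250141187635065195778058601103360000000)), (.ofNat (nat_lit 34185470327528200973735763640320000000)), (.ofNat (nat_lit 779936934116755112389924362355398750649712640000000000))⟩,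
    ⟨nat_lit 6, nat_lit 7, (.negSucc (nat_lit 219902325555199)), (.ofNat (nat_lit 2199023255552000)), (.negSucc (nat_lit 219902325554943)), (.ofNat (nat_lit 2199023255551968)), (.ofNat (nat_lit 2187870100961804862319088872980480000000000)), (.ofNat (nat_lit 0)), (.ofNat (nat_lit 0))⟩,
    ⟨nat_lit 8, nat_lit 2, (.negSucc (nat_lit 213030377881599)), (.ofNat (nat_lit 1099511627776000)), (.negSucc (nat_lit 213030377881567)), (.ofNat (nat_lit 1099511627775968)), (.ofNat (nat_lit 0)), (.ofNat (nat_lit 0)), (.ofNat (nat_lit 817524256242863792505101440059273389235240960000000000))⟩,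
    ⟨nat_lit 8, nat_lit 7, (.negSucc (nat_lit 213030377881599)), (.ofNat (nat_lit 2199023255552000)), (.negSucc (nat_lit 213030377881567)), (.ofNat (nat_lit 2199023255551968)), (.ofNat (nat_lit 2165991399952186813695897984250675200000000)), (.ofNat (nat_lit 0)), (.ofNat (nat_lit 817524256242863792505101440059273389235240960000000000))⟩]

theorem ok219 : stOK 8 8 S219 = true := by decide +kernel

def S220 : SD where
  vs := [
    ⟨nat_lit 1, nat_lit 3, nat_lit 4, (.ofNat (nat_lit 16)), (.ofNat (nat_lit 274877906944000)), (.ofNat (nat_lit 40038015535211920379453781538870006317896102313984000000)), (.ofNat (nat_lit 0)), (.ofNat (nat_lit 0)), (.ofNat (nat_lit 274877906943968)), (.ofNat (nat_lit 274877906944032)), (.negSucc (nat_lit 470802297350718383810288936854487039999999)), (.negSucc (nat_lit 482562099143388084945254039546757119999999)), (.negSucc (nat_lit 482562099143388084945254039546757119999999)), (.negSucc (nat_lit 470802297350718383810288936854487039999999)), (.ofNat (nat_lit 34185470327528200973735763640320000000))⟩,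
    ⟨nat_lit 2, nat_lit 0, nat_lit 1, (.ofNat (nat_lit 16)), (.negSucc (nat_lit 549755813887999)), (.ofNat (nat_lit 120279437284502097135725017355140140065026473984000000)), (.ofNat (nat_lit 0)), (.ofNat (nat_lit 0)), (.negSucc (nat_lit 549755813888031)), (.negSucc (nat_lit 549755813887967)), (.ofNat (nat_lit 1110344076238115967626937603037593600000000)), (.ofNat (nat_lit 0)), (.ofNat (nat_lit 0)), (.ofNat (nat_lit 1110344076238115967626937603037593600000000)), (.ofNat (nat_lit 136741881310112803894943054561280000000))⟩,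
    ⟨nat_lit 1, nat_lit 5, nat_lit 7, (.ofNat (nat_lit 16)), (.ofNat (nat_lit 1099511627776000)), (.ofNat (nat_lit 67927808552784561024915173195144988148358115753984000000)), (.ofNat (nat_lit 0)), (.ofNat (nat_lit 0)), (.ofNat (nat_lit 1099511627775968)), (.ofNat (nat_lit 1099511627776032)), (.ofNat (nat_lit 1110344076238115967626937603037593600000000)), (.ofNat (nat_lit 0)), (.ofNat (nat_lit 0)), (.ofNat (nat_lit 1110344076238115967626937603037593600000000)), (.ofNat (nat_lit 136741881310112803894943054561280000000))⟩,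
    ⟨nat_lit 2, nat_lit 3, nat_lit 2, (.ofNat (nat_lit 16)), (.ofNat (nat_lit 0)), (.ofNat (nat_lit 169451165615404106016008460073310386967870108073984000000)), (.ofNat (nat_lit 0)), (.ofNat (nat_lit 4228573739187226512957421241685896840871936000000000)), (.negSucc (nat_lit 31)), (.ofNat (nat_lit 32)), (.negSucc (nat_lit 470802297350718383810288936854487039999999)), (.negSucc (nat_lit 493227965885576883649059597802536959999999)), (.negSucc (nat_lit 493227965885576883649059597802536959999999)), (.negSucc (nat_lit 470802297350718383810288936854487039999999)), (.ofNat (nat_lit 33045954649943927607944571518976000000))⟩,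
    ⟨nat_lit 0, nat_lit 0, nat_lit 4, (.ofNat (nat_lit 16)), (.negSucc (nat_lit 274877906943999)), (.ofNat (nat_lit 305329335101286984632373595972817205454554984873984000000)), (.ofNat (nat_lit 0)), (.ofNat (nat_lit 9396830531527170028794269425968659646382080000000000)), (.negSucc (nat_lit 274877906944031)), (.negSucc (nat_lit 274877906943967)), (.ofNat (nat_lit 1110344076238115967626937603037593600000000)), (.negSucc (nat_lit 482562099143388084945254039546757119999999)), (.negSucc (nat_lit 482562099143388084945254039546757119999999)), (.ofNat (nat_lit 1110344076238115967626937603037593600000000)), (.ofNat (nat_lit 170927351637641004868678818201600000000))⟩,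
    ⟨nat_lit 0, nat_lit 2, nat_lit 5, (.ofNat (nat_lit 16)), (.ofNat (nat_lit 824633720832000)), (.negSucc (nat_lit 237281247111217921510322697760317077166131842646015999999)), (.ofNat (nat_lit 0)), (.negSucc (nat_lit 9396830531527170028794269425968659646382079999999999)), (.ofNat (nat_lit 824633720831968)), (.ofNat (nat_lit 824633720832032)), (.negSucc (nat_lit 493227965885576883649059597802536959999999)), (.ofNat (nat_lit 1110344076238115967626937603037593600000000)), (.negSucc (nat_lit 493227965885576883649059597802536959999999)), (.ofNat (nat_lit 1110344076238115967626937603037593600000000)), (.ofNat (nat_lit 134462849954944257163360670318592000000))⟩,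
    ⟨nat_lit 0, nat_lit 1, nat_lit 6, (.ofNat (nat_lit 128)), (.negSucc (nat_lit 219902325555199)), (.ofNat (nat_lit 120279437284502097135725017355140140065026473984000000)), (.ofNat (nat_lit 0)), (.ofNat (nat_lit 0)), (.negSucc (nat_lit 219902325555455)), (.negSucc (nat_lit 219902325554943)), (.ofNat (nat_lit 0)), (.ofNat (nat_lit 2187870100961804862319088872980480000000000)), (.ofNat (nat_lit 0)), (.ofNat (nat_lit 2187870100961804862319088872980480000000000)), (.ofNat (nat_lit 0))⟩,
    ⟨nat_lit 1, nat_lit 6, nat_lit 8, (.ofNat (nat_lit 16)), (.ofNat (nat_lit 2199023255552000)), (.ofNat (nat_lit 5292415234793386662314068265722904252982452482473984000000)), (.ofNat (nat_lit 0)), (.ofNat (nat_lit 0)), (.ofNat (nat_lit 2199023255551968)), (.ofNat (nat_lit 2199023255552032)), (.ofNat (nat_lit 2187870100961804862319088872980480000000000)), (.ofNat (nat_lit 2165991399952186813695897984250675200000000)), (.ofNat (nat_lit 2165991399952186813695897984250675200000000)), (.ofNat (nat_lit 2187870100961804862319088872980480000000000)),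 (.ofNat (nat_lit 0))⟩,
    ⟨nat_lit 2, nat_lit 8, nat_lit 7, (.ofNat (nat_lit 16)), (.negSucc (nat_lit 213030377881599)), (.ofNat (nat_lit 67927808552784561024915173195144988148358115753984000000)), (.ofNat (nat_lit 0)), (.ofNat (nat_lit 0)), (.negSucc (nat_lit 213030377881631)), (.negSucc (nat_lit 213030377881567)), (.ofNat (nat_lit 2165991399952186813695897984250675200000000)), (.ofNat (nat_lit 0)), (.ofNat (nat_lit 0)), (.ofNat (nat_lit 2165991399952186813695897984250675200000000)), (.ofNat (nat_lit 0))⟩]
  es := [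
    ⟨nat_lit 1, nat_lit 4, (.negSucc (nat_lit 549755813887999)), (.negSucc (nat_lit 274877906943999)), (.negSucc (nat_lit 549755813887967)), (.negSucc (nat_lit 274877906944031)), (.ofNat (nat_lit 1110344076238115967626937603037593600000000)), (.ofNat (nat_lit 34185470327528200973735763640320000000)), (.ofNat (nat_lit 18793661063054340057588538851937319292764160000000000))⟩,
    ⟨nat_lit 1, nat_lit 6, (.negSucc (nat_lit 549755813887999)), (.negSucc (nat_lit 219902325555199)), (.negSucc (nat_lit 549755813887967)), (.negSucc (nat_lit 219902325555455)), (.ofNat (nat_lit 0)), (.ofNat (nat_lit 0)), (.ofNat (nat_lit 0))⟩,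
    ⟨nat_lit 3, nat_lit 5, (.ofNat (nat_lit 0)), (.ofNat (nat_lit 824633720832000)), (.ofNat (nat_lit 32)), (.ofNat (nat_lit 824633720831968)), (.negSucc (nat_lit 493227965885576883649059597802536959999999)), (.negSucc (nat_lit 16522977324971963803972285759487999999)), (.ofNat (nat_lit 4228573739187226512957421241685896840871936000000000))⟩,
    ⟨nat_lit 3, nat_lit 0, (.ofNat (nat_lit 0)), (.ofNat (nat_lit 274877906944000)), (.ofNat (nat_lit 32)), (.ofNat (nat_lit 274877906943968)), (.negSucc (nat_lit 470802297350718383810288936854487039999999)), (.negSucc (nat_lit 15383461647387690438181093638143999999)), (.ofNat (nat_lit 4228573739187226512957421241685896840871936000000000))⟩,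
    ⟨nat_lit 4, nat_lit 0, (.negSucc (nat_lit 274877906943999)), (.ofNat (nat_lit 274877906944000)), (.negSucc (nat_lit 274877906943967)), (.ofNat (nat_lit 274877906943968)), (.negSucc (nat_lit 482562099143388084945254039546757119999999)), (.negSucc (nat_lit 17092735163764100486867881820159999999)), (.ofNat (nat_lit 4698415265763585014397134712984329823191040000000000))⟩,
    ⟨nat_lit 5, nat_lit 2, (.ofNat (nat_lit 824633720832000)), (.ofNat (nat_lit 1099511627776000)), (.ofNat (nat_lit 824633720832032)), (.ofNat (nat_lit 1099511627775968)), (.ofNat (nat_lit 1110344076238115967626937603037593600000000)), (.ofNat (nat_lit 34185470327528200973735763640320000000)), (.negSucc (nat_lit 37587322126108680115177077703874638585528319999999999))⟩,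
    ⟨nat_lit 6, nat_lit 7, (.negSucc (nat_lit 219902325555199)), (.ofNat (nat_lit 2199023255552000)), (.negSucc (nat_lit 219902325554943)), (.ofNat (nat_lit 2199023255551968)), (.ofNat (nat_lit 2187870100961804862319088872980480000000000)), (.ofNat (nat_lit 0)), (.ofNat (nat_lit 0))⟩,
    ⟨nat_lit 8, nat_lit 2, (.negSucc (nat_lit 213030377881599)), (.ofNat (nat_lit 1099511627776000)), (.negSucc (nat_lit 213030377881567)), (.ofNat (nat_lit 1099511627775968)), (.ofNat (nat_lit 0)), (.ofNat (nat_lit 0)), (.ofNat (nat_lit 0))⟩,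
    ⟨nat_lit 8, nat_lit 7, (.negSucc (nat_lit 213030377881599)), (.ofNat (nat_lit 2199023255552000)), (.negSucc (nat_lit 213030377881567)), (.ofNat (nat_lit 2199023255551968)), (.ofNat (nat_lit 2165991399952186813695897984250675200000000)), (.ofNat (nat_lit 0)), (.ofNat (nat_lit 0))⟩]

theorem ok220 : stOK 8 8 S220 = true := by decide +kernel

def S221 : SD where
  vs := [
    ⟨nat_lit 1, nat_lit 3, nat_lit 4, (.ofNat (nat_lit 16)), (.ofNat (nat_lit 274877906944000)), (.ofNat (nat_lit 40038015535211920379453781538870006317896102313984000000)), (.ofNat (nat_lit 0)), (.ofNat (nat_lit 0)), (.ofNat (nat_lit 274877906943968)), (.ofNat (nat_lit 274877906944032)), (.negSucc (nat_lit 470802297350718383810288936854487039999999)), (.negSucc (nat_lit 482562099143388084945254039546757119999999)), (.negSucc (nat_lit 482562099143388084945254039546757119999999)), (.negSucc (nat_lit 470802297350718383810288936854487039999999)), (.ofNat (nat_lit 34185470327528200973735763640320000000))⟩,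
    ⟨nat_lit 2, nat_lit 0, nat_lit 1, (.ofNat (nat_lit 16)), (.negSucc (nat_lit 549755813887999)), (.ofNat (nat_lit 120279437284502097135725017355140140065026473984000000)), (.ofNat (nat_lit 0)), (.ofNat (nat_lit 0)), (.negSucc (nat_lit 549755813888031)), (.negSucc (nat_lit 549755813887967)), (.ofNat (nat_lit 1110344076238115967626937603037593600000000)), (.ofNat (nat_lit 0)), (.ofNat (nat_lit 0)), (.ofNat (nat_lit 1110344076238115967626937603037593600000000)), (.ofNat (nat_lit 136741881310112803894943054561280000000))⟩,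
    ⟨nat_lit 1, nat_lit 5, nat_lit 7, (.ofNat (nat_lit 16)), (.ofNat (nat_lit 1099511627776000)), (.ofNat (nat_lit 67927808552784561024915173195144988148358115753984000000)), (.ofNat (nat_lit 0)), (.ofNat (nat_lit 0)), (.ofNat (nat_lit 1099511627775968)), (.ofNat (nat_lit 1099511627776032)), (.ofNat (nat_lit 1110344076238115967626937603037593600000000)), (.ofNat (nat_lit 0)), (.ofNat (nat_lit 0)), (.ofNat (nat_lit 1110344076238115967626937603037593600000000)), (.ofNat (nat_lit 136741881310112803894943054561280000000))⟩,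
    ⟨nat_lit 2, nat_lit 3, nat_lit 2, (.ofNat (nat_lit 16)), (.ofNat (nat_lit 0)), (.ofNat (nat_lit 169451165615404106016008460073310386967870108073984000000)), (.ofNat (nat_lit 0)), (.ofNat (nat_lit 4228573739187226512957421241685896840871936000000000)), (.negSucc (nat_lit 31)), (.ofNat (nat_lit 32)), (.negSucc (nat_lit 470802297350718383810288936854487039999999)), (.negSucc (nat_lit 493227965885576883649059597802536959999999)), (.negSucc (nat_lit 493227965885576883649059597802536959999999)), (.negSucc (nat_lit 470802297350718383810288936854487039999999)), (.ofNat (nat_lit 33045954649943927607944571518976000000))⟩,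
    ⟨nat_lit 0, nat_lit 0, nat_lit 4, (.ofNat (nat_lit 16)), (.negSucc (nat_lit 274877906943999)), (.ofNat (nat_lit 305329335101286984632373595972817205454554984873984000000)), (.ofNat (nat_lit 0)), (.ofNat (nat_lit 9396830531527170028794269425968659646382080000000000)), (.negSucc (nat_lit 274877906944031)), (.negSucc (nat_lit 274877906943967)), (.ofNat (nat_lit 1110344076238115967626937603037593600000000)), (.negSucc (nat_lit 482562099143388084945254039546757119999999)), (.negSucc (nat_lit 482562099143388084945254039546757119999999)), (.ofNat (nat_lit 1110344076238115967626937603037593600000000)), (.ofNat (nat_lit 170927351637641004868678818201600000000))⟩,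
    ⟨nat_lit 0, nat_lit 2, nat_lit 5, (.ofNat (nat_lit 16)), (.ofNat (nat_lit 824633720832000)), (.negSucc (nat_lit 237281247111217921510322697760317077166131842646015999999)), (.ofNat (nat_lit 0)), (.negSucc (nat_lit 9396830531527170028794269425968659646382079999999999)), (.ofNat (nat_lit 824633720831968)), (.ofNat (nat_lit 824633720832032)), (.negSucc (nat_lit 493227965885576883649059597802536959999999)), (.ofNat (nat_lit 1110344076238115967626937603037593600000000)), (.negSucc (nat_lit 493227965885576883649059597802536959999999)), (.ofNat (nat_lit 1110344076238115967626937603037593600000000)), (.ofNat (nat_lit 134462849954944257163360670318592000000))⟩,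
    ⟨nat_lit 0, nat_lit 1, nat_lit 6, (.ofNat (nat_lit 128)), (.negSucc (nat_lit 219902325555199)), (.ofNat (nat_lit 120279437284502097135725017355140140065026473984000000)), (.ofNat (nat_lit 0)), (.ofNat (nat_lit 0)), (.negSucc (nat_lit 219902325555455)), (.negSucc (nat_lit 219902325554943)), (.ofNat (nat_lit 0)), (.ofNat (nat_lit 2187870100961804862319088872980480000000000)), (.ofNat (nat_lit 0)), (.ofNat (nat_lit 2187870100961804862319088872980480000000000)), (.ofNat (nat_lit 0))⟩,
    ⟨nat_lit 1, nat_lit 6, nat_lit 9, (.ofNat (nat_lit 16)), (.ofNat (nat_lit 2199023255552000)), (.ofNat (nat_lit 5292415234793386662314068265722904252982452482473984000000)), (.ofNat (nat_lit 0)), (.ofNat (nat_lit 0)), (.ofNat (nat_lit 2199023255551968)), (.ofNat (nat_lit 2199023255552032)), (.ofNat (nat_lit 2187870100961804862319088872980480000000000)), (.ofNat (nat_lit 2165991399952186813695897984250675200000000)), (.ofNat (nat_lit 2165991399952186813695897984250675200000000)), (.ofNat (nat_lit 2187870100961804862319088872980480000000000)),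 (.ofNat (nat_lit 0))⟩,
    ⟨nat_lit 2, nat_lit 8, nat_lit 7, (.ofNat (nat_lit 16)), (.negSucc (nat_lit 213030377881599)), (.ofNat (nat_lit 67927808552784561024915173195144988148358115753984000000)), (.ofNat (nat_lit 0)), (.ofNat (nat_lit 0)), (.negSucc (nat_lit 213030377881631)), (.negSucc (nat_lit 213030377881567)), (.ofNat (nat_lit 2165991399952186813695897984250675200000000)), (.ofNat (nat_lit 0)), (.ofNat (nat_lit 0)), (.ofNat (nat_lit 2165991399952186813695897984250675200000000)), (.ofNat (nat_lit 0))⟩,
    ⟨nat_lit 0, nat_lit 8, nat_lit 9, (.ofNat (nat_lit 16)), (.ofNat (nat_lit 1374389534720000)), (.ofNat (nat_lit 3506265687360702183240853533234781427398146716073984000000)), (.ofNat (nat_lit 0)), (.ofNat (nat_lit 0)), (.ofNat (nat_lit 1374389534719968)), (.ofNat (nat_lit 1374389534720032)), (.ofNat (nat_lit 2165991399952186813695897984250675200000000)), (.ofNat (nat_lit 2165991399952186813695897984250675200000000)), (.ofNat (nat_lit 2165991399952186813695897984250675200000000)), (.ofNat (nat_lit 2165991399952186813695897984250675200000000)),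 (.ofNat (nat_lit 0))⟩]
  es := [
    ⟨nat_lit 1, nat_lit 4, (.negSucc (nat_lit 549755813887999)), (.negSucc (nat_lit 274877906943999)), (.negSucc (nat_lit 549755813887967)), (.negSucc (nat_lit 274877906944031)), (.ofNat (nat_lit 1110344076238115967626937603037593600000000)), (.ofNat (nat_lit 34185470327528200973735763640320000000)), (.ofNat (nat_lit 18793661063054340057588538851937319292764160000000000))⟩,
    ⟨nat_lit 1, nat_lit 6, (.negSucc (nat_lit 549755813887999)), (.negSucc (nat_lit 219902325555199)), (.negSucc (nat_lit 549755813887967)), (.negSucc (nat_lit 219902325555455)), (.ofNat (nat_lit 0)), (.ofNat (nat_lit 0)), (.ofNat (nat_lit 0))⟩,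
    ⟨nat_lit 3, nat_lit 5, (.ofNat (nat_lit 0)), (.ofNat (nat_lit 824633720832000)), (.ofNat (nat_lit 32)), (.ofNat (nat_lit 824633720831968)), (.negSucc (nat_lit 493227965885576883649059597802536959999999)), (.negSucc (nat_lit 16522977324971963803972285759487999999)), (.ofNat (nat_lit 4228573739187226512957421241685896840871936000000000))⟩,
    ⟨nat_lit 3, nat_lit 0, (.ofNat (nat_lit 0)), (.ofNat (nat_lit 274877906944000)), (.ofNat (nat_lit 32)), (.ofNat (nat_lit 274877906943968)), (.negSucc (nat_lit 470802297350718383810288936854487039999999)), (.negSucc (nat_lit 15383461647387690438181093638143999999)), (.ofNat (nat_lit 4228573739187226512957421241685896840871936000000000))⟩,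
    ⟨nat_lit 4, nat_lit 0, (.negSucc (nat_lit 274877906943999)), (.ofNat (nat_lit 274877906944000)), (.negSucc (nat_lit 274877906943967)), (.ofNat (nat_lit 274877906943968)), (.negSucc (nat_lit 482562099143388084945254039546757119999999)), (.negSucc (nat_lit 17092735163764100486867881820159999999)), (.ofNat (nat_lit 4698415265763585014397134712984329823191040000000000))⟩,
    ⟨nat_lit 5, nat_lit 2, (.ofNat (nat_lit 824633720832000)), (.ofNat (nat_lit 1099511627776000)), (.ofNat (nat_lit 824633720832032)), (.ofNat (nat_lit 1099511627775968)), (.ofNat (nat_lit 1110344076238115967626937603037593600000000)), (.ofNat (nat_lit 34185470327528200973735763640320000000)), (.negSucc (nat_lit 37587322126108680115177077703874638585528319999999999))⟩,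
    ⟨nat_lit 6, nat_lit 7, (.negSucc (nat_lit 219902325555199)), (.ofNat (nat_lit 2199023255552000)), (.negSucc (nat_lit 219902325554943)), (.ofNat (nat_lit 2199023255551968)), (.ofNat (nat_lit 2187870100961804862319088872980480000000000)), (.ofNat (nat_lit 0)), (.ofNat (nat_lit 0))⟩,
    ⟨nat_lit 8, nat_lit 2, (.negSucc (nat_lit 213030377881599)), (.ofNat (nat_lit 1099511627776000)), (.negSucc (nat_lit 213030377881567)), (.ofNat (nat_lit 1099511627775968)), (.ofNat (nat_lit 0)), (.ofNat (nat_lit 0)), (.ofNat (nat_lit 0))⟩,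
    ⟨nat_lit 8, nat_lit 9, (.negSucc (nat_lit 213030377881599)), (.ofNat (nat_lit 1374389534720000)), (.negSucc (nat_lit 213030377881567)), (.ofNat (nat_lit 1374389534719968)), (.ofNat (nat_lit 2165991399952186813695897984250675200000000)), (.ofNat (nat_lit 0)), (.ofNat (nat_lit 0))⟩,
    ⟨nat_lit 9, nat_lit 7, (.ofNat (nat_lit 1374389534720000)), (.ofNat (nat_lit 2199023255552000)), (.ofNat (nat_lit 1374389534720032)), (.ofNat (nat_lit 2199023255551968)), (.ofNat (nat_lit 2165991399952186813695897984250675200000000)), (.ofNat (nat_lit 0)), (.ofNat (nat_lit 0))⟩]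

theorem ok221 : stOK 9 9 S221 = true := by decide +kernel

def S222 : SD where
  vs := [
    ⟨nat_lit 1, nat_lit 3, nat_lit 4, (.ofNat (nat_lit 16)), (.ofNat (nat_lit 274877906944000)), (.ofNat (nat_lit 40038015535211920379453781538870006317896102313984000000)), (.ofNat (nat_lit 0)), (.ofNat (nat_lit 0)), (.ofNat (nat_lit 274877906943968)), (.ofNat (nat_lit 274877906944032)), (.negSucc (nat_lit 470802297350718383810288936854487039999999)), (.negSucc (nat_lit 482562099143388084945254039546757119999999)), (.negSucc (nat_lit 482562099143388084945254039546757119999999)), (.negSucc (nat_lit 470802297350718383810288936854487039999999)), (.ofNat (nat_lit 34185470327528200973735763640320000000))⟩,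
    ⟨nat_lit 2, nat_lit 0, nat_lit 1, (.ofNat (nat_lit 16)), (.negSucc (nat_lit 549755813887999)), (.ofNat (nat_lit 120279437284502097135725017355140140065026473984000000)), (.ofNat (nat_lit 0)), (.ofNat (nat_lit 0)), (.negSucc (nat_lit 549755813888031)), (.negSucc (nat_lit 549755813887967)), (.ofNat (nat_lit 1110344076238115967626937603037593600000000)), (.ofNat (nat_lit 0)), (.ofNat (nat_lit 0)), (.ofNat (nat_lit 1110344076238115967626937603037593600000000)), (.ofNat (nat_lit 136741881310112803894943054561280000000))⟩,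
    ⟨nat_lit 1, nat_lit 5, nat_lit 7, (.ofNat (nat_lit 16)), (.ofNat (nat_lit 1099511627776000)), (.ofNat (nat_lit 67927808552784561024915173195144988148358115753984000000)), (.ofNat (nat_lit 0)), (.ofNat (nat_lit 0)), (.ofNat (nat_lit 1099511627775968)), (.ofNat (nat_lit 1099511627776032)), (.ofNat (nat_lit 1110344076238115967626937603037593600000000)), (.ofNat (nat_lit 0)), (.ofNat (nat_lit 0)), (.ofNat (nat_lit 1110344076238115967626937603037593600000000)), (.ofNat (nat_lit 136741881310112803894943054561280000000))⟩,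
    ⟨nat_lit 2, nat_lit 3, nat_lit 2, (.ofNat (nat_lit 16)), (.ofNat (nat_lit 0)), (.ofNat (nat_lit 169451165615404106016008460073310386967870108073984000000)), (.ofNat (nat_lit 0)), (.ofNat (nat_lit 4228573739187226512957421241685896840871936000000000)), (.negSucc (nat_lit 31)), (.ofNat (nat_lit 32)), (.negSucc (nat_lit 470802297350718383810288936854487039999999)), (.negSucc (nat_lit 493227965885576883649059597802536959999999)), (.negSucc (nat_lit 493227965885576883649059597802536959999999)), (.negSucc (nat_lit 470802297350718383810288936854487039999999)), (.ofNat (nat_lit 33045954649943927607944571518976000000))⟩,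
    ⟨nat_lit 0, nat_lit 0, nat_lit 4, (.ofNat (nat_lit 16)), (.negSucc (nat_lit 274877906943999)), (.ofNat (nat_lit 305329335101286984632373595972817205454554984873984000000)), (.ofNat (nat_lit 0)), (.ofNat (nat_lit 9396830531527170028794269425968659646382080000000000)), (.negSucc (nat_lit 274877906944031)), (.negSucc (nat_lit 274877906943967)), (.ofNat (nat_lit 1110344076238115967626937603037593600000000)), (.negSucc (nat_lit 482562099143388084945254039546757119999999)), (.negSucc (nat_lit 482562099143388084945254039546757119999999)), (.ofNat (nat_lit 1110344076238115967626937603037593600000000)), (.ofNat (nat_lit 170927351637641004868678818201600000000))⟩,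
    ⟨nat_lit 0, nat_lit 2, nat_lit 5, (.ofNat (nat_lit 16)), (.ofNat (nat_lit 824633720832000)), (.negSucc (nat_lit 237281247111217921510322697760317077166131842646015999999)), (.ofNat (nat_lit 0)), (.negSucc (nat_lit 9396830531527170028794269425968659646382079999999999)), (.ofNat (nat_lit 824633720831968)), (.ofNat (nat_lit 824633720832032)), (.negSucc (nat_lit 493227965885576883649059597802536959999999)), (.ofNat (nat_lit 1110344076238115967626937603037593600000000)), (.negSucc (nat_lit 493227965885576883649059597802536959999999)), (.ofNat (nat_lit 1110344076238115967626937603037593600000000)), (.ofNat (nat_lit 134462849954944257163360670318592000000))⟩,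
    ⟨nat_lit 0, nat_lit 1, nat_lit 6, (.ofNat (nat_lit 128)), (.negSucc (nat_lit 219902325555199)), (.ofNat (nat_lit 120279437284502097135725017355140140065026473984000000)), (.ofNat (nat_lit 0)), (.ofNat (nat_lit 0)), (.negSucc (nat_lit 219902325555455)), (.negSucc (nat_lit 219902325554943)), (.ofNat (nat_lit 0)), (.ofNat (nat_lit 2187870100961804862319088872980480000000000)), (.ofNat (nat_lit 0)), (.ofNat (nat_lit 2187870100961804862319088872980480000000000)), (.ofNat (nat_lit 0))⟩,
    ⟨nat_lit 1, nat_lit 6, nat_lit 10, (.ofNat (nat_lit 16)), (.ofNat (nat_lit 2199023255552000)), (.ofNat (nat_lit 5292415234793386662314068265722904252982452482473984000000)), (.ofNat (nat_lit 0)), (.ofNat (nat_lit 0)), (.ofNat (nat_lit 2199023255551968)), (.ofNat (nat_lit 2199023255552032)), (.ofNat (nat_lit 2187870100961804862319088872980480000000000)), (.ofNat (nat_lit 2165991399952186813695897984250675200000000)), (.ofNat (nat_lit 2165991399952186813695897984250675200000000)), (.ofNat (nat_lit 2187870100961804862319088872980480000000000)),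 (.ofNat (nat_lit 0))⟩,
    ⟨nat_lit 2, nat_lit 8, nat_lit 7, (.ofNat (nat_lit 16)), (.negSucc (nat_lit 213030377881599)), (.ofNat (nat_lit 67927808552784561024915173195144988148358115753984000000)), (.ofNat (nat_lit 0)), (.ofNat (nat_lit 0)), (.negSucc (nat_lit 213030377881631)), (.negSucc (nat_lit 213030377881567)), (.ofNat (nat_lit 2165991399952186813695897984250675200000000)), (.ofNat (nat_lit 0)), (.ofNat (nat_lit 0)), (.ofNat (nat_lit 2165991399952186813695897984250675200000000)), (.ofNat (nat_lit 0))⟩,
    ⟨nat_lit 0, nat_lit 8, nat_lit 9, (.ofNat (nat_lit 16)), (.ofNat (nat_lit 1374389534720000)), (.ofNat (nat_lit 3506265687360702183240853533234781427398146716073984000000)), (.ofNat (nat_lit 0)), (.ofNat (nat_lit 0)), (.ofNat (nat_lit 1374389534719968)), (.ofNat (nat_lit 1374389534720032)), (.ofNat (nat_lit 2165991399952186813695897984250675200000000)), (.ofNat (nat_lit 2165991399952186813695897984250675200000000)), (.ofNat (nat_lit 2165991399952186813695897984250675200000000)), (.ofNat (nat_lit 2165991399952186813695897984250675200000000)),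 (.ofNat (nat_lit 0))⟩,
    ⟨nat_lit 0, nat_lit 9, nat_lit 10, (.ofNat (nat_lit 16)), (.ofNat (nat_lit 1429365116108800)), (.ofNat (nat_lit 3625342323856214481845734515400656282437100433833984000000)), (.ofNat (nat_lit 0)), (.ofNat (nat_lit 0)), (.ofNat (nat_lit 1429365116108768)), (.ofNat (nat_lit 1429365116108832)), (.ofNat (nat_lit 2165991399952186813695897984250675200000000)), (.ofNat (nat_lit 2165991399952186813695897984250675200000000)), (.ofNat (nat_lit 2165991399952186813695897984250675200000000)), (.ofNat (nat_lit 2165991399952186813695897984250675200000000)), (.ofNat (nat_lit 0))⟩]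
  es := [
    ⟨nat_lit 1, nat_lit 4, (.negSucc (nat_lit 549755813887999)), (.negSucc (nat_lit 274877906943999)), (.negSucc (nat_lit 549755813887967)), (.negSucc (nat_lit 274877906944031)), (.ofNat (nat_lit 1110344076238115967626937603037593600000000)), (.ofNat (nat_lit 34185470327528200973735763640320000000)), (.ofNat (nat_lit 18793661063054340057588538851937319292764160000000000))⟩,
    ⟨nat_lit 1, nat_lit 6, (.negSucc (nat_lit 549755813887999)), (.negSucc (nat_lit 219902325555199)), (.negSucc (nat_lit 549755813887967)), (.negSucc (nat_lit 219902325555455)), (.ofNat (nat_lit 0)), (.ofNat (nat_lit 0)), (.ofNat (nat_lit 0))⟩,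
    ⟨nat_lit 3, nat_lit 5, (.ofNat (nat_lit 0)), (.ofNat (nat_lit 824633720832000)), (.ofNat (nat_lit 32)), (.ofNat (nat_lit 824633720831968)), (.negSucc (nat_lit 493227965885576883649059597802536959999999)), (.negSucc (nat_lit 16522977324971963803972285759487999999)), (.ofNat (nat_lit 4228573739187226512957421241685896840871936000000000))⟩,
    ⟨nat_lit 3, nat_lit 0, (.ofNat (nat_lit 0)), (.ofNat (nat_lit 274877906944000)), (.ofNat (nat_lit 32)), (.ofNat (nat_lit 274877906943968)), (.negSucc (nat_lit 470802297350718383810288936854487039999999)), (.negSucc (nat_lit 15383461647387690438181093638143999999)), (.ofNat (nat_lit 4228573739187226512957421241685896840871936000000000))⟩,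
    ⟨nat_lit 4, nat_lit 0, (.negSucc (nat_lit 274877906943999)), (.ofNat (nat_lit 274877906944000)), (.negSucc (nat_lit 274877906943967)), (.ofNat (nat_lit 274877906943968)), (.negSucc (nat_lit 482562099143388084945254039546757119999999)), (.negSucc (nat_lit 17092735163764100486867881820159999999)), (.ofNat (nat_lit 4698415265763585014397134712984329823191040000000000))⟩,
    ⟨nat_lit 5, nat_lit 2, (.ofNat (nat_lit 824633720832000)), (.ofNat (nat_lit 1099511627776000)), (.ofNat (nat_lit 824633720832032)), (.ofNat (nat_lit 1099511627775968)), (.ofNat (nat_lit 1110344076238115967626937603037593600000000)), (.ofNat (nat_lit 34185470327528200973735763640320000000)), (.negSucc (nat_lit 37587322126108680115177077703874638585528319999999999))⟩,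
    ⟨nat_lit 6, nat_lit 7, (.negSucc (nat_lit 219902325555199)), (.ofNat (nat_lit 2199023255552000)), (.negSucc (nat_lit 219902325554943)), (.ofNat (nat_lit 2199023255551968)), (.ofNat (nat_lit 2187870100961804862319088872980480000000000)), (.ofNat (nat_lit 0)), (.ofNat (nat_lit 0))⟩,
    ⟨nat_lit 8, nat_lit 2, (.negSucc (nat_lit 213030377881599)), (.ofNat (nat_lit 1099511627776000)), (.negSucc (nat_lit 213030377881567)), (.ofNat (nat_lit 1099511627775968)), (.ofNat (nat_lit 0)), (.ofNat (nat_lit 0)), (.ofNat (nat_lit 0))⟩,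
    ⟨nat_lit 8, nat_lit 9, (.negSucc (nat_lit 213030377881599)), (.ofNat (nat_lit 1374389534720000)), (.negSucc (nat_lit 213030377881567)), (.ofNat (nat_lit 1374389534719968)), (.ofNat (nat_lit 2165991399952186813695897984250675200000000)), (.ofNat (nat_lit 0)), (.ofNat (nat_lit 0))⟩,
    ⟨nat_lit 9, nat_lit 10, (.ofNat (nat_lit 1374389534720000)), (.ofNat (nat_lit 1429365116108800)), (.ofNat (nat_lit 1374389534720032)), (.ofNat (nat_lit 1429365116108768)), (.ofNat (nat_lit 2165991399952186813695897984250675200000000)), (.ofNat (nat_lit 0)), (.ofNat (nat_lit 0))⟩,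
    ⟨nat_lit 10, nat_lit 7, (.ofNat (nat_lit 1429365116108800)), (.ofNat (nat_lit 2199023255552000)), (.ofNat (nat_lit 1429365116108832)), (.ofNat (nat_lit 2199023255551968)), (.ofNat (nat_lit 2165991399952186813695897984250675200000000)), (.ofNat (nat_lit 0)), (.ofNat (nat_lit 0))⟩]

theorem ok222 : stOK 10 10 S222 = true := by decide +kernel

def S223 : SD where
  vs := [
    ⟨nat_lit 1, nat_lit 3, nat_lit 4, (.ofNat (nat_lit 16)), (.ofNat (nat_lit 274877906944000)), (.ofNat (nat_lit 40038015535211920379453781538870006317896102313984000000)), (.ofNat (nat_lit 0)), (.ofNat (nat_lit 0)), (.ofNat (nat_lit 274877906943968)), (.ofNat (nat_lit 274877906944032)), (.negSucc (nat_lit 470802297350718383810288936854487039999999)), (.negSucc (nat_lit 482562099143388084945254039546757119999999)), (.negSucc (nat_lit 482562099143388084945254039546757119999999)), (.negSucc (nat_lit 470802297350718383810288936854487039999999)), (.ofNat (nat_lit 34185470327528200973735763640320000000))⟩,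
    ⟨nat_lit 2, nat_lit 0, nat_lit 1, (.ofNat (nat_lit 16)), (.negSucc (nat_lit 549755813887999)), (.ofNat (nat_lit 120279437284502097135725017355140140065026473984000000)), (.ofNat (nat_lit 0)), (.ofNat (nat_lit 0)), (.negSucc (nat_lit 549755813888031)), (.negSucc (nat_lit 549755813887967)), (.ofNat (nat_lit 1110344076238115967626937603037593600000000)), (.ofNat (nat_lit 0)), (.ofNat (nat_lit 0)), (.ofNat (nat_lit 1110344076238115967626937603037593600000000)), (.ofNat (nat_lit 136741881310112803894943054561280000000))⟩,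
    ⟨nat_lit 1, nat_lit 5, nat_lit 7, (.ofNat (nat_lit 16)), (.ofNat (nat_lit 1099511627776000)), (.ofNat (nat_lit 67927808552784561024915173195144988148358115753984000000)), (.ofNat (nat_lit 0)), (.ofNat (nat_lit 0)), (.ofNat (nat_lit 1099511627775968)), (.ofNat (nat_lit 1099511627776032)), (.ofNat (nat_lit 1110344076238115967626937603037593600000000)), (.ofNat (nat_lit 0)), (.ofNat (nat_lit 0)), (.ofNat (nat_lit 1110344076238115967626937603037593600000000)), (.ofNat (nat_lit 136741881310112803894943054561280000000))⟩,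
    ⟨nat_lit 2, nat_lit 3, nat_lit 2, (.ofNat (nat_lit 16)), (.ofNat (nat_lit 0)), (.ofNat (nat_lit 169451165615404106016008460073310386967870108073984000000)), (.ofNat (nat_lit 0)), (.ofNat (nat_lit 4228573739187226512957421241685896840871936000000000)), (.negSucc (nat_lit 31)), (.ofNat (nat_lit 32)), (.negSucc (nat_lit 470802297350718383810288936854487039999999)), (.negSucc (nat_lit 493227965885576883649059597802536959999999)), (.negSucc (nat_lit 493227965885576883649059597802536959999999)), (.negSucc (nat_lit 470802297350718383810288936854487039999999)), (.ofNat (nat_lit 33045954649943927607944571518976000000))⟩,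
    ⟨nat_lit 0, nat_lit 0, nat_lit 4, (.ofNat (nat_lit 16)), (.negSucc (nat_lit 274877906943999)), (.ofNat (nat_lit 305329335101286984632373595972817205454554984873984000000)), (.ofNat (nat_lit 0)), (.ofNat (nat_lit 9396830531527170028794269425968659646382080000000000)), (.negSucc (nat_lit 274877906944031)), (.negSucc (nat_lit 274877906943967)), (.ofNat (nat_lit 1110344076238115967626937603037593600000000)), (.negSucc (nat_lit 482562099143388084945254039546757119999999)), (.negSucc (nat_lit 482562099143388084945254039546757119999999)), (.ofNat (nat_lit 1110344076238115967626937603037593600000000)), (.ofNat (nat_lit 170927351637641004868678818201600000000))⟩,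
    ⟨nat_lit 0, nat_lit 2, nat_lit 5, (.ofNat (nat_lit 16)), (.ofNat (nat_lit 824633720832000)), (.negSucc (nat_lit 237281247111217921510322697760317077166131842646015999999)), (.ofNat (nat_lit 0)), (.negSucc (nat_lit 9396830531527170028794269425968659646382079999999999)), (.ofNat (nat_lit 824633720831968)), (.ofNat (nat_lit 824633720832032)), (.negSucc (nat_lit 493227965885576883649059597802536959999999)), (.ofNat (nat_lit 1110344076238115967626937603037593600000000)), (.negSucc (nat_lit 493227965885576883649059597802536959999999)), (.ofNat (nat_lit 1110344076238115967626937603037593600000000)), (.ofNat (nat_lit 134462849954944257163360670318592000000))⟩,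
    ⟨nat_lit 0, nat_lit 1, nat_lit 6, (.ofNat (nat_lit 128)), (.negSucc (nat_lit 219902325555199)), (.ofNat (nat_lit 120279437284502097135725017355140140065026473984000000)), (.ofNat (nat_lit 0)), (.ofNat (nat_lit 0)), (.negSucc (nat_lit 219902325555455)), (.negSucc (nat_lit 219902325554943)), (.ofNat (nat_lit 0)), (.ofNat (nat_lit 2187870100961804862319088872980480000000000)), (.ofNat (nat_lit 0)), (.ofNat (nat_lit 2187870100961804862319088872980480000000000)), (.ofNat (nat_lit 0))⟩,
    ⟨nat_lit 1, nat_lit 6, nat_lit 11, (.ofNat (nat_lit 16)), (.ofNat (nat_lit 2199023255552000)), (.ofNat (nat_lit 5292415234793386662314068265722904252982452482473984000000)), (.ofNat (nat_lit 0)), (.ofNat (nat_lit 0)), (.ofNat (nat_lit 2199023255551968)), (.ofNat (nat_lit 2199023255552032)), (.ofNat (nat_lit 2187870100961804862319088872980480000000000)), (.ofNat (nat_lit 2165991399952186813695897984250675200000000)), (.ofNat (nat_lit 2165991399952186813695897984250675200000000)), (.ofNat (nat_lit 2187870100961804862319088872980480000000000)),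 (.ofNat (nat_lit 0))⟩,
    ⟨nat_lit 2, nat_lit 8, nat_lit 7, (.ofNat (nat_lit 16)), (.negSucc (nat_lit 213030377881599)), (.ofNat (nat_lit 67927808552784561024915173195144988148358115753984000000)), (.ofNat (nat_lit 0)), (.ofNat (nat_lit 0)), (.negSucc (nat_lit 213030377881631)), (.negSucc (nat_lit 213030377881567)), (.ofNat (nat_lit 2165991399952186813695897984250675200000000)), (.ofNat (nat_lit 0)), (.ofNat (nat_lit 0)), (.ofNat (nat_lit 2165991399952186813695897984250675200000000)), (.ofNat (nat_lit 0))⟩,
    ⟨nat_lit 0, nat_lit 8, nat_lit 9, (.ofNat (nat_lit 16)), (.ofNat (nat_lit 1374389534720000)), (.ofNat (nat_lit 3506265687360702183240853533234781427398146716073984000000)), (.ofNat (nat_lit 0)), (.ofNat (nat_lit 0)), (.ofNat (nat_lit 1374389534719968)), (.ofNat (nat_lit 1374389534720032)), (.ofNat (nat_lit 2165991399952186813695897984250675200000000)), (.ofNat (nat_lit 2165991399952186813695897984250675200000000)), (.ofNat (nat_lit 2165991399952186813695897984250675200000000)), (.ofNat (nat_lit 2165991399952186813695897984250675200000000)),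 (.ofNat (nat_lit 0))⟩,
    ⟨nat_lit 0, nat_lit 9, nat_lit 10, (.ofNat (nat_lit 16)), (.ofNat (nat_lit 1429365116108800)), (.ofNat (nat_lit 3625342323856214481845734515400656282437100433833984000000)), (.ofNat (nat_lit 0)), (.ofNat (nat_lit 0)), (.ofNat (nat_lit 1429365116108768)), (.ofNat (nat_lit 1429365116108832)), (.ofNat (nat_lit 2165991399952186813695897984250675200000000)), (.ofNat (nat_lit 2165991399952186813695897984250675200000000)), (.ofNat (nat_lit 2165991399952186813695897984250675200000000)), (.ofNat (nat_lit 2165991399952186813695897984250675200000000)), (.ofNat (nat_lit 0))⟩,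
    ⟨nat_lit 0, nat_lit 10, nat_lit 11, (.ofNat (nat_lit 16)), (.ofNat (nat_lit 1649267441664000)), (.ofNat (nat_lit 4101648869838263676265258444064155702592915304873984000000)), (.ofNat (nat_lit 0)), (.ofNat (nat_lit 0)), (.ofNat (nat_lit 1649267441663968)), (.ofNat (nat_lit 1649267441664032)), (.ofNat (nat_lit 2165991399952186813695897984250675200000000)), (.ofNat (nat_lit 2165991399952186813695897984250675200000000)), (.ofNat (nat_lit 2165991399952186813695897984250675200000000)), (.ofNat (nat_lit 2165991399952186813695897984250675200000000)), (.ofNat (nat_lit 0))⟩]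
  es := [
    ⟨nat_lit 1, nat_lit 4, (.negSucc (nat_lit 549755813887999)), (.negSucc (nat_lit 274877906943999)), (.negSucc (nat_lit 549755813887967)), (.negSucc (nat_lit 274877906944031)), (.ofNat (nat_lit 1110344076238115967626937603037593600000000)), (.ofNat (nat_lit 34185470327528200973735763640320000000)), (.ofNat (nat_lit 18793661063054340057588538851937319292764160000000000))⟩,
    ⟨nat_lit 1, nat_lit 6, (.negSucc (nat_lit 549755813887999)), (.negSucc (nat_lit 219902325555199)), (.negSucc (nat_lit 549755813887967)), (.negSucc (nat_lit 219902325555455)), (.ofNat (nat_lit 0)), (.ofNat (nat_lit 0)), (.ofNat (nat_lit 0))⟩,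
    ⟨nat_lit 3, nat_lit 5, (.ofNat (nat_lit 0)), (.ofNat (nat_lit 824633720832000)), (.ofNat (nat_lit 32)), (.ofNat (nat_lit 824633720831968)), (.negSucc (nat_lit 493227965885576883649059597802536959999999)), (.negSucc (nat_lit 16522977324971963803972285759487999999)), (.ofNat (nat_lit 4228573739187226512957421241685896840871936000000000))⟩,
    ⟨nat_lit 3, nat_lit 0, (.ofNat (nat_lit 0)), (.ofNat (nat_lit 274877906944000)), (.ofNat (nat_lit 32)), (.ofNat (nat_lit 274877906943968)), (.negSucc (nat_lit 470802297350718383810288936854487039999999)), (.negSucc (nat_lit 15383461647387690438181093638143999999)), (.ofNat (nat_lit 4228573739187226512957421241685896840871936000000000))⟩,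
    ⟨nat_lit 4, nat_lit 0, (.negSucc (nat_lit 274877906943999)), (.ofNat (nat_lit 274877906944000)), (.negSucc (nat_lit 274877906943967)), (.ofNat (nat_lit 274877906943968)), (.negSucc (nat_lit 482562099143388084945254039546757119999999)), (.negSucc (nat_lit 17092735163764100486867881820159999999)), (.ofNat (nat_lit 4698415265763585014397134712984329823191040000000000))⟩,
    ⟨nat_lit 5, nat_lit 2, (.ofNat (nat_lit 824633720832000)), (.ofNat (nat_lit 1099511627776000)), (.ofNat (nat_lit 824633720832032)), (.ofNat (nat_lit 1099511627775968)), (.ofNat (nat_lit 1110344076238115967626937603037593600000000)), (.ofNat (nat_lit 34185470327528200973735763640320000000)), (.negSucc (nat_lit 37587322126108680115177077703874638585528319999999999))⟩,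
    ⟨nat_lit 6, nat_lit 7, (.negSucc (nat_lit 219902325555199)), (.ofNat (nat_lit 2199023255552000)), (.negSucc (nat_lit 219902325554943)), (.ofNat (nat_lit 2199023255551968)), (.ofNat (nat_lit 2187870100961804862319088872980480000000000)), (.ofNat (nat_lit 0)), (.ofNat (nat_lit 0))⟩,
    ⟨nat_lit 8, nat_lit 2, (.negSucc (nat_lit 213030377881599)), (.ofNat (nat_lit 1099511627776000)), (.negSucc (nat_lit 213030377881567)), (.ofNat (nat_lit 1099511627775968)), (.ofNat (nat_lit 0)), (.ofNat (nat_lit 0)), (.ofNat (nat_lit 0))⟩,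
    ⟨nat_lit 8, nat_lit 9, (.negSucc (nat_lit 213030377881599)), (.ofNat (nat_lit 1374389534720000)), (.negSucc (nat_lit 213030377881567)), (.ofNat (nat_lit 1374389534719968)), (.ofNat (nat_lit 2165991399952186813695897984250675200000000)), (.ofNat (nat_lit 0)), (.ofNat (nat_lit 0))⟩,
    ⟨nat_lit 9, nat_lit 10, (.ofNat (nat_lit 1374389534720000)), (.ofNat (nat_lit 1429365116108800)), (.ofNat (nat_lit 1374389534720032)), (.ofNat (nat_lit 1429365116108768)), (.ofNat (nat_lit 2165991399952186813695897984250675200000000)), (.ofNat (nat_lit 0)), (.ofNat (nat_lit 0))⟩,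
    ⟨nat_lit 10, nat_lit 11, (.ofNat (nat_lit 1429365116108800)), (.ofNat (nat_lit 1649267441664000)), (.ofNat (nat_lit 1429365116108832)), (.ofNat (nat_lit 1649267441663968)), (.ofNat (nat_lit 2165991399952186813695897984250675200000000)), (.ofNat (nat_lit 0)), (.ofNat (nat_lit 0))⟩,
    ⟨nat_lit 11, nat_lit 7, (.ofNat (nat_lit 1649267441664000)), (.ofNat (nat_lit 2199023255552000)), (.ofNat (nat_lit 1649267441664032)), (.ofNat (nat_lit 2199023255551968)), (.ofNat (nat_lit 2165991399952186813695897984250675200000000)), (.ofNat (nat_lit 0)), (.ofNat (nat_lit 0))⟩]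

theorem ok223 : stOK 11 11 S223 = true := by decide +kernel

def S224 : SD where
  vs := [
    ⟨nat_lit 1, nat_lit 3, nat_lit 4, (.ofNat (nat_lit 16)), (.ofNat (nat_lit 274877906944000)), (.ofNat (nat_lit 40038015535211920379453781538870006317896102313984000000)), (.ofNat (nat_lit 0)), (.ofNat (nat_lit 0)), (.ofNat (nat_lit 274877906943968)), (.ofNat (nat_lit 274877906944032)), (.negSucc (nat_lit 470802297350718383810288936854487039999999)), (.negSucc (nat_lit 482562099143388084945254039546757119999999)), (.negSucc (nat_lit 482562099143388084945254039546757119999999)), (.negSucc (nat_lit 470802297350718383810288936854487039999999)), (.ofNat (nat_lit 34185470327528200973735763640320000000))⟩,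
    ⟨nat_lit 2, nat_lit 0, nat_lit 1, (.ofNat (nat_lit 16)), (.negSucc (nat_lit 549755813887999)), (.ofNat (nat_lit 120279437284502097135725017355140140065026473984000000)), (.ofNat (nat_lit 0)), (.ofNat (nat_lit 0)), (.negSucc (nat_lit 549755813888031)), (.negSucc (nat_lit 549755813887967)), (.ofNat (nat_lit 1110344076238115967626937603037593600000000)), (.ofNat (nat_lit 0)), (.ofNat (nat_lit 0)), (.ofNat (nat_lit 1110344076238115967626937603037593600000000)), (.ofNat (nat_lit 136741881310112803894943054561280000000))⟩,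
    ⟨nat_lit 1, nat_lit 5, nat_lit 7, (.ofNat (nat_lit 16)), (.ofNat (nat_lit 1099511627776000)), (.ofNat (nat_lit 67927808552784561024915173195144988148358115753984000000)), (.ofNat (nat_lit 0)), (.ofNat (nat_lit 0)), (.ofNat (nat_lit 1099511627775968)), (.ofNat (nat_lit 1099511627776032)), (.ofNat (nat_lit 1110344076238115967626937603037593600000000)), (.ofNat (nat_lit 0)), (.ofNat (nat_lit 0)), (.ofNat (nat_lit 1110344076238115967626937603037593600000000)), (.ofNat (nat_lit 136741881310112803894943054561280000000))⟩,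
    ⟨nat_lit 2, nat_lit 3, nat_lit 2, (.ofNat (nat_lit 16)), (.ofNat (nat_lit 0)), (.ofNat (nat_lit 169451165615404106016008460073310386967870108073984000000)), (.ofNat (nat_lit 0)), (.ofNat (nat_lit 4228573739187226512957421241685896840871936000000000)), (.negSucc (nat_lit 31)), (.ofNat (nat_lit 32)), (.negSucc (nat_lit 470802297350718383810288936854487039999999)), (.negSucc (nat_lit 493227965885576883649059597802536959999999)), (.negSucc (nat_lit 493227965885576883649059597802536959999999)), (.negSucc (nat_lit 470802297350718383810288936854487039999999)), (.ofNat (nat_lit 33045954649943927607944571518976000000))⟩,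
    ⟨nat_lit 0, nat_lit 0, nat_lit 4, (.ofNat (nat_lit 16)), (.negSucc (nat_lit 274877906943999)), (.ofNat (nat_lit 305329335101286984632373595972817205454554984873984000000)), (.ofNat (nat_lit 0)), (.ofNat (nat_lit 9396830531527170028794269425968659646382080000000000)), (.negSucc (nat_lit 274877906944031)), (.negSucc (nat_lit 274877906943967)), (.ofNat (nat_lit 1110344076238115967626937603037593600000000)), (.negSucc (nat_lit 482562099143388084945254039546757119999999)), (.negSucc (nat_lit 482562099143388084945254039546757119999999)), (.ofNat (nat_lit 1110344076238115967626937603037593600000000)), (.ofNat (nat_lit 170927351637641004868678818201600000000))⟩,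
    ⟨nat_lit 0, nat_lit 2, nat_lit 5, (.ofNat (nat_lit 16)), (.ofNat (nat_lit 824633720832000)), (.negSucc (nat_lit 237281247111217921510322697760317077166131842646015999999)), (.ofNat (nat_lit 0)), (.negSucc (nat_lit 9396830531527170028794269425968659646382079999999999)), (.ofNat (nat_lit 824633720831968)), (.ofNat (nat_lit 824633720832032)), (.negSucc (nat_lit 493227965885576883649059597802536959999999)), (.ofNat (nat_lit 1110344076238115967626937603037593600000000)), (.negSucc (nat_lit 493227965885576883649059597802536959999999)), (.ofNat (nat_lit 1110344076238115967626937603037593600000000)), (.ofNat (nat_lit 134462849954944257163360670318592000000))⟩,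
    ⟨nat_lit 0, nat_lit 1, nat_lit 6, (.ofNat (nat_lit 128)), (.negSucc (nat_lit 219902325555199)), (.ofNat (nat_lit 120279437284502097135725017355140140065026473984000000)), (.ofNat (nat_lit 0)), (.ofNat (nat_lit 0)), (.negSucc (nat_lit 219902325555455)), (.negSucc (nat_lit 219902325554943)), (.ofNat (nat_lit 0)), (.ofNat (nat_lit 2187870100961804862319088872980480000000000)), (.ofNat (nat_lit 0)), (.ofNat (nat_lit 2187870100961804862319088872980480000000000)), (.ofNat (nat_lit 0))⟩,
    ⟨nat_lit 1, nat_lit 12, nat_lit 11, (.ofNat (nat_lit 16)), (.ofNat (nat_lit 2199023255552000)), (.ofNat (nat_lit 5292415234793386662314068265722904252982452482473984000000)), (.ofNat (nat_lit 0)), (.ofNat (nat_lit 0)), (.ofNat (nat_lit 2199023255551968)), (.ofNat (nat_lit 2199023255552032)), (.ofNat (nat_lit 2187870100961804862319088872980480000000000)), (.ofNat (nat_lit 2165991399952186813695897984250675200000000)), (.ofNat (nat_lit 2165991399952186813695897984250675200000000)), (.ofNat (nat_lit 2187870100961804862319088872980480000000000)),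 (.ofNat (nat_lit 0))⟩,
    ⟨nat_lit 2, nat_lit 8, nat_lit 7, (.ofNat (nat_lit 16)), (.negSucc (nat_lit 213030377881599)), (.ofNat (nat_lit 67927808552784561024915173195144988148358115753984000000)), (.ofNat (nat_lit 0)), (.ofNat (nat_lit 0)), (.negSucc (nat_lit 213030377881631)), (.negSucc (nat_lit 213030377881567)), (.ofNat (nat_lit 2165991399952186813695897984250675200000000)), (.ofNat (nat_lit 0)), (.ofNat (nat_lit 0)), (.ofNat (nat_lit 2165991399952186813695897984250675200000000)), (.ofNat (nat_lit 0))⟩,
    ⟨nat_lit 0, nat_lit 8, nat_lit 9, (.ofNat (nat_lit 16)), (.ofNat (nat_lit 1374389534720000)), (.ofNat (nat_lit 3506265687360702183240853533234781427398146716073984000000)), (.ofNat (nat_lit 0)), (.ofNat (nat_lit 0)), (.ofNat (nat_lit 1374389534719968)), (.ofNat (nat_lit 1374389534720032)), (.ofNat (nat_lit 2165991399952186813695897984250675200000000)), (.ofNat (nat_lit 2165991399952186813695897984250675200000000)), (.ofNat (nat_lit 2165991399952186813695897984250675200000000)), (.ofNat (nat_lit 2165991399952186813695897984250675200000000)),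 (.ofNat (nat_lit 0))⟩,
    ⟨nat_lit 0, nat_lit 9, nat_lit 10, (.ofNat (nat_lit 16)), (.ofNat (nat_lit 1429365116108800)), (.ofNat (nat_lit 3625342323856214481845734515400656282437100433833984000000)), (.ofNat (nat_lit 0)), (.ofNat (nat_lit 0)), (.ofNat (nat_lit 1429365116108768)), (.ofNat (nat_lit 1429365116108832)), (.ofNat (nat_lit 2165991399952186813695897984250675200000000)), (.ofNat (nat_lit 2165991399952186813695897984250675200000000)), (.ofNat (nat_lit 2165991399952186813695897984250675200000000)), (.ofNat (nat_lit 2165991399952186813695897984250675200000000)), (.ofNat (nat_lit 0))⟩,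
    ⟨nat_lit 0, nat_lit 10, nat_lit 11, (.ofNat (nat_lit 16)), (.ofNat (nat_lit 1649267441664000)), (.ofNat (nat_lit 4101648869838263676265258444064155702592915304873984000000)), (.ofNat (nat_lit 0)), (.ofNat (nat_lit 0)), (.ofNat (nat_lit 1649267441663968)), (.ofNat (nat_lit 1649267441664032)), (.ofNat (nat_lit 2165991399952186813695897984250675200000000)), (.ofNat (nat_lit 2165991399952186813695897984250675200000000)), (.ofNat (nat_lit 2165991399952186813695897984250675200000000)), (.ofNat (nat_lit 2165991399952186813695897984250675200000000)), (.ofNat (nat_lit 0))⟩,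
    ⟨nat_lit 0, nat_lit 6, nat_lit 12, (.ofNat (nat_lit 16)), (.ofNat (nat_lit 1374389534720000)), (.ofNat (nat_lit 3488223772740170016785568535936921600877093122473984000000)), (.ofNat (nat_lit 0)), (.ofNat (nat_lit 0)), (.ofNat (nat_lit 1374389534719968)), (.ofNat (nat_lit 1374389534720032)), (.ofNat (nat_lit 2187870100961804862319088872980480000000000)), (.ofNat (nat_lit 2187870100961804862319088872980480000000000)), (.ofNat (nat_lit 2187870100961804862319088872980480000000000)), (.ofNat (nat_lit 2187870100961804862319088872980480000000000)), (.ofNat (nat_lit 0))⟩]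
  es := [
    ⟨nat_lit 1, nat_lit 4, (.negSucc (nat_lit 549755813887999)), (.negSucc (nat_lit 274877906943999)), (.negSucc (nat_lit 549755813887967)), (.negSucc (nat_lit 274877906944031)), (.ofNat (nat_lit 1110344076238115967626937603037593600000000)), (.ofNat (nat_lit 34185470327528200973735763640320000000)), (.ofNat (nat_lit 18793661063054340057588538851937319292764160000000000))⟩,
    ⟨nat_lit 1, nat_lit 6, (.negSucc (nat_lit 549755813887999)), (.negSucc (nat_lit 219902325555199)), (.negSucc (nat_lit 549755813887967)), (.negSucc (nat_lit 219902325555455)), (.ofNat (nat_lit 0)), (.ofNat (nat_lit 0)), (.ofNat (nat_lit 0))⟩,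
    ⟨nat_lit 3, nat_lit 5, (.ofNat (nat_lit 0)), (.ofNat (nat_lit 824633720832000)), (.ofNat (nat_lit 32)), (.ofNat (nat_lit 824633720831968)), (.negSucc (nat_lit 493227965885576883649059597802536959999999)), (.negSucc (nat_lit 16522977324971963803972285759487999999)), (.ofNat (nat_lit 4228573739187226512957421241685896840871936000000000))⟩,
    ⟨nat_lit 3, nat_lit 0, (.ofNat (nat_lit 0)), (.ofNat (nat_lit 274877906944000)), (.ofNat (nat_lit 32)), (.ofNat (nat_lit 274877906943968)), (.negSucc (nat_lit 470802297350718383810288936854487039999999)), (.negSucc (nat_lit 15383461647387690438181093638143999999)), (.ofNat (nat_lit 4228573739187226512957421241685896840871936000000000))⟩,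
    ⟨nat_lit 4, nat_lit 0, (.negSucc (nat_lit 274877906943999)), (.ofNat (nat_lit 274877906944000)), (.negSucc (nat_lit 274877906943967)), (.ofNat (nat_lit 274877906943968)), (.negSucc (nat_lit 482562099143388084945254039546757119999999)), (.negSucc (nat_lit 17092735163764100486867881820159999999)), (.ofNat (nat_lit 4698415265763585014397134712984329823191040000000000))⟩,
    ⟨nat_lit 5, nat_lit 2, (.ofNat (nat_lit 824633720832000)), (.ofNat (nat_lit 1099511627776000)), (.ofNat (nat_lit 824633720832032)), (.ofNat (nat_lit 1099511627775968)), (.ofNat (nat_lit 1110344076238115967626937603037593600000000)), (.ofNat (nat_lit 34185470327528200973735763640320000000)), (.negSucc (nat_lit 37587322126108680115177077703874638585528319999999999))⟩,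
    ⟨nat_lit 6, nat_lit 12, (.negSucc (nat_lit 219902325555199)), (.ofNat (nat_lit 1374389534720000)), (.negSucc (nat_lit 219902325554943)), (.ofNat (nat_lit 1374389534719968)), (.ofNat (nat_lit 2187870100961804862319088872980480000000000)), (.ofNat (nat_lit 0)), (.ofNat (nat_lit 0))⟩,
    ⟨nat_lit 8, nat_lit 2, (.negSucc (nat_lit 213030377881599)), (.ofNat (nat_lit 1099511627776000)), (.negSucc (nat_lit 213030377881567)), (.ofNat (nat_lit 1099511627775968)), (.ofNat (nat_lit 0)), (.ofNat (nat_lit 0)), (.ofNat (nat_lit 0))⟩,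
    ⟨nat_lit 8, nat_lit 9, (.negSucc (nat_lit 213030377881599)), (.ofNat (nat_lit 1374389534720000)), (.negSucc (nat_lit 213030377881567)), (.ofNat (nat_lit 1374389534719968)), (.ofNat (nat_lit 2165991399952186813695897984250675200000000)), (.ofNat (nat_lit 0)), (.ofNat (nat_lit 0))⟩,
    ⟨nat_lit 9, nat_lit 10, (.ofNat (nat_lit 1374389534720000)), (.ofNat (nat_lit 1429365116108800)), (.ofNat (nat_lit 1374389534720032)), (.ofNat (nat_lit 1429365116108768)), (.ofNat (nat_lit 2165991399952186813695897984250675200000000)), (.ofNat (nat_lit 0)), (.ofNat (nat_lit 0))⟩,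
    ⟨nat_lit 10, nat_lit 11, (.ofNat (nat_lit 1429365116108800)), (.ofNat (nat_lit 1649267441664000)), (.ofNat (nat_lit 1429365116108832)), (.ofNat (nat_lit 1649267441663968)), (.ofNat (nat_lit 2165991399952186813695897984250675200000000)), (.ofNat (nat_lit 0)), (.ofNat (nat_lit 0))⟩,
    ⟨nat_lit 11, nat_lit 7, (.ofNat (nat_lit 1649267441664000)), (.ofNat (nat_lit 2199023255552000)), (.ofNat (nat_lit 1649267441664032)), (.ofNat (nat_lit 2199023255551968)), (.ofNat (nat_lit 2165991399952186813695897984250675200000000)), (.ofNat (nat_lit 0)), (.ofNat (nat_lit 0))⟩,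
    ⟨nat_lit 12, nat_lit 7, (.ofNat (nat_lit 1374389534720000)), (.ofNat (nat_lit 2199023255552000)), (.ofNat (nat_lit 1374389534720032)), (.ofNat (nat_lit 2199023255551968)), (.ofNat (nat_lit 2187870100961804862319088872980480000000000)), (.ofNat (nat_lit 0)), (.ofNat (nat_lit 0))⟩]

theorem ok224 : stOK 12 12 S224 = true := by decide +kernel

end LCA.CapJ


end

section

set_option maxRecDepth 100000

namespace LCA.CapJ

open LCA

theorem f200 : goOK (.ofNat (nat_lit 64)) S201 S202 = true := by decide +kernel

theorem f201 : goOK (.ofNat (nat_lit 63)) S202 S203 = true := by decide +kernel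

theorem f202 : goOK (.ofNat (nat_lit 1)) S204 S205 = true := by decide +kernel

theorem f203 : mvOK (.ofNat (nat_lit 1)) S204 S205 = true := by decide +kernel

theorem f204 : fdS 3 S204 S205 = true := by decide +kernel

theorem f205 : fdOK 6 6 7 7 [nat_lit 0, nat_lit 1, nat_lit 2, nat_lit 3, nat_lit 4, nat_lit 6, nat_lit 7] [nat_lit 0, nat_lit 1, nat_lit 2, nat_lit 3, nat_lit 4, nat_lit 0, nat_lit 5, nat_lit 6] [nat_lit 0, nat_lit 1, nat_lit 2, nat_lit 3, nat_lit 4, nat_lit 6, nat_lit 7] [nat_lit 0, nat_lit 1, nat_lit 2, nat_lit 3, nat_lit 4, nat_lit 0, nat_lit 5, nat_lit 6] 3 5 5 S204 S203 = true := by decide +kernel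

theorem f206 : goOK (.ofNat (nat_lit 64)) S205 S206 = true := by decide +kernel

theorem f207 : goOK (.ofNat (nat_lit 1)) S206 S207 = true := by decide +kernel

theorem f208 : inOK 5 5 6 6 [nat_lit 0, nat_lit 1, nat_lit 3, nat_lit 4, nat_lit 5, nat_lit 6] [nat_lit 0, nat_lit 1, nat_lit 0, nat_lit 2, nat_lit 3, nat_lit 4, nat_lit 5] [nat_lit 0, nat_lit 1, nat_lit 2, nat_lit 4, nat_lit 5, nat_lit 6] [nat_lit 0, nat_lit 1, nat_lit 2, nat_lit 0, nat_lit 3, nat_lit 4, nat_lit 5] 2 2 3 S208 S207 = true := by decide +kernel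

theorem f209 : goOK (.ofNat (nat_lit 63)) S208 S209 = true := by decide +kernel

theorem f210 : goOK (.ofNat (nat_lit 32)) S209 S210 = true := by decide +kernel

theorem f211 : inOK 5 5 6 6 [nat_lit 0, nat_lit 1, nat_lit 2, nat_lit 3, nat_lit 4, nat_lit 5] [nat_lit 0, nat_lit 1, nat_lit 2, nat_lit 3, nat_lit 4, nat_lit 5, nat_lit 0] [nat_lit 0, nat_lit 1, nat_lit 2, nat_lit 3, nat_lit 4, nat_lit 5] [nat_lit 0, nat_lit 1, nat_lit 2, nat_lit 3, nat_lit 4, nat_lit 5, nat_lit 0] 1 6 6 S210 S211 = true := by decide +kernel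

theorem f212 : inOK 6 6 7 7 [nat_lit 0, nat_lit 1, nat_lit 2, nat_lit 3, nat_lit 4, nat_lit 5, nat_lit 6] [nat_lit 0, nat_lit 1, nat_lit 2, nat_lit 3, nat_lit 4, nat_lit 5, nat_lit 6, nat_lit 0] [nat_lit 0, nat_lit 1, nat_lit 2, nat_lit 3, nat_lit 4, nat_lit 5, nat_lit 6] [nat_lit 0, nat_lit 1, nat_lit 2, nat_lit 3, nat_lit 4, nat_lit 5, nat_lit 6, nat_lit 0] 6 7 7 S211 S212 = true := by decide +kernel

theorem f213 : goOK (.ofNat (nat_lit 32)) S212 S213 = true := by decide +kernel

theorem f214 : goOK (.ofNat (nat_lit 63)) S213 S214 = true := by decide +kernel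

theorem f215 : goOK (.ofNat (nat_lit 1)) S214 S215 = true := by decide +kernel

theorem f216 : mvOK (.ofNat (nat_lit 1)) S214 S215 = true := by decide +kernel

theorem f217 : fdS 7 S214 S215 = true := by decide +kernel

theorem f218 : fdOK 7 7 8 8 [nat_lit 0, nat_lit 1, nat_lit 2, nat_lit 3, nat_lit 4, nat_lit 5, nat_lit 6, nat_lit 7] [nat_lit 0, nat_lit 1, nat_lit 2, nat_lit 3, nat_lit 4, nat_lit 5, nat_lit 6, nat_lit 7, nat_lit 0] [nat_lit 0, nat_lit 1, nat_lit 2, nat_lit 3, nat_lit 4, nat_lit 5, nat_lit 6, nat_lit 7] [nat_lit 0, nat_lit 1, nat_lit 2, nat_lit 3, nat_lit 4, nat_lit 5, nat_lit 6, nat_lit 7, nat_lit 0] 7 8 8 S215 S216 = true := by decide +kernel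

theorem f219 : goOK (.ofNat (nat_lit 64)) S216 S217 = true := by decide +kernel

theorem f220 : goOK (.ofNat (nat_lit 64)) S217 S218 = true := by decide +kernel

theorem f221 : goOK (.ofNat (nat_lit 64)) S218 S219 = true := by decide +kernel

theorem f222 : goOK (.ofNat (nat_lit 32)) S219 S220 = true := by decide +kernel

theorem f223 : inOK 8 8 9 9 [nat_lit 0, nat_lit 1, nat_lit 2, nat_lit 3, nat_lit 4, nat_lit 5, nat_lit 6, nat_lit 7, nat_lit 8] [nat_lit 0, nat_lit 1, nat_lit 2, nat_lit 3, nat_lit 4, nat_lit 5, nat_lit 6, nat_lit 7, nat_lit 8, nat_lit 0] [nat_lit 0, nat_lit 1, nat_lit 2, nat_lit 3, nat_lit 4, nat_lit 5, nat_lit 6, nat_lit 7, nat_lit 8] [nat_lit 0, nat_lit 1, nat_lit 2, nat_lit 3, nat_lit 4, nat_lit 5, nat_lit 6, nat_lit 7, nat_lit 8, nat_lit 0] 8 9 9 S220 S221 = true := by decide +kernel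

theorem f224 : inOK 9 9 10 10 [nat_lit 0, nat_lit 1, nat_lit 2, nat_lit 3, nat_lit 4, nat_lit 5, nat_lit 6, nat_lit 7, nat_lit 8, nat_lit 9] [nat_lit 0, nat_lit 1, nat_lit 2, nat_lit 3, nat_lit 4, nat_lit 5, nat_lit 6, nat_lit 7, nat_lit 8, nat_lit 9, nat_lit 0] [nat_lit 0, nat_lit 1, nat_lit 2, nat_lit 3, nat_lit 4, nat_lit 5, nat_lit 6, nat_lit 7, nat_lit 8, nat_lit 9] [nat_lit 0, nat_lit 1, nat_lit 2, nat_lit 3, nat_lit 4, nat_lit 5, nat_lit 6, nat_lit 7, nat_lit 8, nat_lit 9, nat_lit 0] 9 10 10 S221 S222 = true := by decide +kernel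

end LCA.CapJ


end
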