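import Mathlib
import Pool.Agent.NDM.C01
import Pool.Agent.NDM.C02
import Pool.Agent.NDM.C03

/-! Parts: LG.LNEG, LH.DR1, LH.FRM, LH.INC, LH.TRC, LHE.THI, LCA.ECH, LCA.SDA, LCA.SVE, LCA.GOK, LCA.BXL, LHE.FGO -/

section

/-!
# The list moves are compatible with the rotation by the angle `π`
-/

namespace LG

open Equiv Finset Function

namespace LNEG

/-- The rotation of one pair. -/
def ng (p : ℝ × ℝ) : ℝ × ℝ := (-p.1, -p.2)

lemma neg_eq (L : List (ℝ × ℝ)) : neg L = L.map ng := rfl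

lemma ng_ng (p : ℝ × ℝ) : ng (ng p) = p := by
  simp [ng]

lemma map_map_ng (L : List (ℝ × ℝ)) : (L.map ng).map ng = L := by
  rw [List.map_map]
  have h : (ng ∘ ng) = id := by
    funext p
    exact ng_ng p
  rw [h, List.map_id]

lemma nodup_neg (l : List ℝ) (h : l.Nodup) : (l.map fun x => -x).Nodup :=
  h.map neg_injective

lemma nd_neg (L : List (ℝ × ℝ)) (h : Nd L) : Nd (L.map ng) := by
  obtain ⟨h1, h2⟩ := h
  constructor
  · rw [List.map_map]
    have h3 : (Prod.fst ∘ ng) = (fun x : ℝ => -x) ∘ (Prod.fst : ℝ × ℝ → ℝ) := rfl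
    rw [h3, ← List.map_map]
    exact nodup_neg _ h1
  · rw [List.map_map]
    have h3 : (Prod.snd ∘ ng) = (fun x : ℝ => -x) ∘ (Prod.snd : ℝ × ℝ → ℝ) := rfl
    rw [h3, ← List.map_map]
    exact nodup_neg _ h2

lemma cyc_neg (a b c : ℝ) : cyc (-a) (-b) (-c) ↔ cyc c b a := by
  unfold cyc
  simp only [neg_lt_neg_iff]
  tauto

lemma unl_neg (a b c d : ℝ) (h : Unl a b c d) : Unl (-a) (-b) (-c) (-d) := by
  unfold Unl at *
  rw [cyc_neg, cyc_neg]
  simp only [ne_eq, neg_inj]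
  unfold cyc at *
  grind

lemma mem_fst_neg (L : List (ℝ × ℝ)) (t : ℝ) :
    -t ∈ (L.map ng).map Prod.fst ↔ t ∈ L.map Prod.fst := by
  simp only [List.mem_map]
  constructor
  · rintro ⟨p, ⟨q, hq, rfl⟩, h⟩
    exact ⟨q, hq, neg_injective h⟩
  · rintro ⟨q, hq, rfl⟩
    exact ⟨ng q, ⟨q, hq, rfl⟩, rfl⟩

lemma mem_snd_neg (L : List (ℝ × ℝ)) (t : ℝ) :
    -t ∈ (L.map ng).map Prod.snd ↔ t ∈ L.map Prod.snd := by
  simp only [List.mem_map]
  constructor
  · rintro ⟨p, ⟨q, hq, rfl⟩, h⟩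
    exact ⟨q, hq, neg_injective h⟩
  · rintro ⟨q, hq, rfl⟩
    exact ⟨ng q, ⟨q, hq, rfl⟩, rfl⟩

lemma all_fst_neg (L : List (ℝ × ℝ)) (a b : ℝ) (h : ∀ d ∈ L.map Prod.fst, ¬ cyc a d b) :
    ∀ d ∈ (L.map ng).map Prod.fst, ¬ cyc (-b) d (-a) := by
  intro d hd hc
  have h1 : -d ∈ L.map Prod.fst := by
    rw [← mem_fst_neg, neg_neg]
    exact hd
  apply h (-d) h1
  rw [← cyc_neg, neg_neg]
  exact hc

lemma all_snd_neg (L : List (ℝ × ℝ)) (a b : ℝ) (h : ∀ d ∈ L.map Prod.snd, ¬ cyc a d b) :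
    ∀ d ∈ (L.map ng).map Prod.snd, ¬ cyc (-b) d (-a) := by
  intro d hd hc
  have h1 : -d ∈ L.map Prod.snd := by
    rw [← mem_snd_neg, neg_neg]
    exact hd
  apply h (-d) h1
  rw [← cyc_neg, neg_neg]
  exact hc

lemma split_neg (L B₁ B₂ : List (ℝ × ℝ)) (x y : ℝ × ℝ) (h : L.map ng = B₁ ++ x :: y :: B₂) :
    L = B₁.map ng ++ ng x :: ng y :: B₂.map ng := by
  have h1 := congrArg (List.map ng) h
  rw [map_map_ng] at h1
  rw [h1]
  simp

end LNEG

open _root_.LG.LNEG in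
/-- The moves are compatible with the rotation by the angle `π`. -/
theorem t_LNEG : Stmt_LNEG := by
  intro L L' h
  rw [neg_eq, neg_eq]
  cases h with
  | rot A B =>
    rw [List.map_append, List.map_append]
    exact Mv.rot _ _
  | iso L f g h hf hg =>
    have h1 : (L.map fun p => (f p.1, g p.2)).map ng =
        (L.map ng).map fun p => (-f (-p.1), -g (-p.2)) := by
      rw [List.map_map, List.map_map]
      apply List.map_congr_left
      intro p _
      simp [ng]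
    rw [h1]
    refine Mv.iso (L.map ng) (fun x => -f (-x)) (fun x => -g (-x)) (nd_neg L h) ?_ ?_
    · intro p hp q hq hpq
      obtain ⟨p0, hp0, rfl⟩ := List.mem_map.1 hp
      obtain ⟨q0, hq0, rfl⟩ := List.mem_map.1 hq
      have h2 : q0.1 < p0.1 := by
        change -p0.1 < -q0.1 at hpq
        linarith
      have h3 := hf q0 hq0 p0 hp0 h2
      change -f (- -p0.1) < -f (- -q0.1)
      rw [neg_neg, neg_neg]
      linarith
    · intro p hp q hq hpq
      obtain ⟨p0, hp0, rfl⟩ := List.mem_map.1 hp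
      obtain ⟨q0, hq0, rfl⟩ := List.mem_map.1 hq
      have h2 : q0.2 < p0.2 := by
        change -p0.2 < -q0.2 at hpq
        linarith
      have h3 := hg q0 hq0 p0 hp0 h2
      change -g (- -p0.2) < -g (- -q0.2)
      rw [neg_neg, neg_neg]
      linarith
  | col c r t B z h ht hu =>
    have e1 : ((c, r) :: (B ++ [z])).map ng = (-c, -r) :: (B.map ng ++ [ng z]) := by
      rw [List.map_cons, List.map_append]
      rfl
    have e2 : ((t, r) :: (B ++ [z])).map ng = (-t, -r) :: (B.map ng ++ [ng z]) := by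
      rw [List.map_cons, List.map_append]
      rfl
    rw [e2]
    have hnd := nd_neg _ h
    have ht' : -t ∉ (((c, r) :: (B ++ [z])).map ng).map Prod.fst := by
      rw [mem_fst_neg]
      exact ht
    rw [e1] at hnd ht' ⊢
    refine Mv.col (-c) (-r) (-t) (B.map ng) (ng z) hnd ht' ?_
    intro B₁ B₂ y x hd hx
    rw [← e1] at hd
    have hd' := split_neg _ _ _ _ _ hd
    have h1 := hu _ _ _ _ hd' (by
      change c < -x.1 ∧ -x.1 < t ∨ t < -x.1 ∧ -x.1 < c
      rcases hx with ⟨h1, h2⟩ | ⟨h1, h2⟩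
      · right
        constructor <;> linarith
      · left
        constructor <;> linarith)
    have h2 := unl_neg _ _ _ _ h1
    change Unl (-z.2) (-r) y.2 x.2
    change Unl (-z.2) (-r) (- -y.2) (- -x.2) at h2
    rwa [neg_neg, neg_neg] at h2
  | row c r t z B h ht hu =>
    have e1 : ((c, r) :: z :: B).map ng = (-c, -r) :: ng z :: B.map ng := rfl
    have e2 : ((c, t) :: z :: B).map ng = (-c, -t) :: ng z :: B.map ng := rfl
    have e3 : ((c, r) :: z :: B ++ [(c, r)]).map ng =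
        (-c, -r) :: ng z :: B.map ng ++ [(-c, -r)] := by
      rw [List.map_append]
      rfl
    rw [e2]
    have hnd := nd_neg _ h
    have ht' : -t ∉ (((c, r) :: z :: B).map ng).map Prod.snd := by
      rw [mem_snd_neg]
      exact ht
    rw [e1] at hnd ht' ⊢
    refine Mv.row (-c) (-r) (-t) (ng z) (B.map ng) hnd ht' ?_
    intro B₁ B₂ x y hd hx
    rw [← e3] at hd
    have hd' := split_neg _ _ _ _ _ hd
    have h1 := hu _ _ _ _ hd' (by
      change r < -x.2 ∧ -x.2 < t ∨ t < -x.2 ∧ -x.2 < r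
      rcases hx with ⟨h1, h2⟩ | ⟨h1, h2⟩
      · right
        constructor <;> linarith
      · left
        constructor <;> linarith)
    have h2 := unl_neg _ _ _ _ h1
    change Unl (-c) (-z.1) x.1 y.1
    change Unl (-c) (-z.1) (- -x.1) (- -y.1) at h2
    rwa [neg_neg, neg_neg] at h2
  | srow c₁ r₁ c₂ r₂ B z h ha =>
    have e1 : ((c₁, r₁) :: (c₂, r₂) :: (B ++ [z])).map ng =
        (-c₁, -r₁) :: (-c₂, -r₂) :: (B.map ng ++ [ng z]) := by
      rw [List.map_cons, List.map_cons, List.map_append]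
      rfl
    have e2 : ((c₂, r₂) :: (B ++ [z])).map ng = (-c₂, -r₂) :: (B.map ng ++ [ng z]) := by
      rw [List.map_cons, List.map_append]
      rfl
    have hnd := nd_neg _ h
    have key : (∀ d ∈ (((c₁, r₁) :: (c₂, r₂) :: (B ++ [z])).map ng).map Prod.fst,
          ¬ cyc (-c₁) d (-c₂)) ∧ cyc (-r₁) (-r₂) (-z.2) ∨
        (∀ d ∈ (((c₁, r₁) :: (c₂, r₂) :: (B ++ [z])).map ng).map Prod.fst,
          ¬ cyc (-c₂) d (-c₁)) ∧ cyc (-z.2) (-r₂) (-r₁) := by
      rcases ha with ⟨h1, h2⟩ | ⟨h1, h2⟩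
      · right
        refine ⟨all_fst_neg _ _ _ h1, ?_⟩
        rw [cyc_neg]
        exact h2
      · left
        refine ⟨all_fst_neg _ _ _ h1, ?_⟩
        rw [cyc_neg]
        exact h2
    rw [e1] at hnd key ⊢
    rw [e2]
    exact Mv.srow (-c₁) (-r₁) (-c₂) (-r₂) (B.map ng) (ng z) hnd key
  | scol c₁ r₁ c₂ r₂ z B h ha =>
    have e1 : ((c₁, r₁) :: (c₂, r₂) :: z :: B).map ng =
        (-c₁, -r₁) :: (-c₂, -r₂) :: ng z :: B.map ng := rfl
    have e2 : ((c₁, r₁) :: z :: B).map ng = (-c₁, -r₁) :: ng z :: B.map ng := rfl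
    have hnd := nd_neg _ h
    have key : (∀ d ∈ (((c₁, r₁) :: (c₂, r₂) :: z :: B).map ng).map Prod.snd,
          ¬ cyc (-r₁) d (-r₂)) ∧ cyc (-z.1) (-c₁) (-c₂) ∨
        (∀ d ∈ (((c₁, r₁) :: (c₂, r₂) :: z :: B).map ng).map Prod.snd,
          ¬ cyc (-r₂) d (-r₁)) ∧ cyc (-c₂) (-c₁) (-z.1) := by
      rcases ha with ⟨h1, h2⟩ | ⟨h1, h2⟩
      · right
        refine ⟨all_snd_neg _ _ _ h1, ?_⟩
        rw [cyc_neg]
        exact h2
      · left
        refine ⟨all_snd_neg _ _ _ h1, ?_⟩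
        rw [cyc_neg]
        exact h2
    rw [e1] at hnd key ⊢
    rw [e2]
    exact Mv.scol (-c₁) (-r₁) (-c₂) (-r₂) (ng z) (B.map ng) hnd key

end LG


end

section

/-!
# DR1: removal of a short row, first direction
-/

namespace LH

open Set LG

namespace DR1

theorem mem_cp_rot {α : Type*} (A B : List α) (p : α × α) :
    p ∈ cp (A ++ B) ↔ p ∈ cp (B ++ A) := by
  have h : B ++ A = (A ++ B).rotate A.length := (List.rotate_append_length_eq A B).symm
  have h2 : cp (B ++ A) = (cp (A ++ B)).rotate A.length := by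
    rw [h]
    unfold cp
    rw [List.rotate_rotate, List.zip_eq_zipWith, List.zip_eq_zipWith,
      List.zipWith_rotate_distrib _ _ _ _ (by simp), List.rotate_rotate, Nat.add_comm]
  rw [h2, List.mem_rotate]

theorem alt_rot {A B : List En} (h : Alt (A ++ B)) : Alt (B ++ A) := by
  refine ⟨?_, fun p hp => h.2 p ((mem_cp_rot A B p).2 hp)⟩
  intro h0
  apply h.1
  have h1 : A = [] ∧ B = [] := by
    rw [List.append_eq_nil_iff] at h0
    exact ⟨h0.2, h0.1⟩
  rw [h1.1, h1.2]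
  rfl

theorem mk_rot {A B : List En} {c r : Q} (h : Mk (A ++ B) c r) : Mk (B ++ A) c r := by
  unfold Mk at *
  rw [mem_cp_rot A B, mem_cp_rot A B] at h
  exact h

theorem cp_map {α β : Type*} (f : α → β) (W : List α) :
    cp (W.map f) = (cp W).map (Prod.map f f) := by
  unfold cp
  rw [← List.map_rotate, List.zip_map]

theorem alt_iff (W : List En) :
    Alt W ↔ W ≠ [] ∧ ∀ p ∈ cp (W.map Sum.isLeft), p.1 = !p.2 := by
  unfold Alt
  rw [cp_map]
  simp only [List.mem_map, forall_exists_index, and_imp, forall_apply_eq_imp_iff₂, Prod.map_fst,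
    Prod.map_snd]

theorem alt_congr {W W' : List En} (h : W.map Sum.isLeft = W'.map Sum.isLeft) (hA : Alt W) :
    Alt W' := by
  rw [alt_iff] at *
  rw [← h]
  refine ⟨?_, hA.2⟩
  rintro rfl
  apply hA.1
  simpa using h

theorem zip_chain {α : Type*} (R : α → α → Prop) : ∀ (T : List α) (a b : α),
    (∀ p ∈ (a :: T).zip (T ++ [b]), R p.1 p.2) ↔ List.IsChain R (a :: (T ++ [b]))
  | [], a, b => by simp
  | t :: T, a, b => by
    have ih := zip_chain R T t b
    rw [List.cons_append, List.zip_cons_cons, List.isChain_cons_cons, List.forall_mem_cons, ih]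

theorem alt_chain (a : En) (T : List En) :
    Alt (a :: T) ↔ List.IsChain (fun x y : En => x.isLeft = !y.isLeft) (a :: (T ++ [a])) := by
  unfold Alt cp
  rw [← zip_chain]
  simp

theorem chain_fl (c : Q) : ∀ (n : ℕ) (T : List En), T.length ≤ n → ∀ a : Q,
    List.IsChain (fun x y : En => x.isLeft = !y.isLeft) (Sum.inl a :: (T ++ [Sum.inl c])) →
    ∃ L : List (Q × Q), L ≠ [] ∧ Sum.inl a :: T = fl L := by
  intro n
  induction n with
  | zero =>
    intro T hT a h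
    have : T = [] := List.length_eq_zero_iff.1 (Nat.le_zero.1 hT)
    subst this
    simp at h
  | succ n ih =>
    intro T hT a h
    match T, h with
    | [], h => simp at h
    | Sum.inl t :: T', h => simp at h
    | [Sum.inr b], h =>
      exact ⟨[(a, b)], by simp, rfl⟩
    | Sum.inr b :: Sum.inr t :: T', h => simp at h
    | Sum.inr b :: Sum.inl t :: T', h =>
      have h2 : List.IsChain (fun x y : En => x.isLeft = !y.isLeft)
          (Sum.inl t :: (T' ++ [Sum.inl c])) := by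
        rw [List.cons_append, List.cons_append, List.isChain_cons_cons, List.isChain_cons_cons] at h
        exact h.2.2
      obtain ⟨L, -, hL⟩ := ih T' (by simp at hT; omega) t h2
      refine ⟨(a, b) :: L, by simp, ?_⟩
      rw [hL]
      rfl

theorem fl_chain (e : Q) : ∀ L : List (Q × Q),
    List.IsChain (fun x y : En => x.isLeft = !y.isLeft) (fl L ++ [Sum.inl e])
  | [] => by simp [fl]
  | [(a, b)] => by simp [fl]
  | (a, b) :: (a', b') :: L => by
    have ih := fl_chain e ((a', b') :: L)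
    have h : fl ((a, b) :: (a', b') :: L) ++ [Sum.inl e] =
        Sum.inl a :: Sum.inr b :: (fl ((a', b') :: L) ++ [Sum.inl e]) := rfl
    have h' : fl ((a', b') :: L) ++ [Sum.inl e] =
      Sum.inl a' :: Sum.inr b' :: (fl L ++ [Sum.inl e]) := rfl
    rw [h, List.isChain_cons_cons]
    rw [h'] at ih ⊢
    rw [List.isChain_cons_cons]
    exact ⟨rfl, rfl, ih⟩

theorem alt_fl (L : List (Q × Q)) (hL : L ≠ []) : Alt (fl L) := by
  match L, hL with
  | (a, b) :: L, _ =>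
    have h := fl_chain a ((a, b) :: L)
    have h' : fl ((a, b) :: L) = Sum.inl a :: (Sum.inr b :: fl L) := rfl
    rw [h'] at h ⊢
    rw [alt_chain]
    exact h

theorem fl_append {α β : Type*} (L L' : List (α × β)) : fl (L ++ L') = fl L ++ fl L' := by
  unfold fl
  rw [List.flatMap_append]

theorem fl_map {α β γ δ : Type*} (f : α → γ) (g : β → δ) (L : List (α × β)) :
    (fl L).map (Sum.map f g) = fl (L.map (Prod.map f g)) := by
  unfold fl
  rw [List.map_flatMap, List.flatMap_map]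
  rfl

/-- A point next to `c₀`. -/
theorem exists_adj {α : Type*} [LinearOrder α] [DenselyOrdered α] (l : List α) (c₁ c₀ : α)
    (h : c₁ ≠ c₀) : ∃ c', Btw c₁ c₀ c' ∧ ∀ x ∈ l, ¬ Btw c' c₀ x ∧ x ≠ c' := by
  rcases lt_or_gt_of_ne h with h | h
  · have hne : ((insert c₁ l.toFinset).filter (· < c₀)).Nonempty :=
      ⟨c₁, Finset.mem_filter.2 ⟨Finset.mem_insert_self _ _, h⟩⟩
    have hm := Finset.max'_mem _ hne
    set m := Finset.max' _ hne with hmd
    have hm0 : m < c₀ := (Finset.mem_filter.1 hm).2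
    obtain ⟨c', h1, h2⟩ := exists_between hm0
    have hle : ∀ x, (x = c₁ ∨ x ∈ l) → x < c₀ → x < c' := by
      intro x hx hx0
      refine lt_of_le_of_lt (Finset.le_max' _ x ?_) h1
      refine Finset.mem_filter.2 ⟨?_, hx0⟩
      rcases hx with rfl | hx
      · exact Finset.mem_insert_self _ _
      · exact Finset.mem_insert_of_mem (List.mem_toFinset.2 hx)
    refine ⟨c', Or.inl ⟨hle _ (Or.inl rfl) h, h2⟩, fun x hx => ⟨?_, ?_⟩⟩
    · rintro (⟨h3, h4⟩ | ⟨h3, h4⟩)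
      · exact lt_asymm h3 (hle x (Or.inr hx) h4)
      · exact lt_asymm h2 (h3.trans h4)
    · rintro rfl
      exact lt_irrefl _ (hle x (Or.inr hx) h2)
  · have hne : ((insert c₁ l.toFinset).filter (c₀ < ·)).Nonempty :=
      ⟨c₁, Finset.mem_filter.2 ⟨Finset.mem_insert_self _ _, h⟩⟩
    have hm := Finset.min'_mem _ hne
    set m := Finset.min' _ hne with hmd
    have hm0 : c₀ < m := (Finset.mem_filter.1 hm).2
    obtain ⟨c', h1, h2⟩ := exists_between hm0
    have hle : ∀ x, (x = c₁ ∨ x ∈ l) → c₀ < x → c' < x := by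
      intro x hx hx0
      refine lt_of_lt_of_le h2 (Finset.min'_le _ x ?_)
      refine Finset.mem_filter.2 ⟨?_, hx0⟩
      rcases hx with rfl | hx
      · exact Finset.mem_insert_self _ _
      · exact Finset.mem_insert_of_mem (List.mem_toFinset.2 hx)
    refine ⟨c', Or.inr ⟨h1, hle _ (Or.inl rfl) h⟩, fun x hx => ⟨?_, ?_⟩⟩
    · rintro (⟨h3, h4⟩ | ⟨h3, h4⟩)
      · exact lt_asymm h1 (h3.trans h4)
      · exact lt_asymm h4 (hle x (Or.inr hx) h3)
    · rintro rfl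
      exact lt_irrefl _ (hle x (Or.inr hx) h1)

theorem cyc_mono {α β : Type*} [LinearOrder α] [LinearOrder β] (g : α → β) {a b c : α}
    (hab : a < b → g a < g b) (hbc : b < c → g b < g c) (hca : c < a → g c < g a)
    (h : cyc a b c) : cyc (g a) (g b) (g c) := by
  unfold cyc at *
  rcases h with ⟨h1, h2⟩ | ⟨h1, h2⟩ | ⟨h1, h2⟩
  · exact Or.inl ⟨hab h1, hbc h2⟩
  · exact Or.inr (Or.inl ⟨hbc h1, hca h2⟩)
  · exact Or.inr (Or.inr ⟨hca h1, hab h2⟩)

theorem mem_fl {M : List (Q × Q)} {p : Q × Q} (hp : p ∈ M) :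
    (Sum.inl p.1 : En) ∈ fl M ∧ (Sum.inr p.2 : En) ∈ fl M := by
  unfold fl
  exact ⟨List.mem_flatMap.2 ⟨p, hp, by simp⟩, List.mem_flatMap.2 ⟨p, hp, by simp⟩⟩

theorem nodup_fl : ∀ M : List (Q × Q), (fl M).Nodup →
    (M.map Prod.fst).Nodup ∧ (M.map Prod.snd).Nodup
  | [], _ => ⟨List.nodup_nil, List.nodup_nil⟩
  | p :: M, h => by
    have h' : fl (p :: M) = Sum.inl p.1 :: Sum.inr p.2 :: fl M := rfl
    rw [h', List.nodup_cons, List.nodup_cons] at h
    obtain ⟨h1, h2, h3⟩ := h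
    obtain ⟨h4, h5⟩ := nodup_fl M h3
    refine ⟨?_, ?_⟩
    · rw [List.map_cons, List.nodup_cons]
      refine ⟨fun h6 => ?_, h4⟩
      obtain ⟨q, hq, hq'⟩ := List.mem_map.1 h6
      apply h1
      rw [← hq']
      exact List.mem_cons_of_mem _ (mem_fl hq).1
    · rw [List.map_cons, List.nodup_cons]
      refine ⟨fun h6 => ?_, h5⟩
      obtain ⟨q, hq, hq'⟩ := List.mem_map.1 h6
      apply h2
      rw [← hq']
      exact (mem_fl hq).2

/-- A column next to `c₀` and the short row can be removed. -/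
theorem core (hE : Stmt_RPE) (b₁ b₂ c₀ c' x b₀ : Q) (L : List (Q × Q))
    (hN : (fl ((c₀, b₁) :: (c', b₂) :: (L ++ [(x, b₀)]))).Nodup)
    (hadj : ∀ d, Sum.inl d ∈ fl ((c₀, b₁) :: (c', b₂) :: (L ++ [(x, b₀)])) → ¬ Btw c' c₀ d)
    (hc : c' < c₀ ∧ cyc b₁ b₂ b₀ ∨ c₀ < c' ∧ cyc b₁ b₀ b₂) :
    WE (fl ((c₀, b₁) :: (c', b₂) :: (L ++ [(x, b₀)]))) (fl ((c', b₂) :: (L ++ [(x, b₀)]))) := by
  obtain ⟨-, -, f, g, hf, hg, -⟩ := hE _ (alt_fl _ (by simp)) hN
  have hsub : ∀ e, e ∈ fl ((c', b₂) :: (L ++ [(x, b₀)])) →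
      e ∈ fl ((c₀, b₁) :: (c', b₂) :: (L ++ [(x, b₀)])) := fun e he =>
    List.mem_cons_of_mem _ (List.mem_cons_of_mem _ he)
  have hN2 : (fl ((c', b₂) :: (L ++ [(x, b₀)]))).Nodup :=
    (List.nodup_cons.1 (List.nodup_cons.1 hN).2).2
  have flt : ∀ a b, Sum.inl a ∈ fl ((c₀, b₁) :: (c', b₂) :: (L ++ [(x, b₀)])) →
      Sum.inl b ∈ fl ((c₀, b₁) :: (c', b₂) :: (L ++ [(x, b₀)])) → f a < f b → b < a := by
    intro a b ha hb hab
    rcases lt_trichotomy a b with h | h | h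
    · exact absurd hab (lt_asymm (hf a b ha hb h))
    · rw [h] at hab
      exact absurd hab (lt_irrefl _)
    · exact h
  have finj : ∀ a b, Sum.inl a ∈ fl ((c₀, b₁) :: (c', b₂) :: (L ++ [(x, b₀)])) →
      Sum.inl b ∈ fl ((c₀, b₁) :: (c', b₂) :: (L ++ [(x, b₀)])) → f a = f b → a = b := by
    intro a b ha hb hab
    rcases lt_trichotomy a b with h | h | h
    · exact absurd hab (hf a b ha hb h).ne'
    · exact h
    · exact absurd hab (hf b a hb ha h).ne
  have ginj : ∀ a b, Sum.inr a ∈ fl ((c₀, b₁) :: (c', b₂) :: (L ++ [(x, b₀)])) →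
      Sum.inr b ∈ fl ((c₀, b₁) :: (c', b₂) :: (L ++ [(x, b₀)])) → g a = g b → a = b := by
    intro a b ha hb hab
    rcases lt_trichotomy a b with h | h | h
    · exact absurd hab (hg a b ha hb h).ne
    · exact h
    · exact absurd hab (hg b a hb ha h).ne'
  have hz : (x, b₀) ∈ (c₀, b₁) :: (c', b₂) :: (L ++ [(x, b₀)]) := by simp
  have m0 := mem_fl (M := (c₀, b₁) :: (c', b₂) :: (L ++ [(x, b₀)])) (p := (c₀, b₁)) (by simp)
  have m1 := mem_fl (M := (c₀, b₁) :: (c', b₂) :: (L ++ [(x, b₀)])) (p := (c', b₂)) (by simp)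
  have m2 := mem_fl hz
  have hN0 := nodup_fl _ hN
  have key : ∀ d ∈ ((f c₀, g b₁) :: (f c', g b₂) :: (L.map (Prod.map f g) ++
      [(f x, g b₀)])).map Prod.fst, ∃ y, Sum.inl y ∈ fl ((c₀, b₁) :: (c', b₂) :: (L ++ [(x, b₀)])) ∧
      d = f y := by
    have h1 : ((f c₀, g b₁) :: (f c', g b₂) :: (L.map (Prod.map f g) ++
      [(f x, g b₀)])) = ((c₀, b₁) :: (c', b₂) :: (L ++ [(x, b₀)])).map (Prod.map f g) := by
      simp
    rw [h1]
    intro d hd
    rw [List.mem_map] at hd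
    obtain ⟨p, hp, rfl⟩ := hd
    obtain ⟨q, hq, rfl⟩ := List.mem_map.1 hp
    exact ⟨q.1, (mem_fl hq).1, rfl⟩
  refine ⟨(f c₀, g b₁) :: (f c', g b₂) :: (L.map (Prod.map f g) ++ [(f x, g b₀)]),
    (f c', g b₂) :: (L.map (Prod.map f g) ++ [(f x, g b₀)]), ⟨hN, f, g, hf, hg, ?_⟩,
    ⟨hN2, f, g, fun a b ha hb => hf a b (hsub _ ha) (hsub _ hb),
      fun a b ha hb => hg a b (hsub _ ha) (hsub _ hb), ?_⟩, Relation.EqvGen.rel _ _
        (Mv.srow _ _ _ _ _ _ ?_ ?_)⟩
  · rw [fl_map]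
    simp only [List.map_cons, List.map_append, List.map_nil, Prod.map_apply]
    exact List.IsRotated.refl _
  · rw [fl_map]
    simp only [List.map_cons, List.map_append, List.map_nil, Prod.map_apply]
    exact List.IsRotated.refl _
  · have h1 : ((f c₀, g b₁) :: (f c', g b₂) :: (L.map (Prod.map f g) ++
      [(f x, g b₀)])) = ((c₀, b₁) :: (c', b₂) :: (L ++ [(x, b₀)])).map (Prod.map f g) := by
      simp
    rw [h1]
    refine ⟨?_, ?_⟩
    · have h2 : (((c₀, b₁) :: (c', b₂) :: (L ++ [(x, b₀)])).map (Prod.map f g)).map Prod.fst =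
          (((c₀, b₁) :: (c', b₂) :: (L ++ [(x, b₀)])).map Prod.fst).map f := by
        rw [List.map_map, List.map_map]
        rfl
      rw [h2]
      refine List.Nodup.map_on ?_ hN0.1
      intro a ha b hb hab
      obtain ⟨p, hp, rfl⟩ := List.mem_map.1 ha
      obtain ⟨q, hq, rfl⟩ := List.mem_map.1 hb
      exact finj _ _ (mem_fl hp).1 (mem_fl hq).1 hab
    · have h2 : (((c₀, b₁) :: (c', b₂) :: (L ++ [(x, b₀)])).map (Prod.map f g)).map Prod.snd =
          (((c₀, b₁) :: (c', b₂) :: (L ++ [(x, b₀)])).map Prod.snd).map g := by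
        rw [List.map_map, List.map_map]
        rfl
      rw [h2]
      refine List.Nodup.map_on ?_ hN0.2
      intro a ha b hb hab
      obtain ⟨p, hp, rfl⟩ := List.mem_map.1 ha
      obtain ⟨q, hq, rfl⟩ := List.mem_map.1 hb
      exact ginj _ _ (mem_fl hp).2 (mem_fl hq).2 hab
  · rcases hc with ⟨h1, h2⟩ | ⟨h1, h2⟩
    · left
      refine ⟨?_, cyc_mono g (hg _ _ m0.2 m1.2) (hg _ _ m1.2 m2.2) (hg _ _ m2.2 m0.2) h2⟩
      intro d hd hcy
      obtain ⟨y, hy, rfl⟩ := key d hd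
      have h3 := hf _ _ m1.1 m0.1 h1
      rcases hcy with ⟨h4, h5⟩ | ⟨h4, h5⟩ | ⟨h4, h5⟩
      · exact hadj y hy (Or.inl ⟨flt _ _ hy m1.1 h5, flt _ _ m0.1 hy h4⟩)
      · exact lt_asymm h5 h3
      · exact lt_asymm h4 h3
    · right
      refine ⟨?_, cyc_mono g (hg _ _ m2.2 m1.2) (hg _ _ m1.2 m0.2) (hg _ _ m0.2 m2.2)
        (cyc_rot.1 h2)⟩
      intro d hd hcy
      obtain ⟨y, hy, rfl⟩ := key d hd
      have h3 := hf _ _ m0.1 m1.1 h1
      rcases hcy with ⟨h4, h5⟩ | ⟨h4, h5⟩ | ⟨h4, h5⟩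
      · exact hadj y hy (Or.inr ⟨flt _ _ hy m0.1 h5, flt _ _ m1.1 hy h4⟩)
      · exact lt_asymm h5 h3
      · exact lt_asymm h4 h3

/-- The structure of the part `B`. -/
theorem struct {b₁ c₁ b₂ b₀ c₀ : Q} {B : List En}
    (hA : Alt (.inr b₁ :: .inl c₁ :: .inr b₂ :: (B ++ [.inr b₀, .inl c₀]))) :
    ∃ (L : List (Q × Q)) (x : Q), B = fl L ++ [Sum.inl x] := by
  have h1 : Alt (Sum.inl c₁ :: ((Sum.inr b₂ :: (B ++ [.inr b₀, .inl c₀])) ++ [Sum.inr b₁])) :=
    alt_rot (A := [Sum.inr b₁]) (B := Sum.inl c₁ :: Sum.inr b₂ :: (B ++ [Sum.inr b₀, Sum.inl c₀]))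
      hA
  obtain ⟨L, -, hL⟩ := chain_fl c₁ _ _ le_rfl c₁ ((alt_chain _ _).1 h1)
  -- remove the last pair `(c₀, b₁)`
  rcases List.eq_nil_or_concat L with rfl | ⟨L', p, rfl⟩
  · simp [fl] at hL
  rw [List.concat_eq_append, fl_append] at hL
  have h2 : Sum.inl c₁ :: ((Sum.inr b₂ :: (B ++ [.inr b₀, .inl c₀])) ++ [Sum.inr b₁]) =
      (Sum.inl c₁ :: Sum.inr b₂ :: (B ++ [.inr b₀])) ++ [Sum.inl c₀, Sum.inr b₁] := by simp
  rw [h2] at hL
  have h3 : (fl [p] : List En) = [Sum.inl p.1, Sum.inr p.2] := rfl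
  rw [h3] at hL
  have h4 := (List.append_inj' hL rfl).1
  rcases List.eq_nil_or_concat L' with rfl | ⟨L'', q, rfl⟩
  · simp [fl] at h4
  rw [List.concat_eq_append, fl_append] at h4
  have h5 : (fl [q] : List En) = [Sum.inl q.1] ++ [Sum.inr q.2] := rfl
  rw [h5, ← List.append_assoc] at h4
  have h6 : (Sum.inl c₁ :: Sum.inr b₂ :: (B ++ [.inr b₀]) : List En) =
      (Sum.inl c₁ :: Sum.inr b₂ :: B) ++ [.inr b₀] := rfl
  rw [h6] at h4
  have h7 := (List.append_inj' h4 rfl).1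
  match L'', h7 with
  | [], h7 => simp [fl] at h7
  | (a, b) :: L3, h7 =>
    have h8 : fl ((a, b) :: L3) ++ [Sum.inl q.1] =
      Sum.inl a :: Sum.inr b :: (fl L3 ++ [Sum.inl q.1]) := rfl
    rw [h8, List.cons.injEq, List.cons.injEq] at h7
    exact ⟨L3, q.1, h7.2.2⟩

end DR1

/-- DR1: removal of a short row, first direction. -/
theorem t_DR1 : Stmt_DR1 := by
  intro hW hE hCM b₁ c₁ b₂ b₀ c₀ B hA hN hM hc
  obtain ⟨L, x, rfl⟩ := DR1.struct hA
  have hne : c₁ ≠ c₀ := by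
    rcases hc with ⟨h, -⟩ | ⟨h, -⟩
    · exact h.ne
    · exact h.ne'
  obtain ⟨c', hb, hl⟩ := DR1.exists_adj (c₁ :: c₀ :: x :: L.map Prod.fst) c₁ c₀ hne
  have hc'1 : c₁ ≠ c' := (hl c₁ (by simp)).2
  have hc'0 : c₀ ≠ c' := (hl c₀ (by simp)).2
  have hc'x : x ≠ c' := (hl x (by simp)).2
  have hc'L : ∀ p ∈ L, p.1 ≠ c' := fun p hp => (hl p.1 (by
    simp only [List.mem_cons, List.mem_map]
    exact Or.inr (Or.inr (Or.inr ⟨p, hp, rfl⟩)))).2
  have hflL : ∀ c : Q, (Sum.inl c : En) ∈ fl L ↔ ∃ p ∈ L, p.1 = c := by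
    intro c
    unfold fl
    rw [List.mem_flatMap]
    constructor
    · rintro ⟨p, hp, h⟩
      simp only [List.mem_cons, Sum.inl.injEq, List.not_mem_nil, or_false, reduceCtorEq] at h
      exact ⟨p, hp, h.symm⟩
    · rintro ⟨p, hp, rfl⟩
      exact ⟨p, hp, by simp⟩
  have hc'2 : (Sum.inl c' : En) ∉ fl L := by
    rw [hflL]
    rintro ⟨p, hp, h⟩
    exact hc'L p hp h
  -- the first rotation
  have e1 := hW.rot [Sum.inr b₁]
    (Sum.inl c₁ :: Sum.inr b₂ :: ((fl L ++ [Sum.inl x]) ++ [Sum.inr b₀, Sum.inl c₀])) hA hN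
  have hA1 := DR1.alt_rot (A := [Sum.inr b₁])
    (B := Sum.inl c₁ :: Sum.inr b₂ :: ((fl L ++ [Sum.inl x]) ++ [Sum.inr b₀, Sum.inl c₀])) hA
  have hN1 : ((Sum.inl c₁ :: Sum.inr b₂ :: ((fl L ++ [Sum.inl x]) ++
      [Sum.inr b₀, Sum.inl c₀])) ++ [Sum.inr b₁] : List En).Nodup :=
    (List.perm_append_comm.nodup_iff).1 (show ([Sum.inr b₁] ++ (Sum.inl c₁ :: Sum.inr b₂ ::
      ((fl L ++ [Sum.inl x]) ++ [Sum.inr b₀, Sum.inl c₀])) : List En).Nodup from hN)
  -- the move of the column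
  have e2 := hCM c₁ c' b₁ b₂ ((fl L ++ [Sum.inl x]) ++ [Sum.inr b₀, Sum.inl c₀]) hA1 hN1
    (by
      simp only [List.mem_append, List.mem_cons, Sum.inl.injEq, List.not_mem_nil, or_false,
        reduceCtorEq, false_or]
      rintro ((h | h) | h)
      · exact hc'2 h
      · exact hc'x h.symm
      · exact hc'0 h.symm) hc'1.symm
    (by
      intro c r hmk hbt
      refine hM c r ?_ ?_
      · exact DR1.mk_rot (A := Sum.inl c₁ :: Sum.inr b₂ :: ((fl L ++ [Sum.inl x]) ++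
          [Sum.inr b₀, Sum.inl c₀])) (B := [Sum.inr b₁]) hmk
      · rcases hb with ⟨h1, h2⟩ | ⟨h1, h2⟩
        · rcases hbt with ⟨h3, h4⟩ | ⟨h3, h4⟩
          · exact Or.inl ⟨h3, h4.trans h2⟩
          · exact absurd (h3.trans h4) (lt_asymm h1)
        · rcases hbt with ⟨h3, h4⟩ | ⟨h3, h4⟩
          · exact absurd (h3.trans h4) (lt_asymm h2)
          · exact Or.inr ⟨h1.trans h3, h4⟩)
  -- Nodup of the list with the column `c'`
  have hN2 : (fl ((c₀, b₁) :: (c', b₂) :: (L ++ [(x, b₀)])) : List En).Nodup := by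
    have h1 : (fl ((c₀, b₁) :: (c', b₂) :: (L ++ [(x, b₀)])) : List En) =
        Sum.inl c₀ :: Sum.inr b₁ :: Sum.inl c' :: Sum.inr b₂ ::
          (fl L ++ [Sum.inl x, Sum.inr b₀]) := by
      rw [show (c₀, b₁) :: (c', b₂) :: (L ++ [(x, b₀)]) =
        [(c₀, b₁), (c', b₂)] ++ L ++ [(x, b₀)] by simp, DR1.fl_append, DR1.fl_append]
      rfl
    rw [h1]
    have hN' := hN
    simp only [List.nodup_cons, List.nodup_append, List.mem_append, List.mem_cons,
      List.not_mem_nil, or_false, reduceCtorEq, false_or, Sum.inl.injEq, Sum.inr.injEq,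
      List.nodup_nil, not_false_eq_true, and_true, forall_eq_or_imp, forall_eq, not_or,
      ne_eq] at hN' ⊢
    grind
  have f4 : ∀ a : Q, (fl ((a, b₂) :: (L ++ [(x, b₀)])) : List En) =
      Sum.inl a :: Sum.inr b₂ :: (fl L ++ [Sum.inl x, Sum.inr b₀]) := by
    intro a
    rw [show (a, b₂) :: (L ++ [(x, b₀)]) = [(a, b₂)] ++ L ++ [(x, b₀)] by simp, DR1.fl_append,
      DR1.fl_append]
    rfl
  have f3 : (fl ((c₀, b₁) :: (c', b₂) :: (L ++ [(x, b₀)])) : List En) =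
      [Sum.inl c₀, Sum.inr b₁] ++ (Sum.inl c' :: Sum.inr b₂ ::
        (fl L ++ [Sum.inl x, Sum.inr b₀])) := by
    rw [show (c₀, b₁) :: (c', b₂) :: (L ++ [(x, b₀)]) =
      [(c₀, b₁)] ++ ((c', b₂) :: (L ++ [(x, b₀)])) by simp, DR1.fl_append, f4]
    rfl
  -- the second rotation
  have hA3 : Alt (fl ((c₀, b₁) :: (c', b₂) :: (L ++ [(x, b₀)])) : List En) :=
    DR1.alt_fl _ (by simp)
  have hA3' := hA3
  have hN3' := hN2
  rw [f3] at hA3' hN3'
  have hA4 := DR1.alt_rot hA3'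
  have hN4 := (List.perm_append_comm.nodup_iff).1 hN3'
  have e3 := hW.rot _ _ hA4 hN4
  have g3 : (Sum.inl c' :: Sum.inr b₂ :: (fl L ++ [Sum.inl x, Sum.inr b₀]) ++
      [Sum.inl c₀, Sum.inr b₁] : List En) = Sum.inl c' :: Sum.inr b₂ ::
        (fl L ++ [Sum.inl x] ++ [Sum.inr b₀, Sum.inl c₀] ++ [Sum.inr b₁]) := by simp
  rw [g3, ← f3] at e3
  -- the removal
  have mem3 : ∀ d, (Sum.inl d : En) ∈ fl ((c₀, b₁) :: (c', b₂) :: (L ++ [(x, b₀)])) →
      d = c' ∨ d ∈ c₁ :: c₀ :: x :: L.map Prod.fst := by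
    intro d hd
    rw [f3] at hd
    simp only [List.mem_cons, List.mem_append, Sum.inl.injEq, reduceCtorEq, List.not_mem_nil,
      or_false, false_or, hflL, List.mem_map] at hd ⊢
    tauto
  have e4 := DR1.core hE b₁ b₂ c₀ c' x b₀ L hN2
    (by
      intro d hd
      rcases mem3 d hd with rfl | hd
      · rintro (⟨h, -⟩ | ⟨-, h⟩)
        · exact lt_irrefl _ h
        · exact lt_irrefl _ h
      · exact (hl d hd).1)
    (by
      rcases hc with ⟨h1, h2⟩ | ⟨h1, h2⟩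
      · rcases hb with ⟨h3, h4⟩ | ⟨h3, h4⟩
        · exact Or.inl ⟨h4, h2⟩
        · exact absurd (h3.trans h4) (lt_asymm h1)
      · rcases hb with ⟨h3, h4⟩ | ⟨h3, h4⟩
        · exact absurd (h3.trans h4) (lt_asymm h1)
        · exact Or.inr ⟨h3, h2⟩)
  -- renaming of the column
  have hN5 : (fl ((c', b₂) :: (L ++ [(x, b₀)])) : List En).Nodup := by
    have h := hN2
    rw [f3, List.nodup_append] at h
    rw [f4]
    exact h.2.1
  have hN6 : (fl ((c₀, b₂) :: (L ++ [(x, b₀)])) : List En).Nodup := by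
    have h := hN2
    rw [f3] at h
    rw [f4]
    simp only [List.nodup_cons, List.nodup_append, List.mem_append, List.mem_cons,
      List.not_mem_nil, or_false, reduceCtorEq, false_or, Sum.inl.injEq, Sum.inr.injEq,
      List.nodup_nil, not_false_eq_true, and_true, forall_eq_or_imp, forall_eq, not_or,
      ne_eq] at h ⊢
    grind
  have e5 := hW.iso (fl ((c', b₂) :: (L ++ [(x, b₀)]))) (fun c => if c = c' then c₀ else c) id
    (DR1.alt_fl _ (by simp)) hN5
    (by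
      have key : ∀ d, (Sum.inl d : En) ∈ fl ((c', b₂) :: (L ++ [(x, b₀)])) → d ≠ c' →
          ¬ Btw c' c₀ d ∧ d ≠ c₀ := by
        intro d hd hne'
        have h1 : (Sum.inl d : En) ∈ fl ((c₀, b₁) :: (c', b₂) :: (L ++ [(x, b₀)])) := by
          rw [f3]
          rw [f4] at hd
          exact List.mem_append_right _ hd
        refine ⟨?_, ?_⟩
        · rcases mem3 d h1 with h | h
          · exact absurd h hne'
          · exact (hl d h).1
        · rintro rfl
          rw [f4] at hd hN6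
          rcases List.mem_cons.1 hd with h | h
          · exact hne' (Sum.inl.inj h)
          · exact (List.nodup_cons.1 hN6).1 h
      intro a b ha hb' hab
      have ka := key a ha
      have kb := key b hb'
      simp only [Btw] at ka kb
      by_cases h1 : a = c' <;> by_cases h2 : b = c'
      · rw [h1, h2] at hab
        exact absurd hab (lt_irrefl _)
      · simp only [if_pos h1, if_neg h2]
        obtain ⟨k1, k2⟩ := kb h2
        subst h1
        by_contra h3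
        rcases lt_or_eq_of_le (not_lt.1 h3) with h4 | h4
        · exact k1 (Or.inl ⟨hab, h4⟩)
        · exact k2 h4
      · simp only [if_neg h1, if_pos h2]
        obtain ⟨k1, k2⟩ := ka h1
        subst h2
        by_contra h3
        rcases lt_or_eq_of_le (not_lt.1 h3) with h4 | h4
        · exact k1 (Or.inr ⟨h4, hab⟩)
        · exact k2 h4.symm
      · simp only [if_neg h1, if_neg h2]
        exact hab)
    (fun a b _ _ h => h)
  have g5 : (fl ((c', b₂) :: (L ++ [(x, b₀)])) : List En).map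
      (Sum.map (fun c => if c = c' then c₀ else c) id) = fl ((c₀, b₂) :: (L ++ [(x, b₀)])) := by
    rw [DR1.fl_map]
    congr 1
    rw [List.map_cons, List.map_append, List.map_cons, List.map_nil]
    congr 1
    · simp
    · congr 1
      · conv_rhs => rw [← List.map_id L]
        apply List.map_congr_left
        intro p hp
        refine Prod.ext ?_ rfl
        simp only [Prod.map_fst, id_eq]
        exact if_neg (hc'L p hp)
      · simp [hc'x]
  rw [g5] at e5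
  -- the last rotation
  have hA6 : Alt (fl ((c₀, b₂) :: (L ++ [(x, b₀)])) : List En) := DR1.alt_fl _ (by simp)
  rw [f4 c₀] at hA6 hN6 e5
  have e6 := hW.rot [Sum.inl c₀] (Sum.inr b₂ :: (fl L ++ [Sum.inl x, Sum.inr b₀])) hA6 hN6
  have g6 : (Sum.inr b₂ :: (fl L ++ [Sum.inl x, Sum.inr b₀]) ++ [Sum.inl c₀] : List En) =
      Sum.inr b₂ :: (fl L ++ [Sum.inl x] ++ [Sum.inr b₀, Sum.inl c₀]) := by simp
  rw [g6] at e6
  exact hW.trans _ _ _ e1 (hW.trans _ _ _ e2 (hW.trans _ _ _ e3 (hW.trans _ _ _ e4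
    (hW.trans _ _ _ e5 e6))))

end LH


end

section

/-!
# FRM: a right turn moves
-/

namespace LH

open Set LG

namespace FRM

theorem cp_head {α : Type*} (u q : α) (T : List α) (hn : (u :: T).Nodup) (hT : T ≠ [])
    (h : (u, q) ∈ cp (u :: T)) : ∃ T', T = q :: T' := by
  obtain ⟨a, T', rfl⟩ := List.exists_cons_of_ne_nil hT
  unfold cp at h
  have hr : (u :: a :: T').rotate 1 = a :: (T' ++ [u]) := by simp
  rw [hr, List.zip_cons_cons, List.mem_cons] at h
  rcases h with h | h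
  · simp only [Prod.mk.injEq, true_and] at h
    exact ⟨T', by rw [h]⟩
  · exact absurd (List.of_mem_zip h).1 (List.nodup_cons.1 hn).1

theorem cp_last {α : Type*} (u p : α) (T : List α) (hn : (u :: T).Nodup) (hT : T ≠ [])
    (h : (p, u) ∈ cp (u :: T)) : ∃ T', T = T' ++ [p] := by
  obtain ⟨T', a, rfl⟩ : ∃ T' a, T = T' ++ [a] :=
    ⟨T.dropLast, T.getLast hT, (List.dropLast_append_getLast hT).symm⟩
  unfold cp at h
  have hr : (u :: (T' ++ [a])).rotate 1 = (T' ++ [a]) ++ [u] := by simp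
  have h2 : u :: (T' ++ [a]) = (u :: T') ++ [a] := by simp
  rw [hr, h2, List.zip_append (by simp), List.mem_append] at h
  rcases h with h | h
  · exact absurd (List.of_mem_zip h).2 (List.nodup_cons.1 hn).1
  · simp only [List.zip_cons_cons, List.zip_nil_right, List.mem_cons, Prod.mk.injEq, and_true,
      List.not_mem_nil, or_false] at h
    exact ⟨T', by rw [h]⟩

theorem ent_first (q : Pt) (h : ¬ q.k.ar) : ∃ E, ent q = .inr q.r :: E := by
  unfold ent
  cases hk : q.k <;> simp [hk, Kd.ar] at h ⊢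

theorem ent_last (p : Pt) (h : p.k.fw) : ∃ E, ent p = E ++ [.inr p.r] := by
  unfold ent
  cases hk : p.k <;> simp [hk, Kd.fw] at h ⊢
  exact ⟨[.inl p.c], rfl⟩

end FRM

open _root_.LH.FRM

theorem t_FRM : Stmt_FRM := by
  intro hW hC hM hK u u' T p q h1 h2 hu hu' hp hq hm1 hm2
  have e1 : ∀ v : Pt, v.k = .R → ents (v :: T) = .inl v.c :: ents T := by
    intro v hv
    simp [ents, ent, hv]
  have hnd := hC.nd _ h1
  have hl := h1.len
  rw [e1 u hu, List.length_cons] at hl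
  have hT : T ≠ [] := by
    rintro rfl
    simp [ents] at hl
  have s1 := h1.st _ hp
  have s2 := h1.st _ hq
  simp only [Stp, hu, Kd.ar, Kd.fw, not_true_eq_false, false_and, and_false, or_false, true_and,
    false_or, not_false_eq_true] at s1 s2
  obtain ⟨Tq, rfl⟩ := cp_head u q T hnd hT hq
  obtain ⟨T', hT'⟩ := cp_last u p (q :: Tq) hnd hT hp
  have hlen : T' ≠ [] := by
    rintro rfl
    simp only [List.nil_append, List.cons.injEq] at hT'
    obtain ⟨rfl, rfl⟩ := hT'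
    have : (ents [q]).length ≤ 2 := by
      simp only [ents, List.flatMap_cons, List.flatMap_nil, List.append_nil]
      unfold ent
      cases q.k <;> simp
    omega
  obtain ⟨a, T'', rfl⟩ := List.exists_cons_of_ne_nil hlen
  rw [List.cons_append, List.cons.injEq] at hT'
  obtain ⟨rfl, rfl⟩ := hT'
  obtain ⟨Eq, hEq⟩ := ent_first q s2.1
  obtain ⟨Ep, hEp⟩ := ent_last p s1.1
  have e2 : ents (q :: (T'' ++ [p])) = .inr q.r :: ((Eq ++ ents T'' ++ Ep) ++ [.inr p.r]) := by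
    simp [ents, hEq, hEp]
  have ew : ∀ v : Pt, v.k = .R → ents (v :: q :: (T'' ++ [p])) =
      .inl v.c :: .inr q.r :: ((Eq ++ ents T'' ++ Ep) ++ [.inr p.r]) := by
    intro v hv
    rw [e1 v hv, e2]
  have hA := hC.alt _ h1
  have hN := h1.nd
  have hN' := h2.nd
  by_cases hc : u'.c = u.c
  · have : ents (u' :: q :: (T'' ++ [p])) = ents (u :: q :: (T'' ++ [p])) := by
      rw [ew u hu, ew u' hu', hc]
    rw [this]
    exact hW.refl _ hA hN
  · have hmk := hK (u :: q :: (T'' ++ [p])) (by simp) h1.st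
    rw [ew u hu] at hA hN hmk ⊢
    rw [ew u' hu'] at hN' ⊢
    refine hM u.c u'.c p.r q.r _ hA hN ?_ hc ?_
    · intro hin
      have := (List.nodup_cons.1 hN').1
      exact this (List.mem_cons_of_mem _ (List.mem_append_left _ hin))
    · intro c r hcr hb
      rcases (hmk c r).1 hcr with ⟨x, y, hxy, rfl, rfl⟩ | ⟨x, hx, hk, rfl, rfl⟩
      · exact hm1 x y hxy hb
      · rcases List.mem_cons.1 hx with rfl | hx
        · rw [hu] at hk
          rcases hk with hk | hk <;> cases hk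
        · exact hm2 x hx hk hb

end LH


end

section

/-!
# INC: increments of the height between two lines
-/

namespace LH

open Set LG

namespace INC

/-- Walking to the right, `x` increasing. -/
lemma xr (hB : P_PGB) {N : ℕ} (P : Pg N) (i : ℤ) (s m M : ℝ) (j : ℤ) (hij : i ≤ j) :
    ∀ t : ℝ, s < t → (∀ k, i < k → k ≤ j → s < P.x k ∧ P.x k < t) →
      (∀ k, i ≤ k → k ≤ j → m ≤ P.y k ∧ P.y k ≤ M) → StrictMonoOn P.x (Icc i (j + 1)) →
      m * (t - s) ≤ P.l j t - P.l i s ∧ P.l j t - P.l i s ≤ M * (t - s) := by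
  induction j, hij using Int.leInduction with
  | base =>
    intro t hst _ hy _
    have h1 := hy i le_rfl le_rfl
    have h2 := hB.dt P i s t
    have h3 : 0 < t - s := sub_pos.2 hst
    rw [h2]
    exact ⟨mul_le_mul_of_nonneg_right h1.1 h3.le, mul_le_mul_of_nonneg_right h1.2 h3.le⟩
  | succ j hj ih =>
    intro t hst hx hy hmo
    have h1 := hx (j + 1) (by omega) le_rfl
    have h2 := ih (P.x (j + 1)) h1.1
      (fun k hk1 hk2 => ⟨(hx k hk1 (by omega)).1,
        hmo ⟨by omega, by omega⟩ ⟨by omega, by omega⟩ (by omega)⟩)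
      (fun k hk1 hk2 => hy k hk1 (by omega))
      (hmo.mono (Icc_subset_Icc le_rfl (by omega)))
    have h3 := hB.dt P (j + 1) (P.x (j + 1)) t
    have h4 := (hB.lz P j).2
    have h5 := (hB.lz P (j + 1)).1
    have h6 := hy (j + 1) (by omega) le_rfl
    have h7 : 0 < t - P.x (j + 1) := sub_pos.2 h1.2
    have h8 := mul_le_mul_of_nonneg_right h6.1 h7.le
    have h9 := mul_le_mul_of_nonneg_right h6.2 h7.le
    rw [h4] at h2
    rw [h5] at h3
    constructor
    · linarith [h2.1]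
    · linarith [h2.2]

/-- Walking to the left, `x` decreasing. -/
lemma xl (hB : P_PGB) {N : ℕ} (P : Pg N) (i : ℤ) (t m M : ℝ) (j : ℤ) (hij : i ≤ j) :
    ∀ s : ℝ, s < t → (∀ k, i < k → k ≤ j → s < P.x k ∧ P.x k < t) →
      (∀ k, i ≤ k → k ≤ j → m ≤ P.y k ∧ P.y k ≤ M) → StrictAntiOn P.x (Icc i (j + 1)) →
      m * (t - s) ≤ P.l i t - P.l j s ∧ P.l i t - P.l j s ≤ M * (t - s) := by
  induction j, hij using Int.leInduction with
  | base =>
    intro s hst _ hy _
    have h1 := hy i le_rfl le_rfl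
    have h2 := hB.dt P i s t
    have h3 : 0 < t - s := sub_pos.2 hst
    rw [h2]
    exact ⟨mul_le_mul_of_nonneg_right h1.1 h3.le, mul_le_mul_of_nonneg_right h1.2 h3.le⟩
  | succ j hj ih =>
    intro s hst hx hy hmo
    have h1 := hx (j + 1) (by omega) le_rfl
    have h2 := ih (P.x (j + 1)) h1.2
      (fun k hk1 hk2 => ⟨hmo ⟨by omega, by omega⟩ ⟨by omega, by omega⟩ (by omega),
        (hx k hk1 (by omega)).2⟩)
      (fun k hk1 hk2 => hy k hk1 (by omega))
      (hmo.mono (Icc_subset_Icc le_rfl (by omega)))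
    have h3 := hB.dt P (j + 1) s (P.x (j + 1))
    have h4 := (hB.lz P j).2
    have h5 := (hB.lz P (j + 1)).1
    have h6 := hy (j + 1) (by omega) le_rfl
    have h7 : 0 < P.x (j + 1) - s := sub_pos.2 h1.1
    have h8 := mul_le_mul_of_nonneg_right h6.1 h7.le
    have h9 := mul_le_mul_of_nonneg_right h6.2 h7.le
    rw [h4] at h2
    rw [h5] at h3
    constructor
    · linarith [h2.1]
    · linarith [h2.2]

end INC

open _root_.LH.INC

theorem t_INC : Stmt_INC := by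
  intro hB
  refine ⟨?_, ?_⟩
  · intro N P i j s t m M hij hst hx hy h
    rcases h with h | h
    · have hts : 0 < t - s := sub_pos.2 hst
      have hi := hy i le_rfl hij
      have hj := hy j hij le_rfl
      have di := hB.dt P i s t
      have dj := hB.dt P j s t
      have a1 := mul_le_mul_of_nonneg_right hi.1 hts.le
      have a2 := mul_le_mul_of_nonneg_right hi.2 hts.le
      have a3 := mul_le_mul_of_nonneg_right hj.1 hts.le
      have a4 := mul_le_mul_of_nonneg_right hj.2 hts.le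
      rcases eq_or_lt_of_le hij with e | e
      · subst e
        constructor <;> linarith
      · rcases h with h | h
        · have b1 := hB.m1 P i j t e h (fun k h1 h2 => (hx k h1 h2).2)
          have b2 := hB.m2 P i j s e h (fun k h1 h2 => (hx k h1 h2).1)
          constructor <;> linarith
        · have b1 := hB.m3 P i j t e h (fun k h1 h2 => (hx k h1 h2).2)
          have b2 := hB.m4 P i j s e h (fun k h1 h2 => (hx k h1 h2).1)
          constructor <;> linarith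
    · exact xr hB P i s m M j hij t hst hx hy h
  · intro N P i j s t m M hij hst hx hy h
    rcases h with h | h
    · have hts : 0 < t - s := sub_pos.2 hst
      have hi := hy i le_rfl hij
      have hj := hy j hij le_rfl
      have di := hB.dt P i s t
      have dj := hB.dt P j s t
      have a1 := mul_le_mul_of_nonneg_right hi.1 hts.le
      have a2 := mul_le_mul_of_nonneg_right hi.2 hts.le
      have a3 := mul_le_mul_of_nonneg_right hj.1 hts.le
      have a4 := mul_le_mul_of_nonneg_right hj.2 hts.le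
      rcases eq_or_lt_of_le hij with e | e
      · subst e
        constructor <;> linarith
      · rcases h with h | h
        · have b1 := hB.m1 P i j t e h (fun k h1 h2 => (hx k h1 h2).2)
          have b2 := hB.m2 P i j s e h (fun k h1 h2 => (hx k h1 h2).1)
          constructor <;> linarith
        · have b1 := hB.m3 P i j t e h (fun k h1 h2 => (hx k h1 h2).2)
          have b2 := hB.m4 P i j s e h (fun k h1 h2 => (hx k h1 h2).1)
          constructor <;> linarith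
    · exact xl hB P i t m M j hij s hst hx hy h

end LH


end

section

/-!
# TRC: rotation of the conditions for the removal of a line
-/

namespace LH

open Set LG

namespace TRC

/-- Membership in a rotated list. -/
theorem mem_swap {A B : List Pt} {p : Pt} : p ∈ B ++ A ↔ p ∈ A ++ B := by
  rw [List.mem_append, List.mem_append, or_comm]

/-- Length of the entries of the rotated list. -/
theorem len_swap (a s d : ℝ) (el er : Pt → ℝ) (A B : List Pt) :
    (ents (rmv a s d el er (B ++ A))).length = (ents (rmv a s d el er (A ++ B))).length := by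
  unfold rmv ents
  rw [List.filterMap_append, List.filterMap_append, List.flatMap_append, List.flatMap_append,
    List.length_append, List.length_append, Nat.add_comm]

end TRC

/-- TRC -/
theorem t_TRC : Stmt_TRC := by
  intro hC A B a s d el er h
  have hlk : ∀ p q, Lk (B ++ A) p q ↔ Lk (A ++ B) p q := fun p q => (hC.lk A B p q).symm
  have hmem : ∀ p, p ∈ B ++ A ↔ p ∈ A ++ B := fun p => TRC.mem_swap
  have hKS : ∀ (u : Pt), KS (B ++ A) el u = KS (A ++ B) el u := by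
    intro u
    ext x
    simp only [KS, Set.mem_ofPred_eq, hlk]
  have hRS : ∀ (u : Pt), RS (B ++ A) er u = RS (A ++ B) er u := by
    intro u
    ext x
    simp only [RS, Set.mem_ofPred_eq, hlk]
  refine ⟨(hC.rot A B h.cw).1, h.lt₁, h.lt₂, ?_, ?_, ?_, ?_, ?_, ?_, ?_⟩
  · intro p hp
    exact h.ln p ((hmem p).1 hp)
  · intro p q hpq
    exact h.lk p q ((hlk p q).1 hpq)
  · intro u hu hk ht v hv
    exact h.dr u ((hmem u).1 hu) hk ht v ((hmem v).1 hv)
  · intro u hu hk ht v hv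
    exact h.dl u ((hmem u).1 hu) hk ht v ((hmem v).1 hv)
  · intro u hu v hv hus hvs huv hh
    rw [hKS v, hKS u, hRS v, hRS u]
    exact h.st u ((hmem u).1 hu) v ((hmem v).1 hv) hus hvs huv hh
  · intro p q hpq hpa hqd u hu hus
    rw [hKS u, hRS u]
    exact h.lg p q ((hlk p q).1 hpq) hpa hqd u ((hmem u).1 hu) hus
  · rw [TRC.len_swap a s d el er A B]
    exact h.len

end LH


end

section

/-!
# THI: the arcs are over their cells; the derivatives at their ends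
-/

set_option autoImplicit false

namespace LHE

open Set LG LH

namespace THI

theorem x_diff (Λ : LC.LegKnot) : Differentiable ℝ Λ.x := by
  have h : ContDiff ℝ (⊤ : ℕ∞) (fun u => (Λ.γ u).1) := (Λ.smooth).fst
  exact h.differentiable (by simp)

theorem sg_or {L : ℕ} {m z : ℤ → ℤ} (h : LatD L m z) (i : ℤ) : sg m i = 1 ∨ sg m i = -1 := by
  rcases h.dm i with h | h
  · left; simp only [sg]; omega
  · right; simp only [sg]; omega

theorem smono {Λ : LC.LegKnot} {X₀ P₀ w : ℝ} {L : ℕ} {m z : ℤ → ℤ} {ν : ℤ → ℝ}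
    (S : LatS Λ X₀ P₀ w L m z ν) (i : ℤ) :
    StrictMonoOn (fun u => (sg m i : ℝ) * Λ.x u) (Icc (ν i) (ν (i + 1))) := by
  apply strictMonoOn_of_deriv_pos (convex_Icc _ _)
  · exact (continuous_const.mul (x_diff Λ).continuous).continuousOn
  · intro u hu
    rw [interior_Icc] at hu
    rw [deriv_const_mul _ (x_diff Λ u)]
    exact S.dx i u hu

theorem d0 (i : ℤ) : (3 * i) / 3 = i := by omega
theorem m0 (i : ℤ) : (3 * i) % 3 = 0 := by omega
theorem d1 (i : ℤ) : (3 * i + 1) / 3 = i := by omega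
theorem m1 (i : ℤ) : (3 * i + 1) % 3 = 1 := by omega
theorem d2 (i : ℤ) : (3 * i + 2) / 3 = i := by omega
theorem m2 (i : ℤ) : (3 * i + 2) % 3 = 2 := by omega

theorem cs0 (m : ℤ → ℤ) (i : ℤ) :
    cs m (3 * i) = if sg m (i - 1) = 1 then 3 * m i - 1 else 3 * m i + 2 := by
  unfold cs
  rw [d0, m0, if_pos rfl]

theorem cs1 (m : ℤ → ℤ) (i : ℤ) :
    cs m (3 * i + 1) = if sg m (i - 1) = 1 then 3 * m i else 3 * m i + 1 := by
  unfold cs
  rw [d1, m1, if_neg (by norm_num), if_pos rfl]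

theorem cs2 (m : ℤ → ℤ) (i : ℤ) :
    cs m (3 * i + 2) = if sg m i = 1 then 3 * m i + 1 else 3 * m i := by
  unfold cs
  rw [d2, m2, if_neg (by norm_num), if_neg (by norm_num)]

theorem ca0 (m : ℤ → ℤ) (i : ℤ) :
    ca m (3 * i) = if sg m (i - 1) = 1 then 3 * m i - 1 else 3 * m i + 1 := by
  unfold ca
  rw [d0, m0, if_pos rfl]

theorem ca1 (m : ℤ → ℤ) (i : ℤ) : ca m (3 * i + 1) = 3 * m i := by
  unfold ca
  rw [d1, m1, if_neg (by norm_num), if_pos rfl]

theorem ca2 (m : ℤ → ℤ) (i : ℤ) :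
    ca m (3 * i + 2) = if sg m i = 1 then 3 * m i + 1 else 3 * m i - 1 := by
  unfold ca
  rw [d2, m2, if_neg (by norm_num), if_neg (by norm_num)]

theorem gd0 (m : ℤ → ℤ) (i : ℤ) : gd m (3 * i) = decide (sg m (i - 1) = 1) := by
  unfold gd
  rw [d0, m0, if_neg (by norm_num)]

theorem gd1 (m : ℤ → ℤ) (i : ℤ) : gd m (3 * i + 1) = decide (sg m (i - 1) = 1) := by
  unfold gd
  rw [d1, m1, if_neg (by norm_num)]

theorem gd2 (m : ℤ → ℤ) (i : ℤ) : gd m (3 * i + 2) = decide (sg m i = 1) := by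
  unfold gd
  rw [d2, m2, if_pos rfl]

theorem sn_sg {L : ℕ} {m z : ℤ → ℤ} (h : LatD L m z) (i : ℤ) :
    sn (decide (sg m i = 1)) = (sg m i : ℝ) := by
  rcases sg_or h i with h | h
  · rw [h]; simp [sn]
  · rw [h]; simp [sn]

theorem ln0 (X₀ w ε : ℝ) (a : ℤ) : ln X₀ w ε (3 * a) = X₀ * a - 7 / 8 * w + ε := by
  unfold ln
  rw [d0, m0, if_pos rfl]
  ring

theorem ln1 (X₀ w ε : ℝ) (a : ℤ) : ln X₀ w ε (3 * a + 1) = X₀ * a + 7 / 8 * w + ε := by
  unfold ln
  rw [d1, m1, if_neg (by norm_num), if_pos rfl]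

theorem cases3 (k : ℤ) : ∃ i : ℤ, k = 3 * i ∨ k = 3 * i + 1 ∨ k = 3 * i + 2 :=
  ⟨k / 3, by omega⟩

/-- values between the values at the ends of a piece of an edge -/
theorem btw {Λ : LC.LegKnot} {X₀ P₀ w : ℝ} {L : ℕ} {m z : ℤ → ℤ} {ν : ℤ → ℝ}
    (S : LatS Λ X₀ P₀ w L m z ν) {i : ℤ} {p q u : ℝ} (hp : ν i ≤ p) (hq : q ≤ ν (i + 1))
    (h1 : p < u) (h2 : u < q) :
    (sg m i : ℝ) * Λ.x p < sg m i * Λ.x u ∧ (sg m i : ℝ) * Λ.x u < sg m i * Λ.x q :=
  ⟨smono S i ⟨hp, by linarith⟩ ⟨by linarith, by linarith⟩ h1,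
    smono S i ⟨by linarith, by linarith⟩ ⟨by linarith, hq⟩ h2⟩

end THI

open _root_.LHE.THI

/-- THI -/
theorem t_THI : Stmt_THI := by
  intro _ Λ X₀ P₀ w ε L m z ν θ D S e0 e1 T
  have lt0 : ∀ i, θ (3 * i) < ν i := fun i => (T.h₁ i).trans (T.h₂ i)
  have lt1 : ∀ i, ν (i - 1) < θ (3 * i + 1) := fun i => (T.h₀ i).trans (T.h₁ i)
  have n3 : ∀ i, θ (3 * i + 3) < ν (i + 1) := by
    intro i
    have h := lt0 (i + 1)
    rwa [show 3 * (i + 1) = 3 * i + 3 by ring] at h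
  have lt2 : ∀ i, θ (3 * i + 2) < ν (i + 1) := fun i => (T.h₄ i).trans (n3 i)
  have gt3 : ∀ i, ν i < θ (3 * i + 3) := fun i => (T.h₃ i).trans (T.h₄ i)
  have e3 : ∀ i : ℤ, 3 * i + 2 + 1 = 3 * i + 3 := fun i => by ring
  have e2 : ∀ i : ℤ, 3 * i + 1 + 1 = 3 * i + 2 := fun i => by ring
  have ie : ∀ i : ℤ, i - 1 + 1 = i := fun i => by ring
  -- values at the ends
  have x0 : ∀ i, Λ.x (θ (3 * i)) = ln X₀ w ε (cs m (3 * i)) := fun i => T.hit _
  have x1 : ∀ i, Λ.x (θ (3 * i + 1)) = ln X₀ w ε (cs m (3 * i + 1)) := fun i => T.hit _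
  have x2 : ∀ i, Λ.x (θ (3 * i + 2)) = ln X₀ w ε (cs m (3 * i + 2)) := fun i => T.hit _
  have x3 : ∀ i, Λ.x (θ (3 * i + 3)) = ln X₀ w ε (cs m (3 * (i + 1))) := by
    intro i
    have h := T.hit (3 * i + 3)
    rw [h]
    unfold sR
    rw [show 3 * i + 3 = 3 * (i + 1) by ring]
  -- the points are between the two near lines
  have xn : ∀ i, ln X₀ w ε (3 * m i) < Λ.x (ν i) ∧ Λ.x (ν i) < ln X₀ w ε (3 * m i + 1) := by
    intro i
    have h := abs_le.1 (S.tb i)
    rw [ln0, ln1]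
    constructor
    · linarith [h.1]
    · linarith [h.2, S.w0]
  -- the arcs of the residue 1, closed intervals for the first and the second half
  have A1 : ∀ i, ∀ u, θ (3 * i + 1) < u → u ≤ ν i →
      ln X₀ w ε (3 * m i) < Λ.x u ∧ Λ.x u < ln X₀ w ε (3 * m i + 1) := by
    intro i u hu1 hu2
    have h1 : (sg m (i - 1) : ℝ) * Λ.x (θ (3 * i + 1)) < sg m (i - 1) * Λ.x u :=
      smono S (i - 1) ⟨(lt1 i).le, by rw [ie]; linarith⟩ ⟨by linarith [lt1 i], by rw [ie]; exact hu2⟩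
        hu1
    have h2 : (sg m (i - 1) : ℝ) * Λ.x u ≤ sg m (i - 1) * Λ.x (ν i) :=
      (smono S (i - 1)).monotoneOn ⟨by linarith [lt1 i], by rw [ie]; exact hu2⟩
        ⟨by linarith [lt1 i], by rw [ie]⟩ hu2
    rcases sg_or D (i - 1) with h | h
    · rw [x1, cs1, if_pos h, h] at h1
      rw [h] at h2
      push_cast at h1 h2
      exact ⟨by linarith, by linarith [(xn i).2]⟩
    · have h' : sg m (i - 1) ≠ 1 := by rw [h]; norm_num
      rw [x1, cs1, if_neg h', h] at h1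
      rw [h] at h2
      push_cast at h1 h2
      exact ⟨by linarith [(xn i).1], by linarith⟩
  have A2 : ∀ i, ∀ u, ν i ≤ u → u < θ (3 * i + 2) →
      ln X₀ w ε (3 * m i) < Λ.x u ∧ Λ.x u < ln X₀ w ε (3 * m i + 1) := by
    intro i u hu1 hu2
    have h1 : (sg m i : ℝ) * Λ.x u < sg m i * Λ.x (θ (3 * i + 2)) :=
      smono S i ⟨hu1, by linarith [lt2 i]⟩ ⟨by linarith, (lt2 i).le⟩ hu2
    have h2 : (sg m i : ℝ) * Λ.x (ν i) ≤ sg m i * Λ.x u :=
      (smono S i).monotoneOn ⟨le_rfl, by linarith [lt2 i]⟩ ⟨hu1, by linarith [lt2 i]⟩ hu1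
    rcases sg_or D i with h | h
    · rw [x2, cs2, if_pos h, h] at h1
      rw [h] at h2
      push_cast at h1 h2
      exact ⟨by linarith [(xn i).1], by linarith⟩
    · have h' : sg m i ≠ 1 := by rw [h]; norm_num
      rw [x2, cs2, if_neg h', h] at h1
      rw [h] at h2
      push_cast at h1 h2
      exact ⟨by linarith, by linarith [(xn i).2]⟩
  -- the derivative of `x` on the edges
  have dx' : ∀ i, ∀ u, ν i < u → u < ν (i + 1) → deriv Λ.x u ≠ 0 := by
    intro i u h1 h2 h0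
    have h := S.dx i u ⟨h1, h2⟩
    rw [h0, mul_zero] at h
    exact lt_irrefl _ h
  have dxm : ∀ i, ∀ u, ν (i - 1) < u → u < ν i → deriv Λ.x u ≠ 0 := by
    intro i u h1 h2
    exact dx' (i - 1) u h1 (by rw [ie]; exact h2)
  refine ⟨?_, ?_, ?_, ?_⟩
  · intro k
    obtain ⟨i, rfl | rfl | rfl⟩ := cases3 k
    · exact T.h₁ i
    · rw [e2]; exact (T.h₂ i).trans (T.h₃ i)
    · rw [e3]; exact T.h₄ i
  · intro k
    obtain ⟨i, rfl | rfl | rfl⟩ := cases3 k
    · rw [gd0, sn_sg D]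
      exact S.dx (i - 1) _ ⟨T.h₀ i, by rw [ie]; exact lt0 i⟩
    · rw [gd1, sn_sg D]
      exact S.dx (i - 1) _ ⟨lt1 i, by rw [ie]; exact T.h₂ i⟩
    · rw [gd2, sn_sg D]
      exact S.dx i _ ⟨T.h₃ i, lt2 i⟩
  · intro k u hu
    unfold aR bR
    obtain ⟨i, rfl | rfl | rfl⟩ := cases3 k
    · have h := btw S (i := i - 1) (T.h₀ i).le (by rw [ie]; exact (T.h₂ i).le) hu.1 hu.2
      rw [x0, x1, cs0, cs1] at h
      rw [ca0]
      rcases sg_or D (i - 1) with hs | hs
      · rw [if_pos hs, if_pos hs, hs] at h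
        rw [if_pos hs, show 3 * m i - 1 + 1 = 3 * m i by ring]
        push_cast at h
        exact ⟨by linarith [h.1], by linarith [h.2]⟩
      · have h' : sg m (i - 1) ≠ 1 := by rw [hs]; norm_num
        rw [if_neg h', if_neg h', hs] at h
        rw [if_neg h', show 3 * m i + 1 + 1 = 3 * m i + 2 by ring]
        push_cast at h
        exact ⟨by linarith [h.2], by linarith [h.1]⟩
    · rw [e2] at hu
      rw [ca1]
      rcases le_total u (ν i) with h | h
      · exact A1 i u hu.1 h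
      · exact A2 i u h hu.2
    · rw [e3] at hu
      have h := btw S (i := i) (T.h₃ i).le (n3 i).le hu.1 hu.2
      rw [x2, x3, cs2, cs0, show i + 1 - 1 = i by ring] at h
      rw [ca2]
      rcases sg_or D i with hs | hs
      · have hm : m (i + 1) = m i + 1 := by unfold sg at hs; omega
        rw [if_pos hs, if_pos hs, hs, hm] at h
        rw [if_pos hs, show 3 * m i + 1 + 1 = 3 * (m i + 1) - 1 by ring]
        push_cast at h
        exact ⟨by linarith [h.1], by linarith [h.2]⟩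
      · have h' : sg m i ≠ 1 := by rw [hs]; norm_num
        have hm : m (i + 1) = m i - 1 := by unfold sg at hs; omega
        rw [if_neg h', if_neg h', hs, hm, show 3 * (m i - 1) + 2 = 3 * m i - 1 by ring] at h
        rw [if_neg h', show 3 * m i - 1 + 1 = 3 * m i by ring]
        push_cast at h
        exact ⟨by linarith [h.2], by linarith [h.1]⟩
  · intro k
    obtain ⟨i, rfl | rfl | rfl⟩ := cases3 k
    · left
      intro u hu
      exact dxm i u (lt_of_lt_of_le (T.h₀ i) hu.1) (lt_of_le_of_lt hu.2 (T.h₂ i))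
    · rw [e2]
      by_cases hs : sg m (i - 1) = sg m i
      · left
        intro u hu
        rcases lt_trichotomy u (ν i) with h | h | h
        · exact dxm i u (lt_of_lt_of_le (lt1 i) hu.1) h
        · rw [h]
          intro h0
          have h3 := (S.vx i hs).2
          rw [h0, mul_zero] at h3
          exact lt_irrefl _ h3
        · exact dx' i u h (lt_of_le_of_lt hu.2 (lt2 i))
      · right
        intro u hu
        have hx : ln X₀ w ε (3 * m i) ≤ Λ.x u ∧ Λ.x u ≤ ln X₀ w ε (3 * m i + 1) := by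
          have hab : ln X₀ w ε (3 * m i) < ln X₀ w ε (3 * m i + 1) := (xn i).1.trans (xn i).2
          rcases le_total u (ν i) with h | h
          · rcases eq_or_lt_of_le hu.1 with h1 | h1
            · rw [← h1, x1, cs1]
              split_ifs
              · exact ⟨le_rfl, hab.le⟩
              · exact ⟨hab.le, le_rfl⟩
            · exact ⟨(A1 i u h1 h).1.le, (A1 i u h1 h).2.le⟩
          · rcases eq_or_lt_of_le hu.2 with h1 | h1
            · rw [h1, x2, cs2]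
              split_ifs
              · exact ⟨hab.le, le_rfl⟩
              · exact ⟨le_rfl, hab.le⟩
            · exact ⟨(A2 i u h h1).1.le, (A2 i u h h1).2.le⟩
        rw [ln0, ln1] at hx
        apply S.yt i hs u ⟨lt_of_lt_of_le (lt1 i) hu.1, lt_of_le_of_lt hu.2 (lt2 i)⟩
        have hw := S.w0
        rcases sg_or D i with h | h
        · rw [h]; push_cast; linarith [hx.2]
        · rw [h]; push_cast; linarith [hx.1]
    · rw [e3]
      left
      intro u hu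
      exact dx' i u (lt_of_lt_of_le (T.h₃ i) hu.1) (lt_of_le_of_lt hu.2 (n3 i))

end LHE


end

section

/-!
# Part A: ECH, the surface near a critical point
-/

namespace LCA

open Set Filter
open scoped ContDiff Topology

namespace ECH

/-! ### the derivative of `ξ` outside `(-1, 1)`, strict monotonicity of `τ` -/

theorem xi_deriv_ge (sh : Shape) {u : ℝ} (hu : 1 ≤ u) : deriv sh.ξ u = -1 := by
  have h1 : HasDerivWithinAt sh.ξ (deriv sh.ξ u) (Ici u) u :=
    ((sh.ξ_smooth.differentiable (by simp)) u).hasDerivAt.hasDerivWithinAt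
  have h2 : HasDerivWithinAt (fun y : ℝ => -y) (-1) (Ici u) u := (hasDerivAt_neg u).hasDerivWithinAt
  have h3 : HasDerivWithinAt sh.ξ (-1) (Ici u) u := by
    refine h2.congr (fun y hy => ?_) ?_
    · have hy1 : (1 : ℝ) ≤ y := le_trans hu hy
      rw [sh.ξ_out y (by rw [abs_of_nonneg (by linarith)]; exact hy1),
        abs_of_nonneg (by linarith)]
    · rw [sh.ξ_out u (by rw [abs_of_nonneg (by linarith)]; exact hu),
        abs_of_nonneg (by linarith)]
  exact (uniqueDiffOn_Ici u u (mem_Ici.2 le_rfl)).eq_deriv _ h1 h3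

theorem xi_deriv_le (sh : Shape) {u : ℝ} (hu : u ≤ -1) : deriv sh.ξ u = 1 := by
  have h1 : HasDerivWithinAt sh.ξ (deriv sh.ξ u) (Iic u) u :=
    ((sh.ξ_smooth.differentiable (by simp)) u).hasDerivAt.hasDerivWithinAt
  have h2 : HasDerivWithinAt (fun y : ℝ => y) 1 (Iic u) u := (hasDerivAt_id u).hasDerivWithinAt
  have h3 : HasDerivWithinAt sh.ξ 1 (Iic u) u := by
    refine h2.congr (fun y hy => ?_) ?_
    · have hy1 : y ≤ -1 := le_trans hy hu
      rw [sh.ξ_out y (by rw [abs_of_nonpos (by linarith)]; linarith),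
        abs_of_nonpos (by linarith)]
      ring
    · rw [sh.ξ_out u (by rw [abs_of_nonpos (by linarith)]; linarith),
        abs_of_nonpos (by linarith)]
      ring
  exact (uniqueDiffOn_Iic u u (mem_Iic.2 le_rfl)).eq_deriv _ h1 h3

theorem tau_strictMonoOn (sh : Shape) : StrictMonoOn sh.τ (Icc (-1) 1) := by
  refine strictMonoOn_of_deriv_pos (convex_Icc _ _) sh.τ_smooth.continuous.continuousOn ?_
  intro x hx
  rw [interior_Icc] at hx
  exact sh.τ_deriv x hx.1 hx.2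

theorem tau_pos (sh : Shape) {u : ℝ} (hu : -1 < u) : 0 < sh.τ u := by
  rcases le_or_gt u 1 with h | h
  · have := tau_strictMonoOn sh (left_mem_Icc.2 (by norm_num)) ⟨hu.le, h⟩ hu
    rwa [sh.τ_low (-1) le_rfl] at this
  · rw [sh.τ_high u h.le]; norm_num

theorem tau_lt_one (sh : Shape) {u : ℝ} (hu : u < 1) : sh.τ u < 1 := by
  rcases le_or_gt (-1) u with h | h
  · have := tau_strictMonoOn sh ⟨h, hu.le⟩ (right_mem_Icc.2 (by norm_num)) hu
    rwa [sh.τ_high 1 le_rfl] at this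
  · rw [sh.τ_low u h.le]; norm_num

/-- `(τ, ξ)` is injective. -/
theorem tau_xi_inj (sh : Shape) {u u' : ℝ} (h1 : sh.τ u = sh.τ u') (h2 : sh.ξ u = sh.ξ u') :
    u = u' := by
  have hlow : ∀ y : ℝ, y ≤ -1 → sh.ξ y = y := by
    intro y hy
    rw [sh.ξ_out y (by rw [abs_of_nonpos (by linarith)]; linarith), abs_of_nonpos (by linarith)]
    ring
  have hhigh : ∀ y : ℝ, 1 ≤ y → sh.ξ y = -y := by
    intro y hy
    rw [sh.ξ_out y (by rw [abs_of_nonneg (by linarith)]; exact hy), abs_of_nonneg (by linarith)]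
  rcases le_or_gt u (-1) with hu | hu
  · have hu' : u' ≤ -1 := by
      by_contra hc
      have := tau_pos sh (not_le.1 hc)
      rw [← h1, sh.τ_low u hu] at this
      exact lt_irrefl _ this
    rw [hlow u hu, hlow u' hu'] at h2
    exact h2
  · rcases le_or_gt 1 u with hu1 | hu1
    · have hu' : 1 ≤ u' := by
        by_contra hc
        have := tau_lt_one sh (not_le.1 hc)
        rw [← h1, sh.τ_high u hu1] at this
        exact lt_irrefl _ this
      rw [hhigh u hu1, hhigh u' hu'] at h2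
      linarith
    · have hp := tau_pos sh hu
      have hl := tau_lt_one sh hu1
      have ha : -1 < u' := by
        by_contra hc
        rw [h1, sh.τ_low u' (not_lt.1 hc)] at hp
        exact lt_irrefl _ hp
      have hb : u' < 1 := by
        by_contra hc
        rw [h1, sh.τ_high u' (not_lt.1 hc)] at hl
        exact lt_irrefl _ hl
      exact (tau_strictMonoOn sh).injOn ⟨hu.le, hu1.le⟩ ⟨ha.le, hb.le⟩ h1

theorem Psi_bd (sh : Shape) (U : ℝ) : |sh.Psi U| ≤ |U| + 6 := by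
  rcases le_or_gt |U| 2 with h | h
  · have h1 := sh.ΘP_bd U h
    unfold Shape.Psi
    rw [abs_le] at h1 h ⊢
    have := abs_nonneg U
    constructor <;> linarith [h1.1, h1.2, h.1, h.2]
  · rcases le_or_gt 0 U with h0 | h0
    · rw [abs_of_nonneg h0] at h
      have : sh.Psi U = U := by
        unfold Shape.Psi; rw [sh.ΘP_high U (by linarith)]; ring
      rw [this]; linarith
    · rw [abs_of_neg h0] at h
      have : sh.Psi U = -U := by
        unfold Shape.Psi; rw [sh.ΘP_low U (by linarith)]; ring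
      rw [this, abs_neg]; linarith

theorem xi_bd (sh : Shape) (u : ℝ) : |u| ≤ |sh.ξ u| + 1 := by
  rcases le_or_gt 1 |u| with h | h
  · rw [sh.ξ_out u h, abs_neg, abs_abs]; linarith
  · have := abs_nonneg (sh.ξ u); linarith

theorem Psi_hasDerivAt (sh : Shape) (U : ℝ) : HasDerivAt sh.Psi (2 * sh.τ U - 1) U := by
  have h := ((sh.ΘP_deriv U).const_mul 2).sub (hasDerivAt_id U)
  exact h

theorem Psi_contDiff (sh : Shape) : ContDiff ℝ ∞ sh.Psi := by
  have h : ContDiff ℝ ∞ (fun U : ℝ => 2 * sh.ΘP U - U) :=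
    (contDiff_const.mul sh.ΘP_smooth).sub contDiff_id
  exact h

/-! ### smoothness and the derivative -/

theorem pt_contDiff (E : Evt) (sh : Shape) (ε₁ ε₂ : ℝ) : ContDiff ℝ ∞ (E.pt sh ε₁ ε₂) := by
  have hU : ContDiff ℝ ∞ (fun a : ℝ × ℝ => (a.2 - E.x₀) / E.r) :=
    (contDiff_snd.sub contDiff_const).div_const _
  have hξ : ContDiff ℝ ∞ (fun a : ℝ × ℝ => sh.ξ a.1) := sh.ξ_smooth.comp contDiff_fst
  have hτ : ContDiff ℝ ∞ (fun a : ℝ × ℝ => sh.τ a.1) := sh.τ_smooth.comp contDiff_fst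
  have hR : ContDiff ℝ ∞ (fun a : ℝ × ℝ => sh.ΘR a.1) := sh.ΘR_smooth.comp contDiff_fst
  have hτU : ContDiff ℝ ∞ (fun a : ℝ × ℝ => sh.τ ((a.2 - E.x₀) / E.r)) := sh.τ_smooth.comp hU
  have hPU : ContDiff ℝ ∞ (fun a : ℝ × ℝ => sh.ΘP ((a.2 - E.x₀) / E.r)) := sh.ΘP_smooth.comp hU
  have hΨ : ContDiff ℝ ∞ (fun a : ℝ × ℝ => sh.Psi ((a.2 - E.x₀) / E.r)) :=
    (Psi_contDiff sh).comp hU
  have hs : ContDiff ℝ ∞ (fun a : ℝ × ℝ => E.s₀ + ε₁ * (-(E.r / E.v) * sh.ξ a.1 -
      ε₂ * (E.r / E.v) * sh.Psi ((a.2 - E.x₀) / E.r))) := by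
    exact contDiff_const.add (contDiff_const.mul ((contDiff_const.mul hξ).sub
      (contDiff_const.mul hΨ)))
  have hzb : ContDiff ℝ ∞ (fun a : ℝ × ℝ => E.ζ * (2 * sh.τ a.1 - 1)) :=
    contDiff_const.mul ((contDiff_const.mul hτ).sub contDiff_const)
  refine hs.prodMk (contDiff_snd.prodMk (ContDiff.prodMk ?_ (ContDiff.prodMk ?_ ?_)))
  · exact (((contDiff_const.mul hzb).mul (((contDiff_const.mul hτU).sub contDiff_const).div_const
      _)).add contDiff_const).add (contDiff_const.mul hτU)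
  · exact contDiff_const.add hzb
  · exact (((contDiff_const.sub (contDiff_const.mul ((contDiff_const.mul hR).sub hξ))).add
      (contDiff_const.mul (contDiff_snd.sub contDiff_const))).add (contDiff_const.mul hPU)).add
      (contDiff_const.mul (hs.sub contDiff_const))

/-- The derivative of the time. -/
theorem s_deriv (E : Evt) (sh : Shape) (ε₁ ε₂ : ℝ) (hr : E.r ≠ 0) (a : ℝ × ℝ) :
    HasFDerivAt (fun a : ℝ × ℝ => E.s₀ + ε₁ * (-(E.r / E.v) * sh.ξ a.1 -
      ε₂ * (E.r / E.v) * sh.Psi ((a.2 - E.x₀) / E.r)))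
      ((ε₁ * (-(E.r / E.v) * deriv sh.ξ a.1)) • ContinuousLinearMap.fst ℝ ℝ ℝ -
        (ε₁ * (ε₂ * ((2 * sh.τ ((a.2 - E.x₀) / E.r) - 1) / E.v))) •
          ContinuousLinearMap.snd ℝ ℝ ℝ) a := by
  have hξ : HasFDerivAt (fun a : ℝ × ℝ => sh.ξ a.1)
      (deriv sh.ξ a.1 • ContinuousLinearMap.fst ℝ ℝ ℝ) a :=
    ((sh.ξ_smooth.differentiable (by simp)) a.1).hasDerivAt.comp_hasFDerivAt a hasFDerivAt_fst
  have hU : HasFDerivAt (fun a : ℝ × ℝ => (a.2 - E.x₀) / E.r)
      ((1 / E.r) • ContinuousLinearMap.snd ℝ ℝ ℝ) a := by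
    have h := ((hasFDerivAt_snd (𝕜 := ℝ) (E := ℝ) (F := ℝ) (p := a)).sub_const E.x₀).mul_const
      (1 / E.r)
    have e : (fun a : ℝ × ℝ => (a.2 - E.x₀) / E.r) = fun a : ℝ × ℝ => (a.2 - E.x₀) * (1 / E.r) := by
      funext a; ring
    rw [e]; exact h
  have hΨ : HasFDerivAt (fun a : ℝ × ℝ => sh.Psi ((a.2 - E.x₀) / E.r))
      ((2 * sh.τ ((a.2 - E.x₀) / E.r) - 1) • ((1 / E.r) • ContinuousLinearMap.snd ℝ ℝ ℝ)) a :=
    (Psi_hasDerivAt sh _).comp_hasFDerivAt a hU
  have h := (((hξ.const_mul (-(E.r / E.v))).sub (hΨ.const_mul (ε₂ * (E.r / E.v)))).const_mul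
    ε₁).const_add E.s₀
  refine h.congr_fderiv ?_
  refine ContinuousLinearMap.ext fun w => ?_
  simp only [ContinuousLinearMap.smul_apply, ContinuousLinearMap.sub_apply,
    ContinuousLinearMap.coe_fst', ContinuousLinearMap.coe_snd', smul_eq_mul]
  field_simp

/-- The derivative of the value of `F`. -/
theorem F_deriv (E : Evt) (sh : Shape) (ε₁ ε₂ : ℝ) (hr : E.r ≠ 0) (a : ℝ × ℝ)
    {S : ℝ × ℝ → ℝ} {S' : ℝ × ℝ →L[ℝ] ℝ} (hS : HasFDerivAt S S' a) :
    HasFDerivAt (fun a : ℝ × ℝ => E.F₀ - ε₁ * (E.ζ * E.r / E.v) * (2 * sh.ΘR a.1 - sh.ξ a.1)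
      + E.P₁ * (a.2 - E.x₀) + (E.P₂ - E.P₁) * E.r * sh.ΘP ((a.2 - E.x₀) / E.r)
      + E.z₀ * (S a - E.s₀))
      ((-(ε₁ * (E.ζ * E.r / E.v) * (2 * sh.τ a.1 - 1) * deriv sh.ξ a.1)) •
        ContinuousLinearMap.fst ℝ ℝ ℝ +
        (E.P₁ + (E.P₂ - E.P₁) * sh.τ ((a.2 - E.x₀) / E.r)) • ContinuousLinearMap.snd ℝ ℝ ℝ +
        E.z₀ • S') a := by
  have hξ : HasFDerivAt (fun a : ℝ × ℝ => sh.ξ a.1)
      (deriv sh.ξ a.1 • ContinuousLinearMap.fst ℝ ℝ ℝ) a :=
    ((sh.ξ_smooth.differentiable (by simp)) a.1).hasDerivAt.comp_hasFDerivAt a hasFDerivAt_fst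
  have hR : HasFDerivAt (fun a : ℝ × ℝ => sh.ΘR a.1)
      ((sh.τ a.1 * deriv sh.ξ a.1) • ContinuousLinearMap.fst ℝ ℝ ℝ) a :=
    (sh.ΘR_deriv a.1).comp_hasFDerivAt a hasFDerivAt_fst
  have hU : HasFDerivAt (fun a : ℝ × ℝ => (a.2 - E.x₀) / E.r)
      ((1 / E.r) • ContinuousLinearMap.snd ℝ ℝ ℝ) a := by
    have h := ((hasFDerivAt_snd (𝕜 := ℝ) (E := ℝ) (F := ℝ) (p := a)).sub_const E.x₀).mul_const
      (1 / E.r)
    have e : (fun a : ℝ × ℝ => (a.2 - E.x₀) / E.r) = fun a : ℝ × ℝ => (a.2 - E.x₀) * (1 / E.r) := by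
      funext a; ring
    rw [e]; exact h
  have hP : HasFDerivAt (fun a : ℝ × ℝ => sh.ΘP ((a.2 - E.x₀) / E.r))
      (sh.τ ((a.2 - E.x₀) / E.r) • ((1 / E.r) • ContinuousLinearMap.snd ℝ ℝ ℝ)) a :=
    (sh.ΘP_deriv _).comp_hasFDerivAt a hU
  have hx : HasFDerivAt (fun a : ℝ × ℝ => a.2 - E.x₀) (ContinuousLinearMap.snd ℝ ℝ ℝ) a :=
    (hasFDerivAt_snd (𝕜 := ℝ) (E := ℝ) (F := ℝ) (p := a)).sub_const E.x₀
  have h := ((((((hR.const_mul 2).sub hξ).const_mul (ε₁ * (E.ζ * E.r / E.v))).const_sub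
    E.F₀).add (hx.const_mul E.P₁)).add (hP.const_mul ((E.P₂ - E.P₁) * E.r))).add
    ((hS.sub_const E.s₀).const_mul E.z₀)
  refine h.congr_fderiv ?_
  refine ContinuousLinearMap.ext fun w => ?_
  simp only [ContinuousLinearMap.smul_apply, ContinuousLinearMap.sub_apply,
    ContinuousLinearMap.add_apply, ContinuousLinearMap.neg_apply,
    ContinuousLinearMap.coe_fst', ContinuousLinearMap.coe_snd', smul_eq_mul]
  field_simp
  ring

/-- The derivative of the value of `z`. -/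
theorem z_deriv (E : Evt) (sh : Shape) (a : ℝ × ℝ) :
    HasFDerivAt (fun a : ℝ × ℝ => E.z₀ + E.ζ * (2 * sh.τ a.1 - 1))
      ((E.ζ * 2 * deriv sh.τ a.1) • ContinuousLinearMap.fst ℝ ℝ ℝ) a := by
  have hτ : HasFDerivAt (fun a : ℝ × ℝ => sh.τ a.1)
      (deriv sh.τ a.1 • ContinuousLinearMap.fst ℝ ℝ ℝ) a :=
    ((sh.τ_smooth.differentiable (by simp)) a.1).hasDerivAt.comp_hasFDerivAt a hasFDerivAt_fst
  have h := (((hτ.const_mul 2).sub_const 1).const_mul E.ζ).const_add E.z₀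
  refine h.congr_fderiv ?_
  refine ContinuousLinearMap.ext fun w => ?_
  simp only [ContinuousLinearMap.smul_apply, ContinuousLinearMap.coe_fst', smul_eq_mul]
  ring

/-- The derivative of the point, in components (`P'` is the derivative of the value of `p`). -/
theorem pt_deriv (E : Evt) (sh : Shape) (ε₁ ε₂ : ℝ) (hr : E.r ≠ 0) (a : ℝ × ℝ) (w : ℝ × ℝ) :
    (fderiv ℝ (E.pt sh ε₁ ε₂) a w).1 = ε₁ * (-(E.r / E.v) * deriv sh.ξ a.1) * w.1 -
        (ε₁ * (ε₂ * ((2 * sh.τ ((a.2 - E.x₀) / E.r) - 1) / E.v))) * w.2 ∧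
    (fderiv ℝ (E.pt sh ε₁ ε₂) a w).2.1 = w.2 ∧
    (fderiv ℝ (E.pt sh ε₁ ε₂) a w).2.2.2.1 = E.ζ * 2 * deriv sh.τ a.1 * w.1 ∧
    (fderiv ℝ (E.pt sh ε₁ ε₂) a w).2.2.2.2 =
      -(ε₁ * (E.ζ * E.r / E.v) * (2 * sh.τ a.1 - 1) * deriv sh.ξ a.1) * w.1 +
        (E.P₁ + (E.P₂ - E.P₁) * sh.τ ((a.2 - E.x₀) / E.r)) * w.2 +
        E.z₀ * (fderiv ℝ (E.pt sh ε₁ ε₂) a w).1 := by
  have hf : HasFDerivAt (E.pt sh ε₁ ε₂) (fderiv ℝ (E.pt sh ε₁ ε₂) a) a :=
    ((pt_contDiff E sh ε₁ ε₂).differentiable (by simp) a).hasFDerivAt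
  have h1 := hf.fst
  have h2 := hf.snd.fst
  have h4 := hf.snd.snd.snd.fst
  have h5 := hf.snd.snd.snd.snd
  have e1 := h1.unique (s_deriv E sh ε₁ ε₂ hr a)
  have e2 := h2.unique (hasFDerivAt_snd (𝕜 := ℝ) (E := ℝ) (F := ℝ) (p := a))
  have e4 := h4.unique (z_deriv E sh a)
  have e5 := h5.unique (F_deriv E sh ε₁ ε₂ hr a h1)
  have g1 := congrArg (fun l : ℝ × ℝ →L[ℝ] ℝ => l w) e1
  have g2 := congrArg (fun l : ℝ × ℝ →L[ℝ] ℝ => l w) e2
  have g4 := congrArg (fun l : ℝ × ℝ →L[ℝ] ℝ => l w) e4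
  have g5 := congrArg (fun l : ℝ × ℝ →L[ℝ] ℝ => l w) e5
  simp only [ContinuousLinearMap.smul_apply, ContinuousLinearMap.sub_apply,
    ContinuousLinearMap.add_apply, ContinuousLinearMap.coe_comp', Function.comp_apply,
    ContinuousLinearMap.coe_fst', ContinuousLinearMap.coe_snd', smul_eq_mul] at g1 g2 g4 g5
  exact ⟨g1, g2, g4, g5⟩

theorem pt_exact (E : Evt) (sh : Shape) (ε₁ ε₂ : ℝ) (hE : E.Pos) (h1 : |ε₁| = 1)
    (a : ℝ × ℝ) : ExactChart (E.pt sh ε₁ ε₂) a := by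
  have hr : E.r ≠ 0 := hE.r.ne'
  have hv : E.v ≠ 0 := hE.v.ne'
  have hζ : E.ζ ≠ 0 := by
    have := mul_pos hE.g hE.v
    unfold Evt.ζ; positivity
  have hε : ε₁ ≠ 0 := by
    intro h; rw [h, abs_zero] at h1; exact zero_ne_one h1
  refine ⟨Eventually.of_forall fun b => (pt_contDiff E sh ε₁ ε₂).contDiffAt,
    Eventually.of_forall fun b w => ?_, fun w w1 w2 _ w4 => ?_⟩
  · obtain ⟨g1, g2, g4, g5⟩ := pt_deriv E sh ε₁ ε₂ hr b w
    rw [g5, g1, g2]
    simp only [Evt.pt]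
    ring
  · obtain ⟨g1, g2, g4, g5⟩ := pt_deriv E sh ε₁ ε₂ hr a w
    rw [w2] at g2
    rw [w1, ← g2, mul_zero, sub_zero] at g1
    rw [w4] at g4
    have hw1 : w.1 = 0 := by
      rcases le_or_gt 1 |a.1| with h | h
      · have hd : deriv sh.ξ a.1 ≠ 0 := by
          rcases le_or_gt 0 a.1 with h0 | h0
          · rw [abs_of_nonneg h0] at h
            rw [xi_deriv_ge sh h]; norm_num
          · rw [abs_of_neg h0] at h
            rw [xi_deriv_le sh (by linarith)]; norm_num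
        have hc : ε₁ * (-(E.r / E.v) * deriv sh.ξ a.1) ≠ 0 :=
          mul_ne_zero hε (mul_ne_zero (neg_ne_zero.2 (div_ne_zero hr hv)) hd)
        rcases mul_eq_zero.1 g1.symm with h' | h'
        · exact absurd h' hc
        · exact h'
      · rw [abs_lt] at h
        have hd : deriv sh.τ a.1 ≠ 0 := (sh.τ_deriv a.1 h.1 h.2).ne'
        rcases mul_eq_zero.1 g4.symm with h' | h'
        · exact absurd h' (mul_ne_zero (mul_ne_zero hζ (by norm_num)) hd)
        · exact h'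
    exact Prod.ext hw1 g2.symm

/-! ### injectivity and properness -/

theorem pt_inj (E : Evt) (sh : Shape) (ε₁ ε₂ : ℝ) (hE : E.Pos) (h1 : |ε₁| = 1) (a b : ℝ × ℝ)
    (h : pr4 (E.pt sh ε₁ ε₂ a) = pr4 (E.pt sh ε₁ ε₂ b)) : a = b := by
  have hr : E.r ≠ 0 := hE.r.ne'
  have hv : E.v ≠ 0 := hE.v.ne'
  have hζ : E.ζ ≠ 0 := by
    have := mul_pos hE.g hE.v
    unfold Evt.ζ; positivity
  have hε : ε₁ ≠ 0 := by
    intro h; rw [h, abs_zero] at h1; exact zero_ne_one h1
  simp only [pr4, Evt.pt, Prod.mk.injEq] at h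
  obtain ⟨hs, hx, -, hz⟩ := h
  rw [hx] at hs
  have hξ : sh.ξ a.1 = sh.ξ b.1 := by
    have h2 := mul_left_cancel₀ hε (add_left_cancel hs)
    have h3 : -(E.r / E.v) * sh.ξ a.1 = -(E.r / E.v) * sh.ξ b.1 := by linarith only [h2]
    exact mul_left_cancel₀ (neg_ne_zero.2 (div_ne_zero hr hv)) h3
  have hτ : sh.τ a.1 = sh.τ b.1 := by
    have h2 := mul_left_cancel₀ hζ (add_left_cancel hz)
    linarith
  exact Prod.ext (tau_xi_inj sh hτ hξ) hx

theorem pt_proper (E : Evt) (sh : Shape) (ε₁ ε₂ : ℝ) (hE : E.Pos) (h1 : |ε₁| = 1)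
    (h2 : |ε₂| = 1) (M : ℝ) : ∃ R : ℝ, ∀ a : ℝ × ℝ, |(E.pt sh ε₁ ε₂ a).1| ≤ M →
      |(E.pt sh ε₁ ε₂ a).2.1| ≤ M → ‖a‖ ≤ R := by
  have hr := hE.r
  have hv := hE.v
  refine ⟨max M (E.v / E.r * (M + |E.s₀|) + ((M + |E.x₀|) / E.r + 6) + 1), fun a ha1 ha2 => ?_⟩
  have hx : |a.2| ≤ M := ha2
  have hs : |E.s₀ + ε₁ * (-(E.r / E.v) * sh.ξ a.1 -
      ε₂ * (E.r / E.v) * sh.Psi ((a.2 - E.x₀) / E.r))| ≤ M := ha1
  have hk : 0 < E.r / E.v := div_pos hr hv
  set U := (a.2 - E.x₀) / E.r with hU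
  have hUb : |U| ≤ (M + |E.x₀|) / E.r := by
    rw [hU, abs_div, abs_of_pos hr]
    have := abs_sub a.2 E.x₀
    gcongr
    linarith
  have hP := Psi_bd sh U
  have hb : E.r / E.v * |sh.ξ a.1| ≤ (M + |E.s₀|) + E.r / E.v * |sh.Psi U| := by
    have e : -(E.r / E.v) * sh.ξ a.1 - ε₂ * (E.r / E.v) * sh.Psi U =
        -((E.r / E.v) * (sh.ξ a.1 + ε₂ * sh.Psi U)) := by ring
    have h3 : |E.r / E.v * (sh.ξ a.1 + ε₂ * sh.Psi U)| ≤ M + |E.s₀| := by
      rw [e] at hs
      have h4 : |ε₁ * -((E.r / E.v) * (sh.ξ a.1 + ε₂ * sh.Psi U))| =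
          |E.r / E.v * (sh.ξ a.1 + ε₂ * sh.Psi U)| := by
        rw [abs_mul, h1, one_mul, abs_neg]
      rw [← h4]
      have h5 := abs_sub_le (ε₁ * -((E.r / E.v) * (sh.ξ a.1 + ε₂ * sh.Psi U))) (-E.s₀) 0
      have h6 : ε₁ * -((E.r / E.v) * (sh.ξ a.1 + ε₂ * sh.Psi U)) - -E.s₀ =
        E.s₀ + ε₁ * -((E.r / E.v) * (sh.ξ a.1 + ε₂ * sh.Psi U)) := by ring
      rw [h6, sub_zero, sub_zero, abs_neg] at h5
      linarith only [hs, h5]
    rw [abs_mul, abs_of_pos hk] at h3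
    have h7 : |sh.ξ a.1| ≤ |sh.ξ a.1 + ε₂ * sh.Psi U| + |sh.Psi U| := by
      have h8 := abs_sub (sh.ξ a.1 + ε₂ * sh.Psi U) (ε₂ * sh.Psi U)
      rw [add_sub_cancel_right, abs_mul ε₂, h2, one_mul] at h8
      exact h8
    have h9 := mul_le_mul_of_nonneg_left h7 hk.le
    linarith
  have hξ : |sh.ξ a.1| ≤ E.v / E.r * (M + |E.s₀|) + |sh.Psi U| := by
    have h3 := mul_le_mul_of_nonneg_left hb (div_pos hv hr).le
    have e1 : E.v / E.r * (E.r / E.v * |sh.ξ a.1|) = |sh.ξ a.1| := by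
      field_simp
    have e2 : E.v / E.r * ((M + |E.s₀|) + E.r / E.v * |sh.Psi U|) =
        E.v / E.r * (M + |E.s₀|) + |sh.Psi U| := by
      field_simp
    rwa [e1, e2] at h3
  have hu := xi_bd sh a.1
  rw [Prod.norm_def, Real.norm_eq_abs, Real.norm_eq_abs]
  exact max_le (le_max_of_le_right (by linarith)) (le_max_of_le_left hx)

theorem pt_tendsto (E : Evt) (sh : Shape) (ε₁ ε₂ : ℝ) (hE : E.Pos) (h1 : |ε₁| = 1)
    (h2 : |ε₂| = 1) : Tendsto (E.pt sh ε₁ ε₂) (cocompact (ℝ × ℝ)) (cocompact E5) := by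
  rw [(hasBasis_cocompact).tendsto_right_iff]
  intro K hK
  obtain ⟨M, hM⟩ := hK.isBounded.exists_norm_le
  obtain ⟨R, hR⟩ := pt_proper E sh ε₁ ε₂ hE h1 h2 M
  refine Filter.mem_of_superset (isCompact_closedBall (0 : ℝ × ℝ) R).compl_mem_cocompact ?_
  intro a ha hc
  apply ha
  rw [mem_closedBall_zero_iff]
  have h3 := hM _ hc
  have h4 := norm_fst_le (E.pt sh ε₁ ε₂ a)
  have h5 := norm_snd_le (E.pt sh ε₁ ε₂ a)
  have h6 := norm_fst_le (E.pt sh ε₁ ε₂ a).2
  rw [Real.norm_eq_abs] at h4 h6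
  exact hR a (h4.trans h3) (h6.trans (h5.trans h3))

end ECH

theorem t_ECH : Stmt_ECH := by
  intro E sh ε₁ ε₂ hE h1 h2
  have hcont : Continuous (E.pt sh ε₁ ε₂) := (ECH.pt_contDiff E sh ε₁ ε₂).continuous
  have hprop : IsProperMap (E.pt sh ε₁ ε₂) :=
    isProperMap_iff_tendsto_cocompact.2 ⟨hcont, ECH.pt_tendsto E sh ε₁ ε₂ hE h1 h2⟩
  have hinj : ∀ a b, pr4 (E.pt sh ε₁ ε₂ a) = pr4 (E.pt sh ε₁ ε₂ b) → a = b :=
    ECH.pt_inj E sh ε₁ ε₂ hE h1
  have hInj : Function.Injective (E.pt sh ε₁ ε₂) := fun a b hab => hinj a b (by rw [hab])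
  have hemb : Topology.IsClosedEmbedding (E.pt sh ε₁ ε₂) :=
    Topology.IsClosedEmbedding.of_continuous_injective_isClosedMap hcont hInj hprop.isClosedMap
  refine ⟨fun a => ECH.pt_exact E sh ε₁ ε₂ hE h1 a, hemb.isClosed_range, ?_, hinj, ?_⟩
  · rintro q ⟨a, rfl⟩
    refine ⟨E.pt sh ε₁ ε₂, a, ECH.pt_exact E sh ε₁ ε₂ hE h1 a, rfl,
      Eventually.of_forall fun b => mem_range_self b, fun N hN => ?_⟩
    have := image_mem_map (m := E.pt sh ε₁ ε₂) hN
    rwa [hemb.isEmbedding.map_nhds_eq] at this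
  · intro M
    obtain ⟨R, hR⟩ := ECH.pt_proper E sh ε₁ ε₂ hE h1 h2 M
    obtain ⟨M', hM'⟩ := ((isCompact_closedBall (0 : ℝ × ℝ) R).image hcont).isBounded.exists_norm_le
    refine ⟨M', ?_⟩
    rintro q ⟨a, rfl⟩ hq1 hq2
    have ha : a ∈ Metric.closedBall (0 : ℝ × ℝ) R := mem_closedBall_zero_iff.2 (hR a hq1 hq2)
    exact (norm_snd_le _).trans (hM' _ (mem_image_of_mem _ ha))

end LCA


end

section

/-!
# SDA: after the saddle
-/

namespace LCA

open Set Filter
open scoped ContDiff Topology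

namespace SDA

theorem deriv_lin {n : ℕ} (Q V : St n) (t s : ℝ) : deriv (lin Q V t) s = V := by
  have h : HasDerivAt (lin Q V t) ((1 : ℝ) • V) s :=
    (((hasDerivAt_id s).sub_const t).smul_const V).const_add Q
  rw [h.deriv, one_smul]

variable {m n : ℕ}

/-- The slope is constant if `dpe = 0`. -/
theorem pe_const (c : Comb m n) (Q V : St n) (e : Fin m) (t : ℝ) (h0 : c.dpe Q V e = 0)
    (h1 : Q.1 (c.rt e) - Q.1 (c.lf e) ≠ 0)
    (h2 : (Q + t • V).1 (c.rt e) - (Q + t • V).1 (c.lf e) ≠ 0) :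
    c.pe (Q + t • V) e = c.pe Q e ∧ c.dpe (Q + t • V) V e = 0 := by
  have h3 : V.2 (c.rt e) - V.2 (c.lf e) - c.pe Q e * (V.1 (c.rt e) - V.1 (c.lf e)) = 0 := by
    have h4 := h0
    unfold Comb.dpe at h4
    rcases div_eq_zero_iff.1 h4 with h5 | h5
    · exact h5
    · exact absurd h5 h1
  have h6 : c.pe Q e * (Q.1 (c.rt e) - Q.1 (c.lf e)) = Q.2 (c.rt e) - Q.2 (c.lf e) := by
    unfold Comb.pe
    exact div_mul_cancel₀ _ h1
  have h7 : c.pe (Q + t • V) e = c.pe Q e := by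
    have h8 : c.pe (Q + t • V) e = ((Q + t • V).2 (c.rt e) - (Q + t • V).2 (c.lf e)) /
        ((Q + t • V).1 (c.rt e) - (Q + t • V).1 (c.lf e)) := rfl
    rw [h8, div_eq_iff h2]
    simp only [Prod.fst_add, Prod.snd_add, Prod.smul_fst, Prod.smul_snd, Pi.add_apply,
      Pi.smul_apply, smul_eq_mul]
    linear_combination -h6 + t * h3
  refine ⟨h7, ?_⟩
  unfold Comb.dpe
  rw [h7, h3, zero_div]

/-- A strand through a pass. -/
noncomputable def strand (sh : Shape) (x₀ r p p' z F x : ℝ) : ℝ × ℝ × ℝ × ℝ :=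
  (x, p + (p' - p) * sh.τ ((x - x₀) / r), z,
    F + p * (x - x₀) + (p' - p) * r * sh.ΘP ((x - x₀) / r))

theorem I1rt (c : Comb m n) (q : St n) (e : Fin m) (h : q.1 (c.rt e) - q.1 (c.lf e) ≠ 0) :
    q.2 (c.rt e) = c.pe q e * q.1 (c.rt e) + c.ae q e := by
  have h6 : c.pe q e * (q.1 (c.rt e) - q.1 (c.lf e)) = q.2 (c.rt e) - q.2 (c.lf e) := by
    unfold Comb.pe
    exact div_mul_cancel₀ _ h
  unfold Comb.ae
  linear_combination -h6

theorem I2rt (c : Comb m n) (q v : St n) (e : Fin m) (h : q.1 (c.rt e) - q.1 (c.lf e) ≠ 0)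
    (h0 : c.dpe q v e = 0) (hv : v.1 (c.rt e) = 0) : c.dae q v e = v.2 (c.rt e) := by
  have h3 : v.2 (c.rt e) - v.2 (c.lf e) - c.pe q e * (v.1 (c.rt e) - v.1 (c.lf e)) = 0 := by
    have h4 := h0
    unfold Comb.dpe at h4
    rcases div_eq_zero_iff.1 h4 with h5 | h5
    · exact h5
    · exact absurd h5 h
  unfold Comb.dae
  rw [h0]
  rw [hv] at h3
  linear_combination -h3

/-- The edge on the left of a pass. -/
theorem ept_left (sh : Shape) (c : Comb m n) (q v : St n) (e : Fin m) (x₀ r p' x : ℝ)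
    (hr : 0 < r) (h : q.1 (c.rt e) - q.1 (c.lf e) ≠ 0) (h0 : c.dpe q v e = 0)
    (hv : v.1 (c.rt e) = 0) (hx0 : q.1 (c.rt e) = x₀) (hx : x ≤ x₀ - r) :
    c.ept q v e x = strand sh x₀ r (c.pe q e) p' (v.2 (c.rt e)) (q.2 (c.rt e)) x := by
  have hU : (x - x₀) / r ≤ -1 := by
    rw [div_le_iff₀ hr]
    linarith
  have h1 := I1rt c q e h
  have h2 := I2rt c q v e h h0 hv
  unfold Comb.ept strand
  rw [sh.τ_low _ hU, sh.ΘP_low _ hU, h0, h2]
  rw [hx0] at h1
  refine Prod.ext rfl (Prod.ext ?_ (Prod.ext ?_ ?_))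
  · simp
  · simp
  · simp only
    linear_combination -h1

/-- The edge on the right of a pass. -/
theorem ept_right (sh : Shape) (c : Comb m n) (q v : St n) (e : Fin m) (x₀ r p x : ℝ)
    (hr : 0 < r) (h0 : c.dpe q v e = 0)
    (hv : v.1 (c.lf e) = 0) (hx0 : q.1 (c.lf e) = x₀) (hx : x₀ + r ≤ x) :
    c.ept q v e x = strand sh x₀ r p (c.pe q e) (v.2 (c.lf e)) (q.2 (c.lf e)) x := by
  have hU : 1 ≤ (x - x₀) / r := by
    rw [le_div_iff₀ hr]
    linarith
  unfold Comb.ept strand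
  rw [sh.τ_high _ hU, sh.ΘP_high _ hU, h0]
  unfold Comb.dae Comb.ae
  rw [h0, hv, hx0]
  have h5 : r * ((x - x₀) / r) = x - x₀ := mul_div_cancel₀ _ hr.ne'
  refine Prod.ext rfl (Prod.ext ?_ (Prod.ext ?_ ?_))
  · simp
  · simp
  · simp only
    linear_combination -(c.pe q e - p) * h5

/-- The piece of a pass. -/
theorem vp_pass (sh : Shape) (c : Comb m n) (w : Fin n → ℝ) (s : ℝ) (q v : St n) (i : Fin n)
    (x₀ r u : ℝ) (hr : 0 < r) (hty : c.ty i = .P) (hrt : c.rt (c.ea i) = i)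
    (h : q.1 (c.rt (c.ea i)) - q.1 (c.lf (c.ea i)) ≠ 0)
    (h0 : c.dpe q v (c.ea i) = 0) (h0' : c.dpe q v (c.eb i) = 0) (hv : v.1 i = 0)
    (hx0 : q.1 i = x₀) (hw : w i = r) :
    c.vp w (c.sp sh) s q v i u =
      strand sh x₀ r (c.pe q (c.ea i)) (c.pe q (c.eb i)) (v.2 i) (q.2 i) (x₀ + r * u) := by
  have h1 := I1rt c q (c.ea i) h
  have h2 := I2rt c q v (c.ea i) h h0 (by rw [hrt]; exact hv)
  rw [hrt] at h1 h2
  have hU : (x₀ + r * u - x₀) / r = u := by
    rw [add_sub_cancel_left]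
    exact mul_div_cancel_left₀ _ hr.ne'
  unfold Comb.vp Comb.vpt strand Comb.dl
  rw [hU]
  simp only [Comb.sp, Shape.st, hty, hw, hx0, h0, h0', h2, hv]
  rw [hx0] at h1
  refine Prod.ext rfl (Prod.ext rfl (Prod.ext ?_ ?_))
  · simp
  · simp only
    linear_combination -h1

theorem pt_low (sh : Shape) (E : Evt) (hE : E.Pos) (u x : ℝ) (hu : u ≤ -1) :
    (E.pt sh 1 1 (u, x)).2 = strand sh E.x₀ E.r (E.P₁ + E.g / 2) (E.P₂ - E.g / 2) (E.z₀ - E.ζ)
      (E.F₀ + ((E.pt sh 1 1 (u, x)).1 - E.s₀) * (E.z₀ - E.ζ)) x := by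
  have hr := hE.r
  have hv := hE.v
  have hξ : sh.ξ u = u := by
    rw [sh.ξ_out u (by rw [abs_of_nonpos (by linarith)]; linarith),
      abs_of_nonpos (by linarith)]
    ring
  unfold Evt.pt strand Shape.Psi
  simp only
  rw [hξ, sh.τ_low u hu, sh.ΘR_low u hu]
  refine Prod.ext rfl (Prod.ext ?_ (Prod.ext ?_ ?_))
  · simp only [Evt.ζ]
    field_simp
    ring
  · simp only [Evt.ζ]
    ring
  · simp only [Evt.ζ]
    field_simp
    ring

theorem pt_high (sh : Shape) (E : Evt) (hE : E.Pos) (u x : ℝ) (hu : 1 ≤ u) :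
    (E.pt sh 1 1 (u, x)).2 = strand sh E.x₀ E.r (E.P₁ - E.g / 2) (E.P₂ + E.g / 2) (E.z₀ + E.ζ)
      (E.F₀ + ((E.pt sh 1 1 (u, x)).1 - E.s₀) * (E.z₀ + E.ζ)) x := by
  have hr := hE.r
  have hv := hE.v
  have hξ : sh.ξ u = -u := by
    rw [sh.ξ_out u (by rw [abs_of_nonneg (by linarith)]; linarith),
      abs_of_nonneg (by linarith)]
  unfold Evt.pt strand Shape.Psi
  simp only
  rw [hξ, sh.τ_high u hu, sh.ΘR_high u hu]
  refine Prod.ext rfl (Prod.ext ?_ (Prod.ext ?_ ?_))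
  · simp only [Evt.ζ]
    field_simp
    ring
  · simp only [Evt.ζ]
    ring
  · simp only [Evt.ζ]
    field_simp
    ring

theorem Psi_ge (sh : Shape) (U : ℝ) : -5 ≤ sh.Psi U := by
  unfold Shape.Psi
  rcases le_total U (-1) with h | h
  · rw [sh.ΘP_low U h]
    linarith
  · rcases le_total 1 U with h' | h'
    · rw [sh.ΘP_high U h']
      linarith
    · have h2 : |U| ≤ 2 := abs_le.2 ⟨by linarith, by linarith⟩
      have h3 := (abs_le.1 (sh.ΘP_bd U h2)).1
      linarith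

/-- The points of the surface after the critical time. -/
theorem pt_cases (sh : Shape) (E : Evt) (hE : E.Pos) (a : ℝ × ℝ)
    (hs : E.s₀ + 8 * E.r / E.v < (E.pt sh 1 1 a).1) :
    (E.pt sh 1 1 a).2 = strand sh E.x₀ E.r (E.P₁ + E.g / 2) (E.P₂ - E.g / 2) (E.z₀ - E.ζ)
      (E.F₀ + ((E.pt sh 1 1 a).1 - E.s₀) * (E.z₀ - E.ζ)) a.2 ∨
    (E.pt sh 1 1 a).2 = strand sh E.x₀ E.r (E.P₁ - E.g / 2) (E.P₂ + E.g / 2) (E.z₀ + E.ζ)
      (E.F₀ + ((E.pt sh 1 1 a).1 - E.s₀) * (E.z₀ + E.ζ)) a.2 := by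
  obtain ⟨u, x⟩ := a
  have hr := hE.r
  have hv := hE.v
  have h1 : (E.pt sh 1 1 (u, x)).1 =
      E.s₀ - (E.r / E.v) * (sh.ξ u + sh.Psi ((x - E.x₀) / E.r)) := by
    unfold Evt.pt
    simp only
    ring
  have h2 : 0 < E.r / E.v := div_pos hr hv
  have h3 : sh.ξ u + sh.Psi ((x - E.x₀) / E.r) < -8 := by
    rw [h1] at hs
    have h4 : (E.r / E.v) * (sh.ξ u + sh.Psi ((x - E.x₀) / E.r)) < (E.r / E.v) * (-8) := by
      have h5 : 8 * E.r / E.v = (E.r / E.v) * 8 := by ring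
      rw [h5] at hs
      linarith
    exact lt_of_mul_lt_mul_left h4 h2.le
  have h6 := Psi_ge sh ((x - E.x₀) / E.r)
  rcases le_total u (-1) with h | h
  · left
    exact pt_low sh E hE u x h
  · rcases le_total 1 u with h' | h'
    · right
      exact pt_high sh E hE u x h'
    · exfalso
      have h7 := (abs_le.1 (sh.ξ_in u (abs_le.2 ⟨h, h'⟩))).1
      linarith only [h3, h6, h7]

/-- All the points of the strands are on the surface. -/
theorem exists_pt (sh : Shape) (E : Evt) (hE : E.Pos) (s x : ℝ) (hs : E.s₀ + 8 * E.r / E.v < s) :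
    (∃ a, E.pt sh 1 1 a = (s, strand sh E.x₀ E.r (E.P₁ + E.g / 2) (E.P₂ - E.g / 2) (E.z₀ - E.ζ)
      (E.F₀ + (s - E.s₀) * (E.z₀ - E.ζ)) x)) ∧
    (∃ a, E.pt sh 1 1 a = (s, strand sh E.x₀ E.r (E.P₁ - E.g / 2) (E.P₂ + E.g / 2) (E.z₀ + E.ζ)
      (E.F₀ + (s - E.s₀) * (E.z₀ + E.ζ)) x)) := by
  have hr := hE.r
  have hv := hE.v
  have h2 : 0 < E.r / E.v := div_pos hr hv
  have h0 : 0 < E.v / E.r := div_pos hv hr
  set K : ℝ := (E.v / E.r) * (s - E.s₀) + sh.Psi ((x - E.x₀) / E.r) with hK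
  have h6 := Psi_ge sh ((x - E.x₀) / E.r)
  have h8 : 8 < (E.v / E.r) * (s - E.s₀) := by
    have h9 : (E.v / E.r) * (8 * E.r / E.v) < (E.v / E.r) * (s - E.s₀) :=
      mul_lt_mul_of_pos_left (by linarith) h0
    have h10 : (E.v / E.r) * (8 * E.r / E.v) = 8 := by field_simp
    linarith
  have hK1 : 1 < K := by rw [hK]; linarith
  have h1 : ∀ u, (E.pt sh 1 1 (u, x)).1 =
      E.s₀ - (E.r / E.v) * (sh.ξ u + sh.Psi ((x - E.x₀) / E.r)) := by
    intro u
    unfold Evt.pt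
    simp only
    ring
  have h11 : ∀ u, |u| = K → (E.pt sh 1 1 (u, x)).1 = s := by
    intro u hu
    rw [h1 u, sh.ξ_out u (by rw [hu]; exact hK1.le), hu, hK]
    field_simp
    ring
  refine ⟨⟨(-K, x), ?_⟩, ⟨(K, x), ?_⟩⟩
  · have h12 : (E.pt sh 1 1 (-K, x)).1 = s :=
      h11 (-K) (by rw [abs_neg, abs_of_pos (by linarith)])
    have h13 := pt_low sh E hE (-K) x (by linarith)
    rw [h12] at h13
    exact Prod.ext h12 h13
  · have h12 : (E.pt sh 1 1 (K, x)).1 = s := h11 K (abs_of_pos (by linarith))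
    have h13 := pt_high sh E hE K x hK1.le
    rw [h12] at h13
    exact Prod.ext h12 h13

/-- The data of a pass at the critical point. -/
structure Pass (c : Comb m n) (w : Fin n → ℝ) (q v : St n) (i : Fin n) (a b : Fin m)
    (x₀ r : ℝ) : Prop where
  hty : c.ty i = .P
  hea : c.ea i = a
  heb : c.eb i = b
  hrt : c.rt a = i
  hlf : c.lf b = i
  hr : 0 < r
  hda : c.dpe q v a = 0
  hdb : c.dpe q v b = 0
  hv : v.1 i = 0
  hq : q.1 i = x₀
  hw : w i = r
  hne : q.1 (c.rt a) - q.1 (c.lf a) ≠ 0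

theorem Pass.left {c : Comb m n} {w : Fin n → ℝ} {q v : St n} {i : Fin n} {a b : Fin m}
    {x₀ r : ℝ} (h : Pass c w q v i a b x₀ r) (sh : Shape) (x : ℝ) (hx : x ≤ x₀ - r) :
    c.ept q v a x = strand sh x₀ r (c.pe q a) (c.pe q b) (v.2 i) (q.2 i) x := by
  have h1 := ept_left sh c q v a x₀ r (c.pe q b) x h.hr h.hne h.hda (by rw [h.hrt]; exact h.hv)
    (by rw [h.hrt]; exact h.hq) hx
  rwa [h.hrt] at h1

theorem Pass.right {c : Comb m n} {w : Fin n → ℝ} {q v : St n} {i : Fin n} {a b : Fin m}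
    {x₀ r : ℝ} (h : Pass c w q v i a b x₀ r) (sh : Shape) (x : ℝ) (hx : x₀ + r ≤ x) :
    c.ept q v b x = strand sh x₀ r (c.pe q a) (c.pe q b) (v.2 i) (q.2 i) x := by
  have h1 := ept_right sh c q v b x₀ r (c.pe q a) x h.hr h.hdb (by rw [h.hlf]; exact h.hv)
    (by rw [h.hlf]; exact h.hq) hx
  rwa [h.hlf] at h1

theorem Pass.mid {c : Comb m n} {w : Fin n → ℝ} {q v : St n} {i : Fin n} {a b : Fin m}
    {x₀ r : ℝ} (h : Pass c w q v i a b x₀ r) (sh : Shape) (s u : ℝ) :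
    c.vp w (c.sp sh) s q v i u =
      strand sh x₀ r (c.pe q a) (c.pe q b) (v.2 i) (q.2 i) (x₀ + r * u) := by
  have h1 := vp_pass sh c w s q v i x₀ r u h.hr h.hty (by rw [h.hea]; exact h.hrt)
    (by rw [h.hea]; exact h.hne) (by rw [h.hea]; exact h.hda) (by rw [h.heb]; exact h.hdb) h.hv h.hq h.hw
  rwa [h.hea, h.heb] at h1

theorem Pass.cover {c : Comb m n} {w : Fin n → ℝ} {q v : St n} {i : Fin n} {a b : Fin m}
    {x₀ r : ℝ} (h : Pass c w q v i a b x₀ r) (sh : Shape) (s ρ x : ℝ)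
    (hl : q.1 (c.lf a) + 2 * w (c.lf a) < x₀ - ρ) (hr : x₀ + ρ < q.1 (c.rt b) - 2 * w (c.rt b))
    (hx : |x - x₀| < ρ) :
    (x ∈ c.rg w q a ∧
      strand sh x₀ r (c.pe q a) (c.pe q b) (v.2 i) (q.2 i) x = c.ept q v a x) ∨
    (∃ u, |u| ≤ 2 ∧ strand sh x₀ r (c.pe q a) (c.pe q b) (v.2 i) (q.2 i) x =
      c.vp w (c.sp sh) s q v i u) ∨
    (x ∈ c.rg w q b ∧
      strand sh x₀ r (c.pe q a) (c.pe q b) (v.2 i) (q.2 i) x = c.ept q v b x) := by
  have hx' := abs_lt.1 hx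
  have hr0 := h.hr
  rcases lt_or_ge x (x₀ - 2 * r) with h1 | h1
  · left
    refine ⟨⟨by linarith, ?_⟩, (h.left sh x (by linarith)).symm⟩
    rw [h.hrt, h.hq, h.hw]
    exact h1.le
  · rcases lt_or_ge (x₀ + 2 * r) x with h2 | h2
    · right
      right
      refine ⟨⟨?_, by linarith⟩, (h.right sh x (by linarith)).symm⟩
      rw [h.hlf, h.hq, h.hw]
      exact h2.le
    · right
      left
      refine ⟨(x - x₀) / r, ?_, ?_⟩
      · rw [abs_div, abs_of_pos hr0, div_le_iff₀ hr0]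
        exact abs_le.2 ⟨by linarith, by linarith⟩
      · rw [h.mid sh s, mul_div_cancel₀ _ hr0.ne', add_sub_cancel]

end SDA

open _root_.LCA.SDA in
theorem t_SDA (hCER : Stmt_CER) (hPST : Stmt_PST) (hVLN : Stmt_VLN) : Stmt_SDA := by
  intro m n sh c c' w L R H₁ H₂ H₃ H₄ E Q V V' η hS r hr
  have hE := hS.pos
  have hr0 := hE.r
  have hv0 := hE.v
  have hη : 0 < η := by
    have h1 := hS.small
    by_contra h2
    have h3 : E.v * η ≤ 0 := mul_nonpos_of_nonneg_of_nonpos hv0.le (not_lt.1 h2)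
    linarith
  have h8 : 0 < 8 * E.r / E.v := by positivity
  have hr1 : E.s₀ + 8 * E.r / E.v < r.1 := hr.1
  have hr2 : r.1 < E.s₀ + η := hr.2
  set t : ℝ := r.1 - E.s₀ with ht
  have htm : t ∈ Icc (-η) η := ⟨by linarith, by linarith⟩
  have h0m : (0 : ℝ) ∈ Icc (-η) η := ⟨by linarith, by linarith⟩
  set q : St n := Q + t • V' with hq
  have hlin : lin Q V' E.s₀ r.1 = q := rfl
  have hlen : ∀ e, q.1 (c'.rt e) - q.1 (c'.lf e) ≠ 0 := by
    intro e
    have h1 := (hS.cert t htm).len e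
    have h2 := hS.wpos (c'.lf e)
    have h3 := hS.wpos (c'.rt e)
    have h4 : 0 < q.1 (c'.rt e) - q.1 (c'.lf e) := by rw [hq]; linarith
    exact h4.ne'
  have hlen0 : ∀ e, Q.1 (c'.rt e) - Q.1 (c'.lf e) ≠ 0 := by
    intro e
    have h1 := (hS.cert 0 h0m).len e
    have h2 := hS.wpos (c'.lf e)
    have h3 := hS.wpos (c'.rt e)
    rw [zero_smul, add_zero] at h1
    have h4 : 0 < Q.1 (c'.rt e) - Q.1 (c'.lf e) := by linarith
    exact h4.ne'
  obtain ⟨e1, d1⟩ := pe_const c' Q V' H₁ t hS.d1 (hlen0 _) (hlen _)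
  obtain ⟨e2, d2⟩ := pe_const c' Q V' H₂ t hS.d2 (hlen0 _) (hlen _)
  obtain ⟨e3, d3⟩ := pe_const c' Q V' H₃ t hS.d3 (hlen0 _) (hlen _)
  obtain ⟨e4, d4⟩ := pe_const c' Q V' H₄ t hS.d4 (hlen0 _) (hlen _)
  have r1 : c'.rt H₁ = L := by
    have h1 := hS.comb.valid'.oka L
    unfold Comb.OKa at h1
    rw [hS.comb.tyL', hS.comb.aL'] at h1
    exact h1
  have l4 : c'.lf H₄ = L := by
    have h1 := hS.comb.valid'.okb L
    unfold Comb.OKb at h1
    rw [hS.comb.tyL', hS.comb.bL'] at h1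
    exact h1
  have r3 : c'.rt H₃ = R := by
    have h1 := hS.comb.valid'.oka R
    unfold Comb.OKa at h1
    rw [hS.comb.tyR', hS.comb.aR'] at h1
    exact h1
  have l2 : c'.lf H₂ = R := by
    have h1 := hS.comb.valid'.okb R
    unfold Comb.OKb at h1
    rw [hS.comb.tyR', hS.comb.bR'] at h1
    exact h1
  have qL : q.1 L = E.x₀ := by
    simp only [hq, Prod.fst_add, Prod.smul_fst, Pi.add_apply, Pi.smul_apply, smul_eq_mul, hS.xL,
      hS.xL', mul_zero, add_zero]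
  have qR : q.1 R = E.x₀ := by
    simp only [hq, Prod.fst_add, Prod.smul_fst, Pi.add_apply, Pi.smul_apply, smul_eq_mul, hS.xR,
      hS.xR', mul_zero, add_zero]
  have fL : q.2 L = E.F₀ + t * (E.z₀ - E.ζ) := by
    simp only [hq, Prod.snd_add, Prod.smul_snd, Pi.add_apply, Pi.smul_apply, smul_eq_mul, hS.FL,
      hS.FL']
  have fR : q.2 R = E.F₀ + t * (E.z₀ + E.ζ) := by
    simp only [hq, Prod.snd_add, Prod.smul_snd, Pi.add_apply, Pi.smul_apply, smul_eq_mul, hS.FR,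
      hS.FR']
  have pL : Pass c' w q V' L H₁ H₄ E.x₀ E.r :=
    ⟨hS.comb.tyL', hS.comb.aL', hS.comb.bL', r1, l4, hr0, d1, d4, hS.xL', qL, hS.wL, hlen _⟩
  have pR : Pass c' w q V' R H₃ H₂ E.x₀ E.r :=
    ⟨hS.comb.tyR', hS.comb.aR', hS.comb.bR', r3, l2, hr0, d3, d2, hS.xR', qR, hS.wR, hlen _⟩
  set low : ℝ → ℝ × ℝ × ℝ × ℝ := strand sh E.x₀ E.r (E.P₁ + E.g / 2) (E.P₂ - E.g / 2)
    (E.z₀ - E.ζ) (E.F₀ + t * (E.z₀ - E.ζ)) with hlow
  set up : ℝ → ℝ × ℝ × ℝ × ℝ := strand sh E.x₀ E.r (E.P₁ - E.g / 2) (E.P₂ + E.g / 2)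
    (E.z₀ + E.ζ) (E.F₀ + t * (E.z₀ + E.ζ)) with hup
  have sL : strand sh E.x₀ E.r (c'.pe q H₁) (c'.pe q H₄) (V'.2 L) (q.2 L) = low := by
    rw [hlow, e1, e4, hS.p1, hS.p4, hS.FL', fL]
  have sR : strand sh E.x₀ E.r (c'.pe q H₃) (c'.pe q H₂) (V'.2 R) (q.2 R) = up := by
    rw [hup, e3, e2, hS.p3, hS.p2, hS.FR', fR]
  have hρ : 2 * E.r < E.v * η + 2 * E.r := by
    have h1 : 0 < E.v * η := mul_pos hv0 hη
    linarith
  have mem_low : ∀ x, |x - E.x₀| < E.v * η + 2 * E.r → r.2 = low x →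
      r ∈ E.set sh 1 1 ∧ |r.2.1 - E.x₀| < E.v * η + 2 * E.r := by
    intro x hx hrx
    obtain ⟨⟨a, ha⟩, -⟩ := exists_pt sh E hE r.1 x hr1
    refine ⟨⟨a, ?_⟩, ?_⟩
    · rw [ha]
      exact Prod.ext rfl hrx.symm
    · rw [hrx]
      exact hx
  have mem_up : ∀ x, |x - E.x₀| < E.v * η + 2 * E.r → r.2 = up x →
      r ∈ E.set sh 1 1 ∧ |r.2.1 - E.x₀| < E.v * η + 2 * E.r := by
    intro x hx hrx
    obtain ⟨-, ⟨a, ha⟩⟩ := exists_pt sh E hE r.1 x hr1
    refine ⟨⟨a, ?_⟩, ?_⟩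
    · rw [ha]
      exact Prod.ext rfl hrx.symm
    · rw [hrx]
      exact hx
  have hc1 : ∀ i u, c'.vp w (c'.sp sh) r.1 (lin Q V' E.s₀ r.1)
      (deriv (lin Q V' E.s₀) r.1) i u = c'.vp w (c'.sp sh) r.1 q V' i u := by
    intro i u
    rw [deriv_lin, hlin]
  have hc2 : ∀ e x, c'.ept (lin Q V' E.s₀ r.1) (deriv (lin Q V' E.s₀) r.1) e x =
      c'.ept q V' e x := by
    intro e x
    rw [deriv_lin, hlin]
  constructor
  · rintro (⟨e, -, -, -, -, x, hx, h⟩ | ⟨i, -, -, u, hu, h⟩ | ⟨e, -, x, hx, -, h⟩ | ⟨⟨a, ha⟩, h⟩)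
    · exact Or.inl ⟨e, x, hx, h⟩
    · exact Or.inr ⟨i, u, hu, h⟩
    · exact Or.inl ⟨e, x, hx, h⟩
    · have hsa : (E.pt sh 1 1 a).1 = r.1 := by rw [ha]
      have hxa : a.2 = r.2.1 := by
        rw [← ha]
        rfl
      have h1 := pt_cases sh E hE a (by rw [hsa]; exact hr1)
      rw [ha, hxa] at h1
      rcases h1 with h1 | h1
      · have h2 : r.2 = low r.2.1 := h1
        rcases pL.cover sh r.1 (E.v * η + 2 * E.r) r.2.1
            (by have := hS.len1 t htm; rw [hq]; linarith)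
            (by have := hS.len4 t htm; rw [hq]; linarith) h with
          ⟨h3, h4⟩ | ⟨u, hu, h4⟩ | ⟨h3, h4⟩
        · refine Or.inl ⟨H₁, r.2.1, h3, ?_⟩
          rw [hc2, ← h4, sL]
          exact h2
        · refine Or.inr ⟨L, u, hu, ?_⟩
          rw [hc1, ← h4, sL]
          exact h2
        · refine Or.inl ⟨H₄, r.2.1, h3, ?_⟩
          rw [hc2, ← h4, sL]
          exact h2
      · have h2 : r.2 = up r.2.1 := h1
        rcases pR.cover sh r.1 (E.v * η + 2 * E.r) r.2.1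
            (by have := hS.len3 t htm; rw [hq]; linarith)
            (by have := hS.len2 t htm; rw [hq]; linarith) h with
          ⟨h3, h4⟩ | ⟨u, hu, h4⟩ | ⟨h3, h4⟩
        · refine Or.inl ⟨H₃, r.2.1, h3, ?_⟩
          rw [hc2, ← h4, sR]
          exact h2
        · refine Or.inr ⟨R, u, hu, ?_⟩
          rw [hc1, ← h4, sR]
          exact h2
        · refine Or.inl ⟨H₂, r.2.1, h3, ?_⟩
          rw [hc2, ← h4, sR]
          exact h2
  · rintro (⟨e, x, hx, h⟩ | ⟨i, u, hu, h⟩)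
    · by_cases hH : e = H₁ ∨ e = H₂ ∨ e = H₃ ∨ e = H₄
      · rcases le_or_gt (E.v * η + 2 * E.r) |x - E.x₀| with hρx | hρx
        · exact Or.inr (Or.inr (Or.inl ⟨e, hH, x, hx, hρx, h⟩))
        · refine Or.inr (Or.inr (Or.inr ?_))
          rw [hc2] at h
          rcases hH with rfl | rfl | rfl | rfl
          · have h1 : x ≤ E.x₀ - 2 * E.r := by
              have := hx.2
              rwa [hlin, r1, qL, hS.wL] at this
            rw [pL.left sh x (by linarith), sL] at h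
            exact mem_low x hρx h
          · have h1 : E.x₀ + 2 * E.r ≤ x := by
              have := hx.1
              rwa [hlin, l2, qR, hS.wR] at this
            rw [pR.right sh x (by linarith), sR] at h
            exact mem_up x hρx h
          · have h1 : x ≤ E.x₀ - 2 * E.r := by
              have := hx.2
              rwa [hlin, r3, qR, hS.wR] at this
            rw [pR.left sh x (by linarith), sR] at h
            exact mem_up x hρx h
          · have h1 : E.x₀ + 2 * E.r ≤ x := by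
              have := hx.1
              rwa [hlin, l4, qL, hS.wL] at this
            rw [pL.right sh x (by linarith), sL] at h
            exact mem_low x hρx h
      · simp only [not_or] at hH
        exact Or.inl ⟨e, hH.1, hH.2.1, hH.2.2.1, hH.2.2.2, x, hx, h⟩
    · have habs : |E.x₀ + E.r * u - E.x₀| < E.v * η + 2 * E.r := by
        rw [add_sub_cancel_left, abs_mul, abs_of_pos hr0]
        have h1 : E.r * |u| ≤ E.r * 2 := mul_le_mul_of_nonneg_left hu hr0.le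
        linarith
      by_cases hL : i = L
      · refine Or.inr (Or.inr (Or.inr ?_))
        rw [hc1, hL, pL.mid sh, sL] at h
        exact mem_low _ habs h
      · by_cases hR : i = R
        · refine Or.inr (Or.inr (Or.inr ?_))
          rw [hc1, hR, pR.mid sh, sR] at h
          exact mem_up _ habs h
        · exact Or.inr (Or.inl ⟨i, hL, hR, u, hu, h⟩)

end LCA


end

section

/-!
# Part A: a vertex and an edge during a linear motion
-/

namespace LCA

open Set Filter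
open scoped ContDiff Topology

namespace SVE

variable {m n : ℕ}

/-- The positions during the motion are convex combinations. -/
theorem pos1 {c : Comb m n} {T : ℝ} {Q Q' V' : St n} (h : c.Lin T Q Q' V') (s : ℝ) (i : Fin n) :
    (Q + s • V').1 i = (1 - s / T) * Q.1 i + s / T * Q'.1 i := by
  have hT := h.pos.ne'
  rw [h.move]
  simp only [Prod.fst_add, Prod.smul_fst, Pi.add_apply, Pi.smul_apply, smul_eq_mul]
  field_simp
  ring

theorem len {c : Comb m n} {T : ℝ} {Q Q' V' : St n} (h : c.Lin T Q Q' V') {s : ℝ}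
    (hs : s ∈ Icc (0 : ℝ) T) (e : Fin m) :
    (Q + s • V').1 (c.lf e) < (Q + s • V').1 (c.rt e) := by
  rw [pos1 h, pos1 h]
  have h0 : 0 ≤ s / T := div_nonneg hs.1 h.pos.le
  have h1 : s / T ≤ 1 := (div_le_one h.pos).2 hs.2
  have a := h.len e
  have b := h.len' e
  rcases eq_or_lt_of_le h0 with h2 | h2
  · rw [← h2]; linarith
  · linarith only [mul_pos h2 (sub_pos.2 b), mul_nonneg (sub_nonneg.2 h1) (sub_pos.2 a).le]

/-- Strict inequalities at both ends give the strict inequality between. -/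
theorem mix {l a b a' b' : ℝ} (h0 : 0 ≤ l) (h1 : l ≤ 1) (h : a < b) (h' : a' < b') :
    (1 - l) * a + l * a' < (1 - l) * b + l * b' := by
  rcases eq_or_lt_of_le h0 with h2 | h2
  · rw [← h2]; linarith
  · linarith only [mul_pos h2 (sub_pos.2 h'), mul_nonneg (sub_nonneg.2 h1) (sub_pos.2 h).le]

theorem mixle {l a b a' b' : ℝ} (h0 : 0 ≤ l) (h1 : l ≤ 1) (h : a ≤ b) (h' : a' ≤ b') :
    (1 - l) * a + l * a' ≤ (1 - l) * b + l * b' := by
  linarith only [mul_nonneg h0 (sub_nonneg.2 h'), mul_nonneg (sub_nonneg.2 h1) (sub_nonneg.2 h)]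

theorem slope (hLNP : Stmt_LNP) {c : Comb m n} {T : ℝ} {Q Q' V' : St n} (h : c.Lin T Q Q' V')
    {s : ℝ} (hs : s ∈ Icc (0 : ℝ) T) (e : Fin m) :
    c.pe (Q + s • V') e = (1 - s / T) * c.pe Q e + s / T * c.pe Q' e := by
  have hT := h.pos.ne'
  have a := (hLNP c T Q Q' V' h e s (len h hs e)).1
  have b := (hLNP c T Q Q' V' h e 0 (len h ⟨le_rfl, h.pos.le⟩ e)).1
  rw [zero_smul, add_zero] at b
  rw [a, b]
  field_simp
  ring

theorem dpe0 (hLNP : Stmt_LNP) {c : Comb m n} {T : ℝ} {Q Q' V' : St n} (h : c.Lin T Q Q' V')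
    {s : ℝ} (hs : s ∈ Icc (0 : ℝ) T) (e : Fin m) :
    c.dpe (Q + s • V') V' e = c.dpe Q' V' e := (hLNP c T Q Q' V' h e s (len h hs e)).2.1

theorem dae0 (hLNP : Stmt_LNP) {c : Comb m n} {T : ℝ} {Q Q' V' : St n} (h : c.Lin T Q Q' V')
    {s : ℝ} (hs : s ∈ Icc (0 : ℝ) T) (e : Fin m) :
    c.dae (Q + s • V') V' e = c.dae Q' V' e := (hLNP c T Q Q' V' h e s (len h hs e)).2.2

theorem plo_ge (hLNP : Stmt_LNP) {c : Comb m n} {T : ℝ} {Q Q' V' : St n} (h : c.Lin T Q Q' V')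
    {s : ℝ} (hs : s ∈ Icc (0 : ℝ) T) (i : Fin n) :
    (1 - s / T) * c.plo Q i + s / T * c.plo Q' i ≤ c.plo (Q + s • V') i := by
  have h0 : 0 ≤ s / T := div_nonneg hs.1 h.pos.le
  have h1 : s / T ≤ 1 := (div_le_one h.pos).2 hs.2
  unfold Comb.plo
  rw [slope hLNP h hs, slope hLNP h hs]
  refine le_min ?_ ?_
  · exact mixle h0 h1 (min_le_left _ _) (min_le_left _ _)
  · exact mixle h0 h1 (min_le_right _ _) (min_le_right _ _)

theorem phi_le (hLNP : Stmt_LNP) {c : Comb m n} {T : ℝ} {Q Q' V' : St n} (h : c.Lin T Q Q' V')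
    {s : ℝ} (hs : s ∈ Icc (0 : ℝ) T) (i : Fin n) :
    c.phi (Q + s • V') i ≤ (1 - s / T) * c.phi Q i + s / T * c.phi Q' i := by
  have h0 : 0 ≤ s / T := div_nonneg hs.1 h.pos.le
  have h1 : s / T ≤ 1 := (div_le_one h.pos).2 hs.2
  unfold Comb.phi
  rw [slope hLNP h hs, slope hLNP h hs]
  refine max_le ?_ ?_
  · exact mixle h0 h1 (le_max_left _ _) (le_max_left _ _)
  · exact mixle h0 h1 (le_max_right _ _) (le_max_right _ _)

theorem dl_le (hLNP : Stmt_LNP) {c : Comb m n} {T : ℝ} {Q Q' V' : St n} (h : c.Lin T Q Q' V')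
    {s : ℝ} (hs : s ∈ Icc (0 : ℝ) T) (i : Fin n) :
    |c.dl (Q + s • V') i| ≤ max |c.dl Q i| |c.dl Q' i| := by
  have h0 : 0 ≤ s / T := div_nonneg hs.1 h.pos.le
  have h1 : s / T ≤ 1 := (div_le_one h.pos).2 hs.2
  have e1 : c.dl (Q + s • V') i = (1 - s / T) * c.dl Q i + s / T * c.dl Q' i := by
    unfold Comb.dl
    rw [slope hLNP h hs, slope hLNP h hs]
    ring
  rw [e1]
  calc |(1 - s / T) * c.dl Q i + s / T * c.dl Q' i|
      ≤ |(1 - s / T) * c.dl Q i| + |s / T * c.dl Q' i| := abs_add_le _ _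
    _ = (1 - s / T) * |c.dl Q i| + s / T * |c.dl Q' i| := by
        rw [abs_mul, abs_mul, abs_of_nonneg (sub_nonneg.2 h1), abs_of_nonneg h0]
    _ ≤ (1 - s / T) * max |c.dl Q i| |c.dl Q' i| + s / T * max |c.dl Q i| |c.dl Q' i| :=
        mixle h0 h1 (le_max_left _ _) (le_max_right _ _)
    _ = max |c.dl Q i| |c.dl Q' i| := by ring

theorem err_le (hLNP : Stmt_LNP) {c : Comb m n} {w : Fin n → ℝ} (hw : ∀ i, 0 < w i) {T : ℝ}
    {Q Q' V' : St n} (h : c.Lin T Q Q' V') {s : ℝ} (hs : s ∈ Icc (0 : ℝ) T) (i : Fin n) :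
    c.err w (Q + s • V') V' i ≤ c.erS w Q Q' V' i := by
  unfold Comb.err Comb.erS
  rw [dpe0 hLNP h hs, dpe0 hLNP h hs]
  refine mul_le_mul_of_nonneg_left ?_ (hw i).le
  have hC : (0 : ℝ) ≤ CY := by unfold CY; norm_num
  have := mul_le_mul_of_nonneg_left (dl_le hLNP h hs i) hC
  linarith

theorem dpe_lin (c : Comb m n) (Q V V' : St n) (l : ℝ) (e : Fin m) :
    c.dpe Q ((1 - l) • V + l • V') e = (1 - l) * c.dpe Q V e + l * c.dpe Q V' e := by
  unfold Comb.dpe
  simp only [Prod.fst_add, Prod.snd_add, Prod.smul_fst, Prod.smul_snd, Pi.add_apply,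
    Pi.smul_apply, smul_eq_mul]
  ring

theorem dae_lin (c : Comb m n) (Q V V' : St n) (l : ℝ) (e : Fin m) :
    c.dae Q ((1 - l) • V + l • V') e = (1 - l) * c.dae Q V e + l * c.dae Q V' e := by
  unfold Comb.dae
  rw [dpe_lin]
  simp only [Prod.fst_add, Prod.snd_add, Prod.smul_fst, Prod.smul_snd, Pi.add_apply,
    Pi.smul_apply, smul_eq_mul]
  ring

theorem Dve_lin (c : Comb m n) (Q V V' : St n) (l : ℝ) (i : Fin n) (e : Fin m) :
    c.Dve Q ((1 - l) • V + l • V') i e = (1 - l) * c.Dve Q V i e + l * c.Dve Q V' i e := by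
  unfold Comb.Dve
  rw [dpe_lin, dae_lin]
  simp only [Prod.fst_add, Prod.snd_add, Prod.smul_fst, Prod.smul_snd, Pi.add_apply,
    Pi.smul_apply, smul_eq_mul]
  ring

theorem abs_mix {l : ℝ} (h0 : 0 ≤ l) (h1 : l ≤ 1) (a b : ℝ) :
    |(1 - l) * a + l * b| ≤ (1 - l) * |a| + l * |b| := by
  calc |(1 - l) * a + l * b| ≤ |(1 - l) * a| + |l * b| := abs_add_le _ _
    _ = (1 - l) * |a| + l * |b| := by
        rw [abs_mul, abs_mul, abs_of_nonneg (sub_nonneg.2 h1), abs_of_nonneg h0]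

theorem err_mix {c : Comb m n} {w : Fin n → ℝ} (hw : ∀ i, 0 < w i) (Q V V' : St n) {l : ℝ}
    (h0 : 0 ≤ l) (h1 : l ≤ 1) (i : Fin n) :
    c.err w Q ((1 - l) • V + l • V') i ≤ (1 - l) * c.err w Q V i + l * c.err w Q V' i := by
  unfold Comb.err
  rw [dpe_lin, dpe_lin]
  have a := abs_mix h0 h1 (c.dpe Q V (c.ea i)) (c.dpe Q V' (c.ea i))
  have b := abs_mix h0 h1 (c.dpe Q V (c.eb i) - c.dpe Q V (c.ea i))
    (c.dpe Q V' (c.eb i) - c.dpe Q V' (c.ea i))
  have e1 : (1 - l) * c.dpe Q V (c.eb i) + l * c.dpe Q V' (c.eb i) -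
      ((1 - l) * c.dpe Q V (c.ea i) + l * c.dpe Q V' (c.ea i)) =
      (1 - l) * (c.dpe Q V (c.eb i) - c.dpe Q V (c.ea i)) +
        l * (c.dpe Q V' (c.eb i) - c.dpe Q V' (c.ea i)) := by ring
  rw [e1]
  have key := mul_le_mul_of_nonneg_left (add_le_add a b) (hw i).le
  linarith only [key]

end SVE

open _root_.LCA.SVE

theorem t_SVE (hLNP : Stmt_LNP) : Stmt_SVE := by
  intro m n c w T Q V Q' V' i e hw _ hL h
  -- the last case during the motion
  have mot : ∀ σ : ℝ, c.erS w Q Q' V' i + 2 * w i * |c.dpe Q' V' e| <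
      σ * ((V'.2 i - c.pe Q e * V'.1 i) - (c.dpe Q' V' e * Q.1 i + c.dae Q' V' e)) →
      c.erS w Q Q' V' i + 2 * w i * |c.dpe Q' V' e| <
      σ * ((V'.2 i - c.pe Q' e * V'.1 i) - (c.dpe Q' V' e * Q'.1 i + c.dae Q' V' e)) →
      ∀ s ∈ Icc (0 : ℝ) T, c.Zve w (Q + s • V') V' i e σ := by
    intro σ h1 h2 s hs
    have h0 : 0 ≤ s / T := div_nonneg hs.1 hL.pos.le
    have h1' : s / T ≤ 1 := (div_le_one hL.pos).2 hs.2
    unfold Comb.Zve Comb.Dve
    rw [dpe0 hLNP hL hs, dae0 hLNP hL hs, slope hLNP hL hs, pos1 hL]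
    have k := mix h0 h1' h1 h2
    have k' := err_le hLNP hw hL hs i
    linarith only [k, k']
  rcases h with h | h | h | h | ⟨σ, hσ, h1, h2, h3⟩
  · refine ⟨fun s hs => Or.inl (Or.inl ?_), fun l _ => Or.inl (Or.inl h.1)⟩
    have h0 : 0 ≤ s / T := div_nonneg hs.1 hL.pos.le
    have h1 : s / T ≤ 1 := (div_le_one hL.pos).2 hs.2
    rw [pos1 hL, pos1 hL]
    have := mix h0 h1 h.1 h.2
    linarith
  · refine ⟨fun s hs => Or.inl (Or.inr (Or.inl ?_)), fun l _ => Or.inl (Or.inr (Or.inl h.1))⟩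
    have h0 : 0 ≤ s / T := div_nonneg hs.1 hL.pos.le
    have h1 : s / T ≤ 1 := (div_le_one hL.pos).2 hs.2
    rw [pos1 hL, pos1 hL]
    have := mix h0 h1 h.1 h.2
    linarith
  · refine ⟨fun s hs => Or.inl (Or.inr (Or.inr (Or.inl ?_))),
      fun l _ => Or.inl (Or.inr (Or.inr (Or.inl h.1)))⟩
    have h0 : 0 ≤ s / T := div_nonneg hs.1 hL.pos.le
    have h1 : s / T ≤ 1 := (div_le_one hL.pos).2 hs.2
    rw [slope hLNP hL hs]
    exact lt_of_lt_of_le (mix h0 h1 h.1 h.2) (plo_ge hLNP hL hs i)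
  · refine ⟨fun s hs => Or.inl (Or.inr (Or.inr (Or.inr ?_))),
      fun l _ => Or.inl (Or.inr (Or.inr (Or.inr h.1)))⟩
    have h0 : 0 ≤ s / T := div_nonneg hs.1 hL.pos.le
    have h1 : s / T ≤ 1 := (div_le_one hL.pos).2 hs.2
    rw [slope hLNP hL hs]
    exact lt_of_le_of_lt (phi_le hLNP hL hs i) (mix h0 h1 h.1 h.2)
  · refine ⟨fun s hs => Or.inr ⟨σ, hσ, mot σ h1 h2 s hs⟩, fun l hl => ?_⟩
    rcases h3 with h3 | h3
    · exact Or.inl h3
    · refine Or.inr ⟨σ, hσ, ?_⟩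
      have h4 := mot σ h1 h2 0 ⟨le_rfl, hL.pos.le⟩
      rw [zero_smul, add_zero] at h4
      unfold Comb.Zve at h3 h4 ⊢
      rw [Dve_lin, dpe_lin]
      have k := mix hl.1 hl.2 h3 h4
      have a := err_mix (c := c) hw Q V V' hl.1 hl.2 i
      have b := abs_mix hl.1 hl.2 (c.dpe Q V e) (c.dpe Q V' e)
      have b' := mul_le_mul_of_nonneg_left b (mul_nonneg zero_le_two (hw i).le)
      linarith only [k, a, b']

end LCA


end

section

/-!
# GOK: assembly of the checker of a motion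
-/

namespace LCA

open Set Filter
open scoped ContDiff Topology

theorem t_GOK (hCBL : Stmt_CBL) (hSTF : Stmt_STF) (hSVL : Stmt_SVL) (hSAM : Stmt_SAM)
    (hGEE : Stmt_GEE) (hGVV : Stmt_GVV) (hGVE : Stmt_GVE) : Stmt_GOK := by
  intro m n T A B hA hB hgo
  obtain ⟨hbnd, -, -, -, -, -, -, -, -, hall2, hall2I, hprs2⟩ := hCBL
  have FA := hSTF m n A hA
  have FB := hSTF m n B hB
  have VA := hSVL m n A FA
  have VB := hSVL m n B FB
  have hS := hSAM m n T A B FA FB VA VB hgo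
  unfold goOK at hgo
  simp only [hbnd] at hgo
  obtain ⟨-, -, -, hEE, hVV, hVE⟩ := hgo
  rw [hprs2 ES ES es0 es0] at hEE
  rw [hprs2 VS VS vs0 vs0] at hVV
  rw [hall2 VS VS vs0 vs0] at hVE
  have ee : ∀ e e' : Fin (m + 1), e ≠ e' →
      (A.cb m n).LEE (A.W n) (A.Q n) (A.V n) (B.Q n) (B.V n) e e' := by
    intro e e' hne
    rcases lt_or_gt_of_ne hne with h | h
    · exact (hGEE m n A B VA VB hS.cb hS.w e e' (hEE e e' h (by rw [FA.lenE]; exact e'.2)
        (by rw [FB.lenE]; exact e'.2))).1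
    · exact (hGEE m n A B VA VB hS.cb hS.w e' e (hEE e' e h (by rw [FA.lenE]; exact e.2)
        (by rw [FB.lenE]; exact e.2))).2
  have vv : ∀ i j : Fin (n + 1), i ≠ j →
      (A.cb m n).LVV (A.W n) (A.Q n) (A.V n) (B.Q n) (B.V n) i j := by
    intro i j hne
    rcases lt_or_gt_of_ne hne with h | h
    · exact (hGVV m n A B VA VB hS.cb hS.w i j (hVV i j h (by rw [FA.lenV]; exact j.2)
        (by rw [FB.lenV]; exact j.2))).1
    · exact (hGVV m n A B VA VB hS.cb hS.w j i (hVV j i h (by rw [FA.lenV]; exact i.2)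
        (by rw [FB.lenV]; exact i.2))).2
  have ve : ∀ (i : Fin (n + 1)) (e : Fin (m + 1)), (A.cb m n).ea i ≠ e → (A.cb m n).eb i ≠ e →
      (A.cb m n).LVE (A.W n) (A.Q n) (A.V n) (B.Q n) (B.V n) i e := by
    intro i e h1 h2
    have h3 := hVE i (by rw [FA.lenV]; exact i.2) (by rw [FB.lenV]; exact i.2)
    rw [hall2I ES ES es0 es0] at h3
    exact hGVE m n A B VA VB hS.cb hS.w i e h1 h2
      (h3 e (by rw [FA.lenE]; exact e.2) (by rw [FB.lenE]; exact e.2))
  have lenB : ∀ e, 2 * (A.W n ((A.cb m n).lf e) + A.W n ((A.cb m n).rt e)) <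
      (B.Q n).1 ((A.cb m n).rt e) - (B.Q n).1 ((A.cb m n).lf e) := by
    intro e
    rw [hS.cb, hS.w]
    exact VB.len e
  refine ⟨⟨VA.valid, VA.wpos, ⟨hS.pos, hS.move, fun e => ?_, fun e => ?_, fun e => ?_, fun e => ?_⟩,
    VA.len, lenB, hS.tip, ee, vv, ve⟩, hS.cb, hS.w⟩
  · have h1 := VA.len e
    have h2 := VA.wpos ((A.cb m n).lf e)
    have h3 := VA.wpos ((A.cb m n).rt e)
    linarith
  · have h1 := lenB e
    have h2 := VA.wpos ((A.cb m n).lf e)
    have h3 := VA.wpos ((A.cb m n).rt e)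
    linarith
  · rw [hS.cb]; exact VB.fl e
  · rw [hS.cb]; exact VB.fr e

end LCA


end

section

/-!
# Part A, BXL: the box around a critical point during a linear motion
-/

namespace LCA

open Set Filter
open scoped ContDiff Topology

namespace BXL

variable {m n : ℕ}

/-- An affine function which is larger than `K` at both ends of an interval is larger than `K`
on the interval. -/
theorem aff {σ A B z K l r p : ℝ} (h1 : l ≤ p) (h2 : p ≤ r) (hl : K < σ * (A - l * B - z))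
    (hr : K < σ * (A - r * B - z)) : K < σ * (A - p * B - z) := by
  have e : ∀ x, σ * (A - x * B - z) = σ * (A - z) - x * (σ * B) := by
    intro x
    ring
  rw [e] at hl hr ⊢
  rcases le_total 0 (σ * B) with hB | hB
  · have : p * (σ * B) ≤ r * (σ * B) := mul_le_mul_of_nonneg_right h2 hB
    linarith
  · have : p * (σ * B) ≤ l * (σ * B) := mul_le_mul_of_nonpos_right h1 hB
    linarith

theorem plo_le_phi (c : Comb m n) (q : St n) (i : Fin n) : c.plo q i ≤ c.phi q i :=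
  (min_le_left _ _).trans (le_max_left _ _)

theorem min_le_mix {l a b : ℝ} (h0 : 0 ≤ l) (h1 : l ≤ 1) : min a b ≤ (1 - l) * a + l * b := by
  have h2 : 0 ≤ 1 - l := sub_nonneg.2 h1
  have a1 := mul_le_mul_of_nonneg_left (min_le_left a b) h2
  have a2 := mul_le_mul_of_nonneg_left (min_le_right a b) h0
  linarith

theorem mix_le_max {l a b : ℝ} (h0 : 0 ≤ l) (h1 : l ≤ 1) : (1 - l) * a + l * b ≤ max a b := by
  have h2 : 0 ≤ 1 - l := sub_nonneg.2 h1
  have a1 := mul_le_mul_of_nonneg_left (le_max_left a b) h2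
  have a2 := mul_le_mul_of_nonneg_left (le_max_right a b) h0
  linarith

/-- A convex combination stays below a bound. -/
theorem mixR {l a a' b : ℝ} (h0 : 0 ≤ l) (h1 : l ≤ 1) (h : a < b) (h' : a' < b) :
    (1 - l) * a + l * a' < b := by
  have := SVE.mix h0 h1 h h'
  linarith

/-- A convex combination stays above a bound. -/
theorem mixL {l a a' b : ℝ} (h0 : 0 ≤ l) (h1 : l ≤ 1) (h : b < a) (h' : b < a') :
    b < (1 - l) * a + l * a' := by
  have := SVE.mix h0 h1 h h'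
  linarith

end BXL

/-- BXL: the box during a linear motion. -/
theorem t_BXL (hLNP : Stmt_LNP) : Stmt_BXL := by
  intro m n c w T E ρ Q Q' V' hw _ hL hE
  constructor
  · intro e he s hs
    have h0 : 0 ≤ s / T := div_nonneg hs.1 hL.pos.le
    have h1 : s / T ≤ 1 := (div_le_one hL.pos).2 hs.2
    unfold Comb.BoxE
    rcases he with h | h | h | h | h
    · refine Or.inl ?_
      rw [SVE.pos1 hL]
      have := BXL.mixR h0 h1 h.1 h.2
      linarith
    · refine Or.inr (Or.inl ?_)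
      rw [SVE.pos1 hL]
      have := BXL.mixL h0 h1 h.1 h.2
      linarith
    · refine Or.inr (Or.inr (Or.inl ?_))
      rw [SVE.slope hLNP hL hs]
      exact BXL.mixR h0 h1 h.1 h.2
    · refine Or.inr (Or.inr (Or.inr (Or.inl ?_)))
      rw [SVE.slope hLNP hL hs]
      exact BXL.mixL h0 h1 h.1 h.2
    · refine Or.inr (Or.inr (Or.inr (Or.inr ?_)))
      rw [SVE.dpe0 hLNP hL hs, SVE.dae0 hLNP hL hs]
      exact h
  · intro i hi s hs
    have h0 : 0 ≤ s / T := div_nonneg hs.1 hL.pos.le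
    have h1 : s / T ≤ 1 := (div_le_one hL.pos).2 hs.2
    have plo := SVE.plo_ge hLNP hL hs i
    have phi := SVE.phi_le hLNP hL hs i
    unfold Comb.BoxV
    rcases hi with h | h | h | h | ⟨σ, hσ, ha, hb⟩
    · refine Or.inl ?_
      rw [SVE.pos1 hL]
      have := BXL.mixR h0 h1 h.1 h.2
      linarith
    · refine Or.inr (Or.inl ?_)
      rw [SVE.pos1 hL]
      have := BXL.mixL h0 h1 h.1 h.2
      linarith
    · exact Or.inr (Or.inr (Or.inl (phi.trans_lt (BXL.mixR h0 h1 h.1 h.2))))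
    · exact Or.inr (Or.inr (Or.inr (Or.inl ((BXL.mixL h0 h1 h.1 h.2).trans_le plo))))
    · rcases lt_or_ge (c.phi (Q + s • V') i) (min E.P₁ E.P₂ - E.g / 2) with h2 | h2
      · exact Or.inr (Or.inr (Or.inl h2))
      rcases lt_or_ge (max E.P₁ E.P₂ + E.g / 2) (c.plo (Q + s • V') i) with h3 | h3
      · exact Or.inr (Or.inr (Or.inr (Or.inl h3)))
      have hPP : min E.P₁ E.P₂ - E.g / 2 ≤ max E.P₁ E.P₂ + E.g / 2 := by
        have k1 : min E.P₁ E.P₂ ≤ max E.P₁ E.P₂ := (min_le_left _ _).trans (le_max_left _ _)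
        have k2 := hE.g
        linarith
      have hm : max (c.plo (Q + s • V') i) (min E.P₁ E.P₂ - E.g / 2) ≤
          min (c.phi (Q + s • V') i) (max E.P₁ E.P₂ + E.g / 2) :=
        max_le (le_min (BXL.plo_le_phi c _ i) h3) (le_min h2 hPP)
      have l1 : max (min (c.plo Q i) (c.plo Q' i)) (min E.P₁ E.P₂ - E.g / 2) ≤
          max (c.plo (Q + s • V') i) (min E.P₁ E.P₂ - E.g / 2) :=
        max_le_max ((BXL.min_le_mix h0 h1).trans plo) le_rfl
      have l2 : min (c.phi (Q + s • V') i) (max E.P₁ E.P₂ + E.g / 2) ≤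
          min (max (c.phi Q i) (c.phi Q' i)) (max E.P₁ E.P₂ + E.g / 2) :=
        min_le_min (phi.trans (BXL.mix_le_max h0 h1)) le_rfl
      have ke := SVE.err_le hLNP hw hL hs i
      refine Or.inr (Or.inr (Or.inr (Or.inr ⟨σ, hσ, ?_, ?_⟩)))
      · have := BXL.aff l1 (hm.trans l2) ha hb
        linarith
      · have := BXL.aff (l1.trans hm) l2 ha hb
        linarith

end LCA


end

section

/-!
# FGO: the order of the two arcs of a finger for the polygons
-/

set_option autoImplicit false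

namespace LHE

open Set LG LH
open scoped ContDiff

namespace FGO

theorem cx (Λ : LC.LegKnot) : Continuous Λ.x := Λ.smooth.continuous.fst

theorem cz (Λ : LC.LegKnot) : Continuous (zz Λ) := Λ.smooth.continuous.snd.snd

theorem sy (Λ : LC.LegKnot) : ContDiff ℝ ∞ Λ.y := Λ.smooth.snd.fst

theorem dy (Λ : LC.LegKnot) : Differentiable ℝ Λ.y := (sy Λ).differentiable (by simp)

theorem cdy (Λ : LC.LegKnot) : Continuous (deriv Λ.y) := (sy Λ).continuous_deriv (by simp)

theorem mono_up (F : ℤ → ℝ) (i j : ℤ) (hij : i ≤ j) (h : ∀ k, i ≤ k → k < j → F k ≤ F (k + 1)) :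
    F i ≤ F j := by
  induction j, hij using Int.leInduction with
  | base => exact le_refl _
  | succ m hm ih =>
    exact (ih fun k h1 h2 => h k h1 (by omega)).trans (h m hm (by omega))

theorem anti_up (G : ℤ → ℝ) (i j : ℤ) (hij : i ≤ j) (h : ∀ k, i ≤ k → k < j → G (k + 1) < G k) :
    i < j → G j < G i := by
  induction j, hij using Int.leInduction with
  | base => exact fun h => absurd h (lt_irrefl _)
  | succ m hm ih =>
    intro _
    have h1 := h m hm (by omega)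
    by_cases h2 : i < m
    · exact h1.trans (ih (fun k h3 h4 => h k h3 (by omega)) h2)
    · have h3 : m = i := by omega
      rw [h3] at h1 ⊢
      exact h1

/-- The compactness argument. -/
theorem far (Λ : LC.LegKnot) (s o : Bool) (a c d τ ρ : ℝ) (hF : FgS Λ s a c d τ)
    (hO : OdS Λ s a c d o) (hρ : 0 < ρ) (hρa : ρ ≤ c - a) :
    ∃ κ > (0 : ℝ), ∀ u₁ ∈ Icc a c, ∀ u₂ ∈ Icc c d, (u₁ ≤ c - ρ ∨ c + ρ ≤ u₂) →
      κ ≤ |Λ.x u₁ - Λ.x u₂| ∨ κ ≤ sn o * (zz Λ u₁ - zz Λ u₂) := by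
  have hg : Continuous fun q : ℝ × ℝ =>
      max |Λ.x q.1 - Λ.x q.2| (sn o * (zz Λ q.1 - zz Λ q.2)) := by
    have h1 := cx Λ
    have h2 := cz Λ
    fun_prop
  have hS : IsCompact ((Icc a (c - ρ) ×ˢ Icc c d) ∪ (Icc a c ×ˢ Icc (c + ρ) d) : Set (ℝ × ℝ)) :=
    (isCompact_Icc.prod isCompact_Icc).union (isCompact_Icc.prod isCompact_Icc)
  have hne : ((Icc a (c - ρ) ×ˢ Icc c d) ∪ (Icc a c ×ˢ Icc (c + ρ) d) : Set (ℝ × ℝ)).Nonempty :=
    ⟨(a, c), Or.inl ⟨⟨le_refl _, by linarith⟩, ⟨le_refl _, hF.cd.le⟩⟩⟩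
  obtain ⟨q, hq, hmin⟩ := hS.exists_isMinOn hne hg.continuousOn
  refine ⟨max |Λ.x q.1 - Λ.x q.2| (sn o * (zz Λ q.1 - zz Λ q.2)), ?_, ?_⟩
  · by_contra hcon
    rw [gt_iff_lt, not_lt, max_le_iff] at hcon
    obtain ⟨h1, h2⟩ := hcon
    have h3 : Λ.x q.1 = Λ.x q.2 := by
      have := abs_nonpos_iff.1 h1
      linarith
    have hq1 : q.1 ∈ Icc a c := by
      rcases hq with hq | hq
      · exact ⟨hq.1.1, by have := hq.1.2; linarith⟩
      · exact hq.1
    have hq2 : q.2 ∈ Icc c d := by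
      rcases hq with hq | hq
      · exact hq.2
      · exact ⟨by have := hq.2.1; linarith, hq.2.2⟩
    have h4 : q.1 ≠ c := by
      rcases hq with hq | hq
      · have := hq.1.2
        intro h
        rw [h] at this
        linarith
      · intro h
        have h5 := hF.m2 ⟨le_refl _, hF.cd.le⟩ hq2 (by have := hq.2.1; linarith : c < q.2)
        rw [h] at h3
        simp only at h5
        rw [h3] at h5
        exact lt_irrefl _ h5
    have h5 := hO.od q.1 hq1 q.2 hq2 h3 h4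
    linarith
  · intro u₁ h1 u₂ h2 h3
    have hmem : (u₁, u₂) ∈ ((Icc a (c - ρ) ×ˢ Icc c d) ∪ (Icc a c ×ˢ Icc (c + ρ) d) :
        Set (ℝ × ℝ)) := by
      rcases h3 with h3 | h3
      · exact Or.inl ⟨⟨h1.1, h3⟩, h2⟩
      · exact Or.inr ⟨h1, ⟨h3, h2.2⟩⟩
    have h4 := hmin hmem
    simp only [mem_ofPred_eq] at h4
    exact le_max_iff.1 h4

theorem unif (f : ℝ → ℝ) (hf : Continuous f) (a b ε : ℝ) (hε : 0 < ε) :
    ∃ δ > (0 : ℝ), ∀ u ∈ Icc a b, ∀ v ∈ Icc a b, |u - v| < δ → |f u - f v| < ε := by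
  have h1 := (isCompact_Icc (a := a) (b := b)).uniformContinuousOn_of_continuous hf.continuousOn
  rw [Metric.uniformContinuousOn_iff] at h1
  obtain ⟨δ, hδ, h2⟩ := h1 ε hε
  exact ⟨δ, hδ, fun u hu v hv h => h2 u hu v hv h⟩

/-- Lines of nearby crossing edges. -/
theorem near (hB : P_PGB) {N : ℕ} (P : Pg N) (s o : Bool) (t : ℝ) (e f : ℤ) (hef : e < f)
    (hy : ∀ i, e ≤ i → i < f → 0 < sn o * (sn s * (P.y (i + 1) - P.y i)))
    (hx : ∀ m, e < m → m ≤ f → sn s * t < sn s * P.x m) : sn o * P.l f t < sn o * P.l e t := by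
  refine anti_up (fun i => sn o * P.l i t) e f hef.le (fun k h1 h2 => ?_) hef
  have h3 := hB.ls P k t
  have h4 := hy k h1 h2
  have h5 := hx (k + 1) (by omega) (by omega)
  have h6 : sn o * P.l (k + 1) t - sn o * P.l k t =
      (sn o * (sn s * (P.y (k + 1) - P.y k))) * (sn s * t - sn s * P.x (k + 1)) := by
    have h7 : (sn o * (sn s * (P.y (k + 1) - P.y k))) * (sn s * t - sn s * P.x (k + 1)) =
        (sn s * sn s) * (sn o * ((P.y (k + 1) - P.y k) * (t - P.x (k + 1)))) := by ring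
    rw [h7, sn_sq, one_mul, ← h3]
    ring
  have h8 : (sn o * (sn s * (P.y (k + 1) - P.y k))) * (sn s * t - sn s * P.x (k + 1)) < 0 :=
    mul_neg_of_pos_of_neg h4 (by linarith)
  show sn o * P.l (k + 1) t < sn o * P.l k t
  linarith

end FGO

open _root_.LHE.FGO in
theorem t_FGO : Stmt_FGO := by
  intro hE hB Λ s o a c d τ hF hO
  obtain ⟨K, hK, N₁, hN₁, hE⟩ := hE Λ
  -- the neighbourhood of `c`
  obtain ⟨η, hη, hηc⟩ : ∃ η > 0, η < sn o * (sn s * deriv Λ.y c) :=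
    ⟨sn o * (sn s * deriv Λ.y c) / 2, half_pos hO.yc, half_lt_self hO.yc⟩
  obtain ⟨ε, hε, hεc⟩ : ∃ ε > (0 : ℝ), ∀ u, |u - c| < ε → η < sn o * (sn s * deriv Λ.y u) := by
    have h1 : Continuous fun u => sn o * (sn s * deriv Λ.y u) :=
      continuous_const.mul (continuous_const.mul (cdy Λ))
    have h2 : {u | η < sn o * (sn s * deriv Λ.y u)} ∈ nhds c :=
      (isOpen_lt continuous_const h1).mem_nhds hηc
    obtain ⟨ε, hε, h3⟩ := Metric.mem_nhds_iff.1 h2
    exact ⟨ε, hε, fun u hu => h3 hu⟩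
  obtain ⟨ρ, hρ, hρa, hρε⟩ : ∃ ρ > 0, ρ ≤ c - a ∧ ρ ≤ ε / 2 :=
    ⟨min (c - a) (ε / 2), lt_min (by linarith [hF.ac]) (half_pos hε), min_le_left _ _,
      min_le_right _ _⟩
  obtain ⟨κ, hκ, hfar⟩ := far Λ s o a c d τ ρ hF hO hρ hρa
  obtain ⟨δ₁, hδ₁, hux⟩ := unif Λ.x (cx Λ) (a - 1) (d + 1) (κ / 8) (by linarith)
  obtain ⟨δ₂, hδ₂, huz⟩ := unif (zz Λ) (cz Λ) (a - 1) (d + 1) (κ / 8) (by linarith)
  obtain ⟨B, hBd⟩ : ∃ B : ℝ, B = 2 / ε + K ^ 2 / η + 16 * (K + K ^ 2) / κ + 2 / δ₁ + 2 / δ₂ + 1 :=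
    ⟨_, rfl⟩
  refine ⟨max N₁ ⌈B⌉₊, fun N hN P hP A C D hI => ?_⟩
  have hNN : N₁ ≤ N := (le_max_left _ _).trans hN
  have hNB : B ≤ N := (Nat.ceil_le).1 ((le_max_right _ _).trans hN)
  obtain ⟨hmu, hest⟩ := hE N hNN P hP
  have p1 : 0 < 2 / ε := by positivity
  have p2 : 0 < K ^ 2 / η := by positivity
  have p3 : 0 < 16 * (K + K ^ 2) / κ := by positivity
  have p4 : 0 < 2 / δ₁ := by positivity
  have p5 : 0 < 2 / δ₂ := by positivity
  have hN1 : (1 : ℝ) ≤ N := by linarith only [hBd, hNB, p1, p2, p3, p4, p5]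
  have hN0 : (0 : ℝ) < N := by linarith only [hBd, hNB, p1, p2, p3, p4, p5]
  have hNε : 2 < ε * N := by
    have h1 : 2 / ε < N := by linarith
    rwa [div_lt_iff₀' hε] at h1
  have hNη : K ^ 2 < η * N := by
    have h1 : K ^ 2 / η < N := by linarith
    rwa [div_lt_iff₀' hη] at h1
  have hNκ : 16 * (K + K ^ 2) < κ * N := by
    have h1 : 16 * (K + K ^ 2) / κ < N := by linarith
    rwa [div_lt_iff₀' hκ] at h1
  have hN4 : 2 < δ₁ * N := by
    have h1 : 2 / δ₁ < N := by linarith only [hBd, hNB, p1, p2, p3, p5]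
    rwa [div_lt_iff₀' hδ₁] at h1
  have hN5 : 2 < δ₂ * N := by
    have h1 : 2 / δ₂ < N := by linarith only [hBd, hNB, p1, p2, p3, p4]
    rwa [div_lt_iff₀' hδ₂] at h1
  have hinv : 1 / (N : ℝ) ≤ 1 := by
    rw [div_le_one hN0]
    exact hN1
  have hxN : ∀ i : ℤ, P.x i = Λ.x ((i : ℝ) / N) := fun i => congrFun hP.1 i
  have hyN : ∀ i : ℤ, P.y i = y1 Λ N i := fun i => congrFun hP.2.1 i
  intro t ht e he f hf hce hcf
  obtain ⟨hce1, hce2⟩ := hce
  obtain ⟨hcf1, hcf2⟩ := hcf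
  rw [sn_not] at hcf1 hcf2
  have hIa := abs_le.1 hI.a
  have hIc := abs_le.1 hI.c
  have hId := abs_le.1 hI.d
  -- monotonicity
  have hm1 : ∀ k, A ≤ k → k < C → sn s * P.x k ≤ sn s * P.x (k + 1) := by
    intro k h1 h2
    by_cases h3 : k = A
    · rw [h3]
      exact hI.xa
    by_cases h4 : k = C - 1
    · rw [h4, sub_add_cancel]
      exact hI.xc
    have h5 : A + 1 ≤ k := by omega
    have h6 : k + 2 ≤ C := by omega
    have h5' : (A : ℝ) + 1 ≤ k := by exact_mod_cast h5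
    have h6' : (k : ℝ) + 2 ≤ C := by exact_mod_cast h6
    rw [hxN, hxN]
    have h7 : a ≤ (k : ℝ) / N := by
      rw [le_div_iff₀ hN0]
      linarith
    have h8 : (((k + 1 : ℤ) : ℝ)) / N ≤ c := by
      rw [div_le_iff₀ hN0]
      push_cast
      linarith only [hIc, h6']
    have h9 : (k : ℝ) / N ≤ ((k + 1 : ℤ) : ℝ) / N := by
      apply div_le_div_of_nonneg_right _ hN0.le
      push_cast
      linarith
    exact hF.m1.monotoneOn ⟨h7, h9.trans h8⟩ ⟨h7.trans h9, h8⟩ h9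
  have hm2 : ∀ k, C ≤ k → k < D → sn s * P.x (k + 1) ≤ sn s * P.x k := by
    intro k h1 h2
    by_cases h3 : k = C
    · rw [h3]
      exact hI.xc'
    by_cases h4 : k = D - 1
    · rw [h4, sub_add_cancel]
      exact hI.xd
    have h5 : C + 1 ≤ k := by omega
    have h6 : k + 2 ≤ D := by omega
    have h5' : (C : ℝ) + 1 ≤ k := by exact_mod_cast h5
    have h6' : (k : ℝ) + 2 ≤ D := by exact_mod_cast h6
    rw [hxN, hxN]
    have h7 : c ≤ (k : ℝ) / N := by
      rw [le_div_iff₀ hN0]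
      linarith
    have h8 : (((k + 1 : ℤ) : ℝ)) / N ≤ d := by
      rw [div_le_iff₀ hN0]
      push_cast
      linarith
    have h9 : (k : ℝ) / N ≤ ((k + 1 : ℤ) : ℝ) / N := by
      apply div_le_div_of_nonneg_right _ hN0.le
      push_cast
      linarith only []
    exact hF.m2.antitoneOn ⟨h7, h9.trans h8⟩ ⟨h7.trans h9, h8⟩ h9
  have hbey : ∀ m, e < m → m ≤ f → sn s * t < sn s * P.x m := by
    intro m h1 h2
    by_cases h3 : m ≤ C
    · have h4 := mono_up (fun i => sn s * P.x i) (e + 1) m (by omega)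
        (fun k h5 h6 => hm1 k (by have := he.1; omega) (by omega))
      exact lt_of_lt_of_le hce2 h4
    · have h4 : -(sn s * P.x m) ≤ -(sn s * P.x f) := mono_up (fun i => -(sn s * P.x i)) m f h2
        (fun k h5 h6 => neg_le_neg (hm2 k (by omega) (by have := hf.2; omega)))
      linarith only [hcf1, h4]
  have he1 : ((A : ℝ)) ≤ e := by exact_mod_cast he.1
  have he2 : (e : ℝ) + 1 ≤ C := by exact_mod_cast he.2
  have hf1 : ((C : ℝ)) ≤ f := by exact_mod_cast hf.1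
  have hf2 : (f : ℝ) + 1 ≤ D := by exact_mod_cast hf.2
  by_cases hcase : c - ρ < (e : ℝ) / N ∧ (f : ℝ) / N < c + ρ
  · -- near
    refine near hB P s o t e f (by have := he.2; have := hf.1; omega) (fun i hi1 hi2 => ?_) hbey
    have hi1' : (e : ℝ) ≤ i := by exact_mod_cast hi1
    have hi2' : (i : ℝ) + 1 ≤ f := by exact_mod_cast hi2
    have hlt : ((i : ℝ) + 1 / 2) / N < ((i : ℝ) + 1 + 1 / 2) / N := by
      apply div_lt_div_of_pos_right _ hN0
      linarith only []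
    obtain ⟨ξ, hξ, hξ'⟩ := exists_deriv_eq_slope Λ.y hlt (dy Λ).continuous.continuousOn
      (dy Λ).differentiableOn
    have hξc : |ξ - c| < ε := by
      rw [abs_lt]
      have q1 : (e : ℝ) / N < ξ := by
        refine lt_of_le_of_lt ?_ hξ.1
        apply div_le_div_of_nonneg_right _ hN0.le
        linarith only [hi1']
      have q2 : ξ < (f : ℝ) / N + 1 / N := by
        refine lt_of_lt_of_le hξ.2 ?_
        rw [← add_div]
        apply div_le_div_of_nonneg_right _ hN0.le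
        linarith only [hi2']
      have q3 : 1 / (N : ℝ) < ε / 2 := by
        rw [div_lt_iff₀ hN0]
        linarith only [hNε]
      constructor
      · linarith only [hρε, hcase, q1, q2, q3]
      · linarith only [hρε, hcase, q2, q3]
    have h1 := hεc ξ hξc
    have hy2 : P.y (i + 1) - P.y i = deriv Λ.y ξ * (1 / N) -
        mu Λ N * (P.x (i + 2) - 2 * P.x (i + 1) + P.x i) := by
      rw [hyN, hyN, y1, y1, y0, y0, hξ', ← congrFun hP.1, ← congrFun hP.1, ← congrFun hP.1]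
      have e1 : ((i : ℝ) + 1 + 1 / 2) / N - ((i : ℝ) + 1 / 2) / N = 1 / N := by ring
      have e2 : (((i + 1 : ℤ) : ℝ) + 1 / 2) / N = ((i : ℝ) + 1 + 1 / 2) / N := by
        push_cast
        ring
      have e3 : i + 1 + 1 = i + 2 := by ring
      rw [e1, e2, e3, div_mul_cancel₀ _ (by positivity)]
      ring
    obtain ⟨-, -, -, h2, -⟩ := hest i
    have h3 : |mu Λ N * (P.x (i + 2) - 2 * P.x (i + 1) + P.x i)| ≤ K * (K / N ^ 2) := by
      rw [abs_mul]
      exact mul_le_mul hmu h2 (abs_nonneg _) hK.le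
    have h4 : K * (K / (N : ℝ) ^ 2) < η * (1 / N) := by
      have e1 : K * (K / (N : ℝ) ^ 2) = K ^ 2 / N ^ 2 := by ring
      have e2 : η * (1 / (N : ℝ)) = η * N / N ^ 2 := by
        field_simp
      rw [e1, e2]
      apply div_lt_div_of_pos_right hNη
      positivity
    have h5 : η * (1 / (N : ℝ)) < sn o * (sn s * deriv Λ.y ξ) * (1 / N) :=
      mul_lt_mul_of_pos_right h1 (by positivity)
    rw [hy2]
    have h6 := abs_le.1 h3
    rcases sn_or o with ho | ho <;> rcases sn_or s with hs | hs <;> rw [ho, hs] at h5 ⊢ <;>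
      (first | linarith only [h4, h5, h6] | linarith [h6.1, h6.2])
  · -- far
    obtain ⟨u₁, hu₁⟩ : ∃ u, u = max a ((e : ℝ) / N) := ⟨_, rfl⟩
    obtain ⟨u₂, hu₂⟩ : ∃ u, u = max c ((f : ℝ) / N) := ⟨_, rfl⟩
    have e1 : a - 1 / N ≤ (e : ℝ) / N := by
      rw [sub_le_iff_le_add, ← add_div, le_div_iff₀ hN0]
      linarith
    have e2 : (e : ℝ) / N ≤ c := by
      rw [div_le_iff₀ hN0]
      linarith
    have f1 : c - 1 / N ≤ (f : ℝ) / N := by
      rw [sub_le_iff_le_add, ← add_div, le_div_iff₀ hN0]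
      linarith only [hIc, hf1]
    have f2 : (f : ℝ) / N ≤ d := by
      rw [div_le_iff₀ hN0]
      linarith only [hId, hf2]
    have hac := hF.ac
    have hcd := hF.cd
    have hN' : 0 < 1 / (N : ℝ) := by positivity
    have u11 : u₁ ∈ Icc a c := by
      rw [hu₁]
      exact ⟨le_max_left _ _, max_le hac.le e2⟩
    have u22 : u₂ ∈ Icc c d := by
      rw [hu₂]
      exact ⟨le_max_left _ _, max_le hcd.le f2⟩
    have d1 : |(e : ℝ) / N - u₁| ≤ 1 / N := by
      rw [hu₁, abs_le]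
      rcases le_total a ((e : ℝ) / N) with h | h
      · rw [max_eq_right h]
        constructor <;> (first | linarith only [hN'] | linarith)
      · rw [max_eq_left h]
        constructor <;> (first | linarith only [e1] | linarith only [hN', h] | linarith)
    have d2 : |(f : ℝ) / N - u₂| ≤ 1 / N := by
      rw [hu₂, abs_le]
      rcases le_total c ((f : ℝ) / N) with h | h
      · rw [max_eq_right h]
        constructor <;> (first | linarith only [hN'] | linarith)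
      · rw [max_eq_left h]
        constructor <;> (first | linarith only [f1] | linarith only [hN', h] | linarith)
    have hfar' : u₁ ≤ c - ρ ∨ c + ρ ≤ u₂ := by
      rw [not_and_or, not_lt, not_lt] at hcase
      rcases hcase with h | h
      · left
        rw [hu₁]
        exact max_le (by linarith only [hρa]) h
      · right
        rw [hu₂]
        exact h.trans (le_max_right _ _)
    have hs1 : 1 / (N : ℝ) < δ₁ := by
      rw [div_lt_iff₀ hN0]
      linarith only [hN4]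
    have hs2 : 1 / (N : ℝ) < δ₂ := by
      rw [div_lt_iff₀ hN0]
      linarith only [hN5]
    have me : (e : ℝ) / N ∈ Icc (a - 1) (d + 1) := ⟨by linarith only [hinv, e1], by linarith only [e2, hcd]⟩
    have mf : (f : ℝ) / N ∈ Icc (a - 1) (d + 1) := ⟨by linarith only [hρ, hρa, hinv, f1], by linarith only [f2]⟩
    have mu1 : u₁ ∈ Icc (a - 1) (d + 1) := ⟨by linarith only [u11.1], by linarith only [hcd, u11.2]⟩
    have mu2 : u₂ ∈ Icc (a - 1) (d + 1) := ⟨by linarith only [hρ, hρa, u22.1], by linarith only [u22.2]⟩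
    have x1 := abs_lt.1 (hux _ me _ mu1 (lt_of_le_of_lt d1 hs1))
    have x2 := abs_lt.1 (hux _ mf _ mu2 (lt_of_le_of_lt d2 hs1))
    have z1 := abs_lt.1 (huz _ me _ mu1 (lt_of_le_of_lt d1 hs2))
    have z2 := abs_lt.1 (huz _ mf _ mu2 (lt_of_le_of_lt d2 hs2))
    rw [← hxN] at x1 x2
    obtain ⟨-, ze, xe, -, ye⟩ := hest e
    obtain ⟨-, zf, xf, -, yf⟩ := hest f
    -- the positions of the edges
    have hKN : K / (N : ℝ) + K * (K / N) < κ / 16 := by
      have h1 : K / (N : ℝ) + K * (K / N) = (K + K ^ 2) / N := by ring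
      rw [h1, div_lt_iff₀ hN0]
      linarith only [hNκ]
    have hKN' : 0 < K * (K / (N : ℝ)) := by positivity
    have te : |t - P.x e| ≤ K / N := by
      have h1 := abs_le.1 xe
      rw [abs_le]
      rcases sn_or s with hs | hs <;> rw [hs] at hce1 hce2 <;> constructor <;>
        (first | linarith only [hce1, h1] | linarith only [hce2, h1] | linarith [h1.1, h1.2])
    have tf : |t - P.x f| ≤ K / N := by
      have h1 := abs_le.1 xf
      rw [abs_le]
      rcases sn_or s with hs | hs <;> rw [hs] at hcf1 hcf2 <;> constructor <;>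
        (first | linarith only [hcf2, h1] | linarith only [hcf1, h1] | linarith [h1.1, h1.2])
    have le1 : |P.y e * (t - P.x e)| ≤ K * (K / N) := by
      rw [abs_mul]
      exact mul_le_mul ye te (abs_nonneg _) hK.le
    have lf1 : |P.y f * (t - P.x f)| ≤ K * (K / N) := by
      rw [abs_mul]
      exact mul_le_mul yf tf (abs_nonneg _) hK.le
    have te' := abs_le.1 te
    have tf' := abs_le.1 tf
    have le2 := abs_le.1 le1
    have lf2 := abs_le.1 lf1
    have ze' := abs_le.1 ze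
    have zf' := abs_le.1 zf
    rcases hfar u₁ u11 u₂ u22 hfar' with h | h
    · exfalso
      have h1 : |Λ.x u₁ - Λ.x u₂| < κ := by
        rw [abs_lt]
        constructor <;> (first | linarith only [x1, x2, hKN, hKN', te', tf'] | linarith [x1.1, x1.2, x2.1, x2.2, te'.1, te'.2, tf'.1, tf'.2])
      exact absurd h (not_le.2 h1)
    · rw [Pg.l, Pg.l]
      rcases sn_or o with ho | ho <;> rw [ho] at h ⊢ <;>
        (first | linarith only [z1, z2, hKN, le2, lf2, ze', zf', h] | linarith [z1.1, z1.2, z2.1, z2.2, le2.1, le2.2, lf2.1, lf2.2, ze'.1, ze'.2, zf'.1, zf'.2])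

end LHE


end
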