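import Mathlib
import Pool.Agent.NDM.C01
import Pool.Agent.NDM.C02
import Pool.Agent.NDM.C03

/-! Parts: LG.LEQ, LG.LSC, LH.CMP, LH.UNI, LHS.STM, LCA.KNT, LHE.Stmts4, LHE.VXF, LHE.VXT, LHE.VXY, LCA.REV, LCA.OPC, LCA.FDC, LCA.STD, LHE.ZPN, LHE.ROT, LCA.CapJ.D11 -/

section

/-!
# Legendrian equivalence preserves the vanishing of the two classes
-/

namespace LG

open Equiv Finset Function

theorem t_LEQ : Stmt_LEQ := by
  intro hmv hneg L L' h
  induction h with
  | rel x y hxy => exact ⟨hmv x y hxy, hmv _ _ (hneg x y hxy)⟩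
  | refl x => exact ⟨Iff.rfl, Iff.rfl⟩
  | symm x y _ ih => exact ⟨ih.1.symm, ih.2.symm⟩
  | trans x y z _ _ ih1 ih2 => exact ⟨ih1.1.trans ih2.1, ih1.2.trans ih2.2⟩

end LG


end

section

/-!
# LSC: short column for lists
-/

namespace LG

open Equiv Finset Function

namespace LSC

/-- The rotated transposed list. -/
theorem rev_eq (c₁ r₁ c₂ r₂ : ℝ) (z : ℝ × ℝ) (B : List (ℝ × ℝ)) :
    (((c₁, r₁) :: (c₂, r₂) :: z :: B).map Prod.swap).reverse =
      ((B.map Prod.swap).reverse ++ [z.swap]) ++ [(r₂, c₂), (r₁, c₁)] := by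
  simp

theorem rev_eq' (c₁ r₁ : ℝ) (z : ℝ × ℝ) (B : List (ℝ × ℝ)) :
    (((c₁, r₁) :: z :: B).map Prod.swap).reverse =
      ((B.map Prod.swap).reverse ++ [z.swap]) ++ [(r₁, c₁)] := by
  simp

theorem mem_fst (c₁ r₁ c₂ r₂ : ℝ) (z : ℝ × ℝ) (B : List (ℝ × ℝ)) (d : ℝ)
    (h : d ∈ ((r₂, c₂) :: (r₁, c₁) :: ((B.map Prod.swap).reverse ++ [z.swap])).map Prod.fst) :
    d ∈ ((c₁, r₁) :: (c₂, r₂) :: z :: B).map Prod.snd := by
  simp only [List.map_cons, List.map_append, List.map_reverse, List.mem_cons, List.mem_append,
    List.mem_reverse, List.map_nil, List.not_mem_nil, or_false, List.map_map, Prod.fst_swap] at h ⊢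
  have h1 : (Prod.fst ∘ Prod.swap : ℝ × ℝ → ℝ) = Prod.snd := rfl
  rw [h1] at h
  tauto

theorem nd_swap (c₁ r₁ c₂ r₂ : ℝ) (z : ℝ × ℝ) (B : List (ℝ × ℝ))
    (h : Nd ((c₁, r₁) :: (c₂, r₂) :: z :: B)) :
    Nd ((r₂, c₂) :: (r₁, c₁) :: ((B.map Prod.swap).reverse ++ [z.swap])) := by
  have hp : ((r₂, c₂) :: (r₁, c₁) :: ((B.map Prod.swap).reverse ++ [z.swap])).Perm
      (((c₁, r₁) :: (c₂, r₂) :: z :: B).map Prod.swap) := by
    have h1 : (((c₁, r₁) :: (c₂, r₂) :: z :: B).map Prod.swap).Perm
        ((((c₁, r₁) :: (c₂, r₂) :: z :: B).map Prod.swap).reverse) :=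
      (List.reverse_perm _).symm
    rw [rev_eq] at h1
    exact (List.perm_append_comm (l₁ := [(r₂, c₂), (r₁, c₁)])
      (l₂ := (B.map Prod.swap).reverse ++ [z.swap])).trans h1.symm
  have e1 : (((c₁, r₁) :: (c₂, r₂) :: z :: B).map Prod.swap).map Prod.fst =
      ((c₁, r₁) :: (c₂, r₂) :: z :: B).map Prod.snd := by
    rw [List.map_map]; rfl
  have e2 : (((c₁, r₁) :: (c₂, r₂) :: z :: B).map Prod.swap).map Prod.snd =
      ((c₁, r₁) :: (c₂, r₂) :: z :: B).map Prod.fst := by
    rw [List.map_map]; rfl
  constructor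
  · rw [(hp.map Prod.fst).nodup_iff, e1]
    exact h.2
  · rw [(hp.map Prod.snd).nodup_iff, e2]
    exact h.1

end LSC

/-- LSC: the move `Mv.scol`. -/
theorem t_LSC : Stmt_LSC := by
  intro hLSR hSR hREL hTRN hLTRN hLROT c₁ r₁ c₂ r₂ z B h ha
  have h1 : VL ((c₁, r₁) :: (c₂, r₂) :: z :: B) ↔
      VL ((r₂, c₂) :: (r₁, c₁) :: ((B.map Prod.swap).reverse ++ [z.swap])) := by
    rw [hLTRN hTRN hREL, LSC.rev_eq]
    exact hLROT hREL _ _
  have h2 : VL ((c₁, r₁) :: z :: B) ↔
      VL ((r₁, c₁) :: ((B.map Prod.swap).reverse ++ [z.swap])) := by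
    rw [hLTRN hTRN hREL, LSC.rev_eq']
    exact hLROT hREL _ _
  have h3 := hLSR hSR hREL r₂ c₂ r₁ c₁ (B.map Prod.swap).reverse z.swap
    (LSC.nd_swap c₁ r₁ c₂ r₂ z B h) (by
      rcases ha with ⟨ha, hb⟩ | ⟨ha, hb⟩
      · exact Or.inr ⟨fun d hd => ha d (LSC.mem_fst c₁ r₁ c₂ r₂ z B d hd), hb⟩
      · exact Or.inl ⟨fun d hd => ha d (LSC.mem_fst c₁ r₁ c₂ r₂ z B d hd), hb⟩)
  exact h1.trans (h3.trans h2.symm)

end LG


end

section

/-!
# CMP: components of a polygon
-/

namespace LH

open Set LG

namespace CMP

variable {N : ℕ}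

theorem mono_mul (x : ℤ) (hN : 0 < N) : |x| ≤ |x| * (N : ℤ) := by
  have h1 : (1 : ℤ) ≤ (N : ℤ) := by exact_mod_cast hN
  have h2 := abs_nonneg x
  nlinarith

theorem ex (B : P_PGB) (P : Pg N) (a b : ℝ) (hN : 0 < N) (G : Good P a b) (e : ℤ)
    (he : Mts P a b e) : ∃ p q, Comp P a b p q ∧ p ≤ e ∧ e ≤ q := by
  obtain ⟨i0, hi0⟩ := G.out
  have hper : ∀ k : ℤ, P.x (i0 + k * N) = P.x i0 := fun k => (B.sh P i0 k).1
  have hout : ∀ k : ℤ, P.x (i0 + k * N) < a ∨ b < P.x (i0 + k * N) := by
    intro k
    rw [hper k]
    exact hi0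
  obtain ⟨p, ⟨hpe, hpo⟩, hpm⟩ := Int.exists_greatest_of_bdd
    (P := fun z => z ≤ e ∧ (P.x z < a ∨ b < P.x z)) ⟨e, fun z hz => hz.1⟩
    ⟨i0 + (-|i0 - e|) * N, by
      constructor
      · have h1 := mono_mul (N := N) (i0 - e) hN
        have h2 := le_abs_self (i0 - e)
        linarith
      · exact hout _⟩
  obtain ⟨r, ⟨hre, hro⟩, hrm⟩ := Int.exists_least_of_bdd
    (P := fun z => e < z ∧ (P.x z < a ∨ b < P.x z)) ⟨e, fun z hz => hz.1.le⟩
    ⟨i0 + (|e - i0| + 1) * N, by
      constructor
      · have h1 := mono_mul (N := N) (e - i0) hN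
        have h2 := le_abs_self (e - i0)
        have h3 : (1 : ℤ) ≤ (N : ℤ) := by exact_mod_cast hN
        linarith
      · exact hout _⟩
  refine ⟨p, r - 1, ⟨by omega, ?_, hpo, ?_, ?_⟩, hpe, by omega⟩
  · intro i h1 h2
    have hno : ¬ (P.x i < a ∨ b < P.x i) := by
      intro h
      rcases le_or_gt i e with h3 | h3
      · have := hpm i ⟨h3, h⟩
        omega
      · have := hrm i ⟨h3, h⟩
        omega
    rw [not_or, not_lt, not_lt] at hno
    exact ⟨lt_of_le_of_ne hno.1 (G.av i).1.symm, lt_of_le_of_ne hno.2 (G.av i).2⟩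
  · have : r - 1 + 1 = r := by ring
    rw [this]
    exact hro
  · intro hpq
    have h1 : p = e := by omega
    have h2 : r = e + 1 := by omega
    have h3 : r - 1 + 1 = e + 1 := by omega
    rw [h3]
    rw [h2] at hro
    subst h1
    rcases hpo with h | h
    · rcases hro with h' | h'
      · exact absurd ⟨h, h'⟩ he.1
      · exact Or.inl ⟨h, h'⟩
    · rcases hro with h' | h'
      · exact Or.inr ⟨h', h⟩
      · exact absurd ⟨h, h'⟩ he.2

theorem nin {P : Pg N} {a b : ℝ} {p q i : ℤ} (C : Comp P a b p q) (h1 : p < i) (h2 : i ≤ q)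
    (h : P.x i < a ∨ b < P.x i) : False := by
  have := C.ins i h1 h2
  rcases h with h | h
  · exact lt_asymm h this.1
  · exact lt_asymm h this.2

theorem un (P : Pg N) (a b : ℝ) (p q p' q' e : ℤ) (C : Comp P a b p q) (C' : Comp P a b p' q')
    (h1 : p ≤ e) (h2 : e ≤ q) (h3 : p' ≤ e) (h4 : e ≤ q') : p = p' ∧ q = q' := by
  constructor
  · rcases lt_trichotomy p p' with h | h | h
    · exact (nin C h (h3.trans h2) C'.fst).elim
    · exact h
    · exact (nin C' h (h1.trans h4) C.fst).elim
  · rcases lt_trichotomy q q' with h | h | h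
    · exact (nin C' (i := q + 1) (by omega) (by omega) C.lst).elim
    · exact h
    · exact (nin C (i := q' + 1) (by omega) (by omega) C'.lst).elim

theorem xN (P : Pg N) (p : ℤ) : P.x (p + N) = P.x p := P.px p

theorem ln (P : Pg N) (a b : ℝ) (p q : ℤ) (hN : 0 < N) (C : Comp P a b p q) : q < p + N := by
  by_contra h
  have hN' : (0 : ℤ) < (N : ℤ) := by exact_mod_cast hN
  refine nin C (i := p + N) (by omega) (by omega) ?_
  rw [P.px p]
  exact C.fst

theorem sh (B : P_PGB) (P : Pg N) (a b : ℝ) (p q k : ℤ) (C : Comp P a b p q) :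
    Comp P a b (p + k * N) (q + k * N) := by
  have hx : ∀ i : ℤ, P.x (i + k * N) = P.x i := fun i => (B.sh P i k).1
  refine ⟨by have := C.le; omega, ?_, ?_, ?_, ?_⟩
  · intro i h1 h2
    have h3 := C.ins (i - k * N) (by omega) (by omega)
    have h4 := hx (i - k * N)
    rw [sub_add_cancel] at h4
    rw [h4]
    exact h3
  · rw [hx]
    exact C.fst
  · have : q + k * N + 1 = (q + 1) + k * N := by ring
    rw [this, hx]
    exact C.lst
  · intro h
    have : q + k * N + 1 = (q + 1) + k * N := by ring
    rw [this, hx, hx]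
    exact C.one (by omega)

theorem tr (B : P_PGB) (P : Pg N) (p q p' q' m : ℤ) (t : ℝ)
    (h : Sep P p q (p' + m * N) (q' + m * N) t) : Sep P p q p' q' t := by
  have hl : ∀ j : ℤ, P.l (j + m * N) t = P.l j t := fun j => (B.sh P j m).2.2.2 t
  rcases h with h | h
  · left
    intro i hi j hj
    have := h i hi (j + m * N) ⟨by have := hj.1; omega, by have := hj.2; omega⟩
    rw [hl] at this
    exact this
  · right
    intro i hi j hj
    have := h i hi (j + m * N) ⟨by have := hj.1; omega, by have := hj.2; omega⟩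
    rw [hl] at this
    exact this

theorem sep (B : P_PGB) (P : Pg N) (a b : ℝ) (p q p' q' : ℤ) (hN : 0 < N) (G : Good P a b)
    (C : Comp P a b p q) (C' : Comp P a b p' q') :
    (∃ k : ℤ, p' = p + k * N ∧ q' = q + k * N) ∨ Sep P p q p' q' a ∧ Sep P p q p' q' b := by
  have hN' : (0 : ℤ) < (N : ℤ) := by exact_mod_cast hN
  set m : ℤ := (p' - p) / N with hm
  have hr0 : 0 ≤ (p' - p) % N := Int.emod_nonneg _ hN'.ne'
  have hrN : (p' - p) % N < N := Int.emod_lt_of_pos _ hN'
  have hdm : (p' - p) % N + N * m = p' - p := by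
    rw [hm]
    exact Int.emod_add_mul_ediv (p' - p) N
  have C2 : Comp P a b (p' + (-m) * N) (q' + (-m) * N) := sh B P a b p' q' (-m) C'
  have hp2 : p' + (-m) * N = p + (p' - p) % N := by
    have : (-m) * (N : ℤ) = -(N * m) := by ring
    rw [this]
    omega
  rcases hr0.eq_or_lt with h0 | h0
  · left
    have h1 : p' + (-m) * N = p := by rw [hp2, ← h0]; ring
    rw [h1] at C2
    have h2 := (un P a b p q p _ p C C2 le_rfl C.le le_rfl C2.le).2
    refine ⟨m, ?_, ?_⟩
    · have : (-m) * (N : ℤ) = -(m * N) := by ring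
      rw [this] at h1
      omega
    · have : (-m) * (N : ℤ) = -(m * N) := by ring
      rw [this] at h2
      omega
  · right
    have h1 : q < p' + (-m) * N := by
      by_contra hc
      exact nin C (i := p' + (-m) * N) (by omega) (by omega) C2.fst
    have h2 : q' + (-m) * N < p + N := by
      by_contra hc
      refine nin C2 (i := p + N) (by omega) (by omega) ?_
      rw [P.px p]
      exact C.fst
    obtain ⟨h3, h4⟩ := G.sep p q _ _ C C2 h1 h2
    exact ⟨tr B P p q p' q' (-m) a h3, tr B P p q p' q' (-m) b h4⟩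

theorem mt (P : Pg N) (a b : ℝ) (p q e : ℤ) (G : Good P a b) (C : Comp P a b p q)
    (h1 : p ≤ e) (h2 : e ≤ q) : Mts P a b e := by
  rcases h1.eq_or_lt with h3 | h3
  · rcases h2.eq_or_lt with h4 | h4
    · subst h3
      have h5 := C.one h4
      rw [← h4] at h5
      have hab := G.lt
      constructor
      · rintro ⟨h6, h7⟩
        rcases h5 with h | h
        · linarith [h.2]
        · linarith [h.2]
      · rintro ⟨h6, h7⟩
        rcases h5 with h | h
        · linarith [h.1]
        · linarith [h.1]
    · have h5 := C.ins (e + 1) (by omega) (by omega)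
      exact ⟨fun h => lt_asymm h.2 h5.1, fun h => lt_asymm h.2 h5.2⟩
  · have h5 := C.ins e h3 h2
    exact ⟨fun h => lt_asymm h.1 h5.1, fun h => lt_asymm h.1 h5.2⟩

end CMP

/-- CMP -/
theorem t_CMP : Stmt_CMP := by
  intro B
  exact
    { ex := fun P a b hN G e he => CMP.ex B P a b hN G e he
      un := fun P a b p q p' q' e C C' h1 h2 h3 h4 => CMP.un P a b p q p' q' e C C' h1 h2 h3 h4
      ln := fun P a b p q hN _ C => CMP.ln P a b p q hN C
      sh := fun P a b p q k C => CMP.sh B P a b p q k C
      sep := fun P a b p q p' q' hN G C C' => CMP.sep B P a b p q p' q' hN G C C'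
      mt := fun P a b p q e G C h1 h2 => CMP.mt P a b p q e G C h1 h2 }

end LH


end

section

/-!
# UNI: two walks without zigzags with the same lines are equivalent
-/

namespace LH

open Set LG

namespace UNI

/-! ### cyclic lists -/

theorem cp_map {α β : Type*} (f : α → β) (w : List α) :
    cp (w.map f) = (cp w).map (Prod.map f f) := by
  unfold cp
  rw [← List.map_rotate, List.zip_map]

/-- The kind is a turn. -/
def Tn (k : Kd) : Prop := k = .R ∨ k = .L

section Sq

variable {N : ℕ} {P : Pg N} {X : Finset ℝ} {w w' : List It} {W W' : ℤ → It}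

theorem nozz (hS : P_SEQ) (hg : GW P X w) (hq : Sq P X w W) (n : ℤ) :
    ¬ (Tn (W n).k ∧ Tn (W (n + 1)).k) := by
  intro h
  have h1 : (pt P (W n), pt P (W (n + 1))) ∈ cp (w.map (pt P)) :=
    (hS.cp P X w W hq _).2 ⟨n, rfl⟩
  rw [cp_map, List.mem_map] at h1
  obtain ⟨x, hx, hx'⟩ := h1
  have h2 : pt P x.1 = pt P (W n) := congrArg Prod.fst hx'
  have h3 : pt P x.2 = pt P (W (n + 1)) := congrArg Prod.snd hx'
  have h4 : x.1.k = (W n).k := congrArg Pt.k h2
  have h5 : x.2.k = (W (n + 1)).k := congrArg Pt.k h3
  refine hg.2 x hx ?_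
  rw [h4, h5]
  exact h

theorem adj_left {a a' b : ℝ} (h : AdjX X a b) (h' : AdjX X a' b) : a = a' := by
  rcases lt_trichotomy a a' with h1 | h1 | h1
  · exact absurd ⟨h1, h'.2.2.1⟩ (h.2.2.2 a' h'.1)
  · exact h1
  · exact absurd ⟨h1, h.2.2.1⟩ (h'.2.2.2 a h.1)

theorem adj_right {a b b' : ℝ} (h : AdjX X a b) (h' : AdjX X a b') : b = b' := by
  rcases lt_trichotomy b b' with h1 | h1 | h1
  · exact absurd ⟨h.2.2.1, h1⟩ (h'.2.2.2 b h.2.1)
  · exact h1
  · exact absurd ⟨h'.2.2.1, h1⟩ (h.2.2.2 b' h'.2.1)

/-- A step to the right. -/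
theorem stepR {i j : It} (h : Lnk P X i j) (hk : i.k.fw ∨ j.k.ar) :
    i.k.fw ∧ j.k.ar ∧ AdjX X i.t j.t ∧
      ∀ m, i.e < m → m ≤ j.e → i.t < P.x m ∧ P.x m < j.t := by
  have h1 : i.k.fw ∧ j.k.ar ∧ i.t < j.t := by
    rcases h.dir with h1 | h1
    · exact h1
    · rcases hk with hk | hk
      · exact absurd hk h1.1
      · exact absurd hk h1.2.1
  refine ⟨h1.1, h1.2.1, ?_, ?_⟩
  · rcases h.adj with h2 | h2
    · exact h2
    · exact absurd h2.2.2.1 (not_lt.2 h1.2.2.le)
  · intro m h2 h3
    rcases h.ins m h2 h3 with h4 | h4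
    · exact h4
    · exact absurd (h4.1.trans h4.2) (not_lt.2 h1.2.2.le)

/-- A step to the left. -/
theorem stepL {i j : It} (h : Lnk P X i j) (hk : ¬ i.k.fw ∨ ¬ j.k.ar) :
    ¬ i.k.fw ∧ ¬ j.k.ar ∧ AdjX X j.t i.t ∧
      ∀ m, i.e < m → m ≤ j.e → j.t < P.x m ∧ P.x m < i.t := by
  have h1 : ¬ i.k.fw ∧ ¬ j.k.ar ∧ j.t < i.t := by
    rcases h.dir with h1 | h1
    · rcases hk with hk | hk
      · exact absurd h1.1 hk
      · exact absurd h1.2.1 hk
    · exact h1
  refine ⟨h1.1, h1.2.1, ?_, ?_⟩
  · rcases h.adj with h2 | h2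
    · exact absurd h2.2.2.1 (not_lt.2 h1.2.2.le)
    · exact h2
  · intro m h2 h3
    rcases h.ins m h2 h3 with h4 | h4
    · exact absurd (h4.1.trans h4.2) (not_lt.2 h1.2.2.le)
    · exact h4

theorem lk' (hq : Sq P X w W) (n : ℤ) : Lnk P X (W (n - 1)) (W n) := by
  have h := hq.lnk (n - 1)
  rwa [sub_add_cancel] at h

/-- Near a right turn. -/
theorem turnR (hq : Sq P X w W) (hz : ∀ n, ¬ (Tn (W n).k ∧ Tn (W (n + 1)).k)) {a b : ℝ}
    (hab : AdjX X a b) (n : ℤ) (hk : (W n).k = .R) (ht : (W n).t = b) :
    (W (n - 1)).k = .rt ∧ (W (n - 1)).t = a ∧ (W (n + 1)).k = .lt ∧ (W (n + 1)).t = a ∧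
      (W (n - 1)).e ≤ (W n).e ∧ (W n).e < (W (n + 1)).e ∧
      ∀ m, (W (n - 1)).e < m → m ≤ (W (n + 1)).e → a < P.x m ∧ P.x m < b := by
  have h1 := lk' hq n
  have h2 := hq.lnk n
  obtain ⟨f1, -, j1, i1⟩ := stepR h1 (Or.inr (by simp [hk, Kd.ar]))
  obtain ⟨-, f2, j2, i2⟩ := stepL h2 (Or.inl (by simp [hk, Kd.fw]))
  have z1 := hz (n - 1)
  rw [sub_add_cancel] at z1
  have z2 := hz n
  have k1 : (W (n - 1)).k = .rt := by
    cases hc : (W (n - 1)).k
    · rfl
    · simp [hc, Kd.fw] at f1
    · simp [hc, Kd.fw] at f1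
    · exact absurd ⟨Or.inr hc, Or.inl hk⟩ z1
  have k2 : (W (n + 1)).k = .lt := by
    cases hc : (W (n + 1)).k
    · simp [hc, Kd.ar] at f2
    · rfl
    · simp [hc, Kd.ar] at f2
    · exact absurd ⟨Or.inl hk, Or.inr hc⟩ z2
  rw [ht] at j1 j2 i1 i2
  have t1 : (W (n - 1)).t = a := adj_left j1 hab
  have t2 : (W (n + 1)).t = a := adj_left j2 hab
  have e2 := h2.tl (Or.inl hk)
  refine ⟨k1, t1, k2, t2, h1.le, e2, ?_⟩
  intro m hm hm'
  rw [t1] at i1
  rw [t2] at i2
  rcases le_or_gt m (W n).e with h | h
  · exact i1 m hm h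
  · exact i2 m h hm'

/-- Near a left turn. -/
theorem turnL (hq : Sq P X w W) (hz : ∀ n, ¬ (Tn (W n).k ∧ Tn (W (n + 1)).k)) {a b : ℝ}
    (hab : AdjX X a b) (n : ℤ) (hk : (W n).k = .L) (ht : (W n).t = a) :
    (W (n - 1)).k = .lt ∧ (W (n - 1)).t = b ∧ (W (n + 1)).k = .rt ∧ (W (n + 1)).t = b ∧
      (W (n - 1)).e ≤ (W n).e ∧ (W n).e < (W (n + 1)).e ∧
      ∀ m, (W (n - 1)).e < m → m ≤ (W (n + 1)).e → a < P.x m ∧ P.x m < b := by
  have h1 := lk' hq n
  have h2 := hq.lnk n
  obtain ⟨f1, -, j1, i1⟩ := stepL h1 (Or.inr (by simp [hk, Kd.ar]))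
  obtain ⟨-, f2, j2, i2⟩ := stepR h2 (Or.inl (by simp [hk, Kd.fw]))
  have z1 := hz (n - 1)
  rw [sub_add_cancel] at z1
  have z2 := hz n
  have k1 : (W (n - 1)).k = .lt := by
    cases hc : (W (n - 1)).k
    · simp [hc, Kd.fw] at f1
    · rfl
    · exact absurd ⟨Or.inl hc, Or.inr hk⟩ z1
    · simp [hc, Kd.fw] at f1
  have k2 : (W (n + 1)).k = .rt := by
    cases hc : (W (n + 1)).k
    · rfl
    · simp [hc, Kd.ar] at f2
    · exact absurd ⟨Or.inr hk, Or.inl hc⟩ z2
    · simp [hc, Kd.ar] at f2
  rw [ht] at j1 j2 i1 i2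
  have t1 : (W (n - 1)).t = b := adj_right j1 hab
  have t2 : (W (n + 1)).t = b := adj_right j2 hab
  have e2 := h2.tl (Or.inr hk)
  refine ⟨k1, t1, k2, t2, h1.le, e2, ?_⟩
  intro m hm hm'
  rw [t1] at i1
  rw [t2] at i2
  rcases le_or_gt m (W n).e with h | h
  · exact i1 m hm h
  · exact i2 m h hm'

/-- Extension of a component to the right. -/
theorem ext_r {a b : ℝ} {p q e e' : ℤ} (hc : Comp P a b p q) (hq : e ≤ q)
    (h : ∀ m, e < m → m ≤ e' → a < P.x m ∧ P.x m < b) : e' ≤ q := by
  by_contra hlt
  push Not at hlt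
  have h1 := h (q + 1) (by omega) (by omega)
  rcases hc.lst with h2 | h2
  · exact absurd h1.1 (not_lt.2 h2.le)
  · exact absurd h1.2 (not_lt.2 h2.le)

/-- Extension of a component to the left. -/
theorem ext_l {a b : ℝ} {p q e e' : ℤ} (hc : Comp P a b p q) (hp : p ≤ e)
    (h : ∀ m, e' < m → m ≤ e → a < P.x m ∧ P.x m < b) : p ≤ e' := by
  by_contra hlt
  push Not at hlt
  have h1 := h p (by omega) hp
  rcases hc.fst with h2 | h2
  · exact absurd h1.1 (not_lt.2 h2.le)
  · exact absurd h1.2 (not_lt.2 h2.le)

theorem mono_t {f : ℤ → ℝ} {n n' : ℤ} (h : ∀ m, n ≤ m → m < n' → f m < f (m + 1))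
    (hn : n < n') : f n < f n' := by
  have key : ∀ k : ℕ, n + k + 1 ≤ n' → f n < f (n + k + 1) := by
    intro k
    induction k with
    | zero =>
      intro hk
      simpa using h n le_rfl hn
    | succ k ih =>
      intro hk
      push_cast at hk ⊢
      have h1 := ih (by omega)
      have h2 := h (n + k + 1) (by omega) (by omega)
      have h3 : n + ((k : ℤ) + 1) + 1 = n + k + 1 + 1 := by ring
      rw [h3]
      exact h1.trans h2
  have h1 := key (n' - n - 1).toNat (by omega)
  have h2 : n + ((n' - n - 1).toNat : ℤ) + 1 = n' := by omega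
  rwa [h2] at h1

/-- An item on the line `s` of the cell `(a, b)`, which is joined to the other line. -/
def At (a b s : ℝ) (i : It) : Prop :=
  i.t = s ∧ (s = b ∧ i.k ≠ .L ∨ s = a ∧ i.k ≠ .R)

/-- Translation by periods. -/
theorem shift (hq : Sq P X w W) (n k : ℤ) :
    (W (n + k * w.length)).k = (W n).k ∧ (W (n + k * w.length)).t = (W n).t ∧
      (W (n + k * w.length)).e = (W n).e + k * N := by
  have up : ∀ n, (W (n + w.length)).k = (W n).k ∧ (W (n + w.length)).t = (W n).t ∧
      (W (n + w.length)).e = (W n).e + N := by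
    intro n
    rw [hq.per n]
    exact ⟨rfl, rfl, rfl⟩
  induction k using Int.induction_on with
  | zero => simp
  | succ i ih =>
    have h1 := up (n + i * w.length)
    have h2 : n + ((i : ℤ) + 1) * w.length = n + i * w.length + w.length := by ring
    rw [h2]
    refine ⟨h1.1.trans ih.1, h1.2.1.trans ih.2.1, ?_⟩
    rw [h1.2.2, ih.2.2]
    ring
  | pred i ih =>
    have h1 := up (n + (-(i : ℤ) - 1) * w.length)
    have h2 : n + (-(i : ℤ) - 1) * w.length + w.length = n + -(i : ℤ) * w.length := by ring
    rw [h2] at h1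
    refine ⟨h1.1.symm.trans ih.1, h1.2.1.symm.trans ih.2.1, ?_⟩
    have h3 := h1.2.2.symm.trans ih.2.2
    have h4 : (W (n + (-(i : ℤ) - 1) * w.length)).e = (W n).e + -(i : ℤ) * N - N := by
      rw [← h3]; ring
    rw [h4]
    ring

/-- No other item of the line has an edge between those of the neighbours of a turn. -/
theorem uniq (hS : P_SEQ) (hq : Sq P X w W) {a b s s' : ℝ} (hsa : a ≤ s ∧ s ≤ b) {kl kr : Kd}
    (hkk : kl = .rt ∧ kr = .lt ∧ s' = a ∨ kl = .lt ∧ kr = .rt ∧ s' = b) (hne : s' ≠ s) (n : ℤ)
    (k1 : (W (n - 1)).k = kl) (t1 : (W (n - 1)).t = s') (k2 : (W (n + 1)).k = kr)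
    (t2 : (W (n + 1)).t = s') (n' : ℤ) (ht : (W n').t = s) (h1 : (W (n - 1)).e ≤ (W n').e)
    (h2 : (W n').e ≤ (W (n + 1)).e) : n' = n := by
  by_contra hnn
  rcases lt_or_gt_of_ne hnn with h | h
  · have hne1 : n' ≠ n - 1 := by
      rintro rfl
      exact hne (t1.symm.trans ht)
    have hlt : n' < n - 1 := by omega
    have he := le_antisymm (hS.mo P X w W hq n' (n - 1) hlt.le) h1
    have hl := lk' hq (n - 1)
    rcases hS.eq P X w W hq n' (n - 1) hlt he with h3 | h3
    · have h4 : (W n').t < (W (n - 1)).t :=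
        mono_t (f := fun m => (W m).t) (fun m hm hm' => (h3 m hm hm').2) hlt
      rw [ht, t1] at h4
      rcases hkk with ⟨-, -, h5⟩ | ⟨h5, -, -⟩
      · rw [h5] at h4
        exact absurd h4 (not_lt.2 hsa.1)
      · have h6 := (h3 (n - 1 - 1) (by omega) (by omega)).1
        have h7 := (stepR hl (Or.inl (by simp [h6, Kd.fw]))).2.1
        rw [k1, h5] at h7
        simp [Kd.ar] at h7
    · have h4 : -(W n').t < -(W (n - 1)).t :=
        mono_t (f := fun m => -(W m).t) (fun m hm hm' => neg_lt_neg (h3 m hm hm').2) hlt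
      rw [ht, t1] at h4
      rcases hkk with ⟨h5, -, -⟩ | ⟨-, -, h5⟩
      · have h6 := (h3 (n - 1 - 1) (by omega) (by omega)).1
        have h7 := (stepL hl (Or.inl (by simp [h6, Kd.fw]))).2.1
        rw [k1, h5] at h7
        simp [Kd.ar] at h7
      · rw [h5] at h4
        exact absurd (neg_lt_neg_iff.1 h4) (not_lt.2 hsa.2)
  · have hne1 : n' ≠ n + 1 := by
      rintro rfl
      exact hne (t2.symm.trans ht)
    have hlt : n + 1 < n' := by omega
    have he := le_antisymm (hS.mo P X w W hq (n + 1) n' hlt.le) h2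
    rcases hS.eq P X w W hq (n + 1) n' hlt he with h3 | h3
    · have h4 : (W (n + 1)).t < (W n').t :=
        mono_t (f := fun m => (W m).t) (fun m hm hm' => (h3 m hm hm').2) hlt
      rw [ht, t2] at h4
      have h6 := (h3 (n + 1) le_rfl hlt).1
      rcases hkk with ⟨-, h5, -⟩ | ⟨-, -, h5⟩
      · rw [k2, h5] at h6
        exact absurd h6 (by decide)
      · rw [h5] at h4
        exact absurd h4 (not_lt.2 hsa.2)
    · have h4 : -(W (n + 1)).t < -(W n').t :=
        mono_t (f := fun m => -(W m).t) (fun m hm hm' => neg_lt_neg (h3 m hm hm').2) hlt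
      rw [ht, t2] at h4
      have h6 := (h3 (n + 1) le_rfl hlt).1
      rcases hkk with ⟨-, -, h5⟩ | ⟨-, h5, -⟩
      · rw [h5] at h4
        exact absurd (neg_lt_neg_iff.1 h4) (not_lt.2 hsa.1)
      · rw [k2, h5] at h6
        exact absurd h6 (by decide)

/-- The component of an item: the edge and, for a turn, the edges of the neighbours. -/
theorem comp_ex (hS : P_SEQ) (hC : P_CMP) (hN : 0 < N) (hq : Sq P X w W)
    (hz : ∀ n, ¬ (Tn (W n).k ∧ Tn (W (n + 1)).k)) {a b s : ℝ} (hG : Good P a b)
    (hab : AdjX X a b) (n : ℤ) (hA : At a b s (W n)) :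
    ∃ p q, Comp P a b p q ∧ p ≤ (W n).e ∧ (W n).e ≤ q ∧
      (Tn (W n).k → ¬ Tn (W (n - 1)).k ∧ ¬ Tn (W (n + 1)).k ∧ p = (W (n - 1)).e ∧
        q = (W (n + 1)).e ∧ ∀ n', (W n').t = s → p ≤ (W n').e → (W n').e ≤ q → n' = n) := by
  obtain ⟨ht, hA⟩ := hA
  have hlt : a < b := hab.2.2.1
  have hsa : a ≤ s ∧ s ≤ b := by
    rcases hA with ⟨h, -⟩ | ⟨h, -⟩
    · rw [h]; exact ⟨hlt.le, le_rfl⟩
    · rw [h]; exact ⟨le_rfl, hlt.le⟩
  have hok := hq.ok n
  -- passing items
  have pass : (P.x (W n).e < s ∧ s < P.x ((W n).e + 1) ∨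
      P.x ((W n).e + 1) < s ∧ s < P.x (W n).e) → ¬ Tn (W n).k →
      ∃ p q, Comp P a b p q ∧ p ≤ (W n).e ∧ (W n).e ≤ q ∧
      (Tn (W n).k → ¬ Tn (W (n - 1)).k ∧ ¬ Tn (W (n + 1)).k ∧ p = (W (n - 1)).e ∧
        q = (W (n + 1)).e ∧ ∀ n', (W n').t = s → p ≤ (W n').e → (W n').e ≤ q → n' = n) := by
    intro he hT
    have hM : Mts P a b (W n).e := by
      constructor
      · rintro ⟨h1, h2⟩
        rcases he with ⟨-, h3⟩ | ⟨-, h3⟩
        · exact absurd (h2.trans_le hsa.1) (not_lt.2 h3.le)
        · exact absurd (h1.trans_le hsa.1) (not_lt.2 h3.le)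
      · rintro ⟨h1, h2⟩
        rcases he with ⟨h3, -⟩ | ⟨h3, -⟩
        · exact absurd (hsa.2.trans_lt h1) (not_lt.2 h3.le)
        · exact absurd (hsa.2.trans_lt h2) (not_lt.2 h3.le)
    obtain ⟨p, q, hc, hp, hq'⟩ := hC.ex P a b hN hG _ hM
    exact ⟨p, q, hc, hp, hq', fun h => absurd h hT⟩
  -- turns
  have turn : ∀ kl kr : Kd, ∀ s' : ℝ,
      (kl = .rt ∧ kr = .lt ∧ s' = a ∨ kl = .lt ∧ kr = .rt ∧ s' = b) → s' ≠ s →
      (W (n - 1)).k = kl ∧ (W (n - 1)).t = s' ∧ (W (n + 1)).k = kr ∧ (W (n + 1)).t = s' ∧
      (W (n - 1)).e ≤ (W n).e ∧ (W n).e < (W (n + 1)).e ∧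
      (∀ m, (W (n - 1)).e < m → m ≤ (W (n + 1)).e → a < P.x m ∧ P.x m < b) →
      ∃ p q, Comp P a b p q ∧ p ≤ (W n).e ∧ (W n).e ≤ q ∧
      (Tn (W n).k → ¬ Tn (W (n - 1)).k ∧ ¬ Tn (W (n + 1)).k ∧ p = (W (n - 1)).e ∧
        q = (W (n + 1)).e ∧ ∀ n', (W n').t = s → p ≤ (W n').e → (W n').e ≤ q → n' = n) := by
    intro kl kr s' hkk hne ⟨k1, t1, k2, t2, e1, e2, hin⟩
    have hM : Mts P a b (W n).e := by
      have h1 := hin ((W n).e + 1) (by omega) (by omega)
      constructor
      · rintro ⟨-, h3⟩
        exact absurd h1.1 (not_lt.2 h3.le)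
      · rintro ⟨-, h3⟩
        exact absurd h1.2 (not_lt.2 h3.le)
    obtain ⟨p, q, hc, hp, hq'⟩ := hC.ex P a b hN hG _ hM
    have hp1 : p ≤ (W (n - 1)).e := ext_l hc hp fun m h1 h2 => hin m h1 (by omega)
    have hq1 : (W (n + 1)).e ≤ q := ext_r hc hq' fun m h1 h2 => hin m (by omega) h2
    have hok1 := hq.ok (n - 1)
    have hok2 := hq.ok (n + 1)
    have hpe : p = (W (n - 1)).e := by
      by_contra hpne
      have h1 := hc.ins (W (n - 1)).e (by omega) (by omega)
      rcases hkk with ⟨h3, -, h2⟩ | ⟨h3, -, h2⟩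
      · have h4 := (hok1.1 (k1.trans h3)).1
        rw [t1, h2] at h4
        exact absurd h1.1 (not_lt.2 h4.le)
      · have h4 := (hok1.2 (k1.trans h3)).2
        rw [t1, h2] at h4
        exact absurd h1.2 (not_lt.2 h4.le)
    have hqe : q = (W (n + 1)).e := by
      by_contra hqne
      have h1 := hc.ins ((W (n + 1)).e + 1) (by omega) (by omega)
      rcases hkk with ⟨-, h3, h2⟩ | ⟨-, h3, h2⟩
      · have h4 := (hok2.2 (k2.trans h3)).1
        rw [t2, h2] at h4
        exact absurd h1.1 (not_lt.2 h4.le)
      · have h4 := (hok2.1 (k2.trans h3)).2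
        rw [t2, h2] at h4
        exact absurd h1.2 (not_lt.2 h4.le)
    refine ⟨p, q, hc, hp, hq', fun _ => ⟨?_, ?_, hpe, hqe, ?_⟩⟩
    · rintro (h | h)
      · rw [k1] at h; rcases hkk with hh | hh <;> rw [hh.1] at h <;> exact absurd h (by decide)
      · rw [k1] at h; rcases hkk with hh | hh <;> rw [hh.1] at h <;> exact absurd h (by decide)
    · rintro (h | h)
      · rw [k2] at h; rcases hkk with hh | hh <;> rw [hh.2.1] at h <;> exact absurd h (by decide)
      · rw [k2] at h; rcases hkk with hh | hh <;> rw [hh.2.1] at h <;> exact absurd h (by decide)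
    · intro n' hn' h1 h2
      rw [hpe] at h1
      rw [hqe] at h2
      exact uniq hS hq hsa hkk hne n k1 t1 k2 t2 n' hn' h1 h2
  cases hk : (W n).k with
  | rt =>
    have h1 := hok.1 hk
    rw [ht] at h1
    rw [hk] at pass
    exact pass (Or.inl h1) (by unfold Tn; decide)
  | lt =>
    have h1 := hok.2 hk
    rw [ht] at h1
    rw [hk] at pass
    exact pass (Or.inr h1) (by unfold Tn; decide)
  | R =>
    have hsb : s = b := by
      rcases hA with ⟨h, -⟩ | ⟨-, h⟩
      · exact h
      · exact absurd hk h
    rw [hk] at turn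
    refine turn .rt .lt a (Or.inl ⟨rfl, rfl, rfl⟩) (by rw [hsb]; exact hlt.ne)
      (turnR hq hz hab n hk (ht.trans hsb))
  | L =>
    have hsb : s = a := by
      rcases hA with ⟨-, h⟩ | ⟨h, -⟩
      · exact absurd hk h
      · exact h
    rw [hk] at turn
    refine turn .lt .rt b (Or.inr ⟨rfl, rfl, rfl⟩) (by rw [hsb]; exact hlt.ne')
      (turnL hq hz hab n hk (ht.trans hsb))

theorem not_tn {k : Kd} (h : ¬ Tn k) : k = .rt ∨ k = .lt := by
  unfold Tn at h
  cases k <;> simp_all

/-- The order of the heights on a line is the same in both walks. -/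
theorem cmp_h (hB : P_PGB) (hS : P_SEQ) (hC : P_CMP) (hN : 0 < N) (hq : Sq P X w W)
    (hq' : Sq P X w' W') (hz : ∀ n, ¬ (Tn (W n).k ∧ Tn (W (n + 1)).k)) (c : ℤ)
    (hs : ∀ n, SmI (W n) (W' (n + c))) {a b s : ℝ} (hG : Good P a b) (hab : AdjX X a b)
    (n n' : ℤ) (hA : At a b s (W n)) (hA' : At a b s (W n'))
    (hlt : P.l (W n).e s < P.l (W n').e s) :
    P.l (W' (n + c)).e s < P.l (W' (n' + c)).e s := by
  -- the edges of the second walk
  have inC : ∀ n p q, p ≤ (W n).e → (W n).e ≤ q →
      (Tn (W n).k → ¬ Tn (W (n - 1)).k ∧ ¬ Tn (W (n + 1)).k ∧ p = (W (n - 1)).e ∧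
        q = (W (n + 1)).e ∧ ∀ n', (W n').t = s → p ≤ (W n').e → (W n').e ≤ q → n' = n) →
      p ≤ (W' (n + c)).e ∧ (W' (n + c)).e ≤ q := by
    intro n p q hp hq1 hT
    by_cases h : Tn (W n).k
    · obtain ⟨h1, h2, h3, h4, -⟩ := hT h
      have h5 := (hs (n - 1)).2.2 (not_tn h1)
      have h6 := (hs (n + 1)).2.2 (not_tn h2)
      rw [h3, h4, h5, h6]
      exact ⟨hS.mo P X w' W' hq' _ _ (by omega), hS.mo P X w' W' hq' _ _ (by omega)⟩
    · rw [← (hs n).2.2 (not_tn h)]
      exact ⟨hp, hq1⟩
  obtain ⟨p, q, hc, hp, hq1, hT⟩ := comp_ex hS hC hN hq hz hG hab n hA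
  obtain ⟨p', q', hc', hp', hq1', hT'⟩ := comp_ex hS hC hN hq hz hG hab n' hA'
  have hi := inC n p q hp hq1 hT
  have hi' := inC n' p' q' hp' hq1' hT'
  rcases hC.sep P a b p q p' q' hN hG hc hc' with ⟨k, hk, hk'⟩ | ⟨hsa, hsb⟩
  · by_cases h1 : Tn (W n).k
    · exfalso
      have h2 := shift hq n' (-k)
      have h3 := (hT h1).2.2.2.2 (n' + -k * w.length) (h2.2.1.trans hA'.1)
        (by rw [h2.2.2, neg_mul]; omega) (by rw [h2.2.2, neg_mul]; omega)
      rw [h3] at h2
      have h4 := (hB.sh P (W n').e (-k)).2.2.2 s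
      rw [← h2.2.2] at h4
      exact absurd hlt (not_lt.2 h4.ge)
    · by_cases h1' : Tn (W n').k
      · exfalso
        have h2 := shift hq n k
        have h3 := (hT' h1').2.2.2.2 (n + k * w.length) (h2.2.1.trans hA.1)
          (by rw [h2.2.2]; omega) (by rw [h2.2.2]; omega)
        rw [h3] at h2
        have h4 := (hB.sh P (W n).e k).2.2.2 s
        rw [← h2.2.2] at h4
        exact absurd hlt (not_lt.2 h4.le)
      · rw [← (hs n).2.2 (not_tn h1), ← (hs n').2.2 (not_tn h1')]
        exact hlt
  · have hS' : Sep P p q p' q' s := by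
      rcases hA.2 with ⟨h, -⟩ | ⟨h, -⟩
      · rw [h]; exact hsb
      · rw [h]; exact hsa
    rcases hS' with h | h
    · exact h _ hi _ hi'
    · exact absurd (h _ ⟨hp, hq1⟩ _ ⟨hp', hq1'⟩) (not_lt.2 hlt.le)

theorem left_adj (hq : Sq P X w W) (n : ℤ) (hk : (W n).k ≠ .L) : ∃ a, AdjX X a (W n).t := by
  cases hc : (W n).k
  · exact ⟨_, (stepR (lk' hq n) (Or.inr (by simp [hc, Kd.ar]))).2.2.1⟩
  · exact ⟨_, (stepL (hq.lnk n) (Or.inl (by simp [hc, Kd.fw]))).2.2.1⟩
  · exact ⟨_, (stepR (lk' hq n) (Or.inr (by simp [hc, Kd.ar]))).2.2.1⟩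
  · exact absurd hc hk

theorem right_adj (hq : Sq P X w W) (n : ℤ) (hk : (W n).k ≠ .R) : ∃ b, AdjX X (W n).t b := by
  cases hc : (W n).k
  · exact ⟨_, (stepR (hq.lnk n) (Or.inl (by simp [hc, Kd.fw]))).2.2.1⟩
  · exact ⟨_, (stepL (lk' hq n) (Or.inr (by simp [hc, Kd.ar]))).2.2.1⟩
  · exact absurd hc hk
  · exact ⟨_, (stepR (hq.lnk n) (Or.inl (by simp [hc, Kd.fw]))).2.2.1⟩

theorem col_lt (hB : P_PGB) (hS : P_SEQ) (hC : P_CMP) (hN : 0 < N) (hX : GoodX P X)
    (hq : Sq P X w W) (hq' : Sq P X w' W') (hz : ∀ n, ¬ (Tn (W n).k ∧ Tn (W (n + 1)).k)) (c : ℤ)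
    (hs : ∀ n, SmI (W n) (W' (n + c))) (n n' : ℤ) (hk : (W n).k ≠ .L) (hk' : (W n').k ≠ .L)
    (hlt : (pt P (W n)).c < (pt P (W n')).c) :
    (pt P (W' (n + c))).c < (pt P (W' (n' + c))).c := by
  unfold Pt.c pt at hlt ⊢
  rw [Prod.Lex.toLex_lt_toLex] at hlt ⊢
  change (W n).t < (W n').t ∨ (W n).t = (W n').t ∧ P.l (W n).e (W n).t < P.l (W n').e (W n').t
    at hlt
  change (W' (n + c)).t < (W' (n' + c)).t ∨ (W' (n + c)).t = (W' (n' + c)).t ∧
    P.l (W' (n + c)).e (W' (n + c)).t < P.l (W' (n' + c)).e (W' (n' + c)).t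
  rw [← (hs n).2.1, ← (hs n').2.1]
  rcases hlt with h | ⟨h, h'⟩
  · exact Or.inl h
  · obtain ⟨a, ha⟩ := left_adj hq n hk
    rw [← h] at h' ⊢
    exact Or.inr ⟨rfl, cmp_h hB hS hC hN hq hq' hz c hs (hX.gd _ _ ha) ha n n'
      ⟨rfl, Or.inl ⟨rfl, hk⟩⟩ ⟨h.symm, Or.inl ⟨rfl, hk'⟩⟩ h'⟩

theorem row_lt (hB : P_PGB) (hS : P_SEQ) (hC : P_CMP) (hN : 0 < N) (hX : GoodX P X)
    (hq : Sq P X w W) (hq' : Sq P X w' W') (hz : ∀ n, ¬ (Tn (W n).k ∧ Tn (W (n + 1)).k)) (c : ℤ)
    (hs : ∀ n, SmI (W n) (W' (n + c))) (n n' : ℤ) (hk : (W n).k ≠ .R) (hk' : (W n').k ≠ .R)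
    (hlt : (pt P (W n)).r < (pt P (W n')).r) :
    (pt P (W' (n + c))).r < (pt P (W' (n' + c))).r := by
  unfold Pt.r pt at hlt ⊢
  rw [Prod.Lex.toLex_lt_toLex] at hlt ⊢
  change -(W n).t < -(W n').t ∨ -(W n).t = -(W n').t ∧
    P.l (W n).e (W n).t < P.l (W n').e (W n').t at hlt
  change -(W' (n + c)).t < -(W' (n' + c)).t ∨ -(W' (n + c)).t = -(W' (n' + c)).t ∧
    P.l (W' (n + c)).e (W' (n + c)).t < P.l (W' (n' + c)).e (W' (n' + c)).t
  rw [← (hs n).2.1, ← (hs n').2.1]
  rcases hlt with h | ⟨h, h'⟩
  · exact Or.inl h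
  · rw [neg_inj] at h
    obtain ⟨b, hb⟩ := right_adj hq n hk
    rw [← h] at h' ⊢
    exact Or.inr ⟨rfl, cmp_h hB hS hC hN hq hq' hz c hs (hX.gd _ _ hb) hb n n'
      ⟨rfl, Or.inr ⟨rfl, hk⟩⟩ ⟨h.symm, Or.inr ⟨rfl, hk'⟩⟩ h'⟩

end Sq

/-! ### assembly -/

theorem ext_map {ι α β : Type*} [Inhabited β] (S : ι → Prop) (f : ι → α) (g : ι → β)
    (h : ∀ i j, S i → S j → f i = f j → g i = g j) : ∃ φ : α → β, ∀ i, S i → φ (f i) = g i := by
  classical
  refine ⟨fun q => if h : ∃ i, S i ∧ f i = q then g h.choose else default, ?_⟩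
  intro i hi
  have h1 : ∃ j, S j ∧ f j = f i := ⟨i, hi, rfl⟩
  change (if h : ∃ j, S j ∧ f j = f i then g h.choose else default) = g i
  rw [dif_pos h1]
  exact h _ _ h1.choose_spec.1 hi h1.choose_spec.2

/-- The window of a periodic sequence. -/
def Vw (f : ℤ → Pt) (m : ℕ) (c : ℤ) : List Pt := (List.range m).map fun k : ℕ => f ((k : ℤ) + c)

theorem V_step (f : ℤ → Pt) (m : ℕ) (hf : ∀ n, f (n + (m + 1 : ℕ)) = f n) (c : ℤ) :
    ∃ T, Vw f (m + 1) c = [f c] ++ T ∧ Vw f (m + 1) (c + 1) = T ++ [f c] := by
  refine ⟨(List.range m).map fun k : ℕ => f ((k : ℤ) + (c + 1)), ?_, ?_⟩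
  · unfold Vw
    rw [List.range_succ_eq_map, List.map_cons, List.map_map, List.singleton_append]
    congr 1
    · simp
    · refine List.map_congr_left fun k _ => ?_
      change f (((k + 1 : ℕ) : ℤ) + c) = f (k + (c + 1))
      congr 1
      push_cast
      ring
  · unfold Vw
    rw [List.range_succ, List.map_append]
    congr 1
    rw [List.map_singleton]
    congr 1
    rw [← hf c]
    congr 1
    push_cast
    ring

theorem V_rot (hA : P_CWA) (hW : P_WEB) (f : ℤ → Pt) (m : ℕ)
    (hf : ∀ n, f (n + (m + 1 : ℕ)) = f n) (h0 : CW (Vw f (m + 1) 0)) (c : ℤ) :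
    CW (Vw f (m + 1) c) ∧ WE (ents (Vw f (m + 1) 0)) (ents (Vw f (m + 1) c)) := by
  induction c using Int.induction_on with
  | zero => exact ⟨h0, hW.refl _ (hA.alt _ h0) h0.nd⟩
  | succ i ih =>
    obtain ⟨T, h1, h2⟩ := V_step f m hf i
    rw [h1] at ih
    obtain ⟨h3, h4⟩ := hA.rot _ _ ih.1
    rw [h2]
    exact ⟨h3, hW.trans _ _ _ ih.2 h4⟩
  | pred i ih =>
    obtain ⟨T, h1, h2⟩ := V_step f m hf (-(i : ℤ) - 1)
    rw [sub_add_cancel] at h2
    rw [h2] at ih
    obtain ⟨h3, h4⟩ := hA.rot _ _ ih.1
    rw [h1]
    exact ⟨h3, hW.trans _ _ _ ih.2 h4⟩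

theorem map_V {N : ℕ} {P : Pg N} {X : Finset ℝ} {w : List It} {W : ℤ → It}
    (hq : Sq P X w W) : w.map (pt P) = Vw (fun n => pt P (W n)) w.length 0 := by
  refine List.ext_getElem (by simp [Vw]) ?_
  intro k h1 h2
  rw [List.length_map] at h1
  simp only [Vw, List.getElem_map, List.getElem_range, add_zero]
  rw [hq.get k h1]

theorem mem_col {x : Pt} {a : Q} (h : Sum.inl a ∈ ent x) : x.k ≠ .L ∧ a = x.c := by
  cases hk : x.k <;> simp [ent, hk] at h
  · exact ⟨by decide, h⟩
  · exact ⟨by decide, h⟩
  · exact ⟨by decide, h⟩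

theorem mem_row {x : Pt} {a : Q} (h : Sum.inr a ∈ ent x) : x.k ≠ .R ∧ a = x.r := by
  cases hk : x.k <;> simp [ent, hk] at h
  · exact ⟨by decide, h⟩
  · exact ⟨by decide, h⟩
  · exact ⟨by decide, h⟩

theorem smI_symm {i j : It} (h : SmI i j) : SmI j i :=
  ⟨h.1.symm, h.2.1.symm, fun h1 => (h.2.2 (h.1 ▸ h1)).symm⟩

end UNI

open _root_.LH.UNI in
/-- UNI: two walks without zigzags with the same lines are equivalent. -/
theorem t_UNI : Stmt_UNI := by
  intro hB hC hS hW hA hG _ hNx N P X w w' hX hw hw'
  obtain ⟨W, W', c, hq, hq', hlen, hs⟩ := hNx P X w w' hX hw hw'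
  have hN : 0 < N := hS.pos P X w hw.1
  have hz := nozz hS hw hq
  have hz' := nozz hS hw' hq'
  have hcw : CW (w.map (pt P)) := hG P X w hX hw
  have hcw' : CW (w'.map (pt P)) := hG P X w' hX hw'
  have hs' : ∀ n, SmI (W' n) (W (n + -c)) := by
    intro n
    have h1 := smI_symm (hs (n + -c))
    rwa [neg_add_cancel_right] at h1
  -- columns and rows
  have colL : ∀ n n', (W n).k ≠ .L → (W n').k ≠ .L → (pt P (W n)).c < (pt P (W n')).c →
      (pt P (W' (n + c))).c < (pt P (W' (n' + c))).c :=
    fun n n' h h' => col_lt hB hS hC hN hX hq hq' hz c hs n n' h h'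
  have colR : ∀ n n', (W n).k ≠ .L → (W n').k ≠ .L →
      (pt P (W' (n + c))).c < (pt P (W' (n' + c))).c → (pt P (W n)).c < (pt P (W n')).c := by
    intro n n' h h' hl
    have h1 := col_lt hB hS hC hN hX hq' hq hz' (-c) hs' (n + c) (n' + c)
      (by rw [← (hs n).1]; exact h) (by rw [← (hs n').1]; exact h') hl
    rwa [add_neg_cancel_right, add_neg_cancel_right] at h1
  have rowL : ∀ n n', (W n).k ≠ .R → (W n').k ≠ .R → (pt P (W n)).r < (pt P (W n')).r →
      (pt P (W' (n + c))).r < (pt P (W' (n' + c))).r :=
    fun n n' h h' => row_lt hB hS hC hN hX hq hq' hz c hs n n' h h'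
  have rowR : ∀ n n', (W n).k ≠ .R → (W n').k ≠ .R →
      (pt P (W' (n + c))).r < (pt P (W' (n' + c))).r → (pt P (W n)).r < (pt P (W n')).r := by
    intro n n' h h' hl
    have h1 := row_lt hB hS hC hN hX hq' hq hz' (-c) hs' (n + c) (n' + c)
      (by rw [← (hs n).1]; exact h) (by rw [← (hs n').1]; exact h') hl
    rwa [add_neg_cancel_right, add_neg_cancel_right] at h1
  have : Inhabited Q := ⟨toLex (0, 0)⟩
  obtain ⟨φ, hφ⟩ := ext_map (fun n : ℤ => (W n).k ≠ .L) (fun n => (pt P (W n)).c)
    (fun n => (pt P (W' (n + c))).c) (by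
      intro i j hi hj hij
      rcases lt_trichotomy (pt P (W' (i + c))).c (pt P (W' (j + c))).c with h | h | h
      · exact absurd hij (colR i j hi hj h).ne
      · exact h
      · exact absurd hij.symm (colR j i hj hi h).ne)
  obtain ⟨ψ, hψ⟩ := ext_map (fun n : ℤ => (W n).k ≠ .R) (fun n => (pt P (W n)).r)
    (fun n => (pt P (W' (n + c))).r) (by
      intro i j hi hj hij
      rcases lt_trichotomy (pt P (W' (i + c))).r (pt P (W' (j + c))).r with h | h | h
      · exact absurd hij (rowR i j hi hj h).ne
      · exact h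
      · exact absurd hij.symm (rowR j i hj hi h).ne)
  -- entries
  have entC : ∀ a, Sum.inl a ∈ ents (w.map (pt P)) → ∃ n : ℤ, (W n).k ≠ .L ∧
      a = (pt P (W n)).c := by
    intro a ha
    unfold ents at ha
    rw [List.mem_flatMap] at ha
    obtain ⟨x, hx, hx'⟩ := ha
    rw [map_V hq, Vw, List.mem_map] at hx
    obtain ⟨k, -, rfl⟩ := hx
    exact ⟨_, mem_col hx'⟩
  have entR : ∀ a, Sum.inr a ∈ ents (w.map (pt P)) → ∃ n : ℤ, (W n).k ≠ .R ∧
      a = (pt P (W n)).r := by
    intro a ha
    unfold ents at ha
    rw [List.mem_flatMap] at ha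
    obtain ⟨x, hx, hx'⟩ := ha
    rw [map_V hq, Vw, List.mem_map] at hx
    obtain ⟨k, -, rfl⟩ := hx
    exact ⟨_, mem_row hx'⟩
  have step1 := hW.iso (ents (w.map (pt P))) φ ψ (hA.alt _ hcw) hcw.nd (by
      intro a b ha hb hab
      obtain ⟨n, hn, rfl⟩ := entC a ha
      obtain ⟨n', hn', rfl⟩ := entC b hb
      rw [hφ n hn, hφ n' hn']
      exact colL n n' hn hn' hab) (by
      intro a b ha hb hab
      obtain ⟨n, hn, rfl⟩ := entR a ha
      obtain ⟨n', hn', rfl⟩ := entR b hb
      rw [hψ n hn, hψ n' hn']
      exact rowL n n' hn hn' hab)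
  -- the image
  have himg : (ents (w.map (pt P))).map (Sum.map φ ψ) =
      ents (Vw (fun n => pt P (W' n)) w.length c) := by
    rw [map_V hq]
    unfold ents Vw
    rw [List.flatMap_map, List.flatMap_map, List.map_flatMap]
    refine List.flatMap_congr ?_
    intro k _
    rw [add_zero]
    have h1 := hs k
    have h2 : (pt P (W k)).k = (W k).k := rfl
    have h3 : (pt P (W' (k + c))).k = (W k).k := h1.1.symm
    have h4 := hφ k
    have h5 := hψ k
    cases hk : (W k).k <;> rw [hk] at h2 h3 h4 h5
    · have h6 := h4 (by decide)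
      have h7 := h5 (by decide)
      simp [ent, h2, h3, h6, h7]
    · have h6 := h4 (by decide)
      have h7 := h5 (by decide)
      simp [ent, h2, h3, h6, h7]
    · have h6 := h4 (by decide)
      simp [ent, h2, h3, h6]
    · have h7 := h5 (by decide)
      simp [ent, h2, h3, h7]
  -- the rotation
  have hV0 : w'.map (pt P) = Vw (fun n => pt P (W' n)) w.length 0 := by
    rw [hlen]
    exact map_V hq'
  obtain ⟨m, hm⟩ : ∃ m, w.length = m + 1 := ⟨w.length - 1, by have := hq.ne; omega⟩
  have hper : ∀ n, (fun n => pt P (W' n)) (n + (m + 1 : ℕ)) = (fun n => pt P (W' n)) n := by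
    intro n
    have h1 := shift hq' n 1
    rw [one_mul, one_mul] at h1
    rw [← hm, hlen]
    change pt P (W' (n + w'.length)) = pt P (W' n)
    unfold pt
    rw [h1.1, h1.2.1, h1.2.2]
    have h2 := (hB.sh P (W' n).e 1).2.2.2 (W' n).t
    rw [one_mul] at h2
    rw [h2]
  rw [hV0, hm] at hcw'
  have step2 := (V_rot hA hW _ m hper hcw' c).2
  unfold lst
  rw [himg] at step1
  rw [hV0, hm]
  rw [hm] at step1
  exact hW.trans _ _ _ step1 (hW.symm _ _ step2)

end LH


end

section

/-!
# STM: strict monotonicity on an interval of integers from the successor steps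
-/

namespace LHS

open Set LH LC Filter
open scoped ContDiff Topology

namespace STM

theorem aux (f : ℤ → ℝ) (p q : ℤ) (h : ∀ i, p ≤ i → i < q → f i < f (i + 1)) (i : ℤ)
    (hi : p ≤ i) (n : ℕ) : i + (n + 1) ≤ q → f i < f (i + (n + 1)) := by
  induction n with
  | zero =>
    intro hn
    have := h i hi (by simp at hn; omega)
    simpa using this
  | succ n ih =>
    intro hn
    push_cast at hn ⊢
    have h1 := ih (by omega)
    have h2 := h (i + (n + 1)) (by omega) (by omega)
    have e : i + ((n : ℤ) + 1 + 1) = i + (n + 1) + 1 := by ring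
    rw [e]
    exact h1.trans h2

theorem mono (f : ℤ → ℝ) (p q : ℤ) (h : ∀ i, p ≤ i → i < q → f i < f (i + 1)) :
    StrictMonoOn f (Icc p q) := by
  intro i hi j hj hij
  obtain ⟨n, hn⟩ : ∃ n : ℕ, j = i + (n + 1) := ⟨(j - i - 1).toNat, by omega⟩
  rw [hn]
  exact aux f p q h i hi.1 n (by rw [← hn]; exact hj.2)

end STM

/-- STM -/
theorem t_STM : Stmt_STM := by
  intro f p q
  refine ⟨fun h => STM.mono f p q h, fun h => ?_⟩
  have := STM.mono (fun i => - f i) p q (fun i h1 h2 => neg_lt_neg (h i h1 h2))
  intro i hi j hj hij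
  exact neg_lt_neg_iff.1 (this hi hj hij)

end LHS


end

section

/-! # KNT: the slice of a cyclic polygon is a Legendrian knot -/

namespace LCA

open Set Filter
open scoped ContDiff Topology

namespace KNT

/-! ### a knot from local parametrizations -/

theorem knot_of_local {n : ℕ} (hn : 0 < n) (G : ℤ → ℝ → LC.R3)
    (hs : ∀ k, ContDiff ℝ ∞ (G k)) (hp : ∀ k, G (k + n) = G k)
    (hov : ∀ k t, 1 / 4 ≤ t → t ≤ 3 / 4 → G k t = G (k + 1) (t - 1))
    (him : ∀ k t, deriv (G k) t ≠ 0) (hleg : ∀ k t, LC.alpha (G k t) (deriv (G k) t) = 0)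
    (hinj : ∀ k t k' t', |t| ≤ 1 / 2 → |t'| ≤ 1 / 2 → G k t = G k' t' →
      ∃ m : ℤ, (k' : ℝ) + t' = k + t + m * n) :
    ∃ Λ : LC.LegKnot, ∀ r, r ∈ Λ.carrier ↔ ∃ (k : ℤ) (t : ℝ), |t| ≤ 1 / 2 ∧ G k t = r := by
  have hn0 : (0 : ℝ) < n := by exact_mod_cast hn
  set g : ℝ → LC.R3 := fun θ => G (round θ) (θ - round θ) with hgdef
  have hg : ∀ (k : ℤ) (θ : ℝ), |θ - k| ≤ 3 / 4 → g θ = G k (θ - k) := by
    intro k θ h
    have h1 := abs_sub_round θ
    rw [abs_le] at h h1
    have h2 : (round θ : ℝ) - k < 2 := by linarith only [h, h1]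
    have h3 : (-2 : ℝ) < round θ - k := by linarith only [h, h1]
    have h2' : round θ - k < 2 := by exact_mod_cast h2
    have h3' : -2 < round θ - k := by exact_mod_cast h3
    have h4 : round θ = k ∨ round θ = k + 1 ∨ round θ = k - 1 := by omega
    rcases h4 with h4 | h4 | h4
    · simp only [hgdef, h4]
    · have hr : (round θ : ℝ) = k + 1 := by rw [h4]; push_cast; ring
      have := hov k (θ - k) (by linarith only [h1, hr]) (by linarith only [h])
      rw [this]
      simp only [hgdef, h4]
      congr 1
      push_cast; ring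
    · have hr : (round θ : ℝ) = k - 1 := by rw [h4]; push_cast; ring
      have := hov (k - 1) (θ - (k - 1)) (by linarith only [h]) (by linarith)
      simp only [hgdef, h4]
      have e : k - 1 + 1 = k := by ring
      rw [e] at this
      have e2 : θ - ((k - 1 : ℤ) : ℝ) = θ - (k - 1) := by push_cast; ring
      rw [e2, this]
      congr 1
      ring
  set γ : ℝ → LC.R3 := fun u => g (n * u) with hγ
  have hnear : ∀ u₀ : ℝ, γ =ᶠ[𝓝 u₀] fun u => G (round (n * u₀)) (n * u - round (n * u₀)) := by
    intro u₀
    have hc : ContinuousAt (fun u : ℝ => (n : ℝ) * u) u₀ := by fun_prop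
    have h1 := abs_sub_round ((n : ℝ) * u₀)
    have : ∀ᶠ u in 𝓝 u₀, |(n : ℝ) * u - n * u₀| < 1 / 4 := by
      have := (Metric.tendsto_nhds.1 hc.tendsto) (1 / 4) (by norm_num)
      filter_upwards [this] with u hu
      rwa [Real.dist_eq] at hu
    filter_upwards [this] with u hu
    apply hg
    rw [abs_le] at h1 ⊢
    rw [abs_lt] at hu
    constructor <;> linarith
  have hder : ∀ u₀ : ℝ, deriv γ u₀ =
      (n : ℝ) • deriv (G (round (n * u₀))) (n * u₀ - round (n * u₀)) := by
    intro u₀
    rw [(hnear u₀).deriv_eq]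
    have d1 : HasDerivAt (fun u : ℝ => (n : ℝ) * u - round (n * u₀)) (n : ℝ) u₀ := by
      have := ((hasDerivAt_id u₀).const_mul (n : ℝ)).sub_const (round (n * u₀) : ℝ)
      simpa using this
    have d2 : HasDerivAt (G (round (n * u₀)))
        (deriv (G (round (n * u₀))) (n * u₀ - round (n * u₀))) (n * u₀ - round (n * u₀)) :=
      ((hs _).differentiable (by simp)).differentiableAt.hasDerivAt
    exact (HasDerivAt.scomp u₀ d2 d1).deriv
  have hval : ∀ u₀ : ℝ, γ u₀ = G (round (n * u₀)) (n * u₀ - round (n * u₀)) := fun u₀ => rfl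
  refine ⟨⟨γ, ?_, ?_, ?_, ?_, ?_⟩, ?_⟩
  · rw [contDiff_iff_contDiffAt]
    intro u₀
    refine ContDiffAt.congr_of_eventuallyEq ?_ (hnear u₀)
    exact ((hs _).comp (by fun_prop)).contDiffAt
  · intro u
    rw [hval, hval]
    have e : (n : ℝ) * (u + 1) = n * u + (n : ℕ) := by ring
    have e2 : round ((n : ℝ) * (u + 1)) = round ((n : ℝ) * u) + n := by
      rw [e, round_add_natCast]
    rw [e2, hp]
    congr 1
    rw [e]
    push_cast
    ring
  · intro u
    rw [hder]
    exact smul_ne_zero hn0.ne' (him _ _)
  · intro u v huv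
    rw [hval, hval] at huv
    obtain ⟨m, hm⟩ := hinj _ _ _ _ (abs_sub_round _) (abs_sub_round _) huv
    refine ⟨m, ?_⟩
    have : (n : ℝ) * v = n * (u + m) := by linarith
    exact mul_left_cancel₀ hn0.ne' this
  · intro u
    rw [hder, hval]
    have := hleg (round (n * u)) (n * u - round (n * u))
    simp only [LC.alpha, Prod.smul_snd, Prod.smul_fst, smul_eq_mul] at this ⊢
    linear_combination (n : ℝ) * this
  · intro r
    constructor
    · rintro ⟨u, rfl⟩
      exact ⟨round (n * u), n * u - round (n * u), abs_sub_round _, rfl⟩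
    · rintro ⟨k, t, ht, rfl⟩
      refine ⟨(k + t) / n, ?_⟩
      have e : (n : ℝ) * ((k + t) / n) = k + t := by field_simp
      change g (n * ((k + t) / n)) = _
      rw [e, hg k (k + t) (by simpa using ht.trans (by norm_num))]
      congr 1
      ring

/-! ### indices modulo `n` -/

section idx

variable {n : ℕ} [NeZero n]

/-- The class of the integer `k` modulo `n`. -/
def idx (n : ℕ) [NeZero n] (k : ℤ) : Fin n :=
  ⟨(k % n).toNat, by
    have h0 : (0 : ℤ) < n := by exact_mod_cast Nat.pos_of_ne_zero (NeZero.ne n)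
    have h1 := Int.emod_lt_of_pos k h0
    have h2 := Int.emod_nonneg k h0.ne'
    omega⟩

theorem idx_val (k : ℤ) : ((idx n k).val : ℤ) = k % n := by
  have h0 : (0 : ℤ) < n := by exact_mod_cast Nat.pos_of_ne_zero (NeZero.ne n)
  exact Int.toNat_of_nonneg (Int.emod_nonneg k h0.ne')

theorem idx_succ (k : ℤ) : idx n (k + 1) = idx n k + 1 := by
  apply Fin.ext
  have h1 : (((idx n k + 1 : Fin n)).val : ℤ) = ((idx n (k + 1)).val : ℤ) := by
    rw [Fin.val_add, idx_val]
    push_cast
    rw [idx_val]
    have : (((1 : Fin n)).val : ℤ) = 1 % n := by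
      rw [Fin.val_one']; push_cast; rfl
    rw [this, Int.emod_add_emod, Int.add_emod_emod]
  exact_mod_cast h1.symm

theorem idx_add (k : ℤ) : idx n (k + n) = idx n k := by
  apply Fin.ext
  have h1 : ((idx n (k + n)).val : ℤ) = ((idx n k).val : ℤ) := by
    rw [idx_val, idx_val, Int.add_emod_right]
  exact_mod_cast h1

theorem idx_eq {k l : ℤ} (h : idx n k = idx n l) : ∃ m : ℤ, l = k + m * n := by
  have h1 : k % n = l % n := by rw [← idx_val, ← idx_val, h]
  obtain ⟨m, hm⟩ := Int.ModEq.dvd h1
  exact ⟨m, by linarith⟩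

theorem idx_surj (i : Fin n) : ∃ k, idx n k = i := by
  refine ⟨i.val, ?_⟩
  apply Fin.ext
  have h1 : ((idx n (i.val : ℤ)).val : ℤ) = (i.val : ℤ) := by
    rw [idx_val]
    exact Int.emod_eq_of_lt (by omega) (by exact_mod_cast i.isLt)
  exact_mod_cast h1

end idx

/-! ### the distance function along an edge -/

section dist

/-- The distance from the beginning of an edge of length `L`. -/
def D (sh : Shape) (a b L t : ℝ) : ℝ :=
  (1 - sh.τ (4 * t - 2)) * (8 * a * t) + sh.τ (4 * t - 2) * (L + 8 * b * (t - 1))

/-- The derivative of `D`. -/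
noncomputable def dD (sh : Shape) (a b L t : ℝ) : ℝ :=
  (1 - sh.τ (4 * t - 2)) * (8 * a) + sh.τ (4 * t - 2) * (8 * b) +
    4 * deriv sh.τ (4 * t - 2) * (L + 8 * b * (t - 1) - 8 * a * t)

variable (sh : Shape)

theorem tau_deriv_low {u : ℝ} (hu : u ≤ -1) : deriv sh.τ u = 0 := by
  have : IsLocalMin sh.τ u := by
    filter_upwards with x
    rw [sh.τ_low u hu]
    exact (sh.τ_mem x).1
  exact this.deriv_eq_zero

theorem tau_deriv_high {u : ℝ} (hu : 1 ≤ u) : deriv sh.τ u = 0 := by
  have : IsLocalMax sh.τ u := by
    filter_upwards with x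
    rw [sh.τ_high u hu]
    exact (sh.τ_mem x).2
  exact this.deriv_eq_zero

theorem tau_hasDeriv (u : ℝ) : HasDerivAt sh.τ (deriv sh.τ u) u :=
  ((sh.τ_smooth.differentiable (by simp)).differentiableAt).hasDerivAt

theorem D_smooth (a b L : ℝ) : ContDiff ℝ ∞ (D sh a b L) := by
  have h := sh.τ_smooth
  have h1 : ContDiff ℝ ∞ (fun t : ℝ => sh.τ (4 * t - 2)) := h.comp (by fun_prop)
  unfold D
  exact ((contDiff_const.sub h1).mul (by fun_prop)).add (h1.mul (by fun_prop))

theorem D_deriv (a b L t : ℝ) : HasDerivAt (D sh a b L) (dD sh a b L t) t := by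
  have h1 : HasDerivAt (fun t : ℝ => sh.τ (4 * t - 2)) (4 * deriv sh.τ (4 * t - 2)) t := by
    have h2 : HasDerivAt (fun t : ℝ => 4 * t - 2) 4 t := by
      simpa using ((hasDerivAt_id t).const_mul 4).sub_const 2
    have h3 := (tau_hasDeriv sh (4 * t - 2)).comp t h2
    rw [mul_comm] at h3
    exact h3
  have h4 : HasDerivAt (fun t : ℝ => 8 * a * t) (8 * a) t := by
    simpa using (hasDerivAt_id t).const_mul (8 * a)
  have h5 : HasDerivAt (fun t : ℝ => L + 8 * b * (t - 1)) (8 * b) t := by
    simpa using (((hasDerivAt_id t).sub_const 1).const_mul (8 * b)).const_add L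
  have h6 := ((h1.const_sub 1).mul h4).add (h1.mul h5)
  unfold D dD
  refine h6.congr_deriv ?_
  ring

theorem D_low {a b L t : ℝ} (ht : t ≤ 1 / 4) : D sh a b L t = 8 * a * t := by
  unfold D
  rw [sh.τ_low _ (by linarith)]
  ring

theorem D_high {a b L t : ℝ} (ht : 3 / 4 ≤ t) : D sh a b L t = L + 8 * b * (t - 1) := by
  unfold D
  rw [sh.τ_high _ (by linarith)]
  ring

theorem dD_low {a b L t : ℝ} (ht : t ≤ 1 / 4) : dD sh a b L t = 8 * a := by
  unfold dD
  rw [sh.τ_low _ (by linarith), tau_deriv_low sh (by linarith)]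
  ring

theorem dD_high {a b L t : ℝ} (ht : 3 / 4 ≤ t) : dD sh a b L t = 8 * b := by
  unfold dD
  rw [sh.τ_high _ (by linarith), tau_deriv_high sh (by linarith)]
  ring

theorem dD_pos {a b L : ℝ} (ha : 0 < a) (hb : 0 < b) (hL : 6 * (a + b) < L) (t : ℝ) :
    0 < dD sh a b L t := by
  rcases le_or_gt t (1 / 4) with h | h
  · rw [dD_low sh h]; positivity
  · rcases le_or_gt (3 / 4) t with h' | h'
    · rw [dD_high sh h']; positivity
    · unfold dD
      have h1 := sh.τ_mem (4 * t - 2)
      have h2 := sh.τ_deriv (4 * t - 2) (by linarith) (by linarith)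
      have h3 : 0 < L + 8 * b * (t - 1) - 8 * a * t := by nlinarith
      have h4 : 0 ≤ (1 - sh.τ (4 * t - 2)) * (8 * a) :=
        mul_nonneg (by linarith [h1.2]) (by positivity)
      have h5 : 0 ≤ sh.τ (4 * t - 2) * (8 * b) := mul_nonneg h1.1 (by positivity)
      have h6 : 0 < 4 * deriv sh.τ (4 * t - 2) * (L + 8 * b * (t - 1) - 8 * a * t) := by
        positivity
      linarith

theorem D_mono {a b L : ℝ} (ha : 0 < a) (hb : 0 < b) (hL : 6 * (a + b) < L) :
    StrictMono (D sh a b L) := by
  apply strictMono_of_deriv_pos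
  intro t
  rw [(D_deriv sh a b L t).deriv]
  exact dD_pos sh ha hb hL t

end dist

/-! ### profiles -/

section prof

variable (sh : Shape)

theorem deriv_of_ge {f : ℝ → ℝ} (hf : Differentiable ℝ f) {c : ℝ} {a : ℝ}
    (h : ∀ u, a ≤ u → f u = c * u) {u : ℝ} (hu : a ≤ u) : deriv f u = c := by
  have h1 : HasDerivWithinAt f (deriv f u) (Ici u) u := (hf u).hasDerivAt.hasDerivWithinAt
  have h2 : HasDerivWithinAt f c (Ici u) u := by
    have h3 : HasDerivWithinAt (fun u => c * u) c (Ici u) u := by
      simpa using ((hasDerivAt_id u).const_mul c).hasDerivWithinAt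
    exact h3.congr (fun x hx => h x (hu.trans hx)) (h u hu)
  exact (uniqueDiffWithinAt_Ici u).eq_deriv _ h1 h2

theorem deriv_of_le {f : ℝ → ℝ} (hf : Differentiable ℝ f) {c : ℝ} {a : ℝ}
    (h : ∀ u, u ≤ a → f u = c * u) {u : ℝ} (hu : u ≤ a) : deriv f u = c := by
  have h1 : HasDerivWithinAt f (deriv f u) (Iic u) u := (hf u).hasDerivAt.hasDerivWithinAt
  have h2 : HasDerivWithinAt f c (Iic u) u := by
    have h3 : HasDerivWithinAt (fun u => c * u) c (Iic u) u := by
      simpa using ((hasDerivAt_id u).const_mul c).hasDerivWithinAt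
    exact h3.congr (fun x hx => h x (le_trans hx hu)) (h u hu)
  exact (uniqueDiffWithinAt_Iic u).eq_deriv _ h1 h2

theorem inX_eq (t : Ty) (u : ℝ) : t.inX u = t.inX 1 * u := by
  cases t <;> simp [Ty.inX]

theorem outX_eq (t : Ty) (u : ℝ) : t.outX u = t.outX 1 * u := by
  cases t <;> simp [Ty.outX]

theorem inX_ne (t : Ty) : t.inX 1 ≠ 0 := by
  cases t <;> simp [Ty.inX]

theorem outX_ne (t : Ty) : t.outX 1 ≠ 0 := by
  cases t <;> simp [Ty.outX]

theorem X_smooth (t : Ty) : ContDiff ℝ ∞ ((sh.st t).X 0) := by
  have h := sh.ξ_smooth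
  cases t
  · exact contDiff_id
  · exact h
  · exact h.neg

theorem T_smooth (t : Ty) : ContDiff ℝ ∞ ((sh.st t).Θ 0) := by
  cases t
  · exact sh.ΘP_smooth
  · exact sh.ΘR_smooth
  · exact sh.ΘR_smooth.neg

end prof

/-! ### the slice -/

/-- The projection of a point of the slice to `ℝ³`. -/
def prj (a : ℝ × ℝ × ℝ × ℝ) : LC.R3 := (a.1, a.2.1, a.2.2.1)

section slice

variable {n : ℕ} (sh : Shape) (c : Comb n n) (w : Fin n → ℝ) (Q : St n)

/-- The curve of the vertex `i`. -/
noncomputable def Vc (i : Fin n) (u : ℝ) : LC.R3 := prj (c.vp w (c.sp sh) 0 Q (0, Q.2) i u)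

/-- The line of the edge `e`. -/
noncomputable def Ec (e : Fin n) (x : ℝ) : LC.R3 := prj (c.ept Q (0, Q.2) e x)

theorem dpe_eq (e : Fin n) : c.dpe Q (0, Q.2) e = c.pe Q e := by
  simp [Comb.dpe, Comb.pe]

theorem dae_eq (e : Fin n) : c.dae Q (0, Q.2) e = c.ae Q e := by
  simp [Comb.dae, Comb.ae, dpe_eq]

theorem st_Y (t : Ty) (s u : ℝ) : (sh.st t).Y s u = 0 := rfl

theorem vp_eq (i : Fin n) (u : ℝ) : c.vp w (c.sp sh) 0 Q (0, Q.2) i u =
    (Q.1 i + w i * (sh.st (c.ty i)).X 0 u, c.pe Q (c.ea i) + c.dl Q i * sh.τ u,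
      c.pe Q (c.ea i) * (Q.1 i + w i * (sh.st (c.ty i)).X 0 u) + c.ae Q (c.ea i) +
        w i * c.dl Q i * (sh.st (c.ty i)).Θ 0 u,
      c.pe Q (c.ea i) * (Q.1 i + w i * (sh.st (c.ty i)).X 0 u) + c.ae Q (c.ea i) +
        w i * c.dl Q i * (sh.st (c.ty i)).Θ 0 u) := by
  have h1 : ∀ e, c.dpe Q (0, Q.2) e = c.pe Q e := dpe_eq c Q
  have h2 : ∀ e, c.dae Q (0, Q.2) e = c.ae Q e := dae_eq c Q
  simp only [Comb.vp, Comb.vpt, Comb.sp, st_Y, h1, h2, Comb.dl, Pi.zero_apply]
  refine Prod.ext rfl (Prod.ext rfl (Prod.ext ?_ rfl))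
  simp only
  ring

theorem ept_eq (e : Fin n) (x : ℝ) : c.ept Q (0, Q.2) e x =
    (x, c.pe Q e, c.pe Q e * x + c.ae Q e, c.pe Q e * x + c.ae Q e) := by
  simp only [Comb.ept, dpe_eq, dae_eq]

theorem mem_knot (r : LC.R3) : r ∈ c.knot sh w Q ↔
    (∃ e, ∃ x ∈ c.rg w Q e, r = Ec c Q e x) ∨ ∃ i, ∃ u, |u| ≤ 2 ∧ r = Vc sh c w Q i u := by
  unfold Comb.knot Comb.slice
  constructor
  · rintro (⟨e, x, hx, h⟩ | ⟨i, u, hu, h⟩)
    · refine Or.inl ⟨e, x, hx, ?_⟩
      rw [Ec, ← h]; rfl
    · refine Or.inr ⟨i, u, hu, ?_⟩
      rw [Vc, ← h]; rfl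
  · rintro (⟨e, x, hx, h⟩ | ⟨i, u, hu, h⟩)
    · refine Or.inl ⟨e, x, hx, ?_⟩
      rw [h, Ec, ept_eq]; rfl
    · refine Or.inr ⟨i, u, hu, ?_⟩
      rw [h, Vc, vp_eq]; rfl

theorem Vc_smooth (i : Fin n) : ContDiff ℝ ∞ (Vc sh c w Q i) := by
  have h1 := X_smooth sh (c.ty i)
  have h2 := T_smooth sh (c.ty i)
  have h3 := sh.τ_smooth
  have : Vc sh c w Q i = fun u => (Q.1 i + w i * (sh.st (c.ty i)).X 0 u,
      c.pe Q (c.ea i) + c.dl Q i * sh.τ u,
      c.pe Q (c.ea i) * (Q.1 i + w i * (sh.st (c.ty i)).X 0 u) + c.ae Q (c.ea i) +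
        w i * c.dl Q i * (sh.st (c.ty i)).Θ 0 u) := by
    funext u
    rw [Vc, vp_eq]; rfl
  rw [this]
  have a1 : ContDiff ℝ ∞ (fun u => Q.1 i + w i * (sh.st (c.ty i)).X 0 u) :=
    contDiff_const.add (contDiff_const.mul h1)
  exact a1.prodMk ((contDiff_const.add (contDiff_const.mul h3)).prodMk
    (((contDiff_const.mul a1).add contDiff_const).add (contDiff_const.mul h2)))

theorem Vc_deriv (i : Fin n) (hP : ProfOK univ (c.ty i) (fun _ => c.dl Q i) (sh.st (c.ty i))) (u : ℝ) :
    HasDerivAt (Vc sh c w Q i) (w i * deriv ((sh.st (c.ty i)).X 0) u, c.dl Q i * deriv sh.τ u,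
      (c.pe Q (c.ea i) + c.dl Q i * sh.τ u) * (w i * deriv ((sh.st (c.ty i)).X 0) u)) u := by
  have h1 : HasDerivAt ((sh.st (c.ty i)).X 0) (deriv ((sh.st (c.ty i)).X 0) u) u :=
    (((X_smooth sh (c.ty i)).differentiable (by simp)).differentiableAt).hasDerivAt
  have h2 := hP.dΘ 0 (mem_univ _) u
  have h3 := tau_hasDeriv sh u
  have : Vc sh c w Q i = fun u => (Q.1 i + w i * (sh.st (c.ty i)).X 0 u,
      c.pe Q (c.ea i) + c.dl Q i * sh.τ u,
      c.pe Q (c.ea i) * (Q.1 i + w i * (sh.st (c.ty i)).X 0 u) + c.ae Q (c.ea i) +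
        w i * c.dl Q i * (sh.st (c.ty i)).Θ 0 u) := by
    funext u
    rw [Vc, vp_eq]; rfl
  rw [this]
  have a1 : HasDerivAt (fun u => Q.1 i + w i * (sh.st (c.ty i)).X 0 u)
      (w i * deriv ((sh.st (c.ty i)).X 0) u) u := (h1.const_mul (w i)).const_add _
  have a2 := (h3.const_mul (c.dl Q i)).const_add (c.pe Q (c.ea i))
  have a3 := ((a1.const_mul (c.pe Q (c.ea i))).add_const (c.ae Q (c.ea i))).add
    (h2.const_mul (w i * c.dl Q i))
  refine (a1.prodMk (a2.prodMk a3)).congr_deriv ?_
  refine Prod.ext rfl (Prod.ext rfl ?_)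
  simp only
  change _ + w i * c.dl Q i * (sh.τ u * _) = _
  ring

theorem Vc_imm (i : Fin n) (hw : 0 < w i)
    (hP : ProfOK univ (c.ty i) (fun _ => c.dl Q i) (sh.st (c.ty i))) (u : ℝ) :
    w i * deriv ((sh.st (c.ty i)).X 0) u ≠ 0 ∨ c.dl Q i * deriv sh.τ u ≠ 0 := by
  have hd : Differentiable ℝ ((sh.st (c.ty i)).X 0) :=
    (X_smooth sh (c.ty i)).differentiable (by simp)
  have hb := hP.bd 0 (mem_univ _)
  by_cases h : |u| < 1
  · rcases hP.imm 0 (mem_univ _) u h with h | h
    · exact Or.inl (mul_ne_zero hw.ne' h)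
    · exact Or.inr h
  · left
    apply mul_ne_zero hw.ne'
    rw [not_lt, le_abs] at h
    rcases h with h | h
    · rw [deriv_of_ge hd (c := (c.ty i).outX 1) (a := 1) _ h]
      · exact outX_ne _
      · intro x hx
        rw [(hb.high x hx).1, outX_eq]
    · rw [deriv_of_le hd (c := (c.ty i).inX 1) (a := -1) _ (by linarith)]
      · exact inX_ne _
      · intro x hx
        rw [(hb.low x hx).1, inX_eq]

/-- The direction of the edge `e` at its end `i`. -/
noncomputable def sg (e i : Fin n) : ℝ := if c.lf e = i then 1 else -1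

theorem sg_mul (e i : Fin n) : sg c e i * sg c e i = 1 := by
  unfold sg; split_ifs <;> norm_num

theorem lf_ne (hlen : ∀ e, Q.1 (c.lf e) < Q.1 (c.rt e)) (e : Fin n) : c.lf e ≠ c.rt e := by
  intro h
  have := hlen e
  rw [h] at this
  exact lt_irrefl _ this

theorem Vc_out (hVLN : Stmt_VLN) (hV : c.Valid) (hB : ∀ i, ProfBd (c.ty i) 0 (c.sp sh i))
    (hlen : ∀ e, Q.1 (c.lf e) < Q.1 (c.rt e)) (i : Fin n) (u : ℝ) (hu : 1 ≤ u) :
    Vc sh c w Q i u = Ec c Q (c.eb i) (Q.1 i + w i * (sg c (c.eb i) i * u)) := by
  have h := (hVLN c w (c.sp sh) 0 Q (0, Q.2) i hV hB hlen).2 u hu rfl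
  rw [Vc, h, Ec]
  have e : (c.ty i).outX u = sg c (c.eb i) i * u := by
    have hok := hV.okb i
    have hne := lf_ne c Q hlen (c.eb i)
    unfold Comb.OKb at hok
    unfold sg Ty.outX
    cases hty : c.ty i
    · simp only [hty] at hok
      simp [hok]
    · simp only [hty] at hok
      rw [hok] at hne
      simp [hne]
    · simp only [hty] at hok
      simp [hok]
  rw [e]

theorem Vc_in (hVLN : Stmt_VLN) (hV : c.Valid) (hB : ∀ i, ProfBd (c.ty i) 0 (c.sp sh i))
    (hlen : ∀ e, Q.1 (c.lf e) < Q.1 (c.rt e)) (i : Fin n) (u : ℝ) (hu : 1 ≤ u) :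
    Vc sh c w Q i (-u) = Ec c Q (c.ea i) (Q.1 i + w i * (sg c (c.ea i) i * u)) := by
  have h := (hVLN c w (c.sp sh) 0 Q (0, Q.2) i hV hB hlen).1 (-u) (by linarith) rfl
  rw [Vc, h, Ec]
  have e : (c.ty i).inX (-u) = sg c (c.ea i) i * u := by
    have hok := hV.oka i
    have hne := lf_ne c Q hlen (c.ea i)
    unfold Comb.OKa at hok
    unfold sg Ty.inX
    cases hty : c.ty i
    · simp only [hty] at hok
      rw [hok] at hne
      simp [hne]
    · simp only [hty] at hok
      rw [hok] at hne
      simp [hne]
    · simp only [hty] at hok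
      simp [hok]
  rw [e]

end slice

/-! ### the curve -/

section curve

variable {n : ℕ} [NeZero n] (sh : Shape) (c : Comb n n) (w : Fin n → ℝ) (Q : St n)

/-- The length of the edge `k`. -/
def Ln (k : ℤ) : ℝ := Q.1 (c.rt (idx n k)) - Q.1 (c.lf (idx n k))

/-- The position of the vertex `k`. -/
def xk (k : ℤ) : ℝ := Q.1 (idx n k)

/-- The width of the vertex `k`. -/
def wk (k : ℤ) : ℝ := w (idx n k)

/-- The direction of the edge `k`. -/
noncomputable def sk (k : ℤ) : ℝ := sg c (idx n k) (idx n k)

/-- The direction of the parameter at the vertex `k`. -/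
noncomputable def ek (k : ℤ) : ℝ := if c.eb (idx n k) = idx n k then 1 else -1

/-- The curve at the vertex `k`, in the direction of the polygon. -/
noncomputable def Ak (k : ℤ) (u : ℝ) : LC.R3 := Vc sh c w Q (idx n k) (ek c k * u)

/-- The distance along the edge `k`. -/
noncomputable def Dk (k : ℤ) (t : ℝ) : ℝ := D sh (wk w k) (wk w (k + 1)) (Ln c Q k) t

/-- The derivative of `Dk`. -/
noncomputable def dDk (k : ℤ) (t : ℝ) : ℝ := dD sh (wk w k) (wk w (k + 1)) (Ln c Q k) t

/-- The parameter at the vertex `k`. -/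
noncomputable def Uk (k : ℤ) (t : ℝ) : ℝ :=
  (Dk sh c w Q k t + Dk sh c w Q (k - 1) (t + 1) - Ln c Q (k - 1)) / wk w k - 8 * t

/-- The curve near the vertex `k`. -/
noncomputable def Gk (k : ℤ) (t : ℝ) : LC.R3 := Ak sh c w Q k (Uk sh c w Q k t)

theorem wk_pos (hw : ∀ i, 0 < w i) (k : ℤ) : 0 < wk w k := hw _

theorem cyc_edge (hC : c.Cyc) (k : ℤ) : (c.lf (idx n k) = idx n k ∧
    c.rt (idx n k) = idx n (k + 1)) ∨ (c.lf (idx n k) = idx n (k + 1) ∧
    c.rt (idx n k) = idx n k) := by
  rw [idx_succ]
  exact hC.edge (idx n k)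

theorem cyc_vert (hC : c.Cyc) (k : ℤ) : (c.ea (idx n k) = idx n (k - 1) ∧
    c.eb (idx n k) = idx n k) ∨ (c.ea (idx n k) = idx n k ∧ c.eb (idx n k) = idx n (k - 1)) := by
  have h := hC.vert (idx n (k - 1))
  rw [← idx_succ, sub_add_cancel] at h
  exact h

theorem Ln_big (hC : c.Cyc)
    (hL : ∀ e, 6 * (w (c.lf e) + w (c.rt e)) < Q.1 (c.rt e) - Q.1 (c.lf e)) (k : ℤ) :
    6 * (wk w k + wk w (k + 1)) < Ln c Q k := by
  have h := hL (idx n k)
  unfold wk Ln
  rcases cyc_edge c hC k with ⟨h1, h2⟩ | ⟨h1, h2⟩
  · rw [h1, h2] at h ⊢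
    exact h
  · rw [h1, h2] at h ⊢
    linarith

theorem xk_succ (hC : c.Cyc) (hlen : ∀ e, Q.1 (c.lf e) < Q.1 (c.rt e)) (k : ℤ) :
    xk Q (k + 1) = xk Q k + sk c k * Ln c Q k := by
  have hne := lf_ne c Q hlen (idx n k)
  unfold xk sk Ln sg
  rcases cyc_edge c hC k with ⟨h1, h2⟩ | ⟨h1, h2⟩
  · rw [if_pos h1, h1, h2]; ring
  · have h3 : c.lf (idx n k) ≠ idx n k := by rw [h2] at hne; exact hne
    rw [if_neg h3, h1, h2]; ring

theorem sg_succ (hC : c.Cyc) (hlen : ∀ e, Q.1 (c.lf e) < Q.1 (c.rt e)) (k : ℤ) :
    sg c (idx n k) (idx n (k + 1)) = -sk c k := by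
  have hne := lf_ne c Q hlen (idx n k)
  unfold sk sg
  rcases cyc_edge c hC k with ⟨h1, h2⟩ | ⟨h1, h2⟩
  · have h3 : c.lf (idx n k) ≠ idx n (k + 1) := by rw [h2] at hne; exact hne
    rw [if_pos h1, if_neg h3]
  · have h3 : c.lf (idx n k) ≠ idx n k := by rw [h2] at hne; exact hne
    rw [if_neg h3, if_pos h1]; ring

theorem Ak_out (hVLN : Stmt_VLN) (hV : c.Valid) (hB : ∀ i, ProfBd (c.ty i) 0 (c.sp sh i))
    (hC : c.Cyc) (hlen : ∀ e, Q.1 (c.lf e) < Q.1 (c.rt e)) (k : ℤ) (u : ℝ) (hu : 1 ≤ u) :
    Ak sh c w Q k u = Ec c Q (idx n k) (xk Q k + wk w k * (sk c k * u)) := by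
  unfold Ak ek xk wk sk
  have hne := hV.ne (idx n k)
  rcases cyc_vert c hC k with ⟨h1, h2⟩ | ⟨h1, h2⟩
  · rw [if_pos h2, one_mul, Vc_out sh c w Q hVLN hV hB hlen _ _ hu, h2]
  · have h3 : c.eb (idx n k) ≠ idx n k := by rw [h1] at hne; exact hne.symm
    rw [if_neg h3, neg_one_mul, Vc_in sh c w Q hVLN hV hB hlen _ _ hu, h1]

theorem Ak_in (hVLN : Stmt_VLN) (hV : c.Valid) (hB : ∀ i, ProfBd (c.ty i) 0 (c.sp sh i))
    (hC : c.Cyc) (hlen : ∀ e, Q.1 (c.lf e) < Q.1 (c.rt e)) (k : ℤ) (u : ℝ) (hu : u ≤ -1) :
    Ak sh c w Q k u = Ec c Q (idx n (k - 1)) (xk Q k + wk w k * (sk c (k - 1) * u)) := by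
  have hs : sg c (idx n (k - 1)) (idx n k) = -sk c (k - 1) := by
    have := sg_succ c Q hC hlen (k - 1)
    rwa [sub_add_cancel] at this
  unfold Ak ek xk wk
  have hne := hV.ne (idx n k)
  rcases cyc_vert c hC k with ⟨h1, h2⟩ | ⟨h1, h2⟩
  · have h4 := Vc_in sh c w Q hVLN hV hB hlen (idx n k) (-u) (by linarith)
    rw [if_pos h2, one_mul, ← neg_neg u, h4, h1, hs]
    congr 1
    ring
  · have h3 : c.eb (idx n k) ≠ idx n k := by rw [h1] at hne; exact hne.symm
    have h4 := Vc_out sh c w Q hVLN hV hB hlen (idx n k) (-u) (by linarith)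
    rw [if_neg h3, neg_one_mul, h4, h2, hs]
    congr 1
    ring

theorem Uk_ge (hw : ∀ i, 0 < w i) {k : ℤ} {t : ℝ} (ht : -(1 / 4) ≤ t) :
    Uk sh c w Q k t = Dk sh c w Q k t / wk w k := by
  have hwk := wk_pos w hw k
  have h : Dk sh c w Q (k - 1) (t + 1) = Ln c Q (k - 1) + 8 * wk w k * t := by
    unfold Dk
    rw [D_high sh (by linarith), sub_add_cancel]
    ring
  unfold Uk
  rw [h]
  field_simp
  ring

theorem Uk_le (hw : ∀ i, 0 < w i) {k : ℤ} {t : ℝ} (ht : t ≤ 1 / 4) :
    Uk sh c w Q k t = (Dk sh c w Q (k - 1) (t + 1) - Ln c Q (k - 1)) / wk w k := by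
  have hwk := wk_pos w hw k
  have h : Dk sh c w Q k t = 8 * wk w k * t := by
    unfold Dk
    rw [D_low sh (by linarith only [ht])]
  unfold Uk
  rw [h]
  field_simp
  ring

theorem Uk_mid (hw : ∀ i, 0 < w i) {k : ℤ} {t : ℝ} (ht : |t| ≤ 1 / 4) :
    Uk sh c w Q k t = 8 * t := by
  have hwk := wk_pos w hw k
  rw [abs_le] at ht
  rw [Uk_ge sh c w Q hw ht.1]
  unfold Dk
  rw [D_low sh ht.2]
  field_simp

theorem Uk_smooth (k : ℤ) : ContDiff ℝ ∞ (Uk sh c w Q k) := by
  unfold Uk Dk
  have h1 := D_smooth sh (wk w k) (wk w (k + 1)) (Ln c Q k)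
  have h2 := D_smooth sh (wk w (k - 1)) (wk w (k - 1 + 1)) (Ln c Q (k - 1))
  have h3 : ContDiff ℝ ∞ (fun t : ℝ => D sh (wk w (k - 1)) (wk w (k - 1 + 1)) (Ln c Q (k - 1))
      (t + 1)) := h2.comp (by fun_prop)
  exact (((h1.add h3).sub contDiff_const).div_const _).sub (by fun_prop)

theorem Uk_deriv (hC : c.Cyc) (hw : ∀ i, 0 < w i)
    (hL : ∀ e, 6 * (w (c.lf e) + w (c.rt e)) < Q.1 (c.rt e) - Q.1 (c.lf e)) (k : ℤ) (t : ℝ) :
    ∃ d : ℝ, d ≠ 0 ∧ HasDerivAt (Uk sh c w Q k) d t := by
  have hwk := wk_pos w hw k
  have hd : HasDerivAt (Uk sh c w Q k)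
      ((dDk sh c w Q k t + dDk sh c w Q (k - 1) (t + 1)) / wk w k - 8) t := by
    have h1 : HasDerivAt (Dk sh c w Q k) (dDk sh c w Q k t) t := D_deriv sh _ _ _ t
    have h2 : HasDerivAt (Dk sh c w Q (k - 1)) (dDk sh c w Q (k - 1) (t + 1)) (t + 1) :=
      D_deriv sh _ _ _ (t + 1)
    have h3 : HasDerivAt (fun t => Dk sh c w Q (k - 1) (t + 1)) (dDk sh c w Q (k - 1) (t + 1)) t :=
      h2.comp_add_const t 1
    have h4 : HasDerivAt (fun t : ℝ => 8 * t) 8 t := by
      simpa using (hasDerivAt_id t).const_mul 8
    exact (((h1.add h3).sub_const _).div_const _).sub h4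
  refine ⟨_, ?_, hd⟩
  rcases le_or_gt t (1 / 4) with h | h
  · have h1 : dDk sh c w Q k t = 8 * wk w k := by unfold dDk; rw [dD_low sh h]
    have h2 : 0 < dDk sh c w Q (k - 1) (t + 1) :=
      dD_pos sh (wk_pos w hw _) (wk_pos w hw _) (Ln_big c w Q hC hL (k - 1)) _
    rw [h1]
    have : (8 * wk w k + dDk sh c w Q (k - 1) (t + 1)) / wk w k - 8 =
        dDk sh c w Q (k - 1) (t + 1) / wk w k := by field_simp; ring
    rw [this]
    positivity
  · have h1 : dDk sh c w Q (k - 1) (t + 1) = 8 * wk w k := by
      unfold dDk; rw [dD_high sh (by linarith), sub_add_cancel]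
    have h2 : 0 < dDk sh c w Q k t :=
      dD_pos sh (wk_pos w hw _) (wk_pos w hw _) (Ln_big c w Q hC hL k) _
    rw [h1]
    have : (dDk sh c w Q k t + 8 * wk w k) / wk w k - 8 =
        dDk sh c w Q k t / wk w k := by field_simp; ring
    rw [this]
    positivity

theorem Dk_mono (hC : c.Cyc) (hw : ∀ i, 0 < w i)
    (hL : ∀ e, 6 * (w (c.lf e) + w (c.rt e)) < Q.1 (c.rt e) - Q.1 (c.lf e)) (k : ℤ) :
    StrictMono (Dk sh c w Q k) :=
  D_mono sh (wk_pos w hw _) (wk_pos w hw _) (Ln_big c w Q hC hL k)

theorem Dk_quarter (k : ℤ) : Dk sh c w Q k (1 / 4) = 2 * wk w k := by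
  unfold Dk; rw [D_low sh le_rfl]; ring

theorem Dk_three (k : ℤ) : Dk sh c w Q k (3 / 4) = Ln c Q k - 2 * wk w (k + 1) := by
  unfold Dk; rw [D_high sh le_rfl]; ring

theorem sk_sq (k : ℤ) : sk c k = 1 ∨ sk c k = -1 := by
  unfold sk sg; split_ifs <;> simp

theorem ek_sq (k : ℤ) : ek c k = 1 ∨ ek c k = -1 := by
  unfold ek; split_ifs <;> simp

theorem Gk_edge (hVLN : Stmt_VLN) (hV : c.Valid) (hB : ∀ i, ProfBd (c.ty i) 0 (c.sp sh i))
    (hC : c.Cyc) (hw : ∀ i, 0 < w i) (hlen : ∀ e, Q.1 (c.lf e) < Q.1 (c.rt e))
    (hL : ∀ e, 6 * (w (c.lf e) + w (c.rt e)) < Q.1 (c.rt e) - Q.1 (c.lf e)) (k : ℤ) (t : ℝ)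
    (ht : 1 / 4 ≤ t) :
    Gk sh c w Q k t = Ec c Q (idx n k) (xk Q k + sk c k * Dk sh c w Q k t) := by
  have hwk := wk_pos w hw k
  have hU := Uk_ge sh c w Q hw (k := k) (t := t) (by linarith)
  have hD : 2 * wk w k ≤ Dk sh c w Q k t := by
    rw [← Dk_quarter sh c w Q k]
    exact (Dk_mono sh c w Q hC hw hL k).monotone ht
  have h1 : 1 ≤ Dk sh c w Q k t / wk w k := by
    rw [le_div_iff₀ hwk]; linarith
  unfold Gk
  rw [hU, Ak_out sh c w Q hVLN hV hB hC hlen k _ h1]
  congr 1
  field_simp

theorem Gk_edge' (hVLN : Stmt_VLN) (hV : c.Valid) (hB : ∀ i, ProfBd (c.ty i) 0 (c.sp sh i))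
    (hC : c.Cyc) (hw : ∀ i, 0 < w i) (hlen : ∀ e, Q.1 (c.lf e) < Q.1 (c.rt e))
    (hL : ∀ e, 6 * (w (c.lf e) + w (c.rt e)) < Q.1 (c.rt e) - Q.1 (c.lf e)) (k : ℤ) (t : ℝ)
    (ht : t ≤ 3 / 4) :
    Gk sh c w Q (k + 1) (t - 1) = Ec c Q (idx n k) (xk Q k + sk c k * Dk sh c w Q k t) := by
  have hwk := wk_pos w hw (k + 1)
  have hU := Uk_le sh c w Q hw (k := k + 1) (t := t - 1) (by linarith)
  rw [sub_add_cancel, add_sub_cancel_right] at hU
  have hD : Dk sh c w Q k t ≤ Ln c Q k - 2 * wk w (k + 1) := by
    rw [← Dk_three sh c w Q k]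
    exact (Dk_mono sh c w Q hC hw hL k).monotone ht
  have h1 : (Dk sh c w Q k t - Ln c Q k) / wk w (k + 1) ≤ -1 := by
    rw [div_le_iff₀ hwk]; linarith
  unfold Gk
  rw [hU, Ak_in sh c w Q hVLN hV hB hC hlen (k + 1) _ h1, add_sub_cancel_right,
    xk_succ c Q hC hlen k]
  congr 1
  field_simp
  ring

theorem Gk_mid (hw : ∀ i, 0 < w i) (k : ℤ) (t : ℝ) (ht : |t| ≤ 1 / 4) :
    Gk sh c w Q k t = Vc sh c w Q (idx n k) (ek c k * (8 * t)) := by
  unfold Gk Ak
  rw [Uk_mid sh c w Q hw ht]

theorem rg_iff (hC : c.Cyc) (hlen : ∀ e, Q.1 (c.lf e) < Q.1 (c.rt e)) (k : ℤ) (d : ℝ) :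
    xk Q k + sk c k * d ∈ c.rg w Q (idx n k) ↔
      2 * wk w k ≤ d ∧ d ≤ Ln c Q k - 2 * wk w (k + 1) := by
  have hne := lf_ne c Q hlen (idx n k)
  unfold Comb.rg xk sk Ln sg wk
  rw [mem_Icc]
  rcases cyc_edge c hC k with ⟨h1, h2⟩ | ⟨h1, h2⟩
  · rw [if_pos h1, h1, h2]
    constructor
    · rintro ⟨a, b⟩; constructor <;> linarith
    · rintro ⟨a, b⟩; constructor <;> linarith
  · have h3 : c.lf (idx n k) ≠ idx n k := by rw [h2] at hne; exact hne
    rw [if_neg h3, h1, h2]
    constructor
    · rintro ⟨a, b⟩; constructor <;> linarith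
    · rintro ⟨a, b⟩; constructor <;> linarith

omit [NeZero n] in
theorem X_bd2 (hB : ∀ i, ProfBd (c.ty i) 0 (c.sp sh i)) (i : Fin n) (u : ℝ) (hu : |u| ≤ 2) :
    |(sh.st (c.ty i)).X 0 u| ≤ 2 := by
  have hb := hB i
  rcases le_or_gt |u| 1 with h | h
  · exact (hb.X_bd u h).trans (by norm_num)
  · rw [lt_abs] at h
    rcases h with h | h
    · have h1 : (sh.st (c.ty i)).X 0 u = (c.ty i).outX u := (hb.high u h.le).1
      rw [h1]
      cases c.ty i <;> simpa [Ty.outX] using hu
    · have h1 : (sh.st (c.ty i)).X 0 u = (c.ty i).inX u := (hb.low u (by linarith)).1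
      rw [h1]
      cases c.ty i <;> simpa [Ty.inX] using hu

/-- A vertex point is not in the interior of an edge. -/
theorem no_ve (hC : c.Cyc) (hw : ∀ i, 0 < w i) (hlen : ∀ e, Q.1 (c.lf e) < Q.1 (c.rt e))
    (hB : ∀ i, ProfBd (c.ty i) 0 (c.sp sh i)) (hV : c.Valid)
    (hve : ∀ i e, c.ea i ≠ e → c.eb i ≠ e → ∀ u, |u| ≤ 2 → ∀ x ∈ c.rg w Q e,
      ¬ Meet (c.vp w (c.sp sh) 0 Q (0, Q.2) i u) (c.ept Q (0, Q.2) e x))
    (i : Fin n) (u : ℝ) (hu : |u| ≤ 2) (k : ℤ) (d : ℝ) (h1 : 2 * wk w k < d)
    (h2 : d < Ln c Q k - 2 * wk w (k + 1)) :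
    Vc sh c w Q i u ≠ Ec c Q (idx n k) (xk Q k + sk c k * d) := by
  intro h
  have hm : Meet (c.vp w (c.sp sh) 0 Q (0, Q.2) i u)
      (c.ept Q (0, Q.2) (idx n k) (xk Q k + sk c k * d)) := by
    have e1 := congrArg (fun r : LC.R3 => r.1) h
    have e2 := congrArg (fun r : LC.R3 => r.2.1) h
    have e3 := congrArg (fun r : LC.R3 => r.2.2) h
    exact ⟨e1, e2, e3⟩
  have hinc : c.ea i = idx n k ∨ c.eb i = idx n k := by
    by_contra hcon
    rw [not_or] at hcon
    exact hve i (idx n k) hcon.1 hcon.2 u hu _
      ((rg_iff c w Q hC hlen k d).2 ⟨h1.le, h2.le⟩) hm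
  -- `i` is an end of the edge `k`
  have hend : c.lf (idx n k) = i ∨ c.rt (idx n k) = i := by
    have ha := hV.oka i
    have hb := hV.okb i
    unfold Comb.OKa at ha
    unfold Comb.OKb at hb
    rcases hinc with h | h
    · cases hty : c.ty i <;> simp only [hty] at ha <;> rw [h] at ha <;> simp [ha]
    · cases hty : c.ty i <;> simp only [hty] at hb <;> rw [h] at hb <;> simp [hb]
  have hx : Q.1 i + w i * (sh.st (c.ty i)).X 0 u = xk Q k + sk c k * d := by
    have := hm.1
    rw [vp_eq] at this
    exact this
  have hX := X_bd2 sh c hB i u hu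
  have hwi := hw i
  have hX2 : |w i * (sh.st (c.ty i)).X 0 u| ≤ 2 * w i := by
    rw [abs_mul, abs_of_pos hwi]; nlinarith only [hX, hwi]
  rw [abs_le] at hX2
  have hne := lf_ne c Q hlen (idx n k)
  unfold xk sk sg at hx
  unfold Ln wk at h2
  unfold wk at h1
  rcases cyc_edge c hC k with ⟨g1, g2⟩ | ⟨g1, g2⟩
  · rw [if_pos g1] at hx
    rw [g1, g2] at hend h2
    rcases hend with h | h
    · rw [h] at hx h1; linarith
    · rw [h] at h2; linarith
  · have h3 : c.lf (idx n k) ≠ idx n k := by rw [g2] at hne; exact hne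
    rw [if_neg h3] at hx
    rw [g1, g2] at hend h2
    rcases hend with h | h
    · rw [h] at h2; linarith
    · rw [h] at hx h1; linarith

/-- Every point is a vertex point or an interior point of an edge. -/
theorem classify (hVLN : Stmt_VLN) (hV : c.Valid) (hB : ∀ i, ProfBd (c.ty i) 0 (c.sp sh i))
    (hC : c.Cyc) (hw : ∀ i, 0 < w i) (hlen : ∀ e, Q.1 (c.lf e) < Q.1 (c.rt e))
    (hL : ∀ e, 6 * (w (c.lf e) + w (c.rt e)) < Q.1 (c.rt e) - Q.1 (c.lf e)) (k : ℤ) (t : ℝ)
    (ht : |t| ≤ 1 / 2) :
    (|t| ≤ 1 / 4 ∧ Gk sh c w Q k t = Vc sh c w Q (idx n k) (ek c k * (8 * t))) ∨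
    ∃ (l : ℤ) (r : ℝ), 1 / 4 < r ∧ r < 3 / 4 ∧ (l : ℝ) + r = k + t ∧
      Gk sh c w Q k t = Ec c Q (idx n l) (xk Q l + sk c l * Dk sh c w Q l r) := by
  rw [abs_le] at ht
  rcases le_or_gt |t| (1 / 4) with h | h
  · exact Or.inl ⟨h, Gk_mid sh c w Q hw k t h⟩
  · right
    rw [lt_abs] at h
    rcases h with h | h
    · exact ⟨k, t, h, by linarith, rfl, Gk_edge sh c w Q hVLN hV hB hC hw hlen hL k t h.le⟩
    · refine ⟨k - 1, t + 1, by linarith, by linarith, by push_cast; ring, ?_⟩
      have := Gk_edge' sh c w Q hVLN hV hB hC hw hlen hL (k - 1) (t + 1) (by linarith)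
      rw [sub_add_cancel, add_sub_cancel_right] at this
      exact this

end curve

end KNT

theorem t_KNT (hPST : Stmt_PST) (hCER : Stmt_CER) (hVLN : Stmt_VLN) (hPIN : Stmt_PIN) :
    Stmt_KNT := by
  intro n _ sh c w Q hV hC hw hCert hL
  have _ := @hPIN
  have hn : 0 < n := Nat.pos_of_ne_zero (NeZero.ne n)
  have hlen : ∀ e, Q.1 (c.lf e) < Q.1 (c.rt e) := by
    intro e
    have h1 := hL e
    have h2 := hw (c.lf e)
    have h3 := hw (c.rt e)
    linarith
  have hP : ∀ i, ProfOK univ (c.ty i) (fun _ => c.dl Q i) (sh.st (c.ty i)) := fun i =>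
    hPST sh univ (c.ty i) (fun _ => c.dl Q i) (fun _ _ h => hCert.tip i h)
  have hB : ∀ i, ProfBd (c.ty i) 0 (c.sp sh i) := fun i => (hP i).bd 0 (mem_univ _)
  have hAdm := hCER c w (c.sp sh) 0 Q (0, Q.2) hV hw hB hCert
  have cls := KNT.classify sh c w Q hVLN hV hB hC hw hlen hL
  have hD := KNT.Dk_mono sh c w Q hC hw hL
  have hDr : ∀ (l : ℤ) (r : ℝ), 1 / 4 < r → r < 3 / 4 → 2 * KNT.wk w l < KNT.Dk sh c w Q l r ∧
      KNT.Dk sh c w Q l r < KNT.Ln c Q l - 2 * KNT.wk w (l + 1) := by
    intro l r h1 h2
    rw [← KNT.Dk_quarter sh c w Q l, ← KNT.Dk_three sh c w Q l]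
    exact ⟨hD l h1, hD l h2⟩
  have e8 : ∀ (k : ℤ) (t : ℝ), |t| ≤ 1 / 4 → |KNT.ek c k * (8 * t)| ≤ 2 := by
    intro k t ht
    rw [abs_le] at ht ⊢
    rcases KNT.ek_sq c k with h | h <;> rw [h] <;> constructor <;> linarith
  have meetV : ∀ i j u v, KNT.Vc sh c w Q i u = KNT.Vc sh c w Q j v →
      Meet (c.vp w (c.sp sh) 0 Q (0, Q.2) i u) (c.vp w (c.sp sh) 0 Q (0, Q.2) j v) := by
    intro i j u v h
    exact ⟨congrArg (fun r : LC.R3 => r.1) h, congrArg (fun r : LC.R3 => r.2.1) h,
      congrArg (fun r : LC.R3 => r.2.2) h⟩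
  have meetE : ∀ i j u v, KNT.Ec c Q i u = KNT.Ec c Q j v →
      Meet (c.ept Q (0, Q.2) i u) (c.ept Q (0, Q.2) j v) := by
    intro i j u v h
    exact ⟨congrArg (fun r : LC.R3 => r.1) h, congrArg (fun r : LC.R3 => r.2.1) h,
      congrArg (fun r : LC.R3 => r.2.2) h⟩
  obtain ⟨Λ, hΛ⟩ := KNT.knot_of_local hn (KNT.Gk sh c w Q)
    (by
      intro k
      have h1 := KNT.Vc_smooth sh c w Q (KNT.idx n k)
      have h2 := KNT.Uk_smooth sh c w Q k
      exact h1.comp (contDiff_const.mul h2))
    (by
      intro k
      have e1 : KNT.idx n (k + n) = KNT.idx n k := KNT.idx_add k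
      have e2 : KNT.idx n (k + n + 1) = KNT.idx n (k + 1) := by
        rw [show k + n + 1 = k + 1 + n by ring]; exact KNT.idx_add (k + 1)
      have e3 : KNT.idx n (k + n - 1) = KNT.idx n (k - 1) := by
        rw [show k + n - 1 = k - 1 + n by ring]; exact KNT.idx_add (k - 1)
      have e4 : KNT.idx n (k + n - 1 + 1) = KNT.idx n (k - 1 + 1) := by
        rw [show k + n - 1 + 1 = k - 1 + 1 + n by ring]; exact KNT.idx_add (k - 1 + 1)
      funext t
      unfold KNT.Gk KNT.Ak KNT.Uk KNT.ek KNT.Dk KNT.wk KNT.Ln
      rw [e1, e2, e3, e4])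
    (by
      intro k t h1 h2
      rw [KNT.Gk_edge sh c w Q hVLN hV hB hC hw hlen hL k t h1,
        KNT.Gk_edge' sh c w Q hVLN hV hB hC hw hlen hL k t h2])
    (by
      intro k t
      obtain ⟨d, hd0, hd⟩ := KNT.Uk_deriv sh c w Q hC hw hL k t
      have h1 := (KNT.Vc_deriv sh c w Q (KNT.idx n k) (hP _)
        (KNT.ek c k * KNT.Uk sh c w Q k t)).scomp t (hd.const_mul (KNT.ek c k))
      have h2 := h1.deriv
      have h3 : KNT.Gk sh c w Q k = (KNT.Vc sh c w Q (KNT.idx n k)) ∘
        (fun t => KNT.ek c k * KNT.Uk sh c w Q k t) := rfl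
      rw [h3, h2]
      apply smul_ne_zero
      · apply mul_ne_zero _ hd0
        rcases KNT.ek_sq c k with h | h <;> rw [h] <;> norm_num
      · intro h0
        rcases KNT.Vc_imm sh c w Q (KNT.idx n k) (hw _) (hP _)
          (KNT.ek c k * KNT.Uk sh c w Q k t) with h | h
        · exact h (congrArg (fun r : LC.R3 => r.1) h0)
        · exact h (congrArg (fun r : LC.R3 => r.2.1) h0))
    (by
      intro k t
      obtain ⟨d, hd0, hd⟩ := KNT.Uk_deriv sh c w Q hC hw hL k t
      have h1 := (KNT.Vc_deriv sh c w Q (KNT.idx n k) (hP _)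
        (KNT.ek c k * KNT.Uk sh c w Q k t)).scomp t (hd.const_mul (KNT.ek c k))
      have h2 := h1.deriv
      have h3 : KNT.Gk sh c w Q k = (KNT.Vc sh c w Q (KNT.idx n k)) ∘
        (fun t => KNT.ek c k * KNT.Uk sh c w Q k t) := rfl
      rw [h3, h2]
      have h4 : (KNT.Vc sh c w Q (KNT.idx n k) (KNT.ek c k * KNT.Uk sh c w Q k t)).2.1 =
          c.pe Q (c.ea (KNT.idx n k)) + c.dl Q (KNT.idx n k) *
            sh.τ (KNT.ek c k * KNT.Uk sh c w Q k t) := by
        rw [KNT.Vc, KNT.vp_eq]; rfl
      simp only [LC.alpha, Prod.smul_snd, Prod.smul_fst, smul_eq_mul, Function.comp]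
      rw [h4]
      ring)
    (by
      intro k t k' t' ht ht' heq
      rcases cls k t ht with ⟨a1, a2⟩ | ⟨l, r, a1, a2, a3, a4⟩
      · rcases cls k' t' ht' with ⟨b1, b2⟩ | ⟨l', r', b1, b2, b3, b4⟩
        · rw [a2, b2] at heq
          have hidx : KNT.idx n k = KNT.idx n k' := by
            by_contra hne
            exact hAdm.vv _ _ hne _ _ (e8 k t a1) (e8 k' t' b1) (meetV _ _ _ _ heq)
          obtain ⟨m, hm⟩ := KNT.idx_eq hidx
          have hek : KNT.ek c k' = KNT.ek c k := by unfold KNT.ek; rw [hidx]
          rw [← hidx, hek] at heq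
          have hu : KNT.ek c k * (8 * t) = KNT.ek c k * (8 * t') := by
            have hwi := hw (KNT.idx n k)
            have hm2 := meetV _ _ _ _ heq
            rw [Meet, KNT.vp_eq, KNT.vp_eq] at hm2
            refine (hP (KNT.idx n k)).inj 0 (mem_univ _) _ _ (e8 k t a1) ?_ ?_ ?_
            · have := e8 k' t' b1; rwa [hek] at this
            · have h1 := hm2.1
              have h2 : w (KNT.idx n k) * (sh.st (c.ty (KNT.idx n k))).X 0 (KNT.ek c k * (8 * t)) =
                w (KNT.idx n k) * (sh.st (c.ty (KNT.idx n k))).X 0 (KNT.ek c k * (8 * t')) := by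
                  linarith
              exact mul_left_cancel₀ hwi.ne' h2
            · have h1 := hm2.2.1
              have h2 : c.dl Q (KNT.idx n k) * sh.τ (KNT.ek c k * (8 * t)) =
                c.dl Q (KNT.idx n k) * sh.τ (KNT.ek c k * (8 * t')) := by
                  simp only at h1; linarith
              exact h2
          have ht2 : t = t' := by
            rcases KNT.ek_sq c k with h | h <;> rw [h] at hu <;> (first | linarith only [hu] | linarith)
          refine ⟨m, ?_⟩
          rw [hm, ht2]; push_cast; ring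
        · exfalso
          rw [a2, b4] at heq
          obtain ⟨c1, c2⟩ := hDr l' r' b1 b2
          exact KNT.no_ve sh c w Q hC hw hlen hB hV hAdm.ve _ _ (e8 k t a1) l' _ c1 c2 heq
      · rcases cls k' t' ht' with ⟨b1, b2⟩ | ⟨l', r', b1, b2, b3, b4⟩
        · exfalso
          rw [b2, a4] at heq
          obtain ⟨c1, c2⟩ := hDr l r a1 a2
          exact KNT.no_ve sh c w Q hC hw hlen hB hV hAdm.ve _ _ (e8 k' t' b1) l _ c1 c2 heq.symm
        · rw [a4, b4] at heq
          obtain ⟨c1, c2⟩ := hDr l r a1 a2
          obtain ⟨d1, d2⟩ := hDr l' r' b1 b2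
          have hidx : KNT.idx n l = KNT.idx n l' := by
            by_contra hne
            exact hAdm.ee _ _ hne _ ((KNT.rg_iff c w Q hC hlen l _).2 ⟨c1.le, c2.le⟩) _
              ((KNT.rg_iff c w Q hC hlen l' _).2 ⟨d1.le, d2.le⟩) (meetE _ _ _ _ heq)
          obtain ⟨m, hm⟩ := KNT.idx_eq hidx
          have hx := (meetE _ _ _ _ heq).1
          simp only [Comb.ept] at hx
          have g1 : KNT.xk Q l' = KNT.xk Q l := by unfold KNT.xk; rw [hidx]
          have g2 : KNT.sk c l' = KNT.sk c l := by unfold KNT.sk; rw [hidx]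
          have g3 : KNT.Dk sh c w Q l' = KNT.Dk sh c w Q l := by
            funext t
            unfold KNT.Dk KNT.wk KNT.Ln
            rw [KNT.idx_succ, KNT.idx_succ, hidx]
          rw [g1, g2, g3] at hx
          have hr : r = r' := by
            apply (hD l).injective
            rcases KNT.sk_sq c l with h | h <;> rw [h] at hx <;> (first | linarith only [hx] | linarith)
          refine ⟨m, ?_⟩
          rw [← b3, ← a3, hm, hr]; push_cast; ring)
  refine ⟨Λ, ?_⟩
  ext r
  rw [hΛ r, KNT.mem_knot]
  constructor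
  · rintro ⟨k, t, ht, rfl⟩
    rcases cls k t ht with ⟨a1, a2⟩ | ⟨l, r, a1, a2, a3, a4⟩
    · exact Or.inr ⟨_, _, e8 k t a1, a2⟩
    · obtain ⟨c1, c2⟩ := hDr l r a1 a2
      exact Or.inl ⟨_, _, (KNT.rg_iff c w Q hC hlen l _).2 ⟨c1.le, c2.le⟩, a4⟩
  · rintro (⟨e, x, hx, rfl⟩ | ⟨i, u, hu, rfl⟩)
    · obtain ⟨k, rfl⟩ := KNT.idx_surj e
      -- the distance
      obtain ⟨d, rfl⟩ : ∃ d, x = KNT.xk Q k + KNT.sk c k * d := by
        refine ⟨KNT.sk c k * (x - KNT.xk Q k), ?_⟩
        rcases KNT.sk_sq c k with h | h <;> rw [h] <;> ring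
      rw [KNT.rg_iff c w Q hC hlen k d, ← KNT.Dk_quarter sh c w Q k,
        ← KNT.Dk_three sh c w Q k] at hx
      have hcont : ContinuousOn (KNT.Dk sh c w Q k) (Icc (1 / 4) (3 / 4)) :=
        (KNT.D_smooth sh _ _ _).continuous.continuousOn
      obtain ⟨t, ht, htd⟩ := intermediate_value_Icc (by norm_num) hcont hx
      rcases le_or_gt t (1 / 2) with h | h
      · refine ⟨k, t, by rw [abs_le]; constructor <;> linarith [ht.1], ?_⟩
        rw [KNT.Gk_edge sh c w Q hVLN hV hB hC hw hlen hL k t ht.1, htd]
      · refine ⟨k + 1, t - 1, by rw [abs_le]; constructor <;> linarith [ht.2], ?_⟩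
        rw [KNT.Gk_edge' sh c w Q hVLN hV hB hC hw hlen hL k t ht.2, htd]
    · obtain ⟨k, rfl⟩ := KNT.idx_surj i
      have hek : KNT.ek c k * KNT.ek c k = 1 := by
        rcases KNT.ek_sq c k with h | h <;> rw [h] <;> norm_num
      have h4 : |KNT.ek c k * u / 8| ≤ 1 / 4 := by
        rw [abs_le] at hu ⊢
        rcases KNT.ek_sq c k with h | h <;> rw [h] <;> constructor <;> linarith
      refine ⟨k, KNT.ek c k * u / 8, h4.trans (by norm_num), ?_⟩
      rw [KNT.Gk_mid sh c w Q hw k _ h4]
      congr 1
      have : KNT.ek c k * (8 * (KNT.ek c k * u / 8)) = (KNT.ek c k * KNT.ek c k) * u := by ring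
      rw [this, hek, one_mul]

end LCA


end

section

/-!
# The knot `J` (task T_J), third part: the knot of a grid polygon is a knot along a lattice path
-/

namespace LHE

open Set LG LH LCA
open scoped ContDiff

/-! ### the parametrisation -/

/-- The parametrisation of the knot of a cyclic polygon: the vertex `k` is at the parameter
`k / n`. -/
def Prm {n : ℕ} [NeZero n] (Λ : LC.LegKnot) (sh : Shape) (c : Comb n n) (w : Fin n → ℝ)
    (Q : St n) : Prop :=
  ∀ (k : ℤ) (t : ℝ), |t| ≤ 3 / 4 → Λ.γ ((k + t) / n) = KNT.Gk sh c w Q k t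

/-- KNP: the knot of a cyclic polygon with its parametrisation. -/
def Stmt_KNP : Prop :=
  Stmt_PST → Stmt_CER → Stmt_VLN → Stmt_PIN →
  ∀ {n : ℕ} [NeZero n] (sh : Shape) (c : Comb n n) (w : Fin n → ℝ) (Q : St n), c.Valid → c.Cyc →
    (∀ i, 0 < w i) → c.Cert w Q (0, Q.2) →
    (∀ e, 6 * (w (c.lf e) + w (c.rt e)) < Q.1 (c.rt e) - Q.1 (c.lf e)) →
    ∃ Λ : LC.LegKnot, Λ.carrier = c.knot sh w Q ∧ Prm Λ sh c w Q

/-- A shape with a strictly monotone tip which is not too long. -/
structure SHok (sh : Shape) : Prop where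
  h0 : 0 ≤ sh.ξ 0
  h1 : sh.ξ 0 ≤ 3 / 4
  d : ∀ u, 0 < u → deriv sh.ξ u < 0

/-- SHX: such a shape exists. -/
def Stmt_SHX : Prop := ∃ sh : Shape, SHok sh

/-- The data of a grid polygon: the vertex `k` is at `(X₀ M k, X₀ P₀ Z k)`, the edge `k` goes in
the direction `σ k`, has the slope `P₀ p k` and the length `X₀ ℓ k`. -/
structure Cfg {n : ℕ} [NeZero n] (c : Comb n n) (w : Fin n → ℝ) (Q : St n) (X₀ P₀ w₀ : ℝ)
    (M Z σ p ℓ : ℤ → ℤ) : Prop where
  valid : c.Valid
  cyc : c.Cyc
  len : ∀ e, Q.1 (c.lf e) < Q.1 (c.rt e)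
  X0 : 0 < X₀
  P0 : 0 < P₀
  w0 : 0 < w₀
  wX : 100 * w₀ ≤ X₀
  w : ∀ i, w i = w₀
  pos : ∀ k : ℤ, Q.1 (KNT.idx n k) = X₀ * M k
  hgt : ∀ k : ℤ, Q.2 (KNT.idx n k) = X₀ * P₀ * Z k
  s1 : ∀ k, σ k = 1 ∨ σ k = -1
  p1 : ∀ k, p k = 1 ∨ p k = -1
  l1 : ∀ k, 1 ≤ ℓ k
  M1 : ∀ k, M (k + 1) = M k + σ k * ℓ k
  Z1 : ∀ k, Z (k + 1) = Z k + σ k * p k * ℓ k
  alt : ∀ k, p (k - 1) ≠ p k

/-- The profile of `x` at the vertex `k`, in the direction of the path. -/
noncomputable def chi (sh : Shape) (σ : ℤ → ℤ) (k : ℤ) (U : ℝ) : ℝ :=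
  if σ (k - 1) = σ k then (σ k : ℝ) * U else -(σ k : ℝ) * sh.ξ U

/-- VXF: the curve near the vertex `k` in terms of the path. -/
def P_VXF : Prop :=
  ∀ {n : ℕ} [NeZero n] (sh : Shape) (c : Comb n n) (w : Fin n → ℝ) (Q : St n) (X₀ P₀ w₀ : ℝ)
    (M Z σ p ℓ : ℤ → ℤ), Cfg c w Q X₀ P₀ w₀ M Z σ p ℓ → ∀ (k : ℤ) (U : ℝ), ∃ Ψ : ℝ,
      KNT.Ak sh c w Q k U = (X₀ * M k + w₀ * chi sh σ k U,
        P₀ * (p (k - 1) + ((p k : ℝ) - p (k - 1)) * sh.τ U),
        X₀ * P₀ * Z k + P₀ * p (k - 1) * (w₀ * chi sh σ k U) +
          w₀ * P₀ * ((p k : ℝ) - p (k - 1)) * Ψ) ∧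
      (U ≤ -1 → Ψ = 0) ∧ (1 ≤ U → Ψ = chi sh σ k U) ∧ (|U| ≤ 1 → |Ψ| ≤ 3)

/-- VXF -/
def Stmt_VXF : Prop := P_VXF

/-- VXU: the function `Uk`. -/
def P_VXU : Prop :=
  ∀ {n : ℕ} [NeZero n] (sh : Shape) (c : Comb n n) (w : Fin n → ℝ) (Q : St n) (X₀ P₀ w₀ : ℝ)
    (M Z σ p ℓ : ℤ → ℤ), Cfg c w Q X₀ P₀ w₀ M Z σ p ℓ → ∀ k : ℤ,
      KNT.Uk sh c w Q k 0 = 0 ∧
      (∀ t, ∃ d : ℝ, 0 < d ∧ HasDerivAt (KNT.Uk sh c w Q k) d t) ∧
      (∀ t, 0 ≤ t → t ≤ 3 / 4 → KNT.Uk sh c w Q k t ≤ (X₀ * ℓ k - w₀) / w₀) ∧
      ∀ t, -(3 / 4) ≤ t → t ≤ 0 → -((X₀ * ℓ (k - 1) - w₀) / w₀) ≤ KNT.Uk sh c w Q k t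

/-- VXU -/
def Stmt_VXU : Prop := P_VXU

/-- A knot along a grid polygon; the vertex `k` is at the parameter `k / n`. -/
structure VtS (Λ : LC.LegKnot) (X₀ P₀ w : ℝ) (n : ℕ) (M Z σ p : ℤ → ℤ) : Prop where
  n0 : 0 < n
  X0 : 0 < X₀
  P0 : 0 < P₀
  w0 : 0 < w
  wX : 100 * w ≤ X₀
  dx : ∀ k : ℤ, ∀ u ∈ Ioo ((k : ℝ) / n) (((k : ℝ) + 1) / n), 0 < (σ k : ℝ) * deriv Λ.x u
  vx : ∀ k : ℤ, σ (k - 1) = σ k → Λ.x (k / n) = X₀ * M k ∧ 0 < (σ k : ℝ) * deriv Λ.x (k / n)
  tx : ∀ k : ℤ, σ (k - 1) ≠ σ k → (σ k : ℝ) * Λ.x (k / n) ≤ σ k * (X₀ * M k)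
  tb : ∀ k : ℤ, |Λ.x (k / n) - X₀ * M k| ≤ 3 / 4 * w
  zi : ∀ k : ℤ, ∀ u ∈ Icc ((k : ℝ) / n) (((k : ℝ) + 1) / n),
    w ≤ (σ k : ℝ) * (Λ.x u - X₀ * M k) → w ≤ (σ k : ℝ) * (X₀ * M (k + 1) - Λ.x u) →
    ∀ t, TL Λ u t = X₀ * P₀ * Z k + P₀ * p k * (t - X₀ * M k)
  zb : ∀ k : ℤ, ∀ u ∈ Icc (((k : ℝ) - 1) / n) (((k : ℝ) + 1) / n),
    |Λ.x u - X₀ * M k| ≤ 3 / 4 * X₀ → ∀ t, |t - X₀ * M k| ≤ 51 / 100 * X₀ →
    |TL Λ u t - X₀ * P₀ * Z k| ≤ 5 / 8 * (X₀ * P₀)
  ym : ∀ k : ℤ, σ (k - 1) ≠ σ k → ∀ u ∈ Ioo (((k : ℝ) - 1) / n) (((k : ℝ) + 1) / n),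
    |Λ.x u - X₀ * M k| ≤ 3 / 4 * X₀ → 0 ≤ ((p k : ℝ) - p (k - 1)) * deriv Λ.y u
  yt : ∀ k : ℤ, σ (k - 1) ≠ σ k → ∀ u ∈ Ioo (((k : ℝ) - 1) / n) (((k : ℝ) + 1) / n),
    (σ k : ℝ) * (Λ.x u - X₀ * M k) < w → deriv Λ.y u ≠ 0

/-- VXX: the part of `VtS` about `x`. -/
def P_VXX : Prop :=
  ∀ {n : ℕ} [NeZero n] (Λ : LC.LegKnot) (sh : Shape) (c : Comb n n) (w : Fin n → ℝ) (Q : St n)
    (X₀ P₀ w₀ : ℝ) (M Z σ p ℓ : ℤ → ℤ), Cfg c w Q X₀ P₀ w₀ M Z σ p ℓ → Prm Λ sh c w Q →
    SHok sh →
    (∀ k : ℤ, ∀ u ∈ Ioo ((k : ℝ) / n) (((k : ℝ) + 1) / n), 0 < (σ k : ℝ) * deriv Λ.x u) ∧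
    (∀ k : ℤ, σ (k - 1) = σ k → Λ.x (k / n) = X₀ * M k ∧ 0 < (σ k : ℝ) * deriv Λ.x (k / n)) ∧
    (∀ k : ℤ, σ (k - 1) ≠ σ k → (σ k : ℝ) * Λ.x (k / n) ≤ σ k * (X₀ * M k)) ∧
    ∀ k : ℤ, |Λ.x (k / n) - X₀ * M k| ≤ 3 / 4 * w₀

/-- VXX -/
def Stmt_VXX : Prop := P_VXF → P_VXU → P_VXX

/-- VXT: the part of `VtS` about the tangent lines. -/
def P_VXT : Prop :=
  ∀ {n : ℕ} [NeZero n] (Λ : LC.LegKnot) (sh : Shape) (c : Comb n n) (w : Fin n → ℝ) (Q : St n)
    (X₀ P₀ w₀ : ℝ) (M Z σ p ℓ : ℤ → ℤ), Cfg c w Q X₀ P₀ w₀ M Z σ p ℓ → Prm Λ sh c w Q →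
    SHok sh →
    (∀ k : ℤ, ∀ u ∈ Icc ((k : ℝ) / n) (((k : ℝ) + 1) / n),
      w₀ ≤ (σ k : ℝ) * (Λ.x u - X₀ * M k) → w₀ ≤ (σ k : ℝ) * (X₀ * M (k + 1) - Λ.x u) →
      ∀ t, TL Λ u t = X₀ * P₀ * Z k + P₀ * p k * (t - X₀ * M k)) ∧
    ∀ k : ℤ, ∀ u ∈ Icc (((k : ℝ) - 1) / n) (((k : ℝ) + 1) / n),
      |Λ.x u - X₀ * M k| ≤ 3 / 4 * X₀ → ∀ t, |t - X₀ * M k| ≤ 51 / 100 * X₀ →
      |TL Λ u t - X₀ * P₀ * Z k| ≤ 5 / 8 * (X₀ * P₀)

/-- VXT -/
def Stmt_VXT : Prop := P_VXF → P_VXU → P_VXX → P_VXT

/-- VXY: the part of `VtS` about the derivative of `y`. -/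
def P_VXY : Prop :=
  ∀ {n : ℕ} [NeZero n] (Λ : LC.LegKnot) (sh : Shape) (c : Comb n n) (w : Fin n → ℝ) (Q : St n)
    (X₀ P₀ w₀ : ℝ) (M Z σ p ℓ : ℤ → ℤ), Cfg c w Q X₀ P₀ w₀ M Z σ p ℓ → Prm Λ sh c w Q →
    SHok sh →
    (∀ k : ℤ, σ (k - 1) ≠ σ k → ∀ u ∈ Ioo (((k : ℝ) - 1) / n) (((k : ℝ) + 1) / n),
      |Λ.x u - X₀ * M k| ≤ 3 / 4 * X₀ → 0 ≤ ((p k : ℝ) - p (k - 1)) * deriv Λ.y u) ∧
    ∀ k : ℤ, σ (k - 1) ≠ σ k → ∀ u ∈ Ioo (((k : ℝ) - 1) / n) (((k : ℝ) + 1) / n),
      (σ k : ℝ) * (Λ.x u - X₀ * M k) < w₀ → deriv Λ.y u ≠ 0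

/-- VXY -/
def Stmt_VXY : Prop := P_VXF → P_VXU → P_VXX → P_VXY

/-- The vertices of the polygon are points of the lattice path: the vertex `k` is the point
`jx k`. -/
structure Ver (n L : ℕ) (M Z σ p ℓ m z jx : ℤ → ℤ) : Prop where
  jp : ∀ k, jx (k + n) = jx k + L
  js : ∀ k, jx (k + 1) = jx k + ℓ k
  l1 : ∀ k, 1 ≤ ℓ k
  s1 : ∀ k, σ k = 1 ∨ σ k = -1
  p1 : ∀ k, p k = 1 ∨ p k = -1
  alt : ∀ k, p (k - 1) ≠ p k
  mp : ∀ i, m (i + L) = m i
  mm : ∀ k d, 0 ≤ d → d ≤ ℓ k → m (jx k + d) = M k + σ k * d
  zz : ∀ k d, 0 ≤ d → d ≤ ℓ k → z (jx k + d) = Z k + σ k * p k * d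

/-- VLS: a knot along a grid polygon is a knot along the lattice path. -/
def P_VLS : Prop :=
  ∀ (Λ : LC.LegKnot) (X₀ P₀ w : ℝ) (n L : ℕ) (M Z σ p ℓ m z jx : ℤ → ℤ), 0 < L →
    VtS Λ X₀ P₀ w n M Z σ p → Ver n L M Z σ p ℓ m z jx → ∃ ν, LatS Λ X₀ P₀ w L m z ν

/-- VLS -/
def Stmt_VLS : Prop := P_VLS

end LHE


end

section

/-!
# The curve near a vertex in terms of the path
-/

namespace LHE

open Set LG LH LCA
open scoped ContDiff

namespace VXF

variable {n : ℕ} [NeZero n] {c : Comb n n} {w : Fin n → ℝ} {Q : St n} {X₀ P₀ w₀ : ℝ}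
  {M Z σ p ℓ : ℤ → ℤ}

theorem dM (C : Cfg c w Q X₀ P₀ w₀ M Z σ p ℓ) (k : ℤ) :
    (M (k + 1) : ℝ) - M k = σ k * ℓ k := by
  have h := C.M1 k
  rw [h]
  push_cast
  ring

theorem dZ (C : Cfg c w Q X₀ P₀ w₀ M Z σ p ℓ) (k : ℤ) :
    (Z (k + 1) : ℝ) - Z k = σ k * p k * ℓ k := by
  have h := C.Z1 k
  rw [h]
  push_cast
  ring

theorem lpos (C : Cfg c w Q X₀ P₀ w₀ M Z σ p ℓ) (k : ℤ) : (1 : ℝ) ≤ ℓ k := by
  exact_mod_cast C.l1 k

/-- The direction of the edge `k`. -/
theorem dir (C : Cfg c w Q X₀ P₀ w₀ M Z σ p ℓ) (k : ℤ) :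
    (σ k = 1 ∧ c.lf (KNT.idx n k) = KNT.idx n k ∧ c.rt (KNT.idx n k) = KNT.idx n (k + 1)) ∨
      (σ k = -1 ∧ c.lf (KNT.idx n k) = KNT.idx n (k + 1) ∧
        c.rt (KNT.idx n k) = KNT.idx n k) := by
  have hl := C.len (KNT.idx n k)
  have hM := dM C k
  have hL := lpos C k
  have hX := C.X0
  rcases KNT.cyc_edge c C.cyc k with ⟨h1, h2⟩ | ⟨h1, h2⟩
  · left
    refine ⟨?_, h1, h2⟩
    rcases C.s1 k with h | h
    · exact h
    · exfalso
      rw [h1, h2, C.pos, C.pos] at hl
      rw [h] at hM
      push_cast at hM
      nlinarith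
  · right
    refine ⟨?_, h1, h2⟩
    rcases C.s1 k with h | h
    · exfalso
      rw [h1, h2, C.pos, C.pos] at hl
      rw [h] at hM
      push_cast at hM
      nlinarith
    · exact h

/-- The slope of the edge `k`. -/
theorem slope (C : Cfg c w Q X₀ P₀ w₀ M Z σ p ℓ) (k : ℤ) :
    c.pe Q (KNT.idx n k) = P₀ * p k := by
  have hM := dM C k
  have hZ := dZ C k
  have hL := lpos C k
  have hX := C.X0
  unfold Comb.pe
  rcases dir C k with ⟨h, h1, h2⟩ | ⟨h, h1, h2⟩
  · rw [h1, h2, C.pos, C.pos, C.hgt, C.hgt]
    rw [h] at hM hZ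
    push_cast at hM hZ
    have e1 : X₀ * (M (k + 1) : ℝ) - X₀ * M k = X₀ * ℓ k := by linear_combination X₀ * hM
    have e2 : X₀ * P₀ * (Z (k + 1) : ℝ) - X₀ * P₀ * Z k = X₀ * P₀ * (p k * ℓ k) := by
      linear_combination X₀ * P₀ * hZ
    rw [e1, e2]
    have : X₀ * (ℓ k : ℝ) ≠ 0 := by positivity
    field_simp
  · rw [h1, h2, C.pos, C.pos, C.hgt, C.hgt]
    rw [h] at hM hZ
    push_cast at hM hZ
    have e1 : X₀ * (M k : ℝ) - X₀ * M (k + 1) = X₀ * ℓ k := by linear_combination -X₀ * hM
    have e2 : X₀ * P₀ * (Z k : ℝ) - X₀ * P₀ * Z (k + 1) = X₀ * P₀ * (p k * ℓ k) := by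
      linear_combination -(X₀ * P₀) * hZ
    rw [e1, e2]
    have : X₀ * (ℓ k : ℝ) ≠ 0 := by positivity
    field_simp

/-- The line of an edge passes through its ends. -/
theorem line (C : Cfg c w Q X₀ P₀ w₀ M Z σ p ℓ) (e i : Fin n) (h : c.lf e = i ∨ c.rt e = i) :
    c.pe Q e * Q.1 i + c.ae Q e = Q.2 i := by
  have hl := C.len e
  have hne : Q.1 (c.rt e) - Q.1 (c.lf e) ≠ 0 := by linarith
  have h0 : c.pe Q e * (Q.1 (c.rt e) - Q.1 (c.lf e)) = Q.2 (c.rt e) - Q.2 (c.lf e) := by
    unfold Comb.pe
    field_simp
  unfold Comb.ae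
  rcases h with h | h
  · subst h
    ring
  · subst h
    linear_combination h0

theorem abs_le_three {a b : ℝ} (ha : |a| ≤ 1) (hb : |b| ≤ 2) : |a - b| ≤ 3 := by
  rw [abs_le] at ha hb ⊢
  constructor <;> linarith

/-- The form of the point. -/
theorem Ak_eq (sh : Shape) (C : Cfg c w Q X₀ P₀ w₀ M Z σ p ℓ) (k : ℤ) (U X Θ : ℝ)
    (hX : (sh.st (c.ty (KNT.idx n k))).X 0 (KNT.ek c k * U) = X)
    (hΘ : (sh.st (c.ty (KNT.idx n k))).Θ 0 (KNT.ek c k * U) = Θ) (a b : ℤ)
    (ha : c.ea (KNT.idx n k) = KNT.idx n a) (hb : c.eb (KNT.idx n k) = KNT.idx n b)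
    (hl : c.lf (c.ea (KNT.idx n k)) = KNT.idx n k ∨ c.rt (c.ea (KNT.idx n k)) = KNT.idx n k) :
    KNT.Ak sh c w Q k U = (X₀ * M k + w₀ * X, P₀ * p a + (P₀ * p b - P₀ * p a) *
      sh.τ (KNT.ek c k * U), X₀ * P₀ * Z k + P₀ * p a * (w₀ * X) +
        w₀ * (P₀ * p b - P₀ * p a) * Θ) := by
  have h1 := line C _ _ hl
  have e1 := slope C a
  have e2 := slope C b
  unfold KNT.Ak KNT.Vc
  rw [KNT.vp_eq, hX, hΘ]
  unfold KNT.prj Comb.dl
  rw [C.w, C.pos]
  rw [C.hgt, C.pos] at h1
  rw [ha, hb, e1, e2]
  rw [ha, e1] at h1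
  refine Prod.ext rfl (Prod.ext rfl ?_)
  simp only
  linear_combination h1

end VXF

open _root_.LHE.VXF in
theorem t_VXF : Stmt_VXF := by
  intro n _ sh c w Q X₀ P₀ w₀ M Z σ p ℓ C k U
  have hv := C.valid
  have oa := hv.oka (KNT.idx n k)
  have ob := hv.okb (KNT.idx n k)
  have d1 := dir C k
  have d0 := dir C (k - 1)
  rw [sub_add_cancel] at d0
  have ne0 := KNT.lf_ne c Q C.len (KNT.idx n k)
  have ne1 := KNT.lf_ne c Q C.len (KNT.idx n (k - 1))
  have hne := hv.ne (KNT.idx n k)
  rcases KNT.cyc_vert c C.cyc k with ⟨ea, eb⟩ | ⟨ea, eb⟩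
  · -- the outgoing edge is `eb`
    have hek : KNT.ek c k = 1 := by
      unfold KNT.ek
      rw [if_pos eb]
    unfold Comb.OKa at oa
    unfold Comb.OKb at ob
    rw [ea] at oa
    rw [eb] at ob
    cases hty : c.ty (KNT.idx n k) with
    | P =>
      simp only [hty] at oa ob
      have s0 : σ (k - 1) = 1 := by
        rcases d0 with ⟨h, -, -⟩ | ⟨-, h, h'⟩
        · exact h
        · exact absurd (h.trans oa.symm) ne1
      have s1 : σ k = 1 := by
        rcases d1 with ⟨h, -, -⟩ | ⟨-, h, h'⟩
        · exact h
        · exact absurd (ob.trans h'.symm) ne0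
      have hchi : chi sh σ k U = U := by
        unfold chi
        rw [if_pos (by rw [s0, s1]), s1]
        push_cast
        ring
      refine ⟨sh.ΘP U, ?_, ?_, ?_, ?_⟩
      · rw [Ak_eq sh C k U U (sh.ΘP U) (by rw [hty, hek, one_mul]; rfl)
          (by rw [hty, hek, one_mul]; rfl) (k - 1) k ea eb (Or.inr (by rw [ea]; exact oa)), hchi,
          hek, one_mul]
        refine Prod.ext rfl (Prod.ext ?_ ?_) <;> simp only <;> ring
      · exact sh.ΘP_low U
      · intro h
        rw [hchi]
        exact sh.ΘP_high U h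
      · intro h
        have := sh.ΘP_bd U (by linarith)
        linarith
    | R =>
      simp only [hty] at oa ob
      have s0 : σ (k - 1) = 1 := by
        rcases d0 with ⟨h, -, -⟩ | ⟨-, h, h'⟩
        · exact h
        · exact absurd (h.trans oa.symm) ne1
      have s1 : σ k = -1 := by
        rcases d1 with ⟨-, h, h'⟩ | ⟨h, -, -⟩
        · exact absurd (h.trans ob.symm) ne0
        · exact h
      have hchi : chi sh σ k U = sh.ξ U := by
        unfold chi
        rw [if_neg (by rw [s0, s1]; norm_num), s1]
        push_cast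
        ring
      refine ⟨sh.ΘR U, ?_, ?_, ?_, ?_⟩
      · rw [Ak_eq sh C k U (sh.ξ U) (sh.ΘR U) (by rw [hty, hek, one_mul]; rfl)
          (by rw [hty, hek, one_mul]; rfl) (k - 1) k ea eb (Or.inr (by rw [ea]; exact oa)), hchi,
          hek, one_mul]
        refine Prod.ext rfl (Prod.ext ?_ ?_) <;> simp only <;> ring
      · exact sh.ΘR_low U
      · intro h
        rw [hchi, sh.ΘR_high U h, sh.ξ_out U (by rw [abs_of_nonneg (by linarith)]; exact h),
          abs_of_nonneg (by linarith)]
      · intro h
        have := sh.ΘR_bd U (by linarith)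
        linarith
    | L =>
      simp only [hty] at oa ob
      have s0 : σ (k - 1) = -1 := by
        rcases d0 with ⟨-, h, h'⟩ | ⟨h, -, -⟩
        · exact absurd (oa.trans h'.symm) ne1
        · exact h
      have s1 : σ k = 1 := by
        rcases d1 with ⟨h, -, -⟩ | ⟨-, h, h'⟩
        · exact h
        · exact absurd (ob.trans h'.symm) ne0
      have hchi : chi sh σ k U = -sh.ξ U := by
        unfold chi
        rw [if_neg (by rw [s0, s1]; norm_num), s1]
        push_cast
        ring
      refine ⟨-sh.ΘR U, ?_, ?_, ?_, ?_⟩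
      · rw [Ak_eq sh C k U (-sh.ξ U) (-sh.ΘR U) (by rw [hty, hek, one_mul]; rfl)
          (by rw [hty, hek, one_mul]; rfl) (k - 1) k ea eb (Or.inl (by rw [ea]; exact oa)), hchi,
          hek, one_mul]
        refine Prod.ext rfl (Prod.ext ?_ ?_) <;> simp only <;> ring
      · intro h
        rw [sh.ΘR_low U h, neg_zero]
      · intro h
        rw [hchi, sh.ΘR_high U h, sh.ξ_out U (by rw [abs_of_nonneg (by linarith)]; exact h),
          abs_of_nonneg (by linarith)]
      · intro h
        have := sh.ΘR_bd U (by linarith)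
        rw [abs_neg]
        linarith
  · -- the outgoing edge is `ea`
    have hek : KNT.ek c k = -1 := by
      unfold KNT.ek
      rw [if_neg]
      intro h
      exact hne (by rw [h, ea])
    unfold Comb.OKa at oa
    unfold Comb.OKb at ob
    rw [ea] at oa
    rw [eb] at ob
    have hτ := sh.τ_symm U
    cases hty : c.ty (KNT.idx n k) with
    | P =>
      simp only [hty] at oa ob
      have s1 : σ k = -1 := by
        rcases d1 with ⟨-, h, h'⟩ | ⟨h, -, -⟩
        · exact absurd (h.trans oa.symm) ne0
        · exact h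
      have s0 : σ (k - 1) = -1 := by
        rcases d0 with ⟨-, h, h'⟩ | ⟨h, -, -⟩
        · exact absurd (ob.trans h'.symm) ne1
        · exact h
      have hchi : chi sh σ k U = -U := by
        unfold chi
        rw [if_pos (by rw [s0, s1]), s1]
        push_cast
        ring
      refine ⟨-U - sh.ΘP (-U), ?_, ?_, ?_, ?_⟩
      · rw [Ak_eq sh C k U (-U) (sh.ΘP (-U)) (by rw [hty, hek, neg_one_mul]; rfl)
          (by rw [hty, hek, neg_one_mul]; rfl) k (k - 1) ea eb (Or.inr (by rw [ea]; exact oa)),
          hchi, hek, neg_one_mul, hτ]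
        refine Prod.ext rfl (Prod.ext ?_ ?_) <;> simp only <;> ring
      · intro h
        rw [sh.ΘP_high (-U) (by linarith), sub_self]
      · intro h
        rw [hchi, sh.ΘP_low (-U) (by linarith), sub_zero]
      · intro h
        exact abs_le_three (by rwa [abs_neg]) (sh.ΘP_bd _ (by rw [abs_neg]; linarith))
    | R =>
      simp only [hty] at oa ob
      have s1 : σ k = -1 := by
        rcases d1 with ⟨-, h, h'⟩ | ⟨h, -, -⟩
        · exact absurd (h.trans oa.symm) ne0
        · exact h
      have s0 : σ (k - 1) = 1 := by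
        rcases d0 with ⟨h, -, -⟩ | ⟨-, h, h'⟩
        · exact h
        · exact absurd (h.trans ob.symm) ne1
      have hchi : chi sh σ k U = sh.ξ U := by
        unfold chi
        rw [if_neg (by rw [s0, s1]; norm_num), s1]
        push_cast
        ring
      refine ⟨sh.ξ U - sh.ΘR (-U), ?_, ?_, ?_, ?_⟩
      · rw [Ak_eq sh C k U (sh.ξ U) (sh.ΘR (-U))
          (by rw [hty, hek, neg_one_mul]; exact sh.ξ_even U)
          (by rw [hty, hek, neg_one_mul]; rfl) k (k - 1) ea eb (Or.inr (by rw [ea]; exact oa)),
          hchi, hek, neg_one_mul, hτ]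
        refine Prod.ext rfl (Prod.ext ?_ ?_) <;> simp only <;> ring
      · intro h
        rw [sh.ΘR_high (-U) (by linarith), sh.ξ_out U (by rw [abs_of_nonpos (by linarith)]; linarith),
          abs_of_nonpos (by linarith)]
        ring
      · intro h
        rw [hchi, sh.ΘR_low (-U) (by linarith), sub_zero]
      · intro h
        exact abs_le_three (sh.ξ_in U h) (sh.ΘR_bd _ (by rw [abs_neg]; linarith))
    | L =>
      simp only [hty] at oa ob
      have s1 : σ k = 1 := by
        rcases d1 with ⟨h, -, -⟩ | ⟨-, h, h'⟩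
        · exact h
        · exact absurd (oa.trans h'.symm) ne0
      have s0 : σ (k - 1) = -1 := by
        rcases d0 with ⟨-, h, h'⟩ | ⟨h, -, -⟩
        · exact absurd (ob.trans h'.symm) ne1
        · exact h
      have hchi : chi sh σ k U = -sh.ξ U := by
        unfold chi
        rw [if_neg (by rw [s0, s1]; norm_num), s1]
        push_cast
        ring
      refine ⟨-sh.ξ U - -sh.ΘR (-U), ?_, ?_, ?_, ?_⟩
      · rw [Ak_eq sh C k U (-sh.ξ U) (-sh.ΘR (-U))
          (by rw [hty, hek, neg_one_mul]; exact congrArg Neg.neg (sh.ξ_even U))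
          (by rw [hty, hek, neg_one_mul]; rfl) k (k - 1) ea eb (Or.inl (by rw [ea]; exact oa)),
          hchi, hek, neg_one_mul, hτ]
        refine Prod.ext rfl (Prod.ext ?_ ?_) <;> simp only <;> ring
      · intro h
        rw [sh.ΘR_high (-U) (by linarith), sh.ξ_out U (by rw [abs_of_nonpos (by linarith)]; linarith),
          abs_of_nonpos (by linarith)]
        ring
      · intro h
        rw [hchi, sh.ΘR_low (-U) (by linarith), neg_zero, sub_zero]
      · intro h
        refine abs_le_three (by rw [abs_neg]; exact sh.ξ_in U h) ?_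
        rw [abs_neg]
        exact sh.ΘR_bd _ (by rw [abs_neg]; linarith)

end LHE


end

section

/-!
# VXT: the tangent lines of a knot along a grid polygon
-/

set_option autoImplicit false

namespace LHE

open Set LG LH LCA
open scoped ContDiff

namespace VXT

theorem abs_s {s : ℤ} (h : s = 1 ∨ s = -1) : |(s : ℝ)| = 1 := by
  rcases h with h | h <;> simp [h]

theorem sq_s {s : ℤ} (h : s = 1 ∨ s = -1) : (s : ℝ) * s = 1 := by
  rcases h with h | h <;> simp [h]

theorem chi_bd (sh : Shape) (σ : ℤ → ℤ) (hs : ∀ k, σ k = 1 ∨ σ k = -1) (k : ℤ) (U : ℝ) {B : ℝ}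
    (h1 : 1 ≤ B) (hU : |U| ≤ B) : |chi sh σ k U| ≤ B := by
  have h2 := abs_s (hs k)
  unfold chi
  split_ifs with h
  · rw [abs_mul, h2, one_mul]
    exact hU
  · rw [abs_mul, abs_neg, h2, one_mul]
    rcases le_total |U| 1 with h3 | h3
    · exact (sh.ξ_in U h3).trans h1
    · rw [sh.ξ_out U h3, abs_neg, abs_abs]
      exact hU

theorem xi_ge (sh : Shape) {U : ℝ} (h0 : 0 ≤ U) (h : sh.ξ U ≤ -1) : 1 ≤ U := by
  by_contra hc
  have hc : U < 1 := not_le.mp hc
  have h1 : sh.ξ 1 < sh.ξ U := sh.ξ_anti (show (0 : ℝ) ≤ U from h0) (show (0 : ℝ) ≤ 1 by norm_num) hc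
  have h2 : sh.ξ 1 = -|(1 : ℝ)| := sh.ξ_out 1 (by norm_num)
  rw [h2, abs_one] at h1
  linarith

section

variable {n : ℕ} [NeZero n] {Λ : LC.LegKnot} {sh : Shape} {c : Comb n n} {w : Fin n → ℝ}
  {Q : St n} {X₀ P₀ w₀ : ℝ} {M Z σ p ℓ : ℤ → ℤ}

theorem vert (hVXF : P_VXF) (hc : Cfg c w Q X₀ P₀ w₀ M Z σ p ℓ) (hp : Prm Λ sh c w Q) (k : ℤ)
    (t : ℝ) (ht : |t| ≤ 3 / 4) :
    ∃ Ψ : ℝ, Λ.x ((k + t) / n) = X₀ * M k + w₀ * chi sh σ k (KNT.Uk sh c w Q k t) ∧
      (∀ t' : ℝ, TL Λ ((k + t) / n) t' = X₀ * P₀ * Z k +
        P₀ * (p (k - 1) + ((p k : ℝ) - p (k - 1)) * sh.τ (KNT.Uk sh c w Q k t)) *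
          (t' - X₀ * M k) +
        w₀ * P₀ * ((p k : ℝ) - p (k - 1)) *
          (Ψ - sh.τ (KNT.Uk sh c w Q k t) * chi sh σ k (KNT.Uk sh c w Q k t))) ∧
      (KNT.Uk sh c w Q k t ≤ -1 → Ψ = 0) ∧
      (1 ≤ KNT.Uk sh c w Q k t → Ψ = chi sh σ k (KNT.Uk sh c w Q k t)) ∧
      (|KNT.Uk sh c w Q k t| ≤ 1 → |Ψ| ≤ 3) := by
  obtain ⟨Ψ, h1, h2, h3, h4⟩ := hVXF sh c w Q X₀ P₀ w₀ M Z σ p ℓ hc k (KNT.Uk sh c w Q k t)
  have h5 := hp k t ht
  unfold KNT.Gk at h5
  rw [h1] at h5
  refine ⟨Ψ, ?_, ?_, h2, h3, h4⟩
  · unfold LC.LegKnot.x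
    rw [h5]
  · intro t'
    unfold TL zz LC.LegKnot.x LC.LegKnot.y
    rw [h5]
    simp only
    ring

theorem line_out (hVXF : P_VXF) (hc : Cfg c w Q X₀ P₀ w₀ M Z σ p ℓ) (hp : Prm Λ sh c w Q) (k : ℤ)
    (t : ℝ) (ht : |t| ≤ 3 / 4) (hU : 1 ≤ KNT.Uk sh c w Q k t) (t' : ℝ) :
    TL Λ ((k + t) / n) t' = X₀ * P₀ * Z k + P₀ * p k * (t' - X₀ * M k) := by
  obtain ⟨Ψ, -, h2, -, h4, -⟩ := vert hVXF hc hp k t ht
  rw [h2 t', h4 hU, sh.τ_high _ hU]
  ring

theorem line_in (hVXF : P_VXF) (hc : Cfg c w Q X₀ P₀ w₀ M Z σ p ℓ) (hp : Prm Λ sh c w Q) (k : ℤ)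
    (t : ℝ) (ht : |t| ≤ 3 / 4) (hU : KNT.Uk sh c w Q k t ≤ -1) (t' : ℝ) :
    TL Λ ((k + t) / n) t' = X₀ * P₀ * Z k + P₀ * p (k - 1) * (t' - X₀ * M k) := by
  obtain ⟨Ψ, -, h2, h3, -, -⟩ := vert hVXF hc hp k t ht
  rw [h2 t', h3 hU, sh.τ_low _ hU]
  ring

theorem Uk_mono (hVXU : P_VXU) (sh : Shape) (hc : Cfg c w Q X₀ P₀ w₀ M Z σ p ℓ) (k : ℤ) :
    StrictMono (KNT.Uk sh c w Q k) := by
  apply strictMono_of_deriv_pos
  intro t
  obtain ⟨d, hd, h⟩ := (hVXU sh c w Q X₀ P₀ w₀ M Z σ p ℓ hc k).2.1 t
  rw [h.deriv]
  exact hd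

theorem Uk_zero (hVXU : P_VXU) (sh : Shape) (hc : Cfg c w Q X₀ P₀ w₀ M Z σ p ℓ) (k : ℤ) :
    KNT.Uk sh c w Q k 0 = 0 :=
  (hVXU sh c w Q X₀ P₀ w₀ M Z σ p ℓ hc k).1

/-- near the vertex `k` the curve is at distance at most `2 w₀` from it -/
theorem near (hVXF : P_VXF) (hc : Cfg c w Q X₀ P₀ w₀ M Z σ p ℓ) (hp : Prm Λ sh c w Q) (k : ℤ)
    (t : ℝ) (ht : |t| ≤ 1 / 4) : |Λ.x ((k + t) / n) - X₀ * M k| ≤ X₀ / 50 := by
  obtain ⟨Ψ, h1, -⟩ := vert hVXF hc hp k t (ht.trans (by norm_num))
  have hw : ∀ i, 0 < w i := fun i => by rw [hc.w i]; exact hc.w0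
  rw [h1, KNT.Uk_mid sh c w Q hw ht]
  have h2 : |chi sh σ k (8 * t)| ≤ 2 := by
    apply chi_bd sh σ hc.s1 k _ (by norm_num)
    rw [abs_mul, abs_of_pos (by norm_num : (0 : ℝ) < 8)]
    linarith only [ht]
  have h3 : X₀ * (M k : ℝ) + w₀ * chi sh σ k (8 * t) - X₀ * M k = w₀ * chi sh σ k (8 * t) := by
    ring
  rw [h3, abs_mul, abs_of_pos hc.w0]
  have h4 := hc.wX
  have h5 := hc.w0
  have h6 : w₀ * |chi sh σ k (8 * t)| ≤ w₀ * 2 := mul_le_mul_of_nonneg_left h2 h5.le
  linarith

theorem dist_ge (hc : Cfg c w Q X₀ P₀ w₀ M Z σ p ℓ) (k : ℤ) :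
    X₀ ≤ |X₀ * M (k + 1) - X₀ * M k| := by
  have h1 : X₀ * (M (k + 1) : ℝ) - X₀ * M k = X₀ * (σ k * ℓ k) := by
    rw [hc.M1 k]
    push_cast
    ring
  have h2 : (1 : ℝ) ≤ ℓ k := by exact_mod_cast hc.l1 k
  rw [h1, abs_mul, abs_mul, abs_of_pos hc.X0, abs_s (hc.s1 k), one_mul,
    abs_of_pos (by linarith : (0 : ℝ) < ℓ k)]
  have := hc.X0
  nlinarith

end

end VXT

open _root_.LHE.VXT in
theorem t_VXT : Stmt_VXT := by
  intro hVXF hVXU _ n _ Λ sh c w Q X₀ P₀ w₀ M Z σ p ℓ hc hp hsh
  have hn : (0 : ℝ) < n := by
    have := Nat.pos_of_ne_zero (NeZero.ne n)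
    exact_mod_cast this
  have hw0 := hc.w0
  have hX0 := hc.X0
  have hP0 := hc.P0
  have hwX := hc.wX
  constructor
  · intro k u hu h1 h2 t'
    obtain ⟨t, rfl⟩ : ∃ t : ℝ, u = ((k : ℝ) + t) / n := ⟨n * u - k, by field_simp; ring⟩
    have ht0 : 0 ≤ t := by
      have := hu.1
      rw [div_le_div_iff_of_pos_right hn] at this
      linarith
    have ht1 : t ≤ 1 := by
      have := hu.2
      rw [div_le_div_iff_of_pos_right hn] at this
      linarith
    rcases le_or_gt t (1 / 2) with ht | ht
    · have hta : |t| ≤ 3 / 4 := by rw [abs_of_nonneg ht0]; linarith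
      obtain ⟨Ψ, hx, -⟩ := vert hVXF hc hp k t hta
      have hU0 : 0 ≤ KNT.Uk sh c w Q k t := by
        rw [← Uk_zero hVXU sh hc k]
        exact (Uk_mono hVXU sh hc k).monotone ht0
      apply line_out hVXF hc hp k t hta
      rw [hx] at h1
      have hss := sq_s (hc.s1 k)
      have h3 : w₀ * 1 ≤ w₀ * ((σ k : ℝ) * chi sh σ k (KNT.Uk sh c w Q k t)) := by linarith
      have h4 := le_of_mul_le_mul_left h3 hw0
      unfold chi at h4
      split_ifs at h4 with hs
      · rw [← mul_assoc, hss, one_mul] at h4
        exact h4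
      · apply xi_ge sh hU0
        have h5 : (σ k : ℝ) * (-(σ k : ℝ) * sh.ξ (KNT.Uk sh c w Q k t)) =
            -((σ k : ℝ) * σ k) * sh.ξ (KNT.Uk sh c w Q k t) := by ring
        rw [h5, hss] at h4
        linarith
    · have hta : |t - 1| ≤ 3 / 4 := by rw [abs_le]; constructor <;> linarith
      obtain ⟨Ψ, hx, -⟩ := vert hVXF hc hp (k + 1) (t - 1) hta
      have hcast : (((k + 1 : ℤ) : ℝ) + (t - 1)) / n = ((k : ℝ) + t) / n := by
        push_cast
        ring
      have hU0 : KNT.Uk sh c w Q (k + 1) (t - 1) ≤ 0 := by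
        rw [← Uk_zero hVXU sh hc (k + 1)]
        exact (Uk_mono hVXU sh hc (k + 1)).monotone (by linarith)
      have hU : KNT.Uk sh c w Q (k + 1) (t - 1) ≤ -1 := by
        rw [hcast] at hx
        rw [hx] at h2
        have hss := sq_s (hc.s1 k)
        have h3 : w₀ * 1 ≤ w₀ * (-((σ k : ℝ) * chi sh σ (k + 1)
            (KNT.Uk sh c w Q (k + 1) (t - 1)))) := by linarith
        have h4 := le_of_mul_le_mul_left h3 hw0
        have hk1 : k + 1 - 1 = k := by ring
        unfold chi at h4
        rw [hk1] at h4
        split_ifs at h4 with hs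
        · rw [← hs, ← mul_assoc, hss, one_mul] at h4
          linarith
        · have hneg : σ (k + 1) = -σ k := by
            rcases hc.s1 k with e1 | e1 <;> rcases hc.s1 (k + 1) with e2 | e2
            · exact absurd (e1.trans e2.symm) hs
            · rw [e1, e2]
            · rw [e1, e2]; rfl
            · exact absurd (e1.trans e2.symm) hs
          rw [hneg] at h4
          have h5 : -((σ k : ℝ) * (-((-σ k : ℤ) : ℝ) *
              sh.ξ (KNT.Uk sh c w Q (k + 1) (t - 1)))) =
              -((σ k : ℝ) * σ k) * sh.ξ (KNT.Uk sh c w Q (k + 1) (t - 1)) := by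
            push_cast
            ring
          rw [h5, hss, ← sh.ξ_even] at h4
          have h6 := xi_ge sh (U := -KNT.Uk sh c w Q (k + 1) (t - 1)) (by linarith) (by linarith)
          linarith
      have h3 := line_in hVXF hc hp (k + 1) (t - 1) hta hU t'
      rw [hcast] at h3
      rw [h3]
      have hk1 : k + 1 - 1 = k := by ring
      rw [hk1, hc.M1 k, hc.Z1 k]
      push_cast
      ring
  · intro k u hu h1 t' h2
    obtain ⟨t, rfl⟩ : ∃ t : ℝ, u = ((k : ℝ) + t) / n := ⟨n * u - k, by field_simp; ring⟩
    have ht0 : -1 ≤ t := by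
      have := hu.1
      rw [div_le_div_iff_of_pos_right hn] at this
      linarith
    have ht1 : t ≤ 1 := by
      have := hu.2
      rw [div_le_div_iff_of_pos_right hn] at this
      linarith
    rcases le_or_gt |t| (3 / 4) with ht | ht
    · obtain ⟨Ψ, -, hT, h3, h4, h5⟩ := vert hVXF hc hp k t ht
      rw [hT t']
      set U := KNT.Uk sh c w Q k t with hU
      have hτ := sh.τ_mem U
      have hp1 := hc.p1 k
      have hp2 := hc.p1 (k - 1)
      have hΨ : |Ψ - sh.τ U * chi sh σ k U| ≤ 4 := by
        rcases le_or_gt |U| 1 with hU1 | hU1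
        · have e1 := h5 hU1
          have e2 := chi_bd sh σ hc.s1 k U le_rfl hU1
          have e3 : |sh.τ U * chi sh σ k U| ≤ 1 := by
            rw [abs_mul, abs_of_nonneg hτ.1]
            calc sh.τ U * |chi sh σ k U| ≤ 1 * 1 :=
                  mul_le_mul hτ.2 e2 (abs_nonneg _) (by norm_num)
              _ = 1 := by norm_num
          have e4 := abs_sub Ψ (sh.τ U * chi sh σ k U)
          linarith
        · rcases lt_abs.mp hU1 with h | h
          · rw [h4 h.le, sh.τ_high _ h.le, one_mul, sub_self, abs_zero]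
            norm_num
          · rw [h3 (by linarith), sh.τ_low _ (by linarith), zero_mul, sub_self, abs_zero]
            norm_num
      have hA : |(p (k - 1) : ℝ) + ((p k : ℝ) - p (k - 1)) * sh.τ U| ≤ 1 := by
        rw [abs_le]
        rcases hp1 with e1 | e1 <;> rcases hp2 with e2 | e2 <;> rw [e1, e2] <;> push_cast <;>
          constructor <;> linarith [hτ.1, hτ.2]
      have hD : |(p k : ℝ) - p (k - 1)| ≤ 2 := by
        rw [abs_le]
        rcases hp1 with e1 | e1 <;> rcases hp2 with e2 | e2 <;> rw [e1, e2] <;> push_cast <;>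
          constructor <;> norm_num
      have e1 : |P₀ * ((p (k - 1) : ℝ) + ((p k : ℝ) - p (k - 1)) * sh.τ U) * (t' - X₀ * M k)| ≤
          P₀ * 1 * (51 / 100 * X₀) := by
        rw [abs_mul, abs_mul, abs_of_pos hP0]
        exact mul_le_mul (mul_le_mul_of_nonneg_left hA hP0.le) h2 (abs_nonneg _) (by positivity)
      have e2 : |w₀ * P₀ * ((p k : ℝ) - p (k - 1)) * (Ψ - sh.τ U * chi sh σ k U)| ≤
          w₀ * P₀ * 2 * 4 := by
        rw [abs_mul, abs_mul, abs_of_pos (mul_pos hw0 hP0)]
        exact mul_le_mul (mul_le_mul_of_nonneg_left hD (by positivity)) hΨ (abs_nonneg _)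
          (by positivity)
      have e3 : 100 * w₀ * P₀ ≤ X₀ * P₀ := mul_le_mul_of_nonneg_right hwX hP0.le
      have e4 : 0 < X₀ * P₀ := mul_pos hX0 hP0
      rw [abs_le] at e1 e2 ⊢
      constructor <;> (first | linarith only [e1, e2, e3] | linarith [e1.1, e1.2, e2.1, e2.2])
    · exfalso
      rcases lt_abs.mp ht with h | h
      · have hta : |t - 1| ≤ 1 / 4 := by rw [abs_le]; constructor <;> linarith
        have h3 := near hVXF hc hp (k + 1) (t - 1) hta
        have hcast : (((k + 1 : ℤ) : ℝ) + (t - 1)) / n = ((k : ℝ) + t) / n := by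
          push_cast
          ring
        rw [hcast] at h3
        have h4 := dist_ge hc k
        have h5 : |X₀ * M (k + 1) - X₀ * M k| ≤
            |Λ.x (((k : ℝ) + t) / n) - X₀ * M k| +
              |Λ.x (((k : ℝ) + t) / n) - X₀ * M (k + 1)| := by
          have := abs_sub (Λ.x (((k : ℝ) + t) / n) - X₀ * M k)
            (Λ.x (((k : ℝ) + t) / n) - X₀ * M (k + 1))
          have e : Λ.x (((k : ℝ) + t) / n) - X₀ * M k -
              (Λ.x (((k : ℝ) + t) / n) - X₀ * M (k + 1)) = X₀ * M (k + 1) - X₀ * M k := by ring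
          rwa [e] at this
        linarith only [hw0, hwX, h1, h3, h4, h5]
      · have hta : |t + 1| ≤ 1 / 4 := by rw [abs_le]; constructor <;> linarith
        have h3 := near hVXF hc hp (k - 1) (t + 1) hta
        have hcast : (((k - 1 : ℤ) : ℝ) + (t + 1)) / n = ((k : ℝ) + t) / n := by
          push_cast
          ring
        rw [hcast] at h3
        have h4 := dist_ge hc (k - 1)
        have hk1 : k - 1 + 1 = k := by ring
        rw [hk1] at h4
        have h5 : |X₀ * M k - X₀ * M (k - 1)| ≤
            |Λ.x (((k : ℝ) + t) / n) - X₀ * M (k - 1)| +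
              |Λ.x (((k : ℝ) + t) / n) - X₀ * M k| := by
          have := abs_sub (Λ.x (((k : ℝ) + t) / n) - X₀ * M (k - 1))
            (Λ.x (((k : ℝ) + t) / n) - X₀ * M k)
          have e : Λ.x (((k : ℝ) + t) / n) - X₀ * M (k - 1) -
              (Λ.x (((k : ℝ) + t) / n) - X₀ * M k) = X₀ * M k - X₀ * M (k - 1) := by ring
          rwa [e] at this
        linarith only [hw0, hwX, h1, h3, h4, h5]

end LHE


end

section

/-!
# VXY: the derivative of `y` near the tips of a grid polygon
-/

set_option autoImplicit false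

namespace LHE

open Set LG LH LCA
open scoped ContDiff

namespace VXY

theorem xi_bd (sh : Shape) {U : ℝ} (hU : |U| ≤ 2) : |sh.ξ U| ≤ 2 := by
  rcases le_total |U| 1 with h | h
  · exact (sh.ξ_in U h).trans (by norm_num)
  · rw [sh.ξ_out U h, abs_neg, abs_abs]
    exact hU

theorem chi_bd (sh : Shape) {σ : ℤ → ℤ} (hs : ∀ k, σ k = 1 ∨ σ k = -1) (k : ℤ) {U : ℝ}
    (hU : |U| ≤ 2) : |chi sh σ k U| ≤ 2 := by
  have h1 : |((σ k : ℤ) : ℝ)| = 1 := by
    rcases hs k with h | h <;> rw [h] <;> norm_num
  unfold chi
  split_ifs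
  · rw [abs_mul, h1, one_mul]
    exact hU
  · rw [abs_mul, abs_neg, h1, one_mul]
    exact xi_bd sh hU

theorem tau_deriv_nonneg (sh : Shape) (U : ℝ) : 0 ≤ deriv sh.τ U := by
  by_cases h1 : 1 ≤ U
  · have hm : IsLocalMax sh.τ U := by
      refine Filter.Eventually.of_forall fun v => ?_
      rw [sh.τ_high U h1]
      exact (sh.τ_mem v).2
    rw [hm.deriv_eq_zero]
  · by_cases h2 : U ≤ -1
    · have hm : IsLocalMin sh.τ U := by
        refine Filter.Eventually.of_forall fun v => ?_
        rw [sh.τ_low U h2]
        exact (sh.τ_mem v).1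
      rw [hm.deriv_eq_zero]
    · exact (sh.τ_deriv U (not_le.mp h2) (not_le.mp h1)).le

section

variable {n : ℕ} [NeZero n] {Λ : LC.LegKnot} {sh : Shape} {c : Comb n n} {w : Fin n → ℝ}
  {Q : St n} {X₀ P₀ w₀ : ℝ} {M Z σ p ℓ : ℤ → ℤ}

/-- The curve near the vertex `k`. -/
theorem form (hF : P_VXF) (hc : Cfg c w Q X₀ P₀ w₀ M Z σ p ℓ) (hP : Prm Λ sh c w Q) (k : ℤ)
    (t : ℝ) (ht : |t| ≤ 3 / 4) :
    Λ.x ((k + t) / n) = X₀ * M k + w₀ * chi sh σ k (KNT.Uk sh c w Q k t) ∧
    Λ.y ((k + t) / n) = P₀ * (p (k - 1) + ((p k : ℝ) - p (k - 1)) *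
      sh.τ (KNT.Uk sh c w Q k t)) := by
  have h1 := hP k t ht
  obtain ⟨Ψ, h2, _⟩ := hF sh c w Q X₀ P₀ w₀ M Z σ p ℓ hc k (KNT.Uk sh c w Q k t)
  have h3 : Λ.γ ((k + t) / n) = _ := h1.trans h2
  constructor
  · exact congrArg (fun q : LC.R3 => q.1) h3
  · exact congrArg (fun q : LC.R3 => q.2.1) h3

/-- Close to the vertex. -/
theorem near (hF : P_VXF) (hc : Cfg c w Q X₀ P₀ w₀ M Z σ p ℓ) (hP : Prm Λ sh c w Q) (k : ℤ)
    (t : ℝ) (ht : |t| ≤ 1 / 4) : |Λ.x ((k + t) / n) - X₀ * M k| ≤ 2 * w₀ := by
  have hw : ∀ i, 0 < w i := fun i => by rw [hc.w i]; exact hc.w0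
  have h1 := (form hF hc hP k t (by linarith)).1
  have h2 := KNT.Uk_mid sh c w Q hw (k := k) ht
  rw [h2] at h1
  rw [h1]
  have h3 : |8 * t| ≤ 2 := by
    rw [abs_mul]
    have : |(8 : ℝ)| = 8 := by norm_num
    rw [this]
    linarith
  have h4 := chi_bd sh hc.s1 k h3
  have h5 : X₀ * (M k : ℝ) + w₀ * chi sh σ k (8 * t) - X₀ * M k = w₀ * chi sh σ k (8 * t) := by
    ring
  rw [h5, abs_mul, abs_of_pos hc.w0]
  nlinarith [hc.w0]

/-- The derivative of `y`. -/
theorem der (hF : P_VXF) (hU : P_VXU) (hc : Cfg c w Q X₀ P₀ w₀ M Z σ p ℓ)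
    (hP : Prm Λ sh c w Q) (k : ℤ) (t : ℝ) (ht : |t| < 3 / 4) :
    ∃ d : ℝ, 0 < d ∧ deriv Λ.y ((k + t) / n) =
      ((p k : ℝ) - p (k - 1)) * (d * deriv sh.τ (KNT.Uk sh c w Q k t)) := by
  have hn : (0 : ℝ) < n := by exact_mod_cast Nat.pos_of_ne_zero (NeZero.ne n)
  obtain ⟨d, hd, hd'⟩ := (hU sh c w Q X₀ P₀ w₀ M Z σ p ℓ hc k).2.1 t
  refine ⟨P₀ * (d * n), mul_pos hc.P0 (mul_pos hd hn), ?_⟩
  have hτ : HasDerivAt sh.τ (deriv sh.τ (KNT.Uk sh c w Q k t)) (KNT.Uk sh c w Q k t) :=
    ((sh.τ_smooth.differentiable (by norm_num)) _).hasDerivAt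
  have e1 : (n : ℝ) * ((k + t) / n) - k = t := by field_simp; ring
  have h1 : HasDerivAt (fun v : ℝ => (n : ℝ) * v - k) n ((k + t) / n) := by
    simpa using ((hasDerivAt_id ((k + t) / n : ℝ)).const_mul (n : ℝ)).sub_const (k : ℝ)
  have h2 : HasDerivAt (fun v : ℝ => KNT.Uk sh c w Q k ((n : ℝ) * v - k)) (d * n)
      ((k + t) / n) := by
    have := HasDerivAt.comp (h₂ := KNT.Uk sh c w Q k) (h := fun v : ℝ => (n : ℝ) * v - k)
      ((k + t) / n : ℝ) (h₂' := d) (h' := (n : ℝ)) (by rw [e1]; exact hd') h1
    exact this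
  have h3 : HasDerivAt (fun v : ℝ => sh.τ (KNT.Uk sh c w Q k ((n : ℝ) * v - k)))
      (deriv sh.τ (KNT.Uk sh c w Q k t) * (d * n)) ((k + t) / n) := by
    have := HasDerivAt.comp (h₂ := sh.τ)
      (h := fun v : ℝ => KNT.Uk sh c w Q k ((n : ℝ) * v - k))
      ((k + t) / n : ℝ) (h₂' := deriv sh.τ (KNT.Uk sh c w Q k t)) (h' := d * n)
      (by rw [e1]; exact hτ) h2
    exact this
  have h4 : HasDerivAt (fun v : ℝ => P₀ * ((p (k - 1) : ℝ) + ((p k : ℝ) - p (k - 1)) *
      sh.τ (KNT.Uk sh c w Q k ((n : ℝ) * v - k))))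
      (P₀ * (((p k : ℝ) - p (k - 1)) * (deriv sh.τ (KNT.Uk sh c w Q k t) * (d * n))))
      ((k + t) / n) := ((h3.const_mul _).const_add _).const_mul _
  have hev : Λ.y =ᶠ[nhds ((k + t) / n : ℝ)] (fun v : ℝ => P₀ * ((p (k - 1) : ℝ) +
      ((p k : ℝ) - p (k - 1)) * sh.τ (KNT.Uk sh c w Q k ((n : ℝ) * v - k)))) := by
    have hopen : {v : ℝ | |(n : ℝ) * v - k| < 3 / 4} ∈ nhds ((k + t) / n : ℝ) := by
      apply IsOpen.mem_nhds
      · exact isOpen_lt (by fun_prop) continuous_const
      · change |(n : ℝ) * ((k + t) / n) - k| < 3 / 4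
        rw [e1]
        exact ht
    filter_upwards [hopen] with v hv
    have h5 := (form hF hc hP k ((n : ℝ) * v - k) (le_of_lt hv)).2
    have e2 : ((k : ℝ) + ((n : ℝ) * v - k)) / n = v := by field_simp; ring
    rw [e2] at h5
    exact h5
  rw [hev.deriv_eq, h4.deriv]
  ring

/-- A point which is not close to the neighbouring vertices. -/
theorem loc (hF : P_VXF) (hc : Cfg c w Q X₀ P₀ w₀ M Z σ p ℓ) (hP : Prm Λ sh c w Q) (k : ℤ)
    {u : ℝ} (hu : u ∈ Ioo (((k : ℝ) - 1) / n) (((k : ℝ) + 1) / n))
    (h1 : 2 * w₀ < |Λ.x u - X₀ * M (k + 1)|) (h2 : 2 * w₀ < |Λ.x u - X₀ * M (k - 1)|) :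
    ∃ t : ℝ, |t| < 3 / 4 ∧ u = (k + t) / n := by
  have hn : (0 : ℝ) < n := by exact_mod_cast Nat.pos_of_ne_zero (NeZero.ne n)
  have e : u = (k + ((n : ℝ) * u - k)) / n := by field_simp; ring
  have hlo : -1 < (n : ℝ) * u - k := by
    have := (div_lt_iff₀ hn).mp hu.1
    linarith
  have hhi : (n : ℝ) * u - k < 1 := by
    have := (lt_div_iff₀ hn).mp hu.2
    linarith
  refine ⟨(n : ℝ) * u - k, ?_, e⟩
  by_contra hcon
  rw [not_lt, le_abs] at hcon
  rcases hcon with h | h
  · have h3 := near hF hc hP (k + 1) ((n : ℝ) * u - k - 1) (by rw [abs_le]; constructor <;> linarith)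
    have e2 : (((k + 1 : ℤ) : ℝ) + ((n : ℝ) * u - k - 1)) / n = u := by
      push_cast
      field_simp
      ring
    rw [e2] at h3
    linarith
  · have h3 := near hF hc hP (k - 1) ((n : ℝ) * u - k + 1) (by rw [abs_le]; constructor <;> linarith)
    have e2 : (((k - 1 : ℤ) : ℝ) + ((n : ℝ) * u - k + 1)) / n = u := by
      push_cast
      field_simp
      ring
    rw [e2] at h3
    linarith

/-- The positions of the neighbouring vertices of a tip. -/
theorem nbr (hc : Cfg c w Q X₀ P₀ w₀ M Z σ p ℓ) (k : ℤ) (hk : σ (k - 1) ≠ σ k) :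
    (X₀ ≤ (σ k : ℝ) * (X₀ * M (k + 1) - X₀ * M k)) ∧
    (X₀ ≤ (σ k : ℝ) * (X₀ * M (k - 1) - X₀ * M k)) := by
  have hX := hc.X0
  have h1 : (1 : ℝ) ≤ ℓ k := by exact_mod_cast hc.l1 k
  have h2 : (1 : ℝ) ≤ ℓ (k - 1) := by exact_mod_cast hc.l1 (k - 1)
  have m1 : (M (k + 1) : ℝ) = M k + σ k * ℓ k := by exact_mod_cast hc.M1 k
  have m2 : (M k : ℝ) = M (k - 1) + σ (k - 1) * ℓ (k - 1) := by
    have := hc.M1 (k - 1)
    rw [sub_add_cancel] at this
    exact_mod_cast this
  have hs : (σ (k - 1) : ℝ) = -σ k := by
    rcases hc.s1 k with h | h <;> rcases hc.s1 (k - 1) with h' | h'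
    · exact absurd (h'.trans h.symm) hk
    · rw [h, h']; norm_num
    · rw [h, h']; norm_num
    · exact absurd (h'.trans h.symm) hk
  have hsq : (σ k : ℝ) * σ k = 1 := by
    rcases hc.s1 k with h | h <;> rw [h] <;> norm_num
  constructor
  · rw [m1]
    have e : (σ k : ℝ) * (X₀ * (M k + σ k * ℓ k) - X₀ * M k) = X₀ * ℓ k * (σ k * σ k) := by ring
    rw [e, hsq, mul_one]
    nlinarith
  · rw [hs] at m2
    have e : (σ k : ℝ) * (X₀ * M (k - 1) - X₀ * M k) = X₀ * ℓ (k - 1) * (σ k * σ k) := by
      rw [m2]; ring
    rw [e, hsq, mul_one]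
    nlinarith

end

end VXY

/-- VXY -/
theorem t_VXY : Stmt_VXY := by
  intro hF hU _ n _ Λ sh c w Q X₀ P₀ w₀ M Z σ p ℓ hc hP _
  have hw := hc.w0
  have hX := hc.X0
  have hwX := hc.wX
  refine ⟨?_, ?_⟩
  · intro k hk u hu hx
    obtain ⟨n1, n2⟩ := VXY.nbr hc k hk
    have hs : |(σ k : ℝ)| = 1 := by
      rcases hc.s1 k with h | h <;> rw [h] <;> norm_num
    have hb := abs_le.mp hx
    have key : ∀ y : ℝ, X₀ ≤ (σ k : ℝ) * (y - X₀ * M k) → 2 * w₀ < |Λ.x u - y| := by
      intro y hy
      have h1 : X₀ ≤ |y - X₀ * M k| := by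
        calc X₀ ≤ (σ k : ℝ) * (y - X₀ * M k) := hy
          _ ≤ |(σ k : ℝ) * (y - X₀ * M k)| := le_abs_self _
          _ = |y - X₀ * M k| := by rw [abs_mul, hs, one_mul]
      have h2 : |y - X₀ * M k| ≤ |Λ.x u - y| + |Λ.x u - X₀ * M k| := by
        have e : y - X₀ * M k = -(Λ.x u - y) + (Λ.x u - X₀ * M k) := by ring
        calc |y - X₀ * M k| = |-(Λ.x u - y) + (Λ.x u - X₀ * M k)| := by rw [← e]
          _ ≤ |-(Λ.x u - y)| + |Λ.x u - X₀ * M k| := abs_add_le _ _
          _ = _ := by rw [abs_neg]
      linarith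
    obtain ⟨t, ht, rfl⟩ := VXY.loc hF hc hP k hu (key _ n1) (key _ n2)
    obtain ⟨d, hd, hd'⟩ := VXY.der hF hU hc hP k t ht
    rw [hd']
    have h3 := VXY.tau_deriv_nonneg sh (KNT.Uk sh c w Q k t)
    have h4 : 0 ≤ d * deriv sh.τ (KNT.Uk sh c w Q k t) := mul_nonneg hd.le h3
    nlinarith [mul_nonneg (mul_self_nonneg ((p k : ℝ) - p (k - 1))) h4]
  · intro k hk u hu hx
    obtain ⟨n1, n2⟩ := VXY.nbr hc k hk
    have hs : |(σ k : ℝ)| = 1 := by
      rcases hc.s1 k with h | h <;> rw [h] <;> norm_num
    have hsq : (σ k : ℝ) * σ k = 1 := by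
      rcases hc.s1 k with h | h <;> rw [h] <;> norm_num
    have key : ∀ y : ℝ, X₀ ≤ (σ k : ℝ) * (y - X₀ * M k) → 2 * w₀ < |Λ.x u - y| := by
      intro y hy
      have h1 : (σ k : ℝ) * (y - Λ.x u) ≤ |Λ.x u - y| := by
        calc (σ k : ℝ) * (y - Λ.x u) ≤ |(σ k : ℝ) * (y - Λ.x u)| := le_abs_self _
          _ = |Λ.x u - y| := by rw [abs_mul, hs, one_mul, abs_sub_comm]
      have h2 : (σ k : ℝ) * (y - Λ.x u) =
          (σ k : ℝ) * (y - X₀ * M k) - (σ k : ℝ) * (Λ.x u - X₀ * M k) := by ring
      linarith
    obtain ⟨t, ht, rfl⟩ := VXY.loc hF hc hP k hu (key _ n1) (key _ n2)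
    obtain ⟨d, hd, hd'⟩ := VXY.der hF hU hc hP k t ht
    have h1 := (VXY.form hF hc hP k t ht.le).1
    rw [h1] at hx
    have h2 : (σ k : ℝ) * (X₀ * M k + w₀ * chi sh σ k (KNT.Uk sh c w Q k t) - X₀ * M k) =
        -(w₀ * sh.ξ (KNT.Uk sh c w Q k t)) := by
      unfold chi
      rw [if_neg hk]
      linear_combination (-(w₀ * sh.ξ (KNT.Uk sh c w Q k t))) * hsq
    rw [h2] at hx
    have h3 : |KNT.Uk sh c w Q k t| < 1 := by
      by_contra hcon
      rw [not_lt] at hcon
      rw [sh.ξ_out _ hcon] at hx
      nlinarith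
    have h4 := abs_lt.mp h3
    have h5 := sh.τ_deriv _ h4.1 h4.2
    rw [hd']
    have h6 : ((p k : ℝ) - p (k - 1)) ≠ 0 := by
      intro h
      apply hc.alt k
      have : (p k : ℝ) = p (k - 1) := by linarith
      exact_mod_cast this.symm
    exact mul_ne_zero h6 (mul_pos hd h5).ne'

end LHE


end

section

/-!
# REV: reversal of the time
-/

namespace LCA

open Set Filter
open scoped ContDiff Topology

namespace REV

theorem rev_rev (s₀ : ℝ) (q : E5) : rev s₀ (rev s₀ q) = q := by
  obtain ⟨s, x, p, z, F⟩ := q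
  show (2 * s₀ - (2 * s₀ - s), x, p, - -z, F) = (s, x, p, z, F)
  rw [neg_neg, sub_sub_cancel]

theorem rev_continuous (s₀ : ℝ) : Continuous (rev s₀) := by
  unfold rev
  fun_prop

/-- The reversal as a homeomorphism. -/
def hom (s₀ : ℝ) : E5 ≃ₜ E5 where
  toFun := rev s₀
  invFun := rev s₀
  left_inv := rev_rev s₀
  right_inv := rev_rev s₀
  continuous_toFun := rev_continuous s₀
  continuous_invFun := rev_continuous s₀

theorem rev_inj {s₀ : ℝ} {q q' : E5} (h : rev s₀ q = rev s₀ q') : q = q' := by
  rw [← rev_rev s₀ q, h, rev_rev]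

theorem rev_fst (s₀ : ℝ) (q : E5) : (rev s₀ q).1 = 2 * s₀ - q.1 := rfl

theorem norm_rev (s₀ : ℝ) (q : E5) : ‖(rev s₀ q).2‖ = ‖q.2‖ := by
  obtain ⟨s, x, p, z, F⟩ := q
  show ‖((x, p, -z, F) : ℝ × ℝ × ℝ × ℝ)‖ = ‖((x, p, z, F) : ℝ × ℝ × ℝ × ℝ)‖
  simp only [Prod.norm_def, norm_neg]

/-- First projection. -/
def p1 : E5 →L[ℝ] ℝ := ContinuousLinearMap.fst ℝ ℝ (ℝ × ℝ × ℝ × ℝ)

/-- The last four coordinates. -/
def s1 : E5 →L[ℝ] ℝ × ℝ × ℝ × ℝ := ContinuousLinearMap.snd ℝ ℝ (ℝ × ℝ × ℝ × ℝ)

/-- The last three coordinates. -/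
def s2 : E5 →L[ℝ] ℝ × ℝ × ℝ := (ContinuousLinearMap.snd ℝ ℝ (ℝ × ℝ × ℝ)).comp s1

/-- The last two coordinates. -/
def s3 : E5 →L[ℝ] ℝ × ℝ := (ContinuousLinearMap.snd ℝ ℝ (ℝ × ℝ)).comp s2

/-- The linear part of the reversal. -/
noncomputable def lin : E5 →L[ℝ] E5 :=
  (-p1).prod (((ContinuousLinearMap.fst ℝ ℝ (ℝ × ℝ × ℝ)).comp s1).prod
    (((ContinuousLinearMap.fst ℝ ℝ (ℝ × ℝ)).comp s2).prod
      ((-(ContinuousLinearMap.fst ℝ ℝ ℝ).comp s3).prod
        ((ContinuousLinearMap.snd ℝ ℝ ℝ).comp s3))))

theorem lin_apply (w : E5) : lin w = (-w.1, w.2.1, w.2.2.1, -w.2.2.2.1, w.2.2.2.2) := rfl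

theorem rev_eq (s₀ : ℝ) (q : E5) : rev s₀ q = ((2 * s₀, 0, 0, 0, 0) : E5) + lin q := by
  obtain ⟨s, x, p, z, F⟩ := q
  rw [lin_apply]
  show (2 * s₀ - s, x, p, -z, F) = (2 * s₀ + -s, 0 + x, 0 + p, 0 + -z, 0 + F)
  rw [zero_add, zero_add, zero_add, zero_add, sub_eq_add_neg]

theorem hasFDerivAt_rev (s₀ : ℝ) (q : E5) : HasFDerivAt (rev s₀) lin q := by
  have h : rev s₀ = fun q => ((2 * s₀, 0, 0, 0, 0) : E5) + lin q := funext (rev_eq s₀)
  rw [h]
  exact lin.hasFDerivAt.const_add _

theorem contDiff_rev (s₀ : ℝ) : ContDiff ℝ ∞ (rev s₀) := by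
  have h : rev s₀ = fun q => ((2 * s₀, 0, 0, 0, 0) : E5) + lin q := funext (rev_eq s₀)
  rw [h]
  exact contDiff_const.add lin.contDiff

theorem fderiv_comp {s₀ : ℝ} {f : ℝ × ℝ → E5} {b : ℝ × ℝ} (hf : ContDiffAt ℝ ∞ f b) (w : ℝ × ℝ) :
    fderiv ℝ (fun c => rev s₀ (f c)) b w = lin (fderiv ℝ f b w) := by
  have h1 : DifferentiableAt ℝ f b := hf.differentiableAt (by simp)
  have h2 : HasFDerivAt (fun c => rev s₀ (f c)) (lin.comp (fderiv ℝ f b)) b :=
    (hasFDerivAt_rev s₀ (f b)).comp b h1.hasFDerivAt
  rw [h2.fderiv]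
  rfl

theorem exactChart {s₀ : ℝ} {f : ℝ × ℝ → E5} {a : ℝ × ℝ} (h : ExactChart f a) :
    ExactChart (fun b => rev s₀ (f b)) a where
  smooth := by
    filter_upwards [h.smooth] with b hb
    exact (contDiff_rev s₀).contDiffAt.comp b hb
  exact := by
    filter_upwards [h.smooth, h.exact] with b hb he w
    rw [fderiv_comp hb, lin_apply]
    show (fderiv ℝ f b w).2.2.2.2 =
      (-(f b).2.2.2.1) * (-(fderiv ℝ f b w).1) + (f b).2.2.1 * (fderiv ℝ f b w).2.1
    rw [he w]
    ring
  immersion := by
    intro w h1 h2 h3 h4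
    have hs := h.smooth.self_of_nhds
    rw [fderiv_comp hs, lin_apply] at h1 h2 h3 h4
    exact h.immersion w (neg_eq_zero.1 h1) h2 h3 (neg_eq_zero.1 h4)

theorem chartAt {s₀ : ℝ} {A : Set E5} {q : E5} (h : ChartAt A (rev s₀ q)) :
    ChartAt (rev s₀ ⁻¹' A) q := by
  obtain ⟨f, a, hf, hfa, hA, hN⟩ := h
  refine ⟨fun b => rev s₀ (f b), a, exactChart hf, ?_, ?_, ?_⟩
  · show rev s₀ (f a) = q
    rw [hfa, rev_rev]
  · filter_upwards [hA] with b hb
    show rev s₀ (rev s₀ (f b)) ∈ A
    rw [rev_rev]
    exact hb
  · intro N hNa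
    have h1 := hN N hNa
    rw [mem_nhdsWithin] at h1 ⊢
    obtain ⟨U, hU, hqU, hsub⟩ := h1
    refine ⟨rev s₀ ⁻¹' U, hU.preimage (rev_continuous s₀), hqU, ?_⟩
    rintro r ⟨hr1, hr2⟩
    obtain ⟨b, hbN, hb⟩ := hsub ⟨hr1, hr2⟩
    refine ⟨b, hbN, ?_⟩
    show rev s₀ (f b) = r
    rw [hb, rev_rev]

theorem good {s₀ : ℝ} {J : Set ℝ} {A : Set E5} (h : Good J A) :
    Good ((fun s => 2 * s₀ - s) ⁻¹' J) (rev s₀ ⁻¹' A) where
  closed := by
    intro q hq hJ
    have h1 : closure (rev s₀ ⁻¹' A) = rev s₀ ⁻¹' closure A := ((hom s₀).preimage_closure A).symm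
    rw [h1] at hq
    exact h.closed (rev s₀ q) hq hJ
  bounded := by
    intro K hK hKc
    have hc : Continuous (fun s : ℝ => 2 * s₀ - s) := by fun_prop
    obtain ⟨M, hM⟩ := h.bounded ((fun s => 2 * s₀ - s) '' K) (by
      rintro _ ⟨s, hs, rfl⟩
      exact hK hs) (hKc.image hc)
    refine ⟨M, fun q hq hqK => ?_⟩
    have h1 := hM (rev s₀ q) hq ⟨q.1, hqK, rfl⟩
    rw [norm_rev] at h1
    exact h1
  chart := fun q hq hJ => chartAt (h.chart (rev s₀ q) hq hJ)
  inj := by
    intro q hq q' hq' hJ h1 h2 h3 h4
    apply rev_inj (s₀ := s₀)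
    refine h.inj (rev s₀ q) hq (rev s₀ q') hq' hJ ?_ h2 h3 ?_
    · rw [rev_fst, rev_fst, h1]
    · show -q.2.2.2.1 = -q'.2.2.2.1
      rw [h4]

theorem joined {s₀ : ℝ} {J : Set ℝ} {A : Set E5} {q q' : E5}
    (h : JoinedIn {r ∈ A | r.1 ∈ J} (rev s₀ q) q') :
    JoinedIn {r ∈ rev s₀ ⁻¹' A | r.1 ∈ (fun s => 2 * s₀ - s) ⁻¹' J} q (rev s₀ q') := by
  obtain ⟨γ, hγ⟩ := h
  refine ⟨(γ.map (rev_continuous s₀)).cast (rev_rev s₀ q).symm rfl, fun t => ?_⟩
  have h1 := hγ t
  show rev s₀ (rev s₀ (γ t)) ∈ A ∧ 2 * s₀ - (2 * s₀ - (γ t).1) ∈ J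
  rw [rev_rev, sub_sub_cancel]
  exact h1

theorem dpe_neg {m n : ℕ} (c : Comb m n) (q v : St n) (e : Fin m) :
    c.dpe q (-v) e = -c.dpe q v e := by
  show (-v.2 (c.rt e) - -v.2 (c.lf e) - c.pe q e * (-v.1 (c.rt e) - -v.1 (c.lf e))) /
    (q.1 (c.rt e) - q.1 (c.lf e)) = -((v.2 (c.rt e) - v.2 (c.lf e) -
      c.pe q e * (v.1 (c.rt e) - v.1 (c.lf e))) / (q.1 (c.rt e) - q.1 (c.lf e)))
  rw [← neg_div]
  congr 1
  ring

theorem dae_neg {m n : ℕ} (c : Comb m n) (q v : St n) (e : Fin m) :
    c.dae q (-v) e = -c.dae q v e := by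
  show -v.2 (c.lf e) - c.dpe q (-v) e * q.1 (c.lf e) - c.pe q e * -v.1 (c.lf e) =
    -(v.2 (c.lf e) - c.dpe q v e * q.1 (c.lf e) - c.pe q e * v.1 (c.lf e))
  rw [dpe_neg]
  ring

/-- Change of the sign of `z`. -/
def ng (r : ℝ × ℝ × ℝ × ℝ) : ℝ × ℝ × ℝ × ℝ := (r.1, r.2.1, -r.2.2.1, r.2.2.2)

theorem ng_ng (r : ℝ × ℝ × ℝ × ℝ) : ng (ng r) = r := by
  obtain ⟨x, p, z, F⟩ := r
  show (x, p, - -z, F) = (x, p, z, F)
  rw [neg_neg]

theorem ept_neg {m n : ℕ} (c : Comb m n) (q v : St n) (e : Fin m) (x : ℝ) :
    c.ept q (-v) e x = ng (c.ept q v e x) := by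
  show (x, c.pe q e, c.dpe q (-v) e * x + c.dae q (-v) e, c.pe q e * x + c.ae q e) =
    (x, c.pe q e, -(c.dpe q v e * x + c.dae q v e), c.pe q e * x + c.ae q e)
  rw [dpe_neg, dae_neg]
  congr 3
  ring

theorem vp_neg {m n : ℕ} (c : Comb m n) (w : Fin n → ℝ) (sh : Shape) (s s' : ℝ) (q v : St n)
    (i : Fin n) (u : ℝ) :
    c.vp w (c.sp sh) s q (-v) i u = ng (c.vp w (c.sp sh) s' q v i u) := by
  have h : ∀ (X P Θ : ℝ), c.vpt q (-v) i (w i) X P Θ 0 = ng (c.vpt q v i (w i) X P Θ 0) := by
    intro X P Θ
    show (q.1 i + w i * X, c.pe q (c.ea i) + c.dl q i * P,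
      c.dpe q (-v) (c.ea i) * (q.1 i + w i * X) + c.dae q (-v) (c.ea i)
        + w i * ((c.dpe q (-v) (c.eb i) - c.dpe q (-v) (c.ea i)) * Θ + c.dl q i * 0)
        - c.dl q i * P * -v.1 i,
      c.pe q (c.ea i) * (q.1 i + w i * X) + c.ae q (c.ea i) + w i * c.dl q i * Θ) =
      (q.1 i + w i * X, c.pe q (c.ea i) + c.dl q i * P,
      -(c.dpe q v (c.ea i) * (q.1 i + w i * X) + c.dae q v (c.ea i)
        + w i * ((c.dpe q v (c.eb i) - c.dpe q v (c.ea i)) * Θ + c.dl q i * 0)
        - c.dl q i * P * v.1 i),
      c.pe q (c.ea i) * (q.1 i + w i * X) + c.ae q (c.ea i) + w i * c.dl q i * Θ)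
    rw [dpe_neg, dpe_neg, dae_neg]
    congr 3
    ring
  exact h _ _ _

theorem slice_neg {m n : ℕ} (c : Comb m n) (w : Fin n → ℝ) (sh : Shape) (s s' : ℝ) (q v : St n)
    (r : ℝ × ℝ × ℝ × ℝ) (hr : ng r ∈ c.slice w (c.sp sh) s' q v) :
    r ∈ c.slice w (c.sp sh) s q (-v) := by
  rcases hr with ⟨e, x, hx, h⟩ | ⟨i, u, hu, h⟩
  · refine Or.inl ⟨e, x, hx, ?_⟩
    rw [ept_neg, ← h, ng_ng]
  · refine Or.inr ⟨i, u, hu, ?_⟩
    rw [vp_neg c w sh s s', ← h, ng_ng]

end REV

theorem t_REV : Stmt_REV := by
  intro s₀ J A _
  refine ⟨fun h => REV.good h, fun h => ?_, fun h => ?_, ?_⟩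
  · intro q hq hJ c hc hle
    obtain ⟨q', hq', hq'c, hj⟩ := h (rev s₀ q) hq hJ (2 * s₀ - c) hc (by
      rw [REV.rev_fst]
      linarith)
    refine ⟨rev s₀ q', ?_, ?_, (REV.joined hj).mono ?_⟩
    · show rev s₀ (rev s₀ q') ∈ A
      rw [REV.rev_rev]
      exact hq'
    · rw [REV.rev_fst, hq'c]
      ring
    · rintro r ⟨hr1, hr2, hr3⟩
      rw [REV.rev_fst] at hr3
      exact ⟨hr1, sub_le_sub_iff_left (2 * s₀) |>.1 hr3, sub_le_sub_iff_left (2 * s₀) |>.1 hr2⟩
  · intro q hq hJ c hc hle
    obtain ⟨q', hq', hq'c, hj⟩ := h (rev s₀ q) hq hJ (2 * s₀ - c) hc (by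
      rw [REV.rev_fst]
      linarith)
    refine ⟨rev s₀ q', ?_, ?_, (REV.joined hj).mono ?_⟩
    · show rev s₀ (rev s₀ q') ∈ A
      rw [REV.rev_rev]
      exact hq'
    · rw [REV.rev_fst, hq'c]
      ring
    · rintro r ⟨hr1, hr2, hr3⟩
      rw [REV.rev_fst] at hr2
      exact ⟨hr1, sub_le_sub_iff_left (2 * s₀) |>.1 hr3, sub_le_sub_iff_left (2 * s₀) |>.1 hr2⟩
  · intro sh m n c w q
    ext r
    have hd : deriv (fun s => q (2 * s₀ - s)) r.1 = -deriv q (2 * s₀ - r.1) :=
      deriv_comp_const_sub q (2 * s₀) r.1
    show REV.ng r.2 ∈ c.slice w (c.sp sh) (2 * s₀ - r.1) (q (2 * s₀ - r.1))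
        (deriv q (2 * s₀ - r.1)) ↔
      r.2 ∈ c.slice w (c.sp sh) r.1 (q (2 * s₀ - r.1)) (deriv (fun s => q (2 * s₀ - s)) r.1)
    rw [hd]
    constructor
    · exact REV.slice_neg c w sh _ _ _ _ _
    · intro h
      have h1 := REV.slice_neg c w sh (2 * s₀ - r.1) r.1 (q (2 * s₀ - r.1))
        (-deriv q (2 * s₀ - r.1)) (REV.ng r.2) (by rw [REV.ng_ng]; exact h)
      rw [neg_neg] at h1
      exact h1

end LCA


end

section

/-!
# OPC: the certificates are open conditions
-/

namespace LCA

open Set Filter
open scoped ContDiff Topology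

namespace OPC

variable {m n : ℕ} (c : Comb m n) (a : St n × St n)

theorem cx (i : Fin n) : ContinuousAt (fun b : St n × St n => b.1.1 i) a := by fun_prop

theorem cF (i : Fin n) : ContinuousAt (fun b : St n × St n => b.1.2 i) a := by fun_prop

theorem cvx (i : Fin n) : ContinuousAt (fun b : St n × St n => b.2.1 i) a := by fun_prop

theorem cvF (i : Fin n) : ContinuousAt (fun b : St n × St n => b.2.2 i) a := by fun_prop

variable (hne : ∀ e, a.1.1 (c.rt e) - a.1.1 (c.lf e) ≠ 0)

include hne

theorem cpe (e : Fin m) : ContinuousAt (fun b : St n × St n => c.pe b.1 e) a :=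
  ContinuousAt.div ((cF a _).sub (cF a _)) ((cx a _).sub (cx a _)) (hne e)

theorem cae (e : Fin m) : ContinuousAt (fun b : St n × St n => c.ae b.1 e) a :=
  (cF a _).sub ((cpe c a hne e).mul (cx a _))

theorem cdpe (e : Fin m) : ContinuousAt (fun b : St n × St n => c.dpe b.1 b.2 e) a :=
  ContinuousAt.div (((cvF a _).sub (cvF a _)).sub ((cpe c a hne e).mul ((cvx a _).sub (cvx a _))))
    ((cx a _).sub (cx a _)) (hne e)

theorem cdae (e : Fin m) : ContinuousAt (fun b : St n × St n => c.dae b.1 b.2 e) a :=
  ((cvF a _).sub ((cdpe c a hne e).mul (cx a _))).sub ((cpe c a hne e).mul (cvx a _))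

theorem cdl (i : Fin n) : ContinuousAt (fun b : St n × St n => c.dl b.1 i) a :=
  (cpe c a hne _).sub (cpe c a hne _)

theorem cplo (i : Fin n) : ContinuousAt (fun b : St n × St n => c.plo b.1 i) a :=
  (cpe c a hne _).min (cpe c a hne _)

theorem cphi (i : Fin n) : ContinuousAt (fun b : St n × St n => c.phi b.1 i) a :=
  (cpe c a hne _).max (cpe c a hne _)

theorem cerr (w : Fin n → ℝ) (i : Fin n) :
    ContinuousAt (fun b : St n × St n => c.err w b.1 b.2 i) a :=
  continuousAt_const.mul (((continuousAt_const.mul (cdpe c a hne _).abs).add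
    (continuousAt_const.mul ((cdpe c a hne _).sub (cdpe c a hne _)).abs)).add
    (continuousAt_const.mul (cdl c a hne _).abs))

theorem cDee (e e' : Fin m) (x : St n × St n → ℝ) (hx : ContinuousAt x a) :
    ContinuousAt (fun b : St n × St n => c.Dee b.1 b.2 e e' (x b)) a :=
  (((cdpe c a hne e).mul hx).add (cdae c a hne e)).sub
    (((cdpe c a hne e').mul hx).add (cdae c a hne e'))

theorem cDve (i : Fin n) (e : Fin m) :
    ContinuousAt (fun b : St n × St n => c.Dve b.1 b.2 i e) a :=
  ((cvF a i).sub ((cpe c a hne e).mul (cvx a i))).sub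
    (((cdpe c a hne e).mul (cx a i)).add (cdae c a hne e))

omit hne in
theorem cDvv (i j : Fin n) (p : St n × St n → ℝ) (hp : ContinuousAt p a) :
    ContinuousAt (fun b : St n × St n => Dvv b.2 i j (p b)) a :=
  ((cvF a i).sub (hp.mul (cvx a i))).sub ((cvF a j).sub (hp.mul (cvx a j)))

theorem eZee (e e' : Fin m) (σ : ℝ) (h : c.Zee a.1 a.2 e e' σ) :
    ∀ᶠ b in 𝓝 a, c.Zee b.1 b.2 e e' σ := by
  have h1 := (continuousAt_const (y := σ)).mul
    (cDee c a hne e e' (fun b => max (b.1.1 (c.lf e)) (b.1.1 (c.lf e'))) ((cx a _).max (cx a _)))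
  have h2 := (continuousAt_const (y := σ)).mul
    (cDee c a hne e e' (fun b => min (b.1.1 (c.rt e)) (b.1.1 (c.rt e'))) ((cx a _).min (cx a _)))
  exact ((continuousAt_const (y := (0 : ℝ))).eventually_lt h1 h.1).and
    ((continuousAt_const (y := (0 : ℝ))).eventually_lt h2 h.2)

theorem eSee (w : Fin n → ℝ) (e e' : Fin m) (h : c.See w a.1 e e') :
    ∀ᶠ b in 𝓝 a, c.See w b.1 e e' := by
  rcases h with h | h | h
  · have := ((cx a (c.rt e)).sub continuousAt_const).eventually_lt
      ((cx a (c.lf e')).add (continuousAt_const (y := 2 * w (c.lf e')))) h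
    filter_upwards [this] with b hb
    exact Or.inl hb
  · have := ((cx a (c.rt e')).sub continuousAt_const).eventually_lt
      ((cx a (c.lf e)).add (continuousAt_const (y := 2 * w (c.lf e)))) h
    filter_upwards [this] with b hb
    exact Or.inr (Or.inl hb)
  · have := ((cpe c a hne e).sub (cpe c a hne e')).eventually_ne (sub_ne_zero.mpr h)
    filter_upwards [this] with b hb
    exact Or.inr (Or.inr (sub_ne_zero.mp hb))

theorem eZvv (w : Fin n → ℝ) (i j : Fin n) (σ : ℝ) (h : c.Zvv w a.1 a.2 i j σ) :
    ∀ᶠ b in 𝓝 a, c.Zvv w b.1 b.2 i j σ := by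
  have h0 := (cerr c a hne w i).add (cerr c a hne w j)
  have h1 := (continuousAt_const (y := σ)).mul
    (cDvv a i j (fun b => max (c.plo b.1 i) (c.plo b.1 j)) ((cplo c a hne i).max (cplo c a hne j)))
  have h2 := (continuousAt_const (y := σ)).mul
    (cDvv a i j (fun b => min (c.phi b.1 i) (c.phi b.1 j)) ((cphi c a hne i).min (cphi c a hne j)))
  exact (h0.eventually_lt h1 h.1).and (h0.eventually_lt h2 h.2)

theorem eSvv (w : Fin n → ℝ) (i j : Fin n) (h : c.Svv w a.1 i j) :
    ∀ᶠ b in 𝓝 a, c.Svv w b.1 i j := by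
  rcases h with h | h | h | h
  · have := (continuousAt_const (y := 2 * (w i + w j))).eventually_lt ((cx a j).sub (cx a i)) h
    filter_upwards [this] with b hb
    exact Or.inl hb
  · have := (continuousAt_const (y := 2 * (w i + w j))).eventually_lt ((cx a i).sub (cx a j)) h
    filter_upwards [this] with b hb
    exact Or.inr (Or.inl hb)
  · have := (cphi c a hne i).eventually_lt (cplo c a hne j) h
    filter_upwards [this] with b hb
    exact Or.inr (Or.inr (Or.inl hb))
  · have := (cphi c a hne j).eventually_lt (cplo c a hne i) h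
    filter_upwards [this] with b hb
    exact Or.inr (Or.inr (Or.inr hb))

theorem eZve (w : Fin n → ℝ) (i : Fin n) (e : Fin m) (σ : ℝ) (h : c.Zve w a.1 a.2 i e σ) :
    ∀ᶠ b in 𝓝 a, c.Zve w b.1 b.2 i e σ := by
  have h0 := (cerr c a hne w i).add
    ((continuousAt_const (y := 2 * w i)).mul (cdpe c a hne e).abs)
  have h1 := (continuousAt_const (y := σ)).mul (cDve c a hne i e)
  exact h0.eventually_lt h1 h

theorem eSve (w : Fin n → ℝ) (i : Fin n) (e : Fin m) (h : c.Sve w a.1 i e) :
    ∀ᶠ b in 𝓝 a, c.Sve w b.1 i e := by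
  rcases h with h | h | h | h
  · have := ((cx a i).add (continuousAt_const (y := 2 * w i))).eventually_lt
      ((cx a (c.lf e)).add (continuousAt_const (y := 2 * w (c.lf e)))) h
    filter_upwards [this] with b hb
    exact Or.inl hb
  · have := ((cx a (c.rt e)).sub (continuousAt_const (y := 2 * w (c.rt e)))).eventually_lt
      ((cx a i).sub (continuousAt_const (y := 2 * w i))) h
    filter_upwards [this] with b hb
    exact Or.inr (Or.inl hb)
  · have := (cpe c a hne e).eventually_lt (cplo c a hne i) h
    filter_upwards [this] with b hb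
    exact Or.inr (Or.inr (Or.inl hb))
  · have := (cphi c a hne i).eventually_lt (cpe c a hne e) h
    filter_upwards [this] with b hb
    exact Or.inr (Or.inr (Or.inr hb))

end OPC

theorem t_OPC : Stmt_OPC := by
  intro m n c w hw
  rw [isOpen_iff_mem_nhds]
  intro a ha
  have ha' : c.Cert w a.1 a.2 := ha
  have hne : ∀ e, a.1.1 (c.rt e) - a.1.1 (c.lf e) ≠ 0 := by
    intro e
    have h1 := ha'.len e
    have h2 := hw (c.lf e)
    have h3 := hw (c.rt e)
    exact ne_of_gt (by linarith)
  have e1 : ∀ᶠ b : St n × St n in 𝓝 a, ∀ e,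
      2 * (w (c.lf e) + w (c.rt e)) < b.1.1 (c.rt e) - b.1.1 (c.lf e) := by
    rw [eventually_all]
    intro e
    exact (continuousAt_const (y := 2 * (w (c.lf e) + w (c.rt e)))).eventually_lt
      ((OPC.cx a _).sub (OPC.cx a _)) (ha'.len e)
  have e2 : ∀ᶠ b : St n × St n in 𝓝 a, ∀ i, c.ty i ≠ .P → c.dl b.1 i ≠ 0 := by
    rw [eventually_all]
    intro i
    by_cases hi : c.ty i ≠ .P
    · filter_upwards [(OPC.cdl c a hne i).eventually_ne (ha'.tip i hi)] with b hb _
      exact hb
    · exact Eventually.of_forall fun b h => absurd h hi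
  have e3 : ∀ᶠ b : St n × St n in 𝓝 a, ∀ e e', e ≠ e' →
      c.See w b.1 e e' ∨ ∃ σ : ℝ, |σ| = 1 ∧ c.Zee b.1 b.2 e e' σ := by
    rw [eventually_all]
    intro e
    rw [eventually_all]
    intro e'
    by_cases hi : e ≠ e'
    · rcases ha'.ee e e' hi with h | ⟨σ, hσ, h⟩
      · filter_upwards [OPC.eSee c a hne w e e' h] with b hb _
        exact Or.inl hb
      · filter_upwards [OPC.eZee c a hne e e' σ h] with b hb _
        exact Or.inr ⟨σ, hσ, hb⟩
    · exact Eventually.of_forall fun b h => absurd h hi
  have e4 : ∀ᶠ b : St n × St n in 𝓝 a, ∀ i j, i ≠ j →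
      c.Svv w b.1 i j ∨ ∃ σ : ℝ, |σ| = 1 ∧ c.Zvv w b.1 b.2 i j σ := by
    rw [eventually_all]
    intro i
    rw [eventually_all]
    intro j
    by_cases hi : i ≠ j
    · rcases ha'.vv i j hi with h | ⟨σ, hσ, h⟩
      · filter_upwards [OPC.eSvv c a hne w i j h] with b hb _
        exact Or.inl hb
      · filter_upwards [OPC.eZvv c a hne w i j σ h] with b hb _
        exact Or.inr ⟨σ, hσ, hb⟩
    · exact Eventually.of_forall fun b h => absurd h hi
  have e5 : ∀ᶠ b : St n × St n in 𝓝 a, ∀ i e, c.ea i ≠ e → c.eb i ≠ e →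
      c.Sve w b.1 i e ∨ ∃ σ : ℝ, |σ| = 1 ∧ c.Zve w b.1 b.2 i e σ := by
    rw [eventually_all]
    intro i
    rw [eventually_all]
    intro e
    by_cases hi : c.ea i ≠ e
    · by_cases hj : c.eb i ≠ e
      · rcases ha'.ve i e hi hj with h | ⟨σ, hσ, h⟩
        · filter_upwards [OPC.eSve c a hne w i e h] with b hb _ _
          exact Or.inl hb
        · filter_upwards [OPC.eZve c a hne w i e σ h] with b hb _ _
          exact Or.inr ⟨σ, hσ, hb⟩
      · exact Eventually.of_forall fun b _ h => absurd h hj
    · exact Eventually.of_forall fun b h => absurd h hi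
  filter_upwards [e1, e2, e3, e4, e5] with b h1 h2 h3 h4 h5
  exact ⟨h1, h2, h3, h4, h5⟩

end LCA


end

section

/-!
# FDC: folds, the checker
-/

namespace LCA

open Set Filter
open scoped ContDiff Topology

namespace FDC

theorem val_ofNat (b a : ℕ) (h : a < b + 1) : ((Fin.ofNat (b + 1) a : Fin (b + 1)) : ℕ) = a := by
  rw [Fin.val_ofNat]
  exact Nat.mod_eq_of_lt h

theorem w8 {b a : ℤ} (h : Int.mul 8 b = a) : (b : ℝ) = (a : ℝ) / 8 := by
  have h' : 8 * b = a := h
  have : (8 : ℝ) * b = a := by exact_mod_cast h'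
  linarith

theorem p2 {b a c d : ℤ} (h : Int.mul 2 b = Int.add (Int.mul 2 a) (Int.mul c d)) :
    (b : ℝ) = (a : ℝ) + c * ((d : ℝ) / 2) := by
  have h' : 2 * b = 2 * a + c * d := h
  have : (2 : ℝ) * b = 2 * a + c * d := by exact_mod_cast h'
  linarith

theorem m2 {b a c d : ℤ} (h : Int.mul 2 b = Int.sub (Int.mul 2 a) (Int.mul c d)) :
    (b : ℝ) = (a : ℝ) - c * ((d : ℝ) / 2) := by
  have h' : 2 * b = 2 * a - c * d := h
  have : (2 : ℝ) * b = 2 * a - c * d := by exact_mod_cast h'
  linarith

theorem px2 {b a d : ℤ} (h : Int.mul 2 b = Int.add (Int.mul 2 a) d) :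
    (b : ℝ) = (a : ℝ) + (d : ℝ) / 2 := by
  have h' : 2 * b = 2 * a + d := h
  have : (2 : ℝ) * b = 2 * a + d := by exact_mod_cast h'
  linarith

theorem mx2 {b a d : ℤ} (h : Int.mul 2 b = Int.sub (Int.mul 2 a) d) :
    (b : ℝ) = (a : ℝ) - (d : ℝ) / 2 := by
  have h' : 2 * b = 2 * a - d := h
  have : (2 : ℝ) * b = 2 * a - d := by exact_mod_cast h'
  linarith

end FDC

open _root_.LCA.FDC in
theorem t_FDC (hCBL : Stmt_CBL) (hCB2 : Stmt_CB2) : Stmt_FDC := by
  intro m n m' n' ιE κE ιV κV i e j A B hA hB vA vB h
  obtain ⟨hbnd, hbor, hilt, hieq, -, -, -, -, hallI, -, -, -⟩ := hCBL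
  obtain ⟨hnlt, hnne, hnif, -, hemb⟩ := hCB2
  have hbeq : ∀ i k : ℕ, Nat.beq i k = true ↔ i = k := fun i k => by
    rw [Nat.beq_eq]
  unfold fdOK at h
  simp only [hbnd] at h
  obtain ⟨h1, h2, h3, h4, h5, h6, h7, h8⟩ := h
  rw [hnlt] at h1
  obtain ⟨he, injE, newE, covE, valE⟩ := hemb _ _ _ _ _ h2
  obtain ⟨hj, injV, newV, covV, valV⟩ := hemb _ _ _ _ _ h3
  rw [hallI VS vs0] at h4
  rw [hallI ES es0] at h5
  rw [hbeq] at h6 h7
  rw [hA.lenV] at h4
  rw [hA.lenE] at h5
  unfold fdJ at h8
  simp only [hbnd, hbeq, hieq] at h8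
  obtain ⟨j1, j2, j3, j4, j5, j6, j7, j8⟩ := h8
  set I : Fin (n + 1) := Fin.ofNat (n + 1) i with hI
  set J : Fin (n' + 1) := Fin.ofNat (n' + 1) j with hJ
  set EE : Fin (m' + 1) := Fin.ofNat (m' + 1) e with hEE
  have vI : (I : ℕ) = i := val_ofNat n i h1
  have vJ : (J : ℕ) = j := val_ofNat n' j hj
  have vEE : (EE : ℕ) = e := val_ofNat m' e he
  -- the vertices
  have h4' : ∀ k : Fin (n + 1), ((k : ℕ) ≠ i ∧ (A.v k).ty = (B.v (lkp 0 ιV k)).ty ∧
      (A.v k).w = (B.v (lkp 0 ιV k)).w ∧ (A.v k).x = (B.v (lkp 0 ιV k)).x ∧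
      (A.v k).F = (B.v (lkp 0 ιV k)).F ∧ (A.v k).dx = (B.v (lkp 0 ιV k)).dx ∧
      (A.v k).dF = (B.v (lkp 0 ιV k)).dF ∧
      (B.v (lkp 0 ιV k)).ea = lkp 0 ιE (A.v k).ea ∧
      (B.v (lkp 0 ιV k)).eb = lkp 0 ιE (A.v k).eb) ∨
      ((k : ℕ) = i ∧ (A.v k).ty = 0 ∧ (B.v (lkp 0 ιV k)).ty = 1 ∧
      (B.v (lkp 0 ιV k)).ea = lkp 0 ιE (A.v k).ea ∧ (B.v (lkp 0 ιV k)).eb = e ∧
      Int.mul 8 (B.v (lkp 0 ιV k)).w = (A.v k).w ∧
      Int.mul 2 (B.v (lkp 0 ιV k)).x = Int.add (Int.mul 2 (A.v k).x) (A.v k).w ∧
      Int.mul 2 (B.v (lkp 0 ιV k)).F =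
        Int.add (Int.mul 2 (A.v k).F) (Int.mul (A.v k).pa (A.v k).w) ∧
      (B.v (lkp 0 ιV k)).dx = (A.v k).dx ∧
      Int.mul 2 (B.v (lkp 0 ιV k)).dF =
        Int.add (Int.mul 2 (A.v k).dF) (Int.mul (A.e (A.v k).ea).dp (A.v k).w)) := by
    intro k
    have h := h4 k k.2
    have h' : fdV ιE i e k (A.v k) (B.v (lkp 0 ιV k)) (A.e (A.v k).ea).dp = true := h
    unfold fdV at h'
    simp only [hbor, hbnd, hbeq, hieq, hnne] at h'
    exact h'
  have h4n : ∀ k : Fin (n + 1), k ≠ I → (A.v k).ty = (B.v (lkp 0 ιV k)).ty ∧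
      (A.v k).w = (B.v (lkp 0 ιV k)).w ∧ (A.v k).x = (B.v (lkp 0 ιV k)).x ∧
      (A.v k).F = (B.v (lkp 0 ιV k)).F ∧ (A.v k).dx = (B.v (lkp 0 ιV k)).dx ∧
      (A.v k).dF = (B.v (lkp 0 ιV k)).dF ∧
      (B.v (lkp 0 ιV k)).ea = lkp 0 ιE (A.v k).ea ∧
      (B.v (lkp 0 ιV k)).eb = lkp 0 ιE (A.v k).eb := by
    intro k hk
    rcases h4' k with ⟨-, h⟩ | ⟨h, -⟩
    · exact h
    · exact absurd (Fin.ext (by rw [h, vI])) hk
  have h4i := h4' I
  rw [vI] at h4i
  have h4i' := h4i.resolve_left (fun h => h.1 rfl)
  obtain ⟨-, i1, i2, i3, i4, i5, i6, i7, i8, i9⟩ := h4i'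
  have h5' : ∀ d : Fin (m + 1), (B.e (lkp 0 ιE d)).rt = lkp 0 ιV (A.e d).rt ∧
      (B.e (lkp 0 ιE d)).lf = (if (d : ℕ) = (A.v i).eb then j else lkp 0 ιV (A.e d).lf) := by
    intro d
    have h := h5 d d.2
    have h' : bnd (Nat.beq (B.e (lkp 0 ιE d)).rt (lkp 0 ιV (A.e d).rt))
      (Nat.beq (B.e (lkp 0 ιE d)).lf (nif (Nat.beq d (A.v i).eb) j (lkp 0 ιV (A.e d).lf)))
        = true := h
    simp only [hbnd, hbeq, hnif] at h'
    exact h'
  have vebI : (((A.cb m n).eb I : Fin (m + 1)) : ℕ) = (A.v i).eb := by rw [vA.ebv, vI]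
  have veaI : (((A.cb m n).ea I : Fin (m + 1)) : ℕ) = (A.v i).ea := by rw [vA.eav, vI]
  -- real numbers
  have wA : A.W n I = ((A.v i).w : ℝ) := by
    have : A.W n I = ((A.v I).w : ℝ) := rfl
    rw [this, vI]
  have xA : (A.Q n).1 I = ((A.v i).x : ℝ) := by
    have : (A.Q n).1 I = ((A.v I).x : ℝ) := rfl
    rw [this, vI]
  have FA : (A.Q n).2 I = ((A.v i).F : ℝ) := by
    have : (A.Q n).2 I = ((A.v I).F : ℝ) := rfl
    rw [this, vI]
  have dxA : (A.V n).1 I = ((A.v i).dx : ℝ) := by
    have : (A.V n).1 I = ((A.v I).dx : ℝ) := rfl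
    rw [this, vI]
  have dFA : (A.V n).2 I = ((A.v i).dF : ℝ) := by
    have : (A.V n).2 I = ((A.v I).dF : ℝ) := rfl
    rw [this, vI]
  have wJ : B.W n' J = ((B.v j).w : ℝ) := by
    have : B.W n' J = ((B.v J).w : ℝ) := rfl
    rw [this, vJ]
  have xJ : (B.Q n').1 J = ((B.v j).x : ℝ) := by
    have : (B.Q n').1 J = ((B.v J).x : ℝ) := rfl
    rw [this, vJ]
  have FJ : (B.Q n').2 J = ((B.v j).F : ℝ) := by
    have : (B.Q n').2 J = ((B.v J).F : ℝ) := rfl
    rw [this, vJ]
  have dxJ : (B.V n').1 J = ((B.v j).dx : ℝ) := by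
    have : (B.V n').1 J = ((B.v J).dx : ℝ) := rfl
    rw [this, vJ]
  have dFJ : (B.V n').2 J = ((B.v j).dF : ℝ) := by
    have : (B.V n').2 J = ((B.v J).dF : ℝ) := rfl
    rw [this, vJ]
  have wB : ∀ k, B.W n' (ixf n n' ιV k) = ((B.v (lkp 0 ιV k)).w : ℝ) := by
    intro k
    have : B.W n' (ixf n n' ιV k) = ((B.v (ixf n n' ιV k)).w : ℝ) := rfl
    rw [this, valV]
  have xB : ∀ k, (B.Q n').1 (ixf n n' ιV k) = ((B.v (lkp 0 ιV k)).x : ℝ) := by
    intro k
    have : (B.Q n').1 (ixf n n' ιV k) = ((B.v (ixf n n' ιV k)).x : ℝ) := rfl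
    rw [this, valV]
  have FB : ∀ k, (B.Q n').2 (ixf n n' ιV k) = ((B.v (lkp 0 ιV k)).F : ℝ) := by
    intro k
    have : (B.Q n').2 (ixf n n' ιV k) = ((B.v (ixf n n' ιV k)).F : ℝ) := rfl
    rw [this, valV]
  have dxB : ∀ k, (B.V n').1 (ixf n n' ιV k) = ((B.v (lkp 0 ιV k)).dx : ℝ) := by
    intro k
    have : (B.V n').1 (ixf n n' ιV k) = ((B.v (ixf n n' ιV k)).dx : ℝ) := rfl
    rw [this, valV]
  have dFB : ∀ k, (B.V n').2 (ixf n n' ιV k) = ((B.v (lkp 0 ιV k)).dF : ℝ) := by
    intro k
    have : (B.V n').2 (ixf n n' ιV k) = ((B.v (ixf n n' ιV k)).dF : ℝ) := rfl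
    rw [this, valV]
  refine ⟨h1, ⟨vA.valid, injE, injV, newE, newV, covE, covV, ?_, ?_, ?_, ?_, ?_, ?_, ?_, ?_, ?_, ?_,
    ?_, ?_, ?_, ?_, ?_⟩, ⟨vA.len, ?_, ?_, ?_, ?_, ?_, ?_, ?_, ?_, ?_, ?_, ?_, ?_, ?_, ?_, ?_⟩⟩
  · -- tyi
    have h' : (A.cb m n).ty I = tyOf (A.v I).ty := rfl
    rw [h', vI, i1]
    rfl
  · -- tyi'
    have h' : (B.cb m' n').ty (ixf n n' ιV I) = tyOf (B.v (ixf n n' ιV I)).ty := rfl
    rw [h', valV, vI, i2]
    rfl
  · -- tyj
    have h' : (B.cb m' n').ty J = tyOf (B.v J).ty := rfl
    rw [h', vJ, j1]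
    rfl
  · -- eai
    apply Fin.ext
    rw [vB.eav, valV, valE, vI, i3, veaI]
  · -- ebi
    apply Fin.ext
    rw [vB.ebv, valV, vI, i4, vEE]
  · -- eaj
    apply Fin.ext
    rw [vB.eav, vJ, j2, vEE]
  · -- ebj
    apply Fin.ext
    rw [vB.ebv, valE, vJ, j3, vebI]
  · -- lfe
    apply Fin.ext
    rw [vB.lfv, vEE, h6, vJ]
  · -- rte
    apply Fin.ext
    rw [vB.rtv, vEE, h7, valV, vI]
  · -- lf₀
    apply Fin.ext
    rw [vB.lfv, valE, (h5' _).2, if_pos vebI, vJ]
  · -- lf
    intro d hd
    apply Fin.ext
    rw [vB.lfv, valE, valV, vA.lfv, (h5' d).2, if_neg]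
    intro h
    exact hd (Fin.ext (by rw [h, vebI]))
  · -- rt
    intro d
    apply Fin.ext
    rw [vB.rtv, valE, valV, vA.rtv]
    exact (h5' d).1
  · -- ty
    intro k hk
    have h' : (B.cb m' n').ty (ixf n n' ιV k) = tyOf (B.v (ixf n n' ιV k)).ty := rfl
    rw [h', valV, ← (h4n k hk).1]
    rfl
  · -- ea
    intro k hk
    apply Fin.ext
    rw [vB.eav, valV, (h4n k hk).2.2.2.2.2.2.1, valE, vA.eav]
  · -- eb
    intro k hk
    apply Fin.ext
    rw [vB.ebv, valV, (h4n k hk).2.2.2.2.2.2.2, valE, vA.ebv]
  · -- hw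
    intro k hk
    rw [wB, ← (h4n k hk).2.1]
    rfl
  · -- wi
    rw [wB, vI, wA]
    exact w8 i5
  · -- wj
    rw [wJ, wA]
    exact w8 j4
  · intro k hk
    rw [xB, ← (h4n k hk).2.2.1]
    rfl
  · intro k hk
    rw [FB, ← (h4n k hk).2.2.2.1]
    rfl
  · intro k hk
    rw [dxB, ← (h4n k hk).2.2.2.2.1]
    rfl
  · intro k hk
    rw [dFB, ← (h4n k hk).2.2.2.2.2.1]
    rfl
  · -- xi
    rw [xB, vI, xA, wA]
    exact px2 i6
  · -- xj
    rw [xJ, xA, wA]
    exact mx2 j5
  · -- Fi
    rw [FB, vI, FA, wA, vA.pea, vI]
    exact p2 i7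
  · -- Fj
    rw [FJ, FA, wA, vA.peb, vI]
    exact m2 j6
  · -- vxi
    rw [dxB, vI, dxA, i8]
  · -- vxj
    rw [dxJ, dxA, j7]
  · -- vFi
    rw [dFB, vI, dFA, wA, vA.dpe, veaI]
    exact p2 i9
  · -- vFj
    rw [dFJ, dFA, wA, vA.dpe, vebI]
    exact m2 j8

end LCA


end

section

/-!
# Part A: folds, the checker
-/

namespace LCA

open Set Filter
open scoped ContDiff Topology

namespace STD

variable {m n : ℕ}

/-- The states at the two ends of a motion with constant velocities. -/
theorem linEnd (Q V : St n) (t : ℝ) : lin Q V t (t + 1) = Q + (1 : ℝ) • V := by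
  simp [lin]

/-- The difference of the slopes at a vertex does not vanish during the motion. -/
theorem dlNe (hLNP : Stmt_LNP) (c : Comb m n) (w : Fin n → ℝ) (Q Q' V' : St n) (i : Fin n)
    (hw : ∀ i, 0 < w i) (hlin : c.Lin 1 Q Q' V')
    (hcert : ∀ s ∈ Icc (0 : ℝ) 1, c.Cert w (Q + s • V') V')
    (hs : (0 < c.dl Q i ∧ 0 < c.dl Q' i) ∨ (c.dl Q i < 0 ∧ c.dl Q' i < 0)) :
    ∀ s ∈ Icc (0 : ℝ) 1, c.dl (Q + s • V') i ≠ 0 := by
  have key : ∀ s ∈ Icc (0 : ℝ) 1, c.dl (Q + s • V') i = c.dl Q' i +
      (s - 1) * (c.dpe Q' V' (c.eb i) - c.dpe Q' V' (c.ea i)) := by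
    intro s hs
    have hl : ∀ e, (Q + s • V').1 (c.lf e) < (Q + s • V').1 (c.rt e) := by
      intro e
      have h1 := (hcert s hs).len e
      have h2 := hw (c.lf e)
      have h3 := hw (c.rt e)
      linarith
    have ha := (hLNP c 1 Q Q' V' hlin (c.ea i) s (hl _)).1
    have hb := (hLNP c 1 Q Q' V' hlin (c.eb i) s (hl _)).1
    unfold Comb.dl
    rw [ha, hb]
    ring
  have h0 : c.dl Q i = c.dl Q' i - (c.dpe Q' V' (c.eb i) - c.dpe Q' V' (c.ea i)) := by
    have h := key 0 ⟨le_refl _, zero_le_one⟩
    rw [zero_smul, add_zero] at h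
    rw [h]
    ring
  intro s hsI
  rw [key s hsI]
  obtain ⟨s0, s1⟩ := hsI
  set D := c.dpe Q' V' (c.eb i) - c.dpe Q' V' (c.ea i)
  set R := c.dl Q' i
  have hcomb : R + (s - 1) * D = (1 - s) * c.dl Q i + s * R := by
    rw [h0]
    ring
  rw [hcomb]
  rcases hs with ⟨ha, hb⟩ | ⟨ha, hb⟩
  · have h1 : 0 ≤ (1 - s) * c.dl Q i := mul_nonneg (by linarith) ha.le
    have h2 : 0 ≤ s * R := mul_nonneg s0 hb.le
    intro h
    have h3 : (1 - s) * c.dl Q i = 0 := by linarith
    have h4 : s * R = 0 := by linarith
    rcases mul_eq_zero.1 h3 with h5 | h5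
    · rcases mul_eq_zero.1 h4 with h6 | h6
      · linarith
      · linarith
    · linarith
  · have h1 : (1 - s) * c.dl Q i ≤ 0 := mul_nonpos_of_nonneg_of_nonpos (by linarith) ha.le
    have h2 : s * R ≤ 0 := mul_nonpos_of_nonneg_of_nonpos s0 hb.le
    intro h
    have h3 : (1 - s) * c.dl Q i = 0 := by linarith
    have h4 : s * R = 0 := by linarith
    rcases mul_eq_zero.1 h3 with h5 | h5
    · rcases mul_eq_zero.1 h4 with h6 | h6
      · linarith
      · linarith
    · linarith

/-- The sign of the difference of the slopes. -/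
theorem sgn (hCBL : Stmt_CBL) (m n i : ℕ) (A A' : SD) (hi : i < n + 1) (hA : A.Vals m n)
    (hA' : A'.Vals m n) (hcb : A.cb m n = A'.cb m n) (hS : fdS i A A' = true) :
    (0 < (A.cb m n).dl (A.Q n) (Fin.ofNat (n + 1) i) ∧
      0 < (A.cb m n).dl (A'.Q n) (Fin.ofNat (n + 1) i)) ∨
    ((A.cb m n).dl (A.Q n) (Fin.ofNat (n + 1) i) < 0 ∧
      (A.cb m n).dl (A'.Q n) (Fin.ofNat (n + 1) i) < 0) := by
  obtain ⟨hbnd, hbor, hilt, -⟩ := hCBL
  have hval : ((Fin.ofNat (n + 1) i : Fin (n + 1)) : ℕ) = i := by
    simp [Fin.ofNat, Nat.mod_eq_of_lt hi]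
  have a1 := hA.pea (Fin.ofNat (n + 1) i)
  have a2 := hA.peb (Fin.ofNat (n + 1) i)
  have b1 := hA'.pea (Fin.ofNat (n + 1) i)
  have b2 := hA'.peb (Fin.ofNat (n + 1) i)
  rw [hval] at a1 a2 b1 b2
  rw [← hcb] at b1 b2
  unfold fdS at hS
  rw [hbor, hbnd, hbnd, hilt, hilt, hilt, hilt] at hS
  unfold Comb.dl
  rw [a1, a2, b1, b2]
  rcases hS with ⟨h1, h2⟩ | ⟨h1, h2⟩
  · left
    have h1' : ((A.v i).pa : ℝ) < ((A.v i).pb : ℝ) := by exact_mod_cast h1
    have h2' : ((A'.v i).pa : ℝ) < ((A'.v i).pb : ℝ) := by exact_mod_cast h2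
    constructor <;> linarith
  · right
    have h1' : ((A.v i).pb : ℝ) < ((A.v i).pa : ℝ) := by exact_mod_cast h1
    have h2' : ((A'.v i).pb : ℝ) < ((A'.v i).pa : ℝ) := by exact_mod_cast h2
    constructor <;> linarith

end STD

open _root_.LCA.STD in
/-- STD. -/
theorem t_STD (hFDR : Stmt_FDR) (hFDC : Stmt_FDC) (hMVR : Stmt_MVR) (hSTF : Stmt_STF)
    (hSVL : Stmt_SVL) (hGOK : Stmt_GOK) (hGOC : Stmt_GOC) (hFLD : Stmt_FLD) (hCBL : Stmt_CBL)
    (hLNP : Stmt_LNP) : Stmt_STD := by
  intro K sh m n m' n' t ιE κE ιV κV i e j A A' hA hA' hgo hmv hS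
  have fA := hSTF m n A hA
  have fA' := hSTF m n A' hA'
  have vA := hSVL m n A fA
  have vA' := hSVL m n A' fA'
  obtain ⟨hGo, hcb, hW⟩ := hGOK m n 1 A A' hA hA' hgo
  obtain ⟨-, -, hV, hQ⟩ := (hMVR m n A A' fA fA').1 1 hmv
  have hGo1 : (A.cb m n).Go (A.W n) 1 (A.Q n) (A.V n) (A'.Q n) (A'.V n) := by
    have h := hGo
    rw [Int.cast_one] at h
    exact h
  rw [Int.cast_one, one_smul] at hQ
  have hc := (hGOC (A.cb m n) (A.W n) 1 (A.Q n) (A.V n) (A'.Q n) (A'.V n) hGo1).1
  have hcert : ∀ s ∈ Icc (t : ℝ) (t + 1), (A.cb m n).Cert (A.W n) (lin (A.Q n) (A.V n) t s)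
      (A.V n) := by
    intro s hs
    have h := hc (s - t) ⟨by linarith [hs.1], by linarith [hs.2]⟩
    rw [hV] at h
    exact h
  have hdl : i < n + 1 → ∀ s ∈ Icc (t : ℝ) (t + 1),
      (A.cb m n).dl (lin (A.Q n) (A.V n) t s) (Fin.ofNat (n + 1) i) ≠ 0 := by
    intro hi s hs
    have h := dlNe hLNP (A.cb m n) (A.W n) (A.Q n) (A'.Q n) (A'.V n) (Fin.ofNat (n + 1) i)
      vA.wpos hGo1.lin hc (sgn hCBL m n i A A' hi vA vA' hcb hS) (s - t)
      ⟨by linarith [hs.1], by linarith [hs.2]⟩
    rw [hV] at h
    exact h
  have hend : lin (A.Q n) (A.V n) t ((t : ℝ) + 1) = A'.Q n := by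
    rw [linEnd, one_smul, hQ]
  constructor
  · intro B hB hfd hAt
    have fB := hSTF m' n' B hB
    have vB := hSVL m' n' B fB
    obtain ⟨hi, hcomb, hst⟩ := hFDC m n m' n' ιE κE ιV κV i e j A' B fA' fB vA' vB hfd
    have hfl := vA'.fl
    have hfr := vA'.fr
    rw [← hcb] at hcomb hst hfl hfr
    rw [← hW] at hst
    have hfold : ∀ s : ℝ, (∀ d, 2 * (A.W n ((A.cb m n).lf d) + A.W n ((A.cb m n).rt d)) <
        (lin (A.Q n) (A.V n) t s).1 ((A.cb m n).rt d) -
          (lin (A.Q n) (A.V n) t s).1 ((A.cb m n).lf d)) →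
        FoldSt (A.cb m n) (B.cb m' n') (ixf n n' ιV) (Fin.ofNat (n + 1) i)
          (Fin.ofNat (n' + 1) j) (A.W n) (B.W n') (lin (A.Q n) (A.V n) t s) (A.V n)
          (lin (B.Q n' - B.V n') (B.V n') t s) (B.V n') := by
      intro s hlen
      have e1 : A'.Q n + (s - t - 1) • A'.V n = lin (A.Q n) (A.V n) t s := by
        rw [hV, hQ]
        unfold lin
        module
      have e2 : B.Q n' + (s - t - 1) • B.V n' = lin (B.Q n' - B.V n') (B.V n') t s := by
        unfold lin
        module
      have h := hFDR (A.cb m n) (B.cb m' n') (ixf m m' ιE) (ixf n n' ιV) (Fin.ofNat (n + 1) i)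
        (Fin.ofNat (m' + 1) e) (Fin.ofNat (n' + 1) j) (A.W n) (B.W n') (A'.Q n) (A'.V n)
        (B.Q n') (B.V n') (s - t - 1) hcomb hst hfl hfr vA.wpos (by rw [e1]; exact hlen)
      rw [e1, e2, hV] at h
      exact h
    have h := (hFLD K sh (A.cb m n) (B.cb m' n') (ixf m m' ιE) (ixf n n' ιV)
      (Fin.ofNat (n + 1) i) (Fin.ofNat (m' + 1) e) (Fin.ofNat (n' + 1) j) (A.W n) (B.W n')
      (A.Q n) (A.V n) (B.Q n' - B.V n') (B.V n') t hcomb vA.wpos hcert (hdl hi) hfold).1 hAt
    rw [linEnd, one_smul, sub_add_cancel] at h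
    unfold AtD
    rw [Int.cast_add, Int.cast_one]
    exact h
  · intro B hB hfd hAt
    have fB := hSTF m' n' B hB
    have vB := hSVL m' n' B fB
    obtain ⟨hi, hcomb, hst⟩ := hFDC m n m' n' ιE κE ιV κV i e j A B fA fB vA vB hfd
    have hfold : ∀ s : ℝ, (∀ d, 2 * (A.W n ((A.cb m n).lf d) + A.W n ((A.cb m n).rt d)) <
        (lin (A.Q n) (A.V n) t s).1 ((A.cb m n).rt d) -
          (lin (A.Q n) (A.V n) t s).1 ((A.cb m n).lf d)) →
        FoldSt (A.cb m n) (B.cb m' n') (ixf n n' ιV) (Fin.ofNat (n + 1) i)
          (Fin.ofNat (n' + 1) j) (A.W n) (B.W n') (lin (A.Q n) (A.V n) t s) (A.V n)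
          (lin (B.Q n') (B.V n') t s) (B.V n') := by
      intro s hlen
      exact hFDR (A.cb m n) (B.cb m' n') (ixf m m' ιE) (ixf n n' ιV) (Fin.ofNat (n + 1) i)
        (Fin.ofNat (m' + 1) e) (Fin.ofNat (n' + 1) j) (A.W n) (B.W n') (A.Q n) (A.V n)
        (B.Q n') (B.V n') (s - t) hcomb hst vA.fl vA.fr vA.wpos hlen
    have h := (hFLD K sh (A.cb m n) (B.cb m' n') (ixf m m' ιE) (ixf n n' ιV)
      (Fin.ofNat (n + 1) i) (Fin.ofNat (m' + 1) e) (Fin.ofNat (n' + 1) j) (A.W n) (B.W n')
      (A.Q n) (A.V n) (B.Q n') (B.V n') t hcomb vA.wpos hcert (hdl hi) hfold).2 hAt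
    rw [hend] at h
    unfold AtD
    rw [Int.cast_add, Int.cast_one, ← hcb, ← hW, hV]
    exact h

end LCA


end

section

/-!
# ZPN: the polygons of a stabilised knot have a zigzag
-/

namespace LHE

open Set LG LH

theorem t_ZPN : Stmt_ZPN := by
  intro hEST hZGS hFGP hFGO hIDX Λ' Λ hst
  obtain ⟨s, a, c, d, b, ξ₁, ξ₂, o, hZ⟩ := hZGS Λ' Λ hst
  obtain ⟨δ₁, hδ₁, h1⟩ := hFGP Λ' s a c d ξ₁ hZ.f1
  obtain ⟨δ₂, hδ₂, h2⟩ := hFGP Λ' (!s) c d b (-ξ₂) hZ.f2
  have hδ : 0 < min δ₁ δ₂ := lt_min hδ₁ hδ₂
  obtain ⟨N₁, h1⟩ := h1 (min δ₁ δ₂) hδ (min_le_left _ _)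
  obtain ⟨N₂, h2⟩ := h2 (min δ₁ δ₂) hδ (min_le_right _ _)
  obtain ⟨N₃, h3⟩ := hFGO Λ' s o a c d ξ₁ hZ.f1 hZ.o1
  obtain ⟨N₄, h4⟩ := hFGO Λ' (!s) o c d b (-ξ₂) hZ.f2 hZ.o2
  have hm : StrictMonoOn (fun u => sn s * Λ'.x u) (Icc d b) := by
    intro x hx y hy hxy
    have h5 := hZ.f2.m2 hx hy hxy
    simp only [sn_not] at h5
    change sn s * Λ'.x x < sn s * Λ'.x y
    linarith
  obtain ⟨N₅, h5⟩ := hIDX Λ' s a c d b hZ.f1.ac hZ.f1.cd hZ.f2.cd hZ.f1.m1 hZ.f1.m2 hm
  obtain ⟨K, hK, N₆, hN₆, h6⟩ := hEST Λ'
  obtain ⟨N₇, h7⟩ := exists_nat_gt (K / min δ₁ δ₂)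
  obtain ⟨N₈, h8⟩ := exists_nat_gt (2 / (a + 1 - b))
  have hba : 0 < a + 1 - b := by linarith [hZ.ba]
  refine ⟨s, ξ₁, ξ₂, min δ₁ δ₂, o, N₁ + N₂ + N₃ + N₄ + N₅ + N₆ + N₇ + N₈, by omega, ?_⟩
  intro N hN P hP
  obtain ⟨A, C, D, B, hi1, hi2⟩ := h5 N (by omega) P hP
  have hN6 : N₆ ≤ N := by omega
  have hN0 : (0 : ℝ) < N := by
    have : 0 < N := by omega
    exact_mod_cast this
  have hN7 : (N₇ : ℝ) ≤ N := by
    have : N₇ ≤ N := by omega
    exact_mod_cast this
  have hN8 : (N₈ : ℝ) ≤ N := by
    have : N₈ ≤ N := by omega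
    exact_mod_cast this
  refine ⟨A, C, D, B, ?_⟩
  exact {
    f1 := h1 N (by omega) P hP A C D hi1
    f2 := h2 N (by omega) P hP C D B hi2
    o1 := h3 N (by omega) P hP A C D hi1
    o2 := h4 N (by omega) P hP C D B hi2
    BA := by
      have e1 := abs_le.1 hi1.a
      have e2 := abs_le.1 hi2.d
      have e3 : 2 < (N : ℝ) * (a + 1 - b) := by
        have := lt_of_lt_of_le h8 hN8
        rwa [div_lt_iff₀ hba] at this
      have e4 : (B : ℝ) ≤ A + N := by nlinarith [e1.1, e1.2, e2.1, e2.2]
      exact_mod_cast e4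
    lt := hZ.lt
    dpos := hδ
    st := by
      intro i
      have e1 := ((h6 N hN6 P hP).2 i).2.2.1
      refine lt_of_le_of_lt e1 ?_
      rw [div_lt_iff₀ hN0, mul_comm]
      have := lt_of_lt_of_le h7 hN7
      rwa [div_lt_iff₀ hδ] at this }

end LHE


end

section

/-!
# Rotation and shift of a walk of a polygon
-/

namespace LHE

open Set LG LH

namespace ROT

variable {N : ℕ}

theorem px (P : Pg N) (i k : ℤ) : P.x (i + k * N) = P.x i :=
  (Function.Periodic.int_mul (f := P.x) (c := (N : ℤ)) (fun i => P.px i) k) i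

theorem py (P : Pg N) (i k : ℤ) : P.y (i + k * N) = P.y i :=
  (Function.Periodic.int_mul (f := P.y) (c := (N : ℤ)) (fun i => P.py i) k) i

theorem pz (P : Pg N) (i k : ℤ) : P.z (i + k * N) = P.z i :=
  (Function.Periodic.int_mul (f := P.z) (c := (N : ℤ)) (fun i => P.pz i) k) i

/-- The shift by `k` periods. -/
def sk (N : ℕ) (k : ℤ) (i : It) : It := { i with e := i.e + k * N }

theorem sh_eq (i : It) : i.sh N = sk N 1 i := by
  unfold It.sh sk
  rw [one_mul]

theorem sk_sh (k : ℤ) (i : It) : sk N k (i.sh N) = (sk N k i).sh N := by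
  unfold It.sh sk
  congr 1
  show i.e + N + k * N = i.e + k * N + N
  ring

theorem pt_sk (P : Pg N) (k : ℤ) (i : It) : pt P (sk N k i) = pt P i := by
  unfold pt sk Pg.l
  show (⟨i.k, i.t, P.z (i.e + k * N) + P.y (i.e + k * N) * (i.t - P.x (i.e + k * N))⟩ : Pt) = _
  rw [px, py, pz]

theorem ok_sk {P : Pg N} (k : ℤ) {i : It} (h : ItOK P i) : ItOK P (sk N k i) := by
  have e1 : P.x (i.e + k * N) = P.x i.e := px P i.e k
  have e2 : P.x (i.e + k * N + 1) = P.x (i.e + 1) := by
    rw [← px P (i.e + 1) k]
    congr 1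
    ring
  unfold ItOK sk at *
  dsimp only
  rw [e1, e2]
  exact h

theorem lnk_sk {P : Pg N} {X : Finset ℝ} (k : ℤ) {i j : It} (h : Lnk P X i j) :
    Lnk P X (sk N k i) (sk N k j) where
  le := by
    show i.e + k * N ≤ j.e + k * N
    linarith [h.le]
  tl := by
    intro ht
    show i.e + k * N < j.e + k * N
    linarith [h.tl ht]
  adj := h.adj
  ins := by
    intro m h1 h2
    have h1' : i.e + k * N < m := h1
    have h2' : m ≤ j.e + k * N := h2
    have h3 := h.ins (m - k * N) (by linarith) (by linarith)
    rw [← px P (m - k * N) k, sub_add_cancel] at h3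
    exact h3
  dir := h.dir

theorem isChain_sk {P : Pg N} {X : Finset ℝ} (k : ℤ) : ∀ {w : List It},
    List.IsChain (Lnk P X) w → List.IsChain (Lnk P X) (w.map (sk N k)) := by
  intro w h
  rw [List.isChain_map]
  exact h.imp fun _ _ hab => lnk_sk k hab

theorem ew_sk {P : Pg N} {X : Finset ℝ} (k : ℤ) {w : List It} (h : EW P X w) :
    EW P X (w.map (sk N k)) := by
  obtain ⟨i, w', rfl, h1, h2⟩ := h
  refine ⟨sk N k i, w'.map (sk N k), by rw [List.map_cons], ?_, ?_⟩
  · intro j hj
    obtain ⟨j', hj', rfl⟩ := List.mem_map.1 hj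
    exact ok_sk k (h1 j' hj')
  · have := isChain_sk k h2
    rw [List.map_append, List.map_cons (l := []), List.map_nil, sk_sh] at this
    exact this

/-- No two consecutive turns. -/
def NZ (l : List Kd) : Prop := ∀ x ∈ cp l, ¬ ((x.1 = .R ∨ x.1 = .L) ∧ (x.2 = .R ∨ x.2 = .L))

theorem cp_map {α β : Type*} (f : α → β) (l : List α) :
    cp (l.map f) = (cp l).map (Prod.map f f) := by
  unfold cp
  rw [← List.map_rotate, List.zip_map]

theorem cp_rotate {α : Type*} (l : List α) (n : ℕ) : cp (l.rotate n) = (cp l).rotate n := by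
  unfold cp
  rw [List.rotate_rotate, Nat.add_comm, ← List.rotate_rotate]
  unfold List.zip
  rw [List.zipWith_rotate_distrib]
  rw [List.length_rotate]

theorem nz_rot {l l' : List Kd} (h : l.IsRotated l') (h1 : NZ l) : NZ l' := by
  obtain ⟨n, rfl⟩ := h
  intro x hx
  rw [cp_rotate, List.mem_rotate] at hx
  exact h1 x hx

theorem gw_iff {P : Pg N} {X : Finset ℝ} {w : List It} :
    GW P X w ↔ EW P X w ∧ NZ (w.map It.k) := by
  unfold GW NZ
  refine and_congr_right fun _ => ?_
  rw [cp_map]
  constructor
  · intro h x hx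
    obtain ⟨y, hy, rfl⟩ := List.mem_map.1 hx
    exact h y hy
  · intro h x hx
    exact h (Prod.map It.k It.k x) (List.mem_map.2 ⟨x, hx, rfl⟩)

theorem ew_rot {P : Pg N} {X : Finset ℝ} {i : It} {w : List It} (h : EW P X (i :: w)) :
    EW P X (w ++ [i.sh N]) := by
  obtain ⟨i', w', h0, h1, h2⟩ := h
  obtain ⟨rfl, rfl⟩ := List.cons.inj h0
  have hok : ∀ j ∈ w ++ [i.sh N], ItOK P j := by
    intro j hj
    rcases List.mem_append.1 hj with h3 | h3
    · exact h1 j (List.mem_cons_of_mem _ h3)
    · rw [List.mem_singleton] at h3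
      rw [h3, sh_eq]
      exact ok_sk 1 (h1 i (List.mem_cons_self ..))
  rcases w with _ | ⟨a, w⟩
  · refine ⟨i.sh N, [], rfl, hok, ?_⟩
    have h3 := isChain_sk 1 h2
    rw [sh_eq, sh_eq]
    rw [sh_eq] at h3
    exact h3
  · refine ⟨a, w ++ [i.sh N], rfl, hok, ?_⟩
    have h2' : List.IsChain (Lnk P X) (i :: a :: (w ++ [i.sh N])) := h2
    rw [List.isChain_cons_cons] at h2'
    have h3 : Lnk P X (i.sh N) (a.sh N) := by
      rw [sh_eq, sh_eq]
      exact lnk_sk 1 h2'.1
    rw [List.isChain_append]
    refine ⟨h2'.2, List.isChain_singleton _, ?_⟩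
    intro x hx y hy
    have hx' : x = i.sh N := by
      rw [List.getLast?_append_of_ne_nil _ (by simp), List.getLast?_singleton] at hx
      exact (Option.mem_some_iff.1 hx).symm
    have hy' : y = a.sh N := by
      rw [List.head?_cons] at hy
      exact (Option.mem_some_iff.1 hy).symm
    rw [hx', hy']
    exact h3

theorem gw_rot {P : Pg N} {X : Finset ℝ} {i : It} {w : List It} (h : GW P X (i :: w)) :
    GW P X (w ++ [i.sh N]) := by
  rw [gw_iff] at h ⊢
  refine ⟨ew_rot h.1, nz_rot ?_ h.2⟩
  rw [List.map_append, List.map_cons, List.map_cons, List.map_nil]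
  have : (i.sh N).k = i.k := rfl
  rw [this]
  exact ⟨1, by rw [List.rotate_cons_succ, List.rotate_zero]⟩

theorem main {P : Pg N} {X : Finset ℝ} (j : It) : ∀ (u v : List It), GW P X (u ++ j :: v) →
    ∃ w' : List It, GW P X (j :: w') ∧
      ((j :: w').map (pt P)).IsRotated ((u ++ j :: v).map (pt P)) := by
  intro u
  induction u with
  | nil =>
    intro v h
    exact ⟨v, h, List.IsRotated.refl _⟩
  | cons a u ih =>
    intro v h
    have h1 : GW P X ((u ++ j :: v) ++ [a.sh N]) := gw_rot h
    rw [List.append_assoc, List.cons_append] at h1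
    obtain ⟨w', h2, h3⟩ := ih (v ++ [a.sh N]) h1
    refine ⟨w', h2, h3.trans ?_⟩
    have e : (u ++ j :: (v ++ [a.sh N])).map (pt P) = (u ++ j :: v).map (pt P) ++ [pt P a] := by
      rw [← pt_sk P 1 a, ← sh_eq]
      simp only [List.map_append, List.map_cons, List.map_nil, List.append_assoc,
        List.cons_append]
    rw [e, List.cons_append, List.map_cons]
    refine List.IsRotated.symm ⟨1, ?_⟩
    rw [List.rotate_cons_succ, List.rotate_zero]

end ROT

open _root_.LHE.ROT in
theorem t_ROT : Stmt_ROT := by
  intro N P X w hw j hj k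
  obtain ⟨u, v, rfl⟩ := List.append_of_mem hj
  obtain ⟨w', h1, h2⟩ := main j u v hw
  refine ⟨w'.map (sk N k), ?_, ?_⟩
  · have h3 : GW P X ((j :: w').map (sk N k)) := by
      rw [gw_iff] at h1 ⊢
      refine ⟨ew_sk k h1.1, ?_⟩
      have : ((j :: w').map (sk N k)).map It.k = (j :: w').map It.k := by
        rw [List.map_map]
        rfl
      rw [this]
      exact h1.2
    rw [List.map_cons] at h3
    exact h3
  · have h3 : (({ j with e := j.e + k * N } : It) :: w'.map (sk N k)).map (pt P) =
        (j :: w').map (pt P) := by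
      rw [List.map_cons, List.map_cons, List.map_map]
      congr 1
      · exact pt_sk P k j
      · exact List.map_congr_left fun i _ => pt_sk P k i
    rw [h3]
    exact h2

end LHE


end

section

set_option maxRecDepth 100000

namespace LCA.CapJ

open LCA

def S275 : SD where
  vs := [
    ⟨nat_lit 0, nat_lit 3, nat_lit 10, (.ofNat (nat_lit 16)), (.ofNat (nat_lit 288621802291200)), (.ofNat (nat_lit 58756501954014043076811966235399576333489205673984000000)), (.ofNat (nat_lit 0)), (.ofNat (nat_lit 0)), (.ofNat (nat_lit 288621802291168)), (.ofNat (nat_lit 288621802291232)), (.negSucc (nat_lit 463620092822858649396187880226815999999999)), (.negSucc (nat_lit 474038521875057720169135922479103999999999)), (.negSucc (nat_lit 474038521875057720169135922479103999999999)), (.negSucc (nat_lit 463620092822858649396187880226815999999999)), (.ofNat (nat_lit 0))⟩,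
    ⟨nat_lit 2, nat_lit 0, nat_lit 1, (.ofNat (nat_lit 16)), (.negSucc (nat_lit 549755813887999)), (.ofNat (nat_lit 120279437284502097135725017355140140065026473984000000)), (.ofNat (nat_lit 0)), (.ofNat (nat_lit 0)), (.negSucc (nat_lit 549755813888031)), (.negSucc (nat_lit 549755813887967)), (.ofNat (nat_lit 1173253888008349739468854842076692480000000)), (.ofNat (nat_lit 0)), (.ofNat (nat_lit 0)), (.ofNat (nat_lit 1173253888008349739468854842076692480000000)), (.ofNat (nat_lit 34185470327528200973735763640320000000))⟩,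
    ⟨nat_lit 0, nat_lit 5, nat_lit 9, (.ofNat (nat_lit 16)), (.ofNat (nat_lit 1102260406845440)), (.negSucc (nat_lit 39021278458738771940803924849574714750974889558015999999)), (.ofNat (nat_lit 0)), (.negSucc (nat_lit 50742884870246718155489054900230762090463231999999999)), (.ofNat (nat_lit 1102260406845408)), (.ofNat (nat_lit 1102260406845472)), (.ofNat (nat_lit 1181449854519374625652307991409459200000000)), (.ofNat (nat_lit 0)), (.ofNat (nat_lit 0)), (.ofNat (nat_lit 1181449854519374625652307991409459200000000)), (.ofNat (nat_lit 0))⟩,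
    ⟨nat_lit 2, nat_lit 3, nat_lit 2, (.ofNat (nat_lit 16)), (.ofNat (nat_lit 0)), (.ofNat (nat_lit 192567368722960944286842362861193289697970024873984000000)), (.ofNat (nat_lit 0)), (.ofNat (nat_lit 0)), (.negSucc (nat_lit 31)), (.ofNat (nat_lit 32)), (.negSucc (nat_lit 463620092822858649396187880226815999999999)), (.negSucc (nat_lit 678592981158210632062312820181565439999999)), (.negSucc (nat_lit 678592981158210632062312820181565439999999)), (.negSucc (nat_lit 463620092822858649396187880226815999999999)), (.ofNat (nat_lit 123067693179101523505448749105152000000))⟩,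
    ⟨nat_lit 0, nat_lit 0, nat_lit 4, (.ofNat (nat_lit 16)), (.negSucc (nat_lit 274877906943999)), (.ofNat (nat_lit 322621852486929859277862250283956031368809607593984000000)), (.ofNat (nat_lit 0)), (.ofNat (nat_lit 2349207632881792507198567356492164911595520000000000)), (.negSucc (nat_lit 274877906944031)), (.negSucc (nat_lit 274877906943967)), (.ofNat (nat_lit 1173253888008349739468854842076692480000000)), (.negSucc (nat_lit 1365651851603573925061600578329640959999999)), (.negSucc (nat_lit 1365651851603573925061600578329640959999999)), (.ofNat (nat_lit 1173253888008349739468854842076692480000000)), (.ofNat (nat_lit 55551389282233326582320615915520000000))⟩,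
    ⟨nat_lit 0, nat_lit 2, nat_lit 5, (.ofNat (nat_lit 16)), (.ofNat (nat_lit 824633720832000)), (.negSucc (nat_lit 367023286260013558097885175724666360903729221206015999999)), (.ofNat (nat_lit 0)), (.negSucc (nat_lit 50742884870246718155489054900230762090463231999999999)), (.ofNat (nat_lit 824633720831968)), (.ofNat (nat_lit 824633720832032)), (.negSucc (nat_lit 678592981158210632062312820181565439999999)), (.ofNat (nat_lit 1181449854519374625652307991409459200000000)), (.negSucc (nat_lit 678592981158210632062312820181565439999999)), (.ofNat (nat_lit 1181449854519374625652307991409459200000000)), (.ofNat (nat_lit 246135386358203047010897498210304000000))⟩,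
    ⟨nat_lit 1, nat_lit 9, nat_lit 8, (.ofNat (nat_lit 16)), (.ofNat (nat_lit 1911844562272256)), (.negSucc (nat_lit 39021278458738771940803924849574714750974889558015999999)), (.ofNat (nat_lit 0)), (.negSucc (nat_lit 50742884870246718155489054900230762090463231999999999)), (.ofNat (nat_lit 1911844562272224)), (.ofNat (nat_lit 1911844562272288)), (.ofNat (nat_lit 0)), (.negSucc (nat_lit 664559874219807481046849711096463359999999)), (.negSucc (nat_lit 664559874219807481046849711096463359999999)), (.ofNat (nat_lit 0)), (.ofNat (nat_lit 8589314152645276626566774784000000000))⟩,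
    ⟨nat_lit 0, nat_lit 11, nat_lit 6, (.ofNat (nat_lit 16)), (.ofNat (nat_lit 1102260406845440)), (.negSucc (nat_lit 38970535573868525222648435794674483988884426326015999999)), (.ofNat (nat_lit 0)), (.ofNat (nat_lit 0)), (.ofNat (nat_lit 1102260406845408)), (.ofNat (nat_lit 1102260406845472)), (.ofNat (nat_lit 0)), (.ofNat (nat_lit 1181449854519374625652307991409459200000000)), (.ofNat (nat_lit 0)), (.ofNat (nat_lit 1181449854519374625652307991409459200000000)), (.ofNat (nat_lit 0))⟩,
    ⟨nat_lit 0, nat_lit 6, nat_lit 7, (.ofNat (nat_lit 16)), (.ofNat (nat_lit 1146034713526272)), (.ofNat (nat_lit 12746612685886929921426008959640708733715699728384000000)), (.ofNat (nat_lit 0)), (.ofNat (nat_lit 0)), (.ofNat (nat_lit 1146034713526240)), (.ofNat (nat_lit 1146034713526304)), (.ofNat (nat_lit 1181449854519374625652307991409459200000000)), (.ofNat (nat_lit 1424803591489243499827691839605964800000000)), (.ofNat (nat_lit 1181449854519374625652307991409459200000000)), (.ofNat (nat_lit 1424803591489243499827691839605964800000000)),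 (.ofNat (nat_lit 485296249624458129401022775296000000000))⟩,
    ⟨nat_lit 0, nat_lit 7, nat_lit 8, (.ofNat (nat_lit 16)), (.ofNat (nat_lit 1364837527453696)), (.ofNat (nat_lit 324497647797633312959010162346767895207420398403584000000)), (.ofNat (nat_lit 0)), (.negSucc (nat_lit 53092092503128510662687622256722927002058751999999999)), (.ofNat (nat_lit 1364837527453664)), (.ofNat (nat_lit 1364837527453728)), (.ofNat (nat_lit 1424803591489243499827691839605964800000000)), (.negSucc (nat_lit 664559874219807481046849711096463359999999)), (.negSucc (nat_lit 664559874219807481046849711096463359999999)), (.ofNat (nat_lit 1424803591489243499827691839605964800000000)), (.ofNat (nat_lit 979181813401561535428612325376000000000))⟩,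
    ⟨nat_lit 1, nat_lit 1, nat_lit 12, (.ofNat (nat_lit 16)), (.negSucc (nat_lit 5497558138879)), (.ofNat (nat_lit 120279437284502097135725017355140140065026473984000000)), (.ofNat (nat_lit 0)), (.ofNat (nat_lit 0)), (.negSucc (nat_lit 5497558138911)), (.negSucc (nat_lit 5497558138847)), (.ofNat (nat_lit 0)), (.negSucc (nat_lit 448513370697169996775413218960998399999999)), (.negSucc (nat_lit 448513370697169996775413218960998399999999)), (.ofNat (nat_lit 0)), (.ofNat (nat_lit 0))⟩,
    ⟨nat_lit 0, nat_lit 10, nat_lit 11, (.ofNat (nat_lit 16)), (.ofNat (nat_lit 494780232499200)), (.negSucc (nat_lit 38970535573868525222648435794674483988884426326015999999)), (.ofNat (nat_lit 0)), (.ofNat (nat_lit 0)), (.ofNat (nat_lit 494780232499168)), (.ofNat (nat_lit 494780232499232)), (.negSucc (nat_lit 474038521875057720169135922479103999999999)), (.ofNat (nat_lit 0)), (.negSucc (nat_lit 474038521875057720169135922479103999999999)), (.ofNat (nat_lit 0)), (.ofNat (nat_lit 0))⟩,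
    ⟨nat_lit 0, nat_lit 4, nat_lit 12, (.ofNat (nat_lit 16)), (.negSucc (nat_lit 54975581388799)), (.ofNat (nat_lit 22311834420539066837136271693722726760960946601984000000)), (.ofNat (nat_lit 0)), (.ofNat (nat_lit 0)), (.negSucc (nat_lit 54975581388831)), (.negSucc (nat_lit 54975581388767)), (.negSucc (nat_lit 1365651851603573925061600578329640959999999)), (.negSucc (nat_lit 448513370697169996775413218960998399999999)), (.negSucc (nat_lit 1365651851603573925061600578329640959999999)), (.negSucc (nat_lit 448513370697169996775413218960998399999999)), (.ofNat (nat_lit 42731837909410251217169704550400000000))⟩]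
  es := [
    ⟨nat_lit 1, nat_lit 4, (.negSucc (nat_lit 549755813887999)), (.negSucc (nat_lit 274877906943999)), (.negSucc (nat_lit 549755813887967)), (.negSucc (nat_lit 274877906944031)), (.ofNat (nat_lit 1173253888008349739468854842076692480000000)), (.ofNat (nat_lit 8546367581882050243433940910080000000)), (.ofNat (nat_lit 4698415265763585014397134712984329823191040000000000))⟩,
    ⟨nat_lit 1, nat_lit 10, (.negSucc (nat_lit 549755813887999)), (.negSucc (nat_lit 5497558138879)), (.negSucc (nat_lit 549755813887967)), (.negSucc (nat_lit 5497558138911)), (.ofNat (nat_lit 0)), (.ofNat (nat_lit 0)), (.ofNat (nat_lit 0))⟩,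
    ⟨nat_lit 3, nat_lit 5, (.ofNat (nat_lit 0)), (.ofNat (nat_lit 824633720832000)), (.ofNat (nat_lit 32)), (.ofNat (nat_lit 824633720831968)), (.negSucc (nat_lit 678592981158210632062312820181565439999999)), (.negSucc (nat_lit 61533846589550761752724374552575999999)), (.ofNat (nat_lit 0))⟩,
    ⟨nat_lit 3, nat_lit 0, (.ofNat (nat_lit 0)), (.ofNat (nat_lit 288621802291200)), (.ofNat (nat_lit 32)), (.ofNat (nat_lit 288621802291168)), (.negSucc (nat_lit 463620092822858649396187880226815999999999)), (.ofNat (nat_lit 0)), (.ofNat (nat_lit 0))⟩,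
    ⟨nat_lit 4, nat_lit 12, (.negSucc (nat_lit 274877906943999)), (.negSucc (nat_lit 54975581388799)), (.negSucc (nat_lit 274877906943967)), (.negSucc (nat_lit 54975581388831)), (.negSucc (nat_lit 1365651851603573925061600578329640959999999)), (.negSucc (nat_lit 10682959477352562804292426137599999999)), (.negSucc (nat_lit 587301908220448126799641839123041227898879999999999))⟩,
    ⟨nat_lit 5, nat_lit 2, (.ofNat (nat_lit 824633720832000)), (.ofNat (nat_lit 1102260406845440)), (.ofNat (nat_lit 824633720832032)), (.ofNat (nat_lit 1102260406845408)), (.ofNat (nat_lit 1181449854519374625652307991409459200000000)), (.ofNat (nat_lit 0)), (.negSucc (nat_lit 50742884870246718155489054900230762090463231999999999))⟩,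
    ⟨nat_lit 7, nat_lit 8, (.ofNat (nat_lit 1102260406845440)), (.ofNat (nat_lit 1146034713526272)), (.ofNat (nat_lit 1102260406845472)), (.ofNat (nat_lit 1146034713526240)), (.ofNat (nat_lit 1181449854519374625652307991409459200000000)), (.ofNat (nat_lit 0)), (.ofNat (nat_lit 0))⟩,
    ⟨nat_lit 8, nat_lit 9, (.ofNat (nat_lit 1146034713526272)), (.ofNat (nat_lit 1364837527453696)), (.ofNat (nat_lit 1146034713526304)), (.ofNat (nat_lit 1364837527453664)), (.ofNat (nat_lit 1424803591489243499827691839605964800000000)), (.negSucc (nat_lit 242648124812229064700511387647999999999)), (.ofNat (nat_lit 278083174206870028995490413434474954024288256000000000))⟩,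
    ⟨nat_lit 9, nat_lit 6, (.ofNat (nat_lit 1364837527453696)), (.ofNat (nat_lit 1911844562272256)), (.ofNat (nat_lit 1364837527453728)), (.ofNat (nat_lit 1911844562272224)), (.negSucc (nat_lit 664559874219807481046849711096463359999999)), (.ofNat (nat_lit 4294657076322638313283387392000000000)), (.negSucc (nat_lit 58953601648438219329204047667186606312259583999999999))⟩,
    ⟨nat_lit 2, nat_lit 6, (.ofNat (nat_lit 1102260406845440)), (.ofNat (nat_lit 1911844562272256)), (.ofNat (nat_lit 1102260406845472)), (.ofNat (nat_lit 1911844562272224)), (.ofNat (nat_lit 0)), (.ofNat (nat_lit 0)), (.negSucc (nat_lit 50742884870246718155489054900230762090463231999999999))⟩,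
    ⟨nat_lit 0, nat_lit 11, (.ofNat (nat_lit 288621802291200)), (.ofNat (nat_lit 494780232499200)), (.ofNat (nat_lit 288621802291232)), (.ofNat (nat_lit 494780232499168)), (.negSucc (nat_lit 474038521875057720169135922479103999999999)), (.ofNat (nat_lit 0)), (.ofNat (nat_lit 0))⟩,
    ⟨nat_lit 11, nat_lit 7, (.ofNat (nat_lit 494780232499200)), (.ofNat (nat_lit 1102260406845440)), (.ofNat (nat_lit 494780232499232)), (.ofNat (nat_lit 1102260406845408)), (.ofNat (nat_lit 0)), (.ofNat (nat_lit 0)), (.ofNat (nat_lit 0))⟩,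
    ⟨nat_lit 12, nat_lit 10, (.negSucc (nat_lit 54975581388799)), (.negSucc (nat_lit 5497558138879)), (.negSucc (nat_lit 54975581388767)), (.negSucc (nat_lit 5497558138911)), (.negSucc (nat_lit 448513370697169996775413218960998399999999)), (.ofNat (nat_lit 0)), (.ofNat (nat_lit 0))⟩]

theorem ok275 : stOK 12 12 S275 = true := by decide +kernel

def S276 : SD where
  vs := [
    ⟨nat_lit 0, nat_lit 3, nat_lit 10, (.ofNat (nat_lit 16)), (.ofNat (nat_lit 288621802291200)), (.ofNat (nat_lit 58756501954014043076811966235399576333489205673984000000)), (.ofNat (nat_lit 0)), (.ofNat (nat_lit 0)), (.ofNat (nat_lit 288621802291168)), (.ofNat (nat_lit 288621802291232)), (.negSucc (nat_lit 463620092822858649396187880226815999999999)), (.negSucc (nat_lit 474038521875057720169135922479103999999999)), (.negSucc (nat_lit 474038521875057720169135922479103999999999)), (.negSucc (nat_lit 463620092822858649396187880226815999999999)), (.ofNat (nat_lit 0))⟩,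
    ⟨nat_lit 2, nat_lit 0, nat_lit 1, (.ofNat (nat_lit 16)), (.negSucc (nat_lit 549755813887999)), (.ofNat (nat_lit 120279437284502097135725017355140140065026473984000000)), (.ofNat (nat_lit 0)), (.ofNat (nat_lit 0)), (.negSucc (nat_lit 549755813888031)), (.negSucc (nat_lit 549755813887967)), (.ofNat (nat_lit 1173228248905604093318124540253962240000000)), (.ofNat (nat_lit 0)), (.ofNat (nat_lit 0)), (.ofNat (nat_lit 1173228248905604093318124540253962240000000)), (.ofNat (nat_lit 34185470327528200973735763640320000000))⟩,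
    ⟨nat_lit 0, nat_lit 5, nat_lit 9, (.ofNat (nat_lit 16)), (.ofNat (nat_lit 1102260406845440)), (.negSucc (nat_lit 38869049804128031786337457684874022464703499862015999999)), (.ofNat (nat_lit 0)), (.negSucc (nat_lit 50742884870246718155489054900230762090463231999999999)), (.ofNat (nat_lit 1102260406845408)), (.ofNat (nat_lit 1102260406845472)), (.ofNat (nat_lit 1181449854519374625652307991409459200000000)), (.ofNat (nat_lit 0)), (.ofNat (nat_lit 0)), (.ofNat (nat_lit 1181449854519374625652307991409459200000000)), (.ofNat (nat_lit 0))⟩,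
    ⟨nat_lit 2, nat_lit 3, nat_lit 2, (.ofNat (nat_lit 16)), (.ofNat (nat_lit 0)), (.ofNat (nat_lit 192567368722960944286842362861193289697970024873984000000)), (.ofNat (nat_lit 0)), (.ofNat (nat_lit 0)), (.negSucc (nat_lit 31)), (.ofNat (nat_lit 32)), (.negSucc (nat_lit 463620092822858649396187880226815999999999)), (.negSucc (nat_lit 678408379618441979777054647057907711999999)), (.negSucc (nat_lit 678408379618441979777054647057907711999999)), (.negSucc (nat_lit 463620092822858649396187880226815999999999)), (.ofNat (nat_lit 123067693179101523505448749105152000000))⟩,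
    ⟨nat_lit 0, nat_lit 0, nat_lit 4, (.ofNat (nat_lit 16)), (.negSucc (nat_lit 274877906943999)), (.ofNat (nat_lit 322614804864031213900340654581886554874074821033984000000)), (.ofNat (nat_lit 0)), (.ofNat (nat_lit 2349207632881792507198567356492164911595520000000000)), (.negSucc (nat_lit 274877906944031)), (.negSucc (nat_lit 274877906943967)), (.ofNat (nat_lit 1173228248905604093318124540253962240000000)), (.negSucc (nat_lit 1365619802725141867373187701051228159999999)), (.negSucc (nat_lit 1365619802725141867373187701051228159999999)), (.ofNat (nat_lit 1173228248905604093318124540253962240000000)), (.ofNat (nat_lit 55551389282233326582320615915520000000))⟩,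
    ⟨nat_lit 0, nat_lit 2, nat_lit 5, (.ofNat (nat_lit 16)), (.ofNat (nat_lit 824633720832000)), (.negSucc (nat_lit 366871057605402817943418708559965668617457831510015999999)), (.ofNat (nat_lit 0)), (.negSucc (nat_lit 50742884870246718155489054900230762090463231999999999)), (.ofNat (nat_lit 824633720831968)), (.ofNat (nat_lit 824633720832032)), (.negSucc (nat_lit 678408379618441979777054647057907711999999)), (.ofNat (nat_lit 1181449854519374625652307991409459200000000)), (.negSucc (nat_lit 678408379618441979777054647057907711999999)), (.ofNat (nat_lit 1181449854519374625652307991409459200000000)), (.ofNat (nat_lit 246135386358203047010897498210304000000))⟩,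
    ⟨nat_lit 1, nat_lit 9, nat_lit 8, (.ofNat (nat_lit 16)), (.ofNat (nat_lit 1911844562272256)), (.negSucc (nat_lit 38869049804128031786337457684874022464703499862015999999)), (.ofNat (nat_lit 0)), (.negSucc (nat_lit 50742884870246718155489054900230762090463231999999999)), (.ofNat (nat_lit 1911844562272224)), (.ofNat (nat_lit 1911844562272288)), (.ofNat (nat_lit 0)), (.negSucc (nat_lit 664572758191036448961789561258639359999999)), (.negSucc (nat_lit 664572758191036448961789561258639359999999)), (.ofNat (nat_lit 0)), (.ofNat (nat_lit 8589314152645276626566774784000000000))⟩,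
    ⟨nat_lit 0, nat_lit 11, nat_lit 6, (.ofNat (nat_lit 16)), (.ofNat (nat_lit 1102260406845440)), (.negSucc (nat_lit 38970535573868525222648435794674483988884426326015999999)), (.ofNat (nat_lit 0)), (.ofNat (nat_lit 0)), (.ofNat (nat_lit 1102260406845408)), (.ofNat (nat_lit 1102260406845472)), (.ofNat (nat_lit 0)), (.ofNat (nat_lit 1181449854519374625652307991409459200000000)), (.ofNat (nat_lit 0)), (.ofNat (nat_lit 1181449854519374625652307991409459200000000)), (.ofNat (nat_lit 0))⟩,
    ⟨nat_lit 0, nat_lit 6, nat_lit 7, (.ofNat (nat_lit 16)), (.ofNat (nat_lit 1146034713526272)), (.ofNat (nat_lit 12746612685886929921426008959640708733715699728384000000)), (.ofNat (nat_lit 0)), (.ofNat (nat_lit 0)), (.ofNat (nat_lit 1146034713526240)), (.ofNat (nat_lit 1146034713526304)), (.ofNat (nat_lit 1181449854519374625652307991409459200000000)), (.ofNat (nat_lit 1425531535863680187021793373768908800000000)), (.ofNat (nat_lit 1181449854519374625652307991409459200000000)), (.ofNat (nat_lit 1425531535863680187021793373768908800000000)),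 (.ofNat (nat_lit 485296249624458129401022775296000000000))⟩,
    ⟨nat_lit 0, nat_lit 7, nat_lit 8, (.ofNat (nat_lit 16)), (.ofNat (nat_lit 1364837527453696)), (.ofNat (nat_lit 324656924075142698490998225213538063988426574659584000000)), (.ofNat (nat_lit 0)), (.negSucc (nat_lit 53092092503128510662687622256722927002058751999999999)), (.ofNat (nat_lit 1364837527453664)), (.ofNat (nat_lit 1364837527453728)), (.ofNat (nat_lit 1425531535863680187021793373768908800000000)), (.negSucc (nat_lit 664572758191036448961789561258639359999999)), (.negSucc (nat_lit 664572758191036448961789561258639359999999)), (.ofNat (nat_lit 1425531535863680187021793373768908800000000)), (.ofNat (nat_lit 979181813401561535428612325376000000000))⟩,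
    ⟨nat_lit 1, nat_lit 1, nat_lit 12, (.ofNat (nat_lit 16)), (.negSucc (nat_lit 5497558138879)), (.ofNat (nat_lit 120279437284502097135725017355140140065026473984000000)), (.ofNat (nat_lit 0)), (.ofNat (nat_lit 0)), (.negSucc (nat_lit 5497558138911)), (.negSucc (nat_lit 5497558138847)), (.ofNat (nat_lit 0)), (.negSucc (nat_lit 448513370697169996775413218960998399999999)), (.negSucc (nat_lit 448513370697169996775413218960998399999999)), (.ofNat (nat_lit 0)), (.ofNat (nat_lit 0))⟩,
    ⟨nat_lit 0, nat_lit 10, nat_lit 11, (.ofNat (nat_lit 16)), (.ofNat (nat_lit 494780232499200)), (.negSucc (nat_lit 38970535573868525222648435794674483988884426326015999999)), (.ofNat (nat_lit 0)), (.ofNat (nat_lit 0)), (.ofNat (nat_lit 494780232499168)), (.ofNat (nat_lit 494780232499232)), (.negSucc (nat_lit 474038521875057720169135922479103999999999)), (.ofNat (nat_lit 0)), (.negSucc (nat_lit 474038521875057720169135922479103999999999)), (.ofNat (nat_lit 0)), (.ofNat (nat_lit 0))⟩,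
    ⟨nat_lit 0, nat_lit 4, nat_lit 12, (.ofNat (nat_lit 16)), (.negSucc (nat_lit 54975581388799)), (.ofNat (nat_lit 22311834420539066837136271693722726760960946601984000000)), (.ofNat (nat_lit 0)), (.ofNat (nat_lit 0)), (.negSucc (nat_lit 54975581388831)), (.negSucc (nat_lit 54975581388767)), (.negSucc (nat_lit 1365619802725141867373187701051228159999999)), (.negSucc (nat_lit 448513370697169996775413218960998399999999)), (.negSucc (nat_lit 1365619802725141867373187701051228159999999)), (.negSucc (nat_lit 448513370697169996775413218960998399999999)), (.ofNat (nat_lit 42731837909410251217169704550400000000))⟩]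
  es := [
    ⟨nat_lit 1, nat_lit 4, (.negSucc (nat_lit 549755813887999)), (.negSucc (nat_lit 274877906943999)), (.negSucc (nat_lit 549755813887967)), (.negSucc (nat_lit 274877906944031)), (.ofNat (nat_lit 1173228248905604093318124540253962240000000)), (.ofNat (nat_lit 8546367581882050243433940910080000000)), (.ofNat (nat_lit 4698415265763585014397134712984329823191040000000000))⟩,
    ⟨nat_lit 1, nat_lit 10, (.negSucc (nat_lit 549755813887999)), (.negSucc (nat_lit 5497558138879)), (.negSucc (nat_lit 549755813887967)), (.negSucc (nat_lit 5497558138911)), (.ofNat (nat_lit 0)), (.ofNat (nat_lit 0)), (.ofNat (nat_lit 0))⟩,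
    ⟨nat_lit 3, nat_lit 5, (.ofNat (nat_lit 0)), (.ofNat (nat_lit 824633720832000)), (.ofNat (nat_lit 32)), (.ofNat (nat_lit 824633720831968)), (.negSucc (nat_lit 678408379618441979777054647057907711999999)), (.negSucc (nat_lit 61533846589550761752724374552575999999)), (.ofNat (nat_lit 0))⟩,
    ⟨nat_lit 3, nat_lit 0, (.ofNat (nat_lit 0)), (.ofNat (nat_lit 288621802291200)), (.ofNat (nat_lit 32)), (.ofNat (nat_lit 288621802291168)), (.negSucc (nat_lit 463620092822858649396187880226815999999999)), (.ofNat (nat_lit 0)), (.ofNat (nat_lit 0))⟩,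
    ⟨nat_lit 4, nat_lit 12, (.negSucc (nat_lit 274877906943999)), (.negSucc (nat_lit 54975581388799)), (.negSucc (nat_lit 274877906943967)), (.negSucc (nat_lit 54975581388831)), (.negSucc (nat_lit 1365619802725141867373187701051228159999999)), (.negSucc (nat_lit 10682959477352562804292426137599999999)), (.negSucc (nat_lit 587301908220448126799641839123041227898879999999999))⟩,
    ⟨nat_lit 5, nat_lit 2, (.ofNat (nat_lit 824633720832000)), (.ofNat (nat_lit 1102260406845440)), (.ofNat (nat_lit 824633720832032)), (.ofNat (nat_lit 1102260406845408)), (.ofNat (nat_lit 1181449854519374625652307991409459200000000)), (.ofNat (nat_lit 0)), (.negSucc (nat_lit 50742884870246718155489054900230762090463231999999999))⟩,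
    ⟨nat_lit 7, nat_lit 8, (.ofNat (nat_lit 1102260406845440)), (.ofNat (nat_lit 1146034713526272)), (.ofNat (nat_lit 1102260406845472)), (.ofNat (nat_lit 1146034713526240)), (.ofNat (nat_lit 1181449854519374625652307991409459200000000)), (.ofNat (nat_lit 0)), (.ofNat (nat_lit 0))⟩,
    ⟨nat_lit 8, nat_lit 9, (.ofNat (nat_lit 1146034713526272)), (.ofNat (nat_lit 1364837527453696)), (.ofNat (nat_lit 1146034713526304)), (.ofNat (nat_lit 1364837527453664)), (.ofNat (nat_lit 1425531535863680187021793373768908800000000)), (.negSucc (nat_lit 242648124812229064700511387647999999999)), (.ofNat (nat_lit 278083174206870028995490413434474954024288256000000000))⟩,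
    ⟨nat_lit 9, nat_lit 6, (.ofNat (nat_lit 1364837527453696)), (.ofNat (nat_lit 1911844562272256)), (.ofNat (nat_lit 1364837527453728)), (.ofNat (nat_lit 1911844562272224)), (.negSucc (nat_lit 664572758191036448961789561258639359999999)), (.ofNat (nat_lit 4294657076322638313283387392000000000)), (.negSucc (nat_lit 58953601648438219329204047667186606312259583999999999))⟩,
    ⟨nat_lit 2, nat_lit 6, (.ofNat (nat_lit 1102260406845440)), (.ofNat (nat_lit 1911844562272256)), (.ofNat (nat_lit 1102260406845472)), (.ofNat (nat_lit 1911844562272224)), (.ofNat (nat_lit 0)), (.ofNat (nat_lit 0)), (.negSucc (nat_lit 50742884870246718155489054900230762090463231999999999))⟩,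
    ⟨nat_lit 0, nat_lit 11, (.ofNat (nat_lit 288621802291200)), (.ofNat (nat_lit 494780232499200)), (.ofNat (nat_lit 288621802291232)), (.ofNat (nat_lit 494780232499168)), (.negSucc (nat_lit 474038521875057720169135922479103999999999)), (.ofNat (nat_lit 0)), (.ofNat (nat_lit 0))⟩,
    ⟨nat_lit 11, nat_lit 7, (.ofNat (nat_lit 494780232499200)), (.ofNat (nat_lit 1102260406845440)), (.ofNat (nat_lit 494780232499232)), (.ofNat (nat_lit 1102260406845408)), (.ofNat (nat_lit 0)), (.ofNat (nat_lit 0)), (.ofNat (nat_lit 0))⟩,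
    ⟨nat_lit 12, nat_lit 10, (.negSucc (nat_lit 54975581388799)), (.negSucc (nat_lit 5497558138879)), (.negSucc (nat_lit 54975581388767)), (.negSucc (nat_lit 5497558138911)), (.negSucc (nat_lit 448513370697169996775413218960998399999999)), (.ofNat (nat_lit 0)), (.ofNat (nat_lit 0))⟩]

theorem ok276 : stOK 12 12 S276 = true := by decide +kernel

def S277 : SD where
  vs := [
    ⟨nat_lit 0, nat_lit 3, nat_lit 10, (.ofNat (nat_lit 16)), (.ofNat (nat_lit 288621802291200)), (.ofNat (nat_lit 58756501954014043076811966235399576333489205673984000000)), (.ofNat (nat_lit 0)), (.ofNat (nat_lit 0)), (.ofNat (nat_lit 288621802291168)), (.ofNat (nat_lit 288621802291232)), (.negSucc (nat_lit 463620092822858649396187880226815999999999)), (.negSucc (nat_lit 474038521875057720169135922479103999999999)), (.negSucc (nat_lit 474038521875057720169135922479103999999999)), (.negSucc (nat_lit 463620092822858649396187880226815999999999)), (.ofNat (nat_lit 0))⟩,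
    ⟨nat_lit 2, nat_lit 0, nat_lit 1, (.ofNat (nat_lit 16)), (.negSucc (nat_lit 549755813887999)), (.ofNat (nat_lit 120279437284502097135725017355140140065026473984000000)), (.ofNat (nat_lit 0)), (.ofNat (nat_lit 0)), (.negSucc (nat_lit 549755813888031)), (.negSucc (nat_lit 549755813887967)), (.ofNat (nat_lit 1173262434375931621519098276017602560000000)), (.ofNat (nat_lit 0)), (.ofNat (nat_lit 0)), (.ofNat (nat_lit 1173262434375931621519098276017602560000000)), (.ofNat (nat_lit 34185470327528200973735763640320000000))⟩,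
    ⟨nat_lit 0, nat_lit 5, nat_lit 9, (.ofNat (nat_lit 16)), (.ofNat (nat_lit 1102260406845440)), (.negSucc (nat_lit 39072021343609018658959413904474945513065352790015999999)), (.ofNat (nat_lit 0)), (.negSucc (nat_lit 50742884870246718155489054900230762090463231999999999)), (.ofNat (nat_lit 1102260406845408)), (.ofNat (nat_lit 1102260406845472)), (.ofNat (nat_lit 1181449854519374625652307991409459200000000)), (.ofNat (nat_lit 0)), (.ofNat (nat_lit 0)), (.ofNat (nat_lit 1181449854519374625652307991409459200000000)), (.ofNat (nat_lit 0))⟩,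
    ⟨nat_lit 2, nat_lit 3, nat_lit 2, (.ofNat (nat_lit 16)), (.ofNat (nat_lit 0)), (.ofNat (nat_lit 192567368722960944286842362861193289697970024873984000000)), (.ofNat (nat_lit 0)), (.ofNat (nat_lit 0)), (.negSucc (nat_lit 31)), (.ofNat (nat_lit 32)), (.negSucc (nat_lit 463620092822858649396187880226815999999999)), (.negSucc (nat_lit 678654515004800182824065544556118015999999)), (.negSucc (nat_lit 678654515004800182824065544556118015999999)), (.negSucc (nat_lit 463620092822858649396187880226815999999999)), (.ofNat (nat_lit 123067693179101523505448749105152000000))⟩,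
    ⟨nat_lit 0, nat_lit 0, nat_lit 4, (.ofNat (nat_lit 16)), (.negSucc (nat_lit 274877906943999)), (.ofNat (nat_lit 322624201694562741070369448851312523533721203113984000000)), (.ofNat (nat_lit 0)), (.ofNat (nat_lit 2349207632881792507198567356492164911595520000000000)), (.negSucc (nat_lit 274877906944031)), (.negSucc (nat_lit 274877906943967)), (.ofNat (nat_lit 1173262434375931621519098276017602560000000)), (.negSucc (nat_lit 1365662534563051277624404870755778559999999)), (.negSucc (nat_lit 1365662534563051277624404870755778559999999)), (.ofNat (nat_lit 1173262434375931621519098276017602560000000)), (.ofNat (nat_lit 55551389282233326582320615915520000000))⟩,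
    ⟨nat_lit 0, nat_lit 2, nat_lit 5, (.ofNat (nat_lit 16)), (.ofNat (nat_lit 824633720832000)), (.negSucc (nat_lit 367074029144883804816040664779566591665819684438015999999)), (.ofNat (nat_lit 0)), (.negSucc (nat_lit 50742884870246718155489054900230762090463231999999999)), (.ofNat (nat_lit 824633720831968)), (.ofNat (nat_lit 824633720832032)), (.negSucc (nat_lit 678654515004800182824065544556118015999999)), (.ofNat (nat_lit 1181449854519374625652307991409459200000000)), (.negSucc (nat_lit 678654515004800182824065544556118015999999)), (.ofNat (nat_lit 1181449854519374625652307991409459200000000)), (.ofNat (nat_lit 246135386358203047010897498210304000000))⟩,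
    ⟨nat_lit 1, nat_lit 9, nat_lit 8, (.ofNat (nat_lit 16)), (.ofNat (nat_lit 1911844562272256)), (.negSucc (nat_lit 39072021343609018658959413904474945513065352790015999999)), (.ofNat (nat_lit 0)), (.negSucc (nat_lit 50742884870246718155489054900230762090463231999999999)), (.ofNat (nat_lit 1911844562272224)), (.ofNat (nat_lit 1911844562272288)), (.ofNat (nat_lit 0)), (.negSucc (nat_lit 664555579562731158408536427709071359999999)), (.negSucc (nat_lit 664555579562731158408536427709071359999999)), (.ofNat (nat_lit 0)), (.ofNat (nat_lit 8589314152645276626566774784000000000))⟩,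
    ⟨nat_lit 0, nat_lit 11, nat_lit 6, (.ofNat (nat_lit 16)), (.ofNat (nat_lit 1102260406845440)), (.negSucc (nat_lit 38970535573868525222648435794674483988884426326015999999)), (.ofNat (nat_lit 0)), (.ofNat (nat_lit 0)), (.ofNat (nat_lit 1102260406845408)), (.ofNat (nat_lit 1102260406845472)), (.ofNat (nat_lit 0)), (.ofNat (nat_lit 1181449854519374625652307991409459200000000)), (.ofNat (nat_lit 0)), (.ofNat (nat_lit 1181449854519374625652307991409459200000000)), (.ofNat (nat_lit 0))⟩,
    ⟨nat_lit 0, nat_lit 6, nat_lit 7, (.ofNat (nat_lit 16)), (.ofNat (nat_lit 1146034713526272)), (.ofNat (nat_lit 12746612685886929921426008959640708733715699728384000000)), (.ofNat (nat_lit 0)), (.ofNat (nat_lit 0)), (.ofNat (nat_lit 1146034713526240)), (.ofNat (nat_lit 1146034713526304)), (.ofNat (nat_lit 1181449854519374625652307991409459200000000)), (.ofNat (nat_lit 1424560943364431270762991328218316800000000)), (.ofNat (nat_lit 1181449854519374625652307991409459200000000)), (.ofNat (nat_lit 1424560943364431270762991328218316800000000)),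 (.ofNat (nat_lit 485296249624458129401022775296000000000))⟩,
    ⟨nat_lit 0, nat_lit 7, nat_lit 8, (.ofNat (nat_lit 16)), (.ofNat (nat_lit 1364837527453696)), (.ofNat (nat_lit 324444555705130184448347474724511172280418339651584000000)), (.ofNat (nat_lit 0)), (.negSucc (nat_lit 53092092503128510662687622256722927002058751999999999)), (.ofNat (nat_lit 1364837527453664)), (.ofNat (nat_lit 1364837527453728)), (.ofNat (nat_lit 1424560943364431270762991328218316800000000)), (.negSucc (nat_lit 664555579562731158408536427709071359999999)), (.negSucc (nat_lit 664555579562731158408536427709071359999999)), (.ofNat (nat_lit 1424560943364431270762991328218316800000000)), (.ofNat (nat_lit 979181813401561535428612325376000000000))⟩,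
    ⟨nat_lit 1, nat_lit 1, nat_lit 12, (.ofNat (nat_lit 16)), (.negSucc (nat_lit 5497558138879)), (.ofNat (nat_lit 120279437284502097135725017355140140065026473984000000)), (.ofNat (nat_lit 0)), (.ofNat (nat_lit 0)), (.negSucc (nat_lit 5497558138911)), (.negSucc (nat_lit 5497558138847)), (.ofNat (nat_lit 0)), (.negSucc (nat_lit 448513370697169996775413218960998399999999)), (.negSucc (nat_lit 448513370697169996775413218960998399999999)), (.ofNat (nat_lit 0)), (.ofNat (nat_lit 0))⟩,
    ⟨nat_lit 0, nat_lit 10, nat_lit 11, (.ofNat (nat_lit 16)), (.ofNat (nat_lit 494780232499200)), (.negSucc (nat_lit 38970535573868525222648435794674483988884426326015999999)), (.ofNat (nat_lit 0)), (.ofNat (nat_lit 0)), (.ofNat (nat_lit 494780232499168)), (.ofNat (nat_lit 494780232499232)), (.negSucc (nat_lit 474038521875057720169135922479103999999999)), (.ofNat (nat_lit 0)), (.negSucc (nat_lit 474038521875057720169135922479103999999999)), (.ofNat (nat_lit 0)), (.ofNat (nat_lit 0))⟩,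
    ⟨nat_lit 0, nat_lit 4, nat_lit 12, (.ofNat (nat_lit 16)), (.negSucc (nat_lit 54975581388799)), (.ofNat (nat_lit 22311834420539066837136271693722726760960946601984000000)), (.ofNat (nat_lit 0)), (.ofNat (nat_lit 0)), (.negSucc (nat_lit 54975581388831)), (.negSucc (nat_lit 54975581388767)), (.negSucc (nat_lit 1365662534563051277624404870755778559999999)), (.negSucc (nat_lit 448513370697169996775413218960998399999999)), (.negSucc (nat_lit 1365662534563051277624404870755778559999999)), (.negSucc (nat_lit 448513370697169996775413218960998399999999)), (.ofNat (nat_lit 42731837909410251217169704550400000000))⟩]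
  es := [
    ⟨nat_lit 1, nat_lit 4, (.negSucc (nat_lit 549755813887999)), (.negSucc (nat_lit 274877906943999)), (.negSucc (nat_lit 549755813887967)), (.negSucc (nat_lit 274877906944031)), (.ofNat (nat_lit 1173262434375931621519098276017602560000000)), (.ofNat (nat_lit 8546367581882050243433940910080000000)), (.ofNat (nat_lit 4698415265763585014397134712984329823191040000000000))⟩,
    ⟨nat_lit 1, nat_lit 10, (.negSucc (nat_lit 549755813887999)), (.negSucc (nat_lit 5497558138879)), (.negSucc (nat_lit 549755813887967)), (.negSucc (nat_lit 5497558138911)), (.ofNat (nat_lit 0)), (.ofNat (nat_lit 0)), (.ofNat (nat_lit 0))⟩,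
    ⟨nat_lit 3, nat_lit 5, (.ofNat (nat_lit 0)), (.ofNat (nat_lit 824633720832000)), (.ofNat (nat_lit 32)), (.ofNat (nat_lit 824633720831968)), (.negSucc (nat_lit 678654515004800182824065544556118015999999)), (.negSucc (nat_lit 61533846589550761752724374552575999999)), (.ofNat (nat_lit 0))⟩,
    ⟨nat_lit 3, nat_lit 0, (.ofNat (nat_lit 0)), (.ofNat (nat_lit 288621802291200)), (.ofNat (nat_lit 32)), (.ofNat (nat_lit 288621802291168)), (.negSucc (nat_lit 463620092822858649396187880226815999999999)), (.ofNat (nat_lit 0)), (.ofNat (nat_lit 0))⟩,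
    ⟨nat_lit 4, nat_lit 12, (.negSucc (nat_lit 274877906943999)), (.negSucc (nat_lit 54975581388799)), (.negSucc (nat_lit 274877906943967)), (.negSucc (nat_lit 54975581388831)), (.negSucc (nat_lit 1365662534563051277624404870755778559999999)), (.negSucc (nat_lit 10682959477352562804292426137599999999)), (.negSucc (nat_lit 587301908220448126799641839123041227898879999999999))⟩,
    ⟨nat_lit 5, nat_lit 2, (.ofNat (nat_lit 824633720832000)), (.ofNat (nat_lit 1102260406845440)), (.ofNat (nat_lit 824633720832032)), (.ofNat (nat_lit 1102260406845408)), (.ofNat (nat_lit 1181449854519374625652307991409459200000000)), (.ofNat (nat_lit 0)), (.negSucc (nat_lit 50742884870246718155489054900230762090463231999999999))⟩,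
    ⟨nat_lit 7, nat_lit 8, (.ofNat (nat_lit 1102260406845440)), (.ofNat (nat_lit 1146034713526272)), (.ofNat (nat_lit 1102260406845472)), (.ofNat (nat_lit 1146034713526240)), (.ofNat (nat_lit 1181449854519374625652307991409459200000000)), (.ofNat (nat_lit 0)), (.ofNat (nat_lit 0))⟩,
    ⟨nat_lit 8, nat_lit 9, (.ofNat (nat_lit 1146034713526272)), (.ofNat (nat_lit 1364837527453696)), (.ofNat (nat_lit 1146034713526304)), (.ofNat (nat_lit 1364837527453664)), (.ofNat (nat_lit 1424560943364431270762991328218316800000000)), (.negSucc (nat_lit 242648124812229064700511387647999999999)), (.ofNat (nat_lit 278083174206870028995490413434474954024288256000000000))⟩,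
    ⟨nat_lit 9, nat_lit 6, (.ofNat (nat_lit 1364837527453696)), (.ofNat (nat_lit 1911844562272256)), (.ofNat (nat_lit 1364837527453728)), (.ofNat (nat_lit 1911844562272224)), (.negSucc (nat_lit 664555579562731158408536427709071359999999)), (.ofNat (nat_lit 4294657076322638313283387392000000000)), (.negSucc (nat_lit 58953601648438219329204047667186606312259583999999999))⟩,
    ⟨nat_lit 2, nat_lit 6, (.ofNat (nat_lit 1102260406845440)), (.ofNat (nat_lit 1911844562272256)), (.ofNat (nat_lit 1102260406845472)), (.ofNat (nat_lit 1911844562272224)), (.ofNat (nat_lit 0)), (.ofNat (nat_lit 0)), (.negSucc (nat_lit 50742884870246718155489054900230762090463231999999999))⟩,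
    ⟨nat_lit 0, nat_lit 11, (.ofNat (nat_lit 288621802291200)), (.ofNat (nat_lit 494780232499200)), (.ofNat (nat_lit 288621802291232)), (.ofNat (nat_lit 494780232499168)), (.negSucc (nat_lit 474038521875057720169135922479103999999999)), (.ofNat (nat_lit 0)), (.ofNat (nat_lit 0))⟩,
    ⟨nat_lit 11, nat_lit 7, (.ofNat (nat_lit 494780232499200)), (.ofNat (nat_lit 1102260406845440)), (.ofNat (nat_lit 494780232499232)), (.ofNat (nat_lit 1102260406845408)), (.ofNat (nat_lit 0)), (.ofNat (nat_lit 0)), (.ofNat (nat_lit 0))⟩,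
    ⟨nat_lit 12, nat_lit 10, (.negSucc (nat_lit 54975581388799)), (.negSucc (nat_lit 5497558138879)), (.negSucc (nat_lit 54975581388767)), (.negSucc (nat_lit 5497558138911)), (.negSucc (nat_lit 448513370697169996775413218960998399999999)), (.ofNat (nat_lit 0)), (.ofNat (nat_lit 0))⟩]

theorem ok277 : stOK 12 12 S277 = true := by decide +kernel

def S278 : SD where
  vs := [
    ⟨nat_lit 0, nat_lit 3, nat_lit 10, (.ofNat (nat_lit 16)), (.ofNat (nat_lit 288621802291200)), (.ofNat (nat_lit 58756501954014043076811966235399576333489205673984000000)), (.ofNat (nat_lit 0)), (.ofNat (nat_lit 0)), (.ofNat (nat_lit 288621802291168)), (.ofNat (nat_lit 288621802291232)), (.negSucc (nat_lit 463620092822858649396187880226815999999999)), (.negSucc (nat_lit 474038521875057720169135922479103999999999)), (.negSucc (nat_lit 474038521875057720169135922479103999999999)), (.negSucc (nat_lit 463620092822858649396187880226815999999999)), (.ofNat (nat_lit 0))⟩,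
    ⟨nat_lit 2, nat_lit 0, nat_lit 1, (.ofNat (nat_lit 16)), (.negSucc (nat_lit 549755813887999)), (.ofNat (nat_lit 120279437284502097135725017355140140065026473984000000)), (.ofNat (nat_lit 0)), (.ofNat (nat_lit 0)), (.negSucc (nat_lit 549755813888031)), (.negSucc (nat_lit 549755813887967)), (.ofNat (nat_lit 1173792309166008308634191180354027520000000)), (.ofNat (nat_lit 0)), (.ofNat (nat_lit 0)), (.ofNat (nat_lit 1173792309166008308634191180354027520000000)), (.ofNat (nat_lit 34185470327528200973735763640320000000))⟩,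
    ⟨nat_lit 0, nat_lit 5, nat_lit 9, (.ofNat (nat_lit 16)), (.ofNat (nat_lit 1102260406845440)), (.negSucc (nat_lit 42218080205564315184599735308289252762674073174015999999)), (.ofNat (nat_lit 0)), (.negSucc (nat_lit 50742884870246718155489054900230762090463231999999999)), (.ofNat (nat_lit 1102260406845408)), (.ofNat (nat_lit 1102260406845472)), (.ofNat (nat_lit 1181449854519374625652307991409459200000000)), (.ofNat (nat_lit 0)), (.ofNat (nat_lit 0)), (.ofNat (nat_lit 1181449854519374625652307991409459200000000)), (.ofNat (nat_lit 0))⟩,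
    ⟨nat_lit 2, nat_lit 3, nat_lit 2, (.ofNat (nat_lit 16)), (.ofNat (nat_lit 0)), (.ofNat (nat_lit 192567368722960944286842362861193289697970024873984000000)), (.ofNat (nat_lit 0)), (.ofNat (nat_lit 0)), (.negSucc (nat_lit 31)), (.ofNat (nat_lit 32)), (.negSucc (nat_lit 463620092822858649396187880226815999999999)), (.negSucc (nat_lit 682469613493352330052734455778377727999999)), (.negSucc (nat_lit 682469613493352330052734455778377727999999)), (.negSucc (nat_lit 463620092822858649396187880226815999999999)), (.ofNat (nat_lit 123067693179101523505448749105152000000))⟩,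
    ⟨nat_lit 0, nat_lit 0, nat_lit 4, (.ofNat (nat_lit 16)), (.negSucc (nat_lit 274877906943999)), (.ofNat (nat_lit 322769852567801412205815760027415037758240125353984000000)), (.ofNat (nat_lit 0)), (.ofNat (nat_lit 2349207632881792507198567356492164911595520000000000)), (.negSucc (nat_lit 274877906944031)), (.negSucc (nat_lit 274877906943967)), (.ofNat (nat_lit 1173792309166008308634191180354027520000000)), (.negSucc (nat_lit 1366324878050647136518271001176309759999999)), (.negSucc (nat_lit 1366324878050647136518271001176309759999999)), (.ofNat (nat_lit 1173792309166008308634191180354027520000000)), (.ofNat (nat_lit 55551389282233326582320615915520000000))⟩,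
    ⟨nat_lit 0, nat_lit 2, nat_lit 5, (.ofNat (nat_lit 16)), (.ofNat (nat_lit 824633720832000)), (.negSucc (nat_lit 370220088006839101341680986183380898915428404822015999999)), (.ofNat (nat_lit 0)), (.negSucc (nat_lit 50742884870246718155489054900230762090463231999999999)), (.ofNat (nat_lit 824633720831968)), (.ofNat (nat_lit 824633720832032)), (.negSucc (nat_lit 682469613493352330052734455778377727999999)), (.ofNat (nat_lit 1181449854519374625652307991409459200000000)), (.negSucc (nat_lit 682469613493352330052734455778377727999999)), (.ofNat (nat_lit 1181449854519374625652307991409459200000000)), (.ofNat (nat_lit 246135386358203047010897498210304000000))⟩,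
    ⟨nat_lit 1, nat_lit 9, nat_lit 8, (.ofNat (nat_lit 16)), (.ofNat (nat_lit 1911844562272256)), (.negSucc (nat_lit 42218080205564315184599735308289252762674073174015999999)), (.ofNat (nat_lit 0)), (.negSucc (nat_lit 50742884870246718155489054900230762090463231999999999)), (.ofNat (nat_lit 1911844562272224)), (.ofNat (nat_lit 1911844562272288)), (.ofNat (nat_lit 0)), (.negSucc (nat_lit 664289310823999154833112857690767359999999)), (.negSucc (nat_lit 664289310823999154833112857690767359999999)), (.ofNat (nat_lit 0)), (.ofNat (nat_lit 8589314152645276626566774784000000000))⟩,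
    ⟨nat_lit 0, nat_lit 11, nat_lit 6, (.ofNat (nat_lit 16)), (.ofNat (nat_lit 1102260406845440)), (.negSucc (nat_lit 38970535573868525222648435794674483988884426326015999999)), (.ofNat (nat_lit 0)), (.ofNat (nat_lit 0)), (.ofNat (nat_lit 1102260406845408)), (.ofNat (nat_lit 1102260406845472)), (.ofNat (nat_lit 0)), (.ofNat (nat_lit 1181449854519374625652307991409459200000000)), (.ofNat (nat_lit 0)), (.ofNat (nat_lit 1181449854519374625652307991409459200000000)), (.ofNat (nat_lit 0))⟩,
    ⟨nat_lit 0, nat_lit 6, nat_lit 7, (.ofNat (nat_lit 16)), (.ofNat (nat_lit 1146034713526272)), (.ofNat (nat_lit 12746612685886929921426008959640708733715699728384000000)), (.ofNat (nat_lit 0)), (.ofNat (nat_lit 0)), (.ofNat (nat_lit 1146034713526240)), (.ofNat (nat_lit 1146034713526304)), (.ofNat (nat_lit 1181449854519374625652307991409459200000000)), (.ofNat (nat_lit 1409516759626073068751559622184140800000000)), (.ofNat (nat_lit 1181449854519374625652307991409459200000000)), (.ofNat (nat_lit 1409516759626073068751559622184140800000000)),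 (.ofNat (nat_lit 485296249624458129401022775296000000000))⟩,
    ⟨nat_lit 0, nat_lit 7, nat_lit 8, (.ofNat (nat_lit 16)), (.ofNat (nat_lit 1364837527453696)), (.ofNat (nat_lit 321152845969936216787260842144594350806290697027584000000)), (.ofNat (nat_lit 0)), (.negSucc (nat_lit 53092092503128510662687622256722927002058751999999999)), (.ofNat (nat_lit 1364837527453664)), (.ofNat (nat_lit 1364837527453728)), (.ofNat (nat_lit 1409516759626073068751559622184140800000000)), (.negSucc (nat_lit 664289310823999154833112857690767359999999)), (.negSucc (nat_lit 664289310823999154833112857690767359999999)), (.ofNat (nat_lit 1409516759626073068751559622184140800000000)), (.ofNat (nat_lit 979181813401561535428612325376000000000))⟩,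
    ⟨nat_lit 1, nat_lit 1, nat_lit 12, (.ofNat (nat_lit 16)), (.negSucc (nat_lit 5497558138879)), (.ofNat (nat_lit 120279437284502097135725017355140140065026473984000000)), (.ofNat (nat_lit 0)), (.ofNat (nat_lit 0)), (.negSucc (nat_lit 5497558138911)), (.negSucc (nat_lit 5497558138847)), (.ofNat (nat_lit 0)), (.negSucc (nat_lit 448513370697169996775413218960998399999999)), (.negSucc (nat_lit 448513370697169996775413218960998399999999)), (.ofNat (nat_lit 0)), (.ofNat (nat_lit 0))⟩,
    ⟨nat_lit 0, nat_lit 10, nat_lit 11, (.ofNat (nat_lit 16)), (.ofNat (nat_lit 494780232499200)), (.negSucc (nat_lit 38970535573868525222648435794674483988884426326015999999)), (.ofNat (nat_lit 0)), (.ofNat (nat_lit 0)), (.ofNat (nat_lit 494780232499168)), (.ofNat (nat_lit 494780232499232)), (.negSucc (nat_lit 474038521875057720169135922479103999999999)), (.ofNat (nat_lit 0)), (.negSucc (nat_lit 474038521875057720169135922479103999999999)), (.ofNat (nat_lit 0)), (.ofNat (nat_lit 0))⟩,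
    ⟨nat_lit 0, nat_lit 4, nat_lit 12, (.ofNat (nat_lit 16)), (.negSucc (nat_lit 54975581388799)), (.ofNat (nat_lit 22311834420539066837136271693722726760960946601984000000)), (.ofNat (nat_lit 0)), (.ofNat (nat_lit 0)), (.negSucc (nat_lit 54975581388831)), (.negSucc (nat_lit 54975581388767)), (.negSucc (nat_lit 1366324878050647136518271001176309759999999)), (.negSucc (nat_lit 448513370697169996775413218960998399999999)), (.negSucc (nat_lit 1366324878050647136518271001176309759999999)), (.negSucc (nat_lit 448513370697169996775413218960998399999999)), (.ofNat (nat_lit 42731837909410251217169704550400000000))⟩]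
  es := [
    ⟨nat_lit 1, nat_lit 4, (.negSucc (nat_lit 549755813887999)), (.negSucc (nat_lit 274877906943999)), (.negSucc (nat_lit 549755813887967)), (.negSucc (nat_lit 274877906944031)), (.ofNat (nat_lit 1173792309166008308634191180354027520000000)), (.ofNat (nat_lit 8546367581882050243433940910080000000)), (.ofNat (nat_lit 4698415265763585014397134712984329823191040000000000))⟩,
    ⟨nat_lit 1, nat_lit 10, (.negSucc (nat_lit 549755813887999)), (.negSucc (nat_lit 5497558138879)), (.negSucc (nat_lit 549755813887967)), (.negSucc (nat_lit 5497558138911)), (.ofNat (nat_lit 0)), (.ofNat (nat_lit 0)), (.ofNat (nat_lit 0))⟩,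
    ⟨nat_lit 3, nat_lit 5, (.ofNat (nat_lit 0)), (.ofNat (nat_lit 824633720832000)), (.ofNat (nat_lit 32)), (.ofNat (nat_lit 824633720831968)), (.negSucc (nat_lit 682469613493352330052734455778377727999999)), (.negSucc (nat_lit 61533846589550761752724374552575999999)), (.ofNat (nat_lit 0))⟩,
    ⟨nat_lit 3, nat_lit 0, (.ofNat (nat_lit 0)), (.ofNat (nat_lit 288621802291200)), (.ofNat (nat_lit 32)), (.ofNat (nat_lit 288621802291168)), (.negSucc (nat_lit 463620092822858649396187880226815999999999)), (.ofNat (nat_lit 0)), (.ofNat (nat_lit 0))⟩,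
    ⟨nat_lit 4, nat_lit 12, (.negSucc (nat_lit 274877906943999)), (.negSucc (nat_lit 54975581388799)), (.negSucc (nat_lit 274877906943967)), (.negSucc (nat_lit 54975581388831)), (.negSucc (nat_lit 1366324878050647136518271001176309759999999)), (.negSucc (nat_lit 10682959477352562804292426137599999999)), (.negSucc (nat_lit 587301908220448126799641839123041227898879999999999))⟩,
    ⟨nat_lit 5, nat_lit 2, (.ofNat (nat_lit 824633720832000)), (.ofNat (nat_lit 1102260406845440)), (.ofNat (nat_lit 824633720832032)), (.ofNat (nat_lit 1102260406845408)), (.ofNat (nat_lit 1181449854519374625652307991409459200000000)), (.ofNat (nat_lit 0)), (.negSucc (nat_lit 50742884870246718155489054900230762090463231999999999))⟩,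
    ⟨nat_lit 7, nat_lit 8, (.ofNat (nat_lit 1102260406845440)), (.ofNat (nat_lit 1146034713526272)), (.ofNat (nat_lit 1102260406845472)), (.ofNat (nat_lit 1146034713526240)), (.ofNat (nat_lit 1181449854519374625652307991409459200000000)), (.ofNat (nat_lit 0)), (.ofNat (nat_lit 0))⟩,
    ⟨nat_lit 8, nat_lit 9, (.ofNat (nat_lit 1146034713526272)), (.ofNat (nat_lit 1364837527453696)), (.ofNat (nat_lit 1146034713526304)), (.ofNat (nat_lit 1364837527453664)), (.ofNat (nat_lit 1409516759626073068751559622184140800000000)), (.negSucc (nat_lit 242648124812229064700511387647999999999)), (.ofNat (nat_lit 278083174206870028995490413434474954024288256000000000))⟩,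
    ⟨nat_lit 9, nat_lit 6, (.ofNat (nat_lit 1364837527453696)), (.ofNat (nat_lit 1911844562272256)), (.ofNat (nat_lit 1364837527453728)), (.ofNat (nat_lit 1911844562272224)), (.negSucc (nat_lit 664289310823999154833112857690767359999999)), (.ofNat (nat_lit 4294657076322638313283387392000000000)), (.negSucc (nat_lit 58953601648438219329204047667186606312259583999999999))⟩,
    ⟨nat_lit 2, nat_lit 6, (.ofNat (nat_lit 1102260406845440)), (.ofNat (nat_lit 1911844562272256)), (.ofNat (nat_lit 1102260406845472)), (.ofNat (nat_lit 1911844562272224)), (.ofNat (nat_lit 0)), (.ofNat (nat_lit 0)), (.negSucc (nat_lit 50742884870246718155489054900230762090463231999999999))⟩,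
    ⟨nat_lit 0, nat_lit 11, (.ofNat (nat_lit 288621802291200)), (.ofNat (nat_lit 494780232499200)), (.ofNat (nat_lit 288621802291232)), (.ofNat (nat_lit 494780232499168)), (.negSucc (nat_lit 474038521875057720169135922479103999999999)), (.ofNat (nat_lit 0)), (.ofNat (nat_lit 0))⟩,
    ⟨nat_lit 11, nat_lit 7, (.ofNat (nat_lit 494780232499200)), (.ofNat (nat_lit 1102260406845440)), (.ofNat (nat_lit 494780232499232)), (.ofNat (nat_lit 1102260406845408)), (.ofNat (nat_lit 0)), (.ofNat (nat_lit 0)), (.ofNat (nat_lit 0))⟩,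
    ⟨nat_lit 12, nat_lit 10, (.negSucc (nat_lit 54975581388799)), (.negSucc (nat_lit 5497558138879)), (.negSucc (nat_lit 54975581388767)), (.negSucc (nat_lit 5497558138911)), (.negSucc (nat_lit 448513370697169996775413218960998399999999)), (.ofNat (nat_lit 0)), (.ofNat (nat_lit 0))⟩]

theorem ok278 : stOK 12 12 S278 = true := by decide +kernel

def S279 : SD where
  vs := [
    ⟨nat_lit 0, nat_lit 3, nat_lit 10, (.ofNat (nat_lit 16)), (.ofNat (nat_lit 288621802291200)), (.ofNat (nat_lit 58756501954014043076811966235399576333489205673984000000)), (.ofNat (nat_lit 0)), (.ofNat (nat_lit 0)), (.ofNat (nat_lit 288621802291168)), (.ofNat (nat_lit 288621802291232)), (.negSucc (nat_lit 463620092822858649396187880226815999999999)), (.negSucc (nat_lit 474038521875057720169135922479103999999999)), (.negSucc (nat_lit 474038521875057720169135922479103999999999)), (.negSucc (nat_lit 463620092822858649396187880226815999999999)), (.ofNat (nat_lit 0))⟩,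
    ⟨nat_lit 2, nat_lit 0, nat_lit 1, (.ofNat (nat_lit 16)), (.negSucc (nat_lit 549755813887999)), (.ofNat (nat_lit 120279437284502097135725017355140140065026473984000000)), (.ofNat (nat_lit 0)), (.ofNat (nat_lit 0)), (.negSucc (nat_lit 549755813888031)), (.negSucc (nat_lit 549755813887967)), (.ofNat (nat_lit 1174886244216489211065350724790517760000000)), (.ofNat (nat_lit 0)), (.ofNat (nat_lit 0)), (.ofNat (nat_lit 1174886244216489211065350724790517760000000)), (.ofNat (nat_lit 68370940655056401947471527280640000000))⟩,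
    ⟨nat_lit 0, nat_lit 5, nat_lit 9, (.ofNat (nat_lit 16)), (.ofNat (nat_lit 1102260406845440)), (.negSucc (nat_lit 385255016857282573387751817264930754349639732822015999999)), (.ofNat (nat_lit 0)), (.negSucc (nat_lit 5359952135183097784424251280572523462296338431999999999)), (.ofNat (nat_lit 1102260406845408)), (.ofNat (nat_lit 1102260406845472)), (.negSucc (nat_lit 51988992498102293758077359357951999999999)), (.negSucc (nat_lit 65636103028854145869572666189414399999999)), (.negSucc (nat_lit 65636103028854145869572666189414399999999)), (.negSucc (nat_lit 51988992498102293758077359357951999999999)), (.ofNat (nat_lit 75038799718940615404724938604544000000000))⟩,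
    ⟨nat_lit 2, nat_lit 3, nat_lit 2, (.ofNat (nat_lit 16)), (.ofNat (nat_lit 0)), (.ofNat (nat_lit 192567368722960944286842362861193289697970024873984000000)), (.ofNat (nat_lit 0)), (.ofNat (nat_lit 0)), (.negSucc (nat_lit 31)), (.ofNat (nat_lit 32)), (.negSucc (nat_lit 463620092822858649396187880226815999999999)), (.negSucc (nat_lit 683198903527006265006840818736037887999999)), (.negSucc (nat_lit 683198903527006265006840818736037887999999)), (.negSucc (nat_lit 463620092822858649396187880226815999999999)), (.ofNat (nat_lit 22790313551685467315823842426880000000))⟩,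
    ⟨nat_lit 0, nat_lit 0, nat_lit 4, (.ofNat (nat_lit 16)), (.negSucc (nat_lit 274877906943999)), (.ofNat (nat_lit 323070551144810281646737176649046034866924351913984000000)), (.ofNat (nat_lit 0)), (.ofNat (nat_lit 4698415265763585014397134712984329823191040000000000)), (.negSucc (nat_lit 274877906944031)), (.negSucc (nat_lit 274877906943967)), (.ofNat (nat_lit 1174886244216489211065350724790517760000000)), (.negSucc (nat_lit 1367692296863748264557220431721922559999999)), (.negSucc (nat_lit 1367692296863748264557220431721922559999999)), (.ofNat (nat_lit 1174886244216489211065350724790517760000000)), (.ofNat (nat_lit 111102778564466653164641231831040000000))⟩,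
    ⟨nat_lit 0, nat_lit 2, nat_lit 5, (.ofNat (nat_lit 16)), (.ofNat (nat_lit 824633720832000)), (.negSucc (nat_lit 370821485160856840223523819426642893132796857942015999999)), (.ofNat (nat_lit 0)), (.negSucc (nat_lit 9396830531527170028794269425968659646382079999999999)), (.ofNat (nat_lit 824633720831968)), (.ofNat (nat_lit 824633720832032)), (.negSucc (nat_lit 683198903527006265006840818736037887999999)), (.negSucc (nat_lit 51988992498102293758077359357951999999999)), (.negSucc (nat_lit 683198903527006265006840818736037887999999)), (.negSucc (nat_lit 51988992498102293758077359357951999999999)), (.ofNat (nat_lit 38544963969296153731574542211481600000000))⟩,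
    ⟨nat_lit 1, nat_lit 9, nat_lit 8, (.ofNat (nat_lit 16)), (.ofNat (nat_lit 1911844562272256)), (.negSucc (nat_lit 438392965893404936640179955556452408410772829372415999999)), (.ofNat (nat_lit 0)), (.negSucc (nat_lit 6190232588872509710243440941377549307001543065599999999)), (.ofNat (nat_lit 1911844562272224)), (.ofNat (nat_lit 1911844562272288)), (.negSucc (nat_lit 65636103028854145869572666189414399999999)), (.negSucc (nat_lit 729375697747084002998585250294005759999999)), (.negSucc (nat_lit 729375697747084002998585250294005759999999)), (.negSucc (nat_lit 65636103028854145869572666189414399999999)), (.ofNat (nat_lit 2068306847956982611677279367987200000000))⟩,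
    ⟨nat_lit 0, nat_lit 11, nat_lit 6, (.ofNat (nat_lit 16)), (.ofNat (nat_lit 1102260406845440)), (.negSucc (nat_lit 38970535573868525222648435794674483988884426326015999999)), (.ofNat (nat_lit 0)), (.ofNat (nat_lit 0)), (.ofNat (nat_lit 1102260406845408)), (.ofNat (nat_lit 1102260406845472)), (.ofNat (nat_lit 0)), (.negSucc (nat_lit 21878701009618048623190888729804799999999)), (.negSucc (nat_lit 21878701009618048623190888729804799999999)), (.ofNat (nat_lit 0)), (.ofNat (nat_lit 37604017360281021071109340004352000000000))⟩,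
    ⟨nat_lit 0, nat_lit 6, nat_lit 7, (.ofNat (nat_lit 16)), (.ofNat (nat_lit 1146034713526272)), (.negSucc (nat_lit 39928260541641774391983147734569209780043687919615999999)), (.ofNat (nat_lit 0)), (.negSucc (nat_lit 823044894180136004897018073347029976777490431999999999)), (.ofNat (nat_lit 1146034713526240)), (.ofNat (nat_lit 1146034713526304)), (.negSucc (nat_lit 21878701009618048623190888729804799999999)), (.ofNat (nat_lit 2325986272536340910474282611507200000000)), (.negSucc (nat_lit 21878701009618048623190888729804799999999)), (.ofNat (nat_lit 2325986272536340910474282611507200000000)), (.ofNat (nat_lit 43974711667298022745033916861644800000000))⟩,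
    ⟨nat_lit 0, nat_lit 7, nat_lit 8, (.ofNat (nat_lit 16)), (.ofNat (nat_lit 1364837527453696)), (.negSucc (nat_lit 39419328200054262863223650102458747173595634466815999999)), (.ofNat (nat_lit 0)), (.negSucc (nat_lit 5633940221406101244538820191360204655935723929599999999)), (.ofNat (nat_lit 1364837527453664)), (.ofNat (nat_lit 1364837527453728)), (.ofNat (nat_lit 2325986272536340910474282611507200000000)), (.negSucc (nat_lit 729375697747084002998585250294005759999999)), (.negSucc (nat_lit 729375697747084002998585250294005759999999)), (.ofNat (nat_lit 2325986272536340910474282611507200000000)), (.ofNat (nat_lit 85915473743249643984896821454438400000000))⟩,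
    ⟨nat_lit 1, nat_lit 1, nat_lit 12, (.ofNat (nat_lit 16)), (.negSucc (nat_lit 5497558138879)), (.ofNat (nat_lit 120279437284502097135725017355140140065026473984000000)), (.ofNat (nat_lit 0)), (.ofNat (nat_lit 0)), (.negSucc (nat_lit 5497558138911)), (.negSucc (nat_lit 5497558138847)), (.ofNat (nat_lit 0)), (.negSucc (nat_lit 448513370697169996775413218960998399999999)), (.negSucc (nat_lit 448513370697169996775413218960998399999999)), (.ofNat (nat_lit 0)), (.ofNat (nat_lit 0))⟩,
    ⟨nat_lit 0, nat_lit 10, nat_lit 11, (.ofNat (nat_lit 16)), (.ofNat (nat_lit 494780232499200)), (.negSucc (nat_lit 38970535573868525222648435794674483988884426326015999999)), (.ofNat (nat_lit 0)), (.ofNat (nat_lit 0)), (.ofNat (nat_lit 494780232499168)), (.ofNat (nat_lit 494780232499232)), (.negSucc (nat_lit 474038521875057720169135922479103999999999)), (.ofNat (nat_lit 0)), (.negSucc (nat_lit 474038521875057720169135922479103999999999)), (.ofNat (nat_lit 0)), (.ofNat (nat_lit 0))⟩,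
    ⟨nat_lit 0, nat_lit 4, nat_lit 12, (.ofNat (nat_lit 16)), (.negSucc (nat_lit 54975581388799)), (.ofNat (nat_lit 22311834420539066837136271693722726760960946601984000000)), (.ofNat (nat_lit 0)), (.ofNat (nat_lit 0)), (.negSucc (nat_lit 54975581388831)), (.negSucc (nat_lit 54975581388767)), (.negSucc (nat_lit 1367692296863748264557220431721922559999999)), (.negSucc (nat_lit 448513370697169996775413218960998399999999)), (.negSucc (nat_lit 1367692296863748264557220431721922559999999)), (.negSucc (nat_lit 448513370697169996775413218960998399999999)), (.ofNat (nat_lit 85463675818820502434339409100800000000))⟩]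
  es := [
    ⟨nat_lit 1, nat_lit 4, (.negSucc (nat_lit 549755813887999)), (.negSucc (nat_lit 274877906943999)), (.negSucc (nat_lit 549755813887967)), (.negSucc (nat_lit 274877906944031)), (.ofNat (nat_lit 1174886244216489211065350724790517760000000)), (.ofNat (nat_lit 17092735163764100486867881820160000000)), (.ofNat (nat_lit 9396830531527170028794269425968659646382080000000000))⟩,
    ⟨nat_lit 1, nat_lit 10, (.negSucc (nat_lit 549755813887999)), (.negSucc (nat_lit 5497558138879)), (.negSucc (nat_lit 549755813887967)), (.negSucc (nat_lit 5497558138911)), (.ofNat (nat_lit 0)), (.ofNat (nat_lit 0)), (.ofNat (nat_lit 0))⟩,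
    ⟨nat_lit 3, nat_lit 5, (.ofNat (nat_lit 0)), (.ofNat (nat_lit 824633720832000)), (.ofNat (nat_lit 32)), (.ofNat (nat_lit 824633720831968)), (.negSucc (nat_lit 683198903527006265006840818736037887999999)), (.negSucc (nat_lit 11395156775842733657911921213439999999)), (.ofNat (nat_lit 0))⟩,
    ⟨nat_lit 3, nat_lit 0, (.ofNat (nat_lit 0)), (.ofNat (nat_lit 288621802291200)), (.ofNat (nat_lit 32)), (.ofNat (nat_lit 288621802291168)), (.negSucc (nat_lit 463620092822858649396187880226815999999999)), (.ofNat (nat_lit 0)), (.ofNat (nat_lit 0))⟩,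
    ⟨nat_lit 4, nat_lit 12, (.negSucc (nat_lit 274877906943999)), (.negSucc (nat_lit 54975581388799)), (.negSucc (nat_lit 274877906943967)), (.negSucc (nat_lit 54975581388831)), (.negSucc (nat_lit 1367692296863748264557220431721922559999999)), (.negSucc (nat_lit 21365918954705125608584852275199999999)), (.negSucc (nat_lit 1174603816440896253599283678246082455797759999999999))⟩,
    ⟨nat_lit 5, nat_lit 2, (.ofNat (nat_lit 824633720832000)), (.ofNat (nat_lit 1102260406845440)), (.ofNat (nat_lit 824633720832032)), (.ofNat (nat_lit 1102260406845408)), (.negSucc (nat_lit 51988992498102293758077359357951999999999)), (.negSucc (nat_lit 19272481984648076865787271105740799999999)), (.ofNat (nat_lit 15883341698136504357878503783484590160105963520000000000))⟩,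
    ⟨nat_lit 7, nat_lit 8, (.ofNat (nat_lit 1102260406845440)), (.ofNat (nat_lit 1146034713526272)), (.ofNat (nat_lit 1102260406845472)), (.ofNat (nat_lit 1146034713526240)), (.negSucc (nat_lit 21878701009618048623190888729804799999999)), (.negSucc (nat_lit 18802008680140510535554670002175999999999)), (.ofNat (nat_lit 20724709737283173498505761218973878850095677440000000000))⟩,
    ⟨nat_lit 8, nat_lit 9, (.ofNat (nat_lit 1146034713526272)), (.ofNat (nat_lit 1364837527453696)), (.ofNat (nat_lit 1146034713526304)), (.ofNat (nat_lit 1364837527453664)), (.ofNat (nat_lit 2325986272536340910474282611507200000000)), (.negSucc (nat_lit 21987355833649011372516958430822399999999)), (.ofNat (nat_lit 24375228149836014215425322982590694308499475660800000000))⟩,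
    ⟨nat_lit 9, nat_lit 6, (.ofNat (nat_lit 1364837527453696)), (.ofNat (nat_lit 1911844562272256)), (.ofNat (nat_lit 1364837527453728)), (.ofNat (nat_lit 1911844562272224)), (.negSucc (nat_lit 729375697747084002998585250294005759999999)), (.negSucc (nat_lit 1016974795673200752585506134425599999999)), (.negSucc (nat_lit 4245934855796762232307730654162405395280166911999999999))⟩,
    ⟨nat_lit 2, nat_lit 6, (.ofNat (nat_lit 1102260406845440)), (.ofNat (nat_lit 1911844562272256)), (.ofNat (nat_lit 1102260406845472)), (.ofNat (nat_lit 1911844562272224)), (.negSucc (nat_lit 65636103028854145869572666189414399999999)), (.negSucc (nat_lit 1025564109825846029212072909209599999999)), (.negSucc (nat_lit 4229513422240379229960300668628493706836574207999999999))⟩,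
    ⟨nat_lit 0, nat_lit 11, (.ofNat (nat_lit 288621802291200)), (.ofNat (nat_lit 494780232499200)), (.ofNat (nat_lit 288621802291232)), (.ofNat (nat_lit 494780232499168)), (.negSucc (nat_lit 474038521875057720169135922479103999999999)), (.ofNat (nat_lit 0)), (.ofNat (nat_lit 0))⟩,
    ⟨nat_lit 11, nat_lit 7, (.ofNat (nat_lit 494780232499200)), (.ofNat (nat_lit 1102260406845440)), (.ofNat (nat_lit 494780232499232)), (.ofNat (nat_lit 1102260406845408)), (.ofNat (nat_lit 0)), (.ofNat (nat_lit 0)), (.ofNat (nat_lit 0))⟩,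
    ⟨nat_lit 12, nat_lit 10, (.negSucc (nat_lit 54975581388799)), (.negSucc (nat_lit 5497558138879)), (.negSucc (nat_lit 54975581388767)), (.negSucc (nat_lit 5497558138911)), (.negSucc (nat_lit 448513370697169996775413218960998399999999)), (.ofNat (nat_lit 0)), (.ofNat (nat_lit 0))⟩]

theorem ok279 : stOK 12 12 S279 = true := by decide +kernel

def S280 : SD where
  vs := [
    ⟨nat_lit 0, nat_lit 3, nat_lit 10, (.ofNat (nat_lit 16)), (.ofNat (nat_lit 288621802291200)), (.negSucc (nat_lit 1112584728451862610642083131331948005540302422015999999)), (.ofNat (nat_lit 0)), (.negSucc (nat_lit 935454479413529776366469521355180067797336063999999999)), (.ofNat (nat_lit 288621802291168)), (.ofNat (nat_lit 288621802291232)), (.ofNat (nat_lit 0)), (.negSucc (nat_lit 145858006730786990821272591532031999999999)), (.negSucc (nat_lit 145858006730786990821272591532031999999999)), (.ofNat (nat_lit 0)), (.ofNat (nat_lit 18720614703170205295141013422080000000000))⟩,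
    ⟨nat_lit 2, nat_lit 0, nat_lit 1, (.ofNat (nat_lit 16)), (.negSucc (nat_lit 549755813887999)), (.ofNat (nat_lit 120279437284502097135725017355140140065026473984000000)), (.ofNat (nat_lit 0)), (.ofNat (nat_lit 0)), (.negSucc (nat_lit 549755813888031)), (.negSucc (nat_lit 549755813887967)), (.ofNat (nat_lit 1175980179266970113496510269227008000000000)), (.ofNat (nat_lit 0)), (.ofNat (nat_lit 0)), (.ofNat (nat_lit 1175980179266970113496510269227008000000000)), (.ofNat (nat_lit 68370940655056401947471527280640000000))⟩,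
    ⟨nat_lit 0, nat_lit 5, nat_lit 9, (.ofNat (nat_lit 16)), (.ofNat (nat_lit 1102260406845440)), (.negSucc (nat_lit 404650075074354652327183189360130067859772345942015999999)), (.ofNat (nat_lit 0)), (.negSucc (nat_lit 303047784641751233428615188987489273595822079999999999)), (.ofNat (nat_lit 1102260406845408)), (.ofNat (nat_lit 1102260406845472)), (.negSucc (nat_lit 121307649162238685435513838501887999999999)), (.negSucc (nat_lit 131272206057708291739145332378828799999999)), (.negSucc (nat_lit 131272206057708291739145332378828799999999)), (.negSucc (nat_lit 121307649162238685435513838501887999999999)), (.ofNat (nat_lit 2281287821856832421415634128076800000000))⟩,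
    ⟨nat_lit 2, nat_lit 3, nat_lit 2, (.ofNat (nat_lit 16)), (.ofNat (nat_lit 0)), (.negSucc (nat_lit 1112584728451862610642083131331948005540302422015999999)), (.ofNat (nat_lit 0)), (.negSucc (nat_lit 3026249272678325107773194468633206839117348863999999999)), (.negSucc (nat_lit 31)), (.ofNat (nat_lit 32)), (.ofNat (nat_lit 0)), (.negSucc (nat_lit 448513370697169996775413218960998399999999)), (.negSucc (nat_lit 448513370697169996775413218960998399999999)), (.ofNat (nat_lit 0)), (.ofNat (nat_lit 21642332900496282205029630021206016000000))⟩,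
    ⟨nat_lit 0, nat_lit 0, nat_lit 4, (.ofNat (nat_lit 16)), (.negSucc (nat_lit 274877906943999)), (.ofNat (nat_lit 323371249721819151087658593270677031975608578473984000000)), (.ofNat (nat_lit 0)), (.ofNat (nat_lit 4698415265763585014397134712984329823191040000000000)), (.negSucc (nat_lit 274877906944031)), (.negSucc (nat_lit 274877906943967)), (.ofNat (nat_lit 1175980179266970113496510269227008000000000)), (.negSucc (nat_lit 1369059715676849392596169862267535359999999)), (.negSucc (nat_lit 1369059715676849392596169862267535359999999)), (.ofNat (nat_lit 1175980179266970113496510269227008000000000)), (.ofNat (nat_lit 111102778564466653164641231831040000000))⟩,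
    ⟨nat_lit 0, nat_lit 2, nat_lit 5, (.ofNat (nat_lit 16)), (.ofNat (nat_lit 824633720832000)), (.negSucc (nat_lit 370971834449361274943984527737458391687138971222015999999)), (.ofNat (nat_lit 0)), (.negSucc (nat_lit 2349207632881792507198567356492164911595519999999999)), (.ofNat (nat_lit 824633720831968)), (.ofNat (nat_lit 824633720832032)), (.negSucc (nat_lit 448513370697169996775413218960998399999999)), (.negSucc (nat_lit 121307649162238685435513838501887999999999)), (.negSucc (nat_lit 448513370697169996775413218960998399999999)), (.negSucc (nat_lit 121307649162238685435513838501887999999999)), (.ofNat (nat_lit 16834053822619029004384114959187968000000))⟩,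
    ⟨nat_lit 1, nat_lit 9, nat_lit 8, (.ofNat (nat_lit 16)), (.ofNat (nat_lit 1911844562272256)), (.negSucc (nat_lit 510925973146599378832039465943173375982038539042815999999)), (.ofNat (nat_lit 0)), (.negSucc (nat_lit 1133328238331163159247804849792515118301026713599999999)), (.ofNat (nat_lit 1911844562272224)), (.ofNat (nat_lit 1911844562272288)), (.negSucc (nat_lit 131272206057708291739145332378828799999999)), (.negSucc (nat_lit 794736942723053500016107779690332159999999)), (.negSucc (nat_lit 794736942723053500016107779690332159999999)), (.negSucc (nat_lit 131272206057708291739145332378828799999999)), (.ofNat (nat_lit 2059717533804337335050712593203200000000))⟩,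
    ⟨nat_lit 0, nat_lit 11, nat_lit 6, (.ofNat (nat_lit 16)), (.ofNat (nat_lit 1102260406845440)), (.negSucc (nat_lit 58245314360137056385711241241221398655543348822015999999)), (.ofNat (nat_lit 0)), (.negSucc (nat_lit 301168418535445799422856335102295541666545663999999999)), (.ofNat (nat_lit 1102260406845408)), (.ofNat (nat_lit 1102260406845472)), (.negSucc (nat_lit 44549391196054850137719004200959999999999)), (.negSucc (nat_lit 54954351044566527154011651440639999999999)), (.negSucc (nat_lit 54954351044566527154011651440639999999999)), (.negSucc (nat_lit 44549391196054850137719004200959999999999)), (.ofNat (nat_lit 1750722886161288179519288927846400000000))⟩,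
    ⟨nat_lit 0, nat_lit 6, nat_lit 7, (.ofNat (nat_lit 16)), (.ofNat (nat_lit 1146034713526272)), (.negSucc (nat_lit 60650902976208011913082574214269375525017161302015999999)), (.ofNat (nat_lit 0)), (.negSucc (nat_lit 323791288040097461267178538745315089765210521599999999)), (.ofNat (nat_lit 1146034713526240)), (.ofNat (nat_lit 1146034713526304)), (.negSucc (nat_lit 54954351044566527154011651440639999999999)), (.negSucc (nat_lit 71061113847664902586912241142988799999999)), (.negSucc (nat_lit 71061113847664902586912241142988799999999)), (.negSucc (nat_lit 54954351044566527154011651440639999999999)), (.ofNat (nat_lit 2293346878756288859293328867328000000000))⟩,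
    ⟨nat_lit 0, nat_lit 7, nat_lit 8, (.ofNat (nat_lit 16)), (.ofNat (nat_lit 1364837527453696)), (.negSucc (nat_lit 76199274646894128529526724177254158522306806153215999999)), (.ofNat (nat_lit 0)), (.negSucc (nat_lit 574686663231872901035985532418678302323612057599999999)), (.ofNat (nat_lit 1364837527453664)), (.ofNat (nat_lit 1364837527453728)), (.negSucc (nat_lit 71061113847664902586912241142988799999999)), (.negSucc (nat_lit 794736942723053500016107779690332159999999)), (.negSucc (nat_lit 794736942723053500016107779690332159999999)), (.negSucc (nat_lit 71061113847664902586912241142988799999999)), (.ofNat (nat_lit 2544154852013530936789078691020800000000))⟩,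
    ⟨nat_lit 1, nat_lit 1, nat_lit 12, (.ofNat (nat_lit 16)), (.negSucc (nat_lit 5497558138879)), (.ofNat (nat_lit 120279437284502097135725017355140140065026473984000000)), (.ofNat (nat_lit 0)), (.ofNat (nat_lit 0)), (.negSucc (nat_lit 5497558138911)), (.negSucc (nat_lit 5497558138847)), (.ofNat (nat_lit 0)), (.negSucc (nat_lit 448513370697169996775413218960998399999999)), (.negSucc (nat_lit 448513370697169996775413218960998399999999)), (.ofNat (nat_lit 0)), (.ofNat (nat_lit 0))⟩,
    ⟨nat_lit 0, nat_lit 10, nat_lit 11, (.ofNat (nat_lit 16)), (.ofNat (nat_lit 494780232499200)), (.negSucc (nat_lit 31182442429338806702783745294431658873962958422015999999)), (.ofNat (nat_lit 0)), (.ofNat (nat_lit 121688955383276851872885789066294142420647936000000000)), (.ofNat (nat_lit 494780232499168)), (.ofNat (nat_lit 494780232499232)), (.negSucc (nat_lit 145858006730786990821272591532031999999999)), (.negSucc (nat_lit 44549391196054850137719004200959999999999)), (.negSucc (nat_lit 145858006730786990821272591532031999999999)), (.negSucc (nat_lit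 44549391196054850137719004200959999999999)), (.ofNat (nat_lit 21903450671393634651045177065472000000000))⟩,
    ⟨nat_lit 0, nat_lit 4, nat_lit 12, (.ofNat (nat_lit 16)), (.negSucc (nat_lit 54975581388799)), (.ofNat (nat_lit 22311834420539066837136271693722726760960946601984000000)), (.ofNat (nat_lit 0)), (.ofNat (nat_lit 0)), (.negSucc (nat_lit 54975581388831)), (.negSucc (nat_lit 54975581388767)), (.negSucc (nat_lit 1369059715676849392596169862267535359999999)), (.negSucc (nat_lit 448513370697169996775413218960998399999999)), (.negSucc (nat_lit 1369059715676849392596169862267535359999999)), (.negSucc (nat_lit 448513370697169996775413218960998399999999)), (.ofNat (nat_lit 85463675818820502434339409100800000000))⟩]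
  es := [
    ⟨nat_lit 1, nat_lit 4, (.negSucc (nat_lit 549755813887999)), (.negSucc (nat_lit 274877906943999)), (.negSucc (nat_lit 549755813887967)), (.negSucc (nat_lit 274877906944031)), (.ofNat (nat_lit 1175980179266970113496510269227008000000000)), (.ofNat (nat_lit 17092735163764100486867881820160000000)), (.ofNat (nat_lit 9396830531527170028794269425968659646382080000000000))⟩,
    ⟨nat_lit 1, nat_lit 10, (.negSucc (nat_lit 549755813887999)), (.negSucc (nat_lit 5497558138879)), (.negSucc (nat_lit 549755813887967)), (.negSucc (nat_lit 5497558138911)), (.ofNat (nat_lit 0)), (.ofNat (nat_lit 0)), (.ofNat (nat_lit 0))⟩,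
    ⟨nat_lit 3, nat_lit 5, (.ofNat (nat_lit 0)), (.ofNat (nat_lit 824633720832000)), (.ofNat (nat_lit 32)), (.ofNat (nat_lit 824633720831968)), (.negSucc (nat_lit 448513370697169996775413218960998399999999)), (.ofNat (nat_lit 3666961450466191691116056246484992000000)), (.negSucc (nat_lit 3026249272678325107773194468633206839117348863999999999))⟩,
    ⟨nat_lit 3, nat_lit 0, (.ofNat (nat_lit 0)), (.ofNat (nat_lit 288621802291200)), (.ofNat (nat_lit 32)), (.ofNat (nat_lit 288621802291168)), (.ofNat (nat_lit 0)), (.ofNat (nat_lit 7244063950357166396815435628544000000000)), (.negSucc (nat_lit 3026249272678325107773194468633206839117348863999999999))⟩,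
    ⟨nat_lit 4, nat_lit 12, (.negSucc (nat_lit 274877906943999)), (.negSucc (nat_lit 54975581388799)), (.negSucc (nat_lit 274877906943967)), (.negSucc (nat_lit 54975581388831)), (.negSucc (nat_lit 1369059715676849392596169862267535359999999)), (.negSucc (nat_lit 21365918954705125608584852275199999999)), (.negSucc (nat_lit 1174603816440896253599283678246082455797759999999999))⟩,
    ⟨nat_lit 5, nat_lit 2, (.ofNat (nat_lit 824633720832000)), (.ofNat (nat_lit 1102260406845440)), (.ofNat (nat_lit 824633720832032)), (.ofNat (nat_lit 1102260406845408)), (.negSucc (nat_lit 121307649162238685435513838501887999999999)), (.negSucc (nat_lit 1083104010377131119959944986623999999999)), (.ofNat (nat_lit 890814882492472982506910209765281425239572480000000000))⟩,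
    ⟨nat_lit 7, nat_lit 8, (.ofNat (nat_lit 1102260406845440)), (.ofNat (nat_lit 1146034713526272)), (.ofNat (nat_lit 1102260406845472)), (.ofNat (nat_lit 1146034713526240)), (.negSucc (nat_lit 54954351044566527154011651440639999999999)), (.negSucc (nat_lit 516807031796069977044074417356799999999)), (.ofNat (nat_lit 268487510592674539639825213459766548604387328000000000))⟩,
    ⟨nat_lit 8, nat_lit 9, (.ofNat (nat_lit 1146034713526272)), (.ofNat (nat_lit 1364837527453696)), (.ofNat (nat_lit 1146034713526304)), (.ofNat (nat_lit 1364837527453664)), (.negSucc (nat_lit 71061113847664902586912241142988799999999)), (.negSucc (nat_lit 1146673439378144429646664433663999999999)), (.ofNat (nat_lit 990336278565819312923900052175124073500010086400000000))⟩,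
    ⟨nat_lit 9, nat_lit 6, (.ofNat (nat_lit 1364837527453696)), (.ofNat (nat_lit 1911844562272256)), (.ofNat (nat_lit 1364837527453728)), (.ofNat (nat_lit 1911844562272224)), (.negSucc (nat_lit 794736942723053500016107779690332159999999)), (.negSucc (nat_lit 1021269452749523390898789521817599999999)), (.ofNat (nat_lit 819180211522775819861620430189584637642145792000000000))⟩,
    ⟨nat_lit 2, nat_lit 6, (.ofNat (nat_lit 1102260406845440)), (.ofNat (nat_lit 1911844562272256)), (.ofNat (nat_lit 1102260406845472)), (.ofNat (nat_lit 1911844562272224)), (.negSucc (nat_lit 131272206057708291739145332378828799999999)), (.negSucc (nat_lit 1025564109825846029212072909209599999999)), (.ofNat (nat_lit 827390928300967321035335422956540481863942144000000000))⟩,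
    ⟨nat_lit 0, nat_lit 11, (.ofNat (nat_lit 288621802291200)), (.ofNat (nat_lit 494780232499200)), (.ofNat (nat_lit 288621802291232)), (.ofNat (nat_lit 494780232499168)), (.negSucc (nat_lit 145858006730786990821272591532031999999999)), (.ofNat (nat_lit 5127820549129230146060364546048000000000)), (.negSucc (nat_lit 2415455288129059055901566955945243962102513663999999999))⟩,
    ⟨nat_lit 11, nat_lit 7, (.ofNat (nat_lit 494780232499200)), (.ofNat (nat_lit 1102260406845440)), (.ofNat (nat_lit 494780232499232)), (.ofNat (nat_lit 1102260406845408)), (.negSucc (nat_lit 44549391196054850137719004200959999999999)), (.negSucc (nat_lit 696084237438357033401859440639999999999)), (.ofNat (nat_lit 466097676222055481887517383411751803668135936000000000))⟩,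
    ⟨nat_lit 12, nat_lit 10, (.negSucc (nat_lit 54975581388799)), (.negSucc (nat_lit 5497558138879)), (.negSucc (nat_lit 54975581388767)), (.negSucc (nat_lit 5497558138911)), (.negSucc (nat_lit 448513370697169996775413218960998399999999)), (.ofNat (nat_lit 0)), (.ofNat (nat_lit 0))⟩]

theorem ok280 : stOK 12 12 S280 = true := by decide +kernel

def S281 : SD where
  vs := [
    ⟨nat_lit 0, nat_lit 3, nat_lit 10, (.ofNat (nat_lit 16)), (.ofNat (nat_lit 288621802291200)), (.negSucc (nat_lit 1112584728451862610642083131331948005540302422015999999)), (.ofNat (nat_lit 0)), (.negSucc (nat_lit 935454479413529776366469521355180067797336063999999999)), (.ofNat (nat_lit 288621802291168)), (.ofNat (nat_lit 288621802291232)), (.ofNat (nat_lit 0)), (.negSucc (nat_lit 145858006730786990821272591532031999999999)), (.negSucc (nat_lit 145858006730786990821272591532031999999999)), (.ofNat (nat_lit 0)), (.ofNat (nat_lit 18720614703170205295141013422080000000000))⟩,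
    ⟨nat_lit 2, nat_lit 0, nat_lit 1, (.ofNat (nat_lit 16)), (.negSucc (nat_lit 549755813887999)), (.ofNat (nat_lit 120279437284502097135725017355140140065026473984000000)), (.ofNat (nat_lit 0)), (.ofNat (nat_lit 0)), (.negSucc (nat_lit 549755813888031)), (.negSucc (nat_lit 549755813887967)), (.ofNat (nat_lit 1175980179266970113496510269227008000000000)), (.ofNat (nat_lit 0)), (.ofNat (nat_lit 0)), (.ofNat (nat_lit 1175980179266970113496510269227008000000000)), (.ofNat (nat_lit 68370940655056401947471527280640000000))⟩,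
    ⟨nat_lit 0, nat_lit 5, nat_lit 9, (.ofNat (nat_lit 16)), (.ofNat (nat_lit 1102260406845440)), (.negSucc (nat_lit 404650075074354652327183189360130067859772345942015999999)), (.ofNat (nat_lit 0)), (.negSucc (nat_lit 303047784641751233428615188987489273595822079999999999)), (.ofNat (nat_lit 1102260406845408)), (.ofNat (nat_lit 1102260406845472)), (.negSucc (nat_lit 121307649162238685435513838501887999999999)), (.negSucc (nat_lit 131272206057708291739145332378828799999999)), (.negSucc (nat_lit 131272206057708291739145332378828799999999)), (.negSucc (nat_lit 121307649162238685435513838501887999999999)), (.ofNat (nat_lit 2281287821856832421415634128076800000000))⟩,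
    ⟨nat_lit 2, nat_lit 2, nat_lit 3, (.ofNat (nat_lit 16)), (.ofNat (nat_lit 0)), (.negSucc (nat_lit 1112584728451862610642083131331948005540302422015999999)), (.ofNat (nat_lit 0)), (.negSucc (nat_lit 3026249272678325107773194468633206839117348863999999999)), (.negSucc (nat_lit 31)), (.ofNat (nat_lit 32)), (.negSucc (nat_lit 448513370697169996775413218960998399999999)), (.ofNat (nat_lit 0)), (.negSucc (nat_lit 448513370697169996775413218960998399999999)), (.ofNat (nat_lit 0)), (.ofNat (nat_lit 14488127900714332793630871257088000000000))⟩,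
    ⟨nat_lit 0, nat_lit 0, nat_lit 4, (.ofNat (nat_lit 16)), (.negSucc (nat_lit 274877906943999)), (.ofNat (nat_lit 323371249721819151087658593270677031975608578473984000000)), (.ofNat (nat_lit 0)), (.ofNat (nat_lit 4698415265763585014397134712984329823191040000000000)), (.negSucc (nat_lit 274877906944031)), (.negSucc (nat_lit 274877906943967)), (.ofNat (nat_lit 1175980179266970113496510269227008000000000)), (.negSucc (nat_lit 1369059715676849392596169862267535359999999)), (.negSucc (nat_lit 1369059715676849392596169862267535359999999)), (.ofNat (nat_lit 1175980179266970113496510269227008000000000)), (.ofNat (nat_lit 111102778564466653164641231831040000000))⟩,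
    ⟨nat_lit 0, nat_lit 2, nat_lit 5, (.ofNat (nat_lit 16)), (.ofNat (nat_lit 824633720832000)), (.negSucc (nat_lit 370971834449361274943984527737458391687138971222015999999)), (.ofNat (nat_lit 0)), (.negSucc (nat_lit 2349207632881792507198567356492164911595519999999999)), (.ofNat (nat_lit 824633720831968)), (.ofNat (nat_lit 824633720832032)), (.negSucc (nat_lit 448513370697169996775413218960998399999999)), (.negSucc (nat_lit 121307649162238685435513838501887999999999)), (.negSucc (nat_lit 448513370697169996775413218960998399999999)), (.negSucc (nat_lit 121307649162238685435513838501887999999999)), (.ofNat (nat_lit 16834053822619029004384114959187968000000))⟩,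
    ⟨nat_lit 1, nat_lit 9, nat_lit 8, (.ofNat (nat_lit 16)), (.ofNat (nat_lit 1911844562272256)), (.negSucc (nat_lit 510925973146599378832039465943173375982038539042815999999)), (.ofNat (nat_lit 0)), (.negSucc (nat_lit 1133328238331163159247804849792515118301026713599999999)), (.ofNat (nat_lit 1911844562272224)), (.ofNat (nat_lit 1911844562272288)), (.negSucc (nat_lit 131272206057708291739145332378828799999999)), (.negSucc (nat_lit 794736942723053500016107779690332159999999)), (.negSucc (nat_lit 794736942723053500016107779690332159999999)), (.negSucc (nat_lit 131272206057708291739145332378828799999999)), (.ofNat (nat_lit 2059717533804337335050712593203200000000))⟩,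
    ⟨nat_lit 0, nat_lit 11, nat_lit 6, (.ofNat (nat_lit 16)), (.ofNat (nat_lit 1102260406845440)), (.negSucc (nat_lit 58245314360137056385711241241221398655543348822015999999)), (.ofNat (nat_lit 0)), (.negSucc (nat_lit 301168418535445799422856335102295541666545663999999999)), (.ofNat (nat_lit 1102260406845408)), (.ofNat (nat_lit 1102260406845472)), (.negSucc (nat_lit 44549391196054850137719004200959999999999)), (.negSucc (nat_lit 54954351044566527154011651440639999999999)), (.negSucc (nat_lit 54954351044566527154011651440639999999999)), (.negSucc (nat_lit 44549391196054850137719004200959999999999)), (.ofNat (nat_lit 1750722886161288179519288927846400000000))⟩,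
    ⟨nat_lit 0, nat_lit 6, nat_lit 7, (.ofNat (nat_lit 16)), (.ofNat (nat_lit 1146034713526272)), (.negSucc (nat_lit 60650902976208011913082574214269375525017161302015999999)), (.ofNat (nat_lit 0)), (.negSucc (nat_lit 323791288040097461267178538745315089765210521599999999)), (.ofNat (nat_lit 1146034713526240)), (.ofNat (nat_lit 1146034713526304)), (.negSucc (nat_lit 54954351044566527154011651440639999999999)), (.negSucc (nat_lit 71061113847664902586912241142988799999999)), (.negSucc (nat_lit 71061113847664902586912241142988799999999)), (.negSucc (nat_lit 54954351044566527154011651440639999999999)), (.ofNat (nat_lit 2293346878756288859293328867328000000000))⟩,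
    ⟨nat_lit 0, nat_lit 7, nat_lit 8, (.ofNat (nat_lit 16)), (.ofNat (nat_lit 1364837527453696)), (.negSucc (nat_lit 76199274646894128529526724177254158522306806153215999999)), (.ofNat (nat_lit 0)), (.negSucc (nat_lit 574686663231872901035985532418678302323612057599999999)), (.ofNat (nat_lit 1364837527453664)), (.ofNat (nat_lit 1364837527453728)), (.negSucc (nat_lit 71061113847664902586912241142988799999999)), (.negSucc (nat_lit 794736942723053500016107779690332159999999)), (.negSucc (nat_lit 794736942723053500016107779690332159999999)), (.negSucc (nat_lit 71061113847664902586912241142988799999999)), (.ofNat (nat_lit 2544154852013530936789078691020800000000))⟩,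
    ⟨nat_lit 1, nat_lit 1, nat_lit 12, (.ofNat (nat_lit 16)), (.negSucc (nat_lit 5497558138879)), (.ofNat (nat_lit 120279437284502097135725017355140140065026473984000000)), (.ofNat (nat_lit 0)), (.ofNat (nat_lit 0)), (.negSucc (nat_lit 5497558138911)), (.negSucc (nat_lit 5497558138847)), (.ofNat (nat_lit 0)), (.negSucc (nat_lit 448513370697169996775413218960998399999999)), (.negSucc (nat_lit 448513370697169996775413218960998399999999)), (.ofNat (nat_lit 0)), (.ofNat (nat_lit 0))⟩,
    ⟨nat_lit 0, nat_lit 10, nat_lit 11, (.ofNat (nat_lit 16)), (.ofNat (nat_lit 494780232499200)), (.negSucc (nat_lit 31182442429338806702783745294431658873962958422015999999)), (.ofNat (nat_lit 0)), (.ofNat (nat_lit 121688955383276851872885789066294142420647936000000000)), (.ofNat (nat_lit 494780232499168)), (.ofNat (nat_lit 494780232499232)), (.negSucc (nat_lit 145858006730786990821272591532031999999999)), (.negSucc (nat_lit 44549391196054850137719004200959999999999)), (.negSucc (nat_lit 145858006730786990821272591532031999999999)), (.negSucc (nat_lit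 44549391196054850137719004200959999999999)), (.ofNat (nat_lit 21903450671393634651045177065472000000000))⟩,
    ⟨nat_lit 0, nat_lit 4, nat_lit 12, (.ofNat (nat_lit 16)), (.negSucc (nat_lit 54975581388799)), (.ofNat (nat_lit 22311834420539066837136271693722726760960946601984000000)), (.ofNat (nat_lit 0)), (.ofNat (nat_lit 0)), (.negSucc (nat_lit 54975581388831)), (.negSucc (nat_lit 54975581388767)), (.negSucc (nat_lit 1369059715676849392596169862267535359999999)), (.negSucc (nat_lit 448513370697169996775413218960998399999999)), (.negSucc (nat_lit 1369059715676849392596169862267535359999999)), (.negSucc (nat_lit 448513370697169996775413218960998399999999)), (.ofNat (nat_lit 85463675818820502434339409100800000000))⟩]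
  es := [
    ⟨nat_lit 1, nat_lit 4, (.negSucc (nat_lit 549755813887999)), (.negSucc (nat_lit 274877906943999)), (.negSucc (nat_lit 549755813887967)), (.negSucc (nat_lit 274877906944031)), (.ofNat (nat_lit 1175980179266970113496510269227008000000000)), (.ofNat (nat_lit 17092735163764100486867881820160000000)), (.ofNat (nat_lit 9396830531527170028794269425968659646382080000000000))⟩,
    ⟨nat_lit 1, nat_lit 10, (.negSucc (nat_lit 549755813887999)), (.negSucc (nat_lit 5497558138879)), (.negSucc (nat_lit 549755813887967)), (.negSucc (nat_lit 5497558138911)), (.ofNat (nat_lit 0)), (.ofNat (nat_lit 0)), (.ofNat (nat_lit 0))⟩,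
    ⟨nat_lit 3, nat_lit 5, (.ofNat (nat_lit 0)), (.ofNat (nat_lit 824633720832000)), (.ofNat (nat_lit 32)), (.ofNat (nat_lit 824633720831968)), (.negSucc (nat_lit 448513370697169996775413218960998399999999)), (.ofNat (nat_lit 3666961450466191691116056246484992000000)), (.negSucc (nat_lit 3026249272678325107773194468633206839117348863999999999))⟩,
    ⟨nat_lit 3, nat_lit 0, (.ofNat (nat_lit 0)), (.ofNat (nat_lit 288621802291200)), (.ofNat (nat_lit 32)), (.ofNat (nat_lit 288621802291168)), (.ofNat (nat_lit 0)), (.ofNat (nat_lit 7244063950357166396815435628544000000000)), (.negSucc (nat_lit 3026249272678325107773194468633206839117348863999999999))⟩,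
    ⟨nat_lit 4, nat_lit 12, (.negSucc (nat_lit 274877906943999)), (.negSucc (nat_lit 54975581388799)), (.negSucc (nat_lit 274877906943967)), (.negSucc (nat_lit 54975581388831)), (.negSucc (nat_lit 1369059715676849392596169862267535359999999)), (.negSucc (nat_lit 21365918954705125608584852275199999999)), (.negSucc (nat_lit 1174603816440896253599283678246082455797759999999999))⟩,
    ⟨nat_lit 5, nat_lit 2, (.ofNat (nat_lit 824633720832000)), (.ofNat (nat_lit 1102260406845440)), (.ofNat (nat_lit 824633720832032)), (.ofNat (nat_lit 1102260406845408)), (.negSucc (nat_lit 121307649162238685435513838501887999999999)), (.negSucc (nat_lit 1083104010377131119959944986623999999999)), (.ofNat (nat_lit 890814882492472982506910209765281425239572480000000000))⟩,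
    ⟨nat_lit 7, nat_lit 8, (.ofNat (nat_lit 1102260406845440)), (.ofNat (nat_lit 1146034713526272)), (.ofNat (nat_lit 1102260406845472)), (.ofNat (nat_lit 1146034713526240)), (.negSucc (nat_lit 54954351044566527154011651440639999999999)), (.negSucc (nat_lit 516807031796069977044074417356799999999)), (.ofNat (nat_lit 268487510592674539639825213459766548604387328000000000))⟩,
    ⟨nat_lit 8, nat_lit 9, (.ofNat (nat_lit 1146034713526272)), (.ofNat (nat_lit 1364837527453696)), (.ofNat (nat_lit 1146034713526304)), (.ofNat (nat_lit 1364837527453664)), (.negSucc (nat_lit 71061113847664902586912241142988799999999)), (.negSucc (nat_lit 1146673439378144429646664433663999999999)), (.ofNat (nat_lit 990336278565819312923900052175124073500010086400000000))⟩,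
    ⟨nat_lit 9, nat_lit 6, (.ofNat (nat_lit 1364837527453696)), (.ofNat (nat_lit 1911844562272256)), (.ofNat (nat_lit 1364837527453728)), (.ofNat (nat_lit 1911844562272224)), (.negSucc (nat_lit 794736942723053500016107779690332159999999)), (.negSucc (nat_lit 1021269452749523390898789521817599999999)), (.ofNat (nat_lit 819180211522775819861620430189584637642145792000000000))⟩,
    ⟨nat_lit 2, nat_lit 6, (.ofNat (nat_lit 1102260406845440)), (.ofNat (nat_lit 1911844562272256)), (.ofNat (nat_lit 1102260406845472)), (.ofNat (nat_lit 1911844562272224)), (.negSucc (nat_lit 131272206057708291739145332378828799999999)), (.negSucc (nat_lit 1025564109825846029212072909209599999999)), (.ofNat (nat_lit 827390928300967321035335422956540481863942144000000000))⟩,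
    ⟨nat_lit 0, nat_lit 11, (.ofNat (nat_lit 288621802291200)), (.ofNat (nat_lit 494780232499200)), (.ofNat (nat_lit 288621802291232)), (.ofNat (nat_lit 494780232499168)), (.negSucc (nat_lit 145858006730786990821272591532031999999999)), (.ofNat (nat_lit 5127820549129230146060364546048000000000)), (.negSucc (nat_lit 2415455288129059055901566955945243962102513663999999999))⟩,
    ⟨nat_lit 11, nat_lit 7, (.ofNat (nat_lit 494780232499200)), (.ofNat (nat_lit 1102260406845440)), (.ofNat (nat_lit 494780232499232)), (.ofNat (nat_lit 1102260406845408)), (.negSucc (nat_lit 44549391196054850137719004200959999999999)), (.negSucc (nat_lit 696084237438357033401859440639999999999)), (.ofNat (nat_lit 466097676222055481887517383411751803668135936000000000))⟩,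
    ⟨nat_lit 12, nat_lit 10, (.negSucc (nat_lit 54975581388799)), (.negSucc (nat_lit 5497558138879)), (.negSucc (nat_lit 54975581388767)), (.negSucc (nat_lit 5497558138911)), (.negSucc (nat_lit 448513370697169996775413218960998399999999)), (.ofNat (nat_lit 0)), (.ofNat (nat_lit 0))⟩]

theorem ok281 : stOK 12 12 S281 = true := by decide +kernel

def S282 : SD where
  vs := [
    ⟨nat_lit 0, nat_lit 3, nat_lit 10, (.ofNat (nat_lit 16)), (.ofNat (nat_lit 288621802291200)), (.ofNat (nat_lit 101015934694871398576696765031904387789943209984000000)), (.ofNat (nat_lit 0)), (.ofNat (nat_lit 19263502589630698559028252323235752275083264000000000)), (.ofNat (nat_lit 288621802291168)), (.ofNat (nat_lit 288621802291232)), (.ofNat (nat_lit 0)), (.negSucc (nat_lit 151744744721187347028949890030895103999999)), (.negSucc (nat_lit 151744744721187347028949890030895103999999)), (.ofNat (nat_lit 0)), (.ofNat (nat_lit 186880571123820831989755507900416000000))⟩,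
    ⟨nat_lit 2, nat_lit 0, nat_lit 1, (.ofNat (nat_lit 16)), (.negSucc (nat_lit 549755813887999)), (.ofNat (nat_lit 120279437284502097135725017355140140065026473984000000)), (.ofNat (nat_lit 0)), (.ofNat (nat_lit 0)), (.negSucc (nat_lit 549755813888031)), (.negSucc (nat_lit 549755813887967)), (.ofNat (nat_lit 1176518600424628682661846607504343040000000)), (.ofNat (nat_lit 0)), (.ofNat (nat_lit 0)), (.ofNat (nat_lit 1176518600424628682661846607504343040000000)), (.ofNat (nat_lit 34185470327528200973735763640320000000))⟩,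
    ⟨nat_lit 0, nat_lit 5, nat_lit 9, (.ofNat (nat_lit 16)), (.ofNat (nat_lit 1102260406845440)), (.negSucc (nat_lit 404650075074354652327183189360130067859772345942015999999)), (.ofNat (nat_lit 0)), (.ofNat (nat_lit 0)), (.ofNat (nat_lit 1102260406845408)), (.ofNat (nat_lit 1102260406845472)), (.negSucc (nat_lit 121307649162238685435513838501887999999999)), (.negSucc (nat_lit 131272206057708291739145332378828799999999)), (.negSucc (nat_lit 131272206057708291739145332378828799999999)), (.negSucc (nat_lit 121307649162238685435513838501887999999999)), (.ofNat (nat_lit 0))⟩,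
    ⟨nat_lit 2, nat_lit 2, nat_lit 3, (.ofNat (nat_lit 16)), (.negSucc (nat_lit 2705829396479)), (.ofNat (nat_lit 101015934694871398576696765031904387789943209984000000)), (.negSucc (nat_lit 42949672959)), (.ofNat (nat_lit 19263502589630698559028252323235752275083264000000000)), (.negSucc (nat_lit 2705829396511)), (.negSucc (nat_lit 2705829396447)), (.negSucc (nat_lit 448513370697169996775413218960998399999999)), (.ofNat (nat_lit 0)), (.negSucc (nat_lit 448513370697169996775413218960998399999999)), (.ofNat (nat_lit 0)), (.ofNat (nat_lit 0))⟩,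
    ⟨nat_lit 0, nat_lit 0, nat_lit 4, (.ofNat (nat_lit 16)), (.negSucc (nat_lit 274877906943999)), (.ofNat (nat_lit 323519249802690704015612103014136038365039096233984000000)), (.ofNat (nat_lit 0)), (.ofNat (nat_lit 2349207632881792507198567356492164911595520000000000)), (.negSucc (nat_lit 274877906944031)), (.negSucc (nat_lit 274877906943967)), (.ofNat (nat_lit 1176518600424628682661846607504343040000000)), (.negSucc (nat_lit 1364213925257922270108142817771519999999999)), (.negSucc (nat_lit 1364213925257922270108142817771519999999999)), (.ofNat (nat_lit 1176518600424628682661846607504343040000000)), (.ofNat (nat_lit 153834616473876904381810936381440000000))⟩,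
    ⟨nat_lit 0, nat_lit 2, nat_lit 5, (.ofNat (nat_lit 16)), (.ofNat (nat_lit 824633720832000)), (.negSucc (nat_lit 370971834449361274943984527737458391687138971222015999999)), (.ofNat (nat_lit 0)), (.ofNat (nat_lit 0)), (.ofNat (nat_lit 824633720831968)), (.ofNat (nat_lit 824633720832032)), (.negSucc (nat_lit 448513370697169996775413218960998399999999)), (.negSucc (nat_lit 121307649162238685435513838501887999999999)), (.negSucc (nat_lit 448513370697169996775413218960998399999999)), (.negSucc (nat_lit 121307649162238685435513838501887999999999)), (.ofNat (nat_lit 0))⟩,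
    ⟨nat_lit 1, nat_lit 9, nat_lit 8, (.ofNat (nat_lit 16)), (.ofNat (nat_lit 1911844562272256)), (.negSucc (nat_lit 510925973146599378832039465943173375982038539042815999999)), (.ofNat (nat_lit 0)), (.ofNat (nat_lit 0)), (.ofNat (nat_lit 1911844562272224)), (.ofNat (nat_lit 1911844562272288)), (.negSucc (nat_lit 131272206057708291739145332378828799999999)), (.negSucc (nat_lit 794601661025149336909239352987484159999999)), (.negSucc (nat_lit 794601661025149336909239352987484159999999)), (.negSucc (nat_lit 131272206057708291739145332378828799999999)), (.ofNat (nat_lit 4294657076322638313283387392000000000))⟩,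
    ⟨nat_lit 0, nat_lit 11, nat_lit 6, (.ofNat (nat_lit 16)), (.ofNat (nat_lit 1102260406845440)), (.negSucc (nat_lit 58245314360137056385711241241221398655543348822015999999)), (.ofNat (nat_lit 0)), (.ofNat (nat_lit 0)), (.ofNat (nat_lit 1102260406845408)), (.ofNat (nat_lit 1102260406845472)), (.negSucc (nat_lit 44549391196054850137719004200959999999999)), (.negSucc (nat_lit 54954351044566527154011651440639999999999)), (.negSucc (nat_lit 54954351044566527154011651440639999999999)), (.negSucc (nat_lit 44549391196054850137719004200959999999999)), (.ofNat (nat_lit 0))⟩,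
    ⟨nat_lit 0, nat_lit 6, nat_lit 7, (.ofNat (nat_lit 16)), (.ofNat (nat_lit 1146034713526272)), (.negSucc (nat_lit 60650902976208011913082574214269375525017161302015999999)), (.ofNat (nat_lit 0)), (.ofNat (nat_lit 0)), (.ofNat (nat_lit 1146034713526240)), (.ofNat (nat_lit 1146034713526304)), (.negSucc (nat_lit 54954351044566527154011651440639999999999)), (.negSucc (nat_lit 71399318092425310354083307900108799999999)), (.negSucc (nat_lit 71399318092425310354083307900108799999999)), (.negSucc (nat_lit 54954351044566527154011651440639999999999)), (.ofNat (nat_lit 10736642690806595783208468480000000000))⟩,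
    ⟨nat_lit 0, nat_lit 7, nat_lit 8, (.ofNat (nat_lit 16)), (.ofNat (nat_lit 1364837527453696)), (.negSucc (nat_lit 76273274687329904993503479048983661717022065033215999999)), (.ofNat (nat_lit 0)), (.negSucc (nat_lit 1174603816440896253599283678246082455797759999999999)), (.ofNat (nat_lit 1364837527453664)), (.ofNat (nat_lit 1364837527453728)), (.negSucc (nat_lit 71399318092425310354083307900108799999999)), (.negSucc (nat_lit 794601661025149336909239352987484159999999)), (.negSucc (nat_lit 794601661025149336909239352987484159999999)), (.negSucc (nat_lit 71399318092425310354083307900108799999999)), (.ofNat (nat_lit 25767942457935829879700324352000000000))⟩,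
    ⟨nat_lit 1, nat_lit 1, nat_lit 12, (.ofNat (nat_lit 16)), (.negSucc (nat_lit 2791728742399)), (.ofNat (nat_lit 120279437284502097135725017355140140065026473984000000)), (.ofNat (nat_lit 42949672960)), (.ofNat (nat_lit 0)), (.negSucc (nat_lit 2791728742431)), (.negSucc (nat_lit 2791728742367)), (.ofNat (nat_lit 0)), (.negSucc (nat_lit 448513370697169996775413218960998399999999)), (.negSucc (nat_lit 448513370697169996775413218960998399999999)), (.ofNat (nat_lit 0)), (.ofNat (nat_lit 0))⟩,
    ⟨nat_lit 0, nat_lit 10, nat_lit 11, (.ofNat (nat_lit 16)), (.ofNat (nat_lit 494780232499200)), (.negSucc (nat_lit 31182442429338806702783745294431658873962958422015999999)), (.ofNat (nat_lit 0)), (.ofNat (nat_lit 0)), (.ofNat (nat_lit 494780232499168)), (.ofNat (nat_lit 494780232499232)), (.negSucc (nat_lit 151744744721187347028949890030895103999999)), (.negSucc (nat_lit 44549391196054850137719004200959999999999)), (.negSucc (nat_lit 151744744721187347028949890030895103999999)), (.negSucc (nat_lit 44549391196054850137719004200959999999999)),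 (.ofNat (nat_lit 373761142247641663979511015800832000000))⟩,
    ⟨nat_lit 0, nat_lit 4, nat_lit 12, (.ofNat (nat_lit 16)), (.negSucc (nat_lit 54975581388799)), (.ofNat (nat_lit 23525435083685800846355051590086579154291192233984000000)), (.ofNat (nat_lit 0)), (.ofNat (nat_lit 19263502589630698559028252323235752275083264000000000)), (.negSucc (nat_lit 54975581388831)), (.negSucc (nat_lit 54975581388767)), (.negSucc (nat_lit 1364213925257922270108142817771519999999999)), (.negSucc (nat_lit 448513370697169996775413218960998399999999)), (.negSucc (nat_lit 1364213925257922270108142817771519999999999)), (.negSucc (nat_lit 448513370697169996775413218960998399999999)), (.ofNat (nat_lit 307669232947753808763621872762880000000))⟩]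
  es := [
    ⟨nat_lit 1, nat_lit 4, (.negSucc (nat_lit 549755813887999)), (.negSucc (nat_lit 274877906943999)), (.negSucc (nat_lit 549755813887967)), (.negSucc (nat_lit 274877906944031)), (.ofNat (nat_lit 1176518600424628682661846607504343040000000)), (.ofNat (nat_lit 8546367581882050243433940910080000000)), (.ofNat (nat_lit 4698415265763585014397134712984329823191040000000000))⟩,
    ⟨nat_lit 1, nat_lit 10, (.negSucc (nat_lit 549755813887999)), (.negSucc (nat_lit 2791728742399)), (.negSucc (nat_lit 549755813887967)), (.negSucc (nat_lit 2791728742431)), (.ofNat (nat_lit 0)), (.ofNat (nat_lit 0)), (.ofNat (nat_lit 0))⟩,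
    ⟨nat_lit 3, nat_lit 5, (.negSucc (nat_lit 2705829396479)), (.ofNat (nat_lit 824633720832000)), (.negSucc (nat_lit 2705829396447)), (.ofNat (nat_lit 824633720831968)), (.negSucc (nat_lit 448513370697169996775413218960998399999999)), (.ofNat (nat_lit 0)), (.ofNat (nat_lit 0))⟩,
    ⟨nat_lit 3, nat_lit 0, (.negSucc (nat_lit 2705829396479)), (.ofNat (nat_lit 288621802291200)), (.negSucc (nat_lit 2705829396447)), (.ofNat (nat_lit 288621802291168)), (.ofNat (nat_lit 0)), (.ofNat (nat_lit 0)), (.ofNat (nat_lit 19263502589630698559028252323235752275083264000000000))⟩,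
    ⟨nat_lit 4, nat_lit 12, (.negSucc (nat_lit 274877906943999)), (.negSucc (nat_lit 54975581388799)), (.negSucc (nat_lit 274877906943967)), (.negSucc (nat_lit 54975581388831)), (.negSucc (nat_lit 1364213925257922270108142817771519999999999)), (.ofNat (nat_lit 76917308236938452190905468190720000000)), (.ofNat (nat_lit 23492076328817925071985673564921649115955200000000000))⟩,
    ⟨nat_lit 5, nat_lit 2, (.ofNat (nat_lit 824633720832000)), (.ofNat (nat_lit 1102260406845440)), (.ofNat (nat_lit 824633720832032)), (.ofNat (nat_lit 1102260406845408)), (.negSucc (nat_lit 121307649162238685435513838501887999999999)), (.ofNat (nat_lit 0)), (.ofNat (nat_lit 0))⟩,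
    ⟨nat_lit 7, nat_lit 8, (.ofNat (nat_lit 1102260406845440)), (.ofNat (nat_lit 1146034713526272)), (.ofNat (nat_lit 1102260406845472)), (.ofNat (nat_lit 1146034713526240)), (.negSucc (nat_lit 54954351044566527154011651440639999999999)), (.ofNat (nat_lit 0)), (.ofNat (nat_lit 0))⟩,
    ⟨nat_lit 8, nat_lit 9, (.ofNat (nat_lit 1146034713526272)), (.ofNat (nat_lit 1364837527453696)), (.ofNat (nat_lit 1146034713526304)), (.ofNat (nat_lit 1364837527453664)), (.negSucc (nat_lit 71399318092425310354083307900108799999999)), (.negSucc (nat_lit 5368321345403297891604234239999999999)), (.ofNat (nat_lit 6152282615196239579546248084833516681953280000000000))⟩,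
    ⟨nat_lit 9, nat_lit 6, (.ofNat (nat_lit 1364837527453696)), (.ofNat (nat_lit 1911844562272256)), (.ofNat (nat_lit 1364837527453728)), (.ofNat (nat_lit 1911844562272224)), (.negSucc (nat_lit 794601661025149336909239352987484159999999)), (.ofNat (nat_lit 2147328538161319156641693696000000000)), (.negSucc (nat_lit 4105358389095750586857496383477922110898175999999999))⟩,
    ⟨nat_lit 2, nat_lit 6, (.ofNat (nat_lit 1102260406845440)), (.ofNat (nat_lit 1911844562272256)), (.ofNat (nat_lit 1102260406845472)), (.ofNat (nat_lit 1911844562272224)), (.negSucc (nat_lit 131272206057708291739145332378828799999999)), (.ofNat (nat_lit 0)), (.ofNat (nat_lit 0))⟩,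
    ⟨nat_lit 0, nat_lit 11, (.ofNat (nat_lit 288621802291200)), (.ofNat (nat_lit 494780232499200)), (.ofNat (nat_lit 288621802291232)), (.ofNat (nat_lit 494780232499168)), (.negSucc (nat_lit 151744744721187347028949890030895103999999)), (.negSucc (nat_lit 93440285561910415994877753950207999999)), (.ofNat (nat_lit 46232406215113676541667805575765805460199833600000000))⟩,
    ⟨nat_lit 11, nat_lit 7, (.ofNat (nat_lit 494780232499200)), (.ofNat (nat_lit 1102260406845440)), (.ofNat (nat_lit 494780232499232)), (.ofNat (nat_lit 1102260406845408)), (.negSucc (nat_lit 44549391196054850137719004200959999999999)), (.ofNat (nat_lit 0)), (.ofNat (nat_lit 0))⟩,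
    ⟨nat_lit 12, nat_lit 10, (.negSucc (nat_lit 54975581388799)), (.negSucc (nat_lit 2791728742399)), (.negSucc (nat_lit 54975581388767)), (.negSucc (nat_lit 2791728742431)), (.negSucc (nat_lit 448513370697169996775413218960998399999999)), (.ofNat (nat_lit 0)), (.ofNat (nat_lit 19263502589630698559028252323235752275083264000000000))⟩]

theorem ok282 : stOK 12 12 S282 = true := by decide +kernel

def S283 : SD where
  vs := [
    ⟨nat_lit 0, nat_lit 3, nat_lit 10, (.ofNat (nat_lit 16)), (.ofNat (nat_lit 288621802291200)), (.ofNat (nat_lit 139542939874132795694753269678375892340109737984000000)), (.ofNat (nat_lit 0)), (.ofNat (nat_lit 19263502589630698559028252323235752275083264000000000)), (.ofNat (nat_lit 288621802291168)), (.ofNat (nat_lit 288621802291232)), (.ofNat (nat_lit 0)), (.negSucc (nat_lit 151931625292311167860939645538795519999999)), (.negSucc (nat_lit 151931625292311167860939645538795519999999)), (.ofNat (nat_lit 0)), (.ofNat (nat_lit 186880571123820831989755507900416000000))⟩,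
    ⟨nat_lit 2, nat_lit 0, nat_lit 1, (.ofNat (nat_lit 16)), (.negSucc (nat_lit 549755813887999)), (.ofNat (nat_lit 120279437284502097135725017355140140065026473984000000)), (.ofNat (nat_lit 0)), (.ofNat (nat_lit 0)), (.negSucc (nat_lit 549755813888031)), (.negSucc (nat_lit 549755813887967)), (.ofNat (nat_lit 1176535693159792446762333475386163200000000)), (.ofNat (nat_lit 0)), (.ofNat (nat_lit 0)), (.ofNat (nat_lit 1176535693159792446762333475386163200000000)), (.ofNat (nat_lit 34185470327528200973735763640320000000))⟩,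
    ⟨nat_lit 0, nat_lit 5, nat_lit 9, (.ofNat (nat_lit 16)), (.ofNat (nat_lit 1102260406845440)), (.negSucc (nat_lit 404650075074354652327183189360130067859772345942015999999)), (.ofNat (nat_lit 0)), (.ofNat (nat_lit 0)), (.ofNat (nat_lit 1102260406845408)), (.ofNat (nat_lit 1102260406845472)), (.negSucc (nat_lit 121307649162238685435513838501887999999999)), (.negSucc (nat_lit 131272206057708291739145332378828799999999)), (.negSucc (nat_lit 131272206057708291739145332378828799999999)), (.negSucc (nat_lit 121307649162238685435513838501887999999999)), (.ofNat (nat_lit 0))⟩,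
    ⟨nat_lit 0, nat_lit 12, nat_lit 3, (.ofNat (nat_lit 16)), (.negSucc (nat_lit 2748779069439)), (.ofNat (nat_lit 139542939874132795694753269678375892340109737984000000)), (.ofNat (nat_lit 0)), (.ofNat (nat_lit 19263502589630698559028252323235752275083264000000000)), (.negSucc (nat_lit 2748779069471)), (.negSucc (nat_lit 2748779069407)), (.negSucc (nat_lit 448513370697169996775413218960998399999999)), (.ofNat (nat_lit 0)), (.negSucc (nat_lit 448513370697169996775413218960998399999999)), (.ofNat (nat_lit 0)), (.ofNat (nat_lit 0))⟩,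
    ⟨nat_lit 0, nat_lit 0, nat_lit 4, (.ofNat (nat_lit 16)), (.negSucc (nat_lit 274877906943999)), (.ofNat (nat_lit 323523948217956467600626500148849022694862287273984000000)), (.ofNat (nat_lit 0)), (.ofNat (nat_lit 2349207632881792507198567356492164911595520000000000)), (.negSucc (nat_lit 274877906944031)), (.negSucc (nat_lit 274877906943967)), (.ofNat (nat_lit 1176535693159792446762333475386163200000000)), (.negSucc (nat_lit 1364060090641448393203761006835138559999999)), (.negSucc (nat_lit 1364060090641448393203761006835138559999999)), (.ofNat (nat_lit 1176535693159792446762333475386163200000000)), (.ofNat (nat_lit 153834616473876904381810936381440000000))⟩,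
    ⟨nat_lit 0, nat_lit 2, nat_lit 5, (.ofNat (nat_lit 16)), (.ofNat (nat_lit 824633720832000)), (.negSucc (nat_lit 370971834449361274943984527737458391687138971222015999999)), (.ofNat (nat_lit 0)), (.ofNat (nat_lit 0)), (.ofNat (nat_lit 824633720831968)), (.ofNat (nat_lit 824633720832032)), (.negSucc (nat_lit 448513370697169996775413218960998399999999)), (.negSucc (nat_lit 121307649162238685435513838501887999999999)), (.negSucc (nat_lit 448513370697169996775413218960998399999999)), (.negSucc (nat_lit 121307649162238685435513838501887999999999)), (.ofNat (nat_lit 0))⟩,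
    ⟨nat_lit 1, nat_lit 9, nat_lit 8, (.ofNat (nat_lit 16)), (.ofNat (nat_lit 1911844562272256)), (.negSucc (nat_lit 510925973146599378832039465943173375982038539042815999999)), (.ofNat (nat_lit 0)), (.ofNat (nat_lit 0)), (.ofNat (nat_lit 1911844562272224)), (.ofNat (nat_lit 1911844562272288)), (.negSucc (nat_lit 131272206057708291739145332378828799999999)), (.negSucc (nat_lit 794597366368073014270926069600092159999999)), (.negSucc (nat_lit 794597366368073014270926069600092159999999)), (.negSucc (nat_lit 131272206057708291739145332378828799999999)), (.ofNat (nat_lit 4294657076322638313283387392000000000))⟩,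
    ⟨nat_lit 0, nat_lit 11, nat_lit 6, (.ofNat (nat_lit 16)), (.ofNat (nat_lit 1102260406845440)), (.negSucc (nat_lit 58245314360137056385711241241221398655543348822015999999)), (.ofNat (nat_lit 0)), (.ofNat (nat_lit 0)), (.ofNat (nat_lit 1102260406845408)), (.ofNat (nat_lit 1102260406845472)), (.negSucc (nat_lit 44549391196054850137719004200959999999999)), (.negSucc (nat_lit 54954351044566527154011651440639999999999)), (.negSucc (nat_lit 54954351044566527154011651440639999999999)), (.negSucc (nat_lit 44549391196054850137719004200959999999999)), (.ofNat (nat_lit 0))⟩,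
    ⟨nat_lit 0, nat_lit 6, nat_lit 7, (.ofNat (nat_lit 16)), (.ofNat (nat_lit 1146034713526272)), (.negSucc (nat_lit 60650902976208011913082574214269375525017161302015999999)), (.ofNat (nat_lit 0)), (.ofNat (nat_lit 0)), (.ofNat (nat_lit 1146034713526240)), (.ofNat (nat_lit 1146034713526304)), (.negSucc (nat_lit 54954351044566527154011651440639999999999)), (.negSucc (nat_lit 71410054735116116949866516368588799999999)), (.negSucc (nat_lit 71410054735116116949866516368588799999999)), (.negSucc (nat_lit 54954351044566527154011651440639999999999)), (.ofNat (nat_lit 10736642690806595783208468480000000000))⟩,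
    ⟨nat_lit 0, nat_lit 7, nat_lit 8, (.ofNat (nat_lit 16)), (.ofNat (nat_lit 1364837527453696)), (.negSucc (nat_lit 76275623894962786786010677616340153881933660553215999999)), (.ofNat (nat_lit 0)), (.negSucc (nat_lit 1174603816440896253599283678246082455797759999999999)), (.ofNat (nat_lit 1364837527453664)), (.ofNat (nat_lit 1364837527453728)), (.negSucc (nat_lit 71410054735116116949866516368588799999999)), (.negSucc (nat_lit 794597366368073014270926069600092159999999)), (.negSucc (nat_lit 794597366368073014270926069600092159999999)), (.negSucc (nat_lit 71410054735116116949866516368588799999999)), (.ofNat (nat_lit 25767942457935829879700324352000000000))⟩,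
    ⟨nat_lit 0, nat_lit 1, nat_lit 2, (.ofNat (nat_lit 16)), (.negSucc (nat_lit 2748779069439)), (.ofNat (nat_lit 120279437284502097135725017355140140065026473984000000)), (.ofNat (nat_lit 0)), (.ofNat (nat_lit 0)), (.negSucc (nat_lit 2748779069471)), (.negSucc (nat_lit 2748779069407)), (.ofNat (nat_lit 0)), (.negSucc (nat_lit 448513370697169996775413218960998399999999)), (.negSucc (nat_lit 448513370697169996775413218960998399999999)), (.ofNat (nat_lit 0)), (.ofNat (nat_lit 0))⟩,
    ⟨nat_lit 0, nat_lit 10, nat_lit 11, (.ofNat (nat_lit 16)), (.ofNat (nat_lit 494780232499200)), (.negSucc (nat_lit 31182442429338806702783745294431658873962958422015999999)), (.ofNat (nat_lit 0)), (.ofNat (nat_lit 0)), (.ofNat (nat_lit 494780232499168)), (.ofNat (nat_lit 494780232499232)), (.negSucc (nat_lit 151931625292311167860939645538795519999999)), (.negSucc (nat_lit 44549391196054850137719004200959999999999)), (.negSucc (nat_lit 151931625292311167860939645538795519999999)), (.negSucc (nat_lit 44549391196054850137719004200959999999999)), (.ofNat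 (nat_lit 373761142247641663979511015800832000000))⟩,
    ⟨nat_lit 0, nat_lit 4, nat_lit 12, (.ofNat (nat_lit 16)), (.negSucc (nat_lit 54975581388799)), (.ofNat (nat_lit 23563962088865062243473108094733050658841358761984000000)), (.ofNat (nat_lit 0)), (.ofNat (nat_lit 19263502589630698559028252323235752275083264000000000)), (.negSucc (nat_lit 54975581388831)), (.negSucc (nat_lit 54975581388767)), (.negSucc (nat_lit 1364060090641448393203761006835138559999999)), (.negSucc (nat_lit 448513370697169996775413218960998399999999)), (.negSucc (nat_lit 1364060090641448393203761006835138559999999)), (.negSucc (nat_lit 448513370697169996775413218960998399999999)), (.ofNat (nat_lit 307669232947753808763621872762880000000))⟩]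
  es := [
    ⟨nat_lit 1, nat_lit 4, (.negSucc (nat_lit 549755813887999)), (.negSucc (nat_lit 274877906943999)), (.negSucc (nat_lit 549755813887967)), (.negSucc (nat_lit 274877906944031)), (.ofNat (nat_lit 1176535693159792446762333475386163200000000)), (.ofNat (nat_lit 8546367581882050243433940910080000000)), (.ofNat (nat_lit 4698415265763585014397134712984329823191040000000000))⟩,
    ⟨nat_lit 1, nat_lit 10, (.negSucc (nat_lit 549755813887999)), (.negSucc (nat_lit 2748779069439)), (.negSucc (nat_lit 549755813887967)), (.negSucc (nat_lit 2748779069471)), (.ofNat (nat_lit 0)), (.ofNat (nat_lit 0)), (.ofNat (nat_lit 0))⟩,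
    ⟨nat_lit 10, nat_lit 5, (.negSucc (nat_lit 2748779069439)), (.ofNat (nat_lit 824633720832000)), (.negSucc (nat_lit 2748779069407)), (.ofNat (nat_lit 824633720831968)), (.negSucc (nat_lit 448513370697169996775413218960998399999999)), (.ofNat (nat_lit 0)), (.ofNat (nat_lit 0))⟩,
    ⟨nat_lit 3, nat_lit 0, (.negSucc (nat_lit 2748779069439)), (.ofNat (nat_lit 288621802291200)), (.negSucc (nat_lit 2748779069407)), (.ofNat (nat_lit 288621802291168)), (.ofNat (nat_lit 0)), (.ofNat (nat_lit 0)), (.ofNat (nat_lit 19263502589630698559028252323235752275083264000000000))⟩,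
    ⟨nat_lit 4, nat_lit 12, (.negSucc (nat_lit 274877906943999)), (.negSucc (nat_lit 54975581388799)), (.negSucc (nat_lit 274877906943967)), (.negSucc (nat_lit 54975581388831)), (.negSucc (nat_lit 1364060090641448393203761006835138559999999)), (.ofNat (nat_lit 76917308236938452190905468190720000000)), (.ofNat (nat_lit 23492076328817925071985673564921649115955200000000000))⟩,
    ⟨nat_lit 5, nat_lit 2, (.ofNat (nat_lit 824633720832000)), (.ofNat (nat_lit 1102260406845440)), (.ofNat (nat_lit 824633720832032)), (.ofNat (nat_lit 1102260406845408)), (.negSucc (nat_lit 121307649162238685435513838501887999999999)), (.ofNat (nat_lit 0)), (.ofNat (nat_lit 0))⟩,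
    ⟨nat_lit 7, nat_lit 8, (.ofNat (nat_lit 1102260406845440)), (.ofNat (nat_lit 1146034713526272)), (.ofNat (nat_lit 1102260406845472)), (.ofNat (nat_lit 1146034713526240)), (.negSucc (nat_lit 54954351044566527154011651440639999999999)), (.ofNat (nat_lit 0)), (.ofNat (nat_lit 0))⟩,
    ⟨nat_lit 8, nat_lit 9, (.ofNat (nat_lit 1146034713526272)), (.ofNat (nat_lit 1364837527453696)), (.ofNat (nat_lit 1146034713526304)), (.ofNat (nat_lit 1364837527453664)), (.negSucc (nat_lit 71410054735116116949866516368588799999999)), (.negSucc (nat_lit 5368321345403297891604234239999999999)), (.ofNat (nat_lit 6152282615196239579546248084833516681953280000000000))⟩,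
    ⟨nat_lit 9, nat_lit 6, (.ofNat (nat_lit 1364837527453696)), (.ofNat (nat_lit 1911844562272256)), (.ofNat (nat_lit 1364837527453728)), (.ofNat (nat_lit 1911844562272224)), (.negSucc (nat_lit 794597366368073014270926069600092159999999)), (.ofNat (nat_lit 2147328538161319156641693696000000000)), (.negSucc (nat_lit 4105358389095750586857496383477922110898175999999999))⟩,
    ⟨nat_lit 2, nat_lit 6, (.ofNat (nat_lit 1102260406845440)), (.ofNat (nat_lit 1911844562272256)), (.ofNat (nat_lit 1102260406845472)), (.ofNat (nat_lit 1911844562272224)), (.negSucc (nat_lit 131272206057708291739145332378828799999999)), (.ofNat (nat_lit 0)), (.ofNat (nat_lit 0))⟩,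
    ⟨nat_lit 0, nat_lit 11, (.ofNat (nat_lit 288621802291200)), (.ofNat (nat_lit 494780232499200)), (.ofNat (nat_lit 288621802291232)), (.ofNat (nat_lit 494780232499168)), (.negSucc (nat_lit 151931625292311167860939645538795519999999)), (.negSucc (nat_lit 93440285561910415994877753950207999999)), (.ofNat (nat_lit 46232406215113676541667805575765805460199833600000000))⟩,
    ⟨nat_lit 11, nat_lit 7, (.ofNat (nat_lit 494780232499200)), (.ofNat (nat_lit 1102260406845440)), (.ofNat (nat_lit 494780232499232)), (.ofNat (nat_lit 1102260406845408)), (.negSucc (nat_lit 44549391196054850137719004200959999999999)), (.ofNat (nat_lit 0)), (.ofNat (nat_lit 0))⟩,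
    ⟨nat_lit 12, nat_lit 3, (.negSucc (nat_lit 54975581388799)), (.negSucc (nat_lit 2748779069439)), (.negSucc (nat_lit 54975581388767)), (.negSucc (nat_lit 2748779069471)), (.negSucc (nat_lit 448513370697169996775413218960998399999999)), (.ofNat (nat_lit 0)), (.ofNat (nat_lit 19263502589630698559028252323235752275083264000000000))⟩]

theorem ok283 : stOK 12 12 S283 = true := by decide +kernel

def S284 : SD where
  vs := [
    ⟨nat_lit 0, nat_lit 3, nat_lit 10, (.ofNat (nat_lit 16)), (.ofNat (nat_lit 288621802291200)), (.ofNat (nat_lit 81752432105240700017668512708668635514859945984000000)), (.ofNat (nat_lit 0)), (.ofNat (nat_lit 19263502589630698559028252323235752275083264000000000)), (.ofNat (nat_lit 288621802291168)), (.ofNat (nat_lit 288621802291232)), (.ofNat (nat_lit 0)), (.negSucc (nat_lit 151651304435625436612955012276944895999999)), (.negSucc (nat_lit 151651304435625436612955012276944895999999)), (.ofNat (nat_lit 0)), (.ofNat (nat_lit 186880571123820831989755507900416000000))⟩,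
    ⟨nat_lit 2, nat_lit 0, nat_lit 1, (.ofNat (nat_lit 16)), (.negSucc (nat_lit 549755813887999)), (.ofNat (nat_lit 120279437284502097135725017355140140065026473984000000)), (.ofNat (nat_lit 0)), (.ofNat (nat_lit 0)), (.negSucc (nat_lit 549755813888031)), (.negSucc (nat_lit 549755813887967)), (.ofNat (nat_lit 1176510054057046800611603173563432960000000)), (.ofNat (nat_lit 0)), (.ofNat (nat_lit 0)), (.ofNat (nat_lit 1176510054057046800611603173563432960000000)), (.ofNat (nat_lit 34185470327528200973735763640320000000))⟩,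
    ⟨nat_lit 0, nat_lit 5, nat_lit 9, (.ofNat (nat_lit 16)), (.ofNat (nat_lit 1102260406845440)), (.negSucc (nat_lit 404650075074354652327183189360130067859772345942015999999)), (.ofNat (nat_lit 0)), (.ofNat (nat_lit 0)), (.ofNat (nat_lit 1102260406845408)), (.ofNat (nat_lit 1102260406845472)), (.negSucc (nat_lit 121307649162238685435513838501887999999999)), (.negSucc (nat_lit 131272206057708291739145332378828799999999)), (.negSucc (nat_lit 131272206057708291739145332378828799999999)), (.negSucc (nat_lit 121307649162238685435513838501887999999999)), (.ofNat (nat_lit 0))⟩,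
    ⟨nat_lit 0, nat_lit 12, nat_lit 3, (.ofNat (nat_lit 16)), (.negSucc (nat_lit 2748779069439)), (.ofNat (nat_lit 81752432105240700017668512708668635514859945984000000)), (.ofNat (nat_lit 0)), (.ofNat (nat_lit 19263502589630698559028252323235752275083264000000000)), (.negSucc (nat_lit 2748779069471)), (.negSucc (nat_lit 2748779069407)), (.negSucc (nat_lit 448513370697169996775413218960998399999999)), (.ofNat (nat_lit 0)), (.negSucc (nat_lit 448513370697169996775413218960998399999999)), (.ofNat (nat_lit 0)), (.ofNat (nat_lit 0))⟩,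
    ⟨nat_lit 0, nat_lit 0, nat_lit 4, (.ofNat (nat_lit 16)), (.negSucc (nat_lit 274877906943999)), (.ofNat (nat_lit 323516900595057822223104904446779546200127500713984000000)), (.ofNat (nat_lit 0)), (.ofNat (nat_lit 2349207632881792507198567356492164911595520000000000)), (.negSucc (nat_lit 274877906944031)), (.negSucc (nat_lit 274877906943967)), (.ofNat (nat_lit 1176510054057046800611603173563432960000000)), (.negSucc (nat_lit 1364290842566159208560333723239710719999999)), (.negSucc (nat_lit 1364290842566159208560333723239710719999999)), (.ofNat (nat_lit 1176510054057046800611603173563432960000000)), (.ofNat (nat_lit 153834616473876904381810936381440000000))⟩,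
    ⟨nat_lit 0, nat_lit 2, nat_lit 5, (.ofNat (nat_lit 16)), (.ofNat (nat_lit 824633720832000)), (.negSucc (nat_lit 370971834449361274943984527737458391687138971222015999999)), (.ofNat (nat_lit 0)), (.ofNat (nat_lit 0)), (.ofNat (nat_lit 824633720831968)), (.ofNat (nat_lit 824633720832032)), (.negSucc (nat_lit 448513370697169996775413218960998399999999)), (.negSucc (nat_lit 121307649162238685435513838501887999999999)), (.negSucc (nat_lit 448513370697169996775413218960998399999999)), (.negSucc (nat_lit 121307649162238685435513838501887999999999)), (.ofNat (nat_lit 0))⟩,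
    ⟨nat_lit 1, nat_lit 9, nat_lit 8, (.ofNat (nat_lit 16)), (.ofNat (nat_lit 1911844562272256)), (.negSucc (nat_lit 510925973146599378832039465943173375982038539042815999999)), (.ofNat (nat_lit 0)), (.ofNat (nat_lit 0)), (.ofNat (nat_lit 1911844562272224)), (.ofNat (nat_lit 1911844562272288)), (.negSucc (nat_lit 131272206057708291739145332378828799999999)), (.negSucc (nat_lit 794603808353687498228395994681180159999999)), (.negSucc (nat_lit 794603808353687498228395994681180159999999)), (.negSucc (nat_lit 131272206057708291739145332378828799999999)), (.ofNat (nat_lit 4294657076322638313283387392000000000))⟩,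
    ⟨nat_lit 0, nat_lit 11, nat_lit 6, (.ofNat (nat_lit 16)), (.ofNat (nat_lit 1102260406845440)), (.negSucc (nat_lit 58245314360137056385711241241221398655543348822015999999)), (.ofNat (nat_lit 0)), (.ofNat (nat_lit 0)), (.ofNat (nat_lit 1102260406845408)), (.ofNat (nat_lit 1102260406845472)), (.negSucc (nat_lit 44549391196054850137719004200959999999999)), (.negSucc (nat_lit 54954351044566527154011651440639999999999)), (.negSucc (nat_lit 54954351044566527154011651440639999999999)), (.negSucc (nat_lit 44549391196054850137719004200959999999999)), (.ofNat (nat_lit 0))⟩,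
    ⟨nat_lit 0, nat_lit 6, nat_lit 7, (.ofNat (nat_lit 16)), (.ofNat (nat_lit 1146034713526272)), (.negSucc (nat_lit 60650902976208011913082574214269375525017161302015999999)), (.ofNat (nat_lit 0)), (.ofNat (nat_lit 0)), (.ofNat (nat_lit 1146034713526240)), (.ofNat (nat_lit 1146034713526304)), (.negSucc (nat_lit 54954351044566527154011651440639999999999)), (.negSucc (nat_lit 71393949771079907056191703665868799999999)), (.negSucc (nat_lit 71393949771079907056191703665868799999999)), (.negSucc (nat_lit 54954351044566527154011651440639999999999)), (.ofNat (nat_lit 10736642690806595783208468480000000000))⟩,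
    ⟨nat_lit 0, nat_lit 7, nat_lit 8, (.ofNat (nat_lit 16)), (.ofNat (nat_lit 1364837527453696)), (.negSucc (nat_lit 76272100083513464097249879765305415634566267273215999999)), (.ofNat (nat_lit 0)), (.negSucc (nat_lit 1174603816440896253599283678246082455797759999999999)), (.ofNat (nat_lit 1364837527453664)), (.ofNat (nat_lit 1364837527453728)), (.negSucc (nat_lit 71393949771079907056191703665868799999999)), (.negSucc (nat_lit 794603808353687498228395994681180159999999)), (.negSucc (nat_lit 794603808353687498228395994681180159999999)), (.negSucc (nat_lit 71393949771079907056191703665868799999999)), (.ofNat (nat_lit 25767942457935829879700324352000000000))⟩,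
    ⟨nat_lit 0, nat_lit 1, nat_lit 2, (.ofNat (nat_lit 16)), (.negSucc (nat_lit 2748779069439)), (.ofNat (nat_lit 120279437284502097135725017355140140065026473984000000)), (.ofNat (nat_lit 0)), (.ofNat (nat_lit 0)), (.negSucc (nat_lit 2748779069471)), (.negSucc (nat_lit 2748779069407)), (.ofNat (nat_lit 0)), (.negSucc (nat_lit 448513370697169996775413218960998399999999)), (.negSucc (nat_lit 448513370697169996775413218960998399999999)), (.ofNat (nat_lit 0)), (.ofNat (nat_lit 0))⟩,
    ⟨nat_lit 0, nat_lit 10, nat_lit 11, (.ofNat (nat_lit 16)), (.ofNat (nat_lit 494780232499200)), (.negSucc (nat_lit 31182442429338806702783745294431658873962958422015999999)), (.ofNat (nat_lit 0)), (.ofNat (nat_lit 0)), (.ofNat (nat_lit 494780232499168)), (.ofNat (nat_lit 494780232499232)), (.negSucc (nat_lit 151651304435625436612955012276944895999999)), (.negSucc (nat_lit 44549391196054850137719004200959999999999)), (.negSucc (nat_lit 151651304435625436612955012276944895999999)), (.negSucc (nat_lit 44549391196054850137719004200959999999999)), (.ofNat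 (nat_lit 373761142247641663979511015800832000000))⟩,
    ⟨nat_lit 0, nat_lit 4, nat_lit 12, (.ofNat (nat_lit 16)), (.negSucc (nat_lit 54975581388799)), (.ofNat (nat_lit 23506171581096170147796023337763343402016108969984000000)), (.ofNat (nat_lit 0)), (.ofNat (nat_lit 19263502589630698559028252323235752275083264000000000)), (.negSucc (nat_lit 54975581388831)), (.negSucc (nat_lit 54975581388767)), (.negSucc (nat_lit 1364290842566159208560333723239710719999999)), (.negSucc (nat_lit 448513370697169996775413218960998399999999)), (.negSucc (nat_lit 1364290842566159208560333723239710719999999)), (.negSucc (nat_lit 448513370697169996775413218960998399999999)), (.ofNat (nat_lit 307669232947753808763621872762880000000))⟩]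
  es := [
    ⟨nat_lit 1, nat_lit 4, (.negSucc (nat_lit 549755813887999)), (.negSucc (nat_lit 274877906943999)), (.negSucc (nat_lit 549755813887967)), (.negSucc (nat_lit 274877906944031)), (.ofNat (nat_lit 1176510054057046800611603173563432960000000)), (.ofNat (nat_lit 8546367581882050243433940910080000000)), (.ofNat (nat_lit 4698415265763585014397134712984329823191040000000000))⟩,
    ⟨nat_lit 1, nat_lit 10, (.negSucc (nat_lit 549755813887999)), (.negSucc (nat_lit 2748779069439)), (.negSucc (nat_lit 549755813887967)), (.negSucc (nat_lit 2748779069471)), (.ofNat (nat_lit 0)), (.ofNat (nat_lit 0)), (.ofNat (nat_lit 0))⟩,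
    ⟨nat_lit 10, nat_lit 5, (.negSucc (nat_lit 2748779069439)), (.ofNat (nat_lit 824633720832000)), (.negSucc (nat_lit 2748779069407)), (.ofNat (nat_lit 824633720831968)), (.negSucc (nat_lit 448513370697169996775413218960998399999999)), (.ofNat (nat_lit 0)), (.ofNat (nat_lit 0))⟩,
    ⟨nat_lit 3, nat_lit 0, (.negSucc (nat_lit 2748779069439)), (.ofNat (nat_lit 288621802291200)), (.negSucc (nat_lit 2748779069407)), (.ofNat (nat_lit 288621802291168)), (.ofNat (nat_lit 0)), (.ofNat (nat_lit 0)), (.ofNat (nat_lit 19263502589630698559028252323235752275083264000000000))⟩,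
    ⟨nat_lit 4, nat_lit 12, (.negSucc (nat_lit 274877906943999)), (.negSucc (nat_lit 54975581388799)), (.negSucc (nat_lit 274877906943967)), (.negSucc (nat_lit 54975581388831)), (.negSucc (nat_lit 1364290842566159208560333723239710719999999)), (.ofNat (nat_lit 76917308236938452190905468190720000000)), (.ofNat (nat_lit 23492076328817925071985673564921649115955200000000000))⟩,
    ⟨nat_lit 5, nat_lit 2, (.ofNat (nat_lit 824633720832000)), (.ofNat (nat_lit 1102260406845440)), (.ofNat (nat_lit 824633720832032)), (.ofNat (nat_lit 1102260406845408)), (.negSucc (nat_lit 121307649162238685435513838501887999999999)), (.ofNat (nat_lit 0)), (.ofNat (nat_lit 0))⟩,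
    ⟨nat_lit 7, nat_lit 8, (.ofNat (nat_lit 1102260406845440)), (.ofNat (nat_lit 1146034713526272)), (.ofNat (nat_lit 1102260406845472)), (.ofNat (nat_lit 1146034713526240)), (.negSucc (nat_lit 54954351044566527154011651440639999999999)), (.ofNat (nat_lit 0)), (.ofNat (nat_lit 0))⟩,
    ⟨nat_lit 8, nat_lit 9, (.ofNat (nat_lit 1146034713526272)), (.ofNat (nat_lit 1364837527453696)), (.ofNat (nat_lit 1146034713526304)), (.ofNat (nat_lit 1364837527453664)), (.negSucc (nat_lit 71393949771079907056191703665868799999999)), (.negSucc (nat_lit 5368321345403297891604234239999999999)), (.ofNat (nat_lit 6152282615196239579546248084833516681953280000000000))⟩,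
    ⟨nat_lit 9, nat_lit 6, (.ofNat (nat_lit 1364837527453696)), (.ofNat (nat_lit 1911844562272256)), (.ofNat (nat_lit 1364837527453728)), (.ofNat (nat_lit 1911844562272224)), (.negSucc (nat_lit 794603808353687498228395994681180159999999)), (.ofNat (nat_lit 2147328538161319156641693696000000000)), (.negSucc (nat_lit 4105358389095750586857496383477922110898175999999999))⟩,
    ⟨nat_lit 2, nat_lit 6, (.ofNat (nat_lit 1102260406845440)), (.ofNat (nat_lit 1911844562272256)), (.ofNat (nat_lit 1102260406845472)), (.ofNat (nat_lit 1911844562272224)), (.negSucc (nat_lit 131272206057708291739145332378828799999999)), (.ofNat (nat_lit 0)), (.ofNat (nat_lit 0))⟩,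
    ⟨nat_lit 0, nat_lit 11, (.ofNat (nat_lit 288621802291200)), (.ofNat (nat_lit 494780232499200)), (.ofNat (nat_lit 288621802291232)), (.ofNat (nat_lit 494780232499168)), (.negSucc (nat_lit 151651304435625436612955012276944895999999)), (.negSucc (nat_lit 93440285561910415994877753950207999999)), (.ofNat (nat_lit 46232406215113676541667805575765805460199833600000000))⟩,
    ⟨nat_lit 11, nat_lit 7, (.ofNat (nat_lit 494780232499200)), (.ofNat (nat_lit 1102260406845440)), (.ofNat (nat_lit 494780232499232)), (.ofNat (nat_lit 1102260406845408)), (.negSucc (nat_lit 44549391196054850137719004200959999999999)), (.ofNat (nat_lit 0)), (.ofNat (nat_lit 0))⟩,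
    ⟨nat_lit 12, nat_lit 3, (.negSucc (nat_lit 54975581388799)), (.negSucc (nat_lit 2748779069439)), (.negSucc (nat_lit 54975581388767)), (.negSucc (nat_lit 2748779069471)), (.negSucc (nat_lit 448513370697169996775413218960998399999999)), (.ofNat (nat_lit 0)), (.ofNat (nat_lit 19263502589630698559028252323235752275083264000000000))⟩]

theorem ok284 : stOK 12 12 S284 = true := by decide +kernel

def S285 : SD where
  vs := [
    ⟨nat_lit 0, nat_lit 3, nat_lit 10, (.ofNat (nat_lit 16)), (.ofNat (nat_lit 288621802291200)), (.ofNat (nat_lit 158806442463763494253781522001611644615193001984000000)), (.ofNat (nat_lit 0)), (.ofNat (nat_lit 19263502589630698559028252323235752275083264000000000)), (.ofNat (nat_lit 288621802291168)), (.ofNat (nat_lit 288621802291232)), (.ofNat (nat_lit 0)), (.negSucc (nat_lit 152025065577873078276934523292745727999999)), (.negSucc (nat_lit 152025065577873078276934523292745727999999)), (.ofNat (nat_lit 0)), (.ofNat (nat_lit 186880571123820831989755507900416000000))⟩,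
    ⟨nat_lit 2, nat_lit 0, nat_lit 1, (.ofNat (nat_lit 16)), (.negSucc (nat_lit 549755813887999)), (.ofNat (nat_lit 120279437284502097135725017355140140065026473984000000)), (.ofNat (nat_lit 0)), (.ofNat (nat_lit 0)), (.negSucc (nat_lit 549755813888031)), (.negSucc (nat_lit 549755813887967)), (.ofNat (nat_lit 1176544239527374328812576909327073280000000)), (.ofNat (nat_lit 0)), (.ofNat (nat_lit 0)), (.ofNat (nat_lit 1176544239527374328812576909327073280000000)), (.ofNat (nat_lit 34185470327528200973735763640320000000))⟩,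
    ⟨nat_lit 0, nat_lit 5, nat_lit 9, (.ofNat (nat_lit 16)), (.ofNat (nat_lit 1102260406845440)), (.negSucc (nat_lit 404650075074354652327183189360130067859772345942015999999)), (.ofNat (nat_lit 0)), (.ofNat (nat_lit 0)), (.ofNat (nat_lit 1102260406845408)), (.ofNat (nat_lit 1102260406845472)), (.negSucc (nat_lit 121307649162238685435513838501887999999999)), (.negSucc (nat_lit 131272206057708291739145332378828799999999)), (.negSucc (nat_lit 131272206057708291739145332378828799999999)), (.negSucc (nat_lit 121307649162238685435513838501887999999999)), (.ofNat (nat_lit 0))⟩,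
    ⟨nat_lit 0, nat_lit 12, nat_lit 3, (.ofNat (nat_lit 16)), (.negSucc (nat_lit 2748779069439)), (.ofNat (nat_lit 158806442463763494253781522001611644615193001984000000)), (.ofNat (nat_lit 0)), (.ofNat (nat_lit 19263502589630698559028252323235752275083264000000000)), (.negSucc (nat_lit 2748779069471)), (.negSucc (nat_lit 2748779069407)), (.negSucc (nat_lit 448513370697169996775413218960998399999999)), (.ofNat (nat_lit 0)), (.negSucc (nat_lit 448513370697169996775413218960998399999999)), (.ofNat (nat_lit 0)), (.ofNat (nat_lit 0))⟩,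
    ⟨nat_lit 0, nat_lit 0, nat_lit 4, (.ofNat (nat_lit 16)), (.negSucc (nat_lit 274877906943999)), (.ofNat (nat_lit 323526297425589349393133698716205514859773882793984000000)), (.ofNat (nat_lit 0)), (.ofNat (nat_lit 2349207632881792507198567356492164911595520000000000)), (.negSucc (nat_lit 274877906944031)), (.negSucc (nat_lit 274877906943967)), (.ofNat (nat_lit 1176544239527374328812576909327073280000000)), (.negSucc (nat_lit 1363983173333211454751570101366947839999999)), (.negSucc (nat_lit 1363983173333211454751570101366947839999999)), (.ofNat (nat_lit 1176544239527374328812576909327073280000000)), (.ofNat (nat_lit 153834616473876904381810936381440000000))⟩,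
    ⟨nat_lit 0, nat_lit 2, nat_lit 5, (.ofNat (nat_lit 16)), (.ofNat (nat_lit 824633720832000)), (.negSucc (nat_lit 370971834449361274943984527737458391687138971222015999999)), (.ofNat (nat_lit 0)), (.ofNat (nat_lit 0)), (.ofNat (nat_lit 824633720831968)), (.ofNat (nat_lit 824633720832032)), (.negSucc (nat_lit 448513370697169996775413218960998399999999)), (.negSucc (nat_lit 121307649162238685435513838501887999999999)), (.negSucc (nat_lit 448513370697169996775413218960998399999999)), (.negSucc (nat_lit 121307649162238685435513838501887999999999)), (.ofNat (nat_lit 0))⟩,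
    ⟨nat_lit 1, nat_lit 9, nat_lit 8, (.ofNat (nat_lit 16)), (.ofNat (nat_lit 1911844562272256)), (.negSucc (nat_lit 510925973146599378832039465943173375982038539042815999999)), (.ofNat (nat_lit 0)), (.ofNat (nat_lit 0)), (.ofNat (nat_lit 1911844562272224)), (.ofNat (nat_lit 1911844562272288)), (.negSucc (nat_lit 131272206057708291739145332378828799999999)), (.negSucc (nat_lit 794595219039534852951769427906396159999999)), (.negSucc (nat_lit 794595219039534852951769427906396159999999)), (.negSucc (nat_lit 131272206057708291739145332378828799999999)), (.ofNat (nat_lit 4294657076322638313283387392000000000))⟩,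
    ⟨nat_lit 0, nat_lit 11, nat_lit 6, (.ofNat (nat_lit 16)), (.ofNat (nat_lit 1102260406845440)), (.negSucc (nat_lit 58245314360137056385711241241221398655543348822015999999)), (.ofNat (nat_lit 0)), (.ofNat (nat_lit 0)), (.ofNat (nat_lit 1102260406845408)), (.ofNat (nat_lit 1102260406845472)), (.negSucc (nat_lit 44549391196054850137719004200959999999999)), (.negSucc (nat_lit 54954351044566527154011651440639999999999)), (.negSucc (nat_lit 54954351044566527154011651440639999999999)), (.negSucc (nat_lit 44549391196054850137719004200959999999999)), (.ofNat (nat_lit 0))⟩,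
    ⟨nat_lit 0, nat_lit 6, nat_lit 7, (.ofNat (nat_lit 16)), (.ofNat (nat_lit 1146034713526272)), (.negSucc (nat_lit 60650902976208011913082574214269375525017161302015999999)), (.ofNat (nat_lit 0)), (.ofNat (nat_lit 0)), (.ofNat (nat_lit 1146034713526240)), (.ofNat (nat_lit 1146034713526304)), (.negSucc (nat_lit 54954351044566527154011651440639999999999)), (.negSucc (nat_lit 71415423056461520247758120602828799999999)), (.negSucc (nat_lit 71415423056461520247758120602828799999999)), (.negSucc (nat_lit 54954351044566527154011651440639999999999)), (.ofNat (nat_lit 10736642690806595783208468480000000000))⟩,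
    ⟨nat_lit 0, nat_lit 7, nat_lit 8, (.ofNat (nat_lit 16)), (.ofNat (nat_lit 1364837527453696)), (.negSucc (nat_lit 76276798498779227682264276900018399964389458313215999999)), (.ofNat (nat_lit 0)), (.negSucc (nat_lit 1174603816440896253599283678246082455797759999999999)), (.ofNat (nat_lit 1364837527453664)), (.ofNat (nat_lit 1364837527453728)), (.negSucc (nat_lit 71415423056461520247758120602828799999999)), (.negSucc (nat_lit 794595219039534852951769427906396159999999)), (.negSucc (nat_lit 794595219039534852951769427906396159999999)), (.negSucc (nat_lit 71415423056461520247758120602828799999999)), (.ofNat (nat_lit 25767942457935829879700324352000000000))⟩,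
    ⟨nat_lit 0, nat_lit 1, nat_lit 2, (.ofNat (nat_lit 16)), (.negSucc (nat_lit 2748779069439)), (.ofNat (nat_lit 120279437284502097135725017355140140065026473984000000)), (.ofNat (nat_lit 0)), (.ofNat (nat_lit 0)), (.negSucc (nat_lit 2748779069471)), (.negSucc (nat_lit 2748779069407)), (.ofNat (nat_lit 0)), (.negSucc (nat_lit 448513370697169996775413218960998399999999)), (.negSucc (nat_lit 448513370697169996775413218960998399999999)), (.ofNat (nat_lit 0)), (.ofNat (nat_lit 0))⟩,
    ⟨nat_lit 0, nat_lit 10, nat_lit 11, (.ofNat (nat_lit 16)), (.ofNat (nat_lit 494780232499200)), (.negSucc (nat_lit 31182442429338806702783745294431658873962958422015999999)), (.ofNat (nat_lit 0)), (.ofNat (nat_lit 0)), (.ofNat (nat_lit 494780232499168)), (.ofNat (nat_lit 494780232499232)), (.negSucc (nat_lit 152025065577873078276934523292745727999999)), (.negSucc (nat_lit 44549391196054850137719004200959999999999)), (.negSucc (nat_lit 152025065577873078276934523292745727999999)), (.negSucc (nat_lit 44549391196054850137719004200959999999999)), (.ofNat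 (nat_lit 373761142247641663979511015800832000000))⟩,
    ⟨nat_lit 0, nat_lit 4, nat_lit 12, (.ofNat (nat_lit 16)), (.negSucc (nat_lit 54975581388799)), (.ofNat (nat_lit 23583225591454692942032136347056286411116442025984000000)), (.ofNat (nat_lit 0)), (.ofNat (nat_lit 19263502589630698559028252323235752275083264000000000)), (.negSucc (nat_lit 54975581388831)), (.negSucc (nat_lit 54975581388767)), (.negSucc (nat_lit 1363983173333211454751570101366947839999999)), (.negSucc (nat_lit 448513370697169996775413218960998399999999)), (.negSucc (nat_lit 1363983173333211454751570101366947839999999)), (.negSucc (nat_lit 448513370697169996775413218960998399999999)), (.ofNat (nat_lit 307669232947753808763621872762880000000))⟩]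
  es := [
    ⟨nat_lit 1, nat_lit 4, (.negSucc (nat_lit 549755813887999)), (.negSucc (nat_lit 274877906943999)), (.negSucc (nat_lit 549755813887967)), (.negSucc (nat_lit 274877906944031)), (.ofNat (nat_lit 1176544239527374328812576909327073280000000)), (.ofNat (nat_lit 8546367581882050243433940910080000000)), (.ofNat (nat_lit 4698415265763585014397134712984329823191040000000000))⟩,
    ⟨nat_lit 1, nat_lit 10, (.negSucc (nat_lit 549755813887999)), (.negSucc (nat_lit 2748779069439)), (.negSucc (nat_lit 549755813887967)), (.negSucc (nat_lit 2748779069471)), (.ofNat (nat_lit 0)), (.ofNat (nat_lit 0)), (.ofNat (nat_lit 0))⟩,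
    ⟨nat_lit 10, nat_lit 5, (.negSucc (nat_lit 2748779069439)), (.ofNat (nat_lit 824633720832000)), (.negSucc (nat_lit 2748779069407)), (.ofNat (nat_lit 824633720831968)), (.negSucc (nat_lit 448513370697169996775413218960998399999999)), (.ofNat (nat_lit 0)), (.ofNat (nat_lit 0))⟩,
    ⟨nat_lit 3, nat_lit 0, (.negSucc (nat_lit 2748779069439)), (.ofNat (nat_lit 288621802291200)), (.negSucc (nat_lit 2748779069407)), (.ofNat (nat_lit 288621802291168)), (.ofNat (nat_lit 0)), (.ofNat (nat_lit 0)), (.ofNat (nat_lit 19263502589630698559028252323235752275083264000000000))⟩,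
    ⟨nat_lit 4, nat_lit 12, (.negSucc (nat_lit 274877906943999)), (.negSucc (nat_lit 54975581388799)), (.negSucc (nat_lit 274877906943967)), (.negSucc (nat_lit 54975581388831)), (.negSucc (nat_lit 1363983173333211454751570101366947839999999)), (.ofNat (nat_lit 76917308236938452190905468190720000000)), (.ofNat (nat_lit 23492076328817925071985673564921649115955200000000000))⟩,
    ⟨nat_lit 5, nat_lit 2, (.ofNat (nat_lit 824633720832000)), (.ofNat (nat_lit 1102260406845440)), (.ofNat (nat_lit 824633720832032)), (.ofNat (nat_lit 1102260406845408)), (.negSucc (nat_lit 121307649162238685435513838501887999999999)), (.ofNat (nat_lit 0)), (.ofNat (nat_lit 0))⟩,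
    ⟨nat_lit 7, nat_lit 8, (.ofNat (nat_lit 1102260406845440)), (.ofNat (nat_lit 1146034713526272)), (.ofNat (nat_lit 1102260406845472)), (.ofNat (nat_lit 1146034713526240)), (.negSucc (nat_lit 54954351044566527154011651440639999999999)), (.ofNat (nat_lit 0)), (.ofNat (nat_lit 0))⟩,
    ⟨nat_lit 8, nat_lit 9, (.ofNat (nat_lit 1146034713526272)), (.ofNat (nat_lit 1364837527453696)), (.ofNat (nat_lit 1146034713526304)), (.ofNat (nat_lit 1364837527453664)), (.negSucc (nat_lit 71415423056461520247758120602828799999999)), (.negSucc (nat_lit 5368321345403297891604234239999999999)), (.ofNat (nat_lit 6152282615196239579546248084833516681953280000000000))⟩,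
    ⟨nat_lit 9, nat_lit 6, (.ofNat (nat_lit 1364837527453696)), (.ofNat (nat_lit 1911844562272256)), (.ofNat (nat_lit 1364837527453728)), (.ofNat (nat_lit 1911844562272224)), (.negSucc (nat_lit 794595219039534852951769427906396159999999)), (.ofNat (nat_lit 2147328538161319156641693696000000000)), (.negSucc (nat_lit 4105358389095750586857496383477922110898175999999999))⟩,
    ⟨nat_lit 2, nat_lit 6, (.ofNat (nat_lit 1102260406845440)), (.ofNat (nat_lit 1911844562272256)), (.ofNat (nat_lit 1102260406845472)), (.ofNat (nat_lit 1911844562272224)), (.negSucc (nat_lit 131272206057708291739145332378828799999999)), (.ofNat (nat_lit 0)), (.ofNat (nat_lit 0))⟩,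
    ⟨nat_lit 0, nat_lit 11, (.ofNat (nat_lit 288621802291200)), (.ofNat (nat_lit 494780232499200)), (.ofNat (nat_lit 288621802291232)), (.ofNat (nat_lit 494780232499168)), (.negSucc (nat_lit 152025065577873078276934523292745727999999)), (.negSucc (nat_lit 93440285561910415994877753950207999999)), (.ofNat (nat_lit 46232406215113676541667805575765805460199833600000000))⟩,
    ⟨nat_lit 11, nat_lit 7, (.ofNat (nat_lit 494780232499200)), (.ofNat (nat_lit 1102260406845440)), (.ofNat (nat_lit 494780232499232)), (.ofNat (nat_lit 1102260406845408)), (.negSucc (nat_lit 44549391196054850137719004200959999999999)), (.ofNat (nat_lit 0)), (.ofNat (nat_lit 0))⟩,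
    ⟨nat_lit 12, nat_lit 3, (.negSucc (nat_lit 54975581388799)), (.negSucc (nat_lit 2748779069439)), (.negSucc (nat_lit 54975581388767)), (.negSucc (nat_lit 2748779069471)), (.negSucc (nat_lit 448513370697169996775413218960998399999999)), (.ofNat (nat_lit 0)), (.ofNat (nat_lit 19263502589630698559028252323235752275083264000000000))⟩]

theorem ok285 : stOK 12 12 S285 = true := by decide +kernel

def S286 : SD where
  vs := [
    ⟨nat_lit 0, nat_lit 3, nat_lit 10, (.ofNat (nat_lit 16)), (.ofNat (nat_lit 288621802291200)), (.ofNat (nat_lit 1353143603020866804913533166042228285670355369984000000)), (.ofNat (nat_lit 0)), (.ofNat (nat_lit 19263502589630698559028252323235752275083264000000000)), (.ofNat (nat_lit 288621802291168)), (.ofNat (nat_lit 288621802291232)), (.ofNat (nat_lit 0)), (.negSucc (nat_lit 157818363282711524068616944037658623999999)), (.negSucc (nat_lit 157818363282711524068616944037658623999999)), (.ofNat (nat_lit 0)), (.ofNat (nat_lit 186880571123820831989755507900416000000))⟩,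
    ⟨nat_lit 2, nat_lit 0, nat_lit 1, (.ofNat (nat_lit 16)), (.negSucc (nat_lit 549755813887999)), (.ofNat (nat_lit 120279437284502097135725017355140140065026473984000000)), (.ofNat (nat_lit 0)), (.ofNat (nat_lit 0)), (.negSucc (nat_lit 549755813888031)), (.negSucc (nat_lit 549755813887967)), (.ofNat (nat_lit 1177074114317451015927669813663498240000000)), (.ofNat (nat_lit 0)), (.ofNat (nat_lit 0)), (.ofNat (nat_lit 1177074114317451015927669813663498240000000)), (.ofNat (nat_lit 34185470327528200973735763640320000000))⟩,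
    ⟨nat_lit 0, nat_lit 5, nat_lit 9, (.ofNat (nat_lit 16)), (.ofNat (nat_lit 1102260406845440)), (.negSucc (nat_lit 404650075074354652327183189360130067859772345942015999999)), (.ofNat (nat_lit 0)), (.ofNat (nat_lit 0)), (.ofNat (nat_lit 1102260406845408)), (.ofNat (nat_lit 1102260406845472)), (.negSucc (nat_lit 121307649162238685435513838501887999999999)), (.negSucc (nat_lit 131272206057708291739145332378828799999999)), (.negSucc (nat_lit 131272206057708291739145332378828799999999)), (.negSucc (nat_lit 121307649162238685435513838501887999999999)), (.ofNat (nat_lit 0))⟩,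
    ⟨nat_lit 0, nat_lit 12, nat_lit 3, (.ofNat (nat_lit 16)), (.negSucc (nat_lit 2748779069439)), (.ofNat (nat_lit 1353143603020866804913533166042228285670355369984000000)), (.ofNat (nat_lit 0)), (.ofNat (nat_lit 19263502589630698559028252323235752275083264000000000)), (.negSucc (nat_lit 2748779069471)), (.negSucc (nat_lit 2748779069407)), (.negSucc (nat_lit 448513370697169996775413218960998399999999)), (.ofNat (nat_lit 0)), (.negSucc (nat_lit 448513370697169996775413218960998399999999)), (.ofNat (nat_lit 0)), (.ofNat (nat_lit 0))⟩,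
    ⟨nat_lit 0, nat_lit 0, nat_lit 4, (.ofNat (nat_lit 16)), (.negSucc (nat_lit 274877906943999)), (.ofNat (nat_lit 323671948298828020528580009892308029084292805033984000000)), (.ofNat (nat_lit 0)), (.ofNat (nat_lit 2349207632881792507198567356492164911595520000000000)), (.negSucc (nat_lit 274877906944031)), (.negSucc (nat_lit 274877906943967)), (.ofNat (nat_lit 1177074114317451015927669813663498240000000)), (.negSucc (nat_lit 1359214300222521270715733962339123199999999)), (.negSucc (nat_lit 1359214300222521270715733962339123199999999)), (.ofNat (nat_lit 1177074114317451015927669813663498240000000)), (.ofNat (nat_lit 153834616473876904381810936381440000000))⟩,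
    ⟨nat_lit 0, nat_lit 2, nat_lit 5, (.ofNat (nat_lit 16)), (.ofNat (nat_lit 824633720832000)), (.negSucc (nat_lit 370971834449361274943984527737458391687138971222015999999)), (.ofNat (nat_lit 0)), (.ofNat (nat_lit 0)), (.ofNat (nat_lit 824633720831968)), (.ofNat (nat_lit 824633720832032)), (.negSucc (nat_lit 448513370697169996775413218960998399999999)), (.negSucc (nat_lit 121307649162238685435513838501887999999999)), (.negSucc (nat_lit 448513370697169996775413218960998399999999)), (.negSucc (nat_lit 121307649162238685435513838501887999999999)), (.ofNat (nat_lit 0))⟩,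
    ⟨nat_lit 1, nat_lit 9, nat_lit 8, (.ofNat (nat_lit 16)), (.ofNat (nat_lit 1911844562272256)), (.negSucc (nat_lit 510925973146599378832039465943173375982038539042815999999)), (.ofNat (nat_lit 0)), (.ofNat (nat_lit 0)), (.ofNat (nat_lit 1911844562272224)), (.ofNat (nat_lit 1911844562272288)), (.negSucc (nat_lit 131272206057708291739145332378828799999999)), (.negSucc (nat_lit 794462084670168851164057642897244159999999)), (.negSucc (nat_lit 794462084670168851164057642897244159999999)), (.negSucc (nat_lit 131272206057708291739145332378828799999999)), (.ofNat (nat_lit 4294657076322638313283387392000000000))⟩,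
    ⟨nat_lit 0, nat_lit 11, nat_lit 6, (.ofNat (nat_lit 16)), (.ofNat (nat_lit 1102260406845440)), (.negSucc (nat_lit 58245314360137056385711241241221398655543348822015999999)), (.ofNat (nat_lit 0)), (.ofNat (nat_lit 0)), (.ofNat (nat_lit 1102260406845408)), (.ofNat (nat_lit 1102260406845472)), (.negSucc (nat_lit 44549391196054850137719004200959999999999)), (.negSucc (nat_lit 54954351044566527154011651440639999999999)), (.negSucc (nat_lit 54954351044566527154011651440639999999999)), (.negSucc (nat_lit 44549391196054850137719004200959999999999)), (.ofNat (nat_lit 0))⟩,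
    ⟨nat_lit 0, nat_lit 6, nat_lit 7, (.ofNat (nat_lit 16)), (.ofNat (nat_lit 1146034713526272)), (.negSucc (nat_lit 60650902976208011913082574214269375525017161302015999999)), (.ofNat (nat_lit 0)), (.ofNat (nat_lit 0)), (.ofNat (nat_lit 1146034713526240)), (.ofNat (nat_lit 1146034713526304)), (.negSucc (nat_lit 54954351044566527154011651440639999999999)), (.negSucc (nat_lit 71748258979876524717037583125708799999999)), (.negSucc (nat_lit 71748258979876524717037583125708799999999)), (.negSucc (nat_lit 54954351044566527154011651440639999999999)), (.ofNat (nat_lit 10736642690806595783208468480000000000))⟩,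
    ⟨nat_lit 0, nat_lit 7, nat_lit 8, (.ofNat (nat_lit 16)), (.ofNat (nat_lit 1364837527453696)), (.negSucc (nat_lit 76349623935398563249987432488069657076648919433215999999)), (.ofNat (nat_lit 0)), (.negSucc (nat_lit 1174603816440896253599283678246082455797759999999999)), (.ofNat (nat_lit 1364837527453664)), (.ofNat (nat_lit 1364837527453728)), (.negSucc (nat_lit 71748258979876524717037583125708799999999)), (.negSucc (nat_lit 794462084670168851164057642897244159999999)), (.negSucc (nat_lit 794462084670168851164057642897244159999999)), (.negSucc (nat_lit 71748258979876524717037583125708799999999)), (.ofNat (nat_lit 25767942457935829879700324352000000000))⟩,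
    ⟨nat_lit 0, nat_lit 1, nat_lit 2, (.ofNat (nat_lit 16)), (.negSucc (nat_lit 2748779069439)), (.ofNat (nat_lit 120279437284502097135725017355140140065026473984000000)), (.ofNat (nat_lit 0)), (.ofNat (nat_lit 0)), (.negSucc (nat_lit 2748779069471)), (.negSucc (nat_lit 2748779069407)), (.ofNat (nat_lit 0)), (.negSucc (nat_lit 448513370697169996775413218960998399999999)), (.negSucc (nat_lit 448513370697169996775413218960998399999999)), (.ofNat (nat_lit 0)), (.ofNat (nat_lit 0))⟩,
    ⟨nat_lit 0, nat_lit 10, nat_lit 11, (.ofNat (nat_lit 16)), (.ofNat (nat_lit 494780232499200)), (.negSucc (nat_lit 31182442429338806702783745294431658873962958422015999999)), (.ofNat (nat_lit 0)), (.ofNat (nat_lit 0)), (.ofNat (nat_lit 494780232499168)), (.ofNat (nat_lit 494780232499232)), (.negSucc (nat_lit 157818363282711524068616944037658623999999)), (.negSucc (nat_lit 44549391196054850137719004200959999999999)), (.negSucc (nat_lit 157818363282711524068616944037658623999999)), (.negSucc (nat_lit 44549391196054850137719004200959999999999)), (.ofNat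 (nat_lit 373761142247641663979511015800832000000))⟩,
    ⟨nat_lit 0, nat_lit 4, nat_lit 12, (.ofNat (nat_lit 16)), (.negSucc (nat_lit 54975581388799)), (.ofNat (nat_lit 24777562752011796252691887991096903052171604393984000000)), (.ofNat (nat_lit 0)), (.ofNat (nat_lit 19263502589630698559028252323235752275083264000000000)), (.negSucc (nat_lit 54975581388831)), (.negSucc (nat_lit 54975581388767)), (.negSucc (nat_lit 1359214300222521270715733962339123199999999)), (.negSucc (nat_lit 448513370697169996775413218960998399999999)), (.negSucc (nat_lit 1359214300222521270715733962339123199999999)), (.negSucc (nat_lit 448513370697169996775413218960998399999999)), (.ofNat (nat_lit 307669232947753808763621872762880000000))⟩]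
  es := [
    ⟨nat_lit 1, nat_lit 4, (.negSucc (nat_lit 549755813887999)), (.negSucc (nat_lit 274877906943999)), (.negSucc (nat_lit 549755813887967)), (.negSucc (nat_lit 274877906944031)), (.ofNat (nat_lit 1177074114317451015927669813663498240000000)), (.ofNat (nat_lit 8546367581882050243433940910080000000)), (.ofNat (nat_lit 4698415265763585014397134712984329823191040000000000))⟩,
    ⟨nat_lit 1, nat_lit 10, (.negSucc (nat_lit 549755813887999)), (.negSucc (nat_lit 2748779069439)), (.negSucc (nat_lit 549755813887967)), (.negSucc (nat_lit 2748779069471)), (.ofNat (nat_lit 0)), (.ofNat (nat_lit 0)), (.ofNat (nat_lit 0))⟩,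
    ⟨nat_lit 10, nat_lit 5, (.negSucc (nat_lit 2748779069439)), (.ofNat (nat_lit 824633720832000)), (.negSucc (nat_lit 2748779069407)), (.ofNat (nat_lit 824633720831968)), (.negSucc (nat_lit 448513370697169996775413218960998399999999)), (.ofNat (nat_lit 0)), (.ofNat (nat_lit 0))⟩,
    ⟨nat_lit 3, nat_lit 0, (.negSucc (nat_lit 2748779069439)), (.ofNat (nat_lit 288621802291200)), (.negSucc (nat_lit 2748779069407)), (.ofNat (nat_lit 288621802291168)), (.ofNat (nat_lit 0)), (.ofNat (nat_lit 0)), (.ofNat (nat_lit 19263502589630698559028252323235752275083264000000000))⟩,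
    ⟨nat_lit 4, nat_lit 12, (.negSucc (nat_lit 274877906943999)), (.negSucc (nat_lit 54975581388799)), (.negSucc (nat_lit 274877906943967)), (.negSucc (nat_lit 54975581388831)), (.negSucc (nat_lit 1359214300222521270715733962339123199999999)), (.ofNat (nat_lit 76917308236938452190905468190720000000)), (.ofNat (nat_lit 23492076328817925071985673564921649115955200000000000))⟩,
    ⟨nat_lit 5, nat_lit 2, (.ofNat (nat_lit 824633720832000)), (.ofNat (nat_lit 1102260406845440)), (.ofNat (nat_lit 824633720832032)), (.ofNat (nat_lit 1102260406845408)), (.negSucc (nat_lit 121307649162238685435513838501887999999999)), (.ofNat (nat_lit 0)), (.ofNat (nat_lit 0))⟩,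
    ⟨nat_lit 7, nat_lit 8, (.ofNat (nat_lit 1102260406845440)), (.ofNat (nat_lit 1146034713526272)), (.ofNat (nat_lit 1102260406845472)), (.ofNat (nat_lit 1146034713526240)), (.negSucc (nat_lit 54954351044566527154011651440639999999999)), (.ofNat (nat_lit 0)), (.ofNat (nat_lit 0))⟩,
    ⟨nat_lit 8, nat_lit 9, (.ofNat (nat_lit 1146034713526272)), (.ofNat (nat_lit 1364837527453696)), (.ofNat (nat_lit 1146034713526304)), (.ofNat (nat_lit 1364837527453664)), (.negSucc (nat_lit 71748258979876524717037583125708799999999)), (.negSucc (nat_lit 5368321345403297891604234239999999999)), (.ofNat (nat_lit 6152282615196239579546248084833516681953280000000000))⟩,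
    ⟨nat_lit 9, nat_lit 6, (.ofNat (nat_lit 1364837527453696)), (.ofNat (nat_lit 1911844562272256)), (.ofNat (nat_lit 1364837527453728)), (.ofNat (nat_lit 1911844562272224)), (.negSucc (nat_lit 794462084670168851164057642897244159999999)), (.ofNat (nat_lit 2147328538161319156641693696000000000)), (.negSucc (nat_lit 4105358389095750586857496383477922110898175999999999))⟩,
    ⟨nat_lit 2, nat_lit 6, (.ofNat (nat_lit 1102260406845440)), (.ofNat (nat_lit 1911844562272256)), (.ofNat (nat_lit 1102260406845472)), (.ofNat (nat_lit 1911844562272224)), (.negSucc (nat_lit 131272206057708291739145332378828799999999)), (.ofNat (nat_lit 0)), (.ofNat (nat_lit 0))⟩,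
    ⟨nat_lit 0, nat_lit 11, (.ofNat (nat_lit 288621802291200)), (.ofNat (nat_lit 494780232499200)), (.ofNat (nat_lit 288621802291232)), (.ofNat (nat_lit 494780232499168)), (.negSucc (nat_lit 157818363282711524068616944037658623999999)), (.negSucc (nat_lit 93440285561910415994877753950207999999)), (.ofNat (nat_lit 46232406215113676541667805575765805460199833600000000))⟩,
    ⟨nat_lit 11, nat_lit 7, (.ofNat (nat_lit 494780232499200)), (.ofNat (nat_lit 1102260406845440)), (.ofNat (nat_lit 494780232499232)), (.ofNat (nat_lit 1102260406845408)), (.negSucc (nat_lit 44549391196054850137719004200959999999999)), (.ofNat (nat_lit 0)), (.ofNat (nat_lit 0))⟩,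
    ⟨nat_lit 12, nat_lit 3, (.negSucc (nat_lit 54975581388799)), (.negSucc (nat_lit 2748779069439)), (.negSucc (nat_lit 54975581388767)), (.negSucc (nat_lit 2748779069471)), (.negSucc (nat_lit 448513370697169996775413218960998399999999)), (.ofNat (nat_lit 0)), (.ofNat (nat_lit 19263502589630698559028252323235752275083264000000000))⟩]

theorem ok286 : stOK 12 12 S286 = true := by decide +kernel

def S287 : SD where
  vs := [
    ⟨nat_lit 0, nat_lit 3, nat_lit 10, (.ofNat (nat_lit 16)), (.ofNat (nat_lit 288621802291200)), (.ofNat (nat_lit 248196605469601790857304437862927754804551938473984000000)), (.ofNat (nat_lit 0)), (.ofNat (nat_lit 3856929091665326938318607885888836351857524736000000000)), (.ofNat (nat_lit 288621802291168)), (.ofNat (nat_lit 288621802291232)), (.negSucc (nat_lit 104233434055255797685956592533503999999999)), (.negSucc (nat_lit 102100604711550893574890814072422399999999)), (.negSucc (nat_lit 104233434055255797685956592533503999999999)), (.negSucc (nat_lit 102100604711550893574890814072422399999999)), (.ofNat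 (nat_lit 8255769583802257058301228594757632000000))⟩,
    ⟨nat_lit 2, nat_lit 0, nat_lit 1, (.ofNat (nat_lit 16)), (.negSucc (nat_lit 549755813887999)), (.ofNat (nat_lit 120279437284502097135725017355140140065026473984000000)), (.ofNat (nat_lit 0)), (.ofNat (nat_lit 0)), (.negSucc (nat_lit 549755813888031)), (.negSucc (nat_lit 549755813887967)), (.ofNat (nat_lit 1069868479370322577674034458887454720000000)), (.negSucc (nat_lit 109393505048090243115954443649023999999999)), (.negSucc (nat_lit 109393505048090243115954443649023999999999)), (.ofNat (nat_lit 1069868479370322577674034458887454720000000)), (.ofNat (nat_lit 3418547032752820097373576364032000000000))⟩,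
    ⟨nat_lit 0, nat_lit 5, nat_lit 9, (.ofNat (nat_lit 16)), (.ofNat (nat_lit 1102260406845440)), (.negSucc (nat_lit 180599565345046031896635664582874122179155136086015999999)), (.ofNat (nat_lit 0)), (.ofNat (nat_lit 3500789214520447194227305074644624151259643904000000000)), (.ofNat (nat_lit 1102260406845408)), (.ofNat (nat_lit 1102260406845472)), (.negSucc (nat_lit 109393505048090243115954443649023999999999)), (.negSucc (nat_lit 109393505048090243115954443649023999999999)), (.negSucc (nat_lit 109393505048090243115954443649023999999999)), (.negSucc (nat_lit 109393505048090243115954443649023999999999)), (.ofNat (nat_lit 683709406550564019474715272806400000000))⟩,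
    ⟨nat_lit 0, nat_lit 12, nat_lit 3, (.ofNat (nat_lit 16)), (.negSucc (nat_lit 2748779069439)), (.ofNat (nat_lit 278567161747497604390367516647658462781658821033984000000)), (.ofNat (nat_lit 0)), (.ofNat (nat_lit 4331469033507449024772718491900253663999819776000000000)), (.negSucc (nat_lit 2748779069471)), (.negSucc (nat_lit 2748779069407)), (.negSucc (nat_lit 80605740561750705453861169004543999999999)), (.negSucc (nat_lit 104233434055255797685956592533503999999999)), (.negSucc (nat_lit 104233434055255797685956592533503999999999)), (.negSucc (nat_lit 80605740561750705453861169004543999999999)), (.ofNat (nat_lit 26251521697690449385283146638950400000000))⟩,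
    ⟨nat_lit 0, nat_lit 0, nat_lit 4, (.ofNat (nat_lit 16)), (.negSucc (nat_lit 274877906943999)), (.ofNat (nat_lit 294203487751958815318281180972470312433238602153984000000)), (.ofNat (nat_lit 0)), (.negSucc (nat_lit 460444696044831331410919201872464322672721919999999999)), (.negSucc (nat_lit 274877906944031)), (.negSucc (nat_lit 274877906943967)), (.ofNat (nat_lit 1069868479370322577674034458887454720000000)), (.negSucc (nat_lit 51961914897842865480078360733286399999999)), (.negSucc (nat_lit 51961914897842865480078360733286399999999)), (.ofNat (nat_lit 1069868479370322577674034458887454720000000)), (.ofNat (nat_lit 47551989225591727554466447223685120000000))⟩,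
    ⟨nat_lit 0, nat_lit 2, nat_lit 5, (.ofNat (nat_lit 16)), (.ofNat (nat_lit 824633720832000)), (.negSucc (nat_lit 150229009067150218363572585798143414202048253526015999999)), (.ofNat (nat_lit 0)), (.ofNat (nat_lit 3449106646597047759068936592801796523204542464000000000)), (.ofNat (nat_lit 824633720831968)), (.ofNat (nat_lit 824633720832032)), (.negSucc (nat_lit 109393505048090243115954443649023999999999)), (.negSucc (nat_lit 109393505048090243115954443649023999999999)), (.negSucc (nat_lit 109393505048090243115954443649023999999999)), (.negSucc (nat_lit 109393505048090243115954443649023999999999)), (.ofNat (nat_lit 20822674599500345781229942367846400000000))⟩,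
    ⟨nat_lit 1, nat_lit 9, nat_lit 8, (.ofNat (nat_lit 16)), (.ofNat (nat_lit 1911844562272256)), (.negSucc (nat_lit 269162813738583303984015895068743545614376963670015999999)), (.ofNat (nat_lit 0)), (.ofNat (nat_lit 3777549365750251169500368294912966099494712115200000000)), (.ofNat (nat_lit 1911844562272224)), (.ofNat (nat_lit 1911844562272288)), (.negSucc (nat_lit 109393505048090243115954443649023999999999)), (.negSucc (nat_lit 772308525607666153688816617374351359999999)), (.negSucc (nat_lit 772308525607666153688816617374351359999999)), (.negSucc (nat_lit 109393505048090243115954443649023999999999)), (.ofNat (nat_lit 692298720703209296101282047590400000000))⟩,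
    ⟨nat_lit 0, nat_lit 11, nat_lit 6, (.ofNat (nat_lit 16)), (.ofNat (nat_lit 1102260406845440)), (.ofNat (nat_lit 166707291100198172367600533400927538351126540713984000000)), (.ofNat (nat_lit 0)), (.ofNat (nat_lit 3514884460317737949270496478783577140729217024000000000)), (.ofNat (nat_lit 1102260406845408)), (.ofNat (nat_lit 1102260406845472)), (.negSucc (nat_lit 99493640337855831974239109382143999999999)), (.negSucc (nat_lit 75047035645236163644697161498623999999999)), (.negSucc (nat_lit 99493640337855831974239109382143999999999)), (.negSucc (nat_lit 75047035645236163644697161498623999999999)), (.ofNat (nat_lit 2806119177591635224448584384512000000000))⟩,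
    ⟨nat_lit 0, nat_lit 6, nat_lit 7, (.ofNat (nat_lit 16)), (.ofNat (nat_lit 1146034713526272)), (.ofNat (nat_lit 163422159146376273725534056809608894938751365545984000000)), (.ofNat (nat_lit 0)), (.ofNat (nat_lit 3501141595665379463103384859748097975996383232000000000)), (.ofNat (nat_lit 1146034713526240)), (.ofNat (nat_lit 1146034713526304)), (.negSucc (nat_lit 75047035645236163644697161498623999999999)), (.negSucc (nat_lit 46282660380113808574592409246105599999999)), (.negSucc (nat_lit 75047035645236163644697161498623999999999)), (.negSucc (nat_lit 46282660380113808574592409246105599999999)), (.ofNat (nat_lit 2051592743784437160119256062361600000000))⟩,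
    ⟨nat_lit 0, nat_lit 7, nat_lit 8, (.ofNat (nat_lit 16)), (.ofNat (nat_lit 1364837527453696)), (.ofNat (nat_lit 153295382819160073128903048534630989811038325571584000000)), (.ofNat (nat_lit 0)), (.ofNat (nat_lit 3588203230539978693420163765979697607620113203200000000)), (.ofNat (nat_lit 1364837527453664)), (.ofNat (nat_lit 1364837527453728)), (.negSucc (nat_lit 46282660380113808574592409246105599999999)), (.negSucc (nat_lit 772308525607666153688816617374351359999999)), (.negSucc (nat_lit 772308525607666153688816617374351359999999)), (.negSucc (nat_lit 46282660380113808574592409246105599999999)), (.ofNat (nat_lit 899301191781960462801541319884800000000))⟩,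
    ⟨nat_lit 0, nat_lit 1, nat_lit 2, (.ofNat (nat_lit 16)), (.negSucc (nat_lit 2748779069439)), (.negSucc (nat_lit 59718737387480516646226182687213284488096058966015999999)), (.ofNat (nat_lit 0)), (.negSucc (nat_lit 934984637886953417865029807883881634815016959999999999)), (.negSucc (nat_lit 2748779069471)), (.negSucc (nat_lit 2748779069407)), (.negSucc (nat_lit 109393505048090243115954443649023999999999)), (.negSucc (nat_lit 109393505048090243115954443649023999999999)), (.negSucc (nat_lit 109393505048090243115954443649023999999999)), (.negSucc (nat_lit 109393505048090243115954443649023999999999)), (.ofNat (nat_lit 17434589867039382496605239456563200000000))⟩,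
    ⟨nat_lit 0, nat_lit 10, nat_lit 11, (.ofNat (nat_lit 16)), (.ofNat (nat_lit 494780232499200)), (.ofNat (nat_lit 227147705078980929992805274348757957196656079273984000000)), (.ofNat (nat_lit 0)), (.ofNat (nat_lit 4036408554817495885868578431924837751103422464000000000)), (.ofNat (nat_lit 494780232499168)), (.ofNat (nat_lit 494780232499232)), (.negSucc (nat_lit 102100604711550893574890814072422399999999)), (.negSucc (nat_lit 99493640337855831974239109382143999999999)), (.negSucc (nat_lit 102100604711550893574890814072422399999999)), (.negSucc (nat_lit 99493640337855831974239109382143999999999)), (.ofNat (nat_lit 5199367696378820088249136409739264000000))⟩,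
    ⟨nat_lit 0, nat_lit 4, nat_lit 12, (.ofNat (nat_lit 16)), (.negSucc (nat_lit 54975581388799)), (.ofNat (nat_lit 282776941825621776563267349350492422303237992873984000000)), (.ofNat (nat_lit 0)), (.ofNat (nat_lit 4031240298025155942352741583740554988297912320000000000)), (.negSucc (nat_lit 54975581388831)), (.negSucc (nat_lit 54975581388767)), (.negSucc (nat_lit 51961914897842865480078360733286399999999)), (.negSucc (nat_lit 80605740561750705453861169004543999999999)), (.negSucc (nat_lit 80605740561750705453861169004543999999999)), (.negSucc (nat_lit 51961914897842865480078360733286399999999)), (.ofNat (nat_lit 70206160641060547473429973539225600000000))⟩]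
  es := [
    ⟨nat_lit 1, nat_lit 4, (.negSucc (nat_lit 549755813887999)), (.negSucc (nat_lit 274877906943999)), (.negSucc (nat_lit 549755813887967)), (.negSucc (nat_lit 274877906944031)), (.ofNat (nat_lit 1069868479370322577674034458887454720000000)), (.negSucc (nat_lit 1675088046048881847713052418375679999999)), (.negSucc (nat_lit 920889392089662662821838403744928645345443839999999999))⟩,
    ⟨nat_lit 1, nat_lit 10, (.negSucc (nat_lit 549755813887999)), (.negSucc (nat_lit 2748779069439)), (.negSucc (nat_lit 549755813887967)), (.negSucc (nat_lit 2748779069471)), (.negSucc (nat_lit 109393505048090243115954443649023999999999)), (.negSucc (nat_lit 1709273516376410048686788182015999999999)), (.negSucc (nat_lit 939683053152717002879426942596865964638207999999999999))⟩,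
    ⟨nat_lit 10, nat_lit 5, (.negSucc (nat_lit 2748779069439)), (.ofNat (nat_lit 824633720832000)), (.negSucc (nat_lit 2748779069407)), (.ofNat (nat_lit 824633720831968)), (.negSucc (nat_lit 109393505048090243115954443649023999999999)), (.ofNat (nat_lit 5298747900766871150929043364249600000000)), (.negSucc (nat_lit 920419550563086304320398690273630212363124735999999999))⟩,
    ⟨nat_lit 3, nat_lit 0, (.negSucc (nat_lit 2748779069439)), (.ofNat (nat_lit 288621802291200)), (.negSucc (nat_lit 2748779069407)), (.ofNat (nat_lit 288621802291168)), (.negSucc (nat_lit 104233434055255797685956592533503999999999)), (.negSucc (nat_lit 1628647407113371838843071758335999999999)), (.ofNat (nat_lit 4326992241603278061692962731466183689356967936000000000))⟩,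
    ⟨nat_lit 4, nat_lit 12, (.negSucc (nat_lit 274877906943999)), (.negSucc (nat_lit 54975581388799)), (.negSucc (nat_lit 274877906943967)), (.negSucc (nat_lit 54975581388831)), (.negSucc (nat_lit 51961914897842865480078360733286399999999)), (.ofNat (nat_lit 20425818520698100081807118775091200000000)), (.ofNat (nat_lit 5154161546542652760793656780143809816040570880000000000))⟩,
    ⟨nat_lit 5, nat_lit 2, (.ofNat (nat_lit 824633720832000)), (.ofNat (nat_lit 1102260406845440)), (.ofNat (nat_lit 824633720832032)), (.ofNat (nat_lit 1102260406845408)), (.negSucc (nat_lit 109393505048090243115954443649023999999999)), (.ofNat (nat_lit 186158501783569411243115544576000000000)), (.ofNat (nat_lit 3295594068606752407113386646733991687397310464000000000))⟩,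
    ⟨nat_lit 7, nat_lit 8, (.ofNat (nat_lit 1102260406845440)), (.ofNat (nat_lit 1146034713526272)), (.ofNat (nat_lit 1102260406845472)), (.ofNat (nat_lit 1146034713526240)), (.negSucc (nat_lit 75047035645236163644697161498623999999999)), (.negSucc (nat_lit 313948196885463070166961094655999999999)), (.ofNat (nat_lit 3860937127545100772065583400807259718931185664000000000))⟩,
    ⟨nat_lit 8, nat_lit 9, (.ofNat (nat_lit 1146034713526272)), (.ofNat (nat_lit 1364837527453696)), (.ofNat (nat_lit 1146034713526304)), (.ofNat (nat_lit 1364837527453664)), (.negSucc (nat_lit 46282660380113808574592409246105599999999)), (.ofNat (nat_lit 397899978121292439725705841868800000000)), (.ofNat (nat_lit 3045134408227034185467416951700237719530006118400000000))⟩,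
    ⟨nat_lit 9, nat_lit 6, (.ofNat (nat_lit 1364837527453696)), (.ofNat (nat_lit 1911844562272256)), (.ofNat (nat_lit 1364837527453728)), (.ofNat (nat_lit 1911844562272224)), (.negSucc (nat_lit 772308525607666153688816617374351359999999)), (.ofNat (nat_lit 346149360351604648050641023795200000000)), (.ofNat (nat_lit 3115765593428016174898939877896325055217926144000000000))⟩,
    ⟨nat_lit 2, nat_lit 6, (.ofNat (nat_lit 1102260406845440)), (.ofNat (nat_lit 1911844562272256)), (.ofNat (nat_lit 1102260406845472)), (.ofNat (nat_lit 1911844562272224)), (.negSucc (nat_lit 109393505048090243115954443649023999999999)), (.ofNat (nat_lit 341854703275282009737357636403200000000)), (.ofNat (nat_lit 3123976310206207676072654870663280899439722496000000000))⟩,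
    ⟨nat_lit 0, nat_lit 11, (.ofNat (nat_lit 288621802291200)), (.ofNat (nat_lit 494780232499200)), (.ofNat (nat_lit 288621802291232)), (.ofNat (nat_lit 494780232499168)), (.negSucc (nat_lit 102100604711550893574890814072422399999999)), (.ofNat (nat_lit 870589977674384851464470780706816000000)), (.ofNat (nat_lit 3605657843252290411748649121438434392913267916800000000))⟩,
    ⟨nat_lit 11, nat_lit 7, (.ofNat (nat_lit 494780232499200)), (.ofNat (nat_lit 1102260406845440)), (.ofNat (nat_lit 494780232499232)), (.ofNat (nat_lit 1102260406845408)), (.negSucc (nat_lit 99493640337855831974239109382143999999999)), (.negSucc (nat_lit 858503892840640341195626643455999999999)), (.ofNat (nat_lit 4461179310518656196219957398284235533308657664000000000))⟩,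
    ⟨nat_lit 12, nat_lit 3, (.negSucc (nat_lit 54975581388799)), (.negSucc (nat_lit 2748779069439)), (.negSucc (nat_lit 54975581388767)), (.negSucc (nat_lit 2748779069471)), (.negSucc (nat_lit 80605740561750705453861169004543999999999)), (.ofNat (nat_lit 5748556720865926426899250780569600000000)), (.ofNat (nat_lit 4347270545901253923847454118645500962720972800000000000))⟩]

theorem ok287 : stOK 12 12 S287 = true := by decide +kernel

def S288 : SD where
  vs := [
    ⟨nat_lit 0, nat_lit 3, nat_lit 10, (.ofNat (nat_lit 16)), (.ofNat (nat_lit 288621802291200)), (.ofNat (nat_lit 248196605469601790857304437862927754804551938473984000000)), (.ofNat (nat_lit 0)), (.ofNat (nat_lit 0)), (.ofNat (nat_lit 288621802291168)), (.ofNat (nat_lit 288621802291232)), (.negSucc (nat_lit 104233434055255797685956592533503999999999)), (.negSucc (nat_lit 102100604711550893574890814072422399999999)), (.negSucc (nat_lit 104233434055255797685956592533503999999999)), (.negSucc (nat_lit 102100604711550893574890814072422399999999)), (.ofNat (nat_lit 0))⟩,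
    ⟨nat_lit 2, nat_lit 0, nat_lit 1, (.ofNat (nat_lit 16)), (.negSucc (nat_lit 549755813887999)), (.ofNat (nat_lit 120279437284502097135725017355140140065026473984000000)), (.ofNat (nat_lit 0)), (.ofNat (nat_lit 0)), (.negSucc (nat_lit 549755813888031)), (.negSucc (nat_lit 549755813887967)), (.ofNat (nat_lit 1069868479370322577674034458887454720000000)), (.negSucc (nat_lit 109393505048090243115954443649023999999999)), (.negSucc (nat_lit 109393505048090243115954443649023999999999)), (.ofNat (nat_lit 1069868479370322577674034458887454720000000)), (.ofNat (nat_lit 0))⟩,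
    ⟨nat_lit 0, nat_lit 5, nat_lit 9, (.ofNat (nat_lit 16)), (.ofNat (nat_lit 1102260406845440)), (.negSucc (nat_lit 180599565345046031896635664582874122179155136086015999999)), (.ofNat (nat_lit 0)), (.ofNat (nat_lit 0)), (.ofNat (nat_lit 1102260406845408)), (.ofNat (nat_lit 1102260406845472)), (.negSucc (nat_lit 109393505048090243115954443649023999999999)), (.negSucc (nat_lit 109393505048090243115954443649023999999999)), (.negSucc (nat_lit 109393505048090243115954443649023999999999)), (.negSucc (nat_lit 109393505048090243115954443649023999999999)), (.ofNat (nat_lit 0))⟩,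
    ⟨nat_lit 0, nat_lit 12, nat_lit 3, (.ofNat (nat_lit 16)), (.negSucc (nat_lit 2748779069439)), (.ofNat (nat_lit 278567161747497604390367516647658462781658821033984000000)), (.ofNat (nat_lit 0)), (.ofNat (nat_lit 0)), (.negSucc (nat_lit 2748779069471)), (.negSucc (nat_lit 2748779069407)), (.negSucc (nat_lit 80605740561750705453861169004543999999999)), (.negSucc (nat_lit 104233434055255797685956592533503999999999)), (.negSucc (nat_lit 104233434055255797685956592533503999999999)), (.negSucc (nat_lit 80605740561750705453861169004543999999999)), (.ofNat (nat_lit 0))⟩,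
    ⟨nat_lit 0, nat_lit 0, nat_lit 4, (.ofNat (nat_lit 16)), (.negSucc (nat_lit 274877906943999)), (.ofNat (nat_lit 294203487751958815318281180972470312433238602153984000000)), (.ofNat (nat_lit 0)), (.ofNat (nat_lit 0)), (.negSucc (nat_lit 274877906944031)), (.negSucc (nat_lit 274877906943967)), (.ofNat (nat_lit 1069868479370322577674034458887454720000000)), (.negSucc (nat_lit 51961914897842865480078360733286399999999)), (.negSucc (nat_lit 51961914897842865480078360733286399999999)), (.ofNat (nat_lit 1069868479370322577674034458887454720000000)), (.ofNat (nat_lit 0))⟩,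
    ⟨nat_lit 0, nat_lit 2, nat_lit 5, (.ofNat (nat_lit 16)), (.ofNat (nat_lit 824633720832000)), (.negSucc (nat_lit 150229009067150218363572585798143414202048253526015999999)), (.ofNat (nat_lit 0)), (.ofNat (nat_lit 0)), (.ofNat (nat_lit 824633720831968)), (.ofNat (nat_lit 824633720832032)), (.negSucc (nat_lit 109393505048090243115954443649023999999999)), (.negSucc (nat_lit 109393505048090243115954443649023999999999)), (.negSucc (nat_lit 109393505048090243115954443649023999999999)), (.negSucc (nat_lit 109393505048090243115954443649023999999999)), (.ofNat (nat_lit 0))⟩,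
    ⟨nat_lit 1, nat_lit 9, nat_lit 8, (.ofNat (nat_lit 16)), (.ofNat (nat_lit 1911844562272256)), (.negSucc (nat_lit 269162813738583303984015895068743545614376963670015999999)), (.ofNat (nat_lit 0)), (.ofNat (nat_lit 0)), (.ofNat (nat_lit 1911844562272224)), (.ofNat (nat_lit 1911844562272288)), (.negSucc (nat_lit 109393505048090243115954443649023999999999)), (.negSucc (nat_lit 772304230950589831050503333986959359999999)), (.negSucc (nat_lit 772304230950589831050503333986959359999999)), (.negSucc (nat_lit 109393505048090243115954443649023999999999)), (.ofNat (nat_lit 8589314152645276626566774784000000000))⟩,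
    ⟨nat_lit 0, nat_lit 11, nat_lit 6, (.ofNat (nat_lit 16)), (.ofNat (nat_lit 1102260406845440)), (.ofNat (nat_lit 166707291100198172367600533400927538351126540713984000000)), (.ofNat (nat_lit 0)), (.ofNat (nat_lit 0)), (.ofNat (nat_lit 1102260406845408)), (.ofNat (nat_lit 1102260406845472)), (.negSucc (nat_lit 99493640337855831974239109382143999999999)), (.negSucc (nat_lit 75047035645236163644697161498623999999999)), (.negSucc (nat_lit 99493640337855831974239109382143999999999)), (.negSucc (nat_lit 75047035645236163644697161498623999999999)), (.ofNat (nat_lit 0))⟩,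
    ⟨nat_lit 0, nat_lit 6, nat_lit 7, (.ofNat (nat_lit 16)), (.ofNat (nat_lit 1146034713526272)), (.ofNat (nat_lit 163422159146376273725534056809608894938751365545984000000)), (.ofNat (nat_lit 0)), (.ofNat (nat_lit 0)), (.ofNat (nat_lit 1146034713526240)), (.ofNat (nat_lit 1146034713526304)), (.negSucc (nat_lit 75047035645236163644697161498623999999999)), (.negSucc (nat_lit 46293397022804615170375617714585599999999)), (.negSucc (nat_lit 75047035645236163644697161498623999999999)), (.negSucc (nat_lit 46293397022804615170375617714585599999999)), (.ofNat (nat_lit 21473285381613191566416936960000000000))⟩,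
    ⟨nat_lit 0, nat_lit 7, nat_lit 8, (.ofNat (nat_lit 16)), (.ofNat (nat_lit 1364837527453696)), (.ofNat (nat_lit 153293033611527191336395849967274497646126730051584000000)), (.ofNat (nat_lit 0)), (.negSucc (nat_lit 2349207632881792507198567356492164911595519999999999)), (.ofNat (nat_lit 1364837527453664)), (.ofNat (nat_lit 1364837527453728)), (.negSucc (nat_lit 46293397022804615170375617714585599999999)), (.negSucc (nat_lit 772304230950589831050503333986959359999999)), (.negSucc (nat_lit 772304230950589831050503333986959359999999)), (.negSucc (nat_lit 46293397022804615170375617714585599999999)), (.ofNat (nat_lit 51535884915871659759400648704000000000))⟩,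
    ⟨nat_lit 0, nat_lit 1, nat_lit 2, (.ofNat (nat_lit 16)), (.negSucc (nat_lit 2748779069439)), (.negSucc (nat_lit 59718737387480516646226182687213284488096058966015999999)), (.ofNat (nat_lit 0)), (.ofNat (nat_lit 0)), (.negSucc (nat_lit 2748779069471)), (.negSucc (nat_lit 2748779069407)), (.negSucc (nat_lit 109393505048090243115954443649023999999999)), (.negSucc (nat_lit 109393505048090243115954443649023999999999)), (.negSucc (nat_lit 109393505048090243115954443649023999999999)), (.negSucc (nat_lit 109393505048090243115954443649023999999999)), (.ofNat (nat_lit 0))⟩,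
    ⟨nat_lit 0, nat_lit 10, nat_lit 11, (.ofNat (nat_lit 16)), (.ofNat (nat_lit 494780232499200)), (.ofNat (nat_lit 227147705078980929992805274348757957196656079273984000000)), (.ofNat (nat_lit 0)), (.ofNat (nat_lit 0)), (.ofNat (nat_lit 494780232499168)), (.ofNat (nat_lit 494780232499232)), (.negSucc (nat_lit 102100604711550893574890814072422399999999)), (.negSucc (nat_lit 99493640337855831974239109382143999999999)), (.negSucc (nat_lit 102100604711550893574890814072422399999999)), (.negSucc (nat_lit 99493640337855831974239109382143999999999)), (.ofNat (nat_lit 0))⟩,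
    ⟨nat_lit 0, nat_lit 4, nat_lit 12, (.ofNat (nat_lit 16)), (.negSucc (nat_lit 54975581388799)), (.ofNat (nat_lit 282776941825621776563267349350492422303237992873984000000)), (.ofNat (nat_lit 0)), (.ofNat (nat_lit 0)), (.negSucc (nat_lit 54975581388831)), (.negSucc (nat_lit 54975581388767)), (.negSucc (nat_lit 51961914897842865480078360733286399999999)), (.negSucc (nat_lit 80605740561750705453861169004543999999999)), (.negSucc (nat_lit 80605740561750705453861169004543999999999)), (.negSucc (nat_lit 51961914897842865480078360733286399999999)), (.ofNat (nat_lit 0))⟩]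
  es := [
    ⟨nat_lit 1, nat_lit 4, (.negSucc (nat_lit 549755813887999)), (.negSucc (nat_lit 274877906943999)), (.negSucc (nat_lit 549755813887967)), (.negSucc (nat_lit 274877906944031)), (.ofNat (nat_lit 1069868479370322577674034458887454720000000)), (.ofNat (nat_lit 0)), (.ofNat (nat_lit 0))⟩,
    ⟨nat_lit 1, nat_lit 10, (.negSucc (nat_lit 549755813887999)), (.negSucc (nat_lit 2748779069439)), (.negSucc (nat_lit 549755813887967)), (.negSucc (nat_lit 2748779069471)), (.negSucc (nat_lit 109393505048090243115954443649023999999999)), (.ofNat (nat_lit 0)), (.ofNat (nat_lit 0))⟩,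
    ⟨nat_lit 10, nat_lit 5, (.negSucc (nat_lit 2748779069439)), (.ofNat (nat_lit 824633720832000)), (.negSucc (nat_lit 2748779069407)), (.ofNat (nat_lit 824633720831968)), (.negSucc (nat_lit 109393505048090243115954443649023999999999)), (.ofNat (nat_lit 0)), (.ofNat (nat_lit 0))⟩,
    ⟨nat_lit 3, nat_lit 0, (.negSucc (nat_lit 2748779069439)), (.ofNat (nat_lit 288621802291200)), (.negSucc (nat_lit 2748779069407)), (.ofNat (nat_lit 288621802291168)), (.negSucc (nat_lit 104233434055255797685956592533503999999999)), (.ofNat (nat_lit 0)), (.ofNat (nat_lit 0))⟩,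
    ⟨nat_lit 4, nat_lit 12, (.negSucc (nat_lit 274877906943999)), (.negSucc (nat_lit 54975581388799)), (.negSucc (nat_lit 274877906943967)), (.negSucc (nat_lit 54975581388831)), (.negSucc (nat_lit 51961914897842865480078360733286399999999)), (.ofNat (nat_lit 0)), (.ofNat (nat_lit 0))⟩,
    ⟨nat_lit 5, nat_lit 2, (.ofNat (nat_lit 824633720832000)), (.ofNat (nat_lit 1102260406845440)), (.ofNat (nat_lit 824633720832032)), (.ofNat (nat_lit 1102260406845408)), (.negSucc (nat_lit 109393505048090243115954443649023999999999)), (.ofNat (nat_lit 0)), (.ofNat (nat_lit 0))⟩,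
    ⟨nat_lit 7, nat_lit 8, (.ofNat (nat_lit 1102260406845440)), (.ofNat (nat_lit 1146034713526272)), (.ofNat (nat_lit 1102260406845472)), (.ofNat (nat_lit 1146034713526240)), (.negSucc (nat_lit 75047035645236163644697161498623999999999)), (.ofNat (nat_lit 0)), (.ofNat (nat_lit 0))⟩,
    ⟨nat_lit 8, nat_lit 9, (.ofNat (nat_lit 1146034713526272)), (.ofNat (nat_lit 1364837527453696)), (.ofNat (nat_lit 1146034713526304)), (.ofNat (nat_lit 1364837527453664)), (.negSucc (nat_lit 46293397022804615170375617714585599999999)), (.negSucc (nat_lit 10736642690806595783208468479999999999)), (.ofNat (nat_lit 12304565230392479159092496169667033363906560000000000))⟩,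
    ⟨nat_lit 9, nat_lit 6, (.ofNat (nat_lit 1364837527453696)), (.ofNat (nat_lit 1911844562272256)), (.ofNat (nat_lit 1364837527453728)), (.ofNat (nat_lit 1911844562272224)), (.negSucc (nat_lit 772304230950589831050503333986959359999999)), (.ofNat (nat_lit 4294657076322638313283387392000000000)), (.negSucc (nat_lit 8210716778191501173714992766955844221796351999999999))⟩,
    ⟨nat_lit 2, nat_lit 6, (.ofNat (nat_lit 1102260406845440)), (.ofNat (nat_lit 1911844562272256)), (.ofNat (nat_lit 1102260406845472)), (.ofNat (nat_lit 1911844562272224)), (.negSucc (nat_lit 109393505048090243115954443649023999999999)), (.ofNat (nat_lit 0)), (.ofNat (nat_lit 0))⟩,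
    ⟨nat_lit 0, nat_lit 11, (.ofNat (nat_lit 288621802291200)), (.ofNat (nat_lit 494780232499200)), (.ofNat (nat_lit 288621802291232)), (.ofNat (nat_lit 494780232499168)), (.negSucc (nat_lit 102100604711550893574890814072422399999999)), (.ofNat (nat_lit 0)), (.ofNat (nat_lit 0))⟩,
    ⟨nat_lit 11, nat_lit 7, (.ofNat (nat_lit 494780232499200)), (.ofNat (nat_lit 1102260406845440)), (.ofNat (nat_lit 494780232499232)), (.ofNat (nat_lit 1102260406845408)), (.negSucc (nat_lit 99493640337855831974239109382143999999999)), (.ofNat (nat_lit 0)), (.ofNat (nat_lit 0))⟩,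
    ⟨nat_lit 12, nat_lit 3, (.negSucc (nat_lit 54975581388799)), (.negSucc (nat_lit 2748779069439)), (.negSucc (nat_lit 54975581388767)), (.negSucc (nat_lit 2748779069471)), (.negSucc (nat_lit 80605740561750705453861169004543999999999)), (.ofNat (nat_lit 0)), (.ofNat (nat_lit 0))⟩]

theorem ok288 : stOK 12 12 S288 = true := by decide +kernel

def S289 : SD where
  vs := [
    ⟨nat_lit 0, nat_lit 2, nat_lit 9, (.ofNat (nat_lit 16)), (.ofNat (nat_lit 288621802291200)), (.ofNat (nat_lit 248196605469601790857304437862927754804551938473984000000)), (.ofNat (nat_lit 0)), (.ofNat (nat_lit 0)), (.ofNat (nat_lit 288621802291168)), (.ofNat (nat_lit 288621802291232)), (.negSucc (nat_lit 104233434055255797685956592533503999999999)), (.negSucc (nat_lit 102100604711550893574890814072422399999999)), (.negSucc (nat_lit 104233434055255797685956592533503999999999)), (.negSucc (nat_lit 102100604711550893574890814072422399999999)), (.ofNat (nat_lit 0))⟩,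
    ⟨nat_lit 2, nat_lit 0, nat_lit 1, (.ofNat (nat_lit 16)), (.negSucc (nat_lit 549755813887999)), (.ofNat (nat_lit 120279437284502097135725017355140140065026473984000000)), (.ofNat (nat_lit 0)), (.ofNat (nat_lit 0)), (.negSucc (nat_lit 549755813888031)), (.negSucc (nat_lit 549755813887967)), (.ofNat (nat_lit 1069868479370322577674034458887454720000000)), (.negSucc (nat_lit 109393505048090243115954443649023999999999)), (.negSucc (nat_lit 109393505048090243115954443649023999999999)), (.ofNat (nat_lit 1069868479370322577674034458887454720000000)), (.ofNat (nat_lit 0))⟩,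
    ⟨nat_lit 0, nat_lit 4, nat_lit 8, (.ofNat (nat_lit 16)), (.ofNat (nat_lit 1102260406845440)), (.negSucc (nat_lit 180599565345046031896635664582874122179155136086015999999)), (.ofNat (nat_lit 0)), (.ofNat (nat_lit 0)), (.ofNat (nat_lit 1102260406845408)), (.ofNat (nat_lit 1102260406845472)), (.negSucc (nat_lit 109393505048090243115954443649023999999999)), (.negSucc (nat_lit 109393505048090243115954443649023999999999)), (.negSucc (nat_lit 109393505048090243115954443649023999999999)), (.negSucc (nat_lit 109393505048090243115954443649023999999999)), (.ofNat (nat_lit 0))⟩,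
    ⟨nat_lit 0, nat_lit 11, nat_lit 2, (.ofNat (nat_lit 16)), (.negSucc (nat_lit 2748779069439)), (.ofNat (nat_lit 278567161747497604390367516647658462781658821033984000000)), (.ofNat (nat_lit 0)), (.ofNat (nat_lit 0)), (.negSucc (nat_lit 2748779069471)), (.negSucc (nat_lit 2748779069407)), (.negSucc (nat_lit 80605740561750705453861169004543999999999)), (.negSucc (nat_lit 104233434055255797685956592533503999999999)), (.negSucc (nat_lit 104233434055255797685956592533503999999999)), (.negSucc (nat_lit 80605740561750705453861169004543999999999)), (.ofNat (nat_lit 0))⟩,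
    ⟨nat_lit 0, nat_lit 0, nat_lit 3, (.ofNat (nat_lit 16)), (.negSucc (nat_lit 274877906943999)), (.ofNat (nat_lit 294203487751958815318281180972470312433238602153984000000)), (.ofNat (nat_lit 0)), (.ofNat (nat_lit 0)), (.negSucc (nat_lit 274877906944031)), (.negSucc (nat_lit 274877906943967)), (.ofNat (nat_lit 1069868479370322577674034458887454720000000)), (.negSucc (nat_lit 51961914897842865480078360733286399999999)), (.negSucc (nat_lit 51961914897842865480078360733286399999999)), (.ofNat (nat_lit 1069868479370322577674034458887454720000000)), (.ofNat (nat_lit 0))⟩,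
    ⟨nat_lit 0, nat_lit 1, nat_lit 4, (.ofNat (nat_lit 16)), (.ofNat (nat_lit 824633720832000)), (.negSucc (nat_lit 150229009067150218363572585798143414202048253526015999999)), (.ofNat (nat_lit 0)), (.ofNat (nat_lit 0)), (.ofNat (nat_lit 824633720831968)), (.ofNat (nat_lit 824633720832032)), (.negSucc (nat_lit 109393505048090243115954443649023999999999)), (.negSucc (nat_lit 109393505048090243115954443649023999999999)), (.negSucc (nat_lit 109393505048090243115954443649023999999999)), (.negSucc (nat_lit 109393505048090243115954443649023999999999)), (.ofNat (nat_lit 0))⟩,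
    ⟨nat_lit 1, nat_lit 8, nat_lit 7, (.ofNat (nat_lit 16)), (.ofNat (nat_lit 1911844562272256)), (.negSucc (nat_lit 269162813738583303984015895068743545614376963670015999999)), (.ofNat (nat_lit 0)), (.ofNat (nat_lit 0)), (.ofNat (nat_lit 1911844562272224)), (.ofNat (nat_lit 1911844562272288)), (.negSucc (nat_lit 109393505048090243115954443649023999999999)), (.negSucc (nat_lit 772304230950589831050503333986959359999999)), (.negSucc (nat_lit 772304230950589831050503333986959359999999)), (.negSucc (nat_lit 109393505048090243115954443649023999999999)), (.ofNat (nat_lit 8589314152645276626566774784000000000))⟩,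
    ⟨nat_lit 0, nat_lit 10, nat_lit 5, (.ofNat (nat_lit 16)), (.ofNat (nat_lit 1102260406845440)), (.ofNat (nat_lit 166707291100198172367600533400927538351126540713984000000)), (.ofNat (nat_lit 0)), (.ofNat (nat_lit 0)), (.ofNat (nat_lit 1102260406845408)), (.ofNat (nat_lit 1102260406845472)), (.negSucc (nat_lit 99493640337855831974239109382143999999999)), (.negSucc (nat_lit 75047035645236163644697161498623999999999)), (.negSucc (nat_lit 99493640337855831974239109382143999999999)), (.negSucc (nat_lit 75047035645236163644697161498623999999999)), (.ofNat (nat_lit 0))⟩,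
    ⟨nat_lit 0, nat_lit 5, nat_lit 6, (.ofNat (nat_lit 16)), (.ofNat (nat_lit 1146034713526272)), (.ofNat (nat_lit 163422159146376273725534056809608894938751365545984000000)), (.ofNat (nat_lit 0)), (.ofNat (nat_lit 0)), (.ofNat (nat_lit 1146034713526240)), (.ofNat (nat_lit 1146034713526304)), (.negSucc (nat_lit 75047035645236163644697161498623999999999)), (.negSucc (nat_lit 46293397022804615170375617714585599999999)), (.negSucc (nat_lit 75047035645236163644697161498623999999999)), (.negSucc (nat_lit 46293397022804615170375617714585599999999)), (.ofNat (nat_lit 21473285381613191566416936960000000000))⟩,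
    ⟨nat_lit 0, nat_lit 6, nat_lit 7, (.ofNat (nat_lit 16)), (.ofNat (nat_lit 1364837527453696)), (.ofNat (nat_lit 153293033611527191336395849967274497646126730051584000000)), (.ofNat (nat_lit 0)), (.negSucc (nat_lit 2349207632881792507198567356492164911595519999999999)), (.ofNat (nat_lit 1364837527453664)), (.ofNat (nat_lit 1364837527453728)), (.negSucc (nat_lit 46293397022804615170375617714585599999999)), (.negSucc (nat_lit 772304230950589831050503333986959359999999)), (.negSucc (nat_lit 772304230950589831050503333986959359999999)), (.negSucc (nat_lit 46293397022804615170375617714585599999999)), (.ofNat (nat_lit 51535884915871659759400648704000000000))⟩,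
    ⟨nat_lit 0, nat_lit 9, nat_lit 10, (.ofNat (nat_lit 16)), (.ofNat (nat_lit 494780232499200)), (.ofNat (nat_lit 227147705078980929992805274348757957196656079273984000000)), (.ofNat (nat_lit 0)), (.ofNat (nat_lit 0)), (.ofNat (nat_lit 494780232499168)), (.ofNat (nat_lit 494780232499232)), (.negSucc (nat_lit 102100604711550893574890814072422399999999)), (.negSucc (nat_lit 99493640337855831974239109382143999999999)), (.negSucc (nat_lit 102100604711550893574890814072422399999999)), (.negSucc (nat_lit 99493640337855831974239109382143999999999)), (.ofNat (nat_lit 0))⟩,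
    ⟨nat_lit 0, nat_lit 3, nat_lit 11, (.ofNat (nat_lit 16)), (.negSucc (nat_lit 54975581388799)), (.ofNat (nat_lit 282776941825621776563267349350492422303237992873984000000)), (.ofNat (nat_lit 0)), (.ofNat (nat_lit 0)), (.negSucc (nat_lit 54975581388831)), (.negSucc (nat_lit 54975581388767)), (.negSucc (nat_lit 51961914897842865480078360733286399999999)), (.negSucc (nat_lit 80605740561750705453861169004543999999999)), (.negSucc (nat_lit 80605740561750705453861169004543999999999)), (.negSucc (nat_lit 51961914897842865480078360733286399999999)), (.ofNat (nat_lit 0))⟩]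
  es := [
    ⟨nat_lit 1, nat_lit 4, (.negSucc (nat_lit 549755813887999)), (.negSucc (nat_lit 274877906943999)), (.negSucc (nat_lit 549755813887967)), (.negSucc (nat_lit 274877906944031)), (.ofNat (nat_lit 1069868479370322577674034458887454720000000)), (.ofNat (nat_lit 0)), (.ofNat (nat_lit 0))⟩,
    ⟨nat_lit 1, nat_lit 5, (.negSucc (nat_lit 549755813887999)), (.ofNat (nat_lit 824633720832000)), (.negSucc (nat_lit 549755813887967)), (.ofNat (nat_lit 824633720831968)), (.negSucc (nat_lit 109393505048090243115954443649023999999999)), (.ofNat (nat_lit 0)), (.ofNat (nat_lit 0))⟩,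
    ⟨nat_lit 3, nat_lit 0, (.negSucc (nat_lit 2748779069439)), (.ofNat (nat_lit 288621802291200)), (.negSucc (nat_lit 2748779069407)), (.ofNat (nat_lit 288621802291168)), (.negSucc (nat_lit 104233434055255797685956592533503999999999)), (.ofNat (nat_lit 0)), (.ofNat (nat_lit 0))⟩,
    ⟨nat_lit 4, nat_lit 11, (.negSucc (nat_lit 274877906943999)), (.negSucc (nat_lit 54975581388799)), (.negSucc (nat_lit 274877906943967)), (.negSucc (nat_lit 54975581388831)), (.negSucc (nat_lit 51961914897842865480078360733286399999999)), (.ofNat (nat_lit 0)), (.ofNat (nat_lit 0))⟩,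
    ⟨nat_lit 5, nat_lit 2, (.ofNat (nat_lit 824633720832000)), (.ofNat (nat_lit 1102260406845440)), (.ofNat (nat_lit 824633720832032)), (.ofNat (nat_lit 1102260406845408)), (.negSucc (nat_lit 109393505048090243115954443649023999999999)), (.ofNat (nat_lit 0)), (.ofNat (nat_lit 0))⟩,
    ⟨nat_lit 7, nat_lit 8, (.ofNat (nat_lit 1102260406845440)), (.ofNat (nat_lit 1146034713526272)), (.ofNat (nat_lit 1102260406845472)), (.ofNat (nat_lit 1146034713526240)), (.negSucc (nat_lit 75047035645236163644697161498623999999999)), (.ofNat (nat_lit 0)), (.ofNat (nat_lit 0))⟩,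
    ⟨nat_lit 8, nat_lit 9, (.ofNat (nat_lit 1146034713526272)), (.ofNat (nat_lit 1364837527453696)), (.ofNat (nat_lit 1146034713526304)), (.ofNat (nat_lit 1364837527453664)), (.negSucc (nat_lit 46293397022804615170375617714585599999999)), (.negSucc (nat_lit 10736642690806595783208468479999999999)), (.ofNat (nat_lit 12304565230392479159092496169667033363906560000000000))⟩,
    ⟨nat_lit 9, nat_lit 6, (.ofNat (nat_lit 1364837527453696)), (.ofNat (nat_lit 1911844562272256)), (.ofNat (nat_lit 1364837527453728)), (.ofNat (nat_lit 1911844562272224)), (.negSucc (nat_lit 772304230950589831050503333986959359999999)), (.ofNat (nat_lit 4294657076322638313283387392000000000)), (.negSucc (nat_lit 8210716778191501173714992766955844221796351999999999))⟩,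
    ⟨nat_lit 2, nat_lit 6, (.ofNat (nat_lit 1102260406845440)), (.ofNat (nat_lit 1911844562272256)), (.ofNat (nat_lit 1102260406845472)), (.ofNat (nat_lit 1911844562272224)), (.negSucc (nat_lit 109393505048090243115954443649023999999999)), (.ofNat (nat_lit 0)), (.ofNat (nat_lit 0))⟩,
    ⟨nat_lit 0, nat_lit 10, (.ofNat (nat_lit 288621802291200)), (.ofNat (nat_lit 494780232499200)), (.ofNat (nat_lit 288621802291232)), (.ofNat (nat_lit 494780232499168)), (.negSucc (nat_lit 102100604711550893574890814072422399999999)), (.ofNat (nat_lit 0)), (.ofNat (nat_lit 0))⟩,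
    ⟨nat_lit 10, nat_lit 7, (.ofNat (nat_lit 494780232499200)), (.ofNat (nat_lit 1102260406845440)), (.ofNat (nat_lit 494780232499232)), (.ofNat (nat_lit 1102260406845408)), (.negSucc (nat_lit 99493640337855831974239109382143999999999)), (.ofNat (nat_lit 0)), (.ofNat (nat_lit 0))⟩,
    ⟨nat_lit 11, nat_lit 3, (.negSucc (nat_lit 54975581388799)), (.negSucc (nat_lit 2748779069439)), (.negSucc (nat_lit 54975581388767)), (.negSucc (nat_lit 2748779069471)), (.negSucc (nat_lit 80605740561750705453861169004543999999999)), (.ofNat (nat_lit 0)), (.ofNat (nat_lit 0))⟩]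

theorem ok289 : stOK 11 11 S289 = true := by decide +kernel

def S290 : SD where
  vs := [
    ⟨nat_lit 0, nat_lit 2, nat_lit 8, (.ofNat (nat_lit 16)), (.ofNat (nat_lit 288621802291200)), (.ofNat (nat_lit 248196605469601790857304437862927754804551938473984000000)), (.ofNat (nat_lit 0)), (.ofNat (nat_lit 0)), (.ofNat (nat_lit 288621802291168)), (.ofNat (nat_lit 288621802291232)), (.negSucc (nat_lit 104233434055255797685956592533503999999999)), (.negSucc (nat_lit 102100604711550893574890814072422399999999)), (.negSucc (nat_lit 104233434055255797685956592533503999999999)), (.negSucc (nat_lit 102100604711550893574890814072422399999999)), (.ofNat (nat_lit 0))⟩,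
    ⟨nat_lit 2, nat_lit 0, nat_lit 1, (.ofNat (nat_lit 16)), (.negSucc (nat_lit 549755813887999)), (.ofNat (nat_lit 120279437284502097135725017355140140065026473984000000)), (.ofNat (nat_lit 0)), (.ofNat (nat_lit 0)), (.negSucc (nat_lit 549755813888031)), (.negSucc (nat_lit 549755813887967)), (.ofNat (nat_lit 1069868479370322577674034458887454720000000)), (.negSucc (nat_lit 109393505048090243115954443649023999999999)), (.negSucc (nat_lit 109393505048090243115954443649023999999999)), (.ofNat (nat_lit 1069868479370322577674034458887454720000000)), (.ofNat (nat_lit 0))⟩,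
    ⟨nat_lit 0, nat_lit 1, nat_lit 7, (.ofNat (nat_lit 16)), (.ofNat (nat_lit 1102260406845440)), (.negSucc (nat_lit 180599565345046031896635664582874122179155136086015999999)), (.ofNat (nat_lit 0)), (.ofNat (nat_lit 0)), (.ofNat (nat_lit 1102260406845408)), (.ofNat (nat_lit 1102260406845472)), (.negSucc (nat_lit 109393505048090243115954443649023999999999)), (.negSucc (nat_lit 109393505048090243115954443649023999999999)), (.negSucc (nat_lit 109393505048090243115954443649023999999999)), (.negSucc (nat_lit 109393505048090243115954443649023999999999)), (.ofNat (nat_lit 0))⟩,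
    ⟨nat_lit 0, nat_lit 10, nat_lit 2, (.ofNat (nat_lit 16)), (.negSucc (nat_lit 2748779069439)), (.ofNat (nat_lit 278567161747497604390367516647658462781658821033984000000)), (.ofNat (nat_lit 0)), (.ofNat (nat_lit 0)), (.negSucc (nat_lit 2748779069471)), (.negSucc (nat_lit 2748779069407)), (.negSucc (nat_lit 80605740561750705453861169004543999999999)), (.negSucc (nat_lit 104233434055255797685956592533503999999999)), (.negSucc (nat_lit 104233434055255797685956592533503999999999)), (.negSucc (nat_lit 80605740561750705453861169004543999999999)), (.ofNat (nat_lit 0))⟩,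
    ⟨nat_lit 0, nat_lit 0, nat_lit 3, (.ofNat (nat_lit 16)), (.negSucc (nat_lit 274877906943999)), (.ofNat (nat_lit 294203487751958815318281180972470312433238602153984000000)), (.ofNat (nat_lit 0)), (.ofNat (nat_lit 0)), (.negSucc (nat_lit 274877906944031)), (.negSucc (nat_lit 274877906943967)), (.ofNat (nat_lit 1069868479370322577674034458887454720000000)), (.negSucc (nat_lit 51961914897842865480078360733286399999999)), (.negSucc (nat_lit 51961914897842865480078360733286399999999)), (.ofNat (nat_lit 1069868479370322577674034458887454720000000)), (.ofNat (nat_lit 0))⟩,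
    ⟨nat_lit 1, nat_lit 7, nat_lit 6, (.ofNat (nat_lit 16)), (.ofNat (nat_lit 1911844562272256)), (.negSucc (nat_lit 269162813738583303984015895068743545614376963670015999999)), (.ofNat (nat_lit 0)), (.ofNat (nat_lit 0)), (.ofNat (nat_lit 1911844562272224)), (.ofNat (nat_lit 1911844562272288)), (.negSucc (nat_lit 109393505048090243115954443649023999999999)), (.negSucc (nat_lit 772304230950589831050503333986959359999999)), (.negSucc (nat_lit 772304230950589831050503333986959359999999)), (.negSucc (nat_lit 109393505048090243115954443649023999999999)), (.ofNat (nat_lit 8589314152645276626566774784000000000))⟩,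
    ⟨nat_lit 0, nat_lit 9, nat_lit 4, (.ofNat (nat_lit 16)), (.ofNat (nat_lit 1102260406845440)), (.ofNat (nat_lit 166707291100198172367600533400927538351126540713984000000)), (.ofNat (nat_lit 0)), (.ofNat (nat_lit 0)), (.ofNat (nat_lit 1102260406845408)), (.ofNat (nat_lit 1102260406845472)), (.negSucc (nat_lit 99493640337855831974239109382143999999999)), (.negSucc (nat_lit 75047035645236163644697161498623999999999)), (.negSucc (nat_lit 99493640337855831974239109382143999999999)), (.negSucc (nat_lit 75047035645236163644697161498623999999999)), (.ofNat (nat_lit 0))⟩,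
    ⟨nat_lit 0, nat_lit 4, nat_lit 5, (.ofNat (nat_lit 16)), (.ofNat (nat_lit 1146034713526272)), (.ofNat (nat_lit 163422159146376273725534056809608894938751365545984000000)), (.ofNat (nat_lit 0)), (.ofNat (nat_lit 0)), (.ofNat (nat_lit 1146034713526240)), (.ofNat (nat_lit 1146034713526304)), (.negSucc (nat_lit 75047035645236163644697161498623999999999)), (.negSucc (nat_lit 46293397022804615170375617714585599999999)), (.negSucc (nat_lit 75047035645236163644697161498623999999999)), (.negSucc (nat_lit 46293397022804615170375617714585599999999)), (.ofNat (nat_lit 21473285381613191566416936960000000000))⟩,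
    ⟨nat_lit 0, nat_lit 5, nat_lit 6, (.ofNat (nat_lit 16)), (.ofNat (nat_lit 1364837527453696)), (.ofNat (nat_lit 153293033611527191336395849967274497646126730051584000000)), (.ofNat (nat_lit 0)), (.negSucc (nat_lit 2349207632881792507198567356492164911595519999999999)), (.ofNat (nat_lit 1364837527453664)), (.ofNat (nat_lit 1364837527453728)), (.negSucc (nat_lit 46293397022804615170375617714585599999999)), (.negSucc (nat_lit 772304230950589831050503333986959359999999)), (.negSucc (nat_lit 772304230950589831050503333986959359999999)), (.negSucc (nat_lit 46293397022804615170375617714585599999999)), (.ofNat (nat_lit 51535884915871659759400648704000000000))⟩,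
    ⟨nat_lit 0, nat_lit 8, nat_lit 9, (.ofNat (nat_lit 16)), (.ofNat (nat_lit 494780232499200)), (.ofNat (nat_lit 227147705078980929992805274348757957196656079273984000000)), (.ofNat (nat_lit 0)), (.ofNat (nat_lit 0)), (.ofNat (nat_lit 494780232499168)), (.ofNat (nat_lit 494780232499232)), (.negSucc (nat_lit 102100604711550893574890814072422399999999)), (.negSucc (nat_lit 99493640337855831974239109382143999999999)), (.negSucc (nat_lit 102100604711550893574890814072422399999999)), (.negSucc (nat_lit 99493640337855831974239109382143999999999)), (.ofNat (nat_lit 0))⟩,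
    ⟨nat_lit 0, nat_lit 3, nat_lit 10, (.ofNat (nat_lit 16)), (.negSucc (nat_lit 54975581388799)), (.ofNat (nat_lit 282776941825621776563267349350492422303237992873984000000)), (.ofNat (nat_lit 0)), (.ofNat (nat_lit 0)), (.negSucc (nat_lit 54975581388831)), (.negSucc (nat_lit 54975581388767)), (.negSucc (nat_lit 51961914897842865480078360733286399999999)), (.negSucc (nat_lit 80605740561750705453861169004543999999999)), (.negSucc (nat_lit 80605740561750705453861169004543999999999)), (.negSucc (nat_lit 51961914897842865480078360733286399999999)), (.ofNat (nat_lit 0))⟩]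
  es := [
    ⟨nat_lit 1, nat_lit 4, (.negSucc (nat_lit 549755813887999)), (.negSucc (nat_lit 274877906943999)), (.negSucc (nat_lit 549755813887967)), (.negSucc (nat_lit 274877906944031)), (.ofNat (nat_lit 1069868479370322577674034458887454720000000)), (.ofNat (nat_lit 0)), (.ofNat (nat_lit 0))⟩,
    ⟨nat_lit 1, nat_lit 2, (.negSucc (nat_lit 549755813887999)), (.ofNat (nat_lit 1102260406845440)), (.negSucc (nat_lit 549755813887967)), (.ofNat (nat_lit 1102260406845408)), (.negSucc (nat_lit 109393505048090243115954443649023999999999)), (.ofNat (nat_lit 0)), (.ofNat (nat_lit 0))⟩,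
    ⟨nat_lit 3, nat_lit 0, (.negSucc (nat_lit 2748779069439)), (.ofNat (nat_lit 288621802291200)), (.negSucc (nat_lit 2748779069407)), (.ofNat (nat_lit 288621802291168)), (.negSucc (nat_lit 104233434055255797685956592533503999999999)), (.ofNat (nat_lit 0)), (.ofNat (nat_lit 0))⟩,
    ⟨nat_lit 4, nat_lit 10, (.negSucc (nat_lit 274877906943999)), (.negSucc (nat_lit 54975581388799)), (.negSucc (nat_lit 274877906943967)), (.negSucc (nat_lit 54975581388831)), (.negSucc (nat_lit 51961914897842865480078360733286399999999)), (.ofNat (nat_lit 0)), (.ofNat (nat_lit 0))⟩,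
    ⟨nat_lit 6, nat_lit 7, (.ofNat (nat_lit 1102260406845440)), (.ofNat (nat_lit 1146034713526272)), (.ofNat (nat_lit 1102260406845472)), (.ofNat (nat_lit 1146034713526240)), (.negSucc (nat_lit 75047035645236163644697161498623999999999)), (.ofNat (nat_lit 0)), (.ofNat (nat_lit 0))⟩,
    ⟨nat_lit 7, nat_lit 8, (.ofNat (nat_lit 1146034713526272)), (.ofNat (nat_lit 1364837527453696)), (.ofNat (nat_lit 1146034713526304)), (.ofNat (nat_lit 1364837527453664)), (.negSucc (nat_lit 46293397022804615170375617714585599999999)), (.negSucc (nat_lit 10736642690806595783208468479999999999)), (.ofNat (nat_lit 12304565230392479159092496169667033363906560000000000))⟩,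
    ⟨nat_lit 8, nat_lit 5, (.ofNat (nat_lit 1364837527453696)), (.ofNat (nat_lit 1911844562272256)), (.ofNat (nat_lit 1364837527453728)), (.ofNat (nat_lit 1911844562272224)), (.negSucc (nat_lit 772304230950589831050503333986959359999999)), (.ofNat (nat_lit 4294657076322638313283387392000000000)), (.negSucc (nat_lit 8210716778191501173714992766955844221796351999999999))⟩,
    ⟨nat_lit 2, nat_lit 5, (.ofNat (nat_lit 1102260406845440)), (.ofNat (nat_lit 1911844562272256)), (.ofNat (nat_lit 1102260406845472)), (.ofNat (nat_lit 1911844562272224)), (.negSucc (nat_lit 109393505048090243115954443649023999999999)), (.ofNat (nat_lit 0)), (.ofNat (nat_lit 0))⟩,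
    ⟨nat_lit 0, nat_lit 9, (.ofNat (nat_lit 288621802291200)), (.ofNat (nat_lit 494780232499200)), (.ofNat (nat_lit 288621802291232)), (.ofNat (nat_lit 494780232499168)), (.negSucc (nat_lit 102100604711550893574890814072422399999999)), (.ofNat (nat_lit 0)), (.ofNat (nat_lit 0))⟩,
    ⟨nat_lit 9, nat_lit 6, (.ofNat (nat_lit 494780232499200)), (.ofNat (nat_lit 1102260406845440)), (.ofNat (nat_lit 494780232499232)), (.ofNat (nat_lit 1102260406845408)), (.negSucc (nat_lit 99493640337855831974239109382143999999999)), (.ofNat (nat_lit 0)), (.ofNat (nat_lit 0))⟩,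
    ⟨nat_lit 10, nat_lit 3, (.negSucc (nat_lit 54975581388799)), (.negSucc (nat_lit 2748779069439)), (.negSucc (nat_lit 54975581388767)), (.negSucc (nat_lit 2748779069471)), (.negSucc (nat_lit 80605740561750705453861169004543999999999)), (.ofNat (nat_lit 0)), (.ofNat (nat_lit 0))⟩]

theorem ok290 : stOK 10 10 S290 = true := by decide +kernel

def S291 : SD where
  vs := [
    ⟨nat_lit 0, nat_lit 2, nat_lit 7, (.ofNat (nat_lit 16)), (.ofNat (nat_lit 288621802291200)), (.ofNat (nat_lit 248196605469601790857304437862927754804551938473984000000)), (.ofNat (nat_lit 0)), (.ofNat (nat_lit 0)), (.ofNat (nat_lit 288621802291168)), (.ofNat (nat_lit 288621802291232)), (.negSucc (nat_lit 104233434055255797685956592533503999999999)), (.negSucc (nat_lit 102100604711550893574890814072422399999999)), (.negSucc (nat_lit 104233434055255797685956592533503999999999)), (.negSucc (nat_lit 102100604711550893574890814072422399999999)), (.ofNat (nat_lit 0))⟩,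
    ⟨nat_lit 2, nat_lit 0, nat_lit 1, (.ofNat (nat_lit 16)), (.negSucc (nat_lit 549755813887999)), (.ofNat (nat_lit 120279437284502097135725017355140140065026473984000000)), (.ofNat (nat_lit 0)), (.ofNat (nat_lit 0)), (.negSucc (nat_lit 549755813888031)), (.negSucc (nat_lit 549755813887967)), (.ofNat (nat_lit 1069868479370322577674034458887454720000000)), (.negSucc (nat_lit 109393505048090243115954443649023999999999)), (.negSucc (nat_lit 109393505048090243115954443649023999999999)), (.ofNat (nat_lit 1069868479370322577674034458887454720000000)), (.ofNat (nat_lit 0))⟩,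
    ⟨nat_lit 0, nat_lit 9, nat_lit 2, (.ofNat (nat_lit 16)), (.negSucc (nat_lit 2748779069439)), (.ofNat (nat_lit 278567161747497604390367516647658462781658821033984000000)), (.ofNat (nat_lit 0)), (.ofNat (nat_lit 0)), (.negSucc (nat_lit 2748779069471)), (.negSucc (nat_lit 2748779069407)), (.negSucc (nat_lit 80605740561750705453861169004543999999999)), (.negSucc (nat_lit 104233434055255797685956592533503999999999)), (.negSucc (nat_lit 104233434055255797685956592533503999999999)), (.negSucc (nat_lit 80605740561750705453861169004543999999999)), (.ofNat (nat_lit 0))⟩,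
    ⟨nat_lit 0, nat_lit 0, nat_lit 3, (.ofNat (nat_lit 16)), (.negSucc (nat_lit 274877906943999)), (.ofNat (nat_lit 294203487751958815318281180972470312433238602153984000000)), (.ofNat (nat_lit 0)), (.ofNat (nat_lit 0)), (.negSucc (nat_lit 274877906944031)), (.negSucc (nat_lit 274877906943967)), (.ofNat (nat_lit 1069868479370322577674034458887454720000000)), (.negSucc (nat_lit 51961914897842865480078360733286399999999)), (.negSucc (nat_lit 51961914897842865480078360733286399999999)), (.ofNat (nat_lit 1069868479370322577674034458887454720000000)), (.ofNat (nat_lit 0))⟩,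
    ⟨nat_lit 1, nat_lit 1, nat_lit 6, (.ofNat (nat_lit 16)), (.ofNat (nat_lit 1911844562272256)), (.negSucc (nat_lit 269162813738583303984015895068743545614376963670015999999)), (.ofNat (nat_lit 0)), (.ofNat (nat_lit 0)), (.ofNat (nat_lit 1911844562272224)), (.ofNat (nat_lit 1911844562272288)), (.negSucc (nat_lit 109393505048090243115954443649023999999999)), (.negSucc (nat_lit 772304230950589831050503333986959359999999)), (.negSucc (nat_lit 772304230950589831050503333986959359999999)), (.negSucc (nat_lit 109393505048090243115954443649023999999999)), (.ofNat (nat_lit 8589314152645276626566774784000000000))⟩,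
    ⟨nat_lit 0, nat_lit 8, nat_lit 4, (.ofNat (nat_lit 16)), (.ofNat (nat_lit 1102260406845440)), (.ofNat (nat_lit 166707291100198172367600533400927538351126540713984000000)), (.ofNat (nat_lit 0)), (.ofNat (nat_lit 0)), (.ofNat (nat_lit 1102260406845408)), (.ofNat (nat_lit 1102260406845472)), (.negSucc (nat_lit 99493640337855831974239109382143999999999)), (.negSucc (nat_lit 75047035645236163644697161498623999999999)), (.negSucc (nat_lit 99493640337855831974239109382143999999999)), (.negSucc (nat_lit 75047035645236163644697161498623999999999)), (.ofNat (nat_lit 0))⟩,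
    ⟨nat_lit 0, nat_lit 4, nat_lit 5, (.ofNat (nat_lit 16)), (.ofNat (nat_lit 1146034713526272)), (.ofNat (nat_lit 163422159146376273725534056809608894938751365545984000000)), (.ofNat (nat_lit 0)), (.ofNat (nat_lit 0)), (.ofNat (nat_lit 1146034713526240)), (.ofNat (nat_lit 1146034713526304)), (.negSucc (nat_lit 75047035645236163644697161498623999999999)), (.negSucc (nat_lit 46293397022804615170375617714585599999999)), (.negSucc (nat_lit 75047035645236163644697161498623999999999)), (.negSucc (nat_lit 46293397022804615170375617714585599999999)), (.ofNat (nat_lit 21473285381613191566416936960000000000))⟩,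
    ⟨nat_lit 0, nat_lit 5, nat_lit 6, (.ofNat (nat_lit 16)), (.ofNat (nat_lit 1364837527453696)), (.ofNat (nat_lit 153293033611527191336395849967274497646126730051584000000)), (.ofNat (nat_lit 0)), (.negSucc (nat_lit 2349207632881792507198567356492164911595519999999999)), (.ofNat (nat_lit 1364837527453664)), (.ofNat (nat_lit 1364837527453728)), (.negSucc (nat_lit 46293397022804615170375617714585599999999)), (.negSucc (nat_lit 772304230950589831050503333986959359999999)), (.negSucc (nat_lit 772304230950589831050503333986959359999999)), (.negSucc (nat_lit 46293397022804615170375617714585599999999)), (.ofNat (nat_lit 51535884915871659759400648704000000000))⟩,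
    ⟨nat_lit 0, nat_lit 7, nat_lit 8, (.ofNat (nat_lit 16)), (.ofNat (nat_lit 494780232499200)), (.ofNat (nat_lit 227147705078980929992805274348757957196656079273984000000)), (.ofNat (nat_lit 0)), (.ofNat (nat_lit 0)), (.ofNat (nat_lit 494780232499168)), (.ofNat (nat_lit 494780232499232)), (.negSucc (nat_lit 102100604711550893574890814072422399999999)), (.negSucc (nat_lit 99493640337855831974239109382143999999999)), (.negSucc (nat_lit 102100604711550893574890814072422399999999)), (.negSucc (nat_lit 99493640337855831974239109382143999999999)), (.ofNat (nat_lit 0))⟩,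
    ⟨nat_lit 0, nat_lit 3, nat_lit 9, (.ofNat (nat_lit 16)), (.negSucc (nat_lit 54975581388799)), (.ofNat (nat_lit 282776941825621776563267349350492422303237992873984000000)), (.ofNat (nat_lit 0)), (.ofNat (nat_lit 0)), (.negSucc (nat_lit 54975581388831)), (.negSucc (nat_lit 54975581388767)), (.negSucc (nat_lit 51961914897842865480078360733286399999999)), (.negSucc (nat_lit 80605740561750705453861169004543999999999)), (.negSucc (nat_lit 80605740561750705453861169004543999999999)), (.negSucc (nat_lit 51961914897842865480078360733286399999999)), (.ofNat (nat_lit 0))⟩]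
  es := [
    ⟨nat_lit 1, nat_lit 3, (.negSucc (nat_lit 549755813887999)), (.negSucc (nat_lit 274877906943999)), (.negSucc (nat_lit 549755813887967)), (.negSucc (nat_lit 274877906944031)), (.ofNat (nat_lit 1069868479370322577674034458887454720000000)), (.ofNat (nat_lit 0)), (.ofNat (nat_lit 0))⟩,
    ⟨nat_lit 1, nat_lit 4, (.negSucc (nat_lit 549755813887999)), (.ofNat (nat_lit 1911844562272256)), (.negSucc (nat_lit 549755813887967)), (.ofNat (nat_lit 1911844562272224)), (.negSucc (nat_lit 109393505048090243115954443649023999999999)), (.ofNat (nat_lit 0)), (.ofNat (nat_lit 0))⟩,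
    ⟨nat_lit 2, nat_lit 0, (.negSucc (nat_lit 2748779069439)), (.ofNat (nat_lit 288621802291200)), (.negSucc (nat_lit 2748779069407)), (.ofNat (nat_lit 288621802291168)), (.negSucc (nat_lit 104233434055255797685956592533503999999999)), (.ofNat (nat_lit 0)), (.ofNat (nat_lit 0))⟩,
    ⟨nat_lit 3, nat_lit 9, (.negSucc (nat_lit 274877906943999)), (.negSucc (nat_lit 54975581388799)), (.negSucc (nat_lit 274877906943967)), (.negSucc (nat_lit 54975581388831)), (.negSucc (nat_lit 51961914897842865480078360733286399999999)), (.ofNat (nat_lit 0)), (.ofNat (nat_lit 0))⟩,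
    ⟨nat_lit 5, nat_lit 6, (.ofNat (nat_lit 1102260406845440)), (.ofNat (nat_lit 1146034713526272)), (.ofNat (nat_lit 1102260406845472)), (.ofNat (nat_lit 1146034713526240)), (.negSucc (nat_lit 75047035645236163644697161498623999999999)), (.ofNat (nat_lit 0)), (.ofNat (nat_lit 0))⟩,
    ⟨nat_lit 6, nat_lit 7, (.ofNat (nat_lit 1146034713526272)), (.ofNat (nat_lit 1364837527453696)), (.ofNat (nat_lit 1146034713526304)), (.ofNat (nat_lit 1364837527453664)), (.negSucc (nat_lit 46293397022804615170375617714585599999999)), (.negSucc (nat_lit 10736642690806595783208468479999999999)), (.ofNat (nat_lit 12304565230392479159092496169667033363906560000000000))⟩,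
    ⟨nat_lit 7, nat_lit 4, (.ofNat (nat_lit 1364837527453696)), (.ofNat (nat_lit 1911844562272256)), (.ofNat (nat_lit 1364837527453728)), (.ofNat (nat_lit 1911844562272224)), (.negSucc (nat_lit 772304230950589831050503333986959359999999)), (.ofNat (nat_lit 4294657076322638313283387392000000000)), (.negSucc (nat_lit 8210716778191501173714992766955844221796351999999999))⟩,
    ⟨nat_lit 0, nat_lit 8, (.ofNat (nat_lit 288621802291200)), (.ofNat (nat_lit 494780232499200)), (.ofNat (nat_lit 288621802291232)), (.ofNat (nat_lit 494780232499168)), (.negSucc (nat_lit 102100604711550893574890814072422399999999)), (.ofNat (nat_lit 0)), (.ofNat (nat_lit 0))⟩,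
    ⟨nat_lit 8, nat_lit 5, (.ofNat (nat_lit 494780232499200)), (.ofNat (nat_lit 1102260406845440)), (.ofNat (nat_lit 494780232499232)), (.ofNat (nat_lit 1102260406845408)), (.negSucc (nat_lit 99493640337855831974239109382143999999999)), (.ofNat (nat_lit 0)), (.ofNat (nat_lit 0))⟩,
    ⟨nat_lit 9, nat_lit 2, (.negSucc (nat_lit 54975581388799)), (.negSucc (nat_lit 2748779069439)), (.negSucc (nat_lit 54975581388767)), (.negSucc (nat_lit 2748779069471)), (.negSucc (nat_lit 80605740561750705453861169004543999999999)), (.ofNat (nat_lit 0)), (.ofNat (nat_lit 0))⟩]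

theorem ok291 : stOK 9 9 S291 = true := by decide +kernel

def S292 : SD where
  vs := [
    ⟨nat_lit 0, nat_lit 2, nat_lit 7, (.ofNat (nat_lit 16)), (.ofNat (nat_lit 288621802291200)), (.ofNat (nat_lit 248196605469601790857304437862927754804551938473984000000)), (.ofNat (nat_lit 0)), (.ofNat (nat_lit 0)), (.ofNat (nat_lit 288621802291168)), (.ofNat (nat_lit 288621802291232)), (.negSucc (nat_lit 104233434055255797685956592533503999999999)), (.negSucc (nat_lit 102100604711550893574890814072422399999999)), (.negSucc (nat_lit 104233434055255797685956592533503999999999)), (.negSucc (nat_lit 102100604711550893574890814072422399999999)), (.ofNat (nat_lit 0))⟩,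
    ⟨nat_lit 2, nat_lit 0, nat_lit 1, (.ofNat (nat_lit 16)), (.negSucc (nat_lit 549755813887999)), (.ofNat (nat_lit 120279437284502097135725017355140140065026473984000000)), (.ofNat (nat_lit 0)), (.ofNat (nat_lit 0)), (.negSucc (nat_lit 549755813888031)), (.negSucc (nat_lit 549755813887967)), (.ofNat (nat_lit 1069868479370322577674034458887454720000000)), (.negSucc (nat_lit 109393505048090243115954443649023999999999)), (.negSucc (nat_lit 109393505048090243115954443649023999999999)), (.ofNat (nat_lit 1069868479370322577674034458887454720000000)), (.ofNat (nat_lit 0))⟩,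
    ⟨nat_lit 0, nat_lit 9, nat_lit 2, (.ofNat (nat_lit 16)), (.negSucc (nat_lit 2748779069439)), (.ofNat (nat_lit 278567161747497604390367516647658462781658821033984000000)), (.ofNat (nat_lit 0)), (.ofNat (nat_lit 0)), (.negSucc (nat_lit 2748779069471)), (.negSucc (nat_lit 2748779069407)), (.negSucc (nat_lit 80605740561750705453861169004543999999999)), (.negSucc (nat_lit 104233434055255797685956592533503999999999)), (.negSucc (nat_lit 104233434055255797685956592533503999999999)), (.negSucc (nat_lit 80605740561750705453861169004543999999999)), (.ofNat (nat_lit 0))⟩,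
    ⟨nat_lit 0, nat_lit 0, nat_lit 3, (.ofNat (nat_lit 16)), (.negSucc (nat_lit 274877906943999)), (.ofNat (nat_lit 294203487751958815318281180972470312433238602153984000000)), (.ofNat (nat_lit 0)), (.ofNat (nat_lit 0)), (.negSucc (nat_lit 274877906944031)), (.negSucc (nat_lit 274877906943967)), (.ofNat (nat_lit 1069868479370322577674034458887454720000000)), (.negSucc (nat_lit 51961914897842865480078360733286399999999)), (.negSucc (nat_lit 51961914897842865480078360733286399999999)), (.ofNat (nat_lit 1069868479370322577674034458887454720000000)), (.ofNat (nat_lit 0))⟩,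
    ⟨nat_lit 1, nat_lit 1, nat_lit 6, (.ofNat (nat_lit 16)), (.ofNat (nat_lit 1911844562272256)), (.negSucc (nat_lit 269162813738583303984015895068743545614376963670015999999)), (.ofNat (nat_lit 0)), (.ofNat (nat_lit 0)), (.ofNat (nat_lit 1911844562272224)), (.ofNat (nat_lit 1911844562272288)), (.negSucc (nat_lit 109393505048090243115954443649023999999999)), (.negSucc (nat_lit 772304230950589831050503333986959359999999)), (.negSucc (nat_lit 772304230950589831050503333986959359999999)), (.negSucc (nat_lit 109393505048090243115954443649023999999999)), (.ofNat (nat_lit 8589314152645276626566774784000000000))⟩,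
    ⟨nat_lit 0, nat_lit 10, nat_lit 4, (.ofNat (nat_lit 16)), (.ofNat (nat_lit 1102260406845440)), (.ofNat (nat_lit 166707291100198172367600533400927538351126540713984000000)), (.ofNat (nat_lit 0)), (.ofNat (nat_lit 0)), (.ofNat (nat_lit 1102260406845408)), (.ofNat (nat_lit 1102260406845472)), (.negSucc (nat_lit 99493640337855831974239109382143999999999)), (.negSucc (nat_lit 75047035645236163644697161498623999999999)), (.negSucc (nat_lit 99493640337855831974239109382143999999999)), (.negSucc (nat_lit 75047035645236163644697161498623999999999)), (.ofNat (nat_lit 0))⟩,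
    ⟨nat_lit 0, nat_lit 4, nat_lit 5, (.ofNat (nat_lit 16)), (.ofNat (nat_lit 1146034713526272)), (.ofNat (nat_lit 163422159146376273725534056809608894938751365545984000000)), (.ofNat (nat_lit 0)), (.ofNat (nat_lit 0)), (.ofNat (nat_lit 1146034713526240)), (.ofNat (nat_lit 1146034713526304)), (.negSucc (nat_lit 75047035645236163644697161498623999999999)), (.negSucc (nat_lit 46293397022804615170375617714585599999999)), (.negSucc (nat_lit 75047035645236163644697161498623999999999)), (.negSucc (nat_lit 46293397022804615170375617714585599999999)), (.ofNat (nat_lit 21473285381613191566416936960000000000))⟩,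
    ⟨nat_lit 0, nat_lit 5, nat_lit 6, (.ofNat (nat_lit 16)), (.ofNat (nat_lit 1364837527453696)), (.ofNat (nat_lit 153293033611527191336395849967274497646126730051584000000)), (.ofNat (nat_lit 0)), (.negSucc (nat_lit 2349207632881792507198567356492164911595519999999999)), (.ofNat (nat_lit 1364837527453664)), (.ofNat (nat_lit 1364837527453728)), (.negSucc (nat_lit 46293397022804615170375617714585599999999)), (.negSucc (nat_lit 772304230950589831050503333986959359999999)), (.negSucc (nat_lit 772304230950589831050503333986959359999999)), (.negSucc (nat_lit 46293397022804615170375617714585599999999)), (.ofNat (nat_lit 51535884915871659759400648704000000000))⟩,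
    ⟨nat_lit 0, nat_lit 7, nat_lit 8, (.ofNat (nat_lit 16)), (.ofNat (nat_lit 494780232499200)), (.ofNat (nat_lit 227147705078980929992805274348757957196656079273984000000)), (.ofNat (nat_lit 0)), (.ofNat (nat_lit 0)), (.ofNat (nat_lit 494780232499168)), (.ofNat (nat_lit 494780232499232)), (.negSucc (nat_lit 102100604711550893574890814072422399999999)), (.negSucc (nat_lit 99493640337855831974239109382143999999999)), (.negSucc (nat_lit 102100604711550893574890814072422399999999)), (.negSucc (nat_lit 99493640337855831974239109382143999999999)), (.ofNat (nat_lit 0))⟩,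
    ⟨nat_lit 0, nat_lit 3, nat_lit 9, (.ofNat (nat_lit 16)), (.negSucc (nat_lit 54975581388799)), (.ofNat (nat_lit 282776941825621776563267349350492422303237992873984000000)), (.ofNat (nat_lit 0)), (.ofNat (nat_lit 0)), (.negSucc (nat_lit 54975581388831)), (.negSucc (nat_lit 54975581388767)), (.negSucc (nat_lit 51961914897842865480078360733286399999999)), (.negSucc (nat_lit 80605740561750705453861169004543999999999)), (.negSucc (nat_lit 80605740561750705453861169004543999999999)), (.negSucc (nat_lit 51961914897842865480078360733286399999999)), (.ofNat (nat_lit 0))⟩,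
    ⟨nat_lit 0, nat_lit 8, nat_lit 10, (.ofNat (nat_lit 16)), (.ofNat (nat_lit 681044374192128)), (.ofNat (nat_lit 208615607557545334456253526572842306712401801641984000000)), (.ofNat (nat_lit 0)), (.ofNat (nat_lit 0)), (.ofNat (nat_lit 681044374192096)), (.ofNat (nat_lit 681044374192160)), (.negSucc (nat_lit 99493640337855831974239109382143999999999)), (.negSucc (nat_lit 99493640337855831974239109382143999999999)), (.negSucc (nat_lit 99493640337855831974239109382143999999999)), (.negSucc (nat_lit 99493640337855831974239109382143999999999)), (.ofNat (nat_lit 0))⟩]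
  es := [
    ⟨nat_lit 1, nat_lit 3, (.negSucc (nat_lit 549755813887999)), (.negSucc (nat_lit 274877906943999)), (.negSucc (nat_lit 549755813887967)), (.negSucc (nat_lit 274877906944031)), (.ofNat (nat_lit 1069868479370322577674034458887454720000000)), (.ofNat (nat_lit 0)), (.ofNat (nat_lit 0))⟩,
    ⟨nat_lit 1, nat_lit 4, (.negSucc (nat_lit 549755813887999)), (.ofNat (nat_lit 1911844562272256)), (.negSucc (nat_lit 549755813887967)), (.ofNat (nat_lit 1911844562272224)), (.negSucc (nat_lit 109393505048090243115954443649023999999999)), (.ofNat (nat_lit 0)), (.ofNat (nat_lit 0))⟩,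
    ⟨nat_lit 2, nat_lit 0, (.negSucc (nat_lit 2748779069439)), (.ofNat (nat_lit 288621802291200)), (.negSucc (nat_lit 2748779069407)), (.ofNat (nat_lit 288621802291168)), (.negSucc (nat_lit 104233434055255797685956592533503999999999)), (.ofNat (nat_lit 0)), (.ofNat (nat_lit 0))⟩,
    ⟨nat_lit 3, nat_lit 9, (.negSucc (nat_lit 274877906943999)), (.negSucc (nat_lit 54975581388799)), (.negSucc (nat_lit 274877906943967)), (.negSucc (nat_lit 54975581388831)), (.negSucc (nat_lit 51961914897842865480078360733286399999999)), (.ofNat (nat_lit 0)), (.ofNat (nat_lit 0))⟩,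
    ⟨nat_lit 5, nat_lit 6, (.ofNat (nat_lit 1102260406845440)), (.ofNat (nat_lit 1146034713526272)), (.ofNat (nat_lit 1102260406845472)), (.ofNat (nat_lit 1146034713526240)), (.negSucc (nat_lit 75047035645236163644697161498623999999999)), (.ofNat (nat_lit 0)), (.ofNat (nat_lit 0))⟩,
    ⟨nat_lit 6, nat_lit 7, (.ofNat (nat_lit 1146034713526272)), (.ofNat (nat_lit 1364837527453696)), (.ofNat (nat_lit 1146034713526304)), (.ofNat (nat_lit 1364837527453664)), (.negSucc (nat_lit 46293397022804615170375617714585599999999)), (.negSucc (nat_lit 10736642690806595783208468479999999999)), (.ofNat (nat_lit 12304565230392479159092496169667033363906560000000000))⟩,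
    ⟨nat_lit 7, nat_lit 4, (.ofNat (nat_lit 1364837527453696)), (.ofNat (nat_lit 1911844562272256)), (.ofNat (nat_lit 1364837527453728)), (.ofNat (nat_lit 1911844562272224)), (.negSucc (nat_lit 772304230950589831050503333986959359999999)), (.ofNat (nat_lit 4294657076322638313283387392000000000)), (.negSucc (nat_lit 8210716778191501173714992766955844221796351999999999))⟩,
    ⟨nat_lit 0, nat_lit 8, (.ofNat (nat_lit 288621802291200)), (.ofNat (nat_lit 494780232499200)), (.ofNat (nat_lit 288621802291232)), (.ofNat (nat_lit 494780232499168)), (.negSucc (nat_lit 102100604711550893574890814072422399999999)), (.ofNat (nat_lit 0)), (.ofNat (nat_lit 0))⟩,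
    ⟨nat_lit 8, nat_lit 10, (.ofNat (nat_lit 494780232499200)), (.ofNat (nat_lit 681044374192128)), (.ofNat (nat_lit 494780232499232)), (.ofNat (nat_lit 681044374192096)), (.negSucc (nat_lit 99493640337855831974239109382143999999999)), (.ofNat (nat_lit 0)), (.ofNat (nat_lit 0))⟩,
    ⟨nat_lit 9, nat_lit 2, (.negSucc (nat_lit 54975581388799)), (.negSucc (nat_lit 2748779069439)), (.negSucc (nat_lit 54975581388767)), (.negSucc (nat_lit 2748779069471)), (.negSucc (nat_lit 80605740561750705453861169004543999999999)), (.ofNat (nat_lit 0)), (.ofNat (nat_lit 0))⟩,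
    ⟨nat_lit 10, nat_lit 5, (.ofNat (nat_lit 681044374192128)), (.ofNat (nat_lit 1102260406845440)), (.ofNat (nat_lit 681044374192160)), (.ofNat (nat_lit 1102260406845408)), (.negSucc (nat_lit 99493640337855831974239109382143999999999)), (.ofNat (nat_lit 0)), (.ofNat (nat_lit 0))⟩]

theorem ok292 : stOK 10 10 S292 = true := by decide +kernel

def S293 : SD where
  vs := [
    ⟨nat_lit 0, nat_lit 2, nat_lit 7, (.ofNat (nat_lit 16)), (.ofNat (nat_lit 288621802291200)), (.ofNat (nat_lit 248196605469601790857304437862927754804551938473984000000)), (.ofNat (nat_lit 0)), (.ofNat (nat_lit 0)), (.ofNat (nat_lit 288621802291168)), (.ofNat (nat_lit 288621802291232)), (.negSucc (nat_lit 104233434055255797685956592533503999999999)), (.negSucc (nat_lit 102100604711550893574890814072422399999999)), (.negSucc (nat_lit 104233434055255797685956592533503999999999)), (.negSucc (nat_lit 102100604711550893574890814072422399999999)), (.ofNat (nat_lit 0))⟩,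
    ⟨nat_lit 2, nat_lit 0, nat_lit 1, (.ofNat (nat_lit 16)), (.negSucc (nat_lit 549755813887999)), (.ofNat (nat_lit 120279437284502097135725017355140140065026473984000000)), (.ofNat (nat_lit 0)), (.ofNat (nat_lit 0)), (.negSucc (nat_lit 549755813888031)), (.negSucc (nat_lit 549755813887967)), (.ofNat (nat_lit 1069868479370322577674034458887454720000000)), (.negSucc (nat_lit 109393505048090243115954443649023999999999)), (.negSucc (nat_lit 109393505048090243115954443649023999999999)), (.ofNat (nat_lit 1069868479370322577674034458887454720000000)), (.ofNat (nat_lit 0))⟩,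
    ⟨nat_lit 0, nat_lit 9, nat_lit 2, (.ofNat (nat_lit 16)), (.negSucc (nat_lit 2748779069439)), (.ofNat (nat_lit 278567161747497604390367516647658462781658821033984000000)), (.ofNat (nat_lit 0)), (.ofNat (nat_lit 0)), (.negSucc (nat_lit 2748779069471)), (.negSucc (nat_lit 2748779069407)), (.negSucc (nat_lit 80605740561750705453861169004543999999999)), (.negSucc (nat_lit 104233434055255797685956592533503999999999)), (.negSucc (nat_lit 104233434055255797685956592533503999999999)), (.negSucc (nat_lit 80605740561750705453861169004543999999999)), (.ofNat (nat_lit 0))⟩,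
    ⟨nat_lit 0, nat_lit 0, nat_lit 3, (.ofNat (nat_lit 16)), (.negSucc (nat_lit 274877906943999)), (.ofNat (nat_lit 294203487751958815318281180972470312433238602153984000000)), (.ofNat (nat_lit 0)), (.ofNat (nat_lit 0)), (.negSucc (nat_lit 274877906944031)), (.negSucc (nat_lit 274877906943967)), (.ofNat (nat_lit 1069868479370322577674034458887454720000000)), (.negSucc (nat_lit 51961914897842865480078360733286399999999)), (.negSucc (nat_lit 51961914897842865480078360733286399999999)), (.ofNat (nat_lit 1069868479370322577674034458887454720000000)), (.ofNat (nat_lit 0))⟩,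
    ⟨nat_lit 1, nat_lit 11, nat_lit 6, (.ofNat (nat_lit 16)), (.ofNat (nat_lit 1911844562272256)), (.negSucc (nat_lit 269162813738583303984015895068743545614376963670015999999)), (.ofNat (nat_lit 0)), (.ofNat (nat_lit 0)), (.ofNat (nat_lit 1911844562272224)), (.ofNat (nat_lit 1911844562272288)), (.negSucc (nat_lit 109393505048090243115954443649023999999999)), (.negSucc (nat_lit 772304230950589831050503333986959359999999)), (.negSucc (nat_lit 772304230950589831050503333986959359999999)), (.negSucc (nat_lit 109393505048090243115954443649023999999999)), (.ofNat (nat_lit 8589314152645276626566774784000000000))⟩,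
    ⟨nat_lit 0, nat_lit 10, nat_lit 4, (.ofNat (nat_lit 16)), (.ofNat (nat_lit 1102260406845440)), (.ofNat (nat_lit 166707291100198172367600533400927538351126540713984000000)), (.ofNat (nat_lit 0)), (.ofNat (nat_lit 0)), (.ofNat (nat_lit 1102260406845408)), (.ofNat (nat_lit 1102260406845472)), (.negSucc (nat_lit 99493640337855831974239109382143999999999)), (.negSucc (nat_lit 75047035645236163644697161498623999999999)), (.negSucc (nat_lit 99493640337855831974239109382143999999999)), (.negSucc (nat_lit 75047035645236163644697161498623999999999)), (.ofNat (nat_lit 0))⟩,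
    ⟨nat_lit 0, nat_lit 4, nat_lit 5, (.ofNat (nat_lit 16)), (.ofNat (nat_lit 1146034713526272)), (.ofNat (nat_lit 163422159146376273725534056809608894938751365545984000000)), (.ofNat (nat_lit 0)), (.ofNat (nat_lit 0)), (.ofNat (nat_lit 1146034713526240)), (.ofNat (nat_lit 1146034713526304)), (.negSucc (nat_lit 75047035645236163644697161498623999999999)), (.negSucc (nat_lit 46293397022804615170375617714585599999999)), (.negSucc (nat_lit 75047035645236163644697161498623999999999)), (.negSucc (nat_lit 46293397022804615170375617714585599999999)), (.ofNat (nat_lit 21473285381613191566416936960000000000))⟩,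
    ⟨nat_lit 0, nat_lit 5, nat_lit 6, (.ofNat (nat_lit 16)), (.ofNat (nat_lit 1364837527453696)), (.ofNat (nat_lit 153293033611527191336395849967274497646126730051584000000)), (.ofNat (nat_lit 0)), (.negSucc (nat_lit 2349207632881792507198567356492164911595519999999999)), (.ofNat (nat_lit 1364837527453664)), (.ofNat (nat_lit 1364837527453728)), (.negSucc (nat_lit 46293397022804615170375617714585599999999)), (.negSucc (nat_lit 772304230950589831050503333986959359999999)), (.negSucc (nat_lit 772304230950589831050503333986959359999999)), (.negSucc (nat_lit 46293397022804615170375617714585599999999)), (.ofNat (nat_lit 51535884915871659759400648704000000000))⟩,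
    ⟨nat_lit 0, nat_lit 7, nat_lit 8, (.ofNat (nat_lit 16)), (.ofNat (nat_lit 494780232499200)), (.ofNat (nat_lit 227147705078980929992805274348757957196656079273984000000)), (.ofNat (nat_lit 0)), (.ofNat (nat_lit 0)), (.ofNat (nat_lit 494780232499168)), (.ofNat (nat_lit 494780232499232)), (.negSucc (nat_lit 102100604711550893574890814072422399999999)), (.negSucc (nat_lit 99493640337855831974239109382143999999999)), (.negSucc (nat_lit 102100604711550893574890814072422399999999)), (.negSucc (nat_lit 99493640337855831974239109382143999999999)), (.ofNat (nat_lit 0))⟩,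
    ⟨nat_lit 0, nat_lit 3, nat_lit 9, (.ofNat (nat_lit 16)), (.negSucc (nat_lit 54975581388799)), (.ofNat (nat_lit 282776941825621776563267349350492422303237992873984000000)), (.ofNat (nat_lit 0)), (.ofNat (nat_lit 0)), (.negSucc (nat_lit 54975581388831)), (.negSucc (nat_lit 54975581388767)), (.negSucc (nat_lit 51961914897842865480078360733286399999999)), (.negSucc (nat_lit 80605740561750705453861169004543999999999)), (.negSucc (nat_lit 80605740561750705453861169004543999999999)), (.negSucc (nat_lit 51961914897842865480078360733286399999999)), (.ofNat (nat_lit 0))⟩,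
    ⟨nat_lit 0, nat_lit 8, nat_lit 10, (.ofNat (nat_lit 16)), (.ofNat (nat_lit 681044374192128)), (.ofNat (nat_lit 208615607557545334456253526572842306712401801641984000000)), (.ofNat (nat_lit 0)), (.ofNat (nat_lit 0)), (.ofNat (nat_lit 681044374192096)), (.ofNat (nat_lit 681044374192160)), (.negSucc (nat_lit 99493640337855831974239109382143999999999)), (.negSucc (nat_lit 99493640337855831974239109382143999999999)), (.negSucc (nat_lit 99493640337855831974239109382143999999999)), (.negSucc (nat_lit 99493640337855831974239109382143999999999)), (.ofNat (nat_lit 0))⟩,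
    ⟨nat_lit 0, nat_lit 1, nat_lit 11, (.ofNat (nat_lit 16)), (.ofNat (nat_lit 681044374192128)), (.negSucc (nat_lit 134521267150649400943440085025694202737155968598015999999)), (.ofNat (nat_lit 0)), (.ofNat (nat_lit 0)), (.ofNat (nat_lit 681044374192096)), (.ofNat (nat_lit 681044374192160)), (.negSucc (nat_lit 109393505048090243115954443649023999999999)), (.negSucc (nat_lit 109393505048090243115954443649023999999999)), (.negSucc (nat_lit 109393505048090243115954443649023999999999)), (.negSucc (nat_lit 109393505048090243115954443649023999999999)), (.ofNat (nat_lit 0))⟩]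
  es := [
    ⟨nat_lit 1, nat_lit 3, (.negSucc (nat_lit 549755813887999)), (.negSucc (nat_lit 274877906943999)), (.negSucc (nat_lit 549755813887967)), (.negSucc (nat_lit 274877906944031)), (.ofNat (nat_lit 1069868479370322577674034458887454720000000)), (.ofNat (nat_lit 0)), (.ofNat (nat_lit 0))⟩,
    ⟨nat_lit 1, nat_lit 11, (.negSucc (nat_lit 549755813887999)), (.ofNat (nat_lit 681044374192128)), (.negSucc (nat_lit 549755813887967)), (.ofNat (nat_lit 681044374192096)), (.negSucc (nat_lit 109393505048090243115954443649023999999999)), (.ofNat (nat_lit 0)), (.ofNat (nat_lit 0))⟩,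
    ⟨nat_lit 2, nat_lit 0, (.negSucc (nat_lit 2748779069439)), (.ofNat (nat_lit 288621802291200)), (.negSucc (nat_lit 2748779069407)), (.ofNat (nat_lit 288621802291168)), (.negSucc (nat_lit 104233434055255797685956592533503999999999)), (.ofNat (nat_lit 0)), (.ofNat (nat_lit 0))⟩,
    ⟨nat_lit 3, nat_lit 9, (.negSucc (nat_lit 274877906943999)), (.negSucc (nat_lit 54975581388799)), (.negSucc (nat_lit 274877906943967)), (.negSucc (nat_lit 54975581388831)), (.negSucc (nat_lit 51961914897842865480078360733286399999999)), (.ofNat (nat_lit 0)), (.ofNat (nat_lit 0))⟩,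
    ⟨nat_lit 5, nat_lit 6, (.ofNat (nat_lit 1102260406845440)), (.ofNat (nat_lit 1146034713526272)), (.ofNat (nat_lit 1102260406845472)), (.ofNat (nat_lit 1146034713526240)), (.negSucc (nat_lit 75047035645236163644697161498623999999999)), (.ofNat (nat_lit 0)), (.ofNat (nat_lit 0))⟩,
    ⟨nat_lit 6, nat_lit 7, (.ofNat (nat_lit 1146034713526272)), (.ofNat (nat_lit 1364837527453696)), (.ofNat (nat_lit 1146034713526304)), (.ofNat (nat_lit 1364837527453664)), (.negSucc (nat_lit 46293397022804615170375617714585599999999)), (.negSucc (nat_lit 10736642690806595783208468479999999999)), (.ofNat (nat_lit 12304565230392479159092496169667033363906560000000000))⟩,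
    ⟨nat_lit 7, nat_lit 4, (.ofNat (nat_lit 1364837527453696)), (.ofNat (nat_lit 1911844562272256)), (.ofNat (nat_lit 1364837527453728)), (.ofNat (nat_lit 1911844562272224)), (.negSucc (nat_lit 772304230950589831050503333986959359999999)), (.ofNat (nat_lit 4294657076322638313283387392000000000)), (.negSucc (nat_lit 8210716778191501173714992766955844221796351999999999))⟩,
    ⟨nat_lit 0, nat_lit 8, (.ofNat (nat_lit 288621802291200)), (.ofNat (nat_lit 494780232499200)), (.ofNat (nat_lit 288621802291232)), (.ofNat (nat_lit 494780232499168)), (.negSucc (nat_lit 102100604711550893574890814072422399999999)), (.ofNat (nat_lit 0)), (.ofNat (nat_lit 0))⟩,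
    ⟨nat_lit 8, nat_lit 10, (.ofNat (nat_lit 494780232499200)), (.ofNat (nat_lit 681044374192128)), (.ofNat (nat_lit 494780232499232)), (.ofNat (nat_lit 681044374192096)), (.negSucc (nat_lit 99493640337855831974239109382143999999999)), (.ofNat (nat_lit 0)), (.ofNat (nat_lit 0))⟩,
    ⟨nat_lit 9, nat_lit 2, (.negSucc (nat_lit 54975581388799)), (.negSucc (nat_lit 2748779069439)), (.negSucc (nat_lit 54975581388767)), (.negSucc (nat_lit 2748779069471)), (.negSucc (nat_lit 80605740561750705453861169004543999999999)), (.ofNat (nat_lit 0)), (.ofNat (nat_lit 0))⟩,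
    ⟨nat_lit 10, nat_lit 5, (.ofNat (nat_lit 681044374192128)), (.ofNat (nat_lit 1102260406845440)), (.ofNat (nat_lit 681044374192160)), (.ofNat (nat_lit 1102260406845408)), (.negSucc (nat_lit 99493640337855831974239109382143999999999)), (.ofNat (nat_lit 0)), (.ofNat (nat_lit 0))⟩,
    ⟨nat_lit 11, nat_lit 4, (.ofNat (nat_lit 681044374192128)), (.ofNat (nat_lit 1911844562272256)), (.ofNat (nat_lit 681044374192160)), (.ofNat (nat_lit 1911844562272224)), (.negSucc (nat_lit 109393505048090243115954443649023999999999)), (.ofNat (nat_lit 0)), (.ofNat (nat_lit 0))⟩]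

theorem ok293 : stOK 11 11 S293 = true := by decide +kernel

def S294 : SD where
  vs := [
    ⟨nat_lit 0, nat_lit 2, nat_lit 7, (.ofNat (nat_lit 16)), (.ofNat (nat_lit 288621802291200)), (.ofNat (nat_lit 248196605469601790857304437862927754804551938473984000000)), (.ofNat (nat_lit 0)), (.ofNat (nat_lit 0)), (.ofNat (nat_lit 288621802291168)), (.ofNat (nat_lit 288621802291232)), (.negSucc (nat_lit 104233434055255797685956592533503999999999)), (.negSucc (nat_lit 102100604711550893574890814072422399999999)), (.negSucc (nat_lit 104233434055255797685956592533503999999999)), (.negSucc (nat_lit 102100604711550893574890814072422399999999)), (.ofNat (nat_lit 0))⟩,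
    ⟨nat_lit 2, nat_lit 0, nat_lit 1, (.ofNat (nat_lit 16)), (.negSucc (nat_lit 549755813887999)), (.ofNat (nat_lit 120279437284502097135725017355140140065026473984000000)), (.ofNat (nat_lit 0)), (.ofNat (nat_lit 0)), (.negSucc (nat_lit 549755813888031)), (.negSucc (nat_lit 549755813887967)), (.ofNat (nat_lit 1069868479370322577674034458887454720000000)), (.negSucc (nat_lit 109393505048090243115954443649023999999999)), (.negSucc (nat_lit 109393505048090243115954443649023999999999)), (.ofNat (nat_lit 1069868479370322577674034458887454720000000)), (.ofNat (nat_lit 0))⟩,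
    ⟨nat_lit 0, nat_lit 9, nat_lit 2, (.ofNat (nat_lit 16)), (.negSucc (nat_lit 2748779069439)), (.ofNat (nat_lit 278567161747497604390367516647658462781658821033984000000)), (.ofNat (nat_lit 0)), (.ofNat (nat_lit 0)), (.negSucc (nat_lit 2748779069471)), (.negSucc (nat_lit 2748779069407)), (.negSucc (nat_lit 80605740561750705453861169004543999999999)), (.negSucc (nat_lit 104233434055255797685956592533503999999999)), (.negSucc (nat_lit 104233434055255797685956592533503999999999)), (.negSucc (nat_lit 80605740561750705453861169004543999999999)), (.ofNat (nat_lit 0))⟩,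
    ⟨nat_lit 0, nat_lit 0, nat_lit 3, (.ofNat (nat_lit 16)), (.negSucc (nat_lit 274877906943999)), (.ofNat (nat_lit 294203487751958815318281180972470312433238602153984000000)), (.ofNat (nat_lit 0)), (.ofNat (nat_lit 0)), (.negSucc (nat_lit 274877906944031)), (.negSucc (nat_lit 274877906943967)), (.ofNat (nat_lit 1069868479370322577674034458887454720000000)), (.negSucc (nat_lit 51961914897842865480078360733286399999999)), (.negSucc (nat_lit 51961914897842865480078360733286399999999)), (.ofNat (nat_lit 1069868479370322577674034458887454720000000)), (.ofNat (nat_lit 0))⟩,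
    ⟨nat_lit 1, nat_lit 11, nat_lit 6, (.ofNat (nat_lit 16)), (.ofNat (nat_lit 1911844562272256)), (.negSucc (nat_lit 269162813738583303984015895068743545614376963670015999999)), (.ofNat (nat_lit 0)), (.ofNat (nat_lit 0)), (.ofNat (nat_lit 1911844562272224)), (.ofNat (nat_lit 1911844562272288)), (.negSucc (nat_lit 109393505048090243115954443649023999999999)), (.negSucc (nat_lit 772033667554781504836766480581263359999999)), (.negSucc (nat_lit 772033667554781504836766480581263359999999)), (.negSucc (nat_lit 109393505048090243115954443649023999999999)), (.ofNat (nat_lit 8589314152645276626566774784000000000))⟩,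
    ⟨nat_lit 0, nat_lit 10, nat_lit 4, (.ofNat (nat_lit 16)), (.ofNat (nat_lit 1102260406845440)), (.ofNat (nat_lit 166707291100198172367600533400927538351126540713984000000)), (.ofNat (nat_lit 0)), (.ofNat (nat_lit 0)), (.ofNat (nat_lit 1102260406845408)), (.ofNat (nat_lit 1102260406845472)), (.negSucc (nat_lit 99493640337855831974239109382143999999999)), (.negSucc (nat_lit 75047035645236163644697161498623999999999)), (.negSucc (nat_lit 99493640337855831974239109382143999999999)), (.negSucc (nat_lit 75047035645236163644697161498623999999999)), (.ofNat (nat_lit 0))⟩,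
    ⟨nat_lit 0, nat_lit 4, nat_lit 5, (.ofNat (nat_lit 16)), (.ofNat (nat_lit 1146034713526272)), (.ofNat (nat_lit 163422159146376273725534056809608894938751365545984000000)), (.ofNat (nat_lit 0)), (.ofNat (nat_lit 0)), (.ofNat (nat_lit 1146034713526240)), (.ofNat (nat_lit 1146034713526304)), (.negSucc (nat_lit 75047035645236163644697161498623999999999)), (.negSucc (nat_lit 46969805512325430704717751228825599999999)), (.negSucc (nat_lit 75047035645236163644697161498623999999999)), (.negSucc (nat_lit 46969805512325430704717751228825599999999)), (.ofNat (nat_lit 21473285381613191566416936960000000000))⟩,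
    ⟨nat_lit 0, nat_lit 5, nat_lit 6, (.ofNat (nat_lit 16)), (.ofNat (nat_lit 1364837527453696)), (.ofNat (nat_lit 153145033530655638408442340223815491256696212291584000000)), (.ofNat (nat_lit 0)), (.negSucc (nat_lit 2349207632881792507198567356492164911595519999999999)), (.ofNat (nat_lit 1364837527453664)), (.ofNat (nat_lit 1364837527453728)), (.negSucc (nat_lit 46969805512325430704717751228825599999999)), (.negSucc (nat_lit 772033667554781504836766480581263359999999)), (.negSucc (nat_lit 772033667554781504836766480581263359999999)), (.negSucc (nat_lit 46969805512325430704717751228825599999999)), (.ofNat (nat_lit 51535884915871659759400648704000000000))⟩,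
    ⟨nat_lit 0, nat_lit 7, nat_lit 8, (.ofNat (nat_lit 16)), (.ofNat (nat_lit 494780232499200)), (.ofNat (nat_lit 227147705078980929992805274348757957196656079273984000000)), (.ofNat (nat_lit 0)), (.ofNat (nat_lit 0)), (.ofNat (nat_lit 494780232499168)), (.ofNat (nat_lit 494780232499232)), (.negSucc (nat_lit 102100604711550893574890814072422399999999)), (.negSucc (nat_lit 99493640337855831974239109382143999999999)), (.negSucc (nat_lit 102100604711550893574890814072422399999999)), (.negSucc (nat_lit 99493640337855831974239109382143999999999)), (.ofNat (nat_lit 0))⟩,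
    ⟨nat_lit 0, nat_lit 3, nat_lit 9, (.ofNat (nat_lit 16)), (.negSucc (nat_lit 54975581388799)), (.ofNat (nat_lit 282776941825621776563267349350492422303237992873984000000)), (.ofNat (nat_lit 0)), (.ofNat (nat_lit 0)), (.negSucc (nat_lit 54975581388831)), (.negSucc (nat_lit 54975581388767)), (.negSucc (nat_lit 51961914897842865480078360733286399999999)), (.negSucc (nat_lit 80605740561750705453861169004543999999999)), (.negSucc (nat_lit 80605740561750705453861169004543999999999)), (.negSucc (nat_lit 51961914897842865480078360733286399999999)), (.ofNat (nat_lit 0))⟩,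
    ⟨nat_lit 0, nat_lit 8, nat_lit 10, (.ofNat (nat_lit 16)), (.ofNat (nat_lit 681044374192128)), (.ofNat (nat_lit 208615607557545334456253526572842306712401801641984000000)), (.ofNat (nat_lit 0)), (.ofNat (nat_lit 0)), (.ofNat (nat_lit 681044374192096)), (.ofNat (nat_lit 681044374192160)), (.negSucc (nat_lit 99493640337855831974239109382143999999999)), (.negSucc (nat_lit 99493640337855831974239109382143999999999)), (.negSucc (nat_lit 99493640337855831974239109382143999999999)), (.negSucc (nat_lit 99493640337855831974239109382143999999999)), (.ofNat (nat_lit 0))⟩,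
    ⟨nat_lit 0, nat_lit 1, nat_lit 11, (.ofNat (nat_lit 16)), (.ofNat (nat_lit 681044374192128)), (.negSucc (nat_lit 134521267150649400943440085025694202737155968598015999999)), (.ofNat (nat_lit 0)), (.ofNat (nat_lit 0)), (.ofNat (nat_lit 681044374192096)), (.ofNat (nat_lit 681044374192160)), (.negSucc (nat_lit 109393505048090243115954443649023999999999)), (.negSucc (nat_lit 109393505048090243115954443649023999999999)), (.negSucc (nat_lit 109393505048090243115954443649023999999999)), (.negSucc (nat_lit 109393505048090243115954443649023999999999)), (.ofNat (nat_lit 0))⟩]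
  es := [
    ⟨nat_lit 1, nat_lit 3, (.negSucc (nat_lit 549755813887999)), (.negSucc (nat_lit 274877906943999)), (.negSucc (nat_lit 549755813887967)), (.negSucc (nat_lit 274877906944031)), (.ofNat (nat_lit 1069868479370322577674034458887454720000000)), (.ofNat (nat_lit 0)), (.ofNat (nat_lit 0))⟩,
    ⟨nat_lit 1, nat_lit 11, (.negSucc (nat_lit 549755813887999)), (.ofNat (nat_lit 681044374192128)), (.negSucc (nat_lit 549755813887967)), (.ofNat (nat_lit 681044374192096)), (.negSucc (nat_lit 109393505048090243115954443649023999999999)), (.ofNat (nat_lit 0)), (.ofNat (nat_lit 0))⟩,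
    ⟨nat_lit 2, nat_lit 0, (.negSucc (nat_lit 2748779069439)), (.ofNat (nat_lit 288621802291200)), (.negSucc (nat_lit 2748779069407)), (.ofNat (nat_lit 288621802291168)), (.negSucc (nat_lit 104233434055255797685956592533503999999999)), (.ofNat (nat_lit 0)), (.ofNat (nat_lit 0))⟩,
    ⟨nat_lit 3, nat_lit 9, (.negSucc (nat_lit 274877906943999)), (.negSucc (nat_lit 54975581388799)), (.negSucc (nat_lit 274877906943967)), (.negSucc (nat_lit 54975581388831)), (.negSucc (nat_lit 51961914897842865480078360733286399999999)), (.ofNat (nat_lit 0)), (.ofNat (nat_lit 0))⟩,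
    ⟨nat_lit 5, nat_lit 6, (.ofNat (nat_lit 1102260406845440)), (.ofNat (nat_lit 1146034713526272)), (.ofNat (nat_lit 1102260406845472)), (.ofNat (nat_lit 1146034713526240)), (.negSucc (nat_lit 75047035645236163644697161498623999999999)), (.ofNat (nat_lit 0)), (.ofNat (nat_lit 0))⟩,
    ⟨nat_lit 6, nat_lit 7, (.ofNat (nat_lit 1146034713526272)), (.ofNat (nat_lit 1364837527453696)), (.ofNat (nat_lit 1146034713526304)), (.ofNat (nat_lit 1364837527453664)), (.negSucc (nat_lit 46969805512325430704717751228825599999999)), (.negSucc (nat_lit 10736642690806595783208468479999999999)), (.ofNat (nat_lit 12304565230392479159092496169667033363906560000000000))⟩,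
    ⟨nat_lit 7, nat_lit 4, (.ofNat (nat_lit 1364837527453696)), (.ofNat (nat_lit 1911844562272256)), (.ofNat (nat_lit 1364837527453728)), (.ofNat (nat_lit 1911844562272224)), (.negSucc (nat_lit 772033667554781504836766480581263359999999)), (.ofNat (nat_lit 4294657076322638313283387392000000000)), (.negSucc (nat_lit 8210716778191501173714992766955844221796351999999999))⟩,
    ⟨nat_lit 0, nat_lit 8, (.ofNat (nat_lit 288621802291200)), (.ofNat (nat_lit 494780232499200)), (.ofNat (nat_lit 288621802291232)), (.ofNat (nat_lit 494780232499168)), (.negSucc (nat_lit 102100604711550893574890814072422399999999)), (.ofNat (nat_lit 0)), (.ofNat (nat_lit 0))⟩,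
    ⟨nat_lit 8, nat_lit 10, (.ofNat (nat_lit 494780232499200)), (.ofNat (nat_lit 681044374192128)), (.ofNat (nat_lit 494780232499232)), (.ofNat (nat_lit 681044374192096)), (.negSucc (nat_lit 99493640337855831974239109382143999999999)), (.ofNat (nat_lit 0)), (.ofNat (nat_lit 0))⟩,
    ⟨nat_lit 9, nat_lit 2, (.negSucc (nat_lit 54975581388799)), (.negSucc (nat_lit 2748779069439)), (.negSucc (nat_lit 54975581388767)), (.negSucc (nat_lit 2748779069471)), (.negSucc (nat_lit 80605740561750705453861169004543999999999)), (.ofNat (nat_lit 0)), (.ofNat (nat_lit 0))⟩,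
    ⟨nat_lit 10, nat_lit 5, (.ofNat (nat_lit 681044374192128)), (.ofNat (nat_lit 1102260406845440)), (.ofNat (nat_lit 681044374192160)), (.ofNat (nat_lit 1102260406845408)), (.negSucc (nat_lit 99493640337855831974239109382143999999999)), (.ofNat (nat_lit 0)), (.ofNat (nat_lit 0))⟩,
    ⟨nat_lit 11, nat_lit 4, (.ofNat (nat_lit 681044374192128)), (.ofNat (nat_lit 1911844562272256)), (.ofNat (nat_lit 681044374192160)), (.ofNat (nat_lit 1911844562272224)), (.negSucc (nat_lit 109393505048090243115954443649023999999999)), (.ofNat (nat_lit 0)), (.ofNat (nat_lit 0))⟩]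

theorem ok294 : stOK 11 11 S294 = true := by decide +kernel

def S295 : SD where
  vs := [
    ⟨nat_lit 0, nat_lit 2, nat_lit 7, (.ofNat (nat_lit 16)), (.ofNat (nat_lit 288621802291200)), (.ofNat (nat_lit 248196605469601790857304437862927754804551938473984000000)), (.ofNat (nat_lit 0)), (.ofNat (nat_lit 0)), (.ofNat (nat_lit 288621802291168)), (.ofNat (nat_lit 288621802291232)), (.negSucc (nat_lit 104233434055255797685956592533503999999999)), (.negSucc (nat_lit 102100604711550893574890814072422399999999)), (.negSucc (nat_lit 104233434055255797685956592533503999999999)), (.negSucc (nat_lit 102100604711550893574890814072422399999999)), (.ofNat (nat_lit 0))⟩,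
    ⟨nat_lit 2, nat_lit 0, nat_lit 1, (.ofNat (nat_lit 16)), (.negSucc (nat_lit 549755813887999)), (.ofNat (nat_lit 120279437284502097135725017355140140065026473984000000)), (.ofNat (nat_lit 0)), (.ofNat (nat_lit 0)), (.negSucc (nat_lit 549755813888031)), (.negSucc (nat_lit 549755813887967)), (.ofNat (nat_lit 1069868479370322577674034458887454720000000)), (.negSucc (nat_lit 109393505048090243115954443649023999999999)), (.negSucc (nat_lit 109393505048090243115954443649023999999999)), (.ofNat (nat_lit 1069868479370322577674034458887454720000000)), (.ofNat (nat_lit 0))⟩,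
    ⟨nat_lit 0, nat_lit 9, nat_lit 2, (.ofNat (nat_lit 16)), (.negSucc (nat_lit 2748779069439)), (.ofNat (nat_lit 278567161747497604390367516647658462781658821033984000000)), (.ofNat (nat_lit 0)), (.ofNat (nat_lit 0)), (.negSucc (nat_lit 2748779069471)), (.negSucc (nat_lit 2748779069407)), (.negSucc (nat_lit 80605740561750705453861169004543999999999)), (.negSucc (nat_lit 104233434055255797685956592533503999999999)), (.negSucc (nat_lit 104233434055255797685956592533503999999999)), (.negSucc (nat_lit 80605740561750705453861169004543999999999)), (.ofNat (nat_lit 0))⟩,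
    ⟨nat_lit 0, nat_lit 0, nat_lit 3, (.ofNat (nat_lit 16)), (.negSucc (nat_lit 274877906943999)), (.ofNat (nat_lit 294203487751958815318281180972470312433238602153984000000)), (.ofNat (nat_lit 0)), (.ofNat (nat_lit 0)), (.negSucc (nat_lit 274877906944031)), (.negSucc (nat_lit 274877906943967)), (.ofNat (nat_lit 1069868479370322577674034458887454720000000)), (.negSucc (nat_lit 51961914897842865480078360733286399999999)), (.negSucc (nat_lit 51961914897842865480078360733286399999999)), (.ofNat (nat_lit 1069868479370322577674034458887454720000000)), (.ofNat (nat_lit 0))⟩,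
    ⟨nat_lit 1, nat_lit 11, nat_lit 6, (.ofNat (nat_lit 16)), (.ofNat (nat_lit 1911844562272256)), (.negSucc (nat_lit 269162813738583303984015895068743545614376963670015999999)), (.ofNat (nat_lit 0)), (.ofNat (nat_lit 0)), (.ofNat (nat_lit 1911844562272224)), (.ofNat (nat_lit 1911844562272288)), (.negSucc (nat_lit 109393505048090243115954443649023999999999)), (.negSucc (nat_lit 771758809501896855984716343788175359999999)), (.negSucc (nat_lit 771758809501896855984716343788175359999999)), (.negSucc (nat_lit 109393505048090243115954443649023999999999)), (.ofNat (nat_lit 8589314152645276626566774784000000000))⟩,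
    ⟨nat_lit 0, nat_lit 10, nat_lit 4, (.ofNat (nat_lit 16)), (.ofNat (nat_lit 1102260406845440)), (.ofNat (nat_lit 175728248410464255595243032049857451611653337513984000000)), (.ofNat (nat_lit 0)), (.ofNat (nat_lit 140952457972907550431914041389529894695731200000000000)), (.ofNat (nat_lit 1102260406845408)), (.ofNat (nat_lit 1102260406845472)), (.negSucc (nat_lit 105824094654156309088188575514623999999999)), (.negSucc (nat_lit 95654917286948611327451530788863999999999)), (.negSucc (nat_lit 105824094654156309088188575514623999999999)), (.negSucc (nat_lit 95654917286948611327451530788863999999999)), (.ofNat (nat_lit 643996301303513990086074040320000000000))⟩,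
    ⟨nat_lit 0, nat_lit 4, nat_lit 5, (.ofNat (nat_lit 16)), (.ofNat (nat_lit 1146034713526272)), (.ofNat (nat_lit 171541020725615748630412305593645816873225482665984000000)), (.ofNat (nat_lit 0)), (.ofNat (nat_lit 126857212175616795388722637250576905226158080000000000)), (.ofNat (nat_lit 1146034713526240)), (.ofNat (nat_lit 1146034713526304)), (.negSucc (nat_lit 95654917286948611327451530788863999999999)), (.negSucc (nat_lit 84762787783964647861611560278425599999999)), (.negSucc (nat_lit 95654917286948611327451530788863999999999)), (.negSucc (nat_lit 84762787783964647861611560278425599999999)), (.ofNat (nat_lit 1181030695988725536152931532800000000000))⟩,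
    ⟨nat_lit 0, nat_lit 5, nat_lit 6, (.ofNat (nat_lit 16)), (.ofNat (nat_lit 1364837527453696)), (.ofNat (nat_lit 152994684242151203687981631912999992702354099011584000000)), (.ofNat (nat_lit 0)), (.negSucc (nat_lit 2349207632881792507198567356492164911595519999999999)), (.ofNat (nat_lit 1364837527453664)), (.ofNat (nat_lit 1364837527453728)), (.negSucc (nat_lit 84762787783964647861611560278425599999999)), (.negSucc (nat_lit 771758809501896855984716343788175359999999)), (.negSucc (nat_lit 771758809501896855984716343788175359999999)), (.negSucc (nat_lit 84762787783964647861611560278425599999999)), (.ofNat (nat_lit 2370650706130096348932429840384000000000))⟩,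
    ⟨nat_lit 0, nat_lit 7, nat_lit 8, (.ofNat (nat_lit 16)), (.ofNat (nat_lit 494780232499200)), (.ofNat (nat_lit 227147705078980929992805274348757957196656079273984000000)), (.ofNat (nat_lit 0)), (.ofNat (nat_lit 0)), (.ofNat (nat_lit 494780232499168)), (.ofNat (nat_lit 494780232499232)), (.negSucc (nat_lit 102100604711550893574890814072422399999999)), (.negSucc (nat_lit 36747015807521182939338321690623999999999)), (.negSucc (nat_lit 102100604711550893574890814072422399999999)), (.negSucc (nat_lit 36747015807521182939338321690623999999999)), (.ofNat (nat_lit 1960832016572957782340649615360000000000))⟩,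
    ⟨nat_lit 0, nat_lit 3, nat_lit 9, (.ofNat (nat_lit 16)), (.negSucc (nat_lit 54975581388799)), (.ofNat (nat_lit 282776941825621776563267349350492422303237992873984000000)), (.ofNat (nat_lit 0)), (.ofNat (nat_lit 0)), (.negSucc (nat_lit 54975581388831)), (.negSucc (nat_lit 54975581388767)), (.negSucc (nat_lit 51961914897842865480078360733286399999999)), (.negSucc (nat_lit 80605740561750705453861169004543999999999)), (.negSucc (nat_lit 80605740561750705453861169004543999999999)), (.negSucc (nat_lit 51961914897842865480078360733286399999999)), (.ofNat (nat_lit 0))⟩,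
    ⟨nat_lit 0, nat_lit 8, nat_lit 10, (.ofNat (nat_lit 16)), (.ofNat (nat_lit 681044374192128)), (.ofNat (nat_lit 220303053719816539343831528498882385510231372201984000000)), (.ofNat (nat_lit 0)), (.ofNat (nat_lit 182616346285487576368406280094376231216087040000000000)), (.ofNat (nat_lit 681044374192096)), (.ofNat (nat_lit 681044374192160)), (.negSucc (nat_lit 36747015807521182939338321690623999999999)), (.negSucc (nat_lit 105824094654156309088188575514623999999999)), (.negSucc (nat_lit 105824094654156309088188575514623999999999)), (.negSucc (nat_lit 36747015807521182939338321690623999999999)), (.ofNat (nat_lit 4119490730530305474492220047360000000000))⟩,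
    ⟨nat_lit 0, nat_lit 1, nat_lit 11, (.ofNat (nat_lit 16)), (.ofNat (nat_lit 681044374192128)), (.negSucc (nat_lit 134521267150649400943440085025694202737155968598015999999)), (.ofNat (nat_lit 0)), (.ofNat (nat_lit 0)), (.ofNat (nat_lit 681044374192096)), (.ofNat (nat_lit 681044374192160)), (.negSucc (nat_lit 109393505048090243115954443649023999999999)), (.negSucc (nat_lit 109393505048090243115954443649023999999999)), (.negSucc (nat_lit 109393505048090243115954443649023999999999)), (.negSucc (nat_lit 109393505048090243115954443649023999999999)), (.ofNat (nat_lit 0))⟩]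
  es := [
    ⟨nat_lit 1, nat_lit 3, (.negSucc (nat_lit 549755813887999)), (.negSucc (nat_lit 274877906943999)), (.negSucc (nat_lit 549755813887967)), (.negSucc (nat_lit 274877906944031)), (.ofNat (nat_lit 1069868479370322577674034458887454720000000)), (.ofNat (nat_lit 0)), (.ofNat (nat_lit 0))⟩,
    ⟨nat_lit 1, nat_lit 11, (.negSucc (nat_lit 549755813887999)), (.ofNat (nat_lit 681044374192128)), (.negSucc (nat_lit 549755813887967)), (.ofNat (nat_lit 681044374192096)), (.negSucc (nat_lit 109393505048090243115954443649023999999999)), (.ofNat (nat_lit 0)), (.ofNat (nat_lit 0))⟩,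
    ⟨nat_lit 2, nat_lit 0, (.negSucc (nat_lit 2748779069439)), (.ofNat (nat_lit 288621802291200)), (.negSucc (nat_lit 2748779069407)), (.ofNat (nat_lit 288621802291168)), (.negSucc (nat_lit 104233434055255797685956592533503999999999)), (.ofNat (nat_lit 0)), (.ofNat (nat_lit 0))⟩,
    ⟨nat_lit 3, nat_lit 9, (.negSucc (nat_lit 274877906943999)), (.negSucc (nat_lit 54975581388799)), (.negSucc (nat_lit 274877906943967)), (.negSucc (nat_lit 54975581388831)), (.negSucc (nat_lit 51961914897842865480078360733286399999999)), (.ofNat (nat_lit 0)), (.ofNat (nat_lit 0))⟩,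
    ⟨nat_lit 5, nat_lit 6, (.ofNat (nat_lit 1102260406845440)), (.ofNat (nat_lit 1146034713526272)), (.ofNat (nat_lit 1102260406845472)), (.ofNat (nat_lit 1146034713526240)), (.negSucc (nat_lit 95654917286948611327451530788863999999999)), (.negSucc (nat_lit 321998150651756995043037020159999999999)), (.ofNat (nat_lit 495878270513792496888413448593306897979801600000000000))⟩,
    ⟨nat_lit 6, nat_lit 7, (.ofNat (nat_lit 1146034713526272)), (.ofNat (nat_lit 1364837527453696)), (.ofNat (nat_lit 1146034713526304)), (.ofNat (nat_lit 1364837527453664)), (.negSucc (nat_lit 84762787783964647861611560278425599999999)), (.negSucc (nat_lit 590515347994362768076465766399999999999)), (.ofNat (nat_lit 803608299847203149138809926582263740241018880000000000))⟩,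
    ⟨nat_lit 7, nat_lit 4, (.ofNat (nat_lit 1364837527453696)), (.ofNat (nat_lit 1911844562272256)), (.ofNat (nat_lit 1364837527453728)), (.ofNat (nat_lit 1911844562272224)), (.negSucc (nat_lit 771758809501896855984716343788175359999999)), (.ofNat (nat_lit 4294657076322638313283387392000000000)), (.negSucc (nat_lit 8210716778191501173714992766955844221796351999999999))⟩,
    ⟨nat_lit 0, nat_lit 8, (.ofNat (nat_lit 288621802291200)), (.ofNat (nat_lit 494780232499200)), (.ofNat (nat_lit 288621802291232)), (.ofNat (nat_lit 494780232499168)), (.negSucc (nat_lit 102100604711550893574890814072422399999999)), (.ofNat (nat_lit 0)), (.ofNat (nat_lit 0))⟩,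
    ⟨nat_lit 8, nat_lit 10, (.ofNat (nat_lit 494780232499200)), (.ofNat (nat_lit 681044374192128)), (.ofNat (nat_lit 494780232499232)), (.ofNat (nat_lit 681044374192096)), (.negSucc (nat_lit 36747015807521182939338321690623999999999)), (.ofNat (nat_lit 980416008286478891170324807680000000000)), (.negSucc (nat_lit 485090460525921619572966322331491925753855999999999999))⟩,
    ⟨nat_lit 9, nat_lit 2, (.negSucc (nat_lit 54975581388799)), (.negSucc (nat_lit 2748779069439)), (.negSucc (nat_lit 54975581388767)), (.negSucc (nat_lit 2748779069471)), (.negSucc (nat_lit 80605740561750705453861169004543999999999)), (.ofNat (nat_lit 0)), (.ofNat (nat_lit 0))⟩,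
    ⟨nat_lit 10, nat_lit 5, (.ofNat (nat_lit 681044374192128)), (.ofNat (nat_lit 1102260406845440)), (.ofNat (nat_lit 681044374192160)), (.ofNat (nat_lit 1102260406845408)), (.negSucc (nat_lit 105824094654156309088188575514623999999999)), (.negSucc (nat_lit 98913348692194954905460408319999999999)), (.ofNat (nat_lit 249980725944811231975487825356531320225792000000000000))⟩,
    ⟨nat_lit 11, nat_lit 4, (.ofNat (nat_lit 681044374192128)), (.ofNat (nat_lit 1911844562272256)), (.ofNat (nat_lit 681044374192160)), (.ofNat (nat_lit 1911844562272224)), (.negSucc (nat_lit 109393505048090243115954443649023999999999)), (.ofNat (nat_lit 0)), (.ofNat (nat_lit 0))⟩]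

theorem ok295 : stOK 11 11 S295 = true := by decide +kernel

def S296 : SD where
  vs := [
    ⟨nat_lit 0, nat_lit 2, nat_lit 7, (.ofNat (nat_lit 16)), (.ofNat (nat_lit 288621802291200)), (.ofNat (nat_lit 120455113792052471601295499202340024788410626473984000000)), (.ofNat (nat_lit 0)), (.negSucc (nat_lit 1995960807461708113375139666571683281502207999999999999)), (.ofNat (nat_lit 288621802291168)), (.ofNat (nat_lit 288621802291232)), (.ofNat (nat_lit 143532976110668083706481082368000000000000)), (.ofNat (nat_lit 143532976110668083706481082368000000000000)), (.ofNat (nat_lit 143532976110668083706481082368000000000000)), (.ofNat (nat_lit 143532976110668083706481082368000000000000)), (.ofNat (nat_lit 7809351234675899546984482917580800000000))⟩,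
    ⟨nat_lit 2, nat_lit 0, nat_lit 1, (.ofNat (nat_lit 16)), (.negSucc (nat_lit 549755813887999)), (.ofNat (nat_lit 120279437284502097135725017355140140065026473984000000)), (.ofNat (nat_lit 0)), (.ofNat (nat_lit 0)), (.negSucc (nat_lit 549755813888031)), (.negSucc (nat_lit 549755813887967)), (.ofNat (nat_lit 143532976110668083706481082368000000000000)), (.negSucc (nat_lit 143532976110668083706481082367999999999999)), (.negSucc (nat_lit 143532976110668083706481082367999999999999)), (.ofNat (nat_lit 143532976110668083706481082368000000000000)), (.ofNat (nat_lit 56829110483022848354518128572497920000000))⟩,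
    ⟨nat_lit 0, nat_lit 9, nat_lit 2, (.ofNat (nat_lit 16)), (.negSucc (nat_lit 2748779069439)), (.ofNat (nat_lit 78633827098264259249030135059361671435215106473984000000)), (.ofNat (nat_lit 0)), (.negSucc (nat_lit 3123958353894271017833396587317137364788183039999999999)), (.negSucc (nat_lit 2748779069471)), (.negSucc (nat_lit 2748779069407)), (.ofNat (nat_lit 143532976110668083706481082368000000000000)), (.ofNat (nat_lit 143532976110668083706481082368000000000000)), (.ofNat (nat_lit 143532976110668083706481082368000000000000)), (.ofNat (nat_lit 143532976110668083706481082368000000000000)), (.ofNat (nat_lit 7742700317685121293513677340672000000000))⟩,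
    ⟨nat_lit 0, nat_lit 0, nat_lit 3, (.ofNat (nat_lit 16)), (.negSucc (nat_lit 274877906943999)), (.ofNat (nat_lit 39574323488028098655876634586202643303457026473984000000)), (.ofNat (nat_lit 0)), (.negSucc (nat_lit 3978580691623917447850071037285432330152837119999999999)), (.negSucc (nat_lit 274877906944031)), (.negSucc (nat_lit 274877906943967)), (.ofNat (nat_lit 143532976110668083706481082368000000000000)), (.ofNat (nat_lit 143532976110668083706481082368000000000000)), (.ofNat (nat_lit 143532976110668083706481082368000000000000)), (.ofNat (nat_lit 143532976110668083706481082368000000000000)), (.ofNat (nat_lit 64005184297744373035052068629381120000000))⟩,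
    ⟨nat_lit 1, nat_lit 11, nat_lit 6, (.ofNat (nat_lit 16)), (.ofNat (nat_lit 1911844562272256)), (.ofNat (nat_lit 120279437284502097135725017355140140065026473984000000)), (.ofNat (nat_lit 0)), (.ofNat (nat_lit 4207548330872934470017994063845291964913156096000000000)), (.ofNat (nat_lit 1911844562272224)), (.ofNat (nat_lit 1911844562272288)), (.ofNat (nat_lit 143532976110668083706481082368000000000000)), (.negSucc (nat_lit 143532976110668083706481082367999999999999)), (.negSucc (nat_lit 143532976110668083706481082367999999999999)), (.ofNat (nat_lit 143532976110668083706481082368000000000000)), (.ofNat (nat_lit 19632057293475899133694851919380480000000))⟩,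
    ⟨nat_lit 0, nat_lit 10, nat_lit 4, (.ofNat (nat_lit 16)), (.ofNat (nat_lit 1102260406845440)), (.ofNat (nat_lit 116322302677737079861767388925003248832045314473984000000)), (.ofNat (nat_lit 0)), (.negSucc (nat_lit 928217902073862120835556923825846918431375359999999999)), (.ofNat (nat_lit 1102260406845408)), (.ofNat (nat_lit 1102260406845472)), (.negSucc (nat_lit 143532976110668083706481082367999999999999)), (.negSucc (nat_lit 143532976110668083706481082367999999999999)), (.negSucc (nat_lit 143532976110668083706481082367999999999999)), (.negSucc (nat_lit 143532976110668083706481082367999999999999)), (.ofNat (nat_lit 1496189338241233511844673486848000000000))⟩,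
    ⟨nat_lit 0, nat_lit 4, nat_lit 5, (.ofNat (nat_lit 16)), (.ofNat (nat_lit 1146034713526272)), (.ofNat (nat_lit 110039246162656162109787899076164283953275138473984000000)), (.ofNat (nat_lit 0)), (.negSucc (nat_lit 960965227546243539384756351835648951874224127999999999)), (.ofNat (nat_lit 1146034713526240)), (.ofNat (nat_lit 1146034713526304)), (.negSucc (nat_lit 143532976110668083706481082367999999999999)), (.negSucc (nat_lit 143532976110668083706481082367999999999999)), (.negSucc (nat_lit 143532976110668083706481082367999999999999)), (.negSucc (nat_lit 143532976110668083706481082367999999999999)), (.ofNat (nat_lit 1836568385209482370152172565299200000000))⟩,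
    ⟨nat_lit 0, nat_lit 5, nat_lit 6, (.ofNat (nat_lit 16)), (.ofNat (nat_lit 1364837527453696)), (.ofNat (nat_lit 78633827098264259249030135059361671435215106473984000000)), (.ofNat (nat_lit 0)), (.negSucc (nat_lit 1161888392873233506858617138338098769799046758399999999)), (.ofNat (nat_lit 1364837527453664)), (.ofNat (nat_lit 1364837527453728)), (.negSucc (nat_lit 143532976110668083706481082367999999999999)), (.negSucc (nat_lit 143532976110668083706481082367999999999999)), (.negSucc (nat_lit 143532976110668083706481082367999999999999)), (.negSucc (nat_lit 143532976110668083706481082367999999999999)), (.ofNat (nat_lit 23305194063894863873999197049978880000000))⟩,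
    ⟨nat_lit 0, nat_lit 7, nat_lit 8, (.ofNat (nat_lit 16)), (.ofNat (nat_lit 494780232499200)), (.ofNat (nat_lit 150045646830110169020351181378975652160954626473984000000)), (.ofNat (nat_lit 0)), (.negSucc (nat_lit 1204719660138605640194595202652848516182835199999999999)), (.ofNat (nat_lit 494780232499168)), (.ofNat (nat_lit 494780232499232)), (.ofNat (nat_lit 143532976110668083706481082368000000000000)), (.ofNat (nat_lit 143532976110668083706481082368000000000000)), (.ofNat (nat_lit 143532976110668083706481082368000000000000)), (.ofNat (nat_lit 143532976110668083706481082368000000000000)), (.ofNat (nat_lit 9718349053945271497403887150694400000000))⟩,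
    ⟨nat_lit 0, nat_lit 3, nat_lit 9, (.ofNat (nat_lit 16)), (.negSucc (nat_lit 54975581388799)), (.ofNat (nat_lit 71137558728622975902869362241280645834170626473984000000)), (.ofNat (nat_lit 0)), (.negSucc (nat_lit 3306865360890606260318718548581434007329177599999999999)), (.negSucc (nat_lit 54975581388831)), (.negSucc (nat_lit 54975581388767)), (.ofNat (nat_lit 143532976110668083706481082368000000000000)), (.ofNat (nat_lit 143532976110668083706481082368000000000000)), (.ofNat (nat_lit 143532976110668083706481082368000000000000)), (.ofNat (nat_lit 143532976110668083706481082368000000000000)), (.ofNat (nat_lit 7004334896013087161260695355392000000000))⟩,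
    ⟨nat_lit 0, nat_lit 8, nat_lit 10, (.ofNat (nat_lit 16)), (.ofNat (nat_lit 681044374192128)), (.ofNat (nat_lit 176780693429995298638467990225565941492048130473984000000)), (.ofNat (nat_lit 0)), (.negSucc (nat_lit 680036879528456886021305285520569437784113151999999999)), (.ofNat (nat_lit 681044374192096)), (.ofNat (nat_lit 681044374192160)), (.ofNat (nat_lit 143532976110668083706481082368000000000000)), (.negSucc (nat_lit 143532976110668083706481082367999999999999)), (.negSucc (nat_lit 143532976110668083706481082367999999999999)), (.ofNat (nat_lit 143532976110668083706481082368000000000000)), (.ofNat (nat_lit 12445902040402822122185353592832000000000))⟩,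
    ⟨nat_lit 0, nat_lit 1, nat_lit 11, (.ofNat (nat_lit 16)), (.ofNat (nat_lit 681044374192128)), (.negSucc (nat_lit 176540134555426294444196540190855661211918077526015999999)), (.ofNat (nat_lit 0)), (.negSucc (nat_lit 656544803199638960949319611955647788668157951999999999)), (.ofNat (nat_lit 681044374192096)), (.ofNat (nat_lit 681044374192160)), (.negSucc (nat_lit 143532976110668083706481082367999999999999)), (.ofNat (nat_lit 143532976110668083706481082368000000000000)), (.negSucc (nat_lit 143532976110668083706481082367999999999999)), (.ofNat (nat_lit 143532976110668083706481082368000000000000)), (.ofNat (nat_lit 10037669477622312750109025107968000000000))⟩]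
  es := [
    ⟨nat_lit 1, nat_lit 3, (.negSucc (nat_lit 549755813887999)), (.negSucc (nat_lit 274877906943999)), (.negSucc (nat_lit 549755813887967)), (.negSucc (nat_lit 274877906944031)), (.ofNat (nat_lit 143532976110668083706481082368000000000000)), (.negSucc (nat_lit 14473992238432101468243021508116479999999)), (.negSucc (nat_lit 7957161383247834895700142074570864660305674239999999999))⟩,
    ⟨nat_lit 1, nat_lit 11, (.negSucc (nat_lit 549755813887999)), (.ofNat (nat_lit 681044374192128)), (.negSucc (nat_lit 549755813887967)), (.ofNat (nat_lit 681044374192096)), (.negSucc (nat_lit 143532976110668083706481082367999999999999)), (.negSucc (nat_lit 533429235352778759226978729983999999999)), (.negSucc (nat_lit 293255823433020389581226481429618509217791999999999999))⟩,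
    ⟨nat_lit 2, nat_lit 0, (.negSucc (nat_lit 2748779069439)), (.ofNat (nat_lit 288621802291200)), (.negSucc (nat_lit 2748779069407)), (.ofNat (nat_lit 288621802291168)), (.ofNat (nat_lit 143532976110668083706481082368000000000000)), (.ofNat (nat_lit 3871350158842560646756838670336000000000)), (.negSucc (nat_lit 3113316867607171367791337559762934967776051199999999999))⟩,
    ⟨nat_lit 3, nat_lit 9, (.negSucc (nat_lit 274877906943999)), (.negSucc (nat_lit 54975581388799)), (.negSucc (nat_lit 274877906943967)), (.negSucc (nat_lit 54975581388831)), (.ofNat (nat_lit 143532976110668083706481082368000000000000)), (.ofNat (nat_lit 3054607672007983581039991298457600000000)), (.negSucc (nat_lit 3138936528207278463435880426405434426623262719999999999))⟩,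
    ⟨nat_lit 5, nat_lit 6, (.ofNat (nat_lit 1102260406845440)), (.ofNat (nat_lit 1146034713526272)), (.ofNat (nat_lit 1102260406845472)), (.ofNat (nat_lit 1146034713526240)), (.negSucc (nat_lit 143532976110668083706481082367999999999999)), (.negSucc (nat_lit 748094669120616755922336743423999999999)), (.negSucc (nat_lit 103622767730066275420864890423610471926988799999999999))⟩,
    ⟨nat_lit 6, nat_lit 7, (.ofNat (nat_lit 1146034713526272)), (.ofNat (nat_lit 1364837527453696)), (.ofNat (nat_lit 1146034713526304)), (.ofNat (nat_lit 1364837527453664)), (.negSucc (nat_lit 143532976110668083706481082367999999999999)), (.negSucc (nat_lit 918284192604741185076086282649599999999)), (.ofNat (nat_lit 91420334061235005703678427216284343833146163200000000))⟩,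
    ⟨nat_lit 7, nat_lit 4, (.ofNat (nat_lit 1364837527453696)), (.ofNat (nat_lit 1911844562272256)), (.ofNat (nat_lit 1364837527453728)), (.ofNat (nat_lit 1911844562272224)), (.negSucc (nat_lit 143532976110668083706481082367999999999999)), (.ofNat (nat_lit 9816028646737949566847425959690240000000)), (.negSucc (nat_lit 14559172660501706143635799938157737385643149885439999999))⟩,
    ⟨nat_lit 0, nat_lit 8, (.ofNat (nat_lit 288621802291200)), (.ofNat (nat_lit 494780232499200)), (.ofNat (nat_lit 288621802291232)), (.ofNat (nat_lit 494780232499168)), (.ofNat (nat_lit 143532976110668083706481082368000000000000)), (.ofNat (nat_lit 3838024700347171520021435881881600000000)), (.negSucc (nat_lit 3103698413714051575827901916058051952949329919999999999))⟩,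
    ⟨nat_lit 8, nat_lit 10, (.ofNat (nat_lit 494780232499200)), (.ofNat (nat_lit 681044374192128)), (.ofNat (nat_lit 494780232499232)), (.ofNat (nat_lit 681044374192096)), (.ofNat (nat_lit 143532976110668083706481082368000000000000)), (.ofNat (nat_lit 2816874873721707291340928188416000000000)), (.negSucc (nat_lit 2598453665079786614202227522650048060352102399999999999))⟩,
    ⟨nat_lit 9, nat_lit 2, (.negSucc (nat_lit 54975581388799)), (.negSucc (nat_lit 2748779069439)), (.negSucc (nat_lit 54975581388767)), (.negSucc (nat_lit 2748779069471)), (.ofNat (nat_lit 143532976110668083706481082368000000000000)), (.ofNat (nat_lit 3502167448006543580630347677696000000000)), (.negSucc (nat_lit 3114331669315516531386800694619016488864972799999999999))⟩,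
    ⟨nat_lit 10, nat_lit 5, (.ofNat (nat_lit 681044374192128)), (.ofNat (nat_lit 1102260406845440)), (.ofNat (nat_lit 681044374192160)), (.ofNat (nat_lit 1102260406845408)), (.negSucc (nat_lit 143532976110668083706481082367999999999999)), (.negSucc (nat_lit 589201272757996478410820419583999999999)), (.negSucc (nat_lit 278764667449781858755355230634452711794278399999999999))⟩,
    ⟨nat_lit 11, nat_lit 4, (.ofNat (nat_lit 681044374192128)), (.ofNat (nat_lit 1911844562272256)), (.ofNat (nat_lit 681044374192160)), (.ofNat (nat_lit 1911844562272224)), (.ofNat (nat_lit 143532976110668083706481082368000000000000)), (.ofNat (nat_lit 3951976268105598856600555094016000000000)), (.negSucc (nat_lit 3348016007533757996576552921133237103755263999999999999))⟩]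

theorem ok296 : stOK 11 11 S296 = true := by decide +kernel

def S297 : SD where
  vs := [
    ⟨nat_lit 0, nat_lit 2, nat_lit 7, (.ofNat (nat_lit 16)), (.ofNat (nat_lit 288621802291200)), (.ofNat (nat_lit 120453513594787115644254220481938628712816898473984000000)), (.ofNat (nat_lit 0)), (.negSucc (nat_lit 1600197265355957041278720401396075593727999999999999)), (.ofNat (nat_lit 288621802291168)), (.ofNat (nat_lit 288621802291232)), (.ofNat (nat_lit 143531067427475122694729666396160000000000)), (.ofNat (nat_lit 143531067427475122694729666396160000000000)), (.ofNat (nat_lit 143531067427475122694729666396160000000000)), (.ofNat (nat_lit 143531067427475122694729666396160000000000)), (.ofNat (nat_lit 3817366385922023502831943680000000000))⟩,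
    ⟨nat_lit 2, nat_lit 0, nat_lit 1, (.ofNat (nat_lit 16)), (.negSucc (nat_lit 549755813887999)), (.ofNat (nat_lit 120279437284502097135725017355140140065026473984000000)), (.ofNat (nat_lit 0)), (.ofNat (nat_lit 0)), (.negSucc (nat_lit 549755813888031)), (.negSucc (nat_lit 549755813887967)), (.ofNat (nat_lit 143531067427475122694729666396160000000000)), (.negSucc (nat_lit 143531067427475122694729666396159999999999)), (.negSucc (nat_lit 143531067427475122694729666396159999999999)), (.ofNat (nat_lit 143531067427475122694729666396160000000000)), (.ofNat (nat_lit 11452099157766070508495831040000000000))⟩,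
    ⟨nat_lit 0, nat_lit 9, nat_lit 2, (.ofNat (nat_lit 16)), (.negSucc (nat_lit 2748779069439)), (.ofNat (nat_lit 78632783035130469624599923697526006454745756073984000000)), (.ofNat (nat_lit 0)), (.negSucc (nat_lit 1044063133789624430211361835664980469350399999999999)), (.negSucc (nat_lit 2748779069471)), (.negSucc (nat_lit 2748779069407)), (.ofNat (nat_lit 143531067427475122694729666396160000000000)), (.ofNat (nat_lit 143531067427475122694729666396160000000000)), (.ofNat (nat_lit 143531067427475122694729666396160000000000)), (.ofNat (nat_lit 143531067427475122694729666396160000000000)), (.ofNat (nat_lit 3817366385922023502831943680000000000))⟩,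
    ⟨nat_lit 0, nat_lit 0, nat_lit 3, (.ofNat (nat_lit 16)), (.negSucc (nat_lit 274877906943999)), (.ofNat (nat_lit 39573798833186998342092608776234972459000066473984000000)), (.ofNat (nat_lit 0)), (.negSucc (nat_lit 524654841100313784025809967670844456959999999999999)), (.negSucc (nat_lit 274877906944031)), (.negSucc (nat_lit 274877906943967)), (.ofNat (nat_lit 143531067427475122694729666396160000000000)), (.ofNat (nat_lit 143531067427475122694729666396160000000000)), (.ofNat (nat_lit 143531067427475122694729666396160000000000)), (.ofNat (nat_lit 143531067427475122694729666396160000000000)), (.ofNat (nat_lit 3817366385922023502831943680000000000))⟩,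
    ⟨nat_lit 1, nat_lit 11, nat_lit 6, (.ofNat (nat_lit 16)), (.ofNat (nat_lit 1911844562272256)), (.ofNat (nat_lit 120279437284502097135725017355140140065026473984000000)), (.ofNat (nat_lit 0)), (.ofNat (nat_lit 0)), (.ofNat (nat_lit 1911844562272224)), (.ofNat (nat_lit 1911844562272288)), (.ofNat (nat_lit 143531067427475122694729666396160000000000)), (.negSucc (nat_lit 143531067427475122694729666396159999999999)), (.negSucc (nat_lit 143531067427475122694729666396159999999999)), (.ofNat (nat_lit 143531067427475122694729666396160000000000)), (.ofNat (nat_lit 11452099157766070508495831040000000000))⟩,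
    ⟨nat_lit 0, nat_lit 10, nat_lit 4, (.ofNat (nat_lit 16)), (.ofNat (nat_lit 1102260406845440)), (.ofNat (nat_lit 116320757438066329162594986908195966277408453033984000000)), (.ofNat (nat_lit 0)), (.negSucc (nat_lit 1545239670750699172402016807282554636861439999999999)), (.ofNat (nat_lit 1102260406845408)), (.ofNat (nat_lit 1102260406845472)), (.negSucc (nat_lit 143531067427475122694729666396159999999999)), (.negSucc (nat_lit 143531067427475122694729666396159999999999)), (.negSucc (nat_lit 143531067427475122694729666396159999999999)), (.negSucc (nat_lit 143531067427475122694729666396159999999999)), (.ofNat (nat_lit 3817366385922023502831943680000000000))⟩,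
    ⟨nat_lit 0, nat_lit 4, nat_lit 5, (.ofNat (nat_lit 16)), (.ofNat (nat_lit 1146034713526272)), (.ofNat (nat_lit 110037784474268856635585603169594352980618047913984000000)), (.ofNat (nat_lit 0)), (.negSucc (nat_lit 1461688387305474202295906569930972657090559999999999)), (.ofNat (nat_lit 1146034713526240)), (.ofNat (nat_lit 1146034713526304)), (.negSucc (nat_lit 143531067427475122694729666396159999999999)), (.negSucc (nat_lit 143531067427475122694729666396159999999999)), (.negSucc (nat_lit 143531067427475122694729666396159999999999)), (.negSucc (nat_lit 143531067427475122694729666396159999999999)), (.ofNat (nat_lit 3817366385922023502831943680000000000))⟩,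
    ⟨nat_lit 0, nat_lit 5, nat_lit 6, (.ofNat (nat_lit 16)), (.ofNat (nat_lit 1364837527453696)), (.ofNat (nat_lit 78632783035130469624599923697526006454745756073984000000)), (.ofNat (nat_lit 0)), (.negSucc (nat_lit 1044063133789624430211361835664980469350399999999999)), (.ofNat (nat_lit 1364837527453664)), (.ofNat (nat_lit 1364837527453728)), (.negSucc (nat_lit 143531067427475122694729666396159999999999)), (.negSucc (nat_lit 143531067427475122694729666396159999999999)), (.negSucc (nat_lit 143531067427475122694729666396159999999999)), (.negSucc (nat_lit 143531067427475122694729666396159999999999)), (.ofNat (nat_lit 3817366385922023502831943680000000000))⟩,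
    ⟨nat_lit 0, nat_lit 7, nat_lit 8, (.ofNat (nat_lit 16)), (.ofNat (nat_lit 494780232499200)), (.ofNat (nat_lit 150043653141713987827971883301098502952018178473984000000)), (.ofNat (nat_lit 0)), (.negSucc (nat_lit 1993688396181192379298077877149208936447999999999999)), (.ofNat (nat_lit 494780232499168)), (.ofNat (nat_lit 494780232499232)), (.ofNat (nat_lit 143531067427475122694729666396160000000000)), (.ofNat (nat_lit 143531067427475122694729666396160000000000)), (.ofNat (nat_lit 143531067427475122694729666396160000000000)), (.ofNat (nat_lit 143531067427475122694729666396160000000000)), (.ofNat (nat_lit 3817366385922023502831943680000000000))⟩,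
    ⟨nat_lit 0, nat_lit 3, nat_lit 9, (.ofNat (nat_lit 16)), (.negSucc (nat_lit 54975581388799)), (.ofNat (nat_lit 71136614349908995338058115783338838314148098473984000000)), (.ofNat (nat_lit 0)), (.negSucc (nat_lit 944378713980564811246457941807520022527999999999999)), (.negSucc (nat_lit 54975581388831)), (.negSucc (nat_lit 54975581388767)), (.ofNat (nat_lit 143531067427475122694729666396160000000000)), (.ofNat (nat_lit 143531067427475122694729666396160000000000)), (.ofNat (nat_lit 143531067427475122694729666396160000000000)), (.ofNat (nat_lit 143531067427475122694729666396160000000000)), (.ofNat (nat_lit 3817366385922023502831943680000000000))⟩,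
    ⟨nat_lit 0, nat_lit 8, nat_lit 10, (.ofNat (nat_lit 16)), (.ofNat (nat_lit 681044374192128)), (.ofNat (nat_lit 176778344222362416845960791658209449327136534953984000000)), (.ofNat (nat_lit 0)), (.negSucc (nat_lit 2349207632881792507198567356492164911595519999999999)), (.ofNat (nat_lit 681044374192096)), (.ofNat (nat_lit 681044374192160)), (.ofNat (nat_lit 143531067427475122694729666396160000000000)), (.negSucc (nat_lit 143531067427475122694729666396159999999999)), (.negSucc (nat_lit 143531067427475122694729666396159999999999)), (.ofNat (nat_lit 143531067427475122694729666396160000000000)), (.ofNat (nat_lit 11452099157766070508495831040000000000))⟩,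
    ⟨nat_lit 0, nat_lit 1, nat_lit 11, (.ofNat (nat_lit 16)), (.ofNat (nat_lit 681044374192128)), (.negSucc (nat_lit 176537785347793412651689341623499169047006482006015999999)), (.ofNat (nat_lit 0)), (.ofNat (nat_lit 2349207632881792507198567356492164911595520000000000)), (.ofNat (nat_lit 681044374192096)), (.ofNat (nat_lit 681044374192160)), (.negSucc (nat_lit 143531067427475122694729666396159999999999)), (.ofNat (nat_lit 143531067427475122694729666396160000000000)), (.negSucc (nat_lit 143531067427475122694729666396159999999999)), (.ofNat (nat_lit 143531067427475122694729666396160000000000)), (.ofNat (nat_lit 11452099157766070508495831040000000000))⟩]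
  es := [
    ⟨nat_lit 1, nat_lit 3, (.negSucc (nat_lit 549755813887999)), (.negSucc (nat_lit 274877906943999)), (.negSucc (nat_lit 549755813887967)), (.negSucc (nat_lit 274877906944031)), (.ofNat (nat_lit 143531067427475122694729666396160000000000)), (.negSucc (nat_lit 1908683192961011751415971839999999999)), (.negSucc (nat_lit 1049309682200627568051619935341688913919999999999999))⟩,
    ⟨nat_lit 1, nat_lit 11, (.negSucc (nat_lit 549755813887999)), (.ofNat (nat_lit 681044374192128)), (.negSucc (nat_lit 549755813887967)), (.ofNat (nat_lit 681044374192096)), (.negSucc (nat_lit 143531067427475122694729666396159999999999)), (.ofNat (nat_lit 1908683192961011751415971840000000000)), (.ofNat (nat_lit 1049309682200627568051619935341688913920000000000000))⟩,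
    ⟨nat_lit 2, nat_lit 0, (.negSucc (nat_lit 2748779069439)), (.ofNat (nat_lit 288621802291200)), (.negSucc (nat_lit 2748779069407)), (.ofNat (nat_lit 288621802291168)), (.ofNat (nat_lit 143531067427475122694729666396160000000000)), (.negSucc (nat_lit 1908683192961011751415971839999999999)), (.negSucc (nat_lit 1049309682200627568051619935341688913919999999999999))⟩,
    ⟨nat_lit 3, nat_lit 9, (.negSucc (nat_lit 274877906943999)), (.negSucc (nat_lit 54975581388799)), (.negSucc (nat_lit 274877906943967)), (.negSucc (nat_lit 54975581388831)), (.ofNat (nat_lit 143531067427475122694729666396160000000000)), (.negSucc (nat_lit 1908683192961011751415971839999999999)), (.negSucc (nat_lit 1049309682200627568051619935341688913919999999999999))⟩,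
    ⟨nat_lit 5, nat_lit 6, (.ofNat (nat_lit 1102260406845440)), (.ofNat (nat_lit 1146034713526272)), (.ofNat (nat_lit 1102260406845472)), (.ofNat (nat_lit 1146034713526240)), (.negSucc (nat_lit 143531067427475122694729666396159999999999)), (.ofNat (nat_lit 1908683192961011751415971840000000000)), (.negSucc (nat_lit 3649105583562957446345514777642640909271039999999999))⟩,
    ⟨nat_lit 6, nat_lit 7, (.ofNat (nat_lit 1146034713526272)), (.ofNat (nat_lit 1364837527453696)), (.ofNat (nat_lit 1146034713526304)), (.ofNat (nat_lit 1364837527453664)), (.negSucc (nat_lit 143531067427475122694729666396159999999999)), (.ofNat (nat_lit 1908683192961011751415971840000000000)), (.negSucc (nat_lit 3649105583562957446345514777642640909271039999999999))⟩,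
    ⟨nat_lit 7, nat_lit 4, (.ofNat (nat_lit 1364837527453696)), (.ofNat (nat_lit 1911844562272256)), (.ofNat (nat_lit 1364837527453728)), (.ofNat (nat_lit 1911844562272224)), (.negSucc (nat_lit 143531067427475122694729666396159999999999)), (.ofNat (nat_lit 1908683192961011751415971840000000000)), (.negSucc (nat_lit 3649105583562957446345514777642640909271039999999999))⟩,
    ⟨nat_lit 0, nat_lit 8, (.ofNat (nat_lit 288621802291200)), (.ofNat (nat_lit 494780232499200)), (.ofNat (nat_lit 288621802291232)), (.ofNat (nat_lit 494780232499168)), (.ofNat (nat_lit 143531067427475122694729666396160000000000)), (.negSucc (nat_lit 1908683192961011751415971839999999999)), (.negSucc (nat_lit 1049309682200627568051619935341688913919999999999999))⟩,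
    ⟨nat_lit 8, nat_lit 10, (.ofNat (nat_lit 494780232499200)), (.ofNat (nat_lit 681044374192128)), (.ofNat (nat_lit 494780232499232)), (.ofNat (nat_lit 681044374192096)), (.ofNat (nat_lit 143531067427475122694729666396160000000000)), (.negSucc (nat_lit 1908683192961011751415971839999999999)), (.negSucc (nat_lit 1049309682200627568051619935341688913919999999999999))⟩,
    ⟨nat_lit 9, nat_lit 2, (.negSucc (nat_lit 54975581388799)), (.negSucc (nat_lit 2748779069439)), (.negSucc (nat_lit 54975581388767)), (.negSucc (nat_lit 2748779069471)), (.ofNat (nat_lit 143531067427475122694729666396160000000000)), (.negSucc (nat_lit 1908683192961011751415971839999999999)), (.negSucc (nat_lit 1049309682200627568051619935341688913919999999999999))⟩,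
    ⟨nat_lit 10, nat_lit 5, (.ofNat (nat_lit 681044374192128)), (.ofNat (nat_lit 1102260406845440)), (.ofNat (nat_lit 681044374192160)), (.ofNat (nat_lit 1102260406845408)), (.negSucc (nat_lit 143531067427475122694729666396159999999999)), (.ofNat (nat_lit 1908683192961011751415971840000000000)), (.negSucc (nat_lit 3649105583562957446345514777642640909271039999999999))⟩,
    ⟨nat_lit 11, nat_lit 4, (.ofNat (nat_lit 681044374192128)), (.ofNat (nat_lit 1911844562272256)), (.ofNat (nat_lit 681044374192160)), (.ofNat (nat_lit 1911844562272224)), (.ofNat (nat_lit 143531067427475122694729666396160000000000)), (.negSucc (nat_lit 1908683192961011751415971839999999999)), (.ofNat (nat_lit 3649105583562957446345514777642640909271040000000000))⟩]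

theorem ok297 : stOK 11 11 S297 = true := by decide +kernel

def S298 : SD where
  vs := [
    ⟨nat_lit 0, nat_lit 2, nat_lit 6, (.ofNat (nat_lit 16)), (.ofNat (nat_lit 288621802291200)), (.ofNat (nat_lit 120453513594787115644254220481938628712816898473984000000)), (.ofNat (nat_lit 0)), (.negSucc (nat_lit 1600197265355957041278720401396075593727999999999999)), (.ofNat (nat_lit 288621802291168)), (.ofNat (nat_lit 288621802291232)), (.ofNat (nat_lit 143531067427475122694729666396160000000000)), (.ofNat (nat_lit 143531067427475122694729666396160000000000)), (.ofNat (nat_lit 143531067427475122694729666396160000000000)), (.ofNat (nat_lit 143531067427475122694729666396160000000000)), (.ofNat (nat_lit 3817366385922023502831943680000000000))⟩,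
    ⟨nat_lit 2, nat_lit 0, nat_lit 1, (.ofNat (nat_lit 16)), (.negSucc (nat_lit 549755813887999)), (.ofNat (nat_lit 120279437284502097135725017355140140065026473984000000)), (.ofNat (nat_lit 0)), (.ofNat (nat_lit 0)), (.negSucc (nat_lit 549755813888031)), (.negSucc (nat_lit 549755813887967)), (.ofNat (nat_lit 143531067427475122694729666396160000000000)), (.negSucc (nat_lit 143531067427475122694729666396159999999999)), (.negSucc (nat_lit 143531067427475122694729666396159999999999)), (.ofNat (nat_lit 143531067427475122694729666396160000000000)), (.ofNat (nat_lit 11452099157766070508495831040000000000))⟩,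
    ⟨nat_lit 0, nat_lit 8, nat_lit 2, (.ofNat (nat_lit 16)), (.negSucc (nat_lit 2748779069439)), (.ofNat (nat_lit 78632783035130469624599923697526006454745756073984000000)), (.ofNat (nat_lit 0)), (.negSucc (nat_lit 1044063133789624430211361835664980469350399999999999)), (.negSucc (nat_lit 2748779069471)), (.negSucc (nat_lit 2748779069407)), (.ofNat (nat_lit 143531067427475122694729666396160000000000)), (.ofNat (nat_lit 143531067427475122694729666396160000000000)), (.ofNat (nat_lit 143531067427475122694729666396160000000000)), (.ofNat (nat_lit 143531067427475122694729666396160000000000)), (.ofNat (nat_lit 3817366385922023502831943680000000000))⟩,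
    ⟨nat_lit 1, nat_lit 10, nat_lit 5, (.ofNat (nat_lit 16)), (.ofNat (nat_lit 1911844562272256)), (.ofNat (nat_lit 120279437284502097135725017355140140065026473984000000)), (.ofNat (nat_lit 0)), (.ofNat (nat_lit 0)), (.ofNat (nat_lit 1911844562272224)), (.ofNat (nat_lit 1911844562272288)), (.ofNat (nat_lit 143531067427475122694729666396160000000000)), (.negSucc (nat_lit 143531067427475122694729666396159999999999)), (.negSucc (nat_lit 143531067427475122694729666396159999999999)), (.ofNat (nat_lit 143531067427475122694729666396160000000000)), (.ofNat (nat_lit 11452099157766070508495831040000000000))⟩,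
    ⟨nat_lit 0, nat_lit 9, nat_lit 3, (.ofNat (nat_lit 16)), (.ofNat (nat_lit 1102260406845440)), (.ofNat (nat_lit 116320757438066329162594986908195966277408453033984000000)), (.ofNat (nat_lit 0)), (.negSucc (nat_lit 1545239670750699172402016807282554636861439999999999)), (.ofNat (nat_lit 1102260406845408)), (.ofNat (nat_lit 1102260406845472)), (.negSucc (nat_lit 143531067427475122694729666396159999999999)), (.negSucc (nat_lit 143531067427475122694729666396159999999999)), (.negSucc (nat_lit 143531067427475122694729666396159999999999)), (.negSucc (nat_lit 143531067427475122694729666396159999999999)), (.ofNat (nat_lit 3817366385922023502831943680000000000))⟩,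
    ⟨nat_lit 0, nat_lit 3, nat_lit 4, (.ofNat (nat_lit 16)), (.ofNat (nat_lit 1146034713526272)), (.ofNat (nat_lit 110037784474268856635585603169594352980618047913984000000)), (.ofNat (nat_lit 0)), (.negSucc (nat_lit 1461688387305474202295906569930972657090559999999999)), (.ofNat (nat_lit 1146034713526240)), (.ofNat (nat_lit 1146034713526304)), (.negSucc (nat_lit 143531067427475122694729666396159999999999)), (.negSucc (nat_lit 143531067427475122694729666396159999999999)), (.negSucc (nat_lit 143531067427475122694729666396159999999999)), (.negSucc (nat_lit 143531067427475122694729666396159999999999)), (.ofNat (nat_lit 3817366385922023502831943680000000000))⟩,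
    ⟨nat_lit 0, nat_lit 4, nat_lit 5, (.ofNat (nat_lit 16)), (.ofNat (nat_lit 1364837527453696)), (.ofNat (nat_lit 78632783035130469624599923697526006454745756073984000000)), (.ofNat (nat_lit 0)), (.negSucc (nat_lit 1044063133789624430211361835664980469350399999999999)), (.ofNat (nat_lit 1364837527453664)), (.ofNat (nat_lit 1364837527453728)), (.negSucc (nat_lit 143531067427475122694729666396159999999999)), (.negSucc (nat_lit 143531067427475122694729666396159999999999)), (.negSucc (nat_lit 143531067427475122694729666396159999999999)), (.negSucc (nat_lit 143531067427475122694729666396159999999999)), (.ofNat (nat_lit 3817366385922023502831943680000000000))⟩,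
    ⟨nat_lit 0, nat_lit 6, nat_lit 7, (.ofNat (nat_lit 16)), (.ofNat (nat_lit 494780232499200)), (.ofNat (nat_lit 150043653141713987827971883301098502952018178473984000000)), (.ofNat (nat_lit 0)), (.negSucc (nat_lit 1993688396181192379298077877149208936447999999999999)), (.ofNat (nat_lit 494780232499168)), (.ofNat (nat_lit 494780232499232)), (.ofNat (nat_lit 143531067427475122694729666396160000000000)), (.ofNat (nat_lit 143531067427475122694729666396160000000000)), (.ofNat (nat_lit 143531067427475122694729666396160000000000)), (.ofNat (nat_lit 143531067427475122694729666396160000000000)), (.ofNat (nat_lit 3817366385922023502831943680000000000))⟩,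
    ⟨nat_lit 0, nat_lit 0, nat_lit 8, (.ofNat (nat_lit 16)), (.negSucc (nat_lit 54975581388799)), (.ofNat (nat_lit 71136614349908995338058115783338838314148098473984000000)), (.ofNat (nat_lit 0)), (.negSucc (nat_lit 944378713980564811246457941807520022527999999999999)), (.negSucc (nat_lit 54975581388831)), (.negSucc (nat_lit 54975581388767)), (.ofNat (nat_lit 143531067427475122694729666396160000000000)), (.ofNat (nat_lit 143531067427475122694729666396160000000000)), (.ofNat (nat_lit 143531067427475122694729666396160000000000)), (.ofNat (nat_lit 143531067427475122694729666396160000000000)), (.ofNat (nat_lit 3817366385922023502831943680000000000))⟩,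
    ⟨nat_lit 0, nat_lit 7, nat_lit 9, (.ofNat (nat_lit 16)), (.ofNat (nat_lit 681044374192128)), (.ofNat (nat_lit 176778344222362416845960791658209449327136534953984000000)), (.ofNat (nat_lit 0)), (.negSucc (nat_lit 2349207632881792507198567356492164911595519999999999)), (.ofNat (nat_lit 681044374192096)), (.ofNat (nat_lit 681044374192160)), (.ofNat (nat_lit 143531067427475122694729666396160000000000)), (.negSucc (nat_lit 143531067427475122694729666396159999999999)), (.negSucc (nat_lit 143531067427475122694729666396159999999999)), (.ofNat (nat_lit 143531067427475122694729666396160000000000)), (.ofNat (nat_lit 11452099157766070508495831040000000000))⟩,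
    ⟨nat_lit 0, nat_lit 1, nat_lit 10, (.ofNat (nat_lit 16)), (.ofNat (nat_lit 681044374192128)), (.negSucc (nat_lit 176537785347793412651689341623499169047006482006015999999)), (.ofNat (nat_lit 0)), (.ofNat (nat_lit 2349207632881792507198567356492164911595520000000000)), (.ofNat (nat_lit 681044374192096)), (.ofNat (nat_lit 681044374192160)), (.negSucc (nat_lit 143531067427475122694729666396159999999999)), (.ofNat (nat_lit 143531067427475122694729666396160000000000)), (.negSucc (nat_lit 143531067427475122694729666396159999999999)), (.ofNat (nat_lit 143531067427475122694729666396160000000000)), (.ofNat (nat_lit 11452099157766070508495831040000000000))⟩]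
  es := [
    ⟨nat_lit 1, nat_lit 8, (.negSucc (nat_lit 549755813887999)), (.negSucc (nat_lit 54975581388799)), (.negSucc (nat_lit 549755813887967)), (.negSucc (nat_lit 54975581388831)), (.ofNat (nat_lit 143531067427475122694729666396160000000000)), (.negSucc (nat_lit 1908683192961011751415971839999999999)), (.negSucc (nat_lit 1049309682200627568051619935341688913919999999999999))⟩,
    ⟨nat_lit 1, nat_lit 10, (.negSucc (nat_lit 549755813887999)), (.ofNat (nat_lit 681044374192128)), (.negSucc (nat_lit 549755813887967)), (.ofNat (nat_lit 681044374192096)), (.negSucc (nat_lit 143531067427475122694729666396159999999999)), (.ofNat (nat_lit 1908683192961011751415971840000000000)), (.ofNat (nat_lit 1049309682200627568051619935341688913920000000000000))⟩,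
    ⟨nat_lit 2, nat_lit 0, (.negSucc (nat_lit 2748779069439)), (.ofNat (nat_lit 288621802291200)), (.negSucc (nat_lit 2748779069407)), (.ofNat (nat_lit 288621802291168)), (.ofNat (nat_lit 143531067427475122694729666396160000000000)), (.negSucc (nat_lit 1908683192961011751415971839999999999)), (.negSucc (nat_lit 1049309682200627568051619935341688913919999999999999))⟩,
    ⟨nat_lit 4, nat_lit 5, (.ofNat (nat_lit 1102260406845440)), (.ofNat (nat_lit 1146034713526272)), (.ofNat (nat_lit 1102260406845472)), (.ofNat (nat_lit 1146034713526240)), (.negSucc (nat_lit 143531067427475122694729666396159999999999)), (.ofNat (nat_lit 1908683192961011751415971840000000000)), (.negSucc (nat_lit 3649105583562957446345514777642640909271039999999999))⟩,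
    ⟨nat_lit 5, nat_lit 6, (.ofNat (nat_lit 1146034713526272)), (.ofNat (nat_lit 1364837527453696)), (.ofNat (nat_lit 1146034713526304)), (.ofNat (nat_lit 1364837527453664)), (.negSucc (nat_lit 143531067427475122694729666396159999999999)), (.ofNat (nat_lit 1908683192961011751415971840000000000)), (.negSucc (nat_lit 3649105583562957446345514777642640909271039999999999))⟩,
    ⟨nat_lit 6, nat_lit 3, (.ofNat (nat_lit 1364837527453696)), (.ofNat (nat_lit 1911844562272256)), (.ofNat (nat_lit 1364837527453728)), (.ofNat (nat_lit 1911844562272224)), (.negSucc (nat_lit 143531067427475122694729666396159999999999)), (.ofNat (nat_lit 1908683192961011751415971840000000000)), (.negSucc (nat_lit 3649105583562957446345514777642640909271039999999999))⟩,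
    ⟨nat_lit 0, nat_lit 7, (.ofNat (nat_lit 288621802291200)), (.ofNat (nat_lit 494780232499200)), (.ofNat (nat_lit 288621802291232)), (.ofNat (nat_lit 494780232499168)), (.ofNat (nat_lit 143531067427475122694729666396160000000000)), (.negSucc (nat_lit 1908683192961011751415971839999999999)), (.negSucc (nat_lit 1049309682200627568051619935341688913919999999999999))⟩,
    ⟨nat_lit 7, nat_lit 9, (.ofNat (nat_lit 494780232499200)), (.ofNat (nat_lit 681044374192128)), (.ofNat (nat_lit 494780232499232)), (.ofNat (nat_lit 681044374192096)), (.ofNat (nat_lit 143531067427475122694729666396160000000000)), (.negSucc (nat_lit 1908683192961011751415971839999999999)), (.negSucc (nat_lit 1049309682200627568051619935341688913919999999999999))⟩,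
    ⟨nat_lit 8, nat_lit 2, (.negSucc (nat_lit 54975581388799)), (.negSucc (nat_lit 2748779069439)), (.negSucc (nat_lit 54975581388767)), (.negSucc (nat_lit 2748779069471)), (.ofNat (nat_lit 143531067427475122694729666396160000000000)), (.negSucc (nat_lit 1908683192961011751415971839999999999)), (.negSucc (nat_lit 1049309682200627568051619935341688913919999999999999))⟩,
    ⟨nat_lit 9, nat_lit 4, (.ofNat (nat_lit 681044374192128)), (.ofNat (nat_lit 1102260406845440)), (.ofNat (nat_lit 681044374192160)), (.ofNat (nat_lit 1102260406845408)), (.negSucc (nat_lit 143531067427475122694729666396159999999999)), (.ofNat (nat_lit 1908683192961011751415971840000000000)), (.negSucc (nat_lit 3649105583562957446345514777642640909271039999999999))⟩,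
    ⟨nat_lit 10, nat_lit 3, (.ofNat (nat_lit 681044374192128)), (.ofNat (nat_lit 1911844562272256)), (.ofNat (nat_lit 681044374192160)), (.ofNat (nat_lit 1911844562272224)), (.ofNat (nat_lit 143531067427475122694729666396160000000000)), (.negSucc (nat_lit 1908683192961011751415971839999999999)), (.ofNat (nat_lit 3649105583562957446345514777642640909271040000000000))⟩]

theorem ok298 : stOK 10 10 S298 = true := by decide +kernel

def S299 : SD where
  vs := [
    ⟨nat_lit 0, nat_lit 2, nat_lit 6, (.ofNat (nat_lit 16)), (.ofNat (nat_lit 288621802291200)), (.ofNat (nat_lit 120453513594787115644254220481938628712816898473984000000)), (.ofNat (nat_lit 0)), (.negSucc (nat_lit 1600197265355957041278720401396075593727999999999999)), (.ofNat (nat_lit 288621802291168)), (.ofNat (nat_lit 288621802291232)), (.ofNat (nat_lit 143531067427475122694729666396160000000000)), (.ofNat (nat_lit 143531067427475122694729666396160000000000)), (.ofNat (nat_lit 143531067427475122694729666396160000000000)), (.ofNat (nat_lit 143531067427475122694729666396160000000000)),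 (.ofNat (nat_lit 3817366385922023502831943680000000000))⟩,
    ⟨nat_lit 2, nat_lit 0, nat_lit 1, (.ofNat (nat_lit 16)), (.negSucc (nat_lit 549755813887999)), (.ofNat (nat_lit 120279437284502097135725017355140140065026473984000000)), (.ofNat (nat_lit 0)), (.ofNat (nat_lit 0)), (.negSucc (nat_lit 549755813888031)), (.negSucc (nat_lit 549755813887967)), (.ofNat (nat_lit 143531067427475122694729666396160000000000)), (.negSucc (nat_lit 143531067427475122694729666396159999999999)), (.negSucc (nat_lit 143531067427475122694729666396159999999999)), (.ofNat (nat_lit 143531067427475122694729666396160000000000)), (.ofNat (nat_lit 11452099157766070508495831040000000000))⟩,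
    ⟨nat_lit 0, nat_lit 0, nat_lit 2, (.ofNat (nat_lit 16)), (.negSucc (nat_lit 2748779069439)), (.ofNat (nat_lit 78632783035130469624599923697526006454745756073984000000)), (.ofNat (nat_lit 0)), (.negSucc (nat_lit 1044063133789624430211361835664980469350399999999999)), (.negSucc (nat_lit 2748779069471)), (.negSucc (nat_lit 2748779069407)), (.ofNat (nat_lit 143531067427475122694729666396160000000000)), (.ofNat (nat_lit 143531067427475122694729666396160000000000)), (.ofNat (nat_lit 143531067427475122694729666396160000000000)), (.ofNat (nat_lit 143531067427475122694729666396160000000000)), (.ofNat (nat_lit 3817366385922023502831943680000000000))⟩,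
    ⟨nat_lit 1, nat_lit 9, nat_lit 5, (.ofNat (nat_lit 16)), (.ofNat (nat_lit 1911844562272256)), (.ofNat (nat_lit 120279437284502097135725017355140140065026473984000000)), (.ofNat (nat_lit 0)), (.ofNat (nat_lit 0)), (.ofNat (nat_lit 1911844562272224)), (.ofNat (nat_lit 1911844562272288)), (.ofNat (nat_lit 143531067427475122694729666396160000000000)), (.negSucc (nat_lit 143531067427475122694729666396159999999999)), (.negSucc (nat_lit 143531067427475122694729666396159999999999)), (.ofNat (nat_lit 143531067427475122694729666396160000000000)), (.ofNat (nat_lit 11452099157766070508495831040000000000))⟩,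
    ⟨nat_lit 0, nat_lit 8, nat_lit 3, (.ofNat (nat_lit 16)), (.ofNat (nat_lit 1102260406845440)), (.ofNat (nat_lit 116320757438066329162594986908195966277408453033984000000)), (.ofNat (nat_lit 0)), (.negSucc (nat_lit 1545239670750699172402016807282554636861439999999999)), (.ofNat (nat_lit 1102260406845408)), (.ofNat (nat_lit 1102260406845472)), (.negSucc (nat_lit 143531067427475122694729666396159999999999)), (.negSucc (nat_lit 143531067427475122694729666396159999999999)), (.negSucc (nat_lit 143531067427475122694729666396159999999999)), (.negSucc (nat_lit 143531067427475122694729666396159999999999)), (.ofNat (nat_lit 3817366385922023502831943680000000000))⟩,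
    ⟨nat_lit 0, nat_lit 3, nat_lit 4, (.ofNat (nat_lit 16)), (.ofNat (nat_lit 1146034713526272)), (.ofNat (nat_lit 110037784474268856635585603169594352980618047913984000000)), (.ofNat (nat_lit 0)), (.negSucc (nat_lit 1461688387305474202295906569930972657090559999999999)), (.ofNat (nat_lit 1146034713526240)), (.ofNat (nat_lit 1146034713526304)), (.negSucc (nat_lit 143531067427475122694729666396159999999999)), (.negSucc (nat_lit 143531067427475122694729666396159999999999)), (.negSucc (nat_lit 143531067427475122694729666396159999999999)), (.negSucc (nat_lit 143531067427475122694729666396159999999999)), (.ofNat (nat_lit 3817366385922023502831943680000000000))⟩,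
    ⟨nat_lit 0, nat_lit 4, nat_lit 5, (.ofNat (nat_lit 16)), (.ofNat (nat_lit 1364837527453696)), (.ofNat (nat_lit 78632783035130469624599923697526006454745756073984000000)), (.ofNat (nat_lit 0)), (.negSucc (nat_lit 1044063133789624430211361835664980469350399999999999)), (.ofNat (nat_lit 1364837527453664)), (.ofNat (nat_lit 1364837527453728)), (.negSucc (nat_lit 143531067427475122694729666396159999999999)), (.negSucc (nat_lit 143531067427475122694729666396159999999999)), (.negSucc (nat_lit 143531067427475122694729666396159999999999)), (.negSucc (nat_lit 143531067427475122694729666396159999999999)), (.ofNat (nat_lit 3817366385922023502831943680000000000))⟩,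
    ⟨nat_lit 0, nat_lit 6, nat_lit 7, (.ofNat (nat_lit 16)), (.ofNat (nat_lit 494780232499200)), (.ofNat (nat_lit 150043653141713987827971883301098502952018178473984000000)), (.ofNat (nat_lit 0)), (.negSucc (nat_lit 1993688396181192379298077877149208936447999999999999)), (.ofNat (nat_lit 494780232499168)), (.ofNat (nat_lit 494780232499232)), (.ofNat (nat_lit 143531067427475122694729666396160000000000)), (.ofNat (nat_lit 143531067427475122694729666396160000000000)), (.ofNat (nat_lit 143531067427475122694729666396160000000000)), (.ofNat (nat_lit 143531067427475122694729666396160000000000)), (.ofNat (nat_lit 3817366385922023502831943680000000000))⟩,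
    ⟨nat_lit 0, nat_lit 7, nat_lit 8, (.ofNat (nat_lit 16)), (.ofNat (nat_lit 681044374192128)), (.ofNat (nat_lit 176778344222362416845960791658209449327136534953984000000)), (.ofNat (nat_lit 0)), (.negSucc (nat_lit 2349207632881792507198567356492164911595519999999999)), (.ofNat (nat_lit 681044374192096)), (.ofNat (nat_lit 681044374192160)), (.ofNat (nat_lit 143531067427475122694729666396160000000000)), (.negSucc (nat_lit 143531067427475122694729666396159999999999)), (.negSucc (nat_lit 143531067427475122694729666396159999999999)), (.ofNat (nat_lit 143531067427475122694729666396160000000000)), (.ofNat (nat_lit 11452099157766070508495831040000000000))⟩,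
    ⟨nat_lit 0, nat_lit 1, nat_lit 9, (.ofNat (nat_lit 16)), (.ofNat (nat_lit 681044374192128)), (.negSucc (nat_lit 176537785347793412651689341623499169047006482006015999999)), (.ofNat (nat_lit 0)), (.ofNat (nat_lit 2349207632881792507198567356492164911595520000000000)), (.ofNat (nat_lit 681044374192096)), (.ofNat (nat_lit 681044374192160)), (.negSucc (nat_lit 143531067427475122694729666396159999999999)), (.ofNat (nat_lit 143531067427475122694729666396160000000000)), (.negSucc (nat_lit 143531067427475122694729666396159999999999)), (.ofNat (nat_lit 143531067427475122694729666396160000000000)), (.ofNat (nat_lit 11452099157766070508495831040000000000))⟩]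
  es := [
    ⟨nat_lit 1, nat_lit 2, (.negSucc (nat_lit 549755813887999)), (.negSucc (nat_lit 2748779069439)), (.negSucc (nat_lit 549755813887967)), (.negSucc (nat_lit 2748779069471)), (.ofNat (nat_lit 143531067427475122694729666396160000000000)), (.negSucc (nat_lit 1908683192961011751415971839999999999)), (.negSucc (nat_lit 1049309682200627568051619935341688913919999999999999))⟩,
    ⟨nat_lit 1, nat_lit 9, (.negSucc (nat_lit 549755813887999)), (.ofNat (nat_lit 681044374192128)), (.negSucc (nat_lit 549755813887967)), (.ofNat (nat_lit 681044374192096)), (.negSucc (nat_lit 143531067427475122694729666396159999999999)), (.ofNat (nat_lit 1908683192961011751415971840000000000)), (.ofNat (nat_lit 1049309682200627568051619935341688913920000000000000))⟩,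
    ⟨nat_lit 2, nat_lit 0, (.negSucc (nat_lit 2748779069439)), (.ofNat (nat_lit 288621802291200)), (.negSucc (nat_lit 2748779069407)), (.ofNat (nat_lit 288621802291168)), (.ofNat (nat_lit 143531067427475122694729666396160000000000)), (.negSucc (nat_lit 1908683192961011751415971839999999999)), (.negSucc (nat_lit 1049309682200627568051619935341688913919999999999999))⟩,
    ⟨nat_lit 4, nat_lit 5, (.ofNat (nat_lit 1102260406845440)), (.ofNat (nat_lit 1146034713526272)), (.ofNat (nat_lit 1102260406845472)), (.ofNat (nat_lit 1146034713526240)), (.negSucc (nat_lit 143531067427475122694729666396159999999999)), (.ofNat (nat_lit 1908683192961011751415971840000000000)), (.negSucc (nat_lit 3649105583562957446345514777642640909271039999999999))⟩,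
    ⟨nat_lit 5, nat_lit 6, (.ofNat (nat_lit 1146034713526272)), (.ofNat (nat_lit 1364837527453696)), (.ofNat (nat_lit 1146034713526304)), (.ofNat (nat_lit 1364837527453664)), (.negSucc (nat_lit 143531067427475122694729666396159999999999)), (.ofNat (nat_lit 1908683192961011751415971840000000000)), (.negSucc (nat_lit 3649105583562957446345514777642640909271039999999999))⟩,
    ⟨nat_lit 6, nat_lit 3, (.ofNat (nat_lit 1364837527453696)), (.ofNat (nat_lit 1911844562272256)), (.ofNat (nat_lit 1364837527453728)), (.ofNat (nat_lit 1911844562272224)), (.negSucc (nat_lit 143531067427475122694729666396159999999999)), (.ofNat (nat_lit 1908683192961011751415971840000000000)), (.negSucc (nat_lit 3649105583562957446345514777642640909271039999999999))⟩,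
    ⟨nat_lit 0, nat_lit 7, (.ofNat (nat_lit 288621802291200)), (.ofNat (nat_lit 494780232499200)), (.ofNat (nat_lit 288621802291232)), (.ofNat (nat_lit 494780232499168)), (.ofNat (nat_lit 143531067427475122694729666396160000000000)), (.negSucc (nat_lit 1908683192961011751415971839999999999)), (.negSucc (nat_lit 1049309682200627568051619935341688913919999999999999))⟩,
    ⟨nat_lit 7, nat_lit 8, (.ofNat (nat_lit 494780232499200)), (.ofNat (nat_lit 681044374192128)), (.ofNat (nat_lit 494780232499232)), (.ofNat (nat_lit 681044374192096)), (.ofNat (nat_lit 143531067427475122694729666396160000000000)), (.negSucc (nat_lit 1908683192961011751415971839999999999)), (.negSucc (nat_lit 1049309682200627568051619935341688913919999999999999))⟩,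
    ⟨nat_lit 8, nat_lit 4, (.ofNat (nat_lit 681044374192128)), (.ofNat (nat_lit 1102260406845440)), (.ofNat (nat_lit 681044374192160)), (.ofNat (nat_lit 1102260406845408)), (.negSucc (nat_lit 143531067427475122694729666396159999999999)), (.ofNat (nat_lit 1908683192961011751415971840000000000)), (.negSucc (nat_lit 3649105583562957446345514777642640909271039999999999))⟩,
    ⟨nat_lit 9, nat_lit 3, (.ofNat (nat_lit 681044374192128)), (.ofNat (nat_lit 1911844562272256)), (.ofNat (nat_lit 681044374192160)), (.ofNat (nat_lit 1911844562272224)), (.ofNat (nat_lit 143531067427475122694729666396160000000000)), (.negSucc (nat_lit 1908683192961011751415971839999999999)), (.ofNat (nat_lit 3649105583562957446345514777642640909271040000000000))⟩]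

theorem ok299 : stOK 9 9 S299 = true := by decide +kernel

end LCA.CapJ


end
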