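import Mathlib
import Pool.Agent.NDM.C01
import Pool.Agent.NDM.C02
import Pool.Agent.NDM.C03

/-! Parts: LG.LISO, LG.LROT, LG.REL, LG.TRN, LH.DC1, LH.NXT, LH.RM, LHS.PEX, LHS.FAR, LHS.PSF, LCA.CVV, LCA.GVV -/

section

/-!
# LISO: cyclic order isomorphism of lists
-/

namespace LG

open Equiv Finset Function

namespace LISO

theorem nx_cast (L L' : List (ℝ × ℝ)) (h : L.length = L'.length) (i : Fin L.length) :
    nx L' (i.cast h) = (nx L i).cast h := by
  apply Fin.ext
  simp only [nx, Fin.val_cast, h]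

theorem fst_inj {L : List (ℝ × ℝ)} (hL : Nd L) {i j : Fin L.length} :
    (L.get i).1 = (L.get j).1 ↔ i = j := by
  constructor
  · intro hij
    have h1 := List.nodup_iff_injective_get.1 hL.1
    have h2 : (L.map Prod.fst).get (i.cast (List.length_map Prod.fst).symm) =
        (L.map Prod.fst).get (j.cast (List.length_map Prod.fst).symm) := by
      simpa using hij
    have h3 := h1 h2
    apply Fin.ext
    have h4 := congrArg Fin.val h3
    simpa using h4
  · rintro rfl; rfl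

theorem snd_inj {L : List (ℝ × ℝ)} (hL : Nd L) {i j : Fin L.length} :
    (L.get i).2 = (L.get j).2 ↔ i = j := by
  constructor
  · intro hij
    have h1 := List.nodup_iff_injective_get.1 hL.2
    have h2 : (L.map Prod.snd).get (i.cast (List.length_map Prod.snd).symm) =
        (L.map Prod.snd).get (j.cast (List.length_map Prod.snd).symm) := by
      simpa using hij
    have h3 := h1 h2
    apply Fin.ext
    have h4 := congrArg Fin.val h3
    simpa using h4
  · rintro rfl; rfl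

/-- The entry whose first coordinate is the position of a column. -/
def gc (L : List (ℝ × ℝ)) : Fin L.length ⊕ Fin L.length → Fin L.length := Sum.elim id (nx L)

/-- The entry whose second coordinate is the position of a row. -/
def gr (L : List (ℝ × ℝ)) : Fin L.length ⊕ Fin L.length → Fin L.length := Sum.elim id id

theorem col_eq (L : List (ℝ × ℝ)) (x : Fin L.length ⊕ Fin L.length) :
    Sum.elim (fun i : Fin L.length => (L.get i).1) (fun i : Fin L.length => (L.get (nx L i)).1) x =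
      (L.get (gc L x)).1 := by
  rcases x with i | i <;> rfl

theorem row_eq (L : List (ℝ × ℝ)) (x : Fin L.length ⊕ Fin L.length) :
    Sum.elim (fun i : Fin L.length => (L.get i).2) (fun i : Fin L.length => (L.get i).2) x =
      (L.get (gr L x)).2 := by
  rcases x with i | i <;> rfl

theorem gc_cast (L L' : List (ℝ × ℝ)) (h : L.length = L'.length)
    (x : Fin L.length ⊕ Fin L.length) :
    gc L' (Equiv.sumCongr (finCongr h) (finCongr h) x) = (gc L x).cast h := by
  rcases x with i | i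
  · rfl
  · exact nx_cast L L' h i

theorem gr_cast (L L' : List (ℝ × ℝ)) (h : L.length = L'.length)
    (x : Fin L.length ⊕ Fin L.length) :
    gr L' (Equiv.sumCongr (finCongr h) (finCongr h) x) = (gr L x).cast h := by
  rcases x with i | i <;> rfl

theorem fcast_inj {a b : ℕ} (h : a = b) {i j : Fin a} : i.cast h = j.cast h ↔ i = j := by
  subst h; rfl

end LISO

open _root_.LG.LISO in
theorem t_LISO : Stmt_LISO := by
  intro hREL L L' hL hL' h h1 h2
  refine hREL (Fin L.length) (Fin L.length) (Fin L'.length) (Fin L'.length) ℝ ℝ ℝ ℝ _ _ _ _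
    (fun i : Fin L'.length => (L'.get i).1) (fun i => (L'.get i).2)
    (fun i : Fin L'.length => (L'.get (nx L' i)).1) (fun i => (L'.get i).2)
    (finCongr h) (finCongr h) ?_ ?_ ?_ ?_
  · intro x y z
    rw [col_eq, col_eq, col_eq, col_eq, col_eq, col_eq, gc_cast, gc_cast, gc_cast]
    exact h1 _ _ _
  · intro x y
    rw [col_eq, col_eq, col_eq, col_eq, gc_cast, gc_cast, fst_inj hL, fst_inj hL', fcast_inj]
  · intro x y z
    rw [row_eq, row_eq, row_eq, row_eq, row_eq, row_eq, gr_cast, gr_cast, gr_cast]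
    exact h2 _ _ _
  · intro x y
    rw [row_eq, row_eq, row_eq, row_eq, gr_cast, gr_cast, snd_inj hL, snd_inj hL', fcast_inj]

end LG


end

section

/-!
# LROT: rotation of lists
-/

namespace LG

open Equiv Finset Function

namespace LROT

/-- The positions of the entries after the rotation. -/
def rotEquiv (A B : List (ℝ × ℝ)) : Fin (A ++ B).length ≃ Fin (B ++ A).length where
  toFun i := ⟨(i.1 + B.length) % (B ++ A).length, Nat.mod_lt _ (by
    have := i.2; simp only [List.length_append] at *; omega)⟩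
  invFun j := ⟨(j.1 + A.length) % (A ++ B).length, Nat.mod_lt _ (by
    have := j.2; simp only [List.length_append] at *; omega)⟩
  left_inv i := by
    apply Fin.ext
    have h := i.2
    simp only [List.length_append] at *
    rw [Nat.add_comm B.length A.length, Nat.mod_add_mod,
      show i.1 + B.length + A.length = i.1 + (A.length + B.length) by omega, Nat.add_mod_right,
      Nat.mod_eq_of_lt h]
  right_inv j := by
    apply Fin.ext
    have h := j.2
    simp only [List.length_append] at *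
    rw [Nat.add_comm A.length B.length, Nat.mod_add_mod,
      show j.1 + A.length + B.length = j.1 + (B.length + A.length) by omega, Nat.add_mod_right,
      Nat.mod_eq_of_lt h]

theorem get_left (B A : List (ℝ × ℝ)) (k j : ℕ) (h : j < (B ++ A).length) (hk : j = k)
    (hk' : k < B.length) : (B ++ A)[j] = B[k] := by
  subst hk
  exact List.getElem_append_left hk'

theorem get_right (B A : List (ℝ × ℝ)) (k j : ℕ) (h : j < (B ++ A).length)
    (hk : j = B.length + k) (hk' : k < A.length) : (B ++ A)[j] = A[k] := by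
  subst hk
  rw [List.getElem_append_right (by omega)]
  congr 1
  omega

theorem get_rot (A B : List (ℝ × ℝ)) (i : Fin (A ++ B).length) :
    (B ++ A).get (rotEquiv A B i) = (A ++ B).get i := by
  have h := i.2
  simp only [List.get_eq_getElem]
  by_cases h1 : i.1 < A.length
  · have h2 : (rotEquiv A B i).1 = B.length + i.1 := by
      show (i.1 + B.length) % (B ++ A).length = _
      simp only [List.length_append] at *
      rw [Nat.mod_eq_of_lt (by omega)]
      omega
    rw [get_right B A i.1 _ _ h2 h1, get_left A B i.1 _ _ rfl h1]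
  · have h2 : (rotEquiv A B i).1 = i.1 - A.length := by
      show (i.1 + B.length) % (B ++ A).length = _
      simp only [List.length_append] at *
      rw [show i.1 + B.length = (i.1 - A.length) + (B.length + A.length) by omega,
        Nat.add_mod_right]
      exact Nat.mod_eq_of_lt (by omega)
    have h3 : i.1 - A.length < B.length := by
      simp only [List.length_append] at *
      omega
    rw [get_left B A (i.1 - A.length) _ _ h2 h3,
      get_right A B (i.1 - A.length) _ _ (by omega) h3]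

theorem nx_rot (A B : List (ℝ × ℝ)) (i : Fin (A ++ B).length) :
    nx (B ++ A) (rotEquiv A B i) = rotEquiv A B (nx (A ++ B) i) := by
  apply Fin.ext
  show ((i.1 + B.length) % (B ++ A).length + 1) % (B ++ A).length =
    ((i.1 + 1) % (A ++ B).length + B.length) % (B ++ A).length
  simp only [List.length_append]
  rw [Nat.add_comm A.length B.length, Nat.mod_add_mod, Nat.mod_add_mod]
  congr 1
  omega

theorem VL_iff (hR : Stmt_REL) (L L' : List (ℝ × ℝ)) (e : Fin L.length ≃ Fin L'.length)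
    (h1 : ∀ i, L'.get (e i) = L.get i) (h2 : ∀ i, nx L' (e i) = e (nx L i)) :
    VL L ↔ VL L' := by
  unfold VL
  have hc : ∀ x : Fin L.length ⊕ Fin L.length,
      Sum.elim (fun i : Fin L'.length => (L'.get i).1)
        (fun i : Fin L'.length => (L'.get (nx L' i)).1) (Equiv.sumCongr e e x) =
      Sum.elim (fun i : Fin L.length => (L.get i).1)
        (fun i : Fin L.length => (L.get (nx L i)).1) x := by
    rintro (i | i)
    · show (L'.get (e i)).1 = (L.get i).1
      rw [h1]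
    · show (L'.get (nx L' (e i))).1 = (L.get (nx L i)).1
      rw [h2, h1]
  have hr : ∀ x : Fin L.length ⊕ Fin L.length,
      Sum.elim (fun i : Fin L'.length => (L'.get i).2)
        (fun i : Fin L'.length => (L'.get i).2) (Equiv.sumCongr e e x) =
      Sum.elim (fun i : Fin L.length => (L.get i).2)
        (fun i : Fin L.length => (L.get i).2) x := by
    rintro (i | i)
    · show (L'.get (e i)).2 = (L.get i).2
      rw [h1]
    · show (L'.get (e i)).2 = (L.get i).2
      rw [h1]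
  refine hR _ _ _ _ _ _ _ _ _ _ _ _ _ _ _ _ e e ?_ ?_ ?_ ?_
  · intro x y z
    rw [hc, hc, hc]
  · intro x y
    rw [hc, hc]
  · intro x y z
    rw [hr, hr, hr]
  · intro x y
    rw [hr, hr]

end LROT

theorem t_LROT : Stmt_LROT := by
  intro hR A B
  exact LROT.VL_iff hR _ _ (LROT.rotEquiv A B) (LROT.get_rot A B) (LROT.nx_rot A B)

end LG


end

section

/-!
# REL: relabelling and cyclic order isomorphism
-/

namespace LG

open Equiv Finset Function

namespace REL

variable {ι κ ι' κ' α β α' β' : Type} [Fintype ι] [DecidableEq ι] [Fintype κ] [Fintype ι']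
  [DecidableEq ι'] [Fintype κ'] [LinearOrder α] [LinearOrder β] [LinearOrder α'] [LinearOrder β']
  {c : ι → α} {r : ι → β} {a : κ → α} {b : κ → β} {c' : ι' → α'} {r' : ι' → β'}
  {a' : κ' → α'} {b' : κ' → β'} {e : ι ≃ ι'} {e' : κ ≃ κ'}

/-- The hypotheses of REL for one coordinate. -/
def H (c : ι → α) (a : κ → α) (c' : ι' → α') (a' : κ' → α') (e : ι ≃ ι') (e' : κ ≃ κ') : Prop :=
  (∀ x y z : ι ⊕ κ, cyc (Sum.elim c a x) (Sum.elim c a y) (Sum.elim c a z) ↔
      cyc (Sum.elim c' a' (Equiv.sumCongr e e' x)) (Sum.elim c' a' (Equiv.sumCongr e e' y))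
        (Sum.elim c' a' (Equiv.sumCongr e e' z))) ∧
    (∀ x y : ι ⊕ κ, Sum.elim c a x = Sum.elim c a y ↔
      Sum.elim c' a' (Equiv.sumCongr e e' x) = Sum.elim c' a' (Equiv.sumCongr e e' y))

omit [Fintype ι] [DecidableEq ι] [Fintype κ] [Fintype ι'] [DecidableEq ι'] [Fintype κ'] in
theorem H.symm (h : H c a c' a' e e') : H c' a' c a e.symm e'.symm := by
  have hs : ∀ x : ι' ⊕ κ', Equiv.sumCongr e e' (Equiv.sumCongr e.symm e'.symm x) = x := by
    intro x
    cases x <;> simp
  constructor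
  · intro x y z
    have := h.1 (Equiv.sumCongr e.symm e'.symm x) (Equiv.sumCongr e.symm e'.symm y)
      (Equiv.sumCongr e.symm e'.symm z)
    rw [hs, hs, hs] at this
    exact this.symm
  · intro x y
    have := h.2 (Equiv.sumCongr e.symm e'.symm x) (Equiv.sumCongr e.symm e'.symm y)
    rw [hs, hs] at this
    exact this.symm

omit [Fintype ι] [DecidableEq ι] [Fintype κ] [Fintype ι'] [DecidableEq ι'] [Fintype κ'] in
theorem H.cyc (h : H c a c' a' e e') (i j k : ι) :
    LG.cyc (c i) (c j) (c k) ↔ LG.cyc (c' (e i)) (c' (e j)) (c' (e k)) :=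
  h.1 (Sum.inl i) (Sum.inl j) (Sum.inl k)

omit [Fintype ι] [DecidableEq ι] [Fintype κ] [Fintype ι'] [DecidableEq ι'] [Fintype κ'] in
theorem H.ico (h : H c a c' a' e e') (i k : ι) (m : ι ⊕ κ) :
    LG.ico (c i) (Sum.elim c a m) (c k) ↔
      LG.ico (c' (e i)) (Sum.elim c' a' (Equiv.sumCongr e e' m)) (c' (e k)) :=
  or_congr (h.2 m (Sum.inl i)) (h.1 (Sum.inl i) m (Sum.inl k))

theorem permCongr_app (x : Perm ι) (i : ι) : e.permCongr x (e i) = e (x i) := by
  simp

theorem wt_eq (hc : H c a c' a' e e') (hr : H r b r' b' e e') (x : Perm ι) (i j : ι) :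
    Wt (gm c r a b) x i j = Wt (gm c' r' a' b') (e.permCongr x) (e i) (e j) := by
  have hE : Emp (gm c r a b) x i j ↔ Emp (gm c' r' a' b') (e.permCongr x) (e i) (e j) := by
    constructor
    · intro h k' hk
      obtain ⟨k, rfl⟩ := e.surjective k'
      rw [permCongr_app, permCongr_app, permCongr_app] at hk
      exact h k ⟨(hc.cyc i k j).mpr hk.1, (hr.cyc (x i) (x k) (x j)).mpr hk.2⟩
    · intro h k hk
      refine h (e k) ?_
      rw [permCongr_app, permCongr_app, permCongr_app]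
      exact ⟨(hc.cyc i k j).mp hk.1, (hr.cyc (x i) (x k) (x j)).mp hk.2⟩
  have hI : ∀ m, Ins (gm c r a b) x i j m ↔
      Ins (gm c' r' a' b') (e.permCongr x) (e i) (e j) (Equiv.sumCongr e e' m) := by
    intro m
    have h1 := hc.ico i j m
    have h2 := hr.ico (x i) (x j) m
    unfold Ins
    rw [permCongr_app, permCongr_app]
    exact and_congr h1 h2
  unfold Wt
  refine if_congr (and_congr (not_congr e.injective.eq_iff.symm) hE) ?_ rfl
  refine Fintype.prod_equiv (Equiv.sumCongr e e') _ _ ?_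
  intro m
  exact if_congr (hI m) rfl rfl

theorem bd_eq (hc : H c a c' a' e e') (hr : H r b r' b' e e') (f : Perm ι → ZMod 2) (y : Perm ι) :
    bd c' r' a' b' (fun x' => f (e.permCongr.symm x')) (e.permCongr y) = bd c r a b f y := by
  unfold bd del
  symm
  refine Fintype.sum_equiv e _ _ ?_
  intro i
  refine Fintype.sum_equiv e _ _ ?_
  intro j
  have hs : e.permCongr y * swap (e i) (e j) = e.permCongr (y * swap i j) := by
    ext k'
    obtain ⟨k, rfl⟩ := e.surjective k'
    rw [permCongr_app, Perm.mul_apply, Perm.mul_apply, Equiv.swap_apply_def,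
      Equiv.swap_apply_def]
    simp only [e.injective.eq_iff]
    split_ifs <;> simp
  show f (y * swap i j) * Wt (gm c r a b) (y * swap i j) i j =
    f (e.permCongr.symm (e.permCongr y * swap (e i) (e j))) *
      Wt (gm c' r' a' b') (e.permCongr y * swap (e i) (e j)) (e i) (e j)
  rw [hs, Equiv.symm_apply_apply, ← wt_eq hc hr]

theorem fwd (hc : H c a c' a' e e') (hr : H r b r' b' e e') (h : V c r a b) :
    V c' r' a' b' := by
  obtain ⟨f, hf⟩ := h
  refine ⟨fun x' => f (e.permCongr.symm x'), ?_⟩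
  funext y'
  obtain ⟨y, rfl⟩ := e.permCongr.surjective y'
  rw [bd_eq hc hr, hf, Pi.single_apply, Pi.single_apply]
  refine if_congr ?_ rfl rfl
  constructor
  · rintro rfl
    ext k'
    obtain ⟨k, rfl⟩ := e.surjective k'
    rw [permCongr_app]
    rfl
  · intro h1
    ext k
    have := congrArg (fun p : Perm ι' => p (e k)) h1
    simp only [permCongr_app] at this
    exact e.injective this

end REL

theorem t_REL : Stmt_REL := by
  intro ι κ ι' κ' α β α' β' _ _ _ _ _ _ _ _ _ _ c r a b c' r' a' b' e e' h1 h2 h3 h4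
  have hc : REL.H c a c' a' e e' := ⟨h1, h2⟩
  have hr : REL.H r b r' b' e e' := ⟨h3, h4⟩
  exact ⟨REL.fwd hc hr, REL.fwd hc.symm hr.symm⟩

end LG


end

section

/-!
# Module LG_TRN: transposition of the fully blocked grid complex
-/

open Equiv Finset Function

namespace LG

namespace TRN

variable {ι κ α β : Type} [Fintype ι] [DecidableEq ι] [Fintype κ] [LinearOrder α] [LinearOrder β]

theorem ia (x : Perm ι) (i : ι) : x⁻¹ (x i) = i := x.symm_apply_apply i

theorem ai (x : Perm ι) (i : ι) : x (x⁻¹ i) = i := x.apply_symm_apply i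

theorem emp_iff (c : ι → α) (r : ι → β) (a : κ → α) (b : κ → β) (x : Perm ι) (i j : ι) :
    Emp (gm r c b a) x i j ↔ Emp (gm c r a b) x⁻¹ (x i) (x j) := by
  unfold Emp gm
  simp only
  constructor
  · intro h k hk
    refine h (x⁻¹ k) ?_
    simp only [ia, ai] at hk ⊢
    exact ⟨hk.2, hk.1⟩
  · intro h k hk
    refine h (x k) ?_
    simp only [ia]
    exact ⟨hk.2, hk.1⟩

theorem ins_iff (c : ι → α) (r : ι → β) (a : κ → α) (b : κ → β) (x : Perm ι) (i j : ι)
    (m : ι ⊕ κ) :
    Ins (gm r c b a) x i j m ↔ Ins (gm c r a b) x⁻¹ (x i) (x j) m := by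
  unfold Ins gm
  simp only [ia]
  exact and_comm

theorem wt_eq (c : ι → α) (r : ι → β) (a : κ → α) (b : κ → β) (x : Perm ι) (i j : ι) :
    Wt (gm r c b a) x i j = Wt (gm c r a b) x⁻¹ (x i) (x j) := by
  unfold Wt
  have h1 : (i ≠ j ∧ Emp (gm r c b a) x i j) ↔ (x i ≠ x j ∧ Emp (gm c r a b) x⁻¹ (x i) (x j)) :=
    and_congr (x.injective.ne_iff).symm (emp_iff c r a b x i j)
  have h2 : (∏ m, (if Ins (gm r c b a) x i j m then (gm r c b a).w m else 1)) =
      ∏ m, (if Ins (gm c r a b) x⁻¹ (x i) (x j) m then (gm c r a b).w m else 1) := by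
    refine Finset.prod_congr rfl fun m _ => ?_
    exact if_congr (ins_iff c r a b x i j m) rfl rfl
  exact if_congr h1 h2 rfl

theorem sum_reindex (y : Perm ι) (H : ι → ι → ZMod 2) :
    (∑ i, ∑ j, H (y j) (y i)) = ∑ i, ∑ j, H i j := by
  rw [Finset.sum_comm]
  calc (∑ j, ∑ i, H (y j) (y i)) = ∑ j, ∑ i, H (y j) i := by
        refine Finset.sum_congr rfl fun j _ => ?_
        exact Equiv.sum_comp y (fun i => H (y j) i)
    _ = ∑ j, ∑ i, H j i := Equiv.sum_comp y (fun j => ∑ i, H j i)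

theorem inv_mul_swap (y : Perm ι) (i j : ι) :
    (y * Equiv.swap i j)⁻¹ = y⁻¹ * Equiv.swap (y j) (y i) := by
  rw [mul_inv_rev, Equiv.swap_inv, Equiv.swap_comm (y j) (y i), Equiv.mul_swap_eq_swap_mul]
  simp only [ia]

theorem del_inv (c : ι → α) (r : ι → β) (a : κ → α) (b : κ → β) (f : Perm ι → ZMod 2)
    (y : Perm ι) :
    bd r c b a (fun x => f x⁻¹) y = bd c r a b f y⁻¹ := by
  have key : ∀ i j : ι, f (y * Equiv.swap i j)⁻¹ *
        Wt (gm r c b a) (y * Equiv.swap i j) i j =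
      f (y⁻¹ * Equiv.swap (y j) (y i)) *
        Wt (gm c r a b) (y⁻¹ * Equiv.swap (y j) (y i)) (y j) (y i) := by
    intro i j
    have h1 : (y * Equiv.swap i j) i = y j := by
      rw [Equiv.Perm.mul_apply, Equiv.swap_apply_left]
    have h2 : (y * Equiv.swap i j) j = y i := by
      rw [Equiv.Perm.mul_apply, Equiv.swap_apply_right]
    rw [wt_eq c r a b (y * Equiv.swap i j) i j, inv_mul_swap, h1, h2]
  have h := sum_reindex y (fun i j => f (y⁻¹ * Equiv.swap i j) *
    Wt (gm c r a b) (y⁻¹ * Equiv.swap i j) i j)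
  unfold bd del
  rw [← h]
  exact Finset.sum_congr rfl fun i _ => Finset.sum_congr rfl fun j _ => key i j

theorem one_way (c : ι → α) (r : ι → β) (a : κ → α) (b : κ → β) (h : V c r a b) :
    V r c b a := by
  obtain ⟨f, hf⟩ := h
  refine ⟨fun x => f x⁻¹, ?_⟩
  funext y
  rw [del_inv, hf]
  by_cases hy : y = 1
  · subst hy; simp
  · have hy' : y⁻¹ ≠ 1 := fun h => hy (inv_eq_one.mp h)
    rw [Pi.single_eq_of_ne hy, Pi.single_eq_of_ne hy']

end TRN

theorem t_TRN : Stmt_TRN := by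
  intro ι κ α β _ _ _ _ _ c r a b
  exact ⟨TRN.one_way c r a b, TRN.one_way r c b a⟩

end LG


end

section

/-!
# DC1: removal of a short column
-/

namespace LH

open Set LG

namespace DC1

variable {α β : Type*}

theorem cp_rot (A B : List α) (p : α × α) (h : p ∈ cp (A ++ B)) : p ∈ cp (B ++ A) := by
  unfold cp at *
  have h1 : B ++ A = (A ++ B).rotate A.length := by simp
  rw [h1, List.rotate_rotate, Nat.add_comm, ← List.rotate_rotate]
  have h2 : ((A ++ B).zip ((A ++ B).rotate 1)).rotate A.length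
      = ((A ++ B).rotate A.length).zip (((A ++ B).rotate 1).rotate A.length) := by
    simpa [List.zip] using
      List.zipWith_rotate_distrib Prod.mk (A ++ B) ((A ++ B).rotate 1) A.length (by simp)
  rw [← h2]
  simpa using h

theorem alt_rot {A B : List En} (h : Alt (A ++ B)) : Alt (B ++ A) := by
  refine ⟨?_, fun p hp => h.2 p (cp_rot _ _ _ hp)⟩
  have := h.1
  simp only [ne_eq, List.append_eq_nil_iff] at *
  tauto

theorem chain_zip {R : α → α → Prop} : ∀ (l : List α) (a b : α),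
    (∀ p ∈ List.zip (a :: l) (l ++ [b]), R p.1 p.2) → List.IsChain R (a :: (l ++ [b]))
  | [], a, b, h => by
      simpa using h
  | c :: l, a, b, h => by
      have h1 := chain_zip l c b (fun p hp => h p (by simp at hp ⊢; tauto))
      have h2 : R a c := h (a, c) (by simp)
      simpa using ⟨h2, by simpa using h1⟩

theorem zip_chain {R : α → α → Prop} : ∀ (l : List α) (a b : α),
    List.IsChain R (a :: (l ++ [b])) → (∀ p ∈ List.zip (a :: l) (l ++ [b]), R p.1 p.2)
  | [], a, b, h => by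
      simpa using h
  | c :: l, a, b, h => by
      have h1 : R a c ∧ List.IsChain R (c :: (l ++ [b])) := by simpa using h
      have h2 := zip_chain l c b h1.2
      intro p hp
      have h3 : p = (a, c) ∨ p ∈ List.zip (c :: l) (l ++ [b]) := by simpa using hp
      rcases h3 with rfl | h3
      · exact h1.1
      · exact h2 p h3

theorem alt_iff (a : En) (l : List En) :
    Alt (a :: l) ↔ List.IsChain (fun x y : En => x.isLeft = !y.isLeft) (a :: (l ++ [a])) := by
  have h1 : cp (a :: l) = List.zip (a :: l) (l ++ [a]) := by simp [cp]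
  constructor
  · intro h
    apply chain_zip
    rw [← h1]
    exact h.2
  · intro h
    refine ⟨by simp, ?_⟩
    rw [h1]
    exact zip_chain l a a h

theorem exists_fl : ∀ (L : List (α ⊕ β)),
    List.IsChain (fun x y : α ⊕ β => x.isLeft = !y.isLeft) L →
    (∀ a ∈ L.head?, a.isLeft = true) → (∀ a ∈ L.getLast?, a.isLeft = false) → ∃ P, L = fl P
  | [], _, _, _ => ⟨[], rfl⟩
  | [x], _, h1, h2 => by
      have h3 : x.isLeft = true := h1 x (by simp)
      have h4 : x.isLeft = false := h2 x (by simp)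
      rw [h3] at h4
      exact absurd h4 (by simp)
  | x :: y :: L, h, h1, h2 => by
      have h3 : x.isLeft = (!y.isLeft) ∧
          List.IsChain (fun x y : α ⊕ β => x.isLeft = !y.isLeft) (y :: L) := by
        simpa using h
      have h4 : x.isLeft = true := by simpa using h1
      have h5 : y.isLeft = false := by
        have := h3.1
        rw [h4] at this
        simpa using this.symm
      obtain ⟨P, hP⟩ := exists_fl L h3.2.tail
        (by
          intro a ha
          cases L with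
          | nil => simp at ha
          | cons b L =>
            have h6 : b = a := by simpa using ha
            have h7 := h3.2
            rw [List.isChain_cons_cons] at h7
            rw [h5] at h7
            rw [← h6]
            simpa using h7.1)
        (by
          intro a ha
          apply h2
          cases L with
          | nil => simp at ha
          | cons b L => simpa using ha)
      cases x with
      | inr x => simp at h4
      | inl x =>
        cases y with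
        | inl y => simp at h5
        | inr y => exact ⟨(x, y) :: P, by simp [fl, hP] ⟩

theorem up (a b : Q) (h : a < b) : ∀ L : List En,
    ∃ b', a < b' ∧ b' < b ∧ ∀ r, Sum.inr r ∈ L → r < b → r < b'
  | [] => by
      obtain ⟨c, h1, h2⟩ := exists_between h
      exact ⟨c, h1, h2, by simp⟩
  | x :: L => by
      obtain ⟨c, h1, h2, h3⟩ := up a b h L
      cases x with
      | inl x => exact ⟨c, h1, h2, fun r hr => h3 r (by simpa using hr)⟩
      | inr x =>
        by_cases hx : x < b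
        · obtain ⟨d, h4, h5⟩ := exists_between (max_lt h2 hx)
          refine ⟨d, ?_, h5, ?_⟩
          · exact lt_trans h1 (lt_of_le_of_lt (le_max_left _ _) h4)
          · intro r hr hrb
            have h6 : r = x ∨ Sum.inr r ∈ L := by simpa using hr
            rcases h6 with rfl | h6
            · exact lt_of_le_of_lt (le_max_right _ _) h4
            · exact lt_trans (h3 r h6 hrb) (lt_of_le_of_lt (le_max_left _ _) h4)
        · refine ⟨c, h1, h2, ?_⟩
          intro r hr hrb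
          have h6 : r = x ∨ Sum.inr r ∈ L := by simpa using hr
          rcases h6 with rfl | h6
          · exact absurd hrb hx
          · exact h3 r h6 hrb

theorem dn (a b : Q) (h : b < a) : ∀ L : List En,
    ∃ b', b' < a ∧ b < b' ∧ ∀ r, Sum.inr r ∈ L → b < r → b' < r
  | [] => by
      obtain ⟨c, h1, h2⟩ := exists_between h
      exact ⟨c, h2, h1, by simp⟩
  | x :: L => by
      obtain ⟨c, h1, h2, h3⟩ := dn a b h L
      cases x with
      | inl x => exact ⟨c, h1, h2, fun r hr => h3 r (by simpa using hr)⟩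
      | inr x =>
        by_cases hx : b < x
        · obtain ⟨d, h4, h5⟩ := exists_between (lt_min h2 hx)
          refine ⟨d, ?_, h4, ?_⟩
          · exact lt_trans (lt_of_lt_of_le h5 (min_le_left _ _)) h1
          · intro r hr hrb
            have h6 : r = x ∨ Sum.inr r ∈ L := by simpa using hr
            rcases h6 with rfl | h6
            · exact lt_of_lt_of_le h5 (min_le_right _ _)
            · exact lt_trans (lt_of_lt_of_le h5 (min_le_left _ _)) (h3 r h6 hrb)
        · refine ⟨c, h1, h2, ?_⟩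
          intro r hr hrb
          have h6 : r = x ∨ Sum.inr r ∈ L := by simpa using hr
          rcases h6 with rfl | h6
          · exact absurd hrb hx
          · exact h3 r h6 hrb

/-- the new position of the row -/
theorem pos (b₁ b₀ : Q) (h : b₁ ≠ b₀) (L : List En) :
    ∃ b', b' ≠ b₁ ∧ b' ≠ b₀ ∧ (Sum.inr b' ∉ L) ∧ (∀ r, Sum.inr r ∈ L → ¬ Btw b' b₀ r) ∧
      (∀ r, Btw b₁ b' r → Btw b₁ b₀ r) ∧ (b₁ < b₀ → b' < b₀) ∧ (b₀ < b₁ → b₀ < b') := by
  rcases lt_or_gt_of_ne h with h | h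
  · obtain ⟨b', h1, h2, h3⟩ := up b₁ b₀ h L
    refine ⟨b', h1.ne', h2.ne, ?_, ?_, ?_, fun _ => h2, fun h' => absurd h' (lt_asymm h)⟩
    · intro h4
      exact lt_irrefl _ (h3 b' h4 h2)
    · rintro r hr (h4 | h4)
      · exact lt_asymm h4.1 (h3 r hr h4.2)
      · exact lt_asymm h4.1 (lt_trans h4.2 h2)
    · rintro r (h4 | h4)
      · exact Or.inl ⟨h4.1, lt_trans h4.2 h2⟩
      · exact absurd h1 (lt_asymm (lt_trans h4.1 h4.2))
  · obtain ⟨b', h1, h2, h3⟩ := dn b₁ b₀ h L
    refine ⟨b', h1.ne, h2.ne', ?_, ?_, ?_, fun h' => absurd h' (lt_asymm h), fun _ => h2⟩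
    · intro h4
      exact lt_irrefl _ (h3 b' h4 h2)
    · rintro r hr (h4 | h4)
      · exact lt_asymm h2 (lt_trans h4.1 h4.2)
      · exact lt_asymm h4.2 (h3 r hr h4.1)
    · rintro r (h4 | h4)
      · exact absurd h1 (lt_asymm (lt_trans h4.1 h4.2))
      · exact Or.inr ⟨lt_trans h2 h4.1, h4.2⟩

theorem fl_map {α' β' : Type*} (f : α → α') (g : β → β') (P : List (α × β)) :
    (fl P).map (Sum.map f g) = fl (P.map (Prod.map f g)) := by
  induction P with
  | nil => rfl
  | cons p P ih =>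
    have h1 : fl (p :: P) = Sum.inl p.1 :: Sum.inr p.2 :: fl P := by simp [fl]
    have h2 : fl ((p :: P).map (Prod.map f g))
        = Sum.inl (f p.1) :: Sum.inr (g p.2) :: fl (P.map (Prod.map f g)) := by simp [fl]
    rw [h1, h2, ← ih]
    simp

theorem mem_fl_l (P : List (α × β)) (a : α) : Sum.inl a ∈ fl P ↔ a ∈ P.map Prod.fst := by
  induction P with
  | nil => simp [fl]
  | cons p P ih =>
    have h1 : fl (p :: P) = Sum.inl p.1 :: Sum.inr p.2 :: fl P := by simp [fl]
    rw [h1]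
    simp only [List.mem_cons, reduceCtorEq, false_or, ih, List.map_cons, Sum.inl.injEq]

theorem mem_fl_r (P : List (α × β)) (a : β) : Sum.inr a ∈ fl P ↔ a ∈ P.map Prod.snd := by
  induction P with
  | nil => simp [fl]
  | cons p P ih =>
    have h1 : fl (p :: P) = Sum.inl p.1 :: Sum.inr p.2 :: fl P := by simp [fl]
    rw [h1]
    simp only [List.mem_cons, reduceCtorEq, false_or, ih, List.map_cons, Sum.inr.injEq]

theorem fl_nodup (P : List (α × β)) (h : (fl P).Nodup) :
    (P.map Prod.fst).Nodup ∧ (P.map Prod.snd).Nodup := by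
  induction P with
  | nil => simp
  | cons p P ih =>
    have h1 : fl (p :: P) = Sum.inl p.1 :: Sum.inr p.2 :: fl P := by simp [fl]
    rw [h1] at h
    have h2 : Sum.inl p.1 ∉ fl P ∧ Sum.inr p.2 ∉ fl P ∧ (fl P).Nodup := by
      have h3 := List.nodup_cons.1 h
      have h4 := List.nodup_cons.1 h3.2
      refine ⟨fun h5 => h3.1 (by simp [h5]), h4.1, h4.2⟩
    rw [mem_fl_l, mem_fl_r] at h2
    obtain ⟨h3, h4⟩ := ih h2.2.2
    simp only [List.map_cons, List.nodup_cons]
    exact ⟨⟨h2.1, h3⟩, ⟨h2.2.1, h4⟩⟩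

/-- the basic step -/
theorem scol (c₁ b₁ c₂ c₀ b₀ x : Q) (P : List (Q × Q)) (f g : Q → ℝ)
    (hn : (fl ((c₀, b₀) :: (c₁, b₁) :: (c₂, x) :: P)).Nodup)
    (hf : ∀ a b, a ∈ ((c₀, b₀) :: (c₁, b₁) :: (c₂, x) :: P).map Prod.fst →
      b ∈ ((c₀, b₀) :: (c₁, b₁) :: (c₂, x) :: P).map Prod.fst → a < b → f b < f a)
    (hg : ∀ a b, a ∈ ((c₀, b₀) :: (c₁, b₁) :: (c₂, x) :: P).map Prod.snd →
      b ∈ ((c₀, b₀) :: (c₁, b₁) :: (c₂, x) :: P).map Prod.snd → a < b → g a < g b)
    (hb : ∀ d ∈ ((c₀, b₀) :: (c₁, b₁) :: (c₂, x) :: P).map Prod.snd, ¬ Btw b₁ b₀ d)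
    (h : b₁ < b₀ ∧ cyc c₂ c₀ c₁ ∨ b₀ < b₁ ∧ cyc c₀ c₂ c₁) :
    Mv (((c₀, b₀) :: (c₁, b₁) :: (c₂, x) :: P).map (Prod.map f g))
      (((c₀, b₀) :: (c₂, x) :: P).map (Prod.map f g)) := by
  obtain ⟨hn1, hn2⟩ := fl_nodup _ hn
  set L := (c₀, b₀) :: (c₁, b₁) :: (c₂, x) :: P with hL
  have e1 : (L.map (Prod.map f g)).map Prod.fst = (L.map Prod.fst).map f := by
    simp [List.map_map, Function.comp_def]
  have e2 : (L.map (Prod.map f g)).map Prod.snd = (L.map Prod.snd).map g := by
    simp [List.map_map, Function.comp_def]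
  have hN : Nd (L.map (Prod.map f g)) := by
    constructor
    · rw [e1]
      refine List.Nodup.map_on ?_ hn1
      intro a ha b hb hab
      by_contra hne
      rcases lt_or_gt_of_ne hne with h1 | h1
      · exact absurd hab (hf a b ha hb h1).ne'
      · exact absurd hab (hf b a hb ha h1).ne
    · rw [e2]
      refine List.Nodup.map_on ?_ hn2
      intro a ha b hb hab
      by_contra hne
      rcases lt_or_gt_of_ne hne with h1 | h1
      · exact absurd hab (hg a b ha hb h1).ne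
      · exact absurd hab (hg b a hb ha h1).ne'
  have m0 : c₀ ∈ L.map Prod.fst := by simp [hL]
  have m1 : c₁ ∈ L.map Prod.fst := by simp [hL]
  have m2 : c₂ ∈ L.map Prod.fst := by simp [hL]
  have k0 : b₀ ∈ L.map Prod.snd := by simp [hL]
  have k1 : b₁ ∈ L.map Prod.snd := by simp [hL]
  have f01 := hf c₀ c₁ m0 m1
  have f02 := hf c₀ c₂ m0 m2
  have f10 := hf c₁ c₀ m1 m0
  have f12 := hf c₁ c₂ m1 m2
  have f20 := hf c₂ c₀ m2 m0
  have f21 := hf c₂ c₁ m2 m1
  have key : ∀ d ∈ L.map Prod.snd, (b₁ < b₀ → ¬ cyc (g b₁) (g d) (g b₀)) ∧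
      (b₀ < b₁ → ¬ cyc (g b₀) (g d) (g b₁)) := by
    intro d hd
    have hd0 := hg d b₀ hd k0
    have hd1 := hg d b₁ hd k1
    have h0d := hg b₀ d k0 hd
    have h1d := hg b₁ d k1 hd
    have h01 := hg b₀ b₁ k0 k1
    have h10 := hg b₁ b₀ k1 k0
    have hB := hb d hd
    constructor
    · intro hlt hc
      have h2 := h10 hlt
      have h3 : g b₁ < g d ∧ g d < g b₀ := by
        unfold cyc at hc
        rcases hc with hc | hc | hc
        · exact hc
        · exact absurd h2 (lt_asymm hc.2)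
        · exact absurd h2 (lt_asymm hc.1)
      apply hB
      left
      constructor
      · by_contra hcon
        rcases eq_or_lt_of_le (not_lt.1 hcon) with h4 | h4
        · rw [h4] at h3
          exact lt_irrefl _ h3.1
        · exact lt_asymm h3.1 (hd1 h4)
      · by_contra hcon
        rcases eq_or_lt_of_le (not_lt.1 hcon) with h4 | h4
        · rw [h4] at h3
          exact lt_irrefl _ h3.2
        · exact lt_asymm h3.2 (h0d h4)
    · intro hlt hc
      have h2 := h01 hlt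
      have h3 : g b₀ < g d ∧ g d < g b₁ := by
        unfold cyc at hc
        rcases hc with hc | hc | hc
        · exact hc
        · exact absurd h2 (lt_asymm hc.2)
        · exact absurd h2 (lt_asymm hc.1)
      apply hB
      right
      constructor
      · by_contra hcon
        rcases eq_or_lt_of_le (not_lt.1 hcon) with h4 | h4
        · rw [h4] at h3
          exact lt_irrefl _ h3.1
        · exact lt_asymm h3.1 (hd0 h4)
      · by_contra hcon
        rcases eq_or_lt_of_le (not_lt.1 hcon) with h4 | h4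
        · rw [h4] at h3
          exact lt_irrefl _ h3.2
        · exact lt_asymm h3.2 (h1d h4)
  have hmv := Mv.scol (f c₀) (g b₀) (f c₁) (g b₁) (f c₂, g x) (P.map (Prod.map f g))
    (by simpa [hL] using hN)
    (by
      rcases h with ⟨h1, h2⟩ | ⟨h1, h2⟩
      · right
        constructor
        · intro d hd
          have hd' : d ∈ (L.map Prod.snd).map g := by
            rw [← e2, hL]
            simpa using hd
          obtain ⟨d', hd1, rfl⟩ := List.mem_map.1 hd'
          exact (key d' hd1).1 h1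
        · unfold cyc at h2
          change cyc (f c₁) (f c₀) (f c₂)
          unfold cyc
          rcases h2 with h2 | h2 | h2
          · exact Or.inl ⟨f01 h2.2, f20 h2.1⟩
          · exact Or.inr (Or.inr ⟨f12 h2.2, f01 h2.1⟩)
          · exact Or.inr (Or.inl ⟨f20 h2.2, f12 h2.1⟩)
      · left
        constructor
        · intro d hd
          have hd' : d ∈ (L.map Prod.snd).map g := by
            rw [← e2, hL]
            simpa using hd
          obtain ⟨d', hd1, rfl⟩ := List.mem_map.1 hd'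
          exact (key d' hd1).2 h1
        · unfold cyc at h2
          change cyc (f c₂) (f c₀) (f c₁)
          unfold cyc
          rcases h2 with h2 | h2 | h2
          · exact Or.inr (Or.inr ⟨f21 h2.2, f02 h2.1⟩)
          · exact Or.inr (Or.inl ⟨f10 h2.2, f21 h2.1⟩)
          · exact Or.inl ⟨f02 h2.2, f10 h2.1⟩)
  simpa [hL] using hmv

/-- the last step -/
theorem last (rpe : Stmt_RPE) (c₁ b' c₂ c₀ b₀ x : Q) (P : List (Q × Q))
    (hA3 : Alt (Sum.inl c₁ :: Sum.inr b' :: Sum.inl c₂ ::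
      ((Sum.inr x :: fl P) ++ [Sum.inl c₀, Sum.inr b₀])))
    (hN3 : (Sum.inl c₁ :: Sum.inr b' :: Sum.inl c₂ ::
      ((Sum.inr x :: fl P) ++ [Sum.inl c₀, Sum.inr b₀])).Nodup)
    (hb : ∀ d, Sum.inr d ∈ (Sum.inl c₁ :: Sum.inr b' :: Sum.inl c₂ ::
      ((Sum.inr x :: fl P) ++ [Sum.inl c₀, Sum.inr b₀])) → ¬ Btw b' b₀ d)
    (hc : b' < b₀ ∧ cyc c₂ c₀ c₁ ∨ b₀ < b' ∧ cyc c₀ c₂ c₁) :
    WE (Sum.inl c₁ :: Sum.inr b' :: Sum.inl c₂ ::
      ((Sum.inr x :: fl P) ++ [Sum.inl c₀, Sum.inr b₀]))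
      (Sum.inl c₂ :: ((Sum.inr x :: fl P) ++ [Sum.inl c₀, Sum.inr b₀])) := by
  obtain ⟨M, -, f, g, hf, hg, -⟩ := rpe _ hA3 hN3
  have hfl : fl ((c₀, b₀) :: (c₁, b') :: (c₂, x) :: P)
      = [Sum.inl c₀, Sum.inr b₀] ++ (Sum.inl c₁ :: Sum.inr b' :: Sum.inl c₂ ::
        (Sum.inr x :: fl P)) := by
    simp [fl]
  have hfl' : fl ((c₀, b₀) :: (c₂, x) :: P)
      = [Sum.inl c₀, Sum.inr b₀] ++ (Sum.inl c₂ :: (Sum.inr x :: fl P)) := by
    simp [fl]
  have hrot1 : List.IsRotated (fl ((c₀, b₀) :: (c₁, b') :: (c₂, x) :: P))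
      (Sum.inl c₁ :: Sum.inr b' :: Sum.inl c₂ ::
        ((Sum.inr x :: fl P) ++ [Sum.inl c₀, Sum.inr b₀])) := by
    rw [hfl]
    exact List.isRotated_append
  have hrot2 : List.IsRotated (fl ((c₀, b₀) :: (c₂, x) :: P))
      (Sum.inl c₂ :: ((Sum.inr x :: fl P) ++ [Sum.inl c₀, Sum.inr b₀])) := by
    rw [hfl']
    exact List.isRotated_append
  generalize hW : (Sum.inl c₁ :: Sum.inr b' :: Sum.inl c₂ ::
        ((Sum.inr x :: fl P) ++ [Sum.inl c₀, Sum.inr b₀]) : List En) = W at *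
  generalize hW' : (Sum.inl c₂ :: ((Sum.inr x :: fl P) ++ [Sum.inl c₀, Sum.inr b₀]) : List En)
    = W' at *
  have hWW : W = Sum.inl c₁ :: Sum.inr b' :: W' := by rw [← hW, ← hW']
  have hsub : ∀ y, y ∈ W' → y ∈ W := by
    intro y hy
    rw [hWW]
    exact List.mem_cons_of_mem _ (List.mem_cons_of_mem _ hy)
  have hmem : ∀ y : En, y ∈ fl ((c₀, b₀) :: (c₁, b') :: (c₂, x) :: P) ↔ y ∈ W :=
    fun y => hrot1.perm.mem_iff
  have hmv := scol c₁ b' c₂ c₀ b₀ x P f g (hrot1.perm.nodup_iff.2 hN3)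
    (fun a b ha hb hab => hf a b ((hmem _).1 ((mem_fl_l _ _).2 ha))
      ((hmem _).1 ((mem_fl_l _ _).2 hb)) hab)
    (fun a b ha hb hab => hg a b ((hmem _).1 ((mem_fl_r _ _).2 ha))
      ((hmem _).1 ((mem_fl_r _ _).2 hb)) hab)
    (fun d hd hbt => hb d ((hmem _).1 ((mem_fl_r _ _).2 hd)) hbt) hc
  refine ⟨_, _, ⟨hN3, f, g, hf, hg, ?_⟩, ⟨?_, f, g, ?_, ?_, ?_⟩,
    Relation.EqvGen.rel _ _ hmv⟩
  · rw [← fl_map]
    exact hrot1.map _
  · rw [hWW, List.nodup_cons, List.nodup_cons] at hN3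
    exact hN3.2.2
  · intro a b ha hb hab
    exact hf a b (hsub _ ha) (hsub _ hb) hab
  · intro a b ha hb hab
    exact hg a b (hsub _ ha) (hsub _ hb) hab
  · rw [← fl_map]
    exact hrot2.map _

/-- replacing the row -/
theorem repl (web : P_WEB) (rm : P_RM) (c₁ b₁ b' c₂ : Q) (T : List En)
    (hA : Alt (Sum.inl c₁ :: Sum.inr b₁ :: Sum.inl c₂ :: T))
    (hN : (Sum.inl c₁ :: Sum.inr b₁ :: Sum.inl c₂ :: T).Nodup)
    (hnot : Sum.inr b' ∉ T) (e1 : b' ≠ b₁)
    (hM : ∀ c r, Mk (Sum.inl c₁ :: Sum.inr b₁ :: Sum.inl c₂ :: T) c r → Btw b₁ b' r →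
      c ∉ uIcc c₁ c₂) :
    WE (Sum.inl c₁ :: Sum.inr b₁ :: Sum.inl c₂ :: T) (Sum.inl c₁ :: Sum.inr b' :: Sum.inl c₂ :: T) ∧
      Alt (Sum.inl c₁ :: Sum.inr b' :: Sum.inl c₂ :: T) ∧
      (Sum.inl c₁ :: Sum.inr b' :: Sum.inl c₂ :: T).Nodup := by
  have r1 : WE (Sum.inl c₁ :: Sum.inr b₁ :: Sum.inl c₂ :: T)
      (Sum.inr b₁ :: Sum.inl c₂ :: (T ++ [Sum.inl c₁])) :=
    web.rot [Sum.inl c₁] (Sum.inr b₁ :: Sum.inl c₂ :: T) hA hN
  have hA1 : Alt (Sum.inr b₁ :: Sum.inl c₂ :: (T ++ [Sum.inl c₁])) :=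
    alt_rot (A := [Sum.inl c₁]) (B := Sum.inr b₁ :: Sum.inl c₂ :: T) hA
  have hN1 : (Sum.inr b₁ :: Sum.inl c₂ :: (T ++ [Sum.inl c₁])).Nodup := by
    have hp : List.Perm (Sum.inl c₁ :: Sum.inr b₁ :: Sum.inl c₂ :: T)
      (Sum.inr b₁ :: Sum.inl c₂ :: (T ++ [Sum.inl c₁])) :=
      List.perm_append_comm (l₁ := [Sum.inl c₁]) (l₂ := Sum.inr b₁ :: Sum.inl c₂ :: T)
    exact hp.nodup_iff.1 hN
  have r2 := rm b₁ b' c₁ c₂ T hA1 hN1 hnot e1 (by
    intro c r hm hb
    apply hM c r ?_ hb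
    have hrot : ∀ p : En × En,
        p ∈ cp (Sum.inr b₁ :: Sum.inl c₂ :: (T ++ [Sum.inl c₁])) →
        p ∈ cp (Sum.inl c₁ :: Sum.inr b₁ :: Sum.inl c₂ :: T) := by
      intro p hp
      exact cp_rot (Sum.inr b₁ :: Sum.inl c₂ :: T) [Sum.inl c₁] p hp
    rcases hm with hm | hm
    · exact Or.inl (hrot _ hm)
    · exact Or.inr (hrot _ hm))
  have hA2 : Alt (Sum.inr b' :: Sum.inl c₂ :: (T ++ [Sum.inl c₁])) := by
    rw [alt_iff] at hA1 ⊢
    have h2 : ∀ z : En, (z :: ((Sum.inl c₂ :: (T ++ [Sum.inl c₁])) ++ [z]))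
        = z :: ((Sum.inl c₂ :: (T ++ [Sum.inl c₁])) ++ [z]) := fun z => rfl
    rw [List.cons_append, List.isChain_cons_cons, ← List.cons_append, List.isChain_append]
      at hA1 ⊢
    refine ⟨by simp, hA1.2.1, by simp, ?_⟩
    intro y hy z hz
    have h3 := hA1.2.2.2 y hy (Sum.inr b₁) (by simp)
    have hz' : z = Sum.inr b' := by simpa using hz.symm
    rw [hz']
    simpa using h3
  have hN2 : (Sum.inr b' :: Sum.inl c₂ :: (T ++ [Sum.inl c₁])).Nodup := by
    rw [List.nodup_cons] at hN1 ⊢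
    refine ⟨?_, hN1.2⟩
    intro h
    apply hnot
    simpa using h
  have r3 : WE (Sum.inr b' :: Sum.inl c₂ :: (T ++ [Sum.inl c₁]))
      (Sum.inl c₁ :: Sum.inr b' :: Sum.inl c₂ :: T) :=
    web.rot (Sum.inr b' :: Sum.inl c₂ :: T) [Sum.inl c₁] hA2 hN2
  have hA3 : Alt (Sum.inl c₁ :: Sum.inr b' :: Sum.inl c₂ :: T) :=
    alt_rot (A := Sum.inr b' :: Sum.inl c₂ :: T) (B := [Sum.inl c₁]) hA2
  have hp3 : List.Perm (Sum.inl c₁ :: Sum.inr b' :: Sum.inl c₂ :: T)
      (Sum.inr b' :: Sum.inl c₂ :: (T ++ [Sum.inl c₁])) :=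
    List.perm_append_comm (l₁ := [Sum.inl c₁]) (l₂ := Sum.inr b' :: Sum.inl c₂ :: T)
  exact ⟨web.trans _ _ _ r1 (web.trans _ _ _ r2 r3), hA3, hp3.nodup_iff.2 hN2⟩

end DC1

open _root_.LH.DC1 in
theorem t_DC1 : Stmt_DC1 := by
  intro web rpe rm c₁ b₁ c₂ c₀ b₀ B hA hN hM hc
  -- the structure of `B`
  have hch := (alt_iff _ _).1 hA
  have hB1 : List.IsChain (fun x y : En => x.isLeft = !y.isLeft)
      ((Sum.inl c₂ :: B) ++ [Sum.inl c₀]) := by
    have h1 : (Sum.inl c₁ : En) :: ((Sum.inr b₁ :: Sum.inl c₂ ::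
          (B ++ [Sum.inl c₀, Sum.inr b₀])) ++ [Sum.inl c₁])
        = [Sum.inl c₁, Sum.inr b₁] ++ (((Sum.inl c₂ :: B) ++ [Sum.inl c₀]) ++
          [Sum.inr b₀, Sum.inl c₁]) := by
      simp
    rw [h1] at hch
    exact (List.isChain_append.1 (List.isChain_append.1 hch).2.1).1
  have hB2 := List.isChain_append.1 hB1
  obtain ⟨P, hP⟩ := exists_fl (Sum.inl c₂ :: B) hB2.1 (by simp) (by
    intro a ha
    have := hB2.2.2 a ha (Sum.inl c₀) (by simp)
    simpa using this)
  have hex : ∃ x P', B = Sum.inr x :: fl P' := by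
    cases P with
    | nil => simp [fl] at hP
    | cons p P =>
      obtain ⟨c₂', x⟩ := p
      have hP2 : c₂ = c₂' ∧ B = Sum.inr x :: fl P := by simpa [fl] using hP
      exact ⟨x, P, hP2.2⟩
  obtain ⟨x, P', hBx⟩ := hex
  clear hP hB2 hB1 hch
  have hne : b₁ ≠ b₀ := by
    intro h
    rcases hc with h1 | h1
    · exact absurd h1.1 (by rw [h]; exact lt_irrefl _)
    · exact absurd h1.1 (by rw [h]; exact lt_irrefl _)
  obtain ⟨b', e1, e2, e3, e4, e5, e6, e7⟩ := pos b₁ b₀ hne
    (Sum.inl c₁ :: Sum.inr b₁ :: Sum.inl c₂ :: (B ++ [Sum.inl c₀, Sum.inr b₀]))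
  have hnot : Sum.inr b' ∉ (B ++ [Sum.inl c₀, Sum.inr b₀]) := fun h =>
    e3 (List.mem_cons_of_mem _ (List.mem_cons_of_mem _ (List.mem_cons_of_mem _ h)))
  obtain ⟨r1, hA3, hN3⟩ := repl web rm c₁ b₁ b' c₂ (B ++ [Sum.inl c₀, Sum.inr b₀]) hA hN hnot e1
    (fun c r hm hb => hM c r hm (e5 r hb))
  refine web.trans _ _ _ r1 ?_
  have hb4 : ∀ d, Sum.inr d ∈ (Sum.inl c₁ :: Sum.inr b' :: Sum.inl c₂ ::
      (B ++ [Sum.inl c₀, Sum.inr b₀])) → ¬ Btw b' b₀ d := by
    intro d h1 hbt
    have h2 : d = b' ∨ Sum.inr d ∈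
        (Sum.inl c₁ :: Sum.inr b₁ :: Sum.inl c₂ :: (B ++ [Sum.inl c₀, Sum.inr b₀])) := by
      simp only [List.mem_cons, reduceCtorEq, false_or, Sum.inr.injEq] at h1 ⊢
      tauto
    rcases h2 with h2 | h2
    · rw [h2] at hbt
      rcases hbt with h3 | h3
      · exact lt_irrefl _ h3.1
      · exact lt_irrefl _ h3.2
    · exact e4 d h2 hbt
  have hc4 : b' < b₀ ∧ cyc c₂ c₀ c₁ ∨ b₀ < b' ∧ cyc c₀ c₂ c₁ := by
    rcases hc with h1 | h1
    · exact Or.inl ⟨e6 h1.1, h1.2⟩
    · exact Or.inr ⟨e7 h1.1, h1.2⟩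
  subst hBx
  exact last rpe c₁ b' c₂ c₀ b₀ x P' hA3 hN3 hb4 hc4

end LH


end

section

/-!
# NXT: two walks without zigzags have the same items up to the edges of the turns
-/

namespace LH

open Set LG

namespace NXT

/-- Turns. -/
def Tn (i : It) : Prop := i.k = .R ∨ i.k = .L

theorem pass {i : It} (h : ¬ Tn i) : i.k = .rt ∨ i.k = .lt := by
  unfold Tn at h
  cases hk : i.k <;> simp_all

theorem nozz (hS : P_SEQ) {N : ℕ} {P : Pg N} {X : Finset ℝ} {w : List It} {W : ℤ → It}
    (hg : GW P X w) (hq : Sq P X w W) (n : ℤ) : Tn (W n) → ¬ Tn (W (n + 1)) := by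
  intro hn hn1
  have h1 := (hS.cp P X w W hq (pt P (W n), pt P (W (n + 1)))).2 ⟨n, rfl⟩
  have h2 : cp (w.map (pt P)) = (cp w).map (Prod.map (pt P) (pt P)) := by
    unfold cp
    rw [← List.map_rotate, List.zip_map]
  rw [h2, List.mem_map] at h1
  obtain ⟨x, hx, hxe⟩ := h1
  have e1 : x.1.k = (W n).k := congrArg (fun q : Pt × Pt => q.1.k) hxe
  have e2 : x.2.k = (W (n + 1)).k := congrArg (fun q : Pt × Pt => q.2.k) hxe
  apply hg.2 x hx
  rw [e1, e2]
  exact ⟨hn, hn1⟩

/-- The slab of a link. -/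
theorem slab {N : ℕ} {P : Pg N} {X : Finset ℝ} {i j : It} (h : Lnk P X i j) :
    ∃ a b, AdjX X a b ∧
      (i.k.fw ∧ j.k.ar ∧ i.t = a ∧ j.t = b ∨ ¬ i.k.fw ∧ ¬ j.k.ar ∧ i.t = b ∧ j.t = a) ∧
      ∀ m, i.e < m → m ≤ j.e → a < P.x m ∧ P.x m < b := by
  rcases h.dir with ⟨h1, h2, h3⟩ | ⟨h1, h2, h3⟩
  · refine ⟨i.t, j.t, ?_, Or.inl ⟨h1, h2, rfl, rfl⟩, ?_⟩
    · rcases h.adj with h4 | h4
      · exact h4
      · exact absurd h4.2.2.1 (not_lt.mpr h3.le)
    · intro m hm hm'
      rcases h.ins m hm hm' with h4 | h4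
      · exact h4
      · linarith [h4.1, h4.2]
  · refine ⟨j.t, i.t, ?_, Or.inr ⟨h1, h2, rfl, rfl⟩, ?_⟩
    · rcases h.adj with h4 | h4
      · exact absurd h4.2.2.1 (not_lt.mpr h3.le)
      · exact h4
    · intro m hm hm'
      rcases h.ins m hm hm' with h4 | h4
      · linarith [h4.1, h4.2]
      · exact h4

theorem adj_r {X : Finset ℝ} {a b b' : ℝ} (h : AdjX X a b) (h' : AdjX X a b') : b = b' := by
  rcases lt_trichotomy b b' with h1 | h1 | h1
  · exact absurd ⟨h.2.2.1, h1⟩ (h'.2.2.2 b h.2.1)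
  · exact h1
  · exact absurd ⟨h'.2.2.1, h1⟩ (h.2.2.2 b' h'.2.1)

theorem adj_l {X : Finset ℝ} {a a' b : ℝ} (h : AdjX X a b) (h' : AdjX X a' b) : a = a' := by
  rcases lt_trichotomy a a' with h1 | h1 | h1
  · exact absurd ⟨h1, h'.2.2.1⟩ (h.2.2.2 a' h'.1)
  · exact h1
  · exact absurd ⟨h1, h.2.2.1⟩ (h'.2.2.2 a h.1)

/-- The next passing item. -/
structure Nx {N : ℕ} (P : Pg N) (X : Finset ℝ) (i j : It) (a b : ℝ) : Prop where
  ad : AdjX X a b
  ex : i.k = .rt ∧ i.t = a ∨ i.k = .lt ∧ i.t = b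
  le : i.e ≤ j.e
  ins : ∀ m, i.e < m → m ≤ j.e → a < P.x m ∧ P.x m < b
  en : j.k = .rt ∧ j.t = b ∨ j.k = .lt ∧ j.t = a
  ok : ItOK P j

theorem Nx.out {N : ℕ} {P : Pg N} {X : Finset ℝ} {i j : It} {a b : ℝ} (h : Nx P X i j a b) :
    j.k = .rt ∧ b < P.x (j.e + 1) ∨ j.k = .lt ∧ P.x (j.e + 1) < a := by
  rcases h.en with ⟨h1, h2⟩ | ⟨h1, h2⟩
  · left
    refine ⟨h1, ?_⟩
    rw [← h2]
    exact (h.ok.1 h1).2
  · right
    refine ⟨h1, ?_⟩
    rw [← h2]
    exact (h.ok.2 h1).1

theorem Nx.slab_eq {N : ℕ} {P : Pg N} {X : Finset ℝ} {i j j' : It} {a b a' b' : ℝ}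
    (h : Nx P X i j a b) (h' : Nx P X i j' a' b') : a = a' ∧ b = b' := by
  rcases h.ex with ⟨h1, h2⟩ | ⟨h1, h2⟩ <;> rcases h'.ex with ⟨h3, h4⟩ | ⟨h3, h4⟩
  · have h5 : a = a' := h2.symm.trans h4
    subst h5
    exact ⟨rfl, adj_r h.ad h'.ad⟩
  · rw [h1] at h3
    cases h3
  · rw [h1] at h3
    cases h3
  · have h5 : b = b' := h2.symm.trans h4
    subst h5
    exact ⟨adj_l h.ad h'.ad, rfl⟩

theorem Nx.le_e {N : ℕ} {P : Pg N} {X : Finset ℝ} {i j j' : It} {a b : ℝ}
    (h : Nx P X i j a b) (h' : Nx P X i j' a b) : j'.e ≤ j.e := by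
  by_contra hc
  push Not at hc
  have h1 := h'.ins (j.e + 1) (by have := h.le; omega) (by omega)
  have h2 := h.ad.2.2.1
  rcases h.out with ⟨-, h3⟩ | ⟨-, h3⟩ <;> linarith [h1.1, h1.2]

theorem Nx.uniq {N : ℕ} {P : Pg N} {X : Finset ℝ} {i j j' : It} {a b a' b' : ℝ}
    (h : Nx P X i j a b) (h' : Nx P X i j' a' b') : j = j' := by
  obtain ⟨rfl, rfl⟩ := h.slab_eq h'
  have he : j.e = j'.e := le_antisymm (h'.le_e h) (h.le_e h')
  have h2 := h.ad.2.2.1
  have hk : j.k = j'.k ∧ j.t = j'.t := by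
    rcases h.en with ⟨h3, h4⟩ | ⟨h3, h4⟩ <;> rcases h'.en with ⟨h5, h6⟩ | ⟨h5, h6⟩
    · exact ⟨h3.trans h5.symm, h4.trans h6.symm⟩
    · have h7 := (h.ok.1 h3).2
      have h8 := (h'.ok.2 h5).1
      rw [he] at h7
      linarith
    · have h7 := (h.ok.2 h3).1
      have h8 := (h'.ok.1 h5).2
      rw [he] at h7
      linarith
    · exact ⟨h3.trans h5.symm, h4.trans h6.symm⟩
  cases j
  cases j'
  simp only [It.mk.injEq]
  exact ⟨hk.1, hk.2, he⟩

/-- The two possibilities after a passing item. -/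
theorem step (hS : P_SEQ) {N : ℕ} {P : Pg N} {X : Finset ℝ} {w : List It} {W : ℤ → It}
    (hg : GW P X w) (hq : Sq P X w W) (n : ℤ) (hn : ¬ Tn (W n)) :
    ∃ a b, (¬ Tn (W (n + 1)) ∧ (W (n + 1)).k = (W n).k ∧ Nx P X (W n) (W (n + 1)) a b) ∨
      (Tn (W (n + 1)) ∧ ((W n).k = .rt ∧ (W (n + 1)).k = .R ∧ (W (n + 1)).t = b ∨
          (W n).k = .lt ∧ (W (n + 1)).k = .L ∧ (W (n + 1)).t = a) ∧
        (W (n + 1 + 1)).k ≠ (W n).k ∧ Nx P X (W n) (W (n + 1 + 1)) a b) := by
  obtain ⟨a, b, had, hd, hin⟩ := slab (hq.lnk n)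
  refine ⟨a, b, ?_⟩
  by_cases ht : Tn (W (n + 1))
  · right
    have hn2 := nozz hS hg hq (n + 1) ht
    obtain ⟨a', b', had', hd', hin'⟩ := slab (hq.lnk (n + 1))
    rcases pass hn with hk | hk
    · -- moving to the right
      rcases hd with ⟨h1, h2, h3, h4⟩ | ⟨h1, h2, h3, h4⟩
      swap
      · rw [hk] at h1
        exact absurd trivial h1
      have hk1 : (W (n + 1)).k = .R := by
        rcases ht with h | h
        · exact h
        · rw [h] at h2
          exact absurd h2 id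
      rcases hd' with ⟨h1', h2', h3', h4'⟩ | ⟨h1', h2', h3', h4'⟩
      · rw [hk1] at h1'
        exact absurd h1' id
      have hk2 : (W (n + 1 + 1)).k = .lt := by
        rcases pass hn2 with h | h
        · rw [h] at h2'
          exact absurd trivial h2'
        · exact h
      have hb : b = b' := h4.symm.trans h3'
      subst hb
      have ha : a = a' := adj_l had had'
      subst ha
      refine ⟨ht, Or.inl ⟨hk, hk1, h4⟩, ?_, ?_⟩
      · rw [hk2, hk]
        decide
      · refine ⟨had, Or.inl ⟨hk, h3⟩, (hq.lnk n).le.trans (hq.lnk (n + 1)).le, ?_,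
          Or.inr ⟨hk2, h4'⟩, hq.ok _⟩
        intro m hm hm'
        by_cases hc : m ≤ (W (n + 1)).e
        · exact hin m hm hc
        · exact hin' m (not_le.mp hc) hm'
    · rcases hd with ⟨h1, h2, h3, h4⟩ | ⟨h1, h2, h3, h4⟩
      · rw [hk] at h1
        exact absurd h1 id
      have hk1 : (W (n + 1)).k = .L := by
        rcases ht with h | h
        · rw [h] at h2
          exact absurd trivial h2
        · exact h
      rcases hd' with ⟨h1', h2', h3', h4'⟩ | ⟨h1', h2', h3', h4'⟩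
      swap
      · rw [hk1] at h1'
        exact absurd trivial h1'
      have hk2 : (W (n + 1 + 1)).k = .rt := by
        rcases pass hn2 with h | h
        · exact h
        · rw [h] at h2'
          exact absurd h2' id
      have ha : a = a' := h4.symm.trans h3'
      subst ha
      have hb : b = b' := adj_r had had'
      subst hb
      refine ⟨ht, Or.inr ⟨hk, hk1, h4⟩, ?_, ?_⟩
      · rw [hk2, hk]
        decide
      · refine ⟨had, Or.inr ⟨hk, h3⟩, (hq.lnk n).le.trans (hq.lnk (n + 1)).le, ?_,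
          Or.inl ⟨hk2, h4'⟩, hq.ok _⟩
        intro m hm hm'
        by_cases hc : m ≤ (W (n + 1)).e
        · exact hin m hm hc
        · exact hin' m (not_le.mp hc) hm'
  · left
    rcases pass hn with hk | hk
    · rcases hd with ⟨h1, h2, h3, h4⟩ | ⟨h1, h2, h3, h4⟩
      swap
      · rw [hk] at h1
        exact absurd trivial h1
      have hk1 : (W (n + 1)).k = .rt := by
        rcases pass ht with h | h
        · exact h
        · rw [h] at h2
          exact absurd h2 id
      exact ⟨ht, hk1.trans hk.symm, had, Or.inl ⟨hk, h3⟩, (hq.lnk n).le, hin,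
        Or.inl ⟨hk1, h4⟩, hq.ok _⟩
    · rcases hd with ⟨h1, h2, h3, h4⟩ | ⟨h1, h2, h3, h4⟩
      · rw [hk] at h1
        exact absurd h1 id
      have hk1 : (W (n + 1)).k = .lt := by
        rcases pass ht with h | h
        · rw [h] at h2
          exact absurd trivial h2
        · exact h
      exact ⟨ht, hk1.trans hk.symm, had, Or.inr ⟨hk, h3⟩, (hq.lnk n).le, hin,
        Or.inr ⟨hk1, h4⟩, hq.ok _⟩

theorem smI_refl (i : It) : SmI i i := ⟨rfl, rfl, fun _ => rfl⟩

theorem smI_eq {i j : It} (h : SmI i j) (hi : ¬ Tn i) : i = j := by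
  obtain ⟨h1, h2, h3⟩ := h
  have h4 := h3 (pass hi)
  cases i
  cases j
  simp only [It.mk.injEq]
  exact ⟨h1, h2, h4⟩

/-- Equal passing items have the same successors. -/
theorem succ (hS : P_SEQ) {N : ℕ} {P : Pg N} {X : Finset ℝ} {w w' : List It} {W W' : ℤ → It}
    (hg : GW P X w) (hq : Sq P X w W) (hg' : GW P X w') (hq' : Sq P X w' W') (n n' : ℤ)
    (hn : ¬ Tn (W n)) (he : W n = W' n') :
    SmI (W (n + 1)) (W' (n' + 1)) ∧
      (Tn (W (n + 1)) → SmI (W (n + 1 + 1)) (W' (n' + 1 + 1))) := by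
  have hn' : ¬ Tn (W' n') := by rw [← he]; exact hn
  obtain ⟨a, b, h⟩ := step hS hg hq n hn
  obtain ⟨a', b', h'⟩ := step hS hg' hq' n' hn'
  rw [← he] at h'
  rcases h with ⟨h1, h2, h3⟩ | ⟨h1, h2, h3, h4⟩ <;>
    rcases h' with ⟨h1', h2', h3'⟩ | ⟨h1', h2', h3', h4'⟩
  · have h5 := h3.uniq h3'
    rw [← h5]
    exact ⟨smI_refl _, fun h => absurd h h1⟩
  · have h5 := h3.uniq h4'
    rw [← h5] at h3'
    exact absurd h2 h3'
  · have h5 := h4.uniq h3'
    rw [← h5] at h2'
    exact absurd h2' h3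
  · have h5 := h4.uniq h4'
    obtain ⟨rfl, rfl⟩ := h4.slab_eq h4'
    refine ⟨?_, fun _ => ?_⟩
    · rcases h2 with ⟨h6, h7, h8⟩ | ⟨h6, h7, h8⟩ <;> rcases h2' with ⟨h6', h7', h8'⟩ | ⟨h6', h7', h8'⟩
      · refine ⟨h7.trans h7'.symm, h8.trans h8'.symm, ?_⟩
        intro h9
        rw [h7] at h9
        rcases h9 with h9 | h9 <;> cases h9
      · rw [h6] at h6'
        cases h6'
      · rw [h6] at h6'
        cases h6'
      · refine ⟨h7.trans h7'.symm, h8.trans h8'.symm, ?_⟩
        intro h9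
        rw [h7] at h9
        rcases h9 with h9 | h9 <;> cases h9
    · rw [← h5]
      exact smI_refl _

/-- Forward agreement. -/
theorem fwd (hS : P_SEQ) {N : ℕ} {P : Pg N} {X : Finset ℝ} {w w' : List It} {W W' : ℤ → It}
    (hg : GW P X w) (hq : Sq P X w W) (hg' : GW P X w') (hq' : Sq P X w' W') (n n' : ℤ)
    (hn : ¬ Tn (W n)) (he : W n = W' n') (k : ℕ) :
    SmI (W (n + k)) (W' (n' + k)) ∧
      (Tn (W (n + k)) → SmI (W (n + k + 1)) (W' (n' + k + 1))) := by
  induction k with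
  | zero =>
    simp only [Nat.cast_zero, add_zero]
    rw [← he]
    exact ⟨smI_refl _, fun h => absurd h hn⟩
  | succ k ih =>
    have e1 : n + ((k + 1 : ℕ) : ℤ) = n + k + 1 := by push_cast; ring
    have e2 : n' + ((k + 1 : ℕ) : ℤ) = n' + k + 1 := by push_cast; ring
    rw [e1, e2]
    by_cases ht : Tn (W (n + k))
    · exact ⟨ih.2 ht, fun h => absurd h (nozz hS hg hq _ ht)⟩
    · exact succ hS hg hq hg' hq' _ _ ht (smI_eq ih.1 ht)

theorem per_mul {N : ℕ} {P : Pg N} {X : Finset ℝ} {w : List It} {W : ℤ → It}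
    (hq : Sq P X w W) (n : ℤ) (k : ℕ) :
    (W (n + k * w.length)).k = (W n).k ∧ (W (n + k * w.length)).t = (W n).t ∧
      (W (n + k * w.length)).e = (W n).e + k * N := by
  induction k with
  | zero => simp
  | succ k ih =>
    have e1 : n + ((k + 1 : ℕ) : ℤ) * w.length = n + k * w.length + w.length := by
      push_cast
      ring
    rw [e1, hq.per]
    refine ⟨ih.1, ih.2.1, ?_⟩
    change (W (n + k * w.length)).e + N = _
    rw [ih.2.2]
    push_cast
    ring

theorem common (hS : P_SEQ) {N : ℕ} {P : Pg N} {X : Finset ℝ} {w w' : List It} {W W' : ℤ → It}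
    (hg : GW P X w) (hq : Sq P X w W) (hq' : Sq P X w' W') :
    ∃ n n', ¬ Tn (W n) ∧ W n = W' n' := by
  obtain ⟨n, hn⟩ : ∃ n, ¬ Tn (W n) := by
    by_cases h0 : Tn (W 0)
    · exact ⟨0 + 1, nozz hS hg hq 0 h0⟩
    · exact ⟨0, h0⟩
  have hX : (W n).t ∈ X := by
    rcases (hq.lnk n).adj with h | h
    · exact h.1
    · exact h.2.1
  have hc := hS.cov P X w' W' hq' (W n).t hX (W n).e
  rcases pass hn with hk | hk
  · obtain ⟨n', hn'⟩ := hc.1 ((hq.ok n).1 hk).1 ((hq.ok n).1 hk).2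
    refine ⟨n, n', hn, ?_⟩
    rw [hn', ← hk]
  · obtain ⟨n', hn'⟩ := hc.2 ((hq.ok n).2 hk).1 ((hq.ok n).2 hk).2
    refine ⟨n, n', hn, ?_⟩
    rw [hn', ← hk]

end NXT

open _root_.LH.NXT in
theorem t_NXT : Stmt_NXT := by
  intro hS _ N P X w w' _ hg hg'
  obtain ⟨W, hq⟩ := hS.ex P X w hg.1
  obtain ⟨W', hq'⟩ := hS.ex P X w' hg'.1
  obtain ⟨n, n', hn, he⟩ := common hS hg hq hq'
  have hf := fwd hS hg hq hg' hq' n n' hn he
  have hn' : ¬ Tn (W' n') := by rw [← he]; exact hn
  have hf' := fwd hS hg' hq' hg hq n' n hn' he.symm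
  have hlen : w.length = w'.length := by
    have key : ∀ {w w' : List It} {W W' : ℤ → It}, Sq P X w W → Sq P X w' W' → ∀ n n' : ℤ,
        ¬ Tn (W n) → W n = W' n' →
        (∀ k : ℕ, SmI (W (n + k)) (W' (n' + k))) → w'.length ≤ w.length := by
      intro w w' W W' hq hq' n n' hn he hf
      by_contra hc
      push Not at hc
      have h1 : W (n + w.length) = W' (n' + w.length) := by
        apply smI_eq (hf w.length)
        rw [hq.per]
        exact hn
      have h2 : W' (n' + w.length) = W' (n' + w'.length) := by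
        rw [← h1, hq.per, hq'.per, he]
      have h3 := hS.lt P X w' W' hq' (n' + w.length) (n' + w'.length)
        (by have : (w.length : ℤ) < w'.length := by exact_mod_cast hc
            omega) (by rw [h2])
      rw [h2] at h3
      exact lt_irrefl _ h3
    exact le_antisymm (key hq' hq n' n hn' he.symm fun k => (hf' k).1)
      (key hq hq' n n' hn he fun k => (hf k).1)
  refine ⟨W, W', n' - n, hq, hq', hlen, ?_⟩
  intro m
  obtain ⟨k, j, hkj⟩ : ∃ k j : ℕ, m + k * w.length = n + j := by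
    refine ⟨(n - m).toNat, (m - n + (n - m).toNat * w.length).toNat, ?_⟩
    have h1 : (1 : ℤ) ≤ w.length := by exact_mod_cast hq.ne
    have h2 : 0 ≤ m - n + (n - m).toNat * w.length := by
      rcases le_total n m with h | h
      · have : (0 : ℤ) ≤ (n - m).toNat * w.length := by positivity
        linarith
      · rw [Int.toNat_of_nonneg (by linarith)]
        nlinarith
    rw [Int.toNat_of_nonneg h2]
    ring
  have h1 := per_mul hq m k
  have h2 := per_mul hq' (m + (n' - n)) k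
  have h3 := (hf j).1
  have e2 : m + (n' - n) + k * w'.length = n' + j := by
    rw [← hlen]
    linarith
  rw [hkj] at h1
  rw [e2] at h2
  obtain ⟨g1, g2, g3⟩ := h3
  refine ⟨?_, ?_, ?_⟩
  · rw [← h1.1, ← h2.1]
    exact g1
  · rw [← h1.2.1, ← h2.2.1]
    exact g2
  · intro h
    rw [← h1.1] at h
    have h4 := g3 h
    have h5 := h1.2.2
    have h6 := h2.2.2
    linarith

end LH


end

section

/-!
# Row move
-/

namespace LH

open Set LG

namespace RM

theorem emb (S : Finset Q) : ∃ g : Q → ℝ, ∀ a ∈ S, ∀ b ∈ S, a < b → g a < g b := by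
  classical
  refine ⟨fun b => ((S.filter (fun x => x < b)).card : ℝ), ?_⟩
  intro a ha b hb hab
  simp only [Nat.cast_lt]
  apply Finset.card_lt_card
  rw [Finset.ssubset_iff_of_subset]
  · exact ⟨a, by simp [ha, hab], by simp⟩
  · intro x hx
    simp only [Finset.mem_filter] at hx ⊢
    exact ⟨hx.1, hx.2.trans hab⟩

theorem zip_chain {α : Type*} (R : α → α → Prop) (l : List α) : ∀ (a x : α),
    (∀ p ∈ (a :: l).zip (l ++ [x]), R p.1 p.2) → List.IsChain R (a :: (l ++ [x])) := by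
  induction l with
  | nil => intro a x h; simpa using h
  | cons b l ih =>
    intro a x h
    simp only [List.cons_append, List.zip_cons_cons, List.mem_cons, forall_eq_or_imp] at h
    rw [List.cons_append, List.isChain_cons_cons]
    exact ⟨h.1, ih b x h.2⟩

theorem mem_zip {α : Type*} {p q x : α} {l₂ : List α} (l₁ : List α) : ∀ (a : α) (l : List α),
    a :: (l ++ [x]) = l₁ ++ p :: q :: l₂ → (p, q) ∈ (a :: l).zip (l ++ [x]) := by
  induction l₁ with
  | nil =>
    intro a l h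
    simp only [List.nil_append, List.cons.injEq] at h
    obtain ⟨rfl, h⟩ := h
    rw [h]
    simp
  | cons c l₁ ih =>
    intro a l h
    simp only [List.cons_append, List.cons.injEq] at h
    obtain ⟨rfl, h⟩ := h
    cases l with
    | nil =>
      have := congrArg List.length h
      simp at this
      omega
    | cons b l =>
      rw [List.cons_append, List.zip_cons_cons]
      exact List.mem_cons_of_mem _ (ih b l h)

theorem mem_cp {α : Type*} {p q x : α} {l l₁ l₂ : List α}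
    (h : x :: (l ++ [x]) = l₁ ++ p :: q :: l₂) : (p, q) ∈ cp (x :: l) := by
  have := mem_zip l₁ x l h
  simpa [cp] using this

theorem cp_mem {α : Type*} {p q : α} {w : List α} (h : (p, q) ∈ cp w) : p ∈ w ∧ q ∈ w := by
  have := List.of_mem_zip h
  simpa using this

theorem fl_cons {α β : Type*} (p : α × β) (M : List (α × β)) :
    fl (p :: M) = Sum.inl p.1 :: Sum.inr p.2 :: fl M := by
  simp [fl]

theorem fl_append {α β : Type*} (M M' : List (α × β)) : fl (M ++ M') = fl M ++ fl M' := by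
  simp [fl]

theorem fl_map {α β γ δ : Type*} (f : α → γ) (g : β → δ) (M : List (α × β)) :
    fl (M.map (Prod.map f g)) = (fl M).map (Sum.map f g) := by
  induction M with
  | nil => rfl
  | cons p M ih => simp [fl_cons, ih]

theorem mem_fl {α β : Type*} {M : List (α × β)} {p : α × β} (h : p ∈ M) :
    Sum.inl p.1 ∈ fl M ∧ Sum.inr p.2 ∈ fl M := by
  simp only [fl, List.mem_flatMap]
  exact ⟨⟨p, h, by simp⟩, ⟨p, h, by simp⟩⟩

theorem nodup_fst {α β : Type*} {M : List (α × β)} (h : (fl M).Nodup) :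
    (M.map Prod.fst).Nodup := by
  induction M with
  | nil => simp
  | cons p M ih =>
    rw [fl_cons] at h
    simp only [List.nodup_cons, List.mem_cons, not_or] at h
    rw [List.map_cons, List.nodup_cons]
    refine ⟨?_, ih h.2.2⟩
    intro h'
    obtain ⟨q, hq, hq'⟩ := List.mem_map.1 h'
    apply h.1.2
    rw [← hq']
    exact (mem_fl hq).1

theorem nodup_snd {α β : Type*} {M : List (α × β)} (h : (fl M).Nodup) :
    (M.map Prod.snd).Nodup := by
  induction M with
  | nil => simp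
  | cons p M ih =>
    rw [fl_cons] at h
    simp only [List.nodup_cons, List.mem_cons, not_or] at h
    rw [List.map_cons, List.nodup_cons]
    refine ⟨?_, ih h.2.2⟩
    intro h'
    obtain ⟨q, hq, hq'⟩ := List.mem_map.1 h'
    apply h.2.1
    rw [← hq']
    exact (mem_fl hq).2

theorem ex_fl {α β : Type*} (c : α) : ∀ l : List (α ⊕ β),
    List.IsChain (fun a b => a.isLeft = !b.isLeft) (l ++ [Sum.inl c]) →
    (∀ a l', l = a :: l' → a.isLeft = true) → ∃ L : List (α × β), l = fl L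
  | [], _, _ => ⟨[], rfl⟩
  | [x], h, h' => by
    have h₁ := h' x [] rfl
    simp [h₁] at h
  | x :: y :: l, h, h' => by
    have h₁ := h' x _ rfl
    simp only [List.cons_append, List.isChain_cons_cons] at h
    obtain ⟨h₂, h₃⟩ := h
    cases x with
    | inr x => simp at h₁
    | inl x =>
      cases y with
      | inl y => simp at h₂
      | inr y =>
        have h₄ : List.IsChain (fun a b : α ⊕ β => a.isLeft = !b.isLeft) (l ++ [Sum.inl c]) :=
          (List.isChain_cons.1 h₃).2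
        obtain ⟨L, hL⟩ := ex_fl c l h₄ (by
          intro a l' hl
          subst hl
          simp only [List.cons_append, List.isChain_cons_cons] at h₃
          have := h₃.1
          simpa using this)
        exact ⟨(x, y) :: L, by rw [fl_cons, hL]⟩

theorem out {c₁ c₂ x : Q} (h : x ∉ uIcc c₁ c₂) : x < c₁ ∧ x < c₂ ∨ c₁ < x ∧ c₂ < x := by
  rw [Set.mem_uIcc] at h
  rcases lt_trichotomy x c₁ with h₁ | h₁ | h₁ <;> rcases lt_trichotomy x c₂ with h₂ | h₂ | h₂ <;>
    grind

theorem unl {a b x y : ℝ} (hx : x < a ∧ x < b ∨ a < x ∧ b < x) (hy : y < a ∧ y < b ∨ a < y ∧ b < y) :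
    Unl a b x y := by
  unfold Unl cyc
  grind

end RM

open _root_.LH.RM in
/-- RM: a row moves over a rectangle without marks. -/
theorem t_RM : Stmt_RM := by
  intro _ _ b b' c₁ c₂ B hA hN hb' hne hM
  classical
  -- alternation
  have hch : List.IsChain (fun a b : En => a.isLeft = !b.isLeft)
      (Sum.inr b :: .inl c₂ :: (B ++ [.inl c₁])) := by
    have h₁ := hA.2
    have h₂ := zip_chain (fun a b : En => a.isLeft = !b.isLeft) (.inl c₂ :: (B ++ [.inl c₁]))
      (Sum.inr b) (Sum.inr b) (by simpa [cp] using h₁)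
    rw [← List.cons_append] at h₂
    exact h₂.left_of_append
  obtain ⟨L, hL⟩ := ex_fl c₁ (Sum.inl c₂ :: B) (List.isChain_cons.1 hch).2
    (by intro a l' h; simp only [List.cons.injEq] at h; rw [← h.1]; rfl)
  cases L with
  | nil => simp [fl] at hL
  | cons p L =>
  obtain ⟨d, r₂⟩ := p
  rw [fl_cons] at hL
  simp only [List.cons.injEq, Sum.inl.injEq] at hL
  obtain ⟨rfl, rfl⟩ := hL
  -- the maps
  set W : List En := Sum.inr b :: .inl c₂ :: (.inr r₂ :: fl L ++ [.inl c₁]) with hW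
  obtain ⟨g, hg⟩ := emb ((W.map (Sum.elim id id)).toFinset ∪ {b'})
  have hgl : ∀ a, Sum.inl a ∈ W → a ∈ (W.map (Sum.elim id id)).toFinset ∪ {b'} := by
    intro a ha
    rw [Finset.mem_union, List.mem_toFinset, List.mem_map]
    exact Or.inl ⟨_, ha, rfl⟩
  have hgr : ∀ a, Sum.inr a ∈ W → a ∈ (W.map (Sum.elim id id)).toFinset ∪ {b'} := by
    intro a ha
    rw [Finset.mem_union, List.mem_toFinset, List.mem_map]
    exact Or.inl ⟨_, ha, rfl⟩
  have hgb : b' ∈ (W.map (Sum.elim id id)).toFinset ∪ {b'} := by simp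
  set S := (W.map (Sum.elim id id)).toFinset ∪ {b'} with hS
  have hgi : ∀ x ∈ S, ∀ y ∈ S, g x < g y → x < y := by
    intro x hx y hy h
    by_contra h'
    rcases eq_or_lt_of_le (not_lt.1 h') with h'' | h''
    · rw [h''] at h
      exact lt_irrefl _ h
    · exact lt_asymm h (hg y hy x hx h'')
  have hgj : ∀ x ∈ S, ∀ y ∈ S, g x = g y → x = y := by
    intro x hx y hy h
    rcases lt_trichotomy x y with h' | h' | h'
    · have := hg x hx y hy h'
      rw [h] at this
      exact absurd this (lt_irrefl _)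
    · exact h'
    · have := hg y hy x hx h'
      rw [h] at this
      exact absurd this (lt_irrefl _)
  -- the lists
  have hW1 : (fl ((c₁, b) :: (c₂, r₂) :: L)).IsRotated W := by
    refine ⟨1, ?_⟩
    simp [fl_cons, hW]
  have hN1 : (fl ((c₁, b) :: (c₂, r₂) :: L)).Nodup := hW1.nodup_iff.2 hN
  have hmem : ∀ p ∈ (c₁, b) :: (c₂, r₂) :: L, p.1 ∈ S ∧ p.2 ∈ S := by
    intro p hp
    have := mem_fl hp
    exact ⟨hgl _ (hW1.mem_iff.1 this.1), hgr _ (hW1.mem_iff.1 this.2)⟩
  have hbW : Sum.inr b' ∉ W := by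
    rw [hW]
    intro h
    simp only [List.cons_append, List.mem_cons, List.mem_append, List.not_mem_nil, or_false,
      reduceCtorEq, false_or, Sum.inr.injEq] at h hb'
    tauto
  have hrw : ∀ p ∈ (c₁, b) :: (c₂, r₂) :: L, p.2 ≠ b' := by
    intro p hp h
    apply hbW
    rw [← h]
    exact hW1.mem_iff.1 (mem_fl hp).2
  set F : Q × Q → ℝ × ℝ := Prod.map (fun x => - g x) g with hF
  have hmv : Mv ((-g c₁, g b) :: (-g c₂, g r₂) :: L.map F) ((-g c₁, g b') :: (-g c₂, g r₂) :: L.map F) := by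
    have hmap : (-g c₁, g b) :: (-g c₂, g r₂) :: L.map F = ((c₁, b) :: (c₂, r₂) :: L).map F := by
      simp [hF]
    refine Mv.row _ _ _ _ _ ?_ ?_ ?_
    · rw [hmap]
      constructor
      · have h₁ := nodup_fst hN1
        have h₂ : (((c₁, b) :: (c₂, r₂) :: L).map F).map Prod.fst
            = (((c₁, b) :: (c₂, r₂) :: L).map Prod.fst).map (fun x => - g x) := by
          simp [hF, Function.comp_def]
        rw [h₂]
        refine List.Nodup.map_on ?_ h₁
        intro x hx y hy hxy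
        obtain ⟨p, hp, rfl⟩ := List.mem_map.1 hx
        obtain ⟨q, hq, rfl⟩ := List.mem_map.1 hy
        exact hgj _ (hmem p hp).1 _ (hmem q hq).1 (neg_injective hxy)
      · have h₁ := nodup_snd hN1
        have h₂ : (((c₁, b) :: (c₂, r₂) :: L).map F).map Prod.snd
            = (((c₁, b) :: (c₂, r₂) :: L).map Prod.snd).map g := by
          simp [hF, Function.comp_def]
        rw [h₂]
        refine List.Nodup.map_on ?_ h₁
        intro x hx y hy hxy
        obtain ⟨p, hp, rfl⟩ := List.mem_map.1 hx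
        obtain ⟨q, hq, rfl⟩ := List.mem_map.1 hy
        exact hgj _ (hmem p hp).2 _ (hmem q hq).2 hxy
    · rw [hmap]
      intro h
      obtain ⟨x, hx, hxb⟩ := List.mem_map.1 h
      obtain ⟨p, hp, rfl⟩ := List.mem_map.1 hx
      exact hrw p hp (hgj _ (hmem p hp).2 _ hgb hxb)
    · intro B₁ B₂ x y h hb
      have h₁ : ((c₁, b) :: (c₂, r₂) :: L ++ [(c₁, b)]).map F = B₁ ++ x :: y :: B₂ := by
        rw [← h]
        simp [hF]
      obtain ⟨A₁, A₂, hA1, rfl, hA2⟩ := List.map_eq_append_iff.1 h₁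
      obtain ⟨p, A₃, rfl, rfl, hA3⟩ := List.map_eq_cons_iff.1 hA2
      obtain ⟨q, A₄, rfl, rfl, rfl⟩ := List.map_eq_cons_iff.1 hA3
      have hpb : p.2 ≠ b := by
        rintro hp
        simp only [hF, Prod.map_snd, hp] at hb
        rcases hb with h' | h'
        · exact lt_irrefl _ h'.1
        · exact lt_irrefl _ h'.2
      cases A₁ with
      | nil =>
        simp only [List.nil_append, List.cons_append, List.cons.injEq] at hA1
        exact absurd (by rw [← hA1.1]) hpb
      | cons a A₁ =>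
        simp only [List.cons_append, List.cons.injEq] at hA1
        obtain ⟨rfl, hA1⟩ := hA1
        have h₂ : Sum.inr b :: ((Sum.inl c₂ :: (Sum.inr r₂ :: fl L ++ [Sum.inl c₁])) ++ [Sum.inr b])
            = (Sum.inr b :: fl A₁) ++ Sum.inl p.1 :: Sum.inr p.2 :: Sum.inl q.1 ::
              Sum.inr q.2 :: fl A₄ := by
          have := congrArg fl hA1
          simp only [fl_cons, fl_append] at this
          simp only [List.cons_append, List.append_assoc, List.cons.injEq, true_and]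
          rw [← this]
          simp [fl]
        have h₃ : (Sum.inl p.1, Sum.inr p.2) ∈ cp W := mem_cp h₂
        have h₄ : (Sum.inr p.2, Sum.inl q.1) ∈ cp W :=
          mem_cp (l₁ := (Sum.inr b :: fl A₁) ++ [Sum.inl p.1]) (l₂ := Sum.inr q.2 :: fl A₄)
            (by rw [h₂]; simp)
        have h₅ : Btw b b' p.2 := by
          have hp2 : p.2 ∈ S := hgr _ (cp_mem h₃).2
          have hb2 : b ∈ S := (hmem (c₁, b) (by simp)).2
          simp only [hF, Prod.map_snd] at hb
          rcases hb with h' | h'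
          · exact Or.inl ⟨hgi _ hb2 _ hp2 h'.1, hgi _ hp2 _ hgb h'.2⟩
          · exact Or.inr ⟨hgi _ hgb _ hp2 h'.1, hgi _ hp2 _ hb2 h'.2⟩
        have h₆ := out (hM p.1 p.2 (Or.inl h₃) h₅)
        have h₇ := out (hM q.1 p.2 (Or.inr h₄) h₅)
        have hp1 : p.1 ∈ S := hgl _ (cp_mem h₃).1
        have hq1 : q.1 ∈ S := hgl _ (cp_mem h₄).2
        have hc1 : c₁ ∈ S := (hmem (c₁, b) (by simp)).1
        have hc2 : c₂ ∈ S := (hmem (c₂, r₂) (by simp)).1
        have key : ∀ z ∈ S, (z < c₁ ∧ z < c₂ ∨ c₁ < z ∧ c₂ < z) →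
            (-g z < -g c₁ ∧ -g z < -g c₂ ∨ -g c₁ < -g z ∧ -g c₂ < -g z) := by
          intro z hz hz'
          simp only [neg_lt_neg_iff]
          rcases hz' with h' | h'
          · exact Or.inr ⟨hg _ hz _ hc1 h'.1, hg _ hz _ hc2 h'.2⟩
          · exact Or.inl ⟨hg _ hc1 _ hz h'.1, hg _ hc2 _ hz h'.2⟩
        exact unl (key _ hp1 h₆) (key _ hq1 h₇)
  refine ⟨_, _, ⟨hN, fun x => - g x, g, ?_, ?_, ?_⟩, ⟨?_, fun x => - g x, g, ?_, ?_, ?_⟩,
    Relation.EqvGen.rel _ _ hmv⟩
  · intro x y hx hy hxy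
    exact neg_lt_neg (hg _ (hgl _ hx) _ (hgl _ hy) hxy)
  · intro x y hx hy hxy
    exact hg _ (hgr _ hx) _ (hgr _ hy) hxy
  · have := hW1.map (Sum.map (fun x => - g x) g)
    rw [← fl_map] at this
    exact this
  · have h₁ : Sum.inr b' ∉ Sum.inl c₂ :: (Sum.inr r₂ :: fl L ++ [Sum.inl c₁]) := by
      intro h
      exact hbW (List.mem_cons_of_mem _ h)
    exact List.nodup_cons.2 ⟨h₁, (List.nodup_cons.1 hN).2⟩
  · intro x y hx hy hxy
    have h₁ : ∀ z, Sum.inl z ∈ Sum.inr b' :: Sum.inl c₂ :: (Sum.inr r₂ :: fl L ++ [Sum.inl c₁]) →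
        Sum.inl z ∈ W := by
      intro z hz
      rcases List.mem_cons.1 hz with h | h
      · simp at h
      · exact List.mem_cons_of_mem _ h
    exact neg_lt_neg (hg _ (hgl _ (h₁ x hx)) _ (hgl _ (h₁ y hy)) hxy)
  · intro x y hx hy hxy
    have h₁ : ∀ z, Sum.inr z ∈ Sum.inr b' :: Sum.inl c₂ :: (Sum.inr r₂ :: fl L ++ [Sum.inl c₁]) →
        z ∈ S := by
      intro z hz
      rcases List.mem_cons.1 hz with h | h
      · simp only [Sum.inr.injEq] at h
        rw [h]
        exact hgb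
      · exact hgr _ (List.mem_cons_of_mem _ h)
    exact hg _ (h₁ x hx) _ (h₁ y hy) hxy
  · have h₁ : (fl ((c₁, b') :: (c₂, r₂) :: L)).IsRotated
        (Sum.inr b' :: Sum.inl c₂ :: (Sum.inr r₂ :: fl L ++ [Sum.inl c₁])) := by
      refine ⟨1, ?_⟩
      simp [fl_cons]
    have := h₁.map (Sum.map (fun x => - g x) g)
    rw [← fl_map] at this
    exact this

end LH


end

section

/-!
# The polygon of a knot exists
-/

namespace LHS

open Set LH LC Filter
open scoped ContDiff Topology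

namespace PEX

/-- The primitive of a function on the integers. -/
noncomputable def S (s : ℤ → ℝ) : ℤ → ℝ
  | Int.ofNat n => ∑ j ∈ Finset.range n, s j
  | Int.negSucc n => - ∑ j ∈ Finset.range (n + 1), s (-((j : ℤ) + 1))

theorem S_zero (s : ℤ → ℝ) : S s 0 = 0 := by
  change S s (Int.ofNat 0) = 0
  simp [S]

theorem S_nat (s : ℤ → ℝ) (n : ℕ) : S s (n : ℤ) = ∑ j ∈ Finset.range n, s j := by
  change S s (Int.ofNat n) = _
  simp only [S]

theorem S_succ (s : ℤ → ℝ) (i : ℤ) : S s (i + 1) = S s i + s i := by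
  rcases i with n | n
  · have h1 : (Int.ofNat n : ℤ) + 1 = ((n + 1 : ℕ) : ℤ) := by simp
    have h2 : (Int.ofNat n : ℤ) = (n : ℤ) := rfl
    rw [h1, h2, S_nat, S_nat, Finset.sum_range_succ]
  · rcases n with _ | n
    · have h1 : (Int.negSucc 0 : ℤ) + 1 = 0 := rfl
      rw [h1, S_zero]
      change 0 = - ∑ j ∈ Finset.range (0 + 1), s (-((j : ℤ) + 1)) + s (Int.negSucc 0)
      rw [Finset.sum_range_one]
      have h2 : (Int.negSucc 0 : ℤ) = -(((0 : ℕ) : ℤ) + 1) := rfl
      rw [h2]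
      ring
    · have h1 : (Int.negSucc (n + 1) : ℤ) + 1 = Int.negSucc n := by
        rw [Int.negSucc_eq, Int.negSucc_eq]
        push_cast
        ring
      rw [h1]
      change - ∑ j ∈ Finset.range (n + 1), s (-((j : ℤ) + 1)) =
        - ∑ j ∈ Finset.range (n + 1 + 1), s (-((j : ℤ) + 1)) + s (Int.negSucc (n + 1))
      rw [Finset.sum_range_succ _ (n + 1)]
      have h2 : (Int.negSucc (n + 1) : ℤ) = -(((n + 1 : ℕ) : ℤ) + 1) := by
        rw [Int.negSucc_eq]
      rw [h2]
      ring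

theorem S_per (s : ℤ → ℝ) (N : ℕ) (hs : ∀ i, s (i + N) = s i)
    (h0 : ∑ j ∈ Finset.range N, s j = 0) (i : ℤ) : S s (i + N) = S s i := by
  have key : ∀ i, S s (i + 1 + N) - S s (i + 1) = S s (i + N) - S s i := by
    intro i
    have h1 : i + 1 + N = i + N + 1 := by ring
    rw [h1, S_succ, S_succ, hs]
    ring
  have h : S s (i + N) - S s i = 0 := by
    induction i using Int.induction_on with
    | zero => rw [zero_add, S_nat, S_zero, h0, sub_zero]
    | succ i ih => rw [key, ih]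
    | pred i ih =>
      have := key (-(i : ℤ) - 1)
      rw [sub_add_cancel] at this
      rw [← this, ih]
  linarith

theorem x_per (Λ : LegKnot) (u : ℝ) : Λ.x (u + 1) = Λ.x u := by
  unfold LegKnot.x
  rw [Λ.periodic]

theorem y_per (Λ : LegKnot) (u : ℝ) : Λ.y (u + 1) = Λ.y u := by
  unfold LegKnot.y
  rw [Λ.periodic]

theorem x0_per (Λ : LegKnot) (N : ℕ) (hN : 1 ≤ N) (i : ℤ) : x0 Λ N (i + N) = x0 Λ N i := by
  have hN' : (N : ℝ) ≠ 0 := by
    have : (0 : ℝ) < N := by exact_mod_cast hN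
    exact this.ne'
  unfold x0
  have : (((i + N : ℤ) : ℝ)) / N = (i : ℝ) / N + 1 := by
    push_cast
    field_simp
  rw [this, x_per]

theorem y0_per (Λ : LegKnot) (N : ℕ) (hN : 1 ≤ N) (i : ℤ) : y0 Λ N (i + N) = y0 Λ N i := by
  have hN' : (N : ℝ) ≠ 0 := by
    have : (0 : ℝ) < N := by exact_mod_cast hN
    exact this.ne'
  unfold y0
  have : (((i + N : ℤ) : ℝ) + 1 / 2) / N = ((i : ℝ) + 1 / 2) / N + 1 := by
    push_cast
    field_simp
    ring
  rw [this, y_per]

theorem D_per (Λ : LegKnot) (N : ℕ) (hN : 1 ≤ N) (i : ℤ) :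
    x0 Λ N (i + N + 1) - x0 Λ N (i + N) = x0 Λ N (i + 1) - x0 Λ N i := by
  have h1 : i + N + 1 = i + 1 + N := by ring
  rw [h1, x0_per Λ N hN, x0_per Λ N hN]

theorem y1_per (Λ : LegKnot) (N : ℕ) (hN : 1 ≤ N) (i : ℤ) : y1 Λ N (i + N) = y1 Λ N i := by
  unfold y1
  rw [y0_per Λ N hN, D_per Λ N hN]

theorem sum_zero (Λ : LegKnot) (N : ℕ) :
    ∑ j ∈ Finset.range N, y1 Λ N j * (x0 Λ N ((j : ℤ) + 1) - x0 Λ N j) = 0 := by
  have h1 : ∑ j ∈ Finset.range N, y1 Λ N j * (x0 Λ N ((j : ℤ) + 1) - x0 Λ N j) =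
      (∑ j ∈ Finset.range N, y0 Λ N j * (x0 Λ N ((j : ℤ) + 1) - x0 Λ N j)) -
        mu Λ N * ∑ j ∈ Finset.range N, (x0 Λ N ((j : ℤ) + 1) - x0 Λ N j) ^ 2 := by
    rw [Finset.mul_sum, ← Finset.sum_sub_distrib]
    apply Finset.sum_congr rfl
    intro j _
    unfold y1
    ring
  by_cases hd : ∑ j ∈ Finset.range N, (x0 Λ N ((j : ℤ) + 1) - x0 Λ N j) ^ 2 = 0
  · have h2 := (Finset.sum_eq_zero_iff_of_nonneg (fun j _ => sq_nonneg _)).mp hd
    apply Finset.sum_eq_zero
    intro j hj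
    have h3 := pow_eq_zero_iff (two_ne_zero) |>.mp (h2 j hj)
    rw [h3, mul_zero]
  · rw [h1]
    unfold mu
    rw [div_mul_cancel₀ _ hd, sub_self]

end PEX

/-- The polygon exists. -/
theorem t_PEX : Stmt_PEX := by
  intro Λ N hN
  let s : ℤ → ℝ := fun i => y1 Λ N i * (x0 Λ N (i + 1) - x0 Λ N i)
  have hpz : ∀ i, PEX.S s (i + N) = PEX.S s i := by
    apply PEX.S_per
    · intro i
      change y1 Λ N (i + N) * (x0 Λ N (i + N + 1) - x0 Λ N (i + N)) =
        y1 Λ N i * (x0 Λ N (i + 1) - x0 Λ N i)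
      rw [PEX.y1_per Λ N hN, PEX.D_per Λ N hN]
    · exact PEX.sum_zero Λ N
  let P : Pg N :=
    { x := x0 Λ N
      y := y1 Λ N
      z := PEX.S s
      px := PEX.x0_per Λ N hN
      py := PEX.y1_per Λ N hN
      pz := hpz
      cl := PEX.S_succ s }
  exact ⟨P, rfl, rfl, PEX.S_zero s⟩

end LHS


end

section

/-!
# Module FAR: far components with the same front point are ordered
-/

namespace LHS

open Set LH LC Filter
open scoped ContDiff Topology

namespace FAR

/-- The bound of `x'`. -/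
lemma dx_le {Λ : LegKnot} {M : ℝ} (hM : 0 ≤ M)
    (xl : ∀ u v, |Λ.x u - Λ.x v| ≤ M * |u - v|) (u : ℝ) : |deriv Λ.x u| ≤ M := by
  have h := norm_deriv_le_of_lip' (f := Λ.x) (x₀ := u) hM
    (Filter.Eventually.of_forall fun v => by
      rw [Real.norm_eq_abs, Real.norm_eq_abs]; exact xl v u)
  rwa [Real.norm_eq_abs] at h

/-- The Lipschitz bound of `z`. -/
lemma zl (hB : Stmt_BAS) {Λ : LegKnot} {M : ℝ} (hM : 0 ≤ M) (yb : ∀ u, |Λ.y u| ≤ M)
    (xl : ∀ u v, |Λ.x u - Λ.x v| ≤ M * |u - v|) (u v : ℝ) :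
    |zc Λ v - zc Λ u| ≤ M ^ 2 * |v - u| := by
  obtain ⟨-, -, -, -, -, -, -, -, hz, -⟩ := hB Λ
  have h := Convex.norm_image_sub_le_of_norm_hasDerivWithin_le (s := univ) (f := zc Λ)
    (f' := fun u => Λ.y u * deriv Λ.x u) (C := M ^ 2)
    (fun x _ => (hz x).hasDerivWithinAt)
    (fun x _ => by
      rw [Real.norm_eq_abs, abs_mul, pow_two]
      exact mul_le_mul (yb x) (dx_le hM xl x) (abs_nonneg _) hM)
    convex_univ (mem_univ u) (mem_univ v)
  rwa [Real.norm_eq_abs, Real.norm_eq_abs] at h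

/-- `|D_i| ≤ M / N`. -/
lemma D_le {Λ : LegKnot} {M : ℝ} (xl : ∀ u v, |Λ.x u - Λ.x v| ≤ M * |u - v|)
    {N : ℕ} (hN : 1 ≤ N) (i : ℤ) : |x0 Λ N (i + 1) - x0 Λ N i| ≤ M / N := by
  have hn : (0 : ℝ) < N := by exact_mod_cast hN
  have h := xl (((i + 1 : ℤ) : ℝ) / N) ((i : ℝ) / N)
  have e : ((i + 1 : ℤ) : ℝ) / N - (i : ℝ) / N = 1 / N := by push_cast; ring
  rw [e, abs_of_pos (show (0 : ℝ) < 1 / N by positivity)] at h
  unfold x0
  calc _ ≤ M * (1 / N) := h
    _ = M / N := by ring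

/-- The estimates of one edge. -/
lemma est (hBAS : Stmt_BAS) (hMUB : P_MUB) (hZAP : P_ZAP) {Λ : LegKnot} {M η c σ : ℝ} {N : ℕ}
    (hb : Bd Λ M η c) (hn : NL M η c σ N) {P : Pg N} (hP : IsPN Λ N P) {e : ℝ} {i : ℤ} {u : ℝ}
    (hu : u ∈ Icc ((i : ℝ) / N) (((i : ℝ) + 1) / N)) (hx : Λ.x u = e) :
    |Λ.x (((i : ℝ) + 1 / 2) / N) - e| ≤ M / N ∧
      |zc Λ (((i : ℝ) + 1 / 2) / N) - zc Λ 0 - P.l i e| ≤ (3 + 2 * (4 * M ^ 2 / c ^ 2)) * M ^ 2 / N ∧
      |P.y i - Λ.y (((i : ℝ) + 1 / 2) / N)| ≤ (4 * M ^ 2 / c ^ 2) * M / N := by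
  have hN : (0 : ℝ) < N := by exact_mod_cast hn.n1
  have hN1 : (1 : ℝ) ≤ N := by exact_mod_cast hn.n1
  have hM1 := hn.M1
  have hM : 0 ≤ M := by linarith
  have hc := hn.c0
  obtain ⟨-, hmu⟩ := hMUB Λ M η c hn.M1 hn.c0 hb N hn.n1 hn.n2
  have hz := hZAP Λ M η c hn.M1 hn.c0 hb N hn.n1 hn.n2 P hP i
  set B := 4 * M ^ 2 / c ^ 2 with hB
  have hB0 : 0 ≤ B := by positivity
  have hBM : 4 * M ^ 4 / c ^ 2 = B * M ^ 2 := by rw [hB]; ring
  rw [hBM] at hz
  obtain ⟨hPx, hPy, -⟩ := hP
  have hD := D_le hb.xl hn.n1 i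
  -- the third estimate
  have h3 : |P.y i - Λ.y (((i : ℝ) + 1 / 2) / N)| ≤ B * M / N := by
    have : P.y i - Λ.y (((i : ℝ) + 1 / 2) / N) = - (mu Λ N * (x0 Λ N (i + 1) - x0 Λ N i)) := by
      rw [hPy]; unfold y1 y0; ring
    rw [this, abs_neg, abs_mul]
    calc |mu Λ N| * |x0 Λ N (i + 1) - x0 Λ N i| ≤ B * (M / N) :=
          mul_le_mul hmu hD (abs_nonneg _) hB0
      _ = B * M / N := by ring
  obtain ⟨hu1, hu2⟩ := hu
  have hmid1 : (i : ℝ) / N ≤ ((i : ℝ) + 1 / 2) / N := by gcongr; linarith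
  have hmid2 : ((i : ℝ) + 1 / 2) / N ≤ ((i : ℝ) + 1) / N := by gcongr; linarith
  have hlen : ((i : ℝ) + 1) / N - (i : ℝ) / N = 1 / N := by ring
  -- the first estimate
  have h1 : |Λ.x (((i : ℝ) + 1 / 2) / N) - e| ≤ M / N := by
    rw [← hx]
    have h := hb.xl (((i : ℝ) + 1 / 2) / N) u
    have h' : |((i : ℝ) + 1 / 2) / N - u| ≤ 1 / N := by rw [abs_le]; constructor <;> (first | linarith only [hu2, hmid1, hlen] | linarith only [hu1, hmid2, hlen] | linarith)
    calc _ ≤ M * |((i : ℝ) + 1 / 2) / N - u| := h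
      _ ≤ M * (1 / N) := mul_le_mul_of_nonneg_left h' hM
      _ = M / N := by ring
  refine ⟨h1, ?_, h3⟩
  have hxi : |e - P.x i| ≤ M / N := by
    rw [← hx, hPx]
    unfold x0
    have h := hb.xl u ((i : ℝ) / N)
    have h' : |u - (i : ℝ) / N| ≤ 1 / N := by rw [abs_le]; constructor <;> linarith only [hu1, hu2, hlen]
    calc _ ≤ M * |u - (i : ℝ) / N| := h
      _ ≤ M * (1 / N) := mul_le_mul_of_nonneg_left h' hM
      _ = M / N := by ring
  have hyi : |P.y i| ≤ M + B * M := by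
    have hy := hb.yb (((i : ℝ) + 1 / 2) / N)
    have : |P.y i| ≤ |P.y i - Λ.y (((i : ℝ) + 1 / 2) / N)| + |Λ.y (((i : ℝ) + 1 / 2) / N)| := by
      have := abs_add_le (P.y i - Λ.y (((i : ℝ) + 1 / 2) / N)) (Λ.y (((i : ℝ) + 1 / 2) / N))
      simpa using this
    have h4 : B * M / N ≤ B * M := div_le_self (by positivity) hN1
    linarith only [h3, hy, this, h4]
  have hzz : |zc Λ (((i : ℝ) + 1 / 2) / N) - zc Λ ((i : ℝ) / N)| ≤ M ^ 2 / N := by
    have h := zl hBAS hM hb.yb hb.xl ((i : ℝ) / N) (((i : ℝ) + 1 / 2) / N)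
    have h' : |((i : ℝ) + 1 / 2) / N - (i : ℝ) / N| ≤ 1 / N := by
      rw [abs_le]; constructor <;> (first | linarith only [hu1, hu2, hmid1, hlen] | linarith only [hmid2, hlen] | linarith [show (0 : ℝ) ≤ 1 / N by positivity])
    calc _ ≤ M ^ 2 * |((i : ℝ) + 1 / 2) / N - (i : ℝ) / N| := h
      _ ≤ M ^ 2 * (1 / N) := mul_le_mul_of_nonneg_left h' (by positivity)
      _ = M ^ 2 / N := by ring
  have hprod : |P.y i * (e - P.x i)| ≤ (M + B * M) * (M / N) := by
    rw [abs_mul]
    exact mul_le_mul hyi hxi (abs_nonneg _) (by positivity)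
  have hsplit : zc Λ (((i : ℝ) + 1 / 2) / N) - zc Λ 0 - P.l i e =
      (zc Λ (((i : ℝ) + 1 / 2) / N) - zc Λ ((i : ℝ) / N)) -
        (P.z i - (zc Λ ((i : ℝ) / N) - zc Λ 0)) - P.y i * (e - P.x i) := by
    unfold Pg.l; ring
  rw [hsplit]
  have ht : (3 + 2 * B) * M ^ 2 / N =
      M ^ 2 / N + (M ^ 2 + B * M ^ 2) / N + (M + B * M) * (M / N) := by
    field_simp; ring
  rw [ht]
  rw [abs_le] at hzz hz hprod ⊢
  constructor <;> (first | linarith only [hz, hzz, hprod] | linarith [hzz.1, hzz.2, hz.1, hz.2, hprod.1, hprod.2])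

end FAR

theorem t_FAR : Stmt_FAR := by
  intro hBAS hMUB hZAP hHLN hCRS hSGN Λ M η c ρ σ N hb hn hS P hP e p q p' q' h1 h2 hl hr
  have hN : (0 : ℝ) < N := by exact_mod_cast hn.n1
  have hM1 := hn.M1
  have hM : 0 < M := by linarith
  have hc := hn.c0
  obtain ⟨-, hmu⟩ := hMUB Λ M η c hn.M1 hn.c0 hb N hn.n1 hn.n2
  have n5 := hn.n5
  have he1 := fun i hi => (hCRS Λ N P hn.n1 hP e p q h1 i hi)
  have he2 := fun i hi => (hCRS Λ N P hn.n1 hP e p' q' h2 i hi)
  have hest := fun (i : ℤ) (u : ℝ) (hu : u ∈ Icc ((i : ℝ) / N) (((i : ℝ) + 1) / N))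
    (hx : Λ.x u = e) => FAR.est hBAS hMUB hZAP hb hn hP hu hx
  set B := 4 * M ^ 2 / c ^ 2 with hB
  have hB0 : 0 ≤ B := by positivity
  have hMM : M ≤ M ^ 2 := by nlinarith only [hM1]
  have hBM : B * M ≤ B * M ^ 2 := mul_le_mul_of_nonneg_left hMM hB0
  have hA : (6 + 4 * B) * M ^ 2 / N < σ := by rwa [div_lt_iff₀ hN]
  have hk1 : M / N + 4 * (B * M) / N < σ := by
    have : M / N + 4 * (B * M) / N ≤ (6 + 4 * B) * M ^ 2 / N := by
      rw [← add_div]; gcongr; linarith only [hM1, hMM, hBM]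
    linarith
  have hk2 : 2 * M / N < σ := by
    have : 2 * M / N ≤ (6 + 4 * B) * M ^ 2 / N := by gcongr; linarith only [hB0]
    linarith
  have hMN : 0 < M / N := by positivity
  have hq : 4 * (B * M) / N = 2 * (2 * B * M / N) := by ring
  refine hSGN P.y p q p' q' (σ - 2 * B * M / N) (by linarith [show 0 ≤ 2 * B * M / N by positivity])
    h1.le h2.le ?_ ?_
  · intro i hi j hj
    obtain ⟨u, hu, hxu⟩ := he1 i hi
    obtain ⟨v, hv, hxv⟩ := he2 j hj
    obtain ⟨a1, a2, a3⟩ := hest i u hu hxu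
    obtain ⟨b1, b2, b3⟩ := hest j v hv hxv
    obtain ⟨r1, r2⟩ := hr i hi j hj
    have e1 : P.l i e = P.l p e := hHLN N P e p q h1 i hi
    have e2 : P.l j e = P.l p' e := hHLN N P e p' q' h2 j hj
    rw [e1, hl, ← e2] at a2
    have hd : ((j : ℝ) + 1 / 2) / N - ((i : ℝ) + 1 / 2) / N = ((j : ℝ) - i) / N := by ring
    have hs := hS (((i : ℝ) + 1 / 2) / N) (((j : ℝ) + 1 / 2) / N)
      (by rw [hd, le_div_iff₀ hN]; exact r1) (by rw [hd, div_le_iff₀ hN]; exact r2)
    have ht : (6 + 4 * B) * M ^ 2 / N =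
        (3 + 2 * B) * M ^ 2 / N + (3 + 2 * B) * M ^ 2 / N := by ring
    have hxx : |Λ.x (((i : ℝ) + 1 / 2) / N) - Λ.x (((j : ℝ) + 1 / 2) / N)| < σ := by
      have : 2 * M / N = M / N + M / N := by ring
      rw [abs_le] at a1 b1
      rw [abs_lt]
      constructor <;> (first | linarith only [hk2, a1, b1, this] | linarith [a1.1, a1.2, b1.1, b1.2])
    have hzz : |zc Λ (((i : ℝ) + 1 / 2) / N) - zc Λ (((j : ℝ) + 1 / 2) / N)| < σ := by
      rw [abs_le] at a2 b2
      rw [abs_lt]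
      constructor <;> (first | linarith only [hA, a2, b2, ht] | linarith [a2.1, a2.2, b2.1, b2.2])
    have hyy : σ ≤ |Λ.y (((i : ℝ) + 1 / 2) / N) - Λ.y (((j : ℝ) + 1 / 2) / N)| := by
      rcases hs with h | h | h
      · exact absurd h (not_le.mpr hxx)
      · exact h
      · exact absurd h (not_le.mpr hzz)
    have e3 : B * M / N = (2 * B * M / N) / 2 := by ring
    rw [e3] at a3 b3
    rw [abs_le] at a3 b3
    rcases le_abs.mp hyy with h | h
    · refine le_abs.mpr (Or.inl ?_)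
      linarith only [a3, b3, h]
    · refine le_abs.mpr (Or.inr ?_)
      linarith only [a3, b3, h]
  · intro i
    obtain ⟨-, hPy, -⟩ := hP
    have hD1 := FAR.D_le hb.xl hn.n1 i
    have hD2 := FAR.D_le hb.xl hn.n1 (i + 1)
    have hyl := hb.yl ((((i + 1 : ℤ) : ℝ) + 1 / 2) / N) (((i : ℝ) + 1 / 2) / N)
    have e1 : (((i + 1 : ℤ) : ℝ) + 1 / 2) / N - ((i : ℝ) + 1 / 2) / N = 1 / N := by
      push_cast; ring
    rw [e1, abs_of_pos (show (0 : ℝ) < 1 / N by positivity)] at hyl
    have e2 : M * (1 / N) = M / N := by ring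
    rw [e2] at hyl
    have m1 : |mu Λ N * (x0 Λ N (i + 1) - x0 Λ N i)| ≤ B * M / N := by
      rw [abs_mul]
      calc _ ≤ B * (M / N) := mul_le_mul hmu hD1 (abs_nonneg _) hB0
        _ = B * M / N := by ring
    have m2 : |mu Λ N * (x0 Λ N (i + 1 + 1) - x0 Λ N (i + 1))| ≤ B * M / N := by
      rw [abs_mul]
      calc _ ≤ B * (M / N) := mul_le_mul hmu hD2 (abs_nonneg _) hB0
        _ = B * M / N := by ring
    have e3 : P.y (i + 1) - P.y i =
        (Λ.y ((((i + 1 : ℤ) : ℝ) + 1 / 2) / N) - Λ.y (((i : ℝ) + 1 / 2) / N)) -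
          mu Λ N * (x0 Λ N (i + 1 + 1) - x0 Λ N (i + 1)) + mu Λ N * (x0 Λ N (i + 1) - x0 Λ N i) := by
      rw [hPy]; unfold y1 y0; ring
    rw [e3]
    have e4 : B * M / N = (2 * B * M / N) / 2 := by ring
    rw [e4] at m1 m2
    rw [abs_le] at hyl m1 m2
    rw [abs_lt]
    constructor <;> (first | linarith only [hk1, hq, hyl, m1, m2] | linarith [hyl.1, hyl.2, m1.1, m1.2, m2.1, m2.2])

end LHS


end

section

/-!
# Reparametrised knots are the ends of smooth families
-/

namespace LHS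

open Set LH LC Filter
open scoped ContDiff Topology

namespace PSF

/-- The knot in another parametrisation. -/
noncomputable def rep (Λ : LegKnot) (ψ : ℝ → ℝ) (h1 : ContDiff ℝ ∞ ψ) (h2 : ∀ u, 0 < deriv ψ u)
    (h3 : ∀ u, ψ (u + 1) = ψ u + 1) : LegKnot :=
  have hd : ∀ u, deriv (fun v => Λ.γ (ψ v)) u = deriv ψ u • deriv Λ.γ (ψ u) := fun u => by
    have d1 : HasDerivAt Λ.γ (deriv Λ.γ (ψ u)) (ψ u) :=
      ((Λ.smooth.differentiable (by simp)) (ψ u)).hasDerivAt
    have d2 : HasDerivAt ψ (deriv ψ u) u := ((h1.differentiable (by simp)) u).hasDerivAt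
    exact (d1.scomp u d2).deriv
  { γ := fun u => Λ.γ (ψ u)
    smooth := Λ.smooth.comp h1
    periodic := fun u => by rw [h3, Λ.periodic]
    immersion := fun u => by
      rw [hd u]
      exact smul_ne_zero (h2 u).ne' (Λ.immersion _)
    injective := fun u v h => by
      obtain ⟨k, hk⟩ := Λ.injective _ _ h
      refine ⟨k, ?_⟩
      have hz : ∀ (k : ℤ) (u : ℝ), ψ (u + k) = ψ u + k := by
        intro k
        induction k using Int.induction_on with
        | zero => intro u; simp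
        | succ i ih =>
          intro u
          have e : u + ((i : ℤ) + 1 : ℤ) = (u + ((i : ℤ) : ℝ)) + 1 := by push_cast; ring
          rw [e, h3, ih u]
          push_cast
          ring
        | pred i ih =>
          intro u
          have e : ψ ((u + (-(i : ℤ) - 1 : ℤ)) + 1) = ψ (u + ((-(i : ℤ) : ℤ) : ℝ)) := by
            congr 1
            push_cast
            ring
          rw [h3, ih u] at e
          push_cast at e ⊢
          linarith
      have hm : StrictMono ψ := strictMono_of_deriv_pos h2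
      apply hm.injective
      rw [hk, hz]
    legendrian := fun u => by
      rw [hd u]
      have h := Λ.legendrian (ψ u)
      unfold alpha at h ⊢
      have e1 : (deriv ψ u • deriv Λ.γ (ψ u)).2.2 = deriv ψ u * (deriv Λ.γ (ψ u)).2.2 := rfl
      have e2 : (deriv ψ u • deriv Λ.γ (ψ u)).1 = deriv ψ u * (deriv Λ.γ (ψ u)).1 := rfl
      rw [e1, e2]
      linear_combination deriv ψ u * h }

theorem rep_γ (Λ : LegKnot) (ψ : ℝ → ℝ) (h1 : ContDiff ℝ ∞ ψ) (h2 : ∀ u, 0 < deriv ψ u)
    (h3 : ∀ u, ψ (u + 1) = ψ u + 1) (u : ℝ) : (rep Λ ψ h1 h2 h3).γ u = Λ.γ (ψ u) := rfl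

theorem mix_smooth {φ : ℝ → ℝ} (h1 : ContDiff ℝ ∞ φ) (l : ℝ) :
    ContDiff ℝ ∞ (fun u => (1 - l) * φ u + l * u) := by fun_prop

theorem mix_deriv {φ : ℝ → ℝ} (h1 : ContDiff ℝ ∞ φ) (h2 : ∀ u, 0 < deriv φ u) {l : ℝ}
    (hl : 0 ≤ l ∧ l ≤ 1) (u : ℝ) : 0 < deriv (fun u => (1 - l) * φ u + l * u) u := by
  have d2 : HasDerivAt φ (deriv φ u) u := ((h1.differentiable (by simp)) u).hasDerivAt
  have d := ((d2.const_mul (1 - l)).add ((hasDerivAt_id u).const_mul l)).deriv
  have e : deriv (fun u => (1 - l) * φ u + l * u) u = (1 - l) * deriv φ u + l * 1 := d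
  rw [e, mul_one]
  rcases eq_or_lt_of_le hl.1 with h | h
  · rw [← h]
    have := h2 u
    linarith
  · have := mul_nonneg (sub_nonneg.2 hl.2) (h2 u).le
    linarith

theorem mix_per {φ : ℝ → ℝ} (h3 : ∀ u, φ (u + 1) = φ u + 1) (l u : ℝ) :
    (1 - l) * φ (u + 1) + l * (u + 1) = ((1 - l) * φ u + l * u) + 1 := by
  rw [h3]
  ring

/-- A family between the parametrisations. -/
theorem fam (Λ : LegKnot) (φ : ℝ → ℝ) (h1 : ContDiff ℝ ∞ φ) (h2 : ∀ u, 0 < deriv φ u)
    (h3 : ∀ u, φ (u + 1) = φ u + 1) (c c₀ : ℝ → ℝ) (hc : ∀ s, 0 ≤ c s ∧ c s ≤ 1)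
    (hc₀ : ContDiff ℝ ∞ c₀) (he : ∀ s ∈ Icc (0 : ℝ) 1, c s = c₀ s) :
    ∃ K : ℝ → LegKnot, Fam K ∧ ∀ s u, (K s).γ u = Λ.γ ((1 - c s) * φ u + c s * u) := by
  refine ⟨fun s => rep Λ (fun u => (1 - c s) * φ u + c s * u) (mix_smooth h1 (c s))
    (mix_deriv h1 h2 (hc s)) (fun u => mix_per h3 (c s) u), ?_, fun s u => rfl⟩
  unfold Fam
  have hs : ContDiff ℝ ∞ (fun q : ℝ × ℝ => Λ.γ ((1 - c₀ q.1) * φ q.2 + c₀ q.1 * q.2)) := by
    have h4 := Λ.smooth
    fun_prop
  refine hs.contDiffOn.congr ?_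
  rintro ⟨s, u⟩ ⟨hs1, -⟩
  show Λ.γ ((1 - c s) * φ u + c s * u) = Λ.γ ((1 - c₀ s) * φ u + c₀ s * u)
  rw [he s hs1]

end PSF

open _root_.LHS.PSF in
theorem t_PSF : Stmt_PSF := by
  intro Λ Λ' hP
  obtain ⟨φ, h1, h2, h3, h4⟩ := hP
  have hcl : ∀ s : ℝ, 0 ≤ max 0 (min 1 s) ∧ max 0 (min 1 s) ≤ 1 := fun s =>
    ⟨le_max_left _ _, max_le zero_le_one (min_le_left _ _)⟩
  have hce : ∀ s ∈ Icc (0 : ℝ) 1, max 0 (min 1 s) = s := fun s hs => by
    rw [min_eq_right hs.2, max_eq_right hs.1]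
  constructor
  · obtain ⟨K, hK, hγ⟩ := fam Λ' φ h1 h2 h3 (fun s => max 0 (min 1 s)) (fun s => s) hcl
      contDiff_id hce
    refine ⟨K, hK, ?_, ?_⟩
    · funext u
      rw [hγ, h4]
      norm_num
    · funext u
      rw [hγ]
      norm_num
  · obtain ⟨K, hK, hγ⟩ := fam Λ' φ h1 h2 h3 (fun s => 1 - max 0 (min 1 s)) (fun s => 1 - s)
      (fun s => ⟨by linarith [(hcl s).2], by linarith [(hcl s).1]⟩)
      (contDiff_const.sub contDiff_id) (fun s hs => by rw [hce s hs])
    refine ⟨K, hK, ?_, ?_⟩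
    · funext u
      rw [hγ]
      norm_num
    · funext u
      rw [hγ, h4]
      norm_num

end LHS


end

section

/-!
# CVV: separation of two vertex pieces
-/

namespace LCA

open Set Filter
open scoped ContDiff Topology

namespace CVV

variable {m n : ℕ}

/-- (I2) for the left end -/
theorem i2_lf (c : Comb m n) (q v : St n) (e : Fin m) :
    v.2 (c.lf e) = c.dpe q v e * q.1 (c.lf e) + c.pe q e * v.1 (c.lf e) + c.dae q v e := by
  unfold Comb.dae
  ring

/-- (I2) for the right end -/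
theorem i2_rt (c : Comb m n) (q v : St n) (e : Fin m) (h : q.1 (c.rt e) - q.1 (c.lf e) ≠ 0) :
    v.2 (c.rt e) = c.dpe q v e * q.1 (c.rt e) + c.pe q e * v.1 (c.rt e) + c.dae q v e := by
  have h1 : c.dpe q v e * (q.1 (c.rt e) - q.1 (c.lf e)) =
      v.2 (c.rt e) - v.2 (c.lf e) - c.pe q e * (v.1 (c.rt e) - v.1 (c.lf e)) := by
    unfold Comb.dpe
    exact div_mul_cancel₀ _ h
  unfold Comb.dae
  linarith

/-- (I2) for the edge `ea i` -/
theorem i2_a (c : Comb m n) (q v : St n) (hv : c.Valid)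
    (hlen : ∀ e, q.1 (c.rt e) - q.1 (c.lf e) ≠ 0) (i : Fin n) :
    v.2 i = c.dpe q v (c.ea i) * q.1 i + c.pe q (c.ea i) * v.1 i + c.dae q v (c.ea i) := by
  have h1 := hv.oka i
  unfold Comb.OKa at h1
  have h2 := i2_lf c q v (c.ea i)
  have h3 := i2_rt c q v (c.ea i) (hlen _)
  cases ht : c.ty i <;> rw [ht] at h1 <;> simp only at h1
  · rw [h1] at h3
    exact h3
  · rw [h1] at h3
    exact h3
  · rw [h1] at h2
    exact h2

/-- the bound for the `x`-coordinate of a profile -/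
theorem X_le {t : Ty} {s : ℝ} {π : Prof} (h : ProfBd t s π) (u : ℝ) (hu : |u| ≤ 2) :
    |π.X s u| ≤ 2 := by
  rcases le_or_gt u (-1) with h1 | h1
  · rw [(h.low u h1).1]
    cases t <;> simp only [Ty.inX]
    · exact hu
    · exact hu
    · rw [abs_neg]
      exact hu
  · rcases le_or_gt 1 u with h2 | h2
    · rw [(h.high u h2).1]
      cases t <;> simp only [Ty.outX]
      · exact hu
      · rw [abs_neg]
        exact hu
      · exact hu
    · have h3 := h.X_bd u (abs_le.2 ⟨h1.le, h2.le⟩)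
      linarith

/-- the three bounds for a point of a vertex piece -/
theorem bounds (c : Comb m n) (w : Fin n → ℝ) (π : Fin n → Prof) (s : ℝ) (q v : St n)
    (hv : c.Valid) (hw : ∀ i, 0 < w i) (hπ : ∀ i, ProfBd (c.ty i) s (π i))
    (hlen : ∀ e, q.1 (c.rt e) - q.1 (c.lf e) ≠ 0) (i : Fin n) (u : ℝ) (hu : |u| ≤ 2) :
    |(c.vp w π s q v i u).1 - q.1 i| ≤ 2 * w i ∧ c.plo q i ≤ (c.vp w π s q v i u).2.1 ∧
      (c.vp w π s q v i u).2.1 ≤ c.phi q i ∧
      |(c.vp w π s q v i u).2.2.1 - (v.2 i - (c.vp w π s q v i u).2.1 * v.1 i)| ≤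
        c.err w q v i := by
  have hX := X_le (hπ i) u hu
  have hP := (hπ i).P_mem u
  have hΘ := (hπ i).Θ_bd u hu
  have hY := (hπ i).Y_bd u hu
  have hwi := hw i
  have i2 := i2_a c q v hv hlen i
  simp only [Comb.vp, Comb.vpt]
  set X := (π i).X s u with hX'
  set P := (π i).P s u with hP'
  set Θ := (π i).Θ s u with hΘ'
  set Y := (π i).Y s u with hY'
  refine ⟨?_, ?_, ?_, ?_⟩
  · have h1 : q.1 i + w i * X - q.1 i = w i * X := by ring
    rw [h1, abs_mul, abs_of_pos hwi]
    calc w i * |X| ≤ w i * 2 := mul_le_mul_of_nonneg_left hX hwi.le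
      _ = 2 * w i := by ring
  · unfold Comb.plo Comb.dl
    rcases le_total (c.pe q (c.ea i)) (c.pe q (c.eb i)) with h | h
    · rw [min_eq_left h]
      have : 0 ≤ (c.pe q (c.eb i) - c.pe q (c.ea i)) * P := mul_nonneg (by linarith) hP.1
      linarith
    · rw [min_eq_right h]
      have : 0 ≤ (c.pe q (c.ea i) - c.pe q (c.eb i)) * (1 - P) :=
        mul_nonneg (by linarith) (by linarith [hP.2])
      nlinarith
  · unfold Comb.phi Comb.dl
    rcases le_total (c.pe q (c.ea i)) (c.pe q (c.eb i)) with h | h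
    · rw [max_eq_right h]
      have : 0 ≤ (c.pe q (c.eb i) - c.pe q (c.ea i)) * (1 - P) :=
        mul_nonneg (by linarith) (by linarith [hP.2])
      nlinarith
    · rw [max_eq_left h]
      have : 0 ≤ (c.pe q (c.ea i) - c.pe q (c.eb i)) * P := mul_nonneg (by linarith) hP.1
      nlinarith
  · have h1 : c.dpe q v (c.ea i) * (q.1 i + w i * X) + c.dae q v (c.ea i)
        + w i * ((c.dpe q v (c.eb i) - c.dpe q v (c.ea i)) * Θ + c.dl q i * Y)
        - c.dl q i * P * v.1 i - (v.2 i - (c.pe q (c.ea i) + c.dl q i * P) * v.1 i) =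
        w i * (c.dpe q v (c.ea i) * X + (c.dpe q v (c.eb i) - c.dpe q v (c.ea i)) * Θ +
          c.dl q i * Y) := by
      rw [i2]
      ring
    rw [h1, abs_mul, abs_of_pos hwi]
    unfold Comb.err
    refine mul_le_mul_of_nonneg_left ?_ hwi.le
    refine (abs_add_three _ _ _).trans ?_
    rw [abs_mul, abs_mul, abs_mul]
    have a1 : |c.dpe q v (c.ea i)| * |X| ≤ 2 * |c.dpe q v (c.ea i)| := by
      rw [mul_comm]
      exact mul_le_mul_of_nonneg_right hX (abs_nonneg _)
    have a2 : |c.dpe q v (c.eb i) - c.dpe q v (c.ea i)| * |Θ| ≤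
        2 * |c.dpe q v (c.eb i) - c.dpe q v (c.ea i)| := by
      rw [mul_comm]
      exact mul_le_mul_of_nonneg_right hΘ (abs_nonneg _)
    have a3 : |c.dl q i| * |Y| ≤ CY * |c.dl q i| := by
      rw [mul_comm]
      exact mul_le_mul_of_nonneg_right hY (abs_nonneg _)
    linarith

/-- An affine function which is larger than `E` at the two ends of an interval is larger than `E`
in it. -/
theorem affine_gt {A B M m x E : ℝ} (h1 : M ≤ x) (h2 : x ≤ m) (hM : E < A * M + B)
    (hm : E < A * m + B) : E < A * x + B := by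
  rcases le_total 0 A with h | h
  · have : A * M ≤ A * x := mul_le_mul_of_nonneg_left h1 h
    linarith
  · have : A * m ≤ A * x := mul_le_mul_of_nonpos_left h2 h
    linarith

end CVV

theorem t_CVV : Stmt_CVV := by
  intro m n c w π s q v hv hw hπ hc i j hij u u' hu hu' hM
  have hlen : ∀ e, q.1 (c.rt e) - q.1 (c.lf e) ≠ 0 := by
    intro e
    have h1 := hc.len e
    have h2 := hw (c.lf e)
    have h3 := hw (c.rt e)
    intro h4
    linarith
  obtain ⟨b1, b2, b3, b4⟩ := CVV.bounds c w π s q v hv hw hπ hlen i u hu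
  obtain ⟨d1, d2, d3, d4⟩ := CVV.bounds c w π s q v hv hw hπ hlen j u' hu'
  obtain ⟨m1, m2, m3⟩ := hM
  rw [← m1] at d1
  rw [← m2] at d2 d3
  rw [← m2, ← m3] at d4
  set x := (c.vp w π s q v i u).1
  set p := (c.vp w π s q v i u).2.1
  set z := (c.vp w π s q v i u).2.2.1
  have b1' := abs_le.1 b1
  have d1' := abs_le.1 d1
  have b4' := abs_le.1 b4
  have d4' := abs_le.1 d4
  rcases hc.vv i j hij with h | ⟨σ, hσ, h1, h2⟩
  · rcases h with h | h | h | h
    · linarith [b1'.1, b1'.2, d1'.1, d1'.2]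
    · linarith [b1'.1, b1'.2, d1'.1, d1'.2]
    · linarith
    · linarith
  · have l1 : max (c.plo q i) (c.plo q j) ≤ p := max_le b2 d2
    have l2 : p ≤ min (c.phi q i) (c.phi q j) := le_min b3 d3
    unfold Dvv at h1 h2
    have h3 : c.err w q v i + c.err w q v j <
        (σ * (v.1 j - v.1 i)) * p + σ * (v.2 i - v.2 j) := by
      refine CVV.affine_gt l1 l2 ?_ ?_
      · calc c.err w q v i + c.err w q v j < _ := h1
          _ = _ := by ring
      · calc c.err w q v i + c.err w q v j < _ := h2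
          _ = _ := by ring
    have h4 : (σ * (v.1 j - v.1 i)) * p + σ * (v.2 i - v.2 j) =
        σ * ((v.2 i - p * v.1 i) - (v.2 j - p * v.1 j)) := by ring
    have h5 : |σ * ((v.2 i - p * v.1 i) - (v.2 j - p * v.1 j))| ≤
        c.err w q v i + c.err w q v j := by
      rw [abs_mul, hσ, one_mul, abs_le]
      constructor <;> linarith [b4'.1, b4'.2, d4'.1, d4'.2]
    have h6 := le_abs_self (σ * ((v.2 i - p * v.1 i) - (v.2 j - p * v.1 j)))
    linarith

end LCA


end

section

namespace LCA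

open Set Filter
open scoped ContDiff Topology

namespace GVV

variable {m n : ℕ}

theorem svv_symm (c : Comb m n) (w : Fin n → ℝ) (Q : St n) (i j : Fin n)
    (h : c.Svv w Q i j) : c.Svv w Q j i := by
  unfold Comb.Svv at h ⊢
  rcases h with h | h | h | h
  · right; left; linarith
  · left; linarith
  · right; right; right; exact h
  · right; right; left; exact h

theorem dvv_symm (v : St n) (i j : Fin n) (p : ℝ) : Dvv v j i p = - Dvv v i j p := by
  unfold Dvv; ring

theorem zvv_symm (c : Comb m n) (w : Fin n → ℝ) (Q V : St n) (i j : Fin n) (σ : ℝ)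
    (h : c.Zvv w Q V i j σ) : c.Zvv w Q V j i (-σ) := by
  unfold Comb.Zvv at h ⊢
  rw [dvv_symm V i j, dvv_symm V i j, max_comm (c.plo Q j), min_comm (c.phi Q j)]
  obtain ⟨h1, h2⟩ := h
  constructor <;> linarith

theorem lvv_symm (c : Comb m n) (w : Fin n → ℝ) (Q V Q' V' : St n) (i j : Fin n)
    (h : c.LVV w Q V Q' V' i j) : c.LVV w Q V Q' V' j i := by
  unfold Comb.LVV at h ⊢
  rcases h with h | h | h | h | ⟨σ, hσ, h1, h2, h3⟩
  · right; left
    exact ⟨by linarith [h.1], by linarith [h.2]⟩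
  · left
    exact ⟨by linarith [h.1], by linarith [h.2]⟩
  · right; right; right; left; exact h
  · right; right; left; exact h
  · right; right; right; right
    refine ⟨-σ, by rw [abs_neg]; exact hσ, ?_, ?_, ?_⟩
    · rw [dvv_symm V' i j, max_comm (min (c.plo Q j) (c.plo Q' j))]; linarith
    · rw [dvv_symm V' i j, min_comm (max (c.phi Q j) (c.phi Q' j))]; linarith
    · rcases h3 with h3 | h3
      · left; exact svv_symm c w Q i j h3
      · right; exact zvv_symm c w Q V i j σ h3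

end GVV

open _root_.LCA.GVV in
/-- GVV: two vertices. -/
theorem t_GVV (hCBL : Stmt_CBL) : Stmt_GVV := by
  intro m n A B hA hB hcb hW i j h
  obtain ⟨hbnd, hbor, hilt, hieq, himax, himin, hiabs, -, -, -, -, -⟩ := hCBL
  have hadd : ∀ x y : ℤ, Int.add x y = x + y := fun _ _ => rfl
  have hsub : ∀ x y : ℤ, Int.sub x y = x - y := fun _ _ => rfl
  have hmul : ∀ x y : ℤ, Int.mul x y = x * y := fun _ _ => rfl
  have hneg : ∀ x : ℤ, Int.neg x = -x := fun _ => rfl
  simp only [chVV, posVV, sgn3, erV, dVV, hbnd, hbor, hilt, himax, himin, hadd, hsub, hmul,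
    hneg] at h
  have key : (A.cb m n).LVV (A.W n) (A.Q n) (A.V n) (B.Q n) (B.V n) i j := by
    -- the values
    have wi : A.W n i = ((A.v i).w : ℝ) := rfl
    have wj : A.W n j = ((A.v j).w : ℝ) := rfl
    have wi' : A.W n i = ((B.v i).w : ℝ) := by rw [hW]; rfl
    have wj' : A.W n j = ((B.v j).w : ℝ) := by rw [hW]; rfl
    have wwi' : B.W n i = ((B.v i).w : ℝ) := rfl
    have wwj' : B.W n j = ((B.v j).w : ℝ) := rfl
    have ejl := hA.jl
    have ejr := hA.jr
    have ejl' := hB.jl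
    have ejr' := hB.jr
    have elo := hA.plo
    have ehi := hA.phi
    have edl := hA.dl
    have eer := hA.er
    have elo' := hB.plo
    have ehi' := hB.phi
    have edl' := hB.dl
    have eer' := hB.er
    rw [← hcb] at elo' ehi' edl' eer'
    have d2 : ∀ k, (A.V n).2 k = ((A.v k).dF : ℝ) := fun _ => rfl
    have d1 : ∀ k, (A.V n).1 k = ((A.v k).dx : ℝ) := fun _ => rfl
    have d2' : ∀ k, (B.V n).2 k = ((B.v k).dF : ℝ) := fun _ => rfl
    have d1' : ∀ k, (B.V n).1 k = ((B.v k).dx : ℝ) := fun _ => rfl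
    have eri : ∀ k, (A.cb m n).erS (A.W n) (A.Q n) (B.Q n) (B.V n) k =
        A.W n k * (((B.v k).er : ℝ) + 1000 * max ((A.v k).hi - (A.v k).lo : ℝ)
          ((B.v k).hi - (B.v k).lo : ℝ)) := by
      intro k
      unfold Comb.erS
      rw [eer' k, edl k, edl' k]
      rfl
    have ezi : ∀ k, (A.cb m n).err (A.W n) (A.Q n) (A.V n) k =
        A.W n k * (((A.v k).er : ℝ) + 1000 * ((A.v k).hi - (A.v k).lo : ℝ)) := by
      intro k
      unfold Comb.err
      rw [eer k, edl k]
      rfl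
    have hS : ((A.v i).jr < (A.v j).jl ∨ (A.v j).jr < (A.v i).jl ∨ (A.v i).hi < (A.v j).lo ∨
        (A.v j).hi < (A.v i).lo) → (A.cb m n).Svv (A.W n) (A.Q n) i j := by
      intro hs
      unfold Comb.Svv
      rcases hs with hs | hs | hs | hs
      · left
        have : ((A.v i).jr : ℝ) < ((A.v j).jl : ℝ) := by exact_mod_cast hs
        rw [← ejr i, ← ejl j] at this
        linarith
      · right; left
        have : ((A.v j).jr : ℝ) < ((A.v i).jl : ℝ) := by exact_mod_cast hs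
        rw [← ejr j, ← ejl i] at this
        linarith
      · right; right; left
        rw [ehi, elo]; exact_mod_cast hs
      · right; right; right
        rw [ehi, elo]; exact_mod_cast hs
    unfold Comb.LVV
    rcases h with h | h | h | h | h
    · left
      obtain ⟨h1, h2⟩ := h
      have h1' : ((A.v i).jr : ℝ) < ((A.v j).jl : ℝ) := by exact_mod_cast h1
      have h2' : ((B.v i).jr : ℝ) < ((B.v j).jl : ℝ) := by exact_mod_cast h2
      rw [← ejr i, ← ejl j] at h1'
      rw [← ejr' i, ← ejl' j, wwi', wwj', ← wi', ← wj'] at h2'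
      exact ⟨by linarith, by linarith⟩
    · right; left
      obtain ⟨h1, h2⟩ := h
      have h1' : ((A.v j).jr : ℝ) < ((A.v i).jl : ℝ) := by exact_mod_cast h1
      have h2' : ((B.v j).jr : ℝ) < ((B.v i).jl : ℝ) := by exact_mod_cast h2
      rw [← ejr j, ← ejl i] at h1'
      rw [← ejr' j, ← ejl' i, wwi', wwj', ← wi', ← wj'] at h2'
      exact ⟨by linarith, by linarith⟩
    · right; right; left
      rw [ehi, elo, ehi', elo']
      exact ⟨by exact_mod_cast h.1, by exact_mod_cast h.2⟩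
    · right; right; right; left
      rw [ehi, elo, ehi', elo']
      exact ⟨by exact_mod_cast h.1, by exact_mod_cast h.2⟩
    · right; right; right; right
      rcases h with ⟨h1, h2, h3⟩ | ⟨h1, h2, h3⟩
      · refine ⟨1, by norm_num, ?_, ?_, ?_⟩
        · rw [eri, eri, elo, elo', elo, elo', wi', wj']
          unfold Dvv
          rw [d2', d1', d2', d1']
          have h1' := (Int.cast_lt (R := ℝ)).mpr h1
          push_cast at h1'
          linarith
        · rw [eri, eri, ehi, ehi', ehi, ehi', wi', wj']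
          unfold Dvv
          rw [d2', d1', d2', d1']
          have h1' := (Int.cast_lt (R := ℝ)).mpr h2
          push_cast at h1'
          linarith
        · rcases h3 with h3 | h3
          · left; exact hS h3
          · right
            unfold Comb.Zvv
            obtain ⟨h3, h4⟩ := h3
            constructor
            · rw [ezi, ezi, elo, elo, wi, wj]
              unfold Dvv
              rw [d2, d1, d2, d1]
              have h1' := (Int.cast_lt (R := ℝ)).mpr h3
              push_cast at h1'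
              linarith
            · rw [ezi, ezi, ehi, ehi, wi, wj]
              unfold Dvv
              rw [d2, d1, d2, d1]
              have h1' := (Int.cast_lt (R := ℝ)).mpr h4
              push_cast at h1'
              linarith
      · refine ⟨-1, by norm_num, ?_, ?_, ?_⟩
        · rw [eri, eri, elo, elo', elo, elo', wi', wj']
          unfold Dvv
          rw [d2', d1', d2', d1']
          have h1' := (Int.cast_lt (R := ℝ)).mpr h1
          push_cast at h1'
          linarith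
        · rw [eri, eri, ehi, ehi', ehi, ehi', wi', wj']
          unfold Dvv
          rw [d2', d1', d2', d1']
          have h1' := (Int.cast_lt (R := ℝ)).mpr h2
          push_cast at h1'
          linarith
        · rcases h3 with h3 | h3
          · left; exact hS h3
          · right
            unfold Comb.Zvv
            obtain ⟨h3, h4⟩ := h3
            constructor
            · rw [ezi, ezi, elo, elo, wi, wj]
              unfold Dvv
              rw [d2, d1, d2, d1]
              have h1' := (Int.cast_lt (R := ℝ)).mpr h3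
              push_cast at h1'
              linarith
            · rw [ezi, ezi, ehi, ehi, wi, wj]
              unfold Dvv
              rw [d2, d1, d2, d1]
              have h1' := (Int.cast_lt (R := ℝ)).mpr h4
              push_cast at h1'
              linarith
  exact ⟨key, lvv_symm _ _ _ _ _ _ _ _ key⟩

end LCA


end
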