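import Mathlib
import Pool.Agent.NDM.C01
import Pool.Agent.NDM.C02
import Pool.Agent.NDM.C03

/-! Parts: LG.LROW, LG.ROW, LG.WT0, LH.PEA, LHS.ZON, LHE.GWA, LHE.LHD, LHE.HOR, LCA.FPR, LCA.SAM, LHE.FGP -/

section

/-!
# The row move from the column move
-/

namespace LG

open Equiv Finset Function

namespace LROW

lemma unl_symm {a b c d : ℝ} (h : Unl a b c d) : Unl b a d c := by
  unfold Unl cyc at *
  grind

/-- transposition and reversal -/
def tr (L : List (ℝ × ℝ)) : List (ℝ × ℝ) := (L.map Prod.swap).reverse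

lemma tr_tr (L : List (ℝ × ℝ)) : tr (tr L) = L := by
  unfold tr
  rw [List.map_reverse, List.reverse_reverse, List.map_map]
  simp

lemma tr_append (A B : List (ℝ × ℝ)) : tr (A ++ B) = tr B ++ tr A := by
  unfold tr
  simp

lemma tr_cons (x : ℝ × ℝ) (B : List (ℝ × ℝ)) : tr (x :: B) = tr B ++ [x.swap] := by
  unfold tr
  simp

lemma mem_tr_fst (L : List (ℝ × ℝ)) (t : ℝ) : t ∈ (tr L).map Prod.fst ↔ t ∈ L.map Prod.snd := by
  unfold tr
  simp

lemma key (hT : Stmt_TRN → Stmt_REL → ∀ L : List (ℝ × ℝ), VL L ↔ VL (L.map Prod.swap).reverse)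
    (hR : Stmt_REL → ∀ A B : List (ℝ × ℝ), VL (A ++ B) ↔ VL (B ++ A)) (h1 : Stmt_TRN)
    (h2 : Stmt_REL) (c r : ℝ) (z : ℝ × ℝ) (B : List (ℝ × ℝ)) :
    VL ((c, r) :: z :: B) ↔ VL ((r, c) :: (tr B ++ [z.swap])) := by
  rw [hT h1 h2]
  have e1 : (((c, r) :: z :: B).map Prod.swap).reverse = (tr B ++ [z.swap]) ++ [(r, c)] := by
    unfold tr
    simp
  rw [e1, hR h2]
  rfl

lemma nd_perm {L L' : List (ℝ × ℝ)} (h : L.Perm L') (hL : Nd L) : Nd L' :=
  ⟨(List.Perm.nodup_iff (h.map _)).1 hL.1, (List.Perm.nodup_iff (h.map _)).1 hL.2⟩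

lemma nd_tr {L : List (ℝ × ℝ)} (h : Nd L) : Nd (tr L) := by
  unfold Nd tr at *
  refine ⟨?_, ?_⟩
  · rw [List.map_reverse, List.nodup_reverse, List.map_map]
    exact h.2
  · rw [List.map_reverse, List.nodup_reverse, List.map_map]
    exact h.1

end LROW

open _root_.LG.LROW in
theorem t_LROW : Stmt_LROW := by
  intro hC hP hrel htrn hT hR c r t z B hnd ht hu
  unfold Inv
  rw [key hT hR htrn hrel c r z B, key hT hR htrn hrel c t z B]
  have e1 : (tr B ++ [z.swap]) ++ [(r, c)] = tr ((c, r) :: z :: B) := by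
    rw [tr_cons, tr_cons]
    rfl
  have hperm : (tr ((c, r) :: z :: B)).Perm ((r, c) :: (tr B ++ [z.swap])) := by
    rw [← e1]
    exact List.perm_append_comm
  refine hC hP hrel r c t (tr B) z.swap (nd_perm hperm (nd_tr hnd)) ?_ ?_
  · intro h
    apply ht
    rw [← mem_tr_fst]
    exact ((hperm.map Prod.fst).mem_iff).2 h
  · intro B₁ B₂ y x he hx
    have e2 : (c, r) :: z :: B ++ [(c, r)] =
        tr (B₂ ++ [(r, c)]) ++ x.swap :: y.swap :: tr B₁ := by
      have e3 : tr ((c, r) :: z :: B ++ [(c, r)]) = ((r, c) :: (tr B ++ [z.swap])) ++ [(r, c)] := by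
        rw [tr_append, ← e1]
        simp [tr]
      have e4 : (c, r) :: z :: B ++ [(c, r)] = tr (((r, c) :: (tr B ++ [z.swap])) ++ [(r, c)]) := by
        rw [← e3, tr_tr]
      rw [e4, he]
      have e5 : B₁ ++ y :: x :: B₂ ++ [(r, c)] = B₁ ++ (y :: x :: (B₂ ++ [(r, c)])) := by simp
      rw [e5, tr_append, tr_cons, tr_cons]
      simp
    exact unl_symm (hu _ _ _ _ e2 hx)

end LG


end

section

/-!
# ROW: exchange of two adjacent unlinked rows
-/

namespace LG

open Equiv Finset Function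

namespace ROW

theorem gd_transpose {ι κ α β : Type} [LinearOrder α] [LinearOrder β] {c : ι → α} {r : ι → β}
    {a : κ → α} {b : κ → β} (h : Gd c r a b) : Gd r c b a :=
  ⟨h.ri, h.ci, h.bi, h.ai, h.br, h.rb, h.ac, h.ca, fun k m h' => h.ne k m ⟨h'.2, h'.1⟩⟩

end ROW

theorem t_ROW : Stmt_ROW := by
  intro hC hT ι κ α β _ _ _ _ _ c r a b hG j k m n hjk hadj hbm hbn hU
  rw [hT ι κ α β c r a b,
    hT ι κ α β c (swap (r j) (r k) ∘ r) a (swap (r j) (r k) ∘ b)]
  exact hC ι κ β α r c b a (ROW.gd_transpose hG) j k m n hjk hadj hbm hbn hU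

end LG


end

section

/-!
# WT0: rectangles without common vertical circles commute
-/

set_option autoImplicit false
set_option linter.unusedVariables false

namespace LG

open Equiv Finset Function

namespace WT0

theorem key1 {α β : Type} [LinearOrder α] [LinearOrder β] (pi pj pk pl : α) (a b c d : β)
    (hij : pi ≠ pj) (hik : pi ≠ pk) (hil : pi ≠ pl) (hjk : pj ≠ pk) (hjl : pj ≠ pl)
    (hkl : pk ≠ pl) (hab : a ≠ b) (hac : a ≠ c) (had : a ≠ d) (hbc : b ≠ c) (hbd : b ≠ d)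
    (hcd : c ≠ d)
    (h1 : ¬ (cyc pi pk pj ∧ cyc a c b)) (h2 : ¬ (cyc pi pl pj ∧ cyc a d b))
    (h3 : ¬ (cyc pk pi pl ∧ cyc c b d)) (h4 : ¬ (cyc pk pj pl ∧ cyc c a d)) :
    ¬ (cyc pk pi pl ∧ cyc c a d) := by
  unfold cyc at *
  grind

theorem key2 {α β : Type} [LinearOrder α] [LinearOrder β] (pi pj pk pl : α) (a b c d : β)
    (hij : pi ≠ pj) (hik : pi ≠ pk) (hil : pi ≠ pl) (hjk : pj ≠ pk) (hjl : pj ≠ pl)
    (hkl : pk ≠ pl) (hab : a ≠ b) (hac : a ≠ c) (had : a ≠ d) (hbc : b ≠ c) (hbd : b ≠ d)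
    (hcd : c ≠ d)
    (h1 : ¬ (cyc pi pk pj ∧ cyc a c b)) (h2 : ¬ (cyc pi pl pj ∧ cyc a d b))
    (h3 : ¬ (cyc pk pi pl ∧ cyc c b d)) (h4 : ¬ (cyc pk pj pl ∧ cyc c a d)) :
    ¬ (cyc pk pj pl ∧ cyc c b d) := by
  unfold cyc at *
  grind

theorem key3 {α β : Type} [LinearOrder α] [LinearOrder β] (pi pj pk pl : α) (a b c d : β)
    (hij : pi ≠ pj) (hik : pi ≠ pk) (hil : pi ≠ pl) (hjk : pj ≠ pk) (hjl : pj ≠ pl)
    (hkl : pk ≠ pl) (hab : a ≠ b) (hac : a ≠ c) (had : a ≠ d) (hbc : b ≠ c) (hbd : b ≠ d)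
    (hcd : c ≠ d)
    (h1 : ¬ (cyc pi pk pj ∧ cyc a c b)) (h2 : ¬ (cyc pi pl pj ∧ cyc a d b))
    (h3 : ¬ (cyc pk pi pl ∧ cyc c b d)) (h4 : ¬ (cyc pk pj pl ∧ cyc c a d)) :
    ¬ (cyc pi pk pj ∧ cyc a d b) := by
  unfold cyc at *
  grind

theorem key4 {α β : Type} [LinearOrder α] [LinearOrder β] (pi pj pk pl : α) (a b c d : β)
    (hij : pi ≠ pj) (hik : pi ≠ pk) (hil : pi ≠ pl) (hjk : pj ≠ pk) (hjl : pj ≠ pl)
    (hkl : pk ≠ pl) (hab : a ≠ b) (hac : a ≠ c) (had : a ≠ d) (hbc : b ≠ c) (hbd : b ≠ d)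
    (hcd : c ≠ d)
    (h1 : ¬ (cyc pi pk pj ∧ cyc a c b)) (h2 : ¬ (cyc pi pl pj ∧ cyc a d b))
    (h3 : ¬ (cyc pk pi pl ∧ cyc c b d)) (h4 : ¬ (cyc pk pj pl ∧ cyc c a d)) :
    ¬ (cyc pi pl pj ∧ cyc a c b) := by
  unfold cyc at *
  grind

theorem not_cyc_left {α : Type} [LinearOrder α] (a b : α) : ¬ cyc a a b := by
  intro h
  exact (cyc_ne h).1 rfl

theorem not_cyc_right {α : Type} [LinearOrder α] (a b : α) : ¬ cyc a b b := by
  intro h
  exact (cyc_ne h).2.1 rfl

section

variable {ι M α β R : Type} [Fintype ι] [DecidableEq ι] [Fintype M] [LinearOrder α]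
  [LinearOrder β] [CommRing R]

theorem emp (G : MG ι M α β R) (hu : Injective G.u) (hv : Injective G.v) (x : Perm ι)
    (i j k l : ι) (hij : i ≠ j) (hkl : k ≠ l) (hik : i ≠ k) (hil : i ≠ l) (hjk : j ≠ k)
    (hjl : j ≠ l) (h1 : Emp G x i j) (h2 : Emp G (x * swap i j) k l) :
    Emp G x k l ∧ Emp G (x * swap k l) i j := by
  have xk : (x * swap i j) k = x k := by
    rw [Perm.mul_apply, swap_apply_of_ne_of_ne hik.symm hjk.symm]
  have xl : (x * swap i j) l = x l := by
    rw [Perm.mul_apply, swap_apply_of_ne_of_ne hil.symm hjl.symm]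
  have xi : (x * swap i j) i = x j := by rw [Perm.mul_apply, swap_apply_left]
  have xj : (x * swap i j) j = x i := by rw [Perm.mul_apply, swap_apply_right]
  have yi : (x * swap k l) i = x i := by
    rw [Perm.mul_apply, swap_apply_of_ne_of_ne hik hil]
  have yj : (x * swap k l) j = x j := by
    rw [Perm.mul_apply, swap_apply_of_ne_of_ne hjk hjl]
  have yk : (x * swap k l) k = x l := by rw [Perm.mul_apply, swap_apply_left]
  have yl : (x * swap k l) l = x k := by rw [Perm.mul_apply, swap_apply_right]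
  have U : ∀ {p q : ι}, p ≠ q → G.u p ≠ G.u q := fun h h' => h (hu h')
  have W : ∀ {p q : ι}, p ≠ q → G.v (x p) ≠ G.v (x q) := fun h h' => h (x.injective (hv h'))
  have f1 := h1 k
  have f2 := h1 l
  have f3 := h2 i
  have f4 := h2 j
  rw [xk, xl, xi] at f3
  rw [xk, xl, xj] at f4
  refine ⟨?_, ?_⟩
  · intro k'
    by_cases e1 : k' = k
    · subst e1
      exact fun h => not_cyc_left _ _ h.1
    by_cases e2 : k' = l
    · subst e2
      exact fun h => not_cyc_right _ _ h.1
    by_cases e3 : k' = i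
    · subst e3
      exact key1 _ _ _ _ _ _ _ _ (U hij) (U hik) (U hil) (U hjk) (U hjl) (U hkl) (W hij) (W hik)
        (W hil) (W hjk) (W hjl) (W hkl) f1 f2 f3 f4
    by_cases e4 : k' = j
    · subst e4
      exact key2 _ _ _ _ _ _ _ _ (U hij) (U hik) (U hil) (U hjk) (U hjl) (U hkl) (W hij) (W hik)
        (W hil) (W hjk) (W hjl) (W hkl) f1 f2 f3 f4
    have g := h2 k'
    rw [xk, xl, Perm.mul_apply, swap_apply_of_ne_of_ne e3 e4] at g
    exact g
  · intro k'
    rw [yi, yj]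
    by_cases e1 : k' = k
    · subst e1
      rw [yk]
      exact key3 _ _ _ _ _ _ _ _ (U hij) (U hik) (U hil) (U hjk) (U hjl) (U hkl) (W hij) (W hik)
        (W hil) (W hjk) (W hjl) (W hkl) f1 f2 f3 f4
    by_cases e2 : k' = l
    · subst e2
      rw [yl]
      exact key4 _ _ _ _ _ _ _ _ (U hij) (U hik) (U hil) (U hjk) (U hjl) (U hkl) (W hij) (W hik)
        (W hil) (W hjk) (W hjl) (W hkl) f1 f2 f3 f4
    rw [Perm.mul_apply, swap_apply_of_ne_of_ne e1 e2]
    exact h1 k'

/-- the product over the marks -/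
noncomputable def pr (G : MG ι M α β R) (x : Perm ι) (i j : ι) : R :=
  ∏ m, (if Ins G x i j m then G.w m else 1)

theorem pr_swap (G : MG ι M α β R) (x : Perm ι) (i j k l : ι) (hik : i ≠ k) (hil : i ≠ l)
    (hjk : j ≠ k) (hjl : j ≠ l) : pr G (x * swap i j) k l = pr G x k l := by
  have xk : (x * swap i j) k = x k := by
    rw [Perm.mul_apply, swap_apply_of_ne_of_ne hik.symm hjk.symm]
  have xl : (x * swap i j) l = x l := by
    rw [Perm.mul_apply, swap_apply_of_ne_of_ne hil.symm hjl.symm]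
  unfold pr
  refine Finset.prod_congr rfl fun m _ => ?_
  have h : Ins G (x * swap i j) k l m ↔ Ins G x k l m := by
    unfold Ins
    rw [xk, xl]
  by_cases hm : Ins G x k l m
  · rw [if_pos hm, if_pos (h.mpr hm)]
  · rw [if_neg hm, if_neg (fun h' => hm (h.mp h'))]

theorem Wt_pos (G : MG ι M α β R) (x : Perm ι) (i j : ι) (h : i ≠ j ∧ Emp G x i j) :
    Wt G x i j = pr G x i j := by
  unfold Wt pr
  rw [if_pos h]

theorem Wt_neg (G : MG ι M α β R) (x : Perm ι) (i j : ι) (h : ¬ (i ≠ j ∧ Emp G x i j)) :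
    Wt G x i j = 0 := by
  unfold Wt
  rw [if_neg h]

theorem prod_zero (G : MG ι M α β R) (x : Perm ι) (i j k l : ι)
    (h : ¬ (i ≠ j ∧ k ≠ l ∧ Emp G x i j ∧ Emp G (x * swap i j) k l)) :
    Wt G x i j * Wt G (x * swap i j) k l = 0 := by
  by_cases h1 : i ≠ j ∧ Emp G x i j
  · have h2 : ¬ (k ≠ l ∧ Emp G (x * swap i j) k l) := by
      intro h2
      exact h ⟨h1.1, h2.1, h1.2, h2.2⟩
    rw [Wt_neg G _ k l h2, mul_zero]
  · rw [Wt_neg G _ i j h1, zero_mul]

end

end WT0

open _root_.LG.WT0 in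
theorem t_WT0 : Stmt_WT0 := by
  intro ι M α β R _ _ _ _ _ _ G hu hv x i j k l hik hil hjk hjl
  by_cases h : i ≠ j ∧ k ≠ l ∧ Emp G x i j ∧ Emp G (x * swap i j) k l
  · obtain ⟨hij, hkl, h1, h2⟩ := h
    obtain ⟨h3, h4⟩ := emp G hu hv x i j k l hij hkl hik hil hjk hjl h1 h2
    rw [Wt_pos G x i j ⟨hij, h1⟩, Wt_pos G _ k l ⟨hkl, h2⟩, Wt_pos G x k l ⟨hkl, h3⟩,
      Wt_pos G _ i j ⟨hij, h4⟩, pr_swap G x i j k l hik hil hjk hjl,
      pr_swap G x k l i j hik.symm hjk.symm hil.symm hjl.symm, mul_comm]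
  · have h' : ¬ (k ≠ l ∧ i ≠ j ∧ Emp G x k l ∧ Emp G (x * swap k l) i j) := by
      rintro ⟨hkl, hij, h1, h2⟩
      obtain ⟨h3, h4⟩ := emp G hu hv x k l i j hkl hij hik.symm hjk.symm hil.symm hjl.symm h1 h2
      exact h ⟨hij, hkl, h3, h4⟩
    rw [prod_zero G x i j k l h, prod_zero G x k l i j h']

end LG


end

section

/-!
# Moving the lines a little
-/

namespace LH

open Set LG

namespace PEA

variable {N : ℕ}

/-- The line `s` is near the line `t`: all strict inequalities at `t` remain true at `s`. -/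
structure Nr (P : Pg N) (t s : ℝ) : Prop where
  lo : ∀ i, P.x i < t → P.x i < s
  hi : ∀ i, t < P.x i → s < P.x i
  ln : ∀ i j, P.l i t < P.l j t → P.l i s < P.l j s

theorem red (hB : P_PGB) (P : Pg N) (i : ℤ) :
    P.x (i % N) = P.x i ∧ ∀ t, P.l (i % N) t = P.l i t := by
  have h := hB.sh P (i % N) (i / N)
  have e : i % N + i / N * N = i := Int.emod_add_ediv_mul i N
  rw [e] at h
  exact ⟨h.1.symm, fun t => (h.2.2.2 t).symm⟩

theorem cont_l (P : Pg N) (i : ℤ) : Continuous (P.l i) := by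
  unfold Pg.l
  fun_prop

theorem nr_ev (hB : P_PGB) (hN : 0 < N) (P : Pg N) (t : ℝ) :
    ∀ᶠ s in nhds t, Nr P t s := by
  have hN' : (0 : ℤ) < N := by exact_mod_cast hN
  have hm : ∀ i : ℤ, i % N ∈ Finset.Ico (0 : ℤ) N := fun i =>
    Finset.mem_Ico.mpr ⟨Int.emod_nonneg i hN'.ne', Int.emod_lt_of_pos i hN'⟩
  have h1 : ∀ᶠ s in nhds t, ∀ i ∈ Finset.Ico (0 : ℤ) N, P.x i < t → P.x i < s := by
    rw [Filter.eventually_all_finset]
    intro i _
    by_cases h : P.x i < t
    · filter_upwards [lt_mem_nhds h] with s hs _ using hs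
    · exact Filter.Eventually.of_forall fun s h' => absurd h' h
  have h2 : ∀ᶠ s in nhds t, ∀ i ∈ Finset.Ico (0 : ℤ) N, t < P.x i → s < P.x i := by
    rw [Filter.eventually_all_finset]
    intro i _
    by_cases h : t < P.x i
    · filter_upwards [gt_mem_nhds h] with s hs _ using hs
    · exact Filter.Eventually.of_forall fun s h' => absurd h' h
  have h3 : ∀ᶠ s in nhds t, ∀ i ∈ Finset.Ico (0 : ℤ) N, ∀ j ∈ Finset.Ico (0 : ℤ) N,
      P.l i t < P.l j t → P.l i s < P.l j s := by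
    rw [Filter.eventually_all_finset]
    intro i _
    rw [Filter.eventually_all_finset]
    intro j _
    by_cases h : P.l i t < P.l j t
    · have := ((cont_l P i).tendsto t).eventually_lt ((cont_l P j).tendsto t) h
      filter_upwards [this] with s hs _ using hs
    · exact Filter.Eventually.of_forall fun s h' => absurd h' h
  filter_upwards [h1, h2, h3] with s g1 g2 g3
  refine ⟨fun i hi => ?_, fun i hi => ?_, fun i j hij => ?_⟩
  · have := g1 _ (hm i)
    rw [(red hB P i).1] at this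
    exact this hi
  · have := g2 _ (hm i)
    rw [(red hB P i).1] at this
    exact this hi
  · have := g3 _ (hm i) _ (hm j)
    rw [(red hB P i).2, (red hB P i).2, (red hB P j).2, (red hB P j).2] at this
    exact this hij

theorem ex_eps (hB : P_PGB) (hN : 0 < N) (P : Pg N) (X : Finset ℝ) :
    ∃ ε > 0, (∀ t ∈ X, ∀ s, |s - t| < ε → Nr P t s) ∧
      ∀ s ∈ X, ∀ t ∈ X, s < t → 2 * ε < t - s := by
  have h1 : ∀ᶠ ε in nhdsWithin (0 : ℝ) (Ioi 0), ∀ t ∈ X, ∀ s, |s - t| < ε → Nr P t s := by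
    rw [Filter.eventually_all_finset]
    intro t _
    obtain ⟨δ, hδ, h⟩ := Metric.eventually_nhds_iff.mp (nr_ev hB hN P t)
    filter_upwards [Ioo_mem_nhdsGT hδ] with ε hε s hs
    apply h
    rw [Real.dist_eq]
    exact hs.trans hε.2
  have h2 : ∀ᶠ ε in nhdsWithin (0 : ℝ) (Ioi 0), ∀ s ∈ X, ∀ t ∈ X, s < t → 2 * ε < t - s := by
    rw [Filter.eventually_all_finset]
    intro s _
    rw [Filter.eventually_all_finset]
    intro t _
    by_cases h : s < t
    · have h' : 0 < (t - s) / 2 := by linarith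
      filter_upwards [Ioo_mem_nhdsGT h'] with ε hε _
      linarith [hε.2]
    · exact Filter.Eventually.of_forall fun ε h' => absurd h' h
  obtain ⟨ε, ⟨g1, g2⟩, g3⟩ := ((h1.and h2).and self_mem_nhdsWithin).exists
  exact ⟨ε, g3, g1, g2⟩

section Move

variable {P : Pg N} {X : Finset ℝ} {σ : ℝ → ℝ}

/-- The assumptions on the new lines. -/
structure Mv (P : Pg N) (X : Finset ℝ) (σ : ℝ → ℝ) : Prop where
  nr : ∀ t ∈ X, Nr P t (σ t)
  mono : ∀ s ∈ X, ∀ t ∈ X, s < t → σ s < σ t
  av : ∀ t ∈ X, ∀ i, P.x i ≠ t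

theorem Mv.lo_iff (h : Mv P X σ) {t : ℝ} (ht : t ∈ X) (i : ℤ) : P.x i < σ t ↔ P.x i < t := by
  constructor
  · intro h1
    rcases lt_trichotomy (P.x i) t with h2 | h2 | h2
    · exact h2
    · exact absurd h2 (h.av t ht i)
    · exact absurd h1 (not_lt.mpr ((h.nr t ht).hi i h2).le)
  · exact (h.nr t ht).lo i

theorem Mv.hi_iff (h : Mv P X σ) {t : ℝ} (ht : t ∈ X) (i : ℤ) : σ t < P.x i ↔ t < P.x i := by
  constructor
  · intro h1
    rcases lt_trichotomy (P.x i) t with h2 | h2 | h2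
    · exact absurd h1 (not_lt.mpr ((h.nr t ht).lo i h2).le)
    · exact absurd h2 (h.av t ht i)
    · exact h2
  · exact (h.nr t ht).hi i

theorem Mv.lt_iff (h : Mv P X σ) {s t : ℝ} (hs : s ∈ X) (ht : t ∈ X) : σ s < σ t ↔ s < t := by
  constructor
  · intro h1
    rcases lt_trichotomy s t with h2 | h2 | h2
    · exact h2
    · rw [h2] at h1
      exact absurd h1 (lt_irrefl _)
    · exact absurd (h.mono t ht s hs h2) (not_lt.mpr h1.le)
  · exact h.mono s hs t ht

theorem Mv.comp_iff (h : Mv P X σ) {a b : ℝ} (ha : a ∈ X) (hb : b ∈ X) (p q : ℤ) :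
    Comp P (σ a) (σ b) p q ↔ Comp P a b p q := by
  constructor
  · intro c
    refine ⟨c.le, fun i h1 h2 => ?_, ?_, ?_, fun he => ?_⟩
    · have := c.ins i h1 h2
      rwa [h.hi_iff ha, h.lo_iff hb] at this
    · have := c.fst
      rwa [h.lo_iff ha, h.hi_iff hb] at this
    · have := c.lst
      rwa [h.lo_iff ha, h.hi_iff hb] at this
    · have := c.one he
      rwa [h.lo_iff ha, h.hi_iff hb, h.lo_iff ha, h.hi_iff hb] at this
  · intro c
    refine ⟨c.le, fun i h1 h2 => ?_, ?_, ?_, fun he => ?_⟩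
    · have := c.ins i h1 h2
      rwa [h.hi_iff ha, h.lo_iff hb]
    · have := c.fst
      rwa [h.lo_iff ha, h.hi_iff hb]
    · have := c.lst
      rwa [h.lo_iff ha, h.hi_iff hb]
    · have := c.one he
      rwa [h.lo_iff ha, h.hi_iff hb, h.lo_iff ha, h.hi_iff hb]

theorem Mv.sep (h : Mv P X σ) {a : ℝ} (ha : a ∈ X) {p q p' q' : ℤ} (hs : Sep P p q p' q' a) :
    Sep P p q p' q' (σ a) := by
  rcases hs with hs | hs
  · exact Or.inl fun i hi j hj => (h.nr a ha).ln i j (hs i hi j hj)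
  · exact Or.inr fun i hi j hj => (h.nr a ha).ln j i (hs i hi j hj)

theorem Mv.good (h : Mv P X σ) {a b : ℝ} (ha : a ∈ X) (hb : b ∈ X) (hg : Good P a b) :
    Good P (σ a) (σ b) := by
  refine ⟨h.mono a ha b hb hg.lt, fun i => ?_, ?_, fun p q hc => ?_, fun p q p' q' h1 h2 h3 h4 => ?_⟩
  · constructor
    · intro he
      rcases lt_or_gt_of_ne (hg.av i).1 with h1 | h1
      · exact absurd ((h.nr a ha).lo i h1) (he ▸ lt_irrefl _)
      · exact absurd ((h.nr a ha).hi i h1) (he ▸ lt_irrefl _)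
    · intro he
      rcases lt_or_gt_of_ne (hg.av i).2 with h1 | h1
      · exact absurd ((h.nr b hb).lo i h1) (he ▸ lt_irrefl _)
      · exact absurd ((h.nr b hb).hi i h1) (he ▸ lt_irrefl _)
  · obtain ⟨i, hi⟩ := hg.out
    refine ⟨i, ?_⟩
    rwa [h.lo_iff ha, h.hi_iff hb]
  · exact hg.ty p q ((h.comp_iff ha hb p q).mp hc)
  · have := hg.sep p q p' q' ((h.comp_iff ha hb p q).mp h1) ((h.comp_iff ha hb p' q').mp h2) h3 h4
    exact ⟨h.sep ha this.1, h.sep hb this.2⟩

theorem Mv.adj (h : Mv P X σ) {a b : ℝ} (hab : AdjX X a b) : AdjX (X.image σ) (σ a) (σ b) := by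
  obtain ⟨ha, hb, hlt, hn⟩ := hab
  refine ⟨Finset.mem_image_of_mem _ ha, Finset.mem_image_of_mem _ hb, h.mono a ha b hb hlt, ?_⟩
  intro t ht
  obtain ⟨u, hu, rfl⟩ := Finset.mem_image.mp ht
  rw [h.lt_iff ha hu, h.lt_iff hu hb]
  exact hn u hu

theorem Mv.adj' (h : Mv P X σ) {a' b' : ℝ} (hab : AdjX (X.image σ) a' b') :
    ∃ a b, AdjX X a b ∧ a' = σ a ∧ b' = σ b := by
  obtain ⟨ha', hb', hlt, hn⟩ := hab
  obtain ⟨a, ha, rfl⟩ := Finset.mem_image.mp ha'
  obtain ⟨b, hb, rfl⟩ := Finset.mem_image.mp hb'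
  refine ⟨a, b, ⟨ha, hb, (h.lt_iff ha hb).mp hlt, fun t ht => ?_⟩, rfl, rfl⟩
  have := hn (σ t) (Finset.mem_image_of_mem _ ht)
  rwa [h.lt_iff ha ht, h.lt_iff ht hb] at this

theorem Mv.goodX (h : Mv P X σ) (hg : GoodX P X) : GoodX P (X.image σ) := by
  refine ⟨?_, ?_, ?_⟩
  · obtain ⟨a, ha, h1⟩ := hg.lo
    exact ⟨σ a, Finset.mem_image_of_mem _ ha, fun i => (h.nr a ha).hi i (h1 i)⟩
  · obtain ⟨b, hb, h1⟩ := hg.hi
    exact ⟨σ b, Finset.mem_image_of_mem _ hb, fun i => (h.nr b hb).lo i (h1 i)⟩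
  · intro a' b' hab
    obtain ⟨a, b, hab', rfl, rfl⟩ := h.adj' hab
    exact h.good hab'.1 hab'.2.1 (hg.gd a b hab')

/-- The item on the new line. -/
def mi (σ : ℝ → ℝ) (i : It) : It := ⟨i.k, σ i.t, i.e⟩

theorem Mv.btw (h : Mv P X σ) {s t : ℝ} (hs : s ∈ X) (ht : t ∈ X) {m : ℤ}
    (hb : Btw s t (P.x m)) : Btw (σ s) (σ t) (P.x m) := by
  unfold Btw at hb ⊢
  rwa [h.hi_iff hs, h.lo_iff ht, h.hi_iff ht, h.lo_iff hs]

theorem lnk_mem {i j : It} (hl : Lnk P X i j) : i.t ∈ X ∧ j.t ∈ X := by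
  rcases hl.adj with h | h
  · exact ⟨h.1, h.2.1⟩
  · exact ⟨h.2.1, h.1⟩

theorem Mv.lnk (h : Mv P X σ) {i j : It} (hl : Lnk P X i j) :
    Lnk P (X.image σ) (mi σ i) (mi σ j) := by
  obtain ⟨hi, hj⟩ := lnk_mem hl
  refine ⟨hl.le, hl.tl, ?_, fun m h1 h2 => h.btw hi hj (hl.ins m h1 h2), ?_⟩
  · rcases hl.adj with h1 | h1
    · exact Or.inl (h.adj h1)
    · exact Or.inr (h.adj h1)
  · rcases hl.dir with ⟨h1, h2, h3⟩ | ⟨h1, h2, h3⟩
    · exact Or.inl ⟨h1, h2, h.mono _ hi _ hj h3⟩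
    · exact Or.inr ⟨h1, h2, h.mono _ hj _ hi h3⟩

theorem Mv.itOK (h : Mv P X σ) {i : It} (hi : i.t ∈ X) (hok : ItOK P i) : ItOK P (mi σ i) := by
  refine ⟨fun hk => ?_, fun hk => ?_⟩
  · obtain ⟨h1, h2⟩ := hok.1 hk
    exact ⟨(h.nr _ hi).lo _ h1, (h.nr _ hi).hi _ h2⟩
  · obtain ⟨h1, h2⟩ := hok.2 hk
    exact ⟨(h.nr _ hi).lo _ h1, (h.nr _ hi).hi _ h2⟩

theorem chain_mem {l : List It} {R : It → It → Prop} (S : It → Prop)
    (hR : ∀ a b, R a b → S a) {z : It} (h : List.IsChain R (l ++ [z])) : ∀ a ∈ l, S a := by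
  induction l with
  | nil => intro a ha; simp at ha
  | cons b l ih =>
    intro a ha
    rcases l with _ | ⟨c, l⟩
    · have : a = b := by simpa using ha
      subst this
      have h' : R a z := by
        simpa using h
      exact hR _ _ h'
    · have h' : List.IsChain R (b :: c :: (l ++ [z])) := h
      rw [List.isChain_cons_cons] at h'
      rcases List.mem_cons.mp ha with rfl | ha
      · exact hR _ _ h'.1
      · exact ih h'.2 a ha

theorem ew_mem {w : List It} (hw : EW P X w) : ∀ i ∈ w, i.t ∈ X := by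
  obtain ⟨i, w', hw', hok, hch⟩ := hw
  exact chain_mem (fun i => i.t ∈ X) (fun a b hab => (lnk_mem hab).1) hch

theorem Mv.ew (h : Mv P X σ) {w : List It} (hw : EW P X w) : EW P (X.image σ) (w.map (mi σ)) := by
  have hm := ew_mem hw
  obtain ⟨i, w', hw', hok, hch⟩ := hw
  refine ⟨mi σ i, w'.map (mi σ), by rw [hw']; rfl, ?_, ?_⟩
  · intro j hj
    obtain ⟨j', hj', rfl⟩ := List.mem_map.mp hj
    exact h.itOK (hm j' hj') (hok j' hj')
  · have e : w.map (mi σ) ++ [(mi σ i).sh N] = (w ++ [i.sh N]).map (mi σ) := by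
      rw [List.map_append]
      rfl
    rw [e, List.isChain_map]
    exact hch.imp fun a b hab => h.lnk hab

theorem cp_map {α β : Type*} (f : α → β) (w : List α) : cp (w.map f) = (cp w).map (Prod.map f f) := by
  unfold cp
  rw [← List.map_rotate, List.zip_map]

theorem Mv.gw (h : Mv P X σ) {w : List It} (hw : GW P X w) : GW P (X.image σ) (w.map (mi σ)) := by
  refine ⟨h.ew hw.1, ?_⟩
  intro x hx
  rw [cp_map] at hx
  obtain ⟨y, hy, rfl⟩ := List.mem_map.mp hx
  exact hw.2 y hy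

/-! ### the entries -/

/-- The columns. -/
theorem inl_mem {w : List It} {a : Q} (h : Sum.inl a ∈ ents (w.map (pt P))) :
    ∃ i ∈ w, i.k ≠ .L ∧ a = (pt P i).c := by
  unfold ents at h
  rw [List.flatMap_map, List.mem_flatMap] at h
  obtain ⟨i, hi, h⟩ := h
  refine ⟨i, hi, ?_⟩
  unfold ent at h
  have hk : (pt P i).k = i.k := rfl
  rw [hk] at h
  rcases hik : i.k with _ | _ | _ | _ <;> rw [hik] at h <;> simp at h <;> simp [h]

theorem inr_mem {w : List It} {a : Q} (h : Sum.inr a ∈ ents (w.map (pt P))) :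
    ∃ i ∈ w, i.k ≠ .R ∧ a = (pt P i).r := by
  unfold ents at h
  rw [List.flatMap_map, List.mem_flatMap] at h
  obtain ⟨i, hi, h⟩ := h
  refine ⟨i, hi, ?_⟩
  unfold ent at h
  have hk : (pt P i).k = i.k := rfl
  rw [hk] at h
  rcases hik : i.k with _ | _ | _ | _ <;> rw [hik] at h <;> simp at h <;> simp [h]

theorem inl_ent {i : It} (h : i.k ≠ .L) : Sum.inl (pt P i).c ∈ ent (pt P i) := by
  unfold ent
  have hk : (pt P i).k = i.k := rfl
  rw [hk]
  rcases hik : i.k with _ | _ | _ | _ <;> simp [hik] at h ⊢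

theorem inr_ent {i : It} (h : i.k ≠ .R) : Sum.inr (pt P i).r ∈ ent (pt P i) := by
  unfold ent
  have hk : (pt P i).k = i.k := rfl
  rw [hk]
  rcases hik : i.k with _ | _ | _ | _ <;> simp [hik] at h ⊢

theorem nd_disj {w : List It} (hnd : (ents (w.map (pt P))).Nodup) {i j : It} (hi : i ∈ w)
    (hj : j ∈ w) (hij : i ≠ j) : List.Disjoint (ent (pt P i)) (ent (pt P j)) := by
  unfold ents at hnd
  rw [List.flatMap_map, List.nodup_flatMap] at hnd
  have h2 := hnd.2
  have hs : Std.Symm (Function.onFun List.Disjoint fun a : It => ent (pt P a)) :=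
    ⟨fun a b hab => List.disjoint_comm.mp hab⟩
  exact h2.forall hi hj hij

open Classical in
/-- The new column. -/
noncomputable def fc (P : Pg N) (σ : ℝ → ℝ) (w : List It) (a : Q) : Q :=
  if h : ∃ i ∈ w, i.k ≠ .L ∧ a = (pt P i).c then (pt P (mi σ h.choose)).c else a

open Classical in
/-- The new row. -/
noncomputable def fr (P : Pg N) (σ : ℝ → ℝ) (w : List It) (a : Q) : Q :=
  if h : ∃ i ∈ w, i.k ≠ .R ∧ a = (pt P i).r then (pt P (mi σ h.choose)).r else a

theorem fc_eq {w : List It} (hnd : (ents (w.map (pt P))).Nodup) {i : It} (hi : i ∈ w)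
    (hk : i.k ≠ .L) : fc P σ w (pt P i).c = (pt P (mi σ i)).c := by
  have h : ∃ j ∈ w, j.k ≠ .L ∧ (pt P i).c = (pt P j).c := ⟨i, hi, hk, rfl⟩
  unfold fc
  rw [dif_pos h]
  obtain ⟨h1, h2, h3⟩ := h.choose_spec
  have : h.choose = i := by
    by_contra hne
    have hd := nd_disj hnd h1 hi hne
    apply hd (inl_ent h2)
    rw [← h3]
    exact inl_ent hk
  rw [this]

theorem fr_eq {w : List It} (hnd : (ents (w.map (pt P))).Nodup) {i : It} (hi : i ∈ w)
    (hk : i.k ≠ .R) : fr P σ w (pt P i).r = (pt P (mi σ i)).r := by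
  have h : ∃ j ∈ w, j.k ≠ .R ∧ (pt P i).r = (pt P j).r := ⟨i, hi, hk, rfl⟩
  unfold fr
  rw [dif_pos h]
  obtain ⟨h1, h2, h3⟩ := h.choose_spec
  have : h.choose = i := by
    by_contra hne
    have hd := nd_disj hnd h1 hi hne
    apply hd (inr_ent h2)
    rw [← h3]
    exact inr_ent hk
  rw [this]

theorem ents_eq {w : List It} (hnd : (ents (w.map (pt P))).Nodup) :
    (lst P w).map (Sum.map (fc P σ w) (fr P σ w)) = lst P (w.map (mi σ)) := by
  unfold lst ents
  rw [List.map_flatMap, List.map_map, List.flatMap_map, List.flatMap_map]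
  apply List.flatMap_congr
  intro i hi
  have hc := fc_eq (σ := σ) hnd hi
  have hr := fr_eq (σ := σ) hnd hi
  have hk : (pt P i).k = i.k := rfl
  have hk' : (pt P (mi σ i)).k = i.k := rfl
  change (ent (pt P i)).map _ = ent (pt P (mi σ i))
  unfold ent
  rw [hk, hk']
  rcases hik : i.k with _ | _ | _ | _
  · simp [hc (by rw [hik]; decide), hr (by rw [hik]; decide)]
  · simp [hc (by rw [hik]; decide), hr (by rw [hik]; decide)]
  · simp [hc (by rw [hik]; decide)]
  · simp [hr (by rw [hik]; decide)]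

theorem Mv.we (hW : P_WEB) (hA : P_CWA) (h : Mv P X σ) {w : List It} (hw : EW P X w)
    (hcw : CW (w.map (pt P))) : WE (lst P w) (lst P (w.map (mi σ))) := by
  have hm := ew_mem hw
  have hnd : (ents (w.map (pt P))).Nodup := hcw.nd
  rw [← ents_eq hnd]
  apply hW.iso _ _ _ (hA.alt _ hcw) hnd
  · intro a b ha hb hab
    obtain ⟨i, hi, hki, rfl⟩ := inl_mem ha
    obtain ⟨j, hj, hkj, rfl⟩ := inl_mem hb
    rw [fc_eq hnd hi hki, fc_eq hnd hj hkj]
    unfold Pt.c at hab ⊢
    rw [Prod.Lex.toLex_lt_toLex] at hab ⊢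
    rcases hab with h1 | ⟨h1, h2⟩
    · exact Or.inl (h.mono _ (hm i hi) _ (hm j hj) h1)
    · refine Or.inr ⟨congrArg σ h1, ?_⟩
      have h3 : i.t = j.t := h1
      have h4 : P.l i.e i.t < P.l j.e j.t := h2
      change P.l i.e (σ i.t) < P.l j.e (σ j.t)
      rw [← h3] at h4 ⊢
      exact (h.nr _ (hm i hi)).ln _ _ h4
  · intro a b ha hb hab
    obtain ⟨i, hi, hki, rfl⟩ := inr_mem ha
    obtain ⟨j, hj, hkj, rfl⟩ := inr_mem hb
    rw [fr_eq hnd hi hki, fr_eq hnd hj hkj]
    unfold Pt.r at hab ⊢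
    rw [Prod.Lex.toLex_lt_toLex] at hab ⊢
    rcases hab with h1 | ⟨h1, h2⟩
    · left
      have h3 : -i.t < -j.t := h1
      have h4 := h.mono _ (hm j hj) _ (hm i hi) (neg_lt_neg_iff.mp h3)
      change -(σ i.t) < -(σ j.t)
      linarith
    · right
      have h3 : -i.t = -j.t := h1
      have h3' : i.t = j.t := neg_inj.mp h3
      have h4 : P.l i.e i.t < P.l j.e j.t := h2
      change -(σ i.t) = -(σ j.t) ∧ P.l i.e (σ i.t) < P.l j.e (σ j.t)
      rw [← h3'] at h4 ⊢
      exact ⟨rfl, (h.nr _ (hm i hi)).ln _ _ h4⟩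

end Move

/-- Every line of a good set has a neighbour. -/
theorem av {P : Pg N} {X : Finset ℝ} (hg : GoodX P X) : ∀ t ∈ X, ∀ i, P.x i ≠ t := by
  intro t ht i
  obtain ⟨a, ha, h1⟩ := hg.lo
  obtain ⟨b, hb, h2⟩ := hg.hi
  rcases lt_or_ge t b with h | h
  · -- the next line
    have hne : (X.filter (fun s => t < s)).Nonempty := ⟨b, Finset.mem_filter.mpr ⟨hb, h⟩⟩
    set c := (X.filter (fun s => t < s)).min' hne with hc
    have hcm := Finset.min'_mem _ hne
    rw [← hc, Finset.mem_filter] at hcm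
    have hadj : AdjX X t c := by
      refine ⟨ht, hcm.1, hcm.2, fun s hs hs' => ?_⟩
      have := Finset.min'_le (X.filter (fun s => t < s)) s (Finset.mem_filter.mpr ⟨hs, hs'.1⟩)
      rw [← hc] at this
      exact absurd hs'.2 (not_lt.mpr this)
    exact ((hg.gd t c hadj).av i).1
  · have := h2 i
    exact (this.trans_le h).ne

end PEA

/-- Moving the lines a little. -/
theorem t_PEA : Stmt_PEA := by
  intro hB hC hS hW hA hG N P X w hN hg hw
  obtain ⟨ε, hε, h1, h2⟩ := PEA.ex_eps hB hN P X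
  refine ⟨ε, hε, fun σ hσ => ?_⟩
  have hmono : ∀ s ∈ X, ∀ t ∈ X, s < t → σ s < σ t := by
    intro s hs t ht hst
    have e1 := abs_lt.mp (hσ s hs)
    have e2 := abs_lt.mp (hσ t ht)
    have e3 := h2 s hs t ht hst
    linarith [e1.2, e2.1]
  have hM : PEA.Mv P X σ := ⟨fun t ht => h1 t ht (σ t) (hσ t ht), hmono, PEA.av hg⟩
  exact ⟨hmono, hM.goodX hg, hM.gw hw, hM.we hW hA hw.1 (hG P X w hg hw)⟩

end LH


end

section

/-!
# A component over a point is monotone or has small derivative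
-/

namespace LHS

open Set LH LC Filter
open scoped ContDiff Topology

namespace ZON

lemma crit_max {f : ℝ → ℝ} (hf : Continuous f) {a b c : ℝ} (hab : a < b) (hbc : b < c)
    (h1 : f a < f b) (h2 : f c < f b) : ∃ w ∈ Icc a c, deriv f w = 0 := by
  obtain ⟨w, hw, hm⟩ :=
    isCompact_Icc.exists_isMaxOn (nonempty_Icc.2 (hab.trans hbc).le) hf.continuousOn
  have hb : f b ≤ f w := hm ⟨hab.le, hbc.le⟩
  have ha : a < w := by
    rcases hw.1.lt_or_eq with h | h
    · exact h
    · subst h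
      exact absurd hb (not_le.2 h1)
  have hc : w < c := by
    rcases hw.2.lt_or_eq with h | h
    · exact h
    · subst h
      exact absurd hb (not_le.2 h2)
  exact ⟨w, hw, (hm.isLocalMax (Icc_mem_nhds ha hc)).deriv_eq_zero⟩

lemma crit_min {f : ℝ → ℝ} (hf : Continuous f) {a b c : ℝ} (hab : a < b) (hbc : b < c)
    (h1 : f b < f a) (h2 : f b < f c) : ∃ w ∈ Icc a c, deriv f w = 0 := by
  obtain ⟨w, hw, hm⟩ :=
    isCompact_Icc.exists_isMinOn (nonempty_Icc.2 (hab.trans hbc).le) hf.continuousOn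
  have hb : f w ≤ f b := hm ⟨hab.le, hbc.le⟩
  have ha : a < w := by
    rcases hw.1.lt_or_eq with h | h
    · exact h
    · subst h
      exact absurd hb (not_le.2 h1)
  have hc : w < c := by
    rcases hw.2.lt_or_eq with h | h
    · exact h
    · subst h
      exact absurd hb (not_le.2 h2)
  exact ⟨w, hw, (hm.isLocalMin (Icc_mem_nhds ha hc)).deriv_eq_zero⟩

lemma mono2 {f : ℤ → ℝ} {p : ℤ} (h : f p < f (p + 1)) : StrictMonoOn f (Icc p (p + 1)) := by
  intro i hi j hj hij
  have hi1 : i = p := by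
    have := hi.1; have := hj.2; omega
  have hj1 : j = p + 1 := by
    have := hi.1; have := hj.2; omega
  subst hi1
  subst hj1
  exact h

lemma mono3 {f : ℤ → ℝ} {p : ℤ} (h : f p < f (p + 1)) (h' : f (p + 1) < f (p + 2)) :
    StrictMonoOn f (Icc p (p + 2)) := by
  intro i hi j hj hij
  have h1 := hi.1
  have h2 := hj.2
  have hi1 : i = p ∨ i = p + 1 := by omega
  rcases hi1 with rfl | rfl
  · have hj1 : j = i + 1 ∨ j = i + 2 := by omega
    rcases hj1 with rfl | rfl
    · exact h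
    · exact h.trans h'
  · have hj1 : j = p + 2 := by omega
    subst hj1
    exact h'

lemma anti2 {f : ℤ → ℝ} {p : ℤ} (h : f (p + 1) < f p) : StrictAntiOn f (Icc p (p + 1)) := by
  have h0 : StrictMonoOn (fun i => - f i) (Icc p (p + 1)) := mono2 (by linarith)
  intro i hi j hj hij
  have := h0 hi hj hij
  simp only at this
  linarith

lemma anti3 {f : ℤ → ℝ} {p : ℤ} (h : f (p + 1) < f p) (h' : f (p + 2) < f (p + 1)) :
    StrictAntiOn f (Icc p (p + 2)) := by
  have h0 : StrictMonoOn (fun i => - f i) (Icc p (p + 2)) :=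
    mono3 (by linarith) (by linarith)
  intro i hi j hj hij
  have := h0 hi hj hij
  simp only at this
  linarith

lemma small {g : ℝ → ℝ} {M : ℝ} {N : ℕ} (hM : 0 ≤ M)
    (hl : ∀ u v, |g u - g v| ≤ M * |u - v|) {u w : ℝ} (hw : g w = 0)
    (hd : |u - w| ≤ 2 / N) : |g u| ≤ 2 * M / N := by
  have h1 := hl u w
  rw [hw, sub_zero] at h1
  calc |g u| ≤ M * |u - w| := h1
    _ ≤ M * (2 / N) := by gcongr
    _ = 2 * M / N := by ring

/-- The parameter `u` is near some interval `[k/N, (k+1)/N]`. -/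
lemma near {N : ℕ} (hN : 1 ≤ N) {p q : ℤ} (hpq : p + 2 ≤ q) {u : ℝ}
    (hu : u ∈ Icc ((p : ℝ) / N) (((q : ℝ) + 1) / N)) :
    ∃ k : ℤ, p + 1 ≤ k ∧ k + 1 ≤ q ∧
      ∀ w ∈ Icc ((k : ℝ) / N) (((k : ℝ) + 1) / N), |u - w| ≤ 2 / N := by
  have hN0 : (0 : ℝ) < N := by exact_mod_cast (by omega : 0 < N)
  obtain ⟨h1, h2⟩ := hu
  rw [div_le_iff₀ hN0] at h1
  rw [le_div_iff₀ hN0] at h2
  have key : ∀ k : ℤ, (k : ℝ) - 1 ≤ u * N → u * N ≤ k + 2 →
      ∀ w ∈ Icc ((k : ℝ) / N) (((k : ℝ) + 1) / N), |u - w| ≤ 2 / N := by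
    intro k hk1 hk2 w hw
    obtain ⟨h3, h4⟩ := hw
    rw [div_le_iff₀ hN0] at h3
    rw [le_div_iff₀ hN0] at h4
    rw [le_div_iff₀ hN0]
    have h5 : |u - w| * N = |u * N - w * N| := by
      rw [← sub_mul, abs_mul, abs_of_pos hN0]
    rw [h5, abs_le]
    constructor <;> linarith
  by_cases ha : u * N < p + 1
  · refine ⟨p + 1, le_refl _, by omega, key _ ?_ ?_⟩ <;> push_cast <;> linarith
  · by_cases hb : (q : ℝ) - 1 ≤ u * N
    · refine ⟨q - 1, by omega, by omega, key _ ?_ ?_⟩ <;> push_cast <;> linarith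
    · push Not at ha hb
      have hf1 := Int.floor_le (u * N)
      have hf2 := Int.lt_floor_add_one (u * N)
      refine ⟨⌊u * N⌋, Int.le_floor.2 (by push_cast; linarith), ?_, key _ ?_ ?_⟩
      · have : (⌊u * N⌋ : ℝ) < ((q - 1 : ℤ) : ℝ) := by push_cast; linarith
        have := Int.cast_lt.1 this
        omega
      · linarith
      · linarith

end ZON

open _root_.LHS.ZON in
theorem t_ZON : Stmt_ZON := by
  intro hBAS Λ M η c hB N hN P hP e p q hC
  have hN0 : (0 : ℝ) < N := by exact_mod_cast (by omega : 0 < N)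
  have hM : 0 ≤ M := by
    have := (abs_nonneg _).trans (hB.xd 0 1)
    norm_num at this
    exact this
  have hcont : Continuous Λ.x := (hBAS Λ).1.continuous
  have hx : ∀ i : ℤ, P.x i = Λ.x ((i : ℝ) / N) := fun i => by rw [hP.1]; rfl
  have hpq := hC.le
  rcases (by omega : q = p ∨ q = p + 1 ∨ p + 2 ≤ q) with h | h | h
  · subst h
    left
    rcases hC.one rfl with h1 | h1
    · exact Or.inl (mono2 (h1.1.trans h1.2))
    · exact Or.inr (anti2 (h1.1.trans h1.2))
  · subst h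
    have e1 : P.x (p + 1) = e := hC.ins (p + 1) (by omega) le_rfl
    have e0 := hC.fst
    have e2 := hC.lst
    have e12 : p + 1 + 1 = p + 2 := by ring
    rw [e12] at e2 ⊢
    have hlt1 : (p : ℝ) / N < ((p + 1 : ℤ) : ℝ) / N := by
      push_cast
      gcongr
      linarith
    have hlt2 : ((p + 1 : ℤ) : ℝ) / N < ((p + 2 : ℤ) : ℝ) / N := by
      push_cast
      gcongr
      linarith
    have hend : (((p + 1 : ℤ) : ℝ) + 1) / N = ((p + 2 : ℤ) : ℝ) / N := by
      push_cast
      ring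
    have fin : (∃ w ∈ Icc ((p : ℝ) / N) (((p + 2 : ℤ) : ℝ) / N), deriv Λ.x w = 0) →
        ∀ u ∈ Icc ((p : ℝ) / N) ((((p + 1 : ℤ) : ℝ) + 1) / N), |deriv Λ.x u| ≤ 2 * M / N := by
      rintro ⟨w, hw, hw0⟩ u hu
      rw [hend] at hu
      refine small hM hB.xd hw0 ?_
      have e3 : ((p + 2 : ℤ) : ℝ) / N = (p : ℝ) / N + 2 / N := by
        push_cast
        ring
      rw [e3] at hw hu
      rw [abs_le]
      constructor <;> linarith [hw.1, hw.2, hu.1, hu.2]
    rcases lt_or_gt_of_ne e0 with g0 | g0 <;> rcases lt_or_gt_of_ne e2 with g2 | g2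
    · right
      apply fin
      apply crit_max hcont hlt1 hlt2
      · rw [← hx, ← hx, e1]
        exact g0
      · rw [← hx, ← hx, e1]
        exact g2
    · left
      left
      exact mono3 (by rw [e1]; exact g0) (by rw [e1]; exact g2)
    · left
      right
      exact anti3 (by rw [e1]; exact g0) (by rw [e1]; exact g2)
    · right
      apply fin
      apply crit_min hcont hlt1 hlt2
      · rw [← hx, ← hx, e1]
        exact g0
      · rw [← hx, ← hx, e1]
        exact g2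
  · right
    intro u hu
    obtain ⟨k, hk1, hk2, hk⟩ := near hN h hu
    have hlt : (k : ℝ) / N < ((k : ℝ) + 1) / N := by
      gcongr
      linarith
    have h1 : Λ.x ((k : ℝ) / N) = e := by
      rw [← hx]
      exact hC.ins k (by omega) (by omega)
    have h2 : Λ.x (((k : ℝ) + 1) / N) = e := by
      have := hC.ins (k + 1) (by omega) (by omega)
      rw [hx] at this
      push_cast at this
      exact this
    obtain ⟨w, hw, hw0⟩ := exists_deriv_eq_zero hlt hcont.continuousOn (h1.trans h2.symm)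
    exact small hM hB.xd hw0 (hk w ⟨hw.1.le, hw.2.le⟩)

end LHS


end

section

/-!
# GWA: the arcs give a walk
-/

namespace LHE

open Set LG LH

namespace GWA

variable {N : ℕ}

/-- The passing item of the arc `k`. -/
def pI (s : ℤ → ℝ) (g : ℤ → Bool) (e : ℤ → ℤ) (k : ℤ) : It := ⟨pass (g k), s k, e k⟩

/-- The relation of consecutive items. -/
def Rl (P : Pg N) (X : Finset ℝ) (i j : It) : Prop := Lnk P X i j ∧ ¬ (Tn i ∧ Tn j)

theorem zip_chain {Q : It → It → Prop} : ∀ (w : List It) (a b : It),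
    List.IsChain Q (a :: (w ++ [b])) → ∀ x ∈ (a :: w).zip (w ++ [b]), Q x.1 x.2
  | [], a, b, h, x, hx => by
    simp only [List.nil_append, List.zip_cons_cons, List.zip_nil_left, List.mem_singleton] at hx
    subst hx
    simpa using h
  | c :: w, a, b, h, x, hx => by
    rw [List.cons_append, List.isChain_cons_cons] at h
    rw [List.cons_append, List.zip_cons_cons, List.mem_cons] at hx
    rcases hx with rfl | hx
    · exact h.1
    · exact zip_chain w c b h.2 x hx

theorem not_tn_pass (s : Bool) (t : ℝ) (e : ℤ) : ¬ Tn ⟨pass s, t, e⟩ := by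
  rintro (h | h) <;> cases s <;> simp [pass] at h

theorem link {P : Pg N} {K : ℕ} {e : ℤ → ℤ} {s a b : ℤ → ℝ} {g : ℤ → Bool} {X : Finset ℝ}
    (h : ArcP P K e s a b g X) (k : ℤ) :
    List.IsChain (Rl P X) (aIt s (oL a b g) g e k ++ [pI s g e (k + 1)]) := by
  have hab : a k < b k := (h.d.adj k).2.2.1
  have hadj := h.d.adj k
  have hst := h.d.st k
  have hen := h.d.en k
  have hm := h.mono k
  have hins := h.ins k
  unfold aIt
  by_cases hg : g k = g (k + 1)
  · rw [if_pos hg, List.singleton_append, List.isChain_cons_cons]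
    refine ⟨⟨?_, fun hh => not_tn_pass _ _ _ hh.1⟩, List.isChain_singleton _⟩
    unfold pI
    rw [← hg] at hen ⊢
    cases hgk : g k
    · rw [hgk] at hst hen
      simp only [Bool.false_eq_true, if_false] at hst hen
      refine ⟨hm.le, ?_, ?_, ?_, ?_⟩
      · rintro (h1 | h1) <;> simp [pass] at h1
      · right
        simp only
        rw [hst, hen]
        exact hadj
      · intro m h1 h2
        right
        simp only
        rw [hst, hen]
        exact hins m h1 h2
      · right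
        refine ⟨by simp [pass, Kd.fw], by simp [pass, Kd.ar], ?_⟩
        simp only
        rw [hst, hen]
        exact hab
    · rw [hgk] at hst hen
      simp only [if_true] at hst hen
      refine ⟨hm.le, ?_, ?_, ?_, ?_⟩
      · rintro (h1 | h1) <;> simp [pass] at h1
      · left
        simp only
        rw [hst, hen]
        exact hadj
      · intro m h1 h2
        left
        simp only
        rw [hst, hen]
        exact hins m h1 h2
      · left
        refine ⟨by simp [pass, Kd.fw], by simp [pass, Kd.ar], ?_⟩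
        simp only
        rw [hst, hen]
        exact hab
  · rw [if_neg hg, List.cons_append, List.singleton_append, List.isChain_cons_cons,
      List.isChain_cons_cons]
    unfold pI oL
    cases hgk : g k
    · have hgk' : g (k + 1) = true := by
        cases hh : g (k + 1)
        · exact absurd (hgk.trans hh.symm) hg
        · rfl
      rw [hgk] at hst
      rw [hgk'] at hen ⊢
      simp only [Bool.false_eq_true, if_false, if_true] at hst hen ⊢
      refine ⟨⟨⟨le_rfl, ?_, ?_, ?_, ?_⟩, fun hh => not_tn_pass _ _ _ hh.1⟩,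
        ⟨⟨hm.le, ?_, ?_, ?_, ?_⟩, fun hh => not_tn_pass _ _ _ hh.2⟩, List.isChain_singleton _⟩
      · rintro (h1 | h1) <;> simp [pass] at h1
      · right
        simp only
        rw [hst]
        exact hadj
      · intro m h1 h2
        simp only at h1 h2
        omega
      · right
        refine ⟨by simp [pass, Kd.fw], by simp [turn, Kd.ar], ?_⟩
        simp only
        rw [hst]
        exact hab
      · intro _
        exact hm
      · left
        simp only
        rw [hen]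
        exact hadj
      · intro m h1 h2
        left
        simp only
        rw [hen]
        exact hins m h1 h2
      · left
        refine ⟨by simp [turn, Kd.fw], by simp [pass, Kd.ar], ?_⟩
        simp only
        rw [hen]
        exact hab
    · have hgk' : g (k + 1) = false := by
        cases hh : g (k + 1)
        · rfl
        · exact absurd (hgk.trans hh.symm) hg
      rw [hgk] at hst
      rw [hgk'] at hen ⊢
      simp only [Bool.false_eq_true, if_false, if_true] at hst hen ⊢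
      refine ⟨⟨⟨le_rfl, ?_, ?_, ?_, ?_⟩, fun hh => not_tn_pass _ _ _ hh.1⟩,
        ⟨⟨hm.le, ?_, ?_, ?_, ?_⟩, fun hh => not_tn_pass _ _ _ hh.2⟩, List.isChain_singleton _⟩
      · rintro (h1 | h1) <;> simp [pass] at h1
      · left
        simp only
        rw [hst]
        exact hadj
      · intro m h1 h2
        simp only at h1 h2
        omega
      · left
        refine ⟨by simp [pass, Kd.fw], by simp [turn, Kd.ar], ?_⟩
        simp only
        rw [hst]
        exact hab
      · intro _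
        exact hm
      · right
        simp only
        rw [hen]
        exact hadj
      · intro m h1 h2
        right
        simp only
        rw [hen]
        exact hins m h1 h2
      · right
        refine ⟨by simp [turn, Kd.fw], by simp [pass, Kd.ar], ?_⟩
        simp only
        rw [hen]
        exact hab

theorem head (s o : ℤ → ℝ) (g : ℤ → Bool) (e : ℤ → ℤ) (k : ℤ) :
    ∃ r, aIt s o g e k = pI s g e k :: r := by
  unfold aIt pI
  split_ifs
  · exact ⟨_, rfl⟩
  · exact ⟨_, rfl⟩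

theorem eq (n : ℕ) (s o : ℤ → ℝ) (g : ℤ → Bool) (e : ℤ → ℤ) :
    aIts n s o g e = (List.range n).flatMap fun k : ℕ => aIt s o g e (k : ℤ) := by
  change List.flatMap (fun k : ℤ => aIt s o g e k)
    (List.flatMap (fun a : ℕ => [(a : ℤ)]) (List.range n)) = _
  rw [List.flatMap_assoc]
  simp

theorem succ (n : ℕ) (s o : ℤ → ℝ) (g : ℤ → Bool) (e : ℤ → ℤ) :
    aIts (n + 1) s o g e = aIts n s o g e ++ aIt s o g e n := by
  rw [eq, eq, List.range_succ, List.flatMap_append]
  simp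

theorem chain {P : Pg N} {K : ℕ} {e : ℤ → ℤ} {s a b : ℤ → ℝ} {g : ℤ → Bool} {X : Finset ℝ}
    (h : ArcP P K e s a b g X) (n : ℕ) :
    List.IsChain (Rl P X) (aIts n s (oL a b g) g e ++ [pI s g e n]) := by
  induction n with
  | zero =>
    unfold aIts
    simp
  | succ n ih =>
    obtain ⟨r, hr⟩ := head s (oL a b g) g e n
    have h1 := link h n
    rw [succ, List.append_assoc]
    push_cast
    rw [hr] at h1 ⊢
    rw [List.cons_append] at h1 ⊢
    exact List.isChain_split.2 ⟨ih, h1⟩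

theorem ok {P : Pg N} {K : ℕ} {e : ℤ → ℤ} {s a b : ℤ → ℝ} {g : ℤ → Bool} {X : Finset ℝ}
    (h : ArcP P K e s a b g X) (n : ℕ) :
    ∀ j ∈ aIts n s (oL a b g) g e, ItOK P j := by
  intro j hj
  rw [eq, List.mem_flatMap] at hj
  obtain ⟨k, -, hk⟩ := hj
  have hc := h.crs k
  unfold Crs at hc
  have h1 : ItOK P ⟨pass (g k), s k, e k⟩ := by
    cases hg : g (k : ℤ)
    · rw [hg] at hc
      simp only [sn_false, neg_one_mul, neg_lt_neg_iff] at hc
      exact ⟨fun h2 => by simp [pass] at h2, fun _ => ⟨hc.2, hc.1⟩⟩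
    · rw [hg] at hc
      simp only [sn_true, one_mul] at hc
      exact ⟨fun _ => hc, fun h2 => by simp [pass] at h2⟩
  unfold aIt at hk
  split_ifs at hk
  · rw [List.mem_singleton] at hk
    rw [hk]
    exact h1
  · rw [List.mem_cons, List.mem_singleton] at hk
    rcases hk with hk | hk
    · rw [hk]
      exact h1
    · rw [hk]
      cases hg : g (k : ℤ)
      · exact ⟨fun h2 => by simp [turn] at h2, fun h2 => by simp [turn] at h2⟩
      · exact ⟨fun h2 => by simp [turn] at h2, fun h2 => by simp [turn] at h2⟩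

end GWA

theorem t_GWA : Stmt_GWA := by
  intro N P K e s a b g X h
  have hK := h.d.Kpos
  -- the first element
  obtain ⟨r, hr⟩ : ∃ r, aIts K s (oL a b g) g e = GWA.pI s g e 0 :: r := by
    obtain ⟨n, rfl⟩ : ∃ n, K = n + 1 := ⟨K - 1, by omega⟩
    clear h hK
    induction n with
    | zero =>
      obtain ⟨r, hr⟩ := GWA.head s (oL a b g) g e 0
      refine ⟨r, ?_⟩
      rw [GWA.succ]
      unfold aIts
      simpa using hr
    | succ n ih =>
      obtain ⟨r, hr⟩ := ih
      rw [GWA.succ, hr]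
      exact ⟨_, rfl⟩
  have hsh : GWA.pI s g e K = (GWA.pI s g e 0).sh N := by
    have h1 := h.d.ps 0
    have h2 := h.d.pg 0
    have h3 := h.pe 0
    rw [zero_add] at h1 h2 h3
    unfold GWA.pI It.sh
    rw [h1, h2, h3]
  have hch := GWA.chain h K
  rw [hsh] at hch
  refine ⟨⟨GWA.pI s g e 0, r, hr, GWA.ok h K, hch.imp fun _ _ h1 => h1.1⟩, ?_⟩
  rw [hr] at hch ⊢
  have hQ : List.IsChain (fun i j => ¬ (Tn i ∧ Tn j)) (GWA.pI s g e 0 :: (r ++ [GWA.pI s g e 0])) := by
    have h1 : List.IsChain (fun i j => ¬ (Tn i ∧ Tn j))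
        (GWA.pI s g e 0 :: (r ++ [(GWA.pI s g e 0).sh N])) := by
      have := hch.imp (S := fun i j => ¬ (Tn i ∧ Tn j)) fun _ _ h1 => h1.2
      exact this
    have h2 : ∀ (l : List It) (i j : It), i.k = j.k →
        List.IsChain (fun i j => ¬ (Tn i ∧ Tn j)) (l ++ [i]) →
        List.IsChain (fun i j => ¬ (Tn i ∧ Tn j)) (l ++ [j]) := by
      intro l i j hij hl
      rw [List.isChain_append] at hl ⊢
      refine ⟨hl.1, List.isChain_singleton _, ?_⟩
      intro x hx y hy
      have h4 := hl.2.2 x hx i (by simp)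
      simp only [List.head?_cons, Option.mem_def, Option.some.injEq] at hy
      subst hy
      unfold Tn at h4 ⊢
      rw [← hij]
      exact h4
    have h3 := h2 (GWA.pI s g e 0 :: r) ((GWA.pI s g e 0).sh N) (GWA.pI s g e 0) rfl
      (by simpa using h1)
    simpa using h3
  intro x hx
  unfold cp at hx
  rw [List.rotate_cons_succ, List.rotate_zero] at hx
  exact GWA.zip_chain r _ _ hQ x hx

end LHE


end

section

/-!
# LHD: the heights in the middle of the edges are different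
-/

namespace LHE

open Set LG LH

namespace LHD

variable {L : ℕ} {m z : ℤ → ℤ}

theorem par (h : LatD L m z) (i : ℤ) : (m i + z i - (m 0 + z 0)) % 2 = 0 := by
  induction i using Int.induction_on with
  | zero => simp
  | succ n ih =>
    have h1 := h.dm n
    have h2 := h.dz n
    omega
  | pred n ih =>
    have h1 := h.dm (-(n : ℤ) - 1)
    have h2 := h.dz (-(n : ℤ) - 1)
    have e : -(n : ℤ) - 1 + 1 = -(n : ℤ) := by ring
    rw [e] at h1 h2
    omega

theorem par2 (h : LatD L m z) (i j : ℤ) (e : m i = m j) : (z i - z j) % 2 = 0 := by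
  have h1 := par h i
  have h2 := par h j
  omega

theorem back_m (h : LatD L m z) (i : ℤ) : m i = m (i - 1) + 1 ∨ m i = m (i - 1) - 1 := by
  have h1 := h.dm (i - 1)
  rwa [show i - 1 + 1 = i by ring] at h1

theorem back_z (h : LatD L m z) (i : ℤ) : z i = z (i - 1) + 1 ∨ z i = z (i - 1) - 1 := by
  have h1 := h.dz (i - 1)
  rwa [show i - 1 + 1 = i by ring] at h1

theorem sg_back (i : ℤ) : sg m (i - 1) = m i - m (i - 1) := by
  unfold sg
  rw [show i - 1 + 1 = i by ring]

theorem sl_back (i : ℤ) : sl m z (i - 1) = (z i - z (i - 1)) * (m i - m (i - 1)) := by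
  unfold sl
  rw [show i - 1 + 1 = i by ring]

theorem hcd_eq (h : LatD L m z) (i : ℤ) : hcd m z (3 * i) = z i + z (i - 1) := by
  have e1 : (3 * i) % 3 = 0 := by omega
  have e2 : (3 * i) / 3 = i := by omega
  unfold hcd
  rw [if_pos e1, e2, sg_back, sl_back]
  rcases back_m h i with h1 | h1 <;> rw [h1] <;> ring

theorem cs_eq (i : ℤ) : cs m (3 * i) = if m i - m (i - 1) = 1 then 3 * m i - 1 else 3 * m i + 2 := by
  have e1 : (3 * i) % 3 = 0 := by omega
  have e2 : (3 * i) / 3 = i := by omega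
  unfold cs
  rw [if_pos e1, e2, sg_back]

theorem per (f : ℤ → ℤ) (hf : ∀ i, f (i + L) = f i) (i a : ℤ) : f (i + a * L) = f i := by
  induction a using Int.induction_on with
  | zero => simp
  | succ n ih =>
    rw [← ih, ← hf (i + n * L)]
    congr 1
    ring
  | pred n ih =>
    rw [← ih, ← hf (i + (-(n : ℤ) - 1) * L)]
    congr 1
    ring

/-- The four cases. -/
theorem dirs (h : LatD L m z) (i j : ℤ) (e : cs m (3 * i) = cs m (3 * j)) :
    (m i = m j ∧ m (i - 1) = m (j - 1)) ∨ (m i = m (j - 1) ∧ m (i - 1) = m j) := by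
  rw [cs_eq, cs_eq] at e
  have h1 := back_m h i
  have h2 := back_m h j
  split_ifs at e <;> omega

theorem ne (h : LatD L m z) (i j : ℤ) (hc : ¬ Cg L i j) (e : cs m (3 * i) = cs m (3 * j)) :
    hcd m z (3 * i) ≠ hcd m z (3 * j) := by
  intro hh
  rw [hcd_eq h, hcd_eq h] at hh
  have z1 := back_z h i
  have z2 := back_z h j
  rcases dirs h i j e with ⟨e1, e2⟩ | ⟨e1, e2⟩
  · have p1 := par2 h i j e1
    have p2 := par2 h _ _ e2
    have d1 : z i = z j := by omega
    have d2 : z (i - 1) = z (j - 1) := by omega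
    obtain ⟨_, k2, _, k4, k5⟩ := h.dis i j hc e1 d1
    apply k5
    rw [← k2, ← k4, sl_back, sl_back, e1, e2, d1, d2]
  · have p1 := par2 h _ _ e1
    have p2 := par2 h _ _ e2
    have d1 : z i = z (j - 1) := by omega
    have d2 : z (i - 1) = z j := by omega
    by_cases hc' : Cg L i (j - 1)
    · obtain ⟨a, ha⟩ := hc'
      have ej : j = (i + 1) + a * L := by linarith
      have mj : m j = m (i + 1) := by rw [ej]; exact per m h.pm _ _
      have zj : z j = z (i + 1) := by rw [ej]; exact per z h.pz _ _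
      have hm := back_m h i
      refine h.nb i ?_ ?_
      · rw [sg_back]
        unfold sg
        omega
      · rw [sl_back]
        unfold sl
        rw [← mj, ← zj, ← e2, ← d2]
        ring
    · obtain ⟨_, k2, _, k4, k5⟩ := h.dis i (j - 1) hc' e1 d1
      apply k5
      rw [← k2, sl_back, sl_back, e2, d2, e1, d1]
      ring

end LHD

/-- LHD: the heights in the middle of the edges are different. -/
theorem t_LHD : Stmt_LHD := by
  intro L m z h
  refine ⟨fun i j e => LHD.par2 h i j e, fun i j hc e => ⟨LHD.ne h i j hc e, ?_⟩⟩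
  rw [LHD.hcd_eq h, LHD.hcd_eq h]
  rcases LHD.dirs h i j e with ⟨e1, e2⟩ | ⟨e1, e2⟩
  · have p1 := LHD.par2 h i j e1
    have p2 := LHD.par2 h _ _ e2
    omega
  · have p1 := LHD.par2 h _ _ e1
    have p2 := LHD.par2 h _ _ e2
    omega

end LHE


end

section

/-!
# HOR: the order of the heights is the order of the codes
-/

namespace LHE

open Set LG LH

namespace HOR

theorem per_int {α : Type*} (f : ℤ → α) (L : ℕ) (h : ∀ i, f (i + L) = f i) (c : ℤ) :
    ∀ i, f (i + c * L) = f i := by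
  induction c using Int.induction_on with
  | zero => intro i; simp
  | succ n ih =>
    intro i
    have e : i + ((n : ℤ) + 1) * L = (i + n * L) + L := by ring
    rw [e, h, ih]
  | pred n ih =>
    intro i
    have e : i + (-(n : ℤ)) * L = (i + (-(n : ℤ) - 1) * L) + L := by ring
    rw [← h, ← e, ih]

theorem ln0 (X₀ w ε : ℝ) (n : ℤ) : ln X₀ w ε (3 * n) = X₀ * n - 7 / 8 * w + ε := by
  unfold ln
  have h1 : 3 * n / 3 = n := by omega
  have h2 : 3 * n % 3 = 0 := by omega
  rw [h1, h2]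
  simp
  ring

theorem ln1 (X₀ w ε : ℝ) (n : ℤ) : ln X₀ w ε (3 * n + 1) = X₀ * n + 7 / 8 * w + ε := by
  unfold ln
  have h1 : (3 * n + 1) / 3 = n := by omega
  have h2 : (3 * n + 1) % 3 = 1 := by omega
  rw [h1, h2]
  simp

theorem ln2 (X₀ w ε : ℝ) (n : ℤ) : ln X₀ w ε (3 * n + 2) = X₀ * n + X₀ / 2 + ε := by
  unfold ln
  have h1 : (3 * n + 2) / 3 = n := by omega
  have h2 : (3 * n + 2) % 3 = 2 := by omega
  rw [h1, h2]
  simp

theorem lnm (X₀ w ε : ℝ) (n : ℤ) : ln X₀ w ε (3 * n - 1) = X₀ * n - X₀ / 2 + ε := by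
  have e : 3 * n - 1 = 3 * (n - 1) + 2 := by ring
  rw [e, ln2]
  push_cast
  ring

variable {L : ℕ} {m z : ℤ → ℤ}

theorem sg1 (D : LatD L m z) (i : ℤ) : sg m i = 1 ∨ sg m i = -1 := by
  have := D.dm i
  unfold sg
  omega

theorem sl1 (D : LatD L m z) (i : ℤ) : sl m z i = 1 ∨ sl m z i = -1 := by
  have a1 : z (i + 1) - z i = 1 ∨ z (i + 1) - z i = -1 := by have := D.dz i; omega
  have a2 : m (i + 1) - m i = 1 ∨ m (i + 1) - m i = -1 := by have := D.dm i; omega
  unfold sl
  rcases a1 with a1 | a1 <;> rcases a2 with a2 | a2 <;> rw [a1, a2] <;> norm_num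

theorem cs0 (i : ℤ) : cs m (3 * i) = if sg m (i - 1) = 1 then 3 * m i - 1 else 3 * m i + 2 := by
  unfold cs
  have h1 : 3 * i / 3 = i := by omega
  have h2 : 3 * i % 3 = 0 := by omega
  rw [h1, h2]
  simp

theorem cs1 (i : ℤ) : cs m (3 * i + 1) = if sg m (i - 1) = 1 then 3 * m i else 3 * m i + 1 := by
  unfold cs
  have h1 : (3 * i + 1) / 3 = i := by omega
  have h2 : (3 * i + 1) % 3 = 1 := by omega
  rw [h1, h2]
  simp

theorem cs2 (i : ℤ) : cs m (3 * i + 2) = if sg m i = 1 then 3 * m i + 1 else 3 * m i := by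
  unfold cs
  have h1 : (3 * i + 2) / 3 = i := by omega
  have h2 : (3 * i + 2) % 3 = 2 := by omega
  rw [h1, h2]
  simp

theorem hc0 (i : ℤ) : hcd m z (3 * i) = 2 * z i - sg m (i - 1) * sl m z (i - 1) := by
  unfold hcd
  have h1 : 3 * i / 3 = i := by omega
  have h2 : 3 * i % 3 = 0 := by omega
  rw [h1, h2]
  simp

theorem hc1 (i : ℤ) : hcd m z (3 * i + 1) = 4 * z i - sg m (i - 1) * sl m z (i - 1) := by
  unfold hcd
  have h1 : (3 * i + 1) / 3 = i := by omega
  have h2 : (3 * i + 1) % 3 = 1 := by omega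
  rw [h1, h2]
  simp

theorem hc2 (i : ℤ) : hcd m z (3 * i + 2) = 4 * z i + sg m i * sl m z i := by
  unfold hcd
  have h1 : (3 * i + 2) / 3 = i := by omega
  have h2 : (3 * i + 2) % 3 = 2 := by omega
  rw [h1, h2]
  simp

theorem gd0 (i : ℤ) : gd m (3 * i) = decide (sg m (i - 1) = 1) := by
  unfold gd
  have h1 : 3 * i / 3 = i := by omega
  have h2 : ¬ 3 * i % 3 = 2 := by omega
  rw [if_neg h2, h1]

theorem gd1 (i : ℤ) : gd m (3 * i + 1) = decide (sg m (i - 1) = 1) := by
  unfold gd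
  have h1 : (3 * i + 1) / 3 = i := by omega
  have h2 : ¬ (3 * i + 1) % 3 = 2 := by omega
  rw [if_neg h2, h1]

theorem gd2 (i : ℤ) : gd m (3 * i + 2) = decide (sg m i = 1) := by
  unfold gd
  have h1 : (3 * i + 2) / 3 = i := by omega
  have h2 : (3 * i + 2) % 3 = 2 := by omega
  rw [if_pos h2, h1]

theorem gd3 (i : ℤ) : gd m (3 * i + 2 + 1) = decide (sg m i = 1) := by
  have e : 3 * i + 2 + 1 = 3 * (i + 1) := by ring
  rw [e, gd0]
  simp

theorem ca1 (i : ℤ) : ca m (3 * i + 1) = 3 * m i := by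
  unfold ca
  have h1 : (3 * i + 1) / 3 = i := by omega
  have h2 : (3 * i + 1) % 3 = 1 := by omega
  rw [h1, h2]
  simp

/-- The arc `k` starts on a line near `X₀ m i`. -/
structure Nr (m z : ℤ → ℤ) (k i τ q : ℤ) : Prop where
  t1 : τ = 1 ∨ τ = -1
  q1 : q = 1 ∨ q = -1
  c : cs m k = if τ = 1 then 3 * m i + 1 else 3 * m i
  h : hcd m z k = 4 * z i + τ * q
  p : (k = 3 * i + 1 ∧ τ = -sg m (i - 1) ∧ q = sl m z (i - 1)) ∨
    (k = 3 * i + 2 ∧ τ = sg m i ∧ q = sl m z i)

theorem nr1 (D : LatD L m z) (i : ℤ) : Nr m z (3 * i + 1) i (-sg m (i - 1)) (sl m z (i - 1)) where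
  t1 := by have := sg1 D (i - 1); omega
  q1 := sl1 D _
  c := by
    rw [cs1]
    rcases sg1 D (i - 1) with h | h <;> rw [h] <;> norm_num
  h := by rw [hc1]; ring
  p := Or.inl ⟨rfl, rfl, rfl⟩

theorem nr2 (D : LatD L m z) (i : ℤ) : Nr m z (3 * i + 2) i (sg m i) (sl m z i) where
  t1 := sg1 D i
  q1 := sl1 D _
  c := by rw [cs2]
  h := by rw [hc2]
  p := Or.inr ⟨rfl, rfl, rfl⟩

variable {Λ : LC.LegKnot} {X₀ P₀ w ε : ℝ} {ν θ : ℤ → ℝ}

theorem nr_x {k i τ q : ℤ} (H : Nr m z k i τ q) (T : Tht Λ X₀ w ε L m ν θ) :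
    Λ.x (θ k) = X₀ * m i + τ * (7 / 8 * w) + ε := by
  rw [T.hit k, sR, H.c]
  rcases H.t1 with h | h
  · rw [h, if_pos rfl, ln1]; push_cast; ring
  · rw [h, if_neg (by norm_num), ln0]; push_cast; ring

theorem nr_mem {k i τ q : ℤ} (H : Nr m z k i τ q) (T : Tht Λ X₀ w ε L m ν θ) :
    θ k ∈ Icc (ν (i - 1)) (ν (i + 1)) := by
  have h0 := T.h₀ i
  have h1 := T.h₁ i
  have h2 := T.h₂ i
  have h3 := T.h₃ i
  have h4 := T.h₄ i
  have h5 := T.h₁ (i + 1)
  have h6 := T.h₂ (i + 1)
  have e : 3 * (i + 1) = 3 * i + 3 := by ring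
  rw [e] at h5 h6
  rcases H.p with ⟨h, -⟩ | ⟨h, -⟩ <;> subst h <;> constructor <;> linarith

theorem zz_TL (Λ : LC.LegKnot) (u : ℝ) : zz Λ u = TL Λ u (Λ.x u) := by
  unfold TL
  ring

theorem gper (Λ : LC.LegKnot) (u : ℝ) (c : ℤ) : Λ.γ (u + c) = Λ.γ u := by
  have h : Function.Periodic Λ.γ 1 := Λ.periodic
  have := h.int_mul c u
  simpa using this

theorem zper (Λ : LC.LegKnot) (u : ℝ) (c : ℤ) : zz Λ (u + c) = zz Λ u := by
  unfold zz
  rw [gper]

theorem tper (T : Tht Λ X₀ w ε L m ν θ) (k c : ℤ) : θ (k + c * (3 * L : ℕ)) = θ k + c := by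
  have h := per_int (fun k : ℤ => θ k - k / (3 * L : ℕ)) (3 * L)
  by_cases hL : L = 0
  · have := T.pθ 0
    subst hL
    simp at this
  have hL' : ((3 * L : ℕ) : ℝ) ≠ 0 := by positivity
  have h2 := h (by
    intro i
    have := T.pθ i
    show θ (i + (3 * L : ℕ)) - ((i + (3 * L : ℕ) : ℤ) : ℝ) / (3 * L : ℕ) = θ i - (i : ℝ) / (3 * L : ℕ)
    rw [this]
    push_cast
    push_cast at hL'
    field_simp
    ring) c k
  have h3 : θ (k + c * (3 * L : ℕ)) - ((k + c * (3 * L : ℕ) : ℤ) : ℝ) / (3 * L : ℕ) =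
      θ k - (k : ℝ) / (3 * L : ℕ) := h2
  have h4 : ((k + c * (3 * L : ℕ) : ℤ) : ℝ) / (3 * L : ℕ) = (k : ℝ) / (3 * L : ℕ) + c := by
    push_cast
    push_cast at hL'
    field_simp
  rw [h4] at h3
  linarith

/-- The height of the start of an arc near `X₀ m i`. -/
theorem nr_b {k i τ q : ℤ} (H : Nr m z k i τ q) (S : LatS Λ X₀ P₀ w L m z ν)
    (T : Tht Λ X₀ w ε L m ν θ) (h0 : 0 < ε) (h1 : ε < w / 16) (t : ℝ)
    (ht : |t - X₀ * m i| ≤ 51 / 100 * X₀) : |TL Λ (θ k) t - X₀ * P₀ * z i| ≤ 5 / 8 * (X₀ * P₀) := by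
  apply S.zb i (θ k) (nr_mem H T) _ t ht
  have hx := nr_x H T
  have hw := S.wX
  have hX := S.X0
  have hw0 := S.w0
  rw [hx]
  rcases H.t1 with h | h <;> rw [h] <;> push_cast <;> rw [abs_le] <;> constructor <;> (first | linarith only [h0, h1, hw] | nlinarith)

theorem near {k i τ q : ℤ} (H : Nr m z k i τ q) (S : LatS Λ X₀ P₀ w L m z ν)
    (T : Tht Λ X₀ w ε L m ν θ) (h0 : 0 < ε) (h1 : ε < w / 16) :
    |Λ.x (θ k) - X₀ * m i| ≤ 51 / 100 * X₀ := by
  have hx := nr_x H T
  have hw := S.wX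
  have hX := S.X0
  have hw0 := S.w0
  rw [hx]
  rcases H.t1 with h | h <;> rw [h] <;> push_cast <;> rw [abs_le] <;> constructor <;> (first | linarith only [h0, h1, hw] | nlinarith)

/-- Comparison of numbers close to different integers. -/
theorem cmp {A a b : ℝ} {x y : ℤ} (hA : 0 < A) (ha : |a - A * x| ≤ 5 / 8 * A)
    (hb : |b - A * y| ≤ 5 / 8 * A) (hxy : (x - y) % 2 = 0) (hne : x ≠ y) :
    (a < b ↔ x < y) ∧ (b < a ↔ y < x) := by
  rw [abs_le] at ha hb
  rcases lt_or_gt_of_ne hne with h | h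
  · have h2 : x + 2 ≤ y := by omega
    have h3 : (x : ℝ) + 2 ≤ y := by exact_mod_cast h2
    have h4 : A * x + 2 * A ≤ A * y := by nlinarith only [hA, h3]
    have h5 : a < b := by linarith only [hA, ha, hb, h4]
    exact ⟨⟨fun _ => h, fun _ => h5⟩, ⟨fun h' => absurd h' (not_lt.mpr h5.le),
      fun h' => absurd h' (not_lt.mpr h.le)⟩⟩
  · have h2 : y + 2 ≤ x := by omega
    have h3 : (y : ℝ) + 2 ≤ x := by exact_mod_cast h2
    have h4 : A * y + 2 * A ≤ A * x := by nlinarith only [hA, h3]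
    have h5 : b < a := by linarith only [hA, ha, hb, h4]
    exact ⟨⟨fun h' => absurd h' (not_lt.mpr h5.le),
      fun h' => absurd h' (not_lt.mpr (le_of_lt h))⟩, ⟨fun _ => h, fun _ => h5⟩⟩

/-- The two sides of a tip. -/
theorem tip (D : LatD L m z) (S : LatS Λ X₀ P₀ w L m z ν) (T : Tht Λ X₀ w ε L m ν θ)
    (h0 : 0 < ε) (h1 : ε < w / 16) (TS : P_TSP) (i : ℤ) (hi : sg m (i - 1) ≠ sg m i) :
    0 < ((sg m i : ℝ) * sl m z i) * (zz Λ (θ (3 * i + 2)) - zz Λ (θ (3 * i + 1))) := by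
  have hw := S.wX
  have hX := S.X0
  have hw0 := S.w0
  have e3 : 3 * (i + 1) = 3 * i + 3 := by ring
  have x1 := nr_x (nr1 D i) T
  have x2 := nr_x (nr2 D i) T
  have hs : sg m (i - 1) = -sg m i := by
    have a1 := sg1 D i
    have a2 := sg1 D (i - 1)
    omega
  have x0 : Λ.x (θ (3 * i)) = X₀ * m i + sg m i * (X₀ / 2) + ε := by
    rw [T.hit, sR, cs0, hs]
    rcases sg1 D i with h | h
    · rw [h, if_neg (by norm_num), ln2]; push_cast; ring
    · rw [h, if_pos (by norm_num), lnm]; push_cast; ring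
  have x3 : Λ.x (θ (3 * i + 3)) = X₀ * m i + sg m i * (X₀ / 2) + ε := by
    rw [← e3, T.hit, sR, cs0]
    have : i + 1 - 1 = i := by ring
    rw [this]
    have hm : m (i + 1) = m i + sg m i := by unfold sg; ring
    rw [hm]
    rcases sg1 D i with h | h
    · rw [h, if_pos rfl, lnm]; push_cast; ring
    · rw [h, if_neg (by norm_num), ln2]; push_cast; ring
  have hh3 := T.h₁ (i + 1)
  have hh4 := T.h₂ (i + 1)
  rw [e3] at hh3 hh4
  rw [hs] at x1
  push_cast at x1
  have x1' : Λ.x (θ (3 * i + 1)) = X₀ * m i + sg m i * (7 / 8 * w) + ε := by rw [x1]; ring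
  have key := TS Λ X₀ P₀ w L m z ν D S i hi (θ (3 * i)) (θ (3 * i + 1)) (θ (3 * i + 2))
    (θ (3 * i + 3)) (X₀ * m i + sg m i * (X₀ / 2) + ε) (X₀ * m i + sg m i * (7 / 8 * w) + ε)
    (T.h₀ i) (T.h₁ i) (T.h₂ i) (T.h₃ i) (T.h₄ i) (by linarith) x0 x3 x1' x2
    (by rcases sg1 D i with h | h <;> rw [h] <;> push_cast <;> (first | linarith only [h0, h1, hw] | nlinarith))
    (by rcases sg1 D i with h | h <;> rw [h] <;> push_cast <;> (first | linarith only [h0, h1, hw] | nlinarith))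
    (by rcases sg1 D i with h | h <;> rw [h] <;> push_cast <;> (first | linarith only [h0, h1] | nlinarith))
    (by rcases sg1 D i with h | h <;> rw [h] <;> push_cast <;> (first | linarith only [h0, h1, hw] | nlinarith))
    (θ (3 * i + 1)) (right_mem_Icc.mpr (T.h₁ i).le) (θ (3 * i + 2)) (left_mem_Icc.mpr (T.h₄ i).le)
    (X₀ * m i + sg m i * (7 / 8 * w) + ε) (Or.inr rfl)
  rw [zz_TL Λ (θ (3 * i + 2)), zz_TL Λ (θ (3 * i + 1)), x1', x2]
  exact key

theorem eq_of_cs {k l i j τ q τ' q' : ℤ} (H : Nr m z k i τ q) (H' : Nr m z l j τ' q')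
    (hc : cs m k = cs m l) : m i = m j ∧ τ = τ' := by
  rw [H.c, H'.c] at hc
  rcases H.t1 with h | h <;> rcases H'.t1 with h' | h' <;> rw [h, h'] at hc <;>
    norm_num at hc <;> constructor <;> omega

/-- Two arcs which start on the same line near `X₀ m i`. -/
theorem NN (D : LatD L m z) (S : LatS Λ X₀ P₀ w L m z ν) (T : Tht Λ X₀ w ε L m ν θ)
    (h0 : 0 < ε) (h1 : ε < w / 16) (TS : P_TSP) (LH : P_LHD) {k l i j τ q τ' q' : ℤ}
    (H : Nr m z k i τ q) (H' : Nr m z l j τ' q')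
    (hn : ¬ Cg (3 * L) k l) (hc : cs m k = cs m l) :
    zz Λ (θ k) < zz Λ (θ l) ↔ hcd m z k < hcd m z l := by
  obtain ⟨hm, hτ⟩ := eq_of_cs H H' hc
  subst hτ
  have hA : 0 < X₀ * P₀ := mul_pos S.X0 S.P0
  have hpar := (LH L m z D).1 i j hm
  have b1 := nr_b H S T h0 h1 _ (near H S T h0 h1)
  have b2 := nr_b H' S T h0 h1 _ (near H' S T h0 h1)
  rw [← zz_TL] at b1 b2
  by_cases hz : z i = z j
  · by_cases hcg : Cg L i j
    · obtain ⟨c, hcj⟩ := hcg
      have pm := per_int m L D.pm c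
      have pz := per_int z L D.pz c
      have psg : ∀ i, sg m (i + c * L) = sg m i := by
        intro i
        unfold sg
        have e : i + c * L + 1 = (i + 1) + c * L := by ring
        rw [e, pm, pm]
      have psl : ∀ i, sl m z (i + c * L) = sl m z i := by
        intro i
        unfold sl
        have e : i + c * L + 1 = (i + 1) + c * L := by ring
        rw [e, pm, pm, pz, pz]
      have ej : j - 1 = (i - 1) + c * L := by rw [hcj]; ring
      rcases H.p with ⟨p1, p2, p3⟩ | ⟨p1, p2, p3⟩ <;> rcases H'.p with ⟨r1, r2, r3⟩ | ⟨r1, r2, r3⟩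
      · exfalso
        apply hn
        refine ⟨c, ?_⟩
        rw [r1, p1, hcj]
        push_cast
        ring
      · -- k = 3 i + 1, l = 3 j + 2
        have hsj : sg m j = sg m i := by rw [hcj, psg]
        have hlj : sl m z j = sl m z i := by rw [hcj, psl]
        have hti : sg m (i - 1) ≠ sg m i := by
          have := sg1 D i
          rw [← hsj, ← r2, p2]
          have := sg1 D (i - 1)
          omega
        have hnb := D.nb i hti
        have hq : sl m z (i - 1) = -sl m z i := by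
          have a1 := sl1 D i
          have a2 := sl1 D (i - 1)
          omega
        have key := tip D S T h0 h1 TS i hti
        have e1 : θ l = θ (3 * i + 2) + c := by
          rw [← tper T, r1, hcj]
          congr 1
          push_cast
          ring
        rw [e1, zper, p1, ← p1, H.h, H'.h, ← hz, p3, r3, hlj, hq, p1]
        have hτ2 : τ = sg m i := by rw [r2, hsj]
        rw [hτ2]
        rcases sg1 D i with a1 | a1 <;> rcases sl1 D i with a2 | a2 <;> rw [a1, a2] at key ⊢ <;>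
          push_cast at key <;> constructor <;> intro hh <;>
          first
            | (exfalso; linarith)
            | linarith
      · -- k = 3 i + 2, l = 3 j + 1
        have hsj : sg m (j - 1) = sg m (i - 1) := by rw [ej, psg]
        have hlj : sl m z (j - 1) = sl m z (i - 1) := by rw [ej, psl]
        have hti : sg m (i - 1) ≠ sg m i := by
          have := sg1 D i
          rw [← hsj, ← p2, r2]
          have := sg1 D (j - 1)
          omega
        have hnb := D.nb i hti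
        have hq : sl m z (i - 1) = -sl m z i := by
          have a1 := sl1 D i
          have a2 := sl1 D (i - 1)
          omega
        have key := tip D S T h0 h1 TS i hti
        have e1 : θ l = θ (3 * i + 1) + c := by
          rw [← tper T, r1, hcj]
          congr 1
          push_cast
          ring
        rw [e1, zper, H.h, H'.h, ← hz, p3, r3, hlj, hq, p1, p2]
        rcases sg1 D i with a1 | a1 <;> rcases sl1 D i with a2 | a2 <;> rw [a1, a2] at key ⊢ <;>
          push_cast at key <;> constructor <;> intro hh <;>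
          first
            | (exfalso; linarith only [key, hh])
            | linarith
      · exfalso
        apply hn
        refine ⟨c, ?_⟩
        rw [r1, p1, hcj]
        push_cast
        ring
    · obtain ⟨d1, d2, d3, d4, d5⟩ := D.dis i j hcg hm hz
      have hq : q = sl m z i := by
        rcases H.p with ⟨p1, p2, p3⟩ | ⟨p1, p2, p3⟩
        · rw [p3, d2]
        · exact p3
      have hq' : q' = sl m z j := by
        rcases H'.p with ⟨p1, p2, p3⟩ | ⟨p1, p2, p3⟩
        · rw [p3, d4]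
        · exact p3
      have hX := S.X0
      have f1 := S.zs i d1 d2 (θ k) (nr_mem H T)
        ((near H S T h0 h1).trans (by linarith)) (Λ.x (θ k))
      have f2 := S.zs j d3 d4 (θ l) (nr_mem H' T)
        ((near H' S T h0 h1).trans (by linarith)) (Λ.x (θ l))
      rw [← zz_TL] at f1 f2
      rw [nr_x H T] at f1
      rw [nr_x H' T] at f2
      rw [f1, f2, H.h, H'.h, hz, hq, hq', hm]
      have hP := S.P0
      have hw0 := S.w0
      have hpw : 0 < P₀ * w := mul_pos hP hw0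
      have hpe : P₀ * ε < P₀ * (w / 16) := mul_lt_mul_of_pos_left h1 hP
      have hpe0 : 0 < P₀ * ε := mul_pos hP h0
      rcases H.t1 with a1 | a1 <;> rcases sl1 D i with a2 | a2 <;>
        rcases sl1 D j with a3 | a3 <;> rw [a1, a2, a3] <;> push_cast <;> constructor <;> intro hh <;>
          first
            | (exfalso; rw [a2, a3] at d5; exact d5 rfl)
            | omega
            | (exfalso; linarith only [hpe, hpe0, hh])
            | linarith only [hpe, hpe0]
  · have h := (cmp hA b1 b2 hpar hz).1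
    rw [h, H.h, H'.h]
    rcases H.t1 with a1 | a1 <;> rcases H.q1 with a2 | a2 <;>
        rcases H'.q1 with a3 | a3 <;> rw [a1, a2, a3] <;> omega

/-- A turning arc is the middle arc of a tip. -/
theorem turn_tip (D : LatD L m z) {k : ℤ} (h : gd m k ≠ gd m (k + 1)) :
    ∃ i, k = 3 * i + 1 ∧ sg m (i - 1) ≠ sg m i := by
  obtain ⟨i, hk⟩ : ∃ i, k = 3 * i ∨ k = 3 * i + 1 ∨ k = 3 * i + 2 := ⟨k / 3, by omega⟩
  rcases hk with hk | hk | hk
  · exfalso
    rw [hk, gd0, gd1] at h
    exact h rfl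
  · refine ⟨i, hk, ?_⟩
    intro he
    apply h
    have e : 3 * i + 1 + 1 = 3 * i + 2 := by ring
    rw [hk, gd1, e, gd2, he]
  · exfalso
    rw [hk, gd2, gd3] at h
    exact h rfl

theorem cg3 {i j r : ℤ} (h : ¬ Cg (3 * L) (3 * i + r) (3 * j + r)) : ¬ Cg L i j := by
  rintro ⟨c, hc⟩
  apply h
  refine ⟨c, ?_⟩
  rw [hc]
  push_cast
  ring

end HOR


open _root_.LHE.HOR

theorem t_HOR : Stmt_HOR := by
  intro _ _ TS LD Λ X₀ P₀ w ε L m z ν θ D S h0 h1 T
  have hA : 0 < X₀ * P₀ := mul_pos S.X0 S.P0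
  have hw := S.wX
  have hX := S.X0
  have hw0 := S.w0
  have hP := S.P0
  refine ⟨?_, ?_, ?_⟩
  · intro k l hn hc
    obtain ⟨i, hk⟩ : ∃ i, k = 3 * i ∨ k = 3 * i + 1 ∨ k = 3 * i + 2 := ⟨k / 3, by omega⟩
    obtain ⟨j, hl⟩ : ∃ i, l = 3 * i ∨ l = 3 * i + 1 ∨ l = 3 * i + 2 := ⟨l / 3, by omega⟩
    have half : ∀ i, Λ.x (θ (3 * i)) = X₀ * m i - sg m (i - 1) * (X₀ / 2) + ε := by
      intro i
      rw [T.hit, sR, cs0]
      rcases sg1 D (i - 1) with h | h
      · rw [h, if_pos rfl, lnm]; push_cast; ring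
      · rw [h, if_neg (by norm_num), ln2]; push_cast; ring
    have hz : ∀ i, zz Λ (θ (3 * i)) = X₀ * P₀ / 2 * hcd m z (3 * i) + P₀ * sl m z (i - 1) * ε := by
      intro i
      have hx := half i
      have hb0 := T.h₀ i
      have hb1 := T.h₁ i
      have hb2 := T.h₂ i
      have f := S.zi i (θ (3 * i)) ⟨hb0.le, by linarith only [hb1, hb2]⟩
        (by rw [hx]; rcases sg1 D (i - 1) with h | h <;> rw [h] <;> push_cast <;> (first | linarith only [h0, h1, hw] | nlinarith))
        (by rw [hx]; rcases sg1 D (i - 1) with h | h <;> rw [h] <;> push_cast <;> (first | linarith only [h0, h1, hw] | nlinarith))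
        (Λ.x (θ (3 * i)))
      rw [← zz_TL, hx] at f
      rw [f, hc0]
      push_cast
      ring
    have m0 : ∀ i, cs m (3 * i) % 3 = 2 := by
      intro i
      rw [cs0]
      rcases sg1 D (i - 1) with h | h
      · rw [if_pos h]; omega
      · rw [if_neg (by rw [h]; norm_num)]; omega
    have mn : ∀ {k i τ q : ℤ}, Nr m z k i τ q → cs m k % 3 ≠ 2 := by
      intro k i τ q H
      rw [H.c]
      split_ifs <;> omega
    have hN : ∀ {l j : ℤ}, l = 3 * j + 1 ∨ l = 3 * j + 2 → ∃ τ q, Nr m z l j τ q := by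
      intro l j hl
      rcases hl with hl | hl
      · rw [hl]; exact ⟨_, _, nr1 D j⟩
      · rw [hl]; exact ⟨_, _, nr2 D j⟩
    rcases hk with hk | hk
    · rcases hl with hl | hl
      · have hn' : ¬ Cg L i j := by
          apply cg3 (r := 0)
          rw [hk, hl] at hn
          simpa using hn
        have hd := (LD L m z D).2 i j hn' (by rw [← hk, ← hl]; exact hc)
        rw [hk, hl, hz, hz]
        obtain ⟨d1, d2⟩ := hd
        have key : ∀ a b : ℤ, a ≠ b → (a - b) % 2 = 0 → ∀ s t : ℝ, (s = 1 ∨ s = -1) →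
            (t = 1 ∨ t = -1) → (X₀ * P₀ / 2 * a + P₀ * s * ε < X₀ * P₀ / 2 * b + P₀ * t * ε ↔
              a < b) := by
          intro a b hab hab2 s t hs ht
          have hpe : P₀ * ε < P₀ * (X₀ / 4) := mul_lt_mul_of_pos_left (by linarith) hP
          have hpe0 : 0 < P₀ * ε := mul_pos hP h0
          have k1 : P₀ * s * ε ≤ P₀ * ε := by rcases hs with h | h <;> rw [h] <;> nlinarith
          have k2 : -(P₀ * ε) ≤ P₀ * s * ε := by rcases hs with h | h <;> rw [h] <;> (first | linarith only [hpe0] | linarith only [] | nlinarith)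
          have k3 : P₀ * t * ε ≤ P₀ * ε := by rcases ht with h | h <;> rw [h] <;> (first | linarith only [] | linarith only [hpe0] | nlinarith)
          have k4 : -(P₀ * ε) ≤ P₀ * t * ε := by rcases ht with h | h <;> rw [h] <;> (first | linarith only [hpe0] | linarith only [] | nlinarith)
          constructor
          · intro hh
            by_contra hc
            have : b + 2 ≤ a := by omega
            have h3 : (b : ℝ) + 2 ≤ a := by exact_mod_cast this
            nlinarith only [hpe, k2, k3, hh, hA, h3]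
          · intro hh
            have : a + 2 ≤ b := by omega
            have h3 : (a : ℝ) + 2 ≤ b := by exact_mod_cast this
            nlinarith only [hpe, k1, k4, hA, h3]
        apply key _ _ d1 d2
        · rcases sl1 D (i - 1) with h | h <;> rw [h] <;> simp
        · rcases sl1 D (j - 1) with h | h <;> rw [h] <;> simp
      · exfalso
        obtain ⟨τ, q, H⟩ := hN hl
        apply mn H
        rw [← hc, hk, m0]
    · obtain ⟨τ, q, H⟩ := hN hk
      rcases hl with hl | hl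
      · exfalso
        apply mn H
        rw [hc, hl, m0]
      · obtain ⟨τ', q', H'⟩ := hN hl
        exact NN D S T h0 h1 TS LD H H' hn hc
  · intro k l hg hc
    obtain ⟨i, hk, hti⟩ := turn_tip D hg
    obtain ⟨j, hl⟩ : ∃ i, l = 3 * i ∨ l = 3 * i + 1 ∨ l = 3 * i + 2 := ⟨l / 3, by omega⟩
    have H := nr1 D i
    rw [← hk] at H
    have hca : ca m k = 3 * m i := by rw [hk, ca1]
    have hcs : cs m l = 3 * m i ∨ cs m l = 3 * m i + 1 := by
      rw [hc, hca]
      split_ifs
      · exact Or.inr rfl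
      · exact Or.inl rfl
    have hl' : l = 3 * j + 1 ∨ l = 3 * j + 2 := by
      rcases hl with hl | hl
      · exfalso
        rw [hl, cs0] at hcs
        split_ifs at hcs <;> omega
      · exact hl
    obtain ⟨τ, q, H'⟩ : ∃ τ q, Nr m z l j τ q := by
      rcases hl' with hl | hl
      · rw [hl]; exact ⟨_, _, nr1 D j⟩
      · rw [hl]; exact ⟨_, _, nr2 D j⟩
    have hm : m i = m j := by
      have := H'.c
      rw [this] at hcs
      split_ifs at hcs <;> omega
    -- the side of the line of `l`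
    have hside : τ = sg m (i - 1) := by
      have e1 := H'.c
      rw [hc, hca, hk, gd1] at e1
      have a1 := sg1 D (i - 1)
      have a2 := H'.t1
      rcases a1 with a1 | a1 <;> rcases a2 with a2 | a2 <;> rw [a1, a2] at e1 <;>
        norm_num at e1 <;> rw [a1, a2] <;> omega
    have hncg : ¬ Cg L i j := by
      rintro ⟨c, hcj⟩
      have pm := per_int m L D.pm c
      have psg : ∀ i, sg m (i + c * L) = sg m i := by
        intro i
        unfold sg
        have e : i + c * L + 1 = (i + 1) + c * L := by ring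
        rw [e, pm, pm]
      have ej : j - 1 = (i - 1) + c * L := by rw [hcj]; ring
      have hsj : sg m j = sg m i := by rw [hcj, psg]
      have hsj' : sg m (j - 1) = sg m (i - 1) := by rw [ej, psg]
      have a1 := sg1 D i
      have a2 := sg1 D (i - 1)
      rcases H'.p with ⟨p1, p2, p3⟩ | ⟨p1, p2, p3⟩ <;> omega
    have hzne : z i ≠ z j := by
      intro hz
      exact hti (D.dis i j hncg hm hz).1
    have hpar := (LD L m z D).1 i j hm
    have hnear := near H' S T h0 h1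
    have b1 := nr_b H S T h0 h1 (Λ.x (θ l)) (by rw [hm]; exact hnear)
    have b2 := nr_b H' S T h0 h1 _ hnear
    rw [← zz_TL] at b2
    have hh := cmp hA b1 b2 hpar hzne
    have ev : vcd z k = 4 * z i := by
      unfold vcd
      have : k / 3 = i := by omega
      rw [this]
    rw [← T.hit l, hh.1, hh.2, ev, H'.h]
    rcases H'.t1 with a1 | a1 <;> rcases H'.q1 with a2 | a2 <;> rw [a1, a2] <;>
      constructor <;> omega
  · intro k l hn hg hg' hgg hca n hnn
    obtain ⟨i, hk, hti⟩ := turn_tip D hg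
    obtain ⟨j, hl, htj⟩ := turn_tip D hg'
    have H := nr1 D i
    rw [← hk] at H
    have H' := nr1 D j
    rw [← hl] at H'
    have hm : m i = m j := by
      rw [hk, hl, ca1, ca1] at hca
      omega
    have hncg : ¬ Cg L i j := by
      apply cg3 (r := 1)
      rw [hk, hl] at hn
      exact hn
    have hzne : z i ≠ z j := by
      intro hz
      exact hti (D.dis i j hncg hm hz).1
    have hpar := (LD L m z D).1 i j hm
    have hln : |ln X₀ w ε n - X₀ * m i| ≤ 51 / 100 * X₀ := by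
      have hn3 : n = 3 * m i ∨ n = 3 * m i + 1 := by
        rw [hnn, hk, ca1]
        split_ifs
        · exact Or.inr rfl
        · exact Or.inl rfl
      rcases hn3 with h | h
      · rw [h, ln0, abs_le]; constructor <;> nlinarith
      · rw [h, ln1, abs_le]; constructor <;> nlinarith
    have b1 := nr_b H S T h0 h1 _ hln
    have b2 := nr_b H' S T h0 h1 (ln X₀ w ε n) (by rw [← hm]; exact hln)
    have hh := cmp hA b1 b2 hpar hzne
    have ev : vcd z k = 4 * z i := by
      unfold vcd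
      have : k / 3 = i := by omega
      rw [this]
    have ev' : vcd z l = 4 * z j := by
      unfold vcd
      have : l / 3 = j := by omega
      rw [this]
    rw [hh.1, ev, ev']
    omega

end LHE


end

section

/-!
# FPR: a folding profile exists
-/

namespace LCA

open Set Filter
open scoped ContDiff Topology

namespace FPR

/-! ### the derivative of the smooth transition -/

lemma glue_deriv (x : ℝ) : HasDerivAt expNegInvGlue (x⁻¹ ^ 2 * expNegInvGlue x) x := by
  have h := expNegInvGlue.hasDerivAt_polynomial_eval_inv_mul (1 : Polynomial ℝ) x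
  simpa using h

lemma glue_deriv_bd (x : ℝ) : 0 ≤ x⁻¹ ^ 2 * expNegInvGlue x ∧ x⁻¹ ^ 2 * expNegInvGlue x ≤ 2 := by
  refine ⟨mul_nonneg (by positivity) (expNegInvGlue.nonneg x), ?_⟩
  rcases le_or_gt x 0 with hx | hx
  · rw [expNegInvGlue.zero_of_nonpos hx]
    norm_num
  · have h1 : expNegInvGlue x = Real.exp (-x⁻¹) := by
      simp [expNegInvGlue, not_le.2 hx]
    rw [h1, Real.exp_neg]
    have hy : 0 ≤ x⁻¹ := (inv_pos.2 hx).le
    have h2 := Real.quadratic_le_exp_of_nonneg hy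
    have h3 : 0 < Real.exp x⁻¹ := Real.exp_pos _
    rw [← div_eq_mul_inv, div_le_iff₀ h3]
    linarith only [hy, h2]

lemma glue_sum (x : ℝ) : 1 / 8 ≤ expNegInvGlue x + expNegInvGlue (1 - x) := by
  have h2 : (1 : ℝ) / 8 ≤ expNegInvGlue (1 / 2) := by
    have h1 : expNegInvGlue (1 / 2) = Real.exp (-(2 : ℝ)) := by
      norm_num [expNegInvGlue]
    rw [h1, Real.exp_neg]
    have h3 : Real.exp 2 ≤ 8 := by
      have h4 : Real.exp 2 = Real.exp 1 * Real.exp 1 := by
        rw [← Real.exp_add]; norm_num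
      rw [h4]
      have h5 := Real.exp_one_lt_d9
      have h6 := Real.exp_pos 1
      nlinarith only [h5, h6]
    have h7 : 0 < Real.exp 2 := Real.exp_pos _
    rw [one_div]
    exact inv_anti₀ h7 h3
  rcases le_total x (1 / 2) with hx | hx
  · have h3 : expNegInvGlue (1 / 2) ≤ expNegInvGlue (1 - x) :=
      expNegInvGlue.monotone (by linarith)
    have h4 := expNegInvGlue.nonneg x
    linarith
  · have h3 : expNegInvGlue (1 / 2) ≤ expNegInvGlue x := expNegInvGlue.monotone hx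
    have h4 := expNegInvGlue.nonneg (1 - x)
    linarith

lemma st_deriv (x : ℝ) : ∃ d, HasDerivAt Real.smoothTransition d x ∧ |d| ≤ 16 := by
  have h1 := glue_deriv x
  have h2 : HasDerivAt (fun y => expNegInvGlue (1 - y))
      (-((1 - x)⁻¹ ^ 2 * expNegInvGlue (1 - x))) x := by
    have h3 : HasDerivAt (fun y : ℝ => 1 - y) (-1) x := by
      simpa using (hasDerivAt_id x).const_sub 1
    have h4 := (glue_deriv (1 - x)).comp x h3
    rw [mul_neg_one] at h4
    exact h4
  have h5 := h1.div (h1.add h2) (Real.smoothTransition.pos_denom x).ne'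
  obtain ⟨b1, b2⟩ := glue_deriv_bd x
  obtain ⟨b3, b4⟩ := glue_deriv_bd (1 - x)
  have b5 := glue_sum x
  have b6 := expNegInvGlue.nonneg x
  have b7 := expNegInvGlue.nonneg (1 - x)
  refine ⟨_, h5, ?_⟩
  simp only [Pi.add_apply]
  set f := expNegInvGlue x
  set g := expNegInvGlue (1 - x)
  set f' := x⁻¹ ^ 2 * f
  set g' := (1 - x)⁻¹ ^ 2 * g
  have h6 : f' * (f + g) - f * (f' + -g') = f' * g + f * g' := by ring
  rw [h6]
  have h7 : 0 < f + g := by linarith
  have h8 : 0 < (f + g) ^ 2 := by positivity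
  have h9 : 0 ≤ f' * g + f * g' := by positivity
  rw [abs_of_nonneg (by positivity), div_le_iff₀ h8]
  linarith only [mul_le_mul_of_nonneg_right b2 b7, mul_le_mul_of_nonneg_left b4 b6, mul_le_mul_of_nonneg_left b5 h7.le]

/-! ### the derivatives of the shape -/

variable (sh : Shape)

lemma xi_low {u : ℝ} (hu : u ≤ -1) : sh.ξ u = u := by
  have h3 : (1 : ℝ) ≤ |u| := by rw [abs_of_neg (by linarith)]; linarith
  rw [sh.ξ_out u h3, abs_of_neg (by linarith)]
  ring

lemma xi_high {u : ℝ} (hu : 1 ≤ u) : sh.ξ u = -u := by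
  have h3 : (1 : ℝ) ≤ |u| := by rw [abs_of_pos (by linarith)]; linarith
  rw [sh.ξ_out u h3, abs_of_pos (by linarith)]

lemma dxi_low {u : ℝ} (hu : u ≤ -1) : deriv sh.ξ u = 1 := by
  have hc : Continuous (deriv sh.ξ) := sh.ξ_smooth.continuous_deriv (by simp)
  have hcl : IsClosed {u | deriv sh.ξ u = 1} := isClosed_eq hc continuous_const
  have h1 : Iio (-1 : ℝ) ⊆ {u | deriv sh.ξ u = 1} := by
    intro v hv
    have h2 : sh.ξ =ᶠ[𝓝 v] id := by
      filter_upwards [Iio_mem_nhds hv] with y hy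
      exact xi_low sh (le_of_lt hy)
    show deriv sh.ξ v = 1
    rw [h2.deriv_eq]
    simp
  have h3 := closure_minimal h1 hcl
  rw [closure_Iio] at h3
  exact h3 hu

lemma dxi_high {u : ℝ} (hu : 1 ≤ u) : deriv sh.ξ u = -1 := by
  have hc : Continuous (deriv sh.ξ) := sh.ξ_smooth.continuous_deriv (by simp)
  have hcl : IsClosed {u | deriv sh.ξ u = -1} := isClosed_eq hc continuous_const
  have h1 : Ioi (1 : ℝ) ⊆ {u | deriv sh.ξ u = -1} := by
    intro v hv
    have h2 : sh.ξ =ᶠ[𝓝 v] fun y => -y := by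
      filter_upwards [Ioi_mem_nhds hv] with y hy
      exact xi_high sh (le_of_lt hy)
    show deriv sh.ξ v = -1
    rw [h2.deriv_eq]
    simp
  have h3 := closure_minimal h1 hcl
  rw [closure_Ioi] at h3
  exact h3 hu

lemma dtau_nonneg (u : ℝ) : 0 ≤ deriv sh.τ u := by
  have hc : Continuous (deriv sh.τ) := sh.τ_smooth.continuous_deriv (by simp)
  rcases lt_or_ge (-1) u with h | h
  · rcases lt_or_ge u 1 with h' | h'
    · exact (sh.τ_deriv u h h').le
    · have hm : IsLocalMax sh.τ u := by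
        refine Filter.Eventually.of_forall fun y => ?_
        rw [sh.τ_high u h']
        exact (sh.τ_mem y).2
      exact hm.deriv_eq_zero.ge
  · have hm : IsLocalMin sh.τ u := by
      refine Filter.Eventually.of_forall fun y => ?_
      rw [sh.τ_low u h]
      exact (sh.τ_mem y).1
    exact hm.deriv_eq_zero.ge

lemma tau_hasDeriv (u : ℝ) : HasDerivAt sh.τ (deriv sh.τ u) u :=
  (sh.τ_smooth.differentiable (by simp) u).hasDerivAt

lemma xi_hasDeriv (u : ℝ) : HasDerivAt sh.ξ (deriv sh.ξ u) u :=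
  (sh.ξ_smooth.differentiable (by simp) u).hasDerivAt

lemma tau_strictMono : StrictMonoOn sh.τ (Icc (-1) 1) := by
  refine strictMonoOn_of_deriv_pos (convex_Icc _ _) sh.τ_smooth.continuous.continuousOn ?_
  intro x hx
  rw [interior_Icc] at hx
  exact sh.τ_deriv x hx.1 hx.2

lemma comp16 {f : ℝ → ℝ} {d c u : ℝ} (h : HasDerivAt f d (16 * u + c)) :
    HasDerivAt (fun u => f (16 * u + c)) (d * 16) u := by
  have h1 : HasDerivAt (fun u : ℝ => 16 * u + c) 16 u := by
    simpa using ((hasDerivAt_id u).const_mul 16).add_const c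
  exact h.comp u h1

/-! ### the folded profile -/

/-- The `x`-coordinate of the folded profile. -/
noncomputable def X1 (u : ℝ) : ℝ :=
  u + 13 / 64 * sh.ΘP (16 * u + 15) - 9 / 64 * sh.ΘP (16 * u + 11)
    + (sh.ξ (16 * u + 8) - (16 * u + 8)) / 8
    + 1 / 10 * sh.ΘP (16 * u + 5) - 1 / 10 * sh.ΘP (16 * u + -5)
    + ((16 * u + -8) - sh.ξ (16 * u + -8)) / 8
    + 9 / 64 * sh.ΘP (16 * u + -11) - 13 / 64 * sh.ΘP (16 * u + -15)

/-- The derivative of `X1`. -/
noncomputable def dX1 (u : ℝ) : ℝ :=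
  1 + 13 / 4 * sh.τ (16 * u + 15) - 9 / 4 * sh.τ (16 * u + 11)
    + (2 * deriv sh.ξ (16 * u + 8) - 2)
    + 8 / 5 * sh.τ (16 * u + 5) - 8 / 5 * sh.τ (16 * u + -5)
    + (2 - 2 * deriv sh.ξ (16 * u + -8))
    + 9 / 4 * sh.τ (16 * u + -11) - 13 / 4 * sh.τ (16 * u + -15)

/-- The slope of the folded profile. -/
noncomputable def P1 (u : ℝ) : ℝ := (sh.τ (16 * u + 8) + sh.τ (16 * u + -8)) / 2

/-- The primitive of the folded profile. -/
noncomputable def T2 (u : ℝ) : ℝ :=
  sh.ΘR (16 * u + 8) / 16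
    + (1 / 10 * sh.ΘP (16 * u + 5) - 1 / 10 * sh.ΘP (16 * u + -5)
      + ((16 * u + -8) - sh.ξ (16 * u + -8)) / 8
      + 9 / 64 * sh.ΘP (16 * u + -11) - 13 / 64 * sh.ΘP (16 * u + -15)) / 2
    - sh.ΘR (16 * u + -8) / 16
    + (9 / 64 * sh.ΘP (16 * u + -11) - 13 / 64 * sh.ΘP (16 * u + -15)) / 2

lemma X1_hasDeriv (u : ℝ) : HasDerivAt (X1 sh) (dX1 sh u) u := by
  have hid := hasDerivAt_id u
  have h1 := (comp16 (sh.ΘP_deriv (16 * u + 15))).const_mul (13 / 64)
  have h2 := (comp16 (sh.ΘP_deriv (16 * u + 11))).const_mul (9 / 64)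
  have h3 := comp16 (xi_hasDeriv sh (16 * u + 8))
  have h4 := (comp16 (sh.ΘP_deriv (16 * u + 5))).const_mul (1 / 10)
  have h5 := (comp16 (sh.ΘP_deriv (16 * u + -5))).const_mul (1 / 10)
  have h6 := comp16 (xi_hasDeriv sh (16 * u + -8))
  have h7 := (comp16 (sh.ΘP_deriv (16 * u + -11))).const_mul (9 / 64)
  have h8 := (comp16 (sh.ΘP_deriv (16 * u + -15))).const_mul (13 / 64)
  have h9 := comp16 (hasDerivAt_id (16 * u + 8))
  have h10 := comp16 (hasDerivAt_id (16 * u + -8))
  have h := ((((((((hid.add h1).sub h2).add ((h3.sub h9).div_const 8)).add h4).sub h5).add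
    ((h10.sub h6).div_const 8)).add h7).sub h8)
  have e : dX1 sh u = 1 + 13 / 64 * (sh.τ (16 * u + 15) * 16) - 9 / 64 * (sh.τ (16 * u + 11) * 16)
      + (deriv sh.ξ (16 * u + 8) * 16 - 1 * 16) / 8 + 1 / 10 * (sh.τ (16 * u + 5) * 16)
      - 1 / 10 * (sh.τ (16 * u + -5) * 16) + (1 * 16 - deriv sh.ξ (16 * u + -8) * 16) / 8
      + 9 / 64 * (sh.τ (16 * u + -11) * 16) - 13 / 64 * (sh.τ (16 * u + -15) * 16) := by
    unfold dX1
    ring
  rw [e]
  exact h

lemma P1_hasDeriv (u : ℝ) : HasDerivAt (P1 sh)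
    (8 * deriv sh.τ (16 * u + 8) + 8 * deriv sh.τ (16 * u + -8)) u := by
  have h := ((comp16 (tau_hasDeriv sh (16 * u + 8))).add
    (comp16 (tau_hasDeriv sh (16 * u + -8)))).div_const 2
  have e : 8 * deriv sh.τ (16 * u + 8) + 8 * deriv sh.τ (16 * u + -8) =
      (deriv sh.τ (16 * u + 8) * 16 + deriv sh.τ (16 * u + -8) * 16) / 2 := by ring
  rw [e]
  exact h

/-- The derivative of `T2`. -/
noncomputable def dT2 (u : ℝ) : ℝ :=
  sh.τ (16 * u + 8) * deriv sh.ξ (16 * u + 8)
    + (8 / 5 * sh.τ (16 * u + 5) - 8 / 5 * sh.τ (16 * u + -5)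
      + (2 - 2 * deriv sh.ξ (16 * u + -8))
      + 9 / 4 * sh.τ (16 * u + -11) - 13 / 4 * sh.τ (16 * u + -15)) / 2
    - sh.τ (16 * u + -8) * deriv sh.ξ (16 * u + -8)
    + (9 / 4 * sh.τ (16 * u + -11) - 13 / 4 * sh.τ (16 * u + -15)) / 2

lemma T2_hasDeriv' (u : ℝ) : HasDerivAt (T2 sh) (dT2 sh u) u := by
  have h4 := (comp16 (sh.ΘP_deriv (16 * u + 5))).const_mul (1 / 10)
  have h5 := (comp16 (sh.ΘP_deriv (16 * u + -5))).const_mul (1 / 10)
  have h6 := comp16 (xi_hasDeriv sh (16 * u + -8))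
  have h7 := (comp16 (sh.ΘP_deriv (16 * u + -11))).const_mul (9 / 64)
  have h8 := (comp16 (sh.ΘP_deriv (16 * u + -15))).const_mul (13 / 64)
  have h10 := comp16 (hasDerivAt_id (16 * u + -8))
  have h11 := comp16 (sh.ΘR_deriv (16 * u + 8))
  have h12 := comp16 (sh.ΘR_deriv (16 * u + -8))
  have h := ((((h11.div_const 16).add (((((h4.sub h5).add
    ((h10.sub h6).div_const 8)).add h7).sub h8).div_const 2)).sub (h12.div_const 16)).add
    ((h7.sub h8).div_const 2))
  have e : dT2 sh u = sh.τ (16 * u + 8) * deriv sh.ξ (16 * u + 8) * 16 / 16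
      + (1 / 10 * (sh.τ (16 * u + 5) * 16)
      - 1 / 10 * (sh.τ (16 * u + -5) * 16) + (1 * 16 - deriv sh.ξ (16 * u + -8) * 16) / 8
      + 9 / 64 * (sh.τ (16 * u + -11) * 16) - 13 / 64 * (sh.τ (16 * u + -15) * 16)) / 2
      - sh.τ (16 * u + -8) * deriv sh.ξ (16 * u + -8) * 16 / 16
      + (9 / 64 * (sh.τ (16 * u + -11) * 16) - 13 / 64 * (sh.τ (16 * u + -15) * 16)) / 2 := by
    unfold dT2
    ring
  rw [e]
  exact h

/-! ### the five regions -/

lemma regA {u : ℝ} (hu : u ≤ -(5 / 8)) :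
    X1 sh u = u + 13 / 64 * sh.ΘP (16 * u + 15) - 9 / 64 * sh.ΘP (16 * u + 11) ∧
    P1 sh u = 0 ∧ T2 sh u = 0 ∧ dT2 sh u = 0 := by
  unfold X1 P1 T2 dT2
  rw [sh.τ_low (16 * u + 8) (by linarith), sh.τ_low (16 * u + -8) (by linarith),
    sh.τ_low (16 * u + 5) (by linarith), sh.τ_low (16 * u + -5) (by linarith),
    sh.τ_low (16 * u + -11) (by linarith), sh.τ_low (16 * u + -15) (by linarith),
    sh.ΘP_low (16 * u + 5) (by linarith), sh.ΘP_low (16 * u + -5) (by linarith),
    sh.ΘP_low (16 * u + -11) (by linarith), sh.ΘP_low (16 * u + -15) (by linarith),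
    sh.ΘR_low (16 * u + 8) (by linarith), sh.ΘR_low (16 * u + -8) (by linarith),
    xi_low sh (u := 16 * u + 8) (by linarith), xi_low sh (u := 16 * u + -8) (by linarith),
    dxi_low sh (u := 16 * u + 8) (by linarith), dxi_low sh (u := 16 * u + -8) (by linarith)]
  refine ⟨by ring, by ring, by ring, by ring⟩

lemma regB {u : ℝ} (hu : -(5 / 8) ≤ u) (hu' : u ≤ -(3 / 8)) :
    X1 sh u = 1 / 2 + sh.ξ (16 * u + 8) / 8 ∧ dX1 sh u = 2 * deriv sh.ξ (16 * u + 8) ∧
    P1 sh u = sh.τ (16 * u + 8) / 2 ∧ T2 sh u = sh.ΘR (16 * u + 8) / 16 ∧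
    dT2 sh u = sh.τ (16 * u + 8) * deriv sh.ξ (16 * u + 8) := by
  unfold X1 P1 T2 dT2 dX1
  rw [sh.τ_low (16 * u + -8) (by linarith), sh.τ_high (16 * u + 15) (by linarith),
    sh.τ_high (16 * u + 11) (by linarith),
    sh.τ_low (16 * u + 5) (by linarith), sh.τ_low (16 * u + -5) (by linarith),
    sh.τ_low (16 * u + -11) (by linarith), sh.τ_low (16 * u + -15) (by linarith),
    sh.ΘP_high (16 * u + 15) (by linarith), sh.ΘP_high (16 * u + 11) (by linarith),
    sh.ΘP_low (16 * u + 5) (by linarith), sh.ΘP_low (16 * u + -5) (by linarith),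
    sh.ΘP_low (16 * u + -11) (by linarith), sh.ΘP_low (16 * u + -15) (by linarith),
    sh.ΘR_low (16 * u + -8) (by linarith),
    xi_low sh (u := 16 * u + -8) (by linarith),
    dxi_low sh (u := 16 * u + -8) (by linarith)]
  refine ⟨by ring, by ring, by ring, by ring, by ring⟩

lemma regC {u : ℝ} (hu : -(3 / 8) ≤ u) (hu' : u ≤ 3 / 8) :
    X1 sh u = -2 * u - 1 / 2 + 1 / 10 * sh.ΘP (16 * u + 5) - 1 / 10 * sh.ΘP (16 * u + -5) ∧
    P1 sh u = 1 / 2 ∧ T2 sh u = (X1 sh u - 1 / 2) / 2 ∧ dT2 sh u = dX1 sh u / 2 := by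
  unfold P1 T2 dT2 dX1 X1
  rw [sh.τ_low (16 * u + -8) (by linarith), sh.τ_high (16 * u + 15) (by linarith),
    sh.τ_high (16 * u + 11) (by linarith), sh.τ_high (16 * u + 8) (by linarith),
    sh.τ_low (16 * u + -11) (by linarith), sh.τ_low (16 * u + -15) (by linarith),
    sh.ΘP_high (16 * u + 15) (by linarith), sh.ΘP_high (16 * u + 11) (by linarith),
    sh.ΘP_low (16 * u + -11) (by linarith), sh.ΘP_low (16 * u + -15) (by linarith),
    sh.ΘR_low (16 * u + -8) (by linarith), sh.ΘR_high (16 * u + 8) (by linarith),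
    xi_low sh (u := 16 * u + -8) (by linarith), xi_high sh (u := 16 * u + 8) (by linarith),
    dxi_low sh (u := 16 * u + -8) (by linarith), dxi_high sh (u := 16 * u + 8) (by linarith)]
  refine ⟨by ring, by ring, by ring, by ring⟩

lemma regD {u : ℝ} (hu : 3 / 8 ≤ u) (hu' : u ≤ 5 / 8) :
    X1 sh u = -(1 / 2) - sh.ξ (16 * u + -8) / 8 ∧ dX1 sh u = -2 * deriv sh.ξ (16 * u + -8) ∧
    P1 sh u = 1 / 2 + sh.τ (16 * u + -8) / 2 ∧
    T2 sh u = (X1 sh u - 1 / 2) / 2 - sh.ΘR (16 * u + -8) / 16 ∧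
    dT2 sh u = -(1 + sh.τ (16 * u + -8)) * deriv sh.ξ (16 * u + -8) := by
  unfold P1 T2 dT2 dX1 X1
  rw [sh.τ_high (16 * u + 8) (by linarith), sh.τ_high (16 * u + 15) (by linarith),
    sh.τ_high (16 * u + 11) (by linarith),
    sh.τ_high (16 * u + 5) (by linarith), sh.τ_high (16 * u + -5) (by linarith),
    sh.τ_low (16 * u + -11) (by linarith), sh.τ_low (16 * u + -15) (by linarith),
    sh.ΘP_high (16 * u + 15) (by linarith), sh.ΘP_high (16 * u + 11) (by linarith),
    sh.ΘP_high (16 * u + 5) (by linarith), sh.ΘP_high (16 * u + -5) (by linarith),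
    sh.ΘP_low (16 * u + -11) (by linarith), sh.ΘP_low (16 * u + -15) (by linarith),
    sh.ΘR_high (16 * u + 8) (by linarith),
    xi_high sh (u := 16 * u + 8) (by linarith),
    dxi_high sh (u := 16 * u + 8) (by linarith)]
  refine ⟨by ring, by ring, by ring, by ring, by ring⟩

lemma regE {u : ℝ} (hu : 5 / 8 ≤ u) :
    X1 sh u = 2 * u - 3 / 2 + 9 / 64 * sh.ΘP (16 * u + -11) - 13 / 64 * sh.ΘP (16 * u + -15) ∧
    P1 sh u = 1 ∧ T2 sh u = X1 sh u ∧ dT2 sh u = dX1 sh u := by
  unfold P1 T2 dT2 dX1 X1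
  rw [sh.τ_high (16 * u + 8) (by linarith), sh.τ_high (16 * u + -8) (by linarith),
    sh.τ_high (16 * u + 15) (by linarith), sh.τ_high (16 * u + 11) (by linarith),
    sh.τ_high (16 * u + 5) (by linarith), sh.τ_high (16 * u + -5) (by linarith),
    sh.ΘP_high (16 * u + 15) (by linarith), sh.ΘP_high (16 * u + 11) (by linarith),
    sh.ΘP_high (16 * u + 5) (by linarith), sh.ΘP_high (16 * u + -5) (by linarith),
    sh.ΘR_high (16 * u + 8) (by linarith), sh.ΘR_high (16 * u + -8) (by linarith),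
    xi_high sh (u := 16 * u + 8) (by linarith), xi_high sh (u := 16 * u + -8) (by linarith),
    dxi_high sh (u := 16 * u + 8) (by linarith), dxi_high sh (u := 16 * u + -8) (by linarith)]
  refine ⟨by ring, by ring, by ring, by ring⟩

lemma T2_hasDeriv (u : ℝ) : HasDerivAt (T2 sh) (P1 sh u * dX1 sh u) u := by
  have h := T2_hasDeriv' sh u
  have e : dT2 sh u = P1 sh u * dX1 sh u := by
    rcases le_total u (-(5 / 8)) with h1 | h1
    · obtain ⟨-, h2, -, h3⟩ := regA sh h1
      rw [h2, h3, zero_mul]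
    rcases le_total u (-(3 / 8)) with h2 | h2
    · obtain ⟨-, h3, h4, -, h5⟩ := regB sh h1 h2
      rw [h3, h4, h5]; ring
    rcases le_total u (3 / 8) with h3 | h3
    · obtain ⟨-, h4, -, h5⟩ := regC sh h2 h3
      rw [h4, h5]; ring
    rcases le_total u (5 / 8) with h4 | h4
    · obtain ⟨-, h5, h6, -, h7⟩ := regD sh h3 h4
      rw [h5, h6, h7]; ring
    · obtain ⟨-, h5, -, h6⟩ := regE sh h4
      rw [h5, h6]; ring
  rw [← e]
  exact h

/-! ### monotonicity -/

lemma dX1_low {u : ℝ} (hu : u ≤ -(9 / 16)) : 0 < dX1 sh u := by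
  unfold dX1
  rw [sh.τ_low (16 * u + 5) (by linarith), sh.τ_low (16 * u + -5) (by linarith),
    sh.τ_low (16 * u + -11) (by linarith), sh.τ_low (16 * u + -15) (by linarith),
    dxi_low sh (u := 16 * u + 8) (by linarith), dxi_low sh (u := 16 * u + -8) (by linarith)]
  rcases le_total u (-(3 / 4)) with h | h
  · rw [sh.τ_low (16 * u + 11) (by linarith)]
    have := (sh.τ_mem (16 * u + 15)).1
    linarith
  · rw [sh.τ_high (16 * u + 15) (by linarith)]
    have := (sh.τ_mem (16 * u + 11)).2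
    linarith only [this]

lemma dX1_mid {u : ℝ} (hu : -(7 / 16) ≤ u) (hu' : u ≤ 7 / 16) : dX1 sh u < 0 := by
  unfold dX1
  rw [sh.τ_high (16 * u + 15) (by linarith), sh.τ_high (16 * u + 11) (by linarith),
    sh.τ_low (16 * u + -11) (by linarith), sh.τ_low (16 * u + -15) (by linarith),
    dxi_high sh (u := 16 * u + 8) (by linarith), dxi_low sh (u := 16 * u + -8) (by linarith)]
  have := (sh.τ_mem (16 * u + 5)).2
  have := (sh.τ_mem (16 * u + -5)).1
  linarith

lemma dX1_high {u : ℝ} (hu : 9 / 16 ≤ u) : 0 < dX1 sh u := by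
  unfold dX1
  rw [sh.τ_high (16 * u + 15) (by linarith), sh.τ_high (16 * u + 11) (by linarith),
    sh.τ_high (16 * u + 5) (by linarith), sh.τ_high (16 * u + -5) (by linarith),
    dxi_high sh (u := 16 * u + 8) (by linarith), dxi_high sh (u := 16 * u + -8) (by linarith)]
  rcases le_total u (7 / 8) with h | h
  · rw [sh.τ_low (16 * u + -15) (by linarith)]
    have := (sh.τ_mem (16 * u + -11)).1
    linarith
  · rw [sh.τ_high (16 * u + -11) (by linarith)]
    have := (sh.τ_mem (16 * u + -15)).2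
    linarith

lemma X1_diff : Differentiable ℝ (X1 sh) := fun u => (X1_hasDeriv sh u).differentiableAt

lemma X1_deriv (u : ℝ) : deriv (X1 sh) u = dX1 sh u := (X1_hasDeriv sh u).deriv

lemma X1_monoA : StrictMonoOn (X1 sh) (Iic (-(9 / 16))) := by
  refine strictMonoOn_of_deriv_pos (convex_Iic _) (X1_diff sh).continuous.continuousOn ?_
  intro x hx
  rw [interior_Iic] at hx
  rw [X1_deriv]
  exact dX1_low sh (le_of_lt hx)

lemma X1_antiC : StrictAntiOn (X1 sh) (Icc (-(7 / 16)) (7 / 16)) := by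
  refine strictAntiOn_of_deriv_neg (convex_Icc _ _) (X1_diff sh).continuous.continuousOn ?_
  intro x hx
  rw [interior_Icc] at hx
  rw [X1_deriv]
  exact dX1_mid sh hx.1.le hx.2.le

lemma X1_monoE : StrictMonoOn (X1 sh) (Ici (9 / 16)) := by
  refine strictMonoOn_of_deriv_pos (convex_Ici _) (X1_diff sh).continuous.continuousOn ?_
  intro x hx
  rw [interior_Ici] at hx
  rw [X1_deriv]
  exact dX1_high sh (le_of_lt hx)

lemma X1_low {u : ℝ} (hu : u ≤ -1) : X1 sh u = u := by
  rw [(regA sh (by linarith : u ≤ -(5 / 8))).1, sh.ΘP_low _ (by linarith),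
    sh.ΘP_low _ (by linarith)]
  ring

lemma X1_high {u : ℝ} (hu : 1 ≤ u) : X1 sh u = u := by
  rw [(regE sh (by linarith : 5 / 8 ≤ u)).1, sh.ΘP_high _ (by linarith),
    sh.ΘP_high _ (by linarith)]
  ring

lemma X1_a : X1 sh (-(5 / 8)) = 1 / 4 := by
  rw [(regA sh le_rfl).1, sh.ΘP_high _ (by norm_num), sh.ΘP_high _ (by norm_num)]
  norm_num

lemma X1_b : X1 sh (-(3 / 8)) = 1 / 4 := by
  rw [(regC sh le_rfl (by norm_num)).1, sh.ΘP_low _ (by norm_num), sh.ΘP_low _ (by norm_num)]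
  norm_num

lemma X1_c : X1 sh (3 / 8) = -(1 / 4) := by
  rw [(regC sh (by norm_num) le_rfl).1, sh.ΘP_high _ (by norm_num), sh.ΘP_high _ (by norm_num)]
  norm_num

lemma X1_d : X1 sh (5 / 8) = -(1 / 4) := by
  rw [(regE sh le_rfl).1, sh.ΘP_low _ (by norm_num), sh.ΘP_low _ (by norm_num)]
  norm_num

lemma xi_bd {u : ℝ} (hu : |u| ≤ 2) : -2 ≤ sh.ξ u ∧ sh.ξ u ≤ 1 := by
  rcases le_total |u| 1 with h | h
  · have := sh.ξ_in u h
    rw [abs_le] at this
    exact ⟨by linarith [this.1], this.2⟩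
  · rw [sh.ξ_out u h]
    exact ⟨by linarith, by linarith⟩

lemma X1_bd {u : ℝ} (hu : |u| ≤ 1) : |X1 sh u| ≤ 1 := by
  rw [abs_le] at hu ⊢
  obtain ⟨hl, hr⟩ := hu
  have e1 := X1_low sh (le_refl (-1))
  have e2 := X1_high sh (le_refl 1)
  rcases le_total u (-(5 / 8)) with h1 | h1
  · have h2 : X1 sh (-1) ≤ X1 sh u :=
      (X1_monoA sh).monotoneOn (by norm_num) (by simp only [mem_Iic]; linarith) hl
    have h3 : X1 sh u ≤ X1 sh (-(5 / 8)) :=
      (X1_monoA sh).monotoneOn (by simp only [mem_Iic]; linarith) (by norm_num) h1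
    rw [X1_a] at h3
    rw [e1] at h2
    exact ⟨h2, by linarith⟩
  rcases le_total u (-(3 / 8)) with h2 | h2
  · rw [(regB sh h1 h2).1]
    have h3 : |16 * u + 8| ≤ 2 := by rw [abs_le]; constructor <;> linarith
    have := xi_bd sh h3
    constructor <;> linarith
  rcases le_total u (3 / 8) with h3 | h3
  · have h4 : X1 sh u ≤ X1 sh (-(3 / 8)) :=
      (X1_antiC sh).antitoneOn (by norm_num) (by constructor <;> linarith) h2
    have h5 : X1 sh (3 / 8) ≤ X1 sh u :=
      (X1_antiC sh).antitoneOn (by constructor <;> linarith) (by norm_num) h3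
    rw [X1_b] at h4
    rw [X1_c] at h5
    constructor <;> linarith
  rcases le_total u (5 / 8) with h4 | h4
  · rw [(regD sh h3 h4).1]
    have h5 : |16 * u + -8| ≤ 2 := by rw [abs_le]; constructor <;> linarith
    have := xi_bd sh h5
    constructor <;> linarith only [this]
  · have h5 : X1 sh (5 / 8) ≤ X1 sh u :=
      (X1_monoE sh).monotoneOn (by norm_num) (by simp only [mem_Ici]; linarith) h4
    have h6 : X1 sh u ≤ X1 sh 1 :=
      (X1_monoE sh).monotoneOn (by simp only [mem_Ici]; linarith) (by norm_num) hr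
    rw [X1_d] at h5
    rw [e2] at h6
    exact ⟨by linarith, h6⟩

/-! ### symmetry -/

lemma const_zero {K : ℝ → ℝ} (hK : ∀ u, HasDerivAt K 0 u) (h0 : K 0 = 0) (u : ℝ) : K u = 0 := by
  have h1 := is_const_of_deriv_eq_zero (fun u => (hK u).differentiableAt)
    (fun u => (hK u).deriv) u 0
  rw [h1, h0]

lemma neg_deriv {f : ℝ → ℝ} {d u : ℝ} (h : HasDerivAt f d (-u)) :
    HasDerivAt (fun u => f (-u)) (-d) u := by
  have h1 : HasDerivAt (fun u : ℝ => -u) (-1) u := hasDerivAt_neg' u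
  have h2 := h.comp u h1
  rw [mul_neg_one] at h2
  exact h2

lemma ThP_neg (u : ℝ) : sh.ΘP (-u) = sh.ΘP u - u := by
  have h := const_zero (K := fun u => sh.ΘP u - sh.ΘP (-u) - u) (fun u => by
    have h1 := ((sh.ΘP_deriv u).sub (neg_deriv (sh.ΘP_deriv (-u)))).sub (hasDerivAt_id u)
    have h2 : sh.τ u - -sh.τ (-u) - 1 = 0 := by rw [sh.τ_symm]; ring
    rw [h2] at h1
    exact h1) (by simp) u
  linarith

lemma X1_neg (u : ℝ) : X1 sh (-u) = -X1 sh u := by
  unfold X1
  have a1 : 16 * -u + 15 = -(16 * u + -15) := by ring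
  have a2 : 16 * -u + 11 = -(16 * u + -11) := by ring
  have a3 : 16 * -u + 8 = -(16 * u + -8) := by ring
  have a4 : 16 * -u + 5 = -(16 * u + -5) := by ring
  have a5 : 16 * -u + -5 = -(16 * u + 5) := by ring
  have a6 : 16 * -u + -8 = -(16 * u + 8) := by ring
  have a7 : 16 * -u + -11 = -(16 * u + 11) := by ring
  have a8 : 16 * -u + -15 = -(16 * u + 15) := by ring
  rw [a1, a2, a3, a4, a5, a6, a7, a8, ThP_neg, ThP_neg, ThP_neg, ThP_neg, ThP_neg, ThP_neg,
    sh.ξ_even, sh.ξ_even]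
  ring

lemma dX1_neg (u : ℝ) : dX1 sh (-u) = dX1 sh u := by
  have h1 := (neg_deriv (X1_hasDeriv sh (-u))).neg
  have h2 : (fun u => -X1 sh (-u)) = X1 sh := by
    funext v
    rw [X1_neg, neg_neg]
  have h3 : HasDerivAt (X1 sh) (dX1 sh (-u)) u := by
    have h4 : HasDerivAt (fun u => -X1 sh (-u)) (- -dX1 sh (-u)) u := h1
    rwa [h2, neg_neg] at h4
  exact h3.unique (X1_hasDeriv sh u)

/-! ### smoothness -/

lemma smooth16 {f : ℝ → ℝ} (hf : ContDiff ℝ ∞ f) (c : ℝ) :
    ContDiff ℝ ∞ (fun u => f (16 * u + c)) :=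
  hf.comp ((contDiff_const.mul contDiff_id).add contDiff_const)

lemma X1_smooth : ContDiff ℝ ∞ (X1 sh) := by
  have hP := sh.ΘP_smooth
  have hx := sh.ξ_smooth
  have hl : ∀ c : ℝ, ContDiff ℝ ∞ (fun u : ℝ => 16 * u + c) := fun c =>
    (contDiff_const.mul contDiff_id).add contDiff_const
  have h := (((((((contDiff_id (𝕜 := ℝ) (n := ∞) (E := ℝ)).add
    ((contDiff_const (c := (13 / 64 : ℝ))).mul (smooth16 hP 15))).sub
    ((contDiff_const (c := (9 / 64 : ℝ))).mul (smooth16 hP 11))).add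
    (((smooth16 hx 8).sub (hl 8)).div_const 8)).add
    ((contDiff_const (c := (1 / 10 : ℝ))).mul (smooth16 hP 5))).sub
    ((contDiff_const (c := (1 / 10 : ℝ))).mul (smooth16 hP (-5)))).add
    (((hl (-8)).sub (smooth16 hx (-8))).div_const 8)).add
    ((contDiff_const (c := (9 / 64 : ℝ))).mul (smooth16 hP (-11)))
  exact h.sub ((contDiff_const (c := (13 / 64 : ℝ))).mul (smooth16 hP (-15)))

lemma P1_smooth : ContDiff ℝ ∞ (P1 sh) :=
  ((smooth16 sh.τ_smooth 8).add (smooth16 sh.τ_smooth (-8))).div_const 2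

lemma T2_smooth : ContDiff ℝ ∞ (T2 sh) := by
  have hP := sh.ΘP_smooth
  have hR := sh.ΘR_smooth
  have hx := sh.ξ_smooth
  have hl : ContDiff ℝ ∞ (fun u : ℝ => 16 * u + -8) :=
    (contDiff_const.mul contDiff_id).add contDiff_const
  have h1 := ((((((contDiff_const (c := (1 / 10 : ℝ))).mul (smooth16 hP 5)).sub
    ((contDiff_const (c := (1 / 10 : ℝ))).mul (smooth16 hP (-5)))).add
    ((hl.sub (smooth16 hx (-8))).div_const 8)).add
    ((contDiff_const (c := (9 / 64 : ℝ))).mul (smooth16 hP (-11)))).sub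
    ((contDiff_const (c := (13 / 64 : ℝ))).mul (smooth16 hP (-15)))).div_const 2
  have h2 := ((((contDiff_const (c := (9 / 64 : ℝ))).mul (smooth16 hP (-11)))).sub
    ((contDiff_const (c := (13 / 64 : ℝ))).mul (smooth16 hP (-15)))).div_const 2
  exact ((((smooth16 hR 8).div_const 16).add h1).sub ((smooth16 hR (-8)).div_const 16)).add h2

lemma dX1_smooth : ContDiff ℝ ∞ (dX1 sh) := by
  have h := (contDiff_infty_iff_deriv.1 (X1_smooth sh)).2
  have e : deriv (X1 sh) = dX1 sh := funext fun u => X1_deriv sh u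
  rwa [e] at h

/-! ### the primitive of the first stage -/

/-- The primitive of `τ X1'`. -/
noncomputable def T1 (u : ℝ) : ℝ := ∫ t in (-1 : ℝ)..u, sh.τ t * dX1 sh t

lemma T1_hasDeriv (u : ℝ) : HasDerivAt (T1 sh) (sh.τ u * dX1 sh u) u := by
  have hc : Continuous (fun t => sh.τ t * dX1 sh t) :=
    sh.τ_smooth.continuous.mul (dX1_smooth sh).continuous
  exact (hc.integral_hasStrictDerivAt (-1) u).hasDerivAt

lemma T1_smooth : ContDiff ℝ ∞ (T1 sh) := by
  rw [contDiff_infty_iff_deriv]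
  refine ⟨fun u => (T1_hasDeriv sh u).differentiableAt, ?_⟩
  have e : deriv (T1 sh) = fun u => sh.τ u * dX1 sh u := funext fun u => (T1_hasDeriv sh u).deriv
  rw [e]
  exact sh.τ_smooth.mul (dX1_smooth sh)

lemma T1_low {u : ℝ} (hu : u ≤ -1) : T1 sh u = 0 := by
  unfold T1
  have h : ∀ t ∈ uIcc (-1 : ℝ) u, sh.τ t * dX1 sh t = (fun _ => (0 : ℝ)) t := by
    intro t ht
    rw [uIcc_of_ge hu] at ht
    rw [sh.τ_low t ht.2, zero_mul]
  rw [intervalIntegral.integral_congr h]
  simp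

lemma T1_high {u : ℝ} (hu : 1 ≤ u) : T1 sh u = u := by
  have h := const_zero (K := fun u => T1 sh u - T1 sh (-u) - X1 sh u) (fun u => by
    have h1 := ((T1_hasDeriv sh u).sub (neg_deriv (T1_hasDeriv sh (-u)))).sub
      (X1_hasDeriv sh u)
    have h2 : sh.τ u * dX1 sh u - -(sh.τ (-u) * dX1 sh (-u)) - dX1 sh u = 0 := by
      rw [sh.τ_symm, dX1_neg]; ring
    rw [h2] at h1
    exact h1) (by
      have h3 := X1_neg sh 0
      rw [neg_zero] at h3
      have h4 : X1 sh 0 = 0 := by linarith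
      simp [h4]) u
  rw [T1_low sh (by linarith : -u ≤ -1), X1_high sh hu] at h
  linarith

/-- The bound for the primitives. -/
lemma prim_bd {X P T X' P' : ℝ → ℝ} (hX : ∀ u, HasDerivAt X (X' u) u)
    (hP : ∀ u, HasDerivAt P (P' u) u) (hT : ∀ u, HasDerivAt T (P u * X' u) u)
    (hP' : ∀ u, 0 ≤ P' u) (hXb : ∀ u, |u| ≤ 1 → |X u| ≤ 1) (hPb : ∀ u, 0 ≤ P u ∧ P u ≤ 1)
    (hP0 : P (-1) = 0) (hT0 : T (-1) = 0) {u : ℝ} (hu : |u| ≤ 1) : |T u| ≤ 2 := by
  have d1 : ∀ u, HasDerivAt (fun u => T u - P u * X u + P u) (P' u * (1 - X u)) u := by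
    intro u
    have h := ((hT u).sub ((hP u).mul (hX u))).add (hP u)
    have e : P u * X' u - (P' u * X u + P u * X' u) + P' u = P' u * (1 - X u) := by ring
    rw [e] at h
    exact h
  have d2 : ∀ u, HasDerivAt (fun u => P u - (T u - P u * X u)) (P' u * (1 + X u)) u := by
    intro u
    have h := (hP u).sub ((hT u).sub ((hP u).mul (hX u)))
    have e : P' u - (P u * X' u - (P' u * X u + P u * X' u)) = P' u * (1 + X u) := by ring
    rw [e] at h
    exact h
  have m1 : MonotoneOn (fun u => T u - P u * X u + P u) (Icc (-1) 1) := by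
    refine monotoneOn_of_deriv_nonneg (convex_Icc _ _)
      (fun x _ => (d1 x).continuousAt.continuousWithinAt)
      (fun x _ => (d1 x).differentiableAt.differentiableWithinAt) ?_
    intro x hx
    rw [interior_Icc] at hx
    rw [(d1 x).deriv]
    have := abs_le.1 (hXb x (abs_le.2 ⟨hx.1.le, hx.2.le⟩))
    exact mul_nonneg (hP' x) (by linarith [this.2])
  have m2 : MonotoneOn (fun u => P u - (T u - P u * X u)) (Icc (-1) 1) := by
    refine monotoneOn_of_deriv_nonneg (convex_Icc _ _)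
      (fun x _ => (d2 x).continuousAt.continuousWithinAt)
      (fun x _ => (d2 x).differentiableAt.differentiableWithinAt) ?_
    intro x hx
    rw [interior_Icc] at hx
    rw [(d2 x).deriv]
    have := abs_le.1 (hXb x (abs_le.2 ⟨hx.1.le, hx.2.le⟩))
    exact mul_nonneg (hP' x) (by linarith [this.1])
  have hu' := abs_le.1 hu
  have k1 := m1 (left_mem_Icc.2 (by norm_num)) ⟨hu'.1, hu'.2⟩ hu'.1
  have k2 := m2 (left_mem_Icc.2 (by norm_num)) ⟨hu'.1, hu'.2⟩ hu'.1
  simp only [hP0, hT0] at k1 k2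
  have b1 := abs_le.1 (hXb u hu)
  have b2 := hPb u
  have b3 : |P u * X u| ≤ 1 := by
    rw [abs_mul]
    have h3 : |P u| ≤ 1 := abs_le.2 ⟨by linarith, b2.2⟩
    have h4 := hXb u hu
    have h5 := abs_nonneg (X u)
    have h6 := abs_nonneg (P u)
    nlinarith only [h4, h3, h5]
  have b4 := abs_le.1 b3
  rw [abs_le]
  constructor <;> linarith

lemma P1_mem (u : ℝ) : 0 ≤ P1 sh u ∧ P1 sh u ≤ 1 := by
  unfold P1
  have h1 := sh.τ_mem (16 * u + 8)
  have h2 := sh.τ_mem (16 * u + -8)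
  constructor <;> linarith

lemma T1_bd {u : ℝ} (hu : |u| ≤ 2) : |T1 sh u| ≤ 2 := by
  rcases le_total |u| 1 with h | h
  · exact prim_bd (X1_hasDeriv sh) (tau_hasDeriv sh) (T1_hasDeriv sh) (dtau_nonneg sh)
      (fun u hu => X1_bd sh hu) sh.τ_mem (sh.τ_low _ le_rfl) (T1_low sh le_rfl) h
  · rcases le_abs.1 h with h1 | h1
    · rw [T1_high sh h1]
      exact hu
    · rw [T1_low sh (by linarith)]
      simp

lemma T2_bd {u : ℝ} (hu : |u| ≤ 2) : |T2 sh u| ≤ 2 := by
  rcases le_total |u| 1 with h | h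
  · exact prim_bd (X1_hasDeriv sh) (P1_hasDeriv sh) (T2_hasDeriv sh)
      (fun u => by
        have h1 := dtau_nonneg sh (16 * u + 8)
        have h2 := dtau_nonneg sh (16 * u + -8)
        positivity)
      (fun u hu => X1_bd sh hu) (P1_mem sh) (regA sh (by norm_num)).2.1
      (regA sh (by norm_num)).2.2.1 h
  · rcases le_abs.1 h with h1 | h1
    · rw [(regE sh (by linarith)).2.2.1, X1_high sh h1]
      exact hu
    · rw [(regA sh (by linarith)).2.2.1]
      simp

/-! ### the two stages -/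

/-- The parameter of the first stage. -/
noncomputable def gg (s : ℝ) : ℝ := Real.smoothTransition (4 * s + 1)

/-- The parameter of the second stage. -/
noncomputable def ll (s : ℝ) : ℝ := Real.smoothTransition (4 * s)

lemma gg_mem (s : ℝ) : 0 ≤ gg s ∧ gg s ≤ 1 :=
  ⟨Real.smoothTransition.nonneg _, Real.smoothTransition.le_one _⟩

lemma ll_mem (s : ℝ) : 0 ≤ ll s ∧ ll s ≤ 1 :=
  ⟨Real.smoothTransition.nonneg _, Real.smoothTransition.le_one _⟩

lemma ll_le (s : ℝ) : ll s ≤ gg s := Real.smoothTransition.monotone (by linarith)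

lemma stages (s : ℝ) : ll s * (1 - gg s) = 0 := by
  rcases le_total s 0 with h | h
  · have : ll s = 0 := Real.smoothTransition.zero_of_nonpos (by linarith)
    rw [this, zero_mul]
  · have : gg s = 1 := Real.smoothTransition.one_of_one_le (by linarith)
    rw [this]; ring

lemma gg_smooth : ContDiff ℝ ∞ gg :=
  Real.smoothTransition.contDiff.comp ((contDiff_const.mul contDiff_id).add contDiff_const)

lemma ll_smooth : ContDiff ℝ ∞ ll :=
  Real.smoothTransition.contDiff.comp (contDiff_const.mul contDiff_id)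

lemma gg_deriv (s : ℝ) : ∃ d, HasDerivAt gg d s ∧ |d| ≤ 64 := by
  obtain ⟨d, h1, h2⟩ := st_deriv (4 * s + 1)
  have h3 : HasDerivAt (fun s : ℝ => 4 * s + 1) 4 s := by
    simpa using ((hasDerivAt_id s).const_mul 4).add_const 1
  refine ⟨d * 4, h1.comp s h3, ?_⟩
  rw [abs_mul, abs_of_pos (by norm_num : (0 : ℝ) < 4)]
  linarith

lemma ll_deriv (s : ℝ) : ∃ d, HasDerivAt ll d s ∧ |d| ≤ 64 := by
  obtain ⟨d, h1, h2⟩ := st_deriv (4 * s)
  have h3 : HasDerivAt (fun s : ℝ => 4 * s) 4 s := by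
    simpa using (hasDerivAt_id s).const_mul 4
  refine ⟨d * 4, h1.comp s h3, ?_⟩
  rw [abs_mul, abs_of_pos (by norm_num : (0 : ℝ) < 4)]
  linarith

/-- The `x`-coordinate. -/
noncomputable def XX (s u : ℝ) : ℝ := (1 - gg s) * u + gg s * X1 sh u

/-- The slope. -/
noncomputable def PP (s u : ℝ) : ℝ := (1 - ll s) * sh.τ u + ll s * P1 sh u

/-- The primitive. -/
noncomputable def TT (s u : ℝ) : ℝ :=
  (1 - gg s) * sh.ΘP u + (gg s - ll s) * T1 sh u + ll s * T2 sh u

/-- The folding profile. -/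
noncomputable def prof : Prof where
  X := XX sh
  P := PP sh
  Θ := TT sh
  Y s u := deriv (fun r => TT sh r u) s - PP sh s u * deriv (fun r => XX sh r u) s

lemma XX_du (s u : ℝ) : HasDerivAt (XX sh s) ((1 - gg s) + gg s * dX1 sh u) u := by
  have h := ((hasDerivAt_id u).const_mul (1 - gg s)).add ((X1_hasDeriv sh u).const_mul (gg s))
  rw [mul_one] at h
  exact h

lemma PP_du (s u : ℝ) : HasDerivAt (PP sh s) ((1 - ll s) * deriv sh.τ u +
    ll s * (8 * deriv sh.τ (16 * u + 8) + 8 * deriv sh.τ (16 * u + -8))) u :=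
  ((tau_hasDeriv sh u).const_mul (1 - ll s)).add ((P1_hasDeriv sh u).const_mul (ll s))

lemma TT_du (s u : ℝ) : HasDerivAt (TT sh s)
    (PP sh s u * ((1 - gg s) + gg s * dX1 sh u)) u := by
  have h := (((sh.ΘP_deriv u).const_mul (1 - gg s)).add
    ((T1_hasDeriv sh u).const_mul (gg s - ll s))).add ((T2_hasDeriv sh u).const_mul (ll s))
  have h1 := stages s
  have e : (1 - gg s) * sh.τ u + (gg s - ll s) * (sh.τ u * dX1 sh u)
      + ll s * (P1 sh u * dX1 sh u) = PP sh s u * ((1 - gg s) + gg s * dX1 sh u) := by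
    unfold PP
    linear_combination (sh.τ u - sh.τ u * dX1 sh u - P1 sh u + P1 sh u * dX1 sh u) * h1
  rw [e] at h
  exact h

lemma cvx {a x y B : ℝ} (ha : 0 ≤ a) (ha' : a ≤ 1) (hx : |x| ≤ B) (hy : |y| ≤ B) :
    |(1 - a) * x + a * y| ≤ B := by
  rw [abs_le] at *
  constructor <;> nlinarith

lemma XX_low (s : ℝ) {u : ℝ} (hu : u ≤ -1) : XX sh s u = u := by
  unfold XX
  rw [X1_low sh hu]
  ring

lemma XX_high (s : ℝ) {u : ℝ} (hu : 1 ≤ u) : XX sh s u = u := by
  unfold XX
  rw [X1_high sh hu]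
  ring

lemma PP_low (s : ℝ) {u : ℝ} (hu : u ≤ -1) : PP sh s u = 0 := by
  unfold PP
  rw [sh.τ_low u hu, (regA sh (by linarith)).2.1]
  ring

lemma PP_high (s : ℝ) {u : ℝ} (hu : 1 ≤ u) : PP sh s u = 1 := by
  unfold PP
  rw [sh.τ_high u hu, (regE sh (by linarith)).2.1]
  ring

lemma PP_mem (s u : ℝ) : 0 ≤ PP sh s u ∧ PP sh s u ≤ 1 := by
  unfold PP
  have h1 := ll_mem s
  have h2 := sh.τ_mem u
  have h3 := P1_mem sh u
  constructor <;> nlinarith

lemma TT_bd (s : ℝ) {u : ℝ} (hu : |u| ≤ 2) : |TT sh s u| ≤ 2 := by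
  unfold TT
  have h1 := abs_le.1 (sh.ΘP_bd u hu)
  have h2 := abs_le.1 (T1_bd sh hu)
  have h3 := abs_le.1 (T2_bd sh hu)
  have h4 := gg_mem s
  have h5 := ll_mem s
  have h6 := ll_le s
  rw [abs_le]
  constructor <;> nlinarith [mul_nonneg (sub_nonneg.2 h4.2) (sub_nonneg.2 h1.2),
    mul_nonneg (sub_nonneg.2 h6) (sub_nonneg.2 h2.2), mul_nonneg h5.1 (sub_nonneg.2 h3.2),
    mul_nonneg (sub_nonneg.2 h4.2) (sub_nonneg.2 h1.1),
    mul_nonneg (sub_nonneg.2 h6) (sub_nonneg.2 h2.1), mul_nonneg h5.1 (sub_nonneg.2 h3.1)]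

lemma X1_sub_bd (u : ℝ) : |X1 sh u - u| ≤ 2 := by
  rcases le_total |u| 1 with h | h
  · have h1 := abs_le.1 (X1_bd sh h)
    have h2 := abs_le.1 h
    rw [abs_le]
    constructor <;> linarith
  · rcases le_abs.1 h with h1 | h1
    · rw [X1_high sh h1]
      simp
    · rw [X1_low sh (by linarith)]
      simp

lemma YY_bd (s : ℝ) {u : ℝ} (hu : |u| ≤ 2) :
    |deriv (fun r => TT sh r u) s - PP sh s u * deriv (fun r => XX sh r u) s| ≤ CY := by
  obtain ⟨d, hd, hd'⟩ := gg_deriv s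
  obtain ⟨e, he, he'⟩ := ll_deriv s
  have h1 : HasDerivAt (fun r => TT sh r u) (d * (T1 sh u - sh.ΘP u) + e * (T2 sh u - T1 sh u))
      s := by
    have h := (((hd.const_sub 1).mul_const (sh.ΘP u)).add ((hd.sub he).mul_const (T1 sh u))).add
      (he.mul_const (T2 sh u))
    have e1 : -d * sh.ΘP u + (d - e) * T1 sh u + e * T2 sh u =
      d * (T1 sh u - sh.ΘP u) + e * (T2 sh u - T1 sh u) := by ring
    rw [e1] at h
    exact h
  have h2 : HasDerivAt (fun r => XX sh r u) (d * (X1 sh u - u)) s := by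
    have h := ((hd.const_sub 1).mul_const u).add (hd.mul_const (X1 sh u))
    have e1 : -d * u + d * X1 sh u = d * (X1 sh u - u) := by ring
    rw [e1] at h
    exact h
  rw [h1.deriv, h2.deriv]
  have a1 := sh.ΘP_bd u hu
  have a2 := T1_bd sh hu
  have a3 := T2_bd sh hu
  have a4 := X1_sub_bd sh u
  have a5 := PP_mem sh s u
  have b1 : |T1 sh u - sh.ΘP u| ≤ 4 := (abs_sub _ _).trans (by linarith)
  have b2 : |T2 sh u - T1 sh u| ≤ 4 := (abs_sub _ _).trans (by linarith)
  have c1 : |d * (T1 sh u - sh.ΘP u)| ≤ 64 * 4 := by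
    rw [abs_mul]
    exact mul_le_mul hd' b1 (abs_nonneg _) (by norm_num)
  have c2 : |e * (T2 sh u - T1 sh u)| ≤ 64 * 4 := by
    rw [abs_mul]
    exact mul_le_mul he' b2 (abs_nonneg _) (by norm_num)
  have c3 : |d * (X1 sh u - u)| ≤ 64 * 2 := by
    rw [abs_mul]
    exact mul_le_mul hd' a4 (abs_nonneg _) (by norm_num)
  have c4 : |PP sh s u * (d * (X1 sh u - u))| ≤ 1 * (64 * 2) := by
    rw [abs_mul]
    exact mul_le_mul (by rw [abs_of_nonneg a5.1]; exact a5.2) c3 (abs_nonneg _) (by norm_num)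
  unfold CY
  rw [abs_le] at *
  constructor <;> linarith [c1.1, c1.2, c2.1, c2.2, c4.1, c4.2]

/-! ### immersion and injectivity -/

lemma mono_inj {P : ℝ → ℝ} {a b : ℝ} (hm : StrictMonoOn P (Icc a b)) (hlow : ∀ u ≤ a, P u = P a)
    (hhigh : ∀ u, b ≤ u → P u = P b) {u v : ℝ} (huv : u < v) (h : P u = P v)
    (hab : a < b) : v ≤ a ∨ b ≤ u := by
  by_contra hcon
  push Not at hcon
  obtain ⟨h1, h2⟩ := hcon
  have k1 : P u = P (max u a) := by
    rcases le_total u a with h3 | h3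
    · rw [max_eq_right h3, hlow u h3]
    · rw [max_eq_left h3]
  have k2 : P v = P (min v b) := by
    rcases le_total v b with h3 | h3
    · rw [min_eq_left h3]
    · rw [min_eq_right h3, hhigh v h3]
  have k3 : max u a < min v b := by
    rw [max_lt_iff, lt_min_iff, lt_min_iff]
    exact ⟨⟨huv, h2⟩, ⟨h1, hab⟩⟩
  have k4 : P (max u a) < P (min v b) :=
    hm ⟨le_max_right _ _, (max_lt_iff.2 ⟨h2, hab⟩).le⟩
      ⟨(lt_min_iff.2 ⟨h1, hab⟩).le, min_le_right _ _⟩ k3
  rw [← k1, ← k2, h] at k4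
  exact lt_irrefl _ k4

lemma PP_strictMono {s : ℝ} (hs : ll s < 1) : StrictMonoOn (PP sh s) (Icc (-1) 1) := by
  refine strictMonoOn_of_deriv_pos (convex_Icc _ _)
    (fun x _ => (PP_du sh s x).continuousAt.continuousWithinAt) ?_
  intro x hx
  rw [interior_Icc] at hx
  rw [(PP_du sh s x).deriv]
  have h1 := sh.τ_deriv x hx.1 hx.2
  have h2 := dtau_nonneg sh (16 * x + 8)
  have h3 := dtau_nonneg sh (16 * x + -8)
  have h4 := (ll_mem s).1
  have h5 : 0 < (1 - ll s) * deriv sh.τ x := mul_pos (by linarith) h1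
  have h6 : 0 ≤ ll s * (8 * deriv sh.τ (16 * x + 8) + 8 * deriv sh.τ (16 * x + -8)) := by
    positivity
  linarith

lemma gg_one {s : ℝ} (hs : ll s = 1) : gg s = 1 := by
  have := stages s
  rw [hs] at this
  linarith

lemma imm (s u : ℝ) (hu : |u| < 1) : deriv (XX sh s) u ≠ 0 ∨ deriv (PP sh s) u ≠ 0 := by
  rw [abs_lt] at hu
  rw [(XX_du sh s u).deriv, (PP_du sh s u).deriv]
  have h2 := dtau_nonneg sh (16 * u + 8)
  have h3 := dtau_nonneg sh (16 * u + -8)
  have h4 := ll_mem s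
  rcases lt_or_eq_of_le h4.2 with h | h
  · right
    have h1 := sh.τ_deriv u hu.1 hu.2
    have h5 : 0 < (1 - ll s) * deriv sh.τ u := mul_pos (by linarith) h1
    have h6 : 0 ≤ ll s * (8 * deriv sh.τ (16 * u + 8) + 8 * deriv sh.τ (16 * u + -8)) :=
      mul_nonneg h4.1 (by positivity)
    exact (by linarith : 0 < (1 - ll s) * deriv sh.τ u +
      ll s * (8 * deriv sh.τ (16 * u + 8) + 8 * deriv sh.τ (16 * u + -8))).ne'
  · rw [gg_one h, h]
    rcases le_or_gt u (-(9 / 16)) with k1 | k1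
    · left
      have := dX1_low sh k1
      linarith
    rcases lt_or_ge u (-(7 / 16)) with k2 | k2
    · right
      have := sh.τ_deriv (16 * u + 8) (by linarith) (by linarith)
      linarith
    rcases le_or_gt u (7 / 16) with k3 | k3
    · left
      have := dX1_mid sh k2 k3
      linarith
    rcases lt_or_ge u (9 / 16) with k4 | k4
    · right
      have := sh.τ_deriv (16 * u + -8) (by linarith) (by linarith)
      linarith
    · left
      have := dX1_high sh k4
      linarith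

lemma P1_monoB : StrictMonoOn (P1 sh) (Icc (-(9 / 16)) (-(7 / 16))) := by
  refine strictMonoOn_of_deriv_pos (convex_Icc _ _)
    (fun x _ => (P1_hasDeriv sh x).continuousAt.continuousWithinAt) ?_
  intro x hx
  rw [interior_Icc] at hx
  rw [(P1_hasDeriv sh x).deriv]
  have h1 := sh.τ_deriv (16 * x + 8) (by linarith [hx.1]) (by linarith [hx.2])
  have h3 := dtau_nonneg sh (16 * x + -8)
  linarith

lemma P1_monoD : StrictMonoOn (P1 sh) (Icc (7 / 16) (9 / 16)) := by
  refine strictMonoOn_of_deriv_pos (convex_Icc _ _)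
    (fun x _ => (P1_hasDeriv sh x).continuousAt.continuousWithinAt) ?_
  intro x hx
  rw [interior_Icc] at hx
  rw [(P1_hasDeriv sh x).deriv]
  have h1 := sh.τ_deriv (16 * x + -8) (by linarith [hx.1]) (by linarith [hx.2])
  have h3 := dtau_nonneg sh (16 * x + 8)
  linarith

lemma P1_flatA {u : ℝ} (hu : u ≤ -(9 / 16)) : P1 sh u = 0 := by
  unfold P1
  rw [sh.τ_low _ (by linarith), sh.τ_low _ (by linarith)]
  norm_num

lemma P1_flatC {u : ℝ} (hu : -(7 / 16) ≤ u) (hu' : u ≤ 7 / 16) : P1 sh u = 1 / 2 := by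
  unfold P1
  rw [sh.τ_high _ (by linarith), sh.τ_low _ (by linarith)]
  norm_num

lemma P1_flatE {u : ℝ} (hu : 9 / 16 ≤ u) : P1 sh u = 1 := by
  unfold P1
  rw [sh.τ_high _ (by linarith), sh.τ_high _ (by linarith)]
  norm_num

lemma P1_mono : Monotone (P1 sh) := by
  refine monotone_of_deriv_nonneg (fun u => (P1_hasDeriv sh u).differentiableAt) fun u => ?_
  rw [(P1_hasDeriv sh u).deriv]
  have h2 := dtau_nonneg sh (16 * u + 8)
  have h3 := dtau_nonneg sh (16 * u + -8)
  positivity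

lemma inj_lt (s u v : ℝ) (huv : u < v) (hX : XX sh s u = XX sh s v)
    (hP : PP sh s u = PP sh s v) : False := by
  have h4 := ll_mem s
  rcases lt_or_eq_of_le h4.2 with h | h
  · rcases mono_inj (PP_strictMono sh h) (fun u hu => by rw [PP_low sh s hu, PP_low sh s le_rfl])
      (fun u hu => by rw [PP_high sh s hu, PP_high sh s le_rfl]) huv hP (by norm_num) with h1 | h1
    · rw [XX_low sh s (by linarith : u ≤ -1), XX_low sh s h1] at hX
      linarith
    · rw [XX_high sh s h1, XX_high sh s (by linarith : 1 ≤ v)] at hX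
      linarith
  · have e1 : XX sh s = X1 sh := by
      funext w
      unfold XX
      rw [gg_one h]
      ring
    have e2 : PP sh s = P1 sh := by
      funext w
      unfold PP
      rw [h]
      ring
    rw [e1] at hX
    rw [e2] at hP
    -- the level of `P1`
    rcases le_or_gt v (-(9 / 16)) with k1 | k1
    · exact ((X1_monoA sh) (by simp only [mem_Iic]; linarith) k1 huv).ne hX
    rcases le_or_gt (9 / 16) u with k2 | k2
    · exact ((X1_monoE sh) k2 (by simp only [mem_Ici]; linarith) huv).ne hX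
    rcases le_or_gt (-(7 / 16)) u with k3 | k3
    · rcases le_or_gt v (7 / 16) with k4 | k4
      · exact ((X1_antiC sh) ⟨k3, by linarith⟩ ⟨by linarith, k4⟩ huv).ne' hX
      · -- `u ∈ [-7/16, 9/16)`, `v > 7/16`
        have a1 : P1 sh (max u (7 / 16)) < P1 sh (min v (9 / 16)) := by
          apply P1_monoD sh
          · exact ⟨le_max_right _ _, (max_lt_iff.2 ⟨k2, by norm_num⟩).le⟩
          · exact ⟨(lt_min_iff.2 ⟨k4, by norm_num⟩).le, min_le_right _ _⟩
          · rw [max_lt_iff, lt_min_iff, lt_min_iff]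
            exact ⟨⟨huv, k2⟩, ⟨k4, by norm_num⟩⟩
        have a2 := P1_mono sh (le_max_left u (7 / 16))
        have a3 := P1_mono sh (min_le_left v (9 / 16))
        linarith
    · -- `u < -7/16`, `v > -9/16`
      have a1 : P1 sh (max u (-(9 / 16))) < P1 sh (min v (-(7 / 16))) := by
        apply P1_monoB sh
        · exact ⟨le_max_right _ _, (max_lt_iff.2 ⟨k3, by norm_num⟩).le⟩
        · exact ⟨(lt_min_iff.2 ⟨k1, by norm_num⟩).le, min_le_right _ _⟩
        · rw [max_lt_iff, lt_min_iff, lt_min_iff]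
          exact ⟨⟨huv, k3⟩, ⟨k1, by norm_num⟩⟩
      have a2 := P1_mono sh (le_max_left u (-(9 / 16)))
      have a3 := P1_mono sh (min_le_left v (-(7 / 16)))
      linarith

lemma inj (s u v : ℝ) (hX : XX sh s u = XX sh s v)
    (hP : PP sh s u = PP sh s v) : u = v := by
  rcases lt_trichotomy u v with h | h | h
  · exact (inj_lt sh s u v h hX hP).elim
  · exact h
  · exact (inj_lt sh s v u h hX.symm hP.symm).elim

/-! ### the fields -/

lemma XX_smooth : ContDiff ℝ ∞ (fun a : ℝ × ℝ => XX sh a.1 a.2) :=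
  ((contDiff_const.sub (gg_smooth.comp contDiff_fst)).mul contDiff_snd).add
    ((gg_smooth.comp contDiff_fst).mul ((X1_smooth sh).comp contDiff_snd))

lemma PP_smooth : ContDiff ℝ ∞ (fun a : ℝ × ℝ => PP sh a.1 a.2) :=
  ((contDiff_const.sub (ll_smooth.comp contDiff_fst)).mul (sh.τ_smooth.comp contDiff_snd)).add
    ((ll_smooth.comp contDiff_fst).mul ((P1_smooth sh).comp contDiff_snd))

lemma TT_smooth : ContDiff ℝ ∞ (fun a : ℝ × ℝ => TT sh a.1 a.2) :=
  (((contDiff_const.sub (gg_smooth.comp contDiff_fst)).mul (sh.ΘP_smooth.comp contDiff_snd)).add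
    (((gg_smooth.comp contDiff_fst).sub (ll_smooth.comp contDiff_fst)).mul
      ((T1_smooth sh).comp contDiff_snd))).add
    ((ll_smooth.comp contDiff_fst).mul ((T2_smooth sh).comp contDiff_snd))

lemma prof_ok (J : Set ℝ) (D : ℝ → ℝ) (hD : ∀ s ∈ J, D s ≠ 0) : ProfOK J .P D (prof sh) where
  X_smooth := (XX_smooth sh).contDiffOn
  P_smooth := (PP_smooth sh).contDiffOn
  Θ_smooth := (TT_smooth sh).contDiffOn
  dΘ := by
    intro s _ u
    show HasDerivAt (TT sh s) (PP sh s u * deriv (XX sh s) u) u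
    rw [(XX_du sh s u).deriv]
    exact TT_du sh s u
  Y_eq := fun s _ u => rfl
  bd := by
    intro s _
    refine ⟨?_, ?_, ?_, ?_, ?_, ?_⟩
    · intro u hu
      refine ⟨XX_low sh s hu, PP_low sh s hu, ?_⟩
      show TT sh s u = 0
      unfold TT
      rw [sh.ΘP_low u hu, T1_low sh hu, (regA sh (by linarith)).2.2.1]
      ring
    · intro u hu
      refine ⟨XX_high sh s hu, PP_high sh s hu, ?_⟩
      show TT sh s u = u
      unfold TT
      rw [sh.ΘP_high u hu, T1_high sh hu, (regE sh (by linarith)).2.2.1, X1_high sh hu]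
      ring
    · intro u hu
      exact cvx (gg_mem s).1 (gg_mem s).2 hu (X1_bd sh hu)
    · exact PP_mem sh s
    · intro u hu
      exact TT_bd sh s hu
    · intro u hu
      exact YY_bd sh s hu
  imm := by
    intro s hs u hu
    rcases imm sh s u hu with h | h
    · exact Or.inl h
    · exact Or.inr (mul_ne_zero (hD s hs) h)
  inj := by
    intro s hs u u' _ _ hX hP
    exact inj sh s u u' hX (mul_left_cancel₀ (hD s hs) hP)

lemma gg_late {s : ℝ} (hs : 1 / 4 ≤ s) : gg s = 1 :=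
  Real.smoothTransition.one_of_one_le (by linarith)

lemma ll_late {s : ℝ} (hs : 1 / 4 ≤ s) : ll s = 1 :=
  Real.smoothTransition.one_of_one_le (by linarith)

lemma late_eq {s : ℝ} (hs : 1 / 4 ≤ s) (u : ℝ) :
    XX sh s u = X1 sh u ∧ PP sh s u = P1 sh u ∧ TT sh s u = T2 sh u := by
  unfold XX PP TT
  rw [gg_late hs, ll_late hs]
  refine ⟨by ring, by ring, by ring⟩

lemma late_set (x p θ : ℝ) :
    (∃ u, |u| ≤ 2 ∧ X1 sh u = x ∧ P1 sh u = p ∧ T2 sh u = θ) ↔ FoldSet sh x p θ := by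
  have hc := (X1_diff sh).continuous
  constructor
  · rintro ⟨u, hu, rfl, rfl, rfl⟩
    rw [abs_le] at hu
    rcases le_total u (-(5 / 8)) with h1 | h1
    · left
      have e1 := X1_low sh (u := -2) (by norm_num)
      have h2 : X1 sh (-2) ≤ X1 sh u :=
        (X1_monoA sh).monotoneOn (by norm_num) (by simp only [mem_Iic]; linarith) hu.1
      have h3 : X1 sh u ≤ X1 sh (-(5 / 8)) :=
        (X1_monoA sh).monotoneOn (by simp only [mem_Iic]; linarith) (by norm_num) h1
      rw [e1] at h2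
      rw [X1_a] at h3
      exact ⟨h2, h3, (regA sh h1).2.1, (regA sh h1).2.2.1⟩
    rcases le_total u (-(3 / 8)) with h2 | h2
    · right; left
      obtain ⟨k1, -, k2, k3, -⟩ := regB sh h1 h2
      refine ⟨16 * u + 8, ?_, k1, k2, k3⟩
      rw [abs_le]; constructor <;> linarith
    rcases le_total u (3 / 8) with h3 | h3
    · right; right; left
      have h4 : X1 sh u ≤ X1 sh (-(3 / 8)) :=
        (X1_antiC sh).antitoneOn (by norm_num) (by constructor <;> linarith) h2
      have h5 : X1 sh (3 / 8) ≤ X1 sh u :=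
        (X1_antiC sh).antitoneOn (by constructor <;> linarith) (by norm_num) h3
      rw [X1_b] at h4
      rw [X1_c] at h5
      obtain ⟨-, k2, k3, -⟩ := regC sh h2 h3
      exact ⟨h5, h4, k2, k3⟩
    rcases le_total u (5 / 8) with h4 | h4
    · right; right; right; left
      obtain ⟨k1, -, k2, k3, -⟩ := regD sh h3 h4
      refine ⟨16 * u + -8, ?_, k1, k2, k3⟩
      rw [abs_le]; constructor <;> linarith
    · right; right; right; right
      have e2 := X1_high sh (u := 2) (by norm_num)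
      have h5 : X1 sh (5 / 8) ≤ X1 sh u :=
        (X1_monoE sh).monotoneOn (by norm_num) (by simp only [mem_Ici]; linarith) h4
      have h6 : X1 sh u ≤ X1 sh 2 :=
        (X1_monoE sh).monotoneOn (by simp only [mem_Ici]; linarith) (by norm_num) hu.2
      rw [X1_d] at h5
      rw [e2] at h6
      obtain ⟨-, k2, k3, -⟩ := regE sh h4
      exact ⟨h5, h6, k2, k3⟩
  · rintro (⟨h1, h2, rfl, rfl⟩ | ⟨u, hu, rfl, rfl, rfl⟩ | ⟨h1, h2, rfl, rfl⟩ |
      ⟨u, hu, h1, rfl, h2⟩ | ⟨h1, h2, rfl, rfl⟩)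
    · have hI := intermediate_value_Icc (by norm_num : (-2 : ℝ) ≤ -(5 / 8)) hc.continuousOn
      rw [X1_a, X1_low sh (u := -2) (by norm_num)] at hI
      obtain ⟨u, hu, rfl⟩ := hI ⟨h1, h2⟩
      obtain ⟨-, k2, k3, -⟩ := regA sh hu.2
      exact ⟨u, by rw [abs_le]; constructor <;> linarith [hu.1, hu.2], rfl, k2, k3⟩
    · rw [abs_le] at hu
      obtain ⟨k1, -, k2, k3, -⟩ := regB sh (u := (u - 8) / 16) (by linarith) (by linarith)
      have e : 16 * ((u - 8) / 16) + 8 = u := by ring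
      rw [e] at k1 k2 k3
      exact ⟨(u - 8) / 16, by rw [abs_le]; constructor <;> linarith, k1, k2, k3⟩
    · have hI := intermediate_value_Icc' (by norm_num : (-(3 / 8) : ℝ) ≤ 3 / 8) hc.continuousOn
      rw [X1_b, X1_c] at hI
      obtain ⟨u, hu, rfl⟩ := hI ⟨h1, h2⟩
      obtain ⟨-, k2, k3, -⟩ := regC sh hu.1 hu.2
      exact ⟨u, by rw [abs_le]; constructor <;> linarith [hu.1, hu.2], rfl, k2, k3⟩
    · rw [abs_le] at hu
      obtain ⟨k1, -, k2, k3, -⟩ := regD sh (u := (u + 8) / 16) (by linarith) (by linarith)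
      have e : 16 * ((u + 8) / 16) + -8 = u := by ring
      rw [e] at k1 k2 k3
      refine ⟨(u + 8) / 16, by rw [abs_le]; constructor <;> linarith, k1.trans h1.symm, k2, ?_⟩
      rw [k3, h2, h1, k1]
    · have hI := intermediate_value_Icc (by norm_num : (5 / 8 : ℝ) ≤ 2) hc.continuousOn
      rw [X1_d, X1_high sh (u := 2) (by norm_num)] at hI
      obtain ⟨u, hu, rfl⟩ := hI ⟨h1, h2⟩
      obtain ⟨-, k2, k3, -⟩ := regE sh hu.1
      exact ⟨u, by rw [abs_le]; constructor <;> linarith [hu.1, hu.2], rfl, k2, k3⟩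

end FPR

/-- FPR: a folding profile exists. -/
theorem t_FPR : Stmt_FPR := by
  intro sh
  refine ⟨FPR.prof sh, ?_, ?_, ?_, ?_⟩
  · intro J D _ hD
    exact FPR.prof_ok sh J D hD
  · intro s hs u
    have h1 : FPR.gg s = 0 := Real.smoothTransition.zero_of_nonpos (by linarith)
    have h2 : FPR.ll s = 0 := Real.smoothTransition.zero_of_nonpos (by linarith)
    show FPR.XX sh s u = u ∧ FPR.PP sh s u = sh.τ u ∧ FPR.TT sh s u = sh.ΘP u
    unfold FPR.XX FPR.PP FPR.TT
    rw [h1, h2]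
    refine ⟨by ring, by ring, by ring⟩
  · intro s hs u
    have h1 := FPR.late_eq sh hs u
    have h2 := FPR.late_eq sh (by norm_num : (1 / 4 : ℝ) ≤ 1) u
    exact ⟨h1.1.trans h2.1.symm, h1.2.1.trans h2.2.1.symm, h1.2.2.trans h2.2.2.symm⟩
  · intro x p θ
    rw [← FPR.late_set sh x p θ]
    refine exists_congr fun u => ?_
    have h2 := FPR.late_eq sh (by norm_num : (1 / 4 : ℝ) ≤ 1) u
    show |u| ≤ 2 ∧ FPR.XX sh 1 u = x ∧ FPR.PP sh 1 u = p ∧ FPR.TT sh 1 u = θ ↔ _
    rw [h2.1, h2.2.1, h2.2.2]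

end LCA


end

section

/-!
# SAM: the first part of the check of a motion
-/

namespace LCA

open Set Filter
open scoped ContDiff Topology

namespace SAM

/-- The facts about one vertex. -/
structure VF (T : ℤ) (a b : VS) : Prop where
  ty : a.ty = b.ty
  ea : a.ea = b.ea
  eb : a.eb = b.eb
  w : a.w = b.w
  x : b.x = a.x + T * b.dx
  F : b.F = a.F + T * b.dF
  tip : a.ty = 0 ∨ (a.pa < a.pb ∧ b.pa < b.pb) ∨ (a.pb < a.pa ∧ b.pb < b.pa)

theorem vf (hCBL : Stmt_CBL) {T : ℤ} {a b : VS} (h : smV T a b = true) : VF T a b := by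
  obtain ⟨hb, ho, hl, he, -⟩ := hCBL
  unfold smV at h
  rw [hb, hb, hb, hb, hb, hb, ho, ho, hb, hb, he, he, he, hl, hl, hl, hl] at h
  obtain ⟨h1, h2, h3, h4, h5, h6, h7⟩ := h
  refine ⟨Nat.eq_of_beq_eq_true h1, Nat.eq_of_beq_eq_true h2, Nat.eq_of_beq_eq_true h3, h4, h5, h6,
    ?_⟩
  rcases h7 with h7 | h7
  · exact Or.inl (Nat.eq_of_beq_eq_true h7)
  · exact Or.inr h7

end SAM

theorem t_SAM (hCBL : Stmt_CBL) : Stmt_SAM := by
  intro m n T A B fA fB vA vB h
  have hCBL' := hCBL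
  obtain ⟨hb, ho, hl, he, -, -, -, -, -, h2, -, -⟩ := hCBL'
  unfold goOK at h
  rw [hb, hb, hb, hb, hb] at h
  obtain ⟨h0, hV, hE, -⟩ := h
  rw [hl] at h0
  have hV' : ∀ i, i < n + 1 → SAM.VF T (A.v i) (B.v i) := by
    intro i hi
    refine SAM.vf hCBL ?_
    exact (h2 VS VS vs0 vs0 (smV T) A.vs B.vs).mp hV i (by rw [fA.lenV]; exact hi)
      (by rw [fB.lenV]; exact hi)
  have hE' : ∀ i, i < m + 1 → (A.e i).lf = (B.e i).lf ∧ (A.e i).rt = (B.e i).rt := by
    intro i hi
    have h1 := (h2 ES ES es0 es0 smE A.es B.es).mp hE i (by rw [fA.lenE]; exact hi)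
      (by rw [fB.lenE]; exact hi)
    unfold smE at h1
    rw [hb] at h1
    exact ⟨Nat.eq_of_beq_eq_true h1.1, Nat.eq_of_beq_eq_true h1.2⟩
  have hcb : A.cb m n = B.cb m n := by
    unfold SD.cb
    rw [Comb.mk.injEq]
    refine ⟨?_, ?_, ?_, ?_, ?_⟩
    · funext e
      rw [(hE' e e.2).1]
    · funext e
      rw [(hE' e e.2).2]
    · funext i
      rw [(hV' i i.2).ty]
    · funext i
      rw [(hV' i i.2).ea]
    · funext i
      rw [(hV' i i.2).eb]
  refine ⟨by exact_mod_cast h0, hcb, ?_, ?_, ?_⟩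
  · funext i
    show ((A.v i).w : ℝ) = ((B.v i).w : ℝ)
    rw [(hV' i i.2).w]
  · refine Prod.ext ?_ ?_
    · funext i
      show ((B.v i).x : ℝ) = ((A.v i).x : ℝ) + (T : ℝ) * ((B.v i).dx : ℝ)
      exact_mod_cast (hV' i i.2).x
    · funext i
      show ((B.v i).F : ℝ) = ((A.v i).F : ℝ) + (T : ℝ) * ((B.v i).dF : ℝ)
      exact_mod_cast (hV' i i.2).F
  · intro i hi
    have hty : (A.v i).ty ≠ 0 := by
      intro h3
      apply hi
      show tyOf (A.v i).ty = Ty.P
      rw [h3]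
      rfl
    have hA : (A.cb m n).dl (A.Q n) i = ((A.v i).pb : ℝ) - ((A.v i).pa : ℝ) := by
      unfold Comb.dl
      rw [vA.peb, vA.pea]
    have hB : (A.cb m n).dl (B.Q n) i = ((B.v i).pb : ℝ) - ((B.v i).pa : ℝ) := by
      rw [hcb]
      unfold Comb.dl
      rw [vB.peb, vB.pea]
    rw [hA, hB]
    rcases (hV' i i.2).tip with h3 | ⟨h3, h4⟩ | ⟨h3, h4⟩
    · exact absurd h3 hty
    · left
      exact ⟨sub_pos.mpr (by exact_mod_cast h3), sub_pos.mpr (by exact_mod_cast h4)⟩
    · right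
      exact ⟨sub_neg.mpr (by exact_mod_cast h3), sub_neg.mpr (by exact_mod_cast h4)⟩

end LCA


end

section

/-!
# FGP: fingers of the polygons
-/

namespace LHE

open Set LG LH

namespace FGP

theorem cx (Λ : LC.LegKnot) : Continuous Λ.x :=
  continuous_fst.comp Λ.smooth.continuous

theorem cz (Λ : LC.LegKnot) : Continuous (zz Λ) :=
  (continuous_snd.comp continuous_snd).comp Λ.smooth.continuous

/-- The function which measures the gap. -/
noncomputable def H (Λ : LC.LegKnot) (s : Bool) (τ : ℝ) (p : ℝ × ℝ × ℝ) : ℝ :=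
  max |Λ.x p.1 - Λ.x p.2.2| (max |Λ.x p.2.1 - Λ.x p.2.2| (max (τ - sn s * Λ.x p.2.2)
    (max (zz Λ p.2.2 - max (zz Λ p.1) (zz Λ p.2.1)) (min (zz Λ p.1) (zz Λ p.2.1) - zz Λ p.2.2))))

theorem cH (Λ : LC.LegKnot) (s : Bool) (τ : ℝ) : Continuous (H Λ s τ) := by
  have h1 : Continuous fun p : ℝ × ℝ × ℝ => Λ.x p.1 := (cx Λ).comp continuous_fst
  have h2 : Continuous fun p : ℝ × ℝ × ℝ => Λ.x p.2.1 :=
    (cx Λ).comp (continuous_fst.comp continuous_snd)
  have h3 : Continuous fun p : ℝ × ℝ × ℝ => Λ.x p.2.2 :=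
    (cx Λ).comp (continuous_snd.comp continuous_snd)
  have k1 : Continuous fun p : ℝ × ℝ × ℝ => zz Λ p.1 := (cz Λ).comp continuous_fst
  have k2 : Continuous fun p : ℝ × ℝ × ℝ => zz Λ p.2.1 :=
    (cz Λ).comp (continuous_fst.comp continuous_snd)
  have k3 : Continuous fun p : ℝ × ℝ × ℝ => zz Λ p.2.2 :=
    (cz Λ).comp (continuous_snd.comp continuous_snd)
  exact (h1.sub h3).abs.max ((h2.sub h3).abs.max ((continuous_const.sub
    (continuous_const.mul h3)).max ((k3.sub (k1.max k2)).max ((k1.min k2).sub k3))))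

theorem H_pos {Λ : LC.LegKnot} {s : Bool} {a c d τ : ℝ} (h : FgS Λ s a c d τ) :
    ∀ p ∈ Icc a c ×ˢ (Icc c d ×ˢ Icc d (a + 1)), 0 < H Λ s τ p := by
  rintro ⟨u₁, u₂, u⟩ ⟨h1, h2, h3⟩
  by_contra hn
  rw [not_lt] at hn
  unfold H at hn
  simp only [max_le_iff] at hn
  obtain ⟨e1, e2, e3, e4, e5⟩ := hn
  have f1 := abs_nonpos_iff.1 e1
  have f2 := abs_nonpos_iff.1 e2
  refine h.gap u₁ h1 u₂ h2 u h3 (by linarith) (by linarith) (by linarith) ?_
  exact ⟨sub_nonpos.1 e5, sub_nonpos.1 e4⟩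

theorem key {Λ : LC.LegKnot} {s : Bool} {a c d τ : ℝ} (h : FgS Λ s a c d τ) :
    ∃ κ > 0, ∀ u₁ ∈ Icc a c, ∀ u₂ ∈ Icc c d, ∀ u ∈ Icc d (a + 1), κ ≤ H Λ s τ (u₁, u₂, u) := by
  have hc : IsCompact (Icc a c ×ˢ (Icc c d ×ˢ Icc d (a + 1))) :=
    isCompact_Icc.prod (isCompact_Icc.prod isCompact_Icc)
  obtain ⟨κ, h1, h2⟩ := hc.exists_forall_le' (cH Λ s τ).continuousOn (H_pos h)
  exact ⟨κ, h1, fun u₁ m1 u₂ m2 u m3 => h2 _ ⟨m1, m2, m3⟩⟩

/-- Uniform continuity on a compact interval. -/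
theorem unif (Λ : LC.LegKnot) (a ε : ℝ) (hε : 0 < ε) : ∃ ρ > 0, ∀ u ∈ Icc (a - 2) (a + 3),
    ∀ v ∈ Icc (a - 2) (a + 3), |u - v| < ρ → |Λ.x u - Λ.x v| < ε ∧ |zz Λ u - zz Λ v| < ε := by
  have h1 := isCompact_Icc.uniformContinuousOn_of_continuous
    ((cx Λ).continuousOn (s := Icc (a - 2) (a + 3)))
  have h2 := isCompact_Icc.uniformContinuousOn_of_continuous
    ((cz Λ).continuousOn (s := Icc (a - 2) (a + 3)))
  rw [Metric.uniformContinuousOn_iff] at h1 h2
  obtain ⟨ρ₁, r1, k1⟩ := h1 ε hε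
  obtain ⟨ρ₂, r2, k2⟩ := h2 ε hε
  refine ⟨min ρ₁ ρ₂, lt_min r1 r2, fun u hu v hv huv => ?_⟩
  have m1 := k1 u hu v hv (by rw [Real.dist_eq]; exact huv.trans_le (min_le_left _ _))
  have m2 := k2 u hu v hv (by rw [Real.dist_eq]; exact huv.trans_le (min_le_right _ _))
  rw [Real.dist_eq] at m1 m2
  exact ⟨m1, m2⟩

theorem abs_sn (s : Bool) (x : ℝ) : |sn s * x| = |x| := by
  rcases sn_or s with h | h
  · rw [h, one_mul]
  · rw [h, neg_one_mul, abs_neg]

/-- Monotone on an interval of integers from the successor steps. -/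
theorem mono_int {f : ℤ → ℝ} {p q : ℤ} (h : ∀ i, p ≤ i → i < q → f i ≤ f (i + 1)) :
    MonotoneOn f (Icc p q) := by
  refine monotoneOn_of_le_add_one ordConnected_Icc fun i _ hi hi' => h i hi.1 ?_
  have := hi'.2
  omega

theorem anti_int {f : ℤ → ℝ} {p q : ℤ} (h : ∀ i, p ≤ i → i < q → f (i + 1) ≤ f i) :
    AntitoneOn f (Icc p q) := by
  refine antitoneOn_of_add_one_le ordConnected_Icc fun i _ hi hi' => h i hi.1 ?_
  have := hi'.2
  omega

/-- The index is close to the parameter. -/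
theorem near {A : ℤ} {a n : ℝ} (hn : 0 < n) (h : |(A : ℝ) - a * n| ≤ 1) :
    |(A : ℝ) / n - a| ≤ 1 / n := by
  have e : (A : ℝ) / n - a = ((A : ℝ) - a * n) / n := by
    field_simp
  rw [e, abs_div, abs_of_pos hn]
  exact div_le_div_of_nonneg_right h hn.le

/-- The distance of the parameter of an edge from the corrected parameter. -/
theorem mx {e a n : ℝ} (hn : 0 < n) (h : a * n - 1 ≤ e) : |max a (e / n) - e / n| ≤ 1 / n := by
  have h1 : a - 1 / n ≤ e / n := by
    rw [sub_le_iff_le_add, ← add_div, le_div_iff₀ hn]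
    linarith
  have h2 : (0 : ℝ) ≤ 1 / n := by positivity
  rcases max_cases a (e / n) with ⟨h3, h4⟩ | ⟨h3, h4⟩
  · rw [h3, abs_of_nonneg (by linarith)]
    linarith
  · rw [h3, sub_self, abs_zero]
    exact h2

end FGP

theorem t_FGP : Stmt_FGP := by
  intro hEST Λ s a c d τ hF
  obtain ⟨K, hK, N₁, hN₁, hE⟩ := hEST Λ
  obtain ⟨κ, hκ, hH⟩ := FGP.key hF
  refine ⟨κ / (16 * (K + 1)), by positivity, fun δ hδ hδ' => ?_⟩
  have hδ1 : 2 * K * δ ≤ κ / 8 := by
    have h1 : 2 * K * δ ≤ 2 * (K + 1) * (κ / (16 * (K + 1))) :=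
      mul_le_mul (by linarith) hδ' hδ.le (by positivity)
    have h2 : 2 * (K + 1) * (κ / (16 * (K + 1))) = κ / 8 := by
      field_simp
      ring
    linarith
  have hδ2 : δ ≤ κ / 16 := by
    refine hδ'.trans ?_
    refine div_le_div_of_nonneg_left hκ.le (by norm_num) ?_
    linarith
  have hxa := hF.xa
  have hxd := hF.xd
  have hac := hF.ac
  have hcd := hF.cd
  have hda := hF.da
  obtain ⟨ρ, hρ, hU⟩ := FGP.unif Λ a
    (min (κ / 16) (min (τ - sn s * Λ.x a) (τ - sn s * Λ.x d)))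
    (lt_min (by positivity) (lt_min (by linarith) (by linarith)))
  obtain ⟨N₂, hN₂⟩ := exists_nat_gt (max (1 / ρ) (max (16 * K / κ)
    (max (2 / (c - a)) (max (2 / (d - c)) (2 / (a + 1 - d))))))
  refine ⟨max 1 (max N₁ N₂), fun N hN P hP A C D hI => ?_⟩
  have n1 : 1 ≤ N := (le_max_left _ _).trans hN
  have n2 : N₁ ≤ N := (le_max_left _ _).trans ((le_max_right _ _).trans hN)
  have n3 : N₂ ≤ N := (le_max_right _ _).trans ((le_max_right _ _).trans hN)
  have n1' : (1 : ℝ) ≤ N := by exact_mod_cast n1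
  have n0 : (0 : ℝ) < N := by linarith
  have n3' : (N₂ : ℝ) ≤ N := by exact_mod_cast n3
  have hN' := hN₂.trans_le n3'
  simp only [max_lt_iff] at hN'
  obtain ⟨b1, b2, b3, b4, b5⟩ := hN'
  rw [div_lt_iff₀ hρ] at b1
  rw [div_lt_iff₀ hκ] at b2
  rw [div_lt_iff₀ (by linarith)] at b3 b4 b5
  have hρN : 1 / (N : ℝ) < ρ := by
    rw [div_lt_iff₀ n0]
    linarith
  have h1N : 1 / (N : ℝ) ≤ 1 := by
    rw [div_le_one n0]
    exact n1'
  have hKN : K / N ≤ κ / 16 := by
    rw [div_le_iff₀ n0]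
    linarith
  obtain ⟨-, hE2⟩ := hE N n2 P hP
  have px : ∀ i : ℤ, P.x i = Λ.x ((i : ℝ) / N) := by
    intro i
    rw [hP.1]
    rfl
  have iA := abs_le.1 hI.a
  have iC := abs_le.1 hI.c
  have iD := abs_le.1 hI.d
  have AC : A < C := by
    have : (A : ℝ) < C := by linarith
    exact_mod_cast this
  have CD : C < D := by
    have : (C : ℝ) < D := by linarith
    exact_mod_cast this
  have DA : D ≤ A + N := by
    have : (D : ℝ) ≤ A + N := by linarith
    exact_mod_cast this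
  have nA := FGP.near n0 hI.a
  have nD := FGP.near n0 hI.d
  have nA' := abs_le.1 nA
  have nD' := abs_le.1 nD
  -- the errors
  have err : ∀ u v : ℝ, u ∈ Icc (a - 2) (a + 3) → v ∈ Icc (a - 2) (a + 3) → |u - v| ≤ 1 / N →
      |Λ.x u - Λ.x v| < min (κ / 16) (min (τ - sn s * Λ.x a) (τ - sn s * Λ.x d)) ∧
        |zz Λ u - zz Λ v| < min (κ / 16) (min (τ - sn s * Λ.x a) (τ - sn s * Λ.x d)) :=
    fun u v hu hv huv => hU u hu v hv (huv.trans_lt hρN)
  refine ⟨AC, CD, DA, ?_, ?_, ?_, ?_, ?_⟩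
  · refine FGP.mono_int fun i hi hi' => ?_
    rcases eq_or_lt_of_le hi with e | h1
    · rw [← e]
      exact hI.xa
    · rcases eq_or_lt_of_le (Int.add_one_le_iff.2 hi') with e | h2
      · rw [e]
        have : i = C - 1 := by omega
        rw [this]
        exact hI.xc
      · have g1 : ((A : ℝ) + 1) ≤ i := by exact_mod_cast h1
        have g2 : (i : ℝ) + 1 + 1 ≤ C := by exact_mod_cast h2
        rw [px, px]
        refine (hF.m1 ?_ ?_ ?_).le
        · constructor
          · rw [le_div_iff₀ n0]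
            linarith only [iA, g1]
          · rw [div_le_iff₀ n0]
            linarith only [iC, g2]
        · constructor
          · rw [le_div_iff₀ n0]
            push_cast
            linarith only [iA, g1]
          · rw [div_le_iff₀ n0]
            push_cast
            linarith only [iC, g2]
        · refine div_lt_div_of_pos_right ?_ n0
          push_cast
          linarith only []
  · refine FGP.anti_int fun i hi hi' => ?_
    rcases eq_or_lt_of_le hi with e | h1
    · rw [← e]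
      exact hI.xc'
    · rcases eq_or_lt_of_le (Int.add_one_le_iff.2 hi') with e | h2
      · rw [e]
        have : i = D - 1 := by omega
        rw [this]
        exact hI.xd
      · have g1 : ((C : ℝ) + 1) ≤ i := by exact_mod_cast h1
        have g2 : (i : ℝ) + 1 + 1 ≤ D := by exact_mod_cast h2
        rw [px, px]
        refine (hF.m2 ?_ ?_ ?_).le
        · constructor
          · rw [le_div_iff₀ n0]
            linarith only [iC, g1]
          · rw [div_le_iff₀ n0]
            linarith only [iD, g2]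
        · constructor
          · rw [le_div_iff₀ n0]
            push_cast
            linarith only [iC, g1]
          · rw [div_le_iff₀ n0]
            push_cast
            linarith only [iD, g2]
        · refine div_lt_div_of_pos_right ?_ n0
          push_cast
          linarith only []
  · rw [px]
    have h1 := (err ((A : ℝ) / N) a ⟨by linarith only [h1N, nA'], by linarith only [h1N, nA']⟩ ⟨by linarith only [], by linarith only []⟩ nA).1
    have h2 := h1.trans_le ((min_le_right _ _).trans (min_le_left _ _))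
    rw [← FGP.abs_sn s, mul_sub] at h2
    have h3 := (abs_lt.1 h2).2
    linarith only [h3]
  · rw [px]
    have h1 := (err ((D : ℝ) / N) d ⟨by linarith only [hac, hcd, h1N, nD'], by linarith only [hda, h1N, nD']⟩ ⟨by linarith only [hac, hcd], by linarith only [hda]⟩ nD).1
    have h2 := h1.trans_le ((min_le_right _ _).trans (min_le_right _ _))
    rw [← FGP.abs_sn s, mul_sub] at h2
    have h3 := (abs_lt.1 h2).2
    linarith only [h3]
  · intro t ht e₁ he₁ e₂ he₂ e he h1 h2 h3 hmem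
    have c1 : (A : ℝ) ≤ e₁ := by exact_mod_cast he₁.1
    have c1' : (e₁ : ℝ) + 1 ≤ C := by exact_mod_cast he₁.2
    have c2 : (C : ℝ) ≤ e₂ := by exact_mod_cast he₂.1
    have c2' : (e₂ : ℝ) + 1 ≤ D := by exact_mod_cast he₂.2
    have c3 : (D : ℝ) ≤ e := by exact_mod_cast he.1
    have c3' : (e : ℝ) + 1 ≤ A + N := by exact_mod_cast he.2
    -- general estimate for one edge
    have est : ∀ (f : ℤ) (b v : ℝ), a ≤ b → b ≤ d → b * N - 1 ≤ f → f ≤ (a + 1) * N →
        v = max b ((f : ℝ) / N) → |P.x f - t| < 2 * δ →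
        |Λ.x v - t| < κ / 16 + 2 * δ ∧ |P.l f t - (zz Λ v - zz Λ 0)| < κ / 4 := by
      intro f b v hab hbd hf hf' hv hft
      have m1 : |v - (f : ℝ) / N| ≤ 1 / N := by
        rw [hv]
        exact FGP.mx n0 hf
      have g1 : (f : ℝ) / N ≤ a + 1 := by
        rw [div_le_iff₀ n0]
        exact hf'
      have g2 := abs_le.1 m1
      have g3 : b ≤ v := by
        rw [hv]
        exact le_max_left _ _
      have g4 : v ≤ a + 1 := by
        rw [hv]
        exact max_le (by linarith only [hda, hbd]) g1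
      obtain ⟨q1, q2⟩ := err v ((f : ℝ) / N) ⟨by linarith only [hab, g3], by linarith only [h1N, g1, g2]⟩
        ⟨by linarith only [h1N, hab, g2, g3], by linarith only [g1]⟩ m1
      have q1' := q1.trans_le (min_le_left _ _)
      have q2' := q2.trans_le (min_le_left _ _)
      constructor
      · have q3 := abs_add_le (Λ.x v - Λ.x ((f : ℝ) / N)) (P.x f - t)
        rw [px, sub_add_sub_cancel] at q3
        rw [px] at hft
        linarith only [hft, q1', q3]
      · obtain ⟨-, q4, -, -, q5⟩ := hE2 f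
        have q6 : P.l f t - (zz Λ v - zz Λ 0) = (P.z f - (zz Λ ((f : ℝ) / N) - zz Λ 0)) +
            (-(zz Λ v - zz Λ ((f : ℝ) / N))) + P.y f * (t - P.x f) := by
          unfold Pg.l
          ring
        rw [q6]
        have q7 : |P.y f * (t - P.x f)| ≤ K * (2 * δ) := by
          rw [abs_mul, abs_sub_comm t]
          exact mul_le_mul q5 hft.le (abs_nonneg _) hK.le
        have q8 := abs_add_three (P.z f - (zz Λ ((f : ℝ) / N) - zz Λ 0))
          (-(zz Λ v - zz Λ ((f : ℝ) / N))) (P.y f * (t - P.x f))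
        rw [abs_neg] at q8
        linarith only [hδ1, hKN, q2', q4, q7, q8]
    obtain ⟨r1, r1'⟩ := est e₁ a _ le_rfl (by linarith only [hac, hcd]) (by linarith only [iA, c1]) (by linarith only [b4, b5, iC, c1']) rfl h1
    obtain ⟨r2, r2'⟩ := est e₂ c _ (by linarith only [hac]) (by linarith only [hcd]) (by linarith only [iC, c2]) (by linarith only [b5, iD, c2']) rfl h2
    obtain ⟨r3, r3'⟩ := est e d _ (by linarith only [hac, hcd]) le_rfl (by linarith only [iD, c3]) (by linarith only [iA, c3']) rfl h3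
    have m1 : max a ((e₁ : ℝ) / N) ∈ Icc a c :=
      ⟨le_max_left _ _, max_le (by linarith only [hac]) (by rw [div_le_iff₀ n0]; linarith only [iC, c1'])⟩
    have m2 : max c ((e₂ : ℝ) / N) ∈ Icc c d :=
      ⟨le_max_left _ _, max_le (by linarith only [hcd]) (by rw [div_le_iff₀ n0]; linarith only [iD, c2'])⟩
    have m3 : max d ((e : ℝ) / N) ∈ Icc d (a + 1) :=
      ⟨le_max_left _ _, max_le (by linarith only [hda]) (by rw [div_le_iff₀ n0]; linarith only [iA, c3'])⟩
    have hh := hH _ m1 _ m2 _ m3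
    set v₁ := max a ((e₁ : ℝ) / N)
    set v₂ := max c ((e₂ : ℝ) / N)
    set v := max d ((e : ℝ) / N)
    have hl : min (P.l e₁ t) (P.l e₂ t) ≤ P.l e t := hmem.1
    have hu : P.l e t ≤ max (P.l e₁ t) (P.l e₂ t) := hmem.2
    have a1 := abs_lt.1 r1'
    have a2 := abs_lt.1 r2'
    have a3 := abs_lt.1 r3'
    have x1 := abs_lt.1 r1
    have x2 := abs_lt.1 r2
    have x3 := abs_lt.1 r3
    have y1 : |Λ.x v₁ - Λ.x v| < κ := by
      rw [abs_lt]
      constructor <;> (first | linarith only [hδ2, x1, x3] | linarith)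
    have y2 : |Λ.x v₂ - Λ.x v| < κ := by
      rw [abs_lt]
      constructor <;> (first | linarith only [hδ2, x2, x3] | linarith)
    have y3 : τ - sn s * Λ.x v < κ := by
      have := r3
      rw [← FGP.abs_sn s, mul_sub] at this
      have h4 := (abs_lt.1 this).1
      linarith only [hδ, hδ2, ht, h4]
    have y4 : zz Λ v - max (zz Λ v₁) (zz Λ v₂) < κ := by
      have l1 := le_max_left (zz Λ v₁) (zz Λ v₂)
      have l2 := le_max_right (zz Λ v₁) (zz Λ v₂)
      rcases le_max_iff.1 hu with h | h <;> (first | linarith only [a1, a3, l1, h] | linarith only [a2, a3, l2, h] | linarith)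
    have y5 : min (zz Λ v₁) (zz Λ v₂) - zz Λ v < κ := by
      have l1 := min_le_left (zz Λ v₁) (zz Λ v₂)
      have l2 := min_le_right (zz Λ v₁) (zz Λ v₂)
      rcases min_le_iff.1 hl with h | h <;> (first | linarith only [a1, a3, l1, h] | linarith only [a2, a3, l2, h] | linarith)
    unfold FGP.H at hh
    simp only at hh
    exact absurd hh (not_le.2 (max_lt y1 (max_lt y2 (max_lt y3 (max_lt y4 y5)))))

end LHE


end
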