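import Mathlib
import Pool.Agent.NDM.C01
import Pool.Agent.NDM.C02
import Pool.Agent.NDM.C03

/-! Parts: LG.BLK, LG.LTRN, LG.LWR, LG.SR1, LH.CM, LH.CWP, LH.FGC, LH.ITM, LHS.CRS, LHS.PTH, LHE.CDM, LCA.VEX, LCA.SDB, LCA.SVV, LHE.FNG, LHE.RET, LCA.CapJ.D6, LCA.CapJ.D12 -/

section

namespace LG

open Equiv Finset Function

namespace BLK

section

variable {ι κ α β : Type} [Fintype ι] [DecidableEq ι] [Fintype κ] [LinearOrder α] [LinearOrder β]
  {c : ι → α} {r : ι → β} {a : κ → α} {b : κ → β}

theorem wt_zero (x : Perm ι) (i j : ι) (m : ι ⊕ κ) (h : Ins (gm c r a b) x i j m) :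
    Wt (gm c r a b) x i j = 0 := by
  unfold Wt
  split_ifs
  · apply Finset.prod_eq_zero (mem_univ m)
    rw [if_pos h]
    rfl
  · rfl

theorem wt (hG : Gd c r a b) {l k : ι} {m : κ} (hlk : l ≠ k) (ham : a m = c k) (hbm : b m = r l)
    (hc : ∀ i, ¬ cyc (c l) (c i) (c k)) (hr : ∀ i, ¬ cyc (r k) (r i) (r l))
    (hn : ∀ n, a n = c l → b n ≠ r k) (i j : ι) :
    Wt (gm c r a b) (swap l k) i j = if i = l ∧ j = k then 1 else 0 := by
  have hclk : c l ≠ c k := fun h => hlk (hG.ci h)
  have hrlk : r l ≠ r k := fun h => hlk (hG.ri h)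
  by_cases hij : i = j
  · subst hij
    rw [if_neg (by rintro ⟨h1, h2⟩; exact hlk (h1.symm.trans h2))]
    unfold Wt
    rw [if_neg (by rintro ⟨h, -⟩; exact h rfl)]
  by_cases hil : i = l
  · subst hil
    by_cases hjk : j = k
    · subst hjk
      rw [if_pos ⟨rfl, rfl⟩]
      unfold Wt
      rw [if_pos]
      · apply Finset.prod_eq_one
        intro m' _
        rw [if_neg]
        rintro ⟨h1, h2⟩
        have h2' : ico (r j) ((gm c r a b).q m') (r i) := by
          have := h2
          simp only [swap_apply_left, swap_apply_right] at this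
          exact this
        have h1' : ico (c i) ((gm c r a b).p m') (c j) := h1
        rcases m' with k' | n'
        · have e1 : c k' = c i := by
            rcases h1' with h | h
            · exact h
            · exact absurd h (hc k')
          have e1' : k' = i := hG.ci e1
          subst e1'
          rcases h2' with h | h
          · exact hrlk h
          · exact (cyc_ne h).2.1 rfl
        · obtain ⟨k1, hk1⟩ := hG.ac n'
          obtain ⟨k2, hk2⟩ := hG.br n'
          have e1 : a n' = c i := by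
            rcases h1' with h | h
            · exact h
            · exfalso
              apply hc k1
              rw [← hk1]
              exact h
          have e2 : b n' = r j := by
            rcases h2' with h | h
            · exact h
            · exfalso
              apply hr k2
              rw [← hk2]
              exact h
          exact hn n' e1 e2
      · refine ⟨hlk, fun k' h => hc k' h.1⟩
    · rw [if_neg (by rintro ⟨-, h⟩; exact hjk h)]
      apply wt_zero _ _ _ (Sum.inl k)
      refine ⟨Or.inr ?_, Or.inl ?_⟩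
      · show cyc (c i) (c k) (c j)
        have h3 : c k ≠ c j := fun h => hjk (hG.ci h).symm
        have h4 : c i ≠ c j := fun h => hij (hG.ci h)
        rcases cyc_total hclk h3 h4 with h | h
        · exact h
        · exact absurd h (hc j)
      · show r k = r (swap i k i)
        rw [swap_apply_left]
  · rw [if_neg (by rintro ⟨h, -⟩; exact hil h)]
    by_cases hik : i = k
    · subst hik
      apply wt_zero _ _ _ (Sum.inr m)
      refine ⟨Or.inl ham, Or.inl ?_⟩
      show b m = r (swap l i i)
      rw [swap_apply_right, hbm]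
    · apply wt_zero _ _ _ (Sum.inl i)
      refine ⟨Or.inl rfl, Or.inl ?_⟩
      show r i = r (swap l k i)
      rw [swap_apply_of_ne_of_ne hil hik]

theorem main (hG : Gd c r a b) {l k : ι} {m : κ} (hlk : l ≠ k) (ham : a m = c k) (hbm : b m = r l)
    (hc : ∀ i, ¬ cyc (c l) (c i) (c k)) (hr : ∀ i, ¬ cyc (r k) (r i) (r l))
    (hn : ∀ n, a n = c l → b n ≠ r k) : V c r a b := by
  refine ⟨Pi.single (Equiv.swap l k) 1, ?_⟩
  funext y
  unfold bd del
  have key : ∀ i j : ι, (Pi.single (Equiv.swap l k) (1 : ZMod 2) : Perm ι → ZMod 2) (y * Equiv.swap i j) *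
      Wt (gm c r a b) (y * Equiv.swap i j) i j = if i = l ∧ j = k ∧ y = 1 then 1 else 0 := by
    intro i j
    by_cases h : y * Equiv.swap i j = Equiv.swap l k
    · rw [h, Pi.single_eq_same, one_mul, wt hG hlk ham hbm hc hr hn]
      by_cases h2 : i = l ∧ j = k
      · rw [if_pos h2, if_pos]
        refine ⟨h2.1, h2.2, ?_⟩
        rw [h2.1, h2.2] at h
        exact mul_eq_right.mp h
      · rw [if_neg h2, if_neg]
        rintro ⟨h3, h4, -⟩
        exact h2 ⟨h3, h4⟩
    · rw [Pi.single_eq_of_ne h, zero_mul, if_neg]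
      rintro ⟨h3, h4, h5⟩
      apply h
      rw [h3, h4, h5, one_mul]
  simp only [key]
  by_cases hy : y = 1
  · subst hy
    rw [Pi.single_eq_same]
    rw [Finset.sum_eq_single l]
    · rw [Finset.sum_eq_single k]
      · simp
      · intro j _ hj
        rw [if_neg]
        rintro ⟨-, h, -⟩
        exact hj h
      · intro h
        exact absurd (mem_univ k) h
    · intro i _ hi
      apply Finset.sum_eq_zero
      intro j _
      rw [if_neg]
      rintro ⟨h, -, -⟩
      exact hi h
    · intro h
      exact absurd (mem_univ l) h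
  · rw [Pi.single_eq_of_ne hy]
    apply Finset.sum_eq_zero
    intro i _
    apply Finset.sum_eq_zero
    intro j _
    rw [if_neg]
    rintro ⟨-, -, h⟩
    exact hy h

end

end BLK

/-- BLK, corrected statement: the fourth square of the block carries no `O` mark. -/
theorem t_BLK :
    ∀ (ι κ α β : Type) [Fintype ι] [DecidableEq ι] [Fintype κ] [LinearOrder α] [LinearOrder β]
    (c : ι → α) (r : ι → β) (a : κ → α) (b : κ → β), Gd c r a b →
    ∀ (l k : ι) (m : κ), l ≠ k → a m = c k → b m = r l → (∀ i, ¬ cyc (c l) (c i) (c k)) →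
      (∀ i, ¬ cyc (r k) (r i) (r l)) → (∀ n, a n = c l → b n ≠ r k) → V c r a b := by
  intro ι κ α β _ _ _ _ _ c r a b hG l k m hlk ham hbm hc hr hn
  exact BLK.main hG hlk ham hbm hc hr hn

end LG


end

section

/-!
# LTRN: transposition of lists
-/

namespace LG

open Equiv Finset Function

namespace LTRN

/-- The transposed list. -/
def tr (L : List (ℝ × ℝ)) : List (ℝ × ℝ) := (L.map Prod.swap).reverse

theorem tr_length (L : List (ℝ × ℝ)) : (tr L).length = L.length := by
  simp [tr]

/-- The reversal of the indices. -/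
def rv (L : List (ℝ × ℝ)) : Fin L.length ≃ Fin (tr L).length where
  toFun i := ⟨L.length - 1 - i.1, by rw [tr_length]; omega⟩
  invFun j := ⟨L.length - 1 - j.1, by have h := tr_length L; have hj := j.2; omega⟩
  left_inv i := by
    apply Fin.ext
    have h := i.2
    simp only
    omega
  right_inv j := by
    apply Fin.ext
    have h := tr_length L
    have hj := j.2
    simp only
    omega

theorem nx_val (L : List (ℝ × ℝ)) (i : Fin L.length) :
    (nx L i).1 = if i.1 + 1 = L.length then 0 else i.1 + 1 := by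
  have hi := i.2
  unfold nx
  simp only
  split_ifs with h
  · rw [h, Nat.mod_self]
  · exact Nat.mod_eq_of_lt (by omega)

/-- The renaming of the `O` marks. -/
def rw' (L : List (ℝ × ℝ)) : Fin L.length ≃ Fin (tr L).length where
  toFun i := rv L (nx L i)
  invFun j := (rv L).symm (nx (tr L) j)
  left_inv i := by
    apply Fin.ext
    have h := tr_length L
    have hi := i.2
    have h1 := nx_val L i
    have h2 := nx_val (tr L) (rv L (nx L i))
    simp only [rv, Equiv.coe_fn_mk, Equiv.coe_fn_symm_mk] at h2 ⊢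
    rw [h2, h1]
    split_ifs <;> omega
  right_inv j := by
    apply Fin.ext
    have h := tr_length L
    have hj := j.2
    have h1 := nx_val (tr L) j
    have h2 := nx_val L ((rv L).symm (nx (tr L) j))
    simp only [rv, Equiv.coe_fn_mk, Equiv.coe_fn_symm_mk] at h2 ⊢
    rw [h2, h1]
    split_ifs <;> omega

theorem rv_val (L : List (ℝ × ℝ)) (i : Fin L.length) : (rv L i).1 = L.length - 1 - i.1 := rfl

theorem tr_getElem (L : List (ℝ × ℝ)) (j : ℕ) (hj : j < (tr L).length)
    (hj' : L.length - 1 - j < L.length) : (tr L)[j] = (L[L.length - 1 - j]).swap := by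
  simp only [tr, List.getElem_reverse, List.getElem_map, List.length_map]

theorem tr_get (L : List (ℝ × ℝ)) (i : Fin L.length) :
    (tr L).get (rv L i) = (L.get i).swap := by
  have hi := i.2
  have h := tr_length L
  have h3 := rv_val L i
  have h4 : L.length - 1 - (rv L i).1 = i.1 := by omega
  rw [List.get_eq_getElem, List.get_eq_getElem, tr_getElem L _ _ (by omega)]
  simp only [h4]

theorem tr_get' (L : List (ℝ × ℝ)) (i : Fin L.length) :
    (tr L).get (nx (tr L) (rw' L i)) = (L.get i).swap := by
  have h : (rv L).symm (nx (tr L) (rw' L i)) = i := (rw' L).symm_apply_apply i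
  have h2 : nx (tr L) (rw' L i) = rv L i := by rw [← h, Equiv.apply_symm_apply, h]
  rw [h2, tr_get]

end LTRN

open _root_.LG.LTRN in
/-- Transposition of lists. -/
theorem t_LTRN : Stmt_LTRN := by
  intro hT hR L
  change VL L ↔ VL (tr L)
  unfold VL
  rw [hT]
  have hc : ∀ x : Fin L.length ⊕ Fin L.length,
      Sum.elim (fun i : Fin L.length => (L.get i).2) (fun i : Fin L.length => (L.get i).2) x =
        Sum.elim (fun i : Fin (tr L).length => ((tr L).get i).1)
          (fun i : Fin (tr L).length => ((tr L).get (nx (tr L) i)).1)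
          (Equiv.sumCongr (rv L) (rw' L) x) := by
    rintro (i | i)
    · simp only [Equiv.sumCongr_apply, Sum.map_inl, Sum.elim_inl]
      rw [tr_get]
      rfl
    · simp only [Equiv.sumCongr_apply, Sum.map_inr, Sum.elim_inr]
      rw [tr_get']
      rfl
  have hr : ∀ x : Fin L.length ⊕ Fin L.length,
      Sum.elim (fun i : Fin L.length => (L.get i).1)
        (fun i : Fin L.length => (L.get (nx L i)).1) x =
        Sum.elim (fun i : Fin (tr L).length => ((tr L).get i).2)
          (fun i : Fin (tr L).length => ((tr L).get i).2)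
          (Equiv.sumCongr (rv L) (rw' L) x) := by
    rintro (i | i)
    · simp only [Equiv.sumCongr_apply, Sum.map_inl, Sum.elim_inl]
      rw [tr_get]
      rfl
    · simp only [Equiv.sumCongr_apply, Sum.map_inr, Sum.elim_inr]
      change _ = ((tr L).get (rv L (nx L i))).2
      rw [tr_get]
      rfl
  refine hR _ _ _ _ _ _ _ _ _ _ _ _ _ _ _ _ (rv L) (rw' L) ?_ ?_ ?_ ?_
  · intro x y z
    rw [hc x, hc y, hc z]
  · intro x y
    rw [hc x, hc y]
  · intro x y z
    rw [hr x, hr y, hr z]
  · intro x y
    rw [hr x, hr y]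

end LG


end

section

/-!
# Module LWR: a list with a short row of the wrong type
-/

set_option autoImplicit false

namespace LG

open Equiv Finset Function

namespace LWR

theorem fst_inj {L : List (ℝ × ℝ)} (h : (L.map Prod.fst).Nodup) :
    Injective (fun i : Fin L.length => (L.get i).1) := by
  intro i j hij
  have h1 : L.Nodup := List.Nodup.of_map _ h
  have h2 : L.get i = L.get j := List.inj_on_of_nodup_map h (L.get_mem i) (L.get_mem j) hij
  exact (List.nodup_iff_injective_get.1 h1) h2

theorem snd_inj {L : List (ℝ × ℝ)} (h : (L.map Prod.snd).Nodup) :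
    Injective (fun i : Fin L.length => (L.get i).2) := by
  intro i j hij
  have h1 : L.Nodup := List.Nodup.of_map _ h
  have h2 : L.get i = L.get j := List.inj_on_of_nodup_map h (L.get_mem i) (L.get_mem j) hij
  exact (List.nodup_iff_injective_get.1 h1) h2

theorem nx_inj (L : List (ℝ × ℝ)) : Injective (nx L) := by
  intro i j h
  have h1 : ((i : ℕ) + 1) % L.length = ((j : ℕ) + 1) % L.length := congrArg Fin.val h
  have h2 : (i : ℕ) ≡ j [MOD L.length] := Nat.ModEq.add_right_cancel' 1 h1
  exact Fin.ext (Nat.ModEq.eq_of_lt_of_lt h2 i.2 j.2)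

theorem nx_surj (L : List (ℝ × ℝ)) : Surjective (nx L) :=
  Finite.injective_iff_surjective.1 (nx_inj L)

theorem nx_ne (L : List (ℝ × ℝ)) (h : 2 ≤ L.length) (i : Fin L.length) : nx L i ≠ i := by
  intro h1
  have h2 : ((i : ℕ) + 1) % L.length = (i : ℕ) := congrArg Fin.val h1
  have hi := i.2
  rcases Nat.lt_or_ge ((i : ℕ) + 1) L.length with h3 | h3
  · rw [Nat.mod_eq_of_lt h3] at h2
    omega
  · have h4 : (i : ℕ) + 1 = L.length := by omega
    rw [h4, Nat.mod_self] at h2
    omega

theorem gd {L : List (ℝ × ℝ)} (h : Nd L) (h2 : 2 ≤ L.length) :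
    Gd (fun i : Fin L.length => (L.get i).1) (fun i => (L.get i).2)
      (fun i : Fin L.length => (L.get (nx L i)).1) (fun i => (L.get i).2) where
  ci := fst_inj h.1
  ri := snd_inj h.2
  ai := (fst_inj h.1).comp (nx_inj L)
  bi := snd_inj h.2
  ac := fun m => ⟨nx L m, rfl⟩
  ca := fun k => by
    obtain ⟨m, hm⟩ := nx_surj L k
    exact ⟨m, by rw [hm]⟩
  br := fun m => ⟨m, rfl⟩
  rb := fun m => ⟨m, rfl⟩
  ne := by
    rintro k m ⟨h3, h4⟩
    have h5 : k = nx L m := fst_inj h.1 h3
    have h6 : k = m := snd_inj h.2 h4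
    exact nx_ne L h2 m (h5.symm.trans h6)

end LWR

theorem t_LWR : Stmt_LWR := by
  intro hWR c₁ r₁ c₂ r₂ B z hN hc hcyc
  set L : List (ℝ × ℝ) := (c₁, r₁) :: (c₂, r₂) :: (B ++ [z]) with hL
  have hlen : L.length = B.length + 3 := by
    rw [hL]
    simp
  have hG := LWR.gd hN (by omega)
  have i0 : 0 < L.length := by omega
  have i1 : 1 < L.length := by omega
  have i2 : B.length + 2 < L.length := by omega
  have e0 : L.get ⟨0, i0⟩ = (c₁, r₁) := rfl
  have e1 : L.get ⟨1, i1⟩ = (c₂, r₂) := rfl
  have e2 : L.get ⟨B.length + 2, i2⟩ = z := by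
    simp [hL]
  have n0 : nx L ⟨0, i0⟩ = ⟨1, i1⟩ := by
    apply Fin.ext
    show (0 + 1) % L.length = 1
    exact Nat.mod_eq_of_lt i1
  have n2 : nx L ⟨B.length + 2, i2⟩ = ⟨0, i0⟩ := by
    apply Fin.ext
    show (B.length + 2 + 1) % L.length = 0
    have h3 : B.length + 2 + 1 = L.length := by omega
    rw [h3, Nat.mod_self]
  have hS : Srt (fun i : Fin L.length => (L.get i).1) (fun i => (L.get i).2)
      (fun i : Fin L.length => (L.get (nx L i)).1) (fun i => (L.get i).2)
      ⟨0, i0⟩ ⟨1, i1⟩ ⟨0, i0⟩ ⟨B.length + 2, i2⟩ := by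
    refine ⟨hG, ?_, ?_, rfl, ?_⟩
    · intro h
      have := congrArg Fin.val h
      simp at this
    · show (L.get (nx L ⟨0, i0⟩)).1 = (L.get ⟨1, i1⟩).1
      rw [n0]
    · show (L.get (nx L ⟨B.length + 2, i2⟩)).1 = (L.get ⟨0, i0⟩).1
      rw [n2]
  refine hWR _ _ _ _ _ _ _ _ _ _ _ _ hS ?_ ?_
  · intro i
    exact hc _ (List.mem_map.2 ⟨L.get i, L.get_mem i, rfl⟩)
  · show cyc (L.get ⟨0, i0⟩).2 (L.get ⟨B.length + 2, i2⟩).2 (L.get ⟨1, i1⟩).2
    rw [e0, e1, e2]
    exact hcyc

end LG


end

section

/-!
# SR1: short rows with the step to the right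
-/

namespace LG.SR1

open Equiv Finset Function

section Shift

variable {α : Type*} [LinearOrder α]

theorem shift1 {p q x y z : α} (hx : x ≠ q) (hy : y ≠ q) (hz : z ≠ q) (ax : ¬ cyc p x q)
    (ay : ¬ cyc p y q) (az : ¬ cyc p z q) :
    cyc x y z ↔ cyc (if x = p then q else x) (if y = p then q else y) (if z = p then q else z) := by
  unfold cyc at *
  split_ifs <;> grind

theorem shift2 {p q x y z : α} (hx : x ≠ p) (hy : y ≠ p) (hz : z ≠ p) (ax : ¬ cyc p x q)
    (ay : ¬ cyc p y q) (az : ¬ cyc p z q) :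
    cyc x y z ↔ cyc (if x = q then p else x) (if y = q then p else y) (if z = q then p else z) := by
  unfold cyc at *
  split_ifs <;> grind

theorem fam1 {X : Type*} {p q : α} {P P' : X → α} (h : ∀ x, P' x = if P x = p then q else P x)
    (hq : ∀ x, P x ≠ q) (ha : ∀ x, ¬ cyc p (P x) q) :
    (∀ x y z, cyc (P x) (P y) (P z) ↔ cyc (P' x) (P' y) (P' z)) ∧
      ∀ x y, P x = P y ↔ P' x = P' y := by
  constructor
  · intro x y z
    rw [h, h, h]
    exact shift1 (hq x) (hq y) (hq z) (ha x) (ha y) (ha z)
  · intro x y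
    rw [h, h]
    have h1 := hq x
    have h2 := hq y
    split_ifs <;> grind

theorem fam2 {X : Type*} {p q : α} {P P' : X → α} (h : ∀ x, P' x = if P x = q then p else P x)
    (hq : ∀ x, P x ≠ p) (ha : ∀ x, ¬ cyc p (P x) q) :
    (∀ x y z, cyc (P x) (P y) (P z) ↔ cyc (P' x) (P' y) (P' z)) ∧
      ∀ x y, P x = P y ↔ P' x = P' y := by
  constructor
  · intro x y z
    rw [h, h, h]
    exact shift2 (hq x) (hq y) (hq z) (ha x) (ha y) (ha z)
  · intro x y
    rw [h, h]
    have h1 := hq x
    have h2 := hq y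
    split_ifs <;> grind

/-- The next row. -/
theorem next {ι : Type*} [Fintype ι] (r : ι → α) (l k : ι)
    (h : ∃ i, cyc (r l) (r i) (r k)) :
    ∃ j, cyc (r l) (r j) (r k) ∧ ∀ i, ¬ cyc (r l) (r i) (r j) := by
  classical
  obtain ⟨i0, hi0⟩ := h
  obtain ⟨j, hj, hmin⟩ := Finset.exists_min_image (univ.filter fun i => cyc (r l) (r i) (r k))
    (fun j => (univ.filter fun i => cyc (r l) (r i) (r j)).card) ⟨i0, by simp [hi0]⟩
  have hj' : cyc (r l) (r j) (r k) := by simpa using hj
  refine ⟨j, hj', ?_⟩
  intro i hi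
  have h1 : cyc (r l) (r i) (r k) := by
    unfold cyc at *; grind
  have h2 := hmin i (by simp [h1])
  have h3 : (univ.filter fun i' => cyc (r l) (r i') (r i)).card <
      (univ.filter fun i' => cyc (r l) (r i') (r j)).card := by
    apply Finset.card_lt_card
    rw [Finset.ssubset_iff_of_subset]
    · refine ⟨i, by simp [hi], ?_⟩
      intro h
      have h4 : cyc (r l) (r i) (r i) := by simpa using h
      unfold cyc at h4; grind
    · intro i' hi'
      have h4 : cyc (r l) (r i') (r i) := by simpa using hi'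
      have h5 : cyc (r l) (r i') (r j) := by unfold cyc at *; grind
      simp [h5]
  omega

end Shift

section Main

variable {ι κ α β : Type} [Fintype ι] [DecidableEq ι] [Fintype κ] [DecidableEq κ] [LinearOrder α]
  [LinearOrder β]

/-- The bijection of the labels. -/
def eqv (l k : ι) : {i // i ≠ k} ≃ {i // i ≠ l} :=
  (swap l k).subtypeEquiv (by
    intro a
    constructor
    · intro h h'
      apply h
      rw [swap_apply_eq_iff, swap_apply_left] at h'
      exact h'
    · intro h h'
      apply h
      rw [h']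
      exact swap_apply_right l k)

theorem base (hSTB : P_STB) (hREL : Stmt_REL) (c : ι → α) (r : ι → β) (a : κ → α) (b : κ → β)
    (l k : ι) (m n : κ) (hS : Srt c r a b l k m n) (hc : ∀ i, ¬ cyc (c l) (c i) (c k))
    (hr : ∀ i, ¬ cyc (r l) (r i) (r k)) :
    V c r a b ↔ V (fun i : {i // i ≠ l} => c i) (fun i : {i // i ≠ l} => r i)
        (fun n' : {n' // n' ≠ m} => if a n' = c l then c k else a n')
        (fun n' : {n' // n' ≠ m} => b n') := by
  have hB : Blk c r a b l k m := ⟨hS.gd, hS.ne, hc, hr, hS.am, hS.bm⟩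
  rw [hSTB ι κ α β c r a b l k m hB]
  have hcol := fam1 (α := α) (X := {i // i ≠ k} ⊕ {n' // n' ≠ m}) (p := c l) (q := c k)
    (P := Sum.elim (fun i : {i // i ≠ k} => c i) (fun n' : {n' // n' ≠ m} => a n'))
    (P' := fun x => Sum.elim (fun i : {i // i ≠ l} => c i)
      (fun n' : {n' // n' ≠ m} => if a n' = c l then c k else a n')
      (Equiv.sumCongr (eqv l k) (Equiv.refl _) x)) ?_ ?_ ?_
  · have hrow := fam2 (α := β) (X := {i // i ≠ k} ⊕ {n' // n' ≠ m}) (p := r l) (q := r k)
      (P := fun x => Sum.elim (fun i : {i // i ≠ l} => r i) (fun n' : {n' // n' ≠ m} => b n')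
        (Equiv.sumCongr (eqv l k) (Equiv.refl _) x))
      (P' := Sum.elim (fun i : {i // i ≠ k} => r i)
        (fun n' : {n' // n' ≠ m} => if b n' = r k then r l else b n')) ?_ ?_ ?_
    · exact hREL _ _ _ _ _ _ _ _ _ _ _ _ _ _ _ _ (eqv l k) (Equiv.refl _) hcol.1 hcol.2
        (fun x y z => (hrow.1 x y z).symm) (fun x y => (hrow.2 x y).symm)
    · rintro (⟨i, hi⟩ | ⟨n', hn'⟩)
      · simp only [Sum.elim_inl, Equiv.sumCongr_apply, Sum.map_inl, eqv, Equiv.subtypeEquiv_apply]
        by_cases h : i = l
        · subst h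
          rw [swap_apply_left, if_pos rfl]
        · rw [swap_apply_of_ne_of_ne h hi, if_neg]
          intro h'
          exact hi (hS.gd.ri h')
      · simp only [Sum.elim_inr, Equiv.sumCongr_apply, Sum.map_inr, Equiv.refl_apply]
    · rintro (⟨i, hi⟩ | ⟨n', hn'⟩)
      · simp only [Sum.elim_inl, Equiv.sumCongr_apply, Sum.map_inl, eqv, Equiv.subtypeEquiv_apply]
        intro h
        have h1 := hS.gd.ri h
        rw [swap_apply_eq_iff, swap_apply_left] at h1
        exact hi h1
      · simp only [Sum.elim_inr, Equiv.sumCongr_apply, Sum.map_inr, Equiv.refl_apply]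
        intro h
        rw [← hS.bm] at h
        exact hn' (hS.gd.bi h)
    · rintro (⟨i, hi⟩ | ⟨n', hn'⟩)
      · simp only [Sum.elim_inl, Equiv.sumCongr_apply, Sum.map_inl, eqv, Equiv.subtypeEquiv_apply]
        exact hr _
      · simp only [Sum.elim_inr, Equiv.sumCongr_apply, Sum.map_inr, Equiv.refl_apply]
        obtain ⟨i, hi⟩ := hS.gd.br n'
        rw [hi]
        exact hr i
  · rintro (⟨i, hi⟩ | ⟨n', hn'⟩)
    · simp only [Sum.elim_inl, Equiv.sumCongr_apply, Sum.map_inl, eqv, Equiv.subtypeEquiv_apply]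
      by_cases h : i = l
      · subst h
        rw [swap_apply_left, if_pos rfl]
      · rw [swap_apply_of_ne_of_ne h hi, if_neg]
        intro h'
        exact h (hS.gd.ci h')
    · simp only [Sum.elim_inr, Equiv.sumCongr_apply, Sum.map_inr, Equiv.refl_apply]
  · rintro (⟨i, hi⟩ | ⟨n', hn'⟩)
    · intro h
      exact hi (hS.gd.ci h)
    · intro h
      have h' : a n' = c k := h
      rw [← hS.am] at h'
      exact hn' (hS.gd.ai h')
  · rintro (⟨i, hi⟩ | ⟨n', hn'⟩)
    · exact hc i
    · obtain ⟨i, hi⟩ := hS.gd.ac n'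
      show ¬ cyc (c l) (a n') (c k)
      rw [hi]
      exact hc i

theorem main (hROW : P_ROW) (hSTB : P_STB) (hREL : Stmt_REL) (c : ι → α) (a : κ → α)
    (l k : ι) (m n : κ) (N : ℕ) : ∀ (r : ι → β) (b : κ → β), Srt c r a b l k m n →
    (∀ i, ¬ cyc (c l) (c i) (c k)) → cyc (r l) (r k) (b n) →
    (univ.filter fun i => cyc (r l) (r i) (r k)).card ≤ N →
    (V c r a b ↔ V (fun i : {i // i ≠ l} => c i) (fun i : {i // i ≠ l} => r i)
        (fun n' : {n' // n' ≠ m} => if a n' = c l then c k else a n')
        (fun n' : {n' // n' ≠ m} => b n')) := by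
  induction N with
  | zero =>
    intro r b hS hc hn hN
    apply base hSTB hREL c r a b l k m n hS hc
    intro i hi
    have h1 : (univ.filter fun i => cyc (r l) (r i) (r k)) = ∅ := by
      rw [← Finset.card_eq_zero]; omega
    have h2 : i ∈ (univ.filter fun i => cyc (r l) (r i) (r k)) := by simp [hi]
    rw [h1] at h2
    simp at h2
  | succ N ih =>
    intro r b hS hc hn hN
    by_cases hex : ∃ i, cyc (r l) (r i) (r k)
    · obtain ⟨j, hj1, hj2⟩ := next r l k hex
      have hjl : j ≠ l := by
        rintro rfl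
        unfold cyc at hj1; grind
      have hjk : j ≠ k := by
        rintro rfl
        unfold cyc at hj1; grind
      have hrlj : r l ≠ r j := fun h => hjl (hS.gd.ri h).symm
      have hrkl : r k ≠ r l := fun h => hS.ne (hS.gd.ri h).symm
      have hrkj : r k ≠ r j := fun h => hjk (hS.gd.ri h).symm
      have hbl : b n ≠ r l := by
        intro h; rw [h] at hn; unfold cyc at hn; grind
      have hbj : b n ≠ r j := by
        intro h; rw [h] at hn; unfold cyc at hn hj1; grind
      obtain ⟨mj, hmj⟩ := hS.gd.rb j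
      have haj : a mj ≠ c l := by
        intro h
        rw [← hS.an] at h
        have h1 := hS.gd.ai h
        rw [h1] at hmj
        exact hbj hmj.symm
      have haj2 : a mj ≠ c k := by
        intro h
        rw [← hS.am] at h
        have h1 := hS.gd.ai h
        rw [h1, hS.bm] at hmj
        exact hrlj hmj.symm
      have hU : Unl (c l) (a m) (c j) (a mj) := by
        rw [hS.am]
        refine ⟨fun h => hjl (hS.gd.ci h).symm, haj.symm, fun h => hjk (hS.gd.ci h).symm,
          haj2.symm, ?_⟩
        constructor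
        · intro h
          exact absurd h (hc j)
        · intro h
          obtain ⟨i, hi⟩ := hS.gd.ac mj
          rw [hi] at h
          exact absurd h (hc i)
      rw [hROW ι κ α β c r a b hS.gd l j m mj hjl.symm hj2 hS.bm hmj.symm hU]
      set r' : ι → β := swap (r l) (r j) ∘ r with hr'
      set b' : κ → β := swap (r l) (r j) ∘ b with hb'
      have r'l : r' l = r j := swap_apply_left _ _
      have r'j : r' j = r l := swap_apply_right _ _
      have r'o : ∀ i, i ≠ l → i ≠ j → r' i = r i := by
        intro i h1 h2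
        exact swap_apply_of_ne_of_ne (fun h => h1 (hS.gd.ri h)) (fun h => h2 (hS.gd.ri h))
      have b'n : b' n = b n := swap_apply_of_ne_of_ne hbl hbj
      have hS' : Srt c r' a b' l k m n := by
        refine ⟨⟨hS.gd.ci, (swap (r l) (r j)).injective.comp hS.gd.ri, hS.gd.ai,
          (swap (r l) (r j)).injective.comp hS.gd.bi, hS.gd.ac, hS.gd.ca, ?_, ?_, ?_⟩, hS.ne,
          hS.am, ?_, hS.an⟩
        · intro m'
          obtain ⟨i, hi⟩ := hS.gd.br m'
          exact ⟨i, by rw [hr', hb', comp_apply, comp_apply, hi]⟩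
        · intro i
          obtain ⟨m', hm'⟩ := hS.gd.rb i
          exact ⟨m', by rw [hr', hb', comp_apply, comp_apply, hm']⟩
        · intro i m' h
          exact hS.gd.ne i m' ⟨h.1, (swap (r l) (r j)).injective h.2⟩
        · rw [hr', hb', comp_apply, comp_apply, hS.bm]
      have hn' : cyc (r' l) (r' k) (b' n) := by
        rw [r'l, b'n, r'o k hS.ne.symm hjk.symm]
        unfold cyc at *; grind
      have hcard : (univ.filter fun i => cyc (r' l) (r' i) (r' k)).card ≤ N := by
        have hlt : (univ.filter fun i => cyc (r' l) (r' i) (r' k)).card <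
            (univ.filter fun i => cyc (r l) (r i) (r k)).card := by
          apply Finset.card_lt_card
          rw [Finset.ssubset_iff_of_subset]
          · refine ⟨j, by simp [hj1], ?_⟩
            intro h
            have h1 : cyc (r' l) (r' j) (r' k) := by simpa using h
            rw [r'l, r'j, r'o k hS.ne.symm hjk.symm] at h1
            unfold cyc at h1 hj1; grind
          · intro i h
            have h1 : cyc (r' l) (r' i) (r' k) := by simpa using h
            have h2 : cyc (r l) (r i) (r k) := by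
              rw [r'l, r'o k hS.ne.symm hjk.symm] at h1
              by_cases hil : i = l
              · rw [hil, r'l] at h1
                unfold cyc at h1; grind
              · by_cases hij : i = j
                · rw [hij, r'j] at h1
                  unfold cyc at h1 hj1; grind
                · rw [r'o i hil hij] at h1
                  unfold cyc at h1 hj1 ⊢; grind
            simp [h2]
        omega
      rw [ih r' b' hS' hc hn' hcard]
      have hrow := fam2 (α := β) (X := {i // i ≠ l} ⊕ {n' // n' ≠ m}) (p := r l) (q := r j)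
        (P := Sum.elim (fun i : {i // i ≠ l} => r i) (fun n' : {n' // n' ≠ m} => b n'))
        (P' := Sum.elim (fun i : {i // i ≠ l} => r' i)
          (fun n' : {n' // n' ≠ m} => b' n')) ?_ ?_ ?_
      · apply hREL _ _ _ _ _ _ _ _ _ _ _ _ _ _ _ _ (Equiv.refl _) (Equiv.refl _)
        · intro x y z; simp
        · intro x y; simp
        · intro x y z
          simp only [Equiv.sumCongr_refl, Equiv.refl_apply]
          exact (hrow.1 x y z).symm
        · intro x y
          simp only [Equiv.sumCongr_refl, Equiv.refl_apply]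
          exact (hrow.2 x y).symm
      · rintro (⟨i, hi⟩ | ⟨n', hn''⟩)
        · simp only [Sum.elim_inl]
          by_cases hij : i = j
          · rw [hij, if_pos rfl, r'j]
          · rw [if_neg (fun h => hij (hS.gd.ri h)), r'o i hi hij]
        · simp only [Sum.elim_inr]
          by_cases h : b n' = r j
          · rw [if_pos h, hb', comp_apply, h, swap_apply_right]
          · rw [if_neg h, hb', comp_apply]
            apply swap_apply_of_ne_of_ne _ h
            intro h'
            rw [← hS.bm] at h'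
            exact hn'' (hS.gd.bi h')
      · rintro (⟨i, hi⟩ | ⟨n', hn''⟩)
        · intro h
          exact hi (hS.gd.ri h)
        · intro h
          have h' : b n' = r l := h
          rw [← hS.bm] at h'
          exact hn'' (hS.gd.bi h')
      · rintro (⟨i, hi⟩ | ⟨n', hn''⟩)
        · exact hj2 i
        · obtain ⟨i, hi⟩ := hS.gd.br n'
          show ¬ cyc (r l) (b n') (r j)
          rw [hi]
          exact hj2 i
    · push Not at hex
      exact base hSTB hREL c r a b l k m n hS hc hex

end Main

end LG.SR1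

namespace LG

open Equiv Finset Function

theorem t_SR1 : Stmt_SR1 := by
  intro hROW hSTB hREL ι κ α β _ _ _ _ _ _ c r a b l k m n hS hc hn
  exact SR1.main hROW hSTB hREL c a l k m n _ r b hS hc hn le_rfl

end LG


end

section

/-!
# CM: a column moves over a rectangle without marks
-/

namespace LH

namespace CM

open Set LG

/-- Alternating of two entries. -/
def AR (p q : En) : Prop := p.isLeft = !q.isLeft

theorem chain_of_zip {R : En → En → Prop} :
    ∀ (T : List En) (x y : En), (∀ p ∈ (x :: T).zip (T ++ [y]), R p.1 p.2) →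
      List.IsChain R (x :: T)
  | [], x, y, _ => by simp
  | z :: T, x, y, h => by
      have h1 : R x z := h (x, z) (by simp)
      have h2 : List.IsChain R (z :: T) := chain_of_zip T z y (fun p hp => h p (by
        simp only [List.cons_append, List.zip_cons_cons, List.mem_cons]
        exact Or.inr hp))
      exact List.isChain_cons_cons.2 ⟨h1, h2⟩

theorem chain_of_cp {x : En} {T : List En} (h : ∀ p ∈ cp (x :: T), p.1.isLeft = !p.2.isLeft) :
    List.IsChain AR (x :: T) := by
  apply chain_of_zip T x x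
  intro p hp
  apply h p
  unfold cp
  simpa using hp

theorem mem_zip (p q : En) (B : List En) :
    ∀ (A : List En) (y : En), (p, q) ∈ (A ++ p :: q :: B).zip ((A ++ p :: q :: B).tail ++ [y])
  | [], y => by simp
  | a :: A, y => by
      have ih := mem_zip p q B A y
      have hne : A ++ p :: q :: B ≠ [] := by simp
      obtain ⟨h, t, ht⟩ := List.exists_cons_of_ne_nil hne
      rw [ht] at ih
      simp only [List.cons_append, List.tail_cons]
      rw [ht]
      simp only [List.cons_append, List.zip_cons_cons, List.mem_cons]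
      exact Or.inr (by simpa using ih)

theorem mem_cp (p q : En) (A B : List En) : (p, q) ∈ cp (A ++ p :: q :: B) := by
  unfold cp
  cases A with
  | nil => simp
  | cons a A =>
      have := mem_zip p q B (a :: A) a
      simpa using this

theorem parse : ∀ (n : ℕ) (l : List En) (c r : Q), l.length ≤ n → List.IsChain AR (Sum.inl c :: l) →
    (Sum.inl c :: l).getLast (by simp) = Sum.inr r → ∃ L : List (Q × Q), Sum.inl c :: l = fl L
  | 0, l, c, r, hn, _, hl => by
      have : l = [] := List.length_eq_zero_iff.1 (Nat.le_zero.1 hn)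
      subst this
      simp at hl
  | n + 1, [], c, r, _, _, hl => by simp at hl
  | n + 1, Sum.inl x :: l, c, r, _, hc, _ => by
      have := (List.isChain_cons_cons.1 hc).1
      simp [AR] at this
  | n + 1, [Sum.inr x], c, r, _, hc, _ => ⟨[(c, x)], by simp [fl]⟩
  | n + 1, Sum.inr x :: Sum.inr z :: l, c, r, _, hc, _ => by
      have h2 := (List.isChain_cons_cons.1 hc).2
      have := (List.isChain_cons_cons.1 h2).1
      simp [AR] at this
  | n + 1, Sum.inr x :: Sum.inl z :: l, c, r, hn, hc, hl => by
      have h2 := (List.isChain_cons_cons.1 hc).2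
      have h3 := (List.isChain_cons_cons.1 h2).2
      have hl' : (Sum.inl z :: l).getLast (by simp) = (Sum.inr r : En) := by
        simpa using hl
      obtain ⟨L, hL⟩ := parse n l z r (by simp at hn; omega) h3 hl'
      exact ⟨(c, x) :: L, by simp [fl] at hL ⊢; exact hL⟩

theorem fl_map (f g : Q → ℝ) (L : List (Q × Q)) :
    fl (L.map (Prod.map f g)) = (fl L).map (Sum.map f g) := by
  induction L with
  | nil => simp [fl]
  | cons p L ih =>
      simp only [fl, List.map_cons, List.flatMap_cons] at ih ⊢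
      rw [ih]
      simp

theorem fl_append {α β : Type*} (L L' : List (α × β)) : fl (L ++ L') = fl L ++ fl L' := by
  simp [fl]

theorem inl_mem_fl {α β : Type*} (L : List (α × β)) (a : α) :
    Sum.inl a ∈ fl L ↔ a ∈ L.map Prod.fst := by
  simp [fl]

theorem inr_mem_fl {α β : Type*} (L : List (α × β)) (b : β) :
    Sum.inr b ∈ fl L ↔ b ∈ L.map Prod.snd := by
  simp [fl]

theorem nodup_fl {α β : Type*} (L : List (α × β)) (h : (fl L).Nodup) :
    (L.map Prod.fst).Nodup ∧ (L.map Prod.snd).Nodup := by
  induction L with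
  | nil => simp
  | cons p L ih =>
      have e : fl (p :: L) = Sum.inl p.1 :: Sum.inr p.2 :: fl L := by simp [fl]
      rw [e] at h
      rw [List.nodup_cons, List.nodup_cons] at h
      obtain ⟨h1, h2, h3⟩ := h
      obtain ⟨i1, i2⟩ := ih h3
      simp only [List.map_cons, List.nodup_cons]
      refine ⟨⟨?_, i1⟩, ⟨?_, i2⟩⟩
      · intro hm
        apply h1
        exact List.mem_cons_of_mem _ ((inl_mem_fl _ _).2 hm)
      · intro hm
        apply h2
        exact (inr_mem_fl _ _).2 hm

open Classical in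
/-- The number of elements of `S` below `x`. -/
noncomputable def rk (S : Finset Q) (x : Q) : ℝ := ((S.filter (· < x)).card : ℝ)

theorem rk_lt {S : Finset Q} {x y : Q} (hx : x ∈ S) (h : x < y) : rk S x < rk S y := by
  classical
  unfold rk
  have : (S.filter (· < x)).card < (S.filter (· < y)).card := by
    apply Finset.card_lt_card
    rw [Finset.ssubset_iff_of_subset]
    · exact ⟨x, by simp [hx, h], by simp⟩
    · intro z hz
      simp only [Finset.mem_filter] at hz ⊢
      exact ⟨hz.1, hz.2.trans h⟩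
  exact_mod_cast this

theorem rk_lt_iff {S : Finset Q} {x y : Q} (hx : x ∈ S) (hy : y ∈ S) :
    rk S x < rk S y ↔ x < y := by
  constructor
  · intro h
    rcases lt_trichotomy x y with h' | h' | h'
    · exact h'
    · subst h'; exact absurd h (lt_irrefl _)
    · exact absurd (rk_lt hy h') (not_lt.2 h.le)
  · exact rk_lt hx

theorem rk_inj {S : Finset Q} {x y : Q} (hx : x ∈ S) (hy : y ∈ S) (h : rk S x = rk S y) :
    x = y := by
  rcases lt_trichotomy x y with h' | h' | h'
  · exact absurd (rk_lt hx h') (by rw [h]; exact lt_irrefl _)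
  · exact h'
  · exact absurd (rk_lt hy h') (by rw [h]; exact lt_irrefl _)

theorem unl_of {a b x y : ℝ} (h1 : x < min a b ∨ max a b < x) (h2 : y < min a b ∨ max a b < y) :
    Unl a b x y := by
  unfold Unl cyc
  grind

end CM

open _root_.LH.CM LG Set in
theorem t_CM : Stmt_CM := by
  classical
  intro _ _ a a' r₁ r₂ B hAlt hnd ha'B haa' hM
  -- parse the list
  have hch := chain_of_cp hAlt.2
  obtain ⟨L, hL⟩ := parse _ (Sum.inr r₂ :: (B ++ [Sum.inr r₁])) a r₁ le_rfl hch
    (by simp)
  obtain _ | ⟨p0, L1⟩ := L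
  · simp [fl] at hL
  have e0 : fl (p0 :: L1) = Sum.inl p0.1 :: Sum.inr p0.2 :: fl L1 := by simp [fl]
  rw [e0] at hL
  have ha : p0.1 = a := by
    have := (List.cons.inj hL).1
    exact (Sum.inl.inj this).symm
  have hr : p0.2 = r₂ := by
    have := (List.cons.inj (List.cons.inj hL).2).1
    exact (Sum.inr.inj this).symm
  have hT : B ++ [Sum.inr r₁] = fl L1 := (List.cons.inj (List.cons.inj hL).2).2
  rcases List.eq_nil_or_concat L1 with h | ⟨L', z, h⟩
  · subst h; simp [fl] at hT
  rw [List.concat_eq_append] at h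
  subst h
  have ez : fl (L' ++ [z]) = fl L' ++ [Sum.inl z.1] ++ [Sum.inr z.2] := by simp [fl]
  have hT' := hT
  rw [ez] at hT'
  obtain ⟨hB, hz⟩ := List.append_inj' hT' rfl
  have hz2 : z.2 = r₁ := by
    have := (List.cons.inj hz).1
    exact (Sum.inr.inj this).symm
  obtain ⟨q1, q2⟩ := p0
  simp only at ha hr
  subst ha hr
  -- the lists
  set W : List En := Sum.inl q1 :: Sum.inr q2 :: (B ++ [Sum.inr r₁]) with hW
  set W' : List En := Sum.inl a' :: Sum.inr q2 :: (B ++ [Sum.inr r₁]) with hW'
  have eW : W = fl ((q1, q2) :: (L' ++ [z])) := by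
    rw [hW, hT]; simp [fl]
  have eW' : W' = fl ((a', q2) :: (L' ++ [z])) := by
    rw [hW', hT]; simp [fl]
  -- nodup of W'
  have hnd' : W'.Nodup := by
    rw [hW'] 
    rw [hW] at hnd
    rw [List.nodup_cons] at hnd ⊢
    refine ⟨?_, hnd.2⟩
    intro hm
    simp only [List.mem_cons, reduceCtorEq, List.mem_append, List.not_mem_nil, or_false,
      false_or] at hm
    exact ha'B hm
  -- finite sets
  set S : Finset Q := insert a' (((q1, q2) :: (L' ++ [z])).map Prod.fst).toFinset with hS
  set R : Finset Q := (((q1, q2) :: (L' ++ [z])).map Prod.snd).toFinset with hR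
  have hSW : ∀ c, Sum.inl c ∈ W → c ∈ S := by
    intro c hc
    rw [eW, inl_mem_fl] at hc
    rw [hS]
    exact Finset.mem_insert_of_mem (List.mem_toFinset.2 hc)
  have ha'S : a' ∈ S := Finset.mem_insert_self _ _
  have hSW' : ∀ c, Sum.inl c ∈ W' → c ∈ S := by
    intro c hc
    rw [eW', inl_mem_fl] at hc
    rw [List.map_cons, List.mem_cons] at hc
    rcases hc with hc | hc
    · rw [hc]; exact ha'S
    · rw [hS]
      apply Finset.mem_insert_of_mem
      rw [List.mem_toFinset, List.map_cons]
      exact List.mem_cons_of_mem _ hc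
  have hRW : ∀ c, Sum.inr c ∈ W → c ∈ R := by
    intro c hc
    rw [eW, inr_mem_fl] at hc
    exact List.mem_toFinset.2 hc
  have hRW' : ∀ c, Sum.inr c ∈ W' → c ∈ R := by
    intro c hc
    rw [eW', inr_mem_fl] at hc
    exact List.mem_toFinset.2 hc
  set f : Q → ℝ := fun x => - rk S x with hf
  set g : Q → ℝ := fun x => rk R x with hg
  have hRp : Rp W (((q1, q2) :: (L' ++ [z])).map (Prod.map f g)) := by
    refine ⟨hnd, f, g, ?_, ?_, ?_⟩
    · intro x y hx _ hxy
      have := rk_lt (hSW x hx) hxy
      simp only [hf]; linarith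
    · intro x y hx _ hxy
      exact rk_lt (hRW x hx) hxy
    · rw [fl_map, ← eW]
  have hRp' : Rp W' (((a', q2) :: (L' ++ [z])).map (Prod.map f g)) := by
    refine ⟨hnd', f, g, ?_, ?_, ?_⟩
    · intro x y hx _ hxy
      have := rk_lt (hSW' x hx) hxy
      simp only [hf]; linarith
    · intro x y hx _ hxy
      exact rk_lt (hRW' x hx) hxy
    · rw [fl_map, ← eW']
  refine ⟨_, _, hRp, hRp', ?_⟩
  -- membership facts
  have hcolS : ∀ p ∈ ((q1, q2) :: (L' ++ [z])), p.1 ∈ S := by
    intro p hp
    apply hSW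
    rw [eW, inl_mem_fl]
    exact List.mem_map_of_mem hp
  have hrowR : ∀ p ∈ ((q1, q2) :: (L' ++ [z])), p.2 ∈ R := by
    intro p hp
    apply hRW
    rw [eW, inr_mem_fl]
    exact List.mem_map_of_mem hp
  have hfinj : ∀ x ∈ S, ∀ y ∈ S, f x = f y → x = y := by
    intro x hx y hy h
    exact rk_inj hx hy (by simp only [hf] at h; linarith)
  have hginj : ∀ x ∈ R, ∀ y ∈ R, g x = g y → x = y := by
    intro x hx y hy h
    exact rk_inj hx hy h
  obtain ⟨nd1, nd2⟩ := nodup_fl _ (eW ▸ hnd)
  obtain ⟨nd1', -⟩ := nodup_fl _ (eW' ▸ hnd')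
  apply Relation.EqvGen.rel
  have hmap : ∀ x : Q, ((x, q2) :: (L' ++ [z])).map (Prod.map f g) =
      (f x, g q2) :: (L'.map (Prod.map f g) ++ [Prod.map f g z]) := by
    intro x; simp
  rw [hmap, hmap]
  apply Mv.col
  · -- Nd
    rw [← hmap q1]
    constructor
    · have : (((q1, q2) :: (L' ++ [z])).map (Prod.map f g)).map Prod.fst =
          (((q1, q2) :: (L' ++ [z])).map Prod.fst).map f := by
        simp [Function.comp_def]
      rw [this]
      apply List.Nodup.map_on _ nd1
      intro x hx y hy h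
      refine hfinj x ?_ y ?_ h
      · exact Finset.mem_insert_of_mem (List.mem_toFinset.2 hx)
      · exact Finset.mem_insert_of_mem (List.mem_toFinset.2 hy)
    · have : (((q1, q2) :: (L' ++ [z])).map (Prod.map f g)).map Prod.snd =
          (((q1, q2) :: (L' ++ [z])).map Prod.snd).map g := by
        simp [Function.comp_def]
      rw [this]
      apply List.Nodup.map_on _ nd2
      intro x hx y hy h
      exact hginj x (List.mem_toFinset.2 hx) y (List.mem_toFinset.2 hy) h
  · -- ht
    rw [← hmap q1]
    intro hm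
    have e : (((q1, q2) :: (L' ++ [z])).map (Prod.map f g)).map Prod.fst =
          (((q1, q2) :: (L' ++ [z])).map Prod.fst).map f := by
      simp [Function.comp_def]
    rw [e, List.mem_map] at hm
    obtain ⟨x, hx, hxe⟩ := hm
    have hxa : x = a' := by
      refine hfinj x ?_ a' ha'S hxe
      exact Finset.mem_insert_of_mem (List.mem_toFinset.2 hx)
    subst hxa
    rw [List.map_cons, List.mem_cons] at hx
    rw [List.map_cons, List.nodup_cons] at nd1'
    rcases hx with hx | hx
    · exact haa' hx
    · exact nd1'.1 hx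
  · -- hu
    intro B₁ B₂ y x hdec hbt
    rw [← hmap q1] at hdec
    obtain ⟨A₁, A₂, hA, hA1, hA2⟩ := List.map_eq_append_iff.1 hdec
    obtain ⟨y', A₃, rfl, hy', hA3⟩ := List.map_eq_cons_iff.1 hA2
    obtain ⟨x', A₄, rfl, hx', hA4⟩ := List.map_eq_cons_iff.1 hA3
    subst hy' hx'
    have hy'm : y' ∈ ((q1, q2) :: (L' ++ [z])) := by rw [hA]; simp
    have hx'm : x' ∈ ((q1, q2) :: (L' ++ [z])) := by rw [hA]; simp
    have hzm : z ∈ ((q1, q2) :: (L' ++ [z])) := by simp
    have hqm : ((q1, q2) : Q × Q) ∈ ((q1, q2) :: (L' ++ [z])) := by simp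
    have eWd : W = (fl A₁ ++ [Sum.inl y'.1]) ++ Sum.inr y'.2 :: Sum.inl x'.1 ::
        (Sum.inr x'.2 :: fl A₄) := by
      rw [eW, hA]; simp [fl]
    have eWd2 : W = (fl A₁ ++ [Sum.inl y'.1, Sum.inr y'.2]) ++ Sum.inl x'.1 :: Sum.inr x'.2 ::
        fl A₄ := by
      rw [eW, hA]; simp [fl]
    have m1 : Mk W x'.1 y'.2 := by
      right; rw [eWd]; exact mem_cp _ _ _ _
    have m2 : Mk W x'.1 x'.2 := by
      left; rw [eWd2]; exact mem_cp _ _ _ _
    have hxS := hcolS x' hx'm
    have hqS := hcolS _ hqm
    simp only at hqS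
    have hB : Btw q1 a' x'.1 := by
      simp only [Prod.map_fst, hf, neg_lt_neg_iff] at hbt
      rw [rk_lt_iff hxS hqS, rk_lt_iff ha'S hxS, rk_lt_iff hxS ha'S, rk_lt_iff hqS hxS] at hbt
      unfold Btw
      tauto
    have n1 := hM _ _ m1 hB
    have n2 := hM _ _ m2 hB
    have hzR := hrowR _ hzm
    have hqR := hrowR _ hqm
    have hyR := hrowR _ hy'm
    have hxR := hrowR _ hx'm
    simp only at hqR
    simp only [Prod.map_snd, hg]
    rw [← hz2] at n1 n2
    have key : ∀ r ∈ R, r ∉ uIcc z.2 q2 → rk R r < min (rk R z.2) (rk R q2) ∨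
        max (rk R z.2) (rk R q2) < rk R r := by
      intro r hr hn
      rw [lt_min_iff, max_lt_iff, rk_lt_iff hr hzR, rk_lt_iff hr hqR, rk_lt_iff hzR hr,
        rk_lt_iff hqR hr]
      rw [Set.mem_uIcc, not_or, not_and, not_and, not_le, not_le] at hn
      rcases lt_or_ge r z.2 with h1 | h1
      · left
        refine ⟨h1, ?_⟩
        by_contra h2
        exact absurd (hn.2 (not_lt.1 h2)) (not_lt.2 h1.le)
      · have h3 := hn.1 h1
        rcases h1.lt_or_eq with h4 | h4
        · exact Or.inr ⟨h4, h3⟩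
        · exfalso
          have h5 := hn.2 (h4 ▸ h3.le)
          exact absurd h5 (by rw [h4]; exact lt_irrefl _)
    exact unl_of (key _ hyR n1) (key _ hxR n2)

end LH


end

section

/-!
# CWP: the walk of points for generic lines
-/

namespace LH

open Set LG

namespace CWP

/-- The edge `e` crosses the line `t`. -/
def Crs {N : ℕ} (P : Pg N) (t : ℝ) (e : ℤ) : Prop :=
  P.x e < t ∧ t < P.x (e + 1) ∨ P.x (e + 1) < t ∧ t < P.x e

/-- Two different parallel edges of a component cannot both cross a line. -/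
theorem core0 {N : ℕ} (P : Pg N) (a b t : ℝ) (p q e₁ e₂ : ℤ) (hG : Good P a b)
    (hC : Comp P a b p q) (h1 : p ≤ e₁) (h2 : e₂ ≤ q) (hlt : e₁ < e₂) (hy : P.y e₁ = P.y e₂)
    (h : YM P p q ∨ Crs P t e₁ ∧ Crs P t e₂) : False := by
  have m1 : e₁ ∈ Icc p q := ⟨h1, by omega⟩
  have m2 : e₂ ∈ Icc p q := ⟨by omega, h2⟩
  have hYM : ¬ YM P p q := by
    rintro (h3 | h3)
    · exact absurd hy (h3 m1 m2 hlt).ne
    · exact absurd hy (h3 m1 m2 hlt).ne'
  have hc := h.resolve_left hYM
  rcases hG.ty p q hC with (h3 | h3) | h3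
  · have k1 : P.x e₁ < P.x (e₁ + 1) := h3 ⟨h1, by omega⟩ ⟨by omega, by omega⟩ (by omega)
    have k2 : P.x e₂ < P.x (e₂ + 1) := h3 ⟨by omega, by omega⟩ ⟨by omega, by omega⟩ (by omega)
    have k3 : P.x (e₁ + 1) ≤ P.x e₂ := by
      rcases eq_or_lt_of_le (show e₁ + 1 ≤ e₂ by omega) with h4 | h4
      · rw [h4]
      · exact (h3 ⟨by omega, by omega⟩ ⟨by omega, by omega⟩ h4).le
    obtain ⟨c1, c2⟩ := hc
    rcases c1 with ⟨c1, c1'⟩ | ⟨c1, c1'⟩ <;> rcases c2 with ⟨c2, c2'⟩ | ⟨c2, c2'⟩ <;> linarith
  · have k1 : P.x (e₁ + 1) < P.x e₁ := h3 ⟨h1, by omega⟩ ⟨by omega, by omega⟩ (by omega)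
    have k2 : P.x (e₂ + 1) < P.x e₂ := h3 ⟨by omega, by omega⟩ ⟨by omega, by omega⟩ (by omega)
    have k3 : P.x e₂ ≤ P.x (e₁ + 1) := by
      rcases eq_or_lt_of_le (show e₁ + 1 ≤ e₂ by omega) with h4 | h4
      · rw [h4]
      · exact (h3 ⟨by omega, by omega⟩ ⟨by omega, by omega⟩ h4).le
    obtain ⟨c1, c2⟩ := hc
    rcases c1 with ⟨c1, c1'⟩ | ⟨c1, c1'⟩ <;> rcases c2 with ⟨c2, c2'⟩ | ⟨c2, c2'⟩ <;> linarith
  · exact hYM h3

theorem core1 {N : ℕ} (P : Pg N) (a b t : ℝ) (p q e₁ e₂ : ℤ) (hG : Good P a b)
    (hC : Comp P a b p q) (h1 : p ≤ e₁) (h1' : e₁ ≤ q) (h2' : p ≤ e₂) (h2 : e₂ ≤ q)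
    (hne : e₁ ≠ e₂) (hy : P.y e₁ = P.y e₂)
    (h : YM P p q ∨ Crs P t e₁ ∧ Crs P t e₂) : False := by
  rcases lt_or_gt_of_ne hne with h3 | h3
  · exact core0 P a b t p q e₁ e₂ hG hC h1 h2 h3 hy h
  · refine core0 P a b t p q e₂ e₁ hG hC h2' h1' h3 hy.symm ?_
    rcases h with h | ⟨h, h'⟩
    · exact Or.inl h
    · exact Or.inr ⟨h', h⟩

/-- Two items of the same line, one cell. -/
theorem core2 (hP : P_PGB) (hM : P_CMP) {N : ℕ} (P : Pg N) (a b t : ℝ) (e₁ e₂ : ℤ)
    (hN : 0 < N) (hG : Good P a b) (m1 : Mts P a b e₁) (m2 : Mts P a b e₂)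
    (i1 : ∀ p q, Comp P a b p q → p ≤ e₁ → e₁ ≤ q → Crs P t e₁ ∨ YM P p q)
    (i2 : ∀ p q, Comp P a b p q → p ≤ e₂ → e₂ ≤ q → Crs P t e₂ ∨ YM P p q)
    (hlt : e₁ < e₂) (hlt' : e₂ < e₁ + N) (hy : P.y e₁ = P.y e₂) (hl : P.l e₁ t = P.l e₂ t) :
    False := by
  obtain ⟨p, q, hC, hp, hq⟩ := hM.ex P a b hN hG e₁ m1
  obtain ⟨p', q', hC', hp', hq'⟩ := hM.ex P a b hN hG e₂ m2
  have hla : ∀ s, P.l e₁ s = P.l e₂ s := by
    intro s
    have h1 := hP.dt P e₁ s t
    have h2 := hP.dt P e₂ s t
    rw [hy] at h1
    linarith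
  rcases hM.sep P a b p q p' q' hN hG hC hC' with ⟨k, hk, hk'⟩ | ⟨h1, -⟩
  · have hs := hP.sh P e₁ k
    have hs' := hP.sh P (e₁ + 1) k
    have hC2 : Comp P a b (p + k * N) (q + k * N) := hM.sh P a b p q k hC
    rw [← hk, ← hk'] at hC2
    have hne : e₁ + k * N ≠ e₂ := by
      intro h
      have h1 : 0 < k * N := by omega
      have h2 : k * N < 1 * N := by omega
      have h3 : (0 : ℤ) < N := by exact_mod_cast hN
      have h4 : k < 1 := lt_of_mul_lt_mul_right h2 h3.le
      have h5 : 0 < k := lt_of_mul_lt_mul_right (show 0 * (N : ℤ) < k * N by omega) h3.le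
      omega
    refine core1 P a b t p' q' (e₁ + k * N) e₂ hG hC2 (by omega) (by omega) hp' hq' hne ?_ ?_
    · rw [hs.2.1, hy]
    · by_cases hYM : YM P p' q'
      · exact Or.inl hYM
      · right
        have c2 := (i2 p' q' hC' hp' hq').resolve_right hYM
        refine ⟨?_, c2⟩
        have c1 : Crs P t e₁ := by
          rcases i1 p q hC hp hq with h | h
          · exact h
          · exfalso
            apply hYM
            have key : ∀ i ∈ Icc p' q', P.y i = P.y (i - k * N) := by
              intro i _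
              have := (hP.sh P (i - k * N) k).2.1
              rw [sub_add_cancel] at this
              exact this
            rcases h with h | h
            · left
              intro i hi j hj hij
              rw [key i hi, key j hj]
              exact h ⟨by have := hi.1; omega, by have := hi.2; omega⟩
                ⟨by have := hj.1; omega, by have := hj.2; omega⟩ (by omega)
            · right
              intro i hi j hj hij
              rw [key i hi, key j hj]
              exact h ⟨by have := hi.1; omega, by have := hi.2; omega⟩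
                ⟨by have := hj.1; omega, by have := hj.2; omega⟩ (by omega)
        unfold Crs at c1 ⊢
        have e1 : e₁ + k * N + 1 = e₁ + 1 + k * N := by ring
        rw [e1, hs.1, hs'.1]
        exact c1
  · rcases h1 with h1 | h1
    · exact absurd (hla a) (h1 e₁ ⟨hp, hq⟩ e₂ ⟨hp', hq'⟩).ne
    · exact absurd (hla a) (h1 e₁ ⟨hp, hq⟩ e₂ ⟨hp', hq'⟩).ne'

/-- The facts about one item and one cell. -/
theorem item (hM : P_CMP) {N : ℕ} (P : Pg N) (X Y : Finset ℝ) (w : List It) (W : ℤ → It)
    (hXY : X ⊆ Y) (hS : Sq P Y w W) (hYX : YX P X w) (a b : ℝ) (hab : AdjX X a b) (n : ℤ)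
    (hw : W n ∈ w) (ha : a ≤ (W n).t) (hb : (W n).t ≤ b) (hR : (W n).k = .R → a < (W n).t)
    (hL : (W n).k = .L → (W n).t < b) :
    Mts P a b (W n).e ∧ ∀ p q, Comp P a b p q → p ≤ (W n).e → (W n).e ≤ q →
      Crs P (W n).t (W n).e ∨ YM P p q := by
  have hok := hS.ok n
  have hl := hS.lnk n
  have haY : a ∈ Y := hXY hab.1
  have hbY : b ∈ Y := hXY hab.2.1
  rcases hk : (W n).k with _ | _ | _ | _
  · obtain ⟨h1, h2⟩ := hok.1 hk
    refine ⟨⟨fun h => ?_, fun h => ?_⟩, fun p q _ _ _ => Or.inl (Or.inl ⟨h1, h2⟩)⟩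
    · linarith [h.2]
    · linarith [h.1]
  · obtain ⟨h1, h2⟩ := hok.2 hk
    refine ⟨⟨fun h => ?_, fun h => ?_⟩, fun p q _ _ _ => Or.inl (Or.inr ⟨h1, h2⟩)⟩
    · linarith [h.1]
    · linarith [h.2]
  · have h1 := hl.tl (Or.inl hk)
    have h2 := hl.ins ((W n).e + 1) (by omega) (by omega)
    have h3 : (W (n + 1)).t < (W n).t := by
      rcases hl.dir with ⟨h, -⟩ | ⟨-, -, h⟩
      · rw [hk] at h
        exact absurd h (by simp [Kd.fw])
      · exact h
    have h4 : (W (n + 1)).t < P.x ((W n).e + 1) ∧ P.x ((W n).e + 1) < (W n).t := by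
      rcases h2 with ⟨h5, h6⟩ | h2
      · exact absurd (h5.trans h6) (lt_asymm h3)
      · exact h2
    have h5 : a ≤ (W (n + 1)).t := by
      by_contra h6
      have h7 := hR hk
      rcases hl.adj with h8 | h8
      · exact absurd h8.2.2.1 (lt_asymm h3)
      · exact h8.2.2.2 a haY ⟨not_le.1 h6, h7⟩
    have h6 : a < P.x ((W n).e + 1) := lt_of_le_of_lt h5 h4.1
    have h7 : P.x ((W n).e + 1) < b := lt_of_lt_of_le h4.2 hb
    refine ⟨⟨fun h => lt_asymm h6 h.2, fun h => lt_asymm h7 h.2⟩, fun p q hC hp hq => Or.inr ?_⟩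
    obtain ⟨p', q', hC', hp', hq', hym⟩ := hYX a b hab (W n) hw (Or.inl hk) h6 h7
    obtain ⟨rfl, rfl⟩ := hM.un P a b p q p' q' (W n).e hC hC' hp hq hp' hq'
    exact hym
  · have h1 := hl.tl (Or.inr hk)
    have h2 := hl.ins ((W n).e + 1) (by omega) (by omega)
    have h3 : (W n).t < (W (n + 1)).t := by
      rcases hl.dir with ⟨-, -, h⟩ | ⟨h, -⟩
      · exact h
      · rw [hk] at h
        exact absurd h (by simp [Kd.fw])
    have h4 : (W n).t < P.x ((W n).e + 1) ∧ P.x ((W n).e + 1) < (W (n + 1)).t := by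
      rcases h2 with h2 | ⟨h5, h6⟩
      · exact h2
      · exact absurd (h5.trans h6) (lt_asymm h3)
    have h5 : (W (n + 1)).t ≤ b := by
      by_contra h6
      have h7 := hL hk
      rcases hl.adj with h8 | h8
      · exact h8.2.2.2 b hbY ⟨h7, not_le.1 h6⟩
      · exact absurd h8.2.2.1 (lt_asymm h3)
    have h6 : a < P.x ((W n).e + 1) := lt_of_le_of_lt ha h4.1
    have h7 : P.x ((W n).e + 1) < b := lt_of_lt_of_le h4.2 h5
    refine ⟨⟨fun h => lt_asymm h6 h.2, fun h => lt_asymm h7 h.2⟩, fun p q hC hp hq => Or.inr ?_⟩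
    obtain ⟨p', q', hC', hp', hq', hym⟩ := hYX a b hab (W n) hw (Or.inr hk) h6 h7
    obtain ⟨rfl, rfl⟩ := hM.un P a b p q p' q' (W n).e hC hC' hp hq hp' hq'
    exact hym

/-- The cell to the left of `t`. -/
theorem cellL (X : Finset ℝ) (t a₀ b₀ : ℝ) (ha : a₀ ∈ X) (hb : b₀ ∈ X) (h1 : a₀ < t)
    (h2 : t ≤ b₀) : ∃ a b, AdjX X a b ∧ a < t ∧ t ≤ b := by
  have n1 : (X.filter (· < t)).Nonempty := ⟨a₀, Finset.mem_filter.2 ⟨ha, h1⟩⟩
  have n2 : (X.filter (t ≤ ·)).Nonempty := ⟨b₀, Finset.mem_filter.2 ⟨hb, h2⟩⟩
  have k1 := Finset.mem_filter.1 (Finset.max'_mem _ n1)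
  have k2 := Finset.mem_filter.1 (Finset.min'_mem _ n2)
  refine ⟨(X.filter (· < t)).max' n1, (X.filter (t ≤ ·)).min' n2, ⟨k1.1, k2.1,
    lt_of_lt_of_le k1.2 k2.2, ?_⟩, k1.2, k2.2⟩
  rintro s hs ⟨h3, h4⟩
  rcases lt_or_ge s t with h5 | h5
  · exact absurd (Finset.le_max' _ s (Finset.mem_filter.2 ⟨hs, h5⟩)) (not_le.2 h3)
  · exact absurd (Finset.min'_le _ s (Finset.mem_filter.2 ⟨hs, h5⟩)) (not_le.2 h4)

/-- The cell to the right of `t`. -/
theorem cellR (X : Finset ℝ) (t a₀ b₀ : ℝ) (ha : a₀ ∈ X) (hb : b₀ ∈ X) (h1 : a₀ ≤ t)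
    (h2 : t < b₀) : ∃ a b, AdjX X a b ∧ a ≤ t ∧ t < b := by
  have n1 : (X.filter (· ≤ t)).Nonempty := ⟨a₀, Finset.mem_filter.2 ⟨ha, h1⟩⟩
  have n2 : (X.filter (t < ·)).Nonempty := ⟨b₀, Finset.mem_filter.2 ⟨hb, h2⟩⟩
  have k1 := Finset.mem_filter.1 (Finset.max'_mem _ n1)
  have k2 := Finset.mem_filter.1 (Finset.min'_mem _ n2)
  refine ⟨(X.filter (· ≤ t)).max' n1, (X.filter (t < ·)).min' n2, ⟨k1.1, k2.1,
    lt_of_le_of_lt k1.2 k2.2, ?_⟩, k1.2, k2.2⟩
  rintro s hs ⟨h3, h4⟩
  rcases le_or_gt s t with h5 | h5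
  · exact absurd (Finset.le_max' _ s (Finset.mem_filter.2 ⟨hs, h5⟩)) (not_le.2 h3)
  · exact absurd (Finset.min'_le _ s (Finset.mem_filter.2 ⟨hs, h5⟩)) (not_le.2 h4)

/-- An item with a column has a cell to the left. -/
theorem exL {N : ℕ} (P : Pg N) (X Y : Finset ℝ) (w : List It) (W : ℤ → It) (hX : GoodX P X)
    (hXY : X ⊆ Y) (hS : Sq P Y w W) (n : ℤ) (hk : (W n).k ≠ .L) :
    ∃ a b, AdjX X a b ∧ a < (W n).t ∧ (W n).t ≤ b := by
  obtain ⟨a₀, ha₀, ha⟩ := hX.lo
  obtain ⟨b₀, hb₀, hb⟩ := hX.hi
  have hok := hS.ok n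
  have hl := hS.lnk n
  rcases hk' : (W n).k with _ | _ | _ | _
  · obtain ⟨h1, h2⟩ := hok.1 hk'
    exact cellL X _ a₀ b₀ ha₀ hb₀ ((ha _).trans h1) (h2.trans (hb _)).le
  · obtain ⟨h1, h2⟩ := hok.2 hk'
    exact cellL X _ a₀ b₀ ha₀ hb₀ ((ha _).trans h1) (h2.trans (hb _)).le
  · have h1 := hl.tl (Or.inl hk')
    have h2 := hl.ins ((W n).e + 1) (by omega) (by omega)
    have h3 : (W (n + 1)).t < (W n).t := by
      rcases hl.dir with ⟨h, -⟩ | ⟨-, -, h⟩
      · rw [hk'] at h
        exact absurd h (by simp [Kd.fw])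
      · exact h
    have h4 : (W (n + 1)).t < P.x ((W n).e + 1) ∧ P.x ((W n).e + 1) < (W n).t := by
      rcases h2 with ⟨h5, h6⟩ | h2
      · exact absurd (h5.trans h6) (lt_asymm h3)
      · exact h2
    refine cellL X _ a₀ b₀ ha₀ hb₀ ((ha _).trans h4.2) ?_
    by_contra h6
    rcases hl.adj with h8 | h8
    · exact absurd h8.2.2.1 (lt_asymm h3)
    · exact h8.2.2.2 b₀ (hXY hb₀) ⟨h4.1.trans (hb _), not_le.1 h6⟩
  · exact absurd hk' hk

/-- An item with a row has a cell to the right. -/
theorem exR {N : ℕ} (P : Pg N) (X Y : Finset ℝ) (w : List It) (W : ℤ → It) (hX : GoodX P X)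
    (hXY : X ⊆ Y) (hS : Sq P Y w W) (n : ℤ) (hk : (W n).k ≠ .R) :
    ∃ a b, AdjX X a b ∧ a ≤ (W n).t ∧ (W n).t < b := by
  obtain ⟨a₀, ha₀, ha⟩ := hX.lo
  obtain ⟨b₀, hb₀, hb⟩ := hX.hi
  have hok := hS.ok n
  have hl := hS.lnk n
  rcases hk' : (W n).k with _ | _ | _ | _
  · obtain ⟨h1, h2⟩ := hok.1 hk'
    exact cellR X _ a₀ b₀ ha₀ hb₀ ((ha _).trans h1).le (h2.trans (hb _))
  · obtain ⟨h1, h2⟩ := hok.2 hk'
    exact cellR X _ a₀ b₀ ha₀ hb₀ ((ha _).trans h1).le (h2.trans (hb _))
  · exact absurd hk' hk
  · have h1 := hl.tl (Or.inr hk')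
    have h2 := hl.ins ((W n).e + 1) (by omega) (by omega)
    have h3 : (W n).t < (W (n + 1)).t := by
      rcases hl.dir with ⟨-, -, h⟩ | ⟨h, -⟩
      · exact h
      · rw [hk'] at h
        exact absurd h (by simp [Kd.fw])
    have h4 : (W n).t < P.x ((W n).e + 1) ∧ P.x ((W n).e + 1) < (W (n + 1)).t := by
      rcases h2 with h2 | ⟨h5, h6⟩
      · exact h2
      · exact absurd (h5.trans h6) (lt_asymm h3)
    refine cellR X _ a₀ b₀ ha₀ hb₀ ?_ (h4.1.trans (hb _))
    by_contra h6
    rcases hl.adj with h8 | h8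
    · exact h8.2.2.2 a₀ (hXY ha₀) ⟨not_le.1 h6, (ha _).trans h4.2⟩
    · exact absurd h8.2.2.1 (lt_asymm h3)

theorem mem_inl (p : Pt) (c : Q) : (Sum.inl c : En) ∈ ent p ↔ p.k ≠ .L ∧ c = p.c := by
  unfold ent
  rcases p with ⟨k, t, h⟩
  cases k <;> simp

theorem mem_inr (p : Pt) (r : Q) : (Sum.inr r : En) ∈ ent p ↔ p.k ≠ .R ∧ r = p.r := by
  unfold ent
  rcases p with ⟨k, t, h⟩
  cases k <;> simp

theorem nodup_ent (p : Pt) : (ent p).Nodup := by
  unfold ent
  rcases p with ⟨k, t, h⟩
  cases k <;> simp

end CWP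

open _root_.LH.CWP in
/-- CWP: the walk of points for generic lines. -/
theorem t_CWP : Stmt_CWP := by
  intro hP hM hQ hLen N P X Y w hX hXY hGen hE hYX
  obtain ⟨W, hS⟩ := hQ.ex P Y w hE
  have hN := hQ.pos P Y w hE
  have tY : ∀ n, (W n).t ∈ Y := by
    intro n
    rcases (hS.lnk n).adj with h | h
    · exact h.1
    · exact h.2.1
  -- the main argument
  have main : ∀ i j : ℕ, i < j → j < w.length → (W i).t = (W j).t →
      P.l (W i).e (W i).t = P.l (W j).e (W j).t →
      ¬ (((W i).k ≠ .L ∧ (W j).k ≠ .L) ∨ ((W i).k ≠ .R ∧ (W j).k ≠ .R)) := by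
    intro i j hij hj ht hl hk
    have hwi : W i ∈ w := by
      rw [← hS.get i (hij.trans hj)]
      exact List.getElem_mem _
    have hwj : W j ∈ w := by
      rw [← hS.get j hj]
      exact List.getElem_mem _
    have e1 : (W i).e < (W j).e := hQ.lt P Y w W hS i j (by exact_mod_cast hij) ht
    have hper := hS.per i
    have e2 : (W j).e < (W i).e + N := by
      have h1 := hQ.lt P Y w W hS j (i + w.length) (by omega) (by
        rw [hper]
        exact ht.symm)
      rw [hper] at h1
      exact h1
    have hy : P.y (W i).e = P.y (W j).e := by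
      by_contra h
      refine (hGen _ (tY i)).2 _ _ h ?_
      rw [hl, ht]
    have hl' : P.l (W i).e (W i).t = P.l (W j).e (W i).t := by
      rw [hl, ht]
    rcases hk with ⟨k1, k2⟩ | ⟨k1, k2⟩
    · obtain ⟨a, b, hab, ha, hb⟩ := exL P X Y w W hX hXY hS i k1
      obtain ⟨m1, i1⟩ := item hM P X Y w W hXY hS hYX a b hab i hwi ha.le hb (fun _ => ha)
        (fun h => absurd h k1)
      obtain ⟨m2, i2⟩ := item hM P X Y w W hXY hS hYX a b hab j hwj (ht ▸ ha.le) (ht ▸ hb)
        (fun _ => ht ▸ ha) (fun h => absurd h k2)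
      rw [← ht] at i2
      exact core2 hP hM P a b _ _ _ hN (hX.gd a b hab) m1 m2 i1 i2 e1 e2 hy hl'
    · obtain ⟨a, b, hab, ha, hb⟩ := exR P X Y w W hX hXY hS i k1
      obtain ⟨m1, i1⟩ := item hM P X Y w W hXY hS hYX a b hab i hwi ha hb.le
        (fun h => absurd h k1) (fun _ => hb)
      obtain ⟨m2, i2⟩ := item hM P X Y w W hXY hS hYX a b hab j hwj (ht ▸ ha) (ht ▸ hb.le)
        (fun h => absurd h k2) (fun _ => ht ▸ hb)
      rw [← ht] at i2
      exact core2 hP hM P a b _ _ _ hN (hX.gd a b hab) m1 m2 i1 i2 e1 e2 hy hl'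
  refine ⟨?_, ?_, hLen P X Y w hX hXY hE⟩
  · unfold ents
    rw [List.nodup_flatMap]
    refine ⟨fun p _ => nodup_ent p, ?_⟩
    rw [List.pairwise_map, List.pairwise_iff_getElem]
    intro i j hi hj hij
    have hwi := hS.get i hi
    have hwj := hS.get j hj
    rw [hwi, hwj]
    intro x hx1 hx2
    rcases x with c | r
    · rw [mem_inl] at hx1 hx2
      have h1 : (pt P (W i)).c = (pt P (W j)).c := hx1.2.symm.trans hx2.2
      have h2 : ((W i).t, P.l (W i).e (W i).t) = ((W j).t, P.l (W j).e (W j).t) :=
        toLex.injective h1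
      rw [Prod.mk.injEq] at h2
      exact main i j hij hj h2.1 h2.2 (Or.inl ⟨hx1.1, hx2.1⟩)
    · rw [mem_inr] at hx1 hx2
      have h1 : (pt P (W i)).r = (pt P (W j)).r := hx1.2.symm.trans hx2.2
      have h2 : (-(W i).t, P.l (W i).e (W i).t) = (-(W j).t, P.l (W j).e (W j).t) :=
        toLex.injective h1
      rw [Prod.mk.injEq] at h2
      exact main i j hij hj (neg_injective h2.1) h2.2 (Or.inr ⟨hx1.1, hx2.1⟩)
  · intro x hx
    obtain ⟨n, rfl⟩ := (hQ.cp P Y w W hS x).1 hx
    exact (hS.lnk n).dir

end LH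


end

section

/-!
# FGC: cells with at most one event are good
-/

namespace LH

open Set LG

namespace FGC

variable {N : ℕ} {P : Pg N} {a b e : ℝ}

/-- a component of the cell is a component over the event -/
theorem compE (he : a < e ∧ e < b) (hu : ∀ s, s ∈ Ev P → a < s → s < b → s = e) {p q : ℤ}
    (h : Comp P a b p q) : CompE P e p q := by
  refine ⟨h.le, ?_, ?_, ?_, ?_⟩
  · intro i h1 h2
    obtain ⟨h3, h4⟩ := h.ins i h1 h2
    exact hu _ (Or.inl ⟨i, rfl⟩) h3 h4
  · rcases h.fst with h1 | h1
    · exact ne_of_lt (by linarith [he.1])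
    · exact ne_of_gt (by linarith [he.2])
  · rcases h.lst with h1 | h1
    · exact ne_of_lt (by linarith [he.1])
    · exact ne_of_gt (by linarith [he.2])
  · intro hpq
    rcases h.one hpq with ⟨h1, h2⟩ | ⟨h1, h2⟩
    · exact Or.inl ⟨by linarith [he.1], by linarith [he.2]⟩
    · exact Or.inr ⟨by linarith [he.1], by linarith [he.2]⟩

/-- all lines of a component pass through the same point over the event -/
theorem line_e (hB : P_PGB) {p q : ℤ} (h : CompE P e p q) : ∀ i ∈ Icc p q, P.l i e = P.l p e := by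
  intro i hi
  obtain ⟨h1, h2⟩ := hi
  revert h2
  induction i, h1 using Int.le_induction with
  | base => intro _; rfl
  | succ n hn ih =>
    intro h2
    have h3 := hB.ls P n e
    have h4 : P.x (n + 1) = e := h.ins (n + 1) (by omega) h2
    rw [h4, sub_self, mul_zero] at h3
    have h5 := ih (by omega)
    linarith

/-- lines with different heights over the event are ordered at the ends -/
theorem ord (hB : P_PGB) (he : a < e ∧ e < b) (hu : ∀ s, s ∈ Ev P → a < s → s < b → s = e)
    (ha : a ∉ Ev P) (hb : b ∉ Ev P) {i j : ℤ} (h : P.l i e < P.l j e) :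
    P.l i a < P.l j a ∧ P.l i b < P.l j b := by
  have key : ∀ t : ℝ, P.l j t - P.l i t = (P.l j e - P.l i e) + (P.y j - P.y i) * (t - e) := by
    intro t
    have h1 := hB.dt P i e t
    have h2 := hB.dt P j e t
    linarith
  have hD : 0 < P.l j e - P.l i e := by linarith
  constructor
  · by_contra hcon
    have h1 := key a
    have h2 : (P.l j e - P.l i e) + (P.y j - P.y i) * (a - e) ≤ 0 := by linarith
    have h3 : 0 < P.y j - P.y i := by
      by_contra h4
      have : 0 ≤ (P.y j - P.y i) * (a - e) :=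
        mul_nonneg_of_nonpos_of_nonpos (by linarith) (by linarith [he.1])
      linarith
    have ht : P.l i (e - (P.l j e - P.l i e) / (P.y j - P.y i)) =
        P.l j (e - (P.l j e - P.l i e) / (P.y j - P.y i)) := by
      have h5 := key (e - (P.l j e - P.l i e) / (P.y j - P.y i))
      have h6 : (P.y j - P.y i) * (e - (P.l j e - P.l i e) / (P.y j - P.y i) - e) =
          -(P.l j e - P.l i e) := by
        field_simp
        ring
      linarith
    have hEv : e - (P.l j e - P.l i e) / (P.y j - P.y i) ∈ Ev P :=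
      Or.inr ⟨i, j, by intro h7; rw [h7] at h3; simp at h3, ht⟩
    have h8 : 0 < (P.l j e - P.l i e) / (P.y j - P.y i) := div_pos hD h3
    have h9 : (P.l j e - P.l i e) / (P.y j - P.y i) ≤ e - a := by
      rw [div_le_iff₀ h3]; nlinarith
    rcases (le_sub_comm.mp h9).lt_or_eq with h10 | h10
    · have := hu _ hEv h10 (by linarith [he.2])
      linarith
    · exact ha (h10 ▸ hEv)
  · by_contra hcon
    have h1 := key b
    have h2 : (P.l j e - P.l i e) + (P.y j - P.y i) * (b - e) ≤ 0 := by linarith
    have h3 : 0 < P.y i - P.y j := by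
      by_contra h4
      have : 0 ≤ (P.y j - P.y i) * (b - e) := mul_nonneg (by linarith) (by linarith [he.2])
      linarith
    have ht : P.l i (e + (P.l j e - P.l i e) / (P.y i - P.y j)) =
        P.l j (e + (P.l j e - P.l i e) / (P.y i - P.y j)) := by
      have h5 := key (e + (P.l j e - P.l i e) / (P.y i - P.y j))
      have h6 : (P.y j - P.y i) * (e + (P.l j e - P.l i e) / (P.y i - P.y j) - e) =
          -(P.l j e - P.l i e) := by
        field_simp
        ring
      linarith
    have hEv : e + (P.l j e - P.l i e) / (P.y i - P.y j) ∈ Ev P :=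
      Or.inr ⟨i, j, by intro h7; rw [h7] at h3; simp at h3, ht⟩
    have h8 : 0 < (P.l j e - P.l i e) / (P.y i - P.y j) := div_pos hD h3
    have h9 : (P.l j e - P.l i e) / (P.y i - P.y j) ≤ b - e := by
      rw [div_le_iff₀ h3]; nlinarith
    have h11 : e + (P.l j e - P.l i e) / (P.y i - P.y j) ≤ b := by linarith
    rcases h11.lt_or_eq with h10 | h10
    · have := hu _ hEv (by linarith [he.1]) h10
      linarith
    · exact hb (h10 ▸ hEv)

end FGC

theorem t_FGC : Stmt_FGC := by
  intro hB N P a b hN hE hab ha hb huni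
  -- the event
  obtain ⟨e, he, hu⟩ : ∃ e, (a < e ∧ e < b) ∧ ∀ s, s ∈ Ev P → a < s → s < b → s = e := by
    by_cases h : ∃ s, s ∈ Ev P ∧ a < s ∧ s < b
    · obtain ⟨e, h1, h2, h3⟩ := h
      exact ⟨e, ⟨h2, h3⟩, fun s hs h4 h5 => huni s e hs h1 h4 h5 h2 h3⟩
    · refine ⟨(a + b) / 2, ⟨by linarith, by linarith⟩, fun s hs h4 h5 => ?_⟩
      exact absurd ⟨s, hs, h4, h5⟩ h
  have hav : ∀ i, P.x i ≠ a ∧ P.x i ≠ b := fun i =>
    ⟨fun h => ha (Or.inl ⟨i, h⟩), fun h => hb (Or.inl ⟨i, h⟩)⟩
  refine ⟨hab, hav, ?_, ?_, ?_⟩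
  · by_contra hcon
    push Not at hcon
    have hx : ∀ i, P.x i = e := by
      intro i
      obtain ⟨h1, h2⟩ := hcon i
      exact hu _ (Or.inl ⟨i, rfl⟩) (lt_of_le_of_ne h1 (Ne.symm (hav i).1))
        (lt_of_le_of_ne h2 (hav i).2)
    obtain ⟨i, hi⟩ := hE.nc
    exact hi (by rw [hx i, hx 0])
  · intro p q hC
    exact hE.ty e p q (FGC.compE he hu hC)
  · intro p q p' q' hC hC' h1 h2
    have hCE := FGC.compE he hu hC
    have hCE' := FGC.compE he hu hC'
    rcases lt_trichotomy (P.l p e) (P.l p' e) with h | h | h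
    · have hall : ∀ i ∈ Icc p q, ∀ j ∈ Icc p' q', P.l i a < P.l j a ∧ P.l i b < P.l j b := by
        intro i hi j hj
        apply FGC.ord hB he hu ha hb
        rw [FGC.line_e hB hCE i hi, FGC.line_e hB hCE' j hj]
        exact h
      exact ⟨Or.inl fun i hi j hj => (hall i hi j hj).1, Or.inl fun i hi j hj => (hall i hi j hj).2⟩
    · have hl : ∀ i ∈ Icc p q, ∀ j ∈ Icc p' q', ∀ t, P.l j t - P.l i t =
          (P.y j - P.y i) * (t - e) := by
        intro i hi j hj t
        have h3 := hB.dt P i e t
        have h4 := hB.dt P j e t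
        rw [FGC.line_e hB hCE i hi] at h3
        rw [FGC.line_e hB hCE' j hj] at h4
        linarith
      rcases hE.sep e p q p' q' hCE hCE' h1 h2 h with hs | hs
      · refine ⟨Or.inr fun i hi j hj => ?_, Or.inl fun i hi j hj => ?_⟩
        · have h3 := hl i hi j hj a
          have h4 : (P.y j - P.y i) * (a - e) < 0 :=
            mul_neg_of_pos_of_neg (by linarith [hs i hi j hj]) (by linarith [he.1])
          linarith
        · have h3 := hl i hi j hj b
          have h4 : 0 < (P.y j - P.y i) * (b - e) :=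
            mul_pos (by linarith [hs i hi j hj]) (by linarith [he.2])
          linarith
      · refine ⟨Or.inl fun i hi j hj => ?_, Or.inr fun i hi j hj => ?_⟩
        · have h3 := hl i hi j hj a
          have h4 : 0 < (P.y j - P.y i) * (a - e) :=
            mul_pos_of_neg_of_neg (by linarith [hs i hi j hj]) (by linarith [he.1])
          linarith
        · have h3 := hl i hi j hj b
          have h4 : (P.y j - P.y i) * (b - e) < 0 :=
            mul_neg_of_neg_of_pos (by linarith [hs i hi j hj]) (by linarith [he.2])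
          linarith
    · have hall : ∀ i ∈ Icc p q, ∀ j ∈ Icc p' q', P.l j a < P.l i a ∧ P.l j b < P.l i b := by
        intro i hi j hj
        apply FGC.ord hB he hu ha hb
        rw [FGC.line_e hB hCE i hi, FGC.line_e hB hCE' j hj]
        exact h
      exact ⟨Or.inr fun i hi j hj => (hall i hi j hj).1, Or.inr fun i hi j hj => (hall i hi j hj).2⟩

end LH


end

section

/-!
# Part C of MP_093788_gt: edges near an item
-/

namespace LH

open Set LG

namespace ITM

theorem adj {Y : Finset ℝ} {a s d t : ℝ} (h1 : AdjX Y a s) (h2 : AdjX Y s d)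
    (h : AdjX Y s t ∨ AdjX Y t s) : t = a ∨ t = d := by
  obtain ⟨ha, hs, has, h1⟩ := h1
  obtain ⟨-, hd, hsd, h2⟩ := h2
  rcases h with ⟨-, ht, hst, h⟩ | ⟨ht, -, hts, h⟩
  · right
    rcases lt_trichotomy t d with h3 | h3 | h3
    · exact absurd ⟨hst, h3⟩ (h2 t ht)
    · exact h3
    · exact absurd ⟨hsd, h3⟩ (h d hd)
  · left
    rcases lt_trichotomy t a with h3 | h3 | h3
    · exact absurd ⟨h3, has⟩ (h a ha)
    · exact h3
    · exact absurd ⟨h3, hts⟩ (h1 t ht)

theorem btw_in {a b s d t x : ℝ} (hd : d ≤ b) (ha : a < s) (hs : s < d) (ht : t = a ∨ t = d)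
    (h : Btw s t x) : a < x ∧ x < b := by
  unfold Btw at h
  rcases ht with rfl | rfl
  · rcases h with h | h <;> constructor <;> linarith
  · rcases h with h | h <;> constructor <;> linarith

/-- The next edge is in the same component. -/
theorem up {N : ℕ} {P : Pg N} {a b : ℝ} {p q e e' : ℤ} (hC : Comp P a b p q) (he : e ≤ q)
    (h : ∀ m, e < m → m ≤ e' → a < P.x m ∧ P.x m < b) : e' ≤ q := by
  by_contra hq
  push Not at hq
  have h1 := h (q + 1) (by omega) (by omega)
  rcases hC.lst with h2 | h2 <;> linarith [h1.1, h1.2]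

theorem dn {N : ℕ} {P : Pg N} {a b : ℝ} {p q e e' : ℤ} (hC : Comp P a b p q) (he : p ≤ e)
    (h : ∀ m, e' < m → m ≤ e → a < P.x m ∧ P.x m < b) : p ≤ e' := by
  by_contra hq
  push Not at hq
  have h1 := h p (by omega) (by omega)
  rcases hC.fst with h2 | h2 <;> linarith [h1.1, h1.2]

theorem YM_sub {N : ℕ} {P : Pg N} {p q p' q' : ℤ} (h : YM P p q) (h1 : p ≤ p') (h2 : q' ≤ q) :
    YM P p' q' := by
  rcases h with h | h
  · exact Or.inl (h.mono (Icc_subset_Icc h1 h2))
  · exact Or.inr (h.mono (Icc_subset_Icc h1 h2))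

theorem YM_sh (hP : P_PGB) {N : ℕ} {P : Pg N} {p q : ℤ} (k : ℤ) (h : YM P p q) :
    YM P (p + k * N) (q + k * N) := by
  have key : ∀ i, P.y (i - k * N) = P.y i := by
    intro i
    have := (hP.sh P (i - k * N) k).2.1
    rw [sub_add_cancel] at this
    exact this.symm
  rcases h with h | h
  · refine Or.inl fun i hi j hj hij => ?_
    rw [← key i, ← key j]
    exact h ⟨by linarith [hi.1], by linarith [hi.2]⟩ ⟨by linarith [hj.1], by linarith [hj.2]⟩
      (by linarith)
  · refine Or.inr fun i hi j hj hij => ?_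
    rw [← key i, ← key j]
    exact h ⟨by linarith [hi.1], by linarith [hi.2]⟩ ⟨by linarith [hj.1], by linarith [hj.2]⟩
      (by linarith)

/-- The component of a turn is monotone in `y`. -/
theorem turn (hP : P_PGB) (hC : P_CMP) (hS : P_SEQ) {N : ℕ} {P : Pg N} {a b s d : ℝ}
    {Y : Finset ℝ} {w : List It} {W : ℤ → It} (h : Sit P a b s d Y w W) {n : ℤ}
    (hk : (W n).k = .R ∨ (W n).k = .L) (hx : a < P.x ((W n).e + 1) ∧ P.x ((W n).e + 1) < b)
    {p q : ℤ} (hpq : Comp P a b p q) (h1 : p ≤ (W n).e) (h2 : (W n).e ≤ q) : YM P p q := by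
  obtain ⟨i, hi, k, hik, -, hie⟩ := hS.mem P Y w W h.sq n
  have hxi : P.x ((W n).e + 1) = P.x (i.e + 1) := by
    have := (hP.sh P (i.e + 1) k).1
    rw [← this, hie]
    congr 1
    ring
  rw [hxi] at hx
  rw [hik] at hk
  obtain ⟨p1, q1, hpq1, h3, h4, hy⟩ := h.yf i hi hk hx.1 hx.2
  have h5 := hC.sh P a b p1 q1 k hpq1
  obtain ⟨rfl, rfl⟩ := hC.un P a b p q (p1 + k * N) (q1 + k * N) (W n).e hpq h5 h1 h2
    (by rw [hie]; linarith) (by rw [hie]; linarith)
  exact YM_sh hP k hy

end ITM

open _root_.LH.ITM in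
theorem t_ITM : Stmt_ITM := by
  intro hP hI hC hS N P a b s d Y w W h n hn
  have hN : 0 < N := hS.pos P Y w (hS.ew P Y w W h.sq)
  have has : a < s := h.l.2.2.1
  have hsd : s < d := h.r.2.2.1
  have hdb := h.db
  -- the neighbours
  have L1 : Lnk P Y (W n) (W (n + 1)) := h.sq.lnk n
  have L0 : Lnk P Y (W (n - 1)) (W n) := by
    have := h.sq.lnk (n - 1)
    rwa [sub_add_cancel] at this
  have T1 : (W (n + 1)).t = a ∨ (W (n + 1)).t = d := by
    have := L1.adj
    rw [hn] at this
    exact adj h.l h.r this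
  have T0 : (W (n - 1)).t = a ∨ (W (n - 1)).t = d := by
    have := L0.adj
    rw [hn] at this
    exact adj h.l h.r this.symm
  have I1 : ∀ m, (W n).e < m → m ≤ (W (n + 1)).e → a < P.x m ∧ P.x m < b := by
    intro m h1 h2
    have := L1.ins m h1 h2
    rw [hn] at this
    exact btw_in hdb has hsd T1 this
  have I0 : ∀ m, (W (n - 1)).e < m → m ≤ (W n).e → a < P.x m ∧ P.x m < b := by
    intro m h1 h2
    have := L0.ins m h1 h2
    rw [hn] at this
    exact btw_in hdb has hsd T0 (Or.symm this)
  have hturn : (W n).k = .R ∨ (W n).k = .L → a < P.x ((W n).e + 1) ∧ P.x ((W n).e + 1) < b := by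
    intro hk
    have := L1.tl hk
    exact I1 _ (by omega) (by omega)
  have hok := h.sq.ok n
  have hM : Mts P a b (W n).e := by
    rcases hk : (W n).k with _ | _ | _ | _
    · have := hok.1 hk
      rw [hn] at this
      exact ⟨fun h1 => by linarith [h1.2], fun h1 => by linarith [h1.1]⟩
    · have := hok.2 hk
      rw [hn] at this
      exact ⟨fun h1 => by linarith [h1.1], fun h1 => by linarith [h1.2]⟩
    · have := hturn (Or.inl hk)
      exact ⟨fun h1 => by linarith [h1.2], fun h1 => by linarith [h1.2]⟩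
    · have := hturn (Or.inr hk)
      exact ⟨fun h1 => by linarith [h1.2], fun h1 => by linarith [h1.2]⟩
  obtain ⟨p, q, hpq, hp, hq⟩ := hC.ex P a b hN h.gd (W n).e hM
  have U1 : (W (n + 1)).e ≤ q := up hpq hq I1
  have D0 : p ≤ (W (n - 1)).e := dn hpq hp I0
  have E1 := L1.le
  have E0 := L0.le
  refine ⟨p, q, hpq, hp, hq, ?_, ?_, ?_⟩
  · rintro x (⟨j, hj, hjt, rfl⟩ | ⟨-, rfl⟩)
    · rcases hj with rfl | rfl
      · rcases T0 with h1 | h1
        · exact ⟨_, D0, by omega, by rw [h1]⟩
        · rw [h1, hn] at hjt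
          linarith
      · rcases T1 with h1 | h1
        · exact ⟨_, by omega, U1, by rw [h1]⟩
        · rw [h1, hn] at hjt
          linarith
    · exact ⟨_, hp, hq, rfl⟩
  · rintro x (⟨j, hj, hjt, rfl⟩ | ⟨-, rfl⟩)
    · rcases hj with rfl | rfl
      · rcases T0 with h1 | h1
        · rw [h1, hn] at hjt
          linarith
        · exact ⟨_, D0, by omega, by rw [h1]⟩
      · rcases T1 with h1 | h1
        · rw [h1, hn] at hjt
          linarith
        · exact ⟨_, by omega, U1, by rw [h1]⟩
    · exact ⟨_, hp, hq, rfl⟩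
  · rintro x hx m M hb
    rcases hx with ⟨j, hj, hjt, rfl⟩ | ⟨-, rfl⟩
    · rcases hj with rfl | rfl
      · -- the previous item
        have h1 : (W (n - 1)).t = d := by
          rcases T0 with h1 | h1
          · rw [h1, hn] at hjt
            linarith
          · exact h1
        rw [h1]
        refine hI.l P (W (n - 1)).e (W n).e s d m M E0 hsd ?_
          (fun k h2 h3 => hb k (by omega) (by omega)) ?_
        · intro k h2 h3
          have := L0.ins k h2 h3
          rw [hn, h1] at this
          rcases this with h4 | h4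
          · linarith [h4.1, h4.2]
          · exact h4
        · have hdir := L0.dir
          rw [hn, h1] at hdir
          have h2 : ¬ (W n).k.ar := by
            rcases hdir with ⟨-, -, h3⟩ | ⟨-, h3, -⟩
            · linarith
            · exact h3
          rcases hk : (W n).k with _ | _ | _ | _
          · rw [hk] at h2
            exact absurd trivial h2
          · have h3 := hok.2 hk
            rcases h.gd.ty p q hpq with (h4 | h4) | h4
            · have h5 := h4 (show (W n).e ∈ Icc p (q + 1) from ⟨hp, by omega⟩)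
                (show (W n).e + 1 ∈ Icc p (q + 1) from ⟨by omega, by omega⟩) (by omega)
              linarith [h3.1, h3.2]
            · exact Or.inr (h4.mono (Icc_subset_Icc D0 (by omega)))
            · exact Or.inl (YM_sub h4 D0 hq)
          · rw [hk] at h2
            exact absurd trivial h2
          · exact Or.inl (YM_sub (turn hP hC hS h (Or.inr hk) (hturn (Or.inr hk)) hpq hp hq) D0 hq)
      · -- the next item
        have h1 : (W (n + 1)).t = d := by
          rcases T1 with h1 | h1
          · rw [h1, hn] at hjt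
            linarith
          · exact h1
        rw [h1]
        refine hI.r P (W n).e (W (n + 1)).e s d m M E1 hsd ?_
          (fun k h2 h3 => hb k (by omega) (by omega)) ?_
        · intro k h2 h3
          have := L1.ins k h2 h3
          rw [hn, h1] at this
          rcases this with h4 | h4
          · exact h4
          · linarith [h4.1, h4.2]
        · have hdir := L1.dir
          rw [hn, h1] at hdir
          have h2 : (W n).k.fw := by
            rcases hdir with ⟨h3, -, -⟩ | ⟨-, -, h3⟩
            · exact h3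
            · linarith
          rcases hk : (W n).k with _ | _ | _ | _
          · have h3 := hok.1 hk
            rcases h.gd.ty p q hpq with (h4 | h4) | h4
            · exact Or.inr (h4.mono (Icc_subset_Icc hp (by omega)))
            · have h5 := h4 (show (W n).e ∈ Icc p (q + 1) from ⟨hp, by omega⟩)
                (show (W n).e + 1 ∈ Icc p (q + 1) from ⟨by omega, by omega⟩) (by omega)
              linarith [h3.1, h3.2]
            · exact Or.inl (YM_sub h4 hp U1)
          · rw [hk] at h2
            exact absurd h2 id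
          · rw [hk] at h2
            exact absurd h2 id
          · exact Or.inl (YM_sub (turn hP hC hS h (Or.inr hk) (hturn (Or.inr hk)) hpq hp hq) hp U1)
    · have h1 := hP.dt P (W n).e s d
      rw [h1]
      have h2 := hb _ hp hq
      constructor
      · exact mul_le_mul_of_nonneg_right h2.1 (by linarith)
      · exact mul_le_mul_of_nonneg_right h2.2 (by linarith)

end LH


end

section

/-!
# The knot crosses the line in the parameter interval of every edge of a component
-/

namespace LHS

open Set LH LC Filter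
open scoped ContDiff Topology

namespace CRS

theorem div_le_div_succ {N : ℕ} (hN : 1 ≤ N) (i : ℤ) : (i : ℝ) / N ≤ ((i : ℝ) + 1) / N := by
  have h : (0 : ℝ) < N := by exact_mod_cast hN
  exact div_le_div_of_nonneg_right (by linarith) h.le

theorem x_eq {Λ : LegKnot} {N : ℕ} {P : Pg N} (h : IsPN Λ N P) (i : ℤ) :
    P.x i = Λ.x ((i : ℝ) / N) := by
  rw [h.1]
  rfl

theorem x_succ {Λ : LegKnot} {N : ℕ} {P : Pg N} (h : IsPN Λ N P) (i : ℤ) :
    P.x (i + 1) = Λ.x (((i : ℝ) + 1) / N) := by
  rw [x_eq h]
  push_cast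
  rfl

end CRS

/-- CRS -/
theorem t_CRS : Stmt_CRS := by
  intro hB Λ N P hN hP e p q hc i hi
  have hle := CRS.div_le_div_succ hN i
  rcases eq_or_lt_of_le hi.1 with h1 | h1
  · rcases eq_or_lt_of_le hi.2 with h2 | h2
    · -- a component with one edge
      have hpq : p = q := h1.trans h2
      have hcont : Continuous Λ.x := (hB Λ).1.continuous
      have hx := CRS.x_eq hP i
      have hx1 := CRS.x_succ hP i
      rcases hc.one hpq with h3 | h3
      · rw [h1, hx, ← h2, hx1] at h3
        obtain ⟨u, hu, he⟩ := intermediate_value_Icc hle hcont.continuousOn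
          (⟨h3.1.le, h3.2.le⟩ : e ∈ Icc (Λ.x ((i : ℝ) / N)) (Λ.x (((i : ℝ) + 1) / N)))
        exact ⟨u, hu, he⟩
      · rw [h1, hx, ← h2, hx1] at h3
        obtain ⟨u, hu, he⟩ := intermediate_value_Icc' hle hcont.continuousOn
          (⟨h3.1.le, h3.2.le⟩ : e ∈ Icc (Λ.x (((i : ℝ) + 1) / N)) (Λ.x ((i : ℝ) / N)))
        exact ⟨u, hu, he⟩
    · refine ⟨((i : ℝ) + 1) / N, ⟨hle, le_rfl⟩, ?_⟩
      rw [← CRS.x_succ hP]
      exact hc.ins (i + 1) (by omega) (by omega)
  · refine ⟨(i : ℝ) / N, ⟨le_rfl, hle⟩, ?_⟩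
    rw [← CRS.x_eq hP]
    exact hc.ins i h1 hi.2

end LHS


end

section

/-!
# PTH: a family of knots with embedded polygons gives a path
-/

set_option autoImplicit false

namespace LHS

open Set LH LC Filter
open scoped ContDiff Topology

namespace PTH

/-- Restriction of a continuous function to a horizontal line. -/
theorem line {f : ℝ × ℝ → ℝ} (hf : ContinuousOn f (Icc 0 1 ×ˢ univ)) (s : ℝ) :
    ContinuousOn (fun t => f (t, s)) (Icc (0 : ℝ) 1) :=
  hf.comp (Continuous.continuousOn (by fun_prop)) fun _ ht => ⟨ht, mem_univ _⟩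

end PTH

open _root_.LHS.PTH in
theorem t_PTH : Stmt_PTH := by
  intro hC hX K N hK hN hpos hemb P P' hP hP'
  obtain ⟨-, hx, hy, -⟩ := hC K hK
  have hx0 : ∀ i : ℤ, ContinuousOn (fun t => x0 (K t) N i) (Icc (0 : ℝ) 1) := fun i =>
    line hx ((i : ℝ) / N)
  have hy0 : ∀ i : ℤ, ContinuousOn (fun t => y0 (K t) N i) (Icc (0 : ℝ) 1) := fun i =>
    line hy (((i : ℝ) + 1 / 2) / N)
  have hmu : ContinuousOn (fun t => mu (K t) N) (Icc (0 : ℝ) 1) := by
    refine ContinuousOn.div ?_ ?_ fun t ht => (hpos t ht).ne'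
    · exact continuousOn_finsetSum _ fun i _ => (hy0 i).mul ((hx0 _).sub (hx0 _))
    · exact continuousOn_finsetSum _ fun i _ => ((hx0 _).sub (hx0 _)).pow 2
  have hy1 : ∀ i : ℤ, ContinuousOn (fun t => y1 (K t) N i) (Icc (0 : ℝ) 1) := fun i =>
    (hy0 i).sub (hmu.mul ((hx0 _).sub (hx0 _)))
  choose F hF using fun t => hX (K t) N hN
  have hFx : ∀ i, ContinuousOn (fun t => (F t).x i) (Icc (0 : ℝ) 1) := by
    intro i
    refine (hx0 i).congr fun t _ => ?_
    exact congrFun (hF t).1 i
  have hFy : ∀ i, ContinuousOn (fun t => (F t).y i) (Icc (0 : ℝ) 1) := by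
    intro i
    refine (hy1 i).congr fun t _ => ?_
    exact congrFun (hF t).2.1 i
  refine ⟨F, fun t ht => hemb t ht _ (hF t), hFx, hFy, ?_, ?_, ?_, ?_, ?_⟩
  · intro i
    induction i using Int.induction_on with
    | zero =>
      refine (continuousOn_const (c := (0 : ℝ))).congr fun t _ => ?_
      exact (hF t).2.2
    | succ i ih =>
      refine (ih.add ((hFy i).mul ((hFx (i + 1)).sub (hFx i)))).congr fun t _ => ?_
      exact (F t).cl i
    | pred i ih =>
      refine (ih.sub ((hFy (-i - 1)).mul ((hFx (-i)).sub (hFx (-i - 1))))).congr fun t _ => ?_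
      have h1 := (F t).cl (-i - 1)
      rw [sub_add_cancel] at h1
      show (F t).z (-i - 1) = (F t).z (-i) - (F t).y (-i - 1) * ((F t).x (-i) - (F t).x (-i - 1))
      rw [h1]
      ring
  · rw [(hF 0).1, hP.1]
  · rw [(hF 0).2.1, hP.2.1]
  · rw [(hF 1).1, hP'.1]
  · rw [(hF 1).2.1, hP'.2.1]

end LHS


end

section

/-!
# CDM: the lines can be replaced by their codes
-/

namespace LHE

open Set LG LH

namespace CDM

/-- The points of the arc `k`, with the codes of the lines. -/
def cA (c o : ℤ → ℤ) (g : ℤ → Bool) (H V : ℤ → ℝ) (k : ℤ) : List (Kd × ℤ × ℝ) :=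
  if g k = g (k + 1) then [(pass (g k), c k, H k)]
  else [(pass (g k), c k, H k), (turn (g k), o k, V k)]

/-- The point of a triple. -/
def tp (f : ℤ → ℝ) (x : Kd × ℤ × ℝ) : Pt := ⟨x.1, f x.2.1, x.2.2⟩

theorem aPt_eq (c o : ℤ → ℤ) (g : ℤ → Bool) (H V : ℤ → ℝ) (f : ℤ → ℝ) (k : ℤ) :
    aPt (fun k => f (c k)) (fun k => f (o k)) g H V k = (cA c o g H V k).map (tp f) := by
  unfold aPt cA tp
  split_ifs <;> rfl

theorem aPts_eq (K : ℕ) (c o : ℤ → ℤ) (g : ℤ → Bool) (H V : ℤ → ℝ) (f : ℤ → ℝ) :
    aPts K (fun k => f (c k)) (fun k => f (o k)) g H V =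
      ((List.range K).flatMap fun k => cA c o g H V (k : ℤ)).map (tp f) := by
  unfold aPts
  rw [List.map_flatMap]
  congr 1
  funext k
  exact aPt_eq c o g H V f k

theorem lex (a b c d : ℝ) : (toLex (a, b) : Q) < toLex (c, d) ↔ a < c ∨ a = c ∧ b < d := by
  rw [Prod.Lex.lt_iff]
  rfl

theorem so (l : List (Kd × ℤ × ℝ)) (f h : ℤ → ℝ) (hf : StrictMono f) (hh : StrictMono h) :
    SO (l.map (tp f)) (l.map (tp h)) := by
  refine ⟨by simp, ?_, ?_, ?_⟩
  · intro i h1 h2
    rw [List.getElem_map, List.getElem_map]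
    rfl
  · intro i j h1 h2 h3 h4 _ _
    rw [List.getElem_map, List.getElem_map, List.getElem_map, List.getElem_map]
    unfold Pt.c tp
    rw [lex, lex]
    simp only
    rw [hf.lt_iff_lt, hh.lt_iff_lt, hf.injective.eq_iff, hh.injective.eq_iff]
  · intro i j h1 h2 h3 h4 _ _
    rw [List.getElem_map, List.getElem_map, List.getElem_map, List.getElem_map]
    unfold Pt.r tp
    rw [lex, lex]
    simp only
    rw [neg_lt_neg_iff, neg_lt_neg_iff, neg_inj, neg_inj, hf.lt_iff_lt, hh.lt_iff_lt,
      hf.injective.eq_iff, hh.injective.eq_iff]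

end CDM

theorem t_CDM : Stmt_CDM := by
  intro K c o g H V f hf
  rw [CDM.aPts_eq K c o g H V f, CDM.aPts_eq K c o g H V (fun n : ℤ => (n : ℝ))]
  exact CDM.so _ _ _ (fun a b h => Int.cast_lt.mpr h) hf

end LHE


end

section

/-!
# VEX: the piece of a vertex is an exact chart
-/

namespace LCA

open Set Filter
open scoped ContDiff Topology

namespace VEX

variable {m n : ℕ}

/-! ### coordinates of a moving polygon -/

theorem cx_deriv {q : ℝ → St n} {v : St n} {s : ℝ} (h : HasDerivAt q v s) (k : Fin n) :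
    HasDerivAt (fun r => (q r).1 k) (v.1 k) s :=
  ((ContinuousLinearMap.proj (R := ℝ) (φ := fun _ : Fin n => ℝ) k).comp
    (ContinuousLinearMap.fst ℝ (Fin n → ℝ) (Fin n → ℝ))).hasFDerivAt.comp_hasDerivAt s h

theorem cF_deriv {q : ℝ → St n} {v : St n} {s : ℝ} (h : HasDerivAt q v s) (k : Fin n) :
    HasDerivAt (fun r => (q r).2 k) (v.2 k) s :=
  ((ContinuousLinearMap.proj (R := ℝ) (φ := fun _ : Fin n => ℝ) k).comp
    (ContinuousLinearMap.snd ℝ (Fin n → ℝ) (Fin n → ℝ))).hasFDerivAt.comp_hasDerivAt s h

theorem pe_deriv (c : Comb m n) {q : ℝ → St n} {v : St n} {s : ℝ} (h : HasDerivAt q v s)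
    (e : Fin m) (hne : (q s).1 (c.rt e) - (q s).1 (c.lf e) ≠ 0) :
    HasDerivAt (fun r => c.pe (q r) e) (c.dpe (q s) v e) s := by
  have h1 := ((cF_deriv h (c.rt e)).sub (cF_deriv h (c.lf e))).div
    ((cx_deriv h (c.rt e)).sub (cx_deriv h (c.lf e))) hne
  refine HasDerivAt.congr_deriv h1 ?_
  simp only [Comb.dpe, Comb.pe, Pi.sub_apply]
  field_simp

theorem ae_deriv (c : Comb m n) {q : ℝ → St n} {v : St n} {s : ℝ} (h : HasDerivAt q v s)
    (e : Fin m) (hne : (q s).1 (c.rt e) - (q s).1 (c.lf e) ≠ 0) :
    HasDerivAt (fun r => c.ae (q r) e) (c.dae (q s) v e) s := by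
  have h1 := (cF_deriv h (c.lf e)).sub ((pe_deriv c h e hne).mul (cx_deriv h (c.lf e)))
  refine HasDerivAt.congr_deriv h1 ?_
  simp only [Comb.dae]
  ring

/-! ### smoothness -/

theorem cx_smooth {g : ℝ × ℝ → St n} {b : ℝ × ℝ} (h : ContDiffAt ℝ ∞ g b) (k : Fin n) :
    ContDiffAt ℝ ∞ (fun a => (g a).1 k) b :=
  ((ContinuousLinearMap.proj (R := ℝ) (φ := fun _ : Fin n => ℝ) k).comp
    (ContinuousLinearMap.fst ℝ (Fin n → ℝ) (Fin n → ℝ))).contDiff.contDiffAt.comp b h

theorem cF_smooth {g : ℝ × ℝ → St n} {b : ℝ × ℝ} (h : ContDiffAt ℝ ∞ g b) (k : Fin n) :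
    ContDiffAt ℝ ∞ (fun a => (g a).2 k) b :=
  ((ContinuousLinearMap.proj (R := ℝ) (φ := fun _ : Fin n => ℝ) k).comp
    (ContinuousLinearMap.snd ℝ (Fin n → ℝ) (Fin n → ℝ))).contDiff.contDiffAt.comp b h

theorem pe_smooth (c : Comb m n) {g : ℝ × ℝ → St n} {b : ℝ × ℝ} (h : ContDiffAt ℝ ∞ g b)
    (e : Fin m) (hne : (g b).1 (c.rt e) - (g b).1 (c.lf e) ≠ 0) :
    ContDiffAt ℝ ∞ (fun a => c.pe (g a) e) b :=
  ((cF_smooth h (c.rt e)).sub (cF_smooth h (c.lf e))).div
    ((cx_smooth h (c.rt e)).sub (cx_smooth h (c.lf e))) hne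

theorem ae_smooth (c : Comb m n) {g : ℝ × ℝ → St n} {b : ℝ × ℝ} (h : ContDiffAt ℝ ∞ g b)
    (e : Fin m) (hne : (g b).1 (c.rt e) - (g b).1 (c.lf e) ≠ 0) :
    ContDiffAt ℝ ∞ (fun a => c.ae (g a) e) b :=
  (cF_smooth h (c.lf e)).sub ((pe_smooth c h e hne).mul (cx_smooth h (c.lf e)))

theorem dpe_smooth (c : Comb m n) {g v : ℝ × ℝ → St n} {b : ℝ × ℝ} (h : ContDiffAt ℝ ∞ g b)
    (hv : ContDiffAt ℝ ∞ v b) (e : Fin m) (hne : (g b).1 (c.rt e) - (g b).1 (c.lf e) ≠ 0) :
    ContDiffAt ℝ ∞ (fun a => c.dpe (g a) (v a) e) b :=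
  (((cF_smooth hv (c.rt e)).sub (cF_smooth hv (c.lf e))).sub
    ((pe_smooth c h e hne).mul ((cx_smooth hv (c.rt e)).sub (cx_smooth hv (c.lf e))))).div
    ((cx_smooth h (c.rt e)).sub (cx_smooth h (c.lf e))) hne

theorem dae_smooth (c : Comb m n) {g v : ℝ × ℝ → St n} {b : ℝ × ℝ} (h : ContDiffAt ℝ ∞ g b)
    (hv : ContDiffAt ℝ ∞ v b) (e : Fin m) (hne : (g b).1 (c.rt e) - (g b).1 (c.lf e) ≠ 0) :
    ContDiffAt ℝ ∞ (fun a => c.dae (g a) (v a) e) b :=
  ((cF_smooth hv (c.lf e)).sub ((dpe_smooth c h hv e hne).mul (cx_smooth h (c.lf e)))).sub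
    ((pe_smooth c h e hne).mul (cx_smooth hv (c.lf e)))

/-- The derivative in the first variable of a smooth function is smooth. -/
theorem part_smooth {J : Set ℝ} (hJ : IsOpen J) {G : ℝ × ℝ → ℝ}
    (hG : ContDiffOn ℝ ∞ G (J ×ˢ univ)) {b : ℝ × ℝ} (hb : b.1 ∈ J) :
    ContDiffAt ℝ ∞ (fun a : ℝ × ℝ => deriv (fun r => G (r, a.2)) a.1) b := by
  have ho : IsOpen (J ×ˢ (univ : Set ℝ)) := hJ.prod isOpen_univ
  have h1 : ContDiffOn ℝ ∞ (fun a => fderiv ℝ G a (1, 0)) (J ×ˢ univ) :=
    (hG.fderiv_of_isOpen ho (m := ∞) (by simp)).clm_apply contDiffOn_const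
  have hmem : b ∈ J ×ˢ (univ : Set ℝ) := ⟨hb, mem_univ _⟩
  refine (h1.contDiffAt (ho.mem_nhds hmem)).congr_of_eventuallyEq ?_
  filter_upwards [ho.mem_nhds hmem] with a ha
  have hd : DifferentiableAt ℝ G (a.1, a.2) :=
    (hG.contDiffAt (ho.mem_nhds ha)).differentiableAt (by simp)
  have h2 : HasDerivAt (fun r : ℝ => (r, a.2)) ((1 : ℝ), (0 : ℝ)) a.1 :=
    (hasDerivAt_id a.1).prodMk (hasDerivAt_const a.1 a.2)
  exact (hd.hasFDerivAt.comp_hasDerivAt a.1 h2).deriv

/-- The derivative from the two derivatives in the variables. -/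
theorem fderiv_two {g : ℝ × ℝ → ℝ} {b : ℝ × ℝ} (hg : DifferentiableAt ℝ g b) {A B : ℝ}
    (hA : HasDerivAt (fun r => g (r, b.2)) A b.1) (hB : HasDerivAt (fun r => g (b.1, r)) B b.2)
    (v : ℝ × ℝ) : fderiv ℝ g b v = v.1 * A + v.2 * B := by
  have h2 : HasDerivAt (fun r : ℝ => (r, b.2)) ((1 : ℝ), (0 : ℝ)) b.1 :=
    (hasDerivAt_id b.1).prodMk (hasDerivAt_const b.1 b.2)
  have h3 : HasDerivAt (fun r : ℝ => (b.1, r)) ((0 : ℝ), (1 : ℝ)) b.2 :=
    (hasDerivAt_const b.2 b.1).prodMk (hasDerivAt_id b.2)
  have hg' : HasFDerivAt g (fderiv ℝ g b) (b.1, b.2) := hg.hasFDerivAt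
  have e1 : fderiv ℝ g b (1, 0) = A :=
    (hg'.comp_hasDerivAt b.1 h2).unique hA
  have e2 : fderiv ℝ g b (0, 1) = B :=
    (hg'.comp_hasDerivAt b.2 h3).unique hB
  have e3 : v = v.1 • ((1 : ℝ), (0 : ℝ)) + v.2 • ((0 : ℝ), (1 : ℝ)) := by
    ext <;> simp
  rw [e3, map_add, map_smul, map_smul, e1, e2]
  simp

theorem part_one {G : ℝ × ℝ → ℝ} {b : ℝ × ℝ} (hG : DifferentiableAt ℝ G b) :
    HasDerivAt (fun r => G (r, b.2)) (deriv (fun r => G (r, b.2)) b.1) b.1 := by
  have h2 : DifferentiableAt ℝ (fun r : ℝ => (r, b.2)) b.1 :=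
    differentiableAt_id.prodMk (differentiableAt_const _)
  have hG' : DifferentiableAt ℝ G (b.1, b.2) := hG
  exact (hG'.comp b.1 h2).hasDerivAt

theorem part_two {G : ℝ × ℝ → ℝ} {b : ℝ × ℝ} (hG : DifferentiableAt ℝ G b) :
    HasDerivAt (fun r => G (b.1, r)) (deriv (fun r => G (b.1, r)) b.2) b.2 := by
  have h2 : DifferentiableAt ℝ (fun r : ℝ => (b.1, r)) b.2 :=
    (differentiableAt_const _).prodMk differentiableAt_id
  have hG' : DifferentiableAt ℝ G (b.1, b.2) := hG
  exact (hG'.comp b.2 h2).hasDerivAt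

/-! ### the map -/

/-- The parametrization of the piece of the vertex `i`. -/
noncomputable def ff (c : Comb m n) (w : Fin n → ℝ) (π : Fin n → Prof) (q : ℝ → St n) (i : Fin n)
    (b : ℝ × ℝ) : E5 := (b.1, c.vp w π b.1 (q b.1) (deriv q b.1) i b.2)

section

variable {c : Comb m n} {w : Fin n → ℝ} {J : Set ℝ} {π : Fin n → Prof} {q : ℝ → St n}

theorem ne_len (hP : IsPhase c w J π q) {t : ℝ} (ht : t ∈ J) (e : Fin m) :
    (q t).1 (c.rt e) - (q t).1 (c.lf e) ≠ 0 := by
  have h1 := (hP.adm t ht).len e
  have h2 := hP.wpos (c.lf e)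
  have h3 := hP.wpos (c.rt e)
  linarith

theorem X_at (hP : IsPhase c w J π q) (i : Fin n) {b : ℝ × ℝ} (hb : b.1 ∈ J) :
    ContDiffAt ℝ ∞ (fun a : ℝ × ℝ => (π i).X a.1 a.2) b :=
  (hP.prof i).X_smooth.contDiffAt ((hP.openJ.prod isOpen_univ).mem_nhds ⟨hb, mem_univ _⟩)

theorem P_at (hP : IsPhase c w J π q) (i : Fin n) {b : ℝ × ℝ} (hb : b.1 ∈ J) :
    ContDiffAt ℝ ∞ (fun a : ℝ × ℝ => (π i).P a.1 a.2) b :=
  (hP.prof i).P_smooth.contDiffAt ((hP.openJ.prod isOpen_univ).mem_nhds ⟨hb, mem_univ _⟩)

theorem Th_at (hP : IsPhase c w J π q) (i : Fin n) {b : ℝ × ℝ} (hb : b.1 ∈ J) :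
    ContDiffAt ℝ ∞ (fun a : ℝ × ℝ => (π i).Θ a.1 a.2) b :=
  (hP.prof i).Θ_smooth.contDiffAt ((hP.openJ.prod isOpen_univ).mem_nhds ⟨hb, mem_univ _⟩)

theorem Y_at (hP : IsPhase c w J π q) (i : Fin n) {b : ℝ × ℝ} (hb : b.1 ∈ J) :
    ContDiffAt ℝ ∞ (fun a : ℝ × ℝ => (π i).Y a.1 a.2) b := by
  have h1 := (part_smooth hP.openJ (hP.prof i).Θ_smooth hb).sub
    ((P_at hP i hb).mul (part_smooth hP.openJ (hP.prof i).X_smooth hb))
  refine h1.congr_of_eventuallyEq ?_
  filter_upwards [(hP.openJ.prod isOpen_univ).mem_nhds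
    (show b ∈ J ×ˢ (univ : Set ℝ) from ⟨hb, mem_univ _⟩)] with a ha
  exact (hP.prof i).Y_eq a.1 ha.1 a.2

theorem q_at (hP : IsPhase c w J π q) {b : ℝ × ℝ} (hb : b.1 ∈ J) :
    ContDiffAt ℝ ∞ (fun a : ℝ × ℝ => q a.1) b :=
  (hP.smooth.contDiffAt (hP.openJ.mem_nhds hb)).comp b contDiffAt_fst

theorem dq_at (hP : IsPhase c w J π q) {b : ℝ × ℝ} (hb : b.1 ∈ J) :
    ContDiffAt ℝ ∞ (fun a : ℝ × ℝ => deriv q a.1) b :=
  ((hP.smooth.deriv_of_isOpen hP.openJ (m := ∞) (by simp)).contDiffAt
    (hP.openJ.mem_nhds hb)).comp b contDiffAt_fst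

theorem dl_smooth (hP : IsPhase c w J π q) (i : Fin n) {b : ℝ × ℝ} (hb : b.1 ∈ J) :
    ContDiffAt ℝ ∞ (fun a : ℝ × ℝ => c.dl (q a.1) i) b :=
  (pe_smooth c (q_at hP hb) (c.eb i) (ne_len hP hb _)).sub
    (pe_smooth c (q_at hP hb) (c.ea i) (ne_len hP hb _))

theorem x_smooth (hP : IsPhase c w J π q) (i : Fin n) {b : ℝ × ℝ} (hb : b.1 ∈ J) :
    ContDiffAt ℝ ∞ (fun a : ℝ × ℝ => (q a.1).1 i + w i * (π i).X a.1 a.2) b :=
  (cx_smooth (q_at hP hb) i).add (contDiffAt_const.mul (X_at hP i hb))

theorem ff_smooth (hP : IsPhase c w J π q) (i : Fin n) {b : ℝ × ℝ} (hb : b.1 ∈ J) :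
    ContDiffAt ℝ ∞ (ff c w π q i) b := by
  have hq := q_at hP hb
  have hv := dq_at hP hb
  have hX := x_smooth hP i hb
  have hPp := P_at hP i hb
  have hT := Th_at hP i hb
  have hY := Y_at hP i hb
  have hD := dl_smooth hP i hb
  have hpa := pe_smooth c hq (c.ea i) (ne_len hP hb _)
  have haa := ae_smooth c hq (c.ea i) (ne_len hP hb _)
  have hda := dpe_smooth c hq hv (c.ea i) (ne_len hP hb _)
  have hdb := dpe_smooth c hq hv (c.eb i) (ne_len hP hb _)
  have hea := dae_smooth c hq hv (c.ea i) (ne_len hP hb _)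
  have hvx := cx_smooth hv i
  refine contDiffAt_fst.prodMk (hX.prodMk ((hpa.add (hD.mul hPp)).prodMk (ContDiffAt.prodMk
    ?_ ?_)))
  · exact (((hda.mul hX).add hea).add (contDiffAt_const.mul
      (((hdb.sub hda).mul hT).add (hD.mul hY)))).sub ((hD.mul hPp).mul hvx)
  · exact ((hpa.mul hX).add haa).add ((contDiffAt_const.mul hD).mul hT)

/-- The derivatives of the coordinates `x` and `F` at fixed `u`. -/
theorem ff_s (hP : IsPhase c w J π q) (i : Fin n) {b : ℝ × ℝ} (hb : b.1 ∈ J) :
    ∃ A : ℝ, HasDerivAt (fun r => (ff c w π q i (r, b.2)).2.1) A b.1 ∧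
      HasDerivAt (fun r => (ff c w π q i (r, b.2)).2.2.2.2)
        ((ff c w π q i b).2.2.2.1 + (ff c w π q i b).2.2.1 * A) b.1 := by
  have hq : HasDerivAt q (deriv q b.1) b.1 :=
    ((hP.smooth.contDiffAt (hP.openJ.mem_nhds hb)).differentiableAt (by simp)).hasDerivAt
  have hX := part_one ((X_at hP i hb).differentiableAt (by simp))
  have hT := part_one ((Th_at hP i hb).differentiableAt (by simp))
  have h1 := (cx_deriv hq i).add (hX.const_mul (w i))
  have hpa := pe_deriv c hq (c.ea i) (ne_len hP hb _)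
  have hpb := pe_deriv c hq (c.eb i) (ne_len hP hb _)
  have haa := ae_deriv c hq (c.ea i) (ne_len hP hb _)
  have h2 := ((hpa.mul h1).add haa).add (((hpb.sub hpa).const_mul (w i)).mul hT)
  have hY := (hP.prof i).Y_eq b.1 hb b.2
  refine ⟨_, h1, HasDerivAt.congr_deriv h2 ?_⟩
  simp only [ff, Comb.vp, Comb.vpt, hY, Comb.dl, Pi.add_apply, Pi.sub_apply]
  ring

/-- The derivatives of the coordinates `x` and `F` at fixed `s`. -/
theorem ff_u (hP : IsPhase c w J π q) (i : Fin n) {b : ℝ × ℝ} (hb : b.1 ∈ J) :
    HasDerivAt (fun r => (ff c w π q i (b.1, r)).2.1) (w i * deriv ((π i).X b.1) b.2) b.2 ∧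
      HasDerivAt (fun r => (ff c w π q i (b.1, r)).2.2.1)
        (c.dl (q b.1) i * deriv ((π i).P b.1) b.2) b.2 ∧
      HasDerivAt (fun r => (ff c w π q i (b.1, r)).2.2.2.2)
        ((ff c w π q i b).2.2.1 * (w i * deriv ((π i).X b.1) b.2)) b.2 := by
  have hX := part_two ((X_at hP i hb).differentiableAt (by simp))
  have hPp := part_two ((P_at hP i hb).differentiableAt (by simp))
  have hT := (hP.prof i).dΘ b.1 hb b.2
  have h1 := (hX.const_mul (w i)).const_add ((q b.1).1 i)
  refine ⟨h1, (hPp.const_mul (c.dl (q b.1) i)).const_add (c.pe (q b.1) (c.ea i)), ?_⟩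
  have h2 := ((h1.const_mul (c.pe (q b.1) (c.ea i))).add_const (c.ae (q b.1) (c.ea i))).add
    (hT.const_mul (w i * c.dl (q b.1) i))
  refine HasDerivAt.congr_deriv h2 ?_
  simp only [ff, Comb.vp, Comb.vpt]
  ring

/-- The derivative of the first coordinate. -/
theorem ff_fst (hP : IsPhase c w J π q) (i : Fin n) {b : ℝ × ℝ} (hb : b.1 ∈ J) (v : ℝ × ℝ) :
    (fderiv ℝ (ff c w π q i) b v).1 = v.1 := by
  have hd := ((ff_smooth hP i hb).differentiableAt (by simp)).hasFDerivAt
  have h1 : HasFDerivAt (fun a : ℝ × ℝ => a.1) (ContinuousLinearMap.fst ℝ ℝ ℝ) b := hasFDerivAt_fst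
  have h2 := hd.fst.unique h1
  have h3 := congrArg (fun L => L v) h2
  exact h3

theorem ff_comp (hP : IsPhase c w J π q) (i : Fin n) {b : ℝ × ℝ} (hb : b.1 ∈ J)
    (L : E5 →L[ℝ] ℝ) {A B : ℝ}
    (hA : HasDerivAt (fun r => L (ff c w π q i (r, b.2))) A b.1)
    (hB : HasDerivAt (fun r => L (ff c w π q i (b.1, r))) B b.2) (v : ℝ × ℝ) :
    L (fderiv ℝ (ff c w π q i) b v) = v.1 * A + v.2 * B := by
  have hd := ((ff_smooth hP i hb).differentiableAt (by simp)).hasFDerivAt
  have h1 : HasFDerivAt (fun a => L (ff c w π q i a)) (L.comp (fderiv ℝ (ff c w π q i) b)) b :=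
    L.hasFDerivAt.comp b hd
  have h2 := fderiv_two h1.differentiableAt hA hB v
  rw [h1.fderiv] at h2
  exact h2

/-- The coordinate `x`. -/
noncomputable def L1 : E5 →L[ℝ] ℝ := (ContinuousLinearMap.fst ℝ ℝ (ℝ × ℝ × ℝ)).comp
  (ContinuousLinearMap.snd ℝ ℝ (ℝ × ℝ × ℝ × ℝ))

/-- The coordinate `p`. -/
noncomputable def L2 : E5 →L[ℝ] ℝ := ((ContinuousLinearMap.fst ℝ ℝ (ℝ × ℝ)).comp
  (ContinuousLinearMap.snd ℝ ℝ (ℝ × ℝ × ℝ))).comp (ContinuousLinearMap.snd ℝ ℝ (ℝ × ℝ × ℝ × ℝ))

/-- The coordinate `F`. -/
noncomputable def L4 : E5 →L[ℝ] ℝ := (((ContinuousLinearMap.snd ℝ ℝ ℝ).comp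
  (ContinuousLinearMap.snd ℝ ℝ (ℝ × ℝ))).comp
  (ContinuousLinearMap.snd ℝ ℝ (ℝ × ℝ × ℝ))).comp (ContinuousLinearMap.snd ℝ ℝ (ℝ × ℝ × ℝ × ℝ))

theorem ff_exact (hP : IsPhase c w J π q) (i : Fin n) {b : ℝ × ℝ} (hb : b.1 ∈ J) (v : ℝ × ℝ) :
    (fderiv ℝ (ff c w π q i) b v).2.2.2.2 =
      (ff c w π q i b).2.2.2.1 * (fderiv ℝ (ff c w π q i) b v).1 +
      (ff c w π q i b).2.2.1 * (fderiv ℝ (ff c w π q i) b v).2.1 := by
  obtain ⟨A, hA1, hA4⟩ := ff_s hP i hb
  obtain ⟨hB1, hB2, hB4⟩ := ff_u hP i hb
  have e1 : (fderiv ℝ (ff c w π q i) b v).2.1 = _ := ff_comp hP i hb L1 hA1 hB1 v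
  have e4 : (fderiv ℝ (ff c w π q i) b v).2.2.2.2 = _ := ff_comp hP i hb L4 hA4 hB4 v
  rw [e1, e4, ff_fst hP i hb v]
  ring

/-- Outside `(-1,1)` the profile moves in the `x`-direction. -/
theorem X_out (hP : IsPhase c w J π q) (i : Fin n) {b : ℝ × ℝ} (hb : b.1 ∈ J) (hu : 1 ≤ |b.2|) :
    deriv ((π i).X b.1) b.2 ≠ 0 := by
  have hX : HasDerivAt ((π i).X b.1) (deriv ((π i).X b.1) b.2) b.2 :=
    part_two ((X_at hP i hb).differentiableAt (by simp))
  have hbd := (hP.prof i).bd b.1 hb
  have key : ∀ (S : Set ℝ) (k : ℝ), k ≠ 0 → b.2 ∈ S → UniqueDiffWithinAt ℝ S b.2 →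
      (∀ u ∈ S, (π i).X b.1 u = k * u) → deriv ((π i).X b.1) b.2 ≠ 0 := by
    intro S k hk hbS hS hXS
    have h1 : HasDerivWithinAt (fun u : ℝ => k * u) (k * 1) S b.2 :=
      ((hasDerivAt_id b.2).const_mul k).hasDerivWithinAt
    have h2 : HasDerivWithinAt ((π i).X b.1) (k * 1) S b.2 :=
      h1.congr hXS (hXS b.2 hbS)
    have h3 := hS.eq_deriv S hX.hasDerivWithinAt h2
    rw [h3, mul_one]
    exact hk
  rcases le_abs.1 hu with h | h
  · have hS : UniqueDiffWithinAt ℝ (Ici (1 : ℝ)) b.2 := uniqueDiffOn_Ici 1 b.2 h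
    rcases ht : c.ty i with _ | _ | _
    · refine key _ 1 one_ne_zero h hS fun u hu => ?_
      rw [(hbd.high u hu).1, ht]; simp [Ty.outX]
    · refine key _ (-1) (by norm_num) h hS fun u hu => ?_
      rw [(hbd.high u hu).1, ht]; simp [Ty.outX]
    · refine key _ 1 one_ne_zero h hS fun u hu => ?_
      rw [(hbd.high u hu).1, ht]; simp [Ty.outX]
  · have hm : b.2 ∈ Iic (-1 : ℝ) := by
      simp only [mem_Iic]; linarith
    have hS : UniqueDiffWithinAt ℝ (Iic (-1 : ℝ)) b.2 := uniqueDiffOn_Iic (-1) b.2 hm
    rcases ht : c.ty i with _ | _ | _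
    · refine key _ 1 one_ne_zero hm hS fun u hu => ?_
      rw [(hbd.low u hu).1, ht]; simp [Ty.inX]
    · refine key _ 1 one_ne_zero hm hS fun u hu => ?_
      rw [(hbd.low u hu).1, ht]; simp [Ty.inX]
    · refine key _ (-1) (by norm_num) hm hS fun u hu => ?_
      rw [(hbd.low u hu).1, ht]; simp [Ty.inX]

theorem ff_imm (hP : IsPhase c w J π q) (i : Fin n) {b : ℝ × ℝ} (hb : b.1 ∈ J) (v : ℝ × ℝ)
    (h0 : (fderiv ℝ (ff c w π q i) b v).1 = 0) (h1 : (fderiv ℝ (ff c w π q i) b v).2.1 = 0)
    (h2 : (fderiv ℝ (ff c w π q i) b v).2.2.1 = 0) : v = 0 := by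
  rw [ff_fst hP i hb v] at h0
  obtain ⟨A, hA1, hA4⟩ := ff_s hP i hb
  obtain ⟨hB1, hB2, hB4⟩ := ff_u hP i hb
  have hA2 := part_one (G := fun a => (ff c w π q i a).2.2.1) (b := b)
    (((ff_smooth hP i hb).differentiableAt (by simp)).snd.snd.fst)
  have e1 : (fderiv ℝ (ff c w π q i) b v).2.1 = _ := ff_comp hP i hb L1 hA1 hB1 v
  have e2 : (fderiv ℝ (ff c w π q i) b v).2.2.1 = _ := ff_comp hP i hb L2 hA2 hB2 v
  rw [h0, zero_mul, zero_add] at e1 e2
  have e1' := e1.symm.trans h1
  have e2' := e2.symm.trans h2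
  have hv2 : v.2 = 0 := by
    by_contra hne
    have hw := (hP.wpos i).ne'
    have f1 : deriv ((π i).X b.1) b.2 = 0 := by
      rcases mul_eq_zero.1 e1' with h | h
      · exact absurd h hne
      · exact (mul_eq_zero.1 h).resolve_left hw
    have f2 : c.dl (q b.1) i * deriv ((π i).P b.1) b.2 = 0 :=
      (mul_eq_zero.1 e2').resolve_left hne
    rcases lt_or_ge |b.2| 1 with hlt | hge
    · rcases (hP.prof i).imm b.1 hb b.2 hlt with h | h
      · exact h f1
      · exact h f2
    · exact X_out hP i hb hge f1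
  exact Prod.ext h0 hv2

end

end VEX

open _root_.LCA.VEX in
theorem t_VEX : Stmt_VEX := by
  intro m n c w J π q hP i s hs u
  have hev : ∀ᶠ b : ℝ × ℝ in 𝓝 (s, u), b.1 ∈ J :=
    continuous_fst.continuousAt.eventually_mem (hP.openJ.mem_nhds hs)
  exact ⟨hev.mono fun b hb => ff_smooth hP i hb, hev.mono fun b hb v => ff_exact hP i hb v,
    fun v h0 h1 h2 _ => ff_imm hP i (b := (s, u)) hs v h0 h1 h2⟩

end LCA


end

section

/-!
# SDB: before the saddle
-/

namespace LCA

open Set Filter
open scoped ContDiff Topology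

namespace SDB

variable {m n : ℕ}

/-! ### the profiles -/

theorem xi_le_one (sh : Shape) (u : ℝ) : sh.ξ u ≤ 1 := by
  rcases le_total |u| 1 with h | h
  · exact (abs_le.1 (sh.ξ_in u h)).2
  · rw [sh.ξ_out u h]
    linarith [abs_nonneg u]

theorem abs_xi_le_two (sh : Shape) {u : ℝ} (hu : |u| ≤ 2) : |sh.ξ u| ≤ 2 := by
  rcases le_total |u| 1 with h | h
  · linarith [sh.ξ_in u h]
  · rw [sh.ξ_out u h, abs_neg, abs_abs]
    exact hu

theorem psi_low (sh : Shape) {U : ℝ} (h : U ≤ -1) : sh.Psi U = -U := by
  unfold Shape.Psi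
  rw [sh.ΘP_low U h]
  ring

theorem psi_high (sh : Shape) {U : ℝ} (h : 1 ≤ U) : sh.Psi U = U := by
  unfold Shape.Psi
  rw [sh.ΘP_high U h]
  ring

theorem psi_mid (sh : Shape) {U : ℝ} (h : |U| ≤ 1) : sh.Psi U ≤ 5 := by
  unfold Shape.Psi
  have h1 := (abs_le.1 (sh.ΘP_bd U (by linarith))).2
  have h2 := (abs_le.1 h).1
  linarith

/-! ### lines and pieces of the surface near the critical point -/

/-- The point with the coordinate `x` on the line of slope `p`, with the value `z`. -/
def ln (E : Evt) (σ p z x : ℝ) : ℝ × ℝ × ℝ × ℝ := (x, p, z, E.F₀ + σ * z + p * (x - E.x₀))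

/-- The strand on the left. -/
noncomputable def gL (E : Evt) (sh : Shape) (σ u : ℝ) : ℝ × ℝ × ℝ × ℝ :=
  (E.x₀ + E.v * σ + E.r * sh.ξ u, E.P₁ + E.g / 2 - E.g * sh.τ u,
    E.z₀ - E.ζ + 2 * E.ζ * sh.τ u,
    E.F₀ + σ * (E.z₀ - E.ζ) + (E.P₁ + E.g / 2) * (E.v * σ + E.r * sh.ξ u)
      - E.r * E.g * sh.ΘR u)

/-- The strand on the right. -/
noncomputable def gR (E : Evt) (sh : Shape) (σ u : ℝ) : ℝ × ℝ × ℝ × ℝ :=
  (E.x₀ - E.v * σ - E.r * sh.ξ u, E.P₂ - E.g / 2 + E.g * sh.τ u,
    E.z₀ - E.ζ + 2 * E.ζ * sh.τ u,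
    E.F₀ + σ * (E.z₀ - E.ζ) + (E.P₂ - E.g / 2) * (-E.v * σ - E.r * sh.ξ u)
      - E.r * E.g * sh.ΘR u)

theorem zeta_eq (E : Evt) : E.ζ = E.g * E.v / 2 := rfl

theorem gL_low (E : Evt) (sh : Shape) (σ : ℝ) {u : ℝ} (h : u ≤ -1) :
    gL E sh σ u = ln E σ (E.P₁ + E.g / 2) (E.z₀ - E.ζ) (E.x₀ + E.v * σ + E.r * u) := by
  have h1 : sh.ξ u = u := by
    rw [sh.ξ_out u (by rw [abs_of_neg (by linarith)]; linarith), abs_of_neg (by linarith)]
    ring
  unfold gL ln
  rw [h1, sh.τ_low u h, sh.ΘR_low u h]
  refine Prod.ext rfl (Prod.ext ?_ (Prod.ext ?_ ?_)) <;> simp only <;> ring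

theorem gL_high (E : Evt) (sh : Shape) (σ : ℝ) {u : ℝ} (h : 1 ≤ u) :
    gL E sh σ u = ln E σ (E.P₁ - E.g / 2) (E.z₀ + E.ζ) (E.x₀ + E.v * σ - E.r * u) := by
  have h1 : sh.ξ u = -u := by
    rw [sh.ξ_out u (by rw [abs_of_pos (by linarith)]; linarith), abs_of_pos (by linarith)]
  unfold gL ln
  rw [h1, sh.τ_high u h, sh.ΘR_high u h, zeta_eq]
  refine Prod.ext ?_ (Prod.ext ?_ (Prod.ext ?_ ?_)) <;> simp only <;> ring

theorem gR_low (E : Evt) (sh : Shape) (σ : ℝ) {u : ℝ} (h : u ≤ -1) :
    gR E sh σ u = ln E σ (E.P₂ - E.g / 2) (E.z₀ - E.ζ) (E.x₀ - E.v * σ - E.r * u) := by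
  have h1 : sh.ξ u = u := by
    rw [sh.ξ_out u (by rw [abs_of_neg (by linarith)]; linarith), abs_of_neg (by linarith)]
    ring
  unfold gR ln
  rw [h1, sh.τ_low u h, sh.ΘR_low u h]
  refine Prod.ext rfl (Prod.ext ?_ (Prod.ext ?_ ?_)) <;> simp only <;> ring

theorem gR_high (E : Evt) (sh : Shape) (σ : ℝ) {u : ℝ} (h : 1 ≤ u) :
    gR E sh σ u = ln E σ (E.P₂ + E.g / 2) (E.z₀ + E.ζ) (E.x₀ - E.v * σ + E.r * u) := by
  have h1 : sh.ξ u = -u := by
    rw [sh.ξ_out u (by rw [abs_of_pos (by linarith)]; linarith), abs_of_pos (by linarith)]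
  unfold gR ln
  rw [h1, sh.τ_high u h, sh.ΘR_high u h, zeta_eq]
  refine Prod.ext ?_ (Prod.ext ?_ (Prod.ext ?_ ?_)) <;> simp only <;> ring

/-- The point of the surface on the left. -/
theorem pt_left (E : Evt) (hE : E.Pos) (sh : Shape) (σ u : ℝ)
    (hU : E.v * σ + E.r * sh.ξ u ≤ -E.r) :
    E.pt sh 1 1 (u, E.x₀ + E.v * σ + E.r * sh.ξ u) = (E.s₀ + σ, gL E sh σ u) := by
  have hr := hE.r
  have hv := hE.v
  have hr0 : E.r ≠ 0 := hr.ne'
  have hv0 : E.v ≠ 0 := hv.ne'
  have hU' : (E.x₀ + E.v * σ + E.r * sh.ξ u - E.x₀) / E.r ≤ -1 := by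
    rw [div_le_iff₀ hr]
    linarith
  unfold Evt.pt gL
  simp only
  rw [psi_low sh hU', sh.τ_low _ hU', sh.ΘP_low _ hU', zeta_eq]
  refine Prod.ext ?_ (Prod.ext ?_ (Prod.ext ?_ (Prod.ext ?_ ?_))) <;> simp only <;>
    field_simp <;> ring

/-- The point of the surface on the right. -/
theorem pt_right (E : Evt) (hE : E.Pos) (sh : Shape) (σ u : ℝ)
    (hU : E.r ≤ -E.v * σ - E.r * sh.ξ u) :
    E.pt sh 1 1 (u, E.x₀ - E.v * σ - E.r * sh.ξ u) = (E.s₀ + σ, gR E sh σ u) := by
  have hr := hE.r
  have hv := hE.v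
  have hr0 : E.r ≠ 0 := hr.ne'
  have hv0 : E.v ≠ 0 := hv.ne'
  have hU' : 1 ≤ (E.x₀ - E.v * σ - E.r * sh.ξ u - E.x₀) / E.r := by
    rw [le_div_iff₀ hr]
    linarith
  unfold Evt.pt gR
  simp only
  rw [psi_high sh hU', sh.τ_high _ hU', sh.ΘP_high _ hU', zeta_eq]
  refine Prod.ext ?_ (Prod.ext ?_ (Prod.ext ?_ (Prod.ext ?_ ?_))) <;> simp only <;>
    field_simp <;> ring

/-- The slices of the surface before the saddle. -/
theorem set_iff (E : Evt) (hE : E.Pos) (sh : Shape) (σ : ℝ) (hσ : σ < -(8 * E.r / E.v))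
    (y : ℝ × ℝ × ℝ × ℝ) :
    ((E.s₀ + σ, y) : E5) ∈ E.set sh 1 1 ↔ ∃ u, y = gL E sh σ u ∨ y = gR E sh σ u := by
  have hr := hE.r
  have hv := hE.v
  have hvσ : E.v * σ < -(8 * E.r) := by
    have h1 : σ < -(8 * E.r) / E.v := by rw [neg_div]; exact hσ
    rw [lt_div_iff₀ hv] at h1
    linarith
  constructor
  · rintro ⟨⟨u, x⟩, h⟩
    have hs : (E.pt sh 1 1 (u, x)).1 = E.s₀ + σ := by rw [h]
    have hs' : E.s₀ + 1 * (-(E.r / E.v) * sh.ξ u - 1 * (E.r / E.v) * sh.Psi ((x - E.x₀) / E.r)) =
        E.s₀ + σ := hs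
    have hk : E.v * σ = -(E.r * sh.ξ u) - E.r * sh.Psi ((x - E.x₀) / E.r) := by
      have h2 : σ = -(E.r / E.v) * sh.ξ u - (E.r / E.v) * sh.Psi ((x - E.x₀) / E.r) := by
        linarith only [hs']
      rw [h2]
      field_simp
    have hxi := xi_le_one sh u
    have hpsi : 7 < sh.Psi ((x - E.x₀) / E.r) := by
      have h3 : E.r * 7 < E.r * sh.Psi ((x - E.x₀) / E.r) := by nlinarith only [hvσ, hk, hr, hxi]
      exact lt_of_mul_lt_mul_left h3 hr.le
    have hU : 1 < |(x - E.x₀) / E.r| := by
      by_contra hcon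
      have := psi_mid sh (not_lt.1 hcon)
      linarith only [hpsi, this]
    rcases lt_abs.1 hU with hU | hU
    · -- right
      rw [psi_high sh hU.le] at hk
      have hx : x = E.x₀ - E.v * σ - E.r * sh.ξ u := by
        have : E.r * ((x - E.x₀) / E.r) = x - E.x₀ := by field_simp
        linarith only [hk, this]
      refine ⟨u, Or.inr ?_⟩
      have h4 : E.r ≤ -E.v * σ - E.r * sh.ξ u := by
        have h5 : E.r * 1 < E.r * ((x - E.x₀) / E.r) := mul_lt_mul_of_pos_left hU hr
        linarith only [hk, h5]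
      rw [hx, pt_right E hE sh σ u h4] at h
      exact (congrArg Prod.snd h).symm
    · have hU' : (x - E.x₀) / E.r ≤ -1 := by linarith only [hU]
      rw [psi_low sh hU'] at hk
      have hx : x = E.x₀ + E.v * σ + E.r * sh.ξ u := by
        have : E.r * ((x - E.x₀) / E.r) = x - E.x₀ := by field_simp
        linarith only [hk, this]
      refine ⟨u, Or.inl ?_⟩
      have h4 : E.v * σ + E.r * sh.ξ u ≤ -E.r := by
        have h5 : E.r * ((x - E.x₀) / E.r) ≤ E.r * (-1) := mul_le_mul_of_nonneg_left hU' hr.le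
        linarith
      rw [hx, pt_left E hE sh σ u h4] at h
      exact (congrArg Prod.snd h).symm
  · rintro ⟨u, rfl | rfl⟩
    · refine ⟨(u, E.x₀ + E.v * σ + E.r * sh.ξ u), pt_left E hE sh σ u ?_⟩
      have := mul_le_mul_of_nonneg_left (xi_le_one sh u) hr.le
      linarith
    · refine ⟨(u, E.x₀ - E.v * σ - E.r * sh.ξ u), pt_right E hE sh σ u ?_⟩
      have := mul_le_mul_of_nonneg_left (xi_le_one sh u) hr.le
      linarith

/-! ### lines of the edges -/

/-- The vertex `j` moves on the line of slope `p`. -/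
def OL (E : Evt) (Q V : St n) (j : Fin n) (p zz : ℝ) : Prop :=
  Q.2 j = E.F₀ + p * (Q.1 j - E.x₀) ∧ V.2 j = zz + p * V.1 j

theorem edge_of (c : Comb m n) (E : Evt) (Q V : St n) (e : Fin m) (σ p zz : ℝ)
    (h : (Q + σ • V).1 (c.lf e) < (Q + σ • V).1 (c.rt e))
    (h1 : OL E Q V (c.lf e) p zz) (h2 : OL E Q V (c.rt e) p zz) :
    c.pe (Q + σ • V) e = p ∧ c.ae (Q + σ • V) e = E.F₀ + σ * zz - p * E.x₀ ∧
      c.dpe (Q + σ • V) V e = 0 ∧ c.dae (Q + σ • V) V e = zz := by
  obtain ⟨a1, b1⟩ := h1
  obtain ⟨a2, b2⟩ := h2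
  have hne : (Q + σ • V).1 (c.rt e) - (Q + σ • V).1 (c.lf e) ≠ 0 := by
    intro h0
    linarith
  have hpe : c.pe (Q + σ • V) e = p := by
    unfold Comb.pe
    rw [div_eq_iff hne]
    simp only [Prod.snd_add, Prod.fst_add, Prod.smul_fst, Prod.smul_snd, Pi.add_apply,
      Pi.smul_apply, smul_eq_mul]
    rw [a1, a2, b1, b2]
    ring
  have hdpe : c.dpe (Q + σ • V) V e = 0 := by
    unfold Comb.dpe
    rw [hpe, b1, b2]
    have : zz + p * V.1 (c.rt e) - (zz + p * V.1 (c.lf e)) - p * (V.1 (c.rt e) - V.1 (c.lf e)) = 0 :=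
      by ring
    rw [this, zero_div]
  refine ⟨hpe, ?_, hdpe, ?_⟩
  · unfold Comb.ae
    rw [hpe]
    simp only [Prod.snd_add, Prod.fst_add, Prod.smul_fst, Prod.smul_snd, Pi.add_apply,
      Pi.smul_apply, smul_eq_mul]
    rw [a1, b1]
    ring
  · unfold Comb.dae
    rw [hpe, hdpe, b1]
    ring

theorem ept_of (c : Comb m n) (E : Evt) (q v : St n) (e : Fin m) (σ p zz x : ℝ)
    (h : c.pe q e = p ∧ c.ae q e = E.F₀ + σ * zz - p * E.x₀ ∧ c.dpe q v e = 0 ∧ c.dae q v e = zz) :
    c.ept q v e x = ln E σ p zz x := by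
  obtain ⟨h1, h2, h3, h4⟩ := h
  unfold Comb.ept ln
  rw [h1, h2, h3, h4]
  refine Prod.ext rfl (Prod.ext rfl (Prod.ext ?_ ?_)) <;> simp only <;> ring

/-- From the slope and the velocity of the slope to the two ends. -/
theorem ends (c : Comb m n) (Q V : St n) (e : Fin m) (p : ℝ)
    (h : Q.1 (c.lf e) < Q.1 (c.rt e)) (h1 : c.pe Q e = p) (h2 : c.dpe Q V e = 0) :
    Q.2 (c.rt e) - Q.2 (c.lf e) = p * (Q.1 (c.rt e) - Q.1 (c.lf e)) ∧
      V.2 (c.rt e) - V.2 (c.lf e) = p * (V.1 (c.rt e) - V.1 (c.lf e)) := by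
  have hne : Q.1 (c.rt e) - Q.1 (c.lf e) ≠ 0 := by
    intro h0
    linarith
  have h3 : Q.2 (c.rt e) - Q.2 (c.lf e) = p * (Q.1 (c.rt e) - Q.1 (c.lf e)) := by
    rw [← h1]
    unfold Comb.pe
    rw [div_mul_cancel₀ _ hne]
  refine ⟨h3, ?_⟩
  unfold Comb.dpe at h2
  rw [h1, div_eq_zero_iff] at h2
  rcases h2 with h2 | h2
  · linarith
  · exact absurd h2 hne

/-! ### the combinatorics -/

variable {c c' : Comb m n} {L R : Fin n} {H₁ H₂ H₃ H₄ : Fin m}

theorem rt1' (h : SadComb c c' L R H₁ H₂ H₃ H₄) : c'.rt H₁ = L := by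
  have := h.valid'.oka L
  simpa only [Comb.OKa, h.tyL', h.aL'] using this

theorem lf4' (h : SadComb c c' L R H₁ H₂ H₃ H₄) : c'.lf H₄ = L := by
  have := h.valid'.okb L
  simpa only [Comb.OKb, h.tyL', h.bL'] using this

theorem rt3' (h : SadComb c c' L R H₁ H₂ H₃ H₄) : c'.rt H₃ = R := by
  have := h.valid'.oka R
  simpa only [Comb.OKa, h.tyR', h.aR'] using this

theorem lf2' (h : SadComb c c' L R H₁ H₂ H₃ H₄) : c'.lf H₂ = R := by
  have := h.valid'.okb R
  simpa only [Comb.OKb, h.tyR', h.bR'] using this

theorem rt1 (h : SadComb c c' L R H₁ H₂ H₃ H₄) : c.rt H₁ = L := by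
  have := h.valid.oka L
  simpa only [Comb.OKa, h.tyL, h.aL] using this

theorem rt3 (h : SadComb c c' L R H₁ H₂ H₃ H₄) : c.rt H₃ = L := by
  have := h.valid.okb L
  simpa only [Comb.OKb, h.tyL, h.bL] using this

theorem lf4 (h : SadComb c c' L R H₁ H₂ H₃ H₄) : c.lf H₄ = R := by
  have := h.valid.oka R
  simpa only [Comb.OKa, h.tyR, h.aR] using this

theorem lf2 (h : SadComb c c' L R H₁ H₂ H₃ H₄) : c.lf H₂ = R := by
  have := h.valid.okb R
  simpa only [Comb.OKb, h.tyR, h.bR] using this

/-- The ends of the other edges. -/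
theorem other_rt (h : SadComb c c' L R H₁ H₂ H₃ H₄) {e : Fin m} (h1 : e ≠ H₁) (h3 : e ≠ H₃) :
    c'.rt e ≠ L ∧ c'.rt e ≠ R := by
  constructor
  · intro he
    rcases h.valid'.rt e with ⟨_, h5⟩ | ⟨h5, _⟩
    · rw [he, h.aL'] at h5
      exact h1 h5.symm
    · rw [he, h.tyL'] at h5
      exact absurd h5 (by decide)
  · intro he
    rcases h.valid'.rt e with ⟨_, h5⟩ | ⟨h5, _⟩
    · rw [he, h.aR'] at h5
      exact h3 h5.symm
    · rw [he, h.tyR'] at h5
      exact absurd h5 (by decide)

theorem other_lf (h : SadComb c c' L R H₁ H₂ H₃ H₄) {e : Fin m} (h2 : e ≠ H₂) (h4 : e ≠ H₄) :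
    c'.lf e ≠ L ∧ c'.lf e ≠ R := by
  constructor
  · intro he
    rcases h.valid'.lf e with ⟨h5, _⟩ | ⟨_, h5⟩
    · rw [he, h.tyL'] at h5
      exact absurd h5 (by decide)
    · rw [he, h.bL'] at h5
      exact h4 h5.symm
  · intro he
    rcases h.valid'.lf e with ⟨h5, _⟩ | ⟨_, h5⟩
    · rw [he, h.tyR'] at h5
      exact absurd h5 (by decide)
    · rw [he, h.bR'] at h5
      exact h2 h5.symm

/-! ### the lines before the saddle -/

section lines

variable {w : Fin n → ℝ} {E : Evt} {Q V V' : St n} {η : ℝ}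

theorem eta_pos (hS : Saddle c c' w L R H₁ H₂ H₃ H₄ E Q V V' η) : 0 < η := by
  have h1 := hS.small
  have h2 := hS.pos.r
  have h3 := hS.pos.v
  by_contra h
  have : E.v * η ≤ 0 := mul_nonpos_of_nonneg_of_nonpos h3.le (not_lt.1 h)
  linarith

theorem len_at (hS : Saddle c c' w L R H₁ H₂ H₃ H₄ E Q V V' η) {σ : ℝ} (h : σ ∈ Icc (-η) η)
    (e : Fin m) : (Q + σ • V').1 (c'.lf e) < (Q + σ • V').1 (c'.rt e) := by
  have h1 := (hS.cert σ h).len e
  have h2 := hS.wpos (c'.lf e)
  have h3 := hS.wpos (c'.rt e)
  linarith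

theorem len_zero (hS : Saddle c c' w L R H₁ H₂ H₃ H₄ E Q V V' η) (e : Fin m) :
    Q.1 (c'.lf e) < Q.1 (c'.rt e) := by
  have h := len_at hS (σ := 0) ⟨by linarith [eta_pos hS], by linarith [eta_pos hS]⟩ e
  simpa using h

theorem OL_L (hS : Saddle c c' w L R H₁ H₂ H₃ H₄ E Q V V' η) (p : ℝ) :
    OL E Q V' L p (E.z₀ - E.ζ) := by
  unfold OL
  rw [hS.xL, hS.FL, hS.xL', hS.FL']
  constructor <;> ring

theorem OL_R (hS : Saddle c c' w L R H₁ H₂ H₃ H₄ E Q V V' η) (p : ℝ) :
    OL E Q V' R p (E.z₀ + E.ζ) := by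
  unfold OL
  rw [hS.xR, hS.FR, hS.xR', hS.FR']
  constructor <;> ring

/-- The far ends. -/
theorem far1 (hS : Saddle c c' w L R H₁ H₂ H₃ H₄ E Q V V' η) :
    OL E Q V' (c'.lf H₁) (E.P₁ + E.g / 2) (E.z₀ - E.ζ) := by
  obtain ⟨h1, h2⟩ := ends c' Q V' H₁ _ (len_zero hS H₁) hS.p1 hS.d1
  obtain ⟨h3, h4⟩ := OL_L hS (E.P₁ + E.g / 2)
  rw [rt1' hS.comb] at h1 h2
  constructor <;> linarith

theorem far3 (hS : Saddle c c' w L R H₁ H₂ H₃ H₄ E Q V V' η) :
    OL E Q V' (c'.lf H₃) (E.P₁ - E.g / 2) (E.z₀ + E.ζ) := by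
  obtain ⟨h1, h2⟩ := ends c' Q V' H₃ _ (len_zero hS H₃) hS.p3 hS.d3
  obtain ⟨h3, h4⟩ := OL_R hS (E.P₁ - E.g / 2)
  rw [rt3' hS.comb] at h1 h2
  constructor <;> linarith

theorem far2 (hS : Saddle c c' w L R H₁ H₂ H₃ H₄ E Q V V' η) :
    OL E Q V' (c'.rt H₂) (E.P₂ + E.g / 2) (E.z₀ + E.ζ) := by
  obtain ⟨h1, h2⟩ := ends c' Q V' H₂ _ (len_zero hS H₂) hS.p2 hS.d2
  obtain ⟨h3, h4⟩ := OL_R hS (E.P₂ + E.g / 2)
  rw [lf2' hS.comb] at h1 h2
  constructor <;> linarith

theorem far4 (hS : Saddle c c' w L R H₁ H₂ H₃ H₄ E Q V V' η) :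
    OL E Q V' (c'.rt H₄) (E.P₂ - E.g / 2) (E.z₀ - E.ζ) := by
  obtain ⟨h1, h2⟩ := ends c' Q V' H₄ _ (len_zero hS H₄) hS.p4 hS.d4
  obtain ⟨h3, h4⟩ := OL_L hS (E.P₂ - E.g / 2)
  rw [lf4' hS.comb] at h1 h2
  constructor <;> (first | linarith only [h1, h3] | linarith only [h2, h4] | linarith)

/-- The values for `c'`. -/
theorem val1' (hS : Saddle c c' w L R H₁ H₂ H₃ H₄ E Q V V' η) {σ : ℝ} (h : σ ∈ Icc (-η) η) :
    c'.pe (Q + σ • V') H₁ = E.P₁ + E.g / 2 ∧
      c'.ae (Q + σ • V') H₁ = E.F₀ + σ * (E.z₀ - E.ζ) - (E.P₁ + E.g / 2) * E.x₀ ∧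
      c'.dpe (Q + σ • V') V' H₁ = 0 ∧ c'.dae (Q + σ • V') V' H₁ = E.z₀ - E.ζ :=
  edge_of c' E Q V' H₁ σ _ _ (len_at hS h H₁) (far1 hS) (by rw [rt1' hS.comb]; exact OL_L hS _)

theorem val4' (hS : Saddle c c' w L R H₁ H₂ H₃ H₄ E Q V V' η) {σ : ℝ} (h : σ ∈ Icc (-η) η) :
    c'.pe (Q + σ • V') H₄ = E.P₂ - E.g / 2 ∧
      c'.ae (Q + σ • V') H₄ = E.F₀ + σ * (E.z₀ - E.ζ) - (E.P₂ - E.g / 2) * E.x₀ ∧
      c'.dpe (Q + σ • V') V' H₄ = 0 ∧ c'.dae (Q + σ • V') V' H₄ = E.z₀ - E.ζ :=
  edge_of c' E Q V' H₄ σ _ _ (len_at hS h H₄) (by rw [lf4' hS.comb]; exact OL_L hS _) (far4 hS)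

theorem val3' (hS : Saddle c c' w L R H₁ H₂ H₃ H₄ E Q V V' η) {σ : ℝ} (h : σ ∈ Icc (-η) η) :
    c'.pe (Q + σ • V') H₃ = E.P₁ - E.g / 2 ∧
      c'.ae (Q + σ • V') H₃ = E.F₀ + σ * (E.z₀ + E.ζ) - (E.P₁ - E.g / 2) * E.x₀ ∧
      c'.dpe (Q + σ • V') V' H₃ = 0 ∧ c'.dae (Q + σ • V') V' H₃ = E.z₀ + E.ζ :=
  edge_of c' E Q V' H₃ σ _ _ (len_at hS h H₃) (far3 hS) (by rw [rt3' hS.comb]; exact OL_R hS _)

theorem val2' (hS : Saddle c c' w L R H₁ H₂ H₃ H₄ E Q V V' η) {σ : ℝ} (h : σ ∈ Icc (-η) η) :
    c'.pe (Q + σ • V') H₂ = E.P₂ + E.g / 2 ∧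
      c'.ae (Q + σ • V') H₂ = E.F₀ + σ * (E.z₀ + E.ζ) - (E.P₂ + E.g / 2) * E.x₀ ∧
      c'.dpe (Q + σ • V') V' H₂ = 0 ∧ c'.dae (Q + σ • V') V' H₂ = E.z₀ + E.ζ :=
  edge_of c' E Q V' H₂ σ _ _ (len_at hS h H₂) (by rw [lf2' hS.comb]; exact OL_R hS _) (far2 hS)

/-- The other vertices have the same positions. -/
theorem other_pos (hS : Saddle c c' w L R H₁ H₂ H₃ H₄ E Q V V' η) (σ : ℝ) {i : Fin n}
    (h1 : i ≠ L) (h2 : i ≠ R) :
    (Q + σ • V).1 i = (Q + σ • V').1 i ∧ (Q + σ • V).2 i = (Q + σ • V').2 i := by
  have e1 := hS.vx i h1 h2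
  have e2 := hS.vF i h1 h2
  simp only [Prod.snd_add, Prod.fst_add, Prod.smul_fst, Prod.smul_snd, Pi.add_apply,
    Pi.smul_apply, smul_eq_mul]
  rw [e1, e2]
  exact ⟨rfl, rfl⟩

theorem OL_other (hS : Saddle c c' w L R H₁ H₂ H₃ H₄ E Q V V' η) {i : Fin n}
    (h1 : i ≠ L) (h2 : i ≠ R) {p zz : ℝ} (h : OL E Q V' i p zz) : OL E Q V i p zz := by
  unfold OL at h ⊢
  rw [hS.vx i h1 h2, hS.vF i h1 h2]
  exact h

theorem OL_L1 (hS : Saddle c c' w L R H₁ H₂ H₃ H₄ E Q V V' η) :
    OL E Q V L (E.P₁ + E.g / 2) (E.z₀ - E.ζ) := by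
  unfold OL
  rw [hS.xL, hS.FL, hS.vxL, hS.vFL]
  constructor <;> ring

theorem OL_L3 (hS : Saddle c c' w L R H₁ H₂ H₃ H₄ E Q V V' η) :
    OL E Q V L (E.P₁ - E.g / 2) (E.z₀ + E.ζ) := by
  unfold OL
  rw [hS.xL, hS.FL, hS.vxL, hS.vFL, zeta_eq]
  constructor <;> ring

theorem OL_R2 (hS : Saddle c c' w L R H₁ H₂ H₃ H₄ E Q V V' η) :
    OL E Q V R (E.P₂ + E.g / 2) (E.z₀ + E.ζ) := by
  unfold OL
  rw [hS.xR, hS.FR, hS.vxR, hS.vFR]
  constructor <;> ring

theorem OL_R4 (hS : Saddle c c' w L R H₁ H₂ H₃ H₄ E Q V V' η) :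
    OL E Q V R (E.P₂ - E.g / 2) (E.z₀ - E.ζ) := by
  unfold OL
  rw [hS.xR, hS.FR, hS.vxR, hS.vFR, zeta_eq]
  constructor <;> ring

theorem xl (hS : Saddle c c' w L R H₁ H₂ H₃ H₄ E Q V V' η) (σ : ℝ) :
    (Q + σ • V).1 L = E.x₀ + E.v * σ := by
  simp only [Prod.fst_add, Prod.smul_fst, Pi.add_apply, Pi.smul_apply, smul_eq_mul]
  rw [hS.xL, hS.vxL]
  ring

theorem xr (hS : Saddle c c' w L R H₁ H₂ H₃ H₄ E Q V V' η) (σ : ℝ) :
    (Q + σ • V).1 R = E.x₀ - E.v * σ := by
  simp only [Prod.fst_add, Prod.smul_fst, Pi.add_apply, Pi.smul_apply, smul_eq_mul]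
  rw [hS.xR, hS.vxR]
  ring

theorem xl' (hS : Saddle c c' w L R H₁ H₂ H₃ H₄ E Q V V' η) (σ : ℝ) :
    (Q + σ • V').1 L = E.x₀ := by
  simp only [Prod.fst_add, Prod.smul_fst, Pi.add_apply, Pi.smul_apply, smul_eq_mul]
  rw [hS.xL, hS.xL']
  ring

theorem xr' (hS : Saddle c c' w L R H₁ H₂ H₃ H₄ E Q V V' η) (σ : ℝ) :
    (Q + σ • V').1 R = E.x₀ := by
  simp only [Prod.fst_add, Prod.smul_fst, Pi.add_apply, Pi.smul_apply, smul_eq_mul]
  rw [hS.xR, hS.xR']
  ring

/-- The far left end of `H₁` for `c`. -/
theorem lf1 (hS : Saddle c c' w L R H₁ H₂ H₃ H₄ E Q V V' η) : c.lf H₁ = c'.lf H₁ :=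
  hS.comb.lf H₁ hS.comb.h14

theorem lf3 (hS : Saddle c c' w L R H₁ H₂ H₃ H₄ E Q V V' η) : c.lf H₃ = c'.lf H₃ :=
  hS.comb.lf H₃ hS.comb.h34

theorem rt2 (hS : Saddle c c' w L R H₁ H₂ H₃ H₄ E Q V V' η) : c.rt H₂ = c'.rt H₂ :=
  hS.comb.rt H₂ hS.comb.h23

theorem rt4 (hS : Saddle c c' w L R H₁ H₂ H₃ H₄ E Q V V' η) : c.rt H₄ = c'.rt H₄ :=
  hS.comb.rt H₄ hS.comb.h34.symm

/-- The values for `c`. -/
theorem val1 (hS : Saddle c c' w L R H₁ H₂ H₃ H₄ E Q V V' η) {σ : ℝ} (h : σ ∈ Icc (-η) η) :
    c.pe (Q + σ • V) H₁ = E.P₁ + E.g / 2 ∧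
      c.ae (Q + σ • V) H₁ = E.F₀ + σ * (E.z₀ - E.ζ) - (E.P₁ + E.g / 2) * E.x₀ ∧
      c.dpe (Q + σ • V) V H₁ = 0 ∧ c.dae (Q + σ • V) V H₁ = E.z₀ - E.ζ := by
  obtain ⟨o1, o2⟩ := other_lf hS.comb hS.comb.h12 hS.comb.h14
  refine edge_of c E Q V H₁ σ _ _ ?_ ?_ ?_
  · rw [rt1 hS.comb, lf1 hS, xl hS, (other_pos hS σ o1 o2).1]
    have h1 := hS.len1 σ h
    have h2 := hS.wpos (c'.lf H₁)
    have h3 := mul_le_mul_of_nonneg_left h.1 hS.pos.v.le
    have h4 := hS.pos.r
    linarith
  · rw [lf1 hS]
    exact OL_other hS o1 o2 (far1 hS)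
  · rw [rt1 hS.comb]
    exact OL_L1 hS

theorem val3 (hS : Saddle c c' w L R H₁ H₂ H₃ H₄ E Q V V' η) {σ : ℝ} (h : σ ∈ Icc (-η) η) :
    c.pe (Q + σ • V) H₃ = E.P₁ - E.g / 2 ∧
      c.ae (Q + σ • V) H₃ = E.F₀ + σ * (E.z₀ + E.ζ) - (E.P₁ - E.g / 2) * E.x₀ ∧
      c.dpe (Q + σ • V) V H₃ = 0 ∧ c.dae (Q + σ • V) V H₃ = E.z₀ + E.ζ := by
  obtain ⟨o1, o2⟩ := other_lf hS.comb hS.comb.h23.symm hS.comb.h34
  refine edge_of c E Q V H₃ σ _ _ ?_ ?_ ?_
  · rw [rt3 hS.comb, lf3 hS, xl hS, (other_pos hS σ o1 o2).1]
    have h1 := hS.len3 σ h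
    have h2 := hS.wpos (c'.lf H₃)
    have h3 := mul_le_mul_of_nonneg_left h.1 hS.pos.v.le
    have h4 := hS.pos.r
    linarith
  · rw [lf3 hS]
    exact OL_other hS o1 o2 (far3 hS)
  · rw [rt3 hS.comb]
    exact OL_L3 hS

theorem val2 (hS : Saddle c c' w L R H₁ H₂ H₃ H₄ E Q V V' η) {σ : ℝ} (h : σ ∈ Icc (-η) η) :
    c.pe (Q + σ • V) H₂ = E.P₂ + E.g / 2 ∧
      c.ae (Q + σ • V) H₂ = E.F₀ + σ * (E.z₀ + E.ζ) - (E.P₂ + E.g / 2) * E.x₀ ∧
      c.dpe (Q + σ • V) V H₂ = 0 ∧ c.dae (Q + σ • V) V H₂ = E.z₀ + E.ζ := by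
  obtain ⟨o1, o2⟩ := other_rt hS.comb hS.comb.h12.symm hS.comb.h23
  refine edge_of c E Q V H₂ σ _ _ ?_ ?_ ?_
  · rw [lf2 hS.comb, rt2 hS, xr hS, (other_pos hS σ o1 o2).1]
    have h1 := hS.len2 σ h
    have h2 := hS.wpos (c'.rt H₂)
    have h3 := mul_le_mul_of_nonneg_left h.1 hS.pos.v.le
    have h4 := hS.pos.r
    linarith
  · rw [lf2 hS.comb]
    exact OL_R2 hS
  · rw [rt2 hS]
    exact OL_other hS o1 o2 (far2 hS)

theorem val4 (hS : Saddle c c' w L R H₁ H₂ H₃ H₄ E Q V V' η) {σ : ℝ} (h : σ ∈ Icc (-η) η) :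
    c.pe (Q + σ • V) H₄ = E.P₂ - E.g / 2 ∧
      c.ae (Q + σ • V) H₄ = E.F₀ + σ * (E.z₀ - E.ζ) - (E.P₂ - E.g / 2) * E.x₀ ∧
      c.dpe (Q + σ • V) V H₄ = 0 ∧ c.dae (Q + σ • V) V H₄ = E.z₀ - E.ζ := by
  obtain ⟨o1, o2⟩ := other_rt hS.comb hS.comb.h14.symm hS.comb.h34.symm
  refine edge_of c E Q V H₄ σ _ _ ?_ ?_ ?_
  · rw [lf4 hS.comb, rt4 hS, xr hS, (other_pos hS σ o1 o2).1]
    have h1 := hS.len4 σ h
    have h2 := hS.wpos (c'.rt H₄)
    have h3 := mul_le_mul_of_nonneg_left h.1 hS.pos.v.le
    have h4 := hS.pos.r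
    linarith
  · rw [lf4 hS.comb]
    exact OL_R4 hS
  · rw [rt4 hS]
    exact OL_other hS o1 o2 (far4 hS)

/-- All the edges have the same lines. -/
theorem same (hS : Saddle c c' w L R H₁ H₂ H₃ H₄ E Q V V' η) {σ : ℝ} (h : σ ∈ Icc (-η) η)
    (e : Fin m) :
    c.pe (Q + σ • V) e = c'.pe (Q + σ • V') e ∧ c.ae (Q + σ • V) e = c'.ae (Q + σ • V') e ∧
      c.dpe (Q + σ • V) V e = c'.dpe (Q + σ • V') V' e ∧
      c.dae (Q + σ • V) V e = c'.dae (Q + σ • V') V' e := by
  by_cases h1 : e = H₁
  · subst h1
    obtain ⟨a1, a2, a3, a4⟩ := val1 hS h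
    obtain ⟨b1, b2, b3, b4⟩ := val1' hS h
    rw [a1, a2, a3, a4, b1, b2, b3, b4]
    exact ⟨rfl, rfl, rfl, rfl⟩
  by_cases h2 : e = H₂
  · subst h2
    obtain ⟨a1, a2, a3, a4⟩ := val2 hS h
    obtain ⟨b1, b2, b3, b4⟩ := val2' hS h
    rw [a1, a2, a3, a4, b1, b2, b3, b4]
    exact ⟨rfl, rfl, rfl, rfl⟩
  by_cases h3 : e = H₃
  · subst h3
    obtain ⟨a1, a2, a3, a4⟩ := val3 hS h
    obtain ⟨b1, b2, b3, b4⟩ := val3' hS h
    rw [a1, a2, a3, a4, b1, b2, b3, b4]
    exact ⟨rfl, rfl, rfl, rfl⟩
  by_cases h4 : e = H₄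
  · subst h4
    obtain ⟨a1, a2, a3, a4⟩ := val4 hS h
    obtain ⟨b1, b2, b3, b4⟩ := val4' hS h
    rw [a1, a2, a3, a4, b1, b2, b3, b4]
    exact ⟨rfl, rfl, rfl, rfl⟩
  obtain ⟨o1, o2⟩ := other_rt hS.comb h1 h3
  obtain ⟨o3, o4⟩ := other_lf hS.comb h2 h4
  obtain ⟨p1, p2⟩ := other_pos hS σ o1 o2
  obtain ⟨p3, p4⟩ := other_pos hS σ o3 o4
  have hpe : c.pe (Q + σ • V) e = c'.pe (Q + σ • V') e := by
    unfold Comb.pe
    rw [hS.comb.lf e h4, hS.comb.rt e h3, p1, p2, p3, p4]
  have hdpe : c.dpe (Q + σ • V) V e = c'.dpe (Q + σ • V') V' e := by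
    unfold Comb.dpe
    rw [hpe, hS.comb.lf e h4, hS.comb.rt e h3, p1, p3, hS.vx _ o1 o2, hS.vF _ o1 o2,
      hS.vx _ o3 o4, hS.vF _ o3 o4]
  refine ⟨hpe, ?_, hdpe, ?_⟩
  · unfold Comb.ae
    rw [hpe, hS.comb.lf e h4, p3, p4]
  · unfold Comb.dae
    rw [hpe, hdpe, hS.comb.lf e h4, p3, hS.vx _ o3 o4, hS.vF _ o3 o4]

theorem same_ept (hS : Saddle c c' w L R H₁ H₂ H₃ H₄ E Q V V' η) {σ : ℝ} (h : σ ∈ Icc (-η) η)
    (e : Fin m) (x : ℝ) :
    c.ept (Q + σ • V) V e x = c'.ept (Q + σ • V') V' e x := by
  obtain ⟨h1, h2, h3, h4⟩ := same hS h e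
  unfold Comb.ept
  rw [h1, h2, h3, h4]

theorem same_vp (hS : Saddle c c' w L R H₁ H₂ H₃ H₄ E Q V V' η) {σ : ℝ} (h : σ ∈ Icc (-η) η)
    (sh : Shape) (s : ℝ) (i : Fin n) (hL : i ≠ L) (hR : i ≠ R) (u : ℝ) :
    c.vp w (c.sp sh) s (Q + σ • V) V i u = c'.vp w (c'.sp sh) s (Q + σ • V') V' i u := by
  obtain ⟨a1, a2, a3, a4⟩ := same hS h (c'.ea i)
  obtain ⟨b1, b2, b3, b4⟩ := same hS h (c'.eb i)
  obtain ⟨p1, p2⟩ := other_pos hS σ hL hR
  unfold Comb.vp Comb.vpt Comb.dl Comb.sp
  rw [hS.comb.ty i hL hR, hS.comb.ea i hL hR, hS.comb.eb i hL hR, a1, a2, a3, a4, b1, b3, p1,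
    hS.vx i hL hR]

/-- The piece of the right tip. -/
theorem vp_L (hS : Saddle c c' w L R H₁ H₂ H₃ H₄ E Q V V' η) {σ : ℝ} (h : σ ∈ Icc (-η) η)
    (sh : Shape) (s u : ℝ) :
    c.vp w (c.sp sh) s (Q + σ • V) V L u = gL E sh σ u := by
  obtain ⟨a1, a2, a3, a4⟩ := val1 hS h
  obtain ⟨b1, b2, b3, b4⟩ := val3 hS h
  have hty := hS.comb.tyL
  unfold Comb.vp Comb.vpt Comb.dl Comb.sp Shape.st gL
  rw [hS.comb.aL, hS.comb.bL, a1, a2, a3, a4, b1, b3, xl hS, hS.wL, hS.vxL, hty, zeta_eq]
  refine Prod.ext ?_ (Prod.ext ?_ (Prod.ext ?_ ?_)) <;> simp only <;> ring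

/-- The piece of the left tip. -/
theorem vp_R (hS : Saddle c c' w L R H₁ H₂ H₃ H₄ E Q V V' η) {σ : ℝ} (h : σ ∈ Icc (-η) η)
    (sh : Shape) (s u : ℝ) :
    c.vp w (c.sp sh) s (Q + σ • V) V R u = gR E sh σ u := by
  obtain ⟨a1, a2, a3, a4⟩ := val4 hS h
  obtain ⟨b1, b2, b3, b4⟩ := val2 hS h
  have hty := hS.comb.tyR
  unfold Comb.vp Comb.vpt Comb.dl Comb.sp Shape.st gR
  rw [hS.comb.aR, hS.comb.bR, a1, a2, a3, a4, b1, b3, xr hS, hS.wR, hS.vxR, hty, zeta_eq]
  refine Prod.ext ?_ (Prod.ext ?_ (Prod.ext ?_ ?_)) <;> simp only <;> ring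

/-! ### the ranges -/

theorem rg1 (hS : Saddle c c' w L R H₁ H₂ H₃ H₄ E Q V V' η) (σ : ℝ) :
    c.rg w (Q + σ • V) H₁ = Icc ((Q + σ • V').1 (c'.lf H₁) + 2 * w (c'.lf H₁))
      (E.x₀ + E.v * σ - 2 * E.r) := by
  obtain ⟨o1, o2⟩ := other_lf hS.comb hS.comb.h12 hS.comb.h14
  unfold Comb.rg
  rw [rt1 hS.comb, lf1 hS, xl hS, (other_pos hS σ o1 o2).1, hS.wL]

theorem rg3 (hS : Saddle c c' w L R H₁ H₂ H₃ H₄ E Q V V' η) (σ : ℝ) :
    c.rg w (Q + σ • V) H₃ = Icc ((Q + σ • V').1 (c'.lf H₃) + 2 * w (c'.lf H₃))
      (E.x₀ + E.v * σ - 2 * E.r) := by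
  obtain ⟨o1, o2⟩ := other_lf hS.comb hS.comb.h23.symm hS.comb.h34
  unfold Comb.rg
  rw [rt3 hS.comb, lf3 hS, xl hS, (other_pos hS σ o1 o2).1, hS.wL]

theorem rg2 (hS : Saddle c c' w L R H₁ H₂ H₃ H₄ E Q V V' η) (σ : ℝ) :
    c.rg w (Q + σ • V) H₂ = Icc (E.x₀ - E.v * σ + 2 * E.r)
      ((Q + σ • V').1 (c'.rt H₂) - 2 * w (c'.rt H₂)) := by
  obtain ⟨o1, o2⟩ := other_rt hS.comb hS.comb.h12.symm hS.comb.h23
  unfold Comb.rg
  rw [lf2 hS.comb, rt2 hS, xr hS, (other_pos hS σ o1 o2).1, hS.wR]

theorem rg4 (hS : Saddle c c' w L R H₁ H₂ H₃ H₄ E Q V V' η) (σ : ℝ) :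
    c.rg w (Q + σ • V) H₄ = Icc (E.x₀ - E.v * σ + 2 * E.r)
      ((Q + σ • V').1 (c'.rt H₄) - 2 * w (c'.rt H₄)) := by
  obtain ⟨o1, o2⟩ := other_rt hS.comb hS.comb.h14.symm hS.comb.h34.symm
  unfold Comb.rg
  rw [lf4 hS.comb, rt4 hS, xr hS, (other_pos hS σ o1 o2).1, hS.wR]

theorem rg1' (hS : Saddle c c' w L R H₁ H₂ H₃ H₄ E Q V V' η) (σ : ℝ) :
    c'.rg w (Q + σ • V') H₁ = Icc ((Q + σ • V').1 (c'.lf H₁) + 2 * w (c'.lf H₁))
      (E.x₀ - 2 * E.r) := by
  unfold Comb.rg
  rw [rt1' hS.comb, xl' hS, hS.wL]

theorem rg3' (hS : Saddle c c' w L R H₁ H₂ H₃ H₄ E Q V V' η) (σ : ℝ) :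
    c'.rg w (Q + σ • V') H₃ = Icc ((Q + σ • V').1 (c'.lf H₃) + 2 * w (c'.lf H₃))
      (E.x₀ - 2 * E.r) := by
  unfold Comb.rg
  rw [rt3' hS.comb, xr' hS, hS.wR]

theorem rg2' (hS : Saddle c c' w L R H₁ H₂ H₃ H₄ E Q V V' η) (σ : ℝ) :
    c'.rg w (Q + σ • V') H₂ = Icc (E.x₀ + 2 * E.r)
      ((Q + σ • V').1 (c'.rt H₂) - 2 * w (c'.rt H₂)) := by
  unfold Comb.rg
  rw [lf2' hS.comb, xr' hS, hS.wR]

theorem rg4' (hS : Saddle c c' w L R H₁ H₂ H₃ H₄ E Q V V' η) (σ : ℝ) :
    c'.rg w (Q + σ • V') H₄ = Icc (E.x₀ + 2 * E.r)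
      ((Q + σ • V').1 (c'.rt H₄) - 2 * w (c'.rt H₄)) := by
  unfold Comb.rg
  rw [lf4' hS.comb, xl' hS, hS.wL]

/-- The ranges of the other edges. -/
theorem rg_other (hS : Saddle c c' w L R H₁ H₂ H₃ H₄ E Q V V' η) (σ : ℝ) {e : Fin m}
    (h1 : e ≠ H₁) (h2 : e ≠ H₂) (h3 : e ≠ H₃) (h4 : e ≠ H₄) :
    c.rg w (Q + σ • V) e = c'.rg w (Q + σ • V') e := by
  obtain ⟨o1, o2⟩ := other_rt hS.comb h1 h3
  obtain ⟨o3, o4⟩ := other_lf hS.comb h2 h4
  unfold Comb.rg
  rw [hS.comb.lf e h4, hS.comb.rt e h3, (other_pos hS σ o1 o2).1, (other_pos hS σ o3 o4).1]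

end lines

/-! ### unfolding the surfaces -/

theorem deriv_lin (Q V : St n) (t s : ℝ) : deriv (lin Q V t) s = V := by
  have h : HasDerivAt (lin Q V t) V s := by
    have h1 : HasDerivAt (fun r : ℝ => r - t) 1 s := (hasDerivAt_id s).sub_const t
    have h2 := (h1.smul_const V).const_add Q
    rw [one_smul] at h2
    exact h2
  exact h.deriv

theorem mem_surf (c : Comb m n) (w : Fin n → ℝ) (π : Fin n → Prof) (Q V : St n) (t : ℝ)
    (r : E5) : r ∈ c.surf w π (lin Q V t) ↔
      (∃ e, ∃ x ∈ c.rg w (Q + (r.1 - t) • V) e, r.2 = c.ept (Q + (r.1 - t) • V) V e x) ∨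
      ∃ i, ∃ u, |u| ≤ 2 ∧ r.2 = c.vp w π r.1 (Q + (r.1 - t) • V) V i u := by
  have h := deriv_lin Q V t r.1
  show r.2 ∈ c.slice w π r.1 (lin Q V t r.1) (deriv (lin Q V t) r.1) ↔ _
  rw [h]
  exact Iff.rfl

theorem mem_sad (c : Comb m n) (w : Fin n → ℝ) (π : Fin n → Prof) (Q V : St n) (t : ℝ)
    (L R : Fin n) (H₁ H₂ H₃ H₄ : Fin m) (E : Evt) (sh : Shape) (ρ : ℝ) (r : E5) :
    r ∈ c.sad w π (lin Q V t) L R H₁ H₂ H₃ H₄ E sh ρ ↔
      (∃ e, e ≠ H₁ ∧ e ≠ H₂ ∧ e ≠ H₃ ∧ e ≠ H₄ ∧ ∃ x ∈ c.rg w (Q + (r.1 - t) • V) e,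
        r.2 = c.ept (Q + (r.1 - t) • V) V e x) ∨
      (∃ i, i ≠ L ∧ i ≠ R ∧ ∃ u, |u| ≤ 2 ∧ r.2 = c.vp w π r.1 (Q + (r.1 - t) • V) V i u) ∨
      (∃ e, (e = H₁ ∨ e = H₂ ∨ e = H₃ ∨ e = H₄) ∧ ∃ x ∈ c.rg w (Q + (r.1 - t) • V) e,
        ρ ≤ |x - E.x₀| ∧ r.2 = c.ept (Q + (r.1 - t) • V) V e x) ∨
      (r ∈ E.set sh 1 1 ∧ |r.2.1 - E.x₀| < ρ) := by
  have h := deriv_lin Q V t r.1
  show (∃ e, e ≠ H₁ ∧ e ≠ H₂ ∧ e ≠ H₃ ∧ e ≠ H₄ ∧ ∃ x ∈ c.rg w (lin Q V t r.1) e,
      r.2 = c.ept (lin Q V t r.1) (deriv (lin Q V t) r.1) e x) ∨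
    (∃ i, i ≠ L ∧ i ≠ R ∧ ∃ u, |u| ≤ 2 ∧
      r.2 = c.vp w π r.1 (lin Q V t r.1) (deriv (lin Q V t) r.1) i u) ∨
    (∃ e, (e = H₁ ∨ e = H₂ ∨ e = H₃ ∨ e = H₄) ∧ ∃ x ∈ c.rg w (lin Q V t r.1) e, ρ ≤ |x - E.x₀| ∧
      r.2 = c.ept (lin Q V t r.1) (deriv (lin Q V t) r.1) e x) ∨
    (r ∈ E.set sh 1 1 ∧ |r.2.1 - E.x₀| < ρ) ↔ _
  rw [h]
  exact Iff.rfl

end SDB

open _root_.LCA.SDB in
theorem t_SDB (_hCER : Stmt_CER) (_hPST : Stmt_PST) (_hVLN : Stmt_VLN) : Stmt_SDB := by
  intro m n sh c c' w L R H₁ H₂ H₃ H₄ E Q V V' η hS r hr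
  have hr' := hS.pos.r
  have hv' := hS.pos.v
  obtain ⟨s, y⟩ := r
  obtain ⟨hr1, hr2⟩ := hr
  simp only at hr1 hr2
  rw [mem_sad, mem_surf]
  simp only
  obtain ⟨σ, rfl⟩ : ∃ σ, s = E.s₀ + σ := ⟨s - E.s₀, by ring⟩
  have hσe : E.s₀ + σ - E.s₀ = σ := by ring
  rw [hσe]
  have hη := eta_pos hS
  have hσ1 : -η < σ := by linarith
  have hσ2 : σ < -(8 * E.r / E.v) := by linarith
  have hpos8 : 0 < 8 * E.r / E.v := by positivity
  have hI : σ ∈ Icc (-η) η := ⟨hσ1.le, by linarith⟩
  have hvσ : E.v * σ < -(8 * E.r) := by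
    have h1 : σ < -(8 * E.r) / E.v := by rw [neg_div]; exact hσ2
    rw [lt_div_iff₀ hv'] at h1
    linarith
  have hvη : -(E.v * η) < E.v * σ := by
    have := mul_lt_mul_of_pos_left hσ1 hv'
    linarith
  have hl1 := hS.len1 σ hI
  have hl2 := hS.len2 σ hI
  have hl3 := hS.len3 σ hI
  have hl4 := hS.len4 σ hI
  constructor
  · rintro (⟨e, n1, n2, n3, n4, x, hx, h⟩ | ⟨i, hL, hR, u, hu, h⟩ | ⟨e, he, x, hx, hρ, h⟩ |
      ⟨hE, hρ⟩)
    · left
      refine ⟨e, x, ?_, ?_⟩
      · rw [rg_other hS σ n1 n2 n3 n4]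
        exact hx
      · rw [same_ept hS hI]
        exact h
    · right
      refine ⟨i, u, hu, ?_⟩
      rw [same_vp hS hI sh _ i hL hR]
      exact h
    · left
      refine ⟨e, x, ?_, ?_⟩
      · rcases he with rfl | rfl | rfl | rfl
        · rw [rg1' hS] at hx
          rw [rg1 hS]
          obtain ⟨h1, h2⟩ := hx
          rw [abs_of_neg (by linarith)] at hρ
          exact ⟨h1, by linarith⟩
        · rw [rg2' hS] at hx
          rw [rg2 hS]
          obtain ⟨h1, h2⟩ := hx
          rw [abs_of_pos (by linarith)] at hρ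
          exact ⟨by linarith, h2⟩
        · rw [rg3' hS] at hx
          rw [rg3 hS]
          obtain ⟨h1, h2⟩ := hx
          rw [abs_of_neg (by linarith)] at hρ
          exact ⟨h1, by linarith⟩
        · rw [rg4' hS] at hx
          rw [rg4 hS]
          obtain ⟨h1, h2⟩ := hx
          rw [abs_of_pos (by linarith)] at hρ
          exact ⟨by linarith, h2⟩
      · rw [same_ept hS hI]
        exact h
    · rw [set_iff E hS.pos sh σ hσ2] at hE
      obtain ⟨u, hy | hy⟩ := hE
      · rcases le_or_gt |u| 2 with hu | hu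
        · right
          exact ⟨L, u, hu, by rw [vp_L hS hI]; exact hy⟩
        · left
          rcases lt_abs.1 hu with hu | hu
          · rw [gL_high E sh σ (by linarith)] at hy
            have hy1 : y.1 = E.x₀ + E.v * σ - E.r * u := by rw [hy]; rfl
            rw [hy1] at hρ
            have h1 := (abs_lt.1 hρ).1
            have h2 := mul_lt_mul_of_pos_left hu hr'
            refine ⟨H₃, E.x₀ + E.v * σ - E.r * u, ?_, ?_⟩
            · rw [rg3 hS]
              exact ⟨by linarith, by linarith⟩
            · rw [ept_of c E _ V H₃ σ _ _ _ (val3 hS hI)]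
              exact hy
          · rw [gL_low E sh σ (by linarith)] at hy
            have hy1 : y.1 = E.x₀ + E.v * σ + E.r * u := by rw [hy]; rfl
            rw [hy1] at hρ
            have h1 := (abs_lt.1 hρ).1
            have h2 := mul_lt_mul_of_pos_left hu hr'
            refine ⟨H₁, E.x₀ + E.v * σ + E.r * u, ?_, ?_⟩
            · rw [rg1 hS]
              exact ⟨by linarith only [hr', hl1, h1], by linarith⟩
            · rw [ept_of c E _ V H₁ σ _ _ _ (val1 hS hI)]
              exact hy
      · rcases le_or_gt |u| 2 with hu | hu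
        · right
          exact ⟨R, u, hu, by rw [vp_R hS hI]; exact hy⟩
        · left
          rcases lt_abs.1 hu with hu | hu
          · rw [gR_high E sh σ (by linarith)] at hy
            have hy1 : y.1 = E.x₀ - E.v * σ + E.r * u := by rw [hy]; rfl
            rw [hy1] at hρ
            have h1 := (abs_lt.1 hρ).2
            have h2 := mul_lt_mul_of_pos_left hu hr'
            refine ⟨H₂, E.x₀ - E.v * σ + E.r * u, ?_, ?_⟩
            · rw [rg2 hS]
              exact ⟨by linarith only [h2], by linarith only [hr', hl2, h1]⟩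
            · rw [ept_of c E _ V H₂ σ _ _ _ (val2 hS hI)]
              exact hy
          · rw [gR_low E sh σ (by linarith)] at hy
            have hy1 : y.1 = E.x₀ - E.v * σ - E.r * u := by rw [hy]; rfl
            rw [hy1] at hρ
            have h1 := (abs_lt.1 hρ).2
            have h2 := mul_lt_mul_of_pos_left hu hr'
            refine ⟨H₄, E.x₀ - E.v * σ - E.r * u, ?_, ?_⟩
            · rw [rg4 hS]
              exact ⟨by linarith, by linarith only [hr', hl4, h1]⟩
            · rw [ept_of c E _ V H₄ σ _ _ _ (val4 hS hI)]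
              exact hy
  · rintro (⟨e, x, hx, h⟩ | ⟨i, u, hu, h⟩)
    · by_cases n1 : e = H₁
      · subst n1
        rw [rg1 hS] at hx
        obtain ⟨h1, h2⟩ := hx
        rcases le_or_gt (E.v * η + 2 * E.r) |x - E.x₀| with hρ | hρ
        · right; right; left
          refine ⟨_, Or.inl rfl, x, ?_, hρ, ?_⟩
          · rw [rg1' hS]
            exact ⟨h1, by linarith⟩
          · rw [← same_ept hS hI]
            exact h
        · right; right; right
          rw [ept_of c E _ V _ σ _ _ _ (val1 hS hI)] at h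
          refine ⟨?_, ?_⟩
          · rw [set_iff E hS.pos sh σ hσ2]
            have hu : (x - (E.x₀ + E.v * σ)) / E.r ≤ -1 := by
              rw [div_le_iff₀ hr']
              linarith
            refine ⟨(x - (E.x₀ + E.v * σ)) / E.r, Or.inl ?_⟩
            rw [gL_low E sh σ hu, h]
            have : E.x₀ + E.v * σ + E.r * ((x - (E.x₀ + E.v * σ)) / E.r) = x := by
              field_simp
              ring
            rw [this]
          · rw [h]
            exact hρ
      by_cases n2 : e = H₂
      · subst n2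
        rw [rg2 hS] at hx
        obtain ⟨h1, h2⟩ := hx
        rcases le_or_gt (E.v * η + 2 * E.r) |x - E.x₀| with hρ | hρ
        · right; right; left
          refine ⟨_, Or.inr (Or.inl rfl), x, ?_, hρ, ?_⟩
          · rw [rg2' hS]
            exact ⟨by linarith, h2⟩
          · rw [← same_ept hS hI]
            exact h
        · right; right; right
          rw [ept_of c E _ V _ σ _ _ _ (val2 hS hI)] at h
          refine ⟨?_, ?_⟩
          · rw [set_iff E hS.pos sh σ hσ2]
            have hu : 1 ≤ (x - (E.x₀ - E.v * σ)) / E.r := by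
              rw [le_div_iff₀ hr']
              linarith
            refine ⟨(x - (E.x₀ - E.v * σ)) / E.r, Or.inr ?_⟩
            rw [gR_high E sh σ hu, h]
            have : E.x₀ - E.v * σ + E.r * ((x - (E.x₀ - E.v * σ)) / E.r) = x := by
              field_simp
              ring
            rw [this]
          · rw [h]
            exact hρ
      by_cases n3 : e = H₃
      · subst n3
        rw [rg3 hS] at hx
        obtain ⟨h1, h2⟩ := hx
        rcases le_or_gt (E.v * η + 2 * E.r) |x - E.x₀| with hρ | hρ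
        · right; right; left
          refine ⟨_, Or.inr (Or.inr (Or.inl rfl)), x, ?_, hρ, ?_⟩
          · rw [rg3' hS]
            exact ⟨h1, by linarith⟩
          · rw [← same_ept hS hI]
            exact h
        · right; right; right
          rw [ept_of c E _ V _ σ _ _ _ (val3 hS hI)] at h
          refine ⟨?_, ?_⟩
          · rw [set_iff E hS.pos sh σ hσ2]
            have hu : 1 ≤ ((E.x₀ + E.v * σ) - x) / E.r := by
              rw [le_div_iff₀ hr']
              linarith
            refine ⟨((E.x₀ + E.v * σ) - x) / E.r, Or.inl ?_⟩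
            rw [gL_high E sh σ hu, h]
            have : E.x₀ + E.v * σ - E.r * (((E.x₀ + E.v * σ) - x) / E.r) = x := by
              field_simp
              ring
            rw [this]
          · rw [h]
            exact hρ
      by_cases n4 : e = H₄
      · subst n4
        rw [rg4 hS] at hx
        obtain ⟨h1, h2⟩ := hx
        rcases le_or_gt (E.v * η + 2 * E.r) |x - E.x₀| with hρ | hρ
        · right; right; left
          refine ⟨_, Or.inr (Or.inr (Or.inr rfl)), x, ?_, hρ, ?_⟩
          · rw [rg4' hS]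
            exact ⟨by linarith only [hr', hvσ, h1], h2⟩
          · rw [← same_ept hS hI]
            exact h
        · right; right; right
          rw [ept_of c E _ V _ σ _ _ _ (val4 hS hI)] at h
          refine ⟨?_, ?_⟩
          · rw [set_iff E hS.pos sh σ hσ2]
            have hu : ((E.x₀ - E.v * σ) - x) / E.r ≤ -1 := by
              rw [div_le_iff₀ hr']
              linarith
            refine ⟨((E.x₀ - E.v * σ) - x) / E.r, Or.inr ?_⟩
            rw [gR_low E sh σ hu, h]
            have : E.x₀ - E.v * σ - E.r * (((E.x₀ - E.v * σ) - x) / E.r) = x := by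
              field_simp
              ring
            rw [this]
          · rw [h]
            exact hρ
      left
      refine ⟨e, n1, n2, n3, n4, x, ?_, ?_⟩
      · rw [← rg_other hS σ n1 n2 n3 n4]
        exact hx
      · rw [← same_ept hS hI]
        exact h
    · by_cases nL : i = L
      · subst nL
        right; right; right
        rw [vp_L hS hI] at h
        refine ⟨?_, ?_⟩
        · rw [set_iff E hS.pos sh σ hσ2]
          exact ⟨u, Or.inl h⟩
        · rw [h]
          have h1 := abs_le.1 (abs_xi_le_two sh hu)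
          have h2 := mul_le_mul_of_nonneg_left h1.1 hr'.le
          have h3 := mul_le_mul_of_nonneg_left h1.2 hr'.le
          unfold gL
          simp only
          rw [abs_lt]
          constructor <;> linarith
      by_cases nR : i = R
      · subst nR
        right; right; right
        rw [vp_R hS hI] at h
        refine ⟨?_, ?_⟩
        · rw [set_iff E hS.pos sh σ hσ2]
          exact ⟨u, Or.inr h⟩
        · rw [h]
          have h1 := abs_le.1 (abs_xi_le_two sh hu)
          have h2 := mul_le_mul_of_nonneg_left h1.1 hr'.le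
          have h3 := mul_le_mul_of_nonneg_left h1.2 hr'.le
          unfold gR
          simp only
          rw [abs_lt]
          constructor <;> linarith
      right; left
      refine ⟨i, nL, nR, u, hu, ?_⟩
      rw [← same_vp hS hI sh _ i nL nR]
      exact h

end LCA


end

section

/-!
# SVV: two vertices during a linear motion and at a change of the velocities
-/

namespace LCA

namespace SVV

open Set Filter
open scoped ContDiff Topology

variable {m n : ℕ}

/-- An affine function which is larger than `E` at the two ends. -/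
theorem aff_lt {E LO HI p u v : ℝ} (h1 : E < u + v * LO) (h2 : E < u + v * HI) (hp1 : LO ≤ p)
    (hp2 : p ≤ HI) : E < u + v * p := by
  rcases le_total 0 v with h | h
  · have := mul_le_mul_of_nonneg_left hp1 h
    linarith
  · have := mul_le_mul_of_nonpos_left hp2 h
    linarith

/-- The difference of two verticals is affine in the slope. -/
theorem dvv_lt {E LO HI p σ : ℝ} {v : St n} {i j : Fin n} (h1 : E < σ * Dvv v i j LO)
    (h2 : E < σ * Dvv v i j HI) (hp1 : LO ≤ p) (hp2 : p ≤ HI) : E < σ * Dvv v i j p := by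
  have e : ∀ x, σ * Dvv v i j x = σ * (v.2 i - v.2 j) + (σ * (v.1 j - v.1 i)) * x := by
    intro x
    unfold Dvv
    ring
  rw [e] at h1 h2 ⊢
  exact aff_lt h1 h2 hp1 hp2

/-- Interpolation during the motion. -/
theorem interp (hLNP : Stmt_LNP) {c : Comb m n} {T : ℝ} {Q Q' V' : St n}
    (hlin : c.Lin T Q Q' V') {s : ℝ} (hs : s ∈ Icc (0 : ℝ) T) :
    ∃ l ∈ Icc (0 : ℝ) 1, (∀ k, (Q + s • V').1 k = (1 - l) * Q.1 k + l * Q'.1 k) ∧
      (∀ e, c.pe (Q + s • V') e = (1 - l) * c.pe Q e + l * c.pe Q' e) ∧
      (∀ e, c.dpe (Q + s • V') V' e = c.dpe Q' V' e) := by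
  have hT := hlin.pos
  have hlen0 : ∀ e, (Q + (0 : ℝ) • V').1 (c.lf e) < (Q + (0 : ℝ) • V').1 (c.rt e) := by
    intro e
    have := hlin.len e
    simpa using this
  have hx : ∀ k, (Q + s • V').1 k = (1 - s / T) * Q.1 k + s / T * Q'.1 k := by
    intro k
    have hm := congrArg (fun q : St n => q.1 k) hlin.move
    simp only [Prod.fst_add, Prod.smul_fst, Pi.add_apply, Pi.smul_apply, smul_eq_mul] at hm
    simp only [Prod.fst_add, Prod.smul_fst, Pi.add_apply, Pi.smul_apply, smul_eq_mul]
    rw [hm]
    field_simp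
    ring
  have hl : s / T ∈ Icc (0 : ℝ) 1 := ⟨div_nonneg hs.1 hT.le, (div_le_one hT).2 hs.2⟩
  have hlen : ∀ e, (Q + s • V').1 (c.lf e) < (Q + s • V').1 (c.rt e) := by
    intro e
    rw [hx, hx]
    have h1 := hlin.len e
    have h2 := hlin.len' e
    have h3 := hl.1
    have h4 : 0 ≤ 1 - s / T := by linarith [hl.2]
    rcases h3.lt_or_eq with h5 | h5
    · have a1 := mul_lt_mul_of_pos_left h2 h5
      have a2 := mul_le_mul_of_nonneg_left h1.le h4
      linarith
    · rw [← h5]
      linarith
  refine ⟨s / T, hl, hx, ?_, ?_⟩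
  · intro e
    have h1 := (hLNP c T Q Q' V' hlin e s (hlen e)).1
    have h0 := (hLNP c T Q Q' V' hlin e 0 (hlen0 e)).1
    have hz : Q + (0 : ℝ) • V' = Q := by simp
    rw [hz] at h0
    rw [h1, h0]
    field_simp
    ring
  · intro e
    exact (hLNP c T Q Q' V' hlin e s (hlen e)).2.1

/-- The derivative of the slope at the beginning. -/
theorem dpe0 (hLNP : Stmt_LNP) {c : Comb m n} {T : ℝ} {Q Q' V' : St n}
    (hlin : c.Lin T Q Q' V') (e : Fin m) : c.dpe Q V' e = c.dpe Q' V' e := by
  have hz : Q + (0 : ℝ) • V' = Q := by simp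
  have h0 := (hLNP c T Q Q' V' hlin e 0 (by rw [hz]; exact hlin.len e)).2.1
  rwa [hz] at h0

/-- The bound of the error. -/
theorem err_le {c : Comb m n} {w : Fin n → ℝ} {q Q Q' V' : St n} {i : Fin n} (hw : 0 < w i)
    (hd : ∀ e, c.dpe q V' e = c.dpe Q' V' e) (hm : |c.dl q i| ≤ max |c.dl Q i| |c.dl Q' i|) :
    c.err w q V' i ≤ c.erS w Q Q' V' i := by
  unfold Comb.err Comb.erS
  rw [hd, hd]
  have : CY * |c.dl q i| ≤ CY * max |c.dl Q i| |c.dl Q' i| :=
    mul_le_mul_of_nonneg_left hm (by unfold CY; norm_num)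
  exact mul_le_mul_of_nonneg_left (by linarith) hw.le

/-- The minimum of convex combinations. -/
theorem min_conv {l a b a' b' : ℝ} (h0 : 0 ≤ l) (h1 : l ≤ 1) :
    (1 - l) * min a b + l * min a' b' ≤ min ((1 - l) * a + l * a') ((1 - l) * b + l * b') := by
  have h2 : 0 ≤ 1 - l := by linarith
  apply le_min
  · exact add_le_add (mul_le_mul_of_nonneg_left (min_le_left _ _) h2)
      (mul_le_mul_of_nonneg_left (min_le_left _ _) h0)
  · exact add_le_add (mul_le_mul_of_nonneg_left (min_le_right _ _) h2)
      (mul_le_mul_of_nonneg_left (min_le_right _ _) h0)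

/-- The maximum of convex combinations. -/
theorem max_conv {l a b a' b' : ℝ} (h0 : 0 ≤ l) (h1 : l ≤ 1) :
    max ((1 - l) * a + l * a') ((1 - l) * b + l * b') ≤ (1 - l) * max a b + l * max a' b' := by
  have h2 : 0 ≤ 1 - l := by linarith
  apply max_le
  · exact add_le_add (mul_le_mul_of_nonneg_left (le_max_left _ _) h2)
      (mul_le_mul_of_nonneg_left (le_max_left _ _) h0)
  · exact add_le_add (mul_le_mul_of_nonneg_left (le_max_right _ _) h2)
      (mul_le_mul_of_nonneg_left (le_max_right _ _) h0)

/-- A convex combination is at least the minimum. -/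
theorem min_le_conv {l a b : ℝ} (h0 : 0 ≤ l) (h1 : l ≤ 1) : min a b ≤ (1 - l) * a + l * b := by
  have h2 : 0 ≤ 1 - l := by linarith
  have a1 := mul_le_mul_of_nonneg_left (min_le_left a b) h2
  have a2 := mul_le_mul_of_nonneg_left (min_le_right a b) h0
  linarith

/-- A convex combination is at most the maximum. -/
theorem conv_le_max {l a b : ℝ} (h0 : 0 ≤ l) (h1 : l ≤ 1) : (1 - l) * a + l * b ≤ max a b := by
  have h2 : 0 ≤ 1 - l := by linarith
  have a1 := mul_le_mul_of_nonneg_left (le_max_left a b) h2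
  have a2 := mul_le_mul_of_nonneg_left (le_max_right a b) h0
  linarith

/-- Strict inequalities are preserved by convex combinations. -/
theorem lt_conv {l a b a' b' : ℝ} (h0 : 0 ≤ l) (h1 : l ≤ 1) (h : a < b) (h' : a' < b') :
    (1 - l) * a + l * a' < (1 - l) * b + l * b' := by
  have h2 : 0 ≤ 1 - l := by linarith
  rcases h0.lt_or_eq with h3 | h3
  · have a1 := mul_lt_mul_of_pos_left h' h3
    have a2 := mul_le_mul_of_nonneg_left h.le h2
    linarith
  · rw [← h3]
    linarith

/-- The absolute value of a convex combination. -/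
theorem abs_conv {l a b : ℝ} (h0 : 0 ≤ l) (h1 : l ≤ 1) :
    |(1 - l) * a + l * b| ≤ (1 - l) * |a| + l * |b| := by
  have h2 : 0 ≤ 1 - l := by linarith
  refine (abs_add_le _ _).trans ?_
  rw [abs_mul, abs_mul, abs_of_nonneg h2, abs_of_nonneg h0]

/-- The lower ends and the upper ends during the motion. -/
theorem plo_ge {c : Comb m n} {q Q Q' : St n} {l : ℝ} (h0 : 0 ≤ l) (h1 : l ≤ 1)
    (hp : ∀ e, c.pe q e = (1 - l) * c.pe Q e + l * c.pe Q' e) (i : Fin n) :
    (1 - l) * c.plo Q i + l * c.plo Q' i ≤ c.plo q i := by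
  unfold Comb.plo
  rw [hp, hp]
  exact min_conv h0 h1

theorem phi_le {c : Comb m n} {q Q Q' : St n} {l : ℝ} (h0 : 0 ≤ l) (h1 : l ≤ 1)
    (hp : ∀ e, c.pe q e = (1 - l) * c.pe Q e + l * c.pe Q' e) (i : Fin n) :
    c.phi q i ≤ (1 - l) * c.phi Q i + l * c.phi Q' i := by
  unfold Comb.phi
  rw [hp, hp]
  exact max_conv h0 h1

theorem dl_le {c : Comb m n} {q Q Q' : St n} {l : ℝ} (h0 : 0 ≤ l) (h1 : l ≤ 1)
    (hp : ∀ e, c.pe q e = (1 - l) * c.pe Q e + l * c.pe Q' e) (i : Fin n) :
    |c.dl q i| ≤ max |c.dl Q i| |c.dl Q' i| := by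
  have e : c.dl q i = (1 - l) * c.dl Q i + l * c.dl Q' i := by
    unfold Comb.dl
    rw [hp, hp]
    ring
  rw [e]
  exact (abs_conv h0 h1).trans (conv_le_max h0 h1)

theorem plo_le_phi (c : Comb m n) (q : St n) (i : Fin n) : c.plo q i ≤ c.phi q i :=
  (min_le_left _ _).trans (le_max_left _ _)

/-- Either the verticals are separated by their slopes, or their slopes overlap. -/
theorem sep_or (c : Comb m n) (w : Fin n → ℝ) (q : St n) (i j : Fin n) :
    c.Svv w q i j ∨ max (c.plo q i) (c.plo q j) ≤ min (c.phi q i) (c.phi q j) := by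
  rcases lt_or_ge (c.phi q i) (c.plo q j) with h | h
  · exact Or.inl (Or.inr (Or.inr (Or.inl h)))
  rcases lt_or_ge (c.phi q j) (c.plo q i) with h' | h'
  · exact Or.inl (Or.inr (Or.inr (Or.inr h')))
  refine Or.inr ?_
  exact max_le (le_min (plo_le_phi c q i) h') (le_min h (plo_le_phi c q j))

/-- The last case at a time of the motion. -/
theorem zvv_of {c : Comb m n} {w : Fin n → ℝ} {q Q Q' V' : St n} {i j : Fin n} {σ l : ℝ}
    (hw : ∀ i, 0 < w i) (h0 : 0 ≤ l) (h1 : l ≤ 1)
    (hp : ∀ e, c.pe q e = (1 - l) * c.pe Q e + l * c.pe Q' e)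
    (hd : ∀ e, c.dpe q V' e = c.dpe Q' V' e)
    (ha : c.erS w Q Q' V' i + c.erS w Q Q' V' j <
      σ * Dvv V' i j (max (min (c.plo Q i) (c.plo Q' i)) (min (c.plo Q j) (c.plo Q' j))))
    (hb : c.erS w Q Q' V' i + c.erS w Q Q' V' j <
      σ * Dvv V' i j (min (max (c.phi Q i) (c.phi Q' i)) (max (c.phi Q j) (c.phi Q' j))))
    (hm : max (c.plo q i) (c.plo q j) ≤ min (c.phi q i) (c.phi q j)) : c.Zvv w q V' i j σ := by
  have ei := err_le (w := w) (hw i) hd (dl_le h0 h1 hp i)
  have ej := err_le (w := w) (hw j) hd (dl_le h0 h1 hp j)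
  have lo : ∀ k, min (c.plo Q k) (c.plo Q' k) ≤ c.plo q k := fun k =>
    (min_le_conv h0 h1).trans (plo_ge h0 h1 hp k)
  have hi : ∀ k, c.phi q k ≤ max (c.phi Q k) (c.phi Q' k) := fun k =>
    (phi_le h0 h1 hp k).trans (conv_le_max h0 h1)
  have l1 : max (min (c.plo Q i) (c.plo Q' i)) (min (c.plo Q j) (c.plo Q' j)) ≤
      max (c.plo q i) (c.plo q j) := max_le_max (lo i) (lo j)
  have l2 : min (c.phi q i) (c.phi q j) ≤
      min (max (c.phi Q i) (c.phi Q' i)) (max (c.phi Q j) (c.phi Q' j)) :=
    min_le_min (hi i) (hi j)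
  constructor
  · have := dvv_lt ha hb l1 (hm.trans l2)
    linarith
  · have := dvv_lt ha hb (l1.trans hm) l2
    linarith

/-- The rounding error is convex in the velocity. -/
theorem err_conv (c : Comb m n) {w : Fin n → ℝ} (Q V V' : St n) {i : Fin n} {l : ℝ}
    (hw : 0 < w i) (h0 : 0 ≤ l) (h1 : l ≤ 1) :
    c.err w Q ((1 - l) • V + l • V') i ≤ (1 - l) * c.err w Q V i + l * c.err w Q V' i := by
  have hd : ∀ e, c.dpe Q ((1 - l) • V + l • V') e =
      (1 - l) * c.dpe Q V e + l * c.dpe Q V' e := by
    intro e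
    unfold Comb.dpe
    simp only [Prod.fst_add, Prod.snd_add, Prod.smul_fst, Prod.smul_snd, Pi.add_apply,
      Pi.smul_apply, smul_eq_mul]
    ring
  unfold Comb.err
  rw [hd, hd]
  have a1 := abs_conv (l := l) (a := c.dpe Q V (c.ea i)) (b := c.dpe Q V' (c.ea i)) h0 h1
  have a2 := abs_conv (l := l) (a := c.dpe Q V (c.eb i) - c.dpe Q V (c.ea i))
    (b := c.dpe Q V' (c.eb i) - c.dpe Q V' (c.ea i)) h0 h1
  have e2 : (1 - l) * c.dpe Q V (c.eb i) + l * c.dpe Q V' (c.eb i) -
      ((1 - l) * c.dpe Q V (c.ea i) + l * c.dpe Q V' (c.ea i)) =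
      (1 - l) * (c.dpe Q V (c.eb i) - c.dpe Q V (c.ea i)) +
        l * (c.dpe Q V' (c.eb i) - c.dpe Q V' (c.ea i)) := by ring
  rw [e2]
  have e3 : (1 - l) * (w i * (2 * |c.dpe Q V (c.ea i)| +
        2 * |c.dpe Q V (c.eb i) - c.dpe Q V (c.ea i)| + CY * |c.dl Q i|)) +
      l * (w i * (2 * |c.dpe Q V' (c.ea i)| +
        2 * |c.dpe Q V' (c.eb i) - c.dpe Q V' (c.ea i)| + CY * |c.dl Q i|)) =
      w i * (2 * ((1 - l) * |c.dpe Q V (c.ea i)| + l * |c.dpe Q V' (c.ea i)|) +
        2 * ((1 - l) * |c.dpe Q V (c.eb i) - c.dpe Q V (c.ea i)| +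
          l * |c.dpe Q V' (c.eb i) - c.dpe Q V' (c.ea i)|) + CY * |c.dl Q i|) := by ring
  rw [e3]
  exact mul_le_mul_of_nonneg_left (by linarith) hw.le

/-- The difference of two verticals is linear in the velocities. -/
theorem dvv_conv (V V' : St n) (i j : Fin n) (p l : ℝ) :
    Dvv ((1 - l) • V + l • V') i j p = (1 - l) * Dvv V i j p + l * Dvv V' i j p := by
  unfold Dvv
  simp only [Prod.fst_add, Prod.snd_add, Prod.smul_fst, Prod.smul_snd, Pi.add_apply,
    Pi.smul_apply, smul_eq_mul]
  ring

/-- Change of the velocities. -/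
theorem zvv_conv {c : Comb m n} {w : Fin n → ℝ} {Q V V' : St n} {i j : Fin n} {σ l : ℝ}
    (hw : ∀ i, 0 < w i) (h0 : 0 ≤ l) (h1 : l ≤ 1) (h : c.Zvv w Q V i j σ)
    (h' : c.Zvv w Q V' i j σ) : c.Zvv w Q ((1 - l) • V + l • V') i j σ := by
  have ei := err_conv (w := w) c Q V V' (hw i) h0 h1
  have ej := err_conv (w := w) c Q V V' (hw j) h0 h1
  constructor
  · rw [dvv_conv]
    have := lt_conv h0 h1 h.1 h'.1
    linarith
  · rw [dvv_conv]
    have := lt_conv h0 h1 h.2 h'.2
    linarith

end SVV

open _root_.LCA.SVV Set Filter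
open scoped ContDiff Topology

theorem t_SVV (hLNP : Stmt_LNP) : Stmt_SVV := by
  intro m n c w T Q V Q' V' i j hw _ hlin _ h
  constructor
  · intro s hs
    obtain ⟨l, ⟨h0, h1⟩, hx, hp, hd⟩ := interp hLNP hlin hs
    rcases h with h | h | h | h | ⟨σ, hσ, ha, hb, _⟩
    · refine Or.inl (Or.inl ?_)
      rw [hx, hx]
      have := lt_conv h0 h1 h.1 h.2
      linarith
    · refine Or.inl (Or.inr (Or.inl ?_))
      rw [hx, hx]
      have := lt_conv h0 h1 h.1 h.2
      linarith
    · refine Or.inl (Or.inr (Or.inr (Or.inl ?_)))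
      exact (phi_le h0 h1 hp i).trans_lt ((lt_conv h0 h1 h.1 h.2).trans_le (plo_ge h0 h1 hp j))
    · refine Or.inl (Or.inr (Or.inr (Or.inr ?_)))
      exact (phi_le h0 h1 hp j).trans_lt ((lt_conv h0 h1 h.1 h.2).trans_le (plo_ge h0 h1 hp i))
    · rcases sep_or c w (Q + s • V') i j with hS | hm
      · exact Or.inl hS
      · exact Or.inr ⟨σ, hσ, zvv_of hw h0 h1 hp hd ha hb hm⟩
  · intro l hl
    rcases h with h | h | h | h | ⟨σ, hσ, ha, hb, hc⟩
    · exact Or.inl (Or.inl h.1)
    · exact Or.inl (Or.inr (Or.inl h.1))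
    · exact Or.inl (Or.inr (Or.inr (Or.inl h.1)))
    · exact Or.inl (Or.inr (Or.inr (Or.inr h.1)))
    · rcases hc with hc | hc
      · exact Or.inl hc
      rcases sep_or c w Q i j with hS | hm
      · exact Or.inl hS
      refine Or.inr ⟨σ, hσ, zvv_conv hw hl.1 hl.2 hc ?_⟩
      exact zvv_of (l := 0) hw le_rfl zero_le_one (by intro e; ring) (dpe0 hLNP hlin) ha hb hm

end LCA


end

section

/-!
# The first finger of a chain of items
-/

namespace LHE

open Set LG LH

namespace FNG

variable {N : ℕ}

/-- Adjacent lines, the second one comes after the first one in the direction `s`. -/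
def AdjU (X : Finset ℝ) (s : Bool) (a b : ℝ) : Prop := if s then AdjX X a b else AdjX X b a

theorem AdjU_not {X : Finset ℝ} {s : Bool} {a b : ℝ} : AdjU X (!s) a b ↔ AdjU X s b a := by
  cases s <;> simp [AdjU]

theorem adjX_right {X : Finset ℝ} {a b b' : ℝ} (h : AdjX X a b) (h' : AdjX X a b') : b = b' := by
  obtain ⟨-, hb, hab, hn⟩ := h
  obtain ⟨-, hb', hab', hn'⟩ := h'
  rcases lt_trichotomy b b' with hl | hl | hl
  · exact absurd ⟨hab, hl⟩ (hn' b hb)
  · exact hl
  · exact absurd ⟨hab', hl⟩ (hn b' hb')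

theorem adjX_left {X : Finset ℝ} {a a' b : ℝ} (h : AdjX X a b) (h' : AdjX X a' b) : a = a' := by
  obtain ⟨ha, -, hab, hn⟩ := h
  obtain ⟨ha', -, hab', hn'⟩ := h'
  rcases lt_trichotomy a a' with hl | hl | hl
  · exact absurd ⟨hl, hab'⟩ (hn a' ha')
  · exact hl
  · exact absurd ⟨hl, hab⟩ (hn' a ha)

theorem AdjU_right {X : Finset ℝ} {s : Bool} {a b b' : ℝ} (h : AdjU X s a b)
    (h' : AdjU X s a b') : b = b' := by
  cases s
  · exact adjX_left (by simpa [AdjU] using h) (by simpa [AdjU] using h')
  · exact adjX_right (by simpa [AdjU] using h) (by simpa [AdjU] using h')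

theorem AdjU_left {X : Finset ℝ} {s : Bool} {a a' b : ℝ} (h : AdjU X s a b)
    (h' : AdjU X s a' b) : a = a' := by
  cases s
  · exact adjX_right (by simpa [AdjU] using h) (by simpa [AdjU] using h')
  · exact adjX_left (by simpa [AdjU] using h) (by simpa [AdjU] using h')

theorem AdjU_mem {X : Finset ℝ} {s : Bool} {a b : ℝ} (h : AdjU X s a b) : a ∈ X ∧ b ∈ X := by
  cases s
  · have h' : AdjX X b a := by simpa [AdjU] using h
    exact ⟨h'.2.1, h'.1⟩
  · have h' : AdjX X a b := by simpa [AdjU] using h
    exact ⟨h'.1, h'.2.1⟩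

theorem AdjU_ne {P : Pg N} {X : Finset ℝ} (hX : GoodX P X) {s : Bool} {a b : ℝ}
    (h : AdjU X s a b) (m : ℤ) : P.x m ≠ a ∧ P.x m ≠ b := by
  cases s
  · have h' : AdjX X b a := by simpa [AdjU] using h
    exact ⟨((hX.gd _ _ h').av m).2, ((hX.gd _ _ h').av m).1⟩
  · have h' : AdjX X a b := by simpa [AdjU] using h
    exact (hX.gd _ _ h').av m

/-- A step in the direction `s`. -/
theorem step {P : Pg N} {X : Finset ℝ} {s : Bool} {i j : It} (h : Lnk P X i j)
    (hi : i.k = pass s ∨ i.k = turn (!s)) :
    sn s * i.t < sn s * j.t ∧ (j.k = pass s ∨ j.k = turn s) ∧ AdjU X s i.t j.t ∧ i.e ≤ j.e ∧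
      ∀ m, i.e < m → m ≤ j.e → sn s * i.t < sn s * P.x m ∧ sn s * P.x m < sn s * j.t := by
  cases s
  · -- to the left
    have hfw : ¬ i.k.fw := by
      rcases hi with hi | hi
      · rw [hi]; simp [pass, Kd.fw]
      · rw [hi]; simp [turn, Kd.fw]
    have hdir : ¬ j.k.ar ∧ j.t < i.t := by
      rcases h.dir with hd | hd
      · exact absurd hd.1 hfw
      · exact ⟨hd.2.1, hd.2.2⟩
    have hk : j.k = pass false ∨ j.k = turn false := by
      have h1 := hdir.1
      cases hjk : j.k <;> simp [pass, turn] <;> rw [hjk] at h1 <;> simp [Kd.ar] at h1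
    have hadj : AdjX X j.t i.t := by
      rcases h.adj with ha | ha
      · exact absurd ha.2.2.1 (not_lt.2 hdir.2.le)
      · exact ha
    refine ⟨by rw [sn_false]; linarith [hdir.2], hk, by simpa [AdjU] using hadj, h.le, ?_⟩
    intro m h1 h2
    rcases h.ins m h1 h2 with hb | hb
    · exact absurd (hb.1.trans hb.2) (not_lt.2 hdir.2.le)
    · rw [sn_false]
      constructor <;> linarith [hb.1, hb.2]
  · have hfw : i.k.fw := by
      rcases hi with hi | hi
      · rw [hi]; simp [pass, Kd.fw]
      · rw [hi]; simp [turn, Kd.fw]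
    have hdir : j.k.ar ∧ i.t < j.t := by
      rcases h.dir with hd | hd
      · exact ⟨hd.2.1, hd.2.2⟩
      · exact absurd hfw hd.1
    have hk : j.k = pass true ∨ j.k = turn true := by
      have h1 := hdir.1
      cases hjk : j.k <;> simp [pass, turn] <;> rw [hjk] at h1 <;> simp [Kd.ar] at h1
    have hadj : AdjX X i.t j.t := by
      rcases h.adj with ha | ha
      · exact ha
      · exact absurd ha.2.2.1 (not_lt.2 hdir.2.le)
    refine ⟨by rw [sn_true]; linarith [hdir.2], hk, by simpa [AdjU] using hadj, h.le, ?_⟩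
    intro m h1 h2
    rcases h.ins m h1 h2 with hb | hb
    · rw [sn_true]
      constructor <;> linarith [hb.1, hb.2]
    · exact absurd (hb.1.trans hb.2) (not_lt.2 hdir.2.le)

/-- A passing item crosses its line. -/
theorem crs {P : Pg N} {s : Bool} {i : It} (h : ItOK P i) (hi : i.k = pass s) :
    Crs P s i.t i.e := by
  cases s
  · have h1 := h.2 (by simpa [pass] using hi)
    unfold Crs
    rw [sn_false]
    constructor <;> linarith [h1.1, h1.2]
  · have h1 := h.1 (by simpa [pass] using hi)
    unfold Crs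
    rw [sn_true]
    constructor <;> linarith [h1.1, h1.2]

theorem crs_not {P : Pg N} {s : Bool} {i : It} (h : ItOK P i) (hi : i.k = pass (!s)) :
    sn s * P.x (i.e + 1) < sn s * i.t ∧ sn s * i.t < sn s * P.x i.e := by
  have h1 := crs h hi
  unfold Crs at h1
  rw [sn_not] at h1
  constructor <;> linarith [h1.1, h1.2]

theorem tn_turn (s : Bool) {i : It} (h : i.k = turn s) : Tn i := by
  cases s
  · right; simpa [turn] using h
  · left; simpa [turn] using h

/-- The edges along a chain are nondecreasing. -/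
theorem le_of_chain {P : Pg N} {X : Finset ℝ} (F : List It) (j : It) (l : List It)
    (h : List.IsChain (Lnk P X) (F ++ j :: l)) : ∀ x ∈ F, x.e ≤ j.e := by
  induction F with
  | nil => intro x hx; exact absurd hx (List.not_mem_nil)
  | cons a F ih =>
    intro x hx
    have h' : List.IsChain (Lnk P X) (F ++ j :: l) := by
      rw [List.cons_append] at h
      exact h.tail
    rcases List.mem_cons.1 hx with rfl | hx
    · cases F with
      | nil =>
        rw [List.cons_append, List.nil_append] at h
        exact (List.isChain_cons_cons.1 h).1.le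
      | cons b F =>
        rw [List.cons_append, List.cons_append] at h
        exact ((List.isChain_cons_cons.1 h).1.le).trans (ih h' b (List.mem_cons_self))
    · exact ih h' x hx

end FNG

open _root_.LHE.FNG in
theorem t_FNG : Stmt_FNG := by
  intro N P X s A C D hX hAC hCD hm1 hm2 i l
  induction hn : l.length using Nat.strong_induction_on generalizing i l with
  | _ n IH =>
    intro hch hok hnt hik hie hit hxD hex
    -- the first element
    cases l with
    | nil =>
      obtain ⟨j, hj, -⟩ := hex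
      exact absurd hj List.not_mem_nil
    | cons j l1 =>
      have hij : Lnk P X i j := (List.isChain_cons_cons.1 hch).1
      have hch1 : List.IsChain (Lnk P X) (j :: l1) := (List.isChain_cons_cons.1 hch).2
      have hnt1 : List.IsChain (fun i j => ¬ (Tn i ∧ Tn j)) (j :: l1) :=
        (List.isChain_cons_cons.1 hnt).2
      have hokj : ItOK P j := hok j (by simp)
      obtain ⟨htt, hjk, hadj, hle, hver⟩ := step hij (Or.inl hik)
      have hjX : j.t ∈ X := (AdjU_mem hadj).2
      have hDj : j.e < D := by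
        by_contra hcon
        have := (hver D (lt_trans hie.2 hCD) (not_lt.1 hcon)).1
        linarith
      -- the next element exists
      have hex1 : ∃ x ∈ l1, D ≤ x.e := by
        obtain ⟨x, hx, hxe⟩ := hex
        rcases List.mem_cons.1 hx with rfl | hx
        · omega
        · exact ⟨x, hx, hxe⟩
      rcases lt_or_gt_of_ne (fun h : sn s * P.x C = sn s * j.t => by
          have : P.x C = j.t := by
            rcases sn_or s with h1 | h1 <;> rw [h1] at h <;> linarith
          exact (AdjU_ne hX hadj C).2 this) with hC | hC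
      · -- the tip is before the next line
        rcases hjk with hjk | hjk
        · -- passing: impossible
          exfalso
          have hc := crs hokj hjk
          have h1 : A ≤ j.e := hie.1.trans hle
          rcases lt_or_ge j.e C with h2 | h2
          · have := hm1 (show j.e + 1 ∈ Icc A C from ⟨by omega, by omega⟩)
              (show C ∈ Icc A C from ⟨hAC.le, le_rfl⟩) (by omega)
            have h3 : sn s * P.x (j.e + 1) ≤ sn s * P.x C := this
            linarith [hc.2]
          · have := hm2 (show C ∈ Icc C D from ⟨le_rfl, hCD.le⟩)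
              (show j.e + 1 ∈ Icc C D from ⟨by omega, by omega⟩) (by omega)
            have h3 : sn s * P.x (j.e + 1) ≤ sn s * P.x C := this
            linarith [hc.2]
        · -- a turn
          cases l1 with
          | nil =>
            obtain ⟨x, hx, -⟩ := hex1
            exact absurd hx List.not_mem_nil
          | cons k l2 =>
            have hjkl : Lnk P X j k := (List.isChain_cons_cons.1 hch1).1
            have hntk : ¬ Tn k := fun h =>
              (List.isChain_cons_cons.1 hnt1).1 ⟨tn_turn s hjk, h⟩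
            have hokk : ItOK P k := hok k (by simp)
            obtain ⟨htt2, hkk, hadj2, hle2, hver2⟩ :=
              step (s := !s) hjkl (Or.inr (by rw [Bool.not_not]; exact hjk))
            have hkt : k.t = i.t := by
              have h1 : AdjU X s k.t j.t := AdjU_not.1 hadj2
              exact AdjU_left h1 hadj
            have hkp : k.k = pass (!s) := by
              rcases hkk with h | h
              · exact h
              · exact absurd (tn_turn _ h) hntk
            have hkD : k.e < D := by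
              by_contra hcon
              have := (hver2 D hDj (not_lt.1 hcon)).2
              rw [sn_not, hkt] at this
              linarith
            have hcr := crs_not hokk hkp
            have hkC : C ≤ k.e := by
              by_contra hcon
              have h1 := hm1 (show k.e ∈ Icc A C from ⟨by have := hie.1; omega, by omega⟩)
                (show k.e + 1 ∈ Icc A C from ⟨by have := hie.1; omega, by omega⟩) (by omega)
              have h3 : sn s * P.x k.e ≤ sn s * P.x (k.e + 1) := h1
              linarith [hcr.1, hcr.2]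
            refine ⟨[j], k, l2, rfl, hkp, hkt, ⟨hkC, hkD⟩, ?_⟩
            have h1 := FI.tip (P := P) (s := s) (A := A) (C := C) (D := D) (X := X) i.t j.t j.e htt
            have h2 : j = ⟨turn s, j.t, j.e⟩ := by rw [← hjk]
            rw [h2]
            exact h1
      · -- the tip is beyond the next line
        have hjC : j.e < C := by
          by_contra hcon
          have := (hver C hie.2 (not_lt.1 hcon)).2
          linarith
        rcases hjk with hjk | hjk
        · -- passing: induction
          have hIH := IH l1.length (by rw [← hn]; simp) j l1 rfl hch1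
            (fun x hx => hok x (List.mem_cons_of_mem _ hx)) hnt1 hjk
            ⟨hie.1.trans hle, hjC⟩ hjX (by linarith) hex1
          obtain ⟨F', j', l'', hl1, hj'k, hj't, hj'e, hFI⟩ := hIH
          have hch2 : List.IsChain (Lnk P X) (j' :: l'') := by
            rw [hl1] at hch1
            exact (List.isChain_append.1 (show List.IsChain (Lnk P X)
              ((j :: F') ++ (j' :: l'')) from hch1)).2.1
          have hnt2 : List.IsChain (fun i j => ¬ (Tn i ∧ Tn j)) (j' :: l'') := by
            rw [hl1] at hnt1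
            exact (List.isChain_append.1 (show List.IsChain (fun i j => ¬ (Tn i ∧ Tn j))
              ((j :: F') ++ (j' :: l'')) from hnt1)).2.1
          have hex2 : ∃ x ∈ l'', D ≤ x.e := by
            obtain ⟨x, hx, hxe⟩ := hex1
            rw [hl1] at hx
            rcases List.mem_append.1 hx with hx | hx
            · have := le_of_chain F' j' l'' (by rw [← hl1]; exact hch1.tail) x hx
              have := hj'e.2
              omega
            · rcases List.mem_cons.1 hx with rfl | hx
              · have := hj'e.2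
                omega
              · exact ⟨x, hx, hxe⟩
          cases l'' with
          | nil =>
            obtain ⟨x, hx, -⟩ := hex2
            exact absurd hx List.not_mem_nil
          | cons k l3 =>
            have hok2 : ∀ x ∈ k :: l3, ItOK P x := fun x hx =>
              hok x (by
                rw [hl1]
                exact List.mem_cons_of_mem _ (List.mem_cons_of_mem _
                  (List.mem_append_right _ (List.mem_cons_of_mem _ hx))))
            have hjk2 : Lnk P X j' k := (List.isChain_cons_cons.1 hch2).1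
            obtain ⟨htt2, hkk, hadj2, hle2, hver2⟩ := step (s := !s) hjk2 (Or.inl hj'k)
            have hkt : k.t = i.t := by
              have h1 : AdjU X s k.t j'.t := AdjU_not.1 hadj2
              rw [hj't] at h1
              exact AdjU_left h1 hadj
            have hkD : k.e < D := by
              by_contra hcon
              have := (hver2 D hj'e.2 (not_lt.1 hcon)).2
              rw [sn_not, hkt] at this
              linarith
            rcases hkk with hkk | hkk
            · refine ⟨j :: F' ++ [j'], k, l3, ?_, hkk, hkt, ⟨hj'e.1.trans hle2, hkD⟩, ?_⟩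
              · rw [hl1]; simp
              · have h2 : j = ⟨pass s, j.t, j.e⟩ := by rw [← hjk]
                have h3 : j' = ⟨pass (!s), j.t, j'.e⟩ := by rw [← hj'k, ← hj't]
                rw [h2, h3]
                have hc := crs hokj hjk
                have hokj' : ItOK P j' := hok j' (by rw [hl1]; simp)
                have hc' := crs hokj' hj'k
                rw [hj't] at hc'
                exact FI.step i.t j.t j.e j'.e F' htt hjX ⟨hie.1.trans hle, hjC⟩ hj'e hc hc' hFI
            · -- a turn: contradiction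
              exfalso
              cases l3 with
              | nil =>
                obtain ⟨x, hx, hxe⟩ := hex2
                rcases List.mem_cons.1 hx with rfl | hx
                · omega
                · exact absurd hx List.not_mem_nil
              | cons g l4 =>
                have hch3 := (List.isChain_cons_cons.1 hch2).2
                have hnt3 := (List.isChain_cons_cons.1 hnt2).2
                have hkg : Lnk P X k g := (List.isChain_cons_cons.1 hch3).1
                have hntg : ¬ Tn g := fun h =>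
                  (List.isChain_cons_cons.1 hnt3).1 ⟨tn_turn _ hkk, h⟩
                obtain ⟨htt4, hgk, hadj4, hle4, hver4⟩ := step (s := s) hkg (Or.inr hkk)
                have hgp : g.k = pass s := by
                  rcases hgk with h | h
                  · exact h
                  · exact absurd (tn_turn _ h) hntg
                have hgD : g.e < D := by
                  by_contra hcon
                  have := (hver4 D hkD (not_lt.1 hcon)).1
                  rw [hkt] at this
                  linarith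
                have hcg := crs (hok2 g (by simp)) hgp
                have h5 : C ≤ g.e := hj'e.1.trans (hle2.trans hle4)
                have h1 := hm2 (show g.e ∈ Icc C D from ⟨h5, hgD.le⟩)
                  (show g.e + 1 ∈ Icc C D from ⟨by omega, by omega⟩) (by omega)
                have h3 : sn s * P.x (g.e + 1) ≤ sn s * P.x g.e := h1
                linarith [hcg.1, hcg.2]
        · -- a turn: contradiction
          exfalso
          cases l1 with
          | nil =>
            obtain ⟨x, hx, -⟩ := hex1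
            exact absurd hx List.not_mem_nil
          | cons k l2 =>
            have hjkl : Lnk P X j k := (List.isChain_cons_cons.1 hch1).1
            have hntk : ¬ Tn k := fun h =>
              (List.isChain_cons_cons.1 hnt1).1 ⟨tn_turn s hjk, h⟩
            have hokk : ItOK P k := hok k (by simp)
            obtain ⟨htt2, hkk, hadj2, hle2, hver2⟩ :=
              step (s := !s) hjkl (Or.inr (by rw [Bool.not_not]; exact hjk))
            have hkp : k.k = pass (!s) := by
              rcases hkk with h | h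
              · exact h
              · exact absurd (tn_turn _ h) hntk
            have hkC : k.e < C := by
              by_contra hcon
              have := (hver2 C hjC (not_lt.1 hcon)).1
              rw [sn_not] at this
              linarith
            have hcr := crs_not hokk hkp
            have h1 := hm1 (show k.e ∈ Icc A C from ⟨by have := hie.1; omega, by omega⟩)
              (show k.e + 1 ∈ Icc A C from ⟨by have := hie.1; omega, by omega⟩) (by omega)
            have h3 : sn s * P.x k.e ≤ sn s * P.x (k.e + 1) := h1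
            linarith [hcr.1, hcr.2]

end LHE


end

section

/-!
# Elementary retraction of a finger
-/

namespace LHE

open Set LG LH

namespace RET

theorem cp_cons (a : Pt) (l : List Pt) : cp (a :: l) = (a :: l).zip (l ++ [a]) := by
  unfold cp
  rw [List.rotate_cons_succ, List.rotate_zero]

theorem sn_cases (o : Bool) (a b : ℝ) (h : sn o * b < sn o * a) (k l : Prop) (hk : b < a → k)
    (hl : a < b → l) : b < a ∧ k ∨ a < b ∧ l := by
  rcases sn_or o with h1 | h1
  · rw [h1, one_mul, one_mul] at h
    exact Or.inl ⟨h, hk h⟩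
  · rw [h1] at h
    have h2 : a < b := by linarith
    exact Or.inr ⟨h2, hl h2⟩

theorem btw_lex {s t h₁ h₂ k : ℝ}
    (h : Btw (toLex (t, h₁) : Q) (toLex (t, h₂)) (toLex (s, k))) : s = t ∧ Btw h₁ h₂ k := by
  rcases h with ⟨h1, h2⟩ | ⟨h1, h2⟩
  · rw [Prod.Lex.toLex_lt_toLex] at h1 h2
    rcases h1 with h1 | ⟨h1, h1'⟩
    · rcases h2 with h2 | ⟨h2, -⟩
      · exact absurd h1 (not_lt.2 h2.le)
      · exact absurd h1 (by rw [show s = t from h2]; exact lt_irrefl _)
    · rcases h2 with h2 | ⟨h2, h2'⟩
      · exact absurd h2 (by rw [show t = s from h1]; exact lt_irrefl _)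
      · exact ⟨h2, Or.inl ⟨h1', h2'⟩⟩
  · rw [Prod.Lex.toLex_lt_toLex] at h1 h2
    rcases h1 with h1 | ⟨h1, h1'⟩
    · rcases h2 with h2 | ⟨h2, -⟩
      · exact absurd h1 (not_lt.2 h2.le)
      · exact absurd h1 (by rw [show s = t from h2]; exact lt_irrefl _)
    · rcases h2 with h2 | ⟨h2, h2'⟩
      · exact absurd h2 (by rw [show t = s from h1]; exact lt_irrefl _)
      · exact ⟨h2, Or.inr ⟨h1', h2'⟩⟩

theorem lt_lex {t a b : ℝ} (h : a < b) : (toLex (t, a) : Q) < toLex (t, b) :=
  Prod.Lex.toLex_lt_toLex.2 (Or.inr ⟨rfl, h⟩)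

/-- The new walk. -/
theorem cw_new {p T q s₁ u s₂ : Pt} {r : List Pt} (hw : CW (p :: s₁ :: u :: s₂ :: q :: r))
    (h1 : Stp p s₁ → Stp p T) (h2 : Stp s₂ q → Stp T q)
    (hs : List.Sublist (ent p ++ ent T ++ ent q) (ent p ++ ent s₁ ++ ent u ++ ent s₂ ++ ent q))
    (hl : 4 ≤ (ent p ++ ent T ++ ent q).length) : CW (p :: T :: q :: r) := by
  have e1 : ents (p :: T :: q :: r) = (ent p ++ ent T ++ ent q) ++ ents r := by
    simp only [ents, List.flatMap_cons, List.append_assoc]
  have e2 : ents (p :: s₁ :: u :: s₂ :: q :: r) =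
      (ent p ++ ent s₁ ++ ent u ++ ent s₂ ++ ent q) ++ ents r := by
    simp only [ents, List.flatMap_cons, List.append_assoc]
  have hst := hw.st
  rw [cp_cons] at hst
  simp only [List.cons_append, List.zip_cons_cons, List.mem_cons] at hst
  refine ⟨?_, ?_, ?_⟩
  · have hnd := hw.nd
    rw [e2] at hnd
    rw [e1]
    exact hnd.sublist (hs.append (List.Sublist.refl _))
  · intro x hx
    rw [cp_cons] at hx
    simp only [List.cons_append, List.zip_cons_cons, List.mem_cons] at hx
    rcases hx with rfl | rfl | hx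
    · exact h1 (hst (p, s₁) (Or.inl rfl))
    · exact h2 (hst (s₂, q) (Or.inr (Or.inr (Or.inr (Or.inl rfl)))))
    · exact hst x (Or.inr (Or.inr (Or.inr (Or.inr hx))))
  · rw [e1, List.length_append]
    omega

/-- The finger to the right. -/
theorem right (hRTR : P_RTR) (hWEB : P_WEB) (hCWA : P_CWA) (o : Bool)
    (t₀ t t' g₁ g₂ h₁ h₂ h' : ℝ) (r : List Pt)
    (hw : CW (⟨.rt, t₀, g₁⟩ :: ⟨.rt, t, h₁⟩ :: ⟨.R, t', h'⟩ :: ⟨.lt, t, h₂⟩ ::
      ⟨.lt, t₀, g₂⟩ :: r))
    (ha : AO (⟨.rt, t₀, g₁⟩ :: ⟨.rt, t, h₁⟩ :: ⟨.R, t', h'⟩ :: ⟨.lt, t, h₂⟩ ::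
      ⟨.lt, t₀, g₂⟩ :: r) o t h₁ h₂) (hg : sn o * g₂ < sn o * g₁) :
    CW (⟨.rt, t₀, g₁⟩ :: ⟨.R, t, h₁⟩ :: ⟨.lt, t₀, g₂⟩ :: r) ∧
      WE (ents (⟨.rt, t₀, g₁⟩ :: ⟨.rt, t, h₁⟩ :: ⟨.R, t', h'⟩ :: ⟨.lt, t, h₂⟩ ::
        ⟨.lt, t₀, g₂⟩ :: r)) (ents (⟨.rt, t₀, g₁⟩ :: ⟨.R, t, h₁⟩ :: ⟨.lt, t₀, g₂⟩ :: r)) := by
  have hn : CW (⟨.rt, t₀, g₁⟩ :: ⟨.R, t, h₁⟩ :: ⟨.lt, t₀, g₂⟩ :: r) := by
    refine cw_new hw ?_ ?_ ?_ ?_
    · rintro (⟨-, -, h⟩ | ⟨h, -, -⟩)
      · exact Or.inl ⟨trivial, trivial, h⟩
      · exact absurd trivial h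
    · rintro (⟨h, -, -⟩ | ⟨-, h, h'⟩)
      · exact absurd h (fun h => h)
      · exact Or.inr ⟨fun h => h, h, h'⟩
    · exact List.Sublist.cons_cons _ (List.Sublist.cons_cons _ (List.Sublist.cons_cons _
        (List.Sublist.cons _ (List.Sublist.cons _ (List.Sublist.cons _ (List.Sublist.cons _
          (List.Sublist.refl _)))))))
    · simp [ent]
  refine ⟨hn, ?_⟩
  obtain ⟨hc1, he1⟩ := hCWA.rot [⟨.rt, t₀, g₁⟩] (⟨.rt, t, h₁⟩ :: ⟨.R, t', h'⟩ :: ⟨.lt, t, h₂⟩ ::
      ⟨.lt, t₀, g₂⟩ :: r) hw
  obtain ⟨hc2, he2⟩ := hCWA.rot [⟨.rt, t₀, g₁⟩] (⟨.R, t, h₁⟩ :: ⟨.lt, t₀, g₂⟩ :: r) hn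
  have hmem : ∀ x ∈ (⟨.rt, t, h₁⟩ :: ⟨.R, t', h'⟩ :: ⟨.lt, t, h₂⟩ ::
      ⟨.lt, t₀, g₂⟩ :: (r ++ [⟨.rt, t₀, g₁⟩]) : List Pt), x ∈ (⟨.rt, t₀, g₁⟩ :: ⟨.rt, t, h₁⟩ ::
      ⟨.R, t', h'⟩ :: ⟨.lt, t, h₂⟩ :: ⟨.lt, t₀, g₂⟩ :: r : List Pt) := by
    intro x hx
    simp only [List.mem_cons, List.mem_append, List.not_mem_nil, or_false] at hx ⊢
    tauto
  have he3 := hRTR ⟨.rt, t, h₁⟩ ⟨.R, t', h'⟩ ⟨.lt, t, h₂⟩ ⟨.lt, t₀, g₂⟩ ⟨.rt, t₀, g₁⟩ r hc1 hc2
    rfl rfl rfl rfl ?_ ?_ ?_
  · exact hWEB.trans _ _ _ he1 (hWEB.trans _ _ _ he3 (hWEB.symm _ _ he2))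
  · intro x hx _ hb
    obtain ⟨h1, h2⟩ := btw_lex hb
    exact ha.1 x (hmem x hx) h1 h2
  · intro x hx _ hb
    obtain ⟨h1, h2⟩ := btw_lex hb
    exact ha.1 x (hmem x hx) (neg_injective h1) h2
  · rcases sn_or o with h1 | h1
    · have h2 := ha.2
      rw [h1, one_mul, one_mul] at hg h2
      exact Or.inl ⟨h2, lt_lex hg⟩
    · have h2 := ha.2
      rw [h1] at hg h2
      exact Or.inr ⟨show h₁ < h₂ by linarith, lt_lex (by linarith)⟩

/-- The finger to the left. -/
theorem left (hRTL : P_RTL) (hWEB : P_WEB) (hCWA : P_CWA) (o : Bool)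
    (t₀ t t' g₁ g₂ h₁ h₂ h' : ℝ) (r : List Pt)
    (hw : CW (⟨.lt, t₀, g₁⟩ :: ⟨.lt, t, h₁⟩ :: ⟨.L, t', h'⟩ :: ⟨.rt, t, h₂⟩ ::
      ⟨.rt, t₀, g₂⟩ :: r))
    (ha : AO (⟨.lt, t₀, g₁⟩ :: ⟨.lt, t, h₁⟩ :: ⟨.L, t', h'⟩ :: ⟨.rt, t, h₂⟩ ::
      ⟨.rt, t₀, g₂⟩ :: r) o t h₁ h₂) (hg : sn o * g₂ < sn o * g₁) :
    CW (⟨.lt, t₀, g₁⟩ :: ⟨.L, t, h₁⟩ :: ⟨.rt, t₀, g₂⟩ :: r) ∧
      WE (ents (⟨.lt, t₀, g₁⟩ :: ⟨.lt, t, h₁⟩ :: ⟨.L, t', h'⟩ :: ⟨.rt, t, h₂⟩ ::
        ⟨.rt, t₀, g₂⟩ :: r)) (ents (⟨.lt, t₀, g₁⟩ :: ⟨.L, t, h₁⟩ :: ⟨.rt, t₀, g₂⟩ :: r)) := by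
  have hn : CW (⟨.lt, t₀, g₁⟩ :: ⟨.L, t, h₁⟩ :: ⟨.rt, t₀, g₂⟩ :: r) := by
    refine cw_new hw ?_ ?_ ?_ ?_
    · rintro (⟨h, -, -⟩ | ⟨-, -, h⟩)
      · exact absurd h (fun h => h)
      · exact Or.inr ⟨fun h => h, fun h => h, h⟩
    · rintro (⟨-, h, h'⟩ | ⟨h, -, -⟩)
      · exact Or.inl ⟨trivial, h, h'⟩
      · exact absurd trivial h
    · exact List.Sublist.cons_cons _ (List.Sublist.cons_cons _ (List.Sublist.cons_cons _
        (List.Sublist.cons _ (List.Sublist.cons _ (List.Sublist.cons _ (List.Sublist.cons _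
          (List.Sublist.refl _)))))))
    · simp [ent]
  refine ⟨hn, ?_⟩
  obtain ⟨hc1, he1⟩ := hCWA.rot [⟨.lt, t₀, g₁⟩] (⟨.lt, t, h₁⟩ :: ⟨.L, t', h'⟩ :: ⟨.rt, t, h₂⟩ ::
      ⟨.rt, t₀, g₂⟩ :: r) hw
  obtain ⟨hc2, he2⟩ := hCWA.rot [⟨.lt, t₀, g₁⟩] (⟨.L, t, h₁⟩ :: ⟨.rt, t₀, g₂⟩ :: r) hn
  have hmem : ∀ x ∈ (⟨.lt, t, h₁⟩ :: ⟨.L, t', h'⟩ :: ⟨.rt, t, h₂⟩ ::
      ⟨.rt, t₀, g₂⟩ :: (r ++ [⟨.lt, t₀, g₁⟩]) : List Pt), x ∈ (⟨.lt, t₀, g₁⟩ :: ⟨.lt, t, h₁⟩ ::
      ⟨.L, t', h'⟩ :: ⟨.rt, t, h₂⟩ :: ⟨.rt, t₀, g₂⟩ :: r : List Pt) := by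
    intro x hx
    simp only [List.mem_cons, List.mem_append, List.not_mem_nil, or_false] at hx ⊢
    tauto
  have he3 := hRTL ⟨.lt, t, h₁⟩ ⟨.L, t', h'⟩ ⟨.rt, t, h₂⟩ ⟨.rt, t₀, g₂⟩ ⟨.lt, t₀, g₁⟩ r hc1 hc2
    rfl rfl rfl rfl ?_ ?_ ?_
  · exact hWEB.trans _ _ _ he1 (hWEB.trans _ _ _ he3 (hWEB.symm _ _ he2))
  · intro x hx _ hb
    obtain ⟨h1, h2⟩ := btw_lex hb
    exact ha.1 x (hmem x hx) h1 h2
  · intro x hx _ hb
    obtain ⟨h1, h2⟩ := btw_lex hb
    exact ha.1 x (hmem x hx) (neg_injective h1) h2
  · rcases sn_or o with h1 | h1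
    · have h2 := ha.2
      rw [h1, one_mul, one_mul] at hg h2
      exact Or.inl ⟨h2, lt_lex hg⟩
    · have h2 := ha.2
      rw [h1] at hg h2
      exact Or.inr ⟨show h₁ < h₂ by linarith, lt_lex (by linarith)⟩

end RET

theorem t_RET : Stmt_RET := by
  intro hRTR hRTL hWEB hCWA s o t₀ t t' g₁ g₂ h₁ h₂ h' r w hw hcw ha hg
  subst hw
  cases s
  · exact RET.left hRTL hWEB hCWA o t₀ t t' g₁ g₂ h₁ h₂ h' r hcw ha hg
  · exact RET.right hRTR hWEB hCWA o t₀ t t' g₁ g₂ h₁ h₂ h' r hcw ha hg

end LHE


end

section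

set_option maxRecDepth 100000

namespace LCA.CapJ

open LCA

def S150 : SD where
  vs := [
    ⟨nat_lit 2, nat_lit 0, nat_lit 1, (.ofNat (nat_lit 8)), (.ofNat (nat_lit 33775594496)), (.ofNat (nat_lit 556451398299334209147113913840000)), (.ofNat (nat_lit 4755760768)), (.ofNat (nat_lit 51024888833845141947151987209600)), (.ofNat (nat_lit 33775594480)), (.ofNat (nat_lit 33775594512)), (.negSucc (nat_lit 10725521115619457991004)), (.ofNat (nat_lit 10725522483987337457175)), (.negSucc (nat_lit 10725521115619457991004)), (.ofNat (nat_lit 10725522483987337457175)), (.ofNat (nat_lit 0))⟩,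
    ⟨nat_lit 1, nat_lit 1, nat_lit 2, (.ofNat (nat_lit 8)), (.ofNat (nat_lit 48654795008)), (.ofNat (nat_lit 716038597934546112441428951913600)), (.ofNat (nat_lit 6409238208)), (.ofNat (nat_lit 68759298293330965678257815841600)), (.ofNat (nat_lit 48654794992)), (.ofNat (nat_lit 48654795024)), (.ofNat (nat_lit 10725522483987337457175)), (.negSucc (nat_lit 10725522483987337457174)), (.negSucc (nat_lit 10725522483987337457174)), (.ofNat (nat_lit 10725522483987337457175)), (.ofNat (nat_lit 0))⟩,
    ⟨nat_lit 0, nat_lit 3, nat_lit 2, (.ofNat (nat_lit 8)), (.ofNat (nat_lit 32385353856)), (.ofNat (nat_lit 890536854812230961514102934579200)), (.ofNat (nat_lit 6408189632)), (.ofNat (nat_lit 68770544818795135184619310574400)), (.ofNat (nat_lit 32385353840)), (.ofNat (nat_lit 32385353872)), (.ofNat (nat_lit 10725522483987337457175)), (.negSucc (nat_lit 10725522483987337457174)), (.negSucc (nat_lit 10725522483987337457174)), (.ofNat (nat_lit 10725522483987337457175)), (.ofNat (nat_lit 0))⟩,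
    ⟨nat_lit 2, nat_lit 4, nat_lit 3, (.ofNat (nat_lit 8)), (.negSucc (nat_lit 22702671423)), (.ofNat (nat_lit 299689001073128120473355617195200)), (.ofNat (nat_lit 285899904)), (.ofNat (nat_lit 3105788687646414588487168176000)), (.negSucc (nat_lit 22702671439)), (.negSucc (nat_lit 22702671407)), (.negSucc (nat_lit 10725522483987337457174)), (.ofNat (nat_lit 10725522483987337457175)), (.negSucc (nat_lit 10725522483987337457174)), (.ofNat (nat_lit 10725522483987337457175)), (.ofNat (nat_lit 0))⟩,
    ⟨nat_lit 0, nat_lit 5, nat_lit 6, (.ofNat (nat_lit 8)), (.ofNat (nat_lit 7415348416)), (.ofNat (nat_lit 520578224093765763674413571409600)), (.ofNat (nat_lit 3104760256)), (.ofNat (nat_lit 33322668984046620757020031502400)), (.ofNat (nat_lit 7415348400)), (.ofNat (nat_lit 7415348432)), (.ofNat (nat_lit 10725522483987337457175)), (.negSucc (nat_lit 10725522483987337457174)), (.negSucc (nat_lit 10725522483987337457174)), (.ofNat (nat_lit 10725522483987337457175)), (.ofNat (nat_lit 0))⟩,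
    ⟨nat_lit 0, nat_lit 6, nat_lit 7, (.ofNat (nat_lit 8)), (.ofNat (nat_lit 27957260800)), (.ofNat (nat_lit 300255480955075834663683369254400)), (.ofNat (nat_lit 3105808832)), (.ofNat (nat_lit 33311422458582451250658536769600)), (.ofNat (nat_lit 27957260784)), (.ofNat (nat_lit 27957260816)), (.negSucc (nat_lit 10725522483987337457174)), (.ofNat (nat_lit 10725523316307587937665)), (.negSucc (nat_lit 10725522483987337457174)), (.ofNat (nat_lit 10725523316307587937665)), (.ofNat (nat_lit 0))⟩,
    ⟨nat_lit 1, nat_lit 7, nat_lit 0, (.ofNat (nat_lit 8)), (.ofNat (nat_lit 42809711424)), (.ofNat (nat_lit 459555786427095018504390771607360)), (.ofNat (nat_lit 4756547136)), (.ofNat (nat_lit 51016454627256494505210516589760)), (.ofNat (nat_lit 42809711408)), (.ofNat (nat_lit 42809711440)), (.ofNat (nat_lit 10725523316307587937665)), (.negSucc (nat_lit 10725521115619457991004)), (.negSucc (nat_lit 10725521115619457991004)), (.ofNat (nat_lit 10725523316307587937665)), (.ofNat (nat_lit 0))⟩,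
    ⟨nat_lit 1, nat_lit 8, nat_lit 12, (.ofNat (nat_lit 8)), (.negSucc (nat_lit 8890135679)), (.ofNat (nat_lit 417436437221848994285257784966400)), (.ofNat (nat_lit 1664155904)), (.ofNat (nat_lit 17877057878872696856501860243200)), (.negSucc (nat_lit 8890135695)), (.negSucc (nat_lit 8890135663)), (.ofNat (nat_lit 10725522483987337457175)), (.negSucc (nat_lit 10725522483987337457174)), (.negSucc (nat_lit 10725522483987337457174)), (.ofNat (nat_lit 10725522483987337457175)), (.ofNat (nat_lit 0))⟩,
    ⟨nat_lit 0, nat_lit 4, nat_lit 8, (.ofNat (nat_lit 8)), (.negSucc (nat_lit 21285527103)), (.ofNat (nat_lit 284489387805913174243996822699200)), (.ofNat (nat_lit 286424192)), (.ofNat (nat_lit 3100165424914329835306420809600)), (.negSucc (nat_lit 21285527119)), (.negSucc (nat_lit 21285527087)), (.negSucc (nat_lit 10725522483987337457174)), (.ofNat (nat_lit 10725522483987337457175)), (.negSucc (nat_lit 10725522483987337457174)), (.ofNat (nat_lit 10725522483987337457175)), (.ofNat (nat_lit 0))⟩,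
    ⟨nat_lit 0, nat_lit 13, nat_lit 9, (.ofNat (nat_lit 8)), (.negSucc (nat_lit 1505382399)), (.ofNat (nat_lit 16832049458646281568563982902400)), (.negSucc (nat_lit 262143)), (.ofNat (nat_lit 2811631366042376590373683200)), (.negSucc (nat_lit 1505382415)), (.negSucc (nat_lit 1505382383)), (.negSucc (nat_lit 10725522483987337457174)), (.ofNat (nat_lit 10725522483987337457175)), (.negSucc (nat_lit 10725522483987337457174)), (.ofNat (nat_lit 10725522483987337457175)), (.ofNat (nat_lit 0))⟩,
    ⟨nat_lit 1, nat_lit 9, nat_lit 10, (.ofNat (nat_lit 8)), (.ofNat (nat_lit 5593314688)), (.ofNat (nat_lit 92969284683005720604685480108800)), (.ofNat (nat_lit 788947968)), (.ofNat (nat_lit 8467502432212207177749250636800)), (.ofNat (nat_lit 5593314672)), (.ofNat (nat_lit 5593314704)), (.ofNat (nat_lit 10725522483987337457175)), (.negSucc (nat_lit 10725522483987337457174)), (.negSucc (nat_lit 10725522483987337457174)), (.ofNat (nat_lit 10725522483987337457175)), (.ofNat (nat_lit 0))⟩,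
    ⟨nat_lit 2, nat_lit 10, nat_lit 11, (.ofNat (nat_lit 8)), (.negSucc (nat_lit 18092067199)), (.ofNat (nat_lit 347007380664576173234202200755200)), (.ofNat (nat_lit 787637248)), (.ofNat (nat_lit 8481560589042419060701119052800)), (.negSucc (nat_lit 18092067215)), (.negSucc (nat_lit 18092067183)), (.negSucc (nat_lit 10725522483987337457174)), (.ofNat (nat_lit 10725522483987337457175)), (.negSucc (nat_lit 10725522483987337457174)), (.ofNat (nat_lit 10725522483987337457175)), (.ofNat (nat_lit 0))⟩,
    ⟨nat_lit 0, nat_lit 11, nat_lit 12, (.ofNat (nat_lit 8)), (.negSucc (nat_lit 10207855487)), (.ofNat (nat_lit 431569670650148471673757634188800)), (.ofNat (nat_lit 1663893760)), (.ofNat (nat_lit 17879869510238739233092233926400)), (.negSucc (nat_lit 10207855503)), (.negSucc (nat_lit 10207855471)), (.ofNat (nat_lit 10725522483987337457175)), (.negSucc (nat_lit 10725522483987337457174)), (.negSucc (nat_lit 10725522483987337457174)), (.ofNat (nat_lit 10725522483987337457175)), (.ofNat (nat_lit 0))⟩,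
    ⟨nat_lit 2, nat_lit 13, nat_lit 5, (.ofNat (nat_lit 8)), (.negSucc (nat_lit 20528543103)), (.ofNat (nat_lit 220865387305902668717482725753600)), (.negSucc (nat_lit 1048575)), (.ofNat (nat_lit 11246525464169506361494732800)), (.negSucc (nat_lit 20528543119)), (.negSucc (nat_lit 20528543087)), (.negSucc (nat_lit 10725522483987337457174)), (.ofNat (nat_lit 10725522483987337457175)), (.negSucc (nat_lit 10725522483987337457174)), (.ofNat (nat_lit 10725522483987337457175)), (.ofNat (nat_lit 0))⟩]
  es := [
    ⟨nat_lit 0, nat_lit 6, (.ofNat (nat_lit 33775594496)), (.ofNat (nat_lit 42809711424)), (.ofNat (nat_lit 33775594512)), (.ofNat (nat_lit 42809711408)), (.negSucc (nat_lit 10725521115619457991004)), (.ofNat (nat_lit 0)), (.ofNat (nat_lit 102032901371863752278197663101440))⟩,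
    ⟨nat_lit 0, nat_lit 1, (.ofNat (nat_lit 33775594496)), (.ofNat (nat_lit 48654795008)), (.ofNat (nat_lit 33775594512)), (.ofNat (nat_lit 48654794992)), (.ofNat (nat_lit 10725522483987337457175)), (.ofNat (nat_lit 0)), (.ofNat (nat_lit 16869788196254259542242099200))⟩,
    ⟨nat_lit 2, nat_lit 1, (.ofNat (nat_lit 32385353856)), (.ofNat (nat_lit 48654795008)), (.ofNat (nat_lit 32385353872)), (.ofNat (nat_lit 48654794992)), (.negSucc (nat_lit 10725522483987337457174)), (.ofNat (nat_lit 0)), (.ofNat (nat_lit 137501726798465677096973389584000))⟩,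
    ⟨nat_lit 3, nat_lit 2, (.negSucc (nat_lit 22702671423)), (.ofNat (nat_lit 32385353856)), (.negSucc (nat_lit 22702671407)), (.ofNat (nat_lit 32385353840)), (.ofNat (nat_lit 10725522483987337457175)), (.ofNat (nat_lit 0)), (.ofNat (nat_lit 39362839124593272265231564800))⟩,
    ⟨nat_lit 3, nat_lit 8, (.negSucc (nat_lit 22702671423)), (.negSucc (nat_lit 21285527103)), (.negSucc (nat_lit 22702671407)), (.negSucc (nat_lit 21285527119)), (.negSucc (nat_lit 10725522483987337457174)), (.ofNat (nat_lit 0)), (.ofNat (nat_lit 6172214536168235904709104787200))⟩,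
    ⟨nat_lit 13, nat_lit 4, (.negSucc (nat_lit 20528543103)), (.ofNat (nat_lit 7415348416)), (.negSucc (nat_lit 20528543087)), (.ofNat (nat_lit 7415348400)), (.ofNat (nat_lit 10725522483987337457175)), (.ofNat (nat_lit 0)), (.ofNat (nat_lit 22493050928339012722989465600))⟩,
    ⟨nat_lit 4, nat_lit 5, (.ofNat (nat_lit 7415348416)), (.ofNat (nat_lit 27957260800)), (.ofNat (nat_lit 7415348432)), (.ofNat (nat_lit 27957260784)), (.negSucc (nat_lit 10725522483987337457174)), (.ofNat (nat_lit 0)), (.ofNat (nat_lit 66622844917164902501317073539200))⟩,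
    ⟨nat_lit 5, nat_lit 6, (.ofNat (nat_lit 27957260800)), (.ofNat (nat_lit 42809711424)), (.ofNat (nat_lit 27957260816)), (.ofNat (nat_lit 42809711408)), (.ofNat (nat_lit 10725523316307587937665)), (.ofNat (nat_lit 0)), (.negSucc (nat_lit 2585027584994758085687679))⟩,
    ⟨nat_lit 8, nat_lit 7, (.negSucc (nat_lit 21285527103)), (.negSucc (nat_lit 8890135679)), (.negSucc (nat_lit 21285527087)), (.negSucc (nat_lit 8890135695)), (.ofNat (nat_lit 10725522483987337457175)), (.ofNat (nat_lit 0)), (.ofNat (nat_lit 28116313660423765903736832000))⟩,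
    ⟨nat_lit 9, nat_lit 10, (.negSucc (nat_lit 1505382399)), (.ofNat (nat_lit 5593314688)), (.negSucc (nat_lit 1505382383)), (.ofNat (nat_lit 5593314672)), (.ofNat (nat_lit 10725522483987337457175)), (.ofNat (nat_lit 0)), (.ofNat (nat_lit 5623262732084753180747366400))⟩,
    ⟨nat_lit 11, nat_lit 10, (.negSucc (nat_lit 18092067199)), (.ofNat (nat_lit 5593314688)), (.negSucc (nat_lit 18092067183)), (.ofNat (nat_lit 5593314672)), (.negSucc (nat_lit 10725522483987337457174)), (.ofNat (nat_lit 0)), (.ofNat (nat_lit 16929381601692329602317753907200))⟩,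
    ⟨nat_lit 11, nat_lit 12, (.negSucc (nat_lit 18092067199)), (.negSucc (nat_lit 10207855487)), (.negSucc (nat_lit 18092067183)), (.negSucc (nat_lit 10207855503)), (.ofNat (nat_lit 10725522483987337457175)), (.ofNat (nat_lit 0)), (.ofNat (nat_lit 33739576392508519084484198400))⟩,
    ⟨nat_lit 12, nat_lit 7, (.negSucc (nat_lit 10207855487)), (.negSucc (nat_lit 8890135679)), (.negSucc (nat_lit 10207855471)), (.negSucc (nat_lit 8890135695)), (.negSucc (nat_lit 10725522483987337457174)), (.ofNat (nat_lit 0)), (.ofNat (nat_lit 35725999444084969947099983654400))⟩,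
    ⟨nat_lit 13, nat_lit 9, (.negSucc (nat_lit 20528543103)), (.negSucc (nat_lit 1505382399)), (.negSucc (nat_lit 20528543087)), (.negSucc (nat_lit 1505382415)), (.negSucc (nat_lit 10725522483987337457174)), (.ofNat (nat_lit 0)), (.ofNat (nat_lit 0))⟩]

theorem ok150 : stOK 13 13 S150 = true := by decide +kernel

def S151 : SD where
  vs := [
    ⟨nat_lit 2, nat_lit 0, nat_lit 1, (.ofNat (nat_lit 8)), (.ofNat (nat_lit 33775594496)), (.ofNat (nat_lit 565145951397761306165018923990400)), (.ofNat (nat_lit 0)), (.ofNat (nat_lit 8694553098427097017905010150400)), (.ofNat (nat_lit 33775594480)), (.ofNat (nat_lit 33775594512)), (.negSucc (nat_lit 10893108772799639604942)), (.ofNat (nat_lit 10893108772799639604943)), (.negSucc (nat_lit 10893108772799639604942)), (.ofNat (nat_lit 10893108772799639604943)), (.ofNat (nat_lit 1005523206345330751288))⟩,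
    ⟨nat_lit 1, nat_lit 1, nat_lit 2, (.ofNat (nat_lit 8)), (.ofNat (nat_lit 48654795008)), (.ofNat (nat_lit 727226701027273395448302287321216)), (.ofNat (nat_lit 0)), (.ofNat (nat_lit 11188103092727283006873335407616)), (.ofNat (nat_lit 48654794992)), (.ofNat (nat_lit 48654795024)), (.ofNat (nat_lit 10893108772799639604943)), (.negSucc (nat_lit 10893108772799639604942)), (.negSucc (nat_lit 10893108772799639604942)), (.ofNat (nat_lit 10893108772799639604943)), (.ofNat (nat_lit 1005517732873812886608))⟩,
    ⟨nat_lit 0, nat_lit 3, nat_lit 2, (.ofNat (nat_lit 8)), (.ofNat (nat_lit 32385353856)), (.ofNat (nat_lit 904451493168672070287730954135552)), (.ofNat (nat_lit 0)), (.ofNat (nat_lit 13914638356441108773628019556352)), (.ofNat (nat_lit 32385353840)), (.ofNat (nat_lit 32385353872)), (.ofNat (nat_lit 10893108772799639604943)), (.negSucc (nat_lit 10893108772799639604942)), (.negSucc (nat_lit 10893108772799639604942)), (.ofNat (nat_lit 10893108772799639604943)), (.ofNat (nat_lit 1005517732873812886608))⟩,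
    ⟨nat_lit 2, nat_lit 4, nat_lit 3, (.ofNat (nat_lit 8)), (.negSucc (nat_lit 22702671423)), (.ofNat (nat_lit 304371641714895747355741757176512)), (.ofNat (nat_lit 0)), (.ofNat (nat_lit 4682640641767626882386139981312)), (.negSucc (nat_lit 22702671439)), (.negSucc (nat_lit 22702671407)), (.negSucc (nat_lit 10893108772799639604942)), (.ofNat (nat_lit 10893108772799639604943)), (.negSucc (nat_lit 10893108772799639604942)), (.ofNat (nat_lit 10893108772799639604943)), (.ofNat (nat_lit 1005517732873812886608))⟩,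
    ⟨nat_lit 0, nat_lit 5, nat_lit 6, (.ofNat (nat_lit 8)), (.ofNat (nat_lit 7415348416)), (.ofNat (nat_lit 528712258845230853731808840694976)), (.ofNat (nat_lit 0)), (.ofNat (nat_lit 8134034751465090057395269285376)), (.ofNat (nat_lit 7415348400)), (.ofNat (nat_lit 7415348432)), (.ofNat (nat_lit 10893108772799639604943)), (.negSucc (nat_lit 10893108772799639604942)), (.negSucc (nat_lit 10893108772799639604942)), (.ofNat (nat_lit 10893108772799639604943)), (.ofNat (nat_lit 1005517732873812886608))⟩,
    ⟨nat_lit 0, nat_lit 6, nat_lit 7, (.ofNat (nat_lit 8)), (.ofNat (nat_lit 27957260800)), (.ofNat (nat_lit 304946972844998894580293361380864)), (.ofNat (nat_lit 0)), (.ofNat (nat_lit 4691491889923059916609992126464)), (.ofNat (nat_lit 27957260784)), (.ofNat (nat_lit 27957260816)), (.negSucc (nat_lit 10893108772799639604942)), (.ofNat (nat_lit 10893108772799639604943)), (.negSucc (nat_lit 10893108772799639604942)), (.ofNat (nat_lit 10893108772799639604943)), (.ofNat (nat_lit 1005516068233311925628))⟩,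
    ⟨nat_lit 1, nat_lit 7, nat_lit 0, (.ofNat (nat_lit 8)), (.ofNat (nat_lit 42809711424)), (.ofNat (nat_lit 466736333034866776057704135215296)), (.ofNat (nat_lit 0)), (.ofNat (nat_lit 7180546607771757553313363607936)), (.ofNat (nat_lit 42809711408)), (.ofNat (nat_lit 42809711440)), (.ofNat (nat_lit 10893108772799639604943)), (.negSucc (nat_lit 10893108772799639604942)), (.negSucc (nat_lit 10893108772799639604942)), (.ofNat (nat_lit 10893108772799639604943)), (.ofNat (nat_lit 1005517140328569896988))⟩,
    ⟨nat_lit 1, nat_lit 8, nat_lit 12, (.ofNat (nat_lit 8)), (.negSucc (nat_lit 8890135679)), (.ofNat (nat_lit 423958881553440384820950951011584)), (.ofNat (nat_lit 0)), (.ofNat (nat_lit 6522444331591390535693166045184)), (.negSucc (nat_lit 8890135695)), (.negSucc (nat_lit 8890135663)), (.ofNat (nat_lit 10893108772799639604943)), (.negSucc (nat_lit 10893108772799639604942)), (.negSucc (nat_lit 10893108772799639604942)), (.ofNat (nat_lit 10893108772799639604943)), (.ofNat (nat_lit 1005517732873812886608))⟩,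
    ⟨nat_lit 0, nat_lit 4, nat_lit 8, (.ofNat (nat_lit 8)), (.negSucc (nat_lit 21285527103)), (.ofNat (nat_lit 288934534490380567591549740802752)), (.ofNat (nat_lit 0)), (.ofNat (nat_lit 4445146684467393347552918103552)), (.negSucc (nat_lit 21285527119)), (.negSucc (nat_lit 21285527087)), (.negSucc (nat_lit 10893108772799639604942)), (.ofNat (nat_lit 10893108772799639604943)), (.negSucc (nat_lit 10893108772799639604942)), (.ofNat (nat_lit 10893108772799639604943)), (.ofNat (nat_lit 1005517732873812886608))⟩,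
    ⟨nat_lit 0, nat_lit 13, nat_lit 9, (.ofNat (nat_lit 8)), (.negSucc (nat_lit 1505382399)), (.ofNat (nat_lit 17095050231437629718072231151744)), (.ofNat (nat_lit 0)), (.ofNat (nat_lit 263000772791348149508248249344)), (.negSucc (nat_lit 1505382415)), (.negSucc (nat_lit 1505382383)), (.negSucc (nat_lit 10893108772799639604942)), (.ofNat (nat_lit 10893108772799639604943)), (.negSucc (nat_lit 10893108772799639604942)), (.ofNat (nat_lit 10893108772799639604943)), (.ofNat (nat_lit 1005517732873812886608))⟩,
    ⟨nat_lit 1, nat_lit 9, nat_lit 10, (.ofNat (nat_lit 8)), (.ofNat (nat_lit 5593314688)), (.ofNat (nat_lit 94421929756177684989130575657728)), (.ofNat (nat_lit 0)), (.ofNat (nat_lit 1452645073171964384445095548928)), (.ofNat (nat_lit 5593314672)), (.ofNat (nat_lit 5593314704)), (.ofNat (nat_lit 10893108772799639604943)), (.negSucc (nat_lit 10893108772799639604942)), (.negSucc (nat_lit 10893108772799639604942)), (.ofNat (nat_lit 10893108772799639604943)), (.ofNat (nat_lit 1005517732873812886608))⟩,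
    ⟨nat_lit 2, nat_lit 10, nat_lit 11, (.ofNat (nat_lit 8)), (.negSucc (nat_lit 18092067199)), (.ofNat (nat_lit 352429370987460175940974983130112)), (.ofNat (nat_lit 0)), (.ofNat (nat_lit 5421990322884002706772782374912)), (.negSucc (nat_lit 18092067215)), (.negSucc (nat_lit 18092067183)), (.negSucc (nat_lit 10893108772799639604942)), (.ofNat (nat_lit 10893108772799639604943)), (.negSucc (nat_lit 10893108772799639604942)), (.ofNat (nat_lit 10893108772799639604943)), (.ofNat (nat_lit 1005517732873812886608))⟩,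
    ⟨nat_lit 0, nat_lit 11, nat_lit 12, (.ofNat (nat_lit 8)), (.negSucc (nat_lit 10207855487)), (.ofNat (nat_lit 438312946754057041543645636822528)), (.ofNat (nat_lit 0)), (.ofNat (nat_lit 6743276103908569869888002633728)), (.negSucc (nat_lit 10207855503)), (.negSucc (nat_lit 10207855471)), (.ofNat (nat_lit 10893108772799639604943)), (.negSucc (nat_lit 10893108772799639604942)), (.negSucc (nat_lit 10893108772799639604942)), (.ofNat (nat_lit 10893108772799639604943)), (.ofNat (nat_lit 1005517732873812886608))⟩,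
    ⟨nat_lit 2, nat_lit 13, nat_lit 5, (.ofNat (nat_lit 8)), (.negSucc (nat_lit 20528543103)), (.ofNat (nat_lit 224316408982557397916185992911616)), (.ofNat (nat_lit 0)), (.ofNat (nat_lit 3451021676654729198703267158016)), (.negSucc (nat_lit 20528543119)), (.negSucc (nat_lit 20528543087)), (.negSucc (nat_lit 10893108772799639604942)), (.ofNat (nat_lit 10893108772799639604943)), (.negSucc (nat_lit 10893108772799639604942)), (.ofNat (nat_lit 10893108772799639604943)), (.ofNat (nat_lit 1005517732873812886608))⟩]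
  es := [
    ⟨nat_lit 0, nat_lit 6, (.ofNat (nat_lit 33775594496)), (.ofNat (nat_lit 42809711424)), (.ofNat (nat_lit 33775594512)), (.ofNat (nat_lit 42809711408)), (.negSucc (nat_lit 10893108772799639604942)), (.negSucc (nat_lit 167587657180181613937)), (.ofNat (nat_lit 14354925849879574017909719835648))⟩,
    ⟨nat_lit 0, nat_lit 1, (.ofNat (nat_lit 33775594496)), (.ofNat (nat_lit 48654795008)), (.ofNat (nat_lit 33775594512)), (.ofNat (nat_lit 48654794992)), (.ofNat (nat_lit 10893108772799639604943)), (.ofNat (nat_lit 167586288812302147768)), (.ofNat (nat_lit 3034226564413238218663170665472))⟩,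
    ⟨nat_lit 2, nat_lit 1, (.ofNat (nat_lit 32385353856)), (.ofNat (nat_lit 48654795008)), (.ofNat (nat_lit 32385353872)), (.ofNat (nat_lit 48654794992)), (.negSucc (nat_lit 10893108772799639604942)), (.negSucc (nat_lit 167586288812302147767)), (.ofNat (nat_lit 19341979621041327795083500149760))⟩,
    ⟨nat_lit 3, nat_lit 2, (.negSucc (nat_lit 22702671423)), (.ofNat (nat_lit 32385353856)), (.negSucc (nat_lit 22702671407)), (.ofNat (nat_lit 32385353840)), (.ofNat (nat_lit 10893108772799639604943)), (.ofNat (nat_lit 167586288812302147768)), (.ofNat (nat_lit 8487297091840889752172538962944))⟩,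
    ⟨nat_lit 3, nat_lit 8, (.negSucc (nat_lit 22702671423)), (.negSucc (nat_lit 21285527103)), (.negSucc (nat_lit 22702671407)), (.negSucc (nat_lit 21285527119)), (.negSucc (nat_lit 10893108772799639604942)), (.negSucc (nat_lit 167586288812302147767)), (.ofNat (nat_lit 877984191694364012599740999680))⟩,
    ⟨nat_lit 13, nat_lit 4, (.negSucc (nat_lit 20528543103)), (.ofNat (nat_lit 7415348416)), (.negSucc (nat_lit 20528543087)), (.ofNat (nat_lit 7415348400)), (.ofNat (nat_lit 10893108772799639604943)), (.ofNat (nat_lit 167586288812302147768)), (.ofNat (nat_lit 6891324030177466804630432549888))⟩,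
    ⟨nat_lit 4, nat_lit 5, (.ofNat (nat_lit 7415348416)), (.ofNat (nat_lit 27957260800)), (.ofNat (nat_lit 7415348432)), (.ofNat (nat_lit 27957260784)), (.negSucc (nat_lit 10893108772799639604942)), (.negSucc (nat_lit 167586288812302147767)), (.ofNat (nat_lit 9376745472752713310160106020864))⟩,
    ⟨nat_lit 5, nat_lit 6, (.ofNat (nat_lit 27957260800)), (.ofNat (nat_lit 42809711424)), (.ofNat (nat_lit 27957260816)), (.ofNat (nat_lit 42809711408)), (.ofNat (nat_lit 10893108772799639604943)), (.ofNat (nat_lit 167585456492051667278)), (.ofNat (nat_lit 6261576487718327444120024064))⟩,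
    ⟨nat_lit 8, nat_lit 7, (.negSucc (nat_lit 21285527103)), (.negSucc (nat_lit 8890135679)), (.negSucc (nat_lit 21285527087)), (.negSucc (nat_lit 8890135695)), (.ofNat (nat_lit 10893108772799639604943)), (.ofNat (nat_lit 167586288812302147768)), (.ofNat (nat_lit 8012309177240422682506095207424))⟩,
    ⟨nat_lit 9, nat_lit 10, (.negSucc (nat_lit 1505382399)), (.ofNat (nat_lit 5593314688)), (.negSucc (nat_lit 1505382383)), (.ofNat (nat_lit 5593314672)), (.ofNat (nat_lit 10893108772799639604943)), (.ofNat (nat_lit 167586288812302147768)), (.ofNat (nat_lit 515282222450704706240394732544))⟩,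
    ⟨nat_lit 11, nat_lit 10, (.negSucc (nat_lit 18092067199)), (.ofNat (nat_lit 5593314688)), (.negSucc (nat_lit 18092067183)), (.ofNat (nat_lit 5593314672)), (.negSucc (nat_lit 10893108772799639604942)), (.negSucc (nat_lit 167586288812302147767)), (.ofNat (nat_lit 2390007923893224062649796365312))⟩,
    ⟨nat_lit 11, nat_lit 12, (.negSucc (nat_lit 18092067199)), (.negSucc (nat_lit 10207855487)), (.negSucc (nat_lit 18092067183)), (.negSucc (nat_lit 10207855503)), (.ofNat (nat_lit 10893108772799639604943)), (.ofNat (nat_lit 167586288812302147768)), (.ofNat (nat_lit 8453972721874781350895768384512))⟩,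
    ⟨nat_lit 12, nat_lit 7, (.negSucc (nat_lit 10207855487)), (.negSucc (nat_lit 8890135679)), (.negSucc (nat_lit 10207855471)), (.negSucc (nat_lit 8890135695)), (.negSucc (nat_lit 10893108772799639604942)), (.negSucc (nat_lit 167586288812302147767)), (.ofNat (nat_lit 5032579485942358388880236882944))⟩,
    ⟨nat_lit 13, nat_lit 9, (.negSucc (nat_lit 20528543103)), (.negSucc (nat_lit 1505382399)), (.negSucc (nat_lit 20528543087)), (.negSucc (nat_lit 1505382415)), (.negSucc (nat_lit 10893108772799639604942)), (.negSucc (nat_lit 167586288812302147767)), (.ofNat (nat_lit 10719323131991592776101766144))⟩]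

theorem ok151 : stOK 13 13 S151 = true := by decide +kernel

def S152 : SD where
  vs := [
    ⟨nat_lit 2, nat_lit 0, nat_lit 1, (.ofNat (nat_lit 8)), (.ofNat (nat_lit 22251808256)), (.ofNat (nat_lit 690704364015634447208666085152640)), (.negSucc (nat_lit 11523786239)), (.ofNat (nat_lit 125558412617873141043647161162240)), (.ofNat (nat_lit 22251808240)), (.ofNat (nat_lit 22251808272)), (.negSucc (nat_lit 10893108772799639604942)), (.ofNat (nat_lit 10893108772799639604943)), (.negSucc (nat_lit 10893108772799639604942)), (.ofNat (nat_lit 10893108772799639604943)), (.ofNat (nat_lit 0))⟩,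
    ⟨nat_lit 1, nat_lit 1, nat_lit 2, (.ofNat (nat_lit 8)), (.ofNat (nat_lit 37131270912)), (.ofNat (nat_lit 852787969208252673280674046661248)), (.negSucc (nat_lit 11523524095)), (.ofNat (nat_lit 125561268180979277832371759340032)), (.ofNat (nat_lit 37131270896)), (.ofNat (nat_lit 37131270928)), (.ofNat (nat_lit 10893108772799639604943)), (.negSucc (nat_lit 10893108772799639604942)), (.negSucc (nat_lit 10893108772799639604942)), (.ofNat (nat_lit 10893108772799639604943)), (.ofNat (nat_lit 0))⟩,
    ⟨nat_lit 0, nat_lit 3, nat_lit 2, (.ofNat (nat_lit 8)), (.ofNat (nat_lit 20861043328)), (.ofNat (nat_lit 1030021328038969758486276508008960)), (.negSucc (nat_lit 11524310527)), (.ofNat (nat_lit 125569834870297688198545553873408)), (.ofNat (nat_lit 20861043312)), (.ofNat (nat_lit 20861043344)), (.ofNat (nat_lit 10893108772799639604943)), (.negSucc (nat_lit 10893108772799639604942)), (.negSucc (nat_lit 10893108772799639604942)), (.ofNat (nat_lit 10893108772799639604943)), (.ofNat (nat_lit 0))⟩,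
    ⟨nat_lit 2, nat_lit 4, nat_lit 3, (.ofNat (nat_lit 8)), (.negSucc (nat_lit 34228292671)), (.ofNat (nat_lit 429927198769662751610664320160960)), (.negSucc (nat_lit 11525621247)), (.ofNat (nat_lit 125555557054767004254922562984448)), (.negSucc (nat_lit 34228292687)), (.negSucc (nat_lit 34228292655)), (.negSucc (nat_lit 10893108772799639604942)), (.ofNat (nat_lit 10893108772799639604943)), (.negSucc (nat_lit 10893108772799639604942)), (.ofNat (nat_lit 10893108772799639604943)), (.ofNat (nat_lit 0))⟩,
    ⟨nat_lit 0, nat_lit 5, nat_lit 6, (.ofNat (nat_lit 8)), (.ofNat (nat_lit 7415872704)), (.ofNat (nat_lit 528729392223867674464156429761728)), (.ofNat (nat_lit 524288)), (.ofNat (nat_lit 17133378636820732347589066752)), (.ofNat (nat_lit 7415872688)), (.ofNat (nat_lit 7415872720)), (.ofNat (nat_lit 10893108772799639604943)), (.negSucc (nat_lit 10893108772799639604942)), (.negSucc (nat_lit 10893108772799639604942)), (.ofNat (nat_lit 10893108772799639604943)), (.ofNat (nat_lit 0))⟩,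
    ⟨nat_lit 0, nat_lit 6, nat_lit 7, (.ofNat (nat_lit 8)), (.ofNat (nat_lit 27958309376)), (.ofNat (nat_lit 304958395097423441735191754092032)), (.ofNat (nat_lit 1048576)), (.ofNat (nat_lit 11422252424547154898392711168)), (.ofNat (nat_lit 27958309360)), (.ofNat (nat_lit 27958309392)), (.negSucc (nat_lit 10893108772799639604942)), (.ofNat (nat_lit 10893108772799639604943)), (.negSucc (nat_lit 10893108772799639604942)), (.ofNat (nat_lit 10893108772799639604943)), (.ofNat (nat_lit 0))⟩,
    ⟨nat_lit 1, nat_lit 7, nat_lit 0, (.ofNat (nat_lit 8)), (.ofNat (nat_lit 42811022144)), (.ofNat (nat_lit 466750610850397460001327126104256)), (.ofNat (nat_lit 1310720)), (.ofNat (nat_lit 14277815530683943622990888960)), (.ofNat (nat_lit 42811022128)), (.ofNat (nat_lit 42811022160)), (.ofNat (nat_lit 10893108772799639604943)), (.negSucc (nat_lit 10893108772799639604942)), (.negSucc (nat_lit 10893108772799639604942)), (.ofNat (nat_lit 10893108772799639604943)), (.ofNat (nat_lit 0))⟩,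
    ⟨nat_lit 1, nat_lit 8, nat_lit 12, (.ofNat (nat_lit 8)), (.negSucc (nat_lit 20414708351)), (.ofNat (nat_lit 549514438608207389075873513996032)), (.negSucc (nat_lit 11524572671)), (.ofNat (nat_lit 125555557054767004254922562984448)), (.negSucc (nat_lit 20414708367)), (.negSucc (nat_lit 20414708335)), (.ofNat (nat_lit 10893108772799639604943)), (.negSucc (nat_lit 10893108772799639604942)), (.negSucc (nat_lit 10893108772799639604942)), (.ofNat (nat_lit 10893108772799639604943)), (.ofNat (nat_lit 0))⟩,
    ⟨nat_lit 0, nat_lit 4, nat_lit 8, (.ofNat (nat_lit 8)), (.negSucc (nat_lit 32810624063)), (.ofNat (nat_lit 414484380418935298269023107431616)), (.negSucc (nat_lit 11525096959)), (.ofNat (nat_lit 125549845928554730677473366628864)), (.negSucc (nat_lit 32810624079)), (.negSucc (nat_lit 32810624047)), (.negSucc (nat_lit 10893108772799639604942)), (.ofNat (nat_lit 10893108772799639604943)), (.negSucc (nat_lit 10893108772799639604942)), (.ofNat (nat_lit 10893108772799639604943)), (.ofNat (nat_lit 0))⟩,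
    ⟨nat_lit 0, nat_lit 13, nat_lit 9, (.ofNat (nat_lit 8)), (.negSucc (nat_lit 1505644543)), (.ofNat (nat_lit 17097905794543766506796829329536)), (.negSucc (nat_lit 262143)), (.ofNat (nat_lit 2855563106136788724598177792)), (.negSucc (nat_lit 1505644559)), (.negSucc (nat_lit 1505644527)), (.negSucc (nat_lit 10893108772799639604942)), (.ofNat (nat_lit 10893108772799639604943)), (.negSucc (nat_lit 10893108772799639604942)), (.ofNat (nat_lit 10893108772799639604943)), (.ofNat (nat_lit 0))⟩,
    ⟨nat_lit 1, nat_lit 9, nat_lit 10, (.ofNat (nat_lit 8)), (.ofNat (nat_lit 5593576832)), (.ofNat (nat_lit 94430496445496095355304370191104)), (.ofNat (nat_lit 262144)), (.ofNat (nat_lit 8566689318410366173794533376)), (.ofNat (nat_lit 5593576816)), (.ofNat (nat_lit 5593576848)), (.ofNat (nat_lit 10893108772799639604943)), (.negSucc (nat_lit 10893108772799639604942)), (.negSucc (nat_lit 10893108772799639604942)), (.ofNat (nat_lit 10893108772799639604943)), (.ofNat (nat_lit 0))⟩,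
    ⟨nat_lit 2, nat_lit 10, nat_lit 11, (.ofNat (nat_lit 8)), (.negSucc (nat_lit 29617164159)), (.ofNat (nat_lit 477984928042227180195897546114560)), (.negSucc (nat_lit 11525096959)), (.ofNat (nat_lit 125555557054767004254922562984448)), (.negSucc (nat_lit 29617164175)), (.negSucc (nat_lit 29617164143)), (.negSucc (nat_lit 10893108772799639604942)), (.ofNat (nat_lit 10893108772799639604943)), (.negSucc (nat_lit 10893108772799639604942)), (.ofNat (nat_lit 10893108772799639604943)), (.ofNat (nat_lit 0))⟩,
    ⟨nat_lit 0, nat_lit 11, nat_lit 12, (.ofNat (nat_lit 8)), (.negSucc (nat_lit 21732690303)), (.ofNat (nat_lit 563871359371930182587292797984768)), (.negSucc (nat_lit 11524834815)), (.ofNat (nat_lit 125558412617873141043647161162240)), (.negSucc (nat_lit 21732690319)), (.negSucc (nat_lit 21732690287)), (.ofNat (nat_lit 10893108772799639604943)), (.negSucc (nat_lit 10893108772799639604942)), (.negSucc (nat_lit 10893108772799639604942)), (.ofNat (nat_lit 10893108772799639604943)), (.ofNat (nat_lit 0))⟩,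
    ⟨nat_lit 2, nat_lit 13, nat_lit 5, (.ofNat (nat_lit 8)), (.negSucc (nat_lit 20529067391)), (.ofNat (nat_lit 224322120108769671493635189267200)), (.negSucc (nat_lit 524287)), (.ofNat (nat_lit 5711126212273577449196355584)), (.negSucc (nat_lit 20529067407)), (.negSucc (nat_lit 20529067375)), (.negSucc (nat_lit 10893108772799639604942)), (.ofNat (nat_lit 10893108772799639604943)), (.negSucc (nat_lit 10893108772799639604942)), (.ofNat (nat_lit 10893108772799639604943)), (.ofNat (nat_lit 0))⟩]
  es := [
    ⟨nat_lit 0, nat_lit 6, (.ofNat (nat_lit 22251808256)), (.ofNat (nat_lit 42811022144)), (.ofNat (nat_lit 22251808272)), (.ofNat (nat_lit 42811022128)), (.negSucc (nat_lit 10893108772799639604942)), (.ofNat (nat_lit 0)), (.ofNat (nat_lit 28555631061367887245981777920))⟩,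
    ⟨nat_lit 0, nat_lit 1, (.ofNat (nat_lit 22251808256)), (.ofNat (nat_lit 37131270912)), (.ofNat (nat_lit 22251808272)), (.ofNat (nat_lit 37131270896)), (.ofNat (nat_lit 10893108772799639604943)), (.ofNat (nat_lit 0)), (.ofNat (nat_lit 251088269604684914200048340546560))⟩,
    ⟨nat_lit 2, nat_lit 1, (.ofNat (nat_lit 20861043328)), (.ofNat (nat_lit 37131270912)), (.ofNat (nat_lit 20861043344)), (.ofNat (nat_lit 37131270896)), (.negSucc (nat_lit 10893108772799639604942)), (.ofNat (nat_lit 0)), (.ofNat (nat_lit 34266757273641464695178133504))⟩,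
    ⟨nat_lit 3, nat_lit 2, (.negSucc (nat_lit 34228292671)), (.ofNat (nat_lit 20861043328)), (.negSucc (nat_lit 34228292655)), (.ofNat (nat_lit 20861043312)), (.ofNat (nat_lit 10893108772799639604943)), (.ofNat (nat_lit 0)), (.ofNat (nat_lit 251105402983321734932395929613312))⟩,
    ⟨nat_lit 3, nat_lit 8, (.negSucc (nat_lit 34228292671)), (.negSucc (nat_lit 32810624063)), (.negSucc (nat_lit 34228292655)), (.negSucc (nat_lit 32810624079)), (.negSucc (nat_lit 10893108772799639604942)), (.ofNat (nat_lit 0)), (.ofNat (nat_lit 5711126212273577449196355584))⟩,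
    ⟨nat_lit 13, nat_lit 4, (.negSucc (nat_lit 20529067391)), (.ofNat (nat_lit 7415872704)), (.negSucc (nat_lit 20529067375)), (.ofNat (nat_lit 7415872688)), (.ofNat (nat_lit 10893108772799639604943)), (.ofNat (nat_lit 0)), (.ofNat (nat_lit 11422252424547154898392711168))⟩,
    ⟨nat_lit 4, nat_lit 5, (.ofNat (nat_lit 7415872704)), (.ofNat (nat_lit 27958309376)), (.ofNat (nat_lit 7415872720)), (.ofNat (nat_lit 27958309360)), (.negSucc (nat_lit 10893108772799639604942)), (.ofNat (nat_lit 0)), (.ofNat (nat_lit 22844504849094309796785422336))⟩,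
    ⟨nat_lit 5, nat_lit 6, (.ofNat (nat_lit 27958309376)), (.ofNat (nat_lit 42811022144)), (.ofNat (nat_lit 27958309392)), (.ofNat (nat_lit 42811022128)), (.ofNat (nat_lit 10893108772799639604943)), (.ofNat (nat_lit 0)), (.ofNat (nat_lit 0))⟩,
    ⟨nat_lit 8, nat_lit 7, (.negSucc (nat_lit 32810624063)), (.negSucc (nat_lit 20414708351)), (.negSucc (nat_lit 32810624047)), (.negSucc (nat_lit 20414708367)), (.ofNat (nat_lit 10893108772799639604943)), (.ofNat (nat_lit 0)), (.ofNat (nat_lit 251093980730897187777497536902144))⟩,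
    ⟨nat_lit 9, nat_lit 10, (.negSucc (nat_lit 1505644543)), (.ofNat (nat_lit 5593576832)), (.negSucc (nat_lit 1505644527)), (.ofNat (nat_lit 5593576816)), (.ofNat (nat_lit 10893108772799639604943)), (.ofNat (nat_lit 0)), (.ofNat (nat_lit 5711126212273577449196355584))⟩,
    ⟨nat_lit 11, nat_lit 10, (.negSucc (nat_lit 29617164159)), (.ofNat (nat_lit 5593576832)), (.negSucc (nat_lit 29617164143)), (.ofNat (nat_lit 5593576816)), (.negSucc (nat_lit 10893108772799639604942)), (.ofNat (nat_lit 0)), (.ofNat (nat_lit 11422252424547154898392711168))⟩,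
    ⟨nat_lit 11, nat_lit 12, (.negSucc (nat_lit 29617164159)), (.negSucc (nat_lit 21732690303)), (.negSucc (nat_lit 29617164143)), (.negSucc (nat_lit 21732690319)), (.ofNat (nat_lit 10893108772799639604943)), (.ofNat (nat_lit 0)), (.ofNat (nat_lit 251099691857109461354946733257728))⟩,
    ⟨nat_lit 12, nat_lit 7, (.negSucc (nat_lit 21732690303)), (.negSucc (nat_lit 20414708351)), (.negSucc (nat_lit 21732690287)), (.negSucc (nat_lit 20414708367)), (.negSucc (nat_lit 10893108772799639604942)), (.ofNat (nat_lit 0)), (.ofNat (nat_lit 17133378636820732347589066752))⟩,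
    ⟨nat_lit 13, nat_lit 9, (.negSucc (nat_lit 20529067391)), (.negSucc (nat_lit 1505644543)), (.negSucc (nat_lit 20529067375)), (.negSucc (nat_lit 1505644559)), (.negSucc (nat_lit 10893108772799639604942)), (.ofNat (nat_lit 0)), (.ofNat (nat_lit 0))⟩]

theorem ok152 : stOK 13 13 S152 = true := by decide +kernel

def S153 : SD where
  vs := [
    ⟨nat_lit 2, nat_lit 0, nat_lit 1, (.ofNat (nat_lit 8)), (.ofNat (nat_lit 20716803648)), (.ofNat (nat_lit 707453891808388486950238871507904)), (.negSucc (nat_lit 1535004607)), (.ofNat (nat_lit 16749527792754039741572786355264)), (.ofNat (nat_lit 20716803632)), (.ofNat (nat_lit 20716803664)), (.negSucc (nat_lit 10893108772799639604942)), (.ofNat (nat_lit 10893108772799639604943)), (.negSucc (nat_lit 10893108772799639604942)), (.ofNat (nat_lit 10893108772799639604943)), (.ofNat (nat_lit 0))⟩,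
    ⟨nat_lit 1, nat_lit 1, nat_lit 2, (.ofNat (nat_lit 8)), (.ofNat (nat_lit 35596528448)), (.ofNat (nat_lit 869540352564112849810971431194304)), (.negSucc (nat_lit 1534742463)), (.ofNat (nat_lit 16752383355860176530297384533056)), (.ofNat (nat_lit 35596528432)), (.ofNat (nat_lit 35596528464)), (.ofNat (nat_lit 10893108772799639604943)), (.negSucc (nat_lit 10893108772799639604942)), (.negSucc (nat_lit 10893108772799639604942)), (.ofNat (nat_lit 10893108772799639604943)), (.ofNat (nat_lit 0))⟩,
    ⟨nat_lit 0, nat_lit 3, nat_lit 2, (.ofNat (nat_lit 8)), (.ofNat (nat_lit 19325514432)), (.ofNat (nat_lit 1046782278084148345382747687075392)), (.negSucc (nat_lit 1535528895)), (.ofNat (nat_lit 16760950045178586896471179066432)), (.ofNat (nat_lit 19325514416)), (.ofNat (nat_lit 19325514448)), (.ofNat (nat_lit 10893108772799639604943)), (.negSucc (nat_lit 10893108772799639604942)), (.negSucc (nat_lit 10893108772799639604942)), (.ofNat (nat_lit 10893108772799639604943)), (.ofNat (nat_lit 0))⟩,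
    ⟨nat_lit 2, nat_lit 4, nat_lit 3, (.ofNat (nat_lit 8)), (.negSucc (nat_lit 35765132287)), (.ofNat (nat_lit 446673870999310654563512508338432)), (.negSucc (nat_lit 1536839615)), (.ofNat (nat_lit 16746672229647902952848188177472)), (.negSucc (nat_lit 35765132303)), (.negSucc (nat_lit 35765132271)), (.negSucc (nat_lit 10893108772799639604942)), (.ofNat (nat_lit 10893108772799639604943)), (.negSucc (nat_lit 10893108772799639604942)), (.ofNat (nat_lit 10893108772799639604943)), (.ofNat (nat_lit 0))⟩,
    ⟨nat_lit 0, nat_lit 5, nat_lit 6, (.ofNat (nat_lit 8)), (.ofNat (nat_lit 5880868096)), (.ofNat (nat_lit 545473208890409440628280019761408)), (.negSucc (nat_lit 1535004607)), (.ofNat (nat_lit 16743816666541766164123589999680)), (.ofNat (nat_lit 5880868080)), (.ofNat (nat_lit 5880868112)), (.ofNat (nat_lit 10893108772799639604943)), (.negSucc (nat_lit 10893108772799639604942)), (.negSucc (nat_lit 10893108772799639604942)), (.ofNat (nat_lit 10893108772799639604943)), (.ofNat (nat_lit 0))⟩,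
    ⟨nat_lit 0, nat_lit 6, nat_lit 7, (.ofNat (nat_lit 8)), (.ofNat (nat_lit 26423566912)), (.ofNat (nat_lit 321699356200859071110590745913920)), (.negSucc (nat_lit 1534742463)), (.ofNat (nat_lit 16740961103435629375398991821888)), (.ofNat (nat_lit 26423566896)), (.ofNat (nat_lit 26423566928)), (.negSucc (nat_lit 10893108772799639604942)), (.ofNat (nat_lit 10893108772799639604943)), (.negSucc (nat_lit 10893108772799639604942)), (.ofNat (nat_lit 10893108772799639604943)), (.ofNat (nat_lit 0))⟩,
    ⟨nat_lit 1, nat_lit 7, nat_lit 0, (.ofNat (nat_lit 8)), (.ofNat (nat_lit 41276541824)), (.ofNat (nat_lit 483494427516939226165450716103936)), (.negSucc (nat_lit 1534480319)), (.ofNat (nat_lit 16743816666541766164123589999680)), (.ofNat (nat_lit 41276541808)), (.ofNat (nat_lit 41276541840)), (.ofNat (nat_lit 10893108772799639604943)), (.negSucc (nat_lit 10893108772799639604942)), (.negSucc (nat_lit 10893108772799639604942)), (.ofNat (nat_lit 10893108772799639604943)), (.ofNat (nat_lit 0))⟩,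
    ⟨nat_lit 1, nat_lit 8, nat_lit 12, (.ofNat (nat_lit 8)), (.negSucc (nat_lit 21950499391)), (.ofNat (nat_lit 566261110837855292028721702173504)), (.negSucc (nat_lit 1535791039)), (.ofNat (nat_lit 16746672229647902952848188177472)), (.negSucc (nat_lit 21950499407)), (.negSucc (nat_lit 21950499375)), (.ofNat (nat_lit 10893108772799639604943)), (.negSucc (nat_lit 10893108772799639604942)), (.negSucc (nat_lit 10893108772799639604942)), (.ofNat (nat_lit 10893108772799639604943)), (.ofNat (nat_lit 0))⟩,
    ⟨nat_lit 0, nat_lit 4, nat_lit 8, (.ofNat (nat_lit 8)), (.negSucc (nat_lit 34346939391)), (.ofNat (nat_lit 431225341522370927644422099253504)), (.negSucc (nat_lit 1536315327)), (.ofNat (nat_lit 16740961103435629375398991821888)), (.negSucc (nat_lit 34346939407)), (.negSucc (nat_lit 34346939375)), (.negSucc (nat_lit 10893108772799639604942)), (.ofNat (nat_lit 10893108772799639604943)), (.negSucc (nat_lit 10893108772799639604942)), (.ofNat (nat_lit 10893108772799639604943)), (.ofNat (nat_lit 0))⟩,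
    ⟨nat_lit 0, nat_lit 13, nat_lit 9, (.ofNat (nat_lit 8)), (.negSucc (nat_lit 1505644543)), (.ofNat (nat_lit 17097905794543766506796829329536)), (.ofNat (nat_lit 0)), (.ofNat (nat_lit 0)), (.negSucc (nat_lit 1505644559)), (.negSucc (nat_lit 1505644527)), (.negSucc (nat_lit 10893108772799639604942)), (.ofNat (nat_lit 10893108772799639604943)), (.negSucc (nat_lit 10893108772799639604942)), (.ofNat (nat_lit 10893108772799639604943)), (.ofNat (nat_lit 0))⟩,
    ⟨nat_lit 1, nat_lit 9, nat_lit 10, (.ofNat (nat_lit 8)), (.ofNat (nat_lit 5594101120)), (.ofNat (nat_lit 94436207571708368932753566546688)), (.ofNat (nat_lit 524288)), (.ofNat (nat_lit 5711126212273577449196355584)), (.ofNat (nat_lit 5594101104)), (.ofNat (nat_lit 5594101136)), (.ofNat (nat_lit 10893108772799639604943)), (.negSucc (nat_lit 10893108772799639604942)), (.negSucc (nat_lit 10893108772799639604942)), (.ofNat (nat_lit 10893108772799639604943)), (.ofNat (nat_lit 0))⟩,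
    ⟨nat_lit 2, nat_lit 10, nat_lit 11, (.ofNat (nat_lit 8)), (.negSucc (nat_lit 31153479487)), (.ofNat (nat_lit 494731600271875083148745734292032)), (.negSucc (nat_lit 1536315327)), (.ofNat (nat_lit 16746672229647902952848188177472)), (.negSucc (nat_lit 31153479503)), (.negSucc (nat_lit 31153479471)), (.negSucc (nat_lit 10893108772799639604942)), (.ofNat (nat_lit 10893108772799639604943)), (.negSucc (nat_lit 10893108772799639604942)), (.ofNat (nat_lit 10893108772799639604943)), (.ofNat (nat_lit 0))⟩,
    ⟨nat_lit 0, nat_lit 11, nat_lit 12, (.ofNat (nat_lit 8)), (.negSucc (nat_lit 23268743487)), (.ofNat (nat_lit 580620887164684222328865584340032)), (.negSucc (nat_lit 1536053183)), (.ofNat (nat_lit 16749527792754039741572786355264)), (.negSucc (nat_lit 23268743503)), (.negSucc (nat_lit 23268743471)), (.ofNat (nat_lit 10893108772799639604943)), (.negSucc (nat_lit 10893108772799639604942)), (.negSucc (nat_lit 10893108772799639604942)), (.ofNat (nat_lit 10893108772799639604943)), (.ofNat (nat_lit 0))⟩,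
    ⟨nat_lit 2, nat_lit 13, nat_lit 5, (.ofNat (nat_lit 8)), (.negSucc (nat_lit 22065120575)), (.ofNat (nat_lit 241054514522886890502860386555712)), (.negSucc (nat_lit 1536053183)), (.ofNat (nat_lit 16732394414117219009225197288512)), (.negSucc (nat_lit 22065120591)), (.negSucc (nat_lit 22065120559)), (.negSucc (nat_lit 10893108772799639604942)), (.ofNat (nat_lit 10893108772799639604943)), (.negSucc (nat_lit 10893108772799639604942)), (.ofNat (nat_lit 10893108772799639604943)), (.ofNat (nat_lit 0))⟩]
  es := [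
    ⟨nat_lit 0, nat_lit 6, (.ofNat (nat_lit 20716803648)), (.ofNat (nat_lit 41276541824)), (.ofNat (nat_lit 20716803664)), (.ofNat (nat_lit 41276541808)), (.negSucc (nat_lit 10893108772799639604942)), (.ofNat (nat_lit 0)), (.ofNat (nat_lit 28555631061367887245981777920))⟩,
    ⟨nat_lit 0, nat_lit 1, (.ofNat (nat_lit 20716803648)), (.ofNat (nat_lit 35596528448)), (.ofNat (nat_lit 20716803664)), (.ofNat (nat_lit 35596528432)), (.ofNat (nat_lit 10893108772799639604943)), (.ofNat (nat_lit 0)), (.ofNat (nat_lit 33470499954446711595899590932608))⟩,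
    ⟨nat_lit 2, nat_lit 1, (.ofNat (nat_lit 19325514432)), (.ofNat (nat_lit 35596528448)), (.ofNat (nat_lit 19325514448)), (.ofNat (nat_lit 35596528432)), (.negSucc (nat_lit 10893108772799639604942)), (.ofNat (nat_lit 0)), (.ofNat (nat_lit 34266757273641464695178133504))⟩,
    ⟨nat_lit 3, nat_lit 2, (.negSucc (nat_lit 35765132287)), (.ofNat (nat_lit 19325514432)), (.negSucc (nat_lit 35765132271)), (.ofNat (nat_lit 19325514416)), (.ofNat (nat_lit 10893108772799639604943)), (.ofNat (nat_lit 0)), (.ofNat (nat_lit 33487633333083532328247179999360))⟩,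
    ⟨nat_lit 3, nat_lit 8, (.negSucc (nat_lit 35765132287)), (.negSucc (nat_lit 34346939391)), (.negSucc (nat_lit 35765132271)), (.negSucc (nat_lit 34346939407)), (.negSucc (nat_lit 10893108772799639604942)), (.ofNat (nat_lit 0)), (.ofNat (nat_lit 5711126212273577449196355584))⟩,
    ⟨nat_lit 13, nat_lit 4, (.negSucc (nat_lit 22065120575)), (.ofNat (nat_lit 5880868096)), (.negSucc (nat_lit 22065120559)), (.ofNat (nat_lit 5880868080)), (.ofNat (nat_lit 10893108772799639604943)), (.ofNat (nat_lit 0)), (.ofNat (nat_lit 33464788828234438018450394577024))⟩,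
    ⟨nat_lit 4, nat_lit 5, (.ofNat (nat_lit 5880868096)), (.ofNat (nat_lit 26423566912)), (.ofNat (nat_lit 5880868112)), (.ofNat (nat_lit 26423566896)), (.negSucc (nat_lit 10893108772799639604942)), (.ofNat (nat_lit 0)), (.ofNat (nat_lit 22844504849094309796785422336))⟩,
    ⟨nat_lit 5, nat_lit 6, (.ofNat (nat_lit 26423566912)), (.ofNat (nat_lit 41276541824)), (.ofNat (nat_lit 26423566928)), (.ofNat (nat_lit 41276541808)), (.ofNat (nat_lit 10893108772799639604943)), (.ofNat (nat_lit 0)), (.ofNat (nat_lit 33459077702022164441001198221440))⟩,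
    ⟨nat_lit 8, nat_lit 7, (.negSucc (nat_lit 34346939391)), (.negSucc (nat_lit 21950499391)), (.negSucc (nat_lit 34346939375)), (.negSucc (nat_lit 21950499407)), (.ofNat (nat_lit 10893108772799639604943)), (.ofNat (nat_lit 0)), (.ofNat (nat_lit 33476211080658985173348787288192))⟩,
    ⟨nat_lit 9, nat_lit 10, (.negSucc (nat_lit 1505644543)), (.ofNat (nat_lit 5594101120)), (.negSucc (nat_lit 1505644527)), (.ofNat (nat_lit 5594101104)), (.ofNat (nat_lit 10893108772799639604943)), (.ofNat (nat_lit 0)), (.ofNat (nat_lit 0))⟩,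
    ⟨nat_lit 11, nat_lit 10, (.negSucc (nat_lit 31153479487)), (.ofNat (nat_lit 5594101120)), (.negSucc (nat_lit 31153479471)), (.ofNat (nat_lit 5594101104)), (.negSucc (nat_lit 10893108772799639604942)), (.ofNat (nat_lit 0)), (.ofNat (nat_lit 11422252424547154898392711168))⟩,
    ⟨nat_lit 11, nat_lit 12, (.negSucc (nat_lit 31153479487)), (.negSucc (nat_lit 23268743487)), (.negSucc (nat_lit 31153479471)), (.negSucc (nat_lit 23268743503)), (.ofNat (nat_lit 10893108772799639604943)), (.ofNat (nat_lit 0)), (.ofNat (nat_lit 33481922206871258750797983643776))⟩,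
    ⟨nat_lit 12, nat_lit 7, (.negSucc (nat_lit 23268743487)), (.negSucc (nat_lit 21950499391)), (.negSucc (nat_lit 23268743471)), (.negSucc (nat_lit 21950499407)), (.negSucc (nat_lit 10893108772799639604942)), (.ofNat (nat_lit 0)), (.ofNat (nat_lit 17133378636820732347589066752))⟩,
    ⟨nat_lit 13, nat_lit 9, (.negSucc (nat_lit 22065120575)), (.negSucc (nat_lit 1505644543)), (.negSucc (nat_lit 22065120559)), (.negSucc (nat_lit 1505644559)), (.negSucc (nat_lit 10893108772799639604942)), (.ofNat (nat_lit 0)), (.ofNat (nat_lit 0))⟩]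

theorem ok153 : stOK 13 13 S153 = true := by decide +kernel

def S154 : SD where
  vs := [
    ⟨nat_lit 2, nat_lit 0, nat_lit 1, (.ofNat (nat_lit 8)), (.ofNat (nat_lit 174891328)), (.ofNat (nat_lit 931247732742522852529823397883584)), (.negSucc (nat_lit 20541912319)), (.ofNat (nat_lit 223793840934134365579584526375680)), (.ofNat (nat_lit 174891312)), (.ofNat (nat_lit 174891344)), (.negSucc (nat_lit 10893108772799639604942)), (.ofNat (nat_lit 10893108772799639604943)), (.negSucc (nat_lit 10893108772799639604942)), (.ofNat (nat_lit 10893108772799639604943)), (.ofNat (nat_lit 0))⟩,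
    ⟨nat_lit 1, nat_lit 1, nat_lit 2, (.ofNat (nat_lit 8)), (.ofNat (nat_lit 15054878272)), (.ofNat (nat_lit 1093337049061353352179280555747776)), (.negSucc (nat_lit 20541650175)), (.ofNat (nat_lit 223796696497240502368309124553472)), (.ofNat (nat_lit 15054878256)), (.ofNat (nat_lit 15054878288)), (.ofNat (nat_lit 10893108772799639604943)), (.negSucc (nat_lit 10893108772799639604942)), (.negSucc (nat_lit 10893108772799639604942)), (.ofNat (nat_lit 10893108772799639604943)), (.ofNat (nat_lit 0))⟩,
    ⟨nat_lit 0, nat_lit 3, nat_lit 2, (.ofNat (nat_lit 8)), (.negSucc (nat_lit 1216922175)), (.ofNat (nat_lit 1270587541270707258117230606162240)), (.negSucc (nat_lit 20542436607)), (.ofNat (nat_lit 223805263186558912734482919086848)), (.negSucc (nat_lit 1216922191)), (.negSucc (nat_lit 1216922159)), (.ofNat (nat_lit 10893108772799639604943)), (.negSucc (nat_lit 10893108772799639604942)), (.negSucc (nat_lit 10893108772799639604942)), (.ofNat (nat_lit 10893108772799639604943)), (.ofNat (nat_lit 0))⟩,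
    ⟨nat_lit 2, nat_lit 4, nat_lit 3, (.ofNat (nat_lit 8)), (.negSucc (nat_lit 56308879615)), (.ofNat (nat_lit 670464856370338883354372436536320)), (.negSucc (nat_lit 20543747327)), (.ofNat (nat_lit 223790985371028228790859928197888)), (.negSucc (nat_lit 56308879631)), (.negSucc (nat_lit 56308879599)), (.negSucc (nat_lit 10893108772799639604942)), (.ofNat (nat_lit 10893108772799639604943)), (.negSucc (nat_lit 10893108772799639604942)), (.ofNat (nat_lit 10893108772799639604943)), (.ofNat (nat_lit 0))⟩,
    ⟨nat_lit 0, nat_lit 5, nat_lit 6, (.ofNat (nat_lit 8)), (.ofNat (nat_lit 5881654528)), (.ofNat (nat_lit 545487486705940124571903010650368)), (.ofNat (nat_lit 786432)), (.ofNat (nat_lit 14277815530683943622990888960)), (.ofNat (nat_lit 5881654512)), (.ofNat (nat_lit 5881654544)), (.ofNat (nat_lit 10893108772799639604943)), (.negSucc (nat_lit 10893108772799639604942)), (.negSucc (nat_lit 10893108772799639604942)), (.ofNat (nat_lit 10893108772799639604943)), (.ofNat (nat_lit 0))⟩,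
    ⟨nat_lit 0, nat_lit 6, nat_lit 7, (.ofNat (nat_lit 8)), (.ofNat (nat_lit 5881654592)), (.ofNat (nat_lit 545487486008781163112726075934016)), (.negSucc (nat_lit 20541912319)), (.ofNat (nat_lit 223788129807922092002135330020096)), (.ofNat (nat_lit 5881654576)), (.ofNat (nat_lit 5881654608)), (.negSucc (nat_lit 10893108772799639604942)), (.ofNat (nat_lit 10893108772799639604943)), (.negSucc (nat_lit 10893108772799639604942)), (.ofNat (nat_lit 10893108772799639604943)), (.ofNat (nat_lit 0))⟩,
    ⟨nat_lit 1, nat_lit 7, nat_lit 0, (.ofNat (nat_lit 8)), (.ofNat (nat_lit 20734891648)), (.ofNat (nat_lit 707285412887967454956310644301824)), (.negSucc (nat_lit 20541650175)), (.ofNat (nat_lit 223790985371028228790859928197888)), (.ofNat (nat_lit 20734891632)), (.ofNat (nat_lit 20734891664)), (.ofNat (nat_lit 10893108772799639604943)), (.negSucc (nat_lit 10893108772799639604942)), (.negSucc (nat_lit 10893108772799639604942)), (.ofNat (nat_lit 10893108772799639604943)), (.ofNat (nat_lit 0))⟩,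
    ⟨nat_lit 1, nat_lit 8, nat_lit 12, (.ofNat (nat_lit 8)), (.negSucc (nat_lit 42493198143)), (.ofNat (nat_lit 790052096208883520819581630371392)), (.negSucc (nat_lit 20542698751)), (.ofNat (nat_lit 223790985371028228790859928197888)), (.negSucc (nat_lit 42493198159)), (.negSucc (nat_lit 42493198127)), (.ofNat (nat_lit 10893108772799639604943)), (.negSucc (nat_lit 10893108772799639604942)), (.negSucc (nat_lit 10893108772799639604942)), (.ofNat (nat_lit 10893108772799639604943)), (.ofNat (nat_lit 0))⟩,
    ⟨nat_lit 0, nat_lit 4, nat_lit 8, (.ofNat (nat_lit 8)), (.negSucc (nat_lit 54890162431)), (.ofNat (nat_lit 655010615767186882857832831095808)), (.negSucc (nat_lit 20543223039)), (.ofNat (nat_lit 223785274244815955213410731842304)), (.negSucc (nat_lit 54890162447)), (.negSucc (nat_lit 54890162415)), (.negSucc (nat_lit 10893108772799639604942)), (.ofNat (nat_lit 10893108772799639604943)), (.negSucc (nat_lit 10893108772799639604942)), (.ofNat (nat_lit 10893108772799639604943)), (.ofNat (nat_lit 0))⟩,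
    ⟨nat_lit 0, nat_lit 13, nat_lit 9, (.ofNat (nat_lit 8)), (.negSucc (nat_lit 1505644543)), (.ofNat (nat_lit 17097905794543766506796829329536)), (.ofNat (nat_lit 0)), (.ofNat (nat_lit 0)), (.negSucc (nat_lit 1505644559)), (.negSucc (nat_lit 1505644527)), (.negSucc (nat_lit 10893108772799639604942)), (.ofNat (nat_lit 10893108772799639604943)), (.negSucc (nat_lit 10893108772799639604942)), (.ofNat (nat_lit 10893108772799639604943)), (.ofNat (nat_lit 0))⟩,
    ⟨nat_lit 1, nat_lit 9, nat_lit 10, (.ofNat (nat_lit 8)), (.ofNat (nat_lit 5594625408)), (.ofNat (nat_lit 94441918697920642510202762902272)), (.ofNat (nat_lit 524288)), (.ofNat (nat_lit 5711126212273577449196355584)), (.ofNat (nat_lit 5594625392)), (.ofNat (nat_lit 5594625424)), (.ofNat (nat_lit 10893108772799639604943)), (.negSucc (nat_lit 10893108772799639604942)), (.negSucc (nat_lit 10893108772799639604942)), (.ofNat (nat_lit 10893108772799639604943)), (.ofNat (nat_lit 0))⟩,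
    ⟨nat_lit 2, nat_lit 10, nat_lit 11, (.ofNat (nat_lit 8)), (.negSucc (nat_lit 51696702527)), (.ofNat (nat_lit 718522585642903311939605662489920)), (.negSucc (nat_lit 20543223039)), (.ofNat (nat_lit 223790985371028228790859928197888)), (.negSucc (nat_lit 51696702543)), (.negSucc (nat_lit 51696702511)), (.negSucc (nat_lit 10893108772799639604942)), (.ofNat (nat_lit 10893108772799639604943)), (.negSucc (nat_lit 10893108772799639604942)), (.ofNat (nat_lit 10893108772799639604943)), (.ofNat (nat_lit 0))⟩,
    ⟨nat_lit 0, nat_lit 11, nat_lit 12, (.ofNat (nat_lit 8)), (.negSucc (nat_lit 43811704383)), (.ofNat (nat_lit 804414728098818587908450110715712)), (.negSucc (nat_lit 20542960895)), (.ofNat (nat_lit 223793840934134365579584526375680)), (.negSucc (nat_lit 43811704399)), (.negSucc (nat_lit 43811704367)), (.ofNat (nat_lit 10893108772799639604943)), (.negSucc (nat_lit 10893108772799639604942)), (.negSucc (nat_lit 10893108772799639604942)), (.ofNat (nat_lit 10893108772799639604943)), (.ofNat (nat_lit 0))⟩,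
    ⟨nat_lit 2, nat_lit 13, nat_lit 5, (.ofNat (nat_lit 8)), (.negSucc (nat_lit 22065382719)), (.ofNat (nat_lit 241057370085993027291584984733504)), (.negSucc (nat_lit 262143)), (.ofNat (nat_lit 2855563106136788724598177792)), (.negSucc (nat_lit 22065382735)), (.negSucc (nat_lit 22065382703)), (.negSucc (nat_lit 10893108772799639604942)), (.ofNat (nat_lit 10893108772799639604943)), (.negSucc (nat_lit 10893108772799639604942)), (.ofNat (nat_lit 10893108772799639604943)), (.ofNat (nat_lit 0))⟩]
  es := [
    ⟨nat_lit 0, nat_lit 6, (.ofNat (nat_lit 174891328)), (.ofNat (nat_lit 20734891648)), (.ofNat (nat_lit 174891344)), (.ofNat (nat_lit 20734891632)), (.negSucc (nat_lit 10893108772799639604942)), (.ofNat (nat_lit 0)), (.ofNat (nat_lit 28555631061367887245981777920))⟩,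
    ⟨nat_lit 0, nat_lit 1, (.ofNat (nat_lit 174891328)), (.ofNat (nat_lit 15054878272)), (.ofNat (nat_lit 174891344)), (.ofNat (nat_lit 15054878256)), (.ofNat (nat_lit 10893108772799639604943)), (.ofNat (nat_lit 0)), (.ofNat (nat_lit 447559126237207363271923070973440))⟩,
    ⟨nat_lit 2, nat_lit 1, (.negSucc (nat_lit 1216922175)), (.ofNat (nat_lit 15054878272)), (.negSucc (nat_lit 1216922159)), (.ofNat (nat_lit 15054878256)), (.negSucc (nat_lit 10893108772799639604942)), (.ofNat (nat_lit 0)), (.ofNat (nat_lit 34266757273641464695178133504))⟩,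
    ⟨nat_lit 3, nat_lit 2, (.negSucc (nat_lit 56308879615)), (.negSucc (nat_lit 1216922175)), (.negSucc (nat_lit 56308879599)), (.negSucc (nat_lit 1216922191)), (.ofNat (nat_lit 10893108772799639604943)), (.ofNat (nat_lit 0)), (.ofNat (nat_lit 447576259615844184004270660040192))⟩,
    ⟨nat_lit 3, nat_lit 8, (.negSucc (nat_lit 56308879615)), (.negSucc (nat_lit 54890162431)), (.negSucc (nat_lit 56308879599)), (.negSucc (nat_lit 54890162447)), (.negSucc (nat_lit 10893108772799639604942)), (.ofNat (nat_lit 0)), (.ofNat (nat_lit 5711126212273577449196355584))⟩,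
    ⟨nat_lit 13, nat_lit 4, (.negSucc (nat_lit 22065382719)), (.ofNat (nat_lit 5881654528)), (.negSucc (nat_lit 22065382703)), (.ofNat (nat_lit 5881654512)), (.ofNat (nat_lit 10893108772799639604943)), (.ofNat (nat_lit 0)), (.ofNat (nat_lit 5711126212273577449196355584))⟩,
    ⟨nat_lit 4, nat_lit 5, (.ofNat (nat_lit 5881654528)), (.ofNat (nat_lit 5881654592)), (.ofNat (nat_lit 5881654544)), (.ofNat (nat_lit 5881654576)), (.negSucc (nat_lit 10893108772799639604942)), (.ofNat (nat_lit 0)), (.ofNat (nat_lit 22844504849094309796785422336))⟩,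
    ⟨nat_lit 5, nat_lit 6, (.ofNat (nat_lit 5881654592)), (.ofNat (nat_lit 20734891648)), (.ofNat (nat_lit 5881654608)), (.ofNat (nat_lit 20734891632)), (.ofNat (nat_lit 10893108772799639604943)), (.ofNat (nat_lit 0)), (.ofNat (nat_lit 447553415110995089694473874617856))⟩,
    ⟨nat_lit 8, nat_lit 7, (.negSucc (nat_lit 54890162431)), (.negSucc (nat_lit 42493198143)), (.negSucc (nat_lit 54890162415)), (.negSucc (nat_lit 42493198159)), (.ofNat (nat_lit 10893108772799639604943)), (.ofNat (nat_lit 0)), (.ofNat (nat_lit 447564837363419636849372267329024))⟩,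
    ⟨nat_lit 9, nat_lit 10, (.negSucc (nat_lit 1505644543)), (.ofNat (nat_lit 5594625408)), (.negSucc (nat_lit 1505644527)), (.ofNat (nat_lit 5594625392)), (.ofNat (nat_lit 10893108772799639604943)), (.ofNat (nat_lit 0)), (.ofNat (nat_lit 0))⟩,
    ⟨nat_lit 11, nat_lit 10, (.negSucc (nat_lit 51696702527)), (.ofNat (nat_lit 5594625408)), (.negSucc (nat_lit 51696702511)), (.ofNat (nat_lit 5594625392)), (.negSucc (nat_lit 10893108772799639604942)), (.ofNat (nat_lit 0)), (.ofNat (nat_lit 11422252424547154898392711168))⟩,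
    ⟨nat_lit 11, nat_lit 12, (.negSucc (nat_lit 51696702527)), (.negSucc (nat_lit 43811704383)), (.negSucc (nat_lit 51696702511)), (.negSucc (nat_lit 43811704399)), (.ofNat (nat_lit 10893108772799639604943)), (.ofNat (nat_lit 0)), (.ofNat (nat_lit 447570548489631910426821463684608))⟩,
    ⟨nat_lit 12, nat_lit 7, (.negSucc (nat_lit 43811704383)), (.negSucc (nat_lit 42493198143)), (.negSucc (nat_lit 43811704367)), (.negSucc (nat_lit 42493198159)), (.negSucc (nat_lit 10893108772799639604942)), (.ofNat (nat_lit 0)), (.ofNat (nat_lit 17133378636820732347589066752))⟩,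
    ⟨nat_lit 13, nat_lit 9, (.negSucc (nat_lit 22065382719)), (.negSucc (nat_lit 1505644543)), (.negSucc (nat_lit 22065382703)), (.negSucc (nat_lit 1505644559)), (.negSucc (nat_lit 10893108772799639604942)), (.ofNat (nat_lit 0)), (.ofNat (nat_lit 0))⟩]

theorem ok154 : stOK 13 13 S154 = true := by decide +kernel

def S155 : SD where
  vs := [
    ⟨nat_lit 2, nat_lit 0, nat_lit 1, (.ofNat (nat_lit 8)), (.ofNat (nat_lit 174891328)), (.ofNat (nat_lit 945798869042840772471530931690240)), (.ofNat (nat_lit 0)), (.ofNat (nat_lit 14551136300317919941707533806656)), (.ofNat (nat_lit 174891312)), (.ofNat (nat_lit 174891344)), (.negSucc (nat_lit 11063318716011615162407)), (.ofNat (nat_lit 11063318164902419041980)), (.negSucc (nat_lit 11063318716011615162407)), (.ofNat (nat_lit 11063318164902419041980)), (.ofNat (nat_lit 1021258557053461103934))⟩,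
    ⟨nat_lit 1, nat_lit 1, nat_lit 2, (.ofNat (nat_lit 8)), (.ofNat (nat_lit 15054878272)), (.ofNat (nat_lit 1110420898893906806850210319599360)), (.ofNat (nat_lit 0)), (.ofNat (nat_lit 17083849832553454670929763851584)), (.ofNat (nat_lit 15054878256)), (.ofNat (nat_lit 15054878288)), (.ofNat (nat_lit 11063318164902419041980)), (.negSucc (nat_lit 11063318164902419041979)), (.negSucc (nat_lit 11063318164902419041979)), (.ofNat (nat_lit 11063318164902419041980)), (.ofNat (nat_lit 1021256352616676622222))⟩,
    ⟨nat_lit 0, nat_lit 3, nat_lit 2, (.ofNat (nat_lit 8)), (.negSucc (nat_lit 1216922175)), (.ofNat (nat_lit 1290441004365932526893784214406400)), (.ofNat (nat_lit 0)), (.ofNat (nat_lit 19853463095225268776553608244160)), (.negSucc (nat_lit 1216922191)), (.negSucc (nat_lit 1216922159)), (.ofNat (nat_lit 11063318164902419041980)), (.negSucc (nat_lit 11063318164902419041979)), (.negSucc (nat_lit 11063318164902419041979)), (.ofNat (nat_lit 11063318164902419041980)), (.ofNat (nat_lit 1021256352616676622222))⟩,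
    ⟨nat_lit 2, nat_lit 4, nat_lit 3, (.ofNat (nat_lit 8)), (.negSucc (nat_lit 56308879615)), (.ofNat (nat_lit 680941150879949555279976481075200)), (.ofNat (nat_lit 0)), (.ofNat (nat_lit 10476294509610671925604044538880)), (.negSucc (nat_lit 56308879631)), (.negSucc (nat_lit 56308879599)), (.negSucc (nat_lit 11063318164902419041979)), (.ofNat (nat_lit 11063318164902419041980)), (.negSucc (nat_lit 11063318164902419041979)), (.ofNat (nat_lit 11063318164902419041980)), (.ofNat (nat_lit 1021256352616676622222))⟩,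
    ⟨nat_lit 0, nat_lit 5, nat_lit 6, (.ofNat (nat_lit 8)), (.ofNat (nat_lit 5881654528)), (.ofNat (nat_lit 554010949087718062472777620558080)), (.ofNat (nat_lit 0)), (.ofNat (nat_lit 8523462381777937900874609907712)), (.ofNat (nat_lit 5881654512)), (.ofNat (nat_lit 5881654544)), (.ofNat (nat_lit 11063317867079328841680)), (.ofNat (nat_lit 11063317867079328841680)), (.ofNat (nat_lit 11063317867079328841680)), (.ofNat (nat_lit 11063317867079328841680)), (.ofNat (nat_lit 43912853279757936893246))⟩,
    ⟨nat_lit 0, nat_lit 6, nat_lit 7, (.ofNat (nat_lit 8)), (.ofNat (nat_lit 5881654592)), (.ofNat (nat_lit 554010949795770405965854666425600)), (.ofNat (nat_lit 0)), (.ofNat (nat_lit 8523463786989242853128590491584)), (.ofNat (nat_lit 5881654576)), (.ofNat (nat_lit 5881654608)), (.ofNat (nat_lit 11063317867079328841680)), (.ofNat (nat_lit 11063317867079328841680)), (.ofNat (nat_lit 11063317867079328841680)), (.ofNat (nat_lit 11063317867079328841680)), (.ofNat (nat_lit 87485288370956495313018))⟩,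
    ⟨nat_lit 1, nat_lit 7, nat_lit 0, (.ofNat (nat_lit 8)), (.ofNat (nat_lit 20734891648)), (.ofNat (nat_lit 718337032701379975608705599719680)), (.ofNat (nat_lit 0)), (.ofNat (nat_lit 11051619813412520652394955417856)), (.ofNat (nat_lit 20734891632)), (.ofNat (nat_lit 20734891664)), (.ofNat (nat_lit 11063317867079328841680)), (.negSucc (nat_lit 11063318716011615162407)), (.negSucc (nat_lit 11063318716011615162407)), (.ofNat (nat_lit 11063317867079328841680)), (.ofNat (nat_lit 1021256263542708061878))⟩,
    ⟨nat_lit 1, nat_lit 8, nat_lit 12, (.ofNat (nat_lit 8)), (.negSucc (nat_lit 42493198143)), (.ofNat (nat_lit 802396991484420131570187870501120)), (.ofNat (nat_lit 0)), (.ofNat (nat_lit 12344895275536610750606240129728)), (.negSucc (nat_lit 42493198159)), (.negSucc (nat_lit 42493198127)), (.ofNat (nat_lit 11063318164902419041980)), (.negSucc (nat_lit 11063318164902419041979)), (.negSucc (nat_lit 11063318164902419041979)), (.ofNat (nat_lit 11063318164902419041980)), (.ofNat (nat_lit 1021256352616676622222))⟩,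
    ⟨nat_lit 0, nat_lit 4, nat_lit 8, (.ofNat (nat_lit 8)), (.negSucc (nat_lit 54890162431)), (.ofNat (nat_lit 665245431287343147701950637690880)), (.ofNat (nat_lit 0)), (.ofNat (nat_lit 10234815520156264844117806595072)), (.negSucc (nat_lit 54890162447)), (.negSucc (nat_lit 54890162415)), (.negSucc (nat_lit 11063318164902419041979)), (.ofNat (nat_lit 11063318164902419041980)), (.negSucc (nat_lit 11063318164902419041979)), (.ofNat (nat_lit 11063318164902419041980)), (.ofNat (nat_lit 1021256352616676622222))⟩,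
    ⟨nat_lit 0, nat_lit 13, nat_lit 9, (.ofNat (nat_lit 8)), (.negSucc (nat_lit 1505644543)), (.ofNat (nat_lit 17365067741809618271360413032960)), (.ofNat (nat_lit 0)), (.ofNat (nat_lit 267161947265851764563583703424)), (.negSucc (nat_lit 1505644559)), (.negSucc (nat_lit 1505644527)), (.negSucc (nat_lit 11063318164902419041979)), (.ofNat (nat_lit 11063318164902419041980)), (.negSucc (nat_lit 11063318164902419041979)), (.ofNat (nat_lit 11063318164902419041980)), (.ofNat (nat_lit 1021256352616676622222))⟩,
    ⟨nat_lit 1, nat_lit 9, nat_lit 10, (.ofNat (nat_lit 8)), (.ofNat (nat_lit 5594625408)), (.ofNat (nat_lit 95917613277482045207243633617920)), (.ofNat (nat_lit 0)), (.ofNat (nat_lit 1475694579561402697040870715648)), (.ofNat (nat_lit 5594625392)), (.ofNat (nat_lit 5594625424)), (.ofNat (nat_lit 11063318164902419041980)), (.negSucc (nat_lit 11063318164902419041979)), (.negSucc (nat_lit 11063318164902419041979)), (.ofNat (nat_lit 11063318164902419041980)), (.ofNat (nat_lit 1021256352616676622222))⟩,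
    ⟨nat_lit 2, nat_lit 10, nat_lit 11, (.ofNat (nat_lit 8)), (.negSucc (nat_lit 51696702527)), (.ofNat (nat_lit 729749802323212259981010764371200)), (.ofNat (nat_lit 0)), (.ofNat (nat_lit 11227216680308948041405101881280)), (.negSucc (nat_lit 51696702543)), (.negSucc (nat_lit 51696702511)), (.negSucc (nat_lit 11063318164902419041979)), (.ofNat (nat_lit 11063318164902419041980)), (.negSucc (nat_lit 11063318164902419041979)), (.ofNat (nat_lit 11063318164902419041980)), (.ofNat (nat_lit 1021256352616676622222))⟩,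
    ⟨nat_lit 0, nat_lit 11, nat_lit 12, (.ofNat (nat_lit 8)), (.negSucc (nat_lit 43811704383)), (.ofNat (nat_lit 816984045519949320068133322456320)), (.ofNat (nat_lit 0)), (.ofNat (nat_lit 12569317421130732159683211740608)), (.negSucc (nat_lit 43811704399)), (.negSucc (nat_lit 43811704367)), (.ofNat (nat_lit 11063318164902419041980)), (.negSucc (nat_lit 11063318164902419041979)), (.negSucc (nat_lit 11063318164902419041979)), (.ofNat (nat_lit 11063318164902419041980)), (.ofNat (nat_lit 1021256352616676622222))⟩,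
    ⟨nat_lit 2, nat_lit 13, nat_lit 5, (.ofNat (nat_lit 8)), (.negSucc (nat_lit 22065382719)), (.ofNat (nat_lit 244823992569988146363505965661440)), (.ofNat (nat_lit 0)), (.ofNat (nat_lit 3766622483995119071920980927936)), (.negSucc (nat_lit 22065382735)), (.negSucc (nat_lit 22065382703)), (.negSucc (nat_lit 11063318164902419041979)), (.ofNat (nat_lit 11063317867079328841680)), (.negSucc (nat_lit 11063318164902419041979)), (.ofNat (nat_lit 11063317867079328841680)), (.ofNat (nat_lit 1021255756970496221622))⟩]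
  es := [
    ⟨nat_lit 0, nat_lit 6, (.ofNat (nat_lit 174891328)), (.ofNat (nat_lit 20734891648)), (.ofNat (nat_lit 174891344)), (.ofNat (nat_lit 20734891632)), (.negSucc (nat_lit 11063318716011615162407)), (.negSucc (nat_lit 170209943211975557464)), (.ofNat (nat_lit 14580904543325066932456127970176))⟩,
    ⟨nat_lit 0, nat_lit 1, (.ofNat (nat_lit 174891328)), (.ofNat (nat_lit 15054878272)), (.ofNat (nat_lit 174891344)), (.ofNat (nat_lit 15054878256)), (.ofNat (nat_lit 11063318164902419041980)), (.ofNat (nat_lit 170209392102779437037)), (.ofNat (nat_lit 14521368153694992133473040491520))⟩,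
    ⟨nat_lit 2, nat_lit 1, (.negSucc (nat_lit 1216922175)), (.ofNat (nat_lit 15054878272)), (.negSucc (nat_lit 1216922159)), (.ofNat (nat_lit 15054878256)), (.negSucc (nat_lit 11063318164902419041979)), (.negSucc (nat_lit 170209392102779437036)), (.ofNat (nat_lit 19646331511411917208386487211648))⟩,
    ⟨nat_lit 3, nat_lit 2, (.negSucc (nat_lit 56308879615)), (.negSucc (nat_lit 1216922175)), (.negSucc (nat_lit 56308879599)), (.negSucc (nat_lit 1216922191)), (.ofNat (nat_lit 11063318164902419041980)), (.ofNat (nat_lit 170209392102779437037)), (.ofNat (nat_lit 20060594679038620344720729276672))⟩,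
    ⟨nat_lit 3, nat_lit 8, (.negSucc (nat_lit 56308879615)), (.negSucc (nat_lit 54890162431)), (.negSucc (nat_lit 56308879599)), (.negSucc (nat_lit 54890162447)), (.negSucc (nat_lit 11063318164902419041979)), (.negSucc (nat_lit 170209392102779437036)), (.ofNat (nat_lit 891994340182723506487359801088))⟩,
    ⟨nat_lit 13, nat_lit 4, (.negSucc (nat_lit 22065382719)), (.ofNat (nat_lit 5881654528)), (.negSucc (nat_lit 22065382703)), (.ofNat (nat_lit 5881654512)), (.ofNat (nat_lit 11063317867079328841680)), (.ofNat (nat_lit 170209094279689236737)), (.ofNat (nat_lit 7522351291701024803187569912576))⟩,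
    ⟨nat_lit 4, nat_lit 5, (.ofNat (nat_lit 5881654528)), (.ofNat (nat_lit 5881654592)), (.ofNat (nat_lit 5881654544)), (.ofNat (nat_lit 5881654576)), (.ofNat (nat_lit 11063317867079328841680)), (.ofNat (nat_lit 21956426639878968446623)), (.negSucc (nat_lit 120616653783366022235174684351231))⟩,
    ⟨nat_lit 5, nat_lit 6, (.ofNat (nat_lit 5881654592)), (.ofNat (nat_lit 20734891648)), (.ofNat (nat_lit 5881654608)), (.ofNat (nat_lit 20734891632)), (.ofNat (nat_lit 11063317867079328841680)), (.ofNat (nat_lit 170209094279689236737)), (.ofNat (nat_lit 7522352686018947721541439345280))⟩,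
    ⟨nat_lit 8, nat_lit 7, (.negSucc (nat_lit 54890162431)), (.negSucc (nat_lit 42493198143)), (.negSucc (nat_lit 54890162415)), (.negSucc (nat_lit 42493198159)), (.ofNat (nat_lit 11063318164902419041980)), (.ofNat (nat_lit 170209392102779437037)), (.ofNat (nat_lit 19577636700129806181748253389056))⟩,
    ⟨nat_lit 9, nat_lit 10, (.negSucc (nat_lit 1505644543)), (.ofNat (nat_lit 5594625408)), (.negSucc (nat_lit 1505644527)), (.ofNat (nat_lit 5594625392)), (.ofNat (nat_lit 11063318164902419041980)), (.ofNat (nat_lit 170209392102779437037)), (.ofNat (nat_lit 523436789822958311173734279552))⟩,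
    ⟨nat_lit 11, nat_lit 10, (.negSucc (nat_lit 51696702527)), (.ofNat (nat_lit 5594625408)), (.negSucc (nat_lit 51696702511)), (.ofNat (nat_lit 5594625392)), (.negSucc (nat_lit 11063318164902419041979)), (.negSucc (nat_lit 170209392102779437036)), (.ofNat (nat_lit 2427952369299847082908007151744))⟩,
    ⟨nat_lit 11, nat_lit 12, (.negSucc (nat_lit 51696702527)), (.negSucc (nat_lit 43811704383)), (.negSucc (nat_lit 51696702511)), (.negSucc (nat_lit 43811704399)), (.ofNat (nat_lit 11063318164902419041980)), (.ofNat (nat_lit 170209392102779437037)), (.ofNat (nat_lit 20026480991318048999902196610816))⟩,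
    ⟨nat_lit 12, nat_lit 7, (.negSucc (nat_lit 43811704383)), (.negSucc (nat_lit 42493198143)), (.negSucc (nat_lit 43811704367)), (.negSucc (nat_lit 42493198159)), (.negSucc (nat_lit 11063318164902419041979)), (.negSucc (nat_lit 170209392102779437036)), (.ofNat (nat_lit 5112153850943415319464226870400))⟩,
    ⟨nat_lit 13, nat_lit 9, (.negSucc (nat_lit 22065382719)), (.negSucc (nat_lit 1505644543)), (.negSucc (nat_lit 22065382703)), (.negSucc (nat_lit 1505644559)), (.negSucc (nat_lit 11063318164902419041979)), (.negSucc (nat_lit 170209392102779437036)), (.ofNat (nat_lit 10887104708745217953433127296))⟩]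

theorem ok155 : stOK 13 13 S155 = true := by decide +kernel

def S156 : SD where
  vs := [
    ⟨nat_lit 2, nat_lit 0, nat_lit 1, (.ofNat (nat_lit 8)), (.negSucc (nat_lit 4964551615)), (.ofNat (nat_lit 1002687163347445740262739690530560)), (.negSucc (nat_lit 5139442943)), (.ofNat (nat_lit 56888294304604967791208758840320)), (.negSucc (nat_lit 4964551631)), (.negSucc (nat_lit 4964551599)), (.negSucc (nat_lit 11063318716011615162407)), (.ofNat (nat_lit 11063318164902419041980)), (.negSucc (nat_lit 11063318716011615162407)), (.ofNat (nat_lit 11063318164902419041980)), (.ofNat (nat_lit 0))⟩,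
    ⟨nat_lit 1, nat_lit 1, nat_lit 2, (.ofNat (nat_lit 8)), (.ofNat (nat_lit 9915697472)), (.ofNat (nat_lit 1167312093380988794821156419244800)), (.negSucc (nat_lit 5139180799)), (.ofNat (nat_lit 56891194487081987970946099645440)), (.ofNat (nat_lit 9915697456)), (.ofNat (nat_lit 9915697488)), (.ofNat (nat_lit 11063318164902419041980)), (.negSucc (nat_lit 11063318164902419041979)), (.negSucc (nat_lit 11063318164902419041979)), (.ofNat (nat_lit 11063318164902419041980)), (.ofNat (nat_lit 0))⟩,
    ⟨nat_lit 0, nat_lit 3, nat_lit 2, (.ofNat (nat_lit 8)), (.negSucc (nat_lit 8390864383)), (.ofNat (nat_lit 1369843411699383337217195549959680)), (.negSucc (nat_lit 7173942207)), (.ofNat (nat_lit 79402407333450810323411335553280)), (.negSucc (nat_lit 8390864399)), (.negSucc (nat_lit 8390864367)), (.ofNat (nat_lit 11063318164902419041980)), (.negSucc (nat_lit 11063318164902419041979)), (.negSucc (nat_lit 11063318164902419041979)), (.ofNat (nat_lit 11063318164902419041980)), (.ofNat (nat_lit 0))⟩,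
    ⟨nat_lit 2, nat_lit 4, nat_lit 3, (.ofNat (nat_lit 8)), (.negSucc (nat_lit 63484132543)), (.ofNat (nat_lit 760329057301015264704701112602880)), (.negSucc (nat_lit 7175252927)), (.ofNat (nat_lit 79387906421065709424724631527680)), (.negSucc (nat_lit 63484132559)), (.negSucc (nat_lit 63484132527)), (.negSucc (nat_lit 11063318164902419041979)), (.ofNat (nat_lit 11063318164902419041980)), (.negSucc (nat_lit 11063318164902419041979)), (.ofNat (nat_lit 11063318164902419041980)), (.ofNat (nat_lit 0))⟩,
    ⟨nat_lit 0, nat_lit 5, nat_lit 6, (.ofNat (nat_lit 8)), (.ofNat (nat_lit 3312211520)), (.ofNat (nat_lit 582460714635205139328916182147840)), (.negSucc (nat_lit 2569443007)), (.ofNat (nat_lit 28449765547487076856138561589760)), (.ofNat (nat_lit 3312211504)), (.ofNat (nat_lit 3312211536)), (.ofNat (nat_lit 11063317867079328841680)), (.ofNat (nat_lit 11063317867079328841680)), (.ofNat (nat_lit 11063317867079328841680)), (.ofNat (nat_lit 11063317867079328841680)), (.ofNat (nat_lit 0))⟩,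
    ⟨nat_lit 0, nat_lit 6, nat_lit 7, (.ofNat (nat_lit 8)), (.ofNat (nat_lit 3312211584)), (.ofNat (nat_lit 582460715343257482821993228015360)), (.negSucc (nat_lit 2569443007)), (.ofNat (nat_lit 28449765547487076856138561589760)), (.ofNat (nat_lit 3312211568)), (.ofNat (nat_lit 3312211600)), (.ofNat (nat_lit 11063317867079328841680)), (.ofNat (nat_lit 11063317867079328841680)), (.ofNat (nat_lit 11063317867079328841680)), (.ofNat (nat_lit 11063317867079328841680)), (.ofNat (nat_lit 0))⟩,
    ⟨nat_lit 1, nat_lit 7, nat_lit 0, (.ofNat (nat_lit 8)), (.ofNat (nat_lit 18165710784)), (.ofNat (nat_lit 746789698431266000108424034671360)), (.negSucc (nat_lit 2569180863)), (.ofNat (nat_lit 28452665729886024499718434951680)), (.ofNat (nat_lit 18165710768)), (.ofNat (nat_lit 18165710800)), (.ofNat (nat_lit 11063317867079328841680)), (.negSucc (nat_lit 11063318716011615162407)), (.negSucc (nat_lit 11063318716011615162407)), (.ofNat (nat_lit 11063317867079328841680)), (.ofNat (nat_lit 0))⟩,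
    ⟨nat_lit 1, nat_lit 8, nat_lit 12, (.ofNat (nat_lit 8)), (.negSucc (nat_lit 49490062911)), (.ofNat (nat_lit 879822933664462402601414090292480)), (.negSucc (nat_lit 6996864767)), (.ofNat (nat_lit 77425942180042271031226219791360)), (.negSucc (nat_lit 49490062927)), (.negSucc (nat_lit 49490062895)), (.ofNat (nat_lit 11063318164902419041980)), (.negSucc (nat_lit 11063318164902419041979)), (.negSucc (nat_lit 11063318164902419041979)), (.ofNat (nat_lit 11063318164902419041980)), (.ofNat (nat_lit 0))⟩,
    ⟨nat_lit 0, nat_lit 4, nat_lit 8, (.ofNat (nat_lit 8)), (.negSucc (nat_lit 61887551487)), (.ofNat (nat_lit 742665573102431378373702175872000)), (.negSucc (nat_lit 6997389055)), (.ofNat (nat_lit 77420141815088230671751538181120)), (.negSucc (nat_lit 61887551503)), (.negSucc (nat_lit 61887551471)), (.negSucc (nat_lit 11063318164902419041979)), (.ofNat (nat_lit 11063318164902419041980)), (.negSucc (nat_lit 11063318164902419041979)), (.ofNat (nat_lit 11063318164902419041980)), (.ofNat (nat_lit 0))⟩,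
    ⟨nat_lit 0, nat_lit 13, nat_lit 9, (.ofNat (nat_lit 8)), (.negSucc (nat_lit 1505644543)), (.ofNat (nat_lit 17365067741809618271360413032960)), (.ofNat (nat_lit 0)), (.ofNat (nat_lit 0)), (.negSucc (nat_lit 1505644559)), (.negSucc (nat_lit 1505644527)), (.negSucc (nat_lit 11063318164902419041979)), (.ofNat (nat_lit 11063318164902419041980)), (.negSucc (nat_lit 11063318164902419041979)), (.ofNat (nat_lit 11063318164902419041980)), (.ofNat (nat_lit 0))⟩,
    ⟨nat_lit 1, nat_lit 9, nat_lit 10, (.ofNat (nat_lit 8)), (.ofNat (nat_lit 5595149696)), (.ofNat (nat_lit 95923413642436085566718315228160)), (.ofNat (nat_lit 524288)), (.ofNat (nat_lit 5800364954040359474681610240)), (.ofNat (nat_lit 5595149680)), (.ofNat (nat_lit 5595149712)), (.ofNat (nat_lit 11063318164902419041980)), (.negSucc (nat_lit 11063318164902419041979)), (.negSucc (nat_lit 11063318164902419041979)), (.ofNat (nat_lit 11063318164902419041980)), (.ofNat (nat_lit 0))⟩,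
    ⟨nat_lit 2, nat_lit 10, nat_lit 11, (.ofNat (nat_lit 8)), (.negSucc (nat_lit 58858904831)), (.ofNat (nat_lit 808999125903669498297602756313600)), (.negSucc (nat_lit 7162202303)), (.ofNat (nat_lit 79249323580457238316591991942400)), (.negSucc (nat_lit 58858904847)), (.negSucc (nat_lit 58858904815)), (.negSucc (nat_lit 11063318164902419041979)), (.ofNat (nat_lit 11063318164902419041980)), (.negSucc (nat_lit 11063318164902419041979)), (.ofNat (nat_lit 11063318164902419041980)), (.ofNat (nat_lit 0))⟩,
    ⟨nat_lit 0, nat_lit 11, nat_lit 12, (.ofNat (nat_lit 8)), (.negSucc (nat_lit 50973644543)), (.ofNat (nat_lit 896236269282883578564462655203840)), (.negSucc (nat_lit 7161940159)), (.ofNat (nat_lit 79252223762934258496329332747520)), (.negSucc (nat_lit 50973644559)), (.negSucc (nat_lit 50973644527)), (.ofNat (nat_lit 11063318164902419041980)), (.negSucc (nat_lit 11063318164902419041979)), (.negSucc (nat_lit 11063318164902419041979)), (.ofNat (nat_lit 11063318164902419041980)), (.ofNat (nat_lit 0))⟩,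
    ⟨nat_lit 2, nat_lit 13, nat_lit 5, (.ofNat (nat_lit 8)), (.negSucc (nat_lit 24635874239)), (.ofNat (nat_lit 273262158095931776138402079671040)), (.negSucc (nat_lit 2570491519)), (.ofNat (nat_lit 28438165525943629774896114009600)), (.negSucc (nat_lit 24635874255)), (.negSucc (nat_lit 24635874223)), (.negSucc (nat_lit 11063318164902419041979)), (.ofNat (nat_lit 11063317867079328841680)), (.negSucc (nat_lit 11063318164902419041979)), (.ofNat (nat_lit 11063317867079328841680)), (.ofNat (nat_lit 0))⟩]
  es := [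
    ⟨nat_lit 0, nat_lit 6, (.negSucc (nat_lit 4964551615)), (.ofNat (nat_lit 18165710784)), (.negSucc (nat_lit 4964551599)), (.ofNat (nat_lit 18165710768)), (.negSucc (nat_lit 11063318716011615162407)), (.ofNat (nat_lit 0)), (.ofNat (nat_lit 28998992375932422727549191168))⟩,
    ⟨nat_lit 0, nat_lit 1, (.negSucc (nat_lit 4964551615)), (.ofNat (nat_lit 9915697472)), (.negSucc (nat_lit 4964551599)), (.ofNat (nat_lit 9915697456)), (.ofNat (nat_lit 11063318164902419041980)), (.ofNat (nat_lit 0)), (.ofNat (nat_lit 113747586784439733785044109629440))⟩,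
    ⟨nat_lit 2, nat_lit 1, (.negSucc (nat_lit 8390864383)), (.ofNat (nat_lit 9915697472)), (.negSucc (nat_lit 8390864367)), (.ofNat (nat_lit 9915697456)), (.negSucc (nat_lit 11063318164902419041979)), (.ofNat (nat_lit 0)), (.ofNat (nat_lit 34802189724242156848089661440))⟩,
    ⟨nat_lit 3, nat_lit 2, (.negSucc (nat_lit 63484132543)), (.negSucc (nat_lit 8390864383)), (.negSucc (nat_lit 63484132527)), (.negSucc (nat_lit 8390864399)), (.ofNat (nat_lit 11063318164902419041980)), (.ofNat (nat_lit 0)), (.ofNat (nat_lit 158770012477177378489974581445120))⟩,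
    ⟨nat_lit 3, nat_lit 8, (.negSucc (nat_lit 63484132543)), (.negSucc (nat_lit 61887551487)), (.negSucc (nat_lit 63484132527)), (.negSucc (nat_lit 61887551503)), (.negSucc (nat_lit 11063318164902419041979)), (.ofNat (nat_lit 0)), (.ofNat (nat_lit 5800364954040359474681610240))⟩,
    ⟨nat_lit 13, nat_lit 4, (.negSucc (nat_lit 24635874239)), (.ofNat (nat_lit 3312211520)), (.negSucc (nat_lit 24635874223)), (.ofNat (nat_lit 3312211504)), (.ofNat (nat_lit 11063317867079328841680)), (.ofNat (nat_lit 0)), (.ofNat (nat_lit 56876330286335531729725976563200))⟩,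
    ⟨nat_lit 4, nat_lit 5, (.ofNat (nat_lit 3312211520)), (.ofNat (nat_lit 3312211584)), (.ofNat (nat_lit 3312211536)), (.ofNat (nat_lit 3312211568)), (.ofNat (nat_lit 11063317867079328841680)), (.ofNat (nat_lit 0)), (.ofNat (nat_lit 56876330286335531729725976563200))⟩,
    ⟨nat_lit 5, nat_lit 6, (.ofNat (nat_lit 3312211584)), (.ofNat (nat_lit 18165710784)), (.ofNat (nat_lit 3312211600)), (.ofNat (nat_lit 18165710768)), (.ofNat (nat_lit 11063317867079328841680)), (.ofNat (nat_lit 0)), (.ofNat (nat_lit 56876330286335531729725976563200))⟩,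
    ⟨nat_lit 8, nat_lit 7, (.negSucc (nat_lit 61887551487)), (.negSucc (nat_lit 49490062911)), (.negSucc (nat_lit 61887551471)), (.negSucc (nat_lit 49490062927)), (.ofNat (nat_lit 11063318164902419041980)), (.ofNat (nat_lit 0)), (.ofNat (nat_lit 154834483265222420984028394752000))⟩,
    ⟨nat_lit 9, nat_lit 10, (.negSucc (nat_lit 1505644543)), (.ofNat (nat_lit 5595149696)), (.negSucc (nat_lit 1505644527)), (.ofNat (nat_lit 5595149680)), (.ofNat (nat_lit 11063318164902419041980)), (.ofNat (nat_lit 0)), (.ofNat (nat_lit 0))⟩,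
    ⟨nat_lit 11, nat_lit 10, (.negSucc (nat_lit 58858904831)), (.ofNat (nat_lit 5595149696)), (.negSucc (nat_lit 58858904815)), (.ofNat (nat_lit 5595149680)), (.negSucc (nat_lit 11063318164902419041979)), (.ofNat (nat_lit 0)), (.ofNat (nat_lit 11600729908080718949363220480))⟩,
    ⟨nat_lit 11, nat_lit 12, (.negSucc (nat_lit 58858904831)), (.negSucc (nat_lit 50973644543)), (.negSucc (nat_lit 58858904815)), (.negSucc (nat_lit 50973644559)), (.ofNat (nat_lit 11063318164902419041980)), (.ofNat (nat_lit 0)), (.ofNat (nat_lit 158487046431006395914234620664320))⟩,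
    ⟨nat_lit 12, nat_lit 7, (.negSucc (nat_lit 50973644543)), (.negSucc (nat_lit 49490062911)), (.negSucc (nat_lit 50973644527)), (.negSucc (nat_lit 49490062927)), (.negSucc (nat_lit 11063318164902419041979)), (.ofNat (nat_lit 0)), (.ofNat (nat_lit 17401094862121078424044830720))⟩,
    ⟨nat_lit 13, nat_lit 9, (.negSucc (nat_lit 24635874239)), (.negSucc (nat_lit 1505644543)), (.negSucc (nat_lit 24635874223)), (.negSucc (nat_lit 1505644559)), (.negSucc (nat_lit 11063318164902419041979)), (.ofNat (nat_lit 0)), (.ofNat (nat_lit 0))⟩]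

theorem ok156 : stOK 13 13 S156 = true := by decide +kernel

def S157 : SD where
  vs := [
    ⟨nat_lit 2, nat_lit 0, nat_lit 1, (.ofNat (nat_lit 8)), (.negSucc (nat_lit 4964551615)), (.ofNat (nat_lit 1002687163347445740262739690530560)), (.negSucc (nat_lit 5139442943)), (.ofNat (nat_lit 56888294304604967791208758840320)), (.negSucc (nat_lit 4964551631)), (.negSucc (nat_lit 4964551599)), (.negSucc (nat_lit 11063318716011615162407)), (.ofNat (nat_lit 11063318164902419041980)), (.negSucc (nat_lit 11063318716011615162407)), (.ofNat (nat_lit 11063318164902419041980)), (.ofNat (nat_lit 0))⟩,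
    ⟨nat_lit 1, nat_lit 1, nat_lit 2, (.ofNat (nat_lit 8)), (.ofNat (nat_lit 9915697472)), (.ofNat (nat_lit 1167312093380988794821156419244800)), (.negSucc (nat_lit 5139180799)), (.ofNat (nat_lit 56891194487081987970946099645440)), (.ofNat (nat_lit 9915697456)), (.ofNat (nat_lit 9915697488)), (.ofNat (nat_lit 11063318164902419041980)), (.negSucc (nat_lit 11063318164902419041979)), (.negSucc (nat_lit 11063318164902419041979)), (.ofNat (nat_lit 11063318164902419041980)), (.ofNat (nat_lit 0))⟩,
    ⟨nat_lit 0, nat_lit 3, nat_lit 2, (.ofNat (nat_lit 8)), (.negSucc (nat_lit 8390864383)), (.ofNat (nat_lit 1369843411699383337217195549959680)), (.negSucc (nat_lit 7173942207)), (.ofNat (nat_lit 79402407333450810323411335553280)), (.negSucc (nat_lit 8390864399)), (.negSucc (nat_lit 8390864367)), (.ofNat (nat_lit 11063318164902419041980)), (.negSucc (nat_lit 11063318164902419041979)), (.negSucc (nat_lit 11063318164902419041979)), (.ofNat (nat_lit 11063318164902419041980)), (.ofNat (nat_lit 0))⟩,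
    ⟨nat_lit 2, nat_lit 4, nat_lit 3, (.ofNat (nat_lit 8)), (.negSucc (nat_lit 63484132543)), (.ofNat (nat_lit 760329057301015264704701112602880)), (.negSucc (nat_lit 7175252927)), (.ofNat (nat_lit 79387906421065709424724631527680)), (.negSucc (nat_lit 63484132559)), (.negSucc (nat_lit 63484132527)), (.negSucc (nat_lit 11063318164902419041979)), (.ofNat (nat_lit 11063318164902419041980)), (.negSucc (nat_lit 11063318164902419041979)), (.ofNat (nat_lit 11063318164902419041980)), (.ofNat (nat_lit 0))⟩,
    ⟨nat_lit 0, nat_lit 5, nat_lit 6, (.ofNat (nat_lit 8)), (.ofNat (nat_lit 3312211584)), (.ofNat (nat_lit 582460715343257482821993228015360)), (.negSucc (nat_lit 2569443007)), (.ofNat (nat_lit 28449765547487076856138561589760)), (.ofNat (nat_lit 3312211568)), (.ofNat (nat_lit 3312211600)), (.ofNat (nat_lit 11063317867079328841680)), (.ofNat (nat_lit 11063317867079328841680)), (.ofNat (nat_lit 11063317867079328841680)), (.ofNat (nat_lit 11063317867079328841680)), (.ofNat (nat_lit 0))⟩,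
    ⟨nat_lit 1, nat_lit 6, nat_lit 0, (.ofNat (nat_lit 8)), (.ofNat (nat_lit 18165710784)), (.ofNat (nat_lit 746789698431266000108424034671360)), (.negSucc (nat_lit 2569180863)), (.ofNat (nat_lit 28452665729886024499718434951680)), (.ofNat (nat_lit 18165710768)), (.ofNat (nat_lit 18165710800)), (.ofNat (nat_lit 11063317867079328841680)), (.negSucc (nat_lit 11063318716011615162407)), (.negSucc (nat_lit 11063318716011615162407)), (.ofNat (nat_lit 11063317867079328841680)), (.ofNat (nat_lit 0))⟩,
    ⟨nat_lit 1, nat_lit 7, nat_lit 11, (.ofNat (nat_lit 8)), (.negSucc (nat_lit 49490062911)), (.ofNat (nat_lit 879822933664462402601414090292480)), (.negSucc (nat_lit 6996864767)), (.ofNat (nat_lit 77425942180042271031226219791360)), (.negSucc (nat_lit 49490062927)), (.negSucc (nat_lit 49490062895)), (.ofNat (nat_lit 11063318164902419041980)), (.negSucc (nat_lit 11063318164902419041979)), (.negSucc (nat_lit 11063318164902419041979)), (.ofNat (nat_lit 11063318164902419041980)), (.ofNat (nat_lit 0))⟩,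
    ⟨nat_lit 0, nat_lit 4, nat_lit 7, (.ofNat (nat_lit 8)), (.negSucc (nat_lit 61887551487)), (.ofNat (nat_lit 742665573102431378373702175872000)), (.negSucc (nat_lit 6997389055)), (.ofNat (nat_lit 77420141815088230671751538181120)), (.negSucc (nat_lit 61887551503)), (.negSucc (nat_lit 61887551471)), (.negSucc (nat_lit 11063318164902419041979)), (.ofNat (nat_lit 11063318164902419041980)), (.negSucc (nat_lit 11063318164902419041979)), (.ofNat (nat_lit 11063318164902419041980)), (.ofNat (nat_lit 0))⟩,
    ⟨nat_lit 0, nat_lit 12, nat_lit 8, (.ofNat (nat_lit 8)), (.negSucc (nat_lit 1505644543)), (.ofNat (nat_lit 17365067741809618271360413032960)), (.ofNat (nat_lit 0)), (.ofNat (nat_lit 0)), (.negSucc (nat_lit 1505644559)), (.negSucc (nat_lit 1505644527)), (.negSucc (nat_lit 11063318164902419041979)), (.ofNat (nat_lit 11063318164902419041980)), (.negSucc (nat_lit 11063318164902419041979)), (.ofNat (nat_lit 11063318164902419041980)), (.ofNat (nat_lit 0))⟩,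
    ⟨nat_lit 1, nat_lit 8, nat_lit 9, (.ofNat (nat_lit 8)), (.ofNat (nat_lit 5595149696)), (.ofNat (nat_lit 95923413642436085566718315228160)), (.ofNat (nat_lit 524288)), (.ofNat (nat_lit 5800364954040359474681610240)), (.ofNat (nat_lit 5595149680)), (.ofNat (nat_lit 5595149712)), (.ofNat (nat_lit 11063318164902419041980)), (.negSucc (nat_lit 11063318164902419041979)), (.negSucc (nat_lit 11063318164902419041979)), (.ofNat (nat_lit 11063318164902419041980)), (.ofNat (nat_lit 0))⟩,
    ⟨nat_lit 2, nat_lit 9, nat_lit 10, (.ofNat (nat_lit 8)), (.negSucc (nat_lit 58858904831)), (.ofNat (nat_lit 808999125903669498297602756313600)), (.negSucc (nat_lit 7162202303)), (.ofNat (nat_lit 79249323580457238316591991942400)), (.negSucc (nat_lit 58858904847)), (.negSucc (nat_lit 58858904815)), (.negSucc (nat_lit 11063318164902419041979)), (.ofNat (nat_lit 11063318164902419041980)), (.negSucc (nat_lit 11063318164902419041979)), (.ofNat (nat_lit 11063318164902419041980)), (.ofNat (nat_lit 0))⟩,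
    ⟨nat_lit 0, nat_lit 10, nat_lit 11, (.ofNat (nat_lit 8)), (.negSucc (nat_lit 50973644543)), (.ofNat (nat_lit 896236269282883578564462655203840)), (.negSucc (nat_lit 7161940159)), (.ofNat (nat_lit 79252223762934258496329332747520)), (.negSucc (nat_lit 50973644559)), (.negSucc (nat_lit 50973644527)), (.ofNat (nat_lit 11063318164902419041980)), (.negSucc (nat_lit 11063318164902419041979)), (.negSucc (nat_lit 11063318164902419041979)), (.ofNat (nat_lit 11063318164902419041980)), (.ofNat (nat_lit 0))⟩,
    ⟨nat_lit 2, nat_lit 12, nat_lit 5, (.ofNat (nat_lit 8)), (.negSucc (nat_lit 24635874239)), (.ofNat (nat_lit 273262158095931776138402079671040)), (.negSucc (nat_lit 2570491519)), (.ofNat (nat_lit 28438165525943629774896114009600)), (.negSucc (nat_lit 24635874255)), (.negSucc (nat_lit 24635874223)), (.negSucc (nat_lit 11063318164902419041979)), (.ofNat (nat_lit 11063317867079328841680)), (.negSucc (nat_lit 11063318164902419041979)), (.ofNat (nat_lit 11063317867079328841680)), (.ofNat (nat_lit 0))⟩]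
  es := [
    ⟨nat_lit 0, nat_lit 5, (.negSucc (nat_lit 4964551615)), (.ofNat (nat_lit 18165710784)), (.negSucc (nat_lit 4964551599)), (.ofNat (nat_lit 18165710768)), (.negSucc (nat_lit 11063318716011615162407)), (.ofNat (nat_lit 0)), (.ofNat (nat_lit 28998992375932422727549191168))⟩,
    ⟨nat_lit 0, nat_lit 1, (.negSucc (nat_lit 4964551615)), (.ofNat (nat_lit 9915697472)), (.negSucc (nat_lit 4964551599)), (.ofNat (nat_lit 9915697456)), (.ofNat (nat_lit 11063318164902419041980)), (.ofNat (nat_lit 0)), (.ofNat (nat_lit 113747586784439733785044109629440))⟩,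
    ⟨nat_lit 2, nat_lit 1, (.negSucc (nat_lit 8390864383)), (.ofNat (nat_lit 9915697472)), (.negSucc (nat_lit 8390864367)), (.ofNat (nat_lit 9915697456)), (.negSucc (nat_lit 11063318164902419041979)), (.ofNat (nat_lit 0)), (.ofNat (nat_lit 34802189724242156848089661440))⟩,
    ⟨nat_lit 3, nat_lit 2, (.negSucc (nat_lit 63484132543)), (.negSucc (nat_lit 8390864383)), (.negSucc (nat_lit 63484132527)), (.negSucc (nat_lit 8390864399)), (.ofNat (nat_lit 11063318164902419041980)), (.ofNat (nat_lit 0)), (.ofNat (nat_lit 158770012477177378489974581445120))⟩,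
    ⟨nat_lit 3, nat_lit 7, (.negSucc (nat_lit 63484132543)), (.negSucc (nat_lit 61887551487)), (.negSucc (nat_lit 63484132527)), (.negSucc (nat_lit 61887551503)), (.negSucc (nat_lit 11063318164902419041979)), (.ofNat (nat_lit 0)), (.ofNat (nat_lit 5800364954040359474681610240))⟩,
    ⟨nat_lit 12, nat_lit 4, (.negSucc (nat_lit 24635874239)), (.ofNat (nat_lit 3312211584)), (.negSucc (nat_lit 24635874223)), (.ofNat (nat_lit 3312211568)), (.ofNat (nat_lit 11063317867079328841680)), (.ofNat (nat_lit 0)), (.ofNat (nat_lit 56876330286335531729725976563200))⟩,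
    ⟨nat_lit 4, nat_lit 5, (.ofNat (nat_lit 3312211584)), (.ofNat (nat_lit 18165710784)), (.ofNat (nat_lit 3312211600)), (.ofNat (nat_lit 18165710768)), (.ofNat (nat_lit 11063317867079328841680)), (.ofNat (nat_lit 0)), (.ofNat (nat_lit 56876330286335531729725976563200))⟩,
    ⟨nat_lit 7, nat_lit 6, (.negSucc (nat_lit 61887551487)), (.negSucc (nat_lit 49490062911)), (.negSucc (nat_lit 61887551471)), (.negSucc (nat_lit 49490062927)), (.ofNat (nat_lit 11063318164902419041980)), (.ofNat (nat_lit 0)), (.ofNat (nat_lit 154834483265222420984028394752000))⟩,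
    ⟨nat_lit 8, nat_lit 9, (.negSucc (nat_lit 1505644543)), (.ofNat (nat_lit 5595149696)), (.negSucc (nat_lit 1505644527)), (.ofNat (nat_lit 5595149680)), (.ofNat (nat_lit 11063318164902419041980)), (.ofNat (nat_lit 0)), (.ofNat (nat_lit 0))⟩,
    ⟨nat_lit 10, nat_lit 9, (.negSucc (nat_lit 58858904831)), (.ofNat (nat_lit 5595149696)), (.negSucc (nat_lit 58858904815)), (.ofNat (nat_lit 5595149680)), (.negSucc (nat_lit 11063318164902419041979)), (.ofNat (nat_lit 0)), (.ofNat (nat_lit 11600729908080718949363220480))⟩,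
    ⟨nat_lit 10, nat_lit 11, (.negSucc (nat_lit 58858904831)), (.negSucc (nat_lit 50973644543)), (.negSucc (nat_lit 58858904815)), (.negSucc (nat_lit 50973644559)), (.ofNat (nat_lit 11063318164902419041980)), (.ofNat (nat_lit 0)), (.ofNat (nat_lit 158487046431006395914234620664320))⟩,
    ⟨nat_lit 11, nat_lit 6, (.negSucc (nat_lit 50973644543)), (.negSucc (nat_lit 49490062911)), (.negSucc (nat_lit 50973644527)), (.negSucc (nat_lit 49490062927)), (.negSucc (nat_lit 11063318164902419041979)), (.ofNat (nat_lit 0)), (.ofNat (nat_lit 17401094862121078424044830720))⟩,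
    ⟨nat_lit 12, nat_lit 8, (.negSucc (nat_lit 24635874239)), (.negSucc (nat_lit 1505644543)), (.negSucc (nat_lit 24635874223)), (.negSucc (nat_lit 1505644559)), (.negSucc (nat_lit 11063318164902419041979)), (.ofNat (nat_lit 0)), (.ofNat (nat_lit 0))⟩]

theorem ok157 : stOK 12 12 S157 = true := by decide +kernel

def S158 : SD where
  vs := [
    ⟨nat_lit 2, nat_lit 0, nat_lit 1, (.ofNat (nat_lit 8)), (.negSucc (nat_lit 4964551615)), (.ofNat (nat_lit 1002687163347445740262739690530560)), (.negSucc (nat_lit 5139442943)), (.ofNat (nat_lit 56888294304604967791208758840320)), (.negSucc (nat_lit 4964551631)), (.negSucc (nat_lit 4964551599)), (.negSucc (nat_lit 11063318716011615162407)), (.ofNat (nat_lit 11063318164902419041980)), (.negSucc (nat_lit 11063318716011615162407)), (.ofNat (nat_lit 11063318164902419041980)), (.ofNat (nat_lit 0))⟩,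
    ⟨nat_lit 1, nat_lit 1, nat_lit 2, (.ofNat (nat_lit 8)), (.ofNat (nat_lit 9915697472)), (.ofNat (nat_lit 1167312093380988794821156419244800)), (.negSucc (nat_lit 5139180799)), (.ofNat (nat_lit 56891194487081987970946099645440)), (.ofNat (nat_lit 9915697456)), (.ofNat (nat_lit 9915697488)), (.ofNat (nat_lit 11063318164902419041980)), (.negSucc (nat_lit 11063318164902419041979)), (.negSucc (nat_lit 11063318164902419041979)), (.ofNat (nat_lit 11063318164902419041980)), (.ofNat (nat_lit 0))⟩,
    ⟨nat_lit 0, nat_lit 3, nat_lit 2, (.ofNat (nat_lit 8)), (.negSucc (nat_lit 8390864383)), (.ofNat (nat_lit 1369843411699383337217195549959680)), (.negSucc (nat_lit 7173942207)), (.ofNat (nat_lit 79402407333450810323411335553280)), (.negSucc (nat_lit 8390864399)), (.negSucc (nat_lit 8390864367)), (.ofNat (nat_lit 11063318164902419041980)), (.negSucc (nat_lit 11063318164902419041979)), (.negSucc (nat_lit 11063318164902419041979)), (.ofNat (nat_lit 11063318164902419041980)), (.ofNat (nat_lit 0))⟩,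
    ⟨nat_lit 2, nat_lit 4, nat_lit 3, (.ofNat (nat_lit 8)), (.negSucc (nat_lit 63484132543)), (.ofNat (nat_lit 760329057301015264704701112602880)), (.negSucc (nat_lit 7175252927)), (.ofNat (nat_lit 79387906421065709424724631527680)), (.negSucc (nat_lit 63484132559)), (.negSucc (nat_lit 63484132527)), (.negSucc (nat_lit 11063318164902419041979)), (.ofNat (nat_lit 11063318164902419041980)), (.negSucc (nat_lit 11063318164902419041979)), (.ofNat (nat_lit 11063318164902419041980)), (.ofNat (nat_lit 0))⟩,
    ⟨nat_lit 1, nat_lit 5, nat_lit 0, (.ofNat (nat_lit 8)), (.ofNat (nat_lit 18165710784)), (.ofNat (nat_lit 746789698431266000108424034671360)), (.negSucc (nat_lit 2569180863)), (.ofNat (nat_lit 28452665729886024499718434951680)), (.ofNat (nat_lit 18165710768)), (.ofNat (nat_lit 18165710800)), (.ofNat (nat_lit 11063317867079328841680)), (.negSucc (nat_lit 11063318716011615162407)), (.negSucc (nat_lit 11063318716011615162407)), (.ofNat (nat_lit 11063317867079328841680)), (.ofNat (nat_lit 0))⟩,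
    ⟨nat_lit 1, nat_lit 6, nat_lit 10, (.ofNat (nat_lit 8)), (.negSucc (nat_lit 49490062911)), (.ofNat (nat_lit 879822933664462402601414090292480)), (.negSucc (nat_lit 6996864767)), (.ofNat (nat_lit 77425942180042271031226219791360)), (.negSucc (nat_lit 49490062927)), (.negSucc (nat_lit 49490062895)), (.ofNat (nat_lit 11063318164902419041980)), (.negSucc (nat_lit 11063318164902419041979)), (.negSucc (nat_lit 11063318164902419041979)), (.ofNat (nat_lit 11063318164902419041980)), (.ofNat (nat_lit 0))⟩,
    ⟨nat_lit 0, nat_lit 4, nat_lit 6, (.ofNat (nat_lit 8)), (.negSucc (nat_lit 61887551487)), (.ofNat (nat_lit 742665573102431378373702175872000)), (.negSucc (nat_lit 6997389055)), (.ofNat (nat_lit 77420141815088230671751538181120)), (.negSucc (nat_lit 61887551503)), (.negSucc (nat_lit 61887551471)), (.negSucc (nat_lit 11063318164902419041979)), (.ofNat (nat_lit 11063318164902419041980)), (.negSucc (nat_lit 11063318164902419041979)), (.ofNat (nat_lit 11063318164902419041980)), (.ofNat (nat_lit 0))⟩,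
    ⟨nat_lit 0, nat_lit 11, nat_lit 7, (.ofNat (nat_lit 8)), (.negSucc (nat_lit 1505644543)), (.ofNat (nat_lit 17365067741809618271360413032960)), (.ofNat (nat_lit 0)), (.ofNat (nat_lit 0)), (.negSucc (nat_lit 1505644559)), (.negSucc (nat_lit 1505644527)), (.negSucc (nat_lit 11063318164902419041979)), (.ofNat (nat_lit 11063318164902419041980)), (.negSucc (nat_lit 11063318164902419041979)), (.ofNat (nat_lit 11063318164902419041980)), (.ofNat (nat_lit 0))⟩,
    ⟨nat_lit 1, nat_lit 7, nat_lit 8, (.ofNat (nat_lit 8)), (.ofNat (nat_lit 5595149696)), (.ofNat (nat_lit 95923413642436085566718315228160)), (.ofNat (nat_lit 524288)), (.ofNat (nat_lit 5800364954040359474681610240)), (.ofNat (nat_lit 5595149680)), (.ofNat (nat_lit 5595149712)), (.ofNat (nat_lit 11063318164902419041980)), (.negSucc (nat_lit 11063318164902419041979)), (.negSucc (nat_lit 11063318164902419041979)), (.ofNat (nat_lit 11063318164902419041980)), (.ofNat (nat_lit 0))⟩,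
    ⟨nat_lit 2, nat_lit 8, nat_lit 9, (.ofNat (nat_lit 8)), (.negSucc (nat_lit 58858904831)), (.ofNat (nat_lit 808999125903669498297602756313600)), (.negSucc (nat_lit 7162202303)), (.ofNat (nat_lit 79249323580457238316591991942400)), (.negSucc (nat_lit 58858904847)), (.negSucc (nat_lit 58858904815)), (.negSucc (nat_lit 11063318164902419041979)), (.ofNat (nat_lit 11063318164902419041980)), (.negSucc (nat_lit 11063318164902419041979)), (.ofNat (nat_lit 11063318164902419041980)), (.ofNat (nat_lit 0))⟩,
    ⟨nat_lit 0, nat_lit 9, nat_lit 10, (.ofNat (nat_lit 8)), (.negSucc (nat_lit 50973644543)), (.ofNat (nat_lit 896236269282883578564462655203840)), (.negSucc (nat_lit 7161940159)), (.ofNat (nat_lit 79252223762934258496329332747520)), (.negSucc (nat_lit 50973644559)), (.negSucc (nat_lit 50973644527)), (.ofNat (nat_lit 11063318164902419041980)), (.negSucc (nat_lit 11063318164902419041979)), (.negSucc (nat_lit 11063318164902419041979)), (.ofNat (nat_lit 11063318164902419041980)), (.ofNat (nat_lit 0))⟩,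
    ⟨nat_lit 2, nat_lit 11, nat_lit 5, (.ofNat (nat_lit 8)), (.negSucc (nat_lit 24635874239)), (.ofNat (nat_lit 273262158095931776138402079671040)), (.negSucc (nat_lit 2570491519)), (.ofNat (nat_lit 28438165525943629774896114009600)), (.negSucc (nat_lit 24635874255)), (.negSucc (nat_lit 24635874223)), (.negSucc (nat_lit 11063318164902419041979)), (.ofNat (nat_lit 11063317867079328841680)), (.negSucc (nat_lit 11063318164902419041979)), (.ofNat (nat_lit 11063317867079328841680)), (.ofNat (nat_lit 0))⟩]
  es := [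
    ⟨nat_lit 0, nat_lit 4, (.negSucc (nat_lit 4964551615)), (.ofNat (nat_lit 18165710784)), (.negSucc (nat_lit 4964551599)), (.ofNat (nat_lit 18165710768)), (.negSucc (nat_lit 11063318716011615162407)), (.ofNat (nat_lit 0)), (.ofNat (nat_lit 28998992375932422727549191168))⟩,
    ⟨nat_lit 0, nat_lit 1, (.negSucc (nat_lit 4964551615)), (.ofNat (nat_lit 9915697472)), (.negSucc (nat_lit 4964551599)), (.ofNat (nat_lit 9915697456)), (.ofNat (nat_lit 11063318164902419041980)), (.ofNat (nat_lit 0)), (.ofNat (nat_lit 113747586784439733785044109629440))⟩,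
    ⟨nat_lit 2, nat_lit 1, (.negSucc (nat_lit 8390864383)), (.ofNat (nat_lit 9915697472)), (.negSucc (nat_lit 8390864367)), (.ofNat (nat_lit 9915697456)), (.negSucc (nat_lit 11063318164902419041979)), (.ofNat (nat_lit 0)), (.ofNat (nat_lit 34802189724242156848089661440))⟩,
    ⟨nat_lit 3, nat_lit 2, (.negSucc (nat_lit 63484132543)), (.negSucc (nat_lit 8390864383)), (.negSucc (nat_lit 63484132527)), (.negSucc (nat_lit 8390864399)), (.ofNat (nat_lit 11063318164902419041980)), (.ofNat (nat_lit 0)), (.ofNat (nat_lit 158770012477177378489974581445120))⟩,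
    ⟨nat_lit 3, nat_lit 6, (.negSucc (nat_lit 63484132543)), (.negSucc (nat_lit 61887551487)), (.negSucc (nat_lit 63484132527)), (.negSucc (nat_lit 61887551503)), (.negSucc (nat_lit 11063318164902419041979)), (.ofNat (nat_lit 0)), (.ofNat (nat_lit 5800364954040359474681610240))⟩,
    ⟨nat_lit 11, nat_lit 4, (.negSucc (nat_lit 24635874239)), (.ofNat (nat_lit 18165710784)), (.negSucc (nat_lit 24635874223)), (.ofNat (nat_lit 18165710768)), (.ofNat (nat_lit 11063317867079328841680)), (.ofNat (nat_lit 0)), (.ofNat (nat_lit 56876330286335531729725976563200))⟩,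
    ⟨nat_lit 6, nat_lit 5, (.negSucc (nat_lit 61887551487)), (.negSucc (nat_lit 49490062911)), (.negSucc (nat_lit 61887551471)), (.negSucc (nat_lit 49490062927)), (.ofNat (nat_lit 11063318164902419041980)), (.ofNat (nat_lit 0)), (.ofNat (nat_lit 154834483265222420984028394752000))⟩,
    ⟨nat_lit 7, nat_lit 8, (.negSucc (nat_lit 1505644543)), (.ofNat (nat_lit 5595149696)), (.negSucc (nat_lit 1505644527)), (.ofNat (nat_lit 5595149680)), (.ofNat (nat_lit 11063318164902419041980)), (.ofNat (nat_lit 0)), (.ofNat (nat_lit 0))⟩,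
    ⟨nat_lit 9, nat_lit 8, (.negSucc (nat_lit 58858904831)), (.ofNat (nat_lit 5595149696)), (.negSucc (nat_lit 58858904815)), (.ofNat (nat_lit 5595149680)), (.negSucc (nat_lit 11063318164902419041979)), (.ofNat (nat_lit 0)), (.ofNat (nat_lit 11600729908080718949363220480))⟩,
    ⟨nat_lit 9, nat_lit 10, (.negSucc (nat_lit 58858904831)), (.negSucc (nat_lit 50973644543)), (.negSucc (nat_lit 58858904815)), (.negSucc (nat_lit 50973644559)), (.ofNat (nat_lit 11063318164902419041980)), (.ofNat (nat_lit 0)), (.ofNat (nat_lit 158487046431006395914234620664320))⟩,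
    ⟨nat_lit 10, nat_lit 5, (.negSucc (nat_lit 50973644543)), (.negSucc (nat_lit 49490062911)), (.negSucc (nat_lit 50973644527)), (.negSucc (nat_lit 49490062927)), (.negSucc (nat_lit 11063318164902419041979)), (.ofNat (nat_lit 0)), (.ofNat (nat_lit 17401094862121078424044830720))⟩,
    ⟨nat_lit 11, nat_lit 7, (.negSucc (nat_lit 24635874239)), (.negSucc (nat_lit 1505644543)), (.negSucc (nat_lit 24635874223)), (.negSucc (nat_lit 1505644559)), (.negSucc (nat_lit 11063318164902419041979)), (.ofNat (nat_lit 0)), (.ofNat (nat_lit 0))⟩]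

theorem ok158 : stOK 11 11 S158 = true := by decide +kernel

def S159 : SD where
  vs := [
    ⟨nat_lit 2, nat_lit 0, nat_lit 1, (.ofNat (nat_lit 8)), (.negSucc (nat_lit 4964551615)), (.ofNat (nat_lit 1018354150274749579954260030990720)), (.ofNat (nat_lit 0)), (.ofNat (nat_lit 15666986927303839691520340460160)), (.negSucc (nat_lit 4964551631)), (.negSucc (nat_lit 4964551599)), (.negSucc (nat_lit 11236182511229019339509)), (.ofNat (nat_lit 11236182511229019339510)), (.negSucc (nat_lit 11236182511229019339509)), (.ofNat (nat_lit 11236182511229019339510)), (.ofNat (nat_lit 1037183873522817303468))⟩,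
    ⟨nat_lit 1, nat_lit 1, nat_lit 2, (.ofNat (nat_lit 8)), (.ofNat (nat_lit 9915697472)), (.ofNat (nat_lit 1185551344840066744740138070857600)), (.ofNat (nat_lit 0)), (.ofNat (nat_lit 18239251459077949918981651612800)), (.ofNat (nat_lit 9915697456)), (.ofNat (nat_lit 9915697488)), (.ofNat (nat_lit 11236182511229019339510)), (.negSucc (nat_lit 11236182511229019339509)), (.negSucc (nat_lit 11236182511229019339509)), (.ofNat (nat_lit 11236182511229019339510)), (.ofNat (nat_lit 1037186077959601785180))⟩,
    ⟨nat_lit 0, nat_lit 3, nat_lit 2, (.ofNat (nat_lit 8)), (.negSucc (nat_lit 8390864383)), (.ofNat (nat_lit 1391247215007186201861098150588160)), (.ofNat (nat_lit 0)), (.ofNat (nat_lit 21403803307802864643902600628480)), (.negSucc (nat_lit 8390864399)), (.negSucc (nat_lit 8390864367)), (.ofNat (nat_lit 11236182511229019339510)), (.negSucc (nat_lit 11236182511229019339509)), (.negSucc (nat_lit 11236182511229019339509)), (.ofNat (nat_lit 11236182511229019339510)), (.ofNat (nat_lit 1037186077959601785180))⟩,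
    ⟨nat_lit 2, nat_lit 4, nat_lit 3, (.ofNat (nat_lit 8)), (.negSucc (nat_lit 63484132543)), (.ofNat (nat_lit 772209198821343628215647637586560)), (.ofNat (nat_lit 0)), (.ofNat (nat_lit 11880141520328363510946524983680)), (.negSucc (nat_lit 63484132559)), (.negSucc (nat_lit 63484132527)), (.negSucc (nat_lit 11236182511229019339509)), (.ofNat (nat_lit 11236182511229019339510)), (.negSucc (nat_lit 11236182511229019339509)), (.ofNat (nat_lit 11236182511229019339510)), (.ofNat (nat_lit 1037186077959601785180))⟩,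
    ⟨nat_lit 1, nat_lit 5, nat_lit 0, (.ofNat (nat_lit 8)), (.ofNat (nat_lit 18165710784)), (.ofNat (nat_lit 758458300415731416136719043566720)), (.ofNat (nat_lit 0)), (.ofNat (nat_lit 11668601984465416028295008895360)), (.ofNat (nat_lit 18165710768)), (.ofNat (nat_lit 18165710800)), (.ofNat (nat_lit 11236182511229019339510)), (.negSucc (nat_lit 11236182511229019339509)), (.negSucc (nat_lit 11236182511229019339509)), (.ofNat (nat_lit 11236182511229019339510)), (.ofNat (nat_lit 1037186167033570345524))⟩,
    ⟨nat_lit 1, nat_lit 6, nat_lit 10, (.ofNat (nat_lit 8)), (.negSucc (nat_lit 49490062911)), (.ofNat (nat_lit 893570167002969627641986629701760)), (.ofNat (nat_lit 0)), (.ofNat (nat_lit 13747233338507225040572539409280)), (.negSucc (nat_lit 49490062927)), (.negSucc (nat_lit 49490062895)), (.ofNat (nat_lit 11236182511229019339510)), (.negSucc (nat_lit 11236182511229019339509)), (.negSucc (nat_lit 11236182511229019339509)), (.ofNat (nat_lit 11236182511229019339510)), (.ofNat (nat_lit 1037186077959601785180))⟩,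
    ⟨nat_lit 0, nat_lit 4, nat_lit 6, (.ofNat (nat_lit 8)), (.negSucc (nat_lit 61887551487)), (.ofNat (nat_lit 754269722682156868660728339264000)), (.ofNat (nat_lit 0)), (.ofNat (nat_lit 11604149579725490287026163392000)), (.negSucc (nat_lit 61887551503)), (.negSucc (nat_lit 61887551471)), (.negSucc (nat_lit 11236182511229019339509)), (.ofNat (nat_lit 11236182511229019339510)), (.negSucc (nat_lit 11236182511229019339509)), (.ofNat (nat_lit 11236182511229019339510)), (.ofNat (nat_lit 1037186077959601785180))⟩,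
    ⟨nat_lit 0, nat_lit 11, nat_lit 7, (.ofNat (nat_lit 8)), (.negSucc (nat_lit 1505644543)), (.ofNat (nat_lit 17636396925275393556848947979520)), (.ofNat (nat_lit 0)), (.ofNat (nat_lit 271329183465775285488534946560)), (.negSucc (nat_lit 1505644559)), (.negSucc (nat_lit 1505644527)), (.negSucc (nat_lit 11236182511229019339509)), (.ofNat (nat_lit 11236182511229019339510)), (.negSucc (nat_lit 11236182511229019339509)), (.ofNat (nat_lit 11236182511229019339510)), (.ofNat (nat_lit 1037186077959601785180))⟩,
    ⟨nat_lit 1, nat_lit 7, nat_lit 8, (.ofNat (nat_lit 8)), (.ofNat (nat_lit 5595149696)), (.ofNat (nat_lit 97422216980599149403690160401920)), (.ofNat (nat_lit 0)), (.ofNat (nat_lit 1498803338163063836971845173760)), (.ofNat (nat_lit 5595149680)), (.ofNat (nat_lit 5595149712)), (.ofNat (nat_lit 11236182511229019339510)), (.negSucc (nat_lit 11236182511229019339509)), (.negSucc (nat_lit 11236182511229019339509)), (.ofNat (nat_lit 11236182511229019339510)), (.ofNat (nat_lit 1037186077959601785180))⟩,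
    ⟨nat_lit 2, nat_lit 8, nat_lit 9, (.ofNat (nat_lit 8)), (.negSucc (nat_lit 58858904831)), (.ofNat (nat_lit 821639737245914334208434245203200)), (.ofNat (nat_lit 0)), (.ofNat (nat_lit 12640611342244835910831488889600)), (.negSucc (nat_lit 58858904847)), (.negSucc (nat_lit 58858904815)), (.negSucc (nat_lit 11236182511229019339509)), (.ofNat (nat_lit 11236182511229019339510)), (.negSucc (nat_lit 11236182511229019339509)), (.ofNat (nat_lit 11236182511229019339510)), (.ofNat (nat_lit 1037186077959601785180))⟩,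
    ⟨nat_lit 0, nat_lit 9, nat_lit 10, (.ofNat (nat_lit 8)), (.negSucc (nat_lit 50973644543)), (.ofNat (nat_lit 910239960990428634479456437582080)), (.ofNat (nat_lit 0)), (.ofNat (nat_lit 14003691707545055914993782378240)), (.negSucc (nat_lit 50973644559)), (.negSucc (nat_lit 50973644527)), (.ofNat (nat_lit 11236182511229019339510)), (.negSucc (nat_lit 11236182511229019339509)), (.negSucc (nat_lit 11236182511229019339509)), (.ofNat (nat_lit 11236182511229019339510)), (.ofNat (nat_lit 1037186077959601785180))⟩,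
    ⟨nat_lit 2, nat_lit 11, nat_lit 5, (.ofNat (nat_lit 8)), (.negSucc (nat_lit 24635874239)), (.ofNat (nat_lit 277531879316180710140541456068480)), (.ofNat (nat_lit 0)), (.ofNat (nat_lit 4269721220248934002139376397440)), (.negSucc (nat_lit 24635874255)), (.negSucc (nat_lit 24635874223)), (.negSucc (nat_lit 11236182511229019339509)), (.ofNat (nat_lit 11236182511229019339510)), (.negSucc (nat_lit 11236182511229019339509)), (.ofNat (nat_lit 11236182511229019339510)), (.ofNat (nat_lit 1037186673605782185780))⟩]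
  es := [
    ⟨nat_lit 0, nat_lit 4, (.negSucc (nat_lit 4964551615)), (.ofNat (nat_lit 18165710784)), (.negSucc (nat_lit 4964551599)), (.ofNat (nat_lit 18165710768)), (.negSucc (nat_lit 11236182511229019339509)), (.negSucc (nat_lit 172863795217404177101)), (.ofNat (nat_lit 14808795693409382712763456163328))⟩,
    ⟨nat_lit 0, nat_lit 1, (.negSucc (nat_lit 4964551615)), (.ofNat (nat_lit 9915697472)), (.negSucc (nat_lit 4964551599)), (.ofNat (nat_lit 9915697456)), (.ofNat (nat_lit 11236182511229019339510)), (.ofNat (nat_lit 172864346326600297530)), (.ofNat (nat_lit 16525180897208346862408982768640))⟩,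
    ⟨nat_lit 2, nat_lit 1, (.negSucc (nat_lit 8390864383)), (.ofNat (nat_lit 9915697472)), (.negSucc (nat_lit 8390864367)), (.ofNat (nat_lit 9915697456)), (.negSucc (nat_lit 11236182511229019339509)), (.negSucc (nat_lit 172864346326600297529)), (.ofNat (nat_lit 19953322020947552975554320456960))⟩,
    ⟨nat_lit 3, nat_lit 2, (.negSucc (nat_lit 63484132543)), (.negSucc (nat_lit 8390864383)), (.negSucc (nat_lit 63484132527)), (.negSucc (nat_lit 8390864399)), (.ofNat (nat_lit 11236182511229019339510)), (.ofNat (nat_lit 172864346326600297530)), (.ofNat (nat_lit 22854284594658176312250880800000))⟩,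
    ⟨nat_lit 3, nat_lit 6, (.negSucc (nat_lit 63484132543)), (.negSucc (nat_lit 61887551487)), (.negSucc (nat_lit 63484132527)), (.negSucc (nat_lit 61887551503)), (.negSucc (nat_lit 11236182511229019339509)), (.negSucc (nat_lit 172864346326600297529)), (.ofNat (nat_lit 905998445998550709642169167360))⟩,
    ⟨nat_lit 11, nat_lit 4, (.negSucc (nat_lit 24635874239)), (.ofNat (nat_lit 18165710784)), (.negSucc (nat_lit 24635874223)), (.ofNat (nat_lit 18165710768)), (.ofNat (nat_lit 11236182511229019339510)), (.ofNat (nat_lit 172864644149690497830)), (.ofNat (nat_lit 8528392854063060841602249296640))⟩,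
    ⟨nat_lit 6, nat_lit 5, (.negSucc (nat_lit 61887551487)), (.negSucc (nat_lit 49490062911)), (.negSucc (nat_lit 61887551471)), (.negSucc (nat_lit 49490062927)), (.ofNat (nat_lit 11236182511229019339510)), (.ofNat (nat_lit 172864346326600297530)), (.ofNat (nat_lit 22302300713452429864410157616640))⟩,
    ⟨nat_lit 7, nat_lit 8, (.negSucc (nat_lit 1505644543)), (.ofNat (nat_lit 5595149696)), (.negSucc (nat_lit 1505644527)), (.ofNat (nat_lit 5595149680)), (.ofNat (nat_lit 11236182511229019339510)), (.ofNat (nat_lit 172864346326600297530)), (.ofNat (nat_lit 531601443364547465533356122880))⟩,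
    ⟨nat_lit 9, nat_lit 8, (.negSucc (nat_lit 58858904831)), (.ofNat (nat_lit 5595149696)), (.negSucc (nat_lit 58858904815)), (.ofNat (nat_lit 5595149680)), (.negSucc (nat_lit 11236182511229019339509)), (.negSucc (nat_lit 172864346326600297529)), (.ofNat (nat_lit 2466005232961580208410334224640))⟩,
    ⟨nat_lit 9, nat_lit 10, (.negSucc (nat_lit 58858904831)), (.negSucc (nat_lit 50973644543)), (.negSucc (nat_lit 58858904815)), (.negSucc (nat_lit 50973644559)), (.ofNat (nat_lit 11236182511229019339510)), (.ofNat (nat_lit 172864346326600297530)), (.ofNat (nat_lit 22815217451528091613252643554560))⟩,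
    ⟨nat_lit 10, nat_lit 5, (.negSucc (nat_lit 50973644543)), (.negSucc (nat_lit 49490062911)), (.negSucc (nat_lit 50973644527)), (.negSucc (nat_lit 49490062927)), (.negSucc (nat_lit 11236182511229019339509)), (.negSucc (nat_lit 172864346326600297529)), (.ofNat (nat_lit 5192165963562020216734921201920))⟩,
    ⟨nat_lit 11, nat_lit 7, (.negSucc (nat_lit 24635874239)), (.negSucc (nat_lit 1505644543)), (.negSucc (nat_lit 24635874223)), (.negSucc (nat_lit 1505644559)), (.negSucc (nat_lit 11236182511229019339509)), (.negSucc (nat_lit 172864346326600297529)), (.ofNat (nat_lit 11056923567003105443713770240))⟩]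

theorem ok159 : stOK 11 11 S159 = true := by decide +kernel

def S160 : SD where
  vs := [
    ⟨nat_lit 2, nat_lit 0, nat_lit 1, (.ofNat (nat_lit 8)), (.negSucc (nat_lit 21670075967)), (.ofNat (nat_lit 1206078143826571817699797710794880)), (.negSucc (nat_lit 16705524351)), (.ofNat (nat_lit 187723993551822237745537679804160)), (.negSucc (nat_lit 21670075983)), (.negSucc (nat_lit 21670075951)), (.negSucc (nat_lit 11236182511229019339509)), (.ofNat (nat_lit 11236182511229019339510)), (.negSucc (nat_lit 11236182511229019339509)), (.ofNat (nat_lit 11236182511229019339510)), (.ofNat (nat_lit 0))⟩,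
    ⟨nat_lit 1, nat_lit 1, nat_lit 2, (.ofNat (nat_lit 8)), (.ofNat (nat_lit 21021771456)), (.ofNat (nat_lit 1685771533224178278063303885717120)), (.ofNat (nat_lit 11106073984)), (.ofNat (nat_lit 500220188384111533323165814859520)), (.ofNat (nat_lit 21021771440)), (.ofNat (nat_lit 21021771472)), (.ofNat (nat_lit 11236182511229019339510)), (.negSucc (nat_lit 11236182511229019339509)), (.negSucc (nat_lit 11236182511229019339509)), (.ofNat (nat_lit 11236182511229019339510)), (.ofNat (nat_lit 0))⟩,
    ⟨nat_lit 0, nat_lit 3, nat_lit 2, (.ofNat (nat_lit 8)), (.ofNat (nat_lit 2714685312)), (.ofNat (nat_lit 1891473294386954182424355438466560)), (.ofNat (nat_lit 11105549696)), (.ofNat (nat_lit 500226079379767980563257287878400)), (.ofNat (nat_lit 2714685296)), (.ofNat (nat_lit 2714685328)), (.ofNat (nat_lit 11236182511229019339510)), (.negSucc (nat_lit 11236182511229019339509)), (.negSucc (nat_lit 11236182511229019339509)), (.ofNat (nat_lit 11236182511229019339510)), (.ofNat (nat_lit 0))⟩,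
    ⟨nat_lit 2, nat_lit 4, nat_lit 3, (.ofNat (nat_lit 8)), (.negSucc (nat_lit 80190705471)), (.ofNat (nat_lit 959933192373165865961185317390720)), (.negSucc (nat_lit 16706572927)), (.ofNat (nat_lit 187723993551822237745537679804160)), (.negSucc (nat_lit 80190705487)), (.negSucc (nat_lit 80190705455)), (.negSucc (nat_lit 11236182511229019339509)), (.ofNat (nat_lit 11236182511229019339510)), (.negSucc (nat_lit 11236182511229019339509)), (.ofNat (nat_lit 11236182511229019339510)), (.ofNat (nat_lit 0))⟩,
    ⟨nat_lit 1, nat_lit 5, nat_lit 0, (.ofNat (nat_lit 8)), (.ofNat (nat_lit 18166235072)), (.ofNat (nat_lit 758470082407044310616901989604480)), (.ofNat (nat_lit 524288)), (.ofNat (nat_lit 11781991312894480182946037760)), (.ofNat (nat_lit 18166235056)), (.ofNat (nat_lit 18166235088)), (.ofNat (nat_lit 11236182511229019339510)), (.negSucc (nat_lit 11236182511229019339509)), (.negSucc (nat_lit 11236182511229019339509)), (.ofNat (nat_lit 11236182511229019339510)), (.ofNat (nat_lit 0))⟩,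
    ⟨nat_lit 1, nat_lit 6, nat_lit 10, (.ofNat (nat_lit 8)), (.negSucc (nat_lit 21678464575)), (.ofNat (nat_lit 1206078143826571817699797710794880)), (.ofNat (nat_lit 27811598336)), (.ofNat (nat_lit 312507976823602190057811081093120)), (.negSucc (nat_lit 21678464591)), (.negSucc (nat_lit 21678464559)), (.ofNat (nat_lit 11236182511229019339510)), (.negSucc (nat_lit 11236182511229019339509)), (.negSucc (nat_lit 11236182511229019339509)), (.ofNat (nat_lit 11236182511229019339510)), (.ofNat (nat_lit 0))⟩,
    ⟨nat_lit 0, nat_lit 4, nat_lit 6, (.ofNat (nat_lit 8)), (.negSucc (nat_lit 61887813631)), (.ofNat (nat_lit 754278559175641539520865548792320)), (.negSucc (nat_lit 262143)), (.ofNat (nat_lit 8836493484670860137209528320)), (.negSucc (nat_lit 61887813647)), (.negSucc (nat_lit 61887813615)), (.negSucc (nat_lit 11236182511229019339509)), (.ofNat (nat_lit 11236182511229019339510)), (.negSucc (nat_lit 11236182511229019339509)), (.ofNat (nat_lit 11236182511229019339510)), (.ofNat (nat_lit 0))⟩,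
    ⟨nat_lit 0, nat_lit 11, nat_lit 7, (.ofNat (nat_lit 8)), (.negSucc (nat_lit 1505644543)), (.ofNat (nat_lit 17636396925275393556848947979520)), (.ofNat (nat_lit 0)), (.ofNat (nat_lit 0)), (.negSucc (nat_lit 1505644559)), (.negSucc (nat_lit 1505644527)), (.negSucc (nat_lit 11236182511229019339509)), (.ofNat (nat_lit 11236182511229019339510)), (.negSucc (nat_lit 11236182511229019339509)), (.ofNat (nat_lit 11236182511229019339510)), (.ofNat (nat_lit 0))⟩,
    ⟨nat_lit 1, nat_lit 7, nat_lit 8, (.ofNat (nat_lit 8)), (.ofNat (nat_lit 5595673984)), (.ofNat (nat_lit 97428107976255596643781633420800)), (.ofNat (nat_lit 524288)), (.ofNat (nat_lit 5890995656447240091473018880)), (.ofNat (nat_lit 5595673968)), (.ofNat (nat_lit 5595674000)), (.ofNat (nat_lit 11236182511229019339510)), (.negSucc (nat_lit 11236182511229019339509)), (.negSucc (nat_lit 11236182511229019339509)), (.ofNat (nat_lit 11236182511229019339510)), (.ofNat (nat_lit 0))⟩,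
    ⟨nat_lit 2, nat_lit 8, nat_lit 9, (.ofNat (nat_lit 8)), (.negSucc (nat_lit 75564953471)), (.ofNat (nat_lit 1009363730797736571953971925007360)), (.negSucc (nat_lit 16706048639)), (.ofNat (nat_lit 187723993551822237745537679804160)), (.negSucc (nat_lit 75564953487)), (.negSucc (nat_lit 75564953455)), (.negSucc (nat_lit 11236182511229019339509)), (.ofNat (nat_lit 11236182511229019339510)), (.negSucc (nat_lit 11236182511229019339509)), (.ofNat (nat_lit 11236182511229019339510)), (.ofNat (nat_lit 0))⟩,
    ⟨nat_lit 0, nat_lit 9, nat_lit 10, (.ofNat (nat_lit 8)), (.negSucc (nat_lit 39868094847)), (.ofNat (nat_lit 1410460149374540167802622252441600)), (.ofNat (nat_lit 11105549696)), (.ofNat (nat_lit 500220188384111533323165814859520)), (.negSucc (nat_lit 39868094863)), (.negSucc (nat_lit 39868094831)), (.ofNat (nat_lit 11236182511229019339510)), (.negSucc (nat_lit 11236182511229019339509)), (.negSucc (nat_lit 11236182511229019339509)), (.ofNat (nat_lit 11236182511229019339510)), (.ofNat (nat_lit 0))⟩,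
    ⟨nat_lit 2, nat_lit 11, nat_lit 5, (.ofNat (nat_lit 8)), (.negSucc (nat_lit 24636136383)), (.ofNat (nat_lit 277534824814008933760587192577920)), (.negSucc (nat_lit 262143)), (.ofNat (nat_lit 2945497828223620045736509440)), (.negSucc (nat_lit 24636136399)), (.negSucc (nat_lit 24636136367)), (.negSucc (nat_lit 11236182511229019339509)), (.ofNat (nat_lit 11236182511229019339510)), (.negSucc (nat_lit 11236182511229019339509)), (.ofNat (nat_lit 11236182511229019339510)), (.ofNat (nat_lit 0))⟩]
  es := [
    ⟨nat_lit 0, nat_lit 4, (.negSucc (nat_lit 21670075967)), (.ofNat (nat_lit 18166235072)), (.negSucc (nat_lit 21670075951)), (.ofNat (nat_lit 18166235056)), (.negSucc (nat_lit 11236182511229019339509)), (.ofNat (nat_lit 0)), (.ofNat (nat_lit 17672986969341720274419056640))⟩,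
    ⟨nat_lit 0, nat_lit 1, (.negSucc (nat_lit 21670075967)), (.ofNat (nat_lit 21021771456)), (.negSucc (nat_lit 21670075951)), (.ofNat (nat_lit 21021771440)), (.ofNat (nat_lit 11236182511229019339510)), (.ofNat (nat_lit 0)), (.ofNat (nat_lit 375430314116675133770800940551680))⟩,
    ⟨nat_lit 2, nat_lit 1, (.ofNat (nat_lit 2714685312)), (.ofNat (nat_lit 21021771456)), (.ofNat (nat_lit 2714685328)), (.ofNat (nat_lit 21021771440)), (.negSucc (nat_lit 11236182511229019339509)), (.ofNat (nat_lit 0)), (.ofNat (nat_lit 625010062651547932875530689167360))⟩,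
    ⟨nat_lit 3, nat_lit 2, (.negSucc (nat_lit 80190705471)), (.ofNat (nat_lit 2714685312)), (.negSucc (nat_lit 80190705455)), (.ofNat (nat_lit 2714685296)), (.ofNat (nat_lit 11236182511229019339510)), (.ofNat (nat_lit 0)), (.ofNat (nat_lit 375442096107988028250983886589440))⟩,
    ⟨nat_lit 3, nat_lit 6, (.negSucc (nat_lit 80190705471)), (.negSucc (nat_lit 61887813631)), (.negSucc (nat_lit 80190705455)), (.negSucc (nat_lit 61887813647)), (.negSucc (nat_lit 11236182511229019339509)), (.ofNat (nat_lit 0)), (.ofNat (nat_lit 5890995656447240091473018880))⟩,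
    ⟨nat_lit 11, nat_lit 4, (.negSucc (nat_lit 24636136383)), (.ofNat (nat_lit 18166235072)), (.negSucc (nat_lit 24636136367)), (.ofNat (nat_lit 18166235056)), (.ofNat (nat_lit 11236182511229019339510)), (.ofNat (nat_lit 0)), (.ofNat (nat_lit 5890995656447240091473018880))⟩,
    ⟨nat_lit 6, nat_lit 5, (.negSucc (nat_lit 61887813631)), (.negSucc (nat_lit 21678464575)), (.negSucc (nat_lit 61887813615)), (.negSucc (nat_lit 21678464591)), (.ofNat (nat_lit 11236182511229019339510)), (.ofNat (nat_lit 0)), (.ofNat (nat_lit 11781991312894480182946037760))⟩,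
    ⟨nat_lit 7, nat_lit 8, (.negSucc (nat_lit 1505644543)), (.ofNat (nat_lit 5595673984)), (.negSucc (nat_lit 1505644527)), (.ofNat (nat_lit 5595673968)), (.ofNat (nat_lit 11236182511229019339510)), (.ofNat (nat_lit 0)), (.ofNat (nat_lit 0))⟩,
    ⟨nat_lit 9, nat_lit 8, (.negSucc (nat_lit 75564953471)), (.ofNat (nat_lit 5595673984)), (.negSucc (nat_lit 75564953455)), (.ofNat (nat_lit 5595673968)), (.negSucc (nat_lit 11236182511229019339509)), (.ofNat (nat_lit 0)), (.ofNat (nat_lit 11781991312894480182946037760))⟩,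
    ⟨nat_lit 9, nat_lit 10, (.negSucc (nat_lit 75564953471)), (.negSucc (nat_lit 39868094847)), (.negSucc (nat_lit 75564953455)), (.negSucc (nat_lit 39868094863)), (.ofNat (nat_lit 11236182511229019339510)), (.ofNat (nat_lit 0)), (.ofNat (nat_lit 375436205112331581010892413570560))⟩,
    ⟨nat_lit 10, nat_lit 5, (.negSucc (nat_lit 39868094847)), (.negSucc (nat_lit 21678464575)), (.negSucc (nat_lit 39868094831)), (.negSucc (nat_lit 21678464591)), (.negSucc (nat_lit 11236182511229019339509)), (.ofNat (nat_lit 0)), (.ofNat (nat_lit 625004171655891485635439216148480))⟩,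
    ⟨nat_lit 11, nat_lit 7, (.negSucc (nat_lit 24636136383)), (.negSucc (nat_lit 1505644543)), (.negSucc (nat_lit 24636136367)), (.negSucc (nat_lit 1505644559)), (.negSucc (nat_lit 11236182511229019339509)), (.ofNat (nat_lit 0)), (.ofNat (nat_lit 0))⟩]

theorem ok160 : stOK 11 11 S160 = true := by decide +kernel

def S161 : SD where
  vs := [
    ⟨nat_lit 2, nat_lit 0, nat_lit 1, (.ofNat (nat_lit 8)), (.negSucc (nat_lit 21672173119)), (.ofNat (nat_lit 1206101707809197606660163602870400)), (.negSucc (nat_lit 2097151)), (.ofNat (nat_lit 23563982625788960365892075520)), (.negSucc (nat_lit 21672173135)), (.negSucc (nat_lit 21672173103)), (.negSucc (nat_lit 11236182511229019339509)), (.ofNat (nat_lit 11236182511229019339510)), (.negSucc (nat_lit 11236182511229019339509)), (.ofNat (nat_lit 11236182511229019339510)), (.ofNat (nat_lit 0))⟩,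
    ⟨nat_lit 1, nat_lit 1, nat_lit 2, (.ofNat (nat_lit 8)), (.ofNat (nat_lit 21022033600)), (.ofNat (nat_lit 1685821606687258079604081406377600)), (.ofNat (nat_lit 262144)), (.ofNat (nat_lit 50073463079801540777520660480)), (.ofNat (nat_lit 21022033584)), (.ofNat (nat_lit 21022033616)), (.ofNat (nat_lit 11236182511229019339510)), (.negSucc (nat_lit 11236182511229019339509)), (.negSucc (nat_lit 11236182511229019339509)), (.ofNat (nat_lit 11236182511229019339510)), (.ofNat (nat_lit 0))⟩,
    ⟨nat_lit 0, nat_lit 3, nat_lit 2, (.ofNat (nat_lit 8)), (.ofNat (nat_lit 2714423168)), (.ofNat (nat_lit 1891529258845690431205224432145920)), (.negSucc (nat_lit 262143)), (.ofNat (nat_lit 55964458736248780868993679360)), (.ofNat (nat_lit 2714423152)), (.ofNat (nat_lit 2714423184)), (.ofNat (nat_lit 11236182511229019339510)), (.negSucc (nat_lit 11236182511229019339509)), (.negSucc (nat_lit 11236182511229019339509)), (.ofNat (nat_lit 11236182511229019339510)), (.ofNat (nat_lit 0))⟩,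
    ⟨nat_lit 2, nat_lit 4, nat_lit 3, (.ofNat (nat_lit 8)), (.negSucc (nat_lit 80193851199)), (.ofNat (nat_lit 959956756355791654921551209466240)), (.negSucc (nat_lit 3145727)), (.ofNat (nat_lit 23563982625788960365892075520)), (.negSucc (nat_lit 80193851215)), (.negSucc (nat_lit 80193851183)), (.negSucc (nat_lit 11236182511229019339509)), (.ofNat (nat_lit 11236182511229019339510)), (.negSucc (nat_lit 11236182511229019339509)), (.ofNat (nat_lit 11236182511229019339510)), (.ofNat (nat_lit 0))⟩,
    ⟨nat_lit 1, nat_lit 5, nat_lit 0, (.ofNat (nat_lit 8)), (.ofNat (nat_lit 18166497216)), (.ofNat (nat_lit 758467136909216086996856253095040)), (.ofNat (nat_lit 262144)), (.negSucc (nat_lit 2945497828223620045736509439)), (.ofNat (nat_lit 18166497200)), (.ofNat (nat_lit 18166497232)), (.ofNat (nat_lit 11236182511229019339510)), (.negSucc (nat_lit 11236182511229019339509)), (.negSucc (nat_lit 11236182511229019339509)), (.ofNat (nat_lit 11236182511229019339510)), (.ofNat (nat_lit 0))⟩,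
    ⟨nat_lit 1, nat_lit 6, nat_lit 10, (.ofNat (nat_lit 8)), (.negSucc (nat_lit 21676367423)), (.ofNat (nat_lit 1206101707809197606660163602870400)), (.ofNat (nat_lit 2097152)), (.ofNat (nat_lit 23563982625788960365892075520)), (.negSucc (nat_lit 21676367439)), (.negSucc (nat_lit 21676367407)), (.ofNat (nat_lit 11236182511229019339510)), (.negSucc (nat_lit 11236182511229019339509)), (.negSucc (nat_lit 11236182511229019339509)), (.ofNat (nat_lit 11236182511229019339510)), (.ofNat (nat_lit 0))⟩,
    ⟨nat_lit 0, nat_lit 4, nat_lit 6, (.ofNat (nat_lit 8)), (.negSucc (nat_lit 61888337919)), (.ofNat (nat_lit 754272668179985092280774075773440)), (.negSucc (nat_lit 524287)), (.negSucc (nat_lit 5890995656447240091473018879)), (.negSucc (nat_lit 61888337935)), (.negSucc (nat_lit 61888337903)), (.negSucc (nat_lit 11236182511229019339509)), (.ofNat (nat_lit 11236182511229019339510)), (.negSucc (nat_lit 11236182511229019339509)), (.ofNat (nat_lit 11236182511229019339510)), (.ofNat (nat_lit 0))⟩,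
    ⟨nat_lit 0, nat_lit 11, nat_lit 7, (.ofNat (nat_lit 8)), (.negSucc (nat_lit 1505906687)), (.ofNat (nat_lit 17621669436134275456620265432320)), (.negSucc (nat_lit 262143)), (.negSucc (nat_lit 14727489141118100228682547199)), (.negSucc (nat_lit 1505906703)), (.negSucc (nat_lit 1505906671)), (.negSucc (nat_lit 11236182511229019339509)), (.ofNat (nat_lit 11236182511229019339510)), (.negSucc (nat_lit 11236182511229019339509)), (.ofNat (nat_lit 11236182511229019339510)), (.ofNat (nat_lit 0))⟩,
    ⟨nat_lit 1, nat_lit 7, nat_lit 8, (.ofNat (nat_lit 8)), (.ofNat (nat_lit 5595936128)), (.ofNat (nat_lit 97419271482770925783644423892480)), (.ofNat (nat_lit 262144)), (.negSucc (nat_lit 8836493484670860137209528319)), (.ofNat (nat_lit 5595936112)), (.ofNat (nat_lit 5595936144)), (.ofNat (nat_lit 11236182511229019339510)), (.negSucc (nat_lit 11236182511229019339509)), (.negSucc (nat_lit 11236182511229019339509)), (.ofNat (nat_lit 11236182511229019339510)), (.ofNat (nat_lit 0))⟩,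
    ⟨nat_lit 2, nat_lit 8, nat_lit 9, (.ofNat (nat_lit 8)), (.negSucc (nat_lit 75567574911)), (.ofNat (nat_lit 1009387294780362360914337817082880)), (.negSucc (nat_lit 2621439)), (.ofNat (nat_lit 23563982625788960365892075520)), (.negSucc (nat_lit 75567574927)), (.negSucc (nat_lit 75567574895)), (.negSucc (nat_lit 11236182511229019339509)), (.ofNat (nat_lit 11236182511229019339510)), (.negSucc (nat_lit 11236182511229019339509)), (.ofNat (nat_lit 11236182511229019339510)), (.ofNat (nat_lit 0))⟩,
    ⟨nat_lit 0, nat_lit 9, nat_lit 10, (.ofNat (nat_lit 8)), (.negSucc (nat_lit 39868356991)), (.ofNat (nat_lit 1410510222837619969343399773102080)), (.negSucc (nat_lit 262143)), (.ofNat (nat_lit 50073463079801540777520660480)), (.negSucc (nat_lit 39868357007)), (.negSucc (nat_lit 39868356975)), (.ofNat (nat_lit 11236182511229019339510)), (.negSucc (nat_lit 11236182511229019339509)), (.negSucc (nat_lit 11236182511229019339509)), (.ofNat (nat_lit 11236182511229019339510)), (.ofNat (nat_lit 0))⟩,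
    ⟨nat_lit 2, nat_lit 11, nat_lit 5, (.ofNat (nat_lit 8)), (.negSucc (nat_lit 24636660671)), (.ofNat (nat_lit 277523042822696039280404246540160)), (.negSucc (nat_lit 524287)), (.negSucc (nat_lit 11781991312894480182946037759)), (.negSucc (nat_lit 24636660687)), (.negSucc (nat_lit 24636660655)), (.negSucc (nat_lit 11236182511229019339509)), (.ofNat (nat_lit 11236182511229019339510)), (.negSucc (nat_lit 11236182511229019339509)), (.ofNat (nat_lit 11236182511229019339510)), (.ofNat (nat_lit 0))⟩]
  es := [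
    ⟨nat_lit 0, nat_lit 4, (.negSucc (nat_lit 21672173119)), (.ofNat (nat_lit 18166497216)), (.negSucc (nat_lit 21672173103)), (.ofNat (nat_lit 18166497200)), (.negSucc (nat_lit 11236182511229019339509)), (.ofNat (nat_lit 0)), (.ofNat (nat_lit 0))⟩,
    ⟨nat_lit 0, nat_lit 1, (.negSucc (nat_lit 21672173119)), (.ofNat (nat_lit 21022033600)), (.negSucc (nat_lit 21672173103)), (.ofNat (nat_lit 21022033584)), (.ofNat (nat_lit 11236182511229019339510)), (.ofNat (nat_lit 0)), (.ofNat (nat_lit 47127965251577920731784151040))⟩,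
    ⟨nat_lit 2, nat_lit 1, (.ofNat (nat_lit 2714423168)), (.ofNat (nat_lit 21022033600)), (.ofNat (nat_lit 2714423184)), (.ofNat (nat_lit 21022033584)), (.negSucc (nat_lit 11236182511229019339509)), (.ofNat (nat_lit 0)), (.ofNat (nat_lit 53018960908025160823257169920))⟩,
    ⟨nat_lit 3, nat_lit 2, (.negSucc (nat_lit 80193851199)), (.ofNat (nat_lit 2714423168)), (.negSucc (nat_lit 80193851183)), (.ofNat (nat_lit 2714423152)), (.ofNat (nat_lit 11236182511229019339510)), (.ofNat (nat_lit 0)), (.ofNat (nat_lit 58909956564472400914730188800))⟩,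
    ⟨nat_lit 3, nat_lit 6, (.negSucc (nat_lit 80193851199)), (.negSucc (nat_lit 61888337919)), (.negSucc (nat_lit 80193851183)), (.negSucc (nat_lit 61888337935)), (.negSucc (nat_lit 11236182511229019339509)), (.ofNat (nat_lit 0)), (.negSucc (nat_lit 11781991312894480182946037759))⟩,
    ⟨nat_lit 11, nat_lit 4, (.negSucc (nat_lit 24636660671)), (.ofNat (nat_lit 18166497216)), (.negSucc (nat_lit 24636660655)), (.ofNat (nat_lit 18166497200)), (.ofNat (nat_lit 11236182511229019339510)), (.ofNat (nat_lit 0)), (.negSucc (nat_lit 5890995656447240091473018879))⟩,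
    ⟨nat_lit 6, nat_lit 5, (.negSucc (nat_lit 61888337919)), (.negSucc (nat_lit 21676367423)), (.negSucc (nat_lit 61888337903)), (.negSucc (nat_lit 21676367439)), (.ofNat (nat_lit 11236182511229019339510)), (.ofNat (nat_lit 0)), (.ofNat (nat_lit 0))⟩,
    ⟨nat_lit 7, nat_lit 8, (.negSucc (nat_lit 1505906687)), (.ofNat (nat_lit 5595936128)), (.negSucc (nat_lit 1505906671)), (.ofNat (nat_lit 5595936112)), (.ofNat (nat_lit 11236182511229019339510)), (.ofNat (nat_lit 0)), (.negSucc (nat_lit 11781991312894480182946037759))⟩,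
    ⟨nat_lit 9, nat_lit 8, (.negSucc (nat_lit 75567574911)), (.ofNat (nat_lit 5595936128)), (.negSucc (nat_lit 75567574895)), (.ofNat (nat_lit 5595936112)), (.negSucc (nat_lit 11236182511229019339509)), (.ofNat (nat_lit 0)), (.negSucc (nat_lit 5890995656447240091473018879))⟩,
    ⟨nat_lit 9, nat_lit 10, (.negSucc (nat_lit 75567574911)), (.negSucc (nat_lit 39868356991)), (.negSucc (nat_lit 75567574895)), (.negSucc (nat_lit 39868357007)), (.ofNat (nat_lit 11236182511229019339510)), (.ofNat (nat_lit 0)), (.ofNat (nat_lit 53018960908025160823257169920))⟩,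
    ⟨nat_lit 10, nat_lit 5, (.negSucc (nat_lit 39868356991)), (.negSucc (nat_lit 21676367423)), (.negSucc (nat_lit 39868356975)), (.negSucc (nat_lit 21676367439)), (.negSucc (nat_lit 11236182511229019339509)), (.ofNat (nat_lit 0)), (.ofNat (nat_lit 47127965251577920731784151040))⟩,
    ⟨nat_lit 11, nat_lit 7, (.negSucc (nat_lit 24636660671)), (.negSucc (nat_lit 1505906687)), (.negSucc (nat_lit 24636660655)), (.negSucc (nat_lit 1505906703)), (.negSucc (nat_lit 11236182511229019339509)), (.ofNat (nat_lit 0)), (.negSucc (nat_lit 17672986969341720274419056639))⟩]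

theorem ok161 : stOK 11 11 S161 = true := by decide +kernel

def S162 : SD where
  vs := [
    ⟨nat_lit 0, nat_lit 10, nat_lit 1, (.ofNat (nat_lit 8)), (.negSucc (nat_lit 21674270271)), (.ofNat (nat_lit 1206172399757074973541261279096960)), (.ofNat (nat_lit 0)), (.ofNat (nat_lit 47127965251577920731784151040)), (.negSucc (nat_lit 21674270287)), (.negSucc (nat_lit 21674270255)), (.negSucc (nat_lit 11236182511229019339509)), (.ofNat (nat_lit 11236182511229019339510)), (.negSucc (nat_lit 11236182511229019339509)), (.ofNat (nat_lit 11236182511229019339510)), (.ofNat (nat_lit 0))⟩,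
    ⟨nat_lit 1, nat_lit 1, nat_lit 2, (.ofNat (nat_lit 8)), (.ofNat (nat_lit 21022557888)), (.ofNat (nat_lit 1685921753613417682685636447698560)), (.ofNat (nat_lit 262144)), (.ofNat (nat_lit 50073463079801540777520660480)), (.ofNat (nat_lit 21022557872)), (.ofNat (nat_lit 21022557904)), (.ofNat (nat_lit 11236182511229019339510)), (.negSucc (nat_lit 11236182511229019339509)), (.negSucc (nat_lit 11236182511229019339509)), (.ofNat (nat_lit 11236182511229019339510)), (.ofNat (nat_lit 0))⟩,
    ⟨nat_lit 0, nat_lit 3, nat_lit 2, (.ofNat (nat_lit 8)), (.ofNat (nat_lit 2713898880)), (.ofNat (nat_lit 1891641187763162928766962419504640)), (.negSucc (nat_lit 262143)), (.ofNat (nat_lit 55964458736248780868993679360)), (.ofNat (nat_lit 2713898864)), (.ofNat (nat_lit 2713898896)), (.ofNat (nat_lit 11236182511229019339510)), (.negSucc (nat_lit 11236182511229019339509)), (.negSucc (nat_lit 11236182511229019339509)), (.ofNat (nat_lit 11236182511229019339510)), (.ofNat (nat_lit 0))⟩,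
    ⟨nat_lit 2, nat_lit 4, nat_lit 3, (.ofNat (nat_lit 8)), (.negSucc (nat_lit 80200142655)), (.ofNat (nat_lit 960003884321043232842282993617280)), (.negSucc (nat_lit 3145727)), (.ofNat (nat_lit 23563982625788960365892075520)), (.negSucc (nat_lit 80200142671)), (.negSucc (nat_lit 80200142639)), (.negSucc (nat_lit 11236182511229019339509)), (.ofNat (nat_lit 11236182511229019339510)), (.negSucc (nat_lit 11236182511229019339509)), (.ofNat (nat_lit 11236182511229019339510)), (.ofNat (nat_lit 0))⟩,
    ⟨nat_lit 1, nat_lit 5, nat_lit 0, (.ofNat (nat_lit 8)), (.ofNat (nat_lit 18167021504)), (.ofNat (nat_lit 758461245913559639756764780076160)), (.ofNat (nat_lit 262144)), (.negSucc (nat_lit 2945497828223620045736509439)), (.ofNat (nat_lit 18167021488)), (.ofNat (nat_lit 18167021520)), (.ofNat (nat_lit 11236182511229019339510)), (.negSucc (nat_lit 11236182511229019339509)), (.negSucc (nat_lit 11236182511229019339509)), (.ofNat (nat_lit 11236182511229019339510)), (.ofNat (nat_lit 0))⟩,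
    ⟨nat_lit 0, nat_lit 6, nat_lit 0, (.ofNat (nat_lit 8)), (.negSucc (nat_lit 21674270271)), (.ofNat (nat_lit 1206125271791823395620529494945920)), (.ofNat (nat_lit 0)), (.ofNat (nat_lit 0)), (.negSucc (nat_lit 21674270287)), (.negSucc (nat_lit 21674270255)), (.ofNat (nat_lit 11236182511229019339510)), (.negSucc (nat_lit 11236182511229019339509)), (.negSucc (nat_lit 11236182511229019339509)), (.ofNat (nat_lit 11236182511229019339510)), (.ofNat (nat_lit 0))⟩,
    ⟨nat_lit 0, nat_lit 4, nat_lit 6, (.ofNat (nat_lit 8)), (.negSucc (nat_lit 61889386495)), (.ofNat (nat_lit 754260886188672197800591129735680)), (.negSucc (nat_lit 524287)), (.negSucc (nat_lit 5890995656447240091473018879)), (.negSucc (nat_lit 61889386511)), (.negSucc (nat_lit 61889386479)), (.negSucc (nat_lit 11236182511229019339509)), (.ofNat (nat_lit 11236182511229019339510)), (.negSucc (nat_lit 11236182511229019339509)), (.ofNat (nat_lit 11236182511229019339510)), (.ofNat (nat_lit 0))⟩,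
    ⟨nat_lit 0, nat_lit 11, nat_lit 7, (.ofNat (nat_lit 8)), (.negSucc (nat_lit 1506430975)), (.ofNat (nat_lit 17592214457852039256162900337920)), (.negSucc (nat_lit 262143)), (.negSucc (nat_lit 14727489141118100228682547199)), (.negSucc (nat_lit 1506430991)), (.negSucc (nat_lit 1506430959)), (.negSucc (nat_lit 11236182511229019339509)), (.ofNat (nat_lit 11236182511229019339510)), (.negSucc (nat_lit 11236182511229019339509)), (.ofNat (nat_lit 11236182511229019339510)), (.ofNat (nat_lit 0))⟩,
    ⟨nat_lit 1, nat_lit 7, nat_lit 8, (.ofNat (nat_lit 8)), (.ofNat (nat_lit 5596460416)), (.ofNat (nat_lit 97401598495801584063370004835840)), (.ofNat (nat_lit 262144)), (.negSucc (nat_lit 8836493484670860137209528319)), (.ofNat (nat_lit 5596460400)), (.ofNat (nat_lit 5596460432)), (.ofNat (nat_lit 11236182511229019339510)), (.negSucc (nat_lit 11236182511229019339509)), (.negSucc (nat_lit 11236182511229019339509)), (.ofNat (nat_lit 11236182511229019339510)), (.ofNat (nat_lit 0))⟩,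
    ⟨nat_lit 2, nat_lit 8, nat_lit 9, (.ofNat (nat_lit 8)), (.negSucc (nat_lit 75572817791)), (.ofNat (nat_lit 1009434422745613938835069601233920)), (.negSucc (nat_lit 2621439)), (.ofNat (nat_lit 23563982625788960365892075520)), (.negSucc (nat_lit 75572817807)), (.negSucc (nat_lit 75572817775)), (.negSucc (nat_lit 11236182511229019339509)), (.ofNat (nat_lit 11236182511229019339510)), (.negSucc (nat_lit 11236182511229019339509)), (.ofNat (nat_lit 11236182511229019339510)), (.ofNat (nat_lit 0))⟩,
    ⟨nat_lit 0, nat_lit 9, nat_lit 10, (.ofNat (nat_lit 8)), (.negSucc (nat_lit 39868881279)), (.ofNat (nat_lit 1410610369763779572424954814423040)), (.negSucc (nat_lit 262143)), (.ofNat (nat_lit 50073463079801540777520660480)), (.negSucc (nat_lit 39868881295)), (.negSucc (nat_lit 39868881263)), (.ofNat (nat_lit 11236182511229019339510)), (.negSucc (nat_lit 11236182511229019339509)), (.negSucc (nat_lit 11236182511229019339509)), (.ofNat (nat_lit 11236182511229019339510)), (.ofNat (nat_lit 0))⟩,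
    ⟨nat_lit 2, nat_lit 11, nat_lit 5, (.ofNat (nat_lit 8)), (.negSucc (nat_lit 24637709247)), (.ofNat (nat_lit 277499478840070250320038354464640)), (.negSucc (nat_lit 524287)), (.negSucc (nat_lit 11781991312894480182946037759)), (.negSucc (nat_lit 24637709263)), (.negSucc (nat_lit 24637709231)), (.negSucc (nat_lit 11236182511229019339509)), (.ofNat (nat_lit 11236182511229019339510)), (.negSucc (nat_lit 11236182511229019339509)), (.ofNat (nat_lit 11236182511229019339510)), (.ofNat (nat_lit 0))⟩]
  es := [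
    ⟨nat_lit 5, nat_lit 4, (.negSucc (nat_lit 21674270271)), (.ofNat (nat_lit 18167021504)), (.negSucc (nat_lit 21674270255)), (.ofNat (nat_lit 18167021488)), (.negSucc (nat_lit 11236182511229019339509)), (.ofNat (nat_lit 0)), (.ofNat (nat_lit 0))⟩,
    ⟨nat_lit 0, nat_lit 1, (.negSucc (nat_lit 21674270271)), (.ofNat (nat_lit 21022557888)), (.negSucc (nat_lit 21674270255)), (.ofNat (nat_lit 21022557872)), (.ofNat (nat_lit 11236182511229019339510)), (.ofNat (nat_lit 0)), (.ofNat (nat_lit 47127965251577920731784151040))⟩,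
    ⟨nat_lit 2, nat_lit 1, (.ofNat (nat_lit 2713898880)), (.ofNat (nat_lit 21022557888)), (.ofNat (nat_lit 2713898896)), (.ofNat (nat_lit 21022557872)), (.negSucc (nat_lit 11236182511229019339509)), (.ofNat (nat_lit 0)), (.ofNat (nat_lit 53018960908025160823257169920))⟩,
    ⟨nat_lit 3, nat_lit 2, (.negSucc (nat_lit 80200142655)), (.ofNat (nat_lit 2713898880)), (.negSucc (nat_lit 80200142639)), (.ofNat (nat_lit 2713898864)), (.ofNat (nat_lit 11236182511229019339510)), (.ofNat (nat_lit 0)), (.ofNat (nat_lit 58909956564472400914730188800))⟩,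
    ⟨nat_lit 3, nat_lit 6, (.negSucc (nat_lit 80200142655)), (.negSucc (nat_lit 61889386495)), (.negSucc (nat_lit 80200142639)), (.negSucc (nat_lit 61889386511)), (.negSucc (nat_lit 11236182511229019339509)), (.ofNat (nat_lit 0)), (.negSucc (nat_lit 11781991312894480182946037759))⟩,
    ⟨nat_lit 11, nat_lit 4, (.negSucc (nat_lit 24637709247)), (.ofNat (nat_lit 18167021504)), (.negSucc (nat_lit 24637709231)), (.ofNat (nat_lit 18167021488)), (.ofNat (nat_lit 11236182511229019339510)), (.ofNat (nat_lit 0)), (.negSucc (nat_lit 5890995656447240091473018879))⟩,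
    ⟨nat_lit 6, nat_lit 5, (.negSucc (nat_lit 61889386495)), (.negSucc (nat_lit 21674270271)), (.negSucc (nat_lit 61889386479)), (.negSucc (nat_lit 21674270287)), (.ofNat (nat_lit 11236182511229019339510)), (.ofNat (nat_lit 0)), (.ofNat (nat_lit 0))⟩,
    ⟨nat_lit 7, nat_lit 8, (.negSucc (nat_lit 1506430975)), (.ofNat (nat_lit 5596460416)), (.negSucc (nat_lit 1506430959)), (.ofNat (nat_lit 5596460400)), (.ofNat (nat_lit 11236182511229019339510)), (.ofNat (nat_lit 0)), (.negSucc (nat_lit 11781991312894480182946037759))⟩,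
    ⟨nat_lit 9, nat_lit 8, (.negSucc (nat_lit 75572817791)), (.ofNat (nat_lit 5596460416)), (.negSucc (nat_lit 75572817775)), (.ofNat (nat_lit 5596460400)), (.negSucc (nat_lit 11236182511229019339509)), (.ofNat (nat_lit 0)), (.negSucc (nat_lit 5890995656447240091473018879))⟩,
    ⟨nat_lit 9, nat_lit 10, (.negSucc (nat_lit 75572817791)), (.negSucc (nat_lit 39868881279)), (.negSucc (nat_lit 75572817775)), (.negSucc (nat_lit 39868881295)), (.ofNat (nat_lit 11236182511229019339510)), (.ofNat (nat_lit 0)), (.ofNat (nat_lit 53018960908025160823257169920))⟩,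
    ⟨nat_lit 10, nat_lit 0, (.negSucc (nat_lit 39868881279)), (.negSucc (nat_lit 21674270271)), (.negSucc (nat_lit 39868881263)), (.negSucc (nat_lit 21674270287)), (.negSucc (nat_lit 11236182511229019339509)), (.ofNat (nat_lit 0)), (.ofNat (nat_lit 47127965251577920731784151040))⟩,
    ⟨nat_lit 11, nat_lit 7, (.negSucc (nat_lit 24637709247)), (.negSucc (nat_lit 1506430975)), (.negSucc (nat_lit 24637709231)), (.negSucc (nat_lit 1506430991)), (.negSucc (nat_lit 11236182511229019339509)), (.ofNat (nat_lit 0)), (.negSucc (nat_lit 17672986969341720274419056639))⟩]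

theorem ok162 : stOK 11 11 S162 = true := by decide +kernel

def S163 : SD where
  vs := [
    ⟨nat_lit 0, nat_lit 10, nat_lit 1, (.ofNat (nat_lit 8)), (.negSucc (nat_lit 21674270271)), (.ofNat (nat_lit 1206031015861320239779065926643840)), (.ofNat (nat_lit 0)), (.ofNat (nat_lit 47127965251577920731784151040)), (.negSucc (nat_lit 21674270287)), (.negSucc (nat_lit 21674270255)), (.negSucc (nat_lit 11236182511229019339509)), (.ofNat (nat_lit 11236182511229019339510)), (.negSucc (nat_lit 11236182511229019339509)), (.ofNat (nat_lit 11236182511229019339510)), (.ofNat (nat_lit 0))⟩,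
    ⟨nat_lit 1, nat_lit 1, nat_lit 2, (.ofNat (nat_lit 8)), (.ofNat (nat_lit 21021771456)), (.ofNat (nat_lit 1685771533224178278063303885717120)), (.ofNat (nat_lit 262144)), (.ofNat (nat_lit 50073463079801540777520660480)), (.ofNat (nat_lit 21021771440)), (.ofNat (nat_lit 21021771472)), (.ofNat (nat_lit 11236182511229019339510)), (.negSucc (nat_lit 11236182511229019339509)), (.negSucc (nat_lit 11236182511229019339509)), (.ofNat (nat_lit 11236182511229019339510)), (.ofNat (nat_lit 0))⟩,
    ⟨nat_lit 0, nat_lit 3, nat_lit 2, (.ofNat (nat_lit 8)), (.ofNat (nat_lit 2714685312)), (.ofNat (nat_lit 1891473294386954182424355438466560)), (.negSucc (nat_lit 262143)), (.ofNat (nat_lit 55964458736248780868993679360)), (.ofNat (nat_lit 2714685296)), (.ofNat (nat_lit 2714685328)), (.ofNat (nat_lit 11236182511229019339510)), (.negSucc (nat_lit 11236182511229019339509)), (.negSucc (nat_lit 11236182511229019339509)), (.ofNat (nat_lit 11236182511229019339510)), (.ofNat (nat_lit 0))⟩,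
    ⟨nat_lit 2, nat_lit 4, nat_lit 3, (.ofNat (nat_lit 8)), (.negSucc (nat_lit 80190705471)), (.ofNat (nat_lit 959933192373165865961185317390720)), (.negSucc (nat_lit 3145727)), (.ofNat (nat_lit 23563982625788960365892075520)), (.negSucc (nat_lit 80190705487)), (.negSucc (nat_lit 80190705455)), (.negSucc (nat_lit 11236182511229019339509)), (.ofNat (nat_lit 11236182511229019339510)), (.negSucc (nat_lit 11236182511229019339509)), (.ofNat (nat_lit 11236182511229019339510)), (.ofNat (nat_lit 0))⟩,
    ⟨nat_lit 1, nat_lit 5, nat_lit 0, (.ofNat (nat_lit 8)), (.ofNat (nat_lit 18166235072)), (.ofNat (nat_lit 758470082407044310616901989604480)), (.ofNat (nat_lit 262144)), (.negSucc (nat_lit 2945497828223620045736509439)), (.ofNat (nat_lit 18166235056)), (.ofNat (nat_lit 18166235088)), (.ofNat (nat_lit 11236182511229019339510)), (.negSucc (nat_lit 11236182511229019339509)), (.negSucc (nat_lit 11236182511229019339509)), (.ofNat (nat_lit 11236182511229019339510)), (.ofNat (nat_lit 0))⟩,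
    ⟨nat_lit 0, nat_lit 6, nat_lit 0, (.ofNat (nat_lit 8)), (.negSucc (nat_lit 21674270271)), (.ofNat (nat_lit 1206125271791823395620529494945920)), (.ofNat (nat_lit 0)), (.ofNat (nat_lit 0)), (.negSucc (nat_lit 21674270287)), (.negSucc (nat_lit 21674270255)), (.ofNat (nat_lit 11236182511229019339510)), (.negSucc (nat_lit 11236182511229019339509)), (.negSucc (nat_lit 11236182511229019339509)), (.ofNat (nat_lit 11236182511229019339510)), (.ofNat (nat_lit 0))⟩,
    ⟨nat_lit 0, nat_lit 4, nat_lit 6, (.ofNat (nat_lit 8)), (.negSucc (nat_lit 61887813631)), (.ofNat (nat_lit 754278559175641539520865548792320)), (.negSucc (nat_lit 524287)), (.negSucc (nat_lit 5890995656447240091473018879)), (.negSucc (nat_lit 61887813647)), (.negSucc (nat_lit 61887813615)), (.negSucc (nat_lit 11236182511229019339509)), (.ofNat (nat_lit 11236182511229019339510)), (.negSucc (nat_lit 11236182511229019339509)), (.ofNat (nat_lit 11236182511229019339510)), (.ofNat (nat_lit 0))⟩,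
    ⟨nat_lit 0, nat_lit 11, nat_lit 7, (.ofNat (nat_lit 8)), (.negSucc (nat_lit 1505644543)), (.ofNat (nat_lit 17636396925275393556848947979520)), (.negSucc (nat_lit 262143)), (.negSucc (nat_lit 14727489141118100228682547199)), (.negSucc (nat_lit 1505644559)), (.negSucc (nat_lit 1505644527)), (.negSucc (nat_lit 11236182511229019339509)), (.ofNat (nat_lit 11236182511229019339510)), (.negSucc (nat_lit 11236182511229019339509)), (.ofNat (nat_lit 11236182511229019339510)), (.ofNat (nat_lit 0))⟩,
    ⟨nat_lit 1, nat_lit 7, nat_lit 8, (.ofNat (nat_lit 8)), (.ofNat (nat_lit 5595673984)), (.ofNat (nat_lit 97428107976255596643781633420800)), (.ofNat (nat_lit 262144)), (.negSucc (nat_lit 8836493484670860137209528319)), (.ofNat (nat_lit 5595673968)), (.ofNat (nat_lit 5595674000)), (.ofNat (nat_lit 11236182511229019339510)), (.negSucc (nat_lit 11236182511229019339509)), (.negSucc (nat_lit 11236182511229019339509)), (.ofNat (nat_lit 11236182511229019339510)), (.ofNat (nat_lit 0))⟩,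
    ⟨nat_lit 2, nat_lit 8, nat_lit 9, (.ofNat (nat_lit 8)), (.negSucc (nat_lit 75564953471)), (.ofNat (nat_lit 1009363730797736571953971925007360)), (.negSucc (nat_lit 2621439)), (.ofNat (nat_lit 23563982625788960365892075520)), (.negSucc (nat_lit 75564953487)), (.negSucc (nat_lit 75564953455)), (.negSucc (nat_lit 11236182511229019339509)), (.ofNat (nat_lit 11236182511229019339510)), (.negSucc (nat_lit 11236182511229019339509)), (.ofNat (nat_lit 11236182511229019339510)), (.ofNat (nat_lit 0))⟩,
    ⟨nat_lit 0, nat_lit 9, nat_lit 10, (.ofNat (nat_lit 8)), (.negSucc (nat_lit 39868094847)), (.ofNat (nat_lit 1410460149374540167802622252441600)), (.negSucc (nat_lit 262143)), (.ofNat (nat_lit 50073463079801540777520660480)), (.negSucc (nat_lit 39868094863)), (.negSucc (nat_lit 39868094831)), (.ofNat (nat_lit 11236182511229019339510)), (.negSucc (nat_lit 11236182511229019339509)), (.negSucc (nat_lit 11236182511229019339509)), (.ofNat (nat_lit 11236182511229019339510)), (.ofNat (nat_lit 0))⟩,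
    ⟨nat_lit 2, nat_lit 11, nat_lit 5, (.ofNat (nat_lit 8)), (.negSucc (nat_lit 24636136383)), (.ofNat (nat_lit 277534824814008933760587192577920)), (.negSucc (nat_lit 524287)), (.negSucc (nat_lit 11781991312894480182946037759)), (.negSucc (nat_lit 24636136399)), (.negSucc (nat_lit 24636136367)), (.negSucc (nat_lit 11236182511229019339509)), (.ofNat (nat_lit 11236182511229019339510)), (.negSucc (nat_lit 11236182511229019339509)), (.ofNat (nat_lit 11236182511229019339510)), (.ofNat (nat_lit 0))⟩]
  es := [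
    ⟨nat_lit 5, nat_lit 4, (.negSucc (nat_lit 21674270271)), (.ofNat (nat_lit 18166235072)), (.negSucc (nat_lit 21674270255)), (.ofNat (nat_lit 18166235056)), (.negSucc (nat_lit 11236182511229019339509)), (.ofNat (nat_lit 0)), (.ofNat (nat_lit 0))⟩,
    ⟨nat_lit 0, nat_lit 1, (.negSucc (nat_lit 21674270271)), (.ofNat (nat_lit 21021771456)), (.negSucc (nat_lit 21674270255)), (.ofNat (nat_lit 21021771440)), (.ofNat (nat_lit 11236182511229019339510)), (.ofNat (nat_lit 0)), (.ofNat (nat_lit 47127965251577920731784151040))⟩,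
    ⟨nat_lit 2, nat_lit 1, (.ofNat (nat_lit 2714685312)), (.ofNat (nat_lit 21021771456)), (.ofNat (nat_lit 2714685328)), (.ofNat (nat_lit 21021771440)), (.negSucc (nat_lit 11236182511229019339509)), (.ofNat (nat_lit 0)), (.ofNat (nat_lit 53018960908025160823257169920))⟩,
    ⟨nat_lit 3, nat_lit 2, (.negSucc (nat_lit 80190705471)), (.ofNat (nat_lit 2714685312)), (.negSucc (nat_lit 80190705455)), (.ofNat (nat_lit 2714685296)), (.ofNat (nat_lit 11236182511229019339510)), (.ofNat (nat_lit 0)), (.ofNat (nat_lit 58909956564472400914730188800))⟩,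
    ⟨nat_lit 3, nat_lit 6, (.negSucc (nat_lit 80190705471)), (.negSucc (nat_lit 61887813631)), (.negSucc (nat_lit 80190705455)), (.negSucc (nat_lit 61887813647)), (.negSucc (nat_lit 11236182511229019339509)), (.ofNat (nat_lit 0)), (.negSucc (nat_lit 11781991312894480182946037759))⟩,
    ⟨nat_lit 11, nat_lit 4, (.negSucc (nat_lit 24636136383)), (.ofNat (nat_lit 18166235072)), (.negSucc (nat_lit 24636136367)), (.ofNat (nat_lit 18166235056)), (.ofNat (nat_lit 11236182511229019339510)), (.ofNat (nat_lit 0)), (.negSucc (nat_lit 5890995656447240091473018879))⟩,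
    ⟨nat_lit 6, nat_lit 5, (.negSucc (nat_lit 61887813631)), (.negSucc (nat_lit 21674270271)), (.negSucc (nat_lit 61887813615)), (.negSucc (nat_lit 21674270287)), (.ofNat (nat_lit 11236182511229019339510)), (.ofNat (nat_lit 0)), (.ofNat (nat_lit 0))⟩,
    ⟨nat_lit 7, nat_lit 8, (.negSucc (nat_lit 1505644543)), (.ofNat (nat_lit 5595673984)), (.negSucc (nat_lit 1505644527)), (.ofNat (nat_lit 5595673968)), (.ofNat (nat_lit 11236182511229019339510)), (.ofNat (nat_lit 0)), (.negSucc (nat_lit 11781991312894480182946037759))⟩,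
    ⟨nat_lit 9, nat_lit 8, (.negSucc (nat_lit 75564953471)), (.ofNat (nat_lit 5595673984)), (.negSucc (nat_lit 75564953455)), (.ofNat (nat_lit 5595673968)), (.negSucc (nat_lit 11236182511229019339509)), (.ofNat (nat_lit 0)), (.negSucc (nat_lit 5890995656447240091473018879))⟩,
    ⟨nat_lit 9, nat_lit 10, (.negSucc (nat_lit 75564953471)), (.negSucc (nat_lit 39868094847)), (.negSucc (nat_lit 75564953455)), (.negSucc (nat_lit 39868094863)), (.ofNat (nat_lit 11236182511229019339510)), (.ofNat (nat_lit 0)), (.ofNat (nat_lit 53018960908025160823257169920))⟩,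
    ⟨nat_lit 10, nat_lit 0, (.negSucc (nat_lit 39868094847)), (.negSucc (nat_lit 21674270271)), (.negSucc (nat_lit 39868094831)), (.negSucc (nat_lit 21674270287)), (.negSucc (nat_lit 11236182511229019339509)), (.ofNat (nat_lit 0)), (.ofNat (nat_lit 47127965251577920731784151040))⟩,
    ⟨nat_lit 11, nat_lit 7, (.negSucc (nat_lit 24636136383)), (.negSucc (nat_lit 1505644543)), (.negSucc (nat_lit 24636136367)), (.negSucc (nat_lit 1505644559)), (.negSucc (nat_lit 11236182511229019339509)), (.ofNat (nat_lit 0)), (.negSucc (nat_lit 17672986969341720274419056639))⟩]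

theorem ok163 : stOK 11 11 S163 = true := by decide +kernel

def S164 : SD where
  vs := [
    ⟨nat_lit 0, nat_lit 10, nat_lit 1, (.ofNat (nat_lit 8)), (.negSucc (nat_lit 21674270271)), (.ofNat (nat_lit 1206219527722326551461993063248000)), (.ofNat (nat_lit 0)), (.ofNat (nat_lit 47127965251577920731784151040)), (.negSucc (nat_lit 21674270287)), (.negSucc (nat_lit 21674270255)), (.negSucc (nat_lit 11236182511229019339509)), (.ofNat (nat_lit 11236182511229019339510)), (.negSucc (nat_lit 11236182511229019339509)), (.ofNat (nat_lit 11236182511229019339510)), (.ofNat (nat_lit 0))⟩,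
    ⟨nat_lit 1, nat_lit 1, nat_lit 2, (.ofNat (nat_lit 8)), (.ofNat (nat_lit 21022820032)), (.ofNat (nat_lit 1685971827076497484226413968359040)), (.ofNat (nat_lit 262144)), (.ofNat (nat_lit 50073463079801540777520660480)), (.ofNat (nat_lit 21022820016)), (.ofNat (nat_lit 21022820048)), (.ofNat (nat_lit 11236182511229019339510)), (.negSucc (nat_lit 11236182511229019339509)), (.negSucc (nat_lit 11236182511229019339509)), (.ofNat (nat_lit 11236182511229019339510)), (.ofNat (nat_lit 0))⟩,
    ⟨nat_lit 0, nat_lit 3, nat_lit 2, (.ofNat (nat_lit 8)), (.ofNat (nat_lit 2713636736)), (.ofNat (nat_lit 1891697152221899177547831413184000)), (.negSucc (nat_lit 262143)), (.ofNat (nat_lit 55964458736248780868993679360)), (.ofNat (nat_lit 2713636720)), (.ofNat (nat_lit 2713636752)), (.ofNat (nat_lit 11236182511229019339510)), (.negSucc (nat_lit 11236182511229019339509)), (.negSucc (nat_lit 11236182511229019339509)), (.ofNat (nat_lit 11236182511229019339510)), (.ofNat (nat_lit 0))⟩,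
    ⟨nat_lit 2, nat_lit 4, nat_lit 3, (.ofNat (nat_lit 8)), (.negSucc (nat_lit 80203288383)), (.ofNat (nat_lit 960027448303669021802648885692800)), (.negSucc (nat_lit 3145727)), (.ofNat (nat_lit 23563982625788960365892075520)), (.negSucc (nat_lit 80203288399)), (.negSucc (nat_lit 80203288367)), (.negSucc (nat_lit 11236182511229019339509)), (.ofNat (nat_lit 11236182511229019339510)), (.negSucc (nat_lit 11236182511229019339509)), (.ofNat (nat_lit 11236182511229019339510)), (.ofNat (nat_lit 0))⟩,
    ⟨nat_lit 1, nat_lit 5, nat_lit 0, (.ofNat (nat_lit 8)), (.ofNat (nat_lit 18167283648)), (.ofNat (nat_lit 758458300415731416136719043566720)), (.ofNat (nat_lit 262144)), (.negSucc (nat_lit 2945497828223620045736509439)), (.ofNat (nat_lit 18167283632)), (.ofNat (nat_lit 18167283664)), (.ofNat (nat_lit 11236182511229019339510)), (.negSucc (nat_lit 11236182511229019339509)), (.negSucc (nat_lit 11236182511229019339509)), (.ofNat (nat_lit 11236182511229019339510)), (.ofNat (nat_lit 0))⟩,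
    ⟨nat_lit 0, nat_lit 6, nat_lit 0, (.ofNat (nat_lit 8)), (.negSucc (nat_lit 21674270271)), (.ofNat (nat_lit 1206125271791823395620529494945920)), (.ofNat (nat_lit 0)), (.ofNat (nat_lit 0)), (.negSucc (nat_lit 21674270287)), (.negSucc (nat_lit 21674270255)), (.ofNat (nat_lit 11236182511229019339510)), (.negSucc (nat_lit 11236182511229019339509)), (.negSucc (nat_lit 11236182511229019339509)), (.ofNat (nat_lit 11236182511229019339510)), (.ofNat (nat_lit 0))⟩,
    ⟨nat_lit 0, nat_lit 4, nat_lit 6, (.ofNat (nat_lit 8)), (.negSucc (nat_lit 61889910783)), (.ofNat (nat_lit 754254995193015750560499656716800)), (.negSucc (nat_lit 524287)), (.negSucc (nat_lit 5890995656447240091473018879)), (.negSucc (nat_lit 61889910799)), (.negSucc (nat_lit 61889910767)), (.negSucc (nat_lit 11236182511229019339509)), (.ofNat (nat_lit 11236182511229019339510)), (.negSucc (nat_lit 11236182511229019339509)), (.ofNat (nat_lit 11236182511229019339510)), (.ofNat (nat_lit 0))⟩,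
    ⟨nat_lit 0, nat_lit 11, nat_lit 7, (.ofNat (nat_lit 8)), (.negSucc (nat_lit 1506693119)), (.ofNat (nat_lit 17577486968710921155934217790720)), (.negSucc (nat_lit 262143)), (.negSucc (nat_lit 14727489141118100228682547199)), (.negSucc (nat_lit 1506693135)), (.negSucc (nat_lit 1506693103)), (.negSucc (nat_lit 11236182511229019339509)), (.ofNat (nat_lit 11236182511229019339510)), (.negSucc (nat_lit 11236182511229019339509)), (.ofNat (nat_lit 11236182511229019339510)), (.ofNat (nat_lit 0))⟩,
    ⟨nat_lit 1, nat_lit 7, nat_lit 8, (.ofNat (nat_lit 8)), (.ofNat (nat_lit 5596722560)), (.ofNat (nat_lit 97392762002316913203232795307520)), (.ofNat (nat_lit 262144)), (.negSucc (nat_lit 8836493484670860137209528319)), (.ofNat (nat_lit 5596722544)), (.ofNat (nat_lit 5596722576)), (.ofNat (nat_lit 11236182511229019339510)), (.negSucc (nat_lit 11236182511229019339509)), (.negSucc (nat_lit 11236182511229019339509)), (.ofNat (nat_lit 11236182511229019339510)), (.ofNat (nat_lit 0))⟩,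
    ⟨nat_lit 2, nat_lit 8, nat_lit 9, (.ofNat (nat_lit 8)), (.negSucc (nat_lit 75575439231)), (.ofNat (nat_lit 1009457986728239727795435493309440)), (.negSucc (nat_lit 2621439)), (.ofNat (nat_lit 23563982625788960365892075520)), (.negSucc (nat_lit 75575439247)), (.negSucc (nat_lit 75575439215)), (.negSucc (nat_lit 11236182511229019339509)), (.ofNat (nat_lit 11236182511229019339510)), (.negSucc (nat_lit 11236182511229019339509)), (.ofNat (nat_lit 11236182511229019339510)), (.ofNat (nat_lit 0))⟩,
    ⟨nat_lit 0, nat_lit 9, nat_lit 10, (.ofNat (nat_lit 8)), (.negSucc (nat_lit 39869143423)), (.ofNat (nat_lit 1410660443226859373965732335083520)), (.negSucc (nat_lit 262143)), (.ofNat (nat_lit 50073463079801540777520660480)), (.negSucc (nat_lit 39869143439)), (.negSucc (nat_lit 39869143407)), (.ofNat (nat_lit 11236182511229019339510)), (.negSucc (nat_lit 11236182511229019339509)), (.negSucc (nat_lit 11236182511229019339509)), (.ofNat (nat_lit 11236182511229019339510)), (.ofNat (nat_lit 0))⟩,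
    ⟨nat_lit 2, nat_lit 11, nat_lit 5, (.ofNat (nat_lit 8)), (.negSucc (nat_lit 24638233535)), (.ofNat (nat_lit 277487696848757355839855408426880)), (.negSucc (nat_lit 524287)), (.negSucc (nat_lit 11781991312894480182946037759)), (.negSucc (nat_lit 24638233551)), (.negSucc (nat_lit 24638233519)), (.negSucc (nat_lit 11236182511229019339509)), (.ofNat (nat_lit 11236182511229019339510)), (.negSucc (nat_lit 11236182511229019339509)), (.ofNat (nat_lit 11236182511229019339510)), (.ofNat (nat_lit 0))⟩]
  es := [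
    ⟨nat_lit 5, nat_lit 4, (.negSucc (nat_lit 21674270271)), (.ofNat (nat_lit 18167283648)), (.negSucc (nat_lit 21674270255)), (.ofNat (nat_lit 18167283632)), (.negSucc (nat_lit 11236182511229019339509)), (.ofNat (nat_lit 0)), (.ofNat (nat_lit 0))⟩,
    ⟨nat_lit 0, nat_lit 1, (.negSucc (nat_lit 21674270271)), (.ofNat (nat_lit 21022820032)), (.negSucc (nat_lit 21674270255)), (.ofNat (nat_lit 21022820016)), (.ofNat (nat_lit 11236182511229019339510)), (.ofNat (nat_lit 0)), (.ofNat (nat_lit 47127965251577920731784151040))⟩,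
    ⟨nat_lit 2, nat_lit 1, (.ofNat (nat_lit 2713636736)), (.ofNat (nat_lit 21022820032)), (.ofNat (nat_lit 2713636752)), (.ofNat (nat_lit 21022820016)), (.negSucc (nat_lit 11236182511229019339509)), (.ofNat (nat_lit 0)), (.ofNat (nat_lit 53018960908025160823257169920))⟩,
    ⟨nat_lit 3, nat_lit 2, (.negSucc (nat_lit 80203288383)), (.ofNat (nat_lit 2713636736)), (.negSucc (nat_lit 80203288367)), (.ofNat (nat_lit 2713636720)), (.ofNat (nat_lit 11236182511229019339510)), (.ofNat (nat_lit 0)), (.ofNat (nat_lit 58909956564472400914730188800))⟩,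
    ⟨nat_lit 3, nat_lit 6, (.negSucc (nat_lit 80203288383)), (.negSucc (nat_lit 61889910783)), (.negSucc (nat_lit 80203288367)), (.negSucc (nat_lit 61889910799)), (.negSucc (nat_lit 11236182511229019339509)), (.ofNat (nat_lit 0)), (.negSucc (nat_lit 11781991312894480182946037759))⟩,
    ⟨nat_lit 11, nat_lit 4, (.negSucc (nat_lit 24638233535)), (.ofNat (nat_lit 18167283648)), (.negSucc (nat_lit 24638233519)), (.ofNat (nat_lit 18167283632)), (.ofNat (nat_lit 11236182511229019339510)), (.ofNat (nat_lit 0)), (.negSucc (nat_lit 5890995656447240091473018879))⟩,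
    ⟨nat_lit 6, nat_lit 5, (.negSucc (nat_lit 61889910783)), (.negSucc (nat_lit 21674270271)), (.negSucc (nat_lit 61889910767)), (.negSucc (nat_lit 21674270287)), (.ofNat (nat_lit 11236182511229019339510)), (.ofNat (nat_lit 0)), (.ofNat (nat_lit 0))⟩,
    ⟨nat_lit 7, nat_lit 8, (.negSucc (nat_lit 1506693119)), (.ofNat (nat_lit 5596722560)), (.negSucc (nat_lit 1506693103)), (.ofNat (nat_lit 5596722544)), (.ofNat (nat_lit 11236182511229019339510)), (.ofNat (nat_lit 0)), (.negSucc (nat_lit 11781991312894480182946037759))⟩,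
    ⟨nat_lit 9, nat_lit 8, (.negSucc (nat_lit 75575439231)), (.ofNat (nat_lit 5596722560)), (.negSucc (nat_lit 75575439215)), (.ofNat (nat_lit 5596722544)), (.negSucc (nat_lit 11236182511229019339509)), (.ofNat (nat_lit 0)), (.negSucc (nat_lit 5890995656447240091473018879))⟩,
    ⟨nat_lit 9, nat_lit 10, (.negSucc (nat_lit 75575439231)), (.negSucc (nat_lit 39869143423)), (.negSucc (nat_lit 75575439215)), (.negSucc (nat_lit 39869143439)), (.ofNat (nat_lit 11236182511229019339510)), (.ofNat (nat_lit 0)), (.ofNat (nat_lit 53018960908025160823257169920))⟩,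
    ⟨nat_lit 10, nat_lit 0, (.negSucc (nat_lit 39869143423)), (.negSucc (nat_lit 21674270271)), (.negSucc (nat_lit 39869143407)), (.negSucc (nat_lit 21674270287)), (.negSucc (nat_lit 11236182511229019339509)), (.ofNat (nat_lit 0)), (.ofNat (nat_lit 47127965251577920731784151040))⟩,
    ⟨nat_lit 11, nat_lit 7, (.negSucc (nat_lit 24638233535)), (.negSucc (nat_lit 1506693119)), (.negSucc (nat_lit 24638233519)), (.negSucc (nat_lit 1506693135)), (.negSucc (nat_lit 11236182511229019339509)), (.ofNat (nat_lit 0)), (.negSucc (nat_lit 17672986969341720274419056639))⟩]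

theorem ok164 : stOK 11 11 S164 = true := by decide +kernel

def S165 : SD where
  vs := [
    ⟨nat_lit 0, nat_lit 10, nat_lit 1, (.ofNat (nat_lit 8)), (.negSucc (nat_lit 34248501375)), (.ofNat (nat_lit 1347482319362617526747911349291520)), (.negSucc (nat_lit 12574231103)), (.ofNat (nat_lit 141309919605542553206650070194560)), (.negSucc (nat_lit 34248501391)), (.negSucc (nat_lit 34248501359)), (.negSucc (nat_lit 11236182511229019339509)), (.ofNat (nat_lit 11236182511229019339510)), (.negSucc (nat_lit 11236182511229019339509)), (.ofNat (nat_lit 11236182511229019339510)), (.ofNat (nat_lit 0))⟩,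
    ⟨nat_lit 1, nat_lit 1, nat_lit 2, (.ofNat (nat_lit 8)), (.ofNat (nat_lit 8448588928)), (.ofNat (nat_lit 1827234618716788459512332254402560)), (.negSucc (nat_lit 12573968959)), (.ofNat (nat_lit 141312865103370776826695806704000)), (.ofNat (nat_lit 8448588912)), (.ofNat (nat_lit 8448588944)), (.ofNat (nat_lit 11236182511229019339510)), (.negSucc (nat_lit 11236182511229019339509)), (.negSucc (nat_lit 11236182511229019339509)), (.ofNat (nat_lit 11236182511229019339510)), (.ofNat (nat_lit 0))⟩,
    ⟨nat_lit 0, nat_lit 3, nat_lit 2, (.ofNat (nat_lit 8)), (.negSucc (nat_lit 9860594367)), (.ofNat (nat_lit 2032959943862190152833749699227520)), (.negSucc (nat_lit 12574493247)), (.ofNat (nat_lit 141318756099027224066787279722880)), (.negSucc (nat_lit 9860594383)), (.negSucc (nat_lit 9860594351)), (.ofNat (nat_lit 11236182511229019339510)), (.negSucc (nat_lit 11236182511229019339509)), (.negSucc (nat_lit 11236182511229019339509)), (.ofNat (nat_lit 11236182511229019339510)), (.ofNat (nat_lit 0))⟩,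
    ⟨nat_lit 2, nat_lit 4, nat_lit 3, (.ofNat (nat_lit 8)), (.negSucc (nat_lit 92775684479)), (.ofNat (nat_lit 1101310858428757562428887327302400)), (.negSucc (nat_lit 12575541823)), (.ofNat (nat_lit 141306974107714329586604333685120)), (.negSucc (nat_lit 92775684495)), (.negSucc (nat_lit 92775684463)), (.negSucc (nat_lit 11236182511229019339509)), (.ofNat (nat_lit 11236182511229019339510)), (.negSucc (nat_lit 11236182511229019339509)), (.ofNat (nat_lit 11236182511229019339510)), (.ofNat (nat_lit 0))⟩,
    ⟨nat_lit 1, nat_lit 5, nat_lit 0, (.ofNat (nat_lit 8)), (.ofNat (nat_lit 5593052544)), (.ofNat (nat_lit 899762329025617522103277640742400)), (.negSucc (nat_lit 12573968959)), (.ofNat (nat_lit 141301083112057882346512860666240)), (.ofNat (nat_lit 5593052528)), (.ofNat (nat_lit 5593052560)), (.ofNat (nat_lit 11236182511229019339510)), (.negSucc (nat_lit 11236182511229019339509)), (.negSucc (nat_lit 11236182511229019339509)), (.ofNat (nat_lit 11236182511229019339510)), (.ofNat (nat_lit 0))⟩,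
    ⟨nat_lit 0, nat_lit 6, nat_lit 0, (.ofNat (nat_lit 8)), (.negSucc (nat_lit 34248501375)), (.ofNat (nat_lit 1347429300401709501587088092121600)), (.negSucc (nat_lit 12574231103)), (.ofNat (nat_lit 141304028609886105966558597175680)), (.negSucc (nat_lit 34248501391)), (.negSucc (nat_lit 34248501359)), (.ofNat (nat_lit 11236182511229019339510)), (.negSucc (nat_lit 11236182511229019339509)), (.negSucc (nat_lit 11236182511229019339509)), (.ofNat (nat_lit 11236182511229019339510)), (.ofNat (nat_lit 0))⟩,
    ⟨nat_lit 0, nat_lit 4, nat_lit 6, (.ofNat (nat_lit 8)), (.negSucc (nat_lit 74464141887)), (.ofNat (nat_lit 895559023802901856527058253892480)), (.negSucc (nat_lit 12574755391)), (.ofNat (nat_lit 141298137614229658726467124156800)), (.negSucc (nat_lit 74464141903)), (.negSucc (nat_lit 74464141871)), (.negSucc (nat_lit 11236182511229019339509)), (.ofNat (nat_lit 11236182511229019339510)), (.negSucc (nat_lit 11236182511229019339509)), (.ofNat (nat_lit 11236182511229019339510)), (.ofNat (nat_lit 0))⟩,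
    ⟨nat_lit 0, nat_lit 11, nat_lit 7, (.ofNat (nat_lit 8)), (.negSucc (nat_lit 1506430975)), (.ofNat (nat_lit 17592214457852039256162900337920)), (.ofNat (nat_lit 0)), (.ofNat (nat_lit 0)), (.negSucc (nat_lit 1506430991)), (.negSucc (nat_lit 1506430959)), (.negSucc (nat_lit 11236182511229019339509)), (.ofNat (nat_lit 11236182511229019339510)), (.negSucc (nat_lit 11236182511229019339509)), (.ofNat (nat_lit 11236182511229019339510)), (.ofNat (nat_lit 0))⟩,
    ⟨nat_lit 1, nat_lit 7, nat_lit 8, (.ofNat (nat_lit 8)), (.ofNat (nat_lit 5596984704)), (.ofNat (nat_lit 97407489491458031303461477854720)), (.ofNat (nat_lit 524288)), (.ofNat (nat_lit 5890995656447240091473018880)), (.ofNat (nat_lit 5596984688)), (.ofNat (nat_lit 5596984720)), (.ofNat (nat_lit 11236182511229019339510)), (.negSucc (nat_lit 11236182511229019339509)), (.negSucc (nat_lit 11236182511229019339509)), (.ofNat (nat_lit 11236182511229019339510)), (.ofNat (nat_lit 0))⟩,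
    ⟨nat_lit 2, nat_lit 8, nat_lit 9, (.ofNat (nat_lit 8)), (.negSucc (nat_lit 88147835327)), (.ofNat (nat_lit 1150741396853328268421673934919040)), (.negSucc (nat_lit 12575017535)), (.ofNat (nat_lit 141306974107714329586604333685120)), (.negSucc (nat_lit 88147835343)), (.negSucc (nat_lit 88147835311)), (.negSucc (nat_lit 11236182511229019339509)), (.ofNat (nat_lit 11236182511229019339510)), (.negSucc (nat_lit 11236182511229019339509)), (.ofNat (nat_lit 11236182511229019339510)), (.ofNat (nat_lit 0))⟩,
    ⟨nat_lit 0, nat_lit 9, nat_lit 10, (.ofNat (nat_lit 8)), (.negSucc (nat_lit 52443374527)), (.ofNat (nat_lit 1551923234867150349251650621127040)), (.negSucc (nat_lit 12574493247)), (.ofNat (nat_lit 141312865103370776826695806704000)), (.negSucc (nat_lit 52443374543)), (.negSucc (nat_lit 52443374511)), (.ofNat (nat_lit 11236182511229019339510)), (.negSucc (nat_lit 11236182511229019339509)), (.negSucc (nat_lit 11236182511229019339509)), (.ofNat (nat_lit 11236182511229019339510)), (.ofNat (nat_lit 0))⟩,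
    ⟨nat_lit 2, nat_lit 11, nat_lit 5, (.ofNat (nat_lit 8)), (.negSucc (nat_lit 37212464639)), (.ofNat (nat_lit 418791725458643461806414005602560)), (.negSucc (nat_lit 12574755391)), (.ofNat (nat_lit 141292246618573211486375651137920)), (.negSucc (nat_lit 37212464655)), (.negSucc (nat_lit 37212464623)), (.negSucc (nat_lit 11236182511229019339509)), (.ofNat (nat_lit 11236182511229019339510)), (.negSucc (nat_lit 11236182511229019339509)), (.ofNat (nat_lit 11236182511229019339510)), (.ofNat (nat_lit 0))⟩]
  es := [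
    ⟨nat_lit 5, nat_lit 4, (.negSucc (nat_lit 34248501375)), (.ofNat (nat_lit 5593052544)), (.negSucc (nat_lit 34248501359)), (.ofNat (nat_lit 5593052528)), (.negSucc (nat_lit 11236182511229019339509)), (.ofNat (nat_lit 0)), (.ofNat (nat_lit 17672986969341720274419056640))⟩,
    ⟨nat_lit 0, nat_lit 1, (.negSucc (nat_lit 34248501375)), (.ofNat (nat_lit 8448588928)), (.negSucc (nat_lit 34248501359)), (.ofNat (nat_lit 8448588912)), (.ofNat (nat_lit 11236182511229019339510)), (.ofNat (nat_lit 0)), (.ofNat (nat_lit 282596275228459317452934248313600))⟩,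
    ⟨nat_lit 2, nat_lit 1, (.negSucc (nat_lit 9860594367)), (.ofNat (nat_lit 8448588928)), (.negSucc (nat_lit 9860594351)), (.ofNat (nat_lit 8448588912)), (.negSucc (nat_lit 11236182511229019339509)), (.ofNat (nat_lit 0)), (.ofNat (nat_lit 29454978282236200457365094400))⟩,
    ⟨nat_lit 3, nat_lit 2, (.negSucc (nat_lit 92775684479)), (.negSucc (nat_lit 9860594367)), (.negSucc (nat_lit 92775684463)), (.negSucc (nat_lit 9860594383)), (.ofNat (nat_lit 11236182511229019339510)), (.ofNat (nat_lit 0)), (.ofNat (nat_lit 282608057219772211933117194351360))⟩,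
    ⟨nat_lit 3, nat_lit 6, (.negSucc (nat_lit 92775684479)), (.negSucc (nat_lit 74464141887)), (.negSucc (nat_lit 92775684463)), (.negSucc (nat_lit 74464141903)), (.negSucc (nat_lit 11236182511229019339509)), (.ofNat (nat_lit 0)), (.ofNat (nat_lit 5890995656447240091473018880))⟩,
    ⟨nat_lit 11, nat_lit 4, (.negSucc (nat_lit 37212464639)), (.ofNat (nat_lit 5593052544)), (.negSucc (nat_lit 37212464623)), (.ofNat (nat_lit 5593052528)), (.ofNat (nat_lit 11236182511229019339510)), (.ofNat (nat_lit 0)), (.ofNat (nat_lit 282584493237146422972751302275840))⟩,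
    ⟨nat_lit 6, nat_lit 5, (.negSucc (nat_lit 74464141887)), (.negSucc (nat_lit 34248501375)), (.negSucc (nat_lit 74464141871)), (.negSucc (nat_lit 34248501391)), (.ofNat (nat_lit 11236182511229019339510)), (.ofNat (nat_lit 0)), (.ofNat (nat_lit 282590384232802870212842775294720))⟩,
    ⟨nat_lit 7, nat_lit 8, (.negSucc (nat_lit 1506430975)), (.ofNat (nat_lit 5596984704)), (.negSucc (nat_lit 1506430959)), (.ofNat (nat_lit 5596984688)), (.ofNat (nat_lit 11236182511229019339510)), (.ofNat (nat_lit 0)), (.ofNat (nat_lit 0))⟩,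
    ⟨nat_lit 9, nat_lit 8, (.negSucc (nat_lit 88147835327)), (.ofNat (nat_lit 5596984704)), (.negSucc (nat_lit 88147835311)), (.ofNat (nat_lit 5596984688)), (.negSucc (nat_lit 11236182511229019339509)), (.ofNat (nat_lit 0)), (.ofNat (nat_lit 11781991312894480182946037760))⟩,
    ⟨nat_lit 9, nat_lit 10, (.negSucc (nat_lit 88147835327)), (.negSucc (nat_lit 52443374527)), (.negSucc (nat_lit 88147835311)), (.negSucc (nat_lit 52443374543)), (.ofNat (nat_lit 11236182511229019339510)), (.ofNat (nat_lit 0)), (.ofNat (nat_lit 282602166224115764693025721332480))⟩,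
    ⟨nat_lit 10, nat_lit 0, (.negSucc (nat_lit 52443374527)), (.negSucc (nat_lit 34248501375)), (.negSucc (nat_lit 52443374511)), (.negSucc (nat_lit 34248501391)), (.negSucc (nat_lit 11236182511229019339509)), (.ofNat (nat_lit 0)), (.ofNat (nat_lit 23563982625788960365892075520))⟩,
    ⟨nat_lit 11, nat_lit 7, (.negSucc (nat_lit 37212464639)), (.negSucc (nat_lit 1506430975)), (.negSucc (nat_lit 37212464623)), (.negSucc (nat_lit 1506430991)), (.negSucc (nat_lit 11236182511229019339509)), (.ofNat (nat_lit 0)), (.ofNat (nat_lit 0))⟩]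

theorem ok165 : stOK 11 11 S165 = true := by decide +kernel

def S166 : SD where
  vs := [
    ⟨nat_lit 0, nat_lit 10, nat_lit 1, (.ofNat (nat_lit 8)), (.negSucc (nat_lit 34248501375)), (.ofNat (nat_lit 1368536730602658425603246278672128)), (.ofNat (nat_lit 0)), (.ofNat (nat_lit 21054411240040898855334929380608)), (.negSucc (nat_lit 34248501391)), (.negSucc (nat_lit 34248501359)), (.negSucc (nat_lit 11411747862966972766688)), (.ofNat (nat_lit 11411747862966972766689)), (.negSucc (nat_lit 11411747862966972766688)), (.ofNat (nat_lit 11411747862966972766689)), (.ofNat (nat_lit 1053392110427720563074))⟩,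
    ⟨nat_lit 1, nat_lit 1, nat_lit 2, (.ofNat (nat_lit 8)), (.ofNat (nat_lit 8448588928)), (.ofNat (nat_lit 1855785159634238279192075234755584)), (.ofNat (nat_lit 0)), (.ofNat (nat_lit 28550540917449819679742980353024)), (.ofNat (nat_lit 8448588912)), (.ofNat (nat_lit 8448588944)), (.ofNat (nat_lit 11411747862966972766689)), (.negSucc (nat_lit 11411747862966972766688)), (.negSucc (nat_lit 11411747862966972766688)), (.ofNat (nat_lit 11411747862966972766689)), (.ofNat (nat_lit 1053392110427720563074))⟩,
    ⟨nat_lit 0, nat_lit 3, nat_lit 2, (.ofNat (nat_lit 8)), (.negSucc (nat_lit 9860594367)), (.ofNat (nat_lit 2064724942985036873971624378782528)), (.ofNat (nat_lit 0)), (.ofNat (nat_lit 31764999122846721137874679555008)), (.negSucc (nat_lit 9860594383)), (.negSucc (nat_lit 9860594351)), (.ofNat (nat_lit 11411747862966972766689)), (.negSucc (nat_lit 11411747862966972766688)), (.negSucc (nat_lit 11411747862966972766688)), (.ofNat (nat_lit 11411747862966972766689)), (.ofNat (nat_lit 1053392110427720563074))⟩,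
    ⟨nat_lit 2, nat_lit 4, nat_lit 3, (.ofNat (nat_lit 8)), (.negSucc (nat_lit 92775684479)), (.ofNat (nat_lit 1118518840591706899341755991903360)), (.ofNat (nat_lit 0)), (.ofNat (nat_lit 17207982162949336912868664600960)), (.negSucc (nat_lit 92775684495)), (.negSucc (nat_lit 92775684463)), (.negSucc (nat_lit 11411747862966972766688)), (.ofNat (nat_lit 11411747862966972766689)), (.negSucc (nat_lit 11411747862966972766688)), (.ofNat (nat_lit 11411747862966972766689)), (.ofNat (nat_lit 1053392110427720563074))⟩,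
    ⟨nat_lit 1, nat_lit 5, nat_lit 0, (.ofNat (nat_lit 8)), (.ofNat (nat_lit 5593052544)), (.ofNat (nat_lit 913821115416642795886073788719360)), (.ofNat (nat_lit 0)), (.ofNat (nat_lit 14058786391025273782796147976960)), (.ofNat (nat_lit 5593052528)), (.ofNat (nat_lit 5593052560)), (.ofNat (nat_lit 11411747862966972766689)), (.negSucc (nat_lit 11411747862966972766688)), (.negSucc (nat_lit 11411747862966972766688)), (.ofNat (nat_lit 11411747862966972766689)), (.ofNat (nat_lit 1053392110427720563074))⟩,
    ⟨nat_lit 0, nat_lit 6, nat_lit 0, (.ofNat (nat_lit 8)), (.negSucc (nat_lit 34248501375)), (.ofNat (nat_lit 1368482883220486212549285162090240)), (.ofNat (nat_lit 0)), (.ofNat (nat_lit 21053582818776710962197069968640)), (.negSucc (nat_lit 34248501391)), (.negSucc (nat_lit 34248501359)), (.ofNat (nat_lit 11411747862966972766689)), (.negSucc (nat_lit 11411747862966972766688)), (.negSucc (nat_lit 11411747862966972766688)), (.ofNat (nat_lit 11411747862966972766689)), (.ofNat (nat_lit 1053392110427720563074))⟩,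
    ⟨nat_lit 0, nat_lit 4, nat_lit 6, (.ofNat (nat_lit 8)), (.negSucc (nat_lit 74464141887)), (.ofNat (nat_lit 909552133549822198035226289585472)), (.ofNat (nat_lit 0)), (.ofNat (nat_lit 13993109746920341508168035692992)), (.negSucc (nat_lit 74464141903)), (.negSucc (nat_lit 74464141871)), (.negSucc (nat_lit 11411747862966972766688)), (.ofNat (nat_lit 11411747862966972766689)), (.negSucc (nat_lit 11411747862966972766688)), (.ofNat (nat_lit 11411747862966972766689)), (.ofNat (nat_lit 1053392110427720563074))⟩,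
    ⟨nat_lit 0, nat_lit 11, nat_lit 7, (.ofNat (nat_lit 8)), (.negSucc (nat_lit 1506430975)), (.ofNat (nat_lit 17867092808755977369539124617088)), (.ofNat (nat_lit 0)), (.ofNat (nat_lit 274878350903938113376224279168)), (.negSucc (nat_lit 1506430991)), (.negSucc (nat_lit 1506430959)), (.negSucc (nat_lit 11411747862966972766688)), (.ofNat (nat_lit 11411747862574388581345)), (.negSucc (nat_lit 11411747862966972766688)), (.ofNat (nat_lit 11411747862574388581345)), (.ofNat (nat_lit 1053392109642552192386))⟩,
    ⟨nat_lit 1, nat_lit 7, nat_lit 8, (.ofNat (nat_lit 8)), (.ofNat (nat_lit 5596984704)), (.ofNat (nat_lit 98929481511973374384678153106688)), (.ofNat (nat_lit 0)), (.ofNat (nat_lit 1521992020515343081216675251968)), (.ofNat (nat_lit 5596984688)), (.ofNat (nat_lit 5596984720)), (.ofNat (nat_lit 11411747862574388581345)), (.negSucc (nat_lit 11411786783260014171048)), (.negSucc (nat_lit 11411786783260014171048)), (.ofNat (nat_lit 11411747862574388581345)), (.ofNat (nat_lit 1053469949443466630418))⟩,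
    ⟨nat_lit 2, nat_lit 8, nat_lit 9, (.ofNat (nat_lit 8)), (.negSucc (nat_lit 88147835327)), (.ofNat (nat_lit 1168725379752239593111436322760256)), (.ofNat (nat_lit 0)), (.ofNat (nat_lit 17983982898911324689762387841216)), (.negSucc (nat_lit 88147835343)), (.negSucc (nat_lit 88147835311)), (.negSucc (nat_lit 11411786783260014171048)), (.ofNat (nat_lit 11411645674809069805282)), (.negSucc (nat_lit 11411786783260014171048)), (.ofNat (nat_lit 11411645674809069805282)), (.ofNat (nat_lit 1053343415284080257700))⟩,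
    ⟨nat_lit 0, nat_lit 9, nat_lit 10, (.ofNat (nat_lit 8)), (.negSucc (nat_lit 52443374527)), (.ofNat (nat_lit 1576172035411949573458591124705856)), (.ofNat (nat_lit 0)), (.ofNat (nat_lit 24248800544799224206940503578816)), (.negSucc (nat_lit 52443374543)), (.negSucc (nat_lit 52443374511)), (.ofNat (nat_lit 11411645674809069805282)), (.negSucc (nat_lit 11411747862966972766688)), (.negSucc (nat_lit 11411747862966972766688)), (.ofNat (nat_lit 11411645674809069805282)), (.ofNat (nat_lit 1052983357796108717446))⟩,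
    ⟨nat_lit 2, nat_lit 11, nat_lit 5, (.ofNat (nat_lit 8)), (.negSucc (nat_lit 37212464639)), (.ofNat (nat_lit 425335346168934765897107776435584)), (.ofNat (nat_lit 0)), (.ofNat (nat_lit 6543620710291304090693770833024)), (.negSucc (nat_lit 37212464655)), (.negSucc (nat_lit 37212464623)), (.negSucc (nat_lit 11411747862966972766688)), (.ofNat (nat_lit 11411747862966972766689)), (.negSucc (nat_lit 11411747862966972766688)), (.ofNat (nat_lit 11411747862966972766689)), (.ofNat (nat_lit 1053392110427720563074))⟩]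
  es := [
    ⟨nat_lit 5, nat_lit 4, (.negSucc (nat_lit 34248501375)), (.ofNat (nat_lit 5593052544)), (.negSucc (nat_lit 34248501359)), (.ofNat (nat_lit 5593052528)), (.negSucc (nat_lit 11411747862966972766688)), (.negSucc (nat_lit 175565351737953427178)), (.ofNat (nat_lit 15040732628201489020033172670336))⟩,
    ⟨nat_lit 0, nat_lit 1, (.negSucc (nat_lit 34248501375)), (.ofNat (nat_lit 8448588928)), (.negSucc (nat_lit 34248501359)), (.ofNat (nat_lit 8448588912)), (.ofNat (nat_lit 11411747862966972766689)), (.ofNat (nat_lit 175565351737953427179)), (.ofNat (nat_lit 27067261430616120797498826678912))⟩,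
    ⟨nat_lit 2, nat_lit 1, (.negSucc (nat_lit 9860594367)), (.ofNat (nat_lit 8448588928)), (.negSucc (nat_lit 9860594351)), (.ofNat (nat_lit 8448588912)), (.negSucc (nat_lit 11411747862966972766688)), (.negSucc (nat_lit 175565351737953427178)), (.ofNat (nat_lit 30033820404283518561987134027136))⟩,
    ⟨nat_lit 3, nat_lit 2, (.negSucc (nat_lit 92775684479)), (.negSucc (nat_lit 9860594367)), (.negSucc (nat_lit 92775684463)), (.negSucc (nat_lit 9860594383)), (.ofNat (nat_lit 11411747862966972766689)), (.ofNat (nat_lit 175565351737953427179)), (.ofNat (nat_lit 33496177841409923713762225082880))⟩,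
    ⟨nat_lit 3, nat_lit 6, (.negSucc (nat_lit 92775684479)), (.negSucc (nat_lit 74464141887)), (.negSucc (nat_lit 92775684463)), (.negSucc (nat_lit 74464141903)), (.negSucc (nat_lit 11411747862966972766688)), (.negSucc (nat_lit 175565351737953427178)), (.ofNat (nat_lit 919786484488750111975104119040))⟩,
    ⟨nat_lit 11, nat_lit 4, (.negSucc (nat_lit 37212464639)), (.ofNat (nat_lit 5593052544)), (.negSucc (nat_lit 37212464623)), (.ofNat (nat_lit 5593052528)), (.ofNat (nat_lit 11411747862966972766689)), (.ofNat (nat_lit 175565351737953427179)), (.ofNat (nat_lit 13076840153849058545559123283584))⟩,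
    ⟨nat_lit 6, nat_lit 5, (.negSucc (nat_lit 74464141887)), (.negSucc (nat_lit 34248501375)), (.negSucc (nat_lit 74464141871)), (.negSucc (nat_lit 34248501391)), (.ofNat (nat_lit 11411747862966972766689)), (.ofNat (nat_lit 175565351737953427179)), (.ofNat (nat_lit 27066433009351932904360967266944))⟩,
    ⟨nat_lit 7, nat_lit 8, (.negSucc (nat_lit 1506430975)), (.ofNat (nat_lit 5596984704)), (.negSucc (nat_lit 1506430959)), (.ofNat (nat_lit 5596984688)), (.ofNat (nat_lit 11411747862574388581345)), (.ofNat (nat_lit 175565351345369241835)), (.ofNat (nat_lit 539355434482925613434103360128))⟩,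
    ⟨nat_lit 9, nat_lit 8, (.negSucc (nat_lit 88147835327)), (.ofNat (nat_lit 5596984704)), (.negSucc (nat_lit 88147835311)), (.ofNat (nat_lit 5596984688)), (.negSucc (nat_lit 11411786783260014171048)), (.negSucc (nat_lit 175604272030994831538)), (.ofNat (nat_lit 2504846445029876167243515031424))⟩,
    ⟨nat_lit 9, nat_lit 10, (.negSucc (nat_lit 88147835327)), (.negSucc (nat_lit 52443374527)), (.negSucc (nat_lit 88147835311)), (.negSucc (nat_lit 52443374543)), (.ofNat (nat_lit 11411645674809069805282)), (.ofNat (nat_lit 175463163580050465772)), (.ofNat (nat_lit 33450680948295540092562344234432))⟩,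
    ⟨nat_lit 10, nat_lit 0, (.negSucc (nat_lit 52443374527)), (.negSucc (nat_lit 34248501375)), (.negSucc (nat_lit 52443374511)), (.negSucc (nat_lit 34248501391)), (.negSucc (nat_lit 11411747862966972766688)), (.negSucc (nat_lit 175565351737953427178)), (.ofNat (nat_lit 15041561049465676913171032082304))⟩,
    ⟨nat_lit 11, nat_lit 7, (.negSucc (nat_lit 37212464639)), (.negSucc (nat_lit 1506430975)), (.negSucc (nat_lit 37212464623)), (.negSucc (nat_lit 1506430991)), (.negSucc (nat_lit 11411747862966972766688)), (.negSucc (nat_lit 175565351737953427178)), (.ofNat (nat_lit 10401266733549635828418382464))⟩]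

theorem ok166 : stOK 11 11 S166 = true := by decide +kernel

def S167 : SD where
  vs := [
    ⟨nat_lit 0, nat_lit 10, nat_lit 1, (.ofNat (nat_lit 8)), (.ofNat (nat_lit 1470377344)), (.ofNat (nat_lit 1776169517630585642906807231157504)), (.ofNat (nat_lit 35718878720)), (.ofNat (nat_lit 407632787027927217303560952485376)), (.ofNat (nat_lit 1470377328)), (.ofNat (nat_lit 1470377360)), (.negSucc (nat_lit 11411747862966972766688)), (.ofNat (nat_lit 11411747862966972766689)), (.negSucc (nat_lit 11411747862966972766688)), (.ofNat (nat_lit 11411747862966972766689)), (.ofNat (nat_lit 0))⟩,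
    ⟨nat_lit 1, nat_lit 1, nat_lit 2, (.ofNat (nat_lit 8)), (.ofNat (nat_lit 44167729792)), (.ofNat (nat_lit 2263420938183397286109745138162176)), (.ofNat (nat_lit 35719140864)), (.ofNat (nat_lit 407635778549159006917669903406592)), (.ofNat (nat_lit 44167729776)), (.ofNat (nat_lit 44167729808)), (.ofNat (nat_lit 11411747862966972766689)), (.negSucc (nat_lit 11411747862966972766688)), (.negSucc (nat_lit 11411747862966972766688)), (.ofNat (nat_lit 11411747862966972766689)), (.ofNat (nat_lit 0))⟩,
    ⟨nat_lit 0, nat_lit 3, nat_lit 2, (.ofNat (nat_lit 8)), (.ofNat (nat_lit 25858022208)), (.ofNat (nat_lit 2472366704576659460117512184031552)), (.ofNat (nat_lit 35718616576)), (.ofNat (nat_lit 407641761591622586145887805249024)), (.ofNat (nat_lit 25858022192)), (.ofNat (nat_lit 25858022224)), (.ofNat (nat_lit 11411747862966972766689)), (.negSucc (nat_lit 11411747862966972766688)), (.negSucc (nat_lit 11411747862966972766688)), (.ofNat (nat_lit 11411747862966972766689)), (.ofNat (nat_lit 0))⟩,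
    ⟨nat_lit 2, nat_lit 4, nat_lit 3, (.ofNat (nat_lit 8)), (.negSucc (nat_lit 92776733055)), (.ofNat (nat_lit 1118536789719097637026409697430656)), (.negSucc (nat_lit 1048575)), (.ofNat (nat_lit 17949127390737684653705527296)), (.negSucc (nat_lit 92776733071)), (.negSucc (nat_lit 92776733039)), (.negSucc (nat_lit 11411747862966972766688)), (.ofNat (nat_lit 11411747862966972766689)), (.negSucc (nat_lit 11411747862966972766688)), (.ofNat (nat_lit 11411747862966972766689)), (.ofNat (nat_lit 0))⟩,
    ⟨nat_lit 1, nat_lit 5, nat_lit 0, (.ofNat (nat_lit 8)), (.ofNat (nat_lit 5593314688)), (.ofNat (nat_lit 913830089980338164728400641483008)), (.ofNat (nat_lit 262144)), (.ofNat (nat_lit 8974563695368842326852763648)), (.ofNat (nat_lit 5593314672)), (.ofNat (nat_lit 5593314704)), (.ofNat (nat_lit 11411747862966972766689)), (.negSucc (nat_lit 11411747862966972766688)), (.negSucc (nat_lit 11411747862966972766688)), (.ofNat (nat_lit 11411747862966972766689)), (.ofNat (nat_lit 0))⟩,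
    ⟨nat_lit 0, nat_lit 6, nat_lit 0, (.ofNat (nat_lit 8)), (.negSucc (nat_lit 34248501375)), (.ofNat (nat_lit 1368494849305413371005720965775104)), (.ofNat (nat_lit 0)), (.ofNat (nat_lit 11966084927158456435803684864)), (.negSucc (nat_lit 34248501391)), (.negSucc (nat_lit 34248501359)), (.ofNat (nat_lit 11411747862966972766689)), (.negSucc (nat_lit 11411747862966972766688)), (.negSucc (nat_lit 11411747862966972766688)), (.ofNat (nat_lit 11411747862966972766689)), (.ofNat (nat_lit 0))⟩,
    ⟨nat_lit 0, nat_lit 4, nat_lit 6, (.ofNat (nat_lit 8)), (.negSucc (nat_lit 74464404031)), (.ofNat (nat_lit 909561108113517566877553142349120)), (.negSucc (nat_lit 262143)), (.ofNat (nat_lit 8974563695368842326852763648)), (.negSucc (nat_lit 74464404047)), (.negSucc (nat_lit 74464404015)), (.negSucc (nat_lit 11411747862966972766688)), (.ofNat (nat_lit 11411747862966972766689)), (.negSucc (nat_lit 11411747862966972766688)), (.ofNat (nat_lit 11411747862966972766689)), (.ofNat (nat_lit 0))⟩,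
    ⟨nat_lit 0, nat_lit 11, nat_lit 7, (.ofNat (nat_lit 8)), (.negSucc (nat_lit 1506430975)), (.ofNat (nat_lit 17867092808755977369539124617088)), (.ofNat (nat_lit 0)), (.ofNat (nat_lit 0)), (.negSucc (nat_lit 1506430991)), (.negSucc (nat_lit 1506430959)), (.negSucc (nat_lit 11411747862966972766688)), (.ofNat (nat_lit 11411747862574388581345)), (.negSucc (nat_lit 11411747862966972766688)), (.ofNat (nat_lit 11411747862574388581345)), (.ofNat (nat_lit 0))⟩,
    ⟨nat_lit 1, nat_lit 7, nat_lit 8, (.ofNat (nat_lit 8)), (.ofNat (nat_lit 41316387712)), (.ofNat (nat_lit 506550302440950560500933598792448)), (.ofNat (nat_lit 35719403008)), (.ofNat (nat_lit 407620820928977186116255445685760)), (.ofNat (nat_lit 41316387696)), (.ofNat (nat_lit 41316387728)), (.ofNat (nat_lit 11411747862574388581345)), (.negSucc (nat_lit 11411786783260014171048)), (.negSucc (nat_lit 11411786783260014171048)), (.ofNat (nat_lit 11411747862574388581345)), (.ofNat (nat_lit 0))⟩,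
    ⟨nat_lit 2, nat_lit 8, nat_lit 9, (.ofNat (nat_lit 8)), (.negSucc (nat_lit 52429480895)), (.ofNat (nat_lit 1576358166806954822880311190322240)), (.ofNat (nat_lit 35718354432)), (.ofNat (nat_lit 407632787054715229768874867561984)), (.negSucc (nat_lit 52429480911)), (.negSucc (nat_lit 52429480879)), (.negSucc (nat_lit 11411786783260014171048)), (.ofNat (nat_lit 11411645674809069805282)), (.negSucc (nat_lit 11411786783260014171048)), (.ofNat (nat_lit 11411645674809069805282)), (.ofNat (nat_lit 0))⟩,
    ⟨nat_lit 0, nat_lit 9, nat_lit 10, (.ofNat (nat_lit 8)), (.negSucc (nat_lit 16724757951)), (.ofNat (nat_lit 1983807813961108580376261028112448)), (.ofNat (nat_lit 35718616576)), (.ofNat (nat_lit 407635778549159006917669903406592)), (.negSucc (nat_lit 16724757967)), (.negSucc (nat_lit 16724757935)), (.ofNat (nat_lit 11411645674809069805282)), (.negSucc (nat_lit 11411747862966972766688)), (.negSucc (nat_lit 11411747862966972766688)), (.ofNat (nat_lit 11411645674809069805282)), (.ofNat (nat_lit 0))⟩,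
    ⟨nat_lit 2, nat_lit 11, nat_lit 5, (.ofNat (nat_lit 8)), (.negSucc (nat_lit 37212726783)), (.ofNat (nat_lit 425338337690166555511216727356800)), (.negSucc (nat_lit 262143)), (.ofNat (nat_lit 2991521231789614108950921216)), (.negSucc (nat_lit 37212726799)), (.negSucc (nat_lit 37212726767)), (.negSucc (nat_lit 11411747862966972766688)), (.ofNat (nat_lit 11411747862966972766689)), (.negSucc (nat_lit 11411747862966972766688)), (.ofNat (nat_lit 11411747862966972766689)), (.ofNat (nat_lit 0))⟩]
  es := [
    ⟨nat_lit 5, nat_lit 4, (.negSucc (nat_lit 34248501375)), (.ofNat (nat_lit 5593314688)), (.negSucc (nat_lit 34248501359)), (.ofNat (nat_lit 5593314672)), (.negSucc (nat_lit 11411747862966972766688)), (.ofNat (nat_lit 0)), (.ofNat (nat_lit 11966084927158456435803684864))⟩,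
    ⟨nat_lit 0, nat_lit 1, (.ofNat (nat_lit 1470377344)), (.ofNat (nat_lit 44167729792)), (.ofNat (nat_lit 1470377360)), (.ofNat (nat_lit 44167729776)), (.ofNat (nat_lit 11411747862966972766689)), (.ofNat (nat_lit 0)), (.ofNat (nat_lit 17949127390737684653705527296))⟩,
    ⟨nat_lit 2, nat_lit 1, (.ofNat (nat_lit 25858022208)), (.ofNat (nat_lit 44167729792)), (.ofNat (nat_lit 25858022224)), (.ofNat (nat_lit 44167729776)), (.negSucc (nat_lit 11411747862966972766688)), (.ofNat (nat_lit 0)), (.ofNat (nat_lit 815253607970927276150686101285888))⟩,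
    ⟨nat_lit 3, nat_lit 2, (.negSucc (nat_lit 92776733055)), (.ofNat (nat_lit 25858022208)), (.negSucc (nat_lit 92776733039)), (.ofNat (nat_lit 25858022192)), (.ofNat (nat_lit 11411747862966972766689)), (.ofNat (nat_lit 0)), (.ofNat (nat_lit 29915212317896141089509212160))⟩,
    ⟨nat_lit 3, nat_lit 6, (.negSucc (nat_lit 92776733055)), (.negSucc (nat_lit 74464404031)), (.negSucc (nat_lit 92776733039)), (.negSucc (nat_lit 74464404047)), (.negSucc (nat_lit 11411747862966972766688)), (.ofNat (nat_lit 0)), (.ofNat (nat_lit 5983042463579228217901842432))⟩,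
    ⟨nat_lit 11, nat_lit 4, (.negSucc (nat_lit 37212726783)), (.ofNat (nat_lit 5593314688)), (.negSucc (nat_lit 37212726767)), (.ofNat (nat_lit 5593314672)), (.ofNat (nat_lit 11411747862966972766689)), (.ofNat (nat_lit 0)), (.ofNat (nat_lit 5983042463579228217901842432))⟩,
    ⟨nat_lit 6, nat_lit 5, (.negSucc (nat_lit 74464404031)), (.negSucc (nat_lit 34248501375)), (.negSucc (nat_lit 74464404015)), (.negSucc (nat_lit 34248501391)), (.ofNat (nat_lit 11411747862966972766689)), (.ofNat (nat_lit 0)), (.ofNat (nat_lit 11966084927158456435803684864))⟩,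
    ⟨nat_lit 7, nat_lit 8, (.negSucc (nat_lit 1506430975)), (.ofNat (nat_lit 41316387712)), (.negSucc (nat_lit 1506430959)), (.ofNat (nat_lit 41316387696)), (.ofNat (nat_lit 11411747862574388581345)), (.ofNat (nat_lit 0)), (.ofNat (nat_lit 0))⟩,
    ⟨nat_lit 9, nat_lit 8, (.negSucc (nat_lit 52429480895)), (.ofNat (nat_lit 41316387712)), (.negSucc (nat_lit 52429480879)), (.ofNat (nat_lit 41316387696)), (.negSucc (nat_lit 11411786783260014171048)), (.ofNat (nat_lit 0)), (.ofNat (nat_lit 815243032081609580343745722801152))⟩,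
    ⟨nat_lit 9, nat_lit 10, (.negSucc (nat_lit 52429480895)), (.negSucc (nat_lit 16724757951)), (.negSucc (nat_lit 52429480879)), (.negSucc (nat_lit 16724757967)), (.ofNat (nat_lit 11411645674809069805282)), (.ofNat (nat_lit 0)), (.ofNat (nat_lit 27582189485060535583165852160))⟩,
    ⟨nat_lit 10, nat_lit 0, (.negSucc (nat_lit 16724757951)), (.ofNat (nat_lit 1470377344)), (.negSucc (nat_lit 16724757935)), (.ofNat (nat_lit 1470377328)), (.negSucc (nat_lit 11411747862966972766688)), (.ofNat (nat_lit 0)), (.ofNat (nat_lit 815247624928463696922468199443456))⟩,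
    ⟨nat_lit 11, nat_lit 7, (.negSucc (nat_lit 37212726783)), (.negSucc (nat_lit 1506430975)), (.negSucc (nat_lit 37212726767)), (.negSucc (nat_lit 1506430991)), (.negSucc (nat_lit 11411747862966972766688)), (.ofNat (nat_lit 0)), (.ofNat (nat_lit 0))⟩]

theorem ok167 : stOK 11 11 S167 = true := by decide +kernel

def S168 : SD where
  vs := [
    ⟨nat_lit 0, nat_lit 10, nat_lit 1, (.ofNat (nat_lit 8)), (.ofNat (nat_lit 1470377344)), (.ofNat (nat_lit 1803922166343563543577145840232448)), (.ofNat (nat_lit 0)), (.ofNat (nat_lit 27752648712977900670338609074944)), (.ofNat (nat_lit 1470377328)), (.ofNat (nat_lit 1470377360)), (.negSucc (nat_lit 11590056423325831716167)), (.ofNat (nat_lit 11590056423325831716168)), (.negSucc (nat_lit 11590056423325831716167)), (.ofNat (nat_lit 11590056423325831716168)), (.ofNat (nat_lit 1069851362153153696874))⟩,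
    ⟨nat_lit 1, nat_lit 1, nat_lit 2, (.ofNat (nat_lit 8)), (.ofNat (nat_lit 44167729792)), (.ofNat (nat_lit 2298786890342512868705107636211712)), (.ofNat (nat_lit 0)), (.ofNat (nat_lit 35365952159115582595362498049536)), (.ofNat (nat_lit 44167729776)), (.ofNat (nat_lit 44167729808)), (.ofNat (nat_lit 11590056423325831716168)), (.negSucc (nat_lit 11590056423325831716167)), (.negSucc (nat_lit 11590056423325831716167)), (.ofNat (nat_lit 11590056423325831716168)), (.ofNat (nat_lit 1069851362153153696874))⟩,
    ⟨nat_lit 0, nat_lit 3, nat_lit 2, (.ofNat (nat_lit 8)), (.ofNat (nat_lit 25858022208)), (.ofNat (nat_lit 2510997434335669764181736601229824)), (.ofNat (nat_lit 0)), (.ofNat (nat_lit 38630729759010304064224417198272)), (.ofNat (nat_lit 25858022192)), (.ofNat (nat_lit 25858022224)), (.ofNat (nat_lit 11590056423325831716168)), (.negSucc (nat_lit 11590056423325831716167)), (.negSucc (nat_lit 11590056423325831716167)), (.ofNat (nat_lit 11590056423325831716168)), (.ofNat (nat_lit 1069851362153153696874))⟩,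
    ⟨nat_lit 2, nat_lit 4, nat_lit 3, (.ofNat (nat_lit 8)), (.negSucc (nat_lit 92776733055)), (.ofNat (nat_lit 1136013927058458537604896809321472)), (.ofNat (nat_lit 0)), (.ofNat (nat_lit 17477137339360900578487111890816)), (.negSucc (nat_lit 92776733071)), (.negSucc (nat_lit 92776733039)), (.negSucc (nat_lit 11590056423325831716167)), (.ofNat (nat_lit 11590056423325831716168)), (.negSucc (nat_lit 11590056423325831716167)), (.ofNat (nat_lit 11590056423325831716168)), (.ofNat (nat_lit 1069851362153153696874))⟩,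
    ⟨nat_lit 1, nat_lit 5, nat_lit 0, (.ofNat (nat_lit 8)), (.ofNat (nat_lit 5593314688)), (.ofNat (nat_lit 928108685136280948552240611280896)), (.ofNat (nat_lit 0)), (.ofNat (nat_lit 14278595155942783823839969797888)), (.ofNat (nat_lit 5593314672)), (.ofNat (nat_lit 5593314704)), (.ofNat (nat_lit 11590056423325831716168)), (.negSucc (nat_lit 11590056423325831716167)), (.negSucc (nat_lit 11590056423325831716167)), (.ofNat (nat_lit 11590056423325831716168)), (.ofNat (nat_lit 1069851362153153696874))⟩,
    ⟨nat_lit 0, nat_lit 6, nat_lit 0, (.ofNat (nat_lit 8)), (.negSucc (nat_lit 34248501375)), (.ofNat (nat_lit 1389877581325810454927623522203648)), (.ofNat (nat_lit 0)), (.ofNat (nat_lit 21382732020397083921902556428544)), (.negSucc (nat_lit 34248501391)), (.negSucc (nat_lit 34248501359)), (.ofNat (nat_lit 11590056423325831716168)), (.negSucc (nat_lit 11590056423325831716167)), (.negSucc (nat_lit 11590056423325831716167)), (.ofNat (nat_lit 11590056423325831716168)), (.ofNat (nat_lit 1069851362153153696874))⟩,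
    ⟨nat_lit 0, nat_lit 4, nat_lit 6, (.ofNat (nat_lit 8)), (.negSucc (nat_lit 74464404031)), (.ofNat (nat_lit 923773000427791278859973812861440)), (.ofNat (nat_lit 0)), (.ofNat (nat_lit 14211892314273711982420670512320)), (.negSucc (nat_lit 74464404047)), (.negSucc (nat_lit 74464404015)), (.negSucc (nat_lit 11590056423325831716167)), (.ofNat (nat_lit 11590056423325831716168)), (.negSucc (nat_lit 11590056423325831716167)), (.ofNat (nat_lit 11590056423325831716168)), (.ofNat (nat_lit 1069851362153153696874))⟩,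
    ⟨nat_lit 0, nat_lit 11, nat_lit 7, (.ofNat (nat_lit 8)), (.negSucc (nat_lit 1506430975)), (.ofNat (nat_lit 18146266133892789515937366137856)), (.ofNat (nat_lit 0)), (.ofNat (nat_lit 279173325136812146398241520768)), (.negSucc (nat_lit 1506430991)), (.negSucc (nat_lit 1506430959)), (.negSucc (nat_lit 11590056423325831716167)), (.ofNat (nat_lit 11590056423325831716168)), (.negSucc (nat_lit 11590056423325831716167)), (.ofNat (nat_lit 11590056423325831716168)), (.ofNat (nat_lit 1069851362938322067562))⟩,
    ⟨nat_lit 1, nat_lit 7, nat_lit 8, (.ofNat (nat_lit 8)), (.ofNat (nat_lit 41316387712)), (.ofNat (nat_lit 514465150933664655044199508285440)), (.ofNat (nat_lit 0)), (.ofNat (nat_lit 7914848492714094543265909492992)), (.ofNat (nat_lit 41316387696)), (.ofNat (nat_lit 41316387728)), (.ofNat (nat_lit 11590056423325831716168)), (.negSucc (nat_lit 11590056423325831716167)), (.negSucc (nat_lit 11590056423325831716167)), (.ofNat (nat_lit 11590056423325831716168)), (.ofNat (nat_lit 1069773523137407629530))⟩,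
    ⟨nat_lit 2, nat_lit 8, nat_lit 9, (.ofNat (nat_lit 8)), (.negSucc (nat_lit 52429480895)), (.ofNat (nat_lit 1600985057554074501480403985539584)), (.ofNat (nat_lit 0)), (.ofNat (nat_lit 24626890747119678600092795217344)), (.negSucc (nat_lit 52429480911)), (.negSucc (nat_lit 52429480879)), (.negSucc (nat_lit 11590056423325831716167)), (.ofNat (nat_lit 11590056423325831716168)), (.negSucc (nat_lit 11590056423325831716167)), (.ofNat (nat_lit 11590056423325831716168)), (.ofNat (nat_lit 1069900057296794002248))⟩,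
    ⟨nat_lit 0, nat_lit 9, nat_lit 10, (.ofNat (nat_lit 8)), (.negSucc (nat_lit 16724757951)), (.ofNat (nat_lit 2014804811054250901944550470898176)), (.ofNat (nat_lit 0)), (.ofNat (nat_lit 30996997093142321568289442785728)), (.negSucc (nat_lit 16724757967)), (.negSucc (nat_lit 16724757935)), (.ofNat (nat_lit 11590056423325831716168)), (.negSucc (nat_lit 11590056423325831716167)), (.negSucc (nat_lit 11590056423325831716167)), (.ofNat (nat_lit 11590056423325831716168)), (.ofNat (nat_lit 1070260114784765542502))⟩,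
    ⟨nat_lit 2, nat_lit 11, nat_lit 5, (.ofNat (nat_lit 8)), (.negSucc (nat_lit 37212726783)), (.ofNat (nat_lit 431984249216575407941060270361600)), (.ofNat (nat_lit 0)), (.ofNat (nat_lit 6645911526408852429843543004800)), (.negSucc (nat_lit 37212726799)), (.negSucc (nat_lit 37212726767)), (.negSucc (nat_lit 11590056423325831716167)), (.ofNat (nat_lit 11590056423325831716168)), (.negSucc (nat_lit 11590056423325831716167)), (.ofNat (nat_lit 11590056423325831716168)), (.ofNat (nat_lit 1069851362153153696874))⟩]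
  es := [
    ⟨nat_lit 5, nat_lit 4, (.negSucc (nat_lit 34248501375)), (.ofNat (nat_lit 5593314688)), (.negSucc (nat_lit 34248501359)), (.ofNat (nat_lit 5593314672)), (.negSucc (nat_lit 11590056423325831716167)), (.negSucc (nat_lit 178308560358858949478)), (.ofNat (nat_lit 15275931045594124136881110445440))⟩,
    ⟨nat_lit 0, nat_lit 1, (.ofNat (nat_lit 1470377344)), (.ofNat (nat_lit 44167729792)), (.ofNat (nat_lit 1470377360)), (.ofNat (nat_lit 44167729776)), (.ofNat (nat_lit 11590056423325831716168)), (.ofNat (nat_lit 178308560358858949479)), (.ofNat (nat_lit 27490467845584977961333046871168))⟩,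
    ⟨nat_lit 2, nat_lit 1, (.ofNat (nat_lit 25858022208)), (.ofNat (nat_lit 44167729792)), (.ofNat (nat_lit 25858022224)), (.ofNat (nat_lit 44167729776)), (.negSucc (nat_lit 11590056423325831716167)), (.negSucc (nat_lit 178308560358858949478)), (.ofNat (nat_lit 43241436472646187229391949227904))⟩,
    ⟨nat_lit 3, nat_lit 2, (.negSucc (nat_lit 92776733055)), (.ofNat (nat_lit 25858022208)), (.negSucc (nat_lit 92776733039)), (.ofNat (nat_lit 25858022192)), (.ofNat (nat_lit 11590056423325831716168)), (.ofNat (nat_lit 178308560358858949479)), (.ofNat (nat_lit 34020023045374420899056885168640))⟩,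
    ⟨nat_lit 3, nat_lit 6, (.negSucc (nat_lit 92776733055)), (.negSucc (nat_lit 74464404031)), (.negSucc (nat_lit 92776733039)), (.negSucc (nat_lit 74464404047)), (.negSucc (nat_lit 11590056423325831716167)), (.negSucc (nat_lit 178308560358858949478)), (.ofNat (nat_lit 934251633347380257917338612992))⟩,
    ⟨nat_lit 11, nat_lit 4, (.negSucc (nat_lit 37212726783)), (.ofNat (nat_lit 5593314688)), (.negSucc (nat_lit 37212726767)), (.ofNat (nat_lit 5593314672)), (.ofNat (nat_lit 11590056423325831716168)), (.ofNat (nat_lit 178308560358858949479)), (.ofNat (nat_lit 13281259266291443510798829150336))⟩,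
    ⟨nat_lit 6, nat_lit 5, (.negSucc (nat_lit 74464404031)), (.negSucc (nat_lit 34248501375)), (.negSucc (nat_lit 74464404015)), (.negSucc (nat_lit 34248501391)), (.ofNat (nat_lit 11590056423325831716168)), (.ofNat (nat_lit 178308560358858949479)), (.ofNat (nat_lit 27489532995200043706924002411648))⟩,
    ⟨nat_lit 7, nat_lit 8, (.negSucc (nat_lit 1506430975)), (.ofNat (nat_lit 41316387712)), (.negSucc (nat_lit 1506430959)), (.ofNat (nat_lit 41316387696)), (.ofNat (nat_lit 11590056423325831716168)), (.ofNat (nat_lit 178308560751443134823)), (.ofNat (nat_lit 547782864338763921398152998016))⟩,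
    ⟨nat_lit 9, nat_lit 8, (.negSucc (nat_lit 52429480895)), (.ofNat (nat_lit 41316387712)), (.negSucc (nat_lit 52429480879)), (.ofNat (nat_lit 41316387696)), (.negSucc (nat_lit 11590056423325831716167)), (.negSucc (nat_lit 178269640065817545118)), (.ofNat (nat_lit 15280306058952101435654566670720))⟩,
    ⟨nat_lit 9, nat_lit 10, (.negSucc (nat_lit 52429480895)), (.negSucc (nat_lit 16724757951)), (.negSucc (nat_lit 52429480879)), (.negSucc (nat_lit 16724757967)), (.ofNat (nat_lit 11590056423325831716168)), (.ofNat (nat_lit 178410748516761910886)), (.ofNat (nat_lit 33980873678120307542670786651200))⟩,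
    ⟨nat_lit 10, nat_lit 0, (.negSucc (nat_lit 16724757951)), (.ofNat (nat_lit 1470377344)), (.negSucc (nat_lit 16724757935)), (.ofNat (nat_lit 1470377328)), (.negSucc (nat_lit 11590056423325831716167)), (.negSucc (nat_lit 178308560358858949478)), (.ofNat (nat_lit 28014829580370823379344171278720))⟩,
    ⟨nat_lit 11, nat_lit 7, (.negSucc (nat_lit 37212726783)), (.negSucc (nat_lit 1506430975)), (.negSucc (nat_lit 37212726767)), (.negSucc (nat_lit 1506430991)), (.negSucc (nat_lit 11590056423325831716167)), (.negSucc (nat_lit 178308560358858949478)), (.ofNat (nat_lit 10563786526261348888256859264))⟩]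

theorem ok168 : stOK 11 11 S168 = true := by decide +kernel

def S169 : SD where
  vs := [
    ⟨nat_lit 0, nat_lit 10, nat_lit 1, (.ofNat (nat_lit 8)), (.ofNat (nat_lit 41686279936)), (.ofNat (nat_lit 2270044976082325326512918738605056)), (.ofNat (nat_lit 40215902592)), (.ofNat (nat_lit 466122809738761782935772898372608)), (.ofNat (nat_lit 41686279920)), (.ofNat (nat_lit 41686279952)), (.negSucc (nat_lit 11590056423325831716167)), (.ofNat (nat_lit 11590056423325831716168)), (.negSucc (nat_lit 11590056423325831716167)), (.ofNat (nat_lit 11590056423325831716168)), (.ofNat (nat_lit 0))⟩,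
    ⟨nat_lit 1, nat_lit 1, nat_lit 2, (.ofNat (nat_lit 8)), (.ofNat (nat_lit 84383894528)), (.ofNat (nat_lit 2764912738345025687967709937728512)), (.ofNat (nat_lit 40216164736)), (.ofNat (nat_lit 466125848002512819262602301516800)), (.ofNat (nat_lit 84383894512)), (.ofNat (nat_lit 84383894544)), (.ofNat (nat_lit 11590056423325831716168)), (.negSucc (nat_lit 11590056423325831716167)), (.negSucc (nat_lit 11590056423325831716167)), (.ofNat (nat_lit 11590056423325831716168)), (.ofNat (nat_lit 0))⟩,
    ⟨nat_lit 0, nat_lit 3, nat_lit 2, (.ofNat (nat_lit 8)), (.ofNat (nat_lit 66073662656)), (.ofNat (nat_lit 2977129358865684656097997709035008)), (.ofNat (nat_lit 40215640448)), (.ofNat (nat_lit 466131924530014891916261107805184)), (.ofNat (nat_lit 66073662640)), (.ofNat (nat_lit 66073662672)), (.ofNat (nat_lit 11590056423325831716168)), (.negSucc (nat_lit 11590056423325831716167)), (.negSucc (nat_lit 11590056423325831716167)), (.ofNat (nat_lit 11590056423325831716168)), (.ofNat (nat_lit 0))⟩,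
    ⟨nat_lit 2, nat_lit 4, nat_lit 3, (.ofNat (nat_lit 8)), (.negSucc (nat_lit 52561879039)), (.ofNat (nat_lit 1602136736797220320540669707694080)), (.ofNat (nat_lit 40214854016)), (.ofNat (nat_lit 466122809738761782935772898372608)), (.negSucc (nat_lit 52561879055)), (.negSucc (nat_lit 52561879023)), (.negSucc (nat_lit 11590056423325831716167)), (.ofNat (nat_lit 11590056423325831716168)), (.negSucc (nat_lit 11590056423325831716167)), (.ofNat (nat_lit 11590056423325831716168)), (.ofNat (nat_lit 0))⟩,
    ⟨nat_lit 1, nat_lit 5, nat_lit 0, (.ofNat (nat_lit 8)), (.ofNat (nat_lit 5593314688)), (.ofNat (nat_lit 928114761663783021205899417569280)), (.ofNat (nat_lit 0)), (.ofNat (nat_lit 6076527502072653658806288384)), (.ofNat (nat_lit 5593314672)), (.ofNat (nat_lit 5593314704)), (.ofNat (nat_lit 11590056423325831716168)), (.negSucc (nat_lit 11590056423325831716167)), (.negSucc (nat_lit 11590056423325831716167)), (.ofNat (nat_lit 11590056423325831716168)), (.ofNat (nat_lit 0))⟩,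
    ⟨nat_lit 0, nat_lit 6, nat_lit 0, (.ofNat (nat_lit 8)), (.negSucc (nat_lit 34248763519)), (.ofNat (nat_lit 1389886696117063563908111731636224)), (.negSucc (nat_lit 262143)), (.ofNat (nat_lit 9114791253108980488209432576)), (.negSucc (nat_lit 34248763535)), (.negSucc (nat_lit 34248763503)), (.ofNat (nat_lit 11590056423325831716168)), (.negSucc (nat_lit 11590056423325831716167)), (.negSucc (nat_lit 11590056423325831716167)), (.ofNat (nat_lit 11590056423325831716168)), (.ofNat (nat_lit 0))⟩,
    ⟨nat_lit 0, nat_lit 4, nat_lit 6, (.ofNat (nat_lit 8)), (.negSucc (nat_lit 34248763583)), (.ofNat (nat_lit 1389886695375299952815258501801472)), (.ofNat (nat_lit 40215640448)), (.ofNat (nat_lit 466113694947508673955284688940032)), (.negSucc (nat_lit 34248763599)), (.negSucc (nat_lit 34248763567)), (.negSucc (nat_lit 11590056423325831716167)), (.ofNat (nat_lit 11590056423325831716168)), (.negSucc (nat_lit 11590056423325831716167)), (.ofNat (nat_lit 11590056423325831716168)), (.ofNat (nat_lit 0))⟩,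
    ⟨nat_lit 0, nat_lit 11, nat_lit 7, (.ofNat (nat_lit 8)), (.negSucc (nat_lit 1506430975)), (.ofNat (nat_lit 18146266133892789515937366137856)), (.ofNat (nat_lit 0)), (.ofNat (nat_lit 0)), (.negSucc (nat_lit 1506430991)), (.negSucc (nat_lit 1506430959)), (.negSucc (nat_lit 11590056423325831716167)), (.ofNat (nat_lit 11590056423325831716168)), (.negSucc (nat_lit 11590056423325831716167)), (.ofNat (nat_lit 11590056423325831716168)), (.ofNat (nat_lit 0))⟩,
    ⟨nat_lit 1, nat_lit 7, nat_lit 8, (.ofNat (nat_lit 8)), (.ofNat (nat_lit 81532814592)), (.ofNat (nat_lit 980575807617422292672654794081280)), (.ofNat (nat_lit 40216426880)), (.ofNat (nat_lit 466110656683757637628455285795840)), (.ofNat (nat_lit 81532814576)), (.ofNat (nat_lit 81532814608)), (.ofNat (nat_lit 11590056423325831716168)), (.negSucc (nat_lit 11590056423325831716167)), (.negSucc (nat_lit 11590056423325831716167)), (.ofNat (nat_lit 11590056423325831716168)), (.ofNat (nat_lit 0))⟩,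
    ⟨nat_lit 2, nat_lit 8, nat_lit 9, (.ofNat (nat_lit 8)), (.negSucc (nat_lit 12214102591)), (.ofNat (nat_lit 2067107867292836284416176883912192)), (.ofNat (nat_lit 40215378304)), (.ofNat (nat_lit 466122809738761782935772898372608)), (.negSucc (nat_lit 12214102607)), (.negSucc (nat_lit 12214102575)), (.negSucc (nat_lit 11590056423325831716167)), (.ofNat (nat_lit 11590056423325831716168)), (.negSucc (nat_lit 11590056423325831716167)), (.ofNat (nat_lit 11590056423325831716168)), (.ofNat (nat_lit 0))⟩,
    ⟨nat_lit 0, nat_lit 9, nat_lit 10, (.ofNat (nat_lit 8)), (.ofNat (nat_lit 23490882496)), (.ofNat (nat_lit 2480930659056763721207152772414976)), (.ofNat (nat_lit 40215640448)), (.ofNat (nat_lit 466125848002512819262602301516800)), (.ofNat (nat_lit 23490882480)), (.ofNat (nat_lit 23490882512)), (.ofNat (nat_lit 11590056423325831716168)), (.negSucc (nat_lit 11590056423325831716167)), (.negSucc (nat_lit 11590056423325831716167)), (.ofNat (nat_lit 11590056423325831716168)), (.ofNat (nat_lit 0))⟩,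
    ⟨nat_lit 2, nat_lit 11, nat_lit 5, (.ofNat (nat_lit 8)), (.negSucc (nat_lit 37212988927)), (.ofNat (nat_lit 431987287480326444267889673505792)), (.negSucc (nat_lit 262143)), (.ofNat (nat_lit 3038263751036326829403144192)), (.negSucc (nat_lit 37212988943)), (.negSucc (nat_lit 37212988911)), (.negSucc (nat_lit 11590056423325831716167)), (.ofNat (nat_lit 11590056423325831716168)), (.negSucc (nat_lit 11590056423325831716167)), (.ofNat (nat_lit 11590056423325831716168)), (.ofNat (nat_lit 0))⟩]
  es := [
    ⟨nat_lit 5, nat_lit 4, (.negSucc (nat_lit 34248763519)), (.ofNat (nat_lit 5593314688)), (.negSucc (nat_lit 34248763503)), (.ofNat (nat_lit 5593314672)), (.negSucc (nat_lit 11590056423325831716167)), (.ofNat (nat_lit 0)), (.ofNat (nat_lit 6076527502072653658806288384))⟩,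
    ⟨nat_lit 0, nat_lit 1, (.ofNat (nat_lit 41686279936)), (.ofNat (nat_lit 84383894528)), (.ofNat (nat_lit 41686279952)), (.ofNat (nat_lit 84383894512)), (.ofNat (nat_lit 11590056423325831716168)), (.ofNat (nat_lit 0)), (.ofNat (nat_lit 18229582506217960976418865152))⟩,
    ⟨nat_lit 2, nat_lit 1, (.ofNat (nat_lit 66073662656)), (.ofNat (nat_lit 84383894528)), (.ofNat (nat_lit 66073662672)), (.ofNat (nat_lit 84383894512)), (.negSucc (nat_lit 11590056423325831716167)), (.ofNat (nat_lit 0)), (.ofNat (nat_lit 932233466422519420564228184168448))⟩,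
    ⟨nat_lit 3, nat_lit 2, (.negSucc (nat_lit 52561879039)), (.ofNat (nat_lit 66073662656)), (.negSucc (nat_lit 52561879023)), (.ofNat (nat_lit 66073662640)), (.ofNat (nat_lit 11590056423325831716168)), (.ofNat (nat_lit 0)), (.ofNat (nat_lit 30382637510363268294031441920))⟩,
    ⟨nat_lit 3, nat_lit 6, (.negSucc (nat_lit 52561879039)), (.negSucc (nat_lit 34248763583)), (.negSucc (nat_lit 52561879023)), (.negSucc (nat_lit 34248763599)), (.negSucc (nat_lit 11590056423325831716167)), (.ofNat (nat_lit 0)), (.ofNat (nat_lit 932215236840013202603251765303296))⟩,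
    ⟨nat_lit 11, nat_lit 4, (.negSucc (nat_lit 37212988927)), (.ofNat (nat_lit 5593314688)), (.negSucc (nat_lit 37212988911)), (.ofNat (nat_lit 5593314672)), (.ofNat (nat_lit 11590056423325831716168)), (.ofNat (nat_lit 0)), (.ofNat (nat_lit 6076527502072653658806288384))⟩,
    ⟨nat_lit 6, nat_lit 5, (.negSucc (nat_lit 34248763583)), (.negSucc (nat_lit 34248763519)), (.negSucc (nat_lit 34248763567)), (.negSucc (nat_lit 34248763535)), (.ofNat (nat_lit 11590056423325831716168)), (.ofNat (nat_lit 0)), (.ofNat (nat_lit 12153055004145307317612576768))⟩,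
    ⟨nat_lit 7, nat_lit 8, (.negSucc (nat_lit 1506430975)), (.ofNat (nat_lit 81532814592)), (.negSucc (nat_lit 1506430959)), (.ofNat (nat_lit 81532814576)), (.ofNat (nat_lit 11590056423325831716168)), (.ofNat (nat_lit 0)), (.ofNat (nat_lit 0))⟩,
    ⟨nat_lit 9, nat_lit 8, (.negSucc (nat_lit 12214102591)), (.ofNat (nat_lit 81532814592)), (.negSucc (nat_lit 12214102575)), (.ofNat (nat_lit 81532814576)), (.negSucc (nat_lit 11590056423325831716167)), (.ofNat (nat_lit 0)), (.ofNat (nat_lit 932221313367515275256910571591680))⟩,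
    ⟨nat_lit 9, nat_lit 10, (.negSucc (nat_lit 12214102591)), (.ofNat (nat_lit 23490882496)), (.negSucc (nat_lit 12214102575)), (.ofNat (nat_lit 23490882480)), (.ofNat (nat_lit 11590056423325831716168)), (.ofNat (nat_lit 0)), (.ofNat (nat_lit 24306110008290614635225153536))⟩,
    ⟨nat_lit 10, nat_lit 0, (.ofNat (nat_lit 23490882496)), (.ofNat (nat_lit 41686279936)), (.ofNat (nat_lit 23490882512)), (.ofNat (nat_lit 41686279920)), (.negSucc (nat_lit 11590056423325831716167)), (.ofNat (nat_lit 0)), (.ofNat (nat_lit 932227389895017347910569377880064))⟩,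
    ⟨nat_lit 11, nat_lit 7, (.negSucc (nat_lit 37212988927)), (.negSucc (nat_lit 1506430975)), (.negSucc (nat_lit 37212988911)), (.negSucc (nat_lit 1506430991)), (.negSucc (nat_lit 11590056423325831716167)), (.ofNat (nat_lit 0)), (.ofNat (nat_lit 0))⟩]

theorem ok169 : stOK 11 11 S169 = true := by decide +kernel

def S170 : SD where
  vs := [
    ⟨nat_lit 0, nat_lit 10, nat_lit 1, (.ofNat (nat_lit 8)), (.ofNat (nat_lit 41686279936)), (.ofNat (nat_lit 2305515791202751862121063799229184)), (.ofNat (nat_lit 0)), (.ofNat (nat_lit 35470815120426535608145060624128)), (.ofNat (nat_lit 41686279920)), (.ofNat (nat_lit 41686279952)), (.negSucc (nat_lit 11771158010721073420301)), (.ofNat (nat_lit 11771158010721073420302)), (.negSucc (nat_lit 11771158010721073420301)), (.ofNat (nat_lit 11771158010721073420302)), (.ofNat (nat_lit 1086609524371450224804))⟩,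
    ⟨nat_lit 1, nat_lit 1, nat_lit 2, (.ofNat (nat_lit 8)), (.ofNat (nat_lit 84383894528)), (.ofNat (nat_lit 2808116159246053659033653823475968)), (.ofNat (nat_lit 0)), (.ofNat (nat_lit 43203420901027971065943885747456)), (.ofNat (nat_lit 84383894512)), (.ofNat (nat_lit 84383894544)), (.ofNat (nat_lit 11771158010721073420302)), (.negSucc (nat_lit 11771158010721073420301)), (.negSucc (nat_lit 11771158010721073420301)), (.ofNat (nat_lit 11771158010721073420302)), (.ofNat (nat_lit 1086609524371450224804))⟩,
    ⟨nat_lit 0, nat_lit 3, nat_lit 2, (.ofNat (nat_lit 8)), (.ofNat (nat_lit 66073662656)), (.ofNat (nat_lit 3023648791824306775276119555741312)), (.ofNat (nat_lit 0)), (.ofNat (nat_lit 46519432958622119178121846706304)), (.ofNat (nat_lit 66073662640)), (.ofNat (nat_lit 66073662672)), (.ofNat (nat_lit 11771158010721073420302)), (.negSucc (nat_lit 11771158010721073420301)), (.negSucc (nat_lit 11771158010721073420301)), (.ofNat (nat_lit 11771158010721073420302)), (.ofNat (nat_lit 1086609524371450224804))⟩,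
    ⟨nat_lit 2, nat_lit 4, nat_lit 3, (.ofNat (nat_lit 8)), (.negSucc (nat_lit 52561879039)), (.ofNat (nat_lit 1627171084833202454496004301829120)), (.ofNat (nat_lit 0)), (.ofNat (nat_lit 25034348035982133955334594135040)), (.negSucc (nat_lit 52561879055)), (.negSucc (nat_lit 52561879023)), (.negSucc (nat_lit 11771157777532115662254)), (.ofNat (nat_lit 11771158010721073420302)), (.negSucc (nat_lit 11771157777532115662254)), (.ofNat (nat_lit 11771158010721073420302)), (.ofNat (nat_lit 1086608591615619192616))⟩,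
    ⟨nat_lit 1, nat_lit 5, nat_lit 0, (.ofNat (nat_lit 8)), (.ofNat (nat_lit 5593314688)), (.ofNat (nat_lit 942617123877968342415861759492480)), (.ofNat (nat_lit 0)), (.ofNat (nat_lit 14502362214185321209962341923200)), (.ofNat (nat_lit 5593314672)), (.ofNat (nat_lit 5593314704)), (.ofNat (nat_lit 11771158292325411333087)), (.negSucc (nat_lit 11771157777532115662254)), (.negSucc (nat_lit 11771157777532115662254)), (.ofNat (nat_lit 11771158292325411333087)), (.ofNat (nat_lit 1086610184410886359850))⟩,
    ⟨nat_lit 0, nat_lit 6, nat_lit 0, (.ofNat (nat_lit 8)), (.negSucc (nat_lit 34248763519)), (.ofNat (nat_lit 1411604512649110359863127183131520)), (.ofNat (nat_lit 0)), (.ofNat (nat_lit 21717816532046795955015451495296)), (.negSucc (nat_lit 34248763535)), (.negSucc (nat_lit 34248763503)), (.negSucc (nat_lit 11771157777532115662254)), (.negSucc (nat_lit 11771157777532115662254)), (.negSucc (nat_lit 11771157777532115662254)), (.negSucc (nat_lit 11771157777532115662254)), (.ofNat (nat_lit 93082654095019221621518))⟩,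
    ⟨nat_lit 0, nat_lit 4, nat_lit 6, (.ofNat (nat_lit 8)), (.negSucc (nat_lit 34248763583)), (.ofNat (nat_lit 1411604513402464457625182585515840)), (.ofNat (nat_lit 0)), (.ofNat (nat_lit 21717818027164504809924083714368)), (.negSucc (nat_lit 34248763599)), (.negSucc (nat_lit 34248763567)), (.negSucc (nat_lit 11771157777532115662254)), (.negSucc (nat_lit 11771157777532115662254)), (.negSucc (nat_lit 11771157777532115662254)), (.negSucc (nat_lit 11771157777532115662254)), (.ofNat (nat_lit 46722428401715894756846))⟩,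
    ⟨nat_lit 0, nat_lit 11, nat_lit 7, (.ofNat (nat_lit 8)), (.negSucc (nat_lit 1506430975)), (.ofNat (nat_lit 18429812432729656829992114608384)), (.ofNat (nat_lit 0)), (.ofNat (nat_lit 283546298836867314054748470528)), (.negSucc (nat_lit 1506430991)), (.negSucc (nat_lit 1506430959)), (.negSucc (nat_lit 11771158010721073420301)), (.ofNat (nat_lit 11771158010721073420302)), (.negSucc (nat_lit 11771158010721073420301)), (.ofNat (nat_lit 11771158010721073420302)), (.ofNat (nat_lit 1086609524371450224804))⟩,
    ⟨nat_lit 1, nat_lit 7, nat_lit 8, (.ofNat (nat_lit 8)), (.ofNat (nat_lit 81532814592)), (.ofNat (nat_lit 995897893104727249331007569329920)), (.ofNat (nat_lit 0)), (.ofNat (nat_lit 15322085487304956658352775248640)), (.ofNat (nat_lit 81532814576)), (.ofNat (nat_lit 81532814608)), (.ofNat (nat_lit 11771158010721073420302)), (.negSucc (nat_lit 11771158010721073420301)), (.negSucc (nat_lit 11771158010721073420301)), (.ofNat (nat_lit 11771158010721073420302)), (.ofNat (nat_lit 1086609524371450224804))⟩,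
    ⟨nat_lit 2, nat_lit 8, nat_lit 9, (.ofNat (nat_lit 8)), (.negSucc (nat_lit 12214102591)), (.ofNat (nat_lit 2099407668295573903387642787599488)), (.ofNat (nat_lit 0)), (.ofNat (nat_lit 32299801002737618971465903687296)), (.negSucc (nat_lit 12214102607)), (.negSucc (nat_lit 12214102575)), (.negSucc (nat_lit 11771158010721073420301)), (.ofNat (nat_lit 11771158010721073420302)), (.negSucc (nat_lit 11771158010721073420301)), (.ofNat (nat_lit 11771158010721073420302)), (.ofNat (nat_lit 1086609524371450224804))⟩,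
    ⟨nat_lit 0, nat_lit 9, nat_lit 10, (.ofNat (nat_lit 8)), (.ofNat (nat_lit 23490882496)), (.ofNat (nat_lit 2519696689536861573986878854056064)), (.ofNat (nat_lit 0)), (.ofNat (nat_lit 38766030480097852779726081641088)), (.ofNat (nat_lit 23490882480)), (.ofNat (nat_lit 23490882512)), (.ofNat (nat_lit 11771158010721073420302)), (.negSucc (nat_lit 11771158010721073420301)), (.negSucc (nat_lit 11771158010721073420301)), (.ofNat (nat_lit 11771158010721073420302)), (.ofNat (nat_lit 1086609524371450224804))⟩,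
    ⟨nat_lit 2, nat_lit 11, nat_lit 5, (.ofNat (nat_lit 8)), (.negSucc (nat_lit 37212988927)), (.ofNat (nat_lit 438737348104690702219652330949888)), (.ofNat (nat_lit 0)), (.ofNat (nat_lit 6750060624364257951762657444096)), (.negSucc (nat_lit 37212988943)), (.negSucc (nat_lit 37212988911)), (.negSucc (nat_lit 11771158010721073420301)), (.ofNat (nat_lit 11771158292325411333087)), (.negSucc (nat_lit 11771158010721073420301)), (.ofNat (nat_lit 11771158292325411333087)), (.ofNat (nat_lit 1086610087580126050374))⟩]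
  es := [
    ⟨nat_lit 5, nat_lit 4, (.negSucc (nat_lit 34248763519)), (.ofNat (nat_lit 5593314688)), (.negSucc (nat_lit 34248763503)), (.ofNat (nat_lit 5593314672)), (.negSucc (nat_lit 11771157777532115662254)), (.negSucc (nat_lit 181101354206283946086)), (.ofNat (nat_lit 15515319078684019787509359149056))⟩,
    ⟨nat_lit 0, nat_lit 1, (.ofNat (nat_lit 41686279936)), (.ofNat (nat_lit 84383894528)), (.ofNat (nat_lit 41686279952)), (.ofNat (nat_lit 84383894512)), (.ofNat (nat_lit 11771158010721073420302)), (.ofNat (nat_lit 181101587395241704134)), (.ofNat (nat_lit 27921363651414520855233448168704))⟩,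
    ⟨nat_lit 2, nat_lit 1, (.ofNat (nat_lit 66073662656)), (.ofNat (nat_lit 84383894528)), (.ofNat (nat_lit 66073662672)), (.ofNat (nat_lit 84383894512)), (.negSucc (nat_lit 11771158010721073420301)), (.negSucc (nat_lit 181101587395241704133)), (.ofNat (nat_lit 58485478150641421276654323326208))⟩,
    ⟨nat_lit 3, nat_lit 2, (.negSucc (nat_lit 52561879039)), (.ofNat (nat_lit 66073662656)), (.negSucc (nat_lit 52561879023)), (.ofNat (nat_lit 66073662640)), (.ofNat (nat_lit 11771158010721073420302)), (.ofNat (nat_lit 181101587395241704134)), (.ofNat (nat_lit 34553387766602817079589370086400))⟩,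
    ⟨nat_lit 3, nat_lit 6, (.negSucc (nat_lit 52561879039)), (.negSucc (nat_lit 34248763583)), (.negSucc (nat_lit 52561879023)), (.negSucc (nat_lit 34248763599)), (.negSucc (nat_lit 11771157777532115662254)), (.negSucc (nat_lit 181101354206283946086)), (.ofNat (nat_lit 15515320562211241973215818818560))⟩,
    ⟨nat_lit 11, nat_lit 4, (.negSucc (nat_lit 37212988927)), (.ofNat (nat_lit 5593314688)), (.negSucc (nat_lit 37212988911)), (.ofNat (nat_lit 5593314672)), (.ofNat (nat_lit 11771158292325411333087)), (.ofNat (nat_lit 181101868999579616919)), (.ofNat (nat_lit 13489402470285720672823885916928))⟩,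
    ⟨nat_lit 6, nat_lit 5, (.negSucc (nat_lit 34248763583)), (.negSucc (nat_lit 34248763519)), (.negSucc (nat_lit 34248763567)), (.negSucc (nat_lit 34248763535)), (.negSucc (nat_lit 11771157777532115662254)), (.negSucc (nat_lit 23361214200857947378422)), (.negSucc (nat_lit 778374884173202824921197826033663))⟩,
    ⟨nat_lit 7, nat_lit 8, (.negSucc (nat_lit 1506430975)), (.ofNat (nat_lit 81532814592)), (.negSucc (nat_lit 1506430959)), (.ofNat (nat_lit 81532814576)), (.ofNat (nat_lit 11771158010721073420302)), (.ofNat (nat_lit 181101587395241704134)), (.ofNat (nat_lit 556363339891830572169233325312))⟩,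
    ⟨nat_lit 9, nat_lit 8, (.negSucc (nat_lit 12214102591)), (.ofNat (nat_lit 81532814592)), (.negSucc (nat_lit 12214102575)), (.ofNat (nat_lit 81532814576)), (.negSucc (nat_lit 11771158010721073420301)), (.negSucc (nat_lit 181101587395241704133)), (.ofNat (nat_lit 30087807634718082744536317171968))⟩,
    ⟨nat_lit 9, nat_lit 10, (.negSucc (nat_lit 12214102591)), (.ofNat (nat_lit 23490882496)), (.negSucc (nat_lit 12214102575)), (.ofNat (nat_lit 23490882480)), (.ofNat (nat_lit 11771158010721073420302)), (.ofNat (nat_lit 181101587395241704134)), (.ofNat (nat_lit 34511794370757155198395490202624))⟩,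
    ⟨nat_lit 10, nat_lit 0, (.ofNat (nat_lit 23490882496)), (.ofNat (nat_lit 41686279936)), (.ofNat (nat_lit 23490882512)), (.ofNat (nat_lit 41686279920)), (.negSucc (nat_lit 11771158010721073420301)), (.negSucc (nat_lit 181101587395241704133)), (.ofNat (nat_lit 43020266589438550361056673079552))⟩,
    ⟨nat_lit 11, nat_lit 7, (.negSucc (nat_lit 37212988927)), (.negSucc (nat_lit 1506430975)), (.negSucc (nat_lit 37212988911)), (.negSucc (nat_lit 1506430991)), (.negSucc (nat_lit 11771158010721073420301)), (.negSucc (nat_lit 181101587395241704133)), (.ofNat (nat_lit 10729257781904055940263615744))⟩]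

theorem ok170 : stOK 11 11 S170 = true := by decide +kernel

def S171 : SD where
  vs := [
    ⟨nat_lit 0, nat_lit 10, nat_lit 1, (.ofNat (nat_lit 8)), (.ofNat (nat_lit 56529570816)), (.ofNat (nat_lit 2480257027981000288234867032559872)), (.ofNat (nat_lit 14843290880)), (.ofNat (nat_lit 174741236778248426113803233330688)), (.ofNat (nat_lit 56529570800)), (.ofNat (nat_lit 56529570832)), (.negSucc (nat_lit 11771158010721073420301)), (.ofNat (nat_lit 11771158010721073420302)), (.negSucc (nat_lit 11771158010721073420301)), (.ofNat (nat_lit 11771158010721073420302)), (.ofNat (nat_lit 0))⟩,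
    ⟨nat_lit 1, nat_lit 1, nat_lit 2, (.ofNat (nat_lit 8)), (.ofNat (nat_lit 104564649344)), (.ofNat (nat_lit 3045685527391483315883527152035328)), (.ofNat (nat_lit 20180754816)), (.ofNat (nat_lit 237569368145429656849873328559360)), (.ofNat (nat_lit 104564649328)), (.ofNat (nat_lit 104564649360)), (.ofNat (nat_lit 11771158010721073420302)), (.negSucc (nat_lit 11771158010721073420301)), (.negSucc (nat_lit 11771158010721073420301)), (.ofNat (nat_lit 11771158010721073420302)), (.ofNat (nat_lit 0))⟩,
    ⟨nat_lit 0, nat_lit 3, nat_lit 2, (.ofNat (nat_lit 8)), (.ofNat (nat_lit 86253893184)), (.ofNat (nat_lit 3261224331446627557056134267595648)), (.ofNat (nat_lit 20180230528)), (.ofNat (nat_lit 237575539622320781780014711854336)), (.ofNat (nat_lit 86253893168)), (.ofNat (nat_lit 86253893200)), (.ofNat (nat_lit 11771158010721073420302)), (.negSucc (nat_lit 11771158010721073420301)), (.negSucc (nat_lit 11771158010721073420301)), (.ofNat (nat_lit 11771158010721073420302)), (.ofNat (nat_lit 0))⟩,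
    ⟨nat_lit 2, nat_lit 4, nat_lit 3, (.ofNat (nat_lit 8)), (.negSucc (nat_lit 47211877503)), (.ofNat (nat_lit 1690177655655514526412895691887872)), (.ofNat (nat_lit 5350001536)), (.ofNat (nat_lit 63006570822312071916891390058752)), (.negSucc (nat_lit 47211877519)), (.negSucc (nat_lit 47211877487)), (.negSucc (nat_lit 11771157777532115662254)), (.ofNat (nat_lit 11771158010721073420302)), (.negSucc (nat_lit 11771157777532115662254)), (.ofNat (nat_lit 11771158010721073420302)), (.ofNat (nat_lit 0))⟩,
    ⟨nat_lit 1, nat_lit 5, nat_lit 0, (.ofNat (nat_lit 8)), (.ofNat (nat_lit 10944364736)), (.ofNat (nat_lit 1005611352500096778579095887236672)), (.ofNat (nat_lit 5351050048)), (.ofNat (nat_lit 62994228622128436163234127744192)), (.ofNat (nat_lit 10944364720)), (.ofNat (nat_lit 10944364752)), (.ofNat (nat_lit 11771158292325411333087)), (.negSucc (nat_lit 11771157777532115662254)), (.negSucc (nat_lit 11771157777532115662254)), (.ofNat (nat_lit 11771158292325411333087)), (.ofNat (nat_lit 0))⟩,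
    ⟨nat_lit 0, nat_lit 6, nat_lit 0, (.ofNat (nat_lit 8)), (.negSucc (nat_lit 28897975615)), (.ofNat (nat_lit 1474601827009623229405289477050432)), (.ofNat (nat_lit 5350787904)), (.ofNat (nat_lit 62997314360512869542162293918912)), (.negSucc (nat_lit 28897975631)), (.negSucc (nat_lit 28897975599)), (.negSucc (nat_lit 11771157777532115662254)), (.negSucc (nat_lit 11771157777532115662254)), (.negSucc (nat_lit 11771157777532115662254)), (.negSucc (nat_lit 11771157777532115662254)), (.ofNat (nat_lit 0))⟩,
    ⟨nat_lit 0, nat_lit 4, nat_lit 6, (.ofNat (nat_lit 8)), (.negSucc (nat_lit 28897975679)), (.ofNat (nat_lit 1474601827762977327167344879434752)), (.ofNat (nat_lit 5350787904)), (.ofNat (nat_lit 62997314360512869542162293918912)), (.negSucc (nat_lit 28897975695)), (.negSucc (nat_lit 28897975663)), (.negSucc (nat_lit 11771157777532115662254)), (.negSucc (nat_lit 11771157777532115662254)), (.negSucc (nat_lit 11771157777532115662254)), (.negSucc (nat_lit 11771157777532115662254)), (.ofNat (nat_lit 0))⟩,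
    ⟨nat_lit 0, nat_lit 11, nat_lit 7, (.ofNat (nat_lit 8)), (.negSucc (nat_lit 1506430975)), (.ofNat (nat_lit 18429812432729656829992114608384)), (.ofNat (nat_lit 0)), (.ofNat (nat_lit 0)), (.negSucc (nat_lit 1506430991)), (.negSucc (nat_lit 1506430959)), (.negSucc (nat_lit 11771158010721073420301)), (.ofNat (nat_lit 11771158010721073420302)), (.negSucc (nat_lit 11771158010721073420301)), (.ofNat (nat_lit 11771158010721073420302)), (.ofNat (nat_lit 0))⟩,
    ⟨nat_lit 1, nat_lit 7, nat_lit 8, (.ofNat (nat_lit 8)), (.ofNat (nat_lit 91913506624)), (.ofNat (nat_lit 1118090659274032466759623527763584)), (.ofNat (nat_lit 10380692032)), (.ofNat (nat_lit 122192766169305217428615958433664)), (.ofNat (nat_lit 91913506608)), (.ofNat (nat_lit 91913506640)), (.ofNat (nat_lit 11771158010721073420302)), (.negSucc (nat_lit 11771158010721073420301)), (.negSucc (nat_lit 11771158010721073420301)), (.ofNat (nat_lit 11771158010721073420302)), (.ofNat (nat_lit 0))⟩,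
    ⟨nat_lit 2, nat_lit 8, nat_lit 9, (.ofNat (nat_lit 8)), (.negSucc (nat_lit 1834459135)), (.ofNat (nat_lit 2221612777418661370676541512623104)), (.ofNat (nat_lit 10379643456)), (.ofNat (nat_lit 122205109123087467288898725023616)), (.negSucc (nat_lit 1834459151)), (.negSucc (nat_lit 1834459119)), (.negSucc (nat_lit 11771158010721073420301)), (.ofNat (nat_lit 11771158010721073420302)), (.negSucc (nat_lit 11771158010721073420301)), (.ofNat (nat_lit 11771158010721073420302)), (.ofNat (nat_lit 0))⟩,
    ⟨nat_lit 0, nat_lit 9, nat_lit 10, (.ofNat (nat_lit 8)), (.ofNat (nat_lit 38333911232)), (.ofNat (nat_lit 2694441012053555562565752779034240)), (.ofNat (nat_lit 14843028736)), (.ofNat (nat_lit 174744322516693988578873924978176)), (.ofNat (nat_lit 38333911216)), (.ofNat (nat_lit 38333911248)), (.ofNat (nat_lit 11771158010721073420302)), (.negSucc (nat_lit 11771158010721073420301)), (.negSucc (nat_lit 11771158010721073420301)), (.ofNat (nat_lit 11771158010721073420302)), (.ofNat (nat_lit 0))⟩,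
    ⟨nat_lit 2, nat_lit 11, nat_lit 5, (.ofNat (nat_lit 8)), (.negSucc (nat_lit 37213251071)), (.ofNat (nat_lit 438740433843136264684723022597376)), (.negSucc (nat_lit 262143)), (.ofNat (nat_lit 3085738445562465070691647488)), (.negSucc (nat_lit 37213251087)), (.negSucc (nat_lit 37213251055)), (.negSucc (nat_lit 11771158010721073420301)), (.ofNat (nat_lit 11771158292325411333087)), (.negSucc (nat_lit 11771158010721073420301)), (.ofNat (nat_lit 11771158292325411333087)), (.ofNat (nat_lit 0))⟩]
  es := [
    ⟨nat_lit 5, nat_lit 4, (.negSucc (nat_lit 28897975615)), (.ofNat (nat_lit 10944364736)), (.negSucc (nat_lit 28897975599)), (.ofNat (nat_lit 10944364720)), (.negSucc (nat_lit 11771157777532115662254)), (.ofNat (nat_lit 0)), (.ofNat (nat_lit 125982283012607236999285297282432))⟩,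
    ⟨nat_lit 0, nat_lit 1, (.ofNat (nat_lit 56529570816)), (.ofNat (nat_lit 104564649344)), (.ofNat (nat_lit 56529570832)), (.ofNat (nat_lit 104564649328)), (.ofNat (nat_lit 11771158010721073420302)), (.ofNat (nat_lit 0)), (.ofNat (nat_lit 18514430673374790424149884928))⟩,
    ⟨nat_lit 2, nat_lit 1, (.ofNat (nat_lit 86253893184)), (.ofNat (nat_lit 104564649344)), (.ofNat (nat_lit 86253893200)), (.ofNat (nat_lit 104564649328)), (.negSucc (nat_lit 11771158010721073420301)), (.ofNat (nat_lit 0)), (.ofNat (nat_lit 475120221860185938909322507233792))⟩,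
    ⟨nat_lit 3, nat_lit 2, (.negSucc (nat_lit 47211877503)), (.ofNat (nat_lit 86253893184)), (.negSucc (nat_lit 47211877487)), (.ofNat (nat_lit 86253893168)), (.ofNat (nat_lit 11771158010721073420302)), (.ofNat (nat_lit 0)), (.ofNat (nat_lit 30857384455624650706916474880))⟩,
    ⟨nat_lit 3, nat_lit 6, (.negSucc (nat_lit 47211877503)), (.negSucc (nat_lit 28897975679)), (.negSucc (nat_lit 47211877487)), (.negSucc (nat_lit 28897975695)), (.negSucc (nat_lit 11771157777532115662254)), (.ofNat (nat_lit 0)), (.ofNat (nat_lit 125982283012607236999285297282432))⟩,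
    ⟨nat_lit 11, nat_lit 4, (.negSucc (nat_lit 37213251071)), (.ofNat (nat_lit 10944364736)), (.negSucc (nat_lit 37213251055)), (.ofNat (nat_lit 10944364720)), (.ofNat (nat_lit 11771158292325411333087)), (.ofNat (nat_lit 0)), (.ofNat (nat_lit 6171476964945817699192406016))⟩,
    ⟨nat_lit 6, nat_lit 5, (.negSucc (nat_lit 28897975679)), (.negSucc (nat_lit 28897975615)), (.negSucc (nat_lit 28897975663)), (.negSucc (nat_lit 28897975631)), (.negSucc (nat_lit 11771157777532115662254)), (.ofNat (nat_lit 0)), (.ofNat (nat_lit 125982283012607236999285297282432))⟩,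
    ⟨nat_lit 7, nat_lit 8, (.negSucc (nat_lit 1506430975)), (.ofNat (nat_lit 91913506624)), (.negSucc (nat_lit 1506430959)), (.ofNat (nat_lit 91913506608)), (.ofNat (nat_lit 11771158010721073420302)), (.ofNat (nat_lit 0)), (.ofNat (nat_lit 0))⟩,
    ⟨nat_lit 9, nat_lit 8, (.negSucc (nat_lit 1834459135)), (.ofNat (nat_lit 91913506624)), (.negSucc (nat_lit 1834459119)), (.ofNat (nat_lit 91913506608)), (.negSucc (nat_lit 11771158010721073420301)), (.ofNat (nat_lit 0)), (.ofNat (nat_lit 244385532338610434857231916867328))⟩,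
    ⟨nat_lit 9, nat_lit 10, (.negSucc (nat_lit 1834459135)), (.ofNat (nat_lit 38333911232)), (.negSucc (nat_lit 1834459119)), (.ofNat (nat_lit 38333911216)), (.ofNat (nat_lit 11771158010721073420302)), (.ofNat (nat_lit 0)), (.ofNat (nat_lit 24685907564499720565533179904))⟩,
    ⟨nat_lit 10, nat_lit 0, (.ofNat (nat_lit 38333911232)), (.ofNat (nat_lit 56529570816)), (.ofNat (nat_lit 38333911248)), (.ofNat (nat_lit 56529570800)), (.negSucc (nat_lit 11771158010721073420301)), (.ofNat (nat_lit 0)), (.ofNat (nat_lit 349463959125823477437182316776448))⟩,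
    ⟨nat_lit 11, nat_lit 7, (.negSucc (nat_lit 37213251071)), (.negSucc (nat_lit 1506430975)), (.negSucc (nat_lit 37213251055)), (.negSucc (nat_lit 1506430991)), (.negSucc (nat_lit 11771158010721073420301)), (.ofNat (nat_lit 0)), (.ofNat (nat_lit 0))⟩]

theorem ok171 : stOK 11 11 S171 = true := by decide +kernel

def S172 : SD where
  vs := [
    ⟨nat_lit 0, nat_lit 9, nat_lit 1, (.ofNat (nat_lit 8)), (.ofNat (nat_lit 56529570816)), (.ofNat (nat_lit 2480257027981000288234867032559872)), (.ofNat (nat_lit 14843290880)), (.ofNat (nat_lit 174741236778248426113803233330688)), (.ofNat (nat_lit 56529570800)), (.ofNat (nat_lit 56529570832)), (.negSucc (nat_lit 11771158010721073420301)), (.ofNat (nat_lit 11771158010721073420302)), (.negSucc (nat_lit 11771158010721073420301)), (.ofNat (nat_lit 11771158010721073420302)), (.ofNat (nat_lit 0))⟩,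
    ⟨nat_lit 1, nat_lit 1, nat_lit 2, (.ofNat (nat_lit 8)), (.ofNat (nat_lit 104564649344)), (.ofNat (nat_lit 3045685527391483315883527152035328)), (.ofNat (nat_lit 20180754816)), (.ofNat (nat_lit 237569368145429656849873328559360)), (.ofNat (nat_lit 104564649328)), (.ofNat (nat_lit 104564649360)), (.ofNat (nat_lit 11771158010721073420302)), (.negSucc (nat_lit 11771158010721073420301)), (.negSucc (nat_lit 11771158010721073420301)), (.ofNat (nat_lit 11771158010721073420302)), (.ofNat (nat_lit 0))⟩,
    ⟨nat_lit 0, nat_lit 3, nat_lit 2, (.ofNat (nat_lit 8)), (.ofNat (nat_lit 86253893184)), (.ofNat (nat_lit 3261224331446627557056134267595648)), (.ofNat (nat_lit 20180230528)), (.ofNat (nat_lit 237575539622320781780014711854336)), (.ofNat (nat_lit 86253893168)), (.ofNat (nat_lit 86253893200)), (.ofNat (nat_lit 11771158010721073420302)), (.negSucc (nat_lit 11771158010721073420301)), (.negSucc (nat_lit 11771158010721073420301)), (.ofNat (nat_lit 11771158010721073420302)), (.ofNat (nat_lit 0))⟩,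
    ⟨nat_lit 2, nat_lit 4, nat_lit 3, (.ofNat (nat_lit 8)), (.negSucc (nat_lit 47211877503)), (.ofNat (nat_lit 1690177655655514526412895691887872)), (.ofNat (nat_lit 5350001536)), (.ofNat (nat_lit 63006570822312071916891390058752)), (.negSucc (nat_lit 47211877519)), (.negSucc (nat_lit 47211877487)), (.negSucc (nat_lit 11771157777532115662254)), (.ofNat (nat_lit 11771158010721073420302)), (.negSucc (nat_lit 11771157777532115662254)), (.ofNat (nat_lit 11771158010721073420302)), (.ofNat (nat_lit 0))⟩,
    ⟨nat_lit 1, nat_lit 5, nat_lit 0, (.ofNat (nat_lit 8)), (.ofNat (nat_lit 10944364736)), (.ofNat (nat_lit 1005611352500096778579095887236672)), (.ofNat (nat_lit 5351050048)), (.ofNat (nat_lit 62994228622128436163234127744192)), (.ofNat (nat_lit 10944364720)), (.ofNat (nat_lit 10944364752)), (.ofNat (nat_lit 11771158292325411333087)), (.negSucc (nat_lit 11771157777532115662254)), (.negSucc (nat_lit 11771157777532115662254)), (.ofNat (nat_lit 11771158292325411333087)), (.ofNat (nat_lit 0))⟩,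
    ⟨nat_lit 0, nat_lit 4, nat_lit 0, (.ofNat (nat_lit 8)), (.negSucc (nat_lit 28897975615)), (.ofNat (nat_lit 1474601827009623229405289477050432)), (.ofNat (nat_lit 5350787904)), (.ofNat (nat_lit 62997314360512869542162293918912)), (.negSucc (nat_lit 28897975631)), (.negSucc (nat_lit 28897975599)), (.negSucc (nat_lit 11771157777532115662254)), (.negSucc (nat_lit 11771157777532115662254)), (.negSucc (nat_lit 11771157777532115662254)), (.negSucc (nat_lit 11771157777532115662254)), (.ofNat (nat_lit 0))⟩,
    ⟨nat_lit 0, nat_lit 10, nat_lit 6, (.ofNat (nat_lit 8)), (.negSucc (nat_lit 1506430975)), (.ofNat (nat_lit 18429812432729656829992114608384)), (.ofNat (nat_lit 0)), (.ofNat (nat_lit 0)), (.negSucc (nat_lit 1506430991)), (.negSucc (nat_lit 1506430959)), (.negSucc (nat_lit 11771158010721073420301)), (.ofNat (nat_lit 11771158010721073420302)), (.negSucc (nat_lit 11771158010721073420301)), (.ofNat (nat_lit 11771158010721073420302)), (.ofNat (nat_lit 0))⟩,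
    ⟨nat_lit 1, nat_lit 6, nat_lit 7, (.ofNat (nat_lit 8)), (.ofNat (nat_lit 91913506624)), (.ofNat (nat_lit 1118090659274032466759623527763584)), (.ofNat (nat_lit 10380692032)), (.ofNat (nat_lit 122192766169305217428615958433664)), (.ofNat (nat_lit 91913506608)), (.ofNat (nat_lit 91913506640)), (.ofNat (nat_lit 11771158010721073420302)), (.negSucc (nat_lit 11771158010721073420301)), (.negSucc (nat_lit 11771158010721073420301)), (.ofNat (nat_lit 11771158010721073420302)), (.ofNat (nat_lit 0))⟩,
    ⟨nat_lit 2, nat_lit 7, nat_lit 8, (.ofNat (nat_lit 8)), (.negSucc (nat_lit 1834459135)), (.ofNat (nat_lit 2221612777418661370676541512623104)), (.ofNat (nat_lit 10379643456)), (.ofNat (nat_lit 122205109123087467288898725023616)), (.negSucc (nat_lit 1834459151)), (.negSucc (nat_lit 1834459119)), (.negSucc (nat_lit 11771158010721073420301)), (.ofNat (nat_lit 11771158010721073420302)), (.negSucc (nat_lit 11771158010721073420301)), (.ofNat (nat_lit 11771158010721073420302)), (.ofNat (nat_lit 0))⟩,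
    ⟨nat_lit 0, nat_lit 8, nat_lit 9, (.ofNat (nat_lit 8)), (.ofNat (nat_lit 38333911232)), (.ofNat (nat_lit 2694441012053555562565752779034240)), (.ofNat (nat_lit 14843028736)), (.ofNat (nat_lit 174744322516693988578873924978176)), (.ofNat (nat_lit 38333911216)), (.ofNat (nat_lit 38333911248)), (.ofNat (nat_lit 11771158010721073420302)), (.negSucc (nat_lit 11771158010721073420301)), (.negSucc (nat_lit 11771158010721073420301)), (.ofNat (nat_lit 11771158010721073420302)), (.ofNat (nat_lit 0))⟩,
    ⟨nat_lit 2, nat_lit 10, nat_lit 5, (.ofNat (nat_lit 8)), (.negSucc (nat_lit 37213251071)), (.ofNat (nat_lit 438740433843136264684723022597376)), (.negSucc (nat_lit 262143)), (.ofNat (nat_lit 3085738445562465070691647488)), (.negSucc (nat_lit 37213251087)), (.negSucc (nat_lit 37213251055)), (.negSucc (nat_lit 11771158010721073420301)), (.ofNat (nat_lit 11771158292325411333087)), (.negSucc (nat_lit 11771158010721073420301)), (.ofNat (nat_lit 11771158292325411333087)), (.ofNat (nat_lit 0))⟩]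
  es := [
    ⟨nat_lit 5, nat_lit 4, (.negSucc (nat_lit 28897975615)), (.ofNat (nat_lit 10944364736)), (.negSucc (nat_lit 28897975599)), (.ofNat (nat_lit 10944364720)), (.negSucc (nat_lit 11771157777532115662254)), (.ofNat (nat_lit 0)), (.ofNat (nat_lit 125982283012607236999285297282432))⟩,
    ⟨nat_lit 0, nat_lit 1, (.ofNat (nat_lit 56529570816)), (.ofNat (nat_lit 104564649344)), (.ofNat (nat_lit 56529570832)), (.ofNat (nat_lit 104564649328)), (.ofNat (nat_lit 11771158010721073420302)), (.ofNat (nat_lit 0)), (.ofNat (nat_lit 18514430673374790424149884928))⟩,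
    ⟨nat_lit 2, nat_lit 1, (.ofNat (nat_lit 86253893184)), (.ofNat (nat_lit 104564649344)), (.ofNat (nat_lit 86253893200)), (.ofNat (nat_lit 104564649328)), (.negSucc (nat_lit 11771158010721073420301)), (.ofNat (nat_lit 0)), (.ofNat (nat_lit 475120221860185938909322507233792))⟩,
    ⟨nat_lit 3, nat_lit 2, (.negSucc (nat_lit 47211877503)), (.ofNat (nat_lit 86253893184)), (.negSucc (nat_lit 47211877487)), (.ofNat (nat_lit 86253893168)), (.ofNat (nat_lit 11771158010721073420302)), (.ofNat (nat_lit 0)), (.ofNat (nat_lit 30857384455624650706916474880))⟩,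
    ⟨nat_lit 3, nat_lit 5, (.negSucc (nat_lit 47211877503)), (.negSucc (nat_lit 28897975615)), (.negSucc (nat_lit 47211877487)), (.negSucc (nat_lit 28897975631)), (.negSucc (nat_lit 11771157777532115662254)), (.ofNat (nat_lit 0)), (.ofNat (nat_lit 125982283012607236999285297282432))⟩,
    ⟨nat_lit 10, nat_lit 4, (.negSucc (nat_lit 37213251071)), (.ofNat (nat_lit 10944364736)), (.negSucc (nat_lit 37213251055)), (.ofNat (nat_lit 10944364720)), (.ofNat (nat_lit 11771158292325411333087)), (.ofNat (nat_lit 0)), (.ofNat (nat_lit 6171476964945817699192406016))⟩,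
    ⟨nat_lit 6, nat_lit 7, (.negSucc (nat_lit 1506430975)), (.ofNat (nat_lit 91913506624)), (.negSucc (nat_lit 1506430959)), (.ofNat (nat_lit 91913506608)), (.ofNat (nat_lit 11771158010721073420302)), (.ofNat (nat_lit 0)), (.ofNat (nat_lit 0))⟩,
    ⟨nat_lit 8, nat_lit 7, (.negSucc (nat_lit 1834459135)), (.ofNat (nat_lit 91913506624)), (.negSucc (nat_lit 1834459119)), (.ofNat (nat_lit 91913506608)), (.negSucc (nat_lit 11771158010721073420301)), (.ofNat (nat_lit 0)), (.ofNat (nat_lit 244385532338610434857231916867328))⟩,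
    ⟨nat_lit 8, nat_lit 9, (.negSucc (nat_lit 1834459135)), (.ofNat (nat_lit 38333911232)), (.negSucc (nat_lit 1834459119)), (.ofNat (nat_lit 38333911216)), (.ofNat (nat_lit 11771158010721073420302)), (.ofNat (nat_lit 0)), (.ofNat (nat_lit 24685907564499720565533179904))⟩,
    ⟨nat_lit 9, nat_lit 0, (.ofNat (nat_lit 38333911232)), (.ofNat (nat_lit 56529570816)), (.ofNat (nat_lit 38333911248)), (.ofNat (nat_lit 56529570800)), (.negSucc (nat_lit 11771158010721073420301)), (.ofNat (nat_lit 0)), (.ofNat (nat_lit 349463959125823477437182316776448))⟩,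
    ⟨nat_lit 10, nat_lit 6, (.negSucc (nat_lit 37213251071)), (.negSucc (nat_lit 1506430975)), (.negSucc (nat_lit 37213251055)), (.negSucc (nat_lit 1506430991)), (.negSucc (nat_lit 11771158010721073420301)), (.ofNat (nat_lit 0)), (.ofNat (nat_lit 0))⟩]

theorem ok172 : stOK 10 10 S172 = true := by decide +kernel

def S173 : SD where
  vs := [
    ⟨nat_lit 0, nat_lit 8, nat_lit 0, (.ofNat (nat_lit 8)), (.ofNat (nat_lit 56529570816)), (.ofNat (nat_lit 2480257027981000288234867032559872)), (.ofNat (nat_lit 14843290880)), (.ofNat (nat_lit 174741236778248426113803233330688)), (.ofNat (nat_lit 56529570800)), (.ofNat (nat_lit 56529570832)), (.negSucc (nat_lit 11771158010721073420301)), (.ofNat (nat_lit 11771158010721073420302)), (.negSucc (nat_lit 11771158010721073420301)), (.ofNat (nat_lit 11771158010721073420302)), (.ofNat (nat_lit 0))⟩,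
    ⟨nat_lit 1, nat_lit 0, nat_lit 1, (.ofNat (nat_lit 8)), (.ofNat (nat_lit 104564649344)), (.ofNat (nat_lit 3045685527391483315883527152035328)), (.ofNat (nat_lit 20180754816)), (.ofNat (nat_lit 237569368145429656849873328559360)), (.ofNat (nat_lit 104564649328)), (.ofNat (nat_lit 104564649360)), (.ofNat (nat_lit 11771158010721073420302)), (.negSucc (nat_lit 11771158010721073420301)), (.negSucc (nat_lit 11771158010721073420301)), (.ofNat (nat_lit 11771158010721073420302)), (.ofNat (nat_lit 0))⟩,
    ⟨nat_lit 0, nat_lit 2, nat_lit 1, (.ofNat (nat_lit 8)), (.ofNat (nat_lit 86253893184)), (.ofNat (nat_lit 3261224331446627557056134267595648)), (.ofNat (nat_lit 20180230528)), (.ofNat (nat_lit 237575539622320781780014711854336)), (.ofNat (nat_lit 86253893168)), (.ofNat (nat_lit 86253893200)), (.ofNat (nat_lit 11771158010721073420302)), (.negSucc (nat_lit 11771158010721073420301)), (.negSucc (nat_lit 11771158010721073420301)), (.ofNat (nat_lit 11771158010721073420302)), (.ofNat (nat_lit 0))⟩,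
    ⟨nat_lit 2, nat_lit 3, nat_lit 2, (.ofNat (nat_lit 8)), (.negSucc (nat_lit 47211877503)), (.ofNat (nat_lit 1690177655655514526412895691887872)), (.ofNat (nat_lit 5350001536)), (.ofNat (nat_lit 63006570822312071916891390058752)), (.negSucc (nat_lit 47211877519)), (.negSucc (nat_lit 47211877487)), (.negSucc (nat_lit 11771157777532115662254)), (.ofNat (nat_lit 11771158010721073420302)), (.negSucc (nat_lit 11771157777532115662254)), (.ofNat (nat_lit 11771158010721073420302)), (.ofNat (nat_lit 0))⟩,
    ⟨nat_lit 1, nat_lit 4, nat_lit 3, (.ofNat (nat_lit 8)), (.ofNat (nat_lit 10944364736)), (.ofNat (nat_lit 1005611352500096778579095887236672)), (.ofNat (nat_lit 5351050048)), (.ofNat (nat_lit 62994228622128436163234127744192)), (.ofNat (nat_lit 10944364720)), (.ofNat (nat_lit 10944364752)), (.ofNat (nat_lit 11771158292325411333087)), (.negSucc (nat_lit 11771157777532115662254)), (.negSucc (nat_lit 11771157777532115662254)), (.ofNat (nat_lit 11771158292325411333087)), (.ofNat (nat_lit 0))⟩,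
    ⟨nat_lit 0, nat_lit 9, nat_lit 5, (.ofNat (nat_lit 8)), (.negSucc (nat_lit 1506430975)), (.ofNat (nat_lit 18429812432729656829992114608384)), (.ofNat (nat_lit 0)), (.ofNat (nat_lit 0)), (.negSucc (nat_lit 1506430991)), (.negSucc (nat_lit 1506430959)), (.negSucc (nat_lit 11771158010721073420301)), (.ofNat (nat_lit 11771158010721073420302)), (.negSucc (nat_lit 11771158010721073420301)), (.ofNat (nat_lit 11771158010721073420302)), (.ofNat (nat_lit 0))⟩,
    ⟨nat_lit 1, nat_lit 5, nat_lit 6, (.ofNat (nat_lit 8)), (.ofNat (nat_lit 91913506624)), (.ofNat (nat_lit 1118090659274032466759623527763584)), (.ofNat (nat_lit 10380692032)), (.ofNat (nat_lit 122192766169305217428615958433664)), (.ofNat (nat_lit 91913506608)), (.ofNat (nat_lit 91913506640)), (.ofNat (nat_lit 11771158010721073420302)), (.negSucc (nat_lit 11771158010721073420301)), (.negSucc (nat_lit 11771158010721073420301)), (.ofNat (nat_lit 11771158010721073420302)), (.ofNat (nat_lit 0))⟩,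
    ⟨nat_lit 2, nat_lit 6, nat_lit 7, (.ofNat (nat_lit 8)), (.negSucc (nat_lit 1834459135)), (.ofNat (nat_lit 2221612777418661370676541512623104)), (.ofNat (nat_lit 10379643456)), (.ofNat (nat_lit 122205109123087467288898725023616)), (.negSucc (nat_lit 1834459151)), (.negSucc (nat_lit 1834459119)), (.negSucc (nat_lit 11771158010721073420301)), (.ofNat (nat_lit 11771158010721073420302)), (.negSucc (nat_lit 11771158010721073420301)), (.ofNat (nat_lit 11771158010721073420302)), (.ofNat (nat_lit 0))⟩,
    ⟨nat_lit 0, nat_lit 7, nat_lit 8, (.ofNat (nat_lit 8)), (.ofNat (nat_lit 38333911232)), (.ofNat (nat_lit 2694441012053555562565752779034240)), (.ofNat (nat_lit 14843028736)), (.ofNat (nat_lit 174744322516693988578873924978176)), (.ofNat (nat_lit 38333911216)), (.ofNat (nat_lit 38333911248)), (.ofNat (nat_lit 11771158010721073420302)), (.negSucc (nat_lit 11771158010721073420301)), (.negSucc (nat_lit 11771158010721073420301)), (.ofNat (nat_lit 11771158010721073420302)), (.ofNat (nat_lit 0))⟩,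
    ⟨nat_lit 2, nat_lit 9, nat_lit 4, (.ofNat (nat_lit 8)), (.negSucc (nat_lit 37213251071)), (.ofNat (nat_lit 438740433843136264684723022597376)), (.negSucc (nat_lit 262143)), (.ofNat (nat_lit 3085738445562465070691647488)), (.negSucc (nat_lit 37213251087)), (.negSucc (nat_lit 37213251055)), (.negSucc (nat_lit 11771158010721073420301)), (.ofNat (nat_lit 11771158292325411333087)), (.negSucc (nat_lit 11771158010721073420301)), (.ofNat (nat_lit 11771158292325411333087)), (.ofNat (nat_lit 0))⟩]
  es := [
    ⟨nat_lit 0, nat_lit 1, (.ofNat (nat_lit 56529570816)), (.ofNat (nat_lit 104564649344)), (.ofNat (nat_lit 56529570832)), (.ofNat (nat_lit 104564649328)), (.ofNat (nat_lit 11771158010721073420302)), (.ofNat (nat_lit 0)), (.ofNat (nat_lit 18514430673374790424149884928))⟩,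
    ⟨nat_lit 2, nat_lit 1, (.ofNat (nat_lit 86253893184)), (.ofNat (nat_lit 104564649344)), (.ofNat (nat_lit 86253893200)), (.ofNat (nat_lit 104564649328)), (.negSucc (nat_lit 11771158010721073420301)), (.ofNat (nat_lit 0)), (.ofNat (nat_lit 475120221860185938909322507233792))⟩,
    ⟨nat_lit 3, nat_lit 2, (.negSucc (nat_lit 47211877503)), (.ofNat (nat_lit 86253893184)), (.negSucc (nat_lit 47211877487)), (.ofNat (nat_lit 86253893168)), (.ofNat (nat_lit 11771158010721073420302)), (.ofNat (nat_lit 0)), (.ofNat (nat_lit 30857384455624650706916474880))⟩,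
    ⟨nat_lit 3, nat_lit 4, (.negSucc (nat_lit 47211877503)), (.ofNat (nat_lit 10944364736)), (.negSucc (nat_lit 47211877487)), (.ofNat (nat_lit 10944364720)), (.negSucc (nat_lit 11771157777532115662254)), (.ofNat (nat_lit 0)), (.ofNat (nat_lit 125982283012607236999285297282432))⟩,
    ⟨nat_lit 9, nat_lit 4, (.negSucc (nat_lit 37213251071)), (.ofNat (nat_lit 10944364736)), (.negSucc (nat_lit 37213251055)), (.ofNat (nat_lit 10944364720)), (.ofNat (nat_lit 11771158292325411333087)), (.ofNat (nat_lit 0)), (.ofNat (nat_lit 6171476964945817699192406016))⟩,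
    ⟨nat_lit 5, nat_lit 6, (.negSucc (nat_lit 1506430975)), (.ofNat (nat_lit 91913506624)), (.negSucc (nat_lit 1506430959)), (.ofNat (nat_lit 91913506608)), (.ofNat (nat_lit 11771158010721073420302)), (.ofNat (nat_lit 0)), (.ofNat (nat_lit 0))⟩,
    ⟨nat_lit 7, nat_lit 6, (.negSucc (nat_lit 1834459135)), (.ofNat (nat_lit 91913506624)), (.negSucc (nat_lit 1834459119)), (.ofNat (nat_lit 91913506608)), (.negSucc (nat_lit 11771158010721073420301)), (.ofNat (nat_lit 0)), (.ofNat (nat_lit 244385532338610434857231916867328))⟩,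
    ⟨nat_lit 7, nat_lit 8, (.negSucc (nat_lit 1834459135)), (.ofNat (nat_lit 38333911232)), (.negSucc (nat_lit 1834459119)), (.ofNat (nat_lit 38333911216)), (.ofNat (nat_lit 11771158010721073420302)), (.ofNat (nat_lit 0)), (.ofNat (nat_lit 24685907564499720565533179904))⟩,
    ⟨nat_lit 8, nat_lit 0, (.ofNat (nat_lit 38333911232)), (.ofNat (nat_lit 56529570816)), (.ofNat (nat_lit 38333911248)), (.ofNat (nat_lit 56529570800)), (.negSucc (nat_lit 11771158010721073420301)), (.ofNat (nat_lit 0)), (.ofNat (nat_lit 349463959125823477437182316776448))⟩,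
    ⟨nat_lit 9, nat_lit 5, (.negSucc (nat_lit 37213251071)), (.negSucc (nat_lit 1506430975)), (.negSucc (nat_lit 37213251055)), (.negSucc (nat_lit 1506430991)), (.negSucc (nat_lit 11771158010721073420301)), (.ofNat (nat_lit 0)), (.ofNat (nat_lit 0))⟩]

theorem ok173 : stOK 9 9 S173 = true := by decide +kernel

def S174 : SD where
  vs := [
    ⟨nat_lit 0, nat_lit 8, nat_lit 0, (.ofNat (nat_lit 8)), (.ofNat (nat_lit 56529570816)), (.ofNat (nat_lit 2519011044043203417738490737942784)), (.ofNat (nat_lit 0)), (.ofNat (nat_lit 38754016062203129503623705382912)), (.ofNat (nat_lit 56529570800)), (.ofNat (nat_lit 56529570832)), (.negSucc (nat_lit 11955082354638590192493)), (.ofNat (nat_lit 11955082354638590192494)), (.negSucc (nat_lit 11955082354638590192493)), (.ofNat (nat_lit 11955082354638590192494)), (.ofNat (nat_lit 1103546063505100633152))⟩,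
    ⟨nat_lit 1, nat_lit 0, nat_lit 1, (.ofNat (nat_lit 8)), (.ofNat (nat_lit 104564649344)), (.ofNat (nat_lit 3093274363756975242694150664111616)), (.ofNat (nat_lit 0)), (.ofNat (nat_lit 47588836365491926810623512076288)), (.ofNat (nat_lit 104564649328)), (.ofNat (nat_lit 104564649360)), (.ofNat (nat_lit 11955082354638590192494)), (.negSucc (nat_lit 11955082354638590192493)), (.negSucc (nat_lit 11955082354638590192493)), (.ofNat (nat_lit 11955082354638590192494)), (.ofNat (nat_lit 1103546063505100633152))⟩,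
    ⟨nat_lit 0, nat_lit 2, nat_lit 1, (.ofNat (nat_lit 8)), (.ofNat (nat_lit 86253893184)), (.ofNat (nat_lit 3312180961625481112635075760374656)), (.ofNat (nat_lit 0)), (.ofNat (nat_lit 50956630178853555578941492779008)), (.ofNat (nat_lit 86253893168)), (.ofNat (nat_lit 86253893200)), (.ofNat (nat_lit 11955082354638590192494)), (.negSucc (nat_lit 11955082354638590192493)), (.negSucc (nat_lit 11955082354638590192493)), (.ofNat (nat_lit 11955082354638590192494)), (.ofNat (nat_lit 1103546063505100633152))⟩,
    ⟨nat_lit 2, nat_lit 3, nat_lit 2, (.ofNat (nat_lit 8)), (.negSucc (nat_lit 47211877503)), (.ofNat (nat_lit 1716586681525131940888065777558784)), (.ofNat (nat_lit 0)), (.ofNat (nat_lit 26409025869617414475170085670912)), (.negSucc (nat_lit 47211877519)), (.negSucc (nat_lit 47211877487)), (.negSucc (nat_lit 11955082354638590192493)), (.ofNat (nat_lit 11955082354638590192494)), (.negSucc (nat_lit 11955082354638590192493)), (.ofNat (nat_lit 11955082354638590192494)), (.ofNat (nat_lit 1103546996260931665340))⟩,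
    ⟨nat_lit 1, nat_lit 4, nat_lit 3, (.ofNat (nat_lit 8)), (.ofNat (nat_lit 10944364736)), (.ofNat (nat_lit 1021324016109620502001296483812224)), (.ofNat (nat_lit 0)), (.ofNat (nat_lit 15712663609523723422200596575552)), (.ofNat (nat_lit 10944364720)), (.ofNat (nat_lit 10944364752)), (.ofNat (nat_lit 11955082354638590192494)), (.negSucc (nat_lit 11955082354638590192493)), (.negSucc (nat_lit 11955082354638590192493)), (.ofNat (nat_lit 11955082354638590192494)), (.ofNat (nat_lit 1103545403465664498106))⟩,
    ⟨nat_lit 0, nat_lit 9, nat_lit 5, (.ofNat (nat_lit 8)), (.negSucc (nat_lit 1506430975)), (.ofNat (nat_lit 18717778251991057717960398907648)), (.ofNat (nat_lit 0)), (.ofNat (nat_lit 287965819261400887968284299264)), (.negSucc (nat_lit 1506430991)), (.negSucc (nat_lit 1506430959)), (.negSucc (nat_lit 11955082354638590192493)), (.ofNat (nat_lit 11955082354638590192494)), (.negSucc (nat_lit 11955082354638590192493)), (.ofNat (nat_lit 11955082354638590192494)), (.ofNat (nat_lit 1103546063505100633152))⟩,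
    ⟨nat_lit 1, nat_lit 5, nat_lit 6, (.ofNat (nat_lit 8)), (.ofNat (nat_lit 91913506624)), (.ofNat (nat_lit 1135560825825189224052721867282048)), (.ofNat (nat_lit 0)), (.ofNat (nat_lit 17470166551156757293098339518464)), (.ofNat (nat_lit 91913506608)), (.ofNat (nat_lit 91913506640)), (.ofNat (nat_lit 11955082354638590192494)), (.negSucc (nat_lit 11955082354638590192493)), (.negSucc (nat_lit 11955082354638590192493)), (.ofNat (nat_lit 11955082354638590192494)), (.ofNat (nat_lit 1103546063505100633152))⟩,
    ⟨nat_lit 2, nat_lit 6, nat_lit 7, (.ofNat (nat_lit 8)), (.negSucc (nat_lit 1834459135)), (.ofNat (nat_lit 2256325477065827954593321188287488)), (.ofNat (nat_lit 0)), (.ofNat (nat_lit 34712699647166583916779675664384)), (.negSucc (nat_lit 1834459151)), (.negSucc (nat_lit 1834459119)), (.negSucc (nat_lit 11955082354638590192493)), (.ofNat (nat_lit 11955082354638590192494)), (.negSucc (nat_lit 11955082354638590192493)), (.ofNat (nat_lit 11955082354638590192494)), (.ofNat (nat_lit 1103546063505100633152))⟩,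
    ⟨nat_lit 0, nat_lit 7, nat_lit 8, (.ofNat (nat_lit 8)), (.ofNat (nat_lit 38333911232)), (.ofNat (nat_lit 2736541652866892368230792593905280)), (.ofNat (nat_lit 0)), (.ofNat (nat_lit 42100640813336805665039814871040)), (.ofNat (nat_lit 38333911216)), (.ofNat (nat_lit 38333911248)), (.ofNat (nat_lit 11955082354638590192494)), (.negSucc (nat_lit 11955082354638590192493)), (.negSucc (nat_lit 11955082354638590192493)), (.ofNat (nat_lit 11955082354638590192494)), (.ofNat (nat_lit 1103546063505100633152))⟩,
    ⟨nat_lit 2, nat_lit 9, nat_lit 4, (.ofNat (nat_lit 8)), (.negSucc (nat_lit 37213251071)), (.ofNat (nat_lit 445595753121935268820413666467072)), (.ofNat (nat_lit 0)), (.ofNat (nat_lit 6855319278799004135690643869696)), (.negSucc (nat_lit 37213251087)), (.negSucc (nat_lit 37213251055)), (.negSucc (nat_lit 11955082354638590192493)), (.ofNat (nat_lit 11955082354638590192494)), (.negSucc (nat_lit 11955082354638590192493)), (.ofNat (nat_lit 11955082354638590192494)), (.ofNat (nat_lit 1103545500296424807582))⟩]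
  es := [
    ⟨nat_lit 0, nat_lit 1, (.ofNat (nat_lit 56529570816)), (.ofNat (nat_lit 104564649344)), (.ofNat (nat_lit 56529570832)), (.ofNat (nat_lit 104564649328)), (.ofNat (nat_lit 11955082354638590192494)), (.ofNat (nat_lit 183924343917516772192)), (.ofNat (nat_lit 28356851837931526267128301834240))⟩,
    ⟨nat_lit 2, nat_lit 1, (.ofNat (nat_lit 86253893184)), (.ofNat (nat_lit 104564649344)), (.ofNat (nat_lit 86253893200)), (.ofNat (nat_lit 104564649328)), (.negSucc (nat_lit 11955082354638590192493)), (.negSucc (nat_lit 183924343917516772191)), (.ofNat (nat_lit 66820820893052327354118722318336))⟩,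
    ⟨nat_lit 3, nat_lit 2, (.negSucc (nat_lit 47211877503)), (.ofNat (nat_lit 86253893184)), (.negSucc (nat_lit 47211877487)), (.ofNat (nat_lit 86253893168)), (.ofNat (nat_lit 11955082354638590192494)), (.ofNat (nat_lit 183924343917516772192)), (.ofNat (nat_lit 35092439464654783803764263239680))⟩,
    ⟨nat_lit 3, nat_lit 4, (.negSucc (nat_lit 47211877503)), (.ofNat (nat_lit 10944364736)), (.negSucc (nat_lit 47211877487)), (.ofNat (nat_lit 10944364720)), (.negSucc (nat_lit 11955082354638590192493)), (.negSucc (nat_lit 183924577106474530238)), (.ofNat (nat_lit 17725601265291536188230473827456))⟩,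
    ⟨nat_lit 9, nat_lit 4, (.negSucc (nat_lit 37213251071)), (.ofNat (nat_lit 10944364736)), (.negSucc (nat_lit 37213251055)), (.ofNat (nat_lit 10944364720)), (.ofNat (nat_lit 11955082354638590192494)), (.ofNat (nat_lit 183924062313178859407)), (.ofNat (nat_lit 13699731587841502125245923904000))⟩,
    ⟨nat_lit 5, nat_lit 6, (.negSucc (nat_lit 1506430975)), (.ofNat (nat_lit 91913506624)), (.negSucc (nat_lit 1506430959)), (.ofNat (nat_lit 91913506608)), (.ofNat (nat_lit 11955082354638590192494)), (.ofNat (nat_lit 183924343917516772192)), (.ofNat (nat_lit 565035148179225342597848518656))⟩,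
    ⟨nat_lit 7, nat_lit 6, (.negSucc (nat_lit 1834459135)), (.ofNat (nat_lit 91913506624)), (.negSucc (nat_lit 1834459119)), (.ofNat (nat_lit 91913506608)), (.negSucc (nat_lit 11955082354638590192493)), (.negSucc (nat_lit 183924343917516772191)), (.ofNat (nat_lit 34375297954134289243598830518272))⟩,
    ⟨nat_lit 7, nat_lit 8, (.negSucc (nat_lit 1834459135)), (.ofNat (nat_lit 38333911232)), (.negSucc (nat_lit 1834459119)), (.ofNat (nat_lit 38333911216)), (.ofNat (nat_lit 11955082354638590192494)), (.ofNat (nat_lit 183924343917516772192)), (.ofNat (nat_lit 35050101340198878589960520810496))⟩,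
    ⟨nat_lit 8, nat_lit 0, (.ofNat (nat_lit 38333911232)), (.ofNat (nat_lit 56529570816)), (.ofNat (nat_lit 38333911248)), (.ofNat (nat_lit 56529570800)), (.negSucc (nat_lit 11955082354638590192493)), (.negSucc (nat_lit 183924343917516772191)), (.ofNat (nat_lit 49151180286474732740119108931584))⟩,
    ⟨nat_lit 9, nat_lit 5, (.negSucc (nat_lit 37213251071)), (.negSucc (nat_lit 1506430975)), (.negSucc (nat_lit 37213251055)), (.negSucc (nat_lit 1506430991)), (.negSucc (nat_lit 11955082354638590192493)), (.negSucc (nat_lit 183924343917516772191)), (.ofNat (nat_lit 10896490343576433338720079872))⟩]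

theorem ok174 : stOK 9 9 S174 = true := by decide +kernel

end LCA.CapJ


end

section

set_option maxRecDepth 100000

namespace LCA.CapJ

open LCA

def S300 : SD where
  vs := [
    ⟨nat_lit 0, nat_lit 0, nat_lit 5, (.ofNat (nat_lit 16)), (.ofNat (nat_lit 288621802291200)), (.ofNat (nat_lit 120453513594787115644254220481938628712816898473984000000)), (.ofNat (nat_lit 0)), (.negSucc (nat_lit 1600197265355957041278720401396075593727999999999999)), (.ofNat (nat_lit 288621802291168)), (.ofNat (nat_lit 288621802291232)), (.ofNat (nat_lit 143531067427475122694729666396160000000000)), (.ofNat (nat_lit 143531067427475122694729666396160000000000)), (.ofNat (nat_lit 143531067427475122694729666396160000000000)), (.ofNat (nat_lit 143531067427475122694729666396160000000000)), (.ofNat (nat_lit 3817366385922023502831943680000000000))⟩,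
    ⟨nat_lit 2, nat_lit 0, nat_lit 1, (.ofNat (nat_lit 16)), (.negSucc (nat_lit 549755813887999)), (.ofNat (nat_lit 120279437284502097135725017355140140065026473984000000)), (.ofNat (nat_lit 0)), (.ofNat (nat_lit 0)), (.negSucc (nat_lit 549755813888031)), (.negSucc (nat_lit 549755813887967)), (.ofNat (nat_lit 143531067427475122694729666396160000000000)), (.negSucc (nat_lit 143531067427475122694729666396159999999999)), (.negSucc (nat_lit 143531067427475122694729666396159999999999)), (.ofNat (nat_lit 143531067427475122694729666396160000000000)), (.ofNat (nat_lit 11452099157766070508495831040000000000))⟩,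
    ⟨nat_lit 1, nat_lit 8, nat_lit 4, (.ofNat (nat_lit 16)), (.ofNat (nat_lit 1911844562272256)), (.ofNat (nat_lit 120279437284502097135725017355140140065026473984000000)), (.ofNat (nat_lit 0)), (.ofNat (nat_lit 0)), (.ofNat (nat_lit 1911844562272224)), (.ofNat (nat_lit 1911844562272288)), (.ofNat (nat_lit 143531067427475122694729666396160000000000)), (.negSucc (nat_lit 143531067427475122694729666396159999999999)), (.negSucc (nat_lit 143531067427475122694729666396159999999999)), (.ofNat (nat_lit 143531067427475122694729666396160000000000)), (.ofNat (nat_lit 11452099157766070508495831040000000000))⟩,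
    ⟨nat_lit 0, nat_lit 7, nat_lit 2, (.ofNat (nat_lit 16)), (.ofNat (nat_lit 1102260406845440)), (.ofNat (nat_lit 116320757438066329162594986908195966277408453033984000000)), (.ofNat (nat_lit 0)), (.negSucc (nat_lit 1545239670750699172402016807282554636861439999999999)), (.ofNat (nat_lit 1102260406845408)), (.ofNat (nat_lit 1102260406845472)), (.negSucc (nat_lit 143531067427475122694729666396159999999999)), (.negSucc (nat_lit 143531067427475122694729666396159999999999)), (.negSucc (nat_lit 143531067427475122694729666396159999999999)), (.negSucc (nat_lit 143531067427475122694729666396159999999999)), (.ofNat (nat_lit 3817366385922023502831943680000000000))⟩,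
    ⟨nat_lit 0, nat_lit 2, nat_lit 3, (.ofNat (nat_lit 16)), (.ofNat (nat_lit 1146034713526272)), (.ofNat (nat_lit 110037784474268856635585603169594352980618047913984000000)), (.ofNat (nat_lit 0)), (.negSucc (nat_lit 1461688387305474202295906569930972657090559999999999)), (.ofNat (nat_lit 1146034713526240)), (.ofNat (nat_lit 1146034713526304)), (.negSucc (nat_lit 143531067427475122694729666396159999999999)), (.negSucc (nat_lit 143531067427475122694729666396159999999999)), (.negSucc (nat_lit 143531067427475122694729666396159999999999)), (.negSucc (nat_lit 143531067427475122694729666396159999999999)), (.ofNat (nat_lit 3817366385922023502831943680000000000))⟩,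
    ⟨nat_lit 0, nat_lit 3, nat_lit 4, (.ofNat (nat_lit 16)), (.ofNat (nat_lit 1364837527453696)), (.ofNat (nat_lit 78632783035130469624599923697526006454745756073984000000)), (.ofNat (nat_lit 0)), (.negSucc (nat_lit 1044063133789624430211361835664980469350399999999999)), (.ofNat (nat_lit 1364837527453664)), (.ofNat (nat_lit 1364837527453728)), (.negSucc (nat_lit 143531067427475122694729666396159999999999)), (.negSucc (nat_lit 143531067427475122694729666396159999999999)), (.negSucc (nat_lit 143531067427475122694729666396159999999999)), (.negSucc (nat_lit 143531067427475122694729666396159999999999)), (.ofNat (nat_lit 3817366385922023502831943680000000000))⟩,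
    ⟨nat_lit 0, nat_lit 5, nat_lit 6, (.ofNat (nat_lit 16)), (.ofNat (nat_lit 494780232499200)), (.ofNat (nat_lit 150043653141713987827971883301098502952018178473984000000)), (.ofNat (nat_lit 0)), (.negSucc (nat_lit 1993688396181192379298077877149208936447999999999999)), (.ofNat (nat_lit 494780232499168)), (.ofNat (nat_lit 494780232499232)), (.ofNat (nat_lit 143531067427475122694729666396160000000000)), (.ofNat (nat_lit 143531067427475122694729666396160000000000)), (.ofNat (nat_lit 143531067427475122694729666396160000000000)), (.ofNat (nat_lit 143531067427475122694729666396160000000000)), (.ofNat (nat_lit 3817366385922023502831943680000000000))⟩,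
    ⟨nat_lit 0, nat_lit 6, nat_lit 7, (.ofNat (nat_lit 16)), (.ofNat (nat_lit 681044374192128)), (.ofNat (nat_lit 176778344222362416845960791658209449327136534953984000000)), (.ofNat (nat_lit 0)), (.negSucc (nat_lit 2349207632881792507198567356492164911595519999999999)), (.ofNat (nat_lit 681044374192096)), (.ofNat (nat_lit 681044374192160)), (.ofNat (nat_lit 143531067427475122694729666396160000000000)), (.negSucc (nat_lit 143531067427475122694729666396159999999999)), (.negSucc (nat_lit 143531067427475122694729666396159999999999)), (.ofNat (nat_lit 143531067427475122694729666396160000000000)), (.ofNat (nat_lit 11452099157766070508495831040000000000))⟩,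
    ⟨nat_lit 0, nat_lit 1, nat_lit 8, (.ofNat (nat_lit 16)), (.ofNat (nat_lit 681044374192128)), (.negSucc (nat_lit 176537785347793412651689341623499169047006482006015999999)), (.ofNat (nat_lit 0)), (.ofNat (nat_lit 2349207632881792507198567356492164911595520000000000)), (.ofNat (nat_lit 681044374192096)), (.ofNat (nat_lit 681044374192160)), (.negSucc (nat_lit 143531067427475122694729666396159999999999)), (.ofNat (nat_lit 143531067427475122694729666396160000000000)), (.negSucc (nat_lit 143531067427475122694729666396159999999999)), (.ofNat (nat_lit 143531067427475122694729666396160000000000)), (.ofNat (nat_lit 11452099157766070508495831040000000000))⟩]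
  es := [
    ⟨nat_lit 1, nat_lit 0, (.negSucc (nat_lit 549755813887999)), (.ofNat (nat_lit 288621802291200)), (.negSucc (nat_lit 549755813887967)), (.ofNat (nat_lit 288621802291168)), (.ofNat (nat_lit 143531067427475122694729666396160000000000)), (.negSucc (nat_lit 1908683192961011751415971839999999999)), (.negSucc (nat_lit 1049309682200627568051619935341688913919999999999999))⟩,
    ⟨nat_lit 1, nat_lit 8, (.negSucc (nat_lit 549755813887999)), (.ofNat (nat_lit 681044374192128)), (.negSucc (nat_lit 549755813887967)), (.ofNat (nat_lit 681044374192096)), (.negSucc (nat_lit 143531067427475122694729666396159999999999)), (.ofNat (nat_lit 1908683192961011751415971840000000000)), (.ofNat (nat_lit 1049309682200627568051619935341688913920000000000000))⟩,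
    ⟨nat_lit 3, nat_lit 4, (.ofNat (nat_lit 1102260406845440)), (.ofNat (nat_lit 1146034713526272)), (.ofNat (nat_lit 1102260406845472)), (.ofNat (nat_lit 1146034713526240)), (.negSucc (nat_lit 143531067427475122694729666396159999999999)), (.ofNat (nat_lit 1908683192961011751415971840000000000)), (.negSucc (nat_lit 3649105583562957446345514777642640909271039999999999))⟩,
    ⟨nat_lit 4, nat_lit 5, (.ofNat (nat_lit 1146034713526272)), (.ofNat (nat_lit 1364837527453696)), (.ofNat (nat_lit 1146034713526304)), (.ofNat (nat_lit 1364837527453664)), (.negSucc (nat_lit 143531067427475122694729666396159999999999)), (.ofNat (nat_lit 1908683192961011751415971840000000000)), (.negSucc (nat_lit 3649105583562957446345514777642640909271039999999999))⟩,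
    ⟨nat_lit 5, nat_lit 2, (.ofNat (nat_lit 1364837527453696)), (.ofNat (nat_lit 1911844562272256)), (.ofNat (nat_lit 1364837527453728)), (.ofNat (nat_lit 1911844562272224)), (.negSucc (nat_lit 143531067427475122694729666396159999999999)), (.ofNat (nat_lit 1908683192961011751415971840000000000)), (.negSucc (nat_lit 3649105583562957446345514777642640909271039999999999))⟩,
    ⟨nat_lit 0, nat_lit 6, (.ofNat (nat_lit 288621802291200)), (.ofNat (nat_lit 494780232499200)), (.ofNat (nat_lit 288621802291232)), (.ofNat (nat_lit 494780232499168)), (.ofNat (nat_lit 143531067427475122694729666396160000000000)), (.negSucc (nat_lit 1908683192961011751415971839999999999)), (.negSucc (nat_lit 1049309682200627568051619935341688913919999999999999))⟩,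
    ⟨nat_lit 6, nat_lit 7, (.ofNat (nat_lit 494780232499200)), (.ofNat (nat_lit 681044374192128)), (.ofNat (nat_lit 494780232499232)), (.ofNat (nat_lit 681044374192096)), (.ofNat (nat_lit 143531067427475122694729666396160000000000)), (.negSucc (nat_lit 1908683192961011751415971839999999999)), (.negSucc (nat_lit 1049309682200627568051619935341688913919999999999999))⟩,
    ⟨nat_lit 7, nat_lit 3, (.ofNat (nat_lit 681044374192128)), (.ofNat (nat_lit 1102260406845440)), (.ofNat (nat_lit 681044374192160)), (.ofNat (nat_lit 1102260406845408)), (.negSucc (nat_lit 143531067427475122694729666396159999999999)), (.ofNat (nat_lit 1908683192961011751415971840000000000)), (.negSucc (nat_lit 3649105583562957446345514777642640909271039999999999))⟩,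
    ⟨nat_lit 8, nat_lit 2, (.ofNat (nat_lit 681044374192128)), (.ofNat (nat_lit 1911844562272256)), (.ofNat (nat_lit 681044374192160)), (.ofNat (nat_lit 1911844562272224)), (.ofNat (nat_lit 143531067427475122694729666396160000000000)), (.negSucc (nat_lit 1908683192961011751415971839999999999)), (.ofNat (nat_lit 3649105583562957446345514777642640909271040000000000))⟩]

theorem ok300 : stOK 8 8 S300 = true := by decide +kernel

def S301 : SD where
  vs := [
    ⟨nat_lit 2, nat_lit 0, nat_lit 1, (.ofNat (nat_lit 16)), (.negSucc (nat_lit 549755813887999)), (.ofNat (nat_lit 120279437284502097135725017355140140065026473984000000)), (.ofNat (nat_lit 0)), (.ofNat (nat_lit 0)), (.negSucc (nat_lit 549755813888031)), (.negSucc (nat_lit 549755813887967)), (.ofNat (nat_lit 143531067427475122694729666396160000000000)), (.negSucc (nat_lit 143531067427475122694729666396159999999999)), (.negSucc (nat_lit 143531067427475122694729666396159999999999)), (.ofNat (nat_lit 143531067427475122694729666396160000000000)), (.ofNat (nat_lit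 11452099157766070508495831040000000000))⟩,
    ⟨nat_lit 1, nat_lit 7, nat_lit 4, (.ofNat (nat_lit 16)), (.ofNat (nat_lit 1911844562272256)), (.ofNat (nat_lit 120279437284502097135725017355140140065026473984000000)), (.ofNat (nat_lit 0)), (.ofNat (nat_lit 0)), (.ofNat (nat_lit 1911844562272224)), (.ofNat (nat_lit 1911844562272288)), (.ofNat (nat_lit 143531067427475122694729666396160000000000)), (.negSucc (nat_lit 143531067427475122694729666396159999999999)), (.negSucc (nat_lit 143531067427475122694729666396159999999999)), (.ofNat (nat_lit 143531067427475122694729666396160000000000)), (.ofNat (nat_lit 11452099157766070508495831040000000000))⟩,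
    ⟨nat_lit 0, nat_lit 6, nat_lit 2, (.ofNat (nat_lit 16)), (.ofNat (nat_lit 1102260406845440)), (.ofNat (nat_lit 116320757438066329162594986908195966277408453033984000000)), (.ofNat (nat_lit 0)), (.negSucc (nat_lit 1545239670750699172402016807282554636861439999999999)), (.ofNat (nat_lit 1102260406845408)), (.ofNat (nat_lit 1102260406845472)), (.negSucc (nat_lit 143531067427475122694729666396159999999999)), (.negSucc (nat_lit 143531067427475122694729666396159999999999)), (.negSucc (nat_lit 143531067427475122694729666396159999999999)), (.negSucc (nat_lit 143531067427475122694729666396159999999999)), (.ofNat (nat_lit 3817366385922023502831943680000000000))⟩,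
    ⟨nat_lit 0, nat_lit 2, nat_lit 3, (.ofNat (nat_lit 16)), (.ofNat (nat_lit 1146034713526272)), (.ofNat (nat_lit 110037784474268856635585603169594352980618047913984000000)), (.ofNat (nat_lit 0)), (.negSucc (nat_lit 1461688387305474202295906569930972657090559999999999)), (.ofNat (nat_lit 1146034713526240)), (.ofNat (nat_lit 1146034713526304)), (.negSucc (nat_lit 143531067427475122694729666396159999999999)), (.negSucc (nat_lit 143531067427475122694729666396159999999999)), (.negSucc (nat_lit 143531067427475122694729666396159999999999)), (.negSucc (nat_lit 143531067427475122694729666396159999999999)), (.ofNat (nat_lit 3817366385922023502831943680000000000))⟩,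
    ⟨nat_lit 0, nat_lit 3, nat_lit 4, (.ofNat (nat_lit 16)), (.ofNat (nat_lit 1364837527453696)), (.ofNat (nat_lit 78632783035130469624599923697526006454745756073984000000)), (.ofNat (nat_lit 0)), (.negSucc (nat_lit 1044063133789624430211361835664980469350399999999999)), (.ofNat (nat_lit 1364837527453664)), (.ofNat (nat_lit 1364837527453728)), (.negSucc (nat_lit 143531067427475122694729666396159999999999)), (.negSucc (nat_lit 143531067427475122694729666396159999999999)), (.negSucc (nat_lit 143531067427475122694729666396159999999999)), (.negSucc (nat_lit 143531067427475122694729666396159999999999)), (.ofNat (nat_lit 3817366385922023502831943680000000000))⟩,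
    ⟨nat_lit 0, nat_lit 0, nat_lit 5, (.ofNat (nat_lit 16)), (.ofNat (nat_lit 494780232499200)), (.ofNat (nat_lit 150043653141713987827971883301098502952018178473984000000)), (.ofNat (nat_lit 0)), (.negSucc (nat_lit 1993688396181192379298077877149208936447999999999999)), (.ofNat (nat_lit 494780232499168)), (.ofNat (nat_lit 494780232499232)), (.ofNat (nat_lit 143531067427475122694729666396160000000000)), (.ofNat (nat_lit 143531067427475122694729666396160000000000)), (.ofNat (nat_lit 143531067427475122694729666396160000000000)), (.ofNat (nat_lit 143531067427475122694729666396160000000000)), (.ofNat (nat_lit 3817366385922023502831943680000000000))⟩,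
    ⟨nat_lit 0, nat_lit 5, nat_lit 6, (.ofNat (nat_lit 16)), (.ofNat (nat_lit 681044374192128)), (.ofNat (nat_lit 176778344222362416845960791658209449327136534953984000000)), (.ofNat (nat_lit 0)), (.negSucc (nat_lit 2349207632881792507198567356492164911595519999999999)), (.ofNat (nat_lit 681044374192096)), (.ofNat (nat_lit 681044374192160)), (.ofNat (nat_lit 143531067427475122694729666396160000000000)), (.negSucc (nat_lit 143531067427475122694729666396159999999999)), (.negSucc (nat_lit 143531067427475122694729666396159999999999)), (.ofNat (nat_lit 143531067427475122694729666396160000000000)), (.ofNat (nat_lit 11452099157766070508495831040000000000))⟩,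
    ⟨nat_lit 0, nat_lit 1, nat_lit 7, (.ofNat (nat_lit 16)), (.ofNat (nat_lit 681044374192128)), (.negSucc (nat_lit 176537785347793412651689341623499169047006482006015999999)), (.ofNat (nat_lit 0)), (.ofNat (nat_lit 2349207632881792507198567356492164911595520000000000)), (.ofNat (nat_lit 681044374192096)), (.ofNat (nat_lit 681044374192160)), (.negSucc (nat_lit 143531067427475122694729666396159999999999)), (.ofNat (nat_lit 143531067427475122694729666396160000000000)), (.negSucc (nat_lit 143531067427475122694729666396159999999999)), (.ofNat (nat_lit 143531067427475122694729666396160000000000)), (.ofNat (nat_lit 11452099157766070508495831040000000000))⟩]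
  es := [
    ⟨nat_lit 0, nat_lit 5, (.negSucc (nat_lit 549755813887999)), (.ofNat (nat_lit 494780232499200)), (.negSucc (nat_lit 549755813887967)), (.ofNat (nat_lit 494780232499168)), (.ofNat (nat_lit 143531067427475122694729666396160000000000)), (.negSucc (nat_lit 1908683192961011751415971839999999999)), (.negSucc (nat_lit 1049309682200627568051619935341688913919999999999999))⟩,
    ⟨nat_lit 0, nat_lit 7, (.negSucc (nat_lit 549755813887999)), (.ofNat (nat_lit 681044374192128)), (.negSucc (nat_lit 549755813887967)), (.ofNat (nat_lit 681044374192096)), (.negSucc (nat_lit 143531067427475122694729666396159999999999)), (.ofNat (nat_lit 1908683192961011751415971840000000000)), (.ofNat (nat_lit 1049309682200627568051619935341688913920000000000000))⟩,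
    ⟨nat_lit 2, nat_lit 3, (.ofNat (nat_lit 1102260406845440)), (.ofNat (nat_lit 1146034713526272)), (.ofNat (nat_lit 1102260406845472)), (.ofNat (nat_lit 1146034713526240)), (.negSucc (nat_lit 143531067427475122694729666396159999999999)), (.ofNat (nat_lit 1908683192961011751415971840000000000)), (.negSucc (nat_lit 3649105583562957446345514777642640909271039999999999))⟩,
    ⟨nat_lit 3, nat_lit 4, (.ofNat (nat_lit 1146034713526272)), (.ofNat (nat_lit 1364837527453696)), (.ofNat (nat_lit 1146034713526304)), (.ofNat (nat_lit 1364837527453664)), (.negSucc (nat_lit 143531067427475122694729666396159999999999)), (.ofNat (nat_lit 1908683192961011751415971840000000000)), (.negSucc (nat_lit 3649105583562957446345514777642640909271039999999999))⟩,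
    ⟨nat_lit 4, nat_lit 1, (.ofNat (nat_lit 1364837527453696)), (.ofNat (nat_lit 1911844562272256)), (.ofNat (nat_lit 1364837527453728)), (.ofNat (nat_lit 1911844562272224)), (.negSucc (nat_lit 143531067427475122694729666396159999999999)), (.ofNat (nat_lit 1908683192961011751415971840000000000)), (.negSucc (nat_lit 3649105583562957446345514777642640909271039999999999))⟩,
    ⟨nat_lit 5, nat_lit 6, (.ofNat (nat_lit 494780232499200)), (.ofNat (nat_lit 681044374192128)), (.ofNat (nat_lit 494780232499232)), (.ofNat (nat_lit 681044374192096)), (.ofNat (nat_lit 143531067427475122694729666396160000000000)), (.negSucc (nat_lit 1908683192961011751415971839999999999)), (.negSucc (nat_lit 1049309682200627568051619935341688913919999999999999))⟩,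
    ⟨nat_lit 6, nat_lit 2, (.ofNat (nat_lit 681044374192128)), (.ofNat (nat_lit 1102260406845440)), (.ofNat (nat_lit 681044374192160)), (.ofNat (nat_lit 1102260406845408)), (.negSucc (nat_lit 143531067427475122694729666396159999999999)), (.ofNat (nat_lit 1908683192961011751415971840000000000)), (.negSucc (nat_lit 3649105583562957446345514777642640909271039999999999))⟩,
    ⟨nat_lit 7, nat_lit 1, (.ofNat (nat_lit 681044374192128)), (.ofNat (nat_lit 1911844562272256)), (.ofNat (nat_lit 681044374192160)), (.ofNat (nat_lit 1911844562272224)), (.ofNat (nat_lit 143531067427475122694729666396160000000000)), (.negSucc (nat_lit 1908683192961011751415971839999999999)), (.ofNat (nat_lit 3649105583562957446345514777642640909271040000000000))⟩]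

theorem ok301 : stOK 7 7 S301 = true := by decide +kernel

def S302 : SD where
  vs := [
    ⟨nat_lit 2, nat_lit 0, nat_lit 1, (.ofNat (nat_lit 16)), (.negSucc (nat_lit 549755813887999)), (.ofNat (nat_lit 120279437284502097135725017355140140065026473984000000)), (.ofNat (nat_lit 0)), (.ofNat (nat_lit 0)), (.negSucc (nat_lit 549755813888031)), (.negSucc (nat_lit 549755813887967)), (.ofNat (nat_lit 143531067427475122694729666396160000000000)), (.negSucc (nat_lit 143531067427475122694729666396159999999999)), (.negSucc (nat_lit 143531067427475122694729666396159999999999)), (.ofNat (nat_lit 143531067427475122694729666396160000000000)), (.ofNat (nat_lit 11452099157766070508495831040000000000))⟩,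
    ⟨nat_lit 1, nat_lit 6, nat_lit 4, (.ofNat (nat_lit 16)), (.ofNat (nat_lit 1911844562272256)), (.ofNat (nat_lit 120279437284502097135725017355140140065026473984000000)), (.ofNat (nat_lit 0)), (.ofNat (nat_lit 0)), (.ofNat (nat_lit 1911844562272224)), (.ofNat (nat_lit 1911844562272288)), (.ofNat (nat_lit 143531067427475122694729666396160000000000)), (.negSucc (nat_lit 143531067427475122694729666396159999999999)), (.negSucc (nat_lit 143531067427475122694729666396159999999999)), (.ofNat (nat_lit 143531067427475122694729666396160000000000)), (.ofNat (nat_lit 11452099157766070508495831040000000000))⟩,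
    ⟨nat_lit 0, nat_lit 5, nat_lit 2, (.ofNat (nat_lit 16)), (.ofNat (nat_lit 1102260406845440)), (.ofNat (nat_lit 116320757438066329162594986908195966277408453033984000000)), (.ofNat (nat_lit 0)), (.negSucc (nat_lit 1545239670750699172402016807282554636861439999999999)), (.ofNat (nat_lit 1102260406845408)), (.ofNat (nat_lit 1102260406845472)), (.negSucc (nat_lit 143531067427475122694729666396159999999999)), (.negSucc (nat_lit 143531067427475122694729666396159999999999)), (.negSucc (nat_lit 143531067427475122694729666396159999999999)), (.negSucc (nat_lit 143531067427475122694729666396159999999999)), (.ofNat (nat_lit 3817366385922023502831943680000000000))⟩,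
    ⟨nat_lit 0, nat_lit 2, nat_lit 3, (.ofNat (nat_lit 16)), (.ofNat (nat_lit 1146034713526272)), (.ofNat (nat_lit 110037784474268856635585603169594352980618047913984000000)), (.ofNat (nat_lit 0)), (.negSucc (nat_lit 1461688387305474202295906569930972657090559999999999)), (.ofNat (nat_lit 1146034713526240)), (.ofNat (nat_lit 1146034713526304)), (.negSucc (nat_lit 143531067427475122694729666396159999999999)), (.negSucc (nat_lit 143531067427475122694729666396159999999999)), (.negSucc (nat_lit 143531067427475122694729666396159999999999)), (.negSucc (nat_lit 143531067427475122694729666396159999999999)), (.ofNat (nat_lit 3817366385922023502831943680000000000))⟩,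
    ⟨nat_lit 0, nat_lit 3, nat_lit 4, (.ofNat (nat_lit 16)), (.ofNat (nat_lit 1364837527453696)), (.ofNat (nat_lit 78632783035130469624599923697526006454745756073984000000)), (.ofNat (nat_lit 0)), (.negSucc (nat_lit 1044063133789624430211361835664980469350399999999999)), (.ofNat (nat_lit 1364837527453664)), (.ofNat (nat_lit 1364837527453728)), (.negSucc (nat_lit 143531067427475122694729666396159999999999)), (.negSucc (nat_lit 143531067427475122694729666396159999999999)), (.negSucc (nat_lit 143531067427475122694729666396159999999999)), (.negSucc (nat_lit 143531067427475122694729666396159999999999)), (.ofNat (nat_lit 3817366385922023502831943680000000000))⟩,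
    ⟨nat_lit 0, nat_lit 0, nat_lit 5, (.ofNat (nat_lit 16)), (.ofNat (nat_lit 681044374192128)), (.ofNat (nat_lit 176778344222362416845960791658209449327136534953984000000)), (.ofNat (nat_lit 0)), (.negSucc (nat_lit 2349207632881792507198567356492164911595519999999999)), (.ofNat (nat_lit 681044374192096)), (.ofNat (nat_lit 681044374192160)), (.ofNat (nat_lit 143531067427475122694729666396160000000000)), (.negSucc (nat_lit 143531067427475122694729666396159999999999)), (.negSucc (nat_lit 143531067427475122694729666396159999999999)), (.ofNat (nat_lit 143531067427475122694729666396160000000000)), (.ofNat (nat_lit 11452099157766070508495831040000000000))⟩,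
    ⟨nat_lit 0, nat_lit 1, nat_lit 6, (.ofNat (nat_lit 16)), (.ofNat (nat_lit 681044374192128)), (.negSucc (nat_lit 176537785347793412651689341623499169047006482006015999999)), (.ofNat (nat_lit 0)), (.ofNat (nat_lit 2349207632881792507198567356492164911595520000000000)), (.ofNat (nat_lit 681044374192096)), (.ofNat (nat_lit 681044374192160)), (.negSucc (nat_lit 143531067427475122694729666396159999999999)), (.ofNat (nat_lit 143531067427475122694729666396160000000000)), (.negSucc (nat_lit 143531067427475122694729666396159999999999)), (.ofNat (nat_lit 143531067427475122694729666396160000000000)), (.ofNat (nat_lit 11452099157766070508495831040000000000))⟩]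
  es := [
    ⟨nat_lit 0, nat_lit 5, (.negSucc (nat_lit 549755813887999)), (.ofNat (nat_lit 681044374192128)), (.negSucc (nat_lit 549755813887967)), (.ofNat (nat_lit 681044374192096)), (.ofNat (nat_lit 143531067427475122694729666396160000000000)), (.negSucc (nat_lit 1908683192961011751415971839999999999)), (.negSucc (nat_lit 1049309682200627568051619935341688913919999999999999))⟩,
    ⟨nat_lit 0, nat_lit 6, (.negSucc (nat_lit 549755813887999)), (.ofNat (nat_lit 681044374192128)), (.negSucc (nat_lit 549755813887967)), (.ofNat (nat_lit 681044374192096)), (.negSucc (nat_lit 143531067427475122694729666396159999999999)), (.ofNat (nat_lit 1908683192961011751415971840000000000)), (.ofNat (nat_lit 1049309682200627568051619935341688913920000000000000))⟩,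
    ⟨nat_lit 2, nat_lit 3, (.ofNat (nat_lit 1102260406845440)), (.ofNat (nat_lit 1146034713526272)), (.ofNat (nat_lit 1102260406845472)), (.ofNat (nat_lit 1146034713526240)), (.negSucc (nat_lit 143531067427475122694729666396159999999999)), (.ofNat (nat_lit 1908683192961011751415971840000000000)), (.negSucc (nat_lit 3649105583562957446345514777642640909271039999999999))⟩,
    ⟨nat_lit 3, nat_lit 4, (.ofNat (nat_lit 1146034713526272)), (.ofNat (nat_lit 1364837527453696)), (.ofNat (nat_lit 1146034713526304)), (.ofNat (nat_lit 1364837527453664)), (.negSucc (nat_lit 143531067427475122694729666396159999999999)), (.ofNat (nat_lit 1908683192961011751415971840000000000)), (.negSucc (nat_lit 3649105583562957446345514777642640909271039999999999))⟩,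
    ⟨nat_lit 4, nat_lit 1, (.ofNat (nat_lit 1364837527453696)), (.ofNat (nat_lit 1911844562272256)), (.ofNat (nat_lit 1364837527453728)), (.ofNat (nat_lit 1911844562272224)), (.negSucc (nat_lit 143531067427475122694729666396159999999999)), (.ofNat (nat_lit 1908683192961011751415971840000000000)), (.negSucc (nat_lit 3649105583562957446345514777642640909271039999999999))⟩,
    ⟨nat_lit 5, nat_lit 2, (.ofNat (nat_lit 681044374192128)), (.ofNat (nat_lit 1102260406845440)), (.ofNat (nat_lit 681044374192160)), (.ofNat (nat_lit 1102260406845408)), (.negSucc (nat_lit 143531067427475122694729666396159999999999)), (.ofNat (nat_lit 1908683192961011751415971840000000000)), (.negSucc (nat_lit 3649105583562957446345514777642640909271039999999999))⟩,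
    ⟨nat_lit 6, nat_lit 1, (.ofNat (nat_lit 681044374192128)), (.ofNat (nat_lit 1911844562272256)), (.ofNat (nat_lit 681044374192160)), (.ofNat (nat_lit 1911844562272224)), (.ofNat (nat_lit 143531067427475122694729666396160000000000)), (.negSucc (nat_lit 1908683192961011751415971839999999999)), (.ofNat (nat_lit 3649105583562957446345514777642640909271040000000000))⟩]

theorem ok302 : stOK 6 6 S302 = true := by decide +kernel

def S303 : SD where
  vs := [
    ⟨nat_lit 2, nat_lit 0, nat_lit 1, (.ofNat (nat_lit 16)), (.negSucc (nat_lit 549755813887999)), (.ofNat (nat_lit 120279437284502097135725017355140140065026473984000000)), (.ofNat (nat_lit 0)), (.ofNat (nat_lit 0)), (.negSucc (nat_lit 549755813888031)), (.negSucc (nat_lit 549755813887967)), (.ofNat (nat_lit 143531067427475122694729666396160000000000)), (.negSucc (nat_lit 143531067427475122694729666396159999999999)), (.negSucc (nat_lit 143531067427475122694729666396159999999999)), (.ofNat (nat_lit 143531067427475122694729666396160000000000)), (.ofNat (nat_lit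 11452099157766070508495831040000000000))⟩,
    ⟨nat_lit 1, nat_lit 5, nat_lit 3, (.ofNat (nat_lit 16)), (.ofNat (nat_lit 1911844562272256)), (.ofNat (nat_lit 120279437284502097135725017355140140065026473984000000)), (.ofNat (nat_lit 0)), (.ofNat (nat_lit 0)), (.ofNat (nat_lit 1911844562272224)), (.ofNat (nat_lit 1911844562272288)), (.ofNat (nat_lit 143531067427475122694729666396160000000000)), (.negSucc (nat_lit 143531067427475122694729666396159999999999)), (.negSucc (nat_lit 143531067427475122694729666396159999999999)), (.ofNat (nat_lit 143531067427475122694729666396160000000000)), (.ofNat (nat_lit 11452099157766070508495831040000000000))⟩,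
    ⟨nat_lit 0, nat_lit 4, nat_lit 2, (.ofNat (nat_lit 16)), (.ofNat (nat_lit 1146034713526272)), (.ofNat (nat_lit 110037784474268856635585603169594352980618047913984000000)), (.ofNat (nat_lit 0)), (.negSucc (nat_lit 1461688387305474202295906569930972657090559999999999)), (.ofNat (nat_lit 1146034713526240)), (.ofNat (nat_lit 1146034713526304)), (.negSucc (nat_lit 143531067427475122694729666396159999999999)), (.negSucc (nat_lit 143531067427475122694729666396159999999999)), (.negSucc (nat_lit 143531067427475122694729666396159999999999)), (.negSucc (nat_lit 143531067427475122694729666396159999999999)), (.ofNat (nat_lit 3817366385922023502831943680000000000))⟩,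
    ⟨nat_lit 0, nat_lit 2, nat_lit 3, (.ofNat (nat_lit 16)), (.ofNat (nat_lit 1364837527453696)), (.ofNat (nat_lit 78632783035130469624599923697526006454745756073984000000)), (.ofNat (nat_lit 0)), (.negSucc (nat_lit 1044063133789624430211361835664980469350399999999999)), (.ofNat (nat_lit 1364837527453664)), (.ofNat (nat_lit 1364837527453728)), (.negSucc (nat_lit 143531067427475122694729666396159999999999)), (.negSucc (nat_lit 143531067427475122694729666396159999999999)), (.negSucc (nat_lit 143531067427475122694729666396159999999999)), (.negSucc (nat_lit 143531067427475122694729666396159999999999)), (.ofNat (nat_lit 3817366385922023502831943680000000000))⟩,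
    ⟨nat_lit 0, nat_lit 0, nat_lit 4, (.ofNat (nat_lit 16)), (.ofNat (nat_lit 681044374192128)), (.ofNat (nat_lit 176778344222362416845960791658209449327136534953984000000)), (.ofNat (nat_lit 0)), (.negSucc (nat_lit 2349207632881792507198567356492164911595519999999999)), (.ofNat (nat_lit 681044374192096)), (.ofNat (nat_lit 681044374192160)), (.ofNat (nat_lit 143531067427475122694729666396160000000000)), (.negSucc (nat_lit 143531067427475122694729666396159999999999)), (.negSucc (nat_lit 143531067427475122694729666396159999999999)), (.ofNat (nat_lit 143531067427475122694729666396160000000000)), (.ofNat (nat_lit 11452099157766070508495831040000000000))⟩,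
    ⟨nat_lit 0, nat_lit 1, nat_lit 5, (.ofNat (nat_lit 16)), (.ofNat (nat_lit 681044374192128)), (.negSucc (nat_lit 176537785347793412651689341623499169047006482006015999999)), (.ofNat (nat_lit 0)), (.ofNat (nat_lit 2349207632881792507198567356492164911595520000000000)), (.ofNat (nat_lit 681044374192096)), (.ofNat (nat_lit 681044374192160)), (.negSucc (nat_lit 143531067427475122694729666396159999999999)), (.ofNat (nat_lit 143531067427475122694729666396160000000000)), (.negSucc (nat_lit 143531067427475122694729666396159999999999)), (.ofNat (nat_lit 143531067427475122694729666396160000000000)), (.ofNat (nat_lit 11452099157766070508495831040000000000))⟩]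
  es := [
    ⟨nat_lit 0, nat_lit 4, (.negSucc (nat_lit 549755813887999)), (.ofNat (nat_lit 681044374192128)), (.negSucc (nat_lit 549755813887967)), (.ofNat (nat_lit 681044374192096)), (.ofNat (nat_lit 143531067427475122694729666396160000000000)), (.negSucc (nat_lit 1908683192961011751415971839999999999)), (.negSucc (nat_lit 1049309682200627568051619935341688913919999999999999))⟩,
    ⟨nat_lit 0, nat_lit 5, (.negSucc (nat_lit 549755813887999)), (.ofNat (nat_lit 681044374192128)), (.negSucc (nat_lit 549755813887967)), (.ofNat (nat_lit 681044374192096)), (.negSucc (nat_lit 143531067427475122694729666396159999999999)), (.ofNat (nat_lit 1908683192961011751415971840000000000)), (.ofNat (nat_lit 1049309682200627568051619935341688913920000000000000))⟩,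
    ⟨nat_lit 2, nat_lit 3, (.ofNat (nat_lit 1146034713526272)), (.ofNat (nat_lit 1364837527453696)), (.ofNat (nat_lit 1146034713526304)), (.ofNat (nat_lit 1364837527453664)), (.negSucc (nat_lit 143531067427475122694729666396159999999999)), (.ofNat (nat_lit 1908683192961011751415971840000000000)), (.negSucc (nat_lit 3649105583562957446345514777642640909271039999999999))⟩,
    ⟨nat_lit 3, nat_lit 1, (.ofNat (nat_lit 1364837527453696)), (.ofNat (nat_lit 1911844562272256)), (.ofNat (nat_lit 1364837527453728)), (.ofNat (nat_lit 1911844562272224)), (.negSucc (nat_lit 143531067427475122694729666396159999999999)), (.ofNat (nat_lit 1908683192961011751415971840000000000)), (.negSucc (nat_lit 3649105583562957446345514777642640909271039999999999))⟩,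
    ⟨nat_lit 4, nat_lit 2, (.ofNat (nat_lit 681044374192128)), (.ofNat (nat_lit 1146034713526272)), (.ofNat (nat_lit 681044374192160)), (.ofNat (nat_lit 1146034713526240)), (.negSucc (nat_lit 143531067427475122694729666396159999999999)), (.ofNat (nat_lit 1908683192961011751415971840000000000)), (.negSucc (nat_lit 3649105583562957446345514777642640909271039999999999))⟩,
    ⟨nat_lit 5, nat_lit 1, (.ofNat (nat_lit 681044374192128)), (.ofNat (nat_lit 1911844562272256)), (.ofNat (nat_lit 681044374192160)), (.ofNat (nat_lit 1911844562272224)), (.ofNat (nat_lit 143531067427475122694729666396160000000000)), (.negSucc (nat_lit 1908683192961011751415971839999999999)), (.ofNat (nat_lit 3649105583562957446345514777642640909271040000000000))⟩]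

theorem ok303 : stOK 5 5 S303 = true := by decide +kernel

def S304 : SD where
  vs := [
    ⟨nat_lit 2, nat_lit 0, nat_lit 1, (.ofNat (nat_lit 16)), (.negSucc (nat_lit 549755813887999)), (.ofNat (nat_lit 120279437284502097135725017355140140065026473984000000)), (.ofNat (nat_lit 0)), (.ofNat (nat_lit 0)), (.negSucc (nat_lit 549755813888031)), (.negSucc (nat_lit 549755813887967)), (.ofNat (nat_lit 143531067427475122694729666396160000000000)), (.negSucc (nat_lit 143531067427475122694729666396159999999999)), (.negSucc (nat_lit 143531067427475122694729666396159999999999)), (.ofNat (nat_lit 143531067427475122694729666396160000000000)), (.ofNat (nat_lit 11452099157766070508495831040000000000))⟩,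
    ⟨nat_lit 1, nat_lit 4, nat_lit 2, (.ofNat (nat_lit 16)), (.ofNat (nat_lit 1911844562272256)), (.ofNat (nat_lit 120279437284502097135725017355140140065026473984000000)), (.ofNat (nat_lit 0)), (.ofNat (nat_lit 0)), (.ofNat (nat_lit 1911844562272224)), (.ofNat (nat_lit 1911844562272288)), (.ofNat (nat_lit 143531067427475122694729666396160000000000)), (.negSucc (nat_lit 143531067427475122694729666396159999999999)), (.negSucc (nat_lit 143531067427475122694729666396159999999999)), (.ofNat (nat_lit 143531067427475122694729666396160000000000)), (.ofNat (nat_lit 11452099157766070508495831040000000000))⟩,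
    ⟨nat_lit 0, nat_lit 3, nat_lit 2, (.ofNat (nat_lit 16)), (.ofNat (nat_lit 1364837527453696)), (.ofNat (nat_lit 78632783035130469624599923697526006454745756073984000000)), (.ofNat (nat_lit 0)), (.negSucc (nat_lit 1044063133789624430211361835664980469350399999999999)), (.ofNat (nat_lit 1364837527453664)), (.ofNat (nat_lit 1364837527453728)), (.negSucc (nat_lit 143531067427475122694729666396159999999999)), (.negSucc (nat_lit 143531067427475122694729666396159999999999)), (.negSucc (nat_lit 143531067427475122694729666396159999999999)), (.negSucc (nat_lit 143531067427475122694729666396159999999999)), (.ofNat (nat_lit 3817366385922023502831943680000000000))⟩,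
    ⟨nat_lit 0, nat_lit 0, nat_lit 3, (.ofNat (nat_lit 16)), (.ofNat (nat_lit 681044374192128)), (.ofNat (nat_lit 176778344222362416845960791658209449327136534953984000000)), (.ofNat (nat_lit 0)), (.negSucc (nat_lit 2349207632881792507198567356492164911595519999999999)), (.ofNat (nat_lit 681044374192096)), (.ofNat (nat_lit 681044374192160)), (.ofNat (nat_lit 143531067427475122694729666396160000000000)), (.negSucc (nat_lit 143531067427475122694729666396159999999999)), (.negSucc (nat_lit 143531067427475122694729666396159999999999)), (.ofNat (nat_lit 143531067427475122694729666396160000000000)), (.ofNat (nat_lit 11452099157766070508495831040000000000))⟩,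
    ⟨nat_lit 0, nat_lit 1, nat_lit 4, (.ofNat (nat_lit 16)), (.ofNat (nat_lit 681044374192128)), (.negSucc (nat_lit 176537785347793412651689341623499169047006482006015999999)), (.ofNat (nat_lit 0)), (.ofNat (nat_lit 2349207632881792507198567356492164911595520000000000)), (.ofNat (nat_lit 681044374192096)), (.ofNat (nat_lit 681044374192160)), (.negSucc (nat_lit 143531067427475122694729666396159999999999)), (.ofNat (nat_lit 143531067427475122694729666396160000000000)), (.negSucc (nat_lit 143531067427475122694729666396159999999999)), (.ofNat (nat_lit 143531067427475122694729666396160000000000)), (.ofNat (nat_lit 11452099157766070508495831040000000000))⟩]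
  es := [
    ⟨nat_lit 0, nat_lit 3, (.negSucc (nat_lit 549755813887999)), (.ofNat (nat_lit 681044374192128)), (.negSucc (nat_lit 549755813887967)), (.ofNat (nat_lit 681044374192096)), (.ofNat (nat_lit 143531067427475122694729666396160000000000)), (.negSucc (nat_lit 1908683192961011751415971839999999999)), (.negSucc (nat_lit 1049309682200627568051619935341688913919999999999999))⟩,
    ⟨nat_lit 0, nat_lit 4, (.negSucc (nat_lit 549755813887999)), (.ofNat (nat_lit 681044374192128)), (.negSucc (nat_lit 549755813887967)), (.ofNat (nat_lit 681044374192096)), (.negSucc (nat_lit 143531067427475122694729666396159999999999)), (.ofNat (nat_lit 1908683192961011751415971840000000000)), (.ofNat (nat_lit 1049309682200627568051619935341688913920000000000000))⟩,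
    ⟨nat_lit 2, nat_lit 1, (.ofNat (nat_lit 1364837527453696)), (.ofNat (nat_lit 1911844562272256)), (.ofNat (nat_lit 1364837527453728)), (.ofNat (nat_lit 1911844562272224)), (.negSucc (nat_lit 143531067427475122694729666396159999999999)), (.ofNat (nat_lit 1908683192961011751415971840000000000)), (.negSucc (nat_lit 3649105583562957446345514777642640909271039999999999))⟩,
    ⟨nat_lit 3, nat_lit 2, (.ofNat (nat_lit 681044374192128)), (.ofNat (nat_lit 1364837527453696)), (.ofNat (nat_lit 681044374192160)), (.ofNat (nat_lit 1364837527453664)), (.negSucc (nat_lit 143531067427475122694729666396159999999999)), (.ofNat (nat_lit 1908683192961011751415971840000000000)), (.negSucc (nat_lit 3649105583562957446345514777642640909271039999999999))⟩,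
    ⟨nat_lit 4, nat_lit 1, (.ofNat (nat_lit 681044374192128)), (.ofNat (nat_lit 1911844562272256)), (.ofNat (nat_lit 681044374192160)), (.ofNat (nat_lit 1911844562272224)), (.ofNat (nat_lit 143531067427475122694729666396160000000000)), (.negSucc (nat_lit 1908683192961011751415971839999999999)), (.ofNat (nat_lit 3649105583562957446345514777642640909271040000000000))⟩]

theorem ok304 : stOK 4 4 S304 = true := by decide +kernel

def S305 : SD where
  vs := [
    ⟨nat_lit 2, nat_lit 0, nat_lit 1, (.ofNat (nat_lit 16)), (.negSucc (nat_lit 549755813887999)), (.ofNat (nat_lit 120279437284502097135725017355140140065026473984000000)), (.ofNat (nat_lit 0)), (.ofNat (nat_lit 0)), (.negSucc (nat_lit 549755813888031)), (.negSucc (nat_lit 549755813887967)), (.ofNat (nat_lit 143531067427475122694729666396160000000000)), (.negSucc (nat_lit 143531067427475122694729666396159999999999)), (.negSucc (nat_lit 143531067427475122694729666396159999999999)), (.ofNat (nat_lit 143531067427475122694729666396160000000000)), (.ofNat (nat_lit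 11452099157766070508495831040000000000))⟩,
    ⟨nat_lit 1, nat_lit 3, nat_lit 2, (.ofNat (nat_lit 16)), (.ofNat (nat_lit 1911844562272256)), (.ofNat (nat_lit 120279437284502097135725017355140140065026473984000000)), (.ofNat (nat_lit 0)), (.ofNat (nat_lit 0)), (.ofNat (nat_lit 1911844562272224)), (.ofNat (nat_lit 1911844562272288)), (.ofNat (nat_lit 143531067427475122694729666396160000000000)), (.negSucc (nat_lit 143531067427475122694729666396159999999999)), (.negSucc (nat_lit 143531067427475122694729666396159999999999)), (.ofNat (nat_lit 143531067427475122694729666396160000000000)), (.ofNat (nat_lit 11452099157766070508495831040000000000))⟩,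
    ⟨nat_lit 0, nat_lit 0, nat_lit 2, (.ofNat (nat_lit 16)), (.ofNat (nat_lit 681044374192128)), (.ofNat (nat_lit 176778344222362416845960791658209449327136534953984000000)), (.ofNat (nat_lit 0)), (.negSucc (nat_lit 2349207632881792507198567356492164911595519999999999)), (.ofNat (nat_lit 681044374192096)), (.ofNat (nat_lit 681044374192160)), (.ofNat (nat_lit 143531067427475122694729666396160000000000)), (.negSucc (nat_lit 143531067427475122694729666396159999999999)), (.negSucc (nat_lit 143531067427475122694729666396159999999999)), (.ofNat (nat_lit 143531067427475122694729666396160000000000)), (.ofNat (nat_lit 11452099157766070508495831040000000000))⟩,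
    ⟨nat_lit 0, nat_lit 1, nat_lit 3, (.ofNat (nat_lit 16)), (.ofNat (nat_lit 681044374192128)), (.negSucc (nat_lit 176537785347793412651689341623499169047006482006015999999)), (.ofNat (nat_lit 0)), (.ofNat (nat_lit 2349207632881792507198567356492164911595520000000000)), (.ofNat (nat_lit 681044374192096)), (.ofNat (nat_lit 681044374192160)), (.negSucc (nat_lit 143531067427475122694729666396159999999999)), (.ofNat (nat_lit 143531067427475122694729666396160000000000)), (.negSucc (nat_lit 143531067427475122694729666396159999999999)), (.ofNat (nat_lit 143531067427475122694729666396160000000000)), (.ofNat (nat_lit 11452099157766070508495831040000000000))⟩]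
  es := [
    ⟨nat_lit 0, nat_lit 2, (.negSucc (nat_lit 549755813887999)), (.ofNat (nat_lit 681044374192128)), (.negSucc (nat_lit 549755813887967)), (.ofNat (nat_lit 681044374192096)), (.ofNat (nat_lit 143531067427475122694729666396160000000000)), (.negSucc (nat_lit 1908683192961011751415971839999999999)), (.negSucc (nat_lit 1049309682200627568051619935341688913919999999999999))⟩,
    ⟨nat_lit 0, nat_lit 3, (.negSucc (nat_lit 549755813887999)), (.ofNat (nat_lit 681044374192128)), (.negSucc (nat_lit 549755813887967)), (.ofNat (nat_lit 681044374192096)), (.negSucc (nat_lit 143531067427475122694729666396159999999999)), (.ofNat (nat_lit 1908683192961011751415971840000000000)), (.ofNat (nat_lit 1049309682200627568051619935341688913920000000000000))⟩,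
    ⟨nat_lit 2, nat_lit 1, (.ofNat (nat_lit 681044374192128)), (.ofNat (nat_lit 1911844562272256)), (.ofNat (nat_lit 681044374192160)), (.ofNat (nat_lit 1911844562272224)), (.negSucc (nat_lit 143531067427475122694729666396159999999999)), (.ofNat (nat_lit 1908683192961011751415971840000000000)), (.negSucc (nat_lit 3649105583562957446345514777642640909271039999999999))⟩,
    ⟨nat_lit 3, nat_lit 1, (.ofNat (nat_lit 681044374192128)), (.ofNat (nat_lit 1911844562272256)), (.ofNat (nat_lit 681044374192160)), (.ofNat (nat_lit 1911844562272224)), (.ofNat (nat_lit 143531067427475122694729666396160000000000)), (.negSucc (nat_lit 1908683192961011751415971839999999999)), (.ofNat (nat_lit 3649105583562957446345514777642640909271040000000000))⟩]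

theorem ok305 : stOK 3 3 S305 = true := by decide +kernel

def S306 : SD where
  vs := [
    ⟨nat_lit 2, nat_lit 0, nat_lit 1, (.ofNat (nat_lit 16)), (.negSucc (nat_lit 549755813887999)), (.ofNat (nat_lit 120279437284502097135725017355140140065026473984000000)), (.ofNat (nat_lit 0)), (.ofNat (nat_lit 0)), (.negSucc (nat_lit 549755813888031)), (.negSucc (nat_lit 549755813887967)), (.ofNat (nat_lit 143531067427475122694729666396160000000000)), (.negSucc (nat_lit 143531067427475122694729666396159999999999)), (.negSucc (nat_lit 143531067427475122694729666396159999999999)), (.ofNat (nat_lit 143531067427475122694729666396160000000000)), (.ofNat (nat_lit 11452099157766070508495831040000000000))⟩,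
    ⟨nat_lit 1, nat_lit 2, nat_lit 3, (.ofNat (nat_lit 16)), (.ofNat (nat_lit 1911844562272256)), (.ofNat (nat_lit 120279437284502097135725017355140140065026473984000000)), (.ofNat (nat_lit 0)), (.ofNat (nat_lit 0)), (.ofNat (nat_lit 1911844562272224)), (.ofNat (nat_lit 1911844562272288)), (.negSucc (nat_lit 143531067427475122694729666396159999999999)), (.ofNat (nat_lit 143531067427475122694729666396160000000000)), (.negSucc (nat_lit 143531067427475122694729666396159999999999)), (.ofNat (nat_lit 143531067427475122694729666396160000000000)), (.ofNat (nat_lit 11452099157766070508495831040000000000))⟩,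
    ⟨nat_lit 0, nat_lit 0, nat_lit 2, (.ofNat (nat_lit 16)), (.ofNat (nat_lit 681044374192128)), (.ofNat (nat_lit 176778344222362416845960791658209449327136534953984000000)), (.ofNat (nat_lit 0)), (.negSucc (nat_lit 2349207632881792507198567356492164911595519999999999)), (.ofNat (nat_lit 681044374192096)), (.ofNat (nat_lit 681044374192160)), (.ofNat (nat_lit 143531067427475122694729666396160000000000)), (.negSucc (nat_lit 143531067427475122694729666396159999999999)), (.negSucc (nat_lit 143531067427475122694729666396159999999999)), (.ofNat (nat_lit 143531067427475122694729666396160000000000)), (.ofNat (nat_lit 11452099157766070508495831040000000000))⟩,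
    ⟨nat_lit 0, nat_lit 1, nat_lit 3, (.ofNat (nat_lit 16)), (.ofNat (nat_lit 681044374192128)), (.negSucc (nat_lit 176537785347793412651689341623499169047006482006015999999)), (.ofNat (nat_lit 0)), (.ofNat (nat_lit 2349207632881792507198567356492164911595520000000000)), (.ofNat (nat_lit 681044374192096)), (.ofNat (nat_lit 681044374192160)), (.negSucc (nat_lit 143531067427475122694729666396159999999999)), (.ofNat (nat_lit 143531067427475122694729666396160000000000)), (.negSucc (nat_lit 143531067427475122694729666396159999999999)), (.ofNat (nat_lit 143531067427475122694729666396160000000000)), (.ofNat (nat_lit 11452099157766070508495831040000000000))⟩]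
  es := [
    ⟨nat_lit 0, nat_lit 2, (.negSucc (nat_lit 549755813887999)), (.ofNat (nat_lit 681044374192128)), (.negSucc (nat_lit 549755813887967)), (.ofNat (nat_lit 681044374192096)), (.ofNat (nat_lit 143531067427475122694729666396160000000000)), (.negSucc (nat_lit 1908683192961011751415971839999999999)), (.negSucc (nat_lit 1049309682200627568051619935341688913919999999999999))⟩,
    ⟨nat_lit 0, nat_lit 3, (.negSucc (nat_lit 549755813887999)), (.ofNat (nat_lit 681044374192128)), (.negSucc (nat_lit 549755813887967)), (.ofNat (nat_lit 681044374192096)), (.negSucc (nat_lit 143531067427475122694729666396159999999999)), (.ofNat (nat_lit 1908683192961011751415971840000000000)), (.ofNat (nat_lit 1049309682200627568051619935341688913920000000000000))⟩,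
    ⟨nat_lit 2, nat_lit 1, (.ofNat (nat_lit 681044374192128)), (.ofNat (nat_lit 1911844562272256)), (.ofNat (nat_lit 681044374192160)), (.ofNat (nat_lit 1911844562272224)), (.negSucc (nat_lit 143531067427475122694729666396159999999999)), (.ofNat (nat_lit 1908683192961011751415971840000000000)), (.negSucc (nat_lit 3649105583562957446345514777642640909271039999999999))⟩,
    ⟨nat_lit 3, nat_lit 1, (.ofNat (nat_lit 681044374192128)), (.ofNat (nat_lit 1911844562272256)), (.ofNat (nat_lit 681044374192160)), (.ofNat (nat_lit 1911844562272224)), (.ofNat (nat_lit 143531067427475122694729666396160000000000)), (.negSucc (nat_lit 1908683192961011751415971839999999999)), (.ofNat (nat_lit 3649105583562957446345514777642640909271040000000000))⟩]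

theorem ok306 : stOK 3 3 S306 = true := by decide +kernel

def S307 : SD where
  vs := [
    ⟨nat_lit 2, nat_lit 0, nat_lit 1, (.ofNat (nat_lit 16)), (.negSucc (nat_lit 549755813887999)), (.ofNat (nat_lit 120279437284502097135725017355140140065026473984000000)), (.ofNat (nat_lit 0)), (.ofNat (nat_lit 0)), (.negSucc (nat_lit 549755813888031)), (.negSucc (nat_lit 549755813887967)), (.ofNat (nat_lit 143410820386318578954390460170240000000000)), (.negSucc (nat_lit 143410820386318578954390460170239999999999)), (.negSucc (nat_lit 143410820386318578954390460170239999999999)), (.ofNat (nat_lit 143410820386318578954390460170240000000000)), (.ofNat (nat_lit 11452099157766070508495831040000000000))⟩,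
    ⟨nat_lit 1, nat_lit 2, nat_lit 3, (.ofNat (nat_lit 16)), (.ofNat (nat_lit 1911844562272256)), (.ofNat (nat_lit 120279437284502097135725017355140140065026473984000000)), (.ofNat (nat_lit 0)), (.ofNat (nat_lit 0)), (.ofNat (nat_lit 1911844562272224)), (.ofNat (nat_lit 1911844562272288)), (.negSucc (nat_lit 143410820386318578954390460170239999999999)), (.ofNat (nat_lit 143410820386318578954390460170240000000000)), (.negSucc (nat_lit 143410820386318578954390460170239999999999)), (.ofNat (nat_lit 143410820386318578954390460170240000000000)), (.ofNat (nat_lit 11452099157766070508495831040000000000))⟩,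
    ⟨nat_lit 0, nat_lit 0, nat_lit 2, (.ofNat (nat_lit 16)), (.ofNat (nat_lit 681044374192128)), (.ofNat (nat_lit 176630344141490863918007281914750442937706017193984000000)), (.ofNat (nat_lit 0)), (.negSucc (nat_lit 2349207632881792507198567356492164911595519999999999)), (.ofNat (nat_lit 681044374192096)), (.ofNat (nat_lit 681044374192160)), (.ofNat (nat_lit 143410820386318578954390460170240000000000)), (.negSucc (nat_lit 143410820386318578954390460170239999999999)), (.negSucc (nat_lit 143410820386318578954390460170239999999999)), (.ofNat (nat_lit 143410820386318578954390460170240000000000)), (.ofNat (nat_lit 11452099157766070508495831040000000000))⟩,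
    ⟨nat_lit 0, nat_lit 1, nat_lit 3, (.ofNat (nat_lit 16)), (.ofNat (nat_lit 681044374192128)), (.negSucc (nat_lit 176389785266921859723735831880040162657575964246015999999)), (.ofNat (nat_lit 0)), (.ofNat (nat_lit 2349207632881792507198567356492164911595520000000000)), (.ofNat (nat_lit 681044374192096)), (.ofNat (nat_lit 681044374192160)), (.negSucc (nat_lit 143410820386318578954390460170239999999999)), (.ofNat (nat_lit 143410820386318578954390460170240000000000)), (.negSucc (nat_lit 143410820386318578954390460170239999999999)), (.ofNat (nat_lit 143410820386318578954390460170240000000000)), (.ofNat (nat_lit 11452099157766070508495831040000000000))⟩]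
  es := [
    ⟨nat_lit 0, nat_lit 2, (.negSucc (nat_lit 549755813887999)), (.ofNat (nat_lit 681044374192128)), (.negSucc (nat_lit 549755813887967)), (.ofNat (nat_lit 681044374192096)), (.ofNat (nat_lit 143410820386318578954390460170240000000000)), (.negSucc (nat_lit 1908683192961011751415971839999999999)), (.negSucc (nat_lit 1049309682200627568051619935341688913919999999999999))⟩,
    ⟨nat_lit 0, nat_lit 3, (.negSucc (nat_lit 549755813887999)), (.ofNat (nat_lit 681044374192128)), (.negSucc (nat_lit 549755813887967)), (.ofNat (nat_lit 681044374192096)), (.negSucc (nat_lit 143410820386318578954390460170239999999999)), (.ofNat (nat_lit 1908683192961011751415971840000000000)), (.ofNat (nat_lit 1049309682200627568051619935341688913920000000000000))⟩,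
    ⟨nat_lit 2, nat_lit 1, (.ofNat (nat_lit 681044374192128)), (.ofNat (nat_lit 1911844562272256)), (.ofNat (nat_lit 681044374192160)), (.ofNat (nat_lit 1911844562272224)), (.negSucc (nat_lit 143410820386318578954390460170239999999999)), (.ofNat (nat_lit 1908683192961011751415971840000000000)), (.negSucc (nat_lit 3649105583562957446345514777642640909271039999999999))⟩,
    ⟨nat_lit 3, nat_lit 1, (.ofNat (nat_lit 681044374192128)), (.ofNat (nat_lit 1911844562272256)), (.ofNat (nat_lit 681044374192160)), (.ofNat (nat_lit 1911844562272224)), (.ofNat (nat_lit 143410820386318578954390460170240000000000)), (.negSucc (nat_lit 1908683192961011751415971839999999999)), (.ofNat (nat_lit 3649105583562957446345514777642640909271040000000000))⟩]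

theorem ok307 : stOK 3 3 S307 = true := by decide +kernel

def S308 : SD where
  vs := [
    ⟨nat_lit 2, nat_lit 0, nat_lit 1, (.ofNat (nat_lit 16)), (.ofNat (nat_lit 661813121253376)), (.ofNat (nat_lit 120279437284502097135725017355140140065026473984000000)), (.ofNat (nat_lit 19231252938752)), (.ofNat (nat_lit 0)), (.ofNat (nat_lit 661813121253344)), (.ofNat (nat_lit 661813121253408)), (.ofNat (nat_lit 143410820386318578954390460170240000000000)), (.negSucc (nat_lit 143410820386318578954390460170239999999999)), (.negSucc (nat_lit 143410820386318578954390460170239999999999)), (.ofNat (nat_lit 143410820386318578954390460170240000000000)), (.ofNat (nat_lit 0))⟩,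
    ⟨nat_lit 1, nat_lit 2, nat_lit 3, (.ofNat (nat_lit 16)), (.ofNat (nat_lit 700275627130880)), (.ofNat (nat_lit 120279437284502097135725017355140140065026473984000000)), (.negSucc (nat_lit 19231252938751)), (.ofNat (nat_lit 0)), (.ofNat (nat_lit 700275627130848)), (.ofNat (nat_lit 700275627130912)), (.negSucc (nat_lit 143410820386318578954390460170239999999999)), (.ofNat (nat_lit 143410820386318578954390460170240000000000)), (.negSucc (nat_lit 143410820386318578954390460170239999999999)), (.ofNat (nat_lit 143410820386318578954390460170240000000000)), (.ofNat (nat_lit 0))⟩,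
    ⟨nat_lit 0, nat_lit 0, nat_lit 2, (.ofNat (nat_lit 16)), (.ofNat (nat_lit 681044374192128)), (.ofNat (nat_lit 2878249198287726500586843093876941746278166953984000000)), (.ofNat (nat_lit 0)), (.negSucc (nat_lit 2757969761003224403451118076521801606213140479999999999)), (.ofNat (nat_lit 681044374192096)), (.ofNat (nat_lit 681044374192160)), (.ofNat (nat_lit 143410820386318578954390460170240000000000)), (.negSucc (nat_lit 143410820386318578954390460170239999999999)), (.negSucc (nat_lit 143410820386318578954390460170239999999999)), (.ofNat (nat_lit 143410820386318578954390460170240000000000)), (.ofNat (nat_lit 0))⟩,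
    ⟨nat_lit 0, nat_lit 1, nat_lit 3, (.ofNat (nat_lit 16)), (.ofNat (nat_lit 681044374192128)), (.negSucc (nat_lit 2637690323718722306315393059166661466148114006015999999)), (.ofNat (nat_lit 0)), (.ofNat (nat_lit 2757969761003224403451118076521801606213140480000000000)), (.ofNat (nat_lit 681044374192096)), (.ofNat (nat_lit 681044374192160)), (.negSucc (nat_lit 143410820386318578954390460170239999999999)), (.ofNat (nat_lit 143410820386318578954390460170240000000000)), (.negSucc (nat_lit 143410820386318578954390460170239999999999)), (.ofNat (nat_lit 143410820386318578954390460170240000000000)), (.ofNat (nat_lit 0))⟩]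
  es := [
    ⟨nat_lit 0, nat_lit 2, (.ofNat (nat_lit 661813121253376)), (.ofNat (nat_lit 681044374192128)), (.ofNat (nat_lit 661813121253408)), (.ofNat (nat_lit 681044374192096)), (.ofNat (nat_lit 143410820386318578954390460170240000000000)), (.ofNat (nat_lit 0)), (.negSucc (nat_lit 2757969761003224403451118076521801606213140479999999999))⟩,
    ⟨nat_lit 0, nat_lit 3, (.ofNat (nat_lit 661813121253376)), (.ofNat (nat_lit 681044374192128)), (.ofNat (nat_lit 661813121253408)), (.ofNat (nat_lit 681044374192096)), (.negSucc (nat_lit 143410820386318578954390460170239999999999)), (.ofNat (nat_lit 0)), (.ofNat (nat_lit 2757969761003224403451118076521801606213140480000000000))⟩,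
    ⟨nat_lit 2, nat_lit 1, (.ofNat (nat_lit 681044374192128)), (.ofNat (nat_lit 700275627130880)), (.ofNat (nat_lit 681044374192160)), (.ofNat (nat_lit 700275627130848)), (.negSucc (nat_lit 143410820386318578954390460170239999999999)), (.ofNat (nat_lit 0)), (.negSucc (nat_lit 2757969761003224403451118076521801606213140479999999999))⟩,
    ⟨nat_lit 3, nat_lit 1, (.ofNat (nat_lit 681044374192128)), (.ofNat (nat_lit 700275627130880)), (.ofNat (nat_lit 681044374192160)), (.ofNat (nat_lit 700275627130848)), (.ofNat (nat_lit 143410820386318578954390460170240000000000)), (.ofNat (nat_lit 0)), (.ofNat (nat_lit 2757969761003224403451118076521801606213140480000000000))⟩]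

theorem ok308 : stOK 3 3 S308 = true := by decide +kernel

end LCA.CapJ


end
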