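import Mathlib
import Pool.Agent.NDM.C01
import Pool.Agent.NDM.C03
import Pool.Agent.NDM.C11

/-! Parts: LH.INV, LH.STI, LHJ.K2, LHE.EPC, LCA.WPR, LHE.IDX, LHE.ADJ -/

section

/-!
# Module INV: the main theorem of part C, connectedness argument
-/

namespace LH

open Set LG

namespace INV

/-- All good walks of the polygon `P'` are equivalent to the list `L`. -/
def Pr {N : ℕ} (L : List En) (P' : Pg N) : Prop :=
  ∀ (X' : Finset ℝ) (w' : List It), GoodX P' X' → GW P' X' w' → WE L (lst P' w')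

/-- One good walk is enough. -/
lemma Pr_of {N : ℕ} (hWEB : P_WEB) (hIN1 : P_IN1) {L : List En} {P' : Pg N} {X₁ : Finset ℝ}
    {w₁ : List It} (hg : GoodX P' X₁) (hw : GW P' X₁ w₁) (h : WE L (lst P' w₁)) : Pr L P' :=
  fun X' w' hg' hw' => hWEB.trans _ _ _ h (hIN1 P' X₁ X' w₁ w' hg hw hg' hw')

/-- `Pr` is locally constant along a path. -/
lemma local_const {N : ℕ} (hN : 0 < N) (hWEB : P_WEB) (hEXW : P_EXW) (hEGX : P_EGX)
    (hIN1 : P_IN1) (hOPG : P_OPG) (hOPW : P_OPW) (hLOC : P_LOC) (hCWG : P_CWG)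
    (F : ℝ → Pg N) (L : List En) (t₀ : ℝ) (he : Emb (F t₀)) (hc : CtA F t₀) :
    ∀ᶠ t in nhdsWithin t₀ (Icc 0 1), (Pr L (F t₀) ↔ Pr L (F t)) := by
  obtain ⟨X₁, -, hg, hev, hs⟩ := hEGX (F t₀) hN he ∅ (by simp)
  obtain ⟨w₁, hw⟩ := hEXW (F t₀) X₁ hN (fun s hs i h => hev s hs (Or.inl ⟨i, h⟩)) hg.lo hg.hi hs
  have hcw := hCWG (F t₀) X₁ w₁ hg hw
  filter_upwards [hOPG F t₀ X₁ hN hc hg, hOPW F t₀ X₁ w₁ hN hc hw, hLOC F t₀ w₁ hN hc hcw]
    with t h1 h2 h3
  constructor
  · intro h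
    exact Pr_of hWEB hIN1 h1 h2 (hWEB.trans _ _ _ (h X₁ w₁ hg hw) h3)
  · intro h
    exact Pr_of hWEB hIN1 hg hw (hWEB.trans _ _ _ (h X₁ w₁ h1 h2) (hWEB.symm _ _ h3))

end INV

theorem t_INV : Stmt_INV := by
  intro hSEQ hWEB _ hEXW hEGX hIN1 hOPG hOPW hLOC hZSH hCWG N P P' hp X X' w w' hX hw hX' hw'
  obtain ⟨F, hE, hcx, hcy, hcz, h0x, h0y, h1x, h1y⟩ := hp
  have hN : 0 < N := hSEQ.pos P X w hw.1
  have key : INV.Pr (lst P w) (F 0) ↔ INV.Pr (lst P w) (F 1) :=
    isPreconnected_Icc.induction₂ (fun s t => INV.Pr (lst P w) (F s) ↔ INV.Pr (lst P w) (F t))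
      (fun t₀ ht₀ => INV.local_const hN hWEB hEXW hEGX hIN1 hOPG hOPW hLOC hCWG F (lst P w) t₀
        (hE t₀ ht₀) (fun i => ⟨hcx i t₀ ht₀, hcy i t₀ ht₀, hcz i t₀ ht₀⟩))
      (fun _ _ _ _ _ _ h1 h2 => h1.trans h2) (fun _ _ _ _ h => h.symm)
      (left_mem_Icc.mpr zero_le_one) (right_mem_Icc.mpr zero_le_one)
  obtain ⟨a1, -, a3, a4, -⟩ := hZSH P (F 0) w h0x.symm h0y.symm (hCWG P X w hX hw)
  obtain ⟨b1, -, b3, b4, -⟩ := hZSH P' (F 1) w' h1x.symm h1y.symm (hCWG P' X' w' hX' hw')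
  have hPr1 := key.mp (INV.Pr_of hWEB hIN1 (a3 X hX) (a4 X hw) a1)
  exact hWEB.trans _ _ _ (hPr1 X' w' (b3 X' hX') (b4 X' hw')) (hWEB.symm _ _ b1)

end LH


end

section

/-!
# STI: the dichotomy for two items of the same component, increasing in `y`
-/

set_option autoImplicit false

namespace LH

open Set LG

namespace STI

theorem adj_right {Y : Finset ℝ} {s d t : ℝ} (h : AdjX Y s d) (h' : AdjX Y s t) : t = d := by
  obtain ⟨_, hd, hsd, h1⟩ := h
  obtain ⟨_, ht, hst, h2⟩ := h'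
  rcases lt_trichotomy t d with h3 | h3 | h3
  · exact absurd ⟨hst, h3⟩ (h1 t ht)
  · exact h3
  · exact absurd ⟨hsd, h3⟩ (h2 d hd)

theorem adj_left {Y : Finset ℝ} {a s t : ℝ} (h : AdjX Y a s) (h' : AdjX Y t s) : t = a := by
  obtain ⟨ha, _, hsd, h1⟩ := h
  obtain ⟨ht, _, hst, h2⟩ := h'
  rcases lt_trichotomy t a with h3 | h3 | h3
  · exact absurd ⟨h3, hsd⟩ (h2 a ha)
  · exact h3
  · exact absurd ⟨h3, hst⟩ (h1 t ht)

theorem chain_lt (f : ℤ → ℝ) (i j : ℤ) (hij : i < j) (h : ∀ m, i ≤ m → m < j → f m < f (m + 1)) :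
    f i < f j := by
  have key : ∀ k : ℤ, i + 1 ≤ k → k ≤ j → f i < f k := by
    intro k hk
    induction k, hk using Int.leInduction with
    | base => intro _; exact h i le_rfl hij
    | succ k hk ih =>
      intro hkj
      exact (ih (by omega)).trans (h k (by omega) (by omega))
  exact key j (by omega) le_rfl

theorem chain_gt (f : ℤ → ℝ) (i j : ℤ) (hij : i < j) (h : ∀ m, i ≤ m → m < j → f (m + 1) < f m) :
    f j < f i := by
  have := chain_lt (fun k => - f k) i j hij (fun m h1 h2 => by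
    have := h m h1 h2
    linarith)
  linarith

variable {N : ℕ} {P : Pg N} {a b s d : ℝ} {Y : Finset ℝ} {w : List It} {W : ℤ → It}

theorem lnk' (S : Sit P a b s d Y w W) (n : ℤ) : Lnk P Y (W (n - 1)) (W n) := by
  have h := S.sq.lnk (n - 1)
  rwa [sub_add_cancel] at h

theorem las (S : Sit P a b s d Y w W) : a < s := S.l.2.2.1
theorem sd (S : Sit P a b s d Y w W) : s < d := S.r.2.2.1

/-- the next item -/
theorem nx (S : Sit P a b s d Y w W) (n : ℤ) (hn : (W n).t = s) :
    (W (n + 1)).t = d ∧ (W n).k.fw ∧ (W (n + 1)).k.ar ∧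
        (∀ m, (W n).e < m → m ≤ (W (n + 1)).e → s < P.x m ∧ P.x m < d) ∨
      (W (n + 1)).t = a ∧ ¬ (W n).k.fw ∧ ¬ (W (n + 1)).k.ar ∧
        ∀ m, (W n).e < m → m ≤ (W (n + 1)).e → a < P.x m ∧ P.x m < s := by
  have h := S.sq.lnk n
  have h1 := las S
  have h2 := sd S
  rcases h.dir with ⟨h3, h4, h5⟩ | ⟨h3, h4, h5⟩
  · left
    have h6 : (W (n + 1)).t = d := by
      rcases h.adj with h6 | h6
      · rw [hn] at h6; exact adj_right S.r h6
      · exact absurd h6.2.2.1 (not_lt.mpr h5.le)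
    refine ⟨h6, h3, h4, fun m hm1 hm2 => ?_⟩
    rcases h.ins m hm1 hm2 with h7 | h7
    · rw [hn, h6] at h7; exact h7
    · rw [hn, h6] at h7; exfalso; linarith [h7.1, h7.2]
  · right
    have h6 : (W (n + 1)).t = a := by
      rcases h.adj with h6 | h6
      · exact absurd h6.2.2.1 (not_lt.mpr h5.le)
      · rw [hn] at h6; exact adj_left S.l h6
    refine ⟨h6, h3, h4, fun m hm1 hm2 => ?_⟩
    rcases h.ins m hm1 hm2 with h7 | h7
    · rw [hn, h6] at h7; exfalso; linarith [h7.1, h7.2]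
    · rw [hn, h6] at h7; exact h7

/-- the previous item -/
theorem pv (S : Sit P a b s d Y w W) (n : ℤ) (hn : (W n).t = s) :
    (W (n - 1)).t = d ∧ ¬ (W n).k.ar ∧
        (∀ m, (W (n - 1)).e < m → m ≤ (W n).e → s < P.x m ∧ P.x m < d) ∨
      (W (n - 1)).t = a ∧ (W n).k.ar ∧
        ∀ m, (W (n - 1)).e < m → m ≤ (W n).e → a < P.x m ∧ P.x m < s := by
  have h := lnk' S n
  have h1 := las S
  have h2 := sd S
  rcases h.dir with ⟨h3, h4, h5⟩ | ⟨h3, h4, h5⟩
  · right
    have h6 : (W (n - 1)).t = a := by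
      rcases h.adj with h6 | h6
      · rw [hn] at h6; exact adj_left S.l h6
      · exact absurd h6.2.2.1 (not_lt.mpr h5.le)
    refine ⟨h6, h4, fun m hm1 hm2 => ?_⟩
    rcases h.ins m hm1 hm2 with h7 | h7
    · rw [hn, h6] at h7; exact h7
    · rw [hn, h6] at h7; exfalso; linarith [h7.1, h7.2]
  · left
    have h6 : (W (n - 1)).t = d := by
      rcases h.adj with h6 | h6
      · exact absurd h6.2.2.1 (not_lt.mpr h5.le)
      · rw [hn] at h6; exact adj_right S.r h6
    refine ⟨h6, h4, fun m hm1 hm2 => ?_⟩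
    rcases h.ins m hm1 hm2 with h7 | h7
    · rw [hn, h6] at h7; exfalso; linarith [h7.1, h7.2]
    · rw [hn, h6] at h7; exact h7

theorem nx_in (S : Sit P a b s d Y w W) (n p q : ℤ) (hn : (W n).t = s) (hC : Comp P a b p q)
    (h2 : (W n).e ≤ q) : (W (n + 1)).e ≤ q := by
  by_contra hcon
  push Not at hcon
  have h3 := las S
  have h4 := sd S
  have h5 := S.db
  have h6 : a < P.x (q + 1) ∧ P.x (q + 1) < b := by
    rcases nx S n hn with ⟨_, _, _, h⟩ | ⟨_, _, _, h⟩
    · obtain ⟨h7, h8⟩ := h (q + 1) (by omega) (by omega)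
      exact ⟨by linarith, by linarith⟩
    · obtain ⟨h7, h8⟩ := h (q + 1) (by omega) (by omega)
      exact ⟨by linarith, by linarith⟩
  rcases hC.lst with h | h
  · linarith [h6.1]
  · linarith [h6.2]

theorem pv_in (S : Sit P a b s d Y w W) (n p q : ℤ) (hn : (W n).t = s) (hC : Comp P a b p q)
    (h1 : p ≤ (W n).e) : p ≤ (W (n - 1)).e := by
  by_contra hcon
  push Not at hcon
  have h3 := las S
  have h4 := sd S
  have h5 := S.db
  have h6 : a < P.x p ∧ P.x p < b := by
    rcases pv S n hn with ⟨_, _, h⟩ | ⟨_, _, h⟩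
    · obtain ⟨h7, h8⟩ := h p (by omega) (by omega)
      exact ⟨by linarith, by linarith⟩
    · obtain ⟨h7, h8⟩ := h p (by omega) (by omega)
      exact ⟨by linarith, by linarith⟩
  rcases hC.fst with h | h
  · linarith [h6.1]
  · linarith [h6.2]

theorem mle (hseq : P_SEQ) (S : Sit P a b s d Y w W) (n n' : ℤ) (h : n ≤ n') :
    (W n).e ≤ (W n').e := hseq.mo P Y w W S.sq n n' h

/-- bounds for the heights on the right side -/
theorem ri_bd (hpgb : P_PGB) (hinc : P_INC) (hseq : P_SEQ) (S : Sit P a b s d Y w W) (n p q : ℤ)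
    (hn : (W n).t = s) (hC : Comp P a b p q) (h1 : p ≤ (W n).e) (h2 : (W n).e ≤ q)
    (hy : StrictMonoOn P.y (Icc p q)) (h : ℝ) (hh : h ∈ RI P W d n) :
    ∃ j, (j = n - 1 ∧ (W j).t = d ∨ j = n ∧ (W n).k = .R ∨ j = n + 1 ∧ (W j).t = d) ∧
      h - P.l (W n).e s ≤ P.y (W (max j n)).e * (d - s) ∧
      P.y (W (min j n)).e * (d - s) ≤ h - P.l (W n).e s := by
  have has := las S
  have hsd := sd S
  rcases hh with ⟨j, hj | hj, hj2, hj3⟩ | ⟨hk, hh⟩
  · subst hj
    rcases pv S n hn with ⟨h6, h7, h8⟩ | ⟨h6, h7, h8⟩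
    · refine ⟨n - 1, Or.inl ⟨rfl, h6⟩, ?_⟩
      rw [max_eq_right (by omega), min_eq_left (by omega)]
      have h9 := pv_in S n p q hn hC h1
      have h10 := mle hseq S (n - 1) n (by omega)
      have h11 := hinc.l P (W (n - 1)).e (W n).e s d (P.y (W (n - 1)).e) (P.y (W n).e) h10 hsd
        h8 (fun k hk1 hk2 => ⟨hy.monotoneOn ⟨h9, by omega⟩ ⟨by omega, by omega⟩ hk1,
          hy.monotoneOn ⟨by omega, by omega⟩ ⟨h1, h2⟩ hk2⟩)
        (Or.inl (Or.inl (hy.mono (Icc_subset_Icc h9 h2))))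
      rw [hj3, h6]
      exact ⟨h11.2, h11.1⟩
    · exfalso; rw [hn, h6] at hj2; linarith
  · subst hj
    rcases nx S n hn with ⟨h6, h7, h7', h8⟩ | ⟨h6, h7, h7', h8⟩
    · refine ⟨n + 1, Or.inr (Or.inr ⟨rfl, h6⟩), ?_⟩
      rw [max_eq_left (by omega), min_eq_right (by omega)]
      have h9 := nx_in S n p q hn hC h2
      have h10 := mle hseq S n (n + 1) (by omega)
      have h11 := hinc.r P (W n).e (W (n + 1)).e s d (P.y (W n).e) (P.y (W (n + 1)).e) h10 hsd
        h8 (fun k hk1 hk2 => ⟨hy.monotoneOn ⟨h1, h2⟩ ⟨by omega, by omega⟩ hk1,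
          hy.monotoneOn ⟨by omega, by omega⟩ ⟨by omega, h9⟩ hk2⟩)
        (Or.inl (Or.inl (hy.mono (Icc_subset_Icc h1 h9))))
      rw [hj3, h6]
      exact ⟨h11.2, h11.1⟩
    · exfalso; rw [hn, h6] at hj2; linarith
  · refine ⟨n, Or.inr (Or.inl ⟨rfl, hk⟩), ?_⟩
    rw [max_self, min_self, hh, hpgb.dt]
    exact ⟨le_rfl, le_rfl⟩

/-- membership in the component -/
theorem mem_comp (hseq : P_SEQ) (S : Sit P a b s d Y w W) (n p q : ℤ)
    (hn : (W n).t = s) (hC : Comp P a b p q) (h1 : p ≤ (W n).e) (h2 : (W n).e ≤ q) (j : ℤ)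
    (hj : j = n - 1 ∨ j = n ∨ j = n + 1) : p ≤ (W j).e ∧ (W j).e ≤ q := by
  rcases hj with rfl | rfl | rfl
  · exact ⟨pv_in S n p q hn hC h1, (mle hseq S (n - 1) n (by omega)).trans h2⟩
  · exact ⟨h1, h2⟩
  · exact ⟨h1.trans (mle hseq S n (n + 1) (by omega)), nx_in S n p q hn hC h2⟩

theorem not_adj (S : Sit P a b s d Y w W) (n n' : ℤ) (hn : (W n).t = s) (hn' : (W n').t = s)
    (h : n < n') : n + 2 ≤ n' := by
  by_contra hcon
  have h1 : n' = n + 1 := by omega
  subst h1
  have has := las S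
  have hsd := sd S
  rcases nx S n hn with ⟨h2, _⟩ | ⟨h2, _⟩
  · rw [hn'] at h2; linarith
  · rw [hn'] at h2; linarith

theorem partA (hpgb : P_PGB) (hinc : P_INC) (hseq : P_SEQ) (S : Sit P a b s d Y w W)
    (n n' p q : ℤ) (hnn : n < n') (hn : (W n).t = s) (hn' : (W n').t = s) (hC : Comp P a b p q)
    (h1 : p ≤ (W n).e) (h2 : (W n).e ≤ q) (h1' : p ≤ (W n').e) (h2' : (W n').e ≤ q)
    (hy : StrictMonoOn P.y (Icc p q)) (hl : P.l (W n).e s ≤ P.l (W n').e s) :
    ∀ x ∈ RI P W d n', ∀ y ∈ RI P W d n, y < x := by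
  intro x hx y hy'
  have has := las S
  have hsd := sd S
  have h22 := not_adj S n n' hn hn' hnn
  obtain ⟨j, hj, hj1, _⟩ := ri_bd hpgb hinc hseq S n p q hn hC h1 h2 hy y hy'
  obtain ⟨j', hj', _, hj1'⟩ := ri_bd hpgb hinc hseq S n' p q hn' hC h1' h2' hy x hx
  have hα : p ≤ (W (max j n)).e ∧ (W (max j n)).e ≤ q :=
    mem_comp hseq S n p q hn hC h1 h2 _ (by
      rcases hj with ⟨h, _⟩ | ⟨h, _⟩ | ⟨h, _⟩
      · right; left; rw [h]; exact max_eq_right (by omega)
      · right; left; rw [h]; exact max_self _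
      · right; right; rw [h]; exact max_eq_left (by omega))
  have hβ : p ≤ (W (min j' n')).e ∧ (W (min j' n')).e ≤ q :=
    mem_comp hseq S n' p q hn' hC h1' h2' _ (by
      rcases hj' with ⟨h, _⟩ | ⟨h, _⟩ | ⟨h, _⟩
      · left; rw [h]; exact min_eq_left (by omega)
      · right; left; rw [h]; exact min_self _
      · right; left; rw [h]; exact min_eq_right (by omega))
  have key : (W (max j n)).e < (W (min j' n')).e := by
    -- the positions of `alpha` and `beta`
    have hA : (max j n = n + 1 ∧ (W (n + 1)).t = d) ∨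
        (max j n = n ∧ ((W n).k = .R ∨ (W (n - 1)).t = d)) := by
      rcases hj with ⟨h, h'⟩ | ⟨h, h'⟩ | ⟨h, h'⟩
      · right; rw [h] at h' ⊢; exact ⟨max_eq_right (by omega), Or.inr h'⟩
      · right; rw [h]; exact ⟨max_self _, Or.inl h'⟩
      · left; rw [h] at h' ⊢; exact ⟨max_eq_left (by omega), h'⟩
    have hB : (min j' n' = n' - 1 ∧ (W (n' - 1)).t = d) ∨ min j' n' = n' := by
      rcases hj' with ⟨h, h'⟩ | ⟨h, h'⟩ | ⟨h, h'⟩
      · left; rw [h] at h' ⊢; exact ⟨min_eq_left (by omega), h'⟩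
      · right; rw [h]; exact min_self _
      · right; rw [h]; exact min_eq_right (by omega)
    set α := max j n with hαd
    set β := min j' n' with hβd
    have hBt : (W β).t = d ∨ (W β).t = s := by
      rcases hB with ⟨h, h'⟩ | h
      · left; rw [h]; exact h'
      · right; rw [h]; exact hn'
    have hαβ : α ≤ β := by
      rcases hA with ⟨h, _⟩ | ⟨h, _⟩ <;> rcases hB with ⟨h', _⟩ | h' <;> rw [h, h'] <;> omega
    rcases eq_or_lt_of_le hαβ with heq | hlt
    · -- a common right neighbour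
      exfalso
      have h3 : α = n + 1 ∧ (W (n + 1)).t = d ∧ n' = n + 2 := by
        rcases hA with ⟨h, h'⟩ | ⟨h, _⟩ <;> rcases hB with ⟨h'', _⟩ | h''
        · exact ⟨h, h', by omega⟩
        · omega
        · omega
        · omega
      obtain ⟨_, h4, h5⟩ := h3
      have h6 : ∀ m, (W n).e < m → m ≤ (W n').e → s < P.x m := by
        intro m hm1 hm2
        by_cases hm : m ≤ (W (n + 1)).e
        · rcases nx S n hn with ⟨_, _, _, h⟩ | ⟨h, _⟩
          · exact (h m hm1 hm).1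
          · rw [h4] at h; linarith
        · push Not at hm
          have h7 : n' - 1 = n + 1 := by omega
          rcases pv S n' hn' with ⟨_, _, h⟩ | ⟨h, _⟩
          · exact (h m (by rw [h7]; exact hm) hm2).1
          · rw [h7, h4] at h; linarith
      have h7 := hseq.lt P Y w W S.sq n n' hnn (by rw [hn, hn'])
      have h8 := hpgb.m2 P (W n).e (W n').e s h7 (hy.mono (Icc_subset_Icc h1 h2')) h6
      linarith
    · rcases lt_or_eq_of_le (mle hseq S α β hαβ) with h3 | h3
      · exact h3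
      exfalso
      rcases hseq.eq P Y w W S.sq α β hlt h3 with h4 | h4
      · have h5 := chain_lt (fun m => (W m).t) α β hlt (fun m hm1 hm2 => (h4 m hm1 hm2).2)
        rcases hA with ⟨h, h'⟩ | ⟨h, h'⟩
        · rw [h, h'] at h5
          rcases hBt with h6 | h6 <;> rw [h6] at h5 <;> linarith
        · have h6 := (h4 α le_rfl hlt).1
          rw [h] at h6
          rcases h' with h' | h'
          · rw [h'] at h6; exact Kd.noConfusion h6
          · rcases pv S n hn with ⟨_, h7, _⟩ | ⟨h7, _⟩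
            · rw [h6] at h7; exact h7 trivial
            · rw [h7] at h'; linarith
      · have h5 := chain_gt (fun m => (W m).t) α β hlt (fun m hm1 hm2 => (h4 m hm1 hm2).2)
        have h6 := (h4 α le_rfl hlt).1
        rcases hA with ⟨h, h'⟩ | ⟨h, h'⟩
        · rw [h] at h6
          rcases nx S n hn with ⟨_, _, h7, _⟩ | ⟨h7, _⟩
          · rw [h6] at h7; exact h7
          · rw [h7] at h'; linarith
        · rw [h, hn] at h5
          rcases hBt with h7 | h7 <;> rw [h7] at h5 <;> linarith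
  have h10 : P.y (W (max j n)).e < P.y (W (min j' n')).e := hy hα hβ key
  have h11 : P.y (W (max j n)).e * (d - s) < P.y (W (min j' n')).e * (d - s) :=
    mul_lt_mul_of_pos_right h10 (by linarith)
  linarith

/-- the heights on the left side -/
theorem ki_bd (S : Sit P a b s d Y w W) (n : ℤ)
    (hn : (W n).t = s) (h : ℝ) (hh : h ∈ KI P W a n) :
    ∃ j, (j = n - 1 ∧ (W j).t = a ∨ j = n ∧ (W n).k = .L ∨ j = n + 1 ∧ (W j).t = a) ∧
      h = P.l (W j).e a := by
  have has := las S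
  have hsd := sd S
  rcases hh with ⟨j, hj | hj, hj2, hj3⟩ | ⟨hk, hh⟩
  · subst hj
    rcases pv S n hn with ⟨h6, _⟩ | ⟨h6, _⟩
    · exfalso; rw [hn, h6] at hj2; linarith
    · exact ⟨n - 1, Or.inl ⟨rfl, h6⟩, by rw [hj3, h6]⟩
  · subst hj
    rcases nx S n hn with ⟨h6, _⟩ | ⟨h6, _⟩
    · exfalso; rw [hn, h6] at hj2; linarith
    · exact ⟨n + 1, Or.inr (Or.inr ⟨rfl, h6⟩), by rw [hj3, h6]⟩
  · exact ⟨n, Or.inr (Or.inl ⟨rfl, hk⟩), hh⟩

theorem partB (hpgb : P_PGB) (hseq : P_SEQ) (S : Sit P a b s d Y w W)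
    (n n' p q : ℤ) (hnn : n < n') (hn : (W n).t = s) (hn' : (W n').t = s) (hC : Comp P a b p q)
    (h1 : p ≤ (W n).e) (h2 : (W n).e ≤ q) (h1' : p ≤ (W n').e) (h2' : (W n').e ≤ q)
    (hy : StrictMonoOn P.y (Icc p q)) (hl : P.l (W n').e s ≤ P.l (W n).e s) :
    ∀ x ∈ KI P W a n, ∀ y ∈ KI P W a n', y < x := by
  intro x hx y hy'
  have has := las S
  have hsd := sd S
  have h22 := not_adj S n n' hn hn' hnn
  obtain ⟨α, hj, hj1⟩ := ki_bd S n hn x hx
  obtain ⟨β, hj', hj1'⟩ := ki_bd S n' hn' y hy'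
  have hα : p ≤ (W α).e ∧ (W α).e ≤ q :=
    mem_comp hseq S n p q hn hC h1 h2 _ (by
      rcases hj with ⟨h, _⟩ | ⟨h, _⟩ | ⟨h, _⟩
      · left; exact h
      · right; left; exact h
      · right; right; exact h)
  have hβ : p ≤ (W β).e ∧ (W β).e ≤ q :=
    mem_comp hseq S n' p q hn' hC h1' h2' _ (by
      rcases hj' with ⟨h, _⟩ | ⟨h, _⟩ | ⟨h, _⟩
      · left; exact h
      · right; left; exact h
      · right; right; exact h)
  have hαβ : α ≤ β := by
    rcases hj with ⟨h, _⟩ | ⟨h, _⟩ | ⟨h, _⟩ <;> rcases hj' with ⟨h', _⟩ | ⟨h', _⟩ | ⟨h', _⟩ <;> omega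
  have key : (W α).e < (W β).e := by
    rcases eq_or_lt_of_le hαβ with heq | hlt
    · -- a common left neighbour
      exfalso
      have h3 : α = n + 1 ∧ (W (n + 1)).t = a ∧ n' = n + 2 := by
        rcases hj with ⟨h, _⟩ | ⟨h, _⟩ | ⟨h, hh⟩ <;>
          rcases hj' with ⟨h', _⟩ | ⟨h', _⟩ | ⟨h', _⟩
        · omega
        · omega
        · omega
        · omega
        · omega
        · omega
        · rw [h] at hh; exact ⟨h, hh, by omega⟩
        · omega
        · omega
      obtain ⟨_, h4, h5⟩ := h3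
      have h6 : ∀ m, (W n).e < m → m ≤ (W n').e → P.x m < s := by
        intro m hm1 hm2
        by_cases hm : m ≤ (W (n + 1)).e
        · rcases nx S n hn with ⟨h, _⟩ | ⟨_, _, _, h⟩
          · rw [h4] at h; linarith
          · exact (h m hm1 hm).2
        · push Not at hm
          have h7 : n' - 1 = n + 1 := by omega
          rcases pv S n' hn' with ⟨h, _⟩ | ⟨_, _, h⟩
          · rw [h7, h4] at h; linarith
          · exact (h m (by rw [h7]; exact hm) hm2).2
      have h7 := hseq.lt P Y w W S.sq n n' hnn (by rw [hn, hn'])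
      have h8 := hpgb.m1 P (W n).e (W n').e s h7 (hy.mono (Icc_subset_Icc h1 h2')) h6
      linarith
    · rcases lt_or_eq_of_le (mle hseq S α β hαβ) with h3 | h3
      · exact h3
      exfalso
      -- `alpha` is on the line `a`
      have hαa : (W α).t = a := by
        rcases hj with ⟨h, h'⟩ | ⟨h, h'⟩ | ⟨h, h'⟩
        · exact h'
        · exfalso
          rcases hseq.eq P Y w W S.sq α β hlt h3 with h4 | h4
          · have h6 := (h4 α le_rfl hlt).1
            rw [h, h'] at h6; exact Kd.noConfusion h6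
          · have h6 := (h4 α le_rfl hlt).1
            rw [h, h'] at h6; exact Kd.noConfusion h6
        · exact h'
      have hβ' : β = n' ∧ (W n').k = .L := by
        rcases hj' with ⟨h, h'⟩ | ⟨h, h'⟩ | ⟨h, h'⟩
        · exact absurd (hseq.lt P Y w W S.sq α β hlt (by rw [hαa, h'])) (by omega)
        · exact ⟨h, h'⟩
        · exact absurd (hseq.lt P Y w W S.sq α β hlt (by rw [hαa, h'])) (by omega)
      obtain ⟨h4, h5⟩ := hβ'
      rcases hseq.eq P Y w W S.sq α β hlt h3 with h6 | h6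
      · have h7 := (h6 (n' - 1) (by omega) (by omega)).2
        rw [sub_add_cancel, hn'] at h7
        rcases pv S n' hn' with ⟨h8, _⟩ | ⟨_, h8, _⟩
        · rw [h8] at h7; linarith
        · rw [h5] at h8; exact h8
      · have h7 := chain_gt (fun m => (W m).t) α β hlt (fun m hm1 hm2 => (h6 m hm1 hm2).2)
        rw [hαa, h4, hn'] at h7
        linarith
  have h10 := hpgb.m2 P (W α).e (W β).e a key (hy.mono (Icc_subset_Icc hα.1 hβ.2))
    (fun m hm1 hm2 => (hC.ins m (by omega) (by omega)).1)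
  rw [hj1, hj1']
  exact h10

end STI

theorem t_STI : Stmt_STI := by
  intro hpgb hinc _ hseq N P a b s d Y w W S n n' p q hne hn hn' hC h1 h2 h1' h2' hy hl
  rcases lt_or_gt_of_ne hne with h | h
  · right
    exact STI.partA hpgb hinc hseq S n n' p q h hn hn' hC h1 h2 h1' h2' hy hl
  · left
    exact STI.partB hpgb hseq S n' n p q h hn' hn hC h1' h2' h1 h2 hy hl

end LH


end

section

/-!
# The path, part 2
-/

set_option maxRecDepth 100000

namespace LHJ

/-- Program 7. -/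
def O7 : List Op :=
   [.row 195, .rot 307, .sc, .rot 141, .col 21, .rot 306, .sr, .rot 227, .col 54, .rot 305, .sr, .rot 252,
    .row 311, .rot 304, .sc, .rot 80, .col 468, .rot 303, .sr, .rot 232, .col 459, .sr, .rot 75, .row 457,
    .sc, .rot 281, .row 277, .sc, .rot 198, .col 348]

theorem r7 : run O7 M7 = some M8 := by decide +kernel

/-- Program 8. -/
def O8 : List Op :=
   [.sr, .rot 123, .col 457, .rot 298, .sr, .rot 206, .row 156, .rot 297, .sc, .rot 15, .row 401, .rot 296,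
    .sc, .rot 65, .col 419, .rot 295, .sr, .rot 86, .row 58, .rot 294, .sc, .rot 2, .row 94, .rot 293,
    .sc, .rot 148, .sr, .rot 55, .row 397, .sc, .rot 227]

theorem r8 : run O8 M8 = some M9 := by decide +kernel

/-- Program 9. -/
def O9 : List Op :=
   [.col 369, .sr, .rot 72, .sc, .rot 8, .row 410, .sc, .rot 271, .row 418, .sc, .rot 242, .col 383,
    .sr, .rot 120, .col 28, .rot 285, .sr, .rot 255, .row 97, .sc, .rot 10, .row 8, .sc, .rot 167,
    .row 364, .rot 282, .sc, .rot 280, .col 343, .sr, .rot 148, .col 165]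

theorem r9 : run O9 M9 = some M10 := by decide +kernel

/-- Program 10. -/
def O10 : List Op :=
   [.sr, .rot 145, .col 435, .sr, .rot 252, .sc, .rot 27, .col 421, .sr, .rot 130, .col 141, .sr,
    .rot 143, .col 455, .rot 275, .sr, .rot 158, .col 389, .rot 274, .sr, .rot 124, .col 352, .sr, .rot 225,
    .row 306, .rot 272, .sc, .rot 84, .row 290, .sc, .rot 59, .row 3, .sc]

theorem r10 : run O10 M10 = some M11 := by decide +kernel

/-- Program 11. -/
def O11 : List Op :=
   [.rot 198, .row 108, .rot 269, .sc, .rot 188, .sr, .rot 89, .row 225, .sc, .rot 87, .col 86, .sr,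
    .rot 178, .col 146, .rot 265, .sr, .rot 132, .row 160, .sc, .rot 84, .row 240, .rot 263, .sc, .rot 59,
    .sr, .rot 70, .sr, .rot 99, .col 348, .sr, .rot 200, .col 300, .rot 259, .sr]

theorem r11 : run O11 M11 = some M12 := by decide +kernel

/-- Program 12. -/
def O12 : List Op :=
   [.rot 210, .col 27, .rot 258, .sr, .rot 135, .col 143, .sr, .rot 50, .col 90, .rot 256, .sr, .rot 124,
    .col 263, .rot 255, .sr, .rot 86, .col 222, .sr, .rot 1, .col 280, .sr, .rot 184, .row 63, .sc,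
    .rot 69, .col 369, .sr, .rot 63, .row 435, .sc, .rot 150, .sc, .rot 163, .row 44, .rot 248, .sc]

theorem r12 : run O12 M12 = some M13 := by decide +kernel

/-- Program 13. -/
def O13 : List Op :=
   [.rot 204, .col 239, .sr, .rot 9, .row 138, .sc, .rot 218, .sc, .rot 104, .row 140, .sc, .rot 125,
    .col 225, .rot 243, .sr, .rot 126, .col 43, .sr, .rot 119, .col 304, .rot 241, .sr, .rot 83, .row 245,
    .rot 240, .sc, .rot 168, .col 482, .rot 239, .sr, .rot 236, .col 462, .rot 238, .sr, .rot 2, .sr,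
    .rot 48, .col 18]

theorem r13 : run O13 M13 = some M14 := by decide +kernel

end LHJ


end

section

/-!
# Choice of a generic shift
-/

namespace LHE

open Set LG LH

namespace EPC

theorem ln_eq (X₀ w ε : ℝ) (n : ℤ) : ln X₀ w ε n = ln X₀ w 0 n + ε := by
  unfold ln; ring

end EPC

theorem t_EPC : Stmt_EPC := by
  intro Λ X₀ w lo hi hw
  have hc : (range fun p : ℚ × ℤ => Λ.x p.1 - ln X₀ w 0 p.2).Countable := countable_range _
  obtain ⟨ε, hε, h⟩ := (hc.dense_compl ℝ).exists_between (show (0 : ℝ) < w / 16 by positivity)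
  refine ⟨ε, h.1, h.2, fun t ht q hq => hε ?_⟩
  obtain ⟨n, -, rfl⟩ := Finset.mem_image.1 ht
  exact ⟨(q, n), by simp only [hq, EPC.ln_eq X₀ w ε n]; ring⟩

end LHE


end

section

/-!
# WPR: profiles with decreasing widths
-/

namespace LCA

open Set Filter
open scoped ContDiff Topology

namespace WPR

/-! ### The cutoff function -/

/-- A smooth function which is `0` for `v ≤ -1` and `1` for `v ≥ 2`, with derivative in
`[-1, 1]`. -/
noncomputable def g (sh : Shape) (v : ℝ) : ℝ := sh.ΘP v - sh.ΘP (v - 1)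

theorem g_low (sh : Shape) {v : ℝ} (hv : v ≤ -1) : g sh v = 0 := by
  rw [g, sh.ΘP_low v hv, sh.ΘP_low (v - 1) (by linarith), sub_zero]

theorem g_high (sh : Shape) {v : ℝ} (hv : 2 ≤ v) : g sh v = 1 := by
  rw [g, sh.ΘP_high v (by linarith), sh.ΘP_high (v - 1) (by linarith)]
  ring

theorem g_deriv (sh : Shape) (v : ℝ) : HasDerivAt (g sh) (sh.τ v - sh.τ (v - 1)) v := by
  have h1 : HasDerivAt (fun v : ℝ => v - 1) 1 v := (hasDerivAt_id v).sub_const 1
  have h2 : HasDerivAt (fun v : ℝ => sh.ΘP (v - 1)) (sh.τ (v - 1) * 1) v :=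
    (sh.ΘP_deriv (v - 1)).comp v h1
  have h3 := (sh.ΘP_deriv v).sub h2
  rw [mul_one] at h3
  exact h3

theorem g_smooth (sh : Shape) : ContDiff ℝ ∞ (g sh) :=
  sh.ΘP_smooth.sub (sh.ΘP_smooth.comp (contDiff_id.sub contDiff_const))

theorem ΘP_mono (sh : Shape) : Monotone sh.ΘP := by
  refine monotone_of_deriv_nonneg (fun u => (sh.ΘP_deriv u).differentiableAt) fun u => ?_
  rw [(sh.ΘP_deriv u).deriv]
  exact (sh.τ_mem u).1

theorem ΘP_mono' (sh : Shape) : Monotone fun u => u - sh.ΘP u := by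
  have h : ∀ u : ℝ, HasDerivAt (fun u => u - sh.ΘP u) (1 - sh.τ u) u := fun u =>
    (hasDerivAt_id u).sub (sh.ΘP_deriv u)
  refine monotone_of_deriv_nonneg (fun u => (h u).differentiableAt) fun u => ?_
  rw [(h u).deriv]
  linarith [(sh.τ_mem u).2]

theorem g_mem (sh : Shape) (v : ℝ) : 0 ≤ g sh v ∧ g sh v ≤ 1 := by
  have h1 : sh.ΘP (v - 1) ≤ sh.ΘP v := ΘP_mono sh (by linarith)
  have h2 : (v - 1) - sh.ΘP (v - 1) ≤ v - sh.ΘP v := ΘP_mono' sh (by linarith)
  rw [g]
  constructor <;> linarith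

/-- The width at the time `s`. -/
noncomputable def lam (sh : Shape) (l s : ℝ) : ℝ := 1 - (1 - l) * g sh (6 * s + 1 / 2)

/-- The derivative of the width. -/
noncomputable def dlam (sh : Shape) (l s : ℝ) : ℝ :=
  -((1 - l) * ((sh.τ (6 * s + 1 / 2) - sh.τ (6 * s + 1 / 2 - 1)) * 6))

theorem lam_low (sh : Shape) (l : ℝ) {s : ℝ} (hs : s ≤ -(1 / 4)) : lam sh l s = 1 := by
  rw [lam, g_low sh (by linarith), mul_zero, sub_zero]

theorem lam_high (sh : Shape) (l : ℝ) {s : ℝ} (hs : 1 / 4 ≤ s) : lam sh l s = l := by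
  rw [lam, g_high sh (by linarith)]
  ring

theorem lam_deriv (sh : Shape) (l s : ℝ) : HasDerivAt (lam sh l) (dlam sh l s) s := by
  have h1 : HasDerivAt (fun s : ℝ => 6 * s + 1 / 2) 6 s := by
    have h := ((hasDerivAt_id s).const_mul (6 : ℝ)).add_const (1 / 2 : ℝ)
    rw [mul_one] at h
    exact h
  have h2 : HasDerivAt (fun s : ℝ => g sh (6 * s + 1 / 2))
      ((sh.τ (6 * s + 1 / 2) - sh.τ (6 * s + 1 / 2 - 1)) * 6) s :=
    HasDerivAt.comp (h₂ := g sh) s (g_deriv sh (6 * s + 1 / 2)) h1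
  have h3 := (h2.const_mul (1 - l)).const_sub 1
  exact h3

theorem lam_smooth (sh : Shape) (l : ℝ) : ContDiff ℝ ∞ (lam sh l) := by
  have h1 : ContDiff ℝ ∞ fun s : ℝ => 6 * s + 1 / 2 :=
    (contDiff_const.mul contDiff_id).add contDiff_const
  exact contDiff_const.sub (contDiff_const.mul ((g_smooth sh).comp h1))

variable {sh : Shape} {l : ℝ}

theorem lam_pos (hl : 0 < l) (hl1 : l ≤ 1) (s : ℝ) : 0 < lam sh l s := by
  have h := g_mem sh (6 * s + 1 / 2)
  rw [lam]
  nlinarith only [hl, hl1, h]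

theorem lam_le (hl1 : l ≤ 1) (s : ℝ) : lam sh l s ≤ 1 := by
  have h := g_mem sh (6 * s + 1 / 2)
  rw [lam]
  nlinarith [h.1, h.2]

theorem dlam_bd (hl : 0 < l) (hl1 : l ≤ 1) (s : ℝ) : |dlam sh l s| ≤ 6 := by
  have h1 := sh.τ_mem (6 * s + 1 / 2)
  have h2 := sh.τ_mem (6 * s + 1 / 2 - 1)
  have h3 : |sh.τ (6 * s + 1 / 2) - sh.τ (6 * s + 1 / 2 - 1)| ≤ 1 := by
    rw [abs_le]
    constructor <;> (first | linarith only [h1, h2] | linarith [h1.1, h1.2, h2.1, h2.2])
  have h4 : |1 - l| ≤ 1 := by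
    rw [abs_le]
    constructor <;> linarith
  rw [dlam, abs_neg, abs_mul, abs_mul]
  have h5 : |(6 : ℝ)| = 6 := abs_of_pos (by norm_num)
  rw [h5]
  have h6 : |1 - l| * (|sh.τ (6 * s + 1 / 2) - sh.τ (6 * s + 1 / 2 - 1)| * 6) ≤ 1 * (1 * 6) := by
    gcongr
  linarith only [h6]

/-! ### The static profiles -/

/-- The properties of the static profile. -/
structure Core (sh : Shape) (t : Ty) (X0 T0 : ℝ → ℝ) : Prop where
  X_smooth : ContDiff ℝ ∞ X0
  T_smooth : ContDiff ℝ ∞ T0
  dT : ∀ u, HasDerivAt T0 (sh.τ u * deriv X0 u) u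
  low : ∀ u, u ≤ -1 → X0 u = t.inX u ∧ T0 u = 0
  high : ∀ u, 1 ≤ u → X0 u = t.outX u ∧ T0 u = t.outX u
  Xb : ∀ u, |u| ≤ 1 → |X0 u| ≤ 1
  Tb : ∀ u, |u| ≤ 1 → |T0 u| ≤ 2

theorem core (sh : Shape) (t : Ty) : Core sh t ((sh.st t).X 0) ((sh.st t).Θ 0) := by
  cases t with
  | P =>
    refine ⟨contDiff_id, sh.ΘP_smooth, fun u => ?_, fun u hu => ⟨rfl, sh.ΘP_low u hu⟩,
      fun u hu => ⟨rfl, sh.ΘP_high u hu⟩, fun u hu => hu, fun u hu => sh.ΘP_bd u (by linarith)⟩
    have h : deriv ((sh.st .P).X 0) u = 1 := (hasDerivAt_id u).deriv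
    rw [h, mul_one]
    exact sh.ΘP_deriv u
  | R =>
    refine ⟨sh.ξ_smooth, sh.ΘR_smooth, sh.ΘR_deriv, fun u hu => ⟨?_, sh.ΘR_low u hu⟩,
      fun u hu => ⟨?_, sh.ΘR_high u hu⟩, sh.ξ_in, fun u hu => sh.ΘR_bd u (by linarith)⟩
    · have h1 : |u| = -u := abs_of_nonpos (by linarith)
      have h2 : sh.ξ u = -|u| := sh.ξ_out u (by rw [h1]; linarith)
      change sh.ξ u = u
      rw [h2, h1, neg_neg]
    · have h1 : |u| = u := abs_of_nonneg (by linarith)
      have h2 : sh.ξ u = -|u| := sh.ξ_out u (by rw [h1]; exact hu)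
      change sh.ξ u = -u
      rw [h2, h1]
  | L =>
    refine ⟨sh.ξ_smooth.neg, sh.ΘR_smooth.neg, fun u => ?_, fun u hu => ⟨?_, ?_⟩,
      fun u hu => ⟨?_, ?_⟩, fun u hu => ?_, fun u hu => ?_⟩
    · have h1 : HasDerivAt sh.ξ (deriv sh.ξ u) u :=
        (sh.ξ_smooth.differentiable (by simp) u).hasDerivAt
      have h2 : deriv ((sh.st .L).X 0) u = -deriv sh.ξ u := h1.neg.deriv
      rw [h2, mul_neg]
      exact (sh.ΘR_deriv u).neg
    · have h1 : |u| = -u := abs_of_nonpos (by linarith)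
      have h2 : sh.ξ u = -|u| := sh.ξ_out u (by rw [h1]; linarith)
      change -sh.ξ u = -u
      rw [h2, h1, neg_neg]
    · change -sh.ΘR u = 0
      rw [sh.ΘR_low u hu, neg_zero]
    · have h1 : |u| = u := abs_of_nonneg (by linarith)
      have h2 : sh.ξ u = -|u| := sh.ξ_out u (by rw [h1]; exact hu)
      change -sh.ξ u = u
      rw [h2, h1, neg_neg]
    · change -sh.ΘR u = u
      rw [sh.ΘR_high u hu, neg_neg]
    · change |-sh.ξ u| ≤ 1
      rw [abs_neg]
      exact sh.ξ_in u hu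
    · change |-sh.ΘR u| ≤ 2
      rw [abs_neg]
      exact sh.ΘR_bd u (by linarith)

theorem inX_mul (t : Ty) (a b : ℝ) : a * t.inX b = t.inX (a * b) := by
  cases t <;> simp [Ty.inX]

theorem outX_mul (t : Ty) (a b : ℝ) : a * t.outX b = t.outX (a * b) := by
  cases t <;> simp [Ty.outX]

theorem inX_abs (t : Ty) (b : ℝ) : |t.inX b| = |b| := by
  cases t <;> simp [Ty.inX]

theorem outX_abs (t : Ty) (b : ℝ) : |t.outX b| = |b| := by
  cases t <;> simp [Ty.outX]

/-! ### The moving profile -/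

/-- The moving profile. -/
noncomputable def prof (sh : Shape) (l : ℝ) (X0 T0 : ℝ → ℝ) : Prof where
  X s u := lam sh l s * X0 (u / lam sh l s)
  P s u := sh.τ (u / lam sh l s)
  Θ s u := lam sh l s * T0 (u / lam sh l s)
  Y s u := dlam sh l s * (T0 (u / lam sh l s) - sh.τ (u / lam sh l s) * X0 (u / lam sh l s))

/-- The scaled parameter is smooth. -/
theorem arg_smooth (hl : 0 < l) (hl1 : l ≤ 1) :
    ContDiff ℝ ∞ fun a : ℝ × ℝ => a.2 / lam sh l a.1 :=
  contDiff_snd.div ((lam_smooth sh l).comp contDiff_fst) fun a => (lam_pos hl hl1 a.1).ne'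

/-- The derivative of the scaled parameter in `u`. -/
theorem arg_deriv (s u : ℝ) : HasDerivAt (fun u : ℝ => u / lam sh l s) (1 / lam sh l s) u :=
  (hasDerivAt_id u).div_const _

/-- The derivative of the scaled parameter in `s`. -/
theorem arg_deriv_s (hl : 0 < l) (hl1 : l ≤ 1) (s u : ℝ) :
    HasDerivAt (fun s : ℝ => u / lam sh l s) (-(u / lam sh l s) * dlam sh l s / lam sh l s) s := by
  have h0 := (lam_pos (sh := sh) hl hl1 s).ne'
  have h := (hasDerivAt_const s u).div (lam_deriv sh l s) h0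
  refine h.congr_deriv ?_
  field_simp
  ring

/-- The derivative of a scaled function in `u`. -/
theorem sc_deriv (hl : 0 < l) (hl1 : l ≤ 1) (s u : ℝ) {G : ℝ → ℝ} {G' : ℝ}
    (hG : HasDerivAt G G' (u / lam sh l s)) :
    HasDerivAt (fun u : ℝ => lam sh l s * G (u / lam sh l s)) G' u := by
  have h0 := (lam_pos (sh := sh) hl hl1 s).ne'
  have h := ((hG.comp u (arg_deriv s u))).const_mul (lam sh l s)
  refine h.congr_deriv ?_
  field_simp

/-- The derivative of a scaled function in `s`. -/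
theorem sc_deriv_s (hl : 0 < l) (hl1 : l ≤ 1) (s u : ℝ) {G : ℝ → ℝ} {G' : ℝ}
    (hG : HasDerivAt G G' (u / lam sh l s)) :
    HasDerivAt (fun s : ℝ => lam sh l s * G (u / lam sh l s))
      (dlam sh l s * (G (u / lam sh l s) - u / lam sh l s * G')) s := by
  have h0 := (lam_pos (sh := sh) hl hl1 s).ne'
  have h1 : HasDerivAt (fun s : ℝ => G (u / lam sh l s))
      (G' * (-(u / lam sh l s) * dlam sh l s / lam sh l s)) s :=
    hG.comp s (arg_deriv_s hl hl1 s u)
  have h := (lam_deriv sh l s).mul h1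
  refine h.congr_deriv ?_
  field_simp
  ring

theorem div_le_neg_one {a u : ℝ} (ha : 0 < a) (ha1 : a ≤ 1) (hu : u ≤ -1) : u / a ≤ -1 := by
  rw [div_le_iff₀ ha]
  linarith

theorem one_le_div {a u : ℝ} (ha : 0 < a) (ha1 : a ≤ 1) (hu : 1 ≤ u) : 1 ≤ u / a := by
  rw [le_div_iff₀ ha]
  linarith

theorem bd {t : Ty} {X0 T0 : ℝ → ℝ} (h : Core sh t X0 T0) (hl : 0 < l) (hl1 : l ≤ 1) (s : ℝ) :
    ProfBd t s (prof sh l X0 T0) := by
  have hp := lam_pos (sh := sh) hl hl1 s
  have hq := lam_le (sh := sh) hl1 s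
  have hX : ∀ u, |lam sh l s * X0 (u / lam sh l s)| ≤ max 1 |u| := by
    intro u
    have hm : lam sh l s * (u / lam sh l s) = u := by field_simp
    rcases le_or_gt |u / lam sh l s| 1 with h1 | h1
    · refine le_trans ?_ (le_max_left _ _)
      rw [abs_mul, abs_of_pos hp]
      have h2 := h.Xb _ h1
      have h3 : lam sh l s * |X0 (u / lam sh l s)| ≤ 1 * 1 := by (clear * - hq h2; gcongr)
      linarith
    · refine le_trans (le_of_eq ?_) (le_max_right _ _)
      rcases lt_abs.1 h1 with h2 | h2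
      · rw [(h.high _ h2.le).1, outX_mul, hm, outX_abs]
      · rw [(h.low _ (by linarith)).1, inX_mul, hm, inX_abs]
  refine ⟨fun u hu => ?_, fun u hu => ?_, fun u hu => ?_, fun u => sh.τ_mem _, fun u hu => ?_,
    fun u hu => ?_⟩
  · have h1 := div_le_neg_one hp hq hu
    have hm : lam sh l s * (u / lam sh l s) = u := by field_simp
    refine ⟨?_, sh.τ_low _ h1, ?_⟩
    · change lam sh l s * X0 (u / lam sh l s) = t.inX u
      rw [(h.low _ h1).1, inX_mul, hm]
    · change lam sh l s * T0 (u / lam sh l s) = 0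
      rw [(h.low _ h1).2, mul_zero]
  · have h1 := one_le_div hp hq hu
    have hm : lam sh l s * (u / lam sh l s) = u := by field_simp
    refine ⟨?_, sh.τ_high _ h1, ?_⟩
    · change lam sh l s * X0 (u / lam sh l s) = t.outX u
      rw [(h.high _ h1).1, outX_mul, hm]
    · change lam sh l s * T0 (u / lam sh l s) = t.outX u
      rw [(h.high _ h1).2, outX_mul, hm]
  · exact (hX u).trans (max_le le_rfl hu)
  · change |lam sh l s * T0 (u / lam sh l s)| ≤ 2
    have hm : lam sh l s * (u / lam sh l s) = u := by field_simp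
    rcases le_or_gt |u / lam sh l s| 1 with h1 | h1
    · rw [abs_mul, abs_of_pos hp]
      have h2 := h.Tb _ h1
      have h3 : lam sh l s * |T0 (u / lam sh l s)| ≤ 1 * 2 := by gcongr
      linarith
    · rcases lt_abs.1 h1 with h2 | h2
      · rw [(h.high _ h2.le).2, outX_mul, hm, outX_abs]
        exact hu
      · rw [(h.low _ (by linarith)).2, mul_zero, abs_zero]
        norm_num
  · change |dlam sh l s * (T0 (u / lam sh l s) -
      sh.τ (u / lam sh l s) * X0 (u / lam sh l s))| ≤ CY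
    have hC : CY = 1000 := rfl
    rw [hC]
    rcases le_or_gt |u / lam sh l s| 1 with h1 | h1
    · have h2 := h.Tb _ h1
      have h3 := h.Xb _ h1
      have h4 := sh.τ_mem (u / lam sh l s)
      have h5 := dlam_bd (sh := sh) hl hl1 s
      have h6 : |sh.τ (u / lam sh l s) * X0 (u / lam sh l s)| ≤ 1 * 1 := by
        rw [abs_mul]
        have h7 : |sh.τ (u / lam sh l s)| ≤ 1 := by
          rw [abs_of_nonneg h4.1]
          exact h4.2
        gcongr
      have h8 : |T0 (u / lam sh l s) - sh.τ (u / lam sh l s) * X0 (u / lam sh l s)| ≤ 3 := by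
        refine (abs_sub _ _).trans ?_
        linarith
      rw [abs_mul]
      have h9 : |dlam sh l s| * |T0 (u / lam sh l s) -
          sh.τ (u / lam sh l s) * X0 (u / lam sh l s)| ≤ 6 * 3 := by gcongr
      linarith
    · rcases lt_abs.1 h1 with h2 | h2
      · rw [(h.high _ h2.le).2, (h.high _ h2.le).1, sh.τ_high _ h2.le, one_mul, sub_self,
          mul_zero, abs_zero]
        norm_num
      · rw [(h.low _ (by linarith)).2, sh.τ_low _ (by linarith), zero_mul, sub_zero, mul_zero,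
          abs_zero]
        norm_num

/-! ### Immersion and injectivity -/

/-- `τ` is strictly increasing on `[-1, 1]`. -/
theorem τ_strict (sh : Shape) : StrictMonoOn sh.τ (Icc (-1) 1) := by
  refine strictMonoOn_of_deriv_pos (convex_Icc _ _) sh.τ_smooth.continuous.continuousOn ?_
  intro u hu
  rw [interior_Icc] at hu
  exact sh.τ_deriv u hu.1 hu.2

theorem τ_pos (sh : Shape) {u : ℝ} (hu : -1 < u) : 0 < sh.τ u := by
  rcases le_or_gt u 1 with h | h
  · have h1 := τ_strict sh (a := -1) (b := u) ⟨le_rfl, by norm_num⟩ ⟨hu.le, h⟩ hu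
    rw [sh.τ_low (-1) le_rfl] at h1
    exact h1
  · rw [sh.τ_high u h.le]
    norm_num

theorem τ_lt (sh : Shape) {u : ℝ} (hu : u < 1) : sh.τ u < 1 := by
  rcases le_or_gt (-1) u with h | h
  · have h1 := τ_strict sh (a := u) (b := 1) ⟨h, hu.le⟩ ⟨by norm_num, le_rfl⟩ hu
    rw [sh.τ_high 1 le_rfl] at h1
    exact h1
  · rw [sh.τ_low u h.le]
    norm_num

/-- If two values of `τ` agree, the parameters agree or lie both on the same side. -/
theorem τ_eq (sh : Shape) {a b : ℝ} (h : sh.τ a = sh.τ b) :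
    a = b ∨ (a ≤ -1 ∧ b ≤ -1) ∨ (1 ≤ a ∧ 1 ≤ b) := by
  rcases le_or_gt a (-1) with ha | ha
  · right; left
    refine ⟨ha, ?_⟩
    by_contra hb
    have h1 := τ_pos sh (not_le.1 hb)
    rw [← h, sh.τ_low a ha] at h1
    exact lt_irrefl _ h1
  rcases le_or_gt 1 a with ha' | ha'
  · right; right
    refine ⟨ha', ?_⟩
    by_contra hb
    have h1 := τ_lt sh (not_le.1 hb)
    rw [← h, sh.τ_high a ha'] at h1
    exact lt_irrefl _ h1
  left
  have h1 := τ_pos sh ha
  have h2 := τ_lt sh ha'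
  have hb1 : -1 ≤ b := by
    by_contra hb
    rw [h, sh.τ_low b (not_le.1 hb).le] at h1
    exact lt_irrefl _ h1
  have hb2 : b ≤ 1 := by
    by_contra hb
    rw [h, sh.τ_high b (not_le.1 hb).le] at h2
    exact lt_irrefl _ h2
  exact (τ_strict sh).injOn ⟨ha.le, ha'.le⟩ ⟨hb1, hb2⟩ h

theorem inX_inj (t : Ty) {a b : ℝ} (h : t.inX a = t.inX b) : a = b := by
  cases t
  · exact h
  · exact h
  · exact neg_injective h

theorem outX_inj (t : Ty) {a b : ℝ} (h : t.outX a = t.outX b) : a = b := by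
  cases t
  · exact h
  · exact neg_injective h
  · exact h

/-- A function whose derivative exists has the derivative of a function which agrees with it on one
side. -/
theorem deriv_right {G H : ℝ → ℝ} {H' a : ℝ} (hG : DifferentiableAt ℝ G a)
    (hH : HasDerivAt H H' a) (hE : ∀ x, a ≤ x → G x = H x) : deriv G a = H' := by
  have h1 : HasDerivWithinAt G (deriv G a) (Ici a) a := hG.hasDerivAt.hasDerivWithinAt
  have h2 : HasDerivWithinAt G H' (Ici a) a :=
    hH.hasDerivWithinAt.congr (fun x hx => hE x hx) (hE a le_rfl)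
  exact (uniqueDiffWithinAt_Ici a).eq_deriv _ h1 h2

theorem deriv_left {G H : ℝ → ℝ} {H' a : ℝ} (hG : DifferentiableAt ℝ G a)
    (hH : HasDerivAt H H' a) (hE : ∀ x, x ≤ a → G x = H x) : deriv G a = H' := by
  have h1 : HasDerivWithinAt G (deriv G a) (Iic a) a := hG.hasDerivAt.hasDerivWithinAt
  have h2 : HasDerivWithinAt G H' (Iic a) a :=
    hH.hasDerivWithinAt.congr (fun x hx => hE x hx) (hE a le_rfl)
  exact (uniqueDiffWithinAt_Iic a).eq_deriv _ h1 h2

theorem inX_deriv (t : Ty) (a : ℝ) : ∃ d : ℝ, d ≠ 0 ∧ HasDerivAt t.inX d a := by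
  cases t
  · exact ⟨1, one_ne_zero, hasDerivAt_id a⟩
  · exact ⟨1, one_ne_zero, hasDerivAt_id a⟩
  · exact ⟨-1, by norm_num, (hasDerivAt_id a).neg⟩

theorem outX_deriv (t : Ty) (a : ℝ) : ∃ d : ℝ, d ≠ 0 ∧ HasDerivAt t.outX d a := by
  cases t
  · exact ⟨1, one_ne_zero, hasDerivAt_id a⟩
  · exact ⟨-1, by norm_num, (hasDerivAt_id a).neg⟩
  · exact ⟨1, one_ne_zero, hasDerivAt_id a⟩

theorem X0_deriv {t : Ty} {X0 T0 : ℝ → ℝ} (h : Core sh t X0 T0) {a : ℝ} (ha : 1 ≤ |a|) :
    deriv X0 a ≠ 0 := by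
  have hd : DifferentiableAt ℝ X0 a := h.X_smooth.differentiable (by simp) a
  rcases le_abs.1 ha with h1 | h1
  · obtain ⟨d, hd0, hdd⟩ := outX_deriv t a
    rw [deriv_right hd hdd fun x hx => (h.high x (h1.trans hx)).1]
    exact hd0
  · obtain ⟨d, hd0, hdd⟩ := inX_deriv t a
    rw [deriv_left hd hdd fun x hx => (h.low x (by linarith)).1]
    exact hd0

theorem ok {t : Ty} {X0 T0 : ℝ → ℝ} (h : Core sh t X0 T0) (hP : t = .P → ∀ u, X0 u = u)
    (hl : 0 < l) (hl1 : l ≤ 1) (J : Set ℝ) (D : ℝ → ℝ) (hD : ∀ s ∈ J, t ≠ .P → D s ≠ 0) :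
    ProfOK J t D (prof sh l X0 T0) where
  X_smooth := (((lam_smooth sh l).comp contDiff_fst).mul
    (h.X_smooth.comp (arg_smooth hl hl1))).contDiffOn
  P_smooth := (sh.τ_smooth.comp (arg_smooth hl hl1)).contDiffOn
  Θ_smooth := (((lam_smooth sh l).comp contDiff_fst).mul
    (h.T_smooth.comp (arg_smooth hl hl1))).contDiffOn
  dΘ := by
    intro s _ u
    have h1 : HasDerivAt X0 (deriv X0 (u / lam sh l s)) (u / lam sh l s) :=
      (h.X_smooth.differentiable (by simp) _).hasDerivAt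
    have h2 : deriv ((prof sh l X0 T0).X s) u = deriv X0 (u / lam sh l s) :=
      (sc_deriv hl hl1 s u h1).deriv
    rw [h2]
    exact sc_deriv hl hl1 s u (h.dT _)
  Y_eq := by
    intro s _ u
    have h1 : HasDerivAt X0 (deriv X0 (u / lam sh l s)) (u / lam sh l s) :=
      (h.X_smooth.differentiable (by simp) _).hasDerivAt
    have h2 : deriv (fun r => (prof sh l X0 T0).X r u) s = _ :=
      (sc_deriv_s (sh := sh) hl hl1 s u h1).deriv
    have h3 : deriv (fun r => (prof sh l X0 T0).Θ r u) s = _ :=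
      (sc_deriv_s (sh := sh) hl hl1 s u (h.dT _)).deriv
    rw [h2, h3]
    change dlam sh l s * (T0 (u / lam sh l s) - sh.τ (u / lam sh l s) * X0 (u / lam sh l s)) = _
    change _ = _ - sh.τ (u / lam sh l s) * _
    ring
  bd := fun s _ => bd h hl hl1 s
  imm := by
    intro s hs u _
    have hp := lam_pos (sh := sh) hl hl1 s
    have h1 : HasDerivAt X0 (deriv X0 (u / lam sh l s)) (u / lam sh l s) :=
      (h.X_smooth.differentiable (by simp) _).hasDerivAt
    have h2 : deriv ((prof sh l X0 T0).X s) u = deriv X0 (u / lam sh l s) :=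
      (sc_deriv hl hl1 s u h1).deriv
    rw [h2]
    by_cases ht : t = .P
    · left
      have h3 : X0 = fun u => u := funext (hP ht)
      rw [h3]
      have h4 : deriv (fun u : ℝ => u) (u / lam sh l s) = 1 := (hasDerivAt_id _).deriv
      rw [h4]
      exact one_ne_zero
    rcases le_or_gt 1 |u / lam sh l s| with h3 | h3
    · left
      exact X0_deriv h h3
    · right
      have h4 := abs_lt.1 h3
      have h5 := sh.τ_deriv _ h4.1 h4.2
      have h6 : HasDerivAt sh.τ (deriv sh.τ (u / lam sh l s)) (u / lam sh l s) :=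
        (sh.τ_smooth.differentiable (by simp) _).hasDerivAt
      have h7 : deriv ((prof sh l X0 T0).P s) u = deriv sh.τ (u / lam sh l s) * (1 / lam sh l s) :=
        (h6.comp u (arg_deriv s u)).deriv
      rw [h7]
      exact mul_ne_zero (hD s hs ht) (mul_pos h5 (by positivity)).ne'
  inj := by
    intro s hs u u' _ _ hX hDP
    have hp := lam_pos (sh := sh) hl hl1 s
    have h1 : X0 (u / lam sh l s) = X0 (u' / lam sh l s) :=
      mul_left_cancel₀ hp.ne' hX
    suffices h2 : u / lam sh l s = u' / lam sh l s from (div_left_inj' hp.ne').1 h2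
    by_cases ht : t = .P
    · rw [hP ht, hP ht] at h1
      exact h1
    · have h2 : sh.τ (u / lam sh l s) = sh.τ (u' / lam sh l s) :=
        mul_left_cancel₀ (hD s hs ht) hDP
      rcases τ_eq sh h2 with h3 | ⟨h3, h4⟩ | ⟨h3, h4⟩
      · exact h3
      · rw [(h.low _ h3).1, (h.low _ h4).1] at h1
        exact inX_inj t h1
      · rw [(h.high _ h3).1, (h.high _ h4).1] at h1
        exact outX_inj t h1

end WPR

open _root_.LCA.WPR in
/-- WPR: profiles with decreasing widths. -/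
theorem t_WPR : Stmt_WPR := by
  intro sh ty l hl hl1
  refine ⟨prof sh l ((sh.st ty).X 0) ((sh.st ty).Θ 0), fun J D _ hD => ?_, fun s hs u => ?_,
    fun s hs u => ?_⟩
  · refine ok (core sh ty) ?_ hl hl1 J D hD
    rintro rfl u
    rfl
  · have h1 : lam sh l s = 1 := lam_low sh l hs
    change lam sh l s * (sh.st ty).X 0 (u / lam sh l s) = _ ∧ sh.τ (u / lam sh l s) = _ ∧
      lam sh l s * (sh.st ty).Θ 0 (u / lam sh l s) = _
    rw [h1, div_one, one_mul, one_mul]
    exact ⟨rfl, rfl, rfl⟩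
  · have h1 : lam sh l s = l := lam_high sh l hs
    change lam sh l s * (sh.st ty).X 0 (u / lam sh l s) = _ ∧ sh.τ (u / lam sh l s) = _ ∧
      lam sh l s * (sh.st ty).Θ 0 (u / lam sh l s) = _
    rw [h1]
    exact ⟨rfl, rfl, rfl⟩

end LCA


end

section

/-!
# IDX: the choice of the indices
-/

namespace LHE

open Set LG LH

namespace IDX

theorem mono_step {g : ℝ → ℝ} {a c : ℝ} {N : ℕ} (hN : 0 < N) (h : MonotoneOn g (Icc a c))
    {i j : ℤ} (hij : i ≤ j) (hi : a * N ≤ i) (hj : (j : ℝ) ≤ c * N) :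
    g ((i : ℝ) / N) ≤ g ((j : ℝ) / N) := by
  have hN' : (0 : ℝ) < N := by exact_mod_cast hN
  have hij' : (i : ℝ) ≤ j := by exact_mod_cast hij
  have h1 : (i : ℝ) / N ≤ (j : ℝ) / N := div_le_div_of_nonneg_right hij' hN'.le
  have h2 : a ≤ (i : ℝ) / N := by rwa [le_div_iff₀ hN']
  have h3 : (j : ℝ) / N ≤ c := by rwa [div_le_iff₀ hN']
  exact h ⟨h2, h1.trans h3⟩ ⟨h2.trans h1, h3⟩ h1

theorem anti_step {g : ℝ → ℝ} {a c : ℝ} {N : ℕ} (hN : 0 < N) (h : AntitoneOn g (Icc a c))
    {i j : ℤ} (hij : i ≤ j) (hi : a * N ≤ i) (hj : (j : ℝ) ≤ c * N) :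
    g ((j : ℝ) / N) ≤ g ((i : ℝ) / N) := by
  have hN' : (0 : ℝ) < N := by exact_mod_cast hN
  have hij' : (i : ℝ) ≤ j := by exact_mod_cast hij
  have h1 : (i : ℝ) / N ≤ (j : ℝ) / N := div_le_div_of_nonneg_right hij' hN'.le
  have h2 : a ≤ (i : ℝ) / N := by rwa [le_div_iff₀ hN']
  have h3 : (j : ℝ) / N ≤ c := by rwa [div_le_iff₀ hN']
  exact h ⟨h2, h1.trans h3⟩ ⟨h2.trans h1, h3⟩ h1

theorem tip {g : ℝ → ℝ} {a c d : ℝ} {N : ℕ} (hN : 0 < N) (h1 : MonotoneOn g (Icc a c))
    (h2 : AntitoneOn g (Icc c d)) (hac : 2 ≤ (c - a) * N) (hcd : 2 ≤ (d - c) * N) :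
    ∃ C : ℤ, |(C : ℝ) - c * N| ≤ 1 ∧ g (((C - 1 : ℤ) : ℝ) / N) ≤ g ((C : ℝ) / N) ∧
      g (((C + 1 : ℤ) : ℝ) / N) ≤ g ((C : ℝ) / N) := by
  have hf1 : ((⌊c * N⌋ : ℤ) : ℝ) ≤ c * N := Int.floor_le _
  have hf2 : c * N < (⌊c * N⌋ : ℤ) + 1 := Int.lt_floor_add_one _
  generalize ⌊c * (N : ℝ)⌋ = C₀ at hf1 hf2
  by_cases hc : g (((C₀ + 1 : ℤ) : ℝ) / N) ≤ g ((C₀ : ℝ) / N)
  · refine ⟨C₀, ?_, ?_, hc⟩
    · rw [abs_le]; constructor <;> linarith
    · refine mono_step hN h1 (by omega) ?_ hf1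
      push_cast
      linarith
  · refine ⟨C₀ + 1, ?_, ?_, ?_⟩
    · push_cast
      rw [abs_le]; constructor <;> linarith
    · have : C₀ + 1 - 1 = C₀ := by omega
      rw [this]
      exact (not_le.1 hc).le
    · refine anti_step hN h2 (by omega) ?_ ?_
      · push_cast
        linarith
      · push_cast
        linarith

end IDX

/-- IDX: the choice of the indices. -/
theorem t_IDX : Stmt_IDX := by
  intro Λ s a c d b hac hcd hdb h1 h2 h3
  obtain ⟨n₁, hn₁⟩ := exists_nat_gt (2 / (c - a))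
  obtain ⟨n₂, hn₂⟩ := exists_nat_gt (2 / (d - c))
  obtain ⟨n₃, hn₃⟩ := exists_nat_gt (2 / (b - d))
  refine ⟨n₁ + n₂ + n₃ + 1, fun N hN P hP => ?_⟩
  have hN0 : 0 < N := by omega
  have hN' : (0 : ℝ) < N := by exact_mod_cast hN0
  have key : ∀ (r : ℝ) (n : ℕ), 0 < r → 2 / r < n → n ≤ N → 2 ≤ r * N := by
    intro r n hr hn hnN
    rw [div_lt_iff₀ hr] at hn
    have : (n : ℝ) ≤ N := by exact_mod_cast hnN
    nlinarith
  have k1 := key (c - a) n₁ (by linarith) hn₁ (by omega)
  have k2 := key (d - c) n₂ (by linarith) hn₂ (by omega)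
  have k3 := key (b - d) n₃ (by linarith) hn₃ (by omega)
  have hx : ∀ i : ℤ, P.x i = Λ.x ((i : ℝ) / N) := fun i => by rw [hP.1]; rfl
  obtain ⟨C, hC1, hC2, hC3⟩ := IDX.tip hN0 h1.monotoneOn h2.antitoneOn k1 k2
  obtain ⟨D, hD1, hD2, hD3⟩ := IDX.tip (g := fun u => -(sn s * Λ.x u)) hN0
    h2.antitoneOn.neg h3.monotoneOn.neg k2 k3
  have hA1 : a * N ≤ (⌈a * N⌉ : ℤ) := Int.le_ceil _
  have hA2 : ((⌈a * N⌉ : ℤ) : ℝ) < a * N + 1 := Int.ceil_lt_add_one _
  have hB1 : ((⌊b * N⌋ : ℤ) : ℝ) ≤ b * N := Int.floor_le _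
  have hB2 : b * N < (⌊b * N⌋ : ℤ) + 1 := Int.lt_floor_add_one _
  generalize ⌈a * (N : ℝ)⌉ = A at hA1 hA2
  generalize ⌊b * (N : ℝ)⌋ = B at hB1 hB2
  have hA : sn s * Λ.x ((A : ℝ) / N) ≤ sn s * Λ.x (((A + 1 : ℤ) : ℝ) / N) := by
    refine IDX.mono_step (g := fun u => sn s * Λ.x u) hN0 h1.monotoneOn (by omega) hA1 ?_
    push_cast
    linarith
  have hB : sn s * Λ.x (((B - 1 : ℤ) : ℝ) / N) ≤ sn s * Λ.x ((B : ℝ) / N) := by
    refine IDX.mono_step (g := fun u => sn s * Λ.x u) hN0 h3.monotoneOn (by omega) ?_ hB1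
    push_cast
    linarith
  refine ⟨A, C, D, B, ⟨?_, hC1, hD1, ?_, ?_, ?_, ?_⟩, ⟨hC1, hD1, ?_, ?_, ?_, ?_, ?_⟩⟩
  · rw [abs_le]; constructor <;> linarith
  · rw [hx, hx]; exact hA
  · rw [hx, hx]; exact hC2
  · rw [hx, hx]; exact hC3
  · rw [hx, hx]; exact neg_le_neg_iff.1 hD2
  · rw [abs_le]; constructor <;> linarith
  · rw [hx, hx, sn_not]
    linarith [hC3]
  · rw [hx, hx, sn_not]
    linarith [hD2]
  · rw [hx, hx, sn_not]
    linarith [hD3]
  · rw [hx, hx, sn_not]
    linarith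

end LHE


end

section

/-!
# No point of the walk is between the two arcs of a finger
-/

namespace LHE

open Set LG LH

namespace ADJ

variable {N : ℕ}

theorem px_mul (P : Pg N) (i k : ℤ) : P.x (i + k * N) = P.x i :=
  (Function.Periodic.int_mul (f := P.x) (c := (N : ℤ)) P.px k) i

theorem py_mul (P : Pg N) (i k : ℤ) : P.y (i + k * N) = P.y i :=
  (Function.Periodic.int_mul (f := P.y) (c := (N : ℤ)) P.py k) i

theorem pz_mul (P : Pg N) (i k : ℤ) : P.z (i + k * N) = P.z i :=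
  (Function.Periodic.int_mul (f := P.z) (c := (N : ℤ)) P.pz k) i

theorem pl_mul (P : Pg N) (i k : ℤ) (t : ℝ) : P.l (i + k * N) t = P.l i t := by
  unfold Pg.l
  rw [px_mul, py_mul, pz_mul]

theorem adj_left {X : Finset ℝ} {a a' b : ℝ} (h : AdjX X a b) (h' : AdjX X a' b) : a = a' := by
  rcases lt_trichotomy a a' with h1 | h1 | h1
  · exact absurd ⟨h1, h'.2.2.1⟩ (h.2.2.2 a' h'.1)
  · exact h1
  · exact absurd ⟨h1, h.2.2.1⟩ (h'.2.2.2 a h.1)

theorem adj_right {X : Finset ℝ} {a b b' : ℝ} (h : AdjX X a b) (h' : AdjX X a b') : b = b' := by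
  rcases lt_trichotomy b b' with h1 | h1 | h1
  · exact absurd ⟨h.2.2.1, h1⟩ (h'.2.2.2 b h.2.1)
  · exact h1
  · exact absurd ⟨h'.2.2.1, h1⟩ (h.2.2.2 b' h'.2.1)

theorem mem_zip {α : Type*} (a b : α) (v z : List α) : ∀ (u : List α) (c : α),
    (a, b) ∈ (c :: (u ++ a :: b :: v)).zip (u ++ a :: b :: v ++ z)
  | [], c => by
    simp only [List.nil_append, List.cons_append, List.zip_cons_cons]
    exact List.mem_cons_of_mem _ List.mem_cons_self
  | d :: u, c => by
    have h := mem_zip a b v z u d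
    simp only [List.cons_append, List.zip_cons_cons] at h ⊢
    exact List.mem_cons_of_mem _ h

theorem mem_cp {α : Type*} (a b : α) (u v : List α) : (a, b) ∈ cp (u ++ a :: b :: v) := by
  unfold cp
  cases u with
  | nil =>
    rw [List.nil_append, List.rotate_cons_succ, List.rotate_zero, List.cons_append,
      List.zip_cons_cons]
    exact List.mem_cons_self
  | cons c u =>
    rw [List.cons_append, List.rotate_cons_succ, List.rotate_zero]
    exact mem_zip a b v [c] u c

/-- The shift of an edge into a period. -/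
theorem exists_shift (hN : 0 < N) (A j : ℤ) : ∃ k : ℤ, A ≤ j + k * N ∧ j + k * N < A + N := by
  have h0 : (0 : ℤ) < N := by exact_mod_cast hN
  refine ⟨-((j - A) / N), ?_, ?_⟩
  · have h1 := Int.emod_add_mul_ediv (j - A) N
    have h2 := Int.emod_nonneg (j - A) h0.ne'
    linarith only [h1, h2]
  · have h1 := Int.emod_add_mul_ediv (j - A) N
    have h2 := Int.emod_lt_of_pos (j - A) h0
    linarith only [h1, h2]

/-- The edge of a turn near a line of a finger is not in the finger. -/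
theorem turn_out {P : Pg N} {s : Bool} {A C D : ℤ} {τ δ : ℝ} (hF : Fg P s A C D τ δ)
    {t t₁ : ℝ} {e pe g qe : ℤ} (he : e ∈ Ico A C) (hcr : Crs P s t e) (hτ : τ ≤ sn s * t)
    (h1 : pe ≤ g) (h2 : g < qe)
    (H : ((∀ m, pe < m → m ≤ qe → sn s * t₁ < sn s * P.x m ∧ sn s * P.x m < sn s * t) ∧
        sn s * P.x pe < sn s * t₁ ∧ sn s * P.x (qe + 1) < sn s * t₁) ∨
      ((∀ m, pe < m → m ≤ qe → sn s * t < sn s * P.x m ∧ sn s * P.x m < sn s * t₁) ∧
        sn s * t₁ < sn s * P.x pe ∧ sn s * t₁ < sn s * P.x (qe + 1))) :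
    ¬ (A ≤ g ∧ g < D) := by
  rintro ⟨hA, hD⟩
  have hAC := hF.AC
  have hCD := hF.CD
  have hm1 : ∀ a b, A ≤ a → a ≤ b → b ≤ C → sn s * P.x a ≤ sn s * P.x b := fun a b ha hab hb =>
    hF.m1 ⟨ha, hab.trans hb⟩ ⟨ha.trans hab, hb⟩ hab
  have hm2 : ∀ a b, C ≤ a → a ≤ b → b ≤ D → sn s * P.x b ≤ sn s * P.x a := fun a b ha hab hb =>
    hF.m2 ⟨ha, hab.trans hb⟩ ⟨ha.trans hab, hb⟩ hab
  have hC : sn s * t < sn s * P.x C :=
    lt_of_lt_of_le hcr.2 (hm1 (e + 1) C (by linarith [he.1]) (by have := he.2; omega) le_rfl)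
  rcases H with ⟨H1, H2, H3⟩ | ⟨H1, H2, H3⟩
  · rcases lt_or_ge g C with hg | hg
    · rcases lt_or_ge qe C with hq | hq
      · have h3 := hm1 (g + 1) (qe + 1) (by omega) (by omega) (by omega)
        have h4 := (H1 (g + 1) (by omega) (by omega)).1
        linarith
      · have h4 := (H1 C (by omega) (by omega)).2
        linarith
    · rcases lt_or_ge pe C with hp | hp
      · have h4 := (H1 C (by omega) (by omega)).2
        linarith
      · have h3 := hm2 pe (g + 1) (by omega) (by omega) (by omega)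
        have h4 := (H1 (g + 1) (by omega) (by omega)).1
        linarith
  · rcases lt_or_ge g C with hg | hg
    · rcases lt_or_ge pe A with hp | hp
      · have h4 := (H1 A (by omega) (by omega)).1
        have h5 := hF.xa
        linarith
      · have h3 := hm1 pe (g + 1) (by omega) (by omega) (by omega)
        have h4 := (H1 (g + 1) (by omega) (by omega)).2
        linarith
    · rcases lt_or_ge qe D with hq | hq
      · have h3 := hm2 (g + 1) (qe + 1) (by omega) (by omega) (by omega)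
        have h4 := (H1 (g + 1) (by omega) (by omega)).2
        linarith
      · have h4 := (H1 D (by omega) (by omega)).1
        have h5 := hF.xd
        linarith

theorem not_btw_of_gap {a b c : ℝ} (h : c ∉ uIcc a b) : ¬ Btw a b c := by
  intro hb
  apply h
  rw [mem_uIcc]
  rcases hb with ⟨h1, h2⟩ | ⟨h1, h2⟩
  · exact Or.inl ⟨h1.le, h2.le⟩
  · exact Or.inr ⟨h1.le, h2.le⟩

theorem not_btw_left (a b : ℝ) : ¬ Btw a b a := by
  rintro (⟨h1, h2⟩ | ⟨h1, h2⟩) <;> linarith

theorem not_btw_right (a b : ℝ) : ¬ Btw a b b := by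
  rintro (⟨h1, h2⟩ | ⟨h1, h2⟩) <;> linarith

/-- The near vertex of an edge which crosses a line. -/
theorem near_of_crs {P : Pg N} {s : Bool} {t δ : ℝ} {e : ℤ} (hδ : |P.x (e + 1) - P.x e| < δ)
    (h : Crs P s t e) : |P.x e - t| < 2 * δ := by
  rw [abs_lt] at hδ ⊢
  obtain ⟨h1, h2⟩ := h
  rcases sn_or s with hs | hs <;> rw [hs] at h1 h2 <;> constructor <;> linarith

/-- The case of an item which passes. -/
theorem pass_case {P : Pg N} {s : Bool} {A C D : ℤ} {τ δ : ℝ} (hF : Fg P s A C D τ δ)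
    (hst : ∀ i, |P.x (i + 1) - P.x i| < δ) {t : ℝ} {e f g : ℤ} (hτ : τ ≤ sn s * t)
    (he : e ∈ Ico A C) (hf : f ∈ Ico C D) (hce : Crs P s t e) (hcf : Crs P (!s) t f)
    (hg1 : A ≤ g) (hg2 : g < A + N) (hcg : Crs P s t g ∨ Crs P (!s) t g) :
    ¬ Btw (P.l e t) (P.l f t) (P.l g t) := by
  have hAC := hF.AC
  have hCD := hF.CD
  have hm1 : ∀ a b, A ≤ a → a ≤ b → b ≤ C → sn s * P.x a ≤ sn s * P.x b := fun a b ha hab hb =>
    hF.m1 ⟨ha, hab.trans hb⟩ ⟨ha.trans hab, hb⟩ hab
  have hm2 : ∀ a b, C ≤ a → a ≤ b → b ≤ D → sn s * P.x b ≤ sn s * P.x a := fun a b ha hab hb =>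
    hF.m2 ⟨ha, hab.trans hb⟩ ⟨ha.trans hab, hb⟩ hab
  obtain ⟨he1, he2⟩ := he
  obtain ⟨hf1, hf2⟩ := hf
  unfold Crs at hce hcf hcg
  rw [sn_not] at hcf hcg
  rcases lt_or_ge g C with hg | hg
  · have h0 := hm1 g (g + 1) (by omega) (by omega) (by omega)
    have hcg' : sn s * P.x g < sn s * t ∧ sn s * t < sn s * P.x (g + 1) := by
      rcases hcg with h | ⟨h, h'⟩
      · exact h
      · exfalso; linarith
    have h1 : g = e := by
      rcases lt_trichotomy g e with h | h | h
      · have := hm1 (g + 1) e (by omega) (by omega) (by omega)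
        exfalso; linarith [hce.1, hcg'.2]
      · exact h
      · have := hm1 (e + 1) g (by omega) (by omega) (by omega)
        exfalso; linarith [hce.2, hcg'.1]
    rw [h1]
    exact not_btw_left _ _
  · rcases lt_or_ge g D with hg' | hg'
    · have h0 := hm2 g (g + 1) (by omega) (by omega) (by omega)
      have hcg' : sn s * P.x (g + 1) < sn s * t ∧ sn s * t < sn s * P.x g := by
        rcases hcg with ⟨h, h'⟩ | ⟨h, h'⟩
        · exfalso; linarith
        · constructor <;> linarith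
      have h1 : g = f := by
        rcases lt_trichotomy g f with h | h | h
        · have := hm2 (g + 1) f (by omega) (by omega) (by omega)
          exfalso; linarith [hcf.1, hcg'.1]
        · exact h
        · have := hm2 (f + 1) g (by omega) (by omega) (by omega)
          exfalso; linarith [hcf.2, hcg'.2]
      rw [h1]
      exact not_btw_right _ _
    · apply not_btw_of_gap
      refine hF.gap t hτ e ⟨he1, he2⟩ f ⟨hf1, hf2⟩ g ⟨hg', hg2⟩
        (near_of_crs (s := s) (hst e) hce) (near_of_crs (s := !s) (hst f) ?_) ?_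
      · unfold Crs; rw [sn_not]; exact hcf
      · rcases hcg with h | h
        · exact near_of_crs (s := s) (hst g) h
        · refine near_of_crs (s := !s) (hst g) ?_
          unfold Crs; rw [sn_not]; exact h

/-- The case of a turn. -/
theorem turn_case {P : Pg N} {s : Bool} {A C D : ℤ} {τ δ : ℝ} (hF : Fg P s A C D τ δ)
    (hst : ∀ i, |P.x (i + 1) - P.x i| < δ) {t t₁ : ℝ} {e f pe g qe : ℤ} (hτ : τ ≤ sn s * t)
    (he : e ∈ Ico A C) (hf : f ∈ Ico C D) (hce : Crs P s t e) (hcf : Crs P (!s) t f)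
    (hg1 : A ≤ g) (hg2 : g < A + N) (h1 : pe ≤ g) (h2 : g < qe) (hmesh : |t₁ - t| < δ)
    (H : (∀ m, pe < m → m ≤ qe → t₁ < P.x m ∧ P.x m < t) ∧ P.x pe < t₁ ∧ P.x (qe + 1) < t₁ ∨
      (∀ m, pe < m → m ≤ qe → t < P.x m ∧ P.x m < t₁) ∧ t₁ < P.x pe ∧ t₁ < P.x (qe + 1)) :
    ¬ Btw (P.l e t) (P.l f t) (P.l g t) := by
  have hout : ¬ (A ≤ g ∧ g < D) := by
    refine turn_out hF (t₁ := t₁) he hce hτ h1 h2 ?_
    rcases sn_or s with hs | hs <;> rw [hs]
    · rcases H with ⟨H1, H2, H3⟩ | ⟨H1, H2, H3⟩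
      · left
        refine ⟨fun m h h' => ?_, by linarith, by linarith⟩
        obtain ⟨h3, h4⟩ := H1 m h h'
        constructor <;> linarith
      · right
        refine ⟨fun m h h' => ?_, by linarith, by linarith⟩
        obtain ⟨h3, h4⟩ := H1 m h h'
        constructor <;> linarith
    · rcases H with ⟨H1, H2, H3⟩ | ⟨H1, H2, H3⟩
      · right
        refine ⟨fun m h h' => ?_, by linarith, by linarith⟩
        obtain ⟨h3, h4⟩ := H1 m h h'
        constructor <;> linarith
      · left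
        refine ⟨fun m h h' => ?_, by linarith, by linarith⟩
        obtain ⟨h3, h4⟩ := H1 m h h'
        constructor <;> linarith
  have hD : D ≤ g := by
    by_contra h
    exact hout ⟨hg1, by omega⟩
  apply not_btw_of_gap
  refine hF.gap t hτ e he f hf g ⟨hD, hg2⟩ (near_of_crs (s := s) (hst e) hce)
    (near_of_crs (s := !s) (hst f) hcf) ?_
  have h3 := hst g
  rw [abs_lt] at h3 hmesh ⊢
  rcases H with ⟨H1, -, -⟩ | ⟨H1, -, -⟩
  · obtain ⟨h4, h5⟩ := H1 (g + 1) (by omega) (by omega)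
    constructor <;> linarith
  · obtain ⟨h4, h5⟩ := H1 (g + 1) (by omega) (by omega)
    constructor <;> linarith

/-- The neighbours of an element of a chain. -/
theorem nbrs {R : It → It → Prop} {i j z : It} {w : List It} (hj : j ∈ w)
    (hc : List.IsChain R ((i :: w) ++ [z])) :
    ∃ p q, R p j ∧ R j q ∧ (p, j) ∈ cp (i :: w) ∧ ((j, q) ∈ cp (i :: w) ∨ q = z) ∧
      p ∈ i :: w ∧ (q ∈ i :: w ∨ q = z) := by
  obtain ⟨u, v, rfl⟩ := List.append_of_mem hj
  obtain ⟨u', p, hu⟩ : ∃ u' p, i :: u = u' ++ [p] :=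
    ⟨(i :: u).dropLast, (i :: u).getLast (List.cons_ne_nil _ _),
      (List.dropLast_append_getLast _).symm⟩
  have hl : i :: (u ++ j :: v) = u' ++ p :: j :: v := by
    rw [← List.cons_append, hu, List.append_assoc]
    rfl
  rw [hl] at hc ⊢
  have hp : R p j := by
    rw [List.append_assoc] at hc
    have h1 := (List.isChain_append.1 hc).2.1
    rw [List.cons_append, List.cons_append, List.isChain_cons_cons] at h1
    exact h1.1
  cases v with
  | nil =>
    refine ⟨p, z, hp, ?_, mem_cp _ _ _ _, Or.inr rfl, by simp, Or.inr rfl⟩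
    rw [List.append_assoc] at hc
    have h1 := (List.isChain_append.1 hc).2.1
    rw [List.cons_append, List.cons_append, List.isChain_cons_cons, List.nil_append,
      List.isChain_cons_cons] at h1
    exact h1.2.1
  | cons q v =>
    refine ⟨p, q, hp, ?_, mem_cp _ _ _ _, Or.inl ?_, by simp, Or.inl (by simp)⟩
    · rw [List.append_assoc] at hc
      have h1 := (List.isChain_append.1 hc).2.1
      rw [List.cons_append, List.cons_append, List.cons_append, List.isChain_cons_cons,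
        List.isChain_cons_cons] at h1
      exact h1.2.1
    · have := mem_cp j q (u' ++ [p]) v
      rwa [List.append_assoc] at this

end ADJ

open _root_.LHE.ADJ in
theorem t_ADJ : Stmt_ADJ := by
  intro N P X s A C D τ δ i w hX hM hG hi hF hst t ht hτ e he f hf hce hcf
  have hAC := hF.AC
  have hCD := hF.CD
  have hDA := hF.DA
  have hN : 0 < N := by
    have : (0 : ℤ) < N := by omega
    exact_mod_cast this
  rintro p hp hpt
  rw [List.mem_map] at hp
  obtain ⟨j, hj, rfl⟩ := hp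
  have hjt : j.t = t := hpt
  change ¬ Btw (P.l e t) (P.l f t) (P.l j.e j.t)
  rw [hjt]
  obtain ⟨k, hk1, hk2⟩ := exists_shift hN A j.e
  rw [← pl_mul P j.e k t]
  obtain ⟨⟨i', w', hiw, hok, hch⟩, hcp⟩ := hG
  obtain ⟨rfl, rfl⟩ := List.cons.inj hiw
  have hx : ∀ m : ℤ, P.x (m + k * N) = P.x m := fun m => px_mul P m k
  have hx1 : ∀ m : ℤ, P.x (m + k * N + 1) = P.x (m + 1) := fun m => by
    rw [show m + k * (N : ℤ) + 1 = (m + 1) + k * N by ring]
    exact px_mul P (m + 1) k
  by_cases hT : Tn j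
  · -- a turn
    have hjw : j ∈ w := by
      rcases List.mem_cons.1 hj with h | h
      · rw [h] at hT; exact absurd hT hi
      · exact h
    obtain ⟨p, q, hpj, hjq, hcp1, hcp2, hpm, hqm⟩ := nbrs hjw hch
    have hpT : ¬ Tn p := fun h => hcp _ hcp1 ⟨h, hT⟩
    have hqT : ¬ Tn q := by
      rcases hcp2 with h | h
      · exact fun h' => hcp _ h ⟨hT, h'⟩
      · rw [h]; exact hi
    have hpok : ItOK P p := hok p hpm
    have hqok : ItOK P q := by
      rcases hqm with h | h
      · exact hok q h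
      · have h3 := hok i List.mem_cons_self
        rw [h]
        constructor
        · intro hk
          have h4 := h3.1 hk
          change P.x (i.e + N) < i.t ∧ i.t < P.x (i.e + N + 1)
          rw [P.px, show i.e + (N : ℤ) + 1 = (i.e + 1) + N by ring, P.px]
          exact h4
        · intro hk
          have h4 := h3.2 hk
          change P.x (i.e + N + 1) < i.t ∧ i.t < P.x (i.e + N)
          rw [P.px, show i.e + (N : ℤ) + 1 = (i.e + 1) + N by ring, P.px]
          exact h4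
    have hle := hpj.le
    have hlt := hjq.tl hT
    rcases hT with hR | hL
    · -- right turn
      have hpd : p.k.fw ∧ p.t < j.t := by
        rcases hpj.dir with ⟨h3, -, h5⟩ | ⟨-, h4, -⟩
        · exact ⟨h3, h5⟩
        · rw [hR] at h4; exact absurd trivial h4
      have hqd : ¬ q.k.ar ∧ q.t < j.t := by
        rcases hjq.dir with ⟨h3, -, -⟩ | ⟨-, h4, h5⟩
        · rw [hR] at h3; exact absurd h3 id
        · exact ⟨h4, h5⟩
      have hpk : p.k = .rt := by
        have h3 := hpd.1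
        unfold Tn at hpT
        cases h : p.k <;> simp_all [Kd.fw]
      have hqk : q.k = .lt := by
        have h3 := hqd.1
        unfold Tn at hqT
        cases h : q.k <;> simp_all [Kd.ar]
      have hpa : AdjX X p.t j.t := by
        rcases hpj.adj with h | h
        · exact h
        · exact absurd h.2.2.1 (not_lt.2 hpd.2.le)
      have hqa : AdjX X q.t j.t := by
        rcases hjq.adj with h | h
        · exact absurd h.2.2.1 (not_lt.2 hqd.2.le)
        · exact h
      have hpq : q.t = p.t := adj_left hqa hpa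
      have hm := hM _ _ hpa
      have hp3 := hpok.1 hpk
      have hq3 := hqok.2 hqk
      rw [hjt] at hm hpd hpa
      refine turn_case hF hst (t₁ := p.t) (pe := p.e + k * N) (qe := q.e + k * N) hτ he hf hce hcf
        hk1 hk2 (by linarith) (by linarith) ?_ (Or.inl ⟨?_, ?_, ?_⟩)
      · rw [abs_lt]; constructor <;> linarith [hpd.2]
      · intro m hm1 hm2
        rw [← px_mul P m (-k)]
        rcases le_or_gt (m + -k * N) j.e with h | h
        · have h3 := hpj.ins (m + -k * N) (by linarith) h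
          rw [hjt] at h3
          rcases h3 with h3 | h3
          · exact h3
          · exfalso; linarith [hpd.2, h3.1, h3.2]
        · have h3 := hjq.ins (m + -k * N) h (by linarith)
          rw [hjt, hpq] at h3
          rcases h3 with h3 | h3
          · exfalso; linarith [hpd.2, h3.1, h3.2]
          · exact h3
      · rw [hx]; exact hp3.1
      · rw [hx1, ← hpq]; exact hq3.1
    · -- left turn
      have hpd : ¬ p.k.fw ∧ j.t < p.t := by
        rcases hpj.dir with ⟨-, h4, -⟩ | ⟨h3, -, h5⟩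
        · rw [hL] at h4; exact absurd h4 id
        · exact ⟨h3, h5⟩
      have hqd : q.k.ar ∧ j.t < q.t := by
        rcases hjq.dir with ⟨-, h4, h5⟩ | ⟨h3, -, -⟩
        · exact ⟨h4, h5⟩
        · rw [hL] at h3; exact absurd trivial h3
      have hpk : p.k = .lt := by
        have h3 := hpd.1
        unfold Tn at hpT
        cases h : p.k <;> simp_all [Kd.fw]
      have hqk : q.k = .rt := by
        have h3 := hqd.1
        unfold Tn at hqT
        cases h : q.k <;> simp_all [Kd.ar]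
      have hpa : AdjX X j.t p.t := by
        rcases hpj.adj with h | h
        · exact absurd h.2.2.1 (not_lt.2 hpd.2.le)
        · exact h
      have hqa : AdjX X j.t q.t := by
        rcases hjq.adj with h | h
        · exact h
        · exact absurd h.2.2.1 (not_lt.2 hqd.2.le)
      have hpq : q.t = p.t := adj_right hqa hpa
      have hm := hM _ _ hpa
      have hp3 := hpok.2 hpk
      have hq3 := hqok.1 hqk
      rw [hjt] at hm hpd hpa
      refine turn_case hF hst (t₁ := p.t) (pe := p.e + k * N) (qe := q.e + k * N) hτ he hf hce hcf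
        hk1 hk2 (by linarith) (by linarith) ?_ (Or.inr ⟨?_, ?_, ?_⟩)
      · rw [abs_lt]; constructor <;> linarith [hpd.2]
      · intro m hm1 hm2
        rw [← px_mul P m (-k)]
        rcases le_or_gt (m + -k * N) j.e with h | h
        · have h3 := hpj.ins (m + -k * N) (by linarith) h
          rw [hjt] at h3
          rcases h3 with h3 | h3
          · exfalso; linarith [hpd.2, h3.1, h3.2]
          · exact h3
        · have h3 := hjq.ins (m + -k * N) h (by linarith)
          rw [hjt, hpq] at h3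
          rcases h3 with h3 | h3
          · exact h3
          · exfalso; linarith [hpd.2, h3.1, h3.2]
      · rw [hx]; exact hp3.2
      · rw [hx1, ← hpq]; exact hq3.2
  · -- passing
    have hjok := hok j hj
    refine pass_case hF hst hτ he hf hce hcf hk1 hk2 ?_
    have hjk : j.k = .rt ∨ j.k = .lt := by
      unfold Tn at hT
      cases h : j.k <;> simp_all
    unfold Crs
    rw [sn_not, hx, hx1]
    rcases hjk with h | h
    · have h3 := hjok.1 h
      rw [hjt] at h3
      rcases sn_or s with hs | hs <;> rw [hs]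
      · left; constructor <;> linarith [h3.1, h3.2]
      · right; constructor <;> linarith [h3.1, h3.2]
    · have h3 := hjok.2 h
      rw [hjt] at h3
      rcases sn_or s with hs | hs <;> rw [hs]
      · right; constructor <;> linarith [h3.1, h3.2]
      · left; constructor <;> linarith [h3.1, h3.2]

end LHE


end
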