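import Mathlib
import Pool.Agent.NDM.C01
import Pool.Agent.NDM.C02
import Pool.Agent.NDM.C03

/-! Parts: LG.COL, LG.LSR, LG.WT2, LH.PH1, LH.STD, LH.ZAL, LHS.FIN, LCA.DTH, LCA.CapJ.D7 -/

section

/-!
# COL: exchange of adjacent unlinked columns
-/

namespace LG

open Equiv Finset Function

namespace COL

section lex

variable {β : Type} [LinearOrder β]

/-- the positions of the circles -/
def e (x : β) : β ×ₗ Bool := toLex (x, false)

/-- the position immediately above -/
def e' (x : β) : β ×ₗ Bool := toLex (x, true)

theorem lt1 {x y : β} : e x < e y ↔ x < y := by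
  simp [e, Prod.Lex.toLex_lt_toLex]

theorem lt2 {x y : β} : e x < e' y ↔ x ≤ y := by
  simp [e, e', Prod.Lex.toLex_lt_toLex, le_iff_lt_or_eq]

theorem lt3 {x y : β} : e' x < e y ↔ x < y := by
  simp [e, e', Prod.Lex.toLex_lt_toLex]

omit [LinearOrder β] in
theorem eq1 {x y : β} : e x = e y ↔ x = y := by
  simp [e]

omit [LinearOrder β] in
theorem ne1 {x y : β} : e x ≠ e' y := by
  simp [e, e']

theorem cyc_e {x y z : β} : cyc (e x) (e y) (e z) ↔ cyc x y z := by
  simp only [cyc, lt1]

theorem ico_e {x y z : β} : ico (e x) (e y) (e z) ↔ ico x y z := by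
  simp only [ico, eq1, cyc_e]

/-- the height -/
theorem height (A B C D : β) (hU : Unl A B C D) (hAB : A ≠ B) (hCD : C ≠ D) : ∃ t : β,
    cyc (e A) (e' t) (e C) ∧ ¬ ico (e A) (e C) (e' t) ∧ ¬ ico (e A) (e D) (e' t) ∧
      ¬ cyc (e' t) (e A) (e C) ∧ ¬ cyc (e' t) (e B) (e C) := by
  by_cases h : cyc A C B
  · refine ⟨A, ?_⟩
    have hne : e C ≠ e' A := ne1
    have hne2 : e D ≠ e' A := ne1
    simp only [cyc, ico, lt1, lt2, lt3, eq1]
    unfold Unl cyc at *
    refine ⟨?_, ?_, ?_, ?_, ?_⟩ <;> grind
  · refine ⟨B, ?_⟩
    have hne : e C ≠ e' B := ne1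
    have hne2 : e D ≠ e' B := ne1
    simp only [cyc, ico, lt1, lt2, lt3, eq1]
    unfold Unl cyc at *
    refine ⟨?_, ?_, ?_, ?_, ?_⟩ <;> grind

end lex

section main

variable {ι κ α β : Type} [Fintype ι] [DecidableEq ι] [Fintype κ] [LinearOrder α] [LinearOrder β]

theorem Wt_e (c : ι → α) (r : ι → β) (a : κ → α) (b : κ → β) (x : Perm ι) (i l : ι) :
    Wt (gm c (e ∘ r) a (e ∘ b)) x i l = Wt (gm c r a b) x i l := by
  unfold Wt
  refine if_congr ?_ ?_ rfl
  · simp only [Emp, gm, comp_apply, cyc_e]
  · refine Finset.prod_congr rfl fun m _ => if_congr ?_ rfl rfl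
    cases m with
    | inl m => simp only [Ins, gm, comp_apply, Sum.elim_inl, ico_e]
    | inr m => simp only [Ins, gm, comp_apply, Sum.elim_inr, ico_e]

theorem del_e (c : ι → α) (r : ι → β) (a : κ → α) (b : κ → β) (f : Perm ι → ZMod 2) :
    del (gm c (e ∘ r) a (e ∘ b)) f = del (gm c r a b) f := by
  funext y
  unfold del
  simp only [Wt_e]

/-- the next circle -/
theorem exists_succ (c : ι → α) (hc : Injective c) {j k : ι} (hjk : j ≠ k) :
    ∃ i, i ≠ k ∧ ∀ l, ¬ cyc (c k) (c l) (c i) := by
  by_cases h : ∃ l, c k < c l
  · obtain ⟨l0, hl0⟩ := h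
    obtain ⟨i, hi, hmin⟩ := Finset.exists_min_image (univ.filter fun l => c k < c l) c
      ⟨l0, by simpa using hl0⟩
    have hi' : c k < c i := by simpa using hi
    refine ⟨i, fun h => by rw [h] at hi'; exact lt_irrefl _ hi', ?_⟩
    intro l hl
    have h1 : c k < c l → c i ≤ c l := fun h => hmin l (by simpa using h)
    unfold cyc at hl
    grind
  · push Not at h
    obtain ⟨i, hi, hmin⟩ := Finset.exists_min_image (univ.filter fun l => l ≠ k) c
      ⟨j, by simpa using hjk⟩
    have hi' : i ≠ k := by simpa using hi
    refine ⟨i, hi', ?_⟩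
    intro l hl
    have h1 : l ≠ k → c i ≤ c l := fun h => hmin l (by simpa using h)
    have h2 : l = k → c l = c k := fun h => by rw [h]
    have h3 := h i
    have h4 := h l
    have h5 : c i ≠ c k := fun h => hi' (hc h)
    unfold cyc at hl
    grind

/-- the data of the exchange -/
def mkD (c : ι → α) (r : ι → β) (a : κ → α) (b : κ → β) (hac : ∀ m, ∃ k, a m = c k) (j k i2 : ι)
    (hjk : j ≠ k) (hi2 : i2 ≠ k) (hc : Injective c) (hadj : ∀ i, ¬ cyc (c j) (c i) (c k))
    (hadj2 : ∀ i, ¬ cyc (c k) (c i) (c i2)) (t : β) : PD (gm c (e ∘ r) a (e ∘ b)) where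
  i0 := k
  i1 := j
  i2 := i2
  n1 := hjk
  n2 := hi2
  adj1 := hadj
  adj2 := hadj2
  a := e' t
  av := fun l => ne1
  aq := fun m => by
    cases m with
    | inl m => exact ne1
    | inr m => exact ne1
  L := fun m => Sum.elim c a m = c j
  K := fun m => Sum.elim c a m = c k
  decL := fun _ => inferInstance
  decK := fun _ => inferInstance
  p' := fun m => Equiv.swap (c j) (c k) (Sum.elim c a m)
  hL := fun m => by
    have hp : ∃ i, Sum.elim c a m = c i := by
      cases m with
      | inl m => exact ⟨m, rfl⟩
      | inr m => exact hac m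
    obtain ⟨i, hi⟩ := hp
    have h1 := hadj i
    show Sum.elim c a m = c j ↔ ico (c j) (Sum.elim c a m) (c k)
    rw [hi]
    unfold ico
    tauto
  hK := fun m => by
    have hp : ∃ i, Sum.elim c a m = c i := by
      cases m with
      | inl m => exact ⟨m, rfl⟩
      | inr m => exact hac m
    obtain ⟨i, hi⟩ := hp
    have h1 := hadj2 i
    show Sum.elim c a m = c k ↔ ico (c k) (Sum.elim c a m) (c i2)
    rw [hi]
    unfold ico
    tauto
  disj := fun m h => hjk (hc (h.1.symm.trans h.2))
  mL := fun m h => by
    show ico (c k) (Equiv.swap (c j) (c k) (Sum.elim c a m)) (c i2)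
    rw [h, Equiv.swap_apply_left]
    exact Or.inl rfl
  mK := fun m h => by
    show ico (c j) (Equiv.swap (c j) (c k) (Sum.elim c a m)) (c k)
    rw [h, Equiv.swap_apply_right]
    exact Or.inl rfl
  mO := fun m h1 h2 => by
    show Equiv.swap (c j) (c k) (Sum.elim c a m) = Sum.elim c a m
    exact Equiv.swap_apply_of_ne_of_ne h1 h2

theorem Pw_one (c : ι → α) (r : ι → β) (a : κ → α) (b : κ → β) (hG : Gd c r a b) (j k i2 : ι)
    (hjk : j ≠ k) (hi2 : i2 ≠ k) (hadj : ∀ i, ¬ cyc (c j) (c i) (c k))
    (hadj2 : ∀ i, ¬ cyc (c k) (c i) (c i2)) (t : β) (m n : κ) (hm : a m = c j) (hn : a n = c k)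
    (h1 : cyc (e (r j)) (e' t) (e (r k))) (h2 : ¬ ico (e (r j)) (e (r k)) (e' t))
    (h3 : ¬ ico (e (r j)) (e (b n)) (e' t)) (h4 : ¬ cyc (e' t) (e (r j)) (e (r k)))
    (h5 : ¬ cyc (e' t) (e (b m)) (e (r k))) (i l : ι) :
    Pw (mkD c r a b hG.ac j k i2 hjk hi2 hG.ci hadj hadj2 t) 1 i l =
      if i = j ∧ l = k then 1 else 0 := by
  set D := mkD c r a b hG.ac j k i2 hjk hi2 hG.ci hadj hadj2 t with hD
  by_cases hil : i = j ∧ l = k
  · obtain ⟨rfl, rfl⟩ := hil
    rw [if_pos ⟨rfl, rfl⟩]
    unfold Pw
    have hcond : i ≠ l ∧ (i = D.i0 ∨ l = D.i0) ∧ Emp (gm c (e ∘ r) a (e ∘ b)) 1 i l ∧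
        cyc ((gm c (e ∘ r) a (e ∘ b)).v ((1 : Perm ι) i)) D.a
          ((gm c (e ∘ r) a (e ∘ b)).v ((1 : Perm ι) l)) :=
      ⟨hjk, Or.inr rfl, fun q hq => hadj q hq.1, h1⟩
    rw [if_pos hcond]
    apply Finset.prod_eq_one
    intro μ _
    rw [if_neg]
    unfold PIns
    by_cases hK : D.K μ
    · rw [if_pos hK]
      have hK' : Sum.elim c a μ = c l := hK
      cases μ with
      | inl q =>
        have : q = l := hG.ci hK'
        subst this
        exact h2
      | inr q =>
        have : q = n := hG.ai (hK'.trans hn.symm)
        subst this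
        exact h3
    · rw [if_neg hK]
      by_cases hL : D.L μ
      · rw [if_pos hL]
        have hL' : Sum.elim c a μ = c i := hL
        cases μ with
        | inl q =>
          have : q = i := hG.ci hL'
          subst this
          exact h4
        | inr q =>
          have : q = m := hG.ai (hL'.trans hm.symm)
          subst this
          exact h5
      · rw [if_neg hL]
        intro hI
        exact hL ((D.hL μ).2 hI.1)
  · rw [if_neg hil]
    unfold Pw
    by_cases hcond : i ≠ l ∧ (i = D.i0 ∨ l = D.i0) ∧ Emp (gm c (e ∘ r) a (e ∘ b)) 1 i l ∧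
        cyc ((gm c (e ∘ r) a (e ∘ b)).v ((1 : Perm ι) i)) D.a
          ((gm c (e ∘ r) a (e ∘ b)).v ((1 : Perm ι) l))
    · rw [if_pos hcond]
      have hi0 : D.i0 = k := rfl
      obtain ⟨hne, hor, -, -⟩ := hcond
      rw [hi0] at hor
      apply Finset.prod_eq_zero (Finset.mem_univ (Sum.inl i))
      rw [if_pos]
      · rfl
      · unfold PIns
        by_cases hK : D.K (Sum.inl i)
        · rw [if_pos hK]
          exact Or.inl rfl
        · rw [if_neg hK]
          have hik : i ≠ k := by
            rintro rfl
            exact hK rfl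
          have hlk : l = k := hor.resolve_left hik
          have hij : i ≠ j := fun h => hil ⟨h, hlk⟩
          have hL : ¬ D.L (Sum.inl i) := by
            intro hL
            exact hij (hG.ci hL)
          rw [if_neg hL]
          exact ⟨Or.inl rfl, Or.inl rfl⟩
    · rw [if_neg hcond]

theorem pent_one (c : ι → α) (r : ι → β) (a : κ → α) (b : κ → β) (D : PD (gm c (e ∘ r) a (e ∘ b)))
    (j k : ι) (h : ∀ i l, Pw D 1 i l = if i = j ∧ l = k then 1 else 0) :
    pent D (Pi.single 1 1) = Pi.single (Equiv.swap j k) 1 := by
  funext y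
  unfold pent
  have h1 : ∀ i l, (Pi.single (1 : Perm ι) (1 : ZMod 2) : Perm ι → ZMod 2) (y * Equiv.swap i l) *
      Pw D (y * Equiv.swap i l) i l = if i = j ∧ l = k then (if y * Equiv.swap i l = 1 then 1 else 0) else 0 := by
    intro i l
    rw [Pi.single_apply]
    by_cases h2 : y * Equiv.swap i l = 1
    · rw [if_pos h2, h2, h i l, one_mul]
    · rw [if_neg h2, zero_mul]
      split_ifs <;> rfl
  simp only [h1]
  rw [Finset.sum_eq_single j, Finset.sum_eq_single k]
  · rw [if_pos ⟨rfl, rfl⟩, Pi.single_apply]
    refine if_congr ?_ rfl rfl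
    rw [mul_eq_one_iff_eq_inv, Equiv.swap_inv]
  · intro l _ hl
    rw [if_neg]
    exact fun h => hl h.2
  · intro h
    exact absurd (Finset.mem_univ _) h
  · intro i _ hi
    apply Finset.sum_eq_zero
    intro l _
    rw [if_neg]
    exact fun h => hi h.1
  · intro h
    exact absurd (Finset.mem_univ _) h

/-- relabelling of the vertical circles -/
theorem Wt_relabel {M R : Type} [Fintype M] [CommRing R] (u u' : ι → α) (v : ι → β) (p : M → α)
    (q : M → β) (w : M → R) (s : Perm ι) (hs : s * s = 1) (hu : ∀ i, u' i = u (s i)) (x : Perm ι)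
    (i l : ι) : Wt (⟨u', v, p, q, w⟩ : MG ι M α β R) x i l =
      Wt (⟨u, v, p, q, w⟩ : MG ι M α β R) (x * s) (s i) (s l) := by
  have hss : ∀ i, s (s i) = i := fun i => by
    rw [← Perm.mul_apply, hs, Perm.one_apply]
  have hx : ∀ i, (x * s) (s i) = x i := fun i => by rw [Perm.mul_apply, hss]
  unfold Wt
  refine if_congr ?_ ?_ rfl
  · refine and_congr (by simp) ?_
    unfold Emp
    simp only [hu, hx]
    constructor
    · intro h k'
      have := h (s k')
      rw [hss, ← hx (s k'), hss] at this
      exact this
    · intro h k'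
      have := h (s k')
      rw [hx k'] at this
      exact this
  · refine Finset.prod_congr rfl fun m _ => if_congr ?_ rfl rfl
    unfold Ins
    simp only [hu, hx]

theorem fwd (hPC : P_PC) (c : ι → α) (r : ι → β) (a : κ → α) (b : κ → β) (hG : Gd c r a b)
    (j k : ι) (m n : κ) (hjk : j ≠ k) (hadj : ∀ i, ¬ cyc (c j) (c i) (c k)) (hm : a m = c j)
    (hn : a n = c k) (hU : Unl (r j) (b m) (r k) (b n)) (hV : V c r a b) :
    V (Equiv.swap (c j) (c k) ∘ c) r (Equiv.swap (c j) (c k) ∘ a) b := by
  obtain ⟨f, hf⟩ := hV
  obtain ⟨i2, hi2, hadj2⟩ := exists_succ c hG.ci hjk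
  obtain ⟨t, h1, h2, h3, h4, h5⟩ := height (r j) (b m) (r k) (b n) hU
    (fun h => hG.ne j m ⟨hm.symm, h⟩) (fun h => hG.ne k n ⟨hn.symm, h⟩)
  set D := mkD c r a b hG.ac j k i2 hjk hi2 hG.ci hadj hadj2 t with hD
  have hcu : Injective (gm c (e ∘ r) a (e ∘ b)).u := hG.ci
  have hcv : Injective (gm c (e ∘ r) a (e ∘ b)).v := fun x y hxy => hG.ri (eq1.1 hxy)
  have key := hPC ι (ι ⊕ κ) α (β ×ₗ Bool) (ZMod 2) (gm c (e ∘ r) a (e ∘ b)) D rfl hcu hcv f
  have hf' : del (gm c (e ∘ r) a (e ∘ b)) f = Pi.single 1 1 := by
    rw [del_e]
    exact hf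
  rw [hf', pent_one c r a b D j k (Pw_one c r a b hG j k i2 hjk hi2 hadj hadj2 t m n hm hn h1 h2
    h3 h4 h5)] at key
  set s : Perm ι := Equiv.swap j k with hs
  have hss : s * s = 1 := Equiv.swap_mul_self j k
  refine ⟨fun x => pent D f (x * s), ?_⟩
  have hc' : ∀ i, Equiv.swap (c j) (c k) (c i) = c (s i) := by
    intro i
    by_cases hij : i = j
    · rw [hij, Equiv.swap_apply_left, hs, Equiv.swap_apply_left]
    · by_cases hik : i = k
      · rw [hik, Equiv.swap_apply_right, hs, Equiv.swap_apply_right]
      · rw [hs, Equiv.swap_apply_of_ne_of_ne hij hik, Equiv.swap_apply_of_ne_of_ne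
          (fun h => hij (hG.ci h)) (fun h => hik (hG.ci h))]
  have hW : ∀ (x : Perm ι) (i l : ι),
      Wt (gm (Equiv.swap (c j) (c k) ∘ c) r (Equiv.swap (c j) (c k) ∘ a) b) x i l =
        Wt D.G' (x * s) (s i) (s l) := by
    intro x i l
    rw [← Wt_e]
    have e1 : gm (Equiv.swap (c j) (c k) ∘ c) (e ∘ r) (Equiv.swap (c j) (c k) ∘ a) (e ∘ b) =
        (⟨Equiv.swap (c j) (c k) ∘ c, e ∘ r, fun m => Equiv.swap (c j) (c k) (Sum.elim c a m),
          Sum.elim (e ∘ r) (e ∘ b), fun _ => 0⟩ : MG ι (ι ⊕ κ) α (β ×ₗ Bool) (ZMod 2)) := by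
      unfold gm
      have e2 : Sum.elim (Equiv.swap (c j) (c k) ∘ c) (Equiv.swap (c j) (c k) ∘ a) =
          fun m => Equiv.swap (c j) (c k) (Sum.elim c a m) := by
        funext m
        cases m <;> rfl
      rw [e2]
    rw [e1]
    exact Wt_relabel c (Equiv.swap (c j) (c k) ∘ c) (e ∘ r) _ _ _ s hss hc' x i l
  funext y
  have hkey := congrFun key (y * s)
  unfold bd del
  unfold del at hkey
  simp only [hW]
  have hmul : ∀ i l : ι, y * Equiv.swap i l * s = y * s * Equiv.swap (s i) (s l) := by
    intro i l
    have h6 : Equiv.swap i l * s = s * Equiv.swap (s i) (s l) := by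
      have h7 : s⁻¹ = s := by rw [hs, Equiv.swap_inv]
      have h8 := Equiv.swap_mul_eq_mul_swap s i l
      rw [h7] at h8
      exact h8
    rw [mul_assoc, h6, mul_assoc]
  simp only [hmul]
  set F : ι → ι → ZMod 2 := fun i l => pent D f (y * s * Equiv.swap i l) *
    Wt D.G' (y * s * Equiv.swap i l) i l with hF
  have hre : ∑ i, ∑ l, F (s i) (s l) = ∑ i, ∑ l, F i l := by
    calc ∑ i, ∑ l, F (s i) (s l) = ∑ i, ∑ l, F (s i) l :=
          Finset.sum_congr rfl fun i _ => Equiv.sum_comp s (F (s i))
      _ = ∑ i, ∑ l, F i l := Equiv.sum_comp s fun i => ∑ l, F i l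
  refine (hre.trans hkey).trans ?_
  rw [Pi.single_apply, Pi.single_apply]
  refine if_congr ?_ rfl rfl
  constructor
  · intro h
    have := mul_right_cancel (h.trans (one_mul s).symm)
    exact this
  · intro h
    rw [h, one_mul]

end main

end COL

open _root_.LG.COL in
theorem t_COL : Stmt_COL := by
  intro hPC ι κ α β _ _ _ _ _ c r a b hG j k m n hjk hadj hm hn hU
  refine ⟨fwd hPC c r a b hG j k m n hjk hadj hm hn hU, fun hV => ?_⟩
  set σ : Perm α := Equiv.swap (c j) (c k) with hσ
  have hσσ : ∀ x, σ (σ x) = x := fun x => by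
    rw [hσ, ← Perm.mul_apply, Equiv.swap_mul_self, Perm.one_apply]
  have hcj : (σ ∘ c) j = c k := Equiv.swap_apply_left _ _
  have hck : (σ ∘ c) k = c j := Equiv.swap_apply_right _ _
  have hr : ∀ i, ∃ l, (σ ∘ c) i = c l := by
    intro i
    by_cases hij : c i = c j
    · exact ⟨k, by rw [comp_apply, hij, hσ, Equiv.swap_apply_left]⟩
    · by_cases hik : c i = c k
      · exact ⟨j, by rw [comp_apply, hik, hσ, Equiv.swap_apply_right]⟩
      · exact ⟨i, by rw [comp_apply, hσ, Equiv.swap_apply_of_ne_of_ne hij hik]⟩
  have hG' : Gd (σ ∘ c) r (σ ∘ a) b := by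
    refine ⟨σ.injective.comp hG.ci, hG.ri, σ.injective.comp hG.ai, hG.bi, ?_, ?_, hG.br, hG.rb, ?_⟩
    · intro q
      obtain ⟨l, hl⟩ := hG.ac q
      exact ⟨l, by rw [comp_apply, comp_apply, hl]⟩
    · intro q
      obtain ⟨l, hl⟩ := hG.ca q
      exact ⟨l, by rw [comp_apply, comp_apply, hl]⟩
    · rintro q l ⟨h1, h2⟩
      exact hG.ne q l ⟨σ.injective h1, h2⟩
  have hadj' : ∀ i, ¬ cyc ((σ ∘ c) k) ((σ ∘ c) i) ((σ ∘ c) j) := by
    intro i
    obtain ⟨l, hl⟩ := hr i
    rw [hcj, hck, hl]
    exact hadj l
  have hU' : Unl (r k) (b n) (r j) (b m) := by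
    have h1 : r j ≠ b m := fun h => hG.ne j m ⟨hm.symm, h⟩
    have h2 : r k ≠ b n := fun h => hG.ne k n ⟨hn.symm, h⟩
    unfold Unl cyc at *
    grind
  have := fwd hPC (σ ∘ c) r (σ ∘ a) b hG' k j n m hjk.symm hadj'
    (by rw [comp_apply, hn, hck, hσ, Equiv.swap_apply_right])
    (by rw [comp_apply, hm, hcj, hσ, Equiv.swap_apply_left]) hU' hV
  rw [hcj, hck] at this
  have e1 : Equiv.swap (c j) (c k) ∘ σ ∘ c = c := by
    funext i
    exact hσσ (c i)
  have e2 : Equiv.swap (c j) (c k) ∘ σ ∘ a = a := by
    funext i
    exact hσσ (a i)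
  rw [e1, e2] at this
  exact this

end LG


end

section

/-!
# LSR: the move `Mv.srow`
-/

namespace LG

open Equiv Finset Function

namespace LSR

lemma inj_fst {L : List (ℝ × ℝ)} (h : (L.map Prod.fst).Nodup) :
    Injective (fun i : Fin L.length => (L.get i).1) := by
  intro i j hij
  have hi : i.1 < (L.map Prod.fst).length := by simp
  have hj : j.1 < (L.map Prod.fst).length := by simp
  have h1 : (L.map Prod.fst)[i.1] = (L.map Prod.fst)[j.1] := by
    simpa using hij
  exact Fin.ext ((List.Nodup.getElem_inj_iff h).1 h1)

lemma inj_snd {L : List (ℝ × ℝ)} (h : (L.map Prod.snd).Nodup) :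
    Injective (fun i : Fin L.length => (L.get i).2) := by
  intro i j hij
  have hi : i.1 < (L.map Prod.snd).length := by simp
  have hj : j.1 < (L.map Prod.snd).length := by simp
  have h1 : (L.map Prod.snd)[i.1] = (L.map Prod.snd)[j.1] := by
    simpa using hij
  exact Fin.ext ((List.Nodup.getElem_inj_iff h).1 h1)

lemma nx_val (L : List (ℝ × ℝ)) (i : Fin L.length) :
    ((nx L i).1 = i.1 + 1 ∧ i.1 + 1 < L.length) ∨ ((nx L i).1 = 0 ∧ i.1 + 1 = L.length) := by
  have hi := i.2
  have h : (nx L i).1 = (i.1 + 1) % L.length := rfl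
  rcases Nat.lt_or_ge (i.1 + 1) L.length with h1 | h1
  · left
    rw [h, Nat.mod_eq_of_lt h1]
    exact ⟨rfl, h1⟩
  · right
    have h2 : i.1 + 1 = L.length := by omega
    rw [h, h2, Nat.mod_self]
    exact ⟨rfl, rfl⟩

lemma nx_inj (L : List (ℝ × ℝ)) : Injective (nx L) := by
  intro i j hij
  have h : (nx L i).1 = (nx L j).1 := by rw [hij]
  have hi := nx_val L i
  have hj := nx_val L j
  apply Fin.ext
  omega

lemma gd_list (L : List (ℝ × ℝ)) (h : Nd L) (hl : 2 ≤ L.length) :
    Gd (fun i : Fin L.length => (L.get i).1) (fun i => (L.get i).2)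
      (fun i : Fin L.length => (L.get (nx L i)).1) (fun i => (L.get i).2) where
  ci := inj_fst h.1
  ri := inj_snd h.2
  ai := (inj_fst h.1).comp (nx_inj L)
  bi := inj_snd h.2
  ac := fun m => ⟨nx L m, rfl⟩
  ca := fun k => by
    obtain ⟨m, hm⟩ := (Finite.injective_iff_surjective.1 (nx_inj L)) k
    exact ⟨m, by rw [hm]⟩
  br := fun m => ⟨m, rfl⟩
  rb := fun k => ⟨k, rfl⟩
  ne := by
    rintro k m ⟨h1, h2⟩
    have h3 : k = m := inj_snd h.2 h2
    subst h3
    have h4 : k = nx L k := inj_fst h.1 h1
    have h5 : k.1 = (nx L k).1 := congrArg Fin.val h4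
    have h6 := nx_val L k
    omega

/-- The same positions. -/
lemma rel_eq (hR : Stmt_REL) {ι κ ι' κ' : Type} [Fintype ι] [DecidableEq ι] [Fintype κ]
    [Fintype ι'] [DecidableEq ι'] [Fintype κ'] (c : ι → ℝ) (r : ι → ℝ) (a : κ → ℝ) (b : κ → ℝ)
    (c' : ι' → ℝ) (r' : ι' → ℝ) (a' : κ' → ℝ) (b' : κ' → ℝ) (e : ι ≃ ι') (e' : κ ≃ κ')
    (hc : ∀ i, c i = c' (e i)) (hr : ∀ i, r i = r' (e i)) (ha : ∀ i, a i = a' (e' i))
    (hb : ∀ i, b i = b' (e' i)) : V c r a b ↔ V c' r' a' b' := by
  have h1 : ∀ x : ι ⊕ κ, Sum.elim c a x = Sum.elim c' a' (Equiv.sumCongr e e' x) := by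
    rintro (x | x)
    · exact hc x
    · exact ha x
  have h2 : ∀ x : ι ⊕ κ, Sum.elim r b x = Sum.elim r' b' (Equiv.sumCongr e e' x) := by
    rintro (x | x)
    · exact hr x
    · exact hb x
  refine hR ι κ ι' κ' ℝ ℝ ℝ ℝ c r a b c' r' a' b' e e' ?_ ?_ ?_ ?_
  · intro x y z
    rw [h1, h1, h1]
  · intro x y
    rw [h1, h1]
  · intro x y z
    rw [h2, h2, h2]
  · intro x y
    rw [h2, h2]

/-- The indices of the tail. -/
def tailEquiv (p : ℝ × ℝ) (L : List (ℝ × ℝ)) :
    Fin L.length ≃ {i : Fin (p :: L).length // i ≠ ⟨0, Nat.succ_pos _⟩} where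
  toFun j := ⟨⟨j.1 + 1, Nat.succ_lt_succ j.2⟩, by
    intro h
    have h1 : j.1 + 1 = 0 := congrArg Fin.val h
    omega⟩
  invFun i := ⟨i.1.1 - 1, by
    have h1 := i.1.2
    have h2 : i.1.1 ≠ 0 := fun h => i.2 (Fin.ext h)
    have h3 : (p :: L).length = L.length + 1 := rfl
    omega⟩
  left_inv j := by
    apply Fin.ext
    show j.1 + 1 - 1 = j.1
    omega
  right_inv i := by
    apply Subtype.ext
    apply Fin.ext
    have h2 : i.1.1 ≠ 0 := fun h => i.2 (Fin.ext h)
    show i.1.1 - 1 + 1 = i.1.1
    omega

lemma get_tail (p : ℝ × ℝ) (L : List (ℝ × ℝ)) (j : Fin L.length) :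
    (p :: L).get (tailEquiv p L j).1 = L.get j := rfl

/-- The tail, all in terms of a list `p :: L`. -/
lemma main (hP : P_SR) (hR : Stmt_REL) (p : ℝ × ℝ) (L : List (ℝ × ℝ)) (hn : Nd (p :: L))
    (hl : 2 ≤ L.length)
    (ha : (∀ d ∈ (p :: L).map Prod.fst,
        ¬ cyc p.1 d (L.get ⟨0, by omega⟩).1) ∧
          cyc p.2 (L.get ⟨0, by omega⟩).2 (L.get ⟨L.length - 1, by omega⟩).2 ∨
      (∀ d ∈ (p :: L).map Prod.fst,
        ¬ cyc (L.get ⟨0, by omega⟩).1 d p.1) ∧
          cyc (L.get ⟨L.length - 1, by omega⟩).2 (L.get ⟨0, by omega⟩).2 p.2) :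
    Inv (p :: L) L := by
  have hlen : (p :: L).length = L.length + 1 := rfl
  have hgd := gd_list (p :: L) hn (by omega)
  let l : Fin (p :: L).length := ⟨0, Nat.succ_pos _⟩
  let k : Fin (p :: L).length := ⟨1, by omega⟩
  let n : Fin (p :: L).length := ⟨L.length, by omega⟩
  have hnl : nx (p :: L) l = k := by
    apply Fin.ext
    rcases nx_val (p :: L) l with ⟨h1, -⟩ | ⟨-, h2⟩
    · exact h1
    · have : l.1 = 0 := rfl
      omega
  have hnn : nx (p :: L) n = l := by
    apply Fin.ext
    rcases nx_val (p :: L) n with ⟨-, h2⟩ | ⟨h1, -⟩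
    · have : n.1 = L.length := rfl
      omega
    · exact h1
  have hlk : l ≠ k := by
    intro h
    have : (0 : ℕ) = 1 := congrArg Fin.val h
    omega
  have hs : Srt (fun i : Fin (p :: L).length => ((p :: L).get i).1) (fun i => ((p :: L).get i).2)
      (fun i : Fin (p :: L).length => ((p :: L).get (nx (p :: L) i)).1)
      (fun i => ((p :: L).get i).2) l k l n := by
    refine ⟨hgd, hlk, ?_, rfl, ?_⟩
    · show ((p :: L).get (nx (p :: L) l)).1 = _
      rw [hnl]
    · show ((p :: L).get (nx (p :: L) n)).1 = _
      rw [hnn]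
  have gn : (p :: L).get n = L.get ⟨L.length - 1, by omega⟩ := by
    have h1 : n = (⟨L.length - 1 + 1, by omega⟩ : Fin (p :: L).length) := by
      apply Fin.ext
      show L.length = L.length - 1 + 1
      omega
    rw [h1]
    rfl
  have hmem : ∀ i : Fin (p :: L).length, ((p :: L).get i).1 ∈ (p :: L).map Prod.fst := by
    intro i
    exact List.mem_map.2 ⟨(p :: L).get i, List.get_mem _ _, rfl⟩
  have hcond : (∀ i : Fin (p :: L).length, ¬ cyc ((p :: L).get l).1 ((p :: L).get i).1
        ((p :: L).get k).1) ∧ cyc ((p :: L).get l).2 ((p :: L).get k).2 ((p :: L).get n).2 ∨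
      (∀ i : Fin (p :: L).length, ¬ cyc ((p :: L).get k).1 ((p :: L).get i).1
        ((p :: L).get l).1) ∧ cyc ((p :: L).get n).2 ((p :: L).get k).2 ((p :: L).get l).2 := by
    rw [gn]
    rcases ha with ⟨h1, h2⟩ | ⟨h1, h2⟩
    · exact Or.inl ⟨fun i => h1 _ (hmem i), h2⟩
    · exact Or.inr ⟨fun i => h1 _ (hmem i), h2⟩
  have h1 := hP _ _ ℝ ℝ _ _ _ _ l k l n hs hcond
  have h2 := rel_eq hR (fun i : Fin L.length => (L.get i).1) (fun i => (L.get i).2)
    (fun i : Fin L.length => (L.get (nx L i)).1) (fun i => (L.get i).2)
    (fun i : {i : Fin (p :: L).length // i ≠ l} => ((p :: L).get i).1)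
    (fun i : {i : Fin (p :: L).length // i ≠ l} => ((p :: L).get i).2)
    (fun n' : {n' : Fin (p :: L).length // n' ≠ l} =>
      if ((p :: L).get (nx (p :: L) n')).1 = ((p :: L).get l).1 then ((p :: L).get k).1 else
        ((p :: L).get (nx (p :: L) n')).1)
    (fun n' : {n' : Fin (p :: L).length // n' ≠ l} => ((p :: L).get n').2)
    (tailEquiv p L) (tailEquiv p L) (fun i => rfl) (fun i => rfl) (fun i => ?_) (fun i => rfl)
  · exact h1.trans h2.symm
  · show (L.get (nx L i)).1 = if ((p :: L).get (nx (p :: L) (tailEquiv p L i).1)).1 =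
      ((p :: L).get l).1 then ((p :: L).get k).1 else
        ((p :: L).get (nx (p :: L) (tailEquiv p L i).1)).1
    have hi := i.2
    have ht : (tailEquiv p L i).1.1 = i.1 + 1 := rfl
    rcases nx_val (p :: L) (tailEquiv p L i).1 with ⟨g1, g2⟩ | ⟨g1, g2⟩
    · have g3 : nx (p :: L) (tailEquiv p L i).1 ≠ l := by
        intro h
        have : (nx (p :: L) (tailEquiv p L i).1).1 = 0 := congrArg Fin.val h
        omega
      have g4 : ((p :: L).get (nx (p :: L) (tailEquiv p L i).1)).1 ≠ ((p :: L).get l).1 :=
        fun h => g3 (inj_fst hn.1 h)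
      rw [if_neg g4]
      have g5 : nx (p :: L) (tailEquiv p L i).1 = (tailEquiv p L (nx L i)).1 := by
        apply Fin.ext
        have ht' : (tailEquiv p L (nx L i)).1.1 = (nx L i).1 + 1 := rfl
        rcases nx_val L i with ⟨k1, k2⟩ | ⟨k1, k2⟩ <;> omega
      rw [g5, get_tail]
    · have g3 : nx (p :: L) (tailEquiv p L i).1 = l := Fin.ext g1
      rw [g3, if_pos rfl]
      have g5 : k = (tailEquiv p L (nx L i)).1 := by
        apply Fin.ext
        have ht' : (tailEquiv p L (nx L i)).1.1 = (nx L i).1 + 1 := rfl
        have hk : k.1 = 1 := rfl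
        rcases nx_val L i with ⟨k1, k2⟩ | ⟨k1, k2⟩ <;> omega
      rw [g5, get_tail]

end LSR

/-- LSR -/
theorem t_LSR : Stmt_LSR := by
  intro hP hR c₁ r₁ c₂ r₂ B z hn ha
  have hl : ((c₂, r₂) :: (B ++ [z])).length = B.length + 2 := by simp
  have hlast : ((c₂, r₂) :: (B ++ [z])).get ⟨((c₂, r₂) :: (B ++ [z])).length - 1, by omega⟩ = z := by
    rw [List.get_eq_getElem]
    simp
  apply LSR.main hP hR (c₁, r₁) ((c₂, r₂) :: (B ++ [z])) hn (by omega)
  rw [hlast]
  exact ha

end LG


end

section

/-!
# Module WT2: composites of two rectangles with the same vertical circles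
-/

set_option autoImplicit false

namespace LG

open Equiv Finset Function

namespace WT2

variable {ι M α β R : Type} [Fintype ι] [DecidableEq ι] [Fintype M] [LinearOrder α]
  [LinearOrder β] [CommRing R]

theorem prod_split (w : M → R) (A B C : M → Prop) [DecidablePred A] [DecidablePred B]
    [DecidablePred C] (h : ∀ m, C m ↔ (A m ∨ B m)) (h' : ∀ m, ¬ (A m ∧ B m)) :
    (∏ m, (if A m then w m else 1)) * ∏ m, (if B m then w m else 1) =
      ∏ m, (if C m then w m else 1) := by
  rw [← Finset.prod_mul_distrib]
  apply Finset.prod_congr rfl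
  intro m _
  by_cases hA : A m
  · have hB : ¬ B m := fun hB => h' m ⟨hA, hB⟩
    rw [if_pos hA, if_neg hB, if_pos ((h m).mpr (Or.inl hA)), mul_one]
  · rw [if_neg hA, one_mul]
    by_cases hB : B m
    · rw [if_pos hB, if_pos ((h m).mpr (Or.inr hB))]
    · rw [if_neg hB, if_neg]
      intro hC
      rcases (h m).mp hC with h1 | h1
      · exact hA h1
      · exact hB h1

omit [Fintype ι] in
theorem mul_swap_left (x : Perm ι) (i j : ι) : (x * swap i j) i = x j := by
  rw [Perm.mul_apply, swap_apply_left]

omit [Fintype ι] in
theorem mul_swap_right (x : Perm ι) (i j : ι) : (x * swap i j) j = x i := by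
  rw [Perm.mul_apply, swap_apply_right]

omit [Fintype ι] in
theorem mul_swap_ne (x : Perm ι) (i j k : ι) (h1 : k ≠ i) (h2 : k ≠ j) :
    (x * swap i j) k = x k := by
  rw [Perm.mul_apply, swap_apply_of_ne_of_ne h1 h2]

theorem col (G : MG ι M α β R) (_hu : Injective G.u) (hv : Injective G.v) (hc : ColZero G)
    (x : Perm ι) (i j : ι) : Wt G x i j * Wt G (x * swap i j) i j = 0 := by
  unfold Wt
  by_cases h1 : i ≠ j ∧ Emp G x i j
  · rw [if_pos h1]
    by_cases h2 : i ≠ j ∧ Emp G (x * swap i j) i j
    · rw [if_pos h2]
      obtain ⟨hij, e1⟩ := h1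
      obtain ⟨-, e2⟩ := h2
      have hxij : G.v (x i) ≠ G.v (x j) := fun h => hij (x.injective (hv h))
      have hk : ∀ k, ¬ cyc (G.u i) (G.u k) (G.u j) := by
        intro k hk
        have hki : k ≠ i := by
          rintro rfl
          exact (cyc_ne hk).1 rfl
        have hkj : k ≠ j := by
          rintro rfl
          exact (cyc_ne hk).2.1 rfl
        have a1 : G.v (x i) ≠ G.v (x k) := fun h => hki (x.injective (hv h)).symm
        have a2 : G.v (x k) ≠ G.v (x j) := fun h => hkj (x.injective (hv h))
        rcases cyc_total a1 a2 hxij with h | h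
        · exact e1 k ⟨hk, h⟩
        · refine e2 k ⟨hk, ?_⟩
          rw [mul_swap_left, mul_swap_right, mul_swap_ne x i j k hki hkj]
          exact cyc_rot.mp h
      rw [prod_split G.w (Ins G x i j) (Ins G (x * swap i j) i j)
        (fun m => ico (G.u i) (G.p m) (G.u j))]
      · exact hc i j hij hk
      · intro m
        unfold Ins
        rw [mul_swap_left, mul_swap_right]
        have h := ico_compl (x := G.q m) hxij
        by_cases hq : ico (G.v (x i)) (G.q m) (G.v (x j))
        · exact ⟨fun hp => Or.inl ⟨hp, hq⟩, fun hp => hp.elim (fun a => a.1) (fun a => a.1)⟩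
        · have hq' : ico (G.v (x j)) (G.q m) (G.v (x i)) := by
            by_contra hq'
            exact hq (h.mpr hq')
          exact ⟨fun hp => Or.inr ⟨hp, hq'⟩, fun hp => hp.elim (fun a => a.1) (fun a => a.1)⟩
      · intro m
        unfold Ins
        rw [mul_swap_left, mul_swap_right]
        rintro ⟨⟨-, h1⟩, -, h2⟩
        exact (ico_compl (x := G.q m) hxij).mp h1 h2
    · rw [if_neg h2, mul_zero]
  · rw [if_neg h1, zero_mul]

theorem row (G : MG ι M α β R) (hu : Injective G.u) (_hv : Injective G.v) (hr : RowZero G)
    (x : Perm ι) (i j : ι) : Wt G x i j * Wt G (x * swap i j) j i = 0 := by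
  unfold Wt
  by_cases h1 : i ≠ j ∧ Emp G x i j
  · rw [if_pos h1]
    by_cases h2 : j ≠ i ∧ Emp G (x * swap i j) j i
    · rw [if_pos h2]
      obtain ⟨hij, e1⟩ := h1
      obtain ⟨-, e2⟩ := h2
      have hxij : x i ≠ x j := fun h => hij (x.injective h)
      have huij : G.u i ≠ G.u j := fun h => hij (hu h)
      have hk : ∀ k, ¬ cyc (G.v (x i)) (G.v k) (G.v (x j)) := by
        intro k' hk
        obtain ⟨k, rfl⟩ := x.surjective k'
        have hki : k ≠ i := by
          rintro rfl
          exact (cyc_ne hk).1 rfl
        have hkj : k ≠ j := by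
          rintro rfl
          exact (cyc_ne hk).2.1 rfl
        have a1 : G.u i ≠ G.u k := fun h => hki (hu h).symm
        have a2 : G.u k ≠ G.u j := fun h => hkj (hu h)
        rcases cyc_total a1 a2 huij with h | h
        · exact e1 k ⟨h, hk⟩
        · refine e2 k ⟨cyc_rot.mp h, ?_⟩
          rw [mul_swap_left, mul_swap_right, mul_swap_ne x i j k hki hkj]
          exact hk
      rw [prod_split G.w (Ins G x i j) (Ins G (x * swap i j) j i)
        (fun m => ico (G.v (x i)) (G.q m) (G.v (x j)))]
      · exact hr (x i) (x j) hxij hk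
      · intro m
        unfold Ins
        rw [mul_swap_left, mul_swap_right]
        have h := ico_compl (x := G.p m) huij
        by_cases hq : ico (G.u i) (G.p m) (G.u j)
        · exact ⟨fun hp => Or.inl ⟨hq, hp⟩, fun hp => hp.elim (fun a => a.2) (fun a => a.2)⟩
        · have hq' : ico (G.u j) (G.p m) (G.u i) := by
            by_contra hq'
            exact hq (h.mpr hq')
          exact ⟨fun hp => Or.inr ⟨hq', hp⟩, fun hp => hp.elim (fun a => a.2) (fun a => a.2)⟩
      · intro m
        unfold Ins
        rw [mul_swap_left, mul_swap_right]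
        rintro ⟨⟨h1, -⟩, h2, -⟩
        exact (ico_compl (x := G.p m) huij).mp h1 h2
    · rw [if_neg h2, mul_zero]
  · rw [if_neg h1, zero_mul]

end WT2

/-- Module WT2. -/
theorem t_WT2 : Stmt_WT2 := by
  intro ι M α β R _ _ _ _ _ _ G hu hv hc hr x i j
  exact ⟨WT2.col G hu hv hc x i j, WT2.row G hu hv hr x i j⟩

end LG


end

section

/-!
# PH1: removal of one line
-/

namespace LH

open Set LG

namespace PH1

theorem ri1_turn {a s d : ℝ} {i j : It} (h : ri1 a s d j = some i) : j.k = i.k ∧ j.e = i.e := by
  obtain ⟨k, t, e⟩ := j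
  unfold ri1 at h
  by_cases hs : t = s
  · rw [if_pos hs] at h
    cases k
    · simp at h
    · simp at h
    · simp only [Option.some.injEq] at h
      rw [← h]
      exact ⟨rfl, rfl⟩
    · simp only [Option.some.injEq] at h
      rw [← h]
      exact ⟨rfl, rfl⟩
  · rw [if_neg hs] at h
    simp only [Option.some.injEq] at h
    rw [← h]
    exact ⟨rfl, rfl⟩

theorem yx_riv {N : ℕ} (P : Pg N) (a s d : ℝ) (X : Finset ℝ) (w : List It) (h : YX P X w) :
    YX P X (riv a s d w) := by
  intro a' b' hab i hi hk h1 h2
  unfold riv at hi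
  rw [List.mem_filterMap] at hi
  obtain ⟨j, hj, hji⟩ := hi
  obtain ⟨hk', he'⟩ := ri1_turn hji
  have := h a' b' hab j hj (by rw [hk']; exact hk) (by rw [he']; exact h1) (by rw [he']; exact h2)
  rw [he'] at this
  exact this

end PH1

theorem t_PH1 : Stmt_PH1 := by
  intro _ hT hR hE hL N P a b s d X Y w W hS hG hX hXY hs hYX hCW
  have hsY : s ∈ Y := hS.l.2.1
  have hEW : EW P (Y.erase s) (riv a s d w) := hE P a b s d Y w W hS (hG s hsY).1
  have hXE : X ⊆ Y.erase s := by
    intro t ht
    rw [Finset.mem_erase]
    refine ⟨?_, hXY ht⟩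
    intro h
    rw [h] at ht
    exact hs ht
  have hlen := hL P X (Y.erase s) (riv a s d w) hX hXE hEW
  obtain ⟨el, er, hrem, heq⟩ := hR P a b s d Y w W hS hG hCW hlen
  obtain ⟨h1, h2⟩ := hT (w.map (pt P)) a s d el er hrem
  rw [heq] at h1 h2
  exact ⟨riv a s d w, hEW, PH1.yx_riv P a s d X w hYX, h2, h1⟩

end LH


end

section

/-!
# STD: the dichotomy for items of different components
-/

namespace LH

open Set LG

namespace STD

/-- Minimum and maximum of the slopes of a component. -/
theorem bnd {N : ℕ} (P : Pg N) (p q : ℤ) (hpq : p ≤ q) :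
    ∃ i ∈ Icc p q, ∃ j ∈ Icc p q, ∀ k, p ≤ k → k ≤ q → P.y i ≤ P.y k ∧ P.y k ≤ P.y j := by
  have hne : (Finset.Icc p q).Nonempty := ⟨p, Finset.mem_Icc.mpr ⟨le_refl p, hpq⟩⟩
  obtain ⟨i, hi, hi'⟩ := Finset.exists_min_image (Finset.Icc p q) P.y hne
  obtain ⟨j, hj, hj'⟩ := Finset.exists_max_image (Finset.Icc p q) P.y hne
  exact ⟨i, Finset.mem_Icc.mp hi, j, Finset.mem_Icc.mp hj, fun k h1 h2 =>
    ⟨hi' k (Finset.mem_Icc.mpr ⟨h1, h2⟩), hj' k (Finset.mem_Icc.mpr ⟨h1, h2⟩)⟩⟩

end STD

open _root_.LH.STD in
theorem t_STD : Stmt_STD := by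
  intro hG hC hS hI N P a b s d Y w W hsit n n' p q p' q' hn hn' hc hp hq hc' hp' hq' hne hle
  have hN : 0 < N := hS.pos P Y w (hS.ew P Y w W hsit.sq)
  obtain ⟨p1, q1, hc1, hp1, hq1, hK, hR, hB⟩ := hI P a b s d Y w W hsit n hn
  obtain ⟨rfl, rfl⟩ := hC.un P a b p1 q1 p q (W n).e hc1 hc hp1 hq1 hp hq
  obtain ⟨p2, q2, hc2, hp2, hq2, hK', hR', hB'⟩ := hI P a b s d Y w W hsit n' hn'
  obtain ⟨rfl, rfl⟩ := hC.un P a b p2 q2 p' q' (W n').e hc2 hc' hp2 hq2 hp' hq'
  have has : a < s := hsit.l.2.2.1
  have hsd : s < d := hsit.r.2.2.1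
  have hdb : d ≤ b := hsit.db
  rcases hC.sep P a b p1 q1 p2 q2 hN hsit.gd hc hc' with ⟨k, hk, _⟩ | ⟨hA, hB2⟩
  · exact absurd ⟨k, hk⟩ hne
  rcases hA with hA | hA
  · left
    intro x hx y hy
    obtain ⟨e', he1, he2, rfl⟩ := hK' x hx
    obtain ⟨e, he3, he4, rfl⟩ := hK y hy
    exact hA e ⟨he3, he4⟩ e' ⟨he1, he2⟩
  rcases hB2 with hB2 | hB2
  · right
    intro x hx y hy
    obtain ⟨i0, _, i, hi, hiM⟩ := bnd P p1 q1 hc.le
    obtain ⟨j, hj, j0, _, hjm⟩ := bnd P p2 q2 hc'.le
    have h1 := (hB y hy (P.y i0) (P.y i) hiM).2
    have h2 := (hB' x hx (P.y j) (P.y j0) hjm).1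
    have h3 := hA i hi j hj
    have h4 := hB2 i hi j hj
    have h5 := hG.dt P i a b
    have h6 := hG.dt P j a b
    have h7 : 0 < (P.y j - P.y i) * (b - a) := by
      have h8 : (P.y j - P.y i) * (b - a) = P.y j * (b - a) - P.y i * (b - a) := by ring
      rw [h8, ← h5, ← h6]
      linarith
    have h9 : 0 < b - a := by linarith
    have h10 : 0 < P.y j - P.y i := by
      by_contra h11
      have h12 : P.y j - P.y i ≤ 0 := not_lt.mp h11
      have h13 := mul_nonpos_of_nonpos_of_nonneg h12 h9.le
      linarith
    have h14 : 0 < (P.y j - P.y i) * (d - s) := mul_pos h10 (by linarith)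
    have h15 : (P.y j - P.y i) * (d - s) = P.y j * (d - s) - P.y i * (d - s) := by ring
    rw [h15] at h14
    linarith
  · exfalso
    have h3 := hA (W n).e ⟨hp, hq⟩ (W n').e ⟨hp', hq'⟩
    have h4 := hB2 (W n).e ⟨hp, hq⟩ (W n').e ⟨hp', hq'⟩
    have h5 := hG.dt P (W n).e a s
    have h6 := hG.dt P (W n').e a s
    have h7 := hG.dt P (W n).e s b
    have h8 := hG.dt P (W n').e s b
    have h9 : 0 < s - a := by linarith
    have h10 : 0 < b - s := by linarith
    rcases le_total (P.y (W n').e) (P.y (W n).e) with h11 | h11
    · have h12 : P.y (W n').e * (s - a) ≤ P.y (W n).e * (s - a) :=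
        mul_le_mul_of_nonneg_right h11 h9.le
      linarith
    · have h12 : P.y (W n).e * (b - s) ≤ P.y (W n').e * (b - s) :=
        mul_le_mul_of_nonneg_right h11 h10.le
      linarith

end LH


end

section

/-!
# Removal of all zigzags
-/

namespace LH

open Set LG

namespace ZAL

theorem aux (hW : P_WEB) (hC : P_CWA) (hZ : P_ZRM) {N : ℕ} (P : Pg N) (X : Finset ℝ)
    (hX : GoodX P X) (n : ℕ) : ∀ w : List It, w.length ≤ n → EW P X w → YX P X w →
    CW (w.map (pt P)) → ∃ w', GW P X w' ∧ WE (lst P w) (lst P w') := by
  induction n with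
  | zero =>
    intro w hn he _ _
    obtain ⟨i, w', rfl, _⟩ := he
    simp at hn
  | succ n ih =>
    intro w hn he hy hc
    by_cases hg : GW P X w
    · exact ⟨w, hg, hW.refl _ (hC.alt _ hc) hc.nd⟩
    · obtain ⟨w₁, hl, he₁, hy₁, hc₁, hw₁⟩ := hZ P X w hX he hy hc hg
      obtain ⟨w₂, hg₂, hw₂⟩ := ih w₁ (by omega) he₁ hy₁ hc₁
      exact ⟨w₂, hg₂, hW.trans _ _ _ hw₁ hw₂⟩

end ZAL

theorem t_ZAL : Stmt_ZAL := by
  intro hW hC hZ N P X w hX he hy hc
  exact ZAL.aux hW hC hZ P X hX w.length w le_rfl he hy hc

end LH


end

section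

namespace LHS

open Set LH LC Filter
open scoped ContDiff Topology

namespace FIN

theorem rv_symm {Λ Λ' : LegKnot} (h : Rv Λ Λ') : Rv Λ' Λ := by
  intro u
  have := h (-u)
  rw [neg_neg] at this
  exact this.symm

/-- three arrows -/
theorem chain (hPEX : Stmt_PEX) (hFPE : P_FPE) {Λ A B Λ₁ : LegKnot} (h1 : FP Λ A) (h2 : FP A B)
    (h3 : FP B Λ₁) : ∃ N₀ : ℕ, ∀ N ≥ N₀, ∃ P P₁ : Pg N, IsPN Λ N P ∧ IsPN Λ₁ N P₁ ∧
      Relation.TransGen EPath P P₁ := by
  obtain ⟨n1, h1⟩ := hFPE _ _ h1
  obtain ⟨n2, h2⟩ := hFPE _ _ h2
  obtain ⟨n3, h3⟩ := hFPE _ _ h3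
  refine ⟨n1 + n2 + n3 + 1, fun N hN => ?_⟩
  obtain ⟨P, hP⟩ := hPEX Λ N (by omega)
  obtain ⟨PA, hPA⟩ := hPEX A N (by omega)
  obtain ⟨PB, hPB⟩ := hPEX B N (by omega)
  obtain ⟨P₁, hP₁⟩ := hPEX Λ₁ N (by omega)
  refine ⟨P, P₁, hP, hP₁, ?_⟩
  exact Relation.TransGen.tail (Relation.TransGen.tail (Relation.TransGen.single
    (h1 N (by omega) _ _ hP hPA)) (h2 N (by omega) _ _ hPA hPB)) (h3 N (by omega) _ _ hPB hP₁)

end FIN

open _root_.LHS.FIN in
theorem t_FIN : Stmt_FIN := by
  intro hRVX hRVS hRVF hPSF hCAR hPEX hFPE Λ Λ' Λ'' hiso hst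
  obtain ⟨H, hH, h0, h1⟩ := hiso
  have hAB : FP (H 0) (H 1) := ⟨H, hH, rfl, rfl⟩
  have hA := hCAR Λ (H 0) h0.symm
  have hB := hCAR Λ' (H 1) h1.symm
  obtain ⟨Λr, hΛr⟩ := hRVX Λ
  obtain ⟨Λ'r, hΛ'r⟩ := hRVX Λ'
  obtain ⟨Λ''r, hΛ''r⟩ := hRVX Λ''
  obtain ⟨Ar, hAr⟩ := hRVX (H 0)
  obtain ⟨Br, hBr⟩ := hRVX (H 1)
  have hst' : IsStabilization Λ'r Λ''r := hRVS _ _ _ _ hst hΛ'r hΛ''r
  have hABr : FP Ar Br := hRVF _ _ _ _ hAB hAr hBr
  rcases hA with hA | hA
  · have h1 : FP Λ (H 0) := (hPSF _ _ hA).1
    rcases hB with hB | hB
    · exact ⟨Λ', Λ'', hst, chain hPEX hFPE h1 hAB (hPSF _ _ hB).2⟩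
    · exact ⟨Λ'r, Λ''r, hst', chain hPEX hFPE h1 hAB (hPSF _ _ (hB _ hΛ'r)).2⟩
  · have h1 : FP Λ Ar := hRVF _ _ _ _ (hPSF _ _ (hA _ hΛr)).1 (rv_symm hΛr) hAr
    rcases hB with hB | hB
    · exact ⟨Λ'r, Λ''r, hst', chain hPEX hFPE h1 hABr
        (hRVF _ _ _ _ (hPSF _ _ hB).2 hBr hΛ'r)⟩
    · exact ⟨Λ', Λ'', hst, chain hPEX hFPE h1 hABr
        (hRVF _ _ _ _ (hPSF _ _ (hB _ hΛ'r)).2 hBr (rv_symm hΛ'r))⟩

end LHS


end

section

/-!
# Part A, module DTH: the maximum completes the cap
-/

namespace LCA

open Set Filter
open scoped ContDiff Topology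

namespace DTH

theorem down_mono {J J' : Set ℝ} {A : Set E5} (h : Down J A) (hJ : J' ⊆ J) : Down J' A :=
  fun q hq hqJ c hc hcq => h q hq (hJ hqJ) c (hJ hc) hcq

theorem lin_lin {n : ℕ} (Q V : St n) (s₀ t : ℝ) : lin (lin Q V s₀ t) V t = lin Q V s₀ := by
  funext s
  unfold lin
  rw [add_assoc, ← add_smul]
  congr 2
  ring

/-- A surface over `(0, d)` which is empty for times larger than `M < d` may be cut at `d`. -/
theorem cut {B : Set E5} {d M : ℝ} (hM : M < d) (hG : Good (Ioo 0 d) B)
    (hD : Down (Ioo 0 d) B) (hB : ∀ q ∈ B, q.1 ∈ Ioo 0 d → q.1 ≤ M)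
    (hCNG : Stmt_CNG) :
    Good (Ioi 0) {q ∈ B | q.1 < d} ∧ Down (Ioi 0) {q ∈ B | q.1 < d} ∧
      ∀ q ∈ {q ∈ B | q.1 < d}, 0 < q.1 → q.1 ≤ M := by
  have hAg : Agree (Ioo 0 d) B {q ∈ B | q.1 < d} := fun q hq =>
    ⟨fun h => ⟨h, hq.2⟩, fun h => h.1⟩
  obtain ⟨h1, h2, -⟩ := hCNG (Ioo 0 d) B {q ∈ B | q.1 < d} isOpen_Ioo ordConnected_Ioo hAg
  have hG' := h1 hG
  have hD' := h2 hD
  have hle : ∀ q ∈ {q ∈ B | q.1 < d}, 0 < q.1 → q.1 ≤ M := fun q hq h0 =>
    hB q hq.1 ⟨h0, hq.2⟩
  have hI : ∀ q ∈ {q ∈ B | q.1 < d}, q.1 ∈ Ioi (0 : ℝ) → q.1 ∈ Ioo 0 d := fun q hq h0 =>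
    ⟨h0, hq.2⟩
  refine ⟨⟨?_, ?_, ?_, ?_⟩, ?_, hle⟩
  · intro q hq h0
    have h3 : q.1 ≤ M := by
      by_contra hlt
      push Not at hlt
      have ho : IsOpen {r : E5 | 0 < r.1 ∧ M < r.1} :=
        (isOpen_lt continuous_const continuous_fst).inter
          (isOpen_lt continuous_const continuous_fst)
      obtain ⟨r, hr, hrA⟩ := mem_closure_iff.1 hq _ ho ⟨h0, hlt⟩
      exact absurd (hle r hrA hr.1) (not_le.2 hr.2)
    exact hG'.closed q hq ⟨h0, lt_of_le_of_lt h3 hM⟩
  · intro K hK hKc
    have hKc' : IsCompact (K ∩ Iic M) := hKc.inter_right isClosed_Iic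
    obtain ⟨C, hC⟩ := hG'.bounded (K ∩ Iic M)
      (fun x hx => ⟨hK hx.1, lt_of_le_of_lt hx.2 hM⟩) hKc'
    exact ⟨C, fun q hq hqK => hC q hq ⟨hqK, hle q hq (hK hqK)⟩⟩
  · intro q hq h0
    exact hG'.chart q hq (hI q hq h0)
  · intro q hq q' hq' h0
    exact hG'.inj q hq q' hq' (hI q hq h0)
  · intro q hq h0 c hc hcq
    exact hD' q hq (hI q hq h0) c ⟨hc, lt_of_le_of_lt hcq hq.2⟩ hcq

end DTH

theorem t_DTH (hDTA : Stmt_DTA) (hDTG : Stmt_DTG) (hGLU : Stmt_GLU) (hCNG : Stmt_CNG)
    (hRST : Stmt_RST) : Stmt_DTH := by
  intro K sh c w lt rt pa pb H₁ H₂ H₃ H₄ E Q V t hDe ht hAt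
  obtain ⟨ht0, ε, hε, hεt, A, e₀, he₀, he₀t, hG, hD, hAg0, hAgt⟩ := hAt
  rw [DTH.lin_lin] at hAgt
  have hAN := hDTA sh c w lt rt pa pb H₁ H₂ H₃ H₄ E Q V hDe
  have hv := hDe.pos.v
  have hr := hDe.pos.r
  have hrv : 0 < E.r / E.v := div_pos hr hv
  have h8 : 8 * E.r / E.v = 8 * (E.r / E.v) := by ring
  obtain ⟨t₁, ht₁⟩ : ∃ t₁, t₁ = E.s₀ - 8 * E.r / E.v := ⟨_, rfl⟩
  rw [← ht₁] at ht hAN
  obtain ⟨δ, hδ⟩ : ∃ δ, δ = min ε ((t₁ - t) / 2) := ⟨_, rfl⟩
  have hδ0 : 0 < δ := by
    rw [hδ]
    exact lt_min hε (by linarith)
  have hδε : δ ≤ ε := hδ ▸ min_le_left _ _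
  have hδt : δ ≤ (t₁ - t) / 2 := hδ ▸ min_le_right _ _
  have hAg : Agree (Ioo (t - δ) (t + δ)) A (E.set sh (-1) (-1)) := by
    intro q hq
    have h1 : q.1 ∈ Ioo (t - ε) (t + ε) := ⟨by linarith [hq.1], by linarith [hq.2]⟩
    have h2 : q.1 ∈ Iio t₁ := by
      change q.1 < t₁
      linarith [hq.2]
    exact (hAgt q h1).trans (hAN q h2).symm
  have hJ : Ioo 0 (t + δ) ⊆ Ioo 0 (t + ε) := Ioo_subset_Ioo le_rfl (by linarith)
  obtain ⟨M, hM⟩ : ∃ M, M = E.s₀ + E.r / E.v := ⟨_, rfl⟩
  have htM : t + δ < M := by linarith
  obtain ⟨hNG, hND, hNle⟩ := hDTG sh E (Ioo (t - δ) (M + 1)) hDe.pos isOpen_Ioo ordConnected_Ioo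
  rw [← hM] at hNle
  obtain ⟨B, hBG, hBD, hBA, hBN⟩ := hGLU 0 (t + δ) (t - δ) (M + 1) A (E.set sh (-1) (-1))
    (by linarith) (by linarith) (by linarith)
    (hRST _ _ A isOpen_Ioo hJ hG) (DTH.down_mono hD hJ) hNG hND hAg
  have hBle : ∀ q ∈ B, q.1 ∈ Ioo 0 (M + 1) → q.1 ≤ M := by
    intro q hq hqI
    by_contra hlt
    push Not at hlt
    exact absurd (hNle q ((hBN q ⟨by linarith, hqI.2⟩).1 hq)) (not_le.2 hlt)
  obtain ⟨hFG, hFD, hFle⟩ := DTH.cut (M := M) (d := M + 1) (by linarith) hBG hBD
    hBle hCNG
  refine ⟨{q ∈ B | q.1 < M + 1}, hFG, hFD, ⟨e₀, he₀, ?_⟩, M, hFle⟩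
  intro q hq
  have h1 : q.1 ∈ Ioo 0 (t + δ) := ⟨hq.1, by linarith [hq.2]⟩
  have h2 : q.1 < M + 1 := by linarith [hq.2]
  rw [← hAg0 q hq, ← hBA q h1]
  exact ⟨fun h => h.1, fun h => ⟨h, h2⟩⟩

end LCA


end

section

set_option maxRecDepth 100000

namespace LCA.CapJ

open LCA

def S175 : SD where
  vs := [
    ⟨nat_lit 0, nat_lit 8, nat_lit 0, (.ofNat (nat_lit 8)), (.ofNat (nat_lit 38334173440)), (.ofNat (nat_lit 2736557321867310969426859927321344)), (.negSucc (nat_lit 18195397375)), (.ofNat (nat_lit 217546277824107551688369189378560)), (.ofNat (nat_lit 38334173424)), (.ofNat (nat_lit 38334173456)), (.negSucc (nat_lit 11955082354638590192493)), (.ofNat (nat_lit 11955082354638590192494)), (.negSucc (nat_lit 11955082354638590192493)), (.ofNat (nat_lit 11955082354638590192494)), (.ofNat (nat_lit 0))⟩,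
    ⟨nat_lit 1, nat_lit 0, nat_lit 1, (.ofNat (nat_lit 8)), (.ofNat (nat_lit 86369514112)), (.ofNat (nat_lit 3310823775534191568761107274637312)), (.negSucc (nat_lit 18195135231)), (.ofNat (nat_lit 217549411777216326066956610525696)), (.ofNat (nat_lit 86369514096)), (.ofNat (nat_lit 86369514128)), (.ofNat (nat_lit 11955082354638590192494)), (.negSucc (nat_lit 11955082354638590192493)), (.negSucc (nat_lit 11955082354638590192493)), (.ofNat (nat_lit 11955082354638590192494)), (.ofNat (nat_lit 0))⟩,
    ⟨nat_lit 0, nat_lit 2, nat_lit 1, (.ofNat (nat_lit 8)), (.ofNat (nat_lit 68058495808)), (.ofNat (nat_lit 3529733507355806213080619792047488)), (.negSucc (nat_lit 18195397375)), (.ofNat (nat_lit 217552545730325100445544031672832)), (.ofNat (nat_lit 68058495792)), (.ofNat (nat_lit 68058495824)), (.ofNat (nat_lit 11955082354638590192494)), (.negSucc (nat_lit 11955082354638590192493)), (.negSucc (nat_lit 11955082354638590192493)), (.ofNat (nat_lit 11955082354638590192494)), (.ofNat (nat_lit 0))⟩,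
    ⟨nat_lit 2, nat_lit 3, nat_lit 2, (.ofNat (nat_lit 8)), (.negSucc (nat_lit 65408061311)), (.ofNat (nat_lit 1934129825396130718197847545790208)), (.negSucc (nat_lit 18196183807)), (.ofNat (nat_lit 217543143870998777309781768231424)), (.negSucc (nat_lit 65408061327)), (.negSucc (nat_lit 65408061295)), (.negSucc (nat_lit 11955082354638590192493)), (.ofNat (nat_lit 11955082354638590192494)), (.negSucc (nat_lit 11955082354638590192493)), (.ofNat (nat_lit 11955082354638590192494)), (.ofNat (nat_lit 0))⟩,
    ⟨nat_lit 1, nat_lit 4, nat_lit 3, (.ofNat (nat_lit 8)), (.ofNat (nat_lit 10944364736)), (.ofNat (nat_lit 1021330284015838050758471326106496)), (.ofNat (nat_lit 0)), (.ofNat (nat_lit 6267906217548757174842294272)), (.ofNat (nat_lit 10944364720)), (.ofNat (nat_lit 10944364752)), (.ofNat (nat_lit 11955082354638590192494)), (.negSucc (nat_lit 11955082354638590192493)), (.negSucc (nat_lit 11955082354638590192493)), (.ofNat (nat_lit 11955082354638590192494)), (.ofNat (nat_lit 0))⟩,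
    ⟨nat_lit 0, nat_lit 9, nat_lit 5, (.ofNat (nat_lit 8)), (.negSucc (nat_lit 1506430975)), (.ofNat (nat_lit 18717778251991057717960398907648)), (.ofNat (nat_lit 0)), (.ofNat (nat_lit 0)), (.negSucc (nat_lit 1506430991)), (.negSucc (nat_lit 1506430959)), (.negSucc (nat_lit 11955082354638590192493)), (.ofNat (nat_lit 11955082354638590192494)), (.negSucc (nat_lit 11955082354638590192493)), (.ofNat (nat_lit 11955082354638590192494)), (.ofNat (nat_lit 0))⟩,
    ⟨nat_lit 1, nat_lit 5, nat_lit 6, (.ofNat (nat_lit 8)), (.ofNat (nat_lit 91914030912)), (.ofNat (nat_lit 1135567093731406772809896709576320)), (.ofNat (nat_lit 524288)), (.ofNat (nat_lit 6267906217548757174842294272)), (.ofNat (nat_lit 91914030896)), (.ofNat (nat_lit 91914030928)), (.ofNat (nat_lit 11955082354638590192494)), (.negSucc (nat_lit 11955082354638590192493)), (.negSucc (nat_lit 11955082354638590192493)), (.ofNat (nat_lit 11955082354638590192494)), (.ofNat (nat_lit 0))⟩,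
    ⟨nat_lit 2, nat_lit 6, nat_lit 7, (.ofNat (nat_lit 8)), (.negSucc (nat_lit 1834459135)), (.ofNat (nat_lit 2256338012878263052107670872876032)), (.ofNat (nat_lit 0)), (.ofNat (nat_lit 12535812435097514349684588544)), (.negSucc (nat_lit 1834459151)), (.negSucc (nat_lit 1834459119)), (.negSucc (nat_lit 11955082354638590192493)), (.ofNat (nat_lit 11955082354638590192494)), (.negSucc (nat_lit 11955082354638590192493)), (.ofNat (nat_lit 11955082354638590192494)), (.ofNat (nat_lit 0))⟩,
    ⟨nat_lit 0, nat_lit 7, nat_lit 8, (.ofNat (nat_lit 8)), (.ofNat (nat_lit 38334173376)), (.ofNat (nat_lit 2736557322632436240123729699640960)), (.ofNat (nat_lit 262144)), (.ofNat (nat_lit 15669765543871892937105735680)), (.ofNat (nat_lit 38334173360)), (.ofNat (nat_lit 38334173392)), (.ofNat (nat_lit 11955082354638590192494)), (.negSucc (nat_lit 11955082354638590192493)), (.negSucc (nat_lit 11955082354638590192493)), (.ofNat (nat_lit 11955082354638590192494)), (.ofNat (nat_lit 0))⟩,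
    ⟨nat_lit 2, nat_lit 9, nat_lit 4, (.ofNat (nat_lit 8)), (.negSucc (nat_lit 37213513215)), (.ofNat (nat_lit 445598887075044043199001087614208)), (.negSucc (nat_lit 262143)), (.ofNat (nat_lit 3133953108774378587421147136)), (.negSucc (nat_lit 37213513231)), (.negSucc (nat_lit 37213513199)), (.negSucc (nat_lit 11955082354638590192493)), (.ofNat (nat_lit 11955082354638590192494)), (.negSucc (nat_lit 11955082354638590192493)), (.ofNat (nat_lit 11955082354638590192494)), (.ofNat (nat_lit 0))⟩]
  es := [
    ⟨nat_lit 0, nat_lit 1, (.ofNat (nat_lit 38334173440)), (.ofNat (nat_lit 86369514112)), (.ofNat (nat_lit 38334173456)), (.ofNat (nat_lit 86369514096)), (.ofNat (nat_lit 11955082354638590192494)), (.ofNat (nat_lit 0)), (.ofNat (nat_lit 435073751929562457105213851874304))⟩,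
    ⟨nat_lit 2, nat_lit 1, (.ofNat (nat_lit 68058495808)), (.ofNat (nat_lit 86369514112)), (.ofNat (nat_lit 68058495824)), (.ofNat (nat_lit 86369514096)), (.negSucc (nat_lit 11955082354638590192493)), (.ofNat (nat_lit 0)), (.ofNat (nat_lit 25071624870195028699369177088))⟩,
    ⟨nat_lit 3, nat_lit 2, (.negSucc (nat_lit 65408061311)), (.ofNat (nat_lit 68058495808)), (.negSucc (nat_lit 65408061295)), (.ofNat (nat_lit 68058495792)), (.ofNat (nat_lit 11955082354638590192494)), (.ofNat (nat_lit 0)), (.ofNat (nat_lit 435080019835780005862388694168576))⟩,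
    ⟨nat_lit 3, nat_lit 4, (.negSucc (nat_lit 65408061311)), (.ofNat (nat_lit 10944364736)), (.negSucc (nat_lit 65408061295)), (.ofNat (nat_lit 10944364720)), (.negSucc (nat_lit 11955082354638590192493)), (.ofNat (nat_lit 0)), (.ofNat (nat_lit 6267906217548757174842294272))⟩,
    ⟨nat_lit 9, nat_lit 4, (.negSucc (nat_lit 37213513215)), (.ofNat (nat_lit 10944364736)), (.negSucc (nat_lit 37213513199)), (.ofNat (nat_lit 10944364720)), (.ofNat (nat_lit 11955082354638590192494)), (.ofNat (nat_lit 0)), (.ofNat (nat_lit 6267906217548757174842294272))⟩,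
    ⟨nat_lit 5, nat_lit 6, (.negSucc (nat_lit 1506430975)), (.ofNat (nat_lit 91914030912)), (.negSucc (nat_lit 1506430959)), (.ofNat (nat_lit 91914030896)), (.ofNat (nat_lit 11955082354638590192494)), (.ofNat (nat_lit 0)), (.ofNat (nat_lit 0))⟩,
    ⟨nat_lit 7, nat_lit 6, (.negSucc (nat_lit 1834459135)), (.ofNat (nat_lit 91914030912)), (.negSucc (nat_lit 1834459119)), (.ofNat (nat_lit 91914030896)), (.negSucc (nat_lit 11955082354638590192493)), (.ofNat (nat_lit 0)), (.ofNat (nat_lit 12535812435097514349684588544))⟩,
    ⟨nat_lit 7, nat_lit 8, (.negSucc (nat_lit 1834459135)), (.ofNat (nat_lit 38334173376)), (.negSucc (nat_lit 1834459119)), (.ofNat (nat_lit 38334173360)), (.ofNat (nat_lit 11955082354638590192494)), (.ofNat (nat_lit 0)), (.ofNat (nat_lit 12535812435097514349684588544))⟩,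
    ⟨nat_lit 8, nat_lit 0, (.ofNat (nat_lit 38334173376)), (.ofNat (nat_lit 38334173440)), (.ofNat (nat_lit 38334173392)), (.ofNat (nat_lit 38334173424)), (.negSucc (nat_lit 11955082354638590192493)), (.ofNat (nat_lit 0)), (.ofNat (nat_lit 18803718652646271524526882816))⟩,
    ⟨nat_lit 9, nat_lit 5, (.negSucc (nat_lit 37213513215)), (.negSucc (nat_lit 1506430975)), (.negSucc (nat_lit 37213513199)), (.negSucc (nat_lit 1506430991)), (.negSucc (nat_lit 11955082354638590192493)), (.ofNat (nat_lit 0)), (.ofNat (nat_lit 0))⟩]

theorem ok175 : stOK 9 9 S175 = true := by decide +kernel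

def S176 : SD where
  vs := [
    ⟨nat_lit 0, nat_lit 8, nat_lit 0, (.ofNat (nat_lit 8)), (.ofNat (nat_lit 38334173440)), (.ofNat (nat_lit 2779319569489858037720523250381824)), (.ofNat (nat_lit 0)), (.ofNat (nat_lit 42762247622547068293663323060480)), (.ofNat (nat_lit 38334173424)), (.ofNat (nat_lit 38334173456)), (.ofNat (nat_lit 12141895841620596772188)), (.ofNat (nat_lit 12141895841620596772188)), (.ofNat (nat_lit 12141895841620596772188)), (.ofNat (nat_lit 12141895841620596772188)), (.ofNat (nat_lit 96014285811072734699340))⟩,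
    ⟨nat_lit 1, nat_lit 0, nat_lit 1, (.ofNat (nat_lit 8)), (.ofNat (nat_lit 86369514112)), (.ofNat (nat_lit 3362559672646043560244517405212160)), (.ofNat (nat_lit 0)), (.ofNat (nat_lit 51735897111851991483410130574848)), (.ofNat (nat_lit 86369514096)), (.ofNat (nat_lit 86369514128)), (.ofNat (nat_lit 12141895841620596772188)), (.negSucc (nat_lit 12141896679158030017115)), (.negSucc (nat_lit 12141896679158030017115)), (.ofNat (nat_lit 12141895841620596772188)), (.ofNat (nat_lit 1120882596966905968020))⟩,
    ⟨nat_lit 0, nat_lit 2, nat_lit 1, (.ofNat (nat_lit 8)), (.ofNat (nat_lit 68058495808)), (.ofNat (nat_lit 3584890164983383063196509914503424)), (.ofNat (nat_lit 0)), (.ofNat (nat_lit 55156657627576850115890122455936)), (.ofNat (nat_lit 68058495792)), (.ofNat (nat_lit 68058495824)), (.ofNat (nat_lit 12141896000192885164212)), (.negSucc (nat_lit 12141896679158030017115)), (.negSucc (nat_lit 12141896679158030017115)), (.ofNat (nat_lit 12141896000192885164212)), (.ofNat (nat_lit 1120883231256059536116))⟩,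
    ⟨nat_lit 2, nat_lit 3, nat_lit 2, (.ofNat (nat_lit 8)), (.negSucc (nat_lit 65408061311)), (.ofNat (nat_lit 1964353108928539824409608436713984)), (.ofNat (nat_lit 0)), (.ofNat (nat_lit 30223283532409106211760890923776)), (.negSucc (nat_lit 65408061327)), (.negSucc (nat_lit 65408061295)), (.negSucc (nat_lit 12141896000192885164211)), (.ofNat (nat_lit 12141896000192885164212)), (.negSucc (nat_lit 12141896000192885164211)), (.ofNat (nat_lit 12141896000192885164212)), (.ofNat (nat_lit 1120881873325769830308))⟩,
    ⟨nat_lit 1, nat_lit 4, nat_lit 3, (.ofNat (nat_lit 8)), (.ofNat (nat_lit 10944364736)), (.ofNat (nat_lit 1037289892491305566173355370519808)), (.ofNat (nat_lit 0)), (.ofNat (nat_lit 15959608475467515414884044413312)), (.ofNat (nat_lit 10944364720)), (.ofNat (nat_lit 10944364752)), (.ofNat (nat_lit 12141896000192885164212)), (.negSucc (nat_lit 12141896000192885164211)), (.negSucc (nat_lit 12141896000192885164211)), (.ofNat (nat_lit 12141896000192885164212)), (.ofNat (nat_lit 1120881873325769830308))⟩,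
    ⟨nat_lit 0, nat_lit 9, nat_lit 5, (.ofNat (nat_lit 8)), (.negSucc (nat_lit 1506430975)), (.ofNat (nat_lit 19010267779725227555088607471104)), (.ofNat (nat_lit 0)), (.ofNat (nat_lit 292489527734169837128208563456)), (.negSucc (nat_lit 1506430991)), (.negSucc (nat_lit 1506430959)), (.negSucc (nat_lit 12141896000192885164211)), (.ofNat (nat_lit 12141896000192885164212)), (.negSucc (nat_lit 12141896000192885164211)), (.ofNat (nat_lit 12141896000192885164212)), (.ofNat (nat_lit 1120881873325769830308))⟩,
    ⟨nat_lit 1, nat_lit 5, nat_lit 6, (.ofNat (nat_lit 8)), (.ofNat (nat_lit 91914030912)), (.ofNat (nat_lit 1153311800313804296687116375023360)), (.ofNat (nat_lit 0)), (.ofNat (nat_lit 17744706582397523877219665447040)), (.ofNat (nat_lit 91914030896)), (.ofNat (nat_lit 91914030928)), (.ofNat (nat_lit 12141896000192885164212)), (.negSucc (nat_lit 12141896000192885164211)), (.negSucc (nat_lit 12141896000192885164211)), (.ofNat (nat_lit 12141896000192885164212)), (.ofNat (nat_lit 1120881873325769830308))⟩,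
    ⟨nat_lit 2, nat_lit 6, nat_lit 7, (.ofNat (nat_lit 8)), (.negSucc (nat_lit 1834459135)), (.ofNat (nat_lit 2291596216651737997584651902785536)), (.ofNat (nat_lit 0)), (.ofNat (nat_lit 35258203773474945476981029909504)), (.negSucc (nat_lit 1834459151)), (.negSucc (nat_lit 1834459119)), (.negSucc (nat_lit 12141896000192885164211)), (.ofNat (nat_lit 12141895841620596772188)), (.negSucc (nat_lit 12141896000192885164211)), (.ofNat (nat_lit 12141895841620596772188)), (.ofNat (nat_lit 1120881556181193046260))⟩,
    ⟨nat_lit 0, nat_lit 7, nat_lit 8, (.ofNat (nat_lit 8)), (.ofNat (nat_lit 38334173376)), (.ofNat (nat_lit 2779319568712776703856805056961792)), (.ofNat (nat_lit 0)), (.ofNat (nat_lit 42762246080340463733075357320832)), (.ofNat (nat_lit 38334173360)), (.ofNat (nat_lit 38334173392)), (.ofNat (nat_lit 12141895841620596772188)), (.ofNat (nat_lit 12141895841620596772188)), (.ofNat (nat_lit 12141895841620596772188)), (.ofNat (nat_lit 12141895841620596772188)), (.ofNat (nat_lit 48193956392518373929364))⟩,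
    ⟨nat_lit 2, nat_lit 9, nat_lit 4, (.ofNat (nat_lit 8)), (.negSucc (nat_lit 37213513215)), (.ofNat (nat_lit 452561946808139633976482396265984)), (.ofNat (nat_lit 0)), (.ofNat (nat_lit 6963059733095590777481308651776)), (.negSucc (nat_lit 37213513231)), (.negSucc (nat_lit 37213513199)), (.negSucc (nat_lit 12141896000192885164211)), (.ofNat (nat_lit 12141896000192885164212)), (.negSucc (nat_lit 12141896000192885164211)), (.ofNat (nat_lit 12141896000192885164212)), (.ofNat (nat_lit 1120881873325769830308))⟩]
  es := [
    ⟨nat_lit 0, nat_lit 1, (.ofNat (nat_lit 38334173440)), (.ofNat (nat_lit 86369514112)), (.ofNat (nat_lit 38334173456)), (.ofNat (nat_lit 86369514096)), (.ofNat (nat_lit 12141895841620596772188)), (.ofNat (nat_lit 186813486982006579694)), (.ofNat (nat_lit 35600907011647645908452344933120))⟩,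
    ⟨nat_lit 2, nat_lit 1, (.ofNat (nat_lit 68058495808)), (.ofNat (nat_lit 86369514112)), (.ofNat (nat_lit 68058495824)), (.ofNat (nat_lit 86369514096)), (.negSucc (nat_lit 12141896679158030017115)), (.negSucc (nat_lit 186814324519439824621)), (.ofNat (nat_lit 67870959549757497034434764640512))⟩,
    ⟨nat_lit 3, nat_lit 2, (.negSucc (nat_lit 65408061311)), (.ofNat (nat_lit 68058495808)), (.negSucc (nat_lit 65408061295)), (.ofNat (nat_lit 68058495792)), (.ofNat (nat_lit 12141896000192885164212)), (.ofNat (nat_lit 186813645554294971718)), (.ofNat (nat_lit 42442401914742667946825140897792))⟩,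
    ⟨nat_lit 3, nat_lit 4, (.negSucc (nat_lit 65408061311)), (.ofNat (nat_lit 10944364736)), (.negSucc (nat_lit 65408061295)), (.ofNat (nat_lit 10944364720)), (.negSucc (nat_lit 12141896000192885164211)), (.negSucc (nat_lit 186813645554294971717)), (.ofNat (nat_lit 18004165150075544476696640949760))⟩,
    ⟨nat_lit 9, nat_lit 4, (.negSucc (nat_lit 37213513215)), (.ofNat (nat_lit 10944364736)), (.negSucc (nat_lit 37213513199)), (.ofNat (nat_lit 10944364720)), (.ofNat (nat_lit 12141896000192885164212)), (.ofNat (nat_lit 186813645554294971718)), (.ofNat (nat_lit 13915051800859486353071447876864))⟩,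
    ⟨nat_lit 5, nat_lit 6, (.negSucc (nat_lit 1506430975)), (.ofNat (nat_lit 91914030912)), (.negSucc (nat_lit 1506430959)), (.ofNat (nat_lit 91914030896)), (.ofNat (nat_lit 12141896000192885164212)), (.ofNat (nat_lit 186813645554294971718)), (.ofNat (nat_lit 573911390136644472365247700224))⟩,
    ⟨nat_lit 7, nat_lit 6, (.negSucc (nat_lit 1834459135)), (.ofNat (nat_lit 91914030912)), (.negSucc (nat_lit 1834459119)), (.ofNat (nat_lit 91914030896)), (.negSucc (nat_lit 12141896000192885164211)), (.negSucc (nat_lit 186813645554294971717)), (.ofNat (nat_lit 34915501774658403282074083193856))⟩,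
    ⟨nat_lit 7, nat_lit 8, (.negSucc (nat_lit 1834459135)), (.ofNat (nat_lit 38334173376)), (.negSucc (nat_lit 1834459119)), (.ofNat (nat_lit 38334173360)), (.ofNat (nat_lit 12141895841620596772188)), (.ofNat (nat_lit 186813486982006579694)), (.ofNat (nat_lit 35600905481397104514712800293888))⟩,
    ⟨nat_lit 8, nat_lit 0, (.ofNat (nat_lit 38334173376)), (.ofNat (nat_lit 38334173440)), (.ofNat (nat_lit 38334173392)), (.ofNat (nat_lit 38334173424)), (.ofNat (nat_lit 12141895841620596772188)), (.ofNat (nat_lit 24096978196259186964682)), (.negSucc (nat_lit 880975493932750964003843619385599))⟩,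
    ⟨nat_lit 9, nat_lit 5, (.negSucc (nat_lit 37213513215)), (.negSucc (nat_lit 1506430975)), (.negSucc (nat_lit 37213513199)), (.negSucc (nat_lit 1506430991)), (.negSucc (nat_lit 12141896000192885164211)), (.negSucc (nat_lit 186813645554294971717)), (.ofNat (nat_lit 11067665331695201891169426688))⟩]

theorem ok176 : stOK 9 9 S176 = true := by decide +kernel

def S177 : SD where
  vs := [
    ⟨nat_lit 0, nat_lit 8, nat_lit 0, (.ofNat (nat_lit 8)), (.ofNat (nat_lit 26615612160)), (.ofNat (nat_lit 2921624217820411455069444275767296)), (.negSucc (nat_lit 11718561279)), (.ofNat (nat_lit 142304648330553417348921025385472)), (.ofNat (nat_lit 26615612144)), (.ofNat (nat_lit 26615612176)), (.ofNat (nat_lit 12141895841620596772188)), (.ofNat (nat_lit 12141895841620596772188)), (.ofNat (nat_lit 12141895841620596772188)), (.ofNat (nat_lit 12141895841620596772188)), (.ofNat (nat_lit 0))⟩,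
    ⟨nat_lit 1, nat_lit 0, nat_lit 1, (.ofNat (nat_lit 8)), (.ofNat (nat_lit 74651214976)), (.ofNat (nat_lit 3504867503901740483383158679048704)), (.negSucc (nat_lit 11718299135)), (.ofNat (nat_lit 142307831255696923138641273836544)), (.ofNat (nat_lit 74651214960)), (.ofNat (nat_lit 74651214992)), (.ofNat (nat_lit 12141895841620596772188)), (.negSucc (nat_lit 12141896679158030017115)), (.negSucc (nat_lit 12141896679158030017115)), (.ofNat (nat_lit 12141895841620596772188)), (.ofNat (nat_lit 0))⟩,
    ⟨nat_lit 0, nat_lit 2, nat_lit 1, (.ofNat (nat_lit 8)), (.ofNat (nat_lit 54051057344)), (.ofNat (nat_lit 3754992489443853230774335937078016)), (.negSucc (nat_lit 14007438463)), (.ofNat (nat_lit 170102324460470167577826022574592)), (.ofNat (nat_lit 54051057328)), (.ofNat (nat_lit 54051057360)), (.ofNat (nat_lit 12141896000192885164212)), (.negSucc (nat_lit 12141896679158030017115)), (.negSucc (nat_lit 12141896679158030017115)), (.ofNat (nat_lit 12141896000192885164212)), (.ofNat (nat_lit 0))⟩,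
    ⟨nat_lit 2, nat_lit 3, nat_lit 2, (.ofNat (nat_lit 8)), (.negSucc (nat_lit 79416286207)), (.ofNat (nat_lit 2134445884613454768296368997716992)), (.negSucc (nat_lit 14008224895)), (.ofNat (nat_lit 170092775684914943886760561003008)), (.negSucc (nat_lit 79416286223)), (.negSucc (nat_lit 79416286191)), (.negSucc (nat_lit 12141896000192885164211)), (.ofNat (nat_lit 12141896000192885164212)), (.negSucc (nat_lit 12141896000192885164211)), (.ofNat (nat_lit 12141896000192885164212)), (.ofNat (nat_lit 0))⟩,
    ⟨nat_lit 1, nat_lit 4, nat_lit 3, (.ofNat (nat_lit 8)), (.ofNat (nat_lit 6480979456)), (.ofNat (nat_lit 1091490218220227516103406568500224)), (.negSucc (nat_lit 4463385279)), (.ofNat (nat_lit 54200325728921949930051197980416)), (.ofNat (nat_lit 6480979440)), (.ofNat (nat_lit 6480979472)), (.ofNat (nat_lit 12141896000192885164212)), (.negSucc (nat_lit 12141896000192885164211)), (.negSucc (nat_lit 12141896000192885164211)), (.ofNat (nat_lit 12141896000192885164212)), (.ofNat (nat_lit 0))⟩,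
    ⟨nat_lit 0, nat_lit 9, nat_lit 5, (.ofNat (nat_lit 8)), (.negSucc (nat_lit 1506430975)), (.ofNat (nat_lit 19010267779725227555088607471104)), (.ofNat (nat_lit 0)), (.ofNat (nat_lit 0)), (.negSucc (nat_lit 1506430991)), (.negSucc (nat_lit 1506430959)), (.negSucc (nat_lit 12141896000192885164211)), (.ofNat (nat_lit 12141896000192885164212)), (.negSucc (nat_lit 12141896000192885164211)), (.ofNat (nat_lit 12141896000192885164212)), (.ofNat (nat_lit 0))⟩,
    ⟨nat_lit 1, nat_lit 5, nat_lit 6, (.ofNat (nat_lit 8)), (.ofNat (nat_lit 91914555200)), (.ofNat (nat_lit 1153318166164174445814493349404416)), (.ofNat (nat_lit 524288)), (.ofNat (nat_lit 6365850370149127376974381056)), (.ofNat (nat_lit 91914555184)), (.ofNat (nat_lit 91914555216)), (.ofNat (nat_lit 12141896000192885164212)), (.negSucc (nat_lit 12141896000192885164211)), (.negSucc (nat_lit 12141896000192885164211)), (.ofNat (nat_lit 12141896000192885164212)), (.ofNat (nat_lit 0))⟩,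
    ⟨nat_lit 2, nat_lit 6, nat_lit 7, (.ofNat (nat_lit 8)), (.negSucc (nat_lit 13553282495)), (.ofNat (nat_lit 2433897682834229243007570873139968)), (.negSucc (nat_lit 11718823359)), (.ofNat (nat_lit 142301466182491245422918970354432)), (.negSucc (nat_lit 13553282511)), (.negSucc (nat_lit 13553282479)), (.negSucc (nat_lit 12141896000192885164211)), (.ofNat (nat_lit 12141895841620596772188)), (.negSucc (nat_lit 12141896000192885164211)), (.ofNat (nat_lit 12141895841620596772188)), (.ofNat (nat_lit 0))⟩,
    ⟨nat_lit 0, nat_lit 7, nat_lit 8, (.ofNat (nat_lit 8)), (.ofNat (nat_lit 26615612096)), (.ofNat (nat_lit 2921624217043330121205726082347264)), (.negSucc (nat_lit 11718561279)), (.ofNat (nat_lit 142304648330553417348921025385472)), (.ofNat (nat_lit 26615612080)), (.ofNat (nat_lit 26615612112)), (.ofNat (nat_lit 12141895841620596772188)), (.ofNat (nat_lit 12141895841620596772188)), (.ofNat (nat_lit 12141895841620596772188)), (.ofNat (nat_lit 12141895841620596772188)), (.ofNat (nat_lit 0))⟩,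
    ⟨nat_lit 2, nat_lit 9, nat_lit 4, (.ofNat (nat_lit 8)), (.negSucc (nat_lit 41677160639)), (.ofNat (nat_lit 506759089611876509342845107055872)), (.negSucc (nat_lit 4463647423)), (.ofNat (nat_lit 54197142803736875366362710789888)), (.negSucc (nat_lit 41677160655)), (.negSucc (nat_lit 41677160623)), (.negSucc (nat_lit 12141896000192885164211)), (.ofNat (nat_lit 12141896000192885164212)), (.negSucc (nat_lit 12141896000192885164211)), (.ofNat (nat_lit 12141896000192885164212)), (.ofNat (nat_lit 0))⟩]
  es := [
    ⟨nat_lit 0, nat_lit 1, (.ofNat (nat_lit 26615612160)), (.ofNat (nat_lit 74651214976)), (.ofNat (nat_lit 26615612176)), (.ofNat (nat_lit 74651214960)), (.ofNat (nat_lit 12141895841620596772188)), (.ofNat (nat_lit 0)), (.ofNat (nat_lit 284590198805961555133976303066112))⟩,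
    ⟨nat_lit 2, nat_lit 1, (.ofNat (nat_lit 54051057344)), (.ofNat (nat_lit 74651214976)), (.ofNat (nat_lit 54051057360)), (.ofNat (nat_lit 74651214960)), (.negSucc (nat_lit 12141896679158030017115)), (.ofNat (nat_lit 0)), (.ofNat (nat_lit 25453890918110781608785824768))⟩,
    ⟨nat_lit 3, nat_lit 2, (.negSucc (nat_lit 79416286207)), (.ofNat (nat_lit 54051057344)), (.negSucc (nat_lit 79416286191)), (.ofNat (nat_lit 54051057328)), (.ofNat (nat_lit 12141896000192885164212)), (.ofNat (nat_lit 0)), (.ofNat (nat_lit 340179185519459738646144147624960))⟩,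
    ⟨nat_lit 3, nat_lit 4, (.negSucc (nat_lit 79416286207)), (.ofNat (nat_lit 6480979456)), (.negSucc (nat_lit 79416286191)), (.ofNat (nat_lit 6480979440)), (.negSucc (nat_lit 12141896000192885164211)), (.ofNat (nat_lit 0)), (.ofNat (nat_lit 6365850370149127376974381056))⟩,
    ⟨nat_lit 9, nat_lit 4, (.negSucc (nat_lit 41677160639)), (.ofNat (nat_lit 6480979456)), (.negSucc (nat_lit 41677160623)), (.ofNat (nat_lit 6480979440)), (.ofNat (nat_lit 12141896000192885164212)), (.ofNat (nat_lit 0)), (.ofNat (nat_lit 108394285607473750732725421579776))⟩,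
    ⟨nat_lit 5, nat_lit 6, (.negSucc (nat_lit 1506430975)), (.ofNat (nat_lit 91914555200)), (.negSucc (nat_lit 1506430959)), (.ofNat (nat_lit 91914555184)), (.ofNat (nat_lit 12141896000192885164212)), (.ofNat (nat_lit 0)), (.ofNat (nat_lit 0))⟩,
    ⟨nat_lit 7, nat_lit 6, (.negSucc (nat_lit 13553282495)), (.ofNat (nat_lit 91914555200)), (.negSucc (nat_lit 13553282479)), (.ofNat (nat_lit 91914555184)), (.negSucc (nat_lit 12141896000192885164211)), (.ofNat (nat_lit 0)), (.ofNat (nat_lit 12731700740298254753948762112))⟩,
    ⟨nat_lit 7, nat_lit 8, (.negSucc (nat_lit 13553282495)), (.ofNat (nat_lit 26615612096)), (.negSucc (nat_lit 13553282479)), (.ofNat (nat_lit 26615612080)), (.ofNat (nat_lit 12141895841620596772188)), (.ofNat (nat_lit 0)), (.ofNat (nat_lit 284590198805961555133976303066112))⟩,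
    ⟨nat_lit 8, nat_lit 0, (.ofNat (nat_lit 26615612096)), (.ofNat (nat_lit 26615612160)), (.ofNat (nat_lit 26615612112)), (.ofNat (nat_lit 26615612144)), (.ofNat (nat_lit 12141895841620596772188)), (.ofNat (nat_lit 0)), (.ofNat (nat_lit 284590198805961555133976303066112))⟩,
    ⟨nat_lit 9, nat_lit 5, (.negSucc (nat_lit 41677160639)), (.negSucc (nat_lit 1506430975)), (.negSucc (nat_lit 41677160623)), (.negSucc (nat_lit 1506430991)), (.negSucc (nat_lit 12141896000192885164211)), (.ofNat (nat_lit 0)), (.ofNat (nat_lit 0))⟩]

theorem ok177 : stOK 9 9 S177 = true := by decide +kernel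

def S178 : SD where
  vs := [
    ⟨nat_lit 0, nat_lit 7, nat_lit 0, (.ofNat (nat_lit 8)), (.ofNat (nat_lit 26615612160)), (.ofNat (nat_lit 2921624217820411455069444275767296)), (.negSucc (nat_lit 11718561279)), (.ofNat (nat_lit 142304648330553417348921025385472)), (.ofNat (nat_lit 26615612144)), (.ofNat (nat_lit 26615612176)), (.ofNat (nat_lit 12141895841620596772188)), (.ofNat (nat_lit 12141895841620596772188)), (.ofNat (nat_lit 12141895841620596772188)), (.ofNat (nat_lit 12141895841620596772188)), (.ofNat (nat_lit 0))⟩,
    ⟨nat_lit 1, nat_lit 0, nat_lit 1, (.ofNat (nat_lit 8)), (.ofNat (nat_lit 74651214976)), (.ofNat (nat_lit 3504867503901740483383158679048704)), (.negSucc (nat_lit 11718299135)), (.ofNat (nat_lit 142307831255696923138641273836544)), (.ofNat (nat_lit 74651214960)), (.ofNat (nat_lit 74651214992)), (.ofNat (nat_lit 12141895841620596772188)), (.negSucc (nat_lit 12141896679158030017115)), (.negSucc (nat_lit 12141896679158030017115)), (.ofNat (nat_lit 12141895841620596772188)), (.ofNat (nat_lit 0))⟩,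
    ⟨nat_lit 0, nat_lit 2, nat_lit 1, (.ofNat (nat_lit 8)), (.ofNat (nat_lit 54051057344)), (.ofNat (nat_lit 3754992489443853230774335937078016)), (.negSucc (nat_lit 14007438463)), (.ofNat (nat_lit 170102324460470167577826022574592)), (.ofNat (nat_lit 54051057328)), (.ofNat (nat_lit 54051057360)), (.ofNat (nat_lit 12141896000192885164212)), (.negSucc (nat_lit 12141896679158030017115)), (.negSucc (nat_lit 12141896679158030017115)), (.ofNat (nat_lit 12141896000192885164212)), (.ofNat (nat_lit 0))⟩,
    ⟨nat_lit 2, nat_lit 3, nat_lit 2, (.ofNat (nat_lit 8)), (.negSucc (nat_lit 79416286207)), (.ofNat (nat_lit 2134445884613454768296368997716992)), (.negSucc (nat_lit 14008224895)), (.ofNat (nat_lit 170092775684914943886760561003008)), (.negSucc (nat_lit 79416286223)), (.negSucc (nat_lit 79416286191)), (.negSucc (nat_lit 12141896000192885164211)), (.ofNat (nat_lit 12141896000192885164212)), (.negSucc (nat_lit 12141896000192885164211)), (.ofNat (nat_lit 12141896000192885164212)), (.ofNat (nat_lit 0))⟩,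
    ⟨nat_lit 1, nat_lit 4, nat_lit 3, (.ofNat (nat_lit 8)), (.ofNat (nat_lit 6480979456)), (.ofNat (nat_lit 1091490218220227516103406568500224)), (.negSucc (nat_lit 4463385279)), (.ofNat (nat_lit 54200325728921949930051197980416)), (.ofNat (nat_lit 6480979440)), (.ofNat (nat_lit 6480979472)), (.ofNat (nat_lit 12141896000192885164212)), (.negSucc (nat_lit 12141896000192885164211)), (.negSucc (nat_lit 12141896000192885164211)), (.ofNat (nat_lit 12141896000192885164212)), (.ofNat (nat_lit 0))⟩,
    ⟨nat_lit 0, nat_lit 8, nat_lit 5, (.ofNat (nat_lit 8)), (.negSucc (nat_lit 1506430975)), (.ofNat (nat_lit 19010267779725227555088607471104)), (.ofNat (nat_lit 0)), (.ofNat (nat_lit 0)), (.negSucc (nat_lit 1506430991)), (.negSucc (nat_lit 1506430959)), (.negSucc (nat_lit 12141896000192885164211)), (.ofNat (nat_lit 12141896000192885164212)), (.negSucc (nat_lit 12141896000192885164211)), (.ofNat (nat_lit 12141896000192885164212)), (.ofNat (nat_lit 0))⟩,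
    ⟨nat_lit 1, nat_lit 5, nat_lit 6, (.ofNat (nat_lit 8)), (.ofNat (nat_lit 91914555200)), (.ofNat (nat_lit 1153318166164174445814493349404416)), (.ofNat (nat_lit 524288)), (.ofNat (nat_lit 6365850370149127376974381056)), (.ofNat (nat_lit 91914555184)), (.ofNat (nat_lit 91914555216)), (.ofNat (nat_lit 12141896000192885164212)), (.negSucc (nat_lit 12141896000192885164211)), (.negSucc (nat_lit 12141896000192885164211)), (.ofNat (nat_lit 12141896000192885164212)), (.ofNat (nat_lit 0))⟩,
    ⟨nat_lit 2, nat_lit 6, nat_lit 7, (.ofNat (nat_lit 8)), (.negSucc (nat_lit 13553282495)), (.ofNat (nat_lit 2433897682834229243007570873139968)), (.negSucc (nat_lit 11718823359)), (.ofNat (nat_lit 142301466182491245422918970354432)), (.negSucc (nat_lit 13553282511)), (.negSucc (nat_lit 13553282479)), (.negSucc (nat_lit 12141896000192885164211)), (.ofNat (nat_lit 12141895841620596772188)), (.negSucc (nat_lit 12141896000192885164211)), (.ofNat (nat_lit 12141895841620596772188)), (.ofNat (nat_lit 0))⟩,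
    ⟨nat_lit 2, nat_lit 8, nat_lit 4, (.ofNat (nat_lit 8)), (.negSucc (nat_lit 41677160639)), (.ofNat (nat_lit 506759089611876509342845107055872)), (.negSucc (nat_lit 4463647423)), (.ofNat (nat_lit 54197142803736875366362710789888)), (.negSucc (nat_lit 41677160655)), (.negSucc (nat_lit 41677160623)), (.negSucc (nat_lit 12141896000192885164211)), (.ofNat (nat_lit 12141896000192885164212)), (.negSucc (nat_lit 12141896000192885164211)), (.ofNat (nat_lit 12141896000192885164212)), (.ofNat (nat_lit 0))⟩]
  es := [
    ⟨nat_lit 0, nat_lit 1, (.ofNat (nat_lit 26615612160)), (.ofNat (nat_lit 74651214976)), (.ofNat (nat_lit 26615612176)), (.ofNat (nat_lit 74651214960)), (.ofNat (nat_lit 12141895841620596772188)), (.ofNat (nat_lit 0)), (.ofNat (nat_lit 284590198805961555133976303066112))⟩,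
    ⟨nat_lit 2, nat_lit 1, (.ofNat (nat_lit 54051057344)), (.ofNat (nat_lit 74651214976)), (.ofNat (nat_lit 54051057360)), (.ofNat (nat_lit 74651214960)), (.negSucc (nat_lit 12141896679158030017115)), (.ofNat (nat_lit 0)), (.ofNat (nat_lit 25453890918110781608785824768))⟩,
    ⟨nat_lit 3, nat_lit 2, (.negSucc (nat_lit 79416286207)), (.ofNat (nat_lit 54051057344)), (.negSucc (nat_lit 79416286191)), (.ofNat (nat_lit 54051057328)), (.ofNat (nat_lit 12141896000192885164212)), (.ofNat (nat_lit 0)), (.ofNat (nat_lit 340179185519459738646144147624960))⟩,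
    ⟨nat_lit 3, nat_lit 4, (.negSucc (nat_lit 79416286207)), (.ofNat (nat_lit 6480979456)), (.negSucc (nat_lit 79416286191)), (.ofNat (nat_lit 6480979440)), (.negSucc (nat_lit 12141896000192885164211)), (.ofNat (nat_lit 0)), (.ofNat (nat_lit 6365850370149127376974381056))⟩,
    ⟨nat_lit 8, nat_lit 4, (.negSucc (nat_lit 41677160639)), (.ofNat (nat_lit 6480979456)), (.negSucc (nat_lit 41677160623)), (.ofNat (nat_lit 6480979440)), (.ofNat (nat_lit 12141896000192885164212)), (.ofNat (nat_lit 0)), (.ofNat (nat_lit 108394285607473750732725421579776))⟩,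
    ⟨nat_lit 5, nat_lit 6, (.negSucc (nat_lit 1506430975)), (.ofNat (nat_lit 91914555200)), (.negSucc (nat_lit 1506430959)), (.ofNat (nat_lit 91914555184)), (.ofNat (nat_lit 12141896000192885164212)), (.ofNat (nat_lit 0)), (.ofNat (nat_lit 0))⟩,
    ⟨nat_lit 7, nat_lit 6, (.negSucc (nat_lit 13553282495)), (.ofNat (nat_lit 91914555200)), (.negSucc (nat_lit 13553282479)), (.ofNat (nat_lit 91914555184)), (.negSucc (nat_lit 12141896000192885164211)), (.ofNat (nat_lit 0)), (.ofNat (nat_lit 12731700740298254753948762112))⟩,
    ⟨nat_lit 7, nat_lit 0, (.negSucc (nat_lit 13553282495)), (.ofNat (nat_lit 26615612160)), (.negSucc (nat_lit 13553282479)), (.ofNat (nat_lit 26615612144)), (.ofNat (nat_lit 12141895841620596772188)), (.ofNat (nat_lit 0)), (.ofNat (nat_lit 284590198805961555133976303066112))⟩,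
    ⟨nat_lit 8, nat_lit 5, (.negSucc (nat_lit 41677160639)), (.negSucc (nat_lit 1506430975)), (.negSucc (nat_lit 41677160623)), (.negSucc (nat_lit 1506430991)), (.negSucc (nat_lit 12141896000192885164211)), (.ofNat (nat_lit 0)), (.ofNat (nat_lit 0))⟩]

theorem ok178 : stOK 8 8 S178 = true := by decide +kernel

def S179 : SD where
  vs := [
    ⟨nat_lit 1, nat_lit 6, nat_lit 0, (.ofNat (nat_lit 8)), (.ofNat (nat_lit 74651214976)), (.ofNat (nat_lit 3504867503901740483383158679048704)), (.negSucc (nat_lit 11718299135)), (.ofNat (nat_lit 142307831255696923138641273836544)), (.ofNat (nat_lit 74651214960)), (.ofNat (nat_lit 74651214992)), (.ofNat (nat_lit 12141895841620596772188)), (.negSucc (nat_lit 12141896679158030017115)), (.negSucc (nat_lit 12141896679158030017115)), (.ofNat (nat_lit 12141895841620596772188)), (.ofNat (nat_lit 0))⟩,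
    ⟨nat_lit 0, nat_lit 1, nat_lit 0, (.ofNat (nat_lit 8)), (.ofNat (nat_lit 54051057344)), (.ofNat (nat_lit 3754992489443853230774335937078016)), (.negSucc (nat_lit 14007438463)), (.ofNat (nat_lit 170102324460470167577826022574592)), (.ofNat (nat_lit 54051057328)), (.ofNat (nat_lit 54051057360)), (.ofNat (nat_lit 12141896000192885164212)), (.negSucc (nat_lit 12141896679158030017115)), (.negSucc (nat_lit 12141896679158030017115)), (.ofNat (nat_lit 12141896000192885164212)), (.ofNat (nat_lit 0))⟩,
    ⟨nat_lit 2, nat_lit 2, nat_lit 1, (.ofNat (nat_lit 8)), (.negSucc (nat_lit 79416286207)), (.ofNat (nat_lit 2134445884613454768296368997716992)), (.negSucc (nat_lit 14008224895)), (.ofNat (nat_lit 170092775684914943886760561003008)), (.negSucc (nat_lit 79416286223)), (.negSucc (nat_lit 79416286191)), (.negSucc (nat_lit 12141896000192885164211)), (.ofNat (nat_lit 12141896000192885164212)), (.negSucc (nat_lit 12141896000192885164211)), (.ofNat (nat_lit 12141896000192885164212)), (.ofNat (nat_lit 0))⟩,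
    ⟨nat_lit 1, nat_lit 3, nat_lit 2, (.ofNat (nat_lit 8)), (.ofNat (nat_lit 6480979456)), (.ofNat (nat_lit 1091490218220227516103406568500224)), (.negSucc (nat_lit 4463385279)), (.ofNat (nat_lit 54200325728921949930051197980416)), (.ofNat (nat_lit 6480979440)), (.ofNat (nat_lit 6480979472)), (.ofNat (nat_lit 12141896000192885164212)), (.negSucc (nat_lit 12141896000192885164211)), (.negSucc (nat_lit 12141896000192885164211)), (.ofNat (nat_lit 12141896000192885164212)), (.ofNat (nat_lit 0))⟩,
    ⟨nat_lit 0, nat_lit 7, nat_lit 4, (.ofNat (nat_lit 8)), (.negSucc (nat_lit 1506430975)), (.ofNat (nat_lit 19010267779725227555088607471104)), (.ofNat (nat_lit 0)), (.ofNat (nat_lit 0)), (.negSucc (nat_lit 1506430991)), (.negSucc (nat_lit 1506430959)), (.negSucc (nat_lit 12141896000192885164211)), (.ofNat (nat_lit 12141896000192885164212)), (.negSucc (nat_lit 12141896000192885164211)), (.ofNat (nat_lit 12141896000192885164212)), (.ofNat (nat_lit 0))⟩,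
    ⟨nat_lit 1, nat_lit 4, nat_lit 5, (.ofNat (nat_lit 8)), (.ofNat (nat_lit 91914555200)), (.ofNat (nat_lit 1153318166164174445814493349404416)), (.ofNat (nat_lit 524288)), (.ofNat (nat_lit 6365850370149127376974381056)), (.ofNat (nat_lit 91914555184)), (.ofNat (nat_lit 91914555216)), (.ofNat (nat_lit 12141896000192885164212)), (.negSucc (nat_lit 12141896000192885164211)), (.negSucc (nat_lit 12141896000192885164211)), (.ofNat (nat_lit 12141896000192885164212)), (.ofNat (nat_lit 0))⟩,
    ⟨nat_lit 2, nat_lit 5, nat_lit 6, (.ofNat (nat_lit 8)), (.negSucc (nat_lit 13553282495)), (.ofNat (nat_lit 2433897682834229243007570873139968)), (.negSucc (nat_lit 11718823359)), (.ofNat (nat_lit 142301466182491245422918970354432)), (.negSucc (nat_lit 13553282511)), (.negSucc (nat_lit 13553282479)), (.negSucc (nat_lit 12141896000192885164211)), (.ofNat (nat_lit 12141895841620596772188)), (.negSucc (nat_lit 12141896000192885164211)), (.ofNat (nat_lit 12141895841620596772188)), (.ofNat (nat_lit 0))⟩,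
    ⟨nat_lit 2, nat_lit 7, nat_lit 3, (.ofNat (nat_lit 8)), (.negSucc (nat_lit 41677160639)), (.ofNat (nat_lit 506759089611876509342845107055872)), (.negSucc (nat_lit 4463647423)), (.ofNat (nat_lit 54197142803736875366362710789888)), (.negSucc (nat_lit 41677160655)), (.negSucc (nat_lit 41677160623)), (.negSucc (nat_lit 12141896000192885164211)), (.ofNat (nat_lit 12141896000192885164212)), (.negSucc (nat_lit 12141896000192885164211)), (.ofNat (nat_lit 12141896000192885164212)), (.ofNat (nat_lit 0))⟩]
  es := [
    ⟨nat_lit 1, nat_lit 0, (.ofNat (nat_lit 54051057344)), (.ofNat (nat_lit 74651214976)), (.ofNat (nat_lit 54051057360)), (.ofNat (nat_lit 74651214960)), (.negSucc (nat_lit 12141896679158030017115)), (.ofNat (nat_lit 0)), (.ofNat (nat_lit 25453890918110781608785824768))⟩,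
    ⟨nat_lit 2, nat_lit 1, (.negSucc (nat_lit 79416286207)), (.ofNat (nat_lit 54051057344)), (.negSucc (nat_lit 79416286191)), (.ofNat (nat_lit 54051057328)), (.ofNat (nat_lit 12141896000192885164212)), (.ofNat (nat_lit 0)), (.ofNat (nat_lit 340179185519459738646144147624960))⟩,
    ⟨nat_lit 2, nat_lit 3, (.negSucc (nat_lit 79416286207)), (.ofNat (nat_lit 6480979456)), (.negSucc (nat_lit 79416286191)), (.ofNat (nat_lit 6480979440)), (.negSucc (nat_lit 12141896000192885164211)), (.ofNat (nat_lit 0)), (.ofNat (nat_lit 6365850370149127376974381056))⟩,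
    ⟨nat_lit 7, nat_lit 3, (.negSucc (nat_lit 41677160639)), (.ofNat (nat_lit 6480979456)), (.negSucc (nat_lit 41677160623)), (.ofNat (nat_lit 6480979440)), (.ofNat (nat_lit 12141896000192885164212)), (.ofNat (nat_lit 0)), (.ofNat (nat_lit 108394285607473750732725421579776))⟩,
    ⟨nat_lit 4, nat_lit 5, (.negSucc (nat_lit 1506430975)), (.ofNat (nat_lit 91914555200)), (.negSucc (nat_lit 1506430959)), (.ofNat (nat_lit 91914555184)), (.ofNat (nat_lit 12141896000192885164212)), (.ofNat (nat_lit 0)), (.ofNat (nat_lit 0))⟩,
    ⟨nat_lit 6, nat_lit 5, (.negSucc (nat_lit 13553282495)), (.ofNat (nat_lit 91914555200)), (.negSucc (nat_lit 13553282479)), (.ofNat (nat_lit 91914555184)), (.negSucc (nat_lit 12141896000192885164211)), (.ofNat (nat_lit 0)), (.ofNat (nat_lit 12731700740298254753948762112))⟩,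
    ⟨nat_lit 6, nat_lit 0, (.negSucc (nat_lit 13553282495)), (.ofNat (nat_lit 74651214976)), (.negSucc (nat_lit 13553282479)), (.ofNat (nat_lit 74651214960)), (.ofNat (nat_lit 12141895841620596772188)), (.ofNat (nat_lit 0)), (.ofNat (nat_lit 284590198805961555133976303066112))⟩,
    ⟨nat_lit 7, nat_lit 4, (.negSucc (nat_lit 41677160639)), (.negSucc (nat_lit 1506430975)), (.negSucc (nat_lit 41677160623)), (.negSucc (nat_lit 1506430991)), (.negSucc (nat_lit 12141896000192885164211)), (.ofNat (nat_lit 0)), (.ofNat (nat_lit 0))⟩]

theorem ok179 : stOK 7 7 S179 = true := by decide +kernel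

def S180 : SD where
  vs := [
    ⟨nat_lit 1, nat_lit 6, nat_lit 0, (.ofNat (nat_lit 8)), (.ofNat (nat_lit 74651214976)), (.ofNat (nat_lit 3559631072855537767330002098639872)), (.ofNat (nat_lit 0)), (.ofNat (nat_lit 54763568953797283946843419591168)), (.ofNat (nat_lit 74651214960)), (.ofNat (nat_lit 74651214992)), (.ofNat (nat_lit 12331613125195898994902)), (.negSucc (nat_lit 12331613125195898994901)), (.negSucc (nat_lit 12331613125195898994901)), (.ofNat (nat_lit 12331613125195898994902)), (.ofNat (nat_lit 1138302026376946846428))⟩,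
    ⟨nat_lit 0, nat_lit 1, nat_lit 0, (.ofNat (nat_lit 8)), (.ofNat (nat_lit 54051057344)), (.ofNat (nat_lit 3813664247091413437504933663031936)), (.ofNat (nat_lit 0)), (.ofNat (nat_lit 58671757647560206730597725953920)), (.ofNat (nat_lit 54051057328)), (.ofNat (nat_lit 54051057360)), (.ofNat (nat_lit 12331613125195898994902)), (.negSucc (nat_lit 12331613125195898994901)), (.negSucc (nat_lit 12331613125195898994901)), (.ofNat (nat_lit 12331613125195898994902)), (.ofNat (nat_lit 1138301392087793278332))⟩,
    ⟨nat_lit 2, nat_lit 2, nat_lit 1, (.ofNat (nat_lit 8)), (.negSucc (nat_lit 79416286207)), (.ofNat (nat_lit 2167796601560539999050856932460032)), (.ofNat (nat_lit 0)), (.ofNat (nat_lit 33350716947085230754487934743040)), (.negSucc (nat_lit 79416286223)), (.negSucc (nat_lit 79416286191)), (.negSucc (nat_lit 12331613125195898994901)), (.ofNat (nat_lit 12331613125195898994902)), (.negSucc (nat_lit 12331613125195898994901)), (.ofNat (nat_lit 12331613125195898994902)), (.ofNat (nat_lit 1138302750018082984140))⟩,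
    ⟨nat_lit 1, nat_lit 3, nat_lit 2, (.ofNat (nat_lit 8)), (.ofNat (nat_lit 6480979456)), (.ofNat (nat_lit 1108544752879918571042449256815104)), (.ofNat (nat_lit 0)), (.ofNat (nat_lit 17054534659691054939042688314880)), (.ofNat (nat_lit 6480979440)), (.ofNat (nat_lit 6480979472)), (.ofNat (nat_lit 12331613125195898994902)), (.negSucc (nat_lit 12331613125195898994901)), (.negSucc (nat_lit 12331613125195898994901)), (.ofNat (nat_lit 12331613125195898994902)), (.ofNat (nat_lit 1138302750018082984140))⟩,
    ⟨nat_lit 0, nat_lit 7, nat_lit 4, (.ofNat (nat_lit 8)), (.negSucc (nat_lit 1506430975)), (.ofNat (nat_lit 19307303213783434235635594851584)), (.ofNat (nat_lit 0)), (.ofNat (nat_lit 297035434058206680546987380480)), (.negSucc (nat_lit 1506430991)), (.negSucc (nat_lit 1506430959)), (.negSucc (nat_lit 12331613125195898994901)), (.ofNat (nat_lit 12331613125195898994902)), (.negSucc (nat_lit 12331613125195898994901)), (.ofNat (nat_lit 12331613125195898994902)), (.ofNat (nat_lit 1138302750018082984140))⟩,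
    ⟨nat_lit 1, nat_lit 4, nat_lit 5, (.ofNat (nat_lit 8)), (.ofNat (nat_lit 91914555200)), (.ofNat (nat_lit 1171338762510489671530267631326336)), (.ofNat (nat_lit 0)), (.ofNat (nat_lit 18020596346315225715774281921920)), (.ofNat (nat_lit 91914555184)), (.ofNat (nat_lit 91914555216)), (.ofNat (nat_lit 12331613125195898994902)), (.negSucc (nat_lit 12331613125195898994901)), (.negSucc (nat_lit 12331613125195898994901)), (.ofNat (nat_lit 12331613125195898994902)), (.ofNat (nat_lit 1138302750018082984140))⟩,
    ⟨nat_lit 2, nat_lit 5, nat_lit 6, (.ofNat (nat_lit 8)), (.negSucc (nat_lit 13553282495)), (.ofNat (nat_lit 2471927334128514074929401298752128)), (.ofNat (nat_lit 0)), (.ofNat (nat_lit 38029651294284831921830425612160)), (.negSucc (nat_lit 13553282511)), (.negSucc (nat_lit 13553282479)), (.negSucc (nat_lit 12331613125195898994901)), (.ofNat (nat_lit 12331613125195898994902)), (.negSucc (nat_lit 12331613125195898994901)), (.ofNat (nat_lit 12331613125195898994902)), (.ofNat (nat_lit 1138303067162659768188))⟩,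
    ⟨nat_lit 2, nat_lit 7, nat_lit 3, (.ofNat (nat_lit 8)), (.negSucc (nat_lit 41677160639)), (.ofNat (nat_lit 514677200387062079801293151024512)), (.ofNat (nat_lit 0)), (.ofNat (nat_lit 7918110775185570458448043968640)), (.negSucc (nat_lit 41677160655)), (.negSucc (nat_lit 41677160623)), (.negSucc (nat_lit 12331613125195898994901)), (.ofNat (nat_lit 12331613125195898994902)), (.negSucc (nat_lit 12331613125195898994901)), (.ofNat (nat_lit 12331613125195898994902)), (.ofNat (nat_lit 1138302750018082984140))⟩]
  es := [
    ⟨nat_lit 1, nat_lit 0, (.ofNat (nat_lit 54051057344)), (.ofNat (nat_lit 74651214976)), (.ofNat (nat_lit 54051057360)), (.ofNat (nat_lit 74651214960)), (.negSucc (nat_lit 12331613125195898994901)), (.negSucc (nat_lit 189716446037868977785)), (.ofNat (nat_lit 68926132151452944444467474114304))⟩,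
    ⟨nat_lit 2, nat_lit 1, (.negSucc (nat_lit 79416286207)), (.ofNat (nat_lit 54051057344)), (.negSucc (nat_lit 79416286191)), (.ofNat (nat_lit 54051057328)), (.ofNat (nat_lit 12331613125195898994902)), (.ofNat (nat_lit 189717125003013830690)), (.ofNat (nat_lit 48417346444883489995147428866560))⟩,
    ⟨nat_lit 2, nat_lit 3, (.negSucc (nat_lit 79416286207)), (.ofNat (nat_lit 6480979456)), (.negSucc (nat_lit 79416286191)), (.ofNat (nat_lit 6480979440)), (.negSucc (nat_lit 12331613125195898994901)), (.negSucc (nat_lit 189717125003013830689)), (.ofNat (nat_lit 18284087449286971513828440619520))⟩,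
    ⟨nat_lit 7, nat_lit 3, (.negSucc (nat_lit 41677160639)), (.ofNat (nat_lit 6480979456)), (.negSucc (nat_lit 41677160623)), (.ofNat (nat_lit 6480979440)), (.ofNat (nat_lit 12331613125195898994902)), (.ofNat (nat_lit 189717125003013830690)), (.ofNat (nat_lit 15824981870095138364256936010240))⟩,
    ⟨nat_lit 4, nat_lit 5, (.negSucc (nat_lit 1506430975)), (.ofNat (nat_lit 91914555200)), (.negSucc (nat_lit 1506430959)), (.ofNat (nat_lit 91914555184)), (.ofNat (nat_lit 12331613125195898994902)), (.ofNat (nat_lit 189717125003013830690)), (.ofNat (nat_lit 582831187840410808454822833920))⟩,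
    ⟨nat_lit 6, nat_lit 5, (.negSucc (nat_lit 13553282495)), (.ofNat (nat_lit 91914555200)), (.negSucc (nat_lit 13553282479)), (.ofNat (nat_lit 91914555184)), (.negSucc (nat_lit 12331613125195898994901)), (.negSucc (nat_lit 189717125003013830689)), (.ofNat (nat_lit 35458361504790040623093741009920))⟩,
    ⟨nat_lit 6, nat_lit 0, (.negSucc (nat_lit 13553282495)), (.ofNat (nat_lit 74651214976)), (.negSucc (nat_lit 13553282479)), (.ofNat (nat_lit 74651214960)), (.ofNat (nat_lit 12331613125195898994902)), (.ofNat (nat_lit 189717283575302222714)), (.ofNat (nat_lit 40600943232954643834849975426304))⟩,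
    ⟨nat_lit 7, nat_lit 4, (.negSucc (nat_lit 41677160639)), (.negSucc (nat_lit 1506430975)), (.negSucc (nat_lit 41677160623)), (.negSucc (nat_lit 1506430991)), (.negSucc (nat_lit 12331613125195898994901)), (.negSucc (nat_lit 189717125003013830689)), (.ofNat (nat_lit 11239680276002552639151927040))⟩]

theorem ok180 : stOK 7 7 S180 = true := by decide +kernel

def S181 : SD where
  vs := [
    ⟨nat_lit 1, nat_lit 6, nat_lit 0, (.ofNat (nat_lit 8)), (.ofNat (nat_lit 274877906944000)), (.ofNat (nat_lit 16948440756064254668621396979953407232)), (.ofNat (nat_lit 274803255729024)), (.ofNat (nat_lit 16944881124991399130854066977854767360)), (.ofNat (nat_lit 274877906943984)), (.ofNat (nat_lit 274877906944016)), (.ofNat (nat_lit 12331613125195898994902)), (.negSucc (nat_lit 12331613125195898994901)), (.negSucc (nat_lit 12331613125195898994901)), (.ofNat (nat_lit 12331613125195898994902)), (.ofNat (nat_lit 0))⟩,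
    ⟨nat_lit 0, nat_lit 1, nat_lit 0, (.ofNat (nat_lit 8)), (.ofNat (nat_lit 0)), (.ofNat (nat_lit 20338128761161262014312492066352895232)), (.negSucc (nat_lit 54051057343)), (.ofNat (nat_lit 20334315096914170600874987132689863296)), (.negSucc (nat_lit 15)), (.ofNat (nat_lit 16)), (.ofNat (nat_lit 12331613125195898994902)), (.negSucc (nat_lit 12331613125195898994901)), (.negSucc (nat_lit 12331613125195898994901)), (.ofNat (nat_lit 12331613125195898994902)), (.ofNat (nat_lit 0))⟩,
    ⟨nat_lit 2, nat_lit 2, nat_lit 1, (.ofNat (nat_lit 8)), (.negSucc (nat_lit 549755813887999)), (.ofNat (nat_lit 13558752750967247322930301893553919232)), (.negSucc (nat_lit 549676397601791)), (.ofNat (nat_lit 13556584954365686782931251036621459200)), (.negSucc (nat_lit 549755813888015)), (.negSucc (nat_lit 549755813887983)), (.negSucc (nat_lit 12331613125195898994901)), (.ofNat (nat_lit 12331613125195898994902)), (.negSucc (nat_lit 12331613125195898994901)), (.ofNat (nat_lit 12331613125195898994902)), (.ofNat (nat_lit 0))⟩,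
    ⟨nat_lit 1, nat_lit 3, nat_lit 2, (.ofNat (nat_lit 8)), (.ofNat (nat_lit 0)), (.ofNat (nat_lit 6779376740773232631548111720754943232)), (.negSucc (nat_lit 6480979455)), (.ofNat (nat_lit 6778268196020352712977069271498128128)), (.negSucc (nat_lit 15)), (.ofNat (nat_lit 16)), (.ofNat (nat_lit 12331613125195898994902)), (.negSucc (nat_lit 12331613125195898994901)), (.negSucc (nat_lit 12331613125195898994901)), (.ofNat (nat_lit 12331613125195898994902)), (.ofNat (nat_lit 0))⟩,
    ⟨nat_lit 0, nat_lit 7, nat_lit 4, (.ofNat (nat_lit 8)), (.ofNat (nat_lit 0)), (.ofNat (nat_lit 730579217940165921547955967232)), (.ofNat (nat_lit 1506430976)), (.negSucc (nat_lit 18576723995843268314087638884351)), (.negSucc (nat_lit 15)), (.ofNat (nat_lit 16)), (.negSucc (nat_lit 12331613125195898994901)), (.ofNat (nat_lit 12331613125195898994902)), (.negSucc (nat_lit 12331613125195898994901)), (.ofNat (nat_lit 12331613125195898994902)), (.ofNat (nat_lit 0))⟩,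
    ⟨nat_lit 1, nat_lit 4, nat_lit 5, (.ofNat (nat_lit 8)), (.ofNat (nat_lit 549755813888000)), (.ofNat (nat_lit 6779376740773232631548111720754943232)), (.ofNat (nat_lit 549663899332800)), (.ofNat (nat_lit 6778205402010722141876581453123616896)), (.ofNat (nat_lit 549755813887984)), (.ofNat (nat_lit 549755813888016)), (.ofNat (nat_lit 12331613125195898994902)), (.negSucc (nat_lit 12331613125195898994901)), (.negSucc (nat_lit 12331613125195898994901)), (.ofNat (nat_lit 12331613125195898994902)), (.ofNat (nat_lit 0))⟩,
    ⟨nat_lit 2, nat_lit 5, nat_lit 6, (.ofNat (nat_lit 8)), (.ofNat (nat_lit 0)), (.ofNat (nat_lit 13558752750967247322930301893553919232)), (.ofNat (nat_lit 13553282496)), (.ofNat (nat_lit 13556280823633118808855372492255167104)), (.negSucc (nat_lit 15)), (.ofNat (nat_lit 16)), (.negSucc (nat_lit 12331613125195898994901)), (.ofNat (nat_lit 12331613125195898994902)), (.negSucc (nat_lit 12331613125195898994901)), (.ofNat (nat_lit 12331613125195898994902)), (.ofNat (nat_lit 0))⟩,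
    ⟨nat_lit 2, nat_lit 7, nat_lit 3, (.ofNat (nat_lit 8)), (.negSucc (nat_lit 274877906943999)), (.ofNat (nat_lit 3389688735676225285857016634355455232)), (.negSucc (nat_lit 274836229783359)), (.ofNat (nat_lit 3389174058475838223777215341204430720)), (.negSucc (nat_lit 274877906944015)), (.negSucc (nat_lit 274877906943983)), (.negSucc (nat_lit 12331613125195898994901)), (.ofNat (nat_lit 12331613125195898994902)), (.negSucc (nat_lit 12331613125195898994901)), (.ofNat (nat_lit 12331613125195898994902)), (.ofNat (nat_lit 0))⟩]
  es := [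
    ⟨nat_lit 1, nat_lit 0, (.ofNat (nat_lit 0)), (.ofNat (nat_lit 274877906944000)), (.ofNat (nat_lit 16)), (.ofNat (nat_lit 274877906943984)), (.negSucc (nat_lit 12331613125195898994901)), (.ofNat (nat_lit 0)), (.ofNat (nat_lit 20333648560185996614287180052724203008))⟩,
    ⟨nat_lit 2, nat_lit 1, (.negSucc (nat_lit 549755813887999)), (.ofNat (nat_lit 0)), (.negSucc (nat_lit 549755813887983)), (.negSucc (nat_lit 15)), (.ofNat (nat_lit 12331613125195898994902)), (.ofNat (nat_lit 0)), (.ofNat (nat_lit 20334981633642344587462794212655523584))⟩,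
    ⟨nat_lit 2, nat_lit 3, (.negSucc (nat_lit 549755813887999)), (.ofNat (nat_lit 0)), (.negSucc (nat_lit 549755813887983)), (.negSucc (nat_lit 15)), (.negSucc (nat_lit 12331613125195898994901)), (.ofNat (nat_lit 0)), (.ofNat (nat_lit 6778188275089028978399707860587394816))⟩,
    ⟨nat_lit 7, nat_lit 3, (.negSucc (nat_lit 274877906943999)), (.ofNat (nat_lit 0)), (.negSucc (nat_lit 274877906943983)), (.negSucc (nat_lit 15)), (.ofNat (nat_lit 12331613125195898994902)), (.ofNat (nat_lit 0)), (.ofNat (nat_lit 6778348116951676447554430682408861440))⟩,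
    ⟨nat_lit 4, nat_lit 5, (.ofNat (nat_lit 0)), (.ofNat (nat_lit 549755813888000)), (.ofNat (nat_lit 16)), (.ofNat (nat_lit 549755813887984)), (.ofNat (nat_lit 12331613125195898994902)), (.ofNat (nat_lit 0)), (.negSucc (nat_lit 37153447991686536628175277768703))⟩,
    ⟨nat_lit 6, nat_lit 5, (.ofNat (nat_lit 0)), (.ofNat (nat_lit 549755813888000)), (.ofNat (nat_lit 16)), (.ofNat (nat_lit 549755813887984)), (.negSucc (nat_lit 12331613125195898994901)), (.ofNat (nat_lit 0)), (.ofNat (nat_lit 13556447957469435970289791081525002496))⟩,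
    ⟨nat_lit 6, nat_lit 0, (.ofNat (nat_lit 0)), (.ofNat (nat_lit 274877906944000)), (.ofNat (nat_lit 16)), (.ofNat (nat_lit 274877906943984)), (.ofNat (nat_lit 12331613125195898994902)), (.ofNat (nat_lit 0)), (.ofNat (nat_lit 13556113689796801647420953902985331712))⟩,
    ⟨nat_lit 7, nat_lit 4, (.negSucc (nat_lit 274877906943999)), (.ofNat (nat_lit 0)), (.negSucc (nat_lit 274877906943983)), (.negSucc (nat_lit 15)), (.negSucc (nat_lit 12331613125195898994901)), (.ofNat (nat_lit 0)), (.ofNat (nat_lit 0))⟩]

theorem ok181 : stOK 7 7 S181 = true := by decide +kernel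

def S182 : SD where
  vs := [
    ⟨nat_lit 1, nat_lit 6, nat_lit 0, (.ofNat (nat_lit 8)), (.ofNat (nat_lit 274877906944000)), (.ofNat (nat_lit 17213260142877758647818133861342253952)), (.ofNat (nat_lit 0)), (.ofNat (nat_lit 264819386813503979196736881388846720)), (.ofNat (nat_lit 274877906943984)), (.ofNat (nat_lit 274877906944016)), (.ofNat (nat_lit 12524294580277084916697)), (.negSucc (nat_lit 12524294580277084916696)), (.negSucc (nat_lit 12524294580277084916696)), (.ofNat (nat_lit 12524294580277084916697)), (.ofNat (nat_lit 1156088730487115530770))⟩,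
    ⟨nat_lit 0, nat_lit 1, nat_lit 0, (.ofNat (nat_lit 8)), (.ofNat (nat_lit 0)), (.ofNat (nat_lit 20655912023054406733285557819186221952)), (.ofNat (nat_lit 0)), (.ofNat (nat_lit 317783261893144718973065752833326720)), (.negSucc (nat_lit 15)), (.ofNat (nat_lit 16)), (.ofNat (nat_lit 12524294580277084916697)), (.negSucc (nat_lit 12524294580277084916696)), (.negSucc (nat_lit 12524294580277084916696)), (.ofNat (nat_lit 12524294580277084916697)), (.ofNat (nat_lit 1156088730487115530770))⟩,
    ⟨nat_lit 2, nat_lit 2, nat_lit 1, (.ofNat (nat_lit 8)), (.negSucc (nat_lit 549755813887999)), (.ofNat (nat_lit 13770608262701110562350709903498285952)), (.ofNat (nat_lit 0)), (.ofNat (nat_lit 211855511733863239420408009944366720)), (.negSucc (nat_lit 549755813888015)), (.negSucc (nat_lit 549755813887983)), (.negSucc (nat_lit 12524294580277084916696)), (.ofNat (nat_lit 12524294580277084916697)), (.negSucc (nat_lit 12524294580277084916696)), (.ofNat (nat_lit 12524294580277084916697)), (.ofNat (nat_lit 1156088730487115530770))⟩,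
    ⟨nat_lit 1, nat_lit 3, nat_lit 2, (.ofNat (nat_lit 8)), (.ofNat (nat_lit 0)), (.ofNat (nat_lit 6885304502347814391415861987810349952)), (.ofNat (nat_lit 0)), (.ofNat (nat_lit 105927761574581759867750267055406720)), (.negSucc (nat_lit 15)), (.ofNat (nat_lit 16)), (.ofNat (nat_lit 12524294580277084916697)), (.negSucc (nat_lit 12524294580277084916696)), (.negSucc (nat_lit 12524294580277084916696)), (.ofNat (nat_lit 12524294580277084916697)), (.ofNat (nat_lit 1156088730487115530770))⟩,
    ⟨nat_lit 0, nat_lit 7, nat_lit 4, (.ofNat (nat_lit 8)), (.ofNat (nat_lit 0)), (.ofNat (nat_lit 741994518220481014072122413952)), (.ofNat (nat_lit 0)), (.ofNat (nat_lit 11415300280315092524166446720)), (.negSucc (nat_lit 15)), (.ofNat (nat_lit 16)), (.negSucc (nat_lit 12524294580277084916696)), (.ofNat (nat_lit 12524294580277084916697)), (.negSucc (nat_lit 12524294580277084916696)), (.ofNat (nat_lit 12524294580277084916697)), (.ofNat (nat_lit 1156088730487115530770))⟩,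
    ⟨nat_lit 1, nat_lit 4, nat_lit 5, (.ofNat (nat_lit 8)), (.ofNat (nat_lit 549755813888000)), (.ofNat (nat_lit 6885304502347814391415861987810349952)), (.ofNat (nat_lit 0)), (.ofNat (nat_lit 105927761574581759867750267055406720)), (.ofNat (nat_lit 549755813887984)), (.ofNat (nat_lit 549755813888016)), (.ofNat (nat_lit 12524294580277084916697)), (.negSucc (nat_lit 12524294580277084916696)), (.negSucc (nat_lit 12524294580277084916696)), (.ofNat (nat_lit 12524294580277084916697)), (.ofNat (nat_lit 1156088730487115530770))⟩,
    ⟨nat_lit 2, nat_lit 5, nat_lit 6, (.ofNat (nat_lit 8)), (.ofNat (nat_lit 0)), (.ofNat (nat_lit 13770608262701110562350709903498285952)), (.ofNat (nat_lit 0)), (.ofNat (nat_lit 211855511733863239420408009944366720)), (.negSucc (nat_lit 15)), (.ofNat (nat_lit 16)), (.negSucc (nat_lit 12524294580277084916696)), (.ofNat (nat_lit 12524294580277084916697)), (.negSucc (nat_lit 12524294580277084916696)), (.ofNat (nat_lit 12524294580277084916697)), (.ofNat (nat_lit 1156088730487115530770))⟩,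
    ⟨nat_lit 2, nat_lit 7, nat_lit 3, (.ofNat (nat_lit 8)), (.negSucc (nat_lit 274877906943999)), (.ofNat (nat_lit 3442652622171166305948438029966381952)), (.ofNat (nat_lit 0)), (.ofNat (nat_lit 52963886494941020091421395610926720)), (.negSucc (nat_lit 274877906944015)), (.negSucc (nat_lit 274877906943983)), (.negSucc (nat_lit 12524294580277084916696)), (.ofNat (nat_lit 12524294580277084916697)), (.negSucc (nat_lit 12524294580277084916696)), (.ofNat (nat_lit 12524294580277084916697)), (.ofNat (nat_lit 1156088730487115530770))⟩]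
  es := [
    ⟨nat_lit 1, nat_lit 0, (.ofNat (nat_lit 0)), (.ofNat (nat_lit 274877906944000)), (.ofNat (nat_lit 16)), (.ofNat (nat_lit 274877906943984)), (.negSucc (nat_lit 12524294580277084916696)), (.negSucc (nat_lit 192681455081185921794)), (.ofNat (nat_lit 317783261893144718973065752833326720))⟩,
    ⟨nat_lit 2, nat_lit 1, (.negSucc (nat_lit 549755813887999)), (.ofNat (nat_lit 0)), (.negSucc (nat_lit 549755813887983)), (.negSucc (nat_lit 15)), (.ofNat (nat_lit 12524294580277084916697)), (.ofNat (nat_lit 192681455081185921795)), (.ofNat (nat_lit 317783261893144718973065752833326720))⟩,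
    ⟨nat_lit 2, nat_lit 3, (.negSucc (nat_lit 549755813887999)), (.ofNat (nat_lit 0)), (.negSucc (nat_lit 549755813887983)), (.negSucc (nat_lit 15)), (.negSucc (nat_lit 12524294580277084916696)), (.negSucc (nat_lit 192681455081185921794)), (.ofNat (nat_lit 105927761574581759867750267055406720))⟩,
    ⟨nat_lit 7, nat_lit 3, (.negSucc (nat_lit 274877906943999)), (.ofNat (nat_lit 0)), (.negSucc (nat_lit 274877906943983)), (.negSucc (nat_lit 15)), (.ofNat (nat_lit 12524294580277084916697)), (.ofNat (nat_lit 192681455081185921795)), (.ofNat (nat_lit 105927761574581759867750267055406720))⟩,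
    ⟨nat_lit 4, nat_lit 5, (.ofNat (nat_lit 0)), (.ofNat (nat_lit 549755813888000)), (.ofNat (nat_lit 16)), (.ofNat (nat_lit 549755813887984)), (.ofNat (nat_lit 12524294580277084916697)), (.ofNat (nat_lit 192681455081185921795)), (.ofNat (nat_lit 11415300280315092524166446720))⟩,
    ⟨nat_lit 6, nat_lit 5, (.ofNat (nat_lit 0)), (.ofNat (nat_lit 549755813888000)), (.ofNat (nat_lit 16)), (.ofNat (nat_lit 549755813887984)), (.negSucc (nat_lit 12524294580277084916696)), (.negSucc (nat_lit 192681455081185921794)), (.ofNat (nat_lit 211855511733863239420408009944366720))⟩,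
    ⟨nat_lit 6, nat_lit 0, (.ofNat (nat_lit 0)), (.ofNat (nat_lit 274877906944000)), (.ofNat (nat_lit 16)), (.ofNat (nat_lit 274877906943984)), (.ofNat (nat_lit 12524294580277084916697)), (.ofNat (nat_lit 192681455081185921795)), (.ofNat (nat_lit 211855511733863239420408009944366720))⟩,
    ⟨nat_lit 7, nat_lit 4, (.negSucc (nat_lit 274877906943999)), (.ofNat (nat_lit 0)), (.negSucc (nat_lit 274877906943983)), (.negSucc (nat_lit 15)), (.negSucc (nat_lit 12524294580277084916696)), (.negSucc (nat_lit 192681455081185921794)), (.ofNat (nat_lit 11415300280315092524166446720))⟩]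

theorem ok182 : stOK 7 7 S182 = true := by decide +kernel

def S183 : SD where
  vs := [
    ⟨nat_lit 1, nat_lit 6, nat_lit 0, (.ofNat (nat_lit 16)), (.ofNat (nat_lit 274877906944000)), (.ofNat (nat_lit 17213260142877758647818133861342253952)), (.ofNat (nat_lit 0)), (.ofNat (nat_lit 264819386813503979196736881388846720)), (.ofNat (nat_lit 274877906943968)), (.ofNat (nat_lit 274877906944032)), (.ofNat (nat_lit 12524294580277084916697)), (.negSucc (nat_lit 12524294580277084916696)), (.negSucc (nat_lit 12524294580277084916696)), (.ofNat (nat_lit 12524294580277084916697)), (.ofNat (nat_lit 1156088730487115530770))⟩,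
    ⟨nat_lit 0, nat_lit 1, nat_lit 0, (.ofNat (nat_lit 16)), (.ofNat (nat_lit 0)), (.ofNat (nat_lit 20655912023054406733285557819186221952)), (.ofNat (nat_lit 0)), (.ofNat (nat_lit 317783261893144718973065752833326720)), (.negSucc (nat_lit 31)), (.ofNat (nat_lit 32)), (.ofNat (nat_lit 12524294580277084916697)), (.negSucc (nat_lit 12524294580277084916696)), (.negSucc (nat_lit 12524294580277084916696)), (.ofNat (nat_lit 12524294580277084916697)), (.ofNat (nat_lit 1156088730487115530770))⟩,
    ⟨nat_lit 2, nat_lit 2, nat_lit 1, (.ofNat (nat_lit 16)), (.negSucc (nat_lit 549755813887999)), (.ofNat (nat_lit 13770608262701110562350709903498285952)), (.ofNat (nat_lit 0)), (.ofNat (nat_lit 211855511733863239420408009944366720)), (.negSucc (nat_lit 549755813888031)), (.negSucc (nat_lit 549755813887967)), (.negSucc (nat_lit 12524294580277084916696)), (.ofNat (nat_lit 12524294580277084916697)), (.negSucc (nat_lit 12524294580277084916696)), (.ofNat (nat_lit 12524294580277084916697)), (.ofNat (nat_lit 1156088730487115530770))⟩,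
    ⟨nat_lit 1, nat_lit 3, nat_lit 2, (.ofNat (nat_lit 16)), (.ofNat (nat_lit 0)), (.ofNat (nat_lit 6885304502347814391415861987810349952)), (.ofNat (nat_lit 0)), (.ofNat (nat_lit 105927761574581759867750267055406720)), (.negSucc (nat_lit 31)), (.ofNat (nat_lit 32)), (.ofNat (nat_lit 12524294580277084916697)), (.negSucc (nat_lit 12524294580277084916696)), (.negSucc (nat_lit 12524294580277084916696)), (.ofNat (nat_lit 12524294580277084916697)), (.ofNat (nat_lit 1156088730487115530770))⟩,
    ⟨nat_lit 0, nat_lit 7, nat_lit 4, (.ofNat (nat_lit 16)), (.ofNat (nat_lit 0)), (.ofNat (nat_lit 741994518220481014072122413952)), (.ofNat (nat_lit 0)), (.ofNat (nat_lit 11415300280315092524166446720)), (.negSucc (nat_lit 31)), (.ofNat (nat_lit 32)), (.negSucc (nat_lit 12524294580277084916696)), (.ofNat (nat_lit 12524294580277084916697)), (.negSucc (nat_lit 12524294580277084916696)), (.ofNat (nat_lit 12524294580277084916697)), (.ofNat (nat_lit 1156088730487115530770))⟩,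
    ⟨nat_lit 1, nat_lit 4, nat_lit 5, (.ofNat (nat_lit 16)), (.ofNat (nat_lit 549755813888000)), (.ofNat (nat_lit 6885304502347814391415861987810349952)), (.ofNat (nat_lit 0)), (.ofNat (nat_lit 105927761574581759867750267055406720)), (.ofNat (nat_lit 549755813887968)), (.ofNat (nat_lit 549755813888032)), (.ofNat (nat_lit 12524294580277084916697)), (.negSucc (nat_lit 12524294580277084916696)), (.negSucc (nat_lit 12524294580277084916696)), (.ofNat (nat_lit 12524294580277084916697)), (.ofNat (nat_lit 1156088730487115530770))⟩,
    ⟨nat_lit 2, nat_lit 5, nat_lit 6, (.ofNat (nat_lit 16)), (.ofNat (nat_lit 0)), (.ofNat (nat_lit 13770608262701110562350709903498285952)), (.ofNat (nat_lit 0)), (.ofNat (nat_lit 211855511733863239420408009944366720)), (.negSucc (nat_lit 31)), (.ofNat (nat_lit 32)), (.negSucc (nat_lit 12524294580277084916696)), (.ofNat (nat_lit 12524294580277084916697)), (.negSucc (nat_lit 12524294580277084916696)), (.ofNat (nat_lit 12524294580277084916697)), (.ofNat (nat_lit 1156088730487115530770))⟩,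
    ⟨nat_lit 2, nat_lit 7, nat_lit 3, (.ofNat (nat_lit 16)), (.negSucc (nat_lit 274877906943999)), (.ofNat (nat_lit 3442652622171166305948438029966381952)), (.ofNat (nat_lit 0)), (.ofNat (nat_lit 52963886494941020091421395610926720)), (.negSucc (nat_lit 274877906944031)), (.negSucc (nat_lit 274877906943967)), (.negSucc (nat_lit 12524294580277084916696)), (.ofNat (nat_lit 12524294580277084916697)), (.negSucc (nat_lit 12524294580277084916696)), (.ofNat (nat_lit 12524294580277084916697)), (.ofNat (nat_lit 1156088730487115530770))⟩]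
  es := [
    ⟨nat_lit 1, nat_lit 0, (.ofNat (nat_lit 0)), (.ofNat (nat_lit 274877906944000)), (.ofNat (nat_lit 32)), (.ofNat (nat_lit 274877906943968)), (.negSucc (nat_lit 12524294580277084916696)), (.negSucc (nat_lit 192681455081185921794)), (.ofNat (nat_lit 317783261893144718973065752833326720))⟩,
    ⟨nat_lit 2, nat_lit 1, (.negSucc (nat_lit 549755813887999)), (.ofNat (nat_lit 0)), (.negSucc (nat_lit 549755813887967)), (.negSucc (nat_lit 31)), (.ofNat (nat_lit 12524294580277084916697)), (.ofNat (nat_lit 192681455081185921795)), (.ofNat (nat_lit 317783261893144718973065752833326720))⟩,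
    ⟨nat_lit 2, nat_lit 3, (.negSucc (nat_lit 549755813887999)), (.ofNat (nat_lit 0)), (.negSucc (nat_lit 549755813887967)), (.negSucc (nat_lit 31)), (.negSucc (nat_lit 12524294580277084916696)), (.negSucc (nat_lit 192681455081185921794)), (.ofNat (nat_lit 105927761574581759867750267055406720))⟩,
    ⟨nat_lit 7, nat_lit 3, (.negSucc (nat_lit 274877906943999)), (.ofNat (nat_lit 0)), (.negSucc (nat_lit 274877906943967)), (.negSucc (nat_lit 31)), (.ofNat (nat_lit 12524294580277084916697)), (.ofNat (nat_lit 192681455081185921795)), (.ofNat (nat_lit 105927761574581759867750267055406720))⟩,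
    ⟨nat_lit 4, nat_lit 5, (.ofNat (nat_lit 0)), (.ofNat (nat_lit 549755813888000)), (.ofNat (nat_lit 32)), (.ofNat (nat_lit 549755813887968)), (.ofNat (nat_lit 12524294580277084916697)), (.ofNat (nat_lit 192681455081185921795)), (.ofNat (nat_lit 11415300280315092524166446720))⟩,
    ⟨nat_lit 6, nat_lit 5, (.ofNat (nat_lit 0)), (.ofNat (nat_lit 549755813888000)), (.ofNat (nat_lit 32)), (.ofNat (nat_lit 549755813887968)), (.negSucc (nat_lit 12524294580277084916696)), (.negSucc (nat_lit 192681455081185921794)), (.ofNat (nat_lit 211855511733863239420408009944366720))⟩,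
    ⟨nat_lit 6, nat_lit 0, (.ofNat (nat_lit 0)), (.ofNat (nat_lit 274877906944000)), (.ofNat (nat_lit 32)), (.ofNat (nat_lit 274877906943968)), (.ofNat (nat_lit 12524294580277084916697)), (.ofNat (nat_lit 192681455081185921795)), (.ofNat (nat_lit 211855511733863239420408009944366720))⟩,
    ⟨nat_lit 7, nat_lit 4, (.negSucc (nat_lit 274877906943999)), (.ofNat (nat_lit 0)), (.negSucc (nat_lit 274877906943967)), (.negSucc (nat_lit 31)), (.negSucc (nat_lit 12524294580277084916696)), (.negSucc (nat_lit 192681455081185921794)), (.ofNat (nat_lit 11415300280315092524166446720))⟩]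

theorem ok183 : stOK 7 7 S183 = true := by decide +kernel

def S184 : SD where
  vs := [
    ⟨nat_lit 1, nat_lit 6, nat_lit 0, (.ofNat (nat_lit 16)), (.ofNat (nat_lit 274877906944000)), (.ofNat (nat_lit 17478079529691262627014870742731100672)), (.ofNat (nat_lit 0)), (.ofNat (nat_lit 264819386813503979196736881388846720)), (.ofNat (nat_lit 274877906943968)), (.ofNat (nat_lit 274877906944032)), (.ofNat (nat_lit 12716976035358270838492)), (.negSucc (nat_lit 12716976035358270838491)), (.negSucc (nat_lit 12716976035358270838491)), (.ofNat (nat_lit 12716976035358270838492)), (.ofNat (nat_lit 1156088730487115530770))⟩,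
    ⟨nat_lit 0, nat_lit 1, nat_lit 0, (.ofNat (nat_lit 16)), (.ofNat (nat_lit 0)), (.ofNat (nat_lit 20973695284947551452258623572019548672)), (.ofNat (nat_lit 0)), (.ofNat (nat_lit 317783261893144718973065752833326720)), (.negSucc (nat_lit 31)), (.ofNat (nat_lit 32)), (.ofNat (nat_lit 12716976035358270838492)), (.negSucc (nat_lit 12716976035358270838491)), (.negSucc (nat_lit 12716976035358270838491)), (.ofNat (nat_lit 12716976035358270838492)), (.ofNat (nat_lit 1156088730487115530770))⟩,
    ⟨nat_lit 2, nat_lit 2, nat_lit 1, (.ofNat (nat_lit 16)), (.negSucc (nat_lit 549755813887999)), (.ofNat (nat_lit 13982463774434973801771117913442652672)), (.ofNat (nat_lit 0)), (.ofNat (nat_lit 211855511733863239420408009944366720)), (.negSucc (nat_lit 549755813888031)), (.negSucc (nat_lit 549755813887967)), (.negSucc (nat_lit 12716976035358270838491)), (.ofNat (nat_lit 12716976035358270838492)), (.negSucc (nat_lit 12716976035358270838491)), (.ofNat (nat_lit 12716976035358270838492)), (.ofNat (nat_lit 1156088730487115530770))⟩,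
    ⟨nat_lit 1, nat_lit 3, nat_lit 2, (.ofNat (nat_lit 16)), (.ofNat (nat_lit 0)), (.ofNat (nat_lit 6991232263922396151283612254865756672)), (.ofNat (nat_lit 0)), (.ofNat (nat_lit 105927761574581759867750267055406720)), (.negSucc (nat_lit 31)), (.ofNat (nat_lit 32)), (.ofNat (nat_lit 12716976035358270838492)), (.negSucc (nat_lit 12716976035358270838491)), (.negSucc (nat_lit 12716976035358270838491)), (.ofNat (nat_lit 12716976035358270838492)), (.ofNat (nat_lit 1156088730487115530770))⟩,
    ⟨nat_lit 0, nat_lit 7, nat_lit 4, (.ofNat (nat_lit 16)), (.ofNat (nat_lit 0)), (.ofNat (nat_lit 753409818500796106596288860672)), (.ofNat (nat_lit 0)), (.ofNat (nat_lit 11415300280315092524166446720)), (.negSucc (nat_lit 31)), (.ofNat (nat_lit 32)), (.negSucc (nat_lit 12716976035358270838491)), (.ofNat (nat_lit 12716976035358270838492)), (.negSucc (nat_lit 12716976035358270838491)), (.ofNat (nat_lit 12716976035358270838492)), (.ofNat (nat_lit 1156088730487115530770))⟩,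
    ⟨nat_lit 1, nat_lit 4, nat_lit 5, (.ofNat (nat_lit 16)), (.ofNat (nat_lit 549755813888000)), (.ofNat (nat_lit 6991232263922396151283612254865756672)), (.ofNat (nat_lit 0)), (.ofNat (nat_lit 105927761574581759867750267055406720)), (.ofNat (nat_lit 549755813887968)), (.ofNat (nat_lit 549755813888032)), (.ofNat (nat_lit 12716976035358270838492)), (.negSucc (nat_lit 12716976035358270838491)), (.negSucc (nat_lit 12716976035358270838491)), (.ofNat (nat_lit 12716976035358270838492)), (.ofNat (nat_lit 1156088730487115530770))⟩,
    ⟨nat_lit 2, nat_lit 5, nat_lit 6, (.ofNat (nat_lit 16)), (.ofNat (nat_lit 0)), (.ofNat (nat_lit 13982463774434973801771117913442652672)), (.ofNat (nat_lit 0)), (.ofNat (nat_lit 211855511733863239420408009944366720)), (.negSucc (nat_lit 31)), (.ofNat (nat_lit 32)), (.negSucc (nat_lit 12716976035358270838491)), (.ofNat (nat_lit 12716976035358270838492)), (.negSucc (nat_lit 12716976035358270838491)), (.ofNat (nat_lit 12716976035358270838492)), (.ofNat (nat_lit 1156088730487115530770))⟩,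
    ⟨nat_lit 2, nat_lit 7, nat_lit 3, (.ofNat (nat_lit 16)), (.negSucc (nat_lit 274877906943999)), (.ofNat (nat_lit 3495616508666107326039859425577308672)), (.ofNat (nat_lit 0)), (.ofNat (nat_lit 52963886494941020091421395610926720)), (.negSucc (nat_lit 274877906944031)), (.negSucc (nat_lit 274877906943967)), (.negSucc (nat_lit 12716976035358270838491)), (.ofNat (nat_lit 12716976035358270838492)), (.negSucc (nat_lit 12716976035358270838491)), (.ofNat (nat_lit 12716976035358270838492)), (.ofNat (nat_lit 1156088730487115530770))⟩]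
  es := [
    ⟨nat_lit 1, nat_lit 0, (.ofNat (nat_lit 0)), (.ofNat (nat_lit 274877906944000)), (.ofNat (nat_lit 32)), (.ofNat (nat_lit 274877906943968)), (.negSucc (nat_lit 12716976035358270838491)), (.negSucc (nat_lit 192681455081185921794)), (.ofNat (nat_lit 317783261893144718973065752833326720))⟩,
    ⟨nat_lit 2, nat_lit 1, (.negSucc (nat_lit 549755813887999)), (.ofNat (nat_lit 0)), (.negSucc (nat_lit 549755813887967)), (.negSucc (nat_lit 31)), (.ofNat (nat_lit 12716976035358270838492)), (.ofNat (nat_lit 192681455081185921795)), (.ofNat (nat_lit 317783261893144718973065752833326720))⟩,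
    ⟨nat_lit 2, nat_lit 3, (.negSucc (nat_lit 549755813887999)), (.ofNat (nat_lit 0)), (.negSucc (nat_lit 549755813887967)), (.negSucc (nat_lit 31)), (.negSucc (nat_lit 12716976035358270838491)), (.negSucc (nat_lit 192681455081185921794)), (.ofNat (nat_lit 105927761574581759867750267055406720))⟩,
    ⟨nat_lit 7, nat_lit 3, (.negSucc (nat_lit 274877906943999)), (.ofNat (nat_lit 0)), (.negSucc (nat_lit 274877906943967)), (.negSucc (nat_lit 31)), (.ofNat (nat_lit 12716976035358270838492)), (.ofNat (nat_lit 192681455081185921795)), (.ofNat (nat_lit 105927761574581759867750267055406720))⟩,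
    ⟨nat_lit 4, nat_lit 5, (.ofNat (nat_lit 0)), (.ofNat (nat_lit 549755813888000)), (.ofNat (nat_lit 32)), (.ofNat (nat_lit 549755813887968)), (.ofNat (nat_lit 12716976035358270838492)), (.ofNat (nat_lit 192681455081185921795)), (.ofNat (nat_lit 11415300280315092524166446720))⟩,
    ⟨nat_lit 6, nat_lit 5, (.ofNat (nat_lit 0)), (.ofNat (nat_lit 549755813888000)), (.ofNat (nat_lit 32)), (.ofNat (nat_lit 549755813887968)), (.negSucc (nat_lit 12716976035358270838491)), (.negSucc (nat_lit 192681455081185921794)), (.ofNat (nat_lit 211855511733863239420408009944366720))⟩,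
    ⟨nat_lit 6, nat_lit 0, (.ofNat (nat_lit 0)), (.ofNat (nat_lit 274877906944000)), (.ofNat (nat_lit 32)), (.ofNat (nat_lit 274877906943968)), (.ofNat (nat_lit 12716976035358270838492)), (.ofNat (nat_lit 192681455081185921795)), (.ofNat (nat_lit 211855511733863239420408009944366720))⟩,
    ⟨nat_lit 7, nat_lit 4, (.negSucc (nat_lit 274877906943999)), (.ofNat (nat_lit 0)), (.negSucc (nat_lit 274877906943967)), (.negSucc (nat_lit 31)), (.negSucc (nat_lit 12716976035358270838491)), (.negSucc (nat_lit 192681455081185921794)), (.ofNat (nat_lit 11415300280315092524166446720))⟩]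

theorem ok184 : stOK 7 7 S184 = true := by decide +kernel

def S185 : SD where
  vs := [
    ⟨nat_lit 1, nat_lit 6, nat_lit 0, (.ofNat (nat_lit 16)), (.ofNat (nat_lit 274877906944000)), (.ofNat (nat_lit 150349294985389041227866679518239850933449129984000000)), (.ofNat (nat_lit 0)), (.ofNat (nat_lit 150349294985389023749787149826977223918578387252899328)), (.ofNat (nat_lit 274877906943968)), (.ofNat (nat_lit 274877906944032)), (.ofNat (nat_lit 109393505048090243115954443649024000000)), (.negSucc (nat_lit 109393505048090243115954443649023999999)), (.negSucc (nat_lit 109393505048090243115954443649023999999)), (.ofNat (nat_lit 109393505048090243115954443649024000000)), (.ofNat (nat_lit 656361030288541382393870449744518969048))⟩,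
    ⟨nat_lit 0, nat_lit 1, nat_lit 0, (.ofNat (nat_lit 16)), (.ofNat (nat_lit 0)), (.ofNat (nat_lit 180419152686275985320008341681339561801871785984000000)), (.ofNat (nat_lit 0)), (.ofNat (nat_lit 180419152686275964346313056733788109543248213964451328)), (.negSucc (nat_lit 31)), (.ofNat (nat_lit 32)), (.ofNat (nat_lit 109393505048090243115954443649024000000)), (.negSucc (nat_lit 109393505048090243115954443649023999999)), (.negSucc (nat_lit 109393505048090243115954443649023999999)), (.ofNat (nat_lit 109393505048090243115954443649024000000)), (.ofNat (nat_lit 656361030288541382393870449744518969048))⟩,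
    ⟨nat_lit 2, nat_lit 2, nat_lit 1, (.ofNat (nat_lit 16)), (.negSucc (nat_lit 549755813887999)), (.ofNat (nat_lit 120279437284502097135725017355140140065026473984000000)), (.ofNat (nat_lit 0)), (.ofNat (nat_lit 120279437284502083153261242920166338293908560541347328)), (.negSucc (nat_lit 549755813888031)), (.negSucc (nat_lit 549755813887967)), (.negSucc (nat_lit 109393505048090243115954443649023999999)), (.ofNat (nat_lit 109393505048090243115954443649024000000)), (.negSucc (nat_lit 109393505048090243115954443649023999999)), (.ofNat (nat_lit 109393505048090243115954443649024000000)), (.ofNat (nat_lit 656361030288541382393870449744518969048))⟩,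
    ⟨nat_lit 1, nat_lit 3, nat_lit 2, (.ofNat (nat_lit 16)), (.ofNat (nat_lit 0)), (.ofNat (nat_lit 60139721882728208951441693028940718328181161984000000)), (.ofNat (nat_lit 0)), (.ofNat (nat_lit 60139721882728201960209429106544567044568907118243328)), (.negSucc (nat_lit 31)), (.ofNat (nat_lit 32)), (.ofNat (nat_lit 109393505048090243115954443649024000000)), (.negSucc (nat_lit 109393505048090243115954443649023999999)), (.negSucc (nat_lit 109393505048090243115954443649023999999)), (.ofNat (nat_lit 109393505048090243115954443649024000000)), (.ofNat (nat_lit 656361030288541382393870449744518969048))⟩,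
    ⟨nat_lit 0, nat_lit 7, nat_lit 4, (.ofNat (nat_lit 16)), (.ofNat (nat_lit 0)), (.ofNat (nat_lit 6480954320767158368702741296591335849984000000)), (.ofNat (nat_lit 0)), (.ofNat (nat_lit 6480954320767157615292922795795229253695139328)), (.negSucc (nat_lit 31)), (.ofNat (nat_lit 32)), (.negSucc (nat_lit 109393505048090243115954443649023999999)), (.ofNat (nat_lit 109393505048090243115954443649024000000)), (.negSucc (nat_lit 109393505048090243115954443649023999999)), (.ofNat (nat_lit 109393505048090243115954443649024000000)), (.ofNat (nat_lit 656361030288541382393870449744518969048))⟩,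
    ⟨nat_lit 1, nat_lit 4, nat_lit 5, (.ofNat (nat_lit 16)), (.ofNat (nat_lit 549755813888000)), (.ofNat (nat_lit 60139721882728208951441693028940718328181161984000000)), (.ofNat (nat_lit 0)), (.ofNat (nat_lit 60139721882728201960209429106544567044568907118243328)), (.ofNat (nat_lit 549755813887968)), (.ofNat (nat_lit 549755813888032)), (.ofNat (nat_lit 109393505048090243115954443649024000000)), (.negSucc (nat_lit 109393505048090243115954443649023999999)), (.negSucc (nat_lit 109393505048090243115954443649023999999)), (.ofNat (nat_lit 109393505048090243115954443649024000000)), (.ofNat (nat_lit 656361030288541382393870449744518969048))⟩,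
    ⟨nat_lit 2, nat_lit 5, nat_lit 6, (.ofNat (nat_lit 16)), (.ofNat (nat_lit 0)), (.ofNat (nat_lit 120279437284502097135725017355140140065026473984000000)), (.ofNat (nat_lit 0)), (.ofNat (nat_lit 120279437284502083153261242920166338293908560541347328)), (.negSucc (nat_lit 31)), (.ofNat (nat_lit 32)), (.negSucc (nat_lit 109393505048090243115954443649023999999)), (.ofNat (nat_lit 109393505048090243115954443649024000000)), (.negSucc (nat_lit 109393505048090243115954443649023999999)), (.ofNat (nat_lit 109393505048090243115954443649024000000)), (.ofNat (nat_lit 656361030288541382393870449744518969048))⟩,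
    ⟨nat_lit 2, nat_lit 7, nat_lit 3, (.ofNat (nat_lit 16)), (.negSucc (nat_lit 274877906943999)), (.ofNat (nat_lit 30069864181841264859300030865841007459758505984000000)), (.ofNat (nat_lit 0)), (.ofNat (nat_lit 30069864181841261363683522199733681419899080406691328)), (.negSucc (nat_lit 274877906944031)), (.negSucc (nat_lit 274877906943967)), (.negSucc (nat_lit 109393505048090243115954443649023999999)), (.ofNat (nat_lit 109393505048090243115954443649024000000)), (.negSucc (nat_lit 109393505048090243115954443649023999999)), (.ofNat (nat_lit 109393505048090243115954443649024000000)), (.ofNat (nat_lit 656361030288541382393870449744518969048))⟩]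
  es := [
    ⟨nat_lit 1, nat_lit 0, (.ofNat (nat_lit 0)), (.ofNat (nat_lit 274877906944000)), (.ofNat (nat_lit 32)), (.ofNat (nat_lit 274877906943968)), (.negSucc (nat_lit 109393505048090243115954443649023999999)), (.negSucc (nat_lit 109393505048090230398978408290753161507)), (.ofNat (nat_lit 180419152686275964346313056733788109543248213964451328))⟩,
    ⟨nat_lit 2, nat_lit 1, (.negSucc (nat_lit 549755813887999)), (.ofNat (nat_lit 0)), (.negSucc (nat_lit 549755813887967)), (.negSucc (nat_lit 31)), (.ofNat (nat_lit 109393505048090243115954443649024000000)), (.ofNat (nat_lit 109393505048090230398978408290753161508)), (.ofNat (nat_lit 180419152686275964346313056733788109543248213964451328))⟩,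
    ⟨nat_lit 2, nat_lit 3, (.negSucc (nat_lit 549755813887999)), (.ofNat (nat_lit 0)), (.negSucc (nat_lit 549755813887967)), (.negSucc (nat_lit 31)), (.negSucc (nat_lit 109393505048090243115954443649023999999)), (.negSucc (nat_lit 109393505048090230398978408290753161507)), (.ofNat (nat_lit 60139721882728201960209429106544567044568907118243328))⟩,
    ⟨nat_lit 7, nat_lit 3, (.negSucc (nat_lit 274877906943999)), (.ofNat (nat_lit 0)), (.negSucc (nat_lit 274877906943967)), (.negSucc (nat_lit 31)), (.ofNat (nat_lit 109393505048090243115954443649024000000)), (.ofNat (nat_lit 109393505048090230398978408290753161508)), (.ofNat (nat_lit 60139721882728201960209429106544567044568907118243328))⟩,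
    ⟨nat_lit 4, nat_lit 5, (.ofNat (nat_lit 0)), (.ofNat (nat_lit 549755813888000)), (.ofNat (nat_lit 32)), (.ofNat (nat_lit 549755813887968)), (.ofNat (nat_lit 109393505048090243115954443649024000000)), (.ofNat (nat_lit 109393505048090230398978408290753161508)), (.ofNat (nat_lit 6480954320767157615292922795795229253695139328))⟩,
    ⟨nat_lit 6, nat_lit 5, (.ofNat (nat_lit 0)), (.ofNat (nat_lit 549755813888000)), (.ofNat (nat_lit 32)), (.ofNat (nat_lit 549755813887968)), (.negSucc (nat_lit 109393505048090243115954443649023999999)), (.negSucc (nat_lit 109393505048090230398978408290753161507)), (.ofNat (nat_lit 120279437284502083153261242920166338293908560541347328))⟩,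
    ⟨nat_lit 6, nat_lit 0, (.ofNat (nat_lit 0)), (.ofNat (nat_lit 274877906944000)), (.ofNat (nat_lit 32)), (.ofNat (nat_lit 274877906943968)), (.ofNat (nat_lit 109393505048090243115954443649024000000)), (.ofNat (nat_lit 109393505048090230398978408290753161508)), (.ofNat (nat_lit 120279437284502083153261242920166338293908560541347328))⟩,
    ⟨nat_lit 7, nat_lit 4, (.negSucc (nat_lit 274877906943999)), (.ofNat (nat_lit 0)), (.negSucc (nat_lit 274877906943967)), (.negSucc (nat_lit 31)), (.negSucc (nat_lit 109393505048090243115954443649023999999)), (.negSucc (nat_lit 109393505048090230398978408290753161507)), (.ofNat (nat_lit 6480954320767157615292922795795229253695139328))⟩]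

theorem ok185 : stOK 7 7 S185 = true := by decide +kernel

def S186 : SD where
  vs := [
    ⟨nat_lit 1, nat_lit 6, nat_lit 0, (.ofNat (nat_lit 16)), (.ofNat (nat_lit 274877906944000)), (.ofNat (nat_lit 150349294985389041227866679518239850933449129984000000)), (.ofNat (nat_lit 0)), (.ofNat (nat_lit 150349294985389023749787149826977223918578387252899328)), (.ofNat (nat_lit 274877906943968)), (.ofNat (nat_lit 274877906944032)), (.ofNat (nat_lit 109393505048090243115954443649024000000)), (.negSucc (nat_lit 109393505048090243115954443649023999999)), (.negSucc (nat_lit 109393505048090243115954443649023999999)), (.ofNat (nat_lit 109393505048090243115954443649024000000)), (.ofNat (nat_lit 656361030288541382393870449744518969048))⟩,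
    ⟨nat_lit 0, nat_lit 1, nat_lit 0, (.ofNat (nat_lit 16)), (.ofNat (nat_lit 0)), (.ofNat (nat_lit 180419152686275985320008341681339561801871785984000000)), (.ofNat (nat_lit 0)), (.ofNat (nat_lit 180419152686275964346313056733788109543248213964451328)), (.negSucc (nat_lit 31)), (.ofNat (nat_lit 32)), (.ofNat (nat_lit 109393505048090243115954443649024000000)), (.negSucc (nat_lit 109393505048090243115954443649023999999)), (.negSucc (nat_lit 109393505048090243115954443649023999999)), (.ofNat (nat_lit 109393505048090243115954443649024000000)), (.ofNat (nat_lit 656361030288541382393870449744518969048))⟩,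
    ⟨nat_lit 2, nat_lit 1, nat_lit 2, (.ofNat (nat_lit 16)), (.negSucc (nat_lit 549755813887999)), (.ofNat (nat_lit 120279437284502097135725017355140140065026473984000000)), (.ofNat (nat_lit 0)), (.ofNat (nat_lit 120279437284502083153261242920166338293908560541347328)), (.negSucc (nat_lit 549755813888031)), (.negSucc (nat_lit 549755813887967)), (.ofNat (nat_lit 109393505048090243115954443649024000000)), (.negSucc (nat_lit 109393505048090243115954443649023999999)), (.negSucc (nat_lit 109393505048090243115954443649023999999)), (.ofNat (nat_lit 109393505048090243115954443649024000000)), (.ofNat (nat_lit 656361030288541382393870449744518969048))⟩,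
    ⟨nat_lit 1, nat_lit 3, nat_lit 2, (.ofNat (nat_lit 16)), (.ofNat (nat_lit 0)), (.ofNat (nat_lit 60139721882728208951441693028940718328181161984000000)), (.ofNat (nat_lit 0)), (.ofNat (nat_lit 60139721882728201960209429106544567044568907118243328)), (.negSucc (nat_lit 31)), (.ofNat (nat_lit 32)), (.ofNat (nat_lit 109393505048090243115954443649024000000)), (.negSucc (nat_lit 109393505048090243115954443649023999999)), (.negSucc (nat_lit 109393505048090243115954443649023999999)), (.ofNat (nat_lit 109393505048090243115954443649024000000)), (.ofNat (nat_lit 656361030288541382393870449744518969048))⟩,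
    ⟨nat_lit 0, nat_lit 7, nat_lit 4, (.ofNat (nat_lit 16)), (.ofNat (nat_lit 0)), (.ofNat (nat_lit 6480954320767158368702741296591335849984000000)), (.ofNat (nat_lit 0)), (.ofNat (nat_lit 6480954320767157615292922795795229253695139328)), (.negSucc (nat_lit 31)), (.ofNat (nat_lit 32)), (.negSucc (nat_lit 109393505048090243115954443649023999999)), (.ofNat (nat_lit 109393505048090243115954443649024000000)), (.negSucc (nat_lit 109393505048090243115954443649023999999)), (.ofNat (nat_lit 109393505048090243115954443649024000000)), (.ofNat (nat_lit 656361030288541382393870449744518969048))⟩,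
    ⟨nat_lit 1, nat_lit 4, nat_lit 5, (.ofNat (nat_lit 16)), (.ofNat (nat_lit 549755813888000)), (.ofNat (nat_lit 60139721882728208951441693028940718328181161984000000)), (.ofNat (nat_lit 0)), (.ofNat (nat_lit 60139721882728201960209429106544567044568907118243328)), (.ofNat (nat_lit 549755813887968)), (.ofNat (nat_lit 549755813888032)), (.ofNat (nat_lit 109393505048090243115954443649024000000)), (.negSucc (nat_lit 109393505048090243115954443649023999999)), (.negSucc (nat_lit 109393505048090243115954443649023999999)), (.ofNat (nat_lit 109393505048090243115954443649024000000)), (.ofNat (nat_lit 656361030288541382393870449744518969048))⟩,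
    ⟨nat_lit 2, nat_lit 5, nat_lit 6, (.ofNat (nat_lit 16)), (.ofNat (nat_lit 0)), (.ofNat (nat_lit 120279437284502097135725017355140140065026473984000000)), (.ofNat (nat_lit 0)), (.ofNat (nat_lit 120279437284502083153261242920166338293908560541347328)), (.negSucc (nat_lit 31)), (.ofNat (nat_lit 32)), (.negSucc (nat_lit 109393505048090243115954443649023999999)), (.ofNat (nat_lit 109393505048090243115954443649024000000)), (.negSucc (nat_lit 109393505048090243115954443649023999999)), (.ofNat (nat_lit 109393505048090243115954443649024000000)), (.ofNat (nat_lit 656361030288541382393870449744518969048))⟩,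
    ⟨nat_lit 2, nat_lit 7, nat_lit 3, (.ofNat (nat_lit 16)), (.negSucc (nat_lit 274877906943999)), (.ofNat (nat_lit 30069864181841264859300030865841007459758505984000000)), (.ofNat (nat_lit 0)), (.ofNat (nat_lit 30069864181841261363683522199733681419899080406691328)), (.negSucc (nat_lit 274877906944031)), (.negSucc (nat_lit 274877906943967)), (.negSucc (nat_lit 109393505048090243115954443649023999999)), (.ofNat (nat_lit 109393505048090243115954443649024000000)), (.negSucc (nat_lit 109393505048090243115954443649023999999)), (.ofNat (nat_lit 109393505048090243115954443649024000000)), (.ofNat (nat_lit 656361030288541382393870449744518969048))⟩]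
  es := [
    ⟨nat_lit 1, nat_lit 0, (.ofNat (nat_lit 0)), (.ofNat (nat_lit 274877906944000)), (.ofNat (nat_lit 32)), (.ofNat (nat_lit 274877906943968)), (.negSucc (nat_lit 109393505048090243115954443649023999999)), (.negSucc (nat_lit 109393505048090230398978408290753161507)), (.ofNat (nat_lit 180419152686275964346313056733788109543248213964451328))⟩,
    ⟨nat_lit 2, nat_lit 1, (.negSucc (nat_lit 549755813887999)), (.ofNat (nat_lit 0)), (.negSucc (nat_lit 549755813887967)), (.negSucc (nat_lit 31)), (.ofNat (nat_lit 109393505048090243115954443649024000000)), (.ofNat (nat_lit 109393505048090230398978408290753161508)), (.ofNat (nat_lit 180419152686275964346313056733788109543248213964451328))⟩,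
    ⟨nat_lit 2, nat_lit 3, (.negSucc (nat_lit 549755813887999)), (.ofNat (nat_lit 0)), (.negSucc (nat_lit 549755813887967)), (.negSucc (nat_lit 31)), (.negSucc (nat_lit 109393505048090243115954443649023999999)), (.negSucc (nat_lit 109393505048090230398978408290753161507)), (.ofNat (nat_lit 60139721882728201960209429106544567044568907118243328))⟩,
    ⟨nat_lit 7, nat_lit 3, (.negSucc (nat_lit 274877906943999)), (.ofNat (nat_lit 0)), (.negSucc (nat_lit 274877906943967)), (.negSucc (nat_lit 31)), (.ofNat (nat_lit 109393505048090243115954443649024000000)), (.ofNat (nat_lit 109393505048090230398978408290753161508)), (.ofNat (nat_lit 60139721882728201960209429106544567044568907118243328))⟩,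
    ⟨nat_lit 4, nat_lit 5, (.ofNat (nat_lit 0)), (.ofNat (nat_lit 549755813888000)), (.ofNat (nat_lit 32)), (.ofNat (nat_lit 549755813887968)), (.ofNat (nat_lit 109393505048090243115954443649024000000)), (.ofNat (nat_lit 109393505048090230398978408290753161508)), (.ofNat (nat_lit 6480954320767157615292922795795229253695139328))⟩,
    ⟨nat_lit 6, nat_lit 5, (.ofNat (nat_lit 0)), (.ofNat (nat_lit 549755813888000)), (.ofNat (nat_lit 32)), (.ofNat (nat_lit 549755813887968)), (.negSucc (nat_lit 109393505048090243115954443649023999999)), (.negSucc (nat_lit 109393505048090230398978408290753161507)), (.ofNat (nat_lit 120279437284502083153261242920166338293908560541347328))⟩,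
    ⟨nat_lit 6, nat_lit 0, (.ofNat (nat_lit 0)), (.ofNat (nat_lit 274877906944000)), (.ofNat (nat_lit 32)), (.ofNat (nat_lit 274877906943968)), (.ofNat (nat_lit 109393505048090243115954443649024000000)), (.ofNat (nat_lit 109393505048090230398978408290753161508)), (.ofNat (nat_lit 120279437284502083153261242920166338293908560541347328))⟩,
    ⟨nat_lit 7, nat_lit 4, (.negSucc (nat_lit 274877906943999)), (.ofNat (nat_lit 0)), (.negSucc (nat_lit 274877906943967)), (.negSucc (nat_lit 31)), (.negSucc (nat_lit 109393505048090243115954443649023999999)), (.negSucc (nat_lit 109393505048090230398978408290753161507)), (.ofNat (nat_lit 6480954320767157615292922795795229253695139328))⟩]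

theorem ok186 : stOK 7 7 S186 = true := by decide +kernel

def S187 : SD where
  vs := [
    ⟨nat_lit 1, nat_lit 6, nat_lit 0, (.ofNat (nat_lit 16)), (.ofNat (nat_lit 274877906944000)), (.ofNat (nat_lit 150349294985389041227866679518239850933449129984000000)), (.ofNat (nat_lit 0)), (.ofNat (nat_lit 150349294985389023749787149826977223918578387252899328)), (.ofNat (nat_lit 274877906943968)), (.ofNat (nat_lit 274877906944032)), (.ofNat (nat_lit 109393505048090243115954443649024000000)), (.negSucc (nat_lit 109393505048090243115954443649023999999)), (.negSucc (nat_lit 109393505048090243115954443649023999999)), (.ofNat (nat_lit 109393505048090243115954443649024000000)), (.ofNat (nat_lit 656361030288541382393870449744518969048))⟩,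
    ⟨nat_lit 0, nat_lit 1, nat_lit 0, (.ofNat (nat_lit 16)), (.ofNat (nat_lit 0)), (.ofNat (nat_lit 180419152686275985320008341681339561801871785984000000)), (.ofNat (nat_lit 0)), (.ofNat (nat_lit 180419152686275964346313056733788109543248213964451328)), (.negSucc (nat_lit 31)), (.ofNat (nat_lit 32)), (.ofNat (nat_lit 109393505048090243115954443649024000000)), (.negSucc (nat_lit 109393505048090243115954443649023999999)), (.negSucc (nat_lit 109393505048090243115954443649023999999)), (.ofNat (nat_lit 109393505048090243115954443649024000000)), (.ofNat (nat_lit 656361030288541382393870449744518969048))⟩,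
    ⟨nat_lit 2, nat_lit 1, nat_lit 2, (.ofNat (nat_lit 16)), (.negSucc (nat_lit 549755813887999)), (.ofNat (nat_lit 120279437284502097135725017355140140065026473984000000)), (.ofNat (nat_lit 0)), (.ofNat (nat_lit 120279437284502083153261242920166338293908560541347328)), (.negSucc (nat_lit 549755813888031)), (.negSucc (nat_lit 549755813887967)), (.ofNat (nat_lit 109393505048090243115954443649024000000)), (.negSucc (nat_lit 109393505048090243115954443649023999999)), (.negSucc (nat_lit 109393505048090243115954443649023999999)), (.ofNat (nat_lit 109393505048090243115954443649024000000)), (.ofNat (nat_lit 656361030288541382393870449744518969048))⟩,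
    ⟨nat_lit 1, nat_lit 3, nat_lit 2, (.ofNat (nat_lit 16)), (.ofNat (nat_lit 0)), (.ofNat (nat_lit 60139721882728208951441693028940718328181161984000000)), (.ofNat (nat_lit 0)), (.ofNat (nat_lit 60139721882728201960209429106544567044568907118243328)), (.negSucc (nat_lit 31)), (.ofNat (nat_lit 32)), (.ofNat (nat_lit 109393505048090243115954443649024000000)), (.negSucc (nat_lit 109393505048090243115954443649023999999)), (.negSucc (nat_lit 109393505048090243115954443649023999999)), (.ofNat (nat_lit 109393505048090243115954443649024000000)), (.ofNat (nat_lit 656361030288541382393870449744518969048))⟩,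
    ⟨nat_lit 0, nat_lit 7, nat_lit 4, (.ofNat (nat_lit 16)), (.ofNat (nat_lit 0)), (.ofNat (nat_lit 6480954320767158368702741296591335849984000000)), (.ofNat (nat_lit 0)), (.ofNat (nat_lit 6480954320767157615292922795795229253695139328)), (.negSucc (nat_lit 31)), (.ofNat (nat_lit 32)), (.negSucc (nat_lit 109393505048090243115954443649023999999)), (.ofNat (nat_lit 109393505048090243115954443649024000000)), (.negSucc (nat_lit 109393505048090243115954443649023999999)), (.ofNat (nat_lit 109393505048090243115954443649024000000)), (.ofNat (nat_lit 656361030288541382393870449744518969048))⟩,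
    ⟨nat_lit 1, nat_lit 4, nat_lit 5, (.ofNat (nat_lit 16)), (.ofNat (nat_lit 549755813888000)), (.ofNat (nat_lit 60139721882728208951441693028940718328181161984000000)), (.ofNat (nat_lit 0)), (.ofNat (nat_lit 60139721882728201960209429106544567044568907118243328)), (.ofNat (nat_lit 549755813887968)), (.ofNat (nat_lit 549755813888032)), (.ofNat (nat_lit 109393505048090243115954443649024000000)), (.negSucc (nat_lit 109393505048090243115954443649023999999)), (.negSucc (nat_lit 109393505048090243115954443649023999999)), (.ofNat (nat_lit 109393505048090243115954443649024000000)), (.ofNat (nat_lit 656361030288541382393870449744518969048))⟩,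
    ⟨nat_lit 2, nat_lit 6, nat_lit 5, (.ofNat (nat_lit 16)), (.ofNat (nat_lit 0)), (.ofNat (nat_lit 120279437284502097135725017355140140065026473984000000)), (.ofNat (nat_lit 0)), (.ofNat (nat_lit 120279437284502083153261242920166338293908560541347328)), (.negSucc (nat_lit 31)), (.ofNat (nat_lit 32)), (.ofNat (nat_lit 109393505048090243115954443649024000000)), (.negSucc (nat_lit 109393505048090243115954443649023999999)), (.negSucc (nat_lit 109393505048090243115954443649023999999)), (.ofNat (nat_lit 109393505048090243115954443649024000000)), (.ofNat (nat_lit 656361030288541382393870449744518969048))⟩,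
    ⟨nat_lit 2, nat_lit 7, nat_lit 3, (.ofNat (nat_lit 16)), (.negSucc (nat_lit 274877906943999)), (.ofNat (nat_lit 30069864181841264859300030865841007459758505984000000)), (.ofNat (nat_lit 0)), (.ofNat (nat_lit 30069864181841261363683522199733681419899080406691328)), (.negSucc (nat_lit 274877906944031)), (.negSucc (nat_lit 274877906943967)), (.negSucc (nat_lit 109393505048090243115954443649023999999)), (.ofNat (nat_lit 109393505048090243115954443649024000000)), (.negSucc (nat_lit 109393505048090243115954443649023999999)), (.ofNat (nat_lit 109393505048090243115954443649024000000)), (.ofNat (nat_lit 656361030288541382393870449744518969048))⟩]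
  es := [
    ⟨nat_lit 1, nat_lit 0, (.ofNat (nat_lit 0)), (.ofNat (nat_lit 274877906944000)), (.ofNat (nat_lit 32)), (.ofNat (nat_lit 274877906943968)), (.negSucc (nat_lit 109393505048090243115954443649023999999)), (.negSucc (nat_lit 109393505048090230398978408290753161507)), (.ofNat (nat_lit 180419152686275964346313056733788109543248213964451328))⟩,
    ⟨nat_lit 2, nat_lit 1, (.negSucc (nat_lit 549755813887999)), (.ofNat (nat_lit 0)), (.negSucc (nat_lit 549755813887967)), (.negSucc (nat_lit 31)), (.ofNat (nat_lit 109393505048090243115954443649024000000)), (.ofNat (nat_lit 109393505048090230398978408290753161508)), (.ofNat (nat_lit 180419152686275964346313056733788109543248213964451328))⟩,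
    ⟨nat_lit 2, nat_lit 3, (.negSucc (nat_lit 549755813887999)), (.ofNat (nat_lit 0)), (.negSucc (nat_lit 549755813887967)), (.negSucc (nat_lit 31)), (.negSucc (nat_lit 109393505048090243115954443649023999999)), (.negSucc (nat_lit 109393505048090230398978408290753161507)), (.ofNat (nat_lit 60139721882728201960209429106544567044568907118243328))⟩,
    ⟨nat_lit 7, nat_lit 3, (.negSucc (nat_lit 274877906943999)), (.ofNat (nat_lit 0)), (.negSucc (nat_lit 274877906943967)), (.negSucc (nat_lit 31)), (.ofNat (nat_lit 109393505048090243115954443649024000000)), (.ofNat (nat_lit 109393505048090230398978408290753161508)), (.ofNat (nat_lit 60139721882728201960209429106544567044568907118243328))⟩,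
    ⟨nat_lit 4, nat_lit 5, (.ofNat (nat_lit 0)), (.ofNat (nat_lit 549755813888000)), (.ofNat (nat_lit 32)), (.ofNat (nat_lit 549755813887968)), (.ofNat (nat_lit 109393505048090243115954443649024000000)), (.ofNat (nat_lit 109393505048090230398978408290753161508)), (.ofNat (nat_lit 6480954320767157615292922795795229253695139328))⟩,
    ⟨nat_lit 6, nat_lit 5, (.ofNat (nat_lit 0)), (.ofNat (nat_lit 549755813888000)), (.ofNat (nat_lit 32)), (.ofNat (nat_lit 549755813887968)), (.negSucc (nat_lit 109393505048090243115954443649023999999)), (.negSucc (nat_lit 109393505048090230398978408290753161507)), (.ofNat (nat_lit 120279437284502083153261242920166338293908560541347328))⟩,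
    ⟨nat_lit 6, nat_lit 0, (.ofNat (nat_lit 0)), (.ofNat (nat_lit 274877906944000)), (.ofNat (nat_lit 32)), (.ofNat (nat_lit 274877906943968)), (.ofNat (nat_lit 109393505048090243115954443649024000000)), (.ofNat (nat_lit 109393505048090230398978408290753161508)), (.ofNat (nat_lit 120279437284502083153261242920166338293908560541347328))⟩,
    ⟨nat_lit 7, nat_lit 4, (.negSucc (nat_lit 274877906943999)), (.ofNat (nat_lit 0)), (.negSucc (nat_lit 274877906943967)), (.negSucc (nat_lit 31)), (.negSucc (nat_lit 109393505048090243115954443649023999999)), (.negSucc (nat_lit 109393505048090230398978408290753161507)), (.ofNat (nat_lit 6480954320767157615292922795795229253695139328))⟩]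

theorem ok187 : stOK 7 7 S187 = true := by decide +kernel

def S188 : SD where
  vs := [
    ⟨nat_lit 1, nat_lit 6, nat_lit 0, (.ofNat (nat_lit 16)), (.ofNat (nat_lit 274877906944000)), (.ofNat (nat_lit 150349294985389041227866679518239850933449129984000000)), (.ofNat (nat_lit 0)), (.ofNat (nat_lit 150349294985389023749787149826977223918578387252899328)), (.ofNat (nat_lit 274877906943968)), (.ofNat (nat_lit 274877906944032)), (.ofNat (nat_lit 109393505048090243115954443649024000000)), (.negSucc (nat_lit 109393505048090243115954443649023999999)), (.negSucc (nat_lit 109393505048090243115954443649023999999)), (.ofNat (nat_lit 109393505048090243115954443649024000000)), (.ofNat (nat_lit 656361030288541382393870449744518969048))⟩,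
    ⟨nat_lit 0, nat_lit 1, nat_lit 0, (.ofNat (nat_lit 16)), (.ofNat (nat_lit 0)), (.ofNat (nat_lit 180419152686275985320008341681339561801871785984000000)), (.ofNat (nat_lit 0)), (.ofNat (nat_lit 180419152686275964346313056733788109543248213964451328)), (.negSucc (nat_lit 31)), (.ofNat (nat_lit 32)), (.ofNat (nat_lit 109393505048090243115954443649024000000)), (.negSucc (nat_lit 109393505048090243115954443649023999999)), (.negSucc (nat_lit 109393505048090243115954443649023999999)), (.ofNat (nat_lit 109393505048090243115954443649024000000)), (.ofNat (nat_lit 656361030288541382393870449744518969048))⟩,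
    ⟨nat_lit 2, nat_lit 1, nat_lit 2, (.ofNat (nat_lit 16)), (.negSucc (nat_lit 549755813887999)), (.ofNat (nat_lit 120279437284502097135725017355140140065026473984000000)), (.ofNat (nat_lit 0)), (.ofNat (nat_lit 120279437284502083153261242920166338293908560541347328)), (.negSucc (nat_lit 549755813888031)), (.negSucc (nat_lit 549755813887967)), (.ofNat (nat_lit 109393505048090243115954443649024000000)), (.negSucc (nat_lit 109393505048090243115954443649023999999)), (.negSucc (nat_lit 109393505048090243115954443649023999999)), (.ofNat (nat_lit 109393505048090243115954443649024000000)), (.ofNat (nat_lit 656361030288541382393870449744518969048))⟩,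
    ⟨nat_lit 1, nat_lit 3, nat_lit 2, (.ofNat (nat_lit 16)), (.ofNat (nat_lit 0)), (.ofNat (nat_lit 60139721882728208951441693028940718328181161984000000)), (.ofNat (nat_lit 0)), (.ofNat (nat_lit 60139721882728201960209429106544567044568907118243328)), (.negSucc (nat_lit 31)), (.ofNat (nat_lit 32)), (.ofNat (nat_lit 109393505048090243115954443649024000000)), (.negSucc (nat_lit 109393505048090243115954443649023999999)), (.negSucc (nat_lit 109393505048090243115954443649023999999)), (.ofNat (nat_lit 109393505048090243115954443649024000000)), (.ofNat (nat_lit 656361030288541382393870449744518969048))⟩,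
    ⟨nat_lit 0, nat_lit 7, nat_lit 4, (.ofNat (nat_lit 16)), (.ofNat (nat_lit 0)), (.ofNat (nat_lit 6480954320767158368702741296591335849984000000)), (.ofNat (nat_lit 0)), (.ofNat (nat_lit 6480954320767157615292922795795229253695139328)), (.negSucc (nat_lit 31)), (.ofNat (nat_lit 32)), (.negSucc (nat_lit 109393505048090243115954443649023999999)), (.ofNat (nat_lit 109393505048090243115954443649024000000)), (.negSucc (nat_lit 109393505048090243115954443649023999999)), (.ofNat (nat_lit 109393505048090243115954443649024000000)), (.ofNat (nat_lit 656361030288541382393870449744518969048))⟩,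
    ⟨nat_lit 1, nat_lit 5, nat_lit 4, (.ofNat (nat_lit 16)), (.ofNat (nat_lit 549755813888000)), (.ofNat (nat_lit 60139721882728208951441693028940718328181161984000000)), (.ofNat (nat_lit 0)), (.ofNat (nat_lit 60139721882728201960209429106544567044568907118243328)), (.ofNat (nat_lit 549755813887968)), (.ofNat (nat_lit 549755813888032)), (.negSucc (nat_lit 109393505048090243115954443649023999999)), (.ofNat (nat_lit 109393505048090243115954443649024000000)), (.negSucc (nat_lit 109393505048090243115954443649023999999)), (.ofNat (nat_lit 109393505048090243115954443649024000000)), (.ofNat (nat_lit 656361030288541382393870449744518969048))⟩,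
    ⟨nat_lit 2, nat_lit 6, nat_lit 5, (.ofNat (nat_lit 16)), (.ofNat (nat_lit 0)), (.ofNat (nat_lit 120279437284502097135725017355140140065026473984000000)), (.ofNat (nat_lit 0)), (.ofNat (nat_lit 120279437284502083153261242920166338293908560541347328)), (.negSucc (nat_lit 31)), (.ofNat (nat_lit 32)), (.ofNat (nat_lit 109393505048090243115954443649024000000)), (.negSucc (nat_lit 109393505048090243115954443649023999999)), (.negSucc (nat_lit 109393505048090243115954443649023999999)), (.ofNat (nat_lit 109393505048090243115954443649024000000)), (.ofNat (nat_lit 656361030288541382393870449744518969048))⟩,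
    ⟨nat_lit 2, nat_lit 7, nat_lit 3, (.ofNat (nat_lit 16)), (.negSucc (nat_lit 274877906943999)), (.ofNat (nat_lit 30069864181841264859300030865841007459758505984000000)), (.ofNat (nat_lit 0)), (.ofNat (nat_lit 30069864181841261363683522199733681419899080406691328)), (.negSucc (nat_lit 274877906944031)), (.negSucc (nat_lit 274877906943967)), (.negSucc (nat_lit 109393505048090243115954443649023999999)), (.ofNat (nat_lit 109393505048090243115954443649024000000)), (.negSucc (nat_lit 109393505048090243115954443649023999999)), (.ofNat (nat_lit 109393505048090243115954443649024000000)), (.ofNat (nat_lit 656361030288541382393870449744518969048))⟩]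
  es := [
    ⟨nat_lit 1, nat_lit 0, (.ofNat (nat_lit 0)), (.ofNat (nat_lit 274877906944000)), (.ofNat (nat_lit 32)), (.ofNat (nat_lit 274877906943968)), (.negSucc (nat_lit 109393505048090243115954443649023999999)), (.negSucc (nat_lit 109393505048090230398978408290753161507)), (.ofNat (nat_lit 180419152686275964346313056733788109543248213964451328))⟩,
    ⟨nat_lit 2, nat_lit 1, (.negSucc (nat_lit 549755813887999)), (.ofNat (nat_lit 0)), (.negSucc (nat_lit 549755813887967)), (.negSucc (nat_lit 31)), (.ofNat (nat_lit 109393505048090243115954443649024000000)), (.ofNat (nat_lit 109393505048090230398978408290753161508)), (.ofNat (nat_lit 180419152686275964346313056733788109543248213964451328))⟩,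
    ⟨nat_lit 2, nat_lit 3, (.negSucc (nat_lit 549755813887999)), (.ofNat (nat_lit 0)), (.negSucc (nat_lit 549755813887967)), (.negSucc (nat_lit 31)), (.negSucc (nat_lit 109393505048090243115954443649023999999)), (.negSucc (nat_lit 109393505048090230398978408290753161507)), (.ofNat (nat_lit 60139721882728201960209429106544567044568907118243328))⟩,
    ⟨nat_lit 7, nat_lit 3, (.negSucc (nat_lit 274877906943999)), (.ofNat (nat_lit 0)), (.negSucc (nat_lit 274877906943967)), (.negSucc (nat_lit 31)), (.ofNat (nat_lit 109393505048090243115954443649024000000)), (.ofNat (nat_lit 109393505048090230398978408290753161508)), (.ofNat (nat_lit 60139721882728201960209429106544567044568907118243328))⟩,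
    ⟨nat_lit 4, nat_lit 5, (.ofNat (nat_lit 0)), (.ofNat (nat_lit 549755813888000)), (.ofNat (nat_lit 32)), (.ofNat (nat_lit 549755813887968)), (.ofNat (nat_lit 109393505048090243115954443649024000000)), (.ofNat (nat_lit 109393505048090230398978408290753161508)), (.ofNat (nat_lit 6480954320767157615292922795795229253695139328))⟩,
    ⟨nat_lit 6, nat_lit 5, (.ofNat (nat_lit 0)), (.ofNat (nat_lit 549755813888000)), (.ofNat (nat_lit 32)), (.ofNat (nat_lit 549755813887968)), (.negSucc (nat_lit 109393505048090243115954443649023999999)), (.negSucc (nat_lit 109393505048090230398978408290753161507)), (.ofNat (nat_lit 120279437284502083153261242920166338293908560541347328))⟩,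
    ⟨nat_lit 6, nat_lit 0, (.ofNat (nat_lit 0)), (.ofNat (nat_lit 274877906944000)), (.ofNat (nat_lit 32)), (.ofNat (nat_lit 274877906943968)), (.ofNat (nat_lit 109393505048090243115954443649024000000)), (.ofNat (nat_lit 109393505048090230398978408290753161508)), (.ofNat (nat_lit 120279437284502083153261242920166338293908560541347328))⟩,
    ⟨nat_lit 7, nat_lit 4, (.negSucc (nat_lit 274877906943999)), (.ofNat (nat_lit 0)), (.negSucc (nat_lit 274877906943967)), (.negSucc (nat_lit 31)), (.negSucc (nat_lit 109393505048090243115954443649023999999)), (.negSucc (nat_lit 109393505048090230398978408290753161507)), (.ofNat (nat_lit 6480954320767157615292922795795229253695139328))⟩]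

theorem ok188 : stOK 7 7 S188 = true := by decide +kernel

def S189 : SD where
  vs := [
    ⟨nat_lit 1, nat_lit 6, nat_lit 0, (.ofNat (nat_lit 16)), (.ofNat (nat_lit 274877906944000)), (.ofNat (nat_lit 150499644273893475948327387829055349487791243264000000)), (.ofNat (nat_lit 0)), (.ofNat (nat_lit 4698415265763585014397134712984329823191040000000)), (.ofNat (nat_lit 274877906943968)), (.ofNat (nat_lit 274877906944032)), (.ofNat (nat_lit 109940472573330694331534215867269120000)), (.negSucc (nat_lit 109940472573330694331534215867269119999)), (.negSucc (nat_lit 109940472573330694331534215867269119999)), (.ofNat (nat_lit 109940472573330694331534215867269120000)), (.ofNat (nat_lit 102556410982584602921207290920960000))⟩,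
    ⟨nat_lit 0, nat_lit 1, nat_lit 0, (.ofNat (nat_lit 16)), (.ofNat (nat_lit 0)), (.ofNat (nat_lit 180719851263284854760929758302970558910556012544000000)), (.ofNat (nat_lit 0)), (.ofNat (nat_lit 9396830531527170028794269425968659646382080000000)), (.negSucc (nat_lit 31)), (.ofNat (nat_lit 32)), (.ofNat (nat_lit 109940472573330694331534215867269120000)), (.negSucc (nat_lit 109940472573330694331534215867269119999)), (.negSucc (nat_lit 109940472573330694331534215867269119999)), (.ofNat (nat_lit 109940472573330694331534215867269120000)), (.ofNat (nat_lit 102556410982584602921207290920960000))⟩,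
    ⟨nat_lit 2, nat_lit 1, nat_lit 2, (.ofNat (nat_lit 16)), (.negSucc (nat_lit 549755813887999)), (.ofNat (nat_lit 120279437284502097135725017355140140065026473984000000)), (.ofNat (nat_lit 0)), (.ofNat (nat_lit 0)), (.negSucc (nat_lit 549755813888031)), (.negSucc (nat_lit 549755813887967)), (.ofNat (nat_lit 109940472573330694331534215867269120000)), (.negSucc (nat_lit 109940472573330694331534215867269119999)), (.negSucc (nat_lit 109940472573330694331534215867269119999)), (.ofNat (nat_lit 109940472573330694331534215867269120000)), (.ofNat (nat_lit 102556410982584602921207290920960000))⟩,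
    ⟨nat_lit 1, nat_lit 3, nat_lit 2, (.ofNat (nat_lit 16)), (.ofNat (nat_lit 0)), (.ofNat (nat_lit 59839023305719339510520276407309721219496935424000000)), (.ofNat (nat_lit 0)), (.negSucc (nat_lit 9396830531527170028794269425968659646382079999999)), (.negSucc (nat_lit 31)), (.ofNat (nat_lit 32)), (.ofNat (nat_lit 109940472573330694331534215867269120000)), (.negSucc (nat_lit 109940472573330694331534215867269119999)), (.negSucc (nat_lit 109940472573330694331534215867269119999)), (.ofNat (nat_lit 109940472573330694331534215867269120000)), (.ofNat (nat_lit 102556410982584602921207290920960000))⟩,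
    ⟨nat_lit 0, nat_lit 7, nat_lit 4, (.ofNat (nat_lit 16)), (.ofNat (nat_lit 0)), (.negSucc (nat_lit 601390673063418114684464540520697626032603135999999)), (.ofNat (nat_lit 0)), (.negSucc (nat_lit 18793661063054340057588538851937319292764159999999)), (.negSucc (nat_lit 31)), (.ofNat (nat_lit 32)), (.negSucc (nat_lit 109940472573330694331534215867269119999)), (.ofNat (nat_lit 109940472573330694331534215867269120000)), (.negSucc (nat_lit 109940472573330694331534215867269119999)), (.ofNat (nat_lit 109940472573330694331534215867269120000)), (.ofNat (nat_lit 102556410982584602921207290920960000))⟩,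
    ⟨nat_lit 1, nat_lit 5, nat_lit 4, (.ofNat (nat_lit 16)), (.ofNat (nat_lit 549755813888000)), (.ofNat (nat_lit 59839023305719339510520276407309721219496935424000000)), (.ofNat (nat_lit 0)), (.negSucc (nat_lit 9396830531527170028794269425968659646382079999999)), (.ofNat (nat_lit 549755813887968)), (.ofNat (nat_lit 549755813888032)), (.negSucc (nat_lit 109940472573330694331534215867269119999)), (.ofNat (nat_lit 109940472573330694331534215867269120000)), (.negSucc (nat_lit 109940472573330694331534215867269119999)), (.ofNat (nat_lit 109940472573330694331534215867269120000)), (.ofNat (nat_lit 102556410982584602921207290920960000))⟩,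
    ⟨nat_lit 2, nat_lit 6, nat_lit 5, (.ofNat (nat_lit 16)), (.ofNat (nat_lit 0)), (.ofNat (nat_lit 120279437284502097135725017355140140065026473984000000)), (.ofNat (nat_lit 0)), (.ofNat (nat_lit 0)), (.negSucc (nat_lit 31)), (.ofNat (nat_lit 32)), (.ofNat (nat_lit 109940472573330694331534215867269120000)), (.negSucc (nat_lit 109940472573330694331534215867269119999)), (.negSucc (nat_lit 109940472573330694331534215867269119999)), (.ofNat (nat_lit 109940472573330694331534215867269120000)), (.ofNat (nat_lit 102556410982584602921207290920960000))⟩,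
    ⟨nat_lit 2, nat_lit 7, nat_lit 3, (.ofNat (nat_lit 16)), (.negSucc (nat_lit 274877906943999)), (.ofNat (nat_lit 29618816316327960697917905933394511796732166144000000)), (.ofNat (nat_lit 0)), (.negSucc (nat_lit 14095245797290755043191404138952989469573119999999)), (.negSucc (nat_lit 274877906944031)), (.negSucc (nat_lit 274877906943967)), (.negSucc (nat_lit 109940472573330694331534215867269119999)), (.ofNat (nat_lit 109940472573330694331534215867269120000)), (.negSucc (nat_lit 109940472573330694331534215867269119999)), (.ofNat (nat_lit 109940472573330694331534215867269120000)), (.ofNat (nat_lit 102556410982584602921207290920960000))⟩]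
  es := [
    ⟨nat_lit 1, nat_lit 0, (.ofNat (nat_lit 0)), (.ofNat (nat_lit 274877906944000)), (.ofNat (nat_lit 32)), (.ofNat (nat_lit 274877906943968)), (.negSucc (nat_lit 109940472573330694331534215867269119999)), (.negSucc (nat_lit 17092735163764100486867881820159999)), (.ofNat (nat_lit 9396830531527170028794269425968659646382080000000))⟩,
    ⟨nat_lit 2, nat_lit 1, (.negSucc (nat_lit 549755813887999)), (.ofNat (nat_lit 0)), (.negSucc (nat_lit 549755813887967)), (.negSucc (nat_lit 31)), (.ofNat (nat_lit 109940472573330694331534215867269120000)), (.ofNat (nat_lit 17092735163764100486867881820160000)), (.ofNat (nat_lit 9396830531527170028794269425968659646382080000000))⟩,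
    ⟨nat_lit 2, nat_lit 3, (.negSucc (nat_lit 549755813887999)), (.ofNat (nat_lit 0)), (.negSucc (nat_lit 549755813887967)), (.negSucc (nat_lit 31)), (.negSucc (nat_lit 109940472573330694331534215867269119999)), (.negSucc (nat_lit 17092735163764100486867881820159999)), (.negSucc (nat_lit 9396830531527170028794269425968659646382079999999))⟩,
    ⟨nat_lit 7, nat_lit 3, (.negSucc (nat_lit 274877906943999)), (.ofNat (nat_lit 0)), (.negSucc (nat_lit 274877906943967)), (.negSucc (nat_lit 31)), (.ofNat (nat_lit 109940472573330694331534215867269120000)), (.ofNat (nat_lit 17092735163764100486867881820160000)), (.negSucc (nat_lit 9396830531527170028794269425968659646382079999999))⟩,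
    ⟨nat_lit 4, nat_lit 5, (.ofNat (nat_lit 0)), (.ofNat (nat_lit 549755813888000)), (.ofNat (nat_lit 32)), (.ofNat (nat_lit 549755813887968)), (.ofNat (nat_lit 109940472573330694331534215867269120000)), (.ofNat (nat_lit 17092735163764100486867881820160000)), (.negSucc (nat_lit 18793661063054340057588538851937319292764159999999))⟩,
    ⟨nat_lit 6, nat_lit 5, (.ofNat (nat_lit 0)), (.ofNat (nat_lit 549755813888000)), (.ofNat (nat_lit 32)), (.ofNat (nat_lit 549755813887968)), (.negSucc (nat_lit 109940472573330694331534215867269119999)), (.negSucc (nat_lit 17092735163764100486867881820159999)), (.ofNat (nat_lit 0))⟩,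
    ⟨nat_lit 6, nat_lit 0, (.ofNat (nat_lit 0)), (.ofNat (nat_lit 274877906944000)), (.ofNat (nat_lit 32)), (.ofNat (nat_lit 274877906943968)), (.ofNat (nat_lit 109940472573330694331534215867269120000)), (.ofNat (nat_lit 17092735163764100486867881820160000)), (.ofNat (nat_lit 0))⟩,
    ⟨nat_lit 7, nat_lit 4, (.negSucc (nat_lit 274877906943999)), (.ofNat (nat_lit 0)), (.negSucc (nat_lit 274877906943967)), (.negSucc (nat_lit 31)), (.negSucc (nat_lit 109940472573330694331534215867269119999)), (.negSucc (nat_lit 17092735163764100486867881820159999)), (.negSucc (nat_lit 18793661063054340057588538851937319292764159999999))⟩]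

theorem ok189 : stOK 7 7 S189 = true := by decide +kernel

def S190 : SD where
  vs := [
    ⟨nat_lit 1, nat_lit 6, nat_lit 0, (.ofNat (nat_lit 16)), (.ofNat (nat_lit 274877906944000)), (.ofNat (nat_lit 150499644273893475948327387829055349487791243264000000)), (.ofNat (nat_lit 0)), (.ofNat (nat_lit 4698415265763585014397134712984329823191040000000)), (.ofNat (nat_lit 274877906943968)), (.ofNat (nat_lit 274877906944032)), (.ofNat (nat_lit 109940472573330694331534215867269120000)), (.negSucc (nat_lit 109940472573330694331534215867269119999)), (.negSucc (nat_lit 109940472573330694331534215867269119999)), (.ofNat (nat_lit 109940472573330694331534215867269120000)), (.ofNat (nat_lit 102556410982584602921207290920960000))⟩,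
    ⟨nat_lit 0, nat_lit 8, nat_lit 0, (.ofNat (nat_lit 16)), (.ofNat (nat_lit 0)), (.ofNat (nat_lit 180719851263284854760929758302970558910556012544000000)), (.ofNat (nat_lit 0)), (.ofNat (nat_lit 9396830531527170028794269425968659646382080000000)), (.negSucc (nat_lit 31)), (.ofNat (nat_lit 32)), (.ofNat (nat_lit 109940472573330694331534215867269120000)), (.negSucc (nat_lit 109940472573330694331534215867269119999)), (.negSucc (nat_lit 109940472573330694331534215867269119999)), (.ofNat (nat_lit 109940472573330694331534215867269120000)), (.ofNat (nat_lit 102556410982584602921207290920960000))⟩,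
    ⟨nat_lit 2, nat_lit 1, nat_lit 2, (.ofNat (nat_lit 16)), (.negSucc (nat_lit 549755813887999)), (.ofNat (nat_lit 120279437284502097135725017355140140065026473984000000)), (.ofNat (nat_lit 0)), (.ofNat (nat_lit 0)), (.negSucc (nat_lit 549755813888031)), (.negSucc (nat_lit 549755813887967)), (.ofNat (nat_lit 109940472573330694331534215867269120000)), (.negSucc (nat_lit 109940472573330694331534215867269119999)), (.negSucc (nat_lit 109940472573330694331534215867269119999)), (.ofNat (nat_lit 109940472573330694331534215867269120000)), (.ofNat (nat_lit 102556410982584602921207290920960000))⟩,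
    ⟨nat_lit 1, nat_lit 3, nat_lit 2, (.ofNat (nat_lit 16)), (.ofNat (nat_lit 0)), (.ofNat (nat_lit 59839023305719339510520276407309721219496935424000000)), (.ofNat (nat_lit 0)), (.negSucc (nat_lit 9396830531527170028794269425968659646382079999999)), (.negSucc (nat_lit 31)), (.ofNat (nat_lit 32)), (.ofNat (nat_lit 109940472573330694331534215867269120000)), (.negSucc (nat_lit 109940472573330694331534215867269119999)), (.negSucc (nat_lit 109940472573330694331534215867269119999)), (.ofNat (nat_lit 109940472573330694331534215867269120000)), (.ofNat (nat_lit 102556410982584602921207290920960000))⟩,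
    ⟨nat_lit 0, nat_lit 7, nat_lit 4, (.ofNat (nat_lit 16)), (.ofNat (nat_lit 0)), (.negSucc (nat_lit 601390673063418114684464540520697626032603135999999)), (.ofNat (nat_lit 0)), (.negSucc (nat_lit 18793661063054340057588538851937319292764159999999)), (.negSucc (nat_lit 31)), (.ofNat (nat_lit 32)), (.negSucc (nat_lit 109940472573330694331534215867269119999)), (.ofNat (nat_lit 109940472573330694331534215867269120000)), (.negSucc (nat_lit 109940472573330694331534215867269119999)), (.ofNat (nat_lit 109940472573330694331534215867269120000)), (.ofNat (nat_lit 102556410982584602921207290920960000))⟩,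
    ⟨nat_lit 1, nat_lit 5, nat_lit 4, (.ofNat (nat_lit 16)), (.ofNat (nat_lit 549755813888000)), (.ofNat (nat_lit 59839023305719339510520276407309721219496935424000000)), (.ofNat (nat_lit 0)), (.negSucc (nat_lit 9396830531527170028794269425968659646382079999999)), (.ofNat (nat_lit 549755813887968)), (.ofNat (nat_lit 549755813888032)), (.negSucc (nat_lit 109940472573330694331534215867269119999)), (.ofNat (nat_lit 109940472573330694331534215867269120000)), (.negSucc (nat_lit 109940472573330694331534215867269119999)), (.ofNat (nat_lit 109940472573330694331534215867269120000)), (.ofNat (nat_lit 102556410982584602921207290920960000))⟩,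
    ⟨nat_lit 2, nat_lit 6, nat_lit 5, (.ofNat (nat_lit 16)), (.ofNat (nat_lit 0)), (.ofNat (nat_lit 120279437284502097135725017355140140065026473984000000)), (.ofNat (nat_lit 0)), (.ofNat (nat_lit 0)), (.negSucc (nat_lit 31)), (.ofNat (nat_lit 32)), (.ofNat (nat_lit 109940472573330694331534215867269120000)), (.negSucc (nat_lit 109940472573330694331534215867269119999)), (.negSucc (nat_lit 109940472573330694331534215867269119999)), (.ofNat (nat_lit 109940472573330694331534215867269120000)), (.ofNat (nat_lit 102556410982584602921207290920960000))⟩,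
    ⟨nat_lit 2, nat_lit 7, nat_lit 3, (.ofNat (nat_lit 16)), (.negSucc (nat_lit 274877906943999)), (.ofNat (nat_lit 29618816316327960697917905933394511796732166144000000)), (.ofNat (nat_lit 0)), (.negSucc (nat_lit 14095245797290755043191404138952989469573119999999)), (.negSucc (nat_lit 274877906944031)), (.negSucc (nat_lit 274877906943967)), (.negSucc (nat_lit 109940472573330694331534215867269119999)), (.ofNat (nat_lit 109940472573330694331534215867269120000)), (.negSucc (nat_lit 109940472573330694331534215867269119999)), (.ofNat (nat_lit 109940472573330694331534215867269120000)), (.ofNat (nat_lit 102556410982584602921207290920960000))⟩,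
    ⟨nat_lit 0, nat_lit 1, nat_lit 8, (.ofNat (nat_lit 16)), (.negSucc (nat_lit 274877906943999)), (.ofNat (nat_lit 150499644273893475948327387829055349487791243264000000)), (.ofNat (nat_lit 0)), (.ofNat (nat_lit 4698415265763585014397134712984329823191040000000)), (.negSucc (nat_lit 274877906944031)), (.negSucc (nat_lit 274877906943967)), (.ofNat (nat_lit 109940472573330694331534215867269120000)), (.ofNat (nat_lit 109940472573330694331534215867269120000)), (.ofNat (nat_lit 109940472573330694331534215867269120000)), (.ofNat (nat_lit 109940472573330694331534215867269120000)), (.ofNat (nat_lit 34185470327528200973735763640320000))⟩]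
  es := [
    ⟨nat_lit 1, nat_lit 0, (.ofNat (nat_lit 0)), (.ofNat (nat_lit 274877906944000)), (.ofNat (nat_lit 32)), (.ofNat (nat_lit 274877906943968)), (.negSucc (nat_lit 109940472573330694331534215867269119999)), (.negSucc (nat_lit 17092735163764100486867881820159999)), (.ofNat (nat_lit 9396830531527170028794269425968659646382080000000))⟩,
    ⟨nat_lit 2, nat_lit 8, (.negSucc (nat_lit 549755813887999)), (.negSucc (nat_lit 274877906943999)), (.negSucc (nat_lit 549755813887967)), (.negSucc (nat_lit 274877906944031)), (.ofNat (nat_lit 109940472573330694331534215867269120000)), (.ofNat (nat_lit 17092735163764100486867881820160000)), (.ofNat (nat_lit 9396830531527170028794269425968659646382080000000))⟩,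
    ⟨nat_lit 2, nat_lit 3, (.negSucc (nat_lit 549755813887999)), (.ofNat (nat_lit 0)), (.negSucc (nat_lit 549755813887967)), (.negSucc (nat_lit 31)), (.negSucc (nat_lit 109940472573330694331534215867269119999)), (.negSucc (nat_lit 17092735163764100486867881820159999)), (.negSucc (nat_lit 9396830531527170028794269425968659646382079999999))⟩,
    ⟨nat_lit 7, nat_lit 3, (.negSucc (nat_lit 274877906943999)), (.ofNat (nat_lit 0)), (.negSucc (nat_lit 274877906943967)), (.negSucc (nat_lit 31)), (.ofNat (nat_lit 109940472573330694331534215867269120000)), (.ofNat (nat_lit 17092735163764100486867881820160000)), (.negSucc (nat_lit 9396830531527170028794269425968659646382079999999))⟩,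
    ⟨nat_lit 4, nat_lit 5, (.ofNat (nat_lit 0)), (.ofNat (nat_lit 549755813888000)), (.ofNat (nat_lit 32)), (.ofNat (nat_lit 549755813887968)), (.ofNat (nat_lit 109940472573330694331534215867269120000)), (.ofNat (nat_lit 17092735163764100486867881820160000)), (.negSucc (nat_lit 18793661063054340057588538851937319292764159999999))⟩,
    ⟨nat_lit 6, nat_lit 5, (.ofNat (nat_lit 0)), (.ofNat (nat_lit 549755813888000)), (.ofNat (nat_lit 32)), (.ofNat (nat_lit 549755813887968)), (.negSucc (nat_lit 109940472573330694331534215867269119999)), (.negSucc (nat_lit 17092735163764100486867881820159999)), (.ofNat (nat_lit 0))⟩,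
    ⟨nat_lit 6, nat_lit 0, (.ofNat (nat_lit 0)), (.ofNat (nat_lit 274877906944000)), (.ofNat (nat_lit 32)), (.ofNat (nat_lit 274877906943968)), (.ofNat (nat_lit 109940472573330694331534215867269120000)), (.ofNat (nat_lit 17092735163764100486867881820160000)), (.ofNat (nat_lit 0))⟩,
    ⟨nat_lit 7, nat_lit 4, (.negSucc (nat_lit 274877906943999)), (.ofNat (nat_lit 0)), (.negSucc (nat_lit 274877906943967)), (.negSucc (nat_lit 31)), (.negSucc (nat_lit 109940472573330694331534215867269119999)), (.negSucc (nat_lit 17092735163764100486867881820159999)), (.negSucc (nat_lit 18793661063054340057588538851937319292764159999999))⟩,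
    ⟨nat_lit 8, nat_lit 1, (.negSucc (nat_lit 274877906943999)), (.ofNat (nat_lit 0)), (.negSucc (nat_lit 274877906943967)), (.negSucc (nat_lit 31)), (.ofNat (nat_lit 109940472573330694331534215867269120000)), (.ofNat (nat_lit 17092735163764100486867881820160000)), (.ofNat (nat_lit 9396830531527170028794269425968659646382080000000))⟩]

theorem ok190 : stOK 8 8 S190 = true := by decide +kernel

def S191 : SD where
  vs := [
    ⟨nat_lit 1, nat_lit 6, nat_lit 0, (.ofNat (nat_lit 16)), (.ofNat (nat_lit 274877906944000)), (.ofNat (nat_lit 150649993562397910668788096139870848042133356544000000)), (.ofNat (nat_lit 0)), (.ofNat (nat_lit 4698415265763585014397134712984329823191040000000)), (.ofNat (nat_lit 274877906943968)), (.ofNat (nat_lit 274877906944032)), (.ofNat (nat_lit 110487440098571145547113988085514240000)), (.negSucc (nat_lit 110487440098571145547113988085514239999)), (.negSucc (nat_lit 110487440098571145547113988085514239999)), (.ofNat (nat_lit 110487440098571145547113988085514240000)), (.ofNat (nat_lit 102556410982584602921207290920960000))⟩,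
    ⟨nat_lit 0, nat_lit 8, nat_lit 0, (.ofNat (nat_lit 16)), (.ofNat (nat_lit 0)), (.ofNat (nat_lit 181020549840293724201851174924601556019240239104000000)), (.ofNat (nat_lit 0)), (.ofNat (nat_lit 9396830531527170028794269425968659646382080000000)), (.negSucc (nat_lit 31)), (.ofNat (nat_lit 32)), (.ofNat (nat_lit 110487440098571145547113988085514240000)), (.negSucc (nat_lit 110487440098571145547113988085514239999)), (.negSucc (nat_lit 110487440098571145547113988085514239999)), (.ofNat (nat_lit 110487440098571145547113988085514240000)), (.ofNat (nat_lit 102556410982584602921207290920960000))⟩,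
    ⟨nat_lit 2, nat_lit 1, nat_lit 2, (.ofNat (nat_lit 16)), (.negSucc (nat_lit 549755813887999)), (.ofNat (nat_lit 120279437284502097135725017355140140065026473984000000)), (.ofNat (nat_lit 0)), (.ofNat (nat_lit 0)), (.negSucc (nat_lit 549755813888031)), (.negSucc (nat_lit 549755813887967)), (.ofNat (nat_lit 110487440098571145547113988085514240000)), (.negSucc (nat_lit 110487440098571145547113988085514239999)), (.negSucc (nat_lit 110487440098571145547113988085514239999)), (.ofNat (nat_lit 110487440098571145547113988085514240000)), (.ofNat (nat_lit 102556410982584602921207290920960000))⟩,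
    ⟨nat_lit 1, nat_lit 3, nat_lit 2, (.ofNat (nat_lit 16)), (.ofNat (nat_lit 0)), (.ofNat (nat_lit 59538324728710470069598859785678724110812708864000000)), (.ofNat (nat_lit 0)), (.negSucc (nat_lit 9396830531527170028794269425968659646382079999999)), (.negSucc (nat_lit 31)), (.ofNat (nat_lit 32)), (.ofNat (nat_lit 110487440098571145547113988085514240000)), (.negSucc (nat_lit 110487440098571145547113988085514239999)), (.negSucc (nat_lit 110487440098571145547113988085514239999)), (.ofNat (nat_lit 110487440098571145547113988085514240000)), (.ofNat (nat_lit 102556410982584602921207290920960000))⟩,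
    ⟨nat_lit 0, nat_lit 7, nat_lit 4, (.ofNat (nat_lit 16)), (.ofNat (nat_lit 0)), (.negSucc (nat_lit 1202787827081156996527297783782691843401056255999999)), (.ofNat (nat_lit 0)), (.negSucc (nat_lit 18793661063054340057588538851937319292764159999999)), (.negSucc (nat_lit 31)), (.ofNat (nat_lit 32)), (.negSucc (nat_lit 110487440098571145547113988085514239999)), (.ofNat (nat_lit 110487440098571145547113988085514240000)), (.negSucc (nat_lit 110487440098571145547113988085514239999)), (.ofNat (nat_lit 110487440098571145547113988085514240000)), (.ofNat (nat_lit 102556410982584602921207290920960000))⟩,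
    ⟨nat_lit 1, nat_lit 5, nat_lit 4, (.ofNat (nat_lit 16)), (.ofNat (nat_lit 549755813888000)), (.ofNat (nat_lit 59538324728710470069598859785678724110812708864000000)), (.ofNat (nat_lit 0)), (.negSucc (nat_lit 9396830531527170028794269425968659646382079999999)), (.ofNat (nat_lit 549755813887968)), (.ofNat (nat_lit 549755813888032)), (.negSucc (nat_lit 110487440098571145547113988085514239999)), (.ofNat (nat_lit 110487440098571145547113988085514240000)), (.negSucc (nat_lit 110487440098571145547113988085514239999)), (.ofNat (nat_lit 110487440098571145547113988085514240000)), (.ofNat (nat_lit 102556410982584602921207290920960000))⟩,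
    ⟨nat_lit 2, nat_lit 6, nat_lit 5, (.ofNat (nat_lit 16)), (.ofNat (nat_lit 0)), (.ofNat (nat_lit 120279437284502097135725017355140140065026473984000000)), (.ofNat (nat_lit 0)), (.ofNat (nat_lit 0)), (.negSucc (nat_lit 31)), (.ofNat (nat_lit 32)), (.ofNat (nat_lit 110487440098571145547113988085514240000)), (.negSucc (nat_lit 110487440098571145547113988085514239999)), (.negSucc (nat_lit 110487440098571145547113988085514239999)), (.ofNat (nat_lit 110487440098571145547113988085514240000)), (.ofNat (nat_lit 102556410982584602921207290920960000))⟩,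
    ⟨nat_lit 2, nat_lit 7, nat_lit 3, (.ofNat (nat_lit 16)), (.negSucc (nat_lit 274877906943999)), (.ofNat (nat_lit 29167768450814656536535781000948016133705826304000000)), (.ofNat (nat_lit 0)), (.negSucc (nat_lit 14095245797290755043191404138952989469573119999999)), (.negSucc (nat_lit 274877906944031)), (.negSucc (nat_lit 274877906943967)), (.negSucc (nat_lit 110487440098571145547113988085514239999)), (.ofNat (nat_lit 110487440098571145547113988085514240000)), (.negSucc (nat_lit 110487440098571145547113988085514239999)), (.ofNat (nat_lit 110487440098571145547113988085514240000)), (.ofNat (nat_lit 102556410982584602921207290920960000))⟩,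
    ⟨nat_lit 0, nat_lit 1, nat_lit 8, (.ofNat (nat_lit 16)), (.negSucc (nat_lit 274877906943999)), (.ofNat (nat_lit 150649993562397910668788096139870848042133356544000000)), (.ofNat (nat_lit 0)), (.ofNat (nat_lit 4698415265763585014397134712984329823191040000000)), (.negSucc (nat_lit 274877906944031)), (.negSucc (nat_lit 274877906943967)), (.ofNat (nat_lit 110487440098571145547113988085514240000)), (.ofNat (nat_lit 110487440098571145547113988085514240000)), (.ofNat (nat_lit 110487440098571145547113988085514240000)), (.ofNat (nat_lit 110487440098571145547113988085514240000)), (.ofNat (nat_lit 34185470327528200973735763640320000))⟩]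
  es := [
    ⟨nat_lit 1, nat_lit 0, (.ofNat (nat_lit 0)), (.ofNat (nat_lit 274877906944000)), (.ofNat (nat_lit 32)), (.ofNat (nat_lit 274877906943968)), (.negSucc (nat_lit 110487440098571145547113988085514239999)), (.negSucc (nat_lit 17092735163764100486867881820159999)), (.ofNat (nat_lit 9396830531527170028794269425968659646382080000000))⟩,
    ⟨nat_lit 2, nat_lit 8, (.negSucc (nat_lit 549755813887999)), (.negSucc (nat_lit 274877906943999)), (.negSucc (nat_lit 549755813887967)), (.negSucc (nat_lit 274877906944031)), (.ofNat (nat_lit 110487440098571145547113988085514240000)), (.ofNat (nat_lit 17092735163764100486867881820160000)), (.ofNat (nat_lit 9396830531527170028794269425968659646382080000000))⟩,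
    ⟨nat_lit 2, nat_lit 3, (.negSucc (nat_lit 549755813887999)), (.ofNat (nat_lit 0)), (.negSucc (nat_lit 549755813887967)), (.negSucc (nat_lit 31)), (.negSucc (nat_lit 110487440098571145547113988085514239999)), (.negSucc (nat_lit 17092735163764100486867881820159999)), (.negSucc (nat_lit 9396830531527170028794269425968659646382079999999))⟩,
    ⟨nat_lit 7, nat_lit 3, (.negSucc (nat_lit 274877906943999)), (.ofNat (nat_lit 0)), (.negSucc (nat_lit 274877906943967)), (.negSucc (nat_lit 31)), (.ofNat (nat_lit 110487440098571145547113988085514240000)), (.ofNat (nat_lit 17092735163764100486867881820160000)), (.negSucc (nat_lit 9396830531527170028794269425968659646382079999999))⟩,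
    ⟨nat_lit 4, nat_lit 5, (.ofNat (nat_lit 0)), (.ofNat (nat_lit 549755813888000)), (.ofNat (nat_lit 32)), (.ofNat (nat_lit 549755813887968)), (.ofNat (nat_lit 110487440098571145547113988085514240000)), (.ofNat (nat_lit 17092735163764100486867881820160000)), (.negSucc (nat_lit 18793661063054340057588538851937319292764159999999))⟩,
    ⟨nat_lit 6, nat_lit 5, (.ofNat (nat_lit 0)), (.ofNat (nat_lit 549755813888000)), (.ofNat (nat_lit 32)), (.ofNat (nat_lit 549755813887968)), (.negSucc (nat_lit 110487440098571145547113988085514239999)), (.negSucc (nat_lit 17092735163764100486867881820159999)), (.ofNat (nat_lit 0))⟩,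
    ⟨nat_lit 6, nat_lit 0, (.ofNat (nat_lit 0)), (.ofNat (nat_lit 274877906944000)), (.ofNat (nat_lit 32)), (.ofNat (nat_lit 274877906943968)), (.ofNat (nat_lit 110487440098571145547113988085514240000)), (.ofNat (nat_lit 17092735163764100486867881820160000)), (.ofNat (nat_lit 0))⟩,
    ⟨nat_lit 7, nat_lit 4, (.negSucc (nat_lit 274877906943999)), (.ofNat (nat_lit 0)), (.negSucc (nat_lit 274877906943967)), (.negSucc (nat_lit 31)), (.negSucc (nat_lit 110487440098571145547113988085514239999)), (.negSucc (nat_lit 17092735163764100486867881820159999)), (.negSucc (nat_lit 18793661063054340057588538851937319292764159999999))⟩,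
    ⟨nat_lit 8, nat_lit 1, (.negSucc (nat_lit 274877906943999)), (.ofNat (nat_lit 0)), (.negSucc (nat_lit 274877906943967)), (.negSucc (nat_lit 31)), (.ofNat (nat_lit 110487440098571145547113988085514240000)), (.ofNat (nat_lit 17092735163764100486867881820160000)), (.ofNat (nat_lit 9396830531527170028794269425968659646382080000000))⟩]

theorem ok191 : stOK 8 8 S191 = true := by decide +kernel

def S192 : SD where
  vs := [
    ⟨nat_lit 1, nat_lit 6, nat_lit 0, (.ofNat (nat_lit 16)), (.ofNat (nat_lit 274877906944000)), (.ofNat (nat_lit 420978014293371538057141638986137248749253033984000000)), (.ofNat (nat_lit 0)), (.ofNat (nat_lit 4223875323921462927943024106972912511048744960000000)), (.ofNat (nat_lit 274877906943968)), (.ofNat (nat_lit 274877906944032)), (.negSucc (nat_lit 26254441211541658347829066475765759999999)), (.negSucc (nat_lit 26801408736782109563408838694010879999999)), (.negSucc (nat_lit 26801408736782109563408838694010879999999)), (.negSucc (nat_lit 26254441211541658347829066475765759999999)), (.ofNat (nat_lit 834091290521360575558178897060167680000))⟩,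
    ⟨nat_lit 0, nat_lit 8, nat_lit 0, (.ofNat (nat_lit 16)), (.ofNat (nat_lit 0)), (.ofNat (nat_lit 7788093151010672840631848868945566411512803753984000000)), (.ofNat (nat_lit 0)), (.ofNat (nat_lit 118860509393287173694218713969077575867086929920000000)), (.negSucc (nat_lit 31)), (.ofNat (nat_lit 32)), (.negSucc (nat_lit 26801408736782109563408838694010879999999)), (.negSucc (nat_lit 26801408736782109563408838694010879999999)), (.negSucc (nat_lit 26801408736782109563408838694010879999999)), (.negSucc (nat_lit 26801408736782109563408838694010879999999)), (.ofNat (nat_lit 847902220533681968751568145570856960000))⟩,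
    ⟨nat_lit 2, nat_lit 1, nat_lit 2, (.ofNat (nat_lit 16)), (.negSucc (nat_lit 549755813887999)), (.ofNat (nat_lit 120279437284502097135725017355140140065026473984000000)), (.ofNat (nat_lit 0)), (.ofNat (nat_lit 0)), (.negSucc (nat_lit 549755813888031)), (.negSucc (nat_lit 549755813887967)), (.ofNat (nat_lit 54696752524045121557977221824512000000000)), (.ofNat (nat_lit 0)), (.ofNat (nat_lit 0)), (.ofNat (nat_lit 54696752524045121557977221824512000000000)), (.ofNat (nat_lit 3408188835243579052478534427648983040000))⟩,
    ⟨nat_lit 1, nat_lit 3, nat_lit 2, (.ofNat (nat_lit 16)), (.ofNat (nat_lit 0)), (.ofNat (nat_lit 120279437284502097135725017355140140065026473984000000)), (.ofNat (nat_lit 0)), (.ofNat (nat_lit 949079883684244172908221212022834624284590080000000)), (.negSucc (nat_lit 31)), (.ofNat (nat_lit 32)), (.ofNat (nat_lit 10939350504809024311595444364902400000000)), (.ofNat (nat_lit 0)), (.ofNat (nat_lit 0)), (.ofNat (nat_lit 10939350504809024311595444364902400000000)), (.ofNat (nat_lit 673351209041322974579673336423383040000))⟩,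
    ⟨nat_lit 0, nat_lit 7, nat_lit 4, (.ofNat (nat_lit 16)), (.ofNat (nat_lit 0)), (.negSucc (nat_lit 32956564033691136404220103362054541815199895126015999999)), (.ofNat (nat_lit 0)), (.negSucc (nat_lit 514927519466625863237868376004230611302445219839999999)), (.negSucc (nat_lit 31)), (.ofNat (nat_lit 32)), (.negSucc (nat_lit 109393505048090243115954443649023999999999)), (.negSucc (nat_lit 109393505048090243115954443649023999999999)), (.negSucc (nat_lit 109393505048090243115954443649023999999999)), (.negSucc (nat_lit 109393505048090243115954443649023999999999)), (.ofNat (nat_lit 3421999765255900445671923676159672320000))⟩,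
    ⟨nat_lit 1, nat_lit 5, nat_lit 4, (.ofNat (nat_lit 16)), (.ofNat (nat_lit 549755813888000)), (.negSucc (nat_lit 93096279435465024588503427688253963552045207126015999999)), (.ofNat (nat_lit 0)), (.negSucc (nat_lit 1455559652503027110290203539813119410564937809919999999)), (.ofNat (nat_lit 549755813887968)), (.ofNat (nat_lit 549755813888032)), (.negSucc (nat_lit 183234120955551157219223693112115199999999)), (.negSucc (nat_lit 109393505048090243115954443649023999999999)), (.negSucc (nat_lit 183234120955551157219223693112115199999999)), (.negSucc (nat_lit 109393505048090243115954443649023999999999)), (.ofNat (nat_lit 8023227329459886183932862519092183040000))⟩,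
    ⟨nat_lit 2, nat_lit 6, nat_lit 5, (.ofNat (nat_lit 16)), (.ofNat (nat_lit 0)), (.ofNat (nat_lit 7637743862506238120171140558130067857170690473984000000)), (.ofNat (nat_lit 0)), (.ofNat (nat_lit 117460381644089625359928367824608245579776000000000000)), (.negSucc (nat_lit 31)), (.ofNat (nat_lit 32)), (.negSucc (nat_lit 26254441211541658347829066475765759999999)), (.negSucc (nat_lit 183234120955551157219223693112115199999999)), (.negSucc (nat_lit 183234120955551157219223693112115199999999)), (.negSucc (nat_lit 26254441211541658347829066475765759999999)), (.ofNat (nat_lit 5722613547357893314802393097625927680000))⟩,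
    ⟨nat_lit 2, nat_lit 7, nat_lit 3, (.ofNat (nat_lit 16)), (.negSucc (nat_lit 274877906943999)), (.negSucc (nat_lit 2886706332804192312078441198954830946777239126015999999)), (.ofNat (nat_lit 0)), (.negSucc (nat_lit 45560532832109483884609015311809046295483514879999999)), (.negSucc (nat_lit 274877906944031)), (.negSucc (nat_lit 274877906943967)), (.negSucc (nat_lit 109393505048090243115954443649023999999999)), (.ofNat (nat_lit 10939350504809024311595444364902400000000)), (.negSucc (nat_lit 109393505048090243115954443649023999999999)), (.ofNat (nat_lit 10939350504809024311595444364902400000000)), (.ofNat (nat_lit 7168590571271681159589468428084183040000))⟩,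
    ⟨nat_lit 0, nat_lit 1, nat_lit 8, (.ofNat (nat_lit 16)), (.negSucc (nat_lit 274877906943999)), (.ofNat (nat_lit 15155208287727974143206556098904995574276354473984000000)), (.ofNat (nat_lit 0)), (.ofNat (nat_lit 234446223346337128633402625043205073847409704960000000)), (.negSucc (nat_lit 274877906944031)), (.negSucc (nat_lit 274877906943967)), (.ofNat (nat_lit 54696752524045121557977221824512000000000)), (.negSucc (nat_lit 26801408736782109563408838694010879999999)), (.negSucc (nat_lit 26801408736782109563408838694010879999999)), (.ofNat (nat_lit 54696752524045121557977221824512000000000)), (.ofNat (nat_lit 4252638323274180672931755261092167680000))⟩]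
  es := [
    ⟨nat_lit 1, nat_lit 0, (.ofNat (nat_lit 0)), (.ofNat (nat_lit 274877906944000)), (.ofNat (nat_lit 32)), (.ofNat (nat_lit 274877906943968)), (.negSucc (nat_lit 26801408736782109563408838694010879999999)), (.negSucc (nat_lit 417045645260680287779089448530083839999)), (.ofNat (nat_lit 118860509393287173694218713969077575867086929920000000))⟩,
    ⟨nat_lit 2, nat_lit 8, (.negSucc (nat_lit 549755813887999)), (.negSucc (nat_lit 274877906943999)), (.negSucc (nat_lit 549755813887967)), (.negSucc (nat_lit 274877906944031)), (.ofNat (nat_lit 54696752524045121557977221824512000000000)), (.ofNat (nat_lit 852910391936664850194220434944163840000)), (.ofNat (nat_lit 468892446692674257266805250086410147694819409920000000))⟩,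
    ⟨nat_lit 2, nat_lit 3, (.negSucc (nat_lit 549755813887999)), (.ofNat (nat_lit 0)), (.negSucc (nat_lit 549755813887967)), (.negSucc (nat_lit 31)), (.ofNat (nat_lit 0)), (.ofNat (nat_lit 1726366251540174149173656063836160000)), (.ofNat (nat_lit 949079883684244172908221212022834624284590080000000))⟩,
    ⟨nat_lit 7, nat_lit 3, (.negSucc (nat_lit 274877906943999)), (.ofNat (nat_lit 0)), (.negSucc (nat_lit 274877906943967)), (.negSucc (nat_lit 31)), (.ofNat (nat_lit 10939350504809024311595444364902400000000)), (.ofNat (nat_lit 169200985386100830719505162137763840000)), (.ofNat (nat_lit 949079883684244172908221212022834624284590080000000))⟩,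
    ⟨nat_lit 4, nat_lit 5, (.ofNat (nat_lit 0)), (.ofNat (nat_lit 549755813888000)), (.ofNat (nat_lit 32)), (.ofNat (nat_lit 549755813887968)), (.negSucc (nat_lit 109393505048090243115954443649023999999999)), (.negSucc (nat_lit 1710999882627950222835961838079836159999)), (.negSucc (nat_lit 514927519466625863237868376004230611302445219839999999))⟩,
    ⟨nat_lit 6, nat_lit 5, (.ofNat (nat_lit 0)), (.ofNat (nat_lit 549755813888000)), (.ofNat (nat_lit 32)), (.ofNat (nat_lit 549755813887968)), (.negSucc (nat_lit 183234120955551157219223693112115199999999)), (.negSucc (nat_lit 2861306773678946657401196548812963839999)), (.ofNat (nat_lit 117460381644089625359928367824608245579776000000000000))⟩,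
    ⟨nat_lit 6, nat_lit 0, (.ofNat (nat_lit 0)), (.ofNat (nat_lit 274877906944000)), (.ofNat (nat_lit 32)), (.ofNat (nat_lit 274877906943968)), (.negSucc (nat_lit 26254441211541658347829066475765759999999)), (.negSucc (nat_lit 411952010181878585834002819747676159999)), (.ofNat (nat_lit 117460381644089625359928367824608245579776000000000000))⟩,
    ⟨nat_lit 7, nat_lit 4, (.negSucc (nat_lit 274877906943999)), (.ofNat (nat_lit 0)), (.negSucc (nat_lit 274877906943967)), (.negSucc (nat_lit 31)), (.negSucc (nat_lit 109393505048090243115954443649023999999999)), (.negSucc (nat_lit 1707547150124869874537614525952163839999)), (.negSucc (nat_lit 514927519466625863237868376004230611302445219839999999))⟩,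
    ⟨nat_lit 8, nat_lit 1, (.negSucc (nat_lit 274877906943999)), (.ofNat (nat_lit 0)), (.negSucc (nat_lit 274877906943967)), (.negSucc (nat_lit 31)), (.negSucc (nat_lit 26801408736782109563408838694010879999999)), (.negSucc (nat_lit 420498377763760636077436760657756159999)), (.ofNat (nat_lit 118860509393287173694218713969077575867086929920000000))⟩]

theorem ok192 : stOK 8 8 S192 = true := by decide +kernel

def S193 : SD where
  vs := [
    ⟨nat_lit 1, nat_lit 6, nat_lit 0, (.ofNat (nat_lit 16)), (.ofNat (nat_lit 274877906944000)), (.ofNat (nat_lit 421024998446029173907285610333267092047484944384000000)), (.ofNat (nat_lit 0)), (.ofNat (nat_lit 46984152657635850143971347129843298231910400000000)), (.ofNat (nat_lit 274877906943968)), (.ofNat (nat_lit 274877906944032)), (.negSucc (nat_lit 26258543467980961731945914767402598399999)), (.negSucc (nat_lit 26805596456897231768028121325056819199999)), (.negSucc (nat_lit 26805596456897231768028121325056819199999)), (.negSucc (nat_lit 26258543467980961731945914767402598399999)), (.ofNat (nat_lit 8375440230244409238565262091878400000))⟩,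
    ⟨nat_lit 0, nat_lit 8, nat_lit 0, (.ofNat (nat_lit 16)), (.ofNat (nat_lit 0)), (.ofNat (nat_lit 7789291246903442554810520138297377415617717469184000000)), (.ofNat (nat_lit 0)), (.ofNat (nat_lit 1198095892769714178671269351811004104913715200000000)), (.negSucc (nat_lit 31)), (.ofNat (nat_lit 32)), (.negSucc (nat_lit 26805596456897231768028121325056819199999)), (.negSucc (nat_lit 26805596456897231768028121325056819199999)), (.negSucc (nat_lit 26805596456897231768028121325056819199999)), (.negSucc (nat_lit 26805596456897231768028121325056819199999)), (.ofNat (nat_lit 8375440230244409238565262091878400000))⟩,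
    ⟨nat_lit 2, nat_lit 1, nat_lit 2, (.ofNat (nat_lit 16)), (.negSucc (nat_lit 549755813887999)), (.ofNat (nat_lit 120279437284502097135725017355140140065026473984000000)), (.ofNat (nat_lit 0)), (.ofNat (nat_lit 0)), (.negSucc (nat_lit 549755813888031)), (.negSucc (nat_lit 549755813887967)), (.ofNat (nat_lit 54705298891627003608220655765422080000000)), (.ofNat (nat_lit 0)), (.ofNat (nat_lit 0)), (.ofNat (nat_lit 54705298891627003608220655765422080000000)), (.ofNat (nat_lit 34185470327528200973735763640320000000))⟩,
    ⟨nat_lit 1, nat_lit 3, nat_lit 2, (.ofNat (nat_lit 16)), (.ofNat (nat_lit 0)), (.ofNat (nat_lit 120279437284502097135725017355140140065026473984000000)), (.ofNat (nat_lit 0)), (.ofNat (nat_lit 0)), (.negSucc (nat_lit 31)), (.ofNat (nat_lit 32)), (.ofNat (nat_lit 10941059778325400721644131153084416000000)), (.ofNat (nat_lit 0)), (.ofNat (nat_lit 0)), (.ofNat (nat_lit 10941059778325400721644131153084416000000)), (.ofNat (nat_lit 6837094065505640194747152728064000000))⟩,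
    ⟨nat_lit 0, nat_lit 7, nat_lit 4, (.ofNat (nat_lit 16)), (.ofNat (nat_lit 0)), (.negSucc (nat_lit 32961732290483476347735940210238824578005405270015999999)), (.ofNat (nat_lit 0)), (.negSucc (nat_lit 5168256792339943515836848184282762805510143999999999)), (.negSucc (nat_lit 31)), (.ofNat (nat_lit 32)), (.negSucc (nat_lit 109410597783254007216441311530844159999999)), (.negSucc (nat_lit 109410597783254007216441311530844159999999)), (.negSucc (nat_lit 109410597783254007216441311530844159999999)), (.negSucc (nat_lit 109410597783254007216441311530844159999999)), (.ofNat (nat_lit 34185470327528200973735763640320000000))⟩,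
    ⟨nat_lit 1, nat_lit 5, nat_lit 4, (.ofNat (nat_lit 16)), (.ofNat (nat_lit 549755813888000)), (.negSucc (nat_lit 93110844522788891702048058805864214974497099350015999999)), (.ofNat (nat_lit 0)), (.negSucc (nat_lit 14565087323867113544631117610251422451892223999999999)), (.ofNat (nat_lit 549755813887968)), (.ofNat (nat_lit 549755813888032)), (.negSucc (nat_lit 183262751286950462087539196814163967999999)), (.negSucc (nat_lit 109410597783254007216441311530844159999999)), (.negSucc (nat_lit 183262751286950462087539196814163967999999)), (.negSucc (nat_lit 109410597783254007216441311530844159999999)), (.ofNat (nat_lit 80335855269691272288279044554752000000))⟩,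
    ⟨nat_lit 2, nat_lit 6, nat_lit 5, (.ofNat (nat_lit 16)), (.ofNat (nat_lit 0)), (.ofNat (nat_lit 7638918466322679016424739841808313939626488233984000000)), (.ofNat (nat_lit 0)), (.ofNat (nat_lit 1174603816440896253599283678246082455797760000000000)), (.negSucc (nat_lit 31)), (.ofNat (nat_lit 32)), (.negSucc (nat_lit 26258543467980961731945914767402598399999)), (.negSucc (nat_lit 183262751286950462087539196814163967999999)), (.negSucc (nat_lit 183262751286950462087539196814163967999999)), (.negSucc (nat_lit 26258543467980961731945914767402598399999)), (.ofNat (nat_lit 57260662798609736631007404097536000000))⟩,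
    ⟨nat_lit 2, nat_lit 7, nat_lit 3, (.ofNat (nat_lit 16)), (.negSucc (nat_lit 274877906943999)), (.negSucc (nat_lit 2887176174330768670579880912426129379759558230015999999)), (.ofNat (nat_lit 0)), (.negSucc (nat_lit 469841526576358501439713471298432982319103999999999)), (.negSucc (nat_lit 274877906944031)), (.negSucc (nat_lit 274877906943967)), (.negSucc (nat_lit 109410597783254007216441311530844159999999)), (.ofNat (nat_lit 10941059778325400721644131153084416000000)), (.negSucc (nat_lit 109410597783254007216441311530844159999999)), (.ofNat (nat_lit 10941059778325400721644131153084416000000)), (.ofNat (nat_lit 71789487687809222044845103644672000000))⟩,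
    ⟨nat_lit 0, nat_lit 1, nat_lit 8, (.ofNat (nat_lit 16)), (.negSucc (nat_lit 274877906943999)), (.ofNat (nat_lit 15157557495360855935713754666261487739187949993984000000)), (.ofNat (nat_lit 0)), (.ofNat (nat_lit 2349207632881792507198567356492164911595520000000000)), (.negSucc (nat_lit 274877906944031)), (.negSucc (nat_lit 274877906943967)), (.ofNat (nat_lit 54705298891627003608220655765422080000000)), (.negSucc (nat_lit 26805596456897231768028121325056819199999)), (.negSucc (nat_lit 26805596456897231768028121325056819199999)), (.ofNat (nat_lit 54705298891627003608220655765422080000000)), (.ofNat (nat_lit 42560910557772610212301025732198400000))⟩]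
  es := [
    ⟨nat_lit 1, nat_lit 0, (.ofNat (nat_lit 0)), (.ofNat (nat_lit 274877906944000)), (.ofNat (nat_lit 32)), (.ofNat (nat_lit 274877906943968)), (.negSucc (nat_lit 26805596456897231768028121325056819199999)), (.negSucc (nat_lit 4187720115122204619282631045939199999)), (.ofNat (nat_lit 1198095892769714178671269351811004104913715200000000))⟩,
    ⟨nat_lit 2, nat_lit 8, (.negSucc (nat_lit 549755813887999)), (.negSucc (nat_lit 274877906943999)), (.negSucc (nat_lit 549755813887967)), (.negSucc (nat_lit 274877906944031)), (.ofNat (nat_lit 54705298891627003608220655765422080000000)), (.ofNat (nat_lit 8546367581882050243433940910080000000)), (.ofNat (nat_lit 4698415265763585014397134712984329823191040000000000))⟩,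
    ⟨nat_lit 2, nat_lit 3, (.negSucc (nat_lit 549755813887999)), (.ofNat (nat_lit 0)), (.negSucc (nat_lit 549755813887967)), (.negSucc (nat_lit 31)), (.ofNat (nat_lit 0)), (.ofNat (nat_lit 0)), (.ofNat (nat_lit 0))⟩,
    ⟨nat_lit 7, nat_lit 3, (.negSucc (nat_lit 274877906943999)), (.ofNat (nat_lit 0)), (.negSucc (nat_lit 274877906943967)), (.negSucc (nat_lit 31)), (.ofNat (nat_lit 10941059778325400721644131153084416000000)), (.ofNat (nat_lit 1709273516376410048686788182016000000)), (.ofNat (nat_lit 0))⟩,
    ⟨nat_lit 4, nat_lit 5, (.ofNat (nat_lit 0)), (.ofNat (nat_lit 549755813888000)), (.ofNat (nat_lit 32)), (.ofNat (nat_lit 549755813887968)), (.negSucc (nat_lit 109410597783254007216441311530844159999999)), (.negSucc (nat_lit 17092735163764100486867881820159999999)), (.negSucc (nat_lit 5168256792339943515836848184282762805510143999999999))⟩,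
    ⟨nat_lit 6, nat_lit 5, (.ofNat (nat_lit 0)), (.ofNat (nat_lit 549755813888000)), (.ofNat (nat_lit 32)), (.ofNat (nat_lit 549755813887968)), (.negSucc (nat_lit 183262751286950462087539196814163967999999)), (.negSucc (nat_lit 28630331399304868315503702048767999999)), (.ofNat (nat_lit 1174603816440896253599283678246082455797760000000000))⟩,
    ⟨nat_lit 6, nat_lit 0, (.ofNat (nat_lit 0)), (.ofNat (nat_lit 274877906944000)), (.ofNat (nat_lit 32)), (.ofNat (nat_lit 274877906943968)), (.negSucc (nat_lit 26258543467980961731945914767402598399999)), (.negSucc (nat_lit 4102256439303384116848291636838399999)), (.ofNat (nat_lit 1174603816440896253599283678246082455797760000000000))⟩,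
    ⟨nat_lit 7, nat_lit 4, (.negSucc (nat_lit 274877906943999)), (.ofNat (nat_lit 0)), (.negSucc (nat_lit 274877906943967)), (.negSucc (nat_lit 31)), (.negSucc (nat_lit 109410597783254007216441311530844159999999)), (.negSucc (nat_lit 17092735163764100486867881820159999999)), (.negSucc (nat_lit 5168256792339943515836848184282762805510143999999999))⟩,
    ⟨nat_lit 8, nat_lit 1, (.negSucc (nat_lit 274877906943999)), (.ofNat (nat_lit 0)), (.negSucc (nat_lit 274877906943967)), (.negSucc (nat_lit 31)), (.negSucc (nat_lit 26805596456897231768028121325056819199999)), (.negSucc (nat_lit 4187720115122204619282631045939199999)), (.ofNat (nat_lit 1198095892769714178671269351811004104913715200000000))⟩]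

theorem ok193 : stOK 8 8 S193 = true := by decide +kernel

def S194 : SD where
  vs := [
    ⟨nat_lit 1, nat_lit 5, nat_lit 7, (.ofNat (nat_lit 16)), (.ofNat (nat_lit 274877906944000)), (.ofNat (nat_lit 421024998446029173907285610333267092047484944384000000)), (.ofNat (nat_lit 0)), (.ofNat (nat_lit 46984152657635850143971347129843298231910400000000)), (.ofNat (nat_lit 274877906943968)), (.ofNat (nat_lit 274877906944032)), (.negSucc (nat_lit 26258543467980961731945914767402598399999)), (.negSucc (nat_lit 26805596456897231768028121325056819199999)), (.negSucc (nat_lit 26805596456897231768028121325056819199999)), (.negSucc (nat_lit 26258543467980961731945914767402598399999)), (.ofNat (nat_lit 8375440230244409238565262091878400000))⟩,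
    ⟨nat_lit 2, nat_lit 0, nat_lit 1, (.ofNat (nat_lit 16)), (.negSucc (nat_lit 549755813887999)), (.ofNat (nat_lit 120279437284502097135725017355140140065026473984000000)), (.ofNat (nat_lit 0)), (.ofNat (nat_lit 0)), (.negSucc (nat_lit 549755813888031)), (.negSucc (nat_lit 549755813887967)), (.ofNat (nat_lit 54705298891627003608220655765422080000000)), (.ofNat (nat_lit 0)), (.ofNat (nat_lit 0)), (.ofNat (nat_lit 54705298891627003608220655765422080000000)), (.ofNat (nat_lit 34185470327528200973735763640320000000))⟩,
    ⟨nat_lit 1, nat_lit 2, nat_lit 1, (.ofNat (nat_lit 16)), (.ofNat (nat_lit 0)), (.ofNat (nat_lit 120279437284502097135725017355140140065026473984000000)), (.ofNat (nat_lit 0)), (.ofNat (nat_lit 0)), (.negSucc (nat_lit 31)), (.ofNat (nat_lit 32)), (.ofNat (nat_lit 10941059778325400721644131153084416000000)), (.ofNat (nat_lit 0)), (.ofNat (nat_lit 0)), (.ofNat (nat_lit 10941059778325400721644131153084416000000)), (.ofNat (nat_lit 6837094065505640194747152728064000000))⟩,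
    ⟨nat_lit 0, nat_lit 6, nat_lit 3, (.ofNat (nat_lit 16)), (.ofNat (nat_lit 0)), (.negSucc (nat_lit 32961732290483476347735940210238824578005405270015999999)), (.ofNat (nat_lit 0)), (.negSucc (nat_lit 5168256792339943515836848184282762805510143999999999)), (.negSucc (nat_lit 31)), (.ofNat (nat_lit 32)), (.negSucc (nat_lit 109410597783254007216441311530844159999999)), (.negSucc (nat_lit 109410597783254007216441311530844159999999)), (.negSucc (nat_lit 109410597783254007216441311530844159999999)), (.negSucc (nat_lit 109410597783254007216441311530844159999999)), (.ofNat (nat_lit 34185470327528200973735763640320000000))⟩,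
    ⟨nat_lit 1, nat_lit 4, nat_lit 3, (.ofNat (nat_lit 16)), (.ofNat (nat_lit 549755813888000)), (.negSucc (nat_lit 93110844522788891702048058805864214974497099350015999999)), (.ofNat (nat_lit 0)), (.negSucc (nat_lit 14565087323867113544631117610251422451892223999999999)), (.ofNat (nat_lit 549755813887968)), (.ofNat (nat_lit 549755813888032)), (.negSucc (nat_lit 183262751286950462087539196814163967999999)), (.negSucc (nat_lit 109410597783254007216441311530844159999999)), (.negSucc (nat_lit 183262751286950462087539196814163967999999)), (.negSucc (nat_lit 109410597783254007216441311530844159999999)), (.ofNat (nat_lit 80335855269691272288279044554752000000))⟩,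
    ⟨nat_lit 2, nat_lit 5, nat_lit 4, (.ofNat (nat_lit 16)), (.ofNat (nat_lit 0)), (.ofNat (nat_lit 7638918466322679016424739841808313939626488233984000000)), (.ofNat (nat_lit 0)), (.ofNat (nat_lit 1174603816440896253599283678246082455797760000000000)), (.negSucc (nat_lit 31)), (.ofNat (nat_lit 32)), (.negSucc (nat_lit 26258543467980961731945914767402598399999)), (.negSucc (nat_lit 183262751286950462087539196814163967999999)), (.negSucc (nat_lit 183262751286950462087539196814163967999999)), (.negSucc (nat_lit 26258543467980961731945914767402598399999)), (.ofNat (nat_lit 57260662798609736631007404097536000000))⟩,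
    ⟨nat_lit 2, nat_lit 6, nat_lit 2, (.ofNat (nat_lit 16)), (.negSucc (nat_lit 274877906943999)), (.negSucc (nat_lit 2887176174330768670579880912426129379759558230015999999)), (.ofNat (nat_lit 0)), (.negSucc (nat_lit 469841526576358501439713471298432982319103999999999)), (.negSucc (nat_lit 274877906944031)), (.negSucc (nat_lit 274877906943967)), (.negSucc (nat_lit 109410597783254007216441311530844159999999)), (.ofNat (nat_lit 10941059778325400721644131153084416000000)), (.negSucc (nat_lit 109410597783254007216441311530844159999999)), (.ofNat (nat_lit 10941059778325400721644131153084416000000)), (.ofNat (nat_lit 71789487687809222044845103644672000000))⟩,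
    ⟨nat_lit 0, nat_lit 0, nat_lit 7, (.ofNat (nat_lit 16)), (.negSucc (nat_lit 274877906943999)), (.ofNat (nat_lit 15157557495360855935713754666261487739187949993984000000)), (.ofNat (nat_lit 0)), (.ofNat (nat_lit 2349207632881792507198567356492164911595520000000000)), (.negSucc (nat_lit 274877906944031)), (.negSucc (nat_lit 274877906943967)), (.ofNat (nat_lit 54705298891627003608220655765422080000000)), (.negSucc (nat_lit 26805596456897231768028121325056819199999)), (.negSucc (nat_lit 26805596456897231768028121325056819199999)), (.ofNat (nat_lit 54705298891627003608220655765422080000000)), (.ofNat (nat_lit 42560910557772610212301025732198400000))⟩]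
  es := [
    ⟨nat_lit 1, nat_lit 7, (.negSucc (nat_lit 549755813887999)), (.negSucc (nat_lit 274877906943999)), (.negSucc (nat_lit 549755813887967)), (.negSucc (nat_lit 274877906944031)), (.ofNat (nat_lit 54705298891627003608220655765422080000000)), (.ofNat (nat_lit 8546367581882050243433940910080000000)), (.ofNat (nat_lit 4698415265763585014397134712984329823191040000000000))⟩,
    ⟨nat_lit 1, nat_lit 2, (.negSucc (nat_lit 549755813887999)), (.ofNat (nat_lit 0)), (.negSucc (nat_lit 549755813887967)), (.negSucc (nat_lit 31)), (.ofNat (nat_lit 0)), (.ofNat (nat_lit 0)), (.ofNat (nat_lit 0))⟩,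
    ⟨nat_lit 6, nat_lit 2, (.negSucc (nat_lit 274877906943999)), (.ofNat (nat_lit 0)), (.negSucc (nat_lit 274877906943967)), (.negSucc (nat_lit 31)), (.ofNat (nat_lit 10941059778325400721644131153084416000000)), (.ofNat (nat_lit 1709273516376410048686788182016000000)), (.ofNat (nat_lit 0))⟩,
    ⟨nat_lit 3, nat_lit 4, (.ofNat (nat_lit 0)), (.ofNat (nat_lit 549755813888000)), (.ofNat (nat_lit 32)), (.ofNat (nat_lit 549755813887968)), (.negSucc (nat_lit 109410597783254007216441311530844159999999)), (.negSucc (nat_lit 17092735163764100486867881820159999999)), (.negSucc (nat_lit 5168256792339943515836848184282762805510143999999999))⟩,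
    ⟨nat_lit 5, nat_lit 4, (.ofNat (nat_lit 0)), (.ofNat (nat_lit 549755813888000)), (.ofNat (nat_lit 32)), (.ofNat (nat_lit 549755813887968)), (.negSucc (nat_lit 183262751286950462087539196814163967999999)), (.negSucc (nat_lit 28630331399304868315503702048767999999)), (.ofNat (nat_lit 1174603816440896253599283678246082455797760000000000))⟩,
    ⟨nat_lit 5, nat_lit 0, (.ofNat (nat_lit 0)), (.ofNat (nat_lit 274877906944000)), (.ofNat (nat_lit 32)), (.ofNat (nat_lit 274877906943968)), (.negSucc (nat_lit 26258543467980961731945914767402598399999)), (.negSucc (nat_lit 4102256439303384116848291636838399999)), (.ofNat (nat_lit 1174603816440896253599283678246082455797760000000000))⟩,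
    ⟨nat_lit 6, nat_lit 3, (.negSucc (nat_lit 274877906943999)), (.ofNat (nat_lit 0)), (.negSucc (nat_lit 274877906943967)), (.negSucc (nat_lit 31)), (.negSucc (nat_lit 109410597783254007216441311530844159999999)), (.negSucc (nat_lit 17092735163764100486867881820159999999)), (.negSucc (nat_lit 5168256792339943515836848184282762805510143999999999))⟩,
    ⟨nat_lit 7, nat_lit 0, (.negSucc (nat_lit 274877906943999)), (.ofNat (nat_lit 274877906944000)), (.negSucc (nat_lit 274877906943967)), (.ofNat (nat_lit 274877906943968)), (.negSucc (nat_lit 26805596456897231768028121325056819199999)), (.negSucc (nat_lit 4187720115122204619282631045939199999)), (.ofNat (nat_lit 1198095892769714178671269351811004104913715200000000))⟩]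

theorem ok194 : stOK 7 7 S194 = true := by decide +kernel

def S195 : SD where
  vs := [
    ⟨nat_lit 1, nat_lit 4, nat_lit 6, (.ofNat (nat_lit 16)), (.ofNat (nat_lit 274877906944000)), (.ofNat (nat_lit 421024998446029173907285610333267092047484944384000000)), (.ofNat (nat_lit 0)), (.ofNat (nat_lit 46984152657635850143971347129843298231910400000000)), (.ofNat (nat_lit 274877906943968)), (.ofNat (nat_lit 274877906944032)), (.negSucc (nat_lit 26258543467980961731945914767402598399999)), (.negSucc (nat_lit 26805596456897231768028121325056819199999)), (.negSucc (nat_lit 26805596456897231768028121325056819199999)), (.negSucc (nat_lit 26258543467980961731945914767402598399999)), (.ofNat (nat_lit 8375440230244409238565262091878400000))⟩,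
    ⟨nat_lit 2, nat_lit 0, nat_lit 1, (.ofNat (nat_lit 16)), (.negSucc (nat_lit 549755813887999)), (.ofNat (nat_lit 120279437284502097135725017355140140065026473984000000)), (.ofNat (nat_lit 0)), (.ofNat (nat_lit 0)), (.negSucc (nat_lit 549755813888031)), (.negSucc (nat_lit 549755813887967)), (.ofNat (nat_lit 54705298891627003608220655765422080000000)), (.ofNat (nat_lit 0)), (.ofNat (nat_lit 0)), (.ofNat (nat_lit 54705298891627003608220655765422080000000)), (.ofNat (nat_lit 34185470327528200973735763640320000000))⟩,
    ⟨nat_lit 1, nat_lit 2, nat_lit 1, (.ofNat (nat_lit 16)), (.ofNat (nat_lit 0)), (.ofNat (nat_lit 120279437284502097135725017355140140065026473984000000)), (.ofNat (nat_lit 0)), (.ofNat (nat_lit 0)), (.negSucc (nat_lit 31)), (.ofNat (nat_lit 32)), (.ofNat (nat_lit 10941059778325400721644131153084416000000)), (.ofNat (nat_lit 0)), (.ofNat (nat_lit 0)), (.ofNat (nat_lit 10941059778325400721644131153084416000000)), (.ofNat (nat_lit 6837094065505640194747152728064000000))⟩,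
    ⟨nat_lit 1, nat_lit 3, nat_lit 5, (.ofNat (nat_lit 16)), (.ofNat (nat_lit 549755813888000)), (.negSucc (nat_lit 93110844522788891702048058805864214974497099350015999999)), (.ofNat (nat_lit 0)), (.negSucc (nat_lit 14565087323867113544631117610251422451892223999999999)), (.ofNat (nat_lit 549755813887968)), (.ofNat (nat_lit 549755813888032)), (.negSucc (nat_lit 183262751286950462087539196814163967999999)), (.negSucc (nat_lit 109410597783254007216441311530844159999999)), (.negSucc (nat_lit 183262751286950462087539196814163967999999)), (.negSucc (nat_lit 109410597783254007216441311530844159999999)), (.ofNat (nat_lit 80335855269691272288279044554752000000))⟩,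
    ⟨nat_lit 2, nat_lit 4, nat_lit 3, (.ofNat (nat_lit 16)), (.ofNat (nat_lit 0)), (.ofNat (nat_lit 7638918466322679016424739841808313939626488233984000000)), (.ofNat (nat_lit 0)), (.ofNat (nat_lit 1174603816440896253599283678246082455797760000000000)), (.negSucc (nat_lit 31)), (.ofNat (nat_lit 32)), (.negSucc (nat_lit 26258543467980961731945914767402598399999)), (.negSucc (nat_lit 183262751286950462087539196814163967999999)), (.negSucc (nat_lit 183262751286950462087539196814163967999999)), (.negSucc (nat_lit 26258543467980961731945914767402598399999)), (.ofNat (nat_lit 57260662798609736631007404097536000000))⟩,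
    ⟨nat_lit 2, nat_lit 5, nat_lit 2, (.ofNat (nat_lit 16)), (.negSucc (nat_lit 274877906943999)), (.negSucc (nat_lit 2887176174330768670579880912426129379759558230015999999)), (.ofNat (nat_lit 0)), (.negSucc (nat_lit 469841526576358501439713471298432982319103999999999)), (.negSucc (nat_lit 274877906944031)), (.negSucc (nat_lit 274877906943967)), (.negSucc (nat_lit 109410597783254007216441311530844159999999)), (.ofNat (nat_lit 10941059778325400721644131153084416000000)), (.negSucc (nat_lit 109410597783254007216441311530844159999999)), (.ofNat (nat_lit 10941059778325400721644131153084416000000)), (.ofNat (nat_lit 71789487687809222044845103644672000000))⟩,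
    ⟨nat_lit 0, nat_lit 0, nat_lit 6, (.ofNat (nat_lit 16)), (.negSucc (nat_lit 274877906943999)), (.ofNat (nat_lit 15157557495360855935713754666261487739187949993984000000)), (.ofNat (nat_lit 0)), (.ofNat (nat_lit 2349207632881792507198567356492164911595520000000000)), (.negSucc (nat_lit 274877906944031)), (.negSucc (nat_lit 274877906943967)), (.ofNat (nat_lit 54705298891627003608220655765422080000000)), (.negSucc (nat_lit 26805596456897231768028121325056819199999)), (.negSucc (nat_lit 26805596456897231768028121325056819199999)), (.ofNat (nat_lit 54705298891627003608220655765422080000000)), (.ofNat (nat_lit 42560910557772610212301025732198400000))⟩]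
  es := [
    ⟨nat_lit 1, nat_lit 6, (.negSucc (nat_lit 549755813887999)), (.negSucc (nat_lit 274877906943999)), (.negSucc (nat_lit 549755813887967)), (.negSucc (nat_lit 274877906944031)), (.ofNat (nat_lit 54705298891627003608220655765422080000000)), (.ofNat (nat_lit 8546367581882050243433940910080000000)), (.ofNat (nat_lit 4698415265763585014397134712984329823191040000000000))⟩,
    ⟨nat_lit 1, nat_lit 2, (.negSucc (nat_lit 549755813887999)), (.ofNat (nat_lit 0)), (.negSucc (nat_lit 549755813887967)), (.negSucc (nat_lit 31)), (.ofNat (nat_lit 0)), (.ofNat (nat_lit 0)), (.ofNat (nat_lit 0))⟩,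
    ⟨nat_lit 5, nat_lit 2, (.negSucc (nat_lit 274877906943999)), (.ofNat (nat_lit 0)), (.negSucc (nat_lit 274877906943967)), (.negSucc (nat_lit 31)), (.ofNat (nat_lit 10941059778325400721644131153084416000000)), (.ofNat (nat_lit 1709273516376410048686788182016000000)), (.ofNat (nat_lit 0))⟩,
    ⟨nat_lit 4, nat_lit 3, (.ofNat (nat_lit 0)), (.ofNat (nat_lit 549755813888000)), (.ofNat (nat_lit 32)), (.ofNat (nat_lit 549755813887968)), (.negSucc (nat_lit 183262751286950462087539196814163967999999)), (.negSucc (nat_lit 28630331399304868315503702048767999999)), (.ofNat (nat_lit 1174603816440896253599283678246082455797760000000000))⟩,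
    ⟨nat_lit 4, nat_lit 0, (.ofNat (nat_lit 0)), (.ofNat (nat_lit 274877906944000)), (.ofNat (nat_lit 32)), (.ofNat (nat_lit 274877906943968)), (.negSucc (nat_lit 26258543467980961731945914767402598399999)), (.negSucc (nat_lit 4102256439303384116848291636838399999)), (.ofNat (nat_lit 1174603816440896253599283678246082455797760000000000))⟩,
    ⟨nat_lit 5, nat_lit 3, (.negSucc (nat_lit 274877906943999)), (.ofNat (nat_lit 549755813888000)), (.negSucc (nat_lit 274877906943967)), (.ofNat (nat_lit 549755813887968)), (.negSucc (nat_lit 109410597783254007216441311530844159999999)), (.negSucc (nat_lit 17092735163764100486867881820159999999)), (.negSucc (nat_lit 5168256792339943515836848184282762805510143999999999))⟩,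
    ⟨nat_lit 6, nat_lit 0, (.negSucc (nat_lit 274877906943999)), (.ofNat (nat_lit 274877906944000)), (.negSucc (nat_lit 274877906943967)), (.ofNat (nat_lit 274877906943968)), (.negSucc (nat_lit 26805596456897231768028121325056819199999)), (.negSucc (nat_lit 4187720115122204619282631045939199999)), (.ofNat (nat_lit 1198095892769714178671269351811004104913715200000000))⟩]

theorem ok195 : stOK 6 6 S195 = true := by decide +kernel

def S196 : SD where
  vs := [
    ⟨nat_lit 1, nat_lit 4, nat_lit 6, (.ofNat (nat_lit 16)), (.ofNat (nat_lit 274877906944000)), (.ofNat (nat_lit 423985000063460232466355805202447219836095299584000000)), (.ofNat (nat_lit 0)), (.ofNat (nat_lit 46984152657635850143971347129843298231910400000000)), (.ofNat (nat_lit 274877906943968)), (.ofNat (nat_lit 274877906944032)), (.negSucc (nat_lit 26516985623657074931307357140523417599999)), (.negSucc (nat_lit 27069422824149930659042927080950988799999)), (.negSucc (nat_lit 27069422824149930659042927080950988799999)), (.negSucc (nat_lit 26516985623657074931307357140523417599999)), (.ofNat (nat_lit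 8375440230244409238565262091878400000))⟩,
    ⟨nat_lit 2, nat_lit 0, nat_lit 1, (.ofNat (nat_lit 16)), (.negSucc (nat_lit 549755813887999)), (.ofNat (nat_lit 120279437284502097135725017355140140065026473984000000)), (.ofNat (nat_lit 0)), (.ofNat (nat_lit 0)), (.negSucc (nat_lit 549755813888031)), (.negSucc (nat_lit 549755813887967)), (.ofNat (nat_lit 55243720049285572773556994042757120000000)), (.ofNat (nat_lit 0)), (.ofNat (nat_lit 0)), (.ofNat (nat_lit 55243720049285572773556994042757120000000)), (.ofNat (nat_lit 34185470327528200973735763640320000000))⟩,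
    ⟨nat_lit 1, nat_lit 2, nat_lit 1, (.ofNat (nat_lit 16)), (.ofNat (nat_lit 0)), (.ofNat (nat_lit 120279437284502097135725017355140140065026473984000000)), (.ofNat (nat_lit 0)), (.ofNat (nat_lit 0)), (.negSucc (nat_lit 31)), (.ofNat (nat_lit 32)), (.ofNat (nat_lit 11048744009857114554711398808551424000000)), (.ofNat (nat_lit 0)), (.ofNat (nat_lit 0)), (.ofNat (nat_lit 11048744009857114554711398808551424000000)), (.ofNat (nat_lit 6837094065505640194747152728064000000))⟩,
    ⟨nat_lit 1, nat_lit 3, nat_lit 5, (.ofNat (nat_lit 16)), (.ofNat (nat_lit 549755813888000)), (.negSucc (nat_lit 94028445024192519855359819215310054588966309462015999999)), (.ofNat (nat_lit 0)), (.negSucc (nat_lit 14565087323867113544631117610251422451892223999999999)), (.ofNat (nat_lit 549755813887968)), (.ofNat (nat_lit 549755813888032)), (.negSucc (nat_lit 185066462165106668791415930043236351999999)), (.negSucc (nat_lit 110487440098571145547113988085514239999999)), (.negSucc (nat_lit 185066462165106668791415930043236351999999)), (.negSucc (nat_lit 110487440098571145547113988085514239999999)),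 (.ofNat (nat_lit 80335855269691272288279044554752000000))⟩,
    ⟨nat_lit 2, nat_lit 4, nat_lit 3, (.ofNat (nat_lit 16)), (.ofNat (nat_lit 0)), (.ofNat (nat_lit 7712918506758455480401494713537817134341747113984000000)), (.ofNat (nat_lit 0)), (.ofNat (nat_lit 1174603816440896253599283678246082455797760000000000)), (.negSucc (nat_lit 31)), (.ofNat (nat_lit 32)), (.negSucc (nat_lit 26516985623657074931307357140523417599999)), (.negSucc (nat_lit 185066462165106668791415930043236351999999)), (.negSucc (nat_lit 185066462165106668791415930043236351999999)), (.negSucc (nat_lit 26516985623657074931307357140523417599999)), (.ofNat (nat_lit 57260662798609736631007404097536000000))⟩,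
    ⟨nat_lit 2, nat_lit 5, nat_lit 2, (.ofNat (nat_lit 16)), (.negSucc (nat_lit 274877906943999)), (.negSucc (nat_lit 2916776190505079256170582861117930657645661782015999999)), (.ofNat (nat_lit 0)), (.negSucc (nat_lit 469841526576358501439713471298432982319103999999999)), (.negSucc (nat_lit 274877906944031)), (.negSucc (nat_lit 274877906943967)), (.negSucc (nat_lit 110487440098571145547113988085514239999999)), (.ofNat (nat_lit 11048744009857114554711398808551424000000)), (.negSucc (nat_lit 110487440098571145547113988085514239999999)), (.ofNat (nat_lit 11048744009857114554711398808551424000000)), (.ofNat (nat_lit 71789487687809222044845103644672000000))⟩,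
    ⟨nat_lit 0, nat_lit 0, nat_lit 6, (.ofNat (nat_lit 16)), (.negSucc (nat_lit 274877906943999)), (.ofNat (nat_lit 15305557576232408863667264409720494128618467753984000000)), (.ofNat (nat_lit 0)), (.ofNat (nat_lit 2349207632881792507198567356492164911595520000000000)), (.negSucc (nat_lit 274877906944031)), (.negSucc (nat_lit 274877906943967)), (.ofNat (nat_lit 55243720049285572773556994042757120000000)), (.negSucc (nat_lit 27069422824149930659042927080950988799999)), (.negSucc (nat_lit 27069422824149930659042927080950988799999)), (.ofNat (nat_lit 55243720049285572773556994042757120000000)), (.ofNat (nat_lit 42560910557772610212301025732198400000))⟩]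
  es := [
    ⟨nat_lit 1, nat_lit 6, (.negSucc (nat_lit 549755813887999)), (.negSucc (nat_lit 274877906943999)), (.negSucc (nat_lit 549755813887967)), (.negSucc (nat_lit 274877906944031)), (.ofNat (nat_lit 55243720049285572773556994042757120000000)), (.ofNat (nat_lit 8546367581882050243433940910080000000)), (.ofNat (nat_lit 4698415265763585014397134712984329823191040000000000))⟩,
    ⟨nat_lit 1, nat_lit 2, (.negSucc (nat_lit 549755813887999)), (.ofNat (nat_lit 0)), (.negSucc (nat_lit 549755813887967)), (.negSucc (nat_lit 31)), (.ofNat (nat_lit 0)), (.ofNat (nat_lit 0)), (.ofNat (nat_lit 0))⟩,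
    ⟨nat_lit 5, nat_lit 2, (.negSucc (nat_lit 274877906943999)), (.ofNat (nat_lit 0)), (.negSucc (nat_lit 274877906943967)), (.negSucc (nat_lit 31)), (.ofNat (nat_lit 11048744009857114554711398808551424000000)), (.ofNat (nat_lit 1709273516376410048686788182016000000)), (.ofNat (nat_lit 0))⟩,
    ⟨nat_lit 4, nat_lit 3, (.ofNat (nat_lit 0)), (.ofNat (nat_lit 549755813888000)), (.ofNat (nat_lit 32)), (.ofNat (nat_lit 549755813887968)), (.negSucc (nat_lit 185066462165106668791415930043236351999999)), (.negSucc (nat_lit 28630331399304868315503702048767999999)), (.ofNat (nat_lit 1174603816440896253599283678246082455797760000000000))⟩,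
    ⟨nat_lit 4, nat_lit 0, (.ofNat (nat_lit 0)), (.ofNat (nat_lit 274877906944000)), (.ofNat (nat_lit 32)), (.ofNat (nat_lit 274877906943968)), (.negSucc (nat_lit 26516985623657074931307357140523417599999)), (.negSucc (nat_lit 4102256439303384116848291636838399999)), (.ofNat (nat_lit 1174603816440896253599283678246082455797760000000000))⟩,
    ⟨nat_lit 5, nat_lit 3, (.negSucc (nat_lit 274877906943999)), (.ofNat (nat_lit 549755813888000)), (.negSucc (nat_lit 274877906943967)), (.ofNat (nat_lit 549755813887968)), (.negSucc (nat_lit 110487440098571145547113988085514239999999)), (.negSucc (nat_lit 17092735163764100486867881820159999999)), (.negSucc (nat_lit 5168256792339943515836848184282762805510143999999999))⟩,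
    ⟨nat_lit 6, nat_lit 0, (.negSucc (nat_lit 274877906943999)), (.ofNat (nat_lit 274877906944000)), (.negSucc (nat_lit 274877906943967)), (.ofNat (nat_lit 274877906943968)), (.negSucc (nat_lit 27069422824149930659042927080950988799999)), (.negSucc (nat_lit 4187720115122204619282631045939199999)), (.ofNat (nat_lit 1198095892769714178671269351811004104913715200000000))⟩]

theorem ok196 : stOK 6 6 S196 = true := by decide +kernel

def S197 : SD where
  vs := [
    ⟨nat_lit 1, nat_lit 4, nat_lit 6, (.ofNat (nat_lit 16)), (.ofNat (nat_lit 274877906944000)), (.ofNat (nat_lit 423985000063460232466355805202447219836095299584000000)), (.ofNat (nat_lit 0)), (.ofNat (nat_lit 0)), (.ofNat (nat_lit 274877906943968)), (.ofNat (nat_lit 274877906944032)), (.negSucc (nat_lit 26516985623657074931307357140523417599999)), (.negSucc (nat_lit 27345641424396358522910712051164774399999)), (.negSucc (nat_lit 27345641424396358522910712051164774399999)), (.negSucc (nat_lit 26516985623657074931307357140523417599999)), (.ofNat (nat_lit 8631831257700870745868280319180800000))⟩,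
    ⟨nat_lit 2, nat_lit 0, nat_lit 1, (.ofNat (nat_lit 16)), (.negSucc (nat_lit 549755813887999)), (.ofNat (nat_lit 120279437284502097135725017355140140065026473984000000)), (.ofNat (nat_lit 0)), (.ofNat (nat_lit 0)), (.negSucc (nat_lit 549755813888031)), (.negSucc (nat_lit 549755813887967)), (.ofNat (nat_lit 55796157249778428501292563983184691200000)), (.ofNat (nat_lit 0)), (.ofNat (nat_lit 0)), (.ofNat (nat_lit 55796157249778428501292563983184691200000)), (.ofNat (nat_lit 34527325030803482983473121276723200000))⟩,
    ⟨nat_lit 1, nat_lit 2, nat_lit 1, (.ofNat (nat_lit 16)), (.ofNat (nat_lit 1099511627776000)), (.ofNat (nat_lit 120279437284502097135725017355140140065026473984000000)), (.ofNat (nat_lit 17179869184000)), (.ofNat (nat_lit 0)), (.ofNat (nat_lit 1099511627775968)), (.ofNat (nat_lit 1099511627776032)), (.ofNat (nat_lit 11048744009857114554711398808551424000000)), (.ofNat (nat_lit 0)), (.ofNat (nat_lit 0)), (.ofNat (nat_lit 11048744009857114554711398808551424000000)), (.ofNat (nat_lit 0))⟩,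
    ⟨nat_lit 1, nat_lit 3, nat_lit 5, (.ofNat (nat_lit 16)), (.ofNat (nat_lit 549755813888000)), (.negSucc (nat_lit 124399001302088333388422898000040762566073192022015999999)), (.ofNat (nat_lit 0)), (.negSucc (nat_lit 474539941842122086454110606011417312142295039999999999)), (.ofNat (nat_lit 549755813887968)), (.ofNat (nat_lit 549755813888032)), (.negSucc (nat_lit 240310182214392241564972924085993471999999)), (.negSucc (nat_lit 132584928118285374656536785702617087999999)), (.negSucc (nat_lit 240310182214392241564972924085993471999999)), (.negSucc (nat_lit 132584928118285374656536785702617087999999)), (.ofNat (nat_lit 2762186002464278638677849702137856000000))⟩,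
    ⟨nat_lit 2, nat_lit 4, nat_lit 3, (.ofNat (nat_lit 16)), (.ofNat (nat_lit 0)), (.ofNat (nat_lit 7712918506758455480401494713537817134341747113984000000)), (.ofNat (nat_lit 0)), (.ofNat (nat_lit 0)), (.negSucc (nat_lit 31)), (.ofNat (nat_lit 32)), (.negSucc (nat_lit 26516985623657074931307357140523417599999)), (.negSucc (nat_lit 240310182214392241564972924085993471999999)), (.negSucc (nat_lit 240310182214392241564972924085993471999999)), (.negSucc (nat_lit 26516985623657074931307357140523417599999)), (.ofNat (nat_lit 1726366251540174149173656063836160000000))⟩,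
    ⟨nat_lit 2, nat_lit 5, nat_lit 2, (.ofNat (nat_lit 16)), (.negSucc (nat_lit 274877906943999)), (.negSucc (nat_lit 15064998701663404669395814375010213848488414806015999999)), (.ofNat (nat_lit 0)), (.negSucc (nat_lit 189815976736848834581644242404566924856918015999999999)), (.negSucc (nat_lit 274877906944031)), (.negSucc (nat_lit 274877906943967)), (.negSucc (nat_lit 132584928118285374656536785702617087999999)), (.ofNat (nat_lit 11048744009857114554711398808551424000000)), (.negSucc (nat_lit 132584928118285374656536785702617087999999)), (.ofNat (nat_lit 11048744009857114554711398808551424000000)), (.ofNat (nat_lit 1381093001232139319338924851068928000000))⟩,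
    ⟨nat_lit 0, nat_lit 0, nat_lit 6, (.ofNat (nat_lit 16)), (.negSucc (nat_lit 274877906943999)), (.ofNat (nat_lit 15457410357621887931332579803644147668504002166784000000)), (.ofNat (nat_lit 0)), (.ofNat (nat_lit 2372699709210610432270553030057086560711475200000000)), (.negSucc (nat_lit 274877906944031)), (.negSucc (nat_lit 274877906943967)), (.ofNat (nat_lit 55796157249778428501292563983184691200000)), (.negSucc (nat_lit 27345641424396358522910712051164774399999)), (.negSucc (nat_lit 27345641424396358522910712051164774399999)), (.ofNat (nat_lit 55796157249778428501292563983184691200000)), (.ofNat (nat_lit 43159156288504353729341401595904000000))⟩]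
  es := [
    ⟨nat_lit 1, nat_lit 6, (.negSucc (nat_lit 549755813887999)), (.negSucc (nat_lit 274877906943999)), (.negSucc (nat_lit 549755813887967)), (.negSucc (nat_lit 274877906944031)), (.ofNat (nat_lit 55796157249778428501292563983184691200000)), (.ofNat (nat_lit 8631831257700870745868280319180800000)), (.ofNat (nat_lit 4745399418421220864541106060114173121422950400000000))⟩,
    ⟨nat_lit 1, nat_lit 2, (.negSucc (nat_lit 549755813887999)), (.ofNat (nat_lit 1099511627776000)), (.negSucc (nat_lit 549755813887967)), (.ofNat (nat_lit 1099511627775968)), (.ofNat (nat_lit 0)), (.ofNat (nat_lit 0)), (.ofNat (nat_lit 0))⟩,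
    ⟨nat_lit 5, nat_lit 2, (.negSucc (nat_lit 274877906943999)), (.ofNat (nat_lit 1099511627776000)), (.negSucc (nat_lit 274877906943967)), (.ofNat (nat_lit 1099511627775968)), (.ofNat (nat_lit 11048744009857114554711398808551424000000)), (.ofNat (nat_lit 0)), (.negSucc (nat_lit 189815976736848834581644242404566924856918015999999999))⟩,
    ⟨nat_lit 4, nat_lit 3, (.ofNat (nat_lit 0)), (.ofNat (nat_lit 549755813888000)), (.ofNat (nat_lit 32)), (.ofNat (nat_lit 549755813887968)), (.negSucc (nat_lit 240310182214392241564972924085993471999999)), (.negSucc (nat_lit 863183125770087074586828031918079999999)), (.ofNat (nat_lit 0))⟩,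
    ⟨nat_lit 4, nat_lit 0, (.ofNat (nat_lit 0)), (.ofNat (nat_lit 274877906944000)), (.ofNat (nat_lit 32)), (.ofNat (nat_lit 274877906943968)), (.negSucc (nat_lit 26516985623657074931307357140523417599999)), (.ofNat (nat_lit 0)), (.ofNat (nat_lit 0))⟩,
    ⟨nat_lit 5, nat_lit 3, (.negSucc (nat_lit 274877906943999)), (.ofNat (nat_lit 549755813888000)), (.negSucc (nat_lit 274877906943967)), (.ofNat (nat_lit 549755813887968)), (.negSucc (nat_lit 132584928118285374656536785702617087999999)), (.negSucc (nat_lit 345273250308034829834731212767231999999)), (.negSucc (nat_lit 284723965105273251872466363606850387285377023999999999))⟩,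
    ⟨nat_lit 6, nat_lit 0, (.negSucc (nat_lit 274877906943999)), (.ofNat (nat_lit 274877906944000)), (.negSucc (nat_lit 274877906943967)), (.ofNat (nat_lit 274877906943968)), (.negSucc (nat_lit 27345641424396358522910712051164774399999)), (.negSucc (nat_lit 4315915628850435372934140159590399999)), (.ofNat (nat_lit 1186349854605305216135276515028543280355737600000000))⟩]

theorem ok197 : stOK 6 6 S197 = true := by decide +kernel

def S198 : SD where
  vs := [
    ⟨nat_lit 1, nat_lit 4, nat_lit 6, (.ofNat (nat_lit 16)), (.ofNat (nat_lit 274877906944000)), (.ofNat (nat_lit 425503527877355023143008959141683755234950643712000000)), (.ofNat (nat_lit 0)), (.ofNat (nat_lit 47453994184212208645411060601141731214229504000000)), (.ofNat (nat_lit 274877906943968)), (.ofNat (nat_lit 274877906944032)), (.negSucc (nat_lit 26649570551775360305963893926226034687999)), (.negSucc (nat_lit 27482369631518340315525265611420598271999)), (.negSucc (nat_lit 27482369631518340315525265611420598271999)), (.negSucc (nat_lit 26649570551775360305963893926226034687999)), (.ofNat (nat_lit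 8545512945123862038409597515988992000))⟩,
    ⟨nat_lit 2, nat_lit 0, nat_lit 1, (.ofNat (nat_lit 16)), (.negSucc (nat_lit 549755813887999)), (.ofNat (nat_lit 120279437284502097135725017355140140065026473984000000)), (.ofNat (nat_lit 0)), (.ofNat (nat_lit 0)), (.negSucc (nat_lit 549755813888031)), (.negSucc (nat_lit 549755813887967)), (.ofNat (nat_lit 56075138036027320643799026803100614656000)), (.ofNat (nat_lit 0)), (.ofNat (nat_lit 0)), (.ofNat (nat_lit 56075138036027320643799026803100614656000)), (.ofNat (nat_lit 34872598281111517813307852489490432000))⟩,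
    ⟨nat_lit 1, nat_lit 2, nat_lit 1, (.ofNat (nat_lit 16)), (.ofNat (nat_lit 1099511627776000)), (.ofNat (nat_lit 120279437284502097135725017355140140065026473984000000)), (.ofNat (nat_lit 0)), (.ofNat (nat_lit 0)), (.ofNat (nat_lit 1099511627775968)), (.ofNat (nat_lit 1099511627776032)), (.ofNat (nat_lit 11103987729906400127484955802594181120000)), (.ofNat (nat_lit 0)), (.ofNat (nat_lit 0)), (.ofNat (nat_lit 11103987729906400127484955802594181120000)), (.ofNat (nat_lit 6905465006160696596694624255344640000))⟩,
    ⟨nat_lit 1, nat_lit 3, nat_lit 5, (.ofNat (nat_lit 16)), (.ofNat (nat_lit 549755813888000)), (.negSucc (nat_lit 125021597705785197565850691115127742079603883114495999999)), (.ofNat (nat_lit 0)), (.negSucc (nat_lit 19456137615527005544618534846468109797834096639999999)), (.ofNat (nat_lit 549755813887968)), (.ofNat (nat_lit 549755813888032)), (.negSucc (nat_lit 241511733125464202772797788706423439359999)), (.negSucc (nat_lit 133247852758876801529819469631130173439999)), (.negSucc (nat_lit 241511733125464202772797788706423439359999)), (.negSucc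 (nat_lit 133247852758876801529819469631130173439999)), (.ofNat (nat_lit 108761073847030971397940332021678080000))⟩,
    ⟨nat_lit 2, nat_lit 4, nat_lit 3, (.ofNat (nat_lit 16)), (.ofNat (nat_lit 0)), (.ofNat (nat_lit 7750881702105825247317823562018730519313130717184000000)), (.ofNat (nat_lit 0)), (.ofNat (nat_lit 1186349854605305216135276515028543280355737600000000)), (.negSucc (nat_lit 31)), (.ofNat (nat_lit 32)), (.negSucc (nat_lit 26649570551775360305963893926226034687999)), (.negSucc (nat_lit 241511733125464202772797788706423439359999)), (.negSucc (nat_lit 241511733125464202772797788706423439359999)), (.negSucc (nat_lit 26649570551775360305963893926226034687999)), (.ofNat (nat_lit 75096931941997575489054038776872960000))⟩,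
    ⟨nat_lit 2, nat_lit 5, nat_lit 2, (.ofNat (nat_lit 16)), (.negSucc (nat_lit 274877906943999)), (.negSucc (nat_lit 15140925092358144203228472071972040618431182012415999999)), (.ofNat (nat_lit 0)), (.negSucc (nat_lit 2372699709210610432270553030057086560711475199999999)), (.negSucc (nat_lit 274877906944031)), (.negSucc (nat_lit 274877906943967)), (.negSucc (nat_lit 133247852758876801529819469631130173439999)), (.ofNat (nat_lit 11103987729906400127484955802594181120000)), (.negSucc (nat_lit 133247852758876801529819469631130173439999)), (.ofNat (nat_lit 11103987729906400127484955802594181120000)), (.ofNat (nat_lit 86318312577008707458682803191808000000))⟩,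
    ⟨nat_lit 0, nat_lit 0, nat_lit 6, (.ofNat (nat_lit 16)), (.negSucc (nat_lit 274877906943999)), (.ofNat (nat_lit 15534096012223574860503564077575592706146197045248000000)), (.ofNat (nat_lit 0)), (.ofNat (nat_lit 2396426706302716536593258560357657426318589952000000)), (.negSucc (nat_lit 274877906944031)), (.negSucc (nat_lit 274877906943967)), (.ofNat (nat_lit 56075138036027320643799026803100614656000)), (.negSucc (nat_lit 27482369631518340315525265611420598271999)), (.negSucc (nat_lit 27482369631518340315525265611420598271999)), (.ofNat (nat_lit 56075138036027320643799026803100614656000)), (.ofNat (nat_lit 43418111226235379851717450005479424000))⟩]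
  es := [
    ⟨nat_lit 1, nat_lit 6, (.negSucc (nat_lit 549755813887999)), (.negSucc (nat_lit 274877906943999)), (.negSucc (nat_lit 549755813887967)), (.negSucc (nat_lit 274877906944031)), (.ofNat (nat_lit 56075138036027320643799026803100614656000)), (.ofNat (nat_lit 8718149570277879453326963122372608000)), (.ofNat (nat_lit 4792853412605433073186517120715314852637179904000000))⟩,
    ⟨nat_lit 1, nat_lit 2, (.negSucc (nat_lit 549755813887999)), (.ofNat (nat_lit 1099511627776000)), (.negSucc (nat_lit 549755813887967)), (.ofNat (nat_lit 1099511627775968)), (.ofNat (nat_lit 0)), (.ofNat (nat_lit 0)), (.ofNat (nat_lit 0))⟩,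
    ⟨nat_lit 5, nat_lit 2, (.negSucc (nat_lit 274877906943999)), (.ofNat (nat_lit 1099511627776000)), (.negSucc (nat_lit 274877906943967)), (.ofNat (nat_lit 1099511627775968)), (.ofNat (nat_lit 11103987729906400127484955802594181120000)), (.ofNat (nat_lit 1726366251540174149173656063836160000)), (.negSucc (nat_lit 1898159767368488345816442424045669248569180159999999))⟩,
    ⟨nat_lit 4, nat_lit 3, (.ofNat (nat_lit 0)), (.ofNat (nat_lit 549755813888000)), (.ofNat (nat_lit 32)), (.ofNat (nat_lit 549755813887968)), (.negSucc (nat_lit 241511733125464202772797788706423439359999)), (.negSucc (nat_lit 37548465970998787744527019388436479999)), (.ofNat (nat_lit 1186349854605305216135276515028543280355737600000000))⟩,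
    ⟨nat_lit 4, nat_lit 0, (.ofNat (nat_lit 0)), (.ofNat (nat_lit 274877906944000)), (.ofNat (nat_lit 32)), (.ofNat (nat_lit 274877906943968)), (.negSucc (nat_lit 26649570551775360305963893926226034687999)), (.negSucc (nat_lit 4143279003696417958016774553206783999)), (.ofNat (nat_lit 1186349854605305216135276515028543280355737600000000))⟩,
    ⟨nat_lit 5, nat_lit 3, (.negSucc (nat_lit 274877906943999)), (.ofNat (nat_lit 549755813888000)), (.negSucc (nat_lit 274877906943967)), (.ofNat (nat_lit 549755813887968)), (.negSucc (nat_lit 133247852758876801529819469631130173439999)), (.negSucc (nat_lit 20716395018482089790083872766033919999)), (.negSucc (nat_lit 8067179011316075469719880302194094306419015679999999))⟩,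
    ⟨nat_lit 6, nat_lit 0, (.negSucc (nat_lit 274877906943999)), (.ofNat (nat_lit 274877906944000)), (.negSucc (nat_lit 274877906943967)), (.ofNat (nat_lit 274877906943968)), (.negSucc (nat_lit 27482369631518340315525265611420598271999)), (.negSucc (nat_lit 4272756472561931019204798757994495999)), (.ofNat (nat_lit 1221940350243464372619334810479399578766409728000000))⟩]

theorem ok198 : stOK 6 6 S198 = true := by decide +kernel

def S199 : SD where
  vs := [
    ⟨nat_lit 1, nat_lit 4, nat_lit 6, (.ofNat (nat_lit 16)), (.ofNat (nat_lit 274877906944000)), (.ofNat (nat_lit 425503527877355023143008959141683755234950643712000000)), (.ofNat (nat_lit 0)), (.ofNat (nat_lit 47453994184212208645411060601141731214229504000000)), (.ofNat (nat_lit 274877906943968)), (.ofNat (nat_lit 274877906944032)), (.negSucc (nat_lit 26649570551775360305963893926226034687999)), (.negSucc (nat_lit 27482369631518340315525265611420598271999)), (.negSucc (nat_lit 27482369631518340315525265611420598271999)), (.negSucc (nat_lit 26649570551775360305963893926226034687999)), (.ofNat (nat_lit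 8545512945123862038409597515988992000))⟩,
    ⟨nat_lit 2, nat_lit 0, nat_lit 1, (.ofNat (nat_lit 16)), (.negSucc (nat_lit 549755813887999)), (.ofNat (nat_lit 120279437284502097135725017355140140065026473984000000)), (.ofNat (nat_lit 0)), (.ofNat (nat_lit 0)), (.negSucc (nat_lit 549755813888031)), (.negSucc (nat_lit 549755813887967)), (.ofNat (nat_lit 56075138036027320643799026803100614656000)), (.ofNat (nat_lit 0)), (.ofNat (nat_lit 0)), (.ofNat (nat_lit 56075138036027320643799026803100614656000)), (.ofNat (nat_lit 34872598281111517813307852489490432000))⟩,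
    ⟨nat_lit 1, nat_lit 7, nat_lit 1, (.ofNat (nat_lit 16)), (.ofNat (nat_lit 1099511627776000)), (.ofNat (nat_lit 120279437284502097135725017355140140065026473984000000)), (.ofNat (nat_lit 0)), (.ofNat (nat_lit 0)), (.ofNat (nat_lit 1099511627775968)), (.ofNat (nat_lit 1099511627776032)), (.ofNat (nat_lit 11103987729906400127484955802594181120000)), (.ofNat (nat_lit 0)), (.ofNat (nat_lit 0)), (.ofNat (nat_lit 11103987729906400127484955802594181120000)), (.ofNat (nat_lit 6905465006160696596694624255344640000))⟩,
    ⟨nat_lit 1, nat_lit 3, nat_lit 5, (.ofNat (nat_lit 16)), (.ofNat (nat_lit 549755813888000)), (.negSucc (nat_lit 125021597705785197565850691115127742079603883114495999999)), (.ofNat (nat_lit 0)), (.negSucc (nat_lit 19456137615527005544618534846468109797834096639999999)), (.ofNat (nat_lit 549755813887968)), (.ofNat (nat_lit 549755813888032)), (.negSucc (nat_lit 241511733125464202772797788706423439359999)), (.negSucc (nat_lit 133247852758876801529819469631130173439999)), (.negSucc (nat_lit 241511733125464202772797788706423439359999)), (.negSucc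 (nat_lit 133247852758876801529819469631130173439999)), (.ofNat (nat_lit 108761073847030971397940332021678080000))⟩,
    ⟨nat_lit 2, nat_lit 4, nat_lit 3, (.ofNat (nat_lit 16)), (.ofNat (nat_lit 0)), (.ofNat (nat_lit 7750881702105825247317823562018730519313130717184000000)), (.ofNat (nat_lit 0)), (.ofNat (nat_lit 1186349854605305216135276515028543280355737600000000)), (.negSucc (nat_lit 31)), (.ofNat (nat_lit 32)), (.negSucc (nat_lit 26649570551775360305963893926226034687999)), (.negSucc (nat_lit 241511733125464202772797788706423439359999)), (.negSucc (nat_lit 241511733125464202772797788706423439359999)), (.negSucc (nat_lit 26649570551775360305963893926226034687999)), (.ofNat (nat_lit 75096931941997575489054038776872960000))⟩,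
    ⟨nat_lit 2, nat_lit 5, nat_lit 2, (.ofNat (nat_lit 16)), (.negSucc (nat_lit 274877906943999)), (.negSucc (nat_lit 15140925092358144203228472071972040618431182012415999999)), (.ofNat (nat_lit 0)), (.negSucc (nat_lit 2372699709210610432270553030057086560711475199999999)), (.negSucc (nat_lit 274877906944031)), (.negSucc (nat_lit 274877906943967)), (.negSucc (nat_lit 133247852758876801529819469631130173439999)), (.ofNat (nat_lit 11103987729906400127484955802594181120000)), (.negSucc (nat_lit 133247852758876801529819469631130173439999)), (.ofNat (nat_lit 11103987729906400127484955802594181120000)), (.ofNat (nat_lit 86318312577008707458682803191808000000))⟩,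
    ⟨nat_lit 0, nat_lit 0, nat_lit 6, (.ofNat (nat_lit 16)), (.negSucc (nat_lit 274877906943999)), (.ofNat (nat_lit 15534096012223574860503564077575592706146197045248000000)), (.ofNat (nat_lit 0)), (.ofNat (nat_lit 2396426706302716536593258560357657426318589952000000)), (.negSucc (nat_lit 274877906944031)), (.negSucc (nat_lit 274877906943967)), (.ofNat (nat_lit 56075138036027320643799026803100614656000)), (.negSucc (nat_lit 27482369631518340315525265611420598271999)), (.negSucc (nat_lit 27482369631518340315525265611420598271999)), (.ofNat (nat_lit 56075138036027320643799026803100614656000)), (.ofNat (nat_lit 43418111226235379851717450005479424000))⟩,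
    ⟨nat_lit 0, nat_lit 2, nat_lit 7, (.ofNat (nat_lit 16)), (.ofNat (nat_lit 824633720832000)), (.negSucc (nat_lit 2931961468644027162937114400510296011634215223295999999)), (.ofNat (nat_lit 0)), (.negSucc (nat_lit 474539941842122086454110606011417312142295039999999)), (.ofNat (nat_lit 824633720831968)), (.ofNat (nat_lit 824633720832032)), (.ofNat (nat_lit 11103987729906400127484955802594181120000)), (.ofNat (nat_lit 11103987729906400127484955802594181120000)), (.ofNat (nat_lit 11103987729906400127484955802594181120000)), (.ofNat (nat_lit 11103987729906400127484955802594181120000)), (.ofNat (nat_lit 3452732503080348298347312127672320000))⟩]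
  es := [
    ⟨nat_lit 1, nat_lit 6, (.negSucc (nat_lit 549755813887999)), (.negSucc (nat_lit 274877906943999)), (.negSucc (nat_lit 549755813887967)), (.negSucc (nat_lit 274877906944031)), (.ofNat (nat_lit 56075138036027320643799026803100614656000)), (.ofNat (nat_lit 8718149570277879453326963122372608000)), (.ofNat (nat_lit 4792853412605433073186517120715314852637179904000000))⟩,
    ⟨nat_lit 1, nat_lit 2, (.negSucc (nat_lit 549755813887999)), (.ofNat (nat_lit 1099511627776000)), (.negSucc (nat_lit 549755813887967)), (.ofNat (nat_lit 1099511627775968)), (.ofNat (nat_lit 0)), (.ofNat (nat_lit 0)), (.ofNat (nat_lit 0))⟩,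
    ⟨nat_lit 5, nat_lit 7, (.negSucc (nat_lit 274877906943999)), (.ofNat (nat_lit 824633720832000)), (.negSucc (nat_lit 274877906943967)), (.ofNat (nat_lit 824633720831968)), (.ofNat (nat_lit 11103987729906400127484955802594181120000)), (.ofNat (nat_lit 1726366251540174149173656063836160000)), (.negSucc (nat_lit 1898159767368488345816442424045669248569180159999999))⟩,
    ⟨nat_lit 4, nat_lit 3, (.ofNat (nat_lit 0)), (.ofNat (nat_lit 549755813888000)), (.ofNat (nat_lit 32)), (.ofNat (nat_lit 549755813887968)), (.negSucc (nat_lit 241511733125464202772797788706423439359999)), (.negSucc (nat_lit 37548465970998787744527019388436479999)), (.ofNat (nat_lit 1186349854605305216135276515028543280355737600000000))⟩,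
    ⟨nat_lit 4, nat_lit 0, (.ofNat (nat_lit 0)), (.ofNat (nat_lit 274877906944000)), (.ofNat (nat_lit 32)), (.ofNat (nat_lit 274877906943968)), (.negSucc (nat_lit 26649570551775360305963893926226034687999)), (.negSucc (nat_lit 4143279003696417958016774553206783999)), (.ofNat (nat_lit 1186349854605305216135276515028543280355737600000000))⟩,
    ⟨nat_lit 5, nat_lit 3, (.negSucc (nat_lit 274877906943999)), (.ofNat (nat_lit 549755813888000)), (.negSucc (nat_lit 274877906943967)), (.ofNat (nat_lit 549755813887968)), (.negSucc (nat_lit 133247852758876801529819469631130173439999)), (.negSucc (nat_lit 20716395018482089790083872766033919999)), (.negSucc (nat_lit 8067179011316075469719880302194094306419015679999999))⟩,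
    ⟨nat_lit 6, nat_lit 0, (.negSucc (nat_lit 274877906943999)), (.ofNat (nat_lit 274877906944000)), (.negSucc (nat_lit 274877906943967)), (.ofNat (nat_lit 274877906943968)), (.negSucc (nat_lit 27482369631518340315525265611420598271999)), (.negSucc (nat_lit 4272756472561931019204798757994495999)), (.ofNat (nat_lit 1221940350243464372619334810479399578766409728000000))⟩,
    ⟨nat_lit 7, nat_lit 2, (.ofNat (nat_lit 824633720832000)), (.ofNat (nat_lit 1099511627776000)), (.ofNat (nat_lit 824633720832032)), (.ofNat (nat_lit 1099511627775968)), (.ofNat (nat_lit 11103987729906400127484955802594181120000)), (.ofNat (nat_lit 1726366251540174149173656063836160000)), (.negSucc (nat_lit 1898159767368488345816442424045669248569180159999999))⟩]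

theorem ok199 : stOK 7 7 S199 = true := by decide +kernel

end LCA.CapJ


end
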