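import Mathlib
import Pool.Agent.NDM.C01
import Pool.Agent.NDM.C02
import Pool.Agent.NDM.C03

/-! Parts: LG.SR2, LH.DR2, LH.OPW, LHS.NEA, LHS.RVS, LCA.CapJ.J0, LCA.CapJ.D0, LCA.CapJ.C0, LHE.EXT, LCA.CapJ.D5 -/

section

/-!
# SR2: short rows with the step to the left
-/

namespace LG

open Equiv Finset Function

namespace SR2

theorem gd_transpose {ι κ α β : Type} [LinearOrder α] [LinearOrder β] {c : ι → α} {r : ι → β}
    {a : κ → α} {b : κ → β} (h : Gd c r a b) : Gd r c b a :=
  ⟨h.ri, h.ci, h.bi, h.ai, h.br, h.rb, h.ac, h.ca, fun k m h' => h.ne k m ⟨h'.2, h'.1⟩⟩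

/-- The last circle of an arc. -/
theorem exists_last {ι β : Type} [Fintype ι] [LinearOrder β] (r : ι → β) (k l : ι)
    (h : ∃ i, cyc (r k) (r i) (r l)) :
    ∃ j, cyc (r k) (r j) (r l) ∧ ∀ i, ¬ cyc (r j) (r i) (r l) := by
  classical
  obtain ⟨i₀, hi₀⟩ := h
  obtain ⟨j, hj, hmin⟩ := Finset.exists_min_image
    (univ.filter fun i => cyc (r k) (r i) (r l))
    (fun i => (univ.filter fun i' => cyc (r i) (r i') (r l)).card) ⟨i₀, by simpa using hi₀⟩
  rw [mem_filter] at hj
  refine ⟨j, hj.2, fun i hi => ?_⟩
  have h1 : cyc (r k) (r i) (r l) := by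
    have := hj.2
    unfold cyc at *; grind
  have h2 := hmin i (by simpa using h1)
  have h3 : (univ.filter fun i' => cyc (r i) (r i') (r l)) ⊂
      (univ.filter fun i' => cyc (r j) (r i') (r l)) := by
    rw [Finset.ssubset_iff_of_subset]
    · refine ⟨i, by simpa using hi, ?_⟩
      simp only [mem_filter, mem_univ, true_and]
      unfold cyc; grind
    · intro i' hi'
      simp only [mem_filter, mem_univ, true_and] at hi' ⊢
      unfold cyc at *; grind
  exact absurd (Finset.card_lt_card h3) (by omega)

/-- The exchange of two rows keeps a grid diagram. -/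
theorem gd_swap {ι κ α β : Type} [LinearOrder α] [LinearOrder β] {c : ι → α} {r : ι → β}
    {a : κ → α} {b : κ → β} (h : Gd c r a b) (s t : β) :
    Gd c (swap s t ∘ r) a (swap s t ∘ b) where
  ci := h.ci
  ri := (swap s t).injective.comp h.ri
  ai := h.ai
  bi := (swap s t).injective.comp h.bi
  ac := h.ac
  ca := h.ca
  br m := by
    obtain ⟨k, hk⟩ := h.br m
    exact ⟨k, by simp [hk]⟩
  rb k := by
    obtain ⟨m, hm⟩ := h.rb k
    exact ⟨m, by simp [hm]⟩
  ne k m := by
    rintro ⟨h1, h2⟩
    exact h.ne k m ⟨h1, (swap s t).injective h2⟩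

/-- The reduced diagrams before and after the exchange agree. -/
theorem reduced (hR : Stmt_REL) {ι κ α β : Type} [Fintype ι] [DecidableEq ι] [Fintype κ]
    [DecidableEq κ] [LinearOrder α] [LinearOrder β] {c : ι → α} {r : ι → β} {a : κ → α}
    {b : κ → β} (hG : Gd c r a b) (l j : ι) (m : κ) (hbm : b m = r l) (hjl : j ≠ l)
    (hadj : ∀ i, ¬ cyc (r j) (r i) (r l)) (a' : {n' // n' ≠ m} → α) :
    V (fun i : {i // i ≠ l} => c i) (fun i : {i // i ≠ l} => (swap (r j) (r l) ∘ r) i) a'
      (fun n' : {n' // n' ≠ m} => (swap (r j) (r l) ∘ b) n') ↔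
    V (fun i : {i // i ≠ l} => c i) (fun i : {i // i ≠ l} => r i) a'
      (fun n' : {n' // n' ≠ m} => b n') := by
  have key : ∀ i1 i2 i3 : ι, i1 ≠ l → i2 ≠ l → i3 ≠ l →
      (cyc (swap (r j) (r l) (r i1)) (swap (r j) (r l) (r i2)) (swap (r j) (r l) (r i3)) ↔
        cyc (r i1) (r i2) (r i3)) := by
    intro i1 i2 i3 h1 h2 h3
    have hs : ∀ i, i ≠ l → swap (r j) (r l) (r i) = if i = j then r l else r i := by
      intro i hi
      split_ifs with h
      · subst h; simp
      · exact swap_apply_of_ne_of_ne (fun h' => h (hG.ri h')) (fun h' => hi (hG.ri h'))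
    rw [hs i1 h1, hs i2 h2, hs i3 h3]
    have e1 : r i1 ≠ r l := fun h => h1 (hG.ri h)
    have e2 : r i2 ≠ r l := fun h => h2 (hG.ri h)
    have e3 : r i3 ≠ r l := fun h => h3 (hG.ri h)
    have e4 : r j ≠ r l := fun h => hjl (hG.ri h)
    have g1 := hadj i1
    have g2 := hadj i2
    have g3 := hadj i3
    have f1 : i1 ≠ j → r i1 ≠ r j := fun h h' => h (hG.ri h')
    have f2 : i2 ≠ j → r i2 ≠ r j := fun h h' => h (hG.ri h')
    have f3 : i3 ≠ j → r i3 ≠ r j := fun h h' => h (hG.ri h')
    split_ifs with c1 c2 c3 <;> (try subst c1) <;> (try subst c2) <;> (try subst c3) <;>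
      unfold cyc at * <;> grind
  have hval : ∀ x : {i // i ≠ l} ⊕ {n' // n' ≠ m}, ∃ i : ι, i ≠ l ∧
      Sum.elim (fun i : {i // i ≠ l} => r i) (fun n' : {n' // n' ≠ m} => b n') x = r i ∧
      Sum.elim (fun i : {i // i ≠ l} => (swap (r j) (r l) ∘ r) i)
        (fun n' : {n' // n' ≠ m} => (swap (r j) (r l) ∘ b) n') x = swap (r j) (r l) (r i) := by
    rintro (i | n')
    · exact ⟨i, i.2, rfl, rfl⟩
    · obtain ⟨i, hi⟩ := hG.br n'
      refine ⟨i, ?_, hi, ?_⟩
      · rintro rfl
        exact n'.2 (hG.bi (hi.trans hbm.symm))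
      · simp [hi]
  refine hR _ _ _ _ _ _ _ _ _ _ _ _ _ _ _ _ (Equiv.refl _) (Equiv.refl _) ?_ ?_ ?_ ?_
  · intro x y z; simp
  · intro x y; simp
  · intro x y z
    obtain ⟨i1, h1, e1, e1'⟩ := hval x
    obtain ⟨i2, h2, e2, e2'⟩ := hval y
    obtain ⟨i3, h3, e3, e3'⟩ := hval z
    rw [e1', e2', e3']
    simp only [Equiv.sumCongr_refl, Equiv.coe_refl, id]
    rw [e1, e2, e3]
    exact key i1 i2 i3 h1 h2 h3
  · intro x y
    obtain ⟨i1, h1, e1, e1'⟩ := hval x
    obtain ⟨i2, h2, e2, e2'⟩ := hval y
    rw [e1', e2']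
    simp only [Equiv.sumCongr_refl, Equiv.coe_refl, id]
    rw [e1, e2]
    exact (swap (r j) (r l)).injective.eq_iff

end SR2

open _root_.LG.SR2 in
theorem t_SR2 : Stmt_SR2 := by
  intro hRow hStb hR hT ι κ α β _ _ _ _ _ _ c r a b l k m n
  suffices H : ∀ (N : ℕ) (r : ι → β) (b : κ → β),
      (univ.filter fun i => cyc (r k) (r i) (r l)).card = N → Srt c r a b l k m n →
      (∀ i, ¬ cyc (c k) (c i) (c l)) → cyc (b n) (r k) (r l) →
      (V c r a b ↔ V (fun i : {i // i ≠ l} => c i) (fun i : {i // i ≠ l} => r i)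
        (fun n' : {n' // n' ≠ m} => if a n' = c l then c k else a n')
        (fun n' : {n' // n' ≠ m} => b n')) from
    fun hS h1 h2 => H _ r b rfl hS h1 h2
  intro N
  induction N using Nat.strong_induction_on with
  | _ N ih =>
  intro r b hN hS hca hcy
  have hG := hS.gd
  have hlk := hS.ne
  by_cases hex : ∃ i, cyc (r k) (r i) (r l)
  · obtain ⟨j, hj, hadj⟩ := exists_last r k l hex
    obtain ⟨m', hm'⟩ := hG.rb j
    have hjk : j ≠ k := by rintro rfl; exact (cyc_ne hj).1 rfl
    have hjl : j ≠ l := by rintro rfl; exact (cyc_ne hj).2.1 rfl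
    have hbnj : b n ≠ r j := by
      intro h; rw [h] at hcy; unfold cyc at *; grind
    have hbnl : b n ≠ r l := fun h => (cyc_ne hcy).2.2 h
    have hm'n : m' ≠ n := by rintro rfl; exact hbnj hm'.symm
    have hm'm : m' ≠ m := by
      rintro rfl
      exact hjl (hG.ri (hm'.trans hS.bm))
    have hrjl : r j ≠ r l := fun h => hjl (hG.ri h)
    have hrjk : r j ≠ r k := fun h => hjk (hG.ri h)
    have hrkl : r k ≠ r l := fun h => hlk (hG.ri h.symm)
    have hU : Unl (c j) (a m') (c l) (a m) := by
      obtain ⟨i, hi⟩ := hG.ac m'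
      have h1 : c j ≠ c l := fun h => hjl (hG.ci h)
      have h2 : c j ≠ c k := fun h => hjk (hG.ci h)
      have h3 : a m' ≠ c l := fun h => hm'n (hG.ai (h.trans hS.an.symm))
      have h4 : a m' ≠ c k := fun h => hm'm (hG.ai (h.trans hS.am.symm))
      have h5 := hca j
      have h6 := hca i
      rw [← hi] at h6
      have h7 : c k ≠ c l := fun h => hlk (hG.ci h.symm)
      rw [hS.am]
      refine ⟨h1, h2, h3, h4, ?_⟩
      unfold cyc at *; grind
    rw [hRow ι κ α β c r a b hG j l m' m hjl hadj hm'.symm hS.bm hU]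
    have hrk : swap (r j) (r l) (r k) = r k := swap_apply_of_ne_of_ne hrjk.symm hrkl
    have hrl : swap (r j) (r l) (r l) = r j := swap_apply_right _ _
    have hbn : swap (r j) (r l) (b n) = b n := swap_apply_of_ne_of_ne hbnj hbnl
    have hS' : Srt c (swap (r j) (r l) ∘ r) a (swap (r j) (r l) ∘ b) l k m n :=
      ⟨gd_swap hG _ _, hlk, hS.am, by simp [hS.bm], hS.an⟩
    have hcy' : cyc ((swap (r j) (r l) ∘ b) n) ((swap (r j) (r l) ∘ r) k)
        ((swap (r j) (r l) ∘ r) l) := by
      simp only [comp_apply, hrk, hrl, hbn]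
      unfold cyc at *; grind
    have hlt : (univ.filter fun i => cyc ((swap (r j) (r l) ∘ r) k)
        ((swap (r j) (r l) ∘ r) i) ((swap (r j) (r l) ∘ r) l)).card < N := by
      rw [← hN]
      apply Finset.card_lt_card
      rw [Finset.ssubset_iff_of_subset]
      · refine ⟨j, by simpa using hj, ?_⟩
        simp only [mem_filter, mem_univ, true_and, comp_apply, hrk, hrl, swap_apply_left]
        unfold cyc at *; grind
      · intro i hi
        simp only [mem_filter, mem_univ, true_and, comp_apply, hrk, hrl] at hi ⊢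
        by_cases h1 : i = j
        · subst h1; exact hj
        by_cases h2 : i = l
        · subst h2
          rw [swap_apply_right] at hi
          exact absurd rfl (cyc_ne hi).2.1
        rw [swap_apply_of_ne_of_ne (fun h => h1 (hG.ri h)) (fun h => h2 (hG.ri h))] at hi
        unfold cyc at *; grind
    rw [ih _ hlt _ _ rfl hS' hca hcy']
    exact reduced hR hG l j m hS.bm hjl hadj _
  · push Not at hex
    have hB : Blk r c b a k l m :=
      ⟨gd_transpose hG, hlk.symm, hex, hca, hS.bm, hS.am⟩
    rw [hT ι κ α β c r a b, hStb ι κ β α r c b a k l m hB]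
    exact hT _ _ _ _ _ _ _ _

end LG


end

section

/-!
# DR2: a short row is removed, second direction of the walk
-/

namespace LH

open Set LG

namespace DR2

/-- The cyclic alternation is a chain condition. -/
theorem cp_chain {α : Type*} {R : α → α → Prop} (T : List α) : ∀ (x y : α),
    (∀ p ∈ (x :: T).zip (T ++ [y]), R p.1 p.2) → List.IsChain R (x :: (T ++ [y])) := by
  induction T with
  | nil =>
    intro x y h
    have := h (x, y) (by simp)
    simpa using this
  | cons a T ih =>
    intro x y h
    have h1 := h (x, a) (by simp)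
    have h2 := ih a y (fun p hp => h p (by
      simp only [List.cons_append, List.zip_cons_cons, List.mem_cons]
      exact Or.inr hp))
    rw [List.cons_append, List.isChain_cons_cons]
    exact ⟨h1, h2⟩

theorem cp_map {α β : Type*} (f : α → β) (W : List α) :
    cp (W.map f) = (cp W).map (Prod.map f f) := by
  unfold cp
  rw [← List.map_rotate, List.zip_map]

theorem alt_of_map {W W' : List En} (h : W.map Sum.isLeft = W'.map Sum.isLeft) (hW : Alt W) :
    Alt W' := by
  refine ⟨?_, ?_⟩
  · intro h0
    subst h0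
    simp only [List.map_nil, List.map_eq_nil_iff] at h
    exact hW.1 h
  · intro p hp
    have h1 : (p.1.isLeft, p.2.isLeft) ∈ cp (W'.map Sum.isLeft) := by
      rw [cp_map]
      exact List.mem_map.2 ⟨p, hp, rfl⟩
    rw [← h, cp_map] at h1
    obtain ⟨q, hq, hq'⟩ := List.mem_map.1 h1
    have h2 := hW.2 q hq
    simp only [Prod.map, Prod.mk.injEq] at hq'
    rw [← hq'.1, ← hq'.2]
    exact h2

theorem fl_cons {α β : Type*} (a : α) (b : β) (L : List (α × β)) :
    fl ((a, b) :: L) = .inl a :: .inr b :: fl L := by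
  simp [fl]

theorem fl_map {α β γ δ : Type*} (f : α → γ) (g : β → δ) (L : List (α × β)) :
    fl (L.map fun p => (f p.1, g p.2)) = (fl L).map (Sum.map f g) := by
  induction L with
  | nil => rfl
  | cons p L ih =>
    obtain ⟨a, b⟩ := p
    rw [List.map_cons, fl_cons, fl_cons, ih]
    rfl

/-- The structure of an alternating list after a row. -/
theorem struct (b₂ : Q) : ∀ (n : ℕ) (B : List En), B.length ≤ n → ∀ b₀ : Q,
    List.IsChain (fun a b : En => a.isLeft = !b.isLeft) (.inr b₀ :: (B ++ [.inr b₂])) →
    ∃ (L : List (Q × Q)) (c : Q), B ++ [.inr b₂] = fl (L ++ [(c, b₂)]) := by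
  intro n
  induction n with
  | zero =>
    intro B hB b₀ h
    have : B = [] := List.length_eq_zero_iff.1 (by omega)
    subst this
    simp at h
  | succ n ih =>
    intro B hB b₀ h
    match B, hB, h with
    | [], _, h => simp at h
    | [x], _, h =>
      rcases x with c | r
      · exact ⟨[], c, by simp [fl]⟩
      · simp at h
    | x :: y :: B', hB, h =>
      rcases x with c | r
      · rcases y with c' | b
        · simp at h
        · have h' : List.IsChain (fun a b : En => a.isLeft = !b.isLeft)
              (.inr b :: (B' ++ [.inr b₂])) := by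
            simp only [List.cons_append, List.isChain_cons_cons] at h
            exact h.2.2
          obtain ⟨L, c₂, hL⟩ := ih B' (by simp at hB; omega) b h'
          refine ⟨(c, b) :: L, c₂, ?_⟩
          rw [List.cons_append, List.cons_append, List.cons_append, fl_cons, hL]
      · simp at h

/-- Points of a dense order close to `c₀` from below. -/
theorem near_lt {c₁ c₀ : Q} (h : c₁ < c₀) (l : List Q) :
    ∃ a, c₁ < a ∧ a < c₀ ∧ ∀ d ∈ l, d < c₀ → d < a := by
  induction l with
  | nil =>
    obtain ⟨a, h1, h2⟩ := exists_between h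
    exact ⟨a, h1, h2, by simp⟩
  | cons x l ih =>
    obtain ⟨a, h1, h2, h3⟩ := ih
    by_cases hx : x < c₀
    · obtain ⟨a', h4, h5⟩ := exists_between (max_lt h2 hx)
      refine ⟨a', lt_trans h1 (lt_of_le_of_lt (le_max_left _ _) h4), h5, ?_⟩
      intro d hd hd'
      rcases List.mem_cons.1 hd with rfl | hd
      · exact lt_of_le_of_lt (le_max_right _ _) h4
      · exact lt_trans (h3 d hd hd') (lt_of_le_of_lt (le_max_left _ _) h4)
    · refine ⟨a, h1, h2, ?_⟩
      intro d hd hd'
      rcases List.mem_cons.1 hd with rfl | hd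
      · exact absurd hd' hx
      · exact h3 d hd hd'

/-- Points of a dense order close to `c₀` from above. -/
theorem near_gt {c₁ c₀ : Q} (h : c₀ < c₁) (l : List Q) :
    ∃ a, a < c₁ ∧ c₀ < a ∧ ∀ d ∈ l, c₀ < d → a < d := by
  induction l with
  | nil =>
    obtain ⟨a, h1, h2⟩ := exists_between h
    exact ⟨a, h2, h1, by simp⟩
  | cons x l ih =>
    obtain ⟨a, h1, h2, h3⟩ := ih
    by_cases hx : c₀ < x
    · obtain ⟨a', h4, h5⟩ := exists_between (lt_min h2 hx)
      refine ⟨a', lt_trans (lt_of_lt_of_le h5 (min_le_left _ _)) h1, h4, ?_⟩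
      intro d hd hd'
      rcases List.mem_cons.1 hd with rfl | hd
      · exact lt_of_lt_of_le h5 (min_le_right _ _)
      · exact lt_trans (lt_of_lt_of_le h5 (min_le_left _ _)) (h3 d hd hd')
    · refine ⟨a, h1, h2, ?_⟩
      intro d hd hd'
      rcases List.mem_cons.1 hd with rfl | hd
      · exact absurd hd' hx
      · exact h3 d hd hd'

/-- The columns of a list of entries. -/
def cols (W : List En) : List Q := W.filterMap fun x => x.elim some (fun _ => none)

theorem mem_cols {W : List En} {d : Q} (h : Sum.inl d ∈ W) : d ∈ cols W :=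
  List.mem_filterMap.2 ⟨_, h, rfl⟩

/-- Columns and rows of a list of pairs. -/
theorem mem_fl {α β : Type*} {L : List (α × β)} {p : α × β} (h : p ∈ L) :
    Sum.inl p.1 ∈ fl L ∧ Sum.inr p.2 ∈ fl L := by
  unfold fl
  constructor
  · exact List.mem_flatMap.2 ⟨p, h, by simp⟩
  · exact List.mem_flatMap.2 ⟨p, h, by simp⟩

/-- Columns and rows of the represented list are different. -/
theorem nd_of {L : List (Q × Q)} {f g : Q → ℝ} (hn : (fl L).Nodup)
    (hf : ∀ a b, Sum.inl a ∈ fl L → Sum.inl b ∈ fl L → a < b → f b < f a)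
    (hg : ∀ a b, Sum.inr a ∈ fl L → Sum.inr b ∈ fl L → a < b → g a < g b) :
    Nd (L.map fun p => (f p.1, g p.2)) := by
  induction L with
  | nil => exact ⟨by simp, by simp⟩
  | cons p L ih =>
    obtain ⟨a, b⟩ := p
    have hsub : ∀ x ∈ fl L, x ∈ fl ((a, b) :: L) := by
      intro x hx
      rw [fl_cons]
      exact List.mem_cons_of_mem _ (List.mem_cons_of_mem _ hx)
    rw [fl_cons] at hn
    have hn1 := List.nodup_cons.1 hn
    have hn2 := List.nodup_cons.1 hn1.2
    have ih' := ih hn2.2 (fun a b ha hb => hf a b (hsub _ ha) (hsub _ hb))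
      (fun a b ha hb => hg a b (hsub _ ha) (hsub _ hb))
    have ha : Sum.inl a ∈ fl ((a, b) :: L) := by rw [fl_cons]; simp
    have hb : Sum.inr b ∈ fl ((a, b) :: L) := by rw [fl_cons]; simp
    unfold Nd at ih' ⊢
    simp only [List.map_cons, List.map_map, List.nodup_cons] at ih' ⊢
    refine ⟨⟨?_, ih'.1⟩, ?_, ih'.2⟩
    · intro h
      obtain ⟨q, hq, hq'⟩ := List.mem_map.1 h
      simp only [Function.comp] at hq'
      have hq1 := (mem_fl hq).1
      have hne : q.1 ≠ a := by
        intro h0
        apply hn1.1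
        rw [← h0]
        exact List.mem_cons_of_mem _ hq1
      rcases lt_or_gt_of_ne hne with h1 | h1
      · have := hf _ _ (hsub _ hq1) ha h1
        rw [hq'] at this
        exact lt_irrefl _ this
      · have := hf _ _ ha (hsub _ hq1) h1
        rw [hq'] at this
        exact lt_irrefl _ this
    · intro h
      obtain ⟨q, hq, hq'⟩ := List.mem_map.1 h
      simp only [Function.comp] at hq'
      have hq1 := (mem_fl hq).2
      have hne : q.2 ≠ b := by
        intro h0
        apply hn2.1
        rw [← h0]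
        exact hq1
      rcases lt_or_gt_of_ne hne with h1 | h1
      · have := hg _ _ (hsub _ hq1) hb h1
        rw [hq'] at this
        exact lt_irrefl _ this
      · have := hg _ _ hb (hsub _ hq1) h1
        rw [hq'] at this
        exact lt_irrefl _ this

theorem cyc_map {g : Q → ℝ} {W : List En}
    (hg : ∀ a b, Sum.inr a ∈ W → Sum.inr b ∈ W → a < b → g a < g b) {a b c : Q}
    (ha : Sum.inr a ∈ W) (hb : Sum.inr b ∈ W) (hc : Sum.inr c ∈ W) (h : cyc a b c) :
    cyc (g a) (g b) (g c) := by
  unfold cyc at *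
  rcases h with h | h | h
  · exact Or.inl ⟨hg _ _ ha hb h.1, hg _ _ hb hc h.2⟩
  · exact Or.inr (Or.inl ⟨hg _ _ hb hc h.1, hg _ _ hc ha h.2⟩)
  · exact Or.inr (Or.inr ⟨hg _ _ hc ha h.1, hg _ _ ha hb h.2⟩)

/-- The short row between two adjacent columns is removed. -/
theorem main (hRPE : Stmt_RPE) (a b₁ c₀ b₀ b₂ : Q) (B : List En)
    (hA : Alt (.inl a :: .inr b₁ :: .inl c₀ :: .inr b₀ :: (B ++ [.inr b₂])))
    (hN : (Sum.inl a :: .inr b₁ :: .inl c₀ :: .inr b₀ :: (B ++ [.inr b₂])).Nodup)
    (h : ((a < c₀ ∧ ∀ d, Sum.inl d ∈ (Sum.inl a :: Sum.inr b₁ :: Sum.inl c₀ :: Sum.inr b₀ ::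
            (B ++ [Sum.inr b₂]) : List En) → ¬ (a < d ∧ d < c₀)) ∧ cyc b₁ b₂ b₀) ∨
      ((c₀ < a ∧ ∀ d, Sum.inl d ∈ (Sum.inl a :: Sum.inr b₁ :: Sum.inl c₀ :: Sum.inr b₀ ::
            (B ++ [Sum.inr b₂]) : List En) → ¬ (c₀ < d ∧ d < a)) ∧ cyc b₁ b₀ b₂)) :
    WE (.inl a :: .inr b₁ :: .inl c₀ :: .inr b₀ :: (B ++ [.inr b₂]))
      (.inl c₀ :: .inr b₀ :: (B ++ [.inr b₂])) := by
  obtain ⟨M, _, f, g, hf, hg, _⟩ := hRPE _ hA hN
  have hch : List.IsChain (fun a b : En => a.isLeft = !b.isLeft)
      (.inr b₀ :: (B ++ [.inr b₂])) := by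
    have h1 := hA.2
    unfold cp at h1
    have h2 := cp_chain (R := fun a b : En => a.isLeft = !b.isLeft)
      (Sum.inr b₁ :: Sum.inl c₀ :: Sum.inr b₀ :: (B ++ [Sum.inr b₂])) (Sum.inl a) (Sum.inl a)
      (by simpa using h1)
    simp only [List.cons_append, List.isChain_cons_cons] at h2
    have h3 := h2.2.2.2
    rw [← List.cons_append] at h3
    exact h3.left_of_append
  obtain ⟨L, c, hL⟩ := struct b₂ _ B le_rfl b₀ hch
  have hW : (Sum.inl a :: .inr b₁ :: .inl c₀ :: .inr b₀ :: (B ++ [.inr b₂]) : List En) =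
      fl ((a, b₁) :: (c₀, b₀) :: (L ++ [(c, b₂)])) := by
    rw [fl_cons, fl_cons, hL]
  have hW' : (Sum.inl c₀ :: .inr b₀ :: (B ++ [.inr b₂]) : List En) =
      fl ((c₀, b₀) :: (L ++ [(c, b₂)])) := by
    rw [fl_cons, hL]
  have ha : Sum.inl a ∈ fl ((a, b₁) :: (c₀, b₀) :: (L ++ [(c, b₂)])) := by simp [fl]
  have hb1 : Sum.inr b₁ ∈ fl ((a, b₁) :: (c₀, b₀) :: (L ++ [(c, b₂)])) := by simp [fl]
  have hc0 : Sum.inl c₀ ∈ fl ((a, b₁) :: (c₀, b₀) :: (L ++ [(c, b₂)])) := by simp [fl]
  have hb0 : Sum.inr b₀ ∈ fl ((a, b₁) :: (c₀, b₀) :: (L ++ [(c, b₂)])) := by simp [fl]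
  have hb2 : Sum.inr b₂ ∈ fl ((a, b₁) :: (c₀, b₀) :: (L ++ [(c, b₂)])) := by simp [fl]
  rw [hW] at hf hg hN h
  rw [hW, hW']
  have hnd := nd_of hN hf hg
  have hmem : ∀ x ∈ fl ((c₀, b₀) :: (L ++ [(c, b₂)])),
      x ∈ fl ((a, b₁) :: (c₀, b₀) :: (L ++ [(c, b₂)])) := by
    intro x hx
    rw [fl_cons (a := a)]
    exact List.mem_cons_of_mem _ (List.mem_cons_of_mem _ hx)
  refine ⟨((a, b₁) :: (c₀, b₀) :: (L ++ [(c, b₂)])).map (fun p => (f p.1, g p.2)),
    ((c₀, b₀) :: (L ++ [(c, b₂)])).map (fun p => (f p.1, g p.2)),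
    ⟨hN, f, g, hf, hg, ?_⟩, ⟨?_, f, g, ?_, ?_, ?_⟩, ?_⟩
  · rw [fl_map]
  · rw [fl_cons (a := a)] at hN
    exact (List.nodup_cons.1 (List.nodup_cons.1 hN).2).2
  · exact fun a b ha hb => hf a b (hmem _ ha) (hmem _ hb)
  · exact fun a b ha hb => hg a b (hmem _ ha) (hmem _ hb)
  · rw [fl_map]
  · apply Relation.EqvGen.rel
    simp only [List.map_cons, List.map_append, List.map_nil] at hnd ⊢
    apply Mv.srow _ _ _ _ _ _ hnd
    have key : ∀ d ∈ ((f a, g b₁) :: (f c₀, g b₀) ::
        (L.map (fun p => (f p.1, g p.2)) ++ [(f c, g b₂)])).map Prod.fst,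
        ∃ x, Sum.inl x ∈ fl ((a, b₁) :: (c₀, b₀) :: (L ++ [(c, b₂)])) ∧ d = f x := by
      intro d hd
      have hd' : d ∈ (((a, b₁) :: (c₀, b₀) :: (L ++ [(c, b₂)])).map
          (fun p => (f p.1, g p.2))).map Prod.fst := by
        simpa using hd
      rw [List.map_map] at hd'
      obtain ⟨q, hq, hq'⟩ := List.mem_map.1 hd'
      exact ⟨q.1, (mem_fl hq).1, hq'.symm⟩
    rcases h with ⟨⟨h1, h2⟩, h3⟩ | ⟨⟨h1, h2⟩, h3⟩
    · right
      refine ⟨?_, ?_⟩
      · intro d hd hcy
        obtain ⟨x, hx, rfl⟩ := key d hd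
        have h4 := hf _ _ ha hc0 h1
        have h5 := h2 x hx
        have h6 : f c₀ < f x ∧ f x < f a := by
          unfold cyc at hcy
          rcases hcy with hcy | hcy | hcy
          · exact hcy
          · exact absurd (lt_trans h4 hcy.2) (lt_irrefl _)
          · exact absurd (lt_trans h4 hcy.1) (lt_irrefl _)
        apply h5
        constructor
        · by_contra h7
          rcases eq_or_lt_of_le (not_lt.1 h7) with h8 | h8
          · rw [h8] at h6
            exact lt_irrefl _ h6.2
          · exact absurd (lt_trans (hf _ _ hx ha h8) h6.2) (lt_irrefl _)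
        · by_contra h7
          rcases eq_or_lt_of_le (not_lt.1 h7) with h8 | h8
          · rw [h8] at h6
            exact lt_irrefl _ h6.1
          · exact absurd (lt_trans (hf _ _ hc0 hx h8) h6.1) (lt_irrefl _)
      · exact cyc_map hg hb2 hb0 hb1 (cyc_rot.1 h3)
    · left
      refine ⟨?_, ?_⟩
      · intro d hd hcy
        obtain ⟨x, hx, rfl⟩ := key d hd
        have h4 := hf _ _ hc0 ha h1
        have h5 := h2 x hx
        have h6 : f a < f x ∧ f x < f c₀ := by
          unfold cyc at hcy
          rcases hcy with hcy | hcy | hcy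
          · exact hcy
          · exact absurd (lt_trans h4 hcy.2) (lt_irrefl _)
          · exact absurd (lt_trans h4 hcy.1) (lt_irrefl _)
        apply h5
        constructor
        · by_contra h7
          rcases eq_or_lt_of_le (not_lt.1 h7) with h8 | h8
          · rw [h8] at h6
            exact lt_irrefl _ h6.2
          · exact absurd (lt_trans (hf _ _ hx hc0 h8) h6.2) (lt_irrefl _)
        · by_contra h7
          rcases eq_or_lt_of_le (not_lt.1 h7) with h8 | h8
          · rw [h8] at h6
            exact lt_irrefl _ h6.1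
          · exact absurd (lt_trans (hf _ _ ha hx h8) h6.1) (lt_irrefl _)
      · exact cyc_map hg hb1 hb0 hb2 h3

end DR2

theorem t_DR2 : Stmt_DR2 := by
  intro hWEB hRPE hCM b₁ c₁ b₂ b₀ c₀ B hA hN hM h
  -- the new position of the column
  obtain ⟨a, haM, hane, hanot, hadj⟩ : ∃ a : Q,
      (∀ c, Btw c₁ a c → Btw c₁ c₀ c) ∧ a ≠ c₁ ∧
      Sum.inl a ∉ (Sum.inl c₁ :: Sum.inr b₁ :: Sum.inl c₀ :: Sum.inr b₀ ::
        (B ++ [Sum.inr b₂]) : List En) ∧
      (((a < c₀ ∧ ∀ d, Sum.inl d ∈ (Sum.inl a :: Sum.inr b₁ :: Sum.inl c₀ :: Sum.inr b₀ ::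
            (B ++ [Sum.inr b₂]) : List En) → ¬ (a < d ∧ d < c₀)) ∧ cyc b₁ b₂ b₀) ∨
      ((c₀ < a ∧ ∀ d, Sum.inl d ∈ (Sum.inl a :: Sum.inr b₁ :: Sum.inl c₀ :: Sum.inr b₀ ::
            (B ++ [Sum.inr b₂]) : List En) → ¬ (c₀ < d ∧ d < a)) ∧ cyc b₁ b₀ b₂)) := by
    rcases h with ⟨h1, h2⟩ | ⟨h1, h2⟩
    · obtain ⟨a, ha1, ha2, ha3⟩ := DR2.near_lt h1 (DR2.cols (Sum.inl c₁ :: Sum.inr b₁ ::
        Sum.inl c₀ :: Sum.inr b₀ :: (B ++ [Sum.inr b₂])))
      refine ⟨a, ?_, ha1.ne', ?_, Or.inl ⟨⟨ha2, ?_⟩, h2⟩⟩
      · intro c hc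
        rcases hc with hc | hc
        · exact Or.inl ⟨hc.1, lt_trans hc.2 ha2⟩
        · exact absurd (lt_trans ha1 (lt_trans hc.1 hc.2)) (lt_irrefl _)
      · intro hmem
        exact lt_irrefl _ (ha3 a (DR2.mem_cols hmem) ha2)
      · intro d hd hlt
        rcases List.mem_cons.1 hd with hd | hd
        · have : d = a := Sum.inl_injective hd
          rw [this] at hlt
          exact lt_irrefl _ hlt.1
        · exact absurd (lt_trans hlt.1 (ha3 d (DR2.mem_cols (List.mem_cons_of_mem _ hd)) hlt.2))
            (lt_irrefl _)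
    · obtain ⟨a, ha1, ha2, ha3⟩ := DR2.near_gt h1 (DR2.cols (Sum.inl c₁ :: Sum.inr b₁ ::
        Sum.inl c₀ :: Sum.inr b₀ :: (B ++ [Sum.inr b₂])))
      refine ⟨a, ?_, ha1.ne, ?_, Or.inr ⟨⟨ha2, ?_⟩, h2⟩⟩
      · intro c hc
        rcases hc with hc | hc
        · exact absurd (lt_trans ha1 (lt_trans hc.1 hc.2)) (lt_irrefl _)
        · exact Or.inr ⟨lt_trans ha2 hc.1, hc.2⟩
      · intro hmem
        exact lt_irrefl _ (ha3 a (DR2.mem_cols hmem) ha2)
      · intro d hd hlt
        rcases List.mem_cons.1 hd with hd | hd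
        · have : d = a := Sum.inl_injective hd
          rw [this] at hlt
          exact lt_irrefl _ hlt.2
        · exact absurd (lt_trans (ha3 d (DR2.mem_cols (List.mem_cons_of_mem _ hd)) hlt.1) hlt.2)
            (lt_irrefl _)
  have hN' : (Sum.inl a :: .inr b₁ :: .inl c₀ :: .inr b₀ :: (B ++ [.inr b₂]) : List En).Nodup := by
    refine List.nodup_cons.2 ⟨fun hmem => hanot (List.mem_cons_of_mem _ hmem), ?_⟩
    exact (List.nodup_cons.1 hN).2
  have hA' : Alt (.inl a :: .inr b₁ :: .inl c₀ :: .inr b₀ :: (B ++ [.inr b₂])) :=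
    DR2.alt_of_map (by simp) hA
  have hcm := hCM c₁ a b₂ b₁ (.inl c₀ :: .inr b₀ :: B) hA hN
    (fun hmem => hanot (by
      simp only [List.mem_cons, List.mem_append] at hmem ⊢
      tauto)) hane
    (fun c r hcr hbt => by
      rw [Set.uIcc_comm]
      exact hM c r hcr (haM c hbt))
  exact hWEB.trans _ _ _ hcm (DR2.main hRPE a b₁ c₀ b₀ b₂ B hA' hN' hadj)

end LH


end

section

/-!
# The same items are a walk of the nearby polygons
-/

namespace LH

open Set LG

namespace OPW

open Filter

variable {N : ℕ} {F : ℝ → Pg N} {t₀ : ℝ}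

theorem ev_lt (h : CtA F t₀) {i : ℤ} {c : ℝ} (hc : (F t₀).x i < c) :
    ∀ᶠ t in nhdsWithin t₀ (Icc 0 1), (F t).x i < c :=
  (h i).1.eventually (gt_mem_nhds hc)

theorem ev_gt (h : CtA F t₀) {i : ℤ} {c : ℝ} (hc : c < (F t₀).x i) :
    ∀ᶠ t in nhdsWithin t₀ (Icc 0 1), c < (F t).x i :=
  (h i).1.eventually (lt_mem_nhds hc)

theorem ev_btw (h : CtA F t₀) {i : ℤ} {a b : ℝ} (hc : Btw a b ((F t₀).x i)) :
    ∀ᶠ t in nhdsWithin t₀ (Icc 0 1), Btw a b ((F t).x i) := by
  rcases hc with ⟨h1, h2⟩ | ⟨h1, h2⟩
  · filter_upwards [ev_gt h h1, ev_lt h h2] with t h3 h4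
    exact Or.inl ⟨h3, h4⟩
  · filter_upwards [ev_gt h h1, ev_lt h h2] with t h3 h4
    exact Or.inr ⟨h3, h4⟩

theorem ev_ok (h : CtA F t₀) {j : It} (hj : ItOK (F t₀) j) :
    ∀ᶠ t in nhdsWithin t₀ (Icc 0 1), ItOK (F t) j := by
  have h1 : ∀ᶠ t in nhdsWithin t₀ (Icc 0 1),
      (j.k = .rt → (F t).x j.e < j.t ∧ j.t < (F t).x (j.e + 1)) := by
    by_cases hk : j.k = .rt
    · obtain ⟨h2, h3⟩ := hj.1 hk
      filter_upwards [ev_lt h h2, ev_gt h h3] with t h4 h5 _
      exact ⟨h4, h5⟩
    · exact Eventually.of_forall fun t hk' => absurd hk' hk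
  have h2 : ∀ᶠ t in nhdsWithin t₀ (Icc 0 1),
      (j.k = .lt → (F t).x (j.e + 1) < j.t ∧ j.t < (F t).x j.e) := by
    by_cases hk : j.k = .lt
    · obtain ⟨h2, h3⟩ := hj.2 hk
      filter_upwards [ev_lt h h2, ev_gt h h3] with t h4 h5 _
      exact ⟨h4, h5⟩
    · exact Eventually.of_forall fun t hk' => absurd hk' hk
  filter_upwards [h1, h2] with t h3 h4
  exact ⟨h3, h4⟩

theorem ev_lnk (h : CtA F t₀) {X : Finset ℝ} {i j : It} (hl : Lnk (F t₀) X i j) :
    ∀ᶠ t in nhdsWithin t₀ (Icc 0 1), Lnk (F t) X i j := by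
  have h1 : ∀ᶠ t in nhdsWithin t₀ (Icc 0 1), ∀ m ∈ Finset.Ioc i.e j.e,
      Btw i.t j.t ((F t).x m) := by
    rw [Filter.eventually_all_finset]
    intro m hm
    rw [Finset.mem_Ioc] at hm
    exact ev_btw h (hl.ins m hm.1 hm.2)
  filter_upwards [h1] with t ht
  exact ⟨hl.le, hl.tl, hl.adj, fun m h2 h3 => ht m (Finset.mem_Ioc.2 ⟨h2, h3⟩), hl.dir⟩

theorem ev_all (h : CtA F t₀) : ∀ w : List It, (∀ j ∈ w, ItOK (F t₀) j) →
    ∀ᶠ t in nhdsWithin t₀ (Icc 0 1), ∀ j ∈ w, ItOK (F t) j
  | [], _ => Eventually.of_forall fun t j hj => by simp at hj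
  | a :: w, hw => by
    have h1 := ev_ok h (hw a List.mem_cons_self)
    have h2 := ev_all h w fun j hj => hw j (List.mem_cons_of_mem a hj)
    filter_upwards [h1, h2] with t h3 h4 j hj
    rcases List.mem_cons.1 hj with rfl | hj
    · exact h3
    · exact h4 j hj

theorem ev_chain (h : CtA F t₀) {X : Finset ℝ} : ∀ l : List It,
    List.IsChain (Lnk (F t₀) X) l →
    ∀ᶠ t in nhdsWithin t₀ (Icc 0 1), List.IsChain (Lnk (F t) X) l
  | [], _ => Eventually.of_forall fun t => List.IsChain.nil
  | [a], _ => Eventually.of_forall fun t => List.IsChain.singleton a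
  | a :: b :: l, hl => by
    rw [List.isChain_cons_cons] at hl
    filter_upwards [ev_lnk h hl.1, ev_chain h (b :: l) hl.2] with t h3 h4
    rw [List.isChain_cons_cons]
    exact ⟨h3, h4⟩

end OPW

/-- OPW: the same items are a walk of the nearby polygons. -/
theorem t_OPW : Stmt_OPW := by
  intro _ N F t₀ X w _ h hw
  obtain ⟨⟨i, w', rfl, h1, h2⟩, h3⟩ := hw
  filter_upwards [OPW.ev_all h _ h1, OPW.ev_chain h _ h2] with t h4 h5
  exact ⟨⟨i, w', rfl, h4, h5⟩, h3⟩

end LH


end

section

/-!
# Part C, smooth side: near components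
-/

namespace LHS

open Set LH LC Filter
open scoped ContDiff Topology

namespace NEA

/-- A strictly monotone component has at most two edges. -/
theorem short {N : ℕ} {P : Pg N} {e : ℝ} {p q : ℤ} (h : CompE P e p q)
    (hm : StrictMonoOn P.x (Icc p (q + 1)) ∨ StrictAntiOn P.x (Icc p (q + 1))) : q ≤ p + 1 := by
  by_contra hq
  push Not at hq
  have h1 : P.x (p + 1) = e := h.ins (p + 1) (by omega) (by omega)
  have h2 : P.x (p + 2) = e := h.ins (p + 2) (by omega) (by omega)
  have m1 : p + 1 ∈ Icc p (q + 1) := ⟨by omega, by omega⟩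
  have m2 : p + 2 ∈ Icc p (q + 1) := ⟨by omega, by omega⟩
  rcases hm with hm | hm
  · have := hm m1 m2 (by omega)
    rw [h1, h2] at this
    exact lt_irrefl _ this
  · have := hm m1 m2 (by omega)
    rw [h1, h2] at this
    exact lt_irrefl _ this

end NEA

theorem t_NEA : Stmt_NEA := by
  intro hBAS hCRS hZON Λ M η c σ N hB hN P hP e p q p' q' hc hc' hqp i hi j hj hij u hu
  obtain ⟨hsx, -, -, -, -, -, hdx, -, -, -, -⟩ := hBAS Λ
  have hM : 1 ≤ M := hN.M1
  have hη : 0 < η := hN.η0
  have hN0 : (0 : ℝ) < N := by exact_mod_cast hN.n1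
  have h12 : 2 * M / N ≤ η / 6 := by
    rw [div_le_iff₀ hN0]
    have := hN.n4
    linarith only [this]
  obtain ⟨u1, hu1, hxu⟩ := hCRS Λ N P hN.n1 hP e p q hc i hi
  obtain ⟨v1, hv1, hxv⟩ := hCRS Λ N P hN.n1 hP e p' q' hc' j hj
  have hi1 : i + 1 ≤ j := by
    have := hi.2
    have := hj.1
    omega
  have hi1' : (i : ℝ) + 1 ≤ j := by exact_mod_cast hi1
  have huv : u1 ≤ v1 := hu1.2.trans ((div_le_div_of_nonneg_right hi1' hN0.le).trans hv1.1)
  have huv' : u1 < v1 := by
    rcases huv.lt_or_eq with h | h
    · exact h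
    · exfalso
      have h1 : u1 = ((i : ℝ) + 1) / N :=
        le_antisymm hu1.2 (((div_le_div_of_nonneg_right hi1' hN0.le).trans hv1.1).trans h.ge)
      have h2 : (j : ℝ) / N ≤ ((i : ℝ) + 1) / N := by
        rw [← h1, h]
        exact hv1.1
      have h3 : (j : ℝ) ≤ (i : ℝ) + 1 := (div_le_div_iff_of_pos_right hN0).1 h2
      have h4 : j ≤ i + 1 := by exact_mod_cast h3
      have h5 : i = q := by
        have := hi.2
        have := hj.1
        omega
      subst h5
      refine hc.lst ?_
      rw [hP.1]
      unfold x0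
      push_cast
      rw [← h1]
      exact hxu
  obtain ⟨w, hw, hw0⟩ := exists_deriv_eq_zero huv' (hsx.continuous.continuousOn)
    (hxu.trans hxv.symm)
  have hwl : (i : ℝ) / N ≤ w := hu1.1.trans hw.1.le
  have hwr : w ≤ ((j : ℝ) + 1) / N := hw.2.le.trans hv1.2
  have key : ∀ u : ℝ, ((i : ℝ) - 1) / N ≤ u → u ≤ ((j : ℝ) + 2) / N → |deriv Λ.x u| < η := by
    intro u hl hr
    have h1 := hB.xd u w
    rw [hw0, sub_zero] at h1
    have h2 : |u - w| ≤ ((j : ℝ) - i + 2) / N := by
      rw [abs_le]
      constructor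
      · have e1 : -(((j : ℝ) - i + 2) / N) = ((i : ℝ) - 1) / N - ((j : ℝ) + 1) / N := by ring
        rw [e1]
        linarith
      · have e1 : ((j : ℝ) - i + 2) / N = ((j : ℝ) + 2) / N - (i : ℝ) / N := by ring
        rw [e1]
        linarith
    have h3 : ((j : ℝ) - i + 2) / N ≤ η / (4 * M) + 2 / N := by
      rw [add_div]
      have : ((j : ℝ) - i) / N ≤ η / (4 * M) := by
        rw [div_le_iff₀ hN0]
        exact hij
      linarith
    have h4 : M * |u - w| ≤ M * (η / (4 * M) + 2 / N) :=
      mul_le_mul_of_nonneg_left (h2.trans h3) (by linarith)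
    have h5 : M * (η / (4 * M) + 2 / N) = η / 4 + 2 * M / N := by
      field_simp
    rw [h5] at h4
    linarith
  have hiq : (i : ℝ) ≤ q := by exact_mod_cast hi.2
  have hqp' : (q : ℝ) + 1 ≤ p' := by exact_mod_cast hqp
  have hpj : (p' : ℝ) ≤ j := by exact_mod_cast hj.1
  rcases le_total u (((q : ℝ) + 1) / N) with h | h
  · rcases hZON Λ M η c hB N hN.n1 P hP e p q hc with hm | hz
    · have h1 := NEA.short hc hm
      have h2 : (i : ℝ) - 1 ≤ p := by
        have : i - 1 ≤ p := by
          have := hi.2
          omega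
        exact_mod_cast this
      refine key u ((div_le_div_of_nonneg_right h2 hN0.le).trans hu.1) (h.trans ?_)
      exact div_le_div_of_nonneg_right (by linarith) hN0.le
    · have := hz u ⟨hu.1, h⟩
      linarith
  · rcases le_total u ((p' : ℝ) / N) with h' | h'
    · refine key u (le_trans ?_ h) (h'.trans ?_)
      · exact div_le_div_of_nonneg_right (by linarith) hN0.le
      · exact div_le_div_of_nonneg_right (by linarith) hN0.le
    · rcases hZON Λ M η c hB N hN.n1 P hP e p' q' hc' with hm | hz
      · have h1 := NEA.short hc' hm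
        have h2 : (q' : ℝ) + 1 ≤ j + 2 := by
          have : q' + 1 ≤ j + 2 := by
            have := hj.1
            omega
          exact_mod_cast this
        refine key u (le_trans ?_ h) (hu.2.trans (div_le_div_of_nonneg_right h2 hN0.le))
        exact div_le_div_of_nonneg_right (by linarith) hN0.le
      · have := hz u ⟨h', hu.2⟩
        linarith

end LHS


end

section

/-!
# RVS: the reverse of a stabilisation is a stabilisation
-/

namespace LHS

open Set LH LC Filter
open scoped ContDiff Topology

namespace RVS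

theorem x_eq {Λ Λ' : LegKnot} (h : Rv Λ Λ') : Λ'.x = fun u => Λ.x (-u) := by
  funext u
  unfold LegKnot.x
  rw [h u]

theorem y_eq {Λ Λ' : LegKnot} (h : Rv Λ Λ') : Λ'.y = fun u => Λ.y (-u) := by
  funext u
  unfold LegKnot.y
  rw [h u]

theorem dx {Λ Λ' : LegKnot} (h : Rv Λ Λ') (u : ℝ) : deriv Λ'.x u = -deriv Λ.x (-u) := by
  rw [x_eq h, deriv_comp_neg]

theorem dy {Λ Λ' : LegKnot} (h : Rv Λ Λ') (u : ℝ) : deriv Λ'.y u = -deriv Λ.y (-u) := by
  rw [y_eq h, deriv_comp_neg]

theorem ddx {Λ Λ' : LegKnot} (h : Rv Λ Λ') (u : ℝ) :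
    deriv (deriv Λ'.x) u = deriv (deriv Λ.x) (-u) := by
  have e : deriv Λ'.x = fun v => -(deriv Λ.x (-v)) := funext (dx h)
  rw [e, deriv.fun_neg, deriv_comp_neg (deriv Λ.x), neg_neg]

end RVS

theorem t_RVS : Stmt_RVS := by
  intro Λ' Λ'' Λ₁ Λ₂ hst h1 h2
  obtain ⟨a, c, d, b, D, hac, hcd, hdb, hba, hag, hDo, hDc, hout, hin, hin', hinj, hcusp, hc, hd,
    hy⟩ := hst
  have hper1 : ∀ u, Λ₁.γ u = Λ'.γ (1 - u) := by
    intro u
    rw [h1 u, ← Λ'.periodic (-u)]
    congr 1
    ring
  have hper2 : ∀ u, Λ₂.γ u = Λ''.γ (1 - u) := by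
    intro u
    rw [h2 u, ← Λ''.periodic (-u)]
    congr 1
    ring
  have hm : ∀ u ∈ Icc (-a) (-b + 1), 1 - u ∈ Icc b (a + 1) := by
    intro u hu
    exact ⟨by linarith [hu.2], by linarith [hu.1]⟩
  have hm1 : ∀ u ∈ Ioo (-b) (-a), -u ∈ Ioo a b := by
    intro u hu
    exact ⟨by linarith [hu.2], by linarith [hu.1]⟩
  have hm2 : ∀ u ∈ Icc (-b) (-a), -u ∈ Icc a b := by
    intro u hu
    exact ⟨by linarith [hu.2], by linarith [hu.1]⟩
  refine ⟨-b, -d, -c, -a, D, by linarith, by linarith, by linarith, by linarith, ?_, hDo, hDc,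
    ?_, ?_, ?_, ?_, ?_, ?_, ?_, ?_⟩
  · intro u hu
    rw [hper1, hper2, hag _ (hm u hu)]
  · intro u hu
    rw [hper2]
    exact hout _ (hm u hu)
  · intro u hu
    rw [h2 u, RVS.dx h2]
    exact ⟨(hin _ (hm1 u hu)).1, neg_ne_zero.2 (hin _ (hm1 u hu)).2⟩
  · intro u hu
    rw [h1 u]
    exact hin' _ (hm1 u hu)
  · intro u hu v hv huv
    simp only at huv
    rw [h1 u, h1 v] at huv
    exact neg_injective (hinj (hm2 u hu) (hm2 v hv) huv)
  · intro u hu
    rw [RVS.dx h1, neg_eq_zero, hcusp _ (hm2 u hu)]
    constructor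
    · rintro (h | h)
      · right
        linarith
      · left
        linarith
    · rintro (h | h)
      · right
        linarith
      · left
        linarith
  · rw [RVS.ddx h1, neg_neg]
    exact hd
  · rw [RVS.ddx h1, neg_neg]
    exact hc
  · rw [RVS.dy h1, RVS.dy h1, neg_neg, neg_neg, neg_mul_neg, mul_comm]
    exact hy

end LHS


end

section

/-!
# The first state of the program
-/

set_option maxRecDepth 100000

namespace LCA.CapJ

open LCA

/-- The polygon of the knot: a planar grid. -/
def S0 : SD where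
  vs := [
    ⟨nat_lit 0, nat_lit 0, nat_lit 23, (.ofNat (nat_lit 8)), (.negSucc (nat_lit 33554431)), (.ofNat (nat_lit 39614081257132168796771975168)), (.ofNat (nat_lit 0)), (.ofNat (nat_lit 39614081257132168796771975168)), (.negSucc (nat_lit 33554447)), (.negSucc (nat_lit 33554415)), (.negSucc (nat_lit 1180591620717411303423)), (.ofNat (nat_lit 1180591620717411303424)), (.negSucc (nat_lit 1180591620717411303423)), (.ofNat (nat_lit 1180591620717411303424)), (.ofNat (nat_lit 7083549724304467820544))⟩,
    ⟨nat_lit 2, nat_lit 0, nat_lit 1, (.ofNat (nat_lit 8)), (.negSucc (nat_lit 167772159)), (.ofNat (nat_lit 198070406285660843983859875840)), (.ofNat (nat_lit 0)), (.ofNat (nat_lit 198070406285660843983859875840)), (.negSucc (nat_lit 167772175)), (.negSucc (nat_lit 167772143)), (.negSucc (nat_lit 1180591620717411303423)), (.ofNat (nat_lit 1180591620717411303424)), (.negSucc (nat_lit 1180591620717411303423)), (.ofNat (nat_lit 1180591620717411303424)), (.ofNat (nat_lit 7083549724304467820544))⟩,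
    ⟨nat_lit 0, nat_lit 1, nat_lit 2, (.ofNat (nat_lit 8)), (.negSucc (nat_lit 100663295)), (.ofNat (nat_lit 277298568799925181577403826176)), (.ofNat (nat_lit 0)), (.ofNat (nat_lit 277298568799925181577403826176)), (.negSucc (nat_lit 100663311)), (.negSucc (nat_lit 100663279)), (.ofNat (nat_lit 1180591620717411303424)), (.negSucc (nat_lit 1180591620717411303423)), (.negSucc (nat_lit 1180591620717411303423)), (.ofNat (nat_lit 1180591620717411303424)), (.ofNat (nat_lit 7083549724304467820544))⟩,
    ⟨nat_lit 0, nat_lit 2, nat_lit 3, (.ofNat (nat_lit 8)), (.negSucc (nat_lit 33554431)), (.ofNat (nat_lit 198070406285660843983859875840)), (.ofNat (nat_lit 0)), (.ofNat (nat_lit 198070406285660843983859875840)), (.negSucc (nat_lit 33554447)), (.negSucc (nat_lit 33554415)), (.negSucc (nat_lit 1180591620717411303423)), (.ofNat (nat_lit 1180591620717411303424)), (.negSucc (nat_lit 1180591620717411303423)), (.ofNat (nat_lit 1180591620717411303424)), (.ofNat (nat_lit 7083549724304467820544))⟩,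
    ⟨nat_lit 1, nat_lit 3, nat_lit 4, (.ofNat (nat_lit 8)), (.ofNat (nat_lit 83886080)), (.ofNat (nat_lit 336719690685623434772561788928)), (.ofNat (nat_lit 0)), (.ofNat (nat_lit 336719690685623434772561788928)), (.ofNat (nat_lit 83886064)), (.ofNat (nat_lit 83886096)), (.ofNat (nat_lit 1180591620717411303424)), (.negSucc (nat_lit 1180591620717411303423)), (.negSucc (nat_lit 1180591620717411303423)), (.ofNat (nat_lit 1180591620717411303424)), (.ofNat (nat_lit 7083549724304467820544))⟩,
    ⟨nat_lit 0, nat_lit 5, nat_lit 4, (.ofNat (nat_lit 8)), (.ofNat (nat_lit 0)), (.ofNat (nat_lit 435754893828453856764491726848)), (.ofNat (nat_lit 0)), (.ofNat (nat_lit 435754893828453856764491726848)), (.negSucc (nat_lit 15)), (.ofNat (nat_lit 16)), (.ofNat (nat_lit 1180591620717411303424)), (.negSucc (nat_lit 1180591620717411303423)), (.negSucc (nat_lit 1180591620717411303423)), (.ofNat (nat_lit 1180591620717411303424)), (.ofNat (nat_lit 7083549724304467820544))⟩,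
    ⟨nat_lit 2, nat_lit 6, nat_lit 5, (.ofNat (nat_lit 8)), (.negSucc (nat_lit 167772159)), (.ofNat (nat_lit 237684487542793012780631851008)), (.ofNat (nat_lit 0)), (.ofNat (nat_lit 237684487542793012780631851008)), (.negSucc (nat_lit 167772175)), (.negSucc (nat_lit 167772143)), (.negSucc (nat_lit 1180591620717411303423)), (.ofNat (nat_lit 1180591620717411303424)), (.negSucc (nat_lit 1180591620717411303423)), (.ofNat (nat_lit 1180591620717411303424)), (.ofNat (nat_lit 7083549724304467820544))⟩,
    ⟨nat_lit 0, nat_lit 6, nat_lit 7, (.ofNat (nat_lit 8)), (.negSucc (nat_lit 117440511)), (.ofNat (nat_lit 178263365657094759585473888256)), (.ofNat (nat_lit 0)), (.ofNat (nat_lit 178263365657094759585473888256)), (.negSucc (nat_lit 117440527)), (.negSucc (nat_lit 117440495)), (.negSucc (nat_lit 1180591620717411303423)), (.ofNat (nat_lit 1180591620717411303424)), (.negSucc (nat_lit 1180591620717411303423)), (.ofNat (nat_lit 1180591620717411303424)), (.ofNat (nat_lit 7083549724304467820544))⟩,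
    ⟨nat_lit 0, nat_lit 7, nat_lit 8, (.ofNat (nat_lit 8)), (.negSucc (nat_lit 33554431)), (.ofNat (nat_lit 277298568799925181577403826176)), (.ofNat (nat_lit 0)), (.ofNat (nat_lit 277298568799925181577403826176)), (.negSucc (nat_lit 33554447)), (.negSucc (nat_lit 33554415)), (.ofNat (nat_lit 1180591620717411303424)), (.negSucc (nat_lit 1180591620717411303423)), (.negSucc (nat_lit 1180591620717411303423)), (.ofNat (nat_lit 1180591620717411303424)), (.ofNat (nat_lit 7083549724304467820544))⟩,
    ⟨nat_lit 0, nat_lit 8, nat_lit 9, (.ofNat (nat_lit 8)), (.ofNat (nat_lit 83886080)), (.ofNat (nat_lit 138649284399962590788701913088)), (.ofNat (nat_lit 0)), (.ofNat (nat_lit 138649284399962590788701913088)), (.ofNat (nat_lit 83886064)), (.ofNat (nat_lit 83886096)), (.negSucc (nat_lit 1180591620717411303423)), (.ofNat (nat_lit 1180591620717411303424)), (.negSucc (nat_lit 1180591620717411303423)), (.ofNat (nat_lit 1180591620717411303424)), (.ofNat (nat_lit 7083549724304467820544))⟩,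
    ⟨nat_lit 1, nat_lit 9, nat_lit 10, (.ofNat (nat_lit 8)), (.ofNat (nat_lit 150994944)), (.ofNat (nat_lit 217877446914226928382245863424)), (.ofNat (nat_lit 0)), (.ofNat (nat_lit 217877446914226928382245863424)), (.ofNat (nat_lit 150994928)), (.ofNat (nat_lit 150994960)), (.ofNat (nat_lit 1180591620717411303424)), (.negSucc (nat_lit 1180591620717411303423)), (.negSucc (nat_lit 1180591620717411303423)), (.ofNat (nat_lit 1180591620717411303424)), (.ofNat (nat_lit 7083549724304467820544))⟩,
    ⟨nat_lit 0, nat_lit 11, nat_lit 10, (.ofNat (nat_lit 8)), (.ofNat (nat_lit 100663296)), (.ofNat (nat_lit 277298568799925181577403826176)), (.ofNat (nat_lit 0)), (.ofNat (nat_lit 277298568799925181577403826176)), (.ofNat (nat_lit 100663280)), (.ofNat (nat_lit 100663312)), (.ofNat (nat_lit 1180591620717411303424)), (.negSucc (nat_lit 1180591620717411303423)), (.negSucc (nat_lit 1180591620717411303423)), (.ofNat (nat_lit 1180591620717411303424)), (.ofNat (nat_lit 7083549724304467820544))⟩,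
    ⟨nat_lit 2, nat_lit 12, nat_lit 11, (.ofNat (nat_lit 8)), (.ofNat (nat_lit 67108864)), (.ofNat (nat_lit 237684487542793012780631851008)), (.ofNat (nat_lit 0)), (.ofNat (nat_lit 237684487542793012780631851008)), (.ofNat (nat_lit 67108848)), (.ofNat (nat_lit 67108880)), (.negSucc (nat_lit 1180591620717411303423)), (.ofNat (nat_lit 1180591620717411303424)), (.negSucc (nat_lit 1180591620717411303423)), (.ofNat (nat_lit 1180591620717411303424)), (.ofNat (nat_lit 7083549724304467820544))⟩,
    ⟨nat_lit 1, nat_lit 13, nat_lit 12, (.ofNat (nat_lit 8)), (.ofNat (nat_lit 134217728)), (.ofNat (nat_lit 158456325028528675187087900672)), (.ofNat (nat_lit 0)), (.ofNat (nat_lit 158456325028528675187087900672)), (.ofNat (nat_lit 134217712)), (.ofNat (nat_lit 134217744)), (.ofNat (nat_lit 1180591620717411303424)), (.negSucc (nat_lit 1180591620717411303423)), (.negSucc (nat_lit 1180591620717411303423)), (.ofNat (nat_lit 1180591620717411303424)), (.ofNat (nat_lit 7083549724304467820544))⟩,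
    ⟨nat_lit 0, nat_lit 14, nat_lit 13, (.ofNat (nat_lit 8)), (.ofNat (nat_lit 83886080)), (.ofNat (nat_lit 99035203142830421991929937920)), (.ofNat (nat_lit 0)), (.ofNat (nat_lit 99035203142830421991929937920)), (.ofNat (nat_lit 83886064)), (.ofNat (nat_lit 83886096)), (.negSucc (nat_lit 1180591620717411303423)), (.ofNat (nat_lit 1180591620717411303424)), (.negSucc (nat_lit 1180591620717411303423)), (.ofNat (nat_lit 1180591620717411303424)), (.ofNat (nat_lit 7083549724304467820544))⟩,
    ⟨nat_lit 0, nat_lit 15, nat_lit 14, (.ofNat (nat_lit 8)), (.negSucc (nat_lit 33554431)), (.ofNat (nat_lit 237684487542793012780631851008)), (.ofNat (nat_lit 0)), (.ofNat (nat_lit 237684487542793012780631851008)), (.negSucc (nat_lit 33554447)), (.negSucc (nat_lit 33554415)), (.ofNat (nat_lit 1180591620717411303424)), (.negSucc (nat_lit 1180591620717411303423)), (.negSucc (nat_lit 1180591620717411303423)), (.ofNat (nat_lit 1180591620717411303424)), (.ofNat (nat_lit 7083549724304467820544))⟩,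
    ⟨nat_lit 2, nat_lit 16, nat_lit 15, (.ofNat (nat_lit 8)), (.negSucc (nat_lit 83886079)), (.ofNat (nat_lit 178263365657094759585473888256)), (.ofNat (nat_lit 0)), (.ofNat (nat_lit 178263365657094759585473888256)), (.negSucc (nat_lit 83886095)), (.negSucc (nat_lit 83886063)), (.negSucc (nat_lit 1180591620717411303423)), (.ofNat (nat_lit 1180591620717411303424)), (.negSucc (nat_lit 1180591620717411303423)), (.ofNat (nat_lit 1180591620717411303424)), (.ofNat (nat_lit 7083549724304467820544))⟩,
    ⟨nat_lit 0, nat_lit 16, nat_lit 17, (.ofNat (nat_lit 8)), (.negSucc (nat_lit 16777215)), (.ofNat (nat_lit 99035203142830421991929937920)), (.ofNat (nat_lit 0)), (.ofNat (nat_lit 99035203142830421991929937920)), (.negSucc (nat_lit 16777231)), (.negSucc (nat_lit 16777199)), (.negSucc (nat_lit 1180591620717411303423)), (.ofNat (nat_lit 1180591620717411303424)), (.negSucc (nat_lit 1180591620717411303423)), (.ofNat (nat_lit 1180591620717411303424)), (.ofNat (nat_lit 7083549724304467820544))⟩,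
    ⟨nat_lit 1, nat_lit 17, nat_lit 18, (.ofNat (nat_lit 8)), (.ofNat (nat_lit 100663296)), (.ofNat (nat_lit 237684487542793012780631851008)), (.ofNat (nat_lit 0)), (.ofNat (nat_lit 237684487542793012780631851008)), (.ofNat (nat_lit 100663280)), (.ofNat (nat_lit 100663312)), (.ofNat (nat_lit 1180591620717411303424)), (.negSucc (nat_lit 1180591620717411303423)), (.negSucc (nat_lit 1180591620717411303423)), (.ofNat (nat_lit 1180591620717411303424)), (.ofNat (nat_lit 7083549724304467820544))⟩,
    ⟨nat_lit 0, nat_lit 19, nat_lit 18, (.ofNat (nat_lit 8)), (.ofNat (nat_lit 67108864)), (.ofNat (nat_lit 277298568799925181577403826176)), (.ofNat (nat_lit 0)), (.ofNat (nat_lit 277298568799925181577403826176)), (.ofNat (nat_lit 67108848)), (.ofNat (nat_lit 67108880)), (.ofNat (nat_lit 1180591620717411303424)), (.negSucc (nat_lit 1180591620717411303423)), (.negSucc (nat_lit 1180591620717411303423)), (.ofNat (nat_lit 1180591620717411303424)), (.ofNat (nat_lit 7083549724304467820544))⟩,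
    ⟨nat_lit 0, nat_lit 20, nat_lit 19, (.ofNat (nat_lit 8)), (.negSucc (nat_lit 33554431)), (.ofNat (nat_lit 158456325028528675187087900672)), (.ofNat (nat_lit 0)), (.ofNat (nat_lit 158456325028528675187087900672)), (.negSucc (nat_lit 33554447)), (.negSucc (nat_lit 33554415)), (.negSucc (nat_lit 1180591620717411303423)), (.ofNat (nat_lit 1180591620717411303424)), (.negSucc (nat_lit 1180591620717411303423)), (.ofNat (nat_lit 1180591620717411303424)), (.ofNat (nat_lit 7083549724304467820544))⟩,
    ⟨nat_lit 2, nat_lit 20, nat_lit 21, (.ofNat (nat_lit 8)), (.negSucc (nat_lit 100663295)), (.ofNat (nat_lit 237684487542793012780631851008)), (.ofNat (nat_lit 0)), (.ofNat (nat_lit 237684487542793012780631851008)), (.negSucc (nat_lit 100663311)), (.negSucc (nat_lit 100663279)), (.negSucc (nat_lit 1180591620717411303423)), (.ofNat (nat_lit 1180591620717411303424)), (.negSucc (nat_lit 1180591620717411303423)), (.ofNat (nat_lit 1180591620717411303424)), (.ofNat (nat_lit 7083549724304467820544))⟩,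
    ⟨nat_lit 0, nat_lit 21, nat_lit 22, (.ofNat (nat_lit 8)), (.negSucc (nat_lit 33554431)), (.ofNat (nat_lit 316912650057057350374175801344)), (.ofNat (nat_lit 0)), (.ofNat (nat_lit 316912650057057350374175801344)), (.negSucc (nat_lit 33554447)), (.negSucc (nat_lit 33554415)), (.ofNat (nat_lit 1180591620717411303424)), (.negSucc (nat_lit 1180591620717411303423)), (.negSucc (nat_lit 1180591620717411303423)), (.ofNat (nat_lit 1180591620717411303424)), (.ofNat (nat_lit 7083549724304467820544))⟩,
    ⟨nat_lit 1, nat_lit 23, nat_lit 22, (.ofNat (nat_lit 8)), (.ofNat (nat_lit 83886080)), (.ofNat (nat_lit 178263365657094759585473888256)), (.ofNat (nat_lit 0)), (.ofNat (nat_lit 178263365657094759585473888256)), (.ofNat (nat_lit 83886064)), (.ofNat (nat_lit 83886096)), (.ofNat (nat_lit 1180591620717411303424)), (.negSucc (nat_lit 1180591620717411303423)), (.negSucc (nat_lit 1180591620717411303423)), (.ofNat (nat_lit 1180591620717411303424)), (.ofNat (nat_lit 7083549724304467820544))⟩]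
  es := [
    ⟨nat_lit 1, nat_lit 0, (.negSucc (nat_lit 167772159)), (.negSucc (nat_lit 33554431)), (.negSucc (nat_lit 167772143)), (.negSucc (nat_lit 33554447)), (.negSucc (nat_lit 1180591620717411303423)), (.negSucc (nat_lit 1180591620717411303423)), (.ofNat (nat_lit 0))⟩,
    ⟨nat_lit 1, nat_lit 2, (.negSucc (nat_lit 167772159)), (.negSucc (nat_lit 100663295)), (.negSucc (nat_lit 167772143)), (.negSucc (nat_lit 100663311)), (.ofNat (nat_lit 1180591620717411303424)), (.ofNat (nat_lit 1180591620717411303424)), (.ofNat (nat_lit 396140812571321687967719751680))⟩,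
    ⟨nat_lit 2, nat_lit 3, (.negSucc (nat_lit 100663295)), (.negSucc (nat_lit 33554431)), (.negSucc (nat_lit 100663279)), (.negSucc (nat_lit 33554447)), (.negSucc (nat_lit 1180591620717411303423)), (.negSucc (nat_lit 1180591620717411303423)), (.ofNat (nat_lit 158456325028528675187087900672))⟩,
    ⟨nat_lit 3, nat_lit 4, (.negSucc (nat_lit 33554431)), (.ofNat (nat_lit 83886080)), (.negSucc (nat_lit 33554415)), (.ofNat (nat_lit 83886064)), (.ofNat (nat_lit 1180591620717411303424)), (.ofNat (nat_lit 1180591620717411303424)), (.ofNat (nat_lit 237684487542793012780631851008))⟩,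
    ⟨nat_lit 5, nat_lit 4, (.ofNat (nat_lit 0)), (.ofNat (nat_lit 83886080)), (.ofNat (nat_lit 16)), (.ofNat (nat_lit 83886064)), (.negSucc (nat_lit 1180591620717411303423)), (.negSucc (nat_lit 1180591620717411303423)), (.ofNat (nat_lit 435754893828453856764491726848))⟩,
    ⟨nat_lit 6, nat_lit 5, (.negSucc (nat_lit 167772159)), (.ofNat (nat_lit 0)), (.negSucc (nat_lit 167772143)), (.negSucc (nat_lit 15)), (.ofNat (nat_lit 1180591620717411303424)), (.ofNat (nat_lit 1180591620717411303424)), (.ofNat (nat_lit 435754893828453856764491726848))⟩,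
    ⟨nat_lit 6, nat_lit 7, (.negSucc (nat_lit 167772159)), (.negSucc (nat_lit 117440511)), (.negSucc (nat_lit 167772143)), (.negSucc (nat_lit 117440527)), (.negSucc (nat_lit 1180591620717411303423)), (.negSucc (nat_lit 1180591620717411303423)), (.ofNat (nat_lit 39614081257132168796771975168))⟩,
    ⟨nat_lit 7, nat_lit 8, (.negSucc (nat_lit 117440511)), (.negSucc (nat_lit 33554431)), (.negSucc (nat_lit 117440495)), (.negSucc (nat_lit 33554447)), (.ofNat (nat_lit 1180591620717411303424)), (.ofNat (nat_lit 1180591620717411303424)), (.ofNat (nat_lit 316912650057057350374175801344))⟩,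
    ⟨nat_lit 8, nat_lit 9, (.negSucc (nat_lit 33554431)), (.ofNat (nat_lit 83886080)), (.negSucc (nat_lit 33554415)), (.ofNat (nat_lit 83886064)), (.negSucc (nat_lit 1180591620717411303423)), (.negSucc (nat_lit 1180591620717411303423)), (.ofNat (nat_lit 237684487542793012780631851008))⟩,
    ⟨nat_lit 9, nat_lit 10, (.ofNat (nat_lit 83886080)), (.ofNat (nat_lit 150994944)), (.ofNat (nat_lit 83886096)), (.ofNat (nat_lit 150994928)), (.ofNat (nat_lit 1180591620717411303424)), (.ofNat (nat_lit 1180591620717411303424)), (.ofNat (nat_lit 39614081257132168796771975168))⟩,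
    ⟨nat_lit 11, nat_lit 10, (.ofNat (nat_lit 100663296)), (.ofNat (nat_lit 150994944)), (.ofNat (nat_lit 100663312)), (.ofNat (nat_lit 150994928)), (.negSucc (nat_lit 1180591620717411303423)), (.negSucc (nat_lit 1180591620717411303423)), (.ofNat (nat_lit 396140812571321687967719751680))⟩,
    ⟨nat_lit 12, nat_lit 11, (.ofNat (nat_lit 67108864)), (.ofNat (nat_lit 100663296)), (.ofNat (nat_lit 67108880)), (.ofNat (nat_lit 100663280)), (.ofNat (nat_lit 1180591620717411303424)), (.ofNat (nat_lit 1180591620717411303424)), (.ofNat (nat_lit 158456325028528675187087900672))⟩,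
    ⟨nat_lit 12, nat_lit 13, (.ofNat (nat_lit 67108864)), (.ofNat (nat_lit 134217728)), (.ofNat (nat_lit 67108880)), (.ofNat (nat_lit 134217712)), (.negSucc (nat_lit 1180591620717411303423)), (.negSucc (nat_lit 1180591620717411303423)), (.ofNat (nat_lit 316912650057057350374175801344))⟩,
    ⟨nat_lit 14, nat_lit 13, (.ofNat (nat_lit 83886080)), (.ofNat (nat_lit 134217728)), (.ofNat (nat_lit 83886096)), (.ofNat (nat_lit 134217712)), (.ofNat (nat_lit 1180591620717411303424)), (.ofNat (nat_lit 1180591620717411303424)), (.ofNat (nat_lit 0))⟩,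
    ⟨nat_lit 15, nat_lit 14, (.negSucc (nat_lit 33554431)), (.ofNat (nat_lit 83886080)), (.negSucc (nat_lit 33554415)), (.ofNat (nat_lit 83886064)), (.negSucc (nat_lit 1180591620717411303423)), (.negSucc (nat_lit 1180591620717411303423)), (.ofNat (nat_lit 198070406285660843983859875840))⟩,
    ⟨nat_lit 16, nat_lit 15, (.negSucc (nat_lit 83886079)), (.negSucc (nat_lit 33554431)), (.negSucc (nat_lit 83886063)), (.negSucc (nat_lit 33554447)), (.ofNat (nat_lit 1180591620717411303424)), (.ofNat (nat_lit 1180591620717411303424)), (.ofNat (nat_lit 277298568799925181577403826176))⟩,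
    ⟨nat_lit 16, nat_lit 17, (.negSucc (nat_lit 83886079)), (.negSucc (nat_lit 16777215)), (.negSucc (nat_lit 83886063)), (.negSucc (nat_lit 16777231)), (.negSucc (nat_lit 1180591620717411303423)), (.negSucc (nat_lit 1180591620717411303423)), (.ofNat (nat_lit 79228162514264337593543950336))⟩,
    ⟨nat_lit 17, nat_lit 18, (.negSucc (nat_lit 16777215)), (.ofNat (nat_lit 100663296)), (.negSucc (nat_lit 16777199)), (.ofNat (nat_lit 100663280)), (.ofNat (nat_lit 1180591620717411303424)), (.ofNat (nat_lit 1180591620717411303424)), (.ofNat (nat_lit 118842243771396506390315925504))⟩,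
    ⟨nat_lit 19, nat_lit 18, (.ofNat (nat_lit 67108864)), (.ofNat (nat_lit 100663296)), (.ofNat (nat_lit 67108880)), (.ofNat (nat_lit 100663280)), (.negSucc (nat_lit 1180591620717411303423)), (.negSucc (nat_lit 1180591620717411303423)), (.ofNat (nat_lit 356526731314189519170947776512))⟩,
    ⟨nat_lit 20, nat_lit 19, (.negSucc (nat_lit 33554431)), (.ofNat (nat_lit 67108864)), (.negSucc (nat_lit 33554415)), (.ofNat (nat_lit 67108848)), (.ofNat (nat_lit 1180591620717411303424)), (.ofNat (nat_lit 1180591620717411303424)), (.ofNat (nat_lit 198070406285660843983859875840))⟩,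
    ⟨nat_lit 21, nat_lit 20, (.negSucc (nat_lit 100663295)), (.negSucc (nat_lit 33554431)), (.negSucc (nat_lit 100663279)), (.negSucc (nat_lit 33554447)), (.negSucc (nat_lit 1180591620717411303423)), (.negSucc (nat_lit 1180591620717411303423)), (.ofNat (nat_lit 118842243771396506390315925504))⟩,
    ⟨nat_lit 21, nat_lit 22, (.negSucc (nat_lit 100663295)), (.negSucc (nat_lit 33554431)), (.negSucc (nat_lit 100663279)), (.negSucc (nat_lit 33554447)), (.ofNat (nat_lit 1180591620717411303424)), (.ofNat (nat_lit 1180591620717411303424)), (.ofNat (nat_lit 356526731314189519170947776512))⟩,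
    ⟨nat_lit 22, nat_lit 23, (.negSucc (nat_lit 33554431)), (.ofNat (nat_lit 83886080)), (.negSucc (nat_lit 33554415)), (.ofNat (nat_lit 83886064)), (.negSucc (nat_lit 1180591620717411303423)), (.negSucc (nat_lit 1180591620717411303423)), (.ofNat (nat_lit 277298568799925181577403826176))⟩,
    ⟨nat_lit 0, nat_lit 23, (.negSucc (nat_lit 33554431)), (.ofNat (nat_lit 83886080)), (.negSucc (nat_lit 33554415)), (.ofNat (nat_lit 83886064)), (.ofNat (nat_lit 1180591620717411303424)), (.ofNat (nat_lit 1180591620717411303424)), (.ofNat (nat_lit 79228162514264337593543950336))⟩]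

end LCA.CapJ


end

section

set_option maxRecDepth 100000

namespace LCA.CapJ

open LCA

theorem ok0 : stOK 23 23 S0 = true := by decide +kernel

def S1 : SD where
  vs := [
    ⟨nat_lit 0, nat_lit 0, nat_lit 23, (.ofNat (nat_lit 8)), (.negSucc (nat_lit 33554431)), (.ofNat (nat_lit 79228162514264337593543950336)), (.ofNat (nat_lit 0)), (.ofNat (nat_lit 39614081257132168796771975168)), (.negSucc (nat_lit 33554447)), (.negSucc (nat_lit 33554415)), (.negSucc (nat_lit 2361183241434822606847)), (.ofNat (nat_lit 2361183241434822606848)), (.negSucc (nat_lit 2361183241434822606847)), (.ofNat (nat_lit 2361183241434822606848)), (.ofNat (nat_lit 7083549724304467820544))⟩,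
    ⟨nat_lit 2, nat_lit 0, nat_lit 1, (.ofNat (nat_lit 8)), (.negSucc (nat_lit 167772159)), (.ofNat (nat_lit 396140812571321687967719751680)), (.ofNat (nat_lit 0)), (.ofNat (nat_lit 198070406285660843983859875840)), (.negSucc (nat_lit 167772175)), (.negSucc (nat_lit 167772143)), (.negSucc (nat_lit 2361183241434822606847)), (.ofNat (nat_lit 2361183241434822606848)), (.negSucc (nat_lit 2361183241434822606847)), (.ofNat (nat_lit 2361183241434822606848)), (.ofNat (nat_lit 7083549724304467820544))⟩,
    ⟨nat_lit 0, nat_lit 1, nat_lit 2, (.ofNat (nat_lit 8)), (.negSucc (nat_lit 100663295)), (.ofNat (nat_lit 554597137599850363154807652352)), (.ofNat (nat_lit 0)), (.ofNat (nat_lit 277298568799925181577403826176)), (.negSucc (nat_lit 100663311)), (.negSucc (nat_lit 100663279)), (.ofNat (nat_lit 2361183241434822606848)), (.negSucc (nat_lit 2361183241434822606847)), (.negSucc (nat_lit 2361183241434822606847)), (.ofNat (nat_lit 2361183241434822606848)), (.ofNat (nat_lit 7083549724304467820544))⟩,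
    ⟨nat_lit 0, nat_lit 2, nat_lit 3, (.ofNat (nat_lit 8)), (.negSucc (nat_lit 33554431)), (.ofNat (nat_lit 396140812571321687967719751680)), (.ofNat (nat_lit 0)), (.ofNat (nat_lit 198070406285660843983859875840)), (.negSucc (nat_lit 33554447)), (.negSucc (nat_lit 33554415)), (.negSucc (nat_lit 2361183241434822606847)), (.ofNat (nat_lit 2361183241434822606848)), (.negSucc (nat_lit 2361183241434822606847)), (.ofNat (nat_lit 2361183241434822606848)), (.ofNat (nat_lit 7083549724304467820544))⟩,
    ⟨nat_lit 1, nat_lit 3, nat_lit 4, (.ofNat (nat_lit 8)), (.ofNat (nat_lit 83886080)), (.ofNat (nat_lit 673439381371246869545123577856)), (.ofNat (nat_lit 0)), (.ofNat (nat_lit 336719690685623434772561788928)), (.ofNat (nat_lit 83886064)), (.ofNat (nat_lit 83886096)), (.ofNat (nat_lit 2361183241434822606848)), (.negSucc (nat_lit 2361183241434822606847)), (.negSucc (nat_lit 2361183241434822606847)), (.ofNat (nat_lit 2361183241434822606848)), (.ofNat (nat_lit 7083549724304467820544))⟩,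
    ⟨nat_lit 0, nat_lit 5, nat_lit 4, (.ofNat (nat_lit 8)), (.ofNat (nat_lit 0)), (.ofNat (nat_lit 871509787656907713528983453696)), (.ofNat (nat_lit 0)), (.ofNat (nat_lit 435754893828453856764491726848)), (.negSucc (nat_lit 15)), (.ofNat (nat_lit 16)), (.ofNat (nat_lit 2361183241434822606848)), (.negSucc (nat_lit 2361183241434822606847)), (.negSucc (nat_lit 2361183241434822606847)), (.ofNat (nat_lit 2361183241434822606848)), (.ofNat (nat_lit 7083549724304467820544))⟩,
    ⟨nat_lit 2, nat_lit 6, nat_lit 5, (.ofNat (nat_lit 8)), (.negSucc (nat_lit 167772159)), (.ofNat (nat_lit 475368975085586025561263702016)), (.ofNat (nat_lit 0)), (.ofNat (nat_lit 237684487542793012780631851008)), (.negSucc (nat_lit 167772175)), (.negSucc (nat_lit 167772143)), (.negSucc (nat_lit 2361183241434822606847)), (.ofNat (nat_lit 2361183241434822606848)), (.negSucc (nat_lit 2361183241434822606847)), (.ofNat (nat_lit 2361183241434822606848)), (.ofNat (nat_lit 7083549724304467820544))⟩,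
    ⟨nat_lit 0, nat_lit 6, nat_lit 7, (.ofNat (nat_lit 8)), (.negSucc (nat_lit 117440511)), (.ofNat (nat_lit 356526731314189519170947776512)), (.ofNat (nat_lit 0)), (.ofNat (nat_lit 178263365657094759585473888256)), (.negSucc (nat_lit 117440527)), (.negSucc (nat_lit 117440495)), (.negSucc (nat_lit 2361183241434822606847)), (.ofNat (nat_lit 2361183241434822606848)), (.negSucc (nat_lit 2361183241434822606847)), (.ofNat (nat_lit 2361183241434822606848)), (.ofNat (nat_lit 7083549724304467820544))⟩,
    ⟨nat_lit 0, nat_lit 7, nat_lit 8, (.ofNat (nat_lit 8)), (.negSucc (nat_lit 33554431)), (.ofNat (nat_lit 554597137599850363154807652352)), (.ofNat (nat_lit 0)), (.ofNat (nat_lit 277298568799925181577403826176)), (.negSucc (nat_lit 33554447)), (.negSucc (nat_lit 33554415)), (.ofNat (nat_lit 2361183241434822606848)), (.negSucc (nat_lit 2361183241434822606847)), (.negSucc (nat_lit 2361183241434822606847)), (.ofNat (nat_lit 2361183241434822606848)), (.ofNat (nat_lit 7083549724304467820544))⟩,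
    ⟨nat_lit 0, nat_lit 8, nat_lit 9, (.ofNat (nat_lit 8)), (.ofNat (nat_lit 83886080)), (.ofNat (nat_lit 277298568799925181577403826176)), (.ofNat (nat_lit 0)), (.ofNat (nat_lit 138649284399962590788701913088)), (.ofNat (nat_lit 83886064)), (.ofNat (nat_lit 83886096)), (.negSucc (nat_lit 2361183241434822606847)), (.ofNat (nat_lit 2361183241434822606848)), (.negSucc (nat_lit 2361183241434822606847)), (.ofNat (nat_lit 2361183241434822606848)), (.ofNat (nat_lit 7083549724304467820544))⟩,
    ⟨nat_lit 1, nat_lit 9, nat_lit 10, (.ofNat (nat_lit 8)), (.ofNat (nat_lit 150994944)), (.ofNat (nat_lit 435754893828453856764491726848)), (.ofNat (nat_lit 0)), (.ofNat (nat_lit 217877446914226928382245863424)), (.ofNat (nat_lit 150994928)), (.ofNat (nat_lit 150994960)), (.ofNat (nat_lit 2361183241434822606848)), (.negSucc (nat_lit 2361183241434822606847)), (.negSucc (nat_lit 2361183241434822606847)), (.ofNat (nat_lit 2361183241434822606848)), (.ofNat (nat_lit 7083549724304467820544))⟩,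
    ⟨nat_lit 0, nat_lit 11, nat_lit 10, (.ofNat (nat_lit 8)), (.ofNat (nat_lit 100663296)), (.ofNat (nat_lit 554597137599850363154807652352)), (.ofNat (nat_lit 0)), (.ofNat (nat_lit 277298568799925181577403826176)), (.ofNat (nat_lit 100663280)), (.ofNat (nat_lit 100663312)), (.ofNat (nat_lit 2361183241434822606848)), (.negSucc (nat_lit 2361183241434822606847)), (.negSucc (nat_lit 2361183241434822606847)), (.ofNat (nat_lit 2361183241434822606848)), (.ofNat (nat_lit 7083549724304467820544))⟩,
    ⟨nat_lit 2, nat_lit 12, nat_lit 11, (.ofNat (nat_lit 8)), (.ofNat (nat_lit 67108864)), (.ofNat (nat_lit 475368975085586025561263702016)), (.ofNat (nat_lit 0)), (.ofNat (nat_lit 237684487542793012780631851008)), (.ofNat (nat_lit 67108848)), (.ofNat (nat_lit 67108880)), (.negSucc (nat_lit 2361183241434822606847)), (.ofNat (nat_lit 2361183241434822606848)), (.negSucc (nat_lit 2361183241434822606847)), (.ofNat (nat_lit 2361183241434822606848)), (.ofNat (nat_lit 7083549724304467820544))⟩,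
    ⟨nat_lit 1, nat_lit 13, nat_lit 12, (.ofNat (nat_lit 8)), (.ofNat (nat_lit 134217728)), (.ofNat (nat_lit 316912650057057350374175801344)), (.ofNat (nat_lit 0)), (.ofNat (nat_lit 158456325028528675187087900672)), (.ofNat (nat_lit 134217712)), (.ofNat (nat_lit 134217744)), (.ofNat (nat_lit 2361183241434822606848)), (.negSucc (nat_lit 2361183241434822606847)), (.negSucc (nat_lit 2361183241434822606847)), (.ofNat (nat_lit 2361183241434822606848)), (.ofNat (nat_lit 7083549724304467820544))⟩,
    ⟨nat_lit 0, nat_lit 14, nat_lit 13, (.ofNat (nat_lit 8)), (.ofNat (nat_lit 83886080)), (.ofNat (nat_lit 198070406285660843983859875840)), (.ofNat (nat_lit 0)), (.ofNat (nat_lit 99035203142830421991929937920)), (.ofNat (nat_lit 83886064)), (.ofNat (nat_lit 83886096)), (.negSucc (nat_lit 2361183241434822606847)), (.ofNat (nat_lit 2361183241434822606848)), (.negSucc (nat_lit 2361183241434822606847)), (.ofNat (nat_lit 2361183241434822606848)), (.ofNat (nat_lit 7083549724304467820544))⟩,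
    ⟨nat_lit 0, nat_lit 15, nat_lit 14, (.ofNat (nat_lit 8)), (.negSucc (nat_lit 33554431)), (.ofNat (nat_lit 475368975085586025561263702016)), (.ofNat (nat_lit 0)), (.ofNat (nat_lit 237684487542793012780631851008)), (.negSucc (nat_lit 33554447)), (.negSucc (nat_lit 33554415)), (.ofNat (nat_lit 2361183241434822606848)), (.negSucc (nat_lit 2361183241434822606847)), (.negSucc (nat_lit 2361183241434822606847)), (.ofNat (nat_lit 2361183241434822606848)), (.ofNat (nat_lit 7083549724304467820544))⟩,
    ⟨nat_lit 2, nat_lit 16, nat_lit 15, (.ofNat (nat_lit 8)), (.negSucc (nat_lit 83886079)), (.ofNat (nat_lit 356526731314189519170947776512)), (.ofNat (nat_lit 0)), (.ofNat (nat_lit 178263365657094759585473888256)), (.negSucc (nat_lit 83886095)), (.negSucc (nat_lit 83886063)), (.negSucc (nat_lit 2361183241434822606847)), (.ofNat (nat_lit 2361183241434822606848)), (.negSucc (nat_lit 2361183241434822606847)), (.ofNat (nat_lit 2361183241434822606848)), (.ofNat (nat_lit 7083549724304467820544))⟩,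
    ⟨nat_lit 0, nat_lit 16, nat_lit 17, (.ofNat (nat_lit 8)), (.negSucc (nat_lit 16777215)), (.ofNat (nat_lit 198070406285660843983859875840)), (.ofNat (nat_lit 0)), (.ofNat (nat_lit 99035203142830421991929937920)), (.negSucc (nat_lit 16777231)), (.negSucc (nat_lit 16777199)), (.negSucc (nat_lit 2361183241434822606847)), (.ofNat (nat_lit 2361183241434822606848)), (.negSucc (nat_lit 2361183241434822606847)), (.ofNat (nat_lit 2361183241434822606848)), (.ofNat (nat_lit 7083549724304467820544))⟩,
    ⟨nat_lit 1, nat_lit 17, nat_lit 18, (.ofNat (nat_lit 8)), (.ofNat (nat_lit 100663296)), (.ofNat (nat_lit 475368975085586025561263702016)), (.ofNat (nat_lit 0)), (.ofNat (nat_lit 237684487542793012780631851008)), (.ofNat (nat_lit 100663280)), (.ofNat (nat_lit 100663312)), (.ofNat (nat_lit 2361183241434822606848)), (.negSucc (nat_lit 2361183241434822606847)), (.negSucc (nat_lit 2361183241434822606847)), (.ofNat (nat_lit 2361183241434822606848)), (.ofNat (nat_lit 7083549724304467820544))⟩,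
    ⟨nat_lit 0, nat_lit 19, nat_lit 18, (.ofNat (nat_lit 8)), (.ofNat (nat_lit 67108864)), (.ofNat (nat_lit 554597137599850363154807652352)), (.ofNat (nat_lit 0)), (.ofNat (nat_lit 277298568799925181577403826176)), (.ofNat (nat_lit 67108848)), (.ofNat (nat_lit 67108880)), (.ofNat (nat_lit 2361183241434822606848)), (.negSucc (nat_lit 2361183241434822606847)), (.negSucc (nat_lit 2361183241434822606847)), (.ofNat (nat_lit 2361183241434822606848)), (.ofNat (nat_lit 7083549724304467820544))⟩,
    ⟨nat_lit 0, nat_lit 20, nat_lit 19, (.ofNat (nat_lit 8)), (.negSucc (nat_lit 33554431)), (.ofNat (nat_lit 316912650057057350374175801344)), (.ofNat (nat_lit 0)), (.ofNat (nat_lit 158456325028528675187087900672)), (.negSucc (nat_lit 33554447)), (.negSucc (nat_lit 33554415)), (.negSucc (nat_lit 2361183241434822606847)), (.ofNat (nat_lit 2361183241434822606848)), (.negSucc (nat_lit 2361183241434822606847)), (.ofNat (nat_lit 2361183241434822606848)), (.ofNat (nat_lit 7083549724304467820544))⟩,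
    ⟨nat_lit 2, nat_lit 20, nat_lit 21, (.ofNat (nat_lit 8)), (.negSucc (nat_lit 100663295)), (.ofNat (nat_lit 475368975085586025561263702016)), (.ofNat (nat_lit 0)), (.ofNat (nat_lit 237684487542793012780631851008)), (.negSucc (nat_lit 100663311)), (.negSucc (nat_lit 100663279)), (.negSucc (nat_lit 2361183241434822606847)), (.ofNat (nat_lit 2361183241434822606848)), (.negSucc (nat_lit 2361183241434822606847)), (.ofNat (nat_lit 2361183241434822606848)), (.ofNat (nat_lit 7083549724304467820544))⟩,
    ⟨nat_lit 0, nat_lit 21, nat_lit 22, (.ofNat (nat_lit 8)), (.negSucc (nat_lit 33554431)), (.ofNat (nat_lit 633825300114114700748351602688)), (.ofNat (nat_lit 0)), (.ofNat (nat_lit 316912650057057350374175801344)), (.negSucc (nat_lit 33554447)), (.negSucc (nat_lit 33554415)), (.ofNat (nat_lit 2361183241434822606848)), (.negSucc (nat_lit 2361183241434822606847)), (.negSucc (nat_lit 2361183241434822606847)), (.ofNat (nat_lit 2361183241434822606848)), (.ofNat (nat_lit 7083549724304467820544))⟩,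
    ⟨nat_lit 1, nat_lit 23, nat_lit 22, (.ofNat (nat_lit 8)), (.ofNat (nat_lit 83886080)), (.ofNat (nat_lit 356526731314189519170947776512)), (.ofNat (nat_lit 0)), (.ofNat (nat_lit 178263365657094759585473888256)), (.ofNat (nat_lit 83886064)), (.ofNat (nat_lit 83886096)), (.ofNat (nat_lit 2361183241434822606848)), (.negSucc (nat_lit 2361183241434822606847)), (.negSucc (nat_lit 2361183241434822606847)), (.ofNat (nat_lit 2361183241434822606848)), (.ofNat (nat_lit 7083549724304467820544))⟩]
  es := [
    ⟨nat_lit 1, nat_lit 0, (.negSucc (nat_lit 167772159)), (.negSucc (nat_lit 33554431)), (.negSucc (nat_lit 167772143)), (.negSucc (nat_lit 33554447)), (.negSucc (nat_lit 2361183241434822606847)), (.negSucc (nat_lit 1180591620717411303423)), (.ofNat (nat_lit 0))⟩,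
    ⟨nat_lit 1, nat_lit 2, (.negSucc (nat_lit 167772159)), (.negSucc (nat_lit 100663295)), (.negSucc (nat_lit 167772143)), (.negSucc (nat_lit 100663311)), (.ofNat (nat_lit 2361183241434822606848)), (.ofNat (nat_lit 1180591620717411303424)), (.ofNat (nat_lit 396140812571321687967719751680))⟩,
    ⟨nat_lit 2, nat_lit 3, (.negSucc (nat_lit 100663295)), (.negSucc (nat_lit 33554431)), (.negSucc (nat_lit 100663279)), (.negSucc (nat_lit 33554447)), (.negSucc (nat_lit 2361183241434822606847)), (.negSucc (nat_lit 1180591620717411303423)), (.ofNat (nat_lit 158456325028528675187087900672))⟩,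
    ⟨nat_lit 3, nat_lit 4, (.negSucc (nat_lit 33554431)), (.ofNat (nat_lit 83886080)), (.negSucc (nat_lit 33554415)), (.ofNat (nat_lit 83886064)), (.ofNat (nat_lit 2361183241434822606848)), (.ofNat (nat_lit 1180591620717411303424)), (.ofNat (nat_lit 237684487542793012780631851008))⟩,
    ⟨nat_lit 5, nat_lit 4, (.ofNat (nat_lit 0)), (.ofNat (nat_lit 83886080)), (.ofNat (nat_lit 16)), (.ofNat (nat_lit 83886064)), (.negSucc (nat_lit 2361183241434822606847)), (.negSucc (nat_lit 1180591620717411303423)), (.ofNat (nat_lit 435754893828453856764491726848))⟩,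
    ⟨nat_lit 6, nat_lit 5, (.negSucc (nat_lit 167772159)), (.ofNat (nat_lit 0)), (.negSucc (nat_lit 167772143)), (.negSucc (nat_lit 15)), (.ofNat (nat_lit 2361183241434822606848)), (.ofNat (nat_lit 1180591620717411303424)), (.ofNat (nat_lit 435754893828453856764491726848))⟩,
    ⟨nat_lit 6, nat_lit 7, (.negSucc (nat_lit 167772159)), (.negSucc (nat_lit 117440511)), (.negSucc (nat_lit 167772143)), (.negSucc (nat_lit 117440527)), (.negSucc (nat_lit 2361183241434822606847)), (.negSucc (nat_lit 1180591620717411303423)), (.ofNat (nat_lit 39614081257132168796771975168))⟩,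
    ⟨nat_lit 7, nat_lit 8, (.negSucc (nat_lit 117440511)), (.negSucc (nat_lit 33554431)), (.negSucc (nat_lit 117440495)), (.negSucc (nat_lit 33554447)), (.ofNat (nat_lit 2361183241434822606848)), (.ofNat (nat_lit 1180591620717411303424)), (.ofNat (nat_lit 316912650057057350374175801344))⟩,
    ⟨nat_lit 8, nat_lit 9, (.negSucc (nat_lit 33554431)), (.ofNat (nat_lit 83886080)), (.negSucc (nat_lit 33554415)), (.ofNat (nat_lit 83886064)), (.negSucc (nat_lit 2361183241434822606847)), (.negSucc (nat_lit 1180591620717411303423)), (.ofNat (nat_lit 237684487542793012780631851008))⟩,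
    ⟨nat_lit 9, nat_lit 10, (.ofNat (nat_lit 83886080)), (.ofNat (nat_lit 150994944)), (.ofNat (nat_lit 83886096)), (.ofNat (nat_lit 150994928)), (.ofNat (nat_lit 2361183241434822606848)), (.ofNat (nat_lit 1180591620717411303424)), (.ofNat (nat_lit 39614081257132168796771975168))⟩,
    ⟨nat_lit 11, nat_lit 10, (.ofNat (nat_lit 100663296)), (.ofNat (nat_lit 150994944)), (.ofNat (nat_lit 100663312)), (.ofNat (nat_lit 150994928)), (.negSucc (nat_lit 2361183241434822606847)), (.negSucc (nat_lit 1180591620717411303423)), (.ofNat (nat_lit 396140812571321687967719751680))⟩,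
    ⟨nat_lit 12, nat_lit 11, (.ofNat (nat_lit 67108864)), (.ofNat (nat_lit 100663296)), (.ofNat (nat_lit 67108880)), (.ofNat (nat_lit 100663280)), (.ofNat (nat_lit 2361183241434822606848)), (.ofNat (nat_lit 1180591620717411303424)), (.ofNat (nat_lit 158456325028528675187087900672))⟩,
    ⟨nat_lit 12, nat_lit 13, (.ofNat (nat_lit 67108864)), (.ofNat (nat_lit 134217728)), (.ofNat (nat_lit 67108880)), (.ofNat (nat_lit 134217712)), (.negSucc (nat_lit 2361183241434822606847)), (.negSucc (nat_lit 1180591620717411303423)), (.ofNat (nat_lit 316912650057057350374175801344))⟩,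
    ⟨nat_lit 14, nat_lit 13, (.ofNat (nat_lit 83886080)), (.ofNat (nat_lit 134217728)), (.ofNat (nat_lit 83886096)), (.ofNat (nat_lit 134217712)), (.ofNat (nat_lit 2361183241434822606848)), (.ofNat (nat_lit 1180591620717411303424)), (.ofNat (nat_lit 0))⟩,
    ⟨nat_lit 15, nat_lit 14, (.negSucc (nat_lit 33554431)), (.ofNat (nat_lit 83886080)), (.negSucc (nat_lit 33554415)), (.ofNat (nat_lit 83886064)), (.negSucc (nat_lit 2361183241434822606847)), (.negSucc (nat_lit 1180591620717411303423)), (.ofNat (nat_lit 198070406285660843983859875840))⟩,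
    ⟨nat_lit 16, nat_lit 15, (.negSucc (nat_lit 83886079)), (.negSucc (nat_lit 33554431)), (.negSucc (nat_lit 83886063)), (.negSucc (nat_lit 33554447)), (.ofNat (nat_lit 2361183241434822606848)), (.ofNat (nat_lit 1180591620717411303424)), (.ofNat (nat_lit 277298568799925181577403826176))⟩,
    ⟨nat_lit 16, nat_lit 17, (.negSucc (nat_lit 83886079)), (.negSucc (nat_lit 16777215)), (.negSucc (nat_lit 83886063)), (.negSucc (nat_lit 16777231)), (.negSucc (nat_lit 2361183241434822606847)), (.negSucc (nat_lit 1180591620717411303423)), (.ofNat (nat_lit 79228162514264337593543950336))⟩,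
    ⟨nat_lit 17, nat_lit 18, (.negSucc (nat_lit 16777215)), (.ofNat (nat_lit 100663296)), (.negSucc (nat_lit 16777199)), (.ofNat (nat_lit 100663280)), (.ofNat (nat_lit 2361183241434822606848)), (.ofNat (nat_lit 1180591620717411303424)), (.ofNat (nat_lit 118842243771396506390315925504))⟩,
    ⟨nat_lit 19, nat_lit 18, (.ofNat (nat_lit 67108864)), (.ofNat (nat_lit 100663296)), (.ofNat (nat_lit 67108880)), (.ofNat (nat_lit 100663280)), (.negSucc (nat_lit 2361183241434822606847)), (.negSucc (nat_lit 1180591620717411303423)), (.ofNat (nat_lit 356526731314189519170947776512))⟩,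
    ⟨nat_lit 20, nat_lit 19, (.negSucc (nat_lit 33554431)), (.ofNat (nat_lit 67108864)), (.negSucc (nat_lit 33554415)), (.ofNat (nat_lit 67108848)), (.ofNat (nat_lit 2361183241434822606848)), (.ofNat (nat_lit 1180591620717411303424)), (.ofNat (nat_lit 198070406285660843983859875840))⟩,
    ⟨nat_lit 21, nat_lit 20, (.negSucc (nat_lit 100663295)), (.negSucc (nat_lit 33554431)), (.negSucc (nat_lit 100663279)), (.negSucc (nat_lit 33554447)), (.negSucc (nat_lit 2361183241434822606847)), (.negSucc (nat_lit 1180591620717411303423)), (.ofNat (nat_lit 118842243771396506390315925504))⟩,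
    ⟨nat_lit 21, nat_lit 22, (.negSucc (nat_lit 100663295)), (.negSucc (nat_lit 33554431)), (.negSucc (nat_lit 100663279)), (.negSucc (nat_lit 33554447)), (.ofNat (nat_lit 2361183241434822606848)), (.ofNat (nat_lit 1180591620717411303424)), (.ofNat (nat_lit 356526731314189519170947776512))⟩,
    ⟨nat_lit 22, nat_lit 23, (.negSucc (nat_lit 33554431)), (.ofNat (nat_lit 83886080)), (.negSucc (nat_lit 33554415)), (.ofNat (nat_lit 83886064)), (.negSucc (nat_lit 2361183241434822606847)), (.negSucc (nat_lit 1180591620717411303423)), (.ofNat (nat_lit 277298568799925181577403826176))⟩,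
    ⟨nat_lit 0, nat_lit 23, (.negSucc (nat_lit 33554431)), (.ofNat (nat_lit 83886080)), (.negSucc (nat_lit 33554415)), (.ofNat (nat_lit 83886064)), (.ofNat (nat_lit 2361183241434822606848)), (.ofNat (nat_lit 1180591620717411303424)), (.ofNat (nat_lit 79228162514264337593543950336))⟩]

theorem ok1 : stOK 23 23 S1 = true := by decide +kernel

def S2 : SD where
  vs := [
    ⟨nat_lit 0, nat_lit 0, nat_lit 23, (.ofNat (nat_lit 8)), (.negSucc (nat_lit 33554431)), (.ofNat (nat_lit 40233051276774858934221537280)), (.ofNat (nat_lit 0)), (.ofNat (nat_lit 618970019642690137449562112)), (.negSucc (nat_lit 33554447)), (.negSucc (nat_lit 33554415)), (.negSucc (nat_lit 1199038364791120855039)), (.ofNat (nat_lit 1199038364791120855040)), (.negSucc (nat_lit 1199038364791120855039)), (.ofNat (nat_lit 1199038364791120855040)), (.ofNat (nat_lit 110680464442257309696))⟩,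
    ⟨nat_lit 2, nat_lit 0, nat_lit 1, (.ofNat (nat_lit 8)), (.negSucc (nat_lit 167772159)), (.ofNat (nat_lit 201165256383874294671107686400)), (.ofNat (nat_lit 0)), (.ofNat (nat_lit 3094850098213450687247810560)), (.negSucc (nat_lit 167772175)), (.negSucc (nat_lit 167772143)), (.negSucc (nat_lit 1199038364791120855039)), (.ofNat (nat_lit 1199038364791120855040)), (.negSucc (nat_lit 1199038364791120855039)), (.ofNat (nat_lit 1199038364791120855040)), (.ofNat (nat_lit 110680464442257309696))⟩,
    ⟨nat_lit 0, nat_lit 1, nat_lit 2, (.ofNat (nat_lit 8)), (.negSucc (nat_lit 100663295)), (.ofNat (nat_lit 281631358937424012539550760960)), (.ofNat (nat_lit 0)), (.ofNat (nat_lit 4332790137498830962146934784)), (.negSucc (nat_lit 100663311)), (.negSucc (nat_lit 100663279)), (.ofNat (nat_lit 1199038364791120855040)), (.negSucc (nat_lit 1199038364791120855039)), (.negSucc (nat_lit 1199038364791120855039)), (.ofNat (nat_lit 1199038364791120855040)), (.ofNat (nat_lit 110680464442257309696))⟩,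
    ⟨nat_lit 0, nat_lit 2, nat_lit 3, (.ofNat (nat_lit 8)), (.negSucc (nat_lit 33554431)), (.ofNat (nat_lit 201165256383874294671107686400)), (.ofNat (nat_lit 0)), (.ofNat (nat_lit 3094850098213450687247810560)), (.negSucc (nat_lit 33554447)), (.negSucc (nat_lit 33554415)), (.negSucc (nat_lit 1199038364791120855039)), (.ofNat (nat_lit 1199038364791120855040)), (.negSucc (nat_lit 1199038364791120855039)), (.ofNat (nat_lit 1199038364791120855040)), (.ofNat (nat_lit 110680464442257309696))⟩,
    ⟨nat_lit 1, nat_lit 3, nat_lit 4, (.ofNat (nat_lit 8)), (.ofNat (nat_lit 83886080)), (.ofNat (nat_lit 341980935852586300940883066880)), (.ofNat (nat_lit 0)), (.ofNat (nat_lit 5261245166962866168321277952)), (.ofNat (nat_lit 83886064)), (.ofNat (nat_lit 83886096)), (.ofNat (nat_lit 1199038364791120855040)), (.negSucc (nat_lit 1199038364791120855039)), (.negSucc (nat_lit 1199038364791120855039)), (.ofNat (nat_lit 1199038364791120855040)), (.ofNat (nat_lit 110680464442257309696))⟩,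
    ⟨nat_lit 0, nat_lit 5, nat_lit 4, (.ofNat (nat_lit 8)), (.ofNat (nat_lit 0)), (.ofNat (nat_lit 442563564044523448276436910080)), (.ofNat (nat_lit 0)), (.ofNat (nat_lit 6808670216069591511945183232)), (.negSucc (nat_lit 15)), (.ofNat (nat_lit 16)), (.ofNat (nat_lit 1199038364791120855040)), (.negSucc (nat_lit 1199038364791120855039)), (.negSucc (nat_lit 1199038364791120855039)), (.ofNat (nat_lit 1199038364791120855040)), (.ofNat (nat_lit 110680464442257309696))⟩,
    ⟨nat_lit 2, nat_lit 6, nat_lit 5, (.ofNat (nat_lit 8)), (.negSucc (nat_lit 167772159)), (.ofNat (nat_lit 241398307660649153605329223680)), (.ofNat (nat_lit 0)), (.ofNat (nat_lit 3713820117856140824697372672)), (.negSucc (nat_lit 167772175)), (.negSucc (nat_lit 167772143)), (.negSucc (nat_lit 1199038364791120855039)), (.ofNat (nat_lit 1199038364791120855040)), (.negSucc (nat_lit 1199038364791120855039)), (.ofNat (nat_lit 1199038364791120855040)), (.ofNat (nat_lit 110680464442257309696))⟩,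
    ⟨nat_lit 0, nat_lit 6, nat_lit 7, (.ofNat (nat_lit 8)), (.negSucc (nat_lit 117440511)), (.ofNat (nat_lit 181048730745486865203996917760)), (.ofNat (nat_lit 0)), (.ofNat (nat_lit 2785365088392105618523029504)), (.negSucc (nat_lit 117440527)), (.negSucc (nat_lit 117440495)), (.negSucc (nat_lit 1199038364791120855039)), (.ofNat (nat_lit 1199038364791120855040)), (.negSucc (nat_lit 1199038364791120855039)), (.ofNat (nat_lit 1199038364791120855040)), (.ofNat (nat_lit 110680464442257309696))⟩,
    ⟨nat_lit 0, nat_lit 7, nat_lit 8, (.ofNat (nat_lit 8)), (.negSucc (nat_lit 33554431)), (.ofNat (nat_lit 281631358937424012539550760960)), (.ofNat (nat_lit 0)), (.ofNat (nat_lit 4332790137498830962146934784)), (.negSucc (nat_lit 33554447)), (.negSucc (nat_lit 33554415)), (.ofNat (nat_lit 1199038364791120855040)), (.negSucc (nat_lit 1199038364791120855039)), (.negSucc (nat_lit 1199038364791120855039)), (.ofNat (nat_lit 1199038364791120855040)), (.ofNat (nat_lit 110680464442257309696))⟩,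
    ⟨nat_lit 0, nat_lit 8, nat_lit 9, (.ofNat (nat_lit 8)), (.ofNat (nat_lit 83886080)), (.ofNat (nat_lit 140815679468712006269775380480)), (.ofNat (nat_lit 0)), (.ofNat (nat_lit 2166395068749415481073467392)), (.ofNat (nat_lit 83886064)), (.ofNat (nat_lit 83886096)), (.negSucc (nat_lit 1199038364791120855039)), (.ofNat (nat_lit 1199038364791120855040)), (.negSucc (nat_lit 1199038364791120855039)), (.ofNat (nat_lit 1199038364791120855040)), (.ofNat (nat_lit 110680464442257309696))⟩,
    ⟨nat_lit 1, nat_lit 9, nat_lit 10, (.ofNat (nat_lit 8)), (.ofNat (nat_lit 150994944)), (.ofNat (nat_lit 221281782022261724138218455040)), (.ofNat (nat_lit 0)), (.ofNat (nat_lit 3404335108034795755972591616)), (.ofNat (nat_lit 150994928)), (.ofNat (nat_lit 150994960)), (.ofNat (nat_lit 1199038364791120855040)), (.negSucc (nat_lit 1199038364791120855039)), (.negSucc (nat_lit 1199038364791120855039)), (.ofNat (nat_lit 1199038364791120855040)), (.ofNat (nat_lit 110680464442257309696))⟩,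
    ⟨nat_lit 0, nat_lit 11, nat_lit 10, (.ofNat (nat_lit 8)), (.ofNat (nat_lit 100663296)), (.ofNat (nat_lit 281631358937424012539550760960)), (.ofNat (nat_lit 0)), (.ofNat (nat_lit 4332790137498830962146934784)), (.ofNat (nat_lit 100663280)), (.ofNat (nat_lit 100663312)), (.ofNat (nat_lit 1199038364791120855040)), (.negSucc (nat_lit 1199038364791120855039)), (.negSucc (nat_lit 1199038364791120855039)), (.ofNat (nat_lit 1199038364791120855040)), (.ofNat (nat_lit 110680464442257309696))⟩,
    ⟨nat_lit 2, nat_lit 12, nat_lit 11, (.ofNat (nat_lit 8)), (.ofNat (nat_lit 67108864)), (.ofNat (nat_lit 241398307660649153605329223680)), (.ofNat (nat_lit 0)), (.ofNat (nat_lit 3713820117856140824697372672)), (.ofNat (nat_lit 67108848)), (.ofNat (nat_lit 67108880)), (.negSucc (nat_lit 1199038364791120855039)), (.ofNat (nat_lit 1199038364791120855040)), (.negSucc (nat_lit 1199038364791120855039)), (.ofNat (nat_lit 1199038364791120855040)), (.ofNat (nat_lit 110680464442257309696))⟩,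
    ⟨nat_lit 1, nat_lit 13, nat_lit 12, (.ofNat (nat_lit 8)), (.ofNat (nat_lit 134217728)), (.ofNat (nat_lit 160932205107099435736886149120)), (.ofNat (nat_lit 0)), (.ofNat (nat_lit 2475880078570760549798248448)), (.ofNat (nat_lit 134217712)), (.ofNat (nat_lit 134217744)), (.ofNat (nat_lit 1199038364791120855040)), (.negSucc (nat_lit 1199038364791120855039)), (.negSucc (nat_lit 1199038364791120855039)), (.ofNat (nat_lit 1199038364791120855040)), (.ofNat (nat_lit 110680464442257309696))⟩,
    ⟨nat_lit 0, nat_lit 14, nat_lit 13, (.ofNat (nat_lit 8)), (.ofNat (nat_lit 83886080)), (.ofNat (nat_lit 100582628191937147335553843200)), (.ofNat (nat_lit 0)), (.ofNat (nat_lit 1547425049106725343623905280)), (.ofNat (nat_lit 83886064)), (.ofNat (nat_lit 83886096)), (.negSucc (nat_lit 1199038364791120855039)), (.ofNat (nat_lit 1199038364791120855040)), (.negSucc (nat_lit 1199038364791120855039)), (.ofNat (nat_lit 1199038364791120855040)), (.ofNat (nat_lit 110680464442257309696))⟩,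
    ⟨nat_lit 0, nat_lit 15, nat_lit 14, (.ofNat (nat_lit 8)), (.negSucc (nat_lit 33554431)), (.ofNat (nat_lit 241398307660649153605329223680)), (.ofNat (nat_lit 0)), (.ofNat (nat_lit 3713820117856140824697372672)), (.negSucc (nat_lit 33554447)), (.negSucc (nat_lit 33554415)), (.ofNat (nat_lit 1199038364791120855040)), (.negSucc (nat_lit 1199038364791120855039)), (.negSucc (nat_lit 1199038364791120855039)), (.ofNat (nat_lit 1199038364791120855040)), (.ofNat (nat_lit 110680464442257309696))⟩,
    ⟨nat_lit 2, nat_lit 16, nat_lit 15, (.ofNat (nat_lit 8)), (.negSucc (nat_lit 83886079)), (.ofNat (nat_lit 181048730745486865203996917760)), (.ofNat (nat_lit 0)), (.ofNat (nat_lit 2785365088392105618523029504)), (.negSucc (nat_lit 83886095)), (.negSucc (nat_lit 83886063)), (.negSucc (nat_lit 1199038364791120855039)), (.ofNat (nat_lit 1199038364791120855040)), (.negSucc (nat_lit 1199038364791120855039)), (.ofNat (nat_lit 1199038364791120855040)), (.ofNat (nat_lit 110680464442257309696))⟩,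
    ⟨nat_lit 0, nat_lit 16, nat_lit 17, (.ofNat (nat_lit 8)), (.negSucc (nat_lit 16777215)), (.ofNat (nat_lit 100582628191937147335553843200)), (.ofNat (nat_lit 0)), (.ofNat (nat_lit 1547425049106725343623905280)), (.negSucc (nat_lit 16777231)), (.negSucc (nat_lit 16777199)), (.negSucc (nat_lit 1199038364791120855039)), (.ofNat (nat_lit 1199038364791120855040)), (.negSucc (nat_lit 1199038364791120855039)), (.ofNat (nat_lit 1199038364791120855040)), (.ofNat (nat_lit 110680464442257309696))⟩,
    ⟨nat_lit 1, nat_lit 17, nat_lit 18, (.ofNat (nat_lit 8)), (.ofNat (nat_lit 100663296)), (.ofNat (nat_lit 241398307660649153605329223680)), (.ofNat (nat_lit 0)), (.ofNat (nat_lit 3713820117856140824697372672)), (.ofNat (nat_lit 100663280)), (.ofNat (nat_lit 100663312)), (.ofNat (nat_lit 1199038364791120855040)), (.negSucc (nat_lit 1199038364791120855039)), (.negSucc (nat_lit 1199038364791120855039)), (.ofNat (nat_lit 1199038364791120855040)), (.ofNat (nat_lit 110680464442257309696))⟩,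
    ⟨nat_lit 0, nat_lit 19, nat_lit 18, (.ofNat (nat_lit 8)), (.ofNat (nat_lit 67108864)), (.ofNat (nat_lit 281631358937424012539550760960)), (.ofNat (nat_lit 0)), (.ofNat (nat_lit 4332790137498830962146934784)), (.ofNat (nat_lit 67108848)), (.ofNat (nat_lit 67108880)), (.ofNat (nat_lit 1199038364791120855040)), (.negSucc (nat_lit 1199038364791120855039)), (.negSucc (nat_lit 1199038364791120855039)), (.ofNat (nat_lit 1199038364791120855040)), (.ofNat (nat_lit 110680464442257309696))⟩,
    ⟨nat_lit 0, nat_lit 20, nat_lit 19, (.ofNat (nat_lit 8)), (.negSucc (nat_lit 33554431)), (.ofNat (nat_lit 160932205107099435736886149120)), (.ofNat (nat_lit 0)), (.ofNat (nat_lit 2475880078570760549798248448)), (.negSucc (nat_lit 33554447)), (.negSucc (nat_lit 33554415)), (.negSucc (nat_lit 1199038364791120855039)), (.ofNat (nat_lit 1199038364791120855040)), (.negSucc (nat_lit 1199038364791120855039)), (.ofNat (nat_lit 1199038364791120855040)), (.ofNat (nat_lit 110680464442257309696))⟩,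
    ⟨nat_lit 2, nat_lit 20, nat_lit 21, (.ofNat (nat_lit 8)), (.negSucc (nat_lit 100663295)), (.ofNat (nat_lit 241398307660649153605329223680)), (.ofNat (nat_lit 0)), (.ofNat (nat_lit 3713820117856140824697372672)), (.negSucc (nat_lit 100663311)), (.negSucc (nat_lit 100663279)), (.negSucc (nat_lit 1199038364791120855039)), (.ofNat (nat_lit 1199038364791120855040)), (.negSucc (nat_lit 1199038364791120855039)), (.ofNat (nat_lit 1199038364791120855040)), (.ofNat (nat_lit 110680464442257309696))⟩,
    ⟨nat_lit 0, nat_lit 21, nat_lit 22, (.ofNat (nat_lit 8)), (.negSucc (nat_lit 33554431)), (.ofNat (nat_lit 321864410214198871473772298240)), (.ofNat (nat_lit 0)), (.ofNat (nat_lit 4951760157141521099596496896)), (.negSucc (nat_lit 33554447)), (.negSucc (nat_lit 33554415)), (.ofNat (nat_lit 1199038364791120855040)), (.negSucc (nat_lit 1199038364791120855039)), (.negSucc (nat_lit 1199038364791120855039)), (.ofNat (nat_lit 1199038364791120855040)), (.ofNat (nat_lit 110680464442257309696))⟩,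
    ⟨nat_lit 1, nat_lit 23, nat_lit 22, (.ofNat (nat_lit 8)), (.ofNat (nat_lit 83886080)), (.ofNat (nat_lit 181048730745486865203996917760)), (.ofNat (nat_lit 0)), (.ofNat (nat_lit 2785365088392105618523029504)), (.ofNat (nat_lit 83886064)), (.ofNat (nat_lit 83886096)), (.ofNat (nat_lit 1199038364791120855040)), (.negSucc (nat_lit 1199038364791120855039)), (.negSucc (nat_lit 1199038364791120855039)), (.ofNat (nat_lit 1199038364791120855040)), (.ofNat (nat_lit 110680464442257309696))⟩]
  es := [
    ⟨nat_lit 1, nat_lit 0, (.negSucc (nat_lit 167772159)), (.negSucc (nat_lit 33554431)), (.negSucc (nat_lit 167772143)), (.negSucc (nat_lit 33554447)), (.negSucc (nat_lit 1199038364791120855039)), (.negSucc (nat_lit 18446744073709551615)), (.ofNat (nat_lit 0))⟩,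
    ⟨nat_lit 1, nat_lit 2, (.negSucc (nat_lit 167772159)), (.negSucc (nat_lit 100663295)), (.negSucc (nat_lit 167772143)), (.negSucc (nat_lit 100663311)), (.ofNat (nat_lit 1199038364791120855040)), (.ofNat (nat_lit 18446744073709551616)), (.ofNat (nat_lit 6189700196426901374495621120))⟩,
    ⟨nat_lit 2, nat_lit 3, (.negSucc (nat_lit 100663295)), (.negSucc (nat_lit 33554431)), (.negSucc (nat_lit 100663279)), (.negSucc (nat_lit 33554447)), (.negSucc (nat_lit 1199038364791120855039)), (.negSucc (nat_lit 18446744073709551615)), (.ofNat (nat_lit 2475880078570760549798248448))⟩,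
    ⟨nat_lit 3, nat_lit 4, (.negSucc (nat_lit 33554431)), (.ofNat (nat_lit 83886080)), (.negSucc (nat_lit 33554415)), (.ofNat (nat_lit 83886064)), (.ofNat (nat_lit 1199038364791120855040)), (.ofNat (nat_lit 18446744073709551616)), (.ofNat (nat_lit 3713820117856140824697372672))⟩,
    ⟨nat_lit 5, nat_lit 4, (.ofNat (nat_lit 0)), (.ofNat (nat_lit 83886080)), (.ofNat (nat_lit 16)), (.ofNat (nat_lit 83886064)), (.negSucc (nat_lit 1199038364791120855039)), (.negSucc (nat_lit 18446744073709551615)), (.ofNat (nat_lit 6808670216069591511945183232))⟩,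
    ⟨nat_lit 6, nat_lit 5, (.negSucc (nat_lit 167772159)), (.ofNat (nat_lit 0)), (.negSucc (nat_lit 167772143)), (.negSucc (nat_lit 15)), (.ofNat (nat_lit 1199038364791120855040)), (.ofNat (nat_lit 18446744073709551616)), (.ofNat (nat_lit 6808670216069591511945183232))⟩,
    ⟨nat_lit 6, nat_lit 7, (.negSucc (nat_lit 167772159)), (.negSucc (nat_lit 117440511)), (.negSucc (nat_lit 167772143)), (.negSucc (nat_lit 117440527)), (.negSucc (nat_lit 1199038364791120855039)), (.negSucc (nat_lit 18446744073709551615)), (.ofNat (nat_lit 618970019642690137449562112))⟩,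
    ⟨nat_lit 7, nat_lit 8, (.negSucc (nat_lit 117440511)), (.negSucc (nat_lit 33554431)), (.negSucc (nat_lit 117440495)), (.negSucc (nat_lit 33554447)), (.ofNat (nat_lit 1199038364791120855040)), (.ofNat (nat_lit 18446744073709551616)), (.ofNat (nat_lit 4951760157141521099596496896))⟩,
    ⟨nat_lit 8, nat_lit 9, (.negSucc (nat_lit 33554431)), (.ofNat (nat_lit 83886080)), (.negSucc (nat_lit 33554415)), (.ofNat (nat_lit 83886064)), (.negSucc (nat_lit 1199038364791120855039)), (.negSucc (nat_lit 18446744073709551615)), (.ofNat (nat_lit 3713820117856140824697372672))⟩,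
    ⟨nat_lit 9, nat_lit 10, (.ofNat (nat_lit 83886080)), (.ofNat (nat_lit 150994944)), (.ofNat (nat_lit 83886096)), (.ofNat (nat_lit 150994928)), (.ofNat (nat_lit 1199038364791120855040)), (.ofNat (nat_lit 18446744073709551616)), (.ofNat (nat_lit 618970019642690137449562112))⟩,
    ⟨nat_lit 11, nat_lit 10, (.ofNat (nat_lit 100663296)), (.ofNat (nat_lit 150994944)), (.ofNat (nat_lit 100663312)), (.ofNat (nat_lit 150994928)), (.negSucc (nat_lit 1199038364791120855039)), (.negSucc (nat_lit 18446744073709551615)), (.ofNat (nat_lit 6189700196426901374495621120))⟩,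
    ⟨nat_lit 12, nat_lit 11, (.ofNat (nat_lit 67108864)), (.ofNat (nat_lit 100663296)), (.ofNat (nat_lit 67108880)), (.ofNat (nat_lit 100663280)), (.ofNat (nat_lit 1199038364791120855040)), (.ofNat (nat_lit 18446744073709551616)), (.ofNat (nat_lit 2475880078570760549798248448))⟩,
    ⟨nat_lit 12, nat_lit 13, (.ofNat (nat_lit 67108864)), (.ofNat (nat_lit 134217728)), (.ofNat (nat_lit 67108880)), (.ofNat (nat_lit 134217712)), (.negSucc (nat_lit 1199038364791120855039)), (.negSucc (nat_lit 18446744073709551615)), (.ofNat (nat_lit 4951760157141521099596496896))⟩,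
    ⟨nat_lit 14, nat_lit 13, (.ofNat (nat_lit 83886080)), (.ofNat (nat_lit 134217728)), (.ofNat (nat_lit 83886096)), (.ofNat (nat_lit 134217712)), (.ofNat (nat_lit 1199038364791120855040)), (.ofNat (nat_lit 18446744073709551616)), (.ofNat (nat_lit 0))⟩,
    ⟨nat_lit 15, nat_lit 14, (.negSucc (nat_lit 33554431)), (.ofNat (nat_lit 83886080)), (.negSucc (nat_lit 33554415)), (.ofNat (nat_lit 83886064)), (.negSucc (nat_lit 1199038364791120855039)), (.negSucc (nat_lit 18446744073709551615)), (.ofNat (nat_lit 3094850098213450687247810560))⟩,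
    ⟨nat_lit 16, nat_lit 15, (.negSucc (nat_lit 83886079)), (.negSucc (nat_lit 33554431)), (.negSucc (nat_lit 83886063)), (.negSucc (nat_lit 33554447)), (.ofNat (nat_lit 1199038364791120855040)), (.ofNat (nat_lit 18446744073709551616)), (.ofNat (nat_lit 4332790137498830962146934784))⟩,
    ⟨nat_lit 16, nat_lit 17, (.negSucc (nat_lit 83886079)), (.negSucc (nat_lit 16777215)), (.negSucc (nat_lit 83886063)), (.negSucc (nat_lit 16777231)), (.negSucc (nat_lit 1199038364791120855039)), (.negSucc (nat_lit 18446744073709551615)), (.ofNat (nat_lit 1237940039285380274899124224))⟩,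
    ⟨nat_lit 17, nat_lit 18, (.negSucc (nat_lit 16777215)), (.ofNat (nat_lit 100663296)), (.negSucc (nat_lit 16777199)), (.ofNat (nat_lit 100663280)), (.ofNat (nat_lit 1199038364791120855040)), (.ofNat (nat_lit 18446744073709551616)), (.ofNat (nat_lit 1856910058928070412348686336))⟩,
    ⟨nat_lit 19, nat_lit 18, (.ofNat (nat_lit 67108864)), (.ofNat (nat_lit 100663296)), (.ofNat (nat_lit 67108880)), (.ofNat (nat_lit 100663280)), (.negSucc (nat_lit 1199038364791120855039)), (.negSucc (nat_lit 18446744073709551615)), (.ofNat (nat_lit 5570730176784211237046059008))⟩,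
    ⟨nat_lit 20, nat_lit 19, (.negSucc (nat_lit 33554431)), (.ofNat (nat_lit 67108864)), (.negSucc (nat_lit 33554415)), (.ofNat (nat_lit 67108848)), (.ofNat (nat_lit 1199038364791120855040)), (.ofNat (nat_lit 18446744073709551616)), (.ofNat (nat_lit 3094850098213450687247810560))⟩,
    ⟨nat_lit 21, nat_lit 20, (.negSucc (nat_lit 100663295)), (.negSucc (nat_lit 33554431)), (.negSucc (nat_lit 100663279)), (.negSucc (nat_lit 33554447)), (.negSucc (nat_lit 1199038364791120855039)), (.negSucc (nat_lit 18446744073709551615)), (.ofNat (nat_lit 1856910058928070412348686336))⟩,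
    ⟨nat_lit 21, nat_lit 22, (.negSucc (nat_lit 100663295)), (.negSucc (nat_lit 33554431)), (.negSucc (nat_lit 100663279)), (.negSucc (nat_lit 33554447)), (.ofNat (nat_lit 1199038364791120855040)), (.ofNat (nat_lit 18446744073709551616)), (.ofNat (nat_lit 5570730176784211237046059008))⟩,
    ⟨nat_lit 22, nat_lit 23, (.negSucc (nat_lit 33554431)), (.ofNat (nat_lit 83886080)), (.negSucc (nat_lit 33554415)), (.ofNat (nat_lit 83886064)), (.negSucc (nat_lit 1199038364791120855039)), (.negSucc (nat_lit 18446744073709551615)), (.ofNat (nat_lit 4332790137498830962146934784))⟩,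
    ⟨nat_lit 0, nat_lit 23, (.negSucc (nat_lit 33554431)), (.ofNat (nat_lit 83886080)), (.negSucc (nat_lit 33554415)), (.ofNat (nat_lit 83886064)), (.ofNat (nat_lit 1199038364791120855040)), (.ofNat (nat_lit 18446744073709551616)), (.ofNat (nat_lit 1237940039285380274899124224))⟩]

theorem ok2 : stOK 23 23 S2 = true := by decide +kernel

def S3 : SD where
  vs := [
    ⟨nat_lit 0, nat_lit 0, nat_lit 23, (.ofNat (nat_lit 8)), (.negSucc (nat_lit 33554431)), (.ofNat (nat_lit 40233051276774858934221537280)), (.ofNat (nat_lit 0)), (.ofNat (nat_lit 618970019642690137449562112)), (.negSucc (nat_lit 33554447)), (.negSucc (nat_lit 33554415)), (.negSucc (nat_lit 1199038364791120855039)), (.ofNat (nat_lit 1199038364791120855040)), (.negSucc (nat_lit 1199038364791120855039)), (.ofNat (nat_lit 1199038364791120855040)), (.ofNat (nat_lit 110680464442257309696))⟩,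
    ⟨nat_lit 2, nat_lit 0, nat_lit 1, (.ofNat (nat_lit 8)), (.negSucc (nat_lit 167772159)), (.ofNat (nat_lit 201165256383874294671107686400)), (.ofNat (nat_lit 0)), (.ofNat (nat_lit 3094850098213450687247810560)), (.negSucc (nat_lit 167772175)), (.negSucc (nat_lit 167772143)), (.negSucc (nat_lit 1199038364791120855039)), (.ofNat (nat_lit 1199038364791120855040)), (.negSucc (nat_lit 1199038364791120855039)), (.ofNat (nat_lit 1199038364791120855040)), (.ofNat (nat_lit 110680464442257309696))⟩,
    ⟨nat_lit 0, nat_lit 1, nat_lit 2, (.ofNat (nat_lit 8)), (.negSucc (nat_lit 100663295)), (.ofNat (nat_lit 281631358937424012539550760960)), (.ofNat (nat_lit 0)), (.ofNat (nat_lit 4332790137498830962146934784)), (.negSucc (nat_lit 100663311)), (.negSucc (nat_lit 100663279)), (.ofNat (nat_lit 1199038364791120855040)), (.negSucc (nat_lit 1199038364791120855039)), (.negSucc (nat_lit 1199038364791120855039)), (.ofNat (nat_lit 1199038364791120855040)), (.ofNat (nat_lit 110680464442257309696))⟩,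
    ⟨nat_lit 0, nat_lit 2, nat_lit 3, (.ofNat (nat_lit 8)), (.negSucc (nat_lit 33554431)), (.ofNat (nat_lit 201165256383874294671107686400)), (.ofNat (nat_lit 0)), (.ofNat (nat_lit 3094850098213450687247810560)), (.negSucc (nat_lit 33554447)), (.negSucc (nat_lit 33554415)), (.negSucc (nat_lit 1199038364791120855039)), (.ofNat (nat_lit 1199038364791120855040)), (.negSucc (nat_lit 1199038364791120855039)), (.ofNat (nat_lit 1199038364791120855040)), (.ofNat (nat_lit 110680464442257309696))⟩,
    ⟨nat_lit 1, nat_lit 3, nat_lit 4, (.ofNat (nat_lit 8)), (.ofNat (nat_lit 83886080)), (.ofNat (nat_lit 341980935852586300940883066880)), (.ofNat (nat_lit 0)), (.ofNat (nat_lit 5261245166962866168321277952)), (.ofNat (nat_lit 83886064)), (.ofNat (nat_lit 83886096)), (.ofNat (nat_lit 1199038364791120855040)), (.negSucc (nat_lit 1199038364791120855039)), (.negSucc (nat_lit 1199038364791120855039)), (.ofNat (nat_lit 1199038364791120855040)), (.ofNat (nat_lit 110680464442257309696))⟩,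
    ⟨nat_lit 0, nat_lit 5, nat_lit 4, (.ofNat (nat_lit 8)), (.ofNat (nat_lit 0)), (.ofNat (nat_lit 442563564044523448276436910080)), (.ofNat (nat_lit 0)), (.ofNat (nat_lit 6808670216069591511945183232)), (.negSucc (nat_lit 15)), (.ofNat (nat_lit 16)), (.ofNat (nat_lit 1199038364791120855040)), (.negSucc (nat_lit 1199038364791120855039)), (.negSucc (nat_lit 1199038364791120855039)), (.ofNat (nat_lit 1199038364791120855040)), (.ofNat (nat_lit 110680464442257309696))⟩,
    ⟨nat_lit 2, nat_lit 6, nat_lit 5, (.ofNat (nat_lit 8)), (.negSucc (nat_lit 167772159)), (.ofNat (nat_lit 241398307660649153605329223680)), (.ofNat (nat_lit 0)), (.ofNat (nat_lit 3713820117856140824697372672)), (.negSucc (nat_lit 167772175)), (.negSucc (nat_lit 167772143)), (.negSucc (nat_lit 1199038364791120855039)), (.ofNat (nat_lit 1199038364791120855040)), (.negSucc (nat_lit 1199038364791120855039)), (.ofNat (nat_lit 1199038364791120855040)), (.ofNat (nat_lit 110680464442257309696))⟩,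
    ⟨nat_lit 0, nat_lit 6, nat_lit 7, (.ofNat (nat_lit 64)), (.negSucc (nat_lit 117440511)), (.ofNat (nat_lit 181048730745486865203996917760)), (.ofNat (nat_lit 0)), (.ofNat (nat_lit 2785365088392105618523029504)), (.negSucc (nat_lit 117440639)), (.negSucc (nat_lit 117440383)), (.negSucc (nat_lit 1199038364791120855039)), (.ofNat (nat_lit 1199038364791120855040)), (.negSucc (nat_lit 1199038364791120855039)), (.ofNat (nat_lit 1199038364791120855040)), (.ofNat (nat_lit 110680464442257309696))⟩,
    ⟨nat_lit 0, nat_lit 7, nat_lit 8, (.ofNat (nat_lit 8)), (.negSucc (nat_lit 33554431)), (.ofNat (nat_lit 281631358937424012539550760960)), (.ofNat (nat_lit 0)), (.ofNat (nat_lit 4332790137498830962146934784)), (.negSucc (nat_lit 33554447)), (.negSucc (nat_lit 33554415)), (.ofNat (nat_lit 1199038364791120855040)), (.negSucc (nat_lit 1199038364791120855039)), (.negSucc (nat_lit 1199038364791120855039)), (.ofNat (nat_lit 1199038364791120855040)), (.ofNat (nat_lit 110680464442257309696))⟩,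
    ⟨nat_lit 0, nat_lit 8, nat_lit 9, (.ofNat (nat_lit 8)), (.ofNat (nat_lit 83886080)), (.ofNat (nat_lit 140815679468712006269775380480)), (.ofNat (nat_lit 0)), (.ofNat (nat_lit 2166395068749415481073467392)), (.ofNat (nat_lit 83886064)), (.ofNat (nat_lit 83886096)), (.negSucc (nat_lit 1199038364791120855039)), (.ofNat (nat_lit 1199038364791120855040)), (.negSucc (nat_lit 1199038364791120855039)), (.ofNat (nat_lit 1199038364791120855040)), (.ofNat (nat_lit 110680464442257309696))⟩,
    ⟨nat_lit 1, nat_lit 9, nat_lit 10, (.ofNat (nat_lit 8)), (.ofNat (nat_lit 150994944)), (.ofNat (nat_lit 221281782022261724138218455040)), (.ofNat (nat_lit 0)), (.ofNat (nat_lit 3404335108034795755972591616)), (.ofNat (nat_lit 150994928)), (.ofNat (nat_lit 150994960)), (.ofNat (nat_lit 1199038364791120855040)), (.negSucc (nat_lit 1199038364791120855039)), (.negSucc (nat_lit 1199038364791120855039)), (.ofNat (nat_lit 1199038364791120855040)), (.ofNat (nat_lit 110680464442257309696))⟩,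
    ⟨nat_lit 0, nat_lit 11, nat_lit 10, (.ofNat (nat_lit 8)), (.ofNat (nat_lit 100663296)), (.ofNat (nat_lit 281631358937424012539550760960)), (.ofNat (nat_lit 0)), (.ofNat (nat_lit 4332790137498830962146934784)), (.ofNat (nat_lit 100663280)), (.ofNat (nat_lit 100663312)), (.ofNat (nat_lit 1199038364791120855040)), (.negSucc (nat_lit 1199038364791120855039)), (.negSucc (nat_lit 1199038364791120855039)), (.ofNat (nat_lit 1199038364791120855040)), (.ofNat (nat_lit 110680464442257309696))⟩,
    ⟨nat_lit 2, nat_lit 12, nat_lit 11, (.ofNat (nat_lit 8)), (.ofNat (nat_lit 67108864)), (.ofNat (nat_lit 241398307660649153605329223680)), (.ofNat (nat_lit 0)), (.ofNat (nat_lit 3713820117856140824697372672)), (.ofNat (nat_lit 67108848)), (.ofNat (nat_lit 67108880)), (.negSucc (nat_lit 1199038364791120855039)), (.ofNat (nat_lit 1199038364791120855040)), (.negSucc (nat_lit 1199038364791120855039)), (.ofNat (nat_lit 1199038364791120855040)), (.ofNat (nat_lit 110680464442257309696))⟩,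
    ⟨nat_lit 1, nat_lit 13, nat_lit 12, (.ofNat (nat_lit 8)), (.ofNat (nat_lit 134217728)), (.ofNat (nat_lit 160932205107099435736886149120)), (.ofNat (nat_lit 0)), (.ofNat (nat_lit 2475880078570760549798248448)), (.ofNat (nat_lit 134217712)), (.ofNat (nat_lit 134217744)), (.ofNat (nat_lit 1199038364791120855040)), (.negSucc (nat_lit 1199038364791120855039)), (.negSucc (nat_lit 1199038364791120855039)), (.ofNat (nat_lit 1199038364791120855040)), (.ofNat (nat_lit 110680464442257309696))⟩,
    ⟨nat_lit 0, nat_lit 14, nat_lit 13, (.ofNat (nat_lit 8)), (.ofNat (nat_lit 83886080)), (.ofNat (nat_lit 100582628191937147335553843200)), (.ofNat (nat_lit 0)), (.ofNat (nat_lit 1547425049106725343623905280)), (.ofNat (nat_lit 83886064)), (.ofNat (nat_lit 83886096)), (.negSucc (nat_lit 1199038364791120855039)), (.ofNat (nat_lit 1199038364791120855040)), (.negSucc (nat_lit 1199038364791120855039)), (.ofNat (nat_lit 1199038364791120855040)), (.ofNat (nat_lit 110680464442257309696))⟩,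
    ⟨nat_lit 0, nat_lit 15, nat_lit 14, (.ofNat (nat_lit 8)), (.negSucc (nat_lit 33554431)), (.ofNat (nat_lit 241398307660649153605329223680)), (.ofNat (nat_lit 0)), (.ofNat (nat_lit 3713820117856140824697372672)), (.negSucc (nat_lit 33554447)), (.negSucc (nat_lit 33554415)), (.ofNat (nat_lit 1199038364791120855040)), (.negSucc (nat_lit 1199038364791120855039)), (.negSucc (nat_lit 1199038364791120855039)), (.ofNat (nat_lit 1199038364791120855040)), (.ofNat (nat_lit 110680464442257309696))⟩,
    ⟨nat_lit 2, nat_lit 16, nat_lit 15, (.ofNat (nat_lit 8)), (.negSucc (nat_lit 83886079)), (.ofNat (nat_lit 181048730745486865203996917760)), (.ofNat (nat_lit 0)), (.ofNat (nat_lit 2785365088392105618523029504)), (.negSucc (nat_lit 83886095)), (.negSucc (nat_lit 83886063)), (.negSucc (nat_lit 1199038364791120855039)), (.ofNat (nat_lit 1199038364791120855040)), (.negSucc (nat_lit 1199038364791120855039)), (.ofNat (nat_lit 1199038364791120855040)), (.ofNat (nat_lit 110680464442257309696))⟩,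
    ⟨nat_lit 0, nat_lit 16, nat_lit 17, (.ofNat (nat_lit 8)), (.negSucc (nat_lit 16777215)), (.ofNat (nat_lit 100582628191937147335553843200)), (.ofNat (nat_lit 0)), (.ofNat (nat_lit 1547425049106725343623905280)), (.negSucc (nat_lit 16777231)), (.negSucc (nat_lit 16777199)), (.negSucc (nat_lit 1199038364791120855039)), (.ofNat (nat_lit 1199038364791120855040)), (.negSucc (nat_lit 1199038364791120855039)), (.ofNat (nat_lit 1199038364791120855040)), (.ofNat (nat_lit 110680464442257309696))⟩,
    ⟨nat_lit 1, nat_lit 17, nat_lit 18, (.ofNat (nat_lit 8)), (.ofNat (nat_lit 100663296)), (.ofNat (nat_lit 241398307660649153605329223680)), (.ofNat (nat_lit 0)), (.ofNat (nat_lit 3713820117856140824697372672)), (.ofNat (nat_lit 100663280)), (.ofNat (nat_lit 100663312)), (.ofNat (nat_lit 1199038364791120855040)), (.negSucc (nat_lit 1199038364791120855039)), (.negSucc (nat_lit 1199038364791120855039)), (.ofNat (nat_lit 1199038364791120855040)), (.ofNat (nat_lit 110680464442257309696))⟩,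
    ⟨nat_lit 0, nat_lit 19, nat_lit 18, (.ofNat (nat_lit 8)), (.ofNat (nat_lit 67108864)), (.ofNat (nat_lit 281631358937424012539550760960)), (.ofNat (nat_lit 0)), (.ofNat (nat_lit 4332790137498830962146934784)), (.ofNat (nat_lit 67108848)), (.ofNat (nat_lit 67108880)), (.ofNat (nat_lit 1199038364791120855040)), (.negSucc (nat_lit 1199038364791120855039)), (.negSucc (nat_lit 1199038364791120855039)), (.ofNat (nat_lit 1199038364791120855040)), (.ofNat (nat_lit 110680464442257309696))⟩,
    ⟨nat_lit 0, nat_lit 20, nat_lit 19, (.ofNat (nat_lit 8)), (.negSucc (nat_lit 33554431)), (.ofNat (nat_lit 160932205107099435736886149120)), (.ofNat (nat_lit 0)), (.ofNat (nat_lit 2475880078570760549798248448)), (.negSucc (nat_lit 33554447)), (.negSucc (nat_lit 33554415)), (.negSucc (nat_lit 1199038364791120855039)), (.ofNat (nat_lit 1199038364791120855040)), (.negSucc (nat_lit 1199038364791120855039)), (.ofNat (nat_lit 1199038364791120855040)), (.ofNat (nat_lit 110680464442257309696))⟩,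
    ⟨nat_lit 2, nat_lit 20, nat_lit 21, (.ofNat (nat_lit 8)), (.negSucc (nat_lit 100663295)), (.ofNat (nat_lit 241398307660649153605329223680)), (.ofNat (nat_lit 0)), (.ofNat (nat_lit 3713820117856140824697372672)), (.negSucc (nat_lit 100663311)), (.negSucc (nat_lit 100663279)), (.negSucc (nat_lit 1199038364791120855039)), (.ofNat (nat_lit 1199038364791120855040)), (.negSucc (nat_lit 1199038364791120855039)), (.ofNat (nat_lit 1199038364791120855040)), (.ofNat (nat_lit 110680464442257309696))⟩,
    ⟨nat_lit 0, nat_lit 21, nat_lit 22, (.ofNat (nat_lit 8)), (.negSucc (nat_lit 33554431)), (.ofNat (nat_lit 321864410214198871473772298240)), (.ofNat (nat_lit 0)), (.ofNat (nat_lit 4951760157141521099596496896)), (.negSucc (nat_lit 33554447)), (.negSucc (nat_lit 33554415)), (.ofNat (nat_lit 1199038364791120855040)), (.negSucc (nat_lit 1199038364791120855039)), (.negSucc (nat_lit 1199038364791120855039)), (.ofNat (nat_lit 1199038364791120855040)), (.ofNat (nat_lit 110680464442257309696))⟩,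
    ⟨nat_lit 1, nat_lit 23, nat_lit 22, (.ofNat (nat_lit 8)), (.ofNat (nat_lit 83886080)), (.ofNat (nat_lit 181048730745486865203996917760)), (.ofNat (nat_lit 0)), (.ofNat (nat_lit 2785365088392105618523029504)), (.ofNat (nat_lit 83886064)), (.ofNat (nat_lit 83886096)), (.ofNat (nat_lit 1199038364791120855040)), (.negSucc (nat_lit 1199038364791120855039)), (.negSucc (nat_lit 1199038364791120855039)), (.ofNat (nat_lit 1199038364791120855040)), (.ofNat (nat_lit 110680464442257309696))⟩]
  es := [
    ⟨nat_lit 1, nat_lit 0, (.negSucc (nat_lit 167772159)), (.negSucc (nat_lit 33554431)), (.negSucc (nat_lit 167772143)), (.negSucc (nat_lit 33554447)), (.negSucc (nat_lit 1199038364791120855039)), (.negSucc (nat_lit 18446744073709551615)), (.ofNat (nat_lit 0))⟩,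
    ⟨nat_lit 1, nat_lit 2, (.negSucc (nat_lit 167772159)), (.negSucc (nat_lit 100663295)), (.negSucc (nat_lit 167772143)), (.negSucc (nat_lit 100663311)), (.ofNat (nat_lit 1199038364791120855040)), (.ofNat (nat_lit 18446744073709551616)), (.ofNat (nat_lit 6189700196426901374495621120))⟩,
    ⟨nat_lit 2, nat_lit 3, (.negSucc (nat_lit 100663295)), (.negSucc (nat_lit 33554431)), (.negSucc (nat_lit 100663279)), (.negSucc (nat_lit 33554447)), (.negSucc (nat_lit 1199038364791120855039)), (.negSucc (nat_lit 18446744073709551615)), (.ofNat (nat_lit 2475880078570760549798248448))⟩,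
    ⟨nat_lit 3, nat_lit 4, (.negSucc (nat_lit 33554431)), (.ofNat (nat_lit 83886080)), (.negSucc (nat_lit 33554415)), (.ofNat (nat_lit 83886064)), (.ofNat (nat_lit 1199038364791120855040)), (.ofNat (nat_lit 18446744073709551616)), (.ofNat (nat_lit 3713820117856140824697372672))⟩,
    ⟨nat_lit 5, nat_lit 4, (.ofNat (nat_lit 0)), (.ofNat (nat_lit 83886080)), (.ofNat (nat_lit 16)), (.ofNat (nat_lit 83886064)), (.negSucc (nat_lit 1199038364791120855039)), (.negSucc (nat_lit 18446744073709551615)), (.ofNat (nat_lit 6808670216069591511945183232))⟩,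
    ⟨nat_lit 6, nat_lit 5, (.negSucc (nat_lit 167772159)), (.ofNat (nat_lit 0)), (.negSucc (nat_lit 167772143)), (.negSucc (nat_lit 15)), (.ofNat (nat_lit 1199038364791120855040)), (.ofNat (nat_lit 18446744073709551616)), (.ofNat (nat_lit 6808670216069591511945183232))⟩,
    ⟨nat_lit 6, nat_lit 7, (.negSucc (nat_lit 167772159)), (.negSucc (nat_lit 117440511)), (.negSucc (nat_lit 167772143)), (.negSucc (nat_lit 117440639)), (.negSucc (nat_lit 1199038364791120855039)), (.negSucc (nat_lit 18446744073709551615)), (.ofNat (nat_lit 618970019642690137449562112))⟩,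
    ⟨nat_lit 7, nat_lit 8, (.negSucc (nat_lit 117440511)), (.negSucc (nat_lit 33554431)), (.negSucc (nat_lit 117440383)), (.negSucc (nat_lit 33554447)), (.ofNat (nat_lit 1199038364791120855040)), (.ofNat (nat_lit 18446744073709551616)), (.ofNat (nat_lit 4951760157141521099596496896))⟩,
    ⟨nat_lit 8, nat_lit 9, (.negSucc (nat_lit 33554431)), (.ofNat (nat_lit 83886080)), (.negSucc (nat_lit 33554415)), (.ofNat (nat_lit 83886064)), (.negSucc (nat_lit 1199038364791120855039)), (.negSucc (nat_lit 18446744073709551615)), (.ofNat (nat_lit 3713820117856140824697372672))⟩,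
    ⟨nat_lit 9, nat_lit 10, (.ofNat (nat_lit 83886080)), (.ofNat (nat_lit 150994944)), (.ofNat (nat_lit 83886096)), (.ofNat (nat_lit 150994928)), (.ofNat (nat_lit 1199038364791120855040)), (.ofNat (nat_lit 18446744073709551616)), (.ofNat (nat_lit 618970019642690137449562112))⟩,
    ⟨nat_lit 11, nat_lit 10, (.ofNat (nat_lit 100663296)), (.ofNat (nat_lit 150994944)), (.ofNat (nat_lit 100663312)), (.ofNat (nat_lit 150994928)), (.negSucc (nat_lit 1199038364791120855039)), (.negSucc (nat_lit 18446744073709551615)), (.ofNat (nat_lit 6189700196426901374495621120))⟩,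
    ⟨nat_lit 12, nat_lit 11, (.ofNat (nat_lit 67108864)), (.ofNat (nat_lit 100663296)), (.ofNat (nat_lit 67108880)), (.ofNat (nat_lit 100663280)), (.ofNat (nat_lit 1199038364791120855040)), (.ofNat (nat_lit 18446744073709551616)), (.ofNat (nat_lit 2475880078570760549798248448))⟩,
    ⟨nat_lit 12, nat_lit 13, (.ofNat (nat_lit 67108864)), (.ofNat (nat_lit 134217728)), (.ofNat (nat_lit 67108880)), (.ofNat (nat_lit 134217712)), (.negSucc (nat_lit 1199038364791120855039)), (.negSucc (nat_lit 18446744073709551615)), (.ofNat (nat_lit 4951760157141521099596496896))⟩,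
    ⟨nat_lit 14, nat_lit 13, (.ofNat (nat_lit 83886080)), (.ofNat (nat_lit 134217728)), (.ofNat (nat_lit 83886096)), (.ofNat (nat_lit 134217712)), (.ofNat (nat_lit 1199038364791120855040)), (.ofNat (nat_lit 18446744073709551616)), (.ofNat (nat_lit 0))⟩,
    ⟨nat_lit 15, nat_lit 14, (.negSucc (nat_lit 33554431)), (.ofNat (nat_lit 83886080)), (.negSucc (nat_lit 33554415)), (.ofNat (nat_lit 83886064)), (.negSucc (nat_lit 1199038364791120855039)), (.negSucc (nat_lit 18446744073709551615)), (.ofNat (nat_lit 3094850098213450687247810560))⟩,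
    ⟨nat_lit 16, nat_lit 15, (.negSucc (nat_lit 83886079)), (.negSucc (nat_lit 33554431)), (.negSucc (nat_lit 83886063)), (.negSucc (nat_lit 33554447)), (.ofNat (nat_lit 1199038364791120855040)), (.ofNat (nat_lit 18446744073709551616)), (.ofNat (nat_lit 4332790137498830962146934784))⟩,
    ⟨nat_lit 16, nat_lit 17, (.negSucc (nat_lit 83886079)), (.negSucc (nat_lit 16777215)), (.negSucc (nat_lit 83886063)), (.negSucc (nat_lit 16777231)), (.negSucc (nat_lit 1199038364791120855039)), (.negSucc (nat_lit 18446744073709551615)), (.ofNat (nat_lit 1237940039285380274899124224))⟩,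
    ⟨nat_lit 17, nat_lit 18, (.negSucc (nat_lit 16777215)), (.ofNat (nat_lit 100663296)), (.negSucc (nat_lit 16777199)), (.ofNat (nat_lit 100663280)), (.ofNat (nat_lit 1199038364791120855040)), (.ofNat (nat_lit 18446744073709551616)), (.ofNat (nat_lit 1856910058928070412348686336))⟩,
    ⟨nat_lit 19, nat_lit 18, (.ofNat (nat_lit 67108864)), (.ofNat (nat_lit 100663296)), (.ofNat (nat_lit 67108880)), (.ofNat (nat_lit 100663280)), (.negSucc (nat_lit 1199038364791120855039)), (.negSucc (nat_lit 18446744073709551615)), (.ofNat (nat_lit 5570730176784211237046059008))⟩,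
    ⟨nat_lit 20, nat_lit 19, (.negSucc (nat_lit 33554431)), (.ofNat (nat_lit 67108864)), (.negSucc (nat_lit 33554415)), (.ofNat (nat_lit 67108848)), (.ofNat (nat_lit 1199038364791120855040)), (.ofNat (nat_lit 18446744073709551616)), (.ofNat (nat_lit 3094850098213450687247810560))⟩,
    ⟨nat_lit 21, nat_lit 20, (.negSucc (nat_lit 100663295)), (.negSucc (nat_lit 33554431)), (.negSucc (nat_lit 100663279)), (.negSucc (nat_lit 33554447)), (.negSucc (nat_lit 1199038364791120855039)), (.negSucc (nat_lit 18446744073709551615)), (.ofNat (nat_lit 1856910058928070412348686336))⟩,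
    ⟨nat_lit 21, nat_lit 22, (.negSucc (nat_lit 100663295)), (.negSucc (nat_lit 33554431)), (.negSucc (nat_lit 100663279)), (.negSucc (nat_lit 33554447)), (.ofNat (nat_lit 1199038364791120855040)), (.ofNat (nat_lit 18446744073709551616)), (.ofNat (nat_lit 5570730176784211237046059008))⟩,
    ⟨nat_lit 22, nat_lit 23, (.negSucc (nat_lit 33554431)), (.ofNat (nat_lit 83886080)), (.negSucc (nat_lit 33554415)), (.ofNat (nat_lit 83886064)), (.negSucc (nat_lit 1199038364791120855039)), (.negSucc (nat_lit 18446744073709551615)), (.ofNat (nat_lit 4332790137498830962146934784))⟩,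
    ⟨nat_lit 0, nat_lit 23, (.negSucc (nat_lit 33554431)), (.ofNat (nat_lit 83886080)), (.negSucc (nat_lit 33554415)), (.ofNat (nat_lit 83886064)), (.ofNat (nat_lit 1199038364791120855040)), (.ofNat (nat_lit 18446744073709551616)), (.ofNat (nat_lit 1237940039285380274899124224))⟩]

theorem ok3 : stOK 23 23 S3 = true := by decide +kernel

def S4 : SD where
  vs := [
    ⟨nat_lit 0, nat_lit 0, nat_lit 23, (.ofNat (nat_lit 8)), (.negSucc (nat_lit 33554431)), (.ofNat (nat_lit 40852021296417549071671099392)), (.ofNat (nat_lit 0)), (.ofNat (nat_lit 618970019642690137449562112)), (.negSucc (nat_lit 33554447)), (.negSucc (nat_lit 33554415)), (.negSucc (nat_lit 1217485108864830406655)), (.ofNat (nat_lit 1217485108864830406656)), (.negSucc (nat_lit 1217485108864830406655)), (.ofNat (nat_lit 1217485108864830406656)), (.ofNat (nat_lit 110680464442257309696))⟩,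
    ⟨nat_lit 2, nat_lit 0, nat_lit 1, (.ofNat (nat_lit 8)), (.negSucc (nat_lit 167772159)), (.ofNat (nat_lit 204260106482087745358355496960)), (.ofNat (nat_lit 0)), (.ofNat (nat_lit 3094850098213450687247810560)), (.negSucc (nat_lit 167772175)), (.negSucc (nat_lit 167772143)), (.negSucc (nat_lit 1217485108864830406655)), (.ofNat (nat_lit 1217485108864830406656)), (.negSucc (nat_lit 1217485108864830406655)), (.ofNat (nat_lit 1217485108864830406656)), (.ofNat (nat_lit 110680464442257309696))⟩,
    ⟨nat_lit 0, nat_lit 1, nat_lit 2, (.ofNat (nat_lit 8)), (.negSucc (nat_lit 100663295)), (.ofNat (nat_lit 285964149074922843501697695744)), (.ofNat (nat_lit 0)), (.ofNat (nat_lit 4332790137498830962146934784)), (.negSucc (nat_lit 100663311)), (.negSucc (nat_lit 100663279)), (.ofNat (nat_lit 1217485108864830406656)), (.negSucc (nat_lit 1217485108864830406655)), (.negSucc (nat_lit 1217485108864830406655)), (.ofNat (nat_lit 1217485108864830406656)), (.ofNat (nat_lit 110680464442257309696))⟩,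
    ⟨nat_lit 0, nat_lit 2, nat_lit 3, (.ofNat (nat_lit 8)), (.negSucc (nat_lit 33554431)), (.ofNat (nat_lit 204260106482087745358355496960)), (.ofNat (nat_lit 0)), (.ofNat (nat_lit 3094850098213450687247810560)), (.negSucc (nat_lit 33554447)), (.negSucc (nat_lit 33554415)), (.negSucc (nat_lit 1217485108864830406655)), (.ofNat (nat_lit 1217485108864830406656)), (.negSucc (nat_lit 1217485108864830406655)), (.ofNat (nat_lit 1217485108864830406656)), (.ofNat (nat_lit 110680464442257309696))⟩,
    ⟨nat_lit 1, nat_lit 3, nat_lit 4, (.ofNat (nat_lit 8)), (.ofNat (nat_lit 83886080)), (.ofNat (nat_lit 347242181019549167109204344832)), (.ofNat (nat_lit 0)), (.ofNat (nat_lit 5261245166962866168321277952)), (.ofNat (nat_lit 83886064)), (.ofNat (nat_lit 83886096)), (.ofNat (nat_lit 1217485108864830406656)), (.negSucc (nat_lit 1217485108864830406655)), (.negSucc (nat_lit 1217485108864830406655)), (.ofNat (nat_lit 1217485108864830406656)), (.ofNat (nat_lit 110680464442257309696))⟩,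
    ⟨nat_lit 0, nat_lit 5, nat_lit 4, (.ofNat (nat_lit 8)), (.ofNat (nat_lit 0)), (.ofNat (nat_lit 449372234260593039788382093312)), (.ofNat (nat_lit 0)), (.ofNat (nat_lit 6808670216069591511945183232)), (.negSucc (nat_lit 15)), (.ofNat (nat_lit 16)), (.ofNat (nat_lit 1217485108864830406656)), (.negSucc (nat_lit 1217485108864830406655)), (.negSucc (nat_lit 1217485108864830406655)), (.ofNat (nat_lit 1217485108864830406656)), (.ofNat (nat_lit 110680464442257309696))⟩,
    ⟨nat_lit 2, nat_lit 6, nat_lit 5, (.ofNat (nat_lit 8)), (.negSucc (nat_lit 167772159)), (.ofNat (nat_lit 245112127778505294430026596352)), (.ofNat (nat_lit 0)), (.ofNat (nat_lit 3713820117856140824697372672)), (.negSucc (nat_lit 167772175)), (.negSucc (nat_lit 167772143)), (.negSucc (nat_lit 1217485108864830406655)), (.ofNat (nat_lit 1217485108864830406656)), (.negSucc (nat_lit 1217485108864830406655)), (.ofNat (nat_lit 1217485108864830406656)), (.ofNat (nat_lit 110680464442257309696))⟩,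
    ⟨nat_lit 0, nat_lit 6, nat_lit 7, (.ofNat (nat_lit 64)), (.negSucc (nat_lit 117440511)), (.ofNat (nat_lit 183834095833878970822519947264)), (.ofNat (nat_lit 0)), (.ofNat (nat_lit 2785365088392105618523029504)), (.negSucc (nat_lit 117440639)), (.negSucc (nat_lit 117440383)), (.negSucc (nat_lit 1217485108864830406655)), (.ofNat (nat_lit 1217485108864830406656)), (.negSucc (nat_lit 1217485108864830406655)), (.ofNat (nat_lit 1217485108864830406656)), (.ofNat (nat_lit 110680464442257309696))⟩,
    ⟨nat_lit 0, nat_lit 7, nat_lit 8, (.ofNat (nat_lit 8)), (.negSucc (nat_lit 33554431)), (.ofNat (nat_lit 285964149074922843501697695744)), (.ofNat (nat_lit 0)), (.ofNat (nat_lit 4332790137498830962146934784)), (.negSucc (nat_lit 33554447)), (.negSucc (nat_lit 33554415)), (.ofNat (nat_lit 1217485108864830406656)), (.negSucc (nat_lit 1217485108864830406655)), (.negSucc (nat_lit 1217485108864830406655)), (.ofNat (nat_lit 1217485108864830406656)), (.ofNat (nat_lit 110680464442257309696))⟩,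
    ⟨nat_lit 0, nat_lit 8, nat_lit 9, (.ofNat (nat_lit 8)), (.ofNat (nat_lit 83886080)), (.ofNat (nat_lit 142982074537461421750848847872)), (.ofNat (nat_lit 0)), (.ofNat (nat_lit 2166395068749415481073467392)), (.ofNat (nat_lit 83886064)), (.ofNat (nat_lit 83886096)), (.negSucc (nat_lit 1217485108864830406655)), (.ofNat (nat_lit 1217485108864830406656)), (.negSucc (nat_lit 1217485108864830406655)), (.ofNat (nat_lit 1217485108864830406656)), (.ofNat (nat_lit 110680464442257309696))⟩,
    ⟨nat_lit 1, nat_lit 9, nat_lit 10, (.ofNat (nat_lit 8)), (.ofNat (nat_lit 150994944)), (.ofNat (nat_lit 224686117130296519894191046656)), (.ofNat (nat_lit 0)), (.ofNat (nat_lit 3404335108034795755972591616)), (.ofNat (nat_lit 150994928)), (.ofNat (nat_lit 150994960)), (.ofNat (nat_lit 1217485108864830406656)), (.negSucc (nat_lit 1217485108864830406655)), (.negSucc (nat_lit 1217485108864830406655)), (.ofNat (nat_lit 1217485108864830406656)), (.ofNat (nat_lit 110680464442257309696))⟩,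
    ⟨nat_lit 0, nat_lit 11, nat_lit 10, (.ofNat (nat_lit 8)), (.ofNat (nat_lit 100663296)), (.ofNat (nat_lit 285964149074922843501697695744)), (.ofNat (nat_lit 0)), (.ofNat (nat_lit 4332790137498830962146934784)), (.ofNat (nat_lit 100663280)), (.ofNat (nat_lit 100663312)), (.ofNat (nat_lit 1217485108864830406656)), (.negSucc (nat_lit 1217485108864830406655)), (.negSucc (nat_lit 1217485108864830406655)), (.ofNat (nat_lit 1217485108864830406656)), (.ofNat (nat_lit 110680464442257309696))⟩,
    ⟨nat_lit 2, nat_lit 12, nat_lit 11, (.ofNat (nat_lit 8)), (.ofNat (nat_lit 67108864)), (.ofNat (nat_lit 245112127778505294430026596352)), (.ofNat (nat_lit 0)), (.ofNat (nat_lit 3713820117856140824697372672)), (.ofNat (nat_lit 67108848)), (.ofNat (nat_lit 67108880)), (.negSucc (nat_lit 1217485108864830406655)), (.ofNat (nat_lit 1217485108864830406656)), (.negSucc (nat_lit 1217485108864830406655)), (.ofNat (nat_lit 1217485108864830406656)), (.ofNat (nat_lit 110680464442257309696))⟩,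
    ⟨nat_lit 1, nat_lit 13, nat_lit 12, (.ofNat (nat_lit 8)), (.ofNat (nat_lit 134217728)), (.ofNat (nat_lit 163408085185670196286684397568)), (.ofNat (nat_lit 0)), (.ofNat (nat_lit 2475880078570760549798248448)), (.ofNat (nat_lit 134217712)), (.ofNat (nat_lit 134217744)), (.ofNat (nat_lit 1217485108864830406656)), (.negSucc (nat_lit 1217485108864830406655)), (.negSucc (nat_lit 1217485108864830406655)), (.ofNat (nat_lit 1217485108864830406656)), (.ofNat (nat_lit 110680464442257309696))⟩,
    ⟨nat_lit 0, nat_lit 14, nat_lit 13, (.ofNat (nat_lit 8)), (.ofNat (nat_lit 83886080)), (.ofNat (nat_lit 102130053241043872679177748480)), (.ofNat (nat_lit 0)), (.ofNat (nat_lit 1547425049106725343623905280)), (.ofNat (nat_lit 83886064)), (.ofNat (nat_lit 83886096)), (.negSucc (nat_lit 1217485108864830406655)), (.ofNat (nat_lit 1217485108864830406656)), (.negSucc (nat_lit 1217485108864830406655)), (.ofNat (nat_lit 1217485108864830406656)), (.ofNat (nat_lit 110680464442257309696))⟩,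
    ⟨nat_lit 0, nat_lit 15, nat_lit 14, (.ofNat (nat_lit 8)), (.negSucc (nat_lit 33554431)), (.ofNat (nat_lit 245112127778505294430026596352)), (.ofNat (nat_lit 0)), (.ofNat (nat_lit 3713820117856140824697372672)), (.negSucc (nat_lit 33554447)), (.negSucc (nat_lit 33554415)), (.ofNat (nat_lit 1217485108864830406656)), (.negSucc (nat_lit 1217485108864830406655)), (.negSucc (nat_lit 1217485108864830406655)), (.ofNat (nat_lit 1217485108864830406656)), (.ofNat (nat_lit 110680464442257309696))⟩,
    ⟨nat_lit 2, nat_lit 16, nat_lit 15, (.ofNat (nat_lit 8)), (.negSucc (nat_lit 83886079)), (.ofNat (nat_lit 183834095833878970822519947264)), (.ofNat (nat_lit 0)), (.ofNat (nat_lit 2785365088392105618523029504)), (.negSucc (nat_lit 83886095)), (.negSucc (nat_lit 83886063)), (.negSucc (nat_lit 1217485108864830406655)), (.ofNat (nat_lit 1217485108864830406656)), (.negSucc (nat_lit 1217485108864830406655)), (.ofNat (nat_lit 1217485108864830406656)), (.ofNat (nat_lit 110680464442257309696))⟩,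
    ⟨nat_lit 0, nat_lit 16, nat_lit 17, (.ofNat (nat_lit 8)), (.negSucc (nat_lit 16777215)), (.ofNat (nat_lit 102130053241043872679177748480)), (.ofNat (nat_lit 0)), (.ofNat (nat_lit 1547425049106725343623905280)), (.negSucc (nat_lit 16777231)), (.negSucc (nat_lit 16777199)), (.negSucc (nat_lit 1217485108864830406655)), (.ofNat (nat_lit 1217485108864830406656)), (.negSucc (nat_lit 1217485108864830406655)), (.ofNat (nat_lit 1217485108864830406656)), (.ofNat (nat_lit 110680464442257309696))⟩,
    ⟨nat_lit 1, nat_lit 17, nat_lit 18, (.ofNat (nat_lit 8)), (.ofNat (nat_lit 100663296)), (.ofNat (nat_lit 245112127778505294430026596352)), (.ofNat (nat_lit 0)), (.ofNat (nat_lit 3713820117856140824697372672)), (.ofNat (nat_lit 100663280)), (.ofNat (nat_lit 100663312)), (.ofNat (nat_lit 1217485108864830406656)), (.negSucc (nat_lit 1217485108864830406655)), (.negSucc (nat_lit 1217485108864830406655)), (.ofNat (nat_lit 1217485108864830406656)), (.ofNat (nat_lit 110680464442257309696))⟩,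
    ⟨nat_lit 0, nat_lit 19, nat_lit 18, (.ofNat (nat_lit 8)), (.ofNat (nat_lit 67108864)), (.ofNat (nat_lit 285964149074922843501697695744)), (.ofNat (nat_lit 0)), (.ofNat (nat_lit 4332790137498830962146934784)), (.ofNat (nat_lit 67108848)), (.ofNat (nat_lit 67108880)), (.ofNat (nat_lit 1217485108864830406656)), (.negSucc (nat_lit 1217485108864830406655)), (.negSucc (nat_lit 1217485108864830406655)), (.ofNat (nat_lit 1217485108864830406656)), (.ofNat (nat_lit 110680464442257309696))⟩,
    ⟨nat_lit 0, nat_lit 20, nat_lit 19, (.ofNat (nat_lit 8)), (.negSucc (nat_lit 33554431)), (.ofNat (nat_lit 163408085185670196286684397568)), (.ofNat (nat_lit 0)), (.ofNat (nat_lit 2475880078570760549798248448)), (.negSucc (nat_lit 33554447)), (.negSucc (nat_lit 33554415)), (.negSucc (nat_lit 1217485108864830406655)), (.ofNat (nat_lit 1217485108864830406656)), (.negSucc (nat_lit 1217485108864830406655)), (.ofNat (nat_lit 1217485108864830406656)), (.ofNat (nat_lit 110680464442257309696))⟩,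
    ⟨nat_lit 2, nat_lit 20, nat_lit 21, (.ofNat (nat_lit 8)), (.negSucc (nat_lit 100663295)), (.ofNat (nat_lit 245112127778505294430026596352)), (.ofNat (nat_lit 0)), (.ofNat (nat_lit 3713820117856140824697372672)), (.negSucc (nat_lit 100663311)), (.negSucc (nat_lit 100663279)), (.negSucc (nat_lit 1217485108864830406655)), (.ofNat (nat_lit 1217485108864830406656)), (.negSucc (nat_lit 1217485108864830406655)), (.ofNat (nat_lit 1217485108864830406656)), (.ofNat (nat_lit 110680464442257309696))⟩,
    ⟨nat_lit 0, nat_lit 21, nat_lit 22, (.ofNat (nat_lit 8)), (.negSucc (nat_lit 33554431)), (.ofNat (nat_lit 326816170371340392573368795136)), (.ofNat (nat_lit 0)), (.ofNat (nat_lit 4951760157141521099596496896)), (.negSucc (nat_lit 33554447)), (.negSucc (nat_lit 33554415)), (.ofNat (nat_lit 1217485108864830406656)), (.negSucc (nat_lit 1217485108864830406655)), (.negSucc (nat_lit 1217485108864830406655)), (.ofNat (nat_lit 1217485108864830406656)), (.ofNat (nat_lit 110680464442257309696))⟩,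
    ⟨nat_lit 1, nat_lit 23, nat_lit 22, (.ofNat (nat_lit 8)), (.ofNat (nat_lit 83886080)), (.ofNat (nat_lit 183834095833878970822519947264)), (.ofNat (nat_lit 0)), (.ofNat (nat_lit 2785365088392105618523029504)), (.ofNat (nat_lit 83886064)), (.ofNat (nat_lit 83886096)), (.ofNat (nat_lit 1217485108864830406656)), (.negSucc (nat_lit 1217485108864830406655)), (.negSucc (nat_lit 1217485108864830406655)), (.ofNat (nat_lit 1217485108864830406656)), (.ofNat (nat_lit 110680464442257309696))⟩]
  es := [
    ⟨nat_lit 1, nat_lit 0, (.negSucc (nat_lit 167772159)), (.negSucc (nat_lit 33554431)), (.negSucc (nat_lit 167772143)), (.negSucc (nat_lit 33554447)), (.negSucc (nat_lit 1217485108864830406655)), (.negSucc (nat_lit 18446744073709551615)), (.ofNat (nat_lit 0))⟩,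
    ⟨nat_lit 1, nat_lit 2, (.negSucc (nat_lit 167772159)), (.negSucc (nat_lit 100663295)), (.negSucc (nat_lit 167772143)), (.negSucc (nat_lit 100663311)), (.ofNat (nat_lit 1217485108864830406656)), (.ofNat (nat_lit 18446744073709551616)), (.ofNat (nat_lit 6189700196426901374495621120))⟩,
    ⟨nat_lit 2, nat_lit 3, (.negSucc (nat_lit 100663295)), (.negSucc (nat_lit 33554431)), (.negSucc (nat_lit 100663279)), (.negSucc (nat_lit 33554447)), (.negSucc (nat_lit 1217485108864830406655)), (.negSucc (nat_lit 18446744073709551615)), (.ofNat (nat_lit 2475880078570760549798248448))⟩,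
    ⟨nat_lit 3, nat_lit 4, (.negSucc (nat_lit 33554431)), (.ofNat (nat_lit 83886080)), (.negSucc (nat_lit 33554415)), (.ofNat (nat_lit 83886064)), (.ofNat (nat_lit 1217485108864830406656)), (.ofNat (nat_lit 18446744073709551616)), (.ofNat (nat_lit 3713820117856140824697372672))⟩,
    ⟨nat_lit 5, nat_lit 4, (.ofNat (nat_lit 0)), (.ofNat (nat_lit 83886080)), (.ofNat (nat_lit 16)), (.ofNat (nat_lit 83886064)), (.negSucc (nat_lit 1217485108864830406655)), (.negSucc (nat_lit 18446744073709551615)), (.ofNat (nat_lit 6808670216069591511945183232))⟩,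
    ⟨nat_lit 6, nat_lit 5, (.negSucc (nat_lit 167772159)), (.ofNat (nat_lit 0)), (.negSucc (nat_lit 167772143)), (.negSucc (nat_lit 15)), (.ofNat (nat_lit 1217485108864830406656)), (.ofNat (nat_lit 18446744073709551616)), (.ofNat (nat_lit 6808670216069591511945183232))⟩,
    ⟨nat_lit 6, nat_lit 7, (.negSucc (nat_lit 167772159)), (.negSucc (nat_lit 117440511)), (.negSucc (nat_lit 167772143)), (.negSucc (nat_lit 117440639)), (.negSucc (nat_lit 1217485108864830406655)), (.negSucc (nat_lit 18446744073709551615)), (.ofNat (nat_lit 618970019642690137449562112))⟩,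
    ⟨nat_lit 7, nat_lit 8, (.negSucc (nat_lit 117440511)), (.negSucc (nat_lit 33554431)), (.negSucc (nat_lit 117440383)), (.negSucc (nat_lit 33554447)), (.ofNat (nat_lit 1217485108864830406656)), (.ofNat (nat_lit 18446744073709551616)), (.ofNat (nat_lit 4951760157141521099596496896))⟩,
    ⟨nat_lit 8, nat_lit 9, (.negSucc (nat_lit 33554431)), (.ofNat (nat_lit 83886080)), (.negSucc (nat_lit 33554415)), (.ofNat (nat_lit 83886064)), (.negSucc (nat_lit 1217485108864830406655)), (.negSucc (nat_lit 18446744073709551615)), (.ofNat (nat_lit 3713820117856140824697372672))⟩,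
    ⟨nat_lit 9, nat_lit 10, (.ofNat (nat_lit 83886080)), (.ofNat (nat_lit 150994944)), (.ofNat (nat_lit 83886096)), (.ofNat (nat_lit 150994928)), (.ofNat (nat_lit 1217485108864830406656)), (.ofNat (nat_lit 18446744073709551616)), (.ofNat (nat_lit 618970019642690137449562112))⟩,
    ⟨nat_lit 11, nat_lit 10, (.ofNat (nat_lit 100663296)), (.ofNat (nat_lit 150994944)), (.ofNat (nat_lit 100663312)), (.ofNat (nat_lit 150994928)), (.negSucc (nat_lit 1217485108864830406655)), (.negSucc (nat_lit 18446744073709551615)), (.ofNat (nat_lit 6189700196426901374495621120))⟩,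
    ⟨nat_lit 12, nat_lit 11, (.ofNat (nat_lit 67108864)), (.ofNat (nat_lit 100663296)), (.ofNat (nat_lit 67108880)), (.ofNat (nat_lit 100663280)), (.ofNat (nat_lit 1217485108864830406656)), (.ofNat (nat_lit 18446744073709551616)), (.ofNat (nat_lit 2475880078570760549798248448))⟩,
    ⟨nat_lit 12, nat_lit 13, (.ofNat (nat_lit 67108864)), (.ofNat (nat_lit 134217728)), (.ofNat (nat_lit 67108880)), (.ofNat (nat_lit 134217712)), (.negSucc (nat_lit 1217485108864830406655)), (.negSucc (nat_lit 18446744073709551615)), (.ofNat (nat_lit 4951760157141521099596496896))⟩,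
    ⟨nat_lit 14, nat_lit 13, (.ofNat (nat_lit 83886080)), (.ofNat (nat_lit 134217728)), (.ofNat (nat_lit 83886096)), (.ofNat (nat_lit 134217712)), (.ofNat (nat_lit 1217485108864830406656)), (.ofNat (nat_lit 18446744073709551616)), (.ofNat (nat_lit 0))⟩,
    ⟨nat_lit 15, nat_lit 14, (.negSucc (nat_lit 33554431)), (.ofNat (nat_lit 83886080)), (.negSucc (nat_lit 33554415)), (.ofNat (nat_lit 83886064)), (.negSucc (nat_lit 1217485108864830406655)), (.negSucc (nat_lit 18446744073709551615)), (.ofNat (nat_lit 3094850098213450687247810560))⟩,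
    ⟨nat_lit 16, nat_lit 15, (.negSucc (nat_lit 83886079)), (.negSucc (nat_lit 33554431)), (.negSucc (nat_lit 83886063)), (.negSucc (nat_lit 33554447)), (.ofNat (nat_lit 1217485108864830406656)), (.ofNat (nat_lit 18446744073709551616)), (.ofNat (nat_lit 4332790137498830962146934784))⟩,
    ⟨nat_lit 16, nat_lit 17, (.negSucc (nat_lit 83886079)), (.negSucc (nat_lit 16777215)), (.negSucc (nat_lit 83886063)), (.negSucc (nat_lit 16777231)), (.negSucc (nat_lit 1217485108864830406655)), (.negSucc (nat_lit 18446744073709551615)), (.ofNat (nat_lit 1237940039285380274899124224))⟩,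
    ⟨nat_lit 17, nat_lit 18, (.negSucc (nat_lit 16777215)), (.ofNat (nat_lit 100663296)), (.negSucc (nat_lit 16777199)), (.ofNat (nat_lit 100663280)), (.ofNat (nat_lit 1217485108864830406656)), (.ofNat (nat_lit 18446744073709551616)), (.ofNat (nat_lit 1856910058928070412348686336))⟩,
    ⟨nat_lit 19, nat_lit 18, (.ofNat (nat_lit 67108864)), (.ofNat (nat_lit 100663296)), (.ofNat (nat_lit 67108880)), (.ofNat (nat_lit 100663280)), (.negSucc (nat_lit 1217485108864830406655)), (.negSucc (nat_lit 18446744073709551615)), (.ofNat (nat_lit 5570730176784211237046059008))⟩,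
    ⟨nat_lit 20, nat_lit 19, (.negSucc (nat_lit 33554431)), (.ofNat (nat_lit 67108864)), (.negSucc (nat_lit 33554415)), (.ofNat (nat_lit 67108848)), (.ofNat (nat_lit 1217485108864830406656)), (.ofNat (nat_lit 18446744073709551616)), (.ofNat (nat_lit 3094850098213450687247810560))⟩,
    ⟨nat_lit 21, nat_lit 20, (.negSucc (nat_lit 100663295)), (.negSucc (nat_lit 33554431)), (.negSucc (nat_lit 100663279)), (.negSucc (nat_lit 33554447)), (.negSucc (nat_lit 1217485108864830406655)), (.negSucc (nat_lit 18446744073709551615)), (.ofNat (nat_lit 1856910058928070412348686336))⟩,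
    ⟨nat_lit 21, nat_lit 22, (.negSucc (nat_lit 100663295)), (.negSucc (nat_lit 33554431)), (.negSucc (nat_lit 100663279)), (.negSucc (nat_lit 33554447)), (.ofNat (nat_lit 1217485108864830406656)), (.ofNat (nat_lit 18446744073709551616)), (.ofNat (nat_lit 5570730176784211237046059008))⟩,
    ⟨nat_lit 22, nat_lit 23, (.negSucc (nat_lit 33554431)), (.ofNat (nat_lit 83886080)), (.negSucc (nat_lit 33554415)), (.ofNat (nat_lit 83886064)), (.negSucc (nat_lit 1217485108864830406655)), (.negSucc (nat_lit 18446744073709551615)), (.ofNat (nat_lit 4332790137498830962146934784))⟩,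
    ⟨nat_lit 0, nat_lit 23, (.negSucc (nat_lit 33554431)), (.ofNat (nat_lit 83886080)), (.negSucc (nat_lit 33554415)), (.ofNat (nat_lit 83886064)), (.ofNat (nat_lit 1217485108864830406656)), (.ofNat (nat_lit 18446744073709551616)), (.ofNat (nat_lit 1237940039285380274899124224))⟩]

theorem ok4 : stOK 23 23 S4 = true := by decide +kernel

def S5 : SD where
  vs := [
    ⟨nat_lit 0, nat_lit 0, nat_lit 23, (.ofNat (nat_lit 8)), (.negSucc (nat_lit 33554431)), (.ofNat (nat_lit 41470991316060239209120661504)), (.ofNat (nat_lit 0)), (.ofNat (nat_lit 618970019642690137449562112)), (.negSucc (nat_lit 33554447)), (.negSucc (nat_lit 33554415)), (.negSucc (nat_lit 1235931852938539958271)), (.ofNat (nat_lit 1235931852938539958272)), (.negSucc (nat_lit 1235931852938539958271)), (.ofNat (nat_lit 1235931852938539958272)), (.ofNat (nat_lit 110680464442257309696))⟩,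
    ⟨nat_lit 2, nat_lit 0, nat_lit 1, (.ofNat (nat_lit 8)), (.negSucc (nat_lit 167772159)), (.ofNat (nat_lit 207354956580301196045603307520)), (.ofNat (nat_lit 0)), (.ofNat (nat_lit 3094850098213450687247810560)), (.negSucc (nat_lit 167772175)), (.negSucc (nat_lit 167772143)), (.negSucc (nat_lit 1235931852938539958271)), (.ofNat (nat_lit 1235931852938539958272)), (.negSucc (nat_lit 1235931852938539958271)), (.ofNat (nat_lit 1235931852938539958272)), (.ofNat (nat_lit 110680464442257309696))⟩,
    ⟨nat_lit 0, nat_lit 1, nat_lit 2, (.ofNat (nat_lit 8)), (.negSucc (nat_lit 100663295)), (.ofNat (nat_lit 290296939212421674463844630528)), (.ofNat (nat_lit 0)), (.ofNat (nat_lit 4332790137498830962146934784)), (.negSucc (nat_lit 100663311)), (.negSucc (nat_lit 100663279)), (.ofNat (nat_lit 1235931852938539958272)), (.negSucc (nat_lit 1235931852938539958271)), (.negSucc (nat_lit 1235931852938539958271)), (.ofNat (nat_lit 1235931852938539958272)), (.ofNat (nat_lit 110680464442257309696))⟩,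
    ⟨nat_lit 0, nat_lit 2, nat_lit 3, (.ofNat (nat_lit 8)), (.negSucc (nat_lit 33554431)), (.ofNat (nat_lit 207354956580301196045603307520)), (.ofNat (nat_lit 0)), (.ofNat (nat_lit 3094850098213450687247810560)), (.negSucc (nat_lit 33554447)), (.negSucc (nat_lit 33554415)), (.negSucc (nat_lit 1235931852938539958271)), (.ofNat (nat_lit 1235931852938539958272)), (.negSucc (nat_lit 1235931852938539958271)), (.ofNat (nat_lit 1235931852938539958272)), (.ofNat (nat_lit 110680464442257309696))⟩,
    ⟨nat_lit 1, nat_lit 3, nat_lit 4, (.ofNat (nat_lit 8)), (.ofNat (nat_lit 83886080)), (.ofNat (nat_lit 352503426186512033277525622784)), (.ofNat (nat_lit 0)), (.ofNat (nat_lit 5261245166962866168321277952)), (.ofNat (nat_lit 83886064)), (.ofNat (nat_lit 83886096)), (.ofNat (nat_lit 1235931852938539958272)), (.negSucc (nat_lit 1235931852938539958271)), (.negSucc (nat_lit 1235931852938539958271)), (.ofNat (nat_lit 1235931852938539958272)), (.ofNat (nat_lit 110680464442257309696))⟩,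
    ⟨nat_lit 0, nat_lit 5, nat_lit 4, (.ofNat (nat_lit 8)), (.ofNat (nat_lit 0)), (.ofNat (nat_lit 456180904476662631300327276544)), (.ofNat (nat_lit 0)), (.ofNat (nat_lit 6808670216069591511945183232)), (.negSucc (nat_lit 15)), (.ofNat (nat_lit 16)), (.ofNat (nat_lit 1235931852938539958272)), (.negSucc (nat_lit 1235931852938539958271)), (.negSucc (nat_lit 1235931852938539958271)), (.ofNat (nat_lit 1235931852938539958272)), (.ofNat (nat_lit 110680464442257309696))⟩,
    ⟨nat_lit 2, nat_lit 6, nat_lit 5, (.ofNat (nat_lit 8)), (.negSucc (nat_lit 167772159)), (.ofNat (nat_lit 248825947896361435254723969024)), (.ofNat (nat_lit 0)), (.ofNat (nat_lit 3713820117856140824697372672)), (.negSucc (nat_lit 167772175)), (.negSucc (nat_lit 167772143)), (.negSucc (nat_lit 1235931852938539958271)), (.ofNat (nat_lit 1235931852938539958272)), (.negSucc (nat_lit 1235931852938539958271)), (.ofNat (nat_lit 1235931852938539958272)), (.ofNat (nat_lit 110680464442257309696))⟩,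
    ⟨nat_lit 0, nat_lit 6, nat_lit 7, (.ofNat (nat_lit 64)), (.negSucc (nat_lit 117440511)), (.ofNat (nat_lit 186619460922271076441042976768)), (.ofNat (nat_lit 0)), (.ofNat (nat_lit 2785365088392105618523029504)), (.negSucc (nat_lit 117440639)), (.negSucc (nat_lit 117440383)), (.negSucc (nat_lit 1235931852938539958271)), (.ofNat (nat_lit 1235931852938539958272)), (.negSucc (nat_lit 1235931852938539958271)), (.ofNat (nat_lit 1235931852938539958272)), (.ofNat (nat_lit 110680464442257309696))⟩,
    ⟨nat_lit 0, nat_lit 7, nat_lit 8, (.ofNat (nat_lit 8)), (.negSucc (nat_lit 33554431)), (.ofNat (nat_lit 290296939212421674463844630528)), (.ofNat (nat_lit 0)), (.ofNat (nat_lit 4332790137498830962146934784)), (.negSucc (nat_lit 33554447)), (.negSucc (nat_lit 33554415)), (.ofNat (nat_lit 1235931852938539958272)), (.negSucc (nat_lit 1235931852938539958271)), (.negSucc (nat_lit 1235931852938539958271)), (.ofNat (nat_lit 1235931852938539958272)), (.ofNat (nat_lit 110680464442257309696))⟩,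
    ⟨nat_lit 0, nat_lit 8, nat_lit 9, (.ofNat (nat_lit 8)), (.ofNat (nat_lit 83886080)), (.ofNat (nat_lit 145148469606210837231922315264)), (.ofNat (nat_lit 0)), (.ofNat (nat_lit 2166395068749415481073467392)), (.ofNat (nat_lit 83886064)), (.ofNat (nat_lit 83886096)), (.negSucc (nat_lit 1235931852938539958271)), (.ofNat (nat_lit 1235931852938539958272)), (.negSucc (nat_lit 1235931852938539958271)), (.ofNat (nat_lit 1235931852938539958272)), (.ofNat (nat_lit 110680464442257309696))⟩,
    ⟨nat_lit 1, nat_lit 9, nat_lit 10, (.ofNat (nat_lit 8)), (.ofNat (nat_lit 150994944)), (.ofNat (nat_lit 228090452238331315650163638272)), (.ofNat (nat_lit 0)), (.ofNat (nat_lit 3404335108034795755972591616)), (.ofNat (nat_lit 150994928)), (.ofNat (nat_lit 150994960)), (.ofNat (nat_lit 1235931852938539958272)), (.negSucc (nat_lit 1235931852938539958271)), (.negSucc (nat_lit 1235931852938539958271)), (.ofNat (nat_lit 1235931852938539958272)), (.ofNat (nat_lit 110680464442257309696))⟩,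
    ⟨nat_lit 0, nat_lit 11, nat_lit 10, (.ofNat (nat_lit 8)), (.ofNat (nat_lit 100663296)), (.ofNat (nat_lit 290296939212421674463844630528)), (.ofNat (nat_lit 0)), (.ofNat (nat_lit 4332790137498830962146934784)), (.ofNat (nat_lit 100663280)), (.ofNat (nat_lit 100663312)), (.ofNat (nat_lit 1235931852938539958272)), (.negSucc (nat_lit 1235931852938539958271)), (.negSucc (nat_lit 1235931852938539958271)), (.ofNat (nat_lit 1235931852938539958272)), (.ofNat (nat_lit 110680464442257309696))⟩,
    ⟨nat_lit 2, nat_lit 12, nat_lit 11, (.ofNat (nat_lit 8)), (.ofNat (nat_lit 67108864)), (.ofNat (nat_lit 248825947896361435254723969024)), (.ofNat (nat_lit 0)), (.ofNat (nat_lit 3713820117856140824697372672)), (.ofNat (nat_lit 67108848)), (.ofNat (nat_lit 67108880)), (.negSucc (nat_lit 1235931852938539958271)), (.ofNat (nat_lit 1235931852938539958272)), (.negSucc (nat_lit 1235931852938539958271)), (.ofNat (nat_lit 1235931852938539958272)), (.ofNat (nat_lit 110680464442257309696))⟩,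
    ⟨nat_lit 1, nat_lit 13, nat_lit 12, (.ofNat (nat_lit 8)), (.ofNat (nat_lit 134217728)), (.ofNat (nat_lit 165883965264240956836482646016)), (.ofNat (nat_lit 0)), (.ofNat (nat_lit 2475880078570760549798248448)), (.ofNat (nat_lit 134217712)), (.ofNat (nat_lit 134217744)), (.ofNat (nat_lit 1235931852938539958272)), (.negSucc (nat_lit 1235931852938539958271)), (.negSucc (nat_lit 1235931852938539958271)), (.ofNat (nat_lit 1235931852938539958272)), (.ofNat (nat_lit 110680464442257309696))⟩,
    ⟨nat_lit 0, nat_lit 14, nat_lit 13, (.ofNat (nat_lit 8)), (.ofNat (nat_lit 83886080)), (.ofNat (nat_lit 103677478290150598022801653760)), (.ofNat (nat_lit 0)), (.ofNat (nat_lit 1547425049106725343623905280)), (.ofNat (nat_lit 83886064)), (.ofNat (nat_lit 83886096)), (.negSucc (nat_lit 1235931852938539958271)), (.ofNat (nat_lit 1235931852938539958272)), (.negSucc (nat_lit 1235931852938539958271)), (.ofNat (nat_lit 1235931852938539958272)), (.ofNat (nat_lit 110680464442257309696))⟩,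
    ⟨nat_lit 0, nat_lit 15, nat_lit 14, (.ofNat (nat_lit 8)), (.negSucc (nat_lit 33554431)), (.ofNat (nat_lit 248825947896361435254723969024)), (.ofNat (nat_lit 0)), (.ofNat (nat_lit 3713820117856140824697372672)), (.negSucc (nat_lit 33554447)), (.negSucc (nat_lit 33554415)), (.ofNat (nat_lit 1235931852938539958272)), (.negSucc (nat_lit 1235931852938539958271)), (.negSucc (nat_lit 1235931852938539958271)), (.ofNat (nat_lit 1235931852938539958272)), (.ofNat (nat_lit 110680464442257309696))⟩,
    ⟨nat_lit 2, nat_lit 16, nat_lit 15, (.ofNat (nat_lit 8)), (.negSucc (nat_lit 83886079)), (.ofNat (nat_lit 186619460922271076441042976768)), (.ofNat (nat_lit 0)), (.ofNat (nat_lit 2785365088392105618523029504)), (.negSucc (nat_lit 83886095)), (.negSucc (nat_lit 83886063)), (.negSucc (nat_lit 1235931852938539958271)), (.ofNat (nat_lit 1235931852938539958272)), (.negSucc (nat_lit 1235931852938539958271)), (.ofNat (nat_lit 1235931852938539958272)), (.ofNat (nat_lit 110680464442257309696))⟩,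
    ⟨nat_lit 0, nat_lit 16, nat_lit 17, (.ofNat (nat_lit 8)), (.negSucc (nat_lit 16777215)), (.ofNat (nat_lit 103677478290150598022801653760)), (.ofNat (nat_lit 0)), (.ofNat (nat_lit 1547425049106725343623905280)), (.negSucc (nat_lit 16777231)), (.negSucc (nat_lit 16777199)), (.negSucc (nat_lit 1235931852938539958271)), (.ofNat (nat_lit 1235931852938539958272)), (.negSucc (nat_lit 1235931852938539958271)), (.ofNat (nat_lit 1235931852938539958272)), (.ofNat (nat_lit 110680464442257309696))⟩,
    ⟨nat_lit 1, nat_lit 17, nat_lit 18, (.ofNat (nat_lit 8)), (.ofNat (nat_lit 100663296)), (.ofNat (nat_lit 248825947896361435254723969024)), (.ofNat (nat_lit 0)), (.ofNat (nat_lit 3713820117856140824697372672)), (.ofNat (nat_lit 100663280)), (.ofNat (nat_lit 100663312)), (.ofNat (nat_lit 1235931852938539958272)), (.negSucc (nat_lit 1235931852938539958271)), (.negSucc (nat_lit 1235931852938539958271)), (.ofNat (nat_lit 1235931852938539958272)), (.ofNat (nat_lit 110680464442257309696))⟩,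
    ⟨nat_lit 0, nat_lit 19, nat_lit 18, (.ofNat (nat_lit 8)), (.ofNat (nat_lit 67108864)), (.ofNat (nat_lit 290296939212421674463844630528)), (.ofNat (nat_lit 0)), (.ofNat (nat_lit 4332790137498830962146934784)), (.ofNat (nat_lit 67108848)), (.ofNat (nat_lit 67108880)), (.ofNat (nat_lit 1235931852938539958272)), (.negSucc (nat_lit 1235931852938539958271)), (.negSucc (nat_lit 1235931852938539958271)), (.ofNat (nat_lit 1235931852938539958272)), (.ofNat (nat_lit 110680464442257309696))⟩,
    ⟨nat_lit 0, nat_lit 20, nat_lit 19, (.ofNat (nat_lit 8)), (.negSucc (nat_lit 33554431)), (.ofNat (nat_lit 165883965264240956836482646016)), (.ofNat (nat_lit 0)), (.ofNat (nat_lit 2475880078570760549798248448)), (.negSucc (nat_lit 33554447)), (.negSucc (nat_lit 33554415)), (.negSucc (nat_lit 1235931852938539958271)), (.ofNat (nat_lit 1235931852938539958272)), (.negSucc (nat_lit 1235931852938539958271)), (.ofNat (nat_lit 1235931852938539958272)), (.ofNat (nat_lit 110680464442257309696))⟩,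
    ⟨nat_lit 2, nat_lit 20, nat_lit 21, (.ofNat (nat_lit 8)), (.negSucc (nat_lit 100663295)), (.ofNat (nat_lit 248825947896361435254723969024)), (.ofNat (nat_lit 0)), (.ofNat (nat_lit 3713820117856140824697372672)), (.negSucc (nat_lit 100663311)), (.negSucc (nat_lit 100663279)), (.negSucc (nat_lit 1235931852938539958271)), (.ofNat (nat_lit 1235931852938539958272)), (.negSucc (nat_lit 1235931852938539958271)), (.ofNat (nat_lit 1235931852938539958272)), (.ofNat (nat_lit 110680464442257309696))⟩,
    ⟨nat_lit 0, nat_lit 21, nat_lit 22, (.ofNat (nat_lit 8)), (.negSucc (nat_lit 33554431)), (.ofNat (nat_lit 331767930528481913672965292032)), (.ofNat (nat_lit 0)), (.ofNat (nat_lit 4951760157141521099596496896)), (.negSucc (nat_lit 33554447)), (.negSucc (nat_lit 33554415)), (.ofNat (nat_lit 1235931852938539958272)), (.negSucc (nat_lit 1235931852938539958271)), (.negSucc (nat_lit 1235931852938539958271)), (.ofNat (nat_lit 1235931852938539958272)), (.ofNat (nat_lit 110680464442257309696))⟩,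
    ⟨nat_lit 1, nat_lit 23, nat_lit 22, (.ofNat (nat_lit 8)), (.ofNat (nat_lit 83886080)), (.ofNat (nat_lit 186619460922271076441042976768)), (.ofNat (nat_lit 0)), (.ofNat (nat_lit 2785365088392105618523029504)), (.ofNat (nat_lit 83886064)), (.ofNat (nat_lit 83886096)), (.ofNat (nat_lit 1235931852938539958272)), (.negSucc (nat_lit 1235931852938539958271)), (.negSucc (nat_lit 1235931852938539958271)), (.ofNat (nat_lit 1235931852938539958272)), (.ofNat (nat_lit 110680464442257309696))⟩]
  es := [
    ⟨nat_lit 1, nat_lit 0, (.negSucc (nat_lit 167772159)), (.negSucc (nat_lit 33554431)), (.negSucc (nat_lit 167772143)), (.negSucc (nat_lit 33554447)), (.negSucc (nat_lit 1235931852938539958271)), (.negSucc (nat_lit 18446744073709551615)), (.ofNat (nat_lit 0))⟩,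
    ⟨nat_lit 1, nat_lit 2, (.negSucc (nat_lit 167772159)), (.negSucc (nat_lit 100663295)), (.negSucc (nat_lit 167772143)), (.negSucc (nat_lit 100663311)), (.ofNat (nat_lit 1235931852938539958272)), (.ofNat (nat_lit 18446744073709551616)), (.ofNat (nat_lit 6189700196426901374495621120))⟩,
    ⟨nat_lit 2, nat_lit 3, (.negSucc (nat_lit 100663295)), (.negSucc (nat_lit 33554431)), (.negSucc (nat_lit 100663279)), (.negSucc (nat_lit 33554447)), (.negSucc (nat_lit 1235931852938539958271)), (.negSucc (nat_lit 18446744073709551615)), (.ofNat (nat_lit 2475880078570760549798248448))⟩,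
    ⟨nat_lit 3, nat_lit 4, (.negSucc (nat_lit 33554431)), (.ofNat (nat_lit 83886080)), (.negSucc (nat_lit 33554415)), (.ofNat (nat_lit 83886064)), (.ofNat (nat_lit 1235931852938539958272)), (.ofNat (nat_lit 18446744073709551616)), (.ofNat (nat_lit 3713820117856140824697372672))⟩,
    ⟨nat_lit 5, nat_lit 4, (.ofNat (nat_lit 0)), (.ofNat (nat_lit 83886080)), (.ofNat (nat_lit 16)), (.ofNat (nat_lit 83886064)), (.negSucc (nat_lit 1235931852938539958271)), (.negSucc (nat_lit 18446744073709551615)), (.ofNat (nat_lit 6808670216069591511945183232))⟩,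
    ⟨nat_lit 6, nat_lit 5, (.negSucc (nat_lit 167772159)), (.ofNat (nat_lit 0)), (.negSucc (nat_lit 167772143)), (.negSucc (nat_lit 15)), (.ofNat (nat_lit 1235931852938539958272)), (.ofNat (nat_lit 18446744073709551616)), (.ofNat (nat_lit 6808670216069591511945183232))⟩,
    ⟨nat_lit 6, nat_lit 7, (.negSucc (nat_lit 167772159)), (.negSucc (nat_lit 117440511)), (.negSucc (nat_lit 167772143)), (.negSucc (nat_lit 117440639)), (.negSucc (nat_lit 1235931852938539958271)), (.negSucc (nat_lit 18446744073709551615)), (.ofNat (nat_lit 618970019642690137449562112))⟩,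
    ⟨nat_lit 7, nat_lit 8, (.negSucc (nat_lit 117440511)), (.negSucc (nat_lit 33554431)), (.negSucc (nat_lit 117440383)), (.negSucc (nat_lit 33554447)), (.ofNat (nat_lit 1235931852938539958272)), (.ofNat (nat_lit 18446744073709551616)), (.ofNat (nat_lit 4951760157141521099596496896))⟩,
    ⟨nat_lit 8, nat_lit 9, (.negSucc (nat_lit 33554431)), (.ofNat (nat_lit 83886080)), (.negSucc (nat_lit 33554415)), (.ofNat (nat_lit 83886064)), (.negSucc (nat_lit 1235931852938539958271)), (.negSucc (nat_lit 18446744073709551615)), (.ofNat (nat_lit 3713820117856140824697372672))⟩,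
    ⟨nat_lit 9, nat_lit 10, (.ofNat (nat_lit 83886080)), (.ofNat (nat_lit 150994944)), (.ofNat (nat_lit 83886096)), (.ofNat (nat_lit 150994928)), (.ofNat (nat_lit 1235931852938539958272)), (.ofNat (nat_lit 18446744073709551616)), (.ofNat (nat_lit 618970019642690137449562112))⟩,
    ⟨nat_lit 11, nat_lit 10, (.ofNat (nat_lit 100663296)), (.ofNat (nat_lit 150994944)), (.ofNat (nat_lit 100663312)), (.ofNat (nat_lit 150994928)), (.negSucc (nat_lit 1235931852938539958271)), (.negSucc (nat_lit 18446744073709551615)), (.ofNat (nat_lit 6189700196426901374495621120))⟩,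
    ⟨nat_lit 12, nat_lit 11, (.ofNat (nat_lit 67108864)), (.ofNat (nat_lit 100663296)), (.ofNat (nat_lit 67108880)), (.ofNat (nat_lit 100663280)), (.ofNat (nat_lit 1235931852938539958272)), (.ofNat (nat_lit 18446744073709551616)), (.ofNat (nat_lit 2475880078570760549798248448))⟩,
    ⟨nat_lit 12, nat_lit 13, (.ofNat (nat_lit 67108864)), (.ofNat (nat_lit 134217728)), (.ofNat (nat_lit 67108880)), (.ofNat (nat_lit 134217712)), (.negSucc (nat_lit 1235931852938539958271)), (.negSucc (nat_lit 18446744073709551615)), (.ofNat (nat_lit 4951760157141521099596496896))⟩,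
    ⟨nat_lit 14, nat_lit 13, (.ofNat (nat_lit 83886080)), (.ofNat (nat_lit 134217728)), (.ofNat (nat_lit 83886096)), (.ofNat (nat_lit 134217712)), (.ofNat (nat_lit 1235931852938539958272)), (.ofNat (nat_lit 18446744073709551616)), (.ofNat (nat_lit 0))⟩,
    ⟨nat_lit 15, nat_lit 14, (.negSucc (nat_lit 33554431)), (.ofNat (nat_lit 83886080)), (.negSucc (nat_lit 33554415)), (.ofNat (nat_lit 83886064)), (.negSucc (nat_lit 1235931852938539958271)), (.negSucc (nat_lit 18446744073709551615)), (.ofNat (nat_lit 3094850098213450687247810560))⟩,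
    ⟨nat_lit 16, nat_lit 15, (.negSucc (nat_lit 83886079)), (.negSucc (nat_lit 33554431)), (.negSucc (nat_lit 83886063)), (.negSucc (nat_lit 33554447)), (.ofNat (nat_lit 1235931852938539958272)), (.ofNat (nat_lit 18446744073709551616)), (.ofNat (nat_lit 4332790137498830962146934784))⟩,
    ⟨nat_lit 16, nat_lit 17, (.negSucc (nat_lit 83886079)), (.negSucc (nat_lit 16777215)), (.negSucc (nat_lit 83886063)), (.negSucc (nat_lit 16777231)), (.negSucc (nat_lit 1235931852938539958271)), (.negSucc (nat_lit 18446744073709551615)), (.ofNat (nat_lit 1237940039285380274899124224))⟩,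
    ⟨nat_lit 17, nat_lit 18, (.negSucc (nat_lit 16777215)), (.ofNat (nat_lit 100663296)), (.negSucc (nat_lit 16777199)), (.ofNat (nat_lit 100663280)), (.ofNat (nat_lit 1235931852938539958272)), (.ofNat (nat_lit 18446744073709551616)), (.ofNat (nat_lit 1856910058928070412348686336))⟩,
    ⟨nat_lit 19, nat_lit 18, (.ofNat (nat_lit 67108864)), (.ofNat (nat_lit 100663296)), (.ofNat (nat_lit 67108880)), (.ofNat (nat_lit 100663280)), (.negSucc (nat_lit 1235931852938539958271)), (.negSucc (nat_lit 18446744073709551615)), (.ofNat (nat_lit 5570730176784211237046059008))⟩,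
    ⟨nat_lit 20, nat_lit 19, (.negSucc (nat_lit 33554431)), (.ofNat (nat_lit 67108864)), (.negSucc (nat_lit 33554415)), (.ofNat (nat_lit 67108848)), (.ofNat (nat_lit 1235931852938539958272)), (.ofNat (nat_lit 18446744073709551616)), (.ofNat (nat_lit 3094850098213450687247810560))⟩,
    ⟨nat_lit 21, nat_lit 20, (.negSucc (nat_lit 100663295)), (.negSucc (nat_lit 33554431)), (.negSucc (nat_lit 100663279)), (.negSucc (nat_lit 33554447)), (.negSucc (nat_lit 1235931852938539958271)), (.negSucc (nat_lit 18446744073709551615)), (.ofNat (nat_lit 1856910058928070412348686336))⟩,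
    ⟨nat_lit 21, nat_lit 22, (.negSucc (nat_lit 100663295)), (.negSucc (nat_lit 33554431)), (.negSucc (nat_lit 100663279)), (.negSucc (nat_lit 33554447)), (.ofNat (nat_lit 1235931852938539958272)), (.ofNat (nat_lit 18446744073709551616)), (.ofNat (nat_lit 5570730176784211237046059008))⟩,
    ⟨nat_lit 22, nat_lit 23, (.negSucc (nat_lit 33554431)), (.ofNat (nat_lit 83886080)), (.negSucc (nat_lit 33554415)), (.ofNat (nat_lit 83886064)), (.negSucc (nat_lit 1235931852938539958271)), (.negSucc (nat_lit 18446744073709551615)), (.ofNat (nat_lit 4332790137498830962146934784))⟩,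
    ⟨nat_lit 0, nat_lit 23, (.negSucc (nat_lit 33554431)), (.ofNat (nat_lit 83886080)), (.negSucc (nat_lit 33554415)), (.ofNat (nat_lit 83886064)), (.ofNat (nat_lit 1235931852938539958272)), (.ofNat (nat_lit 18446744073709551616)), (.ofNat (nat_lit 1237940039285380274899124224))⟩]

theorem ok5 : stOK 23 23 S5 = true := by decide +kernel

def S6 : SD where
  vs := [
    ⟨nat_lit 0, nat_lit 0, nat_lit 23, (.ofNat (nat_lit 8)), (.negSucc (nat_lit 33554431)), (.ofNat (nat_lit 41470991316060239209120661504)), (.ofNat (nat_lit 0)), (.ofNat (nat_lit 618970019642690137449562112)), (.negSucc (nat_lit 33554447)), (.negSucc (nat_lit 33554415)), (.negSucc (nat_lit 1235931852938539958271)), (.ofNat (nat_lit 1235931852938539958272)), (.negSucc (nat_lit 1235931852938539958271)), (.ofNat (nat_lit 1235931852938539958272)), (.ofNat (nat_lit 110680464442257309696))⟩,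
    ⟨nat_lit 2, nat_lit 0, nat_lit 1, (.ofNat (nat_lit 8)), (.negSucc (nat_lit 167772159)), (.ofNat (nat_lit 207354956580301196045603307520)), (.ofNat (nat_lit 0)), (.ofNat (nat_lit 3094850098213450687247810560)), (.negSucc (nat_lit 167772175)), (.negSucc (nat_lit 167772143)), (.negSucc (nat_lit 1235931852938539958271)), (.ofNat (nat_lit 1235931852938539958272)), (.negSucc (nat_lit 1235931852938539958271)), (.ofNat (nat_lit 1235931852938539958272)), (.ofNat (nat_lit 110680464442257309696))⟩,
    ⟨nat_lit 0, nat_lit 1, nat_lit 2, (.ofNat (nat_lit 8)), (.negSucc (nat_lit 100663295)), (.ofNat (nat_lit 290296939212421674463844630528)), (.ofNat (nat_lit 0)), (.ofNat (nat_lit 4332790137498830962146934784)), (.negSucc (nat_lit 100663311)), (.negSucc (nat_lit 100663279)), (.ofNat (nat_lit 1235931852938539958272)), (.negSucc (nat_lit 1235931852938539958271)), (.negSucc (nat_lit 1235931852938539958271)), (.ofNat (nat_lit 1235931852938539958272)), (.ofNat (nat_lit 110680464442257309696))⟩,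
    ⟨nat_lit 0, nat_lit 2, nat_lit 3, (.ofNat (nat_lit 8)), (.negSucc (nat_lit 33554431)), (.ofNat (nat_lit 207354956580301196045603307520)), (.ofNat (nat_lit 0)), (.ofNat (nat_lit 3094850098213450687247810560)), (.negSucc (nat_lit 33554447)), (.negSucc (nat_lit 33554415)), (.negSucc (nat_lit 1235931852938539958271)), (.ofNat (nat_lit 1235931852938539958272)), (.negSucc (nat_lit 1235931852938539958271)), (.ofNat (nat_lit 1235931852938539958272)), (.ofNat (nat_lit 110680464442257309696))⟩,
    ⟨nat_lit 1, nat_lit 3, nat_lit 4, (.ofNat (nat_lit 8)), (.ofNat (nat_lit 83886080)), (.ofNat (nat_lit 352503426186512033277525622784)), (.ofNat (nat_lit 0)), (.ofNat (nat_lit 5261245166962866168321277952)), (.ofNat (nat_lit 83886064)), (.ofNat (nat_lit 83886096)), (.ofNat (nat_lit 1235931852938539958272)), (.negSucc (nat_lit 1235931852938539958271)), (.negSucc (nat_lit 1235931852938539958271)), (.ofNat (nat_lit 1235931852938539958272)), (.ofNat (nat_lit 110680464442257309696))⟩,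
    ⟨nat_lit 0, nat_lit 5, nat_lit 4, (.ofNat (nat_lit 8)), (.ofNat (nat_lit 0)), (.ofNat (nat_lit 456180904476662631300327276544)), (.ofNat (nat_lit 0)), (.ofNat (nat_lit 6808670216069591511945183232)), (.negSucc (nat_lit 15)), (.ofNat (nat_lit 16)), (.ofNat (nat_lit 1235931852938539958272)), (.negSucc (nat_lit 1235931852938539958271)), (.negSucc (nat_lit 1235931852938539958271)), (.ofNat (nat_lit 1235931852938539958272)), (.ofNat (nat_lit 110680464442257309696))⟩,
    ⟨nat_lit 2, nat_lit 6, nat_lit 5, (.ofNat (nat_lit 8)), (.negSucc (nat_lit 167772159)), (.ofNat (nat_lit 248825947896361435254723969024)), (.ofNat (nat_lit 0)), (.ofNat (nat_lit 3713820117856140824697372672)), (.negSucc (nat_lit 167772175)), (.negSucc (nat_lit 167772143)), (.negSucc (nat_lit 1235931852938539958271)), (.ofNat (nat_lit 1235931852938539958272)), (.negSucc (nat_lit 1235931852938539958271)), (.ofNat (nat_lit 1235931852938539958272)), (.ofNat (nat_lit 110680464442257309696))⟩,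
    ⟨nat_lit 1, nat_lit 6, nat_lit 24, (.ofNat (nat_lit 8)), (.negSucc (nat_lit 117440479)), (.ofNat (nat_lit 186619421372451782407764312064)), (.ofNat (nat_lit 0)), (.ofNat (nat_lit 2785364498096295259817377792)), (.negSucc (nat_lit 117440495)), (.negSucc (nat_lit 117440463)), (.negSucc (nat_lit 1235931852938539958271)), (.ofNat (nat_lit 0)), (.negSucc (nat_lit 1235931852938539958271)), (.ofNat (nat_lit 0)), (.ofNat (nat_lit 73786976294838206464))⟩,
    ⟨nat_lit 0, nat_lit 7, nat_lit 8, (.ofNat (nat_lit 8)), (.negSucc (nat_lit 33554431)), (.ofNat (nat_lit 290296939212421674463844630528)), (.ofNat (nat_lit 0)), (.ofNat (nat_lit 4332790137498830962146934784)), (.negSucc (nat_lit 33554447)), (.negSucc (nat_lit 33554415)), (.ofNat (nat_lit 1235931852938539958272)), (.negSucc (nat_lit 1235931852938539958271)), (.negSucc (nat_lit 1235931852938539958271)), (.ofNat (nat_lit 1235931852938539958272)), (.ofNat (nat_lit 110680464442257309696))⟩,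
    ⟨nat_lit 0, nat_lit 8, nat_lit 9, (.ofNat (nat_lit 8)), (.ofNat (nat_lit 83886080)), (.ofNat (nat_lit 145148469606210837231922315264)), (.ofNat (nat_lit 0)), (.ofNat (nat_lit 2166395068749415481073467392)), (.ofNat (nat_lit 83886064)), (.ofNat (nat_lit 83886096)), (.negSucc (nat_lit 1235931852938539958271)), (.ofNat (nat_lit 1235931852938539958272)), (.negSucc (nat_lit 1235931852938539958271)), (.ofNat (nat_lit 1235931852938539958272)), (.ofNat (nat_lit 110680464442257309696))⟩,
    ⟨nat_lit 1, nat_lit 9, nat_lit 10, (.ofNat (nat_lit 8)), (.ofNat (nat_lit 150994944)), (.ofNat (nat_lit 228090452238331315650163638272)), (.ofNat (nat_lit 0)), (.ofNat (nat_lit 3404335108034795755972591616)), (.ofNat (nat_lit 150994928)), (.ofNat (nat_lit 150994960)), (.ofNat (nat_lit 1235931852938539958272)), (.negSucc (nat_lit 1235931852938539958271)), (.negSucc (nat_lit 1235931852938539958271)), (.ofNat (nat_lit 1235931852938539958272)), (.ofNat (nat_lit 110680464442257309696))⟩,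
    ⟨nat_lit 0, nat_lit 11, nat_lit 10, (.ofNat (nat_lit 8)), (.ofNat (nat_lit 100663296)), (.ofNat (nat_lit 290296939212421674463844630528)), (.ofNat (nat_lit 0)), (.ofNat (nat_lit 4332790137498830962146934784)), (.ofNat (nat_lit 100663280)), (.ofNat (nat_lit 100663312)), (.ofNat (nat_lit 1235931852938539958272)), (.negSucc (nat_lit 1235931852938539958271)), (.negSucc (nat_lit 1235931852938539958271)), (.ofNat (nat_lit 1235931852938539958272)), (.ofNat (nat_lit 110680464442257309696))⟩,
    ⟨nat_lit 2, nat_lit 12, nat_lit 11, (.ofNat (nat_lit 8)), (.ofNat (nat_lit 67108864)), (.ofNat (nat_lit 248825947896361435254723969024)), (.ofNat (nat_lit 0)), (.ofNat (nat_lit 3713820117856140824697372672)), (.ofNat (nat_lit 67108848)), (.ofNat (nat_lit 67108880)), (.negSucc (nat_lit 1235931852938539958271)), (.ofNat (nat_lit 1235931852938539958272)), (.negSucc (nat_lit 1235931852938539958271)), (.ofNat (nat_lit 1235931852938539958272)), (.ofNat (nat_lit 110680464442257309696))⟩,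
    ⟨nat_lit 1, nat_lit 13, nat_lit 12, (.ofNat (nat_lit 8)), (.ofNat (nat_lit 134217728)), (.ofNat (nat_lit 165883965264240956836482646016)), (.ofNat (nat_lit 0)), (.ofNat (nat_lit 2475880078570760549798248448)), (.ofNat (nat_lit 134217712)), (.ofNat (nat_lit 134217744)), (.ofNat (nat_lit 1235931852938539958272)), (.negSucc (nat_lit 1235931852938539958271)), (.negSucc (nat_lit 1235931852938539958271)), (.ofNat (nat_lit 1235931852938539958272)), (.ofNat (nat_lit 110680464442257309696))⟩,
    ⟨nat_lit 0, nat_lit 14, nat_lit 13, (.ofNat (nat_lit 8)), (.ofNat (nat_lit 83886080)), (.ofNat (nat_lit 103677478290150598022801653760)), (.ofNat (nat_lit 0)), (.ofNat (nat_lit 1547425049106725343623905280)), (.ofNat (nat_lit 83886064)), (.ofNat (nat_lit 83886096)), (.negSucc (nat_lit 1235931852938539958271)), (.ofNat (nat_lit 1235931852938539958272)), (.negSucc (nat_lit 1235931852938539958271)), (.ofNat (nat_lit 1235931852938539958272)), (.ofNat (nat_lit 110680464442257309696))⟩,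
    ⟨nat_lit 0, nat_lit 15, nat_lit 14, (.ofNat (nat_lit 8)), (.negSucc (nat_lit 33554431)), (.ofNat (nat_lit 248825947896361435254723969024)), (.ofNat (nat_lit 0)), (.ofNat (nat_lit 3713820117856140824697372672)), (.negSucc (nat_lit 33554447)), (.negSucc (nat_lit 33554415)), (.ofNat (nat_lit 1235931852938539958272)), (.negSucc (nat_lit 1235931852938539958271)), (.negSucc (nat_lit 1235931852938539958271)), (.ofNat (nat_lit 1235931852938539958272)), (.ofNat (nat_lit 110680464442257309696))⟩,
    ⟨nat_lit 2, nat_lit 16, nat_lit 15, (.ofNat (nat_lit 8)), (.negSucc (nat_lit 83886079)), (.ofNat (nat_lit 186619460922271076441042976768)), (.ofNat (nat_lit 0)), (.ofNat (nat_lit 2785365088392105618523029504)), (.negSucc (nat_lit 83886095)), (.negSucc (nat_lit 83886063)), (.negSucc (nat_lit 1235931852938539958271)), (.ofNat (nat_lit 1235931852938539958272)), (.negSucc (nat_lit 1235931852938539958271)), (.ofNat (nat_lit 1235931852938539958272)), (.ofNat (nat_lit 110680464442257309696))⟩,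
    ⟨nat_lit 0, nat_lit 16, nat_lit 17, (.ofNat (nat_lit 8)), (.negSucc (nat_lit 16777215)), (.ofNat (nat_lit 103677478290150598022801653760)), (.ofNat (nat_lit 0)), (.ofNat (nat_lit 1547425049106725343623905280)), (.negSucc (nat_lit 16777231)), (.negSucc (nat_lit 16777199)), (.negSucc (nat_lit 1235931852938539958271)), (.ofNat (nat_lit 1235931852938539958272)), (.negSucc (nat_lit 1235931852938539958271)), (.ofNat (nat_lit 1235931852938539958272)), (.ofNat (nat_lit 110680464442257309696))⟩,
    ⟨nat_lit 1, nat_lit 17, nat_lit 18, (.ofNat (nat_lit 8)), (.ofNat (nat_lit 100663296)), (.ofNat (nat_lit 248825947896361435254723969024)), (.ofNat (nat_lit 0)), (.ofNat (nat_lit 3713820117856140824697372672)), (.ofNat (nat_lit 100663280)), (.ofNat (nat_lit 100663312)), (.ofNat (nat_lit 1235931852938539958272)), (.negSucc (nat_lit 1235931852938539958271)), (.negSucc (nat_lit 1235931852938539958271)), (.ofNat (nat_lit 1235931852938539958272)), (.ofNat (nat_lit 110680464442257309696))⟩,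
    ⟨nat_lit 0, nat_lit 19, nat_lit 18, (.ofNat (nat_lit 8)), (.ofNat (nat_lit 67108864)), (.ofNat (nat_lit 290296939212421674463844630528)), (.ofNat (nat_lit 0)), (.ofNat (nat_lit 4332790137498830962146934784)), (.ofNat (nat_lit 67108848)), (.ofNat (nat_lit 67108880)), (.ofNat (nat_lit 1235931852938539958272)), (.negSucc (nat_lit 1235931852938539958271)), (.negSucc (nat_lit 1235931852938539958271)), (.ofNat (nat_lit 1235931852938539958272)), (.ofNat (nat_lit 110680464442257309696))⟩,
    ⟨nat_lit 0, nat_lit 20, nat_lit 19, (.ofNat (nat_lit 8)), (.negSucc (nat_lit 33554431)), (.ofNat (nat_lit 165883965264240956836482646016)), (.ofNat (nat_lit 0)), (.ofNat (nat_lit 2475880078570760549798248448)), (.negSucc (nat_lit 33554447)), (.negSucc (nat_lit 33554415)), (.negSucc (nat_lit 1235931852938539958271)), (.ofNat (nat_lit 1235931852938539958272)), (.negSucc (nat_lit 1235931852938539958271)), (.ofNat (nat_lit 1235931852938539958272)), (.ofNat (nat_lit 110680464442257309696))⟩,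
    ⟨nat_lit 2, nat_lit 20, nat_lit 21, (.ofNat (nat_lit 8)), (.negSucc (nat_lit 100663295)), (.ofNat (nat_lit 248825947896361435254723969024)), (.ofNat (nat_lit 0)), (.ofNat (nat_lit 3713820117856140824697372672)), (.negSucc (nat_lit 100663311)), (.negSucc (nat_lit 100663279)), (.negSucc (nat_lit 1235931852938539958271)), (.ofNat (nat_lit 1235931852938539958272)), (.negSucc (nat_lit 1235931852938539958271)), (.ofNat (nat_lit 1235931852938539958272)), (.ofNat (nat_lit 110680464442257309696))⟩,
    ⟨nat_lit 0, nat_lit 21, nat_lit 22, (.ofNat (nat_lit 8)), (.negSucc (nat_lit 33554431)), (.ofNat (nat_lit 331767930528481913672965292032)), (.ofNat (nat_lit 0)), (.ofNat (nat_lit 4951760157141521099596496896)), (.negSucc (nat_lit 33554447)), (.negSucc (nat_lit 33554415)), (.ofNat (nat_lit 1235931852938539958272)), (.negSucc (nat_lit 1235931852938539958271)), (.negSucc (nat_lit 1235931852938539958271)), (.ofNat (nat_lit 1235931852938539958272)), (.ofNat (nat_lit 110680464442257309696))⟩,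
    ⟨nat_lit 1, nat_lit 23, nat_lit 22, (.ofNat (nat_lit 8)), (.ofNat (nat_lit 83886080)), (.ofNat (nat_lit 186619460922271076441042976768)), (.ofNat (nat_lit 0)), (.ofNat (nat_lit 2785365088392105618523029504)), (.ofNat (nat_lit 83886064)), (.ofNat (nat_lit 83886096)), (.ofNat (nat_lit 1235931852938539958272)), (.negSucc (nat_lit 1235931852938539958271)), (.negSucc (nat_lit 1235931852938539958271)), (.ofNat (nat_lit 1235931852938539958272)), (.ofNat (nat_lit 110680464442257309696))⟩,
    ⟨nat_lit 2, nat_lit 24, nat_lit 7, (.ofNat (nat_lit 8)), (.negSucc (nat_lit 117440543)), (.ofNat (nat_lit 186619421372451782407764312064)), (.ofNat (nat_lit 0)), (.ofNat (nat_lit 2785364498096295259817377792)), (.negSucc (nat_lit 117440559)), (.negSucc (nat_lit 117440527)), (.ofNat (nat_lit 0)), (.ofNat (nat_lit 1235931852938539958272)), (.ofNat (nat_lit 0)), (.ofNat (nat_lit 1235931852938539958272)), (.ofNat (nat_lit 36893488147419103232))⟩]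
  es := [
    ⟨nat_lit 1, nat_lit 0, (.negSucc (nat_lit 167772159)), (.negSucc (nat_lit 33554431)), (.negSucc (nat_lit 167772143)), (.negSucc (nat_lit 33554447)), (.negSucc (nat_lit 1235931852938539958271)), (.negSucc (nat_lit 18446744073709551615)), (.ofNat (nat_lit 0))⟩,
    ⟨nat_lit 1, nat_lit 2, (.negSucc (nat_lit 167772159)), (.negSucc (nat_lit 100663295)), (.negSucc (nat_lit 167772143)), (.negSucc (nat_lit 100663311)), (.ofNat (nat_lit 1235931852938539958272)), (.ofNat (nat_lit 18446744073709551616)), (.ofNat (nat_lit 6189700196426901374495621120))⟩,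
    ⟨nat_lit 2, nat_lit 3, (.negSucc (nat_lit 100663295)), (.negSucc (nat_lit 33554431)), (.negSucc (nat_lit 100663279)), (.negSucc (nat_lit 33554447)), (.negSucc (nat_lit 1235931852938539958271)), (.negSucc (nat_lit 18446744073709551615)), (.ofNat (nat_lit 2475880078570760549798248448))⟩,
    ⟨nat_lit 3, nat_lit 4, (.negSucc (nat_lit 33554431)), (.ofNat (nat_lit 83886080)), (.negSucc (nat_lit 33554415)), (.ofNat (nat_lit 83886064)), (.ofNat (nat_lit 1235931852938539958272)), (.ofNat (nat_lit 18446744073709551616)), (.ofNat (nat_lit 3713820117856140824697372672))⟩,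
    ⟨nat_lit 5, nat_lit 4, (.ofNat (nat_lit 0)), (.ofNat (nat_lit 83886080)), (.ofNat (nat_lit 16)), (.ofNat (nat_lit 83886064)), (.negSucc (nat_lit 1235931852938539958271)), (.negSucc (nat_lit 18446744073709551615)), (.ofNat (nat_lit 6808670216069591511945183232))⟩,
    ⟨nat_lit 6, nat_lit 5, (.negSucc (nat_lit 167772159)), (.ofNat (nat_lit 0)), (.negSucc (nat_lit 167772143)), (.negSucc (nat_lit 15)), (.ofNat (nat_lit 1235931852938539958272)), (.ofNat (nat_lit 18446744073709551616)), (.ofNat (nat_lit 6808670216069591511945183232))⟩,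
    ⟨nat_lit 6, nat_lit 7, (.negSucc (nat_lit 167772159)), (.negSucc (nat_lit 117440479)), (.negSucc (nat_lit 167772143)), (.negSucc (nat_lit 117440495)), (.negSucc (nat_lit 1235931852938539958271)), (.negSucc (nat_lit 18446744073709551615)), (.ofNat (nat_lit 618970019642690137449562112))⟩,
    ⟨nat_lit 24, nat_lit 8, (.negSucc (nat_lit 117440543)), (.negSucc (nat_lit 33554431)), (.negSucc (nat_lit 117440527)), (.negSucc (nat_lit 33554447)), (.ofNat (nat_lit 1235931852938539958272)), (.ofNat (nat_lit 18446744073709551616)), (.ofNat (nat_lit 4951760157141521099596496896))⟩,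
    ⟨nat_lit 8, nat_lit 9, (.negSucc (nat_lit 33554431)), (.ofNat (nat_lit 83886080)), (.negSucc (nat_lit 33554415)), (.ofNat (nat_lit 83886064)), (.negSucc (nat_lit 1235931852938539958271)), (.negSucc (nat_lit 18446744073709551615)), (.ofNat (nat_lit 3713820117856140824697372672))⟩,
    ⟨nat_lit 9, nat_lit 10, (.ofNat (nat_lit 83886080)), (.ofNat (nat_lit 150994944)), (.ofNat (nat_lit 83886096)), (.ofNat (nat_lit 150994928)), (.ofNat (nat_lit 1235931852938539958272)), (.ofNat (nat_lit 18446744073709551616)), (.ofNat (nat_lit 618970019642690137449562112))⟩,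
    ⟨nat_lit 11, nat_lit 10, (.ofNat (nat_lit 100663296)), (.ofNat (nat_lit 150994944)), (.ofNat (nat_lit 100663312)), (.ofNat (nat_lit 150994928)), (.negSucc (nat_lit 1235931852938539958271)), (.negSucc (nat_lit 18446744073709551615)), (.ofNat (nat_lit 6189700196426901374495621120))⟩,
    ⟨nat_lit 12, nat_lit 11, (.ofNat (nat_lit 67108864)), (.ofNat (nat_lit 100663296)), (.ofNat (nat_lit 67108880)), (.ofNat (nat_lit 100663280)), (.ofNat (nat_lit 1235931852938539958272)), (.ofNat (nat_lit 18446744073709551616)), (.ofNat (nat_lit 2475880078570760549798248448))⟩,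
    ⟨nat_lit 12, nat_lit 13, (.ofNat (nat_lit 67108864)), (.ofNat (nat_lit 134217728)), (.ofNat (nat_lit 67108880)), (.ofNat (nat_lit 134217712)), (.negSucc (nat_lit 1235931852938539958271)), (.negSucc (nat_lit 18446744073709551615)), (.ofNat (nat_lit 4951760157141521099596496896))⟩,
    ⟨nat_lit 14, nat_lit 13, (.ofNat (nat_lit 83886080)), (.ofNat (nat_lit 134217728)), (.ofNat (nat_lit 83886096)), (.ofNat (nat_lit 134217712)), (.ofNat (nat_lit 1235931852938539958272)), (.ofNat (nat_lit 18446744073709551616)), (.ofNat (nat_lit 0))⟩,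
    ⟨nat_lit 15, nat_lit 14, (.negSucc (nat_lit 33554431)), (.ofNat (nat_lit 83886080)), (.negSucc (nat_lit 33554415)), (.ofNat (nat_lit 83886064)), (.negSucc (nat_lit 1235931852938539958271)), (.negSucc (nat_lit 18446744073709551615)), (.ofNat (nat_lit 3094850098213450687247810560))⟩,
    ⟨nat_lit 16, nat_lit 15, (.negSucc (nat_lit 83886079)), (.negSucc (nat_lit 33554431)), (.negSucc (nat_lit 83886063)), (.negSucc (nat_lit 33554447)), (.ofNat (nat_lit 1235931852938539958272)), (.ofNat (nat_lit 18446744073709551616)), (.ofNat (nat_lit 4332790137498830962146934784))⟩,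
    ⟨nat_lit 16, nat_lit 17, (.negSucc (nat_lit 83886079)), (.negSucc (nat_lit 16777215)), (.negSucc (nat_lit 83886063)), (.negSucc (nat_lit 16777231)), (.negSucc (nat_lit 1235931852938539958271)), (.negSucc (nat_lit 18446744073709551615)), (.ofNat (nat_lit 1237940039285380274899124224))⟩,
    ⟨nat_lit 17, nat_lit 18, (.negSucc (nat_lit 16777215)), (.ofNat (nat_lit 100663296)), (.negSucc (nat_lit 16777199)), (.ofNat (nat_lit 100663280)), (.ofNat (nat_lit 1235931852938539958272)), (.ofNat (nat_lit 18446744073709551616)), (.ofNat (nat_lit 1856910058928070412348686336))⟩,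
    ⟨nat_lit 19, nat_lit 18, (.ofNat (nat_lit 67108864)), (.ofNat (nat_lit 100663296)), (.ofNat (nat_lit 67108880)), (.ofNat (nat_lit 100663280)), (.negSucc (nat_lit 1235931852938539958271)), (.negSucc (nat_lit 18446744073709551615)), (.ofNat (nat_lit 5570730176784211237046059008))⟩,
    ⟨nat_lit 20, nat_lit 19, (.negSucc (nat_lit 33554431)), (.ofNat (nat_lit 67108864)), (.negSucc (nat_lit 33554415)), (.ofNat (nat_lit 67108848)), (.ofNat (nat_lit 1235931852938539958272)), (.ofNat (nat_lit 18446744073709551616)), (.ofNat (nat_lit 3094850098213450687247810560))⟩,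
    ⟨nat_lit 21, nat_lit 20, (.negSucc (nat_lit 100663295)), (.negSucc (nat_lit 33554431)), (.negSucc (nat_lit 100663279)), (.negSucc (nat_lit 33554447)), (.negSucc (nat_lit 1235931852938539958271)), (.negSucc (nat_lit 18446744073709551615)), (.ofNat (nat_lit 1856910058928070412348686336))⟩,
    ⟨nat_lit 21, nat_lit 22, (.negSucc (nat_lit 100663295)), (.negSucc (nat_lit 33554431)), (.negSucc (nat_lit 100663279)), (.negSucc (nat_lit 33554447)), (.ofNat (nat_lit 1235931852938539958272)), (.ofNat (nat_lit 18446744073709551616)), (.ofNat (nat_lit 5570730176784211237046059008))⟩,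
    ⟨nat_lit 22, nat_lit 23, (.negSucc (nat_lit 33554431)), (.ofNat (nat_lit 83886080)), (.negSucc (nat_lit 33554415)), (.ofNat (nat_lit 83886064)), (.negSucc (nat_lit 1235931852938539958271)), (.negSucc (nat_lit 18446744073709551615)), (.ofNat (nat_lit 4332790137498830962146934784))⟩,
    ⟨nat_lit 0, nat_lit 23, (.negSucc (nat_lit 33554431)), (.ofNat (nat_lit 83886080)), (.negSucc (nat_lit 33554415)), (.ofNat (nat_lit 83886064)), (.ofNat (nat_lit 1235931852938539958272)), (.ofNat (nat_lit 18446744073709551616)), (.ofNat (nat_lit 1237940039285380274899124224))⟩,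
    ⟨nat_lit 24, nat_lit 7, (.negSucc (nat_lit 117440543)), (.negSucc (nat_lit 117440479)), (.negSucc (nat_lit 117440527)), (.negSucc (nat_lit 117440495)), (.ofNat (nat_lit 0)), (.ofNat (nat_lit 0)), (.ofNat (nat_lit 2785364498096295259817377792))⟩]

theorem ok6 : stOK 24 24 S6 = true := by decide +kernel

def S7 : SD where
  vs := [
    ⟨nat_lit 0, nat_lit 0, nat_lit 23, (.ofNat (nat_lit 8)), (.negSucc (nat_lit 34078719)), (.ofNat (nat_lit 42118975555373680446763171840)), (.negSucc (nat_lit 524287)), (.ofNat (nat_lit 647984239313441237642510336)), (.negSucc (nat_lit 34078735)), (.negSucc (nat_lit 34078703)), (.negSucc (nat_lit 1235931852938539958271)), (.ofNat (nat_lit 1235931852938539958272)), (.negSucc (nat_lit 1235931852938539958271)), (.ofNat (nat_lit 1235931852938539958272)), (.ofNat (nat_lit 0))⟩,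
    ⟨nat_lit 2, nat_lit 0, nat_lit 1, (.ofNat (nat_lit 8)), (.negSucc (nat_lit 171704319)), (.ofNat (nat_lit 212214838375152005327922135040)), (.negSucc (nat_lit 3932159)), (.ofNat (nat_lit 4859881794850809282318827520)), (.negSucc (nat_lit 171704335)), (.negSucc (nat_lit 171704303)), (.negSucc (nat_lit 1235931852938539958271)), (.ofNat (nat_lit 1235931852938539958272)), (.negSucc (nat_lit 1235931852938539958271)), (.ofNat (nat_lit 1235931852938539958272)), (.ofNat (nat_lit 0))⟩,
    ⟨nat_lit 0, nat_lit 1, nat_lit 2, (.ofNat (nat_lit 8)), (.negSucc (nat_lit 102236159)), (.ofNat (nat_lit 298072750084182969315554754560)), (.negSucc (nat_lit 1572863)), (.ofNat (nat_lit 7775810871761294851710124032)), (.negSucc (nat_lit 102236175)), (.negSucc (nat_lit 102236143)), (.ofNat (nat_lit 1235931852938539958272)), (.negSucc (nat_lit 1235931852938539958271)), (.negSucc (nat_lit 1235931852938539958271)), (.ofNat (nat_lit 1235931852938539958272)), (.ofNat (nat_lit 0))⟩,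
    ⟨nat_lit 0, nat_lit 2, nat_lit 3, (.ofNat (nat_lit 8)), (.negSucc (nat_lit 32767999)), (.ofNat (nat_lit 212214838375152005327922135040)), (.ofNat (nat_lit 786432)), (.ofNat (nat_lit 4859881794850809282318827520)), (.negSucc (nat_lit 32768015)), (.negSucc (nat_lit 32767983)), (.negSucc (nat_lit 1235931852938539958271)), (.ofNat (nat_lit 1235931852938539958272)), (.negSucc (nat_lit 1235931852938539958271)), (.ofNat (nat_lit 1235931852938539958272)), (.ofNat (nat_lit 0))⟩,
    ⟨nat_lit 1, nat_lit 3, nat_lit 4, (.ofNat (nat_lit 8)), (.ofNat (nat_lit 86507520)), (.ofNat (nat_lit 359631252818959886891593236480)), (.ofNat (nat_lit 2621440)), (.ofNat (nat_lit 7127826632447853614067613696)), (.ofNat (nat_lit 86507504)), (.ofNat (nat_lit 86507536)), (.ofNat (nat_lit 1235931852938539958272)), (.negSucc (nat_lit 1235931852938539958271)), (.negSucc (nat_lit 1235931852938539958271)), (.ofNat (nat_lit 1235931852938539958272)), (.ofNat (nat_lit 0))⟩,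
    ⟨nat_lit 0, nat_lit 5, nat_lit 4, (.ofNat (nat_lit 8)), (.ofNat (nat_lit 0)), (.ofNat (nat_lit 466548652305677691102607441920)), (.ofNat (nat_lit 0)), (.ofNat (nat_lit 10367747829015059802280165376)), (.negSucc (nat_lit 15)), (.ofNat (nat_lit 16)), (.ofNat (nat_lit 1235931852938539958272)), (.negSucc (nat_lit 1235931852938539958271)), (.negSucc (nat_lit 1235931852938539958271)), (.ofNat (nat_lit 1235931852938539958272)), (.ofNat (nat_lit 0))⟩,
    ⟨nat_lit 2, nat_lit 6, nat_lit 5, (.ofNat (nat_lit 8)), (.negSucc (nat_lit 170393599)), (.ofNat (nat_lit 255953774528809288868791582720)), (.negSucc (nat_lit 2621439)), (.ofNat (nat_lit 7127826632447853614067613696)), (.negSucc (nat_lit 170393615)), (.negSucc (nat_lit 170393583)), (.negSucc (nat_lit 1235931852938539958271)), (.ofNat (nat_lit 1235931852938539958272)), (.negSucc (nat_lit 1235931852938539958271)), (.ofNat (nat_lit 1235931852938539958272)), (.ofNat (nat_lit 0))⟩,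
    ⟨nat_lit 1, nat_lit 6, nat_lit 24, (.ofNat (nat_lit 8)), (.negSucc (nat_lit 118226943)), (.ofNat (nat_lit 191479342717121885723361804288)), (.negSucc (nat_lit 786463)), (.ofNat (nat_lit 4859921344670103315597492224)), (.negSucc (nat_lit 118226959)), (.negSucc (nat_lit 118226927)), (.negSucc (nat_lit 1235931852938539958271)), (.ofNat (nat_lit 0)), (.negSucc (nat_lit 1235931852938539958271)), (.ofNat (nat_lit 0)), (.ofNat (nat_lit 0))⟩,
    ⟨nat_lit 0, nat_lit 7, nat_lit 8, (.ofNat (nat_lit 8)), (.negSucc (nat_lit 34078719)), (.ofNat (nat_lit 298072750084182969315554754560)), (.negSucc (nat_lit 524287)), (.ofNat (nat_lit 7775810871761294851710124032)), (.negSucc (nat_lit 34078735)), (.negSucc (nat_lit 34078703)), (.ofNat (nat_lit 1235931852938539958272)), (.negSucc (nat_lit 1235931852938539958271)), (.negSucc (nat_lit 1235931852938539958271)), (.ofNat (nat_lit 1235931852938539958272)), (.ofNat (nat_lit 0))⟩,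
    ⟨nat_lit 0, nat_lit 8, nat_lit 9, (.ofNat (nat_lit 8)), (.ofNat (nat_lit 86507520)), (.ofNat (nat_lit 149036375042091484657777377280)), (.ofNat (nat_lit 2621440)), (.ofNat (nat_lit 3887905435880647425855062016)), (.ofNat (nat_lit 86507504)), (.ofNat (nat_lit 86507536)), (.negSucc (nat_lit 1235931852938539958271)), (.ofNat (nat_lit 1235931852938539958272)), (.negSucc (nat_lit 1235931852938539958271)), (.ofNat (nat_lit 1235931852938539958272)), (.ofNat (nat_lit 0))⟩,
    ⟨nat_lit 1, nat_lit 9, nat_lit 10, (.ofNat (nat_lit 8)), (.ofNat (nat_lit 154664960)), (.ofNat (nat_lit 233274326152838845551303720960)), (.ofNat (nat_lit 3670016)), (.ofNat (nat_lit 5183873914507529901140082688)), (.ofNat (nat_lit 154664944)), (.ofNat (nat_lit 154664976)), (.ofNat (nat_lit 1235931852938539958272)), (.negSucc (nat_lit 1235931852938539958271)), (.negSucc (nat_lit 1235931852938539958271)), (.ofNat (nat_lit 1235931852938539958272)), (.ofNat (nat_lit 0))⟩,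
    ⟨nat_lit 0, nat_lit 11, nat_lit 10, (.ofNat (nat_lit 8)), (.ofNat (nat_lit 103546880)), (.ofNat (nat_lit 296452789485899366221448478720)), (.ofNat (nat_lit 2883584)), (.ofNat (nat_lit 6155850273477691757603848192)), (.ofNat (nat_lit 103546864)), (.ofNat (nat_lit 103546896)), (.ofNat (nat_lit 1235931852938539958272)), (.negSucc (nat_lit 1235931852938539958271)), (.negSucc (nat_lit 1235931852938539958271)), (.ofNat (nat_lit 1235931852938539958272)), (.ofNat (nat_lit 0))⟩,
    ⟨nat_lit 2, nat_lit 12, nat_lit 11, (.ofNat (nat_lit 8)), (.ofNat (nat_lit 69468160)), (.ofNat (nat_lit 254333813930525685774685306880)), (.ofNat (nat_lit 2359296)), (.ofNat (nat_lit 5507866034164250519961337856)), (.ofNat (nat_lit 69468144)), (.ofNat (nat_lit 69468176)), (.negSucc (nat_lit 1235931852938539958271)), (.ofNat (nat_lit 1235931852938539958272)), (.negSucc (nat_lit 1235931852938539958271)), (.ofNat (nat_lit 1235931852938539958272)), (.ofNat (nat_lit 0))⟩,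
    ⟨nat_lit 1, nat_lit 13, nat_lit 12, (.ofNat (nat_lit 8)), (.ofNat (nat_lit 137625600)), (.ofNat (nat_lit 170095862819778324881158963200)), (.ofNat (nat_lit 3407872)), (.ofNat (nat_lit 4211897555537368044676317184)), (.ofNat (nat_lit 137625584)), (.ofNat (nat_lit 137625616)), (.ofNat (nat_lit 1235931852938539958272)), (.negSucc (nat_lit 1235931852938539958271)), (.negSucc (nat_lit 1235931852938539958271)), (.ofNat (nat_lit 1235931852938539958272)), (.ofNat (nat_lit 0))⟩,
    ⟨nat_lit 0, nat_lit 14, nat_lit 13, (.ofNat (nat_lit 8)), (.ofNat (nat_lit 86507520)), (.ofNat (nat_lit 106917399486717804211014205440)), (.ofNat (nat_lit 2621440)), (.ofNat (nat_lit 3239921196567206188212551680)), (.ofNat (nat_lit 86507504)), (.ofNat (nat_lit 86507536)), (.negSucc (nat_lit 1235931852938539958271)), (.ofNat (nat_lit 1235931852938539958272)), (.negSucc (nat_lit 1235931852938539958271)), (.ofNat (nat_lit 1235931852938539958272)), (.ofNat (nat_lit 0))⟩,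
    ⟨nat_lit 0, nat_lit 15, nat_lit 14, (.ofNat (nat_lit 8)), (.negSucc (nat_lit 32767999)), (.ofNat (nat_lit 254333813930525685774685306880)), (.ofNat (nat_lit 786432)), (.ofNat (nat_lit 5507866034164250519961337856)), (.negSucc (nat_lit 32768015)), (.negSucc (nat_lit 32767983)), (.ofNat (nat_lit 1235931852938539958272)), (.negSucc (nat_lit 1235931852938539958271)), (.negSucc (nat_lit 1235931852938539958271)), (.ofNat (nat_lit 1235931852938539958272)), (.ofNat (nat_lit 0))⟩,
    ⟨nat_lit 2, nat_lit 16, nat_lit 15, (.ofNat (nat_lit 8)), (.negSucc (nat_lit 83886079)), (.ofNat (nat_lit 191155350597465165104540549120)), (.ofNat (nat_lit 0)), (.ofNat (nat_lit 4535889675194088663497572352)), (.negSucc (nat_lit 83886095)), (.negSucc (nat_lit 83886063)), (.negSucc (nat_lit 1235931852938539958271)), (.ofNat (nat_lit 1235931852938539958272)), (.negSucc (nat_lit 1235931852938539958271)), (.ofNat (nat_lit 1235931852938539958272)), (.ofNat (nat_lit 0))⟩,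
    ⟨nat_lit 0, nat_lit 16, nat_lit 17, (.ofNat (nat_lit 8)), (.negSucc (nat_lit 15728639)), (.ofNat (nat_lit 106917399486717804211014205440)), (.ofNat (nat_lit 1048576)), (.ofNat (nat_lit 3239921196567206188212551680)), (.negSucc (nat_lit 15728655)), (.negSucc (nat_lit 15728623)), (.negSucc (nat_lit 1235931852938539958271)), (.ofNat (nat_lit 1235931852938539958272)), (.negSucc (nat_lit 1235931852938539958271)), (.ofNat (nat_lit 1235931852938539958272)), (.ofNat (nat_lit 0))⟩,
    ⟨nat_lit 1, nat_lit 17, nat_lit 18, (.ofNat (nat_lit 8)), (.ofNat (nat_lit 103546880)), (.ofNat (nat_lit 254333813930525685774685306880)), (.ofNat (nat_lit 2883584)), (.ofNat (nat_lit 5507866034164250519961337856)), (.ofNat (nat_lit 103546864)), (.ofNat (nat_lit 103546896)), (.ofNat (nat_lit 1235931852938539958272)), (.negSucc (nat_lit 1235931852938539958271)), (.negSucc (nat_lit 1235931852938539958271)), (.ofNat (nat_lit 1235931852938539958272)), (.ofNat (nat_lit 0))⟩,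
    ⟨nat_lit 0, nat_lit 19, nat_lit 18, (.ofNat (nat_lit 8)), (.ofNat (nat_lit 69468160)), (.ofNat (nat_lit 296452789485899366221448478720)), (.ofNat (nat_lit 2359296)), (.ofNat (nat_lit 6155850273477691757603848192)), (.ofNat (nat_lit 69468144)), (.ofNat (nat_lit 69468176)), (.ofNat (nat_lit 1235931852938539958272)), (.negSucc (nat_lit 1235931852938539958271)), (.negSucc (nat_lit 1235931852938539958271)), (.ofNat (nat_lit 1235931852938539958272)), (.ofNat (nat_lit 0))⟩,
    ⟨nat_lit 0, nat_lit 20, nat_lit 19, (.ofNat (nat_lit 8)), (.negSucc (nat_lit 32767999)), (.ofNat (nat_lit 170095862819778324881158963200)), (.ofNat (nat_lit 786432)), (.ofNat (nat_lit 4211897555537368044676317184)), (.negSucc (nat_lit 32768015)), (.negSucc (nat_lit 32767983)), (.negSucc (nat_lit 1235931852938539958271)), (.ofNat (nat_lit 1235931852938539958272)), (.negSucc (nat_lit 1235931852938539958271)), (.ofNat (nat_lit 1235931852938539958272)), (.ofNat (nat_lit 0))⟩,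
    ⟨nat_lit 2, nat_lit 20, nat_lit 21, (.ofNat (nat_lit 8)), (.negSucc (nat_lit 102236159)), (.ofNat (nat_lit 255953774528809288868791582720)), (.negSucc (nat_lit 1572863)), (.ofNat (nat_lit 7127826632447853614067613696)), (.negSucc (nat_lit 102236175)), (.negSucc (nat_lit 102236143)), (.negSucc (nat_lit 1235931852938539958271)), (.ofNat (nat_lit 1235931852938539958272)), (.negSucc (nat_lit 1235931852938539958271)), (.ofNat (nat_lit 1235931852938539958272)), (.ofNat (nat_lit 0))⟩,
    ⟨nat_lit 0, nat_lit 21, nat_lit 22, (.ofNat (nat_lit 8)), (.negSucc (nat_lit 34078719)), (.ofNat (nat_lit 340191725639556649762317926400)), (.negSucc (nat_lit 524287)), (.ofNat (nat_lit 8423795111074736089352634368)), (.negSucc (nat_lit 34078735)), (.negSucc (nat_lit 34078703)), (.ofNat (nat_lit 1235931852938539958272)), (.negSucc (nat_lit 1235931852938539958271)), (.negSucc (nat_lit 1235931852938539958271)), (.ofNat (nat_lit 1235931852938539958272)), (.ofNat (nat_lit 0))⟩,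
    ⟨nat_lit 1, nat_lit 23, nat_lit 22, (.ofNat (nat_lit 8)), (.ofNat (nat_lit 86507520)), (.ofNat (nat_lit 191155350597465165104540549120)), (.ofNat (nat_lit 2621440)), (.ofNat (nat_lit 4535889675194088663497572352)), (.ofNat (nat_lit 86507504)), (.ofNat (nat_lit 86507536)), (.ofNat (nat_lit 1235931852938539958272)), (.negSucc (nat_lit 1235931852938539958271)), (.negSucc (nat_lit 1235931852938539958271)), (.ofNat (nat_lit 1235931852938539958272)), (.ofNat (nat_lit 0))⟩,
    ⟨nat_lit 2, nat_lit 24, nat_lit 7, (.ofNat (nat_lit 8)), (.negSucc (nat_lit 120324095)), (.ofNat (nat_lit 191479342717121885723361804288)), (.negSucc (nat_lit 2883551)), (.ofNat (nat_lit 4859921344670103315597492224)), (.negSucc (nat_lit 120324111)), (.negSucc (nat_lit 120324079)), (.ofNat (nat_lit 0)), (.ofNat (nat_lit 1235931852938539958272)), (.ofNat (nat_lit 0)), (.ofNat (nat_lit 1235931852938539958272)), (.ofNat (nat_lit 0))⟩]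
  es := [
    ⟨nat_lit 1, nat_lit 0, (.negSucc (nat_lit 171704319)), (.negSucc (nat_lit 34078719)), (.negSucc (nat_lit 171704303)), (.negSucc (nat_lit 34078735)), (.negSucc (nat_lit 1235931852938539958271)), (.ofNat (nat_lit 0)), (.ofNat (nat_lit 0))⟩,
    ⟨nat_lit 1, nat_lit 2, (.negSucc (nat_lit 171704319)), (.negSucc (nat_lit 102236159)), (.negSucc (nat_lit 171704303)), (.negSucc (nat_lit 102236175)), (.ofNat (nat_lit 1235931852938539958272)), (.ofNat (nat_lit 0)), (.ofNat (nat_lit 9719763589701618564637655040))⟩,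
    ⟨nat_lit 2, nat_lit 3, (.negSucc (nat_lit 102236159)), (.negSucc (nat_lit 32767999)), (.negSucc (nat_lit 102236143)), (.negSucc (nat_lit 32768015)), (.negSucc (nat_lit 1235931852938539958271)), (.ofNat (nat_lit 0)), (.ofNat (nat_lit 5831858153820971138782593024))⟩,
    ⟨nat_lit 3, nat_lit 4, (.negSucc (nat_lit 32767999)), (.ofNat (nat_lit 86507520)), (.negSucc (nat_lit 32767983)), (.ofNat (nat_lit 86507504)), (.ofNat (nat_lit 1235931852938539958272)), (.ofNat (nat_lit 0)), (.ofNat (nat_lit 3887905435880647425855062016))⟩,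
    ⟨nat_lit 5, nat_lit 4, (.ofNat (nat_lit 0)), (.ofNat (nat_lit 86507520)), (.ofNat (nat_lit 16)), (.ofNat (nat_lit 86507504)), (.negSucc (nat_lit 1235931852938539958271)), (.ofNat (nat_lit 0)), (.ofNat (nat_lit 10367747829015059802280165376))⟩,
    ⟨nat_lit 6, nat_lit 5, (.negSucc (nat_lit 170393599)), (.ofNat (nat_lit 0)), (.negSucc (nat_lit 170393583)), (.negSucc (nat_lit 15)), (.ofNat (nat_lit 1235931852938539958272)), (.ofNat (nat_lit 0)), (.ofNat (nat_lit 10367747829015059802280165376))⟩,
    ⟨nat_lit 6, nat_lit 7, (.negSucc (nat_lit 170393599)), (.negSucc (nat_lit 118226943)), (.negSucc (nat_lit 170393583)), (.negSucc (nat_lit 118226959)), (.negSucc (nat_lit 1235931852938539958271)), (.ofNat (nat_lit 0)), (.ofNat (nat_lit 3887905435880647425855062016))⟩,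
    ⟨nat_lit 24, nat_lit 8, (.negSucc (nat_lit 120324095)), (.negSucc (nat_lit 34078719)), (.negSucc (nat_lit 120324079)), (.negSucc (nat_lit 34078735)), (.ofNat (nat_lit 1235931852938539958272)), (.ofNat (nat_lit 0)), (.ofNat (nat_lit 8423795111074736089352634368))⟩,
    ⟨nat_lit 8, nat_lit 9, (.negSucc (nat_lit 34078719)), (.ofNat (nat_lit 86507520)), (.negSucc (nat_lit 34078703)), (.ofNat (nat_lit 86507504)), (.negSucc (nat_lit 1235931852938539958271)), (.ofNat (nat_lit 0)), (.ofNat (nat_lit 7127826632447853614067613696))⟩,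
    ⟨nat_lit 9, nat_lit 10, (.ofNat (nat_lit 86507520)), (.ofNat (nat_lit 154664960)), (.ofNat (nat_lit 86507536)), (.ofNat (nat_lit 154664944)), (.ofNat (nat_lit 1235931852938539958272)), (.ofNat (nat_lit 0)), (.ofNat (nat_lit 647984239313441237642510336))⟩,
    ⟨nat_lit 11, nat_lit 10, (.ofNat (nat_lit 103546880)), (.ofNat (nat_lit 154664960)), (.ofNat (nat_lit 103546896)), (.ofNat (nat_lit 154664944)), (.negSucc (nat_lit 1235931852938539958271)), (.ofNat (nat_lit 0)), (.ofNat (nat_lit 9719763589701618564637655040))⟩,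
    ⟨nat_lit 12, nat_lit 11, (.ofNat (nat_lit 69468160)), (.ofNat (nat_lit 103546880)), (.ofNat (nat_lit 69468176)), (.ofNat (nat_lit 103546864)), (.ofNat (nat_lit 1235931852938539958272)), (.ofNat (nat_lit 0)), (.ofNat (nat_lit 2591936957253764950570041344))⟩,
    ⟨nat_lit 12, nat_lit 13, (.ofNat (nat_lit 69468160)), (.ofNat (nat_lit 137625600)), (.ofNat (nat_lit 69468176)), (.ofNat (nat_lit 137625584)), (.negSucc (nat_lit 1235931852938539958271)), (.ofNat (nat_lit 0)), (.ofNat (nat_lit 8423795111074736089352634368))⟩,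
    ⟨nat_lit 14, nat_lit 13, (.ofNat (nat_lit 86507520)), (.ofNat (nat_lit 137625600)), (.ofNat (nat_lit 86507536)), (.ofNat (nat_lit 137625584)), (.ofNat (nat_lit 1235931852938539958272)), (.ofNat (nat_lit 0)), (.ofNat (nat_lit 0))⟩,
    ⟨nat_lit 15, nat_lit 14, (.negSucc (nat_lit 32767999)), (.ofNat (nat_lit 86507520)), (.negSucc (nat_lit 32767983)), (.ofNat (nat_lit 86507504)), (.negSucc (nat_lit 1235931852938539958271)), (.ofNat (nat_lit 0)), (.ofNat (nat_lit 6479842393134412376425103360))⟩,
    ⟨nat_lit 16, nat_lit 15, (.negSucc (nat_lit 83886079)), (.negSucc (nat_lit 32767999)), (.negSucc (nat_lit 83886063)), (.negSucc (nat_lit 32768015)), (.ofNat (nat_lit 1235931852938539958272)), (.ofNat (nat_lit 0)), (.ofNat (nat_lit 4535889675194088663497572352))⟩,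
    ⟨nat_lit 16, nat_lit 17, (.negSucc (nat_lit 83886079)), (.negSucc (nat_lit 15728639)), (.negSucc (nat_lit 83886063)), (.negSucc (nat_lit 15728655)), (.negSucc (nat_lit 1235931852938539958271)), (.ofNat (nat_lit 0)), (.ofNat (nat_lit 4535889675194088663497572352))⟩,
    ⟨nat_lit 17, nat_lit 18, (.negSucc (nat_lit 15728639)), (.ofNat (nat_lit 103546880)), (.negSucc (nat_lit 15728623)), (.ofNat (nat_lit 103546864)), (.ofNat (nat_lit 1235931852938539958272)), (.ofNat (nat_lit 0)), (.ofNat (nat_lit 1943952717940323712927531008))⟩,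
    ⟨nat_lit 19, nat_lit 18, (.ofNat (nat_lit 69468160)), (.ofNat (nat_lit 103546880)), (.ofNat (nat_lit 69468176)), (.ofNat (nat_lit 103546864)), (.negSucc (nat_lit 1235931852938539958271)), (.ofNat (nat_lit 0)), (.ofNat (nat_lit 9071779350388177326995144704))⟩,
    ⟨nat_lit 20, nat_lit 19, (.negSucc (nat_lit 32767999)), (.ofNat (nat_lit 69468160)), (.negSucc (nat_lit 32767983)), (.ofNat (nat_lit 69468144)), (.ofNat (nat_lit 1235931852938539958272)), (.ofNat (nat_lit 0)), (.ofNat (nat_lit 3239921196567206188212551680))⟩,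
    ⟨nat_lit 21, nat_lit 20, (.negSucc (nat_lit 102236159)), (.negSucc (nat_lit 32767999)), (.negSucc (nat_lit 102236143)), (.negSucc (nat_lit 32768015)), (.negSucc (nat_lit 1235931852938539958271)), (.ofNat (nat_lit 0)), (.ofNat (nat_lit 5183873914507529901140082688))⟩,
    ⟨nat_lit 21, nat_lit 22, (.negSucc (nat_lit 102236159)), (.negSucc (nat_lit 34078719)), (.negSucc (nat_lit 102236143)), (.negSucc (nat_lit 34078735)), (.ofNat (nat_lit 1235931852938539958272)), (.ofNat (nat_lit 0)), (.ofNat (nat_lit 9071779350388177326995144704))⟩,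
    ⟨nat_lit 22, nat_lit 23, (.negSucc (nat_lit 34078719)), (.ofNat (nat_lit 86507520)), (.negSucc (nat_lit 34078703)), (.ofNat (nat_lit 86507504)), (.negSucc (nat_lit 1235931852938539958271)), (.ofNat (nat_lit 0)), (.ofNat (nat_lit 7775810871761294851710124032))⟩,
    ⟨nat_lit 0, nat_lit 23, (.negSucc (nat_lit 34078719)), (.ofNat (nat_lit 86507520)), (.negSucc (nat_lit 34078703)), (.ofNat (nat_lit 86507504)), (.ofNat (nat_lit 1235931852938539958272)), (.ofNat (nat_lit 0)), (.ofNat (nat_lit 1295968478626882475285020672))⟩,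
    ⟨nat_lit 24, nat_lit 7, (.negSucc (nat_lit 120324095)), (.negSucc (nat_lit 118226943)), (.negSucc (nat_lit 120324079)), (.negSucc (nat_lit 118226959)), (.ofNat (nat_lit 0)), (.ofNat (nat_lit 0)), (.ofNat (nat_lit 4859921344670103315597492224))⟩]

theorem ok7 : stOK 24 24 S7 = true := by decide +kernel

def S8 : SD where
  vs := [
    ⟨nat_lit 0, nat_lit 0, nat_lit 23, (.ofNat (nat_lit 8)), (.negSucc (nat_lit 34078719)), (.ofNat (nat_lit 42118975555373680446763171840)), (.negSucc (nat_lit 524287)), (.ofNat (nat_lit 647984239313441237642510336)), (.negSucc (nat_lit 34078735)), (.negSucc (nat_lit 34078703)), (.negSucc (nat_lit 1235931852938539958271)), (.ofNat (nat_lit 1235931852938539958272)), (.negSucc (nat_lit 1235931852938539958271)), (.ofNat (nat_lit 1235931852938539958272)), (.ofNat (nat_lit 0))⟩,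
    ⟨nat_lit 2, nat_lit 0, nat_lit 1, (.ofNat (nat_lit 8)), (.negSucc (nat_lit 171704319)), (.ofNat (nat_lit 212214838375152005327922135040)), (.negSucc (nat_lit 3932159)), (.ofNat (nat_lit 4859881794850809282318827520)), (.negSucc (nat_lit 171704335)), (.negSucc (nat_lit 171704303)), (.negSucc (nat_lit 1235931852938539958271)), (.ofNat (nat_lit 1235931852938539958272)), (.negSucc (nat_lit 1235931852938539958271)), (.ofNat (nat_lit 1235931852938539958272)), (.ofNat (nat_lit 0))⟩,
    ⟨nat_lit 0, nat_lit 1, nat_lit 2, (.ofNat (nat_lit 8)), (.negSucc (nat_lit 102236159)), (.ofNat (nat_lit 298072750084182969315554754560)), (.negSucc (nat_lit 1572863)), (.ofNat (nat_lit 7775810871761294851710124032)), (.negSucc (nat_lit 102236175)), (.negSucc (nat_lit 102236143)), (.ofNat (nat_lit 1235931852938539958272)), (.negSucc (nat_lit 1235931852938539958271)), (.negSucc (nat_lit 1235931852938539958271)), (.ofNat (nat_lit 1235931852938539958272)), (.ofNat (nat_lit 0))⟩,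
    ⟨nat_lit 0, nat_lit 2, nat_lit 3, (.ofNat (nat_lit 8)), (.negSucc (nat_lit 32767999)), (.ofNat (nat_lit 212214838375152005327922135040)), (.ofNat (nat_lit 786432)), (.ofNat (nat_lit 4859881794850809282318827520)), (.negSucc (nat_lit 32768015)), (.negSucc (nat_lit 32767983)), (.negSucc (nat_lit 1235931852938539958271)), (.ofNat (nat_lit 1235931852938539958272)), (.negSucc (nat_lit 1235931852938539958271)), (.ofNat (nat_lit 1235931852938539958272)), (.ofNat (nat_lit 0))⟩,
    ⟨nat_lit 1, nat_lit 3, nat_lit 4, (.ofNat (nat_lit 8)), (.ofNat (nat_lit 86507520)), (.ofNat (nat_lit 359631252818959886891593236480)), (.ofNat (nat_lit 2621440)), (.ofNat (nat_lit 7127826632447853614067613696)), (.ofNat (nat_lit 86507504)), (.ofNat (nat_lit 86507536)), (.ofNat (nat_lit 1235931852938539958272)), (.negSucc (nat_lit 1235931852938539958271)), (.negSucc (nat_lit 1235931852938539958271)), (.ofNat (nat_lit 1235931852938539958272)), (.ofNat (nat_lit 0))⟩,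
    ⟨nat_lit 0, nat_lit 5, nat_lit 4, (.ofNat (nat_lit 8)), (.ofNat (nat_lit 0)), (.ofNat (nat_lit 466548652305677691102607441920)), (.ofNat (nat_lit 0)), (.ofNat (nat_lit 10367747829015059802280165376)), (.negSucc (nat_lit 15)), (.ofNat (nat_lit 16)), (.ofNat (nat_lit 1235931852938539958272)), (.negSucc (nat_lit 1235931852938539958271)), (.negSucc (nat_lit 1235931852938539958271)), (.ofNat (nat_lit 1235931852938539958272)), (.ofNat (nat_lit 0))⟩,
    ⟨nat_lit 2, nat_lit 6, nat_lit 5, (.ofNat (nat_lit 8)), (.negSucc (nat_lit 170393599)), (.ofNat (nat_lit 255953774528809288868791582720)), (.negSucc (nat_lit 2621439)), (.ofNat (nat_lit 7127826632447853614067613696)), (.negSucc (nat_lit 170393615)), (.negSucc (nat_lit 170393583)), (.negSucc (nat_lit 1235931852938539958271)), (.ofNat (nat_lit 1235931852938539958272)), (.negSucc (nat_lit 1235931852938539958271)), (.ofNat (nat_lit 1235931852938539958272)), (.ofNat (nat_lit 0))⟩,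
    ⟨nat_lit 1, nat_lit 6, nat_lit 25, (.ofNat (nat_lit 8)), (.negSucc (nat_lit 118226943)), (.ofNat (nat_lit 191479342717121885723361804288)), (.negSucc (nat_lit 786463)), (.ofNat (nat_lit 4859921344670103315597492224)), (.negSucc (nat_lit 118226959)), (.negSucc (nat_lit 118226927)), (.negSucc (nat_lit 1235931852938539958271)), (.ofNat (nat_lit 0)), (.negSucc (nat_lit 1235931852938539958271)), (.ofNat (nat_lit 0)), (.ofNat (nat_lit 0))⟩,
    ⟨nat_lit 0, nat_lit 7, nat_lit 8, (.ofNat (nat_lit 8)), (.negSucc (nat_lit 34078719)), (.ofNat (nat_lit 298072750084182969315554754560)), (.negSucc (nat_lit 524287)), (.ofNat (nat_lit 7775810871761294851710124032)), (.negSucc (nat_lit 34078735)), (.negSucc (nat_lit 34078703)), (.ofNat (nat_lit 1235931852938539958272)), (.negSucc (nat_lit 1235931852938539958271)), (.negSucc (nat_lit 1235931852938539958271)), (.ofNat (nat_lit 1235931852938539958272)), (.ofNat (nat_lit 0))⟩,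
    ⟨nat_lit 0, nat_lit 8, nat_lit 9, (.ofNat (nat_lit 8)), (.ofNat (nat_lit 86507520)), (.ofNat (nat_lit 149036375042091484657777377280)), (.ofNat (nat_lit 2621440)), (.ofNat (nat_lit 3887905435880647425855062016)), (.ofNat (nat_lit 86507504)), (.ofNat (nat_lit 86507536)), (.negSucc (nat_lit 1235931852938539958271)), (.ofNat (nat_lit 1235931852938539958272)), (.negSucc (nat_lit 1235931852938539958271)), (.ofNat (nat_lit 1235931852938539958272)), (.ofNat (nat_lit 0))⟩,
    ⟨nat_lit 1, nat_lit 9, nat_lit 10, (.ofNat (nat_lit 8)), (.ofNat (nat_lit 154664960)), (.ofNat (nat_lit 233274326152838845551303720960)), (.ofNat (nat_lit 3670016)), (.ofNat (nat_lit 5183873914507529901140082688)), (.ofNat (nat_lit 154664944)), (.ofNat (nat_lit 154664976)), (.ofNat (nat_lit 1235931852938539958272)), (.negSucc (nat_lit 1235931852938539958271)), (.negSucc (nat_lit 1235931852938539958271)), (.ofNat (nat_lit 1235931852938539958272)), (.ofNat (nat_lit 0))⟩,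
    ⟨nat_lit 0, nat_lit 11, nat_lit 10, (.ofNat (nat_lit 8)), (.ofNat (nat_lit 103546880)), (.ofNat (nat_lit 296452789485899366221448478720)), (.ofNat (nat_lit 2883584)), (.ofNat (nat_lit 6155850273477691757603848192)), (.ofNat (nat_lit 103546864)), (.ofNat (nat_lit 103546896)), (.ofNat (nat_lit 1235931852938539958272)), (.negSucc (nat_lit 1235931852938539958271)), (.negSucc (nat_lit 1235931852938539958271)), (.ofNat (nat_lit 1235931852938539958272)), (.ofNat (nat_lit 0))⟩,
    ⟨nat_lit 2, nat_lit 12, nat_lit 11, (.ofNat (nat_lit 8)), (.ofNat (nat_lit 69468160)), (.ofNat (nat_lit 254333813930525685774685306880)), (.ofNat (nat_lit 2359296)), (.ofNat (nat_lit 5507866034164250519961337856)), (.ofNat (nat_lit 69468144)), (.ofNat (nat_lit 69468176)), (.negSucc (nat_lit 1235931852938539958271)), (.ofNat (nat_lit 1235931852938539958272)), (.negSucc (nat_lit 1235931852938539958271)), (.ofNat (nat_lit 1235931852938539958272)), (.ofNat (nat_lit 0))⟩,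
    ⟨nat_lit 1, nat_lit 13, nat_lit 12, (.ofNat (nat_lit 8)), (.ofNat (nat_lit 137625600)), (.ofNat (nat_lit 170095862819778324881158963200)), (.ofNat (nat_lit 3407872)), (.ofNat (nat_lit 4211897555537368044676317184)), (.ofNat (nat_lit 137625584)), (.ofNat (nat_lit 137625616)), (.ofNat (nat_lit 1235931852938539958272)), (.negSucc (nat_lit 1235931852938539958271)), (.negSucc (nat_lit 1235931852938539958271)), (.ofNat (nat_lit 1235931852938539958272)), (.ofNat (nat_lit 0))⟩,
    ⟨nat_lit 0, nat_lit 14, nat_lit 13, (.ofNat (nat_lit 8)), (.ofNat (nat_lit 86507520)), (.ofNat (nat_lit 106917399486717804211014205440)), (.ofNat (nat_lit 2621440)), (.ofNat (nat_lit 3239921196567206188212551680)), (.ofNat (nat_lit 86507504)), (.ofNat (nat_lit 86507536)), (.negSucc (nat_lit 1235931852938539958271)), (.ofNat (nat_lit 1235931852938539958272)), (.negSucc (nat_lit 1235931852938539958271)), (.ofNat (nat_lit 1235931852938539958272)), (.ofNat (nat_lit 0))⟩,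
    ⟨nat_lit 0, nat_lit 15, nat_lit 14, (.ofNat (nat_lit 8)), (.negSucc (nat_lit 32767999)), (.ofNat (nat_lit 254333813930525685774685306880)), (.ofNat (nat_lit 786432)), (.ofNat (nat_lit 5507866034164250519961337856)), (.negSucc (nat_lit 32768015)), (.negSucc (nat_lit 32767983)), (.ofNat (nat_lit 1235931852938539958272)), (.negSucc (nat_lit 1235931852938539958271)), (.negSucc (nat_lit 1235931852938539958271)), (.ofNat (nat_lit 1235931852938539958272)), (.ofNat (nat_lit 0))⟩,
    ⟨nat_lit 2, nat_lit 16, nat_lit 15, (.ofNat (nat_lit 8)), (.negSucc (nat_lit 83886079)), (.ofNat (nat_lit 191155350597465165104540549120)), (.ofNat (nat_lit 0)), (.ofNat (nat_lit 4535889675194088663497572352)), (.negSucc (nat_lit 83886095)), (.negSucc (nat_lit 83886063)), (.negSucc (nat_lit 1235931852938539958271)), (.ofNat (nat_lit 1235931852938539958272)), (.negSucc (nat_lit 1235931852938539958271)), (.ofNat (nat_lit 1235931852938539958272)), (.ofNat (nat_lit 0))⟩,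
    ⟨nat_lit 0, nat_lit 16, nat_lit 17, (.ofNat (nat_lit 8)), (.negSucc (nat_lit 15728639)), (.ofNat (nat_lit 106917399486717804211014205440)), (.ofNat (nat_lit 1048576)), (.ofNat (nat_lit 3239921196567206188212551680)), (.negSucc (nat_lit 15728655)), (.negSucc (nat_lit 15728623)), (.negSucc (nat_lit 1235931852938539958271)), (.ofNat (nat_lit 1235931852938539958272)), (.negSucc (nat_lit 1235931852938539958271)), (.ofNat (nat_lit 1235931852938539958272)), (.ofNat (nat_lit 0))⟩,
    ⟨nat_lit 1, nat_lit 17, nat_lit 18, (.ofNat (nat_lit 8)), (.ofNat (nat_lit 103546880)), (.ofNat (nat_lit 254333813930525685774685306880)), (.ofNat (nat_lit 2883584)), (.ofNat (nat_lit 5507866034164250519961337856)), (.ofNat (nat_lit 103546864)), (.ofNat (nat_lit 103546896)), (.ofNat (nat_lit 1235931852938539958272)), (.negSucc (nat_lit 1235931852938539958271)), (.negSucc (nat_lit 1235931852938539958271)), (.ofNat (nat_lit 1235931852938539958272)), (.ofNat (nat_lit 0))⟩,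
    ⟨nat_lit 0, nat_lit 19, nat_lit 18, (.ofNat (nat_lit 8)), (.ofNat (nat_lit 69468160)), (.ofNat (nat_lit 296452789485899366221448478720)), (.ofNat (nat_lit 2359296)), (.ofNat (nat_lit 6155850273477691757603848192)), (.ofNat (nat_lit 69468144)), (.ofNat (nat_lit 69468176)), (.ofNat (nat_lit 1235931852938539958272)), (.negSucc (nat_lit 1235931852938539958271)), (.negSucc (nat_lit 1235931852938539958271)), (.ofNat (nat_lit 1235931852938539958272)), (.ofNat (nat_lit 0))⟩,
    ⟨nat_lit 0, nat_lit 20, nat_lit 19, (.ofNat (nat_lit 8)), (.negSucc (nat_lit 32767999)), (.ofNat (nat_lit 170095862819778324881158963200)), (.ofNat (nat_lit 786432)), (.ofNat (nat_lit 4211897555537368044676317184)), (.negSucc (nat_lit 32768015)), (.negSucc (nat_lit 32767983)), (.negSucc (nat_lit 1235931852938539958271)), (.ofNat (nat_lit 1235931852938539958272)), (.negSucc (nat_lit 1235931852938539958271)), (.ofNat (nat_lit 1235931852938539958272)), (.ofNat (nat_lit 0))⟩,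
    ⟨nat_lit 2, nat_lit 20, nat_lit 21, (.ofNat (nat_lit 8)), (.negSucc (nat_lit 102236159)), (.ofNat (nat_lit 255953774528809288868791582720)), (.negSucc (nat_lit 1572863)), (.ofNat (nat_lit 7127826632447853614067613696)), (.negSucc (nat_lit 102236175)), (.negSucc (nat_lit 102236143)), (.negSucc (nat_lit 1235931852938539958271)), (.ofNat (nat_lit 1235931852938539958272)), (.negSucc (nat_lit 1235931852938539958271)), (.ofNat (nat_lit 1235931852938539958272)), (.ofNat (nat_lit 0))⟩,
    ⟨nat_lit 0, nat_lit 21, nat_lit 22, (.ofNat (nat_lit 8)), (.negSucc (nat_lit 34078719)), (.ofNat (nat_lit 340191725639556649762317926400)), (.negSucc (nat_lit 524287)), (.ofNat (nat_lit 8423795111074736089352634368)), (.negSucc (nat_lit 34078735)), (.negSucc (nat_lit 34078703)), (.ofNat (nat_lit 1235931852938539958272)), (.negSucc (nat_lit 1235931852938539958271)), (.negSucc (nat_lit 1235931852938539958271)), (.ofNat (nat_lit 1235931852938539958272)), (.ofNat (nat_lit 0))⟩,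
    ⟨nat_lit 1, nat_lit 23, nat_lit 22, (.ofNat (nat_lit 8)), (.ofNat (nat_lit 86507520)), (.ofNat (nat_lit 191155350597465165104540549120)), (.ofNat (nat_lit 2621440)), (.ofNat (nat_lit 4535889675194088663497572352)), (.ofNat (nat_lit 86507504)), (.ofNat (nat_lit 86507536)), (.ofNat (nat_lit 1235931852938539958272)), (.negSucc (nat_lit 1235931852938539958271)), (.negSucc (nat_lit 1235931852938539958271)), (.ofNat (nat_lit 1235931852938539958272)), (.ofNat (nat_lit 0))⟩,
    ⟨nat_lit 2, nat_lit 24, nat_lit 7, (.ofNat (nat_lit 8)), (.negSucc (nat_lit 120324095)), (.ofNat (nat_lit 191479342717121885723361804288)), (.negSucc (nat_lit 2883551)), (.ofNat (nat_lit 4859921344670103315597492224)), (.negSucc (nat_lit 120324111)), (.negSucc (nat_lit 120324079)), (.ofNat (nat_lit 0)), (.ofNat (nat_lit 1235931852938539958272)), (.ofNat (nat_lit 0)), (.ofNat (nat_lit 1235931852938539958272)), (.ofNat (nat_lit 0))⟩,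
    ⟨nat_lit 0, nat_lit 24, nat_lit 25, (.ofNat (nat_lit 8)), (.negSucc (nat_lit 119275519)), (.ofNat (nat_lit 191479342717121885723361804288)), (.ofNat (nat_lit 0)), (.ofNat (nat_lit 4859921344670103315597492224)), (.negSucc (nat_lit 119275535)), (.negSucc (nat_lit 119275503)), (.ofNat (nat_lit 0)), (.ofNat (nat_lit 0)), (.ofNat (nat_lit 0)), (.ofNat (nat_lit 0)), (.ofNat (nat_lit 0))⟩]
  es := [
    ⟨nat_lit 1, nat_lit 0, (.negSucc (nat_lit 171704319)), (.negSucc (nat_lit 34078719)), (.negSucc (nat_lit 171704303)), (.negSucc (nat_lit 34078735)), (.negSucc (nat_lit 1235931852938539958271)), (.ofNat (nat_lit 0)), (.ofNat (nat_lit 0))⟩,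
    ⟨nat_lit 1, nat_lit 2, (.negSucc (nat_lit 171704319)), (.negSucc (nat_lit 102236159)), (.negSucc (nat_lit 171704303)), (.negSucc (nat_lit 102236175)), (.ofNat (nat_lit 1235931852938539958272)), (.ofNat (nat_lit 0)), (.ofNat (nat_lit 9719763589701618564637655040))⟩,
    ⟨nat_lit 2, nat_lit 3, (.negSucc (nat_lit 102236159)), (.negSucc (nat_lit 32767999)), (.negSucc (nat_lit 102236143)), (.negSucc (nat_lit 32768015)), (.negSucc (nat_lit 1235931852938539958271)), (.ofNat (nat_lit 0)), (.ofNat (nat_lit 5831858153820971138782593024))⟩,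
    ⟨nat_lit 3, nat_lit 4, (.negSucc (nat_lit 32767999)), (.ofNat (nat_lit 86507520)), (.negSucc (nat_lit 32767983)), (.ofNat (nat_lit 86507504)), (.ofNat (nat_lit 1235931852938539958272)), (.ofNat (nat_lit 0)), (.ofNat (nat_lit 3887905435880647425855062016))⟩,
    ⟨nat_lit 5, nat_lit 4, (.ofNat (nat_lit 0)), (.ofNat (nat_lit 86507520)), (.ofNat (nat_lit 16)), (.ofNat (nat_lit 86507504)), (.negSucc (nat_lit 1235931852938539958271)), (.ofNat (nat_lit 0)), (.ofNat (nat_lit 10367747829015059802280165376))⟩,
    ⟨nat_lit 6, nat_lit 5, (.negSucc (nat_lit 170393599)), (.ofNat (nat_lit 0)), (.negSucc (nat_lit 170393583)), (.negSucc (nat_lit 15)), (.ofNat (nat_lit 1235931852938539958272)), (.ofNat (nat_lit 0)), (.ofNat (nat_lit 10367747829015059802280165376))⟩,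
    ⟨nat_lit 6, nat_lit 7, (.negSucc (nat_lit 170393599)), (.negSucc (nat_lit 118226943)), (.negSucc (nat_lit 170393583)), (.negSucc (nat_lit 118226959)), (.negSucc (nat_lit 1235931852938539958271)), (.ofNat (nat_lit 0)), (.ofNat (nat_lit 3887905435880647425855062016))⟩,
    ⟨nat_lit 24, nat_lit 8, (.negSucc (nat_lit 120324095)), (.negSucc (nat_lit 34078719)), (.negSucc (nat_lit 120324079)), (.negSucc (nat_lit 34078735)), (.ofNat (nat_lit 1235931852938539958272)), (.ofNat (nat_lit 0)), (.ofNat (nat_lit 8423795111074736089352634368))⟩,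
    ⟨nat_lit 8, nat_lit 9, (.negSucc (nat_lit 34078719)), (.ofNat (nat_lit 86507520)), (.negSucc (nat_lit 34078703)), (.ofNat (nat_lit 86507504)), (.negSucc (nat_lit 1235931852938539958271)), (.ofNat (nat_lit 0)), (.ofNat (nat_lit 7127826632447853614067613696))⟩,
    ⟨nat_lit 9, nat_lit 10, (.ofNat (nat_lit 86507520)), (.ofNat (nat_lit 154664960)), (.ofNat (nat_lit 86507536)), (.ofNat (nat_lit 154664944)), (.ofNat (nat_lit 1235931852938539958272)), (.ofNat (nat_lit 0)), (.ofNat (nat_lit 647984239313441237642510336))⟩,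
    ⟨nat_lit 11, nat_lit 10, (.ofNat (nat_lit 103546880)), (.ofNat (nat_lit 154664960)), (.ofNat (nat_lit 103546896)), (.ofNat (nat_lit 154664944)), (.negSucc (nat_lit 1235931852938539958271)), (.ofNat (nat_lit 0)), (.ofNat (nat_lit 9719763589701618564637655040))⟩,
    ⟨nat_lit 12, nat_lit 11, (.ofNat (nat_lit 69468160)), (.ofNat (nat_lit 103546880)), (.ofNat (nat_lit 69468176)), (.ofNat (nat_lit 103546864)), (.ofNat (nat_lit 1235931852938539958272)), (.ofNat (nat_lit 0)), (.ofNat (nat_lit 2591936957253764950570041344))⟩,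
    ⟨nat_lit 12, nat_lit 13, (.ofNat (nat_lit 69468160)), (.ofNat (nat_lit 137625600)), (.ofNat (nat_lit 69468176)), (.ofNat (nat_lit 137625584)), (.negSucc (nat_lit 1235931852938539958271)), (.ofNat (nat_lit 0)), (.ofNat (nat_lit 8423795111074736089352634368))⟩,
    ⟨nat_lit 14, nat_lit 13, (.ofNat (nat_lit 86507520)), (.ofNat (nat_lit 137625600)), (.ofNat (nat_lit 86507536)), (.ofNat (nat_lit 137625584)), (.ofNat (nat_lit 1235931852938539958272)), (.ofNat (nat_lit 0)), (.ofNat (nat_lit 0))⟩,
    ⟨nat_lit 15, nat_lit 14, (.negSucc (nat_lit 32767999)), (.ofNat (nat_lit 86507520)), (.negSucc (nat_lit 32767983)), (.ofNat (nat_lit 86507504)), (.negSucc (nat_lit 1235931852938539958271)), (.ofNat (nat_lit 0)), (.ofNat (nat_lit 6479842393134412376425103360))⟩,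
    ⟨nat_lit 16, nat_lit 15, (.negSucc (nat_lit 83886079)), (.negSucc (nat_lit 32767999)), (.negSucc (nat_lit 83886063)), (.negSucc (nat_lit 32768015)), (.ofNat (nat_lit 1235931852938539958272)), (.ofNat (nat_lit 0)), (.ofNat (nat_lit 4535889675194088663497572352))⟩,
    ⟨nat_lit 16, nat_lit 17, (.negSucc (nat_lit 83886079)), (.negSucc (nat_lit 15728639)), (.negSucc (nat_lit 83886063)), (.negSucc (nat_lit 15728655)), (.negSucc (nat_lit 1235931852938539958271)), (.ofNat (nat_lit 0)), (.ofNat (nat_lit 4535889675194088663497572352))⟩,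
    ⟨nat_lit 17, nat_lit 18, (.negSucc (nat_lit 15728639)), (.ofNat (nat_lit 103546880)), (.negSucc (nat_lit 15728623)), (.ofNat (nat_lit 103546864)), (.ofNat (nat_lit 1235931852938539958272)), (.ofNat (nat_lit 0)), (.ofNat (nat_lit 1943952717940323712927531008))⟩,
    ⟨nat_lit 19, nat_lit 18, (.ofNat (nat_lit 69468160)), (.ofNat (nat_lit 103546880)), (.ofNat (nat_lit 69468176)), (.ofNat (nat_lit 103546864)), (.negSucc (nat_lit 1235931852938539958271)), (.ofNat (nat_lit 0)), (.ofNat (nat_lit 9071779350388177326995144704))⟩,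
    ⟨nat_lit 20, nat_lit 19, (.negSucc (nat_lit 32767999)), (.ofNat (nat_lit 69468160)), (.negSucc (nat_lit 32767983)), (.ofNat (nat_lit 69468144)), (.ofNat (nat_lit 1235931852938539958272)), (.ofNat (nat_lit 0)), (.ofNat (nat_lit 3239921196567206188212551680))⟩,
    ⟨nat_lit 21, nat_lit 20, (.negSucc (nat_lit 102236159)), (.negSucc (nat_lit 32767999)), (.negSucc (nat_lit 102236143)), (.negSucc (nat_lit 32768015)), (.negSucc (nat_lit 1235931852938539958271)), (.ofNat (nat_lit 0)), (.ofNat (nat_lit 5183873914507529901140082688))⟩,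
    ⟨nat_lit 21, nat_lit 22, (.negSucc (nat_lit 102236159)), (.negSucc (nat_lit 34078719)), (.negSucc (nat_lit 102236143)), (.negSucc (nat_lit 34078735)), (.ofNat (nat_lit 1235931852938539958272)), (.ofNat (nat_lit 0)), (.ofNat (nat_lit 9071779350388177326995144704))⟩,
    ⟨nat_lit 22, nat_lit 23, (.negSucc (nat_lit 34078719)), (.ofNat (nat_lit 86507520)), (.negSucc (nat_lit 34078703)), (.ofNat (nat_lit 86507504)), (.negSucc (nat_lit 1235931852938539958271)), (.ofNat (nat_lit 0)), (.ofNat (nat_lit 7775810871761294851710124032))⟩,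
    ⟨nat_lit 0, nat_lit 23, (.negSucc (nat_lit 34078719)), (.ofNat (nat_lit 86507520)), (.negSucc (nat_lit 34078703)), (.ofNat (nat_lit 86507504)), (.ofNat (nat_lit 1235931852938539958272)), (.ofNat (nat_lit 0)), (.ofNat (nat_lit 1295968478626882475285020672))⟩,
    ⟨nat_lit 24, nat_lit 25, (.negSucc (nat_lit 120324095)), (.negSucc (nat_lit 119275519)), (.negSucc (nat_lit 120324079)), (.negSucc (nat_lit 119275535)), (.ofNat (nat_lit 0)), (.ofNat (nat_lit 0)), (.ofNat (nat_lit 4859921344670103315597492224))⟩,
    ⟨nat_lit 25, nat_lit 7, (.negSucc (nat_lit 119275519)), (.negSucc (nat_lit 118226943)), (.negSucc (nat_lit 119275503)), (.negSucc (nat_lit 118226959)), (.ofNat (nat_lit 0)), (.ofNat (nat_lit 0)), (.ofNat (nat_lit 4859921344670103315597492224))⟩]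

theorem ok8 : stOK 25 25 S8 = true := by decide +kernel

def S9 : SD where
  vs := [
    ⟨nat_lit 0, nat_lit 0, nat_lit 23, (.ofNat (nat_lit 8)), (.negSucc (nat_lit 34078719)), (.ofNat (nat_lit 84237951110747360893526343680)), (.ofNat (nat_lit 0)), (.ofNat (nat_lit 42118975555373680446763171840)), (.negSucc (nat_lit 34078735)), (.negSucc (nat_lit 34078703)), (.negSucc (nat_lit 2471863705877079916543)), (.ofNat (nat_lit 2471863705877079916544)), (.negSucc (nat_lit 2471863705877079916543)), (.ofNat (nat_lit 2471863705877079916544)), (.ofNat (nat_lit 7415591117631239749632))⟩,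
    ⟨nat_lit 2, nat_lit 0, nat_lit 1, (.ofNat (nat_lit 8)), (.negSucc (nat_lit 171704319)), (.ofNat (nat_lit 424429676750304010655844270080)), (.ofNat (nat_lit 0)), (.ofNat (nat_lit 212214838375152005327922135040)), (.negSucc (nat_lit 171704335)), (.negSucc (nat_lit 171704303)), (.negSucc (nat_lit 2471863705877079916543)), (.ofNat (nat_lit 2471863705877079916544)), (.negSucc (nat_lit 2471863705877079916543)), (.ofNat (nat_lit 2471863705877079916544)), (.ofNat (nat_lit 7415591117631239749632))⟩,
    ⟨nat_lit 0, nat_lit 1, nat_lit 2, (.ofNat (nat_lit 8)), (.negSucc (nat_lit 102236159)), (.ofNat (nat_lit 596145500168365938631109509120)), (.ofNat (nat_lit 0)), (.ofNat (nat_lit 298072750084182969315554754560)), (.negSucc (nat_lit 102236175)), (.negSucc (nat_lit 102236143)), (.ofNat (nat_lit 2471863705877079916544)), (.negSucc (nat_lit 2471863705877079916543)), (.negSucc (nat_lit 2471863705877079916543)), (.ofNat (nat_lit 2471863705877079916544)), (.ofNat (nat_lit 7415591117631239749632))⟩,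
    ⟨nat_lit 0, nat_lit 2, nat_lit 3, (.ofNat (nat_lit 8)), (.negSucc (nat_lit 32767999)), (.ofNat (nat_lit 424429676750304010655844270080)), (.ofNat (nat_lit 0)), (.ofNat (nat_lit 212214838375152005327922135040)), (.negSucc (nat_lit 32768015)), (.negSucc (nat_lit 32767983)), (.negSucc (nat_lit 2471863705877079916543)), (.ofNat (nat_lit 2471863705877079916544)), (.negSucc (nat_lit 2471863705877079916543)), (.ofNat (nat_lit 2471863705877079916544)), (.ofNat (nat_lit 7415591117631239749632))⟩,
    ⟨nat_lit 1, nat_lit 3, nat_lit 4, (.ofNat (nat_lit 8)), (.ofNat (nat_lit 86507520)), (.ofNat (nat_lit 719262505637919773783186472960)), (.ofNat (nat_lit 0)), (.ofNat (nat_lit 359631252818959886891593236480)), (.ofNat (nat_lit 86507504)), (.ofNat (nat_lit 86507536)), (.ofNat (nat_lit 2471863705877079916544)), (.negSucc (nat_lit 2471863705877079916543)), (.negSucc (nat_lit 2471863705877079916543)), (.ofNat (nat_lit 2471863705877079916544)), (.ofNat (nat_lit 7415591117631239749632))⟩,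
    ⟨nat_lit 0, nat_lit 5, nat_lit 4, (.ofNat (nat_lit 8)), (.ofNat (nat_lit 0)), (.ofNat (nat_lit 933097304611355382205214883840)), (.ofNat (nat_lit 0)), (.ofNat (nat_lit 466548652305677691102607441920)), (.negSucc (nat_lit 15)), (.ofNat (nat_lit 16)), (.ofNat (nat_lit 2471863705877079916544)), (.negSucc (nat_lit 2471863705877079916543)), (.negSucc (nat_lit 2471863705877079916543)), (.ofNat (nat_lit 2471863705877079916544)), (.ofNat (nat_lit 7415591117631239749632))⟩,
    ⟨nat_lit 2, nat_lit 6, nat_lit 5, (.ofNat (nat_lit 8)), (.negSucc (nat_lit 170393599)), (.ofNat (nat_lit 511907549057618577737583165440)), (.ofNat (nat_lit 0)), (.ofNat (nat_lit 255953774528809288868791582720)), (.negSucc (nat_lit 170393615)), (.negSucc (nat_lit 170393583)), (.negSucc (nat_lit 2471863705877079916543)), (.ofNat (nat_lit 2471863705877079916544)), (.negSucc (nat_lit 2471863705877079916543)), (.ofNat (nat_lit 2471863705877079916544)), (.ofNat (nat_lit 7415591117631239749632))⟩,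
    ⟨nat_lit 1, nat_lit 6, nat_lit 25, (.ofNat (nat_lit 8)), (.negSucc (nat_lit 118226943)), (.ofNat (nat_lit 382958685434243771446723608576)), (.ofNat (nat_lit 0)), (.ofNat (nat_lit 191479342717121885723361804288)), (.negSucc (nat_lit 118226959)), (.negSucc (nat_lit 118226927)), (.negSucc (nat_lit 2471863705877079916543)), (.ofNat (nat_lit 2471863705877079916544)), (.negSucc (nat_lit 2471863705877079916543)), (.ofNat (nat_lit 2471863705877079916544)), (.ofNat (nat_lit 9887454823508319666176))⟩,
    ⟨nat_lit 0, nat_lit 7, nat_lit 8, (.ofNat (nat_lit 8)), (.negSucc (nat_lit 34078719)), (.ofNat (nat_lit 596145500168365938631109509120)), (.ofNat (nat_lit 0)), (.ofNat (nat_lit 298072750084182969315554754560)), (.negSucc (nat_lit 34078735)), (.negSucc (nat_lit 34078703)), (.ofNat (nat_lit 2471863705877079916544)), (.negSucc (nat_lit 2471863705877079916543)), (.negSucc (nat_lit 2471863705877079916543)), (.ofNat (nat_lit 2471863705877079916544)), (.ofNat (nat_lit 7415591117631239749632))⟩,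
    ⟨nat_lit 0, nat_lit 8, nat_lit 9, (.ofNat (nat_lit 8)), (.ofNat (nat_lit 86507520)), (.ofNat (nat_lit 298072750084182969315554754560)), (.ofNat (nat_lit 0)), (.ofNat (nat_lit 149036375042091484657777377280)), (.ofNat (nat_lit 86507504)), (.ofNat (nat_lit 86507536)), (.negSucc (nat_lit 2471863705877079916543)), (.ofNat (nat_lit 2471863705877079916544)), (.negSucc (nat_lit 2471863705877079916543)), (.ofNat (nat_lit 2471863705877079916544)), (.ofNat (nat_lit 7415591117631239749632))⟩,
    ⟨nat_lit 1, nat_lit 9, nat_lit 10, (.ofNat (nat_lit 8)), (.ofNat (nat_lit 154664960)), (.ofNat (nat_lit 466548652305677691102607441920)), (.ofNat (nat_lit 0)), (.ofNat (nat_lit 233274326152838845551303720960)), (.ofNat (nat_lit 154664944)), (.ofNat (nat_lit 154664976)), (.ofNat (nat_lit 2471863705877079916544)), (.negSucc (nat_lit 2471863705877079916543)), (.negSucc (nat_lit 2471863705877079916543)), (.ofNat (nat_lit 2471863705877079916544)), (.ofNat (nat_lit 7415591117631239749632))⟩,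
    ⟨nat_lit 0, nat_lit 11, nat_lit 10, (.ofNat (nat_lit 8)), (.ofNat (nat_lit 103546880)), (.ofNat (nat_lit 592905578971798732442896957440)), (.ofNat (nat_lit 0)), (.ofNat (nat_lit 296452789485899366221448478720)), (.ofNat (nat_lit 103546864)), (.ofNat (nat_lit 103546896)), (.ofNat (nat_lit 2471863705877079916544)), (.negSucc (nat_lit 2471863705877079916543)), (.negSucc (nat_lit 2471863705877079916543)), (.ofNat (nat_lit 2471863705877079916544)), (.ofNat (nat_lit 7415591117631239749632))⟩,
    ⟨nat_lit 2, nat_lit 12, nat_lit 11, (.ofNat (nat_lit 8)), (.ofNat (nat_lit 69468160)), (.ofNat (nat_lit 508667627861051371549370613760)), (.ofNat (nat_lit 0)), (.ofNat (nat_lit 254333813930525685774685306880)), (.ofNat (nat_lit 69468144)), (.ofNat (nat_lit 69468176)), (.negSucc (nat_lit 2471863705877079916543)), (.ofNat (nat_lit 2471863705877079916544)), (.negSucc (nat_lit 2471863705877079916543)), (.ofNat (nat_lit 2471863705877079916544)), (.ofNat (nat_lit 7415591117631239749632))⟩,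
    ⟨nat_lit 1, nat_lit 13, nat_lit 12, (.ofNat (nat_lit 8)), (.ofNat (nat_lit 137625600)), (.ofNat (nat_lit 340191725639556649762317926400)), (.ofNat (nat_lit 0)), (.ofNat (nat_lit 170095862819778324881158963200)), (.ofNat (nat_lit 137625584)), (.ofNat (nat_lit 137625616)), (.ofNat (nat_lit 2471863705877079916544)), (.negSucc (nat_lit 2471863705877079916543)), (.negSucc (nat_lit 2471863705877079916543)), (.ofNat (nat_lit 2471863705877079916544)), (.ofNat (nat_lit 7415591117631239749632))⟩,
    ⟨nat_lit 0, nat_lit 14, nat_lit 13, (.ofNat (nat_lit 8)), (.ofNat (nat_lit 86507520)), (.ofNat (nat_lit 213834798973435608422028410880)), (.ofNat (nat_lit 0)), (.ofNat (nat_lit 106917399486717804211014205440)), (.ofNat (nat_lit 86507504)), (.ofNat (nat_lit 86507536)), (.negSucc (nat_lit 2471863705877079916543)), (.ofNat (nat_lit 2471863705877079916544)), (.negSucc (nat_lit 2471863705877079916543)), (.ofNat (nat_lit 2471863705877079916544)), (.ofNat (nat_lit 7415591117631239749632))⟩,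
    ⟨nat_lit 0, nat_lit 15, nat_lit 14, (.ofNat (nat_lit 8)), (.negSucc (nat_lit 32767999)), (.ofNat (nat_lit 508667627861051371549370613760)), (.ofNat (nat_lit 0)), (.ofNat (nat_lit 254333813930525685774685306880)), (.negSucc (nat_lit 32768015)), (.negSucc (nat_lit 32767983)), (.ofNat (nat_lit 2471863705877079916544)), (.negSucc (nat_lit 2471863705877079916543)), (.negSucc (nat_lit 2471863705877079916543)), (.ofNat (nat_lit 2471863705877079916544)), (.ofNat (nat_lit 7415591117631239749632))⟩,
    ⟨nat_lit 2, nat_lit 16, nat_lit 15, (.ofNat (nat_lit 8)), (.negSucc (nat_lit 83886079)), (.ofNat (nat_lit 382310701194930330209081098240)), (.ofNat (nat_lit 0)), (.ofNat (nat_lit 191155350597465165104540549120)), (.negSucc (nat_lit 83886095)), (.negSucc (nat_lit 83886063)), (.negSucc (nat_lit 2471863705877079916543)), (.ofNat (nat_lit 2471863705877079916544)), (.negSucc (nat_lit 2471863705877079916543)), (.ofNat (nat_lit 2471863705877079916544)), (.ofNat (nat_lit 7415591117631239749632))⟩,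
    ⟨nat_lit 0, nat_lit 16, nat_lit 17, (.ofNat (nat_lit 8)), (.negSucc (nat_lit 15728639)), (.ofNat (nat_lit 213834798973435608422028410880)), (.ofNat (nat_lit 0)), (.ofNat (nat_lit 106917399486717804211014205440)), (.negSucc (nat_lit 15728655)), (.negSucc (nat_lit 15728623)), (.negSucc (nat_lit 2471863705877079916543)), (.ofNat (nat_lit 2471863705877079916544)), (.negSucc (nat_lit 2471863705877079916543)), (.ofNat (nat_lit 2471863705877079916544)), (.ofNat (nat_lit 7415591117631239749632))⟩,
    ⟨nat_lit 1, nat_lit 17, nat_lit 18, (.ofNat (nat_lit 8)), (.ofNat (nat_lit 103546880)), (.ofNat (nat_lit 508667627861051371549370613760)), (.ofNat (nat_lit 0)), (.ofNat (nat_lit 254333813930525685774685306880)), (.ofNat (nat_lit 103546864)), (.ofNat (nat_lit 103546896)), (.ofNat (nat_lit 2471863705877079916544)), (.negSucc (nat_lit 2471863705877079916543)), (.negSucc (nat_lit 2471863705877079916543)), (.ofNat (nat_lit 2471863705877079916544)), (.ofNat (nat_lit 7415591117631239749632))⟩,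
    ⟨nat_lit 0, nat_lit 19, nat_lit 18, (.ofNat (nat_lit 8)), (.ofNat (nat_lit 69468160)), (.ofNat (nat_lit 592905578971798732442896957440)), (.ofNat (nat_lit 0)), (.ofNat (nat_lit 296452789485899366221448478720)), (.ofNat (nat_lit 69468144)), (.ofNat (nat_lit 69468176)), (.ofNat (nat_lit 2471863705877079916544)), (.negSucc (nat_lit 2471863705877079916543)), (.negSucc (nat_lit 2471863705877079916543)), (.ofNat (nat_lit 2471863705877079916544)), (.ofNat (nat_lit 7415591117631239749632))⟩,
    ⟨nat_lit 0, nat_lit 20, nat_lit 19, (.ofNat (nat_lit 8)), (.negSucc (nat_lit 32767999)), (.ofNat (nat_lit 340191725639556649762317926400)), (.ofNat (nat_lit 0)), (.ofNat (nat_lit 170095862819778324881158963200)), (.negSucc (nat_lit 32768015)), (.negSucc (nat_lit 32767983)), (.negSucc (nat_lit 2471863705877079916543)), (.ofNat (nat_lit 2471863705877079916544)), (.negSucc (nat_lit 2471863705877079916543)), (.ofNat (nat_lit 2471863705877079916544)), (.ofNat (nat_lit 7415591117631239749632))⟩,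
    ⟨nat_lit 2, nat_lit 20, nat_lit 21, (.ofNat (nat_lit 8)), (.negSucc (nat_lit 102236159)), (.ofNat (nat_lit 511907549057618577737583165440)), (.ofNat (nat_lit 0)), (.ofNat (nat_lit 255953774528809288868791582720)), (.negSucc (nat_lit 102236175)), (.negSucc (nat_lit 102236143)), (.negSucc (nat_lit 2471863705877079916543)), (.ofNat (nat_lit 2471863705877079916544)), (.negSucc (nat_lit 2471863705877079916543)), (.ofNat (nat_lit 2471863705877079916544)), (.ofNat (nat_lit 7415591117631239749632))⟩,
    ⟨nat_lit 0, nat_lit 21, nat_lit 22, (.ofNat (nat_lit 8)), (.negSucc (nat_lit 34078719)), (.ofNat (nat_lit 680383451279113299524635852800)), (.ofNat (nat_lit 0)), (.ofNat (nat_lit 340191725639556649762317926400)), (.negSucc (nat_lit 34078735)), (.negSucc (nat_lit 34078703)), (.ofNat (nat_lit 2471863705877079916544)), (.negSucc (nat_lit 2471863705877079916543)), (.negSucc (nat_lit 2471863705877079916543)), (.ofNat (nat_lit 2471863705877079916544)), (.ofNat (nat_lit 7415591117631239749632))⟩,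
    ⟨nat_lit 1, nat_lit 23, nat_lit 22, (.ofNat (nat_lit 8)), (.ofNat (nat_lit 86507520)), (.ofNat (nat_lit 382310701194930330209081098240)), (.ofNat (nat_lit 0)), (.ofNat (nat_lit 191155350597465165104540549120)), (.ofNat (nat_lit 86507504)), (.ofNat (nat_lit 86507536)), (.ofNat (nat_lit 2471863705877079916544)), (.negSucc (nat_lit 2471863705877079916543)), (.negSucc (nat_lit 2471863705877079916543)), (.ofNat (nat_lit 2471863705877079916544)), (.ofNat (nat_lit 7415591117631239749632))⟩,
    ⟨nat_lit 2, nat_lit 24, nat_lit 7, (.ofNat (nat_lit 8)), (.negSucc (nat_lit 120324095)), (.ofNat (nat_lit 382958685434243771446723608576)), (.ofNat (nat_lit 0)), (.ofNat (nat_lit 191479342717121885723361804288)), (.negSucc (nat_lit 120324111)), (.negSucc (nat_lit 120324079)), (.negSucc (nat_lit 2471863705877079916543)), (.ofNat (nat_lit 2471863705877079916544)), (.negSucc (nat_lit 2471863705877079916543)), (.ofNat (nat_lit 2471863705877079916544)), (.ofNat (nat_lit 12359318529385399582720))⟩,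
    ⟨nat_lit 0, nat_lit 24, nat_lit 25, (.ofNat (nat_lit 8)), (.negSucc (nat_lit 119275519)), (.ofNat (nat_lit 380366748476990006496153567232)), (.ofNat (nat_lit 0)), (.ofNat (nat_lit 188887405759868120772791762944)), (.negSucc (nat_lit 119275535)), (.negSucc (nat_lit 119275503)), (.negSucc (nat_lit 2471863705877079916543)), (.ofNat (nat_lit 2471863705877079916544)), (.negSucc (nat_lit 2471863705877079916543)), (.ofNat (nat_lit 2471863705877079916544)), (.ofNat (nat_lit 14831182235262479499264))⟩]
  es := [
    ⟨nat_lit 1, nat_lit 0, (.negSucc (nat_lit 171704319)), (.negSucc (nat_lit 34078719)), (.negSucc (nat_lit 171704303)), (.negSucc (nat_lit 34078735)), (.negSucc (nat_lit 2471863705877079916543)), (.negSucc (nat_lit 1235931852938539958271)), (.ofNat (nat_lit 0))⟩,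
    ⟨nat_lit 1, nat_lit 2, (.negSucc (nat_lit 171704319)), (.negSucc (nat_lit 102236159)), (.negSucc (nat_lit 171704303)), (.negSucc (nat_lit 102236175)), (.ofNat (nat_lit 2471863705877079916544)), (.ofNat (nat_lit 1235931852938539958272)), (.ofNat (nat_lit 424429676750304010655844270080))⟩,
    ⟨nat_lit 2, nat_lit 3, (.negSucc (nat_lit 102236159)), (.negSucc (nat_lit 32767999)), (.negSucc (nat_lit 102236143)), (.negSucc (nat_lit 32768015)), (.negSucc (nat_lit 2471863705877079916543)), (.negSucc (nat_lit 1235931852938539958271)), (.ofNat (nat_lit 171715823418061927975265239040))⟩,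
    ⟨nat_lit 3, nat_lit 4, (.negSucc (nat_lit 32767999)), (.ofNat (nat_lit 86507520)), (.negSucc (nat_lit 32767983)), (.ofNat (nat_lit 86507504)), (.ofNat (nat_lit 2471863705877079916544)), (.ofNat (nat_lit 1235931852938539958272)), (.ofNat (nat_lit 252713853332242082680579031040))⟩,
    ⟨nat_lit 5, nat_lit 4, (.ofNat (nat_lit 0)), (.ofNat (nat_lit 86507520)), (.ofNat (nat_lit 16)), (.ofNat (nat_lit 86507504)), (.negSucc (nat_lit 2471863705877079916543)), (.negSucc (nat_lit 1235931852938539958271)), (.ofNat (nat_lit 466548652305677691102607441920))⟩,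
    ⟨nat_lit 6, nat_lit 5, (.negSucc (nat_lit 170393599)), (.ofNat (nat_lit 0)), (.negSucc (nat_lit 170393583)), (.negSucc (nat_lit 15)), (.ofNat (nat_lit 2471863705877079916544)), (.ofNat (nat_lit 1235931852938539958272)), (.ofNat (nat_lit 466548652305677691102607441920))⟩,
    ⟨nat_lit 6, nat_lit 7, (.negSucc (nat_lit 170393599)), (.negSucc (nat_lit 118226943)), (.negSucc (nat_lit 170393583)), (.negSucc (nat_lit 118226959)), (.negSucc (nat_lit 2471863705877079916543)), (.negSucc (nat_lit 1235931852938539958271)), (.ofNat (nat_lit 45358896751940886634975723520))⟩,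
    ⟨nat_lit 24, nat_lit 8, (.negSucc (nat_lit 120324095)), (.negSucc (nat_lit 34078719)), (.negSucc (nat_lit 120324079)), (.negSucc (nat_lit 34078735)), (.ofNat (nat_lit 2471863705877079916544)), (.ofNat (nat_lit 1235931852938539958272)), (.ofNat (nat_lit 340191725639556649762317926400))⟩,
    ⟨nat_lit 8, nat_lit 9, (.negSucc (nat_lit 34078719)), (.ofNat (nat_lit 86507520)), (.negSucc (nat_lit 34078703)), (.ofNat (nat_lit 86507504)), (.negSucc (nat_lit 2471863705877079916543)), (.negSucc (nat_lit 1235931852938539958271)), (.ofNat (nat_lit 255953774528809288868791582720))⟩,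
    ⟨nat_lit 9, nat_lit 10, (.ofNat (nat_lit 86507520)), (.ofNat (nat_lit 154664960)), (.ofNat (nat_lit 86507536)), (.ofNat (nat_lit 154664944)), (.ofNat (nat_lit 2471863705877079916544)), (.ofNat (nat_lit 1235931852938539958272)), (.ofNat (nat_lit 42118975555373680446763171840))⟩,
    ⟨nat_lit 11, nat_lit 10, (.ofNat (nat_lit 103546880)), (.ofNat (nat_lit 154664960)), (.ofNat (nat_lit 103546896)), (.ofNat (nat_lit 154664944)), (.negSucc (nat_lit 2471863705877079916543)), (.negSucc (nat_lit 1235931852938539958271)), (.ofNat (nat_lit 424429676750304010655844270080))⟩,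
    ⟨nat_lit 12, nat_lit 11, (.ofNat (nat_lit 69468160)), (.ofNat (nat_lit 103546880)), (.ofNat (nat_lit 69468176)), (.ofNat (nat_lit 103546864)), (.ofNat (nat_lit 2471863705877079916544)), (.ofNat (nat_lit 1235931852938539958272)), (.ofNat (nat_lit 168475902221494721787052687360))⟩,
    ⟨nat_lit 12, nat_lit 13, (.ofNat (nat_lit 69468160)), (.ofNat (nat_lit 137625600)), (.ofNat (nat_lit 69468176)), (.ofNat (nat_lit 137625584)), (.negSucc (nat_lit 2471863705877079916543)), (.negSucc (nat_lit 1235931852938539958271)), (.ofNat (nat_lit 340191725639556649762317926400))⟩,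
    ⟨nat_lit 14, nat_lit 13, (.ofNat (nat_lit 86507520)), (.ofNat (nat_lit 137625600)), (.ofNat (nat_lit 86507536)), (.ofNat (nat_lit 137625584)), (.ofNat (nat_lit 2471863705877079916544)), (.ofNat (nat_lit 1235931852938539958272)), (.ofNat (nat_lit 0))⟩,
    ⟨nat_lit 15, nat_lit 14, (.negSucc (nat_lit 32767999)), (.ofNat (nat_lit 86507520)), (.negSucc (nat_lit 32767983)), (.ofNat (nat_lit 86507504)), (.negSucc (nat_lit 2471863705877079916543)), (.negSucc (nat_lit 1235931852938539958271)), (.ofNat (nat_lit 213834798973435608422028410880))⟩,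
    ⟨nat_lit 16, nat_lit 15, (.negSucc (nat_lit 83886079)), (.negSucc (nat_lit 32767999)), (.negSucc (nat_lit 83886063)), (.negSucc (nat_lit 32768015)), (.ofNat (nat_lit 2471863705877079916544)), (.ofNat (nat_lit 1235931852938539958272)), (.ofNat (nat_lit 294832828887615763127342202880))⟩,
    ⟨nat_lit 16, nat_lit 17, (.negSucc (nat_lit 83886079)), (.negSucc (nat_lit 15728639)), (.negSucc (nat_lit 83886063)), (.negSucc (nat_lit 15728655)), (.negSucc (nat_lit 2471863705877079916543)), (.negSucc (nat_lit 1235931852938539958271)), (.ofNat (nat_lit 87477872307314567081738895360))⟩,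
    ⟨nat_lit 17, nat_lit 18, (.negSucc (nat_lit 15728639)), (.ofNat (nat_lit 103546880)), (.negSucc (nat_lit 15728623)), (.ofNat (nat_lit 103546864)), (.ofNat (nat_lit 2471863705877079916544)), (.ofNat (nat_lit 1235931852938539958272)), (.ofNat (nat_lit 126356926666121041340289515520))⟩,
    ⟨nat_lit 19, nat_lit 18, (.ofNat (nat_lit 69468160)), (.ofNat (nat_lit 103546880)), (.ofNat (nat_lit 69468176)), (.ofNat (nat_lit 103546864)), (.negSucc (nat_lit 2471863705877079916543)), (.negSucc (nat_lit 1235931852938539958271)), (.ofNat (nat_lit 382310701194930330209081098240))⟩,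
    ⟨nat_lit 20, nat_lit 19, (.negSucc (nat_lit 32767999)), (.ofNat (nat_lit 69468160)), (.negSucc (nat_lit 32767983)), (.ofNat (nat_lit 69468144)), (.ofNat (nat_lit 2471863705877079916544)), (.ofNat (nat_lit 1235931852938539958272)), (.ofNat (nat_lit 210594877776868402233815859200))⟩,
    ⟨nat_lit 21, nat_lit 20, (.negSucc (nat_lit 102236159)), (.negSucc (nat_lit 32767999)), (.negSucc (nat_lit 102236143)), (.negSucc (nat_lit 32768015)), (.negSucc (nat_lit 2471863705877079916543)), (.negSucc (nat_lit 1235931852938539958271)), (.ofNat (nat_lit 129596847862688247528502067200))⟩,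
    ⟨nat_lit 21, nat_lit 22, (.negSucc (nat_lit 102236159)), (.negSucc (nat_lit 34078719)), (.negSucc (nat_lit 102236143)), (.negSucc (nat_lit 34078735)), (.ofNat (nat_lit 2471863705877079916544)), (.ofNat (nat_lit 1235931852938539958272)), (.ofNat (nat_lit 382310701194930330209081098240))⟩,
    ⟨nat_lit 22, nat_lit 23, (.negSucc (nat_lit 34078719)), (.ofNat (nat_lit 86507520)), (.negSucc (nat_lit 34078703)), (.ofNat (nat_lit 86507504)), (.negSucc (nat_lit 2471863705877079916543)), (.negSucc (nat_lit 1235931852938539958271)), (.ofNat (nat_lit 298072750084182969315554754560))⟩,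
    ⟨nat_lit 0, nat_lit 23, (.negSucc (nat_lit 34078719)), (.ofNat (nat_lit 86507520)), (.negSucc (nat_lit 34078703)), (.ofNat (nat_lit 86507504)), (.ofNat (nat_lit 2471863705877079916544)), (.ofNat (nat_lit 1235931852938539958272)), (.ofNat (nat_lit 84237951110747360893526343680))⟩,
    ⟨nat_lit 24, nat_lit 25, (.negSucc (nat_lit 120324095)), (.negSucc (nat_lit 119275519)), (.negSucc (nat_lit 120324079)), (.negSucc (nat_lit 119275535)), (.negSucc (nat_lit 2471863705877079916543)), (.negSucc (nat_lit 2471863705877079916543)), (.negSucc (nat_lit 105945423127747642354550439935))⟩,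
    ⟨nat_lit 25, nat_lit 7, (.negSucc (nat_lit 119275519)), (.negSucc (nat_lit 118226943)), (.negSucc (nat_lit 119275503)), (.negSucc (nat_lit 118226959)), (.ofNat (nat_lit 2471863705877079916544)), (.ofNat (nat_lit 2471863705877079916544)), (.ofNat (nat_lit 483720234647483883900133965824))⟩]

theorem ok9 : stOK 25 25 S9 = true := by decide +kernel

def S10 : SD where
  vs := [
    ⟨nat_lit 0, nat_lit 0, nat_lit 23, (.ofNat (nat_lit 8)), (.negSucc (nat_lit 34078719)), (.ofNat (nat_lit 84237951110747360893526343680)), (.ofNat (nat_lit 0)), (.ofNat (nat_lit 42118975555373680446763171840)), (.negSucc (nat_lit 34078735)), (.negSucc (nat_lit 34078703)), (.negSucc (nat_lit 2471863705877079916543)), (.ofNat (nat_lit 2471863705877079916544)), (.negSucc (nat_lit 2471863705877079916543)), (.ofNat (nat_lit 2471863705877079916544)), (.ofNat (nat_lit 7415591117631239749632))⟩,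
    ⟨nat_lit 2, nat_lit 0, nat_lit 1, (.ofNat (nat_lit 8)), (.negSucc (nat_lit 171704319)), (.ofNat (nat_lit 424429676750304010655844270080)), (.ofNat (nat_lit 0)), (.ofNat (nat_lit 212214838375152005327922135040)), (.negSucc (nat_lit 171704335)), (.negSucc (nat_lit 171704303)), (.negSucc (nat_lit 2471863705877079916543)), (.ofNat (nat_lit 2471863705877079916544)), (.negSucc (nat_lit 2471863705877079916543)), (.ofNat (nat_lit 2471863705877079916544)), (.ofNat (nat_lit 7415591117631239749632))⟩,
    ⟨nat_lit 0, nat_lit 1, nat_lit 2, (.ofNat (nat_lit 8)), (.negSucc (nat_lit 102236159)), (.ofNat (nat_lit 596145500168365938631109509120)), (.ofNat (nat_lit 0)), (.ofNat (nat_lit 298072750084182969315554754560)), (.negSucc (nat_lit 102236175)), (.negSucc (nat_lit 102236143)), (.ofNat (nat_lit 2471863705877079916544)), (.negSucc (nat_lit 2471863705877079916543)), (.negSucc (nat_lit 2471863705877079916543)), (.ofNat (nat_lit 2471863705877079916544)), (.ofNat (nat_lit 7415591117631239749632))⟩,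
    ⟨nat_lit 0, nat_lit 2, nat_lit 3, (.ofNat (nat_lit 8)), (.negSucc (nat_lit 32767999)), (.ofNat (nat_lit 424429676750304010655844270080)), (.ofNat (nat_lit 0)), (.ofNat (nat_lit 212214838375152005327922135040)), (.negSucc (nat_lit 32768015)), (.negSucc (nat_lit 32767983)), (.negSucc (nat_lit 2471863705877079916543)), (.ofNat (nat_lit 2471863705877079916544)), (.negSucc (nat_lit 2471863705877079916543)), (.ofNat (nat_lit 2471863705877079916544)), (.ofNat (nat_lit 7415591117631239749632))⟩,
    ⟨nat_lit 1, nat_lit 3, nat_lit 4, (.ofNat (nat_lit 8)), (.ofNat (nat_lit 86507520)), (.ofNat (nat_lit 719262505637919773783186472960)), (.ofNat (nat_lit 0)), (.ofNat (nat_lit 359631252818959886891593236480)), (.ofNat (nat_lit 86507504)), (.ofNat (nat_lit 86507536)), (.ofNat (nat_lit 2471863705877079916544)), (.negSucc (nat_lit 2471863705877079916543)), (.negSucc (nat_lit 2471863705877079916543)), (.ofNat (nat_lit 2471863705877079916544)), (.ofNat (nat_lit 7415591117631239749632))⟩,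
    ⟨nat_lit 0, nat_lit 5, nat_lit 4, (.ofNat (nat_lit 8)), (.ofNat (nat_lit 0)), (.ofNat (nat_lit 933097304611355382205214883840)), (.ofNat (nat_lit 0)), (.ofNat (nat_lit 466548652305677691102607441920)), (.negSucc (nat_lit 15)), (.ofNat (nat_lit 16)), (.ofNat (nat_lit 2471863705877079916544)), (.negSucc (nat_lit 2471863705877079916543)), (.negSucc (nat_lit 2471863705877079916543)), (.ofNat (nat_lit 2471863705877079916544)), (.ofNat (nat_lit 7415591117631239749632))⟩,
    ⟨nat_lit 2, nat_lit 6, nat_lit 5, (.ofNat (nat_lit 8)), (.negSucc (nat_lit 170393599)), (.ofNat (nat_lit 511907549057618577737583165440)), (.ofNat (nat_lit 0)), (.ofNat (nat_lit 255953774528809288868791582720)), (.negSucc (nat_lit 170393615)), (.negSucc (nat_lit 170393583)), (.negSucc (nat_lit 2471863705877079916543)), (.ofNat (nat_lit 2471863705877079916544)), (.negSucc (nat_lit 2471863705877079916543)), (.ofNat (nat_lit 2471863705877079916544)), (.ofNat (nat_lit 7415591117631239749632))⟩,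
    ⟨nat_lit 1, nat_lit 25, nat_lit 6, (.ofNat (nat_lit 8)), (.negSucc (nat_lit 118226943)), (.ofNat (nat_lit 382958685434243771446723608576)), (.ofNat (nat_lit 0)), (.ofNat (nat_lit 191479342717121885723361804288)), (.negSucc (nat_lit 118226959)), (.negSucc (nat_lit 118226927)), (.ofNat (nat_lit 2471863705877079916544)), (.negSucc (nat_lit 2471863705877079916543)), (.negSucc (nat_lit 2471863705877079916543)), (.ofNat (nat_lit 2471863705877079916544)), (.ofNat (nat_lit 12359318529385399582720))⟩,
    ⟨nat_lit 0, nat_lit 7, nat_lit 8, (.ofNat (nat_lit 8)), (.negSucc (nat_lit 34078719)), (.ofNat (nat_lit 596145500168365938631109509120)), (.ofNat (nat_lit 0)), (.ofNat (nat_lit 298072750084182969315554754560)), (.negSucc (nat_lit 34078735)), (.negSucc (nat_lit 34078703)), (.ofNat (nat_lit 2471863705877079916544)), (.negSucc (nat_lit 2471863705877079916543)), (.negSucc (nat_lit 2471863705877079916543)), (.ofNat (nat_lit 2471863705877079916544)), (.ofNat (nat_lit 7415591117631239749632))⟩,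
    ⟨nat_lit 0, nat_lit 8, nat_lit 9, (.ofNat (nat_lit 8)), (.ofNat (nat_lit 86507520)), (.ofNat (nat_lit 298072750084182969315554754560)), (.ofNat (nat_lit 0)), (.ofNat (nat_lit 149036375042091484657777377280)), (.ofNat (nat_lit 86507504)), (.ofNat (nat_lit 86507536)), (.negSucc (nat_lit 2471863705877079916543)), (.ofNat (nat_lit 2471863705877079916544)), (.negSucc (nat_lit 2471863705877079916543)), (.ofNat (nat_lit 2471863705877079916544)), (.ofNat (nat_lit 7415591117631239749632))⟩,
    ⟨nat_lit 1, nat_lit 9, nat_lit 10, (.ofNat (nat_lit 8)), (.ofNat (nat_lit 154664960)), (.ofNat (nat_lit 466548652305677691102607441920)), (.ofNat (nat_lit 0)), (.ofNat (nat_lit 233274326152838845551303720960)), (.ofNat (nat_lit 154664944)), (.ofNat (nat_lit 154664976)), (.ofNat (nat_lit 2471863705877079916544)), (.negSucc (nat_lit 2471863705877079916543)), (.negSucc (nat_lit 2471863705877079916543)), (.ofNat (nat_lit 2471863705877079916544)), (.ofNat (nat_lit 7415591117631239749632))⟩,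
    ⟨nat_lit 0, nat_lit 11, nat_lit 10, (.ofNat (nat_lit 8)), (.ofNat (nat_lit 103546880)), (.ofNat (nat_lit 592905578971798732442896957440)), (.ofNat (nat_lit 0)), (.ofNat (nat_lit 296452789485899366221448478720)), (.ofNat (nat_lit 103546864)), (.ofNat (nat_lit 103546896)), (.ofNat (nat_lit 2471863705877079916544)), (.negSucc (nat_lit 2471863705877079916543)), (.negSucc (nat_lit 2471863705877079916543)), (.ofNat (nat_lit 2471863705877079916544)), (.ofNat (nat_lit 7415591117631239749632))⟩,
    ⟨nat_lit 2, nat_lit 12, nat_lit 11, (.ofNat (nat_lit 8)), (.ofNat (nat_lit 69468160)), (.ofNat (nat_lit 508667627861051371549370613760)), (.ofNat (nat_lit 0)), (.ofNat (nat_lit 254333813930525685774685306880)), (.ofNat (nat_lit 69468144)), (.ofNat (nat_lit 69468176)), (.negSucc (nat_lit 2471863705877079916543)), (.ofNat (nat_lit 2471863705877079916544)), (.negSucc (nat_lit 2471863705877079916543)), (.ofNat (nat_lit 2471863705877079916544)), (.ofNat (nat_lit 7415591117631239749632))⟩,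
    ⟨nat_lit 1, nat_lit 13, nat_lit 12, (.ofNat (nat_lit 8)), (.ofNat (nat_lit 137625600)), (.ofNat (nat_lit 340191725639556649762317926400)), (.ofNat (nat_lit 0)), (.ofNat (nat_lit 170095862819778324881158963200)), (.ofNat (nat_lit 137625584)), (.ofNat (nat_lit 137625616)), (.ofNat (nat_lit 2471863705877079916544)), (.negSucc (nat_lit 2471863705877079916543)), (.negSucc (nat_lit 2471863705877079916543)), (.ofNat (nat_lit 2471863705877079916544)), (.ofNat (nat_lit 7415591117631239749632))⟩,
    ⟨nat_lit 0, nat_lit 14, nat_lit 13, (.ofNat (nat_lit 8)), (.ofNat (nat_lit 86507520)), (.ofNat (nat_lit 213834798973435608422028410880)), (.ofNat (nat_lit 0)), (.ofNat (nat_lit 106917399486717804211014205440)), (.ofNat (nat_lit 86507504)), (.ofNat (nat_lit 86507536)), (.negSucc (nat_lit 2471863705877079916543)), (.ofNat (nat_lit 2471863705877079916544)), (.negSucc (nat_lit 2471863705877079916543)), (.ofNat (nat_lit 2471863705877079916544)), (.ofNat (nat_lit 7415591117631239749632))⟩,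
    ⟨nat_lit 0, nat_lit 15, nat_lit 14, (.ofNat (nat_lit 8)), (.negSucc (nat_lit 32767999)), (.ofNat (nat_lit 508667627861051371549370613760)), (.ofNat (nat_lit 0)), (.ofNat (nat_lit 254333813930525685774685306880)), (.negSucc (nat_lit 32768015)), (.negSucc (nat_lit 32767983)), (.ofNat (nat_lit 2471863705877079916544)), (.negSucc (nat_lit 2471863705877079916543)), (.negSucc (nat_lit 2471863705877079916543)), (.ofNat (nat_lit 2471863705877079916544)), (.ofNat (nat_lit 7415591117631239749632))⟩,
    ⟨nat_lit 2, nat_lit 16, nat_lit 15, (.ofNat (nat_lit 8)), (.negSucc (nat_lit 83886079)), (.ofNat (nat_lit 382310701194930330209081098240)), (.ofNat (nat_lit 0)), (.ofNat (nat_lit 191155350597465165104540549120)), (.negSucc (nat_lit 83886095)), (.negSucc (nat_lit 83886063)), (.negSucc (nat_lit 2471863705877079916543)), (.ofNat (nat_lit 2471863705877079916544)), (.negSucc (nat_lit 2471863705877079916543)), (.ofNat (nat_lit 2471863705877079916544)), (.ofNat (nat_lit 7415591117631239749632))⟩,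
    ⟨nat_lit 0, nat_lit 16, nat_lit 17, (.ofNat (nat_lit 8)), (.negSucc (nat_lit 15728639)), (.ofNat (nat_lit 213834798973435608422028410880)), (.ofNat (nat_lit 0)), (.ofNat (nat_lit 106917399486717804211014205440)), (.negSucc (nat_lit 15728655)), (.negSucc (nat_lit 15728623)), (.negSucc (nat_lit 2471863705877079916543)), (.ofNat (nat_lit 2471863705877079916544)), (.negSucc (nat_lit 2471863705877079916543)), (.ofNat (nat_lit 2471863705877079916544)), (.ofNat (nat_lit 7415591117631239749632))⟩,
    ⟨nat_lit 1, nat_lit 17, nat_lit 18, (.ofNat (nat_lit 8)), (.ofNat (nat_lit 103546880)), (.ofNat (nat_lit 508667627861051371549370613760)), (.ofNat (nat_lit 0)), (.ofNat (nat_lit 254333813930525685774685306880)), (.ofNat (nat_lit 103546864)), (.ofNat (nat_lit 103546896)), (.ofNat (nat_lit 2471863705877079916544)), (.negSucc (nat_lit 2471863705877079916543)), (.negSucc (nat_lit 2471863705877079916543)), (.ofNat (nat_lit 2471863705877079916544)), (.ofNat (nat_lit 7415591117631239749632))⟩,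
    ⟨nat_lit 0, nat_lit 19, nat_lit 18, (.ofNat (nat_lit 8)), (.ofNat (nat_lit 69468160)), (.ofNat (nat_lit 592905578971798732442896957440)), (.ofNat (nat_lit 0)), (.ofNat (nat_lit 296452789485899366221448478720)), (.ofNat (nat_lit 69468144)), (.ofNat (nat_lit 69468176)), (.ofNat (nat_lit 2471863705877079916544)), (.negSucc (nat_lit 2471863705877079916543)), (.negSucc (nat_lit 2471863705877079916543)), (.ofNat (nat_lit 2471863705877079916544)), (.ofNat (nat_lit 7415591117631239749632))⟩,
    ⟨nat_lit 0, nat_lit 20, nat_lit 19, (.ofNat (nat_lit 8)), (.negSucc (nat_lit 32767999)), (.ofNat (nat_lit 340191725639556649762317926400)), (.ofNat (nat_lit 0)), (.ofNat (nat_lit 170095862819778324881158963200)), (.negSucc (nat_lit 32768015)), (.negSucc (nat_lit 32767983)), (.negSucc (nat_lit 2471863705877079916543)), (.ofNat (nat_lit 2471863705877079916544)), (.negSucc (nat_lit 2471863705877079916543)), (.ofNat (nat_lit 2471863705877079916544)), (.ofNat (nat_lit 7415591117631239749632))⟩,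
    ⟨nat_lit 2, nat_lit 20, nat_lit 21, (.ofNat (nat_lit 8)), (.negSucc (nat_lit 102236159)), (.ofNat (nat_lit 511907549057618577737583165440)), (.ofNat (nat_lit 0)), (.ofNat (nat_lit 255953774528809288868791582720)), (.negSucc (nat_lit 102236175)), (.negSucc (nat_lit 102236143)), (.negSucc (nat_lit 2471863705877079916543)), (.ofNat (nat_lit 2471863705877079916544)), (.negSucc (nat_lit 2471863705877079916543)), (.ofNat (nat_lit 2471863705877079916544)), (.ofNat (nat_lit 7415591117631239749632))⟩,
    ⟨nat_lit 0, nat_lit 21, nat_lit 22, (.ofNat (nat_lit 8)), (.negSucc (nat_lit 34078719)), (.ofNat (nat_lit 680383451279113299524635852800)), (.ofNat (nat_lit 0)), (.ofNat (nat_lit 340191725639556649762317926400)), (.negSucc (nat_lit 34078735)), (.negSucc (nat_lit 34078703)), (.ofNat (nat_lit 2471863705877079916544)), (.negSucc (nat_lit 2471863705877079916543)), (.negSucc (nat_lit 2471863705877079916543)), (.ofNat (nat_lit 2471863705877079916544)), (.ofNat (nat_lit 7415591117631239749632))⟩,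
    ⟨nat_lit 1, nat_lit 23, nat_lit 22, (.ofNat (nat_lit 8)), (.ofNat (nat_lit 86507520)), (.ofNat (nat_lit 382310701194930330209081098240)), (.ofNat (nat_lit 0)), (.ofNat (nat_lit 191155350597465165104540549120)), (.ofNat (nat_lit 86507504)), (.ofNat (nat_lit 86507536)), (.ofNat (nat_lit 2471863705877079916544)), (.negSucc (nat_lit 2471863705877079916543)), (.negSucc (nat_lit 2471863705877079916543)), (.ofNat (nat_lit 2471863705877079916544)), (.ofNat (nat_lit 7415591117631239749632))⟩,
    ⟨nat_lit 2, nat_lit 24, nat_lit 7, (.ofNat (nat_lit 8)), (.negSucc (nat_lit 120324095)), (.ofNat (nat_lit 382958685434243771446723608576)), (.ofNat (nat_lit 0)), (.ofNat (nat_lit 191479342717121885723361804288)), (.negSucc (nat_lit 120324111)), (.negSucc (nat_lit 120324079)), (.negSucc (nat_lit 2471863705877079916543)), (.ofNat (nat_lit 2471863705877079916544)), (.negSucc (nat_lit 2471863705877079916543)), (.ofNat (nat_lit 2471863705877079916544)), (.ofNat (nat_lit 12359318529385399582720))⟩,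
    ⟨nat_lit 0, nat_lit 24, nat_lit 25, (.ofNat (nat_lit 8)), (.negSucc (nat_lit 119275519)), (.ofNat (nat_lit 380366748476990006496153567232)), (.ofNat (nat_lit 0)), (.ofNat (nat_lit 188887405759868120772791762944)), (.negSucc (nat_lit 119275535)), (.negSucc (nat_lit 119275503)), (.negSucc (nat_lit 2471863705877079916543)), (.ofNat (nat_lit 2471863705877079916544)), (.negSucc (nat_lit 2471863705877079916543)), (.ofNat (nat_lit 2471863705877079916544)), (.ofNat (nat_lit 14831182235262479499264))⟩]
  es := [
    ⟨nat_lit 1, nat_lit 0, (.negSucc (nat_lit 171704319)), (.negSucc (nat_lit 34078719)), (.negSucc (nat_lit 171704303)), (.negSucc (nat_lit 34078735)), (.negSucc (nat_lit 2471863705877079916543)), (.negSucc (nat_lit 1235931852938539958271)), (.ofNat (nat_lit 0))⟩,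
    ⟨nat_lit 1, nat_lit 2, (.negSucc (nat_lit 171704319)), (.negSucc (nat_lit 102236159)), (.negSucc (nat_lit 171704303)), (.negSucc (nat_lit 102236175)), (.ofNat (nat_lit 2471863705877079916544)), (.ofNat (nat_lit 1235931852938539958272)), (.ofNat (nat_lit 424429676750304010655844270080))⟩,
    ⟨nat_lit 2, nat_lit 3, (.negSucc (nat_lit 102236159)), (.negSucc (nat_lit 32767999)), (.negSucc (nat_lit 102236143)), (.negSucc (nat_lit 32768015)), (.negSucc (nat_lit 2471863705877079916543)), (.negSucc (nat_lit 1235931852938539958271)), (.ofNat (nat_lit 171715823418061927975265239040))⟩,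
    ⟨nat_lit 3, nat_lit 4, (.negSucc (nat_lit 32767999)), (.ofNat (nat_lit 86507520)), (.negSucc (nat_lit 32767983)), (.ofNat (nat_lit 86507504)), (.ofNat (nat_lit 2471863705877079916544)), (.ofNat (nat_lit 1235931852938539958272)), (.ofNat (nat_lit 252713853332242082680579031040))⟩,
    ⟨nat_lit 5, nat_lit 4, (.ofNat (nat_lit 0)), (.ofNat (nat_lit 86507520)), (.ofNat (nat_lit 16)), (.ofNat (nat_lit 86507504)), (.negSucc (nat_lit 2471863705877079916543)), (.negSucc (nat_lit 1235931852938539958271)), (.ofNat (nat_lit 466548652305677691102607441920))⟩,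
    ⟨nat_lit 6, nat_lit 5, (.negSucc (nat_lit 170393599)), (.ofNat (nat_lit 0)), (.negSucc (nat_lit 170393583)), (.negSucc (nat_lit 15)), (.ofNat (nat_lit 2471863705877079916544)), (.ofNat (nat_lit 1235931852938539958272)), (.ofNat (nat_lit 466548652305677691102607441920))⟩,
    ⟨nat_lit 6, nat_lit 7, (.negSucc (nat_lit 170393599)), (.negSucc (nat_lit 118226943)), (.negSucc (nat_lit 170393583)), (.negSucc (nat_lit 118226959)), (.negSucc (nat_lit 2471863705877079916543)), (.negSucc (nat_lit 1235931852938539958271)), (.ofNat (nat_lit 45358896751940886634975723520))⟩,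
    ⟨nat_lit 24, nat_lit 8, (.negSucc (nat_lit 120324095)), (.negSucc (nat_lit 34078719)), (.negSucc (nat_lit 120324079)), (.negSucc (nat_lit 34078735)), (.ofNat (nat_lit 2471863705877079916544)), (.ofNat (nat_lit 1235931852938539958272)), (.ofNat (nat_lit 340191725639556649762317926400))⟩,
    ⟨nat_lit 8, nat_lit 9, (.negSucc (nat_lit 34078719)), (.ofNat (nat_lit 86507520)), (.negSucc (nat_lit 34078703)), (.ofNat (nat_lit 86507504)), (.negSucc (nat_lit 2471863705877079916543)), (.negSucc (nat_lit 1235931852938539958271)), (.ofNat (nat_lit 255953774528809288868791582720))⟩,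
    ⟨nat_lit 9, nat_lit 10, (.ofNat (nat_lit 86507520)), (.ofNat (nat_lit 154664960)), (.ofNat (nat_lit 86507536)), (.ofNat (nat_lit 154664944)), (.ofNat (nat_lit 2471863705877079916544)), (.ofNat (nat_lit 1235931852938539958272)), (.ofNat (nat_lit 42118975555373680446763171840))⟩,
    ⟨nat_lit 11, nat_lit 10, (.ofNat (nat_lit 103546880)), (.ofNat (nat_lit 154664960)), (.ofNat (nat_lit 103546896)), (.ofNat (nat_lit 154664944)), (.negSucc (nat_lit 2471863705877079916543)), (.negSucc (nat_lit 1235931852938539958271)), (.ofNat (nat_lit 424429676750304010655844270080))⟩,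
    ⟨nat_lit 12, nat_lit 11, (.ofNat (nat_lit 69468160)), (.ofNat (nat_lit 103546880)), (.ofNat (nat_lit 69468176)), (.ofNat (nat_lit 103546864)), (.ofNat (nat_lit 2471863705877079916544)), (.ofNat (nat_lit 1235931852938539958272)), (.ofNat (nat_lit 168475902221494721787052687360))⟩,
    ⟨nat_lit 12, nat_lit 13, (.ofNat (nat_lit 69468160)), (.ofNat (nat_lit 137625600)), (.ofNat (nat_lit 69468176)), (.ofNat (nat_lit 137625584)), (.negSucc (nat_lit 2471863705877079916543)), (.negSucc (nat_lit 1235931852938539958271)), (.ofNat (nat_lit 340191725639556649762317926400))⟩,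
    ⟨nat_lit 14, nat_lit 13, (.ofNat (nat_lit 86507520)), (.ofNat (nat_lit 137625600)), (.ofNat (nat_lit 86507536)), (.ofNat (nat_lit 137625584)), (.ofNat (nat_lit 2471863705877079916544)), (.ofNat (nat_lit 1235931852938539958272)), (.ofNat (nat_lit 0))⟩,
    ⟨nat_lit 15, nat_lit 14, (.negSucc (nat_lit 32767999)), (.ofNat (nat_lit 86507520)), (.negSucc (nat_lit 32767983)), (.ofNat (nat_lit 86507504)), (.negSucc (nat_lit 2471863705877079916543)), (.negSucc (nat_lit 1235931852938539958271)), (.ofNat (nat_lit 213834798973435608422028410880))⟩,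
    ⟨nat_lit 16, nat_lit 15, (.negSucc (nat_lit 83886079)), (.negSucc (nat_lit 32767999)), (.negSucc (nat_lit 83886063)), (.negSucc (nat_lit 32768015)), (.ofNat (nat_lit 2471863705877079916544)), (.ofNat (nat_lit 1235931852938539958272)), (.ofNat (nat_lit 294832828887615763127342202880))⟩,
    ⟨nat_lit 16, nat_lit 17, (.negSucc (nat_lit 83886079)), (.negSucc (nat_lit 15728639)), (.negSucc (nat_lit 83886063)), (.negSucc (nat_lit 15728655)), (.negSucc (nat_lit 2471863705877079916543)), (.negSucc (nat_lit 1235931852938539958271)), (.ofNat (nat_lit 87477872307314567081738895360))⟩,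
    ⟨nat_lit 17, nat_lit 18, (.negSucc (nat_lit 15728639)), (.ofNat (nat_lit 103546880)), (.negSucc (nat_lit 15728623)), (.ofNat (nat_lit 103546864)), (.ofNat (nat_lit 2471863705877079916544)), (.ofNat (nat_lit 1235931852938539958272)), (.ofNat (nat_lit 126356926666121041340289515520))⟩,
    ⟨nat_lit 19, nat_lit 18, (.ofNat (nat_lit 69468160)), (.ofNat (nat_lit 103546880)), (.ofNat (nat_lit 69468176)), (.ofNat (nat_lit 103546864)), (.negSucc (nat_lit 2471863705877079916543)), (.negSucc (nat_lit 1235931852938539958271)), (.ofNat (nat_lit 382310701194930330209081098240))⟩,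
    ⟨nat_lit 20, nat_lit 19, (.negSucc (nat_lit 32767999)), (.ofNat (nat_lit 69468160)), (.negSucc (nat_lit 32767983)), (.ofNat (nat_lit 69468144)), (.ofNat (nat_lit 2471863705877079916544)), (.ofNat (nat_lit 1235931852938539958272)), (.ofNat (nat_lit 210594877776868402233815859200))⟩,
    ⟨nat_lit 21, nat_lit 20, (.negSucc (nat_lit 102236159)), (.negSucc (nat_lit 32767999)), (.negSucc (nat_lit 102236143)), (.negSucc (nat_lit 32768015)), (.negSucc (nat_lit 2471863705877079916543)), (.negSucc (nat_lit 1235931852938539958271)), (.ofNat (nat_lit 129596847862688247528502067200))⟩,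
    ⟨nat_lit 21, nat_lit 22, (.negSucc (nat_lit 102236159)), (.negSucc (nat_lit 34078719)), (.negSucc (nat_lit 102236143)), (.negSucc (nat_lit 34078735)), (.ofNat (nat_lit 2471863705877079916544)), (.ofNat (nat_lit 1235931852938539958272)), (.ofNat (nat_lit 382310701194930330209081098240))⟩,
    ⟨nat_lit 22, nat_lit 23, (.negSucc (nat_lit 34078719)), (.ofNat (nat_lit 86507520)), (.negSucc (nat_lit 34078703)), (.ofNat (nat_lit 86507504)), (.negSucc (nat_lit 2471863705877079916543)), (.negSucc (nat_lit 1235931852938539958271)), (.ofNat (nat_lit 298072750084182969315554754560))⟩,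
    ⟨nat_lit 0, nat_lit 23, (.negSucc (nat_lit 34078719)), (.ofNat (nat_lit 86507520)), (.negSucc (nat_lit 34078703)), (.ofNat (nat_lit 86507504)), (.ofNat (nat_lit 2471863705877079916544)), (.ofNat (nat_lit 1235931852938539958272)), (.ofNat (nat_lit 84237951110747360893526343680))⟩,
    ⟨nat_lit 24, nat_lit 25, (.negSucc (nat_lit 120324095)), (.negSucc (nat_lit 119275519)), (.negSucc (nat_lit 120324079)), (.negSucc (nat_lit 119275535)), (.negSucc (nat_lit 2471863705877079916543)), (.negSucc (nat_lit 2471863705877079916543)), (.negSucc (nat_lit 105945423127747642354550439935))⟩,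
    ⟨nat_lit 25, nat_lit 7, (.negSucc (nat_lit 119275519)), (.negSucc (nat_lit 118226943)), (.negSucc (nat_lit 119275503)), (.negSucc (nat_lit 118226959)), (.ofNat (nat_lit 2471863705877079916544)), (.ofNat (nat_lit 2471863705877079916544)), (.ofNat (nat_lit 483720234647483883900133965824))⟩]

theorem ok10 : stOK 25 25 S10 = true := by decide +kernel

def S11 : SD where
  vs := [
    ⟨nat_lit 0, nat_lit 0, nat_lit 23, (.ofNat (nat_lit 8)), (.negSucc (nat_lit 34603007)), (.ofNat (nat_lit 85533919589374243368811364352)), (.negSucc (nat_lit 524287)), (.ofNat (nat_lit 1295968478626882475285020672)), (.negSucc (nat_lit 34603023)), (.negSucc (nat_lit 34602991)), (.negSucc (nat_lit 2471863705877079916543)), (.ofNat (nat_lit 2471863705877079916544)), (.negSucc (nat_lit 2471863705877079916543)), (.ofNat (nat_lit 2471863705877079916544)), (.ofNat (nat_lit 0))⟩,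
    ⟨nat_lit 2, nat_lit 0, nat_lit 1, (.ofNat (nat_lit 8)), (.negSucc (nat_lit 191365119)), (.ofNat (nat_lit 473028494698812103479032545280)), (.negSucc (nat_lit 19660799)), (.ofNat (nat_lit 48598817948508092823188275200)), (.negSucc (nat_lit 191365135)), (.negSucc (nat_lit 191365103)), (.negSucc (nat_lit 2471863705877079916543)), (.ofNat (nat_lit 2471863705877079916544)), (.negSucc (nat_lit 2471863705877079916543)), (.ofNat (nat_lit 2471863705877079916544)), (.ofNat (nat_lit 0))⟩,
    ⟨nat_lit 0, nat_lit 1, nat_lit 2, (.ofNat (nat_lit 8)), (.negSucc (nat_lit 104071167)), (.ofNat (nat_lit 688807246390188035613988487168)), (.negSucc (nat_lit 1835007)), (.ofNat (nat_lit 92661746221822096982878978048)), (.negSucc (nat_lit 104071183)), (.negSucc (nat_lit 104071151)), (.ofNat (nat_lit 2471863705877079916544)), (.negSucc (nat_lit 2471863705877079916543)), (.negSucc (nat_lit 2471863705877079916543)), (.ofNat (nat_lit 2471863705877079916544)), (.ofNat (nat_lit 0))⟩,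
    ⟨nat_lit 0, nat_lit 2, nat_lit 3, (.ofNat (nat_lit 8)), (.negSucc (nat_lit 16515071)), (.ofNat (nat_lit 472380510459498662241390034944)), (.ofNat (nat_lit 16252928)), (.ofNat (nat_lit 47950833709194651585545764864)), (.negSucc (nat_lit 16515087)), (.negSucc (nat_lit 16515055)), (.negSucc (nat_lit 2471863705877079916543)), (.ofNat (nat_lit 2471863705877079916544)), (.negSucc (nat_lit 2471863705877079916543)), (.ofNat (nat_lit 2471863705877079916544)), (.ofNat (nat_lit 0))⟩,
    ⟨nat_lit 1, nat_lit 3, nat_lit 4, (.ofNat (nat_lit 8)), (.ofNat (nat_lit 104595456)), (.ofNat (nat_lit 771749229022308514032229810176)), (.ofNat (nat_lit 18087936)), (.ofNat (nat_lit 52486723384388740249043337216)), (.ofNat (nat_lit 104595440)), (.ofNat (nat_lit 104595472)), (.ofNat (nat_lit 2471863705877079916544)), (.negSucc (nat_lit 2471863705877079916543)), (.negSucc (nat_lit 2471863705877079916543)), (.ofNat (nat_lit 2471863705877079916544)), (.ofNat (nat_lit 0))⟩,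
    ⟨nat_lit 0, nat_lit 5, nat_lit 4, (.ofNat (nat_lit 8)), (.negSucc (nat_lit 262143)), (.ofNat (nat_lit 1030942924747685009089233944576)), (.negSucc (nat_lit 262143)), (.ofNat (nat_lit 97845620136329626884019060736)), (.negSucc (nat_lit 262159)), (.negSucc (nat_lit 262127)), (.ofNat (nat_lit 2471863705877079916544)), (.negSucc (nat_lit 2471863705877079916543)), (.negSucc (nat_lit 2471863705877079916543)), (.ofNat (nat_lit 2471863705877079916544)), (.ofNat (nat_lit 0))⟩,
    ⟨nat_lit 2, nat_lit 6, nat_lit 5, (.ofNat (nat_lit 8)), (.negSucc (nat_lit 173015039)), (.ofNat (nat_lit 603921311040127233482819633152)), (.negSucc (nat_lit 2621439)), (.ofNat (nat_lit 92013761982508655745236467712)), (.negSucc (nat_lit 173015055)), (.negSucc (nat_lit 173015023)), (.negSucc (nat_lit 2471863705877079916543)), (.ofNat (nat_lit 2471863705877079916544)), (.negSucc (nat_lit 2471863705877079916543)), (.ofNat (nat_lit 2471863705877079916544)), (.ofNat (nat_lit 0))⟩,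
    ⟨nat_lit 1, nat_lit 25, nat_lit 6, (.ofNat (nat_lit 8)), (.negSucc (nat_lit 102760447)), (.ofNat (nat_lit 430261534904124981794626863104)), (.ofNat (nat_lit 15466496)), (.ofNat (nat_lit 47302849469881210347903254528)), (.negSucc (nat_lit 102760463)), (.negSucc (nat_lit 102760431)), (.ofNat (nat_lit 2471863705877079916544)), (.negSucc (nat_lit 2471863705877079916543)), (.negSucc (nat_lit 2471863705877079916543)), (.ofNat (nat_lit 2471863705877079916544)), (.ofNat (nat_lit 0))⟩,
    ⟨nat_lit 0, nat_lit 7, nat_lit 8, (.ofNat (nat_lit 8)), (.negSucc (nat_lit 34865151)), (.ofNat (nat_lit 688807246390188035613988487168)), (.negSucc (nat_lit 786431)), (.ofNat (nat_lit 92661746221822096982878978048)), (.negSucc (nat_lit 34865167)), (.negSucc (nat_lit 34865135)), (.ofNat (nat_lit 2471863705877079916544)), (.negSucc (nat_lit 2471863705877079916543)), (.negSucc (nat_lit 2471863705877079916543)), (.ofNat (nat_lit 2471863705877079916544)), (.ofNat (nat_lit 0))⟩,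
    ⟨nat_lit 0, nat_lit 8, nat_lit 9, (.ofNat (nat_lit 8)), (.ofNat (nat_lit 104595456)), (.ofNat (nat_lit 344079631075437297188172988416)), (.ofNat (nat_lit 18087936)), (.ofNat (nat_lit 46006880991254327872618233856)), (.ofNat (nat_lit 104595440)), (.ofNat (nat_lit 104595472)), (.negSucc (nat_lit 2471863705877079916543)), (.ofNat (nat_lit 2471863705877079916544)), (.negSucc (nat_lit 2471863705877079916543)), (.ofNat (nat_lit 2471863705877079916544)), (.ofNat (nat_lit 0))⟩,
    ⟨nat_lit 1, nat_lit 9, nat_lit 10, (.ofNat (nat_lit 8)), (.ofNat (nat_lit 173801472)), (.ofNat (nat_lit 515147470254185783925795717120)), (.ofNat (nat_lit 19136512)), (.ofNat (nat_lit 48598817948508092823188275200)), (.ofNat (nat_lit 173801456)), (.ofNat (nat_lit 173801488)), (.ofNat (nat_lit 2471863705877079916544)), (.negSucc (nat_lit 2471863705877079916543)), (.negSucc (nat_lit 2471863705877079916543)), (.ofNat (nat_lit 2471863705877079916544)), (.ofNat (nat_lit 0))⟩,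
    ⟨nat_lit 0, nat_lit 11, nat_lit 10, (.ofNat (nat_lit 8)), (.ofNat (nat_lit 121896960)), (.ofNat (nat_lit 643448349638247148979012763648)), (.ofNat (nat_lit 18350080)), (.ofNat (nat_lit 50542770666448416536115806208)), (.ofNat (nat_lit 121896944)), (.ofNat (nat_lit 121896976)), (.ofNat (nat_lit 2471863705877079916544)), (.negSucc (nat_lit 2471863705877079916543)), (.negSucc (nat_lit 2471863705877079916543)), (.ofNat (nat_lit 2471863705877079916544)), (.ofNat (nat_lit 0))⟩,
    ⟨nat_lit 2, nat_lit 12, nat_lit 11, (.ofNat (nat_lit 8)), (.ofNat (nat_lit 87293952)), (.ofNat (nat_lit 557914430048872905610201399296)), (.ofNat (nat_lit 17825792)), (.ofNat (nat_lit 49246802187821534060830785536)), (.ofNat (nat_lit 87293936)), (.ofNat (nat_lit 87293968)), (.negSucc (nat_lit 2471863705877079916543)), (.ofNat (nat_lit 2471863705877079916544)), (.negSucc (nat_lit 2471863705877079916543)), (.ofNat (nat_lit 2471863705877079916544)), (.ofNat (nat_lit 0))⟩,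
    ⟨nat_lit 1, nat_lit 13, nat_lit 12, (.ofNat (nat_lit 8)), (.ofNat (nat_lit 156499968)), (.ofNat (nat_lit 386846590870124418872578670592)), (.ofNat (nat_lit 18874368)), (.ofNat (nat_lit 46654865230567769110260744192)), (.ofNat (nat_lit 156499952)), (.ofNat (nat_lit 156499984)), (.ofNat (nat_lit 2471863705877079916544)), (.negSucc (nat_lit 2471863705877079916543)), (.negSucc (nat_lit 2471863705877079916543)), (.ofNat (nat_lit 2471863705877079916544)), (.ofNat (nat_lit 0))⟩,
    ⟨nat_lit 0, nat_lit 14, nat_lit 13, (.ofNat (nat_lit 8)), (.ofNat (nat_lit 104595456)), (.ofNat (nat_lit 258545711486063053819361624064)), (.ofNat (nat_lit 18087936)), (.ofNat (nat_lit 44710912512627445397333213184)), (.ofNat (nat_lit 104595440)), (.ofNat (nat_lit 104595472)), (.negSucc (nat_lit 2471863705877079916543)), (.ofNat (nat_lit 2471863705877079916544)), (.negSucc (nat_lit 2471863705877079916543)), (.ofNat (nat_lit 2471863705877079916544)), (.ofNat (nat_lit 0))⟩,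
    ⟨nat_lit 0, nat_lit 15, nat_lit 14, (.ofNat (nat_lit 8)), (.negSucc (nat_lit 33554431)), (.ofNat (nat_lit 600033405604246586056964571136)), (.negSucc (nat_lit 786431)), (.ofNat (nat_lit 91365777743195214507593957376)), (.negSucc (nat_lit 33554447)), (.negSucc (nat_lit 33554415)), (.ofNat (nat_lit 2471863705877079916544)), (.negSucc (nat_lit 2471863705877079916543)), (.negSucc (nat_lit 2471863705877079916543)), (.ofNat (nat_lit 2471863705877079916544)), (.ofNat (nat_lit 0))⟩,
    ⟨nat_lit 2, nat_lit 16, nat_lit 15, (.ofNat (nat_lit 8)), (.negSucc (nat_lit 102236159)), (.ofNat (nat_lit 430261534904124981794626863104)), (.negSucc (nat_lit 18350079)), (.ofNat (nat_lit 47950833709194651585545764864)), (.negSucc (nat_lit 102236175)), (.negSucc (nat_lit 102236143)), (.negSucc (nat_lit 2471863705877079916543)), (.ofNat (nat_lit 2471863705877079916544)), (.negSucc (nat_lit 2471863705877079916543)), (.ofNat (nat_lit 2471863705877079916544)), (.ofNat (nat_lit 0))⟩,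
    ⟨nat_lit 0, nat_lit 16, nat_lit 17, (.ofNat (nat_lit 8)), (.negSucc (nat_lit 15990783)), (.ofNat (nat_lit 217074720170002814610240962560)), (.negSucc (nat_lit 262143)), (.ofNat (nat_lit 3239921196567206188212551680)), (.negSucc (nat_lit 15990799)), (.negSucc (nat_lit 15990767)), (.negSucc (nat_lit 2471863705877079916543)), (.ofNat (nat_lit 2471863705877079916544)), (.negSucc (nat_lit 2471863705877079916543)), (.ofNat (nat_lit 2471863705877079916544)), (.ofNat (nat_lit 0))⟩,
    ⟨nat_lit 1, nat_lit 17, nat_lit 18, (.ofNat (nat_lit 8)), (.ofNat (nat_lit 121896960)), (.ofNat (nat_lit 557914430048872905610201399296)), (.ofNat (nat_lit 18350080)), (.ofNat (nat_lit 49246802187821534060830785536)), (.ofNat (nat_lit 121896944)), (.ofNat (nat_lit 121896976)), (.ofNat (nat_lit 2471863705877079916544)), (.negSucc (nat_lit 2471863705877079916543)), (.negSucc (nat_lit 2471863705877079916543)), (.ofNat (nat_lit 2471863705877079916544)), (.ofNat (nat_lit 0))⟩,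
    ⟨nat_lit 0, nat_lit 19, nat_lit 18, (.ofNat (nat_lit 8)), (.ofNat (nat_lit 87293952)), (.ofNat (nat_lit 643448349638247148979012763648)), (.ofNat (nat_lit 17825792)), (.ofNat (nat_lit 50542770666448416536115806208)), (.ofNat (nat_lit 87293936)), (.ofNat (nat_lit 87293968)), (.ofNat (nat_lit 2471863705877079916544)), (.negSucc (nat_lit 2471863705877079916543)), (.negSucc (nat_lit 2471863705877079916543)), (.ofNat (nat_lit 2471863705877079916544)), (.ofNat (nat_lit 0))⟩,
    ⟨nat_lit 0, nat_lit 20, nat_lit 19, (.ofNat (nat_lit 8)), (.negSucc (nat_lit 16515071)), (.ofNat (nat_lit 386846590870124418872578670592)), (.ofNat (nat_lit 16252928)), (.ofNat (nat_lit 46654865230567769110260744192)), (.negSucc (nat_lit 16515087)), (.negSucc (nat_lit 16515055)), (.negSucc (nat_lit 2471863705877079916543)), (.ofNat (nat_lit 2471863705877079916544)), (.negSucc (nat_lit 2471863705877079916543)), (.ofNat (nat_lit 2471863705877079916544)), (.ofNat (nat_lit 0))⟩,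
    ⟨nat_lit 2, nat_lit 20, nat_lit 21, (.ofNat (nat_lit 8)), (.negSucc (nat_lit 104071167)), (.ofNat (nat_lit 603273326800813792245177122816)), (.negSucc (nat_lit 1835007)), (.ofNat (nat_lit 91365777743195214507593957376)), (.negSucc (nat_lit 104071183)), (.negSucc (nat_lit 104071151)), (.negSucc (nat_lit 2471863705877079916543)), (.ofNat (nat_lit 2471863705877079916544)), (.negSucc (nat_lit 2471863705877079916543)), (.ofNat (nat_lit 2471863705877079916544)), (.ofNat (nat_lit 0))⟩,
    ⟨nat_lit 0, nat_lit 21, nat_lit 22, (.ofNat (nat_lit 8)), (.negSucc (nat_lit 34865151)), (.ofNat (nat_lit 774341165979562278982799851520)), (.negSucc (nat_lit 786431)), (.ofNat (nat_lit 93957714700448979458163998720)), (.negSucc (nat_lit 34865167)), (.negSucc (nat_lit 34865135)), (.ofNat (nat_lit 2471863705877079916544)), (.negSucc (nat_lit 2471863705877079916543)), (.negSucc (nat_lit 2471863705877079916543)), (.ofNat (nat_lit 2471863705877079916544)), (.ofNat (nat_lit 0))⟩,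
    ⟨nat_lit 1, nat_lit 23, nat_lit 22, (.ofNat (nat_lit 8)), (.ofNat (nat_lit 104595456)), (.ofNat (nat_lit 429613550664811540556984352768)), (.ofNat (nat_lit 18087936)), (.ofNat (nat_lit 47302849469881210347903254528)), (.ofNat (nat_lit 104595440)), (.ofNat (nat_lit 104595472)), (.ofNat (nat_lit 2471863705877079916544)), (.negSucc (nat_lit 2471863705877079916543)), (.negSucc (nat_lit 2471863705877079916543)), (.ofNat (nat_lit 2471863705877079916544)), (.ofNat (nat_lit 0))⟩,
    ⟨nat_lit 2, nat_lit 24, nat_lit 7, (.ofNat (nat_lit 8)), (.negSucc (nat_lit 139198463)), (.ofNat (nat_lit 430909519143438423032269373440)), (.negSucc (nat_lit 18874367)), (.ofNat (nat_lit 47950833709194651585545764864)), (.negSucc (nat_lit 139198479)), (.negSucc (nat_lit 139198447)), (.negSucc (nat_lit 2471863705877079916543)), (.ofNat (nat_lit 2471863705877079916544)), (.negSucc (nat_lit 2471863705877079916543)), (.ofNat (nat_lit 2471863705877079916544)), (.ofNat (nat_lit 0))⟩,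
    ⟨nat_lit 0, nat_lit 24, nat_lit 25, (.ofNat (nat_lit 8)), (.negSucc (nat_lit 120848383)), (.ofNat (nat_lit 385550622391497536397293649920)), (.negSucc (nat_lit 1572863)), (.ofNat (nat_lit 5183873914507529901140082688)), (.negSucc (nat_lit 120848399)), (.negSucc (nat_lit 120848367)), (.negSucc (nat_lit 2471863705877079916543)), (.ofNat (nat_lit 2471863705877079916544)), (.negSucc (nat_lit 2471863705877079916543)), (.ofNat (nat_lit 2471863705877079916544)), (.ofNat (nat_lit 0))⟩]
  es := [
    ⟨nat_lit 1, nat_lit 0, (.negSucc (nat_lit 191365119)), (.negSucc (nat_lit 34603007)), (.negSucc (nat_lit 191365103)), (.negSucc (nat_lit 34603023)), (.negSucc (nat_lit 2471863705877079916543)), (.ofNat (nat_lit 0)), (.ofNat (nat_lit 0))⟩,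
    ⟨nat_lit 1, nat_lit 2, (.negSucc (nat_lit 191365119)), (.negSucc (nat_lit 104071167)), (.negSucc (nat_lit 191365103)), (.negSucc (nat_lit 104071183)), (.ofNat (nat_lit 2471863705877079916544)), (.ofNat (nat_lit 0)), (.ofNat (nat_lit 97197635897016185646376550400))⟩,
    ⟨nat_lit 2, nat_lit 3, (.negSucc (nat_lit 104071167)), (.negSucc (nat_lit 16515071)), (.negSucc (nat_lit 104071151)), (.negSucc (nat_lit 16515087)), (.negSucc (nat_lit 2471863705877079916543)), (.ofNat (nat_lit 0)), (.ofNat (nat_lit 88125856546628008319381405696))⟩,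
    ⟨nat_lit 3, nat_lit 4, (.negSucc (nat_lit 16515071)), (.ofNat (nat_lit 104595456)), (.negSucc (nat_lit 16515055)), (.ofNat (nat_lit 104595440)), (.ofNat (nat_lit 2471863705877079916544)), (.ofNat (nat_lit 0)), (.ofNat (nat_lit 7775810871761294851710124032))⟩,
    ⟨nat_lit 5, nat_lit 4, (.negSucc (nat_lit 262143)), (.ofNat (nat_lit 104595456)), (.negSucc (nat_lit 262127)), (.ofNat (nat_lit 104595440)), (.negSucc (nat_lit 2471863705877079916543)), (.ofNat (nat_lit 0)), (.ofNat (nat_lit 97197635897016185646376550400))⟩,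
    ⟨nat_lit 6, nat_lit 5, (.negSucc (nat_lit 173015039)), (.negSucc (nat_lit 262143)), (.negSucc (nat_lit 173015023)), (.negSucc (nat_lit 262159)), (.ofNat (nat_lit 2471863705877079916544)), (.ofNat (nat_lit 0)), (.ofNat (nat_lit 98493604375643068121661571072))⟩,
    ⟨nat_lit 6, nat_lit 7, (.negSucc (nat_lit 173015039)), (.negSucc (nat_lit 102760447)), (.negSucc (nat_lit 173015023)), (.negSucc (nat_lit 102760463)), (.negSucc (nat_lit 2471863705877079916543)), (.ofNat (nat_lit 0)), (.ofNat (nat_lit 85533919589374243368811364352))⟩,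
    ⟨nat_lit 24, nat_lit 8, (.negSucc (nat_lit 139198463)), (.negSucc (nat_lit 34865151)), (.negSucc (nat_lit 139198447)), (.negSucc (nat_lit 34865167)), (.ofNat (nat_lit 2471863705877079916544)), (.ofNat (nat_lit 0)), (.ofNat (nat_lit 94605698939762420695806509056))⟩,
    ⟨nat_lit 8, nat_lit 9, (.negSucc (nat_lit 34865151)), (.ofNat (nat_lit 104595456)), (.negSucc (nat_lit 34865135)), (.ofNat (nat_lit 104595440)), (.negSucc (nat_lit 2471863705877079916543)), (.ofNat (nat_lit 0)), (.ofNat (nat_lit 90717793503881773269951447040))⟩,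
    ⟨nat_lit 9, nat_lit 10, (.ofNat (nat_lit 104595456)), (.ofNat (nat_lit 173801472)), (.ofNat (nat_lit 104595472)), (.ofNat (nat_lit 173801456)), (.ofNat (nat_lit 2471863705877079916544)), (.ofNat (nat_lit 0)), (.ofNat (nat_lit 1295968478626882475285020672))⟩,
    ⟨nat_lit 11, nat_lit 10, (.ofNat (nat_lit 121896960)), (.ofNat (nat_lit 173801472)), (.ofNat (nat_lit 121896976)), (.ofNat (nat_lit 173801456)), (.negSucc (nat_lit 2471863705877079916543)), (.ofNat (nat_lit 0)), (.ofNat (nat_lit 95901667418389303171091529728))⟩,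
    ⟨nat_lit 12, nat_lit 11, (.ofNat (nat_lit 87293952)), (.ofNat (nat_lit 121896960)), (.ofNat (nat_lit 87293968)), (.ofNat (nat_lit 121896944)), (.ofNat (nat_lit 2471863705877079916544)), (.ofNat (nat_lit 0)), (.ofNat (nat_lit 5183873914507529901140082688))⟩,
    ⟨nat_lit 12, nat_lit 13, (.ofNat (nat_lit 87293952)), (.ofNat (nat_lit 156499968)), (.ofNat (nat_lit 87293968)), (.ofNat (nat_lit 156499952)), (.negSucc (nat_lit 2471863705877079916543)), (.ofNat (nat_lit 0)), (.ofNat (nat_lit 93309730461135538220521488384))⟩,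
    ⟨nat_lit 14, nat_lit 13, (.ofNat (nat_lit 104595456)), (.ofNat (nat_lit 156499968)), (.ofNat (nat_lit 104595472)), (.ofNat (nat_lit 156499952)), (.ofNat (nat_lit 2471863705877079916544)), (.ofNat (nat_lit 0)), (.ofNat (nat_lit 0))⟩,
    ⟨nat_lit 15, nat_lit 14, (.negSucc (nat_lit 33554431)), (.ofNat (nat_lit 104595456)), (.negSucc (nat_lit 33554415)), (.ofNat (nat_lit 104595440)), (.negSucc (nat_lit 2471863705877079916543)), (.ofNat (nat_lit 0)), (.ofNat (nat_lit 89421825025254890794666426368))⟩,
    ⟨nat_lit 16, nat_lit 15, (.negSucc (nat_lit 102236159)), (.negSucc (nat_lit 33554431)), (.negSucc (nat_lit 102236143)), (.negSucc (nat_lit 33554447)), (.ofNat (nat_lit 2471863705877079916544)), (.ofNat (nat_lit 0)), (.ofNat (nat_lit 93309730461135538220521488384))⟩,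
    ⟨nat_lit 16, nat_lit 17, (.negSucc (nat_lit 102236159)), (.negSucc (nat_lit 15990783)), (.negSucc (nat_lit 102236143)), (.negSucc (nat_lit 15990799)), (.negSucc (nat_lit 2471863705877079916543)), (.ofNat (nat_lit 0)), (.ofNat (nat_lit 2591936957253764950570041344))⟩,
    ⟨nat_lit 17, nat_lit 18, (.negSucc (nat_lit 15990783)), (.ofNat (nat_lit 121896960)), (.negSucc (nat_lit 15990767)), (.ofNat (nat_lit 121896944)), (.ofNat (nat_lit 2471863705877079916544)), (.ofNat (nat_lit 0)), (.ofNat (nat_lit 3887905435880647425855062016))⟩,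
    ⟨nat_lit 19, nat_lit 18, (.ofNat (nat_lit 87293952)), (.ofNat (nat_lit 121896960)), (.ofNat (nat_lit 87293968)), (.ofNat (nat_lit 121896944)), (.negSucc (nat_lit 2471863705877079916543)), (.ofNat (nat_lit 0)), (.ofNat (nat_lit 94605698939762420695806509056))⟩,
    ⟨nat_lit 20, nat_lit 19, (.negSucc (nat_lit 16515071)), (.ofNat (nat_lit 87293952)), (.negSucc (nat_lit 16515055)), (.ofNat (nat_lit 87293936)), (.ofNat (nat_lit 2471863705877079916544)), (.ofNat (nat_lit 0)), (.ofNat (nat_lit 6479842393134412376425103360))⟩,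
    ⟨nat_lit 21, nat_lit 20, (.negSucc (nat_lit 104071167)), (.negSucc (nat_lit 16515071)), (.negSucc (nat_lit 104071151)), (.negSucc (nat_lit 16515087)), (.negSucc (nat_lit 2471863705877079916543)), (.ofNat (nat_lit 0)), (.ofNat (nat_lit 86829888068001125844096385024))⟩,
    ⟨nat_lit 21, nat_lit 22, (.negSucc (nat_lit 104071167)), (.negSucc (nat_lit 34865151)), (.negSucc (nat_lit 104071151)), (.negSucc (nat_lit 34865167)), (.ofNat (nat_lit 2471863705877079916544)), (.ofNat (nat_lit 0)), (.ofNat (nat_lit 95901667418389303171091529728))⟩,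
    ⟨nat_lit 22, nat_lit 23, (.negSucc (nat_lit 34865151)), (.ofNat (nat_lit 104595456)), (.negSucc (nat_lit 34865135)), (.ofNat (nat_lit 104595440)), (.negSucc (nat_lit 2471863705877079916543)), (.ofNat (nat_lit 0)), (.ofNat (nat_lit 92013761982508655745236467712))⟩,
    ⟨nat_lit 0, nat_lit 23, (.negSucc (nat_lit 34603007)), (.ofNat (nat_lit 104595456)), (.negSucc (nat_lit 34602991)), (.ofNat (nat_lit 104595440)), (.ofNat (nat_lit 2471863705877079916544)), (.ofNat (nat_lit 0)), (.ofNat (nat_lit 2591936957253764950570041344))⟩,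
    ⟨nat_lit 24, nat_lit 25, (.negSucc (nat_lit 139198463)), (.negSucc (nat_lit 120848383)), (.negSucc (nat_lit 139198447)), (.negSucc (nat_lit 120848399)), (.negSucc (nat_lit 2471863705877079916543)), (.ofNat (nat_lit 0)), (.ofNat (nat_lit 1295968478626882475285020672))⟩,
    ⟨nat_lit 25, nat_lit 7, (.negSucc (nat_lit 120848383)), (.negSucc (nat_lit 102760447)), (.negSucc (nat_lit 120848367)), (.negSucc (nat_lit 102760463)), (.ofNat (nat_lit 2471863705877079916544)), (.ofNat (nat_lit 0)), (.ofNat (nat_lit 9071779350388177326995144704))⟩]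

theorem ok11 : stOK 25 25 S11 = true := by decide +kernel

def S12 : SD where
  vs := [
    ⟨nat_lit 0, nat_lit 0, nat_lit 23, (.ofNat (nat_lit 8)), (.negSucc (nat_lit 33816575)), (.ofNat (nat_lit 80998029914180154705313792000)), (.ofNat (nat_lit 786432)), (.negSucc (nat_lit 4535889675194088663497572351)), (.negSucc (nat_lit 33816591)), (.negSucc (nat_lit 33816559)), (.negSucc (nat_lit 2471863705877079916543)), (.ofNat (nat_lit 2471863705877079916544)), (.negSucc (nat_lit 2471863705877079916543)), (.ofNat (nat_lit 2471863705877079916544)), (.ofNat (nat_lit 0))⟩,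
    ⟨nat_lit 2, nat_lit 0, nat_lit 1, (.ofNat (nat_lit 8)), (.negSucc (nat_lit 192806911)), (.ofNat (nat_lit 474000471057782265335496310784)), (.negSucc (nat_lit 1441791)), (.ofNat (nat_lit 971976358970161856463765504)), (.negSucc (nat_lit 192806927)), (.negSucc (nat_lit 192806895)), (.negSucc (nat_lit 2471863705877079916543)), (.ofNat (nat_lit 2471863705877079916544)), (.negSucc (nat_lit 2471863705877079916543)), (.ofNat (nat_lit 2471863705877079916544)), (.ofNat (nat_lit 0))⟩,
    ⟨nat_lit 0, nat_lit 1, nat_lit 2, (.ofNat (nat_lit 8)), (.negSucc (nat_lit 104333311)), (.ofNat (nat_lit 692695151826068683039843549184)), (.negSucc (nat_lit 262143)), (.ofNat (nat_lit 3887905435880647425855062016)), (.negSucc (nat_lit 104333327)), (.negSucc (nat_lit 104333295)), (.ofNat (nat_lit 2471863705877079916544)), (.negSucc (nat_lit 2471863705877079916543)), (.negSucc (nat_lit 2471863705877079916543)), (.ofNat (nat_lit 2471863705877079916544)), (.ofNat (nat_lit 0))⟩,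
    ⟨nat_lit 0, nat_lit 2, nat_lit 3, (.ofNat (nat_lit 8)), (.negSucc (nat_lit 15597567)), (.ofNat (nat_lit 473352486818468824097853800448)), (.ofNat (nat_lit 917504)), (.ofNat (nat_lit 971976358970161856463765504)), (.negSucc (nat_lit 15597583)), (.negSucc (nat_lit 15597551)), (.negSucc (nat_lit 2471863705877079916543)), (.ofNat (nat_lit 2471863705877079916544)), (.negSucc (nat_lit 2471863705877079916543)), (.ofNat (nat_lit 2471863705877079916544)), (.ofNat (nat_lit 0))⟩,
    ⟨nat_lit 1, nat_lit 3, nat_lit 4, (.ofNat (nat_lit 8)), (.ofNat (nat_lit 107347968)), (.ofNat (nat_lit 777257095056472764552191148032)), (.ofNat (nat_lit 2752512)), (.ofNat (nat_lit 5507866034164250519961337856)), (.ofNat (nat_lit 107347952)), (.ofNat (nat_lit 107347984)), (.ofNat (nat_lit 2471863705877079916544)), (.negSucc (nat_lit 2471863705877079916543)), (.negSucc (nat_lit 2471863705877079916543)), (.ofNat (nat_lit 2471863705877079916544)), (.ofNat (nat_lit 0))⟩,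
    ⟨nat_lit 0, nat_lit 5, nat_lit 4, (.ofNat (nat_lit 8)), (.ofNat (nat_lit 1048576)), (.ofNat (nat_lit 1040014704098073186416229089280)), (.ofNat (nat_lit 1310720)), (.ofNat (nat_lit 9071779350388177326995144704)), (.ofNat (nat_lit 1048560)), (.ofNat (nat_lit 1048592)), (.ofNat (nat_lit 2471863705877079916544)), (.negSucc (nat_lit 2471863705877079916543)), (.negSucc (nat_lit 2471863705877079916543)), (.ofNat (nat_lit 2471863705877079916544)), (.ofNat (nat_lit 0))⟩,
    ⟨nat_lit 2, nat_lit 6, nat_lit 5, (.ofNat (nat_lit 8)), (.negSucc (nat_lit 174063615)), (.ofNat (nat_lit 607161232236694439671032184832)), (.negSucc (nat_lit 1048575)), (.ofNat (nat_lit 3239921196567206188212551680)), (.negSucc (nat_lit 174063631)), (.negSucc (nat_lit 174063599)), (.negSucc (nat_lit 2471863705877079916543)), (.ofNat (nat_lit 2471863705877079916544)), (.negSucc (nat_lit 2471863705877079916543)), (.ofNat (nat_lit 2471863705877079916544)), (.ofNat (nat_lit 0))⟩,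
    ⟨nat_lit 1, nat_lit 25, nat_lit 6, (.ofNat (nat_lit 8)), (.negSucc (nat_lit 102629375)), (.ofNat (nat_lit 430585527023781702413448118272)), (.ofNat (nat_lit 131072)), (.ofNat (nat_lit 323992119656720618821255168)), (.negSucc (nat_lit 102629391)), (.negSucc (nat_lit 102629359)), (.ofNat (nat_lit 2471863705877079916544)), (.negSucc (nat_lit 2471863705877079916543)), (.negSucc (nat_lit 2471863705877079916543)), (.ofNat (nat_lit 2471863705877079916544)), (.ofNat (nat_lit 0))⟩,
    ⟨nat_lit 0, nat_lit 7, nat_lit 8, (.ofNat (nat_lit 8)), (.negSucc (nat_lit 34078719)), (.ofNat (nat_lit 692695151826068683039843549184)), (.ofNat (nat_lit 786432)), (.ofNat (nat_lit 3887905435880647425855062016)), (.negSucc (nat_lit 34078735)), (.negSucc (nat_lit 34078703)), (.ofNat (nat_lit 2471863705877079916544)), (.negSucc (nat_lit 2471863705877079916543)), (.negSucc (nat_lit 2471863705877079916543)), (.ofNat (nat_lit 2471863705877079916544)), (.ofNat (nat_lit 0))⟩,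
    ⟨nat_lit 0, nat_lit 8, nat_lit 9, (.ofNat (nat_lit 8)), (.ofNat (nat_lit 107347968)), (.ofNat (nat_lit 343107654716467135331709222912)), (.ofNat (nat_lit 2752512)), (.negSucc (nat_lit 971976358970161856463765503)), (.ofNat (nat_lit 107347952)), (.ofNat (nat_lit 107347984)), (.negSucc (nat_lit 2471863705877079916543)), (.ofNat (nat_lit 2471863705877079916544)), (.negSucc (nat_lit 2471863705877079916543)), (.ofNat (nat_lit 2471863705877079916544)), (.ofNat (nat_lit 0))⟩,
    ⟨nat_lit 1, nat_lit 9, nat_lit 10, (.ofNat (nat_lit 8)), (.ofNat (nat_lit 177602560)), (.ofNat (nat_lit 516767430852469387019901992960)), (.ofNat (nat_lit 3801088)), (.ofNat (nat_lit 1619960598283603094106275840)), (.ofNat (nat_lit 177602544)), (.ofNat (nat_lit 177602576)), (.ofNat (nat_lit 2471863705877079916544)), (.negSucc (nat_lit 2471863705877079916543)), (.negSucc (nat_lit 2471863705877079916543)), (.ofNat (nat_lit 2471863705877079916544)), (.ofNat (nat_lit 0))⟩,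
    ⟨nat_lit 0, nat_lit 11, nat_lit 10, (.ofNat (nat_lit 8)), (.ofNat (nat_lit 124911616)), (.ofNat (nat_lit 647012262954471075786046570496)), (.ofNat (nat_lit 3014656)), (.ofNat (nat_lit 3563913316223926807033806848)), (.ofNat (nat_lit 124911600)), (.ofNat (nat_lit 124911632)), (.ofNat (nat_lit 2471863705877079916544)), (.negSucc (nat_lit 2471863705877079916543)), (.negSucc (nat_lit 2471863705877079916543)), (.ofNat (nat_lit 2471863705877079916544)), (.ofNat (nat_lit 0))⟩,
    ⟨nat_lit 2, nat_lit 12, nat_lit 11, (.ofNat (nat_lit 8)), (.ofNat (nat_lit 89784320)), (.ofNat (nat_lit 560182374886469949941950185472)), (.ofNat (nat_lit 2490368)), (.ofNat (nat_lit 2267944837597044331748786176)), (.ofNat (nat_lit 89784304)), (.ofNat (nat_lit 89784336)), (.negSucc (nat_lit 2471863705877079916543)), (.ofNat (nat_lit 2471863705877079916544)), (.negSucc (nat_lit 2471863705877079916543)), (.ofNat (nat_lit 2471863705877079916544)), (.ofNat (nat_lit 0))⟩,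
    ⟨nat_lit 1, nat_lit 13, nat_lit 12, (.ofNat (nat_lit 8)), (.ofNat (nat_lit 160038912)), (.ofNat (nat_lit 386522598750467698253757415424)), (.ofNat (nat_lit 3538944)), (.negSucc (nat_lit 323992119656720618821255167)), (.ofNat (nat_lit 160038896)), (.ofNat (nat_lit 160038928)), (.ofNat (nat_lit 2471863705877079916544)), (.negSucc (nat_lit 2471863705877079916543)), (.negSucc (nat_lit 2471863705877079916543)), (.ofNat (nat_lit 2471863705877079916544)), (.ofNat (nat_lit 0))⟩,
    ⟨nat_lit 0, nat_lit 14, nat_lit 13, (.ofNat (nat_lit 8)), (.ofNat (nat_lit 107347968)), (.ofNat (nat_lit 256277766648466009487612837888)), (.ofNat (nat_lit 2752512)), (.negSucc (nat_lit 2267944837597044331748786175)), (.ofNat (nat_lit 107347952)), (.ofNat (nat_lit 107347984)), (.negSucc (nat_lit 2471863705877079916543)), (.ofNat (nat_lit 2471863705877079916544)), (.negSucc (nat_lit 2471863705877079916543)), (.ofNat (nat_lit 2471863705877079916544)), (.ofNat (nat_lit 0))⟩,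
    ⟨nat_lit 0, nat_lit 15, nat_lit 14, (.ofNat (nat_lit 8)), (.negSucc (nat_lit 32767999)), (.ofNat (nat_lit 602625342561500351007534612480)), (.ofNat (nat_lit 786432)), (.ofNat (nat_lit 2591936957253764950570041344)), (.negSucc (nat_lit 32768015)), (.negSucc (nat_lit 32767983)), (.ofNat (nat_lit 2471863705877079916544)), (.negSucc (nat_lit 2471863705877079916543)), (.negSucc (nat_lit 2471863705877079916543)), (.ofNat (nat_lit 2471863705877079916544)), (.ofNat (nat_lit 0))⟩,
    ⟨nat_lit 2, nat_lit 16, nat_lit 15, (.ofNat (nat_lit 8)), (.negSucc (nat_lit 102367231)), (.ofNat (nat_lit 430585527023781702413448118272)), (.negSucc (nat_lit 131071)), (.ofNat (nat_lit 323992119656720618821255168)), (.negSucc (nat_lit 102367247)), (.negSucc (nat_lit 102367215)), (.negSucc (nat_lit 2471863705877079916543)), (.ofNat (nat_lit 2471863705877079916544)), (.negSucc (nat_lit 2471863705877079916543)), (.ofNat (nat_lit 2471863705877079916544)), (.ofNat (nat_lit 0))⟩,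
    ⟨nat_lit 0, nat_lit 16, nat_lit 17, (.ofNat (nat_lit 8)), (.negSucc (nat_lit 14942207)), (.ofNat (nat_lit 214482783212749049659670921216)), (.ofNat (nat_lit 1048576)), (.negSucc (nat_lit 2591936957253764950570041343)), (.negSucc (nat_lit 14942223)), (.negSucc (nat_lit 14942191)), (.negSucc (nat_lit 2471863705877079916543)), (.ofNat (nat_lit 2471863705877079916544)), (.negSucc (nat_lit 2471863705877079916543)), (.ofNat (nat_lit 2471863705877079916544)), (.ofNat (nat_lit 0))⟩,
    ⟨nat_lit 1, nat_lit 17, nat_lit 18, (.ofNat (nat_lit 8)), (.ofNat (nat_lit 124911616)), (.ofNat (nat_lit 560182374886469949941950185472)), (.ofNat (nat_lit 3014656)), (.ofNat (nat_lit 2267944837597044331748786176)), (.ofNat (nat_lit 124911600)), (.ofNat (nat_lit 124911632)), (.ofNat (nat_lit 2471863705877079916544)), (.negSucc (nat_lit 2471863705877079916543)), (.negSucc (nat_lit 2471863705877079916543)), (.ofNat (nat_lit 2471863705877079916544)), (.ofNat (nat_lit 0))⟩,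
    ⟨nat_lit 0, nat_lit 19, nat_lit 18, (.ofNat (nat_lit 8)), (.ofNat (nat_lit 89784320)), (.ofNat (nat_lit 647012262954471075786046570496)), (.ofNat (nat_lit 2490368)), (.ofNat (nat_lit 3563913316223926807033806848)), (.ofNat (nat_lit 89784304)), (.ofNat (nat_lit 89784336)), (.ofNat (nat_lit 2471863705877079916544)), (.negSucc (nat_lit 2471863705877079916543)), (.negSucc (nat_lit 2471863705877079916543)), (.ofNat (nat_lit 2471863705877079916544)), (.ofNat (nat_lit 0))⟩,
    ⟨nat_lit 0, nat_lit 20, nat_lit 19, (.ofNat (nat_lit 8)), (.negSucc (nat_lit 15597567)), (.ofNat (nat_lit 386522598750467698253757415424)), (.ofNat (nat_lit 917504)), (.negSucc (nat_lit 323992119656720618821255167)), (.negSucc (nat_lit 15597583)), (.negSucc (nat_lit 15597551)), (.negSucc (nat_lit 2471863705877079916543)), (.ofNat (nat_lit 2471863705877079916544)), (.negSucc (nat_lit 2471863705877079916543)), (.ofNat (nat_lit 2471863705877079916544)), (.ofNat (nat_lit 0))⟩,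
    ⟨nat_lit 2, nat_lit 20, nat_lit 21, (.ofNat (nat_lit 8)), (.negSucc (nat_lit 104333311)), (.ofNat (nat_lit 605865263758067557195747164160)), (.negSucc (nat_lit 262143)), (.ofNat (nat_lit 2591936957253764950570041344)), (.negSucc (nat_lit 104333327)), (.negSucc (nat_lit 104333295)), (.negSucc (nat_lit 2471863705877079916543)), (.ofNat (nat_lit 2471863705877079916544)), (.negSucc (nat_lit 2471863705877079916543)), (.ofNat (nat_lit 2471863705877079916544)), (.ofNat (nat_lit 0))⟩,
    ⟨nat_lit 0, nat_lit 21, nat_lit 22, (.ofNat (nat_lit 8)), (.negSucc (nat_lit 34078719)), (.ofNat (nat_lit 779525039894069808883939934208)), (.ofNat (nat_lit 786432)), (.ofNat (nat_lit 5183873914507529901140082688)), (.negSucc (nat_lit 34078735)), (.negSucc (nat_lit 34078703)), (.ofNat (nat_lit 2471863705877079916544)), (.negSucc (nat_lit 2471863705877079916543)), (.negSucc (nat_lit 2471863705877079916543)), (.ofNat (nat_lit 2471863705877079916544)), (.ofNat (nat_lit 0))⟩,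
    ⟨nat_lit 1, nat_lit 23, nat_lit 22, (.ofNat (nat_lit 8)), (.ofNat (nat_lit 107347968)), (.ofNat (nat_lit 429937542784468261175805607936)), (.ofNat (nat_lit 2752512)), (.ofNat (nat_lit 323992119656720618821255168)), (.ofNat (nat_lit 107347952)), (.ofNat (nat_lit 107347984)), (.ofNat (nat_lit 2471863705877079916544)), (.negSucc (nat_lit 2471863705877079916543)), (.negSucc (nat_lit 2471863705877079916543)), (.ofNat (nat_lit 2471863705877079916544)), (.ofNat (nat_lit 0))⟩,
    ⟨nat_lit 2, nat_lit 24, nat_lit 7, (.ofNat (nat_lit 8)), (.negSucc (nat_lit 139853823)), (.ofNat (nat_lit 431233511263095143651090628608)), (.negSucc (nat_lit 655359)), (.ofNat (nat_lit 323992119656720618821255168)), (.negSucc (nat_lit 139853839)), (.negSucc (nat_lit 139853807)), (.negSucc (nat_lit 2471863705877079916543)), (.ofNat (nat_lit 2471863705877079916544)), (.negSucc (nat_lit 2471863705877079916543)), (.ofNat (nat_lit 2471863705877079916544)), (.ofNat (nat_lit 0))⟩,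
    ⟨nat_lit 0, nat_lit 24, nat_lit 25, (.ofNat (nat_lit 8)), (.negSucc (nat_lit 121110527)), (.ofNat (nat_lit 384902638152184095159651139584)), (.negSucc (nat_lit 262143)), (.negSucc (nat_lit 647984239313441237642510335)), (.negSucc (nat_lit 121110543)), (.negSucc (nat_lit 121110511)), (.negSucc (nat_lit 2471863705877079916543)), (.ofNat (nat_lit 2471863705877079916544)), (.negSucc (nat_lit 2471863705877079916543)), (.ofNat (nat_lit 2471863705877079916544)), (.ofNat (nat_lit 0))⟩]
  es := [
    ⟨nat_lit 1, nat_lit 0, (.negSucc (nat_lit 192806911)), (.negSucc (nat_lit 33816575)), (.negSucc (nat_lit 192806895)), (.negSucc (nat_lit 33816591)), (.negSucc (nat_lit 2471863705877079916543)), (.ofNat (nat_lit 0)), (.negSucc (nat_lit 2591936957253764950570041343))⟩,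
    ⟨nat_lit 1, nat_lit 2, (.negSucc (nat_lit 192806911)), (.negSucc (nat_lit 104333311)), (.negSucc (nat_lit 192806895)), (.negSucc (nat_lit 104333327)), (.ofNat (nat_lit 2471863705877079916544)), (.ofNat (nat_lit 0)), (.ofNat (nat_lit 4535889675194088663497572352))⟩,
    ⟨nat_lit 2, nat_lit 3, (.negSucc (nat_lit 104333311)), (.negSucc (nat_lit 15597567)), (.negSucc (nat_lit 104333295)), (.negSucc (nat_lit 15597583)), (.negSucc (nat_lit 2471863705877079916543)), (.ofNat (nat_lit 0)), (.ofNat (nat_lit 3239921196567206188212551680))⟩,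
    ⟨nat_lit 3, nat_lit 4, (.negSucc (nat_lit 15597567)), (.ofNat (nat_lit 107347968)), (.negSucc (nat_lit 15597551)), (.ofNat (nat_lit 107347952)), (.ofNat (nat_lit 2471863705877079916544)), (.ofNat (nat_lit 0)), (.negSucc (nat_lit 1295968478626882475285020671))⟩,
    ⟨nat_lit 5, nat_lit 4, (.ofNat (nat_lit 1048576)), (.ofNat (nat_lit 107347968)), (.ofNat (nat_lit 1048592)), (.ofNat (nat_lit 107347952)), (.negSucc (nat_lit 2471863705877079916543)), (.ofNat (nat_lit 0)), (.ofNat (nat_lit 12311700546955383515207696384))⟩,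
    ⟨nat_lit 6, nat_lit 5, (.negSucc (nat_lit 174063615)), (.ofNat (nat_lit 1048576)), (.negSucc (nat_lit 174063599)), (.ofNat (nat_lit 1048560)), (.ofNat (nat_lit 2471863705877079916544)), (.ofNat (nat_lit 0)), (.ofNat (nat_lit 5831858153820971138782593024))⟩,
    ⟨nat_lit 6, nat_lit 7, (.negSucc (nat_lit 174063615)), (.negSucc (nat_lit 102629375)), (.negSucc (nat_lit 174063599)), (.negSucc (nat_lit 102629391)), (.negSucc (nat_lit 2471863705877079916543)), (.ofNat (nat_lit 0)), (.ofNat (nat_lit 647984239313441237642510336))⟩,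
    ⟨nat_lit 24, nat_lit 8, (.negSucc (nat_lit 139853823)), (.negSucc (nat_lit 34078719)), (.negSucc (nat_lit 139853807)), (.negSucc (nat_lit 34078735)), (.ofNat (nat_lit 2471863705877079916544)), (.ofNat (nat_lit 0)), (.ofNat (nat_lit 1943952717940323712927531008))⟩,
    ⟨nat_lit 8, nat_lit 9, (.negSucc (nat_lit 34078719)), (.ofNat (nat_lit 107347968)), (.negSucc (nat_lit 34078703)), (.ofNat (nat_lit 107347952)), (.negSucc (nat_lit 2471863705877079916543)), (.ofNat (nat_lit 0)), (.ofNat (nat_lit 5831858153820971138782593024))⟩,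
    ⟨nat_lit 9, nat_lit 10, (.ofNat (nat_lit 107347968)), (.ofNat (nat_lit 177602560)), (.ofNat (nat_lit 107347984)), (.ofNat (nat_lit 177602544)), (.ofNat (nat_lit 2471863705877079916544)), (.ofNat (nat_lit 0)), (.negSucc (nat_lit 7775810871761294851710124031))⟩,
    ⟨nat_lit 11, nat_lit 10, (.ofNat (nat_lit 124911616)), (.ofNat (nat_lit 177602560)), (.ofNat (nat_lit 124911632)), (.ofNat (nat_lit 177602544)), (.negSucc (nat_lit 2471863705877079916543)), (.ofNat (nat_lit 0)), (.ofNat (nat_lit 11015732068328501039922675712))⟩,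
    ⟨nat_lit 12, nat_lit 11, (.ofNat (nat_lit 89784320)), (.ofNat (nat_lit 124911616)), (.ofNat (nat_lit 89784336)), (.ofNat (nat_lit 124911600)), (.ofNat (nat_lit 2471863705877079916544)), (.ofNat (nat_lit 0)), (.negSucc (nat_lit 3887905435880647425855062015))⟩,
    ⟨nat_lit 12, nat_lit 13, (.ofNat (nat_lit 89784320)), (.ofNat (nat_lit 160038912)), (.ofNat (nat_lit 89784336)), (.ofNat (nat_lit 160038896)), (.negSucc (nat_lit 2471863705877079916543)), (.ofNat (nat_lit 0)), (.ofNat (nat_lit 8423795111074736089352634368))⟩,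
    ⟨nat_lit 14, nat_lit 13, (.ofNat (nat_lit 107347968)), (.ofNat (nat_lit 160038912)), (.ofNat (nat_lit 107347984)), (.ofNat (nat_lit 160038896)), (.ofNat (nat_lit 2471863705877079916544)), (.ofNat (nat_lit 0)), (.negSucc (nat_lit 9071779350388177326995144703))⟩,
    ⟨nat_lit 15, nat_lit 14, (.negSucc (nat_lit 32767999)), (.ofNat (nat_lit 107347968)), (.negSucc (nat_lit 32767983)), (.ofNat (nat_lit 107347952)), (.negSucc (nat_lit 2471863705877079916543)), (.ofNat (nat_lit 0)), (.ofNat (nat_lit 4535889675194088663497572352))⟩,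
    ⟨nat_lit 16, nat_lit 15, (.negSucc (nat_lit 102367231)), (.negSucc (nat_lit 32767999)), (.negSucc (nat_lit 102367215)), (.negSucc (nat_lit 32768015)), (.ofNat (nat_lit 2471863705877079916544)), (.ofNat (nat_lit 0)), (.ofNat (nat_lit 647984239313441237642510336))⟩,
    ⟨nat_lit 16, nat_lit 17, (.negSucc (nat_lit 102367231)), (.negSucc (nat_lit 14942207)), (.negSucc (nat_lit 102367215)), (.negSucc (nat_lit 14942223)), (.negSucc (nat_lit 2471863705877079916543)), (.ofNat (nat_lit 0)), (.ofNat (nat_lit 0))⟩,
    ⟨nat_lit 17, nat_lit 18, (.negSucc (nat_lit 14942207)), (.ofNat (nat_lit 124911616)), (.negSucc (nat_lit 14942191)), (.ofNat (nat_lit 124911600)), (.ofNat (nat_lit 2471863705877079916544)), (.ofNat (nat_lit 0)), (.negSucc (nat_lit 5183873914507529901140082687))⟩,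
    ⟨nat_lit 19, nat_lit 18, (.ofNat (nat_lit 89784320)), (.ofNat (nat_lit 124911616)), (.ofNat (nat_lit 89784336)), (.ofNat (nat_lit 124911600)), (.negSucc (nat_lit 2471863705877079916543)), (.ofNat (nat_lit 0)), (.ofNat (nat_lit 9719763589701618564637655040))⟩,
    ⟨nat_lit 20, nat_lit 19, (.negSucc (nat_lit 15597567)), (.ofNat (nat_lit 89784320)), (.negSucc (nat_lit 15597551)), (.ofNat (nat_lit 89784304)), (.ofNat (nat_lit 2471863705877079916544)), (.ofNat (nat_lit 0)), (.negSucc (nat_lit 2591936957253764950570041343))⟩,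
    ⟨nat_lit 21, nat_lit 20, (.negSucc (nat_lit 104333311)), (.negSucc (nat_lit 15597567)), (.negSucc (nat_lit 104333295)), (.negSucc (nat_lit 15597583)), (.negSucc (nat_lit 2471863705877079916543)), (.ofNat (nat_lit 0)), (.ofNat (nat_lit 1943952717940323712927531008))⟩,
    ⟨nat_lit 21, nat_lit 22, (.negSucc (nat_lit 104333311)), (.negSucc (nat_lit 34078719)), (.negSucc (nat_lit 104333295)), (.negSucc (nat_lit 34078735)), (.ofNat (nat_lit 2471863705877079916544)), (.ofNat (nat_lit 0)), (.ofNat (nat_lit 3239921196567206188212551680))⟩,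
    ⟨nat_lit 22, nat_lit 23, (.negSucc (nat_lit 34078719)), (.ofNat (nat_lit 107347968)), (.negSucc (nat_lit 34078703)), (.ofNat (nat_lit 107347952)), (.negSucc (nat_lit 2471863705877079916543)), (.ofNat (nat_lit 0)), (.ofNat (nat_lit 7127826632447853614067613696))⟩,
    ⟨nat_lit 0, nat_lit 23, (.negSucc (nat_lit 33816575)), (.ofNat (nat_lit 107347968)), (.negSucc (nat_lit 33816559)), (.ofNat (nat_lit 107347952)), (.ofNat (nat_lit 2471863705877079916544)), (.ofNat (nat_lit 0)), (.negSucc (nat_lit 6479842393134412376425103359))⟩,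
    ⟨nat_lit 24, nat_lit 25, (.negSucc (nat_lit 139853823)), (.negSucc (nat_lit 121110527)), (.negSucc (nat_lit 139853807)), (.negSucc (nat_lit 121110543)), (.negSucc (nat_lit 2471863705877079916543)), (.ofNat (nat_lit 0)), (.negSucc (nat_lit 1295968478626882475285020671))⟩,
    ⟨nat_lit 25, nat_lit 7, (.negSucc (nat_lit 121110527)), (.negSucc (nat_lit 102629375)), (.negSucc (nat_lit 121110511)), (.negSucc (nat_lit 102629391)), (.ofNat (nat_lit 2471863705877079916544)), (.ofNat (nat_lit 0)), (.ofNat (nat_lit 0))⟩]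

theorem ok12 : stOK 25 25 S12 = true := by decide +kernel

def S13 : SD where
  vs := [
    ⟨nat_lit 0, nat_lit 0, nat_lit 23, (.ofNat (nat_lit 8)), (.negSucc (nat_lit 32243711)), (.ofNat (nat_lit 71926250563791977378318647296)), (.ofNat (nat_lit 786432)), (.negSucc (nat_lit 4535889675194088663497572351)), (.negSucc (nat_lit 32243727)), (.negSucc (nat_lit 32243695)), (.negSucc (nat_lit 2471863705877079916543)), (.ofNat (nat_lit 2471863705877079916544)), (.negSucc (nat_lit 2471863705877079916543)), (.ofNat (nat_lit 2471863705877079916544)), (.ofNat (nat_lit 0))⟩,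
    ⟨nat_lit 2, nat_lit 0, nat_lit 1, (.ofNat (nat_lit 8)), (.negSucc (nat_lit 195690495)), (.ofNat (nat_lit 475944423775722589048423841792)), (.negSucc (nat_lit 1441791)), (.ofNat (nat_lit 971976358970161856463765504)), (.negSucc (nat_lit 195690511)), (.negSucc (nat_lit 195690479)), (.negSucc (nat_lit 2471863705877079916543)), (.ofNat (nat_lit 2471863705877079916544)), (.negSucc (nat_lit 2471863705877079916543)), (.ofNat (nat_lit 2471863705877079916544)), (.ofNat (nat_lit 0))⟩,
    ⟨nat_lit 0, nat_lit 1, nat_lit 2, (.ofNat (nat_lit 8)), (.negSucc (nat_lit 104857599)), (.ofNat (nat_lit 700470962697829977891553673216)), (.negSucc (nat_lit 262143)), (.ofNat (nat_lit 3887905435880647425855062016)), (.negSucc (nat_lit 104857615)), (.negSucc (nat_lit 104857583)), (.ofNat (nat_lit 2471863705877079916544)), (.negSucc (nat_lit 2471863705877079916543)), (.negSucc (nat_lit 2471863705877079916543)), (.ofNat (nat_lit 2471863705877079916544)), (.ofNat (nat_lit 0))⟩,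
    ⟨nat_lit 0, nat_lit 2, nat_lit 3, (.ofNat (nat_lit 8)), (.negSucc (nat_lit 13762559)), (.ofNat (nat_lit 475296439536409147810781331456)), (.ofNat (nat_lit 917504)), (.ofNat (nat_lit 971976358970161856463765504)), (.negSucc (nat_lit 13762575)), (.negSucc (nat_lit 13762543)), (.negSucc (nat_lit 2471863705877079916543)), (.ofNat (nat_lit 2471863705877079916544)), (.negSucc (nat_lit 2471863705877079916543)), (.ofNat (nat_lit 2471863705877079916544)), (.ofNat (nat_lit 0))⟩,
    ⟨nat_lit 1, nat_lit 3, nat_lit 4, (.ofNat (nat_lit 8)), (.ofNat (nat_lit 112852992)), (.ofNat (nat_lit 788272827124801265592113823744)), (.ofNat (nat_lit 2752512)), (.ofNat (nat_lit 5507866034164250519961337856)), (.ofNat (nat_lit 112852976)), (.ofNat (nat_lit 112853008)), (.ofNat (nat_lit 2471863705877079916544)), (.negSucc (nat_lit 2471863705877079916543)), (.negSucc (nat_lit 2471863705877079916543)), (.ofNat (nat_lit 2471863705877079916544)), (.ofNat (nat_lit 0))⟩,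
    ⟨nat_lit 0, nat_lit 5, nat_lit 4, (.ofNat (nat_lit 8)), (.ofNat (nat_lit 3670016)), (.ofNat (nat_lit 1058158262798849541070219378688)), (.ofNat (nat_lit 1310720)), (.ofNat (nat_lit 9071779350388177326995144704)), (.ofNat (nat_lit 3670000)), (.ofNat (nat_lit 3670032)), (.ofNat (nat_lit 2471863705877079916544)), (.negSucc (nat_lit 2471863705877079916543)), (.negSucc (nat_lit 2471863705877079916543)), (.ofNat (nat_lit 2471863705877079916544)), (.ofNat (nat_lit 0))⟩,
    ⟨nat_lit 2, nat_lit 6, nat_lit 5, (.ofNat (nat_lit 8)), (.negSucc (nat_lit 176160767)), (.ofNat (nat_lit 613641074629828852047457288192)), (.negSucc (nat_lit 1048575)), (.ofNat (nat_lit 3239921196567206188212551680)), (.negSucc (nat_lit 176160783)), (.negSucc (nat_lit 176160751)), (.negSucc (nat_lit 2471863705877079916543)), (.ofNat (nat_lit 2471863705877079916544)), (.negSucc (nat_lit 2471863705877079916543)), (.ofNat (nat_lit 2471863705877079916544)), (.ofNat (nat_lit 0))⟩,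
    ⟨nat_lit 0, nat_lit 25, nat_lit 16, (.ofNat (nat_lit 8)), (.negSucc (nat_lit 102498303)), (.ofNat (nat_lit 430909519143438423032269373440)), (.ofNat (nat_lit 0)), (.ofNat (nat_lit 0)), (.negSucc (nat_lit 102498319)), (.negSucc (nat_lit 102498287)), (.ofNat (nat_lit 2471863705877079916544)), (.negSucc (nat_lit 2471863705877079916543)), (.negSucc (nat_lit 2471863705877079916543)), (.ofNat (nat_lit 2471863705877079916544)), (.ofNat (nat_lit 0))⟩,
    ⟨nat_lit 0, nat_lit 7, nat_lit 8, (.ofNat (nat_lit 8)), (.negSucc (nat_lit 32505855)), (.ofNat (nat_lit 700470962697829977891553673216)), (.ofNat (nat_lit 786432)), (.ofNat (nat_lit 3887905435880647425855062016)), (.negSucc (nat_lit 32505871)), (.negSucc (nat_lit 32505839)), (.ofNat (nat_lit 2471863705877079916544)), (.negSucc (nat_lit 2471863705877079916543)), (.negSucc (nat_lit 2471863705877079916543)), (.ofNat (nat_lit 2471863705877079916544)), (.ofNat (nat_lit 0))⟩,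
    ⟨nat_lit 0, nat_lit 8, nat_lit 9, (.ofNat (nat_lit 8)), (.ofNat (nat_lit 112852992)), (.ofNat (nat_lit 341163701998526811618781691904)), (.ofNat (nat_lit 2752512)), (.negSucc (nat_lit 971976358970161856463765503)), (.ofNat (nat_lit 112852976)), (.ofNat (nat_lit 112853008)), (.negSucc (nat_lit 2471863705877079916543)), (.ofNat (nat_lit 2471863705877079916544)), (.negSucc (nat_lit 2471863705877079916543)), (.ofNat (nat_lit 2471863705877079916544)), (.ofNat (nat_lit 0))⟩,
    ⟨nat_lit 1, nat_lit 9, nat_lit 10, (.ofNat (nat_lit 8)), (.ofNat (nat_lit 185204736)), (.ofNat (nat_lit 520007352049036593208114544640)), (.ofNat (nat_lit 3801088)), (.ofNat (nat_lit 1619960598283603094106275840)), (.ofNat (nat_lit 185204720)), (.ofNat (nat_lit 185204752)), (.ofNat (nat_lit 2471863705877079916544)), (.negSucc (nat_lit 2471863705877079916543)), (.negSucc (nat_lit 2471863705877079916543)), (.ofNat (nat_lit 2471863705877079916544)), (.ofNat (nat_lit 0))⟩,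
    ⟨nat_lit 0, nat_lit 11, nat_lit 10, (.ofNat (nat_lit 8)), (.ofNat (nat_lit 130940928)), (.ofNat (nat_lit 654140089586918929400114184192)), (.ofNat (nat_lit 3014656)), (.ofNat (nat_lit 3563913316223926807033806848)), (.ofNat (nat_lit 130940912)), (.ofNat (nat_lit 130940944)), (.ofNat (nat_lit 2471863705877079916544)), (.negSucc (nat_lit 2471863705877079916543)), (.negSucc (nat_lit 2471863705877079916543)), (.ofNat (nat_lit 2471863705877079916544)), (.ofNat (nat_lit 0))⟩,
    ⟨nat_lit 2, nat_lit 12, nat_lit 11, (.ofNat (nat_lit 8)), (.ofNat (nat_lit 94765056)), (.ofNat (nat_lit 564718264561664038605447757824)), (.ofNat (nat_lit 2490368)), (.ofNat (nat_lit 2267944837597044331748786176)), (.ofNat (nat_lit 94765040)), (.ofNat (nat_lit 94765072)), (.negSucc (nat_lit 2471863705877079916543)), (.ofNat (nat_lit 2471863705877079916544)), (.negSucc (nat_lit 2471863705877079916543)), (.ofNat (nat_lit 2471863705877079916544)), (.ofNat (nat_lit 0))⟩,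
    ⟨nat_lit 1, nat_lit 13, nat_lit 12, (.ofNat (nat_lit 8)), (.ofNat (nat_lit 167116800)), (.ofNat (nat_lit 385874614511154257016114905088)), (.ofNat (nat_lit 3538944)), (.negSucc (nat_lit 323992119656720618821255167)), (.ofNat (nat_lit 167116784)), (.ofNat (nat_lit 167116816)), (.ofNat (nat_lit 2471863705877079916544)), (.negSucc (nat_lit 2471863705877079916543)), (.negSucc (nat_lit 2471863705877079916543)), (.ofNat (nat_lit 2471863705877079916544)), (.ofNat (nat_lit 0))⟩,
    ⟨nat_lit 0, nat_lit 14, nat_lit 13, (.ofNat (nat_lit 8)), (.ofNat (nat_lit 112852992)), (.ofNat (nat_lit 251741876973271920824115265536)), (.ofNat (nat_lit 2752512)), (.negSucc (nat_lit 2267944837597044331748786175)), (.ofNat (nat_lit 112852976)), (.ofNat (nat_lit 112853008)), (.negSucc (nat_lit 2471863705877079916543)), (.ofNat (nat_lit 2471863705877079916544)), (.negSucc (nat_lit 2471863705877079916543)), (.ofNat (nat_lit 2471863705877079916544)), (.ofNat (nat_lit 0))⟩,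
    ⟨nat_lit 0, nat_lit 15, nat_lit 14, (.ofNat (nat_lit 8)), (.negSucc (nat_lit 31195135)), (.ofNat (nat_lit 607809216476007880908674695168)), (.ofNat (nat_lit 786432)), (.ofNat (nat_lit 2591936957253764950570041344)), (.negSucc (nat_lit 31195151)), (.negSucc (nat_lit 31195119)), (.ofNat (nat_lit 2471863705877079916544)), (.negSucc (nat_lit 2471863705877079916543)), (.negSucc (nat_lit 2471863705877079916543)), (.ofNat (nat_lit 2471863705877079916544)), (.ofNat (nat_lit 0))⟩,
    ⟨nat_lit 0, nat_lit 6, nat_lit 15, (.ofNat (nat_lit 8)), (.negSucc (nat_lit 102498303)), (.ofNat (nat_lit 431557503382751864269911883776)), (.ofNat (nat_lit 0)), (.ofNat (nat_lit 647984239313441237642510336)), (.negSucc (nat_lit 102498319)), (.negSucc (nat_lit 102498287)), (.negSucc (nat_lit 2471863705877079916543)), (.ofNat (nat_lit 2471863705877079916544)), (.negSucc (nat_lit 2471863705877079916543)), (.ofNat (nat_lit 2471863705877079916544)), (.ofNat (nat_lit 0))⟩,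
    ⟨nat_lit 0, nat_lit 16, nat_lit 17, (.ofNat (nat_lit 8)), (.negSucc (nat_lit 12845055)), (.ofNat (nat_lit 209298909298241519758530838528)), (.ofNat (nat_lit 1048576)), (.negSucc (nat_lit 2591936957253764950570041343)), (.negSucc (nat_lit 12845071)), (.negSucc (nat_lit 12845039)), (.negSucc (nat_lit 2471863705877079916543)), (.ofNat (nat_lit 2471863705877079916544)), (.negSucc (nat_lit 2471863705877079916543)), (.ofNat (nat_lit 2471863705877079916544)), (.ofNat (nat_lit 0))⟩,
    ⟨nat_lit 1, nat_lit 17, nat_lit 18, (.ofNat (nat_lit 8)), (.ofNat (nat_lit 130940928)), (.ofNat (nat_lit 564718264561664038605447757824)), (.ofNat (nat_lit 3014656)), (.ofNat (nat_lit 2267944837597044331748786176)), (.ofNat (nat_lit 130940912)), (.ofNat (nat_lit 130940944)), (.ofNat (nat_lit 2471863705877079916544)), (.negSucc (nat_lit 2471863705877079916543)), (.negSucc (nat_lit 2471863705877079916543)), (.ofNat (nat_lit 2471863705877079916544)), (.ofNat (nat_lit 0))⟩,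
    ⟨nat_lit 0, nat_lit 19, nat_lit 18, (.ofNat (nat_lit 8)), (.ofNat (nat_lit 94765056)), (.ofNat (nat_lit 654140089586918929400114184192)), (.ofNat (nat_lit 2490368)), (.ofNat (nat_lit 3563913316223926807033806848)), (.ofNat (nat_lit 94765040)), (.ofNat (nat_lit 94765072)), (.ofNat (nat_lit 2471863705877079916544)), (.negSucc (nat_lit 2471863705877079916543)), (.negSucc (nat_lit 2471863705877079916543)), (.ofNat (nat_lit 2471863705877079916544)), (.ofNat (nat_lit 0))⟩,
    ⟨nat_lit 0, nat_lit 20, nat_lit 19, (.ofNat (nat_lit 8)), (.negSucc (nat_lit 13762559)), (.ofNat (nat_lit 385874614511154257016114905088)), (.ofNat (nat_lit 917504)), (.negSucc (nat_lit 323992119656720618821255167)), (.negSucc (nat_lit 13762575)), (.negSucc (nat_lit 13762543)), (.negSucc (nat_lit 2471863705877079916543)), (.ofNat (nat_lit 2471863705877079916544)), (.negSucc (nat_lit 2471863705877079916543)), (.ofNat (nat_lit 2471863705877079916544)), (.ofNat (nat_lit 0))⟩,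
    ⟨nat_lit 2, nat_lit 20, nat_lit 21, (.ofNat (nat_lit 8)), (.negSucc (nat_lit 104857599)), (.ofNat (nat_lit 611049137672575087096887246848)), (.negSucc (nat_lit 262143)), (.ofNat (nat_lit 2591936957253764950570041344)), (.negSucc (nat_lit 104857615)), (.negSucc (nat_lit 104857583)), (.negSucc (nat_lit 2471863705877079916543)), (.ofNat (nat_lit 2471863705877079916544)), (.negSucc (nat_lit 2471863705877079916543)), (.ofNat (nat_lit 2471863705877079916544)), (.ofNat (nat_lit 0))⟩,
    ⟨nat_lit 0, nat_lit 21, nat_lit 22, (.ofNat (nat_lit 8)), (.negSucc (nat_lit 32505855)), (.ofNat (nat_lit 789892787723084868686220099584)), (.ofNat (nat_lit 786432)), (.ofNat (nat_lit 5183873914507529901140082688)), (.negSucc (nat_lit 32505871)), (.negSucc (nat_lit 32505839)), (.ofNat (nat_lit 2471863705877079916544)), (.negSucc (nat_lit 2471863705877079916543)), (.negSucc (nat_lit 2471863705877079916543)), (.ofNat (nat_lit 2471863705877079916544)), (.ofNat (nat_lit 0))⟩,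
    ⟨nat_lit 1, nat_lit 23, nat_lit 22, (.ofNat (nat_lit 8)), (.ofNat (nat_lit 112852992)), (.ofNat (nat_lit 430585527023781702413448118272)), (.ofNat (nat_lit 2752512)), (.ofNat (nat_lit 323992119656720618821255168)), (.ofNat (nat_lit 112852976)), (.ofNat (nat_lit 112853008)), (.ofNat (nat_lit 2471863705877079916544)), (.negSucc (nat_lit 2471863705877079916543)), (.negSucc (nat_lit 2471863705877079916543)), (.ofNat (nat_lit 2471863705877079916544)), (.ofNat (nat_lit 0))⟩,
    ⟨nat_lit 2, nat_lit 24, nat_lit 7, (.ofNat (nat_lit 8)), (.negSucc (nat_lit 141164543)), (.ofNat (nat_lit 431881495502408584888733138944)), (.negSucc (nat_lit 655359)), (.ofNat (nat_lit 323992119656720618821255168)), (.negSucc (nat_lit 141164559)), (.negSucc (nat_lit 141164527)), (.negSucc (nat_lit 2471863705877079916543)), (.ofNat (nat_lit 2471863705877079916544)), (.negSucc (nat_lit 2471863705877079916543)), (.ofNat (nat_lit 2471863705877079916544)), (.ofNat (nat_lit 0))⟩,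
    ⟨nat_lit 0, nat_lit 24, nat_lit 25, (.ofNat (nat_lit 8)), (.negSucc (nat_lit 121634815)), (.ofNat (nat_lit 383606669673557212684366118912)), (.negSucc (nat_lit 262143)), (.negSucc (nat_lit 647984239313441237642510335)), (.negSucc (nat_lit 121634831)), (.negSucc (nat_lit 121634799)), (.negSucc (nat_lit 2471863705877079916543)), (.ofNat (nat_lit 2471863705877079916544)), (.negSucc (nat_lit 2471863705877079916543)), (.ofNat (nat_lit 2471863705877079916544)), (.ofNat (nat_lit 0))⟩]
  es := [
    ⟨nat_lit 1, nat_lit 0, (.negSucc (nat_lit 195690495)), (.negSucc (nat_lit 32243711)), (.negSucc (nat_lit 195690479)), (.negSucc (nat_lit 32243727)), (.negSucc (nat_lit 2471863705877079916543)), (.ofNat (nat_lit 0)), (.negSucc (nat_lit 2591936957253764950570041343))⟩,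
    ⟨nat_lit 1, nat_lit 2, (.negSucc (nat_lit 195690495)), (.negSucc (nat_lit 104857599)), (.negSucc (nat_lit 195690479)), (.negSucc (nat_lit 104857615)), (.ofNat (nat_lit 2471863705877079916544)), (.ofNat (nat_lit 0)), (.ofNat (nat_lit 4535889675194088663497572352))⟩,
    ⟨nat_lit 2, nat_lit 3, (.negSucc (nat_lit 104857599)), (.negSucc (nat_lit 13762559)), (.negSucc (nat_lit 104857583)), (.negSucc (nat_lit 13762575)), (.negSucc (nat_lit 2471863705877079916543)), (.ofNat (nat_lit 0)), (.ofNat (nat_lit 3239921196567206188212551680))⟩,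
    ⟨nat_lit 3, nat_lit 4, (.negSucc (nat_lit 13762559)), (.ofNat (nat_lit 112852992)), (.negSucc (nat_lit 13762543)), (.ofNat (nat_lit 112852976)), (.ofNat (nat_lit 2471863705877079916544)), (.ofNat (nat_lit 0)), (.negSucc (nat_lit 1295968478626882475285020671))⟩,
    ⟨nat_lit 5, nat_lit 4, (.ofNat (nat_lit 3670016)), (.ofNat (nat_lit 112852992)), (.ofNat (nat_lit 3670032)), (.ofNat (nat_lit 112852976)), (.negSucc (nat_lit 2471863705877079916543)), (.ofNat (nat_lit 0)), (.ofNat (nat_lit 12311700546955383515207696384))⟩,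
    ⟨nat_lit 6, nat_lit 5, (.negSucc (nat_lit 176160767)), (.ofNat (nat_lit 3670016)), (.negSucc (nat_lit 176160751)), (.ofNat (nat_lit 3670000)), (.ofNat (nat_lit 2471863705877079916544)), (.ofNat (nat_lit 0)), (.ofNat (nat_lit 5831858153820971138782593024))⟩,
    ⟨nat_lit 6, nat_lit 16, (.negSucc (nat_lit 176160767)), (.negSucc (nat_lit 102498303)), (.negSucc (nat_lit 176160751)), (.negSucc (nat_lit 102498319)), (.negSucc (nat_lit 2471863705877079916543)), (.ofNat (nat_lit 0)), (.ofNat (nat_lit 647984239313441237642510336))⟩,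
    ⟨nat_lit 24, nat_lit 8, (.negSucc (nat_lit 141164543)), (.negSucc (nat_lit 32505855)), (.negSucc (nat_lit 141164527)), (.negSucc (nat_lit 32505871)), (.ofNat (nat_lit 2471863705877079916544)), (.ofNat (nat_lit 0)), (.ofNat (nat_lit 1943952717940323712927531008))⟩,
    ⟨nat_lit 8, nat_lit 9, (.negSucc (nat_lit 32505855)), (.ofNat (nat_lit 112852992)), (.negSucc (nat_lit 32505839)), (.ofNat (nat_lit 112852976)), (.negSucc (nat_lit 2471863705877079916543)), (.ofNat (nat_lit 0)), (.ofNat (nat_lit 5831858153820971138782593024))⟩,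
    ⟨nat_lit 9, nat_lit 10, (.ofNat (nat_lit 112852992)), (.ofNat (nat_lit 185204736)), (.ofNat (nat_lit 112853008)), (.ofNat (nat_lit 185204720)), (.ofNat (nat_lit 2471863705877079916544)), (.ofNat (nat_lit 0)), (.negSucc (nat_lit 7775810871761294851710124031))⟩,
    ⟨nat_lit 11, nat_lit 10, (.ofNat (nat_lit 130940928)), (.ofNat (nat_lit 185204736)), (.ofNat (nat_lit 130940944)), (.ofNat (nat_lit 185204720)), (.negSucc (nat_lit 2471863705877079916543)), (.ofNat (nat_lit 0)), (.ofNat (nat_lit 11015732068328501039922675712))⟩,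
    ⟨nat_lit 12, nat_lit 11, (.ofNat (nat_lit 94765056)), (.ofNat (nat_lit 130940928)), (.ofNat (nat_lit 94765072)), (.ofNat (nat_lit 130940912)), (.ofNat (nat_lit 2471863705877079916544)), (.ofNat (nat_lit 0)), (.negSucc (nat_lit 3887905435880647425855062015))⟩,
    ⟨nat_lit 12, nat_lit 13, (.ofNat (nat_lit 94765056)), (.ofNat (nat_lit 167116800)), (.ofNat (nat_lit 94765072)), (.ofNat (nat_lit 167116784)), (.negSucc (nat_lit 2471863705877079916543)), (.ofNat (nat_lit 0)), (.ofNat (nat_lit 8423795111074736089352634368))⟩,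
    ⟨nat_lit 14, nat_lit 13, (.ofNat (nat_lit 112852992)), (.ofNat (nat_lit 167116800)), (.ofNat (nat_lit 112853008)), (.ofNat (nat_lit 167116784)), (.ofNat (nat_lit 2471863705877079916544)), (.ofNat (nat_lit 0)), (.negSucc (nat_lit 9071779350388177326995144703))⟩,
    ⟨nat_lit 15, nat_lit 14, (.negSucc (nat_lit 31195135)), (.ofNat (nat_lit 112852992)), (.negSucc (nat_lit 31195119)), (.ofNat (nat_lit 112852976)), (.negSucc (nat_lit 2471863705877079916543)), (.ofNat (nat_lit 0)), (.ofNat (nat_lit 4535889675194088663497572352))⟩,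
    ⟨nat_lit 16, nat_lit 15, (.negSucc (nat_lit 102498303)), (.negSucc (nat_lit 31195135)), (.negSucc (nat_lit 102498287)), (.negSucc (nat_lit 31195151)), (.ofNat (nat_lit 2471863705877079916544)), (.ofNat (nat_lit 0)), (.ofNat (nat_lit 647984239313441237642510336))⟩,
    ⟨nat_lit 7, nat_lit 17, (.negSucc (nat_lit 102498303)), (.negSucc (nat_lit 12845055)), (.negSucc (nat_lit 102498287)), (.negSucc (nat_lit 12845071)), (.negSucc (nat_lit 2471863705877079916543)), (.ofNat (nat_lit 0)), (.ofNat (nat_lit 0))⟩,
    ⟨nat_lit 17, nat_lit 18, (.negSucc (nat_lit 12845055)), (.ofNat (nat_lit 130940928)), (.negSucc (nat_lit 12845039)), (.ofNat (nat_lit 130940912)), (.ofNat (nat_lit 2471863705877079916544)), (.ofNat (nat_lit 0)), (.negSucc (nat_lit 5183873914507529901140082687))⟩,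
    ⟨nat_lit 19, nat_lit 18, (.ofNat (nat_lit 94765056)), (.ofNat (nat_lit 130940928)), (.ofNat (nat_lit 94765072)), (.ofNat (nat_lit 130940912)), (.negSucc (nat_lit 2471863705877079916543)), (.ofNat (nat_lit 0)), (.ofNat (nat_lit 9719763589701618564637655040))⟩,
    ⟨nat_lit 20, nat_lit 19, (.negSucc (nat_lit 13762559)), (.ofNat (nat_lit 94765056)), (.negSucc (nat_lit 13762543)), (.ofNat (nat_lit 94765040)), (.ofNat (nat_lit 2471863705877079916544)), (.ofNat (nat_lit 0)), (.negSucc (nat_lit 2591936957253764950570041343))⟩,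
    ⟨nat_lit 21, nat_lit 20, (.negSucc (nat_lit 104857599)), (.negSucc (nat_lit 13762559)), (.negSucc (nat_lit 104857583)), (.negSucc (nat_lit 13762575)), (.negSucc (nat_lit 2471863705877079916543)), (.ofNat (nat_lit 0)), (.ofNat (nat_lit 1943952717940323712927531008))⟩,
    ⟨nat_lit 21, nat_lit 22, (.negSucc (nat_lit 104857599)), (.negSucc (nat_lit 32505855)), (.negSucc (nat_lit 104857583)), (.negSucc (nat_lit 32505871)), (.ofNat (nat_lit 2471863705877079916544)), (.ofNat (nat_lit 0)), (.ofNat (nat_lit 3239921196567206188212551680))⟩,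
    ⟨nat_lit 22, nat_lit 23, (.negSucc (nat_lit 32505855)), (.ofNat (nat_lit 112852992)), (.negSucc (nat_lit 32505839)), (.ofNat (nat_lit 112852976)), (.negSucc (nat_lit 2471863705877079916543)), (.ofNat (nat_lit 0)), (.ofNat (nat_lit 7127826632447853614067613696))⟩,
    ⟨nat_lit 0, nat_lit 23, (.negSucc (nat_lit 32243711)), (.ofNat (nat_lit 112852992)), (.negSucc (nat_lit 32243695)), (.ofNat (nat_lit 112852976)), (.ofNat (nat_lit 2471863705877079916544)), (.ofNat (nat_lit 0)), (.negSucc (nat_lit 6479842393134412376425103359))⟩,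
    ⟨nat_lit 24, nat_lit 25, (.negSucc (nat_lit 141164543)), (.negSucc (nat_lit 121634815)), (.negSucc (nat_lit 141164527)), (.negSucc (nat_lit 121634831)), (.negSucc (nat_lit 2471863705877079916543)), (.ofNat (nat_lit 0)), (.negSucc (nat_lit 1295968478626882475285020671))⟩,
    ⟨nat_lit 25, nat_lit 7, (.negSucc (nat_lit 121634815)), (.negSucc (nat_lit 102498303)), (.negSucc (nat_lit 121634799)), (.negSucc (nat_lit 102498319)), (.ofNat (nat_lit 2471863705877079916544)), (.ofNat (nat_lit 0)), (.ofNat (nat_lit 0))⟩]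

theorem ok13 : stOK 25 25 S13 = true := by decide +kernel

def S14 : SD where
  vs := [
    ⟨nat_lit 0, nat_lit 0, nat_lit 23, (.ofNat (nat_lit 8)), (.negSucc (nat_lit 34603007)), (.ofNat (nat_lit 85533919589374243368811364352)), (.ofNat (nat_lit 786432)), (.negSucc (nat_lit 4535889675194088663497572351)), (.negSucc (nat_lit 34603023)), (.negSucc (nat_lit 34602991)), (.negSucc (nat_lit 2471863705877079916543)), (.ofNat (nat_lit 2471863705877079916544)), (.negSucc (nat_lit 2471863705877079916543)), (.ofNat (nat_lit 2471863705877079916544)), (.ofNat (nat_lit 0))⟩,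
    ⟨nat_lit 2, nat_lit 0, nat_lit 1, (.ofNat (nat_lit 8)), (.negSucc (nat_lit 191365119)), (.ofNat (nat_lit 473028494698812103479032545280)), (.negSucc (nat_lit 1441791)), (.ofNat (nat_lit 971976358970161856463765504)), (.negSucc (nat_lit 191365135)), (.negSucc (nat_lit 191365103)), (.negSucc (nat_lit 2471863705877079916543)), (.ofNat (nat_lit 2471863705877079916544)), (.negSucc (nat_lit 2471863705877079916543)), (.ofNat (nat_lit 2471863705877079916544)), (.ofNat (nat_lit 0))⟩,
    ⟨nat_lit 0, nat_lit 1, nat_lit 2, (.ofNat (nat_lit 8)), (.negSucc (nat_lit 104071167)), (.ofNat (nat_lit 688807246390188035613988487168)), (.negSucc (nat_lit 262143)), (.ofNat (nat_lit 3887905435880647425855062016)), (.negSucc (nat_lit 104071183)), (.negSucc (nat_lit 104071151)), (.ofNat (nat_lit 2471863705877079916544)), (.negSucc (nat_lit 2471863705877079916543)), (.negSucc (nat_lit 2471863705877079916543)), (.ofNat (nat_lit 2471863705877079916544)), (.ofNat (nat_lit 0))⟩,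
    ⟨nat_lit 0, nat_lit 2, nat_lit 3, (.ofNat (nat_lit 8)), (.negSucc (nat_lit 16515071)), (.ofNat (nat_lit 472380510459498662241390034944)), (.ofNat (nat_lit 917504)), (.ofNat (nat_lit 971976358970161856463765504)), (.negSucc (nat_lit 16515087)), (.negSucc (nat_lit 16515055)), (.negSucc (nat_lit 2471863705877079916543)), (.ofNat (nat_lit 2471863705877079916544)), (.negSucc (nat_lit 2471863705877079916543)), (.ofNat (nat_lit 2471863705877079916544)), (.ofNat (nat_lit 0))⟩,
    ⟨nat_lit 1, nat_lit 3, nat_lit 4, (.ofNat (nat_lit 8)), (.ofNat (nat_lit 104595456)), (.ofNat (nat_lit 771749229022308514032229810176)), (.ofNat (nat_lit 2752512)), (.ofNat (nat_lit 5507866034164250519961337856)), (.ofNat (nat_lit 104595440)), (.ofNat (nat_lit 104595472)), (.ofNat (nat_lit 2471863705877079916544)), (.negSucc (nat_lit 2471863705877079916543)), (.negSucc (nat_lit 2471863705877079916543)), (.ofNat (nat_lit 2471863705877079916544)), (.ofNat (nat_lit 0))⟩,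
    ⟨nat_lit 0, nat_lit 5, nat_lit 4, (.ofNat (nat_lit 8)), (.negSucc (nat_lit 262143)), (.ofNat (nat_lit 1030942924747685009089233944576)), (.ofNat (nat_lit 1310720)), (.ofNat (nat_lit 9071779350388177326995144704)), (.negSucc (nat_lit 262159)), (.negSucc (nat_lit 262127)), (.ofNat (nat_lit 2471863705877079916544)), (.negSucc (nat_lit 2471863705877079916543)), (.negSucc (nat_lit 2471863705877079916543)), (.ofNat (nat_lit 2471863705877079916544)), (.ofNat (nat_lit 0))⟩,
    ⟨nat_lit 2, nat_lit 6, nat_lit 5, (.ofNat (nat_lit 8)), (.negSucc (nat_lit 173015039)), (.ofNat (nat_lit 603921311040127233482819633152)), (.negSucc (nat_lit 1048575)), (.ofNat (nat_lit 3239921196567206188212551680)), (.negSucc (nat_lit 173015055)), (.negSucc (nat_lit 173015023)), (.negSucc (nat_lit 2471863705877079916543)), (.ofNat (nat_lit 2471863705877079916544)), (.negSucc (nat_lit 2471863705877079916543)), (.ofNat (nat_lit 2471863705877079916544)), (.ofNat (nat_lit 0))⟩,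
    ⟨nat_lit 0, nat_lit 25, nat_lit 16, (.ofNat (nat_lit 8)), (.negSucc (nat_lit 102498303)), (.ofNat (nat_lit 430909519143438423032269373440)), (.ofNat (nat_lit 0)), (.ofNat (nat_lit 0)), (.negSucc (nat_lit 102498319)), (.negSucc (nat_lit 102498287)), (.ofNat (nat_lit 2471863705877079916544)), (.negSucc (nat_lit 2471863705877079916543)), (.negSucc (nat_lit 2471863705877079916543)), (.ofNat (nat_lit 2471863705877079916544)), (.ofNat (nat_lit 0))⟩,
    ⟨nat_lit 0, nat_lit 7, nat_lit 8, (.ofNat (nat_lit 8)), (.negSucc (nat_lit 34865151)), (.ofNat (nat_lit 688807246390188035613988487168)), (.ofNat (nat_lit 786432)), (.ofNat (nat_lit 3887905435880647425855062016)), (.negSucc (nat_lit 34865167)), (.negSucc (nat_lit 34865135)), (.ofNat (nat_lit 2471863705877079916544)), (.negSucc (nat_lit 2471863705877079916543)), (.negSucc (nat_lit 2471863705877079916543)), (.ofNat (nat_lit 2471863705877079916544)), (.ofNat (nat_lit 0))⟩,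
    ⟨nat_lit 0, nat_lit 8, nat_lit 9, (.ofNat (nat_lit 8)), (.ofNat (nat_lit 104595456)), (.ofNat (nat_lit 344079631075437297188172988416)), (.ofNat (nat_lit 2752512)), (.negSucc (nat_lit 971976358970161856463765503)), (.ofNat (nat_lit 104595440)), (.ofNat (nat_lit 104595472)), (.negSucc (nat_lit 2471863705877079916543)), (.ofNat (nat_lit 2471863705877079916544)), (.negSucc (nat_lit 2471863705877079916543)), (.ofNat (nat_lit 2471863705877079916544)), (.ofNat (nat_lit 0))⟩,
    ⟨nat_lit 1, nat_lit 9, nat_lit 10, (.ofNat (nat_lit 8)), (.ofNat (nat_lit 173801472)), (.ofNat (nat_lit 515147470254185783925795717120)), (.ofNat (nat_lit 3801088)), (.ofNat (nat_lit 1619960598283603094106275840)), (.ofNat (nat_lit 173801456)), (.ofNat (nat_lit 173801488)), (.ofNat (nat_lit 2471863705877079916544)), (.negSucc (nat_lit 2471863705877079916543)), (.negSucc (nat_lit 2471863705877079916543)), (.ofNat (nat_lit 2471863705877079916544)), (.ofNat (nat_lit 0))⟩,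
    ⟨nat_lit 0, nat_lit 11, nat_lit 10, (.ofNat (nat_lit 8)), (.ofNat (nat_lit 121896960)), (.ofNat (nat_lit 643448349638247148979012763648)), (.ofNat (nat_lit 3014656)), (.ofNat (nat_lit 3563913316223926807033806848)), (.ofNat (nat_lit 121896944)), (.ofNat (nat_lit 121896976)), (.ofNat (nat_lit 2471863705877079916544)), (.negSucc (nat_lit 2471863705877079916543)), (.negSucc (nat_lit 2471863705877079916543)), (.ofNat (nat_lit 2471863705877079916544)), (.ofNat (nat_lit 0))⟩,
    ⟨nat_lit 2, nat_lit 12, nat_lit 11, (.ofNat (nat_lit 8)), (.ofNat (nat_lit 87293952)), (.ofNat (nat_lit 557914430048872905610201399296)), (.ofNat (nat_lit 2490368)), (.ofNat (nat_lit 2267944837597044331748786176)), (.ofNat (nat_lit 87293936)), (.ofNat (nat_lit 87293968)), (.negSucc (nat_lit 2471863705877079916543)), (.ofNat (nat_lit 2471863705877079916544)), (.negSucc (nat_lit 2471863705877079916543)), (.ofNat (nat_lit 2471863705877079916544)), (.ofNat (nat_lit 0))⟩,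
    ⟨nat_lit 1, nat_lit 13, nat_lit 12, (.ofNat (nat_lit 8)), (.ofNat (nat_lit 156499968)), (.ofNat (nat_lit 386846590870124418872578670592)), (.ofNat (nat_lit 3538944)), (.negSucc (nat_lit 323992119656720618821255167)), (.ofNat (nat_lit 156499952)), (.ofNat (nat_lit 156499984)), (.ofNat (nat_lit 2471863705877079916544)), (.negSucc (nat_lit 2471863705877079916543)), (.negSucc (nat_lit 2471863705877079916543)), (.ofNat (nat_lit 2471863705877079916544)), (.ofNat (nat_lit 0))⟩,
    ⟨nat_lit 0, nat_lit 14, nat_lit 13, (.ofNat (nat_lit 8)), (.ofNat (nat_lit 104595456)), (.ofNat (nat_lit 258545711486063053819361624064)), (.ofNat (nat_lit 2752512)), (.negSucc (nat_lit 2267944837597044331748786175)), (.ofNat (nat_lit 104595440)), (.ofNat (nat_lit 104595472)), (.negSucc (nat_lit 2471863705877079916543)), (.ofNat (nat_lit 2471863705877079916544)), (.negSucc (nat_lit 2471863705877079916543)), (.ofNat (nat_lit 2471863705877079916544)), (.ofNat (nat_lit 0))⟩,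
    ⟨nat_lit 0, nat_lit 15, nat_lit 14, (.ofNat (nat_lit 8)), (.negSucc (nat_lit 33554431)), (.ofNat (nat_lit 600033405604246586056964571136)), (.ofNat (nat_lit 786432)), (.ofNat (nat_lit 2591936957253764950570041344)), (.negSucc (nat_lit 33554447)), (.negSucc (nat_lit 33554415)), (.ofNat (nat_lit 2471863705877079916544)), (.negSucc (nat_lit 2471863705877079916543)), (.negSucc (nat_lit 2471863705877079916543)), (.ofNat (nat_lit 2471863705877079916544)), (.ofNat (nat_lit 0))⟩,
    ⟨nat_lit 0, nat_lit 6, nat_lit 15, (.ofNat (nat_lit 8)), (.negSucc (nat_lit 102498303)), (.ofNat (nat_lit 429613550664811540556984352768)), (.ofNat (nat_lit 0)), (.ofNat (nat_lit 647984239313441237642510336)), (.negSucc (nat_lit 102498319)), (.negSucc (nat_lit 102498287)), (.negSucc (nat_lit 2471863705877079916543)), (.ofNat (nat_lit 2471863705877079916544)), (.negSucc (nat_lit 2471863705877079916543)), (.ofNat (nat_lit 2471863705877079916544)), (.ofNat (nat_lit 0))⟩,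
    ⟨nat_lit 0, nat_lit 16, nat_lit 17, (.ofNat (nat_lit 8)), (.negSucc (nat_lit 15990783)), (.ofNat (nat_lit 217074720170002814610240962560)), (.ofNat (nat_lit 1048576)), (.negSucc (nat_lit 2591936957253764950570041343)), (.negSucc (nat_lit 15990799)), (.negSucc (nat_lit 15990767)), (.negSucc (nat_lit 2471863705877079916543)), (.ofNat (nat_lit 2471863705877079916544)), (.negSucc (nat_lit 2471863705877079916543)), (.ofNat (nat_lit 2471863705877079916544)), (.ofNat (nat_lit 0))⟩,
    ⟨nat_lit 1, nat_lit 17, nat_lit 18, (.ofNat (nat_lit 8)), (.ofNat (nat_lit 121896960)), (.ofNat (nat_lit 557914430048872905610201399296)), (.ofNat (nat_lit 3014656)), (.ofNat (nat_lit 2267944837597044331748786176)), (.ofNat (nat_lit 121896944)), (.ofNat (nat_lit 121896976)), (.ofNat (nat_lit 2471863705877079916544)), (.negSucc (nat_lit 2471863705877079916543)), (.negSucc (nat_lit 2471863705877079916543)), (.ofNat (nat_lit 2471863705877079916544)), (.ofNat (nat_lit 0))⟩,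
    ⟨nat_lit 0, nat_lit 19, nat_lit 18, (.ofNat (nat_lit 8)), (.ofNat (nat_lit 87293952)), (.ofNat (nat_lit 643448349638247148979012763648)), (.ofNat (nat_lit 2490368)), (.ofNat (nat_lit 3563913316223926807033806848)), (.ofNat (nat_lit 87293936)), (.ofNat (nat_lit 87293968)), (.ofNat (nat_lit 2471863705877079916544)), (.negSucc (nat_lit 2471863705877079916543)), (.negSucc (nat_lit 2471863705877079916543)), (.ofNat (nat_lit 2471863705877079916544)), (.ofNat (nat_lit 0))⟩,
    ⟨nat_lit 0, nat_lit 20, nat_lit 19, (.ofNat (nat_lit 8)), (.negSucc (nat_lit 16515071)), (.ofNat (nat_lit 386846590870124418872578670592)), (.ofNat (nat_lit 917504)), (.negSucc (nat_lit 323992119656720618821255167)), (.negSucc (nat_lit 16515087)), (.negSucc (nat_lit 16515055)), (.negSucc (nat_lit 2471863705877079916543)), (.ofNat (nat_lit 2471863705877079916544)), (.negSucc (nat_lit 2471863705877079916543)), (.ofNat (nat_lit 2471863705877079916544)), (.ofNat (nat_lit 0))⟩,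
    ⟨nat_lit 2, nat_lit 20, nat_lit 21, (.ofNat (nat_lit 8)), (.negSucc (nat_lit 104071167)), (.ofNat (nat_lit 603273326800813792245177122816)), (.negSucc (nat_lit 262143)), (.ofNat (nat_lit 2591936957253764950570041344)), (.negSucc (nat_lit 104071183)), (.negSucc (nat_lit 104071151)), (.negSucc (nat_lit 2471863705877079916543)), (.ofNat (nat_lit 2471863705877079916544)), (.negSucc (nat_lit 2471863705877079916543)), (.ofNat (nat_lit 2471863705877079916544)), (.ofNat (nat_lit 0))⟩,
    ⟨nat_lit 0, nat_lit 21, nat_lit 22, (.ofNat (nat_lit 8)), (.negSucc (nat_lit 34865151)), (.ofNat (nat_lit 774341165979562278982799851520)), (.ofNat (nat_lit 786432)), (.ofNat (nat_lit 5183873914507529901140082688)), (.negSucc (nat_lit 34865167)), (.negSucc (nat_lit 34865135)), (.ofNat (nat_lit 2471863705877079916544)), (.negSucc (nat_lit 2471863705877079916543)), (.negSucc (nat_lit 2471863705877079916543)), (.ofNat (nat_lit 2471863705877079916544)), (.ofNat (nat_lit 0))⟩,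
    ⟨nat_lit 1, nat_lit 23, nat_lit 22, (.ofNat (nat_lit 8)), (.ofNat (nat_lit 104595456)), (.ofNat (nat_lit 429613550664811540556984352768)), (.ofNat (nat_lit 2752512)), (.ofNat (nat_lit 323992119656720618821255168)), (.ofNat (nat_lit 104595440)), (.ofNat (nat_lit 104595472)), (.ofNat (nat_lit 2471863705877079916544)), (.negSucc (nat_lit 2471863705877079916543)), (.negSucc (nat_lit 2471863705877079916543)), (.ofNat (nat_lit 2471863705877079916544)), (.ofNat (nat_lit 0))⟩,
    ⟨nat_lit 2, nat_lit 24, nat_lit 7, (.ofNat (nat_lit 8)), (.negSucc (nat_lit 139198463)), (.ofNat (nat_lit 430909519143438423032269373440)), (.negSucc (nat_lit 655359)), (.ofNat (nat_lit 323992119656720618821255168)), (.negSucc (nat_lit 139198479)), (.negSucc (nat_lit 139198447)), (.negSucc (nat_lit 2471863705877079916543)), (.ofNat (nat_lit 2471863705877079916544)), (.negSucc (nat_lit 2471863705877079916543)), (.ofNat (nat_lit 2471863705877079916544)), (.ofNat (nat_lit 0))⟩,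
    ⟨nat_lit 0, nat_lit 24, nat_lit 25, (.ofNat (nat_lit 8)), (.negSucc (nat_lit 120848383)), (.ofNat (nat_lit 385550622391497536397293649920)), (.negSucc (nat_lit 262143)), (.negSucc (nat_lit 647984239313441237642510335)), (.negSucc (nat_lit 120848399)), (.negSucc (nat_lit 120848367)), (.negSucc (nat_lit 2471863705877079916543)), (.ofNat (nat_lit 2471863705877079916544)), (.negSucc (nat_lit 2471863705877079916543)), (.ofNat (nat_lit 2471863705877079916544)), (.ofNat (nat_lit 0))⟩]
  es := [
    ⟨nat_lit 1, nat_lit 0, (.negSucc (nat_lit 191365119)), (.negSucc (nat_lit 34603007)), (.negSucc (nat_lit 191365103)), (.negSucc (nat_lit 34603023)), (.negSucc (nat_lit 2471863705877079916543)), (.ofNat (nat_lit 0)), (.negSucc (nat_lit 2591936957253764950570041343))⟩,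
    ⟨nat_lit 1, nat_lit 2, (.negSucc (nat_lit 191365119)), (.negSucc (nat_lit 104071167)), (.negSucc (nat_lit 191365103)), (.negSucc (nat_lit 104071183)), (.ofNat (nat_lit 2471863705877079916544)), (.ofNat (nat_lit 0)), (.ofNat (nat_lit 4535889675194088663497572352))⟩,
    ⟨nat_lit 2, nat_lit 3, (.negSucc (nat_lit 104071167)), (.negSucc (nat_lit 16515071)), (.negSucc (nat_lit 104071151)), (.negSucc (nat_lit 16515087)), (.negSucc (nat_lit 2471863705877079916543)), (.ofNat (nat_lit 0)), (.ofNat (nat_lit 3239921196567206188212551680))⟩,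
    ⟨nat_lit 3, nat_lit 4, (.negSucc (nat_lit 16515071)), (.ofNat (nat_lit 104595456)), (.negSucc (nat_lit 16515055)), (.ofNat (nat_lit 104595440)), (.ofNat (nat_lit 2471863705877079916544)), (.ofNat (nat_lit 0)), (.negSucc (nat_lit 1295968478626882475285020671))⟩,
    ⟨nat_lit 5, nat_lit 4, (.negSucc (nat_lit 262143)), (.ofNat (nat_lit 104595456)), (.negSucc (nat_lit 262127)), (.ofNat (nat_lit 104595440)), (.negSucc (nat_lit 2471863705877079916543)), (.ofNat (nat_lit 0)), (.ofNat (nat_lit 12311700546955383515207696384))⟩,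
    ⟨nat_lit 6, nat_lit 5, (.negSucc (nat_lit 173015039)), (.negSucc (nat_lit 262143)), (.negSucc (nat_lit 173015023)), (.negSucc (nat_lit 262159)), (.ofNat (nat_lit 2471863705877079916544)), (.ofNat (nat_lit 0)), (.ofNat (nat_lit 5831858153820971138782593024))⟩,
    ⟨nat_lit 6, nat_lit 16, (.negSucc (nat_lit 173015039)), (.negSucc (nat_lit 102498303)), (.negSucc (nat_lit 173015023)), (.negSucc (nat_lit 102498319)), (.negSucc (nat_lit 2471863705877079916543)), (.ofNat (nat_lit 0)), (.ofNat (nat_lit 647984239313441237642510336))⟩,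
    ⟨nat_lit 24, nat_lit 8, (.negSucc (nat_lit 139198463)), (.negSucc (nat_lit 34865151)), (.negSucc (nat_lit 139198447)), (.negSucc (nat_lit 34865167)), (.ofNat (nat_lit 2471863705877079916544)), (.ofNat (nat_lit 0)), (.ofNat (nat_lit 1943952717940323712927531008))⟩,
    ⟨nat_lit 8, nat_lit 9, (.negSucc (nat_lit 34865151)), (.ofNat (nat_lit 104595456)), (.negSucc (nat_lit 34865135)), (.ofNat (nat_lit 104595440)), (.negSucc (nat_lit 2471863705877079916543)), (.ofNat (nat_lit 0)), (.ofNat (nat_lit 5831858153820971138782593024))⟩,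
    ⟨nat_lit 9, nat_lit 10, (.ofNat (nat_lit 104595456)), (.ofNat (nat_lit 173801472)), (.ofNat (nat_lit 104595472)), (.ofNat (nat_lit 173801456)), (.ofNat (nat_lit 2471863705877079916544)), (.ofNat (nat_lit 0)), (.negSucc (nat_lit 7775810871761294851710124031))⟩,
    ⟨nat_lit 11, nat_lit 10, (.ofNat (nat_lit 121896960)), (.ofNat (nat_lit 173801472)), (.ofNat (nat_lit 121896976)), (.ofNat (nat_lit 173801456)), (.negSucc (nat_lit 2471863705877079916543)), (.ofNat (nat_lit 0)), (.ofNat (nat_lit 11015732068328501039922675712))⟩,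
    ⟨nat_lit 12, nat_lit 11, (.ofNat (nat_lit 87293952)), (.ofNat (nat_lit 121896960)), (.ofNat (nat_lit 87293968)), (.ofNat (nat_lit 121896944)), (.ofNat (nat_lit 2471863705877079916544)), (.ofNat (nat_lit 0)), (.negSucc (nat_lit 3887905435880647425855062015))⟩,
    ⟨nat_lit 12, nat_lit 13, (.ofNat (nat_lit 87293952)), (.ofNat (nat_lit 156499968)), (.ofNat (nat_lit 87293968)), (.ofNat (nat_lit 156499952)), (.negSucc (nat_lit 2471863705877079916543)), (.ofNat (nat_lit 0)), (.ofNat (nat_lit 8423795111074736089352634368))⟩,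
    ⟨nat_lit 14, nat_lit 13, (.ofNat (nat_lit 104595456)), (.ofNat (nat_lit 156499968)), (.ofNat (nat_lit 104595472)), (.ofNat (nat_lit 156499952)), (.ofNat (nat_lit 2471863705877079916544)), (.ofNat (nat_lit 0)), (.negSucc (nat_lit 9071779350388177326995144703))⟩,
    ⟨nat_lit 15, nat_lit 14, (.negSucc (nat_lit 33554431)), (.ofNat (nat_lit 104595456)), (.negSucc (nat_lit 33554415)), (.ofNat (nat_lit 104595440)), (.negSucc (nat_lit 2471863705877079916543)), (.ofNat (nat_lit 0)), (.ofNat (nat_lit 4535889675194088663497572352))⟩,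
    ⟨nat_lit 16, nat_lit 15, (.negSucc (nat_lit 102498303)), (.negSucc (nat_lit 33554431)), (.negSucc (nat_lit 102498287)), (.negSucc (nat_lit 33554447)), (.ofNat (nat_lit 2471863705877079916544)), (.ofNat (nat_lit 0)), (.ofNat (nat_lit 647984239313441237642510336))⟩,
    ⟨nat_lit 7, nat_lit 17, (.negSucc (nat_lit 102498303)), (.negSucc (nat_lit 15990783)), (.negSucc (nat_lit 102498287)), (.negSucc (nat_lit 15990799)), (.negSucc (nat_lit 2471863705877079916543)), (.ofNat (nat_lit 0)), (.ofNat (nat_lit 0))⟩,
    ⟨nat_lit 17, nat_lit 18, (.negSucc (nat_lit 15990783)), (.ofNat (nat_lit 121896960)), (.negSucc (nat_lit 15990767)), (.ofNat (nat_lit 121896944)), (.ofNat (nat_lit 2471863705877079916544)), (.ofNat (nat_lit 0)), (.negSucc (nat_lit 5183873914507529901140082687))⟩,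
    ⟨nat_lit 19, nat_lit 18, (.ofNat (nat_lit 87293952)), (.ofNat (nat_lit 121896960)), (.ofNat (nat_lit 87293968)), (.ofNat (nat_lit 121896944)), (.negSucc (nat_lit 2471863705877079916543)), (.ofNat (nat_lit 0)), (.ofNat (nat_lit 9719763589701618564637655040))⟩,
    ⟨nat_lit 20, nat_lit 19, (.negSucc (nat_lit 16515071)), (.ofNat (nat_lit 87293952)), (.negSucc (nat_lit 16515055)), (.ofNat (nat_lit 87293936)), (.ofNat (nat_lit 2471863705877079916544)), (.ofNat (nat_lit 0)), (.negSucc (nat_lit 2591936957253764950570041343))⟩,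
    ⟨nat_lit 21, nat_lit 20, (.negSucc (nat_lit 104071167)), (.negSucc (nat_lit 16515071)), (.negSucc (nat_lit 104071151)), (.negSucc (nat_lit 16515087)), (.negSucc (nat_lit 2471863705877079916543)), (.ofNat (nat_lit 0)), (.ofNat (nat_lit 1943952717940323712927531008))⟩,
    ⟨nat_lit 21, nat_lit 22, (.negSucc (nat_lit 104071167)), (.negSucc (nat_lit 34865151)), (.negSucc (nat_lit 104071151)), (.negSucc (nat_lit 34865167)), (.ofNat (nat_lit 2471863705877079916544)), (.ofNat (nat_lit 0)), (.ofNat (nat_lit 3239921196567206188212551680))⟩,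
    ⟨nat_lit 22, nat_lit 23, (.negSucc (nat_lit 34865151)), (.ofNat (nat_lit 104595456)), (.negSucc (nat_lit 34865135)), (.ofNat (nat_lit 104595440)), (.negSucc (nat_lit 2471863705877079916543)), (.ofNat (nat_lit 0)), (.ofNat (nat_lit 7127826632447853614067613696))⟩,
    ⟨nat_lit 0, nat_lit 23, (.negSucc (nat_lit 34603007)), (.ofNat (nat_lit 104595456)), (.negSucc (nat_lit 34602991)), (.ofNat (nat_lit 104595440)), (.ofNat (nat_lit 2471863705877079916544)), (.ofNat (nat_lit 0)), (.negSucc (nat_lit 6479842393134412376425103359))⟩,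
    ⟨nat_lit 24, nat_lit 25, (.negSucc (nat_lit 139198463)), (.negSucc (nat_lit 120848383)), (.negSucc (nat_lit 139198447)), (.negSucc (nat_lit 120848399)), (.negSucc (nat_lit 2471863705877079916543)), (.ofNat (nat_lit 0)), (.negSucc (nat_lit 1295968478626882475285020671))⟩,
    ⟨nat_lit 25, nat_lit 7, (.negSucc (nat_lit 120848383)), (.negSucc (nat_lit 102498303)), (.negSucc (nat_lit 120848367)), (.negSucc (nat_lit 102498319)), (.ofNat (nat_lit 2471863705877079916544)), (.ofNat (nat_lit 0)), (.ofNat (nat_lit 0))⟩]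

theorem ok14 : stOK 25 25 S14 = true := by decide +kernel

def S15 : SD where
  vs := [
    ⟨nat_lit 0, nat_lit 0, nat_lit 23, (.ofNat (nat_lit 8)), (.negSucc (nat_lit 31457279)), (.ofNat (nat_lit 67390360888597888714821074944)), (.ofNat (nat_lit 786432)), (.negSucc (nat_lit 4535889675194088663497572351)), (.negSucc (nat_lit 31457295)), (.negSucc (nat_lit 31457263)), (.negSucc (nat_lit 2471863705877079916543)), (.ofNat (nat_lit 2471863705877079916544)), (.negSucc (nat_lit 2471863705877079916543)), (.ofNat (nat_lit 2471863705877079916544)), (.ofNat (nat_lit 0))⟩,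
    ⟨nat_lit 2, nat_lit 0, nat_lit 1, (.ofNat (nat_lit 8)), (.negSucc (nat_lit 197132287)), (.ofNat (nat_lit 476916400134692750904887607296)), (.negSucc (nat_lit 1441791)), (.ofNat (nat_lit 971976358970161856463765504)), (.negSucc (nat_lit 197132303)), (.negSucc (nat_lit 197132271)), (.negSucc (nat_lit 2471863705877079916543)), (.ofNat (nat_lit 2471863705877079916544)), (.negSucc (nat_lit 2471863705877079916543)), (.ofNat (nat_lit 2471863705877079916544)), (.ofNat (nat_lit 0))⟩,
    ⟨nat_lit 0, nat_lit 1, nat_lit 2, (.ofNat (nat_lit 8)), (.negSucc (nat_lit 105119743)), (.ofNat (nat_lit 704358868133710625317408735232)), (.negSucc (nat_lit 262143)), (.ofNat (nat_lit 3887905435880647425855062016)), (.negSucc (nat_lit 105119759)), (.negSucc (nat_lit 105119727)), (.ofNat (nat_lit 2471863705877079916544)), (.negSucc (nat_lit 2471863705877079916543)), (.negSucc (nat_lit 2471863705877079916543)), (.ofNat (nat_lit 2471863705877079916544)), (.ofNat (nat_lit 0))⟩,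
    ⟨nat_lit 0, nat_lit 2, nat_lit 3, (.ofNat (nat_lit 8)), (.negSucc (nat_lit 12845055)), (.ofNat (nat_lit 476268415895379309667245096960)), (.ofNat (nat_lit 917504)), (.ofNat (nat_lit 971976358970161856463765504)), (.negSucc (nat_lit 12845071)), (.negSucc (nat_lit 12845039)), (.negSucc (nat_lit 2471863705877079916543)), (.ofNat (nat_lit 2471863705877079916544)), (.negSucc (nat_lit 2471863705877079916543)), (.ofNat (nat_lit 2471863705877079916544)), (.ofNat (nat_lit 0))⟩,
    ⟨nat_lit 1, nat_lit 3, nat_lit 4, (.ofNat (nat_lit 8)), (.ofNat (nat_lit 115605504)), (.ofNat (nat_lit 793780693158965516112075161600)), (.ofNat (nat_lit 2752512)), (.ofNat (nat_lit 5507866034164250519961337856)), (.ofNat (nat_lit 115605488)), (.ofNat (nat_lit 115605520)), (.ofNat (nat_lit 2471863705877079916544)), (.negSucc (nat_lit 2471863705877079916543)), (.negSucc (nat_lit 2471863705877079916543)), (.ofNat (nat_lit 2471863705877079916544)), (.ofNat (nat_lit 0))⟩,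
    ⟨nat_lit 0, nat_lit 5, nat_lit 4, (.ofNat (nat_lit 8)), (.ofNat (nat_lit 4980736)), (.ofNat (nat_lit 1067230042149237718397214523392)), (.ofNat (nat_lit 1310720)), (.ofNat (nat_lit 9071779350388177326995144704)), (.ofNat (nat_lit 4980720)), (.ofNat (nat_lit 4980752)), (.ofNat (nat_lit 2471863705877079916544)), (.negSucc (nat_lit 2471863705877079916543)), (.negSucc (nat_lit 2471863705877079916543)), (.ofNat (nat_lit 2471863705877079916544)), (.ofNat (nat_lit 0))⟩,
    ⟨nat_lit 2, nat_lit 6, nat_lit 5, (.ofNat (nat_lit 8)), (.negSucc (nat_lit 177209343)), (.ofNat (nat_lit 616880995826396058235669839872)), (.negSucc (nat_lit 1048575)), (.ofNat (nat_lit 3239921196567206188212551680)), (.negSucc (nat_lit 177209359)), (.negSucc (nat_lit 177209327)), (.negSucc (nat_lit 2471863705877079916543)), (.ofNat (nat_lit 2471863705877079916544)), (.negSucc (nat_lit 2471863705877079916543)), (.ofNat (nat_lit 2471863705877079916544)), (.ofNat (nat_lit 0))⟩,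
    ⟨nat_lit 0, nat_lit 25, nat_lit 16, (.ofNat (nat_lit 8)), (.negSucc (nat_lit 102498303)), (.ofNat (nat_lit 430909519143438423032269373440)), (.ofNat (nat_lit 0)), (.ofNat (nat_lit 0)), (.negSucc (nat_lit 102498319)), (.negSucc (nat_lit 102498287)), (.ofNat (nat_lit 2471863705877079916544)), (.negSucc (nat_lit 2471863705877079916543)), (.negSucc (nat_lit 2471863705877079916543)), (.ofNat (nat_lit 2471863705877079916544)), (.ofNat (nat_lit 0))⟩,
    ⟨nat_lit 0, nat_lit 7, nat_lit 8, (.ofNat (nat_lit 8)), (.negSucc (nat_lit 31719423)), (.ofNat (nat_lit 704358868133710625317408735232)), (.ofNat (nat_lit 786432)), (.ofNat (nat_lit 3887905435880647425855062016)), (.negSucc (nat_lit 31719439)), (.negSucc (nat_lit 31719407)), (.ofNat (nat_lit 2471863705877079916544)), (.negSucc (nat_lit 2471863705877079916543)), (.negSucc (nat_lit 2471863705877079916543)), (.ofNat (nat_lit 2471863705877079916544)), (.ofNat (nat_lit 0))⟩,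
    ⟨nat_lit 0, nat_lit 8, nat_lit 9, (.ofNat (nat_lit 8)), (.ofNat (nat_lit 115605504)), (.ofNat (nat_lit 340191725639556649762317926400)), (.ofNat (nat_lit 2752512)), (.negSucc (nat_lit 971976358970161856463765503)), (.ofNat (nat_lit 115605488)), (.ofNat (nat_lit 115605520)), (.negSucc (nat_lit 2471863705877079916543)), (.ofNat (nat_lit 2471863705877079916544)), (.negSucc (nat_lit 2471863705877079916543)), (.ofNat (nat_lit 2471863705877079916544)), (.ofNat (nat_lit 0))⟩,
    ⟨nat_lit 1, nat_lit 9, nat_lit 10, (.ofNat (nat_lit 8)), (.ofNat (nat_lit 189005824)), (.ofNat (nat_lit 521627312647320196302220820480)), (.ofNat (nat_lit 3801088)), (.ofNat (nat_lit 1619960598283603094106275840)), (.ofNat (nat_lit 189005808)), (.ofNat (nat_lit 189005840)), (.ofNat (nat_lit 2471863705877079916544)), (.negSucc (nat_lit 2471863705877079916543)), (.negSucc (nat_lit 2471863705877079916543)), (.ofNat (nat_lit 2471863705877079916544)), (.ofNat (nat_lit 0))⟩,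
    ⟨nat_lit 0, nat_lit 11, nat_lit 10, (.ofNat (nat_lit 8)), (.ofNat (nat_lit 133955584)), (.ofNat (nat_lit 657704002903142856207147991040)), (.ofNat (nat_lit 3014656)), (.ofNat (nat_lit 3563913316223926807033806848)), (.ofNat (nat_lit 133955568)), (.ofNat (nat_lit 133955600)), (.ofNat (nat_lit 2471863705877079916544)), (.negSucc (nat_lit 2471863705877079916543)), (.negSucc (nat_lit 2471863705877079916543)), (.ofNat (nat_lit 2471863705877079916544)), (.ofNat (nat_lit 0))⟩,
    ⟨nat_lit 2, nat_lit 12, nat_lit 11, (.ofNat (nat_lit 8)), (.ofNat (nat_lit 97255424)), (.ofNat (nat_lit 566986209399261082937196544000)), (.ofNat (nat_lit 2490368)), (.ofNat (nat_lit 2267944837597044331748786176)), (.ofNat (nat_lit 97255408)), (.ofNat (nat_lit 97255440)), (.negSucc (nat_lit 2471863705877079916543)), (.ofNat (nat_lit 2471863705877079916544)), (.negSucc (nat_lit 2471863705877079916543)), (.ofNat (nat_lit 2471863705877079916544)), (.ofNat (nat_lit 0))⟩,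
    ⟨nat_lit 1, nat_lit 13, nat_lit 12, (.ofNat (nat_lit 8)), (.ofNat (nat_lit 170655744)), (.ofNat (nat_lit 385550622391497536397293649920)), (.ofNat (nat_lit 3538944)), (.negSucc (nat_lit 323992119656720618821255167)), (.ofNat (nat_lit 170655728)), (.ofNat (nat_lit 170655760)), (.ofNat (nat_lit 2471863705877079916544)), (.negSucc (nat_lit 2471863705877079916543)), (.negSucc (nat_lit 2471863705877079916543)), (.ofNat (nat_lit 2471863705877079916544)), (.ofNat (nat_lit 0))⟩,
    ⟨nat_lit 0, nat_lit 14, nat_lit 13, (.ofNat (nat_lit 8)), (.ofNat (nat_lit 115605504)), (.ofNat (nat_lit 249473932135674876492366479360)), (.ofNat (nat_lit 2752512)), (.negSucc (nat_lit 2267944837597044331748786175)), (.ofNat (nat_lit 115605488)), (.ofNat (nat_lit 115605520)), (.negSucc (nat_lit 2471863705877079916543)), (.ofNat (nat_lit 2471863705877079916544)), (.negSucc (nat_lit 2471863705877079916543)), (.ofNat (nat_lit 2471863705877079916544)), (.ofNat (nat_lit 0))⟩,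
    ⟨nat_lit 0, nat_lit 15, nat_lit 14, (.ofNat (nat_lit 8)), (.negSucc (nat_lit 30408703)), (.ofNat (nat_lit 610401153433261645859244736512)), (.ofNat (nat_lit 786432)), (.ofNat (nat_lit 2591936957253764950570041344)), (.negSucc (nat_lit 30408719)), (.negSucc (nat_lit 30408687)), (.ofNat (nat_lit 2471863705877079916544)), (.negSucc (nat_lit 2471863705877079916543)), (.negSucc (nat_lit 2471863705877079916543)), (.ofNat (nat_lit 2471863705877079916544)), (.ofNat (nat_lit 0))⟩,
    ⟨nat_lit 0, nat_lit 6, nat_lit 15, (.ofNat (nat_lit 8)), (.negSucc (nat_lit 102498303)), (.ofNat (nat_lit 432205487622065305507554394112)), (.ofNat (nat_lit 0)), (.ofNat (nat_lit 647984239313441237642510336)), (.negSucc (nat_lit 102498319)), (.negSucc (nat_lit 102498287)), (.negSucc (nat_lit 2471863705877079916543)), (.ofNat (nat_lit 2471863705877079916544)), (.negSucc (nat_lit 2471863705877079916543)), (.ofNat (nat_lit 2471863705877079916544)), (.ofNat (nat_lit 0))⟩,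
    ⟨nat_lit 0, nat_lit 16, nat_lit 17, (.ofNat (nat_lit 8)), (.negSucc (nat_lit 11796479)), (.ofNat (nat_lit 206706972340987754807960797184)), (.ofNat (nat_lit 1048576)), (.negSucc (nat_lit 2591936957253764950570041343)), (.negSucc (nat_lit 11796495)), (.negSucc (nat_lit 11796463)), (.negSucc (nat_lit 2471863705877079916543)), (.ofNat (nat_lit 2471863705877079916544)), (.negSucc (nat_lit 2471863705877079916543)), (.ofNat (nat_lit 2471863705877079916544)), (.ofNat (nat_lit 0))⟩,
    ⟨nat_lit 1, nat_lit 17, nat_lit 18, (.ofNat (nat_lit 8)), (.ofNat (nat_lit 133955584)), (.ofNat (nat_lit 566986209399261082937196544000)), (.ofNat (nat_lit 3014656)), (.ofNat (nat_lit 2267944837597044331748786176)), (.ofNat (nat_lit 133955568)), (.ofNat (nat_lit 133955600)), (.ofNat (nat_lit 2471863705877079916544)), (.negSucc (nat_lit 2471863705877079916543)), (.negSucc (nat_lit 2471863705877079916543)), (.ofNat (nat_lit 2471863705877079916544)), (.ofNat (nat_lit 0))⟩,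
    ⟨nat_lit 0, nat_lit 19, nat_lit 18, (.ofNat (nat_lit 8)), (.ofNat (nat_lit 97255424)), (.ofNat (nat_lit 657704002903142856207147991040)), (.ofNat (nat_lit 2490368)), (.ofNat (nat_lit 3563913316223926807033806848)), (.ofNat (nat_lit 97255408)), (.ofNat (nat_lit 97255440)), (.ofNat (nat_lit 2471863705877079916544)), (.negSucc (nat_lit 2471863705877079916543)), (.negSucc (nat_lit 2471863705877079916543)), (.ofNat (nat_lit 2471863705877079916544)), (.ofNat (nat_lit 0))⟩,
    ⟨nat_lit 0, nat_lit 20, nat_lit 19, (.ofNat (nat_lit 8)), (.negSucc (nat_lit 12845055)), (.ofNat (nat_lit 385550622391497536397293649920)), (.ofNat (nat_lit 917504)), (.negSucc (nat_lit 323992119656720618821255167)), (.negSucc (nat_lit 12845071)), (.negSucc (nat_lit 12845039)), (.negSucc (nat_lit 2471863705877079916543)), (.ofNat (nat_lit 2471863705877079916544)), (.negSucc (nat_lit 2471863705877079916543)), (.ofNat (nat_lit 2471863705877079916544)), (.ofNat (nat_lit 0))⟩,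
    ⟨nat_lit 2, nat_lit 20, nat_lit 21, (.ofNat (nat_lit 8)), (.negSucc (nat_lit 105119743)), (.ofNat (nat_lit 613641074629828852047457288192)), (.negSucc (nat_lit 262143)), (.ofNat (nat_lit 2591936957253764950570041344)), (.negSucc (nat_lit 105119759)), (.negSucc (nat_lit 105119727)), (.negSucc (nat_lit 2471863705877079916543)), (.ofNat (nat_lit 2471863705877079916544)), (.negSucc (nat_lit 2471863705877079916543)), (.ofNat (nat_lit 2471863705877079916544)), (.ofNat (nat_lit 0))⟩,
    ⟨nat_lit 0, nat_lit 21, nat_lit 22, (.ofNat (nat_lit 8)), (.negSucc (nat_lit 31719423)), (.ofNat (nat_lit 795076661637592398587360182272)), (.ofNat (nat_lit 786432)), (.ofNat (nat_lit 5183873914507529901140082688)), (.negSucc (nat_lit 31719439)), (.negSucc (nat_lit 31719407)), (.ofNat (nat_lit 2471863705877079916544)), (.negSucc (nat_lit 2471863705877079916543)), (.negSucc (nat_lit 2471863705877079916543)), (.ofNat (nat_lit 2471863705877079916544)), (.ofNat (nat_lit 0))⟩,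
    ⟨nat_lit 1, nat_lit 23, nat_lit 22, (.ofNat (nat_lit 8)), (.ofNat (nat_lit 115605504)), (.ofNat (nat_lit 430909519143438423032269373440)), (.ofNat (nat_lit 2752512)), (.ofNat (nat_lit 323992119656720618821255168)), (.ofNat (nat_lit 115605488)), (.ofNat (nat_lit 115605520)), (.ofNat (nat_lit 2471863705877079916544)), (.negSucc (nat_lit 2471863705877079916543)), (.negSucc (nat_lit 2471863705877079916543)), (.ofNat (nat_lit 2471863705877079916544)), (.ofNat (nat_lit 0))⟩,
    ⟨nat_lit 2, nat_lit 24, nat_lit 7, (.ofNat (nat_lit 8)), (.negSucc (nat_lit 141819903)), (.ofNat (nat_lit 432205487622065305507554394112)), (.negSucc (nat_lit 655359)), (.ofNat (nat_lit 323992119656720618821255168)), (.negSucc (nat_lit 141819919)), (.negSucc (nat_lit 141819887)), (.negSucc (nat_lit 2471863705877079916543)), (.ofNat (nat_lit 2471863705877079916544)), (.negSucc (nat_lit 2471863705877079916543)), (.ofNat (nat_lit 2471863705877079916544)), (.ofNat (nat_lit 0))⟩,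
    ⟨nat_lit 0, nat_lit 24, nat_lit 25, (.ofNat (nat_lit 8)), (.negSucc (nat_lit 121896959)), (.ofNat (nat_lit 382958685434243771446723608576)), (.negSucc (nat_lit 262143)), (.negSucc (nat_lit 647984239313441237642510335)), (.negSucc (nat_lit 121896975)), (.negSucc (nat_lit 121896943)), (.negSucc (nat_lit 2471863705877079916543)), (.ofNat (nat_lit 2471863705877079916544)), (.negSucc (nat_lit 2471863705877079916543)), (.ofNat (nat_lit 2471863705877079916544)), (.ofNat (nat_lit 0))⟩]
  es := [
    ⟨nat_lit 1, nat_lit 0, (.negSucc (nat_lit 197132287)), (.negSucc (nat_lit 31457279)), (.negSucc (nat_lit 197132271)), (.negSucc (nat_lit 31457295)), (.negSucc (nat_lit 2471863705877079916543)), (.ofNat (nat_lit 0)), (.negSucc (nat_lit 2591936957253764950570041343))⟩,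
    ⟨nat_lit 1, nat_lit 2, (.negSucc (nat_lit 197132287)), (.negSucc (nat_lit 105119743)), (.negSucc (nat_lit 197132271)), (.negSucc (nat_lit 105119759)), (.ofNat (nat_lit 2471863705877079916544)), (.ofNat (nat_lit 0)), (.ofNat (nat_lit 4535889675194088663497572352))⟩,
    ⟨nat_lit 2, nat_lit 3, (.negSucc (nat_lit 105119743)), (.negSucc (nat_lit 12845055)), (.negSucc (nat_lit 105119727)), (.negSucc (nat_lit 12845071)), (.negSucc (nat_lit 2471863705877079916543)), (.ofNat (nat_lit 0)), (.ofNat (nat_lit 3239921196567206188212551680))⟩,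
    ⟨nat_lit 3, nat_lit 4, (.negSucc (nat_lit 12845055)), (.ofNat (nat_lit 115605504)), (.negSucc (nat_lit 12845039)), (.ofNat (nat_lit 115605488)), (.ofNat (nat_lit 2471863705877079916544)), (.ofNat (nat_lit 0)), (.negSucc (nat_lit 1295968478626882475285020671))⟩,
    ⟨nat_lit 5, nat_lit 4, (.ofNat (nat_lit 4980736)), (.ofNat (nat_lit 115605504)), (.ofNat (nat_lit 4980752)), (.ofNat (nat_lit 115605488)), (.negSucc (nat_lit 2471863705877079916543)), (.ofNat (nat_lit 0)), (.ofNat (nat_lit 12311700546955383515207696384))⟩,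
    ⟨nat_lit 6, nat_lit 5, (.negSucc (nat_lit 177209343)), (.ofNat (nat_lit 4980736)), (.negSucc (nat_lit 177209327)), (.ofNat (nat_lit 4980720)), (.ofNat (nat_lit 2471863705877079916544)), (.ofNat (nat_lit 0)), (.ofNat (nat_lit 5831858153820971138782593024))⟩,
    ⟨nat_lit 6, nat_lit 16, (.negSucc (nat_lit 177209343)), (.negSucc (nat_lit 102498303)), (.negSucc (nat_lit 177209327)), (.negSucc (nat_lit 102498319)), (.negSucc (nat_lit 2471863705877079916543)), (.ofNat (nat_lit 0)), (.ofNat (nat_lit 647984239313441237642510336))⟩,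
    ⟨nat_lit 24, nat_lit 8, (.negSucc (nat_lit 141819903)), (.negSucc (nat_lit 31719423)), (.negSucc (nat_lit 141819887)), (.negSucc (nat_lit 31719439)), (.ofNat (nat_lit 2471863705877079916544)), (.ofNat (nat_lit 0)), (.ofNat (nat_lit 1943952717940323712927531008))⟩,
    ⟨nat_lit 8, nat_lit 9, (.negSucc (nat_lit 31719423)), (.ofNat (nat_lit 115605504)), (.negSucc (nat_lit 31719407)), (.ofNat (nat_lit 115605488)), (.negSucc (nat_lit 2471863705877079916543)), (.ofNat (nat_lit 0)), (.ofNat (nat_lit 5831858153820971138782593024))⟩,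
    ⟨nat_lit 9, nat_lit 10, (.ofNat (nat_lit 115605504)), (.ofNat (nat_lit 189005824)), (.ofNat (nat_lit 115605520)), (.ofNat (nat_lit 189005808)), (.ofNat (nat_lit 2471863705877079916544)), (.ofNat (nat_lit 0)), (.negSucc (nat_lit 7775810871761294851710124031))⟩,
    ⟨nat_lit 11, nat_lit 10, (.ofNat (nat_lit 133955584)), (.ofNat (nat_lit 189005824)), (.ofNat (nat_lit 133955600)), (.ofNat (nat_lit 189005808)), (.negSucc (nat_lit 2471863705877079916543)), (.ofNat (nat_lit 0)), (.ofNat (nat_lit 11015732068328501039922675712))⟩,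
    ⟨nat_lit 12, nat_lit 11, (.ofNat (nat_lit 97255424)), (.ofNat (nat_lit 133955584)), (.ofNat (nat_lit 97255440)), (.ofNat (nat_lit 133955568)), (.ofNat (nat_lit 2471863705877079916544)), (.ofNat (nat_lit 0)), (.negSucc (nat_lit 3887905435880647425855062015))⟩,
    ⟨nat_lit 12, nat_lit 13, (.ofNat (nat_lit 97255424)), (.ofNat (nat_lit 170655744)), (.ofNat (nat_lit 97255440)), (.ofNat (nat_lit 170655728)), (.negSucc (nat_lit 2471863705877079916543)), (.ofNat (nat_lit 0)), (.ofNat (nat_lit 8423795111074736089352634368))⟩,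
    ⟨nat_lit 14, nat_lit 13, (.ofNat (nat_lit 115605504)), (.ofNat (nat_lit 170655744)), (.ofNat (nat_lit 115605520)), (.ofNat (nat_lit 170655728)), (.ofNat (nat_lit 2471863705877079916544)), (.ofNat (nat_lit 0)), (.negSucc (nat_lit 9071779350388177326995144703))⟩,
    ⟨nat_lit 15, nat_lit 14, (.negSucc (nat_lit 30408703)), (.ofNat (nat_lit 115605504)), (.negSucc (nat_lit 30408687)), (.ofNat (nat_lit 115605488)), (.negSucc (nat_lit 2471863705877079916543)), (.ofNat (nat_lit 0)), (.ofNat (nat_lit 4535889675194088663497572352))⟩,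
    ⟨nat_lit 16, nat_lit 15, (.negSucc (nat_lit 102498303)), (.negSucc (nat_lit 30408703)), (.negSucc (nat_lit 102498287)), (.negSucc (nat_lit 30408719)), (.ofNat (nat_lit 2471863705877079916544)), (.ofNat (nat_lit 0)), (.ofNat (nat_lit 647984239313441237642510336))⟩,
    ⟨nat_lit 7, nat_lit 17, (.negSucc (nat_lit 102498303)), (.negSucc (nat_lit 11796479)), (.negSucc (nat_lit 102498287)), (.negSucc (nat_lit 11796495)), (.negSucc (nat_lit 2471863705877079916543)), (.ofNat (nat_lit 0)), (.ofNat (nat_lit 0))⟩,
    ⟨nat_lit 17, nat_lit 18, (.negSucc (nat_lit 11796479)), (.ofNat (nat_lit 133955584)), (.negSucc (nat_lit 11796463)), (.ofNat (nat_lit 133955568)), (.ofNat (nat_lit 2471863705877079916544)), (.ofNat (nat_lit 0)), (.negSucc (nat_lit 5183873914507529901140082687))⟩,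
    ⟨nat_lit 19, nat_lit 18, (.ofNat (nat_lit 97255424)), (.ofNat (nat_lit 133955584)), (.ofNat (nat_lit 97255440)), (.ofNat (nat_lit 133955568)), (.negSucc (nat_lit 2471863705877079916543)), (.ofNat (nat_lit 0)), (.ofNat (nat_lit 9719763589701618564637655040))⟩,
    ⟨nat_lit 20, nat_lit 19, (.negSucc (nat_lit 12845055)), (.ofNat (nat_lit 97255424)), (.negSucc (nat_lit 12845039)), (.ofNat (nat_lit 97255408)), (.ofNat (nat_lit 2471863705877079916544)), (.ofNat (nat_lit 0)), (.negSucc (nat_lit 2591936957253764950570041343))⟩,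
    ⟨nat_lit 21, nat_lit 20, (.negSucc (nat_lit 105119743)), (.negSucc (nat_lit 12845055)), (.negSucc (nat_lit 105119727)), (.negSucc (nat_lit 12845071)), (.negSucc (nat_lit 2471863705877079916543)), (.ofNat (nat_lit 0)), (.ofNat (nat_lit 1943952717940323712927531008))⟩,
    ⟨nat_lit 21, nat_lit 22, (.negSucc (nat_lit 105119743)), (.negSucc (nat_lit 31719423)), (.negSucc (nat_lit 105119727)), (.negSucc (nat_lit 31719439)), (.ofNat (nat_lit 2471863705877079916544)), (.ofNat (nat_lit 0)), (.ofNat (nat_lit 3239921196567206188212551680))⟩,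
    ⟨nat_lit 22, nat_lit 23, (.negSucc (nat_lit 31719423)), (.ofNat (nat_lit 115605504)), (.negSucc (nat_lit 31719407)), (.ofNat (nat_lit 115605488)), (.negSucc (nat_lit 2471863705877079916543)), (.ofNat (nat_lit 0)), (.ofNat (nat_lit 7127826632447853614067613696))⟩,
    ⟨nat_lit 0, nat_lit 23, (.negSucc (nat_lit 31457279)), (.ofNat (nat_lit 115605504)), (.negSucc (nat_lit 31457263)), (.ofNat (nat_lit 115605488)), (.ofNat (nat_lit 2471863705877079916544)), (.ofNat (nat_lit 0)), (.negSucc (nat_lit 6479842393134412376425103359))⟩,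
    ⟨nat_lit 24, nat_lit 25, (.negSucc (nat_lit 141819903)), (.negSucc (nat_lit 121896959)), (.negSucc (nat_lit 141819887)), (.negSucc (nat_lit 121896975)), (.negSucc (nat_lit 2471863705877079916543)), (.ofNat (nat_lit 0)), (.negSucc (nat_lit 1295968478626882475285020671))⟩,
    ⟨nat_lit 25, nat_lit 7, (.negSucc (nat_lit 121896959)), (.negSucc (nat_lit 102498303)), (.negSucc (nat_lit 121896943)), (.negSucc (nat_lit 102498319)), (.ofNat (nat_lit 2471863705877079916544)), (.ofNat (nat_lit 0)), (.ofNat (nat_lit 0))⟩]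

theorem ok15 : stOK 25 25 S15 = true := by decide +kernel

def S16 : SD where
  vs := [
    ⟨nat_lit 0, nat_lit 0, nat_lit 23, (.ofNat (nat_lit 8)), (.negSucc (nat_lit 32767999)), (.ofNat (nat_lit 73222219042418859853603667968)), (.negSucc (nat_lit 524287)), (.ofNat (nat_lit 1295968478626882475285020672)), (.negSucc (nat_lit 32768015)), (.negSucc (nat_lit 32767983)), (.negSucc (nat_lit 2471863705877079916543)), (.ofNat (nat_lit 2471863705877079916544)), (.negSucc (nat_lit 2471863705877079916543)), (.ofNat (nat_lit 2471863705877079916544)), (.ofNat (nat_lit 0))⟩,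
    ⟨nat_lit 2, nat_lit 0, nat_lit 1, (.ofNat (nat_lit 8)), (.negSucc (nat_lit 198574079)), (.ofNat (nat_lit 483072250408170442662491455488)), (.negSucc (nat_lit 2883583)), (.ofNat (nat_lit 7127826632447853614067613696)), (.negSucc (nat_lit 198574095)), (.negSucc (nat_lit 198574063)), (.negSucc (nat_lit 2471863705877079916543)), (.ofNat (nat_lit 2471863705877079916544)), (.negSucc (nat_lit 2471863705877079916543)), (.ofNat (nat_lit 2471863705877079916544)), (.ofNat (nat_lit 0))⟩,
    ⟨nat_lit 0, nat_lit 1, nat_lit 2, (.ofNat (nat_lit 8)), (.negSucc (nat_lit 87556159)), (.ofNat (nat_lit 757493417558135630670979923968)), (.ofNat (nat_lit 17301440)), (.ofNat (nat_lit 57022454860305652779426250752)), (.negSucc (nat_lit 87556175)), (.negSucc (nat_lit 87556143)), (.ofNat (nat_lit 2471863705877079916544)), (.negSucc (nat_lit 2471863705877079916543)), (.negSucc (nat_lit 2471863705877079916543)), (.ofNat (nat_lit 2471863705877079916544)), (.ofNat (nat_lit 0))⟩,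
    ⟨nat_lit 0, nat_lit 2, nat_lit 3, (.ofNat (nat_lit 8)), (.ofNat (nat_lit 4849600)), (.ofNat (nat_lit 529078973200147594401995030528)), (.ofNat (nat_lit 18612160)), (.ofNat (nat_lit 53782533663738446591213699072)), (.ofNat (nat_lit 4849584)), (.ofNat (nat_lit 4849616)), (.negSucc (nat_lit 2471863705877079916543)), (.ofNat (nat_lit 2471863705877079916544)), (.negSucc (nat_lit 2471863705877079916543)), (.ofNat (nat_lit 2471863705877079916544)), (.ofNat (nat_lit 0))⟩,
    ⟨nat_lit 1, nat_lit 3, nat_lit 4, (.ofNat (nat_lit 8)), (.ofNat (nat_lit 133300160)), (.ofNat (nat_lit 846591250463733800846825095168)), (.ofNat (nat_lit 20447168)), (.ofNat (nat_lit 58318423338932535254711271424)), (.ofNat (nat_lit 133300144)), (.ofNat (nat_lit 133300176)), (.ofNat (nat_lit 2471863705877079916544)), (.negSucc (nat_lit 2471863705877079916543)), (.negSucc (nat_lit 2471863705877079916543)), (.ofNat (nat_lit 2471863705877079916544)), (.ofNat (nat_lit 0))⟩,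
    ⟨nat_lit 0, nat_lit 5, nat_lit 4, (.ofNat (nat_lit 8)), (.ofNat (nat_lit 22544320)), (.ofNat (nat_lit 1120364591573662723750785712128)), (.ofNat (nat_lit 18874304)), (.ofNat (nat_lit 62206328774813182680566333440)), (.ofNat (nat_lit 22544304)), (.ofNat (nat_lit 22544336)), (.ofNat (nat_lit 2471863705877079916544)), (.negSucc (nat_lit 2471863705877079916543)), (.negSucc (nat_lit 2471863705877079916543)), (.ofNat (nat_lit 2471863705877079916544)), (.ofNat (nat_lit 0))⟩,
    ⟨nat_lit 2, nat_lit 6, nat_lit 5, (.ofNat (nat_lit 8)), (.negSucc (nat_lit 159645759)), (.ofNat (nat_lit 670015545250821063589241028608)), (.ofNat (nat_lit 16515008)), (.ofNat (nat_lit 56374470620992211541783740416)), (.negSucc (nat_lit 159645775)), (.negSucc (nat_lit 159645743)), (.negSucc (nat_lit 2471863705877079916543)), (.ofNat (nat_lit 2471863705877079916544)), (.negSucc (nat_lit 2471863705877079916543)), (.ofNat (nat_lit 2471863705877079916544)), (.ofNat (nat_lit 0))⟩,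
    ⟨nat_lit 0, nat_lit 25, nat_lit 16, (.ofNat (nat_lit 8)), (.negSucc (nat_lit 104071167)), (.ofNat (nat_lit 436093393057945952933409456128)), (.negSucc (nat_lit 1572863)), (.ofNat (nat_lit 5183873914507529901140082688)), (.negSucc (nat_lit 104071183)), (.negSucc (nat_lit 104071151)), (.ofNat (nat_lit 2471863705877079916544)), (.negSucc (nat_lit 2471863705877079916543)), (.negSucc (nat_lit 2471863705877079916543)), (.ofNat (nat_lit 2471863705877079916544)), (.ofNat (nat_lit 0))⟩,
    ⟨nat_lit 0, nat_lit 7, nat_lit 8, (.ofNat (nat_lit 8)), (.negSucc (nat_lit 14155839)), (.ofNat (nat_lit 757493417558135630670979923968)), (.ofNat (nat_lit 18350016)), (.ofNat (nat_lit 57022454860305652779426250752)), (.negSucc (nat_lit 14155855)), (.negSucc (nat_lit 14155823)), (.ofNat (nat_lit 2471863705877079916544)), (.negSucc (nat_lit 2471863705877079916543)), (.negSucc (nat_lit 2471863705877079916543)), (.ofNat (nat_lit 2471863705877079916544)), (.ofNat (nat_lit 0))⟩,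
    ⟨nat_lit 0, nat_lit 8, nat_lit 9, (.ofNat (nat_lit 8)), (.ofNat (nat_lit 133300160)), (.ofNat (nat_lit 393002282944324934497067859968)), (.ofNat (nat_lit 20447168)), (.ofNat (nat_lit 51838580945798122878286168064)), (.ofNat (nat_lit 133300144)), (.ofNat (nat_lit 133300176)), (.negSucc (nat_lit 2471863705877079916543)), (.ofNat (nat_lit 2471863705877079916544)), (.negSucc (nat_lit 2471863705877079916543)), (.ofNat (nat_lit 2471863705877079916544)), (.ofNat (nat_lit 0))⟩,
    ⟨nat_lit 1, nat_lit 9, nat_lit 10, (.ofNat (nat_lit 8)), (.ofNat (nat_lit 206700480)), (.ofNat (nat_lit 574437869952088481036970754048)), (.ofNat (nat_lit 21495744)), (.ofNat (nat_lit 54430517903051887828856209408)), (.ofNat (nat_lit 206700464)), (.ofNat (nat_lit 206700496)), (.ofNat (nat_lit 2471863705877079916544)), (.negSucc (nat_lit 2471863705877079916543)), (.negSucc (nat_lit 2471863705877079916543)), (.ofNat (nat_lit 2471863705877079916544)), (.ofNat (nat_lit 0))⟩,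
    ⟨nat_lit 0, nat_lit 11, nat_lit 10, (.ofNat (nat_lit 8)), (.ofNat (nat_lit 151650240)), (.ofNat (nat_lit 710514560207911140941897924608)), (.ofNat (nat_lit 20709312)), (.ofNat (nat_lit 56374470620992211541783740416)), (.ofNat (nat_lit 151650224)), (.ofNat (nat_lit 151650256)), (.ofNat (nat_lit 2471863705877079916544)), (.negSucc (nat_lit 2471863705877079916543)), (.negSucc (nat_lit 2471863705877079916543)), (.ofNat (nat_lit 2471863705877079916544)), (.ofNat (nat_lit 0))⟩,
    ⟨nat_lit 2, nat_lit 12, nat_lit 11, (.ofNat (nat_lit 8)), (.ofNat (nat_lit 114950080)), (.ofNat (nat_lit 619796766704029367671946477568)), (.ofNat (nat_lit 20185024)), (.ofNat (nat_lit 55078502142365329066498719744)), (.ofNat (nat_lit 114950064)), (.ofNat (nat_lit 114950096)), (.negSucc (nat_lit 2471863705877079916543)), (.ofNat (nat_lit 2471863705877079916544)), (.negSucc (nat_lit 2471863705877079916543)), (.ofNat (nat_lit 2471863705877079916544)), (.ofNat (nat_lit 0))⟩,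
    ⟨nat_lit 1, nat_lit 13, nat_lit 12, (.ofNat (nat_lit 8)), (.ofNat (nat_lit 188350400)), (.ofNat (nat_lit 438361179696265821132043583488)), (.ofNat (nat_lit 21233600)), (.ofNat (nat_lit 52486565185111564115928678400)), (.ofNat (nat_lit 188350384)), (.ofNat (nat_lit 188350416)), (.ofNat (nat_lit 2471863705877079916544)), (.negSucc (nat_lit 2471863705877079916543)), (.negSucc (nat_lit 2471863705877079916543)), (.ofNat (nat_lit 2471863705877079916544)), (.ofNat (nat_lit 0))⟩,
    ⟨nat_lit 0, nat_lit 14, nat_lit 13, (.ofNat (nat_lit 8)), (.ofNat (nat_lit 133300160)), (.ofNat (nat_lit 302284489440443161227116412928)), (.ofNat (nat_lit 20447168)), (.ofNat (nat_lit 50542612467171240403001147392)), (.ofNat (nat_lit 133300144)), (.ofNat (nat_lit 133300176)), (.negSucc (nat_lit 2471863705877079916543)), (.ofNat (nat_lit 2471863705877079916544)), (.negSucc (nat_lit 2471863705877079916543)), (.ofNat (nat_lit 2471863705877079916544)), (.ofNat (nat_lit 0))⟩,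
    ⟨nat_lit 0, nat_lit 15, nat_lit 14, (.ofNat (nat_lit 8)), (.negSucc (nat_lit 12845119)), (.ofNat (nat_lit 663535702857686651212815925248)), (.ofNat (nat_lit 18350016)), (.ofNat (nat_lit 55726486381678770304141230080)), (.negSucc (nat_lit 12845135)), (.negSucc (nat_lit 12845103)), (.ofNat (nat_lit 2471863705877079916544)), (.negSucc (nat_lit 2471863705877079916543)), (.negSucc (nat_lit 2471863705877079916543)), (.ofNat (nat_lit 2471863705877079916544)), (.ofNat (nat_lit 0))⟩,
    ⟨nat_lit 0, nat_lit 6, nat_lit 15, (.ofNat (nat_lit 8)), (.negSucc (nat_lit 84934719)), (.ofNat (nat_lit 485340037046490310861125582848)), (.ofNat (nat_lit 17563584)), (.ofNat (nat_lit 53782533663738446591213699072)), (.negSucc (nat_lit 84934735)), (.negSucc (nat_lit 84934703)), (.negSucc (nat_lit 2471863705877079916543)), (.ofNat (nat_lit 2471863705877079916544)), (.negSucc (nat_lit 2471863705877079916543)), (.ofNat (nat_lit 2471863705877079916544)), (.ofNat (nat_lit 0))⟩,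
    ⟨nat_lit 0, nat_lit 16, nat_lit 17, (.ofNat (nat_lit 8)), (.negSucc (nat_lit 13369343)), (.ofNat (nat_lit 211890846255495284709100879872)), (.negSucc (nat_lit 524287)), (.ofNat (nat_lit 2591936957253764950570041344)), (.negSucc (nat_lit 13369359)), (.negSucc (nat_lit 13369327)), (.negSucc (nat_lit 2471863705877079916543)), (.ofNat (nat_lit 2471863705877079916544)), (.negSucc (nat_lit 2471863705877079916543)), (.ofNat (nat_lit 2471863705877079916544)), (.ofNat (nat_lit 0))⟩,
    ⟨nat_lit 1, nat_lit 17, nat_lit 18, (.ofNat (nat_lit 8)), (.ofNat (nat_lit 151650240)), (.ofNat (nat_lit 619796766704029367671946477568)), (.ofNat (nat_lit 20709312)), (.ofNat (nat_lit 55078502142365329066498719744)), (.ofNat (nat_lit 151650224)), (.ofNat (nat_lit 151650256)), (.ofNat (nat_lit 2471863705877079916544)), (.negSucc (nat_lit 2471863705877079916543)), (.negSucc (nat_lit 2471863705877079916543)), (.ofNat (nat_lit 2471863705877079916544)), (.ofNat (nat_lit 0))⟩,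
    ⟨nat_lit 0, nat_lit 19, nat_lit 18, (.ofNat (nat_lit 8)), (.ofNat (nat_lit 114950080)), (.ofNat (nat_lit 710514560207911140941897924608)), (.ofNat (nat_lit 20185024)), (.ofNat (nat_lit 56374470620992211541783740416)), (.ofNat (nat_lit 114950064)), (.ofNat (nat_lit 114950096)), (.ofNat (nat_lit 2471863705877079916544)), (.negSucc (nat_lit 2471863705877079916543)), (.negSucc (nat_lit 2471863705877079916543)), (.ofNat (nat_lit 2471863705877079916544)), (.ofNat (nat_lit 0))⟩,
    ⟨nat_lit 0, nat_lit 20, nat_lit 19, (.ofNat (nat_lit 8)), (.ofNat (nat_lit 4849600)), (.ofNat (nat_lit 438361179696265821132043583488)), (.ofNat (nat_lit 18612160)), (.ofNat (nat_lit 52486565185111564115928678400)), (.ofNat (nat_lit 4849584)), (.ofNat (nat_lit 4849616)), (.negSucc (nat_lit 2471863705877079916543)), (.ofNat (nat_lit 2471863705877079916544)), (.negSucc (nat_lit 2471863705877079916543)), (.ofNat (nat_lit 2471863705877079916544)), (.ofNat (nat_lit 0))⟩,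
    ⟨nat_lit 2, nat_lit 20, nat_lit 21, (.ofNat (nat_lit 8)), (.negSucc (nat_lit 87556159)), (.ofNat (nat_lit 666775624054253857401028476928)), (.ofNat (nat_lit 17301440)), (.ofNat (nat_lit 55726486381678770304141230080)), (.negSucc (nat_lit 87556175)), (.negSucc (nat_lit 87556143)), (.negSucc (nat_lit 2471863705877079916543)), (.ofNat (nat_lit 2471863705877079916544)), (.negSucc (nat_lit 2471863705877079916543)), (.ofNat (nat_lit 2471863705877079916544)), (.ofNat (nat_lit 0))⟩,
    ⟨nat_lit 0, nat_lit 21, nat_lit 22, (.ofNat (nat_lit 8)), (.negSucc (nat_lit 14155839)), (.ofNat (nat_lit 848211211062017403940931371008)), (.ofNat (nat_lit 18350016)), (.ofNat (nat_lit 58318423338932535254711271424)), (.negSucc (nat_lit 14155855)), (.negSucc (nat_lit 14155823)), (.ofNat (nat_lit 2471863705877079916544)), (.negSucc (nat_lit 2471863705877079916543)), (.negSucc (nat_lit 2471863705877079916543)), (.ofNat (nat_lit 2471863705877079916544)), (.ofNat (nat_lit 0))⟩,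
    ⟨nat_lit 1, nat_lit 23, nat_lit 22, (.ofNat (nat_lit 8)), (.ofNat (nat_lit 133300160)), (.ofNat (nat_lit 483720076448206707767019307008)), (.ofNat (nat_lit 20447168)), (.ofNat (nat_lit 53134549424425005353571188736)), (.ofNat (nat_lit 133300144)), (.ofNat (nat_lit 133300176)), (.ofNat (nat_lit 2471863705877079916544)), (.negSucc (nat_lit 2471863705877079916543)), (.negSucc (nat_lit 2471863705877079916543)), (.ofNat (nat_lit 2471863705877079916544)), (.ofNat (nat_lit 0))⟩,
    ⟨nat_lit 2, nat_lit 24, nat_lit 7, (.ofNat (nat_lit 8)), (.negSucc (nat_lit 124125247)), (.ofNat (nat_lit 485664029166147031479946838016)), (.ofNat (nat_lit 17039296)), (.ofNat (nat_lit 53782533663738446591213699072)), (.negSucc (nat_lit 124125263)), (.negSucc (nat_lit 124125231)), (.negSucc (nat_lit 2471863705877079916543)), (.ofNat (nat_lit 2471863705877079916544)), (.negSucc (nat_lit 2471863705877079916543)), (.ofNat (nat_lit 2471863705877079916544)), (.ofNat (nat_lit 0))⟩,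
    ⟨nat_lit 0, nat_lit 24, nat_lit 25, (.ofNat (nat_lit 8)), (.negSucc (nat_lit 104071231)), (.ofNat (nat_lit 436093234858668776800294797312)), (.ofNat (nat_lit 17563584)), (.ofNat (nat_lit 52486565185111564115928678400)), (.negSucc (nat_lit 104071247)), (.negSucc (nat_lit 104071215)), (.negSucc (nat_lit 2471863705877079916543)), (.ofNat (nat_lit 2471863705877079916544)), (.negSucc (nat_lit 2471863705877079916543)), (.ofNat (nat_lit 2471863705877079916544)), (.ofNat (nat_lit 0))⟩]
  es := [
    ⟨nat_lit 1, nat_lit 0, (.negSucc (nat_lit 198574079)), (.negSucc (nat_lit 32767999)), (.negSucc (nat_lit 198574063)), (.negSucc (nat_lit 32768015)), (.negSucc (nat_lit 2471863705877079916543)), (.ofNat (nat_lit 0)), (.ofNat (nat_lit 0))⟩,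
    ⟨nat_lit 1, nat_lit 2, (.negSucc (nat_lit 198574079)), (.negSucc (nat_lit 87556159)), (.negSucc (nat_lit 198574063)), (.negSucc (nat_lit 87556175)), (.ofNat (nat_lit 2471863705877079916544)), (.ofNat (nat_lit 0)), (.ofNat (nat_lit 14255653264895707228135227392))⟩,
    ⟨nat_lit 2, nat_lit 3, (.negSucc (nat_lit 87556159)), (.ofNat (nat_lit 4849600)), (.negSucc (nat_lit 87556143)), (.ofNat (nat_lit 4849584)), (.negSucc (nat_lit 2471863705877079916543)), (.ofNat (nat_lit 0)), (.ofNat (nat_lit 99789256455715598330717274112))⟩,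
    ⟨nat_lit 3, nat_lit 4, (.ofNat (nat_lit 4849600)), (.ofNat (nat_lit 133300160)), (.ofNat (nat_lit 4849616)), (.ofNat (nat_lit 133300144)), (.ofNat (nat_lit 2471863705877079916544)), (.ofNat (nat_lit 0)), (.ofNat (nat_lit 7775810871761294851710124032))⟩,
    ⟨nat_lit 5, nat_lit 4, (.ofNat (nat_lit 22544320)), (.ofNat (nat_lit 133300160)), (.ofNat (nat_lit 22544336)), (.ofNat (nat_lit 133300144)), (.negSucc (nat_lit 2471863705877079916543)), (.ofNat (nat_lit 0)), (.ofNat (nat_lit 108861035806103775657712418816))⟩,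
    ⟨nat_lit 6, nat_lit 5, (.negSucc (nat_lit 159645759)), (.ofNat (nat_lit 22544320)), (.negSucc (nat_lit 159645743)), (.ofNat (nat_lit 22544304)), (.ofNat (nat_lit 2471863705877079916544)), (.ofNat (nat_lit 0)), (.ofNat (nat_lit 15551621743522589703420248064))⟩,
    ⟨nat_lit 6, nat_lit 16, (.negSucc (nat_lit 159645759)), (.negSucc (nat_lit 84934719)), (.negSucc (nat_lit 159645743)), (.negSucc (nat_lit 84934735)), (.negSucc (nat_lit 2471863705877079916543)), (.ofNat (nat_lit 0)), (.ofNat (nat_lit 97197319498461833380147232768))⟩,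
    ⟨nat_lit 24, nat_lit 8, (.negSucc (nat_lit 124125247)), (.negSucc (nat_lit 14155839)), (.negSucc (nat_lit 124125231)), (.negSucc (nat_lit 14155855)), (.ofNat (nat_lit 2471863705877079916544)), (.ofNat (nat_lit 0)), (.ofNat (nat_lit 11663716307641942277565186048))⟩,
    ⟨nat_lit 8, nat_lit 9, (.negSucc (nat_lit 14155839)), (.ofNat (nat_lit 133300160)), (.negSucc (nat_lit 14155823)), (.ofNat (nat_lit 133300144)), (.negSucc (nat_lit 2471863705877079916543)), (.ofNat (nat_lit 0)), (.ofNat (nat_lit 102381193412969363281287315456))⟩,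
    ⟨nat_lit 9, nat_lit 10, (.ofNat (nat_lit 133300160)), (.ofNat (nat_lit 206700480)), (.ofNat (nat_lit 133300176)), (.ofNat (nat_lit 206700464)), (.ofNat (nat_lit 2471863705877079916544)), (.ofNat (nat_lit 0)), (.ofNat (nat_lit 1295968478626882475285020672))⟩,
    ⟨nat_lit 11, nat_lit 10, (.ofNat (nat_lit 151650240)), (.ofNat (nat_lit 206700480)), (.ofNat (nat_lit 151650256)), (.ofNat (nat_lit 206700464)), (.negSucc (nat_lit 2471863705877079916543)), (.ofNat (nat_lit 0)), (.ofNat (nat_lit 107565067327476893182427398144))⟩,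
    ⟨nat_lit 12, nat_lit 11, (.ofNat (nat_lit 114950080)), (.ofNat (nat_lit 151650240)), (.ofNat (nat_lit 114950096)), (.ofNat (nat_lit 151650224)), (.ofNat (nat_lit 2471863705877079916544)), (.ofNat (nat_lit 0)), (.ofNat (nat_lit 5183873914507529901140082688))⟩,
    ⟨nat_lit 12, nat_lit 13, (.ofNat (nat_lit 114950080)), (.ofNat (nat_lit 188350400)), (.ofNat (nat_lit 114950096)), (.ofNat (nat_lit 188350384)), (.negSucc (nat_lit 2471863705877079916543)), (.ofNat (nat_lit 0)), (.ofNat (nat_lit 104973130370223128231857356800))⟩,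
    ⟨nat_lit 14, nat_lit 13, (.ofNat (nat_lit 133300160)), (.ofNat (nat_lit 188350400)), (.ofNat (nat_lit 133300176)), (.ofNat (nat_lit 188350384)), (.ofNat (nat_lit 2471863705877079916544)), (.ofNat (nat_lit 0)), (.ofNat (nat_lit 0))⟩,
    ⟨nat_lit 15, nat_lit 14, (.negSucc (nat_lit 12845119)), (.ofNat (nat_lit 133300160)), (.negSucc (nat_lit 12845103)), (.ofNat (nat_lit 133300144)), (.negSucc (nat_lit 2471863705877079916543)), (.ofNat (nat_lit 0)), (.ofNat (nat_lit 101085224934342480806002294784))⟩,
    ⟨nat_lit 16, nat_lit 15, (.negSucc (nat_lit 84934719)), (.negSucc (nat_lit 12845119)), (.negSucc (nat_lit 84934703)), (.negSucc (nat_lit 12845135)), (.ofNat (nat_lit 2471863705877079916544)), (.ofNat (nat_lit 0)), (.ofNat (nat_lit 10367747829015059802280165376))⟩,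
    ⟨nat_lit 7, nat_lit 17, (.negSucc (nat_lit 104071167)), (.negSucc (nat_lit 13369343)), (.negSucc (nat_lit 104071151)), (.negSucc (nat_lit 13369359)), (.negSucc (nat_lit 2471863705877079916543)), (.ofNat (nat_lit 0)), (.ofNat (nat_lit 1295968478626882475285020672))⟩,
    ⟨nat_lit 17, nat_lit 18, (.negSucc (nat_lit 13369343)), (.ofNat (nat_lit 151650240)), (.negSucc (nat_lit 13369327)), (.ofNat (nat_lit 151650224)), (.ofNat (nat_lit 2471863705877079916544)), (.ofNat (nat_lit 0)), (.ofNat (nat_lit 3887905435880647425855062016))⟩,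
    ⟨nat_lit 19, nat_lit 18, (.ofNat (nat_lit 114950080)), (.ofNat (nat_lit 151650240)), (.ofNat (nat_lit 114950096)), (.ofNat (nat_lit 151650224)), (.negSucc (nat_lit 2471863705877079916543)), (.ofNat (nat_lit 0)), (.ofNat (nat_lit 106269098848850010707142377472))⟩,
    ⟨nat_lit 20, nat_lit 19, (.ofNat (nat_lit 4849600)), (.ofNat (nat_lit 114950080)), (.ofNat (nat_lit 4849616)), (.ofNat (nat_lit 114950064)), (.ofNat (nat_lit 2471863705877079916544)), (.ofNat (nat_lit 0)), (.ofNat (nat_lit 6479842393134412376425103360))⟩,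
    ⟨nat_lit 21, nat_lit 20, (.negSucc (nat_lit 87556159)), (.ofNat (nat_lit 4849600)), (.negSucc (nat_lit 87556143)), (.ofNat (nat_lit 4849584)), (.negSucc (nat_lit 2471863705877079916543)), (.ofNat (nat_lit 0)), (.ofNat (nat_lit 98493287977088715855432253440))⟩,
    ⟨nat_lit 21, nat_lit 22, (.negSucc (nat_lit 87556159)), (.negSucc (nat_lit 14155839)), (.negSucc (nat_lit 87556143)), (.negSucc (nat_lit 14155855)), (.ofNat (nat_lit 2471863705877079916544)), (.ofNat (nat_lit 0)), (.ofNat (nat_lit 12959684786268824752850206720))⟩,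
    ⟨nat_lit 22, nat_lit 23, (.negSucc (nat_lit 14155839)), (.ofNat (nat_lit 133300160)), (.negSucc (nat_lit 14155823)), (.ofNat (nat_lit 133300144)), (.negSucc (nat_lit 2471863705877079916543)), (.ofNat (nat_lit 0)), (.ofNat (nat_lit 103677161891596245756572336128))⟩,
    ⟨nat_lit 0, nat_lit 23, (.negSucc (nat_lit 32767999)), (.ofNat (nat_lit 133300160)), (.negSucc (nat_lit 32767983)), (.ofNat (nat_lit 133300144)), (.ofNat (nat_lit 2471863705877079916544)), (.ofNat (nat_lit 0)), (.ofNat (nat_lit 2591936957253764950570041344))⟩,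
    ⟨nat_lit 24, nat_lit 25, (.negSucc (nat_lit 124125247)), (.negSucc (nat_lit 104071231)), (.negSucc (nat_lit 124125231)), (.negSucc (nat_lit 104071247)), (.negSucc (nat_lit 2471863705877079916543)), (.ofNat (nat_lit 0)), (.ofNat (nat_lit 95901351019834950904862212096))⟩,
    ⟨nat_lit 25, nat_lit 7, (.negSucc (nat_lit 104071231)), (.negSucc (nat_lit 104071167)), (.negSucc (nat_lit 104071215)), (.negSucc (nat_lit 104071183)), (.ofNat (nat_lit 2471863705877079916544)), (.ofNat (nat_lit 0)), (.ofNat (nat_lit 9071779350388177326995144704))⟩]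

theorem ok16 : stOK 25 25 S16 = true := by decide +kernel

def S17 : SD where
  vs := [
    ⟨nat_lit 0, nat_lit 0, nat_lit 23, (.ofNat (nat_lit 8)), (.negSucc (nat_lit 32767999)), (.ofNat (nat_lit 74366316219396211385051381760)), (.ofNat (nat_lit 0)), (.ofNat (nat_lit 1144097176977351531447713792)), (.negSucc (nat_lit 32768015)), (.negSucc (nat_lit 32767983)), (.negSucc (nat_lit 2510486576431281550079)), (.ofNat (nat_lit 2510486576431281550080)), (.negSucc (nat_lit 2510486576431281550079)), (.ofNat (nat_lit 2510486576431281550080)), (.ofNat (nat_lit 231737223325209801216))⟩,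
    ⟨nat_lit 2, nat_lit 0, nat_lit 1, (.ofNat (nat_lit 8)), (.negSucc (nat_lit 198574079)), (.ofNat (nat_lit 490620254350087394580139868160)), (.ofNat (nat_lit 0)), (.ofNat (nat_lit 7548003941916951917648412672)), (.negSucc (nat_lit 198574095)), (.negSucc (nat_lit 198574063)), (.negSucc (nat_lit 2510486576431281550079)), (.ofNat (nat_lit 2510486576431281550080)), (.negSucc (nat_lit 2510486576431281550079)), (.ofNat (nat_lit 2510486576431281550080)), (.ofNat (nat_lit 231737223325209801216))⟩,
    ⟨nat_lit 0, nat_lit 1, nat_lit 2, (.ofNat (nat_lit 8)), (.negSucc (nat_lit 87556159)), (.ofNat (nat_lit 769329252253409295204397301760)), (.ofNat (nat_lit 0)), (.ofNat (nat_lit 11835834695273664533417377792)), (.negSucc (nat_lit 87556175)), (.negSucc (nat_lit 87556143)), (.ofNat (nat_lit 2510486576431281550080)), (.negSucc (nat_lit 2510486576431281550079)), (.negSucc (nat_lit 2510486576431281550079)), (.ofNat (nat_lit 2510486576431281550080)), (.ofNat (nat_lit 231737223325209801216))⟩,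
    ⟨nat_lit 0, nat_lit 2, nat_lit 3, (.ofNat (nat_lit 8)), (.ofNat (nat_lit 4849600)), (.ofNat (nat_lit 537345832188478635795276840960)), (.ofNat (nat_lit 0)), (.ofNat (nat_lit 8266858988331041393281810432)), (.ofNat (nat_lit 4849584)), (.ofNat (nat_lit 4849616)), (.negSucc (nat_lit 2510486576431281550079)), (.ofNat (nat_lit 2510486576431281550080)), (.negSucc (nat_lit 2510486576431281550079)), (.ofNat (nat_lit 2510486576431281550080)), (.ofNat (nat_lit 231737223325209801216))⟩,
    ⟨nat_lit 1, nat_lit 3, nat_lit 4, (.ofNat (nat_lit 8)), (.ofNat (nat_lit 133300160)), (.ofNat (nat_lit 859819238803559552420720885760)), (.ofNat (nat_lit 0)), (.ofNat (nat_lit 13227988339825751573895790592)), (.ofNat (nat_lit 133300144)), (.ofNat (nat_lit 133300176)), (.ofNat (nat_lit 2510486576431281550080)), (.negSucc (nat_lit 2510486576431281550079)), (.negSucc (nat_lit 2510486576431281550079)), (.ofNat (nat_lit 2510486576431281550080)), (.ofNat (nat_lit 231737223325209801216))⟩,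
    ⟨nat_lit 0, nat_lit 5, nat_lit 4, (.ofNat (nat_lit 8)), (.ofNat (nat_lit 22544320)), (.ofNat (nat_lit 1137870288384930342776333352960)), (.ofNat (nat_lit 0)), (.ofNat (nat_lit 17505696811267619025547640832)), (.ofNat (nat_lit 22544304)), (.ofNat (nat_lit 22544336)), (.ofNat (nat_lit 2510486576431281550080)), (.negSucc (nat_lit 2510486576431281550079)), (.negSucc (nat_lit 2510486576431281550079)), (.ofNat (nat_lit 2510486576431281550080)), (.ofNat (nat_lit 231737223325209801216))⟩,
    ⟨nat_lit 2, nat_lit 6, nat_lit 5, (.ofNat (nat_lit 8)), (.negSucc (nat_lit 159645759)), (.ofNat (nat_lit 680484538185989042664734146560)), (.ofNat (nat_lit 0)), (.ofNat (nat_lit 10468992935167979075493117952)), (.negSucc (nat_lit 159645775)), (.negSucc (nat_lit 159645743)), (.negSucc (nat_lit 2510486576431281550079)), (.ofNat (nat_lit 2510486576431281550080)), (.negSucc (nat_lit 2510486576431281550079)), (.ofNat (nat_lit 2510486576431281550080)), (.ofNat (nat_lit 231737223325209801216))⟩,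
    ⟨nat_lit 0, nat_lit 25, nat_lit 16, (.ofNat (nat_lit 8)), (.negSucc (nat_lit 104071167)), (.ofNat (nat_lit 442907566979322528919789240320)), (.ofNat (nat_lit 0)), (.ofNat (nat_lit 6814173921376575986379784192)), (.negSucc (nat_lit 104071183)), (.negSucc (nat_lit 104071151)), (.negSucc (nat_lit 2510459850164753583359)), (.negSucc (nat_lit 2510459850164753583359)), (.negSucc (nat_lit 2510459850164753583359)), (.negSucc (nat_lit 2510459850164753583359)), (.ofNat (nat_lit 19852101935591986665984))⟩,
    ⟨nat_lit 0, nat_lit 7, nat_lit 8, (.ofNat (nat_lit 8)), (.negSucc (nat_lit 14155839)), (.ofNat (nat_lit 769329252253409295204397301760)), (.ofNat (nat_lit 0)), (.ofNat (nat_lit 11835834695273664533417377792)), (.negSucc (nat_lit 14155855)), (.negSucc (nat_lit 14155823)), (.ofNat (nat_lit 2510486576431281550080)), (.negSucc (nat_lit 2510486576431281550079)), (.negSucc (nat_lit 2510486576431281550079)), (.ofNat (nat_lit 2510486576431281550080)), (.ofNat (nat_lit 231737223325209801216))⟩,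
    ⟨nat_lit 0, nat_lit 8, nat_lit 9, (.ofNat (nat_lit 8)), (.ofNat (nat_lit 133300160)), (.ofNat (nat_lit 399142943639158242955800821760)), (.ofNat (nat_lit 0)), (.ofNat (nat_lit 6140660694833308458732961792)), (.ofNat (nat_lit 133300144)), (.ofNat (nat_lit 133300176)), (.negSucc (nat_lit 2510486576431281550079)), (.ofNat (nat_lit 2510486576431281550080)), (.negSucc (nat_lit 2510486576431281550079)), (.ofNat (nat_lit 2510486576431281550080)), (.ofNat (nat_lit 231737223325209801216))⟩,
    ⟨nat_lit 1, nat_lit 9, nat_lit 10, (.ofNat (nat_lit 8)), (.ofNat (nat_lit 206700480)), (.ofNat (nat_lit 583413461704918766741768847360)), (.ofNat (nat_lit 0)), (.ofNat (nat_lit 8975591752830285704798093312)), (.ofNat (nat_lit 206700464)), (.ofNat (nat_lit 206700496)), (.ofNat (nat_lit 2510486576431281550080)), (.negSucc (nat_lit 2510486576431281550079)), (.negSucc (nat_lit 2510486576431281550079)), (.ofNat (nat_lit 2510486576431281550080)), (.ofNat (nat_lit 231737223325209801216))⟩,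
    ⟨nat_lit 0, nat_lit 11, nat_lit 10, (.ofNat (nat_lit 8)), (.ofNat (nat_lit 151650240)), (.ofNat (nat_lit 721616350254239159581244866560)), (.ofNat (nat_lit 0)), (.ofNat (nat_lit 11101790046328018639346941952)), (.ofNat (nat_lit 151650224)), (.ofNat (nat_lit 151650256)), (.ofNat (nat_lit 2510486576431281550080)), (.negSucc (nat_lit 2510486576431281550079)), (.negSucc (nat_lit 2510486576431281550079)), (.ofNat (nat_lit 2510486576431281550080)), (.ofNat (nat_lit 231737223325209801216))⟩,
    ⟨nat_lit 2, nat_lit 12, nat_lit 11, (.ofNat (nat_lit 8)), (.ofNat (nat_lit 114950080)), (.ofNat (nat_lit 629481091221358897688260853760)), (.ofNat (nat_lit 0)), (.ofNat (nat_lit 9684324517329530016314376192)), (.ofNat (nat_lit 114950064)), (.ofNat (nat_lit 114950096)), (.negSucc (nat_lit 2510486576431281550079)), (.ofNat (nat_lit 2510486576431281550080)), (.negSucc (nat_lit 2510486576431281550079)), (.ofNat (nat_lit 2510486576431281550080)), (.ofNat (nat_lit 231737223325209801216))⟩,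
    ⟨nat_lit 1, nat_lit 13, nat_lit 12, (.ofNat (nat_lit 8)), (.ofNat (nat_lit 188350400)), (.ofNat (nat_lit 445210573155598373902292828160)), (.ofNat (nat_lit 0)), (.ofNat (nat_lit 6849393459332552770249244672)), (.ofNat (nat_lit 188350384)), (.ofNat (nat_lit 188350416)), (.ofNat (nat_lit 2510486576431281550080)), (.negSucc (nat_lit 2510486576431281550079)), (.negSucc (nat_lit 2510486576431281550079)), (.ofNat (nat_lit 2510486576431281550080)), (.ofNat (nat_lit 231737223325209801216))⟩,
    ⟨nat_lit 0, nat_lit 14, nat_lit 13, (.ofNat (nat_lit 8)), (.ofNat (nat_lit 133300160)), (.ofNat (nat_lit 307007684606277981062816808960)), (.ofNat (nat_lit 0)), (.ofNat (nat_lit 4723195165834819835700396032)), (.ofNat (nat_lit 133300144)), (.ofNat (nat_lit 133300176)), (.negSucc (nat_lit 2510486576431281550079)), (.ofNat (nat_lit 2510486576431281550080)), (.negSucc (nat_lit 2510486576431281550079)), (.ofNat (nat_lit 2510486576431281550080)), (.ofNat (nat_lit 231737223325209801216))⟩,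
    ⟨nat_lit 0, nat_lit 15, nat_lit 14, (.ofNat (nat_lit 8)), (.negSucc (nat_lit 12845119)), (.ofNat (nat_lit 673903448255069023958092431360)), (.ofNat (nat_lit 0)), (.ofNat (nat_lit 10367745397382372745276506112)), (.negSucc (nat_lit 12845135)), (.negSucc (nat_lit 12845103)), (.ofNat (nat_lit 2510486576431281550080)), (.negSucc (nat_lit 2510486576431281550079)), (.negSucc (nat_lit 2510486576431281550079)), (.ofNat (nat_lit 2510486576431281550080)), (.ofNat (nat_lit 231737223325209801216))⟩,
    ⟨nat_lit 0, nat_lit 6, nat_lit 15, (.ofNat (nat_lit 8)), (.negSucc (nat_lit 84934719)), (.ofNat (nat_lit 492923475154768509525445263360)), (.ofNat (nat_lit 0)), (.ofNat (nat_lit 7583438108278198664319680512)), (.negSucc (nat_lit 84934735)), (.negSucc (nat_lit 84934703)), (.negSucc (nat_lit 2510486576431281550079)), (.ofNat (nat_lit 2510486576431281550080)), (.negSucc (nat_lit 2510486576431281550079)), (.ofNat (nat_lit 2510486576431281550080)), (.ofNat (nat_lit 231737223325209801216))⟩,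
    ⟨nat_lit 0, nat_lit 16, nat_lit 17, (.ofNat (nat_lit 8)), (.negSucc (nat_lit 13369343)), (.ofNat (nat_lit 215204279490612678398501191680)), (.ofNat (nat_lit 0)), (.ofNat (nat_lit 3313433235117393689400311808)), (.negSucc (nat_lit 13369359)), (.negSucc (nat_lit 13369327)), (.negSucc (nat_lit 2510459850164753583359)), (.ofNat (nat_lit 2510470585907829093120)), (.negSucc (nat_lit 2510459850164753583359)), (.ofNat (nat_lit 2510470585907829093120)), (.ofNat (nat_lit 231598337212193020416))⟩,
    ⟨nat_lit 1, nat_lit 17, nat_lit 18, (.ofNat (nat_lit 8)), (.ofNat (nat_lit 151650240)), (.ofNat (nat_lit 629481091221358897688260853760)), (.ofNat (nat_lit 0)), (.ofNat (nat_lit 9684324517329530016314376192)), (.ofNat (nat_lit 151650224)), (.ofNat (nat_lit 151650256)), (.ofNat (nat_lit 2510470585907829093120)), (.negSucc (nat_lit 2510486576431281550079)), (.negSucc (nat_lit 2510486576431281550079)), (.ofNat (nat_lit 2510470585907829093120)), (.ofNat (nat_lit 231673261231399973376))⟩,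
    ⟨nat_lit 0, nat_lit 19, nat_lit 18, (.ofNat (nat_lit 8)), (.ofNat (nat_lit 114950080)), (.ofNat (nat_lit 721616350254239159581244866560)), (.ofNat (nat_lit 0)), (.ofNat (nat_lit 11101790046328018639346941952)), (.ofNat (nat_lit 114950064)), (.ofNat (nat_lit 114950096)), (.ofNat (nat_lit 2510486576431281550080)), (.negSucc (nat_lit 2510486576431281550079)), (.negSucc (nat_lit 2510486576431281550079)), (.ofNat (nat_lit 2510486576431281550080)), (.ofNat (nat_lit 231737223325209801216))⟩,
    ⟨nat_lit 0, nat_lit 20, nat_lit 19, (.ofNat (nat_lit 8)), (.ofNat (nat_lit 4849600)), (.ofNat (nat_lit 445210573155598373902292828160)), (.ofNat (nat_lit 0)), (.ofNat (nat_lit 6849393459332552770249244672)), (.ofNat (nat_lit 4849584)), (.ofNat (nat_lit 4849616)), (.negSucc (nat_lit 2510486576431281550079)), (.ofNat (nat_lit 2510486576431281550080)), (.negSucc (nat_lit 2510486576431281550079)), (.ofNat (nat_lit 2510486576431281550080)), (.ofNat (nat_lit 231737223325209801216))⟩,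
    ⟨nat_lit 2, nat_lit 20, nat_lit 21, (.ofNat (nat_lit 8)), (.negSucc (nat_lit 87556159)), (.ofNat (nat_lit 677193993220529033311413288960)), (.ofNat (nat_lit 0)), (.ofNat (nat_lit 10418369166275175910384812032)), (.negSucc (nat_lit 87556175)), (.negSucc (nat_lit 87556143)), (.negSucc (nat_lit 2510486576431281550079)), (.ofNat (nat_lit 2510486576431281550080)), (.negSucc (nat_lit 2510486576431281550079)), (.ofNat (nat_lit 2510486576431281550080)), (.ofNat (nat_lit 231737223325209801216))⟩,
    ⟨nat_lit 0, nat_lit 21, nat_lit 22, (.ofNat (nat_lit 8)), (.negSucc (nat_lit 14155839)), (.ofNat (nat_lit 861464511286289557097381314560)), (.ofNat (nat_lit 0)), (.ofNat (nat_lit 13253300224272153156449943552)), (.negSucc (nat_lit 14155855)), (.negSucc (nat_lit 14155823)), (.ofNat (nat_lit 2510486576431281550080)), (.negSucc (nat_lit 2510486576431281550079)), (.negSucc (nat_lit 2510486576431281550079)), (.ofNat (nat_lit 2510486576431281550080)), (.ofNat (nat_lit 231737223325209801216))⟩,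
    ⟨nat_lit 1, nat_lit 23, nat_lit 22, (.ofNat (nat_lit 8)), (.ofNat (nat_lit 133300160)), (.ofNat (nat_lit 491278202672038504848784834560)), (.ofNat (nat_lit 0)), (.ofNat (nat_lit 7558126223831797081765527552)), (.ofNat (nat_lit 133300144)), (.ofNat (nat_lit 133300176)), (.ofNat (nat_lit 2510486576431281550080)), (.negSucc (nat_lit 2510486576431281550079)), (.negSucc (nat_lit 2510486576431281550079)), (.ofNat (nat_lit 2510486576431281550080)), (.ofNat (nat_lit 231737223325209801216))⟩,
    ⟨nat_lit 2, nat_lit 24, nat_lit 7, (.ofNat (nat_lit 8)), (.negSucc (nat_lit 124125247)), (.ofNat (nat_lit 493252529651314510460777349120)), (.ofNat (nat_lit 0)), (.ofNat (nat_lit 7588500485167478980830511104)), (.negSucc (nat_lit 124125263)), (.negSucc (nat_lit 124125231)), (.negSucc (nat_lit 2510459850164753583359)), (.ofNat (nat_lit 2510486576431281550080)), (.negSucc (nat_lit 2510459850164753583359)), (.ofNat (nat_lit 2510486576431281550080)), (.ofNat (nat_lit 231630318259097934336))⟩,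
    ⟨nat_lit 0, nat_lit 24, nat_lit 25, (.ofNat (nat_lit 8)), (.negSucc (nat_lit 104071231)), (.ofNat (nat_lit 442907727648752939464018575360)), (.ofNat (nat_lit 0)), (.ofNat (nat_lit 6814492790084162663723778048)), (.negSucc (nat_lit 104071247)), (.negSucc (nat_lit 104071215)), (.negSucc (nat_lit 2510459850164753583359)), (.negSucc (nat_lit 2510459850164753583359)), (.negSucc (nat_lit 2510459850164753583359)), (.negSucc (nat_lit 2510459850164753583359)), (.ofNat (nat_lit 9964647112083666999808))⟩]
  es := [
    ⟨nat_lit 1, nat_lit 0, (.negSucc (nat_lit 198574079)), (.negSucc (nat_lit 32767999)), (.negSucc (nat_lit 198574063)), (.negSucc (nat_lit 32768015)), (.negSucc (nat_lit 2510486576431281550079)), (.negSucc (nat_lit 38622870554201633535)), (.negSucc (nat_lit 121497045342727596259934207))⟩,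
    ⟨nat_lit 1, nat_lit 2, (.negSucc (nat_lit 198574079)), (.negSucc (nat_lit 87556159)), (.negSucc (nat_lit 198574063)), (.negSucc (nat_lit 87556175)), (.ofNat (nat_lit 2510486576431281550080)), (.ofNat (nat_lit 38622870554201633536)), (.ofNat (nat_lit 15217504929176631431556759552))⟩,
    ⟨nat_lit 2, nat_lit 3, (.negSucc (nat_lit 87556159)), (.ofNat (nat_lit 4849600)), (.negSucc (nat_lit 87556143)), (.ofNat (nat_lit 4849584)), (.negSucc (nat_lit 2510486576431281550079)), (.negSucc (nat_lit 38622870554201633535)), (.ofNat (nat_lit 8454164461370697635277996032))⟩,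
    ⟨nat_lit 3, nat_lit 4, (.ofNat (nat_lit 4849600)), (.ofNat (nat_lit 133300160)), (.ofNat (nat_lit 4849616)), (.ofNat (nat_lit 133300144)), (.ofNat (nat_lit 2510486576431281550080)), (.ofNat (nat_lit 38622870554201633536)), (.ofNat (nat_lit 8079553515291385151285624832))⟩,
    ⟨nat_lit 5, nat_lit 4, (.ofNat (nat_lit 22544320)), (.ofNat (nat_lit 133300160)), (.ofNat (nat_lit 22544336)), (.ofNat (nat_lit 133300144)), (.negSucc (nat_lit 2510486576431281550079)), (.negSucc (nat_lit 38622870554201633535)), (.ofNat (nat_lit 18376423164360117996505956352))⟩,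
    ⟨nat_lit 6, nat_lit 5, (.negSucc (nat_lit 159645759)), (.ofNat (nat_lit 22544320)), (.negSucc (nat_lit 159645743)), (.ofNat (nat_lit 22544304)), (.ofNat (nat_lit 2510486576431281550080)), (.ofNat (nat_lit 38622870554201633536)), (.ofNat (nat_lit 16634970458175120054589325312))⟩,
    ⟨nat_lit 6, nat_lit 16, (.negSucc (nat_lit 159645759)), (.negSucc (nat_lit 84934719)), (.negSucc (nat_lit 159645743)), (.negSucc (nat_lit 84934735)), (.negSucc (nat_lit 2510486576431281550079)), (.negSucc (nat_lit 38622870554201633535)), (.ofNat (nat_lit 4303015412160838096396910592))⟩,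
    ⟨nat_lit 24, nat_lit 8, (.negSucc (nat_lit 124125247)), (.negSucc (nat_lit 14155839)), (.negSucc (nat_lit 124125231)), (.negSucc (nat_lit 14155855)), (.ofNat (nat_lit 2510486576431281550080)), (.ofNat (nat_lit 38622870554201633536)), (.ofNat (nat_lit 12382573871179654185491628032))⟩,
    ⟨nat_lit 8, nat_lit 9, (.negSucc (nat_lit 14155839)), (.ofNat (nat_lit 133300160)), (.negSucc (nat_lit 14155823)), (.ofNat (nat_lit 133300144)), (.negSucc (nat_lit 2510486576431281550079)), (.negSucc (nat_lit 38622870554201633535)), (.ofNat (nat_lit 11289095519367674881343127552))⟩,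
    ⟨nat_lit 9, nat_lit 10, (.ofNat (nat_lit 133300160)), (.ofNat (nat_lit 206700480)), (.ofNat (nat_lit 133300176)), (.ofNat (nat_lit 206700464)), (.ofNat (nat_lit 2510486576431281550080)), (.ofNat (nat_lit 38622870554201633536)), (.ofNat (nat_lit 992225870298942036122796032))⟩,
    ⟨nat_lit 11, nat_lit 10, (.ofNat (nat_lit 151650240)), (.ofNat (nat_lit 206700480)), (.ofNat (nat_lit 151650256)), (.ofNat (nat_lit 206700464)), (.negSucc (nat_lit 2510486576431281550079)), (.negSucc (nat_lit 38622870554201633535)), (.ofNat (nat_lit 16958957635361629373473390592))⟩,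
    ⟨nat_lit 12, nat_lit 11, (.ofNat (nat_lit 114950080)), (.ofNat (nat_lit 151650240)), (.ofNat (nat_lit 114950096)), (.ofNat (nat_lit 151650224)), (.ofNat (nat_lit 2510486576431281550080)), (.ofNat (nat_lit 38622870554201633536)), (.ofNat (nat_lit 5244622457294407905220493312))⟩,
    ⟨nat_lit 12, nat_lit 13, (.ofNat (nat_lit 114950080)), (.ofNat (nat_lit 188350400)), (.ofNat (nat_lit 114950096)), (.ofNat (nat_lit 188350384)), (.negSucc (nat_lit 2510486576431281550079)), (.negSucc (nat_lit 38622870554201633535)), (.ofNat (nat_lit 14124026577364652127408259072))⟩,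
    ⟨nat_lit 14, nat_lit 13, (.ofNat (nat_lit 133300160)), (.ofNat (nat_lit 188350400)), (.ofNat (nat_lit 133300176)), (.ofNat (nat_lit 188350384)), (.ofNat (nat_lit 2510486576431281550080)), (.ofNat (nat_lit 38622870554201633536)), (.negSucc (nat_lit 425239658699546586909769727))⟩,
    ⟨nat_lit 15, nat_lit 14, (.negSucc (nat_lit 12845119)), (.ofNat (nat_lit 133300160)), (.negSucc (nat_lit 12845103)), (.ofNat (nat_lit 133300144)), (.negSucc (nat_lit 2510486576431281550079)), (.negSucc (nat_lit 38622870554201633535)), (.ofNat (nat_lit 9871629990369186258310561792))⟩,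
    ⟨nat_lit 16, nat_lit 15, (.negSucc (nat_lit 84934719)), (.negSucc (nat_lit 12845119)), (.negSucc (nat_lit 84934703)), (.negSucc (nat_lit 12845135)), (.ofNat (nat_lit 2510486576431281550080)), (.ofNat (nat_lit 38622870554201633536)), (.ofNat (nat_lit 10863860804395559232242450432))⟩,
    ⟨nat_lit 7, nat_lit 17, (.negSucc (nat_lit 104071167)), (.negSucc (nat_lit 13369343)), (.negSucc (nat_lit 104071151)), (.negSucc (nat_lit 13369359)), (.negSucc (nat_lit 2510459850164753583359)), (.negSucc (nat_lit 38596144287673666815)), (.ofNat (nat_lit 2797428105061849477995823104))⟩,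
    ⟨nat_lit 17, nat_lit 18, (.negSucc (nat_lit 13369343)), (.ofNat (nat_lit 151650240)), (.negSucc (nat_lit 13369327)), (.ofNat (nat_lit 151650224)), (.ofNat (nat_lit 2510470585907829093120)), (.ofNat (nat_lit 38606880030749176576)), (.ofNat (nat_lit 3829581895015210008761597952))⟩,
    ⟨nat_lit 19, nat_lit 18, (.ofNat (nat_lit 114950080)), (.ofNat (nat_lit 151650240)), (.ofNat (nat_lit 114950096)), (.ofNat (nat_lit 151650224)), (.negSucc (nat_lit 2510486576431281550079)), (.negSucc (nat_lit 38622870554201633535)), (.ofNat (nat_lit 15541492106363140750440824832))⟩,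
    ⟨nat_lit 20, nat_lit 19, (.ofNat (nat_lit 4849600)), (.ofNat (nat_lit 114950080)), (.ofNat (nat_lit 4849616)), (.ofNat (nat_lit 114950064)), (.ofNat (nat_lit 2510486576431281550080)), (.ofNat (nat_lit 38622870554201633536)), (.ofNat (nat_lit 6662087986292896528253059072))⟩,
    ⟨nat_lit 21, nat_lit 20, (.negSucc (nat_lit 87556159)), (.ofNat (nat_lit 4849600)), (.negSucc (nat_lit 87556143)), (.ofNat (nat_lit 4849584)), (.negSucc (nat_lit 2510486576431281550079)), (.negSucc (nat_lit 38622870554201633535)), (.ofNat (nat_lit 7036698932372209012245430272))⟩,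
    ⟨nat_lit 21, nat_lit 22, (.negSucc (nat_lit 87556159)), (.negSucc (nat_lit 14155839)), (.negSucc (nat_lit 87556143)), (.negSucc (nat_lit 14155855)), (.ofNat (nat_lit 2510486576431281550080)), (.ofNat (nat_lit 38622870554201633536)), (.ofNat (nat_lit 13800039400178142808524193792))⟩,
    ⟨nat_lit 22, nat_lit 23, (.negSucc (nat_lit 14155839)), (.ofNat (nat_lit 133300160)), (.negSucc (nat_lit 14155823)), (.ofNat (nat_lit 133300144)), (.negSucc (nat_lit 2510486576431281550079)), (.negSucc (nat_lit 38622870554201633535)), (.ofNat (nat_lit 12706561048366163504375693312))⟩,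
    ⟨nat_lit 0, nat_lit 23, (.negSucc (nat_lit 32767999)), (.ofNat (nat_lit 133300160)), (.negSucc (nat_lit 32767983)), (.ofNat (nat_lit 133300144)), (.ofNat (nat_lit 2510486576431281550080)), (.ofNat (nat_lit 38622870554201633536)), (.ofNat (nat_lit 2409691399297430659155361792))⟩,
    ⟨nat_lit 24, nat_lit 25, (.negSucc (nat_lit 124125247)), (.negSucc (nat_lit 104071231)), (.negSucc (nat_lit 124125231)), (.negSucc (nat_lit 104071247)), (.negSucc (nat_lit 2510459850164753583359)), (.negSucc (nat_lit 38596144287673666815)), (.ofNat (nat_lit 2797744503616201744225140736))⟩,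
    ⟨nat_lit 25, nat_lit 7, (.negSucc (nat_lit 104071231)), (.negSucc (nat_lit 104071167)), (.negSucc (nat_lit 104071215)), (.negSucc (nat_lit 104071183)), (.negSucc (nat_lit 2510459850164753583359)), (.negSucc (nat_lit 4982323556041833499903)), (.negSucc (nat_lit 511702057909810493210157383679))⟩]

theorem ok17 : stOK 25 25 S17 = true := by decide +kernel

def S18 : SD where
  vs := [
    ⟨nat_lit 0, nat_lit 0, nat_lit 23, (.ofNat (nat_lit 8)), (.negSucc (nat_lit 33292287)), (.ofNat (nat_lit 75682534205580215126379724800)), (.negSucc (nat_lit 524287)), (.ofNat (nat_lit 1316217986184003741328343040)), (.negSucc (nat_lit 33292303)), (.negSucc (nat_lit 33292271)), (.negSucc (nat_lit 2510486576431281550079)), (.ofNat (nat_lit 2510486576431281550080)), (.negSucc (nat_lit 2510486576431281550079)), (.ofNat (nat_lit 2510486576431281550080)), (.ofNat (nat_lit 0))⟩,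
    ⟨nat_lit 2, nat_lit 0, nat_lit 1, (.ofNat (nat_lit 8)), (.negSucc (nat_lit 201457663)), (.ofNat (nat_lit 497859453274099415157445754880)), (.negSucc (nat_lit 2883583)), (.ofNat (nat_lit 7239198924012020577305886720)), (.negSucc (nat_lit 201457679)), (.negSucc (nat_lit 201457647)), (.negSucc (nat_lit 2510486576431281550079)), (.ofNat (nat_lit 2510486576431281550080)), (.negSucc (nat_lit 2510486576431281550079)), (.ofNat (nat_lit 2510486576431281550080)), (.ofNat (nat_lit 0))⟩,
    ⟨nat_lit 0, nat_lit 1, nat_lit 2, (.ofNat (nat_lit 8)), (.negSucc (nat_lit 75251903)), (.ofNat (nat_lit 814697319622407390959270215680)), (.ofNat (nat_lit 12304256)), (.ofNat (nat_lit 45368067368998095754872913920)), (.negSucc (nat_lit 75251919)), (.negSucc (nat_lit 75251887)), (.ofNat (nat_lit 2510486576431281550080)), (.negSucc (nat_lit 2510486576431281550079)), (.negSucc (nat_lit 2510486576431281550079)), (.ofNat (nat_lit 2510486576431281550080)), (.ofNat (nat_lit 0))⟩,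
    ⟨nat_lit 0, nat_lit 2, nat_lit 3, (.ofNat (nat_lit 8)), (.ofNat (nat_lit 18464576)), (.ofNat (nat_lit 579423354592016722196828897280)), (.ofNat (nat_lit 13614976)), (.ofNat (nat_lit 42077522403538086401552056320)), (.ofNat (nat_lit 18464560)), (.ofNat (nat_lit 18464592)), (.negSucc (nat_lit 2510486576431281550079)), (.ofNat (nat_lit 2510486576431281550080)), (.negSucc (nat_lit 2510486576431281550079)), (.ofNat (nat_lit 2510486576431281550080)), (.ofNat (nat_lit 0))⟩,
    ⟨nat_lit 1, nat_lit 3, nat_lit 4, (.ofNat (nat_lit 8)), (.ofNat (nat_lit 164806464)), (.ofNat (nat_lit 946812699985626766495102648320)), (.ofNat (nat_lit 31506304)), (.ofNat (nat_lit 86993461182067214074381762560)), (.ofNat (nat_lit 164806448)), (.ofNat (nat_lit 164806480)), (.ofNat (nat_lit 2510486576431281550080)), (.negSucc (nat_lit 2510486576431281550079)), (.negSucc (nat_lit 2510486576431281550079)), (.ofNat (nat_lit 2510486576431281550080)), (.ofNat (nat_lit 0))⟩,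
    ⟨nat_lit 0, nat_lit 5, nat_lit 4, (.ofNat (nat_lit 8)), (.ofNat (nat_lit 52477760)), (.ofNat (nat_lit 1228812403525549568074700144640)), (.ofNat (nat_lit 29933440)), (.ofNat (nat_lit 90942115140619225298366791680)), (.ofNat (nat_lit 52477744)), (.ofNat (nat_lit 52477776)), (.ofNat (nat_lit 2510486576431281550080)), (.negSucc (nat_lit 2510486576431281550079)), (.negSucc (nat_lit 2510486576431281550079)), (.ofNat (nat_lit 2510486576431281550080)), (.ofNat (nat_lit 0))⟩,
    ⟨nat_lit 2, nat_lit 6, nat_lit 5, (.ofNat (nat_lit 8)), (.negSucc (nat_lit 154845375)), (.ofNat (nat_lit 708330453613912588613173493760)), (.ofNat (nat_lit 4800384)), (.ofNat (nat_lit 27845915427923545948439347200)), (.negSucc (nat_lit 154845391)), (.negSucc (nat_lit 154845359)), (.negSucc (nat_lit 2510486576431281550079)), (.ofNat (nat_lit 2510486576431281550080)), (.negSucc (nat_lit 2510486576431281550079)), (.ofNat (nat_lit 2510486576431281550080)), (.ofNat (nat_lit 0))⟩,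
    ⟨nat_lit 0, nat_lit 25, nat_lit 16, (.ofNat (nat_lit 8)), (.negSucc (nat_lit 100663359)), (.ofNat (nat_lit 460676684474497815386566901760)), (.ofNat (nat_lit 3407808)), (.ofNat (nat_lit 17769117495175286466777661440)), (.negSucc (nat_lit 100663375)), (.negSucc (nat_lit 100663343)), (.negSucc (nat_lit 2510459850164753583359)), (.negSucc (nat_lit 2510459850164753583359)), (.negSucc (nat_lit 2510459850164753583359)), (.negSucc (nat_lit 2510459850164753583359)), (.ofNat (nat_lit 0))⟩,
    ⟨nat_lit 0, nat_lit 7, nat_lit 8, (.ofNat (nat_lit 8)), (.ofNat (nat_lit 3784512)), (.ofNat (nat_lit 826214227001517423695893217280)), (.ofNat (nat_lit 17940352)), (.ofNat (nat_lit 56884974748108128491495915520)), (.ofNat (nat_lit 3784496)), (.ofNat (nat_lit 3784528)), (.ofNat (nat_lit 2510486576431281550080)), (.negSucc (nat_lit 2510486576431281550079)), (.negSucc (nat_lit 2510486576431281550079)), (.ofNat (nat_lit 2510486576431281550080)), (.ofNat (nat_lit 0))⟩,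
    ⟨nat_lit 0, nat_lit 8, nat_lit 9, (.ofNat (nat_lit 8)), (.ofNat (nat_lit 153337664)), (.ofNat (nat_lit 450763046442530356481983365120)), (.ofNat (nat_lit 20037504)), (.ofNat (nat_lit 51620102803372113526182543360)), (.ofNat (nat_lit 153337648)), (.ofNat (nat_lit 153337680)), (.negSucc (nat_lit 2510486576431281550079)), (.ofNat (nat_lit 2510486576431281550080)), (.negSucc (nat_lit 2510486576431281550079)), (.ofNat (nat_lit 2510486576431281550080)), (.ofNat (nat_lit 0))⟩,
    ⟨nat_lit 1, nat_lit 9, nat_lit 10, (.ofNat (nat_lit 8)), (.ofNat (nat_lit 236961600)), (.ofNat (nat_lit 660699815238878953223854080000)), (.ofNat (nat_lit 30261120)), (.ofNat (nat_lit 77286353533960186482085232640)), (.ofNat (nat_lit 236961584)), (.ofNat (nat_lit 236961616)), (.ofNat (nat_lit 2510486576431281550080)), (.negSucc (nat_lit 2510486576431281550079)), (.negSucc (nat_lit 2510486576431281550079)), (.ofNat (nat_lit 2510486576431281550080)), (.ofNat (nat_lit 0))⟩,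
    ⟨nat_lit 0, nat_lit 11, nat_lit 10, (.ofNat (nat_lit 8)), (.ofNat (nat_lit 181124928)), (.ofNat (nat_lit 800877030767475351675322613760)), (.ofNat (nat_lit 29474688)), (.ofNat (nat_lit 79260680513236192094077747200)), (.ofNat (nat_lit 181124912)), (.ofNat (nat_lit 181124944)), (.ofNat (nat_lit 2510486576431281550080)), (.negSucc (nat_lit 2510486576431281550079)), (.negSucc (nat_lit 2510486576431281550079)), (.ofNat (nat_lit 2510486576431281550080)), (.ofNat (nat_lit 0))⟩,
    ⟨nat_lit 2, nat_lit 12, nat_lit 11, (.ofNat (nat_lit 8)), (.ofNat (nat_lit 139312960)), (.ofNat (nat_lit 695908646369301053304387256320)), (.ofNat (nat_lit 24362880)), (.ofNat (nat_lit 66427555147942155616126402560)), (.ofNat (nat_lit 139312944)), (.ofNat (nat_lit 139312976)), (.negSucc (nat_lit 2510486576431281550079)), (.ofNat (nat_lit 2510486576431281550080)), (.negSucc (nat_lit 2510486576431281550079)), (.ofNat (nat_lit 2510486576431281550080)), (.ofNat (nat_lit 0))⟩,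
    ⟨nat_lit 1, nat_lit 13, nat_lit 12, (.ofNat (nat_lit 8)), (.ofNat (nat_lit 213761856)), (.ofNat (nat_lit 509005692331172522035762544640)), (.ofNat (nat_lit 25411456)), (.ofNat (nat_lit 63795119175574148133469716480)), (.ofNat (nat_lit 213761840)), (.ofNat (nat_lit 213761872)), (.ofNat (nat_lit 2510486576431281550080)), (.negSucc (nat_lit 2510486576431281550079)), (.negSucc (nat_lit 2510486576431281550079)), (.ofNat (nat_lit 2510486576431281550080)), (.ofNat (nat_lit 0))⟩,
    ⟨nat_lit 0, nat_lit 14, nat_lit 13, (.ofNat (nat_lit 8)), (.ofNat (nat_lit 151043904)), (.ofNat (nat_lit 351553115733911074479359508480)), (.ofNat (nat_lit 17743744)), (.ofNat (nat_lit 44545431127633093416542699520)), (.ofNat (nat_lit 151043888)), (.ofNat (nat_lit 151043920)), (.negSucc (nat_lit 2510486576431281550079)), (.ofNat (nat_lit 2510486576431281550080)), (.negSucc (nat_lit 2510486576431281550079)), (.ofNat (nat_lit 2510486576431281550080)), (.ofNat (nat_lit 0))⟩,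
    ⟨nat_lit 0, nat_lit 15, nat_lit 14, (.ofNat (nat_lit 8)), (.ofNat (nat_lit 2801472)), (.ofNat (nat_lit 723713751327438132339948503040)), (.ofNat (nat_lit 15646592)), (.ofNat (nat_lit 49810303072369108381856071680)), (.ofNat (nat_lit 2801456)), (.ofNat (nat_lit 2801488)), (.ofNat (nat_lit 2510486576431281550080)), (.negSucc (nat_lit 2510486576431281550079)), (.negSucc (nat_lit 2510486576431281550079)), (.ofNat (nat_lit 2510486576431281550080)), (.ofNat (nat_lit 0))⟩,
    ⟨nat_lit 0, nat_lit 6, nat_lit 15, (.ofNat (nat_lit 8)), (.negSucc (nat_lit 79085759)), (.ofNat (nat_lit 518136954610324047991227924480)), (.ofNat (nat_lit 5848960)), (.ofNat (nat_lit 25213479455555538465782661120)), (.negSucc (nat_lit 79085775)), (.negSucc (nat_lit 79085743)), (.negSucc (nat_lit 2510486576431281550079)), (.ofNat (nat_lit 2510486576431281550080)), (.negSucc (nat_lit 2510486576431281550079)), (.ofNat (nat_lit 2510486576431281550080)), (.ofNat (nat_lit 0))⟩,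
    ⟨nat_lit 0, nat_lit 16, nat_lit 17, (.ofNat (nat_lit 8)), (.negSucc (nat_lit 8912959)), (.ofNat (nat_lit 230340989037941608211853557760)), (.ofNat (nat_lit 4456384)), (.ofNat (nat_lit 15136709547328929813352366080)), (.negSucc (nat_lit 8912975)), (.negSucc (nat_lit 8912943)), (.negSucc (nat_lit 2510459850164753583359)), (.ofNat (nat_lit 2510470585907829093120)), (.negSucc (nat_lit 2510459850164753583359)), (.ofNat (nat_lit 2510470585907829093120)), (.ofNat (nat_lit 0))⟩,
    ⟨nat_lit 1, nat_lit 17, nat_lit 18, (.ofNat (nat_lit 8)), (.ofNat (nat_lit 178831168)), (.ofNat (nat_lit 701667100058856069672698757120)), (.ofNat (nat_lit 27180928)), (.ofNat (nat_lit 72186008837497171984437903360)), (.ofNat (nat_lit 178831152)), (.ofNat (nat_lit 178831184)), (.ofNat (nat_lit 2510470585907829093120)), (.negSucc (nat_lit 2510486576431281550079)), (.negSucc (nat_lit 2510486576431281550079)), (.ofNat (nat_lit 2510470585907829093120)), (.ofNat (nat_lit 0))⟩,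
    ⟨nat_lit 0, nat_lit 19, nat_lit 18, (.ofNat (nat_lit 8)), (.ofNat (nat_lit 141606720)), (.ofNat (nat_lit 795118577077920335307011112960)), (.ofNat (nat_lit 26656640)), (.ofNat (nat_lit 73502226823681175725766246400)), (.ofNat (nat_lit 141606704)), (.ofNat (nat_lit 141606736)), (.ofNat (nat_lit 2510486576431281550080)), (.negSucc (nat_lit 2510486576431281550079)), (.negSucc (nat_lit 2510486576431281550079)), (.ofNat (nat_lit 2510486576431281550080)), (.ofNat (nat_lit 0))⟩,
    ⟨nat_lit 0, nat_lit 20, nat_lit 19, (.ofNat (nat_lit 8)), (.ofNat (nat_lit 16170816)), (.ofNat (nat_lit 480213423883397440194205040640)), (.ofNat (nat_lit 11321216)), (.ofNat (nat_lit 35002850727799066291912212480)), (.ofNat (nat_lit 16170800)), (.ofNat (nat_lit 16170832)), (.negSucc (nat_lit 2510486576431281550079)), (.ofNat (nat_lit 2510486576431281550080)), (.negSucc (nat_lit 2510486576431281550079)), (.ofNat (nat_lit 2510486576431281550080)), (.ofNat (nat_lit 0))⟩,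
    ⟨nat_lit 2, nat_lit 20, nat_lit 21, (.ofNat (nat_lit 8)), (.negSucc (nat_lit 77545663)), (.ofNat (nat_lit 715487388913788108956646359040)), (.ofNat (nat_lit 10010496)), (.ofNat (nat_lit 38293395693259075645233070080)), (.negSucc (nat_lit 77545679)), (.negSucc (nat_lit 77545647)), (.negSucc (nat_lit 2510486576431281550079)), (.ofNat (nat_lit 2510486576431281550080)), (.negSucc (nat_lit 2510486576431281550079)), (.ofNat (nat_lit 2510486576431281550080)), (.ofNat (nat_lit 0))⟩,
    ⟨nat_lit 0, nat_lit 21, nat_lit 22, (.ofNat (nat_lit 8)), (.ofNat (nat_lit 6078272)), (.ofNat (nat_lit 925424157710136705698517073920)), (.ofNat (nat_lit 20234112)), (.ofNat (nat_lit 63959646423847148601135759360)), (.ofNat (nat_lit 6078256)), (.ofNat (nat_lit 6078288)), (.ofNat (nat_lit 2510486576431281550080)), (.negSucc (nat_lit 2510486576431281550079)), (.negSucc (nat_lit 2510486576431281550079)), (.ofNat (nat_lit 2510486576431281550080)), (.ofNat (nat_lit 0))⟩,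
    ⟨nat_lit 1, nat_lit 23, nat_lit 22, (.ofNat (nat_lit 8)), (.ofNat (nat_lit 155631424)), (.ofNat (nat_lit 549972977151149638484607221760)), (.ofNat (nat_lit 22331264)), (.ofNat (nat_lit 58694774479111133635822387200)), (.ofNat (nat_lit 155631408)), (.ofNat (nat_lit 155631440)), (.ofNat (nat_lit 2510486576431281550080)), (.negSucc (nat_lit 2510486576431281550079)), (.negSucc (nat_lit 2510486576431281550079)), (.ofNat (nat_lit 2510486576431281550080)), (.ofNat (nat_lit 0))⟩,
    ⟨nat_lit 2, nat_lit 24, nat_lit 7, (.ofNat (nat_lit 8)), (.negSucc (nat_lit 121241663)), (.ofNat (nat_lit 512337690450982564710038323200)), (.ofNat (nat_lit 2883584)), (.ofNat (nat_lit 19085160799668054249260974080)), (.negSucc (nat_lit 121241679)), (.negSucc (nat_lit 121241647)), (.negSucc (nat_lit 2510459850164753583359)), (.ofNat (nat_lit 2510486576431281550080)), (.negSucc (nat_lit 2510459850164753583359)), (.ofNat (nat_lit 2510486576431281550080)), (.ofNat (nat_lit 0))⟩,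
    ⟨nat_lit 0, nat_lit 24, nat_lit 25, (.ofNat (nat_lit 8)), (.negSucc (nat_lit 100663423)), (.ofNat (nat_lit 460676845143928225930796236800)), (.ofNat (nat_lit 3407808)), (.ofNat (nat_lit 17769117495175286466777661440)), (.negSucc (nat_lit 100663439)), (.negSucc (nat_lit 100663407)), (.negSucc (nat_lit 2510459850164753583359)), (.negSucc (nat_lit 2510459850164753583359)), (.negSucc (nat_lit 2510459850164753583359)), (.negSucc (nat_lit 2510459850164753583359)), (.ofNat (nat_lit 0))⟩]
  es := [
    ⟨nat_lit 1, nat_lit 0, (.negSucc (nat_lit 201457663)), (.negSucc (nat_lit 33292287)), (.negSucc (nat_lit 201457647)), (.negSucc (nat_lit 33292303)), (.negSucc (nat_lit 2510486576431281550079)), (.ofNat (nat_lit 0)), (.ofNat (nat_lit 0))⟩,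
    ⟨nat_lit 1, nat_lit 2, (.negSucc (nat_lit 201457663)), (.negSucc (nat_lit 75251903)), (.negSucc (nat_lit 201457647)), (.negSucc (nat_lit 75251919)), (.ofNat (nat_lit 2510486576431281550080)), (.ofNat (nat_lit 0)), (.ofNat (nat_lit 14478397848024041154611773440))⟩,
    ⟨nat_lit 2, nat_lit 3, (.negSucc (nat_lit 75251903)), (.ofNat (nat_lit 18464576)), (.negSucc (nat_lit 75251887)), (.ofNat (nat_lit 18464560)), (.negSucc (nat_lit 2510486576431281550079)), (.ofNat (nat_lit 0)), (.ofNat (nat_lit 76257736889972150355134054400))⟩,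
    ⟨nat_lit 3, nat_lit 4, (.ofNat (nat_lit 18464576)), (.ofNat (nat_lit 164806464)), (.ofNat (nat_lit 18464592)), (.ofNat (nat_lit 164806448)), (.ofNat (nat_lit 2510486576431281550080)), (.ofNat (nat_lit 0)), (.ofNat (nat_lit 7897307917104022447970058240))⟩,
    ⟨nat_lit 5, nat_lit 4, (.ofNat (nat_lit 52477760)), (.ofNat (nat_lit 164806464)), (.ofNat (nat_lit 52477776)), (.ofNat (nat_lit 164806448)), (.negSucc (nat_lit 2510486576431281550079)), (.ofNat (nat_lit 0)), (.ofNat (nat_lit 166089614447030405700793466880))⟩,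
    ⟨nat_lit 6, nat_lit 5, (.negSucc (nat_lit 154845375)), (.ofNat (nat_lit 52477760)), (.negSucc (nat_lit 154845359)), (.ofNat (nat_lit 52477744)), (.ofNat (nat_lit 2510486576431281550080)), (.ofNat (nat_lit 0)), (.ofNat (nat_lit 15794615834208044895940116480))⟩,
    ⟨nat_lit 6, nat_lit 16, (.negSucc (nat_lit 154845375)), (.negSucc (nat_lit 79085759)), (.negSucc (nat_lit 154845359)), (.negSucc (nat_lit 79085775)), (.negSucc (nat_lit 2510486576431281550079)), (.ofNat (nat_lit 0)), (.ofNat (nat_lit 39897215021639047000938577920))⟩,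
    ⟨nat_lit 24, nat_lit 8, (.negSucc (nat_lit 121241663)), (.ofNat (nat_lit 3784512)), (.negSucc (nat_lit 121241647)), (.ofNat (nat_lit 3784496)), (.ofNat (nat_lit 2510486576431281550080)), (.ofNat (nat_lit 0)), (.ofNat (nat_lit 11845961875656033671955087360))⟩,
    ⟨nat_lit 8, nat_lit 9, (.ofNat (nat_lit 3784512)), (.ofNat (nat_lit 153337664)), (.ofNat (nat_lit 3784528)), (.ofNat (nat_lit 153337648)), (.negSucc (nat_lit 2510486576431281550079)), (.ofNat (nat_lit 0)), (.ofNat (nat_lit 101923987620560223311036743680))⟩,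
    ⟨nat_lit 9, nat_lit 10, (.ofNat (nat_lit 153337664)), (.ofNat (nat_lit 236961600)), (.ofNat (nat_lit 153337680)), (.ofNat (nat_lit 236961584)), (.ofNat (nat_lit 2510486576431281550080)), (.ofNat (nat_lit 0)), (.ofNat (nat_lit 1316217986184003741328343040))⟩,
    ⟨nat_lit 11, nat_lit 10, (.ofNat (nat_lit 181124928)), (.ofNat (nat_lit 236961600)), (.ofNat (nat_lit 181124944)), (.ofNat (nat_lit 236961584)), (.negSucc (nat_lit 2510486576431281550079)), (.ofNat (nat_lit 0)), (.ofNat (nat_lit 153256489081736369222842122240))⟩,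
    ⟨nat_lit 12, nat_lit 11, (.ofNat (nat_lit 139312960)), (.ofNat (nat_lit 181124928)), (.ofNat (nat_lit 139312976)), (.ofNat (nat_lit 181124912)), (.ofNat (nat_lit 2510486576431281550080)), (.ofNat (nat_lit 0)), (.ofNat (nat_lit 5264871944736014965313372160))⟩,
    ⟨nat_lit 12, nat_lit 13, (.ofNat (nat_lit 139312960)), (.ofNat (nat_lit 213761856)), (.ofNat (nat_lit 139312976)), (.ofNat (nat_lit 213761840)), (.negSucc (nat_lit 2510486576431281550079)), (.ofNat (nat_lit 0)), (.ofNat (nat_lit 127590238351148296266939432960))⟩,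
    ⟨nat_lit 14, nat_lit 13, (.ofNat (nat_lit 151043904)), (.ofNat (nat_lit 213761856)), (.ofNat (nat_lit 151043920)), (.ofNat (nat_lit 213761840)), (.ofNat (nat_lit 2510486576431281550080)), (.ofNat (nat_lit 0)), (.ofNat (nat_lit 0))⟩,
    ⟨nat_lit 15, nat_lit 14, (.ofNat (nat_lit 2801472)), (.ofNat (nat_lit 151043904)), (.ofNat (nat_lit 2801488)), (.ofNat (nat_lit 151043888)), (.negSucc (nat_lit 2510486576431281550079)), (.ofNat (nat_lit 0)), (.ofNat (nat_lit 89090862255266186833085399040))⟩,
    ⟨nat_lit 16, nat_lit 15, (.negSucc (nat_lit 79085759)), (.ofNat (nat_lit 2801472)), (.negSucc (nat_lit 79085743)), (.ofNat (nat_lit 2801456)), (.ofNat (nat_lit 2510486576431281550080)), (.ofNat (nat_lit 0)), (.ofNat (nat_lit 10529743889472029930626744320))⟩,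
    ⟨nat_lit 7, nat_lit 17, (.negSucc (nat_lit 100663359)), (.negSucc (nat_lit 8912959)), (.negSucc (nat_lit 100663343)), (.negSucc (nat_lit 8912975)), (.negSucc (nat_lit 2510459850164753583359)), (.ofNat (nat_lit 0)), (.ofNat (nat_lit 26324282656245535046180536320))⟩,
    ⟨nat_lit 17, nat_lit 18, (.negSucc (nat_lit 8912959)), (.ofNat (nat_lit 178831168)), (.negSucc (nat_lit 8912943)), (.ofNat (nat_lit 178831152)), (.ofNat (nat_lit 2510470585907829093120)), (.ofNat (nat_lit 0)), (.ofNat (nat_lit 3949088595818654768037888000))⟩,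
    ⟨nat_lit 19, nat_lit 18, (.ofNat (nat_lit 141606720)), (.ofNat (nat_lit 178831168)), (.ofNat (nat_lit 141606736)), (.ofNat (nat_lit 178831152)), (.negSucc (nat_lit 2510486576431281550079)), (.ofNat (nat_lit 0)), (.ofNat (nat_lit 140423363716442332744890777600))⟩,
    ⟨nat_lit 20, nat_lit 19, (.ofNat (nat_lit 16170816)), (.ofNat (nat_lit 141606720)), (.ofNat (nat_lit 16170832)), (.ofNat (nat_lit 141606704)), (.ofNat (nat_lit 2510486576431281550080)), (.ofNat (nat_lit 0)), (.ofNat (nat_lit 6581089930920018706641715200))⟩,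
    ⟨nat_lit 21, nat_lit 20, (.negSucc (nat_lit 77545663)), (.ofNat (nat_lit 16170816)), (.negSucc (nat_lit 77545647)), (.ofNat (nat_lit 16170800)), (.negSucc (nat_lit 2510486576431281550079)), (.ofNat (nat_lit 0)), (.ofNat (nat_lit 63424611524678113877182709760))⟩,
    ⟨nat_lit 21, nat_lit 22, (.negSucc (nat_lit 77545663)), (.ofNat (nat_lit 6078272)), (.negSucc (nat_lit 77545647)), (.ofNat (nat_lit 6078256)), (.ofNat (nat_lit 2510486576431281550080)), (.ofNat (nat_lit 0)), (.ofNat (nat_lit 13162179861840037413283430400))⟩,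
    ⟨nat_lit 22, nat_lit 23, (.ofNat (nat_lit 6078272)), (.ofNat (nat_lit 155631424)), (.ofNat (nat_lit 6078288)), (.ofNat (nat_lit 155631408)), (.negSucc (nat_lit 2510486576431281550079)), (.ofNat (nat_lit 0)), (.ofNat (nat_lit 114757112985854259788988088320))⟩,
    ⟨nat_lit 0, nat_lit 23, (.negSucc (nat_lit 33292287)), (.ofNat (nat_lit 155631424)), (.negSucc (nat_lit 33292271)), (.ofNat (nat_lit 155631408)), (.ofNat (nat_lit 2510486576431281550080)), (.ofNat (nat_lit 0)), (.ofNat (nat_lit 2632435972368007482656686080))⟩,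
    ⟨nat_lit 24, nat_lit 25, (.negSucc (nat_lit 121241663)), (.negSucc (nat_lit 100663423)), (.negSucc (nat_lit 121241647)), (.negSucc (nat_lit 100663439)), (.negSucc (nat_lit 2510459850164753583359)), (.ofNat (nat_lit 0)), (.ofNat (nat_lit 26324282656245535046180536320))⟩,
    ⟨nat_lit 25, nat_lit 7, (.negSucc (nat_lit 100663423)), (.negSucc (nat_lit 100663359)), (.negSucc (nat_lit 100663407)), (.negSucc (nat_lit 100663375)), (.negSucc (nat_lit 2510459850164753583359)), (.ofNat (nat_lit 0)), (.ofNat (nat_lit 26324282656245535046180536320))⟩]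

theorem ok18 : stOK 25 25 S18 = true := by decide +kernel

def S19 : SD where
  vs := [
    ⟨nat_lit 0, nat_lit 0, nat_lit 23, (.ofNat (nat_lit 8)), (.negSucc (nat_lit 33292287)), (.ofNat (nat_lit 75682534205580215126379724800)), (.negSucc (nat_lit 524287)), (.ofNat (nat_lit 1316217986184003741328343040)), (.negSucc (nat_lit 33292303)), (.negSucc (nat_lit 33292271)), (.negSucc (nat_lit 2510486576431281550079)), (.ofNat (nat_lit 2510486576431281550080)), (.negSucc (nat_lit 2510486576431281550079)), (.ofNat (nat_lit 2510486576431281550080)), (.ofNat (nat_lit 0))⟩,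
    ⟨nat_lit 2, nat_lit 0, nat_lit 1, (.ofNat (nat_lit 8)), (.negSucc (nat_lit 201457663)), (.ofNat (nat_lit 497859453274099415157445754880)), (.negSucc (nat_lit 2883583)), (.ofNat (nat_lit 7239198924012020577305886720)), (.negSucc (nat_lit 201457679)), (.negSucc (nat_lit 201457647)), (.negSucc (nat_lit 2510486576431281550079)), (.ofNat (nat_lit 2510486576431281550080)), (.negSucc (nat_lit 2510486576431281550079)), (.ofNat (nat_lit 2510486576431281550080)), (.ofNat (nat_lit 0))⟩,
    ⟨nat_lit 0, nat_lit 1, nat_lit 2, (.ofNat (nat_lit 8)), (.negSucc (nat_lit 75251903)), (.ofNat (nat_lit 814697319622407390959270215680)), (.ofNat (nat_lit 12304256)), (.ofNat (nat_lit 45368067368998095754872913920)), (.negSucc (nat_lit 75251919)), (.negSucc (nat_lit 75251887)), (.ofNat (nat_lit 2510486576431281550080)), (.negSucc (nat_lit 2510486576431281550079)), (.negSucc (nat_lit 2510486576431281550079)), (.ofNat (nat_lit 2510486576431281550080)), (.ofNat (nat_lit 0))⟩,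
    ⟨nat_lit 0, nat_lit 2, nat_lit 3, (.ofNat (nat_lit 8)), (.ofNat (nat_lit 18464576)), (.ofNat (nat_lit 579423354592016722196828897280)), (.ofNat (nat_lit 13614976)), (.ofNat (nat_lit 42077522403538086401552056320)), (.ofNat (nat_lit 18464560)), (.ofNat (nat_lit 18464592)), (.negSucc (nat_lit 2510486576431281550079)), (.ofNat (nat_lit 2510486576431281550080)), (.negSucc (nat_lit 2510486576431281550079)), (.ofNat (nat_lit 2510486576431281550080)), (.ofNat (nat_lit 0))⟩,
    ⟨nat_lit 1, nat_lit 3, nat_lit 4, (.ofNat (nat_lit 8)), (.ofNat (nat_lit 164806464)), (.ofNat (nat_lit 946812699985626766495102648320)), (.ofNat (nat_lit 31506304)), (.ofNat (nat_lit 86993461182067214074381762560)), (.ofNat (nat_lit 164806448)), (.ofNat (nat_lit 164806480)), (.ofNat (nat_lit 2510486576431281550080)), (.negSucc (nat_lit 2510486576431281550079)), (.negSucc (nat_lit 2510486576431281550079)), (.ofNat (nat_lit 2510486576431281550080)), (.ofNat (nat_lit 0))⟩,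
    ⟨nat_lit 0, nat_lit 5, nat_lit 4, (.ofNat (nat_lit 8)), (.ofNat (nat_lit 52477760)), (.ofNat (nat_lit 1228812403525549568074700144640)), (.ofNat (nat_lit 29933440)), (.ofNat (nat_lit 90942115140619225298366791680)), (.ofNat (nat_lit 52477744)), (.ofNat (nat_lit 52477776)), (.ofNat (nat_lit 2510486576431281550080)), (.negSucc (nat_lit 2510486576431281550079)), (.negSucc (nat_lit 2510486576431281550079)), (.ofNat (nat_lit 2510486576431281550080)), (.ofNat (nat_lit 0))⟩,
    ⟨nat_lit 2, nat_lit 6, nat_lit 5, (.ofNat (nat_lit 8)), (.negSucc (nat_lit 154845375)), (.ofNat (nat_lit 708330453613912588613173493760)), (.ofNat (nat_lit 4800384)), (.ofNat (nat_lit 27845915427923545948439347200)), (.negSucc (nat_lit 154845391)), (.negSucc (nat_lit 154845359)), (.negSucc (nat_lit 2510486576431281550079)), (.ofNat (nat_lit 2510486576431281550080)), (.negSucc (nat_lit 2510486576431281550079)), (.ofNat (nat_lit 2510486576431281550080)), (.ofNat (nat_lit 0))⟩,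
    ⟨nat_lit 0, nat_lit 24, nat_lit 16, (.ofNat (nat_lit 8)), (.negSucc (nat_lit 100663359)), (.ofNat (nat_lit 460676684474497815386566901760)), (.ofNat (nat_lit 3407808)), (.ofNat (nat_lit 17769117495175286466777661440)), (.negSucc (nat_lit 100663375)), (.negSucc (nat_lit 100663343)), (.negSucc (nat_lit 2510459850164753583359)), (.negSucc (nat_lit 2510459850164753583359)), (.negSucc (nat_lit 2510459850164753583359)), (.negSucc (nat_lit 2510459850164753583359)), (.ofNat (nat_lit 0))⟩,
    ⟨nat_lit 0, nat_lit 7, nat_lit 8, (.ofNat (nat_lit 8)), (.ofNat (nat_lit 3784512)), (.ofNat (nat_lit 826214227001517423695893217280)), (.ofNat (nat_lit 17940352)), (.ofNat (nat_lit 56884974748108128491495915520)), (.ofNat (nat_lit 3784496)), (.ofNat (nat_lit 3784528)), (.ofNat (nat_lit 2510486576431281550080)), (.negSucc (nat_lit 2510486576431281550079)), (.negSucc (nat_lit 2510486576431281550079)), (.ofNat (nat_lit 2510486576431281550080)), (.ofNat (nat_lit 0))⟩,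
    ⟨nat_lit 0, nat_lit 8, nat_lit 9, (.ofNat (nat_lit 8)), (.ofNat (nat_lit 153337664)), (.ofNat (nat_lit 450763046442530356481983365120)), (.ofNat (nat_lit 20037504)), (.ofNat (nat_lit 51620102803372113526182543360)), (.ofNat (nat_lit 153337648)), (.ofNat (nat_lit 153337680)), (.negSucc (nat_lit 2510486576431281550079)), (.ofNat (nat_lit 2510486576431281550080)), (.negSucc (nat_lit 2510486576431281550079)), (.ofNat (nat_lit 2510486576431281550080)), (.ofNat (nat_lit 0))⟩,
    ⟨nat_lit 1, nat_lit 9, nat_lit 10, (.ofNat (nat_lit 8)), (.ofNat (nat_lit 236961600)), (.ofNat (nat_lit 660699815238878953223854080000)), (.ofNat (nat_lit 30261120)), (.ofNat (nat_lit 77286353533960186482085232640)), (.ofNat (nat_lit 236961584)), (.ofNat (nat_lit 236961616)), (.ofNat (nat_lit 2510486576431281550080)), (.negSucc (nat_lit 2510486576431281550079)), (.negSucc (nat_lit 2510486576431281550079)), (.ofNat (nat_lit 2510486576431281550080)), (.ofNat (nat_lit 0))⟩,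
    ⟨nat_lit 0, nat_lit 11, nat_lit 10, (.ofNat (nat_lit 8)), (.ofNat (nat_lit 181124928)), (.ofNat (nat_lit 800877030767475351675322613760)), (.ofNat (nat_lit 29474688)), (.ofNat (nat_lit 79260680513236192094077747200)), (.ofNat (nat_lit 181124912)), (.ofNat (nat_lit 181124944)), (.ofNat (nat_lit 2510486576431281550080)), (.negSucc (nat_lit 2510486576431281550079)), (.negSucc (nat_lit 2510486576431281550079)), (.ofNat (nat_lit 2510486576431281550080)), (.ofNat (nat_lit 0))⟩,
    ⟨nat_lit 2, nat_lit 12, nat_lit 11, (.ofNat (nat_lit 8)), (.ofNat (nat_lit 139312960)), (.ofNat (nat_lit 695908646369301053304387256320)), (.ofNat (nat_lit 24362880)), (.ofNat (nat_lit 66427555147942155616126402560)), (.ofNat (nat_lit 139312944)), (.ofNat (nat_lit 139312976)), (.negSucc (nat_lit 2510486576431281550079)), (.ofNat (nat_lit 2510486576431281550080)), (.negSucc (nat_lit 2510486576431281550079)), (.ofNat (nat_lit 2510486576431281550080)), (.ofNat (nat_lit 0))⟩,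
    ⟨nat_lit 1, nat_lit 13, nat_lit 12, (.ofNat (nat_lit 8)), (.ofNat (nat_lit 213761856)), (.ofNat (nat_lit 509005692331172522035762544640)), (.ofNat (nat_lit 25411456)), (.ofNat (nat_lit 63795119175574148133469716480)), (.ofNat (nat_lit 213761840)), (.ofNat (nat_lit 213761872)), (.ofNat (nat_lit 2510486576431281550080)), (.negSucc (nat_lit 2510486576431281550079)), (.negSucc (nat_lit 2510486576431281550079)), (.ofNat (nat_lit 2510486576431281550080)), (.ofNat (nat_lit 0))⟩,
    ⟨nat_lit 0, nat_lit 14, nat_lit 13, (.ofNat (nat_lit 8)), (.ofNat (nat_lit 151043904)), (.ofNat (nat_lit 351553115733911074479359508480)), (.ofNat (nat_lit 17743744)), (.ofNat (nat_lit 44545431127633093416542699520)), (.ofNat (nat_lit 151043888)), (.ofNat (nat_lit 151043920)), (.negSucc (nat_lit 2510486576431281550079)), (.ofNat (nat_lit 2510486576431281550080)), (.negSucc (nat_lit 2510486576431281550079)), (.ofNat (nat_lit 2510486576431281550080)), (.ofNat (nat_lit 0))⟩,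
    ⟨nat_lit 0, nat_lit 15, nat_lit 14, (.ofNat (nat_lit 8)), (.ofNat (nat_lit 2801472)), (.ofNat (nat_lit 723713751327438132339948503040)), (.ofNat (nat_lit 15646592)), (.ofNat (nat_lit 49810303072369108381856071680)), (.ofNat (nat_lit 2801456)), (.ofNat (nat_lit 2801488)), (.ofNat (nat_lit 2510486576431281550080)), (.negSucc (nat_lit 2510486576431281550079)), (.negSucc (nat_lit 2510486576431281550079)), (.ofNat (nat_lit 2510486576431281550080)), (.ofNat (nat_lit 0))⟩,
    ⟨nat_lit 0, nat_lit 6, nat_lit 15, (.ofNat (nat_lit 8)), (.negSucc (nat_lit 79085759)), (.ofNat (nat_lit 518136954610324047991227924480)), (.ofNat (nat_lit 5848960)), (.ofNat (nat_lit 25213479455555538465782661120)), (.negSucc (nat_lit 79085775)), (.negSucc (nat_lit 79085743)), (.negSucc (nat_lit 2510486576431281550079)), (.ofNat (nat_lit 2510486576431281550080)), (.negSucc (nat_lit 2510486576431281550079)), (.ofNat (nat_lit 2510486576431281550080)), (.ofNat (nat_lit 0))⟩,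
    ⟨nat_lit 0, nat_lit 16, nat_lit 17, (.ofNat (nat_lit 8)), (.negSucc (nat_lit 8912959)), (.ofNat (nat_lit 230340989037941608211853557760)), (.ofNat (nat_lit 4456384)), (.ofNat (nat_lit 15136709547328929813352366080)), (.negSucc (nat_lit 8912975)), (.negSucc (nat_lit 8912943)), (.negSucc (nat_lit 2510459850164753583359)), (.ofNat (nat_lit 2510470585907829093120)), (.negSucc (nat_lit 2510459850164753583359)), (.ofNat (nat_lit 2510470585907829093120)), (.ofNat (nat_lit 0))⟩,
    ⟨nat_lit 1, nat_lit 17, nat_lit 18, (.ofNat (nat_lit 8)), (.ofNat (nat_lit 178831168)), (.ofNat (nat_lit 701667100058856069672698757120)), (.ofNat (nat_lit 27180928)), (.ofNat (nat_lit 72186008837497171984437903360)), (.ofNat (nat_lit 178831152)), (.ofNat (nat_lit 178831184)), (.ofNat (nat_lit 2510470585907829093120)), (.negSucc (nat_lit 2510486576431281550079)), (.negSucc (nat_lit 2510486576431281550079)), (.ofNat (nat_lit 2510470585907829093120)), (.ofNat (nat_lit 0))⟩,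
    ⟨nat_lit 0, nat_lit 19, nat_lit 18, (.ofNat (nat_lit 8)), (.ofNat (nat_lit 141606720)), (.ofNat (nat_lit 795118577077920335307011112960)), (.ofNat (nat_lit 26656640)), (.ofNat (nat_lit 73502226823681175725766246400)), (.ofNat (nat_lit 141606704)), (.ofNat (nat_lit 141606736)), (.ofNat (nat_lit 2510486576431281550080)), (.negSucc (nat_lit 2510486576431281550079)), (.negSucc (nat_lit 2510486576431281550079)), (.ofNat (nat_lit 2510486576431281550080)), (.ofNat (nat_lit 0))⟩,
    ⟨nat_lit 0, nat_lit 20, nat_lit 19, (.ofNat (nat_lit 8)), (.ofNat (nat_lit 16170816)), (.ofNat (nat_lit 480213423883397440194205040640)), (.ofNat (nat_lit 11321216)), (.ofNat (nat_lit 35002850727799066291912212480)), (.ofNat (nat_lit 16170800)), (.ofNat (nat_lit 16170832)), (.negSucc (nat_lit 2510486576431281550079)), (.ofNat (nat_lit 2510486576431281550080)), (.negSucc (nat_lit 2510486576431281550079)), (.ofNat (nat_lit 2510486576431281550080)), (.ofNat (nat_lit 0))⟩,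
    ⟨nat_lit 2, nat_lit 20, nat_lit 21, (.ofNat (nat_lit 8)), (.negSucc (nat_lit 77545663)), (.ofNat (nat_lit 715487388913788108956646359040)), (.ofNat (nat_lit 10010496)), (.ofNat (nat_lit 38293395693259075645233070080)), (.negSucc (nat_lit 77545679)), (.negSucc (nat_lit 77545647)), (.negSucc (nat_lit 2510486576431281550079)), (.ofNat (nat_lit 2510486576431281550080)), (.negSucc (nat_lit 2510486576431281550079)), (.ofNat (nat_lit 2510486576431281550080)), (.ofNat (nat_lit 0))⟩,
    ⟨nat_lit 0, nat_lit 21, nat_lit 22, (.ofNat (nat_lit 8)), (.ofNat (nat_lit 6078272)), (.ofNat (nat_lit 925424157710136705698517073920)), (.ofNat (nat_lit 20234112)), (.ofNat (nat_lit 63959646423847148601135759360)), (.ofNat (nat_lit 6078256)), (.ofNat (nat_lit 6078288)), (.ofNat (nat_lit 2510486576431281550080)), (.negSucc (nat_lit 2510486576431281550079)), (.negSucc (nat_lit 2510486576431281550079)), (.ofNat (nat_lit 2510486576431281550080)), (.ofNat (nat_lit 0))⟩,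
    ⟨nat_lit 1, nat_lit 23, nat_lit 22, (.ofNat (nat_lit 8)), (.ofNat (nat_lit 155631424)), (.ofNat (nat_lit 549972977151149638484607221760)), (.ofNat (nat_lit 22331264)), (.ofNat (nat_lit 58694774479111133635822387200)), (.ofNat (nat_lit 155631408)), (.ofNat (nat_lit 155631440)), (.ofNat (nat_lit 2510486576431281550080)), (.negSucc (nat_lit 2510486576431281550079)), (.negSucc (nat_lit 2510486576431281550079)), (.ofNat (nat_lit 2510486576431281550080)), (.ofNat (nat_lit 0))⟩,
    ⟨nat_lit 2, nat_lit 24, nat_lit 7, (.ofNat (nat_lit 8)), (.negSucc (nat_lit 121241663)), (.ofNat (nat_lit 512337690450982564710038323200)), (.ofNat (nat_lit 2883584)), (.ofNat (nat_lit 19085160799668054249260974080)), (.negSucc (nat_lit 121241679)), (.negSucc (nat_lit 121241647)), (.negSucc (nat_lit 2510459850164753583359)), (.ofNat (nat_lit 2510486576431281550080)), (.negSucc (nat_lit 2510459850164753583359)), (.ofNat (nat_lit 2510486576431281550080)), (.ofNat (nat_lit 0))⟩]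
  es := [
    ⟨nat_lit 1, nat_lit 0, (.negSucc (nat_lit 201457663)), (.negSucc (nat_lit 33292287)), (.negSucc (nat_lit 201457647)), (.negSucc (nat_lit 33292303)), (.negSucc (nat_lit 2510486576431281550079)), (.ofNat (nat_lit 0)), (.ofNat (nat_lit 0))⟩,
    ⟨nat_lit 1, nat_lit 2, (.negSucc (nat_lit 201457663)), (.negSucc (nat_lit 75251903)), (.negSucc (nat_lit 201457647)), (.negSucc (nat_lit 75251919)), (.ofNat (nat_lit 2510486576431281550080)), (.ofNat (nat_lit 0)), (.ofNat (nat_lit 14478397848024041154611773440))⟩,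
    ⟨nat_lit 2, nat_lit 3, (.negSucc (nat_lit 75251903)), (.ofNat (nat_lit 18464576)), (.negSucc (nat_lit 75251887)), (.ofNat (nat_lit 18464560)), (.negSucc (nat_lit 2510486576431281550079)), (.ofNat (nat_lit 0)), (.ofNat (nat_lit 76257736889972150355134054400))⟩,
    ⟨nat_lit 3, nat_lit 4, (.ofNat (nat_lit 18464576)), (.ofNat (nat_lit 164806464)), (.ofNat (nat_lit 18464592)), (.ofNat (nat_lit 164806448)), (.ofNat (nat_lit 2510486576431281550080)), (.ofNat (nat_lit 0)), (.ofNat (nat_lit 7897307917104022447970058240))⟩,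
    ⟨nat_lit 5, nat_lit 4, (.ofNat (nat_lit 52477760)), (.ofNat (nat_lit 164806464)), (.ofNat (nat_lit 52477776)), (.ofNat (nat_lit 164806448)), (.negSucc (nat_lit 2510486576431281550079)), (.ofNat (nat_lit 0)), (.ofNat (nat_lit 166089614447030405700793466880))⟩,
    ⟨nat_lit 6, nat_lit 5, (.negSucc (nat_lit 154845375)), (.ofNat (nat_lit 52477760)), (.negSucc (nat_lit 154845359)), (.ofNat (nat_lit 52477744)), (.ofNat (nat_lit 2510486576431281550080)), (.ofNat (nat_lit 0)), (.ofNat (nat_lit 15794615834208044895940116480))⟩,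
    ⟨nat_lit 6, nat_lit 16, (.negSucc (nat_lit 154845375)), (.negSucc (nat_lit 79085759)), (.negSucc (nat_lit 154845359)), (.negSucc (nat_lit 79085775)), (.negSucc (nat_lit 2510486576431281550079)), (.ofNat (nat_lit 0)), (.ofNat (nat_lit 39897215021639047000938577920))⟩,
    ⟨nat_lit 24, nat_lit 8, (.negSucc (nat_lit 121241663)), (.ofNat (nat_lit 3784512)), (.negSucc (nat_lit 121241647)), (.ofNat (nat_lit 3784496)), (.ofNat (nat_lit 2510486576431281550080)), (.ofNat (nat_lit 0)), (.ofNat (nat_lit 11845961875656033671955087360))⟩,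
    ⟨nat_lit 8, nat_lit 9, (.ofNat (nat_lit 3784512)), (.ofNat (nat_lit 153337664)), (.ofNat (nat_lit 3784528)), (.ofNat (nat_lit 153337648)), (.negSucc (nat_lit 2510486576431281550079)), (.ofNat (nat_lit 0)), (.ofNat (nat_lit 101923987620560223311036743680))⟩,
    ⟨nat_lit 9, nat_lit 10, (.ofNat (nat_lit 153337664)), (.ofNat (nat_lit 236961600)), (.ofNat (nat_lit 153337680)), (.ofNat (nat_lit 236961584)), (.ofNat (nat_lit 2510486576431281550080)), (.ofNat (nat_lit 0)), (.ofNat (nat_lit 1316217986184003741328343040))⟩,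
    ⟨nat_lit 11, nat_lit 10, (.ofNat (nat_lit 181124928)), (.ofNat (nat_lit 236961600)), (.ofNat (nat_lit 181124944)), (.ofNat (nat_lit 236961584)), (.negSucc (nat_lit 2510486576431281550079)), (.ofNat (nat_lit 0)), (.ofNat (nat_lit 153256489081736369222842122240))⟩,
    ⟨nat_lit 12, nat_lit 11, (.ofNat (nat_lit 139312960)), (.ofNat (nat_lit 181124928)), (.ofNat (nat_lit 139312976)), (.ofNat (nat_lit 181124912)), (.ofNat (nat_lit 2510486576431281550080)), (.ofNat (nat_lit 0)), (.ofNat (nat_lit 5264871944736014965313372160))⟩,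
    ⟨nat_lit 12, nat_lit 13, (.ofNat (nat_lit 139312960)), (.ofNat (nat_lit 213761856)), (.ofNat (nat_lit 139312976)), (.ofNat (nat_lit 213761840)), (.negSucc (nat_lit 2510486576431281550079)), (.ofNat (nat_lit 0)), (.ofNat (nat_lit 127590238351148296266939432960))⟩,
    ⟨nat_lit 14, nat_lit 13, (.ofNat (nat_lit 151043904)), (.ofNat (nat_lit 213761856)), (.ofNat (nat_lit 151043920)), (.ofNat (nat_lit 213761840)), (.ofNat (nat_lit 2510486576431281550080)), (.ofNat (nat_lit 0)), (.ofNat (nat_lit 0))⟩,
    ⟨nat_lit 15, nat_lit 14, (.ofNat (nat_lit 2801472)), (.ofNat (nat_lit 151043904)), (.ofNat (nat_lit 2801488)), (.ofNat (nat_lit 151043888)), (.negSucc (nat_lit 2510486576431281550079)), (.ofNat (nat_lit 0)), (.ofNat (nat_lit 89090862255266186833085399040))⟩,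
    ⟨nat_lit 16, nat_lit 15, (.negSucc (nat_lit 79085759)), (.ofNat (nat_lit 2801472)), (.negSucc (nat_lit 79085743)), (.ofNat (nat_lit 2801456)), (.ofNat (nat_lit 2510486576431281550080)), (.ofNat (nat_lit 0)), (.ofNat (nat_lit 10529743889472029930626744320))⟩,
    ⟨nat_lit 7, nat_lit 17, (.negSucc (nat_lit 100663359)), (.negSucc (nat_lit 8912959)), (.negSucc (nat_lit 100663343)), (.negSucc (nat_lit 8912975)), (.negSucc (nat_lit 2510459850164753583359)), (.ofNat (nat_lit 0)), (.ofNat (nat_lit 26324282656245535046180536320))⟩,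
    ⟨nat_lit 17, nat_lit 18, (.negSucc (nat_lit 8912959)), (.ofNat (nat_lit 178831168)), (.negSucc (nat_lit 8912943)), (.ofNat (nat_lit 178831152)), (.ofNat (nat_lit 2510470585907829093120)), (.ofNat (nat_lit 0)), (.ofNat (nat_lit 3949088595818654768037888000))⟩,
    ⟨nat_lit 19, nat_lit 18, (.ofNat (nat_lit 141606720)), (.ofNat (nat_lit 178831168)), (.ofNat (nat_lit 141606736)), (.ofNat (nat_lit 178831152)), (.negSucc (nat_lit 2510486576431281550079)), (.ofNat (nat_lit 0)), (.ofNat (nat_lit 140423363716442332744890777600))⟩,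
    ⟨nat_lit 20, nat_lit 19, (.ofNat (nat_lit 16170816)), (.ofNat (nat_lit 141606720)), (.ofNat (nat_lit 16170832)), (.ofNat (nat_lit 141606704)), (.ofNat (nat_lit 2510486576431281550080)), (.ofNat (nat_lit 0)), (.ofNat (nat_lit 6581089930920018706641715200))⟩,
    ⟨nat_lit 21, nat_lit 20, (.negSucc (nat_lit 77545663)), (.ofNat (nat_lit 16170816)), (.negSucc (nat_lit 77545647)), (.ofNat (nat_lit 16170800)), (.negSucc (nat_lit 2510486576431281550079)), (.ofNat (nat_lit 0)), (.ofNat (nat_lit 63424611524678113877182709760))⟩,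
    ⟨nat_lit 21, nat_lit 22, (.negSucc (nat_lit 77545663)), (.ofNat (nat_lit 6078272)), (.negSucc (nat_lit 77545647)), (.ofNat (nat_lit 6078256)), (.ofNat (nat_lit 2510486576431281550080)), (.ofNat (nat_lit 0)), (.ofNat (nat_lit 13162179861840037413283430400))⟩,
    ⟨nat_lit 22, nat_lit 23, (.ofNat (nat_lit 6078272)), (.ofNat (nat_lit 155631424)), (.ofNat (nat_lit 6078288)), (.ofNat (nat_lit 155631408)), (.negSucc (nat_lit 2510486576431281550079)), (.ofNat (nat_lit 0)), (.ofNat (nat_lit 114757112985854259788988088320))⟩,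
    ⟨nat_lit 0, nat_lit 23, (.negSucc (nat_lit 33292287)), (.ofNat (nat_lit 155631424)), (.negSucc (nat_lit 33292271)), (.ofNat (nat_lit 155631408)), (.ofNat (nat_lit 2510486576431281550080)), (.ofNat (nat_lit 0)), (.ofNat (nat_lit 2632435972368007482656686080))⟩,
    ⟨nat_lit 24, nat_lit 7, (.negSucc (nat_lit 121241663)), (.negSucc (nat_lit 100663359)), (.negSucc (nat_lit 121241647)), (.negSucc (nat_lit 100663375)), (.negSucc (nat_lit 2510459850164753583359)), (.ofNat (nat_lit 0)), (.ofNat (nat_lit 26324282656245535046180536320))⟩]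

theorem ok19 : stOK 24 24 S19 = true := by decide +kernel

def S20 : SD where
  vs := [
    ⟨nat_lit 0, nat_lit 0, nat_lit 22, (.ofNat (nat_lit 8)), (.negSucc (nat_lit 33292287)), (.ofNat (nat_lit 75682534205580215126379724800)), (.negSucc (nat_lit 524287)), (.ofNat (nat_lit 1316217986184003741328343040)), (.negSucc (nat_lit 33292303)), (.negSucc (nat_lit 33292271)), (.negSucc (nat_lit 2510486576431281550079)), (.ofNat (nat_lit 2510486576431281550080)), (.negSucc (nat_lit 2510486576431281550079)), (.ofNat (nat_lit 2510486576431281550080)), (.ofNat (nat_lit 0))⟩,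
    ⟨nat_lit 2, nat_lit 0, nat_lit 1, (.ofNat (nat_lit 8)), (.negSucc (nat_lit 201457663)), (.ofNat (nat_lit 497859453274099415157445754880)), (.negSucc (nat_lit 2883583)), (.ofNat (nat_lit 7239198924012020577305886720)), (.negSucc (nat_lit 201457679)), (.negSucc (nat_lit 201457647)), (.negSucc (nat_lit 2510486576431281550079)), (.ofNat (nat_lit 2510486576431281550080)), (.negSucc (nat_lit 2510486576431281550079)), (.ofNat (nat_lit 2510486576431281550080)), (.ofNat (nat_lit 0))⟩,
    ⟨nat_lit 0, nat_lit 1, nat_lit 2, (.ofNat (nat_lit 8)), (.negSucc (nat_lit 75251903)), (.ofNat (nat_lit 814697319622407390959270215680)), (.ofNat (nat_lit 12304256)), (.ofNat (nat_lit 45368067368998095754872913920)), (.negSucc (nat_lit 75251919)), (.negSucc (nat_lit 75251887)), (.ofNat (nat_lit 2510486576431281550080)), (.negSucc (nat_lit 2510486576431281550079)), (.negSucc (nat_lit 2510486576431281550079)), (.ofNat (nat_lit 2510486576431281550080)), (.ofNat (nat_lit 0))⟩,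
    ⟨nat_lit 0, nat_lit 2, nat_lit 3, (.ofNat (nat_lit 8)), (.ofNat (nat_lit 18464576)), (.ofNat (nat_lit 579423354592016722196828897280)), (.ofNat (nat_lit 13614976)), (.ofNat (nat_lit 42077522403538086401552056320)), (.ofNat (nat_lit 18464560)), (.ofNat (nat_lit 18464592)), (.negSucc (nat_lit 2510486576431281550079)), (.ofNat (nat_lit 2510486576431281550080)), (.negSucc (nat_lit 2510486576431281550079)), (.ofNat (nat_lit 2510486576431281550080)), (.ofNat (nat_lit 0))⟩,
    ⟨nat_lit 1, nat_lit 3, nat_lit 4, (.ofNat (nat_lit 8)), (.ofNat (nat_lit 164806464)), (.ofNat (nat_lit 946812699985626766495102648320)), (.ofNat (nat_lit 31506304)), (.ofNat (nat_lit 86993461182067214074381762560)), (.ofNat (nat_lit 164806448)), (.ofNat (nat_lit 164806480)), (.ofNat (nat_lit 2510486576431281550080)), (.negSucc (nat_lit 2510486576431281550079)), (.negSucc (nat_lit 2510486576431281550079)), (.ofNat (nat_lit 2510486576431281550080)), (.ofNat (nat_lit 0))⟩,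
    ⟨nat_lit 0, nat_lit 5, nat_lit 4, (.ofNat (nat_lit 8)), (.ofNat (nat_lit 52477760)), (.ofNat (nat_lit 1228812403525549568074700144640)), (.ofNat (nat_lit 29933440)), (.ofNat (nat_lit 90942115140619225298366791680)), (.ofNat (nat_lit 52477744)), (.ofNat (nat_lit 52477776)), (.ofNat (nat_lit 2510486576431281550080)), (.negSucc (nat_lit 2510486576431281550079)), (.negSucc (nat_lit 2510486576431281550079)), (.ofNat (nat_lit 2510486576431281550080)), (.ofNat (nat_lit 0))⟩,
    ⟨nat_lit 2, nat_lit 6, nat_lit 5, (.ofNat (nat_lit 8)), (.negSucc (nat_lit 154845375)), (.ofNat (nat_lit 708330453613912588613173493760)), (.ofNat (nat_lit 4800384)), (.ofNat (nat_lit 27845915427923545948439347200)), (.negSucc (nat_lit 154845391)), (.negSucc (nat_lit 154845359)), (.negSucc (nat_lit 2510486576431281550079)), (.ofNat (nat_lit 2510486576431281550080)), (.negSucc (nat_lit 2510486576431281550079)), (.ofNat (nat_lit 2510486576431281550080)), (.ofNat (nat_lit 0))⟩,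
    ⟨nat_lit 0, nat_lit 7, nat_lit 8, (.ofNat (nat_lit 8)), (.ofNat (nat_lit 3784512)), (.ofNat (nat_lit 826214227001517423695893217280)), (.ofNat (nat_lit 17940352)), (.ofNat (nat_lit 56884974748108128491495915520)), (.ofNat (nat_lit 3784496)), (.ofNat (nat_lit 3784528)), (.ofNat (nat_lit 2510486576431281550080)), (.negSucc (nat_lit 2510486576431281550079)), (.negSucc (nat_lit 2510486576431281550079)), (.ofNat (nat_lit 2510486576431281550080)), (.ofNat (nat_lit 0))⟩,
    ⟨nat_lit 0, nat_lit 8, nat_lit 9, (.ofNat (nat_lit 8)), (.ofNat (nat_lit 153337664)), (.ofNat (nat_lit 450763046442530356481983365120)), (.ofNat (nat_lit 20037504)), (.ofNat (nat_lit 51620102803372113526182543360)), (.ofNat (nat_lit 153337648)), (.ofNat (nat_lit 153337680)), (.negSucc (nat_lit 2510486576431281550079)), (.ofNat (nat_lit 2510486576431281550080)), (.negSucc (nat_lit 2510486576431281550079)), (.ofNat (nat_lit 2510486576431281550080)), (.ofNat (nat_lit 0))⟩,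
    ⟨nat_lit 1, nat_lit 9, nat_lit 10, (.ofNat (nat_lit 8)), (.ofNat (nat_lit 236961600)), (.ofNat (nat_lit 660699815238878953223854080000)), (.ofNat (nat_lit 30261120)), (.ofNat (nat_lit 77286353533960186482085232640)), (.ofNat (nat_lit 236961584)), (.ofNat (nat_lit 236961616)), (.ofNat (nat_lit 2510486576431281550080)), (.negSucc (nat_lit 2510486576431281550079)), (.negSucc (nat_lit 2510486576431281550079)), (.ofNat (nat_lit 2510486576431281550080)), (.ofNat (nat_lit 0))⟩,
    ⟨nat_lit 0, nat_lit 11, nat_lit 10, (.ofNat (nat_lit 8)), (.ofNat (nat_lit 181124928)), (.ofNat (nat_lit 800877030767475351675322613760)), (.ofNat (nat_lit 29474688)), (.ofNat (nat_lit 79260680513236192094077747200)), (.ofNat (nat_lit 181124912)), (.ofNat (nat_lit 181124944)), (.ofNat (nat_lit 2510486576431281550080)), (.negSucc (nat_lit 2510486576431281550079)), (.negSucc (nat_lit 2510486576431281550079)), (.ofNat (nat_lit 2510486576431281550080)), (.ofNat (nat_lit 0))⟩,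
    ⟨nat_lit 2, nat_lit 12, nat_lit 11, (.ofNat (nat_lit 8)), (.ofNat (nat_lit 139312960)), (.ofNat (nat_lit 695908646369301053304387256320)), (.ofNat (nat_lit 24362880)), (.ofNat (nat_lit 66427555147942155616126402560)), (.ofNat (nat_lit 139312944)), (.ofNat (nat_lit 139312976)), (.negSucc (nat_lit 2510486576431281550079)), (.ofNat (nat_lit 2510486576431281550080)), (.negSucc (nat_lit 2510486576431281550079)), (.ofNat (nat_lit 2510486576431281550080)), (.ofNat (nat_lit 0))⟩,
    ⟨nat_lit 1, nat_lit 13, nat_lit 12, (.ofNat (nat_lit 8)), (.ofNat (nat_lit 213761856)), (.ofNat (nat_lit 509005692331172522035762544640)), (.ofNat (nat_lit 25411456)), (.ofNat (nat_lit 63795119175574148133469716480)), (.ofNat (nat_lit 213761840)), (.ofNat (nat_lit 213761872)), (.ofNat (nat_lit 2510486576431281550080)), (.negSucc (nat_lit 2510486576431281550079)), (.negSucc (nat_lit 2510486576431281550079)), (.ofNat (nat_lit 2510486576431281550080)), (.ofNat (nat_lit 0))⟩,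
    ⟨nat_lit 0, nat_lit 14, nat_lit 13, (.ofNat (nat_lit 8)), (.ofNat (nat_lit 151043904)), (.ofNat (nat_lit 351553115733911074479359508480)), (.ofNat (nat_lit 17743744)), (.ofNat (nat_lit 44545431127633093416542699520)), (.ofNat (nat_lit 151043888)), (.ofNat (nat_lit 151043920)), (.negSucc (nat_lit 2510486576431281550079)), (.ofNat (nat_lit 2510486576431281550080)), (.negSucc (nat_lit 2510486576431281550079)), (.ofNat (nat_lit 2510486576431281550080)), (.ofNat (nat_lit 0))⟩,
    ⟨nat_lit 0, nat_lit 15, nat_lit 14, (.ofNat (nat_lit 8)), (.ofNat (nat_lit 2801472)), (.ofNat (nat_lit 723713751327438132339948503040)), (.ofNat (nat_lit 15646592)), (.ofNat (nat_lit 49810303072369108381856071680)), (.ofNat (nat_lit 2801456)), (.ofNat (nat_lit 2801488)), (.ofNat (nat_lit 2510486576431281550080)), (.negSucc (nat_lit 2510486576431281550079)), (.negSucc (nat_lit 2510486576431281550079)), (.ofNat (nat_lit 2510486576431281550080)), (.ofNat (nat_lit 0))⟩,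
    ⟨nat_lit 0, nat_lit 6, nat_lit 15, (.ofNat (nat_lit 8)), (.negSucc (nat_lit 79085759)), (.ofNat (nat_lit 518136954610324047991227924480)), (.ofNat (nat_lit 5848960)), (.ofNat (nat_lit 25213479455555538465782661120)), (.negSucc (nat_lit 79085775)), (.negSucc (nat_lit 79085743)), (.negSucc (nat_lit 2510486576431281550079)), (.ofNat (nat_lit 2510486576431281550080)), (.negSucc (nat_lit 2510486576431281550079)), (.ofNat (nat_lit 2510486576431281550080)), (.ofNat (nat_lit 0))⟩,
    ⟨nat_lit 0, nat_lit 23, nat_lit 16, (.ofNat (nat_lit 8)), (.negSucc (nat_lit 8912959)), (.ofNat (nat_lit 230340989037941608211853557760)), (.ofNat (nat_lit 4456384)), (.ofNat (nat_lit 15136709547328929813352366080)), (.negSucc (nat_lit 8912975)), (.negSucc (nat_lit 8912943)), (.negSucc (nat_lit 2510459850164753583359)), (.ofNat (nat_lit 2510470585907829093120)), (.negSucc (nat_lit 2510459850164753583359)), (.ofNat (nat_lit 2510470585907829093120)), (.ofNat (nat_lit 0))⟩,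
    ⟨nat_lit 1, nat_lit 16, nat_lit 17, (.ofNat (nat_lit 8)), (.ofNat (nat_lit 178831168)), (.ofNat (nat_lit 701667100058856069672698757120)), (.ofNat (nat_lit 27180928)), (.ofNat (nat_lit 72186008837497171984437903360)), (.ofNat (nat_lit 178831152)), (.ofNat (nat_lit 178831184)), (.ofNat (nat_lit 2510470585907829093120)), (.negSucc (nat_lit 2510486576431281550079)), (.negSucc (nat_lit 2510486576431281550079)), (.ofNat (nat_lit 2510470585907829093120)), (.ofNat (nat_lit 0))⟩,
    ⟨nat_lit 0, nat_lit 18, nat_lit 17, (.ofNat (nat_lit 8)), (.ofNat (nat_lit 141606720)), (.ofNat (nat_lit 795118577077920335307011112960)), (.ofNat (nat_lit 26656640)), (.ofNat (nat_lit 73502226823681175725766246400)), (.ofNat (nat_lit 141606704)), (.ofNat (nat_lit 141606736)), (.ofNat (nat_lit 2510486576431281550080)), (.negSucc (nat_lit 2510486576431281550079)), (.negSucc (nat_lit 2510486576431281550079)), (.ofNat (nat_lit 2510486576431281550080)), (.ofNat (nat_lit 0))⟩,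
    ⟨nat_lit 0, nat_lit 19, nat_lit 18, (.ofNat (nat_lit 8)), (.ofNat (nat_lit 16170816)), (.ofNat (nat_lit 480213423883397440194205040640)), (.ofNat (nat_lit 11321216)), (.ofNat (nat_lit 35002850727799066291912212480)), (.ofNat (nat_lit 16170800)), (.ofNat (nat_lit 16170832)), (.negSucc (nat_lit 2510486576431281550079)), (.ofNat (nat_lit 2510486576431281550080)), (.negSucc (nat_lit 2510486576431281550079)), (.ofNat (nat_lit 2510486576431281550080)), (.ofNat (nat_lit 0))⟩,
    ⟨nat_lit 2, nat_lit 19, nat_lit 20, (.ofNat (nat_lit 8)), (.negSucc (nat_lit 77545663)), (.ofNat (nat_lit 715487388913788108956646359040)), (.ofNat (nat_lit 10010496)), (.ofNat (nat_lit 38293395693259075645233070080)), (.negSucc (nat_lit 77545679)), (.negSucc (nat_lit 77545647)), (.negSucc (nat_lit 2510486576431281550079)), (.ofNat (nat_lit 2510486576431281550080)), (.negSucc (nat_lit 2510486576431281550079)), (.ofNat (nat_lit 2510486576431281550080)), (.ofNat (nat_lit 0))⟩,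
    ⟨nat_lit 0, nat_lit 20, nat_lit 21, (.ofNat (nat_lit 8)), (.ofNat (nat_lit 6078272)), (.ofNat (nat_lit 925424157710136705698517073920)), (.ofNat (nat_lit 20234112)), (.ofNat (nat_lit 63959646423847148601135759360)), (.ofNat (nat_lit 6078256)), (.ofNat (nat_lit 6078288)), (.ofNat (nat_lit 2510486576431281550080)), (.negSucc (nat_lit 2510486576431281550079)), (.negSucc (nat_lit 2510486576431281550079)), (.ofNat (nat_lit 2510486576431281550080)), (.ofNat (nat_lit 0))⟩,
    ⟨nat_lit 1, nat_lit 22, nat_lit 21, (.ofNat (nat_lit 8)), (.ofNat (nat_lit 155631424)), (.ofNat (nat_lit 549972977151149638484607221760)), (.ofNat (nat_lit 22331264)), (.ofNat (nat_lit 58694774479111133635822387200)), (.ofNat (nat_lit 155631408)), (.ofNat (nat_lit 155631440)), (.ofNat (nat_lit 2510486576431281550080)), (.negSucc (nat_lit 2510486576431281550079)), (.negSucc (nat_lit 2510486576431281550079)), (.ofNat (nat_lit 2510486576431281550080)), (.ofNat (nat_lit 0))⟩,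
    ⟨nat_lit 2, nat_lit 23, nat_lit 7, (.ofNat (nat_lit 8)), (.negSucc (nat_lit 121241663)), (.ofNat (nat_lit 512337690450982564710038323200)), (.ofNat (nat_lit 2883584)), (.ofNat (nat_lit 19085160799668054249260974080)), (.negSucc (nat_lit 121241679)), (.negSucc (nat_lit 121241647)), (.negSucc (nat_lit 2510459850164753583359)), (.ofNat (nat_lit 2510486576431281550080)), (.negSucc (nat_lit 2510459850164753583359)), (.ofNat (nat_lit 2510486576431281550080)), (.ofNat (nat_lit 0))⟩]
  es := [
    ⟨nat_lit 1, nat_lit 0, (.negSucc (nat_lit 201457663)), (.negSucc (nat_lit 33292287)), (.negSucc (nat_lit 201457647)), (.negSucc (nat_lit 33292303)), (.negSucc (nat_lit 2510486576431281550079)), (.ofNat (nat_lit 0)), (.ofNat (nat_lit 0))⟩,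
    ⟨nat_lit 1, nat_lit 2, (.negSucc (nat_lit 201457663)), (.negSucc (nat_lit 75251903)), (.negSucc (nat_lit 201457647)), (.negSucc (nat_lit 75251919)), (.ofNat (nat_lit 2510486576431281550080)), (.ofNat (nat_lit 0)), (.ofNat (nat_lit 14478397848024041154611773440))⟩,
    ⟨nat_lit 2, nat_lit 3, (.negSucc (nat_lit 75251903)), (.ofNat (nat_lit 18464576)), (.negSucc (nat_lit 75251887)), (.ofNat (nat_lit 18464560)), (.negSucc (nat_lit 2510486576431281550079)), (.ofNat (nat_lit 0)), (.ofNat (nat_lit 76257736889972150355134054400))⟩,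
    ⟨nat_lit 3, nat_lit 4, (.ofNat (nat_lit 18464576)), (.ofNat (nat_lit 164806464)), (.ofNat (nat_lit 18464592)), (.ofNat (nat_lit 164806448)), (.ofNat (nat_lit 2510486576431281550080)), (.ofNat (nat_lit 0)), (.ofNat (nat_lit 7897307917104022447970058240))⟩,
    ⟨nat_lit 5, nat_lit 4, (.ofNat (nat_lit 52477760)), (.ofNat (nat_lit 164806464)), (.ofNat (nat_lit 52477776)), (.ofNat (nat_lit 164806448)), (.negSucc (nat_lit 2510486576431281550079)), (.ofNat (nat_lit 0)), (.ofNat (nat_lit 166089614447030405700793466880))⟩,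
    ⟨nat_lit 6, nat_lit 5, (.negSucc (nat_lit 154845375)), (.ofNat (nat_lit 52477760)), (.negSucc (nat_lit 154845359)), (.ofNat (nat_lit 52477744)), (.ofNat (nat_lit 2510486576431281550080)), (.ofNat (nat_lit 0)), (.ofNat (nat_lit 15794615834208044895940116480))⟩,
    ⟨nat_lit 6, nat_lit 15, (.negSucc (nat_lit 154845375)), (.negSucc (nat_lit 79085759)), (.negSucc (nat_lit 154845359)), (.negSucc (nat_lit 79085775)), (.negSucc (nat_lit 2510486576431281550079)), (.ofNat (nat_lit 0)), (.ofNat (nat_lit 39897215021639047000938577920))⟩,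
    ⟨nat_lit 23, nat_lit 7, (.negSucc (nat_lit 121241663)), (.ofNat (nat_lit 3784512)), (.negSucc (nat_lit 121241647)), (.ofNat (nat_lit 3784496)), (.ofNat (nat_lit 2510486576431281550080)), (.ofNat (nat_lit 0)), (.ofNat (nat_lit 11845961875656033671955087360))⟩,
    ⟨nat_lit 7, nat_lit 8, (.ofNat (nat_lit 3784512)), (.ofNat (nat_lit 153337664)), (.ofNat (nat_lit 3784528)), (.ofNat (nat_lit 153337648)), (.negSucc (nat_lit 2510486576431281550079)), (.ofNat (nat_lit 0)), (.ofNat (nat_lit 101923987620560223311036743680))⟩,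
    ⟨nat_lit 8, nat_lit 9, (.ofNat (nat_lit 153337664)), (.ofNat (nat_lit 236961600)), (.ofNat (nat_lit 153337680)), (.ofNat (nat_lit 236961584)), (.ofNat (nat_lit 2510486576431281550080)), (.ofNat (nat_lit 0)), (.ofNat (nat_lit 1316217986184003741328343040))⟩,
    ⟨nat_lit 10, nat_lit 9, (.ofNat (nat_lit 181124928)), (.ofNat (nat_lit 236961600)), (.ofNat (nat_lit 181124944)), (.ofNat (nat_lit 236961584)), (.negSucc (nat_lit 2510486576431281550079)), (.ofNat (nat_lit 0)), (.ofNat (nat_lit 153256489081736369222842122240))⟩,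
    ⟨nat_lit 11, nat_lit 10, (.ofNat (nat_lit 139312960)), (.ofNat (nat_lit 181124928)), (.ofNat (nat_lit 139312976)), (.ofNat (nat_lit 181124912)), (.ofNat (nat_lit 2510486576431281550080)), (.ofNat (nat_lit 0)), (.ofNat (nat_lit 5264871944736014965313372160))⟩,
    ⟨nat_lit 11, nat_lit 12, (.ofNat (nat_lit 139312960)), (.ofNat (nat_lit 213761856)), (.ofNat (nat_lit 139312976)), (.ofNat (nat_lit 213761840)), (.negSucc (nat_lit 2510486576431281550079)), (.ofNat (nat_lit 0)), (.ofNat (nat_lit 127590238351148296266939432960))⟩,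
    ⟨nat_lit 13, nat_lit 12, (.ofNat (nat_lit 151043904)), (.ofNat (nat_lit 213761856)), (.ofNat (nat_lit 151043920)), (.ofNat (nat_lit 213761840)), (.ofNat (nat_lit 2510486576431281550080)), (.ofNat (nat_lit 0)), (.ofNat (nat_lit 0))⟩,
    ⟨nat_lit 14, nat_lit 13, (.ofNat (nat_lit 2801472)), (.ofNat (nat_lit 151043904)), (.ofNat (nat_lit 2801488)), (.ofNat (nat_lit 151043888)), (.negSucc (nat_lit 2510486576431281550079)), (.ofNat (nat_lit 0)), (.ofNat (nat_lit 89090862255266186833085399040))⟩,
    ⟨nat_lit 15, nat_lit 14, (.negSucc (nat_lit 79085759)), (.ofNat (nat_lit 2801472)), (.negSucc (nat_lit 79085743)), (.ofNat (nat_lit 2801456)), (.ofNat (nat_lit 2510486576431281550080)), (.ofNat (nat_lit 0)), (.ofNat (nat_lit 10529743889472029930626744320))⟩,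
    ⟨nat_lit 16, nat_lit 17, (.negSucc (nat_lit 8912959)), (.ofNat (nat_lit 178831168)), (.negSucc (nat_lit 8912943)), (.ofNat (nat_lit 178831152)), (.ofNat (nat_lit 2510470585907829093120)), (.ofNat (nat_lit 0)), (.ofNat (nat_lit 3949088595818654768037888000))⟩,
    ⟨nat_lit 18, nat_lit 17, (.ofNat (nat_lit 141606720)), (.ofNat (nat_lit 178831168)), (.ofNat (nat_lit 141606736)), (.ofNat (nat_lit 178831152)), (.negSucc (nat_lit 2510486576431281550079)), (.ofNat (nat_lit 0)), (.ofNat (nat_lit 140423363716442332744890777600))⟩,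
    ⟨nat_lit 19, nat_lit 18, (.ofNat (nat_lit 16170816)), (.ofNat (nat_lit 141606720)), (.ofNat (nat_lit 16170832)), (.ofNat (nat_lit 141606704)), (.ofNat (nat_lit 2510486576431281550080)), (.ofNat (nat_lit 0)), (.ofNat (nat_lit 6581089930920018706641715200))⟩,
    ⟨nat_lit 20, nat_lit 19, (.negSucc (nat_lit 77545663)), (.ofNat (nat_lit 16170816)), (.negSucc (nat_lit 77545647)), (.ofNat (nat_lit 16170800)), (.negSucc (nat_lit 2510486576431281550079)), (.ofNat (nat_lit 0)), (.ofNat (nat_lit 63424611524678113877182709760))⟩,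
    ⟨nat_lit 20, nat_lit 21, (.negSucc (nat_lit 77545663)), (.ofNat (nat_lit 6078272)), (.negSucc (nat_lit 77545647)), (.ofNat (nat_lit 6078256)), (.ofNat (nat_lit 2510486576431281550080)), (.ofNat (nat_lit 0)), (.ofNat (nat_lit 13162179861840037413283430400))⟩,
    ⟨nat_lit 21, nat_lit 22, (.ofNat (nat_lit 6078272)), (.ofNat (nat_lit 155631424)), (.ofNat (nat_lit 6078288)), (.ofNat (nat_lit 155631408)), (.negSucc (nat_lit 2510486576431281550079)), (.ofNat (nat_lit 0)), (.ofNat (nat_lit 114757112985854259788988088320))⟩,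
    ⟨nat_lit 0, nat_lit 22, (.negSucc (nat_lit 33292287)), (.ofNat (nat_lit 155631424)), (.negSucc (nat_lit 33292271)), (.ofNat (nat_lit 155631408)), (.ofNat (nat_lit 2510486576431281550080)), (.ofNat (nat_lit 0)), (.ofNat (nat_lit 2632435972368007482656686080))⟩,
    ⟨nat_lit 23, nat_lit 16, (.negSucc (nat_lit 121241663)), (.negSucc (nat_lit 8912959)), (.negSucc (nat_lit 121241647)), (.negSucc (nat_lit 8912975)), (.negSucc (nat_lit 2510459850164753583359)), (.ofNat (nat_lit 0)), (.ofNat (nat_lit 26324282656245535046180536320))⟩]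

theorem ok20 : stOK 23 23 S20 = true := by decide +kernel

def S21 : SD where
  vs := [
    ⟨nat_lit 0, nat_lit 0, nat_lit 22, (.ofNat (nat_lit 8)), (.negSucc (nat_lit 33292287)), (.ofNat (nat_lit 76865073802542405987729408000)), (.ofNat (nat_lit 0)), (.ofNat (nat_lit 1182539596962190861349683200)), (.negSucc (nat_lit 33292303)), (.negSucc (nat_lit 33292271)), (.negSucc (nat_lit 2549712929188020324299)), (.ofNat (nat_lit 2549712929188020324300)), (.negSucc (nat_lit 2549712929188020324299)), (.ofNat (nat_lit 2549712929188020324300)), (.ofNat (nat_lit 235358116540432645320))⟩,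
    ⟨nat_lit 2, nat_lit 0, nat_lit 1, (.ofNat (nat_lit 8)), (.negSucc (nat_lit 201457663)), (.ofNat (nat_lit 505638507231507218519280844800)), (.ofNat (nat_lit 0)), (.ofNat (nat_lit 7779053957407803361835089920)), (.negSucc (nat_lit 201457679)), (.negSucc (nat_lit 201457647)), (.negSucc (nat_lit 2549712929188020324299)), (.ofNat (nat_lit 2549712929188020324300)), (.negSucc (nat_lit 2549712929188020324299)), (.ofNat (nat_lit 2549712929188020324300)), (.ofNat (nat_lit 235358116540432645320))⟩,
    ⟨nat_lit 0, nat_lit 1, nat_lit 2, (.ofNat (nat_lit 8)), (.negSucc (nat_lit 75251903)), (.ofNat (nat_lit 827426965241507506443008812800)), (.ofNat (nat_lit 0)), (.ofNat (nat_lit 12729645619100115483738597120)), (.negSucc (nat_lit 75251919)), (.negSucc (nat_lit 75251887)), (.ofNat (nat_lit 2549712929188020324300)), (.negSucc (nat_lit 2549712929188020324299)), (.negSucc (nat_lit 2549712929188020324299)), (.ofNat (nat_lit 2549712929188020324300)), (.ofNat (nat_lit 235358116540432645320))⟩,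
    ⟨nat_lit 0, nat_lit 2, nat_lit 3, (.ofNat (nat_lit 8)), (.ofNat (nat_lit 18464576)), (.ofNat (nat_lit 588476844507516983481154348800)), (.ofNat (nat_lit 0)), (.ofNat (nat_lit 9053489915500261284325451520)), (.ofNat (nat_lit 18464560)), (.ofNat (nat_lit 18464592)), (.negSucc (nat_lit 2549712929188020324299)), (.ofNat (nat_lit 2549712929188020324300)), (.negSucc (nat_lit 2549712929188020324299)), (.ofNat (nat_lit 2549712929188020324300)), (.ofNat (nat_lit 235358116540432645320))⟩,
    ⟨nat_lit 1, nat_lit 3, nat_lit 4, (.ofNat (nat_lit 8)), (.ofNat (nat_lit 164806464)), (.ofNat (nat_lit 961606648422902184721588627200)), (.ofNat (nat_lit 0)), (.ofNat (nat_lit 14793948437275418226485978880)), (.ofNat (nat_lit 164806448)), (.ofNat (nat_lit 164806480)), (.ofNat (nat_lit 2549712929188020324300)), (.negSucc (nat_lit 2549712929188020324299)), (.negSucc (nat_lit 2549712929188020324299)), (.ofNat (nat_lit 2549712929188020324300)), (.ofNat (nat_lit 235358116540432645320))⟩,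
    ⟨nat_lit 0, nat_lit 5, nat_lit 4, (.ofNat (nat_lit 8)), (.ofNat (nat_lit 52477760)), (.ofNat (nat_lit 1248012597330636280075867334400)), (.ofNat (nat_lit 0)), (.ofNat (nat_lit 19200193805086712001167189760)), (.ofNat (nat_lit 52477744)), (.ofNat (nat_lit 52477776)), (.ofNat (nat_lit 2549712929188020324300)), (.negSucc (nat_lit 2549712929188020324299)), (.negSucc (nat_lit 2549712929188020324299)), (.ofNat (nat_lit 2549712929188020324300)), (.ofNat (nat_lit 235358116540432645320))⟩,
    ⟨nat_lit 2, nat_lit 6, nat_lit 5, (.ofNat (nat_lit 8)), (.negSucc (nat_lit 154845375)), (.ofNat (nat_lit 719398116951629972810254329600)), (.ofNat (nat_lit 0)), (.ofNat (nat_lit 11067663337717384197080835840)), (.negSucc (nat_lit 154845391)), (.negSucc (nat_lit 154845359)), (.negSucc (nat_lit 2549712929188020324299)), (.ofNat (nat_lit 2549712929188020324300)), (.negSucc (nat_lit 2549712929188020324299)), (.ofNat (nat_lit 2549712929188020324300)), (.ofNat (nat_lit 235358116540432645320))⟩,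
    ⟨nat_lit 0, nat_lit 7, nat_lit 8, (.ofNat (nat_lit 8)), (.ofNat (nat_lit 3784512)), (.ofNat (nat_lit 839123824298416133441141548800)), (.ofNat (nat_lit 0)), (.ofNat (nat_lit 12909597296898709745248331520)), (.ofNat (nat_lit 3784496)), (.ofNat (nat_lit 3784528)), (.ofNat (nat_lit 2549712929188020324300)), (.negSucc (nat_lit 2549712929188020324299)), (.negSucc (nat_lit 2549712929188020324299)), (.ofNat (nat_lit 2549712929188020324300)), (.ofNat (nat_lit 235358116540432645320))⟩,
    ⟨nat_lit 0, nat_lit 8, nat_lit 9, (.ofNat (nat_lit 8)), (.ofNat (nat_lit 153337664)), (.ofNat (nat_lit 457806219043194893302014355200)), (.ofNat (nat_lit 0)), (.ofNat (nat_lit 7043172600664536820030990080)), (.ofNat (nat_lit 153337648)), (.ofNat (nat_lit 153337680)), (.negSucc (nat_lit 2549712929188020324299)), (.ofNat (nat_lit 2549712929188020324300)), (.negSucc (nat_lit 2549712929188020324299)), (.ofNat (nat_lit 2549712929188020324300)), (.ofNat (nat_lit 235358116540432645320))⟩,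
    ⟨nat_lit 1, nat_lit 9, nat_lit 10, (.ofNat (nat_lit 8)), (.ofNat (nat_lit 236961600)), (.ofNat (nat_lit 671023249851986436867976800000)), (.ofNat (nat_lit 0)), (.ofNat (nat_lit 10323434613107483644122720000)), (.ofNat (nat_lit 236961584)), (.ofNat (nat_lit 236961616)), (.ofNat (nat_lit 2549712929188020324300)), (.negSucc (nat_lit 2549712929188020324299)), (.negSucc (nat_lit 2549712929188020324299)), (.ofNat (nat_lit 2549712929188020324300)), (.ofNat (nat_lit 235358116540432645320))⟩,
    ⟨nat_lit 0, nat_lit 11, nat_lit 10, (.ofNat (nat_lit 8)), (.ofNat (nat_lit 181124928)), (.ofNat (nat_lit 813390734373217154045249529600)), (.ofNat (nat_lit 0)), (.ofNat (nat_lit 12513703605741802369926915840)), (.ofNat (nat_lit 181124912)), (.ofNat (nat_lit 181124944)), (.ofNat (nat_lit 2549712929188020324300)), (.negSucc (nat_lit 2549712929188020324299)), (.negSucc (nat_lit 2549712929188020324299)), (.ofNat (nat_lit 2549712929188020324300)), (.ofNat (nat_lit 235358116540432645320))⟩,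
    ⟨nat_lit 2, nat_lit 12, nat_lit 11, (.ofNat (nat_lit 8)), (.ofNat (nat_lit 139312960)), (.ofNat (nat_lit 706782218968821382262268307200)), (.ofNat (nat_lit 0)), (.ofNat (nat_lit 10873572599520328957881050880)), (.ofNat (nat_lit 139312944)), (.ofNat (nat_lit 139312976)), (.negSucc (nat_lit 2549712929188020324299)), (.ofNat (nat_lit 2549712929188020324300)), (.negSucc (nat_lit 2549712929188020324299)), (.ofNat (nat_lit 2549712929188020324300)), (.ofNat (nat_lit 235358116540432645320))⟩,
    ⟨nat_lit 1, nat_lit 13, nat_lit 12, (.ofNat (nat_lit 8)), (.ofNat (nat_lit 213761856)), (.ofNat (nat_lit 516958906273847092692571334400)), (.ofNat (nat_lit 0)), (.ofNat (nat_lit 7953213942674570656808789760)), (.ofNat (nat_lit 213761840)), (.ofNat (nat_lit 213761872)), (.ofNat (nat_lit 2549712929188020324300)), (.negSucc (nat_lit 2549712929188020324299)), (.negSucc (nat_lit 2549712929188020324299)), (.ofNat (nat_lit 2549712929188020324300)), (.ofNat (nat_lit 235358116540432645320))⟩,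
    ⟨nat_lit 0, nat_lit 14, nat_lit 13, (.ofNat (nat_lit 8)), (.ofNat (nat_lit 151043904)), (.ofNat (nat_lit 357046133167253435018099500800)), (.ofNat (nat_lit 0)), (.ofNat (nat_lit 5493017433342360538739992320)), (.ofNat (nat_lit 151043888)), (.ofNat (nat_lit 151043920)), (.negSucc (nat_lit 2549712929188020324299)), (.ofNat (nat_lit 2549712929188020324300)), (.negSucc (nat_lit 2549712929188020324299)), (.ofNat (nat_lit 2549712929188020324300)), (.ofNat (nat_lit 235358116540432645320))⟩,
    ⟨nat_lit 0, nat_lit 15, nat_lit 14, (.ofNat (nat_lit 8)), (.ofNat (nat_lit 2801472)), (.ofNat (nat_lit 735021778691929353157760198400)), (.ofNat (nat_lit 0)), (.ofNat (nat_lit 11308027364491220817811695360)), (.ofNat (nat_lit 2801456)), (.ofNat (nat_lit 2801488)), (.ofNat (nat_lit 2549712929188020324300)), (.negSucc (nat_lit 2549712929188020324299)), (.negSucc (nat_lit 2549712929188020324299)), (.ofNat (nat_lit 2549712929188020324300)), (.ofNat (nat_lit 235358116540432645320))⟩,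
    ⟨nat_lit 0, nat_lit 6, nat_lit 15, (.ofNat (nat_lit 8)), (.negSucc (nat_lit 79085759)), (.ofNat (nat_lit 526232844526110361241090860800)), (.ofNat (nat_lit 0)), (.ofNat (nat_lit 8095889915786313249862936320)), (.negSucc (nat_lit 79085775)), (.negSucc (nat_lit 79085743)), (.negSucc (nat_lit 2549712929188020324299)), (.ofNat (nat_lit 2549712929188020324300)), (.negSucc (nat_lit 2549712929188020324299)), (.ofNat (nat_lit 2549712929188020324300)), (.ofNat (nat_lit 235358116540432645320))⟩,
    ⟨nat_lit 0, nat_lit 23, nat_lit 16, (.ofNat (nat_lit 8)), (.negSucc (nat_lit 8912959)), (.ofNat (nat_lit 233937017956545071929353964800)), (.ofNat (nat_lit 0)), (.ofNat (nat_lit 3596028918603463717500407040)), (.negSucc (nat_lit 8912975)), (.negSucc (nat_lit 8912943)), (.negSucc (nat_lit 2549712929188020324299)), (.ofNat (nat_lit 2549712929188020324300)), (.negSucc (nat_lit 2549712929188020324299)), (.ofNat (nat_lit 2549712929188020324300)), (.ofNat (nat_lit 235497002653449426120))⟩,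
    ⟨nat_lit 1, nat_lit 16, nat_lit 17, (.ofNat (nat_lit 8)), (.ofNat (nat_lit 178831168)), (.ofNat (nat_lit 712630648497275695761334675200)), (.ofNat (nat_lit 0)), (.ofNat (nat_lit 10963548438419626088635918080)), (.ofNat (nat_lit 178831152)), (.ofNat (nat_lit 178831184)), (.ofNat (nat_lit 2549712929188020324300)), (.negSucc (nat_lit 2549712929188020324299)), (.negSucc (nat_lit 2549712929188020324299)), (.ofNat (nat_lit 2549712929188020324300)), (.ofNat (nat_lit 235422078634242473160))⟩,
    ⟨nat_lit 0, nat_lit 18, nat_lit 17, (.ofNat (nat_lit 8)), (.ofNat (nat_lit 141606720)), (.ofNat (nat_lit 807542304844762840546183161600)), (.ofNat (nat_lit 0)), (.ofNat (nat_lit 12423727766842505239172048640)), (.ofNat (nat_lit 141606704)), (.ofNat (nat_lit 141606736)), (.ofNat (nat_lit 2549712929188020324300)), (.negSucc (nat_lit 2549712929188020324299)), (.negSucc (nat_lit 2549712929188020324299)), (.ofNat (nat_lit 2549712929188020324300)), (.ofNat (nat_lit 235358116540432645320))⟩,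
    ⟨nat_lit 0, nat_lit 19, nat_lit 18, (.ofNat (nat_lit 8)), (.ofNat (nat_lit 16170816)), (.ofNat (nat_lit 487716758631575525197239494400)), (.ofNat (nat_lit 0)), (.ofNat (nat_lit 7503334748178085003034453760)), (.ofNat (nat_lit 16170800)), (.ofNat (nat_lit 16170832)), (.negSucc (nat_lit 2549712929188020324299)), (.ofNat (nat_lit 2549712929188020324300)), (.negSucc (nat_lit 2549712929188020324299)), (.ofNat (nat_lit 2549712929188020324300)), (.ofNat (nat_lit 235358116540432645320))⟩,
    ⟨nat_lit 2, nat_lit 19, nat_lit 20, (.ofNat (nat_lit 8)), (.negSucc (nat_lit 77545663)), (.ofNat (nat_lit 726666879365566048159093958400)), (.ofNat (nat_lit 0)), (.ofNat (nat_lit 11179490451777939202447599360)), (.negSucc (nat_lit 77545679)), (.negSucc (nat_lit 77545647)), (.negSucc (nat_lit 2549712929188020324299)), (.ofNat (nat_lit 2549712929188020324300)), (.negSucc (nat_lit 2549712929188020324299)), (.ofNat (nat_lit 2549712929188020324300)), (.ofNat (nat_lit 235358116540432645320))⟩,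
    ⟨nat_lit 0, nat_lit 20, nat_lit 21, (.ofNat (nat_lit 8)), (.ofNat (nat_lit 6078272)), (.ofNat (nat_lit 939883910174357591725056403200)), (.ofNat (nat_lit 0)), (.ofNat (nat_lit 14459752464220886026539329280)), (.ofNat (nat_lit 6078256)), (.ofNat (nat_lit 6078288)), (.ofNat (nat_lit 2549712929188020324300)), (.negSucc (nat_lit 2549712929188020324299)), (.negSucc (nat_lit 2549712929188020324299)), (.ofNat (nat_lit 2549712929188020324300)), (.ofNat (nat_lit 235358116540432645320))⟩,
    ⟨nat_lit 1, nat_lit 22, nat_lit 21, (.ofNat (nat_lit 8)), (.ofNat (nat_lit 155631424)), (.ofNat (nat_lit 558566304919136351585929209600)), (.ofNat (nat_lit 0)), (.ofNat (nat_lit 8593327767986713101321987840)), (.ofNat (nat_lit 155631408)), (.ofNat (nat_lit 155631440)), (.ofNat (nat_lit 2549712929188020324300)), (.negSucc (nat_lit 2549712929188020324299)), (.negSucc (nat_lit 2549712929188020324299)), (.ofNat (nat_lit 2549712929188020324300)), (.ofNat (nat_lit 235358116540432645320))⟩,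
    ⟨nat_lit 2, nat_lit 23, nat_lit 7, (.ofNat (nat_lit 8)), (.negSucc (nat_lit 121241663)), (.ofNat (nat_lit 520342966864279167283632672000)), (.ofNat (nat_lit 0)), (.ofNat (nat_lit 8005276413296602573594348800)), (.negSucc (nat_lit 121241679)), (.negSucc (nat_lit 121241647)), (.negSucc (nat_lit 2549712929188020324299)), (.ofNat (nat_lit 2549712929188020324300)), (.negSucc (nat_lit 2549712929188020324299)), (.ofNat (nat_lit 2549712929188020324300)), (.ofNat (nat_lit 235465021606544512200))⟩]
  es := [
    ⟨nat_lit 1, nat_lit 0, (.negSucc (nat_lit 201457663)), (.negSucc (nat_lit 33292287)), (.negSucc (nat_lit 201457647)), (.negSucc (nat_lit 33292303)), (.negSucc (nat_lit 2549712929188020324299)), (.negSucc (nat_lit 39226352756738774219)), (.negSucc (nat_lit 123395436204750350749532159))⟩,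
    ⟨nat_lit 1, nat_lit 2, (.negSucc (nat_lit 201457663)), (.negSucc (nat_lit 75251903)), (.negSucc (nat_lit 201457647)), (.negSucc (nat_lit 75251919)), (.ofNat (nat_lit 2549712929188020324300)), (.ofNat (nat_lit 39226352756738774220)), (.ofNat (nat_lit 15681503351020357074419712000))⟩,
    ⟨nat_lit 2, nat_lit 3, (.negSucc (nat_lit 75251903)), (.ofNat (nat_lit 18464576)), (.negSucc (nat_lit 75251887)), (.ofNat (nat_lit 18464560)), (.negSucc (nat_lit 2549712929188020324299)), (.negSucc (nat_lit 39226352756738774219)), (.ofNat (nat_lit 9777787887179873893057482240))⟩,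
    ⟨nat_lit 3, nat_lit 4, (.ofNat (nat_lit 18464576)), (.ofNat (nat_lit 164806464)), (.ofNat (nat_lit 18464592)), (.ofNat (nat_lit 164806448)), (.ofNat (nat_lit 2549712929188020324300)), (.ofNat (nat_lit 39226352756738774220)), (.ofNat (nat_lit 8329191943820648675593420800))⟩,
    ⟨nat_lit 5, nat_lit 4, (.ofNat (nat_lit 52477760)), (.ofNat (nat_lit 164806464)), (.ofNat (nat_lit 52477776)), (.ofNat (nat_lit 164806448)), (.negSucc (nat_lit 2549712929188020324299)), (.negSucc (nat_lit 39226352756738774219)), (.ofNat (nat_lit 21258704930730187777378536960))⟩,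
    ⟨nat_lit 6, nat_lit 5, (.negSucc (nat_lit 154845375)), (.ofNat (nat_lit 52477760)), (.negSucc (nat_lit 154845359)), (.ofNat (nat_lit 52477744)), (.ofNat (nat_lit 2549712929188020324300)), (.ofNat (nat_lit 39226352756738774220)), (.ofNat (nat_lit 17141682679443236224955842560))⟩,
    ⟨nat_lit 6, nat_lit 15, (.negSucc (nat_lit 154845375)), (.negSucc (nat_lit 79085759)), (.negSucc (nat_lit 154845359)), (.negSucc (nat_lit 79085775)), (.negSucc (nat_lit 2549712929188020324299)), (.negSucc (nat_lit 39226352756738774219)), (.ofNat (nat_lit 4993643995991532169205829120))⟩,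
    ⟨nat_lit 23, nat_lit 7, (.negSucc (nat_lit 121241663)), (.ofNat (nat_lit 3784512)), (.negSucc (nat_lit 121241647)), (.ofNat (nat_lit 3784496)), (.ofNat (nat_lit 2549712929188020324300)), (.ofNat (nat_lit 39226352756738774220)), (.ofNat (nat_lit 12761144694174598773347450880))⟩,
    ⟨nat_lit 7, nat_lit 8, (.ofNat (nat_lit 3784512)), (.ofNat (nat_lit 153337664)), (.ofNat (nat_lit 3784528)), (.ofNat (nat_lit 153337648)), (.negSucc (nat_lit 2549712929188020324299)), (.negSucc (nat_lit 39226352756738774219)), (.ofNat (nat_lit 13058049899622820717149212160))⟩,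
    ⟨nat_lit 8, nat_lit 9, (.ofNat (nat_lit 153337664)), (.ofNat (nat_lit 236961600)), (.ofNat (nat_lit 153337680)), (.ofNat (nat_lit 236961584)), (.ofNat (nat_lit 2549712929188020324300)), (.ofNat (nat_lit 39226352756738774220)), (.ofNat (nat_lit 1028295301706252922912768000))⟩,
    ⟨nat_lit 10, nat_lit 9, (.ofNat (nat_lit 181124928)), (.ofNat (nat_lit 236961600)), (.ofNat (nat_lit 181124944)), (.ofNat (nat_lit 236961584)), (.negSucc (nat_lit 2549712929188020324299)), (.negSucc (nat_lit 39226352756738774219)), (.ofNat (nat_lit 19618573924508714365332672000))⟩,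
    ⟨nat_lit 11, nat_lit 10, (.ofNat (nat_lit 139312960)), (.ofNat (nat_lit 181124928)), (.ofNat (nat_lit 139312976)), (.ofNat (nat_lit 181124912)), (.ofNat (nat_lit 2549712929188020324300)), (.ofNat (nat_lit 39226352756738774220)), (.ofNat (nat_lit 5408833286974890374521159680))⟩,
    ⟨nat_lit 11, nat_lit 12, (.ofNat (nat_lit 139312960)), (.ofNat (nat_lit 213761856)), (.ofNat (nat_lit 139312976)), (.ofNat (nat_lit 213761840)), (.negSucc (nat_lit 2549712929188020324299)), (.negSucc (nat_lit 39226352756738774219)), (.ofNat (nat_lit 16338311912065767541240942080))⟩,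
    ⟨nat_lit 13, nat_lit 12, (.ofNat (nat_lit 151043904)), (.ofNat (nat_lit 213761856)), (.ofNat (nat_lit 151043920)), (.ofNat (nat_lit 213761840)), (.ofNat (nat_lit 2549712929188020324300)), (.ofNat (nat_lit 39226352756738774220)), (.negSucc (nat_lit 431884026716626227623362559))⟩,
    ⟨nat_lit 14, nat_lit 13, (.ofNat (nat_lit 2801472)), (.ofNat (nat_lit 151043904)), (.ofNat (nat_lit 2801488)), (.ofNat (nat_lit 151043888)), (.negSucc (nat_lit 2549712929188020324299)), (.negSucc (nat_lit 39226352756738774219)), (.ofNat (nat_lit 11417918893401347305103347200))⟩,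
    ⟨nat_lit 15, nat_lit 14, (.negSucc (nat_lit 79085759)), (.ofNat (nat_lit 2801472)), (.negSucc (nat_lit 79085743)), (.ofNat (nat_lit 2801456)), (.ofNat (nat_lit 2549712929188020324300)), (.ofNat (nat_lit 39226352756738774220)), (.ofNat (nat_lit 11198135835581094330520043520))⟩,
    ⟨nat_lit 16, nat_lit 17, (.negSucc (nat_lit 8912959)), (.ofNat (nat_lit 178831168)), (.negSucc (nat_lit 8912943)), (.ofNat (nat_lit 178831152)), (.ofNat (nat_lit 2549712929188020324300)), (.ofNat (nat_lit 39242343280191231180)), (.ofNat (nat_lit 3945794354566076953358499840))⟩,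
    ⟨nat_lit 18, nat_lit 17, (.ofNat (nat_lit 141606720)), (.ofNat (nat_lit 178831168)), (.ofNat (nat_lit 141606736)), (.ofNat (nat_lit 178831152)), (.negSucc (nat_lit 2549712929188020324299)), (.negSucc (nat_lit 39226352756738774219)), (.ofNat (nat_lit 17978442918287240953286807040))⟩,
    ⟨nat_lit 19, nat_lit 18, (.ofNat (nat_lit 16170816)), (.ofNat (nat_lit 141606720)), (.ofNat (nat_lit 16170832)), (.ofNat (nat_lit 141606704)), (.ofNat (nat_lit 2549712929188020324300)), (.ofNat (nat_lit 39226352756738774220)), (.ofNat (nat_lit 6869012615397769525057290240))⟩,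
    ⟨nat_lit 20, nat_lit 19, (.negSucc (nat_lit 77545663)), (.ofNat (nat_lit 16170816)), (.negSucc (nat_lit 77545647)), (.ofNat (nat_lit 16170800)), (.negSucc (nat_lit 2549712929188020324299)), (.negSucc (nat_lit 39226352756738774219)), (.ofNat (nat_lit 8137656880958400481011617280))⟩,
    ⟨nat_lit 20, nat_lit 21, (.negSucc (nat_lit 77545663)), (.ofNat (nat_lit 6078272)), (.negSucc (nat_lit 77545647)), (.ofNat (nat_lit 6078256)), (.ofNat (nat_lit 2549712929188020324300)), (.ofNat (nat_lit 39226352756738774220)), (.ofNat (nat_lit 14221324022597477923883581440))⟩,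
    ⟨nat_lit 21, nat_lit 22, (.ofNat (nat_lit 6078272)), (.ofNat (nat_lit 155631424)), (.ofNat (nat_lit 6078288)), (.ofNat (nat_lit 155631408)), (.negSucc (nat_lit 2549712929188020324299)), (.negSucc (nat_lit 39226352756738774219)), (.ofNat (nat_lit 14698180905844294129195077120))⟩,
    ⟨nat_lit 0, nat_lit 22, (.negSucc (nat_lit 33292287)), (.ofNat (nat_lit 155631424)), (.negSucc (nat_lit 33292271)), (.ofNat (nat_lit 155631408)), (.ofNat (nat_lit 2549712929188020324300)), (.ofNat (nat_lit 39226352756738774220)), (.ofNat (nat_lit 2488474630129132073448898560))⟩,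
    ⟨nat_lit 23, nat_lit 16, (.negSucc (nat_lit 121241663)), (.negSucc (nat_lit 8912959)), (.negSucc (nat_lit 121241647)), (.negSucc (nat_lit 8912975)), (.negSucc (nat_lit 2549712929188020324299)), (.negSucc (nat_lit 39253079023266740939)), (.ofNat (nat_lit 3246167795392248186171824640))⟩]

theorem ok21 : stOK 23 23 S21 = true := by decide +kernel

def S22 : SD where
  vs := [
    ⟨nat_lit 0, nat_lit 0, nat_lit 22, (.ofNat (nat_lit 8)), (.negSucc (nat_lit 33816575)), (.ofNat (nat_lit 78201857694760534787516006400)), (.negSucc (nat_lit 524287)), (.ofNat (nat_lit 1336783892218128799786598400)), (.negSucc (nat_lit 33816591)), (.negSucc (nat_lit 33816559)), (.negSucc (nat_lit 2549712929188020324299)), (.ofNat (nat_lit 2549712929188020324300)), (.negSucc (nat_lit 2549712929188020324299)), (.ofNat (nat_lit 2549712929188020324300)), (.ofNat (nat_lit 0))⟩,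
    ⟨nat_lit 2, nat_lit 0, nat_lit 1, (.ofNat (nat_lit 8)), (.negSucc (nat_lit 204079103)), (.ofNat (nat_lit 512322426692597862518213836800)), (.negSucc (nat_lit 2621439)), (.ofNat (nat_lit 6683919461090643998932992000)), (.negSucc (nat_lit 204079119)), (.negSucc (nat_lit 204079087)), (.negSucc (nat_lit 2549712929188020324299)), (.ofNat (nat_lit 2549712929188020324300)), (.negSucc (nat_lit 2549712929188020324299)), (.ofNat (nat_lit 2549712929188020324300)), (.ofNat (nat_lit 0))⟩,
    ⟨nat_lit 0, nat_lit 1, nat_lit 2, (.ofNat (nat_lit 8)), (.negSucc (nat_lit 76824767)), (.ofNat (nat_lit 836784452487034408041515001600)), (.negSucc (nat_lit 1572863)), (.ofNat (nat_lit 9357487245526901598506188800)), (.negSucc (nat_lit 76824783)), (.negSucc (nat_lit 76824751)), (.ofNat (nat_lit 2549712929188020324300)), (.negSucc (nat_lit 2549712929188020324299)), (.negSucc (nat_lit 2549712929188020324299)), (.ofNat (nat_lit 2549712929188020324300)), (.ofNat (nat_lit 0))⟩,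
    ⟨nat_lit 0, nat_lit 2, nat_lit 3, (.ofNat (nat_lit 8)), (.ofNat (nat_lit 17940288)), (.ofNat (nat_lit 595160763968607627480087340800)), (.negSucc (nat_lit 524287)), (.ofNat (nat_lit 6683919461090643998932992000)), (.ofNat (nat_lit 17940272)), (.ofNat (nat_lit 17940304)), (.negSucc (nat_lit 2549712929188020324299)), (.ofNat (nat_lit 2549712929188020324300)), (.negSucc (nat_lit 2549712929188020324299)), (.ofNat (nat_lit 2549712929188020324300)), (.ofNat (nat_lit 0))⟩,
    ⟨nat_lit 1, nat_lit 3, nat_lit 4, (.ofNat (nat_lit 8)), (.ofNat (nat_lit 169066304)), (.ofNat (nat_lit 980488720900483254018574329600)), (.ofNat (nat_lit 4259840)), (.ofNat (nat_lit 18882072477581069296985702400)), (.ofNat (nat_lit 169066288)), (.ofNat (nat_lit 169066320)), (.ofNat (nat_lit 2549712929188020324300)), (.negSucc (nat_lit 2549712929188020324299)), (.negSucc (nat_lit 2549712929188020324299)), (.ofNat (nat_lit 2549712929188020324300)), (.ofNat (nat_lit 0))⟩,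
    ⟨nat_lit 0, nat_lit 5, nat_lit 4, (.ofNat (nat_lit 8)), (.ofNat (nat_lit 55426880)), (.ofNat (nat_lit 1270236629538762671372319532800)), (.ofNat (nat_lit 2949120)), (.ofNat (nat_lit 22224032208126391296452198400)), (.ofNat (nat_lit 55426864)), (.ofNat (nat_lit 55426896)), (.ofNat (nat_lit 2549712929188020324300)), (.negSucc (nat_lit 2549712929188020324299)), (.negSucc (nat_lit 2549712929188020324299)), (.ofNat (nat_lit 2549712929188020324300)), (.ofNat (nat_lit 0))⟩,
    ⟨nat_lit 2, nat_lit 6, nat_lit 5, (.ofNat (nat_lit 8)), (.negSucc (nat_lit 157204671)), (.ofNat (nat_lit 728087212251047810008867219200)), (.negSucc (nat_lit 2359295)), (.ofNat (nat_lit 8689095299417837198612889600)), (.negSucc (nat_lit 157204687)), (.negSucc (nat_lit 157204655)), (.negSucc (nat_lit 2549712929188020324299)), (.ofNat (nat_lit 2549712929188020324300)), (.negSucc (nat_lit 2549712929188020324299)), (.ofNat (nat_lit 2549712929188020324300)), (.ofNat (nat_lit 0))⟩,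
    ⟨nat_lit 0, nat_lit 7, nat_lit 8, (.ofNat (nat_lit 8)), (.ofNat (nat_lit 6209344)), (.ofNat (nat_lit 856000720937670009538447353600)), (.ofNat (nat_lit 2424832)), (.ofNat (nat_lit 16876896639253876097305804800)), (.ofNat (nat_lit 6209328)), (.ofNat (nat_lit 6209360)), (.ofNat (nat_lit 2549712929188020324300)), (.negSucc (nat_lit 2549712929188020324299)), (.negSucc (nat_lit 2549712929188020324299)), (.ofNat (nat_lit 2549712929188020324300)), (.ofNat (nat_lit 0))⟩,
    ⟨nat_lit 0, nat_lit 8, nat_lit 9, (.ofNat (nat_lit 8)), (.ofNat (nat_lit 157597504)), (.ofNat (nat_lit 470004372059685318600067065600)), (.ofNat (nat_lit 4259840)), (.ofNat (nat_lit 12198153016490425298052710400)), (.ofNat (nat_lit 157597488)), (.ofNat (nat_lit 157597520)), (.negSucc (nat_lit 2549712929188020324299)), (.ofNat (nat_lit 2549712929188020324300)), (.negSucc (nat_lit 2549712929188020324299)), (.ofNat (nat_lit 2549712929188020324300)), (.ofNat (nat_lit 0))⟩,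
    ⟨nat_lit 1, nat_lit 9, nat_lit 10, (.ofNat (nat_lit 8)), (.ofNat (nat_lit 242270016)), (.ofNat (nat_lit 685894970652913119765602707200)), (.ofNat (nat_lit 5308416)), (.ofNat (nat_lit 14871720800926682897625907200)), (.ofNat (nat_lit 242270000)), (.ofNat (nat_lit 242270032)), (.ofNat (nat_lit 2549712929188020324300)), (.negSucc (nat_lit 2549712929188020324299)), (.negSucc (nat_lit 2549712929188020324299)), (.ofNat (nat_lit 2549712929188020324300)), (.ofNat (nat_lit 0))⟩,
    ⟨nat_lit 0, nat_lit 11, nat_lit 10, (.ofNat (nat_lit 8)), (.ofNat (nat_lit 185646912)), (.ofNat (nat_lit 830267631012471030142555334400)), (.ofNat (nat_lit 4521984)), (.ofNat (nat_lit 16876896639253876097305804800)), (.ofNat (nat_lit 185646896)), (.ofNat (nat_lit 185646928)), (.ofNat (nat_lit 2549712929188020324300)), (.negSucc (nat_lit 2549712929188020324299)), (.negSucc (nat_lit 2549712929188020324299)), (.ofNat (nat_lit 2549712929188020324300)), (.ofNat (nat_lit 0))⟩,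
    ⟨nat_lit 2, nat_lit 12, nat_lit 11, (.ofNat (nat_lit 8)), (.ofNat (nat_lit 143310656)), (.ofNat (nat_lit 722322331715857129559787513600)), (.ofNat (nat_lit 3997696)), (.ofNat (nat_lit 15540112747035747297519206400)), (.ofNat (nat_lit 143310640)), (.ofNat (nat_lit 143310672)), (.negSucc (nat_lit 2549712929188020324299)), (.ofNat (nat_lit 2549712929188020324300)), (.negSucc (nat_lit 2549712929188020324299)), (.ofNat (nat_lit 2549712929188020324300)), (.ofNat (nat_lit 0))⟩,
    ⟨nat_lit 1, nat_lit 13, nat_lit 12, (.ofNat (nat_lit 8)), (.ofNat (nat_lit 218808128)), (.ofNat (nat_lit 529825451236446582390517344000)), (.ofNat (nat_lit 5046272)), (.ofNat (nat_lit 12866544962599489697946009600)), (.ofNat (nat_lit 218808112)), (.ofNat (nat_lit 218808144)), (.ofNat (nat_lit 2549712929188020324300)), (.negSucc (nat_lit 2549712929188020324299)), (.negSucc (nat_lit 2549712929188020324299)), (.ofNat (nat_lit 2549712929188020324300)), (.ofNat (nat_lit 0))⟩,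
    ⟨nat_lit 0, nat_lit 14, nat_lit 13, (.ofNat (nat_lit 8)), (.ofNat (nat_lit 152354624)), (.ofNat (nat_lit 360388092897798757017565996800)), (.ofNat (nat_lit 1310720)), (.ofNat (nat_lit 3341959730545321999466496000)), (.ofNat (nat_lit 152354608)), (.ofNat (nat_lit 152354640)), (.negSucc (nat_lit 2549712929188020324299)), (.ofNat (nat_lit 2549712929188020324300)), (.negSucc (nat_lit 2549712929188020324299)), (.ofNat (nat_lit 2549712929188020324300)), (.ofNat (nat_lit 0))⟩,
    ⟨nat_lit 0, nat_lit 15, nat_lit 14, (.ofNat (nat_lit 8)), (.ofNat (nat_lit 2277184)), (.ofNat (nat_lit 743042482045238125956479788800)), (.negSucc (nat_lit 524287)), (.ofNat (nat_lit 8020703353308772798719590400)), (.ofNat (nat_lit 2277168)), (.ofNat (nat_lit 2277200)), (.ofNat (nat_lit 2549712929188020324300)), (.negSucc (nat_lit 2549712929188020324299)), (.negSucc (nat_lit 2549712929188020324299)), (.ofNat (nat_lit 2549712929188020324300)), (.ofNat (nat_lit 0))⟩,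
    ⟨nat_lit 0, nat_lit 6, nat_lit 15, (.ofNat (nat_lit 8)), (.negSucc (nat_lit 80396479)), (.ofNat (nat_lit 532248372041091940840130553600)), (.negSucc (nat_lit 1310719)), (.ofNat (nat_lit 6015527514981579599039692800)), (.negSucc (nat_lit 80396495)), (.negSucc (nat_lit 80396463)), (.negSucc (nat_lit 2549712929188020324299)), (.ofNat (nat_lit 2549712929188020324300)), (.negSucc (nat_lit 2549712929188020324299)), (.ofNat (nat_lit 2549712929188020324300)), (.ofNat (nat_lit 0))⟩,
    ⟨nat_lit 0, nat_lit 23, nat_lit 16, (.ofNat (nat_lit 8)), (.negSucc (nat_lit 9437247)), (.ofNat (nat_lit 236610585740981329528927161600)), (.negSucc (nat_lit 524287)), (.ofNat (nat_lit 2673567784436257599573196800)), (.negSucc (nat_lit 9437263)), (.negSucc (nat_lit 9437231)), (.negSucc (nat_lit 2549712929188020324299)), (.ofNat (nat_lit 2549712929188020324300)), (.negSucc (nat_lit 2549712929188020324299)), (.ofNat (nat_lit 2549712929188020324300)), (.ofNat (nat_lit 0))⟩,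
    ⟨nat_lit 1, nat_lit 16, nat_lit 17, (.ofNat (nat_lit 8)), (.ofNat (nat_lit 183353152)), (.ofNat (nat_lit 728170761244311443058853881600)), (.ofNat (nat_lit 4521984)), (.ofNat (nat_lit 15540112747035747297519206400)), (.ofNat (nat_lit 183353136)), (.ofNat (nat_lit 183353168)), (.ofNat (nat_lit 2549712929188020324300)), (.negSucc (nat_lit 2549712929188020324299)), (.negSucc (nat_lit 2549712929188020324299)), (.ofNat (nat_lit 2549712929188020324300)), (.ofNat (nat_lit 0))⟩,
    ⟨nat_lit 0, nat_lit 18, nat_lit 17, (.ofNat (nat_lit 8)), (.ofNat (nat_lit 145604416)), (.ofNat (nat_lit 824419201484016716643488966400)), (.ofNat (nat_lit 3997696)), (.ofNat (nat_lit 16876896639253876097305804800)), (.ofNat (nat_lit 145604400)), (.ofNat (nat_lit 145604432)), (.ofNat (nat_lit 2549712929188020324300)), (.negSucc (nat_lit 2549712929188020324299)), (.negSucc (nat_lit 2549712929188020324299)), (.ofNat (nat_lit 2549712929188020324300)), (.ofNat (nat_lit 0))⟩,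
    ⟨nat_lit 0, nat_lit 19, nat_lit 18, (.ofNat (nat_lit 8)), (.ofNat (nat_lit 15646528)), (.ofNat (nat_lit 493063894200448040396385888000)), (.negSucc (nat_lit 524287)), (.ofNat (nat_lit 5347135568872515199146393600)), (.ofNat (nat_lit 15646512)), (.ofNat (nat_lit 15646544)), (.negSucc (nat_lit 2549712929188020324299)), (.ofNat (nat_lit 2549712929188020324300)), (.negSucc (nat_lit 2549712929188020324299)), (.ofNat (nat_lit 2549712929188020324300)), (.ofNat (nat_lit 0))⟩,
    ⟨nat_lit 2, nat_lit 19, nat_lit 20, (.ofNat (nat_lit 8)), (.negSucc (nat_lit 79118527)), (.ofNat (nat_lit 734687582718874820957813548800)), (.negSucc (nat_lit 1572863)), (.ofNat (nat_lit 8020703353308772798719590400)), (.negSucc (nat_lit 79118543)), (.negSucc (nat_lit 79118511)), (.negSucc (nat_lit 2549712929188020324299)), (.ofNat (nat_lit 2549712929188020324300)), (.negSucc (nat_lit 2549712929188020324299)), (.ofNat (nat_lit 2549712929188020324300)), (.ofNat (nat_lit 0))⟩,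
    ⟨nat_lit 0, nat_lit 20, nat_lit 21, (.ofNat (nat_lit 8)), (.ofNat (nat_lit 8503104)), (.ofNat (nat_lit 958097590705829596622148806400)), (.ofNat (nat_lit 2424832)), (.ofNat (nat_lit 18213680531472004897092403200)), (.ofNat (nat_lit 8503088)), (.ofNat (nat_lit 8503120)), (.ofNat (nat_lit 2549712929188020324300)), (.negSucc (nat_lit 2549712929188020324299)), (.negSucc (nat_lit 2549712929188020324299)), (.ofNat (nat_lit 2549712929188020324300)), (.ofNat (nat_lit 0))⟩,
    ⟨nat_lit 1, nat_lit 22, nat_lit 21, (.ofNat (nat_lit 8)), (.ofNat (nat_lit 159891264)), (.ofNat (nat_lit 572101241827844905683768518400)), (.ofNat (nat_lit 4259840)), (.ofNat (nat_lit 13534936908708554097839308800)), (.ofNat (nat_lit 159891248)), (.ofNat (nat_lit 159891280)), (.ofNat (nat_lit 2549712929188020324300)), (.negSucc (nat_lit 2549712929188020324299)), (.negSucc (nat_lit 2549712929188020324299)), (.ofNat (nat_lit 2549712929188020324300)), (.ofNat (nat_lit 0))⟩,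
    ⟨nat_lit 2, nat_lit 23, nat_lit 7, (.ofNat (nat_lit 8)), (.negSucc (nat_lit 123076671)), (.ofNat (nat_lit 526358494379260746882672364800)), (.negSucc (nat_lit 1835007)), (.ofNat (nat_lit 6015527514981579599039692800)), (.negSucc (nat_lit 123076687)), (.negSucc (nat_lit 123076655)), (.negSucc (nat_lit 2549712929188020324299)), (.ofNat (nat_lit 2549712929188020324300)), (.negSucc (nat_lit 2549712929188020324299)), (.ofNat (nat_lit 2549712929188020324300)), (.ofNat (nat_lit 0))⟩]
  es := [
    ⟨nat_lit 1, nat_lit 0, (.negSucc (nat_lit 204079103)), (.negSucc (nat_lit 33816575)), (.negSucc (nat_lit 204079087)), (.negSucc (nat_lit 33816591)), (.negSucc (nat_lit 2549712929188020324299)), (.ofNat (nat_lit 0)), (.ofNat (nat_lit 0))⟩,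
    ⟨nat_lit 1, nat_lit 2, (.negSucc (nat_lit 204079103)), (.negSucc (nat_lit 76824767)), (.negSucc (nat_lit 204079087)), (.negSucc (nat_lit 76824783)), (.ofNat (nat_lit 2549712929188020324300)), (.ofNat (nat_lit 0)), (.ofNat (nat_lit 13367838922181287997865984000))⟩,
    ⟨nat_lit 2, nat_lit 3, (.negSucc (nat_lit 76824767)), (.ofNat (nat_lit 17940288)), (.negSucc (nat_lit 76824751)), (.ofNat (nat_lit 17940272)), (.negSucc (nat_lit 2549712929188020324299)), (.ofNat (nat_lit 0)), (.ofNat (nat_lit 5347135568872515199146393600))⟩,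
    ⟨nat_lit 3, nat_lit 4, (.ofNat (nat_lit 17940288)), (.ofNat (nat_lit 169066304)), (.ofNat (nat_lit 17940304)), (.ofNat (nat_lit 169066288)), (.ofNat (nat_lit 2549712929188020324300)), (.ofNat (nat_lit 0)), (.ofNat (nat_lit 8020703353308772798719590400))⟩,
    ⟨nat_lit 5, nat_lit 4, (.ofNat (nat_lit 55426880)), (.ofNat (nat_lit 169066304)), (.ofNat (nat_lit 55426896)), (.ofNat (nat_lit 169066288)), (.negSucc (nat_lit 2549712929188020324299)), (.ofNat (nat_lit 0)), (.ofNat (nat_lit 29743441601853365795251814400))⟩,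
    ⟨nat_lit 6, nat_lit 5, (.negSucc (nat_lit 157204671)), (.ofNat (nat_lit 55426880)), (.negSucc (nat_lit 157204655)), (.ofNat (nat_lit 55426864)), (.ofNat (nat_lit 2549712929188020324300)), (.ofNat (nat_lit 0)), (.ofNat (nat_lit 14704622814399416797652582400))⟩,
    ⟨nat_lit 6, nat_lit 15, (.negSucc (nat_lit 157204671)), (.negSucc (nat_lit 80396479)), (.negSucc (nat_lit 157204655)), (.negSucc (nat_lit 80396495)), (.negSucc (nat_lit 2549712929188020324299)), (.ofNat (nat_lit 0)), (.ofNat (nat_lit 2673567784436257599573196800))⟩,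
    ⟨nat_lit 23, nat_lit 7, (.negSucc (nat_lit 123076671)), (.ofNat (nat_lit 6209344)), (.negSucc (nat_lit 123076655)), (.ofNat (nat_lit 6209328)), (.ofNat (nat_lit 2549712929188020324300)), (.ofNat (nat_lit 0)), (.ofNat (nat_lit 10694271137745030398292787200))⟩,
    ⟨nat_lit 7, nat_lit 8, (.ofNat (nat_lit 6209344)), (.ofNat (nat_lit 157597504)), (.ofNat (nat_lit 6209360)), (.ofNat (nat_lit 157597488)), (.negSucc (nat_lit 2549712929188020324299)), (.ofNat (nat_lit 0)), (.ofNat (nat_lit 23059522140762721796318822400))⟩,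
    ⟨nat_lit 8, nat_lit 9, (.ofNat (nat_lit 157597504)), (.ofNat (nat_lit 242270016)), (.ofNat (nat_lit 157597520)), (.ofNat (nat_lit 242270000)), (.ofNat (nat_lit 2549712929188020324300)), (.ofNat (nat_lit 0)), (.ofNat (nat_lit 1336783892218128799786598400))⟩,
    ⟨nat_lit 10, nat_lit 9, (.ofNat (nat_lit 185646912)), (.ofNat (nat_lit 242270016)), (.ofNat (nat_lit 185646928)), (.ofNat (nat_lit 242270000)), (.negSucc (nat_lit 2549712929188020324299)), (.ofNat (nat_lit 0)), (.ofNat (nat_lit 28406657709635236995465216000))⟩,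
    ⟨nat_lit 11, nat_lit 10, (.ofNat (nat_lit 143310656)), (.ofNat (nat_lit 185646912)), (.ofNat (nat_lit 143310672)), (.ofNat (nat_lit 185646896)), (.ofNat (nat_lit 2549712929188020324300)), (.ofNat (nat_lit 0)), (.ofNat (nat_lit 5347135568872515199146393600))⟩,
    ⟨nat_lit 11, nat_lit 12, (.ofNat (nat_lit 143310656)), (.ofNat (nat_lit 218808128)), (.ofNat (nat_lit 143310672)), (.ofNat (nat_lit 218808112)), (.negSucc (nat_lit 2549712929188020324299)), (.ofNat (nat_lit 0)), (.ofNat (nat_lit 25733089925198979395892019200))⟩,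
    ⟨nat_lit 13, nat_lit 12, (.ofNat (nat_lit 152354624)), (.ofNat (nat_lit 218808128)), (.ofNat (nat_lit 152354640)), (.ofNat (nat_lit 218808112)), (.ofNat (nat_lit 2549712929188020324300)), (.ofNat (nat_lit 0)), (.ofNat (nat_lit 0))⟩,
    ⟨nat_lit 14, nat_lit 13, (.ofNat (nat_lit 2277184)), (.ofNat (nat_lit 152354624)), (.ofNat (nat_lit 2277200)), (.ofNat (nat_lit 152354608)), (.negSucc (nat_lit 2549712929188020324299)), (.ofNat (nat_lit 0)), (.ofNat (nat_lit 6683919461090643998932992000))⟩,
    ⟨nat_lit 15, nat_lit 14, (.negSucc (nat_lit 80396479)), (.ofNat (nat_lit 2277184)), (.negSucc (nat_lit 80396463)), (.ofNat (nat_lit 2277168)), (.ofNat (nat_lit 2549712929188020324300)), (.ofNat (nat_lit 0)), (.ofNat (nat_lit 9357487245526901598506188800))⟩,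
    ⟨nat_lit 16, nat_lit 17, (.negSucc (nat_lit 9437247)), (.ofNat (nat_lit 183353152)), (.negSucc (nat_lit 9437231)), (.ofNat (nat_lit 183353136)), (.ofNat (nat_lit 2549712929188020324300)), (.ofNat (nat_lit 0)), (.ofNat (nat_lit 4010351676654386399359795200))⟩,
    ⟨nat_lit 18, nat_lit 17, (.ofNat (nat_lit 145604416)), (.ofNat (nat_lit 183353152)), (.ofNat (nat_lit 145604432)), (.ofNat (nat_lit 183353136)), (.negSucc (nat_lit 2549712929188020324299)), (.ofNat (nat_lit 0)), (.ofNat (nat_lit 27069873817417108195678617600))⟩,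
    ⟨nat_lit 19, nat_lit 18, (.ofNat (nat_lit 15646528)), (.ofNat (nat_lit 145604416)), (.ofNat (nat_lit 15646544)), (.ofNat (nat_lit 145604400)), (.ofNat (nat_lit 2549712929188020324300)), (.ofNat (nat_lit 0)), (.ofNat (nat_lit 6683919461090643998932992000))⟩,
    ⟨nat_lit 20, nat_lit 19, (.negSucc (nat_lit 79118527)), (.ofNat (nat_lit 15646528)), (.negSucc (nat_lit 79118511)), (.ofNat (nat_lit 15646512)), (.negSucc (nat_lit 2549712929188020324299)), (.ofNat (nat_lit 0)), (.ofNat (nat_lit 4010351676654386399359795200))⟩,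
    ⟨nat_lit 20, nat_lit 21, (.negSucc (nat_lit 79118527)), (.ofNat (nat_lit 8503104)), (.negSucc (nat_lit 79118511)), (.ofNat (nat_lit 8503088)), (.ofNat (nat_lit 2549712929188020324300)), (.ofNat (nat_lit 0)), (.ofNat (nat_lit 12031055029963159198079385600))⟩,
    ⟨nat_lit 21, nat_lit 22, (.ofNat (nat_lit 8503104)), (.ofNat (nat_lit 159891264)), (.ofNat (nat_lit 8503120)), (.ofNat (nat_lit 159891248)), (.negSucc (nat_lit 2549712929188020324299)), (.ofNat (nat_lit 0)), (.ofNat (nat_lit 24396306032980850596105420800))⟩,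
    ⟨nat_lit 0, nat_lit 22, (.negSucc (nat_lit 33816575)), (.ofNat (nat_lit 159891264)), (.negSucc (nat_lit 33816559)), (.ofNat (nat_lit 159891248)), (.ofNat (nat_lit 2549712929188020324300)), (.ofNat (nat_lit 0)), (.ofNat (nat_lit 2673567784436257599573196800))⟩,
    ⟨nat_lit 23, nat_lit 16, (.negSucc (nat_lit 123076671)), (.negSucc (nat_lit 9437247)), (.negSucc (nat_lit 123076655)), (.negSucc (nat_lit 9437263)), (.negSucc (nat_lit 2549712929188020324299)), (.ofNat (nat_lit 0)), (.ofNat (nat_lit 1336783892218128799786598400))⟩]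

theorem ok22 : stOK 23 23 S22 = true := by decide +kernel

def S23 : SD where
  vs := [
    ⟨nat_lit 0, nat_lit 0, nat_lit 22, (.ofNat (nat_lit 8)), (.negSucc (nat_lit 33816575)), (.ofNat (nat_lit 79423761721241168143565193216)), (.ofNat (nat_lit 0)), (.ofNat (nat_lit 1221904026480633356049186816)), (.negSucc (nat_lit 33816591)), (.negSucc (nat_lit 33816559)), (.negSucc (nat_lit 2589552193706583141866)), (.ofNat (nat_lit 2589552193706583141867)), (.negSucc (nat_lit 2589552193706583141866)), (.ofNat (nat_lit 2589552193706583141867)), (.ofNat (nat_lit 239035587111376905402))⟩,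
    ⟨nat_lit 2, nat_lit 0, nat_lit 1, (.ofNat (nat_lit 8)), (.negSucc (nat_lit 204079103)), (.ofNat (nat_lit 520327464609669704120023252992)), (.ofNat (nat_lit 0)), (.ofNat (nat_lit 8005037917071841601809416192)), (.negSucc (nat_lit 204079119)), (.negSucc (nat_lit 204079087)), (.negSucc (nat_lit 2589552193706583141866)), (.ofNat (nat_lit 2589552193706583141867)), (.negSucc (nat_lit 2589552193706583141866)), (.ofNat (nat_lit 2589552193706583141867)), (.ofNat (nat_lit 239035587111376905402))⟩,
    ⟨nat_lit 0, nat_lit 1, nat_lit 2, (.ofNat (nat_lit 8)), (.negSucc (nat_lit 76824767)), (.ofNat (nat_lit 849859209557144320667102138304)), (.ofNat (nat_lit 0)), (.ofNat (nat_lit 13074757070109912625587136704)), (.negSucc (nat_lit 76824783)), (.negSucc (nat_lit 76824751)), (.ofNat (nat_lit 2589552193706583141867)), (.negSucc (nat_lit 2589552193706583141866)), (.negSucc (nat_lit 2589552193706583141866)), (.ofNat (nat_lit 2589552193706583141867)), (.ofNat (nat_lit 239035587111376905402))⟩,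
    ⟨nat_lit 0, nat_lit 2, nat_lit 3, (.ofNat (nat_lit 8)), (.ofNat (nat_lit 17940288)), (.ofNat (nat_lit 604460150905617121659419938752)), (.ofNat (nat_lit 0)), (.ofNat (nat_lit 9299386937009494179332597952)), (.ofNat (nat_lit 17940272)), (.ofNat (nat_lit 17940304)), (.negSucc (nat_lit 2589552193706583141866)), (.ofNat (nat_lit 2589552193706583141867)), (.negSucc (nat_lit 2589552193706583141866)), (.ofNat (nat_lit 2589552193706583141867)), (.ofNat (nat_lit 239035587111376905402))⟩,
    ⟨nat_lit 1, nat_lit 3, nat_lit 4, (.ofNat (nat_lit 8)), (.ofNat (nat_lit 169066304)), (.ofNat (nat_lit 995808857164553304862542450624)), (.ofNat (nat_lit 0)), (.ofNat (nat_lit 15320136264070050843968121024)), (.ofNat (nat_lit 169066288)), (.ofNat (nat_lit 169066320)), (.ofNat (nat_lit 2589552193706583141867)), (.negSucc (nat_lit 2589552193706583141866)), (.negSucc (nat_lit 2589552193706583141866)), (.ofNat (nat_lit 2589552193706583141867)), (.ofNat (nat_lit 239035587111376905402))⟩,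
    ⟨nat_lit 0, nat_lit 5, nat_lit 4, (.ofNat (nat_lit 8)), (.ofNat (nat_lit 55426880)), (.ofNat (nat_lit 1290084076875305838112418615232)), (.ofNat (nat_lit 0)), (.ofNat (nat_lit 19847447336543166740099082432)), (.ofNat (nat_lit 55426864)), (.ofNat (nat_lit 55426896)), (.ofNat (nat_lit 2589552193706583141867)), (.negSucc (nat_lit 2589552193706583141866)), (.negSucc (nat_lit 2589552193706583141866)), (.ofNat (nat_lit 2589552193706583141867)), (.ofNat (nat_lit 239035587111376905402))⟩,
    ⟨nat_lit 2, nat_lit 6, nat_lit 5, (.ofNat (nat_lit 8)), (.negSucc (nat_lit 157204671)), (.ofNat (nat_lit 739463574942470432040202227648)), (.ofNat (nat_lit 0)), (.ofNat (nat_lit 11376362691422622031335008448)), (.negSucc (nat_lit 157204687)), (.negSucc (nat_lit 157204655)), (.negSucc (nat_lit 2589552193706583141866)), (.ofNat (nat_lit 2589552193706583141867)), (.negSucc (nat_lit 2589552193706583141866)), (.ofNat (nat_lit 2589552193706583141867)), (.ofNat (nat_lit 239035587111376905402))⟩,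
    ⟨nat_lit 0, nat_lit 7, nat_lit 8, (.ofNat (nat_lit 8)), (.ofNat (nat_lit 6209344)), (.ofNat (nat_lit 869375732202321133628157841344)), (.ofNat (nat_lit 0)), (.ofNat (nat_lit 13375011264651124089710487744)), (.ofNat (nat_lit 6209328)), (.ofNat (nat_lit 6209360)), (.ofNat (nat_lit 2589552193706583439851)), (.negSucc (nat_lit 2589552193706583341292)), (.negSucc (nat_lit 2589552193706583341292)), (.ofNat (nat_lit 2589552193706583439851)), (.ofNat (nat_lit 239035587111378496190))⟩,
    ⟨nat_lit 0, nat_lit 8, nat_lit 9, (.ofNat (nat_lit 8)), (.ofNat (nat_lit 157597504)), (.ofNat (nat_lit 477348190373117901703158550464)), (.ofNat (nat_lit 0)), (.ofNat (nat_lit 7343818313432583103091484864)), (.ofNat (nat_lit 157597488)), (.ofNat (nat_lit 157597520)), (.negSucc (nat_lit 2589552193706583341292)), (.ofNat (nat_lit 2589552193706583141867)), (.negSucc (nat_lit 2589552193706583341292)), (.ofNat (nat_lit 2589552193706583141867)), (.ofNat (nat_lit 239035587111377703106))⟩,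
    ⟨nat_lit 1, nat_lit 9, nat_lit 10, (.ofNat (nat_lit 8)), (.ofNat (nat_lit 242270016)), (.ofNat (nat_lit 696612079569364887261889810368)), (.ofNat (nat_lit 0)), (.ofNat (nat_lit 10717108916451767496287103168)), (.ofNat (nat_lit 242270000)), (.ofNat (nat_lit 242270032)), (.ofNat (nat_lit 2589552193706583141867)), (.negSucc (nat_lit 2589552193706583141866)), (.negSucc (nat_lit 2589552193706583141866)), (.ofNat (nat_lit 2589552193706583141867)), (.ofNat (nat_lit 239035587111376905402))⟩,
    ⟨nat_lit 0, nat_lit 11, nat_lit 10, (.ofNat (nat_lit 8)), (.ofNat (nat_lit 185646912)), (.ofNat (nat_lit 843240562747040889988471705536)), (.ofNat (nat_lit 0)), (.ofNat (nat_lit 12972931734569859845916371136)), (.ofNat (nat_lit 185646896)), (.ofNat (nat_lit 185646928)), (.ofNat (nat_lit 2589552193706583141867)), (.negSucc (nat_lit 2589552193706583141866)), (.negSucc (nat_lit 2589552193706583141866)), (.ofNat (nat_lit 2589552193706583141867)), (.ofNat (nat_lit 239035587111376905402))⟩,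
    ⟨nat_lit 2, nat_lit 12, nat_lit 11, (.ofNat (nat_lit 8)), (.ofNat (nat_lit 143310656)), (.ofNat (nat_lit 733608618148917397209106075584)), (.ofNat (nat_lit 0)), (.ofNat (nat_lit 11286286433060267649318561984)), (.ofNat (nat_lit 143310640)), (.ofNat (nat_lit 143310672)), (.negSucc (nat_lit 2589552193706583141866)), (.ofNat (nat_lit 2589552193706583141867)), (.negSucc (nat_lit 2589552193706583141866)), (.ofNat (nat_lit 2589552193706583141867)), (.ofNat (nat_lit 239035587111376905402))⟩,
    ⟨nat_lit 1, nat_lit 13, nat_lit 12, (.ofNat (nat_lit 8)), (.ofNat (nat_lit 218808128)), (.ofNat (nat_lit 538103973912016060240330215360)), (.ofNat (nat_lit 0)), (.ofNat (nat_lit 8278522675569477849812871360)), (.ofNat (nat_lit 218808112)), (.ofNat (nat_lit 218808144)), (.ofNat (nat_lit 2589552193706583141867)), (.negSucc (nat_lit 2589552193706583141866)), (.negSucc (nat_lit 2589552193706583141866)), (.ofNat (nat_lit 2589552193706583141867)), (.ofNat (nat_lit 239035587111376905402))⟩,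
    ⟨nat_lit 0, nat_lit 14, nat_lit 13, (.ofNat (nat_lit 8)), (.ofNat (nat_lit 152354624)), (.ofNat (nat_lit 366019156849326862595938963392)), (.ofNat (nat_lit 0)), (.ofNat (nat_lit 5631063951528105578372966592)), (.ofNat (nat_lit 152354608)), (.ofNat (nat_lit 152354640)), (.negSucc (nat_lit 2589552193706583141866)), (.ofNat (nat_lit 2589552193706583141867)), (.negSucc (nat_lit 2589552193706583141866)), (.ofNat (nat_lit 2589552193706583141867)), (.ofNat (nat_lit 239035587111376905402))⟩,
    ⟨nat_lit 0, nat_lit 15, nat_lit 14, (.ofNat (nat_lit 8)), (.ofNat (nat_lit 2277184)), (.ofNat (nat_lit 754652520827194971674495143872)), (.ofNat (nat_lit 0)), (.ofNat (nat_lit 11610038781956845718015355072)), (.ofNat (nat_lit 2277168)), (.ofNat (nat_lit 2277200)), (.ofNat (nat_lit 2589552193706583141867)), (.negSucc (nat_lit 2589552193706583141866)), (.negSucc (nat_lit 2589552193706583141866)), (.ofNat (nat_lit 2589552193706583141867)), (.ofNat (nat_lit 239035587111376905402))⟩,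
    ⟨nat_lit 0, nat_lit 6, nat_lit 15, (.ofNat (nat_lit 8)), (.negSucc (nat_lit 80396479)), (.ofNat (nat_lit 540564752854234002415718453184)), (.ofNat (nat_lit 0)), (.ofNat (nat_lit 8316380813142061575587899584)), (.negSucc (nat_lit 80396495)), (.negSucc (nat_lit 80396463)), (.negSucc (nat_lit 2589552193706583141866)), (.ofNat (nat_lit 2589552193706583141867)), (.negSucc (nat_lit 2589552193706583141866)), (.ofNat (nat_lit 2589552193706583141867)), (.ofNat (nat_lit 239035587111376905402))⟩,
    ⟨nat_lit 0, nat_lit 23, nat_lit 16, (.ofNat (nat_lit 8)), (.negSucc (nat_lit 9437247)), (.ofNat (nat_lit 240307626143184162802799248704)), (.ofNat (nat_lit 0)), (.ofNat (nat_lit 3697040402202833273872087104)), (.negSucc (nat_lit 9437263)), (.negSucc (nat_lit 9437231)), (.negSucc (nat_lit 2589552193706583068525)), (.ofNat (nat_lit 2589552193706583141867)), (.negSucc (nat_lit 2589552193706583068525)), (.ofNat (nat_lit 2589552193706583141867)), (.ofNat (nat_lit 239035587111376612038))⟩,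
    ⟨nat_lit 1, nat_lit 16, nat_lit 17, (.ofNat (nat_lit 8)), (.ofNat (nat_lit 183353152)), (.ofNat (nat_lit 739548429388753809356594925504)), (.ofNat (nat_lit 0)), (.ofNat (nat_lit 11377668144442366297741043904)), (.ofNat (nat_lit 183353136)), (.ofNat (nat_lit 183353168)), (.ofNat (nat_lit 2589552193706583141867)), (.negSucc (nat_lit 2589552193706583141866)), (.negSucc (nat_lit 2589552193706583141866)), (.ofNat (nat_lit 2589552193706583141867)), (.ofNat (nat_lit 239035587111376905402))⟩,
    ⟨nat_lit 0, nat_lit 18, nat_lit 17, (.ofNat (nat_lit 8)), (.ofNat (nat_lit 145604416)), (.ofNat (nat_lit 837300751507204477840982855616)), (.ofNat (nat_lit 0)), (.ofNat (nat_lit 12881550023187761197493889216)), (.ofNat (nat_lit 145604400)), (.ofNat (nat_lit 145604432)), (.ofNat (nat_lit 2589552193706583141867)), (.negSucc (nat_lit 2589552193706583141866)), (.negSucc (nat_lit 2589552193706583141866)), (.ofNat (nat_lit 2589552193706583141867)), (.ofNat (nat_lit 239035587111376905402))⟩,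
    ⟨nat_lit 0, nat_lit 19, nat_lit 18, (.ofNat (nat_lit 8)), (.ofNat (nat_lit 15646528)), (.ofNat (nat_lit 500768017547330041027543158720)), (.ofNat (nat_lit 0)), (.ofNat (nat_lit 7704123346882000631157270720)), (.ofNat (nat_lit 15646512)), (.ofNat (nat_lit 15646544)), (.negSucc (nat_lit 2589552193706583141866)), (.ofNat (nat_lit 2589552193706583141867)), (.negSucc (nat_lit 2589552193706583141866)), (.ofNat (nat_lit 2589552193706583141867)), (.ofNat (nat_lit 239035587111376905402))⟩,
    ⟨nat_lit 2, nat_lit 19, nat_lit 20, (.ofNat (nat_lit 8)), (.negSucc (nat_lit 79118527)), (.ofNat (nat_lit 746167076198857240035225358272)), (.ofNat (nat_lit 0)), (.ofNat (nat_lit 11479493479982419077411809472)), (.negSucc (nat_lit 79118543)), (.negSucc (nat_lit 79118511)), (.negSucc (nat_lit 2589552193706583141866)), (.ofNat (nat_lit 2589552193706583141867)), (.negSucc (nat_lit 2589552193706583141866)), (.ofNat (nat_lit 2589552193706583141867)), (.ofNat (nat_lit 239035587111376905402))⟩,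
    ⟨nat_lit 0, nat_lit 20, nat_lit 21, (.ofNat (nat_lit 8)), (.ofNat (nat_lit 8503104)), (.ofNat (nat_lit 973067865560608184069299425216)), (.ofNat (nat_lit 0)), (.ofNat (nat_lit 14970274854778587447150618816)), (.ofNat (nat_lit 8503088)), (.ofNat (nat_lit 8503120)), (.ofNat (nat_lit 2589552193706583141867)), (.negSucc (nat_lit 2589552193706583141866)), (.negSucc (nat_lit 2589552193706583141866)), (.ofNat (nat_lit 2589552193706583141867)), (.ofNat (nat_lit 239035587111376905402))⟩,
    ⟨nat_lit 1, nat_lit 22, nat_lit 21, (.ofNat (nat_lit 8)), (.ofNat (nat_lit 159891264)), (.ofNat (nat_lit 581040323731404982335035330496)), (.ofNat (nat_lit 0)), (.ofNat (nat_lit 8939081903560076651266812096)), (.ofNat (nat_lit 159891248)), (.ofNat (nat_lit 159891280)), (.ofNat (nat_lit 2589552193706583141867)), (.negSucc (nat_lit 2589552193706583141866)), (.negSucc (nat_lit 2589552193706583141866)), (.ofNat (nat_lit 2589552193706583141867)), (.ofNat (nat_lit 239035587111376905402))⟩,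
    ⟨nat_lit 2, nat_lit 23, nat_lit 7, (.ofNat (nat_lit 8)), (.negSucc (nat_lit 123076671)), (.ofNat (nat_lit 534582845853936687718246417728)), (.ofNat (nat_lit 0)), (.ofNat (nat_lit 8224351474675940835574052928)), (.negSucc (nat_lit 123076687)), (.negSucc (nat_lit 123076655)), (.negSucc (nat_lit 2589552193706583068525)), (.ofNat (nat_lit 2589552193706583439851)), (.negSucc (nat_lit 2589552193706583068525)), (.ofNat (nat_lit 2589552193706583439851)), (.ofNat (nat_lit 239035587111377208006))⟩]
  es := [
    ⟨nat_lit 1, nat_lit 0, (.negSucc (nat_lit 204079103)), (.negSucc (nat_lit 33816575)), (.negSucc (nat_lit 204079087)), (.negSucc (nat_lit 33816591)), (.negSucc (nat_lit 2589552193706583141866)), (.negSucc (nat_lit 39839264518562817566)), (.negSucc (nat_lit 125323489895449574979403775))⟩,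
    ⟨nat_lit 1, nat_lit 2, (.negSucc (nat_lit 204079103)), (.negSucc (nat_lit 76824767)), (.negSucc (nat_lit 204079087)), (.negSucc (nat_lit 76824783)), (.ofNat (nat_lit 2589552193706583141867)), (.ofNat (nat_lit 39839264518562817567)), (.ofNat (nat_lit 16135399324039132778598236160))⟩,
    ⟨nat_lit 2, nat_lit 3, (.negSucc (nat_lit 76824767)), (.ofNat (nat_lit 17940288)), (.negSucc (nat_lit 76824751)), (.ofNat (nat_lit 17940272)), (.negSucc (nat_lit 2589552193706583141866)), (.negSucc (nat_lit 39839264518562817566)), (.ofNat (nat_lit 10014114816180692472576037248))⟩,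
    ⟨nat_lit 3, nat_lit 4, (.ofNat (nat_lit 17940288)), (.ofNat (nat_lit 169066304)), (.ofNat (nat_lit 17940304)), (.ofNat (nat_lit 169066288)), (.ofNat (nat_lit 2589552193706583141867)), (.ofNat (nat_lit 39839264518562817567)), (.ofNat (nat_lit 8584659057838295886089158656))⟩,
    ⟨nat_lit 5, nat_lit 4, (.ofNat (nat_lit 55426880)), (.ofNat (nat_lit 169066304)), (.ofNat (nat_lit 55426896)), (.ofNat (nat_lit 169066288)), (.negSucc (nat_lit 2589552193706583141866)), (.negSucc (nat_lit 39839264518562817566)), (.ofNat (nat_lit 22055613470301805801847083392))⟩,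
    ⟨nat_lit 6, nat_lit 5, (.negSucc (nat_lit 157204671)), (.ofNat (nat_lit 55426880)), (.negSucc (nat_lit 157204655)), (.ofNat (nat_lit 55426864)), (.ofNat (nat_lit 2589552193706583141867)), (.ofNat (nat_lit 39839264518562817567)), (.ofNat (nat_lit 17639281202784527678351081472))⟩,
    ⟨nat_lit 6, nat_lit 15, (.negSucc (nat_lit 157204671)), (.negSucc (nat_lit 80396479)), (.negSucc (nat_lit 157204655)), (.negSucc (nat_lit 80396495)), (.negSucc (nat_lit 2589552193706583141866)), (.negSucc (nat_lit 39839264518562817566)), (.ofNat (nat_lit 5113444180060716384318935424))⟩,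
    ⟨nat_lit 23, nat_lit 7, (.negSucc (nat_lit 123076671)), (.ofNat (nat_lit 6209344)), (.negSucc (nat_lit 123076655)), (.ofNat (nat_lit 6209328)), (.ofNat (nat_lit 2589552193706583439851)), (.ofNat (nat_lit 39839264518563115551)), (.ofNat (nat_lit 13127635566548371319542579200))⟩,
    ⟨nat_lit 7, nat_lit 8, (.ofNat (nat_lit 6209344)), (.ofNat (nat_lit 157597504)), (.ofNat (nat_lit 6209360)), (.ofNat (nat_lit 157597488)), (.negSucc (nat_lit 2589552193706583341292)), (.negSucc (nat_lit 39839264518563016992)), (.ofNat (nat_lit 13622386962753876247897870336))⟩,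
    ⟨nat_lit 8, nat_lit 9, (.ofNat (nat_lit 157597504)), (.ofNat (nat_lit 242270016)), (.ofNat (nat_lit 157597520)), (.ofNat (nat_lit 242270000)), (.ofNat (nat_lit 2589552193706583141867)), (.ofNat (nat_lit 39839264518562817567)), (.ofNat (nat_lit 1065249664111321387324932096))⟩,
    ⟨nat_lit 10, nat_lit 9, (.ofNat (nat_lit 185646912)), (.ofNat (nat_lit 242270016)), (.ofNat (nat_lit 185646928)), (.ofNat (nat_lit 242270000)), (.negSucc (nat_lit 2589552193706583141866)), (.negSucc (nat_lit 39839264518562817566)), (.ofNat (nat_lit 20368968168792213605249274240))⟩,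
    ⟨nat_lit 11, nat_lit 10, (.ofNat (nat_lit 143310656)), (.ofNat (nat_lit 185646912)), (.ofNat (nat_lit 143310672)), (.ofNat (nat_lit 185646896)), (.ofNat (nat_lit 2589552193706583141867)), (.ofNat (nat_lit 39839264518562817567)), (.ofNat (nat_lit 5576895300347506086583468032))⟩,
    ⟨nat_lit 11, nat_lit 12, (.ofNat (nat_lit 143310656)), (.ofNat (nat_lit 218808128)), (.ofNat (nat_lit 143310672)), (.ofNat (nat_lit 218808112)), (.negSucc (nat_lit 2589552193706583141866)), (.negSucc (nat_lit 39839264518562817566)), (.ofNat (nat_lit 16995677565773029212053655936))⟩,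
    ⟨nat_lit 13, nat_lit 12, (.ofNat (nat_lit 152354624)), (.ofNat (nat_lit 218808128)), (.ofNat (nat_lit 152354640)), (.ofNat (nat_lit 218808112)), (.ofNat (nat_lit 2589552193706583141867)), (.ofNat (nat_lit 39839264518562817567)), (.negSucc (nat_lit 438632214634073512427913215))⟩,
    ⟨nat_lit 14, nat_lit 13, (.ofNat (nat_lit 2277184)), (.ofNat (nat_lit 152354624)), (.ofNat (nat_lit 2277200)), (.ofNat (nat_lit 152354608)), (.negSucc (nat_lit 2589552193706583141866)), (.negSucc (nat_lit 39839264518562817566)), (.ofNat (nat_lit 11700760117690284669173846400))⟩,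
    ⟨nat_lit 15, nat_lit 14, (.negSucc (nat_lit 80396479)), (.ofNat (nat_lit 2277184)), (.negSucc (nat_lit 80396463)), (.ofNat (nat_lit 2277168)), (.ofNat (nat_lit 2589552193706583141867)), (.ofNat (nat_lit 39839264518562817567)), (.ofNat (nat_lit 11519317446223406766856863744))⟩,
    ⟨nat_lit 16, nat_lit 17, (.negSucc (nat_lit 9437247)), (.ofNat (nat_lit 183353152)), (.negSucc (nat_lit 9437231)), (.ofNat (nat_lit 183353136)), (.ofNat (nat_lit 2589552193706583141867)), (.ofNat (nat_lit 39839264518562817567)), (.ofNat (nat_lit 4073013421602111186830622720))⟩,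
    ⟨nat_lit 18, nat_lit 17, (.ofNat (nat_lit 145604416)), (.ofNat (nat_lit 183353152)), (.ofNat (nat_lit 145604432)), (.ofNat (nat_lit 183353136)), (.negSucc (nat_lit 2589552193706583141866)), (.negSucc (nat_lit 39839264518562817566)), (.ofNat (nat_lit 18682322867282621408651465088))⟩,
    ⟨nat_lit 19, nat_lit 18, (.ofNat (nat_lit 15646528)), (.ofNat (nat_lit 145604416)), (.ofNat (nat_lit 15646544)), (.ofNat (nat_lit 145604400)), (.ofNat (nat_lit 2589552193706583141867)), (.ofNat (nat_lit 39839264518562817567)), (.ofNat (nat_lit 7080777179092900986336313344))⟩,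
    ⟨nat_lit 20, nat_lit 19, (.negSucc (nat_lit 79118527)), (.ofNat (nat_lit 15646528)), (.negSucc (nat_lit 79118511)), (.ofNat (nat_lit 15646512)), (.negSucc (nat_lit 2589552193706583141866)), (.negSucc (nat_lit 39839264518562817566)), (.ofNat (nat_lit 8327469514671100275978228096))⟩,
    ⟨nat_lit 20, nat_lit 21, (.negSucc (nat_lit 79118527)), (.ofNat (nat_lit 8503104)), (.negSucc (nat_lit 79118511)), (.ofNat (nat_lit 8503088)), (.ofNat (nat_lit 2589552193706583141867)), (.ofNat (nat_lit 39839264518562817567)), (.ofNat (nat_lit 14631517445293737878845390848))⟩,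
    ⟨nat_lit 21, nat_lit 22, (.ofNat (nat_lit 8503104)), (.ofNat (nat_lit 159891264)), (.ofNat (nat_lit 8503120)), (.ofNat (nat_lit 159891248)), (.negSucc (nat_lit 2589552193706583141866)), (.negSucc (nat_lit 39839264518562817566)), (.ofNat (nat_lit 15309032264263437015455846784))⟩,
    ⟨nat_lit 0, nat_lit 22, (.negSucc (nat_lit 33816575)), (.ofNat (nat_lit 159891264)), (.negSucc (nat_lit 33816559)), (.ofNat (nat_lit 159891248)), (.ofNat (nat_lit 2589552193706583141867)), (.ofNat (nat_lit 39839264518562817567)), (.ofNat (nat_lit 2569131542856716287077777408))⟩,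
    ⟨nat_lit 23, nat_lit 16, (.negSucc (nat_lit 123076671)), (.negSucc (nat_lit 9437247)), (.negSucc (nat_lit 123076655)), (.negSucc (nat_lit 9437263)), (.negSucc (nat_lit 2589552193706583068525)), (.negSucc (nat_lit 39839264518562744225)), (.ofNat (nat_lit 3321067382803556053050757056))⟩]

theorem ok23 : stOK 23 23 S23 = true := by decide +kernel

def S24 : SD where
  vs := [
    ⟨nat_lit 0, nat_lit 0, nat_lit 22, (.ofNat (nat_lit 8)), (.negSucc (nat_lit 34340863)), (.ofNat (nat_lit 80781432861775205205848358912)), (.negSucc (nat_lit 524287)), (.ofNat (nat_lit 1357671140534037062283165696)), (.negSucc (nat_lit 34340879)), (.negSucc (nat_lit 34340847)), (.negSucc (nat_lit 2589552193706583141866)), (.ofNat (nat_lit 2589552193706583141867)), (.negSucc (nat_lit 2589552193706583141866)), (.ofNat (nat_lit 2589552193706583141867)), (.ofNat (nat_lit 0))⟩,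
    ⟨nat_lit 2, nat_lit 0, nat_lit 1, (.ofNat (nat_lit 8)), (.negSucc (nat_lit 243400703)), (.ofNat (nat_lit 622152800149722483791260680192)), (.negSucc (nat_lit 39321599)), (.ofNat (nat_lit 101825335540052779671237427200)), (.negSucc (nat_lit 243400719)), (.negSucc (nat_lit 243400687)), (.negSucc (nat_lit 2589552193706583141866)), (.ofNat (nat_lit 2589552193706583141867)), (.negSucc (nat_lit 2589552193706583141866)), (.ofNat (nat_lit 2589552193706583141867)), (.ofNat (nat_lit 0))⟩,
    ⟨nat_lit 0, nat_lit 1, nat_lit 2, (.ofNat (nat_lit 8)), (.negSucc (nat_lit 115097791)), (.ofNat (nat_lit 954399887378265174462905896896)), (.negSucc (nat_lit 38273023)), (.ofNat (nat_lit 104540677821120853795803758592)), (.negSucc (nat_lit 115097807)), (.negSucc (nat_lit 115097775)), (.ofNat (nat_lit 2589552193706583141867)), (.negSucc (nat_lit 2589552193706583141866)), (.negSucc (nat_lit 2589552193706583141866)), (.ofNat (nat_lit 2589552193706583141867)), (.ofNat (nat_lit 0))⟩,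
    ⟨nat_lit 0, nat_lit 2, nat_lit 3, (.ofNat (nat_lit 8)), (.ofNat (nat_lit 17416000)), (.ofNat (nat_lit 611248506608287306970835767232)), (.negSucc (nat_lit 524287)), (.ofNat (nat_lit 6788355702670185311415828480)), (.ofNat (nat_lit 17415984)), (.ofNat (nat_lit 17416016)), (.negSucc (nat_lit 2589552193706583141866)), (.ofNat (nat_lit 2589552193706583141867)), (.negSucc (nat_lit 2589552193706583141866)), (.ofNat (nat_lit 2589552193706583141867)), (.ofNat (nat_lit 0))⟩,
    ⟨nat_lit 1, nat_lit 3, nat_lit 4, (.ofNat (nat_lit 8)), (.ofNat (nat_lit 170377024)), (.ofNat (nat_lit 1007349061859092619891949359040)), (.ofNat (nat_lit 1310720)), (.ofNat (nat_lit 11540204694539315029406908416)), (.ofNat (nat_lit 170377008)), (.ofNat (nat_lit 170377040)), (.ofNat (nat_lit 2589552193706583141867)), (.negSucc (nat_lit 2589552193706583141866)), (.negSucc (nat_lit 2589552193706583141866)), (.ofNat (nat_lit 2589552193706583141867)), (.ofNat (nat_lit 0))⟩,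
    ⟨nat_lit 0, nat_lit 5, nat_lit 4, (.ofNat (nat_lit 8)), (.ofNat (nat_lit 18726720)), (.ofNat (nat_lit 1400055439258562840157355036608)), (.negSucc (nat_lit 36700159)), (.ofNat (nat_lit 109971362383257002044936421376)), (.ofNat (nat_lit 18726704)), (.ofNat (nat_lit 18726736)), (.ofNat (nat_lit 2589552193706583141867)), (.negSucc (nat_lit 2589552193706583141866)), (.negSucc (nat_lit 2589552193706583141866)), (.ofNat (nat_lit 2589552193706583141867)), (.ofNat (nat_lit 0))⟩,
    ⟨nat_lit 2, nat_lit 6, nat_lit 5, (.ofNat (nat_lit 8)), (.negSucc (nat_lit 196264127)), (.ofNat (nat_lit 843325417193324267304864403392)), (.negSucc (nat_lit 39059455)), (.ofNat (nat_lit 103861842250853835264662175744)), (.negSucc (nat_lit 196264143)), (.negSucc (nat_lit 196264111)), (.negSucc (nat_lit 2589552193706583141866)), (.ofNat (nat_lit 2589552193706583141867)), (.negSucc (nat_lit 2589552193706583141866)), (.ofNat (nat_lit 2589552193706583141867)), (.ofNat (nat_lit 0))⟩,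
    ⟨nat_lit 0, nat_lit 7, nat_lit 8, (.ofNat (nat_lit 8)), (.ofNat (nat_lit 5947200)), (.ofNat (nat_lit 878200594615792374846668394432)), (.negSucc (nat_lit 262143)), (.ofNat (nat_lit 8824862413471241218510553088)), (.ofNat (nat_lit 5947184)), (.ofNat (nat_lit 5947216)), (.ofNat (nat_lit 2589552193706583439851)), (.negSucc (nat_lit 2589552193706583341292)), (.negSucc (nat_lit 2589552193706583341292)), (.ofNat (nat_lit 2589552193706583439851)), (.ofNat (nat_lit 0))⟩,
    ⟨nat_lit 0, nat_lit 8, nat_lit 9, (.ofNat (nat_lit 8)), (.ofNat (nat_lit 158908224)), (.ofNat (nat_lit 482100039364987031421149630400)), (.ofNat (nat_lit 1310720)), (.ofNat (nat_lit 4751848991869129717991079936)), (.ofNat (nat_lit 158908208)), (.ofNat (nat_lit 158908240)), (.negSucc (nat_lit 2589552193706583341292)), (.ofNat (nat_lit 2589552193706583141867)), (.negSucc (nat_lit 2589552193706583341292)), (.ofNat (nat_lit 2589552193706583141867)), (.ofNat (nat_lit 0))⟩,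
    ⟨nat_lit 1, nat_lit 9, nat_lit 10, (.ofNat (nat_lit 8)), (.ofNat (nat_lit 244629312)), (.ofNat (nat_lit 704079270842302091104447221696)), (.ofNat (nat_lit 2359296)), (.ofNat (nat_lit 7467191272937203842557411328)), (.ofNat (nat_lit 244629296)), (.ofNat (nat_lit 244629328)), (.ofNat (nat_lit 2589552193706583141867)), (.negSucc (nat_lit 2589552193706583141866)), (.negSucc (nat_lit 2589552193706583141866)), (.ofNat (nat_lit 2589552193706583141867)), (.ofNat (nat_lit 0))⟩,
    ⟨nat_lit 0, nat_lit 11, nat_lit 10, (.ofNat (nat_lit 8)), (.ofNat (nat_lit 187219776)), (.ofNat (nat_lit 852744260730779149424453865408)), (.ofNat (nat_lit 1572864)), (.ofNat (nat_lit 9503697983738259435982159872)), (.ofNat (nat_lit 187219760)), (.ofNat (nat_lit 187219792)), (.ofNat (nat_lit 2589552193706583141867)), (.negSucc (nat_lit 2589552193706583141866)), (.negSucc (nat_lit 2589552193706583141866)), (.ofNat (nat_lit 2589552193706583141867)), (.ofNat (nat_lit 0))⟩,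
    ⟨nat_lit 2, nat_lit 12, nat_lit 11, (.ofNat (nat_lit 8)), (.ofNat (nat_lit 144359232)), (.ofNat (nat_lit 741754644992121619582805069760)), (.ofNat (nat_lit 1048576)), (.ofNat (nat_lit 8146026843204222373698994176)), (.ofNat (nat_lit 144359216)), (.ofNat (nat_lit 144359248)), (.negSucc (nat_lit 2589552193706583141866)), (.ofNat (nat_lit 2589552193706583141867)), (.negSucc (nat_lit 2589552193706583141866)), (.ofNat (nat_lit 2589552193706583141867)), (.ofNat (nat_lit 0))⟩,
    ⟨nat_lit 1, nat_lit 13, nat_lit 12, (.ofNat (nat_lit 8)), (.ofNat (nat_lit 220905280)), (.ofNat (nat_lit 543534658474152208489462878144)), (.ofNat (nat_lit 2097152)), (.ofNat (nat_lit 5430684562136148249132662784)), (.ofNat (nat_lit 220905264)), (.ofNat (nat_lit 220905296)), (.ofNat (nat_lit 2589552193706583141867)), (.negSucc (nat_lit 2589552193706583141866)), (.negSucc (nat_lit 2589552193706583141866)), (.ofNat (nat_lit 2589552193706583141867)), (.ofNat (nat_lit 0))⟩,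
    ⟨nat_lit 0, nat_lit 14, nat_lit 13, (.ofNat (nat_lit 8)), (.ofNat (nat_lit 153665344)), (.ofNat (nat_lit 369413334700661955251646877632)), (.ofNat (nat_lit 1310720)), (.ofNat (nat_lit 3394177851335092655707914240)), (.ofNat (nat_lit 153665328)), (.ofNat (nat_lit 153665360)), (.negSucc (nat_lit 2589552193706583141866)), (.ofNat (nat_lit 2589552193706583141867)), (.negSucc (nat_lit 2589552193706583141866)), (.ofNat (nat_lit 2589552193706583141867)), (.ofNat (nat_lit 0))⟩,
    ⟨nat_lit 0, nat_lit 15, nat_lit 14, (.ofNat (nat_lit 8)), (.negSucc (nat_lit 35209407)), (.ofNat (nat_lit 858514363078048806939157319616)), (.negSucc (nat_lit 37486591)), (.ofNat (nat_lit 103861842250853835264662175744)), (.negSucc (nat_lit 35209423)), (.negSucc (nat_lit 35209391)), (.ofNat (nat_lit 2589552193706583141867)), (.negSucc (nat_lit 2589552193706583141866)), (.negSucc (nat_lit 2589552193706583141866)), (.ofNat (nat_lit 2589552193706583141867)), (.ofNat (nat_lit 0))⟩,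
    ⟨nat_lit 0, nat_lit 6, nat_lit 15, (.ofNat (nat_lit 8)), (.negSucc (nat_lit 118669503)), (.ofNat (nat_lit 642390088394286782086955880384)), (.negSucc (nat_lit 38273023)), (.ofNat (nat_lit 101825335540052779671237427200)), (.negSucc (nat_lit 118669519)), (.negSucc (nat_lit 118669487)), (.negSucc (nat_lit 2589552193706583141866)), (.ofNat (nat_lit 2589552193706583141867)), (.negSucc (nat_lit 2589552193706583141866)), (.ofNat (nat_lit 2589552193706583141867)), (.ofNat (nat_lit 0))⟩,
    ⟨nat_lit 0, nat_lit 23, nat_lit 16, (.ofNat (nat_lit 8)), (.negSucc (nat_lit 9961535)), (.ofNat (nat_lit 243022968424252236927365580096)), (.negSucc (nat_lit 524287)), (.ofNat (nat_lit 2715342281068074124566331392)), (.negSucc (nat_lit 9961551)), (.negSucc (nat_lit 9961519)), (.negSucc (nat_lit 2589552193706583068525)), (.ofNat (nat_lit 2589552193706583141867)), (.negSucc (nat_lit 2589552193706583068525)), (.ofNat (nat_lit 2589552193706583141867)), (.ofNat (nat_lit 0))⟩,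
    ⟨nat_lit 1, nat_lit 16, nat_lit 17, (.ofNat (nat_lit 8)), (.ofNat (nat_lit 184926016)), (.ofNat (nat_lit 747694456231958031730293919680)), (.ofNat (nat_lit 1572864)), (.ofNat (nat_lit 8146026843204222373698994176)), (.ofNat (nat_lit 184926000)), (.ofNat (nat_lit 184926032)), (.ofNat (nat_lit 2589552193706583141867)), (.negSucc (nat_lit 2589552193706583141866)), (.negSucc (nat_lit 2589552193706583141866)), (.ofNat (nat_lit 2589552193706583141867)), (.ofNat (nat_lit 0))⟩,
    ⟨nat_lit 0, nat_lit 18, nat_lit 17, (.ofNat (nat_lit 8)), (.ofNat (nat_lit 146652992)), (.ofNat (nat_lit 846804449490942737276965015488)), (.ofNat (nat_lit 1048576)), (.ofNat (nat_lit 9503697983738259435982159872)), (.ofNat (nat_lit 146652976)), (.ofNat (nat_lit 146653008)), (.ofNat (nat_lit 2589552193706583141867)), (.negSucc (nat_lit 2589552193706583141866)), (.negSucc (nat_lit 2589552193706583141866)), (.ofNat (nat_lit 2589552193706583141867)), (.ofNat (nat_lit 0))⟩,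
    ⟨nat_lit 0, nat_lit 19, nat_lit 18, (.ofNat (nat_lit 8)), (.ofNat (nat_lit 15122240)), (.ofNat (nat_lit 506198702109466189276675821504)), (.negSucc (nat_lit 524287)), (.ofNat (nat_lit 5430684562136148249132662784)), (.ofNat (nat_lit 15122224)), (.ofNat (nat_lit 15122256)), (.negSucc (nat_lit 2589552193706583141866)), (.ofNat (nat_lit 2589552193706583141867)), (.negSucc (nat_lit 2589552193706583141866)), (.ofNat (nat_lit 2589552193706583141867)), (.ofNat (nat_lit 0))⟩,
    ⟨nat_lit 2, nat_lit 19, nat_lit 20, (.ofNat (nat_lit 8)), (.negSucc (nat_lit 117391551)), (.ofNat (nat_lit 849350082879444056768745951168)), (.negSucc (nat_lit 38273023)), (.ofNat (nat_lit 103183006680586816733520592896)), (.negSucc (nat_lit 117391567)), (.negSucc (nat_lit 117391535)), (.negSucc (nat_lit 2589552193706583141866)), (.ofNat (nat_lit 2589552193706583141867)), (.negSucc (nat_lit 2589552193706583141866)), (.ofNat (nat_lit 2589552193706583141867)), (.ofNat (nat_lit 0))⟩,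
    ⟨nat_lit 0, nat_lit 20, nat_lit 21, (.ofNat (nat_lit 8)), (.negSucc (nat_lit 28721343)), (.ofNat (nat_lit 1078966214522263074927386349504)), (.negSucc (nat_lit 37224447)), (.ofNat (nat_lit 105898348961654890858086924288)), (.negSucc (nat_lit 28721359)), (.negSucc (nat_lit 28721327)), (.ofNat (nat_lit 2589552193706583141867)), (.negSucc (nat_lit 2589552193706583141866)), (.negSucc (nat_lit 2589552193706583141866)), (.ofNat (nat_lit 2589552193706583141867)), (.ofNat (nat_lit 0))⟩,
    ⟨nat_lit 1, nat_lit 22, nat_lit 21, (.ofNat (nat_lit 8)), (.ofNat (nat_lit 161201984)), (.ofNat (nat_lit 587149843863808149115309576128)), (.ofNat (nat_lit 1310720)), (.ofNat (nat_lit 6109520132403166780274245632)), (.ofNat (nat_lit 161201968)), (.ofNat (nat_lit 161202000)), (.ofNat (nat_lit 2589552193706583141867)), (.negSucc (nat_lit 2589552193706583141866)), (.negSucc (nat_lit 2589552193706583141866)), (.ofNat (nat_lit 2589552193706583141867)), (.ofNat (nat_lit 0))⟩,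
    ⟨nat_lit 2, nat_lit 23, nat_lit 7, (.ofNat (nat_lit 8)), (.negSucc (nat_lit 124649535)), (.ofNat (nat_lit 540013530416072835890475468096)), (.negSucc (nat_lit 1572863)), (.ofNat (nat_lit 5430684562136148172229050368)), (.negSucc (nat_lit 124649551)), (.negSucc (nat_lit 124649519)), (.negSucc (nat_lit 2589552193706583068525)), (.ofNat (nat_lit 2589552193706583439851)), (.negSucc (nat_lit 2589552193706583068525)), (.ofNat (nat_lit 2589552193706583439851)), (.ofNat (nat_lit 0))⟩]
  es := [
    ⟨nat_lit 1, nat_lit 0, (.negSucc (nat_lit 243400703)), (.negSucc (nat_lit 34340863)), (.negSucc (nat_lit 243400687)), (.negSucc (nat_lit 34340879)), (.negSucc (nat_lit 2589552193706583141866)), (.ofNat (nat_lit 0)), (.ofNat (nat_lit 0))⟩,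
    ⟨nat_lit 1, nat_lit 2, (.negSucc (nat_lit 243400703)), (.negSucc (nat_lit 115097791)), (.negSucc (nat_lit 243400687)), (.negSucc (nat_lit 115097807)), (.ofNat (nat_lit 2589552193706583141867)), (.ofNat (nat_lit 0)), (.ofNat (nat_lit 203650671080105559342474854400))⟩,
    ⟨nat_lit 2, nat_lit 3, (.negSucc (nat_lit 115097791)), (.ofNat (nat_lit 17416000)), (.negSucc (nat_lit 115097775)), (.ofNat (nat_lit 17415984)), (.negSucc (nat_lit 2589552193706583141866)), (.ofNat (nat_lit 0)), (.ofNat (nat_lit 5430684562136148249132662784))⟩,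
    ⟨nat_lit 3, nat_lit 4, (.ofNat (nat_lit 17416000)), (.ofNat (nat_lit 170377024)), (.ofNat (nat_lit 17416016)), (.ofNat (nat_lit 170377008)), (.ofNat (nat_lit 2589552193706583141867)), (.ofNat (nat_lit 0)), (.ofNat (nat_lit 8146026843204222373698994176))⟩,
    ⟨nat_lit 5, nat_lit 4, (.ofNat (nat_lit 18726720)), (.ofNat (nat_lit 170377024)), (.ofNat (nat_lit 18726736)), (.ofNat (nat_lit 170377008)), (.negSucc (nat_lit 2589552193706583141866)), (.ofNat (nat_lit 0)), (.ofNat (nat_lit 14934382545874407685114822656))⟩,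
    ⟨nat_lit 6, nat_lit 5, (.negSucc (nat_lit 196264127)), (.ofNat (nat_lit 18726720)), (.negSucc (nat_lit 196264111)), (.ofNat (nat_lit 18726704)), (.ofNat (nat_lit 2589552193706583141867)), (.ofNat (nat_lit 0)), (.ofNat (nat_lit 205008342220639596404758020096))⟩,
    ⟨nat_lit 6, nat_lit 15, (.negSucc (nat_lit 196264127)), (.negSucc (nat_lit 118669503)), (.negSucc (nat_lit 196264111)), (.negSucc (nat_lit 118669519)), (.negSucc (nat_lit 2589552193706583141866)), (.ofNat (nat_lit 0)), (.ofNat (nat_lit 2715342281068074124566331392))⟩,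
    ⟨nat_lit 23, nat_lit 7, (.negSucc (nat_lit 124649535)), (.ofNat (nat_lit 5947200)), (.negSucc (nat_lit 124649519)), (.ofNat (nat_lit 5947184)), (.ofNat (nat_lit 2589552193706583439851)), (.ofNat (nat_lit 0)), (.ofNat (nat_lit 9503697983738259827766853632))⟩,
    ⟨nat_lit 7, nat_lit 8, (.ofNat (nat_lit 5947200)), (.ofNat (nat_lit 158908224)), (.ofNat (nat_lit 5947216)), (.ofNat (nat_lit 158908208)), (.negSucc (nat_lit 2589552193706583341292)), (.ofNat (nat_lit 0)), (.ofNat (nat_lit 8146026843204222635090640896))⟩,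
    ⟨nat_lit 8, nat_lit 9, (.ofNat (nat_lit 158908224)), (.ofNat (nat_lit 244629312)), (.ofNat (nat_lit 158908240)), (.ofNat (nat_lit 244629296)), (.ofNat (nat_lit 2589552193706583141867)), (.ofNat (nat_lit 0)), (.ofNat (nat_lit 1357671140534037062283165696))⟩,
    ⟨nat_lit 10, nat_lit 9, (.ofNat (nat_lit 187219776)), (.ofNat (nat_lit 244629312)), (.ofNat (nat_lit 187219792)), (.ofNat (nat_lit 244629296)), (.negSucc (nat_lit 2589552193706583141866)), (.ofNat (nat_lit 0)), (.ofNat (nat_lit 13576711405340370622831656960))⟩,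
    ⟨nat_lit 11, nat_lit 10, (.ofNat (nat_lit 144359232)), (.ofNat (nat_lit 187219776)), (.ofNat (nat_lit 144359248)), (.ofNat (nat_lit 187219760)), (.ofNat (nat_lit 2589552193706583141867)), (.ofNat (nat_lit 0)), (.ofNat (nat_lit 5430684562136148249132662784))⟩,
    ⟨nat_lit 11, nat_lit 12, (.ofNat (nat_lit 144359232)), (.ofNat (nat_lit 220905280)), (.ofNat (nat_lit 144359248)), (.ofNat (nat_lit 220905264)), (.negSucc (nat_lit 2589552193706583141866)), (.ofNat (nat_lit 0)), (.ofNat (nat_lit 10861369124272296498265325568))⟩,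
    ⟨nat_lit 13, nat_lit 12, (.ofNat (nat_lit 153665344)), (.ofNat (nat_lit 220905280)), (.ofNat (nat_lit 153665360)), (.ofNat (nat_lit 220905264)), (.ofNat (nat_lit 2589552193706583141867)), (.ofNat (nat_lit 0)), (.ofNat (nat_lit 0))⟩,
    ⟨nat_lit 14, nat_lit 13, (.negSucc (nat_lit 35209407)), (.ofNat (nat_lit 153665344)), (.negSucc (nat_lit 35209391)), (.ofNat (nat_lit 153665328)), (.negSucc (nat_lit 2589552193706583141866)), (.ofNat (nat_lit 0)), (.ofNat (nat_lit 6788355702670185311415828480))⟩,
    ⟨nat_lit 15, nat_lit 14, (.negSucc (nat_lit 118669503)), (.negSucc (nat_lit 35209407)), (.negSucc (nat_lit 118669487)), (.negSucc (nat_lit 35209423)), (.ofNat (nat_lit 2589552193706583141867)), (.ofNat (nat_lit 0)), (.ofNat (nat_lit 200935328799037485217908523008))⟩,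
    ⟨nat_lit 16, nat_lit 17, (.negSucc (nat_lit 9961535)), (.ofNat (nat_lit 184926016)), (.negSucc (nat_lit 9961519)), (.ofNat (nat_lit 184926000)), (.ofNat (nat_lit 2589552193706583141867)), (.ofNat (nat_lit 0)), (.ofNat (nat_lit 4073013421602111186849497088))⟩,
    ⟨nat_lit 18, nat_lit 17, (.ofNat (nat_lit 146652992)), (.ofNat (nat_lit 184926016)), (.ofNat (nat_lit 146653008)), (.ofNat (nat_lit 184926000)), (.negSucc (nat_lit 2589552193706583141866)), (.ofNat (nat_lit 0)), (.ofNat (nat_lit 12219040264806333560548491264))⟩,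
    ⟨nat_lit 19, nat_lit 18, (.ofNat (nat_lit 15122240)), (.ofNat (nat_lit 146652992)), (.ofNat (nat_lit 15122256)), (.ofNat (nat_lit 146652976)), (.ofNat (nat_lit 2589552193706583141867)), (.ofNat (nat_lit 0)), (.ofNat (nat_lit 6788355702670185311415828480))⟩,
    ⟨nat_lit 20, nat_lit 19, (.negSucc (nat_lit 117391551)), (.ofNat (nat_lit 15122240)), (.negSucc (nat_lit 117391535)), (.ofNat (nat_lit 15122224)), (.negSucc (nat_lit 2589552193706583141866)), (.ofNat (nat_lit 0)), (.ofNat (nat_lit 4073013421602111186849497088))⟩,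
    ⟨nat_lit 20, nat_lit 21, (.negSucc (nat_lit 117391551)), (.negSucc (nat_lit 28721343)), (.negSucc (nat_lit 117391535)), (.negSucc (nat_lit 28721359)), (.ofNat (nat_lit 2589552193706583141867)), (.ofNat (nat_lit 0)), (.ofNat (nat_lit 202292999939571522280191688704))⟩,
    ⟨nat_lit 21, nat_lit 22, (.negSucc (nat_lit 28721343)), (.ofNat (nat_lit 161201984)), (.negSucc (nat_lit 28721327)), (.ofNat (nat_lit 161201968)), (.negSucc (nat_lit 2589552193706583141866)), (.ofNat (nat_lit 0)), (.ofNat (nat_lit 9503697983738259435982159872))⟩,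
    ⟨nat_lit 0, nat_lit 22, (.negSucc (nat_lit 34340863)), (.ofNat (nat_lit 161201984)), (.negSucc (nat_lit 34340847)), (.ofNat (nat_lit 161201968)), (.ofNat (nat_lit 2589552193706583141867)), (.ofNat (nat_lit 0)), (.ofNat (nat_lit 2715342281068074124566331392))⟩,
    ⟨nat_lit 23, nat_lit 16, (.negSucc (nat_lit 124649535)), (.negSucc (nat_lit 9961535)), (.negSucc (nat_lit 124649519)), (.negSucc (nat_lit 9961551)), (.negSucc (nat_lit 2589552193706583068525)), (.ofNat (nat_lit 0)), (.ofNat (nat_lit 1357671140534037100734971904))⟩]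

theorem ok24 : stOK 23 23 S24 = true := by decide +kernel

end LCA.CapJ


end

section

set_option maxRecDepth 100000

namespace LCA.CapJ

open LCA

theorem f0 : bgOK 23 S0 S1 = true := by decide +kernel

theorem f1 : goOK (.ofNat (nat_lit 1)) S0 S2 = true := by decide +kernel

theorem f2 : goOK (.ofNat (nat_lit 1)) S3 S4 = true := by decide +kernel

theorem f3 : mvOK (.ofNat (nat_lit 1)) S3 S4 = true := by decide +kernel

theorem f4 : wdOK S3 S2 = true := by decide +kernel

theorem f5 : goOK (.ofNat (nat_lit 1)) S4 S5 = true := by decide +kernel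

theorem f6 : mvOK (.ofNat (nat_lit 1)) S4 S5 = true := by decide +kernel

theorem f7 : fdS 7 S4 S5 = true := by decide +kernel

theorem f8 : fdOK 23 23 24 24 [nat_lit 0, nat_lit 1, nat_lit 2, nat_lit 3, nat_lit 4, nat_lit 5, nat_lit 6, nat_lit 7, nat_lit 8, nat_lit 9, nat_lit 10, nat_lit 11, nat_lit 12, nat_lit 13, nat_lit 14, nat_lit 15, nat_lit 16, nat_lit 17, nat_lit 18, nat_lit 19, nat_lit 20, nat_lit 21, nat_lit 22, nat_lit 23] [nat_lit 0, nat_lit 1, nat_lit 2, nat_lit 3, nat_lit 4, nat_lit 5, nat_lit 6, nat_lit 7, nat_lit 8, nat_lit 9, nat_lit 10, nat_lit 11, nat_lit 12, nat_lit 13, nat_lit 14, nat_lit 15, nat_lit 16, nat_lit 17, nat_lit 18, nat_lit 19, nat_lit 20, nat_lit 21, nat_lit 22, nat_lit 23, nat_lit 0] [nat_lit 0, nat_lit 1, nat_lit 2, nat_lit 3, nat_lit 4, nat_lit 5, nat_lit 6, nat_lit 7, nat_lit 8, nat_lit 9, nat_lit 10, nat_lit 11, nat_lit 12, nat_lit 13, nat_lit 14, nat_lit 15, nat_lit 16, nat_lit 17, nat_lit 18, nat_lit 19, nat_lit 20, nat_lit 21, nat_lit 22, nat_lit 23] [nat_lit 0, nat_lit 1,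 nat_lit 2, nat_lit 3, nat_lit 4, nat_lit 5, nat_lit 6, nat_lit 7, nat_lit 8, nat_lit 9, nat_lit 10, nat_lit 11, nat_lit 12, nat_lit 13, nat_lit 14, nat_lit 15, nat_lit 16, nat_lit 17, nat_lit 18, nat_lit 19, nat_lit 20, nat_lit 21, nat_lit 22, nat_lit 23, nat_lit 0] 7 24 24 S5 S6 = true := by decide +kernel

theorem f9 : goOK (.ofNat (nat_lit 1)) S6 S7 = true := by decide +kernel

theorem f10 : inOK 24 24 25 25 [nat_lit 0, nat_lit 1, nat_lit 2, nat_lit 3, nat_lit 4, nat_lit 5, nat_lit 6, nat_lit 7, nat_lit 8, nat_lit 9, nat_lit 10, nat_lit 11, nat_lit 12, nat_lit 13, nat_lit 14, nat_lit 15, nat_lit 16, nat_lit 17, nat_lit 18, nat_lit 19, nat_lit 20, nat_lit 21, nat_lit 22, nat_lit 23, nat_lit 24] [nat_lit 0, nat_lit 1, nat_lit 2, nat_lit 3, nat_lit 4, nat_lit 5, nat_lit 6, nat_lit 7, nat_lit 8, nat_lit 9, nat_lit 10, nat_lit 11, nat_lit 12, nat_lit 13, nat_lit 14, nat_lit 15, nat_lit 16, nat_lit 17, nat_lit 18, nat_lit 19, nat_lit 20, nat_lit 21, nat_lit 22, nat_lit 23, nat_lit 24, nat_lit 0] [nat_lit 0, nat_lit 1,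 nat_lit 2, nat_lit 3, nat_lit 4, nat_lit 5, nat_lit 6, nat_lit 7, nat_lit 8, nat_lit 9, nat_lit 10, nat_lit 11, nat_lit 12, nat_lit 13, nat_lit 14, nat_lit 15, nat_lit 16, nat_lit 17, nat_lit 18, nat_lit 19, nat_lit 20, nat_lit 21, nat_lit 22, nat_lit 23, nat_lit 24] [nat_lit 0, nat_lit 1, nat_lit 2, nat_lit 3, nat_lit 4, nat_lit 5, nat_lit 6, nat_lit 7, nat_lit 8, nat_lit 9, nat_lit 10, nat_lit 11, nat_lit 12, nat_lit 13, nat_lit 14, nat_lit 15, nat_lit 16, nat_lit 17, nat_lit 18, nat_lit 19, nat_lit 20, nat_lit 21, nat_lit 22, nat_lit 23, nat_lit 24, nat_lit 0] 24 25 25 S7 S8 = true := by decide +kernel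

theorem f11 : goOK (.ofNat (nat_lit 1)) S8 S9 = true := by decide +kernel

theorem f12 : swOK 25 7 S9 S10 = true := by decide +kernel

theorem f13 : goOK (.ofNat (nat_lit 1)) S10 S11 = true := by decide +kernel

theorem f14 : goOK (.ofNat (nat_lit 1)) S11 S12 = true := by decide +kernel

theorem f15 : sdOK 25 25 7 16 25 15 6 16 ⟨(.negSucc (nat_lit 102498303)), (.ofNat (nat_lit 430909519143438423032269373440)), (.ofNat (nat_lit 323992119656720618821255168)), (.ofNat (nat_lit 0)), (.ofNat (nat_lit 0)), (.ofNat (nat_lit 2471863705877079916544)), (.ofNat (nat_lit 131072)), (.ofNat (nat_lit 8))⟩ S12 S13 S14 S15 = true := by decide +kernel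

theorem f16 : goOK (.ofNat (nat_lit 1)) S13 S16 = true := by decide +kernel

theorem f17 : goOK (.ofNat (nat_lit 1)) S16 S17 = true := by decide +kernel

theorem f18 : goOK (.ofNat (nat_lit 1)) S17 S18 = true := by decide +kernel

theorem f19 : inOK 24 24 25 25 [nat_lit 0, nat_lit 1, nat_lit 2, nat_lit 3, nat_lit 4, nat_lit 5, nat_lit 6, nat_lit 7, nat_lit 8, nat_lit 9, nat_lit 10, nat_lit 11, nat_lit 12, nat_lit 13, nat_lit 14, nat_lit 15, nat_lit 16, nat_lit 17, nat_lit 18, nat_lit 19, nat_lit 20, nat_lit 21, nat_lit 22, nat_lit 23, nat_lit 24] [nat_lit 0, nat_lit 1, nat_lit 2, nat_lit 3, nat_lit 4, nat_lit 5, nat_lit 6, nat_lit 7, nat_lit 8, nat_lit 9, nat_lit 10, nat_lit 11, nat_lit 12, nat_lit 13, nat_lit 14, nat_lit 15, nat_lit 16, nat_lit 17, nat_lit 18, nat_lit 19, nat_lit 20, nat_lit 21, nat_lit 22, nat_lit 23, nat_lit 24, nat_lit 0] [nat_lit 0, nat_lit 1, nat_lit 2, nat_lit 3, nat_lit 4, nat_lit 5, nat_lit 6, nat_lit 7, nat_lit 8, nat_lit 9, nat_lit 10, nat_lit 11, nat_lit 12, nat_lit 13, nat_lit 14, nat_lit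 15, nat_lit 16, nat_lit 17, nat_lit 18, nat_lit 19, nat_lit 20, nat_lit 21, nat_lit 22, nat_lit 23, nat_lit 24] [nat_lit 0, nat_lit 1, nat_lit 2, nat_lit 3, nat_lit 4, nat_lit 5, nat_lit 6, nat_lit 7, nat_lit 8, nat_lit 9, nat_lit 10, nat_lit 11, nat_lit 12, nat_lit 13, nat_lit 14, nat_lit 15, nat_lit 16, nat_lit 17, nat_lit 18, nat_lit 19, nat_lit 20, nat_lit 21, nat_lit 22, nat_lit 23, nat_lit 24, nat_lit 0] 24 25 25 S19 S18 = true := by decide +kernel

theorem f20 : inOK 23 23 24 24 [nat_lit 0, nat_lit 1, nat_lit 2, nat_lit 3, nat_lit 4, nat_lit 5, nat_lit 6, nat_lit 7, nat_lit 8, nat_lit 9, nat_lit 10, nat_lit 11, nat_lit 12, nat_lit 13, nat_lit 14, nat_lit 15, nat_lit 17, nat_lit 18, nat_lit 19, nat_lit 20, nat_lit 21, nat_lit 22, nat_lit 23, nat_lit 24] [nat_lit 0, nat_lit 1, nat_lit 2, nat_lit 3, nat_lit 4, nat_lit 5, nat_lit 6, nat_lit 7, nat_lit 8, nat_lit 9, nat_lit 10, nat_lit 11, nat_lit 12, nat_lit 13, nat_lit 14, nat_lit 15, nat_lit 0, nat_lit 16, nat_lit 17, nat_lit 18, nat_lit 19, nat_lit 20, nat_lit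 21, nat_lit 22, nat_lit 23] [nat_lit 0, nat_lit 1, nat_lit 2, nat_lit 3, nat_lit 4, nat_lit 5, nat_lit 6, nat_lit 8, nat_lit 9, nat_lit 10, nat_lit 11, nat_lit 12, nat_lit 13, nat_lit 14, nat_lit 15, nat_lit 16, nat_lit 17, nat_lit 18, nat_lit 19, nat_lit 20, nat_lit 21, nat_lit 22, nat_lit 23, nat_lit 24] [nat_lit 0, nat_lit 1, nat_lit 2, nat_lit 3, nat_lit 4, nat_lit 5, nat_lit 6, nat_lit 0, nat_lit 7, nat_lit 8, nat_lit 9, nat_lit 10, nat_lit 11, nat_lit 12, nat_lit 13, nat_lit 14, nat_lit 15, nat_lit 16, nat_lit 17, nat_lit 18, nat_lit 19, nat_lit 20, nat_lit 21, nat_lit 22, nat_lit 23] 23 16 7 S20 S19 = true := by decide +kernel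

theorem f21 : goOK (.ofNat (nat_lit 1)) S20 S21 = true := by decide +kernel

theorem f22 : goOK (.ofNat (nat_lit 1)) S21 S22 = true := by decide +kernel

theorem f23 : goOK (.ofNat (nat_lit 1)) S22 S23 = true := by decide +kernel

theorem f24 : goOK (.ofNat (nat_lit 1)) S23 S24 = true := by decide +kernel

end LCA.CapJ


end

section

/-!
# The walk of a polygon with a zigzag has two fingers (EXT)
-/

namespace LHE

open Set LG LH

namespace EXT

variable {N : ℕ}

theorem tn_sh (i : It) : Tn (i.sh N) ↔ Tn i := Iff.rfl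

theorem not_tn_pass (s : Bool) (t : ℝ) (e : ℤ) : ¬ Tn ⟨pass s, t, e⟩ := by
  cases s
  · rintro (h | h)
    · change Kd.lt = Kd.R at h
      exact absurd h (by decide)
    · change Kd.lt = Kd.L at h
      exact absurd h (by decide)
  · rintro (h | h)
    · change Kd.rt = Kd.R at h
      exact absurd h (by decide)
    · change Kd.rt = Kd.L at h
      exact absurd h (by decide)

theorem pass_ne (s : Bool) : pass (!s) ≠ pass s := by
  cases s
  · decide
  · decide

/-- A relation for the cyclically consecutive pairs gives a chain. -/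
theorem chain_aux (R : It → It → Prop) (z z' : It) (hz : ∀ x, R x z → R x z') :
    ∀ l : List It, (∀ x ∈ l.zip (l.tail ++ [z]), R x.1 x.2) → List.IsChain R (l ++ [z']) := by
  intro l
  induction l with
  | nil => intro _; exact List.IsChain.singleton _
  | cons a l ih =>
    cases l with
    | nil =>
      intro h
      refine List.IsChain.cons_cons (hz _ ?_) (List.IsChain.singleton _)
      exact h (a, z) (by simp)
    | cons b l =>
      intro h
      refine List.IsChain.cons_cons ?_ (ih ?_)
      · exact h (a, b) (by simp)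
      · intro x hx
        refine h x ?_
        have : (a :: b :: l).zip ((a :: b :: l).tail ++ [z]) =
            (a, b) :: (b :: l).zip ((b :: l).tail ++ [z]) := rfl
        rw [this]
        exact List.mem_cons_of_mem _ hx

theorem cp_eq (a : It) (l : List It) : cp (a :: l) = (a :: l).zip ((a :: l).tail ++ [a]) := by
  rw [cp]
  simp

theorem sn_nn (s : Bool) : (!(!s)) = s := Bool.not_not s

/-- An item crosses its line. -/
theorem crs_item (P : Pg N) (s : Bool) {t : ℝ} {e : ℤ} (h : ItOK P ⟨pass s, t, e⟩) :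
    Crs P s t e := by
  cases s
  · have h1 := h.2 rfl
    unfold Crs
    rw [sn_false]
    constructor
    · have := h1.2
      change (-1 : ℝ) * P.x e < -1 * t
      change t < P.x e at this
      linarith
    · have := h1.1
      change (-1 : ℝ) * t < -1 * P.x (e + 1)
      change P.x (e + 1) < t at this
      linarith
  · have h1 := h.1 rfl
    unfold Crs
    rw [sn_true]
    constructor
    · have := h1.1
      change (1 : ℝ) * P.x e < 1 * t
      change P.x e < t at this
      linarith
    · have := h1.2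
      change (1 : ℝ) * t < 1 * P.x (e + 1)
      change t < P.x (e + 1) at this
      linarith

theorem itok_sh (P : Pg N) {i : It} (h : ItOK P i) : ItOK P (i.sh N) := by
  have e1 : P.x (i.e + N) = P.x i.e := P.px i.e
  have e2 : P.x (i.e + N + 1) = P.x (i.e + 1) := by
    have : i.e + N + 1 = i.e + 1 + N := by ring
    rw [this]
    exact P.px (i.e + 1)
  refine ⟨fun hk => ?_, fun hk => ?_⟩
  · have := h.1 hk
    change P.x (i.e + N) < i.t ∧ i.t < P.x (i.e + N + 1)
    rw [e1, e2]
    exact this
  · have := h.2 hk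
    change P.x (i.e + N + 1) < i.t ∧ i.t < P.x (i.e + N)
    rw [e1, e2]
    exact this

/-- The points of a finger of items. -/
theorem fi_pf (P : Pg N) (s : Bool) (A C D : ℤ) (X : Finset ℝ) (τ : ℝ)
    (V : ℝ → ℝ → ℝ → Prop)
    (H : ∀ t ∈ X, τ ≤ sn s * t → ∀ e ∈ Ico A C, ∀ f ∈ Ico C D, Crs P s t e → Crs P (!s) t f →
      V t (P.l e t) (P.l f t)) :
    ∀ (t : ℝ) (F : List It), FI P s A C D X t F → τ ≤ sn s * t → PF s V t (F.map (pt P)) := by
  intro t F hF
  induction hF with
  | tip t t' e h =>
    intro _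
    exact PF.tip t t' _ h
  | step t t' e f F hup hX he hf hce hcf _ ih =>
    intro ht
    have ht' : τ ≤ sn s * t' := ht.trans hup.le
    have h1 := ih ht'
    rw [List.cons_append, List.map_cons, List.map_append]
    exact PF.step t t' _ _ _ hup (H t' hX ht' e he f hf hce hcf) h1

theorem pt_pass (P : Pg N) (s : Bool) (t : ℝ) (e : ℤ) :
    pt P ⟨pass s, t, e⟩ = ⟨pass s, t, P.l e t⟩ := rfl

end EXT

theorem t_EXT : Stmt_EXT := by
  intro hWON hMSH hCRE hROT hFNG hADJ N P X s A C D B ξ₁ ξ₂ δ o w hZ hX hw hm1 hm2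
  have hxC : ξ₂ < sn s * P.x C := by
    have := hZ.f2.xa
    rw [sn_not] at this
    linarith
  obtain ⟨ξ, hξX, hξ1, hξ2⟩ := hMSH N P X s ξ₁ ξ₂ A C hX hm2 hZ.lt hZ.f1.xa hxC
  obtain ⟨e, he, hce⟩ := hCRE N P X s A C hX hZ.f1.AC ξ hξX (hZ.f1.xa.trans hξ1)
    (hξ2.trans hxC)
  -- the crossing is an item of the walk
  obtain ⟨j₀, hj₀⟩ : ∃ j : ℤ, (⟨pass s, ξ, e + j * N⟩ : It) ∈ w := by
    have h1 := hWON P X w hw.1 ξ hξX e
    cases s
    · refine h1.2 ?_ ?_
      · have := hce.2
        rw [sn_false] at this
        linarith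
      · have := hce.1
        rw [sn_false] at this
        linarith
    · refine h1.1 ?_ ?_
      · have := hce.1
        rw [sn_true] at this
        linarith
      · have := hce.2
        rw [sn_true] at this
        linarith
  obtain ⟨w₁, hw₁, hrot⟩ := hROT N P X w hw _ hj₀ (-j₀)
  have hee : e + j₀ * N + -j₀ * N = e := by ring
  simp only [hee] at hw₁ hrot
  set i : It := ⟨pass s, ξ, e⟩ with hi
  have hiT : ¬ Tn i := EXT.not_tn_pass s ξ e
  -- the chain
  obtain ⟨⟨i', w'', heq, hok, hch⟩, hcp⟩ := hw₁
  obtain ⟨rfl, rfl⟩ := List.cons.inj heq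
  rw [List.cons_append] at hch
  have hokl : ∀ j ∈ i :: (w₁ ++ [i.sh N]), ItOK P j := by
    intro j hj
    rcases List.mem_cons.mp hj with hj | hj
    · rw [hj]; exact hok i List.mem_cons_self
    · rcases List.mem_append.mp hj with hj | hj
      · exact hok j (List.mem_cons_of_mem _ hj)
      · rw [List.mem_singleton.mp hj]
        exact EXT.itok_sh P (hok i List.mem_cons_self)
  have hch2 : List.IsChain (fun i j => ¬ (Tn i ∧ Tn j)) (i :: (w₁ ++ [i.sh N])) := by
    have h1 := EXT.chain_aux (fun i j => ¬ (Tn i ∧ Tn j)) i (i.sh N) (fun x hx => hx) (i :: w₁) ?_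
    · rw [List.cons_append] at h1
      exact h1
    · intro x hx
      rw [← EXT.cp_eq] at hx
      exact hcp x hx
  have hDA : D ≤ (i.sh N).e := by
    have h1 := he.1
    have h2 := hZ.f1.DA
    change D ≤ e + N
    linarith
  obtain ⟨F₁, j, l', hl', hjk, hjt, hje, hF₁⟩ := hFNG N P X s A C D hX hZ.f1.AC hZ.f1.CD
    hZ.f1.m1 hZ.f1.m2 i (w₁ ++ [i.sh N]) hch hokl hch2 rfl he hξX (hZ.f1.xd.trans hξ1)
    ⟨i.sh N, by simp, hDA⟩
  obtain ⟨l'', hl'', hw₁eq⟩ : ∃ l'', l' = l'' ++ [i.sh N] ∧ w₁ = F₁ ++ j :: l'' := by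
    rcases List.eq_nil_or_concat l' with h0 | ⟨l'', b, hb⟩
    · rw [h0] at hl'
      have h2 := List.append_inj' hl' rfl
      have h3 : i.sh N = j := by simpa using h2.2
      rw [← h3] at hjk
      exact absurd hjk.symm (EXT.pass_ne s)
    · rw [List.concat_eq_append] at hb
      rw [hb] at hl'
      have h2 : w₁ ++ [i.sh N] = (F₁ ++ j :: l'') ++ [b] := by
        rw [hl']
        simp
      have h3 := List.append_inj' h2 rfl
      have h4 : i.sh N = b := by simpa using h3.2
      exact ⟨l'', by rw [hb, h4], h3.1⟩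
  -- the second finger
  have hsuf : i :: (w₁ ++ [i.sh N]) = (i :: F₁) ++ (j :: (l'' ++ [i.sh N])) := by
    rw [hw₁eq]
    simp
  have hBA : B ≤ (i.sh N).e := by
    have h1 := he.1
    have h2 := hZ.BA
    change B ≤ e + N
    linarith
  have hxB : sn (!s) * P.x B < sn (!s) * j.t := by
    have h1 := hZ.f2.xd
    rw [hjt, sn_not] at *
    change -sn s * P.x B < -sn s * ξ
    linarith
  obtain ⟨G₁, k, l₃, hl₃, hkk, hkt, hke, hG₁⟩ := hFNG N P X (!s) C D B hX hZ.f2.AC hZ.f2.CD
    hZ.f2.m1 hZ.f2.m2 j (l'' ++ [i.sh N]) (by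
      rw [hsuf] at hch
      exact hch.right_of_append) (by
      intro z hz
      refine hokl z ?_
      rw [hsuf]
      exact List.mem_append_right _ hz) (by
      rw [hsuf] at hch2
      exact hch2.right_of_append) hjk hje (by rw [hjt]; exact hξX) hxB
    ⟨i.sh N, by simp, hBA⟩
  rw [Bool.not_not] at hkk
  obtain ⟨r₁, hl₂⟩ : ∃ r₁, l'' = G₁ ++ k :: r₁ := by
    rcases List.eq_nil_or_concat l₃ with h0 | ⟨r₁, b, hb⟩
    · rw [h0] at hl₃
      have h2 := List.append_inj' hl₃ rfl
      have h3 : i.sh N = k := by simpa using h2.2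
      rw [← h3] at hke
      exact absurd hke.2 (not_lt.mpr hBA)
    · rw [List.concat_eq_append] at hb
      rw [hb] at hl₃
      have h2 : l'' ++ [i.sh N] = (G₁ ++ k :: r₁) ++ [b] := by
        rw [hl₃]
        simp
      exact ⟨r₁, (List.append_inj' h2 rfl).1⟩
  have hkt' : k.t = ξ := hkt.trans hjt
  have hj' : j = ⟨pass (!s), ξ, j.e⟩ := by
    rcases j with ⟨k0, t0, e0⟩
    simp only at hjk hjt
    rw [hjk, hjt]
  have hk' : k = ⟨pass s, ξ, k.e⟩ := by
    rcases k with ⟨k0, t0, e0⟩
    simp only at hkk hkt'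
    rw [hkk, hkt']
  have hjmem : j ∈ i :: (w₁ ++ [i.sh N]) := by
    rw [hw₁eq]
    simp
  have hkmem : k ∈ i :: (w₁ ++ [i.sh N]) := by
    rw [hw₁eq, hl₂]
    simp
  have hcj : Crs P (!s) ξ j.e := by
    have h1 := hokl j hjmem
    rw [hj'] at h1
    exact EXT.crs_item P (!s) h1
  have hck : Crs P s ξ k.e := by
    have h1 := hokl k hkmem
    rw [hk'] at h1
    exact EXT.crs_item P s h1
  -- the conditions
  have hGW : GW P X (i :: w₁) := ⟨⟨i, w₁, rfl, hok, by rw [List.cons_append]; exact hch⟩, hcp⟩
  have H1 : ∀ t ∈ X, ξ₁ ≤ sn s * t → ∀ e ∈ Ico A C, ∀ f ∈ Ico C D, Crs P s t e →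
      Crs P (!s) t f → AO ((i :: w₁).map (pt P)) o t (P.l e t) (P.l f t) := by
    intro t ht hτ e he f hf h1 h2
    exact ⟨hADJ N P X s A C D ξ₁ δ i w₁ hX hm1 hGW hiT hZ.f1 hZ.st t ht hτ e he f hf h1 h2,
      hZ.o1 t hτ e he f hf h1 h2⟩
  have H2 : ∀ t ∈ X, -ξ₂ ≤ sn (!s) * t → ∀ e ∈ Ico C D, ∀ f ∈ Ico D B, Crs P (!s) t e →
      Crs P (!(!s)) t f → AO ((i :: w₁).map (pt P)) o t (P.l e t) (P.l f t) := by
    intro t ht hτ e he f hf h1 h2
    exact ⟨hADJ N P X (!s) C D B (-ξ₂) δ i w₁ hX hm1 hGW hiT hZ.f2 hZ.st t ht hτ e he f hf h1 h2,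
      hZ.o2 t hτ e he f hf h1 h2⟩
  have hτ2 : -ξ₂ ≤ sn (!s) * ξ := by
    rw [sn_not]
    linarith
  refine ⟨(i :: w₁).map (pt P), ξ, P.l e ξ, P.l j.e ξ, P.l k.e ξ, F₁.map (pt P), G₁.map (pt P),
    r₁.map (pt P), hrot, ?_, ?_, ?_, ?_, ?_⟩
  · rw [hw₁eq, hl₂, List.map_cons, List.map_append, List.map_cons, List.map_append, List.map_cons]
    conv_lhs => rw [hj', hk']
    rfl
  · exact EXT.fi_pf P s A C D X ξ₁ _ H1 ξ F₁ hF₁ hξ1.le
  · have h1 := hG₁
    rw [hjt] at h1
    exact EXT.fi_pf P (!s) C D B X (-ξ₂) _ H2 ξ G₁ h1 hτ2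
  · exact H1 ξ hξX hξ1.le e he j.e hje hce hcj
  · refine H2 ξ hξX hτ2 j.e hje k.e hke hcj ?_
    rw [Bool.not_not]
    exact hck

end LHE


end

section

set_option maxRecDepth 100000

namespace LCA.CapJ

open LCA

def S125 : SD where
  vs := [
    ⟨nat_lit 0, nat_lit 0, nat_lit 16, (.ofNat (nat_lit 8)), (.negSucc (nat_lit 2927228671)), (.ofNat (nat_lit 28490629351223741260175578830720)), (.ofNat (nat_lit 0)), (.ofNat (nat_lit 438317374634211403999741079040)), (.negSucc (nat_lit 2927228687)), (.negSucc (nat_lit 2927228655)), (.negSucc (nat_lit 9328630739192537473802)), (.ofNat (nat_lit 9328630739192537473803)), (.negSucc (nat_lit 9328630739192537473802)), (.ofNat (nat_lit 9328630739192537473803)), (.ofNat (nat_lit 861104375925523282560))⟩,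
    ⟨nat_lit 2, nat_lit 0, nat_lit 1, (.ofNat (nat_lit 8)), (.negSucc (nat_lit 7975829503)), (.ofNat (nat_lit 75587162262531960958608582834816)), (.ofNat (nat_lit 0)), (.ofNat (nat_lit 1162879419423642194529265219584)), (.negSucc (nat_lit 7975829519)), (.negSucc (nat_lit 7975829487)), (.negSucc (nat_lit 9328630739192537473802)), (.ofNat (nat_lit 9328630739192537473803)), (.negSucc (nat_lit 9328630739192537473802)), (.ofNat (nat_lit 9328630739192537473803)), (.ofNat (nat_lit 861104375925521106418))⟩,
    ⟨nat_lit 0, nat_lit 1, nat_lit 2, (.ofNat (nat_lit 8)), (.ofNat (nat_lit 1274771328)), (.ofNat (nat_lit 161882601539927223121961792838912)), (.ofNat (nat_lit 0)), (.ofNat (nat_lit 2490501562152790008646004608384)), (.ofNat (nat_lit 1274771312)), (.ofNat (nat_lit 1274771344)), (.ofNat (nat_lit 9328630739192537473803)), (.negSucc (nat_lit 9328630739192537473802)), (.negSucc (nat_lit 9328630739192537473802)), (.ofNat (nat_lit 9328630739192537473803)), (.ofNat (nat_lit 861104375925500006746))⟩,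
    ⟨nat_lit 0, nat_lit 2, nat_lit 3, (.ofNat (nat_lit 8)), (.ofNat (nat_lit 4501232128)), (.ofNat (nat_lit 131784140142247477310205386416512)), (.ofNat (nat_lit 0)), (.ofNat (nat_lit 2027448309880730420143313769984)), (.ofNat (nat_lit 4501232112)), (.ofNat (nat_lit 4501232144)), (.negSucc (nat_lit 9328630739192537473802)), (.ofNat (nat_lit 9328630739192537473803)), (.negSucc (nat_lit 9328630739192537473802)), (.ofNat (nat_lit 9328630739192537473803)), (.ofNat (nat_lit 861104375925543720484))⟩,
    ⟨nat_lit 1, nat_lit 3, nat_lit 4, (.ofNat (nat_lit 8)), (.ofNat (nat_lit 8463247168)), (.ofNat (nat_lit 168744315433534628237176478413632)), (.ofNat (nat_lit 0)), (.ofNat (nat_lit 2596066391285148126708259693824)), (.ofNat (nat_lit 8463247152)), (.ofNat (nat_lit 8463247184)), (.ofNat (nat_lit 9328630739192537473803)), (.negSucc (nat_lit 9328630739192537473802)), (.negSucc (nat_lit 9328630739192537473802)), (.ofNat (nat_lit 9328630739192537473803)), (.ofNat (nat_lit 861104375925464997576))⟩,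
    ⟨nat_lit 0, nat_lit 5, nat_lit 4, (.ofNat (nat_lit 8)), (.ofNat (nat_lit 3966092480)), (.ofNat (nat_lit 210696610894915253472105317052096)), (.ofNat (nat_lit 0)), (.ofNat (nat_lit 3241486321460234668779729199872)), (.ofNat (nat_lit 3966092464)), (.ofNat (nat_lit 3966092496)), (.ofNat (nat_lit 9328630739192537473803)), (.negSucc (nat_lit 9328630739192537473802)), (.negSucc (nat_lit 9328630739192537473802)), (.ofNat (nat_lit 9328630739192537473803)), (.ofNat (nat_lit 861104375925464997576))⟩,
    ⟨nat_lit 2, nat_lit 6, nat_lit 5, (.ofNat (nat_lit 8)), (.negSucc (nat_lit 9156729087)), (.ofNat (nat_lit 88278654230731639806235073668992)), (.ofNat (nat_lit 0)), (.ofNat (nat_lit 1358133142011255997009829113344)), (.negSucc (nat_lit 9156729103)), (.negSucc (nat_lit 9156729071)), (.negSucc (nat_lit 9328630739192537473802)), (.ofNat (nat_lit 9328630739192537473803)), (.negSucc (nat_lit 9328630739192537473802)), (.ofNat (nat_lit 9328630739192537473803)), (.ofNat (nat_lit 861104375925464997576))⟩,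
    ⟨nat_lit 0, nat_lit 7, nat_lit 8, (.ofNat (nat_lit 8)), (.ofNat (nat_lit 5721769024)), (.ofNat (nat_lit 162281400653285795926047470669760)), (.ofNat (nat_lit 0)), (.ofNat (nat_lit 2496636933127473783460792600320)), (.ofNat (nat_lit 5721769008)), (.ofNat (nat_lit 5721769040)), (.ofNat (nat_lit 9328630739192537473803)), (.negSucc (nat_lit 9328630739192537473802)), (.negSucc (nat_lit 9328630739192537473802)), (.ofNat (nat_lit 9328630739192537473803)), (.ofNat (nat_lit 861104375925464997576))⟩,
    ⟨nat_lit 0, nat_lit 8, nat_lit 9, (.ofNat (nat_lit 8)), (.ofNat (nat_lit 11540301248)), (.ofNat (nat_lit 108002462091497076894397159341888)), (.ofNat (nat_lit 0)), (.ofNat (nat_lit 1661576339869185798364119618816)), (.ofNat (nat_lit 11540301232)), (.ofNat (nat_lit 11540301264)), (.negSucc (nat_lit 9328630739192537473802)), (.ofNat (nat_lit 9328630739192537473803)), (.negSucc (nat_lit 9328630739192537473802)), (.ofNat (nat_lit 9328630739192537473803)), (.ofNat (nat_lit 861104375925464997576))⟩,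
    ⟨nat_lit 1, nat_lit 9, nat_lit 10, (.ofNat (nat_lit 8)), (.ofNat (nat_lit 13219275904)), (.ofNat (nat_lit 123664996677783893217242660278656)), (.ofNat (nat_lit 0)), (.ofNat (nat_lit 1902538410427444511021653857792)), (.ofNat (nat_lit 13219275888)), (.ofNat (nat_lit 13219275920)), (.ofNat (nat_lit 9328630739192537473803)), (.negSucc (nat_lit 9328630739192537473802)), (.negSucc (nat_lit 9328630739192537473802)), (.ofNat (nat_lit 9328630739192537473803)), (.ofNat (nat_lit 861104375925464997576))⟩,
    ⟨nat_lit 0, nat_lit 16, nat_lit 10, (.ofNat (nat_lit 8)), (.ofNat (nat_lit 10247220672)), (.ofNat (nat_lit 151390202473597101671614929365952)), (.ofNat (nat_lit 0)), (.ofNat (nat_lit 2329080038055340025701423544064)), (.ofNat (nat_lit 10247220656)), (.ofNat (nat_lit 10247220688)), (.ofNat (nat_lit 9328630739192537473803)), (.negSucc (nat_lit 9328630739192537473802)), (.negSucc (nat_lit 9328630739192537473802)), (.ofNat (nat_lit 9328630739192537473803)), (.ofNat (nat_lit 861104375925464997576))⟩,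
    ⟨nat_lit 1, nat_lit 11, nat_lit 15, (.ofNat (nat_lit 8)), (.negSucc (nat_lit 1006933759)), (.ofNat (nat_lit 140910434224029755089926995574144)), (.ofNat (nat_lit 0)), (.ofNat (nat_lit 2167852834215842385984236471808)), (.negSucc (nat_lit 1006933775)), (.negSucc (nat_lit 1006933743)), (.ofNat (nat_lit 9328630739192537473803)), (.negSucc (nat_lit 9328630739192537473802)), (.negSucc (nat_lit 9328630739192537473802)), (.ofNat (nat_lit 9328630739192537473803)), (.ofNat (nat_lit 861104375925464997576))⟩,
    ⟨nat_lit 0, nat_lit 6, nat_lit 11, (.ofNat (nat_lit 8)), (.negSucc (nat_lit 7902812415)), (.ofNat (nat_lit 76581328619926433249848728725376)), (.ofNat (nat_lit 0)), (.ofNat (nat_lit 1178174286460406665374331448832)), (.negSucc (nat_lit 7902812431)), (.negSucc (nat_lit 7902812399)), (.negSucc (nat_lit 9328630739192537473802)), (.ofNat (nat_lit 9328630739192537473803)), (.negSucc (nat_lit 9328630739192537473802)), (.ofNat (nat_lit 9328630739192537473803)), (.ofNat (nat_lit 861104375925464997576))⟩,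
    ⟨nat_lit 0, nat_lit 17, nat_lit 12, (.ofNat (nat_lit 8)), (.negSucc (nat_lit 1333748671)), (.ofNat (nat_lit 13038736142576443395972147119040)), (.ofNat (nat_lit 0)), (.ofNat (nat_lit 200595940655022206090524481280)), (.negSucc (nat_lit 1333748687)), (.negSucc (nat_lit 1333748655)), (.negSucc (nat_lit 9328630739192537473802)), (.ofNat (nat_lit 9328630739192537473803)), (.negSucc (nat_lit 9328630739192537473802)), (.ofNat (nat_lit 9328630739192537473803)), (.ofNat (nat_lit 861104375925464997576))⟩,
    ⟨nat_lit 1, nat_lit 12, nat_lit 13, (.ofNat (nat_lit 8)), (.ofNat (nat_lit 2686703744)), (.ofNat (nat_lit 50544052135934946571693955177088)), (.ofNat (nat_lit 0)), (.ofNat (nat_lit 777600802091306870328501705216)), (.ofNat (nat_lit 2686703728)), (.ofNat (nat_lit 2686703760)), (.ofNat (nat_lit 9328630739192537473803)), (.negSucc (nat_lit 9328630739192537473802)), (.negSucc (nat_lit 9328630739192537473802)), (.ofNat (nat_lit 9328630739192537473803)), (.ofNat (nat_lit 861104375925464997576))⟩,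
    ⟨nat_lit 2, nat_lit 13, nat_lit 14, (.ofNat (nat_lit 8)), (.negSucc (nat_lit 5172034495)), (.ofNat (nat_lit 123855319252866807539702589503808)), (.ofNat (nat_lit 0)), (.ofNat (nat_lit 1905466450044104731367171456256)), (.negSucc (nat_lit 5172034511)), (.negSucc (nat_lit 5172034479)), (.negSucc (nat_lit 9328630739192537473802)), (.ofNat (nat_lit 9328630739192537473803)), (.negSucc (nat_lit 9328630739192537473802)), (.ofNat (nat_lit 9328630739192537473803)), (.ofNat (nat_lit 861104375925464997576))⟩,
    ⟨nat_lit 0, nat_lit 14, nat_lit 15, (.ofNat (nat_lit 8)), (.negSucc (nat_lit 2175356671)), (.ofNat (nat_lit 151810220117289812253737020548480)), (.ofNat (nat_lit 0)), (.ofNat (nat_lit 2335541847958304803887873615360)), (.negSucc (nat_lit 2175356687)), (.negSucc (nat_lit 2175356655)), (.ofNat (nat_lit 9328630739192537473803)), (.negSucc (nat_lit 9328630739192537473802)), (.negSucc (nat_lit 9328630739192537473802)), (.ofNat (nat_lit 9328630739192537473803)), (.ofNat (nat_lit 861104375925464997576))⟩,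
    ⟨nat_lit 2, nat_lit 17, nat_lit 7, (.ofNat (nat_lit 8)), (.negSucc (nat_lit 5805162943)), (.ofNat (nat_lit 54750908768019865212229707435456)), (.ofNat (nat_lit 0)), (.ofNat (nat_lit 842321673354151772490153115392)), (.negSucc (nat_lit 5805162959)), (.negSucc (nat_lit 5805162927)), (.negSucc (nat_lit 9328630739192537473802)), (.ofNat (nat_lit 9328630739192537473803)), (.negSucc (nat_lit 9328630739192537473802)), (.ofNat (nat_lit 9328630739192537473803)), (.ofNat (nat_lit 861104375925464997576))⟩]
  es := [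
    ⟨nat_lit 1, nat_lit 0, (.negSucc (nat_lit 7975829503)), (.negSucc (nat_lit 2927228671)), (.negSucc (nat_lit 7975829487)), (.negSucc (nat_lit 2927228687)), (.negSucc (nat_lit 9328630739192537473802)), (.negSucc (nat_lit 143517395987592070841)), (.ofNat (nat_lit 18209138168554137991183497216))⟩,
    ⟨nat_lit 1, nat_lit 2, (.negSucc (nat_lit 7975829503)), (.ofNat (nat_lit 1274771328)), (.negSucc (nat_lit 7975829487)), (.ofNat (nat_lit 1274771312)), (.ofNat (nat_lit 9328630739192537473803)), (.ofNat (nat_lit 143517395987576411525)), (.ofNat (nat_lit 2307549700678605355024805853184))⟩,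
    ⟨nat_lit 2, nat_lit 3, (.ofNat (nat_lit 1274771328)), (.ofNat (nat_lit 4501232128)), (.ofNat (nat_lit 1274771344)), (.ofNat (nat_lit 4501232112)), (.negSucc (nat_lit 9328630739192537473802)), (.negSucc (nat_lit 143517395987597180322)), (.ofNat (nat_lit 2673453423627001137735410787328))⟩,
    ⟨nat_lit 3, nat_lit 4, (.ofNat (nat_lit 4501232128)), (.ofNat (nat_lit 8463247168)), (.ofNat (nat_lit 4501232144)), (.ofNat (nat_lit 8463247152)), (.ofNat (nat_lit 9328630739192537473803)), (.ofNat (nat_lit 143517395987577499596)), (.ofNat (nat_lit 1381443196134548290071891549696))⟩,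
    ⟨nat_lit 5, nat_lit 4, (.ofNat (nat_lit 3966092480)), (.ofNat (nat_lit 8463247168)), (.ofNat (nat_lit 3966092496)), (.ofNat (nat_lit 8463247152)), (.negSucc (nat_lit 9328630739192537473802)), (.negSucc (nat_lit 143517395987577499595)), (.ofNat (nat_lit 3810689586435747963344627837952))⟩,
    ⟨nat_lit 6, nat_lit 5, (.negSucc (nat_lit 9156729087)), (.ofNat (nat_lit 3966092480)), (.negSucc (nat_lit 9156729071)), (.ofNat (nat_lit 3966092464)), (.ofNat (nat_lit 9328630739192537473803)), (.ofNat (nat_lit 143517395987577499596)), (.ofNat (nat_lit 2672283056484721374214830561792))⟩,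
    ⟨nat_lit 6, nat_lit 12, (.negSucc (nat_lit 9156729087)), (.negSucc (nat_lit 7902812415)), (.negSucc (nat_lit 9156729071)), (.negSucc (nat_lit 7902812431)), (.negSucc (nat_lit 9328630739192537473802)), (.negSucc (nat_lit 143517395987577499595)), (.ofNat (nat_lit 43983227537790619804827664896))⟩,
    ⟨nat_lit 17, nat_lit 7, (.negSucc (nat_lit 5805162943)), (.ofNat (nat_lit 5721769024)), (.negSucc (nat_lit 5805162927)), (.ofNat (nat_lit 5721769008)), (.ofNat (nat_lit 9328630739192537473803)), (.ofNat (nat_lit 143517395987577499596)), (.ofNat (nat_lit 1675463542360610957473027286016))⟩,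
    ⟨nat_lit 7, nat_lit 8, (.ofNat (nat_lit 5721769024)), (.ofNat (nat_lit 11540301248)), (.ofNat (nat_lit 5721769040)), (.ofNat (nat_lit 11540301232)), (.negSucc (nat_lit 9328630739192537473802)), (.negSucc (nat_lit 143517395987577499595)), (.ofNat (nat_lit 3317810323894336609448557914624))⟩,
    ⟨nat_lit 8, nat_lit 9, (.ofNat (nat_lit 11540301248)), (.ofNat (nat_lit 13219275904)), (.ofNat (nat_lit 11540301264)), (.ofNat (nat_lit 13219275888)), (.ofNat (nat_lit 9328630739192537473803)), (.ofNat (nat_lit 143517395987577499596)), (.ofNat (nat_lit 5342355844034987279681323008))⟩,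
    ⟨nat_lit 10, nat_lit 9, (.ofNat (nat_lit 10247220672)), (.ofNat (nat_lit 13219275904)), (.ofNat (nat_lit 10247220688)), (.ofNat (nat_lit 13219275888)), (.negSucc (nat_lit 9328630739192537473802)), (.negSucc (nat_lit 143517395987577499595)), (.ofNat (nat_lit 3799734465010854034763626392576))⟩,
    ⟨nat_lit 12, nat_lit 11, (.negSucc (nat_lit 7902812415)), (.negSucc (nat_lit 1006933759)), (.negSucc (nat_lit 7902812399)), (.negSucc (nat_lit 1006933775)), (.ofNat (nat_lit 9328630739192537473803)), (.ofNat (nat_lit 143517395987577499596)), (.ofNat (nat_lit 2312365345383022710943835232768))⟩,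
    ⟨nat_lit 13, nat_lit 14, (.negSucc (nat_lit 1333748671)), (.ofNat (nat_lit 2686703744)), (.negSucc (nat_lit 1333748655)), (.ofNat (nat_lit 2686703728)), (.ofNat (nat_lit 9328630739192537473803)), (.ofNat (nat_lit 143517395987577499596)), (.ofNat (nat_lit 392012076962351824673770017792))⟩,
    ⟨nat_lit 15, nat_lit 14, (.negSucc (nat_lit 5172034495)), (.ofNat (nat_lit 2686703744)), (.negSucc (nat_lit 5172034479)), (.ofNat (nat_lit 2686703728)), (.negSucc (nat_lit 9328630739192537473802)), (.negSucc (nat_lit 143517395987577499595)), (.ofNat (nat_lit 1163189527220261915983233392640))⟩,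
    ⟨nat_lit 15, nat_lit 16, (.negSucc (nat_lit 5172034495)), (.negSucc (nat_lit 2175356671)), (.negSucc (nat_lit 5172034479)), (.negSucc (nat_lit 2175356687)), (.ofNat (nat_lit 9328630739192537473803)), (.ofNat (nat_lit 143517395987577499596)), (.ofNat (nat_lit 2647743372867947546751109519872))⟩,
    ⟨nat_lit 16, nat_lit 11, (.negSucc (nat_lit 2175356671)), (.negSucc (nat_lit 1006933759)), (.negSucc (nat_lit 2175356655)), (.negSucc (nat_lit 1006933775)), (.negSucc (nat_lit 9328630739192537473802)), (.negSucc (nat_lit 143517395987577499595)), (.ofNat (nat_lit 2023340323048662061024637710848))⟩,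
    ⟨nat_lit 0, nat_lit 10, (.negSucc (nat_lit 2927228671)), (.ofNat (nat_lit 10247220672)), (.negSucc (nat_lit 2927228655)), (.ofNat (nat_lit 10247220656)), (.ofNat (nat_lit 9328630739192537473803)), (.ofNat (nat_lit 143517395987577499596)), (.ofNat (nat_lit 858425611099826016639220695552))⟩,
    ⟨nat_lit 17, nat_lit 13, (.negSucc (nat_lit 5805162943)), (.negSucc (nat_lit 1333748671)), (.negSucc (nat_lit 5805162927)), (.negSucc (nat_lit 1333748687)), (.negSucc (nat_lit 9328630739192537473802)), (.negSucc (nat_lit 143517395987577499595)), (.ofNat (nat_lit 9179804347692587507278944768))⟩]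

theorem ok125 : stOK 17 17 S125 = true := by decide +kernel

def S126 : SD where
  vs := [
    ⟨nat_lit 0, nat_lit 0, nat_lit 16, (.ofNat (nat_lit 8)), (.negSucc (nat_lit 752892095)), (.ofNat (nat_lit 48783994149753971749890214003776)), (.ofNat (nat_lit 2174336576)), (.ofNat (nat_lit 20293364798530230489714635173056)), (.negSucc (nat_lit 752892111)), (.negSucc (nat_lit 752892079)), (.negSucc (nat_lit 9328630739192537473802)), (.ofNat (nat_lit 9328630739192537473803)), (.negSucc (nat_lit 9328630739192537473802)), (.ofNat (nat_lit 9328630739192537473803)), (.ofNat (nat_lit 0))⟩,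
    ⟨nat_lit 2, nat_lit 0, nat_lit 1, (.ofNat (nat_lit 8)), (.negSucc (nat_lit 5802279359)), (.ofNat (nat_lit 95887863394791676113953815848768)), (.ofNat (nat_lit 2173550144)), (.ofNat (nat_lit 20300701132259715155345233013952)), (.negSucc (nat_lit 5802279375)), (.negSucc (nat_lit 5802279343)), (.negSucc (nat_lit 9328630739192537473802)), (.ofNat (nat_lit 9328630739192537473803)), (.negSucc (nat_lit 9328630739192537473802)), (.ofNat (nat_lit 9328630739192537473803)), (.ofNat (nat_lit 0))⟩,
    ⟨nat_lit 0, nat_lit 1, nat_lit 2, (.ofNat (nat_lit 8)), (.ofNat (nat_lit 3449370048)), (.ofNat (nat_lit 182193084450492917831481156307392)), (.ofNat (nat_lit 2174598720)), (.ofNat (nat_lit 20310482910565694709519363468480)), (.ofNat (nat_lit 3449370032)), (.ofNat (nat_lit 3449370064)), (.ofNat (nat_lit 9328630739192537473803)), (.negSucc (nat_lit 9328630739192537473802)), (.negSucc (nat_lit 9328630739192537473802)), (.ofNat (nat_lit 9328630739192537473803)), (.ofNat (nat_lit 0))⟩,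
    ⟨nat_lit 0, nat_lit 2, nat_lit 3, (.ofNat (nat_lit 8)), (.ofNat (nat_lit 6676355136)), (.ofNat (nat_lit 152089732163660182242637684657728)), (.ofNat (nat_lit 2175123008)), (.ofNat (nat_lit 20305592021412704932432298241216)), (.ofNat (nat_lit 6676355120)), (.ofNat (nat_lit 6676355152)), (.negSucc (nat_lit 9328630739192537473802)), (.ofNat (nat_lit 9328630739192537473803)), (.negSucc (nat_lit 9328630739192537473802)), (.ofNat (nat_lit 9328630739192537473803)), (.ofNat (nat_lit 0))⟩,
    ⟨nat_lit 1, nat_lit 3, nat_lit 4, (.ofNat (nat_lit 8)), (.ofNat (nat_lit 10639156608)), (.ofNat (nat_lit 189057243788676817835239374495744)), (.ofNat (nat_lit 2175909440)), (.ofNat (nat_lit 20312928355142189598062896082112)), (.ofNat (nat_lit 10639156592)), (.ofNat (nat_lit 10639156624)), (.ofNat (nat_lit 9328630739192537473803)), (.negSucc (nat_lit 9328630739192537473802)), (.negSucc (nat_lit 9328630739192537473802)), (.ofNat (nat_lit 9328630739192537473803)), (.ofNat (nat_lit 0))⟩,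
    ⟨nat_lit 0, nat_lit 5, nat_lit 4, (.ofNat (nat_lit 8)), (.ofNat (nat_lit 6140691200)), (.ofNat (nat_lit 231021766472939917512885876202368)), (.ofNat (nat_lit 2174598720)), (.ofNat (nat_lit 20325155578024664040780559150272)), (.ofNat (nat_lit 6140691184)), (.ofNat (nat_lit 6140691216)), (.ofNat (nat_lit 9328630739192537473803)), (.negSucc (nat_lit 9328630739192537473802)), (.negSucc (nat_lit 9328630739192537473802)), (.ofNat (nat_lit 9328630739192537473803)), (.ofNat (nat_lit 0))⟩,
    ⟨nat_lit 2, nat_lit 6, nat_lit 5, (.ofNat (nat_lit 8)), (.negSucc (nat_lit 6983703231)), (.ofNat (nat_lit 108589137141297334515754437137472)), (.ofNat (nat_lit 2173025856)), (.ofNat (nat_lit 20310482910565694709519363468480)), (.negSucc (nat_lit 6983703247)), (.negSucc (nat_lit 6983703215)), (.negSucc (nat_lit 9328630739192537473802)), (.ofNat (nat_lit 9328630739192537473803)), (.negSucc (nat_lit 9328630739192537473802)), (.ofNat (nat_lit 9328630739192537473803)), (.ofNat (nat_lit 0))⟩,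
    ⟨nat_lit 0, nat_lit 7, nat_lit 8, (.ofNat (nat_lit 8)), (.ofNat (nat_lit 7896892032)), (.ofNat (nat_lit 182591883563851490635566834138240)), (.ofNat (nat_lit 2175123008)), (.ofNat (nat_lit 20310482910565694709519363468480)), (.ofNat (nat_lit 7896892016)), (.ofNat (nat_lit 7896892048)), (.ofNat (nat_lit 9328630739192537473803)), (.negSucc (nat_lit 9328630739192537473802)), (.negSucc (nat_lit 9328630739192537473802)), (.ofNat (nat_lit 9328630739192537473803)), (.ofNat (nat_lit 0))⟩,
    ⟨nat_lit 0, nat_lit 8, nat_lit 9, (.ofNat (nat_lit 8)), (.ofNat (nat_lit 13716472832)), (.ofNat (nat_lit 128303163223756792049742392355840)), (.ofNat (nat_lit 2176171584)), (.ofNat (nat_lit 20300701132259715155345233013952)), (.ofNat (nat_lit 13716472816)), (.ofNat (nat_lit 13716472848)), (.negSucc (nat_lit 9328630739192537473802)), (.ofNat (nat_lit 9328630739192537473803)), (.negSucc (nat_lit 9328630739192537473802)), (.ofNat (nat_lit 9328630739192537473803)), (.ofNat (nat_lit 0))⟩,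
    ⟨nat_lit 1, nat_lit 9, nat_lit 10, (.ofNat (nat_lit 8)), (.ofNat (nat_lit 15395709632)), (.ofNat (nat_lit 143968143254620103261131425906240)), (.ofNat (nat_lit 2176433728)), (.ofNat (nat_lit 20303146576836210043888765627584)), (.ofNat (nat_lit 15395709616)), (.ofNat (nat_lit 15395709648)), (.ofNat (nat_lit 9328630739192537473803)), (.negSucc (nat_lit 9328630739192537473802)), (.negSucc (nat_lit 9328630739192537473802)), (.ofNat (nat_lit 9328630739192537473803)), (.ofNat (nat_lit 0))⟩,
    ⟨nat_lit 0, nat_lit 16, nat_lit 10, (.ofNat (nat_lit 8)), (.ofNat (nat_lit 12423130112)), (.ofNat (nat_lit 171698239939586301492590760220800)), (.ofNat (nat_lit 2175909440)), (.ofNat (nat_lit 20308037465989199820975830854848)), (.ofNat (nat_lit 12423130096)), (.ofNat (nat_lit 12423130128)), (.ofNat (nat_lit 9328630739192537473803)), (.negSucc (nat_lit 9328630739192537473802)), (.negSucc (nat_lit 9328630739192537473802)), (.ofNat (nat_lit 9328630739192537473803)), (.ofNat (nat_lit 0))⟩,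
    ⟨nat_lit 1, nat_lit 11, nat_lit 15, (.ofNat (nat_lit 8)), (.ofNat (nat_lit 1167140672)), (.ofNat (nat_lit 161220917134595449799446359042624)), (.ofNat (nat_lit 2174074432)), (.ofNat (nat_lit 20310482910565694709519363468480)), (.ofNat (nat_lit 1167140656)), (.ofNat (nat_lit 1167140688)), (.ofNat (nat_lit 9328630739192537473803)), (.negSucc (nat_lit 9328630739192537473802)), (.negSucc (nat_lit 9328630739192537473802)), (.ofNat (nat_lit 9328630739192537473803)), (.ofNat (nat_lit 0))⟩,
    ⟨nat_lit 0, nat_lit 6, nat_lit 11, (.ofNat (nat_lit 8)), (.negSucc (nat_lit 5729262271)), (.ofNat (nat_lit 96886920641339138182281026966592)), (.ofNat (nat_lit 2173550144)), (.ofNat (nat_lit 20305592021412704932432298241216)), (.negSucc (nat_lit 5729262287)), (.negSucc (nat_lit 5729262255)), (.negSucc (nat_lit 9328630739192537473802)), (.ofNat (nat_lit 9328630739192537473803)), (.negSucc (nat_lit 9328630739192537473802)), (.ofNat (nat_lit 9328630739192537473803)), (.ofNat (nat_lit 0))⟩,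
    ⟨nat_lit 0, nat_lit 17, nat_lit 12, (.ofNat (nat_lit 8)), (.negSucc (nat_lit 1334010815)), (.ofNat (nat_lit 13041181587152938284515679732672)), (.negSucc (nat_lit 262143)), (.ofNat (nat_lit 2445444576494888543532613632)), (.negSucc (nat_lit 1334010831)), (.negSucc (nat_lit 1334010799)), (.negSucc (nat_lit 9328630739192537473802)), (.ofNat (nat_lit 9328630739192537473803)), (.negSucc (nat_lit 9328630739192537473802)), (.ofNat (nat_lit 9328630739192537473803)), (.ofNat (nat_lit 0))⟩,
    ⟨nat_lit 1, nat_lit 12, nat_lit 13, (.ofNat (nat_lit 8)), (.ofNat (nat_lit 4861826752)), (.ofNat (nat_lit 70839862379041671949952122963776)), (.ofNat (nat_lit 2175123008)), (.ofNat (nat_lit 20295810243106725378258167786688)), (.ofNat (nat_lit 4861826736)), (.ofNat (nat_lit 4861826768)), (.ofNat (nat_lit 9328630739192537473803)), (.negSucc (nat_lit 9328630739192537473802)), (.negSucc (nat_lit 9328630739192537473802)), (.ofNat (nat_lit 9328630739192537473803)), (.ofNat (nat_lit 0))⟩,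
    ⟨nat_lit 2, nat_lit 13, nat_lit 14, (.ofNat (nat_lit 8)), (.negSucc (nat_lit 2998484351)), (.ofNat (nat_lit 144165802163432502249221952972288)), (.ofNat (nat_lit 2173550144)), (.ofNat (nat_lit 20310482910565694709519363468480)), (.negSucc (nat_lit 2998484367)), (.negSucc (nat_lit 2998484335)), (.negSucc (nat_lit 9328630739192537473802)), (.ofNat (nat_lit 9328630739192537473803)), (.negSucc (nat_lit 9328630739192537473802)), (.ofNat (nat_lit 9328630739192537473803)), (.ofNat (nat_lit 0))⟩,
    ⟨nat_lit 0, nat_lit 14, nat_lit 15, (.ofNat (nat_lit 8)), (.negSucc (nat_lit 1544383)), (.ofNat (nat_lit 172123148472432001851799916630592)), (.ofNat (nat_lit 2173812288)), (.ofNat (nat_lit 20312928355142189598062896082112)), (.negSucc (nat_lit 1544399)), (.negSucc (nat_lit 1544367)), (.ofNat (nat_lit 9328630739192537473803)), (.negSucc (nat_lit 9328630739192537473802)), (.negSucc (nat_lit 9328630739192537473802)), (.ofNat (nat_lit 9328630739192537473803)), (.ofNat (nat_lit 0))⟩,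
    ⟨nat_lit 2, nat_lit 17, nat_lit 7, (.ofNat (nat_lit 8)), (.negSucc (nat_lit 5806211519)), (.ofNat (nat_lit 54760690546325844766403837889984)), (.negSucc (nat_lit 1048575)), (.ofNat (nat_lit 9781778305979554174130454528)), (.negSucc (nat_lit 5806211535)), (.negSucc (nat_lit 5806211503)), (.negSucc (nat_lit 9328630739192537473802)), (.ofNat (nat_lit 9328630739192537473803)), (.negSucc (nat_lit 9328630739192537473802)), (.ofNat (nat_lit 9328630739192537473803)), (.ofNat (nat_lit 0))⟩]
  es := [
    ⟨nat_lit 1, nat_lit 0, (.negSucc (nat_lit 5802279359)), (.negSucc (nat_lit 752892095)), (.negSucc (nat_lit 5802279343)), (.negSucc (nat_lit 752892111)), (.negSucc (nat_lit 9328630739192537473802)), (.ofNat (nat_lit 0)), (.ofNat (nat_lit 40576947818754481425255139891584))⟩,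
    ⟨nat_lit 1, nat_lit 2, (.negSucc (nat_lit 5802279359)), (.ofNat (nat_lit 3449370048)), (.negSucc (nat_lit 5802279343)), (.ofNat (nat_lit 3449370032)), (.ofNat (nat_lit 9328630739192537473803)), (.ofNat (nat_lit 0)), (.ofNat (nat_lit 24454445764948885435326136320))⟩,
    ⟨nat_lit 2, nat_lit 3, (.ofNat (nat_lit 3449370048)), (.ofNat (nat_lit 6676355136)), (.ofNat (nat_lit 3449370064)), (.ofNat (nat_lit 6676355120)), (.negSucc (nat_lit 9328630739192537473802)), (.ofNat (nat_lit 0)), (.ofNat (nat_lit 40596511375366440533603400800640))⟩,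
    ⟨nat_lit 3, nat_lit 4, (.ofNat (nat_lit 6676355136)), (.ofNat (nat_lit 10639156608)), (.ofNat (nat_lit 6676355152)), (.ofNat (nat_lit 10639156592)), (.ofNat (nat_lit 9328630739192537473803)), (.ofNat (nat_lit 0)), (.ofNat (nat_lit 14672667458969331261195681792))⟩,
    ⟨nat_lit 5, nat_lit 4, (.ofNat (nat_lit 6140691200)), (.ofNat (nat_lit 10639156608)), (.ofNat (nat_lit 6140691216)), (.ofNat (nat_lit 10639156592)), (.negSucc (nat_lit 9328630739192537473802)), (.ofNat (nat_lit 0)), (.ofNat (nat_lit 40611184042825409864864596482432))⟩,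
    ⟨nat_lit 6, nat_lit 5, (.negSucc (nat_lit 6983703231)), (.ofNat (nat_lit 6140691200)), (.negSucc (nat_lit 6983703215)), (.ofNat (nat_lit 6140691184)), (.ofNat (nat_lit 9328630739192537473803)), (.ofNat (nat_lit 0)), (.ofNat (nat_lit 39127113223918216696521818112))⟩,
    ⟨nat_lit 6, nat_lit 12, (.negSucc (nat_lit 6983703231)), (.negSucc (nat_lit 5729262271)), (.negSucc (nat_lit 6983703215)), (.negSucc (nat_lit 5729262287)), (.negSucc (nat_lit 9328630739192537473802)), (.ofNat (nat_lit 0)), (.ofNat (nat_lit 40581838707907471202342205118848))⟩,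
    ⟨nat_lit 17, nat_lit 7, (.negSucc (nat_lit 5806211519)), (.ofNat (nat_lit 7896892032)), (.negSucc (nat_lit 5806211503)), (.ofNat (nat_lit 7896892016)), (.ofNat (nat_lit 9328630739192537473803)), (.ofNat (nat_lit 0)), (.ofNat (nat_lit 19563556611959108348260909056))⟩,
    ⟨nat_lit 7, nat_lit 8, (.ofNat (nat_lit 7896892032)), (.ofNat (nat_lit 13716472832)), (.ofNat (nat_lit 7896892048)), (.ofNat (nat_lit 13716472816)), (.negSucc (nat_lit 9328630739192537473802)), (.ofNat (nat_lit 0)), (.ofNat (nat_lit 40601402264519430310690466027904))⟩,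
    ⟨nat_lit 8, nat_lit 9, (.ofNat (nat_lit 13716472832)), (.ofNat (nat_lit 15395709632)), (.ofNat (nat_lit 13716472848)), (.ofNat (nat_lit 15395709616)), (.ofNat (nat_lit 9328630739192537473803)), (.ofNat (nat_lit 0)), (.ofNat (nat_lit 0))⟩,
    ⟨nat_lit 10, nat_lit 9, (.ofNat (nat_lit 12423130112)), (.ofNat (nat_lit 15395709632)), (.ofNat (nat_lit 12423130128)), (.ofNat (nat_lit 15395709616)), (.negSucc (nat_lit 9328630739192537473802)), (.ofNat (nat_lit 0)), (.ofNat (nat_lit 40606293153672420087777531255168))⟩,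
    ⟨nat_lit 12, nat_lit 11, (.negSucc (nat_lit 5729262271)), (.ofNat (nat_lit 1167140672)), (.negSucc (nat_lit 5729262255)), (.ofNat (nat_lit 1167140656)), (.ofNat (nat_lit 9328630739192537473803)), (.ofNat (nat_lit 0)), (.ofNat (nat_lit 29345334917938662522391363584))⟩,
    ⟨nat_lit 13, nat_lit 14, (.negSucc (nat_lit 1334010815)), (.ofNat (nat_lit 4861826752)), (.negSucc (nat_lit 1334010799)), (.ofNat (nat_lit 4861826736)), (.ofNat (nat_lit 9328630739192537473803)), (.ofNat (nat_lit 0)), (.ofNat (nat_lit 4890889152989777087065227264))⟩,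
    ⟨nat_lit 15, nat_lit 14, (.negSucc (nat_lit 2998484351)), (.ofNat (nat_lit 4861826752)), (.negSucc (nat_lit 2998484335)), (.ofNat (nat_lit 4861826736)), (.negSucc (nat_lit 9328630739192537473802)), (.ofNat (nat_lit 0)), (.ofNat (nat_lit 40586729597060460979429270346112))⟩,
    ⟨nat_lit 15, nat_lit 16, (.negSucc (nat_lit 2998484351)), (.negSucc (nat_lit 1544383)), (.negSucc (nat_lit 2998484335)), (.negSucc (nat_lit 1544399)), (.ofNat (nat_lit 9328630739192537473803)), (.ofNat (nat_lit 0)), (.ofNat (nat_lit 34236224070928439609456590848))⟩,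
    ⟨nat_lit 16, nat_lit 11, (.negSucc (nat_lit 1544383)), (.ofNat (nat_lit 1167140672)), (.negSucc (nat_lit 1544367)), (.ofNat (nat_lit 1167140656)), (.negSucc (nat_lit 9328630739192537473802)), (.ofNat (nat_lit 0)), (.ofNat (nat_lit 40591620486213450756516335573376))⟩,
    ⟨nat_lit 0, nat_lit 10, (.negSucc (nat_lit 752892095)), (.ofNat (nat_lit 12423130112)), (.negSucc (nat_lit 752892079)), (.ofNat (nat_lit 12423130096)), (.ofNat (nat_lit 9328630739192537473803)), (.ofNat (nat_lit 0)), (.ofNat (nat_lit 9781778305979554174130454528))⟩,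
    ⟨nat_lit 17, nat_lit 13, (.negSucc (nat_lit 5806211519)), (.negSucc (nat_lit 1334010815)), (.negSucc (nat_lit 5806211503)), (.negSucc (nat_lit 1334010831)), (.negSucc (nat_lit 9328630739192537473802)), (.ofNat (nat_lit 0)), (.ofNat (nat_lit 0))⟩]

theorem ok126 : stOK 17 17 S126 = true := by decide +kernel

def S127 : SD where
  vs := [
    ⟨nat_lit 0, nat_lit 0, nat_lit 16, (.ofNat (nat_lit 8)), (.negSucc (nat_lit 752892095)), (.ofNat (nat_lit 49546244058343877558481349778752)), (.ofNat (nat_lit 0)), (.ofNat (nat_lit 762249908589905808591135774976)), (.negSucc (nat_lit 752892111)), (.negSucc (nat_lit 752892079)), (.negSucc (nat_lit 9474390594492420871830)), (.ofNat (nat_lit 9474390594492420871831)), (.negSucc (nat_lit 9474390594492420871830)), (.ofNat (nat_lit 9474390594492420871831)), (.ofNat (nat_lit 874559131799300388168))⟩,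
    ⟨nat_lit 2, nat_lit 0, nat_lit 1, (.ofNat (nat_lit 8)), (.negSucc (nat_lit 5802279359)), (.ofNat (nat_lit 97386111260335296053232577539136)), (.ofNat (nat_lit 0)), (.ofNat (nat_lit 1498247865543619939278761690368)), (.negSucc (nat_lit 5802279375)), (.negSucc (nat_lit 5802279343)), (.negSucc (nat_lit 9474390594492420871830)), (.ofNat (nat_lit 9474390594492420871831)), (.negSucc (nat_lit 9474390594492420871830)), (.ofNat (nat_lit 9474390594492420871831)), (.ofNat (nat_lit 874559131799300388168))⟩,
    ⟨nat_lit 0, nat_lit 1, nat_lit 2, (.ofNat (nat_lit 8)), (.ofNat (nat_lit 3449370048)), (.ofNat (nat_lit 185039851395031869672594692565184)), (.ofNat (nat_lit 0)), (.ofNat (nat_lit 2846766944538951841113536257792)), (.ofNat (nat_lit 3449370032)), (.ofNat (nat_lit 3449370064)), (.ofNat (nat_lit 9474390594492420871831)), (.negSucc (nat_lit 9474390594492420871830)), (.negSucc (nat_lit 9474390594492420871830)), (.ofNat (nat_lit 9474390594492420871831)), (.ofNat (nat_lit 874559131799300388168))⟩,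
    ⟨nat_lit 0, nat_lit 2, nat_lit 3, (.ofNat (nat_lit 8)), (.ofNat (nat_lit 6676355136)), (.ofNat (nat_lit 154466134228717372590176096309056)), (.ofNat (nat_lit 0)), (.ofNat (nat_lit 2376402065057190347538411651328)), (.ofNat (nat_lit 6676355120)), (.ofNat (nat_lit 6676355152)), (.negSucc (nat_lit 9474390594492420871830)), (.ofNat (nat_lit 9474390594492420871831)), (.negSucc (nat_lit 9474390594492420871830)), (.ofNat (nat_lit 9474390594492420871831)), (.ofNat (nat_lit 874559131799300388168))⟩,
    ⟨nat_lit 1, nat_lit 3, nat_lit 4, (.ofNat (nat_lit 8)), (.ofNat (nat_lit 10639156608)), (.ofNat (nat_lit 192011263222874893113911506444288)), (.ofNat (nat_lit 0)), (.ofNat (nat_lit 2954019434198075278672131948544)), (.ofNat (nat_lit 10639156592)), (.ofNat (nat_lit 10639156624)), (.ofNat (nat_lit 9474390594492420871831)), (.negSucc (nat_lit 9474390594492420871830)), (.negSucc (nat_lit 9474390594492420871830)), (.ofNat (nat_lit 9474390594492420871831)), (.ofNat (nat_lit 874559131799300388168))⟩,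
    ⟨nat_lit 0, nat_lit 5, nat_lit 4, (.ofNat (nat_lit 8)), (.ofNat (nat_lit 6140691200)), (.ofNat (nat_lit 234631481574079603724020461566336)), (.ofNat (nat_lit 0)), (.ofNat (nat_lit 3609715101139686211134585363968)), (.ofNat (nat_lit 6140691184)), (.ofNat (nat_lit 6140691216)), (.ofNat (nat_lit 9474390594492420871831)), (.negSucc (nat_lit 9474390594492420871830)), (.negSucc (nat_lit 9474390594492420871830)), (.ofNat (nat_lit 9474390594492420871831)), (.ofNat (nat_lit 874559131799300388168))⟩,
    ⟨nat_lit 2, nat_lit 6, nat_lit 5, (.ofNat (nat_lit 8)), (.negSucc (nat_lit 6983703231)), (.ofNat (nat_lit 110285842409130105367561099521344)), (.ofNat (nat_lit 0)), (.ofNat (nat_lit 1696705267832770851806662383872)), (.negSucc (nat_lit 6983703247)), (.negSucc (nat_lit 6983703215)), (.negSucc (nat_lit 9474390594492420871830)), (.ofNat (nat_lit 9474390594492420871831)), (.negSucc (nat_lit 9474390594492420871830)), (.ofNat (nat_lit 9474390594492420871831)), (.ofNat (nat_lit 874559131799300388168))⟩,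
    ⟨nat_lit 0, nat_lit 7, nat_lit 8, (.ofNat (nat_lit 8)), (.ofNat (nat_lit 7896892032)), (.ofNat (nat_lit 185444924955443445293860891642880)), (.ofNat (nat_lit 0)), (.ofNat (nat_lit 2853041391591954658294057504640)), (.ofNat (nat_lit 7896892016)), (.ofNat (nat_lit 7896892048)), (.ofNat (nat_lit 9474391324459117087157)), (.negSucc (nat_lit 9474398019581660137503)), (.negSucc (nat_lit 9474398019581660137503)), (.ofNat (nat_lit 9474391324459117087157)), (.ofNat (nat_lit 874576901844563780818))⟩,
    ⟨nat_lit 0, nat_lit 8, nat_lit 9, (.ofNat (nat_lit 8)), (.ofNat (nat_lit 13716472832)), (.ofNat (nat_lit 130307900149127991925517253319680)), (.ofNat (nat_lit 0)), (.ofNat (nat_lit 2004736925371199875774860963840)), (.ofNat (nat_lit 13716472816)), (.ofNat (nat_lit 13716472848)), (.negSucc (nat_lit 9474398019581660137503)), (.ofNat (nat_lit 9474390594492420871831)), (.negSucc (nat_lit 9474398019581660137503)), (.ofNat (nat_lit 9474390594492420871831)), (.ofNat (nat_lit 874588832156257450860))⟩,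
    ⟨nat_lit 1, nat_lit 9, nat_lit 10, (.ofNat (nat_lit 8)), (.ofNat (nat_lit 15395709632)), (.ofNat (nat_lit 146217645492973542374583951900480)), (.ofNat (nat_lit 0)), (.ofNat (nat_lit 2249502238353439113452525994240)), (.ofNat (nat_lit 15395709616)), (.ofNat (nat_lit 15395709648)), (.ofNat (nat_lit 9474390594492420871831)), (.negSucc (nat_lit 9474390594492420871830)), (.negSucc (nat_lit 9474390594492420871830)), (.ofNat (nat_lit 9474390594492420871831)), (.ofNat (nat_lit 874559131799300388168))⟩,
    ⟨nat_lit 0, nat_lit 16, nat_lit 10, (.ofNat (nat_lit 8)), (.ofNat (nat_lit 12423130112)), (.ofNat (nat_lit 174381024938642337453409327401600)), (.ofNat (nat_lit 0)), (.ofNat (nat_lit 2682784999056035960818567180800)), (.ofNat (nat_lit 12423130096)), (.ofNat (nat_lit 12423130128)), (.ofNat (nat_lit 9474390594492420871831)), (.negSucc (nat_lit 9474390594492420871830)), (.negSucc (nat_lit 9474390594492420871830)), (.ofNat (nat_lit 9474390594492420871831)), (.ofNat (nat_lit 874559131799300388168))⟩,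
    ⟨nat_lit 1, nat_lit 11, nat_lit 15, (.ofNat (nat_lit 8)), (.ofNat (nat_lit 1167140672)), (.ofNat (nat_lit 163739993964823503702559737994048)), (.ofNat (nat_lit 0)), (.ofNat (nat_lit 2519076830228053903113378951424)), (.ofNat (nat_lit 1167140656)), (.ofNat (nat_lit 1167140688)), (.ofNat (nat_lit 9474390594492420871831)), (.negSucc (nat_lit 9474390594492420871830)), (.negSucc (nat_lit 9474390594492420871830)), (.ofNat (nat_lit 9474390594492420871831)), (.ofNat (nat_lit 874559131799300388168))⟩,
    ⟨nat_lit 0, nat_lit 6, nat_lit 11, (.ofNat (nat_lit 8)), (.negSucc (nat_lit 5729262271)), (.ofNat (nat_lit 98400778776360062216377382923584)), (.ofNat (nat_lit 0)), (.ofNat (nat_lit 1513858135020924034096355956992)), (.negSucc (nat_lit 5729262287)), (.negSucc (nat_lit 5729262255)), (.negSucc (nat_lit 9474390594492420871830)), (.ofNat (nat_lit 9474390594492420871831)), (.negSucc (nat_lit 9474390594492420871830)), (.ofNat (nat_lit 9474390594492420871831)), (.ofNat (nat_lit 874559131799300388168))⟩,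
    ⟨nat_lit 0, nat_lit 17, nat_lit 12, (.ofNat (nat_lit 8)), (.negSucc (nat_lit 1334010815)), (.ofNat (nat_lit 13244950049452202945210996951744)), (.ofNat (nat_lit 0)), (.ofNat (nat_lit 203768462299264660695317219072)), (.negSucc (nat_lit 1334010831)), (.negSucc (nat_lit 1334010799)), (.negSucc (nat_lit 9474398019941264807967)), (.ofNat (nat_lit 9474390594492420871831)), (.negSucc (nat_lit 9474398019941264807967)), (.ofNat (nat_lit 9474390594492420871831)), (.ofNat (nat_lit 874588833594676132716))⟩,
    ⟨nat_lit 1, nat_lit 12, nat_lit 13, (.ofNat (nat_lit 8)), (.ofNat (nat_lit 4861826752)), (.ofNat (nat_lit 71946735228714198074168819698752)), (.ofNat (nat_lit 0)), (.ofNat (nat_lit 1106872849672526124216696734976)), (.ofNat (nat_lit 4861826736)), (.ofNat (nat_lit 4861826768)), (.ofNat (nat_lit 9474390594492420871831)), (.negSucc (nat_lit 9474390594492420871830)), (.negSucc (nat_lit 9474390594492420871830)), (.ofNat (nat_lit 9474390594492420871831)), (.ofNat (nat_lit 874559131799300388168))⟩,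
    ⟨nat_lit 2, nat_lit 13, nat_lit 14, (.ofNat (nat_lit 8)), (.negSucc (nat_lit 2998484351)), (.ofNat (nat_lit 146418392822236135096863389810176)), (.ofNat (nat_lit 0)), (.ofNat (nat_lit 2252590658803632847641436837888)), (.negSucc (nat_lit 2998484367)), (.negSucc (nat_lit 2998484335)), (.negSucc (nat_lit 9474390594492420871830)), (.ofNat (nat_lit 9474390594492420871831)), (.negSucc (nat_lit 9474390594492420871830)), (.ofNat (nat_lit 9474390594492420871831)), (.ofNat (nat_lit 874559131799300388168))⟩,
    ⟨nat_lit 0, nat_lit 14, nat_lit 15, (.ofNat (nat_lit 8)), (.negSucc (nat_lit 1544383)), (.ofNat (nat_lit 174812572667313751880731119051584)), (.ofNat (nat_lit 0)), (.ofNat (nat_lit 2689424194881750028931202420992)), (.negSucc (nat_lit 1544399)), (.negSucc (nat_lit 1544367)), (.ofNat (nat_lit 9474390594492420871831)), (.negSucc (nat_lit 9474390594492420871830)), (.negSucc (nat_lit 9474390594492420871830)), (.ofNat (nat_lit 9474390594492420871831)), (.ofNat (nat_lit 874559131799300388168))⟩,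
    ⟨nat_lit 2, nat_lit 17, nat_lit 7, (.ofNat (nat_lit 8)), (.negSucc (nat_lit 5806211519)), (.ofNat (nat_lit 55616359544209733458055911361216)), (.ofNat (nat_lit 0)), (.ofNat (nat_lit 855668997883888691652073471232)), (.negSucc (nat_lit 5806211535)), (.negSucc (nat_lit 5806211503)), (.negSucc (nat_lit 9474398019941264807967)), (.ofNat (nat_lit 9474391324459117087157)), (.negSucc (nat_lit 9474398019941264807967)), (.ofNat (nat_lit 9474391324459117087157)), (.ofNat (nat_lit 874590293528068563368))⟩]
  es := [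
    ⟨nat_lit 1, nat_lit 0, (.negSucc (nat_lit 5802279359)), (.negSucc (nat_lit 752892095)), (.negSucc (nat_lit 5802279343)), (.negSucc (nat_lit 752892111)), (.negSucc (nat_lit 9474390594492420871830)), (.negSucc (nat_lit 145759855299883398027)), (.ofNat (nat_lit 652508465620519888494232588288))⟩,
    ⟨nat_lit 1, nat_lit 2, (.negSucc (nat_lit 5802279359)), (.ofNat (nat_lit 3449370048)), (.negSucc (nat_lit 5802279343)), (.ofNat (nat_lit 3449370032)), (.ofNat (nat_lit 9474390594492420871831)), (.ofNat (nat_lit 145759855299883398028)), (.ofNat (nat_lit 2343987265466719990063290792448))⟩,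
    ⟨nat_lit 2, nat_lit 3, (.ofNat (nat_lit 3449370048)), (.ofNat (nat_lit 6676355136)), (.ofNat (nat_lit 3449370064)), (.ofNat (nat_lit 6676355120)), (.negSucc (nat_lit 9474390594492420871830)), (.negSucc (nat_lit 145759855299883398027)), (.ofNat (nat_lit 3349546623611183692163781723136))⟩,
    ⟨nat_lit 3, nat_lit 4, (.ofNat (nat_lit 6676355136)), (.ofNat (nat_lit 10639156608)), (.ofNat (nat_lit 6676355152)), (.ofNat (nat_lit 10639156592)), (.ofNat (nat_lit 9474390594492420871831)), (.ofNat (nat_lit 145759855299883398028)), (.ofNat (nat_lit 1403257506503197002913041579520))⟩,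
    ⟨nat_lit 5, nat_lit 4, (.ofNat (nat_lit 6140691200)), (.ofNat (nat_lit 10639156608)), (.ofNat (nat_lit 6140691216)), (.ofNat (nat_lit 10639156592)), (.negSucc (nat_lit 9474390594492420871830)), (.negSucc (nat_lit 145759855299883398027)), (.ofNat (nat_lit 4504781361892953554431222317568))⟩,
    ⟨nat_lit 6, nat_lit 5, (.negSucc (nat_lit 6983703231)), (.ofNat (nat_lit 6140691200)), (.negSucc (nat_lit 6983703215)), (.ofNat (nat_lit 6140691184)), (.ofNat (nat_lit 9474390594492420871831)), (.ofNat (nat_lit 145759855299883398028)), (.ofNat (nat_lit 2714648840386418867837948410368))⟩,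
    ⟨nat_lit 6, nat_lit 12, (.negSucc (nat_lit 6983703231)), (.negSucc (nat_lit 5729262271)), (.negSucc (nat_lit 6983703215)), (.negSucc (nat_lit 5729262287)), (.negSucc (nat_lit 9474390594492420871830)), (.negSucc (nat_lit 145759855299883398027)), (.ofNat (nat_lit 678761695279122835775376357376))⟩,
    ⟨nat_lit 17, nat_lit 7, (.negSucc (nat_lit 5806211519)), (.ofNat (nat_lit 7896892032)), (.negSucc (nat_lit 5806211503)), (.ofNat (nat_lit 7896892016)), (.ofNat (nat_lit 9474391324459117087157)), (.ofNat (nat_lit 145760585266579613354)), (.ofNat (nat_lit 1701985787220645513705214109312))⟩,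
    ⟨nat_lit 7, nat_lit 8, (.ofNat (nat_lit 7896892032)), (.ofNat (nat_lit 13716472832)), (.ofNat (nat_lit 7896892048)), (.ofNat (nat_lit 13716472816)), (.negSucc (nat_lit 9474398019581660137503)), (.negSucc (nat_lit 145767280389122663700)), (.ofNat (nat_lit 4004149866623127280745100035072))⟩,
    ⟨nat_lit 8, nat_lit 9, (.ofNat (nat_lit 13716472832)), (.ofNat (nat_lit 15395709632)), (.ofNat (nat_lit 13716472848)), (.ofNat (nat_lit 15395709616)), (.ofNat (nat_lit 9474390594492420871831)), (.ofNat (nat_lit 145759855299883398028)), (.ofNat (nat_lit 5425830154098033955956588544))⟩,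
    ⟨nat_lit 10, nat_lit 9, (.ofNat (nat_lit 12423130112)), (.ofNat (nat_lit 15395709632)), (.ofNat (nat_lit 12423130128)), (.ofNat (nat_lit 15395709616)), (.negSucc (nat_lit 9474390594492420871830)), (.negSucc (nat_lit 145759855299883398027)), (.ofNat (nat_lit 4493578646552780192949095399936))⟩,
    ⟨nat_lit 12, nat_lit 11, (.negSucc (nat_lit 5729262271)), (.ofNat (nat_lit 1167140672)), (.negSucc (nat_lit 5729262255)), (.ofNat (nat_lit 1167140656)), (.ofNat (nat_lit 9474390594492420871831)), (.ofNat (nat_lit 145759855299883398028)), (.ofNat (nat_lit 2348954574762725232417335556608))⟩,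
    ⟨nat_lit 13, nat_lit 14, (.negSucc (nat_lit 1334010815)), (.ofNat (nat_lit 4861826752)), (.negSucc (nat_lit 1334010799)), (.ofNat (nat_lit 4861826736)), (.ofNat (nat_lit 9474390594492420871831)), (.ofNat (nat_lit 145759855299883398028)), (.ofNat (nat_lit 398213685807904037203502289920))⟩,
    ⟨nat_lit 15, nat_lit 14, (.negSucc (nat_lit 2998484351)), (.ofNat (nat_lit 4861826752)), (.negSucc (nat_lit 2998484335)), (.ofNat (nat_lit 4861826736)), (.negSucc (nat_lit 9474390594492420871830)), (.negSucc (nat_lit 145759855299883398027)), (.ofNat (nat_lit 1815532013537148211229891180032))⟩,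
    ⟨nat_lit 15, nat_lit 16, (.negSucc (nat_lit 2998484351)), (.negSucc (nat_lit 1544383)), (.negSucc (nat_lit 2998484335)), (.negSucc (nat_lit 1544399)), (.ofNat (nat_lit 9474390594492420871831)), (.ofNat (nat_lit 145759855299883398028)), (.ofNat (nat_lit 2689649304070117484052982495744))⟩,
    ⟨nat_lit 16, nat_lit 11, (.negSucc (nat_lit 1544383)), (.ofNat (nat_lit 1167140672)), (.negSucc (nat_lit 1544367)), (.ofNat (nat_lit 1167140656)), (.negSucc (nat_lit 9474390594492420871830)), (.negSucc (nat_lit 145759855299883398027)), (.ofNat (nat_lit 2689199085693382573809422346240))⟩,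
    ⟨nat_lit 0, nat_lit 10, (.negSucc (nat_lit 752892095)), (.ofNat (nat_lit 12423130112)), (.negSucc (nat_lit 752892079)), (.ofNat (nat_lit 12423130096)), (.ofNat (nat_lit 9474390594492420871831)), (.ofNat (nat_lit 145759855299883398028)), (.ofNat (nat_lit 871991351559291728688038961664))⟩,
    ⟨nat_lit 17, nat_lit 13, (.negSucc (nat_lit 5806211519)), (.negSucc (nat_lit 1334010815)), (.negSucc (nat_lit 5806211503)), (.negSucc (nat_lit 1334010831)), (.negSucc (nat_lit 9474398019941264807967)), (.negSucc (nat_lit 145767280748727334164)), (.ofNat (nat_lit 9313333161553818684360890432))⟩]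

theorem ok127 : stOK 17 17 S127 = true := by decide +kernel

def S128 : SD where
  vs := [
    ⟨nat_lit 0, nat_lit 0, nat_lit 16, (.ofNat (nat_lit 8)), (.negSucc (nat_lit 753154239)), (.ofNat (nat_lit 49553695022287885422012425575744)), (.negSucc (nat_lit 262143)), (.ofNat (nat_lit 7450963944007863531075796992)), (.negSucc (nat_lit 753154255)), (.negSucc (nat_lit 753154223)), (.negSucc (nat_lit 9474390594492420871830)), (.ofNat (nat_lit 9474390594492420871831)), (.negSucc (nat_lit 9474390594492420871830)), (.ofNat (nat_lit 9474390594492420871831)), (.ofNat (nat_lit 0))⟩,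
    ⟨nat_lit 2, nat_lit 0, nat_lit 1, (.ofNat (nat_lit 8)), (.negSucc (nat_lit 5803065791)), (.ofNat (nat_lit 97398529533575309159117703867456)), (.negSucc (nat_lit 786431)), (.ofNat (nat_lit 12418273240013105885126328320)), (.negSucc (nat_lit 5803065807)), (.negSucc (nat_lit 5803065775)), (.negSucc (nat_lit 9474390594492420871830)), (.ofNat (nat_lit 9474390594492420871831)), (.negSucc (nat_lit 9474390594492420871830)), (.ofNat (nat_lit 9474390594492420871831)), (.ofNat (nat_lit 0))⟩,
    ⟨nat_lit 0, nat_lit 1, nat_lit 2, (.ofNat (nat_lit 8)), (.ofNat (nat_lit 3449632192)), (.ofNat (nat_lit 185062204286863893263187919956160)), (.ofNat (nat_lit 262144)), (.ofNat (nat_lit 22352891832023590593227390976)), (.ofNat (nat_lit 3449632176)), (.ofNat (nat_lit 3449632208)), (.ofNat (nat_lit 9474390594492420871831)), (.negSucc (nat_lit 9474390594492420871830)), (.negSucc (nat_lit 9474390594492420871830)), (.ofNat (nat_lit 9474390594492420871831)), (.ofNat (nat_lit 0))⟩,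
    ⟨nat_lit 0, nat_lit 2, nat_lit 3, (.ofNat (nat_lit 8)), (.ofNat (nat_lit 6676879424)), (.ofNat (nat_lit 154486003465901393559592298434368)), (.ofNat (nat_lit 524288)), (.ofNat (nat_lit 19869237184020969416202125312)), (.ofNat (nat_lit 6676879408)), (.ofNat (nat_lit 6676879440)), (.negSucc (nat_lit 9474390594492420871830)), (.ofNat (nat_lit 9474390594492420871831)), (.negSucc (nat_lit 9474390594492420871830)), (.ofNat (nat_lit 9474390594492420871831)), (.ofNat (nat_lit 0))⟩,
    ⟨nat_lit 1, nat_lit 3, nat_lit 4, (.ofNat (nat_lit 8)), (.ofNat (nat_lit 10640467328)), (.ofNat (nat_lit 192038583424002921946858784366592)), (.ofNat (nat_lit 1310720)), (.ofNat (nat_lit 27320201128028832947277922304)), (.ofNat (nat_lit 10640467312)), (.ofNat (nat_lit 10640467344)), (.ofNat (nat_lit 9474390594492420871831)), (.negSucc (nat_lit 9474390594492420871830)), (.negSucc (nat_lit 9474390594492420871830)), (.ofNat (nat_lit 9474390594492420871831)), (.ofNat (nat_lit 0))⟩,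
    ⟨nat_lit 0, nat_lit 5, nat_lit 4, (.ofNat (nat_lit 8)), (.ofNat (nat_lit 3921790144)), (.ofNat (nat_lit 255693955343523346119355112370496)), (.negSucc (nat_lit 2218901055)), (.ofNat (nat_lit 21062473769443742395334650804160)), (.ofNat (nat_lit 3921790128)), (.ofNat (nat_lit 3921790160)), (.ofNat (nat_lit 9474390594492420871831)), (.negSucc (nat_lit 9474390594492420871830)), (.negSucc (nat_lit 9474390594492420871830)), (.ofNat (nat_lit 9474390594492420871831)), (.ofNat (nat_lit 0))⟩,
    ⟨nat_lit 2, nat_lit 6, nat_lit 5, (.ofNat (nat_lit 8)), (.negSucc (nat_lit 9204177151)), (.ofNat (nat_lit 131333414250685832035833598731520)), (.negSucc (nat_lit 2220473919)), (.ofNat (nat_lit 21047571841555726668272499210176)), (.negSucc (nat_lit 9204177167)), (.negSucc (nat_lit 9204177135)), (.negSucc (nat_lit 9474390594492420871830)), (.ofNat (nat_lit 9474390594492420871831)), (.negSucc (nat_lit 9474390594492420871830)), (.ofNat (nat_lit 9474390594492420871831)), (.ofNat (nat_lit 0))⟩,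
    ⟨nat_lit 0, nat_lit 7, nat_lit 8, (.ofNat (nat_lit 8)), (.ofNat (nat_lit 5678253120)), (.ofNat (nat_lit 206494996936917741451839203283968)), (.negSucc (nat_lit 2218638911)), (.ofNat (nat_lit 21050071981474296157978311641088)), (.ofNat (nat_lit 5678253104)), (.ofNat (nat_lit 5678253136)), (.ofNat (nat_lit 9474391324459117087157)), (.negSucc (nat_lit 9474398019581660137503)), (.negSucc (nat_lit 9474398019581660137503)), (.ofNat (nat_lit 9474391324459117087157)), (.ofNat (nat_lit 0))⟩,
    ⟨nat_lit 0, nat_lit 8, nat_lit 9, (.ofNat (nat_lit 8)), (.ofNat (nat_lit 13718045696)), (.ofNat (nat_lit 130322802077016007652579404913664)), (.ofNat (nat_lit 1572864)), (.ofNat (nat_lit 14901927888015727062151593984)), (.ofNat (nat_lit 13718045680)), (.ofNat (nat_lit 13718045712)), (.negSucc (nat_lit 9474398019581660137503)), (.ofNat (nat_lit 9474390594492420871831)), (.negSucc (nat_lit 9474398019581660137503)), (.ofNat (nat_lit 9474390594492420871831)), (.ofNat (nat_lit 0))⟩,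
    ⟨nat_lit 1, nat_lit 9, nat_lit 10, (.ofNat (nat_lit 8)), (.ofNat (nat_lit 15397544640)), (.ofNat (nat_lit 146235031075509560722823128760128)), (.ofNat (nat_lit 1835008)), (.ofNat (nat_lit 17385582536018348239176859648)), (.ofNat (nat_lit 15397544624)), (.ofNat (nat_lit 15397544656)), (.ofNat (nat_lit 9474390594492420871831)), (.negSucc (nat_lit 9474390594492420871830)), (.negSucc (nat_lit 9474390594492420871830)), (.ofNat (nat_lit 9474390594492420871831)), (.ofNat (nat_lit 0))⟩,
    ⟨nat_lit 0, nat_lit 16, nat_lit 10, (.ofNat (nat_lit 8)), (.ofNat (nat_lit 12424440832)), (.ofNat (nat_lit 174403377830474361044002554792576)), (.ofNat (nat_lit 1310720)), (.ofNat (nat_lit 22352891832023590593227390976)), (.ofNat (nat_lit 12424440816)), (.ofNat (nat_lit 12424440848)), (.ofNat (nat_lit 9474390594492420871831)), (.negSucc (nat_lit 9474390594492420871830)), (.negSucc (nat_lit 9474390594492420871830)), (.ofNat (nat_lit 9474390594492420871831)), (.ofNat (nat_lit 0))⟩,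
    ⟨nat_lit 1, nat_lit 11, nat_lit 15, (.ofNat (nat_lit 8)), (.negSucc (nat_lit 1052284671)), (.ofNat (nat_lit 184787565806379230370832237204224)), (.negSucc (nat_lit 2219425343)), (.ofNat (nat_lit 21047571841555726668272499210176)), (.negSucc (nat_lit 1052284687)), (.negSucc (nat_lit 1052284655)), (.ofNat (nat_lit 9474390594492420871831)), (.negSucc (nat_lit 9474390594492420871830)), (.negSucc (nat_lit 9474390594492420871830)), (.ofNat (nat_lit 9474390594492420871831)), (.ofNat (nat_lit 0))⟩,
    ⟨nat_lit 0, nat_lit 6, nat_lit 11, (.ofNat (nat_lit 8)), (.negSucc (nat_lit 7949211903)), (.ofNat (nat_lit 119443383308619783642295831602432)), (.negSucc (nat_lit 2219949631)), (.ofNat (nat_lit 21042604532259721425918448678848)), (.negSucc (nat_lit 7949211919)), (.negSucc (nat_lit 7949211887)), (.negSucc (nat_lit 9474390594492420871830)), (.ofNat (nat_lit 9474390594492420871831)), (.negSucc (nat_lit 9474390594492420871830)), (.ofNat (nat_lit 9474390594492420871831)), (.ofNat (nat_lit 0))⟩,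
    ⟨nat_lit 0, nat_lit 17, nat_lit 12, (.ofNat (nat_lit 8)), (.negSucc (nat_lit 1334272959)), (.ofNat (nat_lit 13247433704100205566388022217408)), (.negSucc (nat_lit 262143)), (.ofNat (nat_lit 2483654648002621177025265664)), (.negSucc (nat_lit 1334272975)), (.negSucc (nat_lit 1334272943)), (.negSucc (nat_lit 9474398019941264807967)), (.ofNat (nat_lit 9474390594492420871831)), (.negSucc (nat_lit 9474398019941264807967)), (.ofNat (nat_lit 9474390594492420871831)), (.ofNat (nat_lit 0))⟩,
    ⟨nat_lit 1, nat_lit 12, nat_lit 13, (.ofNat (nat_lit 8)), (.ofNat (nat_lit 4862351040)), (.ofNat (nat_lit 71956669847306208558876920761408)), (.ofNat (nat_lit 524288)), (.ofNat (nat_lit 9934618592010484708101062656)), (.ofNat (nat_lit 4862351024)), (.ofNat (nat_lit 4862351056)), (.ofNat (nat_lit 9474390594492420871831)), (.negSucc (nat_lit 9474390594492420871830)), (.negSucc (nat_lit 9474390594492420871830)), (.ofNat (nat_lit 9474390594492420871831)), (.ofNat (nat_lit 0))⟩,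
    ⟨nat_lit 2, nat_lit 13, nat_lit 14, (.ofNat (nat_lit 8)), (.negSucc (nat_lit 5218433983)), (.ofNat (nat_lit 167465964663791861765135889020352)), (.negSucc (nat_lit 2219949631)), (.ofNat (nat_lit 21047571841555726668272499210176)), (.negSucc (nat_lit 5218433999)), (.negSucc (nat_lit 5218433967)), (.negSucc (nat_lit 9474390594492420871830)), (.ofNat (nat_lit 9474390594492420871831)), (.negSucc (nat_lit 9474390594492420871830)), (.ofNat (nat_lit 9474390594492420871831)), (.ofNat (nat_lit 0))⟩,
    ⟨nat_lit 0, nat_lit 14, nat_lit 15, (.ofNat (nat_lit 8)), (.negSucc (nat_lit 2221231871)), (.ofNat (nat_lit 195862628163517481170180643527424)), (.negSucc (nat_lit 2219687487)), (.ofNat (nat_lit 21050055496203729289449524475840)), (.negSucc (nat_lit 2221231887)), (.negSucc (nat_lit 2221231855)), (.ofNat (nat_lit 9474390594492420871831)), (.negSucc (nat_lit 9474390594492420871830)), (.negSucc (nat_lit 9474390594492420871830)), (.ofNat (nat_lit 9474390594492420871831)), (.ofNat (nat_lit 0))⟩,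
    ⟨nat_lit 2, nat_lit 17, nat_lit 7, (.ofNat (nat_lit 8)), (.negSucc (nat_lit 8026423295)), (.ofNat (nat_lit 76651529596647875551296048894656)), (.negSucc (nat_lit 2220211775)), (.ofNat (nat_lit 21035170052438142093240137533440)), (.negSucc (nat_lit 8026423311)), (.negSucc (nat_lit 8026423279)), (.negSucc (nat_lit 9474398019941264807967)), (.ofNat (nat_lit 9474391324459117087157)), (.negSucc (nat_lit 9474398019941264807967)), (.ofNat (nat_lit 9474391324459117087157)), (.ofNat (nat_lit 0))⟩]
  es := [
    ⟨nat_lit 1, nat_lit 0, (.negSucc (nat_lit 5803065791)), (.negSucc (nat_lit 753154239)), (.negSucc (nat_lit 5803065775)), (.negSucc (nat_lit 753154255)), (.negSucc (nat_lit 9474390594492420871830)), (.ofNat (nat_lit 0)), (.ofNat (nat_lit 4967309296005242354050531328))⟩,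
    ⟨nat_lit 1, nat_lit 2, (.negSucc (nat_lit 5803065791)), (.ofNat (nat_lit 3449632192)), (.negSucc (nat_lit 5803065775)), (.ofNat (nat_lit 3449632176)), (.ofNat (nat_lit 9474390594492420871831)), (.ofNat (nat_lit 0)), (.ofNat (nat_lit 19869237184020969416202125312))⟩,
    ⟨nat_lit 2, nat_lit 3, (.ofNat (nat_lit 3449632192)), (.ofNat (nat_lit 6676879424)), (.ofNat (nat_lit 3449632208)), (.ofNat (nat_lit 6676879408)), (.negSucc (nat_lit 9474390594492420871830)), (.ofNat (nat_lit 0)), (.ofNat (nat_lit 24836546480026211770252656640))⟩,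
    ⟨nat_lit 3, nat_lit 4, (.ofNat (nat_lit 6676879424)), (.ofNat (nat_lit 10640467328)), (.ofNat (nat_lit 6676879440)), (.ofNat (nat_lit 10640467312)), (.ofNat (nat_lit 9474390594492420871831)), (.ofNat (nat_lit 0)), (.ofNat (nat_lit 14901927888015727062151593984))⟩,
    ⟨nat_lit 5, nat_lit 4, (.ofNat (nat_lit 3921790144)), (.ofNat (nat_lit 10640467328)), (.ofNat (nat_lit 3921790160)), (.ofNat (nat_lit 10640467312)), (.negSucc (nat_lit 9474390594492420871830)), (.ofNat (nat_lit 0)), (.ofNat (nat_lit 39738474368041938832404250624))⟩,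
    ⟨nat_lit 6, nat_lit 5, (.negSucc (nat_lit 9204177151)), (.ofNat (nat_lit 3921790144)), (.negSucc (nat_lit 9204177135)), (.ofNat (nat_lit 3921790128)), (.ofNat (nat_lit 9474390594492420871831)), (.ofNat (nat_lit 0)), (.ofNat (nat_lit 42085209064519442851836897357696))⟩,
    ⟨nat_lit 6, nat_lit 12, (.negSucc (nat_lit 9204177151)), (.negSucc (nat_lit 7949211903)), (.negSucc (nat_lit 9204177135)), (.negSucc (nat_lit 7949211919)), (.negSucc (nat_lit 9474390594492420871830)), (.ofNat (nat_lit 0)), (.ofNat (nat_lit 9934618592010484708101062656))⟩,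
    ⟨nat_lit 17, nat_lit 7, (.negSucc (nat_lit 8026423295)), (.ofNat (nat_lit 5678253120)), (.negSucc (nat_lit 8026423279)), (.ofNat (nat_lit 5678253104)), (.ofNat (nat_lit 9474391324459117087157)), (.ofNat (nat_lit 0)), (.ofNat (nat_lit 42070325241434510680708927294272))⟩,
    ⟨nat_lit 7, nat_lit 8, (.ofNat (nat_lit 5678253120)), (.ofNat (nat_lit 13718045696)), (.ofNat (nat_lit 5678253136)), (.ofNat (nat_lit 13718045680)), (.negSucc (nat_lit 9474398019581660137503)), (.ofNat (nat_lit 0)), (.ofNat (nat_lit 29803867454687015352666685440))⟩,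
    ⟨nat_lit 8, nat_lit 9, (.ofNat (nat_lit 13718045696)), (.ofNat (nat_lit 15397544640)), (.ofNat (nat_lit 13718045712)), (.ofNat (nat_lit 15397544624)), (.ofNat (nat_lit 9474390594492420871831)), (.ofNat (nat_lit 0)), (.ofNat (nat_lit 0))⟩,
    ⟨nat_lit 10, nat_lit 9, (.ofNat (nat_lit 12424440832)), (.ofNat (nat_lit 15397544640)), (.ofNat (nat_lit 12424440848)), (.ofNat (nat_lit 15397544624)), (.negSucc (nat_lit 9474390594492420871830)), (.ofNat (nat_lit 0)), (.ofNat (nat_lit 34771165072036696478353719296))⟩,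
    ⟨nat_lit 12, nat_lit 11, (.negSucc (nat_lit 7949211903)), (.negSucc (nat_lit 1052284671)), (.negSucc (nat_lit 7949211887)), (.negSucc (nat_lit 1052284687)), (.ofNat (nat_lit 9474390594492420871831)), (.ofNat (nat_lit 0)), (.ofNat (nat_lit 42075274445927432367128796295040))⟩,
    ⟨nat_lit 13, nat_lit 14, (.negSucc (nat_lit 1334272959)), (.ofNat (nat_lit 4862351040)), (.negSucc (nat_lit 1334272943)), (.ofNat (nat_lit 4862351024)), (.ofNat (nat_lit 9474390594492420871831)), (.ofNat (nat_lit 0)), (.ofNat (nat_lit 4967309296005242354050531328))⟩,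
    ⟨nat_lit 15, nat_lit 14, (.negSucc (nat_lit 5218433983)), (.ofNat (nat_lit 4862351040)), (.negSucc (nat_lit 5218433967)), (.ofNat (nat_lit 4862351024)), (.negSucc (nat_lit 9474390594492420871830)), (.ofNat (nat_lit 0)), (.ofNat (nat_lit 14901927888015727062151593984))⟩,
    ⟨nat_lit 15, nat_lit 16, (.negSucc (nat_lit 5218433983)), (.negSucc (nat_lit 2221231871)), (.negSucc (nat_lit 5218433967)), (.negSucc (nat_lit 2221231887)), (.ofNat (nat_lit 9474390594492420871831)), (.ofNat (nat_lit 0)), (.ofNat (nat_lit 42080241755223437609482846826368))⟩,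
    ⟨nat_lit 16, nat_lit 11, (.negSucc (nat_lit 2221231871)), (.negSucc (nat_lit 1052284671)), (.negSucc (nat_lit 2221231855)), (.negSucc (nat_lit 1052284687)), (.negSucc (nat_lit 9474390594492420871830)), (.ofNat (nat_lit 0)), (.ofNat (nat_lit 19869237184020969416202125312))⟩,
    ⟨nat_lit 0, nat_lit 10, (.negSucc (nat_lit 753154239)), (.ofNat (nat_lit 12424440832)), (.negSucc (nat_lit 753154223)), (.ofNat (nat_lit 12424440816)), (.ofNat (nat_lit 9474390594492420871831)), (.ofNat (nat_lit 0)), (.ofNat (nat_lit 9934618592010484708101062656))⟩,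
    ⟨nat_lit 17, nat_lit 13, (.negSucc (nat_lit 8026423295)), (.negSucc (nat_lit 1334272959)), (.negSucc (nat_lit 8026423279)), (.negSucc (nat_lit 1334272975)), (.negSucc (nat_lit 9474398019941264807967)), (.ofNat (nat_lit 0)), (.negSucc (nat_lit 1946536861744794697727))⟩]

theorem ok128 : stOK 17 17 S128 = true := by decide +kernel

def S129 : SD where
  vs := [
    ⟨nat_lit 0, nat_lit 0, nat_lit 16, (.ofNat (nat_lit 8)), (.negSucc (nat_lit 753154239)), (.ofNat (nat_lit 50327971507011133631729490094272)), (.ofNat (nat_lit 0)), (.ofNat (nat_lit 774276484723248209717064518528)), (.negSucc (nat_lit 753154255)), (.negSucc (nat_lit 753154223)), (.negSucc (nat_lit 9622427947531364947952)), (.ofNat (nat_lit 9622427947531364947953)), (.negSucc (nat_lit 9622427947531364947952)), (.ofNat (nat_lit 9622427947531364947953)), (.ofNat (nat_lit 888224118233664456732))⟩,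
    ⟨nat_lit 2, nat_lit 0, nat_lit 1, (.ofNat (nat_lit 8)), (.negSucc (nat_lit 5803065791)), (.ofNat (nat_lit 98920381557537423364725223547328)), (.ofNat (nat_lit 0)), (.ofNat (nat_lit 1521852023962114205607519679872)), (.negSucc (nat_lit 5803065807)), (.negSucc (nat_lit 5803065775)), (.negSucc (nat_lit 9622427947531364947952)), (.ofNat (nat_lit 9622427947531364947953)), (.negSucc (nat_lit 9622427947531364947952)), (.ofNat (nat_lit 9622427947531364947953)), (.ofNat (nat_lit 888224118233664456732))⟩,
    ⟨nat_lit 0, nat_lit 1, nat_lit 2, (.ofNat (nat_lit 8)), (.ofNat (nat_lit 3449632192)), (.ofNat (nat_lit 187953801228846141595418211574080)), (.ofNat (nat_lit 0)), (.ofNat (nat_lit 2891596941982248332230291617920)), (.ofNat (nat_lit 3449632176)), (.ofNat (nat_lit 3449632208)), (.ofNat (nat_lit 9622427947531364947953)), (.negSucc (nat_lit 9622427947531364947952)), (.negSucc (nat_lit 9622427947531364947952)), (.ofNat (nat_lit 9622427947531364947953)), (.ofNat (nat_lit 888224118233664456732))⟩,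
    ⟨nat_lit 0, nat_lit 2, nat_lit 3, (.ofNat (nat_lit 8)), (.ofNat (nat_lit 6676879424)), (.ofNat (nat_lit 156899847270056102833955068257984)), (.ofNat (nat_lit 0)), (.ofNat (nat_lit 2413843804154709274362769823616)), (.ofNat (nat_lit 6676879408)), (.ofNat (nat_lit 6676879440)), (.negSucc (nat_lit 9622427947531364947952)), (.ofNat (nat_lit 9622427947531364947953)), (.negSucc (nat_lit 9622427947531364947952)), (.ofNat (nat_lit 9622427947531364947953)), (.ofNat (nat_lit 888224118233664456732))⟩,
    ⟨nat_lit 1, nat_lit 3, nat_lit 4, (.ofNat (nat_lit 8)), (.ofNat (nat_lit 10640467328)), (.ofNat (nat_lit 195039186290002967602271168618496)), (.ofNat (nat_lit 0)), (.ofNat (nat_lit 3000602866000045655412384251904)), (.ofNat (nat_lit 10640467312)), (.ofNat (nat_lit 10640467344)), (.ofNat (nat_lit 9622427947531364947953)), (.negSucc (nat_lit 9622427947531364947952)), (.negSucc (nat_lit 9622427947531364947952)), (.ofNat (nat_lit 9622427947531364947953)), (.ofNat (nat_lit 888224118233664456732))⟩,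
    ⟨nat_lit 0, nat_lit 5, nat_lit 4, (.ofNat (nat_lit 8)), (.ofNat (nat_lit 3921790144)), (.ofNat (nat_lit 259689173395765898402460337222848)), (.ofNat (nat_lit 0)), (.ofNat (nat_lit 3995218052242552283105224852352)), (.ofNat (nat_lit 3921790128)), (.ofNat (nat_lit 3921790160)), (.ofNat (nat_lit 9622427947531364947953)), (.negSucc (nat_lit 9622427947531364947952)), (.negSucc (nat_lit 9622427947531364947952)), (.ofNat (nat_lit 9622427947531364947953)), (.ofNat (nat_lit 888224118233664456732))⟩,
    ⟨nat_lit 2, nat_lit 6, nat_lit 5, (.ofNat (nat_lit 8)), (.negSucc (nat_lit 9204177151)), (.ofNat (nat_lit 133385498848352798161388517077760)), (.ofNat (nat_lit 0)), (.ofNat (nat_lit 2052084597666966125554918346240)), (.negSucc (nat_lit 9204177167)), (.negSucc (nat_lit 9204177135)), (.negSucc (nat_lit 9622427947531364947952)), (.ofNat (nat_lit 9622427947531364947953)), (.negSucc (nat_lit 9622427947531364947952)), (.ofNat (nat_lit 9622427947531364947953)), (.ofNat (nat_lit 888224118233664456732))⟩,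
    ⟨nat_lit 0, nat_lit 7, nat_lit 8, (.ofNat (nat_lit 8)), (.ofNat (nat_lit 5678253120)), (.ofNat (nat_lit 209721420635126968207845170612160)), (.ofNat (nat_lit 0)), (.ofNat (nat_lit 3226423698209226756005967328192)), (.ofNat (nat_lit 5678253104)), (.ofNat (nat_lit 5678253136)), (.ofNat (nat_lit 9622427947531364947953)), (.negSucc (nat_lit 9622427947531364947952)), (.negSucc (nat_lit 9622427947531364947952)), (.ofNat (nat_lit 9622427947531364947953)), (.ofNat (nat_lit 888206348188401064082))⟩,
    ⟨nat_lit 0, nat_lit 8, nat_lit 9, (.ofNat (nat_lit 8)), (.ofNat (nat_lit 13718045696)), (.ofNat (nat_lit 132359095859469382772146014815232)), (.ofNat (nat_lit 0)), (.ofNat (nat_lit 2036293782453375119566609901568)), (.ofNat (nat_lit 13718045680)), (.ofNat (nat_lit 13718045712)), (.negSucc (nat_lit 9622427947531364947952)), (.ofNat (nat_lit 9622427947531364947953)), (.negSucc (nat_lit 9622427947531364947952)), (.ofNat (nat_lit 9622427947531364947953)), (.ofNat (nat_lit 888194417876707394040))⟩,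
    ⟨nat_lit 1, nat_lit 9, nat_lit 10, (.ofNat (nat_lit 8)), (.ofNat (nat_lit 15397544640)), (.ofNat (nat_lit 148519953436064397609111693276864)), (.ofNat (nat_lit 0)), (.ofNat (nat_lit 2284922360554836886288564516736)), (.ofNat (nat_lit 15397544624)), (.ofNat (nat_lit 15397544656)), (.ofNat (nat_lit 9622427947531364947953)), (.negSucc (nat_lit 9622427947531364947952)), (.negSucc (nat_lit 9622427947531364947952)), (.ofNat (nat_lit 9622427947531364947953)), (.ofNat (nat_lit 888224118233664456732))⟩,
    ⟨nat_lit 0, nat_lit 16, nat_lit 10, (.ofNat (nat_lit 8)), (.ofNat (nat_lit 12424440832)), (.ofNat (nat_lit 177128430609075522935308479381888)), (.ofNat (nat_lit 0)), (.ofNat (nat_lit 2725052778601161891305924589312)), (.ofNat (nat_lit 12424440816)), (.ofNat (nat_lit 12424440848)), (.ofNat (nat_lit 9622427947531364947953)), (.negSucc (nat_lit 9622427947531364947952)), (.negSucc (nat_lit 9622427947531364947952)), (.ofNat (nat_lit 9622427947531364947953)), (.ofNat (nat_lit 888224118233664456732))⟩,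
    ⟨nat_lit 1, nat_lit 11, nat_lit 15, (.ofNat (nat_lit 8)), (.negSucc (nat_lit 1052284671)), (.ofNat (nat_lit 187674871522103905845369481696512)), (.ofNat (nat_lit 0)), (.ofNat (nat_lit 2887305715724675474537244492288)), (.negSucc (nat_lit 1052284687)), (.negSucc (nat_lit 1052284655)), (.ofNat (nat_lit 9622427947531364947953)), (.negSucc (nat_lit 9622427947531364947952)), (.negSucc (nat_lit 9622427947531364947952)), (.ofNat (nat_lit 9622427947531364947953)), (.ofNat (nat_lit 888224118233664456732))⟩,
    ⟨nat_lit 0, nat_lit 6, nat_lit 11, (.ofNat (nat_lit 8)), (.negSucc (nat_lit 7949211903)), (.ofNat (nat_lit 121309686172816967761702173340416)), (.ofNat (nat_lit 0)), (.ofNat (nat_lit 1866302864197184119406341737984)), (.negSucc (nat_lit 7949211919)), (.negSucc (nat_lit 7949211887)), (.negSucc (nat_lit 9622427947531364947952)), (.ofNat (nat_lit 9622427947531364947953)), (.negSucc (nat_lit 9622427947531364947952)), (.ofNat (nat_lit 9622427947531364947953)), (.ofNat (nat_lit 888224118233664456732))⟩,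
    ⟨nat_lit 0, nat_lit 17, nat_lit 12, (.ofNat (nat_lit 8)), (.negSucc (nat_lit 1334272959)), (.ofNat (nat_lit 13454424855726771278362332573504)), (.ofNat (nat_lit 0)), (.ofNat (nat_lit 206991151626565711974310356096)), (.negSucc (nat_lit 1334272975)), (.negSucc (nat_lit 1334272943)), (.negSucc (nat_lit 9622427947531364947952)), (.ofNat (nat_lit 9622427947531364947953)), (.negSucc (nat_lit 9622427947531364947952)), (.ofNat (nat_lit 9622427947531364947953)), (.ofNat (nat_lit 888194416438288712184))⟩,
    ⟨nat_lit 1, nat_lit 12, nat_lit 13, (.ofNat (nat_lit 8)), (.ofNat (nat_lit 4862351040)), (.ofNat (nat_lit 73080992813670368067606643245504)), (.ofNat (nat_lit 0)), (.ofNat (nat_lit 1124322966364159508729722484096)), (.ofNat (nat_lit 4862351024)), (.ofNat (nat_lit 4862351056)), (.ofNat (nat_lit 9622427947531364947953)), (.negSucc (nat_lit 9622427947531364947952)), (.negSucc (nat_lit 9622427947531364947952)), (.ofNat (nat_lit 9622427947531364947953)), (.ofNat (nat_lit 888224118233664456732))⟩,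
    ⟨nat_lit 2, nat_lit 13, nat_lit 14, (.ofNat (nat_lit 8)), (.negSucc (nat_lit 5218433983)), (.ofNat (nat_lit 170082620361663609605209785101376)), (.ofNat (nat_lit 0)), (.ofNat (nat_lit 2616655697871747840073896081024)), (.negSucc (nat_lit 5218433999)), (.negSucc (nat_lit 5218433967)), (.negSucc (nat_lit 9622427947531364947952)), (.ofNat (nat_lit 9622427947531364947953)), (.negSucc (nat_lit 9622427947531364947952)), (.ofNat (nat_lit 9622427947531364947953)), (.ofNat (nat_lit 888224118233664456732))⟩,
    ⟨nat_lit 0, nat_lit 14, nat_lit 15, (.ofNat (nat_lit 8)), (.negSucc (nat_lit 2221231871)), (.ofNat (nat_lit 198922981728572441813457286778112)), (.ofNat (nat_lit 0)), (.ofNat (nat_lit 3060353565054960643276643250688)), (.negSucc (nat_lit 2221231887)), (.negSucc (nat_lit 2221231855)), (.ofNat (nat_lit 9622427947531364947953)), (.negSucc (nat_lit 9622427947531364947952)), (.negSucc (nat_lit 9622427947531364947952)), (.ofNat (nat_lit 9622427947531364947953)), (.ofNat (nat_lit 888224118233664456732))⟩,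
    ⟨nat_lit 2, nat_lit 17, nat_lit 7, (.ofNat (nat_lit 8)), (.negSucc (nat_lit 8026423295)), (.ofNat (nat_lit 77849159277934585585344624035712)), (.ofNat (nat_lit 0)), (.ofNat (nat_lit 1197629681286710034048575141056)), (.negSucc (nat_lit 8026423311)), (.negSucc (nat_lit 8026423279)), (.negSucc (nat_lit 9622427947531364947952)), (.ofNat (nat_lit 9622427947531364947953)), (.negSucc (nat_lit 9622427947531364947952)), (.ofNat (nat_lit 9622427947531364947953)), (.ofNat (nat_lit 888192956504896281532))⟩]
  es := [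
    ⟨nat_lit 1, nat_lit 0, (.negSucc (nat_lit 5803065791)), (.negSucc (nat_lit 753154239)), (.negSucc (nat_lit 5803065775)), (.negSucc (nat_lit 753154255)), (.negSucc (nat_lit 9622427947531364947952)), (.negSucc (nat_lit 148037353038944076121)), (.ofNat (nat_lit 662781524603590593662897461248))⟩,
    ⟨nat_lit 1, nat_lit 2, (.negSucc (nat_lit 5803065791)), (.ofNat (nat_lit 3449632192)), (.negSucc (nat_lit 5803065775)), (.ofNat (nat_lit 3449632176)), (.ofNat (nat_lit 9622427947531364947953)), (.ofNat (nat_lit 148037353038944076122)), (.ofNat (nat_lit 2380922523320637817552141898496))⟩,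
    ⟨nat_lit 2, nat_lit 3, (.ofNat (nat_lit 3449632192)), (.ofNat (nat_lit 6676879424)), (.ofNat (nat_lit 3449632208)), (.ofNat (nat_lit 6676879408)), (.negSucc (nat_lit 9622427947531364947952)), (.negSucc (nat_lit 148037353038944076121)), (.ofNat (nat_lit 3402271360643858846908441337344))⟩,
    ⟨nat_lit 3, nat_lit 4, (.ofNat (nat_lit 6676879424)), (.ofNat (nat_lit 10640467328)), (.ofNat (nat_lit 6676879440)), (.ofNat (nat_lit 10640467312)), (.ofNat (nat_lit 9622427947531364947953)), (.ofNat (nat_lit 148037353038944076122)), (.ofNat (nat_lit 1425416247665559701817098309888))⟩,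
    ⟨nat_lit 5, nat_lit 4, (.ofNat (nat_lit 3921790144)), (.ofNat (nat_lit 10640467328)), (.ofNat (nat_lit 3921790160)), (.ofNat (nat_lit 10640467312)), (.negSucc (nat_lit 9622427947531364947952)), (.negSucc (nat_lit 148037353038944076121)), (.ofNat (nat_lit 4575789484334531609007670193920))⟩,
    ⟨nat_lit 6, nat_lit 5, (.negSucc (nat_lit 9204177151)), (.ofNat (nat_lit 3921790144)), (.negSucc (nat_lit 9204177135)), (.ofNat (nat_lit 3921790128)), (.ofNat (nat_lit 9622427947531364947953)), (.ofNat (nat_lit 148037353038944076122)), (.ofNat (nat_lit 3414646620150572957202779510784))⟩,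
    ⟨nat_lit 6, nat_lit 12, (.negSucc (nat_lit 9204177151)), (.negSucc (nat_lit 7949211903)), (.negSucc (nat_lit 9204177135)), (.negSucc (nat_lit 7949211919)), (.negSucc (nat_lit 9622427947531364947952)), (.negSucc (nat_lit 148037353038944076121)), (.ofNat (nat_lit 689522575183359293907057181696))⟩,
    ⟨nat_lit 17, nat_lit 7, (.negSucc (nat_lit 8026423295)), (.ofNat (nat_lit 5678253120)), (.negSucc (nat_lit 8026423279)), (.ofNat (nat_lit 5678253104)), (.ofNat (nat_lit 9622427947531364947953)), (.ofNat (nat_lit 148036623072247860796)), (.ofNat (nat_lit 2385834281374971355027754644672))⟩,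
    ⟨nat_lit 7, nat_lit 8, (.ofNat (nat_lit 5678253120)), (.ofNat (nat_lit 13718045696)), (.ofNat (nat_lit 5678253136)), (.ofNat (nat_lit 13718045680)), (.negSucc (nat_lit 9622427947531364947952)), (.negSucc (nat_lit 148029927949704810448)), (.ofNat (nat_lit 4066975098443013299017010179072))⟩,
    ⟨nat_lit 8, nat_lit 9, (.ofNat (nat_lit 13718045696)), (.ofNat (nat_lit 15397544640)), (.ofNat (nat_lit 13718045712)), (.ofNat (nat_lit 15397544624)), (.ofNat (nat_lit 9622427947531364947953)), (.ofNat (nat_lit 148037353038944076122)), (.ofNat (nat_lit 5510608750255815736511430656))⟩,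
    ⟨nat_lit 10, nat_lit 9, (.ofNat (nat_lit 12424440832)), (.ofNat (nat_lit 15397544640)), (.ofNat (nat_lit 12424440848)), (.ofNat (nat_lit 15397544624)), (.negSucc (nat_lit 9622427947531364947952)), (.negSucc (nat_lit 148037353038944076121)), (.ofNat (nat_lit 4564334112359417956840617602816))⟩,
    ⟨nat_lit 12, nat_lit 11, (.negSucc (nat_lit 7949211903)), (.negSucc (nat_lit 1052284671)), (.negSucc (nat_lit 7949211887)), (.negSucc (nat_lit 1052284687)), (.ofNat (nat_lit 9622427947531364947953)), (.ofNat (nat_lit 148037353038944076122)), (.ofNat (nat_lit 3043083153211008944905626294272))⟩,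
    ⟨nat_lit 13, nat_lit 14, (.negSucc (nat_lit 1334272959)), (.ofNat (nat_lit 4862351040)), (.negSucc (nat_lit 1334272943)), (.ofNat (nat_lit 4862351024)), (.ofNat (nat_lit 9622427947531364947953)), (.ofNat (nat_lit 148037353038944076122)), (.ofNat (nat_lit 404513388856402619696076617216))⟩,
    ⟨nat_lit 15, nat_lit 14, (.negSucc (nat_lit 5218433983)), (.ofNat (nat_lit 4862351040)), (.negSucc (nat_lit 5218433967)), (.ofNat (nat_lit 4862351024)), (.negSucc (nat_lit 9622427947531364947952)), (.negSucc (nat_lit 148037353038944076121)), (.ofNat (nat_lit 1844132543871916397763368350976))⟩,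
    ⟨nat_lit 15, nat_lit 16, (.negSucc (nat_lit 5218433983)), (.negSucc (nat_lit 2221231871)), (.negSucc (nat_lit 5218433967)), (.negSucc (nat_lit 2221231887)), (.ofNat (nat_lit 9622427947531364947953)), (.ofNat (nat_lit 148037353038944076122)), (.ofNat (nat_lit 3389178851871579282384423811072))⟩,
    ⟨nat_lit 16, nat_lit 11, (.negSucc (nat_lit 2221231871)), (.negSucc (nat_lit 1052284671)), (.negSucc (nat_lit 2221231855)), (.negSucc (nat_lit 1052284687)), (.negSucc (nat_lit 9622427947531364947952)), (.negSucc (nat_lit 148037353038944076121)), (.ofNat (nat_lit 2731528278238342004168862690304))⟩,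
    ⟨nat_lit 0, nat_lit 10, (.negSucc (nat_lit 753154239)), (.ofNat (nat_lit 12424440832)), (.negSucc (nat_lit 753154223)), (.ofNat (nat_lit 12424440816)), (.ofNat (nat_lit 9622427947531364947953)), (.ofNat (nat_lit 148037353038944076122)), (.ofNat (nat_lit 885771444842905825771231575808))⟩,
    ⟨nat_lit 17, nat_lit 13, (.negSucc (nat_lit 8026423295)), (.negSucc (nat_lit 1334272959)), (.negSucc (nat_lit 8026423279)), (.negSucc (nat_lit 1334272975)), (.negSucc (nat_lit 9622427947531364947952)), (.negSucc (nat_lit 148029927590100139984)), (.ofNat (nat_lit 9478821972337131500110050496))⟩]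

theorem ok129 : stOK 17 17 S129 = true := by decide +kernel

def S130 : SD where
  vs := [
    ⟨nat_lit 0, nat_lit 0, nat_lit 16, (.ofNat (nat_lit 8)), (.negSucc (nat_lit 753416383)), (.ofNat (nat_lit 50335538892266766618128238667968)), (.negSucc (nat_lit 262143)), (.ofNat (nat_lit 7567385255632986398748573696)), (.negSucc (nat_lit 753416399)), (.negSucc (nat_lit 753416367)), (.negSucc (nat_lit 9622427947531364947952)), (.ofNat (nat_lit 9622427947531364947953)), (.negSucc (nat_lit 9622427947531364947952)), (.ofNat (nat_lit 9622427947531364947953)), (.ofNat (nat_lit 0))⟩,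
    ⟨nat_lit 2, nat_lit 0, nat_lit 1, (.ofNat (nat_lit 8)), (.negSucc (nat_lit 5803590079)), (.ofNat (nat_lit 98930471404544934013256888312256)), (.negSucc (nat_lit 524287)), (.ofNat (nat_lit 10089847007510648531664764928)), (.negSucc (nat_lit 5803590095)), (.negSucc (nat_lit 5803590063)), (.negSucc (nat_lit 9622427947531364947952)), (.ofNat (nat_lit 9622427947531364947953)), (.negSucc (nat_lit 9622427947531364947952)), (.ofNat (nat_lit 9622427947531364947953)), (.ofNat (nat_lit 0))⟩,
    ⟨nat_lit 0, nat_lit 1, nat_lit 2, (.ofNat (nat_lit 8)), (.ofNat (nat_lit 3450156480)), (.ofNat (nat_lit 187973980922861162892481541103936)), (.ofNat (nat_lit 524288)), (.ofNat (nat_lit 20179694015021297063329529856)), (.ofNat (nat_lit 3450156464)), (.ofNat (nat_lit 3450156496)), (.ofNat (nat_lit 9622427947531364947953)), (.negSucc (nat_lit 9622427947531364947952)), (.negSucc (nat_lit 9622427947531364947952)), (.ofNat (nat_lit 9622427947531364947953)), (.ofNat (nat_lit 0))⟩,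
    ⟨nat_lit 0, nat_lit 2, nat_lit 3, (.ofNat (nat_lit 8)), (.ofNat (nat_lit 3450156544)), (.ofNat (nat_lit 187973980307025774250474184434944)), (.negSucc (nat_lit 3226722879)), (.ofNat (nat_lit 31074133036969671416519116176960)), (.ofNat (nat_lit 3450156528)), (.ofNat (nat_lit 3450156560)), (.negSucc (nat_lit 9622427947531364947952)), (.ofNat (nat_lit 9622427947531364947953)), (.negSucc (nat_lit 9622427947531364947952)), (.ofNat (nat_lit 9622427947531364947953)), (.ofNat (nat_lit 0))⟩,
    ⟨nat_lit 1, nat_lit 3, nat_lit 4, (.ofNat (nat_lit 8)), (.ofNat (nat_lit 7414530880)), (.ofNat (nat_lit 226120886712228272005189033369152)), (.negSucc (nat_lit 3225936447)), (.ofNat (nat_lit 31081700422225304402917864750656)), (.ofNat (nat_lit 7414530864)), (.ofNat (nat_lit 7414530896)), (.ofNat (nat_lit 9622427947531364947953)), (.negSucc (nat_lit 9622427947531364947952)), (.negSucc (nat_lit 9622427947531364947952)), (.ofNat (nat_lit 9622427947531364947953)), (.ofNat (nat_lit 0))⟩,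
    ⟨nat_lit 0, nat_lit 5, nat_lit 4, (.ofNat (nat_lit 8)), (.ofNat (nat_lit 694805120)), (.ofNat (nat_lit 290780963664998713453909866738432)), (.negSucc (nat_lit 3226985023)), (.ofNat (nat_lit 31091790269232815051449529515584)), (.ofNat (nat_lit 694805104)), (.ofNat (nat_lit 694805136)), (.ofNat (nat_lit 9622427947531364947953)), (.negSucc (nat_lit 9622427947531364947952)), (.negSucc (nat_lit 9622427947531364947952)), (.ofNat (nat_lit 9622427947531364947953)), (.ofNat (nat_lit 0))⟩,
    ⟨nat_lit 2, nat_lit 6, nat_lit 5, (.ofNat (nat_lit 8)), (.negSucc (nat_lit 12432735039)), (.ofNat (nat_lit 164462154347074347240040549445952)), (.negSucc (nat_lit 3228557887)), (.ofNat (nat_lit 31076655498721549078652032368192)), (.negSucc (nat_lit 12432735055)), (.negSucc (nat_lit 12432735023)), (.negSucc (nat_lit 9622427947531364947952)), (.ofNat (nat_lit 9622427947531364947953)), (.negSucc (nat_lit 9622427947531364947952)), (.ofNat (nat_lit 9622427947531364947953)), (.ofNat (nat_lit 0))⟩,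
    ⟨nat_lit 0, nat_lit 7, nat_lit 8, (.ofNat (nat_lit 8)), (.ofNat (nat_lit 2451530240)), (.ofNat (nat_lit 240800598595600394948630119171584)), (.negSucc (nat_lit 3226722879)), (.ofNat (nat_lit 31079177960473426740784948559424)), (.ofNat (nat_lit 2451530224)), (.ofNat (nat_lit 2451530256)), (.ofNat (nat_lit 9622427947531364947953)), (.negSucc (nat_lit 9622427947531364947952)), (.negSucc (nat_lit 9622427947531364947952)), (.ofNat (nat_lit 9622427947531364947953)), (.ofNat (nat_lit 0))⟩,
    ⟨nat_lit 0, nat_lit 8, nat_lit 9, (.ofNat (nat_lit 8)), (.ofNat (nat_lit 13719618560)), (.ofNat (nat_lit 132374230629980648744943511962624)), (.ofNat (nat_lit 1572864)), (.ofNat (nat_lit 15134770511265972797497147392)), (.ofNat (nat_lit 13719618544)), (.ofNat (nat_lit 13719618576)), (.negSucc (nat_lit 9622427947531364947952)), (.ofNat (nat_lit 9622427947531364947953)), (.negSucc (nat_lit 9622427947531364947952)), (.ofNat (nat_lit 9622427947531364947953)), (.ofNat (nat_lit 0))⟩,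
    ⟨nat_lit 1, nat_lit 9, nat_lit 10, (.ofNat (nat_lit 8)), (.ofNat (nat_lit 15399379648)), (.ofNat (nat_lit 148537610668327541244042106615488)), (.ofNat (nat_lit 1835008)), (.ofNat (nat_lit 17657232263143634930413338624)), (.ofNat (nat_lit 15399379632)), (.ofNat (nat_lit 15399379664)), (.ofNat (nat_lit 9622427947531364947953)), (.negSucc (nat_lit 9622427947531364947952)), (.negSucc (nat_lit 9622427947531364947952)), (.ofNat (nat_lit 9622427947531364947953)), (.ofNat (nat_lit 0))⟩,
    ⟨nat_lit 0, nat_lit 16, nat_lit 10, (.ofNat (nat_lit 8)), (.ofNat (nat_lit 12425751552)), (.ofNat (nat_lit 177151132764842421894504725102976)), (.ofNat (nat_lit 1310720)), (.ofNat (nat_lit 22702155766898959196245721088)), (.ofNat (nat_lit 12425751536)), (.ofNat (nat_lit 12425751568)), (.ofNat (nat_lit 9622427947531364947953)), (.negSucc (nat_lit 9622427947531364947952)), (.negSucc (nat_lit 9622427947531364947952)), (.ofNat (nat_lit 9622427947531364947953)), (.ofNat (nat_lit 0))⟩,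
    ⟨nat_lit 1, nat_lit 11, nat_lit 15, (.ofNat (nat_lit 8)), (.negSucc (nat_lit 4279793983)), (.ofNat (nat_lit 218751527020825454924021514064704)), (.negSucc (nat_lit 3227509311)), (.ofNat (nat_lit 31076655498721549078652032368192)), (.negSucc (nat_lit 4279793999)), (.negSucc (nat_lit 4279793967)), (.ofNat (nat_lit 9622427947531364947953)), (.negSucc (nat_lit 9622427947531364947952)), (.negSucc (nat_lit 9622427947531364947952)), (.ofNat (nat_lit 9622427947531364947953)), (.ofNat (nat_lit 0))⟩,
    ⟨nat_lit 0, nat_lit 6, nat_lit 11, (.ofNat (nat_lit 8)), (.negSucc (nat_lit 11177245503)), (.ofNat (nat_lit 152381296748034761516088373326144)), (.negSucc (nat_lit 3228033599)), (.ofNat (nat_lit 31071610575217793754386199985728)), (.negSucc (nat_lit 11177245519)), (.negSucc (nat_lit 11177245487)), (.negSucc (nat_lit 9622427947531364947952)), (.ofNat (nat_lit 9622427947531364947953)), (.negSucc (nat_lit 9622427947531364947952)), (.ofNat (nat_lit 9622427947531364947953)), (.ofNat (nat_lit 0))⟩,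
    ⟨nat_lit 0, nat_lit 17, nat_lit 12, (.ofNat (nat_lit 8)), (.negSucc (nat_lit 1334535103)), (.ofNat (nat_lit 13456947317478648940495248764736)), (.negSucc (nat_lit 262143)), (.ofNat (nat_lit 2522461751877662132916191232)), (.negSucc (nat_lit 1334535119)), (.negSucc (nat_lit 1334535087)), (.negSucc (nat_lit 9622427947531364947952)), (.ofNat (nat_lit 9622427947531364947953)), (.negSucc (nat_lit 9622427947531364947952)), (.ofNat (nat_lit 9622427947531364947953)), (.ofNat (nat_lit 0))⟩,
    ⟨nat_lit 1, nat_lit 12, nat_lit 13, (.ofNat (nat_lit 8)), (.ofNat (nat_lit 4862875328)), (.ofNat (nat_lit 73091082660677878716138308010432)), (.ofNat (nat_lit 524288)), (.ofNat (nat_lit 10089847007510648531664764928)), (.ofNat (nat_lit 4862875312)), (.ofNat (nat_lit 4862875344)), (.ofNat (nat_lit 9622427947531364947953)), (.negSucc (nat_lit 9622427947531364947952)), (.negSucc (nat_lit 9622427947531364947952)), (.ofNat (nat_lit 9622427947531364947953)), (.ofNat (nat_lit 0))⟩,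
    ⟨nat_lit 2, nat_lit 13, nat_lit 14, (.ofNat (nat_lit 8)), (.negSucc (nat_lit 8446467583)), (.ofNat (nat_lit 201159275860385158683861817469568)), (.negSucc (nat_lit 3228033599)), (.ofNat (nat_lit 31076655498721549078652032368192)), (.negSucc (nat_lit 8446467599)), (.negSucc (nat_lit 8446467567)), (.negSucc (nat_lit 9622427947531364947952)), (.ofNat (nat_lit 9622427947531364947953)), (.negSucc (nat_lit 9622427947531364947952)), (.ofNat (nat_lit 9622427947531364947953)), (.ofNat (nat_lit 0))⟩,
    ⟨nat_lit 0, nat_lit 14, nat_lit 15, (.ofNat (nat_lit 8)), (.negSucc (nat_lit 5449003327)), (.ofNat (nat_lit 230002159689045868554242235337536)), (.negSucc (nat_lit 3227771455)), (.ofNat (nat_lit 31079177960473426740784948559424)), (.negSucc (nat_lit 5449003343)), (.negSucc (nat_lit 5449003311)), (.ofNat (nat_lit 9622427947531364947953)), (.negSucc (nat_lit 9622427947531364947952)), (.negSucc (nat_lit 9622427947531364947952)), (.ofNat (nat_lit 9622427947531364947953)), (.ofNat (nat_lit 0))⟩,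
    ⟨nat_lit 2, nat_lit 17, nat_lit 7, (.ofNat (nat_lit 8)), (.negSucc (nat_lit 11254719039)), (.ofNat (nat_lit 108913202467896746353332075447744)), (.negSucc (nat_lit 3228295743)), (.ofNat (nat_lit 31064043189962160767987451412032)), (.negSucc (nat_lit 11254719055)), (.negSucc (nat_lit 11254719023)), (.negSucc (nat_lit 9622427947531364947952)), (.ofNat (nat_lit 9622427947531364947953)), (.negSucc (nat_lit 9622427947531364947952)), (.ofNat (nat_lit 9622427947531364947953)), (.ofNat (nat_lit 0))⟩]
  es := [
    ⟨nat_lit 1, nat_lit 0, (.negSucc (nat_lit 5803590079)), (.negSucc (nat_lit 753416383)), (.negSucc (nat_lit 5803590063)), (.negSucc (nat_lit 753416399)), (.negSucc (nat_lit 9622427947531364947952)), (.ofNat (nat_lit 0)), (.ofNat (nat_lit 5044923503755324265832382464))⟩,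
    ⟨nat_lit 1, nat_lit 2, (.negSucc (nat_lit 5803590079)), (.ofNat (nat_lit 3450156480)), (.negSucc (nat_lit 5803590063)), (.ofNat (nat_lit 3450156464)), (.ofNat (nat_lit 9622427947531364947953)), (.ofNat (nat_lit 0)), (.ofNat (nat_lit 15134770511265972797497147392))⟩,
    ⟨nat_lit 2, nat_lit 3, (.ofNat (nat_lit 3450156480)), (.ofNat (nat_lit 3450156544)), (.ofNat (nat_lit 3450156496)), (.ofNat (nat_lit 3450156528)), (.negSucc (nat_lit 9622427947531364947952)), (.ofNat (nat_lit 0)), (.ofNat (nat_lit 25224617518776621329161912320))⟩,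
    ⟨nat_lit 3, nat_lit 4, (.ofNat (nat_lit 3450156544)), (.ofNat (nat_lit 7414530880)), (.ofNat (nat_lit 3450156560)), (.ofNat (nat_lit 7414530864)), (.ofNat (nat_lit 9622427947531364947953)), (.ofNat (nat_lit 0)), (.ofNat (nat_lit 62123041456420566211709070441600))⟩,
    ⟨nat_lit 5, nat_lit 4, (.ofNat (nat_lit 694805120)), (.ofNat (nat_lit 7414530880)), (.ofNat (nat_lit 694805136)), (.ofNat (nat_lit 7414530864)), (.negSucc (nat_lit 9622427947531364947952)), (.ofNat (nat_lit 0)), (.ofNat (nat_lit 40359388030042594126659059712))⟩,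
    ⟨nat_lit 6, nat_lit 5, (.negSucc (nat_lit 12432735039)), (.ofNat (nat_lit 694805120)), (.negSucc (nat_lit 12432735023)), (.ofNat (nat_lit 694805104)), (.ofNat (nat_lit 9622427947531364947953)), (.ofNat (nat_lit 0)), (.ofNat (nat_lit 62143221150435587508772399971456))⟩,
    ⟨nat_lit 6, nat_lit 12, (.negSucc (nat_lit 12432735039)), (.negSucc (nat_lit 11177245503)), (.negSucc (nat_lit 12432735023)), (.negSucc (nat_lit 11177245519)), (.negSucc (nat_lit 9622427947531364947952)), (.ofNat (nat_lit 0)), (.ofNat (nat_lit 10089847007510648531664764928))⟩,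
    ⟨nat_lit 17, nat_lit 7, (.negSucc (nat_lit 11254719039)), (.ofNat (nat_lit 2451530240)), (.negSucc (nat_lit 11254719023)), (.ofNat (nat_lit 2451530224)), (.ofNat (nat_lit 9622427947531364947953)), (.ofNat (nat_lit 0)), (.ofNat (nat_lit 62128086379924321535974902824064))⟩,
    ⟨nat_lit 7, nat_lit 8, (.ofNat (nat_lit 2451530240)), (.ofNat (nat_lit 13719618560)), (.ofNat (nat_lit 2451530256)), (.ofNat (nat_lit 13719618544)), (.negSucc (nat_lit 9622427947531364947952)), (.ofNat (nat_lit 0)), (.ofNat (nat_lit 30269541022531945594994294784))⟩,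
    ⟨nat_lit 8, nat_lit 9, (.ofNat (nat_lit 13719618560)), (.ofNat (nat_lit 15399379648)), (.ofNat (nat_lit 13719618576)), (.ofNat (nat_lit 15399379632)), (.ofNat (nat_lit 9622427947531364947953)), (.ofNat (nat_lit 0)), (.ofNat (nat_lit 0))⟩,
    ⟨nat_lit 10, nat_lit 9, (.ofNat (nat_lit 12425751552)), (.ofNat (nat_lit 15399379648)), (.ofNat (nat_lit 12425751568)), (.ofNat (nat_lit 15399379632)), (.negSucc (nat_lit 9622427947531364947952)), (.ofNat (nat_lit 0)), (.ofNat (nat_lit 35314464526287269860826677248))⟩,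
    ⟨nat_lit 12, nat_lit 11, (.negSucc (nat_lit 11177245503)), (.negSucc (nat_lit 4279793983)), (.negSucc (nat_lit 11177245487)), (.negSucc (nat_lit 4279793999)), (.ofNat (nat_lit 9622427947531364947953)), (.ofNat (nat_lit 0)), (.ofNat (nat_lit 62133131303428076860240735206528))⟩,
    ⟨nat_lit 13, nat_lit 14, (.negSucc (nat_lit 1334535103)), (.ofNat (nat_lit 4862875328)), (.negSucc (nat_lit 1334535087)), (.ofNat (nat_lit 4862875312)), (.ofNat (nat_lit 9622427947531364947953)), (.ofNat (nat_lit 0)), (.ofNat (nat_lit 5044923503755324265832382464))⟩,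
    ⟨nat_lit 15, nat_lit 14, (.negSucc (nat_lit 8446467583)), (.ofNat (nat_lit 4862875328)), (.negSucc (nat_lit 8446467567)), (.ofNat (nat_lit 4862875312)), (.negSucc (nat_lit 9622427947531364947952)), (.ofNat (nat_lit 0)), (.ofNat (nat_lit 15134770511265972797497147392))⟩,
    ⟨nat_lit 15, nat_lit 16, (.negSucc (nat_lit 8446467583)), (.negSucc (nat_lit 5449003327)), (.negSucc (nat_lit 8446467567)), (.negSucc (nat_lit 5449003343)), (.ofNat (nat_lit 9622427947531364947953)), (.ofNat (nat_lit 0)), (.ofNat (nat_lit 62138176226931832184506567588992))⟩,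
    ⟨nat_lit 16, nat_lit 11, (.negSucc (nat_lit 5449003327)), (.negSucc (nat_lit 4279793983)), (.negSucc (nat_lit 5449003311)), (.negSucc (nat_lit 4279793999)), (.negSucc (nat_lit 9622427947531364947952)), (.ofNat (nat_lit 0)), (.ofNat (nat_lit 20179694015021297063329529856))⟩,
    ⟨nat_lit 0, nat_lit 10, (.negSucc (nat_lit 753416383)), (.ofNat (nat_lit 12425751552)), (.negSucc (nat_lit 753416367)), (.ofNat (nat_lit 12425751536)), (.ofNat (nat_lit 9622427947531364947953)), (.ofNat (nat_lit 0)), (.ofNat (nat_lit 10089847007510648531664764928))⟩,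
    ⟨nat_lit 17, nat_lit 13, (.negSucc (nat_lit 11254719039)), (.negSucc (nat_lit 1334535103)), (.negSucc (nat_lit 11254719023)), (.negSucc (nat_lit 1334535119)), (.negSucc (nat_lit 9622427947531364947952)), (.ofNat (nat_lit 0)), (.ofNat (nat_lit 0))⟩]

theorem ok130 : stOK 17 17 S130 = true := by decide +kernel

def S131 : SD where
  vs := [
    ⟨nat_lit 0, nat_lit 0, nat_lit 16, (.ofNat (nat_lit 8)), (.negSucc (nat_lit 753416383)), (.ofNat (nat_lit 51122035936409416694374789278720)), (.ofNat (nat_lit 0)), (.ofNat (nat_lit 786497044142650076246550610752)), (.negSucc (nat_lit 753416399)), (.negSucc (nat_lit 753416367)), (.negSucc (nat_lit 9772779196465182303119)), (.ofNat (nat_lit 9772779196465182303120)), (.negSucc (nat_lit 9772779196465182303119)), (.ofNat (nat_lit 9772779196465182303120)), (.ofNat (nat_lit 902107493602904131002))⟩,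
    ⟨nat_lit 2, nat_lit 0, nat_lit 1, (.ofNat (nat_lit 8)), (.negSucc (nat_lit 5803590079)), (.ofNat (nat_lit 100476268371213896541436112010240)), (.ofNat (nat_lit 0)), (.ofNat (nat_lit 1545796966668962528179223697984)), (.negSucc (nat_lit 5803590095)), (.negSucc (nat_lit 5803590063)), (.negSucc (nat_lit 9772779196465182303119)), (.ofNat (nat_lit 9772778344736483797968)), (.negSucc (nat_lit 9772779196465182303119)), (.ofNat (nat_lit 9772778344736483797968)), (.ofNat (nat_lit 902105790145507120698))⟩,
    ⟨nat_lit 0, nat_lit 1, nat_lit 2, (.ofNat (nat_lit 8)), (.ofNat (nat_lit 3450156480)), (.ofNat (nat_lit 190911082360461627593378227000320)), (.ofNat (nat_lit 0)), (.ofNat (nat_lit 2937101437600464700896685896384)), (.ofNat (nat_lit 3450156464)), (.ofNat (nat_lit 3450156496)), (.ofNat (nat_lit 9772778344736483797968)), (.ofNat (nat_lit 9772778344736483797968)), (.ofNat (nat_lit 9772778344736483797968)), (.ofNat (nat_lit 9772778344736483797968)), (.ofNat (nat_lit 38790412584535697491842))⟩,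
    ⟨nat_lit 0, nat_lit 2, nat_lit 3, (.ofNat (nat_lit 8)), (.ofNat (nat_lit 3450156544)), (.ofNat (nat_lit 190911082985919441656513190070272)), (.ofNat (nat_lit 0)), (.ofNat (nat_lit 2937102678893667406039005635328)), (.ofNat (nat_lit 3450156528)), (.ofNat (nat_lit 3450156560)), (.ofNat (nat_lit 9772778344736483797968)), (.ofNat (nat_lit 9772778344736483797968)), (.ofNat (nat_lit 9772778344736483797968)), (.ofNat (nat_lit 9772778344736483797968)), (.ofNat (nat_lit 77280124374661157283654))⟩,
    ⟨nat_lit 1, nat_lit 3, nat_lit 4, (.ofNat (nat_lit 8)), (.ofNat (nat_lit 7414530880)), (.ofNat (nat_lit 229654034647209318708057338219520)), (.ofNat (nat_lit 0)), (.ofNat (nat_lit 3533147934981046702868304850368)), (.ofNat (nat_lit 7414530864)), (.ofNat (nat_lit 7414530896)), (.ofNat (nat_lit 9772778344736483797968)), (.negSucc (nat_lit 9772780685713044822575)), (.negSucc (nat_lit 9772780685713044822575)), (.ofNat (nat_lit 9772778344736483797968)), (.ofNat (nat_lit 902107065183835149306))⟩,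
    ⟨nat_lit 0, nat_lit 5, nat_lit 4, (.ofNat (nat_lit 8)), (.ofNat (nat_lit 694805120)), (.ofNat (nat_lit 295324440767825729970355914977280)), (.ofNat (nat_lit 0)), (.ofNat (nat_lit 4543477102827016516446048238848)), (.ofNat (nat_lit 694805104)), (.ofNat (nat_lit 694805136)), (.ofNat (nat_lit 9772779196465182303120)), (.negSucc (nat_lit 9772780685713044822575)), (.negSucc (nat_lit 9772780685713044822575)), (.ofNat (nat_lit 9772779196465182303120)), (.ofNat (nat_lit 902110472098629169914))⟩,
    ⟨nat_lit 2, nat_lit 6, nat_lit 5, (.ofNat (nat_lit 8)), (.negSucc (nat_lit 12432735039)), (.ofNat (nat_lit 167031889391416519244426821678080)), (.ofNat (nat_lit 0)), (.ofNat (nat_lit 2569735044342172004386272232128)), (.negSucc (nat_lit 12432735055)), (.negSucc (nat_lit 12432735023)), (.negSucc (nat_lit 9772779196465182303119)), (.ofNat (nat_lit 9772779196465182303120)), (.negSucc (nat_lit 9772779196465182303119)), (.ofNat (nat_lit 9772779196465182303120)), (.ofNat (nat_lit 902107493602904131002))⟩,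
    ⟨nat_lit 0, nat_lit 7, nat_lit 8, (.ofNat (nat_lit 8)), (.ofNat (nat_lit 2451530240)), (.ofNat (nat_lit 244563128275248207478578880143360)), (.ofNat (nat_lit 0)), (.ofNat (nat_lit 3762529679647812529948760971776)), (.ofNat (nat_lit 2451530224)), (.ofNat (nat_lit 2451530256)), (.ofNat (nat_lit 9772779196465182303120)), (.negSucc (nat_lit 9772779196465182303119)), (.negSucc (nat_lit 9772779196465182303119)), (.ofNat (nat_lit 9772779196465182303120)), (.ofNat (nat_lit 902107493602904131002))⟩,
    ⟨nat_lit 0, nat_lit 8, nat_lit 9, (.ofNat (nat_lit 8)), (.ofNat (nat_lit 13719618560)), (.ofNat (nat_lit 134442589157619901482121708584960)), (.ofNat (nat_lit 0)), (.ofNat (nat_lit 2068358527639252737178196622336)), (.ofNat (nat_lit 13719618544)), (.ofNat (nat_lit 13719618576)), (.negSucc (nat_lit 9772779196465182303119)), (.ofNat (nat_lit 9772779196465182303120)), (.negSucc (nat_lit 9772779196465182303119)), (.ofNat (nat_lit 9772779196465182303120)), (.ofNat (nat_lit 902107493602904131002))⟩,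
    ⟨nat_lit 1, nat_lit 9, nat_lit 10, (.ofNat (nat_lit 8)), (.ofNat (nat_lit 15399379648)), (.ofNat (nat_lit 150858523373458021861728905579520)), (.ofNat (nat_lit 0)), (.ofNat (nat_lit 2320912705130480617686798964032)), (.ofNat (nat_lit 15399379632)), (.ofNat (nat_lit 15399379664)), (.ofNat (nat_lit 9772779196465182303120)), (.negSucc (nat_lit 9772779196465182303119)), (.negSucc (nat_lit 9772779196465182303119)), (.ofNat (nat_lit 9772779196465182303120)), (.ofNat (nat_lit 902107493602904131002))⟩,
    ⟨nat_lit 0, nat_lit 16, nat_lit 10, (.ofNat (nat_lit 8)), (.ofNat (nat_lit 12425751552)), (.ofNat (nat_lit 179919134168071191844048526039040)), (.ofNat (nat_lit 0)), (.ofNat (nat_lit 2768001403228769949543800936064)), (.ofNat (nat_lit 12425751536)), (.ofNat (nat_lit 12425751568)), (.ofNat (nat_lit 9772779196465182303120)), (.negSucc (nat_lit 9772779196465182303119)), (.negSucc (nat_lit 9772779196465182303119)), (.ofNat (nat_lit 9772779196465182303120)), (.ofNat (nat_lit 902107493602904131002))⟩,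
    ⟨nat_lit 1, nat_lit 11, nat_lit 15, (.ofNat (nat_lit 8)), (.negSucc (nat_lit 4279793983)), (.ofNat (nat_lit 222169538095899144978259426268160)), (.ofNat (nat_lit 0)), (.ofNat (nat_lit 3418011075073690054237912203456)), (.negSucc (nat_lit 4279793999)), (.negSucc (nat_lit 4279793967)), (.ofNat (nat_lit 9772779196465182303120)), (.negSucc (nat_lit 9772779196465182303119)), (.negSucc (nat_lit 9772779196465182303119)), (.ofNat (nat_lit 9772779196465182303120)), (.ofNat (nat_lit 902107493602904131002))⟩,
    ⟨nat_lit 0, nat_lit 6, nat_lit 11, (.ofNat (nat_lit 8)), (.negSucc (nat_lit 11177245503)), (.ofNat (nat_lit 154762267372615994674527281525760)), (.ofNat (nat_lit 0)), (.ofNat (nat_lit 2380970624581233158438908199616)), (.negSucc (nat_lit 11177245519)), (.negSucc (nat_lit 11177245487)), (.negSucc (nat_lit 9772779196465182303119)), (.ofNat (nat_lit 9772779196465182303120)), (.negSucc (nat_lit 9772779196465182303119)), (.ofNat (nat_lit 9772779196465182303120)), (.ofNat (nat_lit 902107493602904131002))⟩,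
    ⟨nat_lit 0, nat_lit 17, nat_lit 12, (.ofNat (nat_lit 8)), (.negSucc (nat_lit 1334535103)), (.ofNat (nat_lit 13667213255249434524649131709440)), (.ofNat (nat_lit 0)), (.ofNat (nat_lit 210265937770785584153882944704)), (.negSucc (nat_lit 1334535119)), (.negSucc (nat_lit 1334535087)), (.negSucc (nat_lit 9772779196465182303119)), (.ofNat (nat_lit 9772779196465182303120)), (.negSucc (nat_lit 9772779196465182303119)), (.ofNat (nat_lit 9772779196465182303120)), (.ofNat (nat_lit 902107493602904131002))⟩,
    ⟨nat_lit 1, nat_lit 12, nat_lit 13, (.ofNat (nat_lit 8)), (.ofNat (nat_lit 4862875328)), (.ofNat (nat_lit 74233136997055332854786805857280)), (.ofNat (nat_lit 0)), (.ofNat (nat_lit 1142054336377454138648497846848)), (.ofNat (nat_lit 4862875312)), (.ofNat (nat_lit 4862875344)), (.ofNat (nat_lit 9772779196465182303120)), (.negSucc (nat_lit 9772779196465182303119)), (.negSucc (nat_lit 9772779196465182303119)), (.ofNat (nat_lit 9772779196465182303120)), (.ofNat (nat_lit 902107493602904131002))⟩,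
    ⟨nat_lit 2, nat_lit 13, nat_lit 14, (.ofNat (nat_lit 8)), (.negSucc (nat_lit 8446467583)), (.ofNat (nat_lit 204302406526070262395604813342720)), (.ofNat (nat_lit 0)), (.ofNat (nat_lit 3143130665685103711742995873152)), (.negSucc (nat_lit 8446467599)), (.negSucc (nat_lit 8446467567)), (.negSucc (nat_lit 9772779196465182303119)), (.ofNat (nat_lit 9772779196465182303120)), (.negSucc (nat_lit 9772779196465182303119)), (.ofNat (nat_lit 9772779196465182303120)), (.ofNat (nat_lit 902107493602904131002))⟩,
    ⟨nat_lit 0, nat_lit 14, nat_lit 15, (.ofNat (nat_lit 8)), (.negSucc (nat_lit 5449003327)), (.ofNat (nat_lit 233595962849255047897730770621440)), (.ofNat (nat_lit 0)), (.ofNat (nat_lit 3593803160209179343488535283904)), (.negSucc (nat_lit 5449003343)), (.negSucc (nat_lit 5449003311)), (.ofNat (nat_lit 9772779196465182303120)), (.negSucc (nat_lit 9772779196465182303119)), (.negSucc (nat_lit 9772779196465182303119)), (.ofNat (nat_lit 9772779196465182303120)), (.ofNat (nat_lit 902107493602904131002))⟩,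
    ⟨nat_lit 2, nat_lit 17, nat_lit 7, (.ofNat (nat_lit 8)), (.negSucc (nat_lit 11254719039)), (.ofNat (nat_lit 110614980450098323991371638389760)), (.ofNat (nat_lit 0)), (.ofNat (nat_lit 1701777982201577638039562942016)), (.negSucc (nat_lit 11254719055)), (.negSucc (nat_lit 11254719023)), (.negSucc (nat_lit 9772779196465182303119)), (.ofNat (nat_lit 9772779196465182303120)), (.negSucc (nat_lit 9772779196465182303119)), (.ofNat (nat_lit 9772779196465182303120)), (.ofNat (nat_lit 902107493602904131002))⟩]
  es := [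
    ⟨nat_lit 1, nat_lit 0, (.negSucc (nat_lit 5803590079)), (.negSucc (nat_lit 753416383)), (.negSucc (nat_lit 5803590063)), (.negSucc (nat_lit 753416399)), (.negSucc (nat_lit 9772779196465182303119)), (.negSucc (nat_lit 150351248933817355166)), (.ofNat (nat_lit 673219949841049549200185754624))⟩,
    ⟨nat_lit 1, nat_lit 2, (.negSucc (nat_lit 5803590079)), (.ofNat (nat_lit 3450156480)), (.negSucc (nat_lit 5803590063)), (.ofNat (nat_lit 3450156464)), (.ofNat (nat_lit 9772778344736483797968)), (.ofNat (nat_lit 150350397205118850015)), (.ofNat (nat_lit 2418369040412650011347285549184))⟩,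
    ⟨nat_lit 2, nat_lit 3, (.ofNat (nat_lit 3450156480)), (.ofNat (nat_lit 3450156544)), (.ofNat (nat_lit 3450156496)), (.ofNat (nat_lit 3450156528)), (.ofNat (nat_lit 9772778344736483797968)), (.ofNat (nat_lit 19395206292267848745921)), (.negSucc (nat_lit 63979395232604227545502525821695))⟩,
    ⟨nat_lit 3, nat_lit 4, (.ofNat (nat_lit 3450156544)), (.ofNat (nat_lit 7414530880)), (.ofNat (nat_lit 3450156560)), (.ofNat (nat_lit 7414530864)), (.ofNat (nat_lit 9772778344736483797968)), (.ofNat (nat_lit 150350397205118850015)), (.ofNat (nat_lit 2418370272083427295361998887168))⟩,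
    ⟨nat_lit 5, nat_lit 4, (.ofNat (nat_lit 694805120)), (.ofNat (nat_lit 7414530880)), (.ofNat (nat_lit 694805136)), (.ofNat (nat_lit 7414530864)), (.negSucc (nat_lit 9772780685713044822575)), (.negSucc (nat_lit 150352738181679874622)), (.ofNat (nat_lit 4647942955121667183535066708608))⟩,
    ⟨nat_lit 6, nat_lit 5, (.negSucc (nat_lit 12432735039)), (.ofNat (nat_lit 694805120)), (.negSucc (nat_lit 12432735023)), (.ofNat (nat_lit 694805104)), (.ofNat (nat_lit 9772779196465182303120)), (.ofNat (nat_lit 150351248933817355167)), (.ofNat (nat_lit 4439012285269405676931158183808))⟩,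
    ⟨nat_lit 6, nat_lit 12, (.negSucc (nat_lit 12432735039)), (.negSucc (nat_lit 11177245503)), (.negSucc (nat_lit 12432735023)), (.negSucc (nat_lit 11177245519)), (.negSucc (nat_lit 9772779196465182303119)), (.negSucc (nat_lit 150351248933817355166)), (.ofNat (nat_lit 700457803414938331841386280448))⟩,
    ⟨nat_lit 17, nat_lit 7, (.negSucc (nat_lit 11254719039)), (.ofNat (nat_lit 2451530240)), (.negSucc (nat_lit 11254719023)), (.ofNat (nat_lit 2451530224)), (.ofNat (nat_lit 9772779196465182303120)), (.ofNat (nat_lit 150351248933817355167)), (.ofNat (nat_lit 3393939046264791525120040221696))⟩,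
    ⟨nat_lit 7, nat_lit 8, (.ofNat (nat_lit 2451530240)), (.ofNat (nat_lit 13719618560)), (.ofNat (nat_lit 2451530256)), (.ofNat (nat_lit 13719618544)), (.negSucc (nat_lit 9772779196465182303119)), (.negSucc (nat_lit 150351248933817355166)), (.ofNat (nat_lit 4131120313030833534777481721856))⟩,
    ⟨nat_lit 8, nat_lit 9, (.ofNat (nat_lit 13719618560)), (.ofNat (nat_lit 15399379648)), (.ofNat (nat_lit 13719618576)), (.ofNat (nat_lit 15399379632)), (.ofNat (nat_lit 9772779196465182303120)), (.ofNat (nat_lit 150351248933817355167)), (.ofNat (nat_lit 5596742247671939578911522816))⟩,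
    ⟨nat_lit 10, nat_lit 9, (.ofNat (nat_lit 12425751552)), (.ofNat (nat_lit 15399379648)), (.ofNat (nat_lit 12425751568)), (.ofNat (nat_lit 15399379632)), (.negSucc (nat_lit 9772779196465182303119)), (.negSucc (nat_lit 150351248933817355166)), (.ofNat (nat_lit 4636228668013289295794686405248))⟩,
    ⟨nat_lit 12, nat_lit 11, (.negSucc (nat_lit 11177245503)), (.negSucc (nat_lit 4279793983)), (.negSucc (nat_lit 11177245487)), (.negSucc (nat_lit 4279793999)), (.ofNat (nat_lit 9772779196465182303120)), (.ofNat (nat_lit 150351248933817355167)), (.ofNat (nat_lit 4061483445747527985036430118784))⟩,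
    ⟨nat_lit 13, nat_lit 14, (.negSucc (nat_lit 1334535103)), (.ofNat (nat_lit 4862875328)), (.negSucc (nat_lit 1334535087)), (.ofNat (nat_lit 4862875312)), (.ofNat (nat_lit 9772779196465182303120)), (.ofNat (nat_lit 150351248933817355167)), (.ofNat (nat_lit 410914957403207417348680227072))⟩,
    ⟨nat_lit 15, nat_lit 14, (.negSucc (nat_lit 8446467583)), (.ofNat (nat_lit 4862875328)), (.negSucc (nat_lit 8446467567)), (.ofNat (nat_lit 4862875312)), (.negSucc (nat_lit 9772779196465182303119)), (.negSucc (nat_lit 150351248933817355166)), (.ofNat (nat_lit 1873193715351700859948315466624))⟩,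
    ⟨nat_lit 15, nat_lit 16, (.negSucc (nat_lit 8446467583)), (.negSucc (nat_lit 5449003327)), (.negSucc (nat_lit 8446467567)), (.negSucc (nat_lit 5449003343)), (.ofNat (nat_lit 9772779196465182303120)), (.ofNat (nat_lit 150351248933817355167)), (.ofNat (nat_lit 4413067616018506563537676279680))⟩,
    ⟨nat_lit 16, nat_lit 11, (.negSucc (nat_lit 5449003327)), (.negSucc (nat_lit 4279793983)), (.negSucc (nat_lit 5449003311)), (.negSucc (nat_lit 4279793999)), (.negSucc (nat_lit 9772779196465182303119)), (.negSucc (nat_lit 150351248933817355166)), (.ofNat (nat_lit 2774538704399852123439394288128))⟩,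
    ⟨nat_lit 0, nat_lit 10, (.negSucc (nat_lit 753416383)), (.ofNat (nat_lit 12425751552)), (.negSucc (nat_lit 753416367)), (.ofNat (nat_lit 12425751536)), (.ofNat (nat_lit 9772779196465182303120)), (.ofNat (nat_lit 150351248933817355167)), (.ofNat (nat_lit 899774138444250603292915466880))⟩,
    ⟨nat_lit 17, nat_lit 13, (.negSucc (nat_lit 11254719039)), (.negSucc (nat_lit 1334535103)), (.negSucc (nat_lit 11254719023)), (.negSucc (nat_lit 1334535119)), (.negSucc (nat_lit 9772779196465182303119)), (.negSucc (nat_lit 150351248933817355166)), (.ofNat (nat_lit 9616918138363750959085662336))⟩]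

theorem ok131 : stOK 17 17 S131 = true := by decide +kernel

def S132 : SD where
  vs := [
    ⟨nat_lit 0, nat_lit 0, nat_lit 16, (.ofNat (nat_lit 8)), (.negSucc (nat_lit 1125381951)), (.ofNat (nat_lit 54762297052020528159477706429440)), (.negSucc (nat_lit 371965567)), (.ofNat (nat_lit 3640261115611111465102917150720)), (.negSucc (nat_lit 1125381967)), (.negSucc (nat_lit 1125381935)), (.negSucc (nat_lit 9772779196465182303119)), (.ofNat (nat_lit 9772779196465182303120)), (.negSucc (nat_lit 9772779196465182303119)), (.ofNat (nat_lit 9772779196465182303120)), (.ofNat (nat_lit 0))⟩,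
    ⟨nat_lit 2, nat_lit 0, nat_lit 1, (.ofNat (nat_lit 8)), (.negSucc (nat_lit 6807351615)), (.ofNat (nat_lit 110290931979305990038035198981120)), (.negSucc (nat_lit 1003761535)), (.ofNat (nat_lit 9814663608092093496599086970880)), (.negSucc (nat_lit 6807351631)), (.negSucc (nat_lit 6807351599)), (.negSucc (nat_lit 9772779196465182303119)), (.ofNat (nat_lit 9772778344736483797968)), (.negSucc (nat_lit 9772779196465182303119)), (.ofNat (nat_lit 9772778344736483797968)), (.ofNat (nat_lit 0))⟩,
    ⟨nat_lit 0, nat_lit 1, nat_lit 2, (.ofNat (nat_lit 8)), (.ofNat (nat_lit 2447443456)), (.ofNat (nat_lit 200735992843921517430077288994816)), (.negSucc (nat_lit 1002713023)), (.ofNat (nat_lit 9824910483459889836699061994496)), (.ofNat (nat_lit 2447443440)), (.ofNat (nat_lit 2447443472)), (.ofNat (nat_lit 9772778344736483797968)), (.ofNat (nat_lit 9772778344736483797968)), (.ofNat (nat_lit 9772778344736483797968)), (.ofNat (nat_lit 9772778344736483797968)), (.ofNat (nat_lit 0))⟩,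
    ⟨nat_lit 0, nat_lit 2, nat_lit 3, (.ofNat (nat_lit 8)), (.ofNat (nat_lit 2447443520)), (.ofNat (nat_lit 200735993469379331493212252064768)), (.negSucc (nat_lit 1002713023)), (.ofNat (nat_lit 9824910483459889836699061994496)), (.ofNat (nat_lit 2447443504)), (.ofNat (nat_lit 2447443536)), (.ofNat (nat_lit 9772778344736483797968)), (.ofNat (nat_lit 9772778344736483797968)), (.ofNat (nat_lit 9772778344736483797968)), (.ofNat (nat_lit 9772778344736483797968)), (.ofNat (nat_lit 0))⟩,
    ⟨nat_lit 1, nat_lit 3, nat_lit 4, (.ofNat (nat_lit 8)), (.ofNat (nat_lit 6412604288)), (.ofNat (nat_lit 239486630756288416347182603784192)), (.negSucc (nat_lit 1001926591)), (.ofNat (nat_lit 9832596109079097639125265564672)), (.ofNat (nat_lit 6412604272)), (.ofNat (nat_lit 6412604304)), (.ofNat (nat_lit 9772778344736483797968)), (.negSucc (nat_lit 9772780685713044822575)), (.negSucc (nat_lit 9772780685713044822575)), (.ofNat (nat_lit 9772778344736483797968)), (.ofNat (nat_lit 0))⟩,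
    ⟨nat_lit 0, nat_lit 5, nat_lit 4, (.ofNat (nat_lit 8)), (.negSucc (nat_lit 1148135679)), (.ofNat (nat_lit 313376084285257480916208435701760)), (.negSucc (nat_lit 1842940799)), (.ofNat (nat_lit 18051643517431750945852520724480)), (.negSucc (nat_lit 1148135695)), (.negSucc (nat_lit 1148135663)), (.ofNat (nat_lit 9772779196465182303120)), (.negSucc (nat_lit 9772780685713044822575)), (.negSucc (nat_lit 9772780685713044822575)), (.ofNat (nat_lit 9772779196465182303120)), (.ofNat (nat_lit 0))⟩,
    ⟨nat_lit 2, nat_lit 6, nat_lit 5, (.ofNat (nat_lit 8)), (.negSucc (nat_lit 14277248703)), (.ofNat (nat_lit 185068161656270201177781327866880)), (.negSucc (nat_lit 1844513663)), (.ofNat (nat_lit 18036272264853681933354506188800)), (.negSucc (nat_lit 14277248719)), (.negSucc (nat_lit 14277248687)), (.negSucc (nat_lit 9772779196465182303119)), (.ofNat (nat_lit 9772779196465182303120)), (.negSucc (nat_lit 9772779196465182303119)), (.ofNat (nat_lit 9772779196465182303120)), (.ofNat (nat_lit 0))⟩,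
    ⟨nat_lit 0, nat_lit 7, nat_lit 8, (.ofNat (nat_lit 8)), (.ofNat (nat_lit 1043281472)), (.ofNat (nat_lit 258356375043762468436839051770880)), (.negSucc (nat_lit 1408248767)), (.ofNat (nat_lit 13793246768514260958260171627520)), (.ofNat (nat_lit 1043281456)), (.ofNat (nat_lit 1043281488)), (.ofNat (nat_lit 9772779196465182303120)), (.negSucc (nat_lit 9772779196465182303119)), (.negSucc (nat_lit 9772779196465182303119)), (.ofNat (nat_lit 9772779196465182303120)), (.ofNat (nat_lit 0))⟩,
    ⟨nat_lit 0, nat_lit 8, nat_lit 9, (.ofNat (nat_lit 8)), (.ofNat (nat_lit 13721191424)), (.ofNat (nat_lit 134457960410197970494619723120640)), (.ofNat (nat_lit 1572864)), (.ofNat (nat_lit 15371252578069012498014535680)), (.ofNat (nat_lit 13721191408)), (.ofNat (nat_lit 13721191440)), (.negSucc (nat_lit 9772779196465182303119)), (.ofNat (nat_lit 9772779196465182303120)), (.negSucc (nat_lit 9772779196465182303119)), (.ofNat (nat_lit 9772779196465182303120)), (.ofNat (nat_lit 0))⟩,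
    ⟨nat_lit 1, nat_lit 9, nat_lit 10, (.ofNat (nat_lit 8)), (.ofNat (nat_lit 15401214656)), (.ofNat (nat_lit 150876456501465769042976589204480)), (.ofNat (nat_lit 1835008)), (.ofNat (nat_lit 17933128007747181247683624960)), (.ofNat (nat_lit 15401214640)), (.ofNat (nat_lit 15401214672)), (.ofNat (nat_lit 9772779196465182303120)), (.negSucc (nat_lit 9772779196465182303119)), (.negSucc (nat_lit 9772779196465182303119)), (.ofNat (nat_lit 9772779196465182303120)), (.ofNat (nat_lit 0))⟩,
    ⟨nat_lit 0, nat_lit 16, nat_lit 10, (.ofNat (nat_lit 8)), (.ofNat (nat_lit 12055358848)), (.ofNat (nat_lit 183574766536260372321649457725440)), (.negSucc (nat_lit 370392703)), (.ofNat (nat_lit 3655632368189180477600931686400)), (.ofNat (nat_lit 12055358832)), (.ofNat (nat_lit 12055358864)), (.ofNat (nat_lit 9772779196465182303120)), (.negSucc (nat_lit 9772779196465182303119)), (.negSucc (nat_lit 9772779196465182303119)), (.ofNat (nat_lit 9772779196465182303120)), (.ofNat (nat_lit 0))⟩,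
    ⟨nat_lit 1, nat_lit 11, nat_lit 15, (.ofNat (nat_lit 8)), (.negSucc (nat_lit 5966322879)), (.ofNat (nat_lit 238672107608402761340376489937920)), (.negSucc (nat_lit 1686528895)), (.ofNat (nat_lit 16502569512503616362117063669760)), (.negSucc (nat_lit 5966322895)), (.negSucc (nat_lit 5966322863)), (.ofNat (nat_lit 9772779196465182303120)), (.negSucc (nat_lit 9772779196465182303119)), (.negSucc (nat_lit 9772779196465182303119)), (.ofNat (nat_lit 9772779196465182303120)), (.ofNat (nat_lit 0))⟩,
    ⟨nat_lit 0, nat_lit 6, nat_lit 11, (.ofNat (nat_lit 8)), (.negSucc (nat_lit 12864298687)), (.ofNat (nat_lit 171259713134260254699145007016960)), (.negSucc (nat_lit 1687053183)), (.ofNat (nat_lit 16497445761644260024617725491200)), (.negSucc (nat_lit 12864298703)), (.negSucc (nat_lit 12864298671)), (.negSucc (nat_lit 9772779196465182303119)), (.ofNat (nat_lit 9772779196465182303120)), (.negSucc (nat_lit 9772779196465182303119)), (.ofNat (nat_lit 9772779196465182303120)), (.ofNat (nat_lit 0))⟩,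
    ⟨nat_lit 0, nat_lit 17, nat_lit 12, (.ofNat (nat_lit 8)), (.negSucc (nat_lit 1503285247)), (.ofNat (nat_lit 15316371151933138329286883358720)), (.negSucc (nat_lit 168750143)), (.ofNat (nat_lit 1649157896683703804637751649280)), (.negSucc (nat_lit 1503285263)), (.negSucc (nat_lit 1503285231)), (.negSucc (nat_lit 9772779196465182303119)), (.ofNat (nat_lit 9772779196465182303120)), (.negSucc (nat_lit 9772779196465182303119)), (.ofNat (nat_lit 9772779196465182303120)), (.ofNat (nat_lit 0))⟩,
    ⟨nat_lit 1, nat_lit 12, nat_lit 13, (.ofNat (nat_lit 8)), (.ofNat (nat_lit 4694911616)), (.ofNat (nat_lit 75889980520028071165673564774400)), (.negSucc (nat_lit 167963711)), (.ofNat (nat_lit 1656843522972738310886758917120)), (.ofNat (nat_lit 4694911600)), (.ofNat (nat_lit 4694911632)), (.ofNat (nat_lit 9772779196465182303120)), (.negSucc (nat_lit 9772779196465182303119)), (.negSucc (nat_lit 9772779196465182303119)), (.ofNat (nat_lit 9772779196465182303120)), (.ofNat (nat_lit 0))⟩,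
    ⟨nat_lit 2, nat_lit 13, nat_lit 14, (.ofNat (nat_lit 8)), (.negSucc (nat_lit 10279671935)), (.ofNat (nat_lit 222233279132743366622655795056640)), (.negSucc (nat_lit 1833204351)), (.ofNat (nat_lit 17930872606673104227050981713920)), (.negSucc (nat_lit 10279671951)), (.negSucc (nat_lit 10279671919)), (.negSucc (nat_lit 9772779196465182303119)), (.ofNat (nat_lit 9772779196465182303120)), (.negSucc (nat_lit 9772779196465182303119)), (.ofNat (nat_lit 9772779196465182303120)), (.ofNat (nat_lit 0))⟩,
    ⟨nat_lit 0, nat_lit 14, nat_lit 15, (.ofNat (nat_lit 8)), (.negSucc (nat_lit 7281945535)), (.ofNat (nat_lit 251529397331357830293531421424640)), (.negSucc (nat_lit 1832942207)), (.ofNat (nat_lit 17933434482102782395800650803200)), (.negSucc (nat_lit 7281945551)), (.negSucc (nat_lit 7281945519)), (.ofNat (nat_lit 9772779196465182303120)), (.negSucc (nat_lit 9772779196465182303119)), (.negSucc (nat_lit 9772779196465182303119)), (.ofNat (nat_lit 9772779196465182303120)), (.ofNat (nat_lit 0))⟩,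
    ⟨nat_lit 2, nat_lit 17, nat_lit 7, (.ofNat (nat_lit 8)), (.negSucc (nat_lit 12664540671)), (.ofNat (nat_lit 124392855966034515937133795481600)), (.negSucc (nat_lit 1409821631)), (.ofNat (nat_lit 13777875515936191945762157091840)), (.negSucc (nat_lit 12664540687)), (.negSucc (nat_lit 12664540655)), (.negSucc (nat_lit 9772779196465182303119)), (.ofNat (nat_lit 9772779196465182303120)), (.negSucc (nat_lit 9772779196465182303119)), (.ofNat (nat_lit 9772779196465182303120)), (.ofNat (nat_lit 0))⟩]
  es := [
    ⟨nat_lit 1, nat_lit 0, (.negSucc (nat_lit 6807351615)), (.negSucc (nat_lit 1125381951)), (.negSucc (nat_lit 6807351599)), (.negSucc (nat_lit 1125381967)), (.negSucc (nat_lit 9772779196465182303119)), (.ofNat (nat_lit 0)), (.ofNat (nat_lit 5123750859356337499338178560))⟩,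
    ⟨nat_lit 1, nat_lit 2, (.negSucc (nat_lit 6807351615)), (.ofNat (nat_lit 2447443456)), (.negSucc (nat_lit 6807351599)), (.ofNat (nat_lit 2447443440)), (.ofNat (nat_lit 9772778344736483797968)), (.ofNat (nat_lit 0)), (.ofNat (nat_lit 19624202610392323988886560329728))⟩,
    ⟨nat_lit 2, nat_lit 3, (.ofNat (nat_lit 2447443456)), (.ofNat (nat_lit 2447443520)), (.ofNat (nat_lit 2447443472)), (.ofNat (nat_lit 2447443504)), (.ofNat (nat_lit 9772778344736483797968)), (.ofNat (nat_lit 0)), (.ofNat (nat_lit 19624202610392323988886560329728))⟩,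
    ⟨nat_lit 3, nat_lit 4, (.ofNat (nat_lit 2447443520)), (.ofNat (nat_lit 6412604288)), (.ofNat (nat_lit 2447443536)), (.ofNat (nat_lit 6412604272)), (.ofNat (nat_lit 9772778344736483797968)), (.ofNat (nat_lit 0)), (.ofNat (nat_lit 19624202610392323988886560329728))⟩,
    ⟨nat_lit 5, nat_lit 4, (.negSucc (nat_lit 1148135679)), (.ofNat (nat_lit 6412604288)), (.negSucc (nat_lit 1148135663)), (.ofNat (nat_lit 6412604272)), (.negSucc (nat_lit 9772780685713044822575)), (.ofNat (nat_lit 0)), (.ofNat (nat_lit 40987262279203550098449223680))⟩,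
    ⟨nat_lit 6, nat_lit 5, (.negSucc (nat_lit 14277248703)), (.negSucc (nat_lit 1148135679)), (.negSucc (nat_lit 14277248687)), (.negSucc (nat_lit 1148135695)), (.ofNat (nat_lit 9772779196465182303120)), (.ofNat (nat_lit 0)), (.ofNat (nat_lit 36062297027988651191710336020480))⟩,
    ⟨nat_lit 6, nat_lit 12, (.negSucc (nat_lit 14277248703)), (.negSucc (nat_lit 12864298687)), (.negSucc (nat_lit 14277248687)), (.negSucc (nat_lit 12864298703)), (.negSucc (nat_lit 9772779196465182303119)), (.ofNat (nat_lit 0)), (.ofNat (nat_lit 10247501718712674998676357120))⟩,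
    ⟨nat_lit 17, nat_lit 7, (.negSucc (nat_lit 12664540671)), (.ofNat (nat_lit 1043281472)), (.negSucc (nat_lit 12664540655)), (.ofNat (nat_lit 1043281456)), (.ofNat (nat_lit 9772779196465182303120)), (.ofNat (nat_lit 0)), (.ofNat (nat_lit 27555751031872383891524314183680))⟩,
    ⟨nat_lit 7, nat_lit 8, (.ofNat (nat_lit 1043281472)), (.ofNat (nat_lit 13721191424)), (.ofNat (nat_lit 1043281488)), (.ofNat (nat_lit 13721191408)), (.negSucc (nat_lit 9772779196465182303119)), (.ofNat (nat_lit 0)), (.ofNat (nat_lit 30742505156138024996029071360))⟩,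
    ⟨nat_lit 8, nat_lit 9, (.ofNat (nat_lit 13721191424)), (.ofNat (nat_lit 15401214656)), (.ofNat (nat_lit 13721191440)), (.ofNat (nat_lit 15401214640)), (.ofNat (nat_lit 9772779196465182303120)), (.ofNat (nat_lit 0)), (.ofNat (nat_lit 0))⟩,
    ⟨nat_lit 10, nat_lit 9, (.ofNat (nat_lit 12055358848)), (.ofNat (nat_lit 15401214656)), (.ofNat (nat_lit 12055358864)), (.ofNat (nat_lit 15401214640)), (.negSucc (nat_lit 9772779196465182303119)), (.ofNat (nat_lit 0)), (.ofNat (nat_lit 35866256015494362495367249920))⟩,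
    ⟨nat_lit 12, nat_lit 11, (.negSucc (nat_lit 12864298687)), (.negSucc (nat_lit 5966322879)), (.negSucc (nat_lit 12864298671)), (.negSucc (nat_lit 5966322895)), (.ofNat (nat_lit 9772779196465182303120)), (.ofNat (nat_lit 0)), (.ofNat (nat_lit 32984644021569807374236774625280))⟩,
    ⟨nat_lit 13, nat_lit 14, (.negSucc (nat_lit 1503285247)), (.ofNat (nat_lit 4694911616)), (.negSucc (nat_lit 1503285231)), (.ofNat (nat_lit 4694911600)), (.ofNat (nat_lit 9772779196465182303120)), (.ofNat (nat_lit 0)), (.ofNat (nat_lit 3298315793367407609275503298560))⟩,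
    ⟨nat_lit 15, nat_lit 14, (.negSucc (nat_lit 10279671935)), (.ofNat (nat_lit 4694911616)), (.negSucc (nat_lit 10279671919)), (.ofNat (nat_lit 4694911600)), (.negSucc (nat_lit 9772779196465182303119)), (.ofNat (nat_lit 0)), (.ofNat (nat_lit 15371252578069012498014535680))⟩,
    ⟨nat_lit 15, nat_lit 16, (.negSucc (nat_lit 10279671935)), (.negSucc (nat_lit 7281945535)), (.negSucc (nat_lit 10279671919)), (.negSucc (nat_lit 7281945551)), (.ofNat (nat_lit 9772779196465182303120)), (.ofNat (nat_lit 0)), (.ofNat (nat_lit 35846373960768139441603948892160))⟩,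
    ⟨nat_lit 16, nat_lit 11, (.negSucc (nat_lit 7281945535)), (.negSucc (nat_lit 5966322879)), (.negSucc (nat_lit 7281945519)), (.negSucc (nat_lit 5966322895)), (.negSucc (nat_lit 9772779196465182303119)), (.ofNat (nat_lit 0)), (.ofNat (nat_lit 20495003437425349997352714240))⟩,
    ⟨nat_lit 0, nat_lit 10, (.negSucc (nat_lit 1125381951)), (.ofNat (nat_lit 12055358848)), (.negSucc (nat_lit 1125381935)), (.ofNat (nat_lit 12055358832)), (.ofNat (nat_lit 9772779196465182303120)), (.ofNat (nat_lit 0)), (.ofNat (nat_lit 7275398480362866592706496122880))⟩,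
    ⟨nat_lit 17, nat_lit 13, (.negSucc (nat_lit 12664540671)), (.negSucc (nat_lit 1503285247)), (.negSucc (nat_lit 12664540655)), (.negSucc (nat_lit 1503285263)), (.negSucc (nat_lit 9772779196465182303119)), (.ofNat (nat_lit 0)), (.ofNat (nat_lit 0))⟩]

theorem ok132 : stOK 17 17 S132 = true := by decide +kernel

def S133 : SD where
  vs := [
    ⟨nat_lit 0, nat_lit 0, nat_lit 15, (.ofNat (nat_lit 8)), (.negSucc (nat_lit 1125381951)), (.ofNat (nat_lit 54762297052020528159477706429440)), (.negSucc (nat_lit 371965567)), (.ofNat (nat_lit 3640261115611111465102917150720)), (.negSucc (nat_lit 1125381967)), (.negSucc (nat_lit 1125381935)), (.negSucc (nat_lit 9772779196465182303119)), (.ofNat (nat_lit 9772779196465182303120)), (.negSucc (nat_lit 9772779196465182303119)), (.ofNat (nat_lit 9772779196465182303120)), (.ofNat (nat_lit 0))⟩,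
    ⟨nat_lit 2, nat_lit 0, nat_lit 1, (.ofNat (nat_lit 8)), (.negSucc (nat_lit 6807351615)), (.ofNat (nat_lit 110290931979305990038035198981120)), (.negSucc (nat_lit 1003761535)), (.ofNat (nat_lit 9814663608092093496599086970880)), (.negSucc (nat_lit 6807351631)), (.negSucc (nat_lit 6807351599)), (.negSucc (nat_lit 9772779196465182303119)), (.ofNat (nat_lit 9772778344736483797968)), (.negSucc (nat_lit 9772779196465182303119)), (.ofNat (nat_lit 9772778344736483797968)), (.ofNat (nat_lit 0))⟩,
    ⟨nat_lit 0, nat_lit 1, nat_lit 2, (.ofNat (nat_lit 8)), (.ofNat (nat_lit 2447443520)), (.ofNat (nat_lit 200735993469379331493212252064768)), (.negSucc (nat_lit 1002713023)), (.ofNat (nat_lit 9824910483459889836699061994496)), (.ofNat (nat_lit 2447443504)), (.ofNat (nat_lit 2447443536)), (.ofNat (nat_lit 9772778344736483797968)), (.ofNat (nat_lit 9772778344736483797968)), (.ofNat (nat_lit 9772778344736483797968)), (.ofNat (nat_lit 9772778344736483797968)), (.ofNat (nat_lit 0))⟩,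
    ⟨nat_lit 1, nat_lit 2, nat_lit 3, (.ofNat (nat_lit 8)), (.ofNat (nat_lit 6412604288)), (.ofNat (nat_lit 239486630756288416347182603784192)), (.negSucc (nat_lit 1001926591)), (.ofNat (nat_lit 9832596109079097639125265564672)), (.ofNat (nat_lit 6412604272)), (.ofNat (nat_lit 6412604304)), (.ofNat (nat_lit 9772778344736483797968)), (.negSucc (nat_lit 9772780685713044822575)), (.negSucc (nat_lit 9772780685713044822575)), (.ofNat (nat_lit 9772778344736483797968)), (.ofNat (nat_lit 0))⟩,
    ⟨nat_lit 0, nat_lit 4, nat_lit 3, (.ofNat (nat_lit 8)), (.negSucc (nat_lit 1148135679)), (.ofNat (nat_lit 313376084285257480916208435701760)), (.negSucc (nat_lit 1842940799)), (.ofNat (nat_lit 18051643517431750945852520724480)), (.negSucc (nat_lit 1148135695)), (.negSucc (nat_lit 1148135663)), (.ofNat (nat_lit 9772779196465182303120)), (.negSucc (nat_lit 9772780685713044822575)), (.negSucc (nat_lit 9772780685713044822575)), (.ofNat (nat_lit 9772779196465182303120)), (.ofNat (nat_lit 0))⟩,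
    ⟨nat_lit 2, nat_lit 5, nat_lit 4, (.ofNat (nat_lit 8)), (.negSucc (nat_lit 14277248703)), (.ofNat (nat_lit 185068161656270201177781327866880)), (.negSucc (nat_lit 1844513663)), (.ofNat (nat_lit 18036272264853681933354506188800)), (.negSucc (nat_lit 14277248719)), (.negSucc (nat_lit 14277248687)), (.negSucc (nat_lit 9772779196465182303119)), (.ofNat (nat_lit 9772779196465182303120)), (.negSucc (nat_lit 9772779196465182303119)), (.ofNat (nat_lit 9772779196465182303120)), (.ofNat (nat_lit 0))⟩,
    ⟨nat_lit 0, nat_lit 6, nat_lit 7, (.ofNat (nat_lit 8)), (.ofNat (nat_lit 1043281472)), (.ofNat (nat_lit 258356375043762468436839051770880)), (.negSucc (nat_lit 1408248767)), (.ofNat (nat_lit 13793246768514260958260171627520)), (.ofNat (nat_lit 1043281456)), (.ofNat (nat_lit 1043281488)), (.ofNat (nat_lit 9772779196465182303120)), (.negSucc (nat_lit 9772779196465182303119)), (.negSucc (nat_lit 9772779196465182303119)), (.ofNat (nat_lit 9772779196465182303120)), (.ofNat (nat_lit 0))⟩,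
    ⟨nat_lit 0, nat_lit 7, nat_lit 8, (.ofNat (nat_lit 8)), (.ofNat (nat_lit 13721191424)), (.ofNat (nat_lit 134457960410197970494619723120640)), (.ofNat (nat_lit 1572864)), (.ofNat (nat_lit 15371252578069012498014535680)), (.ofNat (nat_lit 13721191408)), (.ofNat (nat_lit 13721191440)), (.negSucc (nat_lit 9772779196465182303119)), (.ofNat (nat_lit 9772779196465182303120)), (.negSucc (nat_lit 9772779196465182303119)), (.ofNat (nat_lit 9772779196465182303120)), (.ofNat (nat_lit 0))⟩,
    ⟨nat_lit 1, nat_lit 8, nat_lit 9, (.ofNat (nat_lit 8)), (.ofNat (nat_lit 15401214656)), (.ofNat (nat_lit 150876456501465769042976589204480)), (.ofNat (nat_lit 1835008)), (.ofNat (nat_lit 17933128007747181247683624960)), (.ofNat (nat_lit 15401214640)), (.ofNat (nat_lit 15401214672)), (.ofNat (nat_lit 9772779196465182303120)), (.negSucc (nat_lit 9772779196465182303119)), (.negSucc (nat_lit 9772779196465182303119)), (.ofNat (nat_lit 9772779196465182303120)), (.ofNat (nat_lit 0))⟩,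
    ⟨nat_lit 0, nat_lit 15, nat_lit 9, (.ofNat (nat_lit 8)), (.ofNat (nat_lit 12055358848)), (.ofNat (nat_lit 183574766536260372321649457725440)), (.negSucc (nat_lit 370392703)), (.ofNat (nat_lit 3655632368189180477600931686400)), (.ofNat (nat_lit 12055358832)), (.ofNat (nat_lit 12055358864)), (.ofNat (nat_lit 9772779196465182303120)), (.negSucc (nat_lit 9772779196465182303119)), (.negSucc (nat_lit 9772779196465182303119)), (.ofNat (nat_lit 9772779196465182303120)), (.ofNat (nat_lit 0))⟩,
    ⟨nat_lit 1, nat_lit 10, nat_lit 14, (.ofNat (nat_lit 8)), (.negSucc (nat_lit 5966322879)), (.ofNat (nat_lit 238672107608402761340376489937920)), (.negSucc (nat_lit 1686528895)), (.ofNat (nat_lit 16502569512503616362117063669760)), (.negSucc (nat_lit 5966322895)), (.negSucc (nat_lit 5966322863)), (.ofNat (nat_lit 9772779196465182303120)), (.negSucc (nat_lit 9772779196465182303119)), (.negSucc (nat_lit 9772779196465182303119)), (.ofNat (nat_lit 9772779196465182303120)), (.ofNat (nat_lit 0))⟩,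
    ⟨nat_lit 0, nat_lit 5, nat_lit 10, (.ofNat (nat_lit 8)), (.negSucc (nat_lit 12864298687)), (.ofNat (nat_lit 171259713134260254699145007016960)), (.negSucc (nat_lit 1687053183)), (.ofNat (nat_lit 16497445761644260024617725491200)), (.negSucc (nat_lit 12864298703)), (.negSucc (nat_lit 12864298671)), (.negSucc (nat_lit 9772779196465182303119)), (.ofNat (nat_lit 9772779196465182303120)), (.negSucc (nat_lit 9772779196465182303119)), (.ofNat (nat_lit 9772779196465182303120)), (.ofNat (nat_lit 0))⟩,
    ⟨nat_lit 0, nat_lit 16, nat_lit 11, (.ofNat (nat_lit 8)), (.negSucc (nat_lit 1503285247)), (.ofNat (nat_lit 15316371151933138329286883358720)), (.negSucc (nat_lit 168750143)), (.ofNat (nat_lit 1649157896683703804637751649280)), (.negSucc (nat_lit 1503285263)), (.negSucc (nat_lit 1503285231)), (.negSucc (nat_lit 9772779196465182303119)), (.ofNat (nat_lit 9772779196465182303120)), (.negSucc (nat_lit 9772779196465182303119)), (.ofNat (nat_lit 9772779196465182303120)), (.ofNat (nat_lit 0))⟩,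
    ⟨nat_lit 1, nat_lit 11, nat_lit 12, (.ofNat (nat_lit 8)), (.ofNat (nat_lit 4694911616)), (.ofNat (nat_lit 75889980520028071165673564774400)), (.negSucc (nat_lit 167963711)), (.ofNat (nat_lit 1656843522972738310886758917120)), (.ofNat (nat_lit 4694911600)), (.ofNat (nat_lit 4694911632)), (.ofNat (nat_lit 9772779196465182303120)), (.negSucc (nat_lit 9772779196465182303119)), (.negSucc (nat_lit 9772779196465182303119)), (.ofNat (nat_lit 9772779196465182303120)), (.ofNat (nat_lit 0))⟩,
    ⟨nat_lit 2, nat_lit 12, nat_lit 13, (.ofNat (nat_lit 8)), (.negSucc (nat_lit 10279671935)), (.ofNat (nat_lit 222233279132743366622655795056640)), (.negSucc (nat_lit 1833204351)), (.ofNat (nat_lit 17930872606673104227050981713920)), (.negSucc (nat_lit 10279671951)), (.negSucc (nat_lit 10279671919)), (.negSucc (nat_lit 9772779196465182303119)), (.ofNat (nat_lit 9772779196465182303120)), (.negSucc (nat_lit 9772779196465182303119)), (.ofNat (nat_lit 9772779196465182303120)), (.ofNat (nat_lit 0))⟩,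
    ⟨nat_lit 0, nat_lit 13, nat_lit 14, (.ofNat (nat_lit 8)), (.negSucc (nat_lit 7281945535)), (.ofNat (nat_lit 251529397331357830293531421424640)), (.negSucc (nat_lit 1832942207)), (.ofNat (nat_lit 17933434482102782395800650803200)), (.negSucc (nat_lit 7281945551)), (.negSucc (nat_lit 7281945519)), (.ofNat (nat_lit 9772779196465182303120)), (.negSucc (nat_lit 9772779196465182303119)), (.negSucc (nat_lit 9772779196465182303119)), (.ofNat (nat_lit 9772779196465182303120)), (.ofNat (nat_lit 0))⟩,
    ⟨nat_lit 2, nat_lit 16, nat_lit 6, (.ofNat (nat_lit 8)), (.negSucc (nat_lit 12664540671)), (.ofNat (nat_lit 124392855966034515937133795481600)), (.negSucc (nat_lit 1409821631)), (.ofNat (nat_lit 13777875515936191945762157091840)), (.negSucc (nat_lit 12664540687)), (.negSucc (nat_lit 12664540655)), (.negSucc (nat_lit 9772779196465182303119)), (.ofNat (nat_lit 9772779196465182303120)), (.negSucc (nat_lit 9772779196465182303119)), (.ofNat (nat_lit 9772779196465182303120)), (.ofNat (nat_lit 0))⟩]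
  es := [
    ⟨nat_lit 1, nat_lit 0, (.negSucc (nat_lit 6807351615)), (.negSucc (nat_lit 1125381951)), (.negSucc (nat_lit 6807351599)), (.negSucc (nat_lit 1125381967)), (.negSucc (nat_lit 9772779196465182303119)), (.ofNat (nat_lit 0)), (.ofNat (nat_lit 5123750859356337499338178560))⟩,
    ⟨nat_lit 1, nat_lit 2, (.negSucc (nat_lit 6807351615)), (.ofNat (nat_lit 2447443520)), (.negSucc (nat_lit 6807351599)), (.ofNat (nat_lit 2447443504)), (.ofNat (nat_lit 9772778344736483797968)), (.ofNat (nat_lit 0)), (.ofNat (nat_lit 19624202610392323988886560329728))⟩,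
    ⟨nat_lit 2, nat_lit 3, (.ofNat (nat_lit 2447443520)), (.ofNat (nat_lit 6412604288)), (.ofNat (nat_lit 2447443536)), (.ofNat (nat_lit 6412604272)), (.ofNat (nat_lit 9772778344736483797968)), (.ofNat (nat_lit 0)), (.ofNat (nat_lit 19624202610392323988886560329728))⟩,
    ⟨nat_lit 4, nat_lit 3, (.negSucc (nat_lit 1148135679)), (.ofNat (nat_lit 6412604288)), (.negSucc (nat_lit 1148135663)), (.ofNat (nat_lit 6412604272)), (.negSucc (nat_lit 9772780685713044822575)), (.ofNat (nat_lit 0)), (.ofNat (nat_lit 40987262279203550098449223680))⟩,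
    ⟨nat_lit 5, nat_lit 4, (.negSucc (nat_lit 14277248703)), (.negSucc (nat_lit 1148135679)), (.negSucc (nat_lit 14277248687)), (.negSucc (nat_lit 1148135695)), (.ofNat (nat_lit 9772779196465182303120)), (.ofNat (nat_lit 0)), (.ofNat (nat_lit 36062297027988651191710336020480))⟩,
    ⟨nat_lit 5, nat_lit 11, (.negSucc (nat_lit 14277248703)), (.negSucc (nat_lit 12864298687)), (.negSucc (nat_lit 14277248687)), (.negSucc (nat_lit 12864298703)), (.negSucc (nat_lit 9772779196465182303119)), (.ofNat (nat_lit 0)), (.ofNat (nat_lit 10247501718712674998676357120))⟩,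
    ⟨nat_lit 16, nat_lit 6, (.negSucc (nat_lit 12664540671)), (.ofNat (nat_lit 1043281472)), (.negSucc (nat_lit 12664540655)), (.ofNat (nat_lit 1043281456)), (.ofNat (nat_lit 9772779196465182303120)), (.ofNat (nat_lit 0)), (.ofNat (nat_lit 27555751031872383891524314183680))⟩,
    ⟨nat_lit 6, nat_lit 7, (.ofNat (nat_lit 1043281472)), (.ofNat (nat_lit 13721191424)), (.ofNat (nat_lit 1043281488)), (.ofNat (nat_lit 13721191408)), (.negSucc (nat_lit 9772779196465182303119)), (.ofNat (nat_lit 0)), (.ofNat (nat_lit 30742505156138024996029071360))⟩,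
    ⟨nat_lit 7, nat_lit 8, (.ofNat (nat_lit 13721191424)), (.ofNat (nat_lit 15401214656)), (.ofNat (nat_lit 13721191440)), (.ofNat (nat_lit 15401214640)), (.ofNat (nat_lit 9772779196465182303120)), (.ofNat (nat_lit 0)), (.ofNat (nat_lit 0))⟩,
    ⟨nat_lit 9, nat_lit 8, (.ofNat (nat_lit 12055358848)), (.ofNat (nat_lit 15401214656)), (.ofNat (nat_lit 12055358864)), (.ofNat (nat_lit 15401214640)), (.negSucc (nat_lit 9772779196465182303119)), (.ofNat (nat_lit 0)), (.ofNat (nat_lit 35866256015494362495367249920))⟩,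
    ⟨nat_lit 11, nat_lit 10, (.negSucc (nat_lit 12864298687)), (.negSucc (nat_lit 5966322879)), (.negSucc (nat_lit 12864298671)), (.negSucc (nat_lit 5966322895)), (.ofNat (nat_lit 9772779196465182303120)), (.ofNat (nat_lit 0)), (.ofNat (nat_lit 32984644021569807374236774625280))⟩,
    ⟨nat_lit 12, nat_lit 13, (.negSucc (nat_lit 1503285247)), (.ofNat (nat_lit 4694911616)), (.negSucc (nat_lit 1503285231)), (.ofNat (nat_lit 4694911600)), (.ofNat (nat_lit 9772779196465182303120)), (.ofNat (nat_lit 0)), (.ofNat (nat_lit 3298315793367407609275503298560))⟩,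
    ⟨nat_lit 14, nat_lit 13, (.negSucc (nat_lit 10279671935)), (.ofNat (nat_lit 4694911616)), (.negSucc (nat_lit 10279671919)), (.ofNat (nat_lit 4694911600)), (.negSucc (nat_lit 9772779196465182303119)), (.ofNat (nat_lit 0)), (.ofNat (nat_lit 15371252578069012498014535680))⟩,
    ⟨nat_lit 14, nat_lit 15, (.negSucc (nat_lit 10279671935)), (.negSucc (nat_lit 7281945535)), (.negSucc (nat_lit 10279671919)), (.negSucc (nat_lit 7281945551)), (.ofNat (nat_lit 9772779196465182303120)), (.ofNat (nat_lit 0)), (.ofNat (nat_lit 35846373960768139441603948892160))⟩,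
    ⟨nat_lit 15, nat_lit 10, (.negSucc (nat_lit 7281945535)), (.negSucc (nat_lit 5966322879)), (.negSucc (nat_lit 7281945519)), (.negSucc (nat_lit 5966322895)), (.negSucc (nat_lit 9772779196465182303119)), (.ofNat (nat_lit 0)), (.ofNat (nat_lit 20495003437425349997352714240))⟩,
    ⟨nat_lit 0, nat_lit 9, (.negSucc (nat_lit 1125381951)), (.ofNat (nat_lit 12055358848)), (.negSucc (nat_lit 1125381935)), (.ofNat (nat_lit 12055358832)), (.ofNat (nat_lit 9772779196465182303120)), (.ofNat (nat_lit 0)), (.ofNat (nat_lit 7275398480362866592706496122880))⟩,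
    ⟨nat_lit 16, nat_lit 12, (.negSucc (nat_lit 12664540671)), (.negSucc (nat_lit 1503285247)), (.negSucc (nat_lit 12664540655)), (.negSucc (nat_lit 1503285263)), (.negSucc (nat_lit 9772779196465182303119)), (.ofNat (nat_lit 0)), (.ofNat (nat_lit 0))⟩]

theorem ok133 : stOK 16 16 S133 = true := by decide +kernel

def S134 : SD where
  vs := [
    ⟨nat_lit 0, nat_lit 0, nat_lit 14, (.ofNat (nat_lit 8)), (.negSucc (nat_lit 1125381951)), (.ofNat (nat_lit 54762297052020528159477706429440)), (.negSucc (nat_lit 371965567)), (.ofNat (nat_lit 3640261115611111465102917150720)), (.negSucc (nat_lit 1125381967)), (.negSucc (nat_lit 1125381935)), (.negSucc (nat_lit 9772779196465182303119)), (.ofNat (nat_lit 9772779196465182303120)), (.negSucc (nat_lit 9772779196465182303119)), (.ofNat (nat_lit 9772779196465182303120)), (.ofNat (nat_lit 0))⟩,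
    ⟨nat_lit 2, nat_lit 0, nat_lit 1, (.ofNat (nat_lit 8)), (.negSucc (nat_lit 6807351615)), (.ofNat (nat_lit 110290931979305990038035198981120)), (.negSucc (nat_lit 1003761535)), (.ofNat (nat_lit 9814663608092093496599086970880)), (.negSucc (nat_lit 6807351631)), (.negSucc (nat_lit 6807351599)), (.negSucc (nat_lit 9772779196465182303119)), (.ofNat (nat_lit 9772778344736483797968)), (.negSucc (nat_lit 9772779196465182303119)), (.ofNat (nat_lit 9772778344736483797968)), (.ofNat (nat_lit 0))⟩,
    ⟨nat_lit 1, nat_lit 1, nat_lit 2, (.ofNat (nat_lit 8)), (.ofNat (nat_lit 6412604288)), (.ofNat (nat_lit 239486630756288416347182603784192)), (.negSucc (nat_lit 1001926591)), (.ofNat (nat_lit 9832596109079097639125265564672)), (.ofNat (nat_lit 6412604272)), (.ofNat (nat_lit 6412604304)), (.ofNat (nat_lit 9772778344736483797968)), (.negSucc (nat_lit 9772780685713044822575)), (.negSucc (nat_lit 9772780685713044822575)), (.ofNat (nat_lit 9772778344736483797968)), (.ofNat (nat_lit 0))⟩,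
    ⟨nat_lit 0, nat_lit 3, nat_lit 2, (.ofNat (nat_lit 8)), (.negSucc (nat_lit 1148135679)), (.ofNat (nat_lit 313376084285257480916208435701760)), (.negSucc (nat_lit 1842940799)), (.ofNat (nat_lit 18051643517431750945852520724480)), (.negSucc (nat_lit 1148135695)), (.negSucc (nat_lit 1148135663)), (.ofNat (nat_lit 9772779196465182303120)), (.negSucc (nat_lit 9772780685713044822575)), (.negSucc (nat_lit 9772780685713044822575)), (.ofNat (nat_lit 9772779196465182303120)), (.ofNat (nat_lit 0))⟩,
    ⟨nat_lit 2, nat_lit 4, nat_lit 3, (.ofNat (nat_lit 8)), (.negSucc (nat_lit 14277248703)), (.ofNat (nat_lit 185068161656270201177781327866880)), (.negSucc (nat_lit 1844513663)), (.ofNat (nat_lit 18036272264853681933354506188800)), (.negSucc (nat_lit 14277248719)), (.negSucc (nat_lit 14277248687)), (.negSucc (nat_lit 9772779196465182303119)), (.ofNat (nat_lit 9772779196465182303120)), (.negSucc (nat_lit 9772779196465182303119)), (.ofNat (nat_lit 9772779196465182303120)), (.ofNat (nat_lit 0))⟩,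
    ⟨nat_lit 0, nat_lit 5, nat_lit 6, (.ofNat (nat_lit 8)), (.ofNat (nat_lit 1043281472)), (.ofNat (nat_lit 258356375043762468436839051770880)), (.negSucc (nat_lit 1408248767)), (.ofNat (nat_lit 13793246768514260958260171627520)), (.ofNat (nat_lit 1043281456)), (.ofNat (nat_lit 1043281488)), (.ofNat (nat_lit 9772779196465182303120)), (.negSucc (nat_lit 9772779196465182303119)), (.negSucc (nat_lit 9772779196465182303119)), (.ofNat (nat_lit 9772779196465182303120)), (.ofNat (nat_lit 0))⟩,
    ⟨nat_lit 0, nat_lit 6, nat_lit 7, (.ofNat (nat_lit 8)), (.ofNat (nat_lit 13721191424)), (.ofNat (nat_lit 134457960410197970494619723120640)), (.ofNat (nat_lit 1572864)), (.ofNat (nat_lit 15371252578069012498014535680)), (.ofNat (nat_lit 13721191408)), (.ofNat (nat_lit 13721191440)), (.negSucc (nat_lit 9772779196465182303119)), (.ofNat (nat_lit 9772779196465182303120)), (.negSucc (nat_lit 9772779196465182303119)), (.ofNat (nat_lit 9772779196465182303120)), (.ofNat (nat_lit 0))⟩,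
    ⟨nat_lit 1, nat_lit 7, nat_lit 8, (.ofNat (nat_lit 8)), (.ofNat (nat_lit 15401214656)), (.ofNat (nat_lit 150876456501465769042976589204480)), (.ofNat (nat_lit 1835008)), (.ofNat (nat_lit 17933128007747181247683624960)), (.ofNat (nat_lit 15401214640)), (.ofNat (nat_lit 15401214672)), (.ofNat (nat_lit 9772779196465182303120)), (.negSucc (nat_lit 9772779196465182303119)), (.negSucc (nat_lit 9772779196465182303119)), (.ofNat (nat_lit 9772779196465182303120)), (.ofNat (nat_lit 0))⟩,
    ⟨nat_lit 0, nat_lit 14, nat_lit 8, (.ofNat (nat_lit 8)), (.ofNat (nat_lit 12055358848)), (.ofNat (nat_lit 183574766536260372321649457725440)), (.negSucc (nat_lit 370392703)), (.ofNat (nat_lit 3655632368189180477600931686400)), (.ofNat (nat_lit 12055358832)), (.ofNat (nat_lit 12055358864)), (.ofNat (nat_lit 9772779196465182303120)), (.negSucc (nat_lit 9772779196465182303119)), (.negSucc (nat_lit 9772779196465182303119)), (.ofNat (nat_lit 9772779196465182303120)), (.ofNat (nat_lit 0))⟩,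
    ⟨nat_lit 1, nat_lit 9, nat_lit 13, (.ofNat (nat_lit 8)), (.negSucc (nat_lit 5966322879)), (.ofNat (nat_lit 238672107608402761340376489937920)), (.negSucc (nat_lit 1686528895)), (.ofNat (nat_lit 16502569512503616362117063669760)), (.negSucc (nat_lit 5966322895)), (.negSucc (nat_lit 5966322863)), (.ofNat (nat_lit 9772779196465182303120)), (.negSucc (nat_lit 9772779196465182303119)), (.negSucc (nat_lit 9772779196465182303119)), (.ofNat (nat_lit 9772779196465182303120)), (.ofNat (nat_lit 0))⟩,
    ⟨nat_lit 0, nat_lit 4, nat_lit 9, (.ofNat (nat_lit 8)), (.negSucc (nat_lit 12864298687)), (.ofNat (nat_lit 171259713134260254699145007016960)), (.negSucc (nat_lit 1687053183)), (.ofNat (nat_lit 16497445761644260024617725491200)), (.negSucc (nat_lit 12864298703)), (.negSucc (nat_lit 12864298671)), (.negSucc (nat_lit 9772779196465182303119)), (.ofNat (nat_lit 9772779196465182303120)), (.negSucc (nat_lit 9772779196465182303119)), (.ofNat (nat_lit 9772779196465182303120)), (.ofNat (nat_lit 0))⟩,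
    ⟨nat_lit 0, nat_lit 15, nat_lit 10, (.ofNat (nat_lit 8)), (.negSucc (nat_lit 1503285247)), (.ofNat (nat_lit 15316371151933138329286883358720)), (.negSucc (nat_lit 168750143)), (.ofNat (nat_lit 1649157896683703804637751649280)), (.negSucc (nat_lit 1503285263)), (.negSucc (nat_lit 1503285231)), (.negSucc (nat_lit 9772779196465182303119)), (.ofNat (nat_lit 9772779196465182303120)), (.negSucc (nat_lit 9772779196465182303119)), (.ofNat (nat_lit 9772779196465182303120)), (.ofNat (nat_lit 0))⟩,
    ⟨nat_lit 1, nat_lit 10, nat_lit 11, (.ofNat (nat_lit 8)), (.ofNat (nat_lit 4694911616)), (.ofNat (nat_lit 75889980520028071165673564774400)), (.negSucc (nat_lit 167963711)), (.ofNat (nat_lit 1656843522972738310886758917120)), (.ofNat (nat_lit 4694911600)), (.ofNat (nat_lit 4694911632)), (.ofNat (nat_lit 9772779196465182303120)), (.negSucc (nat_lit 9772779196465182303119)), (.negSucc (nat_lit 9772779196465182303119)), (.ofNat (nat_lit 9772779196465182303120)), (.ofNat (nat_lit 0))⟩,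
    ⟨nat_lit 2, nat_lit 11, nat_lit 12, (.ofNat (nat_lit 8)), (.negSucc (nat_lit 10279671935)), (.ofNat (nat_lit 222233279132743366622655795056640)), (.negSucc (nat_lit 1833204351)), (.ofNat (nat_lit 17930872606673104227050981713920)), (.negSucc (nat_lit 10279671951)), (.negSucc (nat_lit 10279671919)), (.negSucc (nat_lit 9772779196465182303119)), (.ofNat (nat_lit 9772779196465182303120)), (.negSucc (nat_lit 9772779196465182303119)), (.ofNat (nat_lit 9772779196465182303120)), (.ofNat (nat_lit 0))⟩,
    ⟨nat_lit 0, nat_lit 12, nat_lit 13, (.ofNat (nat_lit 8)), (.negSucc (nat_lit 7281945535)), (.ofNat (nat_lit 251529397331357830293531421424640)), (.negSucc (nat_lit 1832942207)), (.ofNat (nat_lit 17933434482102782395800650803200)), (.negSucc (nat_lit 7281945551)), (.negSucc (nat_lit 7281945519)), (.ofNat (nat_lit 9772779196465182303120)), (.negSucc (nat_lit 9772779196465182303119)), (.negSucc (nat_lit 9772779196465182303119)), (.ofNat (nat_lit 9772779196465182303120)), (.ofNat (nat_lit 0))⟩,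
    ⟨nat_lit 2, nat_lit 15, nat_lit 5, (.ofNat (nat_lit 8)), (.negSucc (nat_lit 12664540671)), (.ofNat (nat_lit 124392855966034515937133795481600)), (.negSucc (nat_lit 1409821631)), (.ofNat (nat_lit 13777875515936191945762157091840)), (.negSucc (nat_lit 12664540687)), (.negSucc (nat_lit 12664540655)), (.negSucc (nat_lit 9772779196465182303119)), (.ofNat (nat_lit 9772779196465182303120)), (.negSucc (nat_lit 9772779196465182303119)), (.ofNat (nat_lit 9772779196465182303120)), (.ofNat (nat_lit 0))⟩]
  es := [
    ⟨nat_lit 1, nat_lit 0, (.negSucc (nat_lit 6807351615)), (.negSucc (nat_lit 1125381951)), (.negSucc (nat_lit 6807351599)), (.negSucc (nat_lit 1125381967)), (.negSucc (nat_lit 9772779196465182303119)), (.ofNat (nat_lit 0)), (.ofNat (nat_lit 5123750859356337499338178560))⟩,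
    ⟨nat_lit 1, nat_lit 2, (.negSucc (nat_lit 6807351615)), (.ofNat (nat_lit 6412604288)), (.negSucc (nat_lit 6807351599)), (.ofNat (nat_lit 6412604272)), (.ofNat (nat_lit 9772778344736483797968)), (.ofNat (nat_lit 0)), (.ofNat (nat_lit 19624202610392323988886560329728))⟩,
    ⟨nat_lit 3, nat_lit 2, (.negSucc (nat_lit 1148135679)), (.ofNat (nat_lit 6412604288)), (.negSucc (nat_lit 1148135663)), (.ofNat (nat_lit 6412604272)), (.negSucc (nat_lit 9772780685713044822575)), (.ofNat (nat_lit 0)), (.ofNat (nat_lit 40987262279203550098449223680))⟩,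
    ⟨nat_lit 4, nat_lit 3, (.negSucc (nat_lit 14277248703)), (.negSucc (nat_lit 1148135679)), (.negSucc (nat_lit 14277248687)), (.negSucc (nat_lit 1148135695)), (.ofNat (nat_lit 9772779196465182303120)), (.ofNat (nat_lit 0)), (.ofNat (nat_lit 36062297027988651191710336020480))⟩,
    ⟨nat_lit 4, nat_lit 10, (.negSucc (nat_lit 14277248703)), (.negSucc (nat_lit 12864298687)), (.negSucc (nat_lit 14277248687)), (.negSucc (nat_lit 12864298703)), (.negSucc (nat_lit 9772779196465182303119)), (.ofNat (nat_lit 0)), (.ofNat (nat_lit 10247501718712674998676357120))⟩,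
    ⟨nat_lit 15, nat_lit 5, (.negSucc (nat_lit 12664540671)), (.ofNat (nat_lit 1043281472)), (.negSucc (nat_lit 12664540655)), (.ofNat (nat_lit 1043281456)), (.ofNat (nat_lit 9772779196465182303120)), (.ofNat (nat_lit 0)), (.ofNat (nat_lit 27555751031872383891524314183680))⟩,
    ⟨nat_lit 5, nat_lit 6, (.ofNat (nat_lit 1043281472)), (.ofNat (nat_lit 13721191424)), (.ofNat (nat_lit 1043281488)), (.ofNat (nat_lit 13721191408)), (.negSucc (nat_lit 9772779196465182303119)), (.ofNat (nat_lit 0)), (.ofNat (nat_lit 30742505156138024996029071360))⟩,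
    ⟨nat_lit 6, nat_lit 7, (.ofNat (nat_lit 13721191424)), (.ofNat (nat_lit 15401214656)), (.ofNat (nat_lit 13721191440)), (.ofNat (nat_lit 15401214640)), (.ofNat (nat_lit 9772779196465182303120)), (.ofNat (nat_lit 0)), (.ofNat (nat_lit 0))⟩,
    ⟨nat_lit 8, nat_lit 7, (.ofNat (nat_lit 12055358848)), (.ofNat (nat_lit 15401214656)), (.ofNat (nat_lit 12055358864)), (.ofNat (nat_lit 15401214640)), (.negSucc (nat_lit 9772779196465182303119)), (.ofNat (nat_lit 0)), (.ofNat (nat_lit 35866256015494362495367249920))⟩,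
    ⟨nat_lit 10, nat_lit 9, (.negSucc (nat_lit 12864298687)), (.negSucc (nat_lit 5966322879)), (.negSucc (nat_lit 12864298671)), (.negSucc (nat_lit 5966322895)), (.ofNat (nat_lit 9772779196465182303120)), (.ofNat (nat_lit 0)), (.ofNat (nat_lit 32984644021569807374236774625280))⟩,
    ⟨nat_lit 11, nat_lit 12, (.negSucc (nat_lit 1503285247)), (.ofNat (nat_lit 4694911616)), (.negSucc (nat_lit 1503285231)), (.ofNat (nat_lit 4694911600)), (.ofNat (nat_lit 9772779196465182303120)), (.ofNat (nat_lit 0)), (.ofNat (nat_lit 3298315793367407609275503298560))⟩,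
    ⟨nat_lit 13, nat_lit 12, (.negSucc (nat_lit 10279671935)), (.ofNat (nat_lit 4694911616)), (.negSucc (nat_lit 10279671919)), (.ofNat (nat_lit 4694911600)), (.negSucc (nat_lit 9772779196465182303119)), (.ofNat (nat_lit 0)), (.ofNat (nat_lit 15371252578069012498014535680))⟩,
    ⟨nat_lit 13, nat_lit 14, (.negSucc (nat_lit 10279671935)), (.negSucc (nat_lit 7281945535)), (.negSucc (nat_lit 10279671919)), (.negSucc (nat_lit 7281945551)), (.ofNat (nat_lit 9772779196465182303120)), (.ofNat (nat_lit 0)), (.ofNat (nat_lit 35846373960768139441603948892160))⟩,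
    ⟨nat_lit 14, nat_lit 9, (.negSucc (nat_lit 7281945535)), (.negSucc (nat_lit 5966322879)), (.negSucc (nat_lit 7281945519)), (.negSucc (nat_lit 5966322895)), (.negSucc (nat_lit 9772779196465182303119)), (.ofNat (nat_lit 0)), (.ofNat (nat_lit 20495003437425349997352714240))⟩,
    ⟨nat_lit 0, nat_lit 8, (.negSucc (nat_lit 1125381951)), (.ofNat (nat_lit 12055358848)), (.negSucc (nat_lit 1125381935)), (.ofNat (nat_lit 12055358832)), (.ofNat (nat_lit 9772779196465182303120)), (.ofNat (nat_lit 0)), (.ofNat (nat_lit 7275398480362866592706496122880))⟩,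
    ⟨nat_lit 15, nat_lit 11, (.negSucc (nat_lit 12664540671)), (.negSucc (nat_lit 1503285247)), (.negSucc (nat_lit 12664540655)), (.negSucc (nat_lit 1503285263)), (.negSucc (nat_lit 9772779196465182303119)), (.ofNat (nat_lit 0)), (.ofNat (nat_lit 0))⟩]

theorem ok134 : stOK 15 15 S134 = true := by decide +kernel

def S135 : SD where
  vs := [
    ⟨nat_lit 0, nat_lit 0, nat_lit 14, (.ofNat (nat_lit 8)), (.negSucc (nat_lit 1125381951)), (.ofNat (nat_lit 55617957943458348911968144703872)), (.ofNat (nat_lit 0)), (.ofNat (nat_lit 855660891437820752490438274432)), (.negSucc (nat_lit 1125381967)), (.negSucc (nat_lit 1125381935)), (.negSucc (nat_lit 9925478871409950776605)), (.ofNat (nat_lit 9925478871409950776606)), (.negSucc (nat_lit 9925478871409950776605)), (.ofNat (nat_lit 9925478871409950776606)), (.ofNat (nat_lit 916198049668610840916))⟩,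
    ⟨nat_lit 2, nat_lit 0, nat_lit 1, (.ofNat (nat_lit 8)), (.negSucc (nat_lit 6807351615)), (.ofNat (nat_lit 112014227791482646132376677584256)), (.ofNat (nat_lit 0)), (.ofNat (nat_lit 1723295812176656094341478603136)), (.negSucc (nat_lit 6807351631)), (.negSucc (nat_lit 6807351599)), (.negSucc (nat_lit 9925478871409950776605)), (.ofNat (nat_lit 9925478871409950776606)), (.negSucc (nat_lit 9925478871409950776605)), (.ofNat (nat_lit 9925478871409950776606)), (.ofNat (nat_lit 916199753126007851220))⟩,
    ⟨nat_lit 1, nat_lit 1, nat_lit 2, (.ofNat (nat_lit 8)), (.ofNat (nat_lit 6412604288)), (.ofNat (nat_lit 243228620797605881705918552366080)), (.ofNat (nat_lit 0)), (.ofNat (nat_lit 3741990041317465358735948581888)), (.ofNat (nat_lit 6412604272)), (.ofNat (nat_lit 6412604304)), (.ofNat (nat_lit 9925478871409950776606)), (.negSucc (nat_lit 9925478871409950776605)), (.negSucc (nat_lit 9925478871409950776605)), (.ofNat (nat_lit 9925478871409950776606)), (.ofNat (nat_lit 916198478087679822612))⟩,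
    ⟨nat_lit 0, nat_lit 3, nat_lit 2, (.ofNat (nat_lit 8)), (.negSucc (nat_lit 1148135679)), (.ofNat (nat_lit 318272585602214629055516175954688)), (.ofNat (nat_lit 0)), (.ofNat (nat_lit 4896501316957148139307740252928)), (.negSucc (nat_lit 1148135695)), (.negSucc (nat_lit 1148135663)), (.ofNat (nat_lit 9925478871409950776606)), (.negSucc (nat_lit 9925478871409950776605)), (.negSucc (nat_lit 9925478871409950776605)), (.ofNat (nat_lit 9925478871409950776606)), (.ofNat (nat_lit 916195071172885802004))⟩,
    ⟨nat_lit 2, nat_lit 4, nat_lit 3, (.ofNat (nat_lit 8)), (.negSucc (nat_lit 14277248703)), (.ofNat (nat_lit 187959851682149423071179426838144)), (.ofNat (nat_lit 0)), (.ofNat (nat_lit 2891690025879221893398098971264)), (.negSucc (nat_lit 14277248719)), (.negSucc (nat_lit 14277248687)), (.negSucc (nat_lit 9925478871409950776605)), (.ofNat (nat_lit 9925478871409950776606)), (.negSucc (nat_lit 9925478871409950776605)), (.ofNat (nat_lit 9925478871409950776606)), (.ofNat (nat_lit 916198049668610840916))⟩,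
    ⟨nat_lit 0, nat_lit 5, nat_lit 6, (.ofNat (nat_lit 8)), (.ofNat (nat_lit 1043281472)), (.ofNat (nat_lit 262393193403821257006158052873344)), (.ofNat (nat_lit 0)), (.ofNat (nat_lit 4036818360058788569319001102464)), (.ofNat (nat_lit 1043281456)), (.ofNat (nat_lit 1043281488)), (.ofNat (nat_lit 9925478871409950776606)), (.negSucc (nat_lit 9925478871409950776605)), (.negSucc (nat_lit 9925478871409950776605)), (.ofNat (nat_lit 9925478871409950776606)), (.ofNat (nat_lit 916198049668610840916))⟩,
    ⟨nat_lit 0, nat_lit 6, nat_lit 7, (.ofNat (nat_lit 8)), (.ofNat (nat_lit 13721191424)), (.ofNat (nat_lit 136558866041607313783594716690432)), (.ofNat (nat_lit 0)), (.ofNat (nat_lit 2100905631409343288974993569792)), (.ofNat (nat_lit 13721191408)), (.ofNat (nat_lit 13721191440)), (.negSucc (nat_lit 9925478871409950776605)), (.ofNat (nat_lit 9925478871409950776606)), (.negSucc (nat_lit 9925478871409950776605)), (.ofNat (nat_lit 9925478871409950776606)), (.ofNat (nat_lit 916198049668610840916))⟩,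
    ⟨nat_lit 1, nat_lit 7, nat_lit 8, (.ofNat (nat_lit 8)), (.ofNat (nat_lit 15401214656)), (.ofNat (nat_lit 153233901134301171684269238801024)), (.ofNat (nat_lit 0)), (.ofNat (nat_lit 2357444632835402641292649596544)), (.ofNat (nat_lit 15401214640)), (.ofNat (nat_lit 15401214672)), (.ofNat (nat_lit 9925478871409950776606)), (.negSucc (nat_lit 9925478871409950776605)), (.negSucc (nat_lit 9925478871409950776605)), (.ofNat (nat_lit 9925478871409950776606)), (.ofNat (nat_lit 916198049668610840916))⟩,
    ⟨nat_lit 0, nat_lit 14, nat_lit 8, (.ofNat (nat_lit 8)), (.ofNat (nat_lit 12055358848)), (.ofNat (nat_lit 186443122263389440639170534428672)), (.ofNat (nat_lit 0)), (.ofNat (nat_lit 2868355727129068317521076703232)), (.ofNat (nat_lit 12055358832)), (.ofNat (nat_lit 12055358864)), (.ofNat (nat_lit 9925478871409950776606)), (.negSucc (nat_lit 9925478871409950776605)), (.negSucc (nat_lit 9925478871409950776605)), (.ofNat (nat_lit 9925478871409950776606)), (.ofNat (nat_lit 916198049668610840916))⟩,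
    ⟨nat_lit 1, nat_lit 9, nat_lit 13, (.ofNat (nat_lit 8)), (.negSucc (nat_lit 5966322879)), (.ofNat (nat_lit 242401359289784054486313767060096)), (.ofNat (nat_lit 0)), (.ofNat (nat_lit 3729251681381293145937277122176)), (.negSucc (nat_lit 5966322895)), (.negSucc (nat_lit 5966322863)), (.ofNat (nat_lit 9925478871409950776606)), (.negSucc (nat_lit 9925478871409950776605)), (.negSucc (nat_lit 9925478871409950776605)), (.ofNat (nat_lit 9925478871409950776606)), (.ofNat (nat_lit 916198049668610840916))⟩,
    ⟨nat_lit 0, nat_lit 4, nat_lit 9, (.ofNat (nat_lit 8)), (.negSucc (nat_lit 12864298687)), (.ofNat (nat_lit 173935646151983071178814766712448)), (.ofNat (nat_lit 0)), (.ofNat (nat_lit 2675933017722816479669759695488)), (.negSucc (nat_lit 12864298703)), (.negSucc (nat_lit 12864298671)), (.negSucc (nat_lit 9925478871409950776605)), (.ofNat (nat_lit 9925478871409950776606)), (.negSucc (nat_lit 9925478871409950776605)), (.ofNat (nat_lit 9925478871409950776606)), (.ofNat (nat_lit 916198049668610840916))⟩,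
    ⟨nat_lit 0, nat_lit 15, nat_lit 10, (.ofNat (nat_lit 8)), (.negSucc (nat_lit 1503285247)), (.ofNat (nat_lit 15555689451182093615681599099136)), (.ofNat (nat_lit 0)), (.ofNat (nat_lit 239318299248955286394715740416)), (.negSucc (nat_lit 1503285263)), (.negSucc (nat_lit 1503285231)), (.negSucc (nat_lit 9925478871409950776605)), (.ofNat (nat_lit 9925478871409950776606)), (.negSucc (nat_lit 9925478871409950776605)), (.ofNat (nat_lit 9925478871409950776606)), (.ofNat (nat_lit 916198049668610840916))⟩,
    ⟨nat_lit 1, nat_lit 10, nat_lit 11, (.ofNat (nat_lit 8)), (.ofNat (nat_lit 4694911616)), (.ofNat (nat_lit 77075761465653509777635272862720)), (.ofNat (nat_lit 0)), (.ofNat (nat_lit 1185780945625438611961708088320)), (.ofNat (nat_lit 4694911600)), (.ofNat (nat_lit 4694911632)), (.ofNat (nat_lit 9925478871409950776606)), (.negSucc (nat_lit 9925478871409950776605)), (.negSucc (nat_lit 9925478871409950776605)), (.ofNat (nat_lit 9925478871409950776606)), (.ofNat (nat_lit 916198049668610840916))⟩,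
    ⟨nat_lit 2, nat_lit 11, nat_lit 12, (.ofNat (nat_lit 8)), (.negSucc (nat_lit 10279671935)), (.ofNat (nat_lit 225705674119192481726129106847232)), (.ofNat (nat_lit 0)), (.ofNat (nat_lit 3472394986449115103473311790592)), (.negSucc (nat_lit 10279671951)), (.negSucc (nat_lit 10279671919)), (.negSucc (nat_lit 9925478871409950776605)), (.ofNat (nat_lit 9925478871409950776606)), (.negSucc (nat_lit 9925478871409950776605)), (.ofNat (nat_lit 9925478871409950776606)), (.ofNat (nat_lit 916198049668610840916))⟩,
    ⟨nat_lit 0, nat_lit 12, nat_lit 13, (.ofNat (nat_lit 8)), (.negSucc (nat_lit 7281945535)), (.ofNat (nat_lit 255459544164660296391861415445632)), (.ofNat (nat_lit 0)), (.ofNat (nat_lit 3930146833302466098329994020992)), (.negSucc (nat_lit 7281945551)), (.negSucc (nat_lit 7281945519)), (.ofNat (nat_lit 9925478871409950776606)), (.negSucc (nat_lit 9925478871409950776605)), (.negSucc (nat_lit 9925478871409950776605)), (.ofNat (nat_lit 9925478871409950776606)), (.ofNat (nat_lit 916198049668610840916))⟩,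
    ⟨nat_lit 2, nat_lit 15, nat_lit 5, (.ofNat (nat_lit 8)), (.negSucc (nat_lit 12664540671)), (.ofNat (nat_lit 126336494340503805248648328910080)), (.ofNat (nat_lit 0)), (.ofNat (nat_lit 1943638374469289311514533428480)), (.negSucc (nat_lit 12664540687)), (.negSucc (nat_lit 12664540655)), (.negSucc (nat_lit 9925478871409950776605)), (.ofNat (nat_lit 9925478871409950776606)), (.negSucc (nat_lit 9925478871409950776605)), (.ofNat (nat_lit 9925478871409950776606)), (.ofNat (nat_lit 916198049668610840916))⟩]
  es := [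
    ⟨nat_lit 1, nat_lit 0, (.negSucc (nat_lit 6807351615)), (.negSucc (nat_lit 1125381951)), (.negSucc (nat_lit 6807351599)), (.negSucc (nat_lit 1125381967)), (.negSucc (nat_lit 9925478871409950776605)), (.negSucc (nat_lit 152699674944768473485)), (.ofNat (nat_lit 683815433178711715610703349760))⟩,
    ⟨nat_lit 1, nat_lit 2, (.negSucc (nat_lit 6807351615)), (.ofNat (nat_lit 6412604288)), (.negSucc (nat_lit 6807351599)), (.ofNat (nat_lit 6412604272)), (.ofNat (nat_lit 9925478871409950776606)), (.ofNat (nat_lit 152700526673466978638)), (.ofNat (nat_lit 2762781989191332635695505382144))⟩,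
    ⟨nat_lit 3, nat_lit 2, (.negSucc (nat_lit 1148135679)), (.ofNat (nat_lit 6412604288)), (.negSucc (nat_lit 1148135663)), (.ofNat (nat_lit 6412604272)), (.negSucc (nat_lit 9925478871409950776605)), (.negSucc (nat_lit 152698185696905954029)), (.ofNat (nat_lit 4721183081687264747881457462528))⟩,
    ⟨nat_lit 4, nat_lit 3, (.negSucc (nat_lit 14277248703)), (.negSucc (nat_lit 1148135679)), (.negSucc (nat_lit 14277248687)), (.negSucc (nat_lit 1148135695)), (.ofNat (nat_lit 9925478871409950776606)), (.ofNat (nat_lit 152699674944768473486)), (.ofNat (nat_lit 5071821262085638853056150833408))⟩,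
    ⟨nat_lit 4, nat_lit 10, (.negSucc (nat_lit 14277248703)), (.negSucc (nat_lit 12864298687)), (.negSucc (nat_lit 14277248687)), (.negSucc (nat_lit 12864298703)), (.negSucc (nat_lit 9925478871409950776605)), (.negSucc (nat_lit 152699674944768473485)), (.ofNat (nat_lit 711558789672804933740047109120))⟩,
    ⟨nat_lit 15, nat_lit 5, (.negSucc (nat_lit 12664540671)), (.ofNat (nat_lit 1043281472)), (.negSucc (nat_lit 12664540655)), (.ofNat (nat_lit 1043281456)), (.ofNat (nat_lit 9925478871409950776606)), (.ofNat (nat_lit 152699674944768473486)), (.ofNat (nat_lit 3877509618408488997601334051072))⟩,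
    ⟨nat_lit 5, nat_lit 6, (.ofNat (nat_lit 1043281472)), (.ofNat (nat_lit 13721191424)), (.ofNat (nat_lit 1043281488)), (.ofNat (nat_lit 13721191408)), (.negSucc (nat_lit 9925478871409950776605)), (.negSucc (nat_lit 152699674944768473485)), (.ofNat (nat_lit 4196127101709088141036668153856))⟩,
    ⟨nat_lit 6, nat_lit 7, (.ofNat (nat_lit 13721191424)), (.ofNat (nat_lit 15401214656)), (.ofNat (nat_lit 13721191440)), (.ofNat (nat_lit 15401214640)), (.ofNat (nat_lit 9925478871409950776606)), (.ofNat (nat_lit 152699674944768473486)), (.ofNat (nat_lit 5684161109598436913318985728))⟩,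
    ⟨nat_lit 8, nat_lit 7, (.ofNat (nat_lit 12055358848)), (.ofNat (nat_lit 15401214656)), (.ofNat (nat_lit 12055358864)), (.ofNat (nat_lit 15401214640)), (.negSucc (nat_lit 9925478871409950776605)), (.negSucc (nat_lit 152699674944768473485)), (.ofNat (nat_lit 4709205104561206845671980207360))⟩,
    ⟨nat_lit 10, nat_lit 9, (.negSucc (nat_lit 12864298687)), (.negSucc (nat_lit 5966322879)), (.negSucc (nat_lit 12864298671)), (.negSucc (nat_lit 5966322895)), (.ofNat (nat_lit 9925478871409950776606)), (.ofNat (nat_lit 152699674944768473486)), (.ofNat (nat_lit 4640307245772828025599472281856))⟩,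
    ⟨nat_lit 11, nat_lit 12, (.negSucc (nat_lit 1503285247)), (.ofNat (nat_lit 4694911616)), (.negSucc (nat_lit 1503285231)), (.ofNat (nat_lit 4694911600)), (.ofNat (nat_lit 9925478871409950776606)), (.ofNat (nat_lit 152699674944768473486)), (.ofNat (nat_lit 468869467967820947361698674944))⟩,
    ⟨nat_lit 13, nat_lit 12, (.negSucc (nat_lit 10279671935)), (.ofNat (nat_lit 4694911616)), (.negSucc (nat_lit 10279671919)), (.ofNat (nat_lit 4694911600)), (.negSucc (nat_lit 9925478871409950776605)), (.negSucc (nat_lit 152699674944768473485)), (.ofNat (nat_lit 1902692423283056276561717501696))⟩,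
    ⟨nat_lit 13, nat_lit 14, (.negSucc (nat_lit 10279671935)), (.negSucc (nat_lit 7281945535)), (.negSucc (nat_lit 10279671919)), (.negSucc (nat_lit 7281945551)), (.ofNat (nat_lit 9925478871409950776606)), (.ofNat (nat_lit 152699674944768473486)), (.ofNat (nat_lit 5042097549615173930384906079488))⟩,
    ⟨nat_lit 14, nat_lit 9, (.negSucc (nat_lit 7281945535)), (.negSucc (nat_lit 5966322879)), (.negSucc (nat_lit 7281945519)), (.negSucc (nat_lit 5966322895)), (.negSucc (nat_lit 9925478871409950776605)), (.negSucc (nat_lit 152699674944768473485)), (.ofNat (nat_lit 2818196116989758266275081962496))⟩,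
    ⟨nat_lit 0, nat_lit 8, (.negSucc (nat_lit 1125381951)), (.ofNat (nat_lit 12055358848)), (.negSucc (nat_lit 1125381935)), (.ofNat (nat_lit 12055358832)), (.ofNat (nat_lit 9925478871409950776606)), (.ofNat (nat_lit 152699674944768473486)), (.ofNat (nat_lit 1027506349696929789370173199104))⟩,
    ⟨nat_lit 15, nat_lit 11, (.negSucc (nat_lit 12664540671)), (.negSucc (nat_lit 1503285247)), (.negSucc (nat_lit 12664540655)), (.negSucc (nat_lit 1503285263)), (.negSucc (nat_lit 9925478871409950776605)), (.negSucc (nat_lit 152699674944768473485)), (.ofNat (nat_lit 9767130530089625427732805888))⟩]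

theorem ok135 : stOK 15 15 S135 = true := by decide +kernel

def S136 : SD where
  vs := [
    ⟨nat_lit 0, nat_lit 0, nat_lit 14, (.ofNat (nat_lit 8)), (.negSucc (nat_lit 1018023999)), (.ofNat (nat_lit 56693944646645260140310904787840)), (.ofNat (nat_lit 107357952)), (.ofNat (nat_lit 1075986703186911228342760083968)), (.negSucc (nat_lit 1018024015)), (.negSucc (nat_lit 1018023983)), (.negSucc (nat_lit 9925478871409950776605)), (.ofNat (nat_lit 9925478871409950776606)), (.negSucc (nat_lit 9925478871409950776605)), (.ofNat (nat_lit 9925478871409950776606)), (.ofNat (nat_lit 0))⟩,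
    ⟨nat_lit 2, nat_lit 0, nat_lit 1, (.ofNat (nat_lit 8)), (.negSucc (nat_lit 6700255807)), (.ofNat (nat_lit 113092816399402824250855820271488)), (.ofNat (nat_lit 107095808)), (.ofNat (nat_lit 1078588607920178118479142687232)), (.negSucc (nat_lit 6700255823)), (.negSucc (nat_lit 6700255791)), (.negSucc (nat_lit 9925478871409950776605)), (.ofNat (nat_lit 9925478871409950776606)), (.negSucc (nat_lit 9925478871409950776605)), (.ofNat (nat_lit 9925478871409950776606)), (.ofNat (nat_lit 0))⟩,
    ⟨nat_lit 1, nat_lit 1, nat_lit 2, (.ofNat (nat_lit 8)), (.ofNat (nat_lit 6521010816)), (.ofNat (nat_lit 244320218929192394275079608069632)), (.ofNat (nat_lit 108406528)), (.ofNat (nat_lit 1091598131586512569161055703552)), (.ofNat (nat_lit 6521010800)), (.ofNat (nat_lit 6521010832)), (.ofNat (nat_lit 9925478871409950776606)), (.negSucc (nat_lit 9925478871409950776605)), (.negSucc (nat_lit 9925478871409950776605)), (.ofNat (nat_lit 9925478871409950776606)), (.ofNat (nat_lit 0))⟩,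
    ⟨nat_lit 0, nat_lit 3, nat_lit 2, (.ofNat (nat_lit 8)), (.negSucc (nat_lit 1040777727)), (.ofNat (nat_lit 319374591352734209185222762071296)), (.ofNat (nat_lit 107357952)), (.ofNat (nat_lit 1102005750519580129706586116608)), (.negSucc (nat_lit 1040777743)), (.negSucc (nat_lit 1040777711)), (.ofNat (nat_lit 9925478871409950776606)), (.negSucc (nat_lit 9925478871409950776605)), (.negSucc (nat_lit 9925478871409950776605)), (.ofNat (nat_lit 9925478871409950776606)), (.ofNat (nat_lit 0))⟩,
    ⟨nat_lit 2, nat_lit 4, nat_lit 3, (.ofNat (nat_lit 8)), (.negSucc (nat_lit 14278821567)), (.ofNat (nat_lit 187980666920015558192270487664256)), (.negSucc (nat_lit 1572863)), (.ofNat (nat_lit 20815237866135121091060826112)), (.negSucc (nat_lit 14278821583)), (.negSucc (nat_lit 14278821551)), (.negSucc (nat_lit 9925478871409950776605)), (.ofNat (nat_lit 9925478871409950776606)), (.negSucc (nat_lit 9925478871409950776605)), (.ofNat (nat_lit 9925478871409950776606)), (.ofNat (nat_lit 0))⟩,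
    ⟨nat_lit 0, nat_lit 5, nat_lit 6, (.ofNat (nat_lit 8)), (.ofNat (nat_lit 1150901568)), (.ofNat (nat_lit 263482189630674502685182725973632)), (.ofNat (nat_lit 107620096)), (.ofNat (nat_lit 1088996226853245679024673100288)), (.ofNat (nat_lit 1150901552)), (.ofNat (nat_lit 1150901584)), (.ofNat (nat_lit 9925478871409950776606)), (.negSucc (nat_lit 9925478871409950776605)), (.negSucc (nat_lit 9925478871409950776605)), (.ofNat (nat_lit 9925478871409950776606)), (.ofNat (nat_lit 0))⟩,
    ⟨nat_lit 0, nat_lit 6, nat_lit 7, (.ofNat (nat_lit 8)), (.ofNat (nat_lit 13829860096)), (.ofNat (nat_lit 137637454649527491902073859377664)), (.ofNat (nat_lit 108668672)), (.ofNat (nat_lit 1078588607920178118479142687232)), (.ofNat (nat_lit 13829860080)), (.ofNat (nat_lit 13829860112)), (.negSucc (nat_lit 9925478871409950776605)), (.ofNat (nat_lit 9925478871409950776606)), (.negSucc (nat_lit 9925478871409950776605)), (.ofNat (nat_lit 9925478871409950776606)), (.ofNat (nat_lit 0))⟩,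
    ⟨nat_lit 1, nat_lit 7, nat_lit 8, (.ofNat (nat_lit 8)), (.ofNat (nat_lit 15510145472)), (.ofNat (nat_lit 154315091646954616692884764091520)), (.ofNat (nat_lit 108930816)), (.ofNat (nat_lit 1081190512653445008615525290496)), (.ofNat (nat_lit 15510145456)), (.ofNat (nat_lit 15510145488)), (.ofNat (nat_lit 9925478871409950776606)), (.negSucc (nat_lit 9925478871409950776605)), (.negSucc (nat_lit 9925478871409950776605)), (.ofNat (nat_lit 9925478871409950776606)), (.ofNat (nat_lit 0))⟩,
    ⟨nat_lit 0, nat_lit 14, nat_lit 8, (.ofNat (nat_lit 8)), (.ofNat (nat_lit 12163765376)), (.ofNat (nat_lit 187529516585509419428058824925696)), (.ofNat (nat_lit 108406528)), (.ofNat (nat_lit 1086394322119978788888290497024)), (.ofNat (nat_lit 12163765360)), (.ofNat (nat_lit 12163765392)), (.ofNat (nat_lit 9925478871409950776606)), (.negSucc (nat_lit 9925478871409950776605)), (.negSucc (nat_lit 9925478871409950776605)), (.ofNat (nat_lit 9925478871409950776606)), (.ofNat (nat_lit 0))⟩,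
    ⟨nat_lit 1, nat_lit 9, nat_lit 13, (.ofNat (nat_lit 8)), (.negSucc (nat_lit 5859227071)), (.ofNat (nat_lit 243490355516637300165338440160384)), (.ofNat (nat_lit 107095808)), (.ofNat (nat_lit 1088996226853245679024673100288)), (.negSucc (nat_lit 5859227087)), (.negSucc (nat_lit 5859227055)), (.ofNat (nat_lit 9925478871409950776606)), (.negSucc (nat_lit 9925478871409950776605)), (.negSucc (nat_lit 9925478871409950776605)), (.ofNat (nat_lit 9925478871409950776606)), (.ofNat (nat_lit 0))⟩,
    ⟨nat_lit 0, nat_lit 4, nat_lit 9, (.ofNat (nat_lit 8)), (.negSucc (nat_lit 12865347263)), (.ofNat (nat_lit 173951257580382672519633062332032)), (.negSucc (nat_lit 1048575)), (.ofNat (nat_lit 15611428399601340818295619584)), (.negSucc (nat_lit 12865347279)), (.negSucc (nat_lit 12865347247)), (.negSucc (nat_lit 9925478871409950776605)), (.ofNat (nat_lit 9925478871409950776606)), (.negSucc (nat_lit 9925478871409950776605)), (.ofNat (nat_lit 9925478871409950776606)), (.ofNat (nat_lit 0))⟩,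
    ⟨nat_lit 0, nat_lit 15, nat_lit 10, (.ofNat (nat_lit 8)), (.negSucc (nat_lit 1503547391)), (.ofNat (nat_lit 15558291355915360505817981702400)), (.negSucc (nat_lit 262143)), (.ofNat (nat_lit 2601904733266890136382603264)), (.negSucc (nat_lit 1503547407)), (.negSucc (nat_lit 1503547375)), (.negSucc (nat_lit 9925478871409950776605)), (.ofNat (nat_lit 9925478871409950776606)), (.negSucc (nat_lit 9925478871409950776605)), (.ofNat (nat_lit 9925478871409950776606)), (.ofNat (nat_lit 0))⟩,
    ⟨nat_lit 1, nat_lit 10, nat_lit 11, (.ofNat (nat_lit 8)), (.ofNat (nat_lit 4802793856)), (.ofNat (nat_lit 78151748168840421005978032946688)), (.ofNat (nat_lit 107882240)), (.ofNat (nat_lit 1075986703186911228342760083968)), (.ofNat (nat_lit 4802793840)), (.ofNat (nat_lit 4802793872)), (.ofNat (nat_lit 9925478871409950776606)), (.negSucc (nat_lit 9925478871409950776605)), (.negSucc (nat_lit 9925478871409950776605)), (.ofNat (nat_lit 9925478871409950776606)), (.ofNat (nat_lit 0))⟩,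
    ⟨nat_lit 2, nat_lit 11, nat_lit 12, (.ofNat (nat_lit 8)), (.negSucc (nat_lit 10173100415)), (.ofNat (nat_lit 226794670346045727405153779947520)), (.ofNat (nat_lit 106571520)), (.ofNat (nat_lit 1088996226853245679024673100288)), (.negSucc (nat_lit 10173100431)), (.negSucc (nat_lit 10173100399)), (.negSucc (nat_lit 9925478871409950776605)), (.ofNat (nat_lit 9925478871409950776606)), (.negSucc (nat_lit 9925478871409950776605)), (.ofNat (nat_lit 9925478871409950776606)), (.ofNat (nat_lit 0))⟩,
    ⟨nat_lit 0, nat_lit 12, nat_lit 13, (.ofNat (nat_lit 8)), (.negSucc (nat_lit 7175111871)), (.ofNat (nat_lit 256551142296246808961022471149184)), (.ofNat (nat_lit 106833664)), (.ofNat (nat_lit 1091598131586512569161055703552)), (.negSucc (nat_lit 7175111887)), (.negSucc (nat_lit 7175111855)), (.ofNat (nat_lit 9925478871409950776606)), (.negSucc (nat_lit 9925478871409950776605)), (.negSucc (nat_lit 9925478871409950776605)), (.ofNat (nat_lit 9925478871409950776606)), (.ofNat (nat_lit 0))⟩,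
    ⟨nat_lit 2, nat_lit 15, nat_lit 5, (.ofNat (nat_lit 8)), (.negSucc (nat_lit 12665589247)), (.ofNat (nat_lit 126346901959436872809193859323136)), (.negSucc (nat_lit 1048575)), (.ofNat (nat_lit 10407618933067560545530413056)), (.negSucc (nat_lit 12665589263)), (.negSucc (nat_lit 12665589231)), (.negSucc (nat_lit 9925478871409950776605)), (.ofNat (nat_lit 9925478871409950776606)), (.negSucc (nat_lit 9925478871409950776605)), (.ofNat (nat_lit 9925478871409950776606)), (.ofNat (nat_lit 0))⟩]
  es := [
    ⟨nat_lit 1, nat_lit 0, (.negSucc (nat_lit 6700255807)), (.negSucc (nat_lit 1018023999)), (.negSucc (nat_lit 6700255791)), (.negSucc (nat_lit 1018024015)), (.negSucc (nat_lit 9925478871409950776605)), (.ofNat (nat_lit 0)), (.ofNat (nat_lit 2141565787440754896139989754880))⟩,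
    ⟨nat_lit 1, nat_lit 2, (.negSucc (nat_lit 6700255807)), (.ofNat (nat_lit 6521010816)), (.negSucc (nat_lit 6700255791)), (.ofNat (nat_lit 6521010800)), (.ofNat (nat_lit 9925478871409950776606)), (.ofNat (nat_lit 0)), (.ofNat (nat_lit 15611428399601340818295619584))⟩,
    ⟨nat_lit 3, nat_lit 2, (.negSucc (nat_lit 1040777727)), (.ofNat (nat_lit 6521010816)), (.negSucc (nat_lit 1040777711)), (.ofNat (nat_lit 6521010800)), (.negSucc (nat_lit 9925478871409950776605)), (.ofNat (nat_lit 0)), (.ofNat (nat_lit 2167584834773423797503815787520))⟩,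
    ⟨nat_lit 4, nat_lit 3, (.negSucc (nat_lit 14278821567)), (.negSucc (nat_lit 1040777727)), (.negSucc (nat_lit 14278821551)), (.negSucc (nat_lit 1040777743)), (.ofNat (nat_lit 9925478871409950776606)), (.ofNat (nat_lit 0)), (.ofNat (nat_lit 36426666265736461909356445696))⟩,
    ⟨nat_lit 4, nat_lit 10, (.negSucc (nat_lit 14278821567)), (.negSucc (nat_lit 12865347263)), (.negSucc (nat_lit 14278821551)), (.negSucc (nat_lit 12865347279)), (.negSucc (nat_lit 9925478871409950776605)), (.ofNat (nat_lit 0)), (.ofNat (nat_lit 5203809466533780272765206528))⟩,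
    ⟨nat_lit 15, nat_lit 5, (.negSucc (nat_lit 12665589247)), (.ofNat (nat_lit 1150901568)), (.negSucc (nat_lit 12665589231)), (.ofNat (nat_lit 1150901552)), (.ofNat (nat_lit 9925478871409950776606)), (.ofNat (nat_lit 0)), (.ofNat (nat_lit 20815237866135121091060826112))⟩,
    ⟨nat_lit 5, nat_lit 6, (.ofNat (nat_lit 1150901568)), (.ofNat (nat_lit 13829860096)), (.ofNat (nat_lit 1150901584)), (.ofNat (nat_lit 13829860080)), (.negSucc (nat_lit 9925478871409950776605)), (.ofNat (nat_lit 0)), (.ofNat (nat_lit 2157177215840356236958285374464))⟩,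
    ⟨nat_lit 6, nat_lit 7, (.ofNat (nat_lit 13829860096)), (.ofNat (nat_lit 15510145472)), (.ofNat (nat_lit 13829860112)), (.ofNat (nat_lit 15510145456)), (.ofNat (nat_lit 9925478871409950776606)), (.ofNat (nat_lit 0)), (.ofNat (nat_lit 0))⟩,
    ⟨nat_lit 8, nat_lit 7, (.ofNat (nat_lit 12163765376)), (.ofNat (nat_lit 15510145472)), (.ofNat (nat_lit 12163765392)), (.ofNat (nat_lit 15510145456)), (.negSucc (nat_lit 9925478871409950776605)), (.ofNat (nat_lit 0)), (.ofNat (nat_lit 2162381025306890017231050580992))⟩,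
    ⟨nat_lit 10, nat_lit 9, (.negSucc (nat_lit 12865347263)), (.negSucc (nat_lit 5859227071)), (.negSucc (nat_lit 12865347247)), (.negSucc (nat_lit 5859227087)), (.ofNat (nat_lit 9925478871409950776606)), (.ofNat (nat_lit 0)), (.ofNat (nat_lit 26019047332668901363826032640))⟩,
    ⟨nat_lit 11, nat_lit 12, (.negSucc (nat_lit 1503547391)), (.ofNat (nat_lit 4802793856)), (.negSucc (nat_lit 1503547375)), (.ofNat (nat_lit 4802793840)), (.ofNat (nat_lit 9925478871409950776606)), (.ofNat (nat_lit 0)), (.ofNat (nat_lit 5203809466533780272765206528))⟩,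
    ⟨nat_lit 13, nat_lit 12, (.negSucc (nat_lit 10173100415)), (.ofNat (nat_lit 4802793856)), (.negSucc (nat_lit 10173100399)), (.ofNat (nat_lit 4802793840)), (.negSucc (nat_lit 9925478871409950776605)), (.ofNat (nat_lit 0)), (.ofNat (nat_lit 2146769596907288676412754961408))⟩,
    ⟨nat_lit 13, nat_lit 14, (.negSucc (nat_lit 10173100415)), (.negSucc (nat_lit 7175111871)), (.negSucc (nat_lit 10173100399)), (.negSucc (nat_lit 7175111887)), (.ofNat (nat_lit 9925478871409950776606)), (.ofNat (nat_lit 0)), (.ofNat (nat_lit 31222856799202681636591239168))⟩,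
    ⟨nat_lit 14, nat_lit 9, (.negSucc (nat_lit 7175111871)), (.negSucc (nat_lit 5859227071)), (.negSucc (nat_lit 7175111855)), (.negSucc (nat_lit 5859227087)), (.negSucc (nat_lit 9925478871409950776605)), (.ofNat (nat_lit 0)), (.ofNat (nat_lit 2151973406373822456685520167936))⟩,
    ⟨nat_lit 0, nat_lit 8, (.negSucc (nat_lit 1018023999)), (.ofNat (nat_lit 12163765376)), (.negSucc (nat_lit 1018023983)), (.ofNat (nat_lit 12163765360)), (.ofNat (nat_lit 9925478871409950776606)), (.ofNat (nat_lit 0)), (.ofNat (nat_lit 10407618933067560545530413056))⟩,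
    ⟨nat_lit 15, nat_lit 11, (.negSucc (nat_lit 12665589247)), (.negSucc (nat_lit 1503547391)), (.negSucc (nat_lit 12665589231)), (.negSucc (nat_lit 1503547407)), (.negSucc (nat_lit 9925478871409950776605)), (.ofNat (nat_lit 0)), (.ofNat (nat_lit 0))⟩]

theorem ok136 : stOK 15 15 S136 = true := by decide +kernel

def S137 : SD where
  vs := [
    ⟨nat_lit 0, nat_lit 0, nat_lit 14, (.ofNat (nat_lit 8)), (.negSucc (nat_lit 1018023999)), (.ofNat (nat_lit 57579787531749092330000585193600)), (.ofNat (nat_lit 0)), (.ofNat (nat_lit 885842885103832189689680405760)), (.negSucc (nat_lit 1018024015)), (.negSucc (nat_lit 1018023983)), (.negSucc (nat_lit 10080564478775731257489)), (.ofNat (nat_lit 10080564478775731257490)), (.negSucc (nat_lit 10080564478775731257489)), (.ofNat (nat_lit 10080564478775731257490)), (.ofNat (nat_lit 930513644194682885304))⟩,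
    ⟨nat_lit 2, nat_lit 0, nat_lit 1, (.ofNat (nat_lit 8)), (.negSucc (nat_lit 6700255807)), (.ofNat (nat_lit 114859891655643493379770101435520)), (.ofNat (nat_lit 0)), (.ofNat (nat_lit 1767075256240669128914281164032)), (.negSucc (nat_lit 6700255823)), (.negSucc (nat_lit 6700255791)), (.negSucc (nat_lit 10080564478775731257489)), (.ofNat (nat_lit 10080564478775731257490)), (.negSucc (nat_lit 10080564478775731257489)), (.ofNat (nat_lit 10080564478775731257490)), (.ofNat (nat_lit 930513644194682885304))⟩,
    ⟨nat_lit 1, nat_lit 1, nat_lit 2, (.ofNat (nat_lit 8)), (.ofNat (nat_lit 6521010816)), (.ofNat (nat_lit 248137722349961025435616188449280)), (.ofNat (nat_lit 0)), (.ofNat (nat_lit 3817503420768631160536580379648)), (.ofNat (nat_lit 6521010800)), (.ofNat (nat_lit 6521010832)), (.ofNat (nat_lit 10080564478775731257490)), (.negSucc (nat_lit 10080564478775731257489)), (.negSucc (nat_lit 10080564478775731257489)), (.ofNat (nat_lit 10080564478775731257490)), (.ofNat (nat_lit 930513644194682885304))⟩,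
    ⟨nat_lit 0, nat_lit 3, nat_lit 2, (.ofNat (nat_lit 8)), (.negSucc (nat_lit 1040777727)), (.ofNat (nat_lit 324364819342620681203726784643840)), (.ofNat (nat_lit 0)), (.ofNat (nat_lit 4990227989886472018504022572544)), (.negSucc (nat_lit 1040777743)), (.negSucc (nat_lit 1040777711)), (.ofNat (nat_lit 10080564478775731257490)), (.negSucc (nat_lit 10080564478775731257489)), (.negSucc (nat_lit 10080564478775731257489)), (.ofNat (nat_lit 10080564478775731257490)), (.ofNat (nat_lit 930513644194682885304))⟩,
    ⟨nat_lit 2, nat_lit 4, nat_lit 3, (.ofNat (nat_lit 8)), (.negSucc (nat_lit 14278821567)), (.ofNat (nat_lit 190917864840640801289015836282240)), (.ofNat (nat_lit 0)), (.ofNat (nat_lit 2937197920625243096745348617984)), (.negSucc (nat_lit 14278821583)), (.negSucc (nat_lit 14278821551)), (.negSucc (nat_lit 10080564478775731257489)), (.ofNat (nat_lit 10080564478775731257490)), (.negSucc (nat_lit 10080564478775731257489)), (.ofNat (nat_lit 10080564478775731257490)), (.ofNat (nat_lit 930513644194682885304))⟩,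
    ⟨nat_lit 0, nat_lit 5, nat_lit 6, (.ofNat (nat_lit 8)), (.ofNat (nat_lit 1150901568)), (.ofNat (nat_lit 267599098843653791789626262609280)), (.ofNat (nat_lit 0)), (.ofNat (nat_lit 4116909212979289104443536635648)), (.ofNat (nat_lit 1150901552)), (.ofNat (nat_lit 1150901584)), (.ofNat (nat_lit 10080564478775731257490)), (.negSucc (nat_lit 10080564478775731257489)), (.negSucc (nat_lit 10080564478775731257489)), (.ofNat (nat_lit 10080564478775731257490)), (.ofNat (nat_lit 930513644194682885304))⟩,
    ⟨nat_lit 0, nat_lit 6, nat_lit 7, (.ofNat (nat_lit 8)), (.ofNat (nat_lit 13829860096)), (.ofNat (nat_lit 139788039878426358963037263234560)), (.ofNat (nat_lit 0)), (.ofNat (nat_lit 2150585228898867060963403856896)), (.ofNat (nat_lit 13829860080)), (.ofNat (nat_lit 13829860112)), (.negSucc (nat_lit 10080564478775731257489)), (.ofNat (nat_lit 10080564478775731257490)), (.negSucc (nat_lit 10080564478775731257489)), (.ofNat (nat_lit 10080564478775731257490)), (.ofNat (nat_lit 930513644194682885304))⟩,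
    ⟨nat_lit 1, nat_lit 7, nat_lit 8, (.ofNat (nat_lit 8)), (.ofNat (nat_lit 15510145472)), (.ofNat (nat_lit 156726264953938282578703800700800)), (.ofNat (nat_lit 0)), (.ofNat (nat_lit 2411173306983665885819036609280)), (.ofNat (nat_lit 15510145456)), (.ofNat (nat_lit 15510145488)), (.ofNat (nat_lit 10080564478775731257490)), (.negSucc (nat_lit 10080564478775731257489)), (.negSucc (nat_lit 10080564478775731257489)), (.ofNat (nat_lit 10080564478775731257490)), (.ofNat (nat_lit 930513644194682885304))⟩,
    ⟨nat_lit 0, nat_lit 14, nat_lit 8, (.ofNat (nat_lit 8)), (.ofNat (nat_lit 12163765376)), (.ofNat (nat_lit 190459665282158004106613387619840)), (.ofNat (nat_lit 0)), (.ofNat (nat_lit 2930148696648584678554562694144)), (.ofNat (nat_lit 12163765360)), (.ofNat (nat_lit 12163765392)), (.ofNat (nat_lit 10080564478775731257490)), (.negSucc (nat_lit 10080564478775731257489)), (.negSucc (nat_lit 10080564478775731257489)), (.ofNat (nat_lit 10080564478775731257490)), (.ofNat (nat_lit 930513644194682885304))⟩,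
    ⟨nat_lit 1, nat_lit 9, nat_lit 13, (.ofNat (nat_lit 8)), (.negSucc (nat_lit 5859227071)), (.ofNat (nat_lit 247294892321584757980410353983360)), (.ofNat (nat_lit 0)), (.ofNat (nat_lit 3804536804947457815071913822976)), (.negSucc (nat_lit 5859227087)), (.negSucc (nat_lit 5859227055)), (.ofNat (nat_lit 10080564478775731257490)), (.negSucc (nat_lit 10080564478775731257489)), (.negSucc (nat_lit 10080564478775731257489)), (.ofNat (nat_lit 10080564478775731257490)), (.ofNat (nat_lit 930513644194682885304))⟩,
    ⟨nat_lit 0, nat_lit 4, nat_lit 9, (.ofNat (nat_lit 8)), (.negSucc (nat_lit 12865347263)), (.ofNat (nat_lit 176669245980076151777744113745280)), (.ofNat (nat_lit 0)), (.ofNat (nat_lit 2717988399693479258111051413248)), (.negSucc (nat_lit 12865347279)), (.negSucc (nat_lit 12865347247)), (.negSucc (nat_lit 10080564478775731257489)), (.ofNat (nat_lit 10080564478775731257490)), (.negSucc (nat_lit 10080564478775731257489)), (.ofNat (nat_lit 10080564478775731257490)), (.ofNat (nat_lit 930513644194682885304))⟩,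
    ⟨nat_lit 0, nat_lit 15, nat_lit 10, (.ofNat (nat_lit 8)), (.negSucc (nat_lit 1503547391)), (.ofNat (nat_lit 15801389658351538013720652896000)), (.ofNat (nat_lit 0)), (.ofNat (nat_lit 243098302436177507902671193600)), (.negSucc (nat_lit 1503547407)), (.negSucc (nat_lit 1503547375)), (.negSucc (nat_lit 10080564478775731257489)), (.ofNat (nat_lit 10080557151462241756908)), (.negSucc (nat_lit 10080564478775731257489)), (.ofNat (nat_lit 10080557151462241756908)), (.ofNat (nat_lit 930498989567703884140))⟩,
    ⟨nat_lit 1, nat_lit 10, nat_lit 11, (.ofNat (nat_lit 8)), (.ofNat (nat_lit 4802793856)), (.ofNat (nat_lit 79372823025439256719857562237184)), (.ofNat (nat_lit 0)), (.ofNat (nat_lit 1221074856598835713879529290496)), (.ofNat (nat_lit 4802793840)), (.ofNat (nat_lit 4802793872)), (.ofNat (nat_lit 10080557151462241756908)), (.negSucc (nat_lit 10080567564313731660196)), (.negSucc (nat_lit 10080567564313731660196)), (.ofNat (nat_lit 10080557151462241756908)), (.ofNat (nat_lit 930490506016725688390))⟩,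
    ⟨nat_lit 2, nat_lit 11, nat_lit 12, (.ofNat (nat_lit 8)), (.negSucc (nat_lit 10173100415)), (.ofNat (nat_lit 230338337070354262300746864928768)), (.ofNat (nat_lit 0)), (.ofNat (nat_lit 3543666724308534895593084981248)), (.negSucc (nat_lit 10173100431)), (.negSucc (nat_lit 10173100399)), (.negSucc (nat_lit 10080567564313731660196)), (.ofNat (nat_lit 10080564478725173891218)), (.negSucc (nat_lit 10080567564313731660196)), (.ofNat (nat_lit 10080564478725173891218)), (.ofNat (nat_lit 930525986245569763588))⟩,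
    ⟨nat_lit 0, nat_lit 12, nat_lit 13, (.ofNat (nat_lit 8)), (.negSucc (nat_lit 7175111871)), (.ofNat (nat_lit 260559753894625665351026331135360)), (.ofNat (nat_lit 0)), (.ofNat (nat_lit 4008611598378856390003859986176)), (.negSucc (nat_lit 7175111887)), (.negSucc (nat_lit 7175111855)), (.ofNat (nat_lit 10080564478725173891218)), (.negSucc (nat_lit 10080564478775731257489)), (.negSucc (nat_lit 10080564478775731257489)), (.ofNat (nat_lit 10080564478725173891218)), (.ofNat (nat_lit 930513643992453420216))⟩,
    ⟨nat_lit 2, nat_lit 15, nat_lit 5, (.ofNat (nat_lit 8)), (.negSucc (nat_lit 12665589247)), (.ofNat (nat_lit 128321072302553073946831546397440)), (.ofNat (nat_lit 0)), (.ofNat (nat_lit 1974170343116201137637687074304)), (.negSucc (nat_lit 12665589263)), (.negSucc (nat_lit 12665589231)), (.negSucc (nat_lit 10080564478775731257489)), (.ofNat (nat_lit 10080564478775731257490)), (.negSucc (nat_lit 10080564478775731257489)), (.ofNat (nat_lit 10080564478775731257490)), (.ofNat (nat_lit 930513644194682885304))⟩]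
  es := [
    ⟨nat_lit 1, nat_lit 0, (.negSucc (nat_lit 6700255807)), (.negSucc (nat_lit 1018023999)), (.negSucc (nat_lit 6700255791)), (.negSucc (nat_lit 1018024015)), (.negSucc (nat_lit 10080564478775731257489)), (.negSucc (nat_lit 155085607365780480883)), (.ofNat (nat_lit 727962014750890881418227189760))⟩,
    ⟨nat_lit 1, nat_lit 2, (.negSucc (nat_lit 6700255807)), (.ofNat (nat_lit 6521010816)), (.negSucc (nat_lit 6700255791)), (.ofNat (nat_lit 6521010800)), (.ofNat (nat_lit 10080564478775731257490)), (.ofNat (nat_lit 155085607365780480884)), (.ofNat (nat_lit 2806188497730447376410335138304))⟩,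
    ⟨nat_lit 3, nat_lit 2, (.negSucc (nat_lit 1040777727)), (.ofNat (nat_lit 6521010816)), (.negSucc (nat_lit 1040777711)), (.ofNat (nat_lit 6521010800)), (.negSucc (nat_lit 10080564478775731257489)), (.negSucc (nat_lit 155085607365780480883)), (.ofNat (nat_lit 4828818343806814944662825620992))⟩,
    ⟨nat_lit 4, nat_lit 3, (.negSucc (nat_lit 14278821567)), (.negSucc (nat_lit 1040777727)), (.negSucc (nat_lit 14278821551)), (.negSucc (nat_lit 1040777743)), (.ofNat (nat_lit 10080564478775731257490)), (.ofNat (nat_lit 155085607365780480884)), (.ofNat (nat_lit 5151637635966129092345219524096))⟩,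
    ⟨nat_lit 4, nat_lit 10, (.negSucc (nat_lit 14278821567)), (.negSucc (nat_lit 12865347263)), (.negSucc (nat_lit 14278821551)), (.negSucc (nat_lit 12865347279)), (.negSucc (nat_lit 10080564478775731257489)), (.negSucc (nat_lit 155085607365780480883)), (.ofNat (nat_lit 722758205284357101145477711872))⟩,
    ⟨nat_lit 15, nat_lit 5, (.negSucc (nat_lit 12665589247)), (.ofNat (nat_lit 1150901568)), (.negSucc (nat_lit 12665589231)), (.ofNat (nat_lit 1150901552)), (.ofNat (nat_lit 10080564478775731257490)), (.ofNat (nat_lit 155085607365780480884)), (.ofNat (nat_lit 3938420944287779999450347009536))⟩,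
    ⟨nat_lit 5, nat_lit 6, (.ofNat (nat_lit 1150901568)), (.ofNat (nat_lit 13829860096)), (.ofNat (nat_lit 1150901584)), (.ofNat (nat_lit 13829860080)), (.negSucc (nat_lit 10080564478775731257489)), (.negSucc (nat_lit 155085607365780480883)), (.ofNat (nat_lit 4295397481670798209436726261760))⟩,
    ⟨nat_lit 6, nat_lit 7, (.ofNat (nat_lit 13829860096)), (.ofNat (nat_lit 15510145472)), (.ofNat (nat_lit 13829860112)), (.ofNat (nat_lit 15510145456)), (.ofNat (nat_lit 10080564478775731257490)), (.ofNat (nat_lit 155085607365780480884)), (.ofNat (nat_lit 5772976126935912490081452032))⟩,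
    ⟨nat_lit 8, nat_lit 7, (.ofNat (nat_lit 12163765376)), (.ofNat (nat_lit 15510145472)), (.ofNat (nat_lit 12163765392)), (.ofNat (nat_lit 15510145456)), (.negSucc (nat_lit 10080564478775731257489)), (.negSucc (nat_lit 155085607365780480883)), (.ofNat (nat_lit 4816573637840395859147991766528))⟩,
    ⟨nat_lit 10, nat_lit 9, (.negSucc (nat_lit 12865347263)), (.negSucc (nat_lit 5859227071)), (.negSucc (nat_lit 12865347247)), (.negSucc (nat_lit 5859227087)), (.ofNat (nat_lit 10080564478775731257490)), (.ofNat (nat_lit 155085607365780480884)), (.ofNat (nat_lit 4713218594102601415076625114624))⟩,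
    ⟨nat_lit 11, nat_lit 12, (.negSucc (nat_lit 1503547391)), (.ofNat (nat_lit 4802793856)), (.negSucc (nat_lit 1503547375)), (.ofNat (nat_lit 4802793840)), (.ofNat (nat_lit 10080557151462241756908)), (.ofNat (nat_lit 155078280052290980302)), (.ofNat (nat_lit 476265845964645234960866665984))⟩,
    ⟨nat_lit 13, nat_lit 12, (.negSucc (nat_lit 10173100415)), (.ofNat (nat_lit 4802793856)), (.negSucc (nat_lit 10173100399)), (.ofNat (nat_lit 4802793840)), (.negSucc (nat_lit 10080567564313731660196)), (.negSucc (nat_lit 155088692903780883590)), (.ofNat (nat_lit 1965933878012185340760635307392))⟩,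
    ⟨nat_lit 13, nat_lit 14, (.negSucc (nat_lit 10173100415)), (.negSucc (nat_lit 7175111871)), (.negSucc (nat_lit 10173100399)), (.negSucc (nat_lit 7175111887)), (.ofNat (nat_lit 10080564478725173891218)), (.ofNat (nat_lit 155085607315223114612)), (.ofNat (nat_lit 5121368180602643805985237859840))⟩,
    ⟨nat_lit 14, nat_lit 9, (.negSucc (nat_lit 7175111871)), (.negSucc (nat_lit 5859227071)), (.negSucc (nat_lit 7175111855)), (.negSucc (nat_lit 5859227087)), (.negSucc (nat_lit 10080564478775731257489)), (.negSucc (nat_lit 155085607365780480883)), (.ofNat (nat_lit 2895855015792314215067202531328))⟩,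
    ⟨nat_lit 0, nat_lit 8, (.negSucc (nat_lit 1018023999)), (.ofNat (nat_lit 12163765376)), (.negSucc (nat_lit 1018023983)), (.ofNat (nat_lit 12163765360)), (.ofNat (nat_lit 10080564478775731257490)), (.ofNat (nat_lit 155085607365780480884)), (.ofNat (nat_lit 1043723755456773497961133621760))⟩,
    ⟨nat_lit 15, nat_lit 11, (.negSucc (nat_lit 12665589247)), (.negSucc (nat_lit 1503547391)), (.negSucc (nat_lit 12665589231)), (.negSucc (nat_lit 1503547407)), (.negSucc (nat_lit 10080564478775731257489)), (.negSucc (nat_lit 155085607365780480883)), (.ofNat (nat_lit 9919741944622275825027139072))⟩]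

theorem ok137 : stOK 15 15 S137 = true := by decide +kernel

def S138 : SD where
  vs := [
    ⟨nat_lit 0, nat_lit 0, nat_lit 14, (.ofNat (nat_lit 8)), (.ofNat (nat_lit 2990107648)), (.ofNat (nat_lit 97994587286813621818668145071360)), (.ofNat (nat_lit 4008131648)), (.ofNat (nat_lit 40414799755064529488667559877760)), (.ofNat (nat_lit 2990107632)), (.ofNat (nat_lit 2990107664)), (.negSucc (nat_lit 10080564478775731257489)), (.ofNat (nat_lit 10080564478775731257490)), (.negSucc (nat_lit 10080564478775731257489)), (.ofNat (nat_lit 10080564478775731257490)), (.ofNat (nat_lit 0))⟩,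
    ⟨nat_lit 2, nat_lit 0, nat_lit 1, (.ofNat (nat_lit 8)), (.negSucc (nat_lit 2692386303)), (.ofNat (nat_lit 155277333970202747053732424771840)), (.ofNat (nat_lit 4007869504)), (.ofNat (nat_lit 40417442314559253673962323336320)), (.negSucc (nat_lit 2692386319)), (.negSucc (nat_lit 2692386287)), (.negSucc (nat_lit 10080564478775731257489)), (.ofNat (nat_lit 10080564478775731257490)), (.negSucc (nat_lit 10080564478775731257489)), (.ofNat (nat_lit 10080564478775731257490)), (.ofNat (nat_lit 0))⟩,
    ⟨nat_lit 1, nat_lit 1, nat_lit 2, (.ofNat (nat_lit 8)), (.ofNat (nat_lit 10529928896)), (.ofNat (nat_lit 288565734902499175850757565619840)), (.ofNat (nat_lit 4008918080)), (.ofNat (nat_lit 40428012552538150415141377170560)), (.ofNat (nat_lit 10529928880)), (.ofNat (nat_lit 10529928912)), (.ofNat (nat_lit 10080564478775731257490)), (.negSucc (nat_lit 10080564478775731257489)), (.negSucc (nat_lit 10080564478775731257489)), (.ofNat (nat_lit 10080564478775731257490)), (.ofNat (nat_lit 0))⟩,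
    ⟨nat_lit 0, nat_lit 3, nat_lit 2, (.ofNat (nat_lit 8)), (.ofNat (nat_lit 2967091776)), (.ofNat (nat_lit 364803402133137728360047215648640)), (.ofNat (nat_lit 4007869504)), (.ofNat (nat_lit 40438582790517047156320431004800)), (.ofNat (nat_lit 2967091760)), (.ofNat (nat_lit 2967091792)), (.ofNat (nat_lit 10080564478775731257490)), (.negSucc (nat_lit 10080564478775731257489)), (.negSucc (nat_lit 10080564478775731257489)), (.ofNat (nat_lit 10080564478775731257490)), (.ofNat (nat_lit 0))⟩,
    ⟨nat_lit 2, nat_lit 4, nat_lit 3, (.ofNat (nat_lit 8)), (.negSucc (nat_lit 14280394431)), (.ofNat (nat_lit 190939005316598594771373943950720)), (.negSucc (nat_lit 1572863)), (.ofNat (nat_lit 21140475957793482358107668480)), (.negSucc (nat_lit 14280394447)), (.negSucc (nat_lit 14280394415)), (.negSucc (nat_lit 10080564478775731257489)), (.ofNat (nat_lit 10080564478775731257490)), (.negSucc (nat_lit 10080564478775731257489)), (.ofNat (nat_lit 10080564478775731257490)), (.ofNat (nat_lit 0))⟩,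
    ⟨nat_lit 0, nat_lit 5, nat_lit 6, (.ofNat (nat_lit 8)), (.ofNat (nat_lit 5159033216)), (.ofNat (nat_lit 308024468836697218019472876321280)), (.ofNat (nat_lit 4008131648)), (.ofNat (nat_lit 40425369993043426229846613712000)), (.ofNat (nat_lit 5159033200)), (.ofNat (nat_lit 5159033232)), (.ofNat (nat_lit 10080564478775731257490)), (.negSucc (nat_lit 10080564478775731257489)), (.negSucc (nat_lit 10080564478775731257489)), (.ofNat (nat_lit 10080564478775731257490)), (.ofNat (nat_lit 0))⟩,
    ⟨nat_lit 0, nat_lit 6, nat_lit 7, (.ofNat (nat_lit 8)), (.ofNat (nat_lit 17839040320)), (.ofNat (nat_lit 180202839633490888451704823112320)), (.ofNat (nat_lit 4009180224)), (.ofNat (nat_lit 40414799755064529488667559877760)), (.ofNat (nat_lit 17839040304)), (.ofNat (nat_lit 17839040336)), (.negSucc (nat_lit 10080564478775731257489)), (.ofNat (nat_lit 10080564478775731257490)), (.negSucc (nat_lit 10080564478775731257489)), (.ofNat (nat_lit 10080564478775731257490)), (.ofNat (nat_lit 0))⟩,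
    ⟨nat_lit 1, nat_lit 7, nat_lit 8, (.ofNat (nat_lit 8)), (.ofNat (nat_lit 19519587840)), (.ofNat (nat_lit 197143707268497536252666124037120)), (.ofNat (nat_lit 4009442368)), (.ofNat (nat_lit 40417442314559253673962323336320)), (.ofNat (nat_lit 19519587824)), (.ofNat (nat_lit 19519587856)), (.ofNat (nat_lit 10080564478775731257490)), (.negSucc (nat_lit 10080564478775731257489)), (.negSucc (nat_lit 10080564478775731257489)), (.ofNat (nat_lit 10080564478775731257490)), (.ofNat (nat_lit 0))⟩,
    ⟨nat_lit 0, nat_lit 14, nat_lit 8, (.ofNat (nat_lit 8)), (.ofNat (nat_lit 16172683456)), (.ofNat (nat_lit 230882392715706706151165237873280)), (.ofNat (nat_lit 4008918080)), (.ofNat (nat_lit 40422727433548702044551850253440)), (.ofNat (nat_lit 16172683440)), (.ofNat (nat_lit 16172683472)), (.ofNat (nat_lit 10080564478775731257490)), (.negSucc (nat_lit 10080564478775731257489)), (.negSucc (nat_lit 10080564478775731257489)), (.ofNat (nat_lit 10080564478775731257490)), (.ofNat (nat_lit 0))⟩,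
    ⟨nat_lit 1, nat_lit 9, nat_lit 13, (.ofNat (nat_lit 8)), (.negSucc (nat_lit 1851619711)), (.ofNat (nat_lit 287720262314628184210256967695360)), (.ofNat (nat_lit 4007607360)), (.ofNat (nat_lit 40425369993043426229846613712000)), (.negSucc (nat_lit 1851619727)), (.negSucc (nat_lit 1851619695)), (.ofNat (nat_lit 10080564478775731257490)), (.negSucc (nat_lit 10080564478775731257489)), (.negSucc (nat_lit 10080564478775731257489)), (.ofNat (nat_lit 10080564478775731257490)), (.ofNat (nat_lit 0))⟩,
    ⟨nat_lit 0, nat_lit 4, nat_lit 9, (.ofNat (nat_lit 8)), (.negSucc (nat_lit 12866395839)), (.ofNat (nat_lit 176685101337044496889512694496640)), (.negSucc (nat_lit 1048575)), (.ofNat (nat_lit 15855356968345111768580751360)), (.negSucc (nat_lit 12866395855)), (.negSucc (nat_lit 12866395823)), (.negSucc (nat_lit 10080564478775731257489)), (.ofNat (nat_lit 10080564478775731257490)), (.negSucc (nat_lit 10080564478775731257489)), (.ofNat (nat_lit 10080564478775731257490)), (.ofNat (nat_lit 0))⟩,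
    ⟨nat_lit 0, nat_lit 15, nat_lit 10, (.ofNat (nat_lit 8)), (.negSucc (nat_lit 1503809535)), (.ofNat (nat_lit 15804032217846262199015416354560)), (.negSucc (nat_lit 262143)), (.ofNat (nat_lit 2642559494724185294763458560)), (.negSucc (nat_lit 1503809551)), (.negSucc (nat_lit 1503809519)), (.negSucc (nat_lit 10080564478775731257489)), (.ofNat (nat_lit 10080557151462241756908)), (.negSucc (nat_lit 10080564478775731257489)), (.ofNat (nat_lit 10080557151462241756908)), (.ofNat (nat_lit 0))⟩,
    ⟨nat_lit 1, nat_lit 10, nat_lit 11, (.ofNat (nat_lit 8)), (.ofNat (nat_lit 4803056000)), (.ofNat (nat_lit 79380750700081806740958571477248)), (.ofNat (nat_lit 262144)), (.ofNat (nat_lit 7927674642550021101009240064)), (.ofNat (nat_lit 4803055984)), (.ofNat (nat_lit 4803056016)), (.ofNat (nat_lit 10080557151462241756908)), (.negSucc (nat_lit 10080567564313731660196)), (.negSucc (nat_lit 10080567564313731660196)), (.ofNat (nat_lit 10080557151462241756908)), (.ofNat (nat_lit 0))⟩,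
    ⟨nat_lit 2, nat_lit 11, nat_lit 12, (.ofNat (nat_lit 8)), (.negSucc (nat_lit 10174148991)), (.ofNat (nat_lit 230359477546514709616209527580672)), (.negSucc (nat_lit 1048575)), (.ofNat (nat_lit 21140476160447315462662651904)), (.negSucc (nat_lit 10174149007)), (.negSucc (nat_lit 10174148975)), (.negSucc (nat_lit 10080567564313731660196)), (.ofNat (nat_lit 10080564478725173891218)), (.negSucc (nat_lit 10080567564313731660196)), (.ofNat (nat_lit 10080564478725173891218)), (.ofNat (nat_lit 0))⟩,
    ⟨nat_lit 0, nat_lit 12, nat_lit 13, (.ofNat (nat_lit 8)), (.negSucc (nat_lit 3167766655)), (.ofNat (nat_lit 300987766447163815766167708305920)), (.ofNat (nat_lit 4007345216)), (.ofNat (nat_lit 40428012552538150415141377170560)), (.negSucc (nat_lit 3167766671)), (.negSucc (nat_lit 3167766639)), (.ofNat (nat_lit 10080564478725173891218)), (.negSucc (nat_lit 10080564478775731257489)), (.negSucc (nat_lit 10080564478775731257489)), (.ofNat (nat_lit 10080564478725173891218)), (.ofNat (nat_lit 0))⟩,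
    ⟨nat_lit 2, nat_lit 15, nat_lit 5, (.ofNat (nat_lit 8)), (.negSucc (nat_lit 12666637823)), (.ofNat (nat_lit 128331642540531970688010600231680)), (.negSucc (nat_lit 1048575)), (.ofNat (nat_lit 10570237978896741179053834240)), (.negSucc (nat_lit 12666637839)), (.negSucc (nat_lit 12666637807)), (.negSucc (nat_lit 10080564478775731257489)), (.ofNat (nat_lit 10080564478775731257490)), (.negSucc (nat_lit 10080564478775731257489)), (.ofNat (nat_lit 10080564478775731257490)), (.ofNat (nat_lit 0))⟩]
  es := [
    ⟨nat_lit 1, nat_lit 0, (.negSucc (nat_lit 2692386303)), (.ofNat (nat_lit 2990107648)), (.negSucc (nat_lit 2692386287)), (.ofNat (nat_lit 2990107632)), (.negSucc (nat_lit 10080564478775731257489)), (.ofNat (nat_lit 0)), (.ofNat (nat_lit 80819029272150162236156065921280))⟩,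
    ⟨nat_lit 1, nat_lit 2, (.negSucc (nat_lit 2692386303)), (.ofNat (nat_lit 10529928896)), (.negSucc (nat_lit 2692386287)), (.ofNat (nat_lit 10529928880)), (.ofNat (nat_lit 10080564478775731257490)), (.ofNat (nat_lit 0)), (.ofNat (nat_lit 15855356968345111768580751360))⟩,
    ⟨nat_lit 3, nat_lit 2, (.ofNat (nat_lit 2967091776)), (.ofNat (nat_lit 10529928896)), (.ofNat (nat_lit 2967091792)), (.ofNat (nat_lit 10529928880)), (.negSucc (nat_lit 10080564478775731257489)), (.ofNat (nat_lit 0)), (.ofNat (nat_lit 80840169748107955718514173589760))⟩,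
    ⟨nat_lit 4, nat_lit 3, (.negSucc (nat_lit 14280394431)), (.ofNat (nat_lit 2967091776)), (.negSucc (nat_lit 14280394415)), (.ofNat (nat_lit 2967091760)), (.ofNat (nat_lit 10080564478775731257490)), (.ofNat (nat_lit 0)), (.ofNat (nat_lit 36995832926138594126688419840))⟩,
    ⟨nat_lit 4, nat_lit 10, (.negSucc (nat_lit 14280394431)), (.negSucc (nat_lit 12866395839)), (.negSucc (nat_lit 14280394415)), (.negSucc (nat_lit 12866395855)), (.negSucc (nat_lit 10080564478775731257489)), (.ofNat (nat_lit 0)), (.ofNat (nat_lit 5285118989448370589526917120))⟩,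
    ⟨nat_lit 15, nat_lit 5, (.negSucc (nat_lit 12666637823)), (.ofNat (nat_lit 5159033216)), (.negSucc (nat_lit 12666637807)), (.ofNat (nat_lit 5159033200)), (.ofNat (nat_lit 10080564478775731257490)), (.ofNat (nat_lit 0)), (.ofNat (nat_lit 21140475957793482358107668480))⟩,
    ⟨nat_lit 5, nat_lit 6, (.ofNat (nat_lit 5159033216)), (.ofNat (nat_lit 17839040320)), (.ofNat (nat_lit 5159033232)), (.ofNat (nat_lit 17839040304)), (.negSucc (nat_lit 10080564478775731257489)), (.ofNat (nat_lit 0)), (.ofNat (nat_lit 80829599510129058977335119755520))⟩,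
    ⟨nat_lit 6, nat_lit 7, (.ofNat (nat_lit 17839040320)), (.ofNat (nat_lit 19519587840)), (.ofNat (nat_lit 17839040336)), (.ofNat (nat_lit 19519587824)), (.ofNat (nat_lit 10080564478775731257490)), (.ofNat (nat_lit 0)), (.ofNat (nat_lit 0))⟩,
    ⟨nat_lit 8, nat_lit 7, (.ofNat (nat_lit 16172683456)), (.ofNat (nat_lit 19519587840)), (.ofNat (nat_lit 16172683472)), (.ofNat (nat_lit 19519587824)), (.negSucc (nat_lit 10080564478775731257489)), (.ofNat (nat_lit 0)), (.ofNat (nat_lit 80834884629118507347924646672640))⟩,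
    ⟨nat_lit 10, nat_lit 9, (.negSucc (nat_lit 12866395839)), (.negSucc (nat_lit 1851619711)), (.negSucc (nat_lit 12866395823)), (.negSucc (nat_lit 1851619727)), (.ofNat (nat_lit 10080564478775731257490)), (.ofNat (nat_lit 0)), (.ofNat (nat_lit 26425594947241852947634585600))⟩,
    ⟨nat_lit 11, nat_lit 12, (.negSucc (nat_lit 1503809535)), (.ofNat (nat_lit 4803056000)), (.negSucc (nat_lit 1503809519)), (.ofNat (nat_lit 4803055984)), (.ofNat (nat_lit 10080557151462241756908)), (.ofNat (nat_lit 0)), (.ofNat (nat_lit 5285117068637103197886349312))⟩,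
    ⟨nat_lit 13, nat_lit 12, (.negSucc (nat_lit 10174148991)), (.ofNat (nat_lit 4803056000)), (.negSucc (nat_lit 10174148975)), (.ofNat (nat_lit 4803055984)), (.negSucc (nat_lit 10080567564313731660196)), (.ofNat (nat_lit 0)), (.ofNat (nat_lit 10570234946129479973339922432))⟩,
    ⟨nat_lit 13, nat_lit 14, (.negSucc (nat_lit 10174148991)), (.negSucc (nat_lit 3167766655)), (.negSucc (nat_lit 10174148975)), (.negSucc (nat_lit 3167766671)), (.ofNat (nat_lit 10080564478725173891218)), (.ofNat (nat_lit 0)), (.ofNat (nat_lit 31710714139291043400820457472))⟩,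
    ⟨nat_lit 14, nat_lit 9, (.negSucc (nat_lit 3167766655)), (.negSucc (nat_lit 1851619711)), (.negSucc (nat_lit 3167766639)), (.negSucc (nat_lit 1851619727)), (.negSucc (nat_lit 10080564478775731257489)), (.ofNat (nat_lit 0)), (.ofNat (nat_lit 80824314391139610606745592838400))⟩,
    ⟨nat_lit 0, nat_lit 8, (.ofNat (nat_lit 2990107648)), (.ofNat (nat_lit 16172683456)), (.ofNat (nat_lit 2990107664)), (.ofNat (nat_lit 16172683440)), (.ofNat (nat_lit 10080564478775731257490)), (.ofNat (nat_lit 0)), (.ofNat (nat_lit 10570237978896741179053834240))⟩,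
    ⟨nat_lit 15, nat_lit 11, (.negSucc (nat_lit 12666637823)), (.negSucc (nat_lit 1503809535)), (.negSucc (nat_lit 12666637807)), (.negSucc (nat_lit 1503809551)), (.negSucc (nat_lit 10080564478775731257489)), (.ofNat (nat_lit 0)), (.ofNat (nat_lit 0))⟩]

theorem ok138 : stOK 15 15 S138 = true := by decide +kernel

def S139 : SD where
  vs := [
    ⟨nat_lit 0, nat_lit 0, nat_lit 14, (.ofNat (nat_lit 8)), (.ofNat (nat_lit 2990107648)), (.ofNat (nat_lit 99525752713170084659582100767232)), (.ofNat (nat_lit 0)), (.ofNat (nat_lit 1531165426356462840913955695872)), (.ofNat (nat_lit 2990107632)), (.ofNat (nat_lit 2990107664)), (.negSucc (nat_lit 10238073298756602058387)), (.ofNat (nat_lit 10238073298756602058388)), (.negSucc (nat_lit 10238073298756602058387)), (.ofNat (nat_lit 10238073298756602058388)), (.ofNat (nat_lit 945052919885224805388))⟩,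
    ⟨nat_lit 2, nat_lit 0, nat_lit 1, (.ofNat (nat_lit 8)), (.negSucc (nat_lit 2692386303)), (.ofNat (nat_lit 157703542313487164976442661636608)), (.ofNat (nat_lit 0)), (.ofNat (nat_lit 2426208343284417922710236864768)), (.negSucc (nat_lit 2692386319)), (.negSucc (nat_lit 2692386287)), (.negSucc (nat_lit 10238073298756602058387)), (.ofNat (nat_lit 10238073298756602058388)), (.negSucc (nat_lit 10238073298756602058387)), (.ofNat (nat_lit 10238073298756602058388)), (.ofNat (nat_lit 945052919885224805388))⟩,
    ⟨nat_lit 1, nat_lit 1, nat_lit 2, (.ofNat (nat_lit 8)), (.ofNat (nat_lit 10529928896)), (.ofNat (nat_lit 293074574510350725473417601534208)), (.ofNat (nat_lit 0)), (.ofNat (nat_lit 4508839607851549622660035914368)), (.ofNat (nat_lit 10529928880)), (.ofNat (nat_lit 10529928912)), (.ofNat (nat_lit 10238073298756602058388)), (.negSucc (nat_lit 10238073298756602058387)), (.negSucc (nat_lit 10238073298756602058387)), (.ofNat (nat_lit 10238073298756602058388)), (.ofNat (nat_lit 945052919885224805388))⟩,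
    ⟨nat_lit 0, nat_lit 3, nat_lit 2, (.ofNat (nat_lit 8)), (.ofNat (nat_lit 2967091776)), (.ofNat (nat_lit 370503455291468005365662775296768)), (.ofNat (nat_lit 0)), (.ofNat (nat_lit 5700053158330277005615559648128)), (.ofNat (nat_lit 2967091760)), (.ofNat (nat_lit 2967091792)), (.ofNat (nat_lit 10238073298756602058388)), (.negSucc (nat_lit 10238073298756602058387)), (.negSucc (nat_lit 10238073298756602058387)), (.ofNat (nat_lit 10238073298756602058388)), (.ofNat (nat_lit 945052919885224805388))⟩,
    ⟨nat_lit 2, nat_lit 4, nat_lit 3, (.ofNat (nat_lit 8)), (.negSucc (nat_lit 14280394431)), (.ofNat (nat_lit 193922427274670447814671334584064)), (.ofNat (nat_lit 0)), (.ofNat (nat_lit 2983421958071853043297390633344)), (.negSucc (nat_lit 14280394447)), (.negSucc (nat_lit 14280394415)), (.negSucc (nat_lit 10238073298756602058387)), (.ofNat (nat_lit 10238073298756602058388)), (.negSucc (nat_lit 10238073298756602058387)), (.ofNat (nat_lit 10238073298756602058388)), (.ofNat (nat_lit 945052919885224805388))⟩,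
    ⟨nat_lit 0, nat_lit 5, nat_lit 6, (.ofNat (nat_lit 8)), (.ofNat (nat_lit 5159033216)), (.ofNat (nat_lit 312837351162270612051018546062336)), (.ofNat (nat_lit 0)), (.ofNat (nat_lit 4812882325573394031545669741056)), (.ofNat (nat_lit 5159033200)), (.ofNat (nat_lit 5159033232)), (.ofNat (nat_lit 10238073298756602058388)), (.negSucc (nat_lit 10238073298756602058387)), (.negSucc (nat_lit 10238073298756602058387)), (.ofNat (nat_lit 10238073298756602058388)), (.ofNat (nat_lit 945052919885224805388))⟩,
    ⟨nat_lit 0, nat_lit 6, nat_lit 7, (.ofNat (nat_lit 8)), (.ofNat (nat_lit 17839040320)), (.ofNat (nat_lit 183018509002764183583757683273984)), (.ofNat (nat_lit 0)), (.ofNat (nat_lit 2815669369273295132052860161664)), (.ofNat (nat_lit 17839040304)), (.ofNat (nat_lit 17839040336)), (.negSucc (nat_lit 10238073298756602058387)), (.ofNat (nat_lit 10238073298756602058388)), (.negSucc (nat_lit 10238073298756602058387)), (.ofNat (nat_lit 10238073298756602058388)), (.ofNat (nat_lit 945052919885224805388))⟩,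
    ⟨nat_lit 1, nat_lit 7, nat_lit 8, (.ofNat (nat_lit 8)), (.ofNat (nat_lit 19519587840)), (.ofNat (nat_lit 200224077694567810256608531871744)), (.ofNat (nat_lit 0)), (.ofNat (nat_lit 3080370426070274003942407834624)), (.ofNat (nat_lit 19519587824)), (.ofNat (nat_lit 19519587856)), (.ofNat (nat_lit 10238073298756602058388)), (.negSucc (nat_lit 10238073298756602058387)), (.negSucc (nat_lit 10238073298756602058387)), (.ofNat (nat_lit 10238073298756602058388)), (.ofNat (nat_lit 945052919885224805388))⟩,
    ⟨nat_lit 0, nat_lit 14, nat_lit 8, (.ofNat (nat_lit 8)), (.ofNat (nat_lit 16172683456)), (.ofNat (nat_lit 234489930101889623434770753044736)), (.ofNat (nat_lit 0)), (.ofNat (nat_lit 3607537386182917283605515171456)), (.ofNat (nat_lit 16172683440)), (.ofNat (nat_lit 16172683472)), (.ofNat (nat_lit 10238073298756602058388)), (.negSucc (nat_lit 10238073298756602058387)), (.negSucc (nat_lit 10238073298756602058387)), (.ofNat (nat_lit 10238073298756602058388)), (.ofNat (nat_lit 945052919885224805388))⟩,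
    ⟨nat_lit 1, nat_lit 9, nat_lit 13, (.ofNat (nat_lit 8)), (.negSucc (nat_lit 1851619711)), (.ofNat (nat_lit 292215891413294249588534205356032)), (.ofNat (nat_lit 0)), (.ofNat (nat_lit 4495629098666065378277237660672)), (.negSucc (nat_lit 1851619727)), (.negSucc (nat_lit 1851619695)), (.ofNat (nat_lit 10238073298756602058388)), (.negSucc (nat_lit 10238073298756602058387)), (.negSucc (nat_lit 10238073298756602058387)), (.ofNat (nat_lit 10238073298756602058388)), (.ofNat (nat_lit 945052919885224805388))⟩,
    ⟨nat_lit 0, nat_lit 4, nat_lit 9, (.ofNat (nat_lit 8)), (.negSucc (nat_lit 12866395839)), (.ofNat (nat_lit 179445806045435817153406400794368)), (.ofNat (nat_lit 0)), (.ofNat (nat_lit 2760704708391320263893706297728)), (.negSucc (nat_lit 12866395855)), (.negSucc (nat_lit 12866395823)), (.negSucc (nat_lit 10238073298756602058387)), (.ofNat (nat_lit 10238073298756602058388)), (.negSucc (nat_lit 10238073298756602058387)), (.ofNat (nat_lit 10238073298756602058388)), (.ofNat (nat_lit 945052919885224805388))⟩,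
    ⟨nat_lit 0, nat_lit 15, nat_lit 10, (.ofNat (nat_lit 8)), (.negSucc (nat_lit 1503809535)), (.ofNat (nat_lit 16050970221250110045874591299072)), (.ofNat (nat_lit 0)), (.ofNat (nat_lit 246938003403847846859174944512)), (.negSucc (nat_lit 1503809551)), (.negSucc (nat_lit 1503809519)), (.negSucc (nat_lit 10238073298756602058387)), (.ofNat (nat_lit 10238073298756602058388)), (.negSucc (nat_lit 10238073298756602058387)), (.ofNat (nat_lit 10238073298756602058388)), (.ofNat (nat_lit 945067574512203806552))⟩,
    ⟨nat_lit 1, nat_lit 10, nat_lit 11, (.ofNat (nat_lit 8)), (.ofNat (nat_lit 4803056000)), (.ofNat (nat_lit 80621121864219955220388528215040)), (.ofNat (nat_lit 0)), (.ofNat (nat_lit 1240371164138148479429956737792)), (.ofNat (nat_lit 4803055984)), (.ofNat (nat_lit 4803056016)), (.ofNat (nat_lit 10238073298756602058388)), (.negSucc (nat_lit 10238073298756602058387)), (.negSucc (nat_lit 10238073298756602058387)), (.ofNat (nat_lit 10238073298756602058388)), (.ofNat (nat_lit 945076058063182002302))⟩,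
    ⟨nat_lit 2, nat_lit 11, nat_lit 12, (.ofNat (nat_lit 8)), (.negSucc (nat_lit 10174148991)), (.ofNat (nat_lit 233958844382819242962234757287936)), (.ofNat (nat_lit 0)), (.ofNat (nat_lit 3599366836304533346025229707264)), (.negSucc (nat_lit 10174149007)), (.negSucc (nat_lit 10174148975)), (.negSucc (nat_lit 10238073298756602058387)), (.ofNat (nat_lit 10238073298756602058388)), (.negSucc (nat_lit 10238073298756602058387)), (.ofNat (nat_lit 10238073298756602058388)), (.ofNat (nat_lit 945040577834337927104))⟩,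
    ⟨nat_lit 0, nat_lit 12, nat_lit 13, (.ofNat (nat_lit 8)), (.negSucc (nat_lit 3167766655)), (.ofNat (nat_lit 305690700297900750387505681122304)), (.ofNat (nat_lit 0)), (.ofNat (nat_lit 4702933850736934621337972816384)), (.negSucc (nat_lit 3167766671)), (.negSucc (nat_lit 3167766639)), (.ofNat (nat_lit 10238073298756602058388)), (.negSucc (nat_lit 10238073298756602058387)), (.negSucc (nat_lit 10238073298756602058387)), (.ofNat (nat_lit 10238073298756602058388)), (.ofNat (nat_lit 945052920087454270476))⟩,
    ⟨nat_lit 2, nat_lit 15, nat_lit 5, (.ofNat (nat_lit 8)), (.negSucc (nat_lit 12666637823)), (.ofNat (nat_lit 130336824455227782730007185378816)), (.ofNat (nat_lit 0)), (.ofNat (nat_lit 2005181914695812041996585147136)), (.negSucc (nat_lit 12666637839)), (.negSucc (nat_lit 12666637807)), (.negSucc (nat_lit 10238073298756602058387)), (.ofNat (nat_lit 10238073298756602058388)), (.negSucc (nat_lit 10238073298756602058387)), (.ofNat (nat_lit 10238073298756602058388)), (.ofNat (nat_lit 945052919885224805388))⟩]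
  es := [
    ⟨nat_lit 1, nat_lit 0, (.negSucc (nat_lit 2692386303)), (.ofNat (nat_lit 2990107648)), (.negSucc (nat_lit 2692386287)), (.ofNat (nat_lit 2990107632)), (.negSucc (nat_lit 10238073298756602058387)), (.negSucc (nat_lit 157508819980870800897)), (.ofNat (nat_lit 2002133753608719836378950763776))⟩,
    ⟨nat_lit 1, nat_lit 2, (.negSucc (nat_lit 2692386303)), (.ofNat (nat_lit 10529928896)), (.negSucc (nat_lit 2692386287)), (.ofNat (nat_lit 10529928880)), (.ofNat (nat_lit 10238073298756602058388)), (.ofNat (nat_lit 157508819980870800898)), (.ofNat (nat_lit 2850282932960116009041522965760))⟩,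
    ⟨nat_lit 3, nat_lit 2, (.ofNat (nat_lit 2967091776)), (.ofNat (nat_lit 10529928896)), (.ofNat (nat_lit 2967091792)), (.ofNat (nat_lit 10529928880)), (.negSucc (nat_lit 10238073298756602058387)), (.negSucc (nat_lit 157508819980870800897)), (.ofNat (nat_lit 6167396282742983236278548862976))⟩,
    ⟨nat_lit 4, nat_lit 3, (.negSucc (nat_lit 14280394431)), (.ofNat (nat_lit 2967091776)), (.negSucc (nat_lit 14280394415)), (.ofNat (nat_lit 2967091760)), (.ofNat (nat_lit 10238073298756602058388)), (.ofNat (nat_lit 157508819980870800898)), (.ofNat (nat_lit 5232710033917570774952570433280))⟩,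
    ⟨nat_lit 4, nat_lit 10, (.negSucc (nat_lit 14280394431)), (.negSucc (nat_lit 12866395839)), (.negSucc (nat_lit 14280394415)), (.negSucc (nat_lit 12866395855)), (.negSucc (nat_lit 10238073298756602058387)), (.negSucc (nat_lit 157508819980870800897)), (.ofNat (nat_lit 734133882226135311642210833408))⟩,
    ⟨nat_lit 15, nat_lit 5, (.negSucc (nat_lit 12666637823)), (.ofNat (nat_lit 5159033216)), (.negSucc (nat_lit 12666637807)), (.ofNat (nat_lit 5159033200)), (.ofNat (nat_lit 10238073298756602058388)), (.ofNat (nat_lit 157508819980870800898)), (.ofNat (nat_lit 4000289091479117085108365113088))⟩,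
    ⟨nat_lit 5, nat_lit 6, (.ofNat (nat_lit 5159033216)), (.ofNat (nat_lit 17839040320)), (.ofNat (nat_lit 5159033232)), (.ofNat (nat_lit 17839040304)), (.negSucc (nat_lit 10238073298756602058387)), (.negSucc (nat_lit 157508819980870800897)), (.ofNat (nat_lit 5625475559667670977982974369024))⟩,
    ⟨nat_lit 6, nat_lit 7, (.ofNat (nat_lit 17839040320)), (.ofNat (nat_lit 19519587840)), (.ofNat (nat_lit 17839040336)), (.ofNat (nat_lit 19519587824)), (.ofNat (nat_lit 10238073298756602058388)), (.ofNat (nat_lit 157508819980870800898)), (.ofNat (nat_lit 5863178878919286122745954304))⟩,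
    ⟨nat_lit 8, nat_lit 7, (.ofNat (nat_lit 16172683456)), (.ofNat (nat_lit 19519587840)), (.ofNat (nat_lit 16172683472)), (.ofNat (nat_lit 19519587824)), (.negSucc (nat_lit 10238073298756602058387)), (.negSucc (nat_lit 157508819980870800897)), (.ofNat (nat_lit 6154877673261628721762069714944))⟩,
    ⟨nat_lit 10, nat_lit 9, (.negSucc (nat_lit 12866395839)), (.negSucc (nat_lit 1851619711)), (.negSucc (nat_lit 12866395823)), (.negSucc (nat_lit 1851619727)), (.ofNat (nat_lit 10238073298756602058388)), (.ofNat (nat_lit 157508819980870800898)), (.ofNat (nat_lit 4787275534556505216145201762048))⟩,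
    ⟨nat_lit 11, nat_lit 12, (.negSucc (nat_lit 1503809535)), (.ofNat (nat_lit 4803056000)), (.negSucc (nat_lit 1503809519)), (.ofNat (nat_lit 4803055984)), (.ofNat (nat_lit 10238073298756602058388)), (.ofNat (nat_lit 157516147294360301480)), (.ofNat (nat_lit 483812287779087467244633857792))⟩,
    ⟨nat_lit 13, nat_lit 12, (.negSucc (nat_lit 10174148991)), (.ofNat (nat_lit 4803056000)), (.negSucc (nat_lit 10174148975)), (.ofNat (nat_lit 4803055984)), (.negSucc (nat_lit 10238073298756602058387)), (.negSucc (nat_lit 157505734442870398190)), (.ofNat (nat_lit 1996880026988383802683628433792))⟩,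
    ⟨nat_lit 13, nat_lit 14, (.negSucc (nat_lit 10174148991)), (.negSucc (nat_lit 3167766655)), (.negSucc (nat_lit 10174148975)), (.negSucc (nat_lit 3167766671)), (.ofNat (nat_lit 10238073298756602058388)), (.ofNat (nat_lit 157508820031428167170)), (.ofNat (nat_lit 5201885038858397641358292699904))⟩,
    ⟨nat_lit 14, nat_lit 9, (.negSucc (nat_lit 3167766655)), (.negSucc (nat_lit 1851619711)), (.negSucc (nat_lit 3167766639)), (.negSucc (nat_lit 1851619727)), (.negSucc (nat_lit 10238073298756602058387)), (.negSucc (nat_lit 157508819980870800897)), (.ofNat (nat_lit 4203982662775625540409273559296))⟩,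
    ⟨nat_lit 0, nat_lit 8, (.ofNat (nat_lit 2990107648)), (.ofNat (nat_lit 16172683456)), (.ofNat (nat_lit 2990107664)), (.ofNat (nat_lit 16172683440)), (.ofNat (nat_lit 10238073298756602058388)), (.ofNat (nat_lit 157508819980870800898)), (.ofNat (nat_lit 1060197099104205845448960627968))⟩,
    ⟨nat_lit 15, nat_lit 11, (.negSucc (nat_lit 12666637823)), (.negSucc (nat_lit 1503809535)), (.negSucc (nat_lit 12666637807)), (.negSucc (nat_lit 1503809551)), (.negSucc (nat_lit 10238073298756602058387)), (.negSucc (nat_lit 157508819980870800897)), (.ofNat (nat_lit 10074737912506998884805181184))⟩]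

theorem ok139 : stOK 15 15 S139 = true := by decide +kernel

def S140 : SD where
  vs := [
    ⟨nat_lit 0, nat_lit 0, nat_lit 14, (.ofNat (nat_lit 8)), (.ofNat (nat_lit 2990369792)), (.ofNat (nat_lit 99539171960604230913032071086592)), (.ofNat (nat_lit 262144)), (.ofNat (nat_lit 13419247434146253449970319360)), (.ofNat (nat_lit 2990369776)), (.ofNat (nat_lit 2990369808)), (.negSucc (nat_lit 10238073298756602058387)), (.ofNat (nat_lit 10238073298756602058388)), (.negSucc (nat_lit 10238073298756602058387)), (.ofNat (nat_lit 10238073298756602058388)), (.ofNat (nat_lit 0))⟩,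
    ⟨nat_lit 2, nat_lit 0, nat_lit 1, (.ofNat (nat_lit 8)), (.negSucc (nat_lit 2692386303)), (.ofNat (nat_lit 157719645410408140480582626019840)), (.ofNat (nat_lit 0)), (.ofNat (nat_lit 16103096920975504139964383232)), (.negSucc (nat_lit 2692386319)), (.negSucc (nat_lit 2692386287)), (.negSucc (nat_lit 10238073298756602058387)), (.ofNat (nat_lit 10238073298756602058388)), (.negSucc (nat_lit 10238073298756602058387)), (.ofNat (nat_lit 10238073298756602058388)), (.ofNat (nat_lit 0))⟩,
    ⟨nat_lit 1, nat_lit 1, nat_lit 2, (.ofNat (nat_lit 8)), (.ofNat (nat_lit 10530977472)), (.ofNat (nat_lit 293101413005219017980317542172928)), (.ofNat (nat_lit 1048576)), (.ofNat (nat_lit 26838494868292506899940638720)), (.ofNat (nat_lit 10530977456)), (.ofNat (nat_lit 10530977488)), (.ofNat (nat_lit 10238073298756602058388)), (.negSucc (nat_lit 10238073298756602058387)), (.negSucc (nat_lit 10238073298756602058387)), (.ofNat (nat_lit 10238073298756602058388)), (.ofNat (nat_lit 0))⟩,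
    ⟨nat_lit 0, nat_lit 3, nat_lit 2, (.ofNat (nat_lit 8)), (.ofNat (nat_lit 2122393024)), (.ofNat (nat_lit 379189116922627839785803666922752)), (.negSucc (nat_lit 844698751)), (.ofNat (nat_lit 8685661631159834420140891625984)), (.ofNat (nat_lit 2122393008)), (.ofNat (nat_lit 2122393040)), (.ofNat (nat_lit 10238073298756602058388)), (.negSucc (nat_lit 10238073298756602058387)), (.negSucc (nat_lit 10238073298756602058387)), (.ofNat (nat_lit 10238073298756602058388)), (.ofNat (nat_lit 0))⟩,
    ⟨nat_lit 2, nat_lit 4, nat_lit 3, (.ofNat (nat_lit 8)), (.negSucc (nat_lit 15126666047)), (.ofNat (nat_lit 202591985808909306730672261826816)), (.negSucc (nat_lit 846271615)), (.ofNat (nat_lit 8669558534238858916000927242752)), (.negSucc (nat_lit 15126666063)), (.negSucc (nat_lit 15126666031)), (.negSucc (nat_lit 10238073298756602058387)), (.ofNat (nat_lit 10238073298756602058388)), (.negSucc (nat_lit 10238073298756602058387)), (.ofNat (nat_lit 10238073298756602058388)), (.ofNat (nat_lit 0))⟩,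
    ⟨nat_lit 0, nat_lit 5, nat_lit 6, (.ofNat (nat_lit 8)), (.ofNat (nat_lit 5159295360)), (.ofNat (nat_lit 312861505807652075307228492637184)), (.ofNat (nat_lit 262144)), (.ofNat (nat_lit 24154645381463256209946574848)), (.ofNat (nat_lit 5159295344)), (.ofNat (nat_lit 5159295376)), (.ofNat (nat_lit 10238073298756602058388)), (.negSucc (nat_lit 10238073298756602058387)), (.negSucc (nat_lit 10238073298756602058387)), (.ofNat (nat_lit 10238073298756602058388)), (.ofNat (nat_lit 0))⟩,
    ⟨nat_lit 0, nat_lit 6, nat_lit 7, (.ofNat (nat_lit 8)), (.ofNat (nat_lit 17840351040)), (.ofNat (nat_lit 183031928250198329837207653593344)), (.ofNat (nat_lit 1310720)), (.ofNat (nat_lit 13419247434146253449970319360)), (.ofNat (nat_lit 17840351024)), (.ofNat (nat_lit 17840351056)), (.negSucc (nat_lit 10238073298756602058387)), (.ofNat (nat_lit 10238073298756602058388)), (.negSucc (nat_lit 10238073298756602058387)), (.ofNat (nat_lit 10238073298756602058388)), (.ofNat (nat_lit 0))⟩,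
    ⟨nat_lit 1, nat_lit 7, nat_lit 8, (.ofNat (nat_lit 8)), (.ofNat (nat_lit 19521160704)), (.ofNat (nat_lit 200240180791488785760748496254976)), (.ofNat (nat_lit 1572864)), (.ofNat (nat_lit 16103096920975504139964383232)), (.ofNat (nat_lit 19521160688)), (.ofNat (nat_lit 19521160720)), (.ofNat (nat_lit 10238073298756602058388)), (.negSucc (nat_lit 10238073298756602058387)), (.negSucc (nat_lit 10238073298756602058387)), (.ofNat (nat_lit 10238073298756602058388)), (.ofNat (nat_lit 0))⟩,
    ⟨nat_lit 0, nat_lit 14, nat_lit 8, (.ofNat (nat_lit 8)), (.ofNat (nat_lit 16173732032)), (.ofNat (nat_lit 234511400897784257440290705555712)), (.ofNat (nat_lit 1048576)), (.ofNat (nat_lit 21470795894634005519952510976)), (.ofNat (nat_lit 16173732016)), (.ofNat (nat_lit 16173732048)), (.ofNat (nat_lit 10238073298756602058388)), (.negSucc (nat_lit 10238073298756602058387)), (.negSucc (nat_lit 10238073298756602058387)), (.ofNat (nat_lit 10238073298756602058388)), (.ofNat (nat_lit 0))⟩,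
    ⟨nat_lit 1, nat_lit 9, nat_lit 13, (.ofNat (nat_lit 8)), (.negSucc (nat_lit 2696580607)), (.ofNat (nat_lit 300888133797019937755225126662656)), (.negSucc (nat_lit 844960895)), (.ofNat (nat_lit 8672242383725688166690921306624)), (.negSucc (nat_lit 2696580623)), (.negSucc (nat_lit 2696580591)), (.ofNat (nat_lit 10238073298756602058388)), (.negSucc (nat_lit 10238073298756602058387)), (.negSucc (nat_lit 10238073298756602058387)), (.ofNat (nat_lit 10238073298756602058388)), (.ofNat (nat_lit 0))⟩,
    ⟨nat_lit 0, nat_lit 4, nat_lit 9, (.ofNat (nat_lit 8)), (.negSucc (nat_lit 13712143167)), (.ofNat (nat_lit 188109996880701017568027339909376)), (.negSucc (nat_lit 845747327)), (.ofNat (nat_lit 8664190835265200414620939115008)), (.negSucc (nat_lit 13712143183)), (.negSucc (nat_lit 13712143151)), (.negSucc (nat_lit 10238073298756602058387)), (.ofNat (nat_lit 10238073298756602058388)), (.negSucc (nat_lit 10238073298756602058387)), (.ofNat (nat_lit 10238073298756602058388)), (.ofNat (nat_lit 0))⟩,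
    ⟨nat_lit 0, nat_lit 15, nat_lit 10, (.ofNat (nat_lit 8)), (.negSucc (nat_lit 1504071679)), (.ofNat (nat_lit 16053654070736939296564585362944)), (.negSucc (nat_lit 262143)), (.ofNat (nat_lit 2683849486829250689994063872)), (.negSucc (nat_lit 1504071695)), (.negSucc (nat_lit 1504071663)), (.negSucc (nat_lit 10238073298756602058387)), (.ofNat (nat_lit 10238073298756602058388)), (.negSucc (nat_lit 10238073298756602058387)), (.ofNat (nat_lit 10238073298756602058388)), (.ofNat (nat_lit 0))⟩,
    ⟨nat_lit 1, nat_lit 10, nat_lit 11, (.ofNat (nat_lit 8)), (.ofNat (nat_lit 4803318144)), (.ofNat (nat_lit 80629173412680442972458510406656)), (.ofNat (nat_lit 262144)), (.ofNat (nat_lit 8051548460487752069982191616)), (.ofNat (nat_lit 4803318128)), (.ofNat (nat_lit 4803318160)), (.ofNat (nat_lit 10238073298756602058388)), (.negSucc (nat_lit 10238073298756602058387)), (.negSucc (nat_lit 10238073298756602058387)), (.ofNat (nat_lit 10238073298756602058388)), (.ofNat (nat_lit 0))⟩,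
    ⟨nat_lit 2, nat_lit 11, nat_lit 12, (.ofNat (nat_lit 8)), (.negSucc (nat_lit 11019896319)), (.ofNat (nat_lit 242628402917058101878235684530688)), (.negSucc (nat_lit 845747327)), (.ofNat (nat_lit 8669558534238858916000927242752)), (.negSucc (nat_lit 11019896335)), (.negSucc (nat_lit 11019896303)), (.negSucc (nat_lit 10238073298756602058387)), (.ofNat (nat_lit 10238073298756602058388)), (.negSucc (nat_lit 10238073298756602058387)), (.ofNat (nat_lit 10238073298756602058388)), (.ofNat (nat_lit 0))⟩,
    ⟨nat_lit 0, nat_lit 12, nat_lit 13, (.ofNat (nat_lit 8)), (.negSucc (nat_lit 4012989695)), (.ofNat (nat_lit 314365626531113267804886596492800)), (.negSucc (nat_lit 845223039)), (.ofNat (nat_lit 8674926233212517417380915370496)), (.negSucc (nat_lit 4012989711)), (.negSucc (nat_lit 4012989679)), (.ofNat (nat_lit 10238073298756602058388)), (.negSucc (nat_lit 10238073298756602058387)), (.negSucc (nat_lit 10238073298756602058387)), (.ofNat (nat_lit 10238073298756602058388)), (.ofNat (nat_lit 0))⟩,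
    ⟨nat_lit 2, nat_lit 15, nat_lit 5, (.ofNat (nat_lit 8)), (.negSucc (nat_lit 12667686399)), (.ofNat (nat_lit 130347559853175099732767161634304)), (.negSucc (nat_lit 1048575)), (.ofNat (nat_lit 10735397947317002759976255488)), (.negSucc (nat_lit 12667686415)), (.negSucc (nat_lit 12667686383)), (.negSucc (nat_lit 10238073298756602058387)), (.ofNat (nat_lit 10238073298756602058388)), (.negSucc (nat_lit 10238073298756602058387)), (.ofNat (nat_lit 10238073298756602058388)), (.ofNat (nat_lit 0))⟩]
  es := [
    ⟨nat_lit 1, nat_lit 0, (.negSucc (nat_lit 2692386303)), (.ofNat (nat_lit 2990369792)), (.negSucc (nat_lit 2692386287)), (.ofNat (nat_lit 2990369776)), (.negSucc (nat_lit 10238073298756602058387)), (.ofNat (nat_lit 0)), (.ofNat (nat_lit 16103096920975504139964383232))⟩,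
    ⟨nat_lit 1, nat_lit 2, (.negSucc (nat_lit 2692386303)), (.ofNat (nat_lit 10530977472)), (.negSucc (nat_lit 2692386287)), (.ofNat (nat_lit 10530977456)), (.ofNat (nat_lit 10238073298756602058388)), (.ofNat (nat_lit 0)), (.ofNat (nat_lit 16103096920975504139964383232))⟩,
    ⟨nat_lit 3, nat_lit 2, (.ofNat (nat_lit 2122393024)), (.ofNat (nat_lit 10530977472)), (.ofNat (nat_lit 2122393040)), (.ofNat (nat_lit 10530977456)), (.negSucc (nat_lit 10238073298756602058387)), (.ofNat (nat_lit 0)), (.ofNat (nat_lit 37573892815609509659916894208))⟩,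
    ⟨nat_lit 4, nat_lit 3, (.negSucc (nat_lit 15126666047)), (.ofNat (nat_lit 2122393024)), (.negSucc (nat_lit 15126666031)), (.ofNat (nat_lit 2122393008)), (.ofNat (nat_lit 10238073298756602058388)), (.ofNat (nat_lit 0)), (.ofNat (nat_lit 17333749369504059330621866357760))⟩,
    ⟨nat_lit 4, nat_lit 10, (.negSucc (nat_lit 15126666047)), (.negSucc (nat_lit 13712143167)), (.negSucc (nat_lit 15126666031)), (.negSucc (nat_lit 13712143183)), (.negSucc (nat_lit 10238073298756602058387)), (.ofNat (nat_lit 0)), (.ofNat (nat_lit 5367698973658501379988127744))⟩,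
    ⟨nat_lit 15, nat_lit 5, (.negSucc (nat_lit 12667686399)), (.ofNat (nat_lit 5159295360)), (.negSucc (nat_lit 12667686383)), (.ofNat (nat_lit 5159295344)), (.ofNat (nat_lit 10238073298756602058388)), (.ofNat (nat_lit 0)), (.ofNat (nat_lit 21470795894634005519952510976))⟩,
    ⟨nat_lit 5, nat_lit 6, (.ofNat (nat_lit 5159295360)), (.ofNat (nat_lit 17840351040)), (.ofNat (nat_lit 5159295376)), (.ofNat (nat_lit 17840351024)), (.negSucc (nat_lit 10238073298756602058387)), (.ofNat (nat_lit 0)), (.ofNat (nat_lit 26838494868292506899940638720))⟩,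
    ⟨nat_lit 6, nat_lit 7, (.ofNat (nat_lit 17840351040)), (.ofNat (nat_lit 19521160704)), (.ofNat (nat_lit 17840351056)), (.ofNat (nat_lit 19521160688)), (.ofNat (nat_lit 10238073298756602058388)), (.ofNat (nat_lit 0)), (.ofNat (nat_lit 0))⟩,
    ⟨nat_lit 8, nat_lit 7, (.ofNat (nat_lit 16173732032)), (.ofNat (nat_lit 19521160704)), (.ofNat (nat_lit 16173732048)), (.ofNat (nat_lit 19521160688)), (.negSucc (nat_lit 10238073298756602058387)), (.ofNat (nat_lit 0)), (.ofNat (nat_lit 32206193841951008279928766464))⟩,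
    ⟨nat_lit 10, nat_lit 9, (.negSucc (nat_lit 13712143167)), (.negSucc (nat_lit 2696580607)), (.negSucc (nat_lit 13712143151)), (.negSucc (nat_lit 2696580623)), (.ofNat (nat_lit 10238073298756602058388)), (.ofNat (nat_lit 0)), (.ofNat (nat_lit 17323013971556742327861890102272))⟩,
    ⟨nat_lit 11, nat_lit 12, (.negSucc (nat_lit 1504071679)), (.ofNat (nat_lit 4803318144)), (.negSucc (nat_lit 1504071663)), (.ofNat (nat_lit 4803318128)), (.ofNat (nat_lit 10238073298756602058388)), (.ofNat (nat_lit 0)), (.ofNat (nat_lit 5367698973658501379988127744))⟩,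
    ⟨nat_lit 13, nat_lit 12, (.negSucc (nat_lit 11019896319)), (.ofNat (nat_lit 4803318144)), (.negSucc (nat_lit 11019896303)), (.ofNat (nat_lit 4803318128)), (.negSucc (nat_lit 10238073298756602058387)), (.ofNat (nat_lit 0)), (.ofNat (nat_lit 10735397947317002759976255488))⟩,
    ⟨nat_lit 13, nat_lit 14, (.negSucc (nat_lit 11019896319)), (.negSucc (nat_lit 4012989695)), (.negSucc (nat_lit 11019896303)), (.negSucc (nat_lit 4012989711)), (.ofNat (nat_lit 10238073298756602058388)), (.ofNat (nat_lit 0)), (.ofNat (nat_lit 17328381670530400829241878230016))⟩,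
    ⟨nat_lit 14, nat_lit 9, (.negSucc (nat_lit 4012989695)), (.negSucc (nat_lit 2696580607)), (.negSucc (nat_lit 4012989679)), (.negSucc (nat_lit 2696580623)), (.negSucc (nat_lit 10238073298756602058387)), (.ofNat (nat_lit 0)), (.ofNat (nat_lit 21470795894634005519952510976))⟩,
    ⟨nat_lit 0, nat_lit 8, (.ofNat (nat_lit 2990369792)), (.ofNat (nat_lit 16173732032)), (.ofNat (nat_lit 2990369808)), (.ofNat (nat_lit 16173732016)), (.ofNat (nat_lit 10238073298756602058388)), (.ofNat (nat_lit 0)), (.ofNat (nat_lit 10735397947317002759976255488))⟩,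
    ⟨nat_lit 15, nat_lit 11, (.negSucc (nat_lit 12667686399)), (.negSucc (nat_lit 1504071679)), (.negSucc (nat_lit 12667686383)), (.negSucc (nat_lit 1504071695)), (.negSucc (nat_lit 10238073298756602058387)), (.ofNat (nat_lit 0)), (.ofNat (nat_lit 0))⟩]

theorem ok140 : stOK 15 15 S140 = true := by decide +kernel

def S141 : SD where
  vs := [
    ⟨nat_lit 0, nat_lit 0, nat_lit 14, (.ofNat (nat_lit 8)), (.ofNat (nat_lit 9997276416)), (.ofNat (nat_lit 171287130972606713842442959304192)), (.ofNat (nat_lit 7006906624)), (.ofNat (nat_lit 71747959012002482929410888217600)), (.ofNat (nat_lit 9997276400)), (.ofNat (nat_lit 9997276432)), (.negSucc (nat_lit 10238073298756602058387)), (.ofNat (nat_lit 10238073298756602058388)), (.negSucc (nat_lit 10238073298756602058387)), (.ofNat (nat_lit 10238073298756602058388)), (.ofNat (nat_lit 0))⟩,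
    ⟨nat_lit 2, nat_lit 0, nat_lit 1, (.ofNat (nat_lit 8)), (.ofNat (nat_lit 4314258176)), (.ofNat (nat_lit 229470288271897452660683508301312)), (.ofNat (nat_lit 7006644480)), (.ofNat (nat_lit 71750642861489312180100882281472)), (.ofNat (nat_lit 4314258160)), (.ofNat (nat_lit 4314258192)), (.negSucc (nat_lit 10238073298756602058387)), (.ofNat (nat_lit 10238073298756602058388)), (.negSucc (nat_lit 10238073298756602058387)), (.ofNat (nat_lit 10238073298756602058388)), (.ofNat (nat_lit 0))⟩,
    ⟨nat_lit 1, nat_lit 1, nat_lit 2, (.ofNat (nat_lit 8)), (.ofNat (nat_lit 17538408384)), (.ofNat (nat_lit 364860107415168817912488406646016)), (.ofNat (nat_lit 7007430912)), (.ofNat (nat_lit 71758694409949799932170864473088)), (.ofNat (nat_lit 17538408368)), (.ofNat (nat_lit 17538408400)), (.ofNat (nat_lit 10238073298756602058388)), (.negSucc (nat_lit 10238073298756602058387)), (.negSucc (nat_lit 10238073298756602058387)), (.ofNat (nat_lit 10238073298756602058388)), (.ofNat (nat_lit 0))⟩,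
    ⟨nat_lit 0, nat_lit 3, nat_lit 2, (.ofNat (nat_lit 8)), (.ofNat (nat_lit 9128775360)), (.ofNat (nat_lit 450958546730524956720734507651328)), (.ofNat (nat_lit 7006382336)), (.ofNat (nat_lit 71769429807897116934930840728576)), (.ofNat (nat_lit 9128775344)), (.ofNat (nat_lit 9128775376)), (.ofNat (nat_lit 10238073298756602058388)), (.negSucc (nat_lit 10238073298756602058387)), (.negSucc (nat_lit 10238073298756602058387)), (.ofNat (nat_lit 10238073298756602058388)), (.ofNat (nat_lit 0))⟩,
    ⟨nat_lit 2, nat_lit 4, nat_lit 3, (.ofNat (nat_lit 8)), (.negSucc (nat_lit 15128238911)), (.ofNat (nat_lit 202613456604803940736192214337792)), (.negSucc (nat_lit 1572863)), (.ofNat (nat_lit 21470795894634005519952510976)), (.negSucc (nat_lit 15128238927)), (.negSucc (nat_lit 15128238895)), (.negSucc (nat_lit 10238073298756602058387)), (.ofNat (nat_lit 10238073298756602058388)), (.negSucc (nat_lit 10238073298756602058387)), (.ofNat (nat_lit 10238073298756602058388)), (.ofNat (nat_lit 0))⟩,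
    ⟨nat_lit 0, nat_lit 5, nat_lit 6, (.ofNat (nat_lit 8)), (.ofNat (nat_lit 12165939840)), (.ofNat (nat_lit 384617516368115045988709363046400)), (.ofNat (nat_lit 7006644480)), (.ofNat (nat_lit 71756010560462970681480870409216)), (.ofNat (nat_lit 12165939824)), (.ofNat (nat_lit 12165939856)), (.ofNat (nat_lit 10238073298756602058388)), (.negSucc (nat_lit 10238073298756602058387)), (.negSucc (nat_lit 10238073298756602058387)), (.ofNat (nat_lit 10238073298756602058388)), (.ofNat (nat_lit 0))⟩,
    ⟨nat_lit 0, nat_lit 6, nat_lit 7, (.ofNat (nat_lit 8)), (.ofNat (nat_lit 24848044096)), (.ofNat (nat_lit 254777203412713983515928547747072)), (.ofNat (nat_lit 7007693056)), (.ofNat (nat_lit 71745275162515653678720894153728)), (.ofNat (nat_lit 24848044080)), (.ofNat (nat_lit 24848044112)), (.negSucc (nat_lit 10238073298756602058387)), (.ofNat (nat_lit 10238073298756602058388)), (.negSucc (nat_lit 10238073298756602058387)), (.ofNat (nat_lit 10238073298756602058388)), (.ofNat (nat_lit 0))⟩,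
    ⟨nat_lit 1, nat_lit 7, nat_lit 8, (.ofNat (nat_lit 8)), (.ofNat (nat_lit 26529115904)), (.ofNat (nat_lit 271988139803491268690159384472576)), (.ofNat (nat_lit 7007955200)), (.ofNat (nat_lit 71747959012002482929410888217600)), (.ofNat (nat_lit 26529115888)), (.ofNat (nat_lit 26529115920)), (.ofNat (nat_lit 10238073298756602058388)), (.negSucc (nat_lit 10238073298756602058387)), (.negSucc (nat_lit 10238073298756602058387)), (.ofNat (nat_lit 10238073298756602058388)), (.ofNat (nat_lit 0))⟩,
    ⟨nat_lit 0, nat_lit 14, nat_lit 8, (.ofNat (nat_lit 8)), (.ofNat (nat_lit 23181162944)), (.ofNat (nat_lit 306264727608760398871081581901056)), (.ofNat (nat_lit 7007430912)), (.ofNat (nat_lit 71753326710976141430790876345344)), (.ofNat (nat_lit 23181162928)), (.ofNat (nat_lit 23181162960)), (.ofNat (nat_lit 10238073298756602058388)), (.negSucc (nat_lit 10238073298756602058387)), (.negSucc (nat_lit 10238073298756602058387)), (.ofNat (nat_lit 10238073298756602058388)), (.ofNat (nat_lit 0))⟩,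
    ⟨nat_lit 1, nat_lit 9, nat_lit 13, (.ofNat (nat_lit 8)), (.negSucc (nat_lit 2697104895)), (.ofNat (nat_lit 300909604592914571760745079173632)), (.negSucc (nat_lit 524287)), (.ofNat (nat_lit 21470795894634005519952510976)), (.negSucc (nat_lit 2697104911)), (.negSucc (nat_lit 2697104879)), (.ofNat (nat_lit 10238073298756602058388)), (.negSucc (nat_lit 10238073298756602058387)), (.negSucc (nat_lit 10238073298756602058387)), (.ofNat (nat_lit 10238073298756602058388)), (.ofNat (nat_lit 0))⟩,
    ⟨nat_lit 0, nat_lit 4, nat_lit 9, (.ofNat (nat_lit 8)), (.negSucc (nat_lit 13713191743)), (.ofNat (nat_lit 188126099977621993072167304292608)), (.negSucc (nat_lit 1048575)), (.ofNat (nat_lit 16103096920975504139964383232)), (.negSucc (nat_lit 13713191759)), (.negSucc (nat_lit 13713191727)), (.negSucc (nat_lit 10238073298756602058387)), (.ofNat (nat_lit 10238073298756602058388)), (.negSucc (nat_lit 10238073298756602058387)), (.ofNat (nat_lit 10238073298756602058388)), (.ofNat (nat_lit 0))⟩,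
    ⟨nat_lit 0, nat_lit 15, nat_lit 10, (.ofNat (nat_lit 8)), (.negSucc (nat_lit 1504333823)), (.ofNat (nat_lit 16056337920223768547254579426816)), (.negSucc (nat_lit 262143)), (.ofNat (nat_lit 2683849486829250689994063872)), (.negSucc (nat_lit 1504333839)), (.negSucc (nat_lit 1504333807)), (.negSucc (nat_lit 10238073298756602058387)), (.ofNat (nat_lit 10238073298756602058388)), (.negSucc (nat_lit 10238073298756602058387)), (.ofNat (nat_lit 10238073298756602058388)), (.ofNat (nat_lit 0))⟩,
    ⟨nat_lit 1, nat_lit 10, nat_lit 11, (.ofNat (nat_lit 8)), (.ofNat (nat_lit 4803580288)), (.ofNat (nat_lit 80637224961140930724528492598272)), (.ofNat (nat_lit 262144)), (.ofNat (nat_lit 8051548460487752069982191616)), (.ofNat (nat_lit 4803580272)), (.ofNat (nat_lit 4803580304)), (.ofNat (nat_lit 10238073298756602058388)), (.negSucc (nat_lit 10238073298756602058387)), (.negSucc (nat_lit 10238073298756602058387)), (.ofNat (nat_lit 10238073298756602058388)), (.ofNat (nat_lit 0))⟩,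
    ⟨nat_lit 2, nat_lit 11, nat_lit 12, (.ofNat (nat_lit 8)), (.negSucc (nat_lit 11020944895)), (.ofNat (nat_lit 242649873712952735883755637041664)), (.negSucc (nat_lit 1048575)), (.ofNat (nat_lit 21470795894634005519952510976)), (.negSucc (nat_lit 11020944911)), (.negSucc (nat_lit 11020944879)), (.negSucc (nat_lit 10238073298756602058387)), (.ofNat (nat_lit 10238073298756602058388)), (.negSucc (nat_lit 10238073298756602058387)), (.ofNat (nat_lit 10238073298756602058388)), (.ofNat (nat_lit 0))⟩,
    ⟨nat_lit 0, nat_lit 12, nat_lit 13, (.ofNat (nat_lit 8)), (.negSucc (nat_lit 4013776127)), (.ofNat (nat_lit 314389781176494731061096543067648)), (.negSucc (nat_lit 786431)), (.ofNat (nat_lit 24154645381463256209946574848)), (.negSucc (nat_lit 4013776143)), (.negSucc (nat_lit 4013776111)), (.ofNat (nat_lit 10238073298756602058388)), (.negSucc (nat_lit 10238073298756602058387)), (.negSucc (nat_lit 10238073298756602058387)), (.ofNat (nat_lit 10238073298756602058388)), (.ofNat (nat_lit 0))⟩,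
    ⟨nat_lit 2, nat_lit 15, nat_lit 5, (.ofNat (nat_lit 8)), (.negSucc (nat_lit 12668734975)), (.ofNat (nat_lit 130358295251122416735527137889792)), (.negSucc (nat_lit 1048575)), (.ofNat (nat_lit 10735397947317002759976255488)), (.negSucc (nat_lit 12668734991)), (.negSucc (nat_lit 12668734959)), (.negSucc (nat_lit 10238073298756602058387)), (.ofNat (nat_lit 10238073298756602058388)), (.negSucc (nat_lit 10238073298756602058387)), (.ofNat (nat_lit 10238073298756602058388)), (.ofNat (nat_lit 0))⟩]
  es := [
    ⟨nat_lit 1, nat_lit 0, (.ofNat (nat_lit 4314258176)), (.ofNat (nat_lit 9997276416)), (.ofNat (nat_lit 4314258192)), (.ofNat (nat_lit 9997276400)), (.negSucc (nat_lit 10238073298756602058387)), (.ofNat (nat_lit 0)), (.ofNat (nat_lit 143485182626057648856061800179712))⟩,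
    ⟨nat_lit 1, nat_lit 2, (.ofNat (nat_lit 4314258176)), (.ofNat (nat_lit 17538408384)), (.ofNat (nat_lit 4314258192)), (.ofNat (nat_lit 17538408368)), (.ofNat (nat_lit 10238073298756602058388)), (.ofNat (nat_lit 0)), (.ofNat (nat_lit 16103096920975504139964383232))⟩,
    ⟨nat_lit 3, nat_lit 2, (.ofNat (nat_lit 9128775360)), (.ofNat (nat_lit 17538408384)), (.ofNat (nat_lit 9128775376)), (.ofNat (nat_lit 17538408368)), (.negSucc (nat_lit 10238073298756602058387)), (.ofNat (nat_lit 0)), (.ofNat (nat_lit 143501285722978624360201764562944))⟩,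
    ⟨nat_lit 4, nat_lit 3, (.negSucc (nat_lit 15128238911)), (.ofNat (nat_lit 9128775360)), (.negSucc (nat_lit 15128238895)), (.ofNat (nat_lit 9128775344)), (.ofNat (nat_lit 10238073298756602058388)), (.ofNat (nat_lit 0)), (.ofNat (nat_lit 37573892815609509659916894208))⟩,
    ⟨nat_lit 4, nat_lit 10, (.negSucc (nat_lit 15128238911)), (.negSucc (nat_lit 13713191743)), (.negSucc (nat_lit 15128238895)), (.negSucc (nat_lit 13713191759)), (.negSucc (nat_lit 10238073298756602058387)), (.ofNat (nat_lit 0)), (.ofNat (nat_lit 5367698973658501379988127744))⟩,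
    ⟨nat_lit 15, nat_lit 5, (.negSucc (nat_lit 12668734975)), (.ofNat (nat_lit 12165939840)), (.negSucc (nat_lit 12668734959)), (.ofNat (nat_lit 12165939824)), (.ofNat (nat_lit 10238073298756602058388)), (.ofNat (nat_lit 0)), (.ofNat (nat_lit 21470795894634005519952510976))⟩,
    ⟨nat_lit 5, nat_lit 6, (.ofNat (nat_lit 12165939840)), (.ofNat (nat_lit 24848044096)), (.ofNat (nat_lit 12165939856)), (.ofNat (nat_lit 24848044080)), (.negSucc (nat_lit 10238073298756602058387)), (.ofNat (nat_lit 0)), (.ofNat (nat_lit 143490550325031307357441788307456))⟩,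
    ⟨nat_lit 6, nat_lit 7, (.ofNat (nat_lit 24848044096)), (.ofNat (nat_lit 26529115904)), (.ofNat (nat_lit 24848044112)), (.ofNat (nat_lit 26529115888)), (.ofNat (nat_lit 10238073298756602058388)), (.ofNat (nat_lit 0)), (.ofNat (nat_lit 0))⟩,
    ⟨nat_lit 8, nat_lit 7, (.ofNat (nat_lit 23181162944)), (.ofNat (nat_lit 26529115904)), (.ofNat (nat_lit 23181162960)), (.ofNat (nat_lit 26529115888)), (.negSucc (nat_lit 10238073298756602058387)), (.ofNat (nat_lit 0)), (.ofNat (nat_lit 143495918024004965858821776435200))⟩,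
    ⟨nat_lit 10, nat_lit 9, (.negSucc (nat_lit 13713191743)), (.negSucc (nat_lit 2697104895)), (.negSucc (nat_lit 13713191727)), (.negSucc (nat_lit 2697104911)), (.ofNat (nat_lit 10238073298756602058388)), (.ofNat (nat_lit 0)), (.ofNat (nat_lit 26838494868292506899940638720))⟩,
    ⟨nat_lit 11, nat_lit 12, (.negSucc (nat_lit 1504333823)), (.ofNat (nat_lit 4803580288)), (.negSucc (nat_lit 1504333807)), (.ofNat (nat_lit 4803580272)), (.ofNat (nat_lit 10238073298756602058388)), (.ofNat (nat_lit 0)), (.ofNat (nat_lit 5367698973658501379988127744))⟩,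
    ⟨nat_lit 13, nat_lit 12, (.negSucc (nat_lit 11020944895)), (.ofNat (nat_lit 4803580288)), (.negSucc (nat_lit 11020944879)), (.ofNat (nat_lit 4803580272)), (.negSucc (nat_lit 10238073298756602058387)), (.ofNat (nat_lit 0)), (.ofNat (nat_lit 10735397947317002759976255488))⟩,
    ⟨nat_lit 13, nat_lit 14, (.negSucc (nat_lit 11020944895)), (.negSucc (nat_lit 4013776127)), (.negSucc (nat_lit 11020944879)), (.negSucc (nat_lit 4013776143)), (.ofNat (nat_lit 10238073298756602058388)), (.ofNat (nat_lit 0)), (.ofNat (nat_lit 32206193841951008279928766464))⟩,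
    ⟨nat_lit 14, nat_lit 9, (.negSucc (nat_lit 4013776127)), (.negSucc (nat_lit 2697104895)), (.negSucc (nat_lit 4013776111)), (.negSucc (nat_lit 2697104911)), (.negSucc (nat_lit 10238073298756602058387)), (.ofNat (nat_lit 0)), (.ofNat (nat_lit 16103096920975504139964383232))⟩,
    ⟨nat_lit 0, nat_lit 8, (.ofNat (nat_lit 9997276416)), (.ofNat (nat_lit 23181162944)), (.ofNat (nat_lit 9997276432)), (.ofNat (nat_lit 23181162928)), (.ofNat (nat_lit 10238073298756602058388)), (.ofNat (nat_lit 0)), (.ofNat (nat_lit 10735397947317002759976255488))⟩,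
    ⟨nat_lit 15, nat_lit 11, (.negSucc (nat_lit 12668734975)), (.negSucc (nat_lit 1504333823)), (.negSucc (nat_lit 12668734959)), (.negSucc (nat_lit 1504333839)), (.negSucc (nat_lit 10238073298756602058387)), (.ofNat (nat_lit 0)), (.ofNat (nat_lit 0))⟩]

theorem ok141 : stOK 15 15 S141 = true := by decide +kernel

def S142 : SD where
  vs := [
    ⟨nat_lit 0, nat_lit 0, nat_lit 14, (.ofNat (nat_lit 8)), (.ofNat (nat_lit 9997800704)), (.ofNat (nat_lit 171303234069527689346582923687424)), (.ofNat (nat_lit 524288)), (.ofNat (nat_lit 16103096920975504139964383232)), (.ofNat (nat_lit 9997800688)), (.ofNat (nat_lit 9997800720)), (.negSucc (nat_lit 10238073298756602058387)), (.ofNat (nat_lit 10238073298756602058388)), (.negSucc (nat_lit 10238073298756602058387)), (.ofNat (nat_lit 10238073298756602058388)), (.ofNat (nat_lit 0))⟩,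
    ⟨nat_lit 2, nat_lit 0, nat_lit 1, (.ofNat (nat_lit 8)), (.ofNat (nat_lit 4314520320)), (.ofNat (nat_lit 229489075218305257415513466748416)), (.ofNat (nat_lit 262144)), (.ofNat (nat_lit 18786946407804754829958447104)), (.ofNat (nat_lit 4314520304)), (.ofNat (nat_lit 4314520336)), (.negSucc (nat_lit 10238073298756602058387)), (.ofNat (nat_lit 10238073298756602058388)), (.negSucc (nat_lit 10238073298756602058387)), (.ofNat (nat_lit 10238073298756602058388)), (.ofNat (nat_lit 0))⟩,
    ⟨nat_lit 1, nat_lit 1, nat_lit 2, (.ofNat (nat_lit 8)), (.ofNat (nat_lit 17539456960)), (.ofNat (nat_lit 364886945910037110419388347284736)), (.ofNat (nat_lit 1048576)), (.ofNat (nat_lit 26838494868292506899940638720)), (.ofNat (nat_lit 17539456944)), (.ofNat (nat_lit 17539456976)), (.ofNat (nat_lit 10238073298756602058388)), (.negSucc (nat_lit 10238073298756602058387)), (.negSucc (nat_lit 10238073298756602058387)), (.ofNat (nat_lit 10238073298756602058388)), (.ofNat (nat_lit 0))⟩,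
    ⟨nat_lit 0, nat_lit 3, nat_lit 2, (.ofNat (nat_lit 8)), (.ofNat (nat_lit 1273161536)), (.ofNat (nat_lit 531422470760178211371534052501248)), (.negSucc (nat_lit 7855613823)), (.ofNat (nat_lit 80463924029653254650799544849920)), (.ofNat (nat_lit 1273161520)), (.ofNat (nat_lit 1273161552)), (.ofNat (nat_lit 10238073298756602058388)), (.negSucc (nat_lit 10238073298756602058387)), (.negSucc (nat_lit 10238073298756602058387)), (.ofNat (nat_lit 10238073298756602058388)), (.ofNat (nat_lit 0))⟩,
    ⟨nat_lit 2, nat_lit 4, nat_lit 3, (.ofNat (nat_lit 8)), (.negSucc (nat_lit 22985425599)), (.ofNat (nat_lit 283061277537536219882851794804480)), (.negSucc (nat_lit 7857186687)), (.ofNat (nat_lit 80447820932732279146659580466688)), (.negSucc (nat_lit 22985425615)), (.negSucc (nat_lit 22985425583)), (.negSucc (nat_lit 10238073298756602058387)), (.ofNat (nat_lit 10238073298756602058388)), (.negSucc (nat_lit 10238073298756602058387)), (.ofNat (nat_lit 10238073298756602058388)), (.ofNat (nat_lit 0))⟩,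
    ⟨nat_lit 0, nat_lit 5, nat_lit 6, (.ofNat (nat_lit 8)), (.ofNat (nat_lit 4310588160)), (.ofNat (nat_lit 465068021150334154386058937576960)), (.negSucc (nat_lit 7855351679)), (.ofNat (nat_lit 80450504782219108397349574530560)), (.ofNat (nat_lit 4310588144)), (.ofNat (nat_lit 4310588176)), (.ofNat (nat_lit 10238073298756602058388)), (.negSucc (nat_lit 10238073298756602058387)), (.negSucc (nat_lit 10238073298756602058387)), (.ofNat (nat_lit 10238073298756602058388)), (.ofNat (nat_lit 0))⟩,
    ⟨nat_lit 0, nat_lit 6, nat_lit 7, (.ofNat (nat_lit 8)), (.ofNat (nat_lit 24849354816)), (.ofNat (nat_lit 254790622660148129769378518066432)), (.ofNat (nat_lit 1310720)), (.ofNat (nat_lit 13419247434146253449970319360)), (.ofNat (nat_lit 24849354800)), (.ofNat (nat_lit 24849354832)), (.negSucc (nat_lit 10238073298756602058387)), (.ofNat (nat_lit 10238073298756602058388)), (.negSucc (nat_lit 10238073298756602058387)), (.ofNat (nat_lit 10238073298756602058388)), (.ofNat (nat_lit 0))⟩,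
    ⟨nat_lit 1, nat_lit 7, nat_lit 8, (.ofNat (nat_lit 8)), (.ofNat (nat_lit 26530688768)), (.ofNat (nat_lit 272004242900412244194299348855808)), (.ofNat (nat_lit 1572864)), (.ofNat (nat_lit 16103096920975504139964383232)), (.ofNat (nat_lit 26530688752)), (.ofNat (nat_lit 26530688784)), (.ofNat (nat_lit 10238073298756602058388)), (.negSucc (nat_lit 10238073298756602058387)), (.negSucc (nat_lit 10238073298756602058387)), (.ofNat (nat_lit 10238073298756602058388)), (.ofNat (nat_lit 0))⟩,
    ⟨nat_lit 0, nat_lit 14, nat_lit 8, (.ofNat (nat_lit 8)), (.ofNat (nat_lit 23182211520)), (.ofNat (nat_lit 306286198404655032876601534412032)), (.ofNat (nat_lit 1048576)), (.ofNat (nat_lit 21470795894634005519952510976)), (.ofNat (nat_lit 23182211504)), (.ofNat (nat_lit 23182211536)), (.ofNat (nat_lit 10238073298756602058388)), (.negSucc (nat_lit 10238073298756602058387)), (.negSucc (nat_lit 10238073298756602058387)), (.ofNat (nat_lit 10238073298756602058388)), (.ofNat (nat_lit 0))⟩,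
    ⟨nat_lit 1, nat_lit 9, nat_lit 13, (.ofNat (nat_lit 8)), (.negSucc (nat_lit 10553243007)), (.ofNat (nat_lit 381357425525646850907404659640320)), (.negSucc (nat_lit 7856138111)), (.ofNat (nat_lit 80447820932732279146659580466688)), (.negSucc (nat_lit 10553243023)), (.negSucc (nat_lit 10553242991)), (.ofNat (nat_lit 10238073298756602058388)), (.negSucc (nat_lit 10238073298756602058387)), (.negSucc (nat_lit 10238073298756602058387)), (.ofNat (nat_lit 10238073298756602058388)), (.ofNat (nat_lit 0))⟩,
    ⟨nat_lit 0, nat_lit 4, nat_lit 9, (.ofNat (nat_lit 8)), (.negSucc (nat_lit 21569854143)), (.ofNat (nat_lit 268568553211380613717446896631552)), (.negSucc (nat_lit 7856662399)), (.ofNat (nat_lit 80442453233758620645279592338944)), (.negSucc (nat_lit 21569854159)), (.negSucc (nat_lit 21569854127)), (.negSucc (nat_lit 10238073298756602058387)), (.ofNat (nat_lit 10238073298756602058388)), (.negSucc (nat_lit 10238073298756602058387)), (.ofNat (nat_lit 10238073298756602058388)), (.ofNat (nat_lit 0))⟩,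
    ⟨nat_lit 0, nat_lit 15, nat_lit 10, (.ofNat (nat_lit 8)), (.negSucc (nat_lit 1504595967)), (.ofNat (nat_lit 16059021769710597797944573490688)), (.negSucc (nat_lit 262143)), (.ofNat (nat_lit 2683849486829250689994063872)), (.negSucc (nat_lit 1504595983)), (.negSucc (nat_lit 1504595951)), (.negSucc (nat_lit 10238073298756602058387)), (.ofNat (nat_lit 10238073298756602058388)), (.negSucc (nat_lit 10238073298756602058387)), (.ofNat (nat_lit 10238073298756602058388)), (.ofNat (nat_lit 0))⟩,
    ⟨nat_lit 1, nat_lit 10, nat_lit 11, (.ofNat (nat_lit 8)), (.ofNat (nat_lit 4803842432)), (.ofNat (nat_lit 80645276509601418476598474789888)), (.ofNat (nat_lit 262144)), (.ofNat (nat_lit 8051548460487752069982191616)), (.ofNat (nat_lit 4803842416)), (.ofNat (nat_lit 4803842448)), (.ofNat (nat_lit 10238073298756602058388)), (.negSucc (nat_lit 10238073298756602058387)), (.negSucc (nat_lit 10238073298756602058387)), (.ofNat (nat_lit 10238073298756602058388)), (.ofNat (nat_lit 0))⟩,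
    ⟨nat_lit 2, nat_lit 11, nat_lit 12, (.ofNat (nat_lit 8)), (.negSucc (nat_lit 18877607295)), (.ofNat (nat_lit 323097694645685015030415217508352)), (.negSucc (nat_lit 7856662399)), (.ofNat (nat_lit 80447820932732279146659580466688)), (.negSucc (nat_lit 18877607311)), (.negSucc (nat_lit 18877607279)), (.negSucc (nat_lit 10238073298756602058387)), (.ofNat (nat_lit 10238073298756602058388)), (.negSucc (nat_lit 10238073298756602058387)), (.ofNat (nat_lit 10238073298756602058388)), (.ofNat (nat_lit 0))⟩,
    ⟨nat_lit 0, nat_lit 12, nat_lit 13, (.ofNat (nat_lit 8)), (.negSucc (nat_lit 11870176383)), (.ofNat (nat_lit 394840285958713839458446117598208)), (.negSucc (nat_lit 7856400255)), (.ofNat (nat_lit 80450504782219108397349574530560)), (.negSucc (nat_lit 11870176399)), (.negSucc (nat_lit 11870176367)), (.ofNat (nat_lit 10238073298756602058388)), (.negSucc (nat_lit 10238073298756602058387)), (.negSucc (nat_lit 10238073298756602058387)), (.ofNat (nat_lit 10238073298756602058388)), (.ofNat (nat_lit 0))⟩,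
    ⟨nat_lit 2, nat_lit 15, nat_lit 5, (.ofNat (nat_lit 8)), (.negSucc (nat_lit 20525397375)), (.ofNat (nat_lit 210795380785907378879426742100992)), (.negSucc (nat_lit 7856662399)), (.ofNat (nat_lit 80437085534784962143899604211200)), (.negSucc (nat_lit 20525397391)), (.negSucc (nat_lit 20525397359)), (.negSucc (nat_lit 10238073298756602058387)), (.ofNat (nat_lit 10238073298756602058388)), (.negSucc (nat_lit 10238073298756602058387)), (.ofNat (nat_lit 10238073298756602058388)), (.ofNat (nat_lit 0))⟩]
  es := [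
    ⟨nat_lit 1, nat_lit 0, (.ofNat (nat_lit 4314520320)), (.ofNat (nat_lit 9997800704)), (.ofNat (nat_lit 4314520336)), (.ofNat (nat_lit 9997800688)), (.negSucc (nat_lit 10238073298756602058387)), (.ofNat (nat_lit 0)), (.ofNat (nat_lit 21470795894634005519952510976))⟩,
    ⟨nat_lit 1, nat_lit 2, (.ofNat (nat_lit 4314520320)), (.ofNat (nat_lit 17539456960)), (.ofNat (nat_lit 4314520336)), (.ofNat (nat_lit 17539456944)), (.ofNat (nat_lit 10238073298756602058388)), (.ofNat (nat_lit 0)), (.ofNat (nat_lit 16103096920975504139964383232))⟩,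
    ⟨nat_lit 3, nat_lit 2, (.ofNat (nat_lit 1273161536)), (.ofNat (nat_lit 17539456960)), (.ofNat (nat_lit 1273161552)), (.ofNat (nat_lit 17539456944)), (.negSucc (nat_lit 10238073298756602058387)), (.ofNat (nat_lit 0)), (.ofNat (nat_lit 37573892815609509659916894208))⟩,
    ⟨nat_lit 4, nat_lit 3, (.negSucc (nat_lit 22985425599)), (.ofNat (nat_lit 1273161536)), (.negSucc (nat_lit 22985425583)), (.ofNat (nat_lit 1273161520)), (.ofNat (nat_lit 10238073298756602058388)), (.ofNat (nat_lit 0)), (.ofNat (nat_lit 160890274166490899791939172805632))⟩,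
    ⟨nat_lit 4, nat_lit 10, (.negSucc (nat_lit 22985425599)), (.negSucc (nat_lit 21569854143)), (.negSucc (nat_lit 22985425583)), (.negSucc (nat_lit 21569854159)), (.negSucc (nat_lit 10238073298756602058387)), (.ofNat (nat_lit 0)), (.ofNat (nat_lit 5367698973658501379988127744))⟩,
    ⟨nat_lit 15, nat_lit 5, (.negSucc (nat_lit 20525397375)), (.ofNat (nat_lit 4310588160)), (.negSucc (nat_lit 20525397359)), (.ofNat (nat_lit 4310588144)), (.ofNat (nat_lit 10238073298756602058388)), (.ofNat (nat_lit 0)), (.ofNat (nat_lit 160874171069569924287799208422400))⟩,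
    ⟨nat_lit 5, nat_lit 6, (.ofNat (nat_lit 4310588160)), (.ofNat (nat_lit 24849354816)), (.ofNat (nat_lit 4310588176)), (.ofNat (nat_lit 24849354800)), (.negSucc (nat_lit 10238073298756602058387)), (.ofNat (nat_lit 0)), (.ofNat (nat_lit 26838494868292506899940638720))⟩,
    ⟨nat_lit 6, nat_lit 7, (.ofNat (nat_lit 24849354816)), (.ofNat (nat_lit 26530688768)), (.ofNat (nat_lit 24849354832)), (.ofNat (nat_lit 26530688752)), (.ofNat (nat_lit 10238073298756602058388)), (.ofNat (nat_lit 0)), (.ofNat (nat_lit 0))⟩,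
    ⟨nat_lit 8, nat_lit 7, (.ofNat (nat_lit 23182211520)), (.ofNat (nat_lit 26530688768)), (.ofNat (nat_lit 23182211536)), (.ofNat (nat_lit 26530688752)), (.negSucc (nat_lit 10238073298756602058387)), (.ofNat (nat_lit 0)), (.ofNat (nat_lit 32206193841951008279928766464))⟩,
    ⟨nat_lit 10, nat_lit 9, (.negSucc (nat_lit 21569854143)), (.negSucc (nat_lit 10553243007)), (.negSucc (nat_lit 21569854127)), (.negSucc (nat_lit 10553243023)), (.ofNat (nat_lit 10238073298756602058388)), (.ofNat (nat_lit 0)), (.ofNat (nat_lit 160879538768543582789179196550144))⟩,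
    ⟨nat_lit 11, nat_lit 12, (.negSucc (nat_lit 1504595967)), (.ofNat (nat_lit 4803842432)), (.negSucc (nat_lit 1504595951)), (.ofNat (nat_lit 4803842416)), (.ofNat (nat_lit 10238073298756602058388)), (.ofNat (nat_lit 0)), (.ofNat (nat_lit 5367698973658501379988127744))⟩,
    ⟨nat_lit 13, nat_lit 12, (.negSucc (nat_lit 18877607295)), (.ofNat (nat_lit 4803842432)), (.negSucc (nat_lit 18877607279)), (.ofNat (nat_lit 4803842416)), (.negSucc (nat_lit 10238073298756602058387)), (.ofNat (nat_lit 0)), (.ofNat (nat_lit 10735397947317002759976255488))⟩,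
    ⟨nat_lit 13, nat_lit 14, (.negSucc (nat_lit 18877607295)), (.negSucc (nat_lit 11870176383)), (.negSucc (nat_lit 18877607279)), (.negSucc (nat_lit 11870176399)), (.ofNat (nat_lit 10238073298756602058388)), (.ofNat (nat_lit 0)), (.ofNat (nat_lit 160884906467517241290559184677888))⟩,
    ⟨nat_lit 14, nat_lit 9, (.negSucc (nat_lit 11870176383)), (.negSucc (nat_lit 10553243007)), (.negSucc (nat_lit 11870176367)), (.negSucc (nat_lit 10553243023)), (.negSucc (nat_lit 10238073298756602058387)), (.ofNat (nat_lit 0)), (.ofNat (nat_lit 16103096920975504139964383232))⟩,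
    ⟨nat_lit 0, nat_lit 8, (.ofNat (nat_lit 9997800704)), (.ofNat (nat_lit 23182211520)), (.ofNat (nat_lit 9997800720)), (.ofNat (nat_lit 23182211504)), (.ofNat (nat_lit 10238073298756602058388)), (.ofNat (nat_lit 0)), (.ofNat (nat_lit 10735397947317002759976255488))⟩,
    ⟨nat_lit 15, nat_lit 11, (.negSucc (nat_lit 20525397375)), (.negSucc (nat_lit 1504595967)), (.negSucc (nat_lit 20525397359)), (.negSucc (nat_lit 1504595983)), (.negSucc (nat_lit 10238073298756602058387)), (.ofNat (nat_lit 0)), (.ofNat (nat_lit 0))⟩]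

theorem ok142 : stOK 15 15 S142 = true := by decide +kernel

def S143 : SD where
  vs := [
    ⟨nat_lit 0, nat_lit 0, nat_lit 14, (.ofNat (nat_lit 8)), (.ofNat (nat_lit 9997800704)), (.ofNat (nat_lit 173979847101864059492618053126400)), (.ofNat (nat_lit 0)), (.ofNat (nat_lit 2676613032336370146035129438976)), (.ofNat (nat_lit 9997800688)), (.ofNat (nat_lit 9997800720)), (.negSucc (nat_lit 10398043194049673965549)), (.ofNat (nat_lit 10398043194049673965550)), (.negSucc (nat_lit 10398043194049673965549)), (.ofNat (nat_lit 10398043194049673965550)), (.ofNat (nat_lit 959819371758431442972))⟩,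
    ⟨nat_lit 2, nat_lit 0, nat_lit 1, (.ofNat (nat_lit 8)), (.ofNat (nat_lit 4314520320)), (.ofNat (nat_lit 233074842018591277062623859897600)), (.ofNat (nat_lit 0)), (.ofNat (nat_lit 3585766800286019647110393149184)), (.ofNat (nat_lit 4314520304)), (.ofNat (nat_lit 4314520336)), (.negSucc (nat_lit 10398043194049673965549)), (.ofNat (nat_lit 10398043194049673965550)), (.negSucc (nat_lit 10398043194049673965549)), (.ofNat (nat_lit 10398043194049673965550)), (.ofNat (nat_lit 959819371758431442972))⟩,
    ⟨nat_lit 1, nat_lit 1, nat_lit 2, (.ofNat (nat_lit 8)), (.ofNat (nat_lit 17539456960)), (.ofNat (nat_lit 370588304439881440269680152649600)), (.ofNat (nat_lit 0)), (.ofNat (nat_lit 5701358529844329850291805364864)), (.ofNat (nat_lit 17539456944)), (.ofNat (nat_lit 17539456976)), (.ofNat (nat_lit 10398043194049673965550)), (.negSucc (nat_lit 10398043194049673965549)), (.negSucc (nat_lit 10398043194049673965549)), (.ofNat (nat_lit 10398043194049673965550)), (.ofNat (nat_lit 959819371758431442972))⟩,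
    ⟨nat_lit 0, nat_lit 3, nat_lit 2, (.ofNat (nat_lit 8)), (.ofNat (nat_lit 1273161536)), (.ofNat (nat_lit 539725946865805995924198051292800)), (.ofNat (nat_lit 0)), (.ofNat (nat_lit 8303476105627784552663998791552)), (.ofNat (nat_lit 1273161520)), (.ofNat (nat_lit 1273161552)), (.ofNat (nat_lit 10398043194049673965550)), (.negSucc (nat_lit 10398043194049673965549)), (.negSucc (nat_lit 10398043194049673965549)), (.ofNat (nat_lit 10398043194049673965550)), (.ofNat (nat_lit 959819371758431442972))⟩,
    ⟨nat_lit 2, nat_lit 4, nat_lit 3, (.ofNat (nat_lit 8)), (.negSucc (nat_lit 22985425599)), (.ofNat (nat_lit 287484109999060223318512714128000)), (.ofNat (nat_lit 0)), (.ofNat (nat_lit 4422832461524003435660919323520)), (.negSucc (nat_lit 22985425615)), (.negSucc (nat_lit 22985425583)), (.negSucc (nat_lit 10398043194049673965549)), (.ofNat (nat_lit 10398043194049673965550)), (.negSucc (nat_lit 10398043194049673965549)), (.ofNat (nat_lit 10398043194049673965550)), (.ofNat (nat_lit 959819371758431442972))⟩,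
    ⟨nat_lit 0, nat_lit 5, nat_lit 6, (.ofNat (nat_lit 8)), (.ofNat (nat_lit 4310588160)), (.ofNat (nat_lit 472334888313492253419129287085184)), (.ofNat (nat_lit 0)), (.ofNat (nat_lit 7266867163158099033070349508224)), (.ofNat (nat_lit 4310588144)), (.ofNat (nat_lit 4310588176)), (.ofNat (nat_lit 10398050414728872217069)), (.negSucc (nat_lit 10398051925485126415283)), (.negSucc (nat_lit 10398051925485126415283)), (.ofNat (nat_lit 10398050414728872217069)), (.ofNat (nat_lit 959865717346129348516))⟩,
    ⟨nat_lit 0, nat_lit 6, nat_lit 7, (.ofNat (nat_lit 8)), (.ofNat (nat_lit 24849354816)), (.ofNat (nat_lit 258771726138981742376949459114880)), (.ofNat (nat_lit 0)), (.ofNat (nat_lit 3981103478833612607570941048448)), (.ofNat (nat_lit 24849354800)), (.ofNat (nat_lit 24849354832)), (.negSucc (nat_lit 10398051925485126415283)), (.ofNat (nat_lit 10398043194187184969710)), (.negSucc (nat_lit 10398051925485126415283)), (.ofNat (nat_lit 10398043194187184969710)), (.ofNat (nat_lit 959854297775263250228))⟩,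
    ⟨nat_lit 1, nat_lit 7, nat_lit 8, (.ofNat (nat_lit 8)), (.ofNat (nat_lit 26530688768)), (.ofNat (nat_lit 276254309195731185509826973708800)), (.ofNat (nat_lit 0)), (.ofNat (nat_lit 4250066295318941315527624852992)), (.ofNat (nat_lit 26530688752)), (.ofNat (nat_lit 26530688784)), (.ofNat (nat_lit 10398043194187184969710)), (.negSucc (nat_lit 10398043194049673965549)), (.negSucc (nat_lit 10398043194049673965549)), (.ofNat (nat_lit 10398043194187184969710)), (.ofNat (nat_lit 959819372308475459612))⟩,
    ⟨nat_lit 0, nat_lit 14, nat_lit 8, (.ofNat (nat_lit 8)), (.ofNat (nat_lit 23182211520)), (.ofNat (nat_lit 311071920254727767765289084515200)), (.ofNat (nat_lit 0)), (.ofNat (nat_lit 4785721850072734888687550103168)), (.ofNat (nat_lit 23182211504)), (.ofNat (nat_lit 23182211536)), (.ofNat (nat_lit 10398043194049673965550)), (.negSucc (nat_lit 10398043194049673965549)), (.negSucc (nat_lit 10398043194049673965549)), (.ofNat (nat_lit 10398043194049673965550)), (.ofNat (nat_lit 959819371758431442972))⟩,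
    ⟨nat_lit 1, nat_lit 9, nat_lit 13, (.ofNat (nat_lit 8)), (.negSucc (nat_lit 10553243007)), (.ofNat (nat_lit 387316135299485082952821217152000)), (.ofNat (nat_lit 0)), (.ofNat (nat_lit 5958709773838232045416557511680)), (.negSucc (nat_lit 10553243023)), (.negSucc (nat_lit 10553242991)), (.ofNat (nat_lit 10398043194049673965550)), (.negSucc (nat_lit 10398043194049673965549)), (.negSucc (nat_lit 10398043194049673965549)), (.ofNat (nat_lit 10398043194049673965550)), (.ofNat (nat_lit 959819371758431442972))⟩,
    ⟨nat_lit 0, nat_lit 4, nat_lit 9, (.ofNat (nat_lit 8)), (.negSucc (nat_lit 21569854143)), (.ofNat (nat_lit 272764936855308435806773806787200)), (.ofNat (nat_lit 0)), (.ofNat (nat_lit 4196383643927822089326910155648)), (.negSucc (nat_lit 21569854159)), (.negSucc (nat_lit 21569854127)), (.negSucc (nat_lit 10398043194049673965549)), (.ofNat (nat_lit 10398043194049673965550)), (.negSucc (nat_lit 10398043194049673965549)), (.ofNat (nat_lit 10398043194049673965550)), (.ofNat (nat_lit 959819371758431442972))⟩,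
    ⟨nat_lit 0, nat_lit 15, nat_lit 10, (.ofNat (nat_lit 8)), (.negSucc (nat_lit 1504595967)), (.ofNat (nat_lit 16309943984862325888536967276800)), (.ofNat (nat_lit 0)), (.ofNat (nat_lit 250922215151728090592393786112)), (.negSucc (nat_lit 1504595983)), (.negSucc (nat_lit 1504595951)), (.negSucc (nat_lit 10398043194049673965549)), (.ofNat (nat_lit 10398043194049673965550)), (.negSucc (nat_lit 10398043194049673965549)), (.ofNat (nat_lit 10398043194049673965550)), (.ofNat (nat_lit 959819371758431442972))⟩,
    ⟨nat_lit 1, nat_lit 10, nat_lit 11, (.ofNat (nat_lit 8)), (.ofNat (nat_lit 4803842432)), (.ofNat (nat_lit 81905358955063940640292864396800)), (.ofNat (nat_lit 0)), (.ofNat (nat_lit 1260082445462522163694389606912)), (.ofNat (nat_lit 4803842416)), (.ofNat (nat_lit 4803842448)), (.ofNat (nat_lit 10398043194049673965550)), (.negSucc (nat_lit 10398043194049673965549)), (.negSucc (nat_lit 10398043194049673965549)), (.ofNat (nat_lit 10398043194049673965550)), (.ofNat (nat_lit 959819371758431442972))⟩,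
    ⟨nat_lit 2, nat_lit 11, nat_lit 12, (.ofNat (nat_lit 8)), (.negSucc (nat_lit 18877607295)), (.ofNat (nat_lit 328146096124523843390255593267200)), (.ofNat (nat_lit 0)), (.ofNat (nat_lit 5048401478838828359840375758848)), (.negSucc (nat_lit 18877607311)), (.negSucc (nat_lit 18877607279)), (.negSucc (nat_lit 10398043194049673965549)), (.ofNat (nat_lit 10398043194049673965550)), (.negSucc (nat_lit 10398043194049673965549)), (.ofNat (nat_lit 10398043194049673965550)), (.ofNat (nat_lit 959819371758431442972))⟩,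
    ⟨nat_lit 0, nat_lit 12, nat_lit 13, (.ofNat (nat_lit 8)), (.negSucc (nat_lit 11870176383)), (.ofNat (nat_lit 401009665426818743199972286348800)), (.ofNat (nat_lit 0)), (.ofNat (nat_lit 6169379468104903741526168750592)), (.negSucc (nat_lit 11870176399)), (.negSucc (nat_lit 11870176367)), (.ofNat (nat_lit 10398043194049673965550)), (.negSucc (nat_lit 10398043194049673965549)), (.negSucc (nat_lit 10398043194049673965549)), (.ofNat (nat_lit 10398043194049673965550)), (.ofNat (nat_lit 959819371758431442972))⟩,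
    ⟨nat_lit 2, nat_lit 15, nat_lit 5, (.ofNat (nat_lit 8)), (.negSucc (nat_lit 20525397375)), (.ofNat (nat_lit 214089058610687181674411350771200)), (.ofNat (nat_lit 0)), (.ofNat (nat_lit 3293677824779802794984608670208)), (.negSucc (nat_lit 20525397391)), (.negSucc (nat_lit 20525397359)), (.negSucc (nat_lit 10398043194049673965549)), (.ofNat (nat_lit 10398050414728872217069)), (.negSucc (nat_lit 10398043194049673965549)), (.ofNat (nat_lit 10398050414728872217069)), (.ofNat (nat_lit 959833813116827946010))⟩]
  es := [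
    ⟨nat_lit 1, nat_lit 0, (.ofNat (nat_lit 4314520320)), (.ofNat (nat_lit 9997800704)), (.ofNat (nat_lit 4314520336)), (.ofNat (nat_lit 9997800688)), (.negSucc (nat_lit 10398043194049673965549)), (.negSucc (nat_lit 159969895293071907161)), (.ofNat (nat_lit 4275960164116250745781995681024))⟩,
    ⟨nat_lit 1, nat_lit 2, (.ofNat (nat_lit 4314520320)), (.ofNat (nat_lit 17539456960)), (.ofNat (nat_lit 4314520336)), (.ofNat (nat_lit 17539456944)), (.ofNat (nat_lit 10398043194049673965550)), (.ofNat (nat_lit 159969895293071907162)), (.ofNat (nat_lit 2895573436455788548438790617344))⟩,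
    ⟨nat_lit 3, nat_lit 2, (.ofNat (nat_lit 1273161536)), (.ofNat (nat_lit 17539456960)), (.ofNat (nat_lit 1273161552)), (.ofNat (nat_lit 17539456944)), (.negSucc (nat_lit 10398043194049673965549)), (.negSucc (nat_lit 159969895293071907161)), (.ofNat (nat_lit 8507143623232871152144820112384))⟩,
    ⟨nat_lit 4, nat_lit 3, (.negSucc (nat_lit 22985425599)), (.ofNat (nat_lit 1273161536)), (.negSucc (nat_lit 22985425583)), (.ofNat (nat_lit 1273161520)), (.ofNat (nat_lit 10398043194049673965550)), (.ofNat (nat_lit 159969895293071907162)), (.ofNat (nat_lit 8099808588022697953183177470720))⟩,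
    ⟨nat_lit 4, nat_lit 10, (.negSucc (nat_lit 22985425599)), (.negSucc (nat_lit 21569854143)), (.negSucc (nat_lit 22985425583)), (.negSucc (nat_lit 21569854159)), (.negSucc (nat_lit 10398043194049673965549)), (.negSucc (nat_lit 159969895293071907161)), (.ofNat (nat_lit 745856335025308918138661176320))⟩,
    ⟨nat_lit 15, nat_lit 5, (.negSucc (nat_lit 20525397375)), (.ofNat (nat_lit 4310588160)), (.negSucc (nat_lit 20525397359)), (.ofNat (nat_lit 4310588144)), (.ofNat (nat_lit 10398050414728872217069)), (.ofNat (nat_lit 159977115972270158681)), (.ofNat (nat_lit 6577271701177084398738709691264))⟩,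
    ⟨nat_lit 5, nat_lit 6, (.ofNat (nat_lit 4310588160)), (.ofNat (nat_lit 24849354816)), (.ofNat (nat_lit 4310588176)), (.ofNat (nat_lit 24849354800)), (.negSucc (nat_lit 10398051925485126415283)), (.negSucc (nat_lit 159978626728524356895)), (.ofNat (nat_lit 7956469137387135660177861459584))⟩,
    ⟨nat_lit 6, nat_lit 7, (.ofNat (nat_lit 24849354816)), (.ofNat (nat_lit 26530688768)), (.ofNat (nat_lit 24849354832)), (.ofNat (nat_lit 26530688752)), (.ofNat (nat_lit 10398043194187184969710)), (.ofNat (nat_lit 159969895430582911322)), (.ofNat (nat_lit 5954787400640746424299421696))⟩,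
    ⟨nat_lit 8, nat_lit 7, (.ofNat (nat_lit 23182211520)), (.ofNat (nat_lit 26530688768)), (.ofNat (nat_lit 23182211536)), (.ofNat (nat_lit 26530688752)), (.negSucc (nat_lit 10398043194049673965549)), (.negSucc (nat_lit 159969895293071907161)), (.ofNat (nat_lit 8494177799588980231086837009408))⟩,
    ⟨nat_lit 10, nat_lit 9, (.negSucc (nat_lit 21569854143)), (.negSucc (nat_lit 10553243007)), (.negSucc (nat_lit 21569854127)), (.negSucc (nat_lit 10553243023)), (.ofNat (nat_lit 10398043194049673965550)), (.ofNat (nat_lit 159969895293071907162)), (.ofNat (nat_lit 7646910952830335260515159134976))⟩,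
    ⟨nat_lit 11, nat_lit 12, (.negSucc (nat_lit 1504595967)), (.ofNat (nat_lit 4803842432)), (.negSucc (nat_lit 1504595951)), (.ofNat (nat_lit 4803842416)), (.ofNat (nat_lit 10398043194049673965550)), (.ofNat (nat_lit 159969895293071907162)), (.ofNat (nat_lit 491612274611066260442409308928))⟩,
    ⟨nat_lit 13, nat_lit 12, (.negSucc (nat_lit 18877607295)), (.ofNat (nat_lit 4803842432)), (.negSucc (nat_lit 18877607279)), (.ofNat (nat_lit 4803842416)), (.negSucc (nat_lit 10398043194049673965549)), (.negSucc (nat_lit 159969895293071907161)), (.ofNat (nat_lit 2028552616313978066946369904896))⟩,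
    ⟨nat_lit 13, nat_lit 14, (.negSucc (nat_lit 18877607295)), (.negSucc (nat_lit 11870176383)), (.negSucc (nat_lit 18877607279)), (.negSucc (nat_lit 11870176399)), (.ofNat (nat_lit 10398043194049673965550)), (.ofNat (nat_lit 159969895293071907162)), (.ofNat (nat_lit 8068250341363678652734381612800))⟩,
    ⟨nat_lit 14, nat_lit 9, (.negSucc (nat_lit 11870176383)), (.negSucc (nat_lit 10553243007)), (.negSucc (nat_lit 11870176367)), (.negSucc (nat_lit 10553243023)), (.negSucc (nat_lit 10398043194049673965549)), (.negSucc (nat_lit 159969895293071907161)), (.ofNat (nat_lit 4270508594846128830317955888384))⟩,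
    ⟨nat_lit 0, nat_lit 8, (.ofNat (nat_lit 9997800704)), (.ofNat (nat_lit 23182211520)), (.ofNat (nat_lit 9997800720)), (.ofNat (nat_lit 23182211504)), (.ofNat (nat_lit 10398043194049673965550)), (.ofNat (nat_lit 159969895293071907162)), (.ofNat (nat_lit 1077265900556489546288263196928))⟩,
    ⟨nat_lit 15, nat_lit 11, (.negSucc (nat_lit 20525397375)), (.negSucc (nat_lit 1504595967)), (.negSucc (nat_lit 20525397359)), (.negSucc (nat_lit 1504595983)), (.negSucc (nat_lit 10398043194049673965549)), (.negSucc (nat_lit 159969895293071907161)), (.ofNat (nat_lit 10232155692389920742378263296))⟩]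

theorem ok143 : stOK 15 15 S143 = true := by decide +kernel

def S144 : SD where
  vs := [
    ⟨nat_lit 0, nat_lit 0, nat_lit 14, (.ofNat (nat_lit 8)), (.ofNat (nat_lit 21518179072)), (.ofNat (nat_lit 293780142122663793593721150905600)), (.ofNat (nat_lit 11520378368)), (.ofNat (nat_lit 119800295020799734101103097779200)), (.ofNat (nat_lit 21518179056)), (.ofNat (nat_lit 21518179088)), (.negSucc (nat_lit 10398043194049673965549)), (.ofNat (nat_lit 10398043194049673965550)), (.negSucc (nat_lit 10398043194049673965549)), (.ofNat (nat_lit 10398043194049673965550)), (.ofNat (nat_lit 0))⟩,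
    ⟨nat_lit 2, nat_lit 0, nat_lit 1, (.ofNat (nat_lit 8)), (.ofNat (nat_lit 15834636544)), (.ofNat (nat_lit 352877862824026072121458982816000)), (.ofNat (nat_lit 11520116224)), (.ofNat (nat_lit 119803020805434795058835122918400)), (.ofNat (nat_lit 15834636528)), (.ofNat (nat_lit 15834636560)), (.negSucc (nat_lit 10398043194049673965549)), (.ofNat (nat_lit 10398043194049673965550)), (.negSucc (nat_lit 10398043194049673965549)), (.ofNat (nat_lit 10398043194049673965550)), (.ofNat (nat_lit 0))⟩,
    ⟨nat_lit 1, nat_lit 1, nat_lit 2, (.ofNat (nat_lit 8)), (.ofNat (nat_lit 29060097472)), (.ofNat (nat_lit 490396776814586357243979325846400)), (.ofNat (nat_lit 11520640512)), (.ofNat (nat_lit 119808472374704916974299173196800)), (.ofNat (nat_lit 29060097456)), (.ofNat (nat_lit 29060097488)), (.ofNat (nat_lit 10398043194049673965550)), (.negSucc (nat_lit 10398043194049673965549)), (.negSucc (nat_lit 10398043194049673965549)), (.ofNat (nat_lit 10398043194049673965550)), (.ofNat (nat_lit 0))⟩,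
    ⟨nat_lit 0, nat_lit 3, nat_lit 2, (.ofNat (nat_lit 8)), (.ofNat (nat_lit 12792753472)), (.ofNat (nat_lit 659545322379051156729425325046400)), (.ofNat (nat_lit 11519591936)), (.ofNat (nat_lit 119819375513245160805227273753600)), (.ofNat (nat_lit 12792753456)), (.ofNat (nat_lit 12792753488)), (.ofNat (nat_lit 10398043194049673965550)), (.negSucc (nat_lit 10398043194049673965549)), (.negSucc (nat_lit 10398043194049673965549)), (.ofNat (nat_lit 10398043194049673965550)), (.ofNat (nat_lit 0))⟩,
    ⟨nat_lit 2, nat_lit 4, nat_lit 3, (.ofNat (nat_lit 8)), (.negSucc (nat_lit 22986998463)), (.ofNat (nat_lit 287505916276140710980368915241600)), (.negSucc (nat_lit 1572863)), (.ofNat (nat_lit 21806277080487661856201113600)), (.negSucc (nat_lit 22986998479)), (.negSucc (nat_lit 22986998447)), (.negSucc (nat_lit 10398043194049673965549)), (.ofNat (nat_lit 10398043194049673965550)), (.negSucc (nat_lit 10398043194049673965549)), (.ofNat (nat_lit 10398043194049673965550)), (.ofNat (nat_lit 0))⟩,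
    ⟨nat_lit 0, nat_lit 5, nat_lit 6, (.ofNat (nat_lit 8)), (.ofNat (nat_lit 4310588160)), (.ofNat (nat_lit 472356694598144171991971272985728)), (.ofNat (nat_lit 0)), (.ofNat (nat_lit 21806284651918572841985900544)), (.ofNat (nat_lit 4310588144)), (.ofNat (nat_lit 4310588176)), (.ofNat (nat_lit 10398050414728872217069)), (.negSucc (nat_lit 10398051925485126415283)), (.negSucc (nat_lit 10398051925485126415283)), (.ofNat (nat_lit 10398050414728872217069)), (.ofNat (nat_lit 0))⟩,
    ⟨nat_lit 0, nat_lit 6, nat_lit 7, (.ofNat (nat_lit 8)), (.ofNat (nat_lit 24850403392)), (.ofNat (nat_lit 258782629275937843457875412179840)), (.ofNat (nat_lit 1048576)), (.ofNat (nat_lit 10903136956101080925953064960)), (.ofNat (nat_lit 24850403376)), (.ofNat (nat_lit 24850403408)), (.negSucc (nat_lit 10398051925485126415283)), (.ofNat (nat_lit 10398043194187184969710)), (.negSucc (nat_lit 10398051925485126415283)), (.ofNat (nat_lit 10398043194187184969710)), (.ofNat (nat_lit 0))⟩,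
    ⟨nat_lit 1, nat_lit 7, nat_lit 8, (.ofNat (nat_lit 8)), (.ofNat (nat_lit 38051853568)), (.ofNat (nat_lit 396051878431895858653198046348800)), (.ofNat (nat_lit 11521164800)), (.ofNat (nat_lit 119797569236164673143371072640000)), (.ofNat (nat_lit 38051853552)), (.ofNat (nat_lit 38051853584)), (.ofNat (nat_lit 10398043194187184969710)), (.negSucc (nat_lit 10398043194049673965549)), (.negSucc (nat_lit 10398043194049673965549)), (.ofNat (nat_lit 10398043194187184969710)), (.ofNat (nat_lit 0))⟩,
    ⟨nat_lit 0, nat_lit 14, nat_lit 8, (.ofNat (nat_lit 8)), (.ofNat (nat_lit 34702852032)), (.ofNat (nat_lit 430874941060162562824124207433600)), (.ofNat (nat_lit 11520640512)), (.ofNat (nat_lit 119803020805434795058835122918400)), (.ofNat (nat_lit 34702852016)), (.ofNat (nat_lit 34702852048)), (.ofNat (nat_lit 10398043194049673965550)), (.negSucc (nat_lit 10398043194049673965549)), (.negSucc (nat_lit 10398043194049673965549)), (.ofNat (nat_lit 10398043194049673965550)), (.ofNat (nat_lit 0))⟩,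
    ⟨nat_lit 1, nat_lit 9, nat_lit 13, (.ofNat (nat_lit 8)), (.negSucc (nat_lit 10553767295)), (.ofNat (nat_lit 387337941576565570614677418265600)), (.negSucc (nat_lit 524287)), (.ofNat (nat_lit 21806277080487661856201113600)), (.negSucc (nat_lit 10553767311)), (.negSucc (nat_lit 10553767279)), (.ofNat (nat_lit 10398043194049673965550)), (.negSucc (nat_lit 10398043194049673965549)), (.negSucc (nat_lit 10398043194049673965549)), (.ofNat (nat_lit 10398043194049673965550)), (.ofNat (nat_lit 0))⟩,
    ⟨nat_lit 0, nat_lit 4, nat_lit 9, (.ofNat (nat_lit 8)), (.negSucc (nat_lit 21570902719)), (.ofNat (nat_lit 272781291563118801553165957622400)), (.negSucc (nat_lit 1048575)), (.ofNat (nat_lit 16354707810365746392150835200)), (.negSucc (nat_lit 21570902735)), (.negSucc (nat_lit 21570902703)), (.negSucc (nat_lit 10398043194049673965549)), (.ofNat (nat_lit 10398043194049673965550)), (.negSucc (nat_lit 10398043194049673965549)), (.ofNat (nat_lit 10398043194049673965550)), (.ofNat (nat_lit 0))⟩,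
    ⟨nat_lit 0, nat_lit 15, nat_lit 10, (.ofNat (nat_lit 8)), (.negSucc (nat_lit 1504858111)), (.ofNat (nat_lit 16312669769497386846268992416000)), (.negSucc (nat_lit 262143)), (.ofNat (nat_lit 2725784635060957732025139200)), (.negSucc (nat_lit 1504858127)), (.negSucc (nat_lit 1504858095)), (.negSucc (nat_lit 10398043194049673965549)), (.ofNat (nat_lit 10398043194049673965550)), (.negSucc (nat_lit 10398043194049673965549)), (.ofNat (nat_lit 10398043194049673965550)), (.ofNat (nat_lit 0))⟩,
    ⟨nat_lit 1, nat_lit 10, nat_lit 11, (.ofNat (nat_lit 8)), (.ofNat (nat_lit 4804104576)), (.ofNat (nat_lit 81913536308969123513488939814400)), (.ofNat (nat_lit 262144)), (.ofNat (nat_lit 8177353905182873196075417600)), (.ofNat (nat_lit 4804104560)), (.ofNat (nat_lit 4804104592)), (.ofNat (nat_lit 10398043194049673965550)), (.negSucc (nat_lit 10398043194049673965549)), (.negSucc (nat_lit 10398043194049673965549)), (.ofNat (nat_lit 10398043194049673965550)), (.ofNat (nat_lit 0))⟩,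
    ⟨nat_lit 2, nat_lit 11, nat_lit 12, (.ofNat (nat_lit 8)), (.negSucc (nat_lit 18878655871)), (.ofNat (nat_lit 328167902401604331052111794380800)), (.negSucc (nat_lit 1048575)), (.ofNat (nat_lit 21806277080487661856201113600)), (.negSucc (nat_lit 18878655887)), (.negSucc (nat_lit 18878655855)), (.negSucc (nat_lit 10398043194049673965549)), (.ofNat (nat_lit 10398043194049673965550)), (.negSucc (nat_lit 10398043194049673965549)), (.ofNat (nat_lit 10398043194049673965550)), (.ofNat (nat_lit 0))⟩,
    ⟨nat_lit 0, nat_lit 12, nat_lit 13, (.ofNat (nat_lit 8)), (.negSucc (nat_lit 11870962815)), (.ofNat (nat_lit 401034197488534291819560512601600)), (.negSucc (nat_lit 786431)), (.ofNat (nat_lit 24532061715548619588226252800)), (.negSucc (nat_lit 11870962831)), (.negSucc (nat_lit 11870962799)), (.ofNat (nat_lit 10398043194049673965550)), (.negSucc (nat_lit 10398043194049673965549)), (.negSucc (nat_lit 10398043194049673965549)), (.ofNat (nat_lit 10398043194049673965550)), (.ofNat (nat_lit 0))⟩,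
    ⟨nat_lit 2, nat_lit 15, nat_lit 5, (.ofNat (nat_lit 8)), (.negSucc (nat_lit 20526445951)), (.ofNat (nat_lit 214099961749227425505339451328000)), (.negSucc (nat_lit 1048575)), (.ofNat (nat_lit 10903138540243830928100556800)), (.negSucc (nat_lit 20526445967)), (.negSucc (nat_lit 20526445935)), (.negSucc (nat_lit 10398043194049673965549)), (.ofNat (nat_lit 10398050414728872217069)), (.negSucc (nat_lit 10398043194049673965549)), (.ofNat (nat_lit 10398050414728872217069)), (.ofNat (nat_lit 0))⟩]
  es := [
    ⟨nat_lit 1, nat_lit 0, (.ofNat (nat_lit 15834636544)), (.ofNat (nat_lit 21518179072)), (.ofNat (nat_lit 15834636560)), (.ofNat (nat_lit 21518179056)), (.negSucc (nat_lit 10398043194049673965549)), (.ofNat (nat_lit 0)), (.ofNat (nat_lit 239589686903059224371278095001600))⟩,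
    ⟨nat_lit 1, nat_lit 2, (.ofNat (nat_lit 15834636544)), (.ofNat (nat_lit 29060097472)), (.ofNat (nat_lit 15834636560)), (.ofNat (nat_lit 29060097456)), (.ofNat (nat_lit 10398043194049673965550)), (.ofNat (nat_lit 0)), (.ofNat (nat_lit 16354707810365746392150835200))⟩,
    ⟨nat_lit 3, nat_lit 2, (.ofNat (nat_lit 12792753472)), (.ofNat (nat_lit 29060097472)), (.ofNat (nat_lit 12792753488)), (.ofNat (nat_lit 29060097456)), (.negSucc (nat_lit 10398043194049673965549)), (.ofNat (nat_lit 0)), (.ofNat (nat_lit 239600590041599468202206195558400))⟩,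
    ⟨nat_lit 4, nat_lit 3, (.negSucc (nat_lit 22986998463)), (.ofNat (nat_lit 12792753472)), (.negSucc (nat_lit 22986998447)), (.ofNat (nat_lit 12792753456)), (.ofNat (nat_lit 10398043194049673965550)), (.ofNat (nat_lit 0)), (.ofNat (nat_lit 38160984890853408248351948800))⟩,
    ⟨nat_lit 4, nat_lit 10, (.negSucc (nat_lit 22986998463)), (.negSucc (nat_lit 21570902719)), (.negSucc (nat_lit 22986998447)), (.negSucc (nat_lit 21570902735)), (.negSucc (nat_lit 10398043194049673965549)), (.ofNat (nat_lit 0)), (.ofNat (nat_lit 5451569270121915464050278400))⟩,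
    ⟨nat_lit 15, nat_lit 5, (.negSucc (nat_lit 20526445951)), (.ofNat (nat_lit 4310588160)), (.negSucc (nat_lit 20526445935)), (.ofNat (nat_lit 4310588144)), (.ofNat (nat_lit 10398050414728872217069)), (.ofNat (nat_lit 0)), (.ofNat (nat_lit 21806284651918572841985900544))⟩,
    ⟨nat_lit 5, nat_lit 6, (.ofNat (nat_lit 4310588160)), (.ofNat (nat_lit 24850403392)), (.ofNat (nat_lit 4310588176)), (.ofNat (nat_lit 24850403376)), (.negSucc (nat_lit 10398051925485126415283)), (.ofNat (nat_lit 0)), (.ofNat (nat_lit 21806284651918572841985900544))⟩,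
    ⟨nat_lit 6, nat_lit 7, (.ofNat (nat_lit 24850403392)), (.ofNat (nat_lit 38051853568)), (.ofNat (nat_lit 24850403408)), (.ofNat (nat_lit 38051853552)), (.ofNat (nat_lit 10398043194187184969710)), (.ofNat (nat_lit 0)), (.negSucc (nat_lit 1584286940740845567999))⟩,
    ⟨nat_lit 8, nat_lit 7, (.ofNat (nat_lit 34702852032)), (.ofNat (nat_lit 38051853568)), (.ofNat (nat_lit 34702852048)), (.ofNat (nat_lit 38051853552)), (.negSucc (nat_lit 10398043194049673965549)), (.ofNat (nat_lit 0)), (.ofNat (nat_lit 239595138472329346286742145280000))⟩,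
    ⟨nat_lit 10, nat_lit 9, (.negSucc (nat_lit 21570902719)), (.negSucc (nat_lit 10553767295)), (.negSucc (nat_lit 21570902703)), (.negSucc (nat_lit 10553767311)), (.ofNat (nat_lit 10398043194049673965550)), (.ofNat (nat_lit 0)), (.ofNat (nat_lit 27257846350609577320251392000))⟩,
    ⟨nat_lit 11, nat_lit 12, (.negSucc (nat_lit 1504858111)), (.ofNat (nat_lit 4804104576)), (.negSucc (nat_lit 1504858095)), (.ofNat (nat_lit 4804104560)), (.ofNat (nat_lit 10398043194049673965550)), (.ofNat (nat_lit 0)), (.ofNat (nat_lit 5451569270121915464050278400))⟩,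
    ⟨nat_lit 13, nat_lit 12, (.negSucc (nat_lit 18878655871)), (.ofNat (nat_lit 4804104576)), (.negSucc (nat_lit 18878655855)), (.ofNat (nat_lit 4804104560)), (.negSucc (nat_lit 10398043194049673965549)), (.ofNat (nat_lit 0)), (.ofNat (nat_lit 10903138540243830928100556800))⟩,
    ⟨nat_lit 13, nat_lit 14, (.negSucc (nat_lit 18878655871)), (.negSucc (nat_lit 11870962815)), (.negSucc (nat_lit 18878655855)), (.negSucc (nat_lit 11870962831)), (.ofNat (nat_lit 10398043194049673965550)), (.ofNat (nat_lit 0)), (.ofNat (nat_lit 32709415620731492784301670400))⟩,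
    ⟨nat_lit 14, nat_lit 9, (.negSucc (nat_lit 11870962815)), (.negSucc (nat_lit 10553767295)), (.negSucc (nat_lit 11870962799)), (.negSucc (nat_lit 10553767311)), (.negSucc (nat_lit 10398043194049673965549)), (.ofNat (nat_lit 0)), (.ofNat (nat_lit 16354707810365746392150835200))⟩,
    ⟨nat_lit 0, nat_lit 8, (.ofNat (nat_lit 21518179072)), (.ofNat (nat_lit 34702852032)), (.ofNat (nat_lit 21518179088)), (.ofNat (nat_lit 34702852016)), (.ofNat (nat_lit 10398043194049673965550)), (.ofNat (nat_lit 0)), (.ofNat (nat_lit 10903138540243830928100556800))⟩,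
    ⟨nat_lit 15, nat_lit 11, (.negSucc (nat_lit 20526445951)), (.negSucc (nat_lit 1504858111)), (.negSucc (nat_lit 20526445935)), (.negSucc (nat_lit 1504858127)), (.negSucc (nat_lit 10398043194049673965549)), (.ofNat (nat_lit 0)), (.ofNat (nat_lit 0))⟩]

theorem ok144 : stOK 15 15 S144 = true := by decide +kernel

def S145 : SD where
  vs := [
    ⟨nat_lit 0, nat_lit 0, nat_lit 14, (.ofNat (nat_lit 8)), (.ofNat (nat_lit 21518179072)), (.ofNat (nat_lit 298370456843330415368602736752512)), (.ofNat (nat_lit 0)), (.ofNat (nat_lit 4590314720666621774881585846912)), (.ofNat (nat_lit 21518179056)), (.ofNat (nat_lit 21518179088)), (.negSucc (nat_lit 10560512618956700121260)), (.ofNat (nat_lit 10560512618956700121261)), (.negSucc (nat_lit 10560512618956700121260)), (.ofNat (nat_lit 10560512618956700121261)), (.ofNat (nat_lit 974816549442156934266))⟩,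
    ⟨nat_lit 2, nat_lit 0, nat_lit 1, (.ofNat (nat_lit 8)), (.ofNat (nat_lit 15834636544)), (.ofNat (nat_lit 358391579430651479498332387240320)), (.ofNat (nat_lit 0)), (.ofNat (nat_lit 5513716606625407376873404424320)), (.ofNat (nat_lit 15834636528)), (.ofNat (nat_lit 15834636560)), (.negSucc (nat_lit 10560512618956700121260)), (.ofNat (nat_lit 10560512618956700121261)), (.negSucc (nat_lit 10560512618956700121260)), (.ofNat (nat_lit 10560512618956700121261)), (.ofNat (nat_lit 974816549442156934266))⟩,
    ⟨nat_lit 1, nat_lit 1, nat_lit 2, (.ofNat (nat_lit 8)), (.ofNat (nat_lit 29060097472)), (.ofNat (nat_lit 498059226452314269075882604830528)), (.ofNat (nat_lit 0)), (.ofNat (nat_lit 7662449637727911831903278984128)), (.ofNat (nat_lit 29060097456)), (.ofNat (nat_lit 29060097488)), (.ofNat (nat_lit 10560512618956700121261)), (.negSucc (nat_lit 10560512618956700121260)), (.negSucc (nat_lit 10560512618956700121260)), (.ofNat (nat_lit 10560512618956700121261)), (.ofNat (nat_lit 974816549442156934266))⟩,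
    ⟨nat_lit 0, nat_lit 3, nat_lit 2, (.ofNat (nat_lit 8)), (.ofNat (nat_lit 12792753472)), (.ofNat (nat_lit 669850718041223831053277005614528)), (.ofNat (nat_lit 0)), (.ofNat (nat_lit 10305395662172674323851680568128)), (.ofNat (nat_lit 12792753456)), (.ofNat (nat_lit 12792753488)), (.ofNat (nat_lit 10560512618956700121261)), (.negSucc (nat_lit 10560512618956700121260)), (.negSucc (nat_lit 10560512618956700121260)), (.ofNat (nat_lit 10560512618956700121261)), (.ofNat (nat_lit 974816549442156934266))⟩,
    ⟨nat_lit 2, nat_lit 4, nat_lit 3, (.ofNat (nat_lit 8)), (.negSucc (nat_lit 22986998463)), (.ofNat (nat_lit 291998196217955409589417306103232)), (.ofNat (nat_lit 0)), (.ofNat (nat_lit 4492279941814698609048390861632)), (.negSucc (nat_lit 22986998479)), (.negSucc (nat_lit 22986998447)), (.negSucc (nat_lit 10560512618956700121260)), (.ofNat (nat_lit 10560512618956700121261)), (.negSucc (nat_lit 10560512618956700121260)), (.ofNat (nat_lit 10560512618956700121261)), (.ofNat (nat_lit 974816549442156934266))⟩,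
    ⟨nat_lit 0, nat_lit 5, nat_lit 6, (.ofNat (nat_lit 8)), (.ofNat (nat_lit 4310588160)), (.ofNat (nat_lit 479737085808793122791559574353792)), (.ofNat (nat_lit 0)), (.ofNat (nat_lit 7380391210648950799588301368064)), (.ofNat (nat_lit 4310588144)), (.ofNat (nat_lit 4310588176)), (.ofNat (nat_lit 10560512618956700121261)), (.negSucc (nat_lit 10560512618956700121260)), (.negSucc (nat_lit 10560512618956700121260)), (.ofNat (nat_lit 10560512618956700121261)), (.ofNat (nat_lit 974770203854459028722))⟩,
    ⟨nat_lit 0, nat_lit 6, nat_lit 7, (.ofNat (nat_lit 8)), (.ofNat (nat_lit 24850403392)), (.ofNat (nat_lit 262826107860218081692426639506240)), (.ofNat (nat_lit 0)), (.ofNat (nat_lit 4043478584280238234551227326400)), (.ofNat (nat_lit 24850403376)), (.ofNat (nat_lit 24850403408)), (.negSucc (nat_lit 10560512618956700121260)), (.ofNat (nat_lit 10560512618956700121261)), (.negSucc (nat_lit 10560512618956700121260)), (.ofNat (nat_lit 10560512618956700121261)), (.ofNat (nat_lit 974781623425325127010))⟩,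
    ⟨nat_lit 1, nat_lit 7, nat_lit 8, (.ofNat (nat_lit 8)), (.ofNat (nat_lit 38051853568)), (.ofNat (nat_lit 402240189032394231444626889298176)), (.ofNat (nat_lit 0)), (.ofNat (nat_lit 6188310600498372791428842949376)), (.ofNat (nat_lit 38051853552)), (.ofNat (nat_lit 38051853584)), (.ofNat (nat_lit 10560512618956700121261)), (.negSucc (nat_lit 10560512618956700121260)), (.negSucc (nat_lit 10560512618956700121260)), (.ofNat (nat_lit 10560512618956700121261)), (.ofNat (nat_lit 974816548892112917626))⟩,
    ⟨nat_lit 0, nat_lit 14, nat_lit 8, (.ofNat (nat_lit 8)), (.ofNat (nat_lit 34702852032)), (.ofNat (nat_lit 437607362014227602868221364555072)), (.ofNat (nat_lit 0)), (.ofNat (nat_lit 6732420954065040044097157121472)), (.ofNat (nat_lit 34702852016)), (.ofNat (nat_lit 34702852048)), (.ofNat (nat_lit 10560512618956700121261)), (.negSucc (nat_lit 10560512618956700121260)), (.negSucc (nat_lit 10560512618956700121260)), (.ofNat (nat_lit 10560512618956700121261)), (.ofNat (nat_lit 974816549442156934266))⟩,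
    ⟨nat_lit 1, nat_lit 9, nat_lit 13, (.ofNat (nat_lit 8)), (.negSucc (nat_lit 10553767295)), (.ofNat (nat_lit 393390096913699407655504978739712)), (.ofNat (nat_lit 0)), (.ofNat (nat_lit 6052155337133837040827560474112)), (.negSucc (nat_lit 10553767311)), (.negSucc (nat_lit 10553767279)), (.ofNat (nat_lit 10560512618956700121261)), (.negSucc (nat_lit 10560512618956700121260)), (.negSucc (nat_lit 10560512618956700121260)), (.ofNat (nat_lit 10560512618956700121261)), (.ofNat (nat_lit 974816549442156934266))⟩,
    ⟨nat_lit 0, nat_lit 4, nat_lit 9, (.ofNat (nat_lit 8)), (.negSucc (nat_lit 21570902719)), (.ofNat (nat_lit 277043499243792532827415320090048)), (.ofNat (nat_lit 0)), (.ofNat (nat_lit 4262207680673731274249362467648)), (.negSucc (nat_lit 21570902735)), (.negSucc (nat_lit 21570902703)), (.negSucc (nat_lit 10560512618956700121260)), (.ofNat (nat_lit 10560512618956700121261)), (.negSucc (nat_lit 10560512618956700121260)), (.ofNat (nat_lit 10560512618956700121261)), (.ofNat (nat_lit 974816549442156934266))⟩,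
    ⟨nat_lit 0, nat_lit 15, nat_lit 10, (.ofNat (nat_lit 8)), (.negSucc (nat_lit 1504858111)), (.ofNat (nat_lit 16567555234645783515740817832320)), (.ofNat (nat_lit 0)), (.ofNat (nat_lit 254885465148396669471825416320)), (.negSucc (nat_lit 1504858127)), (.negSucc (nat_lit 1504858095)), (.negSucc (nat_lit 10560512618956700121260)), (.ofNat (nat_lit 10560512618956700121261)), (.negSucc (nat_lit 10560512618956700121260)), (.ofNat (nat_lit 10560512618956700121261)), (.ofNat (nat_lit 974816549442156934266))⟩,
    ⟨nat_lit 1, nat_lit 10, nat_lit 11, (.ofNat (nat_lit 8)), (.ofNat (nat_lit 4804104576)), (.ofNat (nat_lit 83193435313796766068381542341888)), (.ofNat (nat_lit 0)), (.ofNat (nat_lit 1279899004827642554892602527488)), (.ofNat (nat_lit 4804104560)), (.ofNat (nat_lit 4804104592)), (.ofNat (nat_lit 10560512618956700121261)), (.negSucc (nat_lit 10560512618956700121260)), (.negSucc (nat_lit 10560512618956700121260)), (.ofNat (nat_lit 10560512618956700121261)), (.ofNat (nat_lit 974816549442156934266))⟩,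
    ⟨nat_lit 2, nat_lit 11, nat_lit 12, (.ofNat (nat_lit 8)), (.negSucc (nat_lit 18878655871)), (.ofNat (nat_lit 333295525876629398724778357026816)), (.ofNat (nat_lit 0)), (.ofNat (nat_lit 5127623475025067672666562646016)), (.negSucc (nat_lit 18878655887)), (.negSucc (nat_lit 18878655855)), (.negSucc (nat_lit 10560512618956700121260)), (.ofNat (nat_lit 10560512618956700121261)), (.negSucc (nat_lit 10560512618956700121260)), (.ofNat (nat_lit 10560512618956700121261)), (.ofNat (nat_lit 974816549442156934266))⟩,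
    ⟨nat_lit 0, nat_lit 12, nat_lit 13, (.ofNat (nat_lit 8)), (.negSucc (nat_lit 11870962815)), (.ofNat (nat_lit 407300356824292640129213424690432)), (.ofNat (nat_lit 0)), (.ofNat (nat_lit 6266159335758348309652912088832)), (.negSucc (nat_lit 11870962831)), (.negSucc (nat_lit 11870962799)), (.ofNat (nat_lit 10560512618956700121261)), (.negSucc (nat_lit 10560512618956700121260)), (.negSucc (nat_lit 10560512618956700121260)), (.ofNat (nat_lit 10560512618956700121261)), (.ofNat (nat_lit 974816549442156934266))⟩,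
    ⟨nat_lit 2, nat_lit 15, nat_lit 5, (.ofNat (nat_lit 8)), (.negSucc (nat_lit 20526445951)), (.ofNat (nat_lit 217445273651559104028845580898560)), (.ofNat (nat_lit 0)), (.ofNat (nat_lit 3345311902331678523506129570560)), (.negSucc (nat_lit 20526445967)), (.negSucc (nat_lit 20526445935)), (.negSucc (nat_lit 10560512618956700121260)), (.ofNat (nat_lit 10560512618956700121261)), (.negSucc (nat_lit 10560512618956700121260)), (.ofNat (nat_lit 10560512618956700121261)), (.ofNat (nat_lit 974802108083760431228))⟩]
  es := [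
    ⟨nat_lit 1, nat_lit 0, (.ofNat (nat_lit 15834636544)), (.ofNat (nat_lit 21518179072)), (.ofNat (nat_lit 15834636560)), (.ofNat (nat_lit 21518179056)), (.negSucc (nat_lit 10560512618956700121260)), (.negSucc (nat_lit 162469424907026155710)), (.ofNat (nat_lit 8086360899540867544458639327104))⟩,
    ⟨nat_lit 1, nat_lit 2, (.ofNat (nat_lit 15834636544)), (.ofNat (nat_lit 29060097472)), (.ofNat (nat_lit 15834636560)), (.ofNat (nat_lit 29060097456)), (.ofNat (nat_lit 10560512618956700121261)), (.ofNat (nat_lit 162469424907026155711)), (.ofNat (nat_lit 2941072313709947209288169521536))⟩,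
    ⟨nat_lit 3, nat_lit 2, (.ofNat (nat_lit 12792753472)), (.ofNat (nat_lit 29060097472)), (.ofNat (nat_lit 12792753488)), (.ofNat (nat_lit 29060097456)), (.negSucc (nat_lit 10560512618956700121260)), (.negSucc (nat_lit 162469424907026155710)), (.ofNat (nat_lit 12383826961745876454518388446720))⟩,
    ⟨nat_lit 4, nat_lit 3, (.negSucc (nat_lit 22986998463)), (.ofNat (nat_lit 12792753472)), (.negSucc (nat_lit 22986998447)), (.ofNat (nat_lit 12792753456)), (.ofNat (nat_lit 10560512618956700121261)), (.ofNat (nat_lit 162469424907026155711)), (.ofNat (nat_lit 8226964362599472193184972689536))⟩,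
    ⟨nat_lit 4, nat_lit 10, (.negSucc (nat_lit 22986998463)), (.negSucc (nat_lit 21570902719)), (.negSucc (nat_lit 22986998447)), (.negSucc (nat_lit 21570902735)), (.negSucc (nat_lit 10560512618956700121260)), (.negSucc (nat_lit 162469424907026155710)), (.ofNat (nat_lit 757595521029925024911809033728))⟩,
    ⟨nat_lit 15, nat_lit 5, (.negSucc (nat_lit 20526445951)), (.ofNat (nat_lit 4310588160)), (.negSucc (nat_lit 20526445935)), (.ofNat (nat_lit 4310588144)), (.ofNat (nat_lit 10560512618956700121261)), (.ofNat (nat_lit 162462204227827904192)), (.ofNat (nat_lit 6680083556656973893260651801344))⟩,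
    ⟨nat_lit 5, nat_lit 6, (.ofNat (nat_lit 4310588160)), (.ofNat (nat_lit 24850403392)), (.ofNat (nat_lit 4310588176)), (.ofNat (nat_lit 24850403376)), (.negSucc (nat_lit 10560512618956700121260)), (.negSucc (nat_lit 162460693471573705976)), (.ofNat (nat_lit 8080692352392905713140078800384))⟩,
    ⟨nat_lit 6, nat_lit 7, (.ofNat (nat_lit 24850403392)), (.ofNat (nat_lit 38051853568)), (.ofNat (nat_lit 24850403408)), (.ofNat (nat_lit 38051853552)), (.ofNat (nat_lit 10560512618956700121261)), (.ofNat (nat_lit 162469424769515151551)), (.ofNat (nat_lit 6047839891590094252862865408))⟩,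
    ⟨nat_lit 8, nat_lit 7, (.ofNat (nat_lit 34702852032)), (.ofNat (nat_lit 38051853568)), (.ofNat (nat_lit 34702852048)), (.ofNat (nat_lit 38051853552)), (.negSucc (nat_lit 10560512618956700121260)), (.negSucc (nat_lit 162469424907026155710)), (.ofNat (nat_lit 12370573366337704082889781876224))⟩,
    ⟨nat_lit 10, nat_lit 9, (.negSucc (nat_lit 21570902719)), (.negSucc (nat_lit 10553767295)), (.negSucc (nat_lit 21570902703)), (.negSucc (nat_lit 10553767311)), (.ofNat (nat_lit 10560512618956700121261)), (.ofNat (nat_lit 162469424907026155711)), (.ofNat (nat_lit 7766819840317537523586915901568))⟩,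
    ⟨nat_lit 11, nat_lit 12, (.negSucc (nat_lit 1504858111)), (.ofNat (nat_lit 4804104576)), (.negSucc (nat_lit 1504858095)), (.ofNat (nat_lit 4804104560)), (.ofNat (nat_lit 10560512618956700121261)), (.ofNat (nat_lit 162469424907026155711)), (.ofNat (nat_lit 499378897171709825689698893952))⟩,
    ⟨nat_lit 13, nat_lit 12, (.negSucc (nat_lit 18878655871)), (.ofNat (nat_lit 4804104576)), (.negSucc (nat_lit 18878655855)), (.ofNat (nat_lit 4804104560)), (.negSucc (nat_lit 10560512618956700121260)), (.negSucc (nat_lit 162469424907026155710)), (.ofNat (nat_lit 2060419112483575284095506161024))⟩,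
    ⟨nat_lit 13, nat_lit 14, (.negSucc (nat_lit 18878655871)), (.negSucc (nat_lit 11870962815)), (.negSucc (nat_lit 18878655855)), (.negSucc (nat_lit 11870962831)), (.ofNat (nat_lit 10560512618956700121261)), (.ofNat (nat_lit 162469424907026155711)), (.ofNat (nat_lit 8194827837566560061237619131008))⟩,
    ⟨nat_lit 14, nat_lit 9, (.negSucc (nat_lit 11870962815)), (.negSucc (nat_lit 10553767295)), (.negSucc (nat_lit 11870962799)), (.negSucc (nat_lit 10553767311)), (.negSucc (nat_lit 10560512618956700121260)), (.negSucc (nat_lit 162469424907026155710)), (.ofNat (nat_lit 4337490833950136558068205046656))⟩,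
    ⟨nat_lit 0, nat_lit 8, (.ofNat (nat_lit 21518179072)), (.ofNat (nat_lit 34702852032)), (.ofNat (nat_lit 21518179088)), (.ofNat (nat_lit 34702852016)), (.ofNat (nat_lit 10560512618956700121261)), (.ofNat (nat_lit 162469424907026155711)), (.ofNat (nat_lit 1094268541792376005304532366720))⟩,
    ⟨nat_lit 15, nat_lit 11, (.negSucc (nat_lit 20526445951)), (.negSucc (nat_lit 1504858111)), (.negSucc (nat_lit 20526445935)), (.negSucc (nat_lit 1504858127)), (.negSucc (nat_lit 10560512618956700121260)), (.negSucc (nat_lit 162469424907026155710)), (.ofNat (nat_lit 10392033125083513253951938688))⟩]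

theorem ok145 : stOK 15 15 S145 = true := by decide +kernel

def S146 : SD where
  vs := [
    ⟨nat_lit 0, nat_lit 0, nat_lit 14, (.ofNat (nat_lit 8)), (.ofNat (nat_lit 34703638400)), (.ofNat (nat_lit 437626739963494681751368671699456)), (.ofNat (nat_lit 13185459328)), (.ofNat (nat_lit 139256283120164266382765934946944)), (.ofNat (nat_lit 34703638384)), (.ofNat (nat_lit 34703638416)), (.negSucc (nat_lit 10560512618956700121260)), (.ofNat (nat_lit 10560512618956700121261)), (.negSucc (nat_lit 10560512618956700121260)), (.ofNat (nat_lit 10560512618956700121261)), (.ofNat (nat_lit 0))⟩,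
    ⟨nat_lit 2, nat_lit 0, nat_lit 1, (.ofNat (nat_lit 8)), (.ofNat (nat_lit 29019833728)), (.ofNat (nat_lit 497650630925835729666294910030848)), (.ofNat (nat_lit 13185197184)), (.ofNat (nat_lit 139259051495184250167962522790528)), (.ofNat (nat_lit 29019833712)), (.ofNat (nat_lit 29019833744)), (.negSucc (nat_lit 10560512618956700121260)), (.ofNat (nat_lit 10560512618956700121261)), (.negSucc (nat_lit 10560512618956700121260)), (.ofNat (nat_lit 10560512618956700121261)), (.ofNat (nat_lit 0))⟩,
    ⟨nat_lit 1, nat_lit 1, nat_lit 2, (.ofNat (nat_lit 8)), (.ofNat (nat_lit 42245556800)), (.ofNat (nat_lit 637321046322518503029041715464640)), (.ofNat (nat_lit 13185459328)), (.ofNat (nat_lit 139261819870204233953159110634112)), (.ofNat (nat_lit 42245556784)), (.ofNat (nat_lit 42245556816)), (.ofNat (nat_lit 10560512618956700121261)), (.negSucc (nat_lit 10560512618956700121260)), (.negSucc (nat_lit 10560512618956700121260)), (.ofNat (nat_lit 10560512618956700121261)), (.ofNat (nat_lit 0))⟩,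
    ⟨nat_lit 0, nat_lit 3, nat_lit 2, (.ofNat (nat_lit 8)), (.ofNat (nat_lit 25977164224)), (.ofNat (nat_lit 809123611411508000147222467622976)), (.ofNat (nat_lit 13184410752)), (.ofNat (nat_lit 139272893370284169093945462008448)), (.ofNat (nat_lit 25977164208)), (.ofNat (nat_lit 25977164240)), (.ofNat (nat_lit 10560512618956700121261)), (.negSucc (nat_lit 10560512618956700121260)), (.negSucc (nat_lit 10560512618956700121260)), (.ofNat (nat_lit 10560512618956700121261)), (.ofNat (nat_lit 0))⟩,
    ⟨nat_lit 2, nat_lit 4, nat_lit 3, (.ofNat (nat_lit 8)), (.negSucc (nat_lit 22988571327)), (.ofNat (nat_lit 292020343218115279870990008851904)), (.negSucc (nat_lit 1572863)), (.ofNat (nat_lit 22147000159870281572702748672)), (.negSucc (nat_lit 22988571343)), (.negSucc (nat_lit 22988571311)), (.negSucc (nat_lit 10560512618956700121260)), (.ofNat (nat_lit 10560512618956700121261)), (.negSucc (nat_lit 10560512618956700121260)), (.ofNat (nat_lit 10560512618956700121261)), (.ofNat (nat_lit 0))⟩,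
    ⟨nat_lit 0, nat_lit 5, nat_lit 6, (.ofNat (nat_lit 8)), (.ofNat (nat_lit 4310588160)), (.ofNat (nat_lit 479759232808952993073132277102464)), (.ofNat (nat_lit 0)), (.ofNat (nat_lit 22147000159870281572702748672)), (.ofNat (nat_lit 4310588144)), (.ofNat (nat_lit 4310588176)), (.ofNat (nat_lit 10560512618956700121261)), (.negSucc (nat_lit 10560512618956700121260)), (.negSucc (nat_lit 10560512618956700121260)), (.ofNat (nat_lit 10560512618956700121261)), (.ofNat (nat_lit 0))⟩,
    ⟨nat_lit 0, nat_lit 6, nat_lit 7, (.ofNat (nat_lit 8)), (.ofNat (nat_lit 24851451968)), (.ofNat (nat_lit 262837181360298016833212990880576)), (.ofNat (nat_lit 1048576)), (.ofNat (nat_lit 11073500079935140786351374336)), (.ofNat (nat_lit 24851451952)), (.ofNat (nat_lit 24851451984)), (.negSucc (nat_lit 10560512618956700121260)), (.ofNat (nat_lit 10560512618956700121261)), (.negSucc (nat_lit 10560512618956700121260)), (.ofNat (nat_lit 10560512618956700121261)), (.ofNat (nat_lit 0))⟩,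
    ⟨nat_lit 1, nat_lit 7, nat_lit 8, (.ofNat (nat_lit 8)), (.ofNat (nat_lit 38053164288)), (.ofNat (nat_lit 402254030907494150370609828516096)), (.ofNat (nat_lit 1310720)), (.ofNat (nat_lit 13841875099918925982939217920)), (.ofNat (nat_lit 38053164272)), (.ofNat (nat_lit 38053164304)), (.ofNat (nat_lit 10560512618956700121261)), (.negSucc (nat_lit 10560512618956700121260)), (.negSucc (nat_lit 10560512618956700121260)), (.ofNat (nat_lit 10560512618956700121261)), (.ofNat (nat_lit 0))⟩,
    ⟨nat_lit 0, nat_lit 14, nat_lit 8, (.ofNat (nat_lit 8)), (.ofNat (nat_lit 34703638464)), (.ofNat (nat_lit 437626740639367489364597479460160)), (.ofNat (nat_lit 786432)), (.ofNat (nat_lit 19378625139886496376114905088)), (.ofNat (nat_lit 34703638448)), (.ofNat (nat_lit 34703638480)), (.ofNat (nat_lit 10560512618956700121261)), (.negSucc (nat_lit 10560512618956700121260)), (.negSucc (nat_lit 10560512618956700121260)), (.ofNat (nat_lit 10560512618956700121261)), (.ofNat (nat_lit 0))⟩,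
    ⟨nat_lit 1, nat_lit 9, nat_lit 13, (.ofNat (nat_lit 8)), (.negSucc (nat_lit 10554291583)), (.ofNat (nat_lit 393412243913859277937077681488384)), (.negSucc (nat_lit 524287)), (.ofNat (nat_lit 22147000159870281572702748672)), (.negSucc (nat_lit 10554291599)), (.negSucc (nat_lit 10554291567)), (.ofNat (nat_lit 10560512618956700121261)), (.negSucc (nat_lit 10560512618956700121260)), (.negSucc (nat_lit 10560512618956700121260)), (.ofNat (nat_lit 10560512618956700121261)), (.ofNat (nat_lit 0))⟩,
    ⟨nat_lit 0, nat_lit 4, nat_lit 9, (.ofNat (nat_lit 8)), (.negSucc (nat_lit 21571951295)), (.ofNat (nat_lit 277060109493912435538594847151552)), (.negSucc (nat_lit 1048575)), (.ofNat (nat_lit 16610250119902711179527061504)), (.negSucc (nat_lit 21571951311)), (.negSucc (nat_lit 21571951279)), (.negSucc (nat_lit 10560512618956700121260)), (.ofNat (nat_lit 10560512618956700121261)), (.negSucc (nat_lit 10560512618956700121260)), (.ofNat (nat_lit 10560512618956700121261)), (.ofNat (nat_lit 0))⟩,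
    ⟨nat_lit 0, nat_lit 15, nat_lit 10, (.ofNat (nat_lit 8)), (.negSucc (nat_lit 1505120255)), (.ofNat (nat_lit 16570323609665767300937405675904)), (.negSucc (nat_lit 262143)), (.ofNat (nat_lit 2768375019983785196587843584)), (.negSucc (nat_lit 1505120271)), (.negSucc (nat_lit 1505120239)), (.negSucc (nat_lit 10560512618956700121260)), (.ofNat (nat_lit 10560512618956700121261)), (.negSucc (nat_lit 10560512618956700121260)), (.ofNat (nat_lit 10560512618956700121261)), (.ofNat (nat_lit 0))⟩,
    ⟨nat_lit 1, nat_lit 10, nat_lit 11, (.ofNat (nat_lit 8)), (.ofNat (nat_lit 4804366720)), (.ofNat (nat_lit 83201740438856717423971305872640)), (.ofNat (nat_lit 262144)), (.ofNat (nat_lit 8305125059951355589763530752)), (.ofNat (nat_lit 4804366704)), (.ofNat (nat_lit 4804366736)), (.ofNat (nat_lit 10560512618956700121261)), (.negSucc (nat_lit 10560512618956700121260)), (.negSucc (nat_lit 10560512618956700121260)), (.ofNat (nat_lit 10560512618956700121261)), (.ofNat (nat_lit 0))⟩,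
    ⟨nat_lit 2, nat_lit 11, nat_lit 12, (.ofNat (nat_lit 8)), (.negSucc (nat_lit 18879704447)), (.ofNat (nat_lit 333317672876789269006351059775488)), (.negSucc (nat_lit 1048575)), (.ofNat (nat_lit 22147000159870281572702748672)), (.negSucc (nat_lit 18879704463)), (.negSucc (nat_lit 18879704431)), (.negSucc (nat_lit 10560512618956700121260)), (.ofNat (nat_lit 10560512618956700121261)), (.negSucc (nat_lit 10560512618956700121260)), (.ofNat (nat_lit 10560512618956700121261)), (.ofNat (nat_lit 0))⟩,
    ⟨nat_lit 0, nat_lit 12, nat_lit 13, (.ofNat (nat_lit 8)), (.negSucc (nat_lit 11871749247)), (.ofNat (nat_lit 407325272199472494195982715282688)), (.negSucc (nat_lit 786431)), (.ofNat (nat_lit 24915375179854066769290592256)), (.negSucc (nat_lit 11871749263)), (.negSucc (nat_lit 11871749231)), (.ofNat (nat_lit 10560512618956700121261)), (.negSucc (nat_lit 10560512618956700121260)), (.negSucc (nat_lit 10560512618956700121260)), (.ofNat (nat_lit 10560512618956700121261)), (.ofNat (nat_lit 0))⟩,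
    ⟨nat_lit 2, nat_lit 15, nat_lit 5, (.ofNat (nat_lit 8)), (.negSucc (nat_lit 20527494527)), (.ofNat (nat_lit 217456347151639039169631932272896)), (.negSucc (nat_lit 1048575)), (.ofNat (nat_lit 11073500079935140786351374336)), (.negSucc (nat_lit 20527494543)), (.negSucc (nat_lit 20527494511)), (.negSucc (nat_lit 10560512618956700121260)), (.ofNat (nat_lit 10560512618956700121261)), (.negSucc (nat_lit 10560512618956700121260)), (.ofNat (nat_lit 10560512618956700121261)), (.ofNat (nat_lit 0))⟩]
  es := [
    ⟨nat_lit 1, nat_lit 0, (.ofNat (nat_lit 29019833728)), (.ofNat (nat_lit 34703638400)), (.ofNat (nat_lit 29019833744)), (.ofNat (nat_lit 34703638384)), (.negSucc (nat_lit 10560512618956700121260)), (.ofNat (nat_lit 0)), (.ofNat (nat_lit 278501492740248597624745518519552))⟩,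
    ⟨nat_lit 1, nat_lit 2, (.ofNat (nat_lit 29019833728)), (.ofNat (nat_lit 42245556800)), (.ofNat (nat_lit 29019833744)), (.ofNat (nat_lit 42245556784)), (.ofNat (nat_lit 10560512618956700121261)), (.ofNat (nat_lit 0)), (.ofNat (nat_lit 16610250119902711179527061504))⟩,
    ⟨nat_lit 3, nat_lit 2, (.ofNat (nat_lit 25977164224)), (.ofNat (nat_lit 42245556800)), (.ofNat (nat_lit 25977164240)), (.ofNat (nat_lit 42245556784)), (.negSucc (nat_lit 10560512618956700121260)), (.ofNat (nat_lit 0)), (.ofNat (nat_lit 278507029490288565195138694206720))⟩,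
    ⟨nat_lit 4, nat_lit 3, (.negSucc (nat_lit 22988571327)), (.ofNat (nat_lit 25977164224)), (.negSucc (nat_lit 22988571311)), (.ofNat (nat_lit 25977164208)), (.ofNat (nat_lit 10560512618956700121261)), (.ofNat (nat_lit 0)), (.ofNat (nat_lit 38757250279772992752229810176))⟩,
    ⟨nat_lit 4, nat_lit 10, (.negSucc (nat_lit 22988571327)), (.negSucc (nat_lit 21571951295)), (.negSucc (nat_lit 22988571311)), (.negSucc (nat_lit 21571951311)), (.negSucc (nat_lit 10560512618956700121260)), (.ofNat (nat_lit 0)), (.ofNat (nat_lit 5536750039967570393175687168))⟩,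
    ⟨nat_lit 15, nat_lit 5, (.negSucc (nat_lit 20527494527)), (.ofNat (nat_lit 4310588160)), (.negSucc (nat_lit 20527494511)), (.ofNat (nat_lit 4310588144)), (.ofNat (nat_lit 10560512618956700121261)), (.ofNat (nat_lit 0)), (.ofNat (nat_lit 22147000159870281572702748672))⟩,
    ⟨nat_lit 5, nat_lit 6, (.ofNat (nat_lit 4310588160)), (.ofNat (nat_lit 24851451968)), (.ofNat (nat_lit 4310588176)), (.ofNat (nat_lit 24851451952)), (.negSucc (nat_lit 10560512618956700121260)), (.ofNat (nat_lit 0)), (.ofNat (nat_lit 22147000159870281572702748672))⟩,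
    ⟨nat_lit 6, nat_lit 7, (.ofNat (nat_lit 24851451968)), (.ofNat (nat_lit 38053164288)), (.ofNat (nat_lit 24851451984)), (.ofNat (nat_lit 38053164272)), (.ofNat (nat_lit 10560512618956700121261)), (.ofNat (nat_lit 0)), (.ofNat (nat_lit 0))⟩,
    ⟨nat_lit 8, nat_lit 7, (.ofNat (nat_lit 34703638464)), (.ofNat (nat_lit 38053164288)), (.ofNat (nat_lit 34703638480)), (.ofNat (nat_lit 38053164272)), (.negSucc (nat_lit 10560512618956700121260)), (.ofNat (nat_lit 0)), (.ofNat (nat_lit 27683750199837851965878435840))⟩,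
    ⟨nat_lit 10, nat_lit 9, (.negSucc (nat_lit 21571951295)), (.negSucc (nat_lit 10554291583)), (.negSucc (nat_lit 21571951279)), (.negSucc (nat_lit 10554291599)), (.ofNat (nat_lit 10560512618956700121261)), (.ofNat (nat_lit 0)), (.ofNat (nat_lit 27683750199837851965878435840))⟩,
    ⟨nat_lit 11, nat_lit 12, (.negSucc (nat_lit 1505120255)), (.ofNat (nat_lit 4804366720)), (.negSucc (nat_lit 1505120239)), (.ofNat (nat_lit 4804366704)), (.ofNat (nat_lit 10560512618956700121261)), (.ofNat (nat_lit 0)), (.ofNat (nat_lit 5536750039967570393175687168))⟩,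
    ⟨nat_lit 13, nat_lit 12, (.negSucc (nat_lit 18879704447)), (.ofNat (nat_lit 4804366720)), (.negSucc (nat_lit 18879704431)), (.ofNat (nat_lit 4804366704)), (.negSucc (nat_lit 10560512618956700121260)), (.ofNat (nat_lit 0)), (.ofNat (nat_lit 11073500079935140786351374336))⟩,
    ⟨nat_lit 13, nat_lit 14, (.negSucc (nat_lit 18879704447)), (.negSucc (nat_lit 11871749247)), (.negSucc (nat_lit 18879704431)), (.negSucc (nat_lit 11871749263)), (.ofNat (nat_lit 10560512618956700121261)), (.ofNat (nat_lit 0)), (.ofNat (nat_lit 33220500239805422359054123008))⟩,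
    ⟨nat_lit 14, nat_lit 9, (.negSucc (nat_lit 11871749247)), (.negSucc (nat_lit 10554291583)), (.negSucc (nat_lit 11871749231)), (.negSucc (nat_lit 10554291599)), (.negSucc (nat_lit 10560512618956700121260)), (.ofNat (nat_lit 0)), (.ofNat (nat_lit 16610250119902711179527061504))⟩,
    ⟨nat_lit 0, nat_lit 8, (.ofNat (nat_lit 34703638400)), (.ofNat (nat_lit 34703638464)), (.ofNat (nat_lit 34703638416)), (.ofNat (nat_lit 34703638448)), (.ofNat (nat_lit 10560512618956700121261)), (.ofNat (nat_lit 0)), (.ofNat (nat_lit 11073500079935140786351374336))⟩,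
    ⟨nat_lit 15, nat_lit 11, (.negSucc (nat_lit 20527494527)), (.negSucc (nat_lit 1505120255)), (.negSucc (nat_lit 20527494511)), (.negSucc (nat_lit 1505120271)), (.negSucc (nat_lit 10560512618956700121260)), (.ofNat (nat_lit 0)), (.ofNat (nat_lit 0))⟩]

theorem ok146 : stOK 15 15 S146 = true := by decide +kernel

def S147 : SD where
  vs := [
    ⟨nat_lit 0, nat_lit 0, nat_lit 14, (.ofNat (nat_lit 8)), (.ofNat (nat_lit 34703638400)), (.ofNat (nat_lit 444464742438896539696579973655040)), (.ofNat (nat_lit 0)), (.ofNat (nat_lit 6838002475401857945211301955584)), (.ofNat (nat_lit 34703638384)), (.ofNat (nat_lit 34703638416)), (.negSucc (nat_lit 10725521115619457991004)), (.negSucc (nat_lit 10725521115619457991004)), (.negSucc (nat_lit 10725521115619457991004)), (.negSucc (nat_lit 10725521115619457991004)), (.ofNat (nat_lit 42572067469152316224532))⟩,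
    ⟨nat_lit 2, nat_lit 0, nat_lit 1, (.ofNat (nat_lit 8)), (.ofNat (nat_lit 29019833728)), (.ofNat (nat_lit 505426509465489067199961926630400)), (.ofNat (nat_lit 0)), (.ofNat (nat_lit 7775878539653337533667016599552)), (.ofNat (nat_lit 29019833712)), (.ofNat (nat_lit 29019833744)), (.negSucc (nat_lit 10725521115619457991004)), (.ofNat (nat_lit 10725522483987337457175)), (.negSucc (nat_lit 10725521115619457991004)), (.ofNat (nat_lit 10725522483987337457175)), (.ofNat (nat_lit 990053716712306150804))⟩,
    ⟨nat_lit 1, nat_lit 1, nat_lit 2, (.ofNat (nat_lit 8)), (.ofNat (nat_lit 42245556800)), (.ofNat (nat_lit 647279299641215146763171136072000)), (.ofNat (nat_lit 0)), (.ofNat (nat_lit 9958253318696643734129420607360)), (.ofNat (nat_lit 42245556784)), (.ofNat (nat_lit 42245556816)), (.ofNat (nat_lit 10725522483987337457175)), (.negSucc (nat_lit 10725522483987337457174)), (.negSucc (nat_lit 10725522483987337457174)), (.ofNat (nat_lit 10725522483987337457175)), (.ofNat (nat_lit 990059190183824015484))⟩,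
    ⟨nat_lit 0, nat_lit 3, nat_lit 2, (.ofNat (nat_lit 8)), (.ofNat (nat_lit 25977164224)), (.ofNat (nat_lit 821766309993435826329483624004800)), (.ofNat (nat_lit 0)), (.ofNat (nat_lit 12642698581927826182261156381824)), (.ofNat (nat_lit 25977164208)), (.ofNat (nat_lit 25977164240)), (.ofNat (nat_lit 10725522483987337457175)), (.negSucc (nat_lit 10725522483987337457174)), (.negSucc (nat_lit 10725522483987337457174)), (.ofNat (nat_lit 10725522483987337457175)), (.ofNat (nat_lit 990059190183824015484))⟩,
    ⟨nat_lit 2, nat_lit 4, nat_lit 3, (.ofNat (nat_lit 8)), (.negSucc (nat_lit 22988571327)), (.ofNat (nat_lit 296583212385481705884868449019200)), (.ofNat (nat_lit 0)), (.ofNat (nat_lit 4562869167366426013878440167296)), (.negSucc (nat_lit 22988571343)), (.negSucc (nat_lit 22988571311)), (.negSucc (nat_lit 10725522483987337457174)), (.ofNat (nat_lit 10725522483987337457175)), (.negSucc (nat_lit 10725522483987337457174)), (.ofNat (nat_lit 10725522483987337457175)), (.ofNat (nat_lit 990059190183824015484))⟩,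
    ⟨nat_lit 0, nat_lit 5, nat_lit 6, (.ofNat (nat_lit 8)), (.ofNat (nat_lit 4310588160)), (.ofNat (nat_lit 487255555109719142917393539907200)), (.ofNat (nat_lit 0)), (.ofNat (nat_lit 7496322300766149844261262804736)), (.ofNat (nat_lit 4310588144)), (.ofNat (nat_lit 4310588176)), (.ofNat (nat_lit 10725522483987337457175)), (.negSucc (nat_lit 10725522483987337457174)), (.negSucc (nat_lit 10725522483987337457174)), (.ofNat (nat_lit 10725522483987337457175)), (.ofNat (nat_lit 990059190183824015484))⟩,
    ⟨nat_lit 0, nat_lit 6, nat_lit 7, (.ofNat (nat_lit 8)), (.ofNat (nat_lit 24851451968)), (.ofNat (nat_lit 266944058496493383413024832484800)), (.ofNat (nat_lit 0)), (.ofNat (nat_lit 4106877136195366579811841604224)), (.ofNat (nat_lit 24851451952)), (.ofNat (nat_lit 24851451984)), (.negSucc (nat_lit 10725522483987337457174)), (.ofNat (nat_lit 10725523316307587937665)), (.negSucc (nat_lit 10725522483987337457174)), (.ofNat (nat_lit 10725523316307587937665)), (.ofNat (nat_lit 990060854824324976464))⟩,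
    ⟨nat_lit 1, nat_lit 7, nat_lit 8, (.ofNat (nat_lit 8)), (.ofNat (nat_lit 38053164288)), (.ofNat (nat_lit 408539331799838523999180255017600)), (.ofNat (nat_lit 0)), (.ofNat (nat_lit 6285300892344373628570426501504)), (.ofNat (nat_lit 38053164272)), (.ofNat (nat_lit 38053164304)), (.ofNat (nat_lit 10725523316307587937665)), (.negSucc (nat_lit 10725521115619457991004)), (.negSucc (nat_lit 10725521115619457991004)), (.ofNat (nat_lit 10725523316307587937665)), (.ofNat (nat_lit 990059782729067005104))⟩,
    ⟨nat_lit 0, nat_lit 14, nat_lit 8, (.ofNat (nat_lit 8)), (.ofNat (nat_lit 34703638464)), (.ofNat (nat_lit 444464741752463188296934662230720)), (.ofNat (nat_lit 0)), (.ofNat (nat_lit 6838001113095698932337182770560)), (.ofNat (nat_lit 34703638448)), (.ofNat (nat_lit 34703638480)), (.negSucc (nat_lit 10725521115619457991004)), (.negSucc (nat_lit 10725521115619457991004)), (.negSucc (nat_lit 10725521115619457991004)), (.negSucc (nat_lit 10725521115619457991004)), (.ofNat (nat_lit 84814117944979116709576))⟩,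
    ⟨nat_lit 1, nat_lit 9, nat_lit 13, (.ofNat (nat_lit 8)), (.negSucc (nat_lit 10554291583)), (.ofNat (nat_lit 399559379342976297428755924723200)), (.ofNat (nat_lit 0)), (.ofNat (nat_lit 6147135429117019491678243234816)), (.negSucc (nat_lit 10554291599)), (.negSucc (nat_lit 10554291567)), (.ofNat (nat_lit 10725522483987337457175)), (.negSucc (nat_lit 10725522483987337457174)), (.negSucc (nat_lit 10725522483987337457174)), (.ofNat (nat_lit 10725522483987337457175)), (.ofNat (nat_lit 990059190183824015484))⟩,
    ⟨nat_lit 0, nat_lit 4, nat_lit 9, (.ofNat (nat_lit 8)), (.negSucc (nat_lit 21571951295)), (.ofNat (nat_lit 281389222380998844408690401889600)), (.ofNat (nat_lit 0)), (.ofNat (nat_lit 4329112887086408870095554738048)), (.negSucc (nat_lit 21571951311)), (.negSucc (nat_lit 21571951279)), (.negSucc (nat_lit 10725522483987337457174)), (.ofNat (nat_lit 10725522483987337457175)), (.negSucc (nat_lit 10725522483987337457174)), (.ofNat (nat_lit 10725522483987337457175)), (.ofNat (nat_lit 990059190183824015484))⟩,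
    ⟨nat_lit 0, nat_lit 15, nat_lit 10, (.ofNat (nat_lit 8)), (.negSucc (nat_lit 1505120255)), (.ofNat (nat_lit 16829237827280239191973609219200)), (.ofNat (nat_lit 0)), (.ofNat (nat_lit 258914217614471891036203543296)), (.negSucc (nat_lit 1505120271)), (.negSucc (nat_lit 1505120239)), (.negSucc (nat_lit 10725522483987337457174)), (.ofNat (nat_lit 10725522483987337457175)), (.negSucc (nat_lit 10725522483987337457174)), (.ofNat (nat_lit 10725522483987337457175)), (.ofNat (nat_lit 990059190183824015484))⟩,
    ⟨nat_lit 1, nat_lit 10, nat_lit 11, (.ofNat (nat_lit 8)), (.ofNat (nat_lit 4804366720)), (.ofNat (nat_lit 84501782250793513426936229472000)), (.ofNat (nat_lit 0)), (.ofNat (nat_lit 1300041811936796002964923599360)), (.ofNat (nat_lit 4804366704)), (.ofNat (nat_lit 4804366736)), (.ofNat (nat_lit 10725522483987337457175)), (.negSucc (nat_lit 10725522483987337457174)), (.negSucc (nat_lit 10725522483987337457174)), (.ofNat (nat_lit 10725522483987337457175)), (.ofNat (nat_lit 990059190183824015484))⟩,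
    ⟨nat_lit 2, nat_lit 11, nat_lit 12, (.ofNat (nat_lit 8)), (.negSucc (nat_lit 18879704447)), (.ofNat (nat_lit 338525820075533754173501081702400)), (.ofNat (nat_lit 0)), (.ofNat (nat_lit 5208147198744485167150021926912)), (.negSucc (nat_lit 18879704463)), (.negSucc (nat_lit 18879704431)), (.negSucc (nat_lit 10725522483987337457174)), (.ofNat (nat_lit 10725522483987337457175)), (.negSucc (nat_lit 10725522483987337457174)), (.ofNat (nat_lit 10725522483987337457175)), (.ofNat (nat_lit 990059190183824015484))⟩,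
    ⟨nat_lit 0, nat_lit 12, nat_lit 13, (.ofNat (nat_lit 8)), (.negSucc (nat_lit 11871749247)), (.ofNat (nat_lit 413689801139909732440665400262400)), (.ofNat (nat_lit 0)), (.ofNat (nat_lit 6364528940437238244682684979712)), (.negSucc (nat_lit 11871749263)), (.negSucc (nat_lit 11871749231)), (.ofNat (nat_lit 10725522483987337457175)), (.negSucc (nat_lit 10725522483987337457174)), (.negSucc (nat_lit 10725522483987337457174)), (.ofNat (nat_lit 10725522483987337457175)), (.ofNat (nat_lit 990059190183824015484))⟩,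
    ⟨nat_lit 2, nat_lit 15, nat_lit 5, (.ofNat (nat_lit 8)), (.negSucc (nat_lit 20527494527)), (.ofNat (nat_lit 220854140780438499211121231020800)), (.ofNat (nat_lit 0)), (.ofNat (nat_lit 3397793628799460041489298747904)), (.negSucc (nat_lit 20527494543)), (.negSucc (nat_lit 20527494511)), (.negSucc (nat_lit 10725522483987337457174)), (.ofNat (nat_lit 10725522483987337457175)), (.negSucc (nat_lit 10725522483987337457174)), (.ofNat (nat_lit 10725522483987337457175)), (.ofNat (nat_lit 990059190183824015484))⟩]
  es := [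
    ⟨nat_lit 1, nat_lit 0, (.ofNat (nat_lit 29019833728)), (.ofNat (nat_lit 34703638400)), (.ofNat (nat_lit 29019833744)), (.ofNat (nat_lit 34703638384)), (.negSucc (nat_lit 10725521115619457991004)), (.negSucc (nat_lit 165008496662757869743)), (.ofNat (nat_lit 12564397676513813803561378525184))⟩,
    ⟨nat_lit 1, nat_lit 2, (.ofNat (nat_lit 29019833728)), (.ofNat (nat_lit 42245556800)), (.ofNat (nat_lit 29019833744)), (.ofNat (nat_lit 42245556784)), (.ofNat (nat_lit 10725522483987337457175)), (.ofNat (nat_lit 165009865030637335914)), (.ofNat (nat_lit 2987319692984520419573853692160))⟩,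
    ⟨nat_lit 3, nat_lit 2, (.ofNat (nat_lit 25977164224)), (.ofNat (nat_lit 42245556800)), (.ofNat (nat_lit 25977164240)), (.ofNat (nat_lit 42245556784)), (.negSucc (nat_lit 10725522483987337457174)), (.negSucc (nat_lit 165009865030637335913)), (.ofNat (nat_lit 16929186944408767048684987522560))⟩,
    ⟨nat_lit 4, nat_lit 3, (.negSucc (nat_lit 22988571327)), (.ofNat (nat_lit 25977164224)), (.negSucc (nat_lit 22988571311)), (.ofNat (nat_lit 25977164208)), (.ofNat (nat_lit 10725522483987337457175)), (.ofNat (nat_lit 165009865030637335914)), (.ofNat (nat_lit 8356210219446885315837325241088))⟩,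
    ⟨nat_lit 4, nat_lit 10, (.negSucc (nat_lit 22988571327)), (.negSucc (nat_lit 21571951295)), (.negSucc (nat_lit 22988571311)), (.negSucc (nat_lit 21571951311)), (.negSucc (nat_lit 10725522483987337457174)), (.negSucc (nat_lit 165009865030637335913)), (.ofNat (nat_lit 769528115285966711919555093504))⟩,
    ⟨nat_lit 15, nat_lit 5, (.negSucc (nat_lit 20527494527)), (.ofNat (nat_lit 4310588160)), (.negSucc (nat_lit 20527494511)), (.ofNat (nat_lit 4310588144)), (.ofNat (nat_lit 10725522483987337457175)), (.ofNat (nat_lit 165009865030637335914)), (.ofNat (nat_lit 6785032730281886506816431626496))⟩,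
    ⟨nat_lit 5, nat_lit 6, (.ofNat (nat_lit 4310588160)), (.ofNat (nat_lit 24851451968)), (.ofNat (nat_lit 4310588176)), (.ofNat (nat_lit 24851451952)), (.negSucc (nat_lit 10725522483987337457174)), (.negSucc (nat_lit 165009865030637335913)), (.ofNat (nat_lit 8207611871250413181706093982976))⟩,
    ⟨nat_lit 6, nat_lit 7, (.ofNat (nat_lit 24851451968)), (.ofNat (nat_lit 38053164288)), (.ofNat (nat_lit 24851451984)), (.ofNat (nat_lit 38053164272)), (.ofNat (nat_lit 10725523316307587937665)), (.ofNat (nat_lit 165010697350887816404)), (.ofNat (nat_lit 6121716773593168291433121152))⟩,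
    ⟨nat_lit 8, nat_lit 7, (.ofNat (nat_lit 34703638464)), (.ofNat (nat_lit 38053164288)), (.ofNat (nat_lit 34703638480)), (.ofNat (nat_lit 38053164272)), (.negSucc (nat_lit 10725521115619457991004)), (.negSucc (nat_lit 165008496662757869743)), (.ofNat (nat_lit 12564396324768198577103763003776))⟩,
    ⟨nat_lit 10, nat_lit 9, (.negSucc (nat_lit 21571951295)), (.negSucc (nat_lit 10554291583)), (.negSucc (nat_lit 21571951279)), (.negSucc (nat_lit 10554291599)), (.ofNat (nat_lit 10725522483987337457175)), (.ofNat (nat_lit 165009865030637335914)), (.ofNat (nat_lit 7888697658886851028271554382592))⟩,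
    ⟨nat_lit 11, nat_lit 12, (.negSucc (nat_lit 1505120255)), (.ofNat (nat_lit 4804366720)), (.negSucc (nat_lit 1505120239)), (.ofNat (nat_lit 4804366704)), (.ofNat (nat_lit 10725522483987337457175)), (.ofNat (nat_lit 165009865030637335914)), (.ofNat (nat_lit 507273907911910205910241217280))⟩,
    ⟨nat_lit 13, nat_lit 12, (.negSucc (nat_lit 18879704447)), (.ofNat (nat_lit 4804366720)), (.negSucc (nat_lit 18879704431)), (.ofNat (nat_lit 4804366704)), (.negSucc (nat_lit 10725522483987337457174)), (.negSucc (nat_lit 165009865030637335913)), (.ofNat (nat_lit 2092809715961681800019605981440))⟩,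
    ⟨nat_lit 13, nat_lit 14, (.negSucc (nat_lit 18879704447)), (.negSucc (nat_lit 11871749247)), (.negSucc (nat_lit 18879704431)), (.negSucc (nat_lit 11871749263)), (.ofNat (nat_lit 10725522483987337457175)), (.ofNat (nat_lit 165009865030637335914)), (.ofNat (nat_lit 8323484681527288534280437872384))⟩,
    ⟨nat_lit 14, nat_lit 9, (.negSucc (nat_lit 11871749247)), (.negSucc (nat_lit 10554291583)), (.negSucc (nat_lit 11871749231)), (.negSucc (nat_lit 10554291599)), (.negSucc (nat_lit 10725522483987337457174)), (.negSucc (nat_lit 165009865030637335913)), (.ofNat (nat_lit 4405573199347187955084932087040))⟩,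
    ⟨nat_lit 0, nat_lit 8, (.ofNat (nat_lit 34703638400)), (.ofNat (nat_lit 34703638464)), (.ofNat (nat_lit 34703638416)), (.ofNat (nat_lit 34703638448)), (.negSucc (nat_lit 10725521115619457991004)), (.negSucc (nat_lit 21286033734576158112265)), (.ofNat (nat_lit 745540820170334426334517170569984))⟩,
    ⟨nat_lit 15, nat_lit 11, (.negSucc (nat_lit 20527494527)), (.negSucc (nat_lit 1505120255)), (.negSucc (nat_lit 20527494511)), (.negSucc (nat_lit 1505120271)), (.negSucc (nat_lit 10725522483987337457174)), (.negSucc (nat_lit 165009865030637335913)), (.ofNat (nat_lit 10554527317033576162165869312))⟩]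

theorem ok147 : stOK 15 15 S147 = true := by decide +kernel

def S148 : SD where
  vs := [
    ⟨nat_lit 0, nat_lit 0, nat_lit 14, (.ofNat (nat_lit 8)), (.ofNat (nat_lit 39459661248)), (.ofNat (nat_lit 495486820328167700096181678274240)), (.ofNat (nat_lit 4756022848)), (.ofNat (nat_lit 51022077889271160399601704619200)), (.ofNat (nat_lit 39459661232)), (.ofNat (nat_lit 39459661264)), (.negSucc (nat_lit 10725521115619457991004)), (.negSucc (nat_lit 10725521115619457991004)), (.negSucc (nat_lit 10725521115619457991004)), (.negSucc (nat_lit 10725521115619457991004)), (.ofNat (nat_lit 0))⟩,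
    ⟨nat_lit 2, nat_lit 0, nat_lit 1, (.ofNat (nat_lit 8)), (.ofNat (nat_lit 33775594496)), (.ofNat (nat_lit 556451398299334209147113913840000)), (.ofNat (nat_lit 4755760768)), (.ofNat (nat_lit 51024888833845141947151987209600)), (.ofNat (nat_lit 33775594480)), (.ofNat (nat_lit 33775594512)), (.negSucc (nat_lit 10725521115619457991004)), (.ofNat (nat_lit 10725522483987337457175)), (.negSucc (nat_lit 10725521115619457991004)), (.ofNat (nat_lit 10725522483987337457175)), (.ofNat (nat_lit 0))⟩,
    ⟨nat_lit 1, nat_lit 1, nat_lit 2, (.ofNat (nat_lit 8)), (.ofNat (nat_lit 48654795008)), (.ofNat (nat_lit 716038597934546112441428951913600)), (.ofNat (nat_lit 6409238208)), (.ofNat (nat_lit 68759298293330965678257815841600)), (.ofNat (nat_lit 48654794992)), (.ofNat (nat_lit 48654795024)), (.ofNat (nat_lit 10725522483987337457175)), (.negSucc (nat_lit 10725522483987337457174)), (.negSucc (nat_lit 10725522483987337457174)), (.ofNat (nat_lit 10725522483987337457175)), (.ofNat (nat_lit 0))⟩,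
    ⟨nat_lit 0, nat_lit 3, nat_lit 2, (.ofNat (nat_lit 8)), (.ofNat (nat_lit 32385353856)), (.ofNat (nat_lit 890536854812230961514102934579200)), (.ofNat (nat_lit 6408189632)), (.ofNat (nat_lit 68770544818795135184619310574400)), (.ofNat (nat_lit 32385353840)), (.ofNat (nat_lit 32385353872)), (.ofNat (nat_lit 10725522483987337457175)), (.negSucc (nat_lit 10725522483987337457174)), (.negSucc (nat_lit 10725522483987337457174)), (.ofNat (nat_lit 10725522483987337457175)), (.ofNat (nat_lit 0))⟩,
    ⟨nat_lit 2, nat_lit 4, nat_lit 3, (.ofNat (nat_lit 8)), (.negSucc (nat_lit 22702671423)), (.ofNat (nat_lit 299689001073128120473355617195200)), (.ofNat (nat_lit 285899904)), (.ofNat (nat_lit 3105788687646414588487168176000)), (.negSucc (nat_lit 22702671439)), (.negSucc (nat_lit 22702671407)), (.negSucc (nat_lit 10725522483987337457174)), (.ofNat (nat_lit 10725522483987337457175)), (.negSucc (nat_lit 10725522483987337457174)), (.ofNat (nat_lit 10725522483987337457175)), (.ofNat (nat_lit 0))⟩,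
    ⟨nat_lit 0, nat_lit 5, nat_lit 6, (.ofNat (nat_lit 8)), (.ofNat (nat_lit 7415348416)), (.ofNat (nat_lit 520578224093765763674413571409600)), (.ofNat (nat_lit 3104760256)), (.ofNat (nat_lit 33322668984046620757020031502400)), (.ofNat (nat_lit 7415348400)), (.ofNat (nat_lit 7415348432)), (.ofNat (nat_lit 10725522483987337457175)), (.negSucc (nat_lit 10725522483987337457174)), (.negSucc (nat_lit 10725522483987337457174)), (.ofNat (nat_lit 10725522483987337457175)), (.ofNat (nat_lit 0))⟩,
    ⟨nat_lit 0, nat_lit 6, nat_lit 7, (.ofNat (nat_lit 8)), (.ofNat (nat_lit 27957260800)), (.ofNat (nat_lit 300255480955075834663683369254400)), (.ofNat (nat_lit 3105808832)), (.ofNat (nat_lit 33311422458582451250658536769600)), (.ofNat (nat_lit 27957260784)), (.ofNat (nat_lit 27957260816)), (.negSucc (nat_lit 10725522483987337457174)), (.ofNat (nat_lit 10725523316307587937665)), (.negSucc (nat_lit 10725522483987337457174)), (.ofNat (nat_lit 10725523316307587937665)), (.ofNat (nat_lit 0))⟩,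
    ⟨nat_lit 1, nat_lit 7, nat_lit 8, (.ofNat (nat_lit 8)), (.ofNat (nat_lit 42809711424)), (.ofNat (nat_lit 459555786427095018504390771607360)), (.ofNat (nat_lit 4756547136)), (.ofNat (nat_lit 51016454627256494505210516589760)), (.ofNat (nat_lit 42809711408)), (.ofNat (nat_lit 42809711440)), (.ofNat (nat_lit 10725523316307587937665)), (.negSucc (nat_lit 10725521115619457991004)), (.negSucc (nat_lit 10725521115619457991004)), (.ofNat (nat_lit 10725523316307587937665)), (.ofNat (nat_lit 0))⟩,
    ⟨nat_lit 0, nat_lit 14, nat_lit 8, (.ofNat (nat_lit 8)), (.ofNat (nat_lit 39459661312)), (.ofNat (nat_lit 495486819641734348696536366849920)), (.ofNat (nat_lit 4756022848)), (.ofNat (nat_lit 51022077889271160399601704619200)), (.ofNat (nat_lit 39459661296)), (.ofNat (nat_lit 39459661328)), (.negSucc (nat_lit 10725521115619457991004)), (.negSucc (nat_lit 10725521115619457991004)), (.negSucc (nat_lit 10725521115619457991004)), (.negSucc (nat_lit 10725521115619457991004)), (.ofNat (nat_lit 0))⟩,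
    ⟨nat_lit 1, nat_lit 9, nat_lit 13, (.ofNat (nat_lit 8)), (.negSucc (nat_lit 8890135679)), (.ofNat (nat_lit 417436437221848994285257784966400)), (.ofNat (nat_lit 1664155904)), (.ofNat (nat_lit 17877057878872696856501860243200)), (.negSucc (nat_lit 8890135695)), (.negSucc (nat_lit 8890135663)), (.ofNat (nat_lit 10725522483987337457175)), (.negSucc (nat_lit 10725522483987337457174)), (.negSucc (nat_lit 10725522483987337457174)), (.ofNat (nat_lit 10725522483987337457175)), (.ofNat (nat_lit 0))⟩,
    ⟨nat_lit 0, nat_lit 4, nat_lit 9, (.ofNat (nat_lit 8)), (.negSucc (nat_lit 21285527103)), (.ofNat (nat_lit 284489387805913174243996822699200)), (.ofNat (nat_lit 286424192)), (.ofNat (nat_lit 3100165424914329835306420809600)), (.negSucc (nat_lit 21285527119)), (.negSucc (nat_lit 21285527087)), (.negSucc (nat_lit 10725522483987337457174)), (.ofNat (nat_lit 10725522483987337457175)), (.negSucc (nat_lit 10725522483987337457174)), (.ofNat (nat_lit 10725522483987337457175)), (.ofNat (nat_lit 0))⟩,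
    ⟨nat_lit 0, nat_lit 15, nat_lit 10, (.ofNat (nat_lit 8)), (.negSucc (nat_lit 1505382399)), (.ofNat (nat_lit 16832049458646281568563982902400)), (.negSucc (nat_lit 262143)), (.ofNat (nat_lit 2811631366042376590373683200)), (.negSucc (nat_lit 1505382415)), (.negSucc (nat_lit 1505382383)), (.negSucc (nat_lit 10725522483987337457174)), (.ofNat (nat_lit 10725522483987337457175)), (.negSucc (nat_lit 10725522483987337457174)), (.ofNat (nat_lit 10725522483987337457175)), (.ofNat (nat_lit 0))⟩,
    ⟨nat_lit 1, nat_lit 10, nat_lit 11, (.ofNat (nat_lit 8)), (.ofNat (nat_lit 5593314688)), (.ofNat (nat_lit 92969284683005720604685480108800)), (.ofNat (nat_lit 788947968)), (.ofNat (nat_lit 8467502432212207177749250636800)), (.ofNat (nat_lit 5593314672)), (.ofNat (nat_lit 5593314704)), (.ofNat (nat_lit 10725522483987337457175)), (.negSucc (nat_lit 10725522483987337457174)), (.negSucc (nat_lit 10725522483987337457174)), (.ofNat (nat_lit 10725522483987337457175)), (.ofNat (nat_lit 0))⟩,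
    ⟨nat_lit 2, nat_lit 11, nat_lit 12, (.ofNat (nat_lit 8)), (.negSucc (nat_lit 18092067199)), (.ofNat (nat_lit 347007380664576173234202200755200)), (.ofNat (nat_lit 787637248)), (.ofNat (nat_lit 8481560589042419060701119052800)), (.negSucc (nat_lit 18092067215)), (.negSucc (nat_lit 18092067183)), (.negSucc (nat_lit 10725522483987337457174)), (.ofNat (nat_lit 10725522483987337457175)), (.negSucc (nat_lit 10725522483987337457174)), (.ofNat (nat_lit 10725522483987337457175)), (.ofNat (nat_lit 0))⟩,
    ⟨nat_lit 0, nat_lit 12, nat_lit 13, (.ofNat (nat_lit 8)), (.negSucc (nat_lit 10207855487)), (.ofNat (nat_lit 431569670650148471673757634188800)), (.ofNat (nat_lit 1663893760)), (.ofNat (nat_lit 17879869510238739233092233926400)), (.negSucc (nat_lit 10207855503)), (.negSucc (nat_lit 10207855471)), (.ofNat (nat_lit 10725522483987337457175)), (.negSucc (nat_lit 10725522483987337457174)), (.negSucc (nat_lit 10725522483987337457174)), (.ofNat (nat_lit 10725522483987337457175)), (.ofNat (nat_lit 0))⟩,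
    ⟨nat_lit 2, nat_lit 15, nat_lit 5, (.ofNat (nat_lit 8)), (.negSucc (nat_lit 20528543103)), (.ofNat (nat_lit 220865387305902668717482725753600)), (.negSucc (nat_lit 1048575)), (.ofNat (nat_lit 11246525464169506361494732800)), (.negSucc (nat_lit 20528543119)), (.negSucc (nat_lit 20528543087)), (.negSucc (nat_lit 10725522483987337457174)), (.ofNat (nat_lit 10725522483987337457175)), (.negSucc (nat_lit 10725522483987337457174)), (.ofNat (nat_lit 10725522483987337457175)), (.ofNat (nat_lit 0))⟩]
  es := [
    ⟨nat_lit 1, nat_lit 0, (.ofNat (nat_lit 33775594496)), (.ofNat (nat_lit 39459661248)), (.ofNat (nat_lit 33775594512)), (.ofNat (nat_lit 39459661232)), (.negSucc (nat_lit 10725521115619457991004)), (.ofNat (nat_lit 0)), (.ofNat (nat_lit 102032901371863752278197663101440))⟩,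
    ⟨nat_lit 1, nat_lit 2, (.ofNat (nat_lit 33775594496)), (.ofNat (nat_lit 48654795008)), (.ofNat (nat_lit 33775594512)), (.ofNat (nat_lit 48654794992)), (.ofNat (nat_lit 10725522483987337457175)), (.ofNat (nat_lit 0)), (.ofNat (nat_lit 16869788196254259542242099200))⟩,
    ⟨nat_lit 3, nat_lit 2, (.ofNat (nat_lit 32385353856)), (.ofNat (nat_lit 48654795008)), (.ofNat (nat_lit 32385353872)), (.ofNat (nat_lit 48654794992)), (.negSucc (nat_lit 10725522483987337457174)), (.ofNat (nat_lit 0)), (.ofNat (nat_lit 137501726798465677096973389584000))⟩,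
    ⟨nat_lit 4, nat_lit 3, (.negSucc (nat_lit 22702671423)), (.ofNat (nat_lit 32385353856)), (.negSucc (nat_lit 22702671407)), (.ofNat (nat_lit 32385353840)), (.ofNat (nat_lit 10725522483987337457175)), (.ofNat (nat_lit 0)), (.ofNat (nat_lit 39362839124593272265231564800))⟩,
    ⟨nat_lit 4, nat_lit 10, (.negSucc (nat_lit 22702671423)), (.negSucc (nat_lit 21285527103)), (.negSucc (nat_lit 22702671407)), (.negSucc (nat_lit 21285527119)), (.negSucc (nat_lit 10725522483987337457174)), (.ofNat (nat_lit 0)), (.ofNat (nat_lit 6172214536168235904709104787200))⟩,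
    ⟨nat_lit 15, nat_lit 5, (.negSucc (nat_lit 20528543103)), (.ofNat (nat_lit 7415348416)), (.negSucc (nat_lit 20528543087)), (.ofNat (nat_lit 7415348400)), (.ofNat (nat_lit 10725522483987337457175)), (.ofNat (nat_lit 0)), (.ofNat (nat_lit 22493050928339012722989465600))⟩,
    ⟨nat_lit 5, nat_lit 6, (.ofNat (nat_lit 7415348416)), (.ofNat (nat_lit 27957260800)), (.ofNat (nat_lit 7415348432)), (.ofNat (nat_lit 27957260784)), (.negSucc (nat_lit 10725522483987337457174)), (.ofNat (nat_lit 0)), (.ofNat (nat_lit 66622844917164902501317073539200))⟩,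
    ⟨nat_lit 6, nat_lit 7, (.ofNat (nat_lit 27957260800)), (.ofNat (nat_lit 42809711424)), (.ofNat (nat_lit 27957260816)), (.ofNat (nat_lit 42809711408)), (.ofNat (nat_lit 10725523316307587937665)), (.ofNat (nat_lit 0)), (.negSucc (nat_lit 2585027584994758085687679))⟩,
    ⟨nat_lit 8, nat_lit 7, (.ofNat (nat_lit 39459661312)), (.ofNat (nat_lit 42809711424)), (.ofNat (nat_lit 39459661328)), (.ofNat (nat_lit 42809711408)), (.negSucc (nat_lit 10725521115619457991004)), (.ofNat (nat_lit 0)), (.ofNat (nat_lit 102032901371863752278197663101440))⟩,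
    ⟨nat_lit 10, nat_lit 9, (.negSucc (nat_lit 21285527103)), (.negSucc (nat_lit 8890135679)), (.negSucc (nat_lit 21285527087)), (.negSucc (nat_lit 8890135695)), (.ofNat (nat_lit 10725522483987337457175)), (.ofNat (nat_lit 0)), (.ofNat (nat_lit 28116313660423765903736832000))⟩,
    ⟨nat_lit 11, nat_lit 12, (.negSucc (nat_lit 1505382399)), (.ofNat (nat_lit 5593314688)), (.negSucc (nat_lit 1505382383)), (.ofNat (nat_lit 5593314672)), (.ofNat (nat_lit 10725522483987337457175)), (.ofNat (nat_lit 0)), (.ofNat (nat_lit 5623262732084753180747366400))⟩,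
    ⟨nat_lit 13, nat_lit 12, (.negSucc (nat_lit 18092067199)), (.ofNat (nat_lit 5593314688)), (.negSucc (nat_lit 18092067183)), (.ofNat (nat_lit 5593314672)), (.negSucc (nat_lit 10725522483987337457174)), (.ofNat (nat_lit 0)), (.ofNat (nat_lit 16929381601692329602317753907200))⟩,
    ⟨nat_lit 13, nat_lit 14, (.negSucc (nat_lit 18092067199)), (.negSucc (nat_lit 10207855487)), (.negSucc (nat_lit 18092067183)), (.negSucc (nat_lit 10207855503)), (.ofNat (nat_lit 10725522483987337457175)), (.ofNat (nat_lit 0)), (.ofNat (nat_lit 33739576392508519084484198400))⟩,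
    ⟨nat_lit 14, nat_lit 9, (.negSucc (nat_lit 10207855487)), (.negSucc (nat_lit 8890135679)), (.negSucc (nat_lit 10207855471)), (.negSucc (nat_lit 8890135695)), (.negSucc (nat_lit 10725522483987337457174)), (.ofNat (nat_lit 0)), (.ofNat (nat_lit 35725999444084969947099983654400))⟩,
    ⟨nat_lit 0, nat_lit 8, (.ofNat (nat_lit 39459661248)), (.ofNat (nat_lit 39459661312)), (.ofNat (nat_lit 39459661264)), (.ofNat (nat_lit 39459661296)), (.negSucc (nat_lit 10725521115619457991004)), (.ofNat (nat_lit 0)), (.ofNat (nat_lit 102032901371863752278197663101440))⟩,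
    ⟨nat_lit 15, nat_lit 11, (.negSucc (nat_lit 20528543103)), (.negSucc (nat_lit 1505382399)), (.negSucc (nat_lit 20528543087)), (.negSucc (nat_lit 1505382415)), (.negSucc (nat_lit 10725522483987337457174)), (.ofNat (nat_lit 0)), (.ofNat (nat_lit 0))⟩]

theorem ok148 : stOK 15 15 S148 = true := by decide +kernel

def S149 : SD where
  vs := [
    ⟨nat_lit 2, nat_lit 0, nat_lit 1, (.ofNat (nat_lit 8)), (.ofNat (nat_lit 33775594496)), (.ofNat (nat_lit 556451398299334209147113913840000)), (.ofNat (nat_lit 4755760768)), (.ofNat (nat_lit 51024888833845141947151987209600)), (.ofNat (nat_lit 33775594480)), (.ofNat (nat_lit 33775594512)), (.negSucc (nat_lit 10725521115619457991004)), (.ofNat (nat_lit 10725522483987337457175)), (.negSucc (nat_lit 10725521115619457991004)), (.ofNat (nat_lit 10725522483987337457175)), (.ofNat (nat_lit 0))⟩,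
    ⟨nat_lit 1, nat_lit 1, nat_lit 2, (.ofNat (nat_lit 8)), (.ofNat (nat_lit 48654795008)), (.ofNat (nat_lit 716038597934546112441428951913600)), (.ofNat (nat_lit 6409238208)), (.ofNat (nat_lit 68759298293330965678257815841600)), (.ofNat (nat_lit 48654794992)), (.ofNat (nat_lit 48654795024)), (.ofNat (nat_lit 10725522483987337457175)), (.negSucc (nat_lit 10725522483987337457174)), (.negSucc (nat_lit 10725522483987337457174)), (.ofNat (nat_lit 10725522483987337457175)), (.ofNat (nat_lit 0))⟩,
    ⟨nat_lit 0, nat_lit 3, nat_lit 2, (.ofNat (nat_lit 8)), (.ofNat (nat_lit 32385353856)), (.ofNat (nat_lit 890536854812230961514102934579200)), (.ofNat (nat_lit 6408189632)), (.ofNat (nat_lit 68770544818795135184619310574400)), (.ofNat (nat_lit 32385353840)), (.ofNat (nat_lit 32385353872)), (.ofNat (nat_lit 10725522483987337457175)), (.negSucc (nat_lit 10725522483987337457174)), (.negSucc (nat_lit 10725522483987337457174)), (.ofNat (nat_lit 10725522483987337457175)), (.ofNat (nat_lit 0))⟩,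
    ⟨nat_lit 2, nat_lit 4, nat_lit 3, (.ofNat (nat_lit 8)), (.negSucc (nat_lit 22702671423)), (.ofNat (nat_lit 299689001073128120473355617195200)), (.ofNat (nat_lit 285899904)), (.ofNat (nat_lit 3105788687646414588487168176000)), (.negSucc (nat_lit 22702671439)), (.negSucc (nat_lit 22702671407)), (.negSucc (nat_lit 10725522483987337457174)), (.ofNat (nat_lit 10725522483987337457175)), (.negSucc (nat_lit 10725522483987337457174)), (.ofNat (nat_lit 10725522483987337457175)), (.ofNat (nat_lit 0))⟩,
    ⟨nat_lit 0, nat_lit 5, nat_lit 6, (.ofNat (nat_lit 8)), (.ofNat (nat_lit 7415348416)), (.ofNat (nat_lit 520578224093765763674413571409600)), (.ofNat (nat_lit 3104760256)), (.ofNat (nat_lit 33322668984046620757020031502400)), (.ofNat (nat_lit 7415348400)), (.ofNat (nat_lit 7415348432)), (.ofNat (nat_lit 10725522483987337457175)), (.negSucc (nat_lit 10725522483987337457174)), (.negSucc (nat_lit 10725522483987337457174)), (.ofNat (nat_lit 10725522483987337457175)), (.ofNat (nat_lit 0))⟩,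
    ⟨nat_lit 0, nat_lit 6, nat_lit 7, (.ofNat (nat_lit 8)), (.ofNat (nat_lit 27957260800)), (.ofNat (nat_lit 300255480955075834663683369254400)), (.ofNat (nat_lit 3105808832)), (.ofNat (nat_lit 33311422458582451250658536769600)), (.ofNat (nat_lit 27957260784)), (.ofNat (nat_lit 27957260816)), (.negSucc (nat_lit 10725522483987337457174)), (.ofNat (nat_lit 10725523316307587937665)), (.negSucc (nat_lit 10725522483987337457174)), (.ofNat (nat_lit 10725523316307587937665)), (.ofNat (nat_lit 0))⟩,
    ⟨nat_lit 1, nat_lit 7, nat_lit 8, (.ofNat (nat_lit 8)), (.ofNat (nat_lit 42809711424)), (.ofNat (nat_lit 459555786427095018504390771607360)), (.ofNat (nat_lit 4756547136)), (.ofNat (nat_lit 51016454627256494505210516589760)), (.ofNat (nat_lit 42809711408)), (.ofNat (nat_lit 42809711440)), (.ofNat (nat_lit 10725523316307587937665)), (.negSucc (nat_lit 10725521115619457991004)), (.negSucc (nat_lit 10725521115619457991004)), (.ofNat (nat_lit 10725523316307587937665)), (.ofNat (nat_lit 0))⟩,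
    ⟨nat_lit 0, nat_lit 0, nat_lit 8, (.ofNat (nat_lit 8)), (.ofNat (nat_lit 39459661312)), (.ofNat (nat_lit 495486819641734348696536366849920)), (.ofNat (nat_lit 4756022848)), (.ofNat (nat_lit 51022077889271160399601704619200)), (.ofNat (nat_lit 39459661296)), (.ofNat (nat_lit 39459661328)), (.negSucc (nat_lit 10725521115619457991004)), (.negSucc (nat_lit 10725521115619457991004)), (.negSucc (nat_lit 10725521115619457991004)), (.negSucc (nat_lit 10725521115619457991004)), (.ofNat (nat_lit 0))⟩,
    ⟨nat_lit 1, nat_lit 9, nat_lit 13, (.ofNat (nat_lit 8)), (.negSucc (nat_lit 8890135679)), (.ofNat (nat_lit 417436437221848994285257784966400)), (.ofNat (nat_lit 1664155904)), (.ofNat (nat_lit 17877057878872696856501860243200)), (.negSucc (nat_lit 8890135695)), (.negSucc (nat_lit 8890135663)), (.ofNat (nat_lit 10725522483987337457175)), (.negSucc (nat_lit 10725522483987337457174)), (.negSucc (nat_lit 10725522483987337457174)), (.ofNat (nat_lit 10725522483987337457175)), (.ofNat (nat_lit 0))⟩,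
    ⟨nat_lit 0, nat_lit 4, nat_lit 9, (.ofNat (nat_lit 8)), (.negSucc (nat_lit 21285527103)), (.ofNat (nat_lit 284489387805913174243996822699200)), (.ofNat (nat_lit 286424192)), (.ofNat (nat_lit 3100165424914329835306420809600)), (.negSucc (nat_lit 21285527119)), (.negSucc (nat_lit 21285527087)), (.negSucc (nat_lit 10725522483987337457174)), (.ofNat (nat_lit 10725522483987337457175)), (.negSucc (nat_lit 10725522483987337457174)), (.ofNat (nat_lit 10725522483987337457175)), (.ofNat (nat_lit 0))⟩,
    ⟨nat_lit 0, nat_lit 14, nat_lit 10, (.ofNat (nat_lit 8)), (.negSucc (nat_lit 1505382399)), (.ofNat (nat_lit 16832049458646281568563982902400)), (.negSucc (nat_lit 262143)), (.ofNat (nat_lit 2811631366042376590373683200)), (.negSucc (nat_lit 1505382415)), (.negSucc (nat_lit 1505382383)), (.negSucc (nat_lit 10725522483987337457174)), (.ofNat (nat_lit 10725522483987337457175)), (.negSucc (nat_lit 10725522483987337457174)), (.ofNat (nat_lit 10725522483987337457175)), (.ofNat (nat_lit 0))⟩,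
    ⟨nat_lit 1, nat_lit 10, nat_lit 11, (.ofNat (nat_lit 8)), (.ofNat (nat_lit 5593314688)), (.ofNat (nat_lit 92969284683005720604685480108800)), (.ofNat (nat_lit 788947968)), (.ofNat (nat_lit 8467502432212207177749250636800)), (.ofNat (nat_lit 5593314672)), (.ofNat (nat_lit 5593314704)), (.ofNat (nat_lit 10725522483987337457175)), (.negSucc (nat_lit 10725522483987337457174)), (.negSucc (nat_lit 10725522483987337457174)), (.ofNat (nat_lit 10725522483987337457175)), (.ofNat (nat_lit 0))⟩,
    ⟨nat_lit 2, nat_lit 11, nat_lit 12, (.ofNat (nat_lit 8)), (.negSucc (nat_lit 18092067199)), (.ofNat (nat_lit 347007380664576173234202200755200)), (.ofNat (nat_lit 787637248)), (.ofNat (nat_lit 8481560589042419060701119052800)), (.negSucc (nat_lit 18092067215)), (.negSucc (nat_lit 18092067183)), (.negSucc (nat_lit 10725522483987337457174)), (.ofNat (nat_lit 10725522483987337457175)), (.negSucc (nat_lit 10725522483987337457174)), (.ofNat (nat_lit 10725522483987337457175)), (.ofNat (nat_lit 0))⟩,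
    ⟨nat_lit 0, nat_lit 12, nat_lit 13, (.ofNat (nat_lit 8)), (.negSucc (nat_lit 10207855487)), (.ofNat (nat_lit 431569670650148471673757634188800)), (.ofNat (nat_lit 1663893760)), (.ofNat (nat_lit 17879869510238739233092233926400)), (.negSucc (nat_lit 10207855503)), (.negSucc (nat_lit 10207855471)), (.ofNat (nat_lit 10725522483987337457175)), (.negSucc (nat_lit 10725522483987337457174)), (.negSucc (nat_lit 10725522483987337457174)), (.ofNat (nat_lit 10725522483987337457175)), (.ofNat (nat_lit 0))⟩,
    ⟨nat_lit 2, nat_lit 14, nat_lit 5, (.ofNat (nat_lit 8)), (.negSucc (nat_lit 20528543103)), (.ofNat (nat_lit 220865387305902668717482725753600)), (.negSucc (nat_lit 1048575)), (.ofNat (nat_lit 11246525464169506361494732800)), (.negSucc (nat_lit 20528543119)), (.negSucc (nat_lit 20528543087)), (.negSucc (nat_lit 10725522483987337457174)), (.ofNat (nat_lit 10725522483987337457175)), (.negSucc (nat_lit 10725522483987337457174)), (.ofNat (nat_lit 10725522483987337457175)), (.ofNat (nat_lit 0))⟩]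
  es := [
    ⟨nat_lit 0, nat_lit 7, (.ofNat (nat_lit 33775594496)), (.ofNat (nat_lit 39459661312)), (.ofNat (nat_lit 33775594512)), (.ofNat (nat_lit 39459661296)), (.negSucc (nat_lit 10725521115619457991004)), (.ofNat (nat_lit 0)), (.ofNat (nat_lit 102032901371863752278197663101440))⟩,
    ⟨nat_lit 0, nat_lit 1, (.ofNat (nat_lit 33775594496)), (.ofNat (nat_lit 48654795008)), (.ofNat (nat_lit 33775594512)), (.ofNat (nat_lit 48654794992)), (.ofNat (nat_lit 10725522483987337457175)), (.ofNat (nat_lit 0)), (.ofNat (nat_lit 16869788196254259542242099200))⟩,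
    ⟨nat_lit 2, nat_lit 1, (.ofNat (nat_lit 32385353856)), (.ofNat (nat_lit 48654795008)), (.ofNat (nat_lit 32385353872)), (.ofNat (nat_lit 48654794992)), (.negSucc (nat_lit 10725522483987337457174)), (.ofNat (nat_lit 0)), (.ofNat (nat_lit 137501726798465677096973389584000))⟩,
    ⟨nat_lit 3, nat_lit 2, (.negSucc (nat_lit 22702671423)), (.ofNat (nat_lit 32385353856)), (.negSucc (nat_lit 22702671407)), (.ofNat (nat_lit 32385353840)), (.ofNat (nat_lit 10725522483987337457175)), (.ofNat (nat_lit 0)), (.ofNat (nat_lit 39362839124593272265231564800))⟩,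
    ⟨nat_lit 3, nat_lit 9, (.negSucc (nat_lit 22702671423)), (.negSucc (nat_lit 21285527103)), (.negSucc (nat_lit 22702671407)), (.negSucc (nat_lit 21285527119)), (.negSucc (nat_lit 10725522483987337457174)), (.ofNat (nat_lit 0)), (.ofNat (nat_lit 6172214536168235904709104787200))⟩,
    ⟨nat_lit 14, nat_lit 4, (.negSucc (nat_lit 20528543103)), (.ofNat (nat_lit 7415348416)), (.negSucc (nat_lit 20528543087)), (.ofNat (nat_lit 7415348400)), (.ofNat (nat_lit 10725522483987337457175)), (.ofNat (nat_lit 0)), (.ofNat (nat_lit 22493050928339012722989465600))⟩,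
    ⟨nat_lit 4, nat_lit 5, (.ofNat (nat_lit 7415348416)), (.ofNat (nat_lit 27957260800)), (.ofNat (nat_lit 7415348432)), (.ofNat (nat_lit 27957260784)), (.negSucc (nat_lit 10725522483987337457174)), (.ofNat (nat_lit 0)), (.ofNat (nat_lit 66622844917164902501317073539200))⟩,
    ⟨nat_lit 5, nat_lit 6, (.ofNat (nat_lit 27957260800)), (.ofNat (nat_lit 42809711424)), (.ofNat (nat_lit 27957260816)), (.ofNat (nat_lit 42809711408)), (.ofNat (nat_lit 10725523316307587937665)), (.ofNat (nat_lit 0)), (.negSucc (nat_lit 2585027584994758085687679))⟩,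
    ⟨nat_lit 7, nat_lit 6, (.ofNat (nat_lit 39459661312)), (.ofNat (nat_lit 42809711424)), (.ofNat (nat_lit 39459661328)), (.ofNat (nat_lit 42809711408)), (.negSucc (nat_lit 10725521115619457991004)), (.ofNat (nat_lit 0)), (.ofNat (nat_lit 102032901371863752278197663101440))⟩,
    ⟨nat_lit 9, nat_lit 8, (.negSucc (nat_lit 21285527103)), (.negSucc (nat_lit 8890135679)), (.negSucc (nat_lit 21285527087)), (.negSucc (nat_lit 8890135695)), (.ofNat (nat_lit 10725522483987337457175)), (.ofNat (nat_lit 0)), (.ofNat (nat_lit 28116313660423765903736832000))⟩,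
    ⟨nat_lit 10, nat_lit 11, (.negSucc (nat_lit 1505382399)), (.ofNat (nat_lit 5593314688)), (.negSucc (nat_lit 1505382383)), (.ofNat (nat_lit 5593314672)), (.ofNat (nat_lit 10725522483987337457175)), (.ofNat (nat_lit 0)), (.ofNat (nat_lit 5623262732084753180747366400))⟩,
    ⟨nat_lit 12, nat_lit 11, (.negSucc (nat_lit 18092067199)), (.ofNat (nat_lit 5593314688)), (.negSucc (nat_lit 18092067183)), (.ofNat (nat_lit 5593314672)), (.negSucc (nat_lit 10725522483987337457174)), (.ofNat (nat_lit 0)), (.ofNat (nat_lit 16929381601692329602317753907200))⟩,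
    ⟨nat_lit 12, nat_lit 13, (.negSucc (nat_lit 18092067199)), (.negSucc (nat_lit 10207855487)), (.negSucc (nat_lit 18092067183)), (.negSucc (nat_lit 10207855503)), (.ofNat (nat_lit 10725522483987337457175)), (.ofNat (nat_lit 0)), (.ofNat (nat_lit 33739576392508519084484198400))⟩,
    ⟨nat_lit 13, nat_lit 8, (.negSucc (nat_lit 10207855487)), (.negSucc (nat_lit 8890135679)), (.negSucc (nat_lit 10207855471)), (.negSucc (nat_lit 8890135695)), (.negSucc (nat_lit 10725522483987337457174)), (.ofNat (nat_lit 0)), (.ofNat (nat_lit 35725999444084969947099983654400))⟩,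
    ⟨nat_lit 14, nat_lit 10, (.negSucc (nat_lit 20528543103)), (.negSucc (nat_lit 1505382399)), (.negSucc (nat_lit 20528543087)), (.negSucc (nat_lit 1505382415)), (.negSucc (nat_lit 10725522483987337457174)), (.ofNat (nat_lit 0)), (.ofNat (nat_lit 0))⟩]

theorem ok149 : stOK 14 14 S149 = true := by decide +kernel

end LCA.CapJ


end
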