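import Mathlib
import Pool.Agent.NDM.C01
import Pool.Agent.NDM.C04
import Pool.Agent.NDM.C05
import Pool.Agent.NDM.C06
import Pool.Agent.NDM.C07
import Pool.Agent.NDM.C08
import Pool.Agent.NDM.C09
import Pool.Agent.NDM.C10
import Pool.Agent.NDM.C12
import Pool.Agent.NDM.C13
import Pool.Agent.NDM.C14

/-! Parts: LCA.RST, LCA.PST, LCA.VLN, LCA.PCL, LCA.PCH, LCA.CVE, LCA.SM2, LCA.EQA, LCA.TEX, LCA.TTO, LCA.SDP, LCA.DTG, LCA.INS, LCA.WEQ, LCA.WID, LCA.GOC, LCA.SVL, LCA.GEE, LCA.GVE, LCA.CB2, LCA.STV, LCA.STI, LCA.STM, LCA.All, LCA.CapJ.C4 -/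

section

/-!
# RST: restriction of a good surface to a smaller interval
-/

namespace LCA

open Set Filter
open scoped ContDiff Topology

namespace RST

theorem good_mono {J J' : Set ℝ} {A : Set E5} (hJ : J' ⊆ J) (h : Good J A) : Good J' A where
  closed q hq hq1 := h.closed q hq (hJ hq1)
  bounded K hK hKc := h.bounded K (hK.trans hJ) hKc
  chart q hq hq1 := h.chart q hq (hJ hq1)
  inj q hq q' hq' hq1 h1 h2 h3 h4 := h.inj q hq q' hq' (hJ hq1) h1 h2 h3 h4

end RST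

theorem t_RST : Stmt_RST := fun _ _ _ _ hJ h => RST.good_mono hJ h

end LCA


end

section

/-!
# Module PST: the static profiles
-/

namespace LCA

open Set Filter
open scoped ContDiff Topology

namespace PST

/-- `ξ` takes the same value at `u` and at `|u|`. -/
theorem xi_abs (sh : Shape) (u : ℝ) : sh.ξ |u| = sh.ξ u := by
  rcases le_total 0 u with h | h
  · rw [abs_of_nonneg h]
  · rw [abs_of_nonpos h, sh.ξ_even]

/-- `ξ` determines the absolute value. -/
theorem abs_eq_of_xi (sh : Shape) {u u' : ℝ} (h : sh.ξ u = sh.ξ u') : |u| = |u'| := by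
  have h1 : sh.ξ |u| = sh.ξ |u'| := by rw [xi_abs, xi_abs, h]
  exact sh.ξ_anti.injOn (mem_Ici.2 (abs_nonneg u)) (mem_Ici.2 (abs_nonneg u')) h1

/-- `τ` is strictly increasing on `[-1, 1]`. -/
theorem tau_strict (sh : Shape) : StrictMonoOn sh.τ (Icc (-1) 1) := by
  refine strictMonoOn_of_deriv_pos (convex_Icc (-1) 1) sh.τ_smooth.continuous.continuousOn ?_
  intro x hx
  rw [interior_Icc] at hx
  exact sh.τ_deriv x hx.1 hx.2

/-- `τ u = 1 / 2` only for `u = 0`. -/
theorem tau_half (sh : Shape) {u : ℝ} (h : sh.τ u = 1 / 2) : u = 0 := by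
  have h0 : sh.τ 0 = 1 / 2 := by
    have := sh.τ_symm 0
    rw [neg_zero] at this
    linarith
  have hl : -1 < u := by
    by_contra hc
    rw [sh.τ_low u (not_lt.1 hc)] at h
    norm_num at h
  have hr : u < 1 := by
    by_contra hc
    rw [sh.τ_high u (not_lt.1 hc)] at h
    norm_num at h
  refine (tau_strict sh).injOn ⟨hl.le, hr.le⟩ ⟨by norm_num, by norm_num⟩ ?_
  rw [h, h0]

/-- The pair of `ξ` and `τ` is injective. -/
theorem inj (sh : Shape) {u u' : ℝ} (h : sh.ξ u = sh.ξ u') (h' : sh.τ u = sh.τ u') : u = u' := by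
  rcases abs_eq_abs.1 (abs_eq_of_xi sh h) with h1 | h1
  · exact h1
  · have h2 : sh.τ u' = 1 / 2 := by
      have h3 := sh.τ_symm u'
      rw [h1] at h'
      linarith
    have h4 := tau_half sh h2
    rw [h1, h4, neg_zero]

theorem X_smooth (sh : Shape) (t : Ty) : ContDiff ℝ ∞ (fun a : ℝ × ℝ => (sh.st t).X a.1 a.2) := by
  cases t
  · exact contDiff_snd
  · exact sh.ξ_smooth.comp contDiff_snd
  · exact (sh.ξ_smooth.comp contDiff_snd).neg

theorem Θ_smooth (sh : Shape) (t : Ty) : ContDiff ℝ ∞ (fun a : ℝ × ℝ => (sh.st t).Θ a.1 a.2) := by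
  cases t
  · exact sh.ΘP_smooth.comp contDiff_snd
  · exact sh.ΘR_smooth.comp contDiff_snd
  · exact (sh.ΘR_smooth.comp contDiff_snd).neg

theorem dΘ (sh : Shape) (t : Ty) (s u : ℝ) :
    HasDerivAt ((sh.st t).Θ s) ((sh.st t).P s u * deriv ((sh.st t).X s) u) u := by
  cases t
  · have h : deriv ((sh.st .P).X s) u = 1 := by
      change deriv (fun u : ℝ => u) u = 1
      exact deriv_id u
    rw [h, mul_one]
    exact sh.ΘP_deriv u
  · exact sh.ΘR_deriv u
  · have h : deriv ((sh.st .L).X s) u = -deriv sh.ξ u := by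
      change deriv (fun u : ℝ => -sh.ξ u) u = _
      exact deriv.fun_neg
    rw [h]
    have h2 := (sh.ΘR_deriv u).neg
    have h3 : (sh.st .L).P s u * -deriv sh.ξ u = -(sh.τ u * deriv sh.ξ u) := by
      change sh.τ u * -deriv sh.ξ u = _
      ring
    rw [h3]
    exact h2

theorem bd (sh : Shape) (t : Ty) (s : ℝ) : ProfBd t s (sh.st t) where
  low u hu := by
    have h1 : |u| = -u := abs_of_nonpos (by linarith)
    have h2 : sh.ξ u = u := by
      rw [sh.ξ_out u (by rw [h1]; linarith), h1, neg_neg]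
    refine ⟨?_, sh.τ_low u hu, ?_⟩
    · cases t
      · rfl
      · exact h2
      · change -sh.ξ u = -u
        rw [h2]
    · cases t
      · exact sh.ΘP_low u hu
      · exact sh.ΘR_low u hu
      · change -sh.ΘR u = 0
        rw [sh.ΘR_low u hu, neg_zero]
  high u hu := by
    have h1 : |u| = u := abs_of_nonneg (by linarith)
    have h2 : sh.ξ u = -u := by
      rw [sh.ξ_out u (by rw [h1]; linarith), h1]
    refine ⟨?_, sh.τ_high u hu, ?_⟩
    · cases t
      · rfl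
      · exact h2
      · change -sh.ξ u = u
        rw [h2, neg_neg]
    · cases t
      · exact sh.ΘP_high u hu
      · exact sh.ΘR_high u hu
      · change -sh.ΘR u = u
        rw [sh.ΘR_high u hu, neg_neg]
  X_bd u hu := by
    cases t
    · exact hu
    · exact sh.ξ_in u hu
    · change |-sh.ξ u| ≤ 1
      rw [abs_neg]
      exact sh.ξ_in u hu
  P_mem u := sh.τ_mem u
  Θ_bd u hu := by
    cases t
    · exact sh.ΘP_bd u hu
    · exact sh.ΘR_bd u hu
    · change |-sh.ΘR u| ≤ 2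
      rw [abs_neg]
      exact sh.ΘR_bd u hu
  Y_bd u _ := by
    change |(0 : ℝ)| ≤ 1000
    norm_num

end PST

/-- PST: the static profiles. -/
theorem t_PST : Stmt_PST := by
  intro sh J t D hD
  refine ⟨(PST.X_smooth sh t).contDiffOn, (sh.τ_smooth.comp contDiff_snd).contDiffOn,
    (PST.Θ_smooth sh t).contDiffOn, fun s _ u => PST.dΘ sh t s u, ?_, fun s _ => PST.bd sh t s,
    ?_, ?_⟩
  · intro s _ u
    have h1 : deriv (fun r => (sh.st t).Θ r u) s = 0 := by
      cases t <;> exact deriv_const s _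
    have h2 : deriv (fun r => (sh.st t).X r u) s = 0 := by
      cases t <;> exact deriv_const s _
    rw [h1, h2, mul_zero, sub_zero]
    rfl
  · intro s hs u hu
    have hu' := abs_lt.1 hu
    have hτ : deriv ((sh.st t).P s) u ≠ 0 := (sh.τ_deriv u hu'.1 hu'.2).ne'
    cases t
    · left
      change deriv (fun u : ℝ => u) u ≠ 0
      rw [show deriv (fun u : ℝ => u) u = 1 from deriv_id u]
      exact one_ne_zero
    · exact Or.inr (mul_ne_zero (hD s hs (by decide)) hτ)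
    · exact Or.inr (mul_ne_zero (hD s hs (by decide)) hτ)
  · intro s hs u u' _ _ hX hP
    cases t
    · exact hX
    · exact PST.inj sh hX (mul_left_cancel₀ (hD s hs (by decide)) hP)
    · exact PST.inj sh (neg_injective hX) (mul_left_cancel₀ (hD s hs (by decide)) hP)

end LCA


end

section

set_option autoImplicit false

namespace LCA

open Set Filter
open scoped ContDiff Topology

namespace VLN

variable {m n : ℕ}

lemma I1 (c : Comb m n) (q : St n) (e : Fin m) (i : Fin n)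
    (hne : q.1 (c.lf e) < q.1 (c.rt e)) (h : c.lf e = i ∨ c.rt e = i) :
    q.2 i = c.pe q e * q.1 i + c.ae q e := by
  have hd : q.1 (c.rt e) - q.1 (c.lf e) ≠ 0 := by
    have := sub_pos.2 hne
    exact this.ne'
  rcases h with h | h
  · subst h
    unfold Comb.ae
    ring
  · subst h
    have h1 : c.pe q e * (q.1 (c.rt e) - q.1 (c.lf e)) = q.2 (c.rt e) - q.2 (c.lf e) := by
      unfold Comb.pe
      exact div_mul_cancel₀ _ hd
    unfold Comb.ae
    linarith

lemma I2 (c : Comb m n) (q v : St n) (e : Fin m) (i : Fin n)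
    (hne : q.1 (c.lf e) < q.1 (c.rt e)) (h : c.lf e = i ∨ c.rt e = i) :
    v.2 i = c.dpe q v e * q.1 i + c.pe q e * v.1 i + c.dae q v e := by
  have hd : q.1 (c.rt e) - q.1 (c.lf e) ≠ 0 := by
    have := sub_pos.2 hne
    exact this.ne'
  rcases h with h | h
  · subst h
    unfold Comb.dae
    ring
  · subst h
    have h1 : c.dpe q v e * (q.1 (c.rt e) - q.1 (c.lf e)) =
        v.2 (c.rt e) - v.2 (c.lf e) - c.pe q e * (v.1 (c.rt e) - v.1 (c.lf e)) := by
      unfold Comb.dpe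
      exact div_mul_cancel₀ _ hd
    unfold Comb.dae
    linarith

lemma ends_a (c : Comb m n) (hv : c.Valid) (i : Fin n) :
    c.lf (c.ea i) = i ∨ c.rt (c.ea i) = i := by
  have h := hv.oka i
  unfold Comb.OKa at h
  rcases ht : c.ty i <;> rw [ht] at h
  · exact Or.inr h
  · exact Or.inr h
  · exact Or.inl h

lemma ends_b (c : Comb m n) (hv : c.Valid) (i : Fin n) :
    c.lf (c.eb i) = i ∨ c.rt (c.eb i) = i := by
  have h := hv.okb i
  unfold Comb.OKb at h
  rcases ht : c.ty i <;> rw [ht] at h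
  · exact Or.inl h
  · exact Or.inr h
  · exact Or.inl h

end VLN

theorem t_VLN : Stmt_VLN := by
  intro m n c w π s q v i hv hb hq
  have ha1 := VLN.I1 c q (c.ea i) i (hq _) (VLN.ends_a c hv i)
  have hb1 := VLN.I1 c q (c.eb i) i (hq _) (VLN.ends_b c hv i)
  have ha2 := VLN.I2 c q v (c.ea i) i (hq _) (VLN.ends_a c hv i)
  have hb2 := VLN.I2 c q v (c.eb i) i (hq _) (VLN.ends_b c hv i)
  refine ⟨?_, ?_⟩
  · intro u hu hY
    obtain ⟨hX, hP, hT⟩ := (hb i).low u hu
    simp only [Comb.vp, Comb.vpt, Comb.ept, Comb.dl, hX, hP, hT, hY, Prod.mk.injEq]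
    refine ⟨trivial, by ring, by ring, by ring⟩
  · intro u hu hY
    obtain ⟨hX, hP, hT⟩ := (hb i).high u hu
    have e1 : c.ae q (c.eb i) = c.ae q (c.ea i) - c.dl q i * q.1 i := by
      unfold Comb.dl
      linarith
    have e2 : c.dae q v (c.eb i) = c.dae q v (c.ea i)
        - (c.dpe q v (c.eb i) - c.dpe q v (c.ea i)) * q.1 i - c.dl q i * v.1 i := by
      unfold Comb.dl
      linarith
    simp only [Comb.vp, Comb.vpt, Comb.ept, hX, hP, hT, hY, Prod.mk.injEq, e1, e2]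
    refine ⟨trivial, ?_, ?_, ?_⟩
    · unfold Comb.dl
      ring
    · ring
    · unfold Comb.dl
      ring

end LCA


end

section

/-!
# PCL: closedness and boundedness of a phase
-/

namespace LCA

open Set Filter
open scoped ContDiff Topology

namespace PCL

/-- A set which over `J` is the union of the graphs of a continuous family with a compact set of
parameters is closed over `J` and bounded over compact sets. -/
theorem piece {J : Set ℝ} (hJ : IsOpen J) {Kp : Set ℝ} (hKp : IsCompact Kp)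
    {Φ : ℝ → ℝ → ℝ × ℝ × ℝ × ℝ} (hΦ : ContinuousOn (fun a : ℝ × ℝ => Φ a.1 a.2) (J ×ˢ Kp))
    {A : Set E5} (hA : ∀ r : E5, r.1 ∈ J → (r ∈ A ↔ ∃ k ∈ Kp, r.2 = Φ r.1 k)) :
    (∀ r ∈ closure A, r.1 ∈ J → r ∈ A) ∧
    ∀ K ⊆ J, IsCompact K → ∃ M : ℝ, ∀ r ∈ A, r.1 ∈ K → ‖r.2‖ ≤ M := by
  constructor
  · intro r hr hrJ
    obtain ⟨x, hxA, hx⟩ := mem_closure_iff_seq_limit.1 hr
    have h1 : Tendsto (fun n => (x n).1) atTop (𝓝 r.1) :=
      (continuous_fst.tendsto r).comp hx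
    have h2 : Tendsto (fun n => (x n).2) atTop (𝓝 r.2) :=
      (continuous_snd.tendsto r).comp hx
    obtain ⟨N, hN⟩ := eventually_atTop.1 (h1.eventually (hJ.mem_nhds hrJ))
    have hk : ∀ n, ∃ k ∈ Kp, (x (n + N)).2 = Φ (x (n + N)).1 k := fun n =>
      (hA _ (hN (n + N) (by omega))).1 (hxA _)
    choose k hkK hkE using hk
    obtain ⟨k₀, hk₀, φ, hφ, hlim⟩ := hKp.tendsto_subseq hkK
    have h3 : Tendsto (fun n => φ n + N) atTop atTop :=
      tendsto_atTop_mono (fun n => Nat.le_add_right _ _) hφ.tendsto_atTop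
    have h4 : Tendsto (fun n => (x (φ n + N)).1) atTop (𝓝 r.1) := h1.comp h3
    have h5 : Tendsto (fun n => (x (φ n + N)).2) atTop (𝓝 r.2) := h2.comp h3
    have h6 : Tendsto (fun n => ((x (φ n + N)).1, k (φ n))) atTop
        (𝓝[J ×ˢ Kp] (r.1, k₀)) := by
      refine tendsto_nhdsWithin_iff.2 ⟨h4.prodMk_nhds hlim, Eventually.of_forall fun n => ?_⟩
      exact ⟨hN _ (by omega), hkK _⟩
    have h7 : Tendsto (fun n => Φ (x (φ n + N)).1 (k (φ n))) atTop (𝓝 (Φ r.1 k₀)) :=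
      (hΦ (r.1, k₀) ⟨hrJ, hk₀⟩).tendsto.comp h6
    have h8 : (fun n => (x (φ n + N)).2) = fun n => Φ (x (φ n + N)).1 (k (φ n)) :=
      funext fun n => hkE (φ n)
    rw [← h8] at h7
    exact (hA r hrJ).2 ⟨k₀, hk₀, tendsto_nhds_unique h5 h7⟩
  · intro K hKJ hK
    have hc : IsCompact ((fun a : ℝ × ℝ => Φ a.1 a.2) '' (K ×ˢ Kp)) :=
      (hK.prod hKp).image_of_continuousOn (hΦ.mono (prod_mono hKJ subset_rfl))
    obtain ⟨M, hM⟩ := hc.isBounded.exists_norm_le
    refine ⟨M, fun r hr hrK => ?_⟩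
    obtain ⟨k, hk, hE⟩ := (hA r (hKJ hrK)).1 hr
    rw [hE]
    exact hM _ ⟨(r.1, k), ⟨hrK, hk⟩, rfl⟩

/-- The partial derivative of a smooth function of two variables is continuous. -/
theorem contPartial {J : Set ℝ} (hJ : IsOpen J) {G : ℝ → ℝ → ℝ}
    (hG : ContDiffOn ℝ ∞ (fun a : ℝ × ℝ => G a.1 a.2) (J ×ˢ univ)) :
    ContinuousOn (fun a : ℝ × ℝ => deriv (fun r => G r a.2) a.1) (J ×ˢ univ) := by
  have hO : IsOpen (J ×ˢ (univ : Set ℝ)) := hJ.prod isOpen_univ
  have h1 : ContinuousOn (fderiv ℝ (fun a : ℝ × ℝ => G a.1 a.2)) (J ×ˢ univ) :=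
    hG.continuousOn_fderiv_of_isOpen hO (by simp)
  have h2 : ContinuousOn (fun a : ℝ × ℝ => fderiv ℝ (fun a : ℝ × ℝ => G a.1 a.2) a (1, 0))
      (J ×ˢ univ) := h1.clm_apply continuousOn_const
  refine h2.congr fun a ha => ?_
  have hd : DifferentiableAt ℝ (fun a : ℝ × ℝ => G a.1 a.2) a :=
    ((hG.contDiffAt (hO.mem_nhds ha)).differentiableAt (by simp))
  have h3 : HasDerivAt (fun r : ℝ => (r, a.2)) ((1 : ℝ), (0 : ℝ)) a.1 :=
    (hasDerivAt_id a.1).prodMk (hasDerivAt_const a.1 a.2)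
  have h4 : HasDerivAt (fun r : ℝ => G r a.2)
      (fderiv ℝ (fun a : ℝ × ℝ => G a.1 a.2) a (1, 0)) a.1 := by
    have h5 : HasFDerivAt (fun a : ℝ × ℝ => G a.1 a.2)
        (fderiv ℝ (fun a : ℝ × ℝ => G a.1 a.2) a) ((fun r : ℝ => (r, a.2)) a.1) := hd.hasFDerivAt
    exact h5.comp_hasDerivAt a.1 h3
  exact h4.deriv

variable {m n : ℕ}

section Edge

variable {c : Comb m n} {w : Fin n → ℝ} {J : Set ℝ} {π : Fin n → Prof} {q : ℝ → St n}

theorem cq (H : IsPhase c w J π q) : ContinuousOn q J := H.smooth.continuousOn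

theorem cdq (H : IsPhase c w J π q) : ContinuousOn (deriv q) J :=
  H.smooth.continuousOn_deriv_of_isOpen H.openJ (by simp)

theorem cq1 (H : IsPhase c w J π q) (i : Fin n) : ContinuousOn (fun s => (q s).1 i) J :=
  ((continuous_apply i).comp continuous_fst).comp_continuousOn (cq H)

theorem cq2 (H : IsPhase c w J π q) (i : Fin n) : ContinuousOn (fun s => (q s).2 i) J :=
  ((continuous_apply i).comp continuous_snd).comp_continuousOn (cq H)

theorem cv1 (H : IsPhase c w J π q) (i : Fin n) : ContinuousOn (fun s => (deriv q s).1 i) J :=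
  ((continuous_apply i).comp continuous_fst).comp_continuousOn (cdq H)

theorem cv2 (H : IsPhase c w J π q) (i : Fin n) : ContinuousOn (fun s => (deriv q s).2 i) J :=
  ((continuous_apply i).comp continuous_snd).comp_continuousOn (cdq H)

theorem lt (H : IsPhase c w J π q) (e : Fin m) {s : ℝ} (hs : s ∈ J) :
    (q s).1 (c.lf e) < (q s).1 (c.rt e) := by
  have h1 := (H.adm s hs).len e
  have h2 := H.wpos (c.lf e)
  have h3 := H.wpos (c.rt e)
  linarith

theorem cpe (H : IsPhase c w J π q) (e : Fin m) : ContinuousOn (fun s => c.pe (q s) e) J := by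
  unfold Comb.pe
  exact ((cq2 H _).sub (cq2 H _)).div ((cq1 H _).sub (cq1 H _))
    fun s hs => (sub_pos.2 (lt H e hs)).ne'

theorem cae (H : IsPhase c w J π q) (e : Fin m) : ContinuousOn (fun s => c.ae (q s) e) J := by
  unfold Comb.ae
  exact (cq2 H _).sub ((cpe H e).mul (cq1 H _))

theorem cdpe (H : IsPhase c w J π q) (e : Fin m) :
    ContinuousOn (fun s => c.dpe (q s) (deriv q s) e) J := by
  unfold Comb.dpe
  exact (((cv2 H _).sub (cv2 H _)).sub ((cpe H e).mul ((cv1 H _).sub (cv1 H _)))).div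
    ((cq1 H _).sub (cq1 H _)) fun s hs => (sub_pos.2 (lt H e hs)).ne'

theorem cdae (H : IsPhase c w J π q) (e : Fin m) :
    ContinuousOn (fun s => c.dae (q s) (deriv q s) e) J := by
  unfold Comb.dae
  exact ((cv2 H _).sub ((cdpe H e).mul (cq1 H _))).sub ((cpe H e).mul (cv1 H _))

theorem cdl (H : IsPhase c w J π q) (i : Fin n) : ContinuousOn (fun s => c.dl (q s) i) J := by
  unfold Comb.dl
  exact (cpe H _).sub (cpe H _)

/-- Functions of the time as functions of the time and a parameter. -/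
theorem lift {f : ℝ → ℝ} {J : Set ℝ} (h : ContinuousOn f J) (K : Set ℝ) :
    ContinuousOn (fun a : ℝ × ℝ => f a.1) (J ×ˢ K) :=
  h.comp continuousOn_fst fun _ ha => ha.1

theorem edge (H : IsPhase c w J π q) (e : Fin m) :
    (∀ r ∈ closure {r : E5 | ∃ x ∈ c.rg w (q r.1) e, r.2 = c.ept (q r.1) (deriv q r.1) e x},
      r.1 ∈ J → r ∈ {r : E5 | ∃ x ∈ c.rg w (q r.1) e, r.2 = c.ept (q r.1) (deriv q r.1) e x}) ∧
    ∀ K ⊆ J, IsCompact K → ∃ M : ℝ,
      ∀ r ∈ {r : E5 | ∃ x ∈ c.rg w (q r.1) e, r.2 = c.ept (q r.1) (deriv q r.1) e x},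
        r.1 ∈ K → ‖r.2‖ ≤ M := by
  set l : ℝ → ℝ := fun s => (q s).1 (c.lf e) + 2 * w (c.lf e) with hl
  set ρ : ℝ → ℝ := fun s => (q s).1 (c.rt e) - 2 * w (c.rt e) with hρ
  have cl : ContinuousOn l J := (cq1 H _).add continuousOn_const
  have cρ : ContinuousOn ρ J := (cq1 H _).sub continuousOn_const
  have hx : ContinuousOn (fun a : ℝ × ℝ => (1 - a.2) * l a.1 + a.2 * ρ a.1)
      (J ×ˢ Icc (0 : ℝ) 1) :=
    ((continuousOn_const.sub continuousOn_snd).mul (lift cl _)).add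
      (continuousOn_snd.mul (lift cρ _))
  refine piece H.openJ (isCompact_Icc (a := (0 : ℝ)) (b := 1))
    (Φ := fun s k => c.ept (q s) (deriv q s) e ((1 - k) * l s + k * ρ s)) ?_ ?_
  · unfold Comb.ept
    exact hx.prodMk ((lift (cpe H e) _).prodMk
      ((((lift (cdpe H e) _).mul hx).add (lift (cdae H e) _)).prodMk
        (((lift (cpe H e) _).mul hx).add (lift (cae H e) _))))
  · intro r hr
    have hlen := (H.adm r.1 hr).len e
    have hlρ : l r.1 < ρ r.1 := by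
      simp only [hl, hρ]
      linarith
    constructor
    · rintro ⟨x, ⟨hx1, hx2⟩, hE⟩
      have hpos : 0 < ρ r.1 - l r.1 := by linarith
      refine ⟨(x - l r.1) / (ρ r.1 - l r.1), ⟨div_nonneg (by linarith) hpos.le,
        (div_le_one hpos).2 (by linarith)⟩, ?_⟩
      rw [hE]
      have : (1 - (x - l r.1) / (ρ r.1 - l r.1)) * l r.1
          + (x - l r.1) / (ρ r.1 - l r.1) * ρ r.1 = x := by
        field_simp
        ring
      rw [this]
    · rintro ⟨k, ⟨hk0, hk1⟩, hE⟩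
      refine ⟨_, ⟨?_, ?_⟩, hE⟩
      · show l r.1 ≤ _
        nlinarith
      · show _ ≤ ρ r.1
        nlinarith

theorem vert (H : IsPhase c w J π q) (i : Fin n) :
    (∀ r ∈ closure {r : E5 | ∃ u, |u| ≤ 2 ∧ r.2 = c.vp w π r.1 (q r.1) (deriv q r.1) i u},
      r.1 ∈ J → r ∈ {r : E5 | ∃ u, |u| ≤ 2 ∧ r.2 = c.vp w π r.1 (q r.1) (deriv q r.1) i u}) ∧
    ∀ K ⊆ J, IsCompact K → ∃ M : ℝ,
      ∀ r ∈ {r : E5 | ∃ u, |u| ≤ 2 ∧ r.2 = c.vp w π r.1 (q r.1) (deriv q r.1) i u},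
        r.1 ∈ K → ‖r.2‖ ≤ M := by
  have hsub : J ×ˢ Icc (-2 : ℝ) 2 ⊆ J ×ˢ (univ : Set ℝ) := prod_mono subset_rfl (subset_univ _)
  have cX : ContinuousOn (fun a : ℝ × ℝ => (π i).X a.1 a.2) (J ×ˢ Icc (-2 : ℝ) 2) :=
    (H.prof i).X_smooth.continuousOn.mono hsub
  have cP : ContinuousOn (fun a : ℝ × ℝ => (π i).P a.1 a.2) (J ×ˢ Icc (-2 : ℝ) 2) :=
    (H.prof i).P_smooth.continuousOn.mono hsub
  have cΘ : ContinuousOn (fun a : ℝ × ℝ => (π i).Θ a.1 a.2) (J ×ˢ Icc (-2 : ℝ) 2) :=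
    (H.prof i).Θ_smooth.continuousOn.mono hsub
  have cY : ContinuousOn (fun a : ℝ × ℝ => (π i).Y a.1 a.2) (J ×ˢ Icc (-2 : ℝ) 2) := by
    have h1 := (contPartial H.openJ (H.prof i).Θ_smooth).mono hsub
    have h2 := (contPartial H.openJ (H.prof i).X_smooth).mono hsub
    exact (h1.sub (cP.mul h2)).congr fun a ha => (H.prof i).Y_eq a.1 ha.1 a.2
  have cx : ContinuousOn (fun a : ℝ × ℝ => (q a.1).1 i + w i * (π i).X a.1 a.2)
      (J ×ˢ Icc (-2 : ℝ) 2) := (lift (cq1 H i) _).add (continuousOn_const.mul cX)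
  have L : ∀ {f : ℝ → ℝ}, ContinuousOn f J →
      ContinuousOn (fun a : ℝ × ℝ => f a.1) (J ×ˢ Icc (-2 : ℝ) 2) := fun h => lift h _
  refine piece H.openJ (isCompact_Icc (a := (-2 : ℝ)) (b := 2))
    (Φ := fun s u => c.vp w π s (q s) (deriv q s) i u) ?_ ?_
  · unfold Comb.vp Comb.vpt
    refine cx.prodMk (((L (cpe H _)).add ((L (cdl H i)).mul cP)).prodMk (ContinuousOn.prodMk ?_ ?_))
    · exact ((((L (cdpe H _)).mul cx).add (L (cdae H _))).add
        (continuousOn_const.mul ((((L (cdpe H _)).sub (L (cdpe H _))).mul cΘ).add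
          ((L (cdl H i)).mul cY)))).sub (((L (cdl H i)).mul cP).mul (L (cv1 H i)))
    · exact (((L (cpe H _)).mul cx).add (L (cae H _))).add
        ((continuousOn_const.mul (L (cdl H i))).mul cΘ)
  · intro r _
    constructor
    · rintro ⟨u, hu, hE⟩
      exact ⟨u, abs_le.1 hu, hE⟩
    · rintro ⟨u, hu, hE⟩
      exact ⟨u, abs_le.2 hu, hE⟩

end Edge

/-- Finite unions. -/
theorem fin_union {ι : Type} [Finite ι] {J : Set ℝ} (S : Set ι) (A : ι → Set E5)
    (h : ∀ i, (∀ r ∈ closure (A i), r.1 ∈ J → r ∈ A i) ∧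
      ∀ K ⊆ J, IsCompact K → ∃ M : ℝ, ∀ r ∈ A i, r.1 ∈ K → ‖r.2‖ ≤ M) :
    (∀ r ∈ closure (⋃ i ∈ S, A i), r.1 ∈ J → r ∈ ⋃ i ∈ S, A i) ∧
      ∀ K ⊆ J, IsCompact K → ∃ M : ℝ, ∀ r ∈ ⋃ i ∈ S, A i, r.1 ∈ K → ‖r.2‖ ≤ M := by
  constructor
  · intro r hr hrJ
    rw [(Set.toFinite S).closure_biUnion] at hr
    simp only [mem_iUnion, exists_prop] at hr ⊢
    obtain ⟨i, hi, hri⟩ := hr
    exact ⟨i, hi, (h i).1 r hri hrJ⟩
  · intro K hKJ hK
    choose M hM using fun i => (h i).2 K hKJ hK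
    obtain ⟨B, hB⟩ := (Set.finite_range M).bddAbove
    refine ⟨B, fun r hr hrK => ?_⟩
    simp only [mem_iUnion, exists_prop] at hr
    obtain ⟨i, _, hri⟩ := hr
    exact (hM i r hri hrK).trans (hB ⟨i, rfl⟩)

end PCL

theorem t_PCL : Stmt_PCL := by
  intro m n c w J π q H SE SV A
  have hE := PCL.fin_union SE _ fun e => PCL.edge H e
  have hV := PCL.fin_union SV _ fun i => PCL.vert H i
  have hA : A = (⋃ e ∈ SE, {r : E5 | ∃ x ∈ c.rg w (q r.1) e,
        r.2 = c.ept (q r.1) (deriv q r.1) e x}) ∪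
      ⋃ i ∈ SV, {r : E5 | ∃ u, |u| ≤ 2 ∧ r.2 = c.vp w π r.1 (q r.1) (deriv q r.1) i u} := by
    ext r
    simp only [A, mem_union, mem_iUnion, exists_prop, Set.mem_ofPred_eq]
  rw [hA]
  constructor
  · intro r hr hrJ
    rw [closure_union] at hr
    rcases hr with hr | hr
    · exact Or.inl (hE.1 r hr hrJ)
    · exact Or.inr (hV.1 r hr hrJ)
  · intro K hKJ hK
    obtain ⟨M, hM⟩ := hE.2 K hKJ hK
    obtain ⟨M', hM'⟩ := hV.2 K hKJ hK
    refine ⟨max M M', fun r hr hrK => ?_⟩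
    rcases hr with hr | hr
    · exact (hM r hr hrK).trans (le_max_left _ _)
    · exact (hM' r hr hrK).trans (le_max_right _ _)

end LCA


end

section

/-!
# Part A: charts of a phase
-/

namespace LCA

open Set Filter
open scoped ContDiff Topology

namespace PCH

variable {m n : ℕ} {c : Comb m n} {w : Fin n → ℝ} {J : Set ℝ} {π : Fin n → Prof} {q : ℝ → St n}

/-- The parametrization of the piece of the vertex `i`. -/
noncomputable def gv (c : Comb m n) (w : Fin n → ℝ) (π : Fin n → Prof) (q : ℝ → St n)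
    (i : Fin n) (b : ℝ × ℝ) : E5 := (b.1, c.vp w π b.1 (q b.1) (deriv q b.1) i b.2)

/-- The parametrization of the line of the edge `e`. -/
noncomputable def ge (c : Comb m n) (q : ℝ → St n) (e : Fin m) (b : ℝ × ℝ) : E5 :=
  (b.1, c.ept (q b.1) (deriv q b.1) e b.2)

/-- The piece of the edge `e`. -/
def InE (c : Comb m n) (w : Fin n → ℝ) (q : ℝ → St n) (e : Fin m) (r : E5) : Prop :=
  ∃ x ∈ c.rg w (q r.1) e, r.2 = c.ept (q r.1) (deriv q r.1) e x

theorem Y_low (h : IsPhase c w J π q) (i : Fin n) {s : ℝ} (hs : s ∈ J) {u : ℝ} (hu : u ≤ -1) :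
    (π i).Y s u = 0 := by
  rw [(h.prof i).Y_eq s hs u, (((h.prof i).bd s hs).low u hu).2.1, zero_mul, sub_zero]
  have e : (fun r => (π i).Θ r u) =ᶠ[𝓝 s] fun _ => 0 := by
    filter_upwards [h.openJ.mem_nhds hs] with r hr
    exact (((h.prof i).bd r hr).low u hu).2.2
  rw [e.deriv_eq, deriv_const]

theorem Y_high (h : IsPhase c w J π q) (i : Fin n) {s : ℝ} (hs : s ∈ J) {u : ℝ} (hu : 1 ≤ u) :
    (π i).Y s u = 0 := by
  rw [(h.prof i).Y_eq s hs u]
  have e : (fun r => (π i).Θ r u) =ᶠ[𝓝 s] fun _ => (c.ty i).outX u := by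
    filter_upwards [h.openJ.mem_nhds hs] with r hr
    exact (((h.prof i).bd r hr).high u hu).2.2
  have e' : (fun r => (π i).X r u) =ᶠ[𝓝 s] fun _ => (c.ty i).outX u := by
    filter_upwards [h.openJ.mem_nhds hs] with r hr
    exact (((h.prof i).bd r hr).high u hu).1
  rw [e.deriv_eq, e'.deriv_eq, deriv_const, mul_zero, sub_zero]

theorem abs_inX (t : Ty) (u : ℝ) : |t.inX u| = |u| := by
  cases t <;> simp [Ty.inX]

theorem abs_outX (t : Ty) (u : ℝ) : |t.outX u| = |u| := by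
  cases t <;> simp [Ty.outX]

theorem X_lt (h : IsPhase c w J π q) (i : Fin n) {s : ℝ} (hs : s ∈ J) {u : ℝ} (hu : |u| < 2) :
    |(π i).X s u| < 2 := by
  have hb := (h.prof i).bd s hs
  rcases le_or_gt |u| 1 with h1 | h1
  · exact (hb.X_bd u h1).trans_lt one_lt_two
  · rcases lt_abs.1 h1 with h2 | h2
    · rw [(hb.high u h2.le).1, abs_outX]; exact hu
    · rw [(hb.low u (by linarith)).1, abs_inX]; exact hu

theorem far_a (h : IsPhase c w J π q) (i : Fin n) {s x : ℝ}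
    (hx : x ∈ c.rg w (q s) (c.ea i)) : 2 * w i ≤ |x - (q s).1 i| := by
  have hv := h.valid.oka i
  unfold Comb.OKa at hv
  unfold Comb.rg at hx
  cases hty : c.ty i <;> rw [hty] at hv <;> simp only at hv <;> rw [hv] at hx
  · rw [abs_sub_comm]
    exact le_trans (by linarith [hx.2]) (le_abs_self _)
  · rw [abs_sub_comm]
    exact le_trans (by linarith [hx.2]) (le_abs_self _)
  · exact le_trans (by linarith [hx.1]) (le_abs_self _)

theorem far_b (h : IsPhase c w J π q) (i : Fin n) {s x : ℝ}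
    (hx : x ∈ c.rg w (q s) (c.eb i)) : 2 * w i ≤ |x - (q s).1 i| := by
  have hv := h.valid.okb i
  unfold Comb.OKb at hv
  unfold Comb.rg at hx
  cases hty : c.ty i <;> rw [hty] at hv <;> simp only at hv <;> rw [hv] at hx
  · exact le_trans (by linarith [hx.1]) (le_abs_self _)
  · rw [abs_sub_comm]
    exact le_trans (by linarith [hx.2]) (le_abs_self _)
  · exact le_trans (by linarith [hx.1]) (le_abs_self _)

theorem meet_of_eq {a b : ℝ × ℝ × ℝ × ℝ} (h : a = b) : Meet a b := by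
  subst h; exact ⟨rfl, rfl, rfl⟩

/-- A point of a vertex with `|u| < 2` is not on an edge. -/
theorem not_edge (h : IsPhase c w J π q) (i : Fin n) {s : ℝ} (hs : s ∈ J) {u : ℝ} (hu : |u| < 2)
    (e : Fin m) {x : ℝ} (hx : x ∈ c.rg w (q s) e) :
    c.vp w π s (q s) (deriv q s) i u ≠ c.ept (q s) (deriv q s) e x := by
  intro heq
  have hd : ¬ 2 * w i ≤ |x - (q s).1 i| := by
    have h1 : (q s).1 i + w i * (π i).X s u = x := congrArg Prod.fst heq
    rw [← h1, add_sub_cancel_left, abs_mul, abs_of_pos (h.wpos i), not_le]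
    nlinarith [X_lt h i hs hu, h.wpos i]
  by_cases ha : c.ea i = e
  · subst ha; exact hd (far_a h i hx)
  by_cases hb : c.eb i = e
  · subst hb; exact hd (far_b h i hx)
  exact (h.adm s hs).ve i e ha hb u hu.le x hx (meet_of_eq heq)

theorem len_pos (h : IsPhase c w J π q) {s : ℝ} (hs : s ∈ J) (e : Fin m) :
    (q s).1 (c.lf e) < (q s).1 (c.rt e) := by
  have h1 := (h.adm s hs).len e
  linarith [h.wpos (c.lf e), h.wpos (c.rt e)]

theorem vlo (hVLN : Stmt_VLN) (h : IsPhase c w J π q) (i : Fin n) {s : ℝ} (hs : s ∈ J) {u : ℝ}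
    (hu : u ≤ -1) : c.vp w π s (q s) (deriv q s) i u =
      c.ept (q s) (deriv q s) (c.ea i) ((q s).1 i + w i * (c.ty i).inX u) :=
  (hVLN c w π s (q s) (deriv q s) i h.valid (fun i => (h.prof i).bd s hs)
    (fun e => len_pos h hs e)).1 u hu (Y_low h i hs hu)

theorem vhi (hVLN : Stmt_VLN) (h : IsPhase c w J π q) (i : Fin n) {s : ℝ} (hs : s ∈ J) {u : ℝ}
    (hu : 1 ≤ u) : c.vp w π s (q s) (deriv q s) i u =
      c.ept (q s) (deriv q s) (c.eb i) ((q s).1 i + w i * (c.ty i).outX u) :=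
  (hVLN c w π s (q s) (deriv q s) i h.valid (fun i => (h.prof i).bd s hs)
    (fun e => len_pos h hs e)).2 u hu (Y_high h i hs hu)

theorem rg_ends (h : IsPhase c w J π q) {s : ℝ} (hs : s ∈ J) (e : Fin m) :
    (q s).1 (c.lf e) + 2 * w (c.lf e) ∈ c.rg w (q s) e ∧
      (q s).1 (c.rt e) - 2 * w (c.rt e) ∈ c.rg w (q s) e := by
  have h1 := (h.adm s hs).len e
  unfold Comb.rg
  exact ⟨⟨le_rfl, by linarith⟩, ⟨by linarith, le_rfl⟩⟩

/-- The junction of the vertex `i` and the edge `ea i`. -/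
theorem junc_a (h : IsPhase c w J π q) (i : Fin n) {s : ℝ}
    (hs : s ∈ J) : (q s).1 i + w i * (c.ty i).inX (-2) ∈ c.rg w (q s) (c.ea i) := by
  have hv := h.valid.oka i
  have he := rg_ends h hs (c.ea i)
  unfold Comb.OKa at hv
  cases hty : c.ty i <;> rw [hty] at hv <;> simp only at hv <;> rw [hv] at he
  · have e1 : (q s).1 i + w i * Ty.P.inX (-2) = (q s).1 i - 2 * w i := by
      simp only [Ty.inX]; ring
    rw [e1]; exact he.2
  · have e1 : (q s).1 i + w i * Ty.R.inX (-2) = (q s).1 i - 2 * w i := by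
      simp only [Ty.inX]; ring
    rw [e1]; exact he.2
  · have e1 : (q s).1 i + w i * Ty.L.inX (-2) = (q s).1 i + 2 * w i := by
      simp only [Ty.inX]; ring
    rw [e1]; exact he.1

/-- The junction of the vertex `i` and the edge `eb i`. -/
theorem junc_b (h : IsPhase c w J π q) (i : Fin n) {s : ℝ}
    (hs : s ∈ J) : (q s).1 i + w i * (c.ty i).outX 2 ∈ c.rg w (q s) (c.eb i) := by
  have hv := h.valid.okb i
  have he := rg_ends h hs (c.eb i)
  unfold Comb.OKb at hv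
  cases hty : c.ty i <;> rw [hty] at hv <;> simp only at hv <;> rw [hv] at he
  · have e1 : (q s).1 i + w i * Ty.P.outX 2 = (q s).1 i + 2 * w i := by
      simp only [Ty.outX]; ring
    rw [e1]; exact he.1
  · have e1 : (q s).1 i + w i * Ty.R.outX 2 = (q s).1 i - 2 * w i := by
      simp only [Ty.outX]; ring
    rw [e1]; exact he.2
  · have e1 : (q s).1 i + w i * Ty.L.outX 2 = (q s).1 i + 2 * w i := by
      simp only [Ty.outX]; ring
    rw [e1]; exact he.1

/-- The line of an edge slightly outside its range, at the left end. -/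
theorem edge_left (hVLN : Stmt_VLN) (h : IsPhase c w J π q) {s : ℝ} (hs : s ∈ J) (e : Fin m)
    {x : ℝ} (h1 : (q s).1 (c.lf e) + w (c.lf e) ≤ x) (h2 : x ≤ (q s).1 (c.lf e) + 2 * w (c.lf e)) :
    ∃ i u, |u| ≤ 2 ∧ c.ept (q s) (deriv q s) e x = c.vp w π s (q s) (deriv q s) i u := by
  have hw := h.wpos (c.lf e)
  set i := c.lf e with hi
  have a1 : 1 ≤ (x - (q s).1 i) / w i := by rw [le_div_iff₀ hw]; linarith
  have a2 : (x - (q s).1 i) / w i ≤ 2 := by rw [div_le_iff₀ hw]; linarith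
  have ex : (q s).1 i + w i * ((x - (q s).1 i) / w i) = x := by field_simp; ring
  rcases h.valid.lf e with ⟨hty, hea⟩ | ⟨hty, heb⟩
  · rw [← hi] at hty hea
    refine ⟨i, -((x - (q s).1 i) / w i), ?_, ?_⟩
    · rw [abs_neg, abs_of_nonneg (by linarith)]; exact a2
    · rw [vlo hVLN h i hs (by linarith), hea, hty]
      simp only [Ty.inX, neg_neg]
      rw [ex]
  · rw [← hi] at hty heb
    refine ⟨i, (x - (q s).1 i) / w i, ?_, ?_⟩
    · rw [abs_of_nonneg (by linarith)]; exact a2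
    · rw [vhi hVLN h i hs a1, heb]
      cases hty' : c.ty i
      · simp only [Ty.outX]; rw [ex]
      · exact absurd hty' hty
      · simp only [Ty.outX]; rw [ex]

/-- The line of an edge slightly outside its range, at the right end. -/
theorem edge_right (hVLN : Stmt_VLN) (h : IsPhase c w J π q) {s : ℝ} (hs : s ∈ J) (e : Fin m)
    {x : ℝ} (h1 : (q s).1 (c.rt e) - 2 * w (c.rt e) ≤ x) (h2 : x ≤ (q s).1 (c.rt e) - w (c.rt e)) :
    ∃ i u, |u| ≤ 2 ∧ c.ept (q s) (deriv q s) e x = c.vp w π s (q s) (deriv q s) i u := by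
  have hw := h.wpos (c.rt e)
  set i := c.rt e with hi
  have a1 : (x - (q s).1 i) / w i ≤ -1 := by rw [div_le_iff₀ hw]; linarith
  have a2 : -2 ≤ (x - (q s).1 i) / w i := by rw [le_div_iff₀ hw]; linarith
  have ex : (q s).1 i + w i * ((x - (q s).1 i) / w i) = x := by field_simp; ring
  rcases h.valid.rt e with ⟨hty, hea⟩ | ⟨hty, heb⟩
  · rw [← hi] at hty hea
    refine ⟨i, (x - (q s).1 i) / w i, ?_, ?_⟩
    · rw [abs_of_nonpos (by linarith)]; linarith
    · rw [vlo hVLN h i hs a1, hea]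
      cases hty' : c.ty i
      · simp only [Ty.inX]; rw [ex]
      · simp only [Ty.inX]; rw [ex]
      · exact absurd hty' hty
  · rw [← hi] at hty heb
    refine ⟨i, -((x - (q s).1 i) / w i), ?_, ?_⟩
    · rw [abs_neg, abs_of_nonpos (by linarith)]; linarith
    · rw [vhi hVLN h i hs (by linarith), heb, hty]
      simp only [Ty.outX, neg_neg]
      rw [ex]

/-- Points near a point which is not on the edge `e` are not on this edge. -/
theorem away (hPCL : Stmt_PCL) (h : IsPhase c w J π q) (e : Fin m) {r : E5} (hr : r.1 ∈ J)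
    (hn : ¬ InE c w q e r) : ∀ᶠ r' in 𝓝 r, ¬ InE c w q e r' := by
  have h1 := (hPCL c w J π q h {e} ∅).1 r
  set A : Set E5 := {r | (∃ e_1 ∈ ({e} : Set (Fin m)), ∃ x ∈ c.rg w (q r.1) e_1,
      r.2 = c.ept (q r.1) (deriv q r.1) e_1 x) ∨
      ∃ i ∈ (∅ : Set (Fin n)), ∃ u, |u| ≤ 2 ∧ r.2 = c.vp w π r.1 (q r.1) (deriv q r.1) i u}
    with hA
  have h2 : r ∉ closure A := by
    intro h3
    rcases h1 h3 hr with ⟨e', he', x, hx, hxe⟩ | ⟨i, hi, -⟩
    · rw [mem_singleton_iff] at he'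
      subst he'
      exact hn ⟨x, hx, hxe⟩
    · exact hi
  filter_upwards [isClosed_closure.isOpen_compl.mem_nhds h2] with r' hr'
  rintro ⟨x, hx, hxe⟩
  exact hr' (subset_closure (Or.inl ⟨e, rfl, x, hx, hxe⟩))

/-- Compactness: the points of the piece of a vertex near `r`. -/
theorem near_v (hVEX : Stmt_VEX) (h : IsPhase c w J π q) (i : Fin n) {r : E5} (hr : r.1 ∈ J)
    {P : E5 → Prop} (hP : ∀ u ∈ Icc (-2 : ℝ) 2, gv c w π q i (r.1, u) = r →
      ∀ᶠ b in 𝓝 ((r.1, u) : ℝ × ℝ), P (gv c w π q i b)) :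
    ∀ᶠ r' in 𝓝 r, ∀ u ∈ Icc (-2 : ℝ) 2, r' = gv c w π q i (r'.1, u) → P r' := by
  apply isCompact_Icc.eventually_forall_of_forall_eventually
  intro u hu
  have hc : ContinuousAt (gv c w π q i) ((r.1, u) : ℝ × ℝ) :=
    ((hVEX c w J π q h i r.1 hr u).smooth.self_of_nhds).continuousAt
  have hcm : Continuous (fun z : E5 × ℝ => ((z.1.1, z.2) : ℝ × ℝ)) := by fun_prop
  have hm : Tendsto (fun z : E5 × ℝ => ((z.1.1, z.2) : ℝ × ℝ)) (𝓝 (r, u)) (𝓝 (r.1, u)) :=
    hcm.tendsto' _ _ rfl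
  by_cases he : gv c w π q i (r.1, u) = r
  · filter_upwards [hm.eventually (hP u hu he)] with z hz hz'
    rw [hz']; exact hz
  · have h2 : Tendsto (fun z : E5 × ℝ => gv c w π q i (z.1.1, z.2)) (𝓝 (r, u))
        (𝓝 (gv c w π q i (r.1, u))) := hc.tendsto.comp hm
    have h3 : Tendsto (fun z : E5 × ℝ => z.1) (𝓝 (r, u)) (𝓝 r) := continuous_fst.tendsto' _ _ rfl
    have h4 : Tendsto (fun z : E5 × ℝ => gv c w π q i (z.1.1, z.2) - z.1) (𝓝 (r, u))
        (𝓝 (gv c w π q i (r.1, u) - r)) := h2.sub h3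
    filter_upwards [h4.eventually_ne (sub_ne_zero.2 he)] with z hz hz'
    exact absurd (sub_eq_zero.2 hz'.symm) hz

theorem gv_inj (h : IsPhase c w J π q) (i : Fin n) {s : ℝ} (hs : s ∈ J) {u u' : ℝ} (hu : |u| ≤ 2)
    (hu' : |u'| ≤ 2) (he : gv c w π q i (s, u) = gv c w π q i (s, u')) : u = u' := by
  have h1 : (q s).1 i + w i * (π i).X s u = (q s).1 i + w i * (π i).X s u' :=
    congrArg (fun r : E5 => r.2.1) he
  have h2 : c.pe (q s) (c.ea i) + c.dl (q s) i * (π i).P s u =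
      c.pe (q s) (c.ea i) + c.dl (q s) i * (π i).P s u' :=
    congrArg (fun r : E5 => r.2.2.1) he
  exact (h.prof i).inj s hs u u' hu hu'
    (mul_left_cancel₀ (h.wpos i).ne' (add_left_cancel h1)) (add_left_cancel h2)

/-- Case 1: the interior of the piece of a vertex. -/
theorem case_v (hVEX : Stmt_VEX) (hPCL : Stmt_PCL) (h : IsPhase c w J π q) (i : Fin n) {r : E5}
    (hr : r.1 ∈ J) {u₀ : ℝ} (hu₀ : |u₀| < 2) (he : r = gv c w π q i (r.1, u₀)) :
    ChartAt (c.surf w π q) r := by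
  refine ⟨gv c w π q i, (r.1, u₀), hVEX c w J π q h i r.1 hr u₀, he.symm, ?_, ?_⟩
  · have h1 : ∀ᶠ b : ℝ × ℝ in 𝓝 (r.1, u₀), |b.2| < 2 := by
      have hc : Continuous (fun b : ℝ × ℝ => |b.2|) := by fun_prop
      exact hc.continuousAt.eventually_lt continuousAt_const hu₀
    filter_upwards [h1] with b hb
    exact Or.inr ⟨i, b.2, hb.le, rfl⟩
  · intro N hN
    have hE : ∀ e, ∀ᶠ r' in 𝓝 r, ¬ InE c w q e r' := by
      intro e
      refine away hPCL h e hr ?_
      rintro ⟨x, hx, hxe⟩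
      have h1 : r.2 = c.vp w π r.1 (q r.1) (deriv q r.1) i u₀ := congrArg Prod.snd he
      exact not_edge h i hr hu₀ e hx (h1.symm.trans hxe)
    have hV : ∀ j, ∀ᶠ r' in 𝓝 r, ∀ u ∈ Icc (-2 : ℝ) 2, r' = gv c w π q j (r'.1, u) →
        r' ∈ gv c w π q i '' N := by
      intro j
      refine near_v hVEX h j hr (P := fun r' => r' ∈ gv c w π q i '' N) ?_
      intro u hu hue
      by_cases hj : j = i
      · subst hj
        have : u = u₀ := gv_inj h j hr (abs_le.2 hu) hu₀.le (hue.trans he)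
        subst this
        filter_upwards [hN] with b hb
        exact ⟨b, hb, rfl⟩
      · exact absurd (meet_of_eq (congrArg Prod.snd (hue.trans he)))
          ((h.adm r.1 hr).vv j i hj u u₀ (abs_le.2 hu) hu₀.le)
    have hfin : ∀ᶠ r' in 𝓝 r, r' ∈ c.surf w π q → r' ∈ gv c w π q i '' N := by
      filter_upwards [eventually_all.2 hE, eventually_all.2 hV] with r' h1 h2 h3
      rcases h3 with ⟨e, x, hx, hxe⟩ | ⟨j, u, hu, hue⟩
      · exact absurd ⟨x, hx, hxe⟩ (h1 e)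
      · exact h2 j u (abs_le.1 hu) (Prod.ext rfl hue)
    exact eventually_nhdsWithin_iff.2 hfin

theorem cont_inX (t : Ty) : Continuous t.inX := by
  cases t
  · exact continuous_id
  · exact continuous_id
  · exact continuous_neg

theorem cont_outX (t : Ty) : Continuous t.outX := by
  cases t
  · exact continuous_id
  · exact continuous_neg
  · exact continuous_id

/-- Case 2: a point of an edge. -/
theorem case_e (hVEX : Stmt_VEX) (hEEX : Stmt_EEX) (hVLN : Stmt_VLN) (hPCL : Stmt_PCL)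
    (h : IsPhase c w J π q) (e : Fin m) {r : E5} (hr : r.1 ∈ J) (he : InE c w q e r) :
    ChartAt (c.surf w π q) r := by
  obtain ⟨x₀, hx₀, hxe⟩ := he
  have hrg : r = ge c q e (r.1, x₀) := Prod.ext rfl hxe
  have hx₁ : r.2.1 = x₀ := congrArg Prod.fst hxe
  have hqc : ContinuousAt q r.1 := (h.smooth.contDiffAt (h.openJ.mem_nhds hr)).continuousAt
  have hqk : ∀ (k : Fin n) (b₀ : ℝ × ℝ), b₀.1 = r.1 →
      ContinuousAt (fun b : ℝ × ℝ => (q b.1).1 k) b₀ := by
    intro k b₀ hb₀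
    have h1 : ContinuousAt (fun b : ℝ × ℝ => q b.1) b₀ := by
      apply ContinuousAt.comp (g := q) (f := Prod.fst)
      · rw [hb₀]; exact hqc
      · exact continuous_fst.continuousAt
    have h2 : Continuous (fun a : St n => a.1 k) := by fun_prop
    exact h2.continuousAt.comp h1
  have hJ : ∀ b₀ : ℝ × ℝ, b₀.1 = r.1 → ∀ᶠ b : ℝ × ℝ in 𝓝 b₀, b.1 ∈ J := by
    intro b₀ hb₀
    have h1 : Tendsto (fun b : ℝ × ℝ => b.1) (𝓝 b₀) (𝓝 r.1) := continuous_fst.tendsto' _ _ hb₀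
    exact h1.eventually (h.openJ.mem_nhds hr)
  refine ⟨ge c q e, (r.1, x₀), hEEX c w J π q h e r.1 hr x₀, hrg.symm, ?_, ?_⟩
  · have ev1 : ∀ᶠ b : ℝ × ℝ in 𝓝 (r.1, x₀), (q b.1).1 (c.lf e) + w (c.lf e) < b.2 := by
      refine ContinuousAt.eventually_lt ((hqk _ _ rfl).add continuousAt_const)
        continuous_snd.continuousAt ?_
      have := hx₀.1
      have hw := h.wpos (c.lf e)
      change (q r.1).1 (c.lf e) + w (c.lf e) < x₀
      linarith
    have ev2 : ∀ᶠ b : ℝ × ℝ in 𝓝 (r.1, x₀), b.2 < (q b.1).1 (c.rt e) - w (c.rt e) := by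
      refine ContinuousAt.eventually_lt continuous_snd.continuousAt
        ((hqk _ _ rfl).sub continuousAt_const) ?_
      have := hx₀.2
      have hw := h.wpos (c.rt e)
      change x₀ < (q r.1).1 (c.rt e) - w (c.rt e)
      linarith
    filter_upwards [ev1, ev2, hJ (r.1, x₀) rfl] with b h1 h2 h3
    rcases le_or_gt b.2 ((q b.1).1 (c.lf e) + 2 * w (c.lf e)) with h4 | h4
    · obtain ⟨i, u, hu, hue⟩ := edge_left hVLN h h3 e h1.le h4
      exact Or.inr ⟨i, u, hu, hue⟩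
    rcases le_or_gt ((q b.1).1 (c.rt e) - 2 * w (c.rt e)) b.2 with h5 | h5
    · obtain ⟨i, u, hu, hue⟩ := edge_right hVLN h h3 e h5 h2.le
      exact Or.inr ⟨i, u, hu, hue⟩
    · exact Or.inl ⟨e, b.2, ⟨h4.le, h5.le⟩, rfl⟩
  · intro N hN
    -- the edge itself
    have hE0 : ∀ᶠ r' in 𝓝 r, InE c w q e r' → r' ∈ ge c q e '' N := by
      have hcm : Continuous (fun r' : E5 => ((r'.1, r'.2.1) : ℝ × ℝ)) := by fun_prop
      have ht : Tendsto (fun r' : E5 => ((r'.1, r'.2.1) : ℝ × ℝ)) (𝓝 r) (𝓝 (r.1, x₀)) :=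
        hcm.tendsto' _ _ (by rw [hx₁])
      filter_upwards [ht.eventually hN] with r' h1 h2
      obtain ⟨x, hx, hxe'⟩ := h2
      have hx' : r'.2.1 = x := congrArg Prod.fst hxe'
      refine ⟨(r'.1, r'.2.1), h1, ?_⟩
      rw [hx']
      exact Prod.ext rfl hxe'.symm
    have hEE : ∀ e', InE c w q e' r → e' = e := by
      rintro e' ⟨x, hx, hxe'⟩
      by_contra hne
      exact (h.adm r.1 hr).ee e' e hne x hx x₀ hx₀ (meet_of_eq (hxe'.symm.trans hxe))
    have hE : ∀ e', ∀ᶠ r' in 𝓝 r, InE c w q e' r' → r' ∈ ge c q e '' N := by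
      intro e'
      by_cases hee : e' = e
      · subst hee; exact hE0
      · filter_upwards [away hPCL h e' hr (fun h1 => hee (hEE e' h1))] with r' h1 h2
        exact absurd h2 h1
    have hV : ∀ j, ∀ᶠ r' in 𝓝 r, ∀ u ∈ Icc (-2 : ℝ) 2, r' = gv c w π q j (r'.1, u) →
        r' ∈ ge c q e '' N := by
      intro j
      refine near_v hVEX h j hr (P := fun r' => r' ∈ ge c q e '' N) ?_
      intro u hu hue
      have hu2 : r.2 = c.vp w π r.1 (q r.1) (deriv q r.1) j u := congrArg Prod.snd hue.symm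
      rcases lt_or_ge |u| 2 with h1 | h1
      · exact absurd (hu2.symm.trans hxe) (not_edge h j hr h1 e hx₀)
      rcases le_abs.1 h1 with h2 | h2
      · have hu' : u = 2 := le_antisymm hu.2 h2
        subst hu'
        have h3 := vhi hVLN h j hr (u := 2) one_le_two
        have h4 : c.eb j = e := hEE _ ⟨_, junc_b h j hr, hu2.trans h3⟩
        have h5 : (q r.1).1 j + w j * (c.ty j).outX 2 = x₀ := by
          have := congrArg Prod.fst (hu2.trans h3)
          rw [hx₁] at this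
          exact this.symm
        have hxc : ContinuousAt (fun b : ℝ × ℝ =>
            ((b.1, (q b.1).1 j + w j * (c.ty j).outX b.2) : ℝ × ℝ)) (r.1, 2) := by
          refine ContinuousAt.prodMk continuous_fst.continuousAt ?_
          exact (hqk j _ rfl).add (continuousAt_const.mul
            ((cont_outX (c.ty j)).comp continuous_snd).continuousAt)
        have ht : ∀ᶠ b : ℝ × ℝ in 𝓝 (r.1, 2),
            ((b.1, (q b.1).1 j + w j * (c.ty j).outX b.2) : ℝ × ℝ) ∈ N := by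
          apply hxc.eventually
          change ∀ᶠ y in 𝓝 ((r.1, (q r.1).1 j + w j * (c.ty j).outX 2) : ℝ × ℝ), y ∈ N
          rw [h5]; exact hN
        have h6 : ∀ᶠ b : ℝ × ℝ in 𝓝 (r.1, 2), 1 < b.2 :=
          continuousAt_const.eventually_lt continuous_snd.continuousAt one_lt_two
        filter_upwards [ht, h6, hJ (r.1, 2) rfl] with b h7 h8 h9
        refine ⟨_, h7, ?_⟩
        refine Prod.ext rfl ?_
        change c.ept (q b.1) (deriv q b.1) e _ = c.vp w π b.1 (q b.1) (deriv q b.1) j b.2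
        rw [vhi hVLN h j h9 h8.le, h4]
      · have hu' : u = -2 := le_antisymm (by linarith) hu.1
        subst hu'
        have h3 := vlo hVLN h j hr (u := -2) (by norm_num)
        have h4 : c.ea j = e := hEE _ ⟨_, junc_a h j hr, hu2.trans h3⟩
        have h5 : (q r.1).1 j + w j * (c.ty j).inX (-2) = x₀ := by
          have := congrArg Prod.fst (hu2.trans h3)
          rw [hx₁] at this
          exact this.symm
        have hxc : ContinuousAt (fun b : ℝ × ℝ =>
            ((b.1, (q b.1).1 j + w j * (c.ty j).inX b.2) : ℝ × ℝ)) (r.1, -2) := by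
          refine ContinuousAt.prodMk continuous_fst.continuousAt ?_
          exact (hqk j _ rfl).add (continuousAt_const.mul
            ((cont_inX (c.ty j)).comp continuous_snd).continuousAt)
        have ht : ∀ᶠ b : ℝ × ℝ in 𝓝 (r.1, -2),
            ((b.1, (q b.1).1 j + w j * (c.ty j).inX b.2) : ℝ × ℝ) ∈ N := by
          apply hxc.eventually
          change ∀ᶠ y in 𝓝 ((r.1, (q r.1).1 j + w j * (c.ty j).inX (-2)) : ℝ × ℝ), y ∈ N
          rw [h5]; exact hN
        have h6 : ∀ᶠ b : ℝ × ℝ in 𝓝 (r.1, -2), b.2 < -1 :=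
          continuous_snd.continuousAt.eventually_lt continuousAt_const
            (show (-2 : ℝ) < -1 by norm_num)
        filter_upwards [ht, h6, hJ (r.1, -2) rfl] with b h7 h8 h9
        refine ⟨_, h7, ?_⟩
        refine Prod.ext rfl ?_
        change c.ept (q b.1) (deriv q b.1) e _ = c.vp w π b.1 (q b.1) (deriv q b.1) j b.2
        rw [vlo hVLN h j h9 h8.le, h4]
    have hfin : ∀ᶠ r' in 𝓝 r, r' ∈ c.surf w π q → r' ∈ ge c q e '' N := by
      filter_upwards [eventually_all.2 hE, eventually_all.2 hV] with r' h1 h2 h3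
      rcases h3 with ⟨e', x, hx, hxe'⟩ | ⟨j, u, hu, hue⟩
      · exact h1 e' ⟨x, hx, hxe'⟩
      · exact h2 j u (abs_le.1 hu) (Prod.ext rfl hue)
    exact eventually_nhdsWithin_iff.2 hfin

end PCH

open _root_.LCA.PCH in
theorem t_PCH (hVEX : Stmt_VEX) (hEEX : Stmt_EEX) (hVLN : Stmt_VLN) (hPCL : Stmt_PCL)
    (hPIN : Stmt_PIN) : Stmt_PCH := by
  intro m n c w J π q h r hrA hr
  rcases hrA with ⟨e, x, hx, hxe⟩ | ⟨i, u, hu, hue⟩
  · exact case_e hVEX hEEX hVLN hPCL h e hr ⟨x, hx, hxe⟩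
  · rcases lt_or_ge |u| 2 with h1 | h1
    · exact case_v hVEX hPCL h i hr h1 (Prod.ext rfl hue)
    rcases le_abs.1 h1 with h2 | h2
    · have hu' : u = 2 := le_antisymm (abs_le.1 hu).2 h2
      subst hu'
      exact case_e hVEX hEEX hVLN hPCL h (c.eb i) hr
        ⟨_, junc_b h i hr, hue.trans (vhi hVLN h i hr one_le_two)⟩
    · have hu' : u = -2 := le_antisymm (by linarith) (abs_le.1 hu).1
      subst hu'
      exact case_e hVEX hEEX hVLN hPCL h (c.ea i) hr
        ⟨_, junc_a h i hr, hue.trans (vlo hVLN h i hr (by norm_num))⟩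

end LCA


end

section

/-!
# CVE: separation of a vertex piece and an edge
-/

namespace LCA

open Set Filter
open scoped ContDiff Topology

namespace CVE

variable {m n : ℕ}

/-- (I2) for the left end -/
theorem i2_lf (c : Comb m n) (q v : St n) (e : Fin m) :
    v.2 (c.lf e) = c.dpe q v e * q.1 (c.lf e) + c.pe q e * v.1 (c.lf e) + c.dae q v e := by
  unfold Comb.dae
  ring

/-- (I2) for the right end -/
theorem i2_rt (c : Comb m n) (q v : St n) (e : Fin m) (h : q.1 (c.rt e) - q.1 (c.lf e) ≠ 0) :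
    v.2 (c.rt e) = c.dpe q v e * q.1 (c.rt e) + c.pe q e * v.1 (c.rt e) + c.dae q v e := by
  have h1 : c.dpe q v e * (q.1 (c.rt e) - q.1 (c.lf e)) =
      v.2 (c.rt e) - v.2 (c.lf e) - c.pe q e * (v.1 (c.rt e) - v.1 (c.lf e)) := by
    unfold Comb.dpe
    exact div_mul_cancel₀ _ h
  unfold Comb.dae
  linarith

/-- (I2) for the edge `ea i` -/
theorem i2_a (c : Comb m n) (q v : St n) (hv : c.Valid)
    (hlen : ∀ e, q.1 (c.rt e) - q.1 (c.lf e) ≠ 0) (i : Fin n) :
    v.2 i = c.dpe q v (c.ea i) * q.1 i + c.pe q (c.ea i) * v.1 i + c.dae q v (c.ea i) := by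
  have h1 := hv.oka i
  unfold Comb.OKa at h1
  have h2 := i2_lf c q v (c.ea i)
  have h3 := i2_rt c q v (c.ea i) (hlen _)
  cases ht : c.ty i <;> rw [ht] at h1 <;> simp only at h1
  · rw [h1] at h3
    exact h3
  · rw [h1] at h3
    exact h3
  · rw [h1] at h2
    exact h2

/-- the bound for the `x`-coordinate of a profile -/
theorem X_le {t : Ty} {s : ℝ} {π : Prof} (h : ProfBd t s π) (u : ℝ) (hu : |u| ≤ 2) :
    |π.X s u| ≤ 2 := by
  rcases le_or_gt u (-1) with h1 | h1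
  · rw [(h.low u h1).1]
    cases t <;> simp only [Ty.inX]
    · exact hu
    · exact hu
    · rw [abs_neg]
      exact hu
  · rcases le_or_gt 1 u with h2 | h2
    · rw [(h.high u h2).1]
      cases t <;> simp only [Ty.outX]
      · exact hu
      · rw [abs_neg]
        exact hu
      · exact hu
    · have h3 := h.X_bd u (abs_le.2 ⟨h1.le, h2.le⟩)
      linarith

/-- the three bounds for a point of a vertex piece -/
theorem bounds (c : Comb m n) (w : Fin n → ℝ) (π : Fin n → Prof) (s : ℝ) (q v : St n)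
    (hv : c.Valid) (hw : ∀ i, 0 < w i) (hπ : ∀ i, ProfBd (c.ty i) s (π i))
    (hlen : ∀ e, q.1 (c.rt e) - q.1 (c.lf e) ≠ 0) (i : Fin n) (u : ℝ) (hu : |u| ≤ 2) :
    |(c.vp w π s q v i u).1 - q.1 i| ≤ 2 * w i ∧ c.plo q i ≤ (c.vp w π s q v i u).2.1 ∧
      (c.vp w π s q v i u).2.1 ≤ c.phi q i ∧
      |(c.vp w π s q v i u).2.2.1 - (v.2 i - (c.vp w π s q v i u).2.1 * v.1 i)| ≤
        c.err w q v i := by
  have hX := X_le (hπ i) u hu
  have hP := (hπ i).P_mem u
  have hΘ := (hπ i).Θ_bd u hu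
  have hY := (hπ i).Y_bd u hu
  have hwi := hw i
  have i2 := i2_a c q v hv hlen i
  simp only [Comb.vp, Comb.vpt]
  set X := (π i).X s u with hX'
  set P := (π i).P s u with hP'
  set Θ := (π i).Θ s u with hΘ'
  set Y := (π i).Y s u with hY'
  refine ⟨?_, ?_, ?_, ?_⟩
  · have h1 : q.1 i + w i * X - q.1 i = w i * X := by ring
    rw [h1, abs_mul, abs_of_pos hwi]
    calc w i * |X| ≤ w i * 2 := mul_le_mul_of_nonneg_left hX hwi.le
      _ = 2 * w i := by ring
  · unfold Comb.plo Comb.dl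
    rcases le_total (c.pe q (c.ea i)) (c.pe q (c.eb i)) with h | h
    · rw [min_eq_left h]
      have : 0 ≤ (c.pe q (c.eb i) - c.pe q (c.ea i)) * P := mul_nonneg (by linarith) hP.1
      linarith
    · rw [min_eq_right h]
      have : 0 ≤ (c.pe q (c.ea i) - c.pe q (c.eb i)) * (1 - P) :=
        mul_nonneg (by linarith) (by linarith [hP.2])
      nlinarith
  · unfold Comb.phi Comb.dl
    rcases le_total (c.pe q (c.ea i)) (c.pe q (c.eb i)) with h | h
    · rw [max_eq_right h]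
      have : 0 ≤ (c.pe q (c.eb i) - c.pe q (c.ea i)) * (1 - P) :=
        mul_nonneg (by linarith) (by linarith [hP.2])
      nlinarith
    · rw [max_eq_left h]
      have : 0 ≤ (c.pe q (c.ea i) - c.pe q (c.eb i)) * P := mul_nonneg (by linarith) hP.1
      nlinarith
  · have h1 : c.dpe q v (c.ea i) * (q.1 i + w i * X) + c.dae q v (c.ea i)
        + w i * ((c.dpe q v (c.eb i) - c.dpe q v (c.ea i)) * Θ + c.dl q i * Y)
        - c.dl q i * P * v.1 i - (v.2 i - (c.pe q (c.ea i) + c.dl q i * P) * v.1 i) =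
        w i * (c.dpe q v (c.ea i) * X + (c.dpe q v (c.eb i) - c.dpe q v (c.ea i)) * Θ +
          c.dl q i * Y) := by
      rw [i2]
      ring
    rw [h1, abs_mul, abs_of_pos hwi]
    unfold Comb.err
    refine mul_le_mul_of_nonneg_left ?_ hwi.le
    refine (abs_add_three _ _ _).trans ?_
    rw [abs_mul, abs_mul, abs_mul]
    have a1 : |c.dpe q v (c.ea i)| * |X| ≤ 2 * |c.dpe q v (c.ea i)| := by
      rw [mul_comm]
      exact mul_le_mul_of_nonneg_right hX (abs_nonneg _)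
    have a2 : |c.dpe q v (c.eb i) - c.dpe q v (c.ea i)| * |Θ| ≤
        2 * |c.dpe q v (c.eb i) - c.dpe q v (c.ea i)| := by
      rw [mul_comm]
      exact mul_le_mul_of_nonneg_right hΘ (abs_nonneg _)
    have a3 : |c.dl q i| * |Y| ≤ CY * |c.dl q i| := by
      rw [mul_comm]
      exact mul_le_mul_of_nonneg_right hY (abs_nonneg _)
    linarith

end CVE

theorem t_CVE : Stmt_CVE := by
  intro m n c w π s q v hv hw hπ hc i e hae hbe u hu x hx hM
  have hlen : ∀ e, q.1 (c.rt e) - q.1 (c.lf e) ≠ 0 := by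
    intro e
    have h1 := hc.len e
    have h2 := hw (c.lf e)
    have h3 := hw (c.rt e)
    intro h4
    linarith
  obtain ⟨b1, b2, b3, b4⟩ := CVE.bounds c w π s q v hv hw hπ hlen i u hu
  obtain ⟨m1, m2, m3⟩ := hM
  have m1' : (c.vp w π s q v i u).1 = x := m1
  have m2' : (c.vp w π s q v i u).2.1 = c.pe q e := m2
  have m3' : (c.vp w π s q v i u).2.2.1 = c.dpe q v e * x + c.dae q v e := m3
  rw [m1'] at b1
  rw [m2'] at b2 b3 b4
  rw [m3'] at b4
  have b1' := abs_le.1 b1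
  have b4' := abs_le.1 b4
  have r1 : q.1 (c.lf e) + 2 * w (c.lf e) ≤ x := hx.1
  have r2 : x ≤ q.1 (c.rt e) - 2 * w (c.rt e) := hx.2
  rcases hc.ve i e hae hbe with h | ⟨σ, hσ, h1⟩
  · rcases h with h | h | h | h
    · linarith [b1'.1, b1'.2]
    · linarith [b1'.1, b1'.2]
    · linarith
    · linarith
  · unfold Comb.Zve Comb.Dve at h1
    have h2 : |c.dpe q v e * (x - q.1 i)| ≤ 2 * w i * |c.dpe q v e| := by
      rw [abs_mul, mul_comm]
      exact mul_le_mul_of_nonneg_right b1 (abs_nonneg _)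
    have h2' := abs_le.1 h2
    have h3 : |σ * ((v.2 i - c.pe q e * v.1 i) - (c.dpe q v e * q.1 i + c.dae q v e))| ≤
        c.err w q v i + 2 * w i * |c.dpe q v e| := by
      rw [abs_mul, hσ, one_mul, abs_le]
      constructor <;> nlinarith [b4'.1, b4'.2, h2'.1, h2'.2]
    have h4 := le_abs_self
      (σ * ((v.2 i - c.pe q e * v.1 i) - (c.dpe q v e * q.1 i + c.dae q v e)))
    linarith

end LCA


end

section

/-!
# SM2: smoothing of a path with one corner
-/

namespace LCA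

open Set Filter
open scoped ContDiff Topology

namespace SM2

/-- The smoothed path. -/
noncomputable def path {n : ℕ} (sh : Shape) (Q V V' : St n) (t δ : ℝ) (s : ℝ) : St n :=
  Q + (s - t) • V + (δ * sh.ΘP ((s - t) / δ)) • (V' - V)

lemma path_smooth {n : ℕ} (sh : Shape) (Q V V' : St n) (t δ : ℝ) :
    ContDiff ℝ ∞ (path sh Q V V' t δ) := by
  unfold path
  have h1 : ContDiff ℝ ∞ (fun s : ℝ => s - t) := contDiff_id.sub contDiff_const
  have h2 : ContDiff ℝ ∞ (fun s : ℝ => (s - t) / δ) := h1.div_const δ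
  have h3 : ContDiff ℝ ∞ (fun s : ℝ => δ * sh.ΘP ((s - t) / δ)) :=
    contDiff_const.mul (sh.ΘP_smooth.comp h2)
  exact (contDiff_const.add (h1.smul contDiff_const)).add (h3.smul contDiff_const)

lemma path_deriv {n : ℕ} (sh : Shape) (Q V V' : St n) (t δ : ℝ) (hδ : 0 < δ) (s : ℝ) :
    deriv (path sh Q V V' t δ) s = V + sh.τ ((s - t) / δ) • (V' - V) := by
  have h1 : HasDerivAt (fun s : ℝ => s - t) 1 s := (hasDerivAt_id s).sub_const t
  have h2 : HasDerivAt (fun s : ℝ => (s - t) / δ) (1 / δ) s := h1.div_const δ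
  have h3 : HasDerivAt (fun s : ℝ => sh.ΘP ((s - t) / δ)) (sh.τ ((s - t) / δ) * (1 / δ)) s :=
    HasDerivAt.comp s (sh.ΘP_deriv ((s - t) / δ)) h2
  have h4 : HasDerivAt (fun s : ℝ => δ * sh.ΘP ((s - t) / δ)) (sh.τ ((s - t) / δ)) s := by
    have h := h3.const_mul δ
    have e : δ * (sh.τ ((s - t) / δ) * (1 / δ)) = sh.τ ((s - t) / δ) := by
      field_simp
    rw [e] at h
    exact h
  have h5 : HasDerivAt (fun s : ℝ => Q + (s - t) • V) ((1 : ℝ) • V) s :=
    (h1.smul_const V).const_add Q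
  have h6 := h5.add (h4.smul_const (V' - V))
  rw [one_smul] at h6
  exact h6.deriv

lemma dist_path {n : ℕ} (sh : Shape) (Q V V' : St n) (t δ : ℝ) (hδ : 0 < δ) (s : ℝ)
    (hs : s ∈ Icc (t - δ) (t + δ)) :
    ‖path sh Q V V' t δ s - Q‖ ≤ δ * (‖V‖ + 2 * ‖V' - V‖) := by
  have hu : |(s - t) / δ| ≤ 1 := by
    rw [abs_div, abs_of_pos hδ, div_le_one hδ, abs_le]
    constructor <;> linarith [hs.1, hs.2]
  have hst : |s - t| ≤ δ := by
    rw [abs_le]
    constructor <;> linarith [hs.1, hs.2]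
  have hT := sh.ΘP_bd ((s - t) / δ) (hu.trans (by norm_num))
  have e : path sh Q V V' t δ s - Q
      = (s - t) • V + (δ * sh.ΘP ((s - t) / δ)) • (V' - V) := by
    unfold path
    abel
  rw [e]
  calc ‖(s - t) • V + (δ * sh.ΘP ((s - t) / δ)) • (V' - V)‖
      ≤ ‖(s - t) • V‖ + ‖(δ * sh.ΘP ((s - t) / δ)) • (V' - V)‖ := norm_add_le _ _
    _ = |s - t| * ‖V‖ + (δ * |sh.ΘP ((s - t) / δ)|) * ‖V' - V‖ := by
        rw [norm_smul, norm_smul, Real.norm_eq_abs, Real.norm_eq_abs, abs_mul, abs_of_pos hδ]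
    _ ≤ δ * ‖V‖ + (δ * 2) * ‖V' - V‖ := by
        gcongr
    _ = δ * (‖V‖ + 2 * ‖V' - V‖) := by ring

end SM2

theorem t_SM2 : Stmt_SM2 := by
  intro n sh U Q V V' t hU hseg η hη
  -- the compact segment
  set g : ℝ → St n × St n := fun l => (Q, (1 - l) • V + l • V') with hg
  have hgc : Continuous g := by
    rw [hg]
    fun_prop
  have hK : IsCompact (g '' Icc (0 : ℝ) 1) := isCompact_Icc.image hgc
  have hKU : g '' Icc (0 : ℝ) 1 ⊆ U := by
    rintro _ ⟨l, hl, rfl⟩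
    exact hseg l hl
  obtain ⟨ε, hε, hεU⟩ := hK.exists_thickening_subset_open hU hKU
  set C : ℝ := ‖V‖ + 2 * ‖V' - V‖ with hC
  have hC0 : 0 ≤ C := by positivity
  set δ : ℝ := min (η / 2) (ε / (2 * (C + 1))) with hδdef
  have hδ : 0 < δ := lt_min (by linarith) (by positivity)
  have hδη : δ < η := lt_of_le_of_lt (min_le_left _ _) (by linarith)
  have hδε : δ * C < ε := by
    have h1 : δ ≤ ε / (2 * (C + 1)) := min_le_right _ _
    have h2 : δ * (2 * (C + 1)) ≤ ε := by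
      rwa [le_div_iff₀ (by positivity)] at h1
    nlinarith
  refine ⟨SM2.path sh Q V V' t δ, δ, hδ, hδη, SM2.path_smooth sh Q V V' t δ, ?_, ?_, ?_⟩
  · intro s hs
    have hu : (s - t) / δ ≤ -1 := by
      rw [div_le_iff₀ hδ]
      linarith
    unfold SM2.path lin
    rw [sh.ΘP_low _ hu, mul_zero, zero_smul, add_zero]
  · intro s hs
    have hu : 1 ≤ (s - t) / δ := by
      rw [le_div_iff₀ hδ]
      linarith
    unfold SM2.path lin
    rw [sh.ΘP_high _ hu, mul_div_cancel₀ _ hδ.ne', smul_sub]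
    abel
  · intro s hs
    apply hεU
    rw [Metric.mem_thickening_iff]
    refine ⟨g (sh.τ ((s - t) / δ)), ⟨_, ⟨(sh.τ_mem _).1, (sh.τ_mem _).2⟩, rfl⟩, ?_⟩
    have hd := SM2.dist_path sh Q V V' t δ hδ s hs
    rw [SM2.path_deriv sh Q V V' t δ hδ s, Prod.dist_eq]
    have e2 : V + sh.τ ((s - t) / δ) • (V' - V)
        = (1 - sh.τ ((s - t) / δ)) • V + sh.τ ((s - t) / δ) • V' := by
      rw [smul_sub, sub_smul, one_smul]
      abel
    have e3 : (g (sh.τ ((s - t) / δ))).1 = Q := rfl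
    have e4 : (g (sh.τ ((s - t) / δ))).2
        = (1 - sh.τ ((s - t) / δ)) • V + sh.τ ((s - t) / δ) • V' := rfl
    apply max_lt
    · rw [e3, dist_eq_norm]
      exact lt_of_le_of_lt hd hδε
    · rw [e4, e2, dist_self]
      exact hε

end LCA


end

section

/-!
# EQA: a different description of the same surface near the time `t`
-/

namespace LCA

open Set Filter
open scoped ContDiff Topology

namespace EQA

theorem deriv_lin {n : ℕ} (Q V : St n) (t s : ℝ) : deriv (lin Q V t) s = V := by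
  have h : HasDerivAt (fun s : ℝ => Q + (s - t) • V) ((1 : ℝ) • V) s :=
    (((hasDerivAt_id s).sub_const t).smul_const V).const_add Q
  have := h.deriv
  rw [one_smul] at this
  exact this

theorem slice_static {m n : ℕ} (sh : Shape) (c : Comb m n) (w : Fin n → ℝ) (s : ℝ) (q v : St n) :
    c.slice w (c.sp sh) s q v = c.slice w (c.sp sh) 0 q v := rfl

theorem mem_surf {m n : ℕ} (sh : Shape) (c : Comb m n) (w : Fin n → ℝ) (Q V : St n) (t : ℝ)
    (r : E5) : r ∈ c.surf w (c.sp sh) (lin Q V t) ↔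
      r.2 ∈ c.slice w (c.sp sh) 0 (lin Q V t r.1) V := by
  change r.2 ∈ c.slice w (c.sp sh) r.1 (lin Q V t r.1) (deriv (lin Q V t) r.1) ↔ _
  rw [deriv_lin, slice_static]

theorem down_mono {J J' : Set ℝ} {A : Set E5} (h : J' ⊆ J) (hA : Down J A) : Down J' A :=
  fun q hq hJ c hc hcq => hA q hq (h hJ) c (h hc) hcq

theorem good_mono {J J' : Set ℝ} {A : Set E5} (h : J' ⊆ J) (hA : Good J A) :
    Good J' A where
  closed q hq hJ := hA.closed q hq (h hJ)
  bounded K hK hc := hA.bounded K (hK.trans h) hc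
  chart q hq hJ := hA.chart q hq (h hJ)
  inj q hq q' hq' hJ := hA.inj q hq q' hq' (h hJ)

end EQA

open _root_.LCA.EQA in
theorem t_EQA : Stmt_EQA := by
  intro m n m' n' K sh c w Q V c' w' Q' V' t η hη hs hAt
  obtain ⟨ht, ε, hε, hεt, A, e₀, he₀, he₀t, hG, hD, hA0, hA1⟩ := hAt
  have hm : min ε η ≤ ε := min_le_left _ _
  have hm' : min ε η ≤ η := min_le_right _ _
  have hsub : Ioo 0 (t + min ε η) ⊆ Ioo 0 (t + ε) := Ioo_subset_Ioo_right (by linarith)
  refine ⟨ht, min ε η, lt_min hε hη, lt_of_le_of_lt hm hεt, A, e₀, he₀, he₀t,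
    good_mono hsub hG, down_mono hsub hD, hA0, ?_⟩
  intro q hq
  have h1 : q.1 ∈ Ioo (t - ε) (t + ε) := ⟨by linarith [hq.1], by linarith [hq.2]⟩
  have h2 : q.1 ∈ Ioo (t - η) (t + η) := ⟨by linarith [hq.1], by linarith [hq.2]⟩
  rw [hA1 q h1, mem_surf, mem_surf, hs q.1 h2]

end LCA


end

section

/-!
# TEX: the surface in the symplectization is exact
-/

namespace LCA.TEX

open Set Filter
open scoped ContDiff Topology

/-- The lift of a point. -/
noncomputable def up (q : LC.R4) (F : ℝ) : E5 :=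
  (Real.exp q.1, q.2.1, Real.exp q.1 * q.2.2.1, q.2.2.2, F)

/-- The point in the coordinates `(s, x, p, z)`. -/
noncomputable def pi4 (q : LC.R4) : ℝ × ℝ × ℝ × ℝ :=
  (Real.exp q.1, q.2.1, Real.exp q.1 * q.2.2.1, q.2.2.2)

open Classical in
/-- The value of `F` over a point. -/
noncomputable def FF (A : Set E5) (q : LC.R4) : ℝ :=
  if h : ∃ F, up q F ∈ A then h.choose else 0

theorem FF_spec {A : Set E5} {q : LC.R4} (hq : q ∈ surfL A) : up q (FF A q) ∈ A := by
  have h : ∃ F, up q F ∈ A := hq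
  have e : FF A q = h.choose := by
    unfold FF
    exact dif_pos h
  rw [e]
  exact h.choose_spec

theorem FF_eq {A : Set E5} (hG : Good (Ioi 0) A) {q : LC.R4} {F : ℝ} (h : up q F ∈ A) :
    FF A q = F := by
  have h1 : up q (FF A q) ∈ A := FF_spec ⟨F, h⟩
  have h2 := hG.inj _ h1 _ h (Real.exp_pos _) rfl rfl rfl rfl
  have h3 : (up q (FF A q)).2.2.2.2 = (up q F).2.2.2.2 := by rw [h2]
  exact h3

theorem up_continuous : Continuous (fun a : LC.R4 × ℝ => up a.1 a.2) := by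
  unfold up
  fun_prop

theorem pi4_contDiff : ContDiff ℝ ∞ pi4 := by
  unfold pi4
  fun_prop

theorem FF_tendsto {A : Set E5} (hG : Good (Ioi 0) A) {φ : ℝ × ℝ → LC.R4} {u₀ : ℝ × ℝ}
    (hφ : ContinuousAt φ u₀) (hm : ∀ᶠ w in 𝓝 u₀, φ w ∈ surfL A) :
    Tendsto (fun w => FF A (φ w)) (𝓝 u₀) (𝓝 (FF A (φ u₀))) := by
  have e0 : 0 < Real.exp (φ u₀).1 := Real.exp_pos _
  have hKc : IsCompact (Icc (Real.exp (φ u₀).1 / 2) (2 * Real.exp (φ u₀).1)) := isCompact_Icc
  have hKs : Icc (Real.exp (φ u₀).1 / 2) (2 * Real.exp (φ u₀).1) ⊆ Ioi (0 : ℝ) := by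
    intro x hx
    exact lt_of_lt_of_le (by positivity) hx.1
  obtain ⟨M, hM⟩ := hG.bounded _ hKs hKc
  have hc1 : ContinuousAt (fun w => Real.exp (φ w).1) u₀ := by fun_prop
  have hev : ∀ᶠ w in 𝓝 u₀, Real.exp (φ w).1 ∈
      Icc (Real.exp (φ u₀).1 / 2) (2 * Real.exp (φ u₀).1) := by
    apply hc1
    exact Icc_mem_nhds (by linarith) (by linarith)
  apply (isCompact_Icc (a := -M) (b := M)).tendsto_nhds_of_unique_mapClusterPt
  · filter_upwards [hev, hm] with w hw hw2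
    have h1 := hM _ (FF_spec hw2) hw
    have h2 : ‖(up (φ w) (FF A (φ w))).2.2.2.2‖ ≤ M :=
      (norm_snd_le _).trans ((norm_snd_le _).trans ((norm_snd_le _).trans h1))
    have h3 : |FF A (φ w)| ≤ M := h2
    exact abs_le.1 h3
  · intro y _ hy
    rw [mapClusterPt_iff_frequently] at hy
    have hcl : up (φ u₀) y ∈ closure A := by
      rw [mem_closure_iff_nhds]
      intro N hN
      have hc : Tendsto (fun a : LC.R4 × ℝ => up a.1 a.2) (𝓝 (φ u₀, y)) (𝓝 (up (φ u₀) y)) :=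
        up_continuous.continuousAt
      have h1 := hc hN
      rw [mem_map, mem_nhds_prod_iff] at h1
      obtain ⟨N1, hN1, N2, hN2, h12⟩ := h1
      have h2 : ∀ᶠ w in 𝓝 u₀, φ w ∈ N1 := hφ hN1
      have h3 := (hy N2 hN2).and_eventually (h2.and hm)
      obtain ⟨w, hw1, hw2, hw3⟩ := h3.exists
      exact ⟨up (φ w) (FF A (φ w)), h12 (mk_mem_prod hw2 hw1), FF_spec hw3⟩
    have h4 := hG.closed _ hcl (Real.exp_pos _)
    exact (FF_eq hG h4).symm

/-- Near a point of a chart the lift factors through an exact chart. -/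
theorem factor (hLFI : Stmt_LFI) {A : Set E5} (hG : Good (Ioi 0) A) {φ : ℝ × ℝ → LC.R4}
    {u₀ : ℝ × ℝ} (hφ : ContDiffAt ℝ ∞ φ u₀) (hm : ∀ᶠ w in 𝓝 u₀, φ w ∈ surfL A) :
    ∃ (f₀ : ℝ × ℝ → E5) (κ : ℝ × ℝ → ℝ × ℝ), ExactChart f₀ (κ u₀) ∧ ContDiffAt ℝ ∞ κ u₀ ∧
      ∀ᶠ w in 𝓝 u₀, up (φ w) (FF A (φ w)) = f₀ (κ w) := by
  have hr : up (φ u₀) (FF A (φ u₀)) ∈ A := FF_spec hm.self_of_nhds
  obtain ⟨f₀, a, hE, ha, -, hN⟩ := hG.chart _ hr (Real.exp_pos _)
  obtain ⟨g, U₀, V₀, hU₀, haU, hV₀, haV, -, hg, hinv⟩ := hLFI f₀ a hE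
  have hpa : ((f₀ a).1, (f₀ a).2.1, (f₀ a).2.2.1, (f₀ a).2.2.2.1) = pi4 (φ u₀) := by
    rw [ha]; rfl
  have hga : g (pi4 (φ u₀)) = a := by
    rw [← hpa]
    exact (hinv a haU).2
  have hκs : ContDiffAt ℝ ∞ (fun w => g (pi4 (φ w))) u₀ := by
    have h1 : ContDiffAt ℝ ∞ g (pi4 (φ u₀)) := by
      apply hg.contDiffAt
      exact hV₀.mem_nhds (hpa ▸ haV)
    have h2 : ContDiffAt ℝ ∞ (fun w => pi4 (φ w)) u₀ :=
      pi4_contDiff.contDiffAt.comp u₀ hφ
    exact ContDiffAt.comp (g := g) (f := fun w => pi4 (φ w)) u₀ h1 h2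
  refine ⟨f₀, fun w => g (pi4 (φ w)), ?_, hκs, ?_⟩
  · show ExactChart f₀ (g (pi4 (φ u₀)))
    rw [hga]
    exact hE
  · have hT : Tendsto (fun w => up (φ w) (FF A (φ w))) (𝓝 u₀)
        (𝓝[A] (up (φ u₀) (FF A (φ u₀)))) := by
      apply tendsto_nhdsWithin_iff.2
      constructor
      · have h1 : Tendsto (fun w => (φ w, FF A (φ w))) (𝓝 u₀) (𝓝 (φ u₀, FF A (φ u₀))) :=
          Filter.Tendsto.prodMk_nhds hφ.continuousAt (FF_tendsto hG hφ.continuousAt hm)
        exact (up_continuous.continuousAt (x := (φ u₀, FF A (φ u₀)))).tendsto.comp h1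
      · filter_upwards [hm] with w hw
        exact FF_spec hw
    have h2 := hT (hN U₀ (hU₀.mem_nhds haU))
    rw [mem_map] at h2
    filter_upwards [h2] with w hw
    obtain ⟨b, hb, hfb⟩ := hw
    have h3 : ((f₀ b).1, (f₀ b).2.1, (f₀ b).2.2.1, (f₀ b).2.2.2.1) = pi4 (φ w) := by
      rw [hfb]; rfl
    have h4 : g (pi4 (φ w)) = b := by
      rw [← h3]
      exact (hinv b hb).2
    rw [h4]
    exact hfb.symm

/-- The primitive. -/
noncomputable def prim (A : Set E5) (q : LC.R4) : ℝ := Real.exp q.1 * q.2.2.2 - FF A q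

theorem prim_chart (hLFI : Stmt_LFI) {A : Set E5} (hG : Good (Ioi 0) A) {φ : ℝ × ℝ → LC.R4}
    {u₀ : ℝ × ℝ} (hφ : ContDiffAt ℝ ∞ φ u₀) (hm : ∀ᶠ w in 𝓝 u₀, φ w ∈ surfL A) :
    ContDiffAt ℝ ∞ (fun w => prim A (φ w)) u₀ ∧
      ∀ v, fderiv ℝ (fun w => prim A (φ w)) u₀ v = LC.lam (φ u₀) (fderiv ℝ φ u₀ v) := by
  obtain ⟨f₀, κ, hE, hκ, hev⟩ := factor hLFI hG hφ hm
  have hf₀ : ContDiffAt ℝ ∞ f₀ (κ u₀) := hE.smooth.self_of_nhds
  have hGs : ContDiffAt ℝ ∞ (fun w => f₀ (κ w)) u₀ := hf₀.comp u₀ hκ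
  have heq : (fun w => prim A (φ w)) =ᶠ[𝓝 u₀]
      fun w => Real.exp (φ w).1 * (φ w).2.2.2 - (f₀ (κ w)).2.2.2.2 := by
    filter_upwards [hev] with w hw
    rw [← hw]
    rfl
  have hs1 : ContDiffAt ℝ ∞ (fun w => Real.exp (φ w).1 * (φ w).2.2.2) u₀ := by fun_prop
  have hs2 : ContDiffAt ℝ ∞ (fun w => (f₀ (κ w)).2.2.2.2) u₀ := by fun_prop
  refine ⟨(hs1.sub hs2).congr_of_eventuallyEq heq, ?_⟩
  intro v
  have hne : (∞ : WithTop ℕ∞) ≠ 0 := by simp
  have dφ : HasFDerivAt φ (fderiv ℝ φ u₀) u₀ := (hφ.differentiableAt hne).hasFDerivAt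
  have dκ : HasFDerivAt κ (fderiv ℝ κ u₀) u₀ := (hκ.differentiableAt hne).hasFDerivAt
  have df : HasFDerivAt f₀ (fderiv ℝ f₀ (κ u₀)) (κ u₀) :=
    (hf₀.differentiableAt hne).hasFDerivAt
  have dG : HasFDerivAt (fun w => f₀ (κ w)) ((fderiv ℝ f₀ (κ u₀)).comp (fderiv ℝ κ u₀)) u₀ :=
    df.comp u₀ dκ
  set G' := (fderiv ℝ f₀ (κ u₀)).comp (fderiv ℝ κ u₀) with hG'
  have hex := hE.exact.self_of_nhds (fderiv ℝ κ u₀ v)
  have hr : up (φ u₀) (FF A (φ u₀)) = f₀ (κ u₀) := hev.self_of_nhds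
  have c1 : (f₀ (κ u₀)).2.2.2.1 = (φ u₀).2.2.2 := by rw [← hr]; rfl
  have c2 : (f₀ (κ u₀)).2.2.1 = Real.exp (φ u₀).1 * (φ u₀).2.2.1 := by rw [← hr]; rfl
  -- the first two coordinates of the derivative
  have d1 : HasFDerivAt (fun w => (f₀ (κ w)).1)
      ((ContinuousLinearMap.fst ℝ ℝ (ℝ × ℝ × ℝ × ℝ)).comp G') u₀ := dG.fst
  have d2 : HasFDerivAt (fun w => (f₀ (κ w)).2.1)
      ((ContinuousLinearMap.fst ℝ ℝ (ℝ × ℝ × ℝ)).comp
        ((ContinuousLinearMap.snd ℝ ℝ (ℝ × ℝ × ℝ × ℝ)).comp G')) u₀ := dG.snd.fst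
  have d5 : HasFDerivAt (fun w => (f₀ (κ w)).2.2.2.2)
      ((ContinuousLinearMap.snd ℝ ℝ ℝ).comp ((ContinuousLinearMap.snd ℝ ℝ (ℝ × ℝ)).comp
        ((ContinuousLinearMap.snd ℝ ℝ (ℝ × ℝ × ℝ)).comp
        ((ContinuousLinearMap.snd ℝ ℝ (ℝ × ℝ × ℝ × ℝ)).comp G')))) u₀ := dG.snd.snd.snd.snd
  have e1 : HasFDerivAt (fun w => Real.exp (φ w).1)
      (Real.exp (φ u₀).1 • ((ContinuousLinearMap.fst ℝ ℝ (ℝ × ℝ × ℝ)).comp (fderiv ℝ φ u₀))) u₀ :=
    dφ.fst.exp
  have e2 : HasFDerivAt (fun w => (φ w).2.1)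
      ((ContinuousLinearMap.fst ℝ ℝ (ℝ × ℝ)).comp
        ((ContinuousLinearMap.snd ℝ ℝ (ℝ × ℝ × ℝ)).comp (fderiv ℝ φ u₀))) u₀ := dφ.snd.fst
  have e3 : HasFDerivAt (fun w => (φ w).2.2.2)
      ((ContinuousLinearMap.snd ℝ ℝ ℝ).comp ((ContinuousLinearMap.snd ℝ ℝ (ℝ × ℝ)).comp
        ((ContinuousLinearMap.snd ℝ ℝ (ℝ × ℝ × ℝ)).comp (fderiv ℝ φ u₀)))) u₀ := dφ.snd.snd.snd
  have q1 : (fun w => Real.exp (φ w).1) =ᶠ[𝓝 u₀] fun w => (f₀ (κ w)).1 := by
    filter_upwards [hev] with w hw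
    rw [← hw]; rfl
  have q2 : (fun w => (φ w).2.1) =ᶠ[𝓝 u₀] fun w => (f₀ (κ w)).2.1 := by
    filter_upwards [hev] with w hw
    rw [← hw]; rfl
  have g1 : (G' v).1 = Real.exp (φ u₀).1 * (fderiv ℝ φ u₀ v).1 := by
    have := (d1.congr_of_eventuallyEq q1).unique e1
    have := congrArg (fun L => L v) this
    exact this
  have g2 : (G' v).2.1 = (fderiv ℝ φ u₀ v).2.1 := by
    have := (d2.congr_of_eventuallyEq q2).unique e2
    have := congrArg (fun L => L v) this
    exact this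
  have g5 : (G' v).2.2.2.2 = (φ u₀).2.2.2 * (G' v).1 +
      Real.exp (φ u₀).1 * (φ u₀).2.2.1 * (G' v).2.1 := by
    rw [c1, c2] at hex
    exact hex
  have hD := ((e1.mul e3).sub d5).congr_of_eventuallyEq heq
  rw [hD.fderiv]
  have hval : ((Real.exp (φ u₀).1 • ((ContinuousLinearMap.snd ℝ ℝ ℝ).comp
      ((ContinuousLinearMap.snd ℝ ℝ (ℝ × ℝ)).comp
        ((ContinuousLinearMap.snd ℝ ℝ (ℝ × ℝ × ℝ)).comp (fderiv ℝ φ u₀)))) +
      (φ u₀).2.2.2 • (Real.exp (φ u₀).1 •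
        ((ContinuousLinearMap.fst ℝ ℝ (ℝ × ℝ × ℝ)).comp (fderiv ℝ φ u₀)))) -
      ((ContinuousLinearMap.snd ℝ ℝ ℝ).comp ((ContinuousLinearMap.snd ℝ ℝ (ℝ × ℝ)).comp
        ((ContinuousLinearMap.snd ℝ ℝ (ℝ × ℝ × ℝ)).comp
        ((ContinuousLinearMap.snd ℝ ℝ (ℝ × ℝ × ℝ × ℝ)).comp G'))))) v =
      Real.exp (φ u₀).1 * (fderiv ℝ φ u₀ v).2.2.2 +
        (φ u₀).2.2.2 * (Real.exp (φ u₀).1 * (fderiv ℝ φ u₀ v).1) - (G' v).2.2.2.2 := rfl
  rw [hval, g5, g1, g2]
  unfold LC.lam LC.alpha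
  ring

end LCA.TEX

namespace LCA

open Set Filter
open scoped ContDiff Topology

theorem t_TEX (hLFI : Stmt_LFI) : Stmt_TEX := by
  intro A hG
  refine ⟨TEX.prim A, ?_, ?_⟩
  · intro q F h
    have h1 : TEX.FF A q = F := TEX.FF_eq hG h
    unfold TEX.prim
    rw [h1]
  · intro U V φ hφ
    have key : ∀ u ∈ U, ContDiffAt ℝ ∞ (fun w => TEX.prim A (φ w)) u ∧
        ∀ v, fderiv ℝ (fun w => TEX.prim A (φ w)) u v = LC.lam (φ u) (fderiv ℝ φ u v) := by
      intro u hu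
      apply TEX.prim_chart hLFI hG (hφ.smooth.contDiffAt (hφ.openU.mem_nhds hu))
      filter_upwards [hφ.openU.mem_nhds hu] with w hw
      have h1 : φ w ∈ φ '' U := mem_image_of_mem φ hw
      rw [hφ.image] at h1
      exact h1.1
    exact ⟨fun u hu => (key u hu).1.contDiffWithinAt, fun u hu v => (key u hu).2 v⟩

end LCA


end

section

/-!
# Part A, module TTO: closedness, compactness and connectedness in the symplectization
-/

namespace LCA

open Set Filter
open scoped ContDiff Topology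

namespace TTO

/-- the map to the symplectization -/
noncomputable def sg (q : E5) : LC.R4 := (Real.log q.1, q.2.1, q.2.2.1 / q.1, q.2.2.2.1)

theorem sg_cont : ContinuousOn sg {q : E5 | 0 < q.1} := by
  have h1 : ContinuousOn (fun q : E5 => Real.log q.1) {q : E5 | 0 < q.1} :=
    ContinuousOn.log continuous_fst.continuousOn fun q hq => ne_of_gt hq
  have h2 : ContinuousOn (fun q : E5 => q.2.2.1 / q.1) {q : E5 | 0 < q.1} :=
    ContinuousOn.div (by fun_prop) (by fun_prop) fun q hq => ne_of_gt hq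
  have h3 : ContinuousOn (fun q : E5 => q.2.1) {q : E5 | 0 < q.1} := by fun_prop
  have h4 : ContinuousOn (fun q : E5 => q.2.2.2.1) {q : E5 | 0 < q.1} := by fun_prop
  exact h1.prodMk (h3.prodMk (h2.prodMk h4))

theorem sg_mem {A : Set E5} {q : E5} (hq : q ∈ A) (h0 : 0 < q.1) : sg q ∈ surfL A := by
  refine ⟨q.2.2.2.2, ?_⟩
  have e : (Real.exp (sg q).1, (sg q).2.1, Real.exp (sg q).1 * (sg q).2.2.1, (sg q).2.2.2,
      q.2.2.2.2) = q := by
    have h1 : Real.exp (sg q).1 = q.1 := Real.exp_log h0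
    have h2 : q.1 * (sg q).2.2.1 = q.2.2.1 := mul_div_cancel₀ _ (ne_of_gt h0)
    rw [h1, h2]
    rfl
  rw [e]
  exact hq

theorem sg_lift (r : LC.R4) (F : ℝ) :
    sg (Real.exp r.1, r.2.1, Real.exp r.1 * r.2.2.1, r.2.2.2, F) = r := by
  have h1 : Real.exp r.1 * r.2.2.1 / Real.exp r.1 = r.2.2.1 := by
    field_simp
  unfold sg
  simp only [Real.log_exp, h1]

theorem slab_compact {A : Set E5} (hG : Good (Ioi 0) A) (a b : ℝ) (ha : 0 < a) :
    IsCompact {q ∈ A | q.1 ∈ Icc a b} := by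
  have hK : Icc a b ⊆ Ioi (0 : ℝ) := fun x hx => lt_of_lt_of_le ha hx.1
  obtain ⟨M, hM⟩ := hG.bounded (Icc a b) hK isCompact_Icc
  have hc : IsCompact (Icc a b ×ˢ Metric.closedBall (0 : ℝ × ℝ × ℝ × ℝ) M) :=
    isCompact_Icc.prod (isCompact_closedBall _ _)
  refine hc.of_isClosed_subset ?_ ?_
  · refine isClosed_of_closure_subset fun q hq => ?_
    have h1 : q.1 ∈ Icc a b := by
      have : closure {q ∈ A | q.1 ∈ Icc a b} ⊆ {q : E5 | q.1 ∈ Icc a b} :=
        closure_minimal (fun q hq => hq.2) (isClosed_Icc.preimage continuous_fst)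
      exact this hq
    exact ⟨hG.closed q (closure_mono (fun q hq => hq.1) hq) (hK h1), h1⟩
  · rintro q ⟨hq, h1⟩
    refine ⟨h1, ?_⟩
    rw [mem_closedBall_zero_iff]
    exact hM q hq h1

theorem compact {A : Set E5} (hG : Good (Ioi 0) A) {S : ℝ} (hS : ∀ q ∈ A, 0 < q.1 → q.1 ≤ S)
    (T : ℝ) : IsCompact (surfL A ∩ {q | -T ≤ q.1}) := by
  have h1 := slab_compact hG (Real.exp (-T)) S (Real.exp_pos _)
  have h2 : sg '' {q ∈ A | q.1 ∈ Icc (Real.exp (-T)) S} = surfL A ∩ {q | -T ≤ q.1} := by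
    ext r
    constructor
    · rintro ⟨q, ⟨hq, hqI⟩, rfl⟩
      have h0 : 0 < q.1 := lt_of_lt_of_le (Real.exp_pos _) hqI.1
      exact ⟨sg_mem hq h0, (Real.le_log_iff_exp_le h0).2 hqI.1⟩
    · rintro ⟨⟨F, hF⟩, hT⟩
      exact ⟨_, ⟨hF, Real.exp_le_exp.2 hT, hS _ hF (Real.exp_pos _)⟩, sg_lift r F⟩
  rw [← h2]
  refine h1.image_of_continuousOn (sg_cont.mono ?_)
  rintro q ⟨-, hqI⟩
  exact lt_of_lt_of_le (Real.exp_pos _) hqI.1

theorem closed {A : Set E5} (hG : Good (Ioi 0) A) {S : ℝ} (hS : ∀ q ∈ A, 0 < q.1 → q.1 ≤ S) :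
    IsClosed (surfL A) := by
  refine isClosed_of_closure_subset fun p hp => ?_
  have hc : IsClosed (surfL A ∩ {q | -(1 - p.1) ≤ q.1}) := (compact hG hS (1 - p.1)).isClosed
  have ho : IsOpen {q : LC.R4 | p.1 - 1 < q.1} := isOpen_lt continuous_const continuous_fst
  have hpo : p ∈ {q : LC.R4 | p.1 - 1 < q.1} := by
    change p.1 - 1 < p.1
    linarith
  have h1 : p ∈ closure (surfL A ∩ {q | -(1 - p.1) ≤ q.1}) := by
    rw [mem_closure_iff_nhds] at hp ⊢
    intro t ht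
    obtain ⟨q, ⟨hqt, hqo⟩, hqA⟩ := hp (t ∩ {q : LC.R4 | p.1 - 1 < q.1})
      (inter_mem ht (ho.mem_nhds hpo))
    refine ⟨q, hqt, hqA, ?_⟩
    have : p.1 - 1 < q.1 := hqo
    change -(1 - p.1) ≤ q.1
    linarith
  exact (hc.closure_subset h1).1

/-- the part of the surface at small times -/
theorem low_mem {K : Set LC.R3} {A : Set E5} {e₀ : ℝ} (h : Agree (Ioo 0 e₀) A (cyl K)) (q : LC.R4)
    (hq : Real.exp q.1 < e₀) : q ∈ surfL A ↔ q.2 ∈ K := by
  have hE := Real.exp_pos q.1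
  constructor
  · rintro ⟨F, hF⟩
    obtain ⟨r, hr, he⟩ := (h _ ⟨hE, hq⟩).1 hF
    simp only [Prod.mk.injEq] at he
    obtain ⟨h1, h2, h3, -⟩ := he
    have h2' : q.2.2.1 = r.2.1 := mul_left_cancel₀ (ne_of_gt hE) h2
    have : q.2 = r := Prod.ext h1 (Prod.ext h2' h3)
    rw [this]
    exact hr
  · intro hr
    refine ⟨Real.exp q.1 * q.2.2.2, (h _ ⟨hE, hq⟩).2 ⟨q.2, hr, rfl⟩⟩

theorem connected (Λ : LC.LegKnot) {A : Set E5} {e₀ : ℝ} (hD : Down (Ioi 0) A) (he : 0 < e₀)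
    (h : Agree (Ioo 0 e₀) A (cyl Λ.carrier)) : IsConnected (surfL A) := by
  set Lo : Set LC.R4 := Iio (Real.log e₀) ×ˢ Λ.carrier with hLo
  have hlow : ∀ q ∈ Lo, q ∈ surfL A := by
    rintro q ⟨hq1, hq2⟩
    exact (low_mem h q ((Real.lt_log_iff_exp_lt he).1 hq1)).2 hq2
  have hLoc : IsPreconnected Lo :=
    isPreconnected_Iio.prod (isPreconnected_range Λ.smooth.continuous)
  have hbase : ((Real.log e₀ - 1, Λ.γ 0) : LC.R4) ∈ Lo :=
    ⟨by change Real.log e₀ - 1 < Real.log e₀; linarith, ⟨0, rfl⟩⟩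
  refine ⟨⟨_, hlow _ hbase⟩, isPreconnected_of_forall (Real.log e₀ - 1, Λ.γ 0) ?_⟩
  rintro y ⟨F, hF⟩
  have hy0 : 0 < Real.exp y.1 := Real.exp_pos _
  obtain ⟨q', hq', hc, hJ⟩ := hD _ hF hy0 (min (Real.exp y.1) (e₀ / 2))
    (lt_min hy0 (by positivity)) (min_le_left _ _)
  have hpm := hJ.somePath_mem
  set γ := hJ.somePath with hγ
  have hpos : ∀ t, 0 < (γ t).1 := fun t =>
    lt_of_lt_of_le (lt_min hy0 (by positivity)) (hpm t).2.1
  have hcont : Continuous fun t => sg (γ t) :=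
    sg_cont.comp_continuous γ.continuous hpos
  have hP : IsPreconnected (range fun t => sg (γ t)) := isPreconnected_range hcont
  have hq'0 : 0 < q'.1 := by
    rw [hc]
    exact lt_min hy0 (by positivity)
  have hq'e : q'.1 < e₀ := by
    rw [hc]
    exact lt_of_le_of_lt (min_le_right _ _) (by linarith)
  have hmeet : sg q' ∈ Lo := by
    have h1 : Real.exp (sg q').1 = q'.1 := Real.exp_log hq'0
    have h2 : Real.exp (sg q').1 < e₀ := by rw [h1]; exact hq'e
    exact ⟨(Real.lt_log_iff_exp_lt he).2 h2, (low_mem h _ h2).1 (sg_mem hq' hq'0)⟩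
  refine ⟨Lo ∪ range fun t => sg (γ t), ?_, Or.inl hbase, Or.inr ⟨0, ?_⟩, ?_⟩
  · rintro r (hr | ⟨t, rfl⟩)
    · exact hlow r hr
    · exact sg_mem (hpm t).1 (hpos t)
  · change sg (γ 0) = y
    rw [γ.source]
    exact sg_lift y F
  · exact IsPreconnected.union (sg q') hmeet ⟨1, by change sg (γ 1) = _; rw [γ.target]⟩ hLoc hP

end TTO

theorem t_TTO : Stmt_TTO := by
  intro Λ A e₀ S hG hD he hA hS
  exact ⟨TTO.closed hG hS, TTO.connected Λ hD he hA, TTO.compact hG hS⟩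

end LCA


end

section

/-!
# SDP: saddle transition
-/

namespace LCA

open Set Filter
open scoped ContDiff Topology

namespace SDP

theorem lin_lin {n : ℕ} (Q V : St n) (a t : ℝ) : lin (lin Q V a t) V t = lin Q V a := by
  funext s
  unfold lin
  module

theorem agree_mono {J J' : Set ℝ} {A A' : Set E5} (h : Agree J A A') (hJ : J' ⊆ J) :
    Agree J' A A' := fun q hq => h q (hJ hq)

theorem down_mono {J J' : Set ℝ} {A : Set E5} (h : Down J A) (hJ : J' ⊆ J) : Down J' A :=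
  fun q hq hqJ c hc hcq => h q hq (hJ hqJ) c (hJ hc) hcq

theorem exists_eps {a b c d t t' : ℝ} (h1 : a < t) (h2 : t < b) (h3 : c < t') (h4 : t' < d) :
    ∃ ε : ℝ, 0 < ε ∧ a ≤ t - ε ∧ t + ε ≤ b ∧ c ≤ t' - ε ∧ t' + ε ≤ d := by
  refine ⟨min (min (t - a) (b - t)) (min (t' - c) (d - t')), ?_, ?_, ?_, ?_, ?_⟩
  · refine lt_min (lt_min ?_ ?_) (lt_min ?_ ?_) <;> linarith
  · have := (min_le_left (min (t - a) (b - t)) (min (t' - c) (d - t'))).trans (min_le_left _ _)
    linarith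
  · have := (min_le_left (min (t - a) (b - t)) (min (t' - c) (d - t'))).trans (min_le_right _ _)
    linarith
  · have := (min_le_right (min (t - a) (b - t)) (min (t' - c) (d - t'))).trans (min_le_left _ _)
    linarith
  · have := (min_le_right (min (t - a) (b - t)) (min (t' - c) (d - t'))).trans (min_le_right _ _)
    linarith

end SDP

theorem t_SDP (hSDG : Stmt_SDG) (hSDU : Stmt_SDU) (hSDA : Stmt_SDA) (hSDB : Stmt_SDB)
    (hATR : Stmt_ATR) (hRST : Stmt_RST) : Stmt_SDP := by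
  intro m n K sh c c' w L R H₁ H₂ H₃ H₄ E Q V V' η t t' hS h1 h2 h3 h4 h5 hAt
  obtain ⟨ε, hε, e1, e2, e3, e4⟩ := SDP.exists_eps h1 h2 h3 h4
  have hr : 0 < 8 * E.r / E.v := div_pos (mul_pos (by norm_num) hS.pos.r) hS.pos.v
  refine hATR K sh c w (lin Q V E.s₀ t) V t c' w (lin Q V' E.s₀ t') V' t' ε
    (c'.sad w (c'.sp sh) (lin Q V' E.s₀) L R H₁ H₂ H₃ H₄ E sh (E.v * η + 2 * E.r))
    (by linarith) hε hAt ?_ ?_ ?_ ?_
  · refine hRST _ _ _ isOpen_Ioo ?_ (hSDG sh c c' w L R H₁ H₂ H₃ H₄ E Q V V' η hS)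
    exact Ioo_subset_Ioo e1 e4
  · exact SDP.down_mono (hSDU sh c c' w L R H₁ H₂ H₃ H₄ E Q V V' η hS).1
      (Ioo_subset_Ioo e1 e4)
  · rw [SDP.lin_lin]
    exact SDP.agree_mono (hSDB sh c c' w L R H₁ H₂ H₃ H₄ E Q V V' η hS) (Ioo_subset_Ioo e1 e2)
  · rw [SDP.lin_lin]
    exact SDP.agree_mono (hSDA sh c c' w L R H₁ H₂ H₃ H₄ E Q V V' η hS) (Ioo_subset_Ioo e3 e4)

end LCA


end

section

/-!
# The surface near a maximum is good
-/

namespace LCA

open Set Filter
open scoped ContDiff Topology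

namespace DTG

theorem ThP_nonneg (sh : Shape) (U : ℝ) : 0 ≤ sh.ΘP U := by
  have hmono : Monotone sh.ΘP := by
    apply monotone_of_deriv_nonneg
    · exact fun x => (sh.ΘP_deriv x).differentiableAt
    · intro x
      rw [(sh.ΘP_deriv x).deriv]
      exact (sh.τ_mem x).1
  rcases le_total U (-1) with h | h
  · rw [sh.ΘP_low U h]
  · have := hmono h
    rw [sh.ΘP_low (-1) le_rfl] at this
    exact this

theorem ThP_symm (sh : Shape) (U : ℝ) : sh.ΘP U - sh.ΘP (-U) - U = 0 := by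
  have hd : ∀ x, HasDerivAt (fun y : ℝ => sh.ΘP y - sh.ΘP (-y) - y) 0 x := by
    intro x
    have h1 := sh.ΘP_deriv x
    have h2 : HasDerivAt (fun y : ℝ => sh.ΘP (-y)) (sh.τ (-x) * (-1)) x :=
      (sh.ΘP_deriv (-x)).comp x (hasDerivAt_neg x)
    have h3 := (h1.sub h2).sub (hasDerivAt_id x)
    have e : sh.τ x - sh.τ (-x) * (-1) - 1 = 0 := by
      rw [sh.τ_symm x]; ring
    rw [e] at h3
    exact h3
  have hc : ∀ x y : ℝ, (fun y : ℝ => sh.ΘP y - sh.ΘP (-y) - y) x =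
      (fun y : ℝ => sh.ΘP y - sh.ΘP (-y) - y) y := by
    apply is_const_of_deriv_eq_zero
    · exact fun x => (hd x).differentiableAt
    · exact fun x => (hd x).deriv
  have h := hc U 1
  simp only at h
  rw [h, sh.ΘP_high 1 le_rfl, sh.ΘP_low (-1) le_rfl]
  ring

theorem Psi_eq (sh : Shape) (U : ℝ) : sh.Psi U = sh.ΘP U + sh.ΘP (-U) := by
  have := ThP_symm sh U
  unfold Shape.Psi
  linarith

theorem Psi_nonneg (sh : Shape) (U : ℝ) : 0 ≤ sh.Psi U := by
  rw [Psi_eq]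
  exact add_nonneg (ThP_nonneg sh _) (ThP_nonneg sh _)

theorem Psi_out (sh : Shape) (U : ℝ) (h : 1 ≤ |U|) : sh.Psi U = |U| := by
  rw [Psi_eq]
  rcases le_or_gt 0 U with h0 | h0
  · rw [abs_of_nonneg h0] at h ⊢
    rw [sh.ΘP_high U h, sh.ΘP_low (-U) (by linarith)]
    ring
  · rw [abs_of_neg h0] at h ⊢
    rw [sh.ΘP_low U (by linarith), sh.ΘP_high (-U) h]
    ring

theorem abs_le_Psi (sh : Shape) (U : ℝ) : |U| ≤ max 1 (sh.Psi U) := by
  rcases le_total |U| 1 with h | h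
  · exact le_max_of_le_left h
  · rw [Psi_out sh U h]
    exact le_max_right _ _

theorem xi_le (sh : Shape) (u : ℝ) : sh.ξ u ≤ 1 := by
  rcases le_total |u| 1 with h | h
  · exact (abs_le.1 (sh.ξ_in u h)).2
  · rw [sh.ξ_out u h]
    linarith

theorem xi_abs (sh : Shape) (u : ℝ) : sh.ξ |u| = sh.ξ u := by
  rcases abs_choice u with h | h
  · rw [h]
  · rw [h, sh.ξ_even]

theorem xi_anti (sh : Shape) {u w : ℝ} (h : |u| ≤ |w|) : sh.ξ w ≤ sh.ξ u := by
  rw [← xi_abs sh u, ← xi_abs sh w]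
  exact sh.ξ_anti.antitoneOn (abs_nonneg u) (abs_nonneg w) h

/-- The time of the point with the parameters `(u, x)`. -/
theorem pt_time (E : Evt) (sh : Shape) (a : ℝ × ℝ) :
    (E.pt sh (-1) (-1) a).1 =
      E.s₀ + (E.r / E.v) * sh.ξ a.1 - (E.r / E.v) * sh.Psi ((a.2 - E.x₀) / E.r) := by
  simp only [Evt.pt]
  ring

theorem pt_x (E : Evt) (sh : Shape) (ε₁ ε₂ : ℝ) (a : ℝ × ℝ) :
    (E.pt sh ε₁ ε₂ a).2.1 = a.2 := rfl

theorem pt_cont {E : Evt} {sh : Shape} {ε₁ ε₂ : ℝ}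
    (h : ∀ a, ExactChart (E.pt sh ε₁ ε₂) a) : Continuous (E.pt sh ε₁ ε₂) := by
  rw [continuous_iff_continuousAt]
  intro a
  exact ((h a).smooth.self_of_nhds).continuousAt

theorem down (E : Evt) (sh : Shape) (J : Set ℝ) (hE : E.Pos) (hJ : J.OrdConnected)
    (hc : Continuous (E.pt sh (-1) (-1))) : Down J (E.set sh (-1) (-1)) := by
  intro q hq hqJ c hcJ hcq
  obtain ⟨⟨u, x⟩, rfl⟩ := hq
  have hk : 0 < E.r / E.v := div_pos hE.r hE.v
  set k := E.r / E.v with hkdef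
  set B := k * sh.Psi ((x - E.x₀) / E.r) with hB
  have htime : ∀ w : ℝ, (E.pt sh (-1) (-1) (w, x)).1 = E.s₀ + k * sh.ξ w - B := by
    intro w
    rw [pt_time]
  rw [htime] at hcq hqJ
  -- the end of the path
  obtain ⟨w, hw1, hw2⟩ : ∃ w, |u| ≤ w ∧ E.s₀ + k * sh.ξ w - B = c := by
    set W := max (max |u| 1) ((E.s₀ - B - c) / k) with hW
    have hWu : |u| ≤ W := (le_max_left _ _).trans (le_max_left _ _)
    have hW1 : 1 ≤ W := (le_max_right _ _).trans (le_max_left _ _)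
    have hWc : (E.s₀ - B - c) / k ≤ W := le_max_right _ _
    have hxiW : sh.ξ W = -W := by
      rw [sh.ξ_out W (by rw [abs_of_nonneg (by linarith)]; exact hW1),
        abs_of_nonneg (by linarith)]
    have hfc : ContinuousOn (fun w => E.s₀ + k * sh.ξ w - B) (Icc |u| W) := by
      apply Continuous.continuousOn
      have := sh.ξ_smooth.continuous
      fun_prop
    have hmem : c ∈ Icc ((fun w => E.s₀ + k * sh.ξ w - B) W)
        ((fun w => E.s₀ + k * sh.ξ w - B) |u|) := by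
      constructor
      · simp only
        rw [hxiW]
        rw [div_le_iff₀ hk] at hWc
        nlinarith
      · simp only
        rw [xi_abs]
        exact hcq
    obtain ⟨w, hw, hw'⟩ := intermediate_value_Icc' hWu hfc hmem
    exact ⟨w, hw.1, hw'⟩
  obtain ⟨u', hu'1, hu'2⟩ : ∃ u', (∀ y ∈ segment ℝ u u', |u| ≤ |y| ∧ |y| ≤ w) ∧ |u'| = w := by
    have hw0 : 0 ≤ w := (abs_nonneg u).trans hw1
    rcases le_or_gt 0 u with h0 | h0
    · refine ⟨w, ?_, abs_of_nonneg hw0⟩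
      intro y hy
      rw [abs_of_nonneg h0] at hw1 ⊢
      rw [segment_eq_Icc hw1] at hy
      rw [abs_of_nonneg (h0.trans hy.1)]
      exact hy
    · refine ⟨-w, ?_, by rw [abs_neg]; exact abs_of_nonneg hw0⟩
      intro y hy
      rw [abs_of_neg h0] at hw1 ⊢
      rw [segment_symm, segment_eq_Icc (by linarith : -w ≤ u)] at hy
      have hy1 := hy.1
      have hy2 := hy.2
      rw [abs_of_neg (by linarith : y < 0)]
      constructor <;> linarith
  have hu'c : E.s₀ + k * sh.ξ u' - B = c := by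
    rw [← xi_abs sh u', hu'2]
    exact hw2
  refine ⟨E.pt sh (-1) (-1) (u', x), mem_range_self _, ?_, ?_⟩
  · rw [htime]
    exact hu'c
  · have hpc : IsPathConnected ((fun y : ℝ => E.pt sh (-1) (-1) (y, x)) '' segment ℝ u u') := by
      apply IsPathConnected.image
      · exact (convex_segment u u').isPathConnected ⟨u, left_mem_segment ℝ u u'⟩
      · exact hc.comp (by fun_prop)
    have hj := hpc.joinedIn (E.pt sh (-1) (-1) (u, x)) ⟨u, left_mem_segment ℝ u u', rfl⟩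
      (E.pt sh (-1) (-1) (u', x)) ⟨u', right_mem_segment ℝ u u', rfl⟩
    apply hj.mono
    rintro _ ⟨y, hy, rfl⟩
    refine ⟨mem_range_self _, ?_⟩
    obtain ⟨hy1, hy2⟩ := hu'1 y hy
    show (E.pt sh (-1) (-1) (y, x)).1 ∈ Icc c (E.pt sh (-1) (-1) (u, x)).1
    rw [htime, htime]
    constructor
    · rw [← hu'c]
      have := xi_anti sh (u := y) (w := u') (by rw [hu'2]; exact hy2)
      nlinarith
    · have := xi_anti sh (u := u) (w := y) hy1
      nlinarith

end DTG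

theorem t_DTG (hECH : Stmt_ECH) : Stmt_DTG := by
  intro sh E J hE hJo hJc
  obtain ⟨h1, h2, h3, h4, h5⟩ := hECH E sh (-1) (-1) hE (by norm_num) (by norm_num)
  have hk : 0 < E.r / E.v := div_pos hE.r hE.v
  refine ⟨?_, DTG.down E sh J hE hJc (DTG.pt_cont h1), ?_⟩
  · constructor
    · intro q hq _
      rwa [h2.closure_eq] at hq
    · intro K hK hKc
      obtain ⟨M₁, hM₁⟩ := hKc.isBounded.exists_norm_le
      set B := (E.s₀ + M₁ + E.r / E.v) / (E.r / E.v) with hB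
      set X := |E.x₀| + E.r * max 1 B with hX
      obtain ⟨M', hM'⟩ := h5 (max M₁ X)
      refine ⟨M', ?_⟩
      intro q hq hqK
      have hs : |q.1| ≤ M₁ := by
        have := hM₁ q.1 hqK
        rwa [Real.norm_eq_abs] at this
      refine hM' q hq (hs.trans (le_max_left _ _)) ?_
      refine le_trans ?_ (le_max_right _ _)
      obtain ⟨⟨u, x⟩, rfl⟩ := hq
      rw [DTG.pt_time] at hs
      rw [DTG.pt_x]
      have hxi := DTG.xi_le sh u
      have hxi2 : E.r / E.v * sh.ξ u ≤ E.r / E.v := by nlinarith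
      have hP : sh.Psi ((x - E.x₀) / E.r) ≤ B := by
        rw [hB, le_div_iff₀ hk]
        have := (abs_le.1 hs).1
        simp only at this
        nlinarith
      have hU := DTG.abs_le_Psi sh ((x - E.x₀) / E.r)
      have hU2 : |(x - E.x₀) / E.r| ≤ max 1 B := hU.trans (max_le_max le_rfl hP)
      rw [abs_div, abs_of_pos hE.r, div_le_iff₀ hE.r] at hU2
      have hx : |x| ≤ |x - E.x₀| + |E.x₀| := by
        have := abs_add_le (x - E.x₀) E.x₀
        simpa using this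
      simp only
      rw [hX]
      nlinarith
    · intro q hq _
      exact h3 q hq
    · intro q hq q' hq' _ e1 e2 e3 e4
      obtain ⟨a, rfl⟩ := hq
      obtain ⟨b, rfl⟩ := hq'
      have := h4 a b (by
        unfold pr4
        rw [e1, e2, e3, e4])
      rw [this]
  · intro q hq
    obtain ⟨⟨u, x⟩, rfl⟩ := hq
    rw [DTG.pt_time]
    have hxi := DTG.xi_le sh u
    have hP := DTG.Psi_nonneg sh ((x - E.x₀) / E.r)
    have h6 : E.r / E.v * sh.ξ u ≤ E.r / E.v := by nlinarith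
    have h7 : 0 ≤ E.r / E.v * sh.Psi ((x - E.x₀) / E.r) := by positivity
    simp only
    linarith

end LCA


end

section

/-!
# Part A: insertion of a trivial vertex
-/

namespace LCA

open Set Filter
open scoped ContDiff Topology

namespace INS

variable {m n m' n' : ℕ}

/-- (I1) at the right end. -/
lemma rt_pos (c : Comb m n) (q : St n) (e : Fin m) (h : q.1 (c.lf e) < q.1 (c.rt e)) :
    q.2 (c.rt e) = c.pe q e * q.1 (c.rt e) + c.ae q e := by
  have h' : q.1 (c.rt e) - q.1 (c.lf e) ≠ 0 := by linarith [sub_pos.2 h]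
  have h1 : c.pe q e * (q.1 (c.rt e) - q.1 (c.lf e)) = q.2 (c.rt e) - q.2 (c.lf e) := by
    unfold Comb.pe
    rw [div_mul_cancel₀ _ h']
  unfold Comb.ae
  linarith

/-- (I2) at the right end. -/
lemma rt_vel (c : Comb m n) (q v : St n) (e : Fin m) (h : q.1 (c.lf e) < q.1 (c.rt e)) :
    v.2 (c.rt e) = c.dpe q v e * q.1 (c.rt e) + c.pe q e * v.1 (c.rt e) + c.dae q v e := by
  have h' : q.1 (c.rt e) - q.1 (c.lf e) ≠ 0 := by linarith [sub_pos.2 h]
  have h1 : c.dpe q v e * (q.1 (c.rt e) - q.1 (c.lf e)) =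
      v.2 (c.rt e) - v.2 (c.lf e) - c.pe q e * (v.1 (c.rt e) - v.1 (c.lf e)) := by
    unfold Comb.dpe
    rw [div_mul_cancel₀ _ h']
  unfold Comb.dae
  linarith

/-- An edge whose two ends are on a line is this line. -/
lemma pe_of (c : Comb m n) (q : St n) (e : Fin m) (p a : ℝ) (h : q.1 (c.lf e) < q.1 (c.rt e))
    (hl : q.2 (c.lf e) = p * q.1 (c.lf e) + a) (hr : q.2 (c.rt e) = p * q.1 (c.rt e) + a) :
    c.pe q e = p ∧ c.ae q e = a := by
  have h' : q.1 (c.rt e) - q.1 (c.lf e) ≠ 0 := by linarith [sub_pos.2 h]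
  have h1 : c.pe q e = p := by
    unfold Comb.pe
    rw [div_eq_iff h', hl, hr]
    ring
  refine ⟨h1, ?_⟩
  unfold Comb.ae
  rw [h1, hl]
  ring

/-- The same for the velocities. -/
lemma dpe_of (c : Comb m n) (q v : St n) (e : Fin m) (p d b : ℝ)
    (h : q.1 (c.lf e) < q.1 (c.rt e)) (hp : c.pe q e = p)
    (hl : v.2 (c.lf e) = d * q.1 (c.lf e) + p * v.1 (c.lf e) + b)
    (hr : v.2 (c.rt e) = d * q.1 (c.rt e) + p * v.1 (c.rt e) + b) :
    c.dpe q v e = d ∧ c.dae q v e = b := by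
  have h' : q.1 (c.rt e) - q.1 (c.lf e) ≠ 0 := by linarith [sub_pos.2 h]
  have h1 : c.dpe q v e = d := by
    unfold Comb.dpe
    rw [div_eq_iff h', hp, hl, hr]
    ring
  refine ⟨h1, ?_⟩
  unfold Comb.dae
  rw [h1, hp, hl]
  ring

/-- The data of an edge. -/
def Same (c : Comb m n) (c' : Comb m' n') (q v : St n) (q' v' : St n') (d : Fin m)
    (d' : Fin m') : Prop :=
  c'.pe q' d' = c.pe q d ∧ c'.ae q' d' = c.ae q d ∧ c'.dpe q' v' d' = c.dpe q v d ∧
    c'.dae q' v' d' = c.dae q v d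

lemma Same.ept {c : Comb m n} {c' : Comb m' n'} {q v : St n} {q' v' : St n'} {d : Fin m}
    {d' : Fin m'} (h : Same c c' q v q' v' d d') (x : ℝ) :
    c'.ept q' v' d' x = c.ept q v d x := by
  obtain ⟨h1, h2, h3, h4⟩ := h
  unfold Comb.ept
  rw [h1, h2, h3, h4]

/-- The right end of an edge is not a left tip. -/
lemma ty_rt {c : Comb m n} (hc : c.Valid) (e : Fin m) : c.ty (c.rt e) ≠ .L := by
  rcases hc.rt e with h | h
  · exact h.1
  · rw [h.1]; decide

/-- The new combinatorics is valid. -/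
lemma valid {c : Comb m n} {c' : Comb m' n'} {ιE : Fin m → Fin m'} {ιV : Fin n → Fin n'}
    {e₀ : Fin m} {e : Fin m'} {j : Fin n'} (hI : InsComb c c' ιE ιV e₀ e j) : c'.Valid := by
  have hc := hI.valid
  refine ⟨fun i => ?_, fun i => ?_, fun i => ?_, fun d' => ?_, fun d' => ?_⟩
  · -- oka
    rcases hI.covV i with rfl | ⟨k, rfl⟩
    · unfold Comb.OKa
      rw [hI.tyj]
      show c'.rt (c'.ea i) = i
      rw [hI.eaj, hI.rt₀]
    · have hk := hc.oka k
      unfold Comb.OKa at hk ⊢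
      rw [hI.ty k]
      have key : c.rt (c.ea k) = k → c'.rt (c'.ea (ιV k)) = ιV k := by
        intro h
        by_cases he : c.ea k = e₀
        · have hke : c.rt e₀ = k := by rw [← he, h]
          have h1 : c'.ea (ιV (c.rt e₀)) = e := hI.ea₀ (by rw [hke, he])
          rw [hke] at h1
          rw [h1, hI.rte, hke]
        · rw [hI.ea k (fun h' => he h'.2), hI.rt _ he, h]
      cases hty : c.ty k with
      | P => rw [hty] at hk; exact key hk
      | R => rw [hty] at hk; exact key hk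
      | L =>
        rw [hty] at hk
        have hne : ¬ (k = c.rt e₀ ∧ c.ea k = e₀) := by
          rintro ⟨h1, -⟩
          exact ty_rt hc e₀ (by rw [← h1, hty])
        show c'.lf (c'.ea (ιV k)) = ιV k
        rw [hI.ea k hne, hI.lf, hk]
  · -- okb
    rcases hI.covV i with rfl | ⟨k, rfl⟩
    · unfold Comb.OKb
      rw [hI.tyj]
      show c'.lf (c'.eb i) = i
      rw [hI.ebj, hI.lfe]
    · have hk := hc.okb k
      unfold Comb.OKb at hk ⊢
      rw [hI.ty k]
      cases hty : c.ty k with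
      | P =>
        rw [hty] at hk
        have hne : ¬ (k = c.rt e₀ ∧ c.eb k = e₀) := by
          rintro ⟨h1, h2⟩
          rcases hc.rt e₀ with h | h
          · exact hc.ne k (by rw [h2, h1]; exact h.2)
          · have := h.1
            rw [← h1, hty] at this
            exact absurd this (by decide)
        show c'.lf (c'.eb (ιV k)) = ιV k
        rw [hI.eb k hne, hI.lf, hk]
      | R =>
        rw [hty] at hk
        have hk' : c.rt (c.eb k) = k := hk
        show c'.rt (c'.eb (ιV k)) = ιV k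
        by_cases he : c.eb k = e₀
        · have hke : c.rt e₀ = k := by rw [← he, hk']
          have h1 : c'.eb (ιV (c.rt e₀)) = e := hI.eb₀ (by rw [hke, he])
          rw [hke] at h1
          rw [h1, hI.rte, hke]
        · rw [hI.eb k (fun h' => he h'.2), hI.rt _ he, hk']
      | L =>
        rw [hty] at hk
        have hne : ¬ (k = c.rt e₀ ∧ c.eb k = e₀) := by
          rintro ⟨h1, -⟩
          exact ty_rt hc e₀ (by rw [← h1, hty])
        show c'.lf (c'.eb (ιV k)) = ιV k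
        rw [hI.eb k hne, hI.lf, hk]
  · -- ne
    rcases hI.covV i with rfl | ⟨k, rfl⟩
    · rw [hI.eaj, hI.ebj]
      exact hI.newE _
    · by_cases ha : k = c.rt e₀ ∧ c.ea k = e₀
      · have hb : ¬ (k = c.rt e₀ ∧ c.eb k = e₀) := fun h => hc.ne k (by rw [ha.2, h.2])
        have h1 : c'.ea (ιV (c.rt e₀)) = e := hI.ea₀ (by rw [← ha.1, ha.2])
        rw [← ha.1] at h1
        rw [h1, hI.eb k hb]
        exact fun h => hI.newE _ h.symm
      · rw [hI.ea k ha]
        by_cases hb : k = c.rt e₀ ∧ c.eb k = e₀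
        · have h1 : c'.eb (ιV (c.rt e₀)) = e := hI.eb₀ (by rw [← hb.1, hb.2])
          rw [← hb.1] at h1
          rw [h1]
          exact hI.newE _
        · rw [hI.eb k hb]
          exact fun h => hc.ne k (hI.injE h)
  · -- rt
    rcases hI.covE d' with rfl | ⟨d, rfl⟩
    · rw [hI.rte, hI.ty]
      rcases hc.rt e₀ with h | h
      · exact Or.inl ⟨h.1, hI.ea₀ h.2⟩
      · exact Or.inr ⟨h.1, hI.eb₀ h.2⟩
    · by_cases hd : d = e₀
      · subst hd
        rw [hI.rt₀, hI.tyj, hI.eaj]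
        exact Or.inl ⟨by decide, rfl⟩
      · rw [hI.rt d hd, hI.ty]
        rcases hc.rt d with h | h
        · refine Or.inl ⟨h.1, ?_⟩
          rw [hI.ea _ (fun h' => hd (by rw [← h.2, h'.2])), h.2]
        · refine Or.inr ⟨h.1, ?_⟩
          rw [hI.eb _ (fun h' => hd (by rw [← h.2, h'.2])), h.2]
  · -- lf
    rcases hI.covE d' with rfl | ⟨d, rfl⟩
    · rw [hI.lfe, hI.tyj, hI.ebj]
      exact Or.inr ⟨by decide, rfl⟩
    · rw [hI.lf d, hI.ty]
      rcases hc.lf d with h | h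
      · refine Or.inl ⟨h.1, ?_⟩
        rw [hI.ea _ (fun h' => ty_rt hc e₀ (by rw [← h'.1, h.1])), h.2]
      · refine Or.inr ⟨h.1, ?_⟩
        have hne : ¬ (c.lf d = c.rt e₀ ∧ c.eb (c.lf d) = e₀) := by
          rintro ⟨h1, h2⟩
          rcases hc.rt e₀ with h' | h'
          · exact hc.ne (c.lf d) (by rw [h2, h1]; exact h'.2)
          · exact h.1 (by rw [h1]; exact h'.1)
        rw [hI.eb _ hne, h.2]

end INS

theorem t_INS : Stmt_INS := by
  intro m n m' n' sh c c' ιE ιV e₀ e j w w' q v q' v' hI hw hS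
  refine ⟨INS.valid hI, ?_⟩
  have hc := hI.valid
  have hwl := hw (c.lf e₀)
  have hwr := hw (c.rt e₀)
  have hwj := hS.wj
  have hxl : q.1 (c.lf e₀) < q'.1 j := by linarith [hS.left]
  have hxr : q'.1 j < q.1 (c.rt e₀) := by linarith [hS.right]
  -- the data of the edges
  have hE : ∀ d, INS.Same c c' q v q' v' d (ιE d) := by
    intro d
    by_cases hd : d = e₀
    · subst hd
      have h1 : q'.1 (c'.lf (ιE d)) = q.1 (c.lf d) := by rw [hI.lf, hS.qx]
      have h2 : q'.2 (c'.lf (ιE d)) = q.2 (c.lf d) := by rw [hI.lf, hS.qF]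
      have h3 : v'.1 (c'.lf (ιE d)) = v.1 (c.lf d) := by rw [hI.lf, hS.vx]
      have h4 : v'.2 (c'.lf (ιE d)) = v.2 (c.lf d) := by rw [hI.lf, hS.vF]
      have hlt : q'.1 (c'.lf (ιE d)) < q'.1 (c'.rt (ιE d)) := by rw [h1, hI.rt₀]; exact hxl
      have hp := INS.pe_of c' q' (ιE d) (c.pe q d) (c.ae q d) hlt
        (by rw [h1, h2]; unfold Comb.ae; ring) (by rw [hI.rt₀]; exact hS.Fj)
      have hdp := INS.dpe_of c' q' v' (ιE d) (c.pe q d) (c.dpe q v d) (c.dae q v d) hlt hp.1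
        (by rw [h1, h3, h4]; unfold Comb.dae; ring)
        (by rw [hI.rt₀]; linarith [hS.vj])
      exact ⟨hp.1, hp.2, hdp.1, hdp.2⟩
    · have h1 : q'.1 (c'.lf (ιE d)) = q.1 (c.lf d) := by rw [hI.lf, hS.qx]
      have h2 : q'.2 (c'.lf (ιE d)) = q.2 (c.lf d) := by rw [hI.lf, hS.qF]
      have h3 : v'.1 (c'.lf (ιE d)) = v.1 (c.lf d) := by rw [hI.lf, hS.vx]
      have h4 : v'.2 (c'.lf (ιE d)) = v.2 (c.lf d) := by rw [hI.lf, hS.vF]
      have h1' : q'.1 (c'.rt (ιE d)) = q.1 (c.rt d) := by rw [hI.rt d hd, hS.qx]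
      have h2' : q'.2 (c'.rt (ιE d)) = q.2 (c.rt d) := by rw [hI.rt d hd, hS.qF]
      have h3' : v'.1 (c'.rt (ιE d)) = v.1 (c.rt d) := by rw [hI.rt d hd, hS.vx]
      have h4' : v'.2 (c'.rt (ιE d)) = v.2 (c.rt d) := by rw [hI.rt d hd, hS.vF]
      refine ⟨?_, ?_, ?_, ?_⟩ <;>
        simp only [Comb.pe, Comb.ae, Comb.dpe, Comb.dae, h1, h2, h3, h4, h1', h2', h3', h4']
  have he : INS.Same c c' q v q' v' e₀ e := by
    have h1 : q'.1 (c'.rt e) = q.1 (c.rt e₀) := by rw [hI.rte, hS.qx]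
    have h2 : q'.2 (c'.rt e) = q.2 (c.rt e₀) := by rw [hI.rte, hS.qF]
    have h3 : v'.1 (c'.rt e) = v.1 (c.rt e₀) := by rw [hI.rte, hS.vx]
    have h4 : v'.2 (c'.rt e) = v.2 (c.rt e₀) := by rw [hI.rte, hS.vF]
    have hlt : q'.1 (c'.lf e) < q'.1 (c'.rt e) := by rw [h1, hI.lfe]; exact hxr
    have hp := INS.pe_of c' q' e (c.pe q e₀) (c.ae q e₀) hlt (by rw [hI.lfe]; exact hS.Fj)
      (by rw [h1, h2]; exact INS.rt_pos c q e₀ (hS.len e₀))
    have hdp := INS.dpe_of c' q' v' e (c.pe q e₀) (c.dpe q v e₀) (c.dae q v e₀) hlt hp.1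
      (by rw [hI.lfe]; linarith [hS.vj])
      (by rw [h1, h3, h4]; exact INS.rt_vel c q v e₀ (hS.len e₀))
    exact ⟨hp.1, hp.2, hdp.1, hdp.2⟩
  -- the edges at the old vertices
  have hA : ∀ k, INS.Same c c' q v q' v' (c.ea k) (c'.ea (ιV k)) := by
    intro k
    by_cases ha : k = c.rt e₀ ∧ c.ea k = e₀
    · have h1 : c'.ea (ιV (c.rt e₀)) = e := hI.ea₀ (by rw [← ha.1, ha.2])
      rw [← ha.1] at h1
      rw [h1, ha.2]
      exact he
    · rw [hI.ea k ha]
      exact hE _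
  have hB : ∀ k, INS.Same c c' q v q' v' (c.eb k) (c'.eb (ιV k)) := by
    intro k
    by_cases ha : k = c.rt e₀ ∧ c.eb k = e₀
    · have h1 : c'.eb (ιV (c.rt e₀)) = e := hI.eb₀ (by rw [← ha.1, ha.2])
      rw [← ha.1] at h1
      rw [h1, ha.2]
      exact he
    · rw [hI.eb k ha]
      exact hE _
  have hV : ∀ k u, c'.vp w' (c'.sp sh) 0 q' v' (ιV k) u = c.vp w (c.sp sh) 0 q v k u := by
    intro k u
    obtain ⟨a1, a2, a3, a4⟩ := hA k
    obtain ⟨b1, b2, b3, b4⟩ := hB k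
    unfold Comb.vp Comb.vpt Comb.dl Comb.sp
    rw [a1, a2, a3, a4, b1, b3, hI.ty k, hS.hw k, hS.qx k, hS.vx k]
  have hJ : ∀ u, c'.vp w' (c'.sp sh) 0 q' v' j u = c.ept q v e₀ (q'.1 j + w' j * u) := by
    intro u
    obtain ⟨a1, a2, a3, a4⟩ := hE e₀
    obtain ⟨b1, b2, b3, b4⟩ := he
    have hX : (c'.sp sh j).X 0 u = u := by
      unfold Comb.sp
      rw [hI.tyj]
      rfl
    unfold Comb.vp Comb.vpt Comb.dl Comb.ept
    rw [hI.eaj, hI.ebj, a1, a2, a3, a4, b1, b3, hX]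
    refine Prod.ext rfl (Prod.ext ?_ (Prod.ext ?_ ?_)) <;> simp
  -- the ranges
  have hR : ∀ d, d ≠ e₀ → c'.rg w' q' (ιE d) = c.rg w q d := by
    intro d hd
    unfold Comb.rg
    rw [hI.lf, hI.rt d hd, hS.qx, hS.qx, hS.hw, hS.hw]
  have hR₀ : c'.rg w' q' (ιE e₀) = Icc (q.1 (c.lf e₀) + 2 * w (c.lf e₀)) (q'.1 j - 2 * w' j) := by
    unfold Comb.rg
    rw [hI.lf, hI.rt₀, hS.qx, hS.hw]
  have hRe : c'.rg w' q' e = Icc (q'.1 j + 2 * w' j) (q.1 (c.rt e₀) - 2 * w (c.rt e₀)) := by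
    unfold Comb.rg
    rw [hI.lfe, hI.rte, hS.qx, hS.hw]
  ext r
  constructor
  · rintro (⟨d, x, hx, rfl⟩ | ⟨k, u, hu, rfl⟩)
    · by_cases hd : d = e₀
      · subst hd
        have hx1 : q.1 (c.lf d) + 2 * w (c.lf d) ≤ x := hx.1
        have hx2 : x ≤ q.1 (c.rt d) - 2 * w (c.rt d) := hx.2
        rcases le_total x (q'.1 j - 2 * w' j) with h1 | h1
        · exact Or.inl ⟨ιE d, x, by rw [hR₀]; exact ⟨hx1, h1⟩, ((hE d).ept x).symm⟩
        · rcases le_total (q'.1 j + 2 * w' j) x with h2 | h2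
          · exact Or.inl ⟨e, x, by rw [hRe]; exact ⟨h2, hx2⟩, (he.ept x).symm⟩
          · refine Or.inr ⟨j, (x - q'.1 j) / w' j, ?_, ?_⟩
            · rw [abs_div, abs_of_pos hwj, div_le_iff₀ hwj, abs_le]
              constructor <;> linarith
            · rw [hJ, mul_div_cancel₀ _ hwj.ne']
              congr 1
              ring
      · exact Or.inl ⟨ιE d, x, by rw [hR d hd]; exact hx, ((hE d).ept x).symm⟩
    · exact Or.inr ⟨ιV k, u, hu, (hV k u).symm⟩
  · rintro (⟨d', x, hx, rfl⟩ | ⟨k', u, hu, rfl⟩)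
    · rcases hI.covE d' with rfl | ⟨d, rfl⟩
      · rw [hRe] at hx
        refine Or.inl ⟨e₀, x, ⟨?_, hx.2⟩, he.ept x⟩
        have := hx.1
        linarith [hS.left]
      · by_cases hd : d = e₀
        · subst hd
          rw [hR₀] at hx
          refine Or.inl ⟨d, x, ⟨hx.1, ?_⟩, (hE d).ept x⟩
          have := hx.2
          linarith [hS.right]
        · rw [hR d hd] at hx
          exact Or.inl ⟨d, x, hx, (hE d).ept x⟩
    · rcases hI.covV k' with rfl | ⟨k, rfl⟩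
      · refine Or.inl ⟨e₀, _, ⟨?_, ?_⟩, hJ u⟩
        · have h1 := (abs_le.1 hu).1
          nlinarith [hS.left]
        · have h1 := (abs_le.1 hu).2
          nlinarith [hS.right]
      · exact Or.inr ⟨k, u, hu, hV k u⟩

end LCA


end

section

/-!
# WEQ: a profile of width `l w` is a profile of width `w`
-/

namespace LCA

open Set Filter
open scoped ContDiff Topology

namespace WEQ

theorem profBd (sh : Shape) (t : Ty) (s : ℝ) : ProfBd t s (sh.st t) where
  low u hu := by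
    have habs : |u| = -u := abs_of_nonpos (by linarith)
    have h1 : 1 ≤ |u| := by rw [habs]; linarith
    have hξ := sh.ξ_out u h1
    rw [habs] at hξ
    cases t
    · exact ⟨rfl, sh.τ_low u hu, sh.ΘP_low u hu⟩
    · exact ⟨by change sh.ξ u = u; linarith, sh.τ_low u hu, sh.ΘR_low u hu⟩
    · exact ⟨by change -sh.ξ u = -u; linarith, sh.τ_low u hu,
        by change -sh.ΘR u = 0; rw [sh.ΘR_low u hu, neg_zero]⟩
  high u hu := by
    have habs : |u| = u := abs_of_nonneg (by linarith)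
    have h1 : 1 ≤ |u| := by rw [habs]; exact hu
    have hξ := sh.ξ_out u h1
    rw [habs] at hξ
    cases t
    · exact ⟨rfl, sh.τ_high u hu, sh.ΘP_high u hu⟩
    · exact ⟨by change sh.ξ u = -u; linarith, sh.τ_high u hu, sh.ΘR_high u hu⟩
    · exact ⟨by change -sh.ξ u = u; linarith, sh.τ_high u hu,
        by change -sh.ΘR u = u; rw [sh.ΘR_high u hu, neg_neg]⟩
  X_bd u hu := by
    cases t
    · exact hu
    · exact sh.ξ_in u hu
    · change |-sh.ξ u| ≤ 1
      rw [abs_neg]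
      exact sh.ξ_in u hu
  P_mem u := sh.τ_mem u
  Θ_bd u hu := by
    cases t
    · exact sh.ΘP_bd u hu
    · exact sh.ΘR_bd u hu
    · change |-sh.ΘR u| ≤ 2
      rw [abs_neg]
      exact sh.ΘR_bd u hu
  Y_bd u _ := by
    change |(0 : ℝ)| ≤ CY
    rw [abs_zero]
    unfold CY
    norm_num

theorem vp_eq {m n : ℕ} (sh : Shape) (c : Comb m n) (w w' l : Fin n → ℝ) (q v : St n)
    (π : Fin n → Prof) (s : ℝ) (hl : ∀ i, 0 < l i) (hw' : ∀ i, w' i = l i * w i)
    (hπ : ∀ i, ∀ u, (π i).X s u = l i * (sh.st (c.ty i)).X 0 (u / l i) ∧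
      (π i).P s u = sh.τ (u / l i) ∧ (π i).Θ s u = l i * (sh.st (c.ty i)).Θ 0 (u / l i) ∧
      (π i).Y s u = 0) (i : Fin n) (u : ℝ) :
    c.vp w π s q v i (l i * u) = c.vp w' (c.sp sh) 0 q v i u := by
  have hne : l i ≠ 0 := (hl i).ne'
  have hu : l i * u / l i = u := by field_simp
  obtain ⟨h1, h2, h3, h4⟩ := hπ i (l i * u)
  rw [hu] at h1 h2 h3
  unfold Comb.vp Comb.vpt
  rw [h1, h2, h3, h4, hw' i]
  change _ = (q.1 i + l i * w i * (sh.st (c.ty i)).X 0 u, c.pe q (c.ea i) + c.dl q i * sh.τ u,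
    c.dpe q v (c.ea i) * (q.1 i + l i * w i * (sh.st (c.ty i)).X 0 u) + c.dae q v (c.ea i)
      + l i * w i * ((c.dpe q v (c.eb i) - c.dpe q v (c.ea i)) * (sh.st (c.ty i)).Θ 0 u
        + c.dl q i * 0)
      - c.dl q i * sh.τ u * v.1 i,
    c.pe q (c.ea i) * (q.1 i + l i * w i * (sh.st (c.ty i)).X 0 u) + c.ae q (c.ea i)
      + l i * w i * c.dl q i * (sh.st (c.ty i)).Θ 0 u)
  refine Prod.ext ?_ (Prod.ext ?_ (Prod.ext ?_ ?_))
  · change q.1 i + w i * (l i * _) = _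
    ring
  · rfl
  · ring
  · ring

end WEQ

open _root_.LCA.WEQ in
theorem t_WEQ (hVLN : Stmt_VLN) : Stmt_WEQ := by
  intro m n sh c w w' l q v π s hV hw hl hl1 hw' hlen hπ
  have hw'pos : ∀ i, 0 < w' i := fun i => by rw [hw' i]; exact mul_pos (hl i) (hw i)
  have hw'le : ∀ i, w' i ≤ w i := fun i => by
    rw [hw' i]
    nlinarith [hw i, hl1 i]
  have hlt : ∀ e, q.1 (c.lf e) < q.1 (c.rt e) := fun e => by
    have := hlen e
    have h1 := hw (c.lf e)
    have h2 := hw (c.rt e)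
    linarith
  have hbd : ∀ i, ProfBd (c.ty i) 0 (c.sp sh i) := fun i => profBd sh (c.ty i) 0
  have hvln : ∀ i, (∀ u, u ≤ -1 →
      c.vp w' (c.sp sh) 0 q v i u = c.ept q v (c.ea i) (q.1 i + w' i * (c.ty i).inX u)) ∧
      (∀ u, 1 ≤ u →
      c.vp w' (c.sp sh) 0 q v i u = c.ept q v (c.eb i) (q.1 i + w' i * (c.ty i).outX u)) := by
    intro i
    have h := hVLN c w' (c.sp sh) 0 q v i hV hbd hlt
    exact ⟨fun u hu => h.1 u hu rfl, fun u hu => h.2 u hu rfl⟩
  have hvp := vp_eq sh c w w' l q v π s hl hw' hπ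
  apply Set.Subset.antisymm
  · rintro r (⟨e, x, hx, rfl⟩ | ⟨i, u, hu, rfl⟩)
    · left
      refine ⟨e, x, ?_, rfl⟩
      have h1 := hw'le (c.lf e)
      have h2 := hw'le (c.rt e)
      exact ⟨by linarith [hx.1], by linarith [hx.2]⟩
    · have hli := hl i
      have hne : l i ≠ 0 := hli.ne'
      obtain ⟨t, ht⟩ : ∃ t, u = l i * t := ⟨u / l i, by field_simp⟩
      subst ht
      rw [hvp i t]
      have hwt : |w' i * t| ≤ 2 * w i := by
        have h1 : w' i * t = w i * (l i * t) := by rw [hw' i]; ring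
        rw [h1, abs_mul, abs_of_pos (hw i)]
        nlinarith [hw i]
      rw [abs_le] at hwt
      by_cases h2 : |t| ≤ 2
      · right
        exact ⟨i, t, h2, rfl⟩
      · left
        have h2' : 2 < |t| := not_le.mp h2
        rcases lt_or_ge t 0 with h0 | h0
        · rw [abs_of_neg h0] at h2'
          rw [(hvln i).1 t (by linarith)]
          refine ⟨c.ea i, _, ?_, rfl⟩
          have hoka := hV.oka i
          have hwt2 : w' i * t ≤ -(2 * w' i) := by nlinarith [hw'pos i]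
          unfold Comb.OKa at hoka
          cases hty : c.ty i with
          | P =>
            rw [hty] at hoka
            change c.rt (c.ea i) = i at hoka
            have hl2 := hlen (c.ea i)
            have hl3 := hw'le (c.lf (c.ea i))
            change q.1 i + w' i * t ∈ Icc _ _
            rw [hoka] at hl2 ⊢
            exact ⟨by linarith, by linarith⟩
          | R =>
            rw [hty] at hoka
            change c.rt (c.ea i) = i at hoka
            have hl2 := hlen (c.ea i)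
            have hl3 := hw'le (c.lf (c.ea i))
            change q.1 i + w' i * t ∈ Icc _ _
            rw [hoka] at hl2 ⊢
            exact ⟨by linarith, by linarith⟩
          | L =>
            rw [hty] at hoka
            change c.lf (c.ea i) = i at hoka
            have hl2 := hlen (c.ea i)
            have hl3 := hw'le (c.rt (c.ea i))
            change q.1 i + w' i * (-t) ∈ Icc _ _
            rw [hoka] at hl2 ⊢
            exact ⟨by linarith, by linarith⟩
        · rw [abs_of_nonneg h0] at h2'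
          rw [(hvln i).2 t (by linarith)]
          refine ⟨c.eb i, _, ?_, rfl⟩
          have hokb := hV.okb i
          have hwt2 : 2 * w' i ≤ w' i * t := by nlinarith [hw'pos i]
          unfold Comb.OKb at hokb
          cases hty : c.ty i with
          | P =>
            rw [hty] at hokb
            change c.lf (c.eb i) = i at hokb
            have hl2 := hlen (c.eb i)
            have hl3 := hw'le (c.rt (c.eb i))
            change q.1 i + w' i * t ∈ Icc _ _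
            rw [hokb] at hl2 ⊢
            exact ⟨by linarith, by linarith⟩
          | R =>
            rw [hty] at hokb
            change c.rt (c.eb i) = i at hokb
            have hl2 := hlen (c.eb i)
            have hl3 := hw'le (c.lf (c.eb i))
            change q.1 i + w' i * (-t) ∈ Icc _ _
            rw [hokb] at hl2 ⊢
            exact ⟨by linarith, by linarith⟩
          | L =>
            rw [hty] at hokb
            change c.lf (c.eb i) = i at hokb
            have hl2 := hlen (c.eb i)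
            have hl3 := hw'le (c.rt (c.eb i))
            change q.1 i + w' i * t ∈ Icc _ _
            rw [hokb] at hl2 ⊢
            exact ⟨by linarith, by linarith⟩
  · -- the key: a point of the vertex piece of width `w'`
    have hkey : ∀ i t, |l i * t| ≤ 2 →
        c.vp w' (c.sp sh) 0 q v i t ∈ c.slice w π s q v := by
      intro i t ht
      right
      exact ⟨i, l i * t, ht, (hvp i t).symm⟩
    have hkey2 : ∀ i y, 2 * w' i ≤ y → y < 2 * w i →
        ∃ t, 1 ≤ t ∧ w' i * t = y ∧ |l i * t| ≤ 2 ∧ |l i * (-t)| ≤ 2 := by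
      intro i y hy1 hy2
      have hpos := hw'pos i
      have hne : w' i ≠ 0 := hpos.ne'
      have hyt : w' i * (y / w' i) = y := by field_simp
      have h1 : 2 ≤ y / w' i := by
        rw [le_div_iff₀ hpos]
        exact hy1
      have h3 : 0 ≤ l i * (y / w' i) := mul_nonneg (hl i).le (by linarith)
      have h4 : l i * (y / w' i) ≤ 2 := by
        have h5 : w i * (l i * (y / w' i)) = y := by
          calc w i * (l i * (y / w' i)) = (l i * w i) * (y / w' i) := by ring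
            _ = w' i * (y / w' i) := by rw [← hw' i]
            _ = y := hyt
        have h6 := hw i
        by_contra hcon
        have hcon' := not_le.mp hcon
        nlinarith
      refine ⟨y / w' i, by linarith, hyt, ?_, ?_⟩
      · rw [abs_of_nonneg h3]
        exact h4
      · rw [mul_neg, abs_neg, abs_of_nonneg h3]
        exact h4
    rintro r (⟨e, x, hx, rfl⟩ | ⟨i, u, hu, rfl⟩)
    · by_cases h1 : x < q.1 (c.lf e) + 2 * w (c.lf e)
      · have hx1 := hx.1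
        obtain ⟨t, ht1, ht2, ht3, ht4⟩ := hkey2 (c.lf e) (x - q.1 (c.lf e)) (by linarith)
          (by linarith)
        rcases hV.lf e with ⟨hty, hea⟩ | ⟨hty, heb⟩
        · have h := (hvln (c.lf e)).1 (-t) (by linarith)
          rw [hea, hty] at h
          have hxx : q.1 (c.lf e) + w' (c.lf e) * Ty.L.inX (-t) = x := by
            change q.1 (c.lf e) + w' (c.lf e) * (- -t) = x
            rw [neg_neg, ht2]
            ring
          rw [hxx] at h
          rw [← h]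
          exact hkey _ _ ht4
        · have h := (hvln (c.lf e)).2 t ht1
          have hout : (c.ty (c.lf e)).outX t = t := by
            cases hty' : c.ty (c.lf e) with
            | P => rfl
            | R => exact absurd hty' hty
            | L => rfl
          rw [heb, hout, ht2] at h
          have hxx : q.1 (c.lf e) + (x - q.1 (c.lf e)) = x := by ring
          rw [hxx] at h
          rw [← h]
          exact hkey _ _ ht3
      · by_cases h2 : q.1 (c.rt e) - 2 * w (c.rt e) < x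
        · have hx2 := hx.2
          obtain ⟨t, ht1, ht2, ht3, ht4⟩ := hkey2 (c.rt e) (q.1 (c.rt e) - x) (by linarith)
            (by linarith)
          rcases hV.rt e with ⟨hty, hea⟩ | ⟨hty, heb⟩
          · have h := (hvln (c.rt e)).1 (-t) (by linarith)
            have hin : (c.ty (c.rt e)).inX (-t) = -t := by
              cases hty' : c.ty (c.rt e) with
              | P => rfl
              | R => rfl
              | L => exact absurd hty' hty
            rw [hea, hin, mul_neg, ht2] at h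
            have hxx : q.1 (c.rt e) + -(q.1 (c.rt e) - x) = x := by ring
            rw [hxx] at h
            rw [← h]
            exact hkey _ _ ht4
          · have h := (hvln (c.rt e)).2 t ht1
            rw [heb, hty] at h
            have hxx : q.1 (c.rt e) + w' (c.rt e) * Ty.R.outX t = x := by
              change q.1 (c.rt e) + w' (c.rt e) * (-t) = x
              rw [mul_neg, ht2]
              ring
            rw [hxx] at h
            rw [← h]
            exact hkey _ _ ht3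
        · left
          exact ⟨e, x, ⟨not_lt.mp h1, not_lt.mp h2⟩, rfl⟩
    · apply hkey
      rw [abs_mul, abs_of_pos (hl i)]
      nlinarith [abs_nonneg u, hl1 i, hl i]

end LCA


end

section

/-!
# WID: the widths may be decreased or increased
-/

namespace LCA

open Set Filter
open scoped ContDiff Topology

namespace WID

/-! ### affine change of the time of a profile -/

/-- Affine change of the time. -/
def tc (σ b : ℝ) (π : Prof) : Prof where
  X s u := π.X (σ * s + b) u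
  P s u := π.P (σ * s + b) u
  Θ s u := π.Θ (σ * s + b) u
  Y s u := σ * π.Y (σ * s + b) u

theorem deriv_tc {σ : ℝ} (hσ : σ = 1 ∨ σ = -1) (b : ℝ) (f : ℝ → ℝ) (s : ℝ) :
    deriv (fun r => f (σ * r + b)) s = σ * deriv f (σ * s + b) := by
  rcases hσ with rfl | rfl
  · simp only [one_mul]
    exact deriv_comp_add_const f b s
  · have h1 : (fun r => f (-1 * r + b)) = fun r => f (b - r) := by
      funext r
      rw [show -1 * r + b = b - r by ring]
    rw [h1, deriv_comp_const_sub, show -1 * s + b = b - s by ring]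
    ring

theorem prof_tc {σ b : ℝ} (hσ : σ = 1 ∨ σ = -1) {J : Set ℝ} {ty : Ty} {D : ℝ → ℝ} {π : Prof}
    (h : ProfOK {r | σ * (r - b) ∈ J} ty (fun r => D (σ * (r - b))) π) :
    ProfOK J ty D (tc σ b π) := by
  have hinv : ∀ s, σ * (σ * s + b - b) = s := by
    intro s
    rcases hσ with rfl | rfl <;> ring
  have hmem : ∀ s ∈ J, σ * s + b ∈ {r | σ * (r - b) ∈ J} := by
    intro s hs
    show σ * (σ * s + b - b) ∈ J
    rw [hinv]
    exact hs
  have hsm : ContDiff ℝ ∞ (fun a : ℝ × ℝ => (σ * a.1 + b, a.2)) := by fun_prop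
  have hmaps : MapsTo (fun a : ℝ × ℝ => (σ * a.1 + b, a.2)) (J ×ˢ univ)
      ({r | σ * (r - b) ∈ J} ×ˢ univ) := fun a ha => ⟨hmem a.1 ha.1, mem_univ _⟩
  have habs : |σ| = 1 := by
    rcases hσ with rfl | rfl <;> simp
  refine ⟨h.X_smooth.comp hsm.contDiffOn hmaps, h.P_smooth.comp hsm.contDiffOn hmaps,
    h.Θ_smooth.comp hsm.contDiffOn hmaps, fun s hs u => h.dΘ _ (hmem s hs) u, ?_, ?_, ?_, ?_⟩
  · intro s hs u
    show σ * π.Y (σ * s + b) u = deriv (fun r => π.Θ (σ * r + b) u) s -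
      π.P (σ * s + b) u * deriv (fun r => π.X (σ * r + b) u) s
    rw [deriv_tc hσ b (fun r => π.Θ r u) s, deriv_tc hσ b (fun r => π.X r u) s,
      h.Y_eq _ (hmem s hs) u]
    ring
  · intro s hs
    have hb := h.bd _ (hmem s hs)
    refine ⟨hb.low, hb.high, hb.X_bd, hb.P_mem, hb.Θ_bd, fun u hu => ?_⟩
    show |σ * π.Y (σ * s + b) u| ≤ CY
    rw [abs_mul, habs, one_mul]
    exact hb.Y_bd u hu
  · intro s hs u hu
    have h1 := h.imm _ (hmem s hs) u hu
    simp only [hinv] at h1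
    exact h1
  · intro s hs u u' hu hu' hX hD
    have h1 := h.inj _ (hmem s hs) u u' hu hu' hX
    simp only [hinv] at h1
    exact h1 hD

/-- If `X`, `Θ` do not depend on the time near `s`, then `Y = 0`. -/
theorem Y_zero {J : Set ℝ} {ty : Ty} {D : ℝ → ℝ} {π : Prof} (h : ProfOK J ty D π) {s : ℝ}
    (hs : s ∈ J) (u : ℝ) {a b : ℝ} (hX : ∀ᶠ r in 𝓝 s, π.X r u = a)
    (hΘ : ∀ᶠ r in 𝓝 s, π.Θ r u = b) : π.Y s u = 0 := by
  rw [h.Y_eq s hs u]
  have h1 : (fun r => π.Θ r u) =ᶠ[𝓝 s] fun _ => b := hΘ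
  have h2 : (fun r => π.X r u) =ᶠ[𝓝 s] fun _ => a := hX
  rw [h1.deriv_eq, h2.deriv_eq]
  simp

variable {m n : ℕ}

theorem slice_congr (c : Comb m n) (w : Fin n → ℝ) {π π' : Fin n → Prof} {s s' : ℝ} (q v : St n)
    (hX : ∀ i u, (π i).X s u = (π' i).X s' u) (hP : ∀ i u, (π i).P s u = (π' i).P s' u)
    (hΘ : ∀ i u, (π i).Θ s u = (π' i).Θ s' u) (hY : ∀ i u, (π i).Y s u = (π' i).Y s' u) :
    c.slice w π s q v = c.slice w π' s' q v := by
  unfold Comb.slice Comb.vp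
  simp only [hX, hP, hΘ, hY]

theorem lin_lin (Q V : St n) (t t' : ℝ) : lin (lin Q V t t') V t' = lin Q V t := by
  funext s
  unfold lin
  rw [add_assoc, ← add_smul]
  congr 2
  ring

theorem pe_cont (c : Comb m n) (Q V : St n) (t s : ℝ) (e : Fin m)
    (hlen : (lin Q V t s).1 (c.lf e) < (lin Q V t s).1 (c.rt e)) :
    ContinuousAt (fun r => c.pe (lin Q V t r) e) s := by
  unfold Comb.pe lin
  have hne : (Q + (s - t) • V).1 (c.rt e) - (Q + (s - t) • V).1 (c.lf e) ≠ 0 := by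
    unfold lin at hlen
    exact (sub_pos.mpr hlen).ne'
  refine ContinuousAt.div ?_ ?_ hne
  · have : Continuous (fun r : ℝ => (Q + (r - t) • V).2 (c.rt e) - (Q + (r - t) • V).2 (c.lf e)) := by
      simp only [Prod.snd_add, Prod.smul_snd, Pi.add_apply, Pi.smul_apply, smul_eq_mul]
      fun_prop
    exact this.continuousAt
  · have : Continuous (fun r : ℝ => (Q + (r - t) • V).1 (c.rt e) - (Q + (r - t) • V).1 (c.lf e)) := by
      simp only [Prod.fst_add, Prod.smul_fst, Pi.add_apply, Pi.smul_apply, smul_eq_mul]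
      fun_prop
    exact this.continuousAt

theorem near (c : Comb m n) (w : Fin n → ℝ) (hw : ∀ i, 0 < w i) (Q V : St n) (t s : ℝ)
    (hc : c.Cert w (lin Q V t s) V) :
    ∀ᶠ r in 𝓝 s, (∀ e, 2 * (w (c.lf e) + w (c.rt e)) <
        (lin Q V t r).1 (c.rt e) - (lin Q V t r).1 (c.lf e)) ∧
      ∀ i, c.ty i ≠ .P → c.dl (lin Q V t r) i ≠ 0 := by
  have hlt : ∀ e, (lin Q V t s).1 (c.lf e) < (lin Q V t s).1 (c.rt e) := by
    intro e
    have h1 := hc.len e
    have h2 := hw (c.lf e)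
    have h3 := hw (c.rt e)
    linarith
  refine Filter.Eventually.and ?_ ?_
  · refine eventually_all.mpr fun e => ?_
    have hcont : Continuous (fun r : ℝ => (lin Q V t r).1 (c.rt e) - (lin Q V t r).1 (c.lf e)) := by
      unfold lin
      simp only [Prod.fst_add, Prod.smul_fst, Pi.add_apply, Pi.smul_apply, smul_eq_mul]
      fun_prop
    exact hcont.continuousAt.eventually (lt_mem_nhds (hc.len e))
  · refine eventually_all.mpr fun i => ?_
    by_cases hi : c.ty i = .P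
    · exact Eventually.of_forall fun r h => absurd hi h
    · have hcont : ContinuousAt (fun r => c.dl (lin Q V t r) i) s := by
        unfold Comb.dl
        exact (pe_cont c Q V t s _ (hlt _)).sub (pe_cont c Q V t s _ (hlt _))
      filter_upwards [hcont.eventually_ne (hc.tip i hi)] with r hr _
      exact hr

theorem exists_eps (c : Comb m n) (w : Fin n → ℝ) (hw : ∀ i, 0 < w i) (Q V : St n) (t : ℝ)
    (hc : ∀ s ∈ Icc t (t + 1), c.Cert w (lin Q V t s) V) :
    ∃ ε > 0, ε ≤ 1 / 4 ∧ ∀ r ∈ Ioo (t - ε) (t + 1 + ε),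
      (∀ e, 2 * (w (c.lf e) + w (c.rt e)) <
        (lin Q V t r).1 (c.rt e) - (lin Q V t r).1 (c.lf e)) ∧
      ∀ i, c.ty i ≠ .P → c.dl (lin Q V t r) i ≠ 0 := by
  have h1 := near c w hw Q V t t (hc t ⟨le_rfl, by linarith⟩)
  have h2 := near c w hw Q V t (t + 1) (hc (t + 1) ⟨by linarith, le_rfl⟩)
  obtain ⟨ε₁, hε₁, h1'⟩ := Metric.eventually_nhds_iff.mp h1
  obtain ⟨ε₂, hε₂, h2'⟩ := Metric.eventually_nhds_iff.mp h2
  refine ⟨min (1 / 4) (min ε₁ ε₂), by positivity, min_le_left _ _, fun r hr => ?_⟩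
  have hle1 : min (1 / 4) (min ε₁ ε₂) ≤ ε₁ := (min_le_right _ _).trans (min_le_left _ _)
  have hle2 : min (1 / 4) (min ε₁ ε₂) ≤ ε₂ := (min_le_right _ _).trans (min_le_right _ _)
  rcases lt_or_ge r t with hrt | hrt
  · refine h1' ?_
    rw [Real.dist_eq, abs_lt]
    constructor <;> linarith [hr.1]
  · rcases le_or_gt r (t + 1) with hr1 | hr1
    · have hcc := hc r ⟨hrt, hr1⟩
      exact ⟨hcc.len, hcc.tip⟩
    · refine h2' ?_
      rw [Real.dist_eq, abs_lt]
      constructor <;> linarith [hr.2]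

end WID

open _root_.LCA.WID in
/-- WID: the widths may be decreased or increased. -/
theorem t_WID (hWPR : Stmt_WPR) (hWEQ : Stmt_WEQ) (hMVP : Stmt_MVP) (hATR : Stmt_ATR)
    (_hPST : Stmt_PST) : Stmt_WID := by
  intro m n K sh c w w' Q V t hval hw' hle hcert
  have hw : ∀ i, 0 < w i := fun i => (hw' i).trans_le (hle i)
  have hl0 : ∀ i, 0 < w' i / w i := fun i => div_pos (hw' i) (hw i)
  have hl1 : ∀ i, w' i / w i ≤ 1 := fun i => (div_le_one (hw i)).mpr (hle i)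
  have hlw : ∀ i, w' i = w' i / w i * w i := fun i => (div_mul_cancel₀ _ (hw i).ne').symm
  choose ρ hok hearly hlate using fun i => hWPR sh (c.ty i) (w' i / w i) (hl0 i) (hl1 i)
  obtain ⟨ε, hε, hε4, hgood⟩ := exists_eps c w hw Q V t hcert
  -- the profile with the affine change of time is admissible
  have hprof : ∀ σ b : ℝ, (σ = 1 ∨ σ = -1) → ∀ i, ProfOK (Ioo (t - ε) (t + 1 + ε)) (c.ty i)
      (fun s => c.dl (lin Q V t s) i) (tc σ b (ρ i)) := by
    intro σ b hσ i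
    refine prof_tc hσ (hok i _ _ ?_ ?_)
    · have : Continuous fun r : ℝ => σ * (r - b) := by fun_prop
      exact isOpen_Ioo.preimage this
    · intro r hr hty
      exact (hgood _ hr).2 i hty
  have hmem : ∀ ε' : ℝ, ε' ≤ ε → ∀ r ∈ Ioo (t - ε') (t + ε'), r ∈ Ioo (t - ε) (t + 1 + ε) :=
    fun ε' h r hr => ⟨by linarith [hr.1], by linarith [hr.2]⟩
  have hmem' : ∀ ε' : ℝ, ε' ≤ ε → ∀ r ∈ Ioo (t + 1 - ε') (t + 1 + ε'),
      r ∈ Ioo (t - ε) (t + 1 + ε) :=
    fun ε' h r hr => ⟨by linarith [hr.1], by linarith [hr.2]⟩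
  -- the profile is static while `σ s + b < -1/4`
  have hstat : ∀ σ b : ℝ, (σ = 1 ∨ σ = -1) → ∀ s ∈ Ioo (t - ε) (t + 1 + ε),
      σ * s + b < -(1 / 4) →
      c.slice w (fun i => tc σ b (ρ i)) s (lin Q V t s) (deriv (lin Q V t) s) =
        c.slice w (c.sp sh) s (lin Q V t s) (deriv (lin Q V t) s) := by
    intro σ b hσ s hs hsb
    have hev : ∀ᶠ r in 𝓝 s, σ * r + b < -(1 / 4) := by
      have : Continuous fun r : ℝ => σ * r + b := by fun_prop
      exact this.continuousAt.eventually (gt_mem_nhds hsb)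
    apply slice_congr
    · intro i u
      exact (hearly i _ hsb.le u).1
    · intro i u
      exact (hearly i _ hsb.le u).2.1
    · intro i u
      exact (hearly i _ hsb.le u).2.2
    · intro i u
      refine Y_zero (hprof σ b hσ i) hs u (a := (sh.st (c.ty i)).X 0 u)
        (b := (sh.st (c.ty i)).Θ 0 u) ?_ ?_
      · filter_upwards [hev] with r hr
        exact (hearly i _ hr.le u).1
      · filter_upwards [hev] with r hr
        exact (hearly i _ hr.le u).2.2
  -- the profile is narrow while `σ s + b > 1/4`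
  have hnar : ∀ σ b : ℝ, (σ = 1 ∨ σ = -1) → ∀ s ∈ Ioo (t - ε) (t + 1 + ε),
      1 / 4 < σ * s + b →
      c.slice w (fun i => tc σ b (ρ i)) s (lin Q V t s) (deriv (lin Q V t) s) =
        c.slice w' (c.sp sh) s (lin Q V t s) (deriv (lin Q V t) s) := by
    intro σ b hσ s hs hsb
    have hev : ∀ᶠ r in 𝓝 s, 1 / 4 < σ * r + b := by
      have : Continuous fun r : ℝ => σ * r + b := by fun_prop
      exact this.continuousAt.eventually (lt_mem_nhds hsb)
    have h1 : c.slice w' (c.sp sh) s (lin Q V t s) (deriv (lin Q V t) s) =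
        c.slice w' (c.sp sh) 0 (lin Q V t s) (deriv (lin Q V t) s) := by
      apply slice_congr <;> intro i u <;> rfl
    rw [h1]
    refine hWEQ sh c w w' (fun i => w' i / w i) _ _ _ s hval hw hl0 hl1 hlw (hgood s hs).1 ?_
    intro i u
    refine ⟨(hlate i _ hsb.le u).1, (hlate i _ hsb.le u).2.1, (hlate i _ hsb.le u).2.2, ?_⟩
    refine Y_zero (hprof σ b hσ i) hs u (a := w' i / w i * (sh.st (c.ty i)).X 0 (u / (w' i / w i)))
      (b := w' i / w i * (sh.st (c.ty i)).Θ 0 (u / (w' i / w i))) ?_ ?_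
    · filter_upwards [hev] with r hr
      exact (hlate i _ hr.le u).1
    · filter_upwards [hev] with r hr
      exact (hlate i _ hr.le u).2.2
  constructor
  · intro hAt
    obtain ⟨ε', hε', hεε, hG, hD⟩ := hMVP c w Q V t ε (fun i => tc 1 (-(t + 1 / 2)) (ρ i)) hval hw
      hε hcert (hprof 1 _ (Or.inl rfl))
    refine hATR K sh c w Q V t c w' _ V (t + 1) ε' _ (by linarith) hε' hAt hG hD ?_ ?_
    · intro r hr
      have h1 := hstat 1 (-(t + 1 / 2)) (Or.inl rfl) r.1 (hmem ε' hεε _ hr) (by linarith [hr.2])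
      show r.2 ∈ c.slice w _ r.1 (lin Q V t r.1) (deriv (lin Q V t) r.1) ↔
        r.2 ∈ c.slice w _ r.1 (lin Q V t r.1) (deriv (lin Q V t) r.1)
      rw [h1]
    · rw [lin_lin]
      intro r hr
      have h1 := hnar 1 (-(t + 1 / 2)) (Or.inl rfl) r.1 (hmem' ε' hεε _ hr) (by linarith [hr.1])
      show r.2 ∈ c.slice w _ r.1 (lin Q V t r.1) (deriv (lin Q V t) r.1) ↔
        r.2 ∈ c.slice w' _ r.1 (lin Q V t r.1) (deriv (lin Q V t) r.1)
      rw [h1]
  · intro hAt
    obtain ⟨ε', hε', hεε, hG, hD⟩ := hMVP c w Q V t ε (fun i => tc (-1) (t + 1 / 2) (ρ i)) hval hw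
      hε hcert (hprof (-1) _ (Or.inr rfl))
    refine hATR K sh c w' Q V t c w _ V (t + 1) ε' _ (by linarith) hε' hAt hG hD ?_ ?_
    · intro r hr
      have h1 := hnar (-1) (t + 1 / 2) (Or.inr rfl) r.1 (hmem ε' hεε _ hr) (by linarith [hr.2])
      show r.2 ∈ c.slice w _ r.1 (lin Q V t r.1) (deriv (lin Q V t) r.1) ↔
        r.2 ∈ c.slice w' _ r.1 (lin Q V t r.1) (deriv (lin Q V t) r.1)
      rw [h1]
    · rw [lin_lin]
      intro r hr
      have h1 := hstat (-1) (t + 1 / 2) (Or.inr rfl) r.1 (hmem' ε' hεε _ hr) (by linarith [hr.1])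
      show r.2 ∈ c.slice w _ r.1 (lin Q V t r.1) (deriv (lin Q V t) r.1) ↔
        r.2 ∈ c.slice w _ r.1 (lin Q V t r.1) (deriv (lin Q V t) r.1)
      rw [h1]

end LCA


end

section

/-!
# Part A: certificates during a linear motion
-/

namespace LCA

open Set Filter
open scoped ContDiff Topology

namespace GOC

/-- An affine function which is larger than `k` at `0` and `T` is larger than `k` in between. -/
theorem aff {a b k T s : ℝ} (_hT : 0 < T) (hs : s ∈ Icc (0 : ℝ) T) (h0 : k < a)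
    (h1 : k < a + T * b) : k < a + s * b := by
  obtain ⟨h2, h3⟩ := hs
  by_cases hb : 0 ≤ b
  · have : 0 ≤ s * b := mul_nonneg h2 hb
    linarith
  · have : T * b ≤ s * b := mul_le_mul_of_nonpos_right h3 (not_le.mp hb).le
    linarith

variable {m n : ℕ} {c : Comb m n} {w : Fin n → ℝ} {T : ℝ} {Q V Q' V' : St n}

theorem len_s (h : c.Go w T Q V Q' V') {s : ℝ} (hs : s ∈ Icc (0 : ℝ) T) (e : Fin m) :
    2 * (w (c.lf e) + w (c.rt e)) < (Q + s • V').1 (c.rt e) - (Q + s • V').1 (c.lf e) := by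
  have h0 := h.len e
  have h1 := h.len' e
  rw [h.lin.move] at h1
  simp only [Prod.fst_add, Prod.smul_fst, Pi.add_apply, Pi.smul_apply, smul_eq_mul] at h1 ⊢
  have := aff (a := Q.1 (c.rt e) - Q.1 (c.lf e)) (b := V'.1 (c.rt e) - V'.1 (c.lf e))
    h.lin.pos hs h0 (by linarith)
  linarith

theorem lt_s (h : c.Go w T Q V Q' V') {s : ℝ} (hs : s ∈ Icc (0 : ℝ) T) (e : Fin m) :
    (Q + s • V').1 (c.lf e) < (Q + s • V').1 (c.rt e) := by
  have h0 := len_s h hs e
  have h1 := h.wpos (c.lf e)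
  have h2 := h.wpos (c.rt e)
  linarith

theorem dl_s (hLNP : Stmt_LNP) (h : c.Go w T Q V Q' V') {s : ℝ} (hs : s ∈ Icc (0 : ℝ) T)
    (i : Fin n) : c.dl (Q + s • V') i = c.dl Q' i +
      (s - T) * (c.dpe Q' V' (c.eb i) - c.dpe Q' V' (c.ea i)) := by
  obtain ⟨ha, -, -⟩ := hLNP c T Q Q' V' h.lin (c.ea i) s (lt_s h hs _)
  obtain ⟨hb, -, -⟩ := hLNP c T Q Q' V' h.lin (c.eb i) s (lt_s h hs _)
  unfold Comb.dl
  rw [ha, hb]
  ring

theorem tip_s (hLNP : Stmt_LNP) (h : c.Go w T Q V Q' V') {s : ℝ} (hs : s ∈ Icc (0 : ℝ) T)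
    (i : Fin n) (hi : c.ty i ≠ .P) : c.dl (Q + s • V') i ≠ 0 := by
  have e := dl_s hLNP h hs i
  have e0 := dl_s hLNP h (s := 0) ⟨le_refl _, h.lin.pos.le⟩ i
  rw [zero_smul, add_zero] at e0
  set d := c.dpe Q' V' (c.eb i) - c.dpe Q' V' (c.ea i) with hd
  have e1 : c.dl (Q + s • V') i = c.dl Q i + s * d := by rw [e, e0]; ring
  have e2 : c.dl Q' i = c.dl Q i + T * d := by rw [e0]; ring
  rw [e1]
  rcases h.tip i hi with ⟨h0, h1⟩ | ⟨h0, h1⟩
  · rw [e2] at h1
    exact (aff h.lin.pos hs h0 h1).ne'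
  · rw [e2] at h1
    have := aff (a := -c.dl Q i) (b := -d) (k := 0) h.lin.pos hs (by linarith) (by linarith)
    intro h2
    linarith

end GOC

open _root_.LCA.GOC in
theorem t_GOC (hLNP : Stmt_LNP) (hSEE : Stmt_SEE) (hSVV : Stmt_SVV) (hSVE : Stmt_SVE) :
    Stmt_GOC := by
  intro m n c w T Q V Q' V' h
  refine ⟨fun s hs => ⟨fun e => len_s h hs e, fun i hi => tip_s hLNP h hs i hi, ?_, ?_, ?_⟩,
    fun l hl => ⟨h.len, ?_, ?_, ?_, ?_⟩⟩
  · intro e e' he
    exact (hSEE c w T Q V Q' V' e e' h.wpos h.lin he (h.ee e e' he)).1 s hs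
  · intro i j hij
    exact (hSVV c w T Q V Q' V' i j h.wpos h.valid h.lin hij (h.vv i j hij)).1 s hs
  · intro i e ha hb
    exact (hSVE c w T Q V Q' V' i e h.wpos h.valid h.lin (h.ve i e ha hb)).1 s hs
  · intro i hi
    rcases h.tip i hi with ⟨h0, -⟩ | ⟨h0, -⟩
    · exact h0.ne'
    · exact h0.ne
  · intro e e' he
    exact (hSEE c w T Q V Q' V' e e' h.wpos h.lin he (h.ee e e' he)).2 l hl
  · intro i j hij
    exact (hSVV c w T Q V Q' V' i j h.wpos h.valid h.lin hij (h.vv i j hij)).2 l hl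
  · intro i e ha hb
    exact (hSVE c w T Q V Q' V' i e h.wpos h.valid h.lin (h.ve i e ha hb)).2 l hl

end LCA


end

section

/-!
# SVL: the real numbers which belong to the data of a state
-/

namespace LCA.SVL

open LCA

theorem tyOf_zero : tyOf 0 = .P := rfl

theorem tyOf_cases (k : ℕ) (h : k = 0 ∨ k = 1 ∨ k = 2) (h0 : tyOf k ≠ .P) : k ≠ 0 := by
  rintro rfl
  exact h0 rfl

theorem ofNat_val {n k : ℕ} (h : k < n + 1) : ((Fin.ofNat (n + 1) k : Fin (n + 1)) : ℕ) = k := by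
  simp [Fin.ofNat, Nat.mod_eq_of_lt h]

theorem lfv {m n : ℕ} {S : SD} (h : S.Facts m n) (e : Fin (m + 1)) :
    (((S.cb m n).lf e : Fin (n + 1)) : ℕ) = (S.e e).lf := ofNat_val (h.lf e e.2)

theorem rtv {m n : ℕ} {S : SD} (h : S.Facts m n) (e : Fin (m + 1)) :
    (((S.cb m n).rt e : Fin (n + 1)) : ℕ) = (S.e e).rt := ofNat_val (h.rt e e.2)

theorem eav {m n : ℕ} {S : SD} (h : S.Facts m n) (i : Fin (n + 1)) :
    (((S.cb m n).ea i : Fin (m + 1)) : ℕ) = (S.v i).ea := ofNat_val (h.ea i i.2)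

theorem ebv {m n : ℕ} {S : SD} (h : S.Facts m n) (i : Fin (n + 1)) :
    (((S.cb m n).eb i : Fin (m + 1)) : ℕ) = (S.v i).eb := ofNat_val (h.eb i i.2)

theorem q1 {n : ℕ} (S : SD) (i : Fin (n + 1)) : (S.Q n).1 i = ((S.v i).x : ℝ) := rfl
theorem q2 {n : ℕ} (S : SD) (i : Fin (n + 1)) : (S.Q n).2 i = ((S.v i).F : ℝ) := rfl
theorem v1 {n : ℕ} (S : SD) (i : Fin (n + 1)) : (S.V n).1 i = ((S.v i).dx : ℝ) := rfl
theorem v2 {n : ℕ} (S : SD) (i : Fin (n + 1)) : (S.V n).2 i = ((S.v i).dF : ℝ) := rfl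
theorem w1 {n : ℕ} (S : SD) (i : Fin (n + 1)) : S.W n i = ((S.v i).w : ℝ) := rfl

theorem xl {m n : ℕ} {S : SD} (h : S.Facts m n) (e : Fin (m + 1)) :
    (S.Q n).1 ((S.cb m n).lf e) = ((S.e e).xl : ℝ) := by
  rw [q1, lfv h, h.xl e e.2]

theorem xr {m n : ℕ} {S : SD} (h : S.Facts m n) (e : Fin (m + 1)) :
    (S.Q n).1 ((S.cb m n).rt e) = ((S.e e).xr : ℝ) := by
  rw [q1, rtv h, h.xr e e.2]

theorem il {m n : ℕ} {S : SD} (h : S.Facts m n) (e : Fin (m + 1)) :
    (S.Q n).1 ((S.cb m n).lf e) + 2 * S.W n ((S.cb m n).lf e) = ((S.e e).il : ℝ) := by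
  rw [q1, w1, lfv h, h.il e e.2]
  push_cast
  ring

theorem ir {m n : ℕ} {S : SD} (h : S.Facts m n) (e : Fin (m + 1)) :
    (S.Q n).1 ((S.cb m n).rt e) - 2 * S.W n ((S.cb m n).rt e) = ((S.e e).ir : ℝ) := by
  rw [q1, w1, rtv h, h.ir e e.2]
  push_cast
  ring

theorem wpos {m n : ℕ} {S : SD} (h : S.Facts m n) (i : Fin (n + 1)) : 0 < S.W n i := by
  rw [w1]
  exact_mod_cast h.w i i.2

theorem len {m n : ℕ} {S : SD} (h : S.Facts m n) (e : Fin (m + 1)) :
    2 * (S.W n ((S.cb m n).lf e) + S.W n ((S.cb m n).rt e)) <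
    (S.Q n).1 ((S.cb m n).rt e) - (S.Q n).1 ((S.cb m n).lf e) := by
  have h1 := il h e
  have h2 := ir h e
  have h3 : ((S.e e).il : ℝ) < ((S.e e).ir : ℝ) := by exact_mod_cast h.il_ir e e.2
  linarith

theorem xne {m n : ℕ} {S : SD} (h : S.Facts m n) (e : Fin (m + 1)) :
    ((S.e e).xr : ℝ) - ((S.e e).xl : ℝ) ≠ 0 := by
  have h1 := len h e
  have h2 := wpos h ((S.cb m n).lf e)
  have h3 := wpos h ((S.cb m n).rt e)
  rw [xl h, xr h] at h1
  intro h4
  linarith

theorem pe {m n : ℕ} {S : SD} (h : S.Facts m n) (e : Fin (m + 1)) :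
    (S.cb m n).pe (S.Q n) e = ((S.e e).p : ℝ) := by
  have h1 := xne h e
  have h2 : (((S.e e).p * ((S.e e).xr - (S.e e).xl) : ℤ) : ℝ) =
      (((S.v (S.e e).rt).F - (S.v (S.e e).lf).F : ℤ) : ℝ) := by
    rw [h.p e e.2]
  push_cast at h2
  rw [Comb.pe, xl h, xr h, q2, q2, lfv h, rtv h, div_eq_iff h1, h2]

theorem dpe {m n : ℕ} {S : SD} (h : S.Facts m n) (e : Fin (m + 1)) :
    (S.cb m n).dpe (S.Q n) (S.V n) e = ((S.e e).dp : ℝ) := by
  have h1 := xne h e
  have h2 : (((S.e e).dp * ((S.e e).xr - (S.e e).xl) : ℤ) : ℝ) =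
      (((S.v (S.e e).rt).dF - (S.v (S.e e).lf).dF -
      (S.e e).p * ((S.v (S.e e).rt).dx - (S.v (S.e e).lf).dx) : ℤ) : ℝ) := by
    rw [h.dp e e.2]
  push_cast at h2
  rw [Comb.dpe, xl h, xr h, v2, v2, v1, v1, pe h, lfv h, rtv h, div_eq_iff h1, h2]

theorem dae {m n : ℕ} {S : SD} (h : S.Facts m n) (e : Fin (m + 1)) :
    (S.cb m n).dae (S.Q n) (S.V n) e = ((S.e e).da : ℝ) := by
  rw [Comb.dae, xl h, v2, v1, pe h, dpe h, lfv h, h.da e e.2]
  push_cast
  ring

theorem pea {m n : ℕ} {S : SD} (h : S.Facts m n) (i : Fin (n + 1)) :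
    (S.cb m n).pe (S.Q n) ((S.cb m n).ea i) = ((S.v i).pa : ℝ) := by
  rw [pe h, eav h, h.pa i i.2]

theorem peb {m n : ℕ} {S : SD} (h : S.Facts m n) (i : Fin (n + 1)) :
    (S.cb m n).pe (S.Q n) ((S.cb m n).eb i) = ((S.v i).pb : ℝ) := by
  rw [pe h, ebv h, h.pb i i.2]

theorem plo {m n : ℕ} {S : SD} (h : S.Facts m n) (i : Fin (n + 1)) :
    (S.cb m n).plo (S.Q n) i = ((S.v i).lo : ℝ) := by
  rw [Comb.plo, pea h, peb h, h.lo i i.2]
  push_cast
  rfl

theorem phi {m n : ℕ} {S : SD} (h : S.Facts m n) (i : Fin (n + 1)) :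
    (S.cb m n).phi (S.Q n) i = ((S.v i).hi : ℝ) := by
  rw [Comb.phi, pea h, peb h, h.hi i i.2]
  push_cast
  rfl

theorem dl {m n : ℕ} {S : SD} (h : S.Facts m n) (i : Fin (n + 1)) :
    |(S.cb m n).dl (S.Q n) i| = ((S.v i).hi - (S.v i).lo : ℝ) := by
  have h1 := plo h i
  have h2 := phi h i
  rw [← h1, ← h2, Comb.dl, Comb.plo, Comb.phi]
  rw [max_sub_min_eq_abs']
  rw [abs_sub_comm]

theorem er {m n : ℕ} {S : SD} (h : S.Facts m n) (i : Fin (n + 1)) :
    2 * |(S.cb m n).dpe (S.Q n) (S.V n) ((S.cb m n).ea i)| +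
    2 * |(S.cb m n).dpe (S.Q n) (S.V n) ((S.cb m n).eb i) -
      (S.cb m n).dpe (S.Q n) (S.V n) ((S.cb m n).ea i)| = ((S.v i).er : ℝ) := by
  rw [dpe h, dpe h, eav h, ebv h, h.er i i.2]
  push_cast
  rfl

theorem fl {m n : ℕ} {S : SD} (h : S.Facts m n) (e : Fin (m + 1)) :
    (S.cb m n).dpe (S.Q n) (S.V n) e * (S.V n).1 ((S.cb m n).lf e) = 0 := by
  rw [dpe h, v1, lfv h]
  exact_mod_cast h.fl e e.2

theorem fr {m n : ℕ} {S : SD} (h : S.Facts m n) (e : Fin (m + 1)) :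
    (S.cb m n).dpe (S.Q n) (S.V n) e * (S.V n).1 ((S.cb m n).rt e) = 0 := by
  rw [dpe h, v1, rtv h]
  exact_mod_cast h.fr e e.2

theorem tip {m n : ℕ} {S : SD} (h : S.Facts m n) (i : Fin (n + 1))
    (h0 : (S.cb m n).ty i ≠ .P) : (S.cb m n).dl (S.Q n) i ≠ 0 := by
  have h1 : (S.v i).ty ≠ 0 := by
    intro h2
    apply h0
    change tyOf (S.v i).ty = .P
    rw [h2]
    rfl
  have h2 : (S.v i).lo < (S.v i).hi := (h.tip i i.2).resolve_left h1
  have h3 : ((S.v i).lo : ℝ) < ((S.v i).hi : ℝ) := by exact_mod_cast h2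
  have h4 := dl h i
  intro h5
  rw [h5, abs_zero] at h4
  linarith

end LCA.SVL

namespace LCA

theorem t_SVL : Stmt_SVL := by
  intro m n S h
  exact {
    valid := h.valid
    wpos := SVL.wpos h
    len := SVL.len h
    tip := SVL.tip h
    lfv := SVL.lfv h
    rtv := SVL.rtv h
    eav := SVL.eav h
    ebv := SVL.ebv h
    xl := SVL.xl h
    xr := SVL.xr h
    il := SVL.il h
    ir := SVL.ir h
    jl := fun i => by
      rw [SVL.q1, SVL.w1, h.jl i i.2]
      push_cast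
      ring
    jr := fun i => by
      rw [SVL.q1, SVL.w1, h.jr i i.2]
      push_cast
      ring
    pe := SVL.pe h
    dpe := SVL.dpe h
    dae := SVL.dae h
    pea := SVL.pea h
    peb := SVL.peb h
    plo := SVL.plo h
    phi := SVL.phi h
    dl := SVL.dl h
    er := SVL.er h
    fl := SVL.fl h
    fr := SVL.fr h }

end LCA


end

section

/-!
# The checker: two edges
-/

namespace LCA

open Set Filter
open scoped ContDiff Topology

namespace GEE

/-- Positional separation, as a proposition. -/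
def Pos (f f' : ES) : Prop := f.ir < f'.il ∨ f'.ir < f.il ∨ f.p < f'.p ∨ f'.p < f.p

/-- The difference of the values of `z`. -/
def D (f f' : ES) (x : ℤ) : ℤ := (f.dp - f'.dp) * x + (f.da - f'.da)

/-- The condition of the checker, as a proposition. -/
def P (f g f' g' : ES) : Prop :=
  (f.ir < f'.il ∧ g.ir < g'.il) ∨ (f'.ir < f.il ∧ g'.ir < g.il) ∨
  (f.p < f'.p ∧ g.p < g'.p) ∨ (f'.p < f.p ∧ g'.p < g.p) ∨
  ((0 < D g g' (max (min f.xl g.xl) (min f'.xl g'.xl)) ∧
      0 < D g g' (min (max f.xr g.xr) (max f'.xr g'.xr)) ∧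
      (Pos f f' ∨ (0 < D f f' (max f.xl f'.xl) ∧ 0 < D f f' (min f.xr f'.xr)))) ∨
    (D g g' (max (min f.xl g.xl) (min f'.xl g'.xl)) < 0 ∧
      D g g' (min (max f.xr g.xr) (max f'.xr g'.xr)) < 0 ∧
      (Pos f f' ∨ (D f f' (max f.xl f'.xl) < 0 ∧ D f f' (min f.xr f'.xr) < 0))))

theorem D_symm (f f' : ES) (x : ℤ) : D f' f x = - D f f' x := by
  unfold D; ring

theorem Pos_symm {f f' : ES} (h : Pos f f') : Pos f' f := by
  unfold Pos at *; tauto

theorem P_symm {f g f' g' : ES} (h : P f g f' g') : P f' g' f g := by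
  unfold P at *
  rw [D_symm g g', D_symm g g', D_symm f f', D_symm f f', max_comm (min f'.xl g'.xl),
    min_comm (max f'.xr g'.xr), max_comm f'.xl, min_comm f'.xr]
  have hp : Pos f f' → Pos f' f := Pos_symm
  rcases h with h | h | h | h | h | h
  · exact Or.inr (Or.inl h)
  · exact Or.inl h
  · exact Or.inr (Or.inr (Or.inr (Or.inl h)))
  · exact Or.inr (Or.inr (Or.inl h))
  · refine Or.inr (Or.inr (Or.inr (Or.inr (Or.inr ⟨by linarith [h.1], by linarith [h.2.1], ?_⟩))))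
    rcases h.2.2 with h3 | h3
    · exact Or.inl (hp h3)
    · exact Or.inr ⟨by linarith [h3.1], by linarith [h3.2]⟩
  · refine Or.inr (Or.inr (Or.inr (Or.inr (Or.inl ⟨by linarith [h.1], by linarith [h.2.1], ?_⟩))))
    rcases h.2.2 with h3 | h3
    · exact Or.inl (hp h3)
    · exact Or.inr ⟨by linarith [h3.1], by linarith [h3.2]⟩

theorem dEE_eq (f f' : ES) (x : ℤ) : dEE f f' x = D f f' x := rfl

theorem chEE_iff (hCBL : Stmt_CBL) (f g f' g' : ES) :
    chEE f g f' g' = true ↔ P f g f' g' := by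
  obtain ⟨h1, h2, h3, -, h5, h6, -⟩ := hCBL
  unfold chEE sgn2 posEE P Pos
  simp only [h1, h2, h3, h5, h6, dEE_eq]

/-- The conclusion for one order of the edges. -/
theorem lee {m n : ℕ} {A B : SD} (hA : A.Vals m n) (hB : B.Vals m n)
    (hcb : A.cb m n = B.cb m n) (hW : A.W n = B.W n) (e e' : Fin (m + 1))
    (h : P (A.e e) (B.e e) (A.e e') (B.e e')) :
    (A.cb m n).LEE (A.W n) (A.Q n) (A.V n) (B.Q n) (B.V n) e e' := by
  have a1 := hA.il; have a2 := hA.ir; have a3 := hA.pe; have a4 := hA.dpe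
  have a5 := hA.dae; have a6 := hA.xl; have a7 := hA.xr
  have b1 := hB.il; have b2 := hB.ir; have b3 := hB.pe; have b4 := hB.dpe
  have b5 := hB.dae; have b6 := hB.xl; have b7 := hB.xr
  rw [← hcb] at b1 b2 b3 b4 b5 b6 b7
  rw [← hW] at b1 b2
  have hDB : ∀ x : ℤ, (A.cb m n).Dee (B.Q n) (B.V n) e e' (x : ℝ) =
      ((D (B.e e) (B.e e') x : ℤ) : ℝ) := by
    intro x
    unfold Comb.Dee D
    rw [b4, b4, b5, b5]
    push_cast
    ring
  have hDA : ∀ x : ℤ, (A.cb m n).Dee (A.Q n) (A.V n) e e' (x : ℝ) =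
      ((D (A.e e) (A.e e') x : ℤ) : ℝ) := by
    intro x
    unfold Comb.Dee D
    rw [a4, a4, a5, a5]
    push_cast
    ring
  have hpos : Pos (A.e e) (A.e e') → (A.cb m n).See (A.W n) (A.Q n) e e' := by
    intro hp
    unfold Comb.See
    rw [a1, a1, a2, a2, a3, a3]
    rcases hp with hp | hp | hp | hp
    · left; exact_mod_cast hp
    · right; left; exact_mod_cast hp
    · right; right; exact ne_of_lt (by exact_mod_cast hp)
    · right; right; exact ne_of_gt (by exact_mod_cast hp)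
  unfold Comb.LEE
  rw [a1, a1, a2, a2, a3, a3, b1, b1, b2, b2, b3, b3, a6, a6, a7, a7, b6, b6, b7, b7]
  have c1 : max (min (((A.e e).xl : ℤ) : ℝ) (((B.e e).xl : ℤ) : ℝ))
      (min (((A.e e').xl : ℤ) : ℝ) (((B.e e').xl : ℤ) : ℝ)) =
      ((max (min (A.e e).xl (B.e e).xl) (min (A.e e').xl (B.e e').xl) : ℤ) : ℝ) := by
    push_cast; rfl
  have c2 : min (max (((A.e e).xr : ℤ) : ℝ) (((B.e e).xr : ℤ) : ℝ))
      (max (((A.e e').xr : ℤ) : ℝ) (((B.e e').xr : ℤ) : ℝ)) =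
      ((min (max (A.e e).xr (B.e e).xr) (max (A.e e').xr (B.e e').xr) : ℤ) : ℝ) := by
    push_cast; rfl
  rw [c1, c2, hDB, hDB]
  have hz : ∀ σ : ℝ, (A.cb m n).Zee (A.Q n) (A.V n) e e' σ ↔
      (0 < σ * ((D (A.e e) (A.e e') (max (A.e e).xl (A.e e').xl) : ℤ) : ℝ) ∧
        0 < σ * ((D (A.e e) (A.e e') (min (A.e e).xr (A.e e').xr) : ℤ) : ℝ)) := by
    intro σ
    unfold Comb.Zee
    rw [a6, a6, a7, a7]
    have d1 : max (((A.e e).xl : ℤ) : ℝ) (((A.e e').xl : ℤ) : ℝ) =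
        ((max (A.e e).xl (A.e e').xl : ℤ) : ℝ) := by push_cast; rfl
    have d2 : min (((A.e e).xr : ℤ) : ℝ) (((A.e e').xr : ℤ) : ℝ) =
        ((min (A.e e).xr (A.e e').xr : ℤ) : ℝ) := by push_cast; rfl
    rw [d1, d2, hDA, hDA]
  rcases h with h | h | h | h | h | h
  · left; exact ⟨by exact_mod_cast h.1, by exact_mod_cast h.2⟩
  · right; left; exact ⟨by exact_mod_cast h.1, by exact_mod_cast h.2⟩
  · right; right; left; exact ⟨by exact_mod_cast h.1, by exact_mod_cast h.2⟩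
  · right; right; right; left; exact ⟨by exact_mod_cast h.1, by exact_mod_cast h.2⟩
  · right; right; right; right
    refine ⟨1, abs_one, ?_, ?_, ?_⟩
    · rw [one_mul]; exact_mod_cast h.1
    · rw [one_mul]; exact_mod_cast h.2.1
    · rcases h.2.2 with h3 | h3
      · exact Or.inl (hpos h3)
      · right
        rw [hz, one_mul, one_mul]
        exact ⟨by exact_mod_cast h3.1, by exact_mod_cast h3.2⟩
  · right; right; right; right
    refine ⟨-1, by rw [abs_neg, abs_one], ?_, ?_, ?_⟩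
    · rw [neg_one_mul, neg_pos]; exact_mod_cast h.1
    · rw [neg_one_mul, neg_pos]; exact_mod_cast h.2.1
    · rcases h.2.2 with h3 | h3
      · exact Or.inl (hpos h3)
      · right
        rw [hz, neg_one_mul, neg_pos, neg_one_mul, neg_pos]
        exact ⟨by exact_mod_cast h3.1, by exact_mod_cast h3.2⟩

end GEE

theorem t_GEE (hCBL : Stmt_CBL) : Stmt_GEE := by
  intro m n A B hA hB hcb hW e e' h
  rw [GEE.chEE_iff hCBL] at h
  exact ⟨GEE.lee hA hB hcb hW e e' h, GEE.lee hA hB hcb hW e' e (GEE.P_symm h)⟩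

end LCA


end

section

/-!
# Part A, module GVE: a vertex and an edge
-/

namespace LCA

open Set Filter
open scoped ContDiff Topology

namespace GVE

lemma erV_eq (a : VS) (l : ℤ) : erV a l = a.w * (a.er + 1000 * l) := rfl

lemma dVE_eq (a : VS) (f : ES) (x p : ℤ) :
    dVE a f x p = (a.dF - p * a.dx) - (f.dp * x + f.da) := rfl

lemma iadd (a b : ℤ) : Int.add a b = a + b := rfl

lemma imul (a b : ℤ) : Int.mul a b = a * b := rfl

lemma isub (a b : ℤ) : Int.sub a b = a - b := rfl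

lemma ineg (a : ℤ) : Int.neg a = -a := rfl

end GVE

theorem t_GVE (hCBL : Stmt_CBL) : Stmt_GVE := by
  obtain ⟨hbnd, hbor, hilt, hieq, hmax, hmin, habs, -⟩ := hCBL
  intro m n A B hA hB hcb hW i e hea heb h
  have Ajl := hA.jl i
  have Ajr := hA.jr i
  have Ail := hA.il e
  have Air := hA.ir e
  have Ape := hA.pe e
  have Adpe := hA.dpe e
  have Adae := hA.dae e
  have Aplo := hA.plo i
  have Aphi := hA.phi i
  have Adl := hA.dl i
  have Aer := hA.er i
  have Bjl := hB.jl i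
  have Bjr := hB.jr i
  have Bil := hB.il e
  have Bir := hB.ir e
  have Bpe := hB.pe e
  have Bdpe := hB.dpe e
  have Bdae := hB.dae e
  have Bplo := hB.plo i
  have Bphi := hB.phi i
  have Bdl := hB.dl i
  have Ber := hB.er i
  have Bw : B.W n i = ((B.v i).w : ℝ) := rfl
  rw [← hW] at Bjl Bjr Bw
  rw [← hcb] at Bpe Bdpe Bdae Bplo Bphi Bdl Ber
  rw [← hcb, ← hW] at Bil Bir
  have Aw : A.W n i = ((A.v i).w : ℝ) := rfl
  have AQ : (A.Q n).1 i = ((A.v i).x : ℝ) := rfl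
  have AV1 : (A.V n).1 i = ((A.v i).dx : ℝ) := rfl
  have AV2 : (A.V n).2 i = ((A.v i).dF : ℝ) := rfl
  have BQ : (B.Q n).1 i = ((B.v i).x : ℝ) := rfl
  have BV1 : (B.V n).1 i = ((B.v i).dx : ℝ) := rfl
  have BV2 : (B.V n).2 i = ((B.v i).dF : ℝ) := rfl
  -- the bounds for the errors
  have EB : (A.cb m n).erS (A.W n) (A.Q n) (B.Q n) (B.V n) i +
      2 * A.W n i * |(A.cb m n).dpe (B.Q n) (B.V n) e| =
      ((erV (B.v i) (max ((A.v i).hi - (A.v i).lo) ((B.v i).hi - (B.v i).lo)) +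
        2 * (B.v i).w * |(B.e e).dp| : ℤ) : ℝ) := by
    unfold Comb.erS
    rw [Ber, Adl, Bdl, Bdpe, Bw, GVE.erV_eq]
    unfold CY
    push_cast
    ring
  have EA : (A.cb m n).err (A.W n) (A.Q n) (A.V n) i +
      2 * A.W n i * |(A.cb m n).dpe (A.Q n) (A.V n) e| =
      ((erV (A.v i) ((A.v i).hi - (A.v i).lo) + 2 * (A.v i).w * |(A.e e).dp| : ℤ) : ℝ) := by
    unfold Comb.err
    rw [Aer, Adl, Adpe, Aw, GVE.erV_eq]
    unfold CY
    push_cast
    ring
  -- the values of the difference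
  have D1 : ((B.V n).2 i - (A.cb m n).pe (A.Q n) e * (B.V n).1 i) -
      ((A.cb m n).dpe (B.Q n) (B.V n) e * (A.Q n).1 i + (A.cb m n).dae (B.Q n) (B.V n) e) =
      ((dVE (B.v i) (B.e e) (A.v i).x (A.e e).p : ℤ) : ℝ) := by
    rw [BV1, BV2, Ape, Bdpe, Bdae, AQ, GVE.dVE_eq]
    push_cast
    ring
  have D2 : ((B.V n).2 i - (A.cb m n).pe (B.Q n) e * (B.V n).1 i) -
      ((A.cb m n).dpe (B.Q n) (B.V n) e * (B.Q n).1 i + (A.cb m n).dae (B.Q n) (B.V n) e) =
      ((dVE (B.v i) (B.e e) (B.v i).x (B.e e).p : ℤ) : ℝ) := by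
    rw [BV1, BV2, Bpe, Bdpe, Bdae, BQ, GVE.dVE_eq]
    push_cast
    ring
  have D3 : (A.cb m n).Dve (A.Q n) (A.V n) i e =
      ((dVE (A.v i) (A.e e) (A.v i).x (A.e e).p : ℤ) : ℝ) := by
    unfold Comb.Dve
    rw [AV1, AV2, Ape, Adpe, Adae, AQ, GVE.dVE_eq]
    push_cast
    ring
  -- positional separation
  have PS : ((A.v i).jr < (A.e e).il ∨ (A.e e).ir < (A.v i).jl ∨ (A.e e).p < (A.v i).lo ∨
      (A.v i).hi < (A.e e).p) → (A.cb m n).Sve (A.W n) (A.Q n) i e := by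
    intro h1
    unfold Comb.Sve
    rw [Ajl, Ajr, Ail, Air, Ape, Aplo, Aphi]
    exact_mod_cast h1
  unfold chVE sgn3 posVE at h
  simp only [hbor, hbnd, hilt, hmax, habs, GVE.iadd, GVE.imul, GVE.isub, GVE.ineg] at h
  unfold Comb.LVE
  rcases h with h | h | h | h | h | h | h | h
  · left
    rw [Ajr, Ail, Bjr, Bil]
    exact_mod_cast h
  · right; left
    rw [Ajl, Air, Bjl, Bir]
    exact_mod_cast h
  · right; right; left
    rw [Ape, Aplo, Bpe, Bplo]
    exact_mod_cast h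
  · right; right; right; left
    rw [Ape, Aphi, Bpe, Bphi]
    exact_mod_cast h
  · exfalso
    apply hea
    apply Fin.ext
    rw [hA.eav i]
    exact Nat.eq_of_beq_eq_true h
  · exfalso
    apply heb
    apply Fin.ext
    rw [hA.ebv i]
    exact Nat.eq_of_beq_eq_true h
  · right; right; right; right
    obtain ⟨h1, h2, h3⟩ := h
    refine ⟨1, abs_one, ?_, ?_, ?_⟩
    · rw [EB, D1, one_mul]
      exact_mod_cast h1
    · rw [EB, D2, one_mul]
      exact_mod_cast h2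
    · rcases h3 with h3 | h3
      · exact Or.inl (PS h3)
      · right
        unfold Comb.Zve
        rw [EA, D3, one_mul]
        exact_mod_cast h3
  · right; right; right; right
    obtain ⟨h1, h2, h3⟩ := h
    refine ⟨-1, by rw [abs_neg, abs_one], ?_, ?_, ?_⟩
    · rw [EB, D1]
      have : ((dVE (B.v i) (B.e e) (A.v i).x (A.e e).p : ℤ) : ℝ) <
        ((-(erV (B.v i) (max ((A.v i).hi - (A.v i).lo) ((B.v i).hi - (B.v i).lo)) +
          2 * (B.v i).w * |(B.e e).dp|) : ℤ) : ℝ) := by exact_mod_cast h1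
      rw [Int.cast_neg] at this
      linarith
    · rw [EB, D2]
      have : ((dVE (B.v i) (B.e e) (B.v i).x (B.e e).p : ℤ) : ℝ) <
        ((-(erV (B.v i) (max ((A.v i).hi - (A.v i).lo) ((B.v i).hi - (B.v i).lo)) +
          2 * (B.v i).w * |(B.e e).dp|) : ℤ) : ℝ) := by exact_mod_cast h2
      rw [Int.cast_neg] at this
      linarith
    · rcases h3 with h3 | h3
      · exact Or.inl (PS h3)
      · right
        unfold Comb.Zve
        rw [EA, D3]
        have : ((dVE (A.v i) (A.e e) (A.v i).x (A.e e).p : ℤ) : ℝ) <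
          ((-(erV (A.v i) ((A.v i).hi - (A.v i).lo) + 2 * (A.v i).w * |(A.e e).dp|) : ℤ) : ℝ) := by
          exact_mod_cast h3
        rw [Int.cast_neg] at this
        linarith

end LCA


end

section

/-!
# CB2: the basic functions of the second part of the checker
-/

set_option autoImplicit false

namespace LCA

open Set Filter
open scoped ContDiff Topology

namespace CB2

theorem nlt_iff (i j : ℕ) : nlt i j = true ↔ i < j := by
  unfold nlt
  rw [Nat.ble_eq]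
  exact Nat.succ_le_iff

theorem beq_iff (i j : ℕ) : Nat.beq i j = true ↔ i = j := by
  rw [Nat.beq_eq]

theorem nne_iff (i j : ℕ) : nne i j = true ↔ i ≠ j := by
  unfold nne
  have h := beq_iff i j
  cases hb : Nat.beq i j with
  | false =>
    rw [hb] at h
    simp only [true_iff]
    intro e
    exact Bool.false_ne_true (h.2 e)
  | true =>
    rw [hb] at h
    simp only [Bool.false_eq_true, false_iff, not_not]
    exact h.1 rfl

end CB2

open _root_.LCA.CB2

theorem t_CB2 (hCBL : Stmt_CBL) : Stmt_CB2 := by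
  obtain ⟨hand, hor, -, -, -, -, -, -, hallI, -⟩ := hCBL
  refine ⟨nlt_iff, nne_iff, ?_, ?_, ?_⟩
  · intro b i j
    cases b <;> rfl
  · intro b
    cases b <;> simp [bnt]
  · intro a b ι κ e h
    unfold embB at h
    simp only [hand, beq_iff, nlt_iff] at h
    obtain ⟨hι, hκ, he, h1, h2⟩ := h
    rw [hallI ℕ 0] at h1 h2
    have g1 : ∀ d < a + 1, lkp 0 ι d < b + 1 ∧ lkp 0 ι d ≠ e ∧ lkp 0 κ (lkp 0 ι d) = d := by
      intro d hd
      have := h1 d (by rw [hι]; exact hd)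
      simp only [hand, beq_iff, nlt_iff, nne_iff] at this
      exact this
    have g2 : ∀ d < b + 1, d = e ∨ (lkp 0 κ d < a + 1 ∧ lkp 0 ι (lkp 0 κ d) = d) := by
      intro d hd
      have := h2 d (by rw [hκ]; exact hd)
      simp only [hand, hor, beq_iff, nlt_iff] at this
      exact this
    have hv : ∀ d : Fin (a + 1), ((ixf a b ι d : Fin (b + 1)) : ℕ) = lkp 0 ι d := by
      intro d
      unfold ixf
      rw [Fin.val_ofNat]
      exact Nat.mod_eq_of_lt (g1 d d.2).1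
    have hve : ((Fin.ofNat (b + 1) e : Fin (b + 1)) : ℕ) = e := by
      rw [Fin.val_ofNat]
      exact Nat.mod_eq_of_lt he
    refine ⟨he, ?_, ?_, ?_, hv⟩
    · intro d d' hdd
      have h3 : lkp 0 ι d = lkp 0 ι d' := by
        rw [← hv d, ← hv d', hdd]
      apply Fin.ext
      rw [← (g1 d d.2).2.2, ← (g1 d' d'.2).2.2, h3]
    · intro d hd
      apply (g1 d d.2).2.1
      rw [← hv d, hd, hve]
    · intro d'
      rcases g2 d' d'.2 with h3 | ⟨h3, h4⟩
      · left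
        apply Fin.ext
        rw [hve, h3]
      · right
        refine ⟨⟨lkp 0 κ d', h3⟩, ?_⟩
        apply Fin.ext
        rw [hv]
        exact h4

end LCA


end

section

/-!
# Part A, STV: change of the widths
-/

namespace LCA

open Set Filter
open scoped ContDiff Topology

theorem t_STV (hMVR : Stmt_MVR) (hSTF : Stmt_STF) (hSVL : Stmt_SVL) (hGOK : Stmt_GOK)
    (hGOC : Stmt_GOC) (hWID : Stmt_WID) : Stmt_STV := by
  intro K sh m n t A A' hA hA' hgo hmv
  have fA := hSTF m n A hA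
  have fA' := hSTF m n A' hA'
  obtain ⟨hcb, hW, hV, hQ⟩ := (hMVR m n A A' fA fA').1 1 hmv
  obtain ⟨G, -, -⟩ := hGOK m n 1 A A' hA hA' hgo
  have C := (hGOC _ _ _ _ _ _ _ G).1
  have C' : ∀ s ∈ Icc (t : ℝ) (t + 1),
      (A.cb m n).Cert (A.W n) (lin (A.Q n) (A.V n) t s) (A.V n) := by
    intro s hs
    have h := C (s - t) ⟨by linarith [hs.1], by push_cast; linarith [hs.2]⟩
    rw [hV] at h
    exact h
  have hlin : lin (A.Q n) (A.V n) (t : ℝ) ((t : ℝ) + 1) = A'.Q n := by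
    rw [hQ, lin]
    push_cast
    congr 2
    ring
  have ht : ((t + 1 : ℤ) : ℝ) = (t : ℝ) + 1 := by push_cast; ring
  refine ⟨fun B hB hw h => ?_, fun B hB hw h => ?_⟩
  · obtain ⟨hcb', hW', hV', hQ'⟩ := (hMVR m n A' B fA' (hSTF m n B hB)).2.2.1 hw
    have vB := hSVL m n B (hSTF m n B hB)
    have h1 := (hWID K sh (A.cb m n) (A.W n) (B.W n) (A.Q n) (A.V n) (t : ℝ) G.valid vB.wpos
      (fun i => by rw [hW]; exact hW' i) C').1 h
    unfold AtD
    rw [ht, ← hcb', ← hcb, hQ', hV', hV, ← hlin]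
    exact h1
  · obtain ⟨hcb', hW', hV', hQ'⟩ := (hMVR m n A B fA (hSTF m n B hB)).2.2.1 hw
    have vB := hSVL m n B (hSTF m n B hB)
    unfold AtD at h
    rw [← hcb', hQ', hV'] at h
    have h1 := (hWID K sh (A.cb m n) (A.W n) (B.W n) (A.Q n) (A.V n) (t : ℝ) G.valid vB.wpos
      hW' C').2 h
    unfold AtD
    rw [ht, ← hcb, ← hW, hV, ← hlin]
    exact h1

end LCA


end

section

/-!
# Part A: insertion and removal of a trivial vertex (the checker)
-/

namespace LCA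

open Set Filter
open scoped ContDiff Topology

theorem t_STI (hINR : Stmt_INR) (hINC : Stmt_INC) (hSTF : Stmt_STF) (hSVL : Stmt_SVL) :
    Stmt_STI := by
  intro K sh m n m' n' t ιE κE ιV κV e₀ e j A B hA hB hin
  have fA := hSTF m n A hA
  have fB := hSTF m' n' B hB
  have vA := hSVL m n A fA
  have vB := hSVL m' n' B fB
  obtain ⟨h1, h2, h3, h4, h5⟩ := hINC m n m' n' ιE κE ιV κV e₀ e j A B fA fB vA vB hin
  exact hINR K sh _ _ _ _ _ _ _ _ _ _ _ _ _ (t : ℝ) h1 vA.wpos h2 h3 h4 (vA.fl _) (vA.fr _) h5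

end LCA


end

section

/-!
# Part A: STM, a saddle, two passes become two tips
-/

namespace LCA

open Set Filter
open scoped ContDiff Topology

theorem t_STM (hSDR : Stmt_SDR) (hSDM : Stmt_SDM) (hMVR : Stmt_MVR) (hSTF : Stmt_STF) :
    Stmt_STM := by
  intro K sh m n t L R H₁ H₂ H₃ H₄ E A B C C' A' B' hA hB hC hC' hA' hB' hsd hnA hnB ht hAt
  obtain ⟨hS, h8, hcb, hW, hV, hQ⟩ := hSDR m n L R H₁ H₂ H₃ H₄ E A B C C' ((t : ℝ) + 1)
    hA hB hC hC' hsd
  obtain ⟨a1, a2, a3, a4⟩ := (hMVR m n A A' (hSTF m n A hA) (hSTF m n A' hA')).2.1 hnA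
  obtain ⟨b1, b2, b3, b4⟩ := (hMVR m n B B' (hSTF m n B hB) (hSTF m n B' hB')).2.1 hnB
  have ht' : (2 : ℝ) ≤ (t : ℝ) := by exact_mod_cast ht
  have hs0 : (E.ev ((t : ℝ) + 1)).s₀ = (t : ℝ) + 1 := rfl
  have hrv : 8 * (E.ev ((t : ℝ) + 1)).r / (E.ev ((t : ℝ) + 1)).v = (8 * E.r / E.v : ℝ) := rfl
  have key := hSDM K sh (A.cb m n) (C.cb m n) (A.W n) (Fin.ofNat (n + 1) L) (Fin.ofNat (n + 1) R)
    (Fin.ofNat (m + 1) H₁) (Fin.ofNat (m + 1) H₂) (Fin.ofNat (m + 1) H₃)
    (Fin.ofNat (m + 1) H₄) (E.ev ((t : ℝ) + 1)) (A.Q n + A.V n) (A.V n) (C.V n) 2 (t : ℝ)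
    ((t : ℝ) + 2) hS (by rw [hs0]; linarith) (by rw [hs0, hrv]; linarith)
    (by rw [hs0, hrv]; linarith) (by rw [hs0]; linarith) (by rw [hs0]; linarith)
  have e1 : lin (A.Q n + A.V n) (-(C.V n)) (E.ev ((t : ℝ) + 1)).s₀ (t : ℝ) = B'.Q n := by
    rw [b4, hQ, hs0]
    unfold lin
    have : (t : ℝ) - ((t : ℝ) + 1) = -1 := by ring
    rw [this, smul_neg, neg_smul, one_smul, neg_neg]
  have e2 : lin (A.Q n + A.V n) (-(A.V n)) (E.ev ((t : ℝ) + 1)).s₀ ((t : ℝ) + 2) = A'.Q n := by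
    rw [a4, hs0]
    unfold lin
    have : (t : ℝ) + 2 - ((t : ℝ) + 1) = 1 := by ring
    rw [this, one_smul, add_neg_cancel_right]
  have h1 : At K sh (C.cb m n) (A.W n) (B'.Q n) (B'.V n) (t : ℝ) := by
    have h2 : At K sh (B'.cb m n) (B'.W n) (B'.Q n) (B'.V n) (t : ℝ) := hAt
    rw [← b1, ← b2, hcb, hW] at h2
    exact h2
  have h3 : -(C.V n) = B'.V n := by rw [b3, hV]
  rw [e1, e2, h3, ← a3] at key
  have h4 := key h1
  show At K sh (A'.cb m n) (A'.W n) (A'.Q n) (A'.V n) ((t + 2 : ℤ) : ℝ)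
  rw [← a1, ← a2]
  push_cast
  exact h4

end LCA


end

section

/-!
# Part A: assembly
-/

namespace LCA

open Set Filter
open scoped ContDiff Topology

theorem p_LFI : Stmt_LFI := t_LFI
theorem p_CNG : Stmt_CNG := t_CNG
theorem p_RST : Stmt_RST := t_RST
theorem p_GLU : Stmt_GLU := t_GLU p_CNG
theorem p_RPL : Stmt_RPL := t_RPL
theorem p_REV : Stmt_REV := t_REV
theorem p_SHP : Stmt_SHP := t_SHP
theorem p_PST : Stmt_PST := t_PST
theorem p_VEX : Stmt_VEX := t_VEX
theorem p_EEX : Stmt_EEX := t_EEX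
theorem p_VLN : Stmt_VLN := t_VLN
theorem p_PCL : Stmt_PCL := t_PCL
theorem p_PIN : Stmt_PIN := t_PIN p_VLN
theorem p_PCH : Stmt_PCH := t_PCH p_VEX p_EEX p_VLN p_PCL p_PIN
theorem p_PUD : Stmt_PUD := t_PUD
theorem p_PHG : Stmt_PHG := t_PHG p_PCL p_PIN p_PCH p_PUD
theorem p_CEE : Stmt_CEE := t_CEE
theorem p_CVV : Stmt_CVV := t_CVV
theorem p_CVE : Stmt_CVE := t_CVE
theorem p_CER : Stmt_CER := t_CER p_CEE p_CVV p_CVE
theorem p_OPC : Stmt_OPC := t_OPC
theorem p_SM2 : Stmt_SM2 := t_SM2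
theorem p_ATR : Stmt_ATR := t_ATR p_GLU p_CNG
theorem p_MOV : Stmt_MOV := t_MOV p_OPC p_CER p_PHG p_PST p_ATR
theorem p_SWI : Stmt_SWI := t_SWI p_OPC p_CER p_PHG p_PST p_ATR p_SM2
theorem p_EQA : Stmt_EQA := t_EQA
theorem p_MVP : Stmt_MVP := t_MVP p_OPC p_CER p_PHG
theorem p_TCH : Stmt_TCH := t_TCH p_LFI
theorem p_TEX : Stmt_TEX := t_TEX p_LFI
theorem p_LAG : Stmt_LAG := t_LAG
theorem p_TTO : Stmt_TTO := t_TTO
theorem p_FIN : Stmt_FIN := t_FIN p_TCH p_TEX p_LAG p_TTO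
theorem p_ECH : Stmt_ECH := t_ECH
theorem p_BXC : Stmt_BXC := t_BXC
theorem p_SDG : Stmt_SDG := t_SDG p_RPL p_BXC p_ECH p_CER p_PHG p_PST p_PCL p_PIN p_VLN
theorem p_SDU : Stmt_SDU := t_SDU p_ECH p_CER p_PST
theorem p_SDA : Stmt_SDA := t_SDA p_CER p_PST p_VLN
theorem p_SDB : Stmt_SDB := t_SDB p_CER p_PST p_VLN
theorem p_SDP : Stmt_SDP := t_SDP p_SDG p_SDU p_SDA p_SDB p_ATR p_RST
theorem p_SDM : Stmt_SDM := t_SDM p_SDG p_SDU p_SDA p_SDB p_ATR p_REV p_RST
theorem p_DTA : Stmt_DTA := t_DTA p_VLN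
theorem p_DTG : Stmt_DTG := t_DTG p_ECH
theorem p_DTH : Stmt_DTH := t_DTH p_DTA p_DTG p_GLU p_CNG p_RST
theorem p_CYL : Stmt_CYL := t_CYL p_OPC p_CER p_PHG p_PST p_CNG
theorem p_KNT : Stmt_KNT := t_KNT p_PST p_CER p_VLN p_PIN
theorem p_SWP : Stmt_SWP := t_SWP
theorem p_INS : Stmt_INS := t_INS
theorem p_WPR : Stmt_WPR := t_WPR
theorem p_WEQ : Stmt_WEQ := t_WEQ p_VLN
theorem p_WID : Stmt_WID := t_WID p_WPR p_WEQ p_MVP p_ATR p_PST
theorem p_FPR : Stmt_FPR := t_FPR
theorem p_FEQ : Stmt_FEQ := t_FEQ p_VLN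
theorem p_FLD : Stmt_FLD := t_FLD p_FPR p_FEQ p_MVP p_ATR p_PST
theorem p_LNP : Stmt_LNP := t_LNP
theorem p_SEE : Stmt_SEE := t_SEE p_LNP
theorem p_SVV : Stmt_SVV := t_SVV p_LNP
theorem p_SVE : Stmt_SVE := t_SVE p_LNP
theorem p_GOC : Stmt_GOC := t_GOC p_LNP p_SEE p_SVV p_SVE
theorem p_CBL : Stmt_CBL := t_CBL
theorem p_STF : Stmt_STF := t_STF p_CBL
theorem p_SVL : Stmt_SVL := t_SVL
theorem p_SAM : Stmt_SAM := t_SAM p_CBL
theorem p_GEE : Stmt_GEE := t_GEE p_CBL
theorem p_GVV : Stmt_GVV := t_GVV p_CBL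
theorem p_GVE : Stmt_GVE := t_GVE p_CBL
theorem p_GOK : Stmt_GOK := t_GOK p_CBL p_STF p_SVL p_SAM p_GEE p_GVV p_GVE
theorem p_STG : Stmt_STG := t_STG p_SWI p_GOC p_GOK
theorem p_CB2 : Stmt_CB2 := t_CB2 p_CBL
theorem p_MVR : Stmt_MVR := t_MVR p_CBL p_CB2
theorem p_STW : Stmt_STW := t_STW p_MVR p_STF p_SVL p_SWP p_EQA
theorem p_STV : Stmt_STV := t_STV p_MVR p_STF p_SVL p_GOK p_GOC p_WID
theorem p_INR : Stmt_INR := t_INR p_LNP p_INS p_EQA
theorem p_INC : Stmt_INC := t_INC p_CBL p_CB2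
theorem p_STI : Stmt_STI := t_STI p_INR p_INC p_STF p_SVL
theorem p_FDR : Stmt_FDR := t_FDR p_LNP
theorem p_FDC : Stmt_FDC := t_FDC p_CBL p_CB2
theorem p_STD : Stmt_STD := t_STD p_FDR p_FDC p_MVR p_STF p_SVL p_GOK p_GOC p_FLD p_CBL p_LNP
theorem p_BXL : Stmt_BXL := t_BXL p_LNP
theorem p_BXI : Stmt_BXI := t_BXI p_CBL
theorem p_SDC : Stmt_SDC := t_SDC p_CBL p_CB2
theorem p_SDR : Stmt_SDR := t_SDR p_SDC p_BXL p_BXI p_MVR p_STF p_SVL p_GOK p_GOC p_LNP p_CBL p_CB2
theorem p_STS : Stmt_STS := t_STS p_SDR p_SDP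
theorem p_STM : Stmt_STM := t_STM p_SDR p_SDM p_MVR p_STF
theorem p_STX : Stmt_STX := t_STX p_CBL p_CB2 p_STF p_SVL p_DTH
theorem p_STB : Stmt_STB := t_STB p_CBL p_CB2 p_STF p_SVL p_GOK p_GOC p_CYL p_KNT

/-- The state of the data `S` is reached at some time `t ≥ 2`. -/
def Rc (K : Set LC.R3) (sh : Shape) (m n : ℕ) (S : SD) : Prop :=
  ∃ t : ℤ, 2 ≤ t ∧ AtD K sh m n S t

variable {K : Set LC.R3} {sh : Shape} {m n m' n' : ℕ}

theorem one_le_of_goOK {T : ℤ} {A B : SD} (h : goOK T A B = true) : 1 ≤ T := by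
  unfold goOK at h
  have h1 := ((p_CBL.1 _ _).1 h).1
  exact (p_CBL.2.2.1 0 T).1 h1

theorem rc_go1 {T : ℤ} {A B : SD} (hA : stOK m n A = true) (hB : stOK m n B = true)
    (h : goOK T A B = true) (h0 : AtD K sh m n A 1) : Rc K sh m n B :=
  ⟨1 + T, by have := one_le_of_goOK h; omega, p_STG K sh m n T 1 A B hA hB h h0⟩

theorem rc_go {T : ℤ} {A B : SD} (hA : stOK m n A = true) (hB : stOK m n B = true)
    (h : goOK T A B = true) (h0 : Rc K sh m n A) : Rc K sh m n B := by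
  obtain ⟨t, ht, h0⟩ := h0
  exact ⟨t + T, by have := one_le_of_goOK h; omega, p_STG K sh m n T t A B hA hB h h0⟩

theorem rc_ins {ιE κE ιV κV : List ℕ} {e₀ e j : ℕ} {A B : SD} (hA : stOK m n A = true)
    (hB : stOK m' n' B = true) (h : inOK m n m' n' ιE κE ιV κV e₀ e j A B = true)
    (h0 : Rc K sh m n A) : Rc K sh m' n' B := by
  obtain ⟨t, ht, h0⟩ := h0
  exact ⟨t, ht, (p_STI K sh m n m' n' t ιE κE ιV κV e₀ e j A B hA hB h).1 h0⟩

theorem rc_del {ιE κE ιV κV : List ℕ} {e₀ e j : ℕ} {A B : SD} (hA : stOK m n A = true)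
    (hB : stOK m' n' B = true) (h : inOK m n m' n' ιE κE ιV κV e₀ e j A B = true)
    (h0 : Rc K sh m' n' B) : Rc K sh m n A := by
  obtain ⟨t, ht, h0⟩ := h0
  exact ⟨t, ht, (p_STI K sh m n m' n' t ιE κE ιV κV e₀ e j A B hA hB h).2 h0⟩

theorem rc_swp {i : ℕ} {A B : SD} (hA : stOK m n A = true) (hB : stOK m n B = true)
    (h : swOK n i A B = true) (h0 : Rc K sh m n A) : Rc K sh m n B := by
  obtain ⟨t, ht, h0⟩ := h0
  exact ⟨t, ht, p_STW K sh m n t i A B hA hB h h0⟩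

theorem rc_wdn {A A' B : SD} (hA : stOK m n A = true) (hA' : stOK m n A' = true)
    (hB : stOK m n B = true) (h1 : goOK 1 A A' = true) (h2 : mvOK 1 A A' = true)
    (h3 : wdOK A' B = true) (h0 : Rc K sh m n A) : Rc K sh m n B := by
  obtain ⟨t, ht, h0⟩ := h0
  exact ⟨t + 1, by omega, (p_STV K sh m n t A A' hA hA' h1 h2).1 B hB h3 h0⟩

theorem rc_wup {A A' B : SD} (hA : stOK m n A = true) (hA' : stOK m n A' = true)
    (hB : stOK m n B = true) (h1 : goOK 1 A A' = true) (h2 : mvOK 1 A A' = true)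
    (h3 : wdOK A B = true) (h0 : Rc K sh m n B) : Rc K sh m n A' := by
  obtain ⟨t, ht, h0⟩ := h0
  exact ⟨t + 1, by omega, (p_STV K sh m n t A A' hA hA' h1 h2).2 B hB h3 h0⟩

theorem rc_fld {ιE κE ιV κV : List ℕ} {i e j : ℕ} {A A' B : SD} (hA : stOK m n A = true)
    (hA' : stOK m n A' = true) (hB : stOK m' n' B = true) (h1 : goOK 1 A A' = true)
    (h2 : mvOK 1 A A' = true) (h3 : fdS i A A' = true)
    (h4 : fdOK m n m' n' ιE κE ιV κV i e j A' B = true) (h0 : Rc K sh m n A) :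
    Rc K sh m' n' B := by
  obtain ⟨t, ht, h0⟩ := h0
  exact ⟨t + 1, by omega,
    (p_STD K sh m n m' n' t ιE κE ιV κV i e j A A' hA hA' h1 h2 h3).1 B hB h4 h0⟩

theorem rc_unf {ιE κE ιV κV : List ℕ} {i e j : ℕ} {A A' B : SD} (hA : stOK m n A = true)
    (hA' : stOK m n A' = true) (hB : stOK m' n' B = true) (h1 : goOK 1 A A' = true)
    (h2 : mvOK 1 A A' = true) (h3 : fdS i A A' = true)
    (h4 : fdOK m n m' n' ιE κE ιV κV i e j A B = true) (h0 : Rc K sh m' n' B) :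
    Rc K sh m n A' := by
  obtain ⟨t, ht, h0⟩ := h0
  exact ⟨t + 1, by omega,
    (p_STD K sh m n m' n' t ιE κE ιV κV i e j A A' hA hA' h1 h2 h3).2 B hB h4 h0⟩

theorem rc_sdp {L R H₁ H₂ H₃ H₄ : ℕ} {E : ED} {A B C C' : SD} (hA : stOK m n A = true)
    (hB : stOK m n B = true) (hC : stOK m n C = true) (hC' : stOK m n C' = true)
    (h : sdOK m n L R H₁ H₂ H₃ H₄ E A B C C' = true) (h0 : Rc K sh m n A) :
    Rc K sh m n B := by
  obtain ⟨t, ht, h0⟩ := h0
  exact ⟨t + 2, by omega, p_STS K sh m n t L R H₁ H₂ H₃ H₄ E A B C C' hA hB hC hC' h ht h0⟩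

theorem rc_sdm {L R H₁ H₂ H₃ H₄ : ℕ} {E : ED} {A B C C' A' B' : SD} (hA : stOK m n A = true)
    (hB : stOK m n B = true) (hC : stOK m n C = true) (hC' : stOK m n C' = true)
    (hA' : stOK m n A' = true) (hB' : stOK m n B' = true)
    (h : sdOK m n L R H₁ H₂ H₃ H₄ E A B C C' = true) (h2 : ngOK A A' = true)
    (h3 : ngOK B B' = true) (h0 : Rc K sh m n B') : Rc K sh m n A' := by
  obtain ⟨t, ht, h0⟩ := h0
  exact ⟨t + 2, by omega,
    p_STM K sh m n t L R H₁ H₂ H₃ H₄ E A B C C' A' B' hA hB hC hC' hA' hB' h h2 h3 ht h0⟩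

theorem rc_dth {lt rt pa pb H₁ H₂ H₃ H₄ : ℕ} {E : ED} {A : SD} (hA : stOK 3 3 A = true)
    (h : dtOK lt rt pa pb H₁ H₂ H₃ H₄ E A = true) (h0 : Rc K sh 3 3 A) : Capped K := by
  obtain ⟨t, ht, h0⟩ := h0
  exact p_STX K sh t lt rt pa pb H₁ H₂ H₃ H₄ E A hA h h0

/-- The beginning. -/
theorem rc_beg (sh : Shape) {A A' : SD} (hA : stOK n n A = true) (hA' : stOK n n A' = true)
    (h : bgOK n A A' = true) : ∃ Λ : LC.LegKnot,
      Λ.carrier = (A.cb n n).knot sh (A.W n) (A.Q n) ∧ AtD Λ.carrier sh n n A 1 :=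
  p_STB sh n A A' hA hA' h

/-- A complete cap is an exact Lagrangian cap. -/
theorem rc_fin {Λ : LC.LegKnot} (h : Capped Λ.carrier) : ∃ L, LC.IsExactCap Λ L := p_FIN Λ h

end LCA


end

section

set_option maxRecDepth 100000

namespace LCA.CapJ

open LCA

theorem f100 : goOK (.ofNat (nat_lit 1)) S100 S101 = true := by decide +kernel

theorem f101 : goOK (.ofNat (nat_lit 1)) S101 S102 = true := by decide +kernel

theorem f102 : goOK (.ofNat (nat_lit 1)) S102 S103 = true := by decide +kernel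

theorem f103 : goOK (.ofNat (nat_lit 1)) S103 S104 = true := by decide +kernel

theorem f104 : goOK (.ofNat (nat_lit 1)) S104 S105 = true := by decide +kernel

theorem f105 : goOK (.ofNat (nat_lit 1)) S105 S106 = true := by decide +kernel

theorem f106 : goOK (.ofNat (nat_lit 1)) S106 S107 = true := by decide +kernel

theorem f107 : goOK (.ofNat (nat_lit 1)) S107 S108 = true := by decide +kernel

theorem f108 : goOK (.ofNat (nat_lit 1)) S108 S109 = true := by decide +kernel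

theorem f109 : goOK (.ofNat (nat_lit 1)) S109 S110 = true := by decide +kernel

theorem f110 : goOK (.ofNat (nat_lit 1)) S110 S111 = true := by decide +kernel

theorem f111 : goOK (.ofNat (nat_lit 1)) S111 S112 = true := by decide +kernel

theorem f112 : goOK (.ofNat (nat_lit 1)) S112 S113 = true := by decide +kernel

theorem f113 : goOK (.ofNat (nat_lit 1)) S113 S114 = true := by decide +kernel

theorem f114 : goOK (.ofNat (nat_lit 1)) S114 S115 = true := by decide +kernel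

theorem f115 : goOK (.ofNat (nat_lit 1)) S115 S116 = true := by decide +kernel

theorem f116 : inOK 18 18 19 19 [nat_lit 0, nat_lit 1, nat_lit 2, nat_lit 3, nat_lit 4, nat_lit 5, nat_lit 6, nat_lit 7, nat_lit 8, nat_lit 9, nat_lit 10, nat_lit 11, nat_lit 12, nat_lit 13, nat_lit 15, nat_lit 16, nat_lit 17, nat_lit 18, nat_lit 19] [nat_lit 0, nat_lit 1, nat_lit 2, nat_lit 3, nat_lit 4, nat_lit 5, nat_lit 6, nat_lit 7, nat_lit 8, nat_lit 9, nat_lit 10, nat_lit 11, nat_lit 12, nat_lit 13, nat_lit 0, nat_lit 14, nat_lit 15, nat_lit 16, nat_lit 17, nat_lit 18] [nat_lit 0, nat_lit 1, nat_lit 2, nat_lit 3, nat_lit 4, nat_lit 5, nat_lit 6, nat_lit 7, nat_lit 8, nat_lit 9, nat_lit 10, nat_lit 11, nat_lit 12, nat_lit 13, nat_lit 14, nat_lit 15, nat_lit 17, nat_lit 18, nat_lit 19] [nat_lit 0, nat_lit 1, nat_lit 2, nat_lit 3, nat_lit 4, nat_lit 5, nat_lit 6, nat_lit 7, nat_lit 8, nat_lit 9, nat_lit 10, nat_lit 11, nat_lit 12, nat_lit 13,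 nat_lit 14, nat_lit 15, nat_lit 0, nat_lit 16, nat_lit 17, nat_lit 18] 14 14 16 S117 S116 = true := by decide +kernel

theorem f117 : inOK 17 17 18 18 [nat_lit 0, nat_lit 1, nat_lit 2, nat_lit 3, nat_lit 4, nat_lit 5, nat_lit 6, nat_lit 7, nat_lit 8, nat_lit 9, nat_lit 10, nat_lit 11, nat_lit 12, nat_lit 14, nat_lit 15, nat_lit 16, nat_lit 17, nat_lit 18] [nat_lit 0, nat_lit 1, nat_lit 2, nat_lit 3, nat_lit 4, nat_lit 5, nat_lit 6, nat_lit 7, nat_lit 8, nat_lit 9, nat_lit 10, nat_lit 11, nat_lit 12, nat_lit 0, nat_lit 13, nat_lit 14, nat_lit 15, nat_lit 16, nat_lit 17] [nat_lit 0, nat_lit 1, nat_lit 2, nat_lit 3, nat_lit 4, nat_lit 5, nat_lit 6, nat_lit 7, nat_lit 8, nat_lit 9, nat_lit 10, nat_lit 11, nat_lit 12, nat_lit 13, nat_lit 14, nat_lit 16, nat_lit 17, nat_lit 18] [nat_lit 0, nat_lit 1, nat_lit 2, nat_lit 3, nat_lit 4, nat_lit 5, nat_lit 6, nat_lit 7, nat_lit 8, nat_lit 9, nat_lit 10, nat_lit 11, nat_lit 12, nat_lit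 13, nat_lit 14, nat_lit 0, nat_lit 15, nat_lit 16, nat_lit 17] 13 13 15 S118 S117 = true := by decide +kernel

theorem f118 : goOK (.ofNat (nat_lit 1)) S118 S119 = true := by decide +kernel

theorem f119 : goOK (.ofNat (nat_lit 1)) S119 S120 = true := by decide +kernel

theorem f120 : goOK (.ofNat (nat_lit 1)) S120 S121 = true := by decide +kernel

theorem f121 : goOK (.ofNat (nat_lit 1)) S121 S122 = true := by decide +kernel

theorem f122 : goOK (.ofNat (nat_lit 1)) S122 S123 = true := by decide +kernel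

theorem f123 : goOK (.ofNat (nat_lit 1)) S123 S124 = true := by decide +kernel

theorem f124 : goOK (.ofNat (nat_lit 1)) S124 S125 = true := by decide +kernel

end LCA.CapJ


end
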