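import Mathlib
import Pool.Agent.NDM.C01
import Pool.Agent.NDM.C03

/-! Parts: LH.IN1, LH.STA, LH.WZR, LHS.SHF, LHS.SGN, LHS.DEG, LHS.RVX, LCA.CapJ.D1, LCA.CapJ.D10 -/

section

/-!
# Part C: independence of the lines
-/

namespace LH

open Set LG

namespace IN1

/-- Some line separates two vertices. -/
theorem exists_line {N : ℕ} {P : Pg N} {X : Finset ℝ} (hX : GoodX P X)
    (hav : ∀ s ∈ X, ∀ i, P.x i ≠ s) : ∃ s ∈ X, ∃ i j, P.x i < s ∧ s < P.x j := by
  classical
  obtain ⟨l, hl, hl'⟩ := hX.lo
  obtain ⟨r, hr, hr'⟩ := hX.hi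
  have h1 : (X.filter fun s => s < P.x 0).Nonempty := ⟨l, Finset.mem_filter.2 ⟨hl, hl' 0⟩⟩
  have h2 : (X.filter fun s => P.x 0 < s).Nonempty := ⟨r, Finset.mem_filter.2 ⟨hr, hr' 0⟩⟩
  set a := (X.filter fun s => s < P.x 0).max' h1 with ha
  set b := (X.filter fun s => P.x 0 < s).min' h2 with hb
  have ha' := Finset.mem_filter.1 (Finset.max'_mem _ h1)
  have hb' := Finset.mem_filter.1 (Finset.min'_mem _ h2)
  rw [← ha] at ha'
  rw [← hb] at hb'
  have hadj : AdjX X a b := by
    refine ⟨ha'.1, hb'.1, ha'.2.trans hb'.2, fun t ht h => ?_⟩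
    rcases lt_trichotomy t (P.x 0) with h3 | h3 | h3
    · exact absurd (Finset.le_max' _ t (Finset.mem_filter.2 ⟨ht, h3⟩)) (not_le.2 h.1)
    · exact hav t ht 0 h3.symm
    · exact absurd (Finset.min'_le _ t (Finset.mem_filter.2 ⟨ht, h3⟩)) (not_le.2 h.2)
  obtain ⟨i, hi⟩ := (hX.gd a b hadj).out
  rcases hi with hi | hi
  · exact ⟨a, ha'.1, i, 0, hi, ha'.2⟩
  · exact ⟨b, hb'.1, 0, i, hb'.2, hi⟩

/-- The walk of a finer set of lines. -/
theorem refine (hCWP : P_CWP) (hGYF : P_GYF) (hRED : P_RED) (hZAL : P_ZAL) (hUNI : P_UNI)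
    (hWEB : P_WEB) {N : ℕ} {P : Pg N} {X Y : Finset ℝ} {v w : List It} (hX : GoodX P X)
    (hXY : X ⊆ Y) (hY : Gen P Y) (hv : GW P Y v) (hw : GW P X w) : WE (lst P v) (lst P w) := by
  have h1 : YX P X v := hGYF P X Y v hX hXY (fun s hs i => (hY s hs).1 i) hv
  have h2 : CW (v.map (pt P)) := hCWP P X Y v hX hXY hY hv.1 h1
  obtain ⟨v', hv', hy', hc', he'⟩ := hRED P X Y v hX hXY hY hv.1 h1 h2
  obtain ⟨v'', hv'', he''⟩ := hZAL P X v' hX hv' hy' hc'
  exact hWEB.trans _ _ _ he' (hWEB.trans _ _ _ he'' (hUNI P X v'' w hX hv'' hw))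

end IN1

theorem t_IN1 : Stmt_IN1 := by
  intro hSEQ hWEB hCWA hEXW hCWP hGYF hRED hZAL hUNI hPER N P X X' w w' hX hw hX' hw'
  classical
  obtain ⟨X₁, w₁, hX₁, hG₁, hw₁, he₁⟩ := hPER P X w hX hw
  obtain ⟨X₂, w₂, hX₂, hG₂, hw₂, he₂⟩ := hPER P X' w' hX' hw'
  have hN : 0 < N := hSEQ.pos P X w hw.1
  have hG : Gen P (X₁ ∪ X₂) := by
    intro s hs
    rcases Finset.mem_union.1 hs with h | h
    · exact hG₁ s h
    · exact hG₂ s h
  obtain ⟨l, hl, hl'⟩ := hX₁.lo
  obtain ⟨r, hr, hr'⟩ := hX₁.hi
  obtain ⟨s, hs, i, j, hij⟩ := IN1.exists_line hX₁ fun s hs i => (hG₁ s hs).1 i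
  obtain ⟨v, hv⟩ := hEXW P (X₁ ∪ X₂) hN (fun s hs i => (hG s hs).1 i)
    ⟨l, Finset.mem_union_left _ hl, hl'⟩ ⟨r, Finset.mem_union_left _ hr, hr'⟩
    ⟨s, Finset.mem_union_left _ hs, i, j, hij⟩
  have h1 : WE (lst P v) (lst P w₁) := IN1.refine hCWP hGYF hRED hZAL hUNI hWEB hX₁
    Finset.subset_union_left hG hv hw₁
  have h2 : WE (lst P v) (lst P w₂) := IN1.refine hCWP hGYF hRED hZAL hUNI hWEB hX₂
    Finset.subset_union_right hG hv hw₂
  exact hWEB.trans _ _ _ he₁ (hWEB.trans _ _ _ (hWEB.symm _ _ h1)
    (hWEB.trans _ _ _ h2 (hWEB.symm _ _ he₂)))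

end LH


end

section

/-!
# STA: the dichotomy, assembly
-/

namespace LH

open Set LG

namespace STA

variable {N : ℕ}

lemma Wnat {P : Pg N} {X : Finset ℝ} {w : List It} {W : ℤ → It} (h : Sq P X w W) (n : ℤ) (k : ℕ) :
    W (n + k * w.length) = { W n with e := (W n).e + k * N } := by
  induction k with
  | zero => simp
  | succ k ih =>
    have h1 : n + ((k + 1 : ℕ) : ℤ) * w.length = (n + k * w.length) + w.length := by
      push_cast; ring
    rw [h1, h.per, ih]
    simp only [It.sh]
    congr 1
    push_cast; ring

lemma Wint {P : Pg N} {X : Finset ℝ} {w : List It} {W : ℤ → It} (h : Sq P X w W) (n k : ℤ) :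
    W (n + k * w.length) = { W n with e := (W n).e + k * N } := by
  rcases Int.eq_nat_or_neg k with ⟨m, rfl | rfl⟩
  · exact Wnat h n m
  · have h1 := Wnat h (n + (-(m : ℤ)) * w.length) m
    have h2 : n + (-(m : ℤ)) * w.length + m * w.length = n := by ring
    rw [h2] at h1
    have hk : (W n).k = (W (n + (-(m : ℤ)) * w.length)).k := by rw [h1]
    have ht : (W n).t = (W (n + (-(m : ℤ)) * w.length)).t := by rw [h1]
    have he : (W n).e = (W (n + (-(m : ℤ)) * w.length)).e + m * N := by rw [h1]
    rcases hW : W (n + (-(m : ℤ)) * w.length) with ⟨k1, t1, e1⟩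
    rw [hW] at hk ht he
    simp only at hk ht he
    show (⟨k1, t1, e1⟩ : It) = ⟨(W n).k, (W n).t, (W n).e + -(m : ℤ) * N⟩
    rw [hk, ht, he]
    congr 1
    ring

lemma Wk {P : Pg N} {X : Finset ℝ} {w : List It} {W : ℤ → It} (h : Sq P X w W) (n k : ℤ) :
    (W (n + k * w.length)).k = (W n).k := by rw [Wint h]

lemma Wt {P : Pg N} {X : Finset ℝ} {w : List It} {W : ℤ → It} (h : Sq P X w W) (n k : ℤ) :
    (W (n + k * w.length)).t = (W n).t := by rw [Wint h]

lemma We {P : Pg N} {X : Finset ℝ} {w : List It} {W : ℤ → It} (h : Sq P X w W) (n k : ℤ) :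
    (W (n + k * w.length)).e = (W n).e + k * N := by rw [Wint h]

/-- the lines are periodic along the walk -/
lemma Wl {P : Pg N} {X : Finset ℝ} {w : List It} {W : ℤ → It} (hb : P_PGB) (h : Sq P X w W)
    (n k : ℤ) (t : ℝ) : P.l (W (n + k * w.length)).e t = P.l (W n).e t := by
  rw [We h]
  exact (hb.sh P _ _).2.2.2 t

lemma KIsub {P : Pg N} {X : Finset ℝ} {w : List It} {W : ℤ → It} (hb : P_PGB) (h : Sq P X w W)
    (a : ℝ) (n k : ℤ) : KI P W a n ⊆ KI P W a (n + k * w.length) := by
  rintro x (⟨j, hj, hlt, rfl⟩ | ⟨hk, rfl⟩)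
  · refine Or.inl ⟨j + k * w.length, ?_, ?_, ?_⟩
    · rcases hj with rfl | rfl
      · left; ring
      · right; ring
    · rw [Wt h, Wt h]; exact hlt
    · rw [Wl hb h, Wt h]
  · refine Or.inr ⟨?_, ?_⟩
    · rw [Wk h]; exact hk
    · rw [Wl hb h]

lemma RIsub {P : Pg N} {X : Finset ℝ} {w : List It} {W : ℤ → It} (hb : P_PGB) (h : Sq P X w W)
    (d : ℝ) (n k : ℤ) : RI P W d n ⊆ RI P W d (n + k * w.length) := by
  rintro x (⟨j, hj, hlt, rfl⟩ | ⟨hk, rfl⟩)
  · refine Or.inl ⟨j + k * w.length, ?_, ?_, ?_⟩
    · rcases hj with rfl | rfl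
      · left; ring
      · right; ring
    · rw [Wt h, Wt h]; exact hlt
    · rw [Wl hb h, Wt h]
  · refine Or.inr ⟨?_, ?_⟩
    · rw [Wk h]; exact hk
    · rw [Wl hb h]

lemma Dsh {P : Pg N} {X : Finset ℝ} {w : List It} {W : ℤ → It} (hb : P_PGB) (h : Sq P X w W)
    (a s d : ℝ) (n n' k : ℤ) (hD : Dich P W a s d n (n' + k * w.length)) :
    Dich P W a s d n n' := by
  intro hle
  rw [← Wl hb h n' k s] at hle
  rcases hD hle with h1 | h1
  · left
    intro x hx y hy
    exact h1 x (KIsub hb h a n' k hx) y hy
  · right
    intro x hx y hy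
    exact h1 x (RIsub hb h d n' k hx) y hy

/-- a turn on the line `s` has its vertex in the cell -/
lemma turn {P : Pg N} {a b s d : ℝ} {Y : Finset ℝ} {w : List It} {W : ℤ → It}
    (hS : Sit P a b s d Y w W) (n : ℤ) (ht : (W n).t = s) (hk : (W n).k = .R ∨ (W n).k = .L) :
    a < P.x ((W n).e + 1) ∧ P.x ((W n).e + 1) < b := by
  have hl := hS.sq.lnk n
  have he := hl.tl hk
  have hb := hl.ins ((W n).e + 1) (by omega) (by omega)
  obtain ⟨haY, hsY, has, hA⟩ := hS.l
  obtain ⟨_, hdY, hsd, hD⟩ := hS.r
  have hdb := hS.db
  have htn : (W (n + 1)).t = d ∨ (W (n + 1)).t = a := by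
    rcases hl.adj with h1 | h1
    · left
      rw [ht] at h1
      obtain ⟨_, h2, h3, h4⟩ := h1
      by_contra hne
      rcases lt_or_gt_of_ne hne with h5 | h5
      · exact hD _ h2 ⟨h3, h5⟩
      · exact h4 _ hdY ⟨hsd, h5⟩
    · right
      rw [ht] at h1
      obtain ⟨h2, _, h3, h4⟩ := h1
      by_contra hne
      rcases lt_or_gt_of_ne hne with h5 | h5
      · exact h4 _ haY ⟨h5, has⟩
      · exact hA _ h2 ⟨h5, h3⟩
  unfold Btw at hb
  rw [ht] at hb
  rcases htn with h1 | h1 <;> rw [h1] at hb <;> rcases hb with h2 | h2 <;>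
    constructor <;> linarith [h2.1, h2.2]

/-- a turn on the line `s` is in a component monotone in `y` -/
lemma turnYM {P : Pg N} {a b s d : ℝ} {Y : Finset ℝ} {w : List It} {W : ℤ → It}
    (hb : P_PGB) (hc : P_CMP) (hq : P_SEQ) (hS : Sit P a b s d Y w W) (n : ℤ)
    (ht : (W n).t = s) (hk : (W n).k = .R ∨ (W n).k = .L) (p q : ℤ) (hC : Comp P a b p q)
    (hp : p ≤ (W n).e) (hqe : (W n).e ≤ q) : YM P p q := by
  obtain ⟨i, hi, k, h1, h2, h3⟩ := hq.mem P Y w W hS.sq n
  obtain ⟨hx1, hx2⟩ := turn hS n ht hk
  have hx : P.x (i.e + 1) = P.x ((W n).e + 1) := by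
    have := (hb.sh P (i.e + 1) k).1
    rw [← this, h3]
    congr 1
    ring
  rw [h1] at hk
  obtain ⟨p0, q0, hC0, h4, h5, h6⟩ := hS.yf i hi hk (by rw [hx]; exact hx1) (by rw [hx]; exact hx2)
  have hC1 := hc.sh P a b p0 q0 k hC0
  obtain ⟨h7, h8⟩ := hc.un P a b p q (p0 + k * N) (q0 + k * N) (W n).e hC hC1 hp hqe
    (by rw [h3]; linarith) (by rw [h3]; linarith)
  subst h7 h8
  rcases h6 with h6 | h6
  · left
    intro u hu v hv huv
    have e1 := (hb.sh P (u - k * N) k).2.1
    have e2 := (hb.sh P (v - k * N) k).2.1
    rw [sub_add_cancel] at e1 e2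
    rw [e1, e2]
    exact h6 ⟨by linarith [hu.1], by linarith [hu.2]⟩ ⟨by linarith [hv.1], by linarith [hv.2]⟩
      (by linarith)
  · right
    intro u hu v hv huv
    have e1 := (hb.sh P (u - k * N) k).2.1
    have e2 := (hb.sh P (v - k * N) k).2.1
    rw [sub_add_cancel] at e1 e2
    rw [e1, e2]
    exact h6 ⟨by linarith [hu.1], by linarith [hu.2]⟩ ⟨by linarith [hv.1], by linarith [hv.2]⟩
      (by linarith)

/-- the same component -/
lemma same {P : Pg N} {a b s d : ℝ} {Y : Finset ℝ} {w : List It} {W : ℤ → It}
    (hb : P_PGB) (hc : P_CMP) (hq : P_SEQ) (hI : P_STI) (hR : P_RFL) (hS : Sit P a b s d Y w W)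
    (n n' p q : ℤ) (hne : n ≠ n') (ht : (W n).t = s) (ht' : (W n').t = s) (hC : Comp P a b p q)
    (h1 : p ≤ (W n).e) (h2 : (W n).e ≤ q) (h1' : p ≤ (W n').e) (h2' : (W n').e ≤ q) :
    Dich P W a s d n n' := by
  have hY : YM P p q → Dich P W a s d n n' := by
    rintro (hy | hy)
    · exact hI P a b s d Y w W hS n n' p q hne ht ht' hC h1 h2 h1' h2' hy
    · have hS' := (hR P a b s d Y w W).1 hS
      have hC' : Comp P.rf a b p q := ⟨hC.le, hC.ins, hC.fst, hC.lst, hC.one⟩
      have hy' : StrictMonoOn P.rf.y (Icc p q) := by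
        intro u hu v hv huv
        have := hy hu hv huv
        show -P.y u < -P.y v
        linarith
      have := hI P.rf a b s d Y w W hS' n' n p q hne.symm ht' ht hC' h1' h2' h1 h2 hy'
      exact (hR P a b s d Y w W).2 n n' this
  have hle := hC.le
  have key : ∀ m m' : ℤ, m < m' → (W m).t = s → (W m').t = s → p ≤ (W m).e → (W m').e ≤ q →
      (StrictMonoOn P.x (Icc p (q + 1)) ∨ StrictAntiOn P.x (Icc p (q + 1))) →
      ((W m).k = .rt ∨ (W m).k = .lt) → ((W m').k = .rt ∨ (W m').k = .lt) → False := by
    intro m m' hmm hm hm' hpe heq hx hk hk'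
    have hlt := hq.lt P Y w W hS.sq m m' hmm (by rw [hm, hm'])
    have o1 := hS.sq.ok m
    have o2 := hS.sq.ok m'
    unfold ItOK at o1 o2
    rw [hm] at o1
    rw [hm'] at o2
    rcases hx with hx | hx
    · have a1 : P.x (W m).e < P.x ((W m).e + 1) :=
        hx ⟨hpe, by omega⟩ ⟨by omega, by omega⟩ (by omega)
      have a2 : P.x (W m').e < P.x ((W m').e + 1) :=
        hx ⟨by omega, by omega⟩ ⟨by omega, by omega⟩ (by omega)
      have a3 : P.x ((W m).e + 1) ≤ P.x (W m').e :=
        hx.monotoneOn ⟨by omega, by omega⟩ ⟨by omega, by omega⟩ (by omega)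
      have b1 : s < P.x ((W m).e + 1) := by
        rcases hk with h | h
        · exact (o1.1 h).2
        · have := o1.2 h; linarith [this.1, this.2]
      have b2 : P.x (W m').e < s := by
        rcases hk' with h | h
        · exact (o2.1 h).1
        · have := o2.2 h; linarith [this.1, this.2]
      linarith
    · have a1 : P.x ((W m).e + 1) < P.x (W m).e :=
        hx ⟨hpe, by omega⟩ ⟨by omega, by omega⟩ (by omega)
      have a2 : P.x ((W m').e + 1) < P.x (W m').e :=
        hx ⟨by omega, by omega⟩ ⟨by omega, by omega⟩ (by omega)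
      have a3 : P.x (W m').e ≤ P.x ((W m).e + 1) :=
        hx.antitoneOn ⟨by omega, by omega⟩ ⟨by omega, by omega⟩ (by omega)
      have b1 : P.x ((W m).e + 1) < s := by
        rcases hk with h | h
        · have := o1.1 h; linarith [this.1, this.2]
        · exact (o1.2 h).1
      have b2 : s < P.x (W m').e := by
        rcases hk' with h | h
        · have := o2.1 h; linarith [this.1, this.2]
        · exact (o2.2 h).2
      linarith
  by_cases hkn : (W n).k = .R ∨ (W n).k = .L
  · exact hY (turnYM hb hc hq hS n ht hkn p q hC h1 h2)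
  by_cases hkn' : (W n').k = .R ∨ (W n').k = .L
  · exact hY (turnYM hb hc hq hS n' ht' hkn' p q hC h1' h2')
  have hk1 : (W n).k = .rt ∨ (W n).k = .lt := by
    rcases h : (W n).k with _ | _ | _ | _ <;> simp [h] at hkn ⊢
  have hk2 : (W n').k = .rt ∨ (W n').k = .lt := by
    rcases h : (W n').k with _ | _ | _ | _ <;> simp [h] at hkn' ⊢
  rcases hS.gd.ty p q hC with hx | hy
  · exfalso
    rcases lt_or_gt_of_ne hne with h | h
    · exact key n n' h ht ht' h1 h2' hx hk1 hk2
    · exact key n' n h ht' ht h1' h2 hx hk2 hk1
  · exact hY hy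

end STA

theorem t_STA : Stmt_STA := by
  intro hb hc hq hM hD hI hR N P a b s d Y w W hS n n' ht ht' hne
  obtain ⟨p, q, hC, h1, h2, _⟩ := hM P a b s d Y w W hS n ht
  obtain ⟨p', q', hC', h1', h2', _⟩ := hM P a b s d Y w W hS n' ht'
  by_cases hk : ∃ k : ℤ, p' = p + k * N
  · obtain ⟨k, hk⟩ := hk
    have hC2 := hc.sh P a b p q k hC
    have hq' : q' = q + k * N := by
      have l1 := hC'.le
      have l2 := hC2.le
      exact (hc.un P a b p' q' (p + k * N) (q + k * N) p' hC' hC2 le_rfl l1 (by rw [hk])
        (by rw [hk]; exact l2)).2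
    apply STA.Dsh hb hS.sq a s d n n' (-k)
    refine STA.same hb hc hq hI hR hS n (n' + (-k) * w.length) p q ?_ ht ?_ hC h1 h2 ?_ ?_
    · intro h
      exact hne ⟨k, by rw [h]; ring⟩
    · rw [STA.Wt hS.sq]; exact ht'
    · rw [STA.We hS.sq]; rw [hk] at h1'; linarith
    · rw [STA.We hS.sq]; rw [hq'] at h2'; linarith
  · exact hD P a b s d Y w W hS n n' p q p' q' ht ht' hC h1 h2 hC' h1' h2' hk

end LH


end

section

/-!
# Part C: zigzags to the right of the wrong type
-/

namespace LH

open Set LG

namespace WZR

theorem c_lt {p q : Pt} : p.c < q.c ↔ p.t < q.t ∨ p.t = q.t ∧ p.h < q.h :=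
  Prod.Lex.toLex_lt_toLex

theorem r_lt {p q : Pt} : p.r < q.r ↔ q.t < p.t ∨ p.t = q.t ∧ p.h < q.h := by
  unfold Pt.r
  rw [Prod.Lex.toLex_lt_toLex]
  simp only [neg_lt_neg_iff, neg_inj]

/-- Alternation of two entries. -/
def RR (x y : En) : Prop := x.isLeft = !y.isLeft

theorem zip_chain (R : En → En → Prop) (L : List En) : ∀ a b : En,
    (∀ p ∈ (a :: L).zip (L ++ [b]), R p.1 p.2) ↔ List.IsChain R (a :: (L ++ [b])) := by
  induction L with
  | nil => intro a b; simp
  | cons c L ih =>
    intro a b
    simp only [List.cons_append, List.zip_cons_cons, List.forall_mem_cons,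
      List.isChain_cons_cons]
    rw [ih c b]

theorem alt_iff (a : En) (L : List En) : Alt (a :: L) ↔ List.IsChain RR (a :: (L ++ [a])) := by
  unfold Alt cp
  have e : (a :: L).rotate 1 = L ++ [a] := by simp
  rw [e, ← zip_chain]
  simp only [ne_eq, reduceCtorEq, not_false_eq_true, true_and, RR]

theorem inl_mem_ents {w : List Pt} {c : Q} (h : Sum.inl c ∈ ents w) :
    ∃ x ∈ w, x.k ≠ .L ∧ x.c = c := by
  unfold ents at h
  obtain ⟨x, hx, h⟩ := List.mem_flatMap.1 h
  refine ⟨x, hx, ?_⟩
  obtain ⟨k, t, h'⟩ := x
  cases k <;> simp [ent] at h ⊢ <;> exact h.symm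

theorem inr_mem_ents {w : List Pt} {r : Q} (h : Sum.inr r ∈ ents w) :
    ∃ x ∈ w, x.k ≠ .R ∧ x.r = r := by
  unfold ents at h
  obtain ⟨x, hx, h⟩ := List.mem_flatMap.1 h
  refine ⟨x, hx, ?_⟩
  obtain ⟨k, t, h'⟩ := x
  cases k <;> simp [ent] at h ⊢ <;> exact h.symm

theorem Mk_mem {W : List En} {c r : Q} (h : Mk W c r) : Sum.inl c ∈ W ∧ Sum.inr r ∈ W := by
  unfold Mk cp at h
  rcases h with h | h
  · have h' := List.of_mem_zip h
    exact ⟨h'.1, List.mem_rotate.1 h'.2⟩
  · have h' := List.of_mem_zip h
    exact ⟨List.mem_rotate.1 h'.2, h'.1⟩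

theorem last_cp (a z : Pt) (B : List Pt) : (z, a) ∈ cp (a :: (B ++ [z])) := by
  unfold cp
  have e : (a :: (B ++ [z])).rotate 1 = (B ++ [z]) ++ [a] := by simp
  have e' : a :: (B ++ [z]) = (a :: B) ++ [z] := rfl
  rw [e, e', List.zip_append (by simp)]
  exact List.mem_append_right _ (by simp)

/-- The two removals. -/
theorem step (hW : P_WEB) (hD : P_DC1) (hR : P_DR2) (C1 R1 Cu R2 C2 Rv C3 R3 : Q) (X : List En)
    (hA : Alt (.inl C1 :: .inr R1 :: .inl Cu :: .inr R2 :: .inl C2 :: .inr Rv :: .inl C3 ::
      .inr R3 :: X))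
    (hN : (Sum.inl C1 :: .inr R1 :: .inl Cu :: .inr R2 :: .inl C2 :: .inr Rv :: .inl C3 ::
      .inr R3 :: X : List En).Nodup)
    (hc : ∀ c, Sum.inl c ∈ (Sum.inl C1 :: .inr R1 :: .inl Cu :: .inr R2 :: .inl C2 :: .inr Rv ::
      .inl C3 :: .inr R3 :: X : List En) → ¬ Btw C2 C3 c)
    (hr : ∀ r, Sum.inr r ∈ (Sum.inl C1 :: .inr R1 :: .inl Cu :: .inr R2 :: .inl C2 :: .inr Rv ::
      .inl C3 :: .inr R3 :: X : List En) → ¬ Btw R2 R1 r)
    (h1 : C2 < C3 ∧ cyc Rv R2 R3 ∨ C3 < C2 ∧ cyc Rv R3 R2)
    (h2 : R2 < R1 ∧ cyc C3 C1 Cu ∨ R1 < R2 ∧ cyc C1 C3 Cu) :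
    WE (.inl C1 :: .inr R1 :: .inl Cu :: .inr R2 :: .inl C2 :: .inr Rv :: .inl C3 ::
      .inr R3 :: X) (.inl C1 :: .inr R1 :: .inl C3 :: .inr R3 :: X) := by
  have hX : List.IsChain RR (.inr R3 :: (X ++ [.inl C1])) := by
    have h := (alt_iff _ _).1 hA
    simp only [List.cons_append, List.isChain_cons_cons] at h
    exact h.2.2.2.2.2.2.2
  have r1 : ∀ a b : Q, RR (.inl a) (.inr b) := fun _ _ => rfl
  have r2 : ∀ a b : Q, RR (.inr a) (.inl b) := fun _ _ => rfl
  -- the first rotation
  have e1 : WE (.inl C1 :: .inr R1 :: .inl Cu :: .inr R2 :: .inl C2 :: .inr Rv :: .inl C3 ::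
      .inr R3 :: X) (.inl C2 :: .inr Rv :: .inl C3 :: .inr R3 ::
        ((X ++ [.inl C1, .inr R1, .inl Cu]) ++ [.inr R2])) := by
    have h := hW.rot [.inl C1, .inr R1, .inl Cu, .inr R2]
      (.inl C2 :: .inr Rv :: .inl C3 :: .inr R3 :: X) hA hN
    rw [List.append_assoc]
    exact h
  have A1 : Alt (.inl C2 :: .inr Rv :: .inl C3 :: .inr R3 ::
        ((X ++ [.inl C1, .inr R1, .inl Cu]) ++ [.inr R2])) := by
    rw [alt_iff]
    simp only [List.cons_append, List.append_assoc, List.nil_append, List.isChain_cons_cons]
    refine ⟨r1 _ _, r2 _ _, r1 _ _, ?_⟩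
    have h : List.IsChain RR ((.inr R3 :: X) ++ .inl C1 ::
        [.inr R1, .inl Cu, .inr R2, .inl C2]) := by
      rw [List.isChain_split]
      refine ⟨hX, ?_⟩
      simp [r1, r2]
    exact h
  have N1 : (Sum.inl C2 :: .inr Rv :: .inl C3 :: .inr R3 ::
        ((X ++ [.inl C1, .inr R1, .inl Cu]) ++ [.inr R2]) : List En).Nodup := by
    have h := List.nodup_append_comm.1 (show ([.inl C1, .inr R1, .inl Cu, .inr R2] ++
      (.inl C2 :: .inr Rv :: .inl C3 :: .inr R3 :: X) : List En).Nodup from hN)
    rw [List.append_assoc]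
    exact h
  have m1 : ∀ y : En, y ∈ (Sum.inl C2 :: .inr Rv :: .inl C3 :: .inr R3 ::
        ((X ++ [.inl C1, .inr R1, .inl Cu]) ++ [.inr R2]) : List En) →
      y ∈ (Sum.inl C1 :: .inr R1 :: .inl Cu :: .inr R2 :: .inl C2 :: .inr Rv ::
      .inl C3 :: .inr R3 :: X : List En) := by
    intro y hy
    rw [List.append_assoc] at hy
    exact List.perm_append_comm.mem_iff.1 (show y ∈ ((.inl C2 :: .inr Rv :: .inl C3 ::
      .inr R3 :: X) ++ [.inl C1, .inr R1, .inl Cu, .inr R2] : List En) from hy)
  have e2 := hR Rv C2 R2 R3 C3 (X ++ [.inl C1, .inr R1, .inl Cu]) A1 N1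
    (fun c r hm hb => absurd hb (hc c (m1 _ (Mk_mem hm).1))) h1
  -- the second rotation
  have A2 : Alt (.inl C3 :: .inr R3 :: ((X ++ [.inl C1, .inr R1, .inl Cu]) ++ [.inr R2])) := by
    rw [alt_iff]
    simp only [List.cons_append, List.append_assoc, List.nil_append, List.isChain_cons_cons]
    refine ⟨r1 _ _, ?_⟩
    have h : List.IsChain RR ((.inr R3 :: X) ++ .inl C1 ::
        [.inr R1, .inl Cu, .inr R2, .inl C3]) := by
      rw [List.isChain_split]
      refine ⟨hX, ?_⟩
      simp [r1, r2]
    exact h
  have N2 : (Sum.inl C3 :: .inr R3 ::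
        ((X ++ [.inl C1, .inr R1, .inl Cu]) ++ [.inr R2]) : List En).Nodup :=
    (List.nodup_cons.1 (List.nodup_cons.1 N1).2).2
  have q2 : (Sum.inl C3 :: .inr R3 ::
        ((X ++ [.inl C1, .inr R1, .inl Cu]) ++ [.inr R2]) : List En) =
      (.inl C3 :: .inr R3 :: (X ++ [.inl C1, .inr R1])) ++ [.inl Cu, .inr R2] := by simp
  have e3 : WE (.inl C3 :: .inr R3 :: ((X ++ [.inl C1, .inr R1, .inl Cu]) ++ [.inr R2]))
      (.inl Cu :: .inr R2 :: .inl C3 :: ((.inr R3 :: X) ++ [.inl C1, .inr R1])) := by
    rw [q2] at A2 N2 ⊢
    exact hW.rot _ _ A2 N2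
  have A3 : Alt (.inl Cu :: .inr R2 :: .inl C3 :: ((.inr R3 :: X) ++ [.inl C1, .inr R1])) := by
    rw [alt_iff]
    simp only [List.cons_append, List.append_assoc, List.nil_append, List.isChain_cons_cons]
    refine ⟨r1 _ _, r2 _ _, r1 _ _, ?_⟩
    have h : List.IsChain RR ((.inr R3 :: X) ++ .inl C1 :: [.inr R1, .inl Cu]) := by
      rw [List.isChain_split]
      refine ⟨hX, ?_⟩
      simp [r1, r2]
    exact h
  have N3 : (Sum.inl Cu :: .inr R2 :: .inl C3 :: ((.inr R3 :: X) ++ [.inl C1, .inr R1]) :
      List En).Nodup := by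
    rw [q2] at N2
    exact List.nodup_append_comm.1 N2
  have m3 : ∀ y : En, y ∈ (Sum.inl Cu :: .inr R2 :: .inl C3 ::
        ((.inr R3 :: X) ++ [.inl C1, .inr R1]) : List En) →
      y ∈ (Sum.inl C1 :: .inr R1 :: .inl Cu :: .inr R2 :: .inl C2 :: .inr Rv ::
      .inl C3 :: .inr R3 :: X : List En) := by
    intro y hy
    have h := List.perm_append_comm.mem_iff.1 (show y ∈ ([.inl Cu, .inr R2] ++
      (.inl C3 :: .inr R3 :: (X ++ [.inl C1, .inr R1])) : List En) from hy)
    rw [← q2] at h
    exact m1 y (List.mem_cons_of_mem _ (List.mem_cons_of_mem _ h))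
  have e4 := hD Cu R2 C3 C1 R1 (.inr R3 :: X) A3 N3
    (fun c r hm hb => absurd hb (hr r (m3 _ (Mk_mem hm).2))) h2
  -- the last rotation
  have A4 : Alt ((.inl C3 :: .inr R3 :: X) ++ [.inl C1, .inr R1]) := by
    rw [List.cons_append, alt_iff]
    simp only [List.cons_append, List.append_assoc, List.nil_append, List.isChain_cons_cons]
    refine ⟨r1 _ _, ?_⟩
    have h : List.IsChain RR ((.inr R3 :: X) ++ .inl C1 :: [.inr R1, .inl C3]) := by
      rw [List.isChain_split]
      refine ⟨hX, ?_⟩
      simp [r1, r2]
    exact h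
  have N4 : ((.inl C3 :: .inr R3 :: X) ++ [.inl C1, .inr R1] : List En).Nodup :=
    (List.nodup_cons.1 (List.nodup_cons.1 N3).2).2
  have e5 := hW.rot _ _ A4 N4
  exact hW.trans _ _ _ e1 (hW.trans _ _ _ e2 (hW.trans _ _ _ e3 (hW.trans _ _ _ e4 e5)))

theorem fl_cons {α β : Type*} (a : α) (b : β) (L : List (α × β)) :
    fl ((a, b) :: L) = Sum.inl a :: Sum.inr b :: fl L := rfl

theorem ex_fl : ∀ (n : ℕ) (X : List En), X.length ≤ n → ∀ r c : Q,
    List.IsChain RR (.inr r :: (X ++ [.inl c])) → ∃ L : List (Q × Q), X = fl L := by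
  intro n
  induction n with
  | zero =>
    intro X hX r c _
    exact ⟨[], List.length_eq_zero_iff.1 (Nat.le_zero.1 hX)⟩
  | succ n ih =>
    intro X hX r c h
    cases X with
    | nil => exact ⟨[], rfl⟩
    | cons x X =>
      rw [List.cons_append, List.isChain_cons_cons] at h
      cases x with
      | inr b => exact absurd h.1 (by simp [RR])
      | inl a =>
        cases X with
        | nil =>
          have h' := h.2
          rw [List.nil_append, List.isChain_cons_cons] at h'
          exact absurd h'.1 (by simp [RR])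
        | cons y X =>
          have h' := h.2
          rw [List.cons_append, List.isChain_cons_cons] at h'
          cases y with
          | inl b => exact absurd h'.1 (by simp [RR])
          | inr b =>
            obtain ⟨L, hL⟩ := ih X (by simp only [List.length_cons] at hX; omega) b c h'.2
            exact ⟨(a, b) :: L, by rw [fl_cons, hL]⟩

theorem fl_map {α β γ δ : Type*} (f : α → γ) (g : β → δ) (L : List (α × β)) :
    fl (L.map fun p => (f p.1, g p.2)) = (fl L).map (Sum.map f g) := by
  induction L with
  | nil => rfl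
  | cons p L ih =>
    obtain ⟨a, b⟩ := p
    rw [List.map_cons, fl_cons, fl_cons, ih]
    rfl

theorem inl_fl {α β : Type*} {L : List (α × β)} {a : α} :
    Sum.inl a ∈ fl L ↔ a ∈ L.map Prod.fst := by
  induction L with
  | nil => simp [fl]
  | cons p L ih =>
    obtain ⟨x, y⟩ := p
    rw [fl_cons]
    simp [ih]

theorem inr_fl {α β : Type*} {L : List (α × β)} {b : β} :
    Sum.inr b ∈ fl L ↔ b ∈ L.map Prod.snd := by
  induction L with
  | nil => simp [fl]
  | cons p L ih =>
    obtain ⟨x, y⟩ := p
    rw [fl_cons]
    simp [ih]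

theorem fl_nodup {α β : Type*} {L : List (α × β)} (h : (fl L).Nodup) :
    (L.map Prod.fst).Nodup ∧ (L.map Prod.snd).Nodup := by
  induction L with
  | nil => simp
  | cons p L ih =>
    obtain ⟨x, y⟩ := p
    rw [fl_cons, List.nodup_cons, List.nodup_cons] at h
    obtain ⟨h1, h2, h3⟩ := h
    have h4 := ih h3
    rw [List.map_cons, List.map_cons, List.nodup_cons, List.nodup_cons]
    refine ⟨⟨fun h => h1 (List.mem_cons_of_mem _ (inl_fl.2 h)), h4.1⟩,
      ⟨fun h => h2 (inr_fl.2 h), h4.2⟩⟩

theorem fl_append {α β : Type*} (L L' : List (α × β)) : fl (L ++ L') = fl L ++ fl L' := by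
  unfold fl
  exact List.flatMap_append

theorem cons_cons_sub (C1 C3 : Q) (R1 R3 : Q) {Cu R2 C2 Rv : Q} {X : List En} {y : En}
    (h : y ∈ (Sum.inl C1 :: .inr R1 :: .inl C3 :: .inr R3 :: X : List En)) :
    y ∈ (Sum.inl C1 :: .inr R1 :: .inl Cu :: .inr R2 :: .inl C2 :: .inr Rv :: .inl C3 ::
      .inr R3 :: X : List En) := by
  rcases List.mem_cons.1 h with h | h
  · exact List.mem_cons.2 (Or.inl h)
  rcases List.mem_cons.1 h with h | h
  · exact List.mem_cons_of_mem _ (List.mem_cons.2 (Or.inl h))
  exact List.mem_cons_of_mem _ (List.mem_cons_of_mem _ (List.mem_cons_of_mem _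
    (List.mem_cons_of_mem _ (List.mem_cons_of_mem _ (List.mem_cons_of_mem _ h)))))

theorem two_notMem (C1 R1 C2 C3 R3 : Q) (X : List En) {Cu R2 Rv : Q}
    (h : (Sum.inl C1 :: .inr R1 :: .inl Cu :: .inr R2 :: .inl C2 :: .inr Rv :: .inl C3 ::
      .inr R3 :: X : List En).Nodup)
    (hc : Sum.inl C2 ∈ (Sum.inl C1 :: .inr R1 :: .inl C3 :: .inr R3 :: X : List En)) : False := by
  rw [List.nodup_cons, List.nodup_cons, List.nodup_cons, List.nodup_cons, List.nodup_cons] at h
  rcases List.mem_cons.1 hc with hc | hc
  · refine h.1 ?_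
    rw [← hc]
    simp
  rcases List.mem_cons.1 hc with hc | hc
  · exact absurd hc (by simp)
  exact h.2.2.2.2.1 (List.mem_cons_of_mem _ hc)

theorem rep (L : List (Q × Q)) (M₀ : List (ℝ × ℝ)) (h : Rp (fl L) M₀) : ∃ f g : Q → ℝ,
    (∀ a b, Sum.inl a ∈ fl L → Sum.inl b ∈ fl L → a < b → f b < f a) ∧
    (∀ a b, Sum.inr a ∈ fl L → Sum.inr b ∈ fl L → a < b → g a < g b) ∧
    Rp (fl L) (L.map fun p => (f p.1, g p.2)) ∧ Nd (L.map fun p => (f p.1, g p.2)) := by
  obtain ⟨hN, f, g, hf, hg, -⟩ := h
  refine ⟨f, g, hf, hg, ⟨hN, f, g, hf, hg, by rw [fl_map]⟩, ?_⟩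
  have hnd := fl_nodup hN
  have hfi : ∀ a ∈ L.map Prod.fst, ∀ b ∈ L.map Prod.fst, f a = f b → a = b := by
    intro a ha b hb h
    rcases lt_trichotomy a b with h1 | h1 | h1
    · exact absurd h (hf a b (inl_fl.2 ha) (inl_fl.2 hb) h1).ne'
    · exact h1
    · exact absurd h (hf b a (inl_fl.2 hb) (inl_fl.2 ha) h1).ne
  have hgi : ∀ a ∈ L.map Prod.snd, ∀ b ∈ L.map Prod.snd, g a = g b → a = b := by
    intro a ha b hb h
    rcases lt_trichotomy a b with h1 | h1 | h1
    · exact absurd h (hg a b (inr_fl.2 ha) (inr_fl.2 hb) h1).ne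
    · exact h1
    · exact absurd h (hg b a (inr_fl.2 hb) (inr_fl.2 ha) h1).ne'
  have n1 := List.Nodup.map_on hfi hnd.1
  have n2 := List.Nodup.map_on hgi hnd.2
  rw [List.map_map] at n1 n2
  refine ⟨?_, ?_⟩
  · rw [List.map_map]
    exact n1
  · rw [List.map_map]
    exact n2

theorem adj (L : List (Q × Q)) (f : Q → ℝ)
    (hf : ∀ a b, Sum.inl a ∈ fl L → Sum.inl b ∈ fl L → a < b → f b < f a) (g : Q → ℝ) (a b : Q)
    (ha : Sum.inl a ∈ fl L) (hb : Sum.inl b ∈ fl L) (hab : a < b)
    (hn : ∀ c, Sum.inl c ∈ fl L → ¬ (a < c ∧ c < b)) :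
    ∀ d ∈ (L.map fun p => (f p.1, g p.2)).map Prod.fst, ¬ cyc (f b) d (f a) := by
  intro d hd hcy
  rw [List.map_map] at hd
  obtain ⟨q, hq, rfl⟩ := List.mem_map.1 hd
  have hc : Sum.inl q.1 ∈ fl L := inl_fl.2 (List.mem_map.2 ⟨q, hq, rfl⟩)
  have hlt := hf a b ha hb hab
  simp only [Function.comp_apply] at hcy
  have h5 : f b < f q.1 ∧ f q.1 < f a := by
    rcases hcy with h | h | h
    · exact h
    · exact absurd (h.2.trans hlt) (lt_irrefl _)
    · exact absurd (h.1.trans hlt) (lt_irrefl _)
  refine hn q.1 hc ⟨?_, ?_⟩
  · by_contra hh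
    rcases (not_lt.1 hh).lt_or_eq with h6 | h6
    · exact absurd (hf _ _ hc ha h6) (not_lt.2 h5.2.le)
    · rw [h6] at h5
      exact lt_irrefl _ h5.2
  · by_contra hh
    rcases (not_lt.1 hh).lt_or_eq with h6 | h6
    · exact absurd (hf _ _ hb hc h6) (not_lt.2 h5.1.le)
    · rw [← h6] at h5
      exact lt_irrefl _ h5.1

end WZR

open _root_.LH.WZR in
theorem t_WZR : Stmt_WZR := by
  intro hLEQ hLWR hLWP hWEB hCWA hDC1 hDR2 _ s₁ u s₂ v s₃ T hZ M hM
  obtain ⟨cw, k₁, ku, k₂, kv, k₃, tri⟩ := hZ
  have hE : ents (s₁ :: u :: s₂ :: v :: s₃ :: T) = .inl s₁.c :: .inr s₁.r :: .inl u.c ::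
      .inr s₂.r :: .inl s₂.c :: .inr v.r :: .inl s₃.c :: .inr s₃.r :: ents T := by
    simp [ents, ent, k₁, ku, k₂, kv, k₃]
  have hA := hCWA.alt _ cw
  have hN := cw.nd
  -- the steps
  have st1 : s₁.t < u.t := by
    have h := cw.st (s₁, u) (by unfold cp; simp)
    unfold Stp at h
    rw [k₁, ku] at h
    simp only [Kd.fw, Kd.ar] at h
    tauto
  have st2 : v.t < s₃.t := by
    have h := cw.st (v, s₃) (by unfold cp; simp)
    unfold Stp at h
    rw [kv, k₃] at h
    simp only [Kd.fw, Kd.ar] at h
    tauto
  have hT : T ≠ [] := by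
    rintro rfl
    have h := cw.st (s₃, s₁) (last_cp s₁ s₃ [u, s₂, v])
    unfold Stp at h
    rw [k₁, k₃] at h
    simp only [Kd.fw, Kd.ar] at h
    have := tri.t₃
    rcases h with h | h
    · linarith [h.2.2]
    · tauto
  obtain ⟨T', p, rfl⟩ : ∃ T' p, T = T' ++ [p] := ⟨T.dropLast, T.getLast hT,
    (List.dropLast_append_getLast hT).symm⟩
  have st3 : Stp p s₁ := cw.st (p, s₁) (last_cp s₁ p (u :: s₂ :: v :: s₃ :: T'))
  have hp : p.k.fw ∧ p.t < s₁.t := by
    unfold Stp at st3
    rw [k₁] at st3
    simp only [Kd.ar] at st3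
    tauto
  obtain ⟨E', hE'⟩ : ∃ E', ents (T' ++ [p]) = E' ++ [.inr p.r] := by
    have hpk : p.k = .rt ∨ p.k = .L := by
      have := hp.1
      cases h : p.k <;> rw [h] at this <;> simp [Kd.fw] at this ⊢
    have e : ents (T' ++ [p]) = ents T' ++ ent p := by
      simp [ents, List.flatMap_append]
    rcases hpk with h | h
    · exact ⟨ents T' ++ [.inl p.c], by rw [e]; simp [ent, h]⟩
    · exact ⟨ents T', by rw [e]; simp [ent, h]⟩
  -- the order of the entries
  have t2 := tri.t₂
  have t3 := tri.t₃
  have c1u : s₁.c < u.c := c_lt.2 (Or.inl st1)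
  have c3u : s₃.c < u.c := c_lt.2 (Or.inl (by rw [← t3]; exact st1))
  have r2v : s₂.r < v.r := r_lt.2 (Or.inl (by rw [← t2, t3]; exact st2))
  have r3v : s₃.r < v.r := r_lt.2 (Or.inl st2)
  have r1p : s₁.r < p.r := r_lt.2 (Or.inl hp.2)
  have r3p : s₃.r < p.r := r_lt.2 (Or.inl (by rw [← t3]; exact hp.2))
  -- the common part
  have key : (s₃.h < s₂.h ∧ s₂.h < s₁.h ∨ s₁.h < s₂.h ∧ s₂.h < s₃.h) →
      ∃ (c₁ r₁ c₂ r₂ : ℝ) (B : List (ℝ × ℝ)) (z : ℝ × ℝ),
        Nd ((c₁, r₁) :: (c₂, r₂) :: (B ++ [z])) ∧ LEq M ((c₁, r₁) :: (c₂, r₂) :: (B ++ [z])) ∧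
        (s₃.h < s₂.h ∧ s₂.h < s₁.h →
          (∀ d ∈ ((c₁, r₁) :: (c₂, r₂) :: (B ++ [z])).map Prod.fst, ¬ cyc c₁ d c₂) ∧
            cyc r₁ z.2 r₂) ∧
        (s₁.h < s₂.h ∧ s₂.h < s₃.h →
          (∀ d ∈ ((c₁, r₁) :: (c₂, r₂) :: (B ++ [z])).map Prod.fst, ¬ cyc c₂ d c₁) ∧
            cyc r₁ r₂ z.2) := by
    intro ho
    have hA' := hA
    have hN' := hN
    rw [hE] at hA' hN'
    have ord : (s₃.c < s₂.c ∧ s₂.c < s₁.c ∧ s₃.r < s₂.r ∧ s₂.r < s₁.r) ∨
        (s₁.c < s₂.c ∧ s₂.c < s₃.c ∧ s₁.r < s₂.r ∧ s₂.r < s₃.r) := by
      rcases ho with ⟨a, b⟩ | ⟨a, b⟩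
      · exact Or.inl ⟨c_lt.2 (Or.inr ⟨by rw [← t2, t3], a⟩), c_lt.2 (Or.inr ⟨t2.symm, b⟩),
          r_lt.2 (Or.inr ⟨by rw [← t2, t3], a⟩), r_lt.2 (Or.inr ⟨t2.symm, b⟩)⟩
      · exact Or.inr ⟨c_lt.2 (Or.inr ⟨t2, a⟩), c_lt.2 (Or.inr ⟨by rw [← t2, t3], b⟩),
          r_lt.2 (Or.inr ⟨t2, a⟩), r_lt.2 (Or.inr ⟨by rw [← t2, t3], b⟩)⟩
    have hcol : ∀ c, Sum.inl c ∈ ents (s₁ :: u :: s₂ :: v :: s₃ :: (T' ++ [p])) →
        Btw s₁.c s₃.c c → c = s₂.c := by
      intro c hc hb
      obtain ⟨x, hx, hk, rfl⟩ := inl_mem_ents hc
      rw [tri.col x hx hk hb]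
    have hrow : ∀ r, Sum.inr r ∈ ents (s₁ :: u :: s₂ :: v :: s₃ :: (T' ++ [p])) →
        Btw s₁.r s₃.r r → r = s₂.r := by
      intro r hr hb
      obtain ⟨x, hx, hk, rfl⟩ := inr_mem_ents hr
      rw [tri.row x hx hk hb]
    have hWE := step hWEB hDC1 hDR2 s₁.c s₁.r u.c s₂.r s₂.c v.r s₃.c s₃.r (ents (T' ++ [p]))
      hA' hN'
      (by
        intro c hc hb
        rw [← hE] at hc
        have h1 := hcol c hc
        unfold Btw at h1 hb
        rcases ord with ⟨o1, o2, -, -⟩ | ⟨o1, o2, -, -⟩
        · rcases hb with hb | hb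
          · exact absurd (hb.1.trans hb.2) (not_lt.2 o1.le)
          · have h2 := h1 (Or.inr ⟨hb.1, hb.2.trans o2⟩)
            rw [h2] at hb
            exact lt_irrefl _ hb.2
        · rcases hb with hb | hb
          · have h2 := h1 (Or.inl ⟨o1.trans hb.1, hb.2⟩)
            rw [h2] at hb
            exact lt_irrefl _ hb.1
          · exact absurd (hb.1.trans hb.2) (not_lt.2 o2.le))
      (by
        intro r hr hb
        rw [← hE] at hr
        have h1 := hrow r hr
        unfold Btw at h1 hb
        rcases ord with ⟨-, -, o1, o2⟩ | ⟨-, -, o1, o2⟩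
        · rcases hb with hb | hb
          · have h2 := h1 (Or.inr ⟨o1.trans hb.1, hb.2⟩)
            rw [h2] at hb
            exact lt_irrefl _ hb.1
          · exact absurd (hb.1.trans hb.2) (not_lt.2 o2.le)
        · rcases hb with hb | hb
          · exact absurd (hb.1.trans hb.2) (not_lt.2 o1.le)
          · have h2 := h1 (Or.inl ⟨hb.1, hb.2.trans o2⟩)
            rw [h2] at hb
            exact lt_irrefl _ hb.2)
      (by
        rcases ord with ⟨o1, o2, o3, o4⟩ | ⟨o1, o2, o3, o4⟩
        · exact Or.inr ⟨o1, Or.inr (Or.inl ⟨o3, r2v⟩)⟩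
        · exact Or.inl ⟨o2, Or.inr (Or.inl ⟨o4, r3v⟩)⟩)
      (by
        rcases ord with ⟨o1, o2, o3, o4⟩ | ⟨o1, o2, o3, o4⟩
        · exact Or.inl ⟨o4, Or.inl ⟨o1.trans o2, c1u⟩⟩
        · exact Or.inr ⟨o3, Or.inl ⟨o1.trans o2, c3u⟩⟩)
    rw [← hE] at hWE
    -- the alternating list
    have hch : List.IsChain RR (.inr s₃.r :: (ents (T' ++ [p]) ++ [.inl s₁.c])) := by
      have h := (alt_iff _ _).1 hA'
      simp only [List.cons_append, List.isChain_cons_cons] at h
      exact h.2.2.2.2.2.2.2
    obtain ⟨L', hL'⟩ := ex_fl _ _ le_rfl _ _ hch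
    have hL0 : L' ≠ [] := by
      rintro rfl
      rw [hE'] at hL'
      exact absurd hL' (by simp [fl])
    obtain ⟨B', z', rfl⟩ : ∃ B' z', L' = B' ++ [z'] := ⟨L'.dropLast, L'.getLast hL0,
      (List.dropLast_append_getLast hL0).symm⟩
    have hz' : z'.2 = p.r := by
      obtain ⟨a, b⟩ := z'
      rw [hE', fl_append] at hL'
      have e : fl [(a, b)] = ([Sum.inl a, Sum.inr b] : List En) := rfl
      rw [e] at hL'
      have e2 : fl B' ++ ([Sum.inl a, Sum.inr b] : List En) =
          (fl B' ++ [Sum.inl a]) ++ [Sum.inr b] := by simp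
      rw [e2] at hL'
      have h := List.append_inj_right' hL' rfl
      simp only [List.cons.injEq, Sum.inr.injEq, and_true] at h
      exact h.symm
    have hW5 : (Sum.inl s₁.c :: .inr s₁.r :: .inl s₃.c :: .inr s₃.r :: ents (T' ++ [p]) :
        List En) = fl ((s₁.c, s₁.r) :: (s₃.c, s₃.r) :: (B' ++ [z'])) := by
      rw [fl_cons, fl_cons, hL']
    rw [hW5] at hWE
    have hWE2 := hWE
    obtain ⟨M1, M2, -, hM2, -⟩ := hWE2
    obtain ⟨f, g, hf, hg, hRp, hNd⟩ := rep _ _ hM2
    have hLE := hWEB.all _ _ _ _ hWE hM hRp
    have i1 : Sum.inl s₁.c ∈ fl ((s₁.c, s₁.r) :: (s₃.c, s₃.r) :: (B' ++ [z'])) :=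
      inl_fl.2 (by simp)
    have i3 : Sum.inl s₃.c ∈ fl ((s₁.c, s₁.r) :: (s₃.c, s₃.r) :: (B' ++ [z'])) :=
      inl_fl.2 (by simp)
    have j1 : Sum.inr s₁.r ∈ fl ((s₁.c, s₁.r) :: (s₃.c, s₃.r) :: (B' ++ [z'])) :=
      inr_fl.2 (by simp)
    have j3 : Sum.inr s₃.r ∈ fl ((s₁.c, s₁.r) :: (s₃.c, s₃.r) :: (B' ++ [z'])) :=
      inr_fl.2 (by simp)
    have jz : Sum.inr p.r ∈ fl ((s₁.c, s₁.r) :: (s₃.c, s₃.r) :: (B' ++ [z'])) :=
      inr_fl.2 (by rw [← hz']; simp)
    -- no columns between
    have sub : ∀ c, Sum.inl c ∈ fl ((s₁.c, s₁.r) :: (s₃.c, s₃.r) :: (B' ++ [z'])) →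
        ¬ Btw s₁.c s₃.c c := by
      intro c hc hb
      rw [← hW5] at hc
      have hc' : Sum.inl c ∈ ents (s₁ :: u :: s₂ :: v :: s₃ :: (T' ++ [p])) := by
        rw [hE]
        exact (cons_cons_sub _ _ _ _ hc)
      have h2 := hcol c hc' hb
      rw [h2] at hc
      exact two_notMem _ _ _ _ _ _ hN' hc
    have last : ∀ (x : ℝ × ℝ), ((s₁.c, s₁.r) :: (s₃.c, s₃.r) :: (B' ++ [z'])).map
        (fun p => (f p.1, g p.2)) = (f s₁.c, g s₁.r) :: (f s₃.c, g s₃.r) ::
          ((B'.map fun p => (f p.1, g p.2)) ++ [(f z'.1, g z'.2)]) := by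
      intro _
      rw [List.map_cons, List.map_cons, List.map_append]
      rfl
    rw [last (0, 0)] at hNd hLE
    refine ⟨f s₁.c, g s₁.r, f s₃.c, g s₃.r, B'.map fun p => (f p.1, g p.2), (f z'.1, g z'.2),
      hNd, hLE, ?_, ?_⟩
    · intro ho'
      have o1 : s₃.c < s₁.c := c_lt.2 (Or.inr ⟨t3.symm, ho'.1.trans ho'.2⟩)
      have o3 : s₃.r < s₁.r := r_lt.2 (Or.inr ⟨t3.symm, ho'.1.trans ho'.2⟩)
      refine ⟨?_, ?_⟩
      · rw [← last (0, 0)]
        exact adj _ f hf g _ _ i3 i1 o1 fun c hc hcc => sub c hc (Or.inr hcc)
      · show cyc (g s₁.r) (g z'.2) (g s₃.r)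
        rw [hz']
        exact Or.inr (Or.inr ⟨hg _ _ j3 j1 o3, hg _ _ j1 jz r1p⟩)
    · intro ho'
      have o1 : s₁.c < s₃.c := c_lt.2 (Or.inr ⟨t3, ho'.1.trans ho'.2⟩)
      have o3 : s₁.r < s₃.r := r_lt.2 (Or.inr ⟨t3, ho'.1.trans ho'.2⟩)
      refine ⟨?_, ?_⟩
      · rw [← last (0, 0)]
        exact adj _ f hf g _ _ i1 i3 o1 fun c hc hcc => sub c hc (Or.inl hcc)
      · show cyc (g s₁.r) (g s₃.r) (g z'.2)
        rw [hz']
        exact Or.inl ⟨hg _ _ j1 j3 o3, hg _ _ j3 jz r3p⟩
  refine ⟨fun a b => ?_, fun a b => ?_⟩
  · obtain ⟨c₁, r₁, c₂, r₂, B, z, hNd, hLE, h1, -⟩ := key (Or.inl ⟨a, b⟩)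
    exact ((hLEQ _ _ hLE).1).2 (hLWR c₁ r₁ c₂ r₂ B z hNd (h1 ⟨a, b⟩).1 (h1 ⟨a, b⟩).2)
  · obtain ⟨c₁, r₁, c₂, r₂, B, z, hNd, hLE, -, h1⟩ := key (Or.inr ⟨a, b⟩)
    exact ((hLEQ _ _ hLE).2).2 (hLWP c₁ r₁ c₂ r₂ B z hNd (h1 ⟨a, b⟩).1 (h1 ⟨a, b⟩).2)

end LH


end

section

/-! Module LHS_SHF: components can be shifted by a period. -/

open Set LH LC Filter
open scoped ContDiff Topology

namespace LHS

theorem t_SHF : Stmt_SHF := by
  intro N P e p q h
  have hx1 : P.x (p + N) = P.x p := P.px p
  have hx2 : P.x (q + N + 1) = P.x (q + 1) := by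
    have h1 : q + N + 1 = (q + 1) + N := by ring
    rw [h1, P.px]
  refine ⟨?_, ?_, ?_, ?_, ?_⟩
  · have := h.le
    omega
  · intro i h1 h2
    have h3 := P.px (i - N)
    rw [sub_add_cancel] at h3
    rw [h3]
    exact h.ins (i - N) (by omega) (by omega)
  · rw [hx1]
    exact h.fst
  · rw [hx2]
    exact h.lst
  · intro h1
    rw [hx1, hx2]
    exact h.one (by omega)

end LHS


end

section

/-!
# SGN: discrete intermediate value argument
-/

namespace LHS

open Set LH LC Filter
open scoped ContDiff Topology

namespace SGN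

theorem pos_of_pos (g : ℤ → ℝ) (p q : ℤ) (s : ℝ) (hs : 0 < s)
    (h1 : ∀ i ∈ Icc p q, s ≤ |g i|) (h2 : ∀ i, |g (i + 1) - g i| < s) (hp : 0 < g p) :
    ∀ i ∈ Icc p q, 0 < g i := by
  have key : ∀ i, p ≤ i → i ≤ q → 0 < g i := by
    intro i hi
    induction i, hi using Int.leInduction with
    | base => intro _; exact hp
    | succ n hn ih =>
      intro hq
      have h3 := ih (by omega)
      have h4 := h1 n ⟨hn, by omega⟩
      have h5 := h1 (n + 1) ⟨by omega, hq⟩
      have h6 := abs_lt.mp (h2 n)
      by_contra hneg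
      push Not at hneg
      rw [abs_of_pos h3] at h4
      rw [abs_of_nonpos hneg] at h5
      linarith [h6.1]
  intro i hi
  exact key i hi.1 hi.2

theorem half (f : ℤ → ℝ) (p q p' q' : ℤ) (s : ℝ) (hs : 0 < s) (hpq : p ≤ q) (hpq' : p' ≤ q')
    (h1 : ∀ i ∈ Icc p q, ∀ j ∈ Icc p' q', s ≤ |f i - f j|)
    (h2 : ∀ i, |f (i + 1) - f i| < s) (hp : f p' < f p) :
    ∀ i ∈ Icc p q, ∀ j ∈ Icc p' q', f j < f i := by
  intro i hi j hj
  have e1 := pos_of_pos (fun i => f i - f p') p q s hs
    (fun i hi => h1 i hi p' ⟨le_refl _, hpq'⟩)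
    (fun i => by
      have := h2 i
      have e : (f (i + 1) - f p') - (f i - f p') = f (i + 1) - f i := by ring
      change |(f (i + 1) - f p') - (f i - f p')| < s
      rw [e]
      exact this) (by change 0 < f p - f p'; linarith) i hi
  have e2 := pos_of_pos (fun j => f i - f j) p' q' s hs (fun j hj => h1 i hi j hj)
    (fun j => by
      have := h2 j
      have e : (f i - f (j + 1)) - (f i - f j) = -(f (j + 1) - f j) := by ring
      change |(f i - f (j + 1)) - (f i - f j)| < s
      rw [e, abs_neg]
      exact this) e1 j hj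
  change 0 < f i - f j at e2
  linarith

end SGN

/-- SGN. -/
theorem t_SGN : Stmt_SGN := by
  intro f p q p' q' s hs hpq hpq' h1 h2
  have h3 := h1 p ⟨le_refl _, hpq⟩ p' ⟨le_refl _, hpq'⟩
  rcases lt_trichotomy (f p) (f p') with h | h | h
  · left
    intro i hi j hj
    have := SGN.half (fun i => - f i) p q p' q' s hs hpq hpq'
      (fun i hi j hj => by
        have e := h1 i hi j hj
        have e' : - f i - - f j = -(f i - f j) := by ring
        change s ≤ |(- f i - - f j)|
        rw [e', abs_neg]
        exact e)
      (fun i => by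
        have e := h2 i
        have e' : - f (i + 1) - - f i = -(f (i + 1) - f i) := by ring
        change |(- f (i + 1) - - f i)| < s
        rw [e', abs_neg]
        exact e) (by change - f p' < - f p; linarith) i hi j hj
    change - f j < - f i at this
    linarith
  · rw [h, sub_self, abs_zero] at h3
    linarith
  · right
    exact SGN.half f p q p' q' s hs hpq hpq' h1 h2 h

end LHS


end

section

/-!
# The change of the parameter of a knot has degree `1` or `-1`
-/

namespace LHS

open Set LH LC Filter
open scoped ContDiff Topology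

namespace DEG

theorem sign {f : ℝ → ℝ} (hf : Continuous f) (h0 : ∀ u, f u ≠ 0) :
    (∀ u, 0 < f u) ∨ ∀ u, f u < 0 := by
  by_contra h
  push Not at h
  obtain ⟨⟨a, ha⟩, ⟨b, hb⟩⟩ := h
  obtain ⟨c, hc⟩ := mem_range_of_exists_le_of_exists_ge hf ⟨a, ha⟩ ⟨b, hb⟩
  exact h0 c hc

/-- No point strictly inside a period has the same image. -/
theorem no_int {Λ : LegKnot} {u v : ℝ} (hv : v ∈ Ioo u (u + 1)) (h : Λ.γ u = Λ.γ v) : False := by
  obtain ⟨k, hk⟩ := Λ.injective u v h
  rw [hk] at hv
  have h1 : (0 : ℝ) < k := by linarith [hv.1]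
  have h2 : (k : ℝ) < 1 := by linarith [hv.2]
  have h3 : 0 < k := by exact_mod_cast h1
  have h4 : k < 1 := by exact_mod_cast h2
  omega

end DEG

/-- DEG: the degree is `1` or `-1`. -/
theorem t_DEG : Stmt_DEG := by
  intro Λ Λ' φ hφ hd hγ
  have hc : Continuous φ := hφ.continuous
  have hdc : Continuous (deriv φ) := hφ.continuous_deriv (by norm_num)
  have hk : ∀ u, ∃ k : ℤ, φ (u + 1) = φ u + k := by
    intro u
    apply Λ'.injective
    rw [← hγ, ← hγ, Λ.periodic]
  rcases DEG.sign hdc hd with hpos | hneg
  · left
    refine ⟨hpos, fun u => ?_⟩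
    have hm : StrictMono φ := strictMono_of_deriv_pos hpos
    obtain ⟨k, hk⟩ := hk u
    have h1 : φ u < φ (u + 1) := hm (by linarith)
    have h2 : (0 : ℝ) < k := by rw [hk] at h1; linarith
    have h3 : 0 < k := by exact_mod_cast h2
    rcases (show k = 1 ∨ 2 ≤ k by omega) with h4 | h4
    · rw [hk, h4, Int.cast_one]
    · exfalso
      have h5 : (2 : ℝ) ≤ k := by exact_mod_cast h4
      have h6 : φ u + 1 ∈ Ioo (φ u) (φ (u + 1)) := by
        rw [hk]
        constructor <;> linarith
      obtain ⟨v, hv, hv'⟩ := intermediate_value_Ioo (by linarith : u ≤ u + 1) hc.continuousOn h6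
      refine DEG.no_int (Λ := Λ) hv ?_
      rw [hγ u, hγ v, hv', Λ'.periodic]
  · right
    refine ⟨hneg, fun u => ?_⟩
    have hm : StrictAnti φ := strictAnti_of_deriv_neg hneg
    obtain ⟨k, hk⟩ := hk u
    have h1 : φ (u + 1) < φ u := hm (by linarith)
    have h2 : (k : ℝ) < 0 := by rw [hk] at h1; linarith
    have h3 : k < 0 := by exact_mod_cast h2
    rcases (show k = -1 ∨ k ≤ -2 by omega) with h4 | h4
    · rw [hk, h4]
      push_cast
      ring
    · exfalso
      have h5 : (k : ℝ) ≤ -2 := by exact_mod_cast h4
      have h6 : φ u - 1 ∈ Ioo (φ (u + 1)) (φ u) := by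
        rw [hk]
        constructor <;> linarith
      obtain ⟨v, hv, hv'⟩ := intermediate_value_Ioo' (by linarith : u ≤ u + 1) hc.continuousOn h6
      refine DEG.no_int (Λ := Λ) hv ?_
      have h7 := Λ'.periodic (φ u - 1)
      rw [sub_add_cancel] at h7
      rw [hγ u, hγ v, hv', h7]

end LHS


end

section

/-!
# The reversed knot
-/

namespace LHS

open Set LH LC Filter
open scoped ContDiff Topology

theorem t_RVX : Stmt_RVX := by
  intro Λ
  refine ⟨⟨fun u => Λ.γ (-u), ?_, ?_, ?_, ?_, ?_⟩, fun u => rfl⟩
  · exact Λ.smooth.comp contDiff_neg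
  · intro u
    have h := Λ.periodic (-(u + 1))
    have e : -(u + 1) + 1 = -u := by ring
    rw [e] at h
    exact h.symm
  · intro u
    rw [deriv_comp_neg]
    exact neg_ne_zero.mpr (Λ.immersion (-u))
  · intro u v h
    obtain ⟨k, hk⟩ := Λ.injective (-u) (-v) h
    refine ⟨-k, ?_⟩
    push_cast
    linarith
  · intro u
    rw [deriv_comp_neg]
    have h := Λ.legendrian (-u)
    unfold alpha at h ⊢
    change -(deriv Λ.γ (-u)).2.2 - (Λ.γ (-u)).2.1 * -(deriv Λ.γ (-u)).1 = 0
    linarith

end LHS


end

section

set_option maxRecDepth 100000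

namespace LCA.CapJ

open LCA

def S25 : SD where
  vs := [
    ⟨nat_lit 0, nat_lit 0, nat_lit 22, (.ofNat (nat_lit 8)), (.negSucc (nat_lit 34340863)), (.ofNat (nat_lit 82043642750240442787168780288)), (.ofNat (nat_lit 0)), (.ofNat (nat_lit 1262209888465237581320421376)), (.negSucc (nat_lit 34340879)), (.negSucc (nat_lit 34340847)), (.negSucc (nat_lit 2630013946733248503457)), (.ofNat (nat_lit 2630013946733248503458)), (.negSucc (nat_lit 2630013946733248503457)), (.ofNat (nat_lit 2630013946733248503458)), (.ofNat (nat_lit 242770518159992169546))⟩,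
    ⟨nat_lit 2, nat_lit 0, nat_lit 1, (.ofNat (nat_lit 8)), (.negSucc (nat_lit 243400703)), (.ofNat (nat_lit 631873937652061897600337707008)), (.ofNat (nat_lit 0)), (.ofNat (nat_lit 9721137502339413809077026816)), (.negSucc (nat_lit 243400719)), (.negSucc (nat_lit 243400687)), (.negSucc (nat_lit 2630013946733248503457)), (.ofNat (nat_lit 2630013946733248503458)), (.negSucc (nat_lit 2630013946733248503457)), (.ofNat (nat_lit 2630013946733248503458)), (.ofNat (nat_lit 242770518159992169546))⟩,
    ⟨nat_lit 0, nat_lit 1, nat_lit 2, (.ofNat (nat_lit 8)), (.negSucc (nat_lit 115097791)), (.ofNat (nat_lit 969312385618550567813641176704)), (.ofNat (nat_lit 0)), (.ofNat (nat_lit 14912498240285393350735279808)), (.negSucc (nat_lit 115097807)), (.negSucc (nat_lit 115097775)), (.ofNat (nat_lit 2630013946733248503458)), (.negSucc (nat_lit 2630013946733248503457)), (.negSucc (nat_lit 2630013946733248503457)), (.ofNat (nat_lit 2630013946733248503458)), (.ofNat (nat_lit 242770518159992169546))⟩,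
    ⟨nat_lit 0, nat_lit 2, nat_lit 3, (.ofNat (nat_lit 8)), (.ofNat (nat_lit 17416000)), (.ofNat (nat_lit 620799264524041796142096483968)), (.ofNat (nat_lit 0)), (.ofNat (nat_lit 9550757915754489171260716736)), (.ofNat (nat_lit 17415984)), (.ofNat (nat_lit 17416016)), (.negSucc (nat_lit 2630013946733248503457)), (.ofNat (nat_lit 2630013946733248503458)), (.negSucc (nat_lit 2630013946733248503457)), (.ofNat (nat_lit 2630013946733248503458)), (.ofNat (nat_lit 242770518159992169546))⟩,
    ⟨nat_lit 1, nat_lit 3, nat_lit 4, (.ofNat (nat_lit 8)), (.ofNat (nat_lit 170377024)), (.ofNat (nat_lit 1023088890950640942077499704960)), (.ofNat (nat_lit 0)), (.ofNat (nat_lit 15739829091548322185550345920)), (.ofNat (nat_lit 170377008)), (.ofNat (nat_lit 170377040)), (.ofNat (nat_lit 2630013946733248503458)), (.negSucc (nat_lit 2630013946733248503457)), (.negSucc (nat_lit 2630013946733248503457)), (.ofNat (nat_lit 2630013946733248503458)), (.ofNat (nat_lit 242770518159992169546))⟩,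
    ⟨nat_lit 0, nat_lit 5, nat_lit 4, (.ofNat (nat_lit 8)), (.ofNat (nat_lit 18726720)), (.ofNat (nat_lit 1421931305496977884534450456192)), (.ofNat (nat_lit 0)), (.ofNat (nat_lit 21875866238415044377095419584)), (.ofNat (nat_lit 18726704)), (.ofNat (nat_lit 18726736)), (.ofNat (nat_lit 2630013946733248503458)), (.negSucc (nat_lit 2630013946733248503457)), (.negSucc (nat_lit 2630013946733248503457)), (.ofNat (nat_lit 2630013946733248503458)), (.ofNat (nat_lit 242770518159992169546))⟩,
    ⟨nat_lit 2, nat_lit 6, nat_lit 5, (.ofNat (nat_lit 8)), (.negSucc (nat_lit 196264127)), (.ofNat (nat_lit 856502376836969958981284103808)), (.ofNat (nat_lit 0)), (.ofNat (nat_lit 13176959643645691676419700416)), (.negSucc (nat_lit 196264143)), (.negSucc (nat_lit 196264111)), (.negSucc (nat_lit 2630013946733248503457)), (.ofNat (nat_lit 2630013946733248503458)), (.negSucc (nat_lit 2630013946733248503457)), (.ofNat (nat_lit 2630013946733248503458)), (.ofNat (nat_lit 242770518159992169546))⟩,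
    ⟨nat_lit 0, nat_lit 7, nat_lit 8, (.ofNat (nat_lit 8)), (.ofNat (nat_lit 5947200)), (.ofNat (nat_lit 891922478906664099722383230592)), (.ofNat (nat_lit 0)), (.ofNat (nat_lit 13721884290871724875714836160)), (.ofNat (nat_lit 5947184)), (.ofNat (nat_lit 5947216)), (.ofNat (nat_lit 2630013946733248503458)), (.negSucc (nat_lit 2630013946733248503457)), (.negSucc (nat_lit 2630013946733248503457)), (.ofNat (nat_lit 2630013946733248503458)), (.ofNat (nat_lit 242770518159990578758))⟩,
    ⟨nat_lit 0, nat_lit 8, nat_lit 9, (.ofNat (nat_lit 8)), (.ofNat (nat_lit 158908224)), (.ofNat (nat_lit 489632852480064953786980009600)), (.ofNat (nat_lit 0)), (.ofNat (nat_lit 7532813115077922365830379200)), (.ofNat (nat_lit 158908208)), (.ofNat (nat_lit 158908240)), (.negSucc (nat_lit 2630013946733248503457)), (.ofNat (nat_lit 2630013946733248503458)), (.negSucc (nat_lit 2630013946733248503457)), (.ofNat (nat_lit 2630013946733248503458)), (.ofNat (nat_lit 242770518159991371842))⟩,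
    ⟨nat_lit 1, nat_lit 9, nat_lit 10, (.ofNat (nat_lit 8)), (.ofNat (nat_lit 244629312)), (.ofNat (nat_lit 715080509449213061277771531904)), (.ofNat (nat_lit 0)), (.ofNat (nat_lit 11001238606910970173324310208)), (.ofNat (nat_lit 244629296)), (.ofNat (nat_lit 244629328)), (.ofNat (nat_lit 2630013946733248503458)), (.negSucc (nat_lit 2630013946733248503457)), (.negSucc (nat_lit 2630013946733248503457)), (.ofNat (nat_lit 2630013946733248503458)), (.ofNat (nat_lit 242770518159992169546))⟩,
    ⟨nat_lit 0, nat_lit 11, nat_lit 10, (.ofNat (nat_lit 8)), (.ofNat (nat_lit 187219776)), (.ofNat (nat_lit 866068389804697573633989707392)), (.ofNat (nat_lit 0)), (.ofNat (nat_lit 13324129073918424209535841984)), (.ofNat (nat_lit 187219760)), (.ofNat (nat_lit 187219792)), (.ofNat (nat_lit 2630013946733248503458)), (.negSucc (nat_lit 2630013946733248503457)), (.negSucc (nat_lit 2630013946733248503457)), (.ofNat (nat_lit 2630013946733248503458)), (.ofNat (nat_lit 242770518159992169546))⟩,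
    ⟨nat_lit 2, nat_lit 12, nat_lit 11, (.ofNat (nat_lit 8)), (.ofNat (nat_lit 144359232)), (.ofNat (nat_lit 753344561320123519888593946240)), (.ofNat (nat_lit 0)), (.ofNat (nat_lit 11589916328001900305788876480)), (.ofNat (nat_lit 144359216)), (.ofNat (nat_lit 144359248)), (.negSucc (nat_lit 2630013946733248503457)), (.ofNat (nat_lit 2630013946733248503458)), (.negSucc (nat_lit 2630013946733248503457)), (.ofNat (nat_lit 2630013946733248503458)), (.ofNat (nat_lit 242770518159992169546))⟩,
    ⟨nat_lit 1, nat_lit 13, nat_lit 12, (.ofNat (nat_lit 8)), (.ofNat (nat_lit 220905280)), (.ofNat (nat_lit 552027387512810836746969712256)), (.ofNat (nat_lit 0)), (.ofNat (nat_lit 8492729038658628257506834112)), (.ofNat (nat_lit 220905264)), (.ofNat (nat_lit 220905296)), (.ofNat (nat_lit 2630013946733248503458)), (.negSucc (nat_lit 2630013946733248503457)), (.negSucc (nat_lit 2630013946733248503457)), (.ofNat (nat_lit 2630013946733248503458)), (.ofNat (nat_lit 242770518159992169546))⟩,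
    ⟨nat_lit 0, nat_lit 14, nat_lit 13, (.ofNat (nat_lit 8)), (.ofNat (nat_lit 153665344)), (.ofNat (nat_lit 375185418055359798302358013568)), (.ofNat (nat_lit 0)), (.ofNat (nat_lit 5772083354697843050711135936)), (.ofNat (nat_lit 153665328)), (.ofNat (nat_lit 153665360)), (.negSucc (nat_lit 2630013946733248503457)), (.ofNat (nat_lit 2630013946733248503458)), (.negSucc (nat_lit 2630013946733248503457)), (.ofNat (nat_lit 2630013946733248503458)), (.ofNat (nat_lit 242770518159992169546))⟩,
    ⟨nat_lit 0, nat_lit 15, nat_lit 14, (.ofNat (nat_lit 8)), (.negSucc (nat_lit 35209407)), (.ofNat (nat_lit 871928650001143319547358905984)), (.ofNat (nat_lit 0)), (.ofNat (nat_lit 13414286923094512608201586368)), (.negSucc (nat_lit 35209423)), (.negSucc (nat_lit 35209391)), (.ofNat (nat_lit 2630013946733248503458)), (.negSucc (nat_lit 2630013946733248503457)), (.negSucc (nat_lit 2630013946733248503457)), (.ofNat (nat_lit 2630013946733248503458)), (.ofNat (nat_lit 242770518159992169546))⟩,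
    ⟨nat_lit 0, nat_lit 6, nat_lit 15, (.ofNat (nat_lit 8)), (.negSucc (nat_lit 118669503)), (.ofNat (nat_lit 652427433525447513056897894016)), (.ofNat (nat_lit 0)), (.ofNat (nat_lit 10037345131160730969942013632)), (.negSucc (nat_lit 118669519)), (.negSucc (nat_lit 118669487)), (.negSucc (nat_lit 2630013946733248503457)), (.ofNat (nat_lit 2630013946733248503458)), (.negSucc (nat_lit 2630013946733248503457)), (.ofNat (nat_lit 2630013946733248503458)), (.ofNat (nat_lit 242770518159992169546))⟩,
    ⟨nat_lit 0, nat_lit 23, nat_lit 16, (.ofNat (nat_lit 8)), (.negSucc (nat_lit 9961535)), (.ofNat (nat_lit 246820202305881178129292613504)), (.ofNat (nat_lit 0)), (.ofNat (nat_lit 3797233881628941201927033408)), (.negSucc (nat_lit 9961551)), (.negSucc (nat_lit 9961519)), (.negSucc (nat_lit 2630013946733248503457)), (.ofNat (nat_lit 2630013946733248503458)), (.negSucc (nat_lit 2630013946733248503457)), (.ofNat (nat_lit 2630013946733248503458)), (.ofNat (nat_lit 242770518159992462910))⟩,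
    ⟨nat_lit 1, nat_lit 16, nat_lit 17, (.ofNat (nat_lit 8)), (.ofNat (nat_lit 184926016)), (.ofNat (nat_lit 759377182110582375975885768320)), (.ofNat (nat_lit 0)), (.ofNat (nat_lit 11682725878624344245591848640)), (.ofNat (nat_lit 184926000)), (.ofNat (nat_lit 184926032)), (.ofNat (nat_lit 2630013946733248503458)), (.negSucc (nat_lit 2630013946733248503457)), (.negSucc (nat_lit 2630013946733248503457)), (.ofNat (nat_lit 2630013946733248503458)), (.ofNat (nat_lit 242770518159992169546))⟩,
    ⟨nat_lit 0, nat_lit 18, nat_lit 17, (.ofNat (nat_lit 8)), (.ofNat (nat_lit 146652992)), (.ofNat (nat_lit 860035769014238717546697885312)), (.ofNat (nat_lit 0)), (.ofNat (nat_lit 13231319523295980269732869824)), (.ofNat (nat_lit 146652976)), (.ofNat (nat_lit 146653008)), (.ofNat (nat_lit 2630013946733248503458)), (.negSucc (nat_lit 2630013946733248503457)), (.negSucc (nat_lit 2630013946733248503457)), (.ofNat (nat_lit 2630013946733248503458)), (.ofNat (nat_lit 242770518159992169546))⟩,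
    ⟨nat_lit 0, nat_lit 19, nat_lit 18, (.ofNat (nat_lit 8)), (.ofNat (nat_lit 15122240)), (.ofNat (nat_lit 514108056829926598483992544896)), (.ofNat (nat_lit 0)), (.ofNat (nat_lit 7909354720460409207316723392)), (.ofNat (nat_lit 15122224)), (.ofNat (nat_lit 15122256)), (.negSucc (nat_lit 2630013946733248503457)), (.ofNat (nat_lit 2630013946733248503458)), (.negSucc (nat_lit 2630013946733248503457)), (.ofNat (nat_lit 2630013946733248503458)), (.ofNat (nat_lit 242770518159992169546))⟩,
    ⟨nat_lit 2, nat_lit 19, nat_lit 20, (.ofNat (nat_lit 8)), (.negSucc (nat_lit 117391551)), (.ofNat (nat_lit 862621177924435370155537237632)), (.ofNat (nat_lit 0)), (.ofNat (nat_lit 13271095044991313386791286464)), (.negSucc (nat_lit 117391567)), (.negSucc (nat_lit 117391535)), (.negSucc (nat_lit 2630013946733248503457)), (.ofNat (nat_lit 2630013946733248503458)), (.negSucc (nat_lit 2630013946733248503457)), (.ofNat (nat_lit 2630013946733248503458)), (.ofNat (nat_lit 242770518159992169546))⟩,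
    ⟨nat_lit 0, nat_lit 20, nat_lit 21, (.ofNat (nat_lit 8)), (.negSucc (nat_lit 28721343)), (.ofNat (nat_lit 1095825061624173435472846816896)), (.ofNat (nat_lit 0)), (.ofNat (nat_lit 16858847101910360545460467392)), (.negSucc (nat_lit 28721359)), (.negSucc (nat_lit 28721327)), (.ofNat (nat_lit 2630013946733248503458)), (.negSucc (nat_lit 2630013946733248503457)), (.negSucc (nat_lit 2630013946733248503457)), (.ofNat (nat_lit 2630013946733248503458)), (.ofNat (nat_lit 242770518159992169546))⟩,
    ⟨nat_lit 1, nat_lit 22, nat_lit 21, (.ofNat (nat_lit 8)), (.ofNat (nat_lit 161201984)), (.ofNat (nat_lit 596324060174180151445083948672)), (.ofNat (nat_lit 0)), (.ofNat (nat_lit 9174216310372002329774372544)), (.ofNat (nat_lit 161201968)), (.ofNat (nat_lit 161202000)), (.ofNat (nat_lit 2630013946733248503458)), (.negSucc (nat_lit 2630013946733248503457)), (.negSucc (nat_lit 2630013946733248503457)), (.ofNat (nat_lit 2630013946733248503458)), (.ofNat (nat_lit 242770518159992169546))⟩,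
    ⟨nat_lit 2, nat_lit 23, nat_lit 7, (.ofNat (nat_lit 8)), (.negSucc (nat_lit 124649535)), (.ofNat (nat_lit 548451241828823982493883717504)), (.ofNat (nat_lit 0)), (.ofNat (nat_lit 8437711412751146603408249408)), (.negSucc (nat_lit 124649551)), (.negSucc (nat_lit 124649519)), (.negSucc (nat_lit 2630013946733248503457)), (.ofNat (nat_lit 2630013946733248503458)), (.negSucc (nat_lit 2630013946733248503457)), (.ofNat (nat_lit 2630013946733248503458)), (.ofNat (nat_lit 242770518159991866942))⟩]
  es := [
    ⟨nat_lit 1, nat_lit 0, (.negSucc (nat_lit 243400703)), (.negSucc (nat_lit 34340863)), (.negSucc (nat_lit 243400687)), (.negSucc (nat_lit 34340879)), (.negSucc (nat_lit 2630013946733248503457)), (.negSucc (nat_lit 40461753026665361590)), (.negSucc (nat_lit 127281669425065974586933247))⟩,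
    ⟨nat_lit 1, nat_lit 2, (.negSucc (nat_lit 243400703)), (.negSucc (nat_lit 115097791)), (.negSucc (nat_lit 243400687)), (.negSucc (nat_lit 115097807)), (.ofNat (nat_lit 2630013946733248503458)), (.ofNat (nat_lit 40461753026665361591)), (.ofNat (nat_lit 19569556674103893592740986880))⟩,
    ⟨nat_lit 2, nat_lit 3, (.negSucc (nat_lit 115097791)), (.ofNat (nat_lit 17416000)), (.negSucc (nat_lit 115097775)), (.ofNat (nat_lit 17415984)), (.negSucc (nat_lit 2630013946733248503457)), (.negSucc (nat_lit 40461753026665361590)), (.ofNat (nat_lit 10255439806466893108729572736))⟩,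
    ⟨nat_lit 3, nat_lit 4, (.ofNat (nat_lit 17416000)), (.ofNat (nat_lit 170377024)), (.ofNat (nat_lit 17416016)), (.ofNat (nat_lit 170377008)), (.ofNat (nat_lit 2630013946733248503458)), (.ofNat (nat_lit 40461753026665361591)), (.ofNat (nat_lit 8846076025042085233791860736))⟩,
    ⟨nat_lit 5, nat_lit 4, (.ofNat (nat_lit 18726720)), (.ofNat (nat_lit 170377024)), (.ofNat (nat_lit 18726736)), (.ofNat (nat_lit 170377008)), (.negSucc (nat_lit 2630013946733248503457)), (.negSucc (nat_lit 40461753026665361590)), (.ofNat (nat_lit 22633582158054559137308831104))⟩,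
    ⟨nat_lit 6, nat_lit 5, (.negSucc (nat_lit 196264127)), (.ofNat (nat_lit 18726720)), (.negSucc (nat_lit 196264111)), (.ofNat (nat_lit 18726704)), (.ofNat (nat_lit 2630013946733248503458)), (.ofNat (nat_lit 40461753026665361591)), (.ofNat (nat_lit 21118150318775529616882008064))⟩,
    ⟨nat_lit 6, nat_lit 15, (.negSucc (nat_lit 196264127)), (.negSucc (nat_lit 118669503)), (.negSucc (nat_lit 196264111)), (.negSucc (nat_lit 118669519)), (.negSucc (nat_lit 2630013946733248503457)), (.negSucc (nat_lit 40461753026665361590)), (.ofNat (nat_lit 5235768968515853735957392768))⟩,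
    ⟨nat_lit 23, nat_lit 7, (.negSucc (nat_lit 124649535)), (.ofNat (nat_lit 5947200)), (.negSucc (nat_lit 124649519)), (.ofNat (nat_lit 5947184)), (.ofNat (nat_lit 2630013946733248503458)), (.ofNat (nat_lit 40461753026665063607)), (.ofNat (nat_lit 13481250153271542409431285760))⟩,
    ⟨nat_lit 7, nat_lit 8, (.ofNat (nat_lit 5947200)), (.ofNat (nat_lit 158908224)), (.ofNat (nat_lit 5947216)), (.ofNat (nat_lit 158908208)), (.negSucc (nat_lit 2630013946733248503457)), (.negSucc (nat_lit 40461753026665162164)), (.ofNat (nat_lit 13962518428471907928142524160))⟩,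
    ⟨nat_lit 8, nat_lit 9, (.ofNat (nat_lit 158908224)), (.ofNat (nat_lit 244629312)), (.ofNat (nat_lit 158908240)), (.ofNat (nat_lit 244629296)), (.ofNat (nat_lit 2630013946733248503458)), (.ofNat (nat_lit 40461753026665361591)), (.ofNat (nat_lit 1103107801683905113086754816))⟩,
    ⟨nat_lit 10, nat_lit 9, (.ofNat (nat_lit 187219776)), (.ofNat (nat_lit 244629312)), (.ofNat (nat_lit 187219792)), (.ofNat (nat_lit 244629296)), (.negSucc (nat_lit 2630013946733248503457)), (.negSucc (nat_lit 40461753026665361590)), (.ofNat (nat_lit 20899369412138035233561865600))⟩,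
    ⟨nat_lit 11, nat_lit 10, (.ofNat (nat_lit 144359232)), (.ofNat (nat_lit 187219776)), (.ofNat (nat_lit 144359248)), (.ofNat (nat_lit 187219760)), (.ofNat (nat_lit 2630013946733248503458)), (.ofNat (nat_lit 40461753026665361591)), (.ofNat (nat_lit 5748888735698813185509818368))⟩,
    ⟨nat_lit 11, nat_lit 12, (.ofNat (nat_lit 144359232)), (.ofNat (nat_lit 220905280)), (.ofNat (nat_lit 144359248)), (.ofNat (nat_lit 220905264)), (.negSucc (nat_lit 2630013946733248503457)), (.negSucc (nat_lit 40461753026665361590)), (.ofNat (nat_lit 17430943920304987426067934592))⟩,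
    ⟨nat_lit 13, nat_lit 12, (.ofNat (nat_lit 153665344)), (.ofNat (nat_lit 220905280)), (.ofNat (nat_lit 153665360)), (.ofNat (nat_lit 220905264)), (.ofNat (nat_lit 2630013946733248503458)), (.ofNat (nat_lit 40461753026665361591)), (.negSucc (nat_lit 445485842987730911054266367))⟩,
    ⟨nat_lit 14, nat_lit 13, (.negSucc (nat_lit 35209407)), (.ofNat (nat_lit 153665344)), (.negSucc (nat_lit 35209391)), (.ofNat (nat_lit 153665328)), (.negSucc (nat_lit 2630013946733248503457)), (.negSucc (nat_lit 40461753026665361590)), (.ofNat (nat_lit 11989652552383417012476538240))⟩,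
    ⟨nat_lit 15, nat_lit 14, (.negSucc (nat_lit 118669503)), (.negSucc (nat_lit 35209407)), (.negSucc (nat_lit 118669487)), (.negSucc (nat_lit 35209423)), (.ofNat (nat_lit 2630013946733248503458)), (.ofNat (nat_lit 40461753026665361591)), (.ofNat (nat_lit 14838921293805608203926634496))⟩,
    ⟨nat_lit 16, nat_lit 17, (.negSucc (nat_lit 9961535)), (.ofNat (nat_lit 184926016)), (.negSucc (nat_lit 9961519)), (.ofNat (nat_lit 184926000)), (.ofNat (nat_lit 2630013946733248503458)), (.ofNat (nat_lit 40461753026665361591)), (.ofNat (nat_lit 4200295091027177161368797184))⟩,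
    ⟨nat_lit 18, nat_lit 17, (.ofNat (nat_lit 146652992)), (.ofNat (nat_lit 184926016)), (.ofNat (nat_lit 146653008)), (.ofNat (nat_lit 184926000)), (.negSucc (nat_lit 2630013946733248503457)), (.negSucc (nat_lit 40461753026665361590)), (.ofNat (nat_lit 19165156666221511329814900096))⟩,
    ⟨nat_lit 19, nat_lit 18, (.ofNat (nat_lit 15122240)), (.ofNat (nat_lit 146652992)), (.ofNat (nat_lit 15122256)), (.ofNat (nat_lit 146652976)), (.ofNat (nat_lit 2630013946733248503458)), (.ofNat (nat_lit 40461753026665361591)), (.ofNat (nat_lit 7297482380370449209650839552))⟩,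
    ⟨nat_lit 20, nat_lit 19, (.negSucc (nat_lit 117391551)), (.ofNat (nat_lit 15122240)), (.negSucc (nat_lit 117391535)), (.ofNat (nat_lit 15122224)), (.negSucc (nat_lit 2630013946733248503457)), (.negSucc (nat_lit 40461753026665361590)), (.ofNat (nat_lit 8521227060550369204982607232))⟩,
    ⟨nat_lit 20, nat_lit 21, (.negSucc (nat_lit 117391551)), (.negSucc (nat_lit 28721343)), (.negSucc (nat_lit 117391535)), (.negSucc (nat_lit 28721359)), (.ofNat (nat_lit 2630013946733248503458)), (.ofNat (nat_lit 40461753026665361591)), (.ofNat (nat_lit 18020963029432257568599965696))⟩,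
    ⟨nat_lit 21, nat_lit 22, (.negSucc (nat_lit 28721343)), (.ofNat (nat_lit 161201984)), (.negSucc (nat_lit 28721327)), (.ofNat (nat_lit 161201968)), (.negSucc (nat_lit 2630013946733248503457)), (.negSucc (nat_lit 40461753026665361590)), (.ofNat (nat_lit 15696731174388463522320969088))⟩,
    ⟨nat_lit 0, nat_lit 22, (.negSucc (nat_lit 34340863)), (.ofNat (nat_lit 161201984)), (.negSucc (nat_lit 34340847)), (.ofNat (nat_lit 161201968)), (.ofNat (nat_lit 2630013946733248503458)), (.ofNat (nat_lit 40461753026665361591)), (.ofNat (nat_lit 2651701446355541137227776000))⟩,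
    ⟨nat_lit 23, nat_lit 16, (.negSucc (nat_lit 124649535)), (.negSucc (nat_lit 9961535)), (.negSucc (nat_lit 124649519)), (.negSucc (nat_lit 9961551)), (.negSucc (nat_lit 2630013946733248503457)), (.negSucc (nat_lit 40461753026665434931)), (.ofNat (nat_lit 3394172672230704511896257856))⟩]

theorem ok25 : stOK 23 23 S25 = true := by decide +kernel

def S26 : SD where
  vs := [
    ⟨nat_lit 0, nat_lit 0, nat_lit 22, (.ofNat (nat_lit 8)), (.negSucc (nat_lit 44040191)), (.ofNat (nat_lit 107553010664180748527717056512)), (.negSucc (nat_lit 9699327)), (.ofNat (nat_lit 25509367913940305740548276224)), (.negSucc (nat_lit 44040207)), (.negSucc (nat_lit 44040175)), (.negSucc (nat_lit 2630013946733248503457)), (.ofNat (nat_lit 2630013946733248503458)), (.negSucc (nat_lit 2630013946733248503457)), (.ofNat (nat_lit 2630013946733248503458)), (.ofNat (nat_lit 0))⟩,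
    ⟨nat_lit 2, nat_lit 0, nat_lit 1, (.ofNat (nat_lit 8)), (.negSucc (nat_lit 255197183)), (.ofNat (nat_lit 662898844574421728906409934848)), (.negSucc (nat_lit 11796479)), (.ofNat (nat_lit 31024906922359831306072227840)), (.negSucc (nat_lit 255197199)), (.negSucc (nat_lit 255197167)), (.negSucc (nat_lit 2630013946733248503457)), (.ofNat (nat_lit 2630013946733248503458)), (.negSucc (nat_lit 2630013946733248503457)), (.ofNat (nat_lit 2630013946733248503458)), (.ofNat (nat_lit 0))⟩,
    ⟨nat_lit 0, nat_lit 1, nat_lit 2, (.ofNat (nat_lit 8)), (.negSucc (nat_lit 125845695)), (.ofNat (nat_lit 1003095062045120161902475380352)), (.negSucc (nat_lit 10747903)), (.ofNat (nat_lit 33782676426569594088834203648)), (.negSucc (nat_lit 125845711)), (.negSucc (nat_lit 125845679)), (.ofNat (nat_lit 2630013946733248503458)), (.negSucc (nat_lit 2630013946733248503457)), (.negSucc (nat_lit 2630013946733248503457)), (.ofNat (nat_lit 2630013946733248503458)), (.ofNat (nat_lit 0))⟩,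
    ⟨nat_lit 0, nat_lit 2, nat_lit 3, (.ofNat (nat_lit 8)), (.ofNat (nat_lit 7716672)), (.ofNat (nat_lit 651824171446401627448168711808)), (.negSucc (nat_lit 9699327)), (.ofNat (nat_lit 31024906922359831306072227840)), (.ofNat (nat_lit 7716656)), (.ofNat (nat_lit 7716688)), (.negSucc (nat_lit 2630013946733248503457)), (.ofNat (nat_lit 2630013946733248503458)), (.negSucc (nat_lit 2630013946733248503457)), (.ofNat (nat_lit 2630013946733248503458)), (.ofNat (nat_lit 0))⟩,
    ⟨nat_lit 1, nat_lit 3, nat_lit 4, (.ofNat (nat_lit 8)), (.ofNat (nat_lit 162512704)), (.ofNat (nat_lit 1058939894505367858253405390464)), (.negSucc (nat_lit 7864319)), (.ofNat (nat_lit 35851003554726916175905685504)), (.ofNat (nat_lit 162512688)), (.ofNat (nat_lit 162512720)), (.ofNat (nat_lit 2630013946733248503458)), (.negSucc (nat_lit 2630013946733248503457)), (.negSucc (nat_lit 2630013946733248503457)), (.ofNat (nat_lit 2630013946733248503458)), (.ofNat (nat_lit 0))⟩,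
    ⟨nat_lit 0, nat_lit 5, nat_lit 4, (.ofNat (nat_lit 8)), (.ofNat (nat_lit 9551680)), (.ofNat (nat_lit 1461229520931967004188808611456)), (.negSucc (nat_lit 9175039)), (.ofNat (nat_lit 39298215434989119654358155264)), (.ofNat (nat_lit 9551664)), (.ofNat (nat_lit 9551696)), (.ofNat (nat_lit 2630013946733248503458)), (.negSucc (nat_lit 2630013946733248503457)), (.negSucc (nat_lit 2630013946733248503457)), (.ofNat (nat_lit 2630013946733248503458)), (.ofNat (nat_lit 0))⟩,
    ⟨nat_lit 2, nat_lit 6, nat_lit 5, (.ofNat (nat_lit 8)), (.negSucc (nat_lit 207798463)), (.ofNat (nat_lit 889595610887487112374427813504)), (.negSucc (nat_lit 11534335)), (.ofNat (nat_lit 33093234050517153393143709696)), (.negSucc (nat_lit 207798479)), (.negSucc (nat_lit 207798447)), (.negSucc (nat_lit 2630013946733248503457)), (.ofNat (nat_lit 2630013946733248503458)), (.negSucc (nat_lit 2630013946733248503457)), (.ofNat (nat_lit 2630013946733248503458)), (.ofNat (nat_lit 0))⟩,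
    ⟨nat_lit 0, nat_lit 7, nat_lit 8, (.ofNat (nat_lit 8)), (.negSucc (nat_lit 3489983)), (.ofNat (nat_lit 925015712957181253115526940288)), (.negSucc (nat_lit 9437183)), (.ofNat (nat_lit 33093234050517153393143709696)), (.negSucc (nat_lit 3489999)), (.negSucc (nat_lit 3489967)), (.ofNat (nat_lit 2630013946733248503458)), (.negSucc (nat_lit 2630013946733248503457)), (.negSucc (nat_lit 2630013946733248503457)), (.ofNat (nat_lit 2630013946733248503458)), (.ofNat (nat_lit 0))⟩,
    ⟨nat_lit 0, nat_lit 8, nat_lit 9, (.ofNat (nat_lit 8)), (.ofNat (nat_lit 151043904)), (.ofNat (nat_lit 518589432274267463005980755584)), (.negSucc (nat_lit 7864319)), (.ofNat (nat_lit 28956579794202509219000745984)), (.ofNat (nat_lit 151043888)), (.ofNat (nat_lit 151043920)), (.negSucc (nat_lit 2630013946733248503457)), (.ofNat (nat_lit 2630013946733248503458)), (.negSucc (nat_lit 2630013946733248503457)), (.ofNat (nat_lit 2630013946733248503458)), (.ofNat (nat_lit 0))⟩,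
    ⟨nat_lit 1, nat_lit 9, nat_lit 10, (.ofNat (nat_lit 8)), (.ofNat (nat_lit 237813568)), (.ofNat (nat_lit 746794858747625333279534253696)), (.negSucc (nat_lit 6815743)), (.ofNat (nat_lit 31714349298412272001762721792)), (.ofNat (nat_lit 237813552)), (.ofNat (nat_lit 237813584)), (.ofNat (nat_lit 2630013946733248503458)), (.negSucc (nat_lit 2630013946733248503457)), (.negSucc (nat_lit 2630013946733248503457)), (.ofNat (nat_lit 2630013946733248503458)), (.ofNat (nat_lit 0))⟩,
    ⟨nat_lit 0, nat_lit 11, nat_lit 10, (.ofNat (nat_lit 8)), (.ofNat (nat_lit 179617600)), (.ofNat (nat_lit 899851066231267167722823911040)), (.negSucc (nat_lit 7602175)), (.ofNat (nat_lit 33782676426569594088834203648)), (.ofNat (nat_lit 179617584)), (.ofNat (nat_lit 179617616)), (.ofNat (nat_lit 2630013946733248503458)), (.negSucc (nat_lit 2630013946733248503457)), (.negSucc (nat_lit 2630013946733248503457)), (.ofNat (nat_lit 2630013946733248503458)), (.ofNat (nat_lit 0))⟩,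
    ⟨nat_lit 2, nat_lit 12, nat_lit 11, (.ofNat (nat_lit 8)), (.ofNat (nat_lit 136232768)), (.ofNat (nat_lit 785748352994588232586047161984)), (.negSucc (nat_lit 8126463)), (.ofNat (nat_lit 32403791674464712697453215744)), (.ofNat (nat_lit 136232752)), (.ofNat (nat_lit 136232784)), (.negSucc (nat_lit 2630013946733248503457)), (.ofNat (nat_lit 2630013946733248503458)), (.negSucc (nat_lit 2630013946733248503457)), (.ofNat (nat_lit 2630013946733248503458)), (.ofNat (nat_lit 0))⟩,
    ⟨nat_lit 1, nat_lit 13, nat_lit 12, (.ofNat (nat_lit 8)), (.ofNat (nat_lit 223002432)), (.ofNat (nat_lit 557542926521230362312493663872)), (.ofNat (nat_lit 2097152)), (.ofNat (nat_lit 5515539008419525565523951616)), (.ofNat (nat_lit 223002416)), (.ofNat (nat_lit 223002448)), (.ofNat (nat_lit 2630013946733248503458)), (.negSucc (nat_lit 2630013946733248503457)), (.negSucc (nat_lit 2630013946733248503457)), (.ofNat (nat_lit 2630013946733248503458)), (.ofNat (nat_lit 0))⟩,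
    ⟨nat_lit 0, nat_lit 14, nat_lit 13, (.ofNat (nat_lit 8)), (.ofNat (nat_lit 154976064)), (.ofNat (nat_lit 378632629935622001780810483328)), (.ofNat (nat_lit 1310720)), (.ofNat (nat_lit 3447211880262203478452469760)), (.ofNat (nat_lit 154976048)), (.ofNat (nat_lit 154976080)), (.negSucc (nat_lit 2630013946733248503457)), (.ofNat (nat_lit 2630013946733248503458)), (.negSucc (nat_lit 2630013946733248503457)), (.ofNat (nat_lit 2630013946733248503458)), (.ofNat (nat_lit 0))⟩,
    ⟨nat_lit 0, nat_lit 15, nat_lit 14, (.ofNat (nat_lit 8)), (.negSucc (nat_lit 45170879)), (.ofNat (nat_lit 905021884051660472940502615680)), (.negSucc (nat_lit 9961471)), (.ofNat (nat_lit 33093234050517153393143709696)), (.negSucc (nat_lit 45170895)), (.negSucc (nat_lit 45170863)), (.ofNat (nat_lit 2630013946733248503458)), (.negSucc (nat_lit 2630013946733248503457)), (.negSucc (nat_lit 2630013946733248503457)), (.ofNat (nat_lit 2630013946733248503458)), (.ofNat (nat_lit 0))⟩,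
    ⟨nat_lit 0, nat_lit 6, nat_lit 15, (.ofNat (nat_lit 8)), (.negSucc (nat_lit 129417407)), (.ofNat (nat_lit 683452340447807344362970121856)), (.negSucc (nat_lit 10747903)), (.ofNat (nat_lit 31024906922359831306072227840)), (.negSucc (nat_lit 129417423)), (.negSucc (nat_lit 129417391)), (.negSucc (nat_lit 2630013946733248503457)), (.ofNat (nat_lit 2630013946733248503458)), (.negSucc (nat_lit 2630013946733248503457)), (.ofNat (nat_lit 2630013946733248503458)), (.ofNat (nat_lit 0))⟩,
    ⟨nat_lit 0, nat_lit 23, nat_lit 16, (.ofNat (nat_lit 8)), (.negSucc (nat_lit 19660863)), (.ofNat (nat_lit 273708454971926365261221877632)), (.negSucc (nat_lit 9699327)), (.ofNat (nat_lit 26888252666045187131929264128)), (.negSucc (nat_lit 19660879)), (.negSucc (nat_lit 19660847)), (.negSucc (nat_lit 2630013946733248503457)), (.ofNat (nat_lit 2630013946733248503458)), (.negSucc (nat_lit 2630013946733248503457)), (.ofNat (nat_lit 2630013946733248503458)), (.ofNat (nat_lit 0))⟩,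
    ⟨nat_lit 1, nat_lit 16, nat_lit 17, (.ofNat (nat_lit 8)), (.ofNat (nat_lit 177323840)), (.ofNat (nat_lit 791780973785047088673338984064)), (.negSucc (nat_lit 7602175)), (.ofNat (nat_lit 32403791674464712697453215744)), (.ofNat (nat_lit 177323824)), (.ofNat (nat_lit 177323856)), (.ofNat (nat_lit 2630013946733248503458)), (.negSucc (nat_lit 2630013946733248503457)), (.negSucc (nat_lit 2630013946733248503457)), (.ofNat (nat_lit 2630013946733248503458)), (.ofNat (nat_lit 0))⟩,
    ⟨nat_lit 0, nat_lit 18, nat_lit 17, (.ofNat (nat_lit 8)), (.ofNat (nat_lit 138526528)), (.ofNat (nat_lit 893818445440808311635532088960)), (.negSucc (nat_lit 8126463)), (.ofNat (nat_lit 33782676426569594088834203648)), (.ofNat (nat_lit 138526512)), (.ofNat (nat_lit 138526544)), (.ofNat (nat_lit 2630013946733248503458)), (.negSucc (nat_lit 2630013946733248503457)), (.negSucc (nat_lit 2630013946733248503457)), (.ofNat (nat_lit 2630013946733248503458)), (.ofNat (nat_lit 0))⟩,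
    ⟨nat_lit 0, nat_lit 19, nat_lit 18, (.ofNat (nat_lit 8)), (.ofNat (nat_lit 5422912)), (.ofNat (nat_lit 543754079000181548398683784832)), (.negSucc (nat_lit 9699327)), (.ofNat (nat_lit 29646022170254949914691239936)), (.ofNat (nat_lit 5422896)), (.ofNat (nat_lit 5422928)), (.negSucc (nat_lit 2630013946733248503457)), (.ofNat (nat_lit 2630013946733248503458)), (.negSucc (nat_lit 2630013946733248503457)), (.ofNat (nat_lit 2630013946733248503458)), (.ofNat (nat_lit 0))⟩,
    ⟨nat_lit 2, nat_lit 19, nat_lit 20, (.ofNat (nat_lit 8)), (.negSucc (nat_lit 128139455)), (.ofNat (nat_lit 895024969598900082852990453376)), (.negSucc (nat_lit 10747903)), (.ofNat (nat_lit 32403791674464712697453215744)), (.negSucc (nat_lit 128139471)), (.negSucc (nat_lit 128139439)), (.negSucc (nat_lit 2630013946733248503457)), (.ofNat (nat_lit 2630013946733248503458)), (.negSucc (nat_lit 2630013946733248503457)), (.ofNat (nat_lit 2630013946733248503458)), (.ofNat (nat_lit 0))⟩,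
    ⟨nat_lit 0, nat_lit 20, nat_lit 21, (.ofNat (nat_lit 8)), (.negSucc (nat_lit 38420671)), (.ofNat (nat_lit 1130986622802847910953062008448)), (.negSucc (nat_lit 9699327)), (.ofNat (nat_lit 35161561178674475480215191552)), (.negSucc (nat_lit 38420687)), (.negSucc (nat_lit 38420655)), (.ofNat (nat_lit 2630013946733248503458)), (.negSucc (nat_lit 2630013946733248503457)), (.negSucc (nat_lit 2630013946733248503457)), (.ofNat (nat_lit 2630013946733248503458)), (.ofNat (nat_lit 0))⟩,
    ⟨nat_lit 1, nat_lit 22, nat_lit 21, (.ofNat (nat_lit 8)), (.ofNat (nat_lit 153337664)), (.ofNat (nat_lit 626659524720487542055465682560)), (.negSucc (nat_lit 7864319)), (.ofNat (nat_lit 30335464546307390610381733888)), (.ofNat (nat_lit 153337648)), (.ofNat (nat_lit 153337680)), (.ofNat (nat_lit 2630013946733248503458)), (.negSucc (nat_lit 2630013946733248503457)), (.negSucc (nat_lit 2630013946733248503457)), (.ofNat (nat_lit 2630013946733248503458)), (.ofNat (nat_lit 0))⟩,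
    ⟨nat_lit 2, nat_lit 23, nat_lit 7, (.ofNat (nat_lit 8)), (.negSucc (nat_lit 135397439)), (.ofNat (nat_lit 578097263999078932408574957440)), (.negSucc (nat_lit 10747903)), (.ofNat (nat_lit 29646022170254949914691239936)), (.negSucc (nat_lit 135397455)), (.negSucc (nat_lit 135397423)), (.negSucc (nat_lit 2630013946733248503457)), (.ofNat (nat_lit 2630013946733248503458)), (.negSucc (nat_lit 2630013946733248503457)), (.ofNat (nat_lit 2630013946733248503458)), (.ofNat (nat_lit 0))⟩]
  es := [
    ⟨nat_lit 1, nat_lit 0, (.negSucc (nat_lit 255197183)), (.negSucc (nat_lit 44040191)), (.negSucc (nat_lit 255197167)), (.negSucc (nat_lit 44040207)), (.negSucc (nat_lit 2630013946733248503457)), (.ofNat (nat_lit 0)), (.ofNat (nat_lit 0))⟩,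
    ⟨nat_lit 1, nat_lit 2, (.negSucc (nat_lit 255197183)), (.negSucc (nat_lit 125845695)), (.negSucc (nat_lit 255197167)), (.negSucc (nat_lit 125845711)), (.ofNat (nat_lit 2630013946733248503458)), (.ofNat (nat_lit 0)), (.ofNat (nat_lit 62049813844719662612144455680))⟩,
    ⟨nat_lit 2, nat_lit 3, (.negSucc (nat_lit 125845695)), (.ofNat (nat_lit 7716672)), (.negSucc (nat_lit 125845679)), (.ofNat (nat_lit 7716656)), (.negSucc (nat_lit 2630013946733248503457)), (.ofNat (nat_lit 0)), (.ofNat (nat_lit 5515539008419525565523951616))⟩,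
    ⟨nat_lit 3, nat_lit 4, (.ofNat (nat_lit 7716672)), (.ofNat (nat_lit 162512704)), (.ofNat (nat_lit 7716688)), (.ofNat (nat_lit 162512688)), (.ofNat (nat_lit 2630013946733248503458)), (.ofNat (nat_lit 0)), (.ofNat (nat_lit 56534274836300137046620504064))⟩,
    ⟨nat_lit 5, nat_lit 4, (.ofNat (nat_lit 9551680)), (.ofNat (nat_lit 162512704)), (.ofNat (nat_lit 9551696)), (.ofNat (nat_lit 162512688)), (.negSucc (nat_lit 2630013946733248503457)), (.ofNat (nat_lit 0)), (.ofNat (nat_lit 15167732273153695305190866944))⟩,
    ⟨nat_lit 6, nat_lit 5, (.negSucc (nat_lit 207798463)), (.ofNat (nat_lit 9551680)), (.negSucc (nat_lit 207798447)), (.ofNat (nat_lit 9551664)), (.ofNat (nat_lit 2630013946733248503458)), (.ofNat (nat_lit 0)), (.ofNat (nat_lit 63428698596824544003525443584))⟩,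
    ⟨nat_lit 6, nat_lit 15, (.negSucc (nat_lit 207798463)), (.negSucc (nat_lit 129417407)), (.negSucc (nat_lit 207798447)), (.negSucc (nat_lit 129417423)), (.negSucc (nat_lit 2630013946733248503457)), (.ofNat (nat_lit 0)), (.ofNat (nat_lit 2757769504209762782761975808))⟩,
    ⟨nat_lit 23, nat_lit 7, (.negSucc (nat_lit 135397439)), (.negSucc (nat_lit 3489983)), (.negSucc (nat_lit 135397423)), (.negSucc (nat_lit 3489999)), (.ofNat (nat_lit 2630013946733248503458)), (.ofNat (nat_lit 0)), (.ofNat (nat_lit 57913159588405018438001491968))⟩,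
    ⟨nat_lit 7, nat_lit 8, (.negSucc (nat_lit 3489983)), (.ofNat (nat_lit 151043904)), (.negSucc (nat_lit 3489967)), (.ofNat (nat_lit 151043888)), (.negSucc (nat_lit 2630013946733248503457)), (.ofNat (nat_lit 0)), (.ofNat (nat_lit 8273308512629288348285927424))⟩,
    ⟨nat_lit 8, nat_lit 9, (.ofNat (nat_lit 151043904)), (.ofNat (nat_lit 237813568)), (.ofNat (nat_lit 151043920)), (.ofNat (nat_lit 237813552)), (.ofNat (nat_lit 2630013946733248503458)), (.ofNat (nat_lit 0)), (.ofNat (nat_lit 49639851075775730089715564544))⟩,
    ⟨nat_lit 10, nat_lit 9, (.ofNat (nat_lit 179617600)), (.ofNat (nat_lit 237813568)), (.ofNat (nat_lit 179617616)), (.ofNat (nat_lit 237813552)), (.negSucc (nat_lit 2630013946733248503457)), (.ofNat (nat_lit 0)), (.ofNat (nat_lit 13788847521048813913809879040))⟩,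
    ⟨nat_lit 11, nat_lit 10, (.ofNat (nat_lit 136232768)), (.ofNat (nat_lit 179617600)), (.ofNat (nat_lit 136232784)), (.ofNat (nat_lit 179617584)), (.ofNat (nat_lit 2630013946733248503458)), (.ofNat (nat_lit 0)), (.ofNat (nat_lit 53776505332090374263858528256))⟩,
    ⟨nat_lit 11, nat_lit 12, (.ofNat (nat_lit 136232768)), (.ofNat (nat_lit 223002432)), (.ofNat (nat_lit 136232784)), (.ofNat (nat_lit 223002416)), (.negSucc (nat_lit 2630013946733248503457)), (.ofNat (nat_lit 0)), (.ofNat (nat_lit 11031078016839051131047903232))⟩,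
    ⟨nat_lit 13, nat_lit 12, (.ofNat (nat_lit 154976064)), (.ofNat (nat_lit 223002432)), (.ofNat (nat_lit 154976080)), (.ofNat (nat_lit 223002416)), (.ofNat (nat_lit 2630013946733248503458)), (.ofNat (nat_lit 0)), (.ofNat (nat_lit 0))⟩,
    ⟨nat_lit 14, nat_lit 13, (.negSucc (nat_lit 45170879)), (.ofNat (nat_lit 154976064)), (.negSucc (nat_lit 45170863)), (.ofNat (nat_lit 154976048)), (.negSucc (nat_lit 2630013946733248503457)), (.ofNat (nat_lit 0)), (.ofNat (nat_lit 6894423760524406956904939520))⟩,
    ⟨nat_lit 15, nat_lit 14, (.negSucc (nat_lit 129417407)), (.negSucc (nat_lit 45170879)), (.negSucc (nat_lit 129417391)), (.negSucc (nat_lit 45170895)), (.ofNat (nat_lit 2630013946733248503458)), (.ofNat (nat_lit 0)), (.ofNat (nat_lit 59292044340509899829382479872))⟩,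
    ⟨nat_lit 16, nat_lit 17, (.negSucc (nat_lit 19660863)), (.ofNat (nat_lit 177323840)), (.negSucc (nat_lit 19660847)), (.ofNat (nat_lit 177323824)), (.ofNat (nat_lit 2630013946733248503458)), (.ofNat (nat_lit 0)), (.ofNat (nat_lit 52397620579985492872477540352))⟩,
    ⟨nat_lit 18, nat_lit 17, (.ofNat (nat_lit 138526528)), (.ofNat (nat_lit 177323840)), (.ofNat (nat_lit 138526544)), (.ofNat (nat_lit 177323824)), (.negSucc (nat_lit 2630013946733248503457)), (.ofNat (nat_lit 0)), (.ofNat (nat_lit 12409962768943932522428891136))⟩,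
    ⟨nat_lit 19, nat_lit 18, (.ofNat (nat_lit 5422912)), (.ofNat (nat_lit 138526528)), (.ofNat (nat_lit 5422928)), (.ofNat (nat_lit 138526512)), (.ofNat (nat_lit 2630013946733248503458)), (.ofNat (nat_lit 0)), (.ofNat (nat_lit 55155390084195255655239516160))⟩,
    ⟨nat_lit 20, nat_lit 19, (.negSucc (nat_lit 128139455)), (.ofNat (nat_lit 5422912)), (.negSucc (nat_lit 128139439)), (.ofNat (nat_lit 5422896)), (.negSucc (nat_lit 2630013946733248503457)), (.ofNat (nat_lit 0)), (.ofNat (nat_lit 4136654256314644174142963712))⟩,
    ⟨nat_lit 20, nat_lit 21, (.negSucc (nat_lit 128139455)), (.negSucc (nat_lit 38420671)), (.negSucc (nat_lit 128139439)), (.negSucc (nat_lit 38420687)), (.ofNat (nat_lit 2630013946733248503458)), (.ofNat (nat_lit 0)), (.ofNat (nat_lit 60670929092614781220763467776))⟩,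
    ⟨nat_lit 21, nat_lit 22, (.negSucc (nat_lit 38420671)), (.ofNat (nat_lit 153337664)), (.negSucc (nat_lit 38420655)), (.ofNat (nat_lit 153337648)), (.negSucc (nat_lit 2630013946733248503457)), (.ofNat (nat_lit 0)), (.ofNat (nat_lit 9652193264734169739666915328))⟩,
    ⟨nat_lit 0, nat_lit 22, (.negSucc (nat_lit 44040191)), (.ofNat (nat_lit 153337664)), (.negSucc (nat_lit 44040175)), (.ofNat (nat_lit 153337648)), (.ofNat (nat_lit 2630013946733248503458)), (.ofNat (nat_lit 0)), (.ofNat (nat_lit 51018735827880611481096552448))⟩,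
    ⟨nat_lit 23, nat_lit 16, (.negSucc (nat_lit 135397439)), (.negSucc (nat_lit 19660863)), (.negSucc (nat_lit 135397423)), (.negSucc (nat_lit 19660879)), (.negSucc (nat_lit 2630013946733248503457)), (.ofNat (nat_lit 0)), (.ofNat (nat_lit 1378884752104881391380987904))⟩]

theorem ok26 : stOK 23 23 S26 = true := by decide +kernel

def S27 : SD where
  vs := [
    ⟨nat_lit 0, nat_lit 0, nat_lit 22, (.ofNat (nat_lit 8)), (.negSucc (nat_lit 44040191)), (.ofNat (nat_lit 109233526455808572723440910336)), (.ofNat (nat_lit 0)), (.ofNat (nat_lit 1680515791627824195723853824)), (.negSucc (nat_lit 44040207)), (.negSucc (nat_lit 44040175)), (.negSucc (nat_lit 2671107914650955511323)), (.ofNat (nat_lit 2671107914650955511324)), (.negSucc (nat_lit 2671107914650955511323)), (.ofNat (nat_lit 2671107914650955511324)), (.ofNat (nat_lit 246563807506242047196))⟩,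
    ⟨nat_lit 2, nat_lit 0, nat_lit 1, (.ofNat (nat_lit 8)), (.negSucc (nat_lit 255197183)), (.ofNat (nat_lit 673256639020897068420438687744)), (.ofNat (nat_lit 0)), (.ofNat (nat_lit 10357794446475339514028752896)), (.negSucc (nat_lit 255197199)), (.negSucc (nat_lit 255197167)), (.negSucc (nat_lit 2671107914650955511323)), (.ofNat (nat_lit 2671107914650955511324)), (.negSucc (nat_lit 2671107914650955511323)), (.ofNat (nat_lit 2671107914650955511324)), (.ofNat (nat_lit 246563807506242047196))⟩,
    ⟨nat_lit 0, nat_lit 1, nat_lit 2, (.ofNat (nat_lit 8)), (.negSucc (nat_lit 125845695)), (.ofNat (nat_lit 1018768422389575164431998937856)), (.ofNat (nat_lit 0)), (.ofNat (nat_lit 15673360344455002529523557504)), (.negSucc (nat_lit 125845711)), (.negSucc (nat_lit 125845679)), (.ofNat (nat_lit 2671107914650955511324)), (.negSucc (nat_lit 2671107914650955511323)), (.negSucc (nat_lit 2671107914650955511323)), (.ofNat (nat_lit 2671107914650955511324)), (.ofNat (nat_lit 246563807506242047196))⟩,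
    ⟨nat_lit 0, nat_lit 2, nat_lit 3, (.ofNat (nat_lit 8)), (.ofNat (nat_lit 7716672)), (.ofNat (nat_lit 662008924125251652876914682624)), (.ofNat (nat_lit 0)), (.ofNat (nat_lit 10184752678850025428745970816)), (.ofNat (nat_lit 7716656)), (.ofNat (nat_lit 7716688)), (.negSucc (nat_lit 2671107914650955511323)), (.ofNat (nat_lit 2671107914650955511324)), (.negSucc (nat_lit 2671107914650955511323)), (.ofNat (nat_lit 2671107914650955511324)), (.ofNat (nat_lit 246563807506242047196))⟩,
    ⟨nat_lit 1, nat_lit 3, nat_lit 4, (.ofNat (nat_lit 8)), (.ofNat (nat_lit 162512704)), (.ofNat (nat_lit 1075485830357014231038400948992)), (.ofNat (nat_lit 0)), (.ofNat (nat_lit 16545935851646372784995558528)), (.ofNat (nat_lit 162512688)), (.ofNat (nat_lit 162512720)), (.ofNat (nat_lit 2671107914650955511324)), (.negSucc (nat_lit 2671107914650955511323)), (.negSucc (nat_lit 2671107914650955511323)), (.ofNat (nat_lit 2671107914650955511324)), (.ofNat (nat_lit 246563807506242047196))⟩,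
    ⟨nat_lit 0, nat_lit 5, nat_lit 4, (.ofNat (nat_lit 8)), (.ofNat (nat_lit 9551680)), (.ofNat (nat_lit 1484061232196528988628963584768)), (.ofNat (nat_lit 0)), (.ofNat (nat_lit 22831711264561984440154973312)), (.ofNat (nat_lit 9551664)), (.ofNat (nat_lit 9551696)), (.ofNat (nat_lit 2671107914650955511324)), (.negSucc (nat_lit 2671107914650955511323)), (.negSucc (nat_lit 2671107914650955511323)), (.ofNat (nat_lit 2671107914650955511324)), (.ofNat (nat_lit 246563807506242047196))⟩,
    ⟨nat_lit 2, nat_lit 6, nat_lit 5, (.ofNat (nat_lit 8)), (.negSucc (nat_lit 207798463)), (.ofNat (nat_lit 903495542307604098505098554112)), (.ofNat (nat_lit 0)), (.ofNat (nat_lit 13899931420116986130670740608)), (.negSucc (nat_lit 207798479)), (.negSucc (nat_lit 207798447)), (.negSucc (nat_lit 2671107914650955511323)), (.ofNat (nat_lit 2671107914650955511324)), (.negSucc (nat_lit 2671107914650955511323)), (.ofNat (nat_lit 2671107914650955511324)), (.ofNat (nat_lit 246563807506242047196))⟩,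
    ⟨nat_lit 0, nat_lit 7, nat_lit 8, (.ofNat (nat_lit 8)), (.negSucc (nat_lit 3489983)), (.ofNat (nat_lit 939469083472137210195270200064)), (.ofNat (nat_lit 0)), (.ofNat (nat_lit 14453370514955957079743259776)), (.negSucc (nat_lit 3489999)), (.negSucc (nat_lit 3489967)), (.ofNat (nat_lit 2671107914650955511324)), (.negSucc (nat_lit 2671107914650955511323)), (.negSucc (nat_lit 2671107914650955511323)), (.ofNat (nat_lit 2671107914650955511324)), (.ofNat (nat_lit 246563807506242047196))⟩,
    ⟨nat_lit 0, nat_lit 8, nat_lit 9, (.ofNat (nat_lit 8)), (.ofNat (nat_lit 151043904)), (.ofNat (nat_lit 526692392153552892115344452352)), (.ofNat (nat_lit 0)), (.ofNat (nat_lit 8102959879285429109363696768)), (.ofNat (nat_lit 151043888)), (.ofNat (nat_lit 151043920)), (.negSucc (nat_lit 2671107914650955511323)), (.ofNat (nat_lit 2671107914650955511324)), (.negSucc (nat_lit 2671107914650955511323)), (.ofNat (nat_lit 2671107914650955511324)), (.ofNat (nat_lit 246563807506242047196))⟩,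
    ⟨nat_lit 1, nat_lit 9, nat_lit 10, (.ofNat (nat_lit 8)), (.ofNat (nat_lit 237813568)), (.ofNat (nat_lit 758463528415556979111876127488)), (.ofNat (nat_lit 0)), (.ofNat (nat_lit 11668669667931645832341873792)), (.ofNat (nat_lit 237813552)), (.ofNat (nat_lit 237813584)), (.ofNat (nat_lit 2671107914650955511324)), (.negSucc (nat_lit 2671107914650955511323)), (.negSucc (nat_lit 2671107914650955511323)), (.ofNat (nat_lit 2671107914650955511324)), (.ofNat (nat_lit 246563807506242047196))⟩,
    ⟨nat_lit 0, nat_lit 11, nat_lit 10, (.ofNat (nat_lit 8)), (.ofNat (nat_lit 179617600)), (.ofNat (nat_lit 913911239141130717218311269120)), (.ofNat (nat_lit 0)), (.ofNat (nat_lit 14060172909863549495487358080)), (.ofNat (nat_lit 179617584)), (.ofNat (nat_lit 179617616)), (.ofNat (nat_lit 2671107914650955511324)), (.negSucc (nat_lit 2671107914650955511323)), (.negSucc (nat_lit 2671107914650955511323)), (.ofNat (nat_lit 2671107914650955511324)), (.ofNat (nat_lit 246563807506242047196))⟩,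
    ⟨nat_lit 2, nat_lit 12, nat_lit 11, (.ofNat (nat_lit 8)), (.ofNat (nat_lit 136232768)), (.ofNat (nat_lit 798025671010128673720045431552)), (.ofNat (nat_lit 0)), (.ofNat (nat_lit 12277318015540441133998269568)), (.ofNat (nat_lit 136232752)), (.ofNat (nat_lit 136232784)), (.negSucc (nat_lit 2671107914650955511323)), (.ofNat (nat_lit 2671107914650955511324)), (.negSucc (nat_lit 2671107914650955511323)), (.ofNat (nat_lit 2671107914650955511324)), (.ofNat (nat_lit 246563807506242047196))⟩,
    ⟨nat_lit 1, nat_lit 13, nat_lit 12, (.ofNat (nat_lit 8)), (.ofNat (nat_lit 223002432)), (.ofNat (nat_lit 566254534748124586723513756416)), (.ofNat (nat_lit 0)), (.ofNat (nat_lit 8711608226894224411020092544)), (.ofNat (nat_lit 223002416)), (.ofNat (nat_lit 223002448)), (.ofNat (nat_lit 2671107914650955554125)), (.negSucc (nat_lit 2671107914650955511323)), (.negSucc (nat_lit 2671107914650955511323)), (.ofNat (nat_lit 2671107914650955554125)), (.ofNat (nat_lit 246563807506242218400))⟩,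
    ⟨nat_lit 0, nat_lit 14, nat_lit 13, (.ofNat (nat_lit 8)), (.ofNat (nat_lit 154976064)), (.ofNat (nat_lit 384548764778366092646962588416)), (.ofNat (nat_lit 0)), (.ofNat (nat_lit 5916134842744090866152105088)), (.ofNat (nat_lit 154976048)), (.ofNat (nat_lit 154976080)), (.negSucc (nat_lit 2671107914650955525973)), (.ofNat (nat_lit 2671107914650955554125)), (.negSucc (nat_lit 2671107914650955525973)), (.ofNat (nat_lit 2671107914650955554125)), (.ofNat (nat_lit 246563807506242191398))⟩,
    ⟨nat_lit 0, nat_lit 15, nat_lit 14, (.ofNat (nat_lit 8)), (.negSucc (nat_lit 45170879)), (.ofNat (nat_lit 919162850989967667850571311872)), (.ofNat (nat_lit 0)), (.ofNat (nat_lit 14140966938307194910068696192)), (.negSucc (nat_lit 45170895)), (.negSucc (nat_lit 45170863)), (.ofNat (nat_lit 2671107914650955511568)), (.negSucc (nat_lit 2671107914650955525973)), (.negSucc (nat_lit 2671107914650955525973)), (.ofNat (nat_lit 2671107914650955511568)), (.ofNat (nat_lit 246563807506242077472))⟩,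
    ⟨nat_lit 0, nat_lit 6, nat_lit 15, (.ofNat (nat_lit 8)), (.negSucc (nat_lit 129417407)), (.ofNat (nat_lit 694131283267304334118503475968)), (.ofNat (nat_lit 0)), (.ofNat (nat_lit 10678942819496989755533354112)), (.negSucc (nat_lit 129417423)), (.negSucc (nat_lit 129417391)), (.negSucc (nat_lit 2671107914650955511323)), (.ofNat (nat_lit 2671107914650955511568)), (.negSucc (nat_lit 2671107914650955511323)), (.ofNat (nat_lit 2671107914650955511568)), (.ofNat (nat_lit 246563807506242047684))⟩,
    ⟨nat_lit 0, nat_lit 23, nat_lit 16, (.ofNat (nat_lit 8)), (.negSucc (nat_lit 19660863)), (.ofNat (nat_lit 277985149580862714718373181696)), (.ofNat (nat_lit 0)), (.ofNat (nat_lit 4276694608936349457151304064)), (.negSucc (nat_lit 19660879)), (.negSucc (nat_lit 19660847)), (.negSucc (nat_lit 2671107914650955511323)), (.ofNat (nat_lit 2671107914650955511324)), (.negSucc (nat_lit 2671107914650955511323)), (.ofNat (nat_lit 2671107914650955511324)), (.ofNat (nat_lit 246563807506242047196))⟩,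
    ⟨nat_lit 1, nat_lit 16, nat_lit 17, (.ofNat (nat_lit 8)), (.ofNat (nat_lit 177323840)), (.ofNat (nat_lit 804152551500438449433699969792)), (.ofNat (nat_lit 0)), (.ofNat (nat_lit 12371577715391360760360985728)), (.ofNat (nat_lit 177323824)), (.ofNat (nat_lit 177323856)), (.ofNat (nat_lit 2671107914650955511324)), (.negSucc (nat_lit 2671107914650955511323)), (.negSucc (nat_lit 2671107914650955511323)), (.ofNat (nat_lit 2671107914650955511324)), (.ofNat (nat_lit 246563807506242047196))⟩,
    ⟨nat_lit 0, nat_lit 18, nat_lit 17, (.ofNat (nat_lit 8)), (.ofNat (nat_lit 138526528)), (.ofNat (nat_lit 907784358650820941504656730880)), (.ofNat (nat_lit 0)), (.ofNat (nat_lit 13965913210012629869124641920)), (.ofNat (nat_lit 138526512)), (.ofNat (nat_lit 138526544)), (.ofNat (nat_lit 2671107914650955511324)), (.negSucc (nat_lit 2671107914650955511323)), (.negSucc (nat_lit 2671107914650955511323)), (.ofNat (nat_lit 2671107914650955511324)), (.ofNat (nat_lit 246563807506242047196))⟩,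
    ⟨nat_lit 0, nat_lit 19, nat_lit 18, (.ofNat (nat_lit 8)), (.ofNat (nat_lit 5422912)), (.ofNat (nat_lit 552250236484559385092303383296)), (.ofNat (nat_lit 0)), (.ofNat (nat_lit 8496157484377836693619598464)), (.ofNat (nat_lit 5422896)), (.ofNat (nat_lit 5422928)), (.negSucc (nat_lit 2671107914650955511323)), (.ofNat (nat_lit 2671107914650955511324)), (.negSucc (nat_lit 2671107914650955511323)), (.ofNat (nat_lit 2671107914650955511324)), (.ofNat (nat_lit 246563807506242047196))⟩,
    ⟨nat_lit 2, nat_lit 19, nat_lit 20, (.ofNat (nat_lit 8)), (.negSucc (nat_lit 128139455)), (.ofNat (nat_lit 909009734748882896647387638528)), (.ofNat (nat_lit 0)), (.ofNat (nat_lit 13984765149982813794397185152)), (.negSucc (nat_lit 128139471)), (.negSucc (nat_lit 128139439)), (.negSucc (nat_lit 2671107914650955511323)), (.ofNat (nat_lit 2671107914650955511324)), (.negSucc (nat_lit 2671107914650955511323)), (.ofNat (nat_lit 2671107914650955511324)), (.ofNat (nat_lit 246563807506242047196))⟩,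
    ⟨nat_lit 0, nat_lit 20, nat_lit 21, (.ofNat (nat_lit 8)), (.negSucc (nat_lit 38420671)), (.ofNat (nat_lit 1148658288784142409561475148544)), (.ofNat (nat_lit 0)), (.ofNat (nat_lit 17671665981294498608413140096)), (.negSucc (nat_lit 38420687)), (.negSucc (nat_lit 38420655)), (.ofNat (nat_lit 2671107914650955511324)), (.negSucc (nat_lit 2671107914650955511323)), (.negSucc (nat_lit 2671107914650955511323)), (.ofNat (nat_lit 2671107914650955511324)), (.ofNat (nat_lit 246563807506242047196))⟩,
    ⟨nat_lit 1, nat_lit 22, nat_lit 21, (.ofNat (nat_lit 8)), (.ofNat (nat_lit 153337664)), (.ofNat (nat_lit 636451079794245159899955751680)), (.ofNat (nat_lit 0)), (.ofNat (nat_lit 9791555073757617844490069120)), (.ofNat (nat_lit 153337648)), (.ofNat (nat_lit 153337680)), (.ofNat (nat_lit 2671107914650955511324)), (.negSucc (nat_lit 2671107914650955511323)), (.negSucc (nat_lit 2671107914650955511323)), (.ofNat (nat_lit 2671107914650955511324)), (.ofNat (nat_lit 246563807506242047196))⟩,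
    ⟨nat_lit 2, nat_lit 23, nat_lit 7, (.ofNat (nat_lit 8)), (.negSucc (nat_lit 135397439)), (.ofNat (nat_lit 587130033749064540727342168320)), (.ofNat (nat_lit 0)), (.ofNat (nat_lit 9032769749985608318767210880)), (.negSucc (nat_lit 135397455)), (.negSucc (nat_lit 135397423)), (.negSucc (nat_lit 2671107914650955511323)), (.ofNat (nat_lit 2671107914650955511324)), (.negSucc (nat_lit 2671107914650955511323)), (.ofNat (nat_lit 2671107914650955511324)), (.ofNat (nat_lit 246563807506242047196))⟩]
  es := [
    ⟨nat_lit 1, nat_lit 0, (.negSucc (nat_lit 255197183)), (.negSucc (nat_lit 44040191)), (.negSucc (nat_lit 255197167)), (.negSucc (nat_lit 44040207)), (.negSucc (nat_lit 2671107914650955511323)), (.negSucc (nat_lit 41093967917707007865)), (.negSucc (nat_lit 129270445509832630440296447))⟩,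
    ⟨nat_lit 1, nat_lit 2, (.negSucc (nat_lit 255197183)), (.negSucc (nat_lit 125845695)), (.negSucc (nat_lit 255197167)), (.negSucc (nat_lit 125845711)), (.ofNat (nat_lit 2671107914650955511324)), (.ofNat (nat_lit 41093967917707007866)), (.ofNat (nat_lit 20844859338460511658497802240))⟩,
    ⟨nat_lit 2, nat_lit 3, (.negSucc (nat_lit 125845695)), (.ofNat (nat_lit 7716672)), (.negSucc (nat_lit 125845679)), (.ofNat (nat_lit 7716656)), (.negSucc (nat_lit 2671107914650955511323)), (.negSucc (nat_lit 41093967917707007865)), (.ofNat (nat_lit 10501861350449493400549312768))⟩,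
    ⟨nat_lit 3, nat_lit 4, (.ofNat (nat_lit 7716672)), (.ofNat (nat_lit 162512704)), (.ofNat (nat_lit 7716688)), (.ofNat (nat_lit 162512688)), (.ofNat (nat_lit 2671107914650955511324)), (.ofNat (nat_lit 41093967917707007866)), (.ofNat (nat_lit 9867644007250557456942628864))⟩,
    ⟨nat_lit 5, nat_lit 4, (.ofNat (nat_lit 9551680)), (.ofNat (nat_lit 162512704)), (.ofNat (nat_lit 9551696)), (.ofNat (nat_lit 162512688)), (.negSucc (nat_lit 2671107914650955511323)), (.negSucc (nat_lit 41093967917707007865)), (.ofNat (nat_lit 23224227696042188113048488192))⟩,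
    ⟨nat_lit 6, nat_lit 5, (.negSucc (nat_lit 207798463)), (.ofNat (nat_lit 9551680)), (.negSucc (nat_lit 207798447)), (.ofNat (nat_lit 9551664)), (.ofNat (nat_lit 2671107914650955511324)), (.ofNat (nat_lit 41093967917707007866)), (.ofNat (nat_lit 22439194833081780767261458432))⟩,
    ⟨nat_lit 6, nat_lit 15, (.negSucc (nat_lit 207798463)), (.negSucc (nat_lit 129417407)), (.negSucc (nat_lit 207798447)), (.negSucc (nat_lit 129417423)), (.negSucc (nat_lit 2671107914650955511323)), (.negSucc (nat_lit 41093967917707007865)), (.ofNat (nat_lit 5360668007152191494080022784))⟩,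
    ⟨nat_lit 23, nat_lit 7, (.negSucc (nat_lit 135397439)), (.negSucc (nat_lit 3489983)), (.negSucc (nat_lit 135397423)), (.negSucc (nat_lit 3489999)), (.ofNat (nat_lit 2671107914650955511324)), (.ofNat (nat_lit 41093967917707007866)), (.ofNat (nat_lit 14596787805485267853883473920))⟩,
    ⟨nat_lit 7, nat_lit 8, (.negSucc (nat_lit 3489983)), (.ofNat (nat_lit 151043904)), (.negSucc (nat_lit 3489967)), (.ofNat (nat_lit 151043888)), (.negSucc (nat_lit 2671107914650955511323)), (.negSucc (nat_lit 41093967917707007865)), (.ofNat (nat_lit 14309953224426646305603045632))⟩,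
    ⟨nat_lit 8, nat_lit 9, (.ofNat (nat_lit 151043904)), (.ofNat (nat_lit 237813568)), (.ofNat (nat_lit 151043920)), (.ofNat (nat_lit 237813552)), (.ofNat (nat_lit 2671107914650955511324)), (.ofNat (nat_lit 41093967917707007866)), (.ofNat (nat_lit 1895966534144211913124347904))⟩,
    ⟨nat_lit 10, nat_lit 9, (.ofNat (nat_lit 179617600)), (.ofNat (nat_lit 237813568)), (.ofNat (nat_lit 179617616)), (.ofNat (nat_lit 237813552)), (.negSucc (nat_lit 2671107914650955511323)), (.negSucc (nat_lit 41093967917707007865)), (.ofNat (nat_lit 21441372801719079751559399680))⟩,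
    ⟨nat_lit 11, nat_lit 10, (.ofNat (nat_lit 136232768)), (.ofNat (nat_lit 179617600)), (.ofNat (nat_lit 136232784)), (.ofNat (nat_lit 179617584)), (.ofNat (nat_lit 2671107914650955511324)), (.ofNat (nat_lit 41093967917707007866)), (.ofNat (nat_lit 6678973018008019239415316480))⟩,
    ⟨nat_lit 11, nat_lit 12, (.ofNat (nat_lit 136232768)), (.ofNat (nat_lit 223002432)), (.ofNat (nat_lit 136232784)), (.ofNat (nat_lit 223002416)), (.negSucc (nat_lit 2671107914650955511323)), (.negSucc (nat_lit 41093967917707007865)), (.ofNat (nat_lit 17875663013072863028581222656))⟩,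
    ⟨nat_lit 13, nat_lit 12, (.ofNat (nat_lit 154976064)), (.ofNat (nat_lit 223002432)), (.ofNat (nat_lit 154976080)), (.ofNat (nat_lit 223002416)), (.ofNat (nat_lit 2671107914650955554125)), (.ofNat (nat_lit 41093967917707050667)), (.negSucc (nat_lit 452446559284423751268129599))⟩,
    ⟨nat_lit 14, nat_lit 13, (.negSucc (nat_lit 45170879)), (.ofNat (nat_lit 154976064)), (.negSucc (nat_lit 45170863)), (.ofNat (nat_lit 154976048)), (.negSucc (nat_lit 2671107914650955525973)), (.negSucc (nat_lit 41093967917707022515)), (.ofNat (nat_lit 12284716244772601120841162112))⟩,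
    ⟨nat_lit 15, nat_lit 14, (.negSucc (nat_lit 129417407)), (.negSucc (nat_lit 45170879)), (.negSucc (nat_lit 129417391)), (.negSucc (nat_lit 45170895)), (.ofNat (nat_lit 2671107914650955511568)), (.ofNat (nat_lit 41093967917707008110)), (.ofNat (nat_lit 15997217631841788048564532992))⟩,
    ⟨nat_lit 16, nat_lit 17, (.negSucc (nat_lit 19660863)), (.ofNat (nat_lit 177323840)), (.negSucc (nat_lit 19660847)), (.ofNat (nat_lit 177323824)), (.ofNat (nat_lit 2671107914650955511324)), (.ofNat (nat_lit 41093967917707007866)), (.ofNat (nat_lit 5084637523386750130651660288))⟩,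
    ⟨nat_lit 18, nat_lit 17, (.ofNat (nat_lit 138526528)), (.ofNat (nat_lit 177323840)), (.ofNat (nat_lit 138526544)), (.ofNat (nat_lit 177323824)), (.negSucc (nat_lit 2671107914650955511323)), (.negSucc (nat_lit 41093967917707007865)), (.ofNat (nat_lit 19658517907395971390070311168))⟩,
    ⟨nat_lit 19, nat_lit 18, (.ofNat (nat_lit 5422912)), (.ofNat (nat_lit 138526528)), (.ofNat (nat_lit 5422928)), (.ofNat (nat_lit 138526512)), (.ofNat (nat_lit 2671107914650955511324)), (.ofNat (nat_lit 41093967917707007866)), (.ofNat (nat_lit 8273308512629288348178972672))⟩,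
    ⟨nat_lit 20, nat_lit 19, (.negSucc (nat_lit 128139455)), (.ofNat (nat_lit 5422912)), (.negSucc (nat_lit 128139439)), (.ofNat (nat_lit 5422896)), (.negSucc (nat_lit 2671107914650955511323)), (.negSucc (nat_lit 41093967917707007865)), (.ofNat (nat_lit 8719006456126385039060224256))⟩,
    ⟨nat_lit 20, nat_lit 21, (.negSucc (nat_lit 128139455)), (.negSucc (nat_lit 38420671)), (.negSucc (nat_lit 128139439)), (.negSucc (nat_lit 38420687)), (.ofNat (nat_lit 2671107914650955511324)), (.ofNat (nat_lit 41093967917707007866)), (.ofNat (nat_lit 19250523843839242549734146048))⟩,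
    ⟨nat_lit 21, nat_lit 22, (.negSucc (nat_lit 38420671)), (.ofNat (nat_lit 153337664)), (.negSucc (nat_lit 38420655)), (.ofNat (nat_lit 153337648)), (.negSucc (nat_lit 2671107914650955511323)), (.negSucc (nat_lit 41093967917707007865)), (.ofNat (nat_lit 16092808118749754667092134144))⟩,
    ⟨nat_lit 0, nat_lit 22, (.negSucc (nat_lit 44040191)), (.ofNat (nat_lit 153337664)), (.negSucc (nat_lit 44040175)), (.ofNat (nat_lit 153337648)), (.ofNat (nat_lit 2671107914650955511324)), (.ofNat (nat_lit 41093967917707007866)), (.ofNat (nat_lit 3490302028765481021888004096))⟩,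
    ⟨nat_lit 23, nat_lit 16, (.negSucc (nat_lit 135397439)), (.negSucc (nat_lit 19660863)), (.negSucc (nat_lit 135397423)), (.negSucc (nat_lit 19660879)), (.negSucc (nat_lit 2671107914650955511323)), (.negSucc (nat_lit 41093967917707007865)), (.ofNat (nat_lit 3468751694485948783650947840))⟩]

theorem ok27 : stOK 23 23 S27 = true := by decide +kernel

def S28 : SD where
  vs := [
    ⟨nat_lit 0, nat_lit 0, nat_lit 22, (.ofNat (nat_lit 8)), (.negSucc (nat_lit 44564479)), (.ofNat (nat_lit 110633956282165092886561947648)), (.negSucc (nat_lit 524287)), (.ofNat (nat_lit 1400429826356520163121037312)), (.negSucc (nat_lit 44564495)), (.negSucc (nat_lit 44564463)), (.negSucc (nat_lit 2671107914650955511323)), (.ofNat (nat_lit 2671107914650955511324)), (.negSucc (nat_lit 2671107914650955511323)), (.ofNat (nat_lit 2671107914650955511324)), (.ofNat (nat_lit 0))⟩,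
    ⟨nat_lit 2, nat_lit 0, nat_lit 1, (.ofNat (nat_lit 8)), (.negSucc (nat_lit 257818623)), (.ofNat (nat_lit 680258788152679669236043874304)), (.negSucc (nat_lit 2621439)), (.ofNat (nat_lit 7002149131782600815605186560)), (.negSucc (nat_lit 257818639)), (.negSucc (nat_lit 257818607)), (.negSucc (nat_lit 2671107914650955511323)), (.ofNat (nat_lit 2671107914650955511324)), (.negSucc (nat_lit 2671107914650955511323)), (.ofNat (nat_lit 2671107914650955511324)), (.ofNat (nat_lit 0))⟩,
    ⟨nat_lit 0, nat_lit 1, nat_lit 2, (.ofNat (nat_lit 8)), (.negSucc (nat_lit 127418559)), (.ofNat (nat_lit 1028571431174070805573846199040)), (.negSucc (nat_lit 1572863)), (.ofNat (nat_lit 9803008784495641141847261184)), (.negSucc (nat_lit 127418575)), (.negSucc (nat_lit 127418543)), (.ofNat (nat_lit 2671107914650955511324)), (.negSucc (nat_lit 2671107914650955511323)), (.negSucc (nat_lit 2671107914650955511323)), (.ofNat (nat_lit 2671107914650955511324)), (.ofNat (nat_lit 0))⟩,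
    ⟨nat_lit 0, nat_lit 2, nat_lit 3, (.ofNat (nat_lit 8)), (.ofNat (nat_lit 7192384)), (.ofNat (nat_lit 669011073257034253692519869184)), (.negSucc (nat_lit 524287)), (.ofNat (nat_lit 7002149131782600815605186560)), (.ofNat (nat_lit 7192368)), (.ofNat (nat_lit 7192400)), (.negSucc (nat_lit 2671107914650955511323)), (.ofNat (nat_lit 2671107914650955511324)), (.negSucc (nat_lit 2671107914650955511323)), (.ofNat (nat_lit 2671107914650955511324)), (.ofNat (nat_lit 0))⟩,
    ⟨nat_lit 1, nat_lit 3, nat_lit 4, (.ofNat (nat_lit 8)), (.ofNat (nat_lit 196722496)), (.ofNat (nat_lit 1175266455484916292660774857472)), (.ofNat (nat_lit 34209792)), (.ofNat (nat_lit 99780625127902061622373908480)), (.ofNat (nat_lit 196722480)), (.ofNat (nat_lit 196722512)), (.ofNat (nat_lit 2671107914650955511324)), (.negSucc (nat_lit 2671107914650955511323)), (.negSucc (nat_lit 2671107914650955511323)), (.ofNat (nat_lit 2671107914650955511324)), (.ofNat (nat_lit 0))⟩,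
    ⟨nat_lit 0, nat_lit 5, nat_lit 4, (.ofNat (nat_lit 8)), (.ofNat (nat_lit 42450752)), (.ofNat (nat_lit 1587342931890322350659140086528)), (.ofNat (nat_lit 32899072)), (.ofNat (nat_lit 103281699693793362030176501760)), (.ofNat (nat_lit 42450736)), (.ofNat (nat_lit 42450768)), (.ofNat (nat_lit 2671107914650955511324)), (.negSucc (nat_lit 2671107914650955511323)), (.negSucc (nat_lit 2671107914650955511323)), (.ofNat (nat_lit 2671107914650955511324)), (.ofNat (nat_lit 0))⟩,
    ⟨nat_lit 2, nat_lit 6, nat_lit 5, (.ofNat (nat_lit 8)), (.negSucc (nat_lit 210157759)), (.ofNat (nat_lit 912598336178921479565385296640)), (.negSucc (nat_lit 2359295)), (.ofNat (nat_lit 9102793871317381060286742528)), (.negSucc (nat_lit 210157775)), (.negSucc (nat_lit 210157743)), (.negSucc (nat_lit 2671107914650955511323)), (.ofNat (nat_lit 2671107914650955511324)), (.negSucc (nat_lit 2671107914650955511323)), (.ofNat (nat_lit 2671107914650955511324)), (.ofNat (nat_lit 0))⟩,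
    ⟨nat_lit 0, nat_lit 7, nat_lit 8, (.ofNat (nat_lit 8)), (.negSucc (nat_lit 4014271)), (.ofNat (nat_lit 947871662430276331173996423936)), (.negSucc (nat_lit 524287)), (.ofNat (nat_lit 8402578958139120978726223872)), (.negSucc (nat_lit 4014287)), (.negSucc (nat_lit 4014255)), (.ofNat (nat_lit 2671107914650955511324)), (.negSucc (nat_lit 2671107914650955511323)), (.negSucc (nat_lit 2671107914650955511323)), (.ofNat (nat_lit 2671107914650955511324)), (.ofNat (nat_lit 0))⟩,
    ⟨nat_lit 0, nat_lit 8, nat_lit 9, (.ofNat (nat_lit 8)), (.ofNat (nat_lit 152092480)), (.ofNat (nat_lit 530893681632622452604707564288)), (.ofNat (nat_lit 1048576)), (.ofNat (nat_lit 4201289479069560489363111936)), (.ofNat (nat_lit 152092464)), (.ofNat (nat_lit 152092496)), (.negSucc (nat_lit 2671107914650955511323)), (.ofNat (nat_lit 2671107914650955511324)), (.negSucc (nat_lit 2671107914650955511323)), (.ofNat (nat_lit 2671107914650955511324)), (.ofNat (nat_lit 0))⟩,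
    ⟨nat_lit 1, nat_lit 9, nat_lit 10, (.ofNat (nat_lit 8)), (.ofNat (nat_lit 273071936)), (.ofNat (nat_lit 854042864064389480244886924032)), (.ofNat (nat_lit 35258368)), (.ofNat (nat_lit 95579335648832501133010796544)), (.ofNat (nat_lit 273071920)), (.ofNat (nat_lit 273071952)), (.ofNat (nat_lit 2671107914650955511324)), (.negSucc (nat_lit 2671107914650955511323)), (.negSucc (nat_lit 2671107914650955511323)), (.ofNat (nat_lit 2671107914650955511324)), (.ofNat (nat_lit 0))⟩,
    ⟨nat_lit 0, nat_lit 11, nat_lit 10, (.ofNat (nat_lit 8)), (.ofNat (nat_lit 214089536)), (.ofNat (nat_lit 1011591219529497998596003621632)), (.ofNat (nat_lit 34471936)), (.ofNat (nat_lit 97679980388367281377692352512)), (.ofNat (nat_lit 214089520)), (.ofNat (nat_lit 214089552)), (.ofNat (nat_lit 2671107914650955511324)), (.negSucc (nat_lit 2671107914650955511323)), (.negSucc (nat_lit 2671107914650955511323)), (.ofNat (nat_lit 2671107914650955511324)), (.ofNat (nat_lit 0))⟩,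
    ⟨nat_lit 2, nat_lit 12, nat_lit 11, (.ofNat (nat_lit 8)), (.ofNat (nat_lit 170180416)), (.ofNat (nat_lit 894305221572139434934616746752)), (.ofNat (nat_lit 33947648)), (.ofNat (nat_lit 96279550562010761214571315200)), (.ofNat (nat_lit 170180400)), (.ofNat (nat_lit 170180432)), (.negSucc (nat_lit 2671107914650955511323)), (.ofNat (nat_lit 2671107914650955511324)), (.negSucc (nat_lit 2671107914650955511323)), (.ofNat (nat_lit 2671107914650955511324)), (.ofNat (nat_lit 0))⟩,
    ⟨nat_lit 1, nat_lit 13, nat_lit 12, (.ofNat (nat_lit 8)), (.ofNat (nat_lit 257998656)), (.ofNat (nat_lit 659733225657422307611842996992)), (.ofNat (nat_lit 34996224)), (.ofNat (nat_lit 93478690909297720888329240576)), (.ofNat (nat_lit 257998640)), (.ofNat (nat_lit 257998672)), (.ofNat (nat_lit 2671107914650955554125)), (.negSucc (nat_lit 2671107914650955511323)), (.negSucc (nat_lit 2671107914650955511323)), (.ofNat (nat_lit 2671107914650955554125)), (.ofNat (nat_lit 0))⟩,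
    ⟨nat_lit 0, nat_lit 14, nat_lit 13, (.ofNat (nat_lit 8)), (.ofNat (nat_lit 189448000)), (.ofNat (nat_lit 476627025861307293349730740992)), (.ofNat (nat_lit 34471936)), (.ofNat (nat_lit 92078261082941200702768152576)), (.ofNat (nat_lit 189447984)), (.ofNat (nat_lit 189448016)), (.negSucc (nat_lit 2671107914650955525973)), (.ofNat (nat_lit 2671107914650955554125)), (.negSucc (nat_lit 2671107914650955525973)), (.ofNat (nat_lit 2671107914650955554125)), (.ofNat (nat_lit 0))⟩,
    ⟨nat_lit 0, nat_lit 15, nat_lit 14, (.ofNat (nat_lit 8)), (.negSucc (nat_lit 12796095)), (.ofNat (nat_lit 1016842831378334949236546890496)), (.ofNat (nat_lit 32374784)), (.ofNat (nat_lit 97679980388367281385975578624)), (.negSucc (nat_lit 12796111)), (.negSucc (nat_lit 12796079)), (.ofNat (nat_lit 2671107914650955511568)), (.negSucc (nat_lit 2671107914650955525973)), (.negSucc (nat_lit 2671107914650955525973)), (.ofNat (nat_lit 2671107914650955511568)), (.ofNat (nat_lit 0))⟩,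
    ⟨nat_lit 0, nat_lit 6, nat_lit 15, (.ofNat (nat_lit 8)), (.negSucc (nat_lit 130990271)), (.ofNat (nat_lit 701133432399086934934108662528)), (.negSucc (nat_lit 1572863)), (.ofNat (nat_lit 7002149131782600815605186560)), (.negSucc (nat_lit 130990287)), (.negSucc (nat_lit 130990255)), (.negSucc (nat_lit 2671107914650955511323)), (.ofNat (nat_lit 2671107914650955511568)), (.negSucc (nat_lit 2671107914650955511323)), (.ofNat (nat_lit 2671107914650955511568)), (.ofNat (nat_lit 0))⟩,
    ⟨nat_lit 0, nat_lit 23, nat_lit 16, (.ofNat (nat_lit 8)), (.negSucc (nat_lit 20185151)), (.ofNat (nat_lit 280786009233575755044615256320)), (.negSucc (nat_lit 524287)), (.ofNat (nat_lit 2800859652713040326242074624)), (.negSucc (nat_lit 20185167)), (.negSucc (nat_lit 20185135)), (.negSucc (nat_lit 2671107914650955511323)), (.ofNat (nat_lit 2671107914650955511324)), (.negSucc (nat_lit 2671107914650955511323)), (.ofNat (nat_lit 2671107914650955511324)), (.ofNat (nat_lit 0))⟩,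
    ⟨nat_lit 1, nat_lit 16, nat_lit 17, (.ofNat (nat_lit 8)), (.ofNat (nat_lit 211795776)), (.ofNat (nat_lit 900432102062449210648271284992)), (.ofNat (nat_lit 34471936)), (.ofNat (nat_lit 96279550562010761214571315200)), (.ofNat (nat_lit 211795760)), (.ofNat (nat_lit 211795792)), (.ofNat (nat_lit 2671107914650955511324)), (.negSucc (nat_lit 2671107914650955511323)), (.negSucc (nat_lit 2671107914650955511323)), (.ofNat (nat_lit 2671107914650955511324)), (.ofNat (nat_lit 0))⟩,
    ⟨nat_lit 0, nat_lit 18, nat_lit 17, (.ofNat (nat_lit 8)), (.ofNat (nat_lit 172474176)), (.ofNat (nat_lit 1005464339039188222882349083392)), (.ofNat (nat_lit 33947648)), (.ofNat (nat_lit 97679980388367281377692352512)), (.ofNat (nat_lit 172474160)), (.ofNat (nat_lit 172474192)), (.ofNat (nat_lit 2671107914650955511324)), (.negSucc (nat_lit 2671107914650955511323)), (.negSucc (nat_lit 2671107914650955511323)), (.ofNat (nat_lit 2671107914650955511324)), (.ofNat (nat_lit 0))⟩,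
    ⟨nat_lit 0, nat_lit 19, nat_lit 18, (.ofNat (nat_lit 8)), (.ofNat (nat_lit 4898624)), (.ofNat (nat_lit 557851955789985465744787532544)), (.negSucc (nat_lit 524287)), (.ofNat (nat_lit 5601719305426080652484149248)), (.ofNat (nat_lit 4898608)), (.ofNat (nat_lit 4898640)), (.negSucc (nat_lit 2671107914650955511323)), (.ofNat (nat_lit 2671107914650955511324)), (.negSucc (nat_lit 2671107914650955511323)), (.ofNat (nat_lit 2671107914650955511324)), (.ofNat (nat_lit 0))⟩,
    ⟨nat_lit 2, nat_lit 19, nat_lit 20, (.ofNat (nat_lit 8)), (.negSucc (nat_lit 129712319)), (.ofNat (nat_lit 917412313707022017626113862400)), (.negSucc (nat_lit 1572863)), (.ofNat (nat_lit 8402578958139120978726223872)), (.negSucc (nat_lit 129712335)), (.negSucc (nat_lit 129712303)), (.negSucc (nat_lit 2671107914650955511323)), (.ofNat (nat_lit 2671107914650955511324)), (.negSucc (nat_lit 2671107914650955511323)), (.ofNat (nat_lit 2671107914650955511324)), (.ofNat (nat_lit 0))⟩,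
    ⟨nat_lit 0, nat_lit 20, nat_lit 21, (.ofNat (nat_lit 8)), (.negSucc (nat_lit 6045887)), (.ofNat (nat_lit 1247738698998866211102288538368)), (.ofNat (nat_lit 32374784)), (.ofNat (nat_lit 99080410214723801540813389824)), (.negSucc (nat_lit 6045903)), (.negSucc (nat_lit 6045871)), (.ofNat (nat_lit 2671107914650955511324)), (.negSucc (nat_lit 2671107914650955511323)), (.negSucc (nat_lit 2671107914650955511323)), (.ofNat (nat_lit 2671107914650955511324)), (.ofNat (nat_lit 0))⟩,
    ⟨nat_lit 1, nat_lit 22, nat_lit 21, (.ofNat (nat_lit 8)), (.ofNat (nat_lit 187547456)), (.ofNat (nat_lit 730629985616721140869845510912)), (.ofNat (nat_lit 34209792)), (.ofNat (nat_lit 94178905822475980969889759232)), (.ofNat (nat_lit 187547440)), (.ofNat (nat_lit 187547472)), (.ofNat (nat_lit 2671107914650955511324)), (.negSucc (nat_lit 2671107914650955511323)), (.negSucc (nat_lit 2671107914650955511323)), (.ofNat (nat_lit 2671107914650955511324)), (.ofNat (nat_lit 0))⟩,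
    ⟨nat_lit 2, nat_lit 23, nat_lit 7, (.ofNat (nat_lit 8)), (.negSucc (nat_lit 136970303)), (.ofNat (nat_lit 592731753054490621379826317568)), (.negSucc (nat_lit 1572863)), (.ofNat (nat_lit 5601719305426080652484149248)), (.negSucc (nat_lit 136970319)), (.negSucc (nat_lit 136970287)), (.negSucc (nat_lit 2671107914650955511323)), (.ofNat (nat_lit 2671107914650955511324)), (.negSucc (nat_lit 2671107914650955511323)), (.ofNat (nat_lit 2671107914650955511324)), (.ofNat (nat_lit 0))⟩]
  es := [
    ⟨nat_lit 1, nat_lit 0, (.negSucc (nat_lit 257818623)), (.negSucc (nat_lit 44564479)), (.negSucc (nat_lit 257818607)), (.negSucc (nat_lit 44564495)), (.negSucc (nat_lit 2671107914650955511323)), (.ofNat (nat_lit 0)), (.ofNat (nat_lit 0))⟩,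
    ⟨nat_lit 1, nat_lit 2, (.negSucc (nat_lit 257818623)), (.negSucc (nat_lit 127418559)), (.negSucc (nat_lit 257818607)), (.negSucc (nat_lit 127418575)), (.ofNat (nat_lit 2671107914650955511324)), (.ofNat (nat_lit 0)), (.ofNat (nat_lit 14004298263565201631210373120))⟩,
    ⟨nat_lit 2, nat_lit 3, (.negSucc (nat_lit 127418559)), (.ofNat (nat_lit 7192384)), (.negSucc (nat_lit 127418543)), (.ofNat (nat_lit 7192368)), (.negSucc (nat_lit 2671107914650955511323)), (.ofNat (nat_lit 0)), (.ofNat (nat_lit 5601719305426080652484149248))⟩,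
    ⟨nat_lit 3, nat_lit 4, (.ofNat (nat_lit 7192384)), (.ofNat (nat_lit 196722496)), (.ofNat (nat_lit 7192400)), (.ofNat (nat_lit 196722480)), (.ofNat (nat_lit 2671107914650955511324)), (.ofNat (nat_lit 0)), (.ofNat (nat_lit 8402578958139120978726223872))⟩,
    ⟨nat_lit 5, nat_lit 4, (.ofNat (nat_lit 42450752)), (.ofNat (nat_lit 196722496)), (.ofNat (nat_lit 42450768)), (.ofNat (nat_lit 196722480)), (.negSucc (nat_lit 2671107914650955511323)), (.ofNat (nat_lit 0)), (.ofNat (nat_lit 191158671297665002266021593088))⟩,
    ⟨nat_lit 6, nat_lit 5, (.negSucc (nat_lit 210157759)), (.ofNat (nat_lit 42450752)), (.negSucc (nat_lit 210157743)), (.ofNat (nat_lit 42450736)), (.ofNat (nat_lit 2671107914650955511324)), (.ofNat (nat_lit 0)), (.ofNat (nat_lit 15404728089921721794331410432))⟩,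
    ⟨nat_lit 6, nat_lit 15, (.negSucc (nat_lit 210157759)), (.negSucc (nat_lit 130990271)), (.negSucc (nat_lit 210157743)), (.negSucc (nat_lit 130990287)), (.negSucc (nat_lit 2671107914650955511323)), (.ofNat (nat_lit 0)), (.ofNat (nat_lit 2800859652713040326242074624))⟩,
    ⟨nat_lit 23, nat_lit 7, (.negSucc (nat_lit 136970303)), (.negSucc (nat_lit 4014271)), (.negSucc (nat_lit 136970287)), (.negSucc (nat_lit 4014287)), (.ofNat (nat_lit 2671107914650955511324)), (.ofNat (nat_lit 0)), (.ofNat (nat_lit 9803008784495641141847261184))⟩,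
    ⟨nat_lit 7, nat_lit 8, (.negSucc (nat_lit 4014271)), (.ofNat (nat_lit 152092480)), (.negSucc (nat_lit 4014255)), (.ofNat (nat_lit 152092464)), (.negSucc (nat_lit 2671107914650955511323)), (.ofNat (nat_lit 0)), (.ofNat (nat_lit 7002149131782600815605186560))⟩,
    ⟨nat_lit 8, nat_lit 9, (.ofNat (nat_lit 152092480)), (.ofNat (nat_lit 273071936)), (.ofNat (nat_lit 152092496)), (.ofNat (nat_lit 273071920)), (.ofNat (nat_lit 2671107914650955511324)), (.ofNat (nat_lit 0)), (.ofNat (nat_lit 1400429826356520163121037312))⟩,
    ⟨nat_lit 10, nat_lit 9, (.ofNat (nat_lit 214089536)), (.ofNat (nat_lit 273071936)), (.ofNat (nat_lit 214089552)), (.ofNat (nat_lit 273071920)), (.negSucc (nat_lit 2671107914650955511323)), (.ofNat (nat_lit 0)), (.ofNat (nat_lit 189758241471308482102900555776))⟩,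
    ⟨nat_lit 11, nat_lit 10, (.ofNat (nat_lit 170180416)), (.ofNat (nat_lit 214089536)), (.ofNat (nat_lit 170180432)), (.ofNat (nat_lit 214089520)), (.ofNat (nat_lit 2671107914650955511324)), (.ofNat (nat_lit 0)), (.ofNat (nat_lit 5601719305426080652484149248))⟩,
    ⟨nat_lit 11, nat_lit 12, (.ofNat (nat_lit 170180416)), (.ofNat (nat_lit 257998656)), (.ofNat (nat_lit 170180432)), (.ofNat (nat_lit 257998640)), (.negSucc (nat_lit 2671107914650955511323)), (.ofNat (nat_lit 0)), (.ofNat (nat_lit 186957381818595441776658481152))⟩,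
    ⟨nat_lit 13, nat_lit 12, (.ofNat (nat_lit 189448000)), (.ofNat (nat_lit 257998656)), (.ofNat (nat_lit 189448016)), (.ofNat (nat_lit 257998640)), (.ofNat (nat_lit 2671107914650955554125)), (.ofNat (nat_lit 0)), (.negSucc (nat_lit 1497873383423))⟩,
    ⟨nat_lit 14, nat_lit 13, (.negSucc (nat_lit 12796095)), (.ofNat (nat_lit 189448000)), (.negSucc (nat_lit 12796079)), (.ofNat (nat_lit 189447984)), (.negSucc (nat_lit 2671107914650955525973)), (.ofNat (nat_lit 0)), (.ofNat (nat_lit 184156522165882401932990218240))⟩,
    ⟨nat_lit 15, nat_lit 14, (.negSucc (nat_lit 130990271)), (.negSucc (nat_lit 12796095)), (.negSucc (nat_lit 130990255)), (.negSucc (nat_lit 12796111)), (.ofNat (nat_lit 2671107914650955511568)), (.ofNat (nat_lit 0)), (.ofNat (nat_lit 11203438610852161305352077312))⟩,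
    ⟨nat_lit 16, nat_lit 17, (.negSucc (nat_lit 20185151)), (.ofNat (nat_lit 211795776)), (.negSucc (nat_lit 20185135)), (.ofNat (nat_lit 211795760)), (.ofNat (nat_lit 2671107914650955511324)), (.ofNat (nat_lit 0)), (.ofNat (nat_lit 4201289479069560489363111936))⟩,
    ⟨nat_lit 18, nat_lit 17, (.ofNat (nat_lit 172474176)), (.ofNat (nat_lit 211795776)), (.ofNat (nat_lit 172474192)), (.ofNat (nat_lit 211795760)), (.negSucc (nat_lit 2671107914650955511323)), (.ofNat (nat_lit 0)), (.ofNat (nat_lit 188357811644951961939779518464))⟩,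
    ⟨nat_lit 19, nat_lit 18, (.ofNat (nat_lit 4898624)), (.ofNat (nat_lit 172474176)), (.ofNat (nat_lit 4898640)), (.ofNat (nat_lit 172474160)), (.ofNat (nat_lit 2671107914650955511324)), (.ofNat (nat_lit 0)), (.ofNat (nat_lit 7002149131782600815605186560))⟩,
    ⟨nat_lit 20, nat_lit 19, (.negSucc (nat_lit 129712319)), (.ofNat (nat_lit 4898624)), (.negSucc (nat_lit 129712303)), (.ofNat (nat_lit 4898608)), (.negSucc (nat_lit 2671107914650955511323)), (.ofNat (nat_lit 0)), (.ofNat (nat_lit 4201289479069560489363111936))⟩,
    ⟨nat_lit 20, nat_lit 21, (.negSucc (nat_lit 129712319)), (.negSucc (nat_lit 6045887)), (.negSucc (nat_lit 129712303)), (.negSucc (nat_lit 6045903)), (.ofNat (nat_lit 2671107914650955511324)), (.ofNat (nat_lit 0)), (.ofNat (nat_lit 12603868437208681468089335808))⟩,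
    ⟨nat_lit 21, nat_lit 22, (.negSucc (nat_lit 6045887)), (.ofNat (nat_lit 187547456)), (.negSucc (nat_lit 6045871)), (.ofNat (nat_lit 187547440)), (.negSucc (nat_lit 2671107914650955511323)), (.ofNat (nat_lit 0)), (.ofNat (nat_lit 185556951992238921613537443840))⟩,
    ⟨nat_lit 0, nat_lit 22, (.negSucc (nat_lit 44564479)), (.ofNat (nat_lit 187547456)), (.negSucc (nat_lit 44564463)), (.ofNat (nat_lit 187547440)), (.ofNat (nat_lit 2671107914650955511324)), (.ofNat (nat_lit 0)), (.ofNat (nat_lit 2800859652713040326242074624))⟩,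
    ⟨nat_lit 23, nat_lit 16, (.negSucc (nat_lit 136970303)), (.negSucc (nat_lit 20185151)), (.negSucc (nat_lit 136970287)), (.negSucc (nat_lit 20185167)), (.negSucc (nat_lit 2671107914650955511323)), (.ofNat (nat_lit 0)), (.ofNat (nat_lit 1400429826356520163121037312))⟩]

theorem ok28 : stOK 23 23 S28 = true := by decide +kernel

def S29 : SD where
  vs := [
    ⟨nat_lit 0, nat_lit 0, nat_lit 22, (.ofNat (nat_lit 8)), (.negSucc (nat_lit 44564479)), (.ofNat (nat_lit 112362611849073922462896357376)), (.ofNat (nat_lit 0)), (.ofNat (nat_lit 1728655566908829576334409728)), (.negSucc (nat_lit 44564495)), (.negSucc (nat_lit 44564463)), (.negSucc (nat_lit 2712843975817376691187)), (.ofNat (nat_lit 2712843975817376691188)), (.negSucc (nat_lit 2712843975817376691187)), (.ofNat (nat_lit 2712843975817376691188)), (.ofNat (nat_lit 250416366998527079184))⟩,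
    ⟨nat_lit 2, nat_lit 0, nat_lit 1, (.ofNat (nat_lit 8)), (.negSucc (nat_lit 257818623)), (.ofNat (nat_lit 690887831717565289067745640448)), (.ofNat (nat_lit 0)), (.ofNat (nat_lit 10629043564885619831701766144)), (.negSucc (nat_lit 257818639)), (.negSucc (nat_lit 257818607)), (.negSucc (nat_lit 2712843975817376691187)), (.ofNat (nat_lit 2712843975817376691188)), (.negSucc (nat_lit 2712843975817376691187)), (.ofNat (nat_lit 2712843975817376691188)), (.ofNat (nat_lit 250416366998527079184))⟩,
    ⟨nat_lit 0, nat_lit 1, nat_lit 2, (.ofNat (nat_lit 8)), (.negSucc (nat_lit 127418559)), (.ofNat (nat_lit 1044642859786165661910769076480)), (.ofNat (nat_lit 0)), (.ofNat (nat_lit 16071428612094856336922877440)), (.negSucc (nat_lit 127418575)), (.negSucc (nat_lit 127418543)), (.ofNat (nat_lit 2712843975817376691188)), (.negSucc (nat_lit 2712843975817376691187)), (.negSucc (nat_lit 2712843975817376691187)), (.ofNat (nat_lit 2712843975817376691188)), (.ofNat (nat_lit 250416366998527079184))⟩,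
    ⟨nat_lit 0, nat_lit 2, nat_lit 3, (.ofNat (nat_lit 8)), (.ofNat (nat_lit 7192384)), (.ofNat (nat_lit 679464371276675413906355915008)), (.ofNat (nat_lit 0)), (.ofNat (nat_lit 10453298019641160213836045824)), (.ofNat (nat_lit 7192368)), (.ofNat (nat_lit 7192400)), (.negSucc (nat_lit 2712843975817376691187)), (.ofNat (nat_lit 2712843975817376691188)), (.negSucc (nat_lit 2712843975817376691187)), (.ofNat (nat_lit 2712843975817376691188)), (.ofNat (nat_lit 250416366998527079184))⟩,
    ⟨nat_lit 1, nat_lit 3, nat_lit 4, (.ofNat (nat_lit 8)), (.ofNat (nat_lit 196722496)), (.ofNat (nat_lit 1193629993851868109733406968064)), (.ofNat (nat_lit 0)), (.ofNat (nat_lit 18363538366951817072632110592)), (.ofNat (nat_lit 196722480)), (.ofNat (nat_lit 196722512)), (.ofNat (nat_lit 2712843975817376691188)), (.negSucc (nat_lit 2712843975817376691187)), (.negSucc (nat_lit 2712843975817376691187)), (.ofNat (nat_lit 2712843975817376691188)), (.ofNat (nat_lit 250416366998527079184))⟩,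
    ⟨nat_lit 0, nat_lit 5, nat_lit 4, (.ofNat (nat_lit 8)), (.ofNat (nat_lit 42450752)), (.ofNat (nat_lit 1612145165201108637387929159936)), (.ofNat (nat_lit 0)), (.ofNat (nat_lit 24802233310786286728789073408)), (.ofNat (nat_lit 42450736)), (.ofNat (nat_lit 42450768)), (.ofNat (nat_lit 2712843975817376691188)), (.negSucc (nat_lit 2712843975817376691187)), (.negSucc (nat_lit 2712843975817376691187)), (.ofNat (nat_lit 2712843975817376691188)), (.ofNat (nat_lit 250416366998527079184))⟩,
    ⟨nat_lit 2, nat_lit 6, nat_lit 5, (.ofNat (nat_lit 8)), (.negSucc (nat_lit 210157759)), (.ofNat (nat_lit 926857685181717127683444967680)), (.ofNat (nat_lit 0)), (.ofNat (nat_lit 14259349002795648118059671040)), (.negSucc (nat_lit 210157775)), (.negSucc (nat_lit 210157743)), (.negSucc (nat_lit 2712843975817376691187)), (.ofNat (nat_lit 2712843975817376691188)), (.negSucc (nat_lit 2712843975817376691187)), (.ofNat (nat_lit 2712843975817376691188)), (.ofNat (nat_lit 250416366998527079184))⟩,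
    ⟨nat_lit 0, nat_lit 7, nat_lit 8, (.ofNat (nat_lit 8)), (.negSucc (nat_lit 4014271)), (.ofNat (nat_lit 962682157155749398848434866432)), (.ofNat (nat_lit 0)), (.ofNat (nat_lit 14810494725473067674438442496)), (.negSucc (nat_lit 4014287)), (.negSucc (nat_lit 4014255)), (.ofNat (nat_lit 2712843975817376691188)), (.negSucc (nat_lit 2712843975817376691187)), (.negSucc (nat_lit 2712843975817376691187)), (.ofNat (nat_lit 2712843975817376691188)), (.ofNat (nat_lit 250416366998527079184))⟩,
    ⟨nat_lit 0, nat_lit 8, nat_lit 9, (.ofNat (nat_lit 8)), (.ofNat (nat_lit 152092480)), (.ofNat (nat_lit 539188895408132178426569165056)), (.ofNat (nat_lit 0)), (.ofNat (nat_lit 8295213775509725821861600768)), (.ofNat (nat_lit 152092464)), (.ofNat (nat_lit 152092496)), (.negSucc (nat_lit 2712843975817376691187)), (.ofNat (nat_lit 2712843975817376691188)), (.negSucc (nat_lit 2712843975817376691187)), (.ofNat (nat_lit 2712843975817376691188)), (.ofNat (nat_lit 250416366998527079184))⟩,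
    ⟨nat_lit 1, nat_lit 9, nat_lit 10, (.ofNat (nat_lit 8)), (.ofNat (nat_lit 273071936)), (.ofNat (nat_lit 867387283815395565873573398784)), (.ofNat (nat_lit 0)), (.ofNat (nat_lit 13344419751006085628686474752)), (.ofNat (nat_lit 273071920)), (.ofNat (nat_lit 273071952)), (.ofNat (nat_lit 2712843975817376691188)), (.negSucc (nat_lit 2712843975817376691187)), (.negSucc (nat_lit 2712843975817376691187)), (.ofNat (nat_lit 2712843975817376691188)), (.ofNat (nat_lit 250416366998527079184))⟩,
    ⟨nat_lit 0, nat_lit 11, nat_lit 10, (.ofNat (nat_lit 8)), (.ofNat (nat_lit 214089536)), (.ofNat (nat_lit 1027397332334646404823900489984)), (.ofNat (nat_lit 0)), (.ofNat (nat_lit 15806112805148406227896868352)), (.ofNat (nat_lit 214089520)), (.ofNat (nat_lit 214089552)), (.ofNat (nat_lit 2712843975817376691188)), (.negSucc (nat_lit 2712843975817376691187)), (.negSucc (nat_lit 2712843975817376691187)), (.ofNat (nat_lit 2712843975817376691188)), (.ofNat (nat_lit 250416366998527079184))⟩,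
    ⟨nat_lit 2, nat_lit 12, nat_lit 11, (.ofNat (nat_lit 8)), (.ofNat (nat_lit 170180416)), (.ofNat (nat_lit 908278740659204113605323655424)), (.ofNat (nat_lit 0)), (.ofNat (nat_lit 13973519087064678670706908672)), (.ofNat (nat_lit 170180400)), (.ofNat (nat_lit 170180432)), (.negSucc (nat_lit 2712843975817376691187)), (.ofNat (nat_lit 2712843975817376691188)), (.negSucc (nat_lit 2712843975817376691187)), (.ofNat (nat_lit 2712843975817376691188)), (.ofNat (nat_lit 250416366998527079184))⟩,
    ⟨nat_lit 1, nat_lit 13, nat_lit 12, (.ofNat (nat_lit 8)), (.ofNat (nat_lit 257998656)), (.ofNat (nat_lit 670041557308319531168169986304)), (.ofNat (nat_lit 0)), (.ofNat (nat_lit 10308331650897223556326989312)), (.ofNat (nat_lit 257998640)), (.ofNat (nat_lit 257998672)), (.ofNat (nat_lit 2712843975817376691188)), (.negSucc (nat_lit 2712843975817376691187)), (.negSucc (nat_lit 2712843975817376691187)), (.ofNat (nat_lit 2712843975817376691188)), (.ofNat (nat_lit 250416366998526907980))⟩,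
    ⟨nat_lit 0, nat_lit 14, nat_lit 13, (.ofNat (nat_lit 8)), (.ofNat (nat_lit 189448000)), (.ofNat (nat_lit 484074323140390222788123166976)), (.ofNat (nat_lit 0)), (.ofNat (nat_lit 7447297279082929438392425984)), (.ofNat (nat_lit 189447984)), (.ofNat (nat_lit 189448016)), (.negSucc (nat_lit 2712843975817376691187)), (.ofNat (nat_lit 2712843975817376691188)), (.negSucc (nat_lit 2712843975817376691187)), (.ofNat (nat_lit 2712843975817376691188)), (.ofNat (nat_lit 250416366998526934982))⟩,
    ⟨nat_lit 0, nat_lit 15, nat_lit 14, (.ofNat (nat_lit 8)), (.negSucc (nat_lit 12796095)), (.ofNat (nat_lit 1032731000618621432788911393024)), (.ofNat (nat_lit 0)), (.ofNat (nat_lit 15888169240286483552364502528)), (.negSucc (nat_lit 12796111)), (.negSucc (nat_lit 12796079)), (.ofNat (nat_lit 2712843975817376691188)), (.negSucc (nat_lit 2712843975817376691187)), (.negSucc (nat_lit 2712843975817376691187)), (.ofNat (nat_lit 2712843975817376691188)), (.ofNat (nat_lit 250416366998527048908))⟩,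
    ⟨nat_lit 0, nat_lit 6, nat_lit 15, (.ofNat (nat_lit 8)), (.negSucc (nat_lit 130990271)), (.ofNat (nat_lit 712088642280322668292339271936)), (.ofNat (nat_lit 0)), (.ofNat (nat_lit 10955209881235733358230609408)), (.negSucc (nat_lit 130990287)), (.negSucc (nat_lit 130990255)), (.negSucc (nat_lit 2712843975817376691187)), (.ofNat (nat_lit 2712843975817376691188)), (.negSucc (nat_lit 2712843975817376691187)), (.ofNat (nat_lit 2712843975817376691188)), (.ofNat (nat_lit 250416366998527078696))⟩,
    ⟨nat_lit 0, nat_lit 23, nat_lit 16, (.ofNat (nat_lit 8)), (.negSucc (nat_lit 20185151)), (.ofNat (nat_lit 285173290627850376217141379840)), (.ofNat (nat_lit 0)), (.ofNat (nat_lit 4387281394274621172526123520)), (.negSucc (nat_lit 20185167)), (.negSucc (nat_lit 20185135)), (.negSucc (nat_lit 2712843975817376691187)), (.ofNat (nat_lit 2712843975817376691188)), (.negSucc (nat_lit 2712843975817376691187)), (.ofNat (nat_lit 2712843975817376691188)), (.ofNat (nat_lit 250416366998527079184))⟩,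
    ⟨nat_lit 1, nat_lit 16, nat_lit 17, (.ofNat (nat_lit 8)), (.ofNat (nat_lit 211795776)), (.ofNat (nat_lit 914501353657174979564503042304)), (.ofNat (nat_lit 0)), (.ofNat (nat_lit 14069251594725768916231757312)), (.ofNat (nat_lit 211795760)), (.ofNat (nat_lit 211795792)), (.ofNat (nat_lit 2712843975817376691188)), (.negSucc (nat_lit 2712843975817376691187)), (.negSucc (nat_lit 2712843975817376691187)), (.ofNat (nat_lit 2712843975817376691188)), (.ofNat (nat_lit 250416366998527079184))⟩,
    ⟨nat_lit 0, nat_lit 18, nat_lit 17, (.ofNat (nat_lit 8)), (.ofNat (nat_lit 172474176)), (.ofNat (nat_lit 1021174719336675538864721103104)), (.ofNat (nat_lit 0)), (.ofNat (nat_lit 15710380297487315982372019712)), (.ofNat (nat_lit 172474160)), (.ofNat (nat_lit 172474192)), (.ofNat (nat_lit 2712843975817376691188)), (.negSucc (nat_lit 2712843975817376691187)), (.negSucc (nat_lit 2712843975817376691187)), (.ofNat (nat_lit 2712843975817376691188)), (.ofNat (nat_lit 250416366998527079184))⟩,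
    ⟨nat_lit 0, nat_lit 19, nat_lit 18, (.ofNat (nat_lit 8)), (.ofNat (nat_lit 4898624)), (.ofNat (nat_lit 566568392599203988646958467328)), (.ofNat (nat_lit 0)), (.ofNat (nat_lit 8716436809218522902170934784)), (.ofNat (nat_lit 4898608)), (.ofNat (nat_lit 4898640)), (.negSucc (nat_lit 2712843975817376691187)), (.ofNat (nat_lit 2712843975817376691188)), (.negSucc (nat_lit 2712843975817376691187)), (.ofNat (nat_lit 2712843975817376691188)), (.ofNat (nat_lit 250416366998527079184))⟩,
    ⟨nat_lit 2, nat_lit 19, nat_lit 20, (.ofNat (nat_lit 8)), (.negSucc (nat_lit 129712319)), (.ofNat (nat_lit 931746881108694236651371628800)), (.ofNat (nat_lit 0)), (.ofNat (nat_lit 14334567401672219025257766400)), (.negSucc (nat_lit 129712335)), (.negSucc (nat_lit 129712303)), (.negSucc (nat_lit 2712843975817376691187)), (.ofNat (nat_lit 2712843975817376691188)), (.negSucc (nat_lit 2712843975817376691187)), (.ofNat (nat_lit 2712843975817376691188)), (.ofNat (nat_lit 250416366998527079184))⟩,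
    ⟨nat_lit 0, nat_lit 20, nat_lit 21, (.ofNat (nat_lit 8)), (.negSucc (nat_lit 6045887)), (.ofNat (nat_lit 1267234616170723495650557430016)), (.ofNat (nat_lit 0)), (.ofNat (nat_lit 19495917171857284548268891648)), (.negSucc (nat_lit 6045903)), (.negSucc (nat_lit 6045871)), (.ofNat (nat_lit 2712843975817376691188)), (.negSucc (nat_lit 2712843975817376691187)), (.negSucc (nat_lit 2712843975817376691187)), (.ofNat (nat_lit 2712843975817376691188)), (.ofNat (nat_lit 250416366998527079184))⟩,
    ⟨nat_lit 1, nat_lit 22, nat_lit 21, (.ofNat (nat_lit 8)), (.ofNat (nat_lit 187547456)), (.ofNat (nat_lit 742046079141982408695817177344)), (.ofNat (nat_lit 0)), (.ofNat (nat_lit 11416093525261267825971666432)), (.ofNat (nat_lit 187547440)), (.ofNat (nat_lit 187547472)), (.ofNat (nat_lit 2712843975817376691188)), (.negSucc (nat_lit 2712843975817376691187)), (.negSucc (nat_lit 2712843975817376691187)), (.ofNat (nat_lit 2712843975817376691188)), (.ofNat (nat_lit 250416366998527079184))⟩,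
    ⟨nat_lit 2, nat_lit 23, nat_lit 7, (.ofNat (nat_lit 8)), (.negSucc (nat_lit 136970303)), (.ofNat (nat_lit 601993186695967037338789020416)), (.ofNat (nat_lit 0)), (.ofNat (nat_lit 9261433641476415958962702848)), (.negSucc (nat_lit 136970319)), (.negSucc (nat_lit 136970287)), (.negSucc (nat_lit 2712843975817376691187)), (.ofNat (nat_lit 2712843975817376691188)), (.negSucc (nat_lit 2712843975817376691187)), (.ofNat (nat_lit 2712843975817376691188)), (.ofNat (nat_lit 250416366998527079184))⟩]
  es := [
    ⟨nat_lit 1, nat_lit 0, (.negSucc (nat_lit 257818623)), (.negSucc (nat_lit 44564479)), (.negSucc (nat_lit 257818607)), (.negSucc (nat_lit 44564495)), (.negSucc (nat_lit 2712843975817376691187)), (.negSucc (nat_lit 41736061166421179863)), (.negSucc (nat_lit 131290296220923765291220991))⟩,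
    ⟨nat_lit 1, nat_lit 2, (.negSucc (nat_lit 257818623)), (.negSucc (nat_lit 127418559)), (.negSucc (nat_lit 257818607)), (.negSucc (nat_lit 127418575)), (.ofNat (nat_lit 2712843975817376691188)), (.ofNat (nat_lit 41736061166421179864)), (.ofNat (nat_lit 21389377425992163428694753280))⟩,
    ⟨nat_lit 2, nat_lit 3, (.negSucc (nat_lit 127418559)), (.ofNat (nat_lit 7192384)), (.negSucc (nat_lit 127418543)), (.ofNat (nat_lit 7192368)), (.negSucc (nat_lit 2712843975817376691187)), (.negSucc (nat_lit 41736061166421179863)), (.ofNat (nat_lit 10753479798197549245151001600))⟩,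
    ⟨nat_lit 3, nat_lit 4, (.ofNat (nat_lit 7192384)), (.ofNat (nat_lit 196722496)), (.ofNat (nat_lit 7192400)), (.ofNat (nat_lit 196722480)), (.ofNat (nat_lit 2712843975817376691188)), (.ofNat (nat_lit 41736061166421179864)), (.ofNat (nat_lit 10153116241084771182521090048))⟩,
    ⟨nat_lit 5, nat_lit 4, (.ofNat (nat_lit 42450752)), (.ofNat (nat_lit 196722496)), (.ofNat (nat_lit 42450768)), (.ofNat (nat_lit 196722480)), (.negSucc (nat_lit 2712843975817376691187)), (.negSucc (nat_lit 41736061166421179863)), (.ofNat (nat_lit 26573960492818862962743131136))⟩,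
    ⟨nat_lit 6, nat_lit 5, (.negSucc (nat_lit 210157759)), (.ofNat (nat_lit 42450752)), (.negSucc (nat_lit 210157743)), (.ofNat (nat_lit 42450736)), (.ofNat (nat_lit 2712843975817376691188)), (.ofNat (nat_lit 41736061166421179864)), (.ofNat (nat_lit 23030506128753710494835015680))⟩,
    ⟨nat_lit 6, nat_lit 15, (.negSucc (nat_lit 210157759)), (.negSucc (nat_lit 130990271)), (.negSucc (nat_lit 210157743)), (.negSucc (nat_lit 130990287)), (.negSucc (nat_lit 2712843975817376691187)), (.negSucc (nat_lit 41736061166421179863)), (.ofNat (nat_lit 5488191876837585741284326400))⟩,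
    ⟨nat_lit 23, nat_lit 7, (.negSucc (nat_lit 136970303)), (.negSucc (nat_lit 4014271)), (.negSucc (nat_lit 136970287)), (.negSucc (nat_lit 4014287)), (.ofNat (nat_lit 2712843975817376691188)), (.ofNat (nat_lit 41736061166421179864)), (.ofNat (nat_lit 14978034627203719556973461504))⟩,
    ⟨nat_lit 7, nat_lit 8, (.negSucc (nat_lit 4014271)), (.ofNat (nat_lit 152092480)), (.negSucc (nat_lit 4014255)), (.ofNat (nat_lit 152092464)), (.negSucc (nat_lit 2712843975817376691187)), (.negSucc (nat_lit 41736061166421179863)), (.ofNat (nat_lit 14642954823742415791903423488))⟩,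
    ⟨nat_lit 8, nat_lit 9, (.ofNat (nat_lit 152092480)), (.ofNat (nat_lit 273071936)), (.ofNat (nat_lit 152092496)), (.ofNat (nat_lit 273071920)), (.ofNat (nat_lit 2712843975817376691188)), (.ofNat (nat_lit 41736061166421179864)), (.ofNat (nat_lit 1947472727277035851819778048))⟩,
    ⟨nat_lit 10, nat_lit 9, (.ofNat (nat_lit 214089536)), (.ofNat (nat_lit 273071936)), (.ofNat (nat_lit 214089552)), (.ofNat (nat_lit 273071920)), (.negSucc (nat_lit 2712843975817376691187)), (.negSucc (nat_lit 41736061166421179863)), (.ofNat (nat_lit 24741366774735135405553171456))⟩,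
    ⟨nat_lit 11, nat_lit 10, (.ofNat (nat_lit 170180416)), (.ofNat (nat_lit 214089536)), (.ofNat (nat_lit 170180432)), (.ofNat (nat_lit 214089520)), (.ofNat (nat_lit 2712843975817376691188)), (.ofNat (nat_lit 41736061166421179864)), (.ofNat (nat_lit 6870858835561677050240565248))⟩,
    ⟨nat_lit 11, nat_lit 12, (.ofNat (nat_lit 170180416)), (.ofNat (nat_lit 257998656)), (.ofNat (nat_lit 170180432)), (.ofNat (nat_lit 257998640)), (.negSucc (nat_lit 2712843975817376691187)), (.negSucc (nat_lit 41736061166421179863)), (.ofNat (nat_lit 21076179338567680291173252096))⟩,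
    ⟨nat_lit 13, nat_lit 12, (.ofNat (nat_lit 189448000)), (.ofNat (nat_lit 257998656)), (.ofNat (nat_lit 189448016)), (.ofNat (nat_lit 257998640)), (.ofNat (nat_lit 2712843975817376691188)), (.ofNat (nat_lit 41736061166421137063)), (.negSucc (nat_lit 459516036773222135918798015))⟩,
    ⟨nat_lit 14, nat_lit 13, (.negSucc (nat_lit 12796095)), (.ofNat (nat_lit 189448000)), (.negSucc (nat_lit 12796079)), (.ofNat (nat_lit 189447984)), (.negSucc (nat_lit 2712843975817376691187)), (.negSucc (nat_lit 41736061166421165213)), (.ofNat (nat_lit 15354110594939086345854297984))⟩,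
    ⟨nat_lit 15, nat_lit 14, (.negSucc (nat_lit 130990271)), (.negSucc (nat_lit 12796095)), (.negSucc (nat_lit 130990255)), (.negSucc (nat_lit 12796111)), (.ofNat (nat_lit 2712843975817376691188)), (.ofNat (nat_lit 41736061166421179620)), (.ofNat (nat_lit 16422227885633880943215266048))⟩,
    ⟨nat_lit 16, nat_lit 17, (.negSucc (nat_lit 20185151)), (.ofNat (nat_lit 211795776)), (.negSucc (nat_lit 20185135)), (.ofNat (nat_lit 211795760)), (.ofNat (nat_lit 2712843975817376691188)), (.ofNat (nat_lit 41736061166421179864)), (.ofNat (nat_lit 5229730132800129984100302848))⟩,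
    ⟨nat_lit 18, nat_lit 17, (.ofNat (nat_lit 172474176)), (.ofNat (nat_lit 211795776)), (.ofNat (nat_lit 172474192)), (.ofNat (nat_lit 211795760)), (.negSucc (nat_lit 2712843975817376691187)), (.negSucc (nat_lit 41736061166421179863)), (.ofNat (nat_lit 22908773056651407848363211776))⟩,
    ⟨nat_lit 19, nat_lit 18, (.ofNat (nat_lit 4898624)), (.ofNat (nat_lit 172474176)), (.ofNat (nat_lit 4898640)), (.ofNat (nat_lit 172474160)), (.ofNat (nat_lit 2712843975817376691188)), (.ofNat (nat_lit 41736061166421179864)), (.ofNat (nat_lit 8511987538323224116380827648))⟩,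
    ⟨nat_lit 20, nat_lit 19, (.negSucc (nat_lit 129712319)), (.ofNat (nat_lit 4898624)), (.negSucc (nat_lit 129712303)), (.ofNat (nat_lit 4898608)), (.negSucc (nat_lit 2712843975817376691187)), (.negSucc (nat_lit 41736061166421179863)), (.ofNat (nat_lit 8920886080113821687961041920))⟩,
    ⟨nat_lit 20, nat_lit 21, (.negSucc (nat_lit 129712319)), (.negSucc (nat_lit 6045887)), (.negSucc (nat_lit 129712303)), (.negSucc (nat_lit 6045903)), (.ofNat (nat_lit 2712843975817376691188)), (.ofNat (nat_lit 41736061166421179864)), (.ofNat (nat_lit 19748248723230616362554490880))⟩,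
    ⟨nat_lit 21, nat_lit 22, (.negSucc (nat_lit 6045887)), (.ofNat (nat_lit 187547456)), (.negSucc (nat_lit 6045871)), (.ofNat (nat_lit 187547440)), (.negSucc (nat_lit 2712843975817376691187)), (.negSucc (nat_lit 41736061166421179863)), (.ofNat (nat_lit 19243585620483952733983292416))⟩,
    ⟨nat_lit 0, nat_lit 22, (.negSucc (nat_lit 44564479)), (.ofNat (nat_lit 187547456)), (.negSucc (nat_lit 44564463)), (.ofNat (nat_lit 187547440)), (.ofNat (nat_lit 2712843975817376691188)), (.ofNat (nat_lit 41736061166421179864)), (.ofNat (nat_lit 3588601430038582917960040448))⟩,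
    ⟨nat_lit 23, nat_lit 16, (.negSucc (nat_lit 136970303)), (.negSucc (nat_lit 20185151)), (.negSucc (nat_lit 136970287)), (.negSucc (nat_lit 20185167)), (.negSucc (nat_lit 2712843975817376691187)), (.negSucc (nat_lit 41736061166421179863)), (.ofNat (nat_lit 3544832655749112360951944192))⟩]

theorem ok29 : stOK 23 23 S29 = true := by decide +kernel

def S30 : SD where
  vs := [
    ⟨nat_lit 0, nat_lit 0, nat_lit 22, (.ofNat (nat_lit 8)), (.negSucc (nat_lit 44564479)), (.ofNat (nat_lit 114118277659215702501345460224)), (.ofNat (nat_lit 0)), (.ofNat (nat_lit 1755665810141780038449102848)), (.negSucc (nat_lit 44564495)), (.negSucc (nat_lit 44564463)), (.negSucc (nat_lit 2755232162939523201986)), (.ofNat (nat_lit 2755232162939523201987)), (.negSucc (nat_lit 2755232162939523201986)), (.ofNat (nat_lit 2755232162939523201987)), (.ofNat (nat_lit 254329122732879064794))⟩,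
    ⟨nat_lit 2, nat_lit 0, nat_lit 1, (.ofNat (nat_lit 8)), (.negSucc (nat_lit 257818623)), (.ofNat (nat_lit 701682954088152246709222244352)), (.ofNat (nat_lit 0)), (.ofNat (nat_lit 10795122370586957641476603904)), (.negSucc (nat_lit 257818639)), (.negSucc (nat_lit 257818607)), (.negSucc (nat_lit 2755232162939523201986)), (.ofNat (nat_lit 2755232162939523201987)), (.negSucc (nat_lit 2755232162939523201986)), (.ofNat (nat_lit 2755232162939523201987)), (.ofNat (nat_lit 254329122732879064794))⟩,
    ⟨nat_lit 0, nat_lit 1, nat_lit 2, (.ofNat (nat_lit 8)), (.negSucc (nat_lit 127418559)), (.ofNat (nat_lit 1060965404470324500377811971520)), (.ofNat (nat_lit 0)), (.ofNat (nat_lit 16322544684158838467042895040)), (.negSucc (nat_lit 127418575)), (.negSucc (nat_lit 127418543)), (.ofNat (nat_lit 2755232162939523201987)), (.negSucc (nat_lit 2755232162939523201986)), (.negSucc (nat_lit 2755232162939523201986)), (.ofNat (nat_lit 2755232162939523201987)), (.ofNat (nat_lit 254329122732879064794))⟩,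
    ⟨nat_lit 0, nat_lit 2, nat_lit 3, (.ofNat (nat_lit 8)), (.ofNat (nat_lit 7192384)), (.ofNat (nat_lit 690081002077873467248439225792)), (.ofNat (nat_lit 0)), (.ofNat (nat_lit 10616630801198053342083310784)), (.ofNat (nat_lit 7192368)), (.ofNat (nat_lit 7192400)), (.negSucc (nat_lit 2755232162939523201986)), (.ofNat (nat_lit 2755232162939523201987)), (.negSucc (nat_lit 2755232162939523201986)), (.ofNat (nat_lit 2755232162939523201987)), (.ofNat (nat_lit 254329122732879064794))⟩,
    ⟨nat_lit 1, nat_lit 3, nat_lit 4, (.ofNat (nat_lit 8)), (.ofNat (nat_lit 196722496)), (.ofNat (nat_lit 1212280462505803548947633958336)), (.ofNat (nat_lit 0)), (.ofNat (nat_lit 18650468653935439214226990272)), (.ofNat (nat_lit 196722480)), (.ofNat (nat_lit 196722512)), (.ofNat (nat_lit 2755232162939523201987)), (.negSucc (nat_lit 2755232162939523201986)), (.negSucc (nat_lit 2755232162939523201986)), (.ofNat (nat_lit 2755232162939523201987)), (.ofNat (nat_lit 254329122732879064794))⟩,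
    ⟨nat_lit 0, nat_lit 5, nat_lit 4, (.ofNat (nat_lit 8)), (.ofNat (nat_lit 42450752)), (.ofNat (nat_lit 1637334933407375959846632713664)), (.ofNat (nat_lit 0)), (.ofNat (nat_lit 25189768206267322458703553728)), (.ofNat (nat_lit 42450736)), (.ofNat (nat_lit 42450768)), (.ofNat (nat_lit 2755232162939523201987)), (.negSucc (nat_lit 2755232162939523201986)), (.negSucc (nat_lit 2755232162939523201986)), (.ofNat (nat_lit 2755232162939523201987)), (.ofNat (nat_lit 254329122732879064794))⟩,
    ⟨nat_lit 2, nat_lit 6, nat_lit 5, (.ofNat (nat_lit 8)), (.negSucc (nat_lit 210157759)), (.ofNat (nat_lit 941339836512681457803221200320)), (.ofNat (nat_lit 0)), (.ofNat (nat_lit 14482151330964330119776232640)), (.negSucc (nat_lit 210157775)), (.negSucc (nat_lit 210157743)), (.negSucc (nat_lit 2755232162939523201986)), (.ofNat (nat_lit 2755232162939523201987)), (.negSucc (nat_lit 2755232162939523201986)), (.ofNat (nat_lit 2755232162939523201987)), (.ofNat (nat_lit 254329122732879064794))⟩,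
    ⟨nat_lit 0, nat_lit 7, nat_lit 8, (.ofNat (nat_lit 8)), (.negSucc (nat_lit 4014271)), (.ofNat (nat_lit 977724065861307983205153336768)), (.ofNat (nat_lit 0)), (.ofNat (nat_lit 15041908705558584356718470336)), (.negSucc (nat_lit 4014287)), (.negSucc (nat_lit 4014255)), (.ofNat (nat_lit 2755232162939523201987)), (.negSucc (nat_lit 2755232162939523670177)), (.negSucc (nat_lit 2755232162939523670177)), (.ofNat (nat_lit 2755232162939523201987)), (.ofNat (nat_lit 254329122732880001176))⟩,
    ⟨nat_lit 0, nat_lit 8, nat_lit 9, (.ofNat (nat_lit 8)), (.ofNat (nat_lit 152092480)), (.ofNat (nat_lit 547613721898884170626546494912)), (.ofNat (nat_lit 0)), (.ofNat (nat_lit 8424826490751992199977329856)), (.ofNat (nat_lit 152092464)), (.ofNat (nat_lit 152092496)), (.negSucc (nat_lit 2755232162939523670177)), (.ofNat (nat_lit 2755232162939523579684)), (.negSucc (nat_lit 2755232162939523670177)), (.ofNat (nat_lit 2755232162939523579684)), (.ofNat (nat_lit 254329122732881692952))⟩,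
    ⟨nat_lit 1, nat_lit 9, nat_lit 10, (.ofNat (nat_lit 8)), (.ofNat (nat_lit 273071936)), (.ofNat (nat_lit 880940210125011094195889466816)), (.ofNat (nat_lit 0)), (.ofNat (nat_lit 13552926309615528322316068032)), (.ofNat (nat_lit 273071920)), (.ofNat (nat_lit 273071952)), (.ofNat (nat_lit 2755232162939523579684)), (.negSucc (nat_lit 2755232162939523666433)), (.negSucc (nat_lit 2755232162939523666433)), (.ofNat (nat_lit 2755232162939523579684)), (.ofNat (nat_lit 254329122732881504476))⟩,
    ⟨nat_lit 0, nat_lit 11, nat_lit 10, (.ofNat (nat_lit 8)), (.ofNat (nat_lit 214089536)), (.ofNat (nat_lit 1043450415652375254898966228416)), (.ofNat (nat_lit 0)), (.ofNat (nat_lit 16053083317728850075065738432)), (.ofNat (nat_lit 214089520)), (.ofNat (nat_lit 214089552)), (.ofNat (nat_lit 2755232162939523201987)), (.negSucc (nat_lit 2755232162939523666433)), (.negSucc (nat_lit 2755232162939523666433)), (.ofNat (nat_lit 2755232162939523201987)), (.ofNat (nat_lit 254329122732879993688))⟩,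
    ⟨nat_lit 2, nat_lit 12, nat_lit 11, (.ofNat (nat_lit 8)), (.ofNat (nat_lit 170180416)), (.ofNat (nat_lit 922470595982004177880134806976)), (.ofNat (nat_lit 0)), (.ofNat (nat_lit 14191855322800064274811151552)), (.ofNat (nat_lit 170180400)), (.ofNat (nat_lit 170180432)), (.negSucc (nat_lit 2755232162939523201986)), (.ofNat (nat_lit 2755232162939523201987)), (.negSucc (nat_lit 2755232162939523201986)), (.ofNat (nat_lit 2755232162939523201987)), (.ofNat (nat_lit 254329122732879064794))⟩,
    ⟨nat_lit 1, nat_lit 13, nat_lit 12, (.ofNat (nat_lit 8)), (.ofNat (nat_lit 257998656)), (.ofNat (nat_lit 680510956641262023842471964096)), (.ofNat (nat_lit 0)), (.ofNat (nat_lit 10469399332942492674301977792)), (.ofNat (nat_lit 257998640)), (.ofNat (nat_lit 257998672)), (.ofNat (nat_lit 2755232162939523201987)), (.negSucc (nat_lit 2755232162939523201986)), (.negSucc (nat_lit 2755232162939523201986)), (.ofNat (nat_lit 2755232162939523201987)), (.ofNat (nat_lit 254329122732879064794))⟩,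
    ⟨nat_lit 0, nat_lit 14, nat_lit 13, (.ofNat (nat_lit 8)), (.ofNat (nat_lit 189448000)), (.ofNat (nat_lit 491637984439458820019042610624)), (.ofNat (nat_lit 0)), (.ofNat (nat_lit 7563661299068597230919443648)), (.ofNat (nat_lit 189447984)), (.ofNat (nat_lit 189448016)), (.negSucc (nat_lit 2755232162939523201986)), (.ofNat (nat_lit 2755232162939523201987)), (.negSucc (nat_lit 2755232162939523201986)), (.ofNat (nat_lit 2755232162939523201987)), (.ofNat (nat_lit 254329122732879064794))⟩,
    ⟨nat_lit 0, nat_lit 15, nat_lit 14, (.ofNat (nat_lit 8)), (.negSucc (nat_lit 12796095)), (.ofNat (nat_lit 1048867422503287392675928829376)), (.ofNat (nat_lit 0)), (.ofNat (nat_lit 16136421884665959887017436352)), (.negSucc (nat_lit 12796111)), (.negSucc (nat_lit 12796079)), (.ofNat (nat_lit 2755232162939523201987)), (.negSucc (nat_lit 2755232162939523201986)), (.negSucc (nat_lit 2755232162939523201986)), (.ofNat (nat_lit 2755232162939523201987)), (.ofNat (nat_lit 254329122732879064794))⟩,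
    ⟨nat_lit 0, nat_lit 6, nat_lit 15, (.ofNat (nat_lit 8)), (.negSucc (nat_lit 130990271)), (.ofNat (nat_lit 723215027315952709984193801664)), (.ofNat (nat_lit 0)), (.ofNat (nat_lit 11126385035630041691854529728)), (.negSucc (nat_lit 130990287)), (.negSucc (nat_lit 130990255)), (.negSucc (nat_lit 2755232162939523201986)), (.ofNat (nat_lit 2755232162939523201987)), (.negSucc (nat_lit 2755232162939523201986)), (.ofNat (nat_lit 2755232162939523201987)), (.ofNat (nat_lit 254329122732879064794))⟩,
    ⟨nat_lit 0, nat_lit 23, nat_lit 16, (.ofNat (nat_lit 8)), (.negSucc (nat_lit 20185151)), (.ofNat (nat_lit 289629123293910538345448804160)), (.ofNat (nat_lit 0)), (.ofNat (nat_lit 4455832666060162128307424320)), (.negSucc (nat_lit 20185167)), (.negSucc (nat_lit 20185135)), (.negSucc (nat_lit 2755232162939523201986)), (.ofNat (nat_lit 2755232162939523201987)), (.negSucc (nat_lit 2755232162939523201986)), (.ofNat (nat_lit 2755232162939523201987)), (.ofNat (nat_lit 254329122732879064794))⟩,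
    ⟨nat_lit 1, nat_lit 16, nat_lit 17, (.ofNat (nat_lit 8)), (.ofNat (nat_lit 211795776)), (.ofNat (nat_lit 928790437308068338619924508096)), (.ofNat (nat_lit 0)), (.ofNat (nat_lit 14289083650893359055421465792)), (.ofNat (nat_lit 211795760)), (.ofNat (nat_lit 211795792)), (.ofNat (nat_lit 2755232162939523201987)), (.negSucc (nat_lit 2755232162939523201986)), (.negSucc (nat_lit 2755232162939523201986)), (.ofNat (nat_lit 2755232162939523201987)), (.ofNat (nat_lit 254329122732879064794))⟩,
    ⟨nat_lit 0, nat_lit 18, nat_lit 17, (.ofNat (nat_lit 8)), (.ofNat (nat_lit 172474176)), (.ofNat (nat_lit 1037130574326311094159176527296)), (.ofNat (nat_lit 0)), (.ofNat (nat_lit 15955854989635555294455424192)), (.ofNat (nat_lit 172474160)), (.ofNat (nat_lit 172474192)), (.ofNat (nat_lit 2755232162939523201987)), (.negSucc (nat_lit 2755232162939523201986)), (.negSucc (nat_lit 2755232162939523201986)), (.ofNat (nat_lit 2755232162939523201987)), (.ofNat (nat_lit 254329122732879064794))⟩,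
    ⟨nat_lit 0, nat_lit 19, nat_lit 18, (.ofNat (nat_lit 8)), (.ofNat (nat_lit 4898624)), (.ofNat (nat_lit 575421023733566550969397505472)), (.ofNat (nat_lit 0)), (.ofNat (nat_lit 8852631134362562322439038144)), (.ofNat (nat_lit 4898608)), (.ofNat (nat_lit 4898640)), (.negSucc (nat_lit 2755232162939523201986)), (.ofNat (nat_lit 2755232162939523201987)), (.negSucc (nat_lit 2755232162939523201986)), (.ofNat (nat_lit 2755232162939523201987)), (.ofNat (nat_lit 254329122732879064794))⟩,
    ⟨nat_lit 2, nat_lit 19, nat_lit 20, (.ofNat (nat_lit 8)), (.negSucc (nat_lit 129712319)), (.ofNat (nat_lit 946305426126017584098770251200)), (.ofNat (nat_lit 0)), (.ofNat (nat_lit 14558545017323347447398622400)), (.negSucc (nat_lit 129712335)), (.negSucc (nat_lit 129712303)), (.negSucc (nat_lit 2755232162939523201986)), (.ofNat (nat_lit 2755232162939523201987)), (.negSucc (nat_lit 2755232162939523201986)), (.ofNat (nat_lit 2755232162939523201987)), (.ofNat (nat_lit 254329122732879064794))⟩,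
    ⟨nat_lit 0, nat_lit 20, nat_lit 21, (.ofNat (nat_lit 8)), (.negSucc (nat_lit 6045887)), (.ofNat (nat_lit 1287035157048391050269717851584)), (.ofNat (nat_lit 0)), (.ofNat (nat_lit 19800540877667554619160421568)), (.negSucc (nat_lit 6045903)), (.negSucc (nat_lit 6045871)), (.ofNat (nat_lit 2755232162939523201987)), (.negSucc (nat_lit 2755232162939523201986)), (.negSucc (nat_lit 2755232162939523201986)), (.ofNat (nat_lit 2755232162939523201987)), (.ofNat (nat_lit 254329122732879064794))⟩,
    ⟨nat_lit 1, nat_lit 22, nat_lit 21, (.ofNat (nat_lit 8)), (.ofNat (nat_lit 187547456)), (.ofNat (nat_lit 753640549128575883831467077056)), (.ofNat (nat_lit 0)), (.ofNat (nat_lit 11594469986593475135649899712)), (.ofNat (nat_lit 187547440)), (.ofNat (nat_lit 187547472)), (.ofNat (nat_lit 2755232162939523201987)), (.negSucc (nat_lit 2755232162939523201986)), (.negSucc (nat_lit 2755232162939523201986)), (.ofNat (nat_lit 2755232162939523201987)), (.ofNat (nat_lit 254329122732879064794))⟩,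
    ⟨nat_lit 2, nat_lit 23, nat_lit 7, (.ofNat (nat_lit 8)), (.negSucc (nat_lit 136970303)), (.ofNat (nat_lit 611399330238091522297027301184)), (.ofNat (nat_lit 0)), (.ofNat (nat_lit 9406143542124484958238280768)), (.negSucc (nat_lit 136970319)), (.negSucc (nat_lit 136970287)), (.negSucc (nat_lit 2755232162939523201986)), (.ofNat (nat_lit 2755232162939523201987)), (.negSucc (nat_lit 2755232162939523201986)), (.ofNat (nat_lit 2755232162939523201987)), (.ofNat (nat_lit 254329122732879064794))⟩]
  es := [
    ⟨nat_lit 1, nat_lit 0, (.negSucc (nat_lit 257818623)), (.negSucc (nat_lit 44564479)), (.negSucc (nat_lit 257818607)), (.negSucc (nat_lit 44564495)), (.negSucc (nat_lit 2755232162939523201986)), (.negSucc (nat_lit 42388187122146510798)), (.negSucc (nat_lit 133341707099375699122716671))⟩,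
    ⟨nat_lit 1, nat_lit 2, (.negSucc (nat_lit 257818623)), (.negSucc (nat_lit 127418559)), (.negSucc (nat_lit 257818607)), (.negSucc (nat_lit 127418575)), (.ofNat (nat_lit 2755232162939523201987)), (.ofNat (nat_lit 42388187122146510799)), (.ofNat (nat_lit 21723586448273290982075924480))⟩,
    ⟨nat_lit 2, nat_lit 3, (.negSucc (nat_lit 127418559)), (.ofNat (nat_lit 7192384)), (.negSucc (nat_lit 127418543)), (.ofNat (nat_lit 7192368)), (.negSucc (nat_lit 2755232162939523201986)), (.negSucc (nat_lit 42388187122146510798)), (.ofNat (nat_lit 10921502920044385952009865600))⟩,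
    ⟨nat_lit 3, nat_lit 4, (.ofNat (nat_lit 7192384)), (.ofNat (nat_lit 196722496)), (.ofNat (nat_lit 7192400)), (.ofNat (nat_lit 196722480)), (.ofNat (nat_lit 2755232162939523201987)), (.ofNat (nat_lit 42388187122146510799)), (.ofNat (nat_lit 10311758682351720732156755968))⟩,
    ⟨nat_lit 5, nat_lit 4, (.ofNat (nat_lit 42450752)), (.ofNat (nat_lit 196722496)), (.ofNat (nat_lit 42450768)), (.ofNat (nat_lit 196722480)), (.negSucc (nat_lit 2755232162939523201986)), (.negSucc (nat_lit 42388187122146510798)), (.ofNat (nat_lit 26989178625519157696297224576))⟩,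
    ⟨nat_lit 6, nat_lit 5, (.negSucc (nat_lit 210157759)), (.ofNat (nat_lit 42450752)), (.negSucc (nat_lit 210157743)), (.ofNat (nat_lit 42450736)), (.ofNat (nat_lit 2755232162939523201987)), (.ofNat (nat_lit 42388187122146510799)), (.ofNat (nat_lit 23390357787015487221109882880))⟩,
    ⟨nat_lit 6, nat_lit 15, (.negSucc (nat_lit 210157759)), (.negSucc (nat_lit 130990271)), (.negSucc (nat_lit 210157743)), (.negSucc (nat_lit 130990287)), (.negSucc (nat_lit 2755232162939523201986)), (.negSucc (nat_lit 42388187122146510798)), (.ofNat (nat_lit 5573944874913173018442582400))⟩,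
    ⟨nat_lit 23, nat_lit 7, (.negSucc (nat_lit 136970303)), (.negSucc (nat_lit 4014271)), (.negSucc (nat_lit 136970287)), (.negSucc (nat_lit 4014287)), (.ofNat (nat_lit 2755232162939523201987)), (.ofNat (nat_lit 42388187122146510799)), (.ofNat (nat_lit 15212066418253777674916593664))⟩,
    ⟨nat_lit 7, nat_lit 8, (.negSucc (nat_lit 4014271)), (.ofNat (nat_lit 152092480)), (.negSucc (nat_lit 4014255)), (.ofNat (nat_lit 152092464)), (.negSucc (nat_lit 2755232162939523670177)), (.negSucc (nat_lit 42388187122146978989)), (.ofNat (nat_lit 14871750992863389159074325056))⟩,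
    ⟨nat_lit 8, nat_lit 9, (.ofNat (nat_lit 152092480)), (.ofNat (nat_lit 273071936)), (.ofNat (nat_lit 152092496)), (.ofNat (nat_lit 273071920)), (.ofNat (nat_lit 2755232162939523579684)), (.ofNat (nat_lit 42388187122146888496)), (.ofNat (nat_lit 1977901988640609004337219776))⟩,
    ⟨nat_lit 10, nat_lit 9, (.ofNat (nat_lit 214089536)), (.ofNat (nat_lit 273071936)), (.ofNat (nat_lit 214089552)), (.ofNat (nat_lit 273071920)), (.negSucc (nat_lit 2755232162939523666433)), (.negSucc (nat_lit 42388187122146975245)), (.ofNat (nat_lit 25127950630590471329285364288))⟩,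
    ⟨nat_lit 11, nat_lit 10, (.ofNat (nat_lit 170180416)), (.ofNat (nat_lit 214089536)), (.ofNat (nat_lit 170180432)), (.ofNat (nat_lit 214089520)), (.ofNat (nat_lit 2755232162939523201987)), (.ofNat (nat_lit 42388187122146510799)), (.ofNat (nat_lit 6978216004867328254088839168))⟩,
    ⟨nat_lit 11, nat_lit 12, (.ofNat (nat_lit 170180416)), (.ofNat (nat_lit 257998656)), (.ofNat (nat_lit 170180432)), (.ofNat (nat_lit 257998640)), (.negSucc (nat_lit 2755232162939523201986)), (.negSucc (nat_lit 42388187122146510798)), (.ofNat (nat_lit 21405494640732800295533463936))⟩,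
    ⟨nat_lit 13, nat_lit 12, (.ofNat (nat_lit 189448000)), (.ofNat (nat_lit 257998656)), (.ofNat (nat_lit 189448016)), (.ofNat (nat_lit 257998640)), (.ofNat (nat_lit 2755232162939523201987)), (.ofNat (nat_lit 42388187122146510799)), (.negSucc (nat_lit 466695974847814946929508351))⟩,
    ⟨nat_lit 14, nat_lit 13, (.negSucc (nat_lit 12796095)), (.ofNat (nat_lit 189448000)), (.negSucc (nat_lit 12796079)), (.ofNat (nat_lit 189447984)), (.negSucc (nat_lit 2755232162939523201986)), (.negSucc (nat_lit 42388187122146510798)), (.ofNat (nat_lit 15594018572985009408768395648))⟩,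
    ⟨nat_lit 15, nat_lit 14, (.negSucc (nat_lit 130990271)), (.negSucc (nat_lit 12796095)), (.negSucc (nat_lit 130990255)), (.negSucc (nat_lit 12796111)), (.ofNat (nat_lit 2755232162939523201987)), (.ofNat (nat_lit 42388187122146510799)), (.ofNat (nat_lit 16678825196346910365266477056))⟩,
    ⟨nat_lit 16, nat_lit 17, (.negSucc (nat_lit 20185151)), (.ofNat (nat_lit 211795776)), (.negSucc (nat_lit 20185135)), (.ofNat (nat_lit 211795760)), (.ofNat (nat_lit 2755232162939523201987)), (.ofNat (nat_lit 42388187122146510799)), (.ofNat (nat_lit 5311444666125132015054880768))⟩,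
    ⟨nat_lit 18, nat_lit 17, (.ofNat (nat_lit 172474176)), (.ofNat (nat_lit 211795776)), (.ofNat (nat_lit 172474192)), (.ofNat (nat_lit 211795760)), (.negSucc (nat_lit 2755232162939523201986)), (.negSucc (nat_lit 42388187122146510798)), (.ofNat (nat_lit 23266722635661586095788050816))⟩,
    ⟨nat_lit 19, nat_lit 18, (.ofNat (nat_lit 4898624)), (.ofNat (nat_lit 172474176)), (.ofNat (nat_lit 4898640)), (.ofNat (nat_lit 172474160)), (.ofNat (nat_lit 2755232162939523201987)), (.ofNat (nat_lit 42388187122146510799)), (.ofNat (nat_lit 8644987343609524493122797568))⟩,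
    ⟨nat_lit 20, nat_lit 19, (.negSucc (nat_lit 129712319)), (.ofNat (nat_lit 4898624)), (.negSucc (nat_lit 129712303)), (.ofNat (nat_lit 4898608)), (.negSucc (nat_lit 2755232162939523201986)), (.negSucc (nat_lit 42388187122146510798)), (.ofNat (nat_lit 9060274925115600151755278720))⟩,
    ⟨nat_lit 20, nat_lit 21, (.negSucc (nat_lit 129712319)), (.negSucc (nat_lit 6045887)), (.negSucc (nat_lit 129712303)), (.negSucc (nat_lit 6045903)), (.ofNat (nat_lit 2755232162939523201987)), (.ofNat (nat_lit 42388187122146510799)), (.ofNat (nat_lit 20056815109531094743041966080))⟩,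
    ⟨nat_lit 21, nat_lit 22, (.negSucc (nat_lit 6045887)), (.ofNat (nat_lit 187547456)), (.negSucc (nat_lit 6045871)), (.ofNat (nat_lit 187547440)), (.negSucc (nat_lit 2755232162939523201986)), (.negSucc (nat_lit 42388187122146510798)), (.ofNat (nat_lit 19544266645804014495278877056))⟩,
    ⟨nat_lit 0, nat_lit 22, (.negSucc (nat_lit 44564479)), (.ofNat (nat_lit 187547456)), (.negSucc (nat_lit 44564463)), (.ofNat (nat_lit 187547440)), (.ofNat (nat_lit 2755232162939523201987)), (.ofNat (nat_lit 42388187122146510799)), (.ofNat (nat_lit 3644673327382935776020922368))⟩,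
    ⟨nat_lit 23, nat_lit 16, (.negSucc (nat_lit 136970303)), (.negSucc (nat_lit 20185151)), (.negSucc (nat_lit 136970287)), (.negSucc (nat_lit 20185167)), (.negSucc (nat_lit 2755232162939523201986)), (.negSucc (nat_lit 42388187122146510798)), (.ofNat (nat_lit 3600220665995192241559967872))⟩]

theorem ok30 : stOK 23 23 S30 = true := by decide +kernel

def S31 : SD where
  vs := [
    ⟨nat_lit 0, nat_lit 0, nat_lit 22, (.ofNat (nat_lit 8)), (.negSucc (nat_lit 77922303)), (.ofNat (nat_lit 206026827229691640117144256512)), (.negSucc (nat_lit 33357823)), (.ofNat (nat_lit 91908549570475937615798796288)), (.negSucc (nat_lit 77922319)), (.negSucc (nat_lit 77922287)), (.negSucc (nat_lit 2755232162939523201986)), (.ofNat (nat_lit 2755232162939523201987)), (.negSucc (nat_lit 2755232162939523201986)), (.ofNat (nat_lit 2755232162939523201987)), (.ofNat (nat_lit 0))⟩,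
    ⟨nat_lit 2, nat_lit 0, nat_lit 1, (.ofNat (nat_lit 8)), (.negSucc (nat_lit 293273599)), (.ofNat (nat_lit 799369644299601131287114481664)), (.negSucc (nat_lit 35454975)), (.ofNat (nat_lit 97686690211448884577892237312)), (.negSucc (nat_lit 293273615)), (.negSucc (nat_lit 293273583)), (.negSucc (nat_lit 2755232162939523201986)), (.ofNat (nat_lit 2755232162939523201987)), (.negSucc (nat_lit 2755232162939523201986)), (.ofNat (nat_lit 2755232162939523201987)), (.ofNat (nat_lit 0))⟩,
    ⟨nat_lit 0, nat_lit 1, nat_lit 2, (.ofNat (nat_lit 8)), (.negSucc (nat_lit 161824959)), (.ofNat (nat_lit 1161541165002259858436750929344)), (.negSucc (nat_lit 34406399)), (.ofNat (nat_lit 100575760531935358058938957824)), (.negSucc (nat_lit 161824975)), (.negSucc (nat_lit 161824943)), (.ofNat (nat_lit 2755232162939523201987)), (.negSucc (nat_lit 2755232162939523201986)), (.negSucc (nat_lit 2755232162939523201986)), (.ofNat (nat_lit 2755232162939523201987)), (.ofNat (nat_lit 0))⟩,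
    ⟨nat_lit 0, nat_lit 2, nat_lit 3, (.ofNat (nat_lit 8)), (.negSucc (nat_lit 26165439)), (.ofNat (nat_lit 787767692289322351826331463104)), (.negSucc (nat_lit 33357823)), (.ofNat (nat_lit 97686690211448884577892237312)), (.negSucc (nat_lit 26165455)), (.negSucc (nat_lit 26165423)), (.negSucc (nat_lit 2755232162939523201986)), (.ofNat (nat_lit 2755232162939523201987)), (.negSucc (nat_lit 2755232162939523201986)), (.ofNat (nat_lit 2755232162939523201987)), (.ofNat (nat_lit 0))⟩,
    ⟨nat_lit 1, nat_lit 3, nat_lit 4, (.ofNat (nat_lit 8)), (.ofNat (nat_lit 165199680)), (.ofNat (nat_lit 1315023025778103762117357956544)), (.negSucc (nat_lit 31522815)), (.ofNat (nat_lit 102742563272300213169723998208)), (.ofNat (nat_lit 165199664)), (.ofNat (nat_lit 165199696)), (.ofNat (nat_lit 2755232162939523201987)), (.negSucc (nat_lit 2755232162939523201986)), (.negSucc (nat_lit 2755232162939523201986)), (.ofNat (nat_lit 2755232162939523201987)), (.ofNat (nat_lit 0))⟩,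
    ⟨nat_lit 0, nat_lit 5, nat_lit 4, (.ofNat (nat_lit 8)), (.ofNat (nat_lit 9617216)), (.ofNat (nat_lit 1743688834580284264867665112512)), (.negSucc (nat_lit 32833535)), (.ofNat (nat_lit 106353901172908305021032398848)), (.ofNat (nat_lit 9617200)), (.ofNat (nat_lit 9617232)), (.ofNat (nat_lit 2755232162939523201987)), (.negSucc (nat_lit 2755232162939523201986)), (.negSucc (nat_lit 2755232162939523201986)), (.ofNat (nat_lit 2755232162939523201987)), (.ofNat (nat_lit 0))⟩,
    ⟨nat_lit 2, nat_lit 6, nat_lit 5, (.ofNat (nat_lit 8)), (.negSucc (nat_lit 245350591)), (.ofNat (nat_lit 1041193329464495197491898478016)), (.negSucc (nat_lit 35192831)), (.ofNat (nat_lit 99853492951813739688677277696)), (.negSucc (nat_lit 245350607)), (.negSucc (nat_lit 245350575)), (.negSucc (nat_lit 2755232162939523201986)), (.ofNat (nat_lit 2755232162939523201987)), (.negSucc (nat_lit 2755232162939523201986)), (.ofNat (nat_lit 2755232162939523201987)), (.ofNat (nat_lit 0))⟩,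
    ⟨nat_lit 0, nat_lit 7, nat_lit 8, (.ofNat (nat_lit 8)), (.negSucc (nat_lit 37372095)), (.ofNat (nat_lit 1076855291233000104523568934336)), (.negSucc (nat_lit 33357823)), (.ofNat (nat_lit 99131225371692121318415597568)), (.negSucc (nat_lit 37372111)), (.negSucc (nat_lit 37372079)), (.ofNat (nat_lit 2755232162939523201987)), (.negSucc (nat_lit 2755232162939523670177)), (.negSucc (nat_lit 2755232162939523670177)), (.ofNat (nat_lit 2755232162939523201987)), (.ofNat (nat_lit 0))⟩,
    ⟨nat_lit 0, nat_lit 8, nat_lit 9, (.ofNat (nat_lit 8)), (.ofNat (nat_lit 153403200)), (.ofNat (nat_lit 551225059799492246246354611648)), (.ofNat (nat_lit 1310720)), (.ofNat (nat_lit 3611337900608075619808116736)), (.ofNat (nat_lit 153403184)), (.ofNat (nat_lit 153403216)), (.negSucc (nat_lit 2755232162939523670177)), (.ofNat (nat_lit 2755232162939523579684)), (.negSucc (nat_lit 2755232162939523670177)), (.ofNat (nat_lit 2755232162939523579684)), (.ofNat (nat_lit 0))⟩,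
    ⟨nat_lit 1, nat_lit 9, nat_lit 10, (.ofNat (nat_lit 8)), (.ofNat (nat_lit 275693376)), (.ofNat (nat_lit 888162885926227262162060996032)), (.ofNat (nat_lit 2621440)), (.ofNat (nat_lit 7222675801216167966171529216)), (.ofNat (nat_lit 275693360)), (.ofNat (nat_lit 275693392)), (.ofNat (nat_lit 2755232162939523579684)), (.negSucc (nat_lit 2755232162939523666433)), (.negSucc (nat_lit 2755232162939523666433)), (.ofNat (nat_lit 2755232162939523579684)), (.ofNat (nat_lit 0))⟩,
    ⟨nat_lit 0, nat_lit 11, nat_lit 10, (.ofNat (nat_lit 8)), (.ofNat (nat_lit 182828864)), (.ofNat (nat_lit 1144026176184310612957905186240)), (.negSucc (nat_lit 31260671)), (.ofNat (nat_lit 100575760531935358058938957824)), (.ofNat (nat_lit 182828848)), (.ofNat (nat_lit 182828880)), (.ofNat (nat_lit 2755232162939523201987)), (.negSucc (nat_lit 2755232162939523666433)), (.negSucc (nat_lit 2755232162939523666433)), (.ofNat (nat_lit 2755232162939523201987)), (.ofNat (nat_lit 0))⟩,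
    ⟨nat_lit 2, nat_lit 12, nat_lit 11, (.ofNat (nat_lit 8)), (.ofNat (nat_lit 138395456)), (.ofNat (nat_lit 1021601821353696299198550404544)), (.negSucc (nat_lit 31784959)), (.ofNat (nat_lit 99131225371692121318415597568)), (.ofNat (nat_lit 138395440)), (.ofNat (nat_lit 138395472)), (.negSucc (nat_lit 2755232162939523201986)), (.ofNat (nat_lit 2755232162939523201987)), (.negSucc (nat_lit 2755232162939523201986)), (.ofNat (nat_lit 2755232162939523201987)), (.ofNat (nat_lit 0))⟩,
    ⟨nat_lit 1, nat_lit 13, nat_lit 12, (.ofNat (nat_lit 8)), (.ofNat (nat_lit 227000128)), (.ofNat (nat_lit 777475379272589290050102521280)), (.negSucc (nat_lit 30998527)), (.ofNat (nat_lit 96964422631327266207630557184)), (.ofNat (nat_lit 227000112)), (.ofNat (nat_lit 227000144)), (.ofNat (nat_lit 2755232162939523201987)), (.negSucc (nat_lit 2755232162939523201986)), (.negSucc (nat_lit 2755232162939523201986)), (.ofNat (nat_lit 2755232162939523201987)), (.ofNat (nat_lit 0))⟩,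
    ⟨nat_lit 0, nat_lit 14, nat_lit 13, (.ofNat (nat_lit 8)), (.ofNat (nat_lit 157925184)), (.ofNat (nat_lit 587157871910542849486149807552)), (.negSucc (nat_lit 31522815)), (.ofNat (nat_lit 95519887471084029467107196928)), (.ofNat (nat_lit 157925168)), (.ofNat (nat_lit 157925200)), (.negSucc (nat_lit 2755232162939523201986)), (.ofNat (nat_lit 2755232162939523201987)), (.negSucc (nat_lit 2755232162939523201986)), (.ofNat (nat_lit 2755232162939523201987)), (.ofNat (nat_lit 0))⟩,
    ⟨nat_lit 0, nat_lit 15, nat_lit 14, (.ofNat (nat_lit 8)), (.negSucc (nat_lit 46153919)), (.ofNat (nat_lit 1149443183035222750734867787200)), (.negSucc (nat_lit 33357823)), (.ofNat (nat_lit 100575760531935358058938957824)), (.negSucc (nat_lit 46153935)), (.negSucc (nat_lit 46153903)), (.ofNat (nat_lit 2755232162939523201987)), (.negSucc (nat_lit 2755232162939523201986)), (.negSucc (nat_lit 2755232162939523201986)), (.ofNat (nat_lit 2755232162939523201987)), (.ofNat (nat_lit 0))⟩,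
    ⟨nat_lit 0, nat_lit 6, nat_lit 15, (.ofNat (nat_lit 8)), (.negSucc (nat_lit 165396671)), (.ofNat (nat_lit 820901717527401594562086038976)), (.negSucc (nat_lit 34406399)), (.ofNat (nat_lit 97686690211448884577892237312)), (.negSucc (nat_lit 165396687)), (.negSucc (nat_lit 165396655)), (.negSucc (nat_lit 2755232162939523201986)), (.ofNat (nat_lit 2755232162939523201987)), (.negSucc (nat_lit 2755232162939523201986)), (.ofNat (nat_lit 2755232162939523201987)), (.ofNat (nat_lit 0))⟩,
    ⟨nat_lit 0, nat_lit 23, nat_lit 16, (.ofNat (nat_lit 8)), (.negSucc (nat_lit 53542975)), (.ofNat (nat_lit 382982208024629712701770960704)), (.negSucc (nat_lit 33357823)), (.ofNat (nat_lit 93353084730719174356322156544)), (.negSucc (nat_lit 53542991)), (.negSucc (nat_lit 53542959)), (.negSucc (nat_lit 2755232162939523201986)), (.ofNat (nat_lit 2755232162939523201987)), (.negSucc (nat_lit 2755232162939523201986)), (.ofNat (nat_lit 2755232162939523201987)), (.ofNat (nat_lit 0))⟩,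
    ⟨nat_lit 1, nat_lit 16, nat_lit 17, (.ofNat (nat_lit 8)), (.ofNat (nat_lit 180535104)), (.ofNat (nat_lit 1027921662679760459938340105664)), (.negSucc (nat_lit 31260671)), (.ofNat (nat_lit 99131225371692121318415597568)), (.ofNat (nat_lit 180535088)), (.ofNat (nat_lit 180535120)), (.ofNat (nat_lit 2755232162939523201987)), (.negSucc (nat_lit 2755232162939523201986)), (.negSucc (nat_lit 2755232162939523201986)), (.ofNat (nat_lit 2755232162939523201987)), (.ofNat (nat_lit 0))⟩,
    ⟨nat_lit 0, nat_lit 18, nat_lit 17, (.ofNat (nat_lit 8)), (.ofNat (nat_lit 140689216)), (.ofNat (nat_lit 1137706334858246452218115485120)), (.negSucc (nat_lit 31784959)), (.ofNat (nat_lit 100575760531935358058938957824)), (.ofNat (nat_lit 140689200)), (.ofNat (nat_lit 140689232)), (.ofNat (nat_lit 2755232162939523201987)), (.negSucc (nat_lit 2755232162939523201986)), (.negSucc (nat_lit 2755232162939523201986)), (.ofNat (nat_lit 2755232162939523201987)), (.ofNat (nat_lit 0))⟩,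
    ⟨nat_lit 0, nat_lit 19, nat_lit 18, (.ofNat (nat_lit 8)), (.negSucc (nat_lit 28459199)), (.ofNat (nat_lit 671663178784772198806766382528)), (.negSucc (nat_lit 33357823)), (.ofNat (nat_lit 96242155051205647837368877056)), (.negSucc (nat_lit 28459215)), (.negSucc (nat_lit 28459183)), (.negSucc (nat_lit 2755232162939523201986)), (.ofNat (nat_lit 2755232162939523201987)), (.negSucc (nat_lit 2755232162939523201986)), (.ofNat (nat_lit 2755232162939523201987)), (.ofNat (nat_lit 0))⟩,
    ⟨nat_lit 2, nat_lit 19, nat_lit 20, (.ofNat (nat_lit 8)), (.negSucc (nat_lit 164118719)), (.ofNat (nat_lit 1045436651497709705417185848768)), (.negSucc (nat_lit 34406399)), (.ofNat (nat_lit 99131225371692121318415597568)), (.negSucc (nat_lit 164118735)), (.negSucc (nat_lit 164118703)), (.negSucc (nat_lit 2755232162939523201986)), (.ofNat (nat_lit 2755232162939523201987)), (.negSucc (nat_lit 2755232162939523201986)), (.ofNat (nat_lit 2755232162939523201987)), (.ofNat (nat_lit 0))⟩,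
    ⟨nat_lit 0, nat_lit 20, nat_lit 21, (.ofNat (nat_lit 8)), (.negSucc (nat_lit 39403711)), (.ofNat (nat_lit 1389055452740569645069180169664)), (.negSucc (nat_lit 33357823)), (.ofNat (nat_lit 102020295692178594799462318080)), (.negSucc (nat_lit 39403727)), (.negSucc (nat_lit 39403695)), (.ofNat (nat_lit 2755232162939523201987)), (.negSucc (nat_lit 2755232162939523201986)), (.negSucc (nat_lit 2755232162939523201986)), (.ofNat (nat_lit 2755232162939523201987)), (.ofNat (nat_lit 0))⟩,
    ⟨nat_lit 1, nat_lit 22, nat_lit 21, (.ofNat (nat_lit 8)), (.ofNat (nat_lit 156024640)), (.ofNat (nat_lit 850604971759903150039097634240)), (.negSucc (nat_lit 31522815)), (.ofNat (nat_lit 96964422631327266207630557184)), (.ofNat (nat_lit 156024624)), (.ofNat (nat_lit 156024656)), (.ofNat (nat_lit 2755232162939523201987)), (.negSucc (nat_lit 2755232162939523201986)), (.negSucc (nat_lit 2755232162939523201986)), (.ofNat (nat_lit 2755232162939523201987)), (.ofNat (nat_lit 0))⟩,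
    ⟨nat_lit 2, nat_lit 23, nat_lit 7, (.ofNat (nat_lit 8)), (.negSucc (nat_lit 171376703)), (.ofNat (nat_lit 707641485289297170134396178240)), (.negSucc (nat_lit 34406399)), (.ofNat (nat_lit 96242155051205647837368877056)), (.negSucc (nat_lit 171376719)), (.negSucc (nat_lit 171376687)), (.negSucc (nat_lit 2755232162939523201986)), (.ofNat (nat_lit 2755232162939523201987)), (.negSucc (nat_lit 2755232162939523201986)), (.ofNat (nat_lit 2755232162939523201987)), (.ofNat (nat_lit 0))⟩]
  es := [
    ⟨nat_lit 1, nat_lit 0, (.negSucc (nat_lit 293273599)), (.negSucc (nat_lit 77922303)), (.negSucc (nat_lit 293273583)), (.negSucc (nat_lit 77922319)), (.negSucc (nat_lit 2755232162939523201986)), (.ofNat (nat_lit 0)), (.ofNat (nat_lit 0))⟩,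
    ⟨nat_lit 1, nat_lit 2, (.negSucc (nat_lit 293273599)), (.negSucc (nat_lit 161824959)), (.negSucc (nat_lit 293273583)), (.negSucc (nat_lit 161824975)), (.ofNat (nat_lit 2755232162939523201987)), (.ofNat (nat_lit 0)), (.ofNat (nat_lit 195373380422897769155784474624))⟩,
    ⟨nat_lit 2, nat_lit 3, (.negSucc (nat_lit 161824959)), (.negSucc (nat_lit 26165439)), (.negSucc (nat_lit 161824943)), (.negSucc (nat_lit 26165455)), (.negSucc (nat_lit 2755232162939523201986)), (.ofNat (nat_lit 0)), (.ofNat (nat_lit 5778140640972946962093441024))⟩,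
    ⟨nat_lit 3, nat_lit 4, (.negSucc (nat_lit 26165439)), (.ofNat (nat_lit 165199680)), (.negSucc (nat_lit 26165423)), (.ofNat (nat_lit 165199664)), (.ofNat (nat_lit 2755232162939523201987)), (.ofNat (nat_lit 0)), (.ofNat (nat_lit 189595239781924822193691033600))⟩,
    ⟨nat_lit 5, nat_lit 4, (.ofNat (nat_lit 9617216)), (.ofNat (nat_lit 165199680)), (.ofNat (nat_lit 9617232)), (.ofNat (nat_lit 165199664)), (.negSucc (nat_lit 2755232162939523201986)), (.ofNat (nat_lit 0)), (.ofNat (nat_lit 15889886762675604145756962816))⟩,
    ⟨nat_lit 6, nat_lit 5, (.negSucc (nat_lit 245350591)), (.ofNat (nat_lit 9617216)), (.negSucc (nat_lit 245350575)), (.ofNat (nat_lit 9617200)), (.ofNat (nat_lit 2755232162939523201987)), (.ofNat (nat_lit 0)), (.ofNat (nat_lit 196817915583141005896307834880))⟩,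
    ⟨nat_lit 6, nat_lit 15, (.negSucc (nat_lit 245350591)), (.negSucc (nat_lit 165396671)), (.negSucc (nat_lit 245350575)), (.negSucc (nat_lit 165396687)), (.negSucc (nat_lit 2755232162939523201986)), (.ofNat (nat_lit 0)), (.ofNat (nat_lit 2889070320486473481046720512))⟩,
    ⟨nat_lit 23, nat_lit 7, (.negSucc (nat_lit 171376703)), (.negSucc (nat_lit 37372095)), (.negSucc (nat_lit 171376687)), (.negSucc (nat_lit 37372111)), (.ofNat (nat_lit 2755232162939523201987)), (.ofNat (nat_lit 0)), (.ofNat (nat_lit 191039774942168058934214393856))⟩,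
    ⟨nat_lit 7, nat_lit 8, (.negSucc (nat_lit 37372095)), (.ofNat (nat_lit 153403200)), (.negSucc (nat_lit 37372079)), (.ofNat (nat_lit 153403184)), (.negSucc (nat_lit 2755232162939523670177)), (.ofNat (nat_lit 0)), (.ofNat (nat_lit 7222675801216168084783824896))⟩,
    ⟨nat_lit 8, nat_lit 9, (.ofNat (nat_lit 153403200)), (.ofNat (nat_lit 275693376)), (.ofNat (nat_lit 153403216)), (.ofNat (nat_lit 275693360)), (.ofNat (nat_lit 2755232162939523579684)), (.ofNat (nat_lit 0)), (.negSucc (nat_lit 16726555295743))⟩,
    ⟨nat_lit 10, nat_lit 9, (.ofNat (nat_lit 182828864)), (.ofNat (nat_lit 275693376)), (.ofNat (nat_lit 182828880)), (.ofNat (nat_lit 275693360)), (.negSucc (nat_lit 2755232162939523666433)), (.ofNat (nat_lit 0)), (.ofNat (nat_lit 14445351602432352886308274176))⟩,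
    ⟨nat_lit 11, nat_lit 10, (.ofNat (nat_lit 138395456)), (.ofNat (nat_lit 182828864)), (.ofNat (nat_lit 138395472)), (.ofNat (nat_lit 182828848)), (.ofNat (nat_lit 2755232162939523201987)), (.ofNat (nat_lit 0)), (.ofNat (nat_lit 186706169461438348712644313088))⟩,
    ⟨nat_lit 11, nat_lit 12, (.ofNat (nat_lit 138395456)), (.ofNat (nat_lit 227000128)), (.ofNat (nat_lit 138395472)), (.ofNat (nat_lit 227000112)), (.negSucc (nat_lit 2755232162939523201986)), (.ofNat (nat_lit 0)), (.ofNat (nat_lit 11556281281945893924186882048))⟩,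
    ⟨nat_lit 13, nat_lit 12, (.ofNat (nat_lit 157925184)), (.ofNat (nat_lit 227000128)), (.ofNat (nat_lit 157925200)), (.ofNat (nat_lit 227000112)), (.ofNat (nat_lit 2755232162939523201987)), (.ofNat (nat_lit 0)), (.ofNat (nat_lit 182372563980708638491074232320))⟩,
    ⟨nat_lit 14, nat_lit 13, (.negSucc (nat_lit 46153919)), (.ofNat (nat_lit 157925184)), (.negSucc (nat_lit 46153903)), (.ofNat (nat_lit 157925168)), (.negSucc (nat_lit 2755232162939523201986)), (.ofNat (nat_lit 0)), (.ofNat (nat_lit 8667210961459420443140161536))⟩,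
    ⟨nat_lit 15, nat_lit 14, (.negSucc (nat_lit 165396671)), (.negSucc (nat_lit 46153919)), (.negSucc (nat_lit 165396655)), (.negSucc (nat_lit 46153935)), (.ofNat (nat_lit 2755232162939523201987)), (.ofNat (nat_lit 0)), (.ofNat (nat_lit 192484310102411295674737754112))⟩,
    ⟨nat_lit 16, nat_lit 17, (.negSucc (nat_lit 53542975)), (.ofNat (nat_lit 180535104)), (.negSucc (nat_lit 53542959)), (.ofNat (nat_lit 180535088)), (.ofNat (nat_lit 2755232162939523201987)), (.ofNat (nat_lit 0)), (.ofNat (nat_lit 185261634301195111972120952832))⟩,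
    ⟨nat_lit 18, nat_lit 17, (.ofNat (nat_lit 140689216)), (.ofNat (nat_lit 180535104)), (.ofNat (nat_lit 140689232)), (.ofNat (nat_lit 180535088)), (.negSucc (nat_lit 2755232162939523201986)), (.ofNat (nat_lit 0)), (.ofNat (nat_lit 13000816442189130664710242304))⟩,
    ⟨nat_lit 19, nat_lit 18, (.negSucc (nat_lit 28459199)), (.ofNat (nat_lit 140689216)), (.negSucc (nat_lit 28459183)), (.ofNat (nat_lit 140689200)), (.ofNat (nat_lit 2755232162939523201987)), (.ofNat (nat_lit 0)), (.ofNat (nat_lit 188150704621681585453167673344))⟩,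
    ⟨nat_lit 20, nat_lit 19, (.negSucc (nat_lit 164118719)), (.negSucc (nat_lit 28459199)), (.negSucc (nat_lit 164118703)), (.negSucc (nat_lit 28459215)), (.negSucc (nat_lit 2755232162939523201986)), (.ofNat (nat_lit 0)), (.ofNat (nat_lit 4333605480729710221570080768))⟩,
    ⟨nat_lit 20, nat_lit 21, (.negSucc (nat_lit 164118719)), (.negSucc (nat_lit 39403711)), (.negSucc (nat_lit 164118703)), (.negSucc (nat_lit 39403727)), (.ofNat (nat_lit 2755232162939523201987)), (.ofNat (nat_lit 0)), (.ofNat (nat_lit 193928845262654532415261114368))⟩,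
    ⟨nat_lit 21, nat_lit 22, (.negSucc (nat_lit 39403711)), (.ofNat (nat_lit 156024640)), (.negSucc (nat_lit 39403695)), (.ofNat (nat_lit 156024624)), (.negSucc (nat_lit 2755232162939523201986)), (.ofNat (nat_lit 0)), (.ofNat (nat_lit 10111746121702657183663521792))⟩,
    ⟨nat_lit 0, nat_lit 22, (.negSucc (nat_lit 77922303)), (.ofNat (nat_lit 156024640)), (.negSucc (nat_lit 77922287)), (.ofNat (nat_lit 156024624)), (.ofNat (nat_lit 2755232162939523201987)), (.ofNat (nat_lit 0)), (.ofNat (nat_lit 183817099140951875231597592576))⟩,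
    ⟨nat_lit 23, nat_lit 16, (.negSucc (nat_lit 171376703)), (.negSucc (nat_lit 53542975)), (.negSucc (nat_lit 171376687)), (.negSucc (nat_lit 53542991)), (.negSucc (nat_lit 2755232162939523201986)), (.ofNat (nat_lit 0)), (.ofNat (nat_lit 1444535160243236740523360256))⟩]

theorem ok31 : stOK 23 23 S31 = true := by decide +kernel

def S32 : SD where
  vs := [
    ⟨nat_lit 0, nat_lit 0, nat_lit 22, (.ofNat (nat_lit 8)), (.negSucc (nat_lit 77922303)), (.ofNat (nat_lit 209245996405155571993971130368)), (.ofNat (nat_lit 0)), (.ofNat (nat_lit 3219169175463931876826873856)), (.negSucc (nat_lit 77922319)), (.negSucc (nat_lit 77922287)), (.negSucc (nat_lit 2798282665485453252017)), (.ofNat (nat_lit 2798282665485453252018)), (.negSucc (nat_lit 2798282665485453252017)), (.ofNat (nat_lit 2798282665485453252018)), (.ofNat (nat_lit 258303015275580300186))⟩,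
    ⟨nat_lit 2, nat_lit 0, nat_lit 1, (.ofNat (nat_lit 8)), (.negSucc (nat_lit 293273599)), (.ofNat (nat_lit 811859794991782398963462045696)), (.ofNat (nat_lit 0)), (.ofNat (nat_lit 12490150692181267676347564032)), (.negSucc (nat_lit 293273615)), (.negSucc (nat_lit 293273583)), (.negSucc (nat_lit 2798282665485453252017)), (.ofNat (nat_lit 2798282665485453252018)), (.negSucc (nat_lit 2798282665485453252017)), (.ofNat (nat_lit 2798282665485453252018)), (.ofNat (nat_lit 258303015275580300186))⟩,
    ⟨nat_lit 0, nat_lit 1, nat_lit 2, (.ofNat (nat_lit 8)), (.negSucc (nat_lit 161824959)), (.ofNat (nat_lit 1179690245705420168724805401216)), (.ofNat (nat_lit 0)), (.ofNat (nat_lit 18149080703160310288054471872)), (.negSucc (nat_lit 161824975)), (.negSucc (nat_lit 161824943)), (.ofNat (nat_lit 2798282665485453252018)), (.negSucc (nat_lit 2798282665485453252017)), (.negSucc (nat_lit 2798282665485453252017)), (.ofNat (nat_lit 2798282665485453252018)), (.ofNat (nat_lit 258303015275580300186))⟩,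
    ⟨nat_lit 0, nat_lit 2, nat_lit 3, (.ofNat (nat_lit 8)), (.negSucc (nat_lit 26165439)), (.ofNat (nat_lit 800076562481343013573604489856)), (.ofNat (nat_lit 0)), (.ofNat (nat_lit 12308870192020661747273026752)), (.negSucc (nat_lit 26165455)), (.negSucc (nat_lit 26165423)), (.negSucc (nat_lit 2798282665485453252017)), (.ofNat (nat_lit 2798282665485453252018)), (.negSucc (nat_lit 2798282665485453252017)), (.ofNat (nat_lit 2798282665485453252018)), (.ofNat (nat_lit 258303015275580300186))⟩,
    ⟨nat_lit 1, nat_lit 3, nat_lit 4, (.ofNat (nat_lit 8)), (.ofNat (nat_lit 165199680)), (.ofNat (nat_lit 1335570260555886633400419302016)), (.ofNat (nat_lit 0)), (.ofNat (nat_lit 20547234777782871283061345472)), (.ofNat (nat_lit 165199664)), (.ofNat (nat_lit 165199696)), (.ofNat (nat_lit 2798282665485453252018)), (.negSucc (nat_lit 2798282665485453252017)), (.negSucc (nat_lit 2798282665485453252017)), (.ofNat (nat_lit 2798282665485453252018)), (.ofNat (nat_lit 258303015275580300186))⟩,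
    ⟨nat_lit 0, nat_lit 5, nat_lit 4, (.ofNat (nat_lit 8)), (.ofNat (nat_lit 9617216)), (.ofNat (nat_lit 1770933972620601206506192714368)), (.ofNat (nat_lit 0)), (.ofNat (nat_lit 27245138040316941638527601856)), (.ofNat (nat_lit 9617200)), (.ofNat (nat_lit 9617232)), (.ofNat (nat_lit 2798282665485453252018)), (.negSucc (nat_lit 2798282665485453252017)), (.negSucc (nat_lit 2798282665485453252017)), (.ofNat (nat_lit 2798282665485453252018)), (.ofNat (nat_lit 258303015275580300186))⟩,
    ⟨nat_lit 2, nat_lit 6, nat_lit 5, (.ofNat (nat_lit 8)), (.negSucc (nat_lit 245350591)), (.ofNat (nat_lit 1057461975237377934952691677824)), (.ofNat (nat_lit 0)), (.ofNat (nat_lit 16268645772882737460793199808)), (.negSucc (nat_lit 245350607)), (.negSucc (nat_lit 245350575)), (.negSucc (nat_lit 2798282665485453252017)), (.ofNat (nat_lit 2798282665485453252018)), (.negSucc (nat_lit 2798282665485453252017)), (.ofNat (nat_lit 2798282665485453252018)), (.ofNat (nat_lit 258303015275580300186))⟩,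
    ⟨nat_lit 0, nat_lit 7, nat_lit 8, (.ofNat (nat_lit 8)), (.negSucc (nat_lit 37372095)), (.ofNat (nat_lit 1093681155158515731156731378304)), (.ofNat (nat_lit 0)), (.ofNat (nat_lit 16825863925515626633162443968)), (.negSucc (nat_lit 37372111)), (.negSucc (nat_lit 37372079)), (.ofNat (nat_lit 2798282665485453252018)), (.negSucc (nat_lit 2798282665485453252017)), (.negSucc (nat_lit 2798282665485453252017)), (.ofNat (nat_lit 2798282665485453252018)), (.ofNat (nat_lit 258303015275579363804))⟩,
    ⟨nat_lit 0, nat_lit 8, nat_lit 9, (.ofNat (nat_lit 8)), (.ofNat (nat_lit 153403200)), (.ofNat (nat_lit 559837951358859403308834830976)), (.ofNat (nat_lit 0)), (.ofNat (nat_lit 8612891559367157062480219328)), (.ofNat (nat_lit 153403184)), (.ofNat (nat_lit 153403216)), (.negSucc (nat_lit 2798282665485453252017)), (.ofNat (nat_lit 2798282665485453252018)), (.negSucc (nat_lit 2798282665485453252017)), (.ofNat (nat_lit 2798282665485453252018)), (.ofNat (nat_lit 258303015275577672028))⟩,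
    ⟨nat_lit 1, nat_lit 9, nat_lit 10, (.ofNat (nat_lit 8)), (.ofNat (nat_lit 275693376)), (.ofNat (nat_lit 902040431018824606937888406144)), (.ofNat (nat_lit 0)), (.ofNat (nat_lit 13877545092597344775827410112)), (.ofNat (nat_lit 275693360)), (.ofNat (nat_lit 275693392)), (.ofNat (nat_lit 2798282665485453252018)), (.negSucc (nat_lit 2798282665485453252017)), (.negSucc (nat_lit 2798282665485453252017)), (.ofNat (nat_lit 2798282665485453252018)), (.ofNat (nat_lit 258303015275577860504))⟩,
    ⟨nat_lit 0, nat_lit 11, nat_lit 10, (.ofNat (nat_lit 8)), (.ofNat (nat_lit 182828864)), (.ofNat (nat_lit 1161901585187190466285352991360)), (.ofNat (nat_lit 0)), (.ofNat (nat_lit 17875409002879853327447805120)), (.ofNat (nat_lit 182828848)), (.ofNat (nat_lit 182828880)), (.ofNat (nat_lit 2798282665485453252018)), (.negSucc (nat_lit 2798282665485453252017)), (.negSucc (nat_lit 2798282665485453252017)), (.ofNat (nat_lit 2798282665485453252018)), (.ofNat (nat_lit 258303015275579371292))⟩,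
    ⟨nat_lit 2, nat_lit 12, nat_lit 11, (.ofNat (nat_lit 8)), (.ofNat (nat_lit 138395456)), (.ofNat (nat_lit 1037564349812347803873510374016)), (.ofNat (nat_lit 0)), (.ofNat (nat_lit 15962528458651504674959969472)), (.ofNat (nat_lit 138395440)), (.ofNat (nat_lit 138395472)), (.negSucc (nat_lit 2798282665485453252017)), (.ofNat (nat_lit 2798282665485453252018)), (.negSucc (nat_lit 2798282665485453252017)), (.ofNat (nat_lit 2798282665485453252018)), (.ofNat (nat_lit 258303015275580300186))⟩,
    ⟨nat_lit 1, nat_lit 13, nat_lit 12, (.ofNat (nat_lit 8)), (.ofNat (nat_lit 227000128)), (.ofNat (nat_lit 789623432073723497707122145920)), (.ofNat (nat_lit 0)), (.ofNat (nat_lit 12148052801134207657019624640)), (.ofNat (nat_lit 227000112)), (.ofNat (nat_lit 227000144)), (.ofNat (nat_lit 2798282665485453252018)), (.negSucc (nat_lit 2798282665485453252017)), (.negSucc (nat_lit 2798282665485453252017)), (.ofNat (nat_lit 2798282665485453252018)), (.ofNat (nat_lit 258303015275580300186))⟩,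
    ⟨nat_lit 0, nat_lit 14, nat_lit 13, (.ofNat (nat_lit 8)), (.ofNat (nat_lit 157925184)), (.ofNat (nat_lit 596332213659145081509360908928)), (.ofNat (nat_lit 0)), (.ofNat (nat_lit 9174341748602232023211101376)), (.ofNat (nat_lit 157925168)), (.ofNat (nat_lit 157925200)), (.negSucc (nat_lit 2798282665485453252017)), (.ofNat (nat_lit 2798282665485453252018)), (.negSucc (nat_lit 2798282665485453252017)), (.ofNat (nat_lit 2798282665485453252018)), (.ofNat (nat_lit 258303015275580300186))⟩,
    ⟨nat_lit 0, nat_lit 15, nat_lit 14, (.ofNat (nat_lit 8)), (.negSucc (nat_lit 46153919)), (.ofNat (nat_lit 1167403232770148106215080540800)), (.ofNat (nat_lit 0)), (.ofNat (nat_lit 17960049734925355480212753600)), (.negSucc (nat_lit 46153935)), (.negSucc (nat_lit 46153903)), (.ofNat (nat_lit 2798282665485453252018)), (.negSucc (nat_lit 2798282665485453252017)), (.negSucc (nat_lit 2798282665485453252017)), (.ofNat (nat_lit 2798282665485453252018)), (.ofNat (nat_lit 258303015275580300186))⟩,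
    ⟨nat_lit 0, nat_lit 6, nat_lit 15, (.ofNat (nat_lit 8)), (.negSucc (nat_lit 165396671)), (.ofNat (nat_lit 833728306863767244477104667264)), (.ofNat (nat_lit 0)), (.ofNat (nat_lit 12826589336365649915018628288)), (.negSucc (nat_lit 165396687)), (.negSucc (nat_lit 165396655)), (.negSucc (nat_lit 2798282665485453252017)), (.ofNat (nat_lit 2798282665485453252018)), (.negSucc (nat_lit 2798282665485453252017)), (.ofNat (nat_lit 2798282665485453252018)), (.ofNat (nat_lit 258303015275580300186))⟩,
    ⟨nat_lit 0, nat_lit 23, nat_lit 16, (.ofNat (nat_lit 8)), (.negSucc (nat_lit 53542975)), (.ofNat (nat_lit 388966305025014551962729616256)), (.ofNat (nat_lit 0)), (.ofNat (nat_lit 5984097000384839260958655552)), (.negSucc (nat_lit 53542991)), (.negSucc (nat_lit 53542959)), (.negSucc (nat_lit 2798282665485453252017)), (.ofNat (nat_lit 2798282665485453252018)), (.negSucc (nat_lit 2798282665485453252017)), (.ofNat (nat_lit 2798282665485453252018)), (.ofNat (nat_lit 258303015275580300186))⟩,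
    ⟨nat_lit 1, nat_lit 16, nat_lit 17, (.ofNat (nat_lit 8)), (.ofNat (nat_lit 180535104)), (.ofNat (nat_lit 1043982938659131717124859181696)), (.ofNat (nat_lit 0)), (.ofNat (nat_lit 16061275979371257186519076032)), (.ofNat (nat_lit 180535088)), (.ofNat (nat_lit 180535120)), (.ofNat (nat_lit 2798282665485453252018)), (.negSucc (nat_lit 2798282665485453252017)), (.negSucc (nat_lit 2798282665485453252017)), (.ofNat (nat_lit 2798282665485453252018)), (.ofNat (nat_lit 258303015275580300186))⟩,
    ⟨nat_lit 0, nat_lit 18, nat_lit 17, (.ofNat (nat_lit 8)), (.ofNat (nat_lit 140689216)), (.ofNat (nat_lit 1155482996340406553034004183680)), (.ofNat (nat_lit 0)), (.ofNat (nat_lit 17776661482160100815888698560)), (.ofNat (nat_lit 140689200)), (.ofNat (nat_lit 140689232)), (.ofNat (nat_lit 2798282665485453252018)), (.negSucc (nat_lit 2798282665485453252017)), (.negSucc (nat_lit 2798282665485453252017)), (.ofNat (nat_lit 2798282665485453252018)), (.ofNat (nat_lit 258303015275580300186))⟩,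
    ⟨nat_lit 0, nat_lit 19, nat_lit 18, (.ofNat (nat_lit 8)), (.negSucc (nat_lit 28459199)), (.ofNat (nat_lit 682157915953284264413110680192)), (.ofNat (nat_lit 0)), (.ofNat (nat_lit 10494737168512065606344297664)), (.negSucc (nat_lit 28459215)), (.negSucc (nat_lit 28459183)), (.negSucc (nat_lit 2798282665485453252017)), (.ofNat (nat_lit 2798282665485453252018)), (.negSucc (nat_lit 2798282665485453252017)), (.ofNat (nat_lit 2798282665485453252018)), (.ofNat (nat_lit 258303015275580300186))⟩,
    ⟨nat_lit 2, nat_lit 19, nat_lit 20, (.ofNat (nat_lit 8)), (.negSucc (nat_lit 164118719)), (.ofNat (nat_lit 1061771599177361419564311591552)), (.ofNat (nat_lit 0)), (.ofNat (nat_lit 16334947679651714147125742784)), (.negSucc (nat_lit 164118735)), (.negSucc (nat_lit 164118703)), (.negSucc (nat_lit 2798282665485453252017)), (.ofNat (nat_lit 2798282665485453252018)), (.negSucc (nat_lit 2798282665485453252017)), (.ofNat (nat_lit 2798282665485453252018)), (.ofNat (nat_lit 258303015275580300186))⟩,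
    ⟨nat_lit 0, nat_lit 20, nat_lit 21, (.ofNat (nat_lit 8)), (.negSucc (nat_lit 39403711)), (.ofNat (nat_lit 1410759444189641045773362477696)), (.ofNat (nat_lit 0)), (.ofNat (nat_lit 21703991449071400704182308032)), (.negSucc (nat_lit 39403727)), (.negSucc (nat_lit 39403695)), (.ofNat (nat_lit 2798282665485453252018)), (.negSucc (nat_lit 2798282665485453252017)), (.negSucc (nat_lit 2798282665485453252017)), (.ofNat (nat_lit 2798282665485453252018)), (.ofNat (nat_lit 258303015275580300186))⟩,
    ⟨nat_lit 1, nat_lit 22, nat_lit 21, (.ofNat (nat_lit 8)), (.ofNat (nat_lit 156024640)), (.ofNat (nat_lit 863895674443651636758444063360)), (.ofNat (nat_lit 0)), (.ofNat (nat_lit 13290702683748486719346429120)), (.ofNat (nat_lit 156024624)), (.ofNat (nat_lit 156024656)), (.ofNat (nat_lit 2798282665485453252018)), (.negSucc (nat_lit 2798282665485453252017)), (.negSucc (nat_lit 2798282665485453252017)), (.ofNat (nat_lit 2798282665485453252018)), (.ofNat (nat_lit 258303015275580300186))⟩,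
    ⟨nat_lit 2, nat_lit 23, nat_lit 7, (.ofNat (nat_lit 8)), (.negSucc (nat_lit 171376703)), (.ofNat (nat_lit 718698383496942438417734079360)), (.ofNat (nat_lit 0)), (.ofNat (nat_lit 11056898207645268283337901120)), (.negSucc (nat_lit 171376719)), (.negSucc (nat_lit 171376687)), (.negSucc (nat_lit 2798282665485453252017)), (.ofNat (nat_lit 2798282665485453252018)), (.negSucc (nat_lit 2798282665485453252017)), (.ofNat (nat_lit 2798282665485453252018)), (.ofNat (nat_lit 258303015275580300186))⟩]
  es := [
    ⟨nat_lit 1, nat_lit 0, (.negSucc (nat_lit 293273599)), (.negSucc (nat_lit 77922303)), (.negSucc (nat_lit 293273583)), (.negSucc (nat_lit 77922319)), (.negSucc (nat_lit 2798282665485453252017)), (.negSucc (nat_lit 43050502545930050030)), (.negSucc (nat_lit 135425171272803444423917567))⟩,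
    ⟨nat_lit 1, nat_lit 2, (.negSucc (nat_lit 293273599)), (.negSucc (nat_lit 161824959)), (.negSucc (nat_lit 293273583)), (.negSucc (nat_lit 161824975)), (.ofNat (nat_lit 2798282665485453252018)), (.ofNat (nat_lit 43050502545930050031)), (.ofNat (nat_lit 25115726555635338797119045632))⟩,
    ⟨nat_lit 2, nat_lit 3, (.negSucc (nat_lit 161824959)), (.negSucc (nat_lit 26165439)), (.negSucc (nat_lit 161824943)), (.negSucc (nat_lit 26165455)), (.negSucc (nat_lit 2798282665485453252017)), (.negSucc (nat_lit 43050502545930050030)), (.ofNat (nat_lit 11182434850685281778989898112))⟩,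
    ⟨nat_lit 3, nat_lit 4, (.negSucc (nat_lit 26165439)), (.ofNat (nat_lit 165199680)), (.negSucc (nat_lit 26165423)), (.ofNat (nat_lit 165199664)), (.ofNat (nat_lit 2798282665485453252018)), (.ofNat (nat_lit 43050502545930050031)), (.ofNat (nat_lit 13435305533356041715556155392))⟩,
    ⟨nat_lit 5, nat_lit 4, (.ofNat (nat_lit 9617216)), (.ofNat (nat_lit 165199680)), (.ofNat (nat_lit 9617232)), (.ofNat (nat_lit 165199664)), (.negSucc (nat_lit 2798282665485453252017)), (.negSucc (nat_lit 43050502545930050030)), (.ofNat (nat_lit 27659164022209700850566535552))⟩,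
    ⟨nat_lit 6, nat_lit 5, (.negSucc (nat_lit 245350591)), (.ofNat (nat_lit 9617216)), (.negSucc (nat_lit 245350575)), (.ofNat (nat_lit 9617200)), (.ofNat (nat_lit 2798282665485453252018)), (.ofNat (nat_lit 43050502545930050031)), (.ofNat (nat_lit 26831112058424182426488668160))⟩,
    ⟨nat_lit 6, nat_lit 15, (.negSucc (nat_lit 245350591)), (.negSucc (nat_lit 165396671)), (.negSucc (nat_lit 245350575)), (.negSucc (nat_lit 165396687)), (.negSucc (nat_lit 2798282665485453252017)), (.negSucc (nat_lit 43050502545930050030)), (.ofNat (nat_lit 5706179487341292495097731456))⟩,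
    ⟨nat_lit 23, nat_lit 7, (.negSucc (nat_lit 171376703)), (.negSucc (nat_lit 37372095)), (.negSucc (nat_lit 171376687)), (.negSucc (nat_lit 37372111)), (.ofNat (nat_lit 2798282665485453252018)), (.ofNat (nat_lit 43050502545930050031)), (.ofNat (nat_lit 18434751439510368872205778944))⟩,
    ⟨nat_lit 7, nat_lit 8, (.negSucc (nat_lit 37372095)), (.ofNat (nat_lit 153403200)), (.negSucc (nat_lit 37372079)), (.ofNat (nat_lit 153403184)), (.negSucc (nat_lit 2798282665485453252017)), (.negSucc (nat_lit 43050502545929581839)), (.ofNat (nat_lit 15216976411520901891398107328))⟩,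
    ⟨nat_lit 8, nat_lit 9, (.ofNat (nat_lit 153403200)), (.ofNat (nat_lit 275693376)), (.ofNat (nat_lit 153403216)), (.ofNat (nat_lit 275693360)), (.ofNat (nat_lit 2798282665485453252018)), (.ofNat (nat_lit 43050502545929672334)), (.ofNat (nat_lit 2008806707213398351493150528))⟩,
    ⟨nat_lit 10, nat_lit 9, (.ofNat (nat_lit 182828864)), (.ofNat (nat_lit 275693376)), (.ofNat (nat_lit 182828880)), (.ofNat (nat_lit 275693360)), (.negSucc (nat_lit 2798282665485453252017)), (.negSucc (nat_lit 43050502545929585583)), (.ofNat (nat_lit 25746283477981267283761301696))⟩,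
    ⟨nat_lit 11, nat_lit 10, (.ofNat (nat_lit 138395456)), (.ofNat (nat_lit 182828864)), (.ofNat (nat_lit 138395472)), (.ofNat (nat_lit 182828848)), (.ofNat (nat_lit 2798282665485453252018)), (.ofNat (nat_lit 43050502545930050031)), (.ofNat (nat_lit 10004534527778354456816910336))⟩,
    ⟨nat_lit 11, nat_lit 12, (.ofNat (nat_lit 138395456)), (.ofNat (nat_lit 227000128)), (.ofNat (nat_lit 138395472)), (.ofNat (nat_lit 227000112)), (.negSucc (nat_lit 2798282665485453252017)), (.negSucc (nat_lit 43050502545930050030)), (.ofNat (nat_lit 21920522389524654893103028608))⟩,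
    ⟨nat_lit 13, nat_lit 12, (.ofNat (nat_lit 157925184)), (.ofNat (nat_lit 227000128)), (.ofNat (nat_lit 157925200)), (.ofNat (nat_lit 227000112)), (.ofNat (nat_lit 2798282665485453252018)), (.ofNat (nat_lit 43050502545930050031)), (.ofNat (nat_lit 2375583212743760420936220672))⟩,
    ⟨nat_lit 14, nat_lit 13, (.negSucc (nat_lit 46153919)), (.ofNat (nat_lit 157925184)), (.negSucc (nat_lit 46153903)), (.ofNat (nat_lit 157925168)), (.negSucc (nat_lit 2798282665485453252017)), (.negSucc (nat_lit 43050502545930050030)), (.ofNat (nat_lit 15973100284460703625485982080))⟩,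
    ⟨nat_lit 15, nat_lit 14, (.negSucc (nat_lit 165396671)), (.negSucc (nat_lit 46153919)), (.negSucc (nat_lit 165396655)), (.negSucc (nat_lit 46153935)), (.ofNat (nat_lit 2798282665485453252018)), (.ofNat (nat_lit 43050502545930050031)), (.ofNat (nat_lit 19946999185390007334939525120))⟩,
    ⟨nat_lit 16, nat_lit 17, (.negSucc (nat_lit 53542975)), (.ofNat (nat_lit 180535104)), (.negSucc (nat_lit 53542959)), (.ofNat (nat_lit 180535088)), (.ofNat (nat_lit 2798282665485453252018)), (.ofNat (nat_lit 43050502545930050031)), (.ofNat (nat_lit 8289149024989510827447287808))⟩,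
    ⟨nat_lit 18, nat_lit 17, (.ofNat (nat_lit 140689216)), (.ofNat (nat_lit 180535104)), (.ofNat (nat_lit 140689232)), (.ofNat (nat_lit 180535088)), (.negSucc (nat_lit 2798282665485453252017)), (.negSucc (nat_lit 43050502545930050030)), (.ofNat (nat_lit 23833402933753003545590864256))⟩,
    ⟨nat_lit 19, nat_lit 18, (.negSucc (nat_lit 28459199)), (.ofNat (nat_lit 140689216)), (.negSucc (nat_lit 28459183)), (.ofNat (nat_lit 140689200)), (.ofNat (nat_lit 2798282665485453252018)), (.ofNat (nat_lit 43050502545930050031)), (.ofNat (nat_lit 11719920030567198086186532864))⟩,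
    ⟨nat_lit 20, nat_lit 19, (.negSucc (nat_lit 164118719)), (.negSucc (nat_lit 28459199)), (.negSucc (nat_lit 164118703)), (.negSucc (nat_lit 28459215)), (.negSucc (nat_lit 2798282665485453252017)), (.negSucc (nat_lit 43050502545930050030)), (.ofNat (nat_lit 9269554306456933126502062464))⟩,
    ⟨nat_lit 20, nat_lit 21, (.negSucc (nat_lit 164118719)), (.negSucc (nat_lit 39403711)), (.negSucc (nat_lit 164118703)), (.negSucc (nat_lit 39403727)), (.ofNat (nat_lit 2798282665485453252018)), (.ofNat (nat_lit 43050502545930050031)), (.ofNat (nat_lit 23400341052846495167749423104))⟩,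
    ⟨nat_lit 21, nat_lit 22, (.negSucc (nat_lit 39403711)), (.ofNat (nat_lit 156024640)), (.negSucc (nat_lit 39403695)), (.ofNat (nat_lit 156024624)), (.negSucc (nat_lit 2798282665485453252017)), (.negSucc (nat_lit 43050502545930050030)), (.ofNat (nat_lit 20007641845296306240615192960))⟩,
    ⟨nat_lit 0, nat_lit 22, (.negSucc (nat_lit 77922303)), (.ofNat (nat_lit 156024640)), (.negSucc (nat_lit 77922287)), (.ofNat (nat_lit 156024624)), (.ofNat (nat_lit 2798282665485453252018)), (.ofNat (nat_lit 43050502545930050031)), (.ofNat (nat_lit 6573763522200667198077665280))⟩,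
    ⟨nat_lit 23, nat_lit 16, (.negSucc (nat_lit 171376703)), (.negSucc (nat_lit 53542975)), (.negSucc (nat_lit 171376687)), (.negSucc (nat_lit 53542991)), (.negSucc (nat_lit 2798282665485453252017)), (.negSucc (nat_lit 43050502545930050030)), (.ofNat (nat_lit 3679044975780167694470023296))⟩]

theorem ok32 : stOK 23 23 S32 = true := by decide +kernel

def S33 : SD where
  vs := [
    ⟨nat_lit 0, nat_lit 0, nat_lit 22, (.ofNat (nat_lit 8)), (.negSucc (nat_lit 78446591)), (.ofNat (nat_lit 210713102427277609308565143552)), (.negSucc (nat_lit 524287)), (.ofNat (nat_lit 1467106022122037314594013184)), (.negSucc (nat_lit 78446607)), (.negSucc (nat_lit 78446575)), (.negSucc (nat_lit 2798282665485453252017)), (.ofNat (nat_lit 2798282665485453252018)), (.negSucc (nat_lit 2798282665485453252017)), (.ofNat (nat_lit 2798282665485453252018)), (.ofNat (nat_lit 0))⟩,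
    ⟨nat_lit 2, nat_lit 0, nat_lit 1, (.ofNat (nat_lit 8)), (.negSucc (nat_lit 324206527)), (.ofNat (nat_lit 898418871206892009455500694400)), (.negSucc (nat_lit 30932927)), (.ofNat (nat_lit 86559076215109610492038648704)), (.negSucc (nat_lit 324206543)), (.negSucc (nat_lit 324206511)), (.negSucc (nat_lit 2798282665485453252017)), (.ofNat (nat_lit 2798282665485453252018)), (.negSucc (nat_lit 2798282665485453252017)), (.ofNat (nat_lit 2798282665485453252018)), (.ofNat (nat_lit 0))⟩,
    ⟨nat_lit 0, nat_lit 1, nat_lit 2, (.ofNat (nat_lit 8)), (.negSucc (nat_lit 191709311)), (.ofNat (nat_lit 1269183533964773853846032076288)), (.negSucc (nat_lit 29884351)), (.ofNat (nat_lit 89493288259353685121226675072)), (.negSucc (nat_lit 191709327)), (.negSucc (nat_lit 191709295)), (.ofNat (nat_lit 2798282665485453252018)), (.negSucc (nat_lit 2798282665485453252017)), (.negSucc (nat_lit 2798282665485453252017)), (.ofNat (nat_lit 2798282665485453252018)), (.ofNat (nat_lit 0))⟩,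
    ⟨nat_lit 0, nat_lit 2, nat_lit 3, (.ofNat (nat_lit 8)), (.negSucc (nat_lit 55001215)), (.ofNat (nat_lit 886635638696452624065643138560)), (.negSucc (nat_lit 28835775)), (.ofNat (nat_lit 86559076215109610492038648704)), (.negSucc (nat_lit 55001231)), (.negSucc (nat_lit 55001199)), (.negSucc (nat_lit 2798282665485453252017)), (.ofNat (nat_lit 2798282665485453252018)), (.negSucc (nat_lit 2798282665485453252017)), (.ofNat (nat_lit 2798282665485453252018)), (.ofNat (nat_lit 0))⟩,
    ⟨nat_lit 1, nat_lit 3, nat_lit 4, (.ofNat (nat_lit 8)), (.ofNat (nat_lit 138198912)), (.ofNat (nat_lit 1427264207848423374493536996864)), (.negSucc (nat_lit 27000767)), (.ofNat (nat_lit 91693947292536741093117694848)), (.ofNat (nat_lit 138198896)), (.ofNat (nat_lit 138198928)), (.ofNat (nat_lit 2798282665485453252018)), (.negSucc (nat_lit 2798282665485453252017)), (.negSucc (nat_lit 2798282665485453252017)), (.ofNat (nat_lit 2798282665485453252018)), (.ofNat (nat_lit 0))⟩,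
    ⟨nat_lit 0, nat_lit 5, nat_lit 4, (.ofNat (nat_lit 8)), (.negSucc (nat_lit 18694271)), (.ofNat (nat_lit 1866295684968443040885795442176)), (.negSucc (nat_lit 28311487)), (.ofNat (nat_lit 95361712347841834379602727808)), (.negSucc (nat_lit 18694287)), (.negSucc (nat_lit 18694255)), (.ofNat (nat_lit 2798282665485453252018)), (.negSucc (nat_lit 2798282665485453252017)), (.negSucc (nat_lit 2798282665485453252017)), (.ofNat (nat_lit 2798282665485453252018)), (.ofNat (nat_lit 0))⟩,
    ⟨nat_lit 2, nat_lit 6, nat_lit 5, (.ofNat (nat_lit 8)), (.negSucc (nat_lit 276021375)), (.ofNat (nat_lit 1146221710485670601416621346304)), (.negSucc (nat_lit 30670783)), (.ofNat (nat_lit 88759735248292666463929668480)), (.negSucc (nat_lit 276021391)), (.negSucc (nat_lit 276021359)), (.negSucc (nat_lit 2798282665485453252017)), (.ofNat (nat_lit 2798282665485453252018)), (.negSucc (nat_lit 2798282665485453252017)), (.ofNat (nat_lit 2798282665485453252018)), (.ofNat (nat_lit 0))⟩,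
    ⟨nat_lit 0, nat_lit 7, nat_lit 8, (.ofNat (nat_lit 8)), (.negSucc (nat_lit 66207871)), (.ofNat (nat_lit 1181707337395747378963364040192)), (.negSucc (nat_lit 28835775)), (.ofNat (nat_lit 88026182237231647806632661888)), (.negSucc (nat_lit 66207887)), (.negSucc (nat_lit 66207855)), (.ofNat (nat_lit 2798282665485453252018)), (.negSucc (nat_lit 2798282665485453252017)), (.negSucc (nat_lit 2798282665485453252017)), (.ofNat (nat_lit 2798282665485453252018)), (.ofNat (nat_lit 0))⟩,
    ⟨nat_lit 0, nat_lit 8, nat_lit 9, (.ofNat (nat_lit 8)), (.ofNat (nat_lit 154713920)), (.ofNat (nat_lit 563505716414164496595319863936)), (.ofNat (nat_lit 1310720)), (.ofNat (nat_lit 3667765055305093286485032960)), (.ofNat (nat_lit 154713904)), (.ofNat (nat_lit 154713936)), (.negSucc (nat_lit 2798282665485453252017)), (.ofNat (nat_lit 2798282665485453252018)), (.negSucc (nat_lit 2798282665485453252017)), (.ofNat (nat_lit 2798282665485453252018)), (.ofNat (nat_lit 0))⟩,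
    ⟨nat_lit 1, nat_lit 9, nat_lit 10, (.ofNat (nat_lit 8)), (.ofNat (nat_lit 278314816)), (.ofNat (nat_lit 909375961129434793510858472064)), (.ofNat (nat_lit 2621440)), (.ofNat (nat_lit 7335530110610186572970065920)), (.ofNat (nat_lit 278314800)), (.ofNat (nat_lit 278314832)), (.ofNat (nat_lit 2798282665485453252018)), (.negSucc (nat_lit 2798282665485453252017)), (.negSucc (nat_lit 2798282665485453252017)), (.ofNat (nat_lit 2798282665485453252018)), (.ofNat (nat_lit 0))⟩,
    ⟨nat_lit 0, nat_lit 11, nat_lit 10, (.ofNat (nat_lit 8)), (.ofNat (nat_lit 156090240)), (.ofNat (nat_lit 1251394873446544151406579666432)), (.negSucc (nat_lit 26738623)), (.ofNat (nat_lit 89493288259353685121226675072)), (.ofNat (nat_lit 156090224)), (.ofNat (nat_lit 156090256)), (.ofNat (nat_lit 2798282665485453252018)), (.negSucc (nat_lit 2798282665485453252017)), (.negSucc (nat_lit 2798282665485453252017)), (.ofNat (nat_lit 2798282665485453252018)), (.ofNat (nat_lit 0))⟩,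
    ⟨nat_lit 2, nat_lit 12, nat_lit 11, (.ofNat (nat_lit 8)), (.ofNat (nat_lit 111132544)), (.ofNat (nat_lit 1125590532049579451680143035904)), (.negSucc (nat_lit 27262911)), (.ofNat (nat_lit 88026182237231647806632661888)), (.ofNat (nat_lit 111132528)), (.ofNat (nat_lit 111132560)), (.negSucc (nat_lit 2798282665485453252017)), (.ofNat (nat_lit 2798282665485453252018)), (.negSucc (nat_lit 2798282665485453252017)), (.ofNat (nat_lit 2798282665485453252018)), (.ofNat (nat_lit 0))⟩,
    ⟨nat_lit 1, nat_lit 13, nat_lit 12, (.ofNat (nat_lit 8)), (.ofNat (nat_lit 228835136)), (.ofNat (nat_lit 796225409173272665622795205248)), (.ofNat (nat_lit 1835008)), (.ofNat (nat_lit 6601977099549167915673059328)), (.ofNat (nat_lit 228835120)), (.ofNat (nat_lit 228835152)), (.ofNat (nat_lit 2798282665485453252018)), (.negSucc (nat_lit 2798282665485453252017)), (.negSucc (nat_lit 2798282665485453252017)), (.ofNat (nat_lit 2798282665485453252018)), (.ofNat (nat_lit 0))⟩,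
    ⟨nat_lit 0, nat_lit 14, nat_lit 13, (.ofNat (nat_lit 8)), (.ofNat (nat_lit 159235904)), (.ofNat (nat_lit 601467084736572212110439955072)), (.ofNat (nat_lit 1310720)), (.ofNat (nat_lit 5134871077427130601079046144)), (.ofNat (nat_lit 159235888)), (.ofNat (nat_lit 159235920)), (.negSucc (nat_lit 2798282665485453252017)), (.ofNat (nat_lit 2798282665485453252018)), (.negSucc (nat_lit 2798282665485453252017)), (.ofNat (nat_lit 2798282665485453252018)), (.ofNat (nat_lit 0))⟩,
    ⟨nat_lit 0, nat_lit 15, nat_lit 14, (.ofNat (nat_lit 8)), (.negSucc (nat_lit 74989695)), (.ofNat (nat_lit 1256896521029501791336307215872)), (.negSucc (nat_lit 28835775)), (.ofNat (nat_lit 89493288259353685121226675072)), (.negSucc (nat_lit 74989711)), (.negSucc (nat_lit 74989679)), (.ofNat (nat_lit 2798282665485453252018)), (.negSucc (nat_lit 2798282665485453252017)), (.negSucc (nat_lit 2798282665485453252017)), (.ofNat (nat_lit 2798282665485453252018)), (.ofNat (nat_lit 0))⟩,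
    ⟨nat_lit 0, nat_lit 6, nat_lit 15, (.ofNat (nat_lit 8)), (.negSucc (nat_lit 195281023)), (.ofNat (nat_lit 920287383078876854969143315968)), (.negSucc (nat_lit 29884351)), (.ofNat (nat_lit 86559076215109610492038648704)), (.negSucc (nat_lit 195281039)), (.negSucc (nat_lit 195281007)), (.negSucc (nat_lit 2798282665485453252017)), (.ofNat (nat_lit 2798282665485453252018)), (.negSucc (nat_lit 2798282665485453252017)), (.ofNat (nat_lit 2798282665485453252018)), (.ofNat (nat_lit 0))⟩,
    ⟨nat_lit 0, nat_lit 23, nat_lit 16, (.ofNat (nat_lit 8)), (.negSucc (nat_lit 82378751)), (.ofNat (nat_lit 471124063173758050510986225408)), (.negSucc (nat_lit 28835775)), (.ofNat (nat_lit 82157758148743498548256609152)), (.negSucc (nat_lit 82378767)), (.negSucc (nat_lit 82378735)), (.negSucc (nat_lit 2798282665485453252017)), (.ofNat (nat_lit 2798282665485453252018)), (.negSucc (nat_lit 2798282665485453252017)), (.ofNat (nat_lit 2798282665485453252018)), (.ofNat (nat_lit 0))⟩,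
    ⟨nat_lit 1, nat_lit 16, nat_lit 17, (.ofNat (nat_lit 8)), (.ofNat (nat_lit 153796480)), (.ofNat (nat_lit 1132009120896363364931491843584)), (.negSucc (nat_lit 26738623)), (.ofNat (nat_lit 88026182237231647806632661888)), (.ofNat (nat_lit 153796464)), (.ofNat (nat_lit 153796496)), (.ofNat (nat_lit 2798282665485453252018)), (.negSucc (nat_lit 2798282665485453252017)), (.negSucc (nat_lit 2798282665485453252017)), (.ofNat (nat_lit 2798282665485453252018)), (.ofNat (nat_lit 0))⟩,
    ⟨nat_lit 0, nat_lit 18, nat_lit 17, (.ofNat (nat_lit 8)), (.ofNat (nat_lit 113426304)), (.ofNat (nat_lit 1244976284599760238155230858752)), (.negSucc (nat_lit 27262911)), (.ofNat (nat_lit 89493288259353685121226675072)), (.ofNat (nat_lit 113426288)), (.ofNat (nat_lit 113426320)), (.ofNat (nat_lit 2798282665485453252018)), (.negSucc (nat_lit 2798282665485453252017)), (.negSucc (nat_lit 2798282665485453252017)), (.ofNat (nat_lit 2798282665485453252018)), (.ofNat (nat_lit 0))⟩,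
    ⟨nat_lit 0, nat_lit 19, nat_lit 18, (.ofNat (nat_lit 8)), (.negSucc (nat_lit 57294975)), (.ofNat (nat_lit 767249886146271837590555315712)), (.negSucc (nat_lit 28835775)), (.ofNat (nat_lit 85091970192987573177444635520)), (.negSucc (nat_lit 57294991)), (.negSucc (nat_lit 57294959)), (.negSucc (nat_lit 2798282665485453252017)), (.ofNat (nat_lit 2798282665485453252018)), (.negSucc (nat_lit 2798282665485453252017)), (.ofNat (nat_lit 2798282665485453252018)), (.ofNat (nat_lit 0))⟩,
    ⟨nat_lit 2, nat_lit 19, nat_lit 20, (.ofNat (nat_lit 8)), (.negSucc (nat_lit 194003071)), (.ofNat (nat_lit 1149797781414593067370944253440)), (.negSucc (nat_lit 29884351)), (.ofNat (nat_lit 88026182237231647806632661888)), (.negSucc (nat_lit 194003087)), (.negSucc (nat_lit 194003055)), (.negSucc (nat_lit 2798282665485453252017)), (.ofNat (nat_lit 2798282665485453252018)), (.negSucc (nat_lit 2798282665485453252017)), (.ofNat (nat_lit 2798282665485453252018)), (.ofNat (nat_lit 0))⟩,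
    ⟨nat_lit 0, nat_lit 20, nat_lit 21, (.ofNat (nat_lit 8)), (.negSucc (nat_lit 68239487)), (.ofNat (nat_lit 1501719838471116768209183165952)), (.negSucc (nat_lit 28835775)), (.ofNat (nat_lit 90960394281475722435820688256)), (.negSucc (nat_lit 68239503)), (.negSucc (nat_lit 68239471)), (.ofNat (nat_lit 2798282665485453252018)), (.negSucc (nat_lit 2798282665485453252017)), (.negSucc (nat_lit 2798282665485453252017)), (.ofNat (nat_lit 2798282665485453252018)), (.ofNat (nat_lit 0))⟩,
    ⟨nat_lit 1, nat_lit 22, nat_lit 21, (.ofNat (nat_lit 8)), (.ofNat (nat_lit 157335360)), (.ofNat (nat_lit 870497651543200804674117122688)), (.ofNat (nat_lit 1310720)), (.ofNat (nat_lit 6601977099549167915673059328)), (.ofNat (nat_lit 157335344)), (.ofNat (nat_lit 157335376)), (.ofNat (nat_lit 2798282665485453252018)), (.negSucc (nat_lit 2798282665485453252017)), (.negSucc (nat_lit 2798282665485453252017)), (.ofNat (nat_lit 2798282665485453252018)), (.ofNat (nat_lit 0))⟩,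
    ⟨nat_lit 2, nat_lit 23, nat_lit 7, (.ofNat (nat_lit 8)), (.negSucc (nat_lit 201261055)), (.ofNat (nat_lit 803790353689930011595178714880)), (.negSucc (nat_lit 29884351)), (.ofNat (nat_lit 85091970192987573177444635520)), (.negSucc (nat_lit 201261071)), (.negSucc (nat_lit 201261039)), (.negSucc (nat_lit 2798282665485453252017)), (.ofNat (nat_lit 2798282665485453252018)), (.negSucc (nat_lit 2798282665485453252017)), (.ofNat (nat_lit 2798282665485453252018)), (.ofNat (nat_lit 0))⟩]
  es := [
    ⟨nat_lit 1, nat_lit 0, (.negSucc (nat_lit 324206527)), (.negSucc (nat_lit 78446591)), (.negSucc (nat_lit 324206511)), (.negSucc (nat_lit 78446607)), (.negSucc (nat_lit 2798282665485453252017)), (.ofNat (nat_lit 0)), (.ofNat (nat_lit 0))⟩,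
    ⟨nat_lit 1, nat_lit 2, (.negSucc (nat_lit 324206527)), (.negSucc (nat_lit 191709311)), (.negSucc (nat_lit 324206511)), (.negSucc (nat_lit 191709327)), (.ofNat (nat_lit 2798282665485453252018)), (.ofNat (nat_lit 0)), (.ofNat (nat_lit 173118152430219220984077297408))⟩,
    ⟨nat_lit 2, nat_lit 3, (.negSucc (nat_lit 191709311)), (.negSucc (nat_lit 55001215)), (.negSucc (nat_lit 191709295)), (.negSucc (nat_lit 55001231)), (.negSucc (nat_lit 2798282665485453252017)), (.ofNat (nat_lit 0)), (.ofNat (nat_lit 5868424088488149258376052736))⟩,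
    ⟨nat_lit 3, nat_lit 4, (.negSucc (nat_lit 55001215)), (.ofNat (nat_lit 138198912)), (.negSucc (nat_lit 55001199)), (.ofNat (nat_lit 138198896)), (.ofNat (nat_lit 2798282665485453252018)), (.ofNat (nat_lit 0)), (.ofNat (nat_lit 167249728341731071725701244672))⟩,
    ⟨nat_lit 5, nat_lit 4, (.negSucc (nat_lit 18694271)), (.ofNat (nat_lit 138198912)), (.negSucc (nat_lit 18694255)), (.ofNat (nat_lit 138198896)), (.negSucc (nat_lit 2798282665485453252017)), (.ofNat (nat_lit 0)), (.ofNat (nat_lit 16138166243342410460534145024))⟩,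
    ⟨nat_lit 6, nat_lit 5, (.negSucc (nat_lit 276021375)), (.negSucc (nat_lit 18694271)), (.negSucc (nat_lit 276021359)), (.negSucc (nat_lit 18694287)), (.ofNat (nat_lit 2798282665485453252018)), (.ofNat (nat_lit 0)), (.ofNat (nat_lit 174585258452341258298671310592))⟩,
    ⟨nat_lit 6, nat_lit 15, (.negSucc (nat_lit 276021375)), (.negSucc (nat_lit 195281023)), (.negSucc (nat_lit 276021359)), (.negSucc (nat_lit 195281039)), (.negSucc (nat_lit 2798282665485453252017)), (.ofNat (nat_lit 0)), (.ofNat (nat_lit 2934212044244074629188026368))⟩,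
    ⟨nat_lit 23, nat_lit 7, (.negSucc (nat_lit 201261055)), (.negSucc (nat_lit 66207871)), (.negSucc (nat_lit 201261039)), (.negSucc (nat_lit 66207887)), (.ofNat (nat_lit 2798282665485453252018)), (.ofNat (nat_lit 0)), (.ofNat (nat_lit 168716834363853109040295257856))⟩,
    ⟨nat_lit 7, nat_lit 8, (.negSucc (nat_lit 66207871)), (.ofNat (nat_lit 154713920)), (.negSucc (nat_lit 66207855)), (.ofNat (nat_lit 154713904)), (.negSucc (nat_lit 2798282665485453252017)), (.ofNat (nat_lit 0)), (.ofNat (nat_lit 7335530110610186572970065920))⟩,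
    ⟨nat_lit 8, nat_lit 9, (.ofNat (nat_lit 154713920)), (.ofNat (nat_lit 278314816)), (.ofNat (nat_lit 154713936)), (.ofNat (nat_lit 278314800)), (.ofNat (nat_lit 2798282665485453252018)), (.ofNat (nat_lit 0)), (.ofNat (nat_lit 0))⟩,
    ⟨nat_lit 10, nat_lit 9, (.ofNat (nat_lit 156090240)), (.ofNat (nat_lit 278314816)), (.ofNat (nat_lit 156090256)), (.ofNat (nat_lit 278314800)), (.negSucc (nat_lit 2798282665485453252017)), (.ofNat (nat_lit 0)), (.ofNat (nat_lit 14671060221220373145940131840))⟩,
    ⟨nat_lit 11, nat_lit 10, (.ofNat (nat_lit 111132544)), (.ofNat (nat_lit 156090240)), (.ofNat (nat_lit 111132560)), (.ofNat (nat_lit 156090224)), (.ofNat (nat_lit 2798282665485453252018)), (.ofNat (nat_lit 0)), (.ofNat (nat_lit 164315516297486997096513218304))⟩,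
    ⟨nat_lit 11, nat_lit 12, (.ofNat (nat_lit 111132544)), (.ofNat (nat_lit 228835136)), (.ofNat (nat_lit 111132560)), (.ofNat (nat_lit 228835120)), (.negSucc (nat_lit 2798282665485453252017)), (.ofNat (nat_lit 0)), (.ofNat (nat_lit 11736848176976298516752105472))⟩,
    ⟨nat_lit 13, nat_lit 12, (.ofNat (nat_lit 159235904)), (.ofNat (nat_lit 228835136)), (.ofNat (nat_lit 159235920)), (.ofNat (nat_lit 228835120)), (.ofNat (nat_lit 2798282665485453252018)), (.ofNat (nat_lit 0)), (.ofNat (nat_lit 1467106022122037314594013184))⟩,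
    ⟨nat_lit 14, nat_lit 13, (.negSucc (nat_lit 74989695)), (.ofNat (nat_lit 159235904)), (.negSucc (nat_lit 74989679)), (.ofNat (nat_lit 159235888)), (.negSucc (nat_lit 2798282665485453252017)), (.ofNat (nat_lit 0)), (.ofNat (nat_lit 8802636132732223887564079104))⟩,
    ⟨nat_lit 15, nat_lit 14, (.negSucc (nat_lit 195281023)), (.negSucc (nat_lit 74989695)), (.negSucc (nat_lit 195281007)), (.negSucc (nat_lit 74989711)), (.ofNat (nat_lit 2798282665485453252018)), (.ofNat (nat_lit 0)), (.ofNat (nat_lit 170183940385975146354889271040))⟩,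
    ⟨nat_lit 16, nat_lit 17, (.negSucc (nat_lit 82378751)), (.ofNat (nat_lit 153796480)), (.negSucc (nat_lit 82378735)), (.ofNat (nat_lit 153796464)), (.ofNat (nat_lit 2798282665485453252018)), (.ofNat (nat_lit 0)), (.ofNat (nat_lit 162848410275364959781919205120))⟩,
    ⟨nat_lit 18, nat_lit 17, (.ofNat (nat_lit 113426304)), (.ofNat (nat_lit 153796480)), (.ofNat (nat_lit 113426320)), (.ofNat (nat_lit 153796464)), (.negSucc (nat_lit 2798282665485453252017)), (.ofNat (nat_lit 0)), (.ofNat (nat_lit 13203954199098335831346118656))⟩,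
    ⟨nat_lit 19, nat_lit 18, (.negSucc (nat_lit 57294975)), (.ofNat (nat_lit 113426304)), (.negSucc (nat_lit 57294959)), (.ofNat (nat_lit 113426288)), (.ofNat (nat_lit 2798282665485453252018)), (.ofNat (nat_lit 0)), (.ofNat (nat_lit 165782622319609034411107231488))⟩,
    ⟨nat_lit 20, nat_lit 19, (.negSucc (nat_lit 194003071)), (.negSucc (nat_lit 57294975)), (.negSucc (nat_lit 194003055)), (.negSucc (nat_lit 57294991)), (.negSucc (nat_lit 2798282665485453252017)), (.ofNat (nat_lit 0)), (.ofNat (nat_lit 4401318066366111943782039552))⟩,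
    ⟨nat_lit 20, nat_lit 21, (.negSucc (nat_lit 194003071)), (.negSucc (nat_lit 68239487)), (.negSucc (nat_lit 194003055)), (.negSucc (nat_lit 68239503)), (.ofNat (nat_lit 2798282665485453252018)), (.ofNat (nat_lit 0)), (.ofNat (nat_lit 171651046408097183669483284224))⟩,
    ⟨nat_lit 21, nat_lit 22, (.negSucc (nat_lit 68239487)), (.ofNat (nat_lit 157335360)), (.negSucc (nat_lit 68239471)), (.ofNat (nat_lit 157335344)), (.negSucc (nat_lit 2798282665485453252017)), (.ofNat (nat_lit 0)), (.ofNat (nat_lit 10269742154854261202158092288))⟩,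
    ⟨nat_lit 0, nat_lit 22, (.negSucc (nat_lit 78446591)), (.ofNat (nat_lit 157335360)), (.negSucc (nat_lit 78446575)), (.ofNat (nat_lit 157335344)), (.ofNat (nat_lit 2798282665485453252018)), (.ofNat (nat_lit 0)), (.ofNat (nat_lit 2934212044244074629188026368))⟩,
    ⟨nat_lit 23, nat_lit 16, (.negSucc (nat_lit 201261055)), (.negSucc (nat_lit 82378751)), (.negSucc (nat_lit 201261039)), (.negSucc (nat_lit 82378767)), (.negSucc (nat_lit 2798282665485453252017)), (.ofNat (nat_lit 0)), (.ofNat (nat_lit 1467106022122037314594013184))⟩]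

theorem ok33 : stOK 23 23 S33 = true := by decide +kernel

def S34 : SD where
  vs := [
    ⟨nat_lit 0, nat_lit 0, nat_lit 22, (.ofNat (nat_lit 8)), (.negSucc (nat_lit 78446591)), (.ofNat (nat_lit 214005494652703584184123007808)), (.ofNat (nat_lit 0)), (.ofNat (nat_lit 3292392225425974875557864256)), (.negSucc (nat_lit 78446607)), (.negSucc (nat_lit 78446575)), (.negSucc (nat_lit 2842005832133663732946)), (.ofNat (nat_lit 2842005832133664467511)), (.negSucc (nat_lit 2842005832133663732946)), (.ofNat (nat_lit 2842005832133664467511)), (.ofNat (nat_lit 262338999889264354702))⟩,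
    ⟨nat_lit 2, nat_lit 0, nat_lit 1, (.ofNat (nat_lit 8)), (.negSucc (nat_lit 324206527)), (.ofNat (nat_lit 912456666069499526638698819200)), (.ofNat (nat_lit 0)), (.ofNat (nat_lit 14037794862607517183198124800)), (.negSucc (nat_lit 324206543)), (.negSucc (nat_lit 324206511)), (.negSucc (nat_lit 2842005832133663732946)), (.ofNat (nat_lit 2842005832133664745630)), (.negSucc (nat_lit 2842005832133663732946)), (.ofNat (nat_lit 2842005832133664745630)), (.ofNat (nat_lit 262338999889264910940))⟩,
    ⟨nat_lit 0, nat_lit 1, nat_lit 2, (.ofNat (nat_lit 8)), (.negSucc (nat_lit 191709311)), (.ofNat (nat_lit 1289014526682973445312021985280)), (.ofNat (nat_lit 0)), (.ofNat (nat_lit 19830992718199591465989908992)), (.negSucc (nat_lit 191709327)), (.negSucc (nat_lit 191709295)), (.ofNat (nat_lit 2842005832133664745630)), (.negSucc (nat_lit 2842005832133663459079)), (.negSucc (nat_lit 2842005832133663459079)), (.ofNat (nat_lit 2842005832133664745630)), (.ofNat (nat_lit 262338999889266388572))⟩,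
    ⟨nat_lit 0, nat_lit 2, nat_lit 3, (.ofNat (nat_lit 8)), (.negSucc (nat_lit 55001215)), (.ofNat (nat_lit 900489320551084696316421273600)), (.ofNat (nat_lit 0)), (.ofNat (nat_lit 13853681854632072250778135040)), (.negSucc (nat_lit 55001231)), (.negSucc (nat_lit 55001199)), (.negSucc (nat_lit 2842005832133663459079)), (.ofNat (nat_lit 2842005832133663459080)), (.negSucc (nat_lit 2842005832133663459079)), (.ofNat (nat_lit 2842005832133663459080)), (.ofNat (nat_lit 262338999889261242372))⟩,
    ⟨nat_lit 1, nat_lit 3, nat_lit 4, (.ofNat (nat_lit 8)), (.ofNat (nat_lit 138198912)), (.ofNat (nat_lit 1449565211096054989719600035840)), (.ofNat (nat_lit 0)), (.ofNat (nat_lit 22301003247631615226063038976)), (.ofNat (nat_lit 138198896)), (.ofNat (nat_lit 138198928)), (.ofNat (nat_lit 2842005832133663459080)), (.negSucc (nat_lit 2842005832133663459079)), (.negSucc (nat_lit 2842005832133663459079)), (.ofNat (nat_lit 2842005832133663459080)), (.ofNat (nat_lit 262338999889261242372))⟩,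
    ⟨nat_lit 0, nat_lit 5, nat_lit 4, (.ofNat (nat_lit 8)), (.negSucc (nat_lit 18694271)), (.ofNat (nat_lit 1895456555046074963399114946560)), (.ofNat (nat_lit 0)), (.ofNat (nat_lit 29160870077631922513319504384)), (.negSucc (nat_lit 18694287)), (.negSucc (nat_lit 18694255)), (.ofNat (nat_lit 2842005832133663459080)), (.negSucc (nat_lit 2842005832133663459079)), (.negSucc (nat_lit 2842005832133663459079)), (.ofNat (nat_lit 2842005832133663459080)), (.ofNat (nat_lit 262338999889261242372))⟩,
    ⟨nat_lit 2, nat_lit 6, nat_lit 5, (.ofNat (nat_lit 8)), (.negSucc (nat_lit 276021375)), (.ofNat (nat_lit 1164131424712009204563436042240)), (.ofNat (nat_lit 0)), (.ofNat (nat_lit 17909714226338603146814695936)), (.negSucc (nat_lit 276021391)), (.negSucc (nat_lit 276021359)), (.negSucc (nat_lit 2842005832133663459079)), (.ofNat (nat_lit 2842005832133663459080)), (.negSucc (nat_lit 2842005832133663459079)), (.ofNat (nat_lit 2842005832133663459080)), (.ofNat (nat_lit 262338999889261242372))⟩,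
    ⟨nat_lit 0, nat_lit 7, nat_lit 8, (.ofNat (nat_lit 8)), (.negSucc (nat_lit 66207871)), (.ofNat (nat_lit 1200171514542555931759336683520)), (.ofNat (nat_lit 0)), (.ofNat (nat_lit 18464177146808552795972643328)), (.negSucc (nat_lit 66207887)), (.negSucc (nat_lit 66207855)), (.ofNat (nat_lit 2842005832133663459080)), (.negSucc (nat_lit 2842005832133663459079)), (.negSucc (nat_lit 2842005832133663459079)), (.ofNat (nat_lit 2842005832133663459080)), (.ofNat (nat_lit 262338999889261242372))⟩,
    ⟨nat_lit 0, nat_lit 8, nat_lit 9, (.ofNat (nat_lit 8)), (.ofNat (nat_lit 154713920)), (.ofNat (nat_lit 572310493233135816854464412160)), (.ofNat (nat_lit 0)), (.ofNat (nat_lit 8804776818971320259144548224)), (.ofNat (nat_lit 154713904)), (.ofNat (nat_lit 154713936)), (.negSucc (nat_lit 2842005832133663459079)), (.ofNat (nat_lit 2842005832133663459080)), (.negSucc (nat_lit 2842005832133663459079)), (.ofNat (nat_lit 2842005832133663459080)), (.ofNat (nat_lit 262338999889261242372))⟩,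
    ⟨nat_lit 1, nat_lit 9, nat_lit 10, (.ofNat (nat_lit 8)), (.ofNat (nat_lit 278314816)), (.ofNat (nat_lit 923584960522082212159211747840)), (.ofNat (nat_lit 0)), (.ofNat (nat_lit 14208999392647418648353275776)), (.ofNat (nat_lit 278314800)), (.ofNat (nat_lit 278314832)), (.ofNat (nat_lit 2842005832133663459080)), (.negSucc (nat_lit 2842005832133663459079)), (.negSucc (nat_lit 2842005832133663459079)), (.ofNat (nat_lit 2842005832133663459080)), (.ofNat (nat_lit 262338999889261242372))⟩,
    ⟨nat_lit 0, nat_lit 11, nat_lit 10, (.ofNat (nat_lit 8)), (.ofNat (nat_lit 156090240)), (.ofNat (nat_lit 1270947918344146403771958097920)), (.ofNat (nat_lit 0)), (.ofNat (nat_lit 19553044897602252365378431488)), (.ofNat (nat_lit 156090224)), (.ofNat (nat_lit 156090256)), (.ofNat (nat_lit 2842005832133663459080)), (.negSucc (nat_lit 2842005832133663459079)), (.negSucc (nat_lit 2842005832133663459079)), (.ofNat (nat_lit 2842005832133663459080)), (.ofNat (nat_lit 262338999889261242372))⟩,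
    ⟨nat_lit 2, nat_lit 12, nat_lit 11, (.ofNat (nat_lit 8)), (.ofNat (nat_lit 111132544)), (.ofNat (nat_lit 1143177884112854130612331018240)), (.ofNat (nat_lit 0)), (.ofNat (nat_lit 17587352063274678932187982336)), (.ofNat (nat_lit 111132528)), (.ofNat (nat_lit 111132560)), (.negSucc (nat_lit 2842005832133663459079)), (.ofNat (nat_lit 2842005832133663459080)), (.negSucc (nat_lit 2842005832133663459079)), (.ofNat (nat_lit 2842005832133663459080)), (.ofNat (nat_lit 262338999889261242372))⟩,
    ⟨nat_lit 1, nat_lit 13, nat_lit 12, (.ofNat (nat_lit 8)), (.ofNat (nat_lit 228835136)), (.ofNat (nat_lit 808666431191605051022929082880)), (.ofNat (nat_lit 0)), (.ofNat (nat_lit 12441022018332385400133877632)), (.ofNat (nat_lit 228835120)), (.ofNat (nat_lit 228835152)), (.ofNat (nat_lit 2842005832133663459080)), (.negSucc (nat_lit 2842005832133663459079)), (.negSucc (nat_lit 2842005832133663459079)), (.ofNat (nat_lit 2842005832133663459080)), (.ofNat (nat_lit 262338999889261242372))⟩,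
    ⟨nat_lit 0, nat_lit 14, nat_lit 13, (.ofNat (nat_lit 8)), (.ofNat (nat_lit 159235904)), (.ofNat (nat_lit 610865007935581152924497656320)), (.ofNat (nat_lit 0)), (.ofNat (nat_lit 9397923199008940814057701248)), (.ofNat (nat_lit 159235888)), (.ofNat (nat_lit 159235920)), (.negSucc (nat_lit 2842005832133663459079)), (.ofNat (nat_lit 2842005832133663459080)), (.negSucc (nat_lit 2842005832133663459079)), (.ofNat (nat_lit 2842005832133663459080)), (.ofNat (nat_lit 262338999889261242372))⟩,
    ⟨nat_lit 0, nat_lit 15, nat_lit 14, (.ofNat (nat_lit 8)), (.negSucc (nat_lit 74989695)), (.ofNat (nat_lit 1276535529170587756825586104320)), (.ofNat (nat_lit 0)), (.ofNat (nat_lit 19639008141085965489278888448)), (.negSucc (nat_lit 74989711)), (.negSucc (nat_lit 74989679)), (.ofNat (nat_lit 2842005832133663459080)), (.negSucc (nat_lit 2842005832133663459079)), (.negSucc (nat_lit 2842005832133663459079)), (.ofNat (nat_lit 2842005832133663459080)), (.ofNat (nat_lit 262338999889261242372))⟩,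
    ⟨nat_lit 0, nat_lit 6, nat_lit 15, (.ofNat (nat_lit 8)), (.negSucc (nat_lit 195281023)), (.ofNat (nat_lit 934666873439484305827779246080)), (.ofNat (nat_lit 0)), (.ofNat (nat_lit 14379490360607450858635930112)), (.negSucc (nat_lit 195281039)), (.negSucc (nat_lit 195281007)), (.negSucc (nat_lit 2842005832133663459079)), (.ofNat (nat_lit 2842005832133663459080)), (.negSucc (nat_lit 2842005832133663459079)), (.ofNat (nat_lit 2842005832133663459080)), (.ofNat (nat_lit 262338999889261242372))⟩,
    ⟨nat_lit 0, nat_lit 23, nat_lit 16, (.ofNat (nat_lit 8)), (.negSucc (nat_lit 82378751)), (.ofNat (nat_lit 478485376660848020050088852480)), (.ofNat (nat_lit 0)), (.ofNat (nat_lit 7361313487089969539102627072)), (.negSucc (nat_lit 82378767)), (.negSucc (nat_lit 82378735)), (.negSucc (nat_lit 2842005832133663459079)), (.ofNat (nat_lit 2842005832133663459080)), (.negSucc (nat_lit 2842005832133663459079)), (.ofNat (nat_lit 2842005832133663459080)), (.ofNat (nat_lit 262338999889261242372))⟩,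
    ⟨nat_lit 1, nat_lit 16, nat_lit 17, (.ofNat (nat_lit 8)), (.ofNat (nat_lit 153796480)), (.ofNat (nat_lit 1149696763410369042508230359040)), (.ofNat (nat_lit 0)), (.ofNat (nat_lit 17687642514005677576738515456)), (.ofNat (nat_lit 153796464)), (.ofNat (nat_lit 153796496)), (.ofNat (nat_lit 2842005832133663459080)), (.negSucc (nat_lit 2842005832133663459079)), (.negSucc (nat_lit 2842005832133663459079)), (.ofNat (nat_lit 2842005832133663459080)), (.ofNat (nat_lit 262338999889261242372))⟩,
    ⟨nat_lit 0, nat_lit 18, nat_lit 17, (.ofNat (nat_lit 8)), (.ofNat (nat_lit 113426304)), (.ofNat (nat_lit 1264429039046631491876058757120)), (.ofNat (nat_lit 0)), (.ofNat (nat_lit 19452754446871253720827898368)), (.ofNat (nat_lit 113426288)), (.ofNat (nat_lit 113426320)), (.ofNat (nat_lit 2842005832133663459080)), (.negSucc (nat_lit 2842005832133663459079)), (.negSucc (nat_lit 2842005832133663459079)), (.ofNat (nat_lit 2842005832133663459080)), (.ofNat (nat_lit 262338999889261242372))⟩,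
    ⟨nat_lit 0, nat_lit 19, nat_lit 18, (.ofNat (nat_lit 8)), (.negSucc (nat_lit 57294975)), (.ofNat (nat_lit 779238165617307335052693534720)), (.ofNat (nat_lit 0)), (.ofNat (nat_lit 11988279471035497462138219008)), (.negSucc (nat_lit 57294991)), (.negSucc (nat_lit 57294959)), (.negSucc (nat_lit 2842005832133663459079)), (.ofNat (nat_lit 2842005832133663459080)), (.negSucc (nat_lit 2842005832133663459079)), (.ofNat (nat_lit 2842005832133663459080)), (.ofNat (nat_lit 262338999889261242372))⟩,
    ⟨nat_lit 2, nat_lit 19, nat_lit 20, (.ofNat (nat_lit 8)), (.negSucc (nat_lit 194003071)), (.ofNat (nat_lit 1167763371749196084048294246400)), (.ofNat (nat_lit 0)), (.ofNat (nat_lit 17965590334603016677349992960)), (.negSucc (nat_lit 194003087)), (.negSucc (nat_lit 194003055)), (.negSucc (nat_lit 2842005832133663459079)), (.ofNat (nat_lit 2842005832133663459080)), (.negSucc (nat_lit 2842005832133663459079)), (.ofNat (nat_lit 2842005832133663459080)), (.ofNat (nat_lit 262338999889261242372))⟩,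
    ⟨nat_lit 0, nat_lit 20, nat_lit 21, (.ofNat (nat_lit 8)), (.negSucc (nat_lit 68239487)), (.ofNat (nat_lit 1525184210947227967712032389120)), (.ofNat (nat_lit 0)), (.ofNat (nat_lit 23464372476111199502849223168)), (.negSucc (nat_lit 68239503)), (.negSucc (nat_lit 68239471)), (.ofNat (nat_lit 2842005832133663459080)), (.negSucc (nat_lit 2842005832133663459079)), (.negSucc (nat_lit 2842005832133663459079)), (.ofNat (nat_lit 2842005832133663459080)), (.ofNat (nat_lit 262338999889261242372))⟩,
    ⟨nat_lit 1, nat_lit 22, nat_lit 21, (.ofNat (nat_lit 8)), (.ofNat (nat_lit 157335360)), (.ofNat (nat_lit 884099177348563317246907169280)), (.ofNat (nat_lit 0)), (.ofNat (nat_lit 13601525805362512572790046592)), (.ofNat (nat_lit 157335344)), (.ofNat (nat_lit 157335376)), (.ofNat (nat_lit 2842005832133664467511)), (.negSucc (nat_lit 2842005832133663459079)), (.negSucc (nat_lit 2842005832133663459079)), (.ofNat (nat_lit 2842005832133664467511)), (.ofNat (nat_lit 262338999889265276096))⟩,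
    ⟨nat_lit 2, nat_lit 23, nat_lit 7, (.ofNat (nat_lit 8)), (.negSucc (nat_lit 201261055)), (.ofNat (nat_lit 816349577966335168026128972800)), (.ofNat (nat_lit 0)), (.ofNat (nat_lit 12559224276405156430950257920)), (.negSucc (nat_lit 201261071)), (.negSucc (nat_lit 201261039)), (.negSucc (nat_lit 2842005832133663459079)), (.ofNat (nat_lit 2842005832133663459080)), (.negSucc (nat_lit 2842005832133663459079)), (.ofNat (nat_lit 2842005832133663459080)), (.ofNat (nat_lit 262338999889261242372))⟩]
  es := [
    ⟨nat_lit 1, nat_lit 0, (.negSucc (nat_lit 324206527)), (.negSucc (nat_lit 78446591)), (.negSucc (nat_lit 324206511)), (.negSucc (nat_lit 78446607)), (.negSucc (nat_lit 2842005832133663732946)), (.negSucc (nat_lit 43723166648210480928)), (.negSucc (nat_lit 137541189574200252003179711))⟩,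
    ⟨nat_lit 1, nat_lit 2, (.negSucc (nat_lit 324206527)), (.negSucc (nat_lit 191709311)), (.negSucc (nat_lit 324206511)), (.negSucc (nat_lit 191709327)), (.ofNat (nat_lit 2842005832133664745630)), (.ofNat (nat_lit 43723166648211493612)), (.ofNat (nat_lit 28213130914789562936838823936))⟩,
    ⟨nat_lit 2, nat_lit 3, (.negSucc (nat_lit 191709311)), (.negSucc (nat_lit 55001215)), (.negSucc (nat_lit 191709295)), (.negSucc (nat_lit 55001231)), (.negSucc (nat_lit 2842005832133663459079)), (.negSucc (nat_lit 43723166648210207061)), (.ofNat (nat_lit 11448854521609866638756347648))⟩,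
    ⟨nat_lit 3, nat_lit 4, (.negSucc (nat_lit 55001215)), (.ofNat (nat_lit 138198912)), (.negSucc (nat_lit 55001199)), (.ofNat (nat_lit 138198896)), (.ofNat (nat_lit 2842005832133663459080)), (.ofNat (nat_lit 43723166648210207062)), (.ofNat (nat_lit 16258509187654277862799922432))⟩,
    ⟨nat_lit 5, nat_lit 4, (.negSucc (nat_lit 18694271)), (.ofNat (nat_lit 138198912)), (.negSucc (nat_lit 18694255)), (.ofNat (nat_lit 138198896)), (.negSucc (nat_lit 2842005832133663459079)), (.negSucc (nat_lit 43723166648210207061)), (.ofNat (nat_lit 28343497307608952589326155520))⟩,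
    ⟨nat_lit 6, nat_lit 5, (.negSucc (nat_lit 276021375)), (.negSucc (nat_lit 18694271)), (.negSucc (nat_lit 276021359)), (.negSucc (nat_lit 18694287)), (.ofNat (nat_lit 2842005832133663459080)), (.ofNat (nat_lit 43723166648210207062)), (.ofNat (nat_lit 29978242847654892437312853248))⟩,
    ⟨nat_lit 6, nat_lit 15, (.negSucc (nat_lit 276021375)), (.negSucc (nat_lit 195281023)), (.negSucc (nat_lit 276021359)), (.negSucc (nat_lit 195281039)), (.negSucc (nat_lit 2842005832133663459079)), (.negSucc (nat_lit 43723166648210207061)), (.ofNat (nat_lit 5841185605022313856316538624))⟩,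
    ⟨nat_lit 23, nat_lit 7, (.negSucc (nat_lit 201261055)), (.negSucc (nat_lit 66207871)), (.negSucc (nat_lit 201261039)), (.negSucc (nat_lit 66207887)), (.ofNat (nat_lit 2842005832133663459080)), (.ofNat (nat_lit 43723166648210207062)), (.ofNat (nat_lit 21358994967687923214227035392))⟩,
    ⟨nat_lit 7, nat_lit 8, (.negSucc (nat_lit 66207871)), (.ofNat (nat_lit 154713920)), (.negSucc (nat_lit 66207855)), (.ofNat (nat_lit 154713904)), (.negSucc (nat_lit 2842005832133663459079)), (.negSucc (nat_lit 43723166648210207061)), (.ofNat (nat_lit 15569359325929182377718251264))⟩,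
    ⟨nat_lit 8, nat_lit 9, (.ofNat (nat_lit 154713920)), (.ofNat (nat_lit 278314816)), (.ofNat (nat_lit 154713936)), (.ofNat (nat_lit 278314800)), (.ofNat (nat_lit 2842005832133663459080)), (.ofNat (nat_lit 43723166648210207062)), (.ofNat (nat_lit 2040194312013458140570845184))⟩,
    ⟨nat_lit 10, nat_lit 9, (.ofNat (nat_lit 156090240)), (.ofNat (nat_lit 278314816)), (.ofNat (nat_lit 156090256)), (.ofNat (nat_lit 278314800)), (.negSucc (nat_lit 2842005832133663459079)), (.negSucc (nat_lit 43723166648210207061)), (.ofNat (nat_lit 26377804473281379156135706368))⟩,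
    ⟨nat_lit 11, nat_lit 10, (.ofNat (nat_lit 111132544)), (.ofNat (nat_lit 156090240)), (.ofNat (nat_lit 111132560)), (.ofNat (nat_lit 156090224)), (.ofNat (nat_lit 2842005832133663459080)), (.ofNat (nat_lit 43723166648210207062)), (.ofNat (nat_lit 12728285321923125574621156608))⟩,
    ⟨nat_lit 11, nat_lit 12, (.ofNat (nat_lit 111132544)), (.ofNat (nat_lit 228835136)), (.ofNat (nat_lit 111132560)), (.ofNat (nat_lit 228835120)), (.negSucc (nat_lit 2842005832133663459079)), (.negSucc (nat_lit 43723166648210207061)), (.ofNat (nat_lit 22446418804626232289754808064))⟩,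
    ⟨nat_lit 13, nat_lit 12, (.ofNat (nat_lit 159235904)), (.ofNat (nat_lit 228835136)), (.ofNat (nat_lit 159235920)), (.ofNat (nat_lit 228835120)), (.ofNat (nat_lit 2842005832133663459080)), (.ofNat (nat_lit 43723166648210207062)), (.ofNat (nat_lit 2435625232038538510512947200))⟩,
    ⟨nat_lit 14, nat_lit 13, (.negSucc (nat_lit 74989695)), (.ofNat (nat_lit 159235904)), (.negSucc (nat_lit 74989679)), (.ofNat (nat_lit 159235888)), (.negSucc (nat_lit 2842005832133663459079)), (.negSucc (nat_lit 43723166648210207061)), (.ofNat (nat_lit 16360221165979343117602455296))⟩,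
    ⟨nat_lit 15, nat_lit 14, (.negSucc (nat_lit 195281023)), (.negSucc (nat_lit 74989695)), (.negSucc (nat_lit 195281007)), (.negSucc (nat_lit 74989711)), (.ofNat (nat_lit 2842005832133663459080)), (.ofNat (nat_lit 43723166648210207062)), (.ofNat (nat_lit 22917795116192587860955321600))⟩,
    ⟨nat_lit 16, nat_lit 17, (.negSucc (nat_lit 82378751)), (.ofNat (nat_lit 153796480)), (.negSucc (nat_lit 82378735)), (.ofNat (nat_lit 153796464)), (.ofNat (nat_lit 2842005832133663459080)), (.ofNat (nat_lit 43723166648210207062)), (.ofNat (nat_lit 10963173389057549430531773696))⟩,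
    ⟨nat_lit 18, nat_lit 17, (.ofNat (nat_lit 113426304)), (.ofNat (nat_lit 153796480)), (.ofNat (nat_lit 113426320)), (.ofNat (nat_lit 153796464)), (.negSucc (nat_lit 2842005832133663459079)), (.negSucc (nat_lit 43723166648210207061)), (.ofNat (nat_lit 24412111638953805722945257216))⟩,
    ⟨nat_lit 19, nat_lit 18, (.negSucc (nat_lit 57294975)), (.ofNat (nat_lit 113426304)), (.negSucc (nat_lit 57294959)), (.ofNat (nat_lit 113426288)), (.ofNat (nat_lit 2842005832133663459080)), (.ofNat (nat_lit 43723166648210207062)), (.ofNat (nat_lit 14493397254788701718710539520))⟩,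
    ⟨nat_lit 20, nat_lit 19, (.negSucc (nat_lit 194003071)), (.negSucc (nat_lit 57294975)), (.negSucc (nat_lit 194003055)), (.negSucc (nat_lit 57294991)), (.negSucc (nat_lit 2842005832133663459079)), (.negSucc (nat_lit 43723166648210207061)), (.ofNat (nat_lit 9483161687282293205565898496))⟩,
    ⟨nat_lit 20, nat_lit 21, (.negSucc (nat_lit 194003071)), (.negSucc (nat_lit 68239487)), (.negSucc (nat_lit 194003055)), (.negSucc (nat_lit 68239503)), (.ofNat (nat_lit 2842005832133663459080)), (.ofNat (nat_lit 43723166648210207062)), (.ofNat (nat_lit 26448018981923740149134087424))⟩,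
    ⟨nat_lit 21, nat_lit 22, (.negSucc (nat_lit 68239487)), (.ofNat (nat_lit 157335360)), (.negSucc (nat_lit 68239471)), (.ofNat (nat_lit 157335344)), (.negSucc (nat_lit 2842005832133663459079)), (.negSucc (nat_lit 43723166648210207061)), (.ofNat (nat_lit 20480725970298658856564358912))⟩,
    ⟨nat_lit 0, nat_lit 22, (.negSucc (nat_lit 78446591)), (.ofNat (nat_lit 157335360)), (.negSucc (nat_lit 78446575)), (.ofNat (nat_lit 157335344)), (.ofNat (nat_lit 2842005832133664467511)), (.ofNat (nat_lit 43723166648211215493)), (.ofNat (nat_lit 6722325640426207627161314112))⟩,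
    ⟨nat_lit 23, nat_lit 16, (.negSucc (nat_lit 201261055)), (.negSucc (nat_lit 82378751)), (.negSucc (nat_lit 201261039)), (.negSucc (nat_lit 82378767)), (.negSucc (nat_lit 2842005832133663459079)), (.negSucc (nat_lit 43723166648210207061)), (.ofNat (nat_lit 3759453585122389647673480448))⟩]

theorem ok34 : stOK 23 23 S34 = true := by decide +kernel

def S35 : SD where
  vs := [
    ⟨nat_lit 0, nat_lit 0, nat_lit 22, (.ofNat (nat_lit 8)), (.negSucc (nat_lit 17629247)), (.ofNat (nat_lit 389828800103018235464364745024)), (.ofNat (nat_lit 60817344)), (.ofNat (nat_lit 175823305450314651280241737216)), (.negSucc (nat_lit 17629263)), (.negSucc (nat_lit 17629231)), (.negSucc (nat_lit 2842005832133663732946)), (.ofNat (nat_lit 2842005832133664467511)), (.negSucc (nat_lit 2842005832133663732946)), (.ofNat (nat_lit 2842005832133664467511)), (.ofNat (nat_lit 0))⟩,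
    ⟨nat_lit 2, nat_lit 0, nat_lit 1, (.ofNat (nat_lit 8)), (.negSucc (nat_lit 265486335)), (.ofNat (nat_lit 1094240089734684955083817823360)), (.ofNat (nat_lit 58720192)), (.ofNat (nat_lit 181783423665185428445119004160)), (.negSucc (nat_lit 265486351)), (.negSucc (nat_lit 265486319)), (.negSucc (nat_lit 2842005832133663732946)), (.ofNat (nat_lit 2842005832133664745630)), (.negSucc (nat_lit 2842005832133663732946)), (.ofNat (nat_lit 2842005832133664745630)), (.ofNat (nat_lit 0))⟩,
    ⟨nat_lit 0, nat_lit 1, nat_lit 2, (.ofNat (nat_lit 8)), (.negSucc (nat_lit 132202687)), (.ofNat (nat_lit 1473032994678735415990376281600)), (.ofNat (nat_lit 59506624)), (.ofNat (nat_lit 184018467995761970678354296320)), (.negSucc (nat_lit 132202703)), (.negSucc (nat_lit 132202671)), (.ofNat (nat_lit 2842005832133664745630)), (.negSucc (nat_lit 2842005832133663459079)), (.negSucc (nat_lit 2842005832133663459079)), (.ofNat (nat_lit 2842005832133664745630)), (.ofNat (nat_lit 0))⟩,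
    ⟨nat_lit 0, nat_lit 2, nat_lit 3, (.ofNat (nat_lit 8)), (.ofNat (nat_lit 5553984)), (.ofNat (nat_lit 1081527729439411278699507299840)), (.ofNat (nat_lit 60555200)), (.ofNat (nat_lit 181038408888326582383086026240)), (.ofNat (nat_lit 5553968)), (.ofNat (nat_lit 5554000)), (.negSucc (nat_lit 2842005832133663459079)), (.ofNat (nat_lit 2842005832133663459080)), (.negSucc (nat_lit 2842005832133663459079)), (.ofNat (nat_lit 2842005832133663459080)), (.ofNat (nat_lit 0))⟩,
    ⟨nat_lit 1, nat_lit 3, nat_lit 4, (.ofNat (nat_lit 8)), (.ofNat (nat_lit 200589120)), (.ofNat (nat_lit 1635818723422393501619405534720)), (.ofNat (nat_lit 62390208)), (.ofNat (nat_lit 186253512326338511899805498880)), (.ofNat (nat_lit 200589104)), (.ofNat (nat_lit 200589136)), (.ofNat (nat_lit 2842005832133663459080)), (.negSucc (nat_lit 2842005832133663459079)), (.negSucc (nat_lit 2842005832133663459079)), (.ofNat (nat_lit 2842005832133663459080)), (.ofNat (nat_lit 0))⟩,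
    ⟨nat_lit 0, nat_lit 5, nat_lit 4, (.ofNat (nat_lit 8)), (.ofNat (nat_lit 42385216)), (.ofNat (nat_lit 2085435141256707710668005783040)), (.ofNat (nat_lit 61079488)), (.ofNat (nat_lit 189978586210632747268890836480)), (.ofNat (nat_lit 42385200)), (.ofNat (nat_lit 42385232)), (.ofNat (nat_lit 2842005832133663459080)), (.negSucc (nat_lit 2842005832133663459079)), (.negSucc (nat_lit 2842005832133663459079)), (.ofNat (nat_lit 2842005832133663459080)), (.ofNat (nat_lit 0))⟩,
    ⟨nat_lit 2, nat_lit 6, nat_lit 5, (.ofNat (nat_lit 8)), (.negSucc (nat_lit 217301183)), (.ofNat (nat_lit 1347404877930912328167973271040)), (.ofNat (nat_lit 58720192)), (.ofNat (nat_lit 183273453218903123604537228800)), (.negSucc (nat_lit 217301199)), (.negSucc (nat_lit 217301167)), (.negSucc (nat_lit 2842005832133663459079)), (.ofNat (nat_lit 2842005832133663459080)), (.negSucc (nat_lit 2842005832133663459079)), (.ofNat (nat_lit 2842005832133663459080)), (.ofNat (nat_lit 0))⟩,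
    ⟨nat_lit 0, nat_lit 7, nat_lit 8, (.ofNat (nat_lit 8)), (.negSucc (nat_lit 5652671)), (.ofNat (nat_lit 1382699952984600208290056844800)), (.ofNat (nat_lit 60555200)), (.ofNat (nat_lit 182528438442044276530720161280)), (.negSucc (nat_lit 5652687)), (.negSucc (nat_lit 5652655)), (.ofNat (nat_lit 2842005832133663459080)), (.negSucc (nat_lit 2842005832133663459079)), (.negSucc (nat_lit 2842005832133663459079)), (.ofNat (nat_lit 2842005832133663459080)), (.ofNat (nat_lit 0))⟩,
    ⟨nat_lit 0, nat_lit 8, nat_lit 9, (.ofNat (nat_lit 8)), (.ofNat (nat_lit 217104128)), (.ofNat (nat_lit 749623828237168163868465100800)), (.ofNat (nat_lit 62390208)), (.ofNat (nat_lit 177313335004032347014000688640)), (.ofNat (nat_lit 217104112)), (.ofNat (nat_lit 217104144)), (.negSucc (nat_lit 2842005832133663459079)), (.ofNat (nat_lit 2842005832133663459080)), (.negSucc (nat_lit 2842005832133663459079)), (.ofNat (nat_lit 2842005832133663459080)), (.ofNat (nat_lit 0))⟩,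
    ⟨nat_lit 1, nat_lit 9, nat_lit 10, (.ofNat (nat_lit 8)), (.ofNat (nat_lit 342015744)), (.ofNat (nat_lit 1104623369410408794542297774080)), (.ofNat (nat_lit 63700928)), (.ofNat (nat_lit 181038408888326582383086026240)), (.ofNat (nat_lit 342015728)), (.ofNat (nat_lit 342015760)), (.ofNat (nat_lit 2842005832133663459080)), (.negSucc (nat_lit 2842005832133663459079)), (.negSucc (nat_lit 2842005832133663459079)), (.ofNat (nat_lit 2842005832133663459080)), (.ofNat (nat_lit 0))⟩,
    ⟨nat_lit 0, nat_lit 11, nat_lit 10, (.ofNat (nat_lit 8)), (.ofNat (nat_lit 218742592)), (.ofNat (nat_lit 1454966386339908374450312394240)), (.ofNat (nat_lit 62652352)), (.ofNat (nat_lit 184018467995761970678354296320)), (.ofNat (nat_lit 218742576)), (.ofNat (nat_lit 218742608)), (.ofNat (nat_lit 2842005832133663459080)), (.negSucc (nat_lit 2842005832133663459079)), (.negSucc (nat_lit 2842005832133663459079)), (.ofNat (nat_lit 2842005832133663459080)), (.ofNat (nat_lit 0))⟩,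
    ⟨nat_lit 2, nat_lit 12, nat_lit 11, (.ofNat (nat_lit 8)), (.ofNat (nat_lit 173260608)), (.ofNat (nat_lit 1325706322554898407143051179520)), (.ofNat (nat_lit 62128064)), (.ofNat (nat_lit 182528438442044276530720161280)), (.ofNat (nat_lit 173260592)), (.ofNat (nat_lit 173260624)), (.negSucc (nat_lit 2842005832133663459079)), (.ofNat (nat_lit 2842005832133663459080)), (.negSucc (nat_lit 2842005832133663459079)), (.ofNat (nat_lit 2842005832133663459080)), (.ofNat (nat_lit 0))⟩,
    ⟨nat_lit 1, nat_lit 13, nat_lit 12, (.ofNat (nat_lit 8)), (.ofNat (nat_lit 291749632)), (.ofNat (nat_lit 988959825303072786332198041600)), (.ofNat (nat_lit 62914496)), (.ofNat (nat_lit 180293394111467735309268958720)), (.ofNat (nat_lit 291749616)), (.ofNat (nat_lit 291749648)), (.ofNat (nat_lit 2842005832133663459080)), (.negSucc (nat_lit 2842005832133663459079)), (.negSucc (nat_lit 2842005832133663459079)), (.ofNat (nat_lit 2842005832133663459080)), (.ofNat (nat_lit 0))⟩,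
    ⟨nat_lit 0, nat_lit 14, nat_lit 13, (.ofNat (nat_lit 8)), (.ofNat (nat_lit 221626112)), (.ofNat (nat_lit 789668372493331194086132480000)), (.ofNat (nat_lit 62390208)), (.ofNat (nat_lit 178803364557750041161634823680)), (.ofNat (nat_lit 221626096)), (.ofNat (nat_lit 221626128)), (.negSucc (nat_lit 2842005832133663459079)), (.ofNat (nat_lit 2842005832133663459080)), (.negSucc (nat_lit 2842005832133663459079)), (.ofNat (nat_lit 2842005832133663459080)), (.ofNat (nat_lit 0))⟩,
    ⟨nat_lit 0, nat_lit 15, nat_lit 14, (.ofNat (nat_lit 8)), (.negSucc (nat_lit 14434495)), (.ofNat (nat_lit 1460553997166349727503940400640)), (.ofNat (nat_lit 60555200)), (.ofNat (nat_lit 184018467995761970678354296320)), (.negSucc (nat_lit 14434511)), (.negSucc (nat_lit 14434479)), (.ofNat (nat_lit 2842005832133663459080)), (.negSucc (nat_lit 2842005832133663459079)), (.negSucc (nat_lit 2842005832133663459079)), (.ofNat (nat_lit 2842005832133663459080)), (.ofNat (nat_lit 0))⟩,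
    ⟨nat_lit 0, nat_lit 6, nat_lit 15, (.ofNat (nat_lit 8)), (.negSucc (nat_lit 135774399)), (.ofNat (nat_lit 1115705282327810888210865272320)), (.ofNat (nat_lit 59506624)), (.ofNat (nat_lit 181038408888326582383086026240)), (.negSucc (nat_lit 135774415)), (.negSucc (nat_lit 135774383)), (.negSucc (nat_lit 2842005832133663459079)), (.ofNat (nat_lit 2842005832133663459080)), (.negSucc (nat_lit 2842005832133663459079)), (.ofNat (nat_lit 2842005832133663459080)), (.ofNat (nat_lit 0))⟩,
    ⟨nat_lit 0, nat_lit 23, nat_lit 16, (.ofNat (nat_lit 8)), (.negSucc (nat_lit 83165183)), (.ofNat (nat_lit 480720420991424561271540055040)), (.negSucc (nat_lit 786431)), (.ofNat (nat_lit 2235044330576541221451202560)), (.negSucc (nat_lit 83165199)), (.negSucc (nat_lit 83165167)), (.negSucc (nat_lit 2842005832133663459079)), (.ofNat (nat_lit 2842005832133663459080)), (.negSucc (nat_lit 2842005832133663459079)), (.ofNat (nat_lit 2842005832133663459080)), (.ofNat (nat_lit 0))⟩,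
    ⟨nat_lit 1, nat_lit 16, nat_lit 17, (.ofNat (nat_lit 8)), (.ofNat (nat_lit 216448832)), (.ofNat (nat_lit 1332225201852413319038950520320)), (.ofNat (nat_lit 62652352)), (.ofNat (nat_lit 182528438442044276530720161280)), (.ofNat (nat_lit 216448816)), (.ofNat (nat_lit 216448848)), (.ofNat (nat_lit 2842005832133663459080)), (.negSucc (nat_lit 2842005832133663459079)), (.negSucc (nat_lit 2842005832133663459079)), (.ofNat (nat_lit 2842005832133663459080)), (.ofNat (nat_lit 0))⟩,
    ⟨nat_lit 0, nat_lit 18, nat_lit 17, (.ofNat (nat_lit 8)), (.ofNat (nat_lit 175554368)), (.ofNat (nat_lit 1448447507042393462554413053440)), (.ofNat (nat_lit 62128064)), (.ofNat (nat_lit 184018467995761970678354296320)), (.ofNat (nat_lit 175554352)), (.ofNat (nat_lit 175554384)), (.ofNat (nat_lit 2842005832133663459080)), (.negSucc (nat_lit 2842005832133663459079)), (.negSucc (nat_lit 2842005832133663459079)), (.ofNat (nat_lit 2842005832133663459080)), (.ofNat (nat_lit 0))⟩,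
    ⟨nat_lit 0, nat_lit 19, nat_lit 18, (.ofNat (nat_lit 8)), (.ofNat (nat_lit 3260224)), (.ofNat (nat_lit 958786544951916223288145425920)), (.ofNat (nat_lit 60555200)), (.ofNat (nat_lit 179548379334608888235451891200)), (.ofNat (nat_lit 3260208)), (.ofNat (nat_lit 3260240)), (.negSucc (nat_lit 2842005832133663459079)), (.ofNat (nat_lit 2842005832133663459080)), (.negSucc (nat_lit 2842005832133663459079)), (.ofNat (nat_lit 2842005832133663459080)), (.ofNat (nat_lit 0))⟩,
    ⟨nat_lit 2, nat_lit 19, nat_lit 20, (.ofNat (nat_lit 8)), (.negSucc (nat_lit 134496447)), (.ofNat (nat_lit 1350291810191240360579014407680)), (.ofNat (nat_lit 59506624)), (.ofNat (nat_lit 182528438442044276530720161280)), (.negSucc (nat_lit 134496463)), (.negSucc (nat_lit 134496431)), (.negSucc (nat_lit 2842005832133663459079)), (.ofNat (nat_lit 2842005832133663459080)), (.negSucc (nat_lit 2842005832133663459079)), (.ofNat (nat_lit 2842005832133663459080)), (.ofNat (nat_lit 0))⟩,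
    ⟨nat_lit 0, nat_lit 20, nat_lit 21, (.ofNat (nat_lit 8)), (.negSucc (nat_lit 7684287)), (.ofNat (nat_lit 1710692708496707632538020820480)), (.ofNat (nat_lit 60555200)), (.ofNat (nat_lit 185508497549479664825988431360)), (.negSucc (nat_lit 7684303)), (.negSucc (nat_lit 7684271)), (.ofNat (nat_lit 2842005832133663459080)), (.negSucc (nat_lit 2842005832133663459079)), (.negSucc (nat_lit 2842005832133663459079)), (.ofNat (nat_lit 2842005832133663459080)), (.ofNat (nat_lit 0))⟩,
    ⟨nat_lit 1, nat_lit 22, nat_lit 21, (.ofNat (nat_lit 8)), (.ofNat (nat_lit 219725568)), (.ofNat (nat_lit 1064392571460031052556176128000)), (.ofNat (nat_lit 62390208)), (.ofNat (nat_lit 180293394111467735309268958720)), (.ofNat (nat_lit 219725552)), (.ofNat (nat_lit 219725584)), (.ofNat (nat_lit 2842005832133664467511)), (.negSucc (nat_lit 2842005832133663459079)), (.negSucc (nat_lit 2842005832133663459079)), (.ofNat (nat_lit 2842005832133664467511)), (.ofNat (nat_lit 0))⟩,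
    ⟨nat_lit 2, nat_lit 23, nat_lit 7, (.ofNat (nat_lit 8)), (.negSucc (nat_lit 203096063)), (.ofNat (nat_lit 821564681404347097542848445440)), (.negSucc (nat_lit 1835007)), (.ofNat (nat_lit 5215103438011929516719472640)), (.negSucc (nat_lit 203096079)), (.negSucc (nat_lit 203096047)), (.negSucc (nat_lit 2842005832133663459079)), (.ofNat (nat_lit 2842005832133663459080)), (.negSucc (nat_lit 2842005832133663459079)), (.ofNat (nat_lit 2842005832133663459080)), (.ofNat (nat_lit 0))⟩]
  es := [
    ⟨nat_lit 1, nat_lit 0, (.negSucc (nat_lit 265486335)), (.negSucc (nat_lit 17629247)), (.negSucc (nat_lit 265486319)), (.negSucc (nat_lit 17629263)), (.negSucc (nat_lit 2842005832133663732946)), (.ofNat (nat_lit 0)), (.ofNat (nat_lit 348666551793193932507203569984))⟩,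
    ⟨nat_lit 1, nat_lit 2, (.negSucc (nat_lit 265486335)), (.negSucc (nat_lit 132202687)), (.negSucc (nat_lit 265486319)), (.negSucc (nat_lit 132202703)), (.ofNat (nat_lit 2842005832133664745630)), (.ofNat (nat_lit 0)), (.ofNat (nat_lit 14900295537176864918094243200))⟩,
    ⟨nat_lit 2, nat_lit 3, (.negSucc (nat_lit 132202687)), (.ofNat (nat_lit 5553984)), (.negSucc (nat_lit 132202671)), (.ofNat (nat_lit 5553968)), (.negSucc (nat_lit 2842005832133663459079)), (.ofNat (nat_lit 0)), (.ofNat (nat_lit 353136640454346999880367242240))⟩,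
    ⟨nat_lit 3, nat_lit 4, (.ofNat (nat_lit 5553984)), (.ofNat (nat_lit 200589120)), (.ofNat (nat_lit 5554000)), (.ofNat (nat_lit 200589104)), (.ofNat (nat_lit 2842005832133663459080)), (.ofNat (nat_lit 0)), (.ofNat (nat_lit 8940177322306164885804810240))⟩,
    ⟨nat_lit 5, nat_lit 4, (.ofNat (nat_lit 42385216)), (.ofNat (nat_lit 200589120)), (.ofNat (nat_lit 42385232)), (.ofNat (nat_lit 200589104)), (.negSucc (nat_lit 2842005832133663459079)), (.ofNat (nat_lit 0)), (.ofNat (nat_lit 363566847330370858913806187520))⟩,
    ⟨nat_lit 6, nat_lit 5, (.negSucc (nat_lit 217301183)), (.ofNat (nat_lit 42385216)), (.negSucc (nat_lit 217301167)), (.ofNat (nat_lit 42385200)), (.ofNat (nat_lit 2842005832133663459080)), (.ofNat (nat_lit 0)), (.ofNat (nat_lit 16390325090894635623975485440))⟩,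
    ⟨nat_lit 6, nat_lit 15, (.negSucc (nat_lit 217301183)), (.negSucc (nat_lit 135774399)), (.negSucc (nat_lit 217301167)), (.negSucc (nat_lit 135774415)), (.negSucc (nat_lit 2842005832133663459079)), (.ofNat (nat_lit 0)), (.ofNat (nat_lit 350156581346911611585098972160))⟩,
    ⟨nat_lit 23, nat_lit 7, (.negSucc (nat_lit 203096063)), (.negSucc (nat_lit 5652671)), (.negSucc (nat_lit 203096047)), (.negSucc (nat_lit 5652687)), (.ofNat (nat_lit 2842005832133663459080)), (.ofNat (nat_lit 0)), (.ofNat (nat_lit 10430206876023859033438945280))⟩,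
    ⟨nat_lit 7, nat_lit 8, (.negSucc (nat_lit 5652671)), (.ofNat (nat_lit 217104128)), (.negSucc (nat_lit 5652655)), (.ofNat (nat_lit 217104112)), (.negSucc (nat_lit 2842005832133663459079)), (.ofNat (nat_lit 0)), (.ofNat (nat_lit 354626670008064694028001377280))⟩,
    ⟨nat_lit 8, nat_lit 9, (.ofNat (nat_lit 217104128)), (.ofNat (nat_lit 342015744)), (.ofNat (nat_lit 217104144)), (.ofNat (nat_lit 342015728)), (.ofNat (nat_lit 2842005832133663459080)), (.ofNat (nat_lit 0)), (.ofNat (nat_lit 0))⟩,
    ⟨nat_lit 10, nat_lit 9, (.ofNat (nat_lit 218742592)), (.ofNat (nat_lit 342015744)), (.ofNat (nat_lit 218742608)), (.ofNat (nat_lit 342015728)), (.negSucc (nat_lit 2842005832133663459079)), (.ofNat (nat_lit 0)), (.ofNat (nat_lit 362076817776653164766172052480))⟩,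
    ⟨nat_lit 11, nat_lit 10, (.ofNat (nat_lit 173260608)), (.ofNat (nat_lit 218742592)), (.ofNat (nat_lit 173260624)), (.ofNat (nat_lit 218742576)), (.ofNat (nat_lit 2842005832133663459080)), (.ofNat (nat_lit 0)), (.ofNat (nat_lit 5960118214870776590536540160))⟩,
    ⟨nat_lit 11, nat_lit 12, (.ofNat (nat_lit 173260608)), (.ofNat (nat_lit 291749632)), (.ofNat (nat_lit 173260624)), (.ofNat (nat_lit 291749616)), (.negSucc (nat_lit 2842005832133663459079)), (.ofNat (nat_lit 0)), (.ofNat (nat_lit 359096758669217776470903782400))⟩,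
    ⟨nat_lit 13, nat_lit 12, (.ofNat (nat_lit 221626112)), (.ofNat (nat_lit 291749632)), (.ofNat (nat_lit 221626128)), (.ofNat (nat_lit 291749616)), (.ofNat (nat_lit 2842005832133663459080)), (.ofNat (nat_lit 0)), (.ofNat (nat_lit 1490029553717694147634135040))⟩,
    ⟨nat_lit 14, nat_lit 13, (.negSucc (nat_lit 14434495)), (.ofNat (nat_lit 221626112)), (.negSucc (nat_lit 14434479)), (.ofNat (nat_lit 221626096)), (.negSucc (nat_lit 2842005832133663459079)), (.ofNat (nat_lit 0)), (.ofNat (nat_lit 356116699561782388175635512320))⟩,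
    ⟨nat_lit 15, nat_lit 14, (.negSucc (nat_lit 135774399)), (.negSucc (nat_lit 14434495)), (.negSucc (nat_lit 135774383)), (.negSucc (nat_lit 14434511)), (.ofNat (nat_lit 2842005832133663459080)), (.ofNat (nat_lit 0)), (.ofNat (nat_lit 11920236429741553181073080320))⟩,
    ⟨nat_lit 16, nat_lit 17, (.negSucc (nat_lit 83165183)), (.ofNat (nat_lit 216448832)), (.negSucc (nat_lit 83165167)), (.ofNat (nat_lit 216448816)), (.ofNat (nat_lit 2842005832133663459080)), (.ofNat (nat_lit 0)), (.ofNat (nat_lit 4470088661153082442902405120))⟩,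
    ⟨nat_lit 18, nat_lit 17, (.ofNat (nat_lit 175554368)), (.ofNat (nat_lit 216448832)), (.ofNat (nat_lit 175554384)), (.ofNat (nat_lit 216448816)), (.negSucc (nat_lit 2842005832133663459079)), (.ofNat (nat_lit 0)), (.ofNat (nat_lit 360586788222935470618537917440))⟩,
    ⟨nat_lit 19, nat_lit 18, (.ofNat (nat_lit 3260224)), (.ofNat (nat_lit 175554368)), (.ofNat (nat_lit 3260240)), (.ofNat (nat_lit 175554352)), (.ofNat (nat_lit 2842005832133663459080)), (.ofNat (nat_lit 0)), (.ofNat (nat_lit 7450147768588470738170675200))⟩,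
    ⟨nat_lit 20, nat_lit 19, (.negSucc (nat_lit 134496447)), (.ofNat (nat_lit 3260224)), (.negSucc (nat_lit 134496431)), (.ofNat (nat_lit 3260208)), (.negSucc (nat_lit 2842005832133663459079)), (.ofNat (nat_lit 0)), (.ofNat (nat_lit 351646610900629305732733107200))⟩,
    ⟨nat_lit 20, nat_lit 21, (.negSucc (nat_lit 134496447)), (.negSucc (nat_lit 7684287)), (.negSucc (nat_lit 134496431)), (.negSucc (nat_lit 7684303)), (.ofNat (nat_lit 2842005832133663459080)), (.ofNat (nat_lit 0)), (.ofNat (nat_lit 13410265983459247328707215360))⟩,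
    ⟨nat_lit 21, nat_lit 22, (.negSucc (nat_lit 7684287)), (.ofNat (nat_lit 219725568)), (.negSucc (nat_lit 7684271)), (.ofNat (nat_lit 219725552)), (.negSucc (nat_lit 2842005832133663459079)), (.ofNat (nat_lit 0)), (.ofNat (nat_lit 357606729115500082323269647360))⟩,
    ⟨nat_lit 0, nat_lit 22, (.negSucc (nat_lit 17629247)), (.ofNat (nat_lit 219725568)), (.negSucc (nat_lit 17629231)), (.ofNat (nat_lit 219725552)), (.ofNat (nat_lit 2842005832133664467511)), (.ofNat (nat_lit 0)), (.ofNat (nat_lit 2980059107435325379048426432))⟩,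
    ⟨nat_lit 23, nat_lit 16, (.negSucc (nat_lit 203096063)), (.negSucc (nat_lit 83165183)), (.negSucc (nat_lit 203096047)), (.negSucc (nat_lit 83165199)), (.negSucc (nat_lit 2842005832133663459079)), (.ofNat (nat_lit 0)), (.ofNat (nat_lit 0))⟩]

theorem ok35 : stOK 23 23 S35 = true := by decide +kernel

def S36 : SD where
  vs := [
    ⟨nat_lit 0, nat_lit 0, nat_lit 22, (.ofNat (nat_lit 8)), (.negSucc (nat_lit 17629247)), (.ofNat (nat_lit 395919875104628138489369540352)), (.ofNat (nat_lit 0)), (.ofNat (nat_lit 6091075001609903025004795328)), (.negSucc (nat_lit 17629263)), (.negSucc (nat_lit 17629231)), (.negSucc (nat_lit 2886412173260751950627)), (.ofNat (nat_lit 2886412173260751950628)), (.negSucc (nat_lit 2886412173260751950627)), (.ofNat (nat_lit 2886412173260751950628)), (.ofNat (nat_lit 266438046762527836958))⟩,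
    ⟨nat_lit 2, nat_lit 0, nat_lit 1, (.ofNat (nat_lit 8)), (.negSucc (nat_lit 265486335)), (.ofNat (nat_lit 1111337591136789581662345391616)), (.ofNat (nat_lit 0)), (.ofNat (nat_lit 17097501402104626578527568256)), (.negSucc (nat_lit 265486351)), (.negSucc (nat_lit 265486319)), (.negSucc (nat_lit 2886412173260751950627)), (.ofNat (nat_lit 2886412173260751950628)), (.negSucc (nat_lit 2886412173260751950627)), (.ofNat (nat_lit 2886412173260751950628)), (.ofNat (nat_lit 266438046762527280720))⟩,
    ⟨nat_lit 0, nat_lit 1, nat_lit 2, (.ofNat (nat_lit 8)), (.negSucc (nat_lit 132202687)), (.ofNat (nat_lit 1496049135220590656865161122560)), (.ofNat (nat_lit 0)), (.ofNat (nat_lit 23016140541855240874784840960)), (.negSucc (nat_lit 132202703)), (.negSucc (nat_lit 132202671)), (.ofNat (nat_lit 2886412173260751950628)), (.negSucc (nat_lit 2886412173260751950627)), (.negSucc (nat_lit 2886412173260751950627)), (.ofNat (nat_lit 2886412173260751950628)), (.ofNat (nat_lit 266438046762525803088))⟩,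
    ⟨nat_lit 0, nat_lit 2, nat_lit 3, (.ofNat (nat_lit 8)), (.ofNat (nat_lit 5553984)), (.ofNat (nat_lit 1098426600211902079929139532544)), (.ofNat (nat_lit 0)), (.ofNat (nat_lit 16898870772490801229632232704)), (.ofNat (nat_lit 5553968)), (.ofNat (nat_lit 5554000)), (.negSucc (nat_lit 2886412173260751950627)), (.ofNat (nat_lit 2886412173260751950628)), (.negSucc (nat_lit 2886412173260751950627)), (.ofNat (nat_lit 2886412173260751950628)), (.ofNat (nat_lit 266438046762530949288))⟩,
    ⟨nat_lit 1, nat_lit 3, nat_lit 4, (.ofNat (nat_lit 8)), (.ofNat (nat_lit 200589120)), (.ofNat (nat_lit 1661378390975868400082136797952)), (.ofNat (nat_lit 0)), (.ofNat (nat_lit 25559667553474898462731263232)), (.ofNat (nat_lit 200589104)), (.ofNat (nat_lit 200589136)), (.ofNat (nat_lit 2886412173260751950628)), (.negSucc (nat_lit 2886412173260751950627)), (.negSucc (nat_lit 2886412173260751950627)), (.ofNat (nat_lit 2886412173260751950628)), (.ofNat (nat_lit 266438046762530949288))⟩,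
    ⟨nat_lit 0, nat_lit 5, nat_lit 4, (.ofNat (nat_lit 8)), (.ofNat (nat_lit 42385216)), (.ofNat (nat_lit 2118020065338843768647101649664)), (.ofNat (nat_lit 0)), (.ofNat (nat_lit 32584924082136057979095866624)), (.ofNat (nat_lit 42385200)), (.ofNat (nat_lit 42385232)), (.ofNat (nat_lit 2886412173260751950628)), (.negSucc (nat_lit 2886412173260751950627)), (.negSucc (nat_lit 2886412173260751950627)), (.ofNat (nat_lit 2886412173260751950628)), (.ofNat (nat_lit 266438046762530949288))⟩,
    ⟨nat_lit 2, nat_lit 6, nat_lit 5, (.ofNat (nat_lit 8)), (.negSucc (nat_lit 217301183)), (.ofNat (nat_lit 1368458079148582833295538590464)), (.ofNat (nat_lit 0)), (.ofNat (nat_lit 21053201217670505127565319424)), (.negSucc (nat_lit 217301199)), (.negSucc (nat_lit 217301167)), (.negSucc (nat_lit 2886412173260751950627)), (.ofNat (nat_lit 2886412173260751950628)), (.negSucc (nat_lit 2886412173260751950627)), (.ofNat (nat_lit 2886412173260751950628)), (.ofNat (nat_lit 266438046762530949288))⟩,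
    ⟨nat_lit 0, nat_lit 7, nat_lit 8, (.ofNat (nat_lit 8)), (.negSucc (nat_lit 5652671)), (.ofNat (nat_lit 1404304639749984586544528167680)), (.ofNat (nat_lit 0)), (.ofNat (nat_lit 21604686765384378254471322880)), (.negSucc (nat_lit 5652687)), (.negSucc (nat_lit 5652655)), (.ofNat (nat_lit 2886412173260751950628)), (.negSucc (nat_lit 2886412173260751950627)), (.negSucc (nat_lit 2886412173260751950627)), (.ofNat (nat_lit 2886412173260751950628)), (.ofNat (nat_lit 266438046762530949288))⟩,
    ⟨nat_lit 0, nat_lit 8, nat_lit 9, (.ofNat (nat_lit 8)), (.ofNat (nat_lit 217104128)), (.ofNat (nat_lit 761336700553373916428876897280)), (.ofNat (nat_lit 0)), (.ofNat (nat_lit 11712872316205752560411796480)), (.ofNat (nat_lit 217104112)), (.ofNat (nat_lit 217104144)), (.negSucc (nat_lit 2886412173260751950627)), (.ofNat (nat_lit 2886412173260751950628)), (.negSucc (nat_lit 2886412173260751950627)), (.ofNat (nat_lit 2886412173260751950628)), (.ofNat (nat_lit 266438046762530949288))⟩,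
    ⟨nat_lit 1, nat_lit 9, nat_lit 10, (.ofNat (nat_lit 8)), (.ofNat (nat_lit 342015744)), (.ofNat (nat_lit 1121883109557446431956972592128)), (.ofNat (nat_lit 0)), (.ofNat (nat_lit 17259740147037637414674818048)), (.ofNat (nat_lit 342015728)), (.ofNat (nat_lit 342015760)), (.ofNat (nat_lit 2886412173260751950628)), (.negSucc (nat_lit 2886412173260751950627)), (.negSucc (nat_lit 2886412173260751950627)), (.ofNat (nat_lit 2886412173260751950628)), (.ofNat (nat_lit 266438046762530949288))⟩,
    ⟨nat_lit 0, nat_lit 11, nat_lit 10, (.ofNat (nat_lit 8)), (.ofNat (nat_lit 218742592)), (.ofNat (nat_lit 1477700236126469442801034531584)), (.ofNat (nat_lit 0)), (.ofNat (nat_lit 22733849786561068350722137344)), (.ofNat (nat_lit 218742576)), (.ofNat (nat_lit 218742608)), (.ofNat (nat_lit 2886412173260751950628)), (.negSucc (nat_lit 2886412173260751950627)), (.negSucc (nat_lit 2886412173260751950627)), (.ofNat (nat_lit 2886412173260751950628)), (.ofNat (nat_lit 266438046762530949288))⟩,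
    ⟨nat_lit 2, nat_lit 12, nat_lit 11, (.ofNat (nat_lit 8)), (.ofNat (nat_lit 173260608)), (.ofNat (nat_lit 1346420483844818694754603045632)), (.ofNat (nat_lit 0)), (.ofNat (nat_lit 20714161289920287611551866112)), (.ofNat (nat_lit 173260592)), (.ofNat (nat_lit 173260624)), (.negSucc (nat_lit 2886412173260751950627)), (.ofNat (nat_lit 2886412173260751950628)), (.negSucc (nat_lit 2886412173260751950627)), (.ofNat (nat_lit 2886412173260751950628)), (.ofNat (nat_lit 266438046762530949288))⟩,
    ⟨nat_lit 1, nat_lit 13, nat_lit 12, (.ofNat (nat_lit 8)), (.ofNat (nat_lit 291749632)), (.ofNat (nat_lit 1004412322573433298618595138560)), (.ofNat (nat_lit 0)), (.ofNat (nat_lit 15452497270360512286397096960)), (.ofNat (nat_lit 291749616)), (.ofNat (nat_lit 291749648)), (.ofNat (nat_lit 2886412173260751950628)), (.negSucc (nat_lit 2886412173260751950627)), (.negSucc (nat_lit 2886412173260751950627)), (.ofNat (nat_lit 2886412173260751950628)), (.ofNat (nat_lit 266438046762530949288))⟩,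
    ⟨nat_lit 0, nat_lit 14, nat_lit 13, (.ofNat (nat_lit 8)), (.ofNat (nat_lit 221626112)), (.ofNat (nat_lit 802006940813539493993693568000)), (.ofNat (nat_lit 0)), (.ofNat (nat_lit 12338568320208299907561088000)), (.ofNat (nat_lit 221626096)), (.ofNat (nat_lit 221626128)), (.negSucc (nat_lit 2886412173260751950627)), (.ofNat (nat_lit 2886412173260751950628)), (.negSucc (nat_lit 2886412173260751950627)), (.ofNat (nat_lit 2886412173260751950628)), (.ofNat (nat_lit 266438046762530949288))⟩,
    ⟨nat_lit 0, nat_lit 15, nat_lit 14, (.ofNat (nat_lit 8)), (.negSucc (nat_lit 14434495)), (.ofNat (nat_lit 1483375153372073941996125229824)), (.ofNat (nat_lit 0)), (.ofNat (nat_lit 22821156205724214492184829184)), (.negSucc (nat_lit 14434511)), (.negSucc (nat_lit 14434479)), (.ofNat (nat_lit 2886412173260751950628)), (.negSucc (nat_lit 2886412173260751950627)), (.negSucc (nat_lit 2886412173260751950627)), (.ofNat (nat_lit 2886412173260751950628)), (.ofNat (nat_lit 266438046762530949288))⟩,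
    ⟨nat_lit 0, nat_lit 6, nat_lit 15, (.ofNat (nat_lit 8)), (.negSucc (nat_lit 135774399)), (.ofNat (nat_lit 1133138177364182933339110970112)), (.ofNat (nat_lit 0)), (.ofNat (nat_lit 17432895036372045128245697792)), (.negSucc (nat_lit 135774415)), (.negSucc (nat_lit 135774383)), (.negSucc (nat_lit 2886412173260751950627)), (.ofNat (nat_lit 2886412173260751950628)), (.negSucc (nat_lit 2886412173260751950627)), (.ofNat (nat_lit 2886412173260751950628)), (.ofNat (nat_lit 266438046762530949288))⟩,
    ⟨nat_lit 0, nat_lit 23, nat_lit 16, (.ofNat (nat_lit 8)), (.negSucc (nat_lit 83165183)), (.ofNat (nat_lit 488231677569415570041386724864)), (.ofNat (nat_lit 0)), (.ofNat (nat_lit 7511256577991008769846669824)), (.negSucc (nat_lit 83165199)), (.negSucc (nat_lit 83165167)), (.negSucc (nat_lit 2886412173260751950627)), (.ofNat (nat_lit 2886412173260751950628)), (.negSucc (nat_lit 2886412173260751950627)), (.ofNat (nat_lit 2886412173260751950628)), (.ofNat (nat_lit 266438046762530949288))⟩,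
    ⟨nat_lit 1, nat_lit 16, nat_lit 17, (.ofNat (nat_lit 8)), (.ofNat (nat_lit 216448832)), (.ofNat (nat_lit 1353041220631357277148875526912)), (.ofNat (nat_lit 0)), (.ofNat (nat_lit 20816018778943958109925006592)), (.ofNat (nat_lit 216448816)), (.ofNat (nat_lit 216448848)), (.ofNat (nat_lit 2886412173260751950628)), (.negSucc (nat_lit 2886412173260751950627)), (.negSucc (nat_lit 2886412173260751950627)), (.ofNat (nat_lit 2886412173260751950628)), (.ofNat (nat_lit 266438046762530949288))⟩,
    ⟨nat_lit 0, nat_lit 18, nat_lit 17, (.ofNat (nat_lit 8)), (.ofNat (nat_lit 175554368)), (.ofNat (nat_lit 1471079499339930860406762050304)), (.ofNat (nat_lit 0)), (.ofNat (nat_lit 22631992297537397852348996864)), (.ofNat (nat_lit 175554352)), (.ofNat (nat_lit 175554384)), (.ofNat (nat_lit 2886412173260751950628)), (.negSucc (nat_lit 2886412173260751950627)), (.negSucc (nat_lit 2886412173260751950627)), (.ofNat (nat_lit 2886412173260751950628)), (.ofNat (nat_lit 266438046762530949288))⟩,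
    ⟨nat_lit 0, nat_lit 19, nat_lit 18, (.ofNat (nat_lit 8)), (.ofNat (nat_lit 3260224)), (.ofNat (nat_lit 973767584716789914276980527872)), (.ofNat (nat_lit 0)), (.ofNat (nat_lit 14981039764873690988835101952)), (.ofNat (nat_lit 3260208)), (.ofNat (nat_lit 3260240)), (.negSucc (nat_lit 2886412173260751950627)), (.ofNat (nat_lit 2886412173260751950628)), (.negSucc (nat_lit 2886412173260751950627)), (.ofNat (nat_lit 2886412173260751950628)), (.ofNat (nat_lit 266438046762530949288))⟩,
    ⟨nat_lit 2, nat_lit 19, nat_lit 20, (.ofNat (nat_lit 8)), (.negSucc (nat_lit 134496447)), (.ofNat (nat_lit 1371390119725478491213002117888)), (.ofNat (nat_lit 0)), (.ofNat (nat_lit 21098309534238130633987710208)), (.negSucc (nat_lit 134496463)), (.negSucc (nat_lit 134496431)), (.negSucc (nat_lit 2886412173260751950627)), (.ofNat (nat_lit 2886412173260751950628)), (.negSucc (nat_lit 2886412173260751950627)), (.ofNat (nat_lit 2886412173260751950628)), (.ofNat (nat_lit 266438046762530949288))⟩,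
    ⟨nat_lit 0, nat_lit 20, nat_lit 21, (.ofNat (nat_lit 8)), (.negSucc (nat_lit 7684287)), (.ofNat (nat_lit 1737422282066968689296352154368)), (.ofNat (nat_lit 0)), (.ofNat (nat_lit 26729573570261056758331333888)), (.negSucc (nat_lit 7684303)), (.negSucc (nat_lit 7684271)), (.ofNat (nat_lit 2886412173260751950628)), (.negSucc (nat_lit 2886412173260751950627)), (.negSucc (nat_lit 2886412173260751950627)), (.ofNat (nat_lit 2886412173260751950628)), (.ofNat (nat_lit 266438046762530949288))⟩,
    ⟨nat_lit 1, nat_lit 22, nat_lit 21, (.ofNat (nat_lit 8)), (.ofNat (nat_lit 219725568)), (.ofNat (nat_lit 1081023705389094037752319564800)), (.ofNat (nat_lit 0)), (.ofNat (nat_lit 16631133929062985196143436800)), (.ofNat (nat_lit 219725552)), (.ofNat (nat_lit 219725584)), (.ofNat (nat_lit 2886412173260751950628)), (.negSucc (nat_lit 2886412173260751950627)), (.negSucc (nat_lit 2886412173260751950627)), (.ofNat (nat_lit 2886412173260751950628)), (.ofNat (nat_lit 266438046762526915564))⟩,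
    ⟨nat_lit 2, nat_lit 23, nat_lit 7, (.ofNat (nat_lit 8)), (.negSucc (nat_lit 203096063)), (.ofNat (nat_lit 834401629551290020941919317504)), (.ofNat (nat_lit 0)), (.ofNat (nat_lit 12836948146942923399070872064)), (.negSucc (nat_lit 203096079)), (.negSucc (nat_lit 203096047)), (.negSucc (nat_lit 2886412173260751950627)), (.ofNat (nat_lit 2886412173260751950628)), (.negSucc (nat_lit 2886412173260751950627)), (.ofNat (nat_lit 2886412173260751950628)), (.ofNat (nat_lit 266438046762530949288))⟩]
  es := [
    ⟨nat_lit 1, nat_lit 0, (.negSucc (nat_lit 265486335)), (.negSucc (nat_lit 17629247)), (.negSucc (nat_lit 265486319)), (.negSucc (nat_lit 17629263)), (.negSucc (nat_lit 2886412173260751950627)), (.negSucc (nat_lit 44406341127088217680)), (.ofNat (nat_lit 5308224601107865317628461440))⟩,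
    ⟨nat_lit 1, nat_lit 2, (.negSucc (nat_lit 265486335)), (.negSucc (nat_lit 132202687)), (.negSucc (nat_lit 265486319)), (.negSucc (nat_lit 132202703)), (.ofNat (nat_lit 2886412173260751950628)), (.ofNat (nat_lit 44406341127087204998)), (.ofNat (nat_lit 28886778203101118985927475584))⟩,
    ⟨nat_lit 2, nat_lit 3, (.negSucc (nat_lit 132202687)), (.ofNat (nat_lit 5553984)), (.negSucc (nat_lit 132202671)), (.ofNat (nat_lit 5553968)), (.negSucc (nat_lit 2886412173260751950627)), (.negSucc (nat_lit 44406341127088491547)), (.ofNat (nat_lit 17145502880609192678273959936))⟩,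
    ⟨nat_lit 3, nat_lit 4, (.ofNat (nat_lit 5553984)), (.ofNat (nat_lit 200589120)), (.ofNat (nat_lit 5554000)), (.ofNat (nat_lit 200589104)), (.ofNat (nat_lit 2886412173260751950628)), (.ofNat (nat_lit 44406341127088491548)), (.ofNat (nat_lit 16652238664372409780990505472))⟩,
    ⟨nat_lit 5, nat_lit 4, (.ofNat (nat_lit 42385216)), (.ofNat (nat_lit 200589120)), (.ofNat (nat_lit 42385232)), (.ofNat (nat_lit 200589104)), (.negSucc (nat_lit 2886412173260751950627)), (.negSucc (nat_lit 44406341127088491547)), (.ofNat (nat_lit 34467096442577387144472020992))⟩,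
    ⟨nat_lit 6, nat_lit 5, (.negSucc (nat_lit 217301183)), (.ofNat (nat_lit 42385216)), (.negSucc (nat_lit 217301167)), (.ofNat (nat_lit 42385200)), (.ofNat (nat_lit 2886412173260751950628)), (.ofNat (nat_lit 44406341127088491548)), (.ofNat (nat_lit 30702751721694728813719712256))⟩,
    ⟨nat_lit 6, nat_lit 15, (.negSucc (nat_lit 217301183)), (.negSucc (nat_lit 135774399)), (.negSucc (nat_lit 217301167)), (.negSucc (nat_lit 135774415)), (.negSucc (nat_lit 2886412173260751950627)), (.negSucc (nat_lit 44406341127088491547)), (.ofNat (nat_lit 11403650713646281441410926592))⟩,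
    ⟨nat_lit 23, nat_lit 7, (.negSucc (nat_lit 203096063)), (.negSucc (nat_lit 5652671)), (.negSucc (nat_lit 203096047)), (.negSucc (nat_lit 5652687)), (.ofNat (nat_lit 2886412173260751950628)), (.ofNat (nat_lit 44406341127088491548)), (.ofNat (nat_lit 21855701246495919812166939136))⟩,
    ⟨nat_lit 7, nat_lit 8, (.negSucc (nat_lit 5652671)), (.ofNat (nat_lit 217104128)), (.negSucc (nat_lit 5652655)), (.ofNat (nat_lit 217104112)), (.negSucc (nat_lit 2886412173260751950627)), (.negSucc (nat_lit 44406341127088491547)), (.ofNat (nat_lit 21353672284272836696775706624))⟩,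
    ⟨nat_lit 8, nat_lit 9, (.ofNat (nat_lit 217104128)), (.ofNat (nat_lit 342015744)), (.ofNat (nat_lit 217104144)), (.ofNat (nat_lit 342015728)), (.ofNat (nat_lit 2886412173260751950628)), (.ofNat (nat_lit 44406341127088491548)), (.ofNat (nat_lit 2072072348138668424047886336))⟩,
    ⟨nat_lit 10, nat_lit 9, (.ofNat (nat_lit 218742592)), (.ofNat (nat_lit 342015744)), (.ofNat (nat_lit 218742608)), (.ofNat (nat_lit 342015728)), (.negSucc (nat_lit 2886412173260751950627)), (.negSucc (nat_lit 44406341127088491547)), (.ofNat (nat_lit 32447407945936606405301749760))⟩,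
    ⟨nat_lit 11, nat_lit 10, (.ofNat (nat_lit 173260608)), (.ofNat (nat_lit 218742592)), (.ofNat (nat_lit 173260624)), (.ofNat (nat_lit 218742576)), (.ofNat (nat_lit 2886412173260751950628)), (.ofNat (nat_lit 44406341127088491548)), (.ofNat (nat_lit 13020291627185530296142524928))⟩,
    ⟨nat_lit 11, nat_lit 12, (.ofNat (nat_lit 173260608)), (.ofNat (nat_lit 291749632)), (.ofNat (nat_lit 173260624)), (.ofNat (nat_lit 291749616)), (.negSucc (nat_lit 2886412173260751950627)), (.negSucc (nat_lit 44406341127088491547)), (.ofNat (nat_lit 28408030952655044926961207296))⟩,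
    ⟨nat_lit 13, nat_lit 12, (.ofNat (nat_lit 221626112)), (.ofNat (nat_lit 291749632)), (.ofNat (nat_lit 221626128)), (.ofNat (nat_lit 291749616)), (.ofNat (nat_lit 2886412173260751950628)), (.ofNat (nat_lit 44406341127088491548)), (.ofNat (nat_lit 2496963588065979645832986624))⟩,
    ⟨nat_lit 14, nat_lit 13, (.negSucc (nat_lit 14434495)), (.ofNat (nat_lit 221626112)), (.negSucc (nat_lit 14434479)), (.ofNat (nat_lit 221626096)), (.negSucc (nat_lit 2886412173260751950627)), (.negSucc (nat_lit 44406341127088491547)), (.ofNat (nat_lit 22180173052350620169289189376))⟩,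
    ⟨nat_lit 15, nat_lit 14, (.negSucc (nat_lit 135774399)), (.negSucc (nat_lit 14434495)), (.negSucc (nat_lit 135774383)), (.negSucc (nat_lit 14434511)), (.ofNat (nat_lit 2886412173260751950628)), (.ofNat (nat_lit 44406341127088491548)), (.ofNat (nat_lit 23462139359097808815080468992))⟩,
    ⟨nat_lit 16, nat_lit 17, (.negSucc (nat_lit 83165183)), (.ofNat (nat_lit 216448832)), (.negSucc (nat_lit 83165167)), (.ofNat (nat_lit 216448816)), (.ofNat (nat_lit 2886412173260751950628)), (.ofNat (nat_lit 44406341127088491548)), (.ofNat (nat_lit 11204318108592090553718534656))⟩,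
    ⟨nat_lit 18, nat_lit 17, (.ofNat (nat_lit 175554368)), (.ofNat (nat_lit 216448832)), (.ofNat (nat_lit 175554384)), (.ofNat (nat_lit 216448816)), (.negSucc (nat_lit 2886412173260751950627)), (.negSucc (nat_lit 44406341127088491547)), (.ofNat (nat_lit 30427719449295825666131478528))⟩,
    ⟨nat_lit 19, nat_lit 18, (.ofNat (nat_lit 3260224)), (.ofNat (nat_lit 175554368)), (.ofNat (nat_lit 3260240)), (.ofNat (nat_lit 175554352)), (.ofNat (nat_lit 2886412173260751950628)), (.ofNat (nat_lit 44406341127088491548)), (.ofNat (nat_lit 14836265145778970038566515200))⟩,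
    ⟨nat_lit 20, nat_lit 19, (.negSucc (nat_lit 134496447)), (.ofNat (nat_lit 3260224)), (.negSucc (nat_lit 134496431)), (.ofNat (nat_lit 3260208)), (.negSucc (nat_lit 2886412173260751950627)), (.negSucc (nat_lit 44406341127088491547)), (.ofNat (nat_lit 15125814383968411939103688704))⟩,
    ⟨nat_lit 20, nat_lit 21, (.negSucc (nat_lit 134496447)), (.negSucc (nat_lit 7684287)), (.negSucc (nat_lit 134496431)), (.negSucc (nat_lit 7684303)), (.ofNat (nat_lit 2886412173260751950628)), (.ofNat (nat_lit 44406341127088491548)), (.ofNat (nat_lit 27070804684507849328871731712))⟩,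
    ⟨nat_lit 21, nat_lit 22, (.negSucc (nat_lit 7684287)), (.ofNat (nat_lit 219725568)), (.negSucc (nat_lit 7684271)), (.ofNat (nat_lit 219725552)), (.negSucc (nat_lit 2886412173260751950627)), (.negSucc (nat_lit 44406341127088491547)), (.ofNat (nat_lit 26388342456014264187790936064))⟩,
    ⟨nat_lit 0, nat_lit 22, (.negSucc (nat_lit 17629247)), (.ofNat (nat_lit 219725568)), (.negSucc (nat_lit 17629231)), (.ofNat (nat_lit 219725552)), (.ofNat (nat_lit 2886412173260751950628)), (.ofNat (nat_lit 44406341127087483117)), (.ofNat (nat_lit 6873925402111927782570201344))⟩,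
    ⟨nat_lit 23, nat_lit 16, (.negSucc (nat_lit 203096063)), (.negSucc (nat_lit 83165183)), (.negSucc (nat_lit 203096047)), (.negSucc (nat_lit 83165199)), (.negSucc (nat_lit 2886412173260751950627)), (.negSucc (nat_lit 44406341127088491547)), (.ofNat (nat_lit 3818195047389926985974804992))⟩]

theorem ok36 : stOK 23 23 S36 = true := by decide +kernel

def S37 : SD where
  vs := [
    ⟨nat_lit 0, nat_lit 0, nat_lit 22, (.ofNat (nat_lit 8)), (.negSucc (nat_lit 17891391)), (.ofNat (nat_lit 398189842002869938167405819648)), (.negSucc (nat_lit 262143)), (.ofNat (nat_lit 2269966898241799678036279296)), (.negSucc (nat_lit 17891407)), (.negSucc (nat_lit 17891375)), (.negSucc (nat_lit 2886412173260751950627)), (.ofNat (nat_lit 2886412173260751950628)), (.negSucc (nat_lit 2886412173260751950627)), (.ofNat (nat_lit 2886412173260751950628)), (.ofNat (nat_lit 0))⟩,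
    ⟨nat_lit 2, nat_lit 0, nat_lit 1, (.ofNat (nat_lit 8)), (.negSucc (nat_lit 267845631)), (.ofNat (nat_lit 1119660803097009513815145082368)), (.negSucc (nat_lit 2359295)), (.ofNat (nat_lit 8323211960219932152799690752)), (.negSucc (nat_lit 267845647)), (.negSucc (nat_lit 267845615)), (.negSucc (nat_lit 2886412173260751950627)), (.ofNat (nat_lit 2886412173260751950628)), (.negSucc (nat_lit 2886412173260751950627)), (.ofNat (nat_lit 2886412173260751950628)), (.ofNat (nat_lit 0))⟩,
    ⟨nat_lit 0, nat_lit 1, nat_lit 2, (.ofNat (nat_lit 8)), (.negSucc (nat_lit 133775551)), (.ofNat (nat_lit 1506642314079052388695997092608)), (.negSucc (nat_lit 1572863)), (.ofNat (nat_lit 10593178858461731830835970048)), (.negSucc (nat_lit 133775567)), (.negSucc (nat_lit 133775535)), (.ofNat (nat_lit 2886412173260751950628)), (.negSucc (nat_lit 2886412173260751950627)), (.negSucc (nat_lit 2886412173260751950627)), (.ofNat (nat_lit 2886412173260751950628)), (.ofNat (nat_lit 0))⟩,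
    ⟨nat_lit 0, nat_lit 2, nat_lit 3, (.ofNat (nat_lit 8)), (.ofNat (nat_lit 5029696)), (.ofNat (nat_lit 1105993156539374745522593796864)), (.negSucc (nat_lit 524287)), (.ofNat (nat_lit 7566556327472665593454264320)), (.ofNat (nat_lit 5029680)), (.ofNat (nat_lit 5029712)), (.negSucc (nat_lit 2886412173260751950627)), (.ofNat (nat_lit 2886412173260751950628)), (.negSucc (nat_lit 2886412173260751950627)), (.ofNat (nat_lit 2886412173260751950628)), (.ofNat (nat_lit 0))⟩,
    ⟨nat_lit 1, nat_lit 3, nat_lit 4, (.ofNat (nat_lit 8)), (.ofNat (nat_lit 209108736)), (.ofNat (nat_lit 1695049381902742673284883433984)), (.ofNat (nat_lit 8519616)), (.ofNat (nat_lit 33670990926874273202746636032)), (.ofNat (nat_lit 209108720)), (.ofNat (nat_lit 209108752)), (.ofNat (nat_lit 2886412173260751950628)), (.negSucc (nat_lit 2886412173260751950627)), (.negSucc (nat_lit 2886412173260751950627)), (.ofNat (nat_lit 2886412173260751950628)), (.ofNat (nat_lit 0))⟩,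
    ⟨nat_lit 0, nat_lit 5, nat_lit 4, (.ofNat (nat_lit 8)), (.ofNat (nat_lit 49594112)), (.ofNat (nat_lit 2155474334429454374646575417856)), (.ofNat (nat_lit 7208896)), (.ofNat (nat_lit 37454269090610605999473768192)), (.ofNat (nat_lit 49594096)), (.ofNat (nat_lit 49594128)), (.ofNat (nat_lit 2886412173260751950628)), (.negSucc (nat_lit 2886412173260751950627)), (.negSucc (nat_lit 2886412173260751950627)), (.ofNat (nat_lit 2886412173260751950628)), (.ofNat (nat_lit 0))⟩,
    ⟨nat_lit 2, nat_lit 6, nat_lit 5, (.ofNat (nat_lit 8)), (.negSucc (nat_lit 219660479)), (.ofNat (nat_lit 1378294602374297298567029134080)), (.negSucc (nat_lit 2359295)), (.ofNat (nat_lit 9836523225714465271490543616)), (.negSucc (nat_lit 219660495)), (.negSucc (nat_lit 219660463)), (.negSucc (nat_lit 2886412173260751950627)), (.ofNat (nat_lit 2886412173260751950628)), (.negSucc (nat_lit 2886412173260751950627)), (.ofNat (nat_lit 2886412173260751950628)), (.ofNat (nat_lit 0))⟩,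
    ⟨nat_lit 0, nat_lit 7, nat_lit 8, (.ofNat (nat_lit 8)), (.negSucc (nat_lit 6176959)), (.ofNat (nat_lit 1413384507342951785256673284864)), (.negSucc (nat_lit 524287)), (.ofNat (nat_lit 9079867592967198712145117184)), (.negSucc (nat_lit 6176975)), (.negSucc (nat_lit 6176943)), (.ofNat (nat_lit 2886412173260751950628)), (.negSucc (nat_lit 2886412173260751950627)), (.negSucc (nat_lit 2886412173260751950627)), (.ofNat (nat_lit 2886412173260751950628)), (.ofNat (nat_lit 0))⟩,
    ⟨nat_lit 0, nat_lit 8, nat_lit 9, (.ofNat (nat_lit 8)), (.ofNat (nat_lit 218414848)), (.ofNat (nat_lit 765119978717110249225604029440)), (.ofNat (nat_lit 1310720)), (.ofNat (nat_lit 3783278163736332796727132160)), (.ofNat (nat_lit 218414832)), (.ofNat (nat_lit 218414864)), (.negSucc (nat_lit 2886412173260751950627)), (.ofNat (nat_lit 2886412173260751950628)), (.negSucc (nat_lit 2886412173260751950627)), (.ofNat (nat_lit 2886412173260751950628)), (.ofNat (nat_lit 0))⟩,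
    ⟨nat_lit 1, nat_lit 9, nat_lit 10, (.ofNat (nat_lit 8)), (.ofNat (nat_lit 351846080)), (.ofNat (nat_lit 1150257511055089839244301243136)), (.ofNat (nat_lit 9830336)), (.ofNat (nat_lit 28374401497643407287328651008)), (.ofNat (nat_lit 351846064)), (.ofNat (nat_lit 351846096)), (.ofNat (nat_lit 2886412173260751950628)), (.negSucc (nat_lit 2886412173260751950627)), (.negSucc (nat_lit 2886412173260751950627)), (.ofNat (nat_lit 2886412173260751950628)), (.ofNat (nat_lit 0))⟩,
    ⟨nat_lit 0, nat_lit 11, nat_lit 10, (.ofNat (nat_lit 8)), (.ofNat (nat_lit 227524352)), (.ofNat (nat_lit 1509101260155101916325744888320)), (.ofNat (nat_lit 8781760)), (.ofNat (nat_lit 31401024028632473524710356736)), (.ofNat (nat_lit 227524336)), (.ofNat (nat_lit 227524368)), (.ofNat (nat_lit 2886412173260751950628)), (.negSucc (nat_lit 2886412173260751950627)), (.negSucc (nat_lit 2886412173260751950627)), (.ofNat (nat_lit 2886412173260751950628)), (.ofNat (nat_lit 0))⟩,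
    ⟨nat_lit 2, nat_lit 12, nat_lit 11, (.ofNat (nat_lit 8)), (.ofNat (nat_lit 174309184)), (.ofNat (nat_lit 1355500351437785893466748162816)), (.ofNat (nat_lit 1048576)), (.ofNat (nat_lit 9079867592967198712145117184)), (.ofNat (nat_lit 174309168)), (.ofNat (nat_lit 174309200)), (.negSucc (nat_lit 2886412173260751950627)), (.ofNat (nat_lit 2886412173260751950628)), (.negSucc (nat_lit 2886412173260751950627)), (.ofNat (nat_lit 2886412173260751950628)), (.ofNat (nat_lit 0))⟩,
    ⟨nat_lit 1, nat_lit 13, nat_lit 12, (.ofNat (nat_lit 8)), (.ofNat (nat_lit 293584640)), (.ofNat (nat_lit 1011222223268158697652703976448)), (.ofNat (nat_lit 1835008)), (.ofNat (nat_lit 6809900694725399034108837888)), (.ofNat (nat_lit 293584624)), (.ofNat (nat_lit 293584656)), (.ofNat (nat_lit 2886412173260751950628)), (.negSucc (nat_lit 2886412173260751950627)), (.negSucc (nat_lit 2886412173260751950627)), (.ofNat (nat_lit 2886412173260751950628)), (.ofNat (nat_lit 0))⟩,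
    ⟨nat_lit 0, nat_lit 14, nat_lit 13, (.ofNat (nat_lit 8)), (.ofNat (nat_lit 222936832)), (.ofNat (nat_lit 807303530242770359909111553024)), (.ofNat (nat_lit 1310720)), (.ofNat (nat_lit 5296589429230865915417985024)), (.ofNat (nat_lit 222936816)), (.ofNat (nat_lit 222936848)), (.negSucc (nat_lit 2886412173260751950627)), (.ofNat (nat_lit 2886412173260751950628)), (.negSucc (nat_lit 2886412173260751950627)), (.ofNat (nat_lit 2886412173260751950628)), (.ofNat (nat_lit 0))⟩,
    ⟨nat_lit 0, nat_lit 15, nat_lit 14, (.ofNat (nat_lit 8)), (.negSucc (nat_lit 14958783)), (.ofNat (nat_lit 1493968332230535673826961199872)), (.negSucc (nat_lit 524287)), (.ofNat (nat_lit 10593178858461731830835970048)), (.negSucc (nat_lit 14958799)), (.negSucc (nat_lit 14958767)), (.ofNat (nat_lit 2886412173260751950628)), (.negSucc (nat_lit 2886412173260751950627)), (.negSucc (nat_lit 2886412173260751950627)), (.ofNat (nat_lit 2886412173260751950628)), (.ofNat (nat_lit 0))⟩,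
    ⟨nat_lit 0, nat_lit 6, nat_lit 15, (.ofNat (nat_lit 8)), (.negSucc (nat_lit 137347263)), (.ofNat (nat_lit 1140704733691655598932565234432)), (.negSucc (nat_lit 1572863)), (.ofNat (nat_lit 7566556327472665593454264320)), (.negSucc (nat_lit 137347279)), (.negSucc (nat_lit 137347247)), (.negSucc (nat_lit 2886412173260751950627)), (.ofNat (nat_lit 2886412173260751950628)), (.negSucc (nat_lit 2886412173260751950627)), (.ofNat (nat_lit 2886412173260751950628)), (.ofNat (nat_lit 0))⟩,
    ⟨nat_lit 0, nat_lit 23, nat_lit 16, (.ofNat (nat_lit 8)), (.negSucc (nat_lit 83951615)), (.ofNat (nat_lit 490501644467657369719423004160)), (.negSucc (nat_lit 786431)), (.ofNat (nat_lit 2269966898241799678036279296)), (.negSucc (nat_lit 83951631)), (.negSucc (nat_lit 83951599)), (.negSucc (nat_lit 2886412173260751950627)), (.ofNat (nat_lit 2886412173260751950628)), (.negSucc (nat_lit 2886412173260751950627)), (.ofNat (nat_lit 2886412173260751950628)), (.ofNat (nat_lit 0))⟩,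
    ⟨nat_lit 1, nat_lit 16, nat_lit 17, (.ofNat (nat_lit 8)), (.ofNat (nat_lit 225230592)), (.ofNat (nat_lit 1382928933394495217554895030784)), (.ofNat (nat_lit 8781760)), (.ofNat (nat_lit 29887712763137940406019503872)), (.ofNat (nat_lit 225230576)), (.ofNat (nat_lit 225230608)), (.ofNat (nat_lit 2886412173260751950628)), (.negSucc (nat_lit 2886412173260751950627)), (.negSucc (nat_lit 2886412173260751950627)), (.ofNat (nat_lit 2886412173260751950628)), (.ofNat (nat_lit 0))⟩,
    ⟨nat_lit 0, nat_lit 18, nat_lit 17, (.ofNat (nat_lit 8)), (.ofNat (nat_lit 183811840)), (.ofNat (nat_lit 1502480523368563333931472407040)), (.ofNat (nat_lit 8257472)), (.ofNat (nat_lit 31401024028632473524710356736)), (.ofNat (nat_lit 183811824)), (.ofNat (nat_lit 183811856)), (.ofNat (nat_lit 2886412173260751950628)), (.negSucc (nat_lit 2886412173260751950627)), (.negSucc (nat_lit 2886412173260751950627)), (.ofNat (nat_lit 2886412173260751950628)), (.ofNat (nat_lit 0))⟩,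
    ⟨nat_lit 0, nat_lit 19, nat_lit 18, (.ofNat (nat_lit 8)), (.ofNat (nat_lit 2735936)), (.ofNat (nat_lit 979820829778768046751743939328)), (.negSucc (nat_lit 524287)), (.ofNat (nat_lit 6053245061978132474763411456)), (.ofNat (nat_lit 2735920)), (.ofNat (nat_lit 2735952)), (.negSucc (nat_lit 2886412173260751950627)), (.ofNat (nat_lit 2886412173260751950628)), (.negSucc (nat_lit 2886412173260751950627)), (.ofNat (nat_lit 2886412173260751950628)), (.ofNat (nat_lit 0))⟩,
    ⟨nat_lit 2, nat_lit 19, nat_lit 20, (.ofNat (nat_lit 8)), (.negSucc (nat_lit 136069311)), (.ofNat (nat_lit 1380469987318445689925147235072)), (.negSucc (nat_lit 1572863)), (.ofNat (nat_lit 9079867592967198712145117184)), (.negSucc (nat_lit 136069327)), (.negSucc (nat_lit 136069295)), (.negSucc (nat_lit 2886412173260751950627)), (.ofNat (nat_lit 2886412173260751950628)), (.negSucc (nat_lit 2886412173260751950627)), (.ofNat (nat_lit 2886412173260751950628)), (.ofNat (nat_lit 0))⟩,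
    ⟨nat_lit 0, nat_lit 20, nat_lit 21, (.ofNat (nat_lit 8)), (.negSucc (nat_lit 8208575)), (.ofNat (nat_lit 1749528772190924954245878977280)), (.negSucc (nat_lit 524287)), (.ofNat (nat_lit 12106490123956264949526822912)), (.negSucc (nat_lit 8208591)), (.negSucc (nat_lit 8208559)), (.ofNat (nat_lit 2886412173260751950628)), (.negSucc (nat_lit 2886412173260751950627)), (.negSucc (nat_lit 2886412173260751950627)), (.ofNat (nat_lit 2886412173260751950628)), (.ofNat (nat_lit 0))⟩,
    ⟨nat_lit 1, nat_lit 22, nat_lit 21, (.ofNat (nat_lit 8)), (.ofNat (nat_lit 221036288)), (.ofNat (nat_lit 1087833606083819436786428402688)), (.ofNat (nat_lit 1310720)), (.ofNat (nat_lit 6809900694725399034108837888)), (.ofNat (nat_lit 221036272)), (.ofNat (nat_lit 221036304)), (.ofNat (nat_lit 2886412173260751950628)), (.negSucc (nat_lit 2886412173260751950627)), (.negSucc (nat_lit 2886412173260751950627)), (.ofNat (nat_lit 2886412173260751950628)), (.ofNat (nat_lit 0))⟩,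
    ⟨nat_lit 2, nat_lit 23, nat_lit 7, (.ofNat (nat_lit 8)), (.negSucc (nat_lit 204931071)), (.ofNat (nat_lit 839698218980520886857337302528)), (.negSucc (nat_lit 1835007)), (.ofNat (nat_lit 5296589429230865915417985024)), (.negSucc (nat_lit 204931087)), (.negSucc (nat_lit 204931055)), (.negSucc (nat_lit 2886412173260751950627)), (.ofNat (nat_lit 2886412173260751950628)), (.negSucc (nat_lit 2886412173260751950627)), (.ofNat (nat_lit 2886412173260751950628)), (.ofNat (nat_lit 0))⟩]
  es := [
    ⟨nat_lit 1, nat_lit 0, (.negSucc (nat_lit 267845631)), (.negSucc (nat_lit 17891391)), (.negSucc (nat_lit 267845615)), (.negSucc (nat_lit 17891407)), (.negSucc (nat_lit 2886412173260751950627)), (.ofNat (nat_lit 0)), (.ofNat (nat_lit 1513311265494533118690852864))⟩,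
    ⟨nat_lit 1, nat_lit 2, (.negSucc (nat_lit 267845631)), (.negSucc (nat_lit 133775551)), (.negSucc (nat_lit 267845615)), (.negSucc (nat_lit 133775567)), (.ofNat (nat_lit 2886412173260751950628)), (.ofNat (nat_lit 0)), (.ofNat (nat_lit 15133112654945331186908528640))⟩,
    ⟨nat_lit 2, nat_lit 3, (.negSucc (nat_lit 133775551)), (.ofNat (nat_lit 5029696)), (.negSucc (nat_lit 133775535)), (.ofNat (nat_lit 5029680)), (.negSucc (nat_lit 2886412173260751950627)), (.ofNat (nat_lit 0)), (.ofNat (nat_lit 6053245061978132474763411456))⟩,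
    ⟨nat_lit 3, nat_lit 4, (.ofNat (nat_lit 5029696)), (.ofNat (nat_lit 209108736)), (.ofNat (nat_lit 5029712)), (.ofNat (nat_lit 209108720)), (.ofNat (nat_lit 2886412173260751950628)), (.ofNat (nat_lit 0)), (.ofNat (nat_lit 9079867592967198712145117184))⟩,
    ⟨nat_lit 5, nat_lit 4, (.ofNat (nat_lit 49594112)), (.ofNat (nat_lit 209108736)), (.ofNat (nat_lit 49594128)), (.ofNat (nat_lit 209108720)), (.negSucc (nat_lit 2886412173260751950627)), (.ofNat (nat_lit 0)), (.ofNat (nat_lit 58262114260781347693348154880))⟩,
    ⟨nat_lit 6, nat_lit 5, (.negSucc (nat_lit 219660479)), (.ofNat (nat_lit 49594112)), (.negSucc (nat_lit 219660463)), (.ofNat (nat_lit 49594096)), (.ofNat (nat_lit 2886412173260751950628)), (.ofNat (nat_lit 0)), (.ofNat (nat_lit 16646423920439864305599381504))⟩,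
    ⟨nat_lit 6, nat_lit 15, (.negSucc (nat_lit 219660479)), (.negSucc (nat_lit 137347263)), (.negSucc (nat_lit 219660463)), (.negSucc (nat_lit 137347279)), (.negSucc (nat_lit 2886412173260751950627)), (.ofNat (nat_lit 0)), (.ofNat (nat_lit 3026622530989066237381705728))⟩,
    ⟨nat_lit 23, nat_lit 7, (.negSucc (nat_lit 204931071)), (.negSucc (nat_lit 6176959)), (.negSucc (nat_lit 204931055)), (.negSucc (nat_lit 6176975)), (.ofNat (nat_lit 2886412173260751950628)), (.ofNat (nat_lit 0)), (.ofNat (nat_lit 10593178858461731830835970048))⟩,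
    ⟨nat_lit 7, nat_lit 8, (.negSucc (nat_lit 6176959)), (.ofNat (nat_lit 218414848)), (.negSucc (nat_lit 6176943)), (.ofNat (nat_lit 218414832)), (.negSucc (nat_lit 2886412173260751950627)), (.ofNat (nat_lit 0)), (.ofNat (nat_lit 7566556327472665593454264320))⟩,
    ⟨nat_lit 8, nat_lit 9, (.ofNat (nat_lit 218414848)), (.ofNat (nat_lit 351846080)), (.ofNat (nat_lit 218414864)), (.ofNat (nat_lit 351846064)), (.ofNat (nat_lit 2886412173260751950628)), (.ofNat (nat_lit 0)), (.ofNat (nat_lit 0))⟩,
    ⟨nat_lit 10, nat_lit 9, (.ofNat (nat_lit 227524352)), (.ofNat (nat_lit 351846080)), (.ofNat (nat_lit 227524368)), (.ofNat (nat_lit 351846064)), (.negSucc (nat_lit 2886412173260751950627)), (.ofNat (nat_lit 0)), (.ofNat (nat_lit 56748802995286814574657302016))⟩,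
    ⟨nat_lit 11, nat_lit 10, (.ofNat (nat_lit 174309184)), (.ofNat (nat_lit 227524352)), (.ofNat (nat_lit 174309200)), (.ofNat (nat_lit 227524336)), (.ofNat (nat_lit 2886412173260751950628)), (.ofNat (nat_lit 0)), (.ofNat (nat_lit 6053245061978132474763411456))⟩,
    ⟨nat_lit 11, nat_lit 12, (.ofNat (nat_lit 174309184)), (.ofNat (nat_lit 293584640)), (.ofNat (nat_lit 174309200)), (.ofNat (nat_lit 293584624)), (.negSucc (nat_lit 2886412173260751950627)), (.ofNat (nat_lit 0)), (.ofNat (nat_lit 12106490123956264949526822912))⟩,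
    ⟨nat_lit 13, nat_lit 12, (.ofNat (nat_lit 222936832)), (.ofNat (nat_lit 293584640)), (.ofNat (nat_lit 222936848)), (.ofNat (nat_lit 293584624)), (.ofNat (nat_lit 2886412173260751950628)), (.ofNat (nat_lit 0)), (.ofNat (nat_lit 1513311265494533118690852864))⟩,
    ⟨nat_lit 14, nat_lit 13, (.negSucc (nat_lit 14958783)), (.ofNat (nat_lit 222936832)), (.negSucc (nat_lit 14958767)), (.ofNat (nat_lit 222936816)), (.negSucc (nat_lit 2886412173260751950627)), (.ofNat (nat_lit 0)), (.ofNat (nat_lit 9079867592967198712145117184))⟩,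
    ⟨nat_lit 15, nat_lit 14, (.negSucc (nat_lit 137347263)), (.negSucc (nat_lit 14958783)), (.negSucc (nat_lit 137347247)), (.negSucc (nat_lit 14958799)), (.ofNat (nat_lit 2886412173260751950628)), (.ofNat (nat_lit 0)), (.ofNat (nat_lit 12106490123956264949526822912))⟩,
    ⟨nat_lit 16, nat_lit 17, (.negSucc (nat_lit 83951615)), (.ofNat (nat_lit 225230592)), (.negSucc (nat_lit 83951599)), (.ofNat (nat_lit 225230576)), (.ofNat (nat_lit 2886412173260751950628)), (.ofNat (nat_lit 0)), (.ofNat (nat_lit 4539933796483599356072558592))⟩,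
    ⟨nat_lit 18, nat_lit 17, (.ofNat (nat_lit 183811840)), (.ofNat (nat_lit 225230592)), (.ofNat (nat_lit 183811856)), (.ofNat (nat_lit 225230576)), (.negSucc (nat_lit 2886412173260751950627)), (.ofNat (nat_lit 0)), (.ofNat (nat_lit 55235491729792281455966449152))⟩,
    ⟨nat_lit 19, nat_lit 18, (.ofNat (nat_lit 2735936)), (.ofNat (nat_lit 183811840)), (.ofNat (nat_lit 2735952)), (.ofNat (nat_lit 183811824)), (.ofNat (nat_lit 2886412173260751950628)), (.ofNat (nat_lit 0)), (.ofNat (nat_lit 7566556327472665593454264320))⟩,
    ⟨nat_lit 20, nat_lit 19, (.negSucc (nat_lit 136069311)), (.ofNat (nat_lit 2735936)), (.negSucc (nat_lit 136069295)), (.ofNat (nat_lit 2735920)), (.negSucc (nat_lit 2886412173260751950627)), (.ofNat (nat_lit 0)), (.ofNat (nat_lit 4539933796483599356072558592))⟩,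
    ⟨nat_lit 20, nat_lit 21, (.negSucc (nat_lit 136069311)), (.negSucc (nat_lit 8208575)), (.negSucc (nat_lit 136069295)), (.negSucc (nat_lit 8208591)), (.ofNat (nat_lit 2886412173260751950628)), (.ofNat (nat_lit 0)), (.ofNat (nat_lit 13619801389450798068217675776))⟩,
    ⟨nat_lit 21, nat_lit 22, (.negSucc (nat_lit 8208575)), (.ofNat (nat_lit 221036288)), (.negSucc (nat_lit 8208559)), (.ofNat (nat_lit 221036272)), (.negSucc (nat_lit 2886412173260751950627)), (.ofNat (nat_lit 0)), (.ofNat (nat_lit 10593178858461731830835970048))⟩,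
    ⟨nat_lit 0, nat_lit 22, (.negSucc (nat_lit 17891391)), (.ofNat (nat_lit 221036288)), (.negSucc (nat_lit 17891375)), (.ofNat (nat_lit 221036272)), (.ofNat (nat_lit 2886412173260751950628)), (.ofNat (nat_lit 0)), (.ofNat (nat_lit 3026622530989066237381705728))⟩,
    ⟨nat_lit 23, nat_lit 16, (.negSucc (nat_lit 204931071)), (.negSucc (nat_lit 83951615)), (.negSucc (nat_lit 204931055)), (.negSucc (nat_lit 83951631)), (.negSucc (nat_lit 2886412173260751950627)), (.ofNat (nat_lit 0)), (.ofNat (nat_lit 0))⟩]

theorem ok37 : stOK 23 23 S37 = true := by decide +kernel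

def S38 : SD where
  vs := [
    ⟨nat_lit 0, nat_lit 0, nat_lit 22, (.ofNat (nat_lit 8)), (.negSucc (nat_lit 17891391)), (.ofNat (nat_lit 404411558284164780951193936896)), (.ofNat (nat_lit 0)), (.ofNat (nat_lit 6221716281294842783788117248)), (.negSucc (nat_lit 17891407)), (.negSucc (nat_lit 17891375)), (.negSucc (nat_lit 2931512363467951199855)), (.ofNat (nat_lit 2931512363467951199856)), (.negSucc (nat_lit 2931512363467951199855)), (.ofNat (nat_lit 2931512363467951199856)), (.ofNat (nat_lit 270601141243195495368))⟩,
    ⟨nat_lit 2, nat_lit 0, nat_lit 1, (.ofNat (nat_lit 8)), (.negSucc (nat_lit 267845631)), (.ofNat (nat_lit 1137155503145400287468288526336)), (.ofNat (nat_lit 0)), (.ofNat (nat_lit 17494700048390773653143443968)), (.negSucc (nat_lit 267845647)), (.negSucc (nat_lit 267845615)), (.negSucc (nat_lit 2931512363467951199855)), (.ofNat (nat_lit 2931512363467951199856)), (.negSucc (nat_lit 2931512363467951199855)), (.ofNat (nat_lit 2931512363467951199856)), (.ofNat (nat_lit 270601141243195495368))⟩,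
    ⟨nat_lit 0, nat_lit 1, nat_lit 2, (.ofNat (nat_lit 8)), (.negSucc (nat_lit 133775551)), (.ofNat (nat_lit 1530183600236537582269078434816)), (.ofNat (nat_lit 0)), (.ofNat (nat_lit 23541286157485193573081342208)), (.negSucc (nat_lit 133775567)), (.negSucc (nat_lit 133775535)), (.ofNat (nat_lit 2931512363467951199856)), (.negSucc (nat_lit 2931512363467951199855)), (.negSucc (nat_lit 2931512363467951199855)), (.ofNat (nat_lit 2931512363467951199856)), (.ofNat (nat_lit 270601141243195495368))⟩,
    ⟨nat_lit 0, nat_lit 2, nat_lit 3, (.ofNat (nat_lit 8)), (.ofNat (nat_lit 5029696)), (.ofNat (nat_lit 1123274299610302475921168790528)), (.ofNat (nat_lit 0)), (.ofNat (nat_lit 17281143070927730398574993664)), (.ofNat (nat_lit 5029680)), (.ofNat (nat_lit 5029712)), (.negSucc (nat_lit 2931512363467951199855)), (.ofNat (nat_lit 2931512363467951199856)), (.negSucc (nat_lit 2931512363467951199855)), (.ofNat (nat_lit 2931512363467951199856)), (.ofNat (nat_lit 270601141243195495368))⟩,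
    ⟨nat_lit 1, nat_lit 3, nat_lit 4, (.ofNat (nat_lit 8)), (.ofNat (nat_lit 209108736)), (.ofNat (nat_lit 1721534528494973027554629408768)), (.ofNat (nat_lit 0)), (.ofNat (nat_lit 26485146592230354269745974784)), (.ofNat (nat_lit 209108720)), (.ofNat (nat_lit 209108752)), (.ofNat (nat_lit 2931512363467951199856)), (.negSucc (nat_lit 2931512363467951199855)), (.negSucc (nat_lit 2931512363467951199855)), (.ofNat (nat_lit 2931512363467951199856)), (.ofNat (nat_lit 270601141243195495368))⟩,
    ⟨nat_lit 0, nat_lit 5, nat_lit 4, (.ofNat (nat_lit 8)), (.ofNat (nat_lit 49594112)), (.ofNat (nat_lit 2189153620904914599250008102912)), (.ofNat (nat_lit 0)), (.ofNat (nat_lit 33679286475460224603432685056)), (.ofNat (nat_lit 49594096)), (.ofNat (nat_lit 49594128)), (.ofNat (nat_lit 2931512363467951199856)), (.negSucc (nat_lit 2931512363467951199855)), (.negSucc (nat_lit 2931512363467951199855)), (.ofNat (nat_lit 2931512363467951199856)), (.ofNat (nat_lit 270601141243195495368))⟩,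
    ⟨nat_lit 2, nat_lit 6, nat_lit 5, (.ofNat (nat_lit 8)), (.negSucc (nat_lit 219660479)), (.ofNat (nat_lit 1399830455536395693856870364160)), (.ofNat (nat_lit 0)), (.ofNat (nat_lit 21535853162098395289841230080)), (.negSucc (nat_lit 219660495)), (.negSucc (nat_lit 219660463)), (.negSucc (nat_lit 2931512363467951199855)), (.ofNat (nat_lit 2931512363467951199856)), (.negSucc (nat_lit 2931512363467951199855)), (.ofNat (nat_lit 2931512363467951199856)), (.ofNat (nat_lit 270601141243195495368))⟩,
    ⟨nat_lit 0, nat_lit 7, nat_lit 8, (.ofNat (nat_lit 8)), (.negSucc (nat_lit 6176959)), (.ofNat (nat_lit 1435468640270185406901033366528)), (.ofNat (nat_lit 0)), (.ofNat (nat_lit 22084132927233621644360081664)), (.negSucc (nat_lit 6176975)), (.negSucc (nat_lit 6176943)), (.ofNat (nat_lit 2931512363467951199856)), (.negSucc (nat_lit 2931512363467951199855)), (.negSucc (nat_lit 2931512363467951199855)), (.ofNat (nat_lit 2931512363467951199856)), (.ofNat (nat_lit 270601141243195495368))⟩,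
    ⟨nat_lit 0, nat_lit 8, nat_lit 9, (.ofNat (nat_lit 8)), (.ofNat (nat_lit 218414848)), (.ofNat (nat_lit 777074978384565096869604986880)), (.ofNat (nat_lit 0)), (.ofNat (nat_lit 11954999667454847644000957440)), (.ofNat (nat_lit 218414832)), (.ofNat (nat_lit 218414864)), (.negSucc (nat_lit 2931512363467951199855)), (.ofNat (nat_lit 2931512363467951199856)), (.negSucc (nat_lit 2931512363467951199855)), (.ofNat (nat_lit 2931512363467951199856)), (.ofNat (nat_lit 270601141243195495368))⟩,
    ⟨nat_lit 1, nat_lit 9, nat_lit 10, (.ofNat (nat_lit 8)), (.ofNat (nat_lit 351846080)), (.ofNat (nat_lit 1168230284665325617982269289472)), (.ofNat (nat_lit 0)), (.ofNat (nat_lit 17972773610235778737968046336)), (.ofNat (nat_lit 351846064)), (.ofNat (nat_lit 351846096)), (.ofNat (nat_lit 2931512363467951199856)), (.negSucc (nat_lit 2931512363467951199855)), (.negSucc (nat_lit 2931512363467951199855)), (.ofNat (nat_lit 2931512363467951199856)), (.ofNat (nat_lit 270601141243195495368))⟩,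
    ⟨nat_lit 0, nat_lit 11, nat_lit 10, (.ofNat (nat_lit 8)), (.ofNat (nat_lit 227524352)), (.ofNat (nat_lit 1532680967345025383768040560640)), (.ofNat (nat_lit 0)), (.ofNat (nat_lit 23579707189923467442295672320)), (.ofNat (nat_lit 227524336)), (.ofNat (nat_lit 227524368)), (.ofNat (nat_lit 2931512363467951199856)), (.negSucc (nat_lit 2931512363467951199855)), (.negSucc (nat_lit 2931512363467951199855)), (.ofNat (nat_lit 2931512363467951199856)), (.ofNat (nat_lit 270601141243195495368))⟩,
    ⟨nat_lit 2, nat_lit 12, nat_lit 11, (.ofNat (nat_lit 8)), (.ofNat (nat_lit 174309184)), (.ofNat (nat_lit 1376680044429001298051901944832)), (.ofNat (nat_lit 0)), (.ofNat (nat_lit 21179692991215404585153782016)), (.ofNat (nat_lit 174309168)), (.ofNat (nat_lit 174309200)), (.negSucc (nat_lit 2931512363467951199855)), (.ofNat (nat_lit 2931512363467951199856)), (.negSucc (nat_lit 2931512363467951199855)), (.ofNat (nat_lit 2931512363467951199856)), (.ofNat (nat_lit 270601141243195495368))⟩,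
    ⟨nat_lit 1, nat_lit 13, nat_lit 12, (.ofNat (nat_lit 8)), (.ofNat (nat_lit 293584640)), (.ofNat (nat_lit 1027022570506723677303330410496)), (.ofNat (nat_lit 0)), (.ofNat (nat_lit 15800347238564979650626434048)), (.ofNat (nat_lit 293584624)), (.ofNat (nat_lit 293584656)), (.ofNat (nat_lit 2931512363467951199856)), (.negSucc (nat_lit 2931512363467951199855)), (.negSucc (nat_lit 2931512363467951199855)), (.ofNat (nat_lit 2931512363467951199856)), (.ofNat (nat_lit 270601141243195495368))⟩,
    ⟨nat_lit 0, nat_lit 14, nat_lit 13, (.ofNat (nat_lit 8)), (.ofNat (nat_lit 222936832)), (.ofNat (nat_lit 819917647902813646782534094848)), (.ofNat (nat_lit 0)), (.ofNat (nat_lit 12614117660043286873422541824)), (.ofNat (nat_lit 222936816)), (.ofNat (nat_lit 222936848)), (.negSucc (nat_lit 2931512363467951199855)), (.ofNat (nat_lit 2931512363467951199856)), (.negSucc (nat_lit 2931512363467951199855)), (.ofNat (nat_lit 2931512363467951199856)), (.ofNat (nat_lit 270601141243195495368))⟩,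
    ⟨nat_lit 0, nat_lit 15, nat_lit 14, (.ofNat (nat_lit 8)), (.negSucc (nat_lit 14958783)), (.ofNat (nat_lit 1517311587421637793730216326144)), (.ofNat (nat_lit 0)), (.ofNat (nat_lit 23343255191102119903255126272)), (.negSucc (nat_lit 14958799)), (.negSucc (nat_lit 14958767)), (.ofNat (nat_lit 2931512363467951199856)), (.negSucc (nat_lit 2931512363467951199855)), (.negSucc (nat_lit 2931512363467951199855)), (.ofNat (nat_lit 2931512363467951199856)), (.ofNat (nat_lit 270601141243195495368))⟩,
    ⟨nat_lit 0, nat_lit 6, nat_lit 15, (.ofNat (nat_lit 8)), (.negSucc (nat_lit 137347263)), (.ofNat (nat_lit 1158528245155587717665664267264)), (.ofNat (nat_lit 0)), (.ofNat (nat_lit 17823511463932118733099032832)), (.negSucc (nat_lit 137347279)), (.negSucc (nat_lit 137347247)), (.negSucc (nat_lit 2931512363467951199855)), (.ofNat (nat_lit 2931512363467951199856)), (.negSucc (nat_lit 2931512363467951199855)), (.ofNat (nat_lit 2931512363467951199856)), (.ofNat (nat_lit 270601141243195495368))⟩,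
    ⟨nat_lit 0, nat_lit 23, nat_lit 16, (.ofNat (nat_lit 8)), (.negSucc (nat_lit 83951615)), (.ofNat (nat_lit 498165732656732318889514027008)), (.ofNat (nat_lit 0)), (.ofNat (nat_lit 7664088189074949170091022848)), (.negSucc (nat_lit 83951631)), (.negSucc (nat_lit 83951599)), (.negSucc (nat_lit 2931512363515332775382)), (.ofNat (nat_lit 2931512363480152826992)), (.negSucc (nat_lit 2931512363515332775382)), (.ofNat (nat_lit 2931512363480152826992)), (.ofNat (nat_lit 270601141457125051748))⟩,
    ⟨nat_lit 1, nat_lit 16, nat_lit 17, (.ofNat (nat_lit 8)), (.ofNat (nat_lit 225230592)), (.ofNat (nat_lit 1404537197976824534116342585344)), (.ofNat (nat_lit 0)), (.ofNat (nat_lit 21608264582329316561447554560)), (.ofNat (nat_lit 225230576)), (.ofNat (nat_lit 225230608)), (.ofNat (nat_lit 2931512363480152826992)), (.negSucc (nat_lit 2931512363515264822742)), (.negSucc (nat_lit 2931512363515264822742)), (.ofNat (nat_lit 2931512363480152826992)), (.ofNat (nat_lit 270601141386629249686))⟩,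
    ⟨nat_lit 0, nat_lit 18, nat_lit 17, (.ofNat (nat_lit 8)), (.ofNat (nat_lit 183811840)), (.ofNat (nat_lit 1525956781546197136023858862080)), (.ofNat (nat_lit 0)), (.ofNat (nat_lit 23476258177633802092386455040)), (.ofNat (nat_lit 183811824)), (.ofNat (nat_lit 183811856)), (.ofNat (nat_lit 2931512363467951199856)), (.negSucc (nat_lit 2931512363515264822742)), (.negSucc (nat_lit 2931512363515264822742)), (.ofNat (nat_lit 2931512363467951199856)), (.ofNat (nat_lit 270601141337822741142))⟩,
    ⟨nat_lit 0, nat_lit 19, nat_lit 18, (.ofNat (nat_lit 8)), (.ofNat (nat_lit 2735936)), (.ofNat (nat_lit 995130530244061297482048992256)), (.ofNat (nat_lit 0)), (.ofNat (nat_lit 15309700465293250730305052928)), (.ofNat (nat_lit 2735920)), (.ofNat (nat_lit 2735952)), (.negSucc (nat_lit 2931512363467951199855)), (.ofNat (nat_lit 2931512363467951199856)), (.negSucc (nat_lit 2931512363467951199855)), (.ofNat (nat_lit 2931512363467951199856)), (.ofNat (nat_lit 270601141243195495368))⟩,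
    ⟨nat_lit 2, nat_lit 19, nat_lit 20, (.ofNat (nat_lit 8)), (.negSucc (nat_lit 136069311)), (.ofNat (nat_lit 1402039830870296403829958636544)), (.ofNat (nat_lit 0)), (.ofNat (nat_lit 21569843551850713904811401472)), (.negSucc (nat_lit 136069327)), (.negSucc (nat_lit 136069295)), (.negSucc (nat_lit 2931512363467951199855)), (.ofNat (nat_lit 2931512363467951199856)), (.negSucc (nat_lit 2931512363467951199855)), (.ofNat (nat_lit 2931512363467951199856)), (.ofNat (nat_lit 270601141243195495368))⟩,
    ⟨nat_lit 0, nat_lit 20, nat_lit 21, (.ofNat (nat_lit 8)), (.negSucc (nat_lit 8208575)), (.ofNat (nat_lit 1776865159256408156655629890560)), (.ofNat (nat_lit 0)), (.ofNat (nat_lit 27336387065483202409750913280)), (.negSucc (nat_lit 8208591)), (.negSucc (nat_lit 8208559)), (.ofNat (nat_lit 2931512363467951199856)), (.negSucc (nat_lit 2931512363467951199855)), (.negSucc (nat_lit 2931512363467951199855)), (.ofNat (nat_lit 2931512363467951199856)), (.ofNat (nat_lit 270601141243195495368))⟩,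
    ⟨nat_lit 1, nat_lit 22, nat_lit 21, (.ofNat (nat_lit 8)), (.ofNat (nat_lit 221036288)), (.ofNat (nat_lit 1104831006178879115486004350976)), (.ofNat (nat_lit 0)), (.ofNat (nat_lit 16997400095059678699575948288)), (.ofNat (nat_lit 221036272)), (.ofNat (nat_lit 221036304)), (.ofNat (nat_lit 2931512363467951199856)), (.negSucc (nat_lit 2931512363467951199855)), (.negSucc (nat_lit 2931512363467951199855)), (.ofNat (nat_lit 2931512363467951199856)), (.ofNat (nat_lit 270601141243195495368))⟩,
    ⟨nat_lit 2, nat_lit 23, nat_lit 7, (.ofNat (nat_lit 8)), (.negSucc (nat_lit 204931071)), (.ofNat (nat_lit 852818503652091525714319558656)), (.ofNat (nat_lit 0)), (.ofNat (nat_lit 13120284671570638856982256128)), (.negSucc (nat_lit 204931087)), (.negSucc (nat_lit 204931055)), (.negSucc (nat_lit 2931512363515332775382)), (.ofNat (nat_lit 2931512363467951199856)), (.negSucc (nat_lit 2931512363515332775382)), (.ofNat (nat_lit 2931512363467951199856)), (.ofNat (nat_lit 270601141432721797476))⟩]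
  es := [
    ⟨nat_lit 1, nat_lit 0, (.negSucc (nat_lit 267845631)), (.negSucc (nat_lit 17891391)), (.negSucc (nat_lit 267845615)), (.negSucc (nat_lit 17891407)), (.negSucc (nat_lit 2931512363467951199855)), (.negSucc (nat_lit 45100190207199249227)), (.ofNat (nat_lit 5414811099023279793744271872))⟩,
    ⟨nat_lit 1, nat_lit 2, (.negSucc (nat_lit 267845631)), (.negSucc (nat_lit 133775551)), (.negSucc (nat_lit 267845615)), (.negSucc (nat_lit 133775567)), (.ofNat (nat_lit 2931512363467951199856)), (.ofNat (nat_lit 45100190207199249228)), (.ofNat (nat_lit 29574588997758267512542616064))⟩,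
    ⟨nat_lit 2, nat_lit 3, (.negSucc (nat_lit 133775551)), (.ofNat (nat_lit 5029696)), (.negSucc (nat_lit 133775535)), (.ofNat (nat_lit 5029680)), (.negSucc (nat_lit 2931512363467951199855)), (.negSucc (nat_lit 45100190207199249227)), (.ofNat (nat_lit 17507983317212119633620068352))⟩,
    ⟨nat_lit 3, nat_lit 4, (.ofNat (nat_lit 5029696)), (.ofNat (nat_lit 209108736)), (.ofNat (nat_lit 5029712)), (.ofNat (nat_lit 209108720)), (.ofNat (nat_lit 2931512363467951199856)), (.ofNat (nat_lit 45100190207199249228)), (.ofNat (nat_lit 17054302824643341163529918976))⟩,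
    ⟨nat_lit 5, nat_lit 4, (.ofNat (nat_lit 49594112)), (.ofNat (nat_lit 209108736)), (.ofNat (nat_lit 49594128)), (.ofNat (nat_lit 209108720)), (.negSucc (nat_lit 2931512363467951199855)), (.negSucc (nat_lit 45100190207199249227)), (.ofNat (nat_lit 35915990359817367375962030592))⟩,
    ⟨nat_lit 6, nat_lit 5, (.negSucc (nat_lit 219660479)), (.ofNat (nat_lit 49594112)), (.negSucc (nat_lit 219660463)), (.ofNat (nat_lit 49594096)), (.ofNat (nat_lit 2931512363467951199856)), (.ofNat (nat_lit 45100190207199249228)), (.ofNat (nat_lit 31442582591103081830903339520))⟩,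
    ⟨nat_lit 6, nat_lit 15, (.negSucc (nat_lit 219660479)), (.negSucc (nat_lit 137347263)), (.negSucc (nat_lit 219660463)), (.negSucc (nat_lit 137347279)), (.negSucc (nat_lit 2931512363467951199855)), (.negSucc (nat_lit 45100190207199249227)), (.ofNat (nat_lit 11629123733093708748779120640))⟩,
    ⟨nat_lit 23, nat_lit 7, (.negSucc (nat_lit 204931071)), (.negSucc (nat_lit 6176959)), (.negSucc (nat_lit 204931055)), (.negSucc (nat_lit 6176975)), (.ofNat (nat_lit 2931512363467951199856)), (.ofNat (nat_lit 45100190207199249228)), (.ofNat (nat_lit 22362714998135883118871468544))⟩,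
    ⟨nat_lit 7, nat_lit 8, (.negSucc (nat_lit 6176959)), (.ofNat (nat_lit 218414848)), (.negSucc (nat_lit 6176943)), (.ofNat (nat_lit 218414832)), (.negSucc (nat_lit 2931512363467951199855)), (.negSucc (nat_lit 45100190207199249227)), (.ofNat (nat_lit 21805550856331360169848694784))⟩,
    ⟨nat_lit 8, nat_lit 9, (.ofNat (nat_lit 218414848)), (.ofNat (nat_lit 351846080)), (.ofNat (nat_lit 218414864)), (.ofNat (nat_lit 351846064)), (.ofNat (nat_lit 2931512363467951199856)), (.ofNat (nat_lit 45100190207199249228)), (.ofNat (nat_lit 2104448478578335118153220096))⟩,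
    ⟨nat_lit 10, nat_lit 9, (.ofNat (nat_lit 227524352)), (.ofNat (nat_lit 351846080)), (.ofNat (nat_lit 227524368)), (.ofNat (nat_lit 351846064)), (.negSucc (nat_lit 2931512363467951199855)), (.negSucc (nat_lit 45100190207199249227)), (.ofNat (nat_lit 33841098741893222357782872576))⟩,
    ⟨nat_lit 11, nat_lit 10, (.ofNat (nat_lit 174309184)), (.ofNat (nat_lit 227524352)), (.ofNat (nat_lit 174309200)), (.ofNat (nat_lit 227524336)), (.ofNat (nat_lit 2931512363467951199856)), (.ofNat (nat_lit 45100190207199249228)), (.ofNat (nat_lit 13318315637953712526808472064))⟩,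
    ⟨nat_lit 11, nat_lit 12, (.ofNat (nat_lit 174309184)), (.ofNat (nat_lit 293584640)), (.ofNat (nat_lit 174309200)), (.ofNat (nat_lit 293584624)), (.negSucc (nat_lit 2931512363467951199855)), (.negSucc (nat_lit 45100190207199249227)), (.ofNat (nat_lit 29041070344477096643499091968))⟩,
    ⟨nat_lit 13, nat_lit 12, (.ofNat (nat_lit 222936832)), (.ofNat (nat_lit 293584640)), (.ofNat (nat_lit 222936848)), (.ofNat (nat_lit 293584624)), (.ofNat (nat_lit 2931512363467951199856)), (.ofNat (nat_lit 45100190207199249228)), (.ofNat (nat_lit 2559624132652862657753776128))⟩,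
    ⟨nat_lit 14, nat_lit 13, (.negSucc (nat_lit 14958783)), (.ofNat (nat_lit 222936832)), (.negSucc (nat_lit 14958767)), (.ofNat (nat_lit 222936816)), (.negSucc (nat_lit 2931512363467951199855)), (.negSucc (nat_lit 45100190207199249227)), (.ofNat (nat_lit 22668611187433711089091307520))⟩,
    ⟨nat_lit 15, nat_lit 14, (.negSucc (nat_lit 137347263)), (.negSucc (nat_lit 14958783)), (.negSucc (nat_lit 137347247)), (.negSucc (nat_lit 14958799)), (.ofNat (nat_lit 2931512363467951199856)), (.ofNat (nat_lit 45100190207199249228)), (.ofNat (nat_lit 24017899194770528717418945024))⟩,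
    ⟨nat_lit 16, nat_lit 17, (.negSucc (nat_lit 83951615)), (.ofNat (nat_lit 225230592)), (.negSucc (nat_lit 83951599)), (.ofNat (nat_lit 225230576)), (.ofNat (nat_lit 2931512363480152826992)), (.ofNat (nat_lit 45100190219400876364)), (.ofNat (nat_lit 11450322039901047292665027072))⟩,
    ⟨nat_lit 18, nat_lit 17, (.ofNat (nat_lit 183811840)), (.ofNat (nat_lit 225230592)), (.ofNat (nat_lit 183811856)), (.ofNat (nat_lit 225230576)), (.negSucc (nat_lit 2931512363515264822742)), (.negSucc (nat_lit 45100190254512872114)), (.ofNat (nat_lit 31766207132665881419529296640))⟩,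
    ⟨nat_lit 19, nat_lit 18, (.ofNat (nat_lit 2735936)), (.ofNat (nat_lit 183811840)), (.ofNat (nat_lit 2735952)), (.ofNat (nat_lit 183811824)), (.ofNat (nat_lit 2931512363467951199856)), (.ofNat (nat_lit 45100190207199249228)), (.ofNat (nat_lit 15186309231298526845169195520))⟩,
    ⟨nat_lit 20, nat_lit 19, (.negSucc (nat_lit 136069311)), (.ofNat (nat_lit 2735936)), (.negSucc (nat_lit 136069295)), (.ofNat (nat_lit 2735920)), (.negSucc (nat_lit 2931512363467951199855)), (.negSucc (nat_lit 45100190207199249227)), (.ofNat (nat_lit 15433091699287974615440910336))⟩,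
    ⟨nat_lit 20, nat_lit 21, (.negSucc (nat_lit 136069311)), (.negSucc (nat_lit 8208575)), (.negSucc (nat_lit 136069295)), (.negSucc (nat_lit 8208591)), (.ofNat (nat_lit 2931512363467951199856)), (.ofNat (nat_lit 45100190207199249228)), (.ofNat (nat_lit 27706595404413453194181892608))⟩,
    ⟨nat_lit 21, nat_lit 22, (.negSucc (nat_lit 8208575)), (.ofNat (nat_lit 221036288)), (.negSucc (nat_lit 8208559)), (.ofNat (nat_lit 221036272)), (.negSucc (nat_lit 2931512363467951199855)), (.negSucc (nat_lit 45100190207199249227)), (.ofNat (nat_lit 26966178726552951625319933952))⟩,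
    ⟨nat_lit 0, nat_lit 22, (.negSucc (nat_lit 17891391)), (.ofNat (nat_lit 221036288)), (.negSucc (nat_lit 17891375)), (.ofNat (nat_lit 221036272)), (.ofNat (nat_lit 2931512363467951199856)), (.ofNat (nat_lit 45100190207199249228)), (.ofNat (nat_lit 7028621463566405773831962624))⟩,
    ⟨nat_lit 23, nat_lit 16, (.negSucc (nat_lit 204931071)), (.negSucc (nat_lit 83951615)), (.negSucc (nat_lit 204931055)), (.negSucc (nat_lit 83951631)), (.negSucc (nat_lit 2931512363515332775382)), (.negSucc (nat_lit 45100190254580824754)), (.ofNat (nat_lit 3877854335295437529295968768))⟩]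

theorem ok38 : stOK 23 23 S38 = true := by decide +kernel

def S39 : SD where
  vs := [
    ⟨nat_lit 0, nat_lit 0, nat_lit 22, (.ofNat (nat_lit 8)), (.negSucc (nat_lit 75694079)), (.ofNat (nat_lit 575397809551863247354366052352)), (.negSucc (nat_lit 57802687)), (.ofNat (nat_lit 170986251267698466403172115456)), (.negSucc (nat_lit 75694095)), (.negSucc (nat_lit 75694063)), (.negSucc (nat_lit 2931512363467951199855)), (.ofNat (nat_lit 2931512363467951199856)), (.negSucc (nat_lit 2931512363467951199855)), (.ofNat (nat_lit 2931512363467951199856)), (.ofNat (nat_lit 0))⟩,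
    ⟨nat_lit 2, nat_lit 0, nat_lit 1, (.ofNat (nat_lit 8)), (.negSucc (nat_lit 327483327)), (.ofNat (nat_lit 1313521103052161352066806000640)), (.negSucc (nat_lit 59637695)), (.ofNat (nat_lit 176365599906761064598517474304)), (.negSucc (nat_lit 327483343)), (.negSucc (nat_lit 327483311)), (.negSucc (nat_lit 2931512363467951199855)), (.ofNat (nat_lit 2931512363467951199856)), (.negSucc (nat_lit 2931512363467951199855)), (.ofNat (nat_lit 2931512363467951199856)), (.ofNat (nat_lit 0))⟩,
    ⟨nat_lit 0, nat_lit 1, nat_lit 2, (.ofNat (nat_lit 8)), (.negSucc (nat_lit 192626815)), (.ofNat (nat_lit 1708854635274325474665601062912)), (.negSucc (nat_lit 58851263)), (.ofNat (nat_lit 178671035037787892396522628096)), (.negSucc (nat_lit 192626831)), (.negSucc (nat_lit 192626799)), (.ofNat (nat_lit 2931512363467951199856)), (.negSucc (nat_lit 2931512363467951199855)), (.negSucc (nat_lit 2931512363467951199855)), (.ofNat (nat_lit 2931512363467951199856)), (.ofNat (nat_lit 0))⟩,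
    ⟨nat_lit 0, nat_lit 2, nat_lit 3, (.ofNat (nat_lit 8)), (.negSucc (nat_lit 52772991)), (.ofNat (nat_lit 1298871421140054597920351213568)), (.negSucc (nat_lit 57802687)), (.ofNat (nat_lit 175597121529752121999182423040)), (.negSucc (nat_lit 52773007)), (.negSucc (nat_lit 52772975)), (.negSucc (nat_lit 2931512363467951199855)), (.ofNat (nat_lit 2931512363467951199856)), (.negSucc (nat_lit 2931512363467951199855)), (.ofNat (nat_lit 2931512363467951199856)), (.ofNat (nat_lit 0))⟩,
    ⟨nat_lit 1, nat_lit 3, nat_lit 4, (.ofNat (nat_lit 8)), (.ofNat (nat_lit 153141056)), (.ofNat (nat_lit 1902510998663787747749157190656)), (.negSucc (nat_lit 55967679)), (.ofNat (nat_lit 180976470168814720194527781888)), (.ofNat (nat_lit 153141040)), (.ofNat (nat_lit 153141072)), (.ofNat (nat_lit 2931512363467951199856)), (.negSucc (nat_lit 2931512363467951199855)), (.negSucc (nat_lit 2931512363467951199855)), (.ofNat (nat_lit 2931512363467951199856)), (.ofNat (nat_lit 0))⟩,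
    ⟨nat_lit 0, nat_lit 5, nat_lit 4, (.ofNat (nat_lit 8)), (.negSucc (nat_lit 7684287)), (.ofNat (nat_lit 2373972482958774032441211141120)), (.negSucc (nat_lit 57278399)), (.ofNat (nat_lit 184818862053859433191203038208)), (.negSucc (nat_lit 7684303)), (.negSucc (nat_lit 7684271)), (.ofNat (nat_lit 2931512363467951199856)), (.negSucc (nat_lit 2931512363467951199855)), (.negSucc (nat_lit 2931512363467951199855)), (.ofNat (nat_lit 2931512363467951199856)), (.ofNat (nat_lit 0))⟩,
    ⟨nat_lit 2, nat_lit 6, nat_lit 5, (.ofNat (nat_lit 8)), (.negSucc (nat_lit 279298175)), (.ofNat (nat_lit 1577733012197174643654057940992)), (.negSucc (nat_lit 59637695)), (.ofNat (nat_lit 177902556660778949797187576832)), (.negSucc (nat_lit 279298191)), (.negSucc (nat_lit 279298159)), (.negSucc (nat_lit 2931512363467951199855)), (.ofNat (nat_lit 2931512363467951199856)), (.negSucc (nat_lit 2931512363467951199855)), (.ofNat (nat_lit 2931512363467951199856)), (.ofNat (nat_lit 0))⟩,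
    ⟨nat_lit 0, nat_lit 7, nat_lit 8, (.ofNat (nat_lit 8)), (.negSucc (nat_lit 63979647)), (.ofNat (nat_lit 1612602718553955414098885892096)), (.negSucc (nat_lit 57802687)), (.ofNat (nat_lit 177134078283770007197852525568)), (.negSucc (nat_lit 63979663)), (.negSucc (nat_lit 63979631)), (.ofNat (nat_lit 2931512363467951199856)), (.negSucc (nat_lit 2931512363467951199855)), (.negSucc (nat_lit 2931512363467951199855)), (.ofNat (nat_lit 2931512363467951199856)), (.ofNat (nat_lit 0))⟩,
    ⟨nat_lit 0, nat_lit 8, nat_lit 9, (.ofNat (nat_lit 8)), (.ofNat (nat_lit 219725568)), (.ofNat (nat_lit 780917370269609809866280243200)), (.ofNat (nat_lit 1310720)), (.ofNat (nat_lit 3842391885044712996675256320)), (.ofNat (nat_lit 219725552)), (.ofNat (nat_lit 219725584)), (.negSucc (nat_lit 2931512363467951199855)), (.ofNat (nat_lit 2931512363467951199856)), (.negSucc (nat_lit 2931512363467951199855)), (.ofNat (nat_lit 2931512363467951199856)), (.ofNat (nat_lit 0))⟩,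
    ⟨nat_lit 1, nat_lit 9, nat_lit 10, (.ofNat (nat_lit 8)), (.ofNat (nat_lit 354467520)), (.ofNat (nat_lit 1175915068435415043975619802112)), (.ofNat (nat_lit 2621440)), (.ofNat (nat_lit 7684783770089425993350512640)), (.ofNat (nat_lit 354467504)), (.ofNat (nat_lit 354467536)), (.ofNat (nat_lit 2931512363467951199856)), (.negSucc (nat_lit 2931512363467951199855)), (.negSucc (nat_lit 2931512363467951199855)), (.ofNat (nat_lit 2931512363467951199856)), (.ofNat (nat_lit 0))⟩,
    ⟨nat_lit 0, nat_lit 11, nat_lit 10, (.ofNat (nat_lit 8)), (.ofNat (nat_lit 171818816)), (.ofNat (nat_lit 1711352002382813276164563188736)), (.negSucc (nat_lit 55705535)), (.ofNat (nat_lit 178671035037787892396522628096)), (.ofNat (nat_lit 171818800)), (.ofNat (nat_lit 171818832)), (.ofNat (nat_lit 2931512363467951199856)), (.negSucc (nat_lit 2931512363467951199855)), (.negSucc (nat_lit 2931512363467951199855)), (.ofNat (nat_lit 2931512363467951199856)), (.ofNat (nat_lit 0))⟩,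
    ⟨nat_lit 2, nat_lit 12, nat_lit 11, (.ofNat (nat_lit 8)), (.ofNat (nat_lit 118079360)), (.ofNat (nat_lit 1553814122712771305249754470400)), (.negSucc (nat_lit 56229823)), (.ofNat (nat_lit 177134078283770007197852525568)), (.ofNat (nat_lit 118079344)), (.ofNat (nat_lit 118079376)), (.negSucc (nat_lit 2931512363467951199855)), (.ofNat (nat_lit 2931512363467951199856)), (.negSucc (nat_lit 2931512363467951199855)), (.ofNat (nat_lit 2931512363467951199856)), (.ofNat (nat_lit 0))⟩,
    ⟨nat_lit 1, nat_lit 13, nat_lit 12, (.ofNat (nat_lit 8)), (.ofNat (nat_lit 295419648)), (.ofNat (nat_lit 1033938875899804160697345871872)), (.ofNat (nat_lit 1835008)), (.ofNat (nat_lit 6916305393080483394015461376)), (.ofNat (nat_lit 295419632)), (.ofNat (nat_lit 295419664)), (.ofNat (nat_lit 2931512363467951199856)), (.negSucc (nat_lit 2931512363467951199855)), (.negSucc (nat_lit 2931512363467951199855)), (.ofNat (nat_lit 2931512363467951199856)), (.ofNat (nat_lit 0))⟩,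
    ⟨nat_lit 0, nat_lit 14, nat_lit 13, (.ofNat (nat_lit 8)), (.ofNat (nat_lit 224247552)), (.ofNat (nat_lit 825296996541876244977879453696)), (.ofNat (nat_lit 1310720)), (.ofNat (nat_lit 5379348639062598195345358848)), (.ofNat (nat_lit 224247536)), (.ofNat (nat_lit 224247568)), (.negSucc (nat_lit 2931512363467951199855)), (.ofNat (nat_lit 2931512363467951199856)), (.negSucc (nat_lit 2931512363467951199855)), (.ofNat (nat_lit 2931512363467951199856)), (.ofNat (nat_lit 0))⟩,
    ⟨nat_lit 0, nat_lit 15, nat_lit 14, (.ofNat (nat_lit 8)), (.negSucc (nat_lit 72761471)), (.ofNat (nat_lit 1695982622459425686126738954240)), (.negSucc (nat_lit 57802687)), (.ofNat (nat_lit 178671035037787892396522628096)), (.negSucc (nat_lit 72761487)), (.negSucc (nat_lit 72761455)), (.ofNat (nat_lit 2931512363467951199856)), (.negSucc (nat_lit 2931512363467951199855)), (.negSucc (nat_lit 2931512363467951199855)), (.ofNat (nat_lit 2931512363467951199856)), (.ofNat (nat_lit 0))⟩,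
    ⟨nat_lit 0, nat_lit 6, nat_lit 15, (.ofNat (nat_lit 8)), (.negSucc (nat_lit 196198527)), (.ofNat (nat_lit 1334125366685339839664846690304)), (.negSucc (nat_lit 58851263)), (.ofNat (nat_lit 175597121529752121999182423040)), (.negSucc (nat_lit 196198543)), (.negSucc (nat_lit 196198511)), (.negSucc (nat_lit 2931512363467951199855)), (.ofNat (nat_lit 2931512363467951199856)), (.negSucc (nat_lit 2931512363467951199855)), (.ofNat (nat_lit 2931512363467951199856)), (.ofNat (nat_lit 0))⟩,
    ⟨nat_lit 0, nat_lit 23, nat_lit 16, (.ofNat (nat_lit 8)), (.negSucc (nat_lit 84475903)), (.ofNat (nat_lit 499702689407974159273843663296)), (.negSucc (nat_lit 524287)), (.ofNat (nat_lit 1536956751241840384329636288)), (.negSucc (nat_lit 84475919)), (.negSucc (nat_lit 84475887)), (.negSucc (nat_lit 2931512363515332775382)), (.ofNat (nat_lit 2931512363480152826992)), (.negSucc (nat_lit 2931512363515332775382)), (.ofNat (nat_lit 2931512363480152826992)), (.ofNat (nat_lit 0))⟩,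
    ⟨nat_lit 1, nat_lit 16, nat_lit 17, (.ofNat (nat_lit 8)), (.ofNat (nat_lit 227065600)), (.ofNat (nat_lit 1412990460121175645144783139264)), (.ofNat (nat_lit 1835008)), (.ofNat (nat_lit 8453262144351111028440553920)), (.ofNat (nat_lit 227065584)), (.ofNat (nat_lit 227065616)), (.ofNat (nat_lit 2931512363480152826992)), (.negSucc (nat_lit 2931512363515264822742)), (.negSucc (nat_lit 2931512363515264822742)), (.ofNat (nat_lit 2931512363480152826992)), (.ofNat (nat_lit 0))⟩,
    ⟨nat_lit 0, nat_lit 18, nat_lit 17, (.ofNat (nat_lit 8)), (.ofNat (nat_lit 127582016)), (.ofNat (nat_lit 1704627816583985028420381490176)), (.negSucc (nat_lit 56229823)), (.ofNat (nat_lit 178671035037787892396522628096)), (.ofNat (nat_lit 127582000)), (.ofNat (nat_lit 127582032)), (.ofNat (nat_lit 2931512363467951199856)), (.negSucc (nat_lit 2931512363515264822742)), (.negSucc (nat_lit 2931512363515264822742)), (.ofNat (nat_lit 2931512363467951199856)), (.ofNat (nat_lit 0))⟩,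
    ⟨nat_lit 0, nat_lit 19, nat_lit 18, (.ofNat (nat_lit 8)), (.negSucc (nat_lit 55066751)), (.ofNat (nat_lit 1169190695019795534282561312768)), (.negSucc (nat_lit 57802687)), (.ofNat (nat_lit 174060164775734236800512320512)), (.negSucc (nat_lit 55066767)), (.negSucc (nat_lit 55066735)), (.negSucc (nat_lit 2931512363467951199855)), (.ofNat (nat_lit 2931512363467951199856)), (.negSucc (nat_lit 2931512363467951199855)), (.ofNat (nat_lit 2931512363467951199856)), (.ofNat (nat_lit 0))⟩,
    ⟨nat_lit 2, nat_lit 19, nat_lit 20, (.ofNat (nat_lit 8)), (.negSucc (nat_lit 194920575)), (.ofNat (nat_lit 1579173909154066411027811162112)), (.negSucc (nat_lit 58851263)), (.ofNat (nat_lit 177134078283770007197852525568)), (.negSucc (nat_lit 194920591)), (.negSucc (nat_lit 194920559)), (.negSucc (nat_lit 2931512363467951199855)), (.ofNat (nat_lit 2931512363467951199856)), (.negSucc (nat_lit 2931512363467951199855)), (.ofNat (nat_lit 2931512363467951199856)), (.ofNat (nat_lit 0))⟩,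
    ⟨nat_lit 0, nat_lit 20, nat_lit 21, (.ofNat (nat_lit 8)), (.negSucc (nat_lit 66011263)), (.ofNat (nat_lit 1957073151048213934250822621184)), (.negSucc (nat_lit 57802687)), (.ofNat (nat_lit 180207991791805777595192730624)), (.negSucc (nat_lit 66011279)), (.negSucc (nat_lit 66011247)), (.ofNat (nat_lit 2931512363467951199856)), (.negSucc (nat_lit 2931512363467951199855)), (.negSucc (nat_lit 2931512363467951199855)), (.ofNat (nat_lit 2931512363467951199856)), (.ofNat (nat_lit 0))⟩,
    ⟨nat_lit 1, nat_lit 22, nat_lit 21, (.ofNat (nat_lit 8)), (.ofNat (nat_lit 164806464)), (.ofNat (nat_lit 1280428127708631237485186774016)), (.negSucc (nat_lit 56229823)), (.ofNat (nat_lit 175597121529752121999182423040)), (.ofNat (nat_lit 164806448)), (.ofNat (nat_lit 164806480)), (.ofNat (nat_lit 2931512363467951199856)), (.negSucc (nat_lit 2931512363467951199855)), (.negSucc (nat_lit 2931512363467951199855)), (.ofNat (nat_lit 2931512363467951199856)), (.ofNat (nat_lit 0))⟩,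
    ⟨nat_lit 2, nat_lit 23, nat_lit 7, (.ofNat (nat_lit 8)), (.negSucc (nat_lit 264044479)), (.ofNat (nat_lit 1026110190050816819915496827904)), (.negSucc (nat_lit 59113407)), (.ofNat (nat_lit 173291686398725294201177269248)), (.negSucc (nat_lit 264044495)), (.negSucc (nat_lit 264044463)), (.negSucc (nat_lit 2931512363515332775382)), (.ofNat (nat_lit 2931512363467951199856)), (.negSucc (nat_lit 2931512363515332775382)), (.ofNat (nat_lit 2931512363467951199856)), (.ofNat (nat_lit 0))⟩]
  es := [
    ⟨nat_lit 1, nat_lit 0, (.negSucc (nat_lit 327483327)), (.negSucc (nat_lit 75694079)), (.negSucc (nat_lit 327483311)), (.negSucc (nat_lit 75694095)), (.negSucc (nat_lit 2931512363467951199855)), (.ofNat (nat_lit 0)), (.ofNat (nat_lit 1536956754017885198670102528))⟩,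
    ⟨nat_lit 1, nat_lit 2, (.negSucc (nat_lit 327483327)), (.negSucc (nat_lit 192626815)), (.negSucc (nat_lit 327483311)), (.negSucc (nat_lit 192626831)), (.ofNat (nat_lit 2931512363467951199856)), (.ofNat (nat_lit 0)), (.ofNat (nat_lit 351194243059504243998364846080))⟩,
    ⟨nat_lit 2, nat_lit 3, (.negSucc (nat_lit 192626815)), (.negSucc (nat_lit 52772991)), (.negSucc (nat_lit 192626799)), (.negSucc (nat_lit 52773007)), (.negSucc (nat_lit 2931512363467951199855)), (.ofNat (nat_lit 0)), (.ofNat (nat_lit 6147827016071540794680410112))⟩,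
    ⟨nat_lit 3, nat_lit 4, (.negSucc (nat_lit 52772991)), (.ofNat (nat_lit 153141056)), (.negSucc (nat_lit 52772975)), (.ofNat (nat_lit 153141040)), (.ofNat (nat_lit 2931512363467951199856)), (.ofNat (nat_lit 0)), (.ofNat (nat_lit 345046416043432703203684435968))⟩,
    ⟨nat_lit 5, nat_lit 4, (.negSucc (nat_lit 7684287)), (.ofNat (nat_lit 153141056)), (.negSucc (nat_lit 7684271)), (.ofNat (nat_lit 153141040)), (.negSucc (nat_lit 2931512363467951199855)), (.ofNat (nat_lit 0)), (.ofNat (nat_lit 16906524294196737185371127808))⟩,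
    ⟨nat_lit 6, nat_lit 5, (.negSucc (nat_lit 279298175)), (.negSucc (nat_lit 7684287)), (.negSucc (nat_lit 279298159)), (.negSucc (nat_lit 7684303)), (.ofNat (nat_lit 2931512363467951199856)), (.ofNat (nat_lit 0)), (.ofNat (nat_lit 352731199813522129197034948608))⟩,
    ⟨nat_lit 6, nat_lit 15, (.negSucc (nat_lit 279298175)), (.negSucc (nat_lit 196198527)), (.negSucc (nat_lit 279298159)), (.negSucc (nat_lit 196198543)), (.negSucc (nat_lit 2931512363467951199855)), (.ofNat (nat_lit 0)), (.ofNat (nat_lit 3073913508035770397340205056))⟩,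
    ⟨nat_lit 23, nat_lit 7, (.negSucc (nat_lit 264044479)), (.negSucc (nat_lit 63979647)), (.negSucc (nat_lit 264044463)), (.negSucc (nat_lit 63979663)), (.ofNat (nat_lit 2931512363467951199856)), (.ofNat (nat_lit 0)), (.ofNat (nat_lit 346583372797450588402354538496))⟩,
    ⟨nat_lit 7, nat_lit 8, (.negSucc (nat_lit 63979647)), (.ofNat (nat_lit 219725568)), (.negSucc (nat_lit 63979631)), (.ofNat (nat_lit 219725552)), (.negSucc (nat_lit 2931512363467951199855)), (.ofNat (nat_lit 0)), (.ofNat (nat_lit 7684783770089425993350512640))⟩,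
    ⟨nat_lit 8, nat_lit 9, (.ofNat (nat_lit 219725568)), (.ofNat (nat_lit 354467520)), (.ofNat (nat_lit 219725584)), (.ofNat (nat_lit 354467504)), (.ofNat (nat_lit 2931512363467951199856)), (.ofNat (nat_lit 0)), (.ofNat (nat_lit 0))⟩,
    ⟨nat_lit 10, nat_lit 9, (.ofNat (nat_lit 171818816)), (.ofNat (nat_lit 354467520)), (.ofNat (nat_lit 171818832)), (.ofNat (nat_lit 354467504)), (.negSucc (nat_lit 2931512363467951199855)), (.ofNat (nat_lit 0)), (.ofNat (nat_lit 15369567540178851986701025280))⟩,
    ⟨nat_lit 11, nat_lit 10, (.ofNat (nat_lit 118079360)), (.ofNat (nat_lit 171818816)), (.ofNat (nat_lit 118079376)), (.ofNat (nat_lit 171818800)), (.ofNat (nat_lit 2931512363467951199856)), (.ofNat (nat_lit 0)), (.ofNat (nat_lit 341972502535396932806344230912))⟩,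
    ⟨nat_lit 11, nat_lit 12, (.ofNat (nat_lit 118079360)), (.ofNat (nat_lit 295419648)), (.ofNat (nat_lit 118079376)), (.ofNat (nat_lit 295419632)), (.negSucc (nat_lit 2931512363467951199855)), (.ofNat (nat_lit 0)), (.ofNat (nat_lit 12295654032143081589360820224))⟩,
    ⟨nat_lit 13, nat_lit 12, (.ofNat (nat_lit 224247552)), (.ofNat (nat_lit 295419648)), (.ofNat (nat_lit 224247568)), (.ofNat (nat_lit 295419632)), (.ofNat (nat_lit 2931512363467951199856)), (.ofNat (nat_lit 0)), (.ofNat (nat_lit 1536956754017885198670102528))⟩,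
    ⟨nat_lit 14, nat_lit 13, (.negSucc (nat_lit 72761471)), (.ofNat (nat_lit 224247552)), (.negSucc (nat_lit 72761455)), (.ofNat (nat_lit 224247536)), (.negSucc (nat_lit 2931512363467951199855)), (.ofNat (nat_lit 0)), (.ofNat (nat_lit 9221740524107311192020615168))⟩,
    ⟨nat_lit 15, nat_lit 14, (.negSucc (nat_lit 196198527)), (.negSucc (nat_lit 72761471)), (.negSucc (nat_lit 196198511)), (.negSucc (nat_lit 72761487)), (.ofNat (nat_lit 2931512363467951199856)), (.ofNat (nat_lit 0)), (.ofNat (nat_lit 348120329551468473601024641024))⟩,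
    ⟨nat_lit 16, nat_lit 17, (.negSucc (nat_lit 84475903)), (.ofNat (nat_lit 227065600)), (.negSucc (nat_lit 84475887)), (.ofNat (nat_lit 227065584)), (.ofNat (nat_lit 2931512363480152826992)), (.ofNat (nat_lit 0)), (.ofNat (nat_lit 3073913505266122749687617984))⟩,
    ⟨nat_lit 18, nat_lit 17, (.ofNat (nat_lit 127582016)), (.ofNat (nat_lit 227065600)), (.ofNat (nat_lit 127582032)), (.ofNat (nat_lit 227065584)), (.negSucc (nat_lit 2931512363515264822742)), (.ofNat (nat_lit 0)), (.ofNat (nat_lit 13832610783500530100292540864))⟩,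
    ⟨nat_lit 19, nat_lit 18, (.negSucc (nat_lit 55066751)), (.ofNat (nat_lit 127582016)), (.negSucc (nat_lit 55066735)), (.ofNat (nat_lit 127582000)), (.ofNat (nat_lit 2931512363467951199856)), (.ofNat (nat_lit 0)), (.ofNat (nat_lit 343509459289414818005014333440))⟩,
    ⟨nat_lit 20, nat_lit 19, (.negSucc (nat_lit 194920575)), (.negSucc (nat_lit 55066751)), (.negSucc (nat_lit 194920559)), (.negSucc (nat_lit 55066767)), (.negSucc (nat_lit 2931512363467951199855)), (.ofNat (nat_lit 0)), (.ofNat (nat_lit 4610870262053655596010307584))⟩,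
    ⟨nat_lit 20, nat_lit 21, (.negSucc (nat_lit 194920575)), (.negSucc (nat_lit 66011263)), (.negSucc (nat_lit 194920559)), (.negSucc (nat_lit 66011279)), (.ofNat (nat_lit 2931512363467951199856)), (.ofNat (nat_lit 0)), (.ofNat (nat_lit 349657286305486358799694743552))⟩,
    ⟨nat_lit 21, nat_lit 22, (.negSucc (nat_lit 66011263)), (.ofNat (nat_lit 164806464)), (.negSucc (nat_lit 66011247)), (.ofNat (nat_lit 164806448)), (.negSucc (nat_lit 2931512363467951199855)), (.ofNat (nat_lit 0)), (.ofNat (nat_lit 10758697278125196390690717696))⟩,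
    ⟨nat_lit 0, nat_lit 22, (.negSucc (nat_lit 75694079)), (.ofNat (nat_lit 164806464)), (.negSucc (nat_lit 75694063)), (.ofNat (nat_lit 164806448)), (.ofNat (nat_lit 2931512363467951199856)), (.ofNat (nat_lit 0)), (.ofNat (nat_lit 340435545781379047607674128384))⟩,
    ⟨nat_lit 23, nat_lit 16, (.negSucc (nat_lit 264044479)), (.negSucc (nat_lit 84475903)), (.negSucc (nat_lit 264044463)), (.negSucc (nat_lit 84475919)), (.negSucc (nat_lit 2931512363515332775382)), (.ofNat (nat_lit 0)), (.negSucc (nat_lit 2800886405810366015))⟩]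

theorem ok39 : stOK 23 23 S39 = true := by decide +kernel

def S40 : SD where
  vs := [
    ⟨nat_lit 0, nat_lit 0, nat_lit 22, (.ofNat (nat_lit 8)), (.negSucc (nat_lit 75694079)), (.ofNat (nat_lit 584388400326111110594130811776)), (.ofNat (nat_lit 0)), (.ofNat (nat_lit 8990590774247863239764759424)), (.negSucc (nat_lit 75694095)), (.negSucc (nat_lit 75694063)), (.negSucc (nat_lit 2977317244147137937352)), (.ofNat (nat_lit 2977317244147137937353)), (.negSucc (nat_lit 2977317244147137937352)), (.ofNat (nat_lit 2977317244147137937353)), (.ofNat (nat_lit 274829284075120424982))⟩,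
    ⟨nat_lit 2, nat_lit 0, nat_lit 1, (.ofNat (nat_lit 8)), (.negSucc (nat_lit 327483327)), (.ofNat (nat_lit 1334044870287351373192513792320)), (.ofNat (nat_lit 0)), (.ofNat (nat_lit 20523767235190021125707791680)), (.negSucc (nat_lit 327483343)), (.negSucc (nat_lit 327483311)), (.negSucc (nat_lit 2977317244147137937352)), (.ofNat (nat_lit 2977317244147137937353)), (.negSucc (nat_lit 2977317244147137937352)), (.ofNat (nat_lit 2977317244147137937353)), (.ofNat (nat_lit 274829284075120424982))⟩,
    ⟨nat_lit 0, nat_lit 1, nat_lit 2, (.ofNat (nat_lit 8)), (.negSucc (nat_lit 192626815)), (.ofNat (nat_lit 1735555488950486810206813885056)), (.ofNat (nat_lit 0)), (.ofNat (nat_lit 26700853676161335541212822144)), (.negSucc (nat_lit 192626831)), (.negSucc (nat_lit 192626799)), (.ofNat (nat_lit 2977317244147137937353)), (.negSucc (nat_lit 2977317244147137937352)), (.negSucc (nat_lit 2977317244147137937352)), (.ofNat (nat_lit 2977317244147137937353)), (.ofNat (nat_lit 274829284075120424982))⟩,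
    ⟨nat_lit 0, nat_lit 2, nat_lit 3, (.ofNat (nat_lit 8)), (.negSucc (nat_lit 52772991)), (.ofNat (nat_lit 1319166287095367951012524397184)), (.ofNat (nat_lit 0)), (.ofNat (nat_lit 20294865955313353092173183616)), (.negSucc (nat_lit 52773007)), (.negSucc (nat_lit 52772975)), (.negSucc (nat_lit 2977317244147137937352)), (.ofNat (nat_lit 2977317244147137937353)), (.negSucc (nat_lit 2977317244147137937352)), (.ofNat (nat_lit 2977317244147137937353)), (.ofNat (nat_lit 274829284075120424982))⟩,
    ⟨nat_lit 1, nat_lit 3, nat_lit 4, (.ofNat (nat_lit 8)), (.ofNat (nat_lit 153141056)), (.ofNat (nat_lit 1932237733017909431307251032128)), (.ofNat (nat_lit 0)), (.ofNat (nat_lit 29726734354121683558093841472)), (.ofNat (nat_lit 153141040)), (.ofNat (nat_lit 153141072)), (.ofNat (nat_lit 2977317244147137937353)), (.negSucc (nat_lit 2977317244147137937352)), (.negSucc (nat_lit 2977317244147137937352)), (.ofNat (nat_lit 2977317244147137937353)), (.ofNat (nat_lit 274829284075120424982))⟩,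
    ⟨nat_lit 0, nat_lit 5, nat_lit 4, (.ofNat (nat_lit 8)), (.negSucc (nat_lit 7684287)), (.ofNat (nat_lit 2411065803005004876697497706560)), (.ofNat (nat_lit 0)), (.ofNat (nat_lit 37093320046230844256286565440)), (.negSucc (nat_lit 7684303)), (.negSucc (nat_lit 7684271)), (.ofNat (nat_lit 2977317244147137937353)), (.negSucc (nat_lit 2977317244147137937352)), (.negSucc (nat_lit 2977317244147137937352)), (.ofNat (nat_lit 2977317244147137937353)), (.ofNat (nat_lit 274829284075120424982))⟩,
    ⟨nat_lit 2, nat_lit 6, nat_lit 5, (.ofNat (nat_lit 8)), (.negSucc (nat_lit 279298175)), (.ofNat (nat_lit 1602385090512755497460748948096)), (.ofNat (nat_lit 0)), (.ofNat (nat_lit 24652078315580853806691007104)), (.negSucc (nat_lit 279298191)), (.negSucc (nat_lit 279298159)), (.negSucc (nat_lit 2977317244147137937352)), (.ofNat (nat_lit 2977317244147137937353)), (.negSucc (nat_lit 2977317244147137937352)), (.ofNat (nat_lit 2977317244147137937353)), (.ofNat (nat_lit 274829284075120424982))⟩,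
    ⟨nat_lit 0, nat_lit 7, nat_lit 8, (.ofNat (nat_lit 8)), (.negSucc (nat_lit 63979647)), (.ofNat (nat_lit 1637799636031360967443768414848)), (.ofNat (nat_lit 0)), (.ofNat (nat_lit 25196917477405553344882522752)), (.negSucc (nat_lit 63979663)), (.negSucc (nat_lit 63979631)), (.ofNat (nat_lit 2977317244147137937353)), (.negSucc (nat_lit 2977317244147137937352)), (.negSucc (nat_lit 2977317244147137937352)), (.ofNat (nat_lit 2977317244147137937353)), (.ofNat (nat_lit 274829284075120424982))⟩,
    ⟨nat_lit 0, nat_lit 8, nat_lit 9, (.ofNat (nat_lit 8)), (.ofNat (nat_lit 219725568)), (.ofNat (nat_lit 793119204180072463145241081600)), (.ofNat (nat_lit 0)), (.ofNat (nat_lit 12201833910462653278960838400)), (.ofNat (nat_lit 219725552)), (.ofNat (nat_lit 219725584)), (.negSucc (nat_lit 2977317244147137937352)), (.ofNat (nat_lit 2977317244147137937353)), (.negSucc (nat_lit 2977317244147137937352)), (.ofNat (nat_lit 2977317244147137937353)), (.ofNat (nat_lit 274829284075120424982))⟩,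
    ⟨nat_lit 1, nat_lit 9, nat_lit 10, (.ofNat (nat_lit 8)), (.ofNat (nat_lit 354467520)), (.ofNat (nat_lit 1194288741379718404037438014656)), (.ofNat (nat_lit 0)), (.ofNat (nat_lit 18373672944303360061818212544)), (.ofNat (nat_lit 354467504)), (.ofNat (nat_lit 354467536)), (.ofNat (nat_lit 2977317244147137937353)), (.negSucc (nat_lit 2977317244147137937352)), (.negSucc (nat_lit 2977317244147137937352)), (.ofNat (nat_lit 2977317244147137937353)), (.ofNat (nat_lit 274829284075120424982))⟩,
    ⟨nat_lit 0, nat_lit 11, nat_lit 10, (.ofNat (nat_lit 8)), (.ofNat (nat_lit 171818816)), (.ofNat (nat_lit 1738091877420044733604196655168)), (.ofNat (nat_lit 0)), (.ofNat (nat_lit 26739875037231457439633466432)), (.ofNat (nat_lit 171818800)), (.ofNat (nat_lit 171818832)), (.ofNat (nat_lit 2977317244147137937353)), (.negSucc (nat_lit 2977317244147137937352)), (.negSucc (nat_lit 2977317244147137937352)), (.ofNat (nat_lit 2977317244147137937353)), (.ofNat (nat_lit 274829284075120424982))⟩,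
    ⟨nat_lit 2, nat_lit 12, nat_lit 11, (.ofNat (nat_lit 8)), (.ofNat (nat_lit 118079360)), (.ofNat (nat_lit 1578092468380158356893884355200)), (.ofNat (nat_lit 0)), (.ofNat (nat_lit 24278345667387051644129884800)), (.ofNat (nat_lit 118079344)), (.ofNat (nat_lit 118079376)), (.negSucc (nat_lit 2977317244147137937352)), (.ofNat (nat_lit 2977317244147137937353)), (.negSucc (nat_lit 2977317244147137937352)), (.ofNat (nat_lit 2977317244147137937353)), (.ofNat (nat_lit 274829284075120424982))⟩,
    ⟨nat_lit 1, nat_lit 13, nat_lit 12, (.ofNat (nat_lit 8)), (.ofNat (nat_lit 295419648)), (.ofNat (nat_lit 1050094170835738600707977377536)), (.ofNat (nat_lit 0)), (.ofNat (nat_lit 16155294935934440010631505664)), (.ofNat (nat_lit 295419632)), (.ofNat (nat_lit 295419664)), (.ofNat (nat_lit 2977317244147137937353)), (.negSucc (nat_lit 2977317244147137937352)), (.negSucc (nat_lit 2977317244147137937352)), (.ofNat (nat_lit 2977317244147137937353)), (.ofNat (nat_lit 274829284075120424982))⟩,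
    ⟨nat_lit 0, nat_lit 14, nat_lit 13, (.ofNat (nat_lit 8)), (.ofNat (nat_lit 224247552)), (.ofNat (nat_lit 838192262112843061305447675648)), (.ofNat (nat_lit 0)), (.ofNat (nat_lit 12895265570966816327568221952)), (.ofNat (nat_lit 224247536)), (.ofNat (nat_lit 224247568)), (.negSucc (nat_lit 2977317244147137937352)), (.ofNat (nat_lit 2977317244147137937353)), (.negSucc (nat_lit 2977317244147137937352)), (.ofNat (nat_lit 2977317244147137937353)), (.ofNat (nat_lit 274829284075120424982))⟩,
    ⟨nat_lit 0, nat_lit 15, nat_lit 14, (.ofNat (nat_lit 8)), (.negSucc (nat_lit 72761471)), (.ofNat (nat_lit 1722482350935354212472035349120)), (.ofNat (nat_lit 0)), (.ofNat (nat_lit 26499728475928526345296394880)), (.negSucc (nat_lit 72761487)), (.negSucc (nat_lit 72761455)), (.ofNat (nat_lit 2977317244147137937353)), (.negSucc (nat_lit 2977317244147137937352)), (.negSucc (nat_lit 2977317244147137937352)), (.ofNat (nat_lit 2977317244147137937353)), (.ofNat (nat_lit 274829284075120424982))⟩,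
    ⟨nat_lit 0, nat_lit 6, nat_lit 15, (.ofNat (nat_lit 8)), (.negSucc (nat_lit 196198527)), (.ofNat (nat_lit 1354971075539798274659268596352)), (.ofNat (nat_lit 0)), (.ofNat (nat_lit 20845708854458434994421906048)), (.negSucc (nat_lit 196198543)), (.negSucc (nat_lit 196198511)), (.negSucc (nat_lit 2977317244147137937352)), (.ofNat (nat_lit 2977317244147137937353)), (.negSucc (nat_lit 2977317244147137937352)), (.ofNat (nat_lit 2977317244147137937353)), (.ofNat (nat_lit 274829284075120424982))⟩,
    ⟨nat_lit 0, nat_lit 23, nat_lit 16, (.ofNat (nat_lit 8)), (.negSucc (nat_lit 84475903)), (.ofNat (nat_lit 507510543938614938840358525824)), (.ofNat (nat_lit 0)), (.ofNat (nat_lit 7807854530640779566514862528)), (.negSucc (nat_lit 84475919)), (.negSucc (nat_lit 84475887)), (.negSucc (nat_lit 2977317244147137937352)), (.ofNat (nat_lit 2977317244147137937353)), (.negSucc (nat_lit 2977317244147137937352)), (.ofNat (nat_lit 2977317244147137937353)), (.ofNat (nat_lit 274829283861190868602))⟩,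
    ⟨nat_lit 1, nat_lit 16, nat_lit 17, (.ofNat (nat_lit 8)), (.ofNat (nat_lit 227065600)), (.ofNat (nat_lit 1435068436065349489138769924736)), (.ofNat (nat_lit 0)), (.ofNat (nat_lit 22077975944173843993986785472)), (.ofNat (nat_lit 227065584)), (.ofNat (nat_lit 227065616)), (.ofNat (nat_lit 2977317244147137937353)), (.negSucc (nat_lit 2977317244147137937352)), (.negSucc (nat_lit 2977317244147137937352)), (.ofNat (nat_lit 2977317244147137937353)), (.ofNat (nat_lit 274829283931686670664))⟩,
    ⟨nat_lit 0, nat_lit 18, nat_lit 17, (.ofNat (nat_lit 8)), (.ofNat (nat_lit 127582016)), (.ofNat (nat_lit 1731262626218109794489013837888)), (.ofNat (nat_lit 0)), (.ofNat (nat_lit 26634809634124766068632347712)), (.ofNat (nat_lit 127582000)), (.ofNat (nat_lit 127582032)), (.ofNat (nat_lit 2977317244147137937353)), (.negSucc (nat_lit 2977317244147137937352)), (.negSucc (nat_lit 2977317244147137937352)), (.ofNat (nat_lit 2977317244147137937353)), (.ofNat (nat_lit 274829283980493179208))⟩,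
    ⟨nat_lit 0, nat_lit 19, nat_lit 18, (.ofNat (nat_lit 8)), (.negSucc (nat_lit 55066751)), (.ofNat (nat_lit 1187459299629479839505427206784)), (.ofNat (nat_lit 0)), (.ofNat (nat_lit 18268604609684305222865894016)), (.negSucc (nat_lit 55066767)), (.negSucc (nat_lit 55066735)), (.negSucc (nat_lit 2977317244147137937352)), (.ofNat (nat_lit 2977317244147137937353)), (.negSucc (nat_lit 2977317244147137937352)), (.ofNat (nat_lit 2977317244147137937353)), (.ofNat (nat_lit 274829284075120424982))⟩,
    ⟨nat_lit 2, nat_lit 19, nat_lit 20, (.ofNat (nat_lit 8)), (.negSucc (nat_lit 194920575)), (.ofNat (nat_lit 1603848501484598698699716694656)), (.ofNat (nat_lit 0)), (.ofNat (nat_lit 24674592330532287671905532544)), (.negSucc (nat_lit 194920591)), (.negSucc (nat_lit 194920559)), (.negSucc (nat_lit 2977317244147137937352)), (.ofNat (nat_lit 2977317244147137937353)), (.negSucc (nat_lit 2977317244147137937352)), (.ofNat (nat_lit 2977317244147137937353)), (.ofNat (nat_lit 274829284075120424982))⟩,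
    ⟨nat_lit 0, nat_lit 20, nat_lit 21, (.ofNat (nat_lit 8)), (.negSucc (nat_lit 66011263)), (.ofNat (nat_lit 1987652419033342276972991025792)), (.ofNat (nat_lit 0)), (.ofNat (nat_lit 30579267985128342722168404608)), (.negSucc (nat_lit 66011279)), (.negSucc (nat_lit 66011247)), (.ofNat (nat_lit 2977317244147137937353)), (.negSucc (nat_lit 2977317244147137937352)), (.negSucc (nat_lit 2977317244147137937352)), (.ofNat (nat_lit 2977317244147137937353)), (.ofNat (nat_lit 274829284075120424982))⟩,
    ⟨nat_lit 1, nat_lit 22, nat_lit 21, (.ofNat (nat_lit 8)), (.ofNat (nat_lit 164806464)), (.ofNat (nat_lit 1300434817204078600570565231808)), (.ofNat (nat_lit 0)), (.ofNat (nat_lit 20006689495447363085378457792)), (.ofNat (nat_lit 164806448)), (.ofNat (nat_lit 164806480)), (.ofNat (nat_lit 2977317244147137937353)), (.negSucc (nat_lit 2977317244147137937352)), (.negSucc (nat_lit 2977317244147137937352)), (.ofNat (nat_lit 2977317244147137937353)), (.ofNat (nat_lit 274829284075120424982))⟩,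
    ⟨nat_lit 2, nat_lit 23, nat_lit 7, (.ofNat (nat_lit 8)), (.negSucc (nat_lit 264044479)), (.ofNat (nat_lit 1042143161770360832726413945152)), (.ofNat (nat_lit 0)), (.ofNat (nat_lit 16032971719544012810917117248)), (.negSucc (nat_lit 264044495)), (.negSucc (nat_lit 264044463)), (.negSucc (nat_lit 2977317244147137937352)), (.ofNat (nat_lit 2977317244147137937353)), (.negSucc (nat_lit 2977317244147137937352)), (.ofNat (nat_lit 2977317244147137937353)), (.ofNat (nat_lit 274829283885594122874))⟩]
  es := [
    ⟨nat_lit 1, nat_lit 0, (.negSucc (nat_lit 327483327)), (.negSucc (nat_lit 75694079)), (.negSucc (nat_lit 327483311)), (.negSucc (nat_lit 75694095)), (.negSucc (nat_lit 2977317244147137937352)), (.negSucc (nat_lit 45804880679186737496)), (.ofNat (nat_lit 5523432471727047996727841664))⟩,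
    ⟨nat_lit 1, nat_lit 2, (.negSucc (nat_lit 327483327)), (.negSucc (nat_lit 192626815)), (.negSucc (nat_lit 327483311)), (.negSucc (nat_lit 192626831)), (.ofNat (nat_lit 2977317244147137937353)), (.ofNat (nat_lit 45804880679186737497)), (.ofNat (nat_lit 35524101998652994254687741696))⟩,
    ⟨nat_lit 2, nat_lit 3, (.negSucc (nat_lit 192626815)), (.negSucc (nat_lit 52772991)), (.negSucc (nat_lit 192626799)), (.negSucc (nat_lit 52773007)), (.negSucc (nat_lit 2977317244147137937352)), (.negSucc (nat_lit 45804880679186737496)), (.ofNat (nat_lit 17877605353669676827737902592))⟩,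
    ⟨nat_lit 3, nat_lit 4, (.negSucc (nat_lit 52772991)), (.ofNat (nat_lit 153141056)), (.negSucc (nat_lit 52772975)), (.ofNat (nat_lit 153141040)), (.ofNat (nat_lit 2977317244147137937353)), (.ofNat (nat_lit 45804880679186737497)), (.ofNat (nat_lit 22712126556957029356608464640))⟩,
    ⟨nat_lit 5, nat_lit 4, (.negSucc (nat_lit 7684287)), (.ofNat (nat_lit 153141056)), (.negSucc (nat_lit 7684271)), (.ofNat (nat_lit 153141040)), (.negSucc (nat_lit 2977317244147137937352)), (.negSucc (nat_lit 45804880679186737496)), (.ofNat (nat_lit 36741342151286337759579218304))⟩,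
    ⟨nat_lit 6, nat_lit 5, (.negSucc (nat_lit 279298175)), (.negSucc (nat_lit 7684287)), (.negSucc (nat_lit 279298159)), (.negSucc (nat_lit 7684303)), (.ofNat (nat_lit 2977317244147137937353)), (.ofNat (nat_lit 45804880679186737497)), (.ofNat (nat_lit 37445297941175350752993912576))⟩,
    ⟨nat_lit 6, nat_lit 15, (.negSucc (nat_lit 279298175)), (.negSucc (nat_lit 196198527)), (.negSucc (nat_lit 279298159)), (.negSucc (nat_lit 196198543)), (.negSucc (nat_lit 2977317244147137937352)), (.negSucc (nat_lit 45804880679186737496)), (.ofNat (nat_lit 11858858689986356860388101632))⟩,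
    ⟨nat_lit 23, nat_lit 7, (.negSucc (nat_lit 264044479)), (.negSucc (nat_lit 63979647)), (.negSucc (nat_lit 264044463)), (.negSucc (nat_lit 63979663)), (.ofNat (nat_lit 2977317244147137937353)), (.ofNat (nat_lit 45804880679186737497)), (.ofNat (nat_lit 28127497619941921736208983808))⟩,
    ⟨nat_lit 7, nat_lit 8, (.negSucc (nat_lit 63979647)), (.ofNat (nat_lit 219725568)), (.negSucc (nat_lit 63979631)), (.ofNat (nat_lit 219725552)), (.negSucc (nat_lit 2977317244147137937352)), (.negSucc (nat_lit 45804880679186737496)), (.ofNat (nat_lit 22266337334869184953556061696))⟩,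
    ⟨nat_lit 8, nat_lit 9, (.ofNat (nat_lit 219725568)), (.ofNat (nat_lit 354467520)), (.ofNat (nat_lit 219725584)), (.ofNat (nat_lit 354467504)), (.ofNat (nat_lit 2977317244147137937353)), (.ofNat (nat_lit 45804880679186737497)), (.ofNat (nat_lit 2137330486056121604365615104))⟩,
    ⟨nat_lit 10, nat_lit 9, (.ofNat (nat_lit 171818816)), (.ofNat (nat_lit 354467520)), (.ofNat (nat_lit 171818832)), (.ofNat (nat_lit 354467504)), (.negSucc (nat_lit 2977317244147137937352)), (.negSucc (nat_lit 45804880679186737496)), (.ofNat (nat_lit 34610015402550598519270809984))⟩,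
    ⟨nat_lit 11, nat_lit 10, (.ofNat (nat_lit 118079360)), (.ofNat (nat_lit 171818816)), (.ofNat (nat_lit 118079376)), (.ofNat (nat_lit 171818800)), (.ofNat (nat_lit 2977317244147137937353)), (.ofNat (nat_lit 45804880679186737497)), (.ofNat (nat_lit 18869734671912316359996122880))⟩,
    ⟨nat_lit 11, nat_lit 12, (.ofNat (nat_lit 118079360)), (.ofNat (nat_lit 295419648)), (.ofNat (nat_lit 118079376)), (.ofNat (nat_lit 295419632)), (.negSucc (nat_lit 2977317244147137937352)), (.negSucc (nat_lit 45804880679186737496)), (.ofNat (nat_lit 29686956662861786928263646720))⟩,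
    ⟨nat_lit 13, nat_lit 12, (.ofNat (nat_lit 224247552)), (.ofNat (nat_lit 295419648)), (.ofNat (nat_lit 224247568)), (.ofNat (nat_lit 295419632)), (.ofNat (nat_lit 2977317244147137937353)), (.ofNat (nat_lit 45804880679186737497)), (.ofNat (nat_lit 2623633209007093092999364608))⟩,
    ⟨nat_lit 14, nat_lit 13, (.negSucc (nat_lit 72761471)), (.ofNat (nat_lit 224247552)), (.negSucc (nat_lit 72761455)), (.ofNat (nat_lit 224247536)), (.negSucc (nat_lit 2977317244147137937352)), (.negSucc (nat_lit 45804880679186737496)), (.ofNat (nat_lit 23166897932926539562137079296))⟩,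
    ⟨nat_lit 15, nat_lit 14, (.negSucc (nat_lit 196198527)), (.negSucc (nat_lit 72761471)), (.negSucc (nat_lit 196198511)), (.negSucc (nat_lit 72761487)), (.ofNat (nat_lit 2977317244147137937353)), (.ofNat (nat_lit 45804880679186737497)), (.ofNat (nat_lit 29832559018930513128455710464))⟩,
    ⟨nat_lit 16, nat_lit 17, (.negSucc (nat_lit 84475903)), (.ofNat (nat_lit 227065600)), (.negSucc (nat_lit 84475887)), (.ofNat (nat_lit 227065584)), (.ofNat (nat_lit 2977317244147137937353)), (.ofNat (nat_lit 45804880666985110361)), (.ofNat (nat_lit 11677263232596469718800103872))⟩,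
    ⟨nat_lit 18, nat_lit 17, (.ofNat (nat_lit 127582016)), (.ofNat (nat_lit 227065600)), (.ofNat (nat_lit 127582032)), (.ofNat (nat_lit 227065584)), (.negSucc (nat_lit 2977317244147137937352)), (.negSucc (nat_lit 45804880631873114609)), (.ofNat (nat_lit 32478688647778491886775201472))⟩,
    ⟨nat_lit 19, nat_lit 18, (.negSucc (nat_lit 55066751)), (.ofNat (nat_lit 127582016)), (.negSucc (nat_lit 55066735)), (.ofNat (nat_lit 127582000)), (.ofNat (nat_lit 2977317244147137937353)), (.ofNat (nat_lit 45804880679186737497)), (.ofNat (nat_lit 20790930614434672858302293760))⟩,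
    ⟨nat_lit 20, nat_lit 19, (.negSucc (nat_lit 194920575)), (.negSucc (nat_lit 55066751)), (.negSucc (nat_lit 194920559)), (.negSucc (nat_lit 55066767)), (.negSucc (nat_lit 2977317244147137937352)), (.negSucc (nat_lit 45804880679186737496)), (.ofNat (nat_lit 15746278604933937587429494272))⟩,
    ⟨nat_lit 20, nat_lit 21, (.negSucc (nat_lit 194920575)), (.negSucc (nat_lit 66011263)), (.negSucc (nat_lit 194920559)), (.negSucc (nat_lit 66011279)), (.ofNat (nat_lit 2977317244147137937353)), (.ofNat (nat_lit 45804880679186737497)), (.ofNat (nat_lit 33602906056130637756381570816))⟩,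
    ⟨nat_lit 21, nat_lit 22, (.negSucc (nat_lit 66011263)), (.ofNat (nat_lit 164806464)), (.negSucc (nat_lit 66011247)), (.ofNat (nat_lit 164806448)), (.negSucc (nat_lit 2977317244147137937352)), (.negSucc (nat_lit 45804880679186737496)), (.ofNat (nat_lit 27555629914126047687955238400))⟩,
    ⟨nat_lit 0, nat_lit 22, (.negSucc (nat_lit 75694079)), (.ofNat (nat_lit 164806464)), (.negSucc (nat_lit 75694063)), (.ofNat (nat_lit 164806448)), (.ofNat (nat_lit 2977317244147137937353)), (.ofNat (nat_lit 45804880679186737497)), (.ofNat (nat_lit 12457749076768678482801677184))⟩,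
    ⟨nat_lit 23, nat_lit 16, (.negSucc (nat_lit 264044479)), (.negSucc (nat_lit 84475903)), (.negSucc (nat_lit 264044463)), (.negSucc (nat_lit 84475919)), (.negSucc (nat_lit 2977317244147137937352)), (.negSucc (nat_lit 45804880631805161969)), (.ofNat (nat_lit 3938445831656947357232691648))⟩]

theorem ok40 : stOK 23 23 S40 = true := by decide +kernel

def S41 : SD where
  vs := [
    ⟨nat_lit 0, nat_lit 0, nat_lit 22, (.ofNat (nat_lit 8)), (.negSucc (nat_lit 76218367)), (.ofNat (nat_lit 587510343732709939903928671104)), (.negSucc (nat_lit 524287)), (.ofNat (nat_lit 3121943406598829309797859328)), (.negSucc (nat_lit 76218383)), (.negSucc (nat_lit 76218351)), (.negSucc (nat_lit 2977317244147137937352)), (.ofNat (nat_lit 2977317244147137937353)), (.negSucc (nat_lit 2977317244147137937352)), (.ofNat (nat_lit 2977317244147137937353)), (.ofNat (nat_lit 0))⟩,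
    ⟨nat_lit 2, nat_lit 0, nat_lit 1, (.ofNat (nat_lit 8)), (.negSucc (nat_lit 329842623)), (.ofNat (nat_lit 1342630214655498153794457905472)), (.negSucc (nat_lit 2359295)), (.ofNat (nat_lit 8585344368146780601944113152)), (.negSucc (nat_lit 329842639)), (.negSucc (nat_lit 329842607)), (.negSucc (nat_lit 2977317244147137937352)), (.ofNat (nat_lit 2977317244147137937353)), (.negSucc (nat_lit 2977317244147137937352)), (.ofNat (nat_lit 2977317244147137937353)), (.ofNat (nat_lit 0))⟩,
    ⟨nat_lit 0, nat_lit 1, nat_lit 2, (.ofNat (nat_lit 8)), (.negSucc (nat_lit 194199679)), (.ofNat (nat_lit 1746482290873582712791106392704)), (.negSucc (nat_lit 1572863)), (.ofNat (nat_lit 10926801923095902584292507648)), (.negSucc (nat_lit 194199695)), (.negSucc (nat_lit 194199663)), (.ofNat (nat_lit 2977317244147137937353)), (.negSucc (nat_lit 2977317244147137937352)), (.negSucc (nat_lit 2977317244147137937352)), (.ofNat (nat_lit 2977317244147137937353)), (.ofNat (nat_lit 0))⟩,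
    ⟨nat_lit 0, nat_lit 2, nat_lit 3, (.ofNat (nat_lit 8)), (.negSucc (nat_lit 53297279)), (.ofNat (nat_lit 1326971145611865024287019045504)), (.negSucc (nat_lit 524287)), (.ofNat (nat_lit 7804858516497073274494648320)), (.negSucc (nat_lit 53297295)), (.negSucc (nat_lit 53297263)), (.negSucc (nat_lit 2977317244147137937352)), (.ofNat (nat_lit 2977317244147137937353)), (.negSucc (nat_lit 2977317244147137937352)), (.ofNat (nat_lit 2977317244147137937353)), (.ofNat (nat_lit 0))⟩,
    ⟨nat_lit 1, nat_lit 3, nat_lit 4, (.ofNat (nat_lit 8)), (.ofNat (nat_lit 226737984)), (.ofNat (nat_lit 2160724966088361251418081861696)), (.ofNat (nat_lit 73596928)), (.ofNat (nat_lit 228487233070451820110830829568)), (.ofNat (nat_lit 226737968)), (.ofNat (nat_lit 226738000)), (.ofNat (nat_lit 2977317244147137937353)), (.negSucc (nat_lit 2977317244147137937352)), (.negSucc (nat_lit 2977317244147137937352)), (.ofNat (nat_lit 2977317244147137937353)), (.ofNat (nat_lit 0))⟩,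
    ⟨nat_lit 0, nat_lit 5, nat_lit 4, (.ofNat (nat_lit 8)), (.ofNat (nat_lit 64601920)), (.ofNat (nat_lit 2643455465333705233445575860288)), (.ofNat (nat_lit 72286208)), (.ofNat (nat_lit 232389662328700356748078153728)), (.ofNat (nat_lit 64601904)), (.ofNat (nat_lit 64601936)), (.ofNat (nat_lit 2977317244147137937353)), (.negSucc (nat_lit 2977317244147137937352)), (.negSucc (nat_lit 2977317244147137937352)), (.ofNat (nat_lit 2977317244147137937353)), (.ofNat (nat_lit 0))⟩,
    ⟨nat_lit 2, nat_lit 6, nat_lit 5, (.ofNat (nat_lit 8)), (.negSucc (nat_lit 281657471)), (.ofNat (nat_lit 1612531406584201692717591990912)), (.negSucc (nat_lit 2359295)), (.ofNat (nat_lit 10146316071446195256843042816)), (.negSucc (nat_lit 281657487)), (.negSucc (nat_lit 281657455)), (.negSucc (nat_lit 2977317244147137937352)), (.ofNat (nat_lit 2977317244147137937353)), (.negSucc (nat_lit 2977317244147137937352)), (.ofNat (nat_lit 2977317244147137937353)), (.ofNat (nat_lit 0))⟩,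
    ⟨nat_lit 0, nat_lit 7, nat_lit 8, (.ofNat (nat_lit 8)), (.negSucc (nat_lit 64503935)), (.ofNat (nat_lit 1647165466251157455373161992832)), (.negSucc (nat_lit 524287)), (.ofNat (nat_lit 9365830219796487929393577984)), (.negSucc (nat_lit 64503951)), (.negSucc (nat_lit 64503919)), (.ofNat (nat_lit 2977317244147137937353)), (.negSucc (nat_lit 2977317244147137937352)), (.negSucc (nat_lit 2977317244147137937352)), (.ofNat (nat_lit 2977317244147137937353)), (.ofNat (nat_lit 0))⟩,
    ⟨nat_lit 0, nat_lit 8, nat_lit 9, (.ofNat (nat_lit 8)), (.ofNat (nat_lit 221036288)), (.ofNat (nat_lit 797021633438320999782488405760)), (.ofNat (nat_lit 1310720)), (.ofNat (nat_lit 3902429258248536637247324160)), (.ofNat (nat_lit 221036272)), (.ofNat (nat_lit 221036304)), (.negSucc (nat_lit 2977317244147137937352)), (.ofNat (nat_lit 2977317244147137937353)), (.negSucc (nat_lit 2977317244147137937352)), (.ofNat (nat_lit 2977317244147137937353)), (.ofNat (nat_lit 0))⟩,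
    ⟨nat_lit 1, nat_lit 9, nat_lit 10, (.ofNat (nat_lit 8)), (.ofNat (nat_lit 429375168)), (.ofNat (nat_lit 1417312573488622272856122590400)), (.ofNat (nat_lit 74907648)), (.ofNat (nat_lit 223023832108903868818684575744)), (.ofNat (nat_lit 429375152)), (.ofNat (nat_lit 429375184)), (.ofNat (nat_lit 2977317244147137937353)), (.negSucc (nat_lit 2977317244147137937352)), (.negSucc (nat_lit 2977317244147137937352)), (.ofNat (nat_lit 2977317244147137937353)), (.ofNat (nat_lit 0))⟩,
    ⟨nat_lit 0, nat_lit 11, nat_lit 10, (.ofNat (nat_lit 8)), (.ofNat (nat_lit 245677888)), (.ofNat (nat_lit 1964237652935547431732679090240)), (.ofNat (nat_lit 73859072)), (.ofNat (nat_lit 226145775515502698128482435072)), (.ofNat (nat_lit 245677872)), (.ofNat (nat_lit 245677904)), (.ofNat (nat_lit 2977317244147137937353)), (.negSucc (nat_lit 2977317244147137937352)), (.negSucc (nat_lit 2977317244147137937352)), (.ofNat (nat_lit 2977317244147137937353)), (.ofNat (nat_lit 0))⟩,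
    ⟨nat_lit 2, nat_lit 12, nat_lit 11, (.ofNat (nat_lit 8)), (.ofNat (nat_lit 119127936)), (.ofNat (nat_lit 1587458298599954844823277933184)), (.ofNat (nat_lit 1048576)), (.ofNat (nat_lit 9365830219796487929393577984)), (.ofNat (nat_lit 119127920)), (.ofNat (nat_lit 119127952)), (.negSucc (nat_lit 2977317244147137937352)), (.ofNat (nat_lit 2977317244147137937353)), (.negSucc (nat_lit 2977317244147137937352)), (.ofNat (nat_lit 2977317244147137937353)), (.ofNat (nat_lit 0))⟩,
    ⟨nat_lit 1, nat_lit 13, nat_lit 12, (.ofNat (nat_lit 8)), (.ofNat (nat_lit 297254656)), (.ofNat (nat_lit 1057118543500585966655022561024)), (.ofNat (nat_lit 1835008)), (.ofNat (nat_lit 7024372664847365947045183488)), (.ofNat (nat_lit 297254640)), (.ofNat (nat_lit 297254672)), (.ofNat (nat_lit 2977317244147137937353)), (.negSucc (nat_lit 2977317244147137937352)), (.negSucc (nat_lit 2977317244147137937352)), (.ofNat (nat_lit 2977317244147137937353)), (.ofNat (nat_lit 0))⟩,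
    ⟨nat_lit 0, nat_lit 14, nat_lit 13, (.ofNat (nat_lit 8)), (.ofNat (nat_lit 225558272)), (.ofNat (nat_lit 843655663074391012597593929472)), (.ofNat (nat_lit 1310720)), (.ofNat (nat_lit 5463400961547951292146253824)), (.ofNat (nat_lit 225558256)), (.ofNat (nat_lit 225558288)), (.negSucc (nat_lit 2977317244147137937352)), (.ofNat (nat_lit 2977317244147137937353)), (.negSucc (nat_lit 2977317244147137937352)), (.ofNat (nat_lit 2977317244147137937353)), (.ofNat (nat_lit 0))⟩,
    ⟨nat_lit 0, nat_lit 15, nat_lit 14, (.ofNat (nat_lit 8)), (.negSucc (nat_lit 73285759)), (.ofNat (nat_lit 1733409152858450115056327856768)), (.negSucc (nat_lit 524287)), (.ofNat (nat_lit 10926801923095902584292507648)), (.negSucc (nat_lit 73285775)), (.negSucc (nat_lit 73285743)), (.ofNat (nat_lit 2977317244147137937353)), (.negSucc (nat_lit 2977317244147137937352)), (.negSucc (nat_lit 2977317244147137937352)), (.ofNat (nat_lit 2977317244147137937353)), (.ofNat (nat_lit 0))⟩,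
    ⟨nat_lit 0, nat_lit 6, nat_lit 15, (.ofNat (nat_lit 8)), (.negSucc (nat_lit 197771391)), (.ofNat (nat_lit 1362775934056295347933763244672)), (.negSucc (nat_lit 1572863)), (.ofNat (nat_lit 7804858516497073274494648320)), (.negSucc (nat_lit 197771407)), (.negSucc (nat_lit 197771375)), (.negSucc (nat_lit 2977317244147137937352)), (.ofNat (nat_lit 2977317244147137937353)), (.negSucc (nat_lit 2977317244147137937352)), (.ofNat (nat_lit 2977317244147137937353)), (.ofNat (nat_lit 0))⟩,
    ⟨nat_lit 0, nat_lit 23, nat_lit 16, (.ofNat (nat_lit 8)), (.negSucc (nat_lit 85000191)), (.ofNat (nat_lit 509071515641914353495257455488)), (.negSucc (nat_lit 524287)), (.ofNat (nat_lit 1560971703299414654898929664)), (.negSucc (nat_lit 85000207)), (.negSucc (nat_lit 85000175)), (.negSucc (nat_lit 2977317244147137937352)), (.ofNat (nat_lit 2977317244147137937353)), (.negSucc (nat_lit 2977317244147137937352)), (.ofNat (nat_lit 2977317244147137937353)), (.ofNat (nat_lit 0))⟩,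
    ⟨nat_lit 1, nat_lit 16, nat_lit 17, (.ofNat (nat_lit 8)), (.ofNat (nat_lit 301186816)), (.ofNat (nat_lit 1658872754025903065284903965312)), (.ofNat (nat_lit 74121216)), (.ofNat (nat_lit 223804317960553576146134040576)), (.ofNat (nat_lit 301186800)), (.ofNat (nat_lit 301186832)), (.ofNat (nat_lit 2977317244147137937353)), (.negSucc (nat_lit 2977317244147137937352)), (.negSucc (nat_lit 2977317244147137937352)), (.ofNat (nat_lit 2977317244147137937353)), (.ofNat (nat_lit 0))⟩,
    ⟨nat_lit 0, nat_lit 18, nat_lit 17, (.ofNat (nat_lit 8)), (.ofNat (nat_lit 200916800)), (.ofNat (nat_lit 1957408401733612492617496272960)), (.ofNat (nat_lit 73334784)), (.ofNat (nat_lit 226145775515502698128482435072)), (.ofNat (nat_lit 200916784)), (.ofNat (nat_lit 200916816)), (.ofNat (nat_lit 2977317244147137937353)), (.negSucc (nat_lit 2977317244147137937352)), (.negSucc (nat_lit 2977317244147137937352)), (.ofNat (nat_lit 2977317244147137937353)), (.ofNat (nat_lit 0))⟩,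
    ⟨nat_lit 0, nat_lit 19, nat_lit 18, (.ofNat (nat_lit 8)), (.negSucc (nat_lit 55591039)), (.ofNat (nat_lit 1193703186442677498125022925440)), (.negSucc (nat_lit 524287)), (.ofNat (nat_lit 6243886813197658619595718656)), (.negSucc (nat_lit 55591055)), (.negSucc (nat_lit 55591023)), (.negSucc (nat_lit 2977317244147137937352)), (.ofNat (nat_lit 2977317244147137937353)), (.negSucc (nat_lit 2977317244147137937352)), (.ofNat (nat_lit 2977317244147137937353)), (.ofNat (nat_lit 0))⟩,
    ⟨nat_lit 2, nat_lit 19, nat_lit 20, (.ofNat (nat_lit 8)), (.negSucc (nat_lit 196493439)), (.ofNat (nat_lit 1613214331704395186629110272640)), (.negSucc (nat_lit 1572863)), (.ofNat (nat_lit 9365830219796487929393577984)), (.negSucc (nat_lit 196493455)), (.negSucc (nat_lit 196493423)), (.negSucc (nat_lit 2977317244147137937352)), (.ofNat (nat_lit 2977317244147137937353)), (.negSucc (nat_lit 2977317244147137937352)), (.ofNat (nat_lit 2977317244147137937353)), (.ofNat (nat_lit 0))⟩,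
    ⟨nat_lit 0, nat_lit 20, nat_lit 21, (.ofNat (nat_lit 8)), (.negSucc (nat_lit 66535551)), (.ofNat (nat_lit 2000140192659737594212182463104)), (.negSucc (nat_lit 524287)), (.ofNat (nat_lit 12487773626395317239191437312)), (.negSucc (nat_lit 66535567)), (.negSucc (nat_lit 66535535)), (.ofNat (nat_lit 2977317244147137937353)), (.negSucc (nat_lit 2977317244147137937352)), (.negSucc (nat_lit 2977317244147137937352)), (.ofNat (nat_lit 2977317244147137937353)), (.ofNat (nat_lit 0))⟩,
    ⟨nat_lit 1, nat_lit 22, nat_lit 21, (.ofNat (nat_lit 8)), (.ofNat (nat_lit 165855040)), (.ofNat (nat_lit 1308239675720575673845059880128)), (.ofNat (nat_lit 1048576)), (.ofNat (nat_lit 7804858516497073274494648320)), (.ofNat (nat_lit 165855024)), (.ofNat (nat_lit 165855056)), (.ofNat (nat_lit 2977317244147137937353)), (.negSucc (nat_lit 2977317244147137937352)), (.negSucc (nat_lit 2977317244147137937352)), (.ofNat (nat_lit 2977317244147137937353)), (.ofNat (nat_lit 0))⟩,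
    ⟨nat_lit 2, nat_lit 23, nat_lit 7, (.ofNat (nat_lit 8)), (.negSucc (nat_lit 265879487)), (.ofNat (nat_lit 1047606562731908784018560198976)), (.negSucc (nat_lit 1835007)), (.ofNat (nat_lit 5463400961547951292146253824)), (.negSucc (nat_lit 265879503)), (.negSucc (nat_lit 265879471)), (.negSucc (nat_lit 2977317244147137937352)), (.ofNat (nat_lit 2977317244147137937353)), (.negSucc (nat_lit 2977317244147137937352)), (.ofNat (nat_lit 2977317244147137937353)), (.ofNat (nat_lit 0))⟩]
  es := [
    ⟨nat_lit 1, nat_lit 0, (.negSucc (nat_lit 329842623)), (.negSucc (nat_lit 76218367)), (.negSucc (nat_lit 329842607)), (.negSucc (nat_lit 76218383)), (.negSucc (nat_lit 2977317244147137937352)), (.ofNat (nat_lit 0)), (.ofNat (nat_lit 1560971703299414654898929664))⟩,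
    ⟨nat_lit 1, nat_lit 2, (.negSucc (nat_lit 329842623)), (.negSucc (nat_lit 194199679)), (.negSucc (nat_lit 329842607)), (.negSucc (nat_lit 194199695)), (.ofNat (nat_lit 2977317244147137937353)), (.ofNat (nat_lit 0)), (.ofNat (nat_lit 15609717032994146548989296640))⟩,
    ⟨nat_lit 2, nat_lit 3, (.negSucc (nat_lit 194199679)), (.negSucc (nat_lit 53297279)), (.negSucc (nat_lit 194199663)), (.negSucc (nat_lit 53297295)), (.negSucc (nat_lit 2977317244147137937352)), (.ofNat (nat_lit 0)), (.ofNat (nat_lit 6243886813197658619595718656))⟩,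
    ⟨nat_lit 3, nat_lit 4, (.negSucc (nat_lit 53297279)), (.ofNat (nat_lit 226737984)), (.negSucc (nat_lit 53297263)), (.ofNat (nat_lit 226737968)), (.ofNat (nat_lit 2977317244147137937353)), (.ofNat (nat_lit 0)), (.ofNat (nat_lit 9365830219796487929393577984))⟩,
    ⟨nat_lit 5, nat_lit 4, (.ofNat (nat_lit 64601920)), (.ofNat (nat_lit 226737984)), (.ofNat (nat_lit 64601936)), (.ofNat (nat_lit 226737968)), (.negSucc (nat_lit 2977317244147137937352)), (.ofNat (nat_lit 0)), (.ofNat (nat_lit 447608635921107152292268081152))⟩,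
    ⟨nat_lit 6, nat_lit 5, (.negSucc (nat_lit 281657471)), (.ofNat (nat_lit 64601920)), (.negSucc (nat_lit 281657455)), (.ofNat (nat_lit 64601904)), (.ofNat (nat_lit 2977317244147137937353)), (.ofNat (nat_lit 0)), (.ofNat (nat_lit 17170688736293561203888226304))⟩,
    ⟨nat_lit 6, nat_lit 15, (.negSucc (nat_lit 281657471)), (.negSucc (nat_lit 197771391)), (.negSucc (nat_lit 281657455)), (.negSucc (nat_lit 197771407)), (.negSucc (nat_lit 2977317244147137937352)), (.ofNat (nat_lit 0)), (.ofNat (nat_lit 3121943406598829309797859328))⟩,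
    ⟨nat_lit 23, nat_lit 7, (.negSucc (nat_lit 265879487)), (.negSucc (nat_lit 64503935)), (.negSucc (nat_lit 265879471)), (.negSucc (nat_lit 64503951)), (.ofNat (nat_lit 2977317244147137937353)), (.ofNat (nat_lit 0)), (.ofNat (nat_lit 10926801923095902584292507648))⟩,
    ⟨nat_lit 7, nat_lit 8, (.negSucc (nat_lit 64503935)), (.ofNat (nat_lit 221036288)), (.negSucc (nat_lit 64503919)), (.ofNat (nat_lit 221036272)), (.negSucc (nat_lit 2977317244147137937352)), (.ofNat (nat_lit 0)), (.ofNat (nat_lit 7804858516497073274494648320))⟩,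
    ⟨nat_lit 8, nat_lit 9, (.ofNat (nat_lit 221036288)), (.ofNat (nat_lit 429375168)), (.ofNat (nat_lit 221036304)), (.ofNat (nat_lit 429375152)), (.ofNat (nat_lit 2977317244147137937353)), (.ofNat (nat_lit 0)), (.ofNat (nat_lit 0))⟩,
    ⟨nat_lit 10, nat_lit 9, (.ofNat (nat_lit 245677888)), (.ofNat (nat_lit 429375168)), (.ofNat (nat_lit 245677904)), (.ofNat (nat_lit 429375152)), (.negSucc (nat_lit 2977317244147137937352)), (.ofNat (nat_lit 0)), (.ofNat (nat_lit 446047664217807737637369151488))⟩,
    ⟨nat_lit 11, nat_lit 10, (.ofNat (nat_lit 119127936)), (.ofNat (nat_lit 245677888)), (.ofNat (nat_lit 119127952)), (.ofNat (nat_lit 245677872)), (.ofNat (nat_lit 2977317244147137937353)), (.ofNat (nat_lit 0)), (.ofNat (nat_lit 6243886813197658619595718656))⟩,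
    ⟨nat_lit 11, nat_lit 12, (.ofNat (nat_lit 119127936)), (.ofNat (nat_lit 297254656)), (.ofNat (nat_lit 119127952)), (.ofNat (nat_lit 297254640)), (.negSucc (nat_lit 2977317244147137937352)), (.ofNat (nat_lit 0)), (.ofNat (nat_lit 12487773626395317239191437312))⟩,
    ⟨nat_lit 13, nat_lit 12, (.ofNat (nat_lit 225558272)), (.ofNat (nat_lit 297254656)), (.ofNat (nat_lit 225558288)), (.ofNat (nat_lit 297254640)), (.ofNat (nat_lit 2977317244147137937353)), (.ofNat (nat_lit 0)), (.ofNat (nat_lit 1560971703299414654898929664))⟩,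
    ⟨nat_lit 14, nat_lit 13, (.negSucc (nat_lit 73285759)), (.ofNat (nat_lit 225558272)), (.negSucc (nat_lit 73285743)), (.ofNat (nat_lit 225558256)), (.negSucc (nat_lit 2977317244147137937352)), (.ofNat (nat_lit 0)), (.ofNat (nat_lit 9365830219796487929393577984))⟩,
    ⟨nat_lit 15, nat_lit 14, (.negSucc (nat_lit 197771391)), (.negSucc (nat_lit 73285759)), (.negSucc (nat_lit 197771375)), (.negSucc (nat_lit 73285775)), (.ofNat (nat_lit 2977317244147137937353)), (.ofNat (nat_lit 0)), (.ofNat (nat_lit 12487773626395317239191437312))⟩,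
    ⟨nat_lit 16, nat_lit 17, (.negSucc (nat_lit 85000191)), (.ofNat (nat_lit 301186816)), (.negSucc (nat_lit 85000175)), (.ofNat (nat_lit 301186800)), (.ofNat (nat_lit 2977317244147137937353)), (.ofNat (nat_lit 0)), (.ofNat (nat_lit 3121943406598829309797859328))⟩,
    ⟨nat_lit 18, nat_lit 17, (.ofNat (nat_lit 200916800)), (.ofNat (nat_lit 301186816)), (.ofNat (nat_lit 200916816)), (.ofNat (nat_lit 301186800)), (.negSucc (nat_lit 2977317244147137937352)), (.ofNat (nat_lit 0)), (.ofNat (nat_lit 444486692514508322982470221824))⟩,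
    ⟨nat_lit 19, nat_lit 18, (.negSucc (nat_lit 55591039)), (.ofNat (nat_lit 200916800)), (.negSucc (nat_lit 55591023)), (.ofNat (nat_lit 200916784)), (.ofNat (nat_lit 2977317244147137937353)), (.ofNat (nat_lit 0)), (.ofNat (nat_lit 7804858516497073274494648320))⟩,
    ⟨nat_lit 20, nat_lit 19, (.negSucc (nat_lit 196493439)), (.negSucc (nat_lit 55591039)), (.negSucc (nat_lit 196493423)), (.negSucc (nat_lit 55591055)), (.negSucc (nat_lit 2977317244147137937352)), (.ofNat (nat_lit 0)), (.ofNat (nat_lit 4682915109898243964696788992))⟩,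
    ⟨nat_lit 20, nat_lit 21, (.negSucc (nat_lit 196493439)), (.negSucc (nat_lit 66535551)), (.negSucc (nat_lit 196493423)), (.negSucc (nat_lit 66535567)), (.ofNat (nat_lit 2977317244147137937353)), (.ofNat (nat_lit 0)), (.ofNat (nat_lit 14048745329694731894090366976))⟩,
    ⟨nat_lit 21, nat_lit 22, (.negSucc (nat_lit 66535551)), (.ofNat (nat_lit 165855040)), (.negSucc (nat_lit 66535535)), (.ofNat (nat_lit 165855024)), (.negSucc (nat_lit 2977317244147137937352)), (.ofNat (nat_lit 0)), (.ofNat (nat_lit 10926801923095902584292507648))⟩,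
    ⟨nat_lit 0, nat_lit 22, (.negSucc (nat_lit 76218367)), (.ofNat (nat_lit 165855040)), (.negSucc (nat_lit 76218351)), (.ofNat (nat_lit 165855024)), (.ofNat (nat_lit 2977317244147137937353)), (.ofNat (nat_lit 0)), (.ofNat (nat_lit 4682915109898243964696788992))⟩,
    ⟨nat_lit 23, nat_lit 16, (.negSucc (nat_lit 265879487)), (.negSucc (nat_lit 85000191)), (.negSucc (nat_lit 265879471)), (.negSucc (nat_lit 85000207)), (.negSucc (nat_lit 2977317244147137937352)), (.ofNat (nat_lit 0)), (.ofNat (nat_lit 0))⟩]

theorem ok41 : stOK 23 23 S41 = true := by decide +kernel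

def S42 : SD where
  vs := [
    ⟨nat_lit 0, nat_lit 0, nat_lit 22, (.ofNat (nat_lit 8)), (.negSucc (nat_lit 76218367)), (.ofNat (nat_lit 596690192853533532714899807232)), (.ofNat (nat_lit 0)), (.ofNat (nat_lit 9179849120823592810971136128)), (.negSucc (nat_lit 76218383)), (.negSucc (nat_lit 76218351)), (.negSucc (nat_lit 3023837826086936967623)), (.ofNat (nat_lit 3023837826086936967624)), (.negSucc (nat_lit 3023837826086936967623)), (.ofNat (nat_lit 3023837826086936967624)), (.ofNat (nat_lit 279123491638794181626))⟩,
    ⟨nat_lit 2, nat_lit 0, nat_lit 1, (.ofNat (nat_lit 8)), (.negSucc (nat_lit 329842623)), (.ofNat (nat_lit 1363608811759490312447432894976)), (.ofNat (nat_lit 0)), (.ofNat (nat_lit 20978597103992158652974989504)), (.negSucc (nat_lit 329842639)), (.negSucc (nat_lit 329842607)), (.negSucc (nat_lit 3023837826086936967623)), (.ofNat (nat_lit 3023837826086936967624)), (.negSucc (nat_lit 3023837826086936967623)), (.ofNat (nat_lit 3023837826086936967624)), (.ofNat (nat_lit 279123491638794181626))⟩,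
    ⟨nat_lit 0, nat_lit 1, nat_lit 2, (.ofNat (nat_lit 8)), (.negSucc (nat_lit 194199679)), (.ofNat (nat_lit 1773771076668482442678384940032)), (.ofNat (nat_lit 0)), (.ofNat (nat_lit 27288785794899729887278547328)), (.negSucc (nat_lit 194199695)), (.negSucc (nat_lit 194199663)), (.ofNat (nat_lit 3023837826086936967624)), (.negSucc (nat_lit 3023837826086936967623)), (.negSucc (nat_lit 3023837826086936967623)), (.ofNat (nat_lit 3023837826086936967624)), (.ofNat (nat_lit 279123491638794181626))⟩,
    ⟨nat_lit 0, nat_lit 2, nat_lit 3, (.ofNat (nat_lit 8)), (.negSucc (nat_lit 53297279)), (.ofNat (nat_lit 1347705069762050415291441042432)), (.ofNat (nat_lit 0)), (.ofNat (nat_lit 20733924150185391004421996928)), (.negSucc (nat_lit 53297295)), (.negSucc (nat_lit 53297263)), (.negSucc (nat_lit 3023837826086936967623)), (.ofNat (nat_lit 3023837826086936967624)), (.negSucc (nat_lit 3023837826086936967623)), (.ofNat (nat_lit 3023837826086936967624)), (.ofNat (nat_lit 279123491638794181626))⟩,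
    ⟨nat_lit 1, nat_lit 3, nat_lit 4, (.ofNat (nat_lit 8)), (.ofNat (nat_lit 226737984)), (.ofNat (nat_lit 2194486293683491895971387335168)), (.ofNat (nat_lit 0)), (.ofNat (nat_lit 33761327595130644553305473472)), (.ofNat (nat_lit 226737968)), (.ofNat (nat_lit 226738000)), (.ofNat (nat_lit 3023837826086936967624)), (.negSucc (nat_lit 3023837826086936967623)), (.negSucc (nat_lit 3023837826086936967623)), (.ofNat (nat_lit 3023837826086936967624)), (.ofNat (nat_lit 279123491638794181626))⟩,
    ⟨nat_lit 0, nat_lit 5, nat_lit 4, (.ofNat (nat_lit 8)), (.ofNat (nat_lit 64601920)), (.ofNat (nat_lit 2684759456979544377718038127104)), (.ofNat (nat_lit 0)), (.ofNat (nat_lit 41303991645839144272462266816)), (.ofNat (nat_lit 64601904)), (.ofNat (nat_lit 64601936)), (.ofNat (nat_lit 3023837826086936967624)), (.negSucc (nat_lit 3023837826086936967623)), (.negSucc (nat_lit 3023837826086936967623)), (.ofNat (nat_lit 3023837826086936967624)), (.ofNat (nat_lit 279123491638794181626))⟩,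
    ⟨nat_lit 2, nat_lit 6, nat_lit 5, (.ofNat (nat_lit 8)), (.negSucc (nat_lit 281657471)), (.ofNat (nat_lit 1637727209812079844166228202496)), (.ofNat (nat_lit 0)), (.ofNat (nat_lit 25195803227878151448636211584)), (.negSucc (nat_lit 281657487)), (.negSucc (nat_lit 281657455)), (.negSucc (nat_lit 3023837826086936967623)), (.ofNat (nat_lit 3023837826086936967624)), (.negSucc (nat_lit 3023837826086936967623)), (.ofNat (nat_lit 3023837826086936967624)), (.ofNat (nat_lit 279123491638794181626))⟩,
    ⟨nat_lit 0, nat_lit 7, nat_lit 8, (.ofNat (nat_lit 8)), (.negSucc (nat_lit 64503935)), (.ofNat (nat_lit 1672902426661331790613289849856)), (.ofNat (nat_lit 0)), (.ofNat (nat_lit 25736960410174335240127857024)), (.negSucc (nat_lit 64503951)), (.negSucc (nat_lit 64503919)), (.ofNat (nat_lit 3023837826086936967624)), (.negSucc (nat_lit 3023837826086936967623)), (.negSucc (nat_lit 3023837826086936967623)), (.ofNat (nat_lit 3023837826086936967624)), (.ofNat (nat_lit 279123491638794181626))⟩,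
    ⟨nat_lit 0, nat_lit 8, nat_lit 9, (.ofNat (nat_lit 8)), (.ofNat (nat_lit 221036288)), (.ofNat (nat_lit 809475096460794765404052142080)), (.ofNat (nat_lit 0)), (.ofNat (nat_lit 12453463022473765621563736320)), (.ofNat (nat_lit 221036272)), (.ofNat (nat_lit 221036304)), (.negSucc (nat_lit 3023837826086936967623)), (.ofNat (nat_lit 3023837826086936967624)), (.negSucc (nat_lit 3023837826086936967623)), (.ofNat (nat_lit 3023837826086936967624)), (.ofNat (nat_lit 279123491638794181626))⟩,
    ⟨nat_lit 1, nat_lit 9, nat_lit 10, (.ofNat (nat_lit 8)), (.ofNat (nat_lit 429375168)), (.ofNat (nat_lit 1439458082449381995869432563200)), (.ofNat (nat_lit 0)), (.ofNat (nat_lit 22145508960759723013309972800)), (.ofNat (nat_lit 429375152)), (.ofNat (nat_lit 429375184)), (.ofNat (nat_lit 3023837826086936967624)), (.negSucc (nat_lit 3023837826086936967623)), (.negSucc (nat_lit 3023837826086936967623)), (.ofNat (nat_lit 3023837826086936967624)), (.ofNat (nat_lit 279123491638794181626))⟩,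
    ⟨nat_lit 0, nat_lit 11, nat_lit 10, (.ofNat (nat_lit 8)), (.ofNat (nat_lit 245677888)), (.ofNat (nat_lit 1994928866262665360353409425920)), (.ofNat (nat_lit 0)), (.ofNat (nat_lit 30691213327117928620730335680)), (.ofNat (nat_lit 245677872)), (.ofNat (nat_lit 245677904)), (.ofNat (nat_lit 3023837826086936967624)), (.negSucc (nat_lit 3023837826086936967623)), (.negSucc (nat_lit 3023837826086936967623)), (.ofNat (nat_lit 3023837826086936967624)), (.ofNat (nat_lit 279123491638794181626))⟩,
    ⟨nat_lit 2, nat_lit 12, nat_lit 11, (.ofNat (nat_lit 8)), (.ofNat (nat_lit 119127936)), (.ofNat (nat_lit 1612262334515579139273566671872)), (.ofNat (nat_lit 0)), (.ofNat (nat_lit 24804035915624294450288738688)), (.ofNat (nat_lit 119127920)), (.ofNat (nat_lit 119127952)), (.negSucc (nat_lit 3023837826086936967623)), (.ofNat (nat_lit 3023837826086936967624)), (.negSucc (nat_lit 3023837826086936967623)), (.ofNat (nat_lit 3023837826086936967624)), (.ofNat (nat_lit 279123491638794181626))⟩,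
    ⟨nat_lit 1, nat_lit 13, nat_lit 12, (.ofNat (nat_lit 8)), (.ofNat (nat_lit 297254656)), (.ofNat (nat_lit 1073636020742782622383957358592)), (.ofNat (nat_lit 0)), (.ofNat (nat_lit 16517477242196655728934797568)), (.ofNat (nat_lit 297254640)), (.ofNat (nat_lit 297254672)), (.ofNat (nat_lit 3023837826086936967624)), (.negSucc (nat_lit 3023837826086936967623)), (.negSucc (nat_lit 3023837826086936967623)), (.ofNat (nat_lit 3023837826086936967624)), (.ofNat (nat_lit 279123491638794181626))⟩,
    ⟨nat_lit 0, nat_lit 14, nat_lit 13, (.ofNat (nat_lit 8)), (.ofNat (nat_lit 225558272)), (.ofNat (nat_lit 856837782809928372169391486976)), (.ofNat (nat_lit 0)), (.ofNat (nat_lit 13182119735537359571797557504)), (.ofNat (nat_lit 225558256)), (.ofNat (nat_lit 225558288)), (.negSucc (nat_lit 3023837826086936967623)), (.ofNat (nat_lit 3023837826086936967624)), (.negSucc (nat_lit 3023837826086936967623)), (.ofNat (nat_lit 3023837826086936967624)), (.ofNat (nat_lit 279123491638794181626))⟩,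
    ⟨nat_lit 0, nat_lit 15, nat_lit 14, (.ofNat (nat_lit 8)), (.negSucc (nat_lit 73285759)), (.ofNat (nat_lit 1760493670871863398104001106944)), (.ofNat (nat_lit 0)), (.ofNat (nat_lit 27084518013413283047673250176)), (.negSucc (nat_lit 73285775)), (.negSucc (nat_lit 73285743)), (.ofNat (nat_lit 3023837826086936967624)), (.negSucc (nat_lit 3023837826086936967623)), (.negSucc (nat_lit 3023837826086936967623)), (.ofNat (nat_lit 3023837826086936967624)), (.ofNat (nat_lit 279123491638794181626))⟩,
    ⟨nat_lit 0, nat_lit 6, nat_lit 15, (.ofNat (nat_lit 8)), (.negSucc (nat_lit 197771391)), (.ofNat (nat_lit 1384069308025924962745163928576)), (.ofNat (nat_lit 0)), (.ofNat (nat_lit 21293373969629614811400683904)), (.negSucc (nat_lit 197771407)), (.negSucc (nat_lit 197771375)), (.negSucc (nat_lit 3023837826086936967623)), (.ofNat (nat_lit 3023837826086936967624)), (.negSucc (nat_lit 3023837826086936967623)), (.ofNat (nat_lit 3023837826086936967624)), (.ofNat (nat_lit 279123491638794181626))⟩,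
    ⟨nat_lit 0, nat_lit 23, nat_lit 16, (.ofNat (nat_lit 8)), (.negSucc (nat_lit 85000191)), (.ofNat (nat_lit 517025757579076205983496072256)), (.ofNat (nat_lit 0)), (.ofNat (nat_lit 7954241937161852488238616768)), (.negSucc (nat_lit 85000207)), (.negSucc (nat_lit 85000175)), (.negSucc (nat_lit 3023837828822148073736)), (.ofNat (nat_lit 3023837826657666085832)), (.negSucc (nat_lit 3023837828822148073736)), (.ofNat (nat_lit 3023837826657666085832)), (.ofNat (nat_lit 279123503721096842494))⟩,
    ⟨nat_lit 1, nat_lit 16, nat_lit 17, (.ofNat (nat_lit 8)), (.ofNat (nat_lit 301186816)), (.ofNat (nat_lit 1684792640533222911934027342912)), (.ofNat (nat_lit 0)), (.ofNat (nat_lit 25919886507319846649123377600)), (.ofNat (nat_lit 301186800)), (.ofNat (nat_lit 301186832)), (.ofNat (nat_lit 3023837826657666085832)), (.negSucc (nat_lit 3023837828822898321672)), (.negSucc (nat_lit 3023837828822898321672)), (.ofNat (nat_lit 3023837826657666085832)), (.ofNat (nat_lit 279123499393633362556))⟩,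
    ⟨nat_lit 0, nat_lit 18, nat_lit 17, (.ofNat (nat_lit 8)), (.ofNat (nat_lit 200916800)), (.ofNat (nat_lit 1987992908010700187814552199680)), (.ofNat (nat_lit 0)), (.ofNat (nat_lit 30584506277087695197055926720)), (.ofNat (nat_lit 200916784)), (.ofNat (nat_lit 200916816)), (.ofNat (nat_lit 3023837826086936967624)), (.negSucc (nat_lit 3023837828822898321672)), (.negSucc (nat_lit 3023837828822898321672)), (.ofNat (nat_lit 3023837826086936967624)), (.ofNat (nat_lit 279123497110716889724))⟩,
    ⟨nat_lit 0, nat_lit 19, nat_lit 18, (.ofNat (nat_lit 8)), (.negSucc (nat_lit 55591039)), (.ofNat (nat_lit 1212354798730844334033170027520)), (.ofNat (nat_lit 0)), (.ofNat (nat_lit 18651612288166835908147102080)), (.negSucc (nat_lit 55591055)), (.negSucc (nat_lit 55591023)), (.negSucc (nat_lit 3023837826086936967623)), (.ofNat (nat_lit 3023837826086936967624)), (.negSucc (nat_lit 3023837826086936967623)), (.ofNat (nat_lit 3023837826086936967624)), (.ofNat (nat_lit 279123491638794181626))⟩,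
    ⟨nat_lit 2, nat_lit 19, nat_lit 20, (.ofNat (nat_lit 8)), (.negSucc (nat_lit 196493439)), (.ofNat (nat_lit 1638420805637276361420113925120)), (.ofNat (nat_lit 0)), (.ofNat (nat_lit 25206473932881174791003652480)), (.negSucc (nat_lit 196493455)), (.negSucc (nat_lit 196493423)), (.negSucc (nat_lit 3023837826086936967623)), (.ofNat (nat_lit 3023837826086936967624)), (.negSucc (nat_lit 3023837826086936967623)), (.ofNat (nat_lit 3023837826086936967624)), (.ofNat (nat_lit 279123491638794181626))⟩,
    ⟨nat_lit 0, nat_lit 20, nat_lit 21, (.ofNat (nat_lit 8)), (.negSucc (nat_lit 66535551)), (.ofNat (nat_lit 2031392383170045994121653343232)), (.ofNat (nat_lit 0)), (.ofNat (nat_lit 31252190510308399909470880128)), (.negSucc (nat_lit 66535567)), (.negSucc (nat_lit 66535535)), (.ofNat (nat_lit 3023837826086936967624)), (.negSucc (nat_lit 3023837826086936967623)), (.negSucc (nat_lit 3023837826086936967623)), (.ofNat (nat_lit 3023837826086936967624)), (.ofNat (nat_lit 279123491638794181626))⟩,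
    ⟨nat_lit 1, nat_lit 22, nat_lit 21, (.ofNat (nat_lit 8)), (.ofNat (nat_lit 165855040)), (.ofNat (nat_lit 1328680920653709668748827149824)), (.ofNat (nat_lit 0)), (.ofNat (nat_lit 20441244933133994903767269696)), (.ofNat (nat_lit 165855024)), (.ofNat (nat_lit 165855056)), (.ofNat (nat_lit 3023837826086936967624)), (.negSucc (nat_lit 3023837826086936967623)), (.negSucc (nat_lit 3023837826086936967623)), (.ofNat (nat_lit 3023837826086936967624)), (.ofNat (nat_lit 279123491638794181626))⟩,
    ⟨nat_lit 2, nat_lit 23, nat_lit 7, (.ofNat (nat_lit 8)), (.negSucc (nat_lit 265879487)), (.ofNat (nat_lit 1063975415274594858768800721408)), (.ofNat (nat_lit 0)), (.ofNat (nat_lit 16368852542686074750240522432)), (.negSucc (nat_lit 265879503)), (.negSucc (nat_lit 265879471)), (.negSucc (nat_lit 3023837828822148073736)), (.ofNat (nat_lit 3023837826086936967624)), (.negSucc (nat_lit 3023837828822148073736)), (.ofNat (nat_lit 3023837826086936967624)), (.ofNat (nat_lit 279123502579638606078))⟩]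
  es := [
    ⟨nat_lit 1, nat_lit 0, (.negSucc (nat_lit 329842623)), (.negSucc (nat_lit 76218367)), (.negSucc (nat_lit 329842607)), (.negSucc (nat_lit 76218383)), (.negSucc (nat_lit 3023837826086936967623)), (.negSucc (nat_lit 46520581939799030270)), (.ofNat (nat_lit 5634126286961836475732918400))⟩,
    ⟨nat_lit 1, nat_lit 2, (.negSucc (nat_lit 329842623)), (.negSucc (nat_lit 194199679)), (.negSucc (nat_lit 329842607)), (.negSucc (nat_lit 194199695)), (.ofNat (nat_lit 3023837826086936967624)), (.ofNat (nat_lit 46520581939799030271)), (.ofNat (nat_lit 36323067921022480830217060608))⟩,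
    ⟨nat_lit 2, nat_lit 3, (.negSucc (nat_lit 194199679)), (.negSucc (nat_lit 53297279)), (.negSucc (nat_lit 194199663)), (.negSucc (nat_lit 53297295)), (.negSucc (nat_lit 3023837826086936967623)), (.negSucc (nat_lit 46520581939799030270)), (.ofNat (nat_lit 18254503668776978944340034048))⟩,
    ⟨nat_lit 3, nat_lit 4, (.negSucc (nat_lit 53297279)), (.ofNat (nat_lit 226737984)), (.negSucc (nat_lit 53297263)), (.ofNat (nat_lit 226737968)), (.ofNat (nat_lit 3023837826086936967624)), (.ofNat (nat_lit 46520581939799030271)), (.ofNat (nat_lit 23213344631593803064503959808))⟩,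
    ⟨nat_lit 5, nat_lit 4, (.ofNat (nat_lit 64601920)), (.ofNat (nat_lit 226737984)), (.ofNat (nat_lit 64601936)), (.ofNat (nat_lit 226737968)), (.negSucc (nat_lit 3023837826086936967623)), (.negSucc (nat_lit 46520581939799030270)), (.ofNat (nat_lit 44309310558667486042106987136))⟩,
    ⟨nat_lit 6, nat_lit 5, (.negSucc (nat_lit 281657471)), (.ofNat (nat_lit 64601920)), (.negSucc (nat_lit 281657455)), (.ofNat (nat_lit 64601904)), (.ofNat (nat_lit 3023837826086936967624)), (.ofNat (nat_lit 46520581939799030271)), (.ofNat (nat_lit 38298672733010802502817546496))⟩,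
    ⟨nat_lit 6, nat_lit 15, (.negSucc (nat_lit 281657471)), (.negSucc (nat_lit 197771391)), (.negSucc (nat_lit 281657455)), (.negSucc (nat_lit 197771407)), (.negSucc (nat_lit 3023837826086936967623)), (.negSucc (nat_lit 46520581939799030270)), (.ofNat (nat_lit 12092933722745500394454876672))⟩,
    ⟨nat_lit 23, nat_lit 7, (.negSucc (nat_lit 265879487)), (.negSucc (nat_lit 64503935)), (.negSucc (nat_lit 265879471)), (.negSucc (nat_lit 64503951)), (.ofNat (nat_lit 3023837826086936967624)), (.ofNat (nat_lit 46520581939799030271)), (.ofNat (nat_lit 28737721050301887741590503680))⟩,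
    ⟨nat_lit 7, nat_lit 8, (.negSucc (nat_lit 64503935)), (.ofNat (nat_lit 221036288)), (.negSucc (nat_lit 64503919)), (.ofNat (nat_lit 221036272)), (.negSucc (nat_lit 3023837826086936967623)), (.negSucc (nat_lit 46520581939799030270)), (.ofNat (nat_lit 22736199770046782738665210368))⟩,
    ⟨nat_lit 8, nat_lit 9, (.ofNat (nat_lit 221036288)), (.ofNat (nat_lit 429375168)), (.ofNat (nat_lit 221036304)), (.ofNat (nat_lit 429375152)), (.ofNat (nat_lit 3023837826086936967624)), (.ofNat (nat_lit 46520581939799030271)), (.ofNat (nat_lit 2170726274900748504462262272))⟩,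
    ⟨nat_lit 10, nat_lit 9, (.ofNat (nat_lit 245677888)), (.ofNat (nat_lit 429375168)), (.ofNat (nat_lit 245677904)), (.ofNat (nat_lit 429375152)), (.negSucc (nat_lit 3023837826086936967623)), (.negSucc (nat_lit 46520581939799030270)), (.ofNat (nat_lit 42120291646618697522157683328))⟩,
    ⟨nat_lit 11, nat_lit 10, (.ofNat (nat_lit 119127936)), (.ofNat (nat_lit 245677888)), (.ofNat (nat_lit 119127952)), (.ofNat (nat_lit 245677872)), (.ofNat (nat_lit 3023837826086936967624)), (.ofNat (nat_lit 46520581939799030271)), (.ofNat (nat_lit 19262135007617159719302988032))⟩,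
    ⟨nat_lit 11, nat_lit 12, (.ofNat (nat_lit 119127936)), (.ofNat (nat_lit 297254656)), (.ofNat (nat_lit 119127952)), (.ofNat (nat_lit 297254640)), (.negSucc (nat_lit 3023837826086936967623)), (.negSucc (nat_lit 46520581939799030270)), (.ofNat (nat_lit 30345936823631429181274489344))⟩,
    ⟨nat_lit 13, nat_lit 12, (.ofNat (nat_lit 225558272)), (.ofNat (nat_lit 297254656)), (.ofNat (nat_lit 225558288)), (.ofNat (nat_lit 297254640)), (.ofNat (nat_lit 3023837826086936967624)), (.ofNat (nat_lit 46520581939799030271)), (.ofNat (nat_lit 2689017660761882276595105792))⟩,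
    ⟨nat_lit 14, nat_lit 13, (.negSucc (nat_lit 73285759)), (.ofNat (nat_lit 225558272)), (.negSucc (nat_lit 73285743)), (.ofNat (nat_lit 225558256)), (.negSucc (nat_lit 3023837826086936967623)), (.negSucc (nat_lit 46520581939799030270)), (.ofNat (nat_lit 23675221810312836867000009216))⟩,
    ⟨nat_lit 15, nat_lit 14, (.negSucc (nat_lit 197771391)), (.negSucc (nat_lit 73285759)), (.negSucc (nat_lit 197771375)), (.negSucc (nat_lit 73285775)), (.ofNat (nat_lit 3023837826086936967624)), (.ofNat (nat_lit 46520581939799030271)), (.ofNat (nat_lit 30493814216513729228346491136))⟩,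
    ⟨nat_lit 16, nat_lit 17, (.negSucc (nat_lit 85000191)), (.ofNat (nat_lit 301186816)), (.negSucc (nat_lit 85000175)), (.ofNat (nat_lit 301186800)), (.ofNat (nat_lit 3023837826657666085832)), (.ofNat (nat_lit 46520582510528148479)), (.ofNat (nat_lit 11908500382508587130358124736))⟩,
    ⟨nat_lit 18, nat_lit 17, (.ofNat (nat_lit 200916800)), (.ofNat (nat_lit 301186816)), (.ofNat (nat_lit 200916816)), (.ofNat (nat_lit 301186800)), (.negSucc (nat_lit 3023837828822898321672)), (.negSucc (nat_lit 46520584675760384319)), (.ofNat (nat_lit 39931273284270509181400502720))⟩,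
    ⟨nat_lit 19, nat_lit 18, (.negSucc (nat_lit 55591039)), (.ofNat (nat_lit 200916800)), (.negSucc (nat_lit 55591023)), (.ofNat (nat_lit 200916784)), (.ofNat (nat_lit 3023837826086936967624)), (.ofNat (nat_lit 46520581939799030271)), (.ofNat (nat_lit 21237739819605481391903473920))⟩,
    ⟨nat_lit 20, nat_lit 19, (.negSucc (nat_lit 196493439)), (.negSucc (nat_lit 55591039)), (.negSucc (nat_lit 196493423)), (.negSucc (nat_lit 55591055)), (.negSucc (nat_lit 3023837826086936967623)), (.negSucc (nat_lit 46520581939799030270)), (.ofNat (nat_lit 16065484756728190424390730240))⟩,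
    ⟨nat_lit 20, nat_lit 21, (.negSucc (nat_lit 196493439)), (.negSucc (nat_lit 66535551)), (.negSucc (nat_lit 196493423)), (.negSucc (nat_lit 66535567)), (.ofNat (nat_lit 3023837826086936967624)), (.ofNat (nat_lit 46520581939799030271)), (.ofNat (nat_lit 34347463109034159157616574720))⟩,
    ⟨nat_lit 21, nat_lit 22, (.negSucc (nat_lit 66535551)), (.ofNat (nat_lit 165855040)), (.negSucc (nat_lit 66535535)), (.ofNat (nat_lit 165855024)), (.negSucc (nat_lit 3023837826086936967623)), (.negSucc (nat_lit 46520581939799030270)), (.ofNat (nat_lit 28156917911582640661325185536))⟩,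
    ⟨nat_lit 0, nat_lit 22, (.negSucc (nat_lit 76218367)), (.ofNat (nat_lit 165855040)), (.negSucc (nat_lit 76218351)), (.ofNat (nat_lit 165855024)), (.ofNat (nat_lit 3023837826086936967624)), (.ofNat (nat_lit 46520581939799030271)), (.ofNat (nat_lit 12725571954685349146209353856))⟩,
    ⟨nat_lit 23, nat_lit 16, (.negSucc (nat_lit 265879487)), (.negSucc (nat_lit 85000191)), (.negSucc (nat_lit 265879471)), (.negSucc (nat_lit 85000207)), (.negSucc (nat_lit 3023837828822148073736)), (.negSucc (nat_lit 46520584675010136383)), (.ofNat (nat_lit 3999983307833733293652431040))⟩]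

theorem ok42 : stOK 23 23 S42 = true := by decide +kernel

def S43 : SD where
  vs := [
    ⟨nat_lit 0, nat_lit 0, nat_lit 22, (.ofNat (nat_lit 8)), (.negSucc (nat_lit 192348095)), (.ofNat (nat_lit 949433018999284295127101385216)), (.negSucc (nat_lit 116129727)), (.ofNat (nat_lit 352742826145750762412201577984)), (.negSucc (nat_lit 192348111)), (.negSucc (nat_lit 192348079)), (.negSucc (nat_lit 3023837826086936967623)), (.ofNat (nat_lit 3023837826086936967624)), (.negSucc (nat_lit 3023837826086936967623)), (.ofNat (nat_lit 3023837826086936967624)), (.ofNat (nat_lit 0))⟩,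
    ⟨nat_lit 2, nat_lit 0, nat_lit 1, (.ofNat (nat_lit 8)), (.negSucc (nat_lit 447807359)), (.ofNat (nat_lit 1721900404506813212890720253952)), (.negSucc (nat_lit 117964735)), (.ofNat (nat_lit 358291592747322900443287358976)), (.negSucc (nat_lit 447807375)), (.negSucc (nat_lit 447807343)), (.negSucc (nat_lit 3023837826086936967623)), (.ofNat (nat_lit 3023837826086936967624)), (.negSucc (nat_lit 3023837826086936967623)), (.ofNat (nat_lit 3023837826086936967624)), (.ofNat (nat_lit 0))⟩,
    ⟨nat_lit 0, nat_lit 1, nat_lit 2, (.ofNat (nat_lit 8)), (.negSucc (nat_lit 311377983)), (.ofNat (nat_lit 2134440712245050545134994776576)), (.negSucc (nat_lit 117178303)), (.ofNat (nat_lit 360669635576568102456609836544)), (.negSucc (nat_lit 311377999)), (.negSucc (nat_lit 311377967)), (.ofNat (nat_lit 3023837826086936967624)), (.negSucc (nat_lit 3023837826086936967623)), (.negSucc (nat_lit 3023837826086936967623)), (.ofNat (nat_lit 3023837826086936967624)), (.ofNat (nat_lit 0))⟩,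
    ⟨nat_lit 0, nat_lit 2, nat_lit 3, (.ofNat (nat_lit 8)), (.negSucc (nat_lit 169427007)), (.ofNat (nat_lit 1705203981566291581730287575552)), (.negSucc (nat_lit 116129727)), (.ofNat (nat_lit 357498911804241166438846533120)), (.negSucc (nat_lit 169427023)), (.negSucc (nat_lit 169426991)), (.negSucc (nat_lit 3023837826086936967623)), (.ofNat (nat_lit 3023837826086936967624)), (.negSucc (nat_lit 3023837826086936967623)), (.ofNat (nat_lit 3023837826086936967624)), (.ofNat (nat_lit 0))⟩,
    ⟨nat_lit 1, nat_lit 3, nat_lit 4, (.ofNat (nat_lit 8)), (.ofNat (nat_lit 112443264)), (.ofNat (nat_lit 2557533972089305200441319649280)), (.negSucc (nat_lit 114294719)), (.ofNat (nat_lit 363047678405813304469932314112)), (.ofNat (nat_lit 112443248)), (.ofNat (nat_lit 112443280)), (.ofNat (nat_lit 3023837826086936967624)), (.negSucc (nat_lit 3023837826086936967623)), (.negSucc (nat_lit 3023837826086936967623)), (.ofNat (nat_lit 3023837826086936967624)), (.ofNat (nat_lit 0))⟩,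
    ⟨nat_lit 0, nat_lit 5, nat_lit 4, (.ofNat (nat_lit 8)), (.negSucc (nat_lit 51003519)), (.ofNat (nat_lit 3051770540100766352210174570496)), (.negSucc (nat_lit 115605439)), (.ofNat (nat_lit 367011083121221974492136443392)), (.negSucc (nat_lit 51003535)), (.negSucc (nat_lit 51003503)), (.ofNat (nat_lit 3023837826086936967624)), (.negSucc (nat_lit 3023837826086936967623)), (.negSucc (nat_lit 3023837826086936967623)), (.ofNat (nat_lit 3023837826086936967624)), (.ofNat (nat_lit 0))⟩,
    ⟨nat_lit 2, nat_lit 6, nat_lit 5, (.ofNat (nat_lit 8)), (.negSucc (nat_lit 399622207)), (.ofNat (nat_lit 1997604164445566212618397213184)), (.negSucc (nat_lit 117964735)), (.ofNat (nat_lit 359876954633486368452169010688)), (.negSucc (nat_lit 399622223)), (.negSucc (nat_lit 399622191)), (.negSucc (nat_lit 3023837826086936967623)), (.ofNat (nat_lit 3023837826086936967624)), (.negSucc (nat_lit 3023837826086936967623)), (.ofNat (nat_lit 3023837826086936967624)), (.ofNat (nat_lit 0))⟩,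
    ⟨nat_lit 0, nat_lit 7, nat_lit 8, (.ofNat (nat_lit 8)), (.negSucc (nat_lit 180633663)), (.ofNat (nat_lit 2031986700351736425061018034688)), (.negSucc (nat_lit 116129727)), (.ofNat (nat_lit 359084273690404634447728184832)), (.negSucc (nat_lit 180633679)), (.negSucc (nat_lit 180633647)), (.ofNat (nat_lit 3023837826086936967624)), (.negSucc (nat_lit 3023837826086936967623)), (.negSucc (nat_lit 3023837826086936967623)), (.ofNat (nat_lit 3023837826086936967624)), (.ofNat (nat_lit 0))⟩,
    ⟨nat_lit 0, nat_lit 8, nat_lit 9, (.ofNat (nat_lit 8)), (.ofNat (nat_lit 222347008)), (.ofNat (nat_lit 813438501176203435426256271360)), (.ofNat (nat_lit 1310720)), (.ofNat (nat_lit 3963404715408670022204129280)), (.ofNat (nat_lit 222346992)), (.ofNat (nat_lit 222347024)), (.negSucc (nat_lit 3023837826086936967623)), (.ofNat (nat_lit 3023837826086936967624)), (.negSucc (nat_lit 3023837826086936967623)), (.ofNat (nat_lit 3023837826086936967624)), (.ofNat (nat_lit 0))⟩,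
    ⟨nat_lit 1, nat_lit 9, nat_lit 10, (.ofNat (nat_lit 8)), (.ofNat (nat_lit 431996608)), (.ofNat (nat_lit 1447384891880199335913840821760)), (.ofNat (nat_lit 2621440)), (.ofNat (nat_lit 7926809430817340044408258560)), (.ofNat (nat_lit 431996592)), (.ofNat (nat_lit 431996624)), (.ofNat (nat_lit 3023837826086936967624)), (.negSucc (nat_lit 3023837826086936967623)), (.negSucc (nat_lit 3023837826086936967623)), (.ofNat (nat_lit 3023837826086936967624)), (.ofNat (nat_lit 0))⟩,
    ⟨nat_lit 0, nat_lit 11, nat_lit 10, (.ofNat (nat_lit 8)), (.ofNat (nat_lit 131645312)), (.ofNat (nat_lit 2355598501839233462810019262464)), (.negSucc (nat_lit 114032575)), (.ofNat (nat_lit 360669635576568102456609836544)), (.ofNat (nat_lit 131645296)), (.ofNat (nat_lit 131645328)), (.ofNat (nat_lit 3023837826086936967624)), (.negSucc (nat_lit 3023837826086936967623)), (.negSucc (nat_lit 3023837826086936967623)), (.ofNat (nat_lit 3023837826086936967624)), (.ofNat (nat_lit 0))⟩,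
    ⟨nat_lit 2, nat_lit 12, nat_lit 11, (.ofNat (nat_lit 8)), (.ofNat (nat_lit 4571072)), (.ofNat (nat_lit 1971346608205983773721294856704)), (.negSucc (nat_lit 114556863)), (.ofNat (nat_lit 359084273690404634447728184832)), (.ofNat (nat_lit 4571056)), (.ofNat (nat_lit 4571088)), (.negSucc (nat_lit 3023837826086936967623)), (.ofNat (nat_lit 3023837826086936967624)), (.negSucc (nat_lit 3023837826086936967623)), (.ofNat (nat_lit 3023837826086936967624)), (.ofNat (nat_lit 0))⟩,
    ⟨nat_lit 1, nat_lit 13, nat_lit 12, (.ofNat (nat_lit 8)), (.ofNat (nat_lit 183222080)), (.ofNat (nat_lit 1431134932547023788822803891712)), (.negSucc (nat_lit 114032575)), (.ofNat (nat_lit 357498911804241166438846533120)), (.ofNat (nat_lit 183222064)), (.ofNat (nat_lit 183222096)), (.ofNat (nat_lit 3023837826086936967624)), (.negSucc (nat_lit 3023837826086936967623)), (.negSucc (nat_lit 3023837826086936967623)), (.ofNat (nat_lit 3023837826086936967624)), (.ofNat (nat_lit 0))⟩,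
    ⟨nat_lit 0, nat_lit 14, nat_lit 13, (.ofNat (nat_lit 8)), (.ofNat (nat_lit 111001408)), (.ofNat (nat_lit 1212751332728006070599356368384)), (.negSucc (nat_lit 114556863)), (.ofNat (nat_lit 355913549918077698429964881408)), (.ofNat (nat_lit 111001392)), (.ofNat (nat_lit 111001424)), (.negSucc (nat_lit 3023837826086936967623)), (.ofNat (nat_lit 3023837826086936967624)), (.negSucc (nat_lit 3023837826086936967623)), (.ofNat (nat_lit 3023837826086936967624)), (.ofNat (nat_lit 0))⟩,
    ⟨nat_lit 0, nat_lit 15, nat_lit 14, (.ofNat (nat_lit 8)), (.negSucc (nat_lit 189415487)), (.ofNat (nat_lit 2121163306448431500560610943488)), (.negSucc (nat_lit 116129727)), (.ofNat (nat_lit 360669635576568102456609836544)), (.negSucc (nat_lit 189415503)), (.negSucc (nat_lit 189415471)), (.ofNat (nat_lit 3023837826086936967624)), (.negSucc (nat_lit 3023837826086936967623)), (.negSucc (nat_lit 3023837826086936967623)), (.ofNat (nat_lit 3023837826086936967624)), (.ofNat (nat_lit 0))⟩,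
    ⟨nat_lit 0, nat_lit 6, nat_lit 15, (.ofNat (nat_lit 8)), (.negSucc (nat_lit 314949695)), (.ofNat (nat_lit 1741568219830166129184010461696)), (.negSucc (nat_lit 117178303)), (.ofNat (nat_lit 357498911804241166438846533120)), (.negSucc (nat_lit 314949711)), (.negSucc (nat_lit 314949679)), (.negSucc (nat_lit 3023837826086936967623)), (.ofNat (nat_lit 3023837826086936967624)), (.negSucc (nat_lit 3023837826086936967623)), (.ofNat (nat_lit 3023837826086936967624)), (.ofNat (nat_lit 0))⟩,
    ⟨nat_lit 0, nat_lit 23, nat_lit 16, (.ofNat (nat_lit 8)), (.negSucc (nat_lit 85262335)), (.ofNat (nat_lit 517818438201650541491651525760)), (.negSucc (nat_lit 262143)), (.ofNat (nat_lit 792680622574335508155453504)), (.negSucc (nat_lit 85262351)), (.negSucc (nat_lit 85262319)), (.negSucc (nat_lit 3023837828822148073736)), (.ofNat (nat_lit 3023837826657666085832)), (.negSucc (nat_lit 3023837828822148073736)), (.ofNat (nat_lit 3023837826657666085832)), (.ofNat (nat_lit 0))⟩,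
    ⟨nat_lit 1, nat_lit 16, nat_lit 17, (.ofNat (nat_lit 8)), (.ofNat (nat_lit 303283968)), (.ofNat (nat_lit 1692719449644879372407821890688)), (.ofNat (nat_lit 2097152)), (.ofNat (nat_lit 7926809111656460473794547776)), (.ofNat (nat_lit 303283952)), (.ofNat (nat_lit 303283984)), (.ofNat (nat_lit 3023837826657666085832)), (.negSucc (nat_lit 3023837828822898321672)), (.negSucc (nat_lit 3023837828822898321672)), (.ofNat (nat_lit 3023837826657666085832)), (.ofNat (nat_lit 0))⟩,
    ⟨nat_lit 0, nat_lit 18, nat_lit 17, (.ofNat (nat_lit 8)), (.ofNat (nat_lit 86359936)), (.ofNat (nat_lit 2348662543587268290271162036224)), (.negSucc (nat_lit 114556863)), (.ofNat (nat_lit 360669635576568102456609836544)), (.ofNat (nat_lit 86359920)), (.ofNat (nat_lit 86359952)), (.ofNat (nat_lit 3023837826086936967624)), (.negSucc (nat_lit 3023837828822898321672)), (.negSucc (nat_lit 3023837828822898321672)), (.ofNat (nat_lit 3023837826086936967624)), (.ofNat (nat_lit 0))⟩,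
    ⟨nat_lit 0, nat_lit 19, nat_lit 18, (.ofNat (nat_lit 8)), (.negSucc (nat_lit 171720767)), (.ofNat (nat_lit 1568268348648922032463134908928)), (.negSucc (nat_lit 116129727)), (.ofNat (nat_lit 355913549918077698429964881408)), (.negSucc (nat_lit 171720783)), (.negSucc (nat_lit 171720751)), (.negSucc (nat_lit 3023837826086936967623)), (.ofNat (nat_lit 3023837826086936967624)), (.negSucc (nat_lit 3023837826086936967623)), (.ofNat (nat_lit 3023837826086936967624)), (.ofNat (nat_lit 0))⟩,
    ⟨nat_lit 2, nat_lit 19, nat_lit 20, (.ofNat (nat_lit 8)), (.negSucc (nat_lit 313671743)), (.ofNat (nat_lit 1997505079327680995867842109952)), (.negSucc (nat_lit 117178303)), (.ofNat (nat_lit 359084273690404634447728184832)), (.negSucc (nat_lit 313671759)), (.negSucc (nat_lit 313671727)), (.negSucc (nat_lit 3023837826086936967623)), (.ofNat (nat_lit 3023837826086936967624)), (.negSucc (nat_lit 3023837826086936967623)), (.ofNat (nat_lit 3023837826086936967624)), (.ofNat (nat_lit 0))⟩,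
    ⟨nat_lit 0, nat_lit 20, nat_lit 21, (.ofNat (nat_lit 8)), (.negSucc (nat_lit 182665279)), (.ofNat (nat_lit 2393647380632777564587144831488)), (.negSucc (nat_lit 116129727)), (.ofNat (nat_lit 362254997462731570465491488256)), (.negSucc (nat_lit 182665295)), (.negSucc (nat_lit 182665263)), (.ofNat (nat_lit 3023837826086936967624)), (.negSucc (nat_lit 3023837826086936967623)), (.negSucc (nat_lit 3023837826086936967623)), (.ofNat (nat_lit 3023837826086936967624)), (.ofNat (nat_lit 0))⟩,
    ⟨nat_lit 1, nat_lit 22, nat_lit 21, (.ofNat (nat_lit 8)), (.ofNat (nat_lit 51298176)), (.ofNat (nat_lit 1686179832457950835187673682944)), (.negSucc (nat_lit 114556863)), (.ofNat (nat_lit 357498911804241166438846533120)), (.ofNat (nat_lit 51298160)), (.ofNat (nat_lit 51298192)), (.ofNat (nat_lit 3023837826086936967624)), (.negSucc (nat_lit 3023837826086936967623)), (.negSucc (nat_lit 3023837826086936967623)), (.ofNat (nat_lit 3023837826086936967624)), (.ofNat (nat_lit 0))⟩,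
    ⟨nat_lit 2, nat_lit 23, nat_lit 7, (.ofNat (nat_lit 8)), (.negSucc (nat_lit 383319935)), (.ofNat (nat_lit 1419096284249590823194324776960)), (.negSucc (nat_lit 117440447)), (.ofNat (nat_lit 355120868974995964425524055552)), (.negSucc (nat_lit 383319951)), (.negSucc (nat_lit 383319919)), (.negSucc (nat_lit 3023837828822148073736)), (.ofNat (nat_lit 3023837826086936967624)), (.negSucc (nat_lit 3023837828822148073736)), (.ofNat (nat_lit 3023837826086936967624)), (.ofNat (nat_lit 0))⟩]
  es := [
    ⟨nat_lit 1, nat_lit 0, (.negSucc (nat_lit 447807359)), (.negSucc (nat_lit 192348095)), (.negSucc (nat_lit 447807343)), (.negSucc (nat_lit 192348111)), (.negSucc (nat_lit 3023837826086936967623)), (.ofNat (nat_lit 0)), (.ofNat (nat_lit 1585361886163468008881651712))⟩,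
    ⟨nat_lit 1, nat_lit 2, (.negSucc (nat_lit 447807359)), (.negSucc (nat_lit 311377983)), (.negSucc (nat_lit 447807343)), (.negSucc (nat_lit 311377999)), (.ofNat (nat_lit 3023837826086936967624)), (.ofNat (nat_lit 0)), (.ofNat (nat_lit 714997823608482332877693066240))⟩,
    ⟨nat_lit 2, nat_lit 3, (.negSucc (nat_lit 311377983)), (.negSucc (nat_lit 169427007)), (.negSucc (nat_lit 311377967)), (.negSucc (nat_lit 169427023)), (.negSucc (nat_lit 3023837826086936967623)), (.ofNat (nat_lit 0)), (.ofNat (nat_lit 6341447544653872035526606848))⟩,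
    ⟨nat_lit 3, nat_lit 4, (.negSucc (nat_lit 169427007)), (.ofNat (nat_lit 112443264)), (.negSucc (nat_lit 169426991)), (.ofNat (nat_lit 112443248)), (.ofNat (nat_lit 3023837826086936967624)), (.ofNat (nat_lit 0)), (.ofNat (nat_lit 708656376063828460842166459392))⟩,
    ⟨nat_lit 5, nat_lit 4, (.negSucc (nat_lit 51003519)), (.ofNat (nat_lit 112443264)), (.negSucc (nat_lit 51003503)), (.ofNat (nat_lit 112443248)), (.negSucc (nat_lit 3023837826086936967623)), (.ofNat (nat_lit 0)), (.ofNat (nat_lit 17438980747798148097698168832))⟩,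
    ⟨nat_lit 6, nat_lit 5, (.negSucc (nat_lit 399622207)), (.negSucc (nat_lit 51003519)), (.negSucc (nat_lit 399622191)), (.negSucc (nat_lit 51003535)), (.ofNat (nat_lit 3023837826086936967624)), (.ofNat (nat_lit 0)), (.ofNat (nat_lit 716583185494645800886574717952))⟩,
    ⟨nat_lit 6, nat_lit 15, (.negSucc (nat_lit 399622207)), (.negSucc (nat_lit 314949695)), (.negSucc (nat_lit 399622191)), (.negSucc (nat_lit 314949711)), (.negSucc (nat_lit 3023837826086936967623)), (.ofNat (nat_lit 0)), (.ofNat (nat_lit 3170723772326936017763303424))⟩,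
    ⟨nat_lit 23, nat_lit 7, (.negSucc (nat_lit 383319935)), (.negSucc (nat_lit 180633663)), (.negSucc (nat_lit 383319919)), (.negSucc (nat_lit 180633679)), (.ofNat (nat_lit 3023837826086936967624)), (.ofNat (nat_lit 0)), (.ofNat (nat_lit 710241737949991928851048111104))⟩,
    ⟨nat_lit 7, nat_lit 8, (.negSucc (nat_lit 180633663)), (.ofNat (nat_lit 222347008)), (.negSucc (nat_lit 180633647)), (.ofNat (nat_lit 222346992)), (.negSucc (nat_lit 3023837826086936967623)), (.ofNat (nat_lit 0)), (.ofNat (nat_lit 7926809430817340044408258560))⟩,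
    ⟨nat_lit 8, nat_lit 9, (.ofNat (nat_lit 222347008)), (.ofNat (nat_lit 431996608)), (.ofNat (nat_lit 222347024)), (.ofNat (nat_lit 431996592)), (.ofNat (nat_lit 3023837826086936967624)), (.ofNat (nat_lit 0)), (.ofNat (nat_lit 0))⟩,
    ⟨nat_lit 10, nat_lit 9, (.ofNat (nat_lit 131645312)), (.ofNat (nat_lit 431996608)), (.ofNat (nat_lit 131645328)), (.ofNat (nat_lit 431996592)), (.negSucc (nat_lit 3023837826086936967623)), (.ofNat (nat_lit 0)), (.ofNat (nat_lit 15853618861634680088816517120))⟩,
    ⟨nat_lit 11, nat_lit 10, (.ofNat (nat_lit 4571072)), (.ofNat (nat_lit 131645312)), (.ofNat (nat_lit 4571088)), (.ofNat (nat_lit 131645296)), (.ofNat (nat_lit 3023837826086936967624)), (.ofNat (nat_lit 0)), (.ofNat (nat_lit 705485652291501524824403155968))⟩,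
    ⟨nat_lit 11, nat_lit 12, (.ofNat (nat_lit 4571072)), (.ofNat (nat_lit 183222080)), (.ofNat (nat_lit 4571088)), (.ofNat (nat_lit 183222064)), (.negSucc (nat_lit 3023837826086936967623)), (.ofNat (nat_lit 0)), (.ofNat (nat_lit 12682895089307744071053213696))⟩,
    ⟨nat_lit 13, nat_lit 12, (.ofNat (nat_lit 111001408)), (.ofNat (nat_lit 183222080)), (.ofNat (nat_lit 111001424)), (.ofNat (nat_lit 183222064)), (.ofNat (nat_lit 3023837826086936967624)), (.ofNat (nat_lit 0)), (.ofNat (nat_lit 702314928519174588806639852544))⟩,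
    ⟨nat_lit 14, nat_lit 13, (.negSucc (nat_lit 189415487)), (.ofNat (nat_lit 111001408)), (.negSucc (nat_lit 189415471)), (.ofNat (nat_lit 111001392)), (.negSucc (nat_lit 3023837826086936967623)), (.ofNat (nat_lit 0)), (.ofNat (nat_lit 9512171316980808053289910272))⟩,
    ⟨nat_lit 15, nat_lit 14, (.negSucc (nat_lit 314949695)), (.negSucc (nat_lit 189415487)), (.negSucc (nat_lit 314949679)), (.negSucc (nat_lit 189415503)), (.ofNat (nat_lit 3023837826086936967624)), (.ofNat (nat_lit 0)), (.ofNat (nat_lit 711827099836155396859929762816))⟩,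
    ⟨nat_lit 16, nat_lit 17, (.negSucc (nat_lit 85262335)), (.ofNat (nat_lit 303283968)), (.negSucc (nat_lit 85262319)), (.ofNat (nat_lit 303283952)), (.ofNat (nat_lit 3023837826657666085832)), (.ofNat (nat_lit 0)), (.ofNat (nat_lit 1585361565805682726559797312))⟩,
    ⟨nat_lit 18, nat_lit 17, (.ofNat (nat_lit 86359936)), (.ofNat (nat_lit 303283968)), (.ofNat (nat_lit 86359952)), (.ofNat (nat_lit 303283952)), (.negSucc (nat_lit 3023837828822898321672)), (.ofNat (nat_lit 0)), (.ofNat (nat_lit 14268256662048059334887723072))⟩,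
    ⟨nat_lit 19, nat_lit 18, (.negSucc (nat_lit 171720767)), (.ofNat (nat_lit 86359936)), (.negSucc (nat_lit 171720751)), (.ofNat (nat_lit 86359920)), (.ofNat (nat_lit 3023837826086936967624)), (.ofNat (nat_lit 0)), (.ofNat (nat_lit 707071014177664992833284807680))⟩,
    ⟨nat_lit 20, nat_lit 19, (.negSucc (nat_lit 313671743)), (.negSucc (nat_lit 171720767)), (.negSucc (nat_lit 313671727)), (.negSucc (nat_lit 171720783)), (.negSucc (nat_lit 3023837826086936967623)), (.ofNat (nat_lit 0)), (.ofNat (nat_lit 4756085658490404026644955136))⟩,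
    ⟨nat_lit 20, nat_lit 21, (.negSucc (nat_lit 313671743)), (.negSucc (nat_lit 182665279)), (.negSucc (nat_lit 313671727)), (.negSucc (nat_lit 182665295)), (.ofNat (nat_lit 3023837826086936967624)), (.ofNat (nat_lit 0)), (.ofNat (nat_lit 713412461722318864868811414528))⟩,
    ⟨nat_lit 21, nat_lit 22, (.negSucc (nat_lit 182665279)), (.ofNat (nat_lit 51298176)), (.negSucc (nat_lit 182665263)), (.ofNat (nat_lit 51298160)), (.negSucc (nat_lit 3023837826086936967623)), (.ofNat (nat_lit 0)), (.ofNat (nat_lit 11097533203144276062171561984))⟩,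
    ⟨nat_lit 0, nat_lit 22, (.negSucc (nat_lit 192348095)), (.ofNat (nat_lit 51298176)), (.negSucc (nat_lit 192348079)), (.ofNat (nat_lit 51298160)), (.ofNat (nat_lit 3023837826086936967624)), (.ofNat (nat_lit 0)), (.ofNat (nat_lit 703900290405338056815521504256))⟩,
    ⟨nat_lit 23, nat_lit 16, (.negSucc (nat_lit 383319935)), (.negSucc (nat_lit 85262335)), (.negSucc (nat_lit 383319919)), (.negSucc (nat_lit 85262351)), (.negSucc (nat_lit 3023837828822148073736)), (.ofNat (nat_lit 0)), (.negSucc (nat_lit 321224417676486258623))⟩]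

theorem ok43 : stOK 23 23 S43 = true := by decide +kernel

def S44 : SD where
  vs := [
    ⟨nat_lit 0, nat_lit 0, nat_lit 22, (.ofNat (nat_lit 8)), (.negSucc (nat_lit 192348095)), (.ofNat (nat_lit 964267909921148112238423096512)), (.ofNat (nat_lit 0)), (.ofNat (nat_lit 14834890921863817111321711296)), (.negSucc (nat_lit 192348111)), (.negSucc (nat_lit 192348079)), (.negSucc (nat_lit 3071085292119545357742)), (.ofNat (nat_lit 3071085292119545357743)), (.negSucc (nat_lit 3071085292119545357742)), (.ofNat (nat_lit 3071085292119545357743)), (.ofNat (nat_lit 283484796195650340714))⟩,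
    ⟨nat_lit 2, nat_lit 0, nat_lit 1, (.ofNat (nat_lit 8)), (.negSucc (nat_lit 447807359)), (.ofNat (nat_lit 1748805098327232169342066577664)), (.ofNat (nat_lit 0)), (.ofNat (nat_lit 26904693820418956451346323712)), (.negSucc (nat_lit 447807375)), (.negSucc (nat_lit 447807343)), (.negSucc (nat_lit 3071085292119545357742)), (.ofNat (nat_lit 3071085292119545357743)), (.negSucc (nat_lit 3071085292119545357742)), (.ofNat (nat_lit 3071085292119545357743)), (.ofNat (nat_lit 283484796195650340714))⟩,
    ⟨nat_lit 0, nat_lit 1, nat_lit 2, (.ofNat (nat_lit 8)), (.negSucc (nat_lit 311377983)), (.ofNat (nat_lit 2167791348373879459902640836032)), (.ofNat (nat_lit 0)), (.ofNat (nat_lit 33350636128828914767646059456)), (.negSucc (nat_lit 311377999)), (.negSucc (nat_lit 311377967)), (.ofNat (nat_lit 3071085292119545357743)), (.negSucc (nat_lit 3071085292119545357742)), (.negSucc (nat_lit 3071085292119545357742)), (.ofNat (nat_lit 3071085292119545357743)), (.ofNat (nat_lit 283484796195650340714))⟩,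
    ⟨nat_lit 0, nat_lit 2, nat_lit 3, (.ofNat (nat_lit 8)), (.negSucc (nat_lit 169427007)), (.ofNat (nat_lit 1731847793778264887694752828864)), (.ofNat (nat_lit 0)), (.ofNat (nat_lit 26643812211973305964465253312)), (.negSucc (nat_lit 169427023)), (.negSucc (nat_lit 169426991)), (.negSucc (nat_lit 3071085292119545357742)), (.ofNat (nat_lit 3071085292119545357743)), (.negSucc (nat_lit 3071085292119545357742)), (.ofNat (nat_lit 3071085292119545357743)), (.ofNat (nat_lit 283484796195650340714))⟩,
    ⟨nat_lit 1, nat_lit 3, nat_lit 4, (.ofNat (nat_lit 8)), (.ofNat (nat_lit 112443264)), (.ofNat (nat_lit 2597495440403200594198109544960)), (.ofNat (nat_lit 0)), (.ofNat (nat_lit 39961468313895393756789895680)), (.ofNat (nat_lit 112443248)), (.ofNat (nat_lit 112443280)), (.ofNat (nat_lit 3071085292119545357743)), (.negSucc (nat_lit 3071085292119545357742)), (.negSucc (nat_lit 3071085292119545357742)), (.ofNat (nat_lit 3071085292119545357743)), (.ofNat (nat_lit 283484796195650340714))⟩,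
    ⟨nat_lit 0, nat_lit 5, nat_lit 4, (.ofNat (nat_lit 8)), (.negSucc (nat_lit 51003519)), (.ofNat (nat_lit 3099454454789840826463332393472)), (.ofNat (nat_lit 0)), (.ofNat (nat_lit 47683914689074474253157822976)), (.negSucc (nat_lit 51003535)), (.negSucc (nat_lit 51003503)), (.ofNat (nat_lit 3071085292119545357743)), (.negSucc (nat_lit 3071085292119545357742)), (.negSucc (nat_lit 3071085292119545357742)), (.ofNat (nat_lit 3071085292119545357743)), (.ofNat (nat_lit 283484796195650340714))⟩,
    ⟨nat_lit 2, nat_lit 6, nat_lit 5, (.ofNat (nat_lit 8)), (.negSucc (nat_lit 399622207)), (.ofNat (nat_lit 2028816729515028184690477092288)), (.ofNat (nat_lit 0)), (.ofNat (nat_lit 31212565069461972072079879104)), (.negSucc (nat_lit 399622223)), (.negSucc (nat_lit 399622191)), (.negSucc (nat_lit 3071085292119545357742)), (.ofNat (nat_lit 3071085292119545357743)), (.negSucc (nat_lit 3071085292119545357742)), (.ofNat (nat_lit 3071085292119545357743)), (.ofNat (nat_lit 283484796195650340714))⟩,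
    ⟨nat_lit 0, nat_lit 7, nat_lit 8, (.ofNat (nat_lit 8)), (.negSucc (nat_lit 180633663)), (.ofNat (nat_lit 2063736492544732306702512442816)), (.ofNat (nat_lit 0)), (.ofNat (nat_lit 31749792192995881641494408128)), (.negSucc (nat_lit 180633679)), (.negSucc (nat_lit 180633647)), (.ofNat (nat_lit 3071085292119545357743)), (.negSucc (nat_lit 3071085292119545357742)), (.negSucc (nat_lit 3071085292119545357742)), (.ofNat (nat_lit 3071085292119545357743)), (.ofNat (nat_lit 283484796195650340714))⟩,
    ⟨nat_lit 0, nat_lit 8, nat_lit 9, (.ofNat (nat_lit 8)), (.ofNat (nat_lit 222347008)), (.ofNat (nat_lit 826148477757081614104757899520)), (.ofNat (nat_lit 0)), (.ofNat (nat_lit 12709976580878178678501628160)), (.ofNat (nat_lit 222346992)), (.ofNat (nat_lit 222347024)), (.negSucc (nat_lit 3071085292119545357742)), (.ofNat (nat_lit 3071085292119545357743)), (.negSucc (nat_lit 3071085292119545357742)), (.ofNat (nat_lit 3071085292119545357743)), (.ofNat (nat_lit 283484796195650340714))⟩,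
    ⟨nat_lit 1, nat_lit 9, nat_lit 10, (.ofNat (nat_lit 8)), (.ofNat (nat_lit 431996608)), (.ofNat (nat_lit 1470000280815827450537434752320)), (.ofNat (nat_lit 0)), (.ofNat (nat_lit 22615388935628114623593930560)), (.ofNat (nat_lit 431996592)), (.ofNat (nat_lit 431996624)), (.ofNat (nat_lit 3071085292119545357743)), (.negSucc (nat_lit 3071085292119545357742)), (.negSucc (nat_lit 3071085292119545357742)), (.ofNat (nat_lit 3071085292119545357743)), (.ofNat (nat_lit 283484796195650340714))⟩,
    ⟨nat_lit 0, nat_lit 11, nat_lit 10, (.ofNat (nat_lit 8)), (.ofNat (nat_lit 131645312)), (.ofNat (nat_lit 2392404728430471485666328437248)), (.ofNat (nat_lit 0)), (.ofNat (nat_lit 36806226591238022856309174784)), (.ofNat (nat_lit 131645296)), (.ofNat (nat_lit 131645328)), (.ofNat (nat_lit 3071085292119545357743)), (.negSucc (nat_lit 3071085292119545357742)), (.negSucc (nat_lit 3071085292119545357742)), (.ofNat (nat_lit 3071085292119545357743)), (.ofNat (nat_lit 283484796195650340714))⟩,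
    ⟨nat_lit 2, nat_lit 12, nat_lit 11, (.ofNat (nat_lit 8)), (.ofNat (nat_lit 4571072)), (.ofNat (nat_lit 2002148898959202270185608596928)), (.ofNat (nat_lit 0)), (.ofNat (nat_lit 30802290753218496464313740224)), (.ofNat (nat_lit 4571056)), (.ofNat (nat_lit 4571088)), (.negSucc (nat_lit 3071085292119545357742)), (.ofNat (nat_lit 3071085292119545357743)), (.negSucc (nat_lit 3071085292119545357742)), (.ofNat (nat_lit 3071085292119545357743)), (.ofNat (nat_lit 283484796195650340714))⟩,
    ⟨nat_lit 1, nat_lit 13, nat_lit 12, (.ofNat (nat_lit 8)), (.ofNat (nat_lit 183222080)), (.ofNat (nat_lit 1453496415868071035523101041984)), (.ofNat (nat_lit 0)), (.ofNat (nat_lit 22361483321047246700297150272)), (.ofNat (nat_lit 183222064)), (.ofNat (nat_lit 183222096)), (.ofNat (nat_lit 3071085292119545357743)), (.negSucc (nat_lit 3071085292119545357742)), (.negSucc (nat_lit 3071085292119545357742)), (.ofNat (nat_lit 3071085292119545357743)), (.ofNat (nat_lit 283484796195650340714))⟩,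
    ⟨nat_lit 0, nat_lit 14, nat_lit 13, (.ofNat (nat_lit 8)), (.ofNat (nat_lit 111001408)), (.ofNat (nat_lit 1231700572301881165452421178688)), (.ofNat (nat_lit 0)), (.ofNat (nat_lit 18949239573875094853064810304)), (.ofNat (nat_lit 111001392)), (.ofNat (nat_lit 111001424)), (.negSucc (nat_lit 3071085292119545357742)), (.ofNat (nat_lit 3071085292119545357743)), (.negSucc (nat_lit 3071085292119545357742)), (.ofNat (nat_lit 3071085292119545357743)), (.ofNat (nat_lit 283484796195650340714))⟩,
    ⟨nat_lit 0, nat_lit 15, nat_lit 14, (.ofNat (nat_lit 8)), (.negSucc (nat_lit 189415487)), (.ofNat (nat_lit 2154306483111688242756782804416)), (.ofNat (nat_lit 0)), (.ofNat (nat_lit 33143176663256742196171860928)), (.negSucc (nat_lit 189415503)), (.negSucc (nat_lit 189415471)), (.ofNat (nat_lit 3071085292119545357743)), (.negSucc (nat_lit 3071085292119545357742)), (.negSucc (nat_lit 3071085292119545357742)), (.ofNat (nat_lit 3071085292119545357743)), (.ofNat (nat_lit 283484796195650340714))⟩,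
    ⟨nat_lit 0, nat_lit 6, nat_lit 15, (.ofNat (nat_lit 8)), (.negSucc (nat_lit 314949695)), (.ofNat (nat_lit 1768780223265012474952438631872)), (.ofNat (nat_lit 0)), (.ofNat (nat_lit 27212003434846345768428170176)), (.negSucc (nat_lit 314949711)), (.negSucc (nat_lit 314949679)), (.negSucc (nat_lit 3071085292119545357742)), (.ofNat (nat_lit 3071085292119545357743)), (.negSucc (nat_lit 3071085292119545357742)), (.ofNat (nat_lit 3071085292119545357743)), (.ofNat (nat_lit 283484796195650340714))⟩,
    ⟨nat_lit 0, nat_lit 23, nat_lit 16, (.ofNat (nat_lit 8)), (.negSucc (nat_lit 85262335)), (.ofNat (nat_lit 525909352126540077386657441920)), (.ofNat (nat_lit 0)), (.ofNat (nat_lit 8090913924889535895005916160)), (.negSucc (nat_lit 85262351)), (.negSucc (nat_lit 85262319)), (.negSucc (nat_lit 3071085292119545357742)), (.ofNat (nat_lit 3071085292119545357743)), (.negSucc (nat_lit 3071085292119545357742)), (.ofNat (nat_lit 3071085292119545357743)), (.ofNat (nat_lit 283484784113347679846))⟩,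
    ⟨nat_lit 1, nat_lit 16, nat_lit 17, (.ofNat (nat_lit 8)), (.ofNat (nat_lit 303283968)), (.ofNat (nat_lit 1719168191648349752298057873792)), (.ofNat (nat_lit 0)), (.ofNat (nat_lit 26448742003470379890235983104)), (.ofNat (nat_lit 303283952)), (.ofNat (nat_lit 303283984)), (.ofNat (nat_lit 3071085292119545357743)), (.negSucc (nat_lit 3071085292119545357742)), (.negSucc (nat_lit 3071085292119545357742)), (.ofNat (nat_lit 3071085292119545357743)), (.ofNat (nat_lit 283484788440811159784))⟩,
    ⟨nat_lit 0, nat_lit 18, nat_lit 17, (.ofNat (nat_lit 8)), (.ofNat (nat_lit 86359936)), (.ofNat (nat_lit 2385360395830819357306551853568)), (.ofNat (nat_lit 0)), (.ofNat (nat_lit 36697852243551067035389817344)), (.ofNat (nat_lit 86359920)), (.ofNat (nat_lit 86359952)), (.ofNat (nat_lit 3071085292119545357743)), (.negSucc (nat_lit 3071085292119545357742)), (.negSucc (nat_lit 3071085292119545357742)), (.ofNat (nat_lit 3071085292119545357743)), (.ofNat (nat_lit 283484790723727632616))⟩,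
    ⟨nat_lit 0, nat_lit 19, nat_lit 18, (.ofNat (nat_lit 8)), (.negSucc (nat_lit 171720767)), (.ofNat (nat_lit 1592772541596561439220306562496)), (.ofNat (nat_lit 0)), (.ofNat (nat_lit 24504192947639406757171653568)), (.negSucc (nat_lit 171720783)), (.negSucc (nat_lit 171720751)), (.negSucc (nat_lit 3071085292119545357742)), (.ofNat (nat_lit 3071085292119545357743)), (.negSucc (nat_lit 3071085292119545357742)), (.ofNat (nat_lit 3071085292119545357743)), (.ofNat (nat_lit 283484796195650340714))⟩,
    ⟨nat_lit 2, nat_lit 19, nat_lit 20, (.ofNat (nat_lit 8)), (.negSucc (nat_lit 313671743)), (.ofNat (nat_lit 2028716096192176011428194569664)), (.ofNat (nat_lit 0)), (.ofNat (nat_lit 31211016864495015560352459712)), (.negSucc (nat_lit 313671759)), (.negSucc (nat_lit 313671727)), (.negSucc (nat_lit 3071085292119545357742)), (.ofNat (nat_lit 3071085292119545357743)), (.negSucc (nat_lit 3071085292119545357742)), (.ofNat (nat_lit 3071085292119545357743)), (.ofNat (nat_lit 283484796195650340714))⟩,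
    ⟨nat_lit 0, nat_lit 20, nat_lit 21, (.ofNat (nat_lit 8)), (.negSucc (nat_lit 182665279)), (.ofNat (nat_lit 2431048120955164714033720020416)), (.ofNat (nat_lit 0)), (.ofNat (nat_lit 37400740322387149446575188928)), (.negSucc (nat_lit 182665295)), (.negSucc (nat_lit 182665263)), (.ofNat (nat_lit 3071085292119545357743)), (.negSucc (nat_lit 3071085292119545357742)), (.negSucc (nat_lit 3071085292119545357742)), (.ofNat (nat_lit 3071085292119545357743)), (.ofNat (nat_lit 283484796195650340714))⟩,
    ⟨nat_lit 1, nat_lit 22, nat_lit 21, (.ofNat (nat_lit 8)), (.ofNat (nat_lit 51298176)), (.ofNat (nat_lit 1712526392340106316987411380608)), (.ofNat (nat_lit 0)), (.ofNat (nat_lit 26346559882155481799737697664)), (.ofNat (nat_lit 51298160)), (.ofNat (nat_lit 51298192)), (.ofNat (nat_lit 3071085292119545357743)), (.negSucc (nat_lit 3071085292119545357742)), (.negSucc (nat_lit 3071085292119545357742)), (.ofNat (nat_lit 3071085292119545357743)), (.ofNat (nat_lit 283484796195650340714))⟩,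
    ⟨nat_lit 2, nat_lit 23, nat_lit 7, (.ofNat (nat_lit 8)), (.negSucc (nat_lit 383319935)), (.ofNat (nat_lit 1441269663690990679806677438720)), (.ofNat (nat_lit 0)), (.ofNat (nat_lit 22173379441399856612352661760)), (.negSucc (nat_lit 383319951)), (.negSucc (nat_lit 383319919)), (.negSucc (nat_lit 3071085292119545357742)), (.ofNat (nat_lit 3071085292119545357743)), (.negSucc (nat_lit 3071085292119545357742)), (.ofNat (nat_lit 3071085292119545357743)), (.ofNat (nat_lit 283484785254805916262))⟩]
  es := [
    ⟨nat_lit 1, nat_lit 0, (.negSucc (nat_lit 447807359)), (.negSucc (nat_lit 192348095)), (.negSucc (nat_lit 447807343)), (.negSucc (nat_lit 192348111)), (.negSucc (nat_lit 3071085292119545357742)), (.negSucc (nat_lit 47247466032608390118)), (.ofNat (nat_lit 5746930789666919358306847872))⟩,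
    ⟨nat_lit 1, nat_lit 2, (.negSucc (nat_lit 447807359)), (.negSucc (nat_lit 311377983)), (.negSucc (nat_lit 447807343)), (.negSucc (nat_lit 311377999)), (.ofNat (nat_lit 3071085292119545357743)), (.ofNat (nat_lit 47247466032608390119)), (.ofNat (nat_lit 48062456851170993544385799552))⟩,
    ⟨nat_lit 2, nat_lit 3, (.negSucc (nat_lit 311377983)), (.negSucc (nat_lit 169427007)), (.negSucc (nat_lit 311377967)), (.negSucc (nat_lit 169427023)), (.negSucc (nat_lit 3071085292119545357742)), (.negSucc (nat_lit 47247466032608390118)), (.ofNat (nat_lit 18638815406486835990906319360))⟩,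
    ⟨nat_lit 3, nat_lit 4, (.negSucc (nat_lit 169427007)), (.ofNat (nat_lit 112443264)), (.negSucc (nat_lit 169426991)), (.ofNat (nat_lit 112443248)), (.ofNat (nat_lit 3071085292119545357743)), (.ofNat (nat_lit 47247466032608390119)), (.ofNat (nat_lit 34648809017459775938024187264))⟩,
    ⟨nat_lit 5, nat_lit 4, (.negSucc (nat_lit 51003519)), (.ofNat (nat_lit 112443264)), (.negSucc (nat_lit 51003503)), (.ofNat (nat_lit 112443248)), (.negSucc (nat_lit 3071085292119545357742)), (.negSucc (nat_lit 47247466032608390118)), (.ofNat (nat_lit 45274127610331011575555604096))⟩,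
    ⟨nat_lit 6, nat_lit 5, (.negSucc (nat_lit 399622207)), (.negSucc (nat_lit 51003519)), (.negSucc (nat_lit 399622191)), (.negSucc (nat_lit 51003535)), (.ofNat (nat_lit 3071085292119545357743)), (.ofNat (nat_lit 47247466032608390119)), (.ofNat (nat_lit 50093701767817936930760041856))⟩,
    ⟨nat_lit 6, nat_lit 15, (.negSucc (nat_lit 399622207)), (.negSucc (nat_lit 314949695)), (.negSucc (nat_lit 399622191)), (.negSucc (nat_lit 314949711)), (.negSucc (nat_lit 3071085292119545357742)), (.negSucc (nat_lit 47247466032608390118)), (.ofNat (nat_lit 12331428371106007213399716352))⟩,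
    ⟨nat_lit 23, nat_lit 7, (.negSucc (nat_lit 383319935)), (.negSucc (nat_lit 180633663)), (.negSucc (nat_lit 383319919)), (.negSucc (nat_lit 180633679)), (.ofNat (nat_lit 3071085292119545357743)), (.ofNat (nat_lit 47247466032608390119)), (.ofNat (nat_lit 40284275097181478625830774144))⟩,
    ⟨nat_lit 7, nat_lit 8, (.negSucc (nat_lit 180633663)), (.ofNat (nat_lit 222347008)), (.negSucc (nat_lit 180633647)), (.ofNat (nat_lit 222346992)), (.negSucc (nat_lit 3071085292119545357742)), (.negSucc (nat_lit 47247466032608390118)), (.ofNat (nat_lit 23215309288810284657158042112))⟩,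
    ⟨nat_lit 8, nat_lit 9, (.ofNat (nat_lit 222347008)), (.ofNat (nat_lit 431996608)), (.ofNat (nat_lit 222347024)), (.ofNat (nat_lit 431996592)), (.ofNat (nat_lit 3071085292119545357743)), (.ofNat (nat_lit 47247466032608390119)), (.ofNat (nat_lit 2204643872946072699845214208))⟩,
    ⟨nat_lit 10, nat_lit 9, (.ofNat (nat_lit 131645312)), (.ofNat (nat_lit 431996608)), (.ofNat (nat_lit 131645328)), (.ofNat (nat_lit 431996592)), (.negSucc (nat_lit 3071085292119545357742)), (.negSucc (nat_lit 47247466032608390118)), (.ofNat (nat_lit 43026133998310156547342646912))⟩,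
    ⟨nat_lit 11, nat_lit 10, (.ofNat (nat_lit 4571072)), (.ofNat (nat_lit 131645312)), (.ofNat (nat_lit 4571088)), (.ofNat (nat_lit 131645296)), (.ofNat (nat_lit 3071085292119545357743)), (.ofNat (nat_lit 47247466032608390119)), (.ofNat (nat_lit 30586319184165889165275702656))⟩,
    ⟨nat_lit 11, nat_lit 12, (.ofNat (nat_lit 4571072)), (.ofNat (nat_lit 183222080)), (.ofNat (nat_lit 4571088)), (.ofNat (nat_lit 183222064)), (.negSucc (nat_lit 3071085292119545357742)), (.negSucc (nat_lit 47247466032608390118)), (.ofNat (nat_lit 31018262322271103763351777792))⟩,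
    ⟨nat_lit 13, nat_lit 12, (.ofNat (nat_lit 111001408)), (.ofNat (nat_lit 183222080)), (.ofNat (nat_lit 111001424)), (.ofNat (nat_lit 183222064)), (.ofNat (nat_lit 3071085292119545357743)), (.ofNat (nat_lit 47247466032608390119)), (.ofNat (nat_lit 13704704319823389637242522752))⟩,
    ⟨nat_lit 14, nat_lit 13, (.negSucc (nat_lit 189415487)), (.ofNat (nat_lit 111001408)), (.negSucc (nat_lit 189415471)), (.ofNat (nat_lit 111001392)), (.negSucc (nat_lit 3071085292119545357742)), (.negSucc (nat_lit 47247466032608390118)), (.ofNat (nat_lit 24193774827926800068887097856))⟩,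
    ⟨nat_lit 15, nat_lit 14, (.negSucc (nat_lit 314949695)), (.negSucc (nat_lit 189415487)), (.negSucc (nat_lit 314949679)), (.negSucc (nat_lit 189415503)), (.ofNat (nat_lit 3071085292119545357743)), (.ofNat (nat_lit 47247466032608390119)), (.ofNat (nat_lit 42092578498586684323456624000))⟩,
    ⟨nat_lit 16, nat_lit 17, (.negSucc (nat_lit 85262335)), (.ofNat (nat_lit 303283968)), (.negSucc (nat_lit 85262319)), (.ofNat (nat_lit 303283952)), (.ofNat (nat_lit 3071085292119545357743)), (.ofNat (nat_lit 47247465461879271911)), (.ofNat (nat_lit 12119343200248681568116960256))⟩,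
    ⟨nat_lit 18, nat_lit 17, (.ofNat (nat_lit 86359936)), (.ofNat (nat_lit 303283968)), (.ofNat (nat_lit 86359952)), (.ofNat (nat_lit 303283952)), (.negSucc (nat_lit 3071085292119545357742)), (.negSucc (nat_lit 47247463296647036069)), (.ofNat (nat_lit 40778140150011854084984708864))⟩,
    ⟨nat_lit 19, nat_lit 18, (.negSucc (nat_lit 171720767)), (.ofNat (nat_lit 86359936)), (.negSucc (nat_lit 171720751)), (.ofNat (nat_lit 86359920)), (.ofNat (nat_lit 3071085292119545357743)), (.ofNat (nat_lit 47247466032608390119)), (.ofNat (nat_lit 32617564100812832551649944960))⟩,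
    ⟨nat_lit 20, nat_lit 19, (.negSucc (nat_lit 313671743)), (.negSucc (nat_lit 171720767)), (.negSucc (nat_lit 313671727)), (.negSucc (nat_lit 171720783)), (.negSucc (nat_lit 3071085292119545357742)), (.negSucc (nat_lit 47247466032608390118)), (.ofNat (nat_lit 16390821794465980962693362176))⟩,
    ⟨nat_lit 20, nat_lit 21, (.negSucc (nat_lit 313671743)), (.negSucc (nat_lit 182665279)), (.negSucc (nat_lit 313671727)), (.negSucc (nat_lit 182665295)), (.ofNat (nat_lit 3071085292119545357743)), (.ofNat (nat_lit 47247466032608390119)), (.ofNat (nat_lit 46031211934524050158011557248))⟩,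
    ⟨nat_lit 21, nat_lit 22, (.negSucc (nat_lit 182665279)), (.ofNat (nat_lit 51298176)), (.negSucc (nat_lit 182665263)), (.ofNat (nat_lit 51298160)), (.negSucc (nat_lit 3071085292119545357742)), (.negSucc (nat_lit 47247466032608390118)), (.ofNat (nat_lit 28770268710250248735138820608))⟩,
    ⟨nat_lit 0, nat_lit 22, (.negSucc (nat_lit 192348095)), (.ofNat (nat_lit 51298176)), (.negSucc (nat_lit 192348079)), (.ofNat (nat_lit 51298160)), (.ofNat (nat_lit 3071085292119545357743)), (.ofNat (nat_lit 47247466032608390119)), (.ofNat (nat_lit 23922851054060714864336574720))⟩,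
    ⟨nat_lit 23, nat_lit 16, (.negSucc (nat_lit 383319935)), (.negSucc (nat_lit 85262335)), (.negSucc (nat_lit 383319919)), (.negSucc (nat_lit 85262351)), (.negSucc (nat_lit 3071085292119545357742)), (.negSucc (nat_lit 47247463297397284005)), (.ofNat (nat_lit 4062484834079180740598918144))⟩]

theorem ok44 : stOK 23 23 S44 = true := by decide +kernel

def S45 : SD where
  vs := [
    ⟨nat_lit 0, nat_lit 0, nat_lit 22, (.ofNat (nat_lit 8)), (.negSucc (nat_lit 192872383)), (.ofNat (nat_lit 967488176252417656631463820480)), (.negSucc (nat_lit 524287)), (.ofNat (nat_lit 3220266331269544393040723968)), (.negSucc (nat_lit 192872399)), (.negSucc (nat_lit 192872367)), (.negSucc (nat_lit 3071085292119545357742)), (.ofNat (nat_lit 3071085292119545357743)), (.negSucc (nat_lit 3071085292119545357742)), (.ofNat (nat_lit 3071085292119545357743)), (.ofNat (nat_lit 0))⟩,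
    ⟨nat_lit 2, nat_lit 0, nat_lit 1, (.ofNat (nat_lit 8)), (.negSucc (nat_lit 450166655)), (.ofNat (nat_lit 1757660830738223416422928568576)), (.negSucc (nat_lit 2359295)), (.ofNat (nat_lit 8855732410991247080861990912)), (.negSucc (nat_lit 450166671)), (.negSucc (nat_lit 450166639)), (.negSucc (nat_lit 3071085292119545357742)), (.ofNat (nat_lit 3071085292119545357743)), (.negSucc (nat_lit 3071085292119545357742)), (.ofNat (nat_lit 3071085292119545357743)), (.ofNat (nat_lit 0))⟩,
    ⟨nat_lit 0, nat_lit 1, nat_lit 2, (.ofNat (nat_lit 8)), (.negSucc (nat_lit 312950847)), (.ofNat (nat_lit 2179062280533322865278283369920)), (.negSucc (nat_lit 1572863)), (.ofNat (nat_lit 11270932159443405375642533888)), (.negSucc (nat_lit 312950863)), (.negSucc (nat_lit 312950831)), (.ofNat (nat_lit 3071085292119545357743)), (.negSucc (nat_lit 3071085292119545357742)), (.negSucc (nat_lit 3071085292119545357742)), (.ofNat (nat_lit 3071085292119545357743)), (.ofNat (nat_lit 0))⟩,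
    ⟨nat_lit 0, nat_lit 2, nat_lit 3, (.ofNat (nat_lit 8)), (.negSucc (nat_lit 169951295)), (.ofNat (nat_lit 1739898459606438748677354638784)), (.negSucc (nat_lit 524287)), (.ofNat (nat_lit 8050665828173860982601809920)), (.negSucc (nat_lit 169951311)), (.negSucc (nat_lit 169951279)), (.negSucc (nat_lit 3071085292119545357742)), (.ofNat (nat_lit 3071085292119545357743)), (.negSucc (nat_lit 3071085292119545357742)), (.ofNat (nat_lit 3071085292119545357743)), (.ofNat (nat_lit 0))⟩,
    ⟨nat_lit 1, nat_lit 3, nat_lit 4, (.ofNat (nat_lit 8)), (.ofNat (nat_lit 164413248)), (.ofNat (nat_lit 2766760492891097325706409702976)), (.ofNat (nat_lit 51969984)), (.ofNat (nat_lit 169265052487896731508300158016)), (.ofNat (nat_lit 164413232)), (.ofNat (nat_lit 164413264)), (.ofNat (nat_lit 3071085292119545357743)), (.negSucc (nat_lit 3071085292119545357742)), (.negSucc (nat_lit 3071085292119545357742)), (.ofNat (nat_lit 3071085292119545357743)), (.ofNat (nat_lit 0))⟩,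
    ⟨nat_lit 0, nat_lit 5, nat_lit 4, (.ofNat (nat_lit 8)), (.negSucc (nat_lit 344255)), (.ofNat (nat_lit 3272744840191824488462933456448)), (.ofNat (nat_lit 50659264)), (.ofNat (nat_lit 173290385401983661999601062976)), (.negSucc (nat_lit 344271)), (.negSucc (nat_lit 344239)), (.ofNat (nat_lit 3071085292119545357743)), (.negSucc (nat_lit 3071085292119545357742)), (.negSucc (nat_lit 3071085292119545357742)), (.ofNat (nat_lit 3071085292119545357743)), (.ofNat (nat_lit 0))⟩,
    ⟨nat_lit 2, nat_lit 6, nat_lit 5, (.ofNat (nat_lit 8)), (.negSucc (nat_lit 401981503)), (.ofNat (nat_lit 2039282595091654203967859445184)), (.negSucc (nat_lit 2359295)), (.ofNat (nat_lit 10465865576626019277382352896)), (.negSucc (nat_lit 401981519)), (.negSucc (nat_lit 401981487)), (.negSucc (nat_lit 3071085292119545357742)), (.ofNat (nat_lit 3071085292119545357743)), (.negSucc (nat_lit 3071085292119545357742)), (.ofNat (nat_lit 3071085292119545357743)), (.ofNat (nat_lit 0))⟩,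
    ⟨nat_lit 0, nat_lit 7, nat_lit 8, (.ofNat (nat_lit 8)), (.negSucc (nat_lit 181157951)), (.ofNat (nat_lit 2073397291538540939881634614720)), (.negSucc (nat_lit 524287)), (.ofNat (nat_lit 9660798993808633179122171904)), (.negSucc (nat_lit 181157967)), (.negSucc (nat_lit 181157935)), (.ofNat (nat_lit 3071085292119545357743)), (.negSucc (nat_lit 3071085292119545357742)), (.negSucc (nat_lit 3071085292119545357742)), (.ofNat (nat_lit 3071085292119545357743)), (.ofNat (nat_lit 0))⟩,
    ⟨nat_lit 0, nat_lit 8, nat_lit 9, (.ofNat (nat_lit 8)), (.ofNat (nat_lit 223657728)), (.ofNat (nat_lit 830173810671168544596058804480)), (.ofNat (nat_lit 1310720)), (.ofNat (nat_lit 4025332914086930491300904960)), (.ofNat (nat_lit 223657712)), (.ofNat (nat_lit 223657744)), (.negSucc (nat_lit 3071085292119545357742)), (.ofNat (nat_lit 3071085292119545357743)), (.negSucc (nat_lit 3071085292119545357742)), (.ofNat (nat_lit 3071085292119545357743)), (.ofNat (nat_lit 0))⟩,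
    ⟨nat_lit 1, nat_lit 9, nat_lit 10, (.ofNat (nat_lit 8)), (.ofNat (nat_lit 485277312)), (.ofNat (nat_lit 1633629867224002479357913643392)), (.ofNat (nat_lit 53280704)), (.ofNat (nat_lit 163629586408175028820478891072)), (.ofNat (nat_lit 485277296)), (.ofNat (nat_lit 485277328)), (.ofNat (nat_lit 3071085292119545357743)), (.negSucc (nat_lit 3071085292119545357742)), (.negSucc (nat_lit 3071085292119545357742)), (.ofNat (nat_lit 3071085292119545357743)), (.ofNat (nat_lit 0))⟩,
    ⟨nat_lit 0, nat_lit 11, nat_lit 10, (.ofNat (nat_lit 8)), (.ofNat (nat_lit 183877440)), (.ofNat (nat_lit 2559254581169916058879848052288)), (.ofNat (nat_lit 52232128)), (.ofNat (nat_lit 166849852739444573213519615040)), (.ofNat (nat_lit 183877424)), (.ofNat (nat_lit 183877456)), (.ofNat (nat_lit 3071085292119545357743)), (.negSucc (nat_lit 3071085292119545357742)), (.negSucc (nat_lit 3071085292119545357742)), (.ofNat (nat_lit 3071085292119545357743)), (.ofNat (nat_lit 0))⟩,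
    ⟨nat_lit 2, nat_lit 12, nat_lit 11, (.ofNat (nat_lit 8)), (.ofNat (nat_lit 56278912)), (.ofNat (nat_lit 2167388618533012071202607849984)), (.ofNat (nat_lit 51707840)), (.ofNat (nat_lit 165239719573809801016999253056)), (.ofNat (nat_lit 56278896)), (.ofNat (nat_lit 56278928)), (.negSucc (nat_lit 3071085292119545357742)), (.ofNat (nat_lit 3071085292119545357743)), (.negSucc (nat_lit 3071085292119545357742)), (.ofNat (nat_lit 3071085292119545357743)), (.ofNat (nat_lit 0))⟩,
    ⟨nat_lit 1, nat_lit 13, nat_lit 12, (.ofNat (nat_lit 8)), (.ofNat (nat_lit 235454208)), (.ofNat (nat_lit 1617126002276246064343579933056)), (.ofNat (nat_lit 52232128)), (.ofNat (nat_lit 163629586408175028820478891072)), (.ofNat (nat_lit 235454192)), (.ofNat (nat_lit 235454224)), (.ofNat (nat_lit 3071085292119545357743)), (.negSucc (nat_lit 3071085292119545357742)), (.negSucc (nat_lit 3071085292119545357742)), (.ofNat (nat_lit 3071085292119545357743)), (.ofNat (nat_lit 0))⟩,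
    ⟨nat_lit 0, nat_lit 14, nat_lit 13, (.ofNat (nat_lit 8)), (.ofNat (nat_lit 112049984)), (.ofNat (nat_lit 1238141104964420254238502626624)), (.ofNat (nat_lit 1048576)), (.ofNat (nat_lit 6440532662539088786081447936)), (.ofNat (nat_lit 112049968)), (.ofNat (nat_lit 112050000)), (.negSucc (nat_lit 3071085292119545357742)), (.ofNat (nat_lit 3071085292119545357743)), (.negSucc (nat_lit 3071085292119545357742)), (.ofNat (nat_lit 3071085292119545357743)), (.ofNat (nat_lit 0))⟩,
    ⟨nat_lit 0, nat_lit 15, nat_lit 14, (.ofNat (nat_lit 8)), (.negSucc (nat_lit 189939775)), (.ofNat (nat_lit 2165577415271131648132425338304)), (.negSucc (nat_lit 524287)), (.ofNat (nat_lit 11270932159443405375642533888)), (.negSucc (nat_lit 189939791)), (.negSucc (nat_lit 189939759)), (.ofNat (nat_lit 3071085292119545357743)), (.negSucc (nat_lit 3071085292119545357742)), (.negSucc (nat_lit 3071085292119545357742)), (.ofNat (nat_lit 3071085292119545357743)), (.ofNat (nat_lit 0))⟩,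
    ⟨nat_lit 0, nat_lit 6, nat_lit 15, (.ofNat (nat_lit 8)), (.negSucc (nat_lit 316522559)), (.ofNat (nat_lit 1776830889093186335935040441792)), (.negSucc (nat_lit 1572863)), (.ofNat (nat_lit 8050665828173860982601809920)), (.negSucc (nat_lit 316522575)), (.negSucc (nat_lit 316522543)), (.negSucc (nat_lit 3071085292119545357742)), (.ofNat (nat_lit 3071085292119545357743)), (.negSucc (nat_lit 3071085292119545357742)), (.ofNat (nat_lit 3071085292119545357743)), (.ofNat (nat_lit 0))⟩,
    ⟨nat_lit 0, nat_lit 23, nat_lit 16, (.ofNat (nat_lit 8)), (.negSucc (nat_lit 85524479)), (.ofNat (nat_lit 526714418709357463484917622912)), (.negSucc (nat_lit 262143)), (.ofNat (nat_lit 805066582817386098260180992)), (.negSucc (nat_lit 85524495)), (.negSucc (nat_lit 85524463)), (.negSucc (nat_lit 3071085292119545357742)), (.ofNat (nat_lit 3071085292119545357743)), (.negSucc (nat_lit 3071085292119545357742)), (.ofNat (nat_lit 3071085292119545357743)), (.ofNat (nat_lit 0))⟩,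
    ⟨nat_lit 1, nat_lit 16, nat_lit 17, (.ofNat (nat_lit 8)), (.ofNat (nat_lit 356040384)), (.ofNat (nat_lit 1882797778056524781118536764864)), (.ofNat (nat_lit 52756416)), (.ofNat (nat_lit 163629586408175028820478891072)), (.ofNat (nat_lit 356040368)), (.ofNat (nat_lit 356040400)), (.ofNat (nat_lit 3071085292119545357743)), (.negSucc (nat_lit 3071085292119545357742)), (.negSucc (nat_lit 3071085292119545357742)), (.ofNat (nat_lit 3071085292119545357743)), (.ofNat (nat_lit 0))⟩,
    ⟨nat_lit 0, nat_lit 18, nat_lit 17, (.ofNat (nat_lit 8)), (.ofNat (nat_lit 138067776)), (.ofNat (nat_lit 2552210248570263930520071468608)), (.ofNat (nat_lit 51707840)), (.ofNat (nat_lit 166849852739444573213519615040)), (.ofNat (nat_lit 138067760)), (.ofNat (nat_lit 138067792)), (.ofNat (nat_lit 3071085292119545357743)), (.negSucc (nat_lit 3071085292119545357742)), (.negSucc (nat_lit 3071085292119545357742)), (.ofNat (nat_lit 3071085292119545357743)), (.ofNat (nat_lit 0))⟩,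
    ⟨nat_lit 0, nat_lit 19, nat_lit 18, (.ofNat (nat_lit 8)), (.negSucc (nat_lit 172245055)), (.ofNat (nat_lit 1599213074259100528006388010432)), (.negSucc (nat_lit 524287)), (.ofNat (nat_lit 6440532662539088786081447936)), (.negSucc (nat_lit 172245071)), (.negSucc (nat_lit 172245039)), (.negSucc (nat_lit 3071085292119545357742)), (.ofNat (nat_lit 3071085292119545357743)), (.negSucc (nat_lit 3071085292119545357742)), (.ofNat (nat_lit 3071085292119545357743)), (.ofNat (nat_lit 0))⟩,
    ⟨nat_lit 2, nat_lit 19, nat_lit 20, (.ofNat (nat_lit 8)), (.negSucc (nat_lit 315244607)), (.ofNat (nat_lit 2038376895185984644607316741568)), (.negSucc (nat_lit 1572863)), (.ofNat (nat_lit 9660798993808633179122171904)), (.negSucc (nat_lit 315244623)), (.negSucc (nat_lit 315244591)), (.negSucc (nat_lit 3071085292119545357742)), (.ofNat (nat_lit 3071085292119545357743)), (.negSucc (nat_lit 3071085292119545357742)), (.ofNat (nat_lit 3071085292119545357743)), (.ofNat (nat_lit 0))⟩,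
    ⟨nat_lit 0, nat_lit 20, nat_lit 21, (.ofNat (nat_lit 8)), (.negSucc (nat_lit 183189567)), (.ofNat (nat_lit 2443929186280242891605882916288)), (.negSucc (nat_lit 524287)), (.ofNat (nat_lit 12881065325078177572162895872)), (.negSucc (nat_lit 183189583)), (.negSucc (nat_lit 183189551)), (.ofNat (nat_lit 3071085292119545357743)), (.negSucc (nat_lit 3071085292119545357742)), (.negSucc (nat_lit 3071085292119545357742)), (.ofNat (nat_lit 3071085292119545357743)), (.ofNat (nat_lit 0))⟩,
    ⟨nat_lit 1, nat_lit 22, nat_lit 21, (.ofNat (nat_lit 8)), (.ofNat (nat_lit 52346752)), (.ofNat (nat_lit 1720577058168280177970013190528)), (.ofNat (nat_lit 1048576)), (.ofNat (nat_lit 8050665828173860982601809920)), (.ofNat (nat_lit 52346736)), (.ofNat (nat_lit 52346768)), (.ofNat (nat_lit 3071085292119545357743)), (.negSucc (nat_lit 3071085292119545357742)), (.negSucc (nat_lit 3071085292119545357742)), (.ofNat (nat_lit 3071085292119545357743)), (.ofNat (nat_lit 0))⟩,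
    ⟨nat_lit 2, nat_lit 23, nat_lit 7, (.ofNat (nat_lit 8)), (.negSucc (nat_lit 385154943)), (.ofNat (nat_lit 1446905129770712382494498705664)), (.negSucc (nat_lit 1835007)), (.ofNat (nat_lit 5635466079721702687821266944)), (.negSucc (nat_lit 385154959)), (.negSucc (nat_lit 385154927)), (.negSucc (nat_lit 3071085292119545357742)), (.ofNat (nat_lit 3071085292119545357743)), (.negSucc (nat_lit 3071085292119545357742)), (.ofNat (nat_lit 3071085292119545357743)), (.ofNat (nat_lit 0))⟩]
  es := [
    ⟨nat_lit 1, nat_lit 0, (.negSucc (nat_lit 450166655)), (.negSucc (nat_lit 192872383)), (.negSucc (nat_lit 450166639)), (.negSucc (nat_lit 192872399)), (.negSucc (nat_lit 3071085292119545357742)), (.ofNat (nat_lit 0)), (.ofNat (nat_lit 1610133165634772196520361984))⟩,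
    ⟨nat_lit 1, nat_lit 2, (.negSucc (nat_lit 450166655)), (.negSucc (nat_lit 312950847)), (.negSucc (nat_lit 450166639)), (.negSucc (nat_lit 312950863)), (.ofNat (nat_lit 3071085292119545357743)), (.ofNat (nat_lit 0)), (.ofNat (nat_lit 16101331656347721965203619840))⟩,
    ⟨nat_lit 2, nat_lit 3, (.negSucc (nat_lit 312950847)), (.negSucc (nat_lit 169951295)), (.negSucc (nat_lit 312950831)), (.negSucc (nat_lit 169951311)), (.negSucc (nat_lit 3071085292119545357742)), (.ofNat (nat_lit 0)), (.ofNat (nat_lit 6440532662539088786081447936))⟩,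
    ⟨nat_lit 3, nat_lit 4, (.negSucc (nat_lit 169951295)), (.ofNat (nat_lit 164413248)), (.negSucc (nat_lit 169951279)), (.ofNat (nat_lit 164413232)), (.ofNat (nat_lit 3071085292119545357743)), (.ofNat (nat_lit 0)), (.ofNat (nat_lit 9660798993808633179122171904))⟩,
    ⟨nat_lit 5, nat_lit 4, (.negSucc (nat_lit 344255)), (.ofNat (nat_lit 164413248)), (.negSucc (nat_lit 344239)), (.ofNat (nat_lit 164413232)), (.negSucc (nat_lit 3071085292119545357742)), (.ofNat (nat_lit 0)), (.ofNat (nat_lit 328869305981984829837478144128))⟩,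
    ⟨nat_lit 6, nat_lit 5, (.negSucc (nat_lit 401981503)), (.negSucc (nat_lit 344255)), (.negSucc (nat_lit 401981487)), (.negSucc (nat_lit 344271)), (.ofNat (nat_lit 3071085292119545357743)), (.ofNat (nat_lit 0)), (.ofNat (nat_lit 17711464821982494161723981824))⟩,
    ⟨nat_lit 6, nat_lit 15, (.negSucc (nat_lit 401981503)), (.negSucc (nat_lit 316522559)), (.negSucc (nat_lit 401981487)), (.negSucc (nat_lit 316522575)), (.negSucc (nat_lit 3071085292119545357742)), (.ofNat (nat_lit 0)), (.ofNat (nat_lit 3220266331269544393040723968))⟩,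
    ⟨nat_lit 23, nat_lit 7, (.negSucc (nat_lit 385154943)), (.negSucc (nat_lit 181157951)), (.negSucc (nat_lit 385154927)), (.negSucc (nat_lit 181157967)), (.ofNat (nat_lit 3071085292119545357743)), (.ofNat (nat_lit 0)), (.ofNat (nat_lit 11270932159443405375642533888))⟩,
    ⟨nat_lit 7, nat_lit 8, (.negSucc (nat_lit 181157951)), (.ofNat (nat_lit 223657728)), (.negSucc (nat_lit 181157935)), (.ofNat (nat_lit 223657712)), (.negSucc (nat_lit 3071085292119545357742)), (.ofNat (nat_lit 0)), (.ofNat (nat_lit 8050665828173860982601809920))⟩,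
    ⟨nat_lit 8, nat_lit 9, (.ofNat (nat_lit 223657728)), (.ofNat (nat_lit 485277312)), (.ofNat (nat_lit 223657744)), (.ofNat (nat_lit 485277296)), (.ofNat (nat_lit 3071085292119545357743)), (.ofNat (nat_lit 0)), (.ofNat (nat_lit 0))⟩,
    ⟨nat_lit 10, nat_lit 9, (.ofNat (nat_lit 183877440)), (.ofNat (nat_lit 485277312)), (.ofNat (nat_lit 183877456)), (.ofNat (nat_lit 485277296)), (.negSucc (nat_lit 3071085292119545357742)), (.ofNat (nat_lit 0)), (.ofNat (nat_lit 327259172816350057640957782144))⟩,
    ⟨nat_lit 11, nat_lit 10, (.ofNat (nat_lit 56278912)), (.ofNat (nat_lit 183877440)), (.ofNat (nat_lit 56278928)), (.ofNat (nat_lit 183877424)), (.ofNat (nat_lit 3071085292119545357743)), (.ofNat (nat_lit 0)), (.ofNat (nat_lit 6440532662539088786081447936))⟩,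
    ⟨nat_lit 11, nat_lit 12, (.ofNat (nat_lit 56278912)), (.ofNat (nat_lit 235454208)), (.ofNat (nat_lit 56278928)), (.ofNat (nat_lit 235454192)), (.negSucc (nat_lit 3071085292119545357742)), (.ofNat (nat_lit 0)), (.ofNat (nat_lit 324038906485080513247917058176))⟩,
    ⟨nat_lit 13, nat_lit 12, (.ofNat (nat_lit 112049984)), (.ofNat (nat_lit 235454208)), (.ofNat (nat_lit 112050000)), (.ofNat (nat_lit 235454192)), (.ofNat (nat_lit 3071085292119545357743)), (.ofNat (nat_lit 0)), (.ofNat (nat_lit 3220266331269544393040723968))⟩,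
    ⟨nat_lit 14, nat_lit 13, (.negSucc (nat_lit 189939775)), (.ofNat (nat_lit 112049984)), (.negSucc (nat_lit 189939759)), (.ofNat (nat_lit 112049968)), (.negSucc (nat_lit 3071085292119545357742)), (.ofNat (nat_lit 0)), (.ofNat (nat_lit 9660798993808633179122171904))⟩,
    ⟨nat_lit 15, nat_lit 14, (.negSucc (nat_lit 316522559)), (.negSucc (nat_lit 189939775)), (.negSucc (nat_lit 316522543)), (.negSucc (nat_lit 189939791)), (.ofNat (nat_lit 3071085292119545357743)), (.ofNat (nat_lit 0)), (.ofNat (nat_lit 12881065325078177572162895872))⟩,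
    ⟨nat_lit 16, nat_lit 17, (.negSucc (nat_lit 85524479)), (.ofNat (nat_lit 356040384)), (.negSucc (nat_lit 85524463)), (.ofNat (nat_lit 356040368)), (.ofNat (nat_lit 3071085292119545357743)), (.ofNat (nat_lit 0)), (.ofNat (nat_lit 1610133165634772196520361984))⟩,
    ⟨nat_lit 18, nat_lit 17, (.ofNat (nat_lit 138067776)), (.ofNat (nat_lit 356040384)), (.ofNat (nat_lit 138067792)), (.ofNat (nat_lit 356040368)), (.negSucc (nat_lit 3071085292119545357742)), (.ofNat (nat_lit 0)), (.ofNat (nat_lit 325649039650715285444437420160))⟩,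
    ⟨nat_lit 19, nat_lit 18, (.negSucc (nat_lit 172245055)), (.ofNat (nat_lit 138067776)), (.negSucc (nat_lit 172245039)), (.ofNat (nat_lit 138067760)), (.ofNat (nat_lit 3071085292119545357743)), (.ofNat (nat_lit 0)), (.ofNat (nat_lit 8050665828173860982601809920))⟩,
    ⟨nat_lit 20, nat_lit 19, (.negSucc (nat_lit 315244607)), (.negSucc (nat_lit 172245055)), (.negSucc (nat_lit 315244591)), (.negSucc (nat_lit 172245071)), (.negSucc (nat_lit 3071085292119545357742)), (.ofNat (nat_lit 0)), (.ofNat (nat_lit 4830399496904316589561085952))⟩,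
    ⟨nat_lit 20, nat_lit 21, (.negSucc (nat_lit 315244607)), (.negSucc (nat_lit 183189567)), (.negSucc (nat_lit 315244591)), (.negSucc (nat_lit 183189583)), (.ofNat (nat_lit 3071085292119545357743)), (.ofNat (nat_lit 0)), (.ofNat (nat_lit 14491198490712949768683257856))⟩,
    ⟨nat_lit 21, nat_lit 22, (.negSucc (nat_lit 183189567)), (.ofNat (nat_lit 52346752)), (.negSucc (nat_lit 183189551)), (.ofNat (nat_lit 52346736)), (.negSucc (nat_lit 3071085292119545357742)), (.ofNat (nat_lit 0)), (.ofNat (nat_lit 11270932159443405375642533888))⟩,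
    ⟨nat_lit 0, nat_lit 22, (.negSucc (nat_lit 192872383)), (.ofNat (nat_lit 52346752)), (.negSucc (nat_lit 192872367)), (.ofNat (nat_lit 52346736)), (.ofNat (nat_lit 3071085292119545357743)), (.ofNat (nat_lit 0)), (.ofNat (nat_lit 4830399496904316589561085952))⟩,
    ⟨nat_lit 23, nat_lit 16, (.negSucc (nat_lit 385154943)), (.negSucc (nat_lit 85524479)), (.negSucc (nat_lit 385154927)), (.negSucc (nat_lit 85524495)), (.negSucc (nat_lit 3071085292119545357742)), (.ofNat (nat_lit 0)), (.ofNat (nat_lit 0))⟩]

theorem ok45 : stOK 23 23 S45 = true := by decide +kernel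

def S46 : SD where
  vs := [
    ⟨nat_lit 0, nat_lit 0, nat_lit 22, (.ofNat (nat_lit 8)), (.negSucc (nat_lit 280952703)), (.ofNat (nat_lit 1239600484695235462192502100224)), (.negSucc (nat_lit 88080319)), (.ofNat (nat_lit 272112308442817805561038279744)), (.negSucc (nat_lit 280952719)), (.negSucc (nat_lit 280952687)), (.negSucc (nat_lit 3071085292119545357742)), (.ofNat (nat_lit 3071085292119545357743)), (.negSucc (nat_lit 3071085292119545357742)), (.ofNat (nat_lit 3071085292119545357743)), (.ofNat (nat_lit 0))⟩,
    ⟨nat_lit 2, nat_lit 0, nat_lit 1, (.ofNat (nat_lit 8)), (.negSucc (nat_lit 539819839)), (.ofNat (nat_lit 2034603538677945538573527934272)), (.negSucc (nat_lit 89653183)), (.ofNat (nat_lit 276942707939722122150599365696)), (.negSucc (nat_lit 539819855)), (.negSucc (nat_lit 539819823)), (.negSucc (nat_lit 3071085292119545357742)), (.ofNat (nat_lit 3071085292119545357743)), (.negSucc (nat_lit 3071085292119545357742)), (.ofNat (nat_lit 3071085292119545357743)), (.ofNat (nat_lit 0))⟩,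
    ⟨nat_lit 0, nat_lit 1, nat_lit 2, (.ofNat (nat_lit 8)), (.negSucc (nat_lit 401817599)), (.ofNat (nat_lit 2458420188221497145723663278592)), (.negSucc (nat_lit 88866751)), (.ofNat (nat_lit 279357907688174280445379908672)), (.negSucc (nat_lit 401817615)), (.negSucc (nat_lit 401817583)), (.ofNat (nat_lit 3071085292119545357743)), (.negSucc (nat_lit 3071085292119545357742)), (.negSucc (nat_lit 3071085292119545357742)), (.ofNat (nat_lit 3071085292119545357743)), (.ofNat (nat_lit 0))⟩,
    ⟨nat_lit 0, nat_lit 2, nat_lit 3, (.ofNat (nat_lit 8)), (.negSucc (nat_lit 257769471)), (.ofNat (nat_lit 2016036100963343484729693823488)), (.negSucc (nat_lit 87818175)), (.ofNat (nat_lit 276137641356904736052339184704)), (.negSucc (nat_lit 257769487)), (.negSucc (nat_lit 257769455)), (.negSucc (nat_lit 3071085292119545357742)), (.ofNat (nat_lit 3071085292119545357743)), (.negSucc (nat_lit 3071085292119545357742)), (.ofNat (nat_lit 3071085292119545357743)), (.ofNat (nat_lit 0))⟩,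
    ⟨nat_lit 1, nat_lit 3, nat_lit 4, (.ofNat (nat_lit 8)), (.ofNat (nat_lit 78430080)), (.ofNat (nat_lit 3048533600327723764446570154624)), (.negSucc (nat_lit 85983167)), (.ofNat (nat_lit 281773107436626438740160451648)), (.ofNat (nat_lit 78430064)), (.ofNat (nat_lit 78430096)), (.ofNat (nat_lit 3071085292119545357743)), (.negSucc (nat_lit 3071085292119545357742)), (.negSucc (nat_lit 3071085292119545357742)), (.ofNat (nat_lit 3071085292119545357743)), (.ofNat (nat_lit 0))⟩,
    ⟨nat_lit 0, nat_lit 5, nat_lit 4, (.ofNat (nat_lit 8)), (.negSucc (nat_lit 87638143)), (.ofNat (nat_lit 3558543280542537857694394813056)), (.negSucc (nat_lit 87293887)), (.ofNat (nat_lit 285798440350713369231461356608)), (.negSucc (nat_lit 87638159)), (.negSucc (nat_lit 87638127)), (.ofNat (nat_lit 3071085292119545357743)), (.negSucc (nat_lit 3071085292119545357742)), (.negSucc (nat_lit 3071085292119545357742)), (.ofNat (nat_lit 3071085292119545357743)), (.ofNat (nat_lit 0))⟩,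
    ⟨nat_lit 2, nat_lit 6, nat_lit 5, (.ofNat (nat_lit 8)), (.negSucc (nat_lit 491634687)), (.ofNat (nat_lit 2317835436197011098314979172864)), (.negSucc (nat_lit 89653183)), (.ofNat (nat_lit 278552841105356894347119727680)), (.negSucc (nat_lit 491634703)), (.negSucc (nat_lit 491634671)), (.negSucc (nat_lit 3071085292119545357742)), (.ofNat (nat_lit 3071085292119545357743)), (.negSucc (nat_lit 3071085292119545357742)), (.ofNat (nat_lit 3071085292119545357743)), (.ofNat (nat_lit 0))⟩,
    ⟨nat_lit 0, nat_lit 7, nat_lit 8, (.ofNat (nat_lit 8)), (.negSucc (nat_lit 268976127)), (.ofNat (nat_lit 2351145066061080448130494161408)), (.negSucc (nat_lit 87818175)), (.ofNat (nat_lit 277747774522539508248859546688)), (.negSucc (nat_lit 268976143)), (.negSucc (nat_lit 268976111)), (.ofNat (nat_lit 3071085292119545357743)), (.negSucc (nat_lit 3071085292119545357742)), (.negSucc (nat_lit 3071085292119545357742)), (.ofNat (nat_lit 3071085292119545357743)), (.ofNat (nat_lit 0))⟩,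
    ⟨nat_lit 0, nat_lit 8, nat_lit 9, (.ofNat (nat_lit 8)), (.ofNat (nat_lit 224968448)), (.ofNat (nat_lit 834199143585255475087359709440)), (.ofNat (nat_lit 1310720)), (.ofNat (nat_lit 4025332914086930491300904960)), (.ofNat (nat_lit 224968432)), (.ofNat (nat_lit 224968464)), (.negSucc (nat_lit 3071085292119545357742)), (.ofNat (nat_lit 3071085292119545357743)), (.negSucc (nat_lit 3071085292119545357742)), (.ofNat (nat_lit 3071085292119545357743)), (.ofNat (nat_lit 0))⟩,
    ⟨nat_lit 1, nat_lit 9, nat_lit 10, (.ofNat (nat_lit 8)), (.ofNat (nat_lit 487898752)), (.ofNat (nat_lit 1641680533052176340340515453312)), (.ofNat (nat_lit 2621440)), (.ofNat (nat_lit 8050665828173860982601809920)), (.ofNat (nat_lit 487898736)), (.ofNat (nat_lit 487898768)), (.ofNat (nat_lit 3071085292119545357743)), (.negSucc (nat_lit 3071085292119545357742)), (.negSucc (nat_lit 3071085292119545357742)), (.ofNat (nat_lit 3071085292119545357743)), (.ofNat (nat_lit 0))⟩,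
    ⟨nat_lit 0, nat_lit 11, nat_lit 10, (.ofNat (nat_lit 8)), (.ofNat (nat_lit 185712448)), (.ofNat (nat_lit 2569720446746542078157230405184)), (.ofNat (nat_lit 1835008)), (.ofNat (nat_lit 10465865576626019277382352896)), (.ofNat (nat_lit 185712432)), (.ofNat (nat_lit 185712464)), (.ofNat (nat_lit 3071085292119545357743)), (.negSucc (nat_lit 3071085292119545357742)), (.negSucc (nat_lit 3071085292119545357742)), (.ofNat (nat_lit 3071085292119545357743)), (.ofNat (nat_lit 0))⟩,
    ⟨nat_lit 2, nat_lit 12, nat_lit 11, (.ofNat (nat_lit 8)), (.ofNat (nat_lit 57589632)), (.ofNat (nat_lit 2176244350944003318283469840896)), (.ofNat (nat_lit 1310720)), (.ofNat (nat_lit 8855732410991247080861990912)), (.ofNat (nat_lit 57589616)), (.ofNat (nat_lit 57589648)), (.negSucc (nat_lit 3071085292119545357742)), (.ofNat (nat_lit 3071085292119545357743)), (.negSucc (nat_lit 3071085292119545357742)), (.ofNat (nat_lit 3071085292119545357743)), (.ofNat (nat_lit 0))⟩,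
    ⟨nat_lit 1, nat_lit 13, nat_lit 12, (.ofNat (nat_lit 8)), (.ofNat (nat_lit 237027072)), (.ofNat (nat_lit 1625176668104419925326181742976)), (.ofNat (nat_lit 1572864)), (.ofNat (nat_lit 8050665828173860982601809920)), (.ofNat (nat_lit 237027056)), (.ofNat (nat_lit 237027088)), (.ofNat (nat_lit 3071085292119545357743)), (.negSucc (nat_lit 3071085292119545357742)), (.negSucc (nat_lit 3071085292119545357742)), (.ofNat (nat_lit 3071085292119545357743)), (.ofNat (nat_lit 0))⟩,
    ⟨nat_lit 0, nat_lit 14, nat_lit 13, (.ofNat (nat_lit 8)), (.ofNat (nat_lit 113098560)), (.ofNat (nat_lit 1244581637626959343024584074560)), (.ofNat (nat_lit 1048576)), (.ofNat (nat_lit 6440532662539088786081447936)), (.ofNat (nat_lit 113098544)), (.ofNat (nat_lit 113098576)), (.negSucc (nat_lit 3071085292119545357742)), (.ofNat (nat_lit 3071085292119545357743)), (.negSucc (nat_lit 3071085292119545357742)), (.ofNat (nat_lit 3071085292119545357743)), (.ofNat (nat_lit 0))⟩,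
    ⟨nat_lit 0, nat_lit 15, nat_lit 14, (.ofNat (nat_lit 8)), (.negSucc (nat_lit 277757951)), (.ofNat (nat_lit 2444935322959305928577805246976)), (.negSucc (nat_lit 87818175)), (.ofNat (nat_lit 279357907688174280445379908672)), (.negSucc (nat_lit 277757967)), (.negSucc (nat_lit 277757935)), (.ofNat (nat_lit 3071085292119545357743)), (.negSucc (nat_lit 3071085292119545357742)), (.negSucc (nat_lit 3071085292119545357742)), (.ofNat (nat_lit 3071085292119545357743)), (.ofNat (nat_lit 0))⟩,
    ⟨nat_lit 0, nat_lit 6, nat_lit 15, (.ofNat (nat_lit 8)), (.negSucc (nat_lit 405389311)), (.ofNat (nat_lit 2052968530450091071987379626496)), (.negSucc (nat_lit 88866751)), (.ofNat (nat_lit 276137641356904736052339184704)), (.negSucc (nat_lit 405389327)), (.negSucc (nat_lit 405389295)), (.negSucc (nat_lit 3071085292119545357742)), (.ofNat (nat_lit 3071085292119545357743)), (.negSucc (nat_lit 3071085292119545357742)), (.ofNat (nat_lit 3071085292119545357743)), (.ofNat (nat_lit 0))⟩,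
    ⟨nat_lit 0, nat_lit 23, nat_lit 16, (.ofNat (nat_lit 8)), (.negSucc (nat_lit 85786623)), (.ofNat (nat_lit 527519485292174849583177803904)), (.negSucc (nat_lit 262143)), (.ofNat (nat_lit 805066582817386098260180992)), (.negSucc (nat_lit 85786639)), (.negSucc (nat_lit 85786607)), (.negSucc (nat_lit 3071085292119545357742)), (.ofNat (nat_lit 3071085292119545357743)), (.negSucc (nat_lit 3071085292119545357742)), (.ofNat (nat_lit 3071085292119545357743)), (.ofNat (nat_lit 0))⟩,
    ⟨nat_lit 1, nat_lit 16, nat_lit 17, (.ofNat (nat_lit 8)), (.ofNat (nat_lit 358137536)), (.ofNat (nat_lit 1890848443884698642101138574784)), (.ofNat (nat_lit 2097152)), (.ofNat (nat_lit 8050665828173860982601809920)), (.ofNat (nat_lit 358137520)), (.ofNat (nat_lit 358137552)), (.ofNat (nat_lit 3071085292119545357743)), (.negSucc (nat_lit 3071085292119545357742)), (.negSucc (nat_lit 3071085292119545357742)), (.ofNat (nat_lit 3071085292119545357743)), (.ofNat (nat_lit 0))⟩,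
    ⟨nat_lit 0, nat_lit 18, nat_lit 17, (.ofNat (nat_lit 8)), (.ofNat (nat_lit 51822464)), (.ofNat (nat_lit 2831568156258438210965451377280)), (.negSucc (nat_lit 86245311)), (.ofNat (nat_lit 279357907688174280445379908672)), (.ofNat (nat_lit 51822448)), (.ofNat (nat_lit 51822480)), (.ofNat (nat_lit 3071085292119545357743)), (.negSucc (nat_lit 3071085292119545357742)), (.negSucc (nat_lit 3071085292119545357742)), (.ofNat (nat_lit 3071085292119545357743)), (.ofNat (nat_lit 0))⟩,
    ⟨nat_lit 0, nat_lit 19, nat_lit 18, (.ofNat (nat_lit 8)), (.negSucc (nat_lit 260063231)), (.ofNat (nat_lit 1873740582450370491862206833152)), (.negSucc (nat_lit 87818175)), (.ofNat (nat_lit 274527508191269963855818822720)), (.negSucc (nat_lit 260063247)), (.negSucc (nat_lit 260063215)), (.negSucc (nat_lit 3071085292119545357742)), (.ofNat (nat_lit 3071085292119545357743)), (.negSucc (nat_lit 3071085292119545357742)), (.ofNat (nat_lit 3071085292119545357743)), (.ofNat (nat_lit 0))⟩,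
    ⟨nat_lit 2, nat_lit 19, nat_lit 20, (.ofNat (nat_lit 8)), (.negSucc (nat_lit 404111359)), (.ofNat (nat_lit 2316124669708524152856176288256)), (.negSucc (nat_lit 88866751)), (.ofNat (nat_lit 277747774522539508248859546688)), (.negSucc (nat_lit 404111375)), (.negSucc (nat_lit 404111343)), (.negSucc (nat_lit 3071085292119545357742)), (.ofNat (nat_lit 3071085292119545357743)), (.negSucc (nat_lit 3071085292119545357742)), (.ofNat (nat_lit 3071085292119545357743)), (.ofNat (nat_lit 0))⟩,
    ⟨nat_lit 0, nat_lit 20, nat_lit 21, (.ofNat (nat_lit 8)), (.negSucc (nat_lit 271007743)), (.ofNat (nat_lit 2724897227134051944247783186944)), (.negSucc (nat_lit 87818175)), (.ofNat (nat_lit 280968040853809052641900270656)), (.negSucc (nat_lit 271007759)), (.negSucc (nat_lit 271007727)), (.ofNat (nat_lit 3071085292119545357743)), (.negSucc (nat_lit 3071085292119545357742)), (.negSucc (nat_lit 3071085292119545357742)), (.ofNat (nat_lit 3071085292119545357743)), (.ofNat (nat_lit 0))⟩,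
    ⟨nat_lit 1, nat_lit 22, nat_lit 21, (.ofNat (nat_lit 8)), (.negSucc (nat_lit 34160703)), (.ofNat (nat_lit 1997519766108002300120612556224)), (.negSucc (nat_lit 86507455)), (.ofNat (nat_lit 276942707939722122150599365696)), (.negSucc (nat_lit 34160719)), (.negSucc (nat_lit 34160687)), (.ofNat (nat_lit 3071085292119545357743)), (.negSucc (nat_lit 3071085292119545357742)), (.negSucc (nat_lit 3071085292119545357742)), (.ofNat (nat_lit 3071085292119545357743)), (.ofNat (nat_lit 0))⟩,
    ⟨nat_lit 2, nat_lit 23, nat_lit 7, (.ofNat (nat_lit 8)), (.negSucc (nat_lit 474283839)), (.ofNat (nat_lit 1720627571379164960252057347392)), (.negSucc (nat_lit 89128895)), (.ofNat (nat_lit 273722441608452577757558641728)), (.negSucc (nat_lit 474283855)), (.negSucc (nat_lit 474283823)), (.negSucc (nat_lit 3071085292119545357742)), (.ofNat (nat_lit 3071085292119545357743)), (.negSucc (nat_lit 3071085292119545357742)), (.ofNat (nat_lit 3071085292119545357743)), (.ofNat (nat_lit 0))⟩]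
  es := [
    ⟨nat_lit 1, nat_lit 0, (.negSucc (nat_lit 539819839)), (.negSucc (nat_lit 280952703)), (.negSucc (nat_lit 539819823)), (.negSucc (nat_lit 280952719)), (.negSucc (nat_lit 3071085292119545357742)), (.ofNat (nat_lit 0)), (.ofNat (nat_lit 1610133165634772196520361984))⟩,
    ⟨nat_lit 1, nat_lit 2, (.negSucc (nat_lit 539819839)), (.negSucc (nat_lit 401817599)), (.negSucc (nat_lit 539819823)), (.negSucc (nat_lit 401817615)), (.ofNat (nat_lit 3071085292119545357743)), (.ofNat (nat_lit 0)), (.ofNat (nat_lit 552275282713809472104678369408))⟩,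
    ⟨nat_lit 2, nat_lit 3, (.negSucc (nat_lit 401817599)), (.negSucc (nat_lit 257769471)), (.negSucc (nat_lit 401817583)), (.negSucc (nat_lit 257769487)), (.negSucc (nat_lit 3071085292119545357742)), (.ofNat (nat_lit 0)), (.ofNat (nat_lit 6440532662539088786081447936))⟩,
    ⟨nat_lit 3, nat_lit 4, (.negSucc (nat_lit 257769471)), (.ofNat (nat_lit 78430080)), (.negSucc (nat_lit 257769455)), (.ofNat (nat_lit 78430064)), (.ofNat (nat_lit 3071085292119545357743)), (.ofNat (nat_lit 0)), (.ofNat (nat_lit 545834750051270383318596921472))⟩,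
    ⟨nat_lit 5, nat_lit 4, (.negSucc (nat_lit 87638143)), (.ofNat (nat_lit 78430080)), (.negSucc (nat_lit 87638127)), (.ofNat (nat_lit 78430064)), (.negSucc (nat_lit 3071085292119545357742)), (.ofNat (nat_lit 0)), (.ofNat (nat_lit 17711464821982494161723981824))⟩,
    ⟨nat_lit 6, nat_lit 5, (.negSucc (nat_lit 491634687)), (.negSucc (nat_lit 87638143)), (.negSucc (nat_lit 491634671)), (.negSucc (nat_lit 87638159)), (.ofNat (nat_lit 3071085292119545357743)), (.ofNat (nat_lit 0)), (.ofNat (nat_lit 553885415879444244301198731392))⟩,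
    ⟨nat_lit 6, nat_lit 15, (.negSucc (nat_lit 491634687)), (.negSucc (nat_lit 405389311)), (.negSucc (nat_lit 491634671)), (.negSucc (nat_lit 405389327)), (.negSucc (nat_lit 3071085292119545357742)), (.ofNat (nat_lit 0)), (.ofNat (nat_lit 3220266331269544393040723968))⟩,
    ⟨nat_lit 23, nat_lit 7, (.negSucc (nat_lit 474283839)), (.negSucc (nat_lit 268976127)), (.negSucc (nat_lit 474283823)), (.negSucc (nat_lit 268976143)), (.ofNat (nat_lit 3071085292119545357743)), (.ofNat (nat_lit 0)), (.ofNat (nat_lit 547444883216905155515117283456))⟩,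
    ⟨nat_lit 7, nat_lit 8, (.negSucc (nat_lit 268976127)), (.ofNat (nat_lit 224968448)), (.negSucc (nat_lit 268976111)), (.ofNat (nat_lit 224968432)), (.negSucc (nat_lit 3071085292119545357742)), (.ofNat (nat_lit 0)), (.ofNat (nat_lit 8050665828173860982601809920))⟩,
    ⟨nat_lit 8, nat_lit 9, (.ofNat (nat_lit 224968448)), (.ofNat (nat_lit 487898752)), (.ofNat (nat_lit 224968464)), (.ofNat (nat_lit 487898736)), (.ofNat (nat_lit 3071085292119545357743)), (.ofNat (nat_lit 0)), (.ofNat (nat_lit 0))⟩,
    ⟨nat_lit 10, nat_lit 9, (.ofNat (nat_lit 185712448)), (.ofNat (nat_lit 487898752)), (.ofNat (nat_lit 185712464)), (.ofNat (nat_lit 487898736)), (.negSucc (nat_lit 3071085292119545357742)), (.ofNat (nat_lit 0)), (.ofNat (nat_lit 16101331656347721965203619840))⟩,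
    ⟨nat_lit 11, nat_lit 10, (.ofNat (nat_lit 57589632)), (.ofNat (nat_lit 185712448)), (.ofNat (nat_lit 57589648)), (.ofNat (nat_lit 185712432)), (.ofNat (nat_lit 3071085292119545357743)), (.ofNat (nat_lit 0)), (.ofNat (nat_lit 4830399496904316589561085952))⟩,
    ⟨nat_lit 11, nat_lit 12, (.ofNat (nat_lit 57589632)), (.ofNat (nat_lit 237027072)), (.ofNat (nat_lit 57589648)), (.ofNat (nat_lit 237027056)), (.negSucc (nat_lit 3071085292119545357742)), (.ofNat (nat_lit 0)), (.ofNat (nat_lit 12881065325078177572162895872))⟩,
    ⟨nat_lit 13, nat_lit 12, (.ofNat (nat_lit 113098560)), (.ofNat (nat_lit 237027072)), (.ofNat (nat_lit 113098576)), (.ofNat (nat_lit 237027056)), (.ofNat (nat_lit 3071085292119545357743)), (.ofNat (nat_lit 0)), (.ofNat (nat_lit 3220266331269544393040723968))⟩,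
    ⟨nat_lit 14, nat_lit 13, (.negSucc (nat_lit 277757951)), (.ofNat (nat_lit 113098560)), (.negSucc (nat_lit 277757935)), (.ofNat (nat_lit 113098544)), (.negSucc (nat_lit 3071085292119545357742)), (.ofNat (nat_lit 0)), (.ofNat (nat_lit 9660798993808633179122171904))⟩,
    ⟨nat_lit 15, nat_lit 14, (.negSucc (nat_lit 405389311)), (.negSucc (nat_lit 277757951)), (.negSucc (nat_lit 405389295)), (.negSucc (nat_lit 277757967)), (.ofNat (nat_lit 3071085292119545357743)), (.ofNat (nat_lit 0)), (.ofNat (nat_lit 549055016382539927711637645440))⟩,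
    ⟨nat_lit 16, nat_lit 17, (.negSucc (nat_lit 85786623)), (.ofNat (nat_lit 358137536)), (.negSucc (nat_lit 85786607)), (.ofNat (nat_lit 358137520)), (.ofNat (nat_lit 3071085292119545357743)), (.ofNat (nat_lit 0)), (.ofNat (nat_lit 1610133165634772196520361984))⟩,
    ⟨nat_lit 18, nat_lit 17, (.ofNat (nat_lit 51822464)), (.ofNat (nat_lit 358137536)), (.ofNat (nat_lit 51822480)), (.ofNat (nat_lit 358137520)), (.negSucc (nat_lit 3071085292119545357742)), (.ofNat (nat_lit 0)), (.ofNat (nat_lit 14491198490712949768683257856))⟩,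
    ⟨nat_lit 19, nat_lit 18, (.negSucc (nat_lit 260063231)), (.ofNat (nat_lit 51822464)), (.negSucc (nat_lit 260063215)), (.ofNat (nat_lit 51822448)), (.ofNat (nat_lit 3071085292119545357743)), (.ofNat (nat_lit 0)), (.ofNat (nat_lit 544224616885635611122076559488))⟩,
    ⟨nat_lit 20, nat_lit 19, (.negSucc (nat_lit 404111359)), (.negSucc (nat_lit 260063231)), (.negSucc (nat_lit 404111343)), (.negSucc (nat_lit 260063247)), (.negSucc (nat_lit 3071085292119545357742)), (.ofNat (nat_lit 0)), (.ofNat (nat_lit 4830399496904316589561085952))⟩,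
    ⟨nat_lit 20, nat_lit 21, (.negSucc (nat_lit 404111359)), (.negSucc (nat_lit 271007743)), (.negSucc (nat_lit 404111343)), (.negSucc (nat_lit 271007759)), (.ofNat (nat_lit 3071085292119545357743)), (.ofNat (nat_lit 0)), (.ofNat (nat_lit 550665149548174699908158007424))⟩,
    ⟨nat_lit 21, nat_lit 22, (.negSucc (nat_lit 271007743)), (.negSucc (nat_lit 34160703)), (.negSucc (nat_lit 271007727)), (.negSucc (nat_lit 34160719)), (.negSucc (nat_lit 3071085292119545357742)), (.ofNat (nat_lit 0)), (.ofNat (nat_lit 11270932159443405375642533888))⟩,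
    ⟨nat_lit 0, nat_lit 22, (.negSucc (nat_lit 280952703)), (.negSucc (nat_lit 34160703)), (.negSucc (nat_lit 280952687)), (.negSucc (nat_lit 34160719)), (.ofNat (nat_lit 3071085292119545357743)), (.ofNat (nat_lit 0)), (.ofNat (nat_lit 542614483720000838925556197504))⟩,
    ⟨nat_lit 23, nat_lit 16, (.negSucc (nat_lit 474283839)), (.negSucc (nat_lit 85786623)), (.negSucc (nat_lit 474283823)), (.negSucc (nat_lit 85786639)), (.negSucc (nat_lit 3071085292119545357742)), (.ofNat (nat_lit 0)), (.ofNat (nat_lit 0))⟩]

theorem ok46 : stOK 23 23 S46 = true := by decide +kernel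

def S47 : SD where
  vs := [
    ⟨nat_lit 0, nat_lit 0, nat_lit 22, (.ofNat (nat_lit 8)), (.negSucc (nat_lit 281476991)), (.ofNat (nat_lit 1242820751026505006585542824192)), (.negSucc (nat_lit 524287)), (.ofNat (nat_lit 3220266331269544393040723968)), (.negSucc (nat_lit 281477007)), (.negSucc (nat_lit 281476975)), (.negSucc (nat_lit 3071085292119545357742)), (.ofNat (nat_lit 3071085292119545357743)), (.negSucc (nat_lit 3071085292119545357742)), (.ofNat (nat_lit 3071085292119545357743)), (.ofNat (nat_lit 0))⟩,
    ⟨nat_lit 2, nat_lit 0, nat_lit 1, (.ofNat (nat_lit 8)), (.negSucc (nat_lit 554499903)), (.ofNat (nat_lit 2081297400481353932272618431808)), (.negSucc (nat_lit 14680063)), (.ofNat (nat_lit 46693861803408393699090497536)), (.negSucc (nat_lit 554499919)), (.negSucc (nat_lit 554499887)), (.negSucc (nat_lit 3071085292119545357742)), (.ofNat (nat_lit 3071085292119545357743)), (.negSucc (nat_lit 3071085292119545357742)), (.ofNat (nat_lit 3071085292119545357743)), (.ofNat (nat_lit 0))⟩,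
    ⟨nat_lit 0, nat_lit 1, nat_lit 2, (.ofNat (nat_lit 8)), (.negSucc (nat_lit 415711231)), (.ofNat (nat_lit 2507529249773357697717534319104)), (.negSucc (nat_lit 13893631)), (.ofNat (nat_lit 49109061551860551993871040512)), (.negSucc (nat_lit 415711247)), (.negSucc (nat_lit 415711215)), (.ofNat (nat_lit 3071085292119545357743)), (.negSucc (nat_lit 3071085292119545357742)), (.negSucc (nat_lit 3071085292119545357742)), (.ofNat (nat_lit 3071085292119545357743)), (.ofNat (nat_lit 0))⟩,
    ⟨nat_lit 0, nat_lit 2, nat_lit 3, (.ofNat (nat_lit 8)), (.negSucc (nat_lit 270614527)), (.ofNat (nat_lit 2061924896183934492330524140032)), (.negSucc (nat_lit 12845055)), (.ofNat (nat_lit 45888795220591007600830316544)), (.negSucc (nat_lit 270614543)), (.negSucc (nat_lit 270614511)), (.negSucc (nat_lit 3071085292119545357742)), (.ofNat (nat_lit 3071085292119545357743)), (.negSucc (nat_lit 3071085292119545357742)), (.ofNat (nat_lit 3071085292119545357743)), (.ofNat (nat_lit 0))⟩,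
    ⟨nat_lit 1, nat_lit 3, nat_lit 4, (.ofNat (nat_lit 8)), (.ofNat (nat_lit 137936704)), (.ofNat (nat_lit 3316620575856454639516307529408)), (.ofNat (nat_lit 59506624)), (.ofNat (nat_lit 268086975528730875069737374784)), (.ofNat (nat_lit 137936688)), (.ofNat (nat_lit 137936720)), (.ofNat (nat_lit 3071085292119545357743)), (.negSucc (nat_lit 3071085292119545357742)), (.negSucc (nat_lit 3071085292119545357742)), (.ofNat (nat_lit 3071085292119545357743)), (.ofNat (nat_lit 0))⟩,
    ⟨nat_lit 0, nat_lit 5, nat_lit 4, (.ofNat (nat_lit 8)), (.negSucc (nat_lit 29442239)), (.ofNat (nat_lit 3830655588985355663255433092800)), (.ofNat (nat_lit 58195904)), (.ofNat (nat_lit 272112308442817805561038279744)), (.negSucc (nat_lit 29442255)), (.negSucc (nat_lit 29442223)), (.ofNat (nat_lit 3071085292119545357743)), (.negSucc (nat_lit 3071085292119545357742)), (.negSucc (nat_lit 3071085292119545357742)), (.ofNat (nat_lit 3071085292119545357743)), (.ofNat (nat_lit 0))⟩,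
    ⟨nat_lit 2, nat_lit 6, nat_lit 5, (.ofNat (nat_lit 8)), (.negSucc (nat_lit 506314751)), (.ofNat (nat_lit 2366139431166054264210590032384)), (.negSucc (nat_lit 14680063)), (.ofNat (nat_lit 48303994969043165895610859520)), (.negSucc (nat_lit 506314767)), (.negSucc (nat_lit 506314735)), (.negSucc (nat_lit 3071085292119545357742)), (.ofNat (nat_lit 3071085292119545357743)), (.negSucc (nat_lit 3071085292119545357742)), (.ofNat (nat_lit 3071085292119545357743)), (.ofNat (nat_lit 0))⟩,
    ⟨nat_lit 0, nat_lit 7, nat_lit 8, (.ofNat (nat_lit 8)), (.negSucc (nat_lit 281821183)), (.ofNat (nat_lit 2398643994447306227927844839936)), (.negSucc (nat_lit 12845055)), (.ofNat (nat_lit 47498928386225779797350678528)), (.negSucc (nat_lit 281821199)), (.negSucc (nat_lit 281821167)), (.ofNat (nat_lit 3071085292119545357743)), (.negSucc (nat_lit 3071085292119545357742)), (.negSucc (nat_lit 3071085292119545357742)), (.ofNat (nat_lit 3071085292119545357743)), (.ofNat (nat_lit 0))⟩,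
    ⟨nat_lit 0, nat_lit 8, nat_lit 9, (.ofNat (nat_lit 8)), (.ofNat (nat_lit 226279168)), (.ofNat (nat_lit 838224476499342405578660614400)), (.ofNat (nat_lit 1310720)), (.ofNat (nat_lit 4025332914086930491300904960)), (.ofNat (nat_lit 226279152)), (.ofNat (nat_lit 226279184)), (.negSucc (nat_lit 3071085292119545357742)), (.ofNat (nat_lit 3071085292119545357743)), (.negSucc (nat_lit 3071085292119545357742)), (.ofNat (nat_lit 3071085292119545357743)), (.ofNat (nat_lit 0))⟩,
    ⟨nat_lit 1, nat_lit 9, nat_lit 10, (.ofNat (nat_lit 8)), (.ofNat (nat_lit 561036864)), (.ofNat (nat_lit 1866293913108768366104203054528)), (.ofNat (nat_lit 73138112)), (.ofNat (nat_lit 224613380056592025763687601216)), (.ofNat (nat_lit 561036848)), (.ofNat (nat_lit 561036880)), (.ofNat (nat_lit 3071085292119545357743)), (.negSucc (nat_lit 3071085292119545357742)), (.negSucc (nat_lit 3071085292119545357742)), (.ofNat (nat_lit 3071085292119545357743)), (.ofNat (nat_lit 0))⟩,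
    ⟨nat_lit 0, nat_lit 11, nat_lit 10, (.ofNat (nat_lit 8)), (.ofNat (nat_lit 245481216)), (.ofNat (nat_lit 2835392222526820794932187236992)), (.ofNat (nat_lit 59768768)), (.ofNat (nat_lit 265671775780278716774956831808)), (.ofNat (nat_lit 245481200)), (.ofNat (nat_lit 245481232)), (.ofNat (nat_lit 3071085292119545357743)), (.negSucc (nat_lit 3071085292119545357742)), (.negSucc (nat_lit 3071085292119545357742)), (.ofNat (nat_lit 3071085292119545357743)), (.ofNat (nat_lit 0))⟩,
    ⟨nat_lit 2, nat_lit 12, nat_lit 11, (.ofNat (nat_lit 8)), (.ofNat (nat_lit 46055296)), (.ofNat (nat_lit 2222938212747411711982560338432)), (.negSucc (nat_lit 11534335)), (.ofNat (nat_lit 46693861803408393699090497536)), (.ofNat (nat_lit 46055280)), (.ofNat (nat_lit 46055312)), (.negSucc (nat_lit 3071085292119545357742)), (.ofNat (nat_lit 3071085292119545357743)), (.negSucc (nat_lit 3071085292119545357742)), (.ofNat (nat_lit 3071085292119545357743)), (.ofNat (nat_lit 0))⟩,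
    ⟨nat_lit 1, nat_lit 13, nat_lit 12, (.ofNat (nat_lit 8)), (.ofNat (nat_lit 238337792)), (.ofNat (nat_lit 1632422267349776400210523371904)), (.ofNat (nat_lit 1310720)), (.ofNat (nat_lit 7245599245356474884341628928)), (.ofNat (nat_lit 238337776)), (.ofNat (nat_lit 238337808)), (.ofNat (nat_lit 3071085292119545357743)), (.negSucc (nat_lit 3071085292119545357742)), (.negSucc (nat_lit 3071085292119545357742)), (.ofNat (nat_lit 3071085292119545357743)), (.ofNat (nat_lit 0))⟩,
    ⟨nat_lit 0, nat_lit 14, nat_lit 13, (.ofNat (nat_lit 8)), (.ofNat (nat_lit 114147136)), (.ofNat (nat_lit 1251022170289498431810665522496)), (.ofNat (nat_lit 1048576)), (.ofNat (nat_lit 6440532662539088786081447936)), (.ofNat (nat_lit 114147120)), (.ofNat (nat_lit 114147152)), (.negSucc (nat_lit 3071085292119545357742)), (.ofNat (nat_lit 3071085292119545357743)), (.negSucc (nat_lit 3071085292119545357742)), (.ofNat (nat_lit 3071085292119545357743)), (.ofNat (nat_lit 0))⟩,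
    ⟨nat_lit 0, nat_lit 15, nat_lit 14, (.ofNat (nat_lit 8)), (.negSucc (nat_lit 290603007)), (.ofNat (nat_lit 2494044384511166480571676287488)), (.negSucc (nat_lit 12845055)), (.ofNat (nat_lit 49109061551860551993871040512)), (.negSucc (nat_lit 290603023)), (.negSucc (nat_lit 290602991)), (.ofNat (nat_lit 3071085292119545357743)), (.negSucc (nat_lit 3071085292119545357742)), (.negSucc (nat_lit 3071085292119545357742)), (.ofNat (nat_lit 3071085292119545357743)), (.ofNat (nat_lit 0))⟩,
    ⟨nat_lit 0, nat_lit 6, nat_lit 15, (.ofNat (nat_lit 8)), (.negSucc (nat_lit 419282943)), (.ofNat (nat_lit 2098857325670682079588209943040)), (.negSucc (nat_lit 13893631)), (.ofNat (nat_lit 45888795220591007600830316544)), (.negSucc (nat_lit 419282959)), (.negSucc (nat_lit 419282927)), (.negSucc (nat_lit 3071085292119545357742)), (.ofNat (nat_lit 3071085292119545357743)), (.negSucc (nat_lit 3071085292119545357742)), (.ofNat (nat_lit 3071085292119545357743)), (.ofNat (nat_lit 0))⟩,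
    ⟨nat_lit 0, nat_lit 23, nat_lit 16, (.ofNat (nat_lit 8)), (.negSucc (nat_lit 86048767)), (.ofNat (nat_lit 528324551874992235681437984896)), (.negSucc (nat_lit 262143)), (.ofNat (nat_lit 805066582817386098260180992)), (.negSucc (nat_lit 86048783)), (.negSucc (nat_lit 86048751)), (.negSucc (nat_lit 3071085292119545357742)), (.ofNat (nat_lit 3071085292119545357743)), (.negSucc (nat_lit 3071085292119545357742)), (.ofNat (nat_lit 3071085292119545357743)), (.ofNat (nat_lit 0))⟩,
    ⟨nat_lit 1, nat_lit 16, nat_lit 17, (.ofNat (nat_lit 8)), (.ofNat (nat_lit 430751360)), (.ofNat (nat_lit 2115461823941290667864826176000)), (.ofNat (nat_lit 72613824)), (.ofNat (nat_lit 224613380056592025763687601216)), (.ofNat (nat_lit 430751344)), (.ofNat (nat_lit 430751376)), (.ofNat (nat_lit 3071085292119545357743)), (.negSucc (nat_lit 3071085292119545357742)), (.negSucc (nat_lit 3071085292119545357742)), (.ofNat (nat_lit 3071085292119545357743)), (.ofNat (nat_lit 0))⟩,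
    ⟨nat_lit 0, nat_lit 18, nat_lit 17, (.ofNat (nat_lit 8)), (.ofNat (nat_lit 111066944)), (.ofNat (nat_lit 3097239932038716927740408209088)), (.ofNat (nat_lit 59244480)), (.ofNat (nat_lit 265671775780278716774956831808)), (.ofNat (nat_lit 111066928)), (.ofNat (nat_lit 111066960)), (.ofNat (nat_lit 3071085292119545357743)), (.negSucc (nat_lit 3071085292119545357742)), (.negSucc (nat_lit 3071085292119545357742)), (.ofNat (nat_lit 3071085292119545357743)), (.ofNat (nat_lit 0))⟩,
    ⟨nat_lit 0, nat_lit 19, nat_lit 18, (.ofNat (nat_lit 8)), (.negSucc (nat_lit 272908287)), (.ofNat (nat_lit 1918019244505326727266516787712)), (.negSucc (nat_lit 12845055)), (.ofNat (nat_lit 44278662054956235404309954560)), (.negSucc (nat_lit 272908303)), (.negSucc (nat_lit 272908271)), (.negSucc (nat_lit 3071085292119545357742)), (.ofNat (nat_lit 3071085292119545357743)), (.negSucc (nat_lit 3071085292119545357742)), (.ofNat (nat_lit 3071085292119545357743)), (.ofNat (nat_lit 0))⟩,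
    ⟨nat_lit 2, nat_lit 19, nat_lit 20, (.ofNat (nat_lit 8)), (.negSucc (nat_lit 418004991)), (.ofNat (nat_lit 2363623598094749932653526966784)), (.negSucc (nat_lit 13893631)), (.ofNat (nat_lit 47498928386225779797350678528)), (.negSucc (nat_lit 418005007)), (.negSucc (nat_lit 418004975)), (.negSucc (nat_lit 3071085292119545357742)), (.ofNat (nat_lit 3071085292119545357743)), (.negSucc (nat_lit 3071085292119545357742)), (.ofNat (nat_lit 3071085292119545357743)), (.ofNat (nat_lit 0))⟩,
    ⟨nat_lit 0, nat_lit 20, nat_lit 21, (.ofNat (nat_lit 8)), (.negSucc (nat_lit 213073983)), (.ofNat (nat_lit 2992984202662782819317520561728)), (.ofNat (nat_lit 57933760)), (.ofNat (nat_lit 268086975528730875069737374784)), (.negSucc (nat_lit 213073999)), (.negSucc (nat_lit 213073967)), (.ofNat (nat_lit 3071085292119545357743)), (.negSucc (nat_lit 3071085292119545357742)), (.negSucc (nat_lit 3071085292119545357742)), (.ofNat (nat_lit 3071085292119545357743)), (.ofNat (nat_lit 0))⟩,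
    ⟨nat_lit 1, nat_lit 22, nat_lit 21, (.ofNat (nat_lit 8)), (.ofNat (nat_lit 37666688)), (.ofNat (nat_lit 2222938212747411711982560338432)), (.ofNat (nat_lit 71827392)), (.ofNat (nat_lit 225418446639409411861947782208)), (.ofNat (nat_lit 37666672)), (.ofNat (nat_lit 37666704)), (.ofNat (nat_lit 3071085292119545357743)), (.negSucc (nat_lit 3071085292119545357742)), (.negSucc (nat_lit 3071085292119545357742)), (.ofNat (nat_lit 3071085292119545357743)), (.ofNat (nat_lit 0))⟩,
    ⟨nat_lit 2, nat_lit 23, nat_lit 7, (.ofNat (nat_lit 8)), (.negSucc (nat_lit 488439615)), (.ofNat (nat_lit 1764101166851303809558107120960)), (.negSucc (nat_lit 14155775)), (.ofNat (nat_lit 43473595472138849306049773568)), (.negSucc (nat_lit 488439631)), (.negSucc (nat_lit 488439599)), (.negSucc (nat_lit 3071085292119545357742)), (.ofNat (nat_lit 3071085292119545357743)), (.negSucc (nat_lit 3071085292119545357742)), (.ofNat (nat_lit 3071085292119545357743)), (.ofNat (nat_lit 0))⟩]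
  es := [
    ⟨nat_lit 1, nat_lit 0, (.negSucc (nat_lit 554499903)), (.negSucc (nat_lit 281476991)), (.negSucc (nat_lit 554499887)), (.negSucc (nat_lit 281477007)), (.negSucc (nat_lit 3071085292119545357742)), (.ofNat (nat_lit 0)), (.ofNat (nat_lit 1610133165634772196520361984))⟩,
    ⟨nat_lit 1, nat_lit 2, (.negSucc (nat_lit 554499903)), (.negSucc (nat_lit 415711231)), (.negSucc (nat_lit 554499887)), (.negSucc (nat_lit 415711247)), (.ofNat (nat_lit 3071085292119545357743)), (.ofNat (nat_lit 0)), (.ofNat (nat_lit 91777590441182015201660633088))⟩,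
    ⟨nat_lit 2, nat_lit 3, (.negSucc (nat_lit 415711231)), (.negSucc (nat_lit 270614527)), (.negSucc (nat_lit 415711215)), (.negSucc (nat_lit 270614543)), (.negSucc (nat_lit 3071085292119545357742)), (.ofNat (nat_lit 0)), (.ofNat (nat_lit 6440532662539088786081447936))⟩,
    ⟨nat_lit 3, nat_lit 4, (.negSucc (nat_lit 270614527)), (.ofNat (nat_lit 137936704)), (.negSucc (nat_lit 270614511)), (.ofNat (nat_lit 137936688)), (.ofNat (nat_lit 3071085292119545357743)), (.ofNat (nat_lit 0)), (.ofNat (nat_lit 85337057778642926415579185152))⟩,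
    ⟨nat_lit 5, nat_lit 4, (.negSucc (nat_lit 29442239)), (.ofNat (nat_lit 137936704)), (.negSucc (nat_lit 29442223)), (.ofNat (nat_lit 137936688)), (.negSucc (nat_lit 3071085292119545357742)), (.ofNat (nat_lit 0)), (.ofNat (nat_lit 450836893278818823723895564416))⟩,
    ⟨nat_lit 6, nat_lit 5, (.negSucc (nat_lit 506314751)), (.negSucc (nat_lit 29442239)), (.negSucc (nat_lit 506314735)), (.negSucc (nat_lit 29442255)), (.ofNat (nat_lit 3071085292119545357743)), (.ofNat (nat_lit 0)), (.ofNat (nat_lit 93387723606816787398180995072))⟩,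
    ⟨nat_lit 6, nat_lit 15, (.negSucc (nat_lit 506314751)), (.negSucc (nat_lit 419282943)), (.negSucc (nat_lit 506314735)), (.negSucc (nat_lit 419282959)), (.negSucc (nat_lit 3071085292119545357742)), (.ofNat (nat_lit 0)), (.ofNat (nat_lit 3220266331269544393040723968))⟩,
    ⟨nat_lit 23, nat_lit 7, (.negSucc (nat_lit 488439615)), (.negSucc (nat_lit 281821183)), (.negSucc (nat_lit 488439599)), (.negSucc (nat_lit 281821199)), (.ofNat (nat_lit 3071085292119545357743)), (.ofNat (nat_lit 0)), (.ofNat (nat_lit 86947190944277698612099547136))⟩,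
    ⟨nat_lit 7, nat_lit 8, (.negSucc (nat_lit 281821183)), (.ofNat (nat_lit 226279168)), (.negSucc (nat_lit 281821167)), (.ofNat (nat_lit 226279152)), (.negSucc (nat_lit 3071085292119545357742)), (.ofNat (nat_lit 0)), (.ofNat (nat_lit 8050665828173860982601809920))⟩,
    ⟨nat_lit 8, nat_lit 9, (.ofNat (nat_lit 226279168)), (.ofNat (nat_lit 561036864)), (.ofNat (nat_lit 226279184)), (.ofNat (nat_lit 561036848)), (.ofNat (nat_lit 3071085292119545357743)), (.ofNat (nat_lit 0)), (.ofNat (nat_lit 0))⟩,
    ⟨nat_lit 10, nat_lit 9, (.ofNat (nat_lit 245481216)), (.ofNat (nat_lit 561036864)), (.ofNat (nat_lit 245481232)), (.ofNat (nat_lit 561036848)), (.negSucc (nat_lit 3071085292119545357742)), (.ofNat (nat_lit 0)), (.ofNat (nat_lit 449226760113184051527375202432))⟩,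
    ⟨nat_lit 11, nat_lit 10, (.ofNat (nat_lit 46055296)), (.ofNat (nat_lit 245481216)), (.ofNat (nat_lit 46055312)), (.ofNat (nat_lit 245481200)), (.ofNat (nat_lit 3071085292119545357743)), (.ofNat (nat_lit 0)), (.ofNat (nat_lit 82116791447373382022538461184))⟩,
    ⟨nat_lit 11, nat_lit 12, (.ofNat (nat_lit 46055296)), (.ofNat (nat_lit 238337792)), (.ofNat (nat_lit 46055312)), (.ofNat (nat_lit 238337776)), (.negSucc (nat_lit 3071085292119545357742)), (.ofNat (nat_lit 0)), (.ofNat (nat_lit 11270932159443405375642533888))⟩,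
    ⟨nat_lit 13, nat_lit 12, (.ofNat (nat_lit 114147136)), (.ofNat (nat_lit 238337792)), (.ofNat (nat_lit 114147152)), (.ofNat (nat_lit 238337776)), (.ofNat (nat_lit 3071085292119545357743)), (.ofNat (nat_lit 0)), (.ofNat (nat_lit 3220266331269544393040723968))⟩,
    ⟨nat_lit 14, nat_lit 13, (.negSucc (nat_lit 290603007)), (.ofNat (nat_lit 114147136)), (.negSucc (nat_lit 290602991)), (.ofNat (nat_lit 114147120)), (.negSucc (nat_lit 3071085292119545357742)), (.ofNat (nat_lit 0)), (.ofNat (nat_lit 9660798993808633179122171904))⟩,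
    ⟨nat_lit 15, nat_lit 14, (.negSucc (nat_lit 419282943)), (.negSucc (nat_lit 290603007)), (.negSucc (nat_lit 419282927)), (.negSucc (nat_lit 290603023)), (.ofNat (nat_lit 3071085292119545357743)), (.ofNat (nat_lit 0)), (.ofNat (nat_lit 88557324109912470808619909120))⟩,
    ⟨nat_lit 16, nat_lit 17, (.negSucc (nat_lit 86048767)), (.ofNat (nat_lit 430751360)), (.negSucc (nat_lit 86048751)), (.ofNat (nat_lit 430751344)), (.ofNat (nat_lit 3071085292119545357743)), (.ofNat (nat_lit 0)), (.ofNat (nat_lit 1610133165634772196520361984))⟩,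
    ⟨nat_lit 18, nat_lit 17, (.ofNat (nat_lit 111066944)), (.ofNat (nat_lit 430751360)), (.ofNat (nat_lit 111066960)), (.ofNat (nat_lit 430751344)), (.negSucc (nat_lit 3071085292119545357742)), (.ofNat (nat_lit 0)), (.ofNat (nat_lit 447616626947549279330854840448))⟩,
    ⟨nat_lit 19, nat_lit 18, (.negSucc (nat_lit 272908287)), (.ofNat (nat_lit 111066944)), (.negSucc (nat_lit 272908271)), (.ofNat (nat_lit 111066928)), (.ofNat (nat_lit 3071085292119545357743)), (.ofNat (nat_lit 0)), (.ofNat (nat_lit 83726924613008154219058823168))⟩,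
    ⟨nat_lit 20, nat_lit 19, (.negSucc (nat_lit 418004991)), (.negSucc (nat_lit 272908287)), (.negSucc (nat_lit 418004975)), (.negSucc (nat_lit 272908303)), (.negSucc (nat_lit 3071085292119545357742)), (.ofNat (nat_lit 0)), (.ofNat (nat_lit 4830399496904316589561085952))⟩,
    ⟨nat_lit 20, nat_lit 21, (.negSucc (nat_lit 418004991)), (.negSucc (nat_lit 213073983)), (.negSucc (nat_lit 418004975)), (.negSucc (nat_lit 213073999)), (.ofNat (nat_lit 3071085292119545357743)), (.ofNat (nat_lit 0)), (.ofNat (nat_lit 90167457275547243005140271104))⟩,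
    ⟨nat_lit 21, nat_lit 22, (.negSucc (nat_lit 213073983)), (.ofNat (nat_lit 37666688)), (.negSucc (nat_lit 213073967)), (.ofNat (nat_lit 37666672)), (.negSucc (nat_lit 3071085292119545357742)), (.ofNat (nat_lit 0)), (.ofNat (nat_lit 446006493781914507134334478464))⟩,
    ⟨nat_lit 0, nat_lit 22, (.negSucc (nat_lit 281476991)), (.ofNat (nat_lit 37666688)), (.negSucc (nat_lit 281476975)), (.ofNat (nat_lit 37666672)), (.ofNat (nat_lit 3071085292119545357743)), (.ofNat (nat_lit 0)), (.ofNat (nat_lit 4830399496904316589561085952))⟩,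
    ⟨nat_lit 23, nat_lit 16, (.negSucc (nat_lit 488439615)), (.negSucc (nat_lit 86048767)), (.negSucc (nat_lit 488439599)), (.negSucc (nat_lit 86048783)), (.negSucc (nat_lit 3071085292119545357742)), (.ofNat (nat_lit 0)), (.ofNat (nat_lit 0))⟩]

theorem ok47 : stOK 23 23 S47 = true := by decide +kernel

def S48 : SD where
  vs := [
    ⟨nat_lit 0, nat_lit 0, nat_lit 22, (.ofNat (nat_lit 8)), (.negSucc (nat_lit 283049855)), (.ofNat (nat_lit 1237990351529600689995981738240)), (.negSucc (nat_lit 1572863)), (.negSucc (nat_lit 4830399496904316589561085951)), (.negSucc (nat_lit 283049871)), (.negSucc (nat_lit 283049839)), (.negSucc (nat_lit 3071085292119545357742)), (.ofNat (nat_lit 3071085292119545357743)), (.negSucc (nat_lit 3071085292119545357742)), (.ofNat (nat_lit 3071085292119545357743)), (.ofNat (nat_lit 0))⟩,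
    ⟨nat_lit 2, nat_lit 0, nat_lit 1, (.ofNat (nat_lit 8)), (.negSucc (nat_lit 559742783)), (.ofNat (nat_lit 2087737933143893021058699879744)), (.negSucc (nat_lit 5242879)), (.ofNat (nat_lit 6440532662539088786081447936)), (.negSucc (nat_lit 559742799)), (.negSucc (nat_lit 559742767)), (.negSucc (nat_lit 3071085292119545357742)), (.ofNat (nat_lit 3071085292119545357743)), (.negSucc (nat_lit 3071085292119545357742)), (.ofNat (nat_lit 3071085292119545357743)), (.ofNat (nat_lit 0))⟩,
    ⟨nat_lit 0, nat_lit 1, nat_lit 2, (.ofNat (nat_lit 8)), (.negSucc (nat_lit 420167679)), (.ofNat (nat_lit 2516384982184348944798396310016)), (.negSucc (nat_lit 4456447)), (.ofNat (nat_lit 8855732410991247080861990912)), (.negSucc (nat_lit 420167695)), (.negSucc (nat_lit 420167663)), (.ofNat (nat_lit 3071085292119545357743)), (.negSucc (nat_lit 3071085292119545357742)), (.negSucc (nat_lit 3071085292119545357742)), (.ofNat (nat_lit 3071085292119545357743)), (.ofNat (nat_lit 0))⟩,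
    ⟨nat_lit 0, nat_lit 2, nat_lit 3, (.ofNat (nat_lit 8)), (.negSucc (nat_lit 274022399)), (.ofNat (nat_lit 2067560362263656195018345406976)), (.negSucc (nat_lit 3407871)), (.ofNat (nat_lit 5635466079721702687821266944)), (.negSucc (nat_lit 274022415)), (.negSucc (nat_lit 274022383)), (.negSucc (nat_lit 3071085292119545357742)), (.ofNat (nat_lit 3071085292119545357743)), (.negSucc (nat_lit 3071085292119545357742)), (.ofNat (nat_lit 3071085292119545357743)), (.ofNat (nat_lit 0))⟩,
    ⟨nat_lit 1, nat_lit 3, nat_lit 4, (.ofNat (nat_lit 8)), (.ofNat (nat_lit 138198848)), (.ofNat (nat_lit 3333526974095619747579771330240)), (.ofNat (nat_lit 262144)), (.ofNat (nat_lit 16906398239165108063463800832)), (.ofNat (nat_lit 138198832)), (.ofNat (nat_lit 138198864)), (.ofNat (nat_lit 3071085292119545357743)), (.negSucc (nat_lit 3071085292119545357742)), (.negSucc (nat_lit 3071085292119545357742)), (.ofNat (nat_lit 3071085292119545357743)), (.ofNat (nat_lit 0))⟩,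
    ⟨nat_lit 0, nat_lit 5, nat_lit 4, (.ofNat (nat_lit 8)), (.negSucc (nat_lit 30490815)), (.ofNat (nat_lit 3851587320138607701810197798592)), (.negSucc (nat_lit 1048575)), (.ofNat (nat_lit 20931731153252038554764705792)), (.negSucc (nat_lit 30490831)), (.negSucc (nat_lit 30490799)), (.ofNat (nat_lit 3071085292119545357743)), (.negSucc (nat_lit 3071085292119545357742)), (.negSucc (nat_lit 3071085292119545357742)), (.ofNat (nat_lit 3071085292119545357743)), (.ofNat (nat_lit 0))⟩,
    ⟨nat_lit 2, nat_lit 6, nat_lit 5, (.ofNat (nat_lit 8)), (.negSucc (nat_lit 511557631)), (.ofNat (nat_lit 2374190096994228125193191842304)), (.negSucc (nat_lit 5242879)), (.ofNat (nat_lit 8050665828173860982601809920)), (.negSucc (nat_lit 511557647)), (.negSucc (nat_lit 511557615)), (.negSucc (nat_lit 3071085292119545357742)), (.ofNat (nat_lit 3071085292119545357743)), (.negSucc (nat_lit 3071085292119545357742)), (.ofNat (nat_lit 3071085292119545357743)), (.ofNat (nat_lit 0))⟩,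
    ⟨nat_lit 0, nat_lit 7, nat_lit 8, (.ofNat (nat_lit 8)), (.negSucc (nat_lit 285229055)), (.ofNat (nat_lit 2405889593692662702812186468864)), (.negSucc (nat_lit 3407871)), (.ofNat (nat_lit 7245599245356474884341628928)), (.negSucc (nat_lit 285229071)), (.negSucc (nat_lit 285229039)), (.ofNat (nat_lit 3071085292119545357743)), (.negSucc (nat_lit 3071085292119545357742)), (.negSucc (nat_lit 3071085292119545357742)), (.ofNat (nat_lit 3071085292119545357743)), (.ofNat (nat_lit 0))⟩,
    ⟨nat_lit 0, nat_lit 8, nat_lit 9, (.ofNat (nat_lit 8)), (.ofNat (nat_lit 226541312)), (.ofNat (nat_lit 834199143585255475087359709440)), (.ofNat (nat_lit 262144)), (.negSucc (nat_lit 4025332914086930491300904959)), (.ofNat (nat_lit 226541296)), (.ofNat (nat_lit 226541328)), (.negSucc (nat_lit 3071085292119545357742)), (.ofNat (nat_lit 3071085292119545357743)), (.negSucc (nat_lit 3071085292119545357742)), (.ofNat (nat_lit 3071085292119545357743)), (.ofNat (nat_lit 0))⟩,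
    ⟨nat_lit 1, nat_lit 9, nat_lit 10, (.ofNat (nat_lit 8)), (.ofNat (nat_lit 564444736)), (.ofNat (nat_lit 1871929379188490068792024321472)), (.ofNat (nat_lit 3407872)), (.ofNat (nat_lit 5635466079721702687821266944)), (.ofNat (nat_lit 564444720)), (.ofNat (nat_lit 564444752)), (.ofNat (nat_lit 3071085292119545357743)), (.negSucc (nat_lit 3071085292119545357742)), (.negSucc (nat_lit 3071085292119545357742)), (.ofNat (nat_lit 3071085292119545357743)), (.ofNat (nat_lit 0))⟩,
    ⟨nat_lit 0, nat_lit 11, nat_lit 10, (.ofNat (nat_lit 8)), (.ofNat (nat_lit 246005504)), (.ofNat (nat_lit 2849883421017533744700870494848)), (.ofNat (nat_lit 524288)), (.ofNat (nat_lit 14491198490712949768683257856)), (.ofNat (nat_lit 246005488)), (.ofNat (nat_lit 246005520)), (.ofNat (nat_lit 3071085292119545357743)), (.negSucc (nat_lit 3071085292119545357742)), (.negSucc (nat_lit 3071085292119545357742)), (.ofNat (nat_lit 3071085292119545357743)), (.ofNat (nat_lit 0))⟩,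
    ⟨nat_lit 2, nat_lit 12, nat_lit 11, (.ofNat (nat_lit 8)), (.ofNat (nat_lit 43958144)), (.ofNat (nat_lit 2229378745409950800768641786368)), (.negSucc (nat_lit 2097151)), (.ofNat (nat_lit 6440532662539088786081447936)), (.ofNat (nat_lit 43958128)), (.ofNat (nat_lit 43958160)), (.negSucc (nat_lit 3071085292119545357742)), (.ofNat (nat_lit 3071085292119545357743)), (.negSucc (nat_lit 3071085292119545357742)), (.ofNat (nat_lit 3071085292119545357743)), (.ofNat (nat_lit 0))⟩,
    ⟨nat_lit 1, nat_lit 13, nat_lit 12, (.ofNat (nat_lit 8)), (.ofNat (nat_lit 238599936)), (.ofNat (nat_lit 1631617200766959014112263190912)), (.ofNat (nat_lit 262144)), (.negSucc (nat_lit 805066582817386098260180991)), (.ofNat (nat_lit 238599920)), (.ofNat (nat_lit 238599952)), (.ofNat (nat_lit 3071085292119545357743)), (.negSucc (nat_lit 3071085292119545357742)), (.negSucc (nat_lit 3071085292119545357742)), (.ofNat (nat_lit 3071085292119545357743)), (.ofNat (nat_lit 0))⟩,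
    ⟨nat_lit 0, nat_lit 14, nat_lit 13, (.ofNat (nat_lit 8)), (.ofNat (nat_lit 114147136)), (.ofNat (nat_lit 1249412037123863659614145160512)), (.ofNat (nat_lit 0)), (.negSucc (nat_lit 1610133165634772196520361983)), (.ofNat (nat_lit 114147120)), (.ofNat (nat_lit 114147152)), (.negSucc (nat_lit 3071085292119545357742)), (.ofNat (nat_lit 3071085292119545357743)), (.negSucc (nat_lit 3071085292119545357742)), (.ofNat (nat_lit 3071085292119545357743)), (.ofNat (nat_lit 0))⟩,
    ⟨nat_lit 0, nat_lit 15, nat_lit 14, (.ofNat (nat_lit 8)), (.negSucc (nat_lit 294010879)), (.ofNat (nat_lit 2502900116922157727652538278400)), (.negSucc (nat_lit 3407871)), (.ofNat (nat_lit 8855732410991247080861990912)), (.negSucc (nat_lit 294010895)), (.negSucc (nat_lit 294010863)), (.ofNat (nat_lit 3071085292119545357743)), (.negSucc (nat_lit 3071085292119545357742)), (.negSucc (nat_lit 3071085292119545357742)), (.ofNat (nat_lit 3071085292119545357743)), (.ofNat (nat_lit 0))⟩,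
    ⟨nat_lit 0, nat_lit 6, nat_lit 15, (.ofNat (nat_lit 8)), (.negSucc (nat_lit 423739391)), (.ofNat (nat_lit 2104492791750403782276031209984)), (.negSucc (nat_lit 4456447)), (.ofNat (nat_lit 5635466079721702687821266944)), (.negSucc (nat_lit 423739407)), (.negSucc (nat_lit 423739375)), (.negSucc (nat_lit 3071085292119545357742)), (.ofNat (nat_lit 3071085292119545357743)), (.negSucc (nat_lit 3071085292119545357742)), (.ofNat (nat_lit 3071085292119545357743)), (.ofNat (nat_lit 0))⟩,
    ⟨nat_lit 0, nat_lit 23, nat_lit 16, (.ofNat (nat_lit 8)), (.negSucc (nat_lit 87359487)), (.ofNat (nat_lit 521078952629635760797096355968)), (.negSucc (nat_lit 1310719)), (.negSucc (nat_lit 7245599245356474884341628927)), (.negSucc (nat_lit 87359503)), (.negSucc (nat_lit 87359471)), (.negSucc (nat_lit 3071085292119545357742)), (.ofNat (nat_lit 3071085292119545357743)), (.negSucc (nat_lit 3071085292119545357742)), (.ofNat (nat_lit 3071085292119545357743)), (.ofNat (nat_lit 0))⟩,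
    ⟨nat_lit 1, nat_lit 16, nat_lit 17, (.ofNat (nat_lit 8)), (.ofNat (nat_lit 433634944)), (.ofNat (nat_lit 2121097290021012370552647442944)), (.ofNat (nat_lit 2883584)), (.ofNat (nat_lit 5635466079721702687821266944)), (.ofNat (nat_lit 433634928)), (.ofNat (nat_lit 433634960)), (.ofNat (nat_lit 3071085292119545357743)), (.negSucc (nat_lit 3071085292119545357742)), (.negSucc (nat_lit 3071085292119545357742)), (.ofNat (nat_lit 3071085292119545357743)), (.ofNat (nat_lit 0))⟩,
    ⟨nat_lit 0, nat_lit 18, nat_lit 17, (.ofNat (nat_lit 8)), (.ofNat (nat_lit 111066944)), (.ofNat (nat_lit 3111731130529429877509091466944)), (.ofNat (nat_lit 0)), (.ofNat (nat_lit 14491198490712949768683257856)), (.ofNat (nat_lit 111066928)), (.ofNat (nat_lit 111066960)), (.ofNat (nat_lit 3071085292119545357743)), (.negSucc (nat_lit 3071085292119545357742)), (.negSucc (nat_lit 3071085292119545357742)), (.ofNat (nat_lit 3071085292119545357743)), (.ofNat (nat_lit 0))⟩,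
    ⟨nat_lit 0, nat_lit 19, nat_lit 18, (.ofNat (nat_lit 8)), (.negSucc (nat_lit 276316159)), (.ofNat (nat_lit 1922044577419413657757817692672)), (.negSucc (nat_lit 3407871)), (.ofNat (nat_lit 4025332914086930491300904960)), (.negSucc (nat_lit 276316175)), (.negSucc (nat_lit 276316143)), (.negSucc (nat_lit 3071085292119545357742)), (.ofNat (nat_lit 3071085292119545357743)), (.negSucc (nat_lit 3071085292119545357742)), (.ofNat (nat_lit 3071085292119545357743)), (.ofNat (nat_lit 0))⟩,
    ⟨nat_lit 2, nat_lit 19, nat_lit 20, (.ofNat (nat_lit 8)), (.negSucc (nat_lit 422461439)), (.ofNat (nat_lit 2370869197340106407537868595712)), (.negSucc (nat_lit 4456447)), (.ofNat (nat_lit 7245599245356474884341628928)), (.negSucc (nat_lit 422461455)), (.negSucc (nat_lit 422461423)), (.negSucc (nat_lit 3071085292119545357742)), (.ofNat (nat_lit 3071085292119545357743)), (.negSucc (nat_lit 3071085292119545357742)), (.ofNat (nat_lit 3071085292119545357743)), (.ofNat (nat_lit 0))⟩,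
    ⟨nat_lit 0, nat_lit 20, nat_lit 21, (.ofNat (nat_lit 8)), (.negSucc (nat_lit 214384703)), (.ofNat (nat_lit 3009890600901947927380984362560)), (.negSucc (nat_lit 1310719)), (.ofNat (nat_lit 16906398239165108063463800832)), (.negSucc (nat_lit 214384719)), (.negSucc (nat_lit 214384687)), (.ofNat (nat_lit 3071085292119545357743)), (.negSucc (nat_lit 3071085292119545357742)), (.negSucc (nat_lit 3071085292119545357742)), (.ofNat (nat_lit 3071085292119545357743)), (.ofNat (nat_lit 0))⟩,
    ⟨nat_lit 1, nat_lit 22, nat_lit 21, (.ofNat (nat_lit 8)), (.ofNat (nat_lit 39763840)), (.ofNat (nat_lit 2229378745409950800768641786368)), (.ofNat (nat_lit 2097152)), (.ofNat (nat_lit 6440532662539088786081447936)), (.ofNat (nat_lit 39763824)), (.ofNat (nat_lit 39763856)), (.ofNat (nat_lit 3071085292119545357743)), (.negSucc (nat_lit 3071085292119545357742)), (.negSucc (nat_lit 3071085292119545357742)), (.ofNat (nat_lit 3071085292119545357743)), (.ofNat (nat_lit 0))⟩,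
    ⟨nat_lit 2, nat_lit 23, nat_lit 7, (.ofNat (nat_lit 8)), (.negSucc (nat_lit 493158207)), (.ofNat (nat_lit 1767321433182573353951147844928)), (.negSucc (nat_lit 4718591)), (.ofNat (nat_lit 3220266331269544393040723968)), (.negSucc (nat_lit 493158223)), (.negSucc (nat_lit 493158191)), (.negSucc (nat_lit 3071085292119545357742)), (.ofNat (nat_lit 3071085292119545357743)), (.negSucc (nat_lit 3071085292119545357742)), (.ofNat (nat_lit 3071085292119545357743)), (.ofNat (nat_lit 0))⟩]
  es := [
    ⟨nat_lit 1, nat_lit 0, (.negSucc (nat_lit 559742783)), (.negSucc (nat_lit 283049855)), (.negSucc (nat_lit 559742767)), (.negSucc (nat_lit 283049871)), (.negSucc (nat_lit 3071085292119545357742)), (.ofNat (nat_lit 0)), (.negSucc (nat_lit 9660798993808633179122171903))⟩,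
    ⟨nat_lit 1, nat_lit 2, (.negSucc (nat_lit 559742783)), (.negSucc (nat_lit 420167679)), (.negSucc (nat_lit 559742767)), (.negSucc (nat_lit 420167695)), (.ofNat (nat_lit 3071085292119545357743)), (.ofNat (nat_lit 0)), (.ofNat (nat_lit 22541864318886810751285067776))⟩,
    ⟨nat_lit 2, nat_lit 3, (.negSucc (nat_lit 420167679)), (.negSucc (nat_lit 274022399)), (.negSucc (nat_lit 420167663)), (.negSucc (nat_lit 274022415)), (.negSucc (nat_lit 3071085292119545357742)), (.ofNat (nat_lit 0)), (.negSucc (nat_lit 4830399496904316589561085951))⟩,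
    ⟨nat_lit 3, nat_lit 4, (.negSucc (nat_lit 274022399)), (.ofNat (nat_lit 138198848)), (.negSucc (nat_lit 274022383)), (.ofNat (nat_lit 138198832)), (.ofNat (nat_lit 3071085292119545357743)), (.ofNat (nat_lit 0)), (.ofNat (nat_lit 16101331656347721965203619840))⟩,
    ⟨nat_lit 5, nat_lit 4, (.negSucc (nat_lit 30490815)), (.ofNat (nat_lit 138198848)), (.negSucc (nat_lit 30490799)), (.ofNat (nat_lit 138198832)), (.negSucc (nat_lit 3071085292119545357742)), (.ofNat (nat_lit 0)), (.ofNat (nat_lit 17711464821982494161723981824))⟩,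
    ⟨nat_lit 6, nat_lit 5, (.negSucc (nat_lit 511557631)), (.negSucc (nat_lit 30490815)), (.negSucc (nat_lit 511557615)), (.negSucc (nat_lit 30490831)), (.ofNat (nat_lit 3071085292119545357743)), (.ofNat (nat_lit 0)), (.ofNat (nat_lit 24151997484521582947805429760))⟩,
    ⟨nat_lit 6, nat_lit 15, (.negSucc (nat_lit 511557631)), (.negSucc (nat_lit 423739391)), (.negSucc (nat_lit 511557615)), (.negSucc (nat_lit 423739407)), (.negSucc (nat_lit 3071085292119545357742)), (.ofNat (nat_lit 0)), (.negSucc (nat_lit 8050665828173860982601809919))⟩,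
    ⟨nat_lit 23, nat_lit 7, (.negSucc (nat_lit 493158207)), (.negSucc (nat_lit 285229055)), (.negSucc (nat_lit 493158191)), (.negSucc (nat_lit 285229071)), (.ofNat (nat_lit 3071085292119545357743)), (.ofNat (nat_lit 0)), (.ofNat (nat_lit 17711464821982494161723981824))⟩,
    ⟨nat_lit 7, nat_lit 8, (.negSucc (nat_lit 285229055)), (.ofNat (nat_lit 226541312)), (.negSucc (nat_lit 285229039)), (.ofNat (nat_lit 226541296)), (.negSucc (nat_lit 3071085292119545357742)), (.ofNat (nat_lit 0)), (.negSucc (nat_lit 3220266331269544393040723967))⟩,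
    ⟨nat_lit 8, nat_lit 9, (.ofNat (nat_lit 226541312)), (.ofNat (nat_lit 564444736)), (.ofNat (nat_lit 226541328)), (.ofNat (nat_lit 564444720)), (.ofNat (nat_lit 3071085292119545357743)), (.ofNat (nat_lit 0)), (.negSucc (nat_lit 4830399496904316589561085951))⟩,
    ⟨nat_lit 10, nat_lit 9, (.ofNat (nat_lit 246005504)), (.ofNat (nat_lit 564444736)), (.ofNat (nat_lit 246005520)), (.ofNat (nat_lit 564444720)), (.negSucc (nat_lit 3071085292119545357742)), (.ofNat (nat_lit 0)), (.ofNat (nat_lit 16101331656347721965203619840))⟩,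
    ⟨nat_lit 11, nat_lit 10, (.ofNat (nat_lit 43958144)), (.ofNat (nat_lit 246005504)), (.ofNat (nat_lit 43958160)), (.ofNat (nat_lit 246005488)), (.ofNat (nat_lit 3071085292119545357743)), (.ofNat (nat_lit 0)), (.ofNat (nat_lit 12881065325078177572162895872))⟩,
    ⟨nat_lit 11, nat_lit 12, (.ofNat (nat_lit 43958144)), (.ofNat (nat_lit 238599936)), (.ofNat (nat_lit 43958160)), (.ofNat (nat_lit 238599920)), (.negSucc (nat_lit 3071085292119545357742)), (.ofNat (nat_lit 0)), (.ofNat (nat_lit 0))⟩,
    ⟨nat_lit 13, nat_lit 12, (.ofNat (nat_lit 114147136)), (.ofNat (nat_lit 238599936)), (.ofNat (nat_lit 114147152)), (.ofNat (nat_lit 238599920)), (.ofNat (nat_lit 3071085292119545357743)), (.ofNat (nat_lit 0)), (.negSucc (nat_lit 1610133165634772196520361983))⟩,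
    ⟨nat_lit 14, nat_lit 13, (.negSucc (nat_lit 294010879)), (.ofNat (nat_lit 114147136)), (.negSucc (nat_lit 294010863)), (.ofNat (nat_lit 114147120)), (.negSucc (nat_lit 3071085292119545357742)), (.ofNat (nat_lit 0)), (.negSucc (nat_lit 1610133165634772196520361983))⟩,
    ⟨nat_lit 15, nat_lit 14, (.negSucc (nat_lit 423739391)), (.negSucc (nat_lit 294010879)), (.negSucc (nat_lit 423739375)), (.negSucc (nat_lit 294010895)), (.ofNat (nat_lit 3071085292119545357743)), (.ofNat (nat_lit 0)), (.ofNat (nat_lit 19321597987617266358244343808))⟩,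
    ⟨nat_lit 16, nat_lit 17, (.negSucc (nat_lit 87359487)), (.ofNat (nat_lit 433634944)), (.negSucc (nat_lit 87359471)), (.ofNat (nat_lit 433634928)), (.ofNat (nat_lit 3071085292119545357743)), (.ofNat (nat_lit 0)), (.negSucc (nat_lit 3220266331269544393040723967))⟩,
    ⟨nat_lit 18, nat_lit 17, (.ofNat (nat_lit 111066944)), (.ofNat (nat_lit 433634944)), (.ofNat (nat_lit 111066960)), (.ofNat (nat_lit 433634928)), (.negSucc (nat_lit 3071085292119545357742)), (.ofNat (nat_lit 0)), (.ofNat (nat_lit 14491198490712949768683257856))⟩,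
    ⟨nat_lit 19, nat_lit 18, (.negSucc (nat_lit 276316159)), (.ofNat (nat_lit 111066944)), (.negSucc (nat_lit 276316143)), (.ofNat (nat_lit 111066928)), (.ofNat (nat_lit 3071085292119545357743)), (.ofNat (nat_lit 0)), (.ofNat (nat_lit 14491198490712949768683257856))⟩,
    ⟨nat_lit 20, nat_lit 19, (.negSucc (nat_lit 422461439)), (.negSucc (nat_lit 276316159)), (.negSucc (nat_lit 422461423)), (.negSucc (nat_lit 276316175)), (.negSucc (nat_lit 3071085292119545357742)), (.ofNat (nat_lit 0)), (.negSucc (nat_lit 6440532662539088786081447935))⟩,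
    ⟨nat_lit 20, nat_lit 21, (.negSucc (nat_lit 422461439)), (.negSucc (nat_lit 214384703)), (.negSucc (nat_lit 422461423)), (.negSucc (nat_lit 214384719)), (.ofNat (nat_lit 3071085292119545357743)), (.ofNat (nat_lit 0)), (.ofNat (nat_lit 20931731153252038554764705792))⟩,
    ⟨nat_lit 21, nat_lit 22, (.negSucc (nat_lit 214384703)), (.ofNat (nat_lit 39763840)), (.negSucc (nat_lit 214384687)), (.ofNat (nat_lit 39763824)), (.negSucc (nat_lit 3071085292119545357742)), (.ofNat (nat_lit 0)), (.ofNat (nat_lit 12881065325078177572162895872))⟩,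
    ⟨nat_lit 0, nat_lit 22, (.negSucc (nat_lit 283049855)), (.ofNat (nat_lit 39763840)), (.negSucc (nat_lit 283049839)), (.ofNat (nat_lit 39763824)), (.ofNat (nat_lit 3071085292119545357743)), (.ofNat (nat_lit 0)), (.ofNat (nat_lit 0))⟩,
    ⟨nat_lit 23, nat_lit 16, (.negSucc (nat_lit 493158207)), (.negSucc (nat_lit 87359487)), (.negSucc (nat_lit 493158191)), (.negSucc (nat_lit 87359503)), (.negSucc (nat_lit 3071085292119545357742)), (.ofNat (nat_lit 0)), (.negSucc (nat_lit 11270932159443405375642533887))⟩]

theorem ok48 : stOK 23 23 S48 = true := by decide +kernel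

def S49 : SD where
  vs := [
    ⟨nat_lit 0, nat_lit 0, nat_lit 22, (.ofNat (nat_lit 8)), (.negSucc (nat_lit 286195583)), (.ofNat (nat_lit 1228329552535792056816859566336)), (.negSucc (nat_lit 1572863)), (.negSucc (nat_lit 4830399496904316589561085951)), (.negSucc (nat_lit 286195599)), (.negSucc (nat_lit 286195567)), (.negSucc (nat_lit 3071085292119545357742)), (.ofNat (nat_lit 3071085292119545357743)), (.negSucc (nat_lit 3071085292119545357742)), (.ofNat (nat_lit 3071085292119545357743)), (.ofNat (nat_lit 0))⟩,
    ⟨nat_lit 2, nat_lit 0, nat_lit 1, (.ofNat (nat_lit 8)), (.negSucc (nat_lit 570228543)), (.ofNat (nat_lit 2100618998468971198630862775616)), (.negSucc (nat_lit 5242879)), (.ofNat (nat_lit 6440532662539088786081447936)), (.negSucc (nat_lit 570228559)), (.negSucc (nat_lit 570228527)), (.negSucc (nat_lit 3071085292119545357742)), (.ofNat (nat_lit 3071085292119545357743)), (.negSucc (nat_lit 3071085292119545357742)), (.ofNat (nat_lit 3071085292119545357743)), (.ofNat (nat_lit 0))⟩,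
    ⟨nat_lit 0, nat_lit 1, nat_lit 2, (.ofNat (nat_lit 8)), (.negSucc (nat_lit 429080575)), (.ofNat (nat_lit 2534096447006331438960120291840)), (.negSucc (nat_lit 4456447)), (.ofNat (nat_lit 8855732410991247080861990912)), (.negSucc (nat_lit 429080591)), (.negSucc (nat_lit 429080559)), (.ofNat (nat_lit 3071085292119545357743)), (.negSucc (nat_lit 3071085292119545357742)), (.negSucc (nat_lit 3071085292119545357742)), (.ofNat (nat_lit 3071085292119545357743)), (.ofNat (nat_lit 0))⟩,
    ⟨nat_lit 0, nat_lit 2, nat_lit 3, (.ofNat (nat_lit 8)), (.negSucc (nat_lit 280838143)), (.ofNat (nat_lit 2078831294423099600393987940864)), (.negSucc (nat_lit 3407871)), (.ofNat (nat_lit 5635466079721702687821266944)), (.negSucc (nat_lit 280838159)), (.negSucc (nat_lit 280838127)), (.negSucc (nat_lit 3071085292119545357742)), (.ofNat (nat_lit 3071085292119545357743)), (.negSucc (nat_lit 3071085292119545357742)), (.ofNat (nat_lit 3071085292119545357743)), (.ofNat (nat_lit 0))⟩,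
    ⟨nat_lit 1, nat_lit 3, nat_lit 4, (.ofNat (nat_lit 8)), (.ofNat (nat_lit 138723136)), (.ofNat (nat_lit 3367339770573949963706698931904)), (.ofNat (nat_lit 262144)), (.ofNat (nat_lit 16906398239165108063463800832)), (.ofNat (nat_lit 138723120)), (.ofNat (nat_lit 138723152)), (.ofNat (nat_lit 3071085292119545357743)), (.negSucc (nat_lit 3071085292119545357742)), (.negSucc (nat_lit 3071085292119545357742)), (.ofNat (nat_lit 3071085292119545357743)), (.ofNat (nat_lit 0))⟩,
    ⟨nat_lit 0, nat_lit 5, nat_lit 4, (.ofNat (nat_lit 8)), (.negSucc (nat_lit 32587967)), (.ofNat (nat_lit 3893450782445111778919727210176)), (.negSucc (nat_lit 1048575)), (.ofNat (nat_lit 20931731153252038554764705792)), (.negSucc (nat_lit 32587983)), (.negSucc (nat_lit 32587951)), (.ofNat (nat_lit 3071085292119545357743)), (.negSucc (nat_lit 3071085292119545357742)), (.negSucc (nat_lit 3071085292119545357742)), (.ofNat (nat_lit 3071085292119545357743)), (.ofNat (nat_lit 0))⟩,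
    ⟨nat_lit 2, nat_lit 6, nat_lit 5, (.ofNat (nat_lit 8)), (.negSucc (nat_lit 522043391)), (.ofNat (nat_lit 2390291428650575847158395462144)), (.negSucc (nat_lit 5242879)), (.ofNat (nat_lit 8050665828173860982601809920)), (.negSucc (nat_lit 522043407)), (.negSucc (nat_lit 522043375)), (.negSucc (nat_lit 3071085292119545357742)), (.ofNat (nat_lit 3071085292119545357743)), (.negSucc (nat_lit 3071085292119545357742)), (.ofNat (nat_lit 3071085292119545357743)), (.ofNat (nat_lit 0))⟩,
    ⟨nat_lit 0, nat_lit 7, nat_lit 8, (.ofNat (nat_lit 8)), (.negSucc (nat_lit 292044799)), (.ofNat (nat_lit 2420380792183375652580869726720)), (.negSucc (nat_lit 3407871)), (.ofNat (nat_lit 7245599245356474884341628928)), (.negSucc (nat_lit 292044815)), (.negSucc (nat_lit 292044783)), (.ofNat (nat_lit 3071085292119545357743)), (.negSucc (nat_lit 3071085292119545357742)), (.negSucc (nat_lit 3071085292119545357742)), (.ofNat (nat_lit 3071085292119545357743)), (.ofNat (nat_lit 0))⟩,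
    ⟨nat_lit 0, nat_lit 8, nat_lit 9, (.ofNat (nat_lit 8)), (.ofNat (nat_lit 227065600)), (.ofNat (nat_lit 826148477757081614104757899520)), (.ofNat (nat_lit 262144)), (.negSucc (nat_lit 4025332914086930491300904959)), (.ofNat (nat_lit 227065584)), (.ofNat (nat_lit 227065616)), (.negSucc (nat_lit 3071085292119545357742)), (.ofNat (nat_lit 3071085292119545357743)), (.negSucc (nat_lit 3071085292119545357742)), (.ofNat (nat_lit 3071085292119545357743)), (.ofNat (nat_lit 0))⟩,
    ⟨nat_lit 1, nat_lit 9, nat_lit 10, (.ofNat (nat_lit 8)), (.ofNat (nat_lit 571260480)), (.ofNat (nat_lit 1883200311347933474167666855360)), (.ofNat (nat_lit 3407872)), (.ofNat (nat_lit 5635466079721702687821266944)), (.ofNat (nat_lit 571260464)), (.ofNat (nat_lit 571260496)), (.ofNat (nat_lit 3071085292119545357743)), (.negSucc (nat_lit 3071085292119545357742)), (.negSucc (nat_lit 3071085292119545357742)), (.ofNat (nat_lit 3071085292119545357743)), (.ofNat (nat_lit 0))⟩,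
    ⟨nat_lit 0, nat_lit 11, nat_lit 10, (.ofNat (nat_lit 8)), (.ofNat (nat_lit 247054080)), (.ofNat (nat_lit 2878865817998959644238237010560)), (.ofNat (nat_lit 524288)), (.ofNat (nat_lit 14491198490712949768683257856)), (.ofNat (nat_lit 247054064)), (.ofNat (nat_lit 247054096)), (.ofNat (nat_lit 3071085292119545357743)), (.negSucc (nat_lit 3071085292119545357742)), (.negSucc (nat_lit 3071085292119545357742)), (.ofNat (nat_lit 3071085292119545357743)), (.ofNat (nat_lit 0))⟩,
    ⟨nat_lit 0, nat_lit 21, nat_lit 11, (.ofNat (nat_lit 8)), (.ofNat (nat_lit 41860992)), (.ofNat (nat_lit 2248700343397568067126886130176)), (.ofNat (nat_lit 0)), (.ofNat (nat_lit 12881065325078177572162895872)), (.ofNat (nat_lit 41860976)), (.ofNat (nat_lit 41861008)), (.negSucc (nat_lit 3071085292119545357742)), (.ofNat (nat_lit 3071085292119545357743)), (.negSucc (nat_lit 3071085292119545357742)), (.ofNat (nat_lit 3071085292119545357743)), (.ofNat (nat_lit 0))⟩,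
    ⟨nat_lit 1, nat_lit 13, nat_lit 12, (.ofNat (nat_lit 8)), (.ofNat (nat_lit 239124224)), (.ofNat (nat_lit 1630007067601324241915742828928)), (.ofNat (nat_lit 262144)), (.negSucc (nat_lit 805066582817386098260180991)), (.ofNat (nat_lit 239124208)), (.ofNat (nat_lit 239124240)), (.ofNat (nat_lit 3071085292119545357743)), (.negSucc (nat_lit 3071085292119545357742)), (.negSucc (nat_lit 3071085292119545357742)), (.ofNat (nat_lit 3071085292119545357743)), (.ofNat (nat_lit 0))⟩,
    ⟨nat_lit 0, nat_lit 14, nat_lit 13, (.ofNat (nat_lit 8)), (.ofNat (nat_lit 114147136)), (.ofNat (nat_lit 1246191770792594115221104436544)), (.ofNat (nat_lit 0)), (.negSucc (nat_lit 1610133165634772196520361983)), (.ofNat (nat_lit 114147120)), (.ofNat (nat_lit 114147152)), (.negSucc (nat_lit 3071085292119545357742)), (.ofNat (nat_lit 3071085292119545357743)), (.negSucc (nat_lit 3071085292119545357742)), (.ofNat (nat_lit 3071085292119545357743)), (.ofNat (nat_lit 0))⟩,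
    ⟨nat_lit 0, nat_lit 15, nat_lit 14, (.ofNat (nat_lit 8)), (.negSucc (nat_lit 300826623)), (.ofNat (nat_lit 2520611581744140221814262260224)), (.negSucc (nat_lit 3407871)), (.ofNat (nat_lit 8855732410991247080861990912)), (.negSucc (nat_lit 300826639)), (.negSucc (nat_lit 300826607)), (.ofNat (nat_lit 3071085292119545357743)), (.negSucc (nat_lit 3071085292119545357742)), (.negSucc (nat_lit 3071085292119545357742)), (.ofNat (nat_lit 3071085292119545357743)), (.ofNat (nat_lit 0))⟩,
    ⟨nat_lit 0, nat_lit 6, nat_lit 15, (.ofNat (nat_lit 8)), (.negSucc (nat_lit 432652287)), (.ofNat (nat_lit 2115763723909847187651673743872)), (.negSucc (nat_lit 4456447)), (.ofNat (nat_lit 5635466079721702687821266944)), (.negSucc (nat_lit 432652303)), (.negSucc (nat_lit 432652271)), (.negSucc (nat_lit 3071085292119545357742)), (.ofNat (nat_lit 3071085292119545357743)), (.negSucc (nat_lit 3071085292119545357742)), (.ofNat (nat_lit 3071085292119545357743)), (.ofNat (nat_lit 0))⟩,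
    ⟨nat_lit 0, nat_lit 23, nat_lit 16, (.ofNat (nat_lit 8)), (.negSucc (nat_lit 89980927)), (.ofNat (nat_lit 506587754138922811028413098112)), (.negSucc (nat_lit 1310719)), (.negSucc (nat_lit 7245599245356474884341628927)), (.negSucc (nat_lit 89980943)), (.negSucc (nat_lit 89980911)), (.negSucc (nat_lit 3071085292119545357742)), (.ofNat (nat_lit 3071085292119545357743)), (.negSucc (nat_lit 3071085292119545357742)), (.ofNat (nat_lit 3071085292119545357743)), (.ofNat (nat_lit 0))⟩,
    ⟨nat_lit 1, nat_lit 16, nat_lit 17, (.ofNat (nat_lit 8)), (.ofNat (nat_lit 439402112)), (.ofNat (nat_lit 2132368222180455775928289976832)), (.ofNat (nat_lit 2883584)), (.ofNat (nat_lit 5635466079721702687821266944)), (.ofNat (nat_lit 439402096)), (.ofNat (nat_lit 439402128)), (.ofNat (nat_lit 3071085292119545357743)), (.negSucc (nat_lit 3071085292119545357742)), (.negSucc (nat_lit 3071085292119545357742)), (.ofNat (nat_lit 3071085292119545357743)), (.ofNat (nat_lit 0))⟩,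
    ⟨nat_lit 0, nat_lit 18, nat_lit 17, (.ofNat (nat_lit 8)), (.ofNat (nat_lit 111066944)), (.ofNat (nat_lit 3140713527510855777046457982656)), (.ofNat (nat_lit 0)), (.ofNat (nat_lit 14491198490712949768683257856)), (.ofNat (nat_lit 111066928)), (.ofNat (nat_lit 111066960)), (.ofNat (nat_lit 3071085292119545357743)), (.negSucc (nat_lit 3071085292119545357742)), (.negSucc (nat_lit 3071085292119545357742)), (.ofNat (nat_lit 3071085292119545357743)), (.ofNat (nat_lit 0))⟩,
    ⟨nat_lit 0, nat_lit 19, nat_lit 18, (.ofNat (nat_lit 8)), (.negSucc (nat_lit 283131903)), (.ofNat (nat_lit 1930095243247587518740419502592)), (.negSucc (nat_lit 3407871)), (.ofNat (nat_lit 4025332914086930491300904960)), (.negSucc (nat_lit 283131919)), (.negSucc (nat_lit 283131887)), (.negSucc (nat_lit 3071085292119545357742)), (.ofNat (nat_lit 3071085292119545357743)), (.negSucc (nat_lit 3071085292119545357742)), (.ofNat (nat_lit 3071085292119545357743)), (.ofNat (nat_lit 0))⟩,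
    ⟨nat_lit 2, nat_lit 19, nat_lit 20, (.ofNat (nat_lit 8)), (.negSucc (nat_lit 431374335)), (.ofNat (nat_lit 2385360395830819357306551853568)), (.negSucc (nat_lit 4456447)), (.ofNat (nat_lit 7245599245356474884341628928)), (.negSucc (nat_lit 431374351)), (.negSucc (nat_lit 431374319)), (.negSucc (nat_lit 3071085292119545357742)), (.ofNat (nat_lit 3071085292119545357743)), (.negSucc (nat_lit 3071085292119545357742)), (.ofNat (nat_lit 3071085292119545357743)), (.ofNat (nat_lit 0))⟩,
    ⟨nat_lit 0, nat_lit 20, nat_lit 21, (.ofNat (nat_lit 8)), (.negSucc (nat_lit 217006143)), (.ofNat (nat_lit 3043703397380278143507911964224)), (.negSucc (nat_lit 1310719)), (.ofNat (nat_lit 16906398239165108063463800832)), (.negSucc (nat_lit 217006159)), (.negSucc (nat_lit 217006127)), (.ofNat (nat_lit 3071085292119545357743)), (.negSucc (nat_lit 3071085292119545357742)), (.negSucc (nat_lit 3071085292119545357742)), (.ofNat (nat_lit 3071085292119545357743)), (.ofNat (nat_lit 0))⟩,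
    ⟨nat_lit 0, nat_lit 22, nat_lit 12, (.ofNat (nat_lit 8)), (.ofNat (nat_lit 41860992)), (.ofNat (nat_lit 2235819278072489889554723234304)), (.ofNat (nat_lit 0)), (.ofNat (nat_lit 0)), (.ofNat (nat_lit 41860976)), (.ofNat (nat_lit 41861008)), (.ofNat (nat_lit 3071085292119545357743)), (.negSucc (nat_lit 3071085292119545357742)), (.negSucc (nat_lit 3071085292119545357742)), (.ofNat (nat_lit 3071085292119545357743)), (.ofNat (nat_lit 0))⟩,
    ⟨nat_lit 2, nat_lit 23, nat_lit 7, (.ofNat (nat_lit 8)), (.negSucc (nat_lit 502595391)), (.ofNat (nat_lit 1773761965845112442737229292864)), (.negSucc (nat_lit 4718591)), (.ofNat (nat_lit 3220266331269544393040723968)), (.negSucc (nat_lit 502595407)), (.negSucc (nat_lit 502595375)), (.negSucc (nat_lit 3071085292119545357742)), (.ofNat (nat_lit 3071085292119545357743)), (.negSucc (nat_lit 3071085292119545357742)), (.ofNat (nat_lit 3071085292119545357743)), (.ofNat (nat_lit 0))⟩]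
  es := [
    ⟨nat_lit 1, nat_lit 0, (.negSucc (nat_lit 570228543)), (.negSucc (nat_lit 286195583)), (.negSucc (nat_lit 570228527)), (.negSucc (nat_lit 286195599)), (.negSucc (nat_lit 3071085292119545357742)), (.ofNat (nat_lit 0)), (.negSucc (nat_lit 9660798993808633179122171903))⟩,
    ⟨nat_lit 1, nat_lit 2, (.negSucc (nat_lit 570228543)), (.negSucc (nat_lit 429080575)), (.negSucc (nat_lit 570228527)), (.negSucc (nat_lit 429080591)), (.ofNat (nat_lit 3071085292119545357743)), (.ofNat (nat_lit 0)), (.ofNat (nat_lit 22541864318886810751285067776))⟩,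
    ⟨nat_lit 2, nat_lit 3, (.negSucc (nat_lit 429080575)), (.negSucc (nat_lit 280838143)), (.negSucc (nat_lit 429080559)), (.negSucc (nat_lit 280838159)), (.negSucc (nat_lit 3071085292119545357742)), (.ofNat (nat_lit 0)), (.negSucc (nat_lit 4830399496904316589561085951))⟩,
    ⟨nat_lit 3, nat_lit 4, (.negSucc (nat_lit 280838143)), (.ofNat (nat_lit 138723136)), (.negSucc (nat_lit 280838127)), (.ofNat (nat_lit 138723120)), (.ofNat (nat_lit 3071085292119545357743)), (.ofNat (nat_lit 0)), (.ofNat (nat_lit 16101331656347721965203619840))⟩,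
    ⟨nat_lit 5, nat_lit 4, (.negSucc (nat_lit 32587967)), (.ofNat (nat_lit 138723136)), (.negSucc (nat_lit 32587951)), (.ofNat (nat_lit 138723120)), (.negSucc (nat_lit 3071085292119545357742)), (.ofNat (nat_lit 0)), (.ofNat (nat_lit 17711464821982494161723981824))⟩,
    ⟨nat_lit 6, nat_lit 5, (.negSucc (nat_lit 522043391)), (.negSucc (nat_lit 32587967)), (.negSucc (nat_lit 522043375)), (.negSucc (nat_lit 32587983)), (.ofNat (nat_lit 3071085292119545357743)), (.ofNat (nat_lit 0)), (.ofNat (nat_lit 24151997484521582947805429760))⟩,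
    ⟨nat_lit 6, nat_lit 15, (.negSucc (nat_lit 522043391)), (.negSucc (nat_lit 432652287)), (.negSucc (nat_lit 522043375)), (.negSucc (nat_lit 432652303)), (.negSucc (nat_lit 3071085292119545357742)), (.ofNat (nat_lit 0)), (.negSucc (nat_lit 8050665828173860982601809919))⟩,
    ⟨nat_lit 23, nat_lit 7, (.negSucc (nat_lit 502595391)), (.negSucc (nat_lit 292044799)), (.negSucc (nat_lit 502595375)), (.negSucc (nat_lit 292044815)), (.ofNat (nat_lit 3071085292119545357743)), (.ofNat (nat_lit 0)), (.ofNat (nat_lit 17711464821982494161723981824))⟩,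
    ⟨nat_lit 7, nat_lit 8, (.negSucc (nat_lit 292044799)), (.ofNat (nat_lit 227065600)), (.negSucc (nat_lit 292044783)), (.ofNat (nat_lit 227065584)), (.negSucc (nat_lit 3071085292119545357742)), (.ofNat (nat_lit 0)), (.negSucc (nat_lit 3220266331269544393040723967))⟩,
    ⟨nat_lit 8, nat_lit 9, (.ofNat (nat_lit 227065600)), (.ofNat (nat_lit 571260480)), (.ofNat (nat_lit 227065616)), (.ofNat (nat_lit 571260464)), (.ofNat (nat_lit 3071085292119545357743)), (.ofNat (nat_lit 0)), (.negSucc (nat_lit 4830399496904316589561085951))⟩,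
    ⟨nat_lit 10, nat_lit 9, (.ofNat (nat_lit 247054080)), (.ofNat (nat_lit 571260480)), (.ofNat (nat_lit 247054096)), (.ofNat (nat_lit 571260464)), (.negSucc (nat_lit 3071085292119545357742)), (.ofNat (nat_lit 0)), (.ofNat (nat_lit 16101331656347721965203619840))⟩,
    ⟨nat_lit 11, nat_lit 10, (.ofNat (nat_lit 41860992)), (.ofNat (nat_lit 247054080)), (.ofNat (nat_lit 41861008)), (.ofNat (nat_lit 247054064)), (.ofNat (nat_lit 3071085292119545357743)), (.ofNat (nat_lit 0)), (.ofNat (nat_lit 12881065325078177572162895872))⟩,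
    ⟨nat_lit 22, nat_lit 12, (.ofNat (nat_lit 41860992)), (.ofNat (nat_lit 239124224)), (.ofNat (nat_lit 41861008)), (.ofNat (nat_lit 239124208)), (.negSucc (nat_lit 3071085292119545357742)), (.ofNat (nat_lit 0)), (.ofNat (nat_lit 0))⟩,
    ⟨nat_lit 13, nat_lit 12, (.ofNat (nat_lit 114147136)), (.ofNat (nat_lit 239124224)), (.ofNat (nat_lit 114147152)), (.ofNat (nat_lit 239124208)), (.ofNat (nat_lit 3071085292119545357743)), (.ofNat (nat_lit 0)), (.negSucc (nat_lit 1610133165634772196520361983))⟩,
    ⟨nat_lit 14, nat_lit 13, (.negSucc (nat_lit 300826623)), (.ofNat (nat_lit 114147136)), (.negSucc (nat_lit 300826607)), (.ofNat (nat_lit 114147120)), (.negSucc (nat_lit 3071085292119545357742)), (.ofNat (nat_lit 0)), (.negSucc (nat_lit 1610133165634772196520361983))⟩,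
    ⟨nat_lit 15, nat_lit 14, (.negSucc (nat_lit 432652287)), (.negSucc (nat_lit 300826623)), (.negSucc (nat_lit 432652271)), (.negSucc (nat_lit 300826639)), (.ofNat (nat_lit 3071085292119545357743)), (.ofNat (nat_lit 0)), (.ofNat (nat_lit 19321597987617266358244343808))⟩,
    ⟨nat_lit 16, nat_lit 17, (.negSucc (nat_lit 89980927)), (.ofNat (nat_lit 439402112)), (.negSucc (nat_lit 89980911)), (.ofNat (nat_lit 439402096)), (.ofNat (nat_lit 3071085292119545357743)), (.ofNat (nat_lit 0)), (.negSucc (nat_lit 3220266331269544393040723967))⟩,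
    ⟨nat_lit 18, nat_lit 17, (.ofNat (nat_lit 111066944)), (.ofNat (nat_lit 439402112)), (.ofNat (nat_lit 111066960)), (.ofNat (nat_lit 439402096)), (.negSucc (nat_lit 3071085292119545357742)), (.ofNat (nat_lit 0)), (.ofNat (nat_lit 14491198490712949768683257856))⟩,
    ⟨nat_lit 19, nat_lit 18, (.negSucc (nat_lit 283131903)), (.ofNat (nat_lit 111066944)), (.negSucc (nat_lit 283131887)), (.ofNat (nat_lit 111066928)), (.ofNat (nat_lit 3071085292119545357743)), (.ofNat (nat_lit 0)), (.ofNat (nat_lit 14491198490712949768683257856))⟩,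
    ⟨nat_lit 20, nat_lit 19, (.negSucc (nat_lit 431374335)), (.negSucc (nat_lit 283131903)), (.negSucc (nat_lit 431374319)), (.negSucc (nat_lit 283131919)), (.negSucc (nat_lit 3071085292119545357742)), (.ofNat (nat_lit 0)), (.negSucc (nat_lit 6440532662539088786081447935))⟩,
    ⟨nat_lit 20, nat_lit 21, (.negSucc (nat_lit 431374335)), (.negSucc (nat_lit 217006143)), (.negSucc (nat_lit 431374319)), (.negSucc (nat_lit 217006159)), (.ofNat (nat_lit 3071085292119545357743)), (.ofNat (nat_lit 0)), (.ofNat (nat_lit 20931731153252038554764705792))⟩,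
    ⟨nat_lit 21, nat_lit 11, (.negSucc (nat_lit 217006143)), (.ofNat (nat_lit 41860992)), (.negSucc (nat_lit 217006127)), (.ofNat (nat_lit 41860976)), (.negSucc (nat_lit 3071085292119545357742)), (.ofNat (nat_lit 0)), (.ofNat (nat_lit 12881065325078177572162895872))⟩,
    ⟨nat_lit 0, nat_lit 22, (.negSucc (nat_lit 286195583)), (.ofNat (nat_lit 41860992)), (.negSucc (nat_lit 286195567)), (.ofNat (nat_lit 41860976)), (.ofNat (nat_lit 3071085292119545357743)), (.ofNat (nat_lit 0)), (.ofNat (nat_lit 0))⟩,
    ⟨nat_lit 23, nat_lit 16, (.negSucc (nat_lit 502595391)), (.negSucc (nat_lit 89980927)), (.negSucc (nat_lit 502595375)), (.negSucc (nat_lit 89980943)), (.negSucc (nat_lit 3071085292119545357742)), (.ofNat (nat_lit 0)), (.negSucc (nat_lit 11270932159443405375642533887))⟩]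

theorem ok49 : stOK 23 23 S49 = true := by decide +kernel

end LCA.CapJ


end

section

set_option maxRecDepth 100000

namespace LCA.CapJ

open LCA

def S250 : SD where
  vs := [
    ⟨nat_lit 1, nat_lit 3, nat_lit 4, (.ofNat (nat_lit 16)), (.ofNat (nat_lit 274877906944000)), (.ofNat (nat_lit 9441935324559454765699640287916050509276049833984000000)), (.ofNat (nat_lit 0)), (.ofNat (nat_lit 103365135846798870316736963685655256110202880000000000)), (.ofNat (nat_lit 274877906943968)), (.ofNat (nat_lit 274877906944032)), (.negSucc (nat_lit 539282631510822876000876418578776063999999)), (.negSucc (nat_lit 552437200492855727735569940427571199999999)), (.negSucc (nat_lit 552437200492855727735569940427571199999999)), (.negSucc (nat_lit 539282631510822876000876418578776063999999)), (.ofNat (nat_lit 345273250308034829834731212767232000000))⟩,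
    ⟨nat_lit 2, nat_lit 0, nat_lit 1, (.ofNat (nat_lit 16)), (.negSucc (nat_lit 549755813887999)), (.ofNat (nat_lit 120279437284502097135725017355140140065026473984000000)), (.ofNat (nat_lit 0)), (.ofNat (nat_lit 0)), (.negSucc (nat_lit 549755813888031)), (.negSucc (nat_lit 549755813887967)), (.ofNat (nat_lit 1138786387550619430837085758386339840000000)), (.ofNat (nat_lit 0)), (.ofNat (nat_lit 0)), (.ofNat (nat_lit 1138786387550619430837085758386339840000000)), (.ofNat (nat_lit 136741881310112803894943054561280000000))⟩,
    ⟨nat_lit 1, nat_lit 5, nat_lit 11, (.ofNat (nat_lit 16)), (.ofNat (nat_lit 1099511627776000)), (.ofNat (nat_lit 120279437284502097135725017355140140065026473984000000)), (.ofNat (nat_lit 0)), (.ofNat (nat_lit 0)), (.ofNat (nat_lit 1099511627775968)), (.ofNat (nat_lit 1099511627776032)), (.ofNat (nat_lit 1138786387550619430837085758386339840000000)), (.ofNat (nat_lit 0)), (.ofNat (nat_lit 0)), (.ofNat (nat_lit 1138786387550619430837085758386339840000000)), (.ofNat (nat_lit 136741881310112803894943054561280000000))⟩,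
    ⟨nat_lit 2, nat_lit 3, nat_lit 2, (.ofNat (nat_lit 16)), (.ofNat (nat_lit 0)), (.ofNat (nat_lit 157678816325506867403934999336456850162882638249984000000)), (.ofNat (nat_lit 0)), (.ofNat (nat_lit 56146062425874840922045759820162741387132928000000000)), (.negSucc (nat_lit 31)), (.ofNat (nat_lit 32)), (.negSucc (nat_lit 539282631510822876000876418578776063999999)), (.negSucc (nat_lit 570660335208783427401302684832104447999999)), (.negSucc (nat_lit 570660335208783427401302684832104447999999)), (.negSucc (nat_lit 539282631510822876000876418578776063999999)), (.ofNat (nat_lit 846090390606322974099960150097920000000))⟩,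
    ⟨nat_lit 0, nat_lit 0, nat_lit 4, (.ofNat (nat_lit 16)), (.negSucc (nat_lit 274877906943999)), (.ofNat (nat_lit 313147498103517590096330428135223130280344875433984000000)), (.ofNat (nat_lit 0)), (.ofNat (nat_lit 9396830531527170028794269425968659646382080000000000)), (.negSucc (nat_lit 274877906944031)), (.negSucc (nat_lit 274877906943967)), (.ofNat (nat_lit 1138786387550619430837085758386339840000000)), (.negSucc (nat_lit 552437200492855727735569940427571199999999)), (.negSucc (nat_lit 552437200492855727735569940427571199999999)), (.ofNat (nat_lit 1138786387550619430837085758386339840000000)), (.ofNat (nat_lit 341854703275282009737357636403200000000))⟩,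
    ⟨nat_lit 0, nat_lit 2, nat_lit 5, (.ofNat (nat_lit 16)), (.ofNat (nat_lit 824633720832000)), (.negSucc (nat_lit 312906939228948585902058978100512850000214822486015999999)), (.ofNat (nat_lit 0)), (.negSucc (nat_lit 9396830531527170028794269425968659646382079999999999)), (.ofNat (nat_lit 824633720831968)), (.ofNat (nat_lit 824633720832032)), (.negSucc (nat_lit 570660335208783427401302684832104447999999)), (.ofNat (nat_lit 1138786387550619430837085758386339840000000)), (.negSucc (nat_lit 570660335208783427401302684832104447999999)), (.ofNat (nat_lit 1138786387550619430837085758386339840000000)), (.ofNat (nat_lit 386295814701068671003214129135616000000))⟩,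
    ⟨nat_lit 1, nat_lit 9, nat_lit 8, (.ofNat (nat_lit 16)), (.ofNat (nat_lit 2199023255552000)), (.ofNat (nat_lit 5283394277483120579086425767073974339721925685673984000000)), (.ofNat (nat_lit 0)), (.ofNat (nat_lit 0)), (.ofNat (nat_lit 2199023255551968)), (.ofNat (nat_lit 2199023255552032)), (.ofNat (nat_lit 2176930750456995838007493428615577600000000)), (.ofNat (nat_lit 1508673176494474565372906720974602240000000)), (.ofNat (nat_lit 1508673176494474565372906720974602240000000)), (.ofNat (nat_lit 2176930750456995838007493428615577600000000)), (.ofNat (nat_lit 8546367581882050243433940910080000000))⟩,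
    ⟨nat_lit 2, nat_lit 9, nat_lit 6, (.ofNat (nat_lit 16)), (.ofNat (nat_lit 1388133430067200)), (.ofNat (nat_lit 3518143281152552526157249489789205813191173665193984000000)), (.ofNat (nat_lit 0)), (.ofNat (nat_lit 0)), (.ofNat (nat_lit 1388133430067168)), (.ofNat (nat_lit 1388133430067232)), (.ofNat (nat_lit 2176930750456995838007493428615577600000000)), (.ofNat (nat_lit 2198809451466613886630684317345382400000000)), (.ofNat (nat_lit 2176930750456995838007493428615577600000000)), (.ofNat (nat_lit 2198809451466613886630684317345382400000000)), (.ofNat (nat_lit 0))⟩,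
    ⟨nat_lit 0, nat_lit 6, nat_lit 7, (.ofNat (nat_lit 16)), (.ofNat (nat_lit 1429365116108800)), (.ofNat (nat_lit 3608803902120726662595056601210951441459467973033984000000)), (.ofNat (nat_lit 0)), (.ofNat (nat_lit 0)), (.ofNat (nat_lit 1429365116108768)), (.ofNat (nat_lit 1429365116108832)), (.ofNat (nat_lit 2198809451466613886630684317345382400000000)), (.ofNat (nat_lit 3843472428923995635477111906081177600000000)), (.ofNat (nat_lit 2198809451466613886630684317345382400000000)), (.ofNat (nat_lit 3843472428923995635477111906081177600000000)), (.ofNat (nat_lit 21365918954705125608584852275200000000))⟩,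
    ⟨nat_lit 0, nat_lit 7, nat_lit 8, (.ofNat (nat_lit 16)), (.ofNat (nat_lit 1649267441664000)), (.ofNat (nat_lit 4453992427448406443664928370460276564693657776553984000000)), (.ofNat (nat_lit 0)), (.negSucc (nat_lit 2349207632881792507198567356492164911595519999999999)), (.ofNat (nat_lit 1649267441663968)), (.ofNat (nat_lit 1649267441664032)), (.ofNat (nat_lit 3843472428923995635477111906081177600000000)), (.ofNat (nat_lit 1508673176494474565372906720974602240000000)), (.ofNat (nat_lit 1508673176494474565372906720974602240000000)), (.ofNat (nat_lit 3843472428923995635477111906081177600000000)), (.ofNat (nat_lit 51278205491292301460603645460480000000))⟩,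
    ⟨nat_lit 0, nat_lit 1, nat_lit 10, (.ofNat (nat_lit 128)), (.ofNat (nat_lit 439804651110336)), (.ofNat (nat_lit 120279437284502097135725017355140140065026473984000000)), (.ofNat (nat_lit 0)), (.ofNat (nat_lit 0)), (.ofNat (nat_lit 439804651110080)), (.ofNat (nat_lit 439804651110592)), (.ofNat (nat_lit 0)), (.ofNat (nat_lit 0)), (.ofNat (nat_lit 0)), (.ofNat (nat_lit 0)), (.ofNat (nat_lit 0))⟩,
    ⟨nat_lit 0, nat_lit 10, nat_lit 11, (.ofNat (nat_lit 16)), (.ofNat (nat_lit 494780232499200)), (.ofNat (nat_lit 120279437284502097135725017355140140065026473984000000)), (.ofNat (nat_lit 0)), (.ofNat (nat_lit 0)), (.ofNat (nat_lit 494780232499168)), (.ofNat (nat_lit 494780232499232)), (.ofNat (nat_lit 0)), (.ofNat (nat_lit 0)), (.ofNat (nat_lit 0)), (.ofNat (nat_lit 0)), (.ofNat (nat_lit 0))⟩]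
  es := [
    ⟨nat_lit 1, nat_lit 4, (.negSucc (nat_lit 549755813887999)), (.negSucc (nat_lit 274877906943999)), (.negSucc (nat_lit 549755813887967)), (.negSucc (nat_lit 274877906944031)), (.ofNat (nat_lit 1138786387550619430837085758386339840000000)), (.ofNat (nat_lit 34185470327528200973735763640320000000)), (.ofNat (nat_lit 18793661063054340057588538851937319292764160000000000))⟩,
    ⟨nat_lit 1, nat_lit 10, (.negSucc (nat_lit 549755813887999)), (.ofNat (nat_lit 439804651110336)), (.negSucc (nat_lit 549755813887967)), (.ofNat (nat_lit 439804651110080)), (.ofNat (nat_lit 0)), (.ofNat (nat_lit 0)), (.ofNat (nat_lit 0))⟩,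
    ⟨nat_lit 3, nat_lit 5, (.ofNat (nat_lit 0)), (.ofNat (nat_lit 824633720832000)), (.ofNat (nat_lit 32)), (.ofNat (nat_lit 824633720831968)), (.negSucc (nat_lit 570660335208783427401302684832104447999999)), (.negSucc (nat_lit 79481218511503067263935650463743999999)), (.ofNat (nat_lit 56146062425874840922045759820162741387132928000000000))⟩,
    ⟨nat_lit 3, nat_lit 0, (.ofNat (nat_lit 0)), (.ofNat (nat_lit 274877906944000)), (.ofNat (nat_lit 32)), (.ofNat (nat_lit 274877906943968)), (.negSucc (nat_lit 539282631510822876000876418578776063999999)), (.ofNat (nat_lit 171781988395829209893022212292608000000)), (.ofNat (nat_lit 56146062425874840922045759820162741387132928000000000))⟩,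
    ⟨nat_lit 4, nat_lit 0, (.negSucc (nat_lit 274877906943999)), (.ofNat (nat_lit 274877906944000)), (.negSucc (nat_lit 274877906943967)), (.ofNat (nat_lit 274877906943968)), (.negSucc (nat_lit 552437200492855727735569940427571199999999)), (.ofNat (nat_lit 170927351637641004868678818201600000000)), (.ofNat (nat_lit 56380983189163020172765616555811957878292480000000000))⟩,
    ⟨nat_lit 5, nat_lit 2, (.ofNat (nat_lit 824633720832000)), (.ofNat (nat_lit 1099511627776000)), (.ofNat (nat_lit 824633720832032)), (.ofNat (nat_lit 1099511627775968)), (.ofNat (nat_lit 1138786387550619430837085758386339840000000)), (.ofNat (nat_lit 34185470327528200973735763640320000000)), (.negSucc (nat_lit 37587322126108680115177077703874638585528319999999999))⟩,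
    ⟨nat_lit 7, nat_lit 8, (.ofNat (nat_lit 1388133430067200)), (.ofNat (nat_lit 1429365116108800)), (.ofNat (nat_lit 1388133430067232)), (.ofNat (nat_lit 1429365116108768)), (.ofNat (nat_lit 2198809451466613886630684317345382400000000)), (.ofNat (nat_lit 0)), (.ofNat (nat_lit 0))⟩,
    ⟨nat_lit 8, nat_lit 9, (.ofNat (nat_lit 1429365116108800)), (.ofNat (nat_lit 1649267441664000)), (.ofNat (nat_lit 1429365116108832)), (.ofNat (nat_lit 1649267441663968)), (.ofNat (nat_lit 3843472428923995635477111906081177600000000)), (.negSucc (nat_lit 10682959477352562804292426137599999999)), (.ofNat (nat_lit 15269849613731651296790687817199071925370880000000000))⟩,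
    ⟨nat_lit 9, nat_lit 6, (.ofNat (nat_lit 1649267441664000)), (.ofNat (nat_lit 2199023255552000)), (.ofNat (nat_lit 1649267441664032)), (.ofNat (nat_lit 2199023255551968)), (.ofNat (nat_lit 1508673176494474565372906720974602240000000)), (.ofNat (nat_lit 4273183790941025121716970455040000000)), (.negSucc (nat_lit 9396830531527170028794269425968659646382079999999999))⟩,
    ⟨nat_lit 7, nat_lit 6, (.ofNat (nat_lit 1388133430067200)), (.ofNat (nat_lit 2199023255552000)), (.ofNat (nat_lit 1388133430067232)), (.ofNat (nat_lit 2199023255551968)), (.ofNat (nat_lit 2176930750456995838007493428615577600000000)), (.ofNat (nat_lit 0)), (.ofNat (nat_lit 0))⟩,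
    ⟨nat_lit 10, nat_lit 11, (.ofNat (nat_lit 439804651110336)), (.ofNat (nat_lit 494780232499200)), (.ofNat (nat_lit 439804651110592)), (.ofNat (nat_lit 494780232499168)), (.ofNat (nat_lit 0)), (.ofNat (nat_lit 0)), (.ofNat (nat_lit 0))⟩,
    ⟨nat_lit 11, nat_lit 2, (.ofNat (nat_lit 494780232499200)), (.ofNat (nat_lit 1099511627776000)), (.ofNat (nat_lit 494780232499232)), (.ofNat (nat_lit 1099511627775968)), (.ofNat (nat_lit 0)), (.ofNat (nat_lit 0)), (.ofNat (nat_lit 0))⟩]

theorem ok250 : stOK 11 11 S250 = true := by decide +kernel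

def S251 : SD where
  vs := [
    ⟨nat_lit 1, nat_lit 3, nat_lit 4, (.ofNat (nat_lit 16)), (.ofNat (nat_lit 274877906944000)), (.ofNat (nat_lit 12749619671657018615835223125857018704802541993984000000)), (.ofNat (nat_lit 0)), (.ofNat (nat_lit 103365135846798870316736963685655256110202880000000000)), (.ofNat (nat_lit 274877906943968)), (.ofNat (nat_lit 274877906944032)), (.negSucc (nat_lit 533785607882156341284299707785412607999999)), (.negSucc (nat_lit 546967525240451215579772218245119999999999)), (.negSucc (nat_lit 546967525240451215579772218245119999999999)), (.negSucc (nat_lit 533785607882156341284299707785412607999999)), (.ofNat (nat_lit 345273250308034829834731212767232000000))⟩,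
    ⟨nat_lit 2, nat_lit 0, nat_lit 1, (.ofNat (nat_lit 16)), (.negSucc (nat_lit 549755813887999)), (.ofNat (nat_lit 120279437284502097135725017355140140065026473984000000)), (.ofNat (nat_lit 0)), (.ofNat (nat_lit 0)), (.negSucc (nat_lit 549755813888031)), (.negSucc (nat_lit 549755813887967)), (.ofNat (nat_lit 1139880322601100333268245302822830080000000)), (.ofNat (nat_lit 0)), (.ofNat (nat_lit 0)), (.ofNat (nat_lit 1139880322601100333268245302822830080000000)), (.ofNat (nat_lit 136741881310112803894943054561280000000))⟩,
    ⟨nat_lit 1, nat_lit 5, nat_lit 11, (.ofNat (nat_lit 16)), (.ofNat (nat_lit 1099511627776000)), (.ofNat (nat_lit 120279437284502097135725017355140140065026473984000000)), (.ofNat (nat_lit 0)), (.ofNat (nat_lit 0)), (.ofNat (nat_lit 1099511627775968)), (.ofNat (nat_lit 1099511627776032)), (.ofNat (nat_lit 1139880322601100333268245302822830080000000)), (.ofNat (nat_lit 0)), (.ofNat (nat_lit 0)), (.ofNat (nat_lit 1139880322601100333268245302822830080000000)), (.ofNat (nat_lit 136741881310112803894943054561280000000))⟩,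
    ⟨nat_lit 2, nat_lit 3, nat_lit 2, (.ofNat (nat_lit 16)), (.ofNat (nat_lit 0)), (.ofNat (nat_lit 159475490323134862313440463650702057887270891945984000000)), (.ofNat (nat_lit 0)), (.ofNat (nat_lit 56146062425874840922045759820162741387132928000000000)), (.negSucc (nat_lit 31)), (.ofNat (nat_lit 32)), (.negSucc (nat_lit 533785607882156341284299707785412607999999)), (.negSucc (nat_lit 573203734201151525553748625646944255999999)), (.negSucc (nat_lit 573203734201151525553748625646944255999999)), (.negSucc (nat_lit 533785607882156341284299707785412607999999)), (.ofNat (nat_lit 846090390606322974099960150097920000000))⟩,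
    ⟨nat_lit 0, nat_lit 0, nat_lit 4, (.ofNat (nat_lit 16)), (.negSucc (nat_lit 274877906943999)), (.ofNat (nat_lit 313448196680526459537251844756854127389029101993984000000)), (.ofNat (nat_lit 0)), (.ofNat (nat_lit 9396830531527170028794269425968659646382080000000000)), (.negSucc (nat_lit 274877906944031)), (.negSucc (nat_lit 274877906943967)), (.ofNat (nat_lit 1139880322601100333268245302822830080000000)), (.negSucc (nat_lit 546967525240451215579772218245119999999999)), (.negSucc (nat_lit 546967525240451215579772218245119999999999)), (.ofNat (nat_lit 1139880322601100333268245302822830080000000)), (.ofNat (nat_lit 341854703275282009737357636403200000000))⟩,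
    ⟨nat_lit 0, nat_lit 2, nat_lit 5, (.ofNat (nat_lit 16)), (.ofNat (nat_lit 824633720832000)), (.negSucc (nat_lit 313207637805957455342980394722143847108899049046015999999)), (.ofNat (nat_lit 0)), (.negSucc (nat_lit 9396830531527170028794269425968659646382079999999999)), (.ofNat (nat_lit 824633720831968)), (.ofNat (nat_lit 824633720832032)), (.negSucc (nat_lit 573203734201151525553748625646944255999999)), (.ofNat (nat_lit 1139880322601100333268245302822830080000000)), (.negSucc (nat_lit 573203734201151525553748625646944255999999)), (.ofNat (nat_lit 1139880322601100333268245302822830080000000)), (.ofNat (nat_lit 386295814701068671003214129135616000000))⟩,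
    ⟨nat_lit 1, nat_lit 9, nat_lit 8, (.ofNat (nat_lit 16)), (.ofNat (nat_lit 2199023255552000)), (.ofNat (nat_lit 5283394277483120579086425767073974339721925685673984000000)), (.ofNat (nat_lit 0)), (.ofNat (nat_lit 0)), (.ofNat (nat_lit 2199023255551968)), (.ofNat (nat_lit 2199023255552032)), (.ofNat (nat_lit 2176930750456995838007493428615577600000000)), (.ofNat (nat_lit 1508809918375784678176801664029163520000000)), (.ofNat (nat_lit 1508809918375784678176801664029163520000000)), (.ofNat (nat_lit 2176930750456995838007493428615577600000000)), (.ofNat (nat_lit 8546367581882050243433940910080000000))⟩,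
    ⟨nat_lit 2, nat_lit 9, nat_lit 6, (.ofNat (nat_lit 16)), (.ofNat (nat_lit 1388133430067200)), (.ofNat (nat_lit 3518143281152552526157249489789205813191173665193984000000)), (.ofNat (nat_lit 0)), (.ofNat (nat_lit 0)), (.ofNat (nat_lit 1388133430067168)), (.ofNat (nat_lit 1388133430067232)), (.ofNat (nat_lit 2176930750456995838007493428615577600000000)), (.ofNat (nat_lit 2198809451466613886630684317345382400000000)), (.ofNat (nat_lit 2176930750456995838007493428615577600000000)), (.ofNat (nat_lit 2198809451466613886630684317345382400000000)), (.ofNat (nat_lit 0))⟩,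
    ⟨nat_lit 0, nat_lit 6, nat_lit 7, (.ofNat (nat_lit 16)), (.ofNat (nat_lit 1429365116108800)), (.ofNat (nat_lit 3608803902120726662595056601210951441459467973033984000000)), (.ofNat (nat_lit 0)), (.ofNat (nat_lit 0)), (.ofNat (nat_lit 1429365116108768)), (.ofNat (nat_lit 1429365116108832)), (.ofNat (nat_lit 2198809451466613886630684317345382400000000)), (.ofNat (nat_lit 3843130574220720353467374548444774400000000)), (.ofNat (nat_lit 2198809451466613886630684317345382400000000)), (.ofNat (nat_lit 3843130574220720353467374548444774400000000)), (.ofNat (nat_lit 21365918954705125608584852275200000000))⟩,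
    ⟨nat_lit 0, nat_lit 7, nat_lit 8, (.ofNat (nat_lit 16)), (.ofNat (nat_lit 1649267441664000)), (.ofNat (nat_lit 4453917252804154226304698016304868815416486719913984000000)), (.ofNat (nat_lit 0)), (.negSucc (nat_lit 2349207632881792507198567356492164911595519999999999)), (.ofNat (nat_lit 1649267441663968)), (.ofNat (nat_lit 1649267441664032)), (.ofNat (nat_lit 3843130574220720353467374548444774400000000)), (.ofNat (nat_lit 1508809918375784678176801664029163520000000)), (.ofNat (nat_lit 1508809918375784678176801664029163520000000)), (.ofNat (nat_lit 3843130574220720353467374548444774400000000)), (.ofNat (nat_lit 51278205491292301460603645460480000000))⟩,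
    ⟨nat_lit 0, nat_lit 1, nat_lit 10, (.ofNat (nat_lit 128)), (.ofNat (nat_lit 439804651110336)), (.ofNat (nat_lit 120279437284502097135725017355140140065026473984000000)), (.ofNat (nat_lit 0)), (.ofNat (nat_lit 0)), (.ofNat (nat_lit 439804651110080)), (.ofNat (nat_lit 439804651110592)), (.ofNat (nat_lit 0)), (.ofNat (nat_lit 0)), (.ofNat (nat_lit 0)), (.ofNat (nat_lit 0)), (.ofNat (nat_lit 0))⟩,
    ⟨nat_lit 0, nat_lit 10, nat_lit 11, (.ofNat (nat_lit 16)), (.ofNat (nat_lit 494780232499200)), (.ofNat (nat_lit 120279437284502097135725017355140140065026473984000000)), (.ofNat (nat_lit 0)), (.ofNat (nat_lit 0)), (.ofNat (nat_lit 494780232499168)), (.ofNat (nat_lit 494780232499232)), (.ofNat (nat_lit 0)), (.ofNat (nat_lit 0)), (.ofNat (nat_lit 0)), (.ofNat (nat_lit 0)), (.ofNat (nat_lit 0))⟩]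
  es := [
    ⟨nat_lit 1, nat_lit 4, (.negSucc (nat_lit 549755813887999)), (.negSucc (nat_lit 274877906943999)), (.negSucc (nat_lit 549755813887967)), (.negSucc (nat_lit 274877906944031)), (.ofNat (nat_lit 1139880322601100333268245302822830080000000)), (.ofNat (nat_lit 34185470327528200973735763640320000000)), (.ofNat (nat_lit 18793661063054340057588538851937319292764160000000000))⟩,
    ⟨nat_lit 1, nat_lit 10, (.negSucc (nat_lit 549755813887999)), (.ofNat (nat_lit 439804651110336)), (.negSucc (nat_lit 549755813887967)), (.ofNat (nat_lit 439804651110080)), (.ofNat (nat_lit 0)), (.ofNat (nat_lit 0)), (.ofNat (nat_lit 0))⟩,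
    ⟨nat_lit 3, nat_lit 5, (.ofNat (nat_lit 0)), (.ofNat (nat_lit 824633720832000)), (.ofNat (nat_lit 32)), (.ofNat (nat_lit 824633720831968)), (.negSucc (nat_lit 573203734201151525553748625646944255999999)), (.negSucc (nat_lit 79481218511503067263935650463743999999)), (.ofNat (nat_lit 56146062425874840922045759820162741387132928000000000))⟩,
    ⟨nat_lit 3, nat_lit 0, (.ofNat (nat_lit 0)), (.ofNat (nat_lit 274877906944000)), (.ofNat (nat_lit 32)), (.ofNat (nat_lit 274877906943968)), (.negSucc (nat_lit 533785607882156341284299707785412607999999)), (.ofNat (nat_lit 171781988395829209893022212292608000000)), (.ofNat (nat_lit 56146062425874840922045759820162741387132928000000000))⟩,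
    ⟨nat_lit 4, nat_lit 0, (.negSucc (nat_lit 274877906943999)), (.ofNat (nat_lit 274877906944000)), (.negSucc (nat_lit 274877906943967)), (.ofNat (nat_lit 274877906943968)), (.negSucc (nat_lit 546967525240451215579772218245119999999999)), (.ofNat (nat_lit 170927351637641004868678818201600000000)), (.ofNat (nat_lit 56380983189163020172765616555811957878292480000000000))⟩,
    ⟨nat_lit 5, nat_lit 2, (.ofNat (nat_lit 824633720832000)), (.ofNat (nat_lit 1099511627776000)), (.ofNat (nat_lit 824633720832032)), (.ofNat (nat_lit 1099511627775968)), (.ofNat (nat_lit 1139880322601100333268245302822830080000000)), (.ofNat (nat_lit 34185470327528200973735763640320000000)), (.negSucc (nat_lit 37587322126108680115177077703874638585528319999999999))⟩,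
    ⟨nat_lit 7, nat_lit 8, (.ofNat (nat_lit 1388133430067200)), (.ofNat (nat_lit 1429365116108800)), (.ofNat (nat_lit 1388133430067232)), (.ofNat (nat_lit 1429365116108768)), (.ofNat (nat_lit 2198809451466613886630684317345382400000000)), (.ofNat (nat_lit 0)), (.ofNat (nat_lit 0))⟩,
    ⟨nat_lit 8, nat_lit 9, (.ofNat (nat_lit 1429365116108800)), (.ofNat (nat_lit 1649267441664000)), (.ofNat (nat_lit 1429365116108832)), (.ofNat (nat_lit 1649267441663968)), (.ofNat (nat_lit 3843130574220720353467374548444774400000000)), (.negSucc (nat_lit 10682959477352562804292426137599999999)), (.ofNat (nat_lit 15269849613731651296790687817199071925370880000000000))⟩,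
    ⟨nat_lit 9, nat_lit 6, (.ofNat (nat_lit 1649267441664000)), (.ofNat (nat_lit 2199023255552000)), (.ofNat (nat_lit 1649267441664032)), (.ofNat (nat_lit 2199023255551968)), (.ofNat (nat_lit 1508809918375784678176801664029163520000000)), (.ofNat (nat_lit 4273183790941025121716970455040000000)), (.negSucc (nat_lit 9396830531527170028794269425968659646382079999999999))⟩,
    ⟨nat_lit 7, nat_lit 6, (.ofNat (nat_lit 1388133430067200)), (.ofNat (nat_lit 2199023255552000)), (.ofNat (nat_lit 1388133430067232)), (.ofNat (nat_lit 2199023255551968)), (.ofNat (nat_lit 2176930750456995838007493428615577600000000)), (.ofNat (nat_lit 0)), (.ofNat (nat_lit 0))⟩,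
    ⟨nat_lit 10, nat_lit 11, (.ofNat (nat_lit 439804651110336)), (.ofNat (nat_lit 494780232499200)), (.ofNat (nat_lit 439804651110592)), (.ofNat (nat_lit 494780232499168)), (.ofNat (nat_lit 0)), (.ofNat (nat_lit 0)), (.ofNat (nat_lit 0))⟩,
    ⟨nat_lit 11, nat_lit 2, (.ofNat (nat_lit 494780232499200)), (.ofNat (nat_lit 1099511627776000)), (.ofNat (nat_lit 494780232499232)), (.ofNat (nat_lit 1099511627775968)), (.ofNat (nat_lit 0)), (.ofNat (nat_lit 0)), (.ofNat (nat_lit 0))⟩]

theorem ok251 : stOK 11 11 S251 = true := by decide +kernel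

def S252 : SD where
  vs := [
    ⟨nat_lit 1, nat_lit 3, nat_lit 4, (.ofNat (nat_lit 16)), (.ofNat (nat_lit 274877906944000)), (.ofNat (nat_lit 43237636331196921774258230278412334927489200553984000000)), (.ofNat (nat_lit 0)), (.ofNat (nat_lit 483936772373649256482904875437385971788677120000000000)), (.ofNat (nat_lit 274877906943968)), (.ofNat (nat_lit 274877906944032)), (.negSucc (nat_lit 479889650000533567834132246224175103999999)), (.negSucc (nat_lit 493125409474594299046138390511615999999999)), (.negSucc (nat_lit 493125409474594299046138390511615999999999)), (.negSucc (nat_lit 479889650000533567834132246224175103999999)), (.ofNat (nat_lit 1712692063409162868784161758380032000000))⟩,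
    ⟨nat_lit 2, nat_lit 0, nat_lit 1, (.ofNat (nat_lit 16)), (.negSucc (nat_lit 549755813887999)), (.ofNat (nat_lit 120279437284502097135725017355140140065026473984000000)), (.ofNat (nat_lit 0)), (.ofNat (nat_lit 0)), (.negSucc (nat_lit 549755813888031)), (.negSucc (nat_lit 549755813887967)), (.ofNat (nat_lit 1143110849547051748260263332486840320000000)), (.ofNat (nat_lit 0)), (.ofNat (nat_lit 0)), (.ofNat (nat_lit 1143110849547051748260263332486840320000000)), (.ofNat (nat_lit 205112821965169205842414581841920000000))⟩,
    ⟨nat_lit 1, nat_lit 5, nat_lit 11, (.ofNat (nat_lit 16)), (.ofNat (nat_lit 1099511627776000)), (.negSucc (nat_lit 23559733502191533538697952677351102688617369174015999999)), (.ofNat (nat_lit 0)), (.negSucc (nat_lit 375873221261524375171963138011210203629879295999999999)), (.ofNat (nat_lit 1099511627775968)), (.ofNat (nat_lit 1099511627776032)), (.ofNat (nat_lit 1143110849547051748260263332486840320000000)), (.ofNat (nat_lit 0)), (.ofNat (nat_lit 0)), (.ofNat (nat_lit 1143110849547051748260263332486840320000000)), (.ofNat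 (nat_lit 205112821965169205842414581841920000000))⟩,
    ⟨nat_lit 2, nat_lit 3, nat_lit 2, (.ofNat (nat_lit 16)), (.ofNat (nat_lit 0)), (.ofNat (nat_lit 175148698887432317383717145483010834527962722729984000000)), (.ofNat (nat_lit 0)), (.ofNat (nat_lit 248781088322181826512328283052520264137965568000000000)), (.negSucc (nat_lit 31)), (.ofNat (nat_lit 32)), (.negSucc (nat_lit 479889650000533567834132246224175103999999)), (.negSucc (nat_lit 622002638456973273823983953189617705359374)), (.negSucc (nat_lit 622002638456973273823983953189617705359374)), (.negSucc (nat_lit 479889650000533567834132246224175103999999)), (.ofNat (nat_lit 4971137143462453814938738116353919281250))⟩,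
    ⟨nat_lit 0, nat_lit 0, nat_lit 4, (.ofNat (nat_lit 16)), (.negSucc (nat_lit 274877906943999)), (.ofNat (nat_lit 314336197165755777104972903217608165725612208553984000000)), (.ofNat (nat_lit 0)), (.ofNat (nat_lit 14095245797290755043191404138952989469573120000000000)), (.negSucc (nat_lit 274877906944031)), (.negSucc (nat_lit 274877906943967)), (.ofNat (nat_lit 1143110849547051748260263332486840320000000)), (.negSucc (nat_lit 493125409474594299046138390511615999999999)), (.negSucc (nat_lit 493125409474594299046138390511615999999999)), (.ofNat (nat_lit 1143110849547051748260263332486840320000000)), (.ofNat (nat_lit 1709273516376410048686788182016000000000))⟩,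
    ⟨nat_lit 0, nat_lit 2, nat_lit 5, (.ofNat (nat_lit 16)), (.ofNat (nat_lit 824633720832000)), (.negSucc (nat_lit 337775651230662808546535130877604128274164551254015999999)), (.ofNat (nat_lit 0)), (.negSucc (nat_lit 389968467058815130215154542150163193099452415999999999)), (.ofNat (nat_lit 824633720831968)), (.ofNat (nat_lit 824633720832032)), (.negSucc (nat_lit 622002638456973273823983953189617705359374)), (.ofNat (nat_lit 1143110849547051748260263332486840320000000)), (.negSucc (nat_lit 622002638456973273823983953189617705359374)), (.ofNat (nat_lit 1143110849547051748260263332486840320000000)), (.ofNat (nat_lit 3200899538336346397856783642836734562500))⟩,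
    ⟨nat_lit 1, nat_lit 9, nat_lit 8, (.ofNat (nat_lit 16)), (.ofNat (nat_lit 2199023255552000)), (.ofNat (nat_lit 5283394277483120579086425767073974339721925685673984000000)), (.ofNat (nat_lit 0)), (.ofNat (nat_lit 0)), (.ofNat (nat_lit 2199023255551968)), (.ofNat (nat_lit 2199023255552032)), (.ofNat (nat_lit 2176930750456995838007493428615577600000000)), (.ofNat (nat_lit 1509079128954613962759469833167831040000000)), (.ofNat (nat_lit 1509079128954613962759469833167831040000000)), (.ofNat (nat_lit 2176930750456995838007493428615577600000000)), (.ofNat (nat_lit 8546367581882050243433940910080000000))⟩,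
    ⟨nat_lit 2, nat_lit 9, nat_lit 6, (.ofNat (nat_lit 16)), (.ofNat (nat_lit 1388133430067200)), (.ofNat (nat_lit 3518143281152552526157249489789205813191173665193984000000)), (.ofNat (nat_lit 0)), (.ofNat (nat_lit 0)), (.ofNat (nat_lit 1388133430067168)), (.ofNat (nat_lit 1388133430067232)), (.ofNat (nat_lit 2176930750456995838007493428615577600000000)), (.ofNat (nat_lit 2198809451466613886630684317345382400000000)), (.ofNat (nat_lit 2176930750456995838007493428615577600000000)), (.ofNat (nat_lit 2198809451466613886630684317345382400000000)), (.ofNat (nat_lit 0))⟩,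
    ⟨nat_lit 0, nat_lit 6, nat_lit 7, (.ofNat (nat_lit 16)), (.ofNat (nat_lit 1429365116108800)), (.ofNat (nat_lit 3608803902120726662595056601210951441459467973033984000000)), (.ofNat (nat_lit 0)), (.ofNat (nat_lit 0)), (.ofNat (nat_lit 1429365116108768)), (.ofNat (nat_lit 1429365116108832)), (.ofNat (nat_lit 2198809451466613886630684317345382400000000)), (.ofNat (nat_lit 3842457547773647142010704125598105600000000)), (.ofNat (nat_lit 2198809451466613886630684317345382400000000)), (.ofNat (nat_lit 3842457547773647142010704125598105600000000)), (.ofNat (nat_lit 21365918954705125608584852275200000000))⟩,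
    ⟨nat_lit 0, nat_lit 7, nat_lit 8, (.ofNat (nat_lit 16)), (.ofNat (nat_lit 1649267441664000)), (.ofNat (nat_lit 4453769252723282673376744506561409809027056202153984000000)), (.ofNat (nat_lit 0)), (.negSucc (nat_lit 2349207632881792507198567356492164911595519999999999)), (.ofNat (nat_lit 1649267441663968)), (.ofNat (nat_lit 1649267441664032)), (.ofNat (nat_lit 3842457547773647142010704125598105600000000)), (.ofNat (nat_lit 1509079128954613962759469833167831040000000)), (.ofNat (nat_lit 1509079128954613962759469833167831040000000)), (.ofNat (nat_lit 3842457547773647142010704125598105600000000)), (.ofNat (nat_lit 51278205491292301460603645460480000000))⟩,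
    ⟨nat_lit 0, nat_lit 1, nat_lit 10, (.ofNat (nat_lit 128)), (.ofNat (nat_lit 439804651110336)), (.ofNat (nat_lit 120279437284502097135725017355140140065026473984000000)), (.ofNat (nat_lit 0)), (.ofNat (nat_lit 0)), (.ofNat (nat_lit 439804651110080)), (.ofNat (nat_lit 439804651110592)), (.ofNat (nat_lit 0)), (.negSucc (nat_lit 430736926126855332269070621868031999999999)), (.negSucc (nat_lit 430736926126855332269070621868031999999999)), (.ofNat (nat_lit 0)), (.ofNat (nat_lit 13674188131011280389494305456128000000000))⟩,
    ⟨nat_lit 0, nat_lit 10, nat_lit 11, (.ofNat (nat_lit 16)), (.ofNat (nat_lit 494780232499200)), (.negSucc (nat_lit 23559733502191533538697952677351102688617369174015999999)), (.ofNat (nat_lit 0)), (.negSucc (nat_lit 375873221261524375171963138011210203629879295999999999)), (.ofNat (nat_lit 494780232499168)), (.ofNat (nat_lit 494780232499232)), (.negSucc (nat_lit 430736926126855332269070621868031999999999)), (.ofNat (nat_lit 0)), (.negSucc (nat_lit 430736926126855332269070621868031999999999)), (.ofNat (nat_lit 0)), (.ofNat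 (nat_lit 27348376262022560778988610912256000000000))⟩]
  es := [
    ⟨nat_lit 1, nat_lit 4, (.negSucc (nat_lit 549755813887999)), (.negSucc (nat_lit 274877906943999)), (.negSucc (nat_lit 549755813887967)), (.negSucc (nat_lit 274877906944031)), (.ofNat (nat_lit 1143110849547051748260263332486840320000000)), (.ofNat (nat_lit 51278205491292301460603645460480000000)), (.ofNat (nat_lit 28190491594581510086382808277905978939146240000000000))⟩,
    ⟨nat_lit 1, nat_lit 10, (.negSucc (nat_lit 549755813887999)), (.ofNat (nat_lit 439804651110336)), (.negSucc (nat_lit 549755813887967)), (.ofNat (nat_lit 439804651110080)), (.ofNat (nat_lit 0)), (.ofNat (nat_lit 0)), (.ofNat (nat_lit 0))⟩,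
    ⟨nat_lit 3, nat_lit 5, (.ofNat (nat_lit 0)), (.ofNat (nat_lit 824633720832000)), (.ofNat (nat_lit 32)), (.ofNat (nat_lit 824633720831968)), (.negSucc (nat_lit 622002638456973273823983953189617705359374)), (.negSucc (nat_lit 774585781838440448733894087978943640624)), (.ofNat (nat_lit 248781088322181826512328283052520264137965568000000000))⟩,
    ⟨nat_lit 3, nat_lit 0, (.ofNat (nat_lit 0)), (.ofNat (nat_lit 274877906944000)), (.ofNat (nat_lit 32)), (.ofNat (nat_lit 274877906943968)), (.negSucc (nat_lit 479889650000533567834132246224175103999999)), (.ofNat (nat_lit 855491394946393229367737485099008000000)), (.ofNat (nat_lit 248781088322181826512328283052520264137965568000000000))⟩,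
    ⟨nat_lit 4, nat_lit 0, (.negSucc (nat_lit 274877906943999)), (.ofNat (nat_lit 274877906944000)), (.negSucc (nat_lit 274877906943967)), (.ofNat (nat_lit 274877906943968)), (.negSucc (nat_lit 493125409474594299046138390511615999999999)), (.ofNat (nat_lit 854636758188205024343394091008000000000)), (.ofNat (nat_lit 249016009085470005763048139788169480629125120000000000))⟩,
    ⟨nat_lit 5, nat_lit 2, (.ofNat (nat_lit 824633720832000)), (.ofNat (nat_lit 1099511627776000)), (.ofNat (nat_lit 824633720832032)), (.ofNat (nat_lit 1099511627775968)), (.ofNat (nat_lit 1143110849547051748260263332486840320000000)), (.ofNat (nat_lit 51278205491292301460603645460480000000)), (.negSucc (nat_lit 432254204450687395344728754567022161508171775999999999))⟩,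
    ⟨nat_lit 7, nat_lit 8, (.ofNat (nat_lit 1388133430067200)), (.ofNat (nat_lit 1429365116108800)), (.ofNat (nat_lit 1388133430067232)), (.ofNat (nat_lit 1429365116108768)), (.ofNat (nat_lit 2198809451466613886630684317345382400000000)), (.ofNat (nat_lit 0)), (.ofNat (nat_lit 0))⟩,
    ⟨nat_lit 8, nat_lit 9, (.ofNat (nat_lit 1429365116108800)), (.ofNat (nat_lit 1649267441664000)), (.ofNat (nat_lit 1429365116108832)), (.ofNat (nat_lit 1649267441663968)), (.ofNat (nat_lit 3842457547773647142010704125598105600000000)), (.negSucc (nat_lit 10682959477352562804292426137599999999)), (.ofNat (nat_lit 15269849613731651296790687817199071925370880000000000))⟩,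
    ⟨nat_lit 9, nat_lit 6, (.ofNat (nat_lit 1649267441664000)), (.ofNat (nat_lit 2199023255552000)), (.ofNat (nat_lit 1649267441664032)), (.ofNat (nat_lit 2199023255551968)), (.ofNat (nat_lit 1509079128954613962759469833167831040000000)), (.ofNat (nat_lit 4273183790941025121716970455040000000)), (.negSucc (nat_lit 9396830531527170028794269425968659646382079999999999))⟩,
    ⟨nat_lit 7, nat_lit 6, (.ofNat (nat_lit 1388133430067200)), (.ofNat (nat_lit 2199023255552000)), (.ofNat (nat_lit 1388133430067232)), (.ofNat (nat_lit 2199023255551968)), (.ofNat (nat_lit 2176930750456995838007493428615577600000000)), (.ofNat (nat_lit 0)), (.ofNat (nat_lit 0))⟩,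
    ⟨nat_lit 10, nat_lit 11, (.ofNat (nat_lit 439804651110336)), (.ofNat (nat_lit 494780232499200)), (.ofNat (nat_lit 439804651110592)), (.ofNat (nat_lit 494780232499168)), (.negSucc (nat_lit 430736926126855332269070621868031999999999)), (.negSucc (nat_lit 6837094065505640194747152728063999999999)), (.ofNat (nat_lit 3006985770088256835193973855337507269067669504000000000))⟩,
    ⟨nat_lit 11, nat_lit 2, (.ofNat (nat_lit 494780232499200)), (.ofNat (nat_lit 1099511627776000)), (.ofNat (nat_lit 494780232499232)), (.ofNat (nat_lit 1099511627775968)), (.ofNat (nat_lit 0)), (.ofNat (nat_lit 0)), (.negSucc (nat_lit 375873221261524375171963138011210203629879295999999999))⟩]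

theorem ok252 : stOK 11 11 S252 = true := by decide +kernel

def S253 : SD where
  vs := [
    ⟨nat_lit 1, nat_lit 3, nat_lit 4, (.ofNat (nat_lit 16)), (.ofNat (nat_lit 274877906944000)), (.ofNat (nat_lit 43721573103570571030741135153849720899277877673984000000)), (.ofNat (nat_lit 0)), (.ofNat (nat_lit 483936772373649256482904875437385971788677120000000000)), (.ofNat (nat_lit 274877906943968)), (.ofNat (nat_lit 274877906944032)), (.negSucc (nat_lit 479034158605587174604764508739076095999999)), (.negSucc (nat_lit 492270772716406094021794996420607999999999)), (.negSucc (nat_lit 492270772716406094021794996420607999999999)), (.negSucc (nat_lit 479034158605587174604764508739076095999999)), (.ofNat (nat_lit 1712692063409162868784161758380032000000))⟩,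
    ⟨nat_lit 2, nat_lit 0, nat_lit 1, (.ofNat (nat_lit 16)), (.negSucc (nat_lit 549755813887999)), (.ofNat (nat_lit 120279437284502097135725017355140140065026473984000000)), (.ofNat (nat_lit 0)), (.ofNat (nat_lit 0)), (.negSucc (nat_lit 549755813888031)), (.negSucc (nat_lit 549755813887967)), (.ofNat (nat_lit 1143162127752543040561723936132300800000000)), (.ofNat (nat_lit 0)), (.ofNat (nat_lit 0)), (.ofNat (nat_lit 1143162127752543040561723936132300800000000)), (.ofNat (nat_lit 205112821965169205842414581841920000000))⟩,
    ⟨nat_lit 1, nat_lit 5, nat_lit 11, (.ofNat (nat_lit 16)), (.ofNat (nat_lit 1099511627776000)), (.negSucc (nat_lit 23935606723453057913869915815362312892247248470015999999)), (.ofNat (nat_lit 0)), (.negSucc (nat_lit 375873221261524375171963138011210203629879295999999999)), (.ofNat (nat_lit 1099511627775968)), (.ofNat (nat_lit 1099511627776032)), (.ofNat (nat_lit 1143162127752543040561723936132300800000000)), (.ofNat (nat_lit 0)), (.ofNat (nat_lit 0)), (.ofNat (nat_lit 1143162127752543040561723936132300800000000)), (.ofNat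 (nat_lit 205112821965169205842414581841920000000))⟩,
    ⟨nat_lit 2, nat_lit 3, nat_lit 2, (.ofNat (nat_lit 16)), (.ofNat (nat_lit 0)), (.ofNat (nat_lit 175397479975754499210229473766063354792100688297984000000)), (.ofNat (nat_lit 0)), (.ofNat (nat_lit 248781088322181826512328283052520264137965568000000000)), (.negSucc (nat_lit 31)), (.ofNat (nat_lit 32)), (.negSucc (nat_lit 479034158605587174604764508739076095999999)), (.negSucc (nat_lit 622777224238811714272717847277596648999999)), (.negSucc (nat_lit 622777224238811714272717847277596648999999)), (.negSucc (nat_lit 479034158605587174604764508739076095999999)), (.ofNat (nat_lit 4971137143462453814938738116353919281250))⟩,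
    ⟨nat_lit 0, nat_lit 0, nat_lit 4, (.ofNat (nat_lit 16)), (.negSucc (nat_lit 274877906943999)), (.ofNat (nat_lit 314350292411553067860016094621747118715081781673984000000)), (.ofNat (nat_lit 0)), (.ofNat (nat_lit 14095245797290755043191404138952989469573120000000000)), (.negSucc (nat_lit 274877906944031)), (.negSucc (nat_lit 274877906943967)), (.ofNat (nat_lit 1143162127752543040561723936132300800000000)), (.negSucc (nat_lit 492270772716406094021794996420607999999999)), (.negSucc (nat_lit 492270772716406094021794996420607999999999)), (.ofNat (nat_lit 1143162127752543040561723936132300800000000)), (.ofNat (nat_lit 1709273516376410048686788182016000000000))⟩,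
    ⟨nat_lit 0, nat_lit 2, nat_lit 5, (.ofNat (nat_lit 16)), (.ofNat (nat_lit 824633720832000)), (.negSucc (nat_lit 338165619697721623676750285419754291467264003670015999999)), (.ofNat (nat_lit 0)), (.negSucc (nat_lit 389968467058815130215154542150163193099452415999999999)), (.ofNat (nat_lit 824633720831968)), (.ofNat (nat_lit 824633720832032)), (.negSucc (nat_lit 622777224238811714272717847277596648999999)), (.ofNat (nat_lit 1143162127752543040561723936132300800000000)), (.negSucc (nat_lit 622777224238811714272717847277596648999999)), (.ofNat (nat_lit 1143162127752543040561723936132300800000000)), (.ofNat (nat_lit 3200899538336346397856783642836734562500))⟩,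
    ⟨nat_lit 1, nat_lit 9, nat_lit 8, (.ofNat (nat_lit 16)), (.ofNat (nat_lit 2199023255552000)), (.ofNat (nat_lit 5283394277483120579086425767073974339721925685673984000000)), (.ofNat (nat_lit 0)), (.ofNat (nat_lit 0)), (.ofNat (nat_lit 2199023255551968)), (.ofNat (nat_lit 2199023255552032)), (.ofNat (nat_lit 2176930750456995838007493428615577600000000)), (.ofNat (nat_lit 1509083402138404903784591550138286080000000)), (.ofNat (nat_lit 1509083402138404903784591550138286080000000)), (.ofNat (nat_lit 2176930750456995838007493428615577600000000)), (.ofNat (nat_lit 8546367581882050243433940910080000000))⟩,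
    ⟨nat_lit 2, nat_lit 9, nat_lit 6, (.ofNat (nat_lit 16)), (.ofNat (nat_lit 1388133430067200)), (.ofNat (nat_lit 3518143281152552526157249489789205813191173665193984000000)), (.ofNat (nat_lit 0)), (.ofNat (nat_lit 0)), (.ofNat (nat_lit 1388133430067168)), (.ofNat (nat_lit 1388133430067232)), (.ofNat (nat_lit 2176930750456995838007493428615577600000000)), (.ofNat (nat_lit 2198809451466613886630684317345382400000000)), (.ofNat (nat_lit 2176930750456995838007493428615577600000000)), (.ofNat (nat_lit 2198809451466613886630684317345382400000000)), (.ofNat (nat_lit 0))⟩,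
    ⟨nat_lit 0, nat_lit 6, nat_lit 7, (.ofNat (nat_lit 16)), (.ofNat (nat_lit 1429365116108800)), (.ofNat (nat_lit 3608803902120726662595056601210951441459467973033984000000)), (.ofNat (nat_lit 0)), (.ofNat (nat_lit 0)), (.ofNat (nat_lit 1429365116108768)), (.ofNat (nat_lit 1429365116108832)), (.ofNat (nat_lit 2198809451466613886630684317345382400000000)), (.ofNat (nat_lit 3842446864814169789447899833171968000000000)), (.ofNat (nat_lit 2198809451466613886630684317345382400000000)), (.ofNat (nat_lit 3842446864814169789447899833171968000000000)), (.ofNat (nat_lit 21365918954705125608584852275200000000))⟩,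
    ⟨nat_lit 0, nat_lit 7, nat_lit 8, (.ofNat (nat_lit 16)), (.ofNat (nat_lit 1649267441664000)), (.ofNat (nat_lit 4453766903515649791584237307994053316862144606633984000000)), (.ofNat (nat_lit 0)), (.negSucc (nat_lit 2349207632881792507198567356492164911595519999999999)), (.ofNat (nat_lit 1649267441663968)), (.ofNat (nat_lit 1649267441664032)), (.ofNat (nat_lit 3842446864814169789447899833171968000000000)), (.ofNat (nat_lit 1509083402138404903784591550138286080000000)), (.ofNat (nat_lit 1509083402138404903784591550138286080000000)), (.ofNat (nat_lit 3842446864814169789447899833171968000000000)), (.ofNat (nat_lit 51278205491292301460603645460480000000))⟩,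
    ⟨nat_lit 0, nat_lit 1, nat_lit 10, (.ofNat (nat_lit 128)), (.ofNat (nat_lit 439804651110336)), (.ofNat (nat_lit 120279437284502097135725017355140140065026473984000000)), (.ofNat (nat_lit 0)), (.ofNat (nat_lit 0)), (.ofNat (nat_lit 439804651110080)), (.ofNat (nat_lit 439804651110592)), (.ofNat (nat_lit 0)), (.negSucc (nat_lit 437574020192360972463817774596095999999999)), (.negSucc (nat_lit 437574020192360972463817774596095999999999)), (.ofNat (nat_lit 0)), (.ofNat (nat_lit 13674188131011280389494305456128000000000))⟩,
    ⟨nat_lit 0, nat_lit 10, nat_lit 11, (.ofNat (nat_lit 16)), (.ofNat (nat_lit 494780232499200)), (.negSucc (nat_lit 23935606723453057913869915815362312892247248470015999999)), (.ofNat (nat_lit 0)), (.negSucc (nat_lit 375873221261524375171963138011210203629879295999999999)), (.ofNat (nat_lit 494780232499168)), (.ofNat (nat_lit 494780232499232)), (.negSucc (nat_lit 437574020192360972463817774596095999999999)), (.ofNat (nat_lit 0)), (.negSucc (nat_lit 437574020192360972463817774596095999999999)), (.ofNat (nat_lit 0)), (.ofNat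 (nat_lit 27348376262022560778988610912256000000000))⟩]
  es := [
    ⟨nat_lit 1, nat_lit 4, (.negSucc (nat_lit 549755813887999)), (.negSucc (nat_lit 274877906943999)), (.negSucc (nat_lit 549755813887967)), (.negSucc (nat_lit 274877906944031)), (.ofNat (nat_lit 1143162127752543040561723936132300800000000)), (.ofNat (nat_lit 51278205491292301460603645460480000000)), (.ofNat (nat_lit 28190491594581510086382808277905978939146240000000000))⟩,
    ⟨nat_lit 1, nat_lit 10, (.negSucc (nat_lit 549755813887999)), (.ofNat (nat_lit 439804651110336)), (.negSucc (nat_lit 549755813887967)), (.ofNat (nat_lit 439804651110080)), (.ofNat (nat_lit 0)), (.ofNat (nat_lit 0)), (.ofNat (nat_lit 0))⟩,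
    ⟨nat_lit 3, nat_lit 5, (.ofNat (nat_lit 0)), (.ofNat (nat_lit 824633720832000)), (.ofNat (nat_lit 32)), (.ofNat (nat_lit 824633720831968)), (.negSucc (nat_lit 622777224238811714272717847277596648999999)), (.negSucc (nat_lit 774585781838440448733894087978943640624)), (.ofNat (nat_lit 248781088322181826512328283052520264137965568000000000))⟩,
    ⟨nat_lit 3, nat_lit 0, (.ofNat (nat_lit 0)), (.ofNat (nat_lit 274877906944000)), (.ofNat (nat_lit 32)), (.ofNat (nat_lit 274877906943968)), (.negSucc (nat_lit 479034158605587174604764508739076095999999)), (.ofNat (nat_lit 855491394946393229367737485099008000000)), (.ofNat (nat_lit 248781088322181826512328283052520264137965568000000000))⟩,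
    ⟨nat_lit 4, nat_lit 0, (.negSucc (nat_lit 274877906943999)), (.ofNat (nat_lit 274877906944000)), (.negSucc (nat_lit 274877906943967)), (.ofNat (nat_lit 274877906943968)), (.negSucc (nat_lit 492270772716406094021794996420607999999999)), (.ofNat (nat_lit 854636758188205024343394091008000000000)), (.ofNat (nat_lit 249016009085470005763048139788169480629125120000000000))⟩,
    ⟨nat_lit 5, nat_lit 2, (.ofNat (nat_lit 824633720832000)), (.ofNat (nat_lit 1099511627776000)), (.ofNat (nat_lit 824633720832032)), (.ofNat (nat_lit 1099511627775968)), (.ofNat (nat_lit 1143162127752543040561723936132300800000000)), (.ofNat (nat_lit 51278205491292301460603645460480000000)), (.negSucc (nat_lit 432254204450687395344728754567022161508171775999999999))⟩,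
    ⟨nat_lit 7, nat_lit 8, (.ofNat (nat_lit 1388133430067200)), (.ofNat (nat_lit 1429365116108800)), (.ofNat (nat_lit 1388133430067232)), (.ofNat (nat_lit 1429365116108768)), (.ofNat (nat_lit 2198809451466613886630684317345382400000000)), (.ofNat (nat_lit 0)), (.ofNat (nat_lit 0))⟩,
    ⟨nat_lit 8, nat_lit 9, (.ofNat (nat_lit 1429365116108800)), (.ofNat (nat_lit 1649267441664000)), (.ofNat (nat_lit 1429365116108832)), (.ofNat (nat_lit 1649267441663968)), (.ofNat (nat_lit 3842446864814169789447899833171968000000000)), (.negSucc (nat_lit 10682959477352562804292426137599999999)), (.ofNat (nat_lit 15269849613731651296790687817199071925370880000000000))⟩,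
    ⟨nat_lit 9, nat_lit 6, (.ofNat (nat_lit 1649267441664000)), (.ofNat (nat_lit 2199023255552000)), (.ofNat (nat_lit 1649267441664032)), (.ofNat (nat_lit 2199023255551968)), (.ofNat (nat_lit 1509083402138404903784591550138286080000000)), (.ofNat (nat_lit 4273183790941025121716970455040000000)), (.negSucc (nat_lit 9396830531527170028794269425968659646382079999999999))⟩,
    ⟨nat_lit 7, nat_lit 6, (.ofNat (nat_lit 1388133430067200)), (.ofNat (nat_lit 2199023255552000)), (.ofNat (nat_lit 1388133430067232)), (.ofNat (nat_lit 2199023255551968)), (.ofNat (nat_lit 2176930750456995838007493428615577600000000)), (.ofNat (nat_lit 0)), (.ofNat (nat_lit 0))⟩,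
    ⟨nat_lit 10, nat_lit 11, (.ofNat (nat_lit 439804651110336)), (.ofNat (nat_lit 494780232499200)), (.ofNat (nat_lit 439804651110592)), (.ofNat (nat_lit 494780232499168)), (.negSucc (nat_lit 437574020192360972463817774596095999999999)), (.negSucc (nat_lit 6837094065505640194747152728063999999999)), (.ofNat (nat_lit 3006985770088256835193973855337507269067669504000000000))⟩,
    ⟨nat_lit 11, nat_lit 2, (.ofNat (nat_lit 494780232499200)), (.ofNat (nat_lit 1099511627776000)), (.ofNat (nat_lit 494780232499232)), (.ofNat (nat_lit 1099511627775968)), (.ofNat (nat_lit 0)), (.ofNat (nat_lit 0)), (.negSucc (nat_lit 375873221261524375171963138011210203629879295999999999))⟩]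

theorem ok253 : stOK 11 11 S253 = true := by decide +kernel

def S254 : SD where
  vs := [
    ⟨nat_lit 1, nat_lit 3, nat_lit 4, (.ofNat (nat_lit 16)), (.ofNat (nat_lit 274877906944000)), (.ofNat (nat_lit 43721573103570571030741135153849720899277877673984000000)), (.ofNat (nat_lit 0)), (.ofNat (nat_lit 483936772373649256482904875437385971788677120000000000)), (.ofNat (nat_lit 274877906943968)), (.ofNat (nat_lit 274877906944032)), (.negSucc (nat_lit 479034158605587174604764508739076095999999)), (.negSucc (nat_lit 492270772716406094021794996420607999999999)), (.negSucc (nat_lit 492270772716406094021794996420607999999999)), (.negSucc (nat_lit 479034158605587174604764508739076095999999)), (.ofNat (nat_lit 1712692063409162868784161758380032000000))⟩,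
    ⟨nat_lit 2, nat_lit 0, nat_lit 1, (.ofNat (nat_lit 16)), (.negSucc (nat_lit 549755813887999)), (.ofNat (nat_lit 120279437284502097135725017355140140065026473984000000)), (.ofNat (nat_lit 0)), (.ofNat (nat_lit 0)), (.negSucc (nat_lit 549755813888031)), (.negSucc (nat_lit 549755813887967)), (.ofNat (nat_lit 1143162127752543040561723936132300800000000)), (.ofNat (nat_lit 0)), (.ofNat (nat_lit 0)), (.ofNat (nat_lit 1143162127752543040561723936132300800000000)), (.ofNat (nat_lit 205112821965169205842414581841920000000))⟩,
    ⟨nat_lit 1, nat_lit 5, nat_lit 11, (.ofNat (nat_lit 16)), (.ofNat (nat_lit 1099511627776000)), (.negSucc (nat_lit 23935606723453057913869915815362312892247248470015999999)), (.ofNat (nat_lit 0)), (.negSucc (nat_lit 375873221261524375171963138011210203629879295999999999)), (.ofNat (nat_lit 1099511627775968)), (.ofNat (nat_lit 1099511627776032)), (.ofNat (nat_lit 1143162127752543040561723936132300800000000)), (.ofNat (nat_lit 0)), (.ofNat (nat_lit 0)), (.ofNat (nat_lit 1143162127752543040561723936132300800000000)), (.ofNat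 (nat_lit 205112821965169205842414581841920000000))⟩,
    ⟨nat_lit 2, nat_lit 3, nat_lit 2, (.ofNat (nat_lit 16)), (.ofNat (nat_lit 0)), (.ofNat (nat_lit 175397479975754499210229473766063354792100688297984000000)), (.ofNat (nat_lit 0)), (.ofNat (nat_lit 248781088322181826512328283052520264137965568000000000)), (.negSucc (nat_lit 31)), (.ofNat (nat_lit 32)), (.negSucc (nat_lit 479034158605587174604764508739076095999999)), (.negSucc (nat_lit 622777224238811714272717847277596648999999)), (.negSucc (nat_lit 622777224238811714272717847277596648999999)), (.negSucc (nat_lit 479034158605587174604764508739076095999999)), (.ofNat (nat_lit 4971137143462453814938738116353919281250))⟩,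
    ⟨nat_lit 0, nat_lit 0, nat_lit 4, (.ofNat (nat_lit 16)), (.negSucc (nat_lit 274877906943999)), (.ofNat (nat_lit 314350292411553067860016094621747118715081781673984000000)), (.ofNat (nat_lit 0)), (.ofNat (nat_lit 14095245797290755043191404138952989469573120000000000)), (.negSucc (nat_lit 274877906944031)), (.negSucc (nat_lit 274877906943967)), (.ofNat (nat_lit 1143162127752543040561723936132300800000000)), (.negSucc (nat_lit 492270772716406094021794996420607999999999)), (.negSucc (nat_lit 492270772716406094021794996420607999999999)), (.ofNat (nat_lit 1143162127752543040561723936132300800000000)), (.ofNat (nat_lit 1709273516376410048686788182016000000000))⟩,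
    ⟨nat_lit 0, nat_lit 2, nat_lit 5, (.ofNat (nat_lit 16)), (.ofNat (nat_lit 824633720832000)), (.negSucc (nat_lit 338165619697721623676750285419754291467264003670015999999)), (.ofNat (nat_lit 0)), (.negSucc (nat_lit 389968467058815130215154542150163193099452415999999999)), (.ofNat (nat_lit 824633720831968)), (.ofNat (nat_lit 824633720832032)), (.negSucc (nat_lit 622777224238811714272717847277596648999999)), (.ofNat (nat_lit 1143162127752543040561723936132300800000000)), (.negSucc (nat_lit 622777224238811714272717847277596648999999)), (.ofNat (nat_lit 1143162127752543040561723936132300800000000)), (.ofNat (nat_lit 3200899538336346397856783642836734562500))⟩,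
    ⟨nat_lit 1, nat_lit 9, nat_lit 8, (.ofNat (nat_lit 16)), (.ofNat (nat_lit 2199023255552000)), (.ofNat (nat_lit 5283394277483120579086425767073974339721925685673984000000)), (.ofNat (nat_lit 0)), (.ofNat (nat_lit 0)), (.ofNat (nat_lit 2199023255551968)), (.ofNat (nat_lit 2199023255552032)), (.ofNat (nat_lit 2176930750456995838007493428615577600000000)), (.ofNat (nat_lit 1509083402138404903784591550138286080000000)), (.ofNat (nat_lit 1509083402138404903784591550138286080000000)), (.ofNat (nat_lit 2176930750456995838007493428615577600000000)), (.ofNat (nat_lit 8546367581882050243433940910080000000))⟩,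
    ⟨nat_lit 2, nat_lit 9, nat_lit 6, (.ofNat (nat_lit 16)), (.ofNat (nat_lit 1388133430067200)), (.ofNat (nat_lit 3518143281152552526157249489789205813191173665193984000000)), (.ofNat (nat_lit 0)), (.ofNat (nat_lit 0)), (.ofNat (nat_lit 1388133430067168)), (.ofNat (nat_lit 1388133430067232)), (.ofNat (nat_lit 2176930750456995838007493428615577600000000)), (.ofNat (nat_lit 2198809451466613886630684317345382400000000)), (.ofNat (nat_lit 2176930750456995838007493428615577600000000)), (.ofNat (nat_lit 2198809451466613886630684317345382400000000)), (.ofNat (nat_lit 0))⟩,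
    ⟨nat_lit 0, nat_lit 6, nat_lit 7, (.ofNat (nat_lit 16)), (.ofNat (nat_lit 1429365116108800)), (.ofNat (nat_lit 3608803902120726662595056601210951441459467973033984000000)), (.ofNat (nat_lit 0)), (.ofNat (nat_lit 0)), (.ofNat (nat_lit 1429365116108768)), (.ofNat (nat_lit 1429365116108832)), (.ofNat (nat_lit 2198809451466613886630684317345382400000000)), (.ofNat (nat_lit 3842446864814169789447899833171968000000000)), (.ofNat (nat_lit 2198809451466613886630684317345382400000000)), (.ofNat (nat_lit 3842446864814169789447899833171968000000000)), (.ofNat (nat_lit 21365918954705125608584852275200000000))⟩,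
    ⟨nat_lit 0, nat_lit 7, nat_lit 8, (.ofNat (nat_lit 16)), (.ofNat (nat_lit 1649267441664000)), (.ofNat (nat_lit 4453766903515649791584237307994053316862144606633984000000)), (.ofNat (nat_lit 0)), (.negSucc (nat_lit 2349207632881792507198567356492164911595519999999999)), (.ofNat (nat_lit 1649267441663968)), (.ofNat (nat_lit 1649267441664032)), (.ofNat (nat_lit 3842446864814169789447899833171968000000000)), (.ofNat (nat_lit 1509083402138404903784591550138286080000000)), (.ofNat (nat_lit 1509083402138404903784591550138286080000000)), (.ofNat (nat_lit 3842446864814169789447899833171968000000000)), (.ofNat (nat_lit 51278205491292301460603645460480000000))⟩,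
    ⟨nat_lit 1, nat_lit 1, nat_lit 12, (.ofNat (nat_lit 16)), (.ofNat (nat_lit 439804651110400)), (.ofNat (nat_lit 120279437284502097135725017355140140065026473984000000)), (.ofNat (nat_lit 0)), (.ofNat (nat_lit 0)), (.ofNat (nat_lit 439804651110368)), (.ofNat (nat_lit 439804651110432)), (.ofNat (nat_lit 0)), (.negSucc (nat_lit 218787010096180486231908887298047999999999)), (.negSucc (nat_lit 218787010096180486231908887298047999999999)), (.ofNat (nat_lit 0)), (.ofNat (nat_lit 6837094065505640194747152728064000000000))⟩,
    ⟨nat_lit 0, nat_lit 10, nat_lit 11, (.ofNat (nat_lit 16)), (.ofNat (nat_lit 494780232499200)), (.negSucc (nat_lit 23935606723453057913869915815362312892247248470015999999)), (.ofNat (nat_lit 0)), (.negSucc (nat_lit 375873221261524375171963138011210203629879295999999999)), (.ofNat (nat_lit 494780232499168)), (.ofNat (nat_lit 494780232499232)), (.negSucc (nat_lit 437574020192360972463817774596095999999999)), (.ofNat (nat_lit 0)), (.negSucc (nat_lit 437574020192360972463817774596095999999999)), (.ofNat (nat_lit 0)), (.ofNat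 (nat_lit 27348376262022560778988610912256000000000))⟩,
    ⟨nat_lit 2, nat_lit 12, nat_lit 10, (.ofNat (nat_lit 16)), (.ofNat (nat_lit 439804651110272)), (.ofNat (nat_lit 120279437312506834428036119592824477639176617984000000)), (.ofNat (nat_lit 0)), (.ofNat (nat_lit 437574020192360972463817774596096000000000)), (.ofNat (nat_lit 439804651110240)), (.ofNat (nat_lit 439804651110304)), (.negSucc (nat_lit 218787010096180486231908887298047999999999)), (.negSucc (nat_lit 437574020192360972463817774596095999999999)), (.negSucc (nat_lit 437574020192360972463817774596095999999999)), (.negSucc (nat_lit 218787010096180486231908887298047999999999)), (.ofNat (nat_lit 13674188131011280389494305456128000000000))⟩]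
  es := [
    ⟨nat_lit 1, nat_lit 4, (.negSucc (nat_lit 549755813887999)), (.negSucc (nat_lit 274877906943999)), (.negSucc (nat_lit 549755813887967)), (.negSucc (nat_lit 274877906944031)), (.ofNat (nat_lit 1143162127752543040561723936132300800000000)), (.ofNat (nat_lit 51278205491292301460603645460480000000)), (.ofNat (nat_lit 28190491594581510086382808277905978939146240000000000))⟩,
    ⟨nat_lit 1, nat_lit 10, (.negSucc (nat_lit 549755813887999)), (.ofNat (nat_lit 439804651110400)), (.negSucc (nat_lit 549755813887967)), (.ofNat (nat_lit 439804651110368)), (.ofNat (nat_lit 0)), (.ofNat (nat_lit 0)), (.ofNat (nat_lit 0))⟩,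
    ⟨nat_lit 3, nat_lit 5, (.ofNat (nat_lit 0)), (.ofNat (nat_lit 824633720832000)), (.ofNat (nat_lit 32)), (.ofNat (nat_lit 824633720831968)), (.negSucc (nat_lit 622777224238811714272717847277596648999999)), (.negSucc (nat_lit 774585781838440448733894087978943640624)), (.ofNat (nat_lit 248781088322181826512328283052520264137965568000000000))⟩,
    ⟨nat_lit 3, nat_lit 0, (.ofNat (nat_lit 0)), (.ofNat (nat_lit 274877906944000)), (.ofNat (nat_lit 32)), (.ofNat (nat_lit 274877906943968)), (.negSucc (nat_lit 479034158605587174604764508739076095999999)), (.ofNat (nat_lit 855491394946393229367737485099008000000)), (.ofNat (nat_lit 248781088322181826512328283052520264137965568000000000))⟩,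
    ⟨nat_lit 4, nat_lit 0, (.negSucc (nat_lit 274877906943999)), (.ofNat (nat_lit 274877906944000)), (.negSucc (nat_lit 274877906943967)), (.ofNat (nat_lit 274877906943968)), (.negSucc (nat_lit 492270772716406094021794996420607999999999)), (.ofNat (nat_lit 854636758188205024343394091008000000000)), (.ofNat (nat_lit 249016009085470005763048139788169480629125120000000000))⟩,
    ⟨nat_lit 5, nat_lit 2, (.ofNat (nat_lit 824633720832000)), (.ofNat (nat_lit 1099511627776000)), (.ofNat (nat_lit 824633720832032)), (.ofNat (nat_lit 1099511627775968)), (.ofNat (nat_lit 1143162127752543040561723936132300800000000)), (.ofNat (nat_lit 51278205491292301460603645460480000000)), (.negSucc (nat_lit 432254204450687395344728754567022161508171775999999999))⟩,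
    ⟨nat_lit 7, nat_lit 8, (.ofNat (nat_lit 1388133430067200)), (.ofNat (nat_lit 1429365116108800)), (.ofNat (nat_lit 1388133430067232)), (.ofNat (nat_lit 1429365116108768)), (.ofNat (nat_lit 2198809451466613886630684317345382400000000)), (.ofNat (nat_lit 0)), (.ofNat (nat_lit 0))⟩,
    ⟨nat_lit 8, nat_lit 9, (.ofNat (nat_lit 1429365116108800)), (.ofNat (nat_lit 1649267441664000)), (.ofNat (nat_lit 1429365116108832)), (.ofNat (nat_lit 1649267441663968)), (.ofNat (nat_lit 3842446864814169789447899833171968000000000)), (.negSucc (nat_lit 10682959477352562804292426137599999999)), (.ofNat (nat_lit 15269849613731651296790687817199071925370880000000000))⟩,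
    ⟨nat_lit 9, nat_lit 6, (.ofNat (nat_lit 1649267441664000)), (.ofNat (nat_lit 2199023255552000)), (.ofNat (nat_lit 1649267441664032)), (.ofNat (nat_lit 2199023255551968)), (.ofNat (nat_lit 1509083402138404903784591550138286080000000)), (.ofNat (nat_lit 4273183790941025121716970455040000000)), (.negSucc (nat_lit 9396830531527170028794269425968659646382079999999999))⟩,
    ⟨nat_lit 7, nat_lit 6, (.ofNat (nat_lit 1388133430067200)), (.ofNat (nat_lit 2199023255552000)), (.ofNat (nat_lit 1388133430067232)), (.ofNat (nat_lit 2199023255551968)), (.ofNat (nat_lit 2176930750456995838007493428615577600000000)), (.ofNat (nat_lit 0)), (.ofNat (nat_lit 0))⟩,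
    ⟨nat_lit 12, nat_lit 11, (.ofNat (nat_lit 439804651110272)), (.ofNat (nat_lit 494780232499200)), (.ofNat (nat_lit 439804651110304)), (.ofNat (nat_lit 494780232499168)), (.negSucc (nat_lit 437574020192360972463817774596095999999999)), (.negSucc (nat_lit 6837094065505640194747152728063999999999)), (.ofNat (nat_lit 3006985770088256835193973855337507269067669504000000000))⟩,
    ⟨nat_lit 11, nat_lit 2, (.ofNat (nat_lit 494780232499200)), (.ofNat (nat_lit 1099511627776000)), (.ofNat (nat_lit 494780232499232)), (.ofNat (nat_lit 1099511627775968)), (.ofNat (nat_lit 0)), (.ofNat (nat_lit 0)), (.negSucc (nat_lit 375873221261524375171963138011210203629879295999999999))⟩,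
    ⟨nat_lit 12, nat_lit 10, (.ofNat (nat_lit 439804651110272)), (.ofNat (nat_lit 439804651110400)), (.ofNat (nat_lit 439804651110304)), (.ofNat (nat_lit 439804651110368)), (.negSucc (nat_lit 218787010096180486231908887298047999999999)), (.negSucc (nat_lit 3418547032752820097373576364031999999999)), (.ofNat (nat_lit 1503492885044347204607083108154985543421132800000000000))⟩]

theorem ok254 : stOK 12 12 S254 = true := by decide +kernel

def S255 : SD where
  vs := [
    ⟨nat_lit 1, nat_lit 3, nat_lit 4, (.ofNat (nat_lit 16)), (.ofNat (nat_lit 274877906944000)), (.ofNat (nat_lit 43721573103570571030741135153849720899277877673984000000)), (.ofNat (nat_lit 0)), (.ofNat (nat_lit 483936772373649256482904875437385971788677120000000000)), (.ofNat (nat_lit 274877906943968)), (.ofNat (nat_lit 274877906944032)), (.negSucc (nat_lit 479034158605587174604764508739076095999999)), (.negSucc (nat_lit 492270772716406094021794996420607999999999)), (.negSucc (nat_lit 492270772716406094021794996420607999999999)), (.negSucc (nat_lit 479034158605587174604764508739076095999999)),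 (.ofNat (nat_lit 1712692063409162868784161758380032000000))⟩,
    ⟨nat_lit 2, nat_lit 0, nat_lit 1, (.ofNat (nat_lit 16)), (.negSucc (nat_lit 549755813887999)), (.ofNat (nat_lit 120279437284502097135725017355140140065026473984000000)), (.ofNat (nat_lit 0)), (.ofNat (nat_lit 0)), (.negSucc (nat_lit 549755813888031)), (.negSucc (nat_lit 549755813887967)), (.ofNat (nat_lit 1143162127752543040561723936132300800000000)), (.ofNat (nat_lit 0)), (.ofNat (nat_lit 0)), (.ofNat (nat_lit 1143162127752543040561723936132300800000000)), (.ofNat (nat_lit 205112821965169205842414581841920000000))⟩,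
    ⟨nat_lit 1, nat_lit 5, nat_lit 11, (.ofNat (nat_lit 16)), (.ofNat (nat_lit 1099511627776000)), (.negSucc (nat_lit 23935606723453057913869915815362312892247248470015999999)), (.ofNat (nat_lit 0)), (.negSucc (nat_lit 375873221261524375171963138011210203629879295999999999)), (.ofNat (nat_lit 1099511627775968)), (.ofNat (nat_lit 1099511627776032)), (.ofNat (nat_lit 1143162127752543040561723936132300800000000)), (.ofNat (nat_lit 0)), (.ofNat (nat_lit 0)), (.ofNat (nat_lit 1143162127752543040561723936132300800000000)), (.ofNat (nat_lit 205112821965169205842414581841920000000))⟩,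
    ⟨nat_lit 2, nat_lit 3, nat_lit 2, (.ofNat (nat_lit 16)), (.ofNat (nat_lit 0)), (.ofNat (nat_lit 175397479975754499210229473766063354792100688297984000000)), (.ofNat (nat_lit 0)), (.ofNat (nat_lit 248781088322181826512328283052520264137965568000000000)), (.negSucc (nat_lit 31)), (.ofNat (nat_lit 32)), (.negSucc (nat_lit 479034158605587174604764508739076095999999)), (.negSucc (nat_lit 622777224238811714272717847277596648999999)), (.negSucc (nat_lit 622777224238811714272717847277596648999999)), (.negSucc (nat_lit 479034158605587174604764508739076095999999)), (.ofNat (nat_lit 4971137143462453814938738116353919281250))⟩,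
    ⟨nat_lit 0, nat_lit 0, nat_lit 4, (.ofNat (nat_lit 16)), (.negSucc (nat_lit 274877906943999)), (.ofNat (nat_lit 314350292411553067860016094621747118715081781673984000000)), (.ofNat (nat_lit 0)), (.ofNat (nat_lit 14095245797290755043191404138952989469573120000000000)), (.negSucc (nat_lit 274877906944031)), (.negSucc (nat_lit 274877906943967)), (.ofNat (nat_lit 1143162127752543040561723936132300800000000)), (.negSucc (nat_lit 492270772716406094021794996420607999999999)), (.negSucc (nat_lit 492270772716406094021794996420607999999999)), (.ofNat (nat_lit 1143162127752543040561723936132300800000000)), (.ofNat (nat_lit 1709273516376410048686788182016000000000))⟩,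
    ⟨nat_lit 0, nat_lit 2, nat_lit 5, (.ofNat (nat_lit 16)), (.ofNat (nat_lit 824633720832000)), (.negSucc (nat_lit 338165619697721623676750285419754291467264003670015999999)), (.ofNat (nat_lit 0)), (.negSucc (nat_lit 389968467058815130215154542150163193099452415999999999)), (.ofNat (nat_lit 824633720831968)), (.ofNat (nat_lit 824633720832032)), (.negSucc (nat_lit 622777224238811714272717847277596648999999)), (.ofNat (nat_lit 1143162127752543040561723936132300800000000)), (.negSucc (nat_lit 622777224238811714272717847277596648999999)), (.ofNat (nat_lit 1143162127752543040561723936132300800000000)), (.ofNat (nat_lit 3200899538336346397856783642836734562500))⟩,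
    ⟨nat_lit 1, nat_lit 9, nat_lit 8, (.ofNat (nat_lit 16)), (.ofNat (nat_lit 2199023255552000)), (.ofNat (nat_lit 5283394277483120579086425767073974339721925685673984000000)), (.ofNat (nat_lit 0)), (.ofNat (nat_lit 0)), (.ofNat (nat_lit 2199023255551968)), (.ofNat (nat_lit 2199023255552032)), (.ofNat (nat_lit 2176930750456995838007493428615577600000000)), (.ofNat (nat_lit 1509083402138404903784591550138286080000000)), (.ofNat (nat_lit 1509083402138404903784591550138286080000000)), (.ofNat (nat_lit 2176930750456995838007493428615577600000000)), (.ofNat (nat_lit 8546367581882050243433940910080000000))⟩,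
    ⟨nat_lit 2, nat_lit 9, nat_lit 6, (.ofNat (nat_lit 16)), (.ofNat (nat_lit 1388133430067200)), (.ofNat (nat_lit 3518143281152552526157249489789205813191173665193984000000)), (.ofNat (nat_lit 0)), (.ofNat (nat_lit 0)), (.ofNat (nat_lit 1388133430067168)), (.ofNat (nat_lit 1388133430067232)), (.ofNat (nat_lit 2176930750456995838007493428615577600000000)), (.ofNat (nat_lit 2198809451466613886630684317345382400000000)), (.ofNat (nat_lit 2176930750456995838007493428615577600000000)), (.ofNat (nat_lit 2198809451466613886630684317345382400000000)), (.ofNat (nat_lit 0))⟩,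
    ⟨nat_lit 0, nat_lit 6, nat_lit 7, (.ofNat (nat_lit 16)), (.ofNat (nat_lit 1429365116108800)), (.ofNat (nat_lit 3608803902120726662595056601210951441459467973033984000000)), (.ofNat (nat_lit 0)), (.ofNat (nat_lit 0)), (.ofNat (nat_lit 1429365116108768)), (.ofNat (nat_lit 1429365116108832)), (.ofNat (nat_lit 2198809451466613886630684317345382400000000)), (.ofNat (nat_lit 3842446864814169789447899833171968000000000)), (.ofNat (nat_lit 2198809451466613886630684317345382400000000)), (.ofNat (nat_lit 3842446864814169789447899833171968000000000)), (.ofNat (nat_lit 21365918954705125608584852275200000000))⟩,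
    ⟨nat_lit 0, nat_lit 7, nat_lit 8, (.ofNat (nat_lit 16)), (.ofNat (nat_lit 1649267441664000)), (.ofNat (nat_lit 4453766903515649791584237307994053316862144606633984000000)), (.ofNat (nat_lit 0)), (.negSucc (nat_lit 2349207632881792507198567356492164911595519999999999)), (.ofNat (nat_lit 1649267441663968)), (.ofNat (nat_lit 1649267441664032)), (.ofNat (nat_lit 3842446864814169789447899833171968000000000)), (.ofNat (nat_lit 1509083402138404903784591550138286080000000)), (.ofNat (nat_lit 1509083402138404903784591550138286080000000)), (.ofNat (nat_lit 3842446864814169789447899833171968000000000)), (.ofNat (nat_lit 51278205491292301460603645460480000000))⟩,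
    ⟨nat_lit 1, nat_lit 1, nat_lit 12, (.ofNat (nat_lit 16)), (.ofNat (nat_lit 439804651110400)), (.ofNat (nat_lit 120279437284502097135725017355140140065026473984000000)), (.ofNat (nat_lit 0)), (.ofNat (nat_lit 0)), (.ofNat (nat_lit 439804651110368)), (.ofNat (nat_lit 439804651110432)), (.ofNat (nat_lit 0)), (.negSucc (nat_lit 218787010096180486231908887298047999999999)), (.negSucc (nat_lit 218787010096180486231908887298047999999999)), (.ofNat (nat_lit 0)), (.ofNat (nat_lit 6837094065505640194747152728064000000000))⟩,
    ⟨nat_lit 0, nat_lit 10, nat_lit 11, (.ofNat (nat_lit 16)), (.ofNat (nat_lit 494780232499200)), (.negSucc (nat_lit 23935606723453057913869915815362312892247248470015999999)), (.ofNat (nat_lit 0)), (.negSucc (nat_lit 375873221261524375171963138011210203629879295999999999)), (.ofNat (nat_lit 494780232499168)), (.ofNat (nat_lit 494780232499232)), (.negSucc (nat_lit 437574020192360972463817774596095999999999)), (.ofNat (nat_lit 0)), (.negSucc (nat_lit 437574020192360972463817774596095999999999)), (.ofNat (nat_lit 0)), (.ofNat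 (nat_lit 27348376262022560778988610912256000000000))⟩,
    ⟨nat_lit 2, nat_lit 10, nat_lit 12, (.ofNat (nat_lit 16)), (.ofNat (nat_lit 439804651110272)), (.ofNat (nat_lit 120279437312506834428036119592824477639176617984000000)), (.ofNat (nat_lit 0)), (.ofNat (nat_lit 437574020192360972463817774596096000000000)), (.ofNat (nat_lit 439804651110240)), (.ofNat (nat_lit 439804651110304)), (.negSucc (nat_lit 437574020192360972463817774596095999999999)), (.negSucc (nat_lit 218787010096180486231908887298047999999999)), (.negSucc (nat_lit 437574020192360972463817774596095999999999)), (.negSucc (nat_lit 218787010096180486231908887298047999999999)), (.ofNat (nat_lit 20511282196516920584241458184192000000000))⟩]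
  es := [
    ⟨nat_lit 1, nat_lit 4, (.negSucc (nat_lit 549755813887999)), (.negSucc (nat_lit 274877906943999)), (.negSucc (nat_lit 549755813887967)), (.negSucc (nat_lit 274877906944031)), (.ofNat (nat_lit 1143162127752543040561723936132300800000000)), (.ofNat (nat_lit 51278205491292301460603645460480000000)), (.ofNat (nat_lit 28190491594581510086382808277905978939146240000000000))⟩,
    ⟨nat_lit 1, nat_lit 10, (.negSucc (nat_lit 549755813887999)), (.ofNat (nat_lit 439804651110400)), (.negSucc (nat_lit 549755813887967)), (.ofNat (nat_lit 439804651110368)), (.ofNat (nat_lit 0)), (.ofNat (nat_lit 0)), (.ofNat (nat_lit 0))⟩,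
    ⟨nat_lit 3, nat_lit 5, (.ofNat (nat_lit 0)), (.ofNat (nat_lit 824633720832000)), (.ofNat (nat_lit 32)), (.ofNat (nat_lit 824633720831968)), (.negSucc (nat_lit 622777224238811714272717847277596648999999)), (.negSucc (nat_lit 774585781838440448733894087978943640624)), (.ofNat (nat_lit 248781088322181826512328283052520264137965568000000000))⟩,
    ⟨nat_lit 3, nat_lit 0, (.ofNat (nat_lit 0)), (.ofNat (nat_lit 274877906944000)), (.ofNat (nat_lit 32)), (.ofNat (nat_lit 274877906943968)), (.negSucc (nat_lit 479034158605587174604764508739076095999999)), (.ofNat (nat_lit 855491394946393229367737485099008000000)), (.ofNat (nat_lit 248781088322181826512328283052520264137965568000000000))⟩,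
    ⟨nat_lit 4, nat_lit 0, (.negSucc (nat_lit 274877906943999)), (.ofNat (nat_lit 274877906944000)), (.negSucc (nat_lit 274877906943967)), (.ofNat (nat_lit 274877906943968)), (.negSucc (nat_lit 492270772716406094021794996420607999999999)), (.ofNat (nat_lit 854636758188205024343394091008000000000)), (.ofNat (nat_lit 249016009085470005763048139788169480629125120000000000))⟩,
    ⟨nat_lit 5, nat_lit 2, (.ofNat (nat_lit 824633720832000)), (.ofNat (nat_lit 1099511627776000)), (.ofNat (nat_lit 824633720832032)), (.ofNat (nat_lit 1099511627775968)), (.ofNat (nat_lit 1143162127752543040561723936132300800000000)), (.ofNat (nat_lit 51278205491292301460603645460480000000)), (.negSucc (nat_lit 432254204450687395344728754567022161508171775999999999))⟩,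
    ⟨nat_lit 7, nat_lit 8, (.ofNat (nat_lit 1388133430067200)), (.ofNat (nat_lit 1429365116108800)), (.ofNat (nat_lit 1388133430067232)), (.ofNat (nat_lit 1429365116108768)), (.ofNat (nat_lit 2198809451466613886630684317345382400000000)), (.ofNat (nat_lit 0)), (.ofNat (nat_lit 0))⟩,
    ⟨nat_lit 8, nat_lit 9, (.ofNat (nat_lit 1429365116108800)), (.ofNat (nat_lit 1649267441664000)), (.ofNat (nat_lit 1429365116108832)), (.ofNat (nat_lit 1649267441663968)), (.ofNat (nat_lit 3842446864814169789447899833171968000000000)), (.negSucc (nat_lit 10682959477352562804292426137599999999)), (.ofNat (nat_lit 15269849613731651296790687817199071925370880000000000))⟩,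
    ⟨nat_lit 9, nat_lit 6, (.ofNat (nat_lit 1649267441664000)), (.ofNat (nat_lit 2199023255552000)), (.ofNat (nat_lit 1649267441664032)), (.ofNat (nat_lit 2199023255551968)), (.ofNat (nat_lit 1509083402138404903784591550138286080000000)), (.ofNat (nat_lit 4273183790941025121716970455040000000)), (.negSucc (nat_lit 9396830531527170028794269425968659646382079999999999))⟩,
    ⟨nat_lit 7, nat_lit 6, (.ofNat (nat_lit 1388133430067200)), (.ofNat (nat_lit 2199023255552000)), (.ofNat (nat_lit 1388133430067232)), (.ofNat (nat_lit 2199023255551968)), (.ofNat (nat_lit 2176930750456995838007493428615577600000000)), (.ofNat (nat_lit 0)), (.ofNat (nat_lit 0))⟩,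
    ⟨nat_lit 12, nat_lit 11, (.ofNat (nat_lit 439804651110272)), (.ofNat (nat_lit 494780232499200)), (.ofNat (nat_lit 439804651110304)), (.ofNat (nat_lit 494780232499168)), (.negSucc (nat_lit 437574020192360972463817774596095999999999)), (.negSucc (nat_lit 6837094065505640194747152728063999999999)), (.ofNat (nat_lit 3006985770088256835193973855337507269067669504000000000))⟩,
    ⟨nat_lit 11, nat_lit 2, (.ofNat (nat_lit 494780232499200)), (.ofNat (nat_lit 1099511627776000)), (.ofNat (nat_lit 494780232499232)), (.ofNat (nat_lit 1099511627775968)), (.ofNat (nat_lit 0)), (.ofNat (nat_lit 0)), (.negSucc (nat_lit 375873221261524375171963138011210203629879295999999999))⟩,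
    ⟨nat_lit 12, nat_lit 10, (.ofNat (nat_lit 439804651110272)), (.ofNat (nat_lit 439804651110400)), (.ofNat (nat_lit 439804651110304)), (.ofNat (nat_lit 439804651110368)), (.negSucc (nat_lit 218787010096180486231908887298047999999999)), (.negSucc (nat_lit 3418547032752820097373576364031999999999)), (.ofNat (nat_lit 1503492885044347204607083108154985543421132800000000000))⟩]

theorem ok255 : stOK 12 12 S255 = true := by decide +kernel

def S256 : SD where
  vs := [
    ⟨nat_lit 1, nat_lit 3, nat_lit 4, (.ofNat (nat_lit 16)), (.ofNat (nat_lit 274877906944000)), (.ofNat (nat_lit 57253009068969695872204883127244590790068072873984000000)), (.ofNat (nat_lit 0)), (.ofNat (nat_lit 211428686959361325647871062084294842043596800000000000)), (.ofNat (nat_lit 274877906943968)), (.ofNat (nat_lit 274877906944032)), (.negSucc (nat_lit 457046064090921035738457665565622271999999)), (.negSucc (nat_lit 470392071706788045398604107690803199999999)), (.negSucc (nat_lit 470392071706788045398604107690803199999999)), (.negSucc (nat_lit 457046064090921035738457665565622271999999)),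 (.ofNat (nat_lit 690546500616069659669462425534464000000))⟩,
    ⟨nat_lit 2, nat_lit 0, nat_lit 1, (.ofNat (nat_lit 16)), (.negSucc (nat_lit 549755813887999)), (.ofNat (nat_lit 120279437284502097135725017355140140065026473984000000)), (.ofNat (nat_lit 0)), (.ofNat (nat_lit 0)), (.negSucc (nat_lit 549755813888031)), (.negSucc (nat_lit 549755813887967)), (.ofNat (nat_lit 1148631803004947552717521658314752000000000)), (.ofNat (nat_lit 0)), (.ofNat (nat_lit 0)), (.ofNat (nat_lit 1148631803004947552717521658314752000000000)), (.ofNat (nat_lit 341854703275282009737357636403200000000))⟩,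
    ⟨nat_lit 1, nat_lit 5, nat_lit 11, (.ofNat (nat_lit 16)), (.ofNat (nat_lit 1099511627776000)), (.negSucc (nat_lit 41977521343957219631862602010984455075726691926015999999)), (.ofNat (nat_lit 0)), (.negSucc (nat_lit 281904915945377526843635721806595971616866303999999999)), (.ofNat (nat_lit 1099511627775968)), (.ofNat (nat_lit 1099511627776032)), (.ofNat (nat_lit 1148631803004947552717521658314752000000000)), (.ofNat (nat_lit 0)), (.ofNat (nat_lit 0)), (.ofNat (nat_lit 1148631803004947552717521658314752000000000)), (.ofNat (nat_lit 341854703275282009737357636403200000000))⟩,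
    ⟨nat_lit 2, nat_lit 3, nat_lit 2, (.ofNat (nat_lit 16)), (.ofNat (nat_lit 0)), (.ofNat (nat_lit 182884874543275348289172747644675182798337929641984000000)), (.ofNat (nat_lit 0)), (.ofNat (nat_lit 116990540117513266858488654353309812597456896000000000)), (.negSucc (nat_lit 31)), (.ofNat (nat_lit 32)), (.negSucc (nat_lit 457046064090921035738457665565622271999999)), (.negSucc (nat_lit 655558811251522130246209662640717823999999)), (.negSucc (nat_lit 655558811251522130246209662640717823999999)), (.negSucc (nat_lit 457046064090921035738457665565622271999999)), (.ofNat (nat_lit 2398680501313834178315796928438400718750))⟩,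
    ⟨nat_lit 0, nat_lit 0, nat_lit 4, (.ofNat (nat_lit 16)), (.negSucc (nat_lit 274877906943999)), (.ofNat (nat_lit 315853785296597415064623177729902104258502914473984000000)), (.ofNat (nat_lit 0)), (.ofNat (nat_lit 23492076328817925071985673564921649115955200000000000)), (.negSucc (nat_lit 274877906944031)), (.negSucc (nat_lit 274877906943967)), (.ofNat (nat_lit 1148631803004947552717521658314752000000000)), (.negSucc (nat_lit 470392071706788045398604107690803199999999)), (.negSucc (nat_lit 470392071706788045398604107690803199999999)), (.ofNat (nat_lit 1148631803004947552717521658314752000000000)), (.ofNat (nat_lit 683709406550564019474715272806400000000))⟩,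
    ⟨nat_lit 0, nat_lit 2, nat_lit 5, (.ofNat (nat_lit 16)), (.ofNat (nat_lit 824633720832000)), (.negSucc (nat_lit 357711027203270132599350054723531419194164579926015999999)), (.ofNat (nat_lit 0)), (.negSucc (nat_lit 305396992274195451915621395371517620732821503999999999)), (.ofNat (nat_lit 824633720831968)), (.ofNat (nat_lit 824633720832032)), (.negSucc (nat_lit 655558811251522130246209662640717823999999)), (.ofNat (nat_lit 1148631803004947552717521658314752000000000)), (.negSucc (nat_lit 655558811251522130246209662640717823999999)), (.ofNat (nat_lit 1148631803004947552717521658314752000000000)), (.ofNat (nat_lit 2219776539932042003211917278396673437500))⟩,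
    ⟨nat_lit 1, nat_lit 9, nat_lit 8, (.ofNat (nat_lit 16)), (.ofNat (nat_lit 2199023255552000)), (.ofNat (nat_lit 5283394277483120579086425767073974339721925685673984000000)), (.ofNat (nat_lit 0)), (.ofNat (nat_lit 0)), (.ofNat (nat_lit 2199023255551968)), (.ofNat (nat_lit 2199023255552032)), (.ofNat (nat_lit 2176930750456995838007493428615577600000000)), (.ofNat (nat_lit 1509356885901025129392381436247408640000000)), (.ofNat (nat_lit 1509356885901025129392381436247408640000000)), (.ofNat (nat_lit 2176930750456995838007493428615577600000000)), (.ofNat (nat_lit 8546367581882050243433940910080000000))⟩,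
    ⟨nat_lit 2, nat_lit 9, nat_lit 6, (.ofNat (nat_lit 16)), (.ofNat (nat_lit 1388133430067200)), (.ofNat (nat_lit 3518143281152552526157249489789205813191173665193984000000)), (.ofNat (nat_lit 0)), (.ofNat (nat_lit 0)), (.ofNat (nat_lit 1388133430067168)), (.ofNat (nat_lit 1388133430067232)), (.ofNat (nat_lit 2176930750456995838007493428615577600000000)), (.ofNat (nat_lit 2198809451466613886630684317345382400000000)), (.ofNat (nat_lit 2176930750456995838007493428615577600000000)), (.ofNat (nat_lit 2198809451466613886630684317345382400000000)), (.ofNat (nat_lit 0))⟩,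
    ⟨nat_lit 0, nat_lit 6, nat_lit 7, (.ofNat (nat_lit 16)), (.ofNat (nat_lit 1429365116108800)), (.ofNat (nat_lit 3608803902120726662595056601210951441459467973033984000000)), (.ofNat (nat_lit 0)), (.ofNat (nat_lit 0)), (.ofNat (nat_lit 1429365116108768)), (.ofNat (nat_lit 1429365116108832)), (.ofNat (nat_lit 2198809451466613886630684317345382400000000)), (.ofNat (nat_lit 3841763155407619225428425117899161600000000)), (.ofNat (nat_lit 2198809451466613886630684317345382400000000)), (.ofNat (nat_lit 3841763155407619225428425117899161600000000)), (.ofNat (nat_lit 21365918954705125608584852275200000000))⟩,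
    ⟨nat_lit 0, nat_lit 7, nat_lit 8, (.ofNat (nat_lit 16)), (.ofNat (nat_lit 1649267441664000)), (.ofNat (nat_lit 4453616554227145356863776599683237818307802493353984000000)), (.ofNat (nat_lit 0)), (.negSucc (nat_lit 2349207632881792507198567356492164911595519999999999)), (.ofNat (nat_lit 1649267441663968)), (.ofNat (nat_lit 1649267441664032)), (.ofNat (nat_lit 3841763155407619225428425117899161600000000)), (.ofNat (nat_lit 1509356885901025129392381436247408640000000)), (.ofNat (nat_lit 1509356885901025129392381436247408640000000)), (.ofNat (nat_lit 3841763155407619225428425117899161600000000)), (.ofNat (nat_lit 51278205491292301460603645460480000000))⟩,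
    ⟨nat_lit 1, nat_lit 1, nat_lit 12, (.ofNat (nat_lit 16)), (.ofNat (nat_lit 439804651110400)), (.ofNat (nat_lit 120279437284502097135725017355140140065026473984000000)), (.ofNat (nat_lit 0)), (.ofNat (nat_lit 0)), (.ofNat (nat_lit 439804651110368)), (.ofNat (nat_lit 439804651110432)), (.ofNat (nat_lit 0)), (.negSucc (nat_lit 218787010096180486231908887298047999999999)), (.negSucc (nat_lit 218787010096180486231908887298047999999999)), (.ofNat (nat_lit 0)), (.ofNat (nat_lit 0))⟩,
    ⟨nat_lit 0, nat_lit 10, nat_lit 11, (.ofNat (nat_lit 16)), (.ofNat (nat_lit 494780232499200)), (.negSucc (nat_lit 41977521343957219631862602010984455075726691926015999999)), (.ofNat (nat_lit 0)), (.negSucc (nat_lit 281904915945377526843635721806595971616866303999999999)), (.ofNat (nat_lit 494780232499168)), (.ofNat (nat_lit 494780232499232)), (.negSucc (nat_lit 437574020192360972463817774596095999999999)), (.ofNat (nat_lit 0)), (.negSucc (nat_lit 437574020192360972463817774596095999999999)), (.ofNat (nat_lit 0)), (.ofNat (nat_lit 0))⟩,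
    ⟨nat_lit 2, nat_lit 10, nat_lit 12, (.ofNat (nat_lit 16)), (.ofNat (nat_lit 357341279027200)), (.ofNat (nat_lit 18162194057816668552420722315214966661118620073984000000)), (.negSucc (nat_lit 1288490188797)), (.ofNat (nat_lit 281904915945377526843635721806595971616866304000000000)), (.ofNat (nat_lit 357341279027168)), (.ofNat (nat_lit 357341279027232)), (.negSucc (nat_lit 437574020192360972463817774596095999999999)), (.negSucc (nat_lit 218787010096180486231908887298047999999999)), (.negSucc (nat_lit 437574020192360972463817774596095999999999)), (.negSucc (nat_lit 218787010096180486231908887298047999999999)), (.ofNat (nat_lit 0))⟩]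
  es := [
    ⟨nat_lit 1, nat_lit 4, (.negSucc (nat_lit 549755813887999)), (.negSucc (nat_lit 274877906943999)), (.negSucc (nat_lit 549755813887967)), (.negSucc (nat_lit 274877906944031)), (.ofNat (nat_lit 1148631803004947552717521658314752000000000)), (.ofNat (nat_lit 85463675818820502434339409100800000000)), (.ofNat (nat_lit 46984152657635850143971347129843298231910400000000000))⟩,
    ⟨nat_lit 1, nat_lit 10, (.negSucc (nat_lit 549755813887999)), (.ofNat (nat_lit 439804651110400)), (.negSucc (nat_lit 549755813887967)), (.ofNat (nat_lit 439804651110368)), (.ofNat (nat_lit 0)), (.ofNat (nat_lit 0)), (.ofNat (nat_lit 0))⟩,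
    ⟨nat_lit 3, nat_lit 5, (.ofNat (nat_lit 0)), (.ofNat (nat_lit 824633720832000)), (.ofNat (nat_lit 32)), (.ofNat (nat_lit 824633720831968)), (.negSucc (nat_lit 655558811251522130246209662640717823999999)), (.negSucc (nat_lit 512212297073600249585809615048768359374)), (.ofNat (nat_lit 116990540117513266858488654353309812597456896000000000))⟩,
    ⟨nat_lit 3, nat_lit 0, (.ofNat (nat_lit 0)), (.ofNat (nat_lit 274877906944000)), (.ofNat (nat_lit 32)), (.ofNat (nat_lit 274877906943968)), (.negSucc (nat_lit 457046064090921035738457665565622271999999)), (.ofNat (nat_lit 343563976791658419786044424585216000000)), (.ofNat (nat_lit 116990540117513266858488654353309812597456896000000000))⟩,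
    ⟨nat_lit 4, nat_lit 0, (.negSucc (nat_lit 274877906943999)), (.ofNat (nat_lit 274877906944000)), (.negSucc (nat_lit 274877906943967)), (.ofNat (nat_lit 274877906943968)), (.negSucc (nat_lit 470392071706788045398604107690803199999999)), (.ofNat (nat_lit 341854703275282009737357636403200000000)), (.ofNat (nat_lit 117460381644089625359928367824608245579776000000000000))⟩,
    ⟨nat_lit 5, nat_lit 2, (.ofNat (nat_lit 824633720832000)), (.ofNat (nat_lit 1099511627776000)), (.ofNat (nat_lit 824633720832032)), (.ofNat (nat_lit 1099511627775968)), (.ofNat (nat_lit 1148631803004947552717521658314752000000000)), (.ofNat (nat_lit 85463675818820502434339409100800000000)), (.negSucc (nat_lit 375873221260649227131578416066282568080687103999999999))⟩,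
    ⟨nat_lit 7, nat_lit 8, (.ofNat (nat_lit 1388133430067200)), (.ofNat (nat_lit 1429365116108800)), (.ofNat (nat_lit 1388133430067232)), (.ofNat (nat_lit 1429365116108768)), (.ofNat (nat_lit 2198809451466613886630684317345382400000000)), (.ofNat (nat_lit 0)), (.ofNat (nat_lit 0))⟩,
    ⟨nat_lit 8, nat_lit 9, (.ofNat (nat_lit 1429365116108800)), (.ofNat (nat_lit 1649267441664000)), (.ofNat (nat_lit 1429365116108832)), (.ofNat (nat_lit 1649267441663968)), (.ofNat (nat_lit 3841763155407619225428425117899161600000000)), (.negSucc (nat_lit 10682959477352562804292426137599999999)), (.ofNat (nat_lit 15269849613731651296790687817199071925370880000000000))⟩,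
    ⟨nat_lit 9, nat_lit 6, (.ofNat (nat_lit 1649267441664000)), (.ofNat (nat_lit 2199023255552000)), (.ofNat (nat_lit 1649267441664032)), (.ofNat (nat_lit 2199023255551968)), (.ofNat (nat_lit 1509356885901025129392381436247408640000000)), (.ofNat (nat_lit 4273183790941025121716970455040000000)), (.negSucc (nat_lit 9396830531527170028794269425968659646382079999999999))⟩,
    ⟨nat_lit 7, nat_lit 6, (.ofNat (nat_lit 1388133430067200)), (.ofNat (nat_lit 2199023255552000)), (.ofNat (nat_lit 1388133430067232)), (.ofNat (nat_lit 2199023255551968)), (.ofNat (nat_lit 2176930750456995838007493428615577600000000)), (.ofNat (nat_lit 0)), (.ofNat (nat_lit 0))⟩,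
    ⟨nat_lit 12, nat_lit 11, (.ofNat (nat_lit 357341279027200)), (.ofNat (nat_lit 494780232499200)), (.ofNat (nat_lit 357341279027232)), (.ofNat (nat_lit 494780232499168)), (.negSucc (nat_lit 437574020192360972463817774596095999999999)), (.ofNat (nat_lit 0)), (.negSucc (nat_lit 281904915945377526843635721806595971616866303999999999))⟩,
    ⟨nat_lit 11, nat_lit 2, (.ofNat (nat_lit 494780232499200)), (.ofNat (nat_lit 1099511627776000)), (.ofNat (nat_lit 494780232499232)), (.ofNat (nat_lit 1099511627775968)), (.ofNat (nat_lit 0)), (.ofNat (nat_lit 0)), (.negSucc (nat_lit 281904915945377526843635721806595971616866303999999999))⟩,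
    ⟨nat_lit 12, nat_lit 10, (.ofNat (nat_lit 357341279027200)), (.ofNat (nat_lit 439804651110400)), (.ofNat (nat_lit 357341279027232)), (.ofNat (nat_lit 439804651110368)), (.negSucc (nat_lit 218787010096180486231908887298047999999999)), (.ofNat (nat_lit 0)), (.ofNat (nat_lit 0))⟩]

theorem ok256 : stOK 12 12 S256 = true := by decide +kernel

def S257 : SD where
  vs := [
    ⟨nat_lit 1, nat_lit 3, nat_lit 4, (.ofNat (nat_lit 16)), (.ofNat (nat_lit 274877906944000)), (.ofNat (nat_lit 64770473494191431895240298668019518507173736873984000000)), (.ofNat (nat_lit 0)), (.ofNat (nat_lit 117460381644089625359928367824608245579776000000000000)), (.ofNat (nat_lit 274877906943968)), (.ofNat (nat_lit 274877906944032)), (.negSucc (nat_lit 445942623328539876062188289535246335999999)), (.negSucc (nat_lit 459452721201979021087008663325900799999999)), (.negSucc (nat_lit 459452721201979021087008663325900799999999)), (.negSucc (nat_lit 445942623328539876062188289535246335999999)), (.ofNat (nat_lit 352110344373540470029478365495296000000))⟩,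
    ⟨nat_lit 2, nat_lit 0, nat_lit 1, (.ofNat (nat_lit 16)), (.negSucc (nat_lit 549755813887999)), (.ofNat (nat_lit 120279437284502097135725017355140140065026473984000000)), (.ofNat (nat_lit 0)), (.ofNat (nat_lit 0)), (.negSucc (nat_lit 549755813888031)), (.negSucc (nat_lit 549755813887967)), (.ofNat (nat_lit 1154101478257352064873319380497203200000000)), (.ofNat (nat_lit 0)), (.ofNat (nat_lit 0)), (.ofNat (nat_lit 1154101478257352064873319380497203200000000)), (.ofNat (nat_lit 341854703275282009737357636403200000000))⟩,
    ⟨nat_lit 1, nat_lit 5, nat_lit 11, (.ofNat (nat_lit 16)), (.ofNat (nat_lit 1099511627776000)), (.negSucc (nat_lit 25664623541226052461875750287502861929607401046015999999)), (.ofNat (nat_lit 0)), (.ofNat (nat_lit 254889028167674487031044558179399892908113920000000000)), (.ofNat (nat_lit 1099511627775968)), (.ofNat (nat_lit 1099511627776032)), (.ofNat (nat_lit 1154101478257352064873319380497203200000000)), (.ofNat (nat_lit 0)), (.ofNat (nat_lit 0)), (.ofNat (nat_lit 1154101478257352064873319380497203200000000)), (.ofNat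 (nat_lit 341854703275282009737357636403200000000))⟩,
    ⟨nat_lit 2, nat_lit 3, nat_lit 2, (.ofNat (nat_lit 16)), (.ofNat (nat_lit 0)), (.ofNat (nat_lit 187350248411857059486855784475895489862298694057984000000)), (.ofNat (nat_lit 0)), (.ofNat (nat_lit 69771466696589237463797450487817297874386944000000000)), (.negSucc (nat_lit 31)), (.ofNat (nat_lit 32)), (.negSucc (nat_lit 445942623328539876062188289535246335999999)), (.negSucc (nat_lit 643015022672674449035580219768963071999999)), (.negSucc (nat_lit 643015022672674449035580219768963071999999)), (.negSucc (nat_lit 445942623328539876062188289535246335999999)), (.ofNat (nat_lit 391993393088990037832170089742336000000))⟩,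
    ⟨nat_lit 0, nat_lit 0, nat_lit 4, (.ofNat (nat_lit 16)), (.negSucc (nat_lit 274877906943999)), (.ofNat (nat_lit 317357278181641762269230260838057089801924047273984000000)), (.ofNat (nat_lit 0)), (.ofNat (nat_lit 23492076328817925071985673564921649115955200000000000)), (.negSucc (nat_lit 274877906944031)), (.negSucc (nat_lit 274877906943967)), (.ofNat (nat_lit 1154101478257352064873319380497203200000000)), (.negSucc (nat_lit 459452721201979021087008663325900799999999)), (.negSucc (nat_lit 459452721201979021087008663325900799999999)), (.ofNat (nat_lit 1154101478257352064873319380497203200000000)), (.ofNat (nat_lit 341854703275282009737357636403200000000))⟩,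
    ⟨nat_lit 0, nat_lit 2, nat_lit 5, (.ofNat (nat_lit 16)), (.ofNat (nat_lit 824633720832000)), (.negSucc (nat_lit 342901622285583312633970286108204811591466421846015999999)), (.ofNat (nat_lit 0)), (.ofNat (nat_lit 231396951838856561959058884614478243792158720000000000)), (.ofNat (nat_lit 824633720831968)), (.ofNat (nat_lit 824633720832032)), (.negSucc (nat_lit 643015022672674449035580219768963071999999)), (.ofNat (nat_lit 1154101478257352064873319380497203200000000)), (.negSucc (nat_lit 643015022672674449035580219768963071999999)), (.ofNat (nat_lit 1154101478257352064873319380497203200000000)), (.ofNat (nat_lit 613059434540339070795661361283072000000))⟩,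
    ⟨nat_lit 1, nat_lit 9, nat_lit 8, (.ofNat (nat_lit 16)), (.ofNat (nat_lit 2199023255552000)), (.ofNat (nat_lit 5283394277483120579086425767073974339721925685673984000000)), (.ofNat (nat_lit 0)), (.ofNat (nat_lit 0)), (.ofNat (nat_lit 2199023255551968)), (.ofNat (nat_lit 2199023255552032)), (.ofNat (nat_lit 2176930750456995838007493428615577600000000)), (.ofNat (nat_lit 1509630369663645355000171322356531200000000)), (.ofNat (nat_lit 1509630369663645355000171322356531200000000)), (.ofNat (nat_lit 2176930750456995838007493428615577600000000)), (.ofNat (nat_lit 8546367581882050243433940910080000000))⟩,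
    ⟨nat_lit 2, nat_lit 9, nat_lit 6, (.ofNat (nat_lit 16)), (.ofNat (nat_lit 1388133430067200)), (.ofNat (nat_lit 3518143281152552526157249489789205813191173665193984000000)), (.ofNat (nat_lit 0)), (.ofNat (nat_lit 0)), (.ofNat (nat_lit 1388133430067168)), (.ofNat (nat_lit 1388133430067232)), (.ofNat (nat_lit 2176930750456995838007493428615577600000000)), (.ofNat (nat_lit 2198809451466613886630684317345382400000000)), (.ofNat (nat_lit 2176930750456995838007493428615577600000000)), (.ofNat (nat_lit 2198809451466613886630684317345382400000000)), (.ofNat (nat_lit 0))⟩,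
    ⟨nat_lit 0, nat_lit 6, nat_lit 7, (.ofNat (nat_lit 16)), (.ofNat (nat_lit 1429365116108800)), (.ofNat (nat_lit 3608803902120726662595056601210951441459467973033984000000)), (.ofNat (nat_lit 0)), (.ofNat (nat_lit 0)), (.ofNat (nat_lit 1429365116108768)), (.ofNat (nat_lit 1429365116108832)), (.ofNat (nat_lit 2198809451466613886630684317345382400000000)), (.ofNat (nat_lit 3841079446001068661408950402626355200000000)), (.ofNat (nat_lit 2198809451466613886630684317345382400000000)), (.ofNat (nat_lit 3841079446001068661408950402626355200000000)), (.ofNat (nat_lit 21365918954705125608584852275200000000))⟩,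
    ⟨nat_lit 0, nat_lit 7, nat_lit 8, (.ofNat (nat_lit 16)), (.ofNat (nat_lit 1649267441664000)), (.ofNat (nat_lit 4453466204938640922143315891372422319753460380073984000000)), (.ofNat (nat_lit 0)), (.negSucc (nat_lit 2349207632881792507198567356492164911595519999999999)), (.ofNat (nat_lit 1649267441663968)), (.ofNat (nat_lit 1649267441664032)), (.ofNat (nat_lit 3841079446001068661408950402626355200000000)), (.ofNat (nat_lit 1509630369663645355000171322356531200000000)), (.ofNat (nat_lit 1509630369663645355000171322356531200000000)), (.ofNat (nat_lit 3841079446001068661408950402626355200000000)), (.ofNat (nat_lit 51278205491292301460603645460480000000))⟩,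
    ⟨nat_lit 1, nat_lit 1, nat_lit 12, (.ofNat (nat_lit 16)), (.ofNat (nat_lit 439804651110400)), (.ofNat (nat_lit 120279437284502097135725017355140140065026473984000000)), (.ofNat (nat_lit 0)), (.ofNat (nat_lit 0)), (.ofNat (nat_lit 439804651110368)), (.ofNat (nat_lit 439804651110432)), (.ofNat (nat_lit 0)), (.negSucc (nat_lit 434839182566158716385918913504870399999999)), (.negSucc (nat_lit 434839182566158716385918913504870399999999)), (.ofNat (nat_lit 0)), (.ofNat (nat_lit 6751630389686819692312813318963200000000))⟩,
    ⟨nat_lit 0, nat_lit 10, nat_lit 11, (.ofNat (nat_lit 16)), (.ofNat (nat_lit 494780232499200)), (.negSucc (nat_lit 25664623541226052461875750287502861929607401046015999999)), (.ofNat (nat_lit 0)), (.ofNat (nat_lit 254889028167674487031044558179399892908113920000000000)), (.ofNat (nat_lit 494780232499168)), (.ofNat (nat_lit 494780232499232)), (.negSucc (nat_lit 448513370697169996775413218960998399999999)), (.ofNat (nat_lit 0)), (.negSucc (nat_lit 448513370697169996775413218960998399999999)), (.ofNat (nat_lit 0)), (.ofNat (nat_lit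 683709406550564019474715272806400000000))⟩,
    ⟨nat_lit 2, nat_lit 10, nat_lit 12, (.ofNat (nat_lit 16)), (.ofNat (nat_lit 357341279027200)), (.ofNat (nat_lit 35978584745592182927014657146851545350659043753984000000)), (.ofNat (nat_lit 0)), (.ofNat (nat_lit 278381104496492412103030231744321542024069120000000000)), (.ofNat (nat_lit 357341279027168)), (.ofNat (nat_lit 357341279027232)), (.negSucc (nat_lit 448513370697169996775413218960998399999999)), (.negSucc (nat_lit 434839182566158716385918913504870399999999)), (.negSucc (nat_lit 448513370697169996775413218960998399999999)), (.negSucc (nat_lit 434839182566158716385918913504870399999999)), (.ofNat (nat_lit 6751630389686819692312813318963200000000))⟩]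
  es := [
    ⟨nat_lit 1, nat_lit 4, (.negSucc (nat_lit 549755813887999)), (.negSucc (nat_lit 274877906943999)), (.negSucc (nat_lit 549755813887967)), (.negSucc (nat_lit 274877906944031)), (.ofNat (nat_lit 1154101478257352064873319380497203200000000)), (.ofNat (nat_lit 85463675818820502434339409100800000000)), (.ofNat (nat_lit 46984152657635850143971347129843298231910400000000000))⟩,
    ⟨nat_lit 1, nat_lit 10, (.negSucc (nat_lit 549755813887999)), (.ofNat (nat_lit 439804651110400)), (.negSucc (nat_lit 549755813887967)), (.ofNat (nat_lit 439804651110368)), (.ofNat (nat_lit 0)), (.ofNat (nat_lit 0)), (.ofNat (nat_lit 0))⟩,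
    ⟨nat_lit 3, nat_lit 5, (.ofNat (nat_lit 0)), (.ofNat (nat_lit 824633720832000)), (.ofNat (nat_lit 32)), (.ofNat (nat_lit 824633720831968)), (.negSucc (nat_lit 643015022672674449035580219768963071999999)), (.ofNat (nat_lit 195996696544495018916085044871168000000)), (.ofNat (nat_lit 69771466696589237463797450487817297874386944000000000))⟩,
    ⟨nat_lit 3, nat_lit 0, (.ofNat (nat_lit 0)), (.ofNat (nat_lit 274877906944000)), (.ofNat (nat_lit 32)), (.ofNat (nat_lit 274877906943968)), (.negSucc (nat_lit 445942623328539876062188289535246335999999)), (.ofNat (nat_lit 173491261912205619941709000474624000000)), (.ofNat (nat_lit 69771466696589237463797450487817297874386944000000000))⟩,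
    ⟨nat_lit 4, nat_lit 0, (.negSucc (nat_lit 274877906943999)), (.ofNat (nat_lit 274877906944000)), (.negSucc (nat_lit 274877906943967)), (.ofNat (nat_lit 274877906943968)), (.negSucc (nat_lit 459452721201979021087008663325900799999999)), (.ofNat (nat_lit 170927351637641004868678818201600000000)), (.ofNat (nat_lit 70476228986453775215957020694764947347865600000000000))⟩,
    ⟨nat_lit 5, nat_lit 2, (.ofNat (nat_lit 824633720832000)), (.ofNat (nat_lit 1099511627776000)), (.ofNat (nat_lit 824633720832032)), (.ofNat (nat_lit 1099511627775968)), (.ofNat (nat_lit 1154101478257352064873319380497203200000000)), (.ofNat (nat_lit 85463675818820502434339409100800000000)), (.ofNat (nat_lit 160920722852402786743101863919713296444293120000000000))⟩,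
    ⟨nat_lit 7, nat_lit 8, (.ofNat (nat_lit 1388133430067200)), (.ofNat (nat_lit 1429365116108800)), (.ofNat (nat_lit 1388133430067232)), (.ofNat (nat_lit 1429365116108768)), (.ofNat (nat_lit 2198809451466613886630684317345382400000000)), (.ofNat (nat_lit 0)), (.ofNat (nat_lit 0))⟩,
    ⟨nat_lit 8, nat_lit 9, (.ofNat (nat_lit 1429365116108800)), (.ofNat (nat_lit 1649267441664000)), (.ofNat (nat_lit 1429365116108832)), (.ofNat (nat_lit 1649267441663968)), (.ofNat (nat_lit 3841079446001068661408950402626355200000000)), (.negSucc (nat_lit 10682959477352562804292426137599999999)), (.ofNat (nat_lit 15269849613731651296790687817199071925370880000000000))⟩,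
    ⟨nat_lit 9, nat_lit 6, (.ofNat (nat_lit 1649267441664000)), (.ofNat (nat_lit 2199023255552000)), (.ofNat (nat_lit 1649267441664032)), (.ofNat (nat_lit 2199023255551968)), (.ofNat (nat_lit 1509630369663645355000171322356531200000000)), (.ofNat (nat_lit 4273183790941025121716970455040000000)), (.negSucc (nat_lit 9396830531527170028794269425968659646382079999999999))⟩,
    ⟨nat_lit 7, nat_lit 6, (.ofNat (nat_lit 1388133430067200)), (.ofNat (nat_lit 2199023255552000)), (.ofNat (nat_lit 1388133430067232)), (.ofNat (nat_lit 2199023255551968)), (.ofNat (nat_lit 2176930750456995838007493428615577600000000)), (.ofNat (nat_lit 0)), (.ofNat (nat_lit 0))⟩,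
    ⟨nat_lit 12, nat_lit 11, (.ofNat (nat_lit 357341279027200)), (.ofNat (nat_lit 494780232499200)), (.ofNat (nat_lit 357341279027232)), (.ofNat (nat_lit 494780232499168)), (.negSucc (nat_lit 448513370697169996775413218960998399999999)), (.negSucc (nat_lit 170927351637641004868678818201599999999)), (.ofNat (nat_lit 339460502951419017290192983013117829725552640000000000))⟩,
    ⟨nat_lit 11, nat_lit 2, (.ofNat (nat_lit 494780232499200)), (.ofNat (nat_lit 1099511627776000)), (.ofNat (nat_lit 494780232499232)), (.ofNat (nat_lit 1099511627775968)), (.ofNat (nat_lit 0)), (.ofNat (nat_lit 0)), (.ofNat (nat_lit 254889028167674487031044558179399892908113920000000000))⟩,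
    ⟨nat_lit 12, nat_lit 10, (.ofNat (nat_lit 357341279027200)), (.ofNat (nat_lit 439804651110400)), (.ofNat (nat_lit 357341279027232)), (.ofNat (nat_lit 439804651110368)), (.negSucc (nat_lit 434839182566158716385918913504870399999999)), (.negSucc (nat_lit 3375815194843409846156406659481599999999)), (.ofNat (nat_lit 1484699223981292864549494569303048224128368640000000000))⟩]

theorem ok257 : stOK 12 12 S257 = true := by decide +kernel

def S258 : SD where
  vs := [
    ⟨nat_lit 1, nat_lit 3, nat_lit 4, (.ofNat (nat_lit 16)), (.ofNat (nat_lit 274877906944000)), (.ofNat (nat_lit 72024826664530407157469474664867323754180702633984000000)), (.ofNat (nat_lit 0)), (.ofNat (nat_lit 113349268286546488472330874950746956984483840000000000)), (.ofNat (nat_lit 274877906943968)), (.ofNat (nat_lit 274877906944032)), (.negSucc (nat_lit 434839182566158716385918913504870399999999)), (.negSucc (nat_lit 448513370697169996775413218960998399999999)), (.negSucc (nat_lit 448513370697169996775413218960998399999999)), (.negSucc (nat_lit 434839182566158716385918913504870399999999)),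 (.ofNat (nat_lit 352110344373540470029478365495296000000))⟩,
    ⟨nat_lit 2, nat_lit 0, nat_lit 1, (.ofNat (nat_lit 16)), (.negSucc (nat_lit 549755813887999)), (.ofNat (nat_lit 120279437284502097135725017355140140065026473984000000)), (.ofNat (nat_lit 0)), (.ofNat (nat_lit 0)), (.negSucc (nat_lit 549755813888031)), (.negSucc (nat_lit 549755813887967)), (.ofNat (nat_lit 1158613960340585787401852501297725440000000)), (.ofNat (nat_lit 0)), (.ofNat (nat_lit 0)), (.ofNat (nat_lit 1158613960340585787401852501297725440000000)), (.ofNat (nat_lit 282030130202107658033320050032640000000))⟩,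
    ⟨nat_lit 1, nat_lit 5, nat_lit 11, (.ofNat (nat_lit 16)), (.ofNat (nat_lit 1099511627776000)), (.negSucc (nat_lit 26416369983748226064179291841580354701317967446015999999)), (.ofNat (nat_lit 0)), (.negSucc (nat_lit 11746038164408962535992836782460824557977599999999999)), (.ofNat (nat_lit 1099511627775968)), (.ofNat (nat_lit 1099511627776032)), (.ofNat (nat_lit 1159571153509756577029117102679654400000000)), (.ofNat (nat_lit 0)), (.ofNat (nat_lit 0)), (.ofNat (nat_lit 1159571153509756577029117102679654400000000)), (.ofNat (nat_lit 341854703275282009737357636403200000000))⟩,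
    ⟨nat_lit 2, nat_lit 3, nat_lit 2, (.ofNat (nat_lit 16)), (.ofNat (nat_lit 0)), (.ofNat (nat_lit 191552511025556009923732581763188674456160760233984000000)), (.ofNat (nat_lit 0)), (.ofNat (nat_lit 65660353339046100576199957613956009279094784000000000)), (.negSucc (nat_lit 31)), (.ofNat (nat_lit 32)), (.negSucc (nat_lit 434839182566158716385918913504870399999999)), (.negSucc (nat_lit 650845774409033575605297292026839039999999)), (.negSucc (nat_lit 650845774409033575605297292026839039999999)), (.negSucc (nat_lit 434839182566158716385918913504870399999999)), (.ofNat (nat_lit 938676039410045185070494509957120000000))⟩,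
    ⟨nat_lit 0, nat_lit 0, nat_lit 4, (.ofNat (nat_lit 16)), (.negSucc (nat_lit 274877906943999)), (.ofNat (nat_lit 318597659811803348713031104402284952875246481833984000000)), (.ofNat (nat_lit 0)), (.ofNat (nat_lit 19380962971274788184388180691060360520663040000000000)), (.negSucc (nat_lit 274877906944031)), (.negSucc (nat_lit 274877906943967)), (.ofNat (nat_lit 1158613960340585787401852501297725440000000)), (.negSucc (nat_lit 448513370697169996775413218960998399999999)), (.negSucc (nat_lit 448513370697169996775413218960998399999999)), (.ofNat (nat_lit 1158613960340585787401852501297725440000000)), (.ofNat (nat_lit 341854703275282009737357636403200000000))⟩,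
    ⟨nat_lit 0, nat_lit 2, nat_lit 5, (.ofNat (nat_lit 16)), (.ofNat (nat_lit 824633720832000)), (.negSucc (nat_lit 345156861613149833440880910770437289906598121046015999999)), (.ofNat (nat_lit 0)), (.negSucc (nat_lit 35238114493226887607978510347382473673932799999999999)), (.ofNat (nat_lit 824633720831968)), (.ofNat (nat_lit 824633720832032)), (.negSucc (nat_lit 650845774409033575605297292026839039999999)), (.ofNat (nat_lit 1159571153509756577029117102679654400000000)), (.negSucc (nat_lit 650845774409033575605297292026839039999999)), (.ofNat (nat_lit 1159571153509756577029117102679654400000000)), (.ofNat (nat_lit 660349335160086415475995834318848000000))⟩,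
    ⟨nat_lit 1, nat_lit 9, nat_lit 8, (.ofNat (nat_lit 16)), (.ofNat (nat_lit 2199023255552000)), (.ofNat (nat_lit 5283394277483120579086425767073974339721925685673984000000)), (.ofNat (nat_lit 0)), (.ofNat (nat_lit 0)), (.ofNat (nat_lit 2199023255551968)), (.ofNat (nat_lit 2199023255552032)), (.ofNat (nat_lit 2176930750456995838007493428615577600000000)), (.ofNat (nat_lit 1509903853426265580607961208465653760000000)), (.ofNat (nat_lit 1509903853426265580607961208465653760000000)), (.ofNat (nat_lit 2176930750456995838007493428615577600000000)), (.ofNat (nat_lit 8546367581882050243433940910080000000))⟩,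
    ⟨nat_lit 2, nat_lit 9, nat_lit 6, (.ofNat (nat_lit 16)), (.ofNat (nat_lit 1388133430067200)), (.ofNat (nat_lit 3518143281152552526157249489789205813191173665193984000000)), (.ofNat (nat_lit 0)), (.ofNat (nat_lit 0)), (.ofNat (nat_lit 1388133430067168)), (.ofNat (nat_lit 1388133430067232)), (.ofNat (nat_lit 2176930750456995838007493428615577600000000)), (.ofNat (nat_lit 2198809451466613886630684317345382400000000)), (.ofNat (nat_lit 2176930750456995838007493428615577600000000)), (.ofNat (nat_lit 2198809451466613886630684317345382400000000)), (.ofNat (nat_lit 0))⟩,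
    ⟨nat_lit 0, nat_lit 6, nat_lit 7, (.ofNat (nat_lit 16)), (.ofNat (nat_lit 1429365116108800)), (.ofNat (nat_lit 3608803902120726662595056601210951441459467973033984000000)), (.ofNat (nat_lit 0)), (.ofNat (nat_lit 0)), (.ofNat (nat_lit 1429365116108768)), (.ofNat (nat_lit 1429365116108832)), (.ofNat (nat_lit 2198809451466613886630684317345382400000000)), (.ofNat (nat_lit 3840395736594518097389475687353548800000000)), (.ofNat (nat_lit 2198809451466613886630684317345382400000000)), (.ofNat (nat_lit 3840395736594518097389475687353548800000000)), (.ofNat (nat_lit 21365918954705125608584852275200000000))⟩,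
    ⟨nat_lit 0, nat_lit 7, nat_lit 8, (.ofNat (nat_lit 16)), (.ofNat (nat_lit 1649267441664000)), (.ofNat (nat_lit 4453315855650136487422855183061606821199118266793984000000)), (.ofNat (nat_lit 0)), (.negSucc (nat_lit 2349207632881792507198567356492164911595519999999999)), (.ofNat (nat_lit 1649267441663968)), (.ofNat (nat_lit 1649267441664032)), (.ofNat (nat_lit 3840395736594518097389475687353548800000000)), (.ofNat (nat_lit 1509903853426265580607961208465653760000000)), (.ofNat (nat_lit 1509903853426265580607961208465653760000000)), (.ofNat (nat_lit 3840395736594518097389475687353548800000000)), (.ofNat (nat_lit 51278205491292301460603645460480000000))⟩,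
    ⟨nat_lit 1, nat_lit 1, nat_lit 12, (.ofNat (nat_lit 16)), (.ofNat (nat_lit 439804651110400)), (.ofNat (nat_lit 120279437284502097135725017355140140065026473984000000)), (.ofNat (nat_lit 0)), (.ofNat (nat_lit 0)), (.ofNat (nat_lit 439804651110368)), (.ofNat (nat_lit 439804651110432)), (.ofNat (nat_lit 0)), (.negSucc (nat_lit 434839182566158716385918913504870399999999)), (.negSucc (nat_lit 434839182566158716385918913504870399999999)), (.ofNat (nat_lit 0)), (.ofNat (nat_lit 0))⟩,
    ⟨nat_lit 0, nat_lit 10, nat_lit 11, (.ofNat (nat_lit 16)), (.ofNat (nat_lit 494780232499200)), (.negSucc (nat_lit 26416369983748226064179291841580354701317967446015999999)), (.ofNat (nat_lit 0)), (.negSucc (nat_lit 11746038164408962535992836782460824557977599999999999)), (.ofNat (nat_lit 494780232499168)), (.ofNat (nat_lit 494780232499232)), (.negSucc (nat_lit 448513370697169996775413218960998399999999)), (.ofNat (nat_lit 0)), (.negSucc (nat_lit 448513370697169996775413218960998399999999)), (.ofNat (nat_lit 0)), (.ofNat (nat_lit 0))⟩,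
    ⟨nat_lit 2, nat_lit 10, nat_lit 12, (.ofNat (nat_lit 16)), (.ofNat (nat_lit 302365697638400)), (.ofNat (nat_lit 59884121617797303480267278566515815491055055273984000000)), (.negSucc (nat_lit 858993459199)), (.ofNat (nat_lit 373524013628205008644572209682254220943687680000000000)), (.ofNat (nat_lit 302365697638368)), (.ofNat (nat_lit 302365697638432)), (.negSucc (nat_lit 448513370697169996775413218960998399999999)), (.negSucc (nat_lit 434839182566158716385918913504870399999999)), (.negSucc (nat_lit 448513370697169996775413218960998399999999)), (.negSucc (nat_lit 434839182566158716385918913504870399999999)), (.ofNat (nat_lit 0))⟩]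
  es := [
    ⟨nat_lit 1, nat_lit 4, (.negSucc (nat_lit 549755813887999)), (.negSucc (nat_lit 274877906943999)), (.negSucc (nat_lit 549755813887967)), (.negSucc (nat_lit 274877906944031)), (.ofNat (nat_lit 1158613960340585787401852501297725440000000)), (.ofNat (nat_lit 70507532550526914508330012508160000000)), (.ofNat (nat_lit 38761925942549576368776361382120721041326080000000000))⟩,
    ⟨nat_lit 1, nat_lit 10, (.negSucc (nat_lit 549755813887999)), (.ofNat (nat_lit 439804651110400)), (.negSucc (nat_lit 549755813887967)), (.ofNat (nat_lit 439804651110368)), (.ofNat (nat_lit 0)), (.ofNat (nat_lit 0)), (.ofNat (nat_lit 0))⟩,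
    ⟨nat_lit 3, nat_lit 5, (.ofNat (nat_lit 0)), (.ofNat (nat_lit 824633720832000)), (.ofNat (nat_lit 32)), (.ofNat (nat_lit 824633720831968)), (.negSucc (nat_lit 650845774409033575605297292026839039999999)), (.negSucc (nat_lit 122355495880611352651829254029311999999)), (.ofNat (nat_lit 65660353339046100576199957613956009279094784000000000))⟩,
    ⟨nat_lit 3, nat_lit 0, (.ofNat (nat_lit 0)), (.ofNat (nat_lit 274877906944000)), (.ofNat (nat_lit 32)), (.ofNat (nat_lit 274877906943968)), (.negSucc (nat_lit 434839182566158716385918913504870399999999)), (.ofNat (nat_lit 173491261912205619941709000474624000000)), (.ofNat (nat_lit 65660353339046100576199957613956009279094784000000000))⟩,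
    ⟨nat_lit 4, nat_lit 0, (.negSucc (nat_lit 274877906943999)), (.ofNat (nat_lit 274877906944000)), (.negSucc (nat_lit 274877906943967)), (.ofNat (nat_lit 274877906943968)), (.negSucc (nat_lit 448513370697169996775413218960998399999999)), (.ofNat (nat_lit 170927351637641004868678818201600000000)), (.ofNat (nat_lit 66365115628910638328359527820903658752573440000000000))⟩,
    ⟨nat_lit 5, nat_lit 2, (.ofNat (nat_lit 824633720832000)), (.ofNat (nat_lit 1099511627776000)), (.ofNat (nat_lit 824633720832032)), (.ofNat (nat_lit 1099511627775968)), (.ofNat (nat_lit 1159571153509756577029117102679654400000000)), (.ofNat (nat_lit 85463675818820502434339409100800000000)), (.negSucc (nat_lit 105714343479680662823935531042147421021798399999999999))⟩,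
    ⟨nat_lit 7, nat_lit 8, (.ofNat (nat_lit 1388133430067200)), (.ofNat (nat_lit 1429365116108800)), (.ofNat (nat_lit 1388133430067232)), (.ofNat (nat_lit 1429365116108768)), (.ofNat (nat_lit 2198809451466613886630684317345382400000000)), (.ofNat (nat_lit 0)), (.ofNat (nat_lit 0))⟩,
    ⟨nat_lit 8, nat_lit 9, (.ofNat (nat_lit 1429365116108800)), (.ofNat (nat_lit 1649267441664000)), (.ofNat (nat_lit 1429365116108832)), (.ofNat (nat_lit 1649267441663968)), (.ofNat (nat_lit 3840395736594518097389475687353548800000000)), (.negSucc (nat_lit 10682959477352562804292426137599999999)), (.ofNat (nat_lit 15269849613731651296790687817199071925370880000000000))⟩,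
    ⟨nat_lit 9, nat_lit 6, (.ofNat (nat_lit 1649267441664000)), (.ofNat (nat_lit 2199023255552000)), (.ofNat (nat_lit 1649267441664032)), (.ofNat (nat_lit 2199023255551968)), (.ofNat (nat_lit 1509903853426265580607961208465653760000000)), (.ofNat (nat_lit 4273183790941025121716970455040000000)), (.negSucc (nat_lit 9396830531527170028794269425968659646382079999999999))⟩,
    ⟨nat_lit 7, nat_lit 6, (.ofNat (nat_lit 1388133430067200)), (.ofNat (nat_lit 2199023255552000)), (.ofNat (nat_lit 1388133430067232)), (.ofNat (nat_lit 2199023255551968)), (.ofNat (nat_lit 2176930750456995838007493428615577600000000)), (.ofNat (nat_lit 0)), (.ofNat (nat_lit 0))⟩,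
    ⟨nat_lit 12, nat_lit 11, (.ofNat (nat_lit 302365697638400)), (.ofNat (nat_lit 494780232499200)), (.ofNat (nat_lit 302365697638432)), (.ofNat (nat_lit 494780232499168)), (.negSucc (nat_lit 448513370697169996775413218960998399999999)), (.ofNat (nat_lit 0)), (.negSucc (nat_lit 11746038164408962535992836782460824557977599999999999))⟩,
    ⟨nat_lit 11, nat_lit 2, (.ofNat (nat_lit 494780232499200)), (.ofNat (nat_lit 1099511627776000)), (.ofNat (nat_lit 494780232499232)), (.ofNat (nat_lit 1099511627775968)), (.ofNat (nat_lit 0)), (.ofNat (nat_lit 0)), (.negSucc (nat_lit 11746038164408962535992836782460824557977599999999999))⟩,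
    ⟨nat_lit 12, nat_lit 10, (.ofNat (nat_lit 302365697638400)), (.ofNat (nat_lit 439804651110400)), (.ofNat (nat_lit 302365697638432)), (.ofNat (nat_lit 439804651110368)), (.negSucc (nat_lit 434839182566158716385918913504870399999999)), (.ofNat (nat_lit 0)), (.ofNat (nat_lit 0))⟩]

theorem ok258 : stOK 12 12 S258 = true := by decide +kernel

def S259 : SD where
  vs := [
    ⟨nat_lit 1, nat_lit 3, nat_lit 4, (.ofNat (nat_lit 16)), (.ofNat (nat_lit 288407053926400)), (.ofNat (nat_lit 66252823510539842967282594669966074566390509993984000000)), (.ofNat (nat_lit 214748364800)), (.negSucc (nat_lit 91619097682389907780744126903194431552225279999999999)), (.ofNat (nat_lit 288407053926368)), (.ofNat (nat_lit 288407053926432)), (.negSucc (nat_lit 434839182566158716385918913504870399999999)), (.negSucc (nat_lit 448513370697169996775413218960998399999999)), (.negSucc (nat_lit 448513370697169996775413218960998399999999)), (.negSucc (nat_lit 434839182566158716385918913504870399999999)), (.ofNat (nat_lit 0))⟩,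
    ⟨nat_lit 2, nat_lit 0, nat_lit 1, (.ofNat (nat_lit 16)), (.negSucc (nat_lit 549755813887999)), (.ofNat (nat_lit 120279437284502097135725017355140140065026473984000000)), (.ofNat (nat_lit 0)), (.ofNat (nat_lit 0)), (.negSucc (nat_lit 549755813888031)), (.negSucc (nat_lit 549755813887967)), (.ofNat (nat_lit 1159690802655902925732525177852395520000000)), (.ofNat (nat_lit 299122865365871758520187931852800000000)), (.ofNat (nat_lit 299122865365871758520187931852800000000)), (.ofNat (nat_lit 1159690802655902925732525177852395520000000)), (.ofNat (nat_lit 58874976675187457232544926269440000000))⟩,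
    ⟨nat_lit 1, nat_lit 5, nat_lit 11, (.ofNat (nat_lit 16)), (.ofNat (nat_lit 1099511627776000)), (.negSucc (nat_lit 26305369923094561368214159533986099909245079126015999999)), (.ofNat (nat_lit 0)), (.ofNat (nat_lit 1761905724661344380398925517369123683696640000000000)), (.ofNat (nat_lit 1099511627775968)), (.ofNat (nat_lit 1099511627776032)), (.ofNat (nat_lit 1160647995825073715359789779234324480000000)), (.ofNat (nat_lit 0)), (.ofNat (nat_lit 0)), (.ofNat (nat_lit 1160647995825073715359789779234324480000000)), (.ofNat (nat_lit 68370940655056401947471527280640000000))⟩,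
    ⟨nat_lit 2, nat_lit 3, nat_lit 2, (.ofNat (nat_lit 16)), (.ofNat (nat_lit 0)), (.ofNat (nat_lit 191663511086209674619697714070782929248233648553984000000)), (.ofNat (nat_lit 0)), (.ofNat (nat_lit 1761905724661344380398925517369123683696640000000000)), (.negSucc (nat_lit 31)), (.ofNat (nat_lit 32)), (.negSucc (nat_lit 434839182566158716385918913504870399999999)), (.negSucc (nat_lit 651204721847472621715521517545062399999999)), (.negSucc (nat_lit 651204721847472621715521517545062399999999)), (.negSucc (nat_lit 434839182566158716385918913504870399999999)), (.ofNat (nat_lit 11395156775842733657911921213440000000))⟩,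
    ⟨nat_lit 0, nat_lit 0, nat_lit 4, (.ofNat (nat_lit 16)), (.negSucc (nat_lit 274877906943999)), (.ofNat (nat_lit 318893659973546454568938123889202965654107517353984000000)), (.ofNat (nat_lit 0)), (.ofNat (nat_lit 4698415265763585014397134712984329823191040000000000)), (.negSucc (nat_lit 274877906944031)), (.negSucc (nat_lit 274877906943967)), (.ofNat (nat_lit 1159690802655902925732525177852395520000000)), (.negSucc (nat_lit 448513370697169996775413218960998399999999)), (.negSucc (nat_lit 448513370697169996775413218960998399999999)), (.ofNat (nat_lit 1159690802655902925732525177852395520000000)), (.ofNat (nat_lit 68370940655056401947471527280640000000))⟩,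
    ⟨nat_lit 0, nat_lit 2, nat_lit 5, (.ofNat (nat_lit 16)), (.ofNat (nat_lit 824633720832000)), (.negSucc (nat_lit 345341861714239274600822797949761047893386268246015999999)), (.ofNat (nat_lit 0)), (.negSucc (nat_lit 2936509541102240633998209195615206139494399999999999)), (.ofNat (nat_lit 824633720831968)), (.ofNat (nat_lit 824633720832032)), (.negSucc (nat_lit 651204721847472621715521517545062399999999)), (.ofNat (nat_lit 1160647995825073715359789779234324480000000)), (.negSucc (nat_lit 651204721847472621715521517545062399999999)), (.ofNat (nat_lit 1160647995825073715359789779234324480000000)), (.ofNat (nat_lit 56975783879213668289559606067200000000))⟩,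
    ⟨nat_lit 1, nat_lit 9, nat_lit 8, (.ofNat (nat_lit 16)), (.ofNat (nat_lit 2199023255552000)), (.ofNat (nat_lit 5283394277483120579086425767073974339721925685673984000000)), (.ofNat (nat_lit 0)), (.ofNat (nat_lit 0)), (.ofNat (nat_lit 2199023255551968)), (.ofNat (nat_lit 2199023255552032)), (.ofNat (nat_lit 2176930750456995838007493428615577600000000)), (.ofNat (nat_lit 1510038458715680222899295293034987520000000)), (.ofNat (nat_lit 1510038458715680222899295293034987520000000)), (.ofNat (nat_lit 2176930750456995838007493428615577600000000)), (.ofNat (nat_lit 4273183790941025121716970455040000000))⟩,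
    ⟨nat_lit 2, nat_lit 9, nat_lit 6, (.ofNat (nat_lit 16)), (.ofNat (nat_lit 1388133430067200)), (.ofNat (nat_lit 3518143281152552526157249489789205813191173665193984000000)), (.ofNat (nat_lit 0)), (.ofNat (nat_lit 0)), (.ofNat (nat_lit 1388133430067168)), (.ofNat (nat_lit 1388133430067232)), (.ofNat (nat_lit 2176930750456995838007493428615577600000000)), (.ofNat (nat_lit 2198809451466613886630684317345382400000000)), (.ofNat (nat_lit 2176930750456995838007493428615577600000000)), (.ofNat (nat_lit 2198809451466613886630684317345382400000000)), (.ofNat (nat_lit 0))⟩,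
    ⟨nat_lit 0, nat_lit 6, nat_lit 7, (.ofNat (nat_lit 16)), (.ofNat (nat_lit 1429365116108800)), (.ofNat (nat_lit 3608803902120726662595056601210951441459467973033984000000)), (.ofNat (nat_lit 0)), (.ofNat (nat_lit 0)), (.ofNat (nat_lit 1429365116108768)), (.ofNat (nat_lit 1429365116108832)), (.ofNat (nat_lit 2198809451466613886630684317345382400000000)), (.ofNat (nat_lit 3840059223370981491661140475930214400000000)), (.ofNat (nat_lit 2198809451466613886630684317345382400000000)), (.ofNat (nat_lit 3840059223370981491661140475930214400000000)), (.ofNat (nat_lit 10682959477352562804292426137600000000))⟩,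
    ⟨nat_lit 0, nat_lit 7, nat_lit 8, (.ofNat (nat_lit 16)), (.ofNat (nat_lit 1649267441664000)), (.ofNat (nat_lit 4453241855609700710958878428189877318004403007913984000000)), (.ofNat (nat_lit 0)), (.negSucc (nat_lit 1174603816440896253599283678246082455797759999999999)), (.ofNat (nat_lit 1649267441663968)), (.ofNat (nat_lit 1649267441664032)), (.ofNat (nat_lit 3840059223370981491661140475930214400000000)), (.ofNat (nat_lit 1510038458715680222899295293034987520000000)), (.ofNat (nat_lit 1510038458715680222899295293034987520000000)), (.ofNat (nat_lit 3840059223370981491661140475930214400000000)), (.ofNat (nat_lit 25639102745646150730301822730240000000))⟩,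
    ⟨nat_lit 1, nat_lit 1, nat_lit 12, (.ofNat (nat_lit 16)), (.ofNat (nat_lit 439804651110400)), (.ofNat (nat_lit 416279599027607953042744504273152918926061993984000000)), (.ofNat (nat_lit 0)), (.ofNat (nat_lit 4698415265763585014397134712984329823191040000000000)), (.ofNat (nat_lit 439804651110368)), (.ofNat (nat_lit 439804651110432)), (.ofNat (nat_lit 299122865365871758520187931852800000000)), (.negSucc (nat_lit 434839182566158716385918913504870399999999)), (.negSucc (nat_lit 434839182566158716385918913504870399999999)), (.ofNat (nat_lit 299122865365871758520187931852800000000)), (.ofNat (nat_lit 18991927959737889429853202022400000000))⟩,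
    ⟨nat_lit 0, nat_lit 10, nat_lit 11, (.ofNat (nat_lit 16)), (.ofNat (nat_lit 494780232499200)), (.negSucc (nat_lit 26305369923094561368214159533986099909245079126015999999)), (.ofNat (nat_lit 0)), (.ofNat (nat_lit 1761905724661344380398925517369123683696640000000000)), (.ofNat (nat_lit 494780232499168)), (.ofNat (nat_lit 494780232499232)), (.negSucc (nat_lit 448513370697169996775413218960998399999999)), (.ofNat (nat_lit 0)), (.negSucc (nat_lit 448513370697169996775413218960998399999999)), (.ofNat (nat_lit 0)), (.ofNat (nat_lit 0))⟩,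
    ⟨nat_lit 2, nat_lit 10, nat_lit 12, (.ofNat (nat_lit 16)), (.ofNat (nat_lit 288836550656000)), (.ofNat (nat_lit 66063124994184638222326310355929332249779171753984000000)), (.negSucc (nat_lit 214748364799)), (.ofNat (nat_lit 98079418672814837175540187133547885059112960000000000)), (.ofNat (nat_lit 288836550655968)), (.ofNat (nat_lit 288836550656032)), (.negSucc (nat_lit 448513370697169996775413218960998399999999)), (.negSucc (nat_lit 434839182566158716385918913504870399999999)), (.negSucc (nat_lit 448513370697169996775413218960998399999999)), (.negSucc (nat_lit 434839182566158716385918913504870399999999)), (.ofNat (nat_lit 0))⟩]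
  es := [
    ⟨nat_lit 1, nat_lit 4, (.negSucc (nat_lit 549755813887999)), (.negSucc (nat_lit 274877906943999)), (.negSucc (nat_lit 549755813887967)), (.negSucc (nat_lit 274877906944031)), (.ofNat (nat_lit 1159690802655902925732525177852395520000000)), (.ofNat (nat_lit 17092735163764100486867881820160000000)), (.ofNat (nat_lit 9396830531527170028794269425968659646382080000000000))⟩,
    ⟨nat_lit 1, nat_lit 10, (.negSucc (nat_lit 549755813887999)), (.ofNat (nat_lit 439804651110400)), (.negSucc (nat_lit 549755813887967)), (.ofNat (nat_lit 439804651110368)), (.ofNat (nat_lit 299122865365871758520187931852800000000)), (.ofNat (nat_lit 4747981989934472357463300505600000000)), (.ofNat (nat_lit 2610230703201991674665074840546849901772800000000000))⟩,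
    ⟨nat_lit 3, nat_lit 5, (.ofNat (nat_lit 0)), (.ofNat (nat_lit 824633720832000)), (.ofNat (nat_lit 32)), (.ofNat (nat_lit 824633720831968)), (.negSucc (nat_lit 651204721847472621715521517545062399999999)), (.negSucc (nat_lit 5697578387921366828955960606719999999)), (.ofNat (nat_lit 1761905724661344380398925517369123683696640000000000))⟩,
    ⟨nat_lit 3, nat_lit 0, (.ofNat (nat_lit 0)), (.ofNat (nat_lit 288407053926400)), (.ofNat (nat_lit 32)), (.ofNat (nat_lit 288407053926368)), (.negSucc (nat_lit 434839182566158716385918913504870399999999)), (.ofNat (nat_lit 0)), (.ofNat (nat_lit 1761905724661344380398925517369123683696640000000000))⟩,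
    ⟨nat_lit 4, nat_lit 0, (.negSucc (nat_lit 274877906943999)), (.ofNat (nat_lit 288407053926400)), (.negSucc (nat_lit 274877906943967)), (.ofNat (nat_lit 288407053926368)), (.negSucc (nat_lit 448513370697169996775413218960998399999999)), (.ofNat (nat_lit 0)), (.ofNat (nat_lit 4698415265763585014397134712984329823191040000000000))⟩,
    ⟨nat_lit 5, nat_lit 2, (.ofNat (nat_lit 824633720832000)), (.ofNat (nat_lit 1099511627776000)), (.ofNat (nat_lit 824633720832032)), (.ofNat (nat_lit 1099511627775968)), (.ofNat (nat_lit 1160647995825073715359789779234324480000000)), (.ofNat (nat_lit 17092735163764100486867881820160000000)), (.negSucc (nat_lit 17031755338392995677189613334568195609067519999999999))⟩,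
    ⟨nat_lit 7, nat_lit 8, (.ofNat (nat_lit 1388133430067200)), (.ofNat (nat_lit 1429365116108800)), (.ofNat (nat_lit 1388133430067232)), (.ofNat (nat_lit 1429365116108768)), (.ofNat (nat_lit 2198809451466613886630684317345382400000000)), (.ofNat (nat_lit 0)), (.ofNat (nat_lit 0))⟩,
    ⟨nat_lit 8, nat_lit 9, (.ofNat (nat_lit 1429365116108800)), (.ofNat (nat_lit 1649267441664000)), (.ofNat (nat_lit 1429365116108832)), (.ofNat (nat_lit 1649267441663968)), (.ofNat (nat_lit 3840059223370981491661140475930214400000000)), (.negSucc (nat_lit 5341479738676281402146213068799999999)), (.ofNat (nat_lit 7634924806865825648395343908599535962685440000000000))⟩,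
    ⟨nat_lit 9, nat_lit 6, (.ofNat (nat_lit 1649267441664000)), (.ofNat (nat_lit 2199023255552000)), (.ofNat (nat_lit 1649267441664032)), (.ofNat (nat_lit 2199023255551968)), (.ofNat (nat_lit 1510038458715680222899295293034987520000000)), (.ofNat (nat_lit 2136591895470512560858485227520000000)), (.negSucc (nat_lit 4698415265763585014397134712984329823191039999999999))⟩,
    ⟨nat_lit 7, nat_lit 6, (.ofNat (nat_lit 1388133430067200)), (.ofNat (nat_lit 2199023255552000)), (.ofNat (nat_lit 1388133430067232)), (.ofNat (nat_lit 2199023255551968)), (.ofNat (nat_lit 2176930750456995838007493428615577600000000)), (.ofNat (nat_lit 0)), (.ofNat (nat_lit 0))⟩,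
    ⟨nat_lit 12, nat_lit 11, (.ofNat (nat_lit 288836550656000)), (.ofNat (nat_lit 494780232499200)), (.ofNat (nat_lit 288836550656032)), (.ofNat (nat_lit 494780232499168)), (.negSucc (nat_lit 448513370697169996775413218960998399999999)), (.ofNat (nat_lit 0)), (.ofNat (nat_lit 1761905724661344380398925517369123683696640000000000))⟩,
    ⟨nat_lit 11, nat_lit 2, (.ofNat (nat_lit 494780232499200)), (.ofNat (nat_lit 1099511627776000)), (.ofNat (nat_lit 494780232499232)), (.ofNat (nat_lit 1099511627775968)), (.ofNat (nat_lit 0)), (.ofNat (nat_lit 0)), (.ofNat (nat_lit 1761905724661344380398925517369123683696640000000000))⟩,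
    ⟨nat_lit 12, nat_lit 10, (.ofNat (nat_lit 288836550656000)), (.ofNat (nat_lit 439804651110400)), (.ofNat (nat_lit 288836550656032)), (.ofNat (nat_lit 439804651110368)), (.negSucc (nat_lit 434839182566158716385918913504870399999999)), (.ofNat (nat_lit 0)), (.ofNat (nat_lit 4698415265763585014397134712984329823191040000000000))⟩]

theorem ok259 : stOK 12 12 S259 = true := by decide +kernel

def S260 : SD where
  vs := [
    ⟨nat_lit 0, nat_lit 3, nat_lit 10, (.ofNat (nat_lit 16)), (.ofNat (nat_lit 288621802291200)), (.ofNat (nat_lit 66162966318582114403882249468580249258521981353984000000)), (.ofNat (nat_lit 0)), (.ofNat (nat_lit 1761905724661344380398925517369123683696640000000000)), (.ofNat (nat_lit 288621802291168)), (.ofNat (nat_lit 288621802291232)), (.negSucc (nat_lit 434839182566158716385918913504870399999999)), (.negSucc (nat_lit 448513370697169996775413218960998399999999)), (.negSucc (nat_lit 448513370697169996775413218960998399999999)), (.negSucc (nat_lit 434839182566158716385918913504870399999999)), (.ofNat (nat_lit 0))⟩,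
    ⟨nat_lit 2, nat_lit 0, nat_lit 1, (.ofNat (nat_lit 16)), (.negSucc (nat_lit 549755813887999)), (.ofNat (nat_lit 120279437284502097135725017355140140065026473984000000)), (.ofNat (nat_lit 0)), (.ofNat (nat_lit 0)), (.negSucc (nat_lit 549755813888031)), (.negSucc (nat_lit 549755813887967)), (.ofNat (nat_lit 1159724988126230453933498913616035840000000)), (.ofNat (nat_lit 308618829345740703235114532864000000000)), (.ofNat (nat_lit 308618829345740703235114532864000000000)), (.ofNat (nat_lit 1159724988126230453933498913616035840000000)), (.ofNat (nat_lit 58874976675187457232544926269440000000))⟩,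
    ⟨nat_lit 1, nat_lit 5, nat_lit 11, (.ofNat (nat_lit 16)), (.ofNat (nat_lit 1099511627776000)), (.negSucc (nat_lit 26301846111645238679453361682951361661877685846015999999)), (.ofNat (nat_lit 0)), (.ofNat (nat_lit 1761905724661344380398925517369123683696640000000000)), (.ofNat (nat_lit 1099511627775968)), (.ofNat (nat_lit 1099511627776032)), (.ofNat (nat_lit 1160682181295401243560763514997964800000000)), (.ofNat (nat_lit 0)), (.ofNat (nat_lit 0)), (.ofNat (nat_lit 1160682181295401243560763514997964800000000)), (.ofNat (nat_lit 68370940655056401947471527280640000000))⟩,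
    ⟨nat_lit 2, nat_lit 3, nat_lit 2, (.ofNat (nat_lit 16)), (.ofNat (nat_lit 0)), (.ofNat (nat_lit 191667034897658997308458511921817667495601041833984000000)), (.ofNat (nat_lit 0)), (.ofNat (nat_lit 1761905724661344380398925517369123683696640000000000)), (.negSucc (nat_lit 31)), (.ofNat (nat_lit 32)), (.negSucc (nat_lit 434839182566158716385918913504870399999999)), (.negSucc (nat_lit 651216117004248464449179429466275839999999)), (.negSucc (nat_lit 651216117004248464449179429466275839999999)), (.negSucc (nat_lit 434839182566158716385918913504870399999999)), (.ofNat (nat_lit 11395156775842733657911921213440000000))⟩,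
    ⟨nat_lit 0, nat_lit 0, nat_lit 4, (.ofNat (nat_lit 16)), (.negSucc (nat_lit 274877906943999)), (.ofNat (nat_lit 318903056804077981738966918158628934313753899433984000000)), (.ofNat (nat_lit 0)), (.ofNat (nat_lit 4698415265763585014397134712984329823191040000000000)), (.negSucc (nat_lit 274877906944031)), (.negSucc (nat_lit 274877906943967)), (.ofNat (nat_lit 1159724988126230453933498913616035840000000)), (.negSucc (nat_lit 448513370697169996775413218960998399999999)), (.negSucc (nat_lit 448513370697169996775413218960998399999999)), (.ofNat (nat_lit 1159724988126230453933498913616035840000000)), (.ofNat (nat_lit 68370940655056401947471527280640000000))⟩,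
    ⟨nat_lit 0, nat_lit 2, nat_lit 5, (.ofNat (nat_lit 16)), (.ofNat (nat_lit 824633720832000)), (.negSucc (nat_lit 345347734733321479082090794368152278305665257046015999999)), (.ofNat (nat_lit 0)), (.negSucc (nat_lit 2936509541102240633998209195615206139494399999999999)), (.ofNat (nat_lit 824633720831968)), (.ofNat (nat_lit 824633720832032)), (.negSucc (nat_lit 651216117004248464449179429466275839999999)), (.ofNat (nat_lit 1160682181295401243560763514997964800000000)), (.negSucc (nat_lit 651216117004248464449179429466275839999999)), (.ofNat (nat_lit 1160682181295401243560763514997964800000000)), (.ofNat (nat_lit 56975783879213668289559606067200000000))⟩,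
    ⟨nat_lit 1, nat_lit 9, nat_lit 8, (.ofNat (nat_lit 16)), (.ofNat (nat_lit 2199023255552000)), (.ofNat (nat_lit 5283394277483120579086425767073974339721925685673984000000)), (.ofNat (nat_lit 0)), (.ofNat (nat_lit 0)), (.ofNat (nat_lit 2199023255551968)), (.ofNat (nat_lit 2199023255552032)), (.ofNat (nat_lit 2176930750456995838007493428615577600000000)), (.ofNat (nat_lit 1510042731899471163924417010005442560000000)), (.ofNat (nat_lit 1510042731899471163924417010005442560000000)), (.ofNat (nat_lit 2176930750456995838007493428615577600000000)), (.ofNat (nat_lit 4273183790941025121716970455040000000))⟩,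
    ⟨nat_lit 2, nat_lit 9, nat_lit 6, (.ofNat (nat_lit 16)), (.ofNat (nat_lit 1388133430067200)), (.ofNat (nat_lit 3518143281152552526157249489789205813191173665193984000000)), (.ofNat (nat_lit 0)), (.ofNat (nat_lit 0)), (.ofNat (nat_lit 1388133430067168)), (.ofNat (nat_lit 1388133430067232)), (.ofNat (nat_lit 2176930750456995838007493428615577600000000)), (.ofNat (nat_lit 2198809451466613886630684317345382400000000)), (.ofNat (nat_lit 2176930750456995838007493428615577600000000)), (.ofNat (nat_lit 2198809451466613886630684317345382400000000)), (.ofNat (nat_lit 0))⟩,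
    ⟨nat_lit 0, nat_lit 6, nat_lit 7, (.ofNat (nat_lit 16)), (.ofNat (nat_lit 1429365116108800)), (.ofNat (nat_lit 3608803902120726662595056601210951441459467973033984000000)), (.ofNat (nat_lit 0)), (.ofNat (nat_lit 0)), (.ofNat (nat_lit 1429365116108768)), (.ofNat (nat_lit 1429365116108832)), (.ofNat (nat_lit 2198809451466613886630684317345382400000000)), (.ofNat (nat_lit 3840048540411504139098336183504076800000000)), (.ofNat (nat_lit 2198809451466613886630684317345382400000000)), (.ofNat (nat_lit 3840048540411504139098336183504076800000000)), (.ofNat (nat_lit 10682959477352562804292426137600000000))⟩,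
    ⟨nat_lit 0, nat_lit 7, nat_lit 8, (.ofNat (nat_lit 16)), (.ofNat (nat_lit 1649267441664000)), (.ofNat (nat_lit 4453239506402067829166371229622520825839491412393984000000)), (.ofNat (nat_lit 0)), (.negSucc (nat_lit 1174603816440896253599283678246082455797759999999999)), (.ofNat (nat_lit 1649267441663968)), (.ofNat (nat_lit 1649267441664032)), (.ofNat (nat_lit 3840048540411504139098336183504076800000000)), (.ofNat (nat_lit 1510042731899471163924417010005442560000000)), (.ofNat (nat_lit 1510042731899471163924417010005442560000000)), (.ofNat (nat_lit 3840048540411504139098336183504076800000000)), (.ofNat (nat_lit 25639102745646150730301822730240000000))⟩,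
    ⟨nat_lit 1, nat_lit 1, nat_lit 12, (.ofNat (nat_lit 16)), (.ofNat (nat_lit 439804651110400)), (.ofNat (nat_lit 425676429559135123071538773699121578572444073984000000)), (.ofNat (nat_lit 0)), (.ofNat (nat_lit 4698415265763585014397134712984329823191040000000000)), (.ofNat (nat_lit 439804651110368)), (.ofNat (nat_lit 439804651110432)), (.ofNat (nat_lit 308618829345740703235114532864000000000)), (.negSucc (nat_lit 434839182566158716385918913504870399999999)), (.negSucc (nat_lit 434839182566158716385918913504870399999999)), (.ofNat (nat_lit 308618829345740703235114532864000000000)), (.ofNat (nat_lit 18991927959737889429853202022400000000))⟩,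
    ⟨nat_lit 0, nat_lit 10, nat_lit 11, (.ofNat (nat_lit 16)), (.ofNat (nat_lit 494780232499200)), (.negSucc (nat_lit 26301846111645238679453361682951361661877685846015999999)), (.ofNat (nat_lit 0)), (.ofNat (nat_lit 1761905724661344380398925517369123683696640000000000)), (.ofNat (nat_lit 494780232499168)), (.ofNat (nat_lit 494780232499232)), (.negSucc (nat_lit 448513370697169996775413218960998399999999)), (.ofNat (nat_lit 0)), (.negSucc (nat_lit 448513370697169996775413218960998399999999)), (.ofNat (nat_lit 0)), (.ofNat (nat_lit 0))⟩,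
    ⟨nat_lit 0, nat_lit 4, nat_lit 12, (.ofNat (nat_lit 16)), (.ofNat (nat_lit 288621802291200)), (.ofNat (nat_lit 66165902828123216644516247677775864464661475753984000000)), (.ofNat (nat_lit 0)), (.ofNat (nat_lit 4698415265763585014397134712984329823191040000000000)), (.ofNat (nat_lit 288621802291168)), (.ofNat (nat_lit 288621802291232)), (.negSucc (nat_lit 448513370697169996775413218960998399999999)), (.negSucc (nat_lit 434839182566158716385918913504870399999999)), (.negSucc (nat_lit 448513370697169996775413218960998399999999)), (.negSucc (nat_lit 434839182566158716385918913504870399999999)), (.ofNat (nat_lit 0))⟩]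
  es := [
    ⟨nat_lit 1, nat_lit 4, (.negSucc (nat_lit 549755813887999)), (.negSucc (nat_lit 274877906943999)), (.negSucc (nat_lit 549755813887967)), (.negSucc (nat_lit 274877906944031)), (.ofNat (nat_lit 1159724988126230453933498913616035840000000)), (.ofNat (nat_lit 17092735163764100486867881820160000000)), (.ofNat (nat_lit 9396830531527170028794269425968659646382080000000000))⟩,
    ⟨nat_lit 1, nat_lit 10, (.negSucc (nat_lit 549755813887999)), (.ofNat (nat_lit 439804651110400)), (.negSucc (nat_lit 549755813887967)), (.ofNat (nat_lit 439804651110368)), (.ofNat (nat_lit 308618829345740703235114532864000000000)), (.ofNat (nat_lit 4747981989934472357463300505600000000)), (.ofNat (nat_lit 2610230703201991674665074840546849901772800000000000))⟩,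
    ⟨nat_lit 3, nat_lit 5, (.ofNat (nat_lit 0)), (.ofNat (nat_lit 824633720832000)), (.ofNat (nat_lit 32)), (.ofNat (nat_lit 824633720831968)), (.negSucc (nat_lit 651216117004248464449179429466275839999999)), (.negSucc (nat_lit 5697578387921366828955960606719999999)), (.ofNat (nat_lit 1761905724661344380398925517369123683696640000000000))⟩,
    ⟨nat_lit 3, nat_lit 0, (.ofNat (nat_lit 0)), (.ofNat (nat_lit 288621802291200)), (.ofNat (nat_lit 32)), (.ofNat (nat_lit 288621802291168)), (.negSucc (nat_lit 434839182566158716385918913504870399999999)), (.ofNat (nat_lit 0)), (.ofNat (nat_lit 1761905724661344380398925517369123683696640000000000))⟩,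
    ⟨nat_lit 4, nat_lit 12, (.negSucc (nat_lit 274877906943999)), (.ofNat (nat_lit 288621802291200)), (.negSucc (nat_lit 274877906943967)), (.ofNat (nat_lit 288621802291168)), (.negSucc (nat_lit 448513370697169996775413218960998399999999)), (.ofNat (nat_lit 0)), (.ofNat (nat_lit 4698415265763585014397134712984329823191040000000000))⟩,
    ⟨nat_lit 5, nat_lit 2, (.ofNat (nat_lit 824633720832000)), (.ofNat (nat_lit 1099511627776000)), (.ofNat (nat_lit 824633720832032)), (.ofNat (nat_lit 1099511627775968)), (.ofNat (nat_lit 1160682181295401243560763514997964800000000)), (.ofNat (nat_lit 17092735163764100486867881820160000000)), (.negSucc (nat_lit 17031755338392995677189613334568195609067519999999999))⟩,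
    ⟨nat_lit 7, nat_lit 8, (.ofNat (nat_lit 1388133430067200)), (.ofNat (nat_lit 1429365116108800)), (.ofNat (nat_lit 1388133430067232)), (.ofNat (nat_lit 1429365116108768)), (.ofNat (nat_lit 2198809451466613886630684317345382400000000)), (.ofNat (nat_lit 0)), (.ofNat (nat_lit 0))⟩,
    ⟨nat_lit 8, nat_lit 9, (.ofNat (nat_lit 1429365116108800)), (.ofNat (nat_lit 1649267441664000)), (.ofNat (nat_lit 1429365116108832)), (.ofNat (nat_lit 1649267441663968)), (.ofNat (nat_lit 3840048540411504139098336183504076800000000)), (.negSucc (nat_lit 5341479738676281402146213068799999999)), (.ofNat (nat_lit 7634924806865825648395343908599535962685440000000000))⟩,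
    ⟨nat_lit 9, nat_lit 6, (.ofNat (nat_lit 1649267441664000)), (.ofNat (nat_lit 2199023255552000)), (.ofNat (nat_lit 1649267441664032)), (.ofNat (nat_lit 2199023255551968)), (.ofNat (nat_lit 1510042731899471163924417010005442560000000)), (.ofNat (nat_lit 2136591895470512560858485227520000000)), (.negSucc (nat_lit 4698415265763585014397134712984329823191039999999999))⟩,
    ⟨nat_lit 7, nat_lit 6, (.ofNat (nat_lit 1388133430067200)), (.ofNat (nat_lit 2199023255552000)), (.ofNat (nat_lit 1388133430067232)), (.ofNat (nat_lit 2199023255551968)), (.ofNat (nat_lit 2176930750456995838007493428615577600000000)), (.ofNat (nat_lit 0)), (.ofNat (nat_lit 0))⟩,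
    ⟨nat_lit 0, nat_lit 11, (.ofNat (nat_lit 288621802291200)), (.ofNat (nat_lit 494780232499200)), (.ofNat (nat_lit 288621802291232)), (.ofNat (nat_lit 494780232499168)), (.negSucc (nat_lit 448513370697169996775413218960998399999999)), (.ofNat (nat_lit 0)), (.ofNat (nat_lit 1761905724661344380398925517369123683696640000000000))⟩,
    ⟨nat_lit 11, nat_lit 2, (.ofNat (nat_lit 494780232499200)), (.ofNat (nat_lit 1099511627776000)), (.ofNat (nat_lit 494780232499232)), (.ofNat (nat_lit 1099511627775968)), (.ofNat (nat_lit 0)), (.ofNat (nat_lit 0)), (.ofNat (nat_lit 1761905724661344380398925517369123683696640000000000))⟩,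
    ⟨nat_lit 12, nat_lit 10, (.ofNat (nat_lit 288621802291200)), (.ofNat (nat_lit 439804651110400)), (.ofNat (nat_lit 288621802291232)), (.ofNat (nat_lit 439804651110368)), (.negSucc (nat_lit 434839182566158716385918913504870399999999)), (.ofNat (nat_lit 0)), (.ofNat (nat_lit 4698415265763585014397134712984329823191040000000000))⟩]

theorem ok260 : stOK 12 12 S260 = true := by decide +kernel

def S261 : SD where
  vs := [
    ⟨nat_lit 0, nat_lit 3, nat_lit 10, (.ofNat (nat_lit 16)), (.ofNat (nat_lit 288621802291200)), (.ofNat (nat_lit 66157680601408130370741052692028141887470891433984000000)), (.ofNat (nat_lit 0)), (.ofNat (nat_lit 1761905724661344380398925517369123683696640000000000)), (.ofNat (nat_lit 288621802291168)), (.ofNat (nat_lit 288621802291232)), (.negSucc (nat_lit 434839182566158716385918913504870399999999)), (.negSucc (nat_lit 448513370697169996775413218960998399999999)), (.negSucc (nat_lit 448513370697169996775413218960998399999999)), (.negSucc (nat_lit 434839182566158716385918913504870399999999)), (.ofNat (nat_lit 0))⟩,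
    ⟨nat_lit 2, nat_lit 0, nat_lit 1, (.ofNat (nat_lit 16)), (.negSucc (nat_lit 549755813887999)), (.ofNat (nat_lit 120279437284502097135725017355140140065026473984000000)), (.ofNat (nat_lit 0)), (.ofNat (nat_lit 0)), (.negSucc (nat_lit 549755813888031)), (.negSucc (nat_lit 549755813887967)), (.ofNat (nat_lit 1159673709920739161632038309970575360000000)), (.ofNat (nat_lit 294374883375937286162724631347200000000)), (.ofNat (nat_lit 294374883375937286162724631347200000000)), (.ofNat (nat_lit 1159673709920739161632038309970575360000000)), (.ofNat (nat_lit 58874976675187457232544926269440000000))⟩,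
    ⟨nat_lit 1, nat_lit 5, nat_lit 11, (.ofNat (nat_lit 16)), (.ofNat (nat_lit 1099511627776000)), (.negSucc (nat_lit 26307131828819222712594558459503469032928775766015999999)), (.ofNat (nat_lit 0)), (.ofNat (nat_lit 1761905724661344380398925517369123683696640000000000)), (.ofNat (nat_lit 1099511627775968)), (.ofNat (nat_lit 1099511627776032)), (.ofNat (nat_lit 1160630903089909951259302911352504320000000)), (.ofNat (nat_lit 0)), (.ofNat (nat_lit 0)), (.ofNat (nat_lit 1160630903089909951259302911352504320000000)), (.ofNat (nat_lit 68370940655056401947471527280640000000))⟩,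
    ⟨nat_lit 2, nat_lit 3, nat_lit 2, (.ofNat (nat_lit 16)), (.ofNat (nat_lit 0)), (.ofNat (nat_lit 191661749180485013275317315145265560124549951913984000000)), (.ofNat (nat_lit 0)), (.ofNat (nat_lit 1761905724661344380398925517369123683696640000000000)), (.negSucc (nat_lit 31)), (.ofNat (nat_lit 32)), (.negSucc (nat_lit 434839182566158716385918913504870399999999)), (.negSucc (nat_lit 651199024269084700348692561584455679999999)), (.negSucc (nat_lit 651199024269084700348692561584455679999999)), (.negSucc (nat_lit 434839182566158716385918913504870399999999)), (.ofNat (nat_lit 11395156775842733657911921213440000000))⟩,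
    ⟨nat_lit 0, nat_lit 0, nat_lit 4, (.ofNat (nat_lit 16)), (.negSucc (nat_lit 274877906943999)), (.ofNat (nat_lit 318888961558280690983923726754489981324284326313984000000)), (.ofNat (nat_lit 0)), (.ofNat (nat_lit 4698415265763585014397134712984329823191040000000000)), (.negSucc (nat_lit 274877906944031)), (.negSucc (nat_lit 274877906943967)), (.ofNat (nat_lit 1159673709920739161632038309970575360000000)), (.negSucc (nat_lit 448513370697169996775413218960998399999999)), (.negSucc (nat_lit 448513370697169996775413218960998399999999)), (.ofNat (nat_lit 1159673709920739161632038309970575360000000)), (.ofNat (nat_lit 68370940655056401947471527280640000000))⟩,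
    ⟨nat_lit 0, nat_lit 2, nat_lit 5, (.ofNat (nat_lit 16)), (.ofNat (nat_lit 824633720832000)), (.negSucc (nat_lit 345338925204698172360188799740565432687246773846015999999)), (.ofNat (nat_lit 0)), (.negSucc (nat_lit 2936509541102240633998209195615206139494399999999999)), (.ofNat (nat_lit 824633720831968)), (.ofNat (nat_lit 824633720832032)), (.negSucc (nat_lit 651199024269084700348692561584455679999999)), (.ofNat (nat_lit 1160630903089909951259302911352504320000000)), (.negSucc (nat_lit 651199024269084700348692561584455679999999)), (.ofNat (nat_lit 1160630903089909951259302911352504320000000)), (.ofNat (nat_lit 56975783879213668289559606067200000000))⟩,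
    ⟨nat_lit 1, nat_lit 9, nat_lit 8, (.ofNat (nat_lit 16)), (.ofNat (nat_lit 2199023255552000)), (.ofNat (nat_lit 5283394277483120579086425767073974339721925685673984000000)), (.ofNat (nat_lit 0)), (.ofNat (nat_lit 0)), (.ofNat (nat_lit 2199023255551968)), (.ofNat (nat_lit 2199023255552032)), (.ofNat (nat_lit 2176930750456995838007493428615577600000000)), (.ofNat (nat_lit 1510036322123784752386734434549760000000000)), (.ofNat (nat_lit 1510036322123784752386734434549760000000000)), (.ofNat (nat_lit 2176930750456995838007493428615577600000000)), (.ofNat (nat_lit 4273183790941025121716970455040000000))⟩,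
    ⟨nat_lit 2, nat_lit 9, nat_lit 6, (.ofNat (nat_lit 16)), (.ofNat (nat_lit 1388133430067200)), (.ofNat (nat_lit 3518143281152552526157249489789205813191173665193984000000)), (.ofNat (nat_lit 0)), (.ofNat (nat_lit 0)), (.ofNat (nat_lit 1388133430067168)), (.ofNat (nat_lit 1388133430067232)), (.ofNat (nat_lit 2176930750456995838007493428615577600000000)), (.ofNat (nat_lit 2198809451466613886630684317345382400000000)), (.ofNat (nat_lit 2176930750456995838007493428615577600000000)), (.ofNat (nat_lit 2198809451466613886630684317345382400000000)), (.ofNat (nat_lit 0))⟩,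
    ⟨nat_lit 0, nat_lit 6, nat_lit 7, (.ofNat (nat_lit 16)), (.ofNat (nat_lit 1429365116108800)), (.ofNat (nat_lit 3608803902120726662595056601210951441459467973033984000000)), (.ofNat (nat_lit 0)), (.ofNat (nat_lit 0)), (.ofNat (nat_lit 1429365116108768)), (.ofNat (nat_lit 1429365116108832)), (.ofNat (nat_lit 2198809451466613886630684317345382400000000)), (.ofNat (nat_lit 3840064564850720167942542622143283200000000)), (.ofNat (nat_lit 2198809451466613886630684317345382400000000)), (.ofNat (nat_lit 3840064564850720167942542622143283200000000)), (.ofNat (nat_lit 10682959477352562804292426137600000000))⟩,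
    ⟨nat_lit 0, nat_lit 7, nat_lit 8, (.ofNat (nat_lit 16)), (.ofNat (nat_lit 1649267441664000)), (.ofNat (nat_lit 4453243030213517151855132027473555564086858805673984000000)), (.ofNat (nat_lit 0)), (.negSucc (nat_lit 1174603816440896253599283678246082455797759999999999)), (.ofNat (nat_lit 1649267441663968)), (.ofNat (nat_lit 1649267441664032)), (.ofNat (nat_lit 3840064564850720167942542622143283200000000)), (.ofNat (nat_lit 1510036322123784752386734434549760000000000)), (.ofNat (nat_lit 1510036322123784752386734434549760000000000)), (.ofNat (nat_lit 3840064564850720167942542622143283200000000)), (.ofNat (nat_lit 25639102745646150730301822730240000000))⟩,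
    ⟨nat_lit 1, nat_lit 1, nat_lit 12, (.ofNat (nat_lit 16)), (.ofNat (nat_lit 439804651110400)), (.ofNat (nat_lit 411581183761844368028347369560168589102870953984000000)), (.ofNat (nat_lit 0)), (.ofNat (nat_lit 4698415265763585014397134712984329823191040000000000)), (.ofNat (nat_lit 439804651110368)), (.ofNat (nat_lit 439804651110432)), (.ofNat (nat_lit 294374883375937286162724631347200000000)), (.negSucc (nat_lit 434839182566158716385918913504870399999999)), (.negSucc (nat_lit 434839182566158716385918913504870399999999)), (.ofNat (nat_lit 294374883375937286162724631347200000000)), (.ofNat (nat_lit 18991927959737889429853202022400000000))⟩,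
    ⟨nat_lit 0, nat_lit 10, nat_lit 11, (.ofNat (nat_lit 16)), (.ofNat (nat_lit 494780232499200)), (.negSucc (nat_lit 26307131828819222712594558459503469032928775766015999999)), (.ofNat (nat_lit 0)), (.ofNat (nat_lit 1761905724661344380398925517369123683696640000000000)), (.ofNat (nat_lit 494780232499168)), (.ofNat (nat_lit 494780232499232)), (.negSucc (nat_lit 448513370697169996775413218960998399999999)), (.ofNat (nat_lit 0)), (.negSucc (nat_lit 448513370697169996775413218960998399999999)), (.ofNat (nat_lit 0)), (.ofNat (nat_lit 0))⟩,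
    ⟨nat_lit 0, nat_lit 4, nat_lit 12, (.ofNat (nat_lit 16)), (.ofNat (nat_lit 288621802291200)), (.ofNat (nat_lit 66151807582325925889473056273636911475191902633984000000)), (.ofNat (nat_lit 0)), (.ofNat (nat_lit 4698415265763585014397134712984329823191040000000000)), (.ofNat (nat_lit 288621802291168)), (.ofNat (nat_lit 288621802291232)), (.negSucc (nat_lit 448513370697169996775413218960998399999999)), (.negSucc (nat_lit 434839182566158716385918913504870399999999)), (.negSucc (nat_lit 448513370697169996775413218960998399999999)), (.negSucc (nat_lit 434839182566158716385918913504870399999999)), (.ofNat (nat_lit 0))⟩]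
  es := [
    ⟨nat_lit 1, nat_lit 4, (.negSucc (nat_lit 549755813887999)), (.negSucc (nat_lit 274877906943999)), (.negSucc (nat_lit 549755813887967)), (.negSucc (nat_lit 274877906944031)), (.ofNat (nat_lit 1159673709920739161632038309970575360000000)), (.ofNat (nat_lit 17092735163764100486867881820160000000)), (.ofNat (nat_lit 9396830531527170028794269425968659646382080000000000))⟩,
    ⟨nat_lit 1, nat_lit 10, (.negSucc (nat_lit 549755813887999)), (.ofNat (nat_lit 439804651110400)), (.negSucc (nat_lit 549755813887967)), (.ofNat (nat_lit 439804651110368)), (.ofNat (nat_lit 294374883375937286162724631347200000000)), (.ofNat (nat_lit 4747981989934472357463300505600000000)), (.ofNat (nat_lit 2610230703201991674665074840546849901772800000000000))⟩,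
    ⟨nat_lit 3, nat_lit 5, (.ofNat (nat_lit 0)), (.ofNat (nat_lit 824633720832000)), (.ofNat (nat_lit 32)), (.ofNat (nat_lit 824633720831968)), (.negSucc (nat_lit 651199024269084700348692561584455679999999)), (.negSucc (nat_lit 5697578387921366828955960606719999999)), (.ofNat (nat_lit 1761905724661344380398925517369123683696640000000000))⟩,
    ⟨nat_lit 3, nat_lit 0, (.ofNat (nat_lit 0)), (.ofNat (nat_lit 288621802291200)), (.ofNat (nat_lit 32)), (.ofNat (nat_lit 288621802291168)), (.negSucc (nat_lit 434839182566158716385918913504870399999999)), (.ofNat (nat_lit 0)), (.ofNat (nat_lit 1761905724661344380398925517369123683696640000000000))⟩,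
    ⟨nat_lit 4, nat_lit 12, (.negSucc (nat_lit 274877906943999)), (.ofNat (nat_lit 288621802291200)), (.negSucc (nat_lit 274877906943967)), (.ofNat (nat_lit 288621802291168)), (.negSucc (nat_lit 448513370697169996775413218960998399999999)), (.ofNat (nat_lit 0)), (.ofNat (nat_lit 4698415265763585014397134712984329823191040000000000))⟩,
    ⟨nat_lit 5, nat_lit 2, (.ofNat (nat_lit 824633720832000)), (.ofNat (nat_lit 1099511627776000)), (.ofNat (nat_lit 824633720832032)), (.ofNat (nat_lit 1099511627775968)), (.ofNat (nat_lit 1160630903089909951259302911352504320000000)), (.ofNat (nat_lit 17092735163764100486867881820160000000)), (.negSucc (nat_lit 17031755338392995677189613334568195609067519999999999))⟩,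
    ⟨nat_lit 7, nat_lit 8, (.ofNat (nat_lit 1388133430067200)), (.ofNat (nat_lit 1429365116108800)), (.ofNat (nat_lit 1388133430067232)), (.ofNat (nat_lit 1429365116108768)), (.ofNat (nat_lit 2198809451466613886630684317345382400000000)), (.ofNat (nat_lit 0)), (.ofNat (nat_lit 0))⟩,
    ⟨nat_lit 8, nat_lit 9, (.ofNat (nat_lit 1429365116108800)), (.ofNat (nat_lit 1649267441664000)), (.ofNat (nat_lit 1429365116108832)), (.ofNat (nat_lit 1649267441663968)), (.ofNat (nat_lit 3840064564850720167942542622143283200000000)), (.negSucc (nat_lit 5341479738676281402146213068799999999)), (.ofNat (nat_lit 7634924806865825648395343908599535962685440000000000))⟩,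
    ⟨nat_lit 9, nat_lit 6, (.ofNat (nat_lit 1649267441664000)), (.ofNat (nat_lit 2199023255552000)), (.ofNat (nat_lit 1649267441664032)), (.ofNat (nat_lit 2199023255551968)), (.ofNat (nat_lit 1510036322123784752386734434549760000000000)), (.ofNat (nat_lit 2136591895470512560858485227520000000)), (.negSucc (nat_lit 4698415265763585014397134712984329823191039999999999))⟩,
    ⟨nat_lit 7, nat_lit 6, (.ofNat (nat_lit 1388133430067200)), (.ofNat (nat_lit 2199023255552000)), (.ofNat (nat_lit 1388133430067232)), (.ofNat (nat_lit 2199023255551968)), (.ofNat (nat_lit 2176930750456995838007493428615577600000000)), (.ofNat (nat_lit 0)), (.ofNat (nat_lit 0))⟩,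
    ⟨nat_lit 0, nat_lit 11, (.ofNat (nat_lit 288621802291200)), (.ofNat (nat_lit 494780232499200)), (.ofNat (nat_lit 288621802291232)), (.ofNat (nat_lit 494780232499168)), (.negSucc (nat_lit 448513370697169996775413218960998399999999)), (.ofNat (nat_lit 0)), (.ofNat (nat_lit 1761905724661344380398925517369123683696640000000000))⟩,
    ⟨nat_lit 11, nat_lit 2, (.ofNat (nat_lit 494780232499200)), (.ofNat (nat_lit 1099511627776000)), (.ofNat (nat_lit 494780232499232)), (.ofNat (nat_lit 1099511627775968)), (.ofNat (nat_lit 0)), (.ofNat (nat_lit 0)), (.ofNat (nat_lit 1761905724661344380398925517369123683696640000000000))⟩,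
    ⟨nat_lit 12, nat_lit 10, (.ofNat (nat_lit 288621802291200)), (.ofNat (nat_lit 439804651110400)), (.ofNat (nat_lit 288621802291232)), (.ofNat (nat_lit 439804651110368)), (.negSucc (nat_lit 434839182566158716385918913504870399999999)), (.ofNat (nat_lit 0)), (.ofNat (nat_lit 4698415265763585014397134712984329823191040000000000))⟩]

theorem ok261 : stOK 12 12 S261 = true := by decide +kernel

def S262 : SD where
  vs := [
    ⟨nat_lit 0, nat_lit 3, nat_lit 10, (.ofNat (nat_lit 16)), (.ofNat (nat_lit 288621802291200)), (.ofNat (nat_lit 66164728224306775748262648394097618382205677993984000000)), (.ofNat (nat_lit 0)), (.ofNat (nat_lit 1761905724661344380398925517369123683696640000000000)), (.ofNat (nat_lit 288621802291168)), (.ofNat (nat_lit 288621802291232)), (.negSucc (nat_lit 434839182566158716385918913504870399999999)), (.negSucc (nat_lit 448513370697169996775413218960998399999999)), (.negSucc (nat_lit 448513370697169996775413218960998399999999)), (.negSucc (nat_lit 434839182566158716385918913504870399999999)), (.ofNat (nat_lit 0))⟩,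
    ⟨nat_lit 2, nat_lit 0, nat_lit 1, (.ofNat (nat_lit 16)), (.negSucc (nat_lit 549755813887999)), (.ofNat (nat_lit 120279437284502097135725017355140140065026473984000000)), (.ofNat (nat_lit 0)), (.ofNat (nat_lit 0)), (.negSucc (nat_lit 549755813888031)), (.negSucc (nat_lit 549755813887967)), (.ofNat (nat_lit 1159742080861394218033985781497856000000000)), (.ofNat (nat_lit 313366811335675175592577833369600000000)), (.ofNat (nat_lit 313366811335675175592577833369600000000)), (.ofNat (nat_lit 1159742080861394218033985781497856000000000)), (.ofNat (nat_lit 58874976675187457232544926269440000000))⟩,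
    ⟨nat_lit 1, nat_lit 5, nat_lit 11, (.ofNat (nat_lit 16)), (.ofNat (nat_lit 1099511627776000)), (.negSucc (nat_lit 26300084205920577335072962757433992538193989206015999999)), (.ofNat (nat_lit 0)), (.ofNat (nat_lit 1761905724661344380398925517369123683696640000000000)), (.ofNat (nat_lit 1099511627775968)), (.ofNat (nat_lit 1099511627776032)), (.ofNat (nat_lit 1160699274030565007661250382879784960000000)), (.ofNat (nat_lit 0)), (.ofNat (nat_lit 0)), (.ofNat (nat_lit 1160699274030565007661250382879784960000000)), (.ofNat (nat_lit 68370940655056401947471527280640000000))⟩,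
    ⟨nat_lit 2, nat_lit 3, nat_lit 2, (.ofNat (nat_lit 16)), (.ofNat (nat_lit 0)), (.ofNat (nat_lit 191668796803383658652838910847335036619284738473984000000)), (.ofNat (nat_lit 0)), (.ofNat (nat_lit 1761905724661344380398925517369123683696640000000000)), (.negSucc (nat_lit 31)), (.ofNat (nat_lit 32)), (.negSucc (nat_lit 434839182566158716385918913504870399999999)), (.negSucc (nat_lit 651221814582636385816008385426882559999999)), (.negSucc (nat_lit 651221814582636385816008385426882559999999)), (.negSucc (nat_lit 434839182566158716385918913504870399999999)), (.ofNat (nat_lit 11395156775842733657911921213440000000))⟩,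
    ⟨nat_lit 0, nat_lit 0, nat_lit 4, (.ofNat (nat_lit 16)), (.negSucc (nat_lit 274877906943999)), (.ofNat (nat_lit 318907755219343745323981315293341918643577090473984000000)), (.ofNat (nat_lit 0)), (.ofNat (nat_lit 4698415265763585014397134712984329823191040000000000)), (.negSucc (nat_lit 274877906944031)), (.negSucc (nat_lit 274877906943967)), (.ofNat (nat_lit 1159742080861394218033985781497856000000000)), (.negSucc (nat_lit 448513370697169996775413218960998399999999)), (.negSucc (nat_lit 448513370697169996775413218960998399999999)), (.ofNat (nat_lit 1159742080861394218033985781497856000000000)), (.ofNat (nat_lit 68370940655056401947471527280640000000))⟩,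
    ⟨nat_lit 0, nat_lit 2, nat_lit 5, (.ofNat (nat_lit 16)), (.ofNat (nat_lit 824633720832000)), (.negSucc (nat_lit 345350671242862581322724792577347893511804751446015999999)), (.ofNat (nat_lit 0)), (.negSucc (nat_lit 2936509541102240633998209195615206139494399999999999)), (.ofNat (nat_lit 824633720831968)), (.ofNat (nat_lit 824633720832032)), (.negSucc (nat_lit 651221814582636385816008385426882559999999)), (.ofNat (nat_lit 1160699274030565007661250382879784960000000)), (.negSucc (nat_lit 651221814582636385816008385426882559999999)), (.ofNat (nat_lit 1160699274030565007661250382879784960000000)), (.ofNat (nat_lit 56975783879213668289559606067200000000))⟩,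
    ⟨nat_lit 1, nat_lit 9, nat_lit 8, (.ofNat (nat_lit 16)), (.ofNat (nat_lit 2199023255552000)), (.ofNat (nat_lit 5283394277483120579086425767073974339721925685673984000000)), (.ofNat (nat_lit 0)), (.ofNat (nat_lit 0)), (.ofNat (nat_lit 2199023255551968)), (.ofNat (nat_lit 2199023255552032)), (.ofNat (nat_lit 2176930750456995838007493428615577600000000)), (.ofNat (nat_lit 1510044868491366634436977868490670080000000)), (.ofNat (nat_lit 1510044868491366634436977868490670080000000)), (.ofNat (nat_lit 2176930750456995838007493428615577600000000)), (.ofNat (nat_lit 4273183790941025121716970455040000000))⟩,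
    ⟨nat_lit 2, nat_lit 9, nat_lit 6, (.ofNat (nat_lit 16)), (.ofNat (nat_lit 1388133430067200)), (.ofNat (nat_lit 3518143281152552526157249489789205813191173665193984000000)), (.ofNat (nat_lit 0)), (.ofNat (nat_lit 0)), (.ofNat (nat_lit 1388133430067168)), (.ofNat (nat_lit 1388133430067232)), (.ofNat (nat_lit 2176930750456995838007493428615577600000000)), (.ofNat (nat_lit 2198809451466613886630684317345382400000000)), (.ofNat (nat_lit 2176930750456995838007493428615577600000000)), (.ofNat (nat_lit 2198809451466613886630684317345382400000000)), (.ofNat (nat_lit 0))⟩,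
    ⟨nat_lit 0, nat_lit 6, nat_lit 7, (.ofNat (nat_lit 16)), (.ofNat (nat_lit 1429365116108800)), (.ofNat (nat_lit 3608803902120726662595056601210951441459467973033984000000)), (.ofNat (nat_lit 0)), (.ofNat (nat_lit 0)), (.ofNat (nat_lit 1429365116108768)), (.ofNat (nat_lit 1429365116108832)), (.ofNat (nat_lit 2198809451466613886630684317345382400000000)), (.ofNat (nat_lit 3840043198931765462816934037291008000000000)), (.ofNat (nat_lit 2198809451466613886630684317345382400000000)), (.ofNat (nat_lit 3840043198931765462816934037291008000000000)), (.ofNat (nat_lit 10682959477352562804292426137600000000))⟩,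
    ⟨nat_lit 0, nat_lit 7, nat_lit 8, (.ofNat (nat_lit 16)), (.ofNat (nat_lit 1649267441664000)), (.ofNat (nat_lit 4453238331798251388270117630338842579757035614633984000000)), (.ofNat (nat_lit 0)), (.negSucc (nat_lit 1174603816440896253599283678246082455797759999999999)), (.ofNat (nat_lit 1649267441663968)), (.ofNat (nat_lit 1649267441664032)), (.ofNat (nat_lit 3840043198931765462816934037291008000000000)), (.ofNat (nat_lit 1510044868491366634436977868490670080000000)), (.ofNat (nat_lit 1510044868491366634436977868490670080000000)), (.ofNat (nat_lit 3840043198931765462816934037291008000000000)), (.ofNat (nat_lit 25639102745646150730301822730240000000))⟩,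
    ⟨nat_lit 1, nat_lit 1, nat_lit 12, (.ofNat (nat_lit 16)), (.ofNat (nat_lit 439804651110400)), (.ofNat (nat_lit 430374844824898708085935908412105908395635113984000000)), (.ofNat (nat_lit 0)), (.ofNat (nat_lit 4698415265763585014397134712984329823191040000000000)), (.ofNat (nat_lit 439804651110368)), (.ofNat (nat_lit 439804651110432)), (.ofNat (nat_lit 313366811335675175592577833369600000000)), (.negSucc (nat_lit 434839182566158716385918913504870399999999)), (.negSucc (nat_lit 434839182566158716385918913504870399999999)), (.ofNat (nat_lit 313366811335675175592577833369600000000)), (.ofNat (nat_lit 18991927959737889429853202022400000000))⟩,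
    ⟨nat_lit 0, nat_lit 10, nat_lit 11, (.ofNat (nat_lit 16)), (.ofNat (nat_lit 494780232499200)), (.negSucc (nat_lit 26300084205920577335072962757433992538193989206015999999)), (.ofNat (nat_lit 0)), (.ofNat (nat_lit 1761905724661344380398925517369123683696640000000000)), (.ofNat (nat_lit 494780232499168)), (.ofNat (nat_lit 494780232499232)), (.negSucc (nat_lit 448513370697169996775413218960998399999999)), (.ofNat (nat_lit 0)), (.negSucc (nat_lit 448513370697169996775413218960998399999999)), (.ofNat (nat_lit 0)), (.ofNat (nat_lit 0))⟩,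
    ⟨nat_lit 0, nat_lit 4, nat_lit 12, (.ofNat (nat_lit 16)), (.ofNat (nat_lit 288621802291200)), (.ofNat (nat_lit 66170601243388980229530644812488848794484666793984000000)), (.ofNat (nat_lit 0)), (.ofNat (nat_lit 4698415265763585014397134712984329823191040000000000)), (.ofNat (nat_lit 288621802291168)), (.ofNat (nat_lit 288621802291232)), (.negSucc (nat_lit 448513370697169996775413218960998399999999)), (.negSucc (nat_lit 434839182566158716385918913504870399999999)), (.negSucc (nat_lit 448513370697169996775413218960998399999999)), (.negSucc (nat_lit 434839182566158716385918913504870399999999)), (.ofNat (nat_lit 0))⟩]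
  es := [
    ⟨nat_lit 1, nat_lit 4, (.negSucc (nat_lit 549755813887999)), (.negSucc (nat_lit 274877906943999)), (.negSucc (nat_lit 549755813887967)), (.negSucc (nat_lit 274877906944031)), (.ofNat (nat_lit 1159742080861394218033985781497856000000000)), (.ofNat (nat_lit 17092735163764100486867881820160000000)), (.ofNat (nat_lit 9396830531527170028794269425968659646382080000000000))⟩,
    ⟨nat_lit 1, nat_lit 10, (.negSucc (nat_lit 549755813887999)), (.ofNat (nat_lit 439804651110400)), (.negSucc (nat_lit 549755813887967)), (.ofNat (nat_lit 439804651110368)), (.ofNat (nat_lit 313366811335675175592577833369600000000)), (.ofNat (nat_lit 4747981989934472357463300505600000000)), (.ofNat (nat_lit 2610230703201991674665074840546849901772800000000000))⟩,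
    ⟨nat_lit 3, nat_lit 5, (.ofNat (nat_lit 0)), (.ofNat (nat_lit 824633720832000)), (.ofNat (nat_lit 32)), (.ofNat (nat_lit 824633720831968)), (.negSucc (nat_lit 651221814582636385816008385426882559999999)), (.negSucc (nat_lit 5697578387921366828955960606719999999)), (.ofNat (nat_lit 1761905724661344380398925517369123683696640000000000))⟩,
    ⟨nat_lit 3, nat_lit 0, (.ofNat (nat_lit 0)), (.ofNat (nat_lit 288621802291200)), (.ofNat (nat_lit 32)), (.ofNat (nat_lit 288621802291168)), (.negSucc (nat_lit 434839182566158716385918913504870399999999)), (.ofNat (nat_lit 0)), (.ofNat (nat_lit 1761905724661344380398925517369123683696640000000000))⟩,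
    ⟨nat_lit 4, nat_lit 12, (.negSucc (nat_lit 274877906943999)), (.ofNat (nat_lit 288621802291200)), (.negSucc (nat_lit 274877906943967)), (.ofNat (nat_lit 288621802291168)), (.negSucc (nat_lit 448513370697169996775413218960998399999999)), (.ofNat (nat_lit 0)), (.ofNat (nat_lit 4698415265763585014397134712984329823191040000000000))⟩,
    ⟨nat_lit 5, nat_lit 2, (.ofNat (nat_lit 824633720832000)), (.ofNat (nat_lit 1099511627776000)), (.ofNat (nat_lit 824633720832032)), (.ofNat (nat_lit 1099511627775968)), (.ofNat (nat_lit 1160699274030565007661250382879784960000000)), (.ofNat (nat_lit 17092735163764100486867881820160000000)), (.negSucc (nat_lit 17031755338392995677189613334568195609067519999999999))⟩,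
    ⟨nat_lit 7, nat_lit 8, (.ofNat (nat_lit 1388133430067200)), (.ofNat (nat_lit 1429365116108800)), (.ofNat (nat_lit 1388133430067232)), (.ofNat (nat_lit 1429365116108768)), (.ofNat (nat_lit 2198809451466613886630684317345382400000000)), (.ofNat (nat_lit 0)), (.ofNat (nat_lit 0))⟩,
    ⟨nat_lit 8, nat_lit 9, (.ofNat (nat_lit 1429365116108800)), (.ofNat (nat_lit 1649267441664000)), (.ofNat (nat_lit 1429365116108832)), (.ofNat (nat_lit 1649267441663968)), (.ofNat (nat_lit 3840043198931765462816934037291008000000000)), (.negSucc (nat_lit 5341479738676281402146213068799999999)), (.ofNat (nat_lit 7634924806865825648395343908599535962685440000000000))⟩,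
    ⟨nat_lit 9, nat_lit 6, (.ofNat (nat_lit 1649267441664000)), (.ofNat (nat_lit 2199023255552000)), (.ofNat (nat_lit 1649267441664032)), (.ofNat (nat_lit 2199023255551968)), (.ofNat (nat_lit 1510044868491366634436977868490670080000000)), (.ofNat (nat_lit 2136591895470512560858485227520000000)), (.negSucc (nat_lit 4698415265763585014397134712984329823191039999999999))⟩,
    ⟨nat_lit 7, nat_lit 6, (.ofNat (nat_lit 1388133430067200)), (.ofNat (nat_lit 2199023255552000)), (.ofNat (nat_lit 1388133430067232)), (.ofNat (nat_lit 2199023255551968)), (.ofNat (nat_lit 2176930750456995838007493428615577600000000)), (.ofNat (nat_lit 0)), (.ofNat (nat_lit 0))⟩,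
    ⟨nat_lit 0, nat_lit 11, (.ofNat (nat_lit 288621802291200)), (.ofNat (nat_lit 494780232499200)), (.ofNat (nat_lit 288621802291232)), (.ofNat (nat_lit 494780232499168)), (.negSucc (nat_lit 448513370697169996775413218960998399999999)), (.ofNat (nat_lit 0)), (.ofNat (nat_lit 1761905724661344380398925517369123683696640000000000))⟩,
    ⟨nat_lit 11, nat_lit 2, (.ofNat (nat_lit 494780232499200)), (.ofNat (nat_lit 1099511627776000)), (.ofNat (nat_lit 494780232499232)), (.ofNat (nat_lit 1099511627775968)), (.ofNat (nat_lit 0)), (.ofNat (nat_lit 0)), (.ofNat (nat_lit 1761905724661344380398925517369123683696640000000000))⟩,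
    ⟨nat_lit 12, nat_lit 10, (.ofNat (nat_lit 288621802291200)), (.ofNat (nat_lit 439804651110400)), (.ofNat (nat_lit 288621802291232)), (.ofNat (nat_lit 439804651110368)), (.negSucc (nat_lit 434839182566158716385918913504870399999999)), (.ofNat (nat_lit 0)), (.ofNat (nat_lit 4698415265763585014397134712984329823191040000000000))⟩]

theorem ok262 : stOK 12 12 S262 = true := by decide +kernel

def S263 : SD where
  vs := [
    ⟨nat_lit 0, nat_lit 3, nat_lit 10, (.ofNat (nat_lit 16)), (.ofNat (nat_lit 288621802291200)), (.ofNat (nat_lit 66273966379235779099847381776174504050594869673984000000)), (.ofNat (nat_lit 0)), (.ofNat (nat_lit 1761905724661344380398925517369123683696640000000000)), (.ofNat (nat_lit 288621802291168)), (.ofNat (nat_lit 288621802291232)), (.negSucc (nat_lit 434839182566158716385918913504870399999999)), (.negSucc (nat_lit 448513370697169996775413218960998399999999)), (.negSucc (nat_lit 448513370697169996775413218960998399999999)), (.negSucc (nat_lit 434839182566158716385918913504870399999999)), (.ofNat (nat_lit 0))⟩,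
    ⟨nat_lit 2, nat_lit 0, nat_lit 1, (.ofNat (nat_lit 16)), (.negSucc (nat_lit 549755813887999)), (.ofNat (nat_lit 120279437284502097135725017355140140065026473984000000)), (.ofNat (nat_lit 0)), (.ofNat (nat_lit 0)), (.negSucc (nat_lit 549755813888031)), (.negSucc (nat_lit 549755813887967)), (.ofNat (nat_lit 1160801830441547592264171590170705920000000)), (.ofNat (nat_lit 607741694711612461755302464716800000000)), (.ofNat (nat_lit 607741694711612461755302464716800000000)), (.ofNat (nat_lit 1160801830441547592264171590170705920000000)), (.ofNat (nat_lit 58874976675187457232544926269440000000))⟩,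
    ⟨nat_lit 1, nat_lit 5, nat_lit 11, (.ofNat (nat_lit 16)), (.ofNat (nat_lit 1099511627776000)), (.negSucc (nat_lit 26190846050991573983488229375357106869804797526015999999)), (.ofNat (nat_lit 0)), (.ofNat (nat_lit 1761905724661344380398925517369123683696640000000000)), (.ofNat (nat_lit 1099511627775968)), (.ofNat (nat_lit 1099511627776032)), (.ofNat (nat_lit 1161759023610718381891436191552634880000000)), (.ofNat (nat_lit 0)), (.ofNat (nat_lit 0)), (.ofNat (nat_lit 1161759023610718381891436191552634880000000)), (.ofNat (nat_lit 68370940655056401947471527280640000000))⟩,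
    ⟨nat_lit 2, nat_lit 3, nat_lit 2, (.ofNat (nat_lit 16)), (.ofNat (nat_lit 0)), (.ofNat (nat_lit 191778034958312662004423644229411922287673930153984000000)), (.ofNat (nat_lit 0)), (.ofNat (nat_lit 1761905724661344380398925517369123683696640000000000)), (.negSucc (nat_lit 31)), (.ofNat (nat_lit 32)), (.negSucc (nat_lit 434839182566158716385918913504870399999999)), (.negSucc (nat_lit 651575064442687510559403654984499199999999)), (.negSucc (nat_lit 651575064442687510559403654984499199999999)), (.negSucc (nat_lit 434839182566158716385918913504870399999999)), (.ofNat (nat_lit 11395156775842733657911921213440000000))⟩,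
    ⟨nat_lit 0, nat_lit 0, nat_lit 4, (.ofNat (nat_lit 16)), (.negSucc (nat_lit 274877906943999)), (.ofNat (nat_lit 319199056965821087594873937645546947092614934953984000000)), (.ofNat (nat_lit 0)), (.ofNat (nat_lit 4698415265763585014397134712984329823191040000000000)), (.negSucc (nat_lit 274877906944031)), (.negSucc (nat_lit 274877906943967)), (.ofNat (nat_lit 1160801830441547592264171590170705920000000)), (.negSucc (nat_lit 448513370697169996775413218960998399999999)), (.negSucc (nat_lit 448513370697169996775413218960998399999999)), (.ofNat (nat_lit 1160801830441547592264171590170705920000000)), (.ofNat (nat_lit 68370940655056401947471527280640000000))⟩,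
    ⟨nat_lit 0, nat_lit 2, nat_lit 5, (.ofNat (nat_lit 16)), (.ofNat (nat_lit 824633720832000)), (.negSucc (nat_lit 345532734834410920242032681547476036292453404246015999999)), (.ofNat (nat_lit 0)), (.negSucc (nat_lit 2936509541102240633998209195615206139494399999999999)), (.ofNat (nat_lit 824633720831968)), (.ofNat (nat_lit 824633720832032)), (.negSucc (nat_lit 651575064442687510559403654984499199999999)), (.ofNat (nat_lit 1161759023610718381891436191552634880000000)), (.negSucc (nat_lit 651575064442687510559403654984499199999999)), (.ofNat (nat_lit 1161759023610718381891436191552634880000000)), (.ofNat (nat_lit 56975783879213668289559606067200000000))⟩,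
    ⟨nat_lit 1, nat_lit 9, nat_lit 8, (.ofNat (nat_lit 16)), (.ofNat (nat_lit 2199023255552000)), (.ofNat (nat_lit 5283394277483120579086425767073974339721925685673984000000)), (.ofNat (nat_lit 0)), (.ofNat (nat_lit 0)), (.ofNat (nat_lit 2199023255551968)), (.ofNat (nat_lit 2199023255552032)), (.ofNat (nat_lit 2176930750456995838007493428615577600000000)), (.ofNat (nat_lit 1510177337188885806215751094574776320000000)), (.ofNat (nat_lit 1510177337188885806215751094574776320000000)), (.ofNat (nat_lit 2176930750456995838007493428615577600000000)), (.ofNat (nat_lit 4273183790941025121716970455040000000))⟩,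
    ⟨nat_lit 2, nat_lit 9, nat_lit 6, (.ofNat (nat_lit 16)), (.ofNat (nat_lit 1388133430067200)), (.ofNat (nat_lit 3518143281152552526157249489789205813191173665193984000000)), (.ofNat (nat_lit 0)), (.ofNat (nat_lit 0)), (.ofNat (nat_lit 1388133430067168)), (.ofNat (nat_lit 1388133430067232)), (.ofNat (nat_lit 2176930750456995838007493428615577600000000)), (.ofNat (nat_lit 2198809451466613886630684317345382400000000)), (.ofNat (nat_lit 2176930750456995838007493428615577600000000)), (.ofNat (nat_lit 2198809451466613886630684317345382400000000)), (.ofNat (nat_lit 0))⟩,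
    ⟨nat_lit 0, nat_lit 6, nat_lit 7, (.ofNat (nat_lit 16)), (.ofNat (nat_lit 1429365116108800)), (.ofNat (nat_lit 3608803902120726662595056601210951441459467973033984000000)), (.ofNat (nat_lit 0)), (.ofNat (nat_lit 0)), (.ofNat (nat_lit 1429365116108768)), (.ofNat (nat_lit 1429365116108832)), (.ofNat (nat_lit 2198809451466613886630684317345382400000000)), (.ofNat (nat_lit 3839712027187967533370000972080742400000000)), (.ofNat (nat_lit 2198809451466613886630684317345382400000000)), (.ofNat (nat_lit 3839712027187967533370000972080742400000000)), (.ofNat (nat_lit 10682959477352562804292426137600000000))⟩,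
    ⟨nat_lit 0, nat_lit 7, nat_lit 8, (.ofNat (nat_lit 16)), (.ofNat (nat_lit 1649267441664000)), (.ofNat (nat_lit 4453165506361632052702394474750791322644776153513984000000)), (.ofNat (nat_lit 0)), (.negSucc (nat_lit 1174603816440896253599283678246082455797759999999999)), (.ofNat (nat_lit 1649267441663968)), (.ofNat (nat_lit 1649267441664032)), (.ofNat (nat_lit 3839712027187967533370000972080742400000000)), (.ofNat (nat_lit 1510177337188885806215751094574776320000000)), (.ofNat (nat_lit 1510177337188885806215751094574776320000000)), (.ofNat (nat_lit 3839712027187967533370000972080742400000000)), (.ofNat (nat_lit 25639102745646150730301822730240000000))⟩,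
    ⟨nat_lit 1, nat_lit 1, nat_lit 12, (.ofNat (nat_lit 16)), (.ofNat (nat_lit 439804651110400)), (.ofNat (nat_lit 721676591302240978978558260617134357433479593984000000)), (.ofNat (nat_lit 0)), (.ofNat (nat_lit 4698415265763585014397134712984329823191040000000000)), (.ofNat (nat_lit 439804651110368)), (.ofNat (nat_lit 439804651110432)), (.ofNat (nat_lit 607741694711612461755302464716800000000)), (.negSucc (nat_lit 434839182566158716385918913504870399999999)), (.negSucc (nat_lit 434839182566158716385918913504870399999999)), (.ofNat (nat_lit 607741694711612461755302464716800000000)), (.ofNat (nat_lit 18991927959737889429853202022400000000))⟩,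
    ⟨nat_lit 0, nat_lit 10, nat_lit 11, (.ofNat (nat_lit 16)), (.ofNat (nat_lit 494780232499200)), (.negSucc (nat_lit 26190846050991573983488229375357106869804797526015999999)), (.ofNat (nat_lit 0)), (.ofNat (nat_lit 1761905724661344380398925517369123683696640000000000)), (.ofNat (nat_lit 494780232499168)), (.ofNat (nat_lit 494780232499232)), (.negSucc (nat_lit 448513370697169996775413218960998399999999)), (.ofNat (nat_lit 0)), (.negSucc (nat_lit 448513370697169996775413218960998399999999)), (.ofNat (nat_lit 0)), (.ofNat (nat_lit 0))⟩,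
    ⟨nat_lit 0, nat_lit 4, nat_lit 12, (.ofNat (nat_lit 16)), (.ofNat (nat_lit 288621802291200)), (.ofNat (nat_lit 66461902989866322500423267164693877243522511273984000000)), (.ofNat (nat_lit 0)), (.ofNat (nat_lit 4698415265763585014397134712984329823191040000000000)), (.ofNat (nat_lit 288621802291168)), (.ofNat (nat_lit 288621802291232)), (.negSucc (nat_lit 448513370697169996775413218960998399999999)), (.negSucc (nat_lit 434839182566158716385918913504870399999999)), (.negSucc (nat_lit 448513370697169996775413218960998399999999)), (.negSucc (nat_lit 434839182566158716385918913504870399999999)), (.ofNat (nat_lit 0))⟩]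
  es := [
    ⟨nat_lit 1, nat_lit 4, (.negSucc (nat_lit 549755813887999)), (.negSucc (nat_lit 274877906943999)), (.negSucc (nat_lit 549755813887967)), (.negSucc (nat_lit 274877906944031)), (.ofNat (nat_lit 1160801830441547592264171590170705920000000)), (.ofNat (nat_lit 17092735163764100486867881820160000000)), (.ofNat (nat_lit 9396830531527170028794269425968659646382080000000000))⟩,
    ⟨nat_lit 1, nat_lit 10, (.negSucc (nat_lit 549755813887999)), (.ofNat (nat_lit 439804651110400)), (.negSucc (nat_lit 549755813887967)), (.ofNat (nat_lit 439804651110368)), (.ofNat (nat_lit 607741694711612461755302464716800000000)), (.ofNat (nat_lit 4747981989934472357463300505600000000)), (.ofNat (nat_lit 2610230703201991674665074840546849901772800000000000))⟩,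
    ⟨nat_lit 3, nat_lit 5, (.ofNat (nat_lit 0)), (.ofNat (nat_lit 824633720832000)), (.ofNat (nat_lit 32)), (.ofNat (nat_lit 824633720831968)), (.negSucc (nat_lit 651575064442687510559403654984499199999999)), (.negSucc (nat_lit 5697578387921366828955960606719999999)), (.ofNat (nat_lit 1761905724661344380398925517369123683696640000000000))⟩,
    ⟨nat_lit 3, nat_lit 0, (.ofNat (nat_lit 0)), (.ofNat (nat_lit 288621802291200)), (.ofNat (nat_lit 32)), (.ofNat (nat_lit 288621802291168)), (.negSucc (nat_lit 434839182566158716385918913504870399999999)), (.ofNat (nat_lit 0)), (.ofNat (nat_lit 1761905724661344380398925517369123683696640000000000))⟩,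
    ⟨nat_lit 4, nat_lit 12, (.negSucc (nat_lit 274877906943999)), (.ofNat (nat_lit 288621802291200)), (.negSucc (nat_lit 274877906943967)), (.ofNat (nat_lit 288621802291168)), (.negSucc (nat_lit 448513370697169996775413218960998399999999)), (.ofNat (nat_lit 0)), (.ofNat (nat_lit 4698415265763585014397134712984329823191040000000000))⟩,
    ⟨nat_lit 5, nat_lit 2, (.ofNat (nat_lit 824633720832000)), (.ofNat (nat_lit 1099511627776000)), (.ofNat (nat_lit 824633720832032)), (.ofNat (nat_lit 1099511627775968)), (.ofNat (nat_lit 1161759023610718381891436191552634880000000)), (.ofNat (nat_lit 17092735163764100486867881820160000000)), (.negSucc (nat_lit 17031755338392995677189613334568195609067519999999999))⟩,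
    ⟨nat_lit 7, nat_lit 8, (.ofNat (nat_lit 1388133430067200)), (.ofNat (nat_lit 1429365116108800)), (.ofNat (nat_lit 1388133430067232)), (.ofNat (nat_lit 1429365116108768)), (.ofNat (nat_lit 2198809451466613886630684317345382400000000)), (.ofNat (nat_lit 0)), (.ofNat (nat_lit 0))⟩,
    ⟨nat_lit 8, nat_lit 9, (.ofNat (nat_lit 1429365116108800)), (.ofNat (nat_lit 1649267441664000)), (.ofNat (nat_lit 1429365116108832)), (.ofNat (nat_lit 1649267441663968)), (.ofNat (nat_lit 3839712027187967533370000972080742400000000)), (.negSucc (nat_lit 5341479738676281402146213068799999999)), (.ofNat (nat_lit 7634924806865825648395343908599535962685440000000000))⟩,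
    ⟨nat_lit 9, nat_lit 6, (.ofNat (nat_lit 1649267441664000)), (.ofNat (nat_lit 2199023255552000)), (.ofNat (nat_lit 1649267441664032)), (.ofNat (nat_lit 2199023255551968)), (.ofNat (nat_lit 1510177337188885806215751094574776320000000)), (.ofNat (nat_lit 2136591895470512560858485227520000000)), (.negSucc (nat_lit 4698415265763585014397134712984329823191039999999999))⟩,
    ⟨nat_lit 7, nat_lit 6, (.ofNat (nat_lit 1388133430067200)), (.ofNat (nat_lit 2199023255552000)), (.ofNat (nat_lit 1388133430067232)), (.ofNat (nat_lit 2199023255551968)), (.ofNat (nat_lit 2176930750456995838007493428615577600000000)), (.ofNat (nat_lit 0)), (.ofNat (nat_lit 0))⟩,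
    ⟨nat_lit 0, nat_lit 11, (.ofNat (nat_lit 288621802291200)), (.ofNat (nat_lit 494780232499200)), (.ofNat (nat_lit 288621802291232)), (.ofNat (nat_lit 494780232499168)), (.negSucc (nat_lit 448513370697169996775413218960998399999999)), (.ofNat (nat_lit 0)), (.ofNat (nat_lit 1761905724661344380398925517369123683696640000000000))⟩,
    ⟨nat_lit 11, nat_lit 2, (.ofNat (nat_lit 494780232499200)), (.ofNat (nat_lit 1099511627776000)), (.ofNat (nat_lit 494780232499232)), (.ofNat (nat_lit 1099511627775968)), (.ofNat (nat_lit 0)), (.ofNat (nat_lit 0)), (.ofNat (nat_lit 1761905724661344380398925517369123683696640000000000))⟩,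
    ⟨nat_lit 12, nat_lit 10, (.ofNat (nat_lit 288621802291200)), (.ofNat (nat_lit 439804651110400)), (.ofNat (nat_lit 288621802291232)), (.ofNat (nat_lit 439804651110368)), (.negSucc (nat_lit 434839182566158716385918913504870399999999)), (.ofNat (nat_lit 0)), (.ofNat (nat_lit 4698415265763585014397134712984329823191040000000000))⟩]

theorem ok263 : stOK 12 12 S263 = true := by decide +kernel

def S264 : SD where
  vs := [
    ⟨nat_lit 0, nat_lit 3, nat_lit 10, (.ofNat (nat_lit 16)), (.ofNat (nat_lit 288621802291200)), (.ofNat (nat_lit 58756501954014043076811966235399576333489205673984000000)), (.ofNat (nat_lit 0)), (.negSucc (nat_lit 117460381644089625359928367824608245579775999999999999)), (.ofNat (nat_lit 288621802291168)), (.ofNat (nat_lit 288621802291232)), (.negSucc (nat_lit 463620092822858649396187880226815999999999)), (.negSucc (nat_lit 474038521875057720169135922479103999999999)), (.negSucc (nat_lit 474038521875057720169135922479103999999999)), (.negSucc (nat_lit 463620092822858649396187880226815999999999)), (.ofNat (nat_lit 1001145916734754457087975935180800000000))⟩,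
    ⟨nat_lit 2, nat_lit 0, nat_lit 1, (.ofNat (nat_lit 16)), (.negSucc (nat_lit 549755813887999)), (.ofNat (nat_lit 120279437284502097135725017355140140065026473984000000)), (.ofNat (nat_lit 0)), (.ofNat (nat_lit 0)), (.negSucc (nat_lit 549755813888031)), (.negSucc (nat_lit 549755813887967)), (.ofNat (nat_lit 1165040828762161089184914824862105600000000)), (.ofNat (nat_lit 1215483389423224923510604929433600000000)), (.ofNat (nat_lit 1215483389423224923510604929433600000000)), (.ofNat (nat_lit 1165040828762161089184914824862105600000000)), (.ofNat (nat_lit 245945467078605668116598966190080000000))⟩,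
    ⟨nat_lit 1, nat_lit 5, nat_lit 11, (.ofNat (nat_lit 16)), (.ofNat (nat_lit 1099511627776000)), (.negSucc (nat_lit 38970535573868525222648435794674483988884426326015999999)), (.ofNat (nat_lit 0)), (.negSucc (nat_lit 199682648794952363111878225301834017485619199999999999)), (.ofNat (nat_lit 1099511627775968)), (.ofNat (nat_lit 1099511627776032)), (.ofNat (nat_lit 1163946893711680186753755280425615360000000)), (.ofNat (nat_lit 0)), (.ofNat (nat_lit 0)), (.ofNat (nat_lit 1163946893711680186753755280425615360000000)), (.ofNat (nat_lit 136741881310112803894943054561280000000))⟩,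
    ⟨nat_lit 2, nat_lit 3, nat_lit 2, (.ofNat (nat_lit 16)), (.ofNat (nat_lit 0)), (.ofNat (nat_lit 192567368722960944286842362861193289697970024873984000000)), (.ofNat (nat_lit 0)), (.ofNat (nat_lit 12333340072629410662792478621583865785876480000000000)), (.negSucc (nat_lit 31)), (.ofNat (nat_lit 32)), (.negSucc (nat_lit 463620092822858649396187880226815999999999)), (.negSucc (nat_lit 668758960860658352915534832174366719999999)), (.negSucc (nat_lit 668758960860658352915534832174366719999999)), (.negSucc (nat_lit 463620092822858649396187880226815999999999)), (.ofNat (nat_lit 1261810127982156989512711132938240000000))⟩,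
    ⟨nat_lit 0, nat_lit 0, nat_lit 4, (.ofNat (nat_lit 16)), (.negSucc (nat_lit 274877906943999)), (.ofNat (nat_lit 320364263951730456678444427054367060888766312873984000000)), (.ofNat (nat_lit 0)), (.ofNat (nat_lit 18206359154833891930788897012814278064865280000000000)), (.negSucc (nat_lit 274877906944031)), (.negSucc (nat_lit 274877906943967)), (.ofNat (nat_lit 1165040828762161089184914824862105600000000)), (.negSucc (nat_lit 448246557270223435206837720317951999999999)), (.negSucc (nat_lit 448246557270223435206837720317951999999999)), (.ofNat (nat_lit 1165040828762161089184914824862105600000000)), (.ofNat (nat_lit 256599475446263508528467835617280000000))⟩,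
    ⟨nat_lit 0, nat_lit 2, nat_lit 5, (.ofNat (nat_lit 16)), (.ofNat (nat_lit 824633720832000)), (.negSucc (nat_lit 358913821511305610363035721210055407628901486166015999999)), (.ofNat (nat_lit 0)), (.negSucc (nat_lit 209079479326479533140672494727802677132001279999999999)), (.ofNat (nat_lit 824633720831968)), (.ofNat (nat_lit 824633720832032)), (.negSucc (nat_lit 668758960860658352915534832174366719999999)), (.ofNat (nat_lit 1163946893711680186753755280425615360000000)), (.negSucc (nat_lit 668758960860658352915534832174366719999999)), (.ofNat (nat_lit 1163946893711680186753755280425615360000000)), (.ofNat (nat_lit 1142364466778234049205670101647360000000))⟩,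
    ⟨nat_lit 1, nat_lit 9, nat_lit 8, (.ofNat (nat_lit 16)), (.ofNat (nat_lit 2199023255552000)), (.ofNat (nat_lit 5283394277483120579086425767073974339721925685673984000000)), (.ofNat (nat_lit 0)), (.ofNat (nat_lit 0)), (.ofNat (nat_lit 2199023255551968)), (.ofNat (nat_lit 2199023255552032)), (.ofNat (nat_lit 2176930750456995838007493428615577600000000)), (.ofNat (nat_lit 1510450820951506031823540980683898880000000)), (.ofNat (nat_lit 1510450820951506031823540980683898880000000)), (.ofNat (nat_lit 2176930750456995838007493428615577600000000)), (.ofNat (nat_lit 8546367581882050243433940910080000000))⟩,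
    ⟨nat_lit 2, nat_lit 9, nat_lit 6, (.ofNat (nat_lit 16)), (.ofNat (nat_lit 1388133430067200)), (.ofNat (nat_lit 3518143281152552526157249489789205813191173665193984000000)), (.ofNat (nat_lit 0)), (.ofNat (nat_lit 0)), (.ofNat (nat_lit 1388133430067168)), (.ofNat (nat_lit 1388133430067232)), (.ofNat (nat_lit 2176930750456995838007493428615577600000000)), (.ofNat (nat_lit 2198809451466613886630684317345382400000000)), (.ofNat (nat_lit 2176930750456995838007493428615577600000000)), (.ofNat (nat_lit 2198809451466613886630684317345382400000000)), (.ofNat (nat_lit 0))⟩,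
    ⟨nat_lit 0, nat_lit 6, nat_lit 7, (.ofNat (nat_lit 16)), (.ofNat (nat_lit 1429365116108800)), (.ofNat (nat_lit 3608803902120726662595056601210951441459467973033984000000)), (.ofNat (nat_lit 0)), (.ofNat (nat_lit 0)), (.ofNat (nat_lit 1429365116108768)), (.ofNat (nat_lit 1429365116108832)), (.ofNat (nat_lit 2198809451466613886630684317345382400000000)), (.ofNat (nat_lit 3839028317781416969350526256807936000000000)), (.ofNat (nat_lit 2198809451466613886630684317345382400000000)), (.ofNat (nat_lit 3839028317781416969350526256807936000000000)), (.ofNat (nat_lit 21365918954705125608584852275200000000))⟩,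
    ⟨nat_lit 0, nat_lit 7, nat_lit 8, (.ofNat (nat_lit 16)), (.ofNat (nat_lit 1649267441664000)), (.ofNat (nat_lit 4453015157073127617981933766439975824090434040233984000000)), (.ofNat (nat_lit 0)), (.negSucc (nat_lit 2349207632881792507198567356492164911595519999999999)), (.ofNat (nat_lit 1649267441663968)), (.ofNat (nat_lit 1649267441664032)), (.ofNat (nat_lit 3839028317781416969350526256807936000000000)), (.ofNat (nat_lit 1510450820951506031823540980683898880000000)), (.ofNat (nat_lit 1510450820951506031823540980683898880000000)), (.ofNat (nat_lit 3839028317781416969350526256807936000000000)), (.ofNat (nat_lit 51278205491292301460603645460480000000))⟩,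
    ⟨nat_lit 1, nat_lit 1, nat_lit 12, (.ofNat (nat_lit 16)), (.ofNat (nat_lit 439804651110400)), (.ofNat (nat_lit 1323073745319979860821391503879128574801932713984000000)), (.ofNat (nat_lit 0)), (.ofNat (nat_lit 9396830531527170028794269425968659646382080000000000)), (.ofNat (nat_lit 439804651110368)), (.ofNat (nat_lit 439804651110432)), (.ofNat (nat_lit 1215483389423224923510604929433600000000)), (.negSucc (nat_lit 439562993011417158702289673571532799999999)), (.negSucc (nat_lit 439562993011417158702289673571532799999999)), (.ofNat (nat_lit 1215483389423224923510604929433600000000)), (.ofNat (nat_lit 185602932333802101246292656128000000000))⟩,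
    ⟨nat_lit 0, nat_lit 10, nat_lit 11, (.ofNat (nat_lit 16)), (.ofNat (nat_lit 494780232499200)), (.negSucc (nat_lit 38970535573868525222648435794674483988884426326015999999)), (.ofNat (nat_lit 0)), (.negSucc (nat_lit 199682648794952363111878225301834017485619199999999999)), (.ofNat (nat_lit 494780232499168)), (.ofNat (nat_lit 494780232499232)), (.negSucc (nat_lit 474038521875057720169135922479103999999999)), (.ofNat (nat_lit 0)), (.negSucc (nat_lit 474038521875057720169135922479103999999999)), (.ofNat (nat_lit 0)), (.ofNat (nat_lit 1595321948617982712107668969881600000000))⟩,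
    ⟨nat_lit 0, nat_lit 4, nat_lit 12, (.ofNat (nat_lit 16)), (.ofNat (nat_lit 288621802291200)), (.ofNat (nat_lit 67777459264280126304454464884329489594016002473984000000)), (.ofNat (nat_lit 0)), (.ofNat (nat_lit 20555566787715684437987464369306442976460800000000000)), (.ofNat (nat_lit 288621802291168)), (.ofNat (nat_lit 288621802291232)), (.negSucc (nat_lit 448246557270223435206837720317951999999999)), (.negSucc (nat_lit 439562993011417158702289673571532799999999)), (.negSucc (nat_lit 448246557270223435206837720317951999999999)), (.negSucc (nat_lit 439562993011417158702289673571532799999999)), (.ofNat (nat_lit 164294915598486420422554917273600000000))⟩]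
  es := [
    ⟨nat_lit 1, nat_lit 4, (.negSucc (nat_lit 549755813887999)), (.negSucc (nat_lit 274877906943999)), (.negSucc (nat_lit 549755813887967)), (.negSucc (nat_lit 274877906944031)), (.ofNat (nat_lit 1165040828762161089184914824862105600000000)), (.ofNat (nat_lit 66234348759585889386613042053120000000)), (.ofNat (nat_lit 36412718309667783861577794025628556129730560000000000))⟩,
    ⟨nat_lit 1, nat_lit 10, (.negSucc (nat_lit 549755813887999)), (.ofNat (nat_lit 439804651110400)), (.negSucc (nat_lit 549755813887967)), (.ofNat (nat_lit 439804651110368)), (.ofNat (nat_lit 1215483389423224923510604929433600000000)), (.ofNat (nat_lit 9495963979868944714926601011200000000)), (.ofNat (nat_lit 5220461406403983349330149681093699803545600000000000))⟩,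
    ⟨nat_lit 3, nat_lit 5, (.ofNat (nat_lit 0)), (.ofNat (nat_lit 824633720832000)), (.ofNat (nat_lit 32)), (.ofNat (nat_lit 824633720831968)), (.negSucc (nat_lit 668758960860658352915534832174366719999999)), (.negSucc (nat_lit 268498381530794411814549643591679999999)), (.ofNat (nat_lit 12333340072629410662792478621583865785876480000000000))⟩,
    ⟨nat_lit 3, nat_lit 0, (.ofNat (nat_lit 0)), (.ofNat (nat_lit 288621802291200)), (.ofNat (nat_lit 32)), (.ofNat (nat_lit 288621802291168)), (.negSucc (nat_lit 463620092822858649396187880226815999999999)), (.negSucc (nat_lit 449701722760936453285452605030399999999)), (.ofNat (nat_lit 12333340072629410662792478621583865785876480000000000))⟩,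
    ⟨nat_lit 4, nat_lit 12, (.negSucc (nat_lit 274877906943999)), (.ofNat (nat_lit 288621802291200)), (.negSucc (nat_lit 274877906943967)), (.ofNat (nat_lit 288621802291168)), (.negSucc (nat_lit 448246557270223435206837720317951999999999)), (.ofNat (nat_lit 4168959796040024508992166297600000000)), (.ofNat (nat_lit 19352314097703059007471124991590943875399680000000000))⟩,
    ⟨nat_lit 5, nat_lit 2, (.ofNat (nat_lit 824633720832000)), (.ofNat (nat_lit 1099511627776000)), (.ofNat (nat_lit 824633720832032)), (.ofNat (nat_lit 1099511627775968)), (.ofNat (nat_lit 1163946893711680186753755280425615360000000)), (.ofNat (nat_lit 34185470327528200973735763640320000000)), (.negSucc (nat_lit 237269970921061043227055303005708656071147519999999999))⟩,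
    ⟨nat_lit 7, nat_lit 8, (.ofNat (nat_lit 1388133430067200)), (.ofNat (nat_lit 1429365116108800)), (.ofNat (nat_lit 1388133430067232)), (.ofNat (nat_lit 1429365116108768)), (.ofNat (nat_lit 2198809451466613886630684317345382400000000)), (.ofNat (nat_lit 0)), (.ofNat (nat_lit 0))⟩,
    ⟨nat_lit 8, nat_lit 9, (.ofNat (nat_lit 1429365116108800)), (.ofNat (nat_lit 1649267441664000)), (.ofNat (nat_lit 1429365116108832)), (.ofNat (nat_lit 1649267441663968)), (.ofNat (nat_lit 3839028317781416969350526256807936000000000)), (.negSucc (nat_lit 10682959477352562804292426137599999999)), (.ofNat (nat_lit 15269849613731651296790687817199071925370880000000000))⟩,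
    ⟨nat_lit 9, nat_lit 6, (.ofNat (nat_lit 1649267441664000)), (.ofNat (nat_lit 2199023255552000)), (.ofNat (nat_lit 1649267441664032)), (.ofNat (nat_lit 2199023255551968)), (.ofNat (nat_lit 1510450820951506031823540980683898880000000)), (.ofNat (nat_lit 4273183790941025121716970455040000000)), (.negSucc (nat_lit 9396830531527170028794269425968659646382079999999999))⟩,
    ⟨nat_lit 7, nat_lit 6, (.ofNat (nat_lit 1388133430067200)), (.ofNat (nat_lit 2199023255552000)), (.ofNat (nat_lit 1388133430067232)), (.ofNat (nat_lit 2199023255551968)), (.ofNat (nat_lit 2176930750456995838007493428615577600000000)), (.ofNat (nat_lit 0)), (.ofNat (nat_lit 0))⟩,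
    ⟨nat_lit 0, nat_lit 11, (.ofNat (nat_lit 288621802291200)), (.ofNat (nat_lit 494780232499200)), (.ofNat (nat_lit 288621802291232)), (.ofNat (nat_lit 494780232499168)), (.negSucc (nat_lit 474038521875057720169135922479103999999999)), (.negSucc (nat_lit 398830487154495678026917242470399999999)), (.negSucc (nat_lit 2349207632881792507198567356492164911595519999999999))⟩,
    ⟨nat_lit 11, nat_lit 2, (.ofNat (nat_lit 494780232499200)), (.ofNat (nat_lit 1099511627776000)), (.ofNat (nat_lit 494780232499232)), (.ofNat (nat_lit 1099511627775968)), (.ofNat (nat_lit 0)), (.ofNat (nat_lit 0)), (.negSucc (nat_lit 199682648794952363111878225301834017485619199999999999))⟩,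
    ⟨nat_lit 12, nat_lit 10, (.ofNat (nat_lit 288621802291200)), (.ofNat (nat_lit 439804651110400)), (.ofNat (nat_lit 288621802291232)), (.ofNat (nat_lit 439804651110368)), (.negSucc (nat_lit 439562993011417158702289673571532799999999)), (.negSucc (nat_lit 73809538207163161193293126041599999999)), (.ofNat (nat_lit 41858608731348302855538109261133120242974720000000000))⟩]

theorem ok264 : stOK 12 12 S264 = true := by decide +kernel

def S265 : SD where
  vs := [
    ⟨nat_lit 0, nat_lit 3, nat_lit 10, (.ofNat (nat_lit 16)), (.ofNat (nat_lit 288621802291200)), (.ofNat (nat_lit 58756501954014043076811966235399576333489205673984000000)), (.ofNat (nat_lit 0)), (.ofNat (nat_lit 0)), (.ofNat (nat_lit 288621802291168)), (.ofNat (nat_lit 288621802291232)), (.negSucc (nat_lit 463620092822858649396187880226815999999999)), (.negSucc (nat_lit 474038521875057720169135922479103999999999)), (.negSucc (nat_lit 474038521875057720169135922479103999999999)), (.negSucc (nat_lit 463620092822858649396187880226815999999999)), (.ofNat (nat_lit 0))⟩,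
    ⟨nat_lit 2, nat_lit 0, nat_lit 1, (.ofNat (nat_lit 16)), (.negSucc (nat_lit 549755813887999)), (.ofNat (nat_lit 120279437284502097135725017355140140065026473984000000)), (.ofNat (nat_lit 0)), (.ofNat (nat_lit 0)), (.negSucc (nat_lit 549755813888031)), (.negSucc (nat_lit 549755813887967)), (.ofNat (nat_lit 1166134763812641991616074369298595840000000)), (.ofNat (nat_lit 0)), (.ofNat (nat_lit 0)), (.ofNat (nat_lit 1166134763812641991616074369298595840000000)), (.ofNat (nat_lit 106354796574532180807177931325440000000))⟩,
    ⟨nat_lit 1, nat_lit 5, nat_lit 11, (.ofNat (nat_lit 16)), (.ofNat (nat_lit 1099511627776000)), (.negSucc (nat_lit 38970535573868525222648435794674483988884426326015999999)), (.ofNat (nat_lit 0)), (.ofNat (nat_lit 0)), (.ofNat (nat_lit 1099511627775968)), (.ofNat (nat_lit 1099511627776032)), (.ofNat (nat_lit 1165040828762161089184914824862105600000000)), (.ofNat (nat_lit 0)), (.ofNat (nat_lit 0)), (.ofNat (nat_lit 1165040828762161089184914824862105600000000)), (.ofNat (nat_lit 68370940655056401947471527280640000000))⟩,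
    ⟨nat_lit 2, nat_lit 3, nat_lit 2, (.ofNat (nat_lit 16)), (.ofNat (nat_lit 0)), (.ofNat (nat_lit 192567368722960944286842362861193289697970024873984000000)), (.ofNat (nat_lit 0)), (.ofNat (nat_lit 0)), (.negSucc (nat_lit 31)), (.ofNat (nat_lit 32)), (.negSucc (nat_lit 463620092822858649396187880226815999999999)), (.negSucc (nat_lit 669123605877485320392588013653196799999999)), (.negSucc (nat_lit 669123605877485320392588013653196799999999)), (.negSucc (nat_lit 463620092822858649396187880226815999999999)), (.ofNat (nat_lit 11395156775842733657911921213440000000))⟩,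
    ⟨nat_lit 0, nat_lit 0, nat_lit 4, (.ofNat (nat_lit 16)), (.negSucc (nat_lit 274877906943999)), (.ofNat (nat_lit 320664962528739326119365843675998057997450539433984000000)), (.ofNat (nat_lit 0)), (.ofNat (nat_lit 4698415265763585014397134712984329823191040000000000)), (.negSucc (nat_lit 274877906944031)), (.negSucc (nat_lit 274877906943967)), (.ofNat (nat_lit 1166134763812641991616074369298595840000000)), (.negSucc (nat_lit 448513370697169996775413218960998399999999)), (.negSucc (nat_lit 448513370697169996775413218960998399999999)), (.ofNat (nat_lit 1166134763812641991616074369298595840000000)), (.ofNat (nat_lit 76708860247136450965455859875840000000))⟩,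
    ⟨nat_lit 0, nat_lit 2, nat_lit 5, (.ofNat (nat_lit 16)), (.ofNat (nat_lit 824633720832000)), (.negSucc (nat_lit 359214520088314479803957137831686404737585712726015999999)), (.ofNat (nat_lit 0)), (.negSucc (nat_lit 4698415265763585014397134712984329823191039999999999)), (.ofNat (nat_lit 824633720831968)), (.ofNat (nat_lit 824633720832032)), (.negSucc (nat_lit 669123605877485320392588013653196799999999)), (.ofNat (nat_lit 1165040828762161089184914824862105600000000)), (.negSucc (nat_lit 669123605877485320392588013653196799999999)), (.ofNat (nat_lit 1165040828762161089184914824862105600000000)), (.ofNat (nat_lit 56975783879213668289559606067200000000))⟩,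
    ⟨nat_lit 1, nat_lit 9, nat_lit 8, (.ofNat (nat_lit 16)), (.ofNat (nat_lit 2199023255552000)), (.ofNat (nat_lit 5283394277483120579086425767073974339721925685673984000000)), (.ofNat (nat_lit 0)), (.ofNat (nat_lit 0)), (.ofNat (nat_lit 2199023255551968)), (.ofNat (nat_lit 2199023255552032)), (.ofNat (nat_lit 2176930750456995838007493428615577600000000)), (.ofNat (nat_lit 1510724304714126257431330866793021440000000)), (.ofNat (nat_lit 1510724304714126257431330866793021440000000)), (.ofNat (nat_lit 2176930750456995838007493428615577600000000)), (.ofNat (nat_lit 8546367581882050243433940910080000000))⟩,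
    ⟨nat_lit 2, nat_lit 9, nat_lit 6, (.ofNat (nat_lit 16)), (.ofNat (nat_lit 1388133430067200)), (.ofNat (nat_lit 3518143281152552526157249489789205813191173665193984000000)), (.ofNat (nat_lit 0)), (.ofNat (nat_lit 0)), (.ofNat (nat_lit 1388133430067168)), (.ofNat (nat_lit 1388133430067232)), (.ofNat (nat_lit 2176930750456995838007493428615577600000000)), (.ofNat (nat_lit 2198809451466613886630684317345382400000000)), (.ofNat (nat_lit 2176930750456995838007493428615577600000000)), (.ofNat (nat_lit 2198809451466613886630684317345382400000000)), (.ofNat (nat_lit 0))⟩,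
    ⟨nat_lit 0, nat_lit 6, nat_lit 7, (.ofNat (nat_lit 16)), (.ofNat (nat_lit 1429365116108800)), (.ofNat (nat_lit 3608803902120726662595056601210951441459467973033984000000)), (.ofNat (nat_lit 0)), (.ofNat (nat_lit 0)), (.ofNat (nat_lit 1429365116108768)), (.ofNat (nat_lit 1429365116108832)), (.ofNat (nat_lit 2198809451466613886630684317345382400000000)), (.ofNat (nat_lit 3838344608374866405331051541535129600000000)), (.ofNat (nat_lit 2198809451466613886630684317345382400000000)), (.ofNat (nat_lit 3838344608374866405331051541535129600000000)), (.ofNat (nat_lit 21365918954705125608584852275200000000))⟩,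
    ⟨nat_lit 0, nat_lit 7, nat_lit 8, (.ofNat (nat_lit 16)), (.ofNat (nat_lit 1649267441664000)), (.ofNat (nat_lit 4452864807784623183261473058129160325536091926953984000000)), (.ofNat (nat_lit 0)), (.negSucc (nat_lit 2349207632881792507198567356492164911595519999999999)), (.ofNat (nat_lit 1649267441663968)), (.ofNat (nat_lit 1649267441664032)), (.ofNat (nat_lit 3838344608374866405331051541535129600000000)), (.ofNat (nat_lit 1510724304714126257431330866793021440000000)), (.ofNat (nat_lit 1510724304714126257431330866793021440000000)), (.ofNat (nat_lit 3838344608374866405331051541535129600000000)), (.ofNat (nat_lit 51278205491292301460603645460480000000))⟩,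
    ⟨nat_lit 1, nat_lit 1, nat_lit 12, (.ofNat (nat_lit 16)), (.ofNat (nat_lit 439804651110400)), (.ofNat (nat_lit 120279437284502097135725017355140140065026473984000000)), (.ofNat (nat_lit 0)), (.negSucc (nat_lit 18793661063054340057588538851937319292764159999999999)), (.ofNat (nat_lit 439804651110368)), (.ofNat (nat_lit 439804651110432)), (.ofNat (nat_lit 0)), (.negSucc (nat_lit 448513370697169996775413218960998399999999)), (.negSucc (nat_lit 448513370697169996775413218960998399999999)), (.ofNat (nat_lit 0)), (.ofNat (nat_lit 279699302679776189785110793420800000000))⟩,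
    ⟨nat_lit 0, nat_lit 10, nat_lit 11, (.ofNat (nat_lit 16)), (.ofNat (nat_lit 494780232499200)), (.negSucc (nat_lit 38970535573868525222648435794674483988884426326015999999)), (.ofNat (nat_lit 0)), (.ofNat (nat_lit 0)), (.ofNat (nat_lit 494780232499168)), (.ofNat (nat_lit 494780232499232)), (.negSucc (nat_lit 474038521875057720169135922479103999999999)), (.ofNat (nat_lit 0)), (.negSucc (nat_lit 474038521875057720169135922479103999999999)), (.ofNat (nat_lit 0)), (.ofNat (nat_lit 0))⟩,
    ⟨nat_lit 0, nat_lit 4, nat_lit 12, (.ofNat (nat_lit 16)), (.ofNat (nat_lit 288621802291200)), (.ofNat (nat_lit 67927808552784561024915173195144988148358115753984000000)), (.ofNat (nat_lit 0)), (.ofNat (nat_lit 2349207632881792507198567356492164911595520000000000)), (.ofNat (nat_lit 288621802291168)), (.ofNat (nat_lit 288621802291232)), (.negSucc (nat_lit 448513370697169996775413218960998399999999)), (.negSucc (nat_lit 448513370697169996775413218960998399999999)), (.negSucc (nat_lit 448513370697169996775413218960998399999999)), (.negSucc (nat_lit 448513370697169996775413218960998399999999)),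 (.ofNat (nat_lit 279699302679776189785110793420800000000))⟩]
  es := [
    ⟨nat_lit 1, nat_lit 4, (.negSucc (nat_lit 549755813887999)), (.negSucc (nat_lit 274877906943999)), (.negSucc (nat_lit 549755813887967)), (.negSucc (nat_lit 274877906944031)), (.ofNat (nat_lit 1166134763812641991616074369298595840000000)), (.ofNat (nat_lit 17092735163764100486867881820160000000)), (.ofNat (nat_lit 9396830531527170028794269425968659646382080000000000))⟩,
    ⟨nat_lit 1, nat_lit 10, (.negSucc (nat_lit 549755813887999)), (.ofNat (nat_lit 439804651110400)), (.negSucc (nat_lit 549755813887967)), (.ofNat (nat_lit 439804651110368)), (.ofNat (nat_lit 0)), (.negSucc (nat_lit 18991927959737889429853202022399999999)), (.negSucc (nat_lit 10440922812807966698660299362187399607091199999999999))⟩,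
    ⟨nat_lit 3, nat_lit 5, (.ofNat (nat_lit 0)), (.ofNat (nat_lit 824633720832000)), (.ofNat (nat_lit 32)), (.ofNat (nat_lit 824633720831968)), (.negSucc (nat_lit 669123605877485320392588013653196799999999)), (.negSucc (nat_lit 5697578387921366828955960606719999999)), (.ofNat (nat_lit 0))⟩,
    ⟨nat_lit 3, nat_lit 0, (.ofNat (nat_lit 0)), (.ofNat (nat_lit 288621802291200)), (.ofNat (nat_lit 32)), (.ofNat (nat_lit 288621802291168)), (.negSucc (nat_lit 463620092822858649396187880226815999999999)), (.ofNat (nat_lit 0)), (.ofNat (nat_lit 0))⟩,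
    ⟨nat_lit 4, nat_lit 12, (.negSucc (nat_lit 274877906943999)), (.ofNat (nat_lit 288621802291200)), (.negSucc (nat_lit 274877906943967)), (.ofNat (nat_lit 288621802291168)), (.negSucc (nat_lit 448513370697169996775413218960998399999999)), (.negSucc (nat_lit 4168959796040024508992166297599999999)), (.ofNat (nat_lit 3552460322894417937714906734207664012656640000000000))⟩,
    ⟨nat_lit 5, nat_lit 2, (.ofNat (nat_lit 824633720832000)), (.ofNat (nat_lit 1099511627776000)), (.ofNat (nat_lit 824633720832032)), (.ofNat (nat_lit 1099511627775968)), (.ofNat (nat_lit 1165040828762161089184914824862105600000000)), (.ofNat (nat_lit 17092735163764100486867881820160000000)), (.negSucc (nat_lit 18793661063054340057588538851937319292764159999999999))⟩,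
    ⟨nat_lit 7, nat_lit 8, (.ofNat (nat_lit 1388133430067200)), (.ofNat (nat_lit 1429365116108800)), (.ofNat (nat_lit 1388133430067232)), (.ofNat (nat_lit 1429365116108768)), (.ofNat (nat_lit 2198809451466613886630684317345382400000000)), (.ofNat (nat_lit 0)), (.ofNat (nat_lit 0))⟩,
    ⟨nat_lit 8, nat_lit 9, (.ofNat (nat_lit 1429365116108800)), (.ofNat (nat_lit 1649267441664000)), (.ofNat (nat_lit 1429365116108832)), (.ofNat (nat_lit 1649267441663968)), (.ofNat (nat_lit 3838344608374866405331051541535129600000000)), (.negSucc (nat_lit 10682959477352562804292426137599999999)), (.ofNat (nat_lit 15269849613731651296790687817199071925370880000000000))⟩,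
    ⟨nat_lit 9, nat_lit 6, (.ofNat (nat_lit 1649267441664000)), (.ofNat (nat_lit 2199023255552000)), (.ofNat (nat_lit 1649267441664032)), (.ofNat (nat_lit 2199023255551968)), (.ofNat (nat_lit 1510724304714126257431330866793021440000000)), (.ofNat (nat_lit 4273183790941025121716970455040000000)), (.negSucc (nat_lit 9396830531527170028794269425968659646382079999999999))⟩,
    ⟨nat_lit 7, nat_lit 6, (.ofNat (nat_lit 1388133430067200)), (.ofNat (nat_lit 2199023255552000)), (.ofNat (nat_lit 1388133430067232)), (.ofNat (nat_lit 2199023255551968)), (.ofNat (nat_lit 2176930750456995838007493428615577600000000)), (.ofNat (nat_lit 0)), (.ofNat (nat_lit 0))⟩,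
    ⟨nat_lit 0, nat_lit 11, (.ofNat (nat_lit 288621802291200)), (.ofNat (nat_lit 494780232499200)), (.ofNat (nat_lit 288621802291232)), (.ofNat (nat_lit 494780232499168)), (.negSucc (nat_lit 474038521875057720169135922479103999999999)), (.ofNat (nat_lit 0)), (.ofNat (nat_lit 0))⟩,
    ⟨nat_lit 11, nat_lit 2, (.ofNat (nat_lit 494780232499200)), (.ofNat (nat_lit 1099511627776000)), (.ofNat (nat_lit 494780232499232)), (.ofNat (nat_lit 1099511627775968)), (.ofNat (nat_lit 0)), (.ofNat (nat_lit 0)), (.ofNat (nat_lit 0))⟩,
    ⟨nat_lit 12, nat_lit 10, (.ofNat (nat_lit 288621802291200)), (.ofNat (nat_lit 439804651110400)), (.ofNat (nat_lit 288621802291232)), (.ofNat (nat_lit 439804651110368)), (.negSucc (nat_lit 448513370697169996775413218960998399999999)), (.negSucc (nat_lit 139849651339888094892555396710399999999)), (.ofNat (nat_lit 42712866052396227403610315572584816574464000000000000))⟩]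

theorem ok265 : stOK 12 12 S265 = true := by decide +kernel

def S266 : SD where
  vs := [
    ⟨nat_lit 0, nat_lit 3, nat_lit 10, (.ofNat (nat_lit 16)), (.ofNat (nat_lit 288621802291200)), (.ofNat (nat_lit 58756501954014043076811966235399576333489205673984000000)), (.ofNat (nat_lit 0)), (.ofNat (nat_lit 0)), (.ofNat (nat_lit 288621802291168)), (.ofNat (nat_lit 288621802291232)), (.negSucc (nat_lit 463620092822858649396187880226815999999999)), (.negSucc (nat_lit 474038521875057720169135922479103999999999)), (.negSucc (nat_lit 474038521875057720169135922479103999999999)), (.negSucc (nat_lit 463620092822858649396187880226815999999999)), (.ofNat (nat_lit 0))⟩,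
    ⟨nat_lit 2, nat_lit 0, nat_lit 1, (.ofNat (nat_lit 16)), (.negSucc (nat_lit 549755813887999)), (.ofNat (nat_lit 120279437284502097135725017355140140065026473984000000)), (.ofNat (nat_lit 0)), (.ofNat (nat_lit 0)), (.negSucc (nat_lit 549755813888031)), (.negSucc (nat_lit 549755813887967)), (.ofNat (nat_lit 1166681731337882442831654141516840960000000)), (.ofNat (nat_lit 151935423677903115438825616179200000000)), (.ofNat (nat_lit 151935423677903115438825616179200000000)), (.ofNat (nat_lit 1166681731337882442831654141516840960000000)), (.ofNat (nat_lit 58874976675187457232544926269440000000))⟩,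
    ⟨nat_lit 1, nat_lit 5, nat_lit 11, (.ofNat (nat_lit 16)), (.ofNat (nat_lit 1099511627776000)), (.negSucc (nat_lit 38970535573868525222648435794674483988884426326015999999)), (.ofNat (nat_lit 0)), (.ofNat (nat_lit 0)), (.ofNat (nat_lit 1099511627775968)), (.ofNat (nat_lit 1099511627776032)), (.ofNat (nat_lit 1165587796287401540400494597080350720000000)), (.ofNat (nat_lit 0)), (.ofNat (nat_lit 0)), (.ofNat (nat_lit 1165587796287401540400494597080350720000000)), (.ofNat (nat_lit 68370940655056401947471527280640000000))⟩,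
    ⟨nat_lit 2, nat_lit 3, nat_lit 2, (.ofNat (nat_lit 16)), (.ofNat (nat_lit 0)), (.ofNat (nat_lit 192567368722960944286842362861193289697970024873984000000)), (.ofNat (nat_lit 0)), (.ofNat (nat_lit 0)), (.negSucc (nat_lit 31)), (.ofNat (nat_lit 32)), (.negSucc (nat_lit 463620092822858649396187880226815999999999)), (.negSucc (nat_lit 669305928385898804131114604392611839999999)), (.negSucc (nat_lit 669305928385898804131114604392611839999999)), (.negSucc (nat_lit 463620092822858649396187880226815999999999)), (.ofNat (nat_lit 11395156775842733657911921213440000000))⟩,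
    ⟨nat_lit 0, nat_lit 0, nat_lit 4, (.ofNat (nat_lit 16)), (.negSucc (nat_lit 274877906943999)), (.ofNat (nat_lit 320815311817243760839826551986813556551792652713984000000)), (.ofNat (nat_lit 0)), (.ofNat (nat_lit 4698415265763585014397134712984329823191040000000000)), (.negSucc (nat_lit 274877906944031)), (.negSucc (nat_lit 274877906943967)), (.ofNat (nat_lit 1166681731337882442831654141516840960000000)), (.negSucc (nat_lit 448513370697169996775413218960998399999999)), (.negSucc (nat_lit 448513370697169996775413218960998399999999)), (.ofNat (nat_lit 1166681731337882442831654141516840960000000)), (.ofNat (nat_lit 68370940655056401947471527280640000000))⟩,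
    ⟨nat_lit 0, nat_lit 2, nat_lit 5, (.ofNat (nat_lit 16)), (.ofNat (nat_lit 824633720832000)), (.negSucc (nat_lit 359364869376818914524417846142501903291927826006015999999)), (.ofNat (nat_lit 0)), (.negSucc (nat_lit 4698415265763585014397134712984329823191039999999999)), (.ofNat (nat_lit 824633720831968)), (.ofNat (nat_lit 824633720832032)), (.negSucc (nat_lit 669305928385898804131114604392611839999999)), (.ofNat (nat_lit 1165587796287401540400494597080350720000000)), (.negSucc (nat_lit 669305928385898804131114604392611839999999)), (.ofNat (nat_lit 1165587796287401540400494597080350720000000)), (.ofNat (nat_lit 56975783879213668289559606067200000000))⟩,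
    ⟨nat_lit 1, nat_lit 9, nat_lit 8, (.ofNat (nat_lit 16)), (.ofNat (nat_lit 2199023255552000)), (.ofNat (nat_lit 5283394277483120579086425767073974339721925685673984000000)), (.ofNat (nat_lit 0)), (.ofNat (nat_lit 0)), (.ofNat (nat_lit 2199023255551968)), (.ofNat (nat_lit 2199023255552032)), (.ofNat (nat_lit 2176930750456995838007493428615577600000000)), (.ofNat (nat_lit 1510861046595436370235225809847582720000000)), (.ofNat (nat_lit 1510861046595436370235225809847582720000000)), (.ofNat (nat_lit 2176930750456995838007493428615577600000000)), (.ofNat (nat_lit 8546367581882050243433940910080000000))⟩,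
    ⟨nat_lit 2, nat_lit 9, nat_lit 6, (.ofNat (nat_lit 16)), (.ofNat (nat_lit 1388133430067200)), (.ofNat (nat_lit 3518143281152552526157249489789205813191173665193984000000)), (.ofNat (nat_lit 0)), (.ofNat (nat_lit 0)), (.ofNat (nat_lit 1388133430067168)), (.ofNat (nat_lit 1388133430067232)), (.ofNat (nat_lit 2176930750456995838007493428615577600000000)), (.ofNat (nat_lit 2198809451466613886630684317345382400000000)), (.ofNat (nat_lit 2176930750456995838007493428615577600000000)), (.ofNat (nat_lit 2198809451466613886630684317345382400000000)), (.ofNat (nat_lit 0))⟩,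
    ⟨nat_lit 0, nat_lit 6, nat_lit 7, (.ofNat (nat_lit 16)), (.ofNat (nat_lit 1429365116108800)), (.ofNat (nat_lit 3608803902120726662595056601210951441459467973033984000000)), (.ofNat (nat_lit 0)), (.ofNat (nat_lit 0)), (.ofNat (nat_lit 1429365116108768)), (.ofNat (nat_lit 1429365116108832)), (.ofNat (nat_lit 2198809451466613886630684317345382400000000)), (.ofNat (nat_lit 3838002753671591123321314183898726400000000)), (.ofNat (nat_lit 2198809451466613886630684317345382400000000)), (.ofNat (nat_lit 3838002753671591123321314183898726400000000)), (.ofNat (nat_lit 21365918954705125608584852275200000000))⟩,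
    ⟨nat_lit 0, nat_lit 7, nat_lit 8, (.ofNat (nat_lit 16)), (.ofNat (nat_lit 1649267441664000)), (.ofNat (nat_lit 4452789633140370965901242703973752576258920870313984000000)), (.ofNat (nat_lit 0)), (.negSucc (nat_lit 2349207632881792507198567356492164911595519999999999)), (.ofNat (nat_lit 1649267441663968)), (.ofNat (nat_lit 1649267441664032)), (.ofNat (nat_lit 3838002753671591123321314183898726400000000)), (.ofNat (nat_lit 1510861046595436370235225809847582720000000)), (.ofNat (nat_lit 1510861046595436370235225809847582720000000)), (.ofNat (nat_lit 3838002753671591123321314183898726400000000)), (.ofNat (nat_lit 51278205491292301460603645460480000000))⟩,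
    ⟨nat_lit 1, nat_lit 1, nat_lit 12, (.ofNat (nat_lit 16)), (.ofNat (nat_lit 439804651110400)), (.ofNat (nat_lit 270628725788936817596433328170638694407139753984000000)), (.ofNat (nat_lit 0)), (.ofNat (nat_lit 4698415265763585014397134712984329823191040000000000)), (.ofNat (nat_lit 439804651110368)), (.ofNat (nat_lit 439804651110432)), (.ofNat (nat_lit 151935423677903115438825616179200000000)), (.negSucc (nat_lit 448513370697169996775413218960998399999999)), (.negSucc (nat_lit 448513370697169996775413218960998399999999)), (.ofNat (nat_lit 151935423677903115438825616179200000000)), (.ofNat (nat_lit 18991927959737889429853202022400000000))⟩,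
    ⟨nat_lit 0, nat_lit 10, nat_lit 11, (.ofNat (nat_lit 16)), (.ofNat (nat_lit 494780232499200)), (.negSucc (nat_lit 38970535573868525222648435794674483988884426326015999999)), (.ofNat (nat_lit 0)), (.ofNat (nat_lit 0)), (.ofNat (nat_lit 494780232499168)), (.ofNat (nat_lit 494780232499232)), (.negSucc (nat_lit 474038521875057720169135922479103999999999)), (.ofNat (nat_lit 0)), (.negSucc (nat_lit 474038521875057720169135922479103999999999)), (.ofNat (nat_lit 0)), (.ofNat (nat_lit 0))⟩,
    ⟨nat_lit 0, nat_lit 4, nat_lit 12, (.ofNat (nat_lit 16)), (.ofNat (nat_lit 288621802291200)), (.ofNat (nat_lit 68078157841288995745375881505960486702700229033984000000)), (.ofNat (nat_lit 0)), (.ofNat (nat_lit 4698415265763585014397134712984329823191040000000000)), (.ofNat (nat_lit 288621802291168)), (.ofNat (nat_lit 288621802291232)), (.negSucc (nat_lit 448513370697169996775413218960998399999999)), (.negSucc (nat_lit 448513370697169996775413218960998399999999)), (.negSucc (nat_lit 448513370697169996775413218960998399999999)), (.negSucc (nat_lit 448513370697169996775413218960998399999999)),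 (.ofNat (nat_lit 0))⟩]
  es := [
    ⟨nat_lit 1, nat_lit 4, (.negSucc (nat_lit 549755813887999)), (.negSucc (nat_lit 274877906943999)), (.negSucc (nat_lit 549755813887967)), (.negSucc (nat_lit 274877906944031)), (.ofNat (nat_lit 1166681731337882442831654141516840960000000)), (.ofNat (nat_lit 17092735163764100486867881820160000000)), (.ofNat (nat_lit 9396830531527170028794269425968659646382080000000000))⟩,
    ⟨nat_lit 1, nat_lit 10, (.negSucc (nat_lit 549755813887999)), (.ofNat (nat_lit 439804651110400)), (.negSucc (nat_lit 549755813887967)), (.ofNat (nat_lit 439804651110368)), (.ofNat (nat_lit 151935423677903115438825616179200000000)), (.ofNat (nat_lit 4747981989934472357463300505600000000)), (.ofNat (nat_lit 2610230703201991674665074840546849901772800000000000))⟩,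
    ⟨nat_lit 3, nat_lit 5, (.ofNat (nat_lit 0)), (.ofNat (nat_lit 824633720832000)), (.ofNat (nat_lit 32)), (.ofNat (nat_lit 824633720831968)), (.negSucc (nat_lit 669305928385898804131114604392611839999999)), (.negSucc (nat_lit 5697578387921366828955960606719999999)), (.ofNat (nat_lit 0))⟩,
    ⟨nat_lit 3, nat_lit 0, (.ofNat (nat_lit 0)), (.ofNat (nat_lit 288621802291200)), (.ofNat (nat_lit 32)), (.ofNat (nat_lit 288621802291168)), (.negSucc (nat_lit 463620092822858649396187880226815999999999)), (.ofNat (nat_lit 0)), (.ofNat (nat_lit 0))⟩,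
    ⟨nat_lit 4, nat_lit 12, (.negSucc (nat_lit 274877906943999)), (.ofNat (nat_lit 288621802291200)), (.negSucc (nat_lit 274877906943967)), (.ofNat (nat_lit 288621802291168)), (.negSucc (nat_lit 448513370697169996775413218960998399999999)), (.ofNat (nat_lit 0)), (.ofNat (nat_lit 4698415265763585014397134712984329823191040000000000))⟩,
    ⟨nat_lit 5, nat_lit 2, (.ofNat (nat_lit 824633720832000)), (.ofNat (nat_lit 1099511627776000)), (.ofNat (nat_lit 824633720832032)), (.ofNat (nat_lit 1099511627775968)), (.ofNat (nat_lit 1165587796287401540400494597080350720000000)), (.ofNat (nat_lit 17092735163764100486867881820160000000)), (.negSucc (nat_lit 18793661063054340057588538851937319292764159999999999))⟩,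
    ⟨nat_lit 7, nat_lit 8, (.ofNat (nat_lit 1388133430067200)), (.ofNat (nat_lit 1429365116108800)), (.ofNat (nat_lit 1388133430067232)), (.ofNat (nat_lit 1429365116108768)), (.ofNat (nat_lit 2198809451466613886630684317345382400000000)), (.ofNat (nat_lit 0)), (.ofNat (nat_lit 0))⟩,
    ⟨nat_lit 8, nat_lit 9, (.ofNat (nat_lit 1429365116108800)), (.ofNat (nat_lit 1649267441664000)), (.ofNat (nat_lit 1429365116108832)), (.ofNat (nat_lit 1649267441663968)), (.ofNat (nat_lit 3838002753671591123321314183898726400000000)), (.negSucc (nat_lit 10682959477352562804292426137599999999)), (.ofNat (nat_lit 15269849613731651296790687817199071925370880000000000))⟩,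
    ⟨nat_lit 9, nat_lit 6, (.ofNat (nat_lit 1649267441664000)), (.ofNat (nat_lit 2199023255552000)), (.ofNat (nat_lit 1649267441664032)), (.ofNat (nat_lit 2199023255551968)), (.ofNat (nat_lit 1510861046595436370235225809847582720000000)), (.ofNat (nat_lit 4273183790941025121716970455040000000)), (.negSucc (nat_lit 9396830531527170028794269425968659646382079999999999))⟩,
    ⟨nat_lit 7, nat_lit 6, (.ofNat (nat_lit 1388133430067200)), (.ofNat (nat_lit 2199023255552000)), (.ofNat (nat_lit 1388133430067232)), (.ofNat (nat_lit 2199023255551968)), (.ofNat (nat_lit 2176930750456995838007493428615577600000000)), (.ofNat (nat_lit 0)), (.ofNat (nat_lit 0))⟩,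
    ⟨nat_lit 0, nat_lit 11, (.ofNat (nat_lit 288621802291200)), (.ofNat (nat_lit 494780232499200)), (.ofNat (nat_lit 288621802291232)), (.ofNat (nat_lit 494780232499168)), (.negSucc (nat_lit 474038521875057720169135922479103999999999)), (.ofNat (nat_lit 0)), (.ofNat (nat_lit 0))⟩,
    ⟨nat_lit 11, nat_lit 2, (.ofNat (nat_lit 494780232499200)), (.ofNat (nat_lit 1099511627776000)), (.ofNat (nat_lit 494780232499232)), (.ofNat (nat_lit 1099511627775968)), (.ofNat (nat_lit 0)), (.ofNat (nat_lit 0)), (.ofNat (nat_lit 0))⟩,
    ⟨nat_lit 12, nat_lit 10, (.ofNat (nat_lit 288621802291200)), (.ofNat (nat_lit 439804651110400)), (.ofNat (nat_lit 288621802291232)), (.ofNat (nat_lit 439804651110368)), (.negSucc (nat_lit 448513370697169996775413218960998399999999)), (.ofNat (nat_lit 0)), (.ofNat (nat_lit 4698415265763585014397134712984329823191040000000000))⟩]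

theorem ok266 : stOK 12 12 S266 = true := by decide +kernel

def S267 : SD where
  vs := [
    ⟨nat_lit 0, nat_lit 3, nat_lit 10, (.ofNat (nat_lit 16)), (.ofNat (nat_lit 288621802291200)), (.ofNat (nat_lit 58756501954014043076811966235399576333489205673984000000)), (.ofNat (nat_lit 0)), (.ofNat (nat_lit 0)), (.ofNat (nat_lit 288621802291168)), (.ofNat (nat_lit 288621802291232)), (.negSucc (nat_lit 463620092822858649396187880226815999999999)), (.negSucc (nat_lit 474038521875057720169135922479103999999999)), (.negSucc (nat_lit 474038521875057720169135922479103999999999)), (.negSucc (nat_lit 463620092822858649396187880226815999999999)), (.ofNat (nat_lit 0))⟩,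
    ⟨nat_lit 2, nat_lit 0, nat_lit 1, (.ofNat (nat_lit 16)), (.negSucc (nat_lit 549755813887999)), (.ofNat (nat_lit 120279437284502097135725017355140140065026473984000000)), (.ofNat (nat_lit 0)), (.ofNat (nat_lit 0)), (.negSucc (nat_lit 549755813888031)), (.negSucc (nat_lit 549755813887967)), (.ofNat (nat_lit 1166681731337882442831654141516840960000000)), (.ofNat (nat_lit 151935423677903115438825616179200000000)), (.ofNat (nat_lit 151935423677903115438825616179200000000)), (.ofNat (nat_lit 1166681731337882442831654141516840960000000)), (.ofNat (nat_lit 58874976675187457232544926269440000000))⟩,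
    ⟨nat_lit 1, nat_lit 5, nat_lit 11, (.ofNat (nat_lit 16)), (.ofNat (nat_lit 1099511627776000)), (.negSucc (nat_lit 38970535573868525222648435794674483988884426326015999999)), (.ofNat (nat_lit 0)), (.ofNat (nat_lit 0)), (.ofNat (nat_lit 1099511627775968)), (.ofNat (nat_lit 1099511627776032)), (.ofNat (nat_lit 1165587796287401540400494597080350720000000)), (.ofNat (nat_lit 0)), (.ofNat (nat_lit 0)), (.ofNat (nat_lit 1165587796287401540400494597080350720000000)), (.ofNat (nat_lit 68370940655056401947471527280640000000))⟩,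
    ⟨nat_lit 2, nat_lit 3, nat_lit 2, (.ofNat (nat_lit 16)), (.ofNat (nat_lit 0)), (.ofNat (nat_lit 192567368722960944286842362861193289697970024873984000000)), (.ofNat (nat_lit 0)), (.ofNat (nat_lit 0)), (.negSucc (nat_lit 31)), (.ofNat (nat_lit 32)), (.negSucc (nat_lit 463620092822858649396187880226815999999999)), (.negSucc (nat_lit 669305928385898804131114604392611839999999)), (.negSucc (nat_lit 669305928385898804131114604392611839999999)), (.negSucc (nat_lit 463620092822858649396187880226815999999999)), (.ofNat (nat_lit 11395156775842733657911921213440000000))⟩,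
    ⟨nat_lit 0, nat_lit 0, nat_lit 4, (.ofNat (nat_lit 16)), (.negSucc (nat_lit 274877906943999)), (.ofNat (nat_lit 320815311817243760839826551986813556551792652713984000000)), (.ofNat (nat_lit 0)), (.ofNat (nat_lit 4698415265763585014397134712984329823191040000000000)), (.negSucc (nat_lit 274877906944031)), (.negSucc (nat_lit 274877906943967)), (.ofNat (nat_lit 1166681731337882442831654141516840960000000)), (.negSucc (nat_lit 448513370697169996775413218960998399999999)), (.negSucc (nat_lit 448513370697169996775413218960998399999999)), (.ofNat (nat_lit 1166681731337882442831654141516840960000000)), (.ofNat (nat_lit 68370940655056401947471527280640000000))⟩,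
    ⟨nat_lit 0, nat_lit 2, nat_lit 5, (.ofNat (nat_lit 16)), (.ofNat (nat_lit 824633720832000)), (.negSucc (nat_lit 359364869376818914524417846142501903291927826006015999999)), (.ofNat (nat_lit 0)), (.negSucc (nat_lit 4698415265763585014397134712984329823191039999999999)), (.ofNat (nat_lit 824633720831968)), (.ofNat (nat_lit 824633720832032)), (.negSucc (nat_lit 669305928385898804131114604392611839999999)), (.ofNat (nat_lit 1165587796287401540400494597080350720000000)), (.negSucc (nat_lit 669305928385898804131114604392611839999999)), (.ofNat (nat_lit 1165587796287401540400494597080350720000000)), (.ofNat (nat_lit 56975783879213668289559606067200000000))⟩,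
    ⟨nat_lit 1, nat_lit 9, nat_lit 8, (.ofNat (nat_lit 16)), (.ofNat (nat_lit 2199023255552000)), (.ofNat (nat_lit 5283394277483120579086425767073974339721925685673984000000)), (.ofNat (nat_lit 0)), (.ofNat (nat_lit 0)), (.ofNat (nat_lit 2199023255551968)), (.ofNat (nat_lit 2199023255552032)), (.ofNat (nat_lit 2176930750456995838007493428615577600000000)), (.ofNat (nat_lit 1510861046595436370235225809847582720000000)), (.ofNat (nat_lit 1510861046595436370235225809847582720000000)), (.ofNat (nat_lit 2176930750456995838007493428615577600000000)), (.ofNat (nat_lit 8546367581882050243433940910080000000))⟩,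
    ⟨nat_lit 2, nat_lit 9, nat_lit 6, (.ofNat (nat_lit 16)), (.ofNat (nat_lit 1388133430067200)), (.ofNat (nat_lit 3518143281152552526157249489789205813191173665193984000000)), (.ofNat (nat_lit 0)), (.ofNat (nat_lit 0)), (.ofNat (nat_lit 1388133430067168)), (.ofNat (nat_lit 1388133430067232)), (.ofNat (nat_lit 2176930750456995838007493428615577600000000)), (.ofNat (nat_lit 2198809451466613886630684317345382400000000)), (.ofNat (nat_lit 2176930750456995838007493428615577600000000)), (.ofNat (nat_lit 2198809451466613886630684317345382400000000)), (.ofNat (nat_lit 0))⟩,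
    ⟨nat_lit 0, nat_lit 6, nat_lit 7, (.ofNat (nat_lit 16)), (.ofNat (nat_lit 1429365116108800)), (.ofNat (nat_lit 3608803902120726662595056601210951441459467973033984000000)), (.ofNat (nat_lit 0)), (.ofNat (nat_lit 0)), (.ofNat (nat_lit 1429365116108768)), (.ofNat (nat_lit 1429365116108832)), (.ofNat (nat_lit 2198809451466613886630684317345382400000000)), (.ofNat (nat_lit 3838002753671591123321314183898726400000000)), (.ofNat (nat_lit 2198809451466613886630684317345382400000000)), (.ofNat (nat_lit 3838002753671591123321314183898726400000000)), (.ofNat (nat_lit 21365918954705125608584852275200000000))⟩,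
    ⟨nat_lit 0, nat_lit 7, nat_lit 8, (.ofNat (nat_lit 16)), (.ofNat (nat_lit 1649267441664000)), (.ofNat (nat_lit 4452789633140370965901242703973752576258920870313984000000)), (.ofNat (nat_lit 0)), (.negSucc (nat_lit 2349207632881792507198567356492164911595519999999999)), (.ofNat (nat_lit 1649267441663968)), (.ofNat (nat_lit 1649267441664032)), (.ofNat (nat_lit 3838002753671591123321314183898726400000000)), (.ofNat (nat_lit 1510861046595436370235225809847582720000000)), (.ofNat (nat_lit 1510861046595436370235225809847582720000000)), (.ofNat (nat_lit 3838002753671591123321314183898726400000000)), (.ofNat (nat_lit 51278205491292301460603645460480000000))⟩,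
    ⟨nat_lit 1, nat_lit 1, nat_lit 4, (.ofNat (nat_lit 16)), (.ofNat (nat_lit 439804651110400)), (.ofNat (nat_lit 270628725788936817596433328170638694407139753984000000)), (.ofNat (nat_lit 0)), (.ofNat (nat_lit 4698415265763585014397134712984329823191040000000000)), (.ofNat (nat_lit 439804651110368)), (.ofNat (nat_lit 439804651110432)), (.ofNat (nat_lit 151935423677903115438825616179200000000)), (.negSucc (nat_lit 448513370697169996775413218960998399999999)), (.negSucc (nat_lit 448513370697169996775413218960998399999999)), (.ofNat (nat_lit 151935423677903115438825616179200000000)), (.ofNat (nat_lit 18991927959737889429853202022400000000))⟩,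
    ⟨nat_lit 0, nat_lit 10, nat_lit 11, (.ofNat (nat_lit 16)), (.ofNat (nat_lit 494780232499200)), (.negSucc (nat_lit 38970535573868525222648435794674483988884426326015999999)), (.ofNat (nat_lit 0)), (.ofNat (nat_lit 0)), (.ofNat (nat_lit 494780232499168)), (.ofNat (nat_lit 494780232499232)), (.negSucc (nat_lit 474038521875057720169135922479103999999999)), (.ofNat (nat_lit 0)), (.negSucc (nat_lit 474038521875057720169135922479103999999999)), (.ofNat (nat_lit 0)), (.ofNat (nat_lit 0))⟩]
  es := [
    ⟨nat_lit 1, nat_lit 4, (.negSucc (nat_lit 549755813887999)), (.negSucc (nat_lit 274877906943999)), (.negSucc (nat_lit 549755813887967)), (.negSucc (nat_lit 274877906944031)), (.ofNat (nat_lit 1166681731337882442831654141516840960000000)), (.ofNat (nat_lit 17092735163764100486867881820160000000)), (.ofNat (nat_lit 9396830531527170028794269425968659646382080000000000))⟩,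
    ⟨nat_lit 1, nat_lit 10, (.negSucc (nat_lit 549755813887999)), (.ofNat (nat_lit 439804651110400)), (.negSucc (nat_lit 549755813887967)), (.ofNat (nat_lit 439804651110368)), (.ofNat (nat_lit 151935423677903115438825616179200000000)), (.ofNat (nat_lit 4747981989934472357463300505600000000)), (.ofNat (nat_lit 2610230703201991674665074840546849901772800000000000))⟩,
    ⟨nat_lit 3, nat_lit 5, (.ofNat (nat_lit 0)), (.ofNat (nat_lit 824633720832000)), (.ofNat (nat_lit 32)), (.ofNat (nat_lit 824633720831968)), (.negSucc (nat_lit 669305928385898804131114604392611839999999)), (.negSucc (nat_lit 5697578387921366828955960606719999999)), (.ofNat (nat_lit 0))⟩,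
    ⟨nat_lit 3, nat_lit 0, (.ofNat (nat_lit 0)), (.ofNat (nat_lit 288621802291200)), (.ofNat (nat_lit 32)), (.ofNat (nat_lit 288621802291168)), (.negSucc (nat_lit 463620092822858649396187880226815999999999)), (.ofNat (nat_lit 0)), (.ofNat (nat_lit 0))⟩,
    ⟨nat_lit 4, nat_lit 10, (.negSucc (nat_lit 274877906943999)), (.ofNat (nat_lit 439804651110400)), (.negSucc (nat_lit 274877906943967)), (.ofNat (nat_lit 439804651110368)), (.negSucc (nat_lit 448513370697169996775413218960998399999999)), (.ofNat (nat_lit 0)), (.ofNat (nat_lit 4698415265763585014397134712984329823191040000000000))⟩,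
    ⟨nat_lit 5, nat_lit 2, (.ofNat (nat_lit 824633720832000)), (.ofNat (nat_lit 1099511627776000)), (.ofNat (nat_lit 824633720832032)), (.ofNat (nat_lit 1099511627775968)), (.ofNat (nat_lit 1165587796287401540400494597080350720000000)), (.ofNat (nat_lit 17092735163764100486867881820160000000)), (.negSucc (nat_lit 18793661063054340057588538851937319292764159999999999))⟩,
    ⟨nat_lit 7, nat_lit 8, (.ofNat (nat_lit 1388133430067200)), (.ofNat (nat_lit 1429365116108800)), (.ofNat (nat_lit 1388133430067232)), (.ofNat (nat_lit 1429365116108768)), (.ofNat (nat_lit 2198809451466613886630684317345382400000000)), (.ofNat (nat_lit 0)), (.ofNat (nat_lit 0))⟩,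
    ⟨nat_lit 8, nat_lit 9, (.ofNat (nat_lit 1429365116108800)), (.ofNat (nat_lit 1649267441664000)), (.ofNat (nat_lit 1429365116108832)), (.ofNat (nat_lit 1649267441663968)), (.ofNat (nat_lit 3838002753671591123321314183898726400000000)), (.negSucc (nat_lit 10682959477352562804292426137599999999)), (.ofNat (nat_lit 15269849613731651296790687817199071925370880000000000))⟩,
    ⟨nat_lit 9, nat_lit 6, (.ofNat (nat_lit 1649267441664000)), (.ofNat (nat_lit 2199023255552000)), (.ofNat (nat_lit 1649267441664032)), (.ofNat (nat_lit 2199023255551968)), (.ofNat (nat_lit 1510861046595436370235225809847582720000000)), (.ofNat (nat_lit 4273183790941025121716970455040000000)), (.negSucc (nat_lit 9396830531527170028794269425968659646382079999999999))⟩,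
    ⟨nat_lit 7, nat_lit 6, (.ofNat (nat_lit 1388133430067200)), (.ofNat (nat_lit 2199023255552000)), (.ofNat (nat_lit 1388133430067232)), (.ofNat (nat_lit 2199023255551968)), (.ofNat (nat_lit 2176930750456995838007493428615577600000000)), (.ofNat (nat_lit 0)), (.ofNat (nat_lit 0))⟩,
    ⟨nat_lit 0, nat_lit 11, (.ofNat (nat_lit 288621802291200)), (.ofNat (nat_lit 494780232499200)), (.ofNat (nat_lit 288621802291232)), (.ofNat (nat_lit 494780232499168)), (.negSucc (nat_lit 474038521875057720169135922479103999999999)), (.ofNat (nat_lit 0)), (.ofNat (nat_lit 0))⟩,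
    ⟨nat_lit 11, nat_lit 2, (.ofNat (nat_lit 494780232499200)), (.ofNat (nat_lit 1099511627776000)), (.ofNat (nat_lit 494780232499232)), (.ofNat (nat_lit 1099511627775968)), (.ofNat (nat_lit 0)), (.ofNat (nat_lit 0)), (.ofNat (nat_lit 0))⟩]

theorem ok267 : stOK 11 11 S267 = true := by decide +kernel

def S268 : SD where
  vs := [
    ⟨nat_lit 0, nat_lit 3, nat_lit 10, (.ofNat (nat_lit 16)), (.ofNat (nat_lit 288621802291200)), (.ofNat (nat_lit 58756501954014043076811966235399576333489205673984000000)), (.ofNat (nat_lit 0)), (.ofNat (nat_lit 0)), (.ofNat (nat_lit 288621802291168)), (.ofNat (nat_lit 288621802291232)), (.negSucc (nat_lit 463620092822858649396187880226815999999999)), (.negSucc (nat_lit 474038521875057720169135922479103999999999)), (.negSucc (nat_lit 474038521875057720169135922479103999999999)), (.negSucc (nat_lit 463620092822858649396187880226815999999999)), (.ofNat (nat_lit 0))⟩,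
    ⟨nat_lit 2, nat_lit 0, nat_lit 1, (.ofNat (nat_lit 16)), (.negSucc (nat_lit 549755813887999)), (.ofNat (nat_lit 120279437284502097135725017355140140065026473984000000)), (.ofNat (nat_lit 0)), (.ofNat (nat_lit 0)), (.negSucc (nat_lit 549755813888031)), (.negSucc (nat_lit 549755813887967)), (.ofNat (nat_lit 1166681731337882442831654141516840960000000)), (.ofNat (nat_lit 151935423677903115438825616179200000000)), (.ofNat (nat_lit 151935423677903115438825616179200000000)), (.ofNat (nat_lit 1166681731337882442831654141516840960000000)), (.ofNat (nat_lit 58874976675187457232544926269440000000))⟩,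
    ⟨nat_lit 1, nat_lit 5, nat_lit 11, (.ofNat (nat_lit 16)), (.ofNat (nat_lit 1099511627776000)), (.negSucc (nat_lit 38970535573868525222648435794674483988884426326015999999)), (.ofNat (nat_lit 0)), (.ofNat (nat_lit 0)), (.ofNat (nat_lit 1099511627775968)), (.ofNat (nat_lit 1099511627776032)), (.ofNat (nat_lit 1165587796287401540400494597080350720000000)), (.ofNat (nat_lit 0)), (.ofNat (nat_lit 0)), (.ofNat (nat_lit 1165587796287401540400494597080350720000000)), (.ofNat (nat_lit 68370940655056401947471527280640000000))⟩,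
    ⟨nat_lit 2, nat_lit 3, nat_lit 2, (.ofNat (nat_lit 16)), (.ofNat (nat_lit 0)), (.ofNat (nat_lit 192567368722960944286842362861193289697970024873984000000)), (.ofNat (nat_lit 0)), (.ofNat (nat_lit 0)), (.negSucc (nat_lit 31)), (.ofNat (nat_lit 32)), (.negSucc (nat_lit 463620092822858649396187880226815999999999)), (.negSucc (nat_lit 669305928385898804131114604392611839999999)), (.negSucc (nat_lit 669305928385898804131114604392611839999999)), (.negSucc (nat_lit 463620092822858649396187880226815999999999)), (.ofNat (nat_lit 11395156775842733657911921213440000000))⟩,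
    ⟨nat_lit 0, nat_lit 0, nat_lit 4, (.ofNat (nat_lit 16)), (.negSucc (nat_lit 274877906943999)), (.ofNat (nat_lit 320815311817243760839826551986813556551792652713984000000)), (.ofNat (nat_lit 0)), (.ofNat (nat_lit 4698415265763585014397134712984329823191040000000000)), (.negSucc (nat_lit 274877906944031)), (.negSucc (nat_lit 274877906943967)), (.ofNat (nat_lit 1166681731337882442831654141516840960000000)), (.negSucc (nat_lit 448513370697169996775413218960998399999999)), (.negSucc (nat_lit 448513370697169996775413218960998399999999)), (.ofNat (nat_lit 1166681731337882442831654141516840960000000)), (.ofNat (nat_lit 68370940655056401947471527280640000000))⟩,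
    ⟨nat_lit 0, nat_lit 2, nat_lit 5, (.ofNat (nat_lit 16)), (.ofNat (nat_lit 824633720832000)), (.negSucc (nat_lit 359364869376818914524417846142501903291927826006015999999)), (.ofNat (nat_lit 0)), (.negSucc (nat_lit 4698415265763585014397134712984329823191039999999999)), (.ofNat (nat_lit 824633720831968)), (.ofNat (nat_lit 824633720832032)), (.negSucc (nat_lit 669305928385898804131114604392611839999999)), (.ofNat (nat_lit 1165587796287401540400494597080350720000000)), (.negSucc (nat_lit 669305928385898804131114604392611839999999)), (.ofNat (nat_lit 1165587796287401540400494597080350720000000)), (.ofNat (nat_lit 56975783879213668289559606067200000000))⟩,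
    ⟨nat_lit 1, nat_lit 9, nat_lit 8, (.ofNat (nat_lit 16)), (.ofNat (nat_lit 2199023255552000)), (.ofNat (nat_lit 5283394277483120579086425767073974339721925685673984000000)), (.ofNat (nat_lit 0)), (.ofNat (nat_lit 0)), (.ofNat (nat_lit 2199023255551968)), (.ofNat (nat_lit 2199023255552032)), (.ofNat (nat_lit 2176930750456995838007493428615577600000000)), (.ofNat (nat_lit 1510861046595436370235225809847582720000000)), (.ofNat (nat_lit 1510861046595436370235225809847582720000000)), (.ofNat (nat_lit 2176930750456995838007493428615577600000000)), (.ofNat (nat_lit 8546367581882050243433940910080000000))⟩,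
    ⟨nat_lit 2, nat_lit 9, nat_lit 6, (.ofNat (nat_lit 16)), (.ofNat (nat_lit 1388133430067200)), (.ofNat (nat_lit 3518143281152552526157249489789205813191173665193984000000)), (.ofNat (nat_lit 0)), (.ofNat (nat_lit 0)), (.ofNat (nat_lit 1388133430067168)), (.ofNat (nat_lit 1388133430067232)), (.ofNat (nat_lit 2176930750456995838007493428615577600000000)), (.ofNat (nat_lit 2198809451466613886630684317345382400000000)), (.ofNat (nat_lit 2176930750456995838007493428615577600000000)), (.ofNat (nat_lit 2198809451466613886630684317345382400000000)), (.ofNat (nat_lit 0))⟩,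
    ⟨nat_lit 0, nat_lit 6, nat_lit 7, (.ofNat (nat_lit 16)), (.ofNat (nat_lit 1429365116108800)), (.ofNat (nat_lit 3608803902120726662595056601210951441459467973033984000000)), (.ofNat (nat_lit 0)), (.ofNat (nat_lit 0)), (.ofNat (nat_lit 1429365116108768)), (.ofNat (nat_lit 1429365116108832)), (.ofNat (nat_lit 2198809451466613886630684317345382400000000)), (.ofNat (nat_lit 3838002753671591123321314183898726400000000)), (.ofNat (nat_lit 2198809451466613886630684317345382400000000)), (.ofNat (nat_lit 3838002753671591123321314183898726400000000)), (.ofNat (nat_lit 21365918954705125608584852275200000000))⟩,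
    ⟨nat_lit 0, nat_lit 7, nat_lit 8, (.ofNat (nat_lit 16)), (.ofNat (nat_lit 1649267441664000)), (.ofNat (nat_lit 4452789633140370965901242703973752576258920870313984000000)), (.ofNat (nat_lit 0)), (.negSucc (nat_lit 2349207632881792507198567356492164911595519999999999)), (.ofNat (nat_lit 1649267441663968)), (.ofNat (nat_lit 1649267441664032)), (.ofNat (nat_lit 3838002753671591123321314183898726400000000)), (.ofNat (nat_lit 1510861046595436370235225809847582720000000)), (.ofNat (nat_lit 1510861046595436370235225809847582720000000)), (.ofNat (nat_lit 3838002753671591123321314183898726400000000)), (.ofNat (nat_lit 51278205491292301460603645460480000000))⟩,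
    ⟨nat_lit 1, nat_lit 1, nat_lit 12, (.ofNat (nat_lit 16)), (.ofNat (nat_lit 439804651110400)), (.ofNat (nat_lit 270628725788936817596433328170638694407139753984000000)), (.ofNat (nat_lit 0)), (.ofNat (nat_lit 4698415265763585014397134712984329823191040000000000)), (.ofNat (nat_lit 439804651110368)), (.ofNat (nat_lit 439804651110432)), (.ofNat (nat_lit 151935423677903115438825616179200000000)), (.negSucc (nat_lit 448513370697169996775413218960998399999999)), (.negSucc (nat_lit 448513370697169996775413218960998399999999)), (.ofNat (nat_lit 151935423677903115438825616179200000000)), (.ofNat (nat_lit 18991927959737889429853202022400000000))⟩,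
    ⟨nat_lit 0, nat_lit 10, nat_lit 11, (.ofNat (nat_lit 16)), (.ofNat (nat_lit 494780232499200)), (.negSucc (nat_lit 38970535573868525222648435794674483988884426326015999999)), (.ofNat (nat_lit 0)), (.ofNat (nat_lit 0)), (.ofNat (nat_lit 494780232499168)), (.ofNat (nat_lit 494780232499232)), (.negSucc (nat_lit 474038521875057720169135922479103999999999)), (.ofNat (nat_lit 0)), (.negSucc (nat_lit 474038521875057720169135922479103999999999)), (.ofNat (nat_lit 0)), (.ofNat (nat_lit 0))⟩,
    ⟨nat_lit 0, nat_lit 4, nat_lit 12, (.ofNat (nat_lit 16)), (.negSucc (nat_lit 54975581388799)), (.ofNat (nat_lit 222186178558334584217601900091846504903366341033984000000)), (.ofNat (nat_lit 0)), (.ofNat (nat_lit 4698415265763585014397134712984329823191040000000000)), (.negSucc (nat_lit 54975581388831)), (.negSucc (nat_lit 54975581388767)), (.negSucc (nat_lit 448513370697169996775413218960998399999999)), (.negSucc (nat_lit 448513370697169996775413218960998399999999)), (.negSucc (nat_lit 448513370697169996775413218960998399999999)), (.negSucc (nat_lit 448513370697169996775413218960998399999999)),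 (.ofNat (nat_lit 0))⟩]
  es := [
    ⟨nat_lit 1, nat_lit 4, (.negSucc (nat_lit 549755813887999)), (.negSucc (nat_lit 274877906943999)), (.negSucc (nat_lit 549755813887967)), (.negSucc (nat_lit 274877906944031)), (.ofNat (nat_lit 1166681731337882442831654141516840960000000)), (.ofNat (nat_lit 17092735163764100486867881820160000000)), (.ofNat (nat_lit 9396830531527170028794269425968659646382080000000000))⟩,
    ⟨nat_lit 1, nat_lit 10, (.negSucc (nat_lit 549755813887999)), (.ofNat (nat_lit 439804651110400)), (.negSucc (nat_lit 549755813887967)), (.ofNat (nat_lit 439804651110368)), (.ofNat (nat_lit 151935423677903115438825616179200000000)), (.ofNat (nat_lit 4747981989934472357463300505600000000)), (.ofNat (nat_lit 2610230703201991674665074840546849901772800000000000))⟩,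
    ⟨nat_lit 3, nat_lit 5, (.ofNat (nat_lit 0)), (.ofNat (nat_lit 824633720832000)), (.ofNat (nat_lit 32)), (.ofNat (nat_lit 824633720831968)), (.negSucc (nat_lit 669305928385898804131114604392611839999999)), (.negSucc (nat_lit 5697578387921366828955960606719999999)), (.ofNat (nat_lit 0))⟩,
    ⟨nat_lit 3, nat_lit 0, (.ofNat (nat_lit 0)), (.ofNat (nat_lit 288621802291200)), (.ofNat (nat_lit 32)), (.ofNat (nat_lit 288621802291168)), (.negSucc (nat_lit 463620092822858649396187880226815999999999)), (.ofNat (nat_lit 0)), (.ofNat (nat_lit 0))⟩,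
    ⟨nat_lit 4, nat_lit 12, (.negSucc (nat_lit 274877906943999)), (.negSucc (nat_lit 54975581388799)), (.negSucc (nat_lit 274877906943967)), (.negSucc (nat_lit 54975581388831)), (.negSucc (nat_lit 448513370697169996775413218960998399999999)), (.ofNat (nat_lit 0)), (.ofNat (nat_lit 4698415265763585014397134712984329823191040000000000))⟩,
    ⟨nat_lit 5, nat_lit 2, (.ofNat (nat_lit 824633720832000)), (.ofNat (nat_lit 1099511627776000)), (.ofNat (nat_lit 824633720832032)), (.ofNat (nat_lit 1099511627775968)), (.ofNat (nat_lit 1165587796287401540400494597080350720000000)), (.ofNat (nat_lit 17092735163764100486867881820160000000)), (.negSucc (nat_lit 18793661063054340057588538851937319292764159999999999))⟩,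
    ⟨nat_lit 7, nat_lit 8, (.ofNat (nat_lit 1388133430067200)), (.ofNat (nat_lit 1429365116108800)), (.ofNat (nat_lit 1388133430067232)), (.ofNat (nat_lit 1429365116108768)), (.ofNat (nat_lit 2198809451466613886630684317345382400000000)), (.ofNat (nat_lit 0)), (.ofNat (nat_lit 0))⟩,
    ⟨nat_lit 8, nat_lit 9, (.ofNat (nat_lit 1429365116108800)), (.ofNat (nat_lit 1649267441664000)), (.ofNat (nat_lit 1429365116108832)), (.ofNat (nat_lit 1649267441663968)), (.ofNat (nat_lit 3838002753671591123321314183898726400000000)), (.negSucc (nat_lit 10682959477352562804292426137599999999)), (.ofNat (nat_lit 15269849613731651296790687817199071925370880000000000))⟩,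
    ⟨nat_lit 9, nat_lit 6, (.ofNat (nat_lit 1649267441664000)), (.ofNat (nat_lit 2199023255552000)), (.ofNat (nat_lit 1649267441664032)), (.ofNat (nat_lit 2199023255551968)), (.ofNat (nat_lit 1510861046595436370235225809847582720000000)), (.ofNat (nat_lit 4273183790941025121716970455040000000)), (.negSucc (nat_lit 9396830531527170028794269425968659646382079999999999))⟩,
    ⟨nat_lit 7, nat_lit 6, (.ofNat (nat_lit 1388133430067200)), (.ofNat (nat_lit 2199023255552000)), (.ofNat (nat_lit 1388133430067232)), (.ofNat (nat_lit 2199023255551968)), (.ofNat (nat_lit 2176930750456995838007493428615577600000000)), (.ofNat (nat_lit 0)), (.ofNat (nat_lit 0))⟩,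
    ⟨nat_lit 0, nat_lit 11, (.ofNat (nat_lit 288621802291200)), (.ofNat (nat_lit 494780232499200)), (.ofNat (nat_lit 288621802291232)), (.ofNat (nat_lit 494780232499168)), (.negSucc (nat_lit 474038521875057720169135922479103999999999)), (.ofNat (nat_lit 0)), (.ofNat (nat_lit 0))⟩,
    ⟨nat_lit 11, nat_lit 2, (.ofNat (nat_lit 494780232499200)), (.ofNat (nat_lit 1099511627776000)), (.ofNat (nat_lit 494780232499232)), (.ofNat (nat_lit 1099511627775968)), (.ofNat (nat_lit 0)), (.ofNat (nat_lit 0)), (.ofNat (nat_lit 0))⟩,
    ⟨nat_lit 12, nat_lit 10, (.negSucc (nat_lit 54975581388799)), (.ofNat (nat_lit 439804651110400)), (.negSucc (nat_lit 54975581388767)), (.ofNat (nat_lit 439804651110368)), (.negSucc (nat_lit 448513370697169996775413218960998399999999)), (.ofNat (nat_lit 0)), (.ofNat (nat_lit 4698415265763585014397134712984329823191040000000000))⟩]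

theorem ok268 : stOK 12 12 S268 = true := by decide +kernel

def S269 : SD where
  vs := [
    ⟨nat_lit 0, nat_lit 3, nat_lit 10, (.ofNat (nat_lit 16)), (.ofNat (nat_lit 288621802291200)), (.ofNat (nat_lit 58756501954014043076811966235399576333489205673984000000)), (.ofNat (nat_lit 0)), (.ofNat (nat_lit 0)), (.ofNat (nat_lit 288621802291168)), (.ofNat (nat_lit 288621802291232)), (.negSucc (nat_lit 463620092822858649396187880226815999999999)), (.negSucc (nat_lit 474038521875057720169135922479103999999999)), (.negSucc (nat_lit 474038521875057720169135922479103999999999)), (.negSucc (nat_lit 463620092822858649396187880226815999999999)), (.ofNat (nat_lit 0))⟩,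
    ⟨nat_lit 2, nat_lit 0, nat_lit 1, (.ofNat (nat_lit 16)), (.negSucc (nat_lit 549755813887999)), (.ofNat (nat_lit 120279437284502097135725017355140140065026473984000000)), (.ofNat (nat_lit 0)), (.ofNat (nat_lit 0)), (.negSucc (nat_lit 549755813888031)), (.negSucc (nat_lit 549755813887967)), (.ofNat (nat_lit 1167228698863122894047233913735086080000000)), (.ofNat (nat_lit 303870847355806230877651232358400000000)), (.ofNat (nat_lit 303870847355806230877651232358400000000)), (.ofNat (nat_lit 1167228698863122894047233913735086080000000)), (.ofNat (nat_lit 58874976675187457232544926269440000000))⟩,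
    ⟨nat_lit 1, nat_lit 5, nat_lit 11, (.ofNat (nat_lit 16)), (.ofNat (nat_lit 1099511627776000)), (.negSucc (nat_lit 38970535573868525222648435794674483988884426326015999999)), (.ofNat (nat_lit 0)), (.ofNat (nat_lit 0)), (.ofNat (nat_lit 1099511627775968)), (.ofNat (nat_lit 1099511627776032)), (.ofNat (nat_lit 1166134763812641991616074369298595840000000)), (.ofNat (nat_lit 0)), (.ofNat (nat_lit 0)), (.ofNat (nat_lit 1166134763812641991616074369298595840000000)), (.ofNat (nat_lit 68370940655056401947471527280640000000))⟩,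
    ⟨nat_lit 2, nat_lit 3, nat_lit 2, (.ofNat (nat_lit 16)), (.ofNat (nat_lit 0)), (.ofNat (nat_lit 192567368722960944286842362861193289697970024873984000000)), (.ofNat (nat_lit 0)), (.ofNat (nat_lit 0)), (.negSucc (nat_lit 31)), (.ofNat (nat_lit 32)), (.negSucc (nat_lit 463620092822858649396187880226815999999999)), (.negSucc (nat_lit 669488250894312287869641195132026879999999)), (.negSucc (nat_lit 669488250894312287869641195132026879999999)), (.negSucc (nat_lit 463620092822858649396187880226815999999999)), (.ofNat (nat_lit 11395156775842733657911921213440000000))⟩,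
    ⟨nat_lit 0, nat_lit 0, nat_lit 4, (.ofNat (nat_lit 16)), (.negSucc (nat_lit 274877906943999)), (.ofNat (nat_lit 320965661105748195560287260297629055106134765993984000000)), (.ofNat (nat_lit 0)), (.ofNat (nat_lit 4698415265763585014397134712984329823191040000000000)), (.negSucc (nat_lit 274877906944031)), (.negSucc (nat_lit 274877906943967)), (.ofNat (nat_lit 1167228698863122894047233913735086080000000)), (.negSucc (nat_lit 448513370697169996775413218960998399999999)), (.negSucc (nat_lit 448513370697169996775413218960998399999999)), (.ofNat (nat_lit 1167228698863122894047233913735086080000000)), (.ofNat (nat_lit 68370940655056401947471527280640000000))⟩,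
    ⟨nat_lit 0, nat_lit 2, nat_lit 5, (.ofNat (nat_lit 16)), (.ofNat (nat_lit 824633720832000)), (.negSucc (nat_lit 359515218665323349244878554453317401846269939286015999999)), (.ofNat (nat_lit 0)), (.negSucc (nat_lit 4698415265763585014397134712984329823191039999999999)), (.ofNat (nat_lit 824633720831968)), (.ofNat (nat_lit 824633720832032)), (.negSucc (nat_lit 669488250894312287869641195132026879999999)), (.ofNat (nat_lit 1166134763812641991616074369298595840000000)), (.negSucc (nat_lit 669488250894312287869641195132026879999999)), (.ofNat (nat_lit 1166134763812641991616074369298595840000000)), (.ofNat (nat_lit 56975783879213668289559606067200000000))⟩,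
    ⟨nat_lit 1, nat_lit 9, nat_lit 8, (.ofNat (nat_lit 16)), (.ofNat (nat_lit 2199023255552000)), (.ofNat (nat_lit 5283394277483120579086425767073974339721925685673984000000)), (.ofNat (nat_lit 0)), (.ofNat (nat_lit 0)), (.ofNat (nat_lit 2199023255551968)), (.ofNat (nat_lit 2199023255552032)), (.ofNat (nat_lit 2176930750456995838007493428615577600000000)), (.ofNat (nat_lit 1510997788476746483039120752902144000000000)), (.ofNat (nat_lit 1510997788476746483039120752902144000000000)), (.ofNat (nat_lit 2176930750456995838007493428615577600000000)), (.ofNat (nat_lit 8546367581882050243433940910080000000))⟩,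
    ⟨nat_lit 2, nat_lit 9, nat_lit 6, (.ofNat (nat_lit 16)), (.ofNat (nat_lit 1388133430067200)), (.ofNat (nat_lit 3518143281152552526157249489789205813191173665193984000000)), (.ofNat (nat_lit 0)), (.ofNat (nat_lit 0)), (.ofNat (nat_lit 1388133430067168)), (.ofNat (nat_lit 1388133430067232)), (.ofNat (nat_lit 2176930750456995838007493428615577600000000)), (.ofNat (nat_lit 2198809451466613886630684317345382400000000)), (.ofNat (nat_lit 2176930750456995838007493428615577600000000)), (.ofNat (nat_lit 2198809451466613886630684317345382400000000)), (.ofNat (nat_lit 0))⟩,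
    ⟨nat_lit 0, nat_lit 6, nat_lit 7, (.ofNat (nat_lit 16)), (.ofNat (nat_lit 1429365116108800)), (.ofNat (nat_lit 3608803902120726662595056601210951441459467973033984000000)), (.ofNat (nat_lit 0)), (.ofNat (nat_lit 0)), (.ofNat (nat_lit 1429365116108768)), (.ofNat (nat_lit 1429365116108832)), (.ofNat (nat_lit 2198809451466613886630684317345382400000000)), (.ofNat (nat_lit 3837660898968315841311576826262323200000000)), (.ofNat (nat_lit 2198809451466613886630684317345382400000000)), (.ofNat (nat_lit 3837660898968315841311576826262323200000000)), (.ofNat (nat_lit 21365918954705125608584852275200000000))⟩,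
    ⟨nat_lit 0, nat_lit 7, nat_lit 8, (.ofNat (nat_lit 16)), (.ofNat (nat_lit 1649267441664000)), (.ofNat (nat_lit 4452714458496118748541012349818344826981749813673984000000)), (.ofNat (nat_lit 0)), (.negSucc (nat_lit 2349207632881792507198567356492164911595519999999999)), (.ofNat (nat_lit 1649267441663968)), (.ofNat (nat_lit 1649267441664032)), (.ofNat (nat_lit 3837660898968315841311576826262323200000000)), (.ofNat (nat_lit 1510997788476746483039120752902144000000000)), (.ofNat (nat_lit 1510997788476746483039120752902144000000000)), (.ofNat (nat_lit 3837660898968315841311576826262323200000000)), (.ofNat (nat_lit 51278205491292301460603645460480000000))⟩,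
    ⟨nat_lit 1, nat_lit 1, nat_lit 12, (.ofNat (nat_lit 16)), (.ofNat (nat_lit 439804651110400)), (.ofNat (nat_lit 420978014293371538057141638986137248749253033984000000)), (.ofNat (nat_lit 0)), (.ofNat (nat_lit 4698415265763585014397134712984329823191040000000000)), (.ofNat (nat_lit 439804651110368)), (.ofNat (nat_lit 439804651110432)), (.ofNat (nat_lit 303870847355806230877651232358400000000)), (.negSucc (nat_lit 448513370697169996775413218960998399999999)), (.negSucc (nat_lit 448513370697169996775413218960998399999999)), (.ofNat (nat_lit 303870847355806230877651232358400000000)), (.ofNat (nat_lit 18991927959737889429853202022400000000))⟩,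
    ⟨nat_lit 0, nat_lit 10, nat_lit 11, (.ofNat (nat_lit 16)), (.ofNat (nat_lit 494780232499200)), (.negSucc (nat_lit 38970535573868525222648435794674483988884426326015999999)), (.ofNat (nat_lit 0)), (.ofNat (nat_lit 0)), (.ofNat (nat_lit 494780232499168)), (.ofNat (nat_lit 494780232499232)), (.negSucc (nat_lit 474038521875057720169135922479103999999999)), (.ofNat (nat_lit 0)), (.negSucc (nat_lit 474038521875057720169135922479103999999999)), (.ofNat (nat_lit 0)), (.ofNat (nat_lit 0))⟩,
    ⟨nat_lit 0, nat_lit 4, nat_lit 12, (.ofNat (nat_lit 16)), (.negSucc (nat_lit 54975581388799)), (.ofNat (nat_lit 222336527846839018938062608402662003457708454313984000000)), (.ofNat (nat_lit 0)), (.ofNat (nat_lit 4698415265763585014397134712984329823191040000000000)), (.negSucc (nat_lit 54975581388831)), (.negSucc (nat_lit 54975581388767)), (.negSucc (nat_lit 448513370697169996775413218960998399999999)), (.negSucc (nat_lit 448513370697169996775413218960998399999999)), (.negSucc (nat_lit 448513370697169996775413218960998399999999)), (.negSucc (nat_lit 448513370697169996775413218960998399999999)),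 (.ofNat (nat_lit 0))⟩]
  es := [
    ⟨nat_lit 1, nat_lit 4, (.negSucc (nat_lit 549755813887999)), (.negSucc (nat_lit 274877906943999)), (.negSucc (nat_lit 549755813887967)), (.negSucc (nat_lit 274877906944031)), (.ofNat (nat_lit 1167228698863122894047233913735086080000000)), (.ofNat (nat_lit 17092735163764100486867881820160000000)), (.ofNat (nat_lit 9396830531527170028794269425968659646382080000000000))⟩,
    ⟨nat_lit 1, nat_lit 10, (.negSucc (nat_lit 549755813887999)), (.ofNat (nat_lit 439804651110400)), (.negSucc (nat_lit 549755813887967)), (.ofNat (nat_lit 439804651110368)), (.ofNat (nat_lit 303870847355806230877651232358400000000)), (.ofNat (nat_lit 4747981989934472357463300505600000000)), (.ofNat (nat_lit 2610230703201991674665074840546849901772800000000000))⟩,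
    ⟨nat_lit 3, nat_lit 5, (.ofNat (nat_lit 0)), (.ofNat (nat_lit 824633720832000)), (.ofNat (nat_lit 32)), (.ofNat (nat_lit 824633720831968)), (.negSucc (nat_lit 669488250894312287869641195132026879999999)), (.negSucc (nat_lit 5697578387921366828955960606719999999)), (.ofNat (nat_lit 0))⟩,
    ⟨nat_lit 3, nat_lit 0, (.ofNat (nat_lit 0)), (.ofNat (nat_lit 288621802291200)), (.ofNat (nat_lit 32)), (.ofNat (nat_lit 288621802291168)), (.negSucc (nat_lit 463620092822858649396187880226815999999999)), (.ofNat (nat_lit 0)), (.ofNat (nat_lit 0))⟩,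
    ⟨nat_lit 4, nat_lit 12, (.negSucc (nat_lit 274877906943999)), (.negSucc (nat_lit 54975581388799)), (.negSucc (nat_lit 274877906943967)), (.negSucc (nat_lit 54975581388831)), (.negSucc (nat_lit 448513370697169996775413218960998399999999)), (.ofNat (nat_lit 0)), (.ofNat (nat_lit 4698415265763585014397134712984329823191040000000000))⟩,
    ⟨nat_lit 5, nat_lit 2, (.ofNat (nat_lit 824633720832000)), (.ofNat (nat_lit 1099511627776000)), (.ofNat (nat_lit 824633720832032)), (.ofNat (nat_lit 1099511627775968)), (.ofNat (nat_lit 1166134763812641991616074369298595840000000)), (.ofNat (nat_lit 17092735163764100486867881820160000000)), (.negSucc (nat_lit 18793661063054340057588538851937319292764159999999999))⟩,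
    ⟨nat_lit 7, nat_lit 8, (.ofNat (nat_lit 1388133430067200)), (.ofNat (nat_lit 1429365116108800)), (.ofNat (nat_lit 1388133430067232)), (.ofNat (nat_lit 1429365116108768)), (.ofNat (nat_lit 2198809451466613886630684317345382400000000)), (.ofNat (nat_lit 0)), (.ofNat (nat_lit 0))⟩,
    ⟨nat_lit 8, nat_lit 9, (.ofNat (nat_lit 1429365116108800)), (.ofNat (nat_lit 1649267441664000)), (.ofNat (nat_lit 1429365116108832)), (.ofNat (nat_lit 1649267441663968)), (.ofNat (nat_lit 3837660898968315841311576826262323200000000)), (.negSucc (nat_lit 10682959477352562804292426137599999999)), (.ofNat (nat_lit 15269849613731651296790687817199071925370880000000000))⟩,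
    ⟨nat_lit 9, nat_lit 6, (.ofNat (nat_lit 1649267441664000)), (.ofNat (nat_lit 2199023255552000)), (.ofNat (nat_lit 1649267441664032)), (.ofNat (nat_lit 2199023255551968)), (.ofNat (nat_lit 1510997788476746483039120752902144000000000)), (.ofNat (nat_lit 4273183790941025121716970455040000000)), (.negSucc (nat_lit 9396830531527170028794269425968659646382079999999999))⟩,
    ⟨nat_lit 7, nat_lit 6, (.ofNat (nat_lit 1388133430067200)), (.ofNat (nat_lit 2199023255552000)), (.ofNat (nat_lit 1388133430067232)), (.ofNat (nat_lit 2199023255551968)), (.ofNat (nat_lit 2176930750456995838007493428615577600000000)), (.ofNat (nat_lit 0)), (.ofNat (nat_lit 0))⟩,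
    ⟨nat_lit 0, nat_lit 11, (.ofNat (nat_lit 288621802291200)), (.ofNat (nat_lit 494780232499200)), (.ofNat (nat_lit 288621802291232)), (.ofNat (nat_lit 494780232499168)), (.negSucc (nat_lit 474038521875057720169135922479103999999999)), (.ofNat (nat_lit 0)), (.ofNat (nat_lit 0))⟩,
    ⟨nat_lit 11, nat_lit 2, (.ofNat (nat_lit 494780232499200)), (.ofNat (nat_lit 1099511627776000)), (.ofNat (nat_lit 494780232499232)), (.ofNat (nat_lit 1099511627775968)), (.ofNat (nat_lit 0)), (.ofNat (nat_lit 0)), (.ofNat (nat_lit 0))⟩,
    ⟨nat_lit 12, nat_lit 10, (.negSucc (nat_lit 54975581388799)), (.ofNat (nat_lit 439804651110400)), (.negSucc (nat_lit 54975581388767)), (.ofNat (nat_lit 439804651110368)), (.negSucc (nat_lit 448513370697169996775413218960998399999999)), (.ofNat (nat_lit 0)), (.ofNat (nat_lit 4698415265763585014397134712984329823191040000000000))⟩]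

theorem ok269 : stOK 12 12 S269 = true := by decide +kernel

def S270 : SD where
  vs := [
    ⟨nat_lit 0, nat_lit 3, nat_lit 10, (.ofNat (nat_lit 16)), (.ofNat (nat_lit 288621802291200)), (.ofNat (nat_lit 58756501954014043076811966235399576333489205673984000000)), (.ofNat (nat_lit 0)), (.ofNat (nat_lit 0)), (.ofNat (nat_lit 288621802291168)), (.ofNat (nat_lit 288621802291232)), (.negSucc (nat_lit 463620092822858649396187880226815999999999)), (.negSucc (nat_lit 474038521875057720169135922479103999999999)), (.negSucc (nat_lit 474038521875057720169135922479103999999999)), (.negSucc (nat_lit 463620092822858649396187880226815999999999)), (.ofNat (nat_lit 0))⟩,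
    ⟨nat_lit 2, nat_lit 0, nat_lit 1, (.ofNat (nat_lit 16)), (.negSucc (nat_lit 549755813887999)), (.ofNat (nat_lit 120279437284502097135725017355140140065026473984000000)), (.ofNat (nat_lit 0)), (.ofNat (nat_lit 0)), (.negSucc (nat_lit 549755813888031)), (.negSucc (nat_lit 549755813887967)), (.ofNat (nat_lit 1168322633913603796478393458171576320000000)), (.ofNat (nat_lit 0)), (.ofNat (nat_lit 0)), (.ofNat (nat_lit 1168322633913603796478393458171576320000000)), (.ofNat (nat_lit 77866904634925346662398128291840000000))⟩,
    ⟨nat_lit 1, nat_lit 5, nat_lit 11, (.ofNat (nat_lit 16)), (.ofNat (nat_lit 1099511627776000)), (.negSucc (nat_lit 38970535573868525222648435794674483988884426326015999999)), (.ofNat (nat_lit 0)), (.ofNat (nat_lit 0)), (.ofNat (nat_lit 1099511627775968)), (.ofNat (nat_lit 1099511627776032)), (.ofNat (nat_lit 1167228698863122894047233913735086080000000)), (.ofNat (nat_lit 0)), (.ofNat (nat_lit 0)), (.ofNat (nat_lit 1167228698863122894047233913735086080000000)), (.ofNat (nat_lit 68370940655056401947471527280640000000))⟩,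
    ⟨nat_lit 2, nat_lit 3, nat_lit 2, (.ofNat (nat_lit 16)), (.ofNat (nat_lit 0)), (.ofNat (nat_lit 192567368722960944286842362861193289697970024873984000000)), (.ofNat (nat_lit 0)), (.ofNat (nat_lit 0)), (.negSucc (nat_lit 31)), (.ofNat (nat_lit 32)), (.negSucc (nat_lit 463620092822858649396187880226815999999999)), (.negSucc (nat_lit 669852895911139255346694376610856959999999)), (.negSucc (nat_lit 669852895911139255346694376610856959999999)), (.negSucc (nat_lit 463620092822858649396187880226815999999999)), (.ofNat (nat_lit 11395156775842733657911921213440000000))⟩,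
    ⟨nat_lit 0, nat_lit 0, nat_lit 4, (.ofNat (nat_lit 16)), (.negSucc (nat_lit 274877906943999)), (.ofNat (nat_lit 321266359682757065001208676919260052214818992553984000000)), (.ofNat (nat_lit 0)), (.ofNat (nat_lit 4698415265763585014397134712984329823191040000000000)), (.negSucc (nat_lit 274877906944031)), (.negSucc (nat_lit 274877906943967)), (.ofNat (nat_lit 1168322633913603796478393458171576320000000)), (.negSucc (nat_lit 451248208323372252853312080052223999999999)), (.negSucc (nat_lit 451248208323372252853312080052223999999999)), (.ofNat (nat_lit 1168322633913603796478393458171576320000000)), (.ofNat (nat_lit 153834616473876904381810936381440000000))⟩,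
    ⟨nat_lit 0, nat_lit 2, nat_lit 5, (.ofNat (nat_lit 16)), (.ofNat (nat_lit 824633720832000)), (.negSucc (nat_lit 359815917242332218685799971074948398954954165846015999999)), (.ofNat (nat_lit 0)), (.negSucc (nat_lit 4698415265763585014397134712984329823191039999999999)), (.ofNat (nat_lit 824633720831968)), (.ofNat (nat_lit 824633720832032)), (.negSucc (nat_lit 669852895911139255346694376610856959999999)), (.ofNat (nat_lit 1167228698863122894047233913735086080000000)), (.negSucc (nat_lit 669852895911139255346694376610856959999999)), (.ofNat (nat_lit 1167228698863122894047233913735086080000000)), (.ofNat (nat_lit 56975783879213668289559606067200000000))⟩,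
    ⟨nat_lit 1, nat_lit 9, nat_lit 8, (.ofNat (nat_lit 16)), (.ofNat (nat_lit 2199023255552000)), (.ofNat (nat_lit 5283394277483120579086425767073974339721925685673984000000)), (.ofNat (nat_lit 0)), (.ofNat (nat_lit 0)), (.ofNat (nat_lit 2199023255551968)), (.ofNat (nat_lit 2199023255552032)), (.ofNat (nat_lit 2176930750456995838007493428615577600000000)), (.ofNat (nat_lit 1511271272239366708646910639011266560000000)), (.ofNat (nat_lit 1511271272239366708646910639011266560000000)), (.ofNat (nat_lit 2176930750456995838007493428615577600000000)), (.ofNat (nat_lit 8546367581882050243433940910080000000))⟩,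
    ⟨nat_lit 2, nat_lit 9, nat_lit 6, (.ofNat (nat_lit 16)), (.ofNat (nat_lit 1388133430067200)), (.ofNat (nat_lit 3518143281152552526157249489789205813191173665193984000000)), (.ofNat (nat_lit 0)), (.ofNat (nat_lit 0)), (.ofNat (nat_lit 1388133430067168)), (.ofNat (nat_lit 1388133430067232)), (.ofNat (nat_lit 2176930750456995838007493428615577600000000)), (.ofNat (nat_lit 2198809451466613886630684317345382400000000)), (.ofNat (nat_lit 2176930750456995838007493428615577600000000)), (.ofNat (nat_lit 2198809451466613886630684317345382400000000)), (.ofNat (nat_lit 0))⟩,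
    ⟨nat_lit 0, nat_lit 6, nat_lit 7, (.ofNat (nat_lit 16)), (.ofNat (nat_lit 1429365116108800)), (.ofNat (nat_lit 3608803902120726662595056601210951441459467973033984000000)), (.ofNat (nat_lit 0)), (.ofNat (nat_lit 0)), (.ofNat (nat_lit 1429365116108768)), (.ofNat (nat_lit 1429365116108832)), (.ofNat (nat_lit 2198809451466613886630684317345382400000000)), (.ofNat (nat_lit 3836977189561765277292102110989516800000000)), (.ofNat (nat_lit 2198809451466613886630684317345382400000000)), (.ofNat (nat_lit 3836977189561765277292102110989516800000000)), (.ofNat (nat_lit 21365918954705125608584852275200000000))⟩,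
    ⟨nat_lit 0, nat_lit 7, nat_lit 8, (.ofNat (nat_lit 16)), (.ofNat (nat_lit 1649267441664000)), (.ofNat (nat_lit 4452564109207614313820551641507529328427407700393984000000)), (.ofNat (nat_lit 0)), (.negSucc (nat_lit 2349207632881792507198567356492164911595519999999999)), (.ofNat (nat_lit 1649267441663968)), (.ofNat (nat_lit 1649267441664032)), (.ofNat (nat_lit 3836977189561765277292102110989516800000000)), (.ofNat (nat_lit 1511271272239366708646910639011266560000000)), (.ofNat (nat_lit 1511271272239366708646910639011266560000000)), (.ofNat (nat_lit 3836977189561765277292102110989516800000000)), (.ofNat (nat_lit 51278205491292301460603645460480000000))⟩,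
    ⟨nat_lit 1, nat_lit 1, nat_lit 12, (.ofNat (nat_lit 16)), (.ofNat (nat_lit 439804651110400)), (.ofNat (nat_lit 120279437284502097135725017355140140065026473984000000)), (.ofNat (nat_lit 0)), (.negSucc (nat_lit 4698415265763585014397134712984329823191039999999999)), (.ofNat (nat_lit 439804651110368)), (.ofNat (nat_lit 439804651110432)), (.ofNat (nat_lit 0)), (.negSucc (nat_lit 448513370697169996775413218960998399999999)), (.negSucc (nat_lit 448513370697169996775413218960998399999999)), (.ofNat (nat_lit 0)), (.ofNat (nat_lit 18991927959737889429853202022400000000))⟩,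
    ⟨nat_lit 0, nat_lit 10, nat_lit 11, (.ofNat (nat_lit 16)), (.ofNat (nat_lit 494780232499200)), (.negSucc (nat_lit 38970535573868525222648435794674483988884426326015999999)), (.ofNat (nat_lit 0)), (.ofNat (nat_lit 0)), (.ofNat (nat_lit 494780232499168)), (.ofNat (nat_lit 494780232499232)), (.negSucc (nat_lit 474038521875057720169135922479103999999999)), (.ofNat (nat_lit 0)), (.negSucc (nat_lit 474038521875057720169135922479103999999999)), (.ofNat (nat_lit 0)), (.ofNat (nat_lit 0))⟩,
    ⟨nat_lit 0, nat_lit 4, nat_lit 12, (.ofNat (nat_lit 16)), (.negSucc (nat_lit 54975581388799)), (.ofNat (nat_lit 222035829269830149497141191781031006349024227753984000000)), (.ofNat (nat_lit 0)), (.negSucc (nat_lit 4698415265763585014397134712984329823191039999999999)), (.negSucc (nat_lit 54975581388831)), (.negSucc (nat_lit 54975581388767)), (.negSucc (nat_lit 451248208323372252853312080052223999999999)), (.negSucc (nat_lit 448513370697169996775413218960998399999999)), (.negSucc (nat_lit 451248208323372252853312080052223999999999)), (.negSucc (nat_lit 448513370697169996775413218960998399999999)),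 (.ofNat (nat_lit 170927351637641004868678818201600000000))⟩]
  es := [
    ⟨nat_lit 1, nat_lit 4, (.negSucc (nat_lit 549755813887999)), (.negSucc (nat_lit 274877906943999)), (.negSucc (nat_lit 549755813887967)), (.negSucc (nat_lit 274877906944031)), (.ofNat (nat_lit 1168322633913603796478393458171576320000000)), (.ofNat (nat_lit 17092735163764100486867881820160000000)), (.ofNat (nat_lit 9396830531527170028794269425968659646382080000000000))⟩,
    ⟨nat_lit 1, nat_lit 10, (.negSucc (nat_lit 549755813887999)), (.ofNat (nat_lit 439804651110400)), (.negSucc (nat_lit 549755813887967)), (.ofNat (nat_lit 439804651110368)), (.ofNat (nat_lit 0)), (.negSucc (nat_lit 4747981989934472357463300505599999999)), (.negSucc (nat_lit 2610230703201991674665074840546849901772799999999999))⟩,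
    ⟨nat_lit 3, nat_lit 5, (.ofNat (nat_lit 0)), (.ofNat (nat_lit 824633720832000)), (.ofNat (nat_lit 32)), (.ofNat (nat_lit 824633720831968)), (.negSucc (nat_lit 669852895911139255346694376610856959999999)), (.negSucc (nat_lit 5697578387921366828955960606719999999)), (.ofNat (nat_lit 0))⟩,
    ⟨nat_lit 3, nat_lit 0, (.ofNat (nat_lit 0)), (.ofNat (nat_lit 288621802291200)), (.ofNat (nat_lit 32)), (.ofNat (nat_lit 288621802291168)), (.negSucc (nat_lit 463620092822858649396187880226815999999999)), (.ofNat (nat_lit 0)), (.ofNat (nat_lit 0))⟩,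
    ⟨nat_lit 4, nat_lit 12, (.negSucc (nat_lit 274877906943999)), (.negSucc (nat_lit 54975581388799)), (.negSucc (nat_lit 274877906943967)), (.negSucc (nat_lit 54975581388831)), (.negSucc (nat_lit 451248208323372252853312080052223999999999)), (.negSucc (nat_lit 42731837909410251217169704550399999999)), (.negSucc (nat_lit 7047622898645377521595702069476494734786559999999999))⟩,
    ⟨nat_lit 5, nat_lit 2, (.ofNat (nat_lit 824633720832000)), (.ofNat (nat_lit 1099511627776000)), (.ofNat (nat_lit 824633720832032)), (.ofNat (nat_lit 1099511627775968)), (.ofNat (nat_lit 1167228698863122894047233913735086080000000)), (.ofNat (nat_lit 17092735163764100486867881820160000000)), (.negSucc (nat_lit 18793661063054340057588538851937319292764159999999999))⟩,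
    ⟨nat_lit 7, nat_lit 8, (.ofNat (nat_lit 1388133430067200)), (.ofNat (nat_lit 1429365116108800)), (.ofNat (nat_lit 1388133430067232)), (.ofNat (nat_lit 1429365116108768)), (.ofNat (nat_lit 2198809451466613886630684317345382400000000)), (.ofNat (nat_lit 0)), (.ofNat (nat_lit 0))⟩,
    ⟨nat_lit 8, nat_lit 9, (.ofNat (nat_lit 1429365116108800)), (.ofNat (nat_lit 1649267441664000)), (.ofNat (nat_lit 1429365116108832)), (.ofNat (nat_lit 1649267441663968)), (.ofNat (nat_lit 3836977189561765277292102110989516800000000)), (.negSucc (nat_lit 10682959477352562804292426137599999999)), (.ofNat (nat_lit 15269849613731651296790687817199071925370880000000000))⟩,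
    ⟨nat_lit 9, nat_lit 6, (.ofNat (nat_lit 1649267441664000)), (.ofNat (nat_lit 2199023255552000)), (.ofNat (nat_lit 1649267441664032)), (.ofNat (nat_lit 2199023255551968)), (.ofNat (nat_lit 1511271272239366708646910639011266560000000)), (.ofNat (nat_lit 4273183790941025121716970455040000000)), (.negSucc (nat_lit 9396830531527170028794269425968659646382079999999999))⟩,
    ⟨nat_lit 7, nat_lit 6, (.ofNat (nat_lit 1388133430067200)), (.ofNat (nat_lit 2199023255552000)), (.ofNat (nat_lit 1388133430067232)), (.ofNat (nat_lit 2199023255551968)), (.ofNat (nat_lit 2176930750456995838007493428615577600000000)), (.ofNat (nat_lit 0)), (.ofNat (nat_lit 0))⟩,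
    ⟨nat_lit 0, nat_lit 11, (.ofNat (nat_lit 288621802291200)), (.ofNat (nat_lit 494780232499200)), (.ofNat (nat_lit 288621802291232)), (.ofNat (nat_lit 494780232499168)), (.negSucc (nat_lit 474038521875057720169135922479103999999999)), (.ofNat (nat_lit 0)), (.ofNat (nat_lit 0))⟩,
    ⟨nat_lit 11, nat_lit 2, (.ofNat (nat_lit 494780232499200)), (.ofNat (nat_lit 1099511627776000)), (.ofNat (nat_lit 494780232499232)), (.ofNat (nat_lit 1099511627775968)), (.ofNat (nat_lit 0)), (.ofNat (nat_lit 0)), (.ofNat (nat_lit 0))⟩,
    ⟨nat_lit 12, nat_lit 10, (.negSucc (nat_lit 54975581388799)), (.ofNat (nat_lit 439804651110400)), (.negSucc (nat_lit 54975581388767)), (.ofNat (nat_lit 439804651110368)), (.negSucc (nat_lit 448513370697169996775413218960998399999999)), (.ofNat (nat_lit 0)), (.negSucc (nat_lit 4698415265763585014397134712984329823191039999999999))⟩]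

theorem ok270 : stOK 12 12 S270 = true := by decide +kernel

def S271 : SD where
  vs := [
    ⟨nat_lit 0, nat_lit 3, nat_lit 10, (.ofNat (nat_lit 16)), (.ofNat (nat_lit 288621802291200)), (.ofNat (nat_lit 58756501954014043076811966235399576333489205673984000000)), (.ofNat (nat_lit 0)), (.ofNat (nat_lit 0)), (.ofNat (nat_lit 288621802291168)), (.ofNat (nat_lit 288621802291232)), (.negSucc (nat_lit 463620092822858649396187880226815999999999)), (.negSucc (nat_lit 474038521875057720169135922479103999999999)), (.negSucc (nat_lit 474038521875057720169135922479103999999999)), (.negSucc (nat_lit 463620092822858649396187880226815999999999)), (.ofNat (nat_lit 0))⟩,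
    ⟨nat_lit 2, nat_lit 0, nat_lit 1, (.ofNat (nat_lit 16)), (.negSucc (nat_lit 549755813887999)), (.ofNat (nat_lit 120279437284502097135725017355140140065026473984000000)), (.ofNat (nat_lit 0)), (.ofNat (nat_lit 0)), (.negSucc (nat_lit 549755813888031)), (.negSucc (nat_lit 549755813887967)), (.ofNat (nat_lit 1170510504014565601340712547044556800000000)), (.ofNat (nat_lit 0)), (.ofNat (nat_lit 0)), (.ofNat (nat_lit 1170510504014565601340712547044556800000000)), (.ofNat (nat_lit 136741881310112803894943054561280000000))⟩,
    ⟨nat_lit 1, nat_lit 5, nat_lit 11, (.ofNat (nat_lit 16)), (.ofNat (nat_lit 1099511627776000)), (.negSucc (nat_lit 38970535573868525222648435794674483988884426326015999999)), (.ofNat (nat_lit 0)), (.ofNat (nat_lit 0)), (.ofNat (nat_lit 1099511627775968)), (.ofNat (nat_lit 1099511627776032)), (.ofNat (nat_lit 1168322633913603796478393458171576320000000)), (.ofNat (nat_lit 0)), (.ofNat (nat_lit 0)), (.ofNat (nat_lit 1168322633913603796478393458171576320000000)), (.ofNat (nat_lit 68370940655056401947471527280640000000))⟩,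
    ⟨nat_lit 2, nat_lit 3, nat_lit 2, (.ofNat (nat_lit 16)), (.ofNat (nat_lit 0)), (.ofNat (nat_lit 192567368722960944286842362861193289697970024873984000000)), (.ofNat (nat_lit 0)), (.ofNat (nat_lit 0)), (.negSucc (nat_lit 31)), (.ofNat (nat_lit 32)), (.negSucc (nat_lit 463620092822858649396187880226815999999999)), (.negSucc (nat_lit 670217540927966222823747558089687039999999)), (.negSucc (nat_lit 670217540927966222823747558089687039999999)), (.negSucc (nat_lit 463620092822858649396187880226815999999999)), (.ofNat (nat_lit 11395156775842733657911921213440000000))⟩,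
    ⟨nat_lit 0, nat_lit 0, nat_lit 4, (.ofNat (nat_lit 16)), (.negSucc (nat_lit 274877906943999)), (.ofNat (nat_lit 321867756836774803883051510162522046432187445673984000000)), (.ofNat (nat_lit 0)), (.ofNat (nat_lit 9396830531527170028794269425968659646382080000000000)), (.negSucc (nat_lit 274877906944031)), (.negSucc (nat_lit 274877906943967)), (.ofNat (nat_lit 1170510504014565601340712547044556800000000)), (.negSucc (nat_lit 1362222621611343752401422709539471359999999)), (.negSucc (nat_lit 1362222621611343752401422709539471359999999)), (.ofNat (nat_lit 1170510504014565601340712547044556800000000)), (.ofNat (nat_lit 28604692296559222164773400226037760000000))⟩,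
    ⟨nat_lit 0, nat_lit 2, nat_lit 5, (.ofNat (nat_lit 16)), (.ofNat (nat_lit 824633720832000)), (.negSucc (nat_lit 360116615819341088126721387696579396063638392406015999999)), (.ofNat (nat_lit 0)), (.negSucc (nat_lit 4698415265763585014397134712984329823191039999999999)), (.ofNat (nat_lit 824633720831968)), (.ofNat (nat_lit 824633720832032)), (.negSucc (nat_lit 670217540927966222823747558089687039999999)), (.ofNat (nat_lit 1168322633913603796478393458171576320000000)), (.negSucc (nat_lit 670217540927966222823747558089687039999999)), (.ofNat (nat_lit 1168322633913603796478393458171576320000000)), (.ofNat (nat_lit 56975783879213668289559606067200000000))⟩,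
    ⟨nat_lit 1, nat_lit 9, nat_lit 8, (.ofNat (nat_lit 16)), (.ofNat (nat_lit 2199023255552000)), (.ofNat (nat_lit 5283394277483120579086425767073974339721925685673984000000)), (.ofNat (nat_lit 0)), (.ofNat (nat_lit 0)), (.ofNat (nat_lit 2199023255551968)), (.ofNat (nat_lit 2199023255552032)), (.ofNat (nat_lit 2176930750456995838007493428615577600000000)), (.ofNat (nat_lit 1511544756001986934254700525120389120000000)), (.ofNat (nat_lit 1511544756001986934254700525120389120000000)), (.ofNat (nat_lit 2176930750456995838007493428615577600000000)), (.ofNat (nat_lit 8546367581882050243433940910080000000))⟩,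
    ⟨nat_lit 2, nat_lit 9, nat_lit 6, (.ofNat (nat_lit 16)), (.ofNat (nat_lit 1388133430067200)), (.ofNat (nat_lit 3518143281152552526157249489789205813191173665193984000000)), (.ofNat (nat_lit 0)), (.ofNat (nat_lit 0)), (.ofNat (nat_lit 1388133430067168)), (.ofNat (nat_lit 1388133430067232)), (.ofNat (nat_lit 2176930750456995838007493428615577600000000)), (.ofNat (nat_lit 2198809451466613886630684317345382400000000)), (.ofNat (nat_lit 2176930750456995838007493428615577600000000)), (.ofNat (nat_lit 2198809451466613886630684317345382400000000)), (.ofNat (nat_lit 0))⟩,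
    ⟨nat_lit 0, nat_lit 6, nat_lit 7, (.ofNat (nat_lit 16)), (.ofNat (nat_lit 1429365116108800)), (.ofNat (nat_lit 3608803902120726662595056601210951441459467973033984000000)), (.ofNat (nat_lit 0)), (.ofNat (nat_lit 0)), (.ofNat (nat_lit 1429365116108768)), (.ofNat (nat_lit 1429365116108832)), (.ofNat (nat_lit 2198809451466613886630684317345382400000000)), (.ofNat (nat_lit 3836293480155214713272627395716710400000000)), (.ofNat (nat_lit 2198809451466613886630684317345382400000000)), (.ofNat (nat_lit 3836293480155214713272627395716710400000000)), (.ofNat (nat_lit 21365918954705125608584852275200000000))⟩,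
    ⟨nat_lit 0, nat_lit 7, nat_lit 8, (.ofNat (nat_lit 16)), (.ofNat (nat_lit 1649267441664000)), (.ofNat (nat_lit 4452413759919109879100090933196713829873065587113984000000)), (.ofNat (nat_lit 0)), (.negSucc (nat_lit 2349207632881792507198567356492164911595519999999999)), (.ofNat (nat_lit 1649267441663968)), (.ofNat (nat_lit 1649267441664032)), (.ofNat (nat_lit 3836293480155214713272627395716710400000000)), (.ofNat (nat_lit 1511544756001986934254700525120389120000000)), (.ofNat (nat_lit 1511544756001986934254700525120389120000000)), (.ofNat (nat_lit 3836293480155214713272627395716710400000000)), (.ofNat (nat_lit 51278205491292301460603645460480000000))⟩,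
    ⟨nat_lit 1, nat_lit 1, nat_lit 12, (.ofNat (nat_lit 16)), (.negSucc (nat_lit 5497558138879)), (.ofNat (nat_lit 120279437284502097135725017355140140065026473984000000)), (.negSucc (nat_lit 6957847019519)), (.ofNat (nat_lit 0)), (.negSucc (nat_lit 5497558138911)), (.negSucc (nat_lit 5497558138847)), (.ofNat (nat_lit 0)), (.negSucc (nat_lit 448513370697169996775413218960998399999999)), (.negSucc (nat_lit 448513370697169996775413218960998399999999)), (.ofNat (nat_lit 0)), (.ofNat (nat_lit 0))⟩,
    ⟨nat_lit 0, nat_lit 10, nat_lit 11, (.ofNat (nat_lit 16)), (.ofNat (nat_lit 494780232499200)), (.negSucc (nat_lit 38970535573868525222648435794674483988884426326015999999)), (.ofNat (nat_lit 0)), (.ofNat (nat_lit 0)), (.ofNat (nat_lit 494780232499168)), (.ofNat (nat_lit 494780232499232)), (.negSucc (nat_lit 474038521875057720169135922479103999999999)), (.ofNat (nat_lit 0)), (.negSucc (nat_lit 474038521875057720169135922479103999999999)), (.ofNat (nat_lit 0)), (.ofNat (nat_lit 0))⟩,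
    ⟨nat_lit 0, nat_lit 4, nat_lit 12, (.ofNat (nat_lit 16)), (.negSucc (nat_lit 54975581388799)), (.ofNat (nat_lit 22311834420539066837136271693722726760960946601984000000)), (.ofNat (nat_lit 0)), (.negSucc (nat_lit 3120687419520173166562576876364191868563488767999999999)), (.negSucc (nat_lit 54975581388831)), (.negSucc (nat_lit 54975581388767)), (.negSucc (nat_lit 1362222621611343752401422709539471359999999)), (.negSucc (nat_lit 448513370697169996775413218960998399999999)), (.negSucc (nat_lit 1362222621611343752401422709539471359999999)), (.negSucc (nat_lit 448513370697169996775413218960998399999999)), (.ofNat (nat_lit 56935900830498218721756914342952960000000))⟩]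
  es := [
    ⟨nat_lit 1, nat_lit 4, (.negSucc (nat_lit 549755813887999)), (.negSucc (nat_lit 274877906943999)), (.negSucc (nat_lit 549755813887967)), (.negSucc (nat_lit 274877906944031)), (.ofNat (nat_lit 1170510504014565601340712547044556800000000)), (.ofNat (nat_lit 34185470327528200973735763640320000000)), (.ofNat (nat_lit 18793661063054340057588538851937319292764160000000000))⟩,
    ⟨nat_lit 1, nat_lit 10, (.negSucc (nat_lit 549755813887999)), (.negSucc (nat_lit 5497558138879)), (.negSucc (nat_lit 549755813887967)), (.negSucc (nat_lit 5497558138911)), (.ofNat (nat_lit 0)), (.ofNat (nat_lit 0)), (.ofNat (nat_lit 0))⟩,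
    ⟨nat_lit 3, nat_lit 5, (.ofNat (nat_lit 0)), (.ofNat (nat_lit 824633720832000)), (.ofNat (nat_lit 32)), (.ofNat (nat_lit 824633720831968)), (.negSucc (nat_lit 670217540927966222823747558089687039999999)), (.negSucc (nat_lit 5697578387921366828955960606719999999)), (.ofNat (nat_lit 0))⟩,
    ⟨nat_lit 3, nat_lit 0, (.ofNat (nat_lit 0)), (.ofNat (nat_lit 288621802291200)), (.ofNat (nat_lit 32)), (.ofNat (nat_lit 288621802291168)), (.negSucc (nat_lit 463620092822858649396187880226815999999999)), (.ofNat (nat_lit 0)), (.ofNat (nat_lit 0))⟩,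
    ⟨nat_lit 4, nat_lit 12, (.negSucc (nat_lit 274877906943999)), (.negSucc (nat_lit 54975581388799)), (.negSucc (nat_lit 274877906943967)), (.negSucc (nat_lit 54975581388831)), (.negSucc (nat_lit 1362222621611343752401422709539471359999999)), (.negSucc (nat_lit 14233975207624554680439228585738239999999)), (.negSucc (nat_lit 3903208482033098250710419662811732000615956479999999999))⟩,
    ⟨nat_lit 5, nat_lit 2, (.ofNat (nat_lit 824633720832000)), (.ofNat (nat_lit 1099511627776000)), (.ofNat (nat_lit 824633720832032)), (.ofNat (nat_lit 1099511627775968)), (.ofNat (nat_lit 1168322633913603796478393458171576320000000)), (.ofNat (nat_lit 17092735163764100486867881820160000000)), (.negSucc (nat_lit 18793661063054340057588538851937319292764159999999999))⟩,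
    ⟨nat_lit 7, nat_lit 8, (.ofNat (nat_lit 1388133430067200)), (.ofNat (nat_lit 1429365116108800)), (.ofNat (nat_lit 1388133430067232)), (.ofNat (nat_lit 1429365116108768)), (.ofNat (nat_lit 2198809451466613886630684317345382400000000)), (.ofNat (nat_lit 0)), (.ofNat (nat_lit 0))⟩,
    ⟨nat_lit 8, nat_lit 9, (.ofNat (nat_lit 1429365116108800)), (.ofNat (nat_lit 1649267441664000)), (.ofNat (nat_lit 1429365116108832)), (.ofNat (nat_lit 1649267441663968)), (.ofNat (nat_lit 3836293480155214713272627395716710400000000)), (.negSucc (nat_lit 10682959477352562804292426137599999999)), (.ofNat (nat_lit 15269849613731651296790687817199071925370880000000000))⟩,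
    ⟨nat_lit 9, nat_lit 6, (.ofNat (nat_lit 1649267441664000)), (.ofNat (nat_lit 2199023255552000)), (.ofNat (nat_lit 1649267441664032)), (.ofNat (nat_lit 2199023255551968)), (.ofNat (nat_lit 1511544756001986934254700525120389120000000)), (.ofNat (nat_lit 4273183790941025121716970455040000000)), (.negSucc (nat_lit 9396830531527170028794269425968659646382079999999999))⟩,
    ⟨nat_lit 7, nat_lit 6, (.ofNat (nat_lit 1388133430067200)), (.ofNat (nat_lit 2199023255552000)), (.ofNat (nat_lit 1388133430067232)), (.ofNat (nat_lit 2199023255551968)), (.ofNat (nat_lit 2176930750456995838007493428615577600000000)), (.ofNat (nat_lit 0)), (.ofNat (nat_lit 0))⟩,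
    ⟨nat_lit 0, nat_lit 11, (.ofNat (nat_lit 288621802291200)), (.ofNat (nat_lit 494780232499200)), (.ofNat (nat_lit 288621802291232)), (.ofNat (nat_lit 494780232499168)), (.negSucc (nat_lit 474038521875057720169135922479103999999999)), (.ofNat (nat_lit 0)), (.ofNat (nat_lit 0))⟩,
    ⟨nat_lit 11, nat_lit 2, (.ofNat (nat_lit 494780232499200)), (.ofNat (nat_lit 1099511627776000)), (.ofNat (nat_lit 494780232499232)), (.ofNat (nat_lit 1099511627775968)), (.ofNat (nat_lit 0)), (.ofNat (nat_lit 0)), (.ofNat (nat_lit 0))⟩,
    ⟨nat_lit 12, nat_lit 10, (.negSucc (nat_lit 54975581388799)), (.negSucc (nat_lit 5497558138879)), (.negSucc (nat_lit 54975581388767)), (.negSucc (nat_lit 5497558138911)), (.negSucc (nat_lit 448513370697169996775413218960998399999999)), (.ofNat (nat_lit 0)), (.negSucc (nat_lit 3120687419520173166562576876364191868563488767999999999))⟩]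

theorem ok271 : stOK 12 12 S271 = true := by decide +kernel

def S272 : SD where
  vs := [
    ⟨nat_lit 0, nat_lit 3, nat_lit 10, (.ofNat (nat_lit 16)), (.ofNat (nat_lit 288621802291200)), (.ofNat (nat_lit 58756501954014043076811966235399576333489205673984000000)), (.ofNat (nat_lit 0)), (.ofNat (nat_lit 0)), (.ofNat (nat_lit 288621802291168)), (.ofNat (nat_lit 288621802291232)), (.negSucc (nat_lit 463620092822858649396187880226815999999999)), (.negSucc (nat_lit 474038521875057720169135922479103999999999)), (.negSucc (nat_lit 474038521875057720169135922479103999999999)), (.negSucc (nat_lit 463620092822858649396187880226815999999999)), (.ofNat (nat_lit 0))⟩,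
    ⟨nat_lit 2, nat_lit 0, nat_lit 1, (.ofNat (nat_lit 16)), (.negSucc (nat_lit 549755813887999)), (.ofNat (nat_lit 120279437284502097135725017355140140065026473984000000)), (.ofNat (nat_lit 0)), (.ofNat (nat_lit 0)), (.negSucc (nat_lit 549755813888031)), (.negSucc (nat_lit 549755813887967)), (.ofNat (nat_lit 1171604439065046503771872091481047040000000)), (.ofNat (nat_lit 0)), (.ofNat (nat_lit 0)), (.ofNat (nat_lit 1171604439065046503771872091481047040000000)), (.ofNat (nat_lit 68370940655056401947471527280640000000))⟩,
    ⟨nat_lit 1, nat_lit 5, nat_lit 11, (.ofNat (nat_lit 16)), (.ofNat (nat_lit 1099511627776000)), (.negSucc (nat_lit 38970535573868525222648435794674483988884426326015999999)), (.ofNat (nat_lit 0)), (.ofNat (nat_lit 0)), (.ofNat (nat_lit 1099511627775968)), (.ofNat (nat_lit 1099511627776032)), (.ofNat (nat_lit 1169416568964084698909553002608066560000000)), (.ofNat (nat_lit 0)), (.ofNat (nat_lit 0)), (.ofNat (nat_lit 1169416568964084698909553002608066560000000)), (.ofNat (nat_lit 68370940655056401947471527280640000000))⟩,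
    ⟨nat_lit 2, nat_lit 3, nat_lit 2, (.ofNat (nat_lit 16)), (.ofNat (nat_lit 0)), (.ofNat (nat_lit 192567368722960944286842362861193289697970024873984000000)), (.ofNat (nat_lit 0)), (.ofNat (nat_lit 0)), (.negSucc (nat_lit 31)), (.ofNat (nat_lit 32)), (.negSucc (nat_lit 463620092822858649396187880226815999999999)), (.negSucc (nat_lit 670582185944793190300800739568517119999999)), (.negSucc (nat_lit 670582185944793190300800739568517119999999)), (.negSucc (nat_lit 463620092822858649396187880226815999999999)), (.ofNat (nat_lit 11395156775842733657911921213440000000))⟩,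
    ⟨nat_lit 0, nat_lit 0, nat_lit 4, (.ofNat (nat_lit 16)), (.negSucc (nat_lit 274877906943999)), (.ofNat (nat_lit 322168455413783673323972926784153043540871672233984000000)), (.ofNat (nat_lit 0)), (.ofNat (nat_lit 4698415265763585014397134712984329823191040000000000)), (.negSucc (nat_lit 274877906944031)), (.negSucc (nat_lit 274877906943967)), (.ofNat (nat_lit 1171604439065046503771872091481047040000000)), (.negSucc (nat_lit 1363590040424444880440372140085084159999999)), (.negSucc (nat_lit 1363590040424444880440372140085084159999999)), (.ofNat (nat_lit 1171604439065046503771872091481047040000000)), (.ofNat (nat_lit 111102778564466653164641231831040000000))⟩,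
    ⟨nat_lit 0, nat_lit 2, nat_lit 5, (.ofNat (nat_lit 16)), (.ofNat (nat_lit 824633720832000)), (.negSucc (nat_lit 360417314396349957567642804318210393172322618966015999999)), (.ofNat (nat_lit 0)), (.negSucc (nat_lit 4698415265763585014397134712984329823191039999999999)), (.ofNat (nat_lit 824633720831968)), (.ofNat (nat_lit 824633720832032)), (.negSucc (nat_lit 670582185944793190300800739568517119999999)), (.ofNat (nat_lit 1169416568964084698909553002608066560000000)), (.negSucc (nat_lit 670582185944793190300800739568517119999999)), (.ofNat (nat_lit 1169416568964084698909553002608066560000000)), (.ofNat (nat_lit 56975783879213668289559606067200000000))⟩,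
    ⟨nat_lit 1, nat_lit 9, nat_lit 8, (.ofNat (nat_lit 16)), (.ofNat (nat_lit 2199023255552000)), (.ofNat (nat_lit 120279437284502097135725017355140140065026473984000000)), (.ofNat (nat_lit 0)), (.negSucc (nat_lit 82551156219466188702957656907134674993466572799999999999)), (.ofNat (nat_lit 2199023255551968)), (.ofNat (nat_lit 2199023255552032)), (.ofNat (nat_lit 0)), (.negSucc (nat_lit 664839026929768452537213131276943359999999)), (.negSucc (nat_lit 664839026929768452537213131276943359999999)), (.ofNat (nat_lit 0)), (.ofNat (nat_lit 68046178686944884038221037526056960000000))⟩,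
    ⟨nat_lit 2, nat_lit 9, nat_lit 6, (.ofNat (nat_lit 16)), (.ofNat (nat_lit 1388133430067200)), (.ofNat (nat_lit 120279437284502097135725017355140140065026473984000000)), (.ofNat (nat_lit 0)), (.negSucc (nat_lit 54969109401801062875939277574560166766423572479999999999)), (.ofNat (nat_lit 1388133430067168)), (.ofNat (nat_lit 1388133430067232)), (.ofNat (nat_lit 0)), (.ofNat (nat_lit 1181449854519374625652307991409459200000000)), (.ofNat (nat_lit 0)), (.ofNat (nat_lit 1181449854519374625652307991409459200000000)), (.ofNat (nat_lit 104265684498961012969894079102976000000000))⟩,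
    ⟨nat_lit 0, nat_lit 6, nat_lit 7, (.ofNat (nat_lit 16)), (.ofNat (nat_lit 1429365116108800)), (.ofNat (nat_lit 48833448912721351526405217721576671746909729193984000000)), (.ofNat (nat_lit 0)), (.negSucc (nat_lit 55624538331375082985447677867021480776758722559999999999)), (.ofNat (nat_lit 1429365116108768)), (.ofNat (nat_lit 1429365116108832)), (.ofNat (nat_lit 1181449854519374625652307991409459200000000)), (.ofNat (nat_lit 1440575719602038389033225079803084800000000)), (.ofNat (nat_lit 1181449854519374625652307991409459200000000)), (.ofNat (nat_lit 1440575719602038389033225079803084800000000)), (.ofNat (nat_lit 74866180017286760132481322372300800000000))⟩,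
    ⟨nat_lit 0, nat_lit 7, nat_lit 8, (.ofNat (nat_lit 16)), (.ofNat (nat_lit 1649267441664000)), (.ofNat (nat_lit 365619399791565307537117628609832125745742410153984000000)), (.ofNat (nat_lit 0)), (.negSucc (nat_lit 63856161876992883930671457884170026626989424639999999999)), (.ofNat (nat_lit 1649267441663968)), (.ofNat (nat_lit 1649267441664032)), (.ofNat (nat_lit 1440575719602038389033225079803084800000000)), (.negSucc (nat_lit 664839026929768452537213131276943359999999)), (.negSucc (nat_lit 664839026929768452537213131276943359999999)), (.ofNat (nat_lit 1440575719602038389033225079803084800000000)), (.ofNat (nat_lit 81720366817956164427715342982184960000000))⟩,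
    ⟨nat_lit 1, nat_lit 1, nat_lit 12, (.ofNat (nat_lit 16)), (.negSucc (nat_lit 5497558138879)), (.ofNat (nat_lit 120279437284502097135725017355140140065026473984000000)), (.ofNat (nat_lit 0)), (.ofNat (nat_lit 0)), (.negSucc (nat_lit 5497558138911)), (.negSucc (nat_lit 5497558138847)), (.ofNat (nat_lit 0)), (.negSucc (nat_lit 448513370697169996775413218960998399999999)), (.negSucc (nat_lit 448513370697169996775413218960998399999999)), (.ofNat (nat_lit 0)), (.ofNat (nat_lit 0))⟩,
    ⟨nat_lit 0, nat_lit 10, nat_lit 11, (.ofNat (nat_lit 16)), (.ofNat (nat_lit 494780232499200)), (.negSucc (nat_lit 38970535573868525222648435794674483988884426326015999999)), (.ofNat (nat_lit 0)), (.ofNat (nat_lit 0)), (.ofNat (nat_lit 494780232499168)), (.ofNat (nat_lit 494780232499232)), (.negSucc (nat_lit 474038521875057720169135922479103999999999)), (.ofNat (nat_lit 0)), (.negSucc (nat_lit 474038521875057720169135922479103999999999)), (.ofNat (nat_lit 0)), (.ofNat (nat_lit 0))⟩,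
    ⟨nat_lit 0, nat_lit 4, nat_lit 12, (.ofNat (nat_lit 16)), (.negSucc (nat_lit 54975581388799)), (.ofNat (nat_lit 22311834420539066837136271693722726760960946601984000000)), (.ofNat (nat_lit 0)), (.ofNat (nat_lit 0)), (.negSucc (nat_lit 54975581388831)), (.negSucc (nat_lit 54975581388767)), (.negSucc (nat_lit 1363590040424444880440372140085084159999999)), (.negSucc (nat_lit 448513370697169996775413218960998399999999)), (.negSucc (nat_lit 1363590040424444880440372140085084159999999)), (.negSucc (nat_lit 448513370697169996775413218960998399999999)), (.ofNat (nat_lit 85463675818820502434339409100800000000))⟩]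
  es := [
    ⟨nat_lit 1, nat_lit 4, (.negSucc (nat_lit 549755813887999)), (.negSucc (nat_lit 274877906943999)), (.negSucc (nat_lit 549755813887967)), (.negSucc (nat_lit 274877906944031)), (.ofNat (nat_lit 1171604439065046503771872091481047040000000)), (.ofNat (nat_lit 17092735163764100486867881820160000000)), (.ofNat (nat_lit 9396830531527170028794269425968659646382080000000000))⟩,
    ⟨nat_lit 1, nat_lit 10, (.negSucc (nat_lit 549755813887999)), (.negSucc (nat_lit 5497558138879)), (.negSucc (nat_lit 549755813887967)), (.negSucc (nat_lit 5497558138911)), (.ofNat (nat_lit 0)), (.ofNat (nat_lit 0)), (.ofNat (nat_lit 0))⟩,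
    ⟨nat_lit 3, nat_lit 5, (.ofNat (nat_lit 0)), (.ofNat (nat_lit 824633720832000)), (.ofNat (nat_lit 32)), (.ofNat (nat_lit 824633720831968)), (.negSucc (nat_lit 670582185944793190300800739568517119999999)), (.negSucc (nat_lit 5697578387921366828955960606719999999)), (.ofNat (nat_lit 0))⟩,
    ⟨nat_lit 3, nat_lit 0, (.ofNat (nat_lit 0)), (.ofNat (nat_lit 288621802291200)), (.ofNat (nat_lit 32)), (.ofNat (nat_lit 288621802291168)), (.negSucc (nat_lit 463620092822858649396187880226815999999999)), (.ofNat (nat_lit 0)), (.ofNat (nat_lit 0))⟩,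
    ⟨nat_lit 4, nat_lit 12, (.negSucc (nat_lit 274877906943999)), (.negSucc (nat_lit 54975581388799)), (.negSucc (nat_lit 274877906943967)), (.negSucc (nat_lit 54975581388831)), (.negSucc (nat_lit 1363590040424444880440372140085084159999999)), (.negSucc (nat_lit 21365918954705125608584852275199999999)), (.negSucc (nat_lit 1174603816440896253599283678246082455797759999999999))⟩,
    ⟨nat_lit 5, nat_lit 2, (.ofNat (nat_lit 824633720832000)), (.ofNat (nat_lit 1099511627776000)), (.ofNat (nat_lit 824633720832032)), (.ofNat (nat_lit 1099511627775968)), (.ofNat (nat_lit 1169416568964084698909553002608066560000000)), (.ofNat (nat_lit 17092735163764100486867881820160000000)), (.negSucc (nat_lit 18793661063054340057588538851937319292764159999999999))⟩,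
    ⟨nat_lit 7, nat_lit 8, (.ofNat (nat_lit 1388133430067200)), (.ofNat (nat_lit 1429365116108800)), (.ofNat (nat_lit 1388133430067232)), (.ofNat (nat_lit 1429365116108768)), (.ofNat (nat_lit 1181449854519374625652307991409459200000000)), (.negSucc (nat_lit 15896243702300613452787130092748799999999)), (.negSucc (nat_lit 32903002106142385855823134395029261751806853119999999999))⟩,
    ⟨nat_lit 8, nat_lit 9, (.ofNat (nat_lit 1429365116108800)), (.ofNat (nat_lit 1649267441664000)), (.ofNat (nat_lit 1429365116108832)), (.ofNat (nat_lit 1649267441663968)), (.ofNat (nat_lit 1440575719602038389033225079803084800000000)), (.negSucc (nat_lit 37433090008643380066240661186150399999999)), (.negSucc (nat_lit 2118985284859376841493107755555932750259159039999999999))⟩,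
    ⟨nat_lit 9, nat_lit 6, (.ofNat (nat_lit 1649267441664000)), (.ofNat (nat_lit 2199023255552000)), (.ofNat (nat_lit 1649267441664032)), (.ofNat (nat_lit 2199023255551968)), (.negSucc (nat_lit 664839026929768452537213131276943359999999)), (.negSucc (nat_lit 34005996608308677918623650881208319999999)), (.negSucc (nat_lit 7771178849572969613812860815276081527557980159999999999))⟩,
    ⟨nat_lit 7, nat_lit 6, (.ofNat (nat_lit 1388133430067200)), (.ofNat (nat_lit 2199023255552000)), (.ofNat (nat_lit 1388133430067232)), (.ofNat (nat_lit 2199023255551968)), (.ofNat (nat_lit 0)), (.negSucc (nat_lit 34014542975890559968867084822118399999999)), (.negSucc (nat_lit 7752385188509915273755272276424144208265215999999999999))⟩,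
    ⟨nat_lit 0, nat_lit 11, (.ofNat (nat_lit 288621802291200)), (.ofNat (nat_lit 494780232499200)), (.ofNat (nat_lit 288621802291232)), (.ofNat (nat_lit 494780232499168)), (.negSucc (nat_lit 474038521875057720169135922479103999999999)), (.ofNat (nat_lit 0)), (.ofNat (nat_lit 0))⟩,
    ⟨nat_lit 11, nat_lit 2, (.ofNat (nat_lit 494780232499200)), (.ofNat (nat_lit 1099511627776000)), (.ofNat (nat_lit 494780232499232)), (.ofNat (nat_lit 1099511627775968)), (.ofNat (nat_lit 0)), (.ofNat (nat_lit 0)), (.ofNat (nat_lit 0))⟩,
    ⟨nat_lit 12, nat_lit 10, (.negSucc (nat_lit 54975581388799)), (.negSucc (nat_lit 5497558138879)), (.negSucc (nat_lit 54975581388767)), (.negSucc (nat_lit 5497558138911)), (.negSucc (nat_lit 448513370697169996775413218960998399999999)), (.ofNat (nat_lit 0)), (.ofNat (nat_lit 0))⟩]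

theorem ok272 : stOK 12 12 S272 = true := by decide +kernel

def S273 : SD where
  vs := [
    ⟨nat_lit 0, nat_lit 3, nat_lit 10, (.ofNat (nat_lit 16)), (.ofNat (nat_lit 288621802291200)), (.ofNat (nat_lit 58756501954014043076811966235399576333489205673984000000)), (.ofNat (nat_lit 0)), (.ofNat (nat_lit 0)), (.ofNat (nat_lit 288621802291168)), (.ofNat (nat_lit 288621802291232)), (.negSucc (nat_lit 463620092822858649396187880226815999999999)), (.negSucc (nat_lit 474038521875057720169135922479103999999999)), (.negSucc (nat_lit 474038521875057720169135922479103999999999)), (.negSucc (nat_lit 463620092822858649396187880226815999999999)), (.ofNat (nat_lit 0))⟩,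
    ⟨nat_lit 2, nat_lit 0, nat_lit 1, (.ofNat (nat_lit 16)), (.negSucc (nat_lit 549755813887999)), (.ofNat (nat_lit 120279437284502097135725017355140140065026473984000000)), (.ofNat (nat_lit 0)), (.ofNat (nat_lit 0)), (.negSucc (nat_lit 549755813888031)), (.negSucc (nat_lit 549755813887967)), (.ofNat (nat_lit 1172698374115527406203031635917537280000000)), (.ofNat (nat_lit 0)), (.ofNat (nat_lit 0)), (.ofNat (nat_lit 1172698374115527406203031635917537280000000)), (.ofNat (nat_lit 68370940655056401947471527280640000000))⟩,
    ⟨nat_lit 1, nat_lit 5, nat_lit 11, (.ofNat (nat_lit 16)), (.ofNat (nat_lit 1099511627776000)), (.negSucc (nat_lit 38970535573868525222648435794674483988884426326015999999)), (.ofNat (nat_lit 0)), (.ofNat (nat_lit 0)), (.ofNat (nat_lit 1099511627775968)), (.ofNat (nat_lit 1099511627776032)), (.ofNat (nat_lit 1181449854519374625652307991409459200000000)), (.ofNat (nat_lit 0)), (.ofNat (nat_lit 0)), (.ofNat (nat_lit 1181449854519374625652307991409459200000000)), (.ofNat (nat_lit 752080347205620421422186800087040000000))⟩,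
    ⟨nat_lit 2, nat_lit 3, nat_lit 2, (.ofNat (nat_lit 16)), (.ofNat (nat_lit 0)), (.ofNat (nat_lit 192567368722960944286842362861193289697970024873984000000)), (.ofNat (nat_lit 0)), (.ofNat (nat_lit 0)), (.negSucc (nat_lit 31)), (.ofNat (nat_lit 32)), (.negSucc (nat_lit 463620092822858649396187880226815999999999)), (.negSucc (nat_lit 674593281129889832548385735835647999999999)), (.negSucc (nat_lit 674593281129889832548385735835647999999999)), (.negSucc (nat_lit 463620092822858649396187880226815999999999)), (.ofNat (nat_lit 125346724534270070237031133347840000000))⟩,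
    ⟨nat_lit 0, nat_lit 0, nat_lit 4, (.ofNat (nat_lit 16)), (.negSucc (nat_lit 274877906943999)), (.ofNat (nat_lit 322469153990792542764894343405784040649555898793984000000)), (.ofNat (nat_lit 0)), (.ofNat (nat_lit 4698415265763585014397134712984329823191040000000000)), (.negSucc (nat_lit 274877906944031)), (.negSucc (nat_lit 274877906943967)), (.ofNat (nat_lit 1172698374115527406203031635917537280000000)), (.negSucc (nat_lit 1364957459237546008479321570630696959999999)), (.negSucc (nat_lit 1364957459237546008479321570630696959999999)), (.ofNat (nat_lit 1172698374115527406203031635917537280000000)), (.ofNat (nat_lit 111102778564466653164641231831040000000))⟩,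
    ⟨nat_lit 0, nat_lit 2, nat_lit 5, (.ofNat (nat_lit 16)), (.ofNat (nat_lit 824633720832000)), (.negSucc (nat_lit 363724998743447521417778387156151361367849111126015999999)), (.ofNat (nat_lit 0)), (.negSucc (nat_lit 51682567923399435158368481842827628055101439999999999)), (.ofNat (nat_lit 824633720831968)), (.ofNat (nat_lit 824633720832032)), (.negSucc (nat_lit 674593281129889832548385735835647999999999)), (.ofNat (nat_lit 1181449854519374625652307991409459200000000)), (.negSucc (nat_lit 674593281129889832548385735835647999999999)), (.ofNat (nat_lit 1181449854519374625652307991409459200000000)), (.ofNat (nat_lit 626733622671350351185155666739200000000))⟩,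
    ⟨nat_lit 1, nat_lit 9, nat_lit 8, (.ofNat (nat_lit 16)), (.ofNat (nat_lit 1911844562272256)), (.negSucc (nat_lit 35722990942172735260697136281059715215094779478015999999)), (.negSucc (nat_lit 4487167082495)), (.negSucc (nat_lit 560051099679019333716138457787732114924371967999999999)), (.ofNat (nat_lit 1911844562272224)), (.ofNat (nat_lit 1911844562272288)), (.ofNat (nat_lit 0)), (.negSucc (nat_lit 664839026929768452537213131276943359999999)), (.negSucc (nat_lit 664839026929768452537213131276943359999999)), (.ofNat (nat_lit 0)), (.ofNat (nat_lit 0))⟩,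
    ⟨nat_lit 2, nat_lit 9, nat_lit 6, (.ofNat (nat_lit 16)), (.ofNat (nat_lit 1105009185914880)), (.negSucc (nat_lit 35722990942172735260697136281059715215094779478015999999)), (.negSucc (nat_lit 4423816314879)), (.negSucc (nat_lit 560051099679019333716138457787732114924371967999999999)), (.ofNat (nat_lit 1105009185914848)), (.ofNat (nat_lit 1105009185914912)), (.ofNat (nat_lit 0)), (.ofNat (nat_lit 1181449854519374625652307991409459200000000)), (.ofNat (nat_lit 0)), (.ofNat (nat_lit 1181449854519374625652307991409459200000000)), (.ofNat (nat_lit 0))⟩,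
    ⟨nat_lit 0, nat_lit 6, nat_lit 7, (.ofNat (nat_lit 16)), (.ofNat (nat_lit 1146034713526272)), (.ofNat (nat_lit 12746612685886929921426008959640708733715699728384000000)), (.negSucc (nat_lit 4427037540351)), (.negSucc (nat_lit 563856816044287837577800136905249422081156710399999999)), (.ofNat (nat_lit 1146034713526240)), (.ofNat (nat_lit 1146034713526304)), (.ofNat (nat_lit 1181449854519374625652307991409459200000000)), (.ofNat (nat_lit 1440575719602038389033225079803084800000000)), (.ofNat (nat_lit 1181449854519374625652307991409459200000000)), (.ofNat (nat_lit 1440575719602038389033225079803084800000000)), (.ofNat (nat_lit 0))⟩,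
    ⟨nat_lit 0, nat_lit 7, nat_lit 8, (.ofNat (nat_lit 16)), (.ofNat (nat_lit 1364837527453696)), (.ofNat (nat_lit 327948633810336666152084857793454885462554217283584000000)), (.negSucc (nat_lit 4444217409535)), (.negSucc (nat_lit 588605718456697521641137044005894379424815513599999999)), (.ofNat (nat_lit 1364837527453664)), (.ofNat (nat_lit 1364837527453728)), (.ofNat (nat_lit 1440575719602038389033225079803084800000000)), (.negSucc (nat_lit 664839026929768452537213131276943359999999)), (.negSucc (nat_lit 664839026929768452537213131276943359999999)), (.ofNat (nat_lit 1440575719602038389033225079803084800000000)), (.ofNat (nat_lit 0))⟩,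
    ⟨nat_lit 1, nat_lit 1, nat_lit 12, (.ofNat (nat_lit 16)), (.negSucc (nat_lit 5497558138879)), (.ofNat (nat_lit 120279437284502097135725017355140140065026473984000000)), (.ofNat (nat_lit 0)), (.ofNat (nat_lit 0)), (.negSucc (nat_lit 5497558138911)), (.negSucc (nat_lit 5497558138847)), (.ofNat (nat_lit 0)), (.negSucc (nat_lit 448513370697169996775413218960998399999999)), (.negSucc (nat_lit 448513370697169996775413218960998399999999)), (.ofNat (nat_lit 0)), (.ofNat (nat_lit 0))⟩,
    ⟨nat_lit 0, nat_lit 10, nat_lit 11, (.ofNat (nat_lit 16)), (.ofNat (nat_lit 494780232499200)), (.negSucc (nat_lit 38970535573868525222648435794674483988884426326015999999)), (.ofNat (nat_lit 0)), (.ofNat (nat_lit 0)), (.ofNat (nat_lit 494780232499168)), (.ofNat (nat_lit 494780232499232)), (.negSucc (nat_lit 474038521875057720169135922479103999999999)), (.ofNat (nat_lit 0)), (.negSucc (nat_lit 474038521875057720169135922479103999999999)), (.ofNat (nat_lit 0)), (.ofNat (nat_lit 0))⟩,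
    ⟨nat_lit 0, nat_lit 4, nat_lit 12, (.ofNat (nat_lit 16)), (.negSucc (nat_lit 54975581388799)), (.ofNat (nat_lit 22311834420539066837136271693722726760960946601984000000)), (.ofNat (nat_lit 0)), (.ofNat (nat_lit 0)), (.negSucc (nat_lit 54975581388831)), (.negSucc (nat_lit 54975581388767)), (.negSucc (nat_lit 1364957459237546008479321570630696959999999)), (.negSucc (nat_lit 448513370697169996775413218960998399999999)), (.negSucc (nat_lit 1364957459237546008479321570630696959999999)), (.negSucc (nat_lit 448513370697169996775413218960998399999999)), (.ofNat (nat_lit 85463675818820502434339409100800000000))⟩]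
  es := [
    ⟨nat_lit 1, nat_lit 4, (.negSucc (nat_lit 549755813887999)), (.negSucc (nat_lit 274877906943999)), (.negSucc (nat_lit 549755813887967)), (.negSucc (nat_lit 274877906944031)), (.ofNat (nat_lit 1172698374115527406203031635917537280000000)), (.ofNat (nat_lit 17092735163764100486867881820160000000)), (.ofNat (nat_lit 9396830531527170028794269425968659646382080000000000))⟩,
    ⟨nat_lit 1, nat_lit 10, (.negSucc (nat_lit 549755813887999)), (.negSucc (nat_lit 5497558138879)), (.negSucc (nat_lit 549755813887967)), (.negSucc (nat_lit 5497558138911)), (.ofNat (nat_lit 0)), (.ofNat (nat_lit 0)), (.ofNat (nat_lit 0))⟩,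
    ⟨nat_lit 3, nat_lit 5, (.ofNat (nat_lit 0)), (.ofNat (nat_lit 824633720832000)), (.ofNat (nat_lit 32)), (.ofNat (nat_lit 824633720831968)), (.negSucc (nat_lit 674593281129889832548385735835647999999999)), (.negSucc (nat_lit 62673362267135035118515566673919999999)), (.ofNat (nat_lit 0))⟩,
    ⟨nat_lit 3, nat_lit 0, (.ofNat (nat_lit 0)), (.ofNat (nat_lit 288621802291200)), (.ofNat (nat_lit 32)), (.ofNat (nat_lit 288621802291168)), (.negSucc (nat_lit 463620092822858649396187880226815999999999)), (.ofNat (nat_lit 0)), (.ofNat (nat_lit 0))⟩,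
    ⟨nat_lit 4, nat_lit 12, (.negSucc (nat_lit 274877906943999)), (.negSucc (nat_lit 54975581388799)), (.negSucc (nat_lit 274877906943967)), (.negSucc (nat_lit 54975581388831)), (.negSucc (nat_lit 1364957459237546008479321570630696959999999)), (.negSucc (nat_lit 21365918954705125608584852275199999999)), (.negSucc (nat_lit 1174603816440896253599283678246082455797759999999999))⟩,
    ⟨nat_lit 5, nat_lit 2, (.ofNat (nat_lit 824633720832000)), (.ofNat (nat_lit 1099511627776000)), (.ofNat (nat_lit 824633720832032)), (.ofNat (nat_lit 1099511627775968)), (.ofNat (nat_lit 1181449854519374625652307991409459200000000)), (.ofNat (nat_lit 188020086801405105355546700021760000000)), (.negSucc (nat_lit 206730271693597740633473927371310512220405759999999999))⟩,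
    ⟨nat_lit 7, nat_lit 8, (.ofNat (nat_lit 1105009185914880)), (.ofNat (nat_lit 1146034713526272)), (.ofNat (nat_lit 1105009185914912)), (.ofNat (nat_lit 1146034713526240)), (.ofNat (nat_lit 1181449854519374625652307991409459200000000)), (.ofNat (nat_lit 0)), (.ofNat (nat_lit 4666466041956392636299234196936036380393340928000000000))⟩,
    ⟨nat_lit 8, nat_lit 9, (.ofNat (nat_lit 1146034713526272)), (.ofNat (nat_lit 1364837527453696)), (.ofNat (nat_lit 1146034713526304)), (.ofNat (nat_lit 1364837527453664)), (.ofNat (nat_lit 1440575719602038389033225079803084800000000)), (.ofNat (nat_lit 0)), (.ofNat (nat_lit 5813625974353532624493329111592198023412921139200000000))⟩,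
    ⟨nat_lit 9, nat_lit 6, (.ofNat (nat_lit 1364837527453696)), (.ofNat (nat_lit 1911844562272256)), (.ofNat (nat_lit 1364837527453728)), (.ofNat (nat_lit 1911844562272224)), (.negSucc (nat_lit 664839026929768452537213131276943359999999)), (.ofNat (nat_lit 0)), (.negSucc (nat_lit 3543294896476948017180365752930234698608211394559999999))⟩,
    ⟨nat_lit 7, nat_lit 6, (.ofNat (nat_lit 1105009185914880)), (.ofNat (nat_lit 1911844562272256)), (.ofNat (nat_lit 1105009185914912)), (.ofNat (nat_lit 1911844562272224)), (.ofNat (nat_lit 0)), (.ofNat (nat_lit 0)), (.negSucc (nat_lit 560051099679019333716138457787732114924371967999999999))⟩,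
    ⟨nat_lit 0, nat_lit 11, (.ofNat (nat_lit 288621802291200)), (.ofNat (nat_lit 494780232499200)), (.ofNat (nat_lit 288621802291232)), (.ofNat (nat_lit 494780232499168)), (.negSucc (nat_lit 474038521875057720169135922479103999999999)), (.ofNat (nat_lit 0)), (.ofNat (nat_lit 0))⟩,
    ⟨nat_lit 11, nat_lit 2, (.ofNat (nat_lit 494780232499200)), (.ofNat (nat_lit 1099511627776000)), (.ofNat (nat_lit 494780232499232)), (.ofNat (nat_lit 1099511627775968)), (.ofNat (nat_lit 0)), (.ofNat (nat_lit 0)), (.ofNat (nat_lit 0))⟩,
    ⟨nat_lit 12, nat_lit 10, (.negSucc (nat_lit 54975581388799)), (.negSucc (nat_lit 5497558138879)), (.negSucc (nat_lit 54975581388767)), (.negSucc (nat_lit 5497558138911)), (.negSucc (nat_lit 448513370697169996775413218960998399999999)), (.ofNat (nat_lit 0)), (.ofNat (nat_lit 0))⟩]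

theorem ok273 : stOK 12 12 S273 = true := by decide +kernel

def S274 : SD where
  vs := [
    ⟨nat_lit 0, nat_lit 3, nat_lit 10, (.ofNat (nat_lit 16)), (.ofNat (nat_lit 288621802291200)), (.ofNat (nat_lit 58756501954014043076811966235399576333489205673984000000)), (.ofNat (nat_lit 0)), (.ofNat (nat_lit 0)), (.ofNat (nat_lit 288621802291168)), (.ofNat (nat_lit 288621802291232)), (.negSucc (nat_lit 463620092822858649396187880226815999999999)), (.negSucc (nat_lit 474038521875057720169135922479103999999999)), (.negSucc (nat_lit 474038521875057720169135922479103999999999)), (.negSucc (nat_lit 463620092822858649396187880226815999999999)), (.ofNat (nat_lit 0))⟩,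
    ⟨nat_lit 2, nat_lit 0, nat_lit 1, (.ofNat (nat_lit 16)), (.negSucc (nat_lit 549755813887999)), (.ofNat (nat_lit 120279437284502097135725017355140140065026473984000000)), (.ofNat (nat_lit 0)), (.ofNat (nat_lit 0)), (.negSucc (nat_lit 549755813888031)), (.negSucc (nat_lit 549755813887967)), (.ofNat (nat_lit 1173236795273185975368367974194872320000000)), (.ofNat (nat_lit 0)), (.ofNat (nat_lit 0)), (.ofNat (nat_lit 1173236795273185975368367974194872320000000)), (.ofNat (nat_lit 34185470327528200973735763640320000000))⟩,
    ⟨nat_lit 1, nat_lit 5, nat_lit 11, (.ofNat (nat_lit 16)), (.ofNat (nat_lit 1102217457172480)), (.negSucc (nat_lit 38970535573868525222648435794674483988884426326015999999)), (.ofNat (nat_lit 42949672960)), (.ofNat (nat_lit 0)), (.ofNat (nat_lit 1102217457172448)), (.ofNat (nat_lit 1102217457172512)), (.ofNat (nat_lit 1181449854519374625652307991409459200000000)), (.ofNat (nat_lit 0)), (.ofNat (nat_lit 0)), (.ofNat (nat_lit 1181449854519374625652307991409459200000000)), (.ofNat (nat_lit 0))⟩,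
    ⟨nat_lit 2, nat_lit 3, nat_lit 2, (.ofNat (nat_lit 16)), (.ofNat (nat_lit 0)), (.ofNat (nat_lit 192567368722960944286842362861193289697970024873984000000)), (.ofNat (nat_lit 0)), (.ofNat (nat_lit 0)), (.negSucc (nat_lit 31)), (.ofNat (nat_lit 32)), (.negSucc (nat_lit 463620092822858649396187880226815999999999)), (.negSucc (nat_lit 678469913465031530538807371432460287999999)), (.negSucc (nat_lit 678469913465031530538807371432460287999999)), (.negSucc (nat_lit 463620092822858649396187880226815999999999)), (.ofNat (nat_lit 123067693179101523505448749105152000000))⟩,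
    ⟨nat_lit 0, nat_lit 0, nat_lit 4, (.ofNat (nat_lit 16)), (.negSucc (nat_lit 274877906943999)), (.ofNat (nat_lit 322617154071664095692847853149243047038986416553984000000)), (.ofNat (nat_lit 0)), (.ofNat (nat_lit 2349207632881792507198567356492164911595520000000000)), (.negSucc (nat_lit 274877906944031)), (.negSucc (nat_lit 274877906943967)), (.ofNat (nat_lit 1173236795273185975368367974194872320000000)), (.negSucc (nat_lit 1365630485684619219935991993477365759999999)), (.negSucc (nat_lit 1365630485684619219935991993477365759999999)), (.ofNat (nat_lit 1173236795273185975368367974194872320000000)), (.ofNat (nat_lit 55551389282233326582320615915520000000))⟩,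
    ⟨nat_lit 0, nat_lit 2, nat_lit 5, (.ofNat (nat_lit 16)), (.ofNat (nat_lit 824633720832000)), (.negSucc (nat_lit 366921800490273064661574197614865899379548294742015999999)), (.ofNat (nat_lit 0)), (.negSucc (nat_lit 50742884870246718155489054900230762090463231999999999)), (.ofNat (nat_lit 824633720831968)), (.ofNat (nat_lit 824633720832032)), (.negSucc (nat_lit 678469913465031530538807371432460287999999)), (.ofNat (nat_lit 1181449854519374625652307991409459200000000)), (.negSucc (nat_lit 678469913465031530538807371432460287999999)), (.ofNat (nat_lit 1181449854519374625652307991409459200000000)), (.ofNat (nat_lit 246135386358203047010897498210304000000))⟩,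
    ⟨nat_lit 1, nat_lit 9, nat_lit 8, (.ofNat (nat_lit 16)), (.ofNat (nat_lit 1911844562272256)), (.negSucc (nat_lit 38919792688998278504492946739774253226793963094015999999)), (.ofNat (nat_lit 0)), (.negSucc (nat_lit 50742884870246718155489054900230762090463231999999999)), (.ofNat (nat_lit 1911844562272224)), (.ofNat (nat_lit 1911844562272288)), (.ofNat (nat_lit 0)), (.negSucc (nat_lit 664568463533960126323476277871247359999999)), (.negSucc (nat_lit 664568463533960126323476277871247359999999)), (.ofNat (nat_lit 0)), (.ofNat (nat_lit 8589314152645276626566774784000000000))⟩,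
    ⟨nat_lit 2, nat_lit 9, nat_lit 6, (.ofNat (nat_lit 16)), (.ofNat (nat_lit 1102303356518400)), (.negSucc (nat_lit 38919792688998278504492946739774253226793963094015999999)), (.negSucc (nat_lit 42949672959)), (.negSucc (nat_lit 50742884870246718155489054900230762090463231999999999)), (.ofNat (nat_lit 1102303356518368)), (.ofNat (nat_lit 1102303356518432)), (.ofNat (nat_lit 0)), (.ofNat (nat_lit 1181449854519374625652307991409459200000000)), (.ofNat (nat_lit 0)), (.ofNat (nat_lit 1181449854519374625652307991409459200000000)), (.ofNat (nat_lit 0))⟩,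
    ⟨nat_lit 0, nat_lit 6, nat_lit 7, (.ofNat (nat_lit 16)), (.ofNat (nat_lit 1146034713526272)), (.ofNat (nat_lit 12746612685886929921426008959640708733715699728384000000)), (.ofNat (nat_lit 0)), (.ofNat (nat_lit 0)), (.ofNat (nat_lit 1146034713526240)), (.ofNat (nat_lit 1146034713526304)), (.ofNat (nat_lit 1181449854519374625652307991409459200000000)), (.ofNat (nat_lit 1425288887738867957957092862381260800000000)), (.ofNat (nat_lit 1181449854519374625652307991409459200000000)), (.ofNat (nat_lit 1425288887738867957957092862381260800000000)), (.ofNat (nat_lit 485296249624458129401022775296000000000))⟩,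
    ⟨nat_lit 0, nat_lit 7, nat_lit 8, (.ofNat (nat_lit 16)), (.ofNat (nat_lit 1364837527453696)), (.ofNat (nat_lit 324603831982639569980335537591281341061424515907584000000)), (.ofNat (nat_lit 0)), (.negSucc (nat_lit 53092092503128510662687622256722927002058751999999999)), (.ofNat (nat_lit 1364837527453664)), (.ofNat (nat_lit 1364837527453728)), (.ofNat (nat_lit 1425288887738867957957092862381260800000000)), (.negSucc (nat_lit 664568463533960126323476277871247359999999)), (.negSucc (nat_lit 664568463533960126323476277871247359999999)), (.ofNat (nat_lit 1425288887738867957957092862381260800000000)), (.ofNat (nat_lit 979181813401561535428612325376000000000))⟩,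
    ⟨nat_lit 1, nat_lit 1, nat_lit 12, (.ofNat (nat_lit 16)), (.negSucc (nat_lit 5497558138879)), (.ofNat (nat_lit 120279437284502097135725017355140140065026473984000000)), (.ofNat (nat_lit 0)), (.ofNat (nat_lit 0)), (.negSucc (nat_lit 5497558138911)), (.negSucc (nat_lit 5497558138847)), (.ofNat (nat_lit 0)), (.negSucc (nat_lit 448513370697169996775413218960998399999999)), (.negSucc (nat_lit 448513370697169996775413218960998399999999)), (.ofNat (nat_lit 0)), (.ofNat (nat_lit 0))⟩,
    ⟨nat_lit 0, nat_lit 10, nat_lit 11, (.ofNat (nat_lit 16)), (.ofNat (nat_lit 494780232499200)), (.negSucc (nat_lit 38970535573868525222648435794674483988884426326015999999)), (.ofNat (nat_lit 0)), (.ofNat (nat_lit 0)), (.ofNat (nat_lit 494780232499168)), (.ofNat (nat_lit 494780232499232)), (.negSucc (nat_lit 474038521875057720169135922479103999999999)), (.ofNat (nat_lit 0)), (.negSucc (nat_lit 474038521875057720169135922479103999999999)), (.ofNat (nat_lit 0)), (.ofNat (nat_lit 0))⟩,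
    ⟨nat_lit 0, nat_lit 4, nat_lit 12, (.ofNat (nat_lit 16)), (.negSucc (nat_lit 54975581388799)), (.ofNat (nat_lit 22311834420539066837136271693722726760960946601984000000)), (.ofNat (nat_lit 0)), (.ofNat (nat_lit 0)), (.negSucc (nat_lit 54975581388831)), (.negSucc (nat_lit 54975581388767)), (.negSucc (nat_lit 1365630485684619219935991993477365759999999)), (.negSucc (nat_lit 448513370697169996775413218960998399999999)), (.negSucc (nat_lit 1365630485684619219935991993477365759999999)), (.negSucc (nat_lit 448513370697169996775413218960998399999999)), (.ofNat (nat_lit 42731837909410251217169704550400000000))⟩]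
  es := [
    ⟨nat_lit 1, nat_lit 4, (.negSucc (nat_lit 549755813887999)), (.negSucc (nat_lit 274877906943999)), (.negSucc (nat_lit 549755813887967)), (.negSucc (nat_lit 274877906944031)), (.ofNat (nat_lit 1173236795273185975368367974194872320000000)), (.ofNat (nat_lit 8546367581882050243433940910080000000)), (.ofNat (nat_lit 4698415265763585014397134712984329823191040000000000))⟩,
    ⟨nat_lit 1, nat_lit 10, (.negSucc (nat_lit 549755813887999)), (.negSucc (nat_lit 5497558138879)), (.negSucc (nat_lit 549755813887967)), (.negSucc (nat_lit 5497558138911)), (.ofNat (nat_lit 0)), (.ofNat (nat_lit 0)), (.ofNat (nat_lit 0))⟩,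
    ⟨nat_lit 3, nat_lit 5, (.ofNat (nat_lit 0)), (.ofNat (nat_lit 824633720832000)), (.ofNat (nat_lit 32)), (.ofNat (nat_lit 824633720831968)), (.negSucc (nat_lit 678469913465031530538807371432460287999999)), (.negSucc (nat_lit 61533846589550761752724374552575999999)), (.ofNat (nat_lit 0))⟩,
    ⟨nat_lit 3, nat_lit 0, (.ofNat (nat_lit 0)), (.ofNat (nat_lit 288621802291200)), (.ofNat (nat_lit 32)), (.ofNat (nat_lit 288621802291168)), (.negSucc (nat_lit 463620092822858649396187880226815999999999)), (.ofNat (nat_lit 0)), (.ofNat (nat_lit 0))⟩,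
    ⟨nat_lit 4, nat_lit 12, (.negSucc (nat_lit 274877906943999)), (.negSucc (nat_lit 54975581388799)), (.negSucc (nat_lit 274877906943967)), (.negSucc (nat_lit 54975581388831)), (.negSucc (nat_lit 1365630485684619219935991993477365759999999)), (.negSucc (nat_lit 10682959477352562804292426137599999999)), (.negSucc (nat_lit 587301908220448126799641839123041227898879999999999))⟩,
    ⟨nat_lit 5, nat_lit 2, (.ofNat (nat_lit 824633720832000)), (.ofNat (nat_lit 1102217457172480)), (.ofNat (nat_lit 824633720832032)), (.ofNat (nat_lit 1102217457172448)), (.ofNat (nat_lit 1181449854519374625652307991409459200000000)), (.ofNat (nat_lit 0)), (.negSucc (nat_lit 50742884870246718155489054900230762090463231999999999))⟩,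
    ⟨nat_lit 7, nat_lit 8, (.ofNat (nat_lit 1102303356518400)), (.ofNat (nat_lit 1146034713526272)), (.ofNat (nat_lit 1102303356518432)), (.ofNat (nat_lit 1146034713526240)), (.ofNat (nat_lit 1181449854519374625652307991409459200000000)), (.ofNat (nat_lit 0)), (.ofNat (nat_lit 0))⟩,
    ⟨nat_lit 8, nat_lit 9, (.ofNat (nat_lit 1146034713526272)), (.ofNat (nat_lit 1364837527453696)), (.ofNat (nat_lit 1146034713526304)), (.ofNat (nat_lit 1364837527453664)), (.ofNat (nat_lit 1425288887738867957957092862381260800000000)), (.negSucc (nat_lit 242648124812229064700511387647999999999)), (.ofNat (nat_lit 278083174206870028995490413434474954024288256000000000))⟩,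
    ⟨nat_lit 9, nat_lit 6, (.ofNat (nat_lit 1364837527453696)), (.ofNat (nat_lit 1911844562272256)), (.ofNat (nat_lit 1364837527453728)), (.ofNat (nat_lit 1911844562272224)), (.negSucc (nat_lit 664568463533960126323476277871247359999999)), (.ofNat (nat_lit 4294657076322638313283387392000000000)), (.negSucc (nat_lit 58953601648438219329204047667186606312259583999999999))⟩,
    ⟨nat_lit 7, nat_lit 6, (.ofNat (nat_lit 1102303356518400)), (.ofNat (nat_lit 1911844562272256)), (.ofNat (nat_lit 1102303356518432)), (.ofNat (nat_lit 1911844562272224)), (.ofNat (nat_lit 0)), (.ofNat (nat_lit 0)), (.negSucc (nat_lit 50742884870246718155489054900230762090463231999999999))⟩,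
    ⟨nat_lit 0, nat_lit 11, (.ofNat (nat_lit 288621802291200)), (.ofNat (nat_lit 494780232499200)), (.ofNat (nat_lit 288621802291232)), (.ofNat (nat_lit 494780232499168)), (.negSucc (nat_lit 474038521875057720169135922479103999999999)), (.ofNat (nat_lit 0)), (.ofNat (nat_lit 0))⟩,
    ⟨nat_lit 11, nat_lit 2, (.ofNat (nat_lit 494780232499200)), (.ofNat (nat_lit 1102217457172480)), (.ofNat (nat_lit 494780232499232)), (.ofNat (nat_lit 1102217457172448)), (.ofNat (nat_lit 0)), (.ofNat (nat_lit 0)), (.ofNat (nat_lit 0))⟩,
    ⟨nat_lit 12, nat_lit 10, (.negSucc (nat_lit 54975581388799)), (.negSucc (nat_lit 5497558138879)), (.negSucc (nat_lit 54975581388767)), (.negSucc (nat_lit 5497558138911)), (.negSucc (nat_lit 448513370697169996775413218960998399999999)), (.ofNat (nat_lit 0)), (.ofNat (nat_lit 0))⟩]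

theorem ok274 : stOK 12 12 S274 = true := by decide +kernel

end LCA.CapJ


end
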