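import Mathlib
import Pool.Agent.NDM.C01
import Pool.Agent.NDM.C05
import Pool.Agent.NDM.C07
import Pool.Agent.NDM.C10
import Pool.Agent.NDM.C13
import Pool.Agent.NDM.C14
import Pool.Agent.NDM.C15
import Pool.Agent.NDM.C16
import Pool.Agent.NDM.C17

/-! Parts: LCA.CapJ.C1, LCA.CapJ.D3, LCA.CapJ.C2, LCA.CapJ.C3, LCA.CapJ.C5, LCA.CapJ.C6, LCA.CapJ.C7, LCA.CapJ.D9, LCA.CapJ.C9, LCA.CapJ.C10, LCA.CapJ.C11, LCA.CapJ.C12, LCA.CapJ.Run -/

section

set_option maxRecDepth 100000

namespace LCA.CapJ

open LCA

theorem f25 : goOK (.ofNat (nat_lit 1)) S24 S25 = true := by decide +kernel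

theorem f26 : goOK (.ofNat (nat_lit 1)) S25 S26 = true := by decide +kernel

theorem f27 : goOK (.ofNat (nat_lit 1)) S26 S27 = true := by decide +kernel

theorem f28 : goOK (.ofNat (nat_lit 1)) S27 S28 = true := by decide +kernel

theorem f29 : goOK (.ofNat (nat_lit 1)) S28 S29 = true := by decide +kernel

theorem f30 : goOK (.ofNat (nat_lit 1)) S29 S30 = true := by decide +kernel

theorem f31 : goOK (.ofNat (nat_lit 1)) S30 S31 = true := by decide +kernel

theorem f32 : goOK (.ofNat (nat_lit 1)) S31 S32 = true := by decide +kernel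

theorem f33 : goOK (.ofNat (nat_lit 1)) S32 S33 = true := by decide +kernel

theorem f34 : goOK (.ofNat (nat_lit 1)) S33 S34 = true := by decide +kernel

theorem f35 : goOK (.ofNat (nat_lit 1)) S34 S35 = true := by decide +kernel

theorem f36 : goOK (.ofNat (nat_lit 1)) S35 S36 = true := by decide +kernel

theorem f37 : goOK (.ofNat (nat_lit 1)) S36 S37 = true := by decide +kernel

theorem f38 : goOK (.ofNat (nat_lit 1)) S37 S38 = true := by decide +kernel

theorem f39 : goOK (.ofNat (nat_lit 1)) S38 S39 = true := by decide +kernel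

theorem f40 : goOK (.ofNat (nat_lit 1)) S39 S40 = true := by decide +kernel

theorem f41 : goOK (.ofNat (nat_lit 1)) S40 S41 = true := by decide +kernel

theorem f42 : goOK (.ofNat (nat_lit 1)) S41 S42 = true := by decide +kernel

theorem f43 : goOK (.ofNat (nat_lit 1)) S42 S43 = true := by decide +kernel

theorem f44 : goOK (.ofNat (nat_lit 1)) S43 S44 = true := by decide +kernel

theorem f45 : goOK (.ofNat (nat_lit 1)) S44 S45 = true := by decide +kernel

theorem f46 : goOK (.ofNat (nat_lit 1)) S45 S46 = true := by decide +kernel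

theorem f47 : goOK (.ofNat (nat_lit 1)) S46 S47 = true := by decide +kernel

theorem f48 : goOK (.ofNat (nat_lit 1)) S47 S48 = true := by decide +kernel

theorem f49 : sdOK 23 23 22 11 22 11 21 12 ⟨(.ofNat (nat_lit 41860992)), (.ofNat (nat_lit 2235819278072489889554723234304)), (.ofNat (nat_lit 6440532662539088786081447936)), (.ofNat (nat_lit 0)), (.ofNat (nat_lit 0)), (.ofNat (nat_lit 3071085292119545357743)), (.ofNat (nat_lit 2097152)), (.ofNat (nat_lit 8))⟩ S48 S49 S50 S51 = true := by decide +kernel

end LCA.CapJ


end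

section

set_option maxRecDepth 100000

namespace LCA.CapJ

open LCA

def S75 : SD where
  vs := [
    ⟨nat_lit 0, nat_lit 0, nat_lit 22, (.ofNat (nat_lit 8)), (.negSucc (nat_lit 647126463)), (.ofNat (nat_lit 5011946494631071149223671514560)), (.ofNat (nat_lit 0)), (.ofNat (nat_lit 77106869148170325372090597184)), (.negSucc (nat_lit 647126479)), (.negSucc (nat_lit 647126447)), (.negSucc (nat_lit 6632594829109119976154)), (.ofNat (nat_lit 6632594829109119976155)), (.negSucc (nat_lit 6632594829109119976154)), (.ofNat (nat_lit 6632594829109119976155)), (.ofNat (nat_lit 612239522686995690102))⟩,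
    ⟨nat_lit 2, nat_lit 0, nat_lit 1, (.ofNat (nat_lit 8)), (.negSucc (nat_lit 986225983)), (.ofNat (nat_lit 7261056217536455760760243460160)), (.ofNat (nat_lit 0)), (.ofNat (nat_lit 111708557192868550164700089024)), (.negSucc (nat_lit 986225999)), (.negSucc (nat_lit 986225967)), (.negSucc (nat_lit 6632594829109119976154)), (.ofNat (nat_lit 6632594829109119976155)), (.negSucc (nat_lit 6632594829109119976154)), (.ofNat (nat_lit 6632594829109119976155)), (.ofNat (nat_lit 612239522686995690102))⟩,
    ⟨nat_lit 0, nat_lit 1, nat_lit 2, (.ofNat (nat_lit 8)), (.negSucc (nat_lit 836427263)), (.ofNat (nat_lit 8254610433215620673514692981760)), (.ofNat (nat_lit 0)), (.ofNat (nat_lit 126994006664855702668499467264)), (.negSucc (nat_lit 836427279)), (.negSucc (nat_lit 836427247)), (.ofNat (nat_lit 6632594829109119976155)), (.negSucc (nat_lit 6632594829109119976154)), (.negSucc (nat_lit 6632594829109119976154)), (.ofNat (nat_lit 6632594829109119976155)), (.ofNat (nat_lit 612239522686995690102))⟩,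
    ⟨nat_lit 0, nat_lit 2, nat_lit 3, (.ofNat (nat_lit 8)), (.negSucc (nat_lit 656809471)), (.ofNat (nat_lit 7063278394780423216334639232000)), (.ofNat (nat_lit 0)), (.ofNat (nat_lit 108665821458160357173559884800)), (.negSucc (nat_lit 656809487)), (.negSucc (nat_lit 656809455)), (.negSucc (nat_lit 6632594829109119976154)), (.ofNat (nat_lit 6632594829109119976155)), (.negSucc (nat_lit 6632594829109119976154)), (.ofNat (nat_lit 6632594829109119976155)), (.ofNat (nat_lit 612239522686995690102))⟩,
    ⟨nat_lit 1, nat_lit 3, nat_lit 4, (.ofNat (nat_lit 8)), (.ofNat (nat_lit 191488064)), (.ofNat (nat_lit 12689692245600030767235304486080)), (.ofNat (nat_lit 0)), (.ofNat (nat_lit 195226034547692781032917582912)), (.ofNat (nat_lit 191488048)), (.ofNat (nat_lit 191488080)), (.ofNat (nat_lit 6632594829109119976155)), (.negSucc (nat_lit 6632594829109119976154)), (.negSucc (nat_lit 6632594829109119976154)), (.ofNat (nat_lit 6632594829109119976155)), (.ofNat (nat_lit 612239522686995690102))⟩,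
    ⟨nat_lit 0, nat_lit 5, nat_lit 4, (.ofNat (nat_lit 8)), (.negSucc (nat_lit 17293247)), (.ofNat (nat_lit 14074454095985848627022354101440)), (.ofNat (nat_lit 0)), (.ofNat (nat_lit 216530063015166901952557745216)), (.negSucc (nat_lit 17293263)), (.negSucc (nat_lit 17293231)), (.ofNat (nat_lit 6632594829109119976155)), (.negSucc (nat_lit 6632594829109119976154)), (.negSucc (nat_lit 6632594829109119976154)), (.ofNat (nat_lit 6632594829109119976155)), (.ofNat (nat_lit 612239522686995690102))⟩,
    ⟨nat_lit 2, nat_lit 6, nat_lit 5, (.ofNat (nat_lit 8)), (.negSucc (nat_lit 941252095)), (.ofNat (nat_lit 7946209418431429267560392832000)), (.ofNat (nat_lit 0)), (.ofNat (nat_lit 122249375668175834884622924800)), (.negSucc (nat_lit 941252111)), (.negSucc (nat_lit 941252079)), (.negSucc (nat_lit 6632594829109119976154)), (.ofNat (nat_lit 6632594829109119976155)), (.negSucc (nat_lit 6632594829109119976154)), (.ofNat (nat_lit 6632594829109119976155)), (.ofNat (nat_lit 612239522686995690102))⟩,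
    ⟨nat_lit 0, nat_lit 7, nat_lit 8, (.ofNat (nat_lit 8)), (.negSucc (nat_lit 675995135)), (.ofNat (nat_lit 7892092538458727604359109719040)), (.ofNat (nat_lit 0)), (.ofNat (nat_lit 121416808283980424681532537856)), (.negSucc (nat_lit 675995151)), (.negSucc (nat_lit 675995119)), (.ofNat (nat_lit 6632594829109119976155)), (.negSucc (nat_lit 6632594829109119976154)), (.negSucc (nat_lit 6632594829109119976154)), (.ofNat (nat_lit 6632594829109119976155)), (.ofNat (nat_lit 612239522686995690102))⟩,
    ⟨nat_lit 0, nat_lit 8, nat_lit 9, (.ofNat (nat_lit 8)), (.ofNat (nat_lit 238337792)), (.ofNat (nat_lit 1827692688121726305058018387200)), (.ofNat (nat_lit 0)), (.ofNat (nat_lit 28118349048026558539142158080)), (.ofNat (nat_lit 238337776)), (.ofNat (nat_lit 238337808)), (.negSucc (nat_lit 6632594829109119976154)), (.ofNat (nat_lit 6632594829109119976155)), (.negSucc (nat_lit 6632594829109119976154)), (.ofNat (nat_lit 6632594829109119976155)), (.ofNat (nat_lit 612239522686995690102))⟩,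
    ⟨nat_lit 1, nat_lit 9, nat_lit 10, (.ofNat (nat_lit 8)), (.ofNat (nat_lit 1005501760)), (.ofNat (nat_lit 6915980455357360690953153570240)), (.ofNat (nat_lit 0)), (.ofNat (nat_lit 106399699313190164475400265536)), (.ofNat (nat_lit 1005501744)), (.ofNat (nat_lit 1005501776)), (.ofNat (nat_lit 6632594829109119976155)), (.negSucc (nat_lit 6632594829109119976154)), (.negSucc (nat_lit 6632594829109119976154)), (.ofNat (nat_lit 6632594829109119976155)), (.ofNat (nat_lit 612239522686995690102))⟩,
    ⟨nat_lit 0, nat_lit 11, nat_lit 10, (.ofNat (nat_lit 8)), (.ofNat (nat_lit 588848896)), (.ofNat (nat_lit 9679470086657266097537746028160)), (.ofNat (nat_lit 0)), (.ofNat (nat_lit 148914924410111786114842724224)), (.ofNat (nat_lit 588848880)), (.ofNat (nat_lit 588848912)), (.ofNat (nat_lit 6632594829109119976155)), (.negSucc (nat_lit 6632594829109119976154)), (.negSucc (nat_lit 6632594829109119976154)), (.ofNat (nat_lit 6632594829109119976155)), (.ofNat (nat_lit 612239522686995690102))⟩,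
    ⟨nat_lit 1, nat_lit 13, nat_lit 21, (.ofNat (nat_lit 8)), (.ofNat (nat_lit 400121600)), (.ofNat (nat_lit 8132793968032339995368318263680)), (.ofNat (nat_lit 0)), (.ofNat (nat_lit 125127345153287132402500822912)), (.ofNat (nat_lit 400121584)), (.ofNat (nat_lit 400121616)), (.ofNat (nat_lit 6632594829109119976155)), (.negSucc (nat_lit 6632594829109119976154)), (.negSucc (nat_lit 6632594829109119976154)), (.ofNat (nat_lit 6632594829109119976155)), (.ofNat (nat_lit 612269613046261806158))⟩,
    ⟨nat_lit 0, nat_lit 14, nat_lit 13, (.ofNat (nat_lit 8)), (.negSucc (nat_lit 141270975)), (.ofNat (nat_lit 4541956367936673746384704238400)), (.ofNat (nat_lit 0)), (.ofNat (nat_lit 69876251814410365328468685760)), (.negSucc (nat_lit 141270991)), (.negSucc (nat_lit 141270959)), (.negSucc (nat_lit 6632594829109119976154)), (.ofNat (nat_lit 6632594829109119976155)), (.negSucc (nat_lit 6632594829109119976154)), (.ofNat (nat_lit 6632594829109119976155)), (.ofNat (nat_lit 612266999801087457822))⟩,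
    ⟨nat_lit 0, nat_lit 15, nat_lit 14, (.ofNat (nat_lit 8)), (.negSucc (nat_lit 687693311)), (.ofNat (nat_lit 8166154328199999882659583636480)), (.ofNat (nat_lit 0)), (.ofNat (nat_lit 125633143510769228963046505472)), (.negSucc (nat_lit 687693327)), (.negSucc (nat_lit 687693295)), (.ofNat (nat_lit 6632594829109119976155)), (.negSucc (nat_lit 6632594829109119976154)), (.negSucc (nat_lit 6632594829109119976154)), (.ofNat (nat_lit 6632594829109119976155)), (.ofNat (nat_lit 612239522686995690102))⟩,
    ⟨nat_lit 0, nat_lit 6, nat_lit 15, (.ofNat (nat_lit 8)), (.negSucc (nat_lit 831053311)), (.ofNat (nat_lit 7215305533498916442878002836480)), (.ofNat (nat_lit 0)), (.ofNat (nat_lit 111004700515367945274209385472)), (.negSucc (nat_lit 831053327)), (.negSucc (nat_lit 831053295)), (.negSucc (nat_lit 6632594829109119976154)), (.ofNat (nat_lit 6632594829109119976155)), (.negSucc (nat_lit 6632594829109119976154)), (.ofNat (nat_lit 6632594829109119976155)), (.ofNat (nat_lit 612239522686995690102))⟩,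
    ⟨nat_lit 0, nat_lit 23, nat_lit 16, (.ofNat (nat_lit 8)), (.negSucc (nat_lit 109649855)), (.ofNat (nat_lit 1151503784033224887579881257920)), (.ofNat (nat_lit 0)), (.ofNat (nat_lit 17715442831280382885710778688)), (.negSucc (nat_lit 109649871)), (.negSucc (nat_lit 109649839)), (.negSucc (nat_lit 6632594829109119976154)), (.ofNat (nat_lit 6632594829109119976155)), (.negSucc (nat_lit 6632594829109119976154)), (.ofNat (nat_lit 6632594829109119976155)), (.ofNat (nat_lit 612239522686995690102))⟩,
    ⟨nat_lit 1, nat_lit 16, nat_lit 17, (.ofNat (nat_lit 8)), (.ofNat (nat_lit 854236608)), (.ofNat (nat_lit 7544572161007898811547688523840)), (.ofNat (nat_lit 0)), (.ofNat (nat_lit 116070340938583058638320208576)), (.ofNat (nat_lit 854236592)), (.ofNat (nat_lit 854236624)), (.ofNat (nat_lit 6632594829109119976155)), (.negSucc (nat_lit 6632594829109119976154)), (.negSucc (nat_lit 6632594829109119976154)), (.ofNat (nat_lit 6632594829109119976155)), (.ofNat (nat_lit 612239522686995690102))⟩,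
    ⟨nat_lit 0, nat_lit 18, nat_lit 17, (.ofNat (nat_lit 8)), (.ofNat (nat_lit 164159552)), (.ofNat (nat_lit 12121573674320343427443521123520)), (.ofNat (nat_lit 0)), (.ofNat (nat_lit 186485748835697591190032958528)), (.ofNat (nat_lit 164159536)), (.ofNat (nat_lit 164159568)), (.ofNat (nat_lit 6632594829109119976155)), (.negSucc (nat_lit 6632594829109119976154)), (.negSucc (nat_lit 6632594829109119976154)), (.ofNat (nat_lit 6632594829109119976155)), (.ofNat (nat_lit 612239522686995690102))⟩,
    ⟨nat_lit 0, nat_lit 19, nat_lit 18, (.ofNat (nat_lit 8)), (.negSucc (nat_lit 655891967)), (.ofNat (nat_lit 6682504203165269345135249617920)), (.ofNat (nat_lit 0)), (.ofNat (nat_lit 102807756971773374539767282688)), (.negSucc (nat_lit 655891983)), (.negSucc (nat_lit 655891951)), (.negSucc (nat_lit 6632594829109119976154)), (.ofNat (nat_lit 6632594829109119976155)), (.negSucc (nat_lit 6632594829109119976154)), (.ofNat (nat_lit 6632594829109119976155)), (.ofNat (nat_lit 612239522686995690102))⟩,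
    ⟨nat_lit 2, nat_lit 19, nat_lit 20, (.ofNat (nat_lit 8)), (.negSucc (nat_lit 835509759)), (.ofNat (nat_lit 7873836241600466802315303367680)), (.ofNat (nat_lit 0)), (.ofNat (nat_lit 121135942178468720034706865152)), (.negSucc (nat_lit 835509775)), (.negSucc (nat_lit 835509743)), (.negSucc (nat_lit 6632594829109119976154)), (.ofNat (nat_lit 6632594829109119976155)), (.negSucc (nat_lit 6632594829109119976154)), (.ofNat (nat_lit 6632594829109119976155)), (.ofNat (nat_lit 612239522686995690102))⟩,
    ⟨nat_lit 0, nat_lit 20, nat_lit 21, (.ofNat (nat_lit 8)), (.negSucc (nat_lit 198172479)), (.ofNat (nat_lit 12101036189326938151111595926080)), (.ofNat (nat_lit 0)), (.ofNat (nat_lit 186169787528106740784928798912)), (.negSucc (nat_lit 198172495)), (.negSucc (nat_lit 198172463)), (.ofNat (nat_lit 6632594829109119976155)), (.negSucc (nat_lit 6632594829109119976154)), (.negSucc (nat_lit 6632594829109119976154)), (.ofNat (nat_lit 6632594829109119976155)), (.ofNat (nat_lit 612214658818078270718))⟩,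
    ⟨nat_lit 0, nat_lit 22, nat_lit 12, (.ofNat (nat_lit 8)), (.negSucc (nat_lit 95985471)), (.ofNat (nat_lit 8667441388280342009128754560320)), (.ofNat (nat_lit 0)), (.ofNat (nat_lit 133345252127389877062514074048)), (.negSucc (nat_lit 95985487)), (.negSucc (nat_lit 95985455)), (.ofNat (nat_lit 6632594829109119976155)), (.negSucc (nat_lit 6632594829109119976154)), (.negSucc (nat_lit 6632594829109119976154)), (.ofNat (nat_lit 6632594829109119976155)), (.ofNat (nat_lit 612239522686995690102))⟩,
    ⟨nat_lit 2, nat_lit 23, nat_lit 7, (.ofNat (nat_lit 8)), (.negSucc (nat_lit 900963647)), (.ofNat (nat_lit 6399967549055154597694043887680)), (.ofNat (nat_lit 0)), (.ofNat (nat_lit 98461039216233147656089193152)), (.negSucc (nat_lit 900963663)), (.negSucc (nat_lit 900963631)), (.negSucc (nat_lit 6632594829109119976154)), (.ofNat (nat_lit 6632594829109119976155)), (.negSucc (nat_lit 6632594829109119976154)), (.ofNat (nat_lit 6632594829109119976155)), (.ofNat (nat_lit 612239522686995690102))⟩,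
    ⟨nat_lit 0, nat_lit 12, nat_lit 11, (.ofNat (nat_lit 8)), (.ofNat (nat_lit 170139648)), (.ofNat (nat_lit 6902341293472297962380108046720)), (.ofNat (nat_lit 0)), (.ofNat (nat_lit 106189866053419968651201147008)), (.ofNat (nat_lit 170139632)), (.ofNat (nat_lit 170139664)), (.negSucc (nat_lit 6632594829109119976154)), (.ofNat (nat_lit 6632594829109119976155)), (.negSucc (nat_lit 6632594829109119976154)), (.ofNat (nat_lit 6632594829109119976155)), (.ofNat (nat_lit 612239522686995690102))⟩]
  es := [
    ⟨nat_lit 1, nat_lit 0, (.negSucc (nat_lit 986225983)), (.negSucc (nat_lit 647126463)), (.negSucc (nat_lit 986225967)), (.negSucc (nat_lit 647126479)), (.negSucc (nat_lit 6632594829109119976154)), (.negSucc (nat_lit 102039920447832615016)), (.ofNat (nat_lit 11074136241923108752266087296))⟩,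
    ⟨nat_lit 1, nat_lit 2, (.negSucc (nat_lit 986225983)), (.negSucc (nat_lit 836427263)), (.negSucc (nat_lit 986225967)), (.negSucc (nat_lit 836427279)), (.ofNat (nat_lit 6632594829109119976155)), (.ofNat (nat_lit 102039920447832615017)), (.ofNat (nat_lit 212342978143813991577134090752))⟩,
    ⟨nat_lit 2, nat_lit 3, (.negSucc (nat_lit 836427263)), (.negSucc (nat_lit 656809471)), (.negSucc (nat_lit 836427247)), (.negSucc (nat_lit 656809487)), (.negSucc (nat_lit 6632594829109119976154)), (.negSucc (nat_lit 102039920447832615016)), (.ofNat (nat_lit 41645035185897413759864843776))⟩,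
    ⟨nat_lit 3, nat_lit 4, (.negSucc (nat_lit 656809471)), (.ofNat (nat_lit 191488064)), (.negSucc (nat_lit 656809455)), (.ofNat (nat_lit 191488048)), (.ofNat (nat_lit 6632594829109119976155)), (.ofNat (nat_lit 102039920447832615017)), (.ofNat (nat_lit 175686607730423300587254925824))⟩,
    ⟨nat_lit 5, nat_lit 4, (.negSucc (nat_lit 17293247)), (.ofNat (nat_lit 191488064)), (.negSucc (nat_lit 17293231)), (.ofNat (nat_lit 191488048)), (.negSucc (nat_lit 6632594829109119976154)), (.negSucc (nat_lit 102039920447832615016)), (.ofNat (nat_lit 214765461364962261478580240000))⟩,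
    ⟨nat_lit 6, nat_lit 5, (.negSucc (nat_lit 941252095)), (.negSucc (nat_lit 17293247)), (.negSucc (nat_lit 941252079)), (.negSucc (nat_lit 17293263)), (.ofNat (nat_lit 6632594829109119976155)), (.ofNat (nat_lit 102039920447832615017)), (.ofNat (nat_lit 218294664665371542426535250432))⟩,
    ⟨nat_lit 6, nat_lit 14, (.negSucc (nat_lit 941252095)), (.negSucc (nat_lit 831053311)), (.negSucc (nat_lit 941252079)), (.negSucc (nat_lit 831053327)), (.negSucc (nat_lit 6632594829109119976154)), (.negSucc (nat_lit 102039920447832615016)), (.ofNat (nat_lit 26204086670980127342710599168))⟩,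
    ⟨nat_lit 22, nat_lit 7, (.negSucc (nat_lit 900963647)), (.negSucc (nat_lit 675995135)), (.negSucc (nat_lit 900963631)), (.negSucc (nat_lit 675995151)), (.ofNat (nat_lit 6632594829109119976155)), (.ofNat (nat_lit 102039920447832615017)), (.ofNat (nat_lit 190395298184542214175185095168))⟩,
    ⟨nat_lit 7, nat_lit 8, (.negSucc (nat_lit 675995135)), (.ofNat (nat_lit 238337792)), (.negSucc (nat_lit 675995119)), (.ofNat (nat_lit 238337776)), (.negSucc (nat_lit 6632594829109119976154)), (.negSucc (nat_lit 102039920447832615016)), (.ofNat (nat_lit 52438318383418635187879980544))⟩,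
    ⟨nat_lit 8, nat_lit 9, (.ofNat (nat_lit 238337792)), (.ofNat (nat_lit 1005501760)), (.ofNat (nat_lit 238337808)), (.ofNat (nat_lit 1005501744)), (.ofNat (nat_lit 6632594829109119976155)), (.ofNat (nat_lit 102039920447832615017)), (.ofNat (nat_lit 3798379712634481890404335616))⟩,
    ⟨nat_lit 10, nat_lit 9, (.ofNat (nat_lit 588848896)), (.ofNat (nat_lit 1005501760)), (.ofNat (nat_lit 588848912)), (.ofNat (nat_lit 1005501744)), (.negSucc (nat_lit 6632594829109119976154)), (.negSucc (nat_lit 102039920447832615016)), (.ofNat (nat_lit 209001018913745847060396195456))⟩,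
    ⟨nat_lit 23, nat_lit 10, (.ofNat (nat_lit 170139648)), (.ofNat (nat_lit 588848896)), (.ofNat (nat_lit 170139664)), (.ofNat (nat_lit 588848880)), (.ofNat (nat_lit 6632594829109119976155)), (.ofNat (nat_lit 102039920447832615017)), (.ofNat (nat_lit 88828829906477725169289252992))⟩,
    ⟨nat_lit 21, nat_lit 23, (.negSucc (nat_lit 95985471)), (.ofNat (nat_lit 170139648)), (.negSucc (nat_lit 95985455)), (.ofNat (nat_lit 170139632)), (.negSucc (nat_lit 6632594829109119976154)), (.negSucc (nat_lit 102039920447832615016)), (.ofNat (nat_lit 123550902200362212133113041024))⟩,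
    ⟨nat_lit 12, nat_lit 11, (.negSucc (nat_lit 141270975)), (.ofNat (nat_lit 400121600)), (.negSucc (nat_lit 141270959)), (.ofNat (nat_lit 400121584)), (.ofNat (nat_lit 6632594829109119976155)), (.ofNat (nat_lit 102053659004878498877)), (.ofNat (nat_lit 84293471826400739626237379712))⟩,
    ⟨nat_lit 13, nat_lit 12, (.negSucc (nat_lit 687693311)), (.negSucc (nat_lit 141270975)), (.negSucc (nat_lit 687693295)), (.negSucc (nat_lit 141270991)), (.negSucc (nat_lit 6632594829109119976154)), (.negSucc (nat_lit 102039920447832615016)), (.ofNat (nat_lit 55460972661782694720384839168))⟩,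
    ⟨nat_lit 14, nat_lit 13, (.negSucc (nat_lit 831053311)), (.negSucc (nat_lit 687693311)), (.negSucc (nat_lit 831053295)), (.negSucc (nat_lit 687693327)), (.ofNat (nat_lit 6632594829109119976155)), (.ofNat (nat_lit 102039920447832615017)), (.ofNat (nat_lit 195805314359755763205708171776))⟩,
    ⟨nat_lit 15, nat_lit 16, (.negSucc (nat_lit 109649855)), (.ofNat (nat_lit 854236608)), (.negSucc (nat_lit 109649839)), (.ofNat (nat_lit 854236592)), (.ofNat (nat_lit 6632594829109119976155)), (.ofNat (nat_lit 102039920447832615017)), (.ofNat (nat_lit 28904105414636684634428266240))⟩,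
    ⟨nat_lit 17, nat_lit 16, (.ofNat (nat_lit 164159552)), (.ofNat (nat_lit 854236608)), (.ofNat (nat_lit 164159568)), (.ofNat (nat_lit 854236592)), (.negSucc (nat_lit 6632594829109119976154)), (.negSucc (nat_lit 102039920447832615016)), (.ofNat (nat_lit 203236576462529432642212150912))⟩,
    ⟨nat_lit 18, nat_lit 17, (.negSucc (nat_lit 655891967)), (.ofNat (nat_lit 164159552)), (.negSucc (nat_lit 655891951)), (.ofNat (nat_lit 164159536)), (.ofNat (nat_lit 6632594829109119976155)), (.ofNat (nat_lit 102039920447832615017)), (.ofNat (nat_lit 169734921208865749737853766144))⟩,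
    ⟨nat_lit 19, nat_lit 18, (.negSucc (nat_lit 835509759)), (.negSucc (nat_lit 655891967)), (.negSucc (nat_lit 835509743)), (.negSucc (nat_lit 655891983)), (.negSucc (nat_lit 6632594829109119976154)), (.negSucc (nat_lit 102039920447832615016)), (.ofNat (nat_lit 35880592734680999341680799232))⟩,
    ⟨nat_lit 19, nat_lit 20, (.negSucc (nat_lit 835509759)), (.negSucc (nat_lit 198172479)), (.negSucc (nat_lit 835509743)), (.negSucc (nat_lit 198172495)), (.ofNat (nat_lit 6632594829109119976155)), (.ofNat (nat_lit 102039920447832615017)), (.ofNat (nat_lit 206391291622256440727732931072))⟩,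
    ⟨nat_lit 20, nat_lit 11, (.negSucc (nat_lit 198172479)), (.ofNat (nat_lit 400121600)), (.negSucc (nat_lit 198172463)), (.ofNat (nat_lit 400121584)), (.negSucc (nat_lit 6632594829109119976154)), (.negSucc (nat_lit 102027488513373905324)), (.ofNat (nat_lit 165950747101239920799388342912))⟩,
    ⟨nat_lit 0, nat_lit 21, (.negSucc (nat_lit 647126463)), (.negSucc (nat_lit 95985471)), (.negSucc (nat_lit 647126447)), (.negSucc (nat_lit 95985487)), (.ofNat (nat_lit 6632594829109119976155)), (.ofNat (nat_lit 102039920447832615017)), (.ofNat (nat_lit 143139602054417541991915107072))⟩,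
    ⟨nat_lit 22, nat_lit 15, (.negSucc (nat_lit 900963647)), (.negSucc (nat_lit 109649855)), (.negSucc (nat_lit 900963631)), (.negSucc (nat_lit 109649871)), (.negSucc (nat_lit 6632594829109119976154)), (.negSucc (nat_lit 102039920447832615016)), (.ofNat (nat_lit 6526780247924081136993291136))⟩]

theorem ok75 : stOK 23 23 S75 = true := by decide +kernel

def S76 : SD where
  vs := [
    ⟨nat_lit 0, nat_lit 0, nat_lit 22, (.ofNat (nat_lit 8)), (.negSucc (nat_lit 647650751)), (.ofNat (nat_lit 5018901274386599073811788219840)), (.negSucc (nat_lit 524287)), (.ofNat (nat_lit 6954779755527924588116705280)), (.negSucc (nat_lit 647650767)), (.negSucc (nat_lit 647650735)), (.negSucc (nat_lit 6632594829109119976154)), (.ofNat (nat_lit 6632594829109119976155)), (.negSucc (nat_lit 6632594829109119976154)), (.ofNat (nat_lit 6632594829109119976155)), (.ofNat (nat_lit 0))⟩,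
    ⟨nat_lit 2, nat_lit 0, nat_lit 1, (.ofNat (nat_lit 8)), (.negSucc (nat_lit 1254448191)), (.ofNat (nat_lit 9043542837247250555995503263040)), (.negSucc (nat_lit 268222207)), (.ofNat (nat_lit 1782486619710794795235259802880)), (.negSucc (nat_lit 1254448207)), (.negSucc (nat_lit 1254448175)), (.negSucc (nat_lit 6632594829109119976154)), (.ofNat (nat_lit 6632594829109119976155)), (.negSucc (nat_lit 6632594829109119976154)), (.ofNat (nat_lit 6632594829109119976155)), (.ofNat (nat_lit 0))⟩,
    ⟨nat_lit 0, nat_lit 1, nat_lit 2, (.ofNat (nat_lit 8)), (.negSucc (nat_lit 1103863039)), (.ofNat (nat_lit 10042313137743061412191040313600)), (.negSucc (nat_lit 267435775)), (.ofNat (nat_lit 1787702704527440738676347331840)), (.negSucc (nat_lit 1103863055)), (.negSucc (nat_lit 1103863023)), (.ofNat (nat_lit 6632594829109119976155)), (.negSucc (nat_lit 6632594829109119976154)), (.negSucc (nat_lit 6632594829109119976154)), (.ofNat (nat_lit 6632594829109119976155)), (.ofNat (nat_lit 0))⟩,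
    ⟨nat_lit 0, nat_lit 2, nat_lit 3, (.ofNat (nat_lit 8)), (.negSucc (nat_lit 923196671)), (.ofNat (nat_lit 8844026319552336030422869858560)), (.negSucc (nat_lit 266387199)), (.ofNat (nat_lit 1780747924771912814088230626560)), (.negSucc (nat_lit 923196687)), (.negSucc (nat_lit 923196655)), (.negSucc (nat_lit 6632594829109119976154)), (.ofNat (nat_lit 6632594829109119976155)), (.negSucc (nat_lit 6632594829109119976154)), (.ofNat (nat_lit 6632594829109119976155)), (.ofNat (nat_lit 0))⟩,
    ⟨nat_lit 1, nat_lit 3, nat_lit 4, (.ofNat (nat_lit 8)), (.negSucc (nat_lit 73064127)), (.ofNat (nat_lit 14482611034944117449352739346880)), (.negSucc (nat_lit 264552191)), (.ofNat (nat_lit 1792918789344086682117434860800)), (.negSucc (nat_lit 73064143)), (.negSucc (nat_lit 73064111)), (.ofNat (nat_lit 6632594829109119976155)), (.negSucc (nat_lit 6632594829109119976154)), (.negSucc (nat_lit 6632594829109119976154)), (.ofNat (nat_lit 6632594829109119976155)), (.ofNat (nat_lit 0))⟩,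
    ⟨nat_lit 0, nat_lit 5, nat_lit 4, (.ofNat (nat_lit 8)), (.negSucc (nat_lit 283156159)), (.ofNat (nat_lit 15876066360024345214874934843840)), (.negSucc (nat_lit 265862911)), (.ofNat (nat_lit 1801612264038496587852580742400)), (.negSucc (nat_lit 283156175)), (.negSucc (nat_lit 283156143)), (.ofNat (nat_lit 6632594829109119976155)), (.negSucc (nat_lit 6632594829109119976154)), (.negSucc (nat_lit 6632594829109119976154)), (.ofNat (nat_lit 6632594829109119976155)), (.ofNat (nat_lit 0))⟩,
    ⟨nat_lit 2, nat_lit 6, nat_lit 5, (.ofNat (nat_lit 8)), (.negSucc (nat_lit 1209474303)), (.ofNat (nat_lit 9732173428019988025089710987520)), (.negSucc (nat_lit 268222207)), (.ofNat (nat_lit 1785964009588558757529318155520)), (.negSucc (nat_lit 1209474319)), (.negSucc (nat_lit 1209474287)), (.negSucc (nat_lit 6632594829109119976154)), (.ofNat (nat_lit 6632594829109119976155)), (.negSucc (nat_lit 6632594829109119976154)), (.ofNat (nat_lit 6632594829109119976155)), (.ofNat (nat_lit 0))⟩,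
    ⟨nat_lit 0, nat_lit 7, nat_lit 8, (.ofNat (nat_lit 8)), (.negSucc (nat_lit 942382335)), (.ofNat (nat_lit 9676317853108404380741398698240)), (.negSucc (nat_lit 266387199)), (.ofNat (nat_lit 1784225314649676776382288979200)), (.negSucc (nat_lit 942382351)), (.negSucc (nat_lit 942382319)), (.ofNat (nat_lit 6632594829109119976155)), (.negSucc (nat_lit 6632594829109119976154)), (.negSucc (nat_lit 6632594829109119976154)), (.ofNat (nat_lit 6632594829109119976155)), (.ofNat (nat_lit 0))⟩,
    ⟨nat_lit 0, nat_lit 8, nat_lit 9, (.ofNat (nat_lit 8)), (.ofNat (nat_lit 239648512)), (.ofNat (nat_lit 1836386162816136210793164268800)), (.ofNat (nat_lit 1310720)), (.ofNat (nat_lit 8693474694409905735145881600)), (.ofNat (nat_lit 239648496)), (.ofNat (nat_lit 239648528)), (.negSucc (nat_lit 6632594829109119976154)), (.ofNat (nat_lit 6632594829109119976155)), (.negSucc (nat_lit 6632594829109119976154)), (.ofNat (nat_lit 6632594829109119976155)), (.ofNat (nat_lit 0))⟩,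
    ⟨nat_lit 1, nat_lit 9, nat_lit 10, (.ofNat (nat_lit 8)), (.ofNat (nat_lit 1008123200)), (.ofNat (nat_lit 6933367404746180502423445333440)), (.ofNat (nat_lit 2621440)), (.ofNat (nat_lit 17386949388819811470291763200)), (.ofNat (nat_lit 1008123184)), (.ofNat (nat_lit 1008123216)), (.ofNat (nat_lit 6632594829109119976155)), (.negSucc (nat_lit 6632594829109119976154)), (.negSucc (nat_lit 6632594829109119976154)), (.ofNat (nat_lit 6632594829109119976155)), (.ofNat (nat_lit 0))⟩,
    ⟨nat_lit 0, nat_lit 11, nat_lit 10, (.ofNat (nat_lit 8)), (.ofNat (nat_lit 324558848)), (.ofNat (nat_lit 11467172791184706836214093360000)), (.negSucc (nat_lit 264290047)), (.ofNat (nat_lit 1787702704527440738676347331840)), (.ofNat (nat_lit 324558832)), (.ofNat (nat_lit 324558864)), (.ofNat (nat_lit 6632594829109119976155)), (.negSucc (nat_lit 6632594829109119976154)), (.negSucc (nat_lit 6632594829109119976154)), (.ofNat (nat_lit 6632594829109119976155)), (.ofNat (nat_lit 0))⟩,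
    ⟨nat_lit 1, nat_lit 13, nat_lit 21, (.ofNat (nat_lit 8)), (.ofNat (nat_lit 401694464)), (.ofNat (nat_lit 8150180917421159806838610026880)), (.ofNat (nat_lit 1572864)), (.ofNat (nat_lit 17386949388819811470291763200)), (.ofNat (nat_lit 401694448)), (.ofNat (nat_lit 401694480)), (.ofNat (nat_lit 6632594829109119976155)), (.negSucc (nat_lit 6632594829109119976154)), (.negSucc (nat_lit 6632594829109119976154)), (.ofNat (nat_lit 6632594829109119976155)), (.ofNat (nat_lit 0))⟩,
    ⟨nat_lit 0, nat_lit 14, nat_lit 13, (.ofNat (nat_lit 8)), (.negSucc (nat_lit 140222399)), (.ofNat (nat_lit 4555865927447729595560937648960)), (.ofNat (nat_lit 1048576)), (.ofNat (nat_lit 13909559511055849176233410560)), (.negSucc (nat_lit 140222415)), (.negSucc (nat_lit 140222383)), (.negSucc (nat_lit 6632594829109119976154)), (.ofNat (nat_lit 6632594829109119976155)), (.negSucc (nat_lit 6632594829109119976154)), (.ofNat (nat_lit 6632594829109119976155)), (.ofNat (nat_lit 0))⟩,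
    ⟨nat_lit 0, nat_lit 15, nat_lit 14, (.ofNat (nat_lit 8)), (.negSucc (nat_lit 954080511)), (.ofNat (nat_lit 9953857032727440621335930968320)), (.negSucc (nat_lit 266387199)), (.ofNat (nat_lit 1787702704527440738676347331840)), (.negSucc (nat_lit 954080527)), (.negSucc (nat_lit 954080495)), (.ofNat (nat_lit 6632594829109119976155)), (.negSucc (nat_lit 6632594829109119976154)), (.negSucc (nat_lit 6632594829109119976154)), (.ofNat (nat_lit 6632594829109119976155)), (.ofNat (nat_lit 0))⟩,
    ⟨nat_lit 0, nat_lit 6, nat_lit 15, (.ofNat (nat_lit 8)), (.negSucc (nat_lit 1098489087)), (.ofNat (nat_lit 8996053458270829256966233463040)), (.negSucc (nat_lit 267435775)), (.ofNat (nat_lit 1780747924771912814088230626560)), (.negSucc (nat_lit 1098489103)), (.negSucc (nat_lit 1098489071)), (.negSucc (nat_lit 6632594829109119976154)), (.ofNat (nat_lit 6632594829109119976155)), (.negSucc (nat_lit 6632594829109119976154)), (.ofNat (nat_lit 6632594829109119976155)), (.ofNat (nat_lit 0))⟩,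
    ⟨nat_lit 0, nat_lit 23, nat_lit 16, (.ofNat (nat_lit 8)), (.negSucc (nat_lit 109911999)), (.ofNat (nat_lit 1153242478972106868726910434240)), (.negSucc (nat_lit 262143)), (.ofNat (nat_lit 1738694938881981147029176320)), (.negSucc (nat_lit 109912015)), (.negSucc (nat_lit 109911983)), (.negSucc (nat_lit 6632594829109119976154)), (.ofNat (nat_lit 6632594829109119976155)), (.negSucc (nat_lit 6632594829109119976154)), (.ofNat (nat_lit 6632594829109119976155)), (.ofNat (nat_lit 0))⟩,
    ⟨nat_lit 1, nat_lit 16, nat_lit 17, (.ofNat (nat_lit 8)), (.ofNat (nat_lit 856333760)), (.ofNat (nat_lit 7561959110396718623017980287040)), (.ofNat (nat_lit 2097152)), (.ofNat (nat_lit 17386949388819811470291763200)), (.ofNat (nat_lit 856333744)), (.ofNat (nat_lit 856333776)), (.ofNat (nat_lit 6632594829109119976155)), (.negSucc (nat_lit 6632594829109119976154)), (.negSucc (nat_lit 6632594829109119976154)), (.ofNat (nat_lit 6632594829109119976155)), (.ofNat (nat_lit 0))⟩,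
    ⟨nat_lit 0, nat_lit 18, nat_lit 17, (.ofNat (nat_lit 8)), (.negSucc (nat_lit 100654783)), (.ofNat (nat_lit 13909276378847784166119868455360)), (.negSucc (nat_lit 264814335)), (.ofNat (nat_lit 1787702704527440738676347331840)), (.negSucc (nat_lit 100654799)), (.negSucc (nat_lit 100654767)), (.ofNat (nat_lit 6632594829109119976155)), (.negSucc (nat_lit 6632594829109119976154)), (.negSucc (nat_lit 6632594829109119976154)), (.ofNat (nat_lit 6632594829109119976155)), (.ofNat (nat_lit 0))⟩,
    ⟨nat_lit 0, nat_lit 19, nat_lit 18, (.ofNat (nat_lit 8)), (.negSucc (nat_lit 922279167)), (.ofNat (nat_lit 8459774738059418196929421891840)), (.negSucc (nat_lit 266387199)), (.ofNat (nat_lit 1777270534894148851794172273920)), (.negSucc (nat_lit 922279183)), (.negSucc (nat_lit 922279151)), (.negSucc (nat_lit 6632594829109119976154)), (.ofNat (nat_lit 6632594829109119976155)), (.negSucc (nat_lit 6632594829109119976154)), (.ofNat (nat_lit 6632594829109119976155)), (.ofNat (nat_lit 0))⟩,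
    ⟨nat_lit 2, nat_lit 19, nat_lit 20, (.ofNat (nat_lit 8)), (.negSucc (nat_lit 1102945535)), (.ofNat (nat_lit 9658061556250143578697592346880)), (.negSucc (nat_lit 267435775)), (.ofNat (nat_lit 1784225314649676776382288979200)), (.negSucc (nat_lit 1102945551)), (.negSucc (nat_lit 1102945519)), (.negSucc (nat_lit 6632594829109119976154)), (.ofNat (nat_lit 6632594829109119976155)), (.negSucc (nat_lit 6632594829109119976154)), (.ofNat (nat_lit 6632594829109119976155)), (.ofNat (nat_lit 0))⟩,
    ⟨nat_lit 0, nat_lit 20, nat_lit 21, (.ofNat (nat_lit 8)), (.negSucc (nat_lit 464297535)), (.ofNat (nat_lit 13893954978671024833229030786880)), (.negSucc (nat_lit 266125055)), (.ofNat (nat_lit 1792918789344086682117434860800)), (.negSucc (nat_lit 464297551)), (.negSucc (nat_lit 464297519)), (.ofNat (nat_lit 6632594829109119976155)), (.negSucc (nat_lit 6632594829109119976154)), (.negSucc (nat_lit 6632594829109119976154)), (.ofNat (nat_lit 6632594829109119976155)), (.ofNat (nat_lit 0))⟩,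
    ⟨nat_lit 0, nat_lit 22, nat_lit 12, (.ofNat (nat_lit 8)), (.negSucc (nat_lit 94936895)), (.ofNat (nat_lit 8684828337669161820599046323520)), (.ofNat (nat_lit 1048576)), (.ofNat (nat_lit 17386949388819811470291763200)), (.negSucc (nat_lit 94936911)), (.negSucc (nat_lit 94936879)), (.ofNat (nat_lit 6632594829109119976155)), (.negSucc (nat_lit 6632594829109119976154)), (.negSucc (nat_lit 6632594829109119976154)), (.ofNat (nat_lit 6632594829109119976155)), (.ofNat (nat_lit 0))⟩,
    ⟨nat_lit 2, nat_lit 23, nat_lit 7, (.ofNat (nat_lit 8)), (.negSucc (nat_lit 1168661567)), (.ofNat (nat_lit 8175499389010421468341186985280)), (.negSucc (nat_lit 267697919)), (.ofNat (nat_lit 1775531839955266870647143097600)), (.negSucc (nat_lit 1168661583)), (.negSucc (nat_lit 1168661551)), (.negSucc (nat_lit 6632594829109119976154)), (.ofNat (nat_lit 6632594829109119976155)), (.negSucc (nat_lit 6632594829109119976154)), (.ofNat (nat_lit 6632594829109119976155)), (.ofNat (nat_lit 0))⟩,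
    ⟨nat_lit 0, nat_lit 12, nat_lit 11, (.ofNat (nat_lit 8)), (.negSucc (nat_lit 94936831)), (.ofNat (nat_lit 8684827913183092757615367849600)), (.negSucc (nat_lit 265076479)), (.ofNat (nat_lit 1782486619710794795235259802880)), (.negSucc (nat_lit 94936847)), (.negSucc (nat_lit 94936815)), (.negSucc (nat_lit 6632594829109119976154)), (.ofNat (nat_lit 6632594829109119976155)), (.negSucc (nat_lit 6632594829109119976154)), (.ofNat (nat_lit 6632594829109119976155)), (.ofNat (nat_lit 0))⟩]
  es := [
    ⟨nat_lit 1, nat_lit 0, (.negSucc (nat_lit 1254448191)), (.negSucc (nat_lit 647650751)), (.negSucc (nat_lit 1254448175)), (.negSucc (nat_lit 647650767)), (.negSucc (nat_lit 6632594829109119976154)), (.ofNat (nat_lit 0)), (.ofNat (nat_lit 3477389877763962294058352640))⟩,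
    ⟨nat_lit 1, nat_lit 2, (.negSucc (nat_lit 1254448191)), (.negSucc (nat_lit 1103863039)), (.negSucc (nat_lit 1254448175)), (.negSucc (nat_lit 1103863055)), (.ofNat (nat_lit 6632594829109119976155)), (.ofNat (nat_lit 0)), (.ofNat (nat_lit 3561495849543825628176461253120))⟩,
    ⟨nat_lit 2, nat_lit 3, (.negSucc (nat_lit 1103863039)), (.negSucc (nat_lit 923196671)), (.negSucc (nat_lit 1103863023)), (.negSucc (nat_lit 923196687)), (.negSucc (nat_lit 6632594829109119976154)), (.ofNat (nat_lit 0)), (.ofNat (nat_lit 13909559511055849176233410560))⟩,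
    ⟨nat_lit 3, nat_lit 4, (.negSucc (nat_lit 923196671)), (.negSucc (nat_lit 73064127)), (.negSucc (nat_lit 923196655)), (.negSucc (nat_lit 73064143)), (.ofNat (nat_lit 6632594829109119976155)), (.ofNat (nat_lit 0)), (.ofNat (nat_lit 3547586290032769779000227842560))⟩,
    ⟨nat_lit 5, nat_lit 4, (.negSucc (nat_lit 283156159)), (.negSucc (nat_lit 73064127)), (.negSucc (nat_lit 283156143)), (.negSucc (nat_lit 73064143)), (.negSucc (nat_lit 6632594829109119976154)), (.ofNat (nat_lit 0)), (.ofNat (nat_lit 38251288655403585234641879040))⟩,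
    ⟨nat_lit 6, nat_lit 5, (.negSucc (nat_lit 1209474303)), (.negSucc (nat_lit 283156159)), (.negSucc (nat_lit 1209474287)), (.negSucc (nat_lit 283156175)), (.ofNat (nat_lit 6632594829109119976155)), (.ofNat (nat_lit 0)), (.ofNat (nat_lit 3564973239421589590470519605760))⟩,
    ⟨nat_lit 6, nat_lit 14, (.negSucc (nat_lit 1209474303)), (.negSucc (nat_lit 1098489087)), (.negSucc (nat_lit 1209474287)), (.negSucc (nat_lit 1098489103)), (.negSucc (nat_lit 6632594829109119976154)), (.ofNat (nat_lit 0)), (.ofNat (nat_lit 6954779755527924588116705280))⟩,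
    ⟨nat_lit 22, nat_lit 7, (.negSucc (nat_lit 1168661567)), (.negSucc (nat_lit 942382335)), (.negSucc (nat_lit 1168661551)), (.negSucc (nat_lit 942382351)), (.ofNat (nat_lit 6632594829109119976155)), (.ofNat (nat_lit 0)), (.ofNat (nat_lit 3551063679910533741294286195200))⟩,
    ⟨nat_lit 7, nat_lit 8, (.negSucc (nat_lit 942382335)), (.ofNat (nat_lit 239648512)), (.negSucc (nat_lit 942382319)), (.ofNat (nat_lit 239648496)), (.negSucc (nat_lit 6632594829109119976154)), (.ofNat (nat_lit 0)), (.ofNat (nat_lit 17386949388819811470291763200))⟩,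
    ⟨nat_lit 8, nat_lit 9, (.ofNat (nat_lit 239648512)), (.ofNat (nat_lit 1008123200)), (.ofNat (nat_lit 239648528)), (.ofNat (nat_lit 1008123184)), (.ofNat (nat_lit 6632594829109119976155)), (.ofNat (nat_lit 0)), (.ofNat (nat_lit 0))⟩,
    ⟨nat_lit 10, nat_lit 9, (.ofNat (nat_lit 324558848)), (.ofNat (nat_lit 1008123200)), (.ofNat (nat_lit 324558864)), (.ofNat (nat_lit 1008123184)), (.negSucc (nat_lit 6632594829109119976154)), (.ofNat (nat_lit 0)), (.ofNat (nat_lit 34773898777639622940583526400))⟩,
    ⟨nat_lit 23, nat_lit 10, (.negSucc (nat_lit 94936831)), (.ofNat (nat_lit 324558848)), (.negSucc (nat_lit 94936815)), (.ofNat (nat_lit 324558832)), (.ofNat (nat_lit 6632594829109119976155)), (.ofNat (nat_lit 0)), (.ofNat (nat_lit 3540631510277241854412111137280))⟩,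
    ⟨nat_lit 21, nat_lit 23, (.negSucc (nat_lit 94936895)), (.negSucc (nat_lit 94936831)), (.negSucc (nat_lit 94936879)), (.negSucc (nat_lit 94936847)), (.negSucc (nat_lit 6632594829109119976154)), (.ofNat (nat_lit 0)), (.ofNat (nat_lit 24341729144347736058408468480))⟩,
    ⟨nat_lit 12, nat_lit 11, (.negSucc (nat_lit 140222399)), (.ofNat (nat_lit 401694464)), (.negSucc (nat_lit 140222383)), (.ofNat (nat_lit 401694448)), (.ofNat (nat_lit 6632594829109119976155)), (.ofNat (nat_lit 0)), (.ofNat (nat_lit 6954779755527924588116705280))⟩,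
    ⟨nat_lit 13, nat_lit 12, (.negSucc (nat_lit 954080511)), (.negSucc (nat_lit 140222399)), (.negSucc (nat_lit 954080495)), (.negSucc (nat_lit 140222415)), (.negSucc (nat_lit 6632594829109119976154)), (.ofNat (nat_lit 0)), (.ofNat (nat_lit 20864339266583773764350115840))⟩,
    ⟨nat_lit 14, nat_lit 13, (.negSucc (nat_lit 1098489087)), (.negSucc (nat_lit 954080511)), (.negSucc (nat_lit 1098489071)), (.negSucc (nat_lit 954080527)), (.ofNat (nat_lit 6632594829109119976155)), (.ofNat (nat_lit 0)), (.ofNat (nat_lit 3554541069788297703588344547840))⟩,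
    ⟨nat_lit 15, nat_lit 16, (.negSucc (nat_lit 109911999)), (.ofNat (nat_lit 856333760)), (.negSucc (nat_lit 109911983)), (.ofNat (nat_lit 856333744)), (.ofNat (nat_lit 6632594829109119976155)), (.ofNat (nat_lit 0)), (.ofNat (nat_lit 3477389877763962294058352640))⟩,
    ⟨nat_lit 17, nat_lit 16, (.negSucc (nat_lit 100654783)), (.ofNat (nat_lit 856333760)), (.negSucc (nat_lit 100654767)), (.ofNat (nat_lit 856333744)), (.negSucc (nat_lit 6632594829109119976154)), (.ofNat (nat_lit 0)), (.ofNat (nat_lit 31296508899875660646525173760))⟩,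
    ⟨nat_lit 18, nat_lit 17, (.negSucc (nat_lit 922279167)), (.negSucc (nat_lit 100654783)), (.negSucc (nat_lit 922279151)), (.negSucc (nat_lit 100654799)), (.ofNat (nat_lit 6632594829109119976155)), (.ofNat (nat_lit 0)), (.ofNat (nat_lit 3544108900155005816706169489920))⟩,
    ⟨nat_lit 19, nat_lit 18, (.negSucc (nat_lit 1102945535)), (.negSucc (nat_lit 922279167)), (.negSucc (nat_lit 1102945519)), (.negSucc (nat_lit 922279183)), (.negSucc (nat_lit 6632594829109119976154)), (.ofNat (nat_lit 0)), (.ofNat (nat_lit 10432169633291886882175057920))⟩,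
    ⟨nat_lit 19, nat_lit 20, (.negSucc (nat_lit 1102945535)), (.negSucc (nat_lit 464297535)), (.negSucc (nat_lit 1102945519)), (.negSucc (nat_lit 464297551)), (.ofNat (nat_lit 6632594829109119976155)), (.ofNat (nat_lit 0)), (.ofNat (nat_lit 3558018459666061665882402900480))⟩,
    ⟨nat_lit 20, nat_lit 11, (.negSucc (nat_lit 464297535)), (.ofNat (nat_lit 401694464)), (.negSucc (nat_lit 464297519)), (.ofNat (nat_lit 401694448)), (.negSucc (nat_lit 6632594829109119976154)), (.ofNat (nat_lit 0)), (.ofNat (nat_lit 27819119022111698352466821120))⟩,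
    ⟨nat_lit 0, nat_lit 21, (.negSucc (nat_lit 647650751)), (.negSucc (nat_lit 94936895)), (.negSucc (nat_lit 647650735)), (.negSucc (nat_lit 94936911)), (.ofNat (nat_lit 6632594829109119976155)), (.ofNat (nat_lit 0)), (.ofNat (nat_lit 10432169633291886882175057920))⟩,
    ⟨nat_lit 22, nat_lit 15, (.negSucc (nat_lit 1168661567)), (.negSucc (nat_lit 109911999)), (.negSucc (nat_lit 1168661551)), (.negSucc (nat_lit 109912015)), (.negSucc (nat_lit 6632594829109119976154)), (.ofNat (nat_lit 0)), (.ofNat (nat_lit 0))⟩]

theorem ok76 : stOK 23 23 S76 = true := by decide +kernel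

def S77 : SD where
  vs := [
    ⟨nat_lit 0, nat_lit 0, nat_lit 22, (.ofNat (nat_lit 8)), (.negSucc (nat_lit 647650751)), (.ofNat (nat_lit 5097321611596790332487488173312)), (.ofNat (nat_lit 0)), (.ofNat (nat_lit 78420337210191258675699953472)), (.negSucc (nat_lit 647650767)), (.negSucc (nat_lit 647650735)), (.negSucc (nat_lit 6736229129654487334403)), (.ofNat (nat_lit 6736221079318194420060)), (.negSucc (nat_lit 6736229129654487334403)), (.ofNat (nat_lit 6736221079318194420060)), (.ofNat (nat_lit 621789702599618320806))⟩,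
    ⟨nat_lit 2, nat_lit 0, nat_lit 1, (.ofNat (nat_lit 8)), (.negSucc (nat_lit 1254448191)), (.ofNat (nat_lit 9184848202724561331516259299072)), (.ofNat (nat_lit 0)), (.ofNat (nat_lit 141305365477310775520756036032)), (.negSucc (nat_lit 1254448207)), (.negSucc (nat_lit 1254448175)), (.negSucc (nat_lit 6736229129654487334403)), (.ofNat (nat_lit 6736229129654487334404)), (.negSucc (nat_lit 6736229129654487334403)), (.ofNat (nat_lit 6736229129654487334404)), (.ofNat (nat_lit 621805803272204149494))⟩,
    ⟨nat_lit 0, nat_lit 1, nat_lit 2, (.ofNat (nat_lit 8)), (.negSucc (nat_lit 1103863039)), (.ofNat (nat_lit 10199224290120410014249560468480)), (.ofNat (nat_lit 0)), (.ofNat (nat_lit 156911152377348602058520154880)), (.negSucc (nat_lit 1103863055)), (.negSucc (nat_lit 1103863023)), (.ofNat (nat_lit 6736229129654487334404)), (.negSucc (nat_lit 6736229129654487334403)), (.negSucc (nat_lit 6736229129654487334403)), (.ofNat (nat_lit 6736229129654487334404)), (.ofNat (nat_lit 621805803272204149494))⟩,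
    ⟨nat_lit 0, nat_lit 2, nat_lit 3, (.ofNat (nat_lit 8)), (.negSucc (nat_lit 923196671)), (.ofNat (nat_lit 8982214239249932692640788343808)), (.ofNat (nat_lit 0)), (.ofNat (nat_lit 138187919697596662217918485248)), (.negSucc (nat_lit 923196687)), (.negSucc (nat_lit 923196655)), (.negSucc (nat_lit 6736229129654487334403)), (.ofNat (nat_lit 6736229129654487334404)), (.negSucc (nat_lit 6736229129654487334403)), (.ofNat (nat_lit 6736229129654487334404)), (.ofNat (nat_lit 621805803272204149494))⟩,
    ⟨nat_lit 1, nat_lit 3, nat_lit 4, (.ofNat (nat_lit 8)), (.negSucc (nat_lit 73064127)), (.ofNat (nat_lit 14708901846210007851253439587584)), (.ofNat (nat_lit 0)), (.ofNat (nat_lit 226290811265890401900700240704)), (.negSucc (nat_lit 73064143)), (.negSucc (nat_lit 73064111)), (.ofNat (nat_lit 6736229129654487334404)), (.negSucc (nat_lit 6736229129654487334403)), (.negSucc (nat_lit 6736229129654487334403)), (.ofNat (nat_lit 6736229129654487334404)), (.ofNat (nat_lit 621805803272204149494))⟩,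
    ⟨nat_lit 0, nat_lit 5, nat_lit 4, (.ofNat (nat_lit 8)), (.negSucc (nat_lit 283156159)), (.ofNat (nat_lit 16124129912076710553256639456512)), (.ofNat (nat_lit 0)), (.ofNat (nat_lit 248063552052365338381704612672)), (.negSucc (nat_lit 283156175)), (.negSucc (nat_lit 283156143)), (.ofNat (nat_lit 6736229129654487334404)), (.negSucc (nat_lit 6736229129654487334403)), (.negSucc (nat_lit 6736229129654487334403)), (.ofNat (nat_lit 6736229129654487334404)), (.ofNat (nat_lit 621805803272204149494))⟩,
    ⟨nat_lit 2, nat_lit 6, nat_lit 5, (.ofNat (nat_lit 8)), (.negSucc (nat_lit 1209474303)), (.ofNat (nat_lit 9884238647136430484380018830336)), (.ofNat (nat_lit 0)), (.ofNat (nat_lit 152065219116442459290307842816)), (.negSucc (nat_lit 1209474319)), (.negSucc (nat_lit 1209474287)), (.negSucc (nat_lit 6736229129654487334403)), (.ofNat (nat_lit 6736229129654487334404)), (.negSucc (nat_lit 6736229129654487334403)), (.ofNat (nat_lit 6736229129654487334404)), (.ofNat (nat_lit 621805803272204149494))⟩,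
    ⟨nat_lit 0, nat_lit 7, nat_lit 8, (.ofNat (nat_lit 8)), (.negSucc (nat_lit 942382335)), (.ofNat (nat_lit 9827510328813457296449765010432)), (.ofNat (nat_lit 0)), (.ofNat (nat_lit 151192475705052915708366312192)), (.negSucc (nat_lit 942382351)), (.negSucc (nat_lit 942382319)), (.ofNat (nat_lit 6736229129654487334404)), (.negSucc (nat_lit 6736229129654487334403)), (.negSucc (nat_lit 6736229129654487334403)), (.ofNat (nat_lit 6736229129654487334404)), (.ofNat (nat_lit 621805803272204149494))⟩,
    ⟨nat_lit 0, nat_lit 8, nat_lit 9, (.ofNat (nat_lit 8)), (.ofNat (nat_lit 239648512)), (.ofNat (nat_lit 1865079698365661685558945315840)), (.ofNat (nat_lit 0)), (.ofNat (nat_lit 28693535549525474765781047040)), (.ofNat (nat_lit 239648496)), (.ofNat (nat_lit 239648528)), (.negSucc (nat_lit 6736229129654487334403)), (.ofNat (nat_lit 6736229129654487334404)), (.negSucc (nat_lit 6736229129654487334403)), (.ofNat (nat_lit 6736229129654487334404)), (.ofNat (nat_lit 621805803272204149494))⟩,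
    ⟨nat_lit 1, nat_lit 9, nat_lit 10, (.ofNat (nat_lit 8)), (.ofNat (nat_lit 1008123200)), (.ofNat (nat_lit 7041701277073405387665010881792)), (.ofNat (nat_lit 0)), (.ofNat (nat_lit 108333872327224885241565548352)), (.ofNat (nat_lit 1008123184)), (.ofNat (nat_lit 1008123216)), (.ofNat (nat_lit 6736229129654487334404)), (.negSucc (nat_lit 6736218941327845918259)), (.negSucc (nat_lit 6736218941327845918259)), (.ofNat (nat_lit 6736229129654487334404)), (.ofNat (nat_lit 621785426618921317206))⟩,
    ⟨nat_lit 0, nat_lit 11, nat_lit 10, (.ofNat (nat_lit 8)), (.ofNat (nat_lit 324558848)), (.ofNat (nat_lit 11646340412632300402336252749312)), (.ofNat (nat_lit 0)), (.ofNat (nat_lit 179167621447593566122159389312)), (.ofNat (nat_lit 324558832)), (.ofNat (nat_lit 324558864)), (.ofNat (nat_lit 6736221079318194420060)), (.negSucc (nat_lit 6736218941327845918259)), (.negSucc (nat_lit 6736218941327845918259)), (.ofNat (nat_lit 6736221079318194420060)), (.ofNat (nat_lit 621753225273749659830))⟩,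
    ⟨nat_lit 1, nat_lit 13, nat_lit 21, (.ofNat (nat_lit 8)), (.ofNat (nat_lit 401694464)), (.ofNat (nat_lit 8277527502047163995655227011584)), (.ofNat (nat_lit 0)), (.ofNat (nat_lit 127346584626004188816616984704)), (.ofNat (nat_lit 401694448)), (.ofNat (nat_lit 401694480)), (.ofNat (nat_lit 6736229129654487334404)), (.negSucc (nat_lit 6736229129654487334403)), (.negSucc (nat_lit 6736229129654487334403)), (.ofNat (nat_lit 6736229129654487334404)), (.ofNat (nat_lit 621805803272204149494))⟩,
    ⟨nat_lit 0, nat_lit 14, nat_lit 13, (.ofNat (nat_lit 8)), (.negSucc (nat_lit 140222399)), (.ofNat (nat_lit 4627051336919354815867292022528)), (.ofNat (nat_lit 0)), (.ofNat (nat_lit 71185409471625220306354373568)), (.negSucc (nat_lit 140222415)), (.negSucc (nat_lit 140222383)), (.negSucc (nat_lit 6736229129654487334403)), (.ofNat (nat_lit 6736229129654487334404)), (.negSucc (nat_lit 6736229129654487334403)), (.ofNat (nat_lit 6736229129654487334404)), (.ofNat (nat_lit 621805803272204149494))⟩,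
    ⟨nat_lit 0, nat_lit 15, nat_lit 14, (.ofNat (nat_lit 8)), (.negSucc (nat_lit 954080511)), (.ofNat (nat_lit 10109386058379359090173244107776)), (.ofNat (nat_lit 0)), (.ofNat (nat_lit 155529025651918468837313139456)), (.negSucc (nat_lit 954080527)), (.negSucc (nat_lit 954080495)), (.ofNat (nat_lit 6736229129654487334404)), (.negSucc (nat_lit 6736229129654487334403)), (.negSucc (nat_lit 6736229129654487334403)), (.ofNat (nat_lit 6736229129654487334404)), (.ofNat (nat_lit 621805803272204149494))⟩,
    ⟨nat_lit 0, nat_lit 6, nat_lit 15, (.ofNat (nat_lit 8)), (.negSucc (nat_lit 1098489087)), (.ofNat (nat_lit 9136616802156235202201926659072)), (.ofNat (nat_lit 0)), (.ofNat (nat_lit 140563343885405945235693196032)), (.negSucc (nat_lit 1098489103)), (.negSucc (nat_lit 1098489071)), (.negSucc (nat_lit 6736229129654487334403)), (.ofNat (nat_lit 6736229129654487334404)), (.negSucc (nat_lit 6736229129654487334403)), (.ofNat (nat_lit 6736229129654487334404)), (.ofNat (nat_lit 621805803272204149494))⟩,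
    ⟨nat_lit 0, nat_lit 23, nat_lit 16, (.ofNat (nat_lit 8)), (.negSucc (nat_lit 109911999)), (.ofNat (nat_lit 1171261893808507022505394175232)), (.ofNat (nat_lit 0)), (.ofNat (nat_lit 18019414836400153778483740992)), (.negSucc (nat_lit 109912015)), (.negSucc (nat_lit 109911983)), (.negSucc (nat_lit 6736229129654487334403)), (.ofNat (nat_lit 6736229129654487334404)), (.negSucc (nat_lit 6736229129654487334403)), (.ofNat (nat_lit 6736229129654487334404)), (.ofNat (nat_lit 621805803272204149494))⟩,
    ⟨nat_lit 1, nat_lit 16, nat_lit 17, (.ofNat (nat_lit 8)), (.ofNat (nat_lit 856333760)), (.ofNat (nat_lit 7680114728725645674346961302272)), (.ofNat (nat_lit 0)), (.ofNat (nat_lit 118155618328927051328981015232)), (.ofNat (nat_lit 856333744)), (.ofNat (nat_lit 856333776)), (.ofNat (nat_lit 6736229129654487334404)), (.negSucc (nat_lit 6736229129654487334403)), (.negSucc (nat_lit 6736229129654487334403)), (.ofNat (nat_lit 6736229129654487334404)), (.ofNat (nat_lit 621805803272204149494))⟩,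
    ⟨nat_lit 0, nat_lit 18, nat_lit 17, (.ofNat (nat_lit 8)), (.negSucc (nat_lit 100654783)), (.ofNat (nat_lit 14126608835564080731564686370048)), (.ofNat (nat_lit 0)), (.ofNat (nat_lit 217332456716296565444817914688)), (.negSucc (nat_lit 100654799)), (.negSucc (nat_lit 100654767)), (.ofNat (nat_lit 6736229129654487334404)), (.negSucc (nat_lit 6736229129654487334403)), (.negSucc (nat_lit 6736229129654487334403)), (.ofNat (nat_lit 6736229129654487334404)), (.ofNat (nat_lit 621805803272204149494))⟩,
    ⟨nat_lit 0, nat_lit 19, nat_lit 18, (.ofNat (nat_lit 8)), (.negSucc (nat_lit 922279167)), (.ofNat (nat_lit 8591958726428856442599197862912)), (.ofNat (nat_lit 0)), (.ofNat (nat_lit 132183988369438245669775971072)), (.negSucc (nat_lit 922279183)), (.negSucc (nat_lit 922279151)), (.negSucc (nat_lit 6736229129654487334403)), (.ofNat (nat_lit 6736229129654487334404)), (.negSucc (nat_lit 6736229129654487334403)), (.ofNat (nat_lit 6736229129654487334404)), (.ofNat (nat_lit 621805803272204149494))⟩,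
    ⟨nat_lit 2, nat_lit 19, nat_lit 20, (.ofNat (nat_lit 8)), (.negSucc (nat_lit 1102945535)), (.ofNat (nat_lit 9808968777299333764207969987584)), (.ofNat (nat_lit 0)), (.ofNat (nat_lit 150907221049190185510377640704)), (.negSucc (nat_lit 1102945551)), (.negSucc (nat_lit 1102945519)), (.negSucc (nat_lit 6736229129654487334403)), (.ofNat (nat_lit 6736229129654487334404)), (.negSucc (nat_lit 6736229129654487334403)), (.ofNat (nat_lit 6736229129654487334404)), (.ofNat (nat_lit 621805803272204149494))⟩,
    ⟨nat_lit 0, nat_lit 20, nat_lit 21, (.ofNat (nat_lit 8)), (.negSucc (nat_lit 464297535)), (.ofNat (nat_lit 14111048038494912791350415779584)), (.ofNat (nat_lit 0)), (.ofNat (nat_lit 217093059823887958121384992704)), (.negSucc (nat_lit 464297551)), (.negSucc (nat_lit 464297519)), (.ofNat (nat_lit 6736229129654487334404)), (.negSucc (nat_lit 6736229129654487334403)), (.negSucc (nat_lit 6736229129654487334403)), (.ofNat (nat_lit 6736229129654487334404)), (.ofNat (nat_lit 621805803272204149494))⟩,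
    ⟨nat_lit 0, nat_lit 22, nat_lit 12, (.ofNat (nat_lit 8)), (.negSucc (nat_lit 94936895)), (.ofNat (nat_lit 8820524339215231421356534524672)), (.ofNat (nat_lit 0)), (.ofNat (nat_lit 135696001546069600757488201152)), (.negSucc (nat_lit 94936911)), (.negSucc (nat_lit 94936879)), (.ofNat (nat_lit 6736221079318194420060)), (.ofNat (nat_lit 6736221079318194420060)), (.ofNat (nat_lit 6736221079318194420060)), (.ofNat (nat_lit 6736221079318194420060)), (.ofNat (nat_lit 26737631816854628792430))⟩,
    ⟨nat_lit 2, nat_lit 23, nat_lit 7, (.ofNat (nat_lit 8)), (.negSucc (nat_lit 1168661567)), (.ofNat (nat_lit 8303241574779211477067100712704)), (.ofNat (nat_lit 0)), (.ofNat (nat_lit 127742185768790008725913727424)), (.negSucc (nat_lit 1168661583)), (.negSucc (nat_lit 1168661551)), (.negSucc (nat_lit 6736229129654487334403)), (.ofNat (nat_lit 6736229129654487334404)), (.negSucc (nat_lit 6736229129654487334403)), (.ofNat (nat_lit 6736229129654487334404)), (.ofNat (nat_lit 621805803272204149494))⟩,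
    ⟨nat_lit 0, nat_lit 12, nat_lit 11, (.ofNat (nat_lit 8)), (.negSucc (nat_lit 94936831)), (.ofNat (nat_lit 8820524770333380497720977408512)), (.ofNat (nat_lit 0)), (.ofNat (nat_lit 135696857150287740105609558912)), (.negSucc (nat_lit 94936847)), (.negSucc (nat_lit 94936815)), (.ofNat (nat_lit 6736221079318194420060)), (.ofNat (nat_lit 6736221079318194420060)), (.ofNat (nat_lit 6736221079318194420060)), (.ofNat (nat_lit 6736221079318194420060)), (.ofNat (nat_lit 53268011133291108697050))⟩]
  es := [
    ⟨nat_lit 1, nat_lit 0, (.negSucc (nat_lit 1254448191)), (.negSucc (nat_lit 647650751)), (.negSucc (nat_lit 1254448175)), (.negSucc (nat_lit 647650767)), (.negSucc (nat_lit 6736229129654487334403)), (.negSucc (nat_lit 103634300545367358248)), (.ofNat (nat_lit 11301504528990078989481700224))⟩,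
    ⟨nat_lit 1, nat_lit 2, (.negSucc (nat_lit 1254448191)), (.negSucc (nat_lit 1103863039)), (.negSucc (nat_lit 1254448175)), (.negSucc (nat_lit 1103863055)), (.ofNat (nat_lit 6736229129654487334404)), (.ofNat (nat_lit 103634300545367358249)), (.ofNat (nat_lit 271309226425631472052030371840))⟩,
    ⟨nat_lit 2, nat_lit 3, (.negSucc (nat_lit 1103863039)), (.negSucc (nat_lit 923196671)), (.negSucc (nat_lit 1103863023)), (.negSucc (nat_lit 923196687)), (.negSucc (nat_lit 6736229129654487334403)), (.negSucc (nat_lit 103634300545367358248)), (.ofNat (nat_lit 42513078329065732065009937920))⟩,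
    ⟨nat_lit 3, nat_lit 4, (.negSucc (nat_lit 923196671)), (.negSucc (nat_lit 73064127)), (.negSucc (nat_lit 923196655)), (.negSucc (nat_lit 73064143)), (.ofNat (nat_lit 6736229129654487334404)), (.ofNat (nat_lit 103634300545367358249)), (.ofNat (nat_lit 233862761066127592370827032576))⟩,
    ⟨nat_lit 5, nat_lit 4, (.negSucc (nat_lit 283156159)), (.negSucc (nat_lit 73064127)), (.negSucc (nat_lit 283156143)), (.negSucc (nat_lit 73064143)), (.negSucc (nat_lit 6736229129654487334403)), (.negSucc (nat_lit 103634300545367358248)), (.ofNat (nat_lit 218718861465653211430573448832))⟩,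
    ⟨nat_lit 6, nat_lit 5, (.negSucc (nat_lit 1209474303)), (.negSucc (nat_lit 283156159)), (.negSucc (nat_lit 1209474287)), (.negSucc (nat_lit 283156175)), (.ofNat (nat_lit 6736229129654487334404)), (.ofNat (nat_lit 103634300545367358249)), (.ofNat (nat_lit 277408242639077465332835776512))⟩,
    ⟨nat_lit 6, nat_lit 14, (.negSucc (nat_lit 1209474303)), (.negSucc (nat_lit 1098489087)), (.negSucc (nat_lit 1209474287)), (.negSucc (nat_lit 1098489103)), (.negSucc (nat_lit 6736229129654487334403)), (.negSucc (nat_lit 103634300545367358248)), (.ofNat (nat_lit 26722195593807453247779909120))⟩,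
    ⟨nat_lit 22, nat_lit 7, (.negSucc (nat_lit 1168661567)), (.negSucc (nat_lit 942382335)), (.negSucc (nat_lit 1168661551)), (.negSucc (nat_lit 942382351)), (.ofNat (nat_lit 6736229129654487334404)), (.ofNat (nat_lit 103634300545367358249)), (.ofNat (nat_lit 248855609942722280753207801856))⟩,
    ⟨nat_lit 7, nat_lit 8, (.negSucc (nat_lit 942382335)), (.ofNat (nat_lit 239648512)), (.negSucc (nat_lit 942382319)), (.ofNat (nat_lit 239648496)), (.negSucc (nat_lit 6736229129654487334403)), (.negSucc (nat_lit 103634300545367358248)), (.ofNat (nat_lit 53529341467383550663524822528))⟩,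
    ⟨nat_lit 8, nat_lit 9, (.ofNat (nat_lit 239648512)), (.ofNat (nat_lit 1008123200)), (.ofNat (nat_lit 239648528)), (.ofNat (nat_lit 1008123184)), (.ofNat (nat_lit 6736229129654487334404)), (.ofNat (nat_lit 103634300545367358249)), (.ofNat (nat_lit 3857729631667398868037271552))⟩,
    ⟨nat_lit 10, nat_lit 9, (.ofNat (nat_lit 324558848)), (.ofNat (nat_lit 1008123200)), (.ofNat (nat_lit 324558864)), (.ofNat (nat_lit 1008123184)), (.negSucc (nat_lit 6736218941327845918259)), (.negSucc (nat_lit 103624112218725942104)), (.ofNat (nat_lit 212799743934325981919472884352))⟩,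
    ⟨nat_lit 23, nat_lit 10, (.negSucc (nat_lit 94936831)), (.ofNat (nat_lit 324558848)), (.negSucc (nat_lit 94936815)), (.ofNat (nat_lit 324558832)), (.ofNat (nat_lit 6736221079318194420060)), (.ofNat (nat_lit 103626250209074443905)), (.ofNat (nat_lit 145534805057176605462111967872))⟩,
    ⟨nat_lit 21, nat_lit 23, (.negSucc (nat_lit 94936895)), (.negSucc (nat_lit 94936831)), (.negSucc (nat_lit 94936879)), (.negSucc (nat_lit 94936847)), (.ofNat (nat_lit 6736221079318194420060)), (.ofNat (nat_lit 13368815908427314396215)), (.ofNat (nat_lit 1404889887087579071150254449792))⟩,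
    ⟨nat_lit 12, nat_lit 11, (.negSucc (nat_lit 140222399)), (.ofNat (nat_lit 401694464)), (.negSucc (nat_lit 140222383)), (.ofNat (nat_lit 401694448)), (.ofNat (nat_lit 6736229129654487334404)), (.ofNat (nat_lit 103634300545367358249)), (.ofNat (nat_lit 85717259816417940161688951168))⟩,
    ⟨nat_lit 13, nat_lit 12, (.negSucc (nat_lit 954080511)), (.negSucc (nat_lit 140222399)), (.negSucc (nat_lit 954080495)), (.negSucc (nat_lit 140222415)), (.negSucc (nat_lit 6736229129654487334403)), (.negSucc (nat_lit 103634300545367358248)), (.ofNat (nat_lit 56653559126832500451019795968))⟩,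
    ⟨nat_lit 14, nat_lit 13, (.negSucc (nat_lit 1098489087)), (.negSucc (nat_lit 954080511)), (.negSucc (nat_lit 1098489071)), (.negSucc (nat_lit 954080527)), (.ofNat (nat_lit 6736229129654487334404)), (.ofNat (nat_lit 103634300545367358249)), (.ofNat (nat_lit 254404492177004437223606482944))⟩,
    ⟨nat_lit 15, nat_lit 16, (.negSucc (nat_lit 109911999)), (.ofNat (nat_lit 856333760)), (.negSucc (nat_lit 109911983)), (.ofNat (nat_lit 856333744)), (.ofNat (nat_lit 6736229129654487334404)), (.ofNat (nat_lit 103634300545367358249)), (.ofNat (nat_lit 29410068077942570858347828992))⟩,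
    ⟨nat_lit 17, nat_lit 16, (.negSucc (nat_lit 100654783)), (.ofNat (nat_lit 856333760)), (.negSucc (nat_lit 100654767)), (.ofNat (nat_lit 856333744)), (.negSucc (nat_lit 6736229129654487334403)), (.negSucc (nat_lit 103634300545367358248)), (.ofNat (nat_lit 206901168579911531799614201472))⟩,
    ⟨nat_lit 18, nat_lit 17, (.negSucc (nat_lit 922279167)), (.negSucc (nat_lit 100654783)), (.negSucc (nat_lit 922279151)), (.negSucc (nat_lit 100654799)), (.ofNat (nat_lit 6736229129654487334404)), (.ofNat (nat_lit 103634300545367358249)), (.ofNat (nat_lit 227763744852681599090021627904))⟩,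
    ⟨nat_lit 19, nat_lit 18, (.negSucc (nat_lit 1102945535)), (.negSucc (nat_lit 922279167)), (.negSucc (nat_lit 1102945519)), (.negSucc (nat_lit 922279183)), (.negSucc (nat_lit 6736229129654487334403)), (.negSucc (nat_lit 103634300545367358248)), (.ofNat (nat_lit 36604231886194892249530314240))⟩,
    ⟨nat_lit 19, nat_lit 20, (.negSucc (nat_lit 1102945535)), (.negSucc (nat_lit 464297535)), (.negSucc (nat_lit 1102945519)), (.negSucc (nat_lit 464297551)), (.ofNat (nat_lit 6736229129654487334404)), (.ofNat (nat_lit 103634300545367358249)), (.ofNat (nat_lit 265210210212185478771224967168))⟩,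
    ⟨nat_lit 20, nat_lit 11, (.negSucc (nat_lit 464297535)), (.ofNat (nat_lit 401694464)), (.negSucc (nat_lit 464297519)), (.ofNat (nat_lit 401694448)), (.negSucc (nat_lit 6736229129654487334403)), (.negSucc (nat_lit 103634300545367358248)), (.ofNat (nat_lit 168975909435590437471545018240))⟩,
    ⟨nat_lit 0, nat_lit 21, (.negSucc (nat_lit 647650751)), (.negSucc (nat_lit 94936895)), (.negSucc (nat_lit 647650735)), (.negSucc (nat_lit 94936911)), (.ofNat (nat_lit 6736221079318194420060)), (.ofNat (nat_lit 103626250209074443905)), (.ofNat (nat_lit 145533956085038479494755020032))⟩,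
    ⟨nat_lit 22, nat_lit 15, (.negSucc (nat_lit 1168661567)), (.negSucc (nat_lit 109911999)), (.negSucc (nat_lit 1168661551)), (.negSucc (nat_lit 109912015)), (.negSucc (nat_lit 6736229129654487334403)), (.negSucc (nat_lit 103634300545367358248)), (.ofNat (nat_lit 6628761594857736698619652992))⟩]

theorem ok77 : stOK 23 23 S77 = true := by decide +kernel

def S78 : SD where
  vs := [
    ⟨nat_lit 0, nat_lit 0, nat_lit 22, (.ofNat (nat_lit 8)), (.negSucc (nat_lit 733882623)), (.ofNat (nat_lit 5681730983765755780389015101952)), (.negSucc (nat_lit 86231871)), (.ofNat (nat_lit 584409372168965447901526928640)), (.negSucc (nat_lit 733882639)), (.negSucc (nat_lit 733882607)), (.negSucc (nat_lit 6736229129654487334403)), (.ofNat (nat_lit 6736221079318194420060)), (.negSucc (nat_lit 6736229129654487334403)), (.ofNat (nat_lit 6736221079318194420060)), (.ofNat (nat_lit 0))⟩,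
    ⟨nat_lit 2, nat_lit 0, nat_lit 1, (.ofNat (nat_lit 8)), (.negSucc (nat_lit 1418102591)), (.ofNat (nat_lit 10290793463298616955391325281024)), (.negSucc (nat_lit 163654399)), (.ofNat (nat_lit 1105945260574055623875065981952)), (.negSucc (nat_lit 1418102607)), (.negSucc (nat_lit 1418102575)), (.negSucc (nat_lit 6736229129654487334403)), (.ofNat (nat_lit 6736229129654487334404)), (.negSucc (nat_lit 6736229129654487334403)), (.ofNat (nat_lit 6736229129654487334404)), (.ofNat (nat_lit 0))⟩,
    ⟨nat_lit 0, nat_lit 1, nat_lit 2, (.ofNat (nat_lit 8)), (.negSucc (nat_lit 1266731007)), (.ofNat (nat_lit 11310467136841358075907996456960)), (.negSucc (nat_lit 162867967)), (.ofNat (nat_lit 1111242846720948061658435988480)), (.negSucc (nat_lit 1266731023)), (.negSucc (nat_lit 1266730991)), (.ofNat (nat_lit 6736229129654487334404)), (.negSucc (nat_lit 6736229129654487334403)), (.negSucc (nat_lit 6736229129654487334403)), (.ofNat (nat_lit 6736229129654487334404)), (.ofNat (nat_lit 0))⟩,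
    ⟨nat_lit 0, nat_lit 2, nat_lit 3, (.ofNat (nat_lit 8)), (.negSucc (nat_lit 1062432767)), (.ofNat (nat_lit 9934267381416214505386967808000)), (.negSucc (nat_lit 139236095)), (.ofNat (nat_lit 952053142166281812746179464192)), (.negSucc (nat_lit 1062432783)), (.negSucc (nat_lit 1062432751)), (.negSucc (nat_lit 6736229129654487334403)), (.ofNat (nat_lit 6736229129654487334404)), (.negSucc (nat_lit 6736229129654487334403)), (.ofNat (nat_lit 6736229129654487334404)), (.ofNat (nat_lit 0))⟩,
    ⟨nat_lit 1, nat_lit 3, nat_lit 4, (.ofNat (nat_lit 8)), (.negSucc (nat_lit 210465215)), (.ofNat (nat_lit 15673316022719038685494149067008)), (.negSucc (nat_lit 137401087)), (.ofNat (nat_lit 964414176509030834240709479424)), (.negSucc (nat_lit 210465231)), (.negSucc (nat_lit 210465199)), (.ofNat (nat_lit 6736229129654487334404)), (.negSucc (nat_lit 6736229129654487334403)), (.negSucc (nat_lit 6736229129654487334403)), (.ofNat (nat_lit 6736229129654487334404)), (.ofNat (nat_lit 0))⟩,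
    ⟨nat_lit 0, nat_lit 5, nat_lit 4, (.ofNat (nat_lit 8)), (.negSucc (nat_lit 448129471)), (.ofNat (nat_lit 17274276907063899954886698930432)), (.negSucc (nat_lit 164973311)), (.ofNat (nat_lit 1150146994987189401630059473920)), (.negSucc (nat_lit 448129487)), (.negSucc (nat_lit 448129455)), (.ofNat (nat_lit 6736229129654487334404)), (.negSucc (nat_lit 6736229129654487334403)), (.negSucc (nat_lit 6736229129654487334403)), (.ofNat (nat_lit 6736229129654487334404)), (.ofNat (nat_lit 0))⟩,
    ⟨nat_lit 2, nat_lit 6, nat_lit 5, (.ofNat (nat_lit 8)), (.negSucc (nat_lit 1376806911)), (.ofNat (nat_lit 11018492883682942572659968284672)), (.negSucc (nat_lit 167332607)), (.ofNat (nat_lit 1134254236546512088279949454336)), (.negSucc (nat_lit 1376806927)), (.negSucc (nat_lit 1376806895)), (.negSucc (nat_lit 6736229129654487334403)), (.ofNat (nat_lit 6736229129654487334404)), (.negSucc (nat_lit 6736229129654487334403)), (.ofNat (nat_lit 6736229129654487334404)), (.ofNat (nat_lit 0))⟩,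
    ⟨nat_lit 0, nat_lit 7, nat_lit 8, (.ofNat (nat_lit 8)), (.negSucc (nat_lit 1090660351)), (.ofNat (nat_lit 10844003639969672903170218694656)), (.negSucc (nat_lit 148278015)), (.ofNat (nat_lit 1016493311156215606720453684224)), (.negSucc (nat_lit 1090660367)), (.negSucc (nat_lit 1090660335)), (.ofNat (nat_lit 6736229129654487334404)), (.negSucc (nat_lit 6736229129654487334403)), (.negSucc (nat_lit 6736229129654487334403)), (.ofNat (nat_lit 6736229129654487334404)), (.ofNat (nat_lit 0))⟩,
    ⟨nat_lit 0, nat_lit 8, nat_lit 9, (.ofNat (nat_lit 8)), (.ofNat (nat_lit 240959232)), (.ofNat (nat_lit 1873909008610482415197895326720)), (.ofNat (nat_lit 1310720)), (.ofNat (nat_lit 8829310244820729638950010880)), (.ofNat (nat_lit 240959216)), (.ofNat (nat_lit 240959248)), (.negSucc (nat_lit 6736229129654487334403)), (.ofNat (nat_lit 6736229129654487334404)), (.negSucc (nat_lit 6736229129654487334403)), (.ofNat (nat_lit 6736229129654487334404)), (.ofNat (nat_lit 0))⟩,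
    ⟨nat_lit 1, nat_lit 9, nat_lit 10, (.ofNat (nat_lit 8)), (.ofNat (nat_lit 1010744640)), (.ofNat (nat_lit 7059359897563046846942910903552)), (.ofNat (nat_lit 2621440)), (.ofNat (nat_lit 17658620489641459277900021760)), (.ofNat (nat_lit 1010744624)), (.ofNat (nat_lit 1010744656)), (.ofNat (nat_lit 6736229129654487334404)), (.negSucc (nat_lit 6736218941327845918259)), (.negSucc (nat_lit 6736218941327845918259)), (.ofNat (nat_lit 6736229129654487334404)), (.ofNat (nat_lit 0))⟩,
    ⟨nat_lit 0, nat_lit 11, nat_lit 10, (.ofNat (nat_lit 8)), (.ofNat (nat_lit 240686208)), (.ofNat (nat_lit 12246642093130667872695806671872)), (.negSucc (nat_lit 83872639)), (.ofNat (nat_lit 600301680498367470359553922560)), (.ofNat (nat_lit 240686192)), (.ofNat (nat_lit 240686224)), (.ofNat (nat_lit 6736221079318194420060)), (.negSucc (nat_lit 6736218941327845918259)), (.negSucc (nat_lit 6736218941327845918259)), (.ofNat (nat_lit 6736221079318194420060)), (.ofNat (nat_lit 0))⟩,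
    ⟨nat_lit 1, nat_lit 13, nat_lit 21, (.ofNat (nat_lit 8)), (.ofNat (nat_lit 353899392)), (.ofNat (nat_lit 8627739851090923887770794303488)), (.negSucc (nat_lit 47795071)), (.ofNat (nat_lit 350212349043759892115567291904)), (.ofNat (nat_lit 353899376)), (.ofNat (nat_lit 353899408)), (.ofNat (nat_lit 6736229129654487334404)), (.negSucc (nat_lit 6736229129654487334403)), (.negSucc (nat_lit 6736229129654487334403)), (.ofNat (nat_lit 6736229129654487334404)), (.ofNat (nat_lit 0))⟩,
    ⟨nat_lit 0, nat_lit 14, nat_lit 13, (.ofNat (nat_lit 8)), (.negSucc (nat_lit 188541759)), (.ofNat (nat_lit 4973731961865186416127279310080)), (.negSucc (nat_lit 48319359)), (.ofNat (nat_lit 346680624945831600259987287552)), (.negSucc (nat_lit 188541775)), (.negSucc (nat_lit 188541743)), (.negSucc (nat_lit 6736229129654487334403)), (.ofNat (nat_lit 6736229129654487334404)), (.negSucc (nat_lit 6736229129654487334403)), (.ofNat (nat_lit 6736229129654487334404)), (.ofNat (nat_lit 0))⟩,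
    ⟨nat_lit 0, nat_lit 15, nat_lit 14, (.ofNat (nat_lit 8)), (.negSucc (nat_lit 1105704959)), (.ofNat (nat_lit 11151953426352310914108722042880)), (.negSucc (nat_lit 151624447)), (.ofNat (nat_lit 1042567367972951823935477935104)), (.negSucc (nat_lit 1105704975)), (.negSucc (nat_lit 1105704943)), (.ofNat (nat_lit 6736229129654487334404)), (.negSucc (nat_lit 6736229129654487334403)), (.negSucc (nat_lit 6736229129654487334403)), (.ofNat (nat_lit 6736229129654487334404)), (.ofNat (nat_lit 0))⟩,
    ⟨nat_lit 0, nat_lit 6, nat_lit 15, (.ofNat (nat_lit 8)), (.negSucc (nat_lit 1251162111)), (.ofNat (nat_lit 10172120721933330442426244585472)), (.negSucc (nat_lit 152673023)), (.ofNat (nat_lit 1035503919777095240224317926400)), (.negSucc (nat_lit 1251162127)), (.negSucc (nat_lit 1251162095)), (.negSucc (nat_lit 6736229129654487334403)), (.ofNat (nat_lit 6736229129654487334404)), (.negSucc (nat_lit 6736229129654487334403)), (.ofNat (nat_lit 6736229129654487334404)), (.ofNat (nat_lit 0))⟩,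
    ⟨nat_lit 0, nat_lit 23, nat_lit 16, (.ofNat (nat_lit 8)), (.negSucc (nat_lit 125584255)), (.ofNat (nat_lit 1276833801203109339558931270656)), (.negSucc (nat_lit 15672255)), (.ofNat (nat_lit 105571907394602317053537095424)), (.negSucc (nat_lit 125584271)), (.negSucc (nat_lit 125584239)), (.negSucc (nat_lit 6736229129654487334403)), (.ofNat (nat_lit 6736229129654487334404)), (.negSucc (nat_lit 6736229129654487334403)), (.ofNat (nat_lit 6736229129654487334404)), (.ofNat (nat_lit 0))⟩,
    ⟨nat_lit 1, nat_lit 16, nat_lit 17, (.ofNat (nat_lit 8)), (.ofNat (nat_lit 843020800)), (.ofNat (nat_lit 7801579394560925304750608417280)), (.negSucc (nat_lit 13312959)), (.ofNat (nat_lit 121464665835279630403647115008)), (.ofNat (nat_lit 843020784)), (.ofNat (nat_lit 843020816)), (.ofNat (nat_lit 6736229129654487334404)), (.negSucc (nat_lit 6736229129654487334403)), (.negSucc (nat_lit 6736229129654487334403)), (.ofNat (nat_lit 6736229129654487334404)), (.ofNat (nat_lit 0))⟩,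
    ⟨nat_lit 0, nat_lit 18, nat_lit 17, (.ofNat (nat_lit 8)), (.negSucc (nat_lit 234639807)), (.ofNat (nat_lit 15060948174051690955472722374912)), (.negSucc (nat_lit 133985023)), (.ofNat (nat_lit 934339338487610223908036004864)), (.negSucc (nat_lit 234639823)), (.negSucc (nat_lit 234639791)), (.ofNat (nat_lit 6736229129654487334404)), (.negSucc (nat_lit 6736229129654487334403)), (.negSucc (nat_lit 6736229129654487334403)), (.ofNat (nat_lit 6736229129654487334404)), (.ofNat (nat_lit 0))⟩,
    ⟨nat_lit 0, nat_lit 19, nat_lit 18, (.ofNat (nat_lit 8)), (.negSucc (nat_lit 1057837055)), (.ofNat (nat_lit 9515702892622681790940493854720)), (.negSucc (nat_lit 135557887)), (.ofNat (nat_lit 923744166193825348341295991808)), (.negSucc (nat_lit 1057837071)), (.negSucc (nat_lit 1057837039)), (.negSucc (nat_lit 6736229129654487334403)), (.ofNat (nat_lit 6736229129654487334404)), (.negSucc (nat_lit 6736229129654487334403)), (.ofNat (nat_lit 6736229129654487334404)), (.ofNat (nat_lit 0))⟩,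
    ⟨nat_lit 2, nat_lit 19, nat_lit 20, (.ofNat (nat_lit 8)), (.negSucc (nat_lit 1262135295)), (.ofNat (nat_lit 10891902648047825361461522503680)), (.negSucc (nat_lit 159189759)), (.ofNat (nat_lit 1082933870748491597253552516096)), (.negSucc (nat_lit 1262135311)), (.negSucc (nat_lit 1262135279)), (.negSucc (nat_lit 6736229129654487334403)), (.ofNat (nat_lit 6736229129654487334404)), (.negSucc (nat_lit 6736229129654487334403)), (.ofNat (nat_lit 6736229129654487334404)), (.ofNat (nat_lit 0))⟩,
    ⟨nat_lit 0, nat_lit 20, nat_lit 21, (.ofNat (nat_lit 8)), (.negSucc (nat_lit 622176575)), (.ofNat (nat_lit 15202811219488225118242918306560)), (.negSucc (nat_lit 157879039)), (.ofNat (nat_lit 1091763180993312326892502526976)), (.negSucc (nat_lit 622176591)), (.negSucc (nat_lit 622176559)), (.ofNat (nat_lit 6736229129654487334404)), (.negSucc (nat_lit 6736229129654487334403)), (.negSucc (nat_lit 6736229129654487334403)), (.ofNat (nat_lit 6736229129654487334404)), (.ofNat (nat_lit 0))⟩,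
    ⟨nat_lit 0, nat_lit 22, nat_lit 12, (.ofNat (nat_lit 8)), (.negSucc (nat_lit 179595967)), (.ofNat (nat_lit 9415528439897748525441931821312)), (.negSucc (nat_lit 84659071)), (.ofNat (nat_lit 595004100682517104085397296640)), (.negSucc (nat_lit 179595983)), (.negSucc (nat_lit 179595951)), (.ofNat (nat_lit 6736221079318194420060)), (.ofNat (nat_lit 6736221079318194420060)), (.ofNat (nat_lit 6736221079318194420060)), (.ofNat (nat_lit 6736221079318194420060)), (.ofNat (nat_lit 0))⟩,
    ⟨nat_lit 2, nat_lit 23, nat_lit 7, (.ofNat (nat_lit 8)), (.negSucc (nat_lit 1318250303)), (.ofNat (nat_lit 9310905575690606354148604386048)), (.negSucc (nat_lit 149588735)), (.ofNat (nat_lit 1007664000911394877081503673344)), (.negSucc (nat_lit 1318250319)), (.negSucc (nat_lit 1318250287)), (.negSucc (nat_lit 6736229129654487334403)), (.ofNat (nat_lit 6736229129654487334404)), (.negSucc (nat_lit 6736229129654487334403)), (.ofNat (nat_lit 6736229129654487334404)), (.ofNat (nat_lit 0))⟩,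
    ⟨nat_lit 0, nat_lit 12, nat_lit 11, (.ofNat (nat_lit 8)), (.negSucc (nat_lit 179595903)), (.ofNat (nat_lit 9415528871015897601806374705152)), (.negSucc (nat_lit 84659071)), (.ofNat (nat_lit 595004100682517104085397296640)), (.negSucc (nat_lit 179595919)), (.negSucc (nat_lit 179595887)), (.ofNat (nat_lit 6736221079318194420060)), (.ofNat (nat_lit 6736221079318194420060)), (.ofNat (nat_lit 6736221079318194420060)), (.ofNat (nat_lit 6736221079318194420060)), (.ofNat (nat_lit 0))⟩]
  es := [
    ⟨nat_lit 1, nat_lit 0, (.negSucc (nat_lit 1418102591)), (.negSucc (nat_lit 733882623)), (.negSucc (nat_lit 1418102575)), (.negSucc (nat_lit 733882639)), (.negSucc (nat_lit 6736229129654487334403)), (.ofNat (nat_lit 0)), (.ofNat (nat_lit 3531724097928291855580004352))⟩,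
    ⟨nat_lit 1, nat_lit 2, (.negSucc (nat_lit 1418102591)), (.negSucc (nat_lit 1266731007)), (.negSucc (nat_lit 1418102575)), (.negSucc (nat_lit 1266731023)), (.ofNat (nat_lit 6736229129654487334404)), (.ofNat (nat_lit 0)), (.ofNat (nat_lit 2208358797050182955894551959552))⟩,
    ⟨nat_lit 2, nat_lit 3, (.negSucc (nat_lit 1266731007)), (.negSucc (nat_lit 1062432767)), (.negSucc (nat_lit 1266730991)), (.negSucc (nat_lit 1062432783)), (.negSucc (nat_lit 6736229129654487334403)), (.ofNat (nat_lit 0)), (.ofNat (nat_lit 14126896391713167422320017408))⟩,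
    ⟨nat_lit 3, nat_lit 4, (.negSucc (nat_lit 1062432767)), (.negSucc (nat_lit 210465215)), (.negSucc (nat_lit 1062432751)), (.negSucc (nat_lit 210465231)), (.ofNat (nat_lit 6736229129654487334404)), (.ofNat (nat_lit 0)), (.ofNat (nat_lit 1889979387940850458070038910976))⟩,
    ⟨nat_lit 5, nat_lit 4, (.negSucc (nat_lit 448129471)), (.negSucc (nat_lit 210465215)), (.negSucc (nat_lit 448129455)), (.negSucc (nat_lit 210465231)), (.negSucc (nat_lit 6736229129654487334403)), (.ofNat (nat_lit 0)), (.ofNat (nat_lit 38848965077211210411380047872))⟩,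
    ⟨nat_lit 6, nat_lit 5, (.negSucc (nat_lit 1376806911)), (.negSucc (nat_lit 448129471)), (.negSucc (nat_lit 1376806895)), (.negSucc (nat_lit 448129487)), (.ofNat (nat_lit 6736229129654487334404)), (.ofNat (nat_lit 0)), (.ofNat (nat_lit 2261445024897167592848738899968))⟩,
    ⟨nat_lit 6, nat_lit 14, (.negSucc (nat_lit 1376806911)), (.negSucc (nat_lit 1251162111)), (.negSucc (nat_lit 1376806895)), (.negSucc (nat_lit 1251162127)), (.negSucc (nat_lit 6736229129654487334403)), (.ofNat (nat_lit 0)), (.ofNat (nat_lit 7063448195856583711160008704))⟩,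
    ⟨nat_lit 22, nat_lit 7, (.negSucc (nat_lit 1318250303)), (.negSucc (nat_lit 1090660351)), (.negSucc (nat_lit 1318250287)), (.negSucc (nat_lit 1090660367)), (.ofNat (nat_lit 6736229129654487334404)), (.ofNat (nat_lit 0)), (.ofNat (nat_lit 2015328001822789754163007346688))⟩,
    ⟨nat_lit 7, nat_lit 8, (.negSucc (nat_lit 1090660351)), (.ofNat (nat_lit 240959232)), (.negSucc (nat_lit 1090660335)), (.ofNat (nat_lit 240959216)), (.negSucc (nat_lit 6736229129654487334403)), (.ofNat (nat_lit 0)), (.ofNat (nat_lit 17658620489641459277900021760))⟩,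
    ⟨nat_lit 8, nat_lit 9, (.ofNat (nat_lit 240959232)), (.ofNat (nat_lit 1010744640)), (.ofNat (nat_lit 240959248)), (.ofNat (nat_lit 1010744624)), (.ofNat (nat_lit 6736229129654487334404)), (.ofNat (nat_lit 0)), (.ofNat (nat_lit 0))⟩,
    ⟨nat_lit 10, nat_lit 9, (.ofNat (nat_lit 240686208)), (.ofNat (nat_lit 1010744640)), (.ofNat (nat_lit 240686224)), (.ofNat (nat_lit 1010744624)), (.negSucc (nat_lit 6736218941327845918259)), (.ofNat (nat_lit 0)), (.ofNat (nat_lit 35317214271195927681863516160))⟩,
    ⟨nat_lit 23, nat_lit 10, (.negSucc (nat_lit 179595903)), (.ofNat (nat_lit 240686208)), (.negSucc (nat_lit 179595887)), (.ofNat (nat_lit 240686192)), (.ofNat (nat_lit 6736221079318194420060)), (.ofNat (nat_lit 0)), (.ofNat (nat_lit 1165286326044433836403255080960))⟩,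
    ⟨nat_lit 21, nat_lit 23, (.negSucc (nat_lit 179595967)), (.negSucc (nat_lit 179595903)), (.negSucc (nat_lit 179595951)), (.negSucc (nat_lit 179595919)), (.ofNat (nat_lit 6736221079318194420060)), (.ofNat (nat_lit 0)), (.ofNat (nat_lit 1165286326044433836403255080960))⟩,
    ⟨nat_lit 12, nat_lit 11, (.negSucc (nat_lit 188541759)), (.ofNat (nat_lit 353899392)), (.negSucc (nat_lit 188541743)), (.ofNat (nat_lit 353899376)), (.ofNat (nat_lit 6736229129654487334404)), (.ofNat (nat_lit 0)), (.ofNat (nat_lit 672170905304093449386494548992))⟩,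
    ⟨nat_lit 13, nat_lit 12, (.negSucc (nat_lit 1105704959)), (.negSucc (nat_lit 188541759)), (.negSucc (nat_lit 1105704943)), (.negSucc (nat_lit 188541775)), (.negSucc (nat_lit 6736229129654487334403)), (.ofNat (nat_lit 0)), (.ofNat (nat_lit 21190344587569751133480026112))⟩,
    ⟨nat_lit 14, nat_lit 13, (.negSucc (nat_lit 1251162111)), (.negSucc (nat_lit 1105704959)), (.negSucc (nat_lit 1251162095)), (.negSucc (nat_lit 1105704975)), (.ofNat (nat_lit 6736229129654487334404)), (.ofNat (nat_lit 0)), (.ofNat (nat_lit 2063944391358333896737475844096))⟩,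
    ⟨nat_lit 15, nat_lit 16, (.negSucc (nat_lit 125584255)), (.ofNat (nat_lit 843020800)), (.negSucc (nat_lit 125584239)), (.ofNat (nat_lit 843020784)), (.ofNat (nat_lit 6736229129654487334404)), (.ofNat (nat_lit 0)), (.ofNat (nat_lit 211143814789204634107074190848))⟩,
    ⟨nat_lit 17, nat_lit 16, (.negSucc (nat_lit 234639807)), (.ofNat (nat_lit 843020800)), (.negSucc (nat_lit 234639791)), (.ofNat (nat_lit 843020784)), (.negSucc (nat_lit 6736229129654487334403)), (.ofNat (nat_lit 0)), (.ofNat (nat_lit 31785516881354626700220039168))⟩,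
    ⟨nat_lit 18, nat_lit 17, (.negSucc (nat_lit 1057837055)), (.negSucc (nat_lit 234639807)), (.negSucc (nat_lit 1057837039)), (.negSucc (nat_lit 234639823)), (.ofNat (nat_lit 6736229129654487334404)), (.ofNat (nat_lit 0)), (.ofNat (nat_lit 1836893160093865821115851970560))⟩,
    ⟨nat_lit 19, nat_lit 18, (.negSucc (nat_lit 1262135295)), (.negSucc (nat_lit 1057837055)), (.negSucc (nat_lit 1262135279)), (.negSucc (nat_lit 1057837071)), (.negSucc (nat_lit 6736229129654487334403)), (.ofNat (nat_lit 0)), (.ofNat (nat_lit 10595172293784875566740013056))⟩,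
    ⟨nat_lit 19, nat_lit 20, (.negSucc (nat_lit 1262135295)), (.negSucc (nat_lit 622176575)), (.negSucc (nat_lit 1262135279)), (.negSucc (nat_lit 622176591)), (.ofNat (nat_lit 6736229129654487334404)), (.ofNat (nat_lit 0)), (.ofNat (nat_lit 2155272569203198318940365019136))⟩,
    ⟨nat_lit 20, nat_lit 11, (.negSucc (nat_lit 622176575)), (.ofNat (nat_lit 353899392)), (.negSucc (nat_lit 622176559)), (.ofNat (nat_lit 353899376)), (.negSucc (nat_lit 6736229129654487334403)), (.ofNat (nat_lit 0)), (.ofNat (nat_lit 28253792783426334844640034816))⟩,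
    ⟨nat_lit 0, nat_lit 21, (.negSucc (nat_lit 733882623)), (.negSucc (nat_lit 179595967)), (.negSucc (nat_lit 733882607)), (.negSucc (nat_lit 179595983)), (.ofNat (nat_lit 6736221079318194420060)), (.ofNat (nat_lit 0)), (.ofNat (nat_lit 1165286326044433836403255080960))⟩,
    ⟨nat_lit 22, nat_lit 15, (.negSucc (nat_lit 1318250303)), (.negSucc (nat_lit 125584255)), (.negSucc (nat_lit 1318250287)), (.negSucc (nat_lit 125584271)), (.negSucc (nat_lit 6736229129654487334403)), (.ofNat (nat_lit 0)), (.ofNat (nat_lit 0))⟩]

theorem ok78 : stOK 23 23 S78 = true := by decide +kernel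

def S79 : SD where
  vs := [
    ⟨nat_lit 0, nat_lit 0, nat_lit 21, (.ofNat (nat_lit 8)), (.negSucc (nat_lit 733882623)), (.ofNat (nat_lit 5681730983765755780389015101952)), (.negSucc (nat_lit 86231871)), (.ofNat (nat_lit 584409372168965447901526928640)), (.negSucc (nat_lit 733882639)), (.negSucc (nat_lit 733882607)), (.negSucc (nat_lit 6736229129654487334403)), (.ofNat (nat_lit 6736221079318194420060)), (.negSucc (nat_lit 6736229129654487334403)), (.ofNat (nat_lit 6736221079318194420060)), (.ofNat (nat_lit 0))⟩,
    ⟨nat_lit 2, nat_lit 0, nat_lit 1, (.ofNat (nat_lit 8)), (.negSucc (nat_lit 1418102591)), (.ofNat (nat_lit 10290793463298616955391325281024)), (.negSucc (nat_lit 163654399)), (.ofNat (nat_lit 1105945260574055623875065981952)), (.negSucc (nat_lit 1418102607)), (.negSucc (nat_lit 1418102575)), (.negSucc (nat_lit 6736229129654487334403)), (.ofNat (nat_lit 6736229129654487334404)), (.negSucc (nat_lit 6736229129654487334403)), (.ofNat (nat_lit 6736229129654487334404)), (.ofNat (nat_lit 0))⟩,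
    ⟨nat_lit 0, nat_lit 1, nat_lit 2, (.ofNat (nat_lit 8)), (.negSucc (nat_lit 1266731007)), (.ofNat (nat_lit 11310467136841358075907996456960)), (.negSucc (nat_lit 162867967)), (.ofNat (nat_lit 1111242846720948061658435988480)), (.negSucc (nat_lit 1266731023)), (.negSucc (nat_lit 1266730991)), (.ofNat (nat_lit 6736229129654487334404)), (.negSucc (nat_lit 6736229129654487334403)), (.negSucc (nat_lit 6736229129654487334403)), (.ofNat (nat_lit 6736229129654487334404)), (.ofNat (nat_lit 0))⟩,
    ⟨nat_lit 0, nat_lit 2, nat_lit 3, (.ofNat (nat_lit 8)), (.negSucc (nat_lit 1062432767)), (.ofNat (nat_lit 9934267381416214505386967808000)), (.negSucc (nat_lit 139236095)), (.ofNat (nat_lit 952053142166281812746179464192)), (.negSucc (nat_lit 1062432783)), (.negSucc (nat_lit 1062432751)), (.negSucc (nat_lit 6736229129654487334403)), (.ofNat (nat_lit 6736229129654487334404)), (.negSucc (nat_lit 6736229129654487334403)), (.ofNat (nat_lit 6736229129654487334404)), (.ofNat (nat_lit 0))⟩,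
    ⟨nat_lit 1, nat_lit 3, nat_lit 4, (.ofNat (nat_lit 8)), (.negSucc (nat_lit 210465215)), (.ofNat (nat_lit 15673316022719038685494149067008)), (.negSucc (nat_lit 137401087)), (.ofNat (nat_lit 964414176509030834240709479424)), (.negSucc (nat_lit 210465231)), (.negSucc (nat_lit 210465199)), (.ofNat (nat_lit 6736229129654487334404)), (.negSucc (nat_lit 6736229129654487334403)), (.negSucc (nat_lit 6736229129654487334403)), (.ofNat (nat_lit 6736229129654487334404)), (.ofNat (nat_lit 0))⟩,
    ⟨nat_lit 0, nat_lit 5, nat_lit 4, (.ofNat (nat_lit 8)), (.negSucc (nat_lit 448129471)), (.ofNat (nat_lit 17274276907063899954886698930432)), (.negSucc (nat_lit 164973311)), (.ofNat (nat_lit 1150146994987189401630059473920)), (.negSucc (nat_lit 448129487)), (.negSucc (nat_lit 448129455)), (.ofNat (nat_lit 6736229129654487334404)), (.negSucc (nat_lit 6736229129654487334403)), (.negSucc (nat_lit 6736229129654487334403)), (.ofNat (nat_lit 6736229129654487334404)), (.ofNat (nat_lit 0))⟩,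
    ⟨nat_lit 2, nat_lit 6, nat_lit 5, (.ofNat (nat_lit 8)), (.negSucc (nat_lit 1376806911)), (.ofNat (nat_lit 11018492883682942572659968284672)), (.negSucc (nat_lit 167332607)), (.ofNat (nat_lit 1134254236546512088279949454336)), (.negSucc (nat_lit 1376806927)), (.negSucc (nat_lit 1376806895)), (.negSucc (nat_lit 6736229129654487334403)), (.ofNat (nat_lit 6736229129654487334404)), (.negSucc (nat_lit 6736229129654487334403)), (.ofNat (nat_lit 6736229129654487334404)), (.ofNat (nat_lit 0))⟩,
    ⟨nat_lit 0, nat_lit 7, nat_lit 8, (.ofNat (nat_lit 8)), (.negSucc (nat_lit 1090660351)), (.ofNat (nat_lit 10844003639969672903170218694656)), (.negSucc (nat_lit 148278015)), (.ofNat (nat_lit 1016493311156215606720453684224)), (.negSucc (nat_lit 1090660367)), (.negSucc (nat_lit 1090660335)), (.ofNat (nat_lit 6736229129654487334404)), (.negSucc (nat_lit 6736229129654487334403)), (.negSucc (nat_lit 6736229129654487334403)), (.ofNat (nat_lit 6736229129654487334404)), (.ofNat (nat_lit 0))⟩,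
    ⟨nat_lit 0, nat_lit 8, nat_lit 9, (.ofNat (nat_lit 8)), (.ofNat (nat_lit 240959232)), (.ofNat (nat_lit 1873909008610482415197895326720)), (.ofNat (nat_lit 1310720)), (.ofNat (nat_lit 8829310244820729638950010880)), (.ofNat (nat_lit 240959216)), (.ofNat (nat_lit 240959248)), (.negSucc (nat_lit 6736229129654487334403)), (.ofNat (nat_lit 6736229129654487334404)), (.negSucc (nat_lit 6736229129654487334403)), (.ofNat (nat_lit 6736229129654487334404)), (.ofNat (nat_lit 0))⟩,
    ⟨nat_lit 1, nat_lit 9, nat_lit 10, (.ofNat (nat_lit 8)), (.ofNat (nat_lit 1010744640)), (.ofNat (nat_lit 7059359897563046846942910903552)), (.ofNat (nat_lit 2621440)), (.ofNat (nat_lit 17658620489641459277900021760)), (.ofNat (nat_lit 1010744624)), (.ofNat (nat_lit 1010744656)), (.ofNat (nat_lit 6736229129654487334404)), (.negSucc (nat_lit 6736218941327845918259)), (.negSucc (nat_lit 6736218941327845918259)), (.ofNat (nat_lit 6736229129654487334404)), (.ofNat (nat_lit 0))⟩,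
    ⟨nat_lit 0, nat_lit 11, nat_lit 10, (.ofNat (nat_lit 8)), (.ofNat (nat_lit 240686208)), (.ofNat (nat_lit 12246642093130667872695806671872)), (.negSucc (nat_lit 83872639)), (.ofNat (nat_lit 600301680498367470359553922560)), (.ofNat (nat_lit 240686192)), (.ofNat (nat_lit 240686224)), (.ofNat (nat_lit 6736221079318194420060)), (.negSucc (nat_lit 6736218941327845918259)), (.negSucc (nat_lit 6736218941327845918259)), (.ofNat (nat_lit 6736221079318194420060)), (.ofNat (nat_lit 0))⟩,
    ⟨nat_lit 1, nat_lit 12, nat_lit 20, (.ofNat (nat_lit 8)), (.ofNat (nat_lit 353899392)), (.ofNat (nat_lit 8627739851090923887770794303488)), (.negSucc (nat_lit 47795071)), (.ofNat (nat_lit 350212349043759892115567291904)), (.ofNat (nat_lit 353899376)), (.ofNat (nat_lit 353899408)), (.ofNat (nat_lit 6736229129654487334404)), (.negSucc (nat_lit 6736229129654487334403)), (.negSucc (nat_lit 6736229129654487334403)), (.ofNat (nat_lit 6736229129654487334404)), (.ofNat (nat_lit 0))⟩,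
    ⟨nat_lit 0, nat_lit 13, nat_lit 12, (.ofNat (nat_lit 8)), (.negSucc (nat_lit 188541759)), (.ofNat (nat_lit 4973731961865186416127279310080)), (.negSucc (nat_lit 48319359)), (.ofNat (nat_lit 346680624945831600259987287552)), (.negSucc (nat_lit 188541775)), (.negSucc (nat_lit 188541743)), (.negSucc (nat_lit 6736229129654487334403)), (.ofNat (nat_lit 6736229129654487334404)), (.negSucc (nat_lit 6736229129654487334403)), (.ofNat (nat_lit 6736229129654487334404)), (.ofNat (nat_lit 0))⟩,
    ⟨nat_lit 0, nat_lit 14, nat_lit 13, (.ofNat (nat_lit 8)), (.negSucc (nat_lit 1105704959)), (.ofNat (nat_lit 11151953426352310914108722042880)), (.negSucc (nat_lit 151624447)), (.ofNat (nat_lit 1042567367972951823935477935104)), (.negSucc (nat_lit 1105704975)), (.negSucc (nat_lit 1105704943)), (.ofNat (nat_lit 6736229129654487334404)), (.negSucc (nat_lit 6736229129654487334403)), (.negSucc (nat_lit 6736229129654487334403)), (.ofNat (nat_lit 6736229129654487334404)), (.ofNat (nat_lit 0))⟩,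
    ⟨nat_lit 0, nat_lit 6, nat_lit 14, (.ofNat (nat_lit 8)), (.negSucc (nat_lit 1251162111)), (.ofNat (nat_lit 10172120721933330442426244585472)), (.negSucc (nat_lit 152673023)), (.ofNat (nat_lit 1035503919777095240224317926400)), (.negSucc (nat_lit 1251162127)), (.negSucc (nat_lit 1251162095)), (.negSucc (nat_lit 6736229129654487334403)), (.ofNat (nat_lit 6736229129654487334404)), (.negSucc (nat_lit 6736229129654487334403)), (.ofNat (nat_lit 6736229129654487334404)), (.ofNat (nat_lit 0))⟩,
    ⟨nat_lit 0, nat_lit 22, nat_lit 15, (.ofNat (nat_lit 8)), (.negSucc (nat_lit 125584255)), (.ofNat (nat_lit 1276833801203109339558931270656)), (.negSucc (nat_lit 15672255)), (.ofNat (nat_lit 105571907394602317053537095424)), (.negSucc (nat_lit 125584271)), (.negSucc (nat_lit 125584239)), (.negSucc (nat_lit 6736229129654487334403)), (.ofNat (nat_lit 6736229129654487334404)), (.negSucc (nat_lit 6736229129654487334403)), (.ofNat (nat_lit 6736229129654487334404)), (.ofNat (nat_lit 0))⟩,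
    ⟨nat_lit 1, nat_lit 15, nat_lit 16, (.ofNat (nat_lit 8)), (.ofNat (nat_lit 843020800)), (.ofNat (nat_lit 7801579394560925304750608417280)), (.negSucc (nat_lit 13312959)), (.ofNat (nat_lit 121464665835279630403647115008)), (.ofNat (nat_lit 843020784)), (.ofNat (nat_lit 843020816)), (.ofNat (nat_lit 6736229129654487334404)), (.negSucc (nat_lit 6736229129654487334403)), (.negSucc (nat_lit 6736229129654487334403)), (.ofNat (nat_lit 6736229129654487334404)), (.ofNat (nat_lit 0))⟩,
    ⟨nat_lit 0, nat_lit 17, nat_lit 16, (.ofNat (nat_lit 8)), (.negSucc (nat_lit 234639807)), (.ofNat (nat_lit 15060948174051690955472722374912)), (.negSucc (nat_lit 133985023)), (.ofNat (nat_lit 934339338487610223908036004864)), (.negSucc (nat_lit 234639823)), (.negSucc (nat_lit 234639791)), (.ofNat (nat_lit 6736229129654487334404)), (.negSucc (nat_lit 6736229129654487334403)), (.negSucc (nat_lit 6736229129654487334403)), (.ofNat (nat_lit 6736229129654487334404)), (.ofNat (nat_lit 0))⟩,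
    ⟨nat_lit 0, nat_lit 18, nat_lit 17, (.ofNat (nat_lit 8)), (.negSucc (nat_lit 1057837055)), (.ofNat (nat_lit 9515702892622681790940493854720)), (.negSucc (nat_lit 135557887)), (.ofNat (nat_lit 923744166193825348341295991808)), (.negSucc (nat_lit 1057837071)), (.negSucc (nat_lit 1057837039)), (.negSucc (nat_lit 6736229129654487334403)), (.ofNat (nat_lit 6736229129654487334404)), (.negSucc (nat_lit 6736229129654487334403)), (.ofNat (nat_lit 6736229129654487334404)), (.ofNat (nat_lit 0))⟩,
    ⟨nat_lit 2, nat_lit 18, nat_lit 19, (.ofNat (nat_lit 8)), (.negSucc (nat_lit 1262135295)), (.ofNat (nat_lit 10891902648047825361461522503680)), (.negSucc (nat_lit 159189759)), (.ofNat (nat_lit 1082933870748491597253552516096)), (.negSucc (nat_lit 1262135311)), (.negSucc (nat_lit 1262135279)), (.negSucc (nat_lit 6736229129654487334403)), (.ofNat (nat_lit 6736229129654487334404)), (.negSucc (nat_lit 6736229129654487334403)), (.ofNat (nat_lit 6736229129654487334404)), (.ofNat (nat_lit 0))⟩,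
    ⟨nat_lit 0, nat_lit 19, nat_lit 20, (.ofNat (nat_lit 8)), (.negSucc (nat_lit 622176575)), (.ofNat (nat_lit 15202811219488225118242918306560)), (.negSucc (nat_lit 157879039)), (.ofNat (nat_lit 1091763180993312326892502526976)), (.negSucc (nat_lit 622176591)), (.negSucc (nat_lit 622176559)), (.ofNat (nat_lit 6736229129654487334404)), (.negSucc (nat_lit 6736229129654487334403)), (.negSucc (nat_lit 6736229129654487334403)), (.ofNat (nat_lit 6736229129654487334404)), (.ofNat (nat_lit 0))⟩,
    ⟨nat_lit 2, nat_lit 22, nat_lit 7, (.ofNat (nat_lit 8)), (.negSucc (nat_lit 1318250303)), (.ofNat (nat_lit 9310905575690606354148604386048)), (.negSucc (nat_lit 149588735)), (.ofNat (nat_lit 1007664000911394877081503673344)), (.negSucc (nat_lit 1318250319)), (.negSucc (nat_lit 1318250287)), (.negSucc (nat_lit 6736229129654487334403)), (.ofNat (nat_lit 6736229129654487334404)), (.negSucc (nat_lit 6736229129654487334403)), (.ofNat (nat_lit 6736229129654487334404)), (.ofNat (nat_lit 0))⟩,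
    ⟨nat_lit 0, nat_lit 21, nat_lit 11, (.ofNat (nat_lit 8)), (.negSucc (nat_lit 179595903)), (.ofNat (nat_lit 9415528871015897601806374705152)), (.negSucc (nat_lit 84659071)), (.ofNat (nat_lit 595004100682517104085397296640)), (.negSucc (nat_lit 179595919)), (.negSucc (nat_lit 179595887)), (.ofNat (nat_lit 6736221079318194420060)), (.ofNat (nat_lit 6736221079318194420060)), (.ofNat (nat_lit 6736221079318194420060)), (.ofNat (nat_lit 6736221079318194420060)), (.ofNat (nat_lit 0))⟩]
  es := [
    ⟨nat_lit 1, nat_lit 0, (.negSucc (nat_lit 1418102591)), (.negSucc (nat_lit 733882623)), (.negSucc (nat_lit 1418102575)), (.negSucc (nat_lit 733882639)), (.negSucc (nat_lit 6736229129654487334403)), (.ofNat (nat_lit 0)), (.ofNat (nat_lit 3531724097928291855580004352))⟩,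
    ⟨nat_lit 1, nat_lit 2, (.negSucc (nat_lit 1418102591)), (.negSucc (nat_lit 1266731007)), (.negSucc (nat_lit 1418102575)), (.negSucc (nat_lit 1266731023)), (.ofNat (nat_lit 6736229129654487334404)), (.ofNat (nat_lit 0)), (.ofNat (nat_lit 2208358797050182955894551959552))⟩,
    ⟨nat_lit 2, nat_lit 3, (.negSucc (nat_lit 1266731007)), (.negSucc (nat_lit 1062432767)), (.negSucc (nat_lit 1266730991)), (.negSucc (nat_lit 1062432783)), (.negSucc (nat_lit 6736229129654487334403)), (.ofNat (nat_lit 0)), (.ofNat (nat_lit 14126896391713167422320017408))⟩,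
    ⟨nat_lit 3, nat_lit 4, (.negSucc (nat_lit 1062432767)), (.negSucc (nat_lit 210465215)), (.negSucc (nat_lit 1062432751)), (.negSucc (nat_lit 210465231)), (.ofNat (nat_lit 6736229129654487334404)), (.ofNat (nat_lit 0)), (.ofNat (nat_lit 1889979387940850458070038910976))⟩,
    ⟨nat_lit 5, nat_lit 4, (.negSucc (nat_lit 448129471)), (.negSucc (nat_lit 210465215)), (.negSucc (nat_lit 448129455)), (.negSucc (nat_lit 210465231)), (.negSucc (nat_lit 6736229129654487334403)), (.ofNat (nat_lit 0)), (.ofNat (nat_lit 38848965077211210411380047872))⟩,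
    ⟨nat_lit 6, nat_lit 5, (.negSucc (nat_lit 1376806911)), (.negSucc (nat_lit 448129471)), (.negSucc (nat_lit 1376806895)), (.negSucc (nat_lit 448129487)), (.ofNat (nat_lit 6736229129654487334404)), (.ofNat (nat_lit 0)), (.ofNat (nat_lit 2261445024897167592848738899968))⟩,
    ⟨nat_lit 6, nat_lit 14, (.negSucc (nat_lit 1376806911)), (.negSucc (nat_lit 1251162111)), (.negSucc (nat_lit 1376806895)), (.negSucc (nat_lit 1251162127)), (.negSucc (nat_lit 6736229129654487334403)), (.ofNat (nat_lit 0)), (.ofNat (nat_lit 7063448195856583711160008704))⟩,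
    ⟨nat_lit 21, nat_lit 7, (.negSucc (nat_lit 1318250303)), (.negSucc (nat_lit 1090660351)), (.negSucc (nat_lit 1318250287)), (.negSucc (nat_lit 1090660367)), (.ofNat (nat_lit 6736229129654487334404)), (.ofNat (nat_lit 0)), (.ofNat (nat_lit 2015328001822789754163007346688))⟩,
    ⟨nat_lit 7, nat_lit 8, (.negSucc (nat_lit 1090660351)), (.ofNat (nat_lit 240959232)), (.negSucc (nat_lit 1090660335)), (.ofNat (nat_lit 240959216)), (.negSucc (nat_lit 6736229129654487334403)), (.ofNat (nat_lit 0)), (.ofNat (nat_lit 17658620489641459277900021760))⟩,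
    ⟨nat_lit 8, nat_lit 9, (.ofNat (nat_lit 240959232)), (.ofNat (nat_lit 1010744640)), (.ofNat (nat_lit 240959248)), (.ofNat (nat_lit 1010744624)), (.ofNat (nat_lit 6736229129654487334404)), (.ofNat (nat_lit 0)), (.ofNat (nat_lit 0))⟩,
    ⟨nat_lit 10, nat_lit 9, (.ofNat (nat_lit 240686208)), (.ofNat (nat_lit 1010744640)), (.ofNat (nat_lit 240686224)), (.ofNat (nat_lit 1010744624)), (.negSucc (nat_lit 6736218941327845918259)), (.ofNat (nat_lit 0)), (.ofNat (nat_lit 35317214271195927681863516160))⟩,
    ⟨nat_lit 22, nat_lit 10, (.negSucc (nat_lit 179595903)), (.ofNat (nat_lit 240686208)), (.negSucc (nat_lit 179595887)), (.ofNat (nat_lit 240686192)), (.ofNat (nat_lit 6736221079318194420060)), (.ofNat (nat_lit 0)), (.ofNat (nat_lit 1165286326044433836403255080960))⟩,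
    ⟨nat_lit 12, nat_lit 11, (.negSucc (nat_lit 188541759)), (.ofNat (nat_lit 353899392)), (.negSucc (nat_lit 188541743)), (.ofNat (nat_lit 353899376)), (.ofNat (nat_lit 6736229129654487334404)), (.ofNat (nat_lit 0)), (.ofNat (nat_lit 672170905304093449386494548992))⟩,
    ⟨nat_lit 13, nat_lit 12, (.negSucc (nat_lit 1105704959)), (.negSucc (nat_lit 188541759)), (.negSucc (nat_lit 1105704943)), (.negSucc (nat_lit 188541775)), (.negSucc (nat_lit 6736229129654487334403)), (.ofNat (nat_lit 0)), (.ofNat (nat_lit 21190344587569751133480026112))⟩,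
    ⟨nat_lit 14, nat_lit 13, (.negSucc (nat_lit 1251162111)), (.negSucc (nat_lit 1105704959)), (.negSucc (nat_lit 1251162095)), (.negSucc (nat_lit 1105704975)), (.ofNat (nat_lit 6736229129654487334404)), (.ofNat (nat_lit 0)), (.ofNat (nat_lit 2063944391358333896737475844096))⟩,
    ⟨nat_lit 15, nat_lit 16, (.negSucc (nat_lit 125584255)), (.ofNat (nat_lit 843020800)), (.negSucc (nat_lit 125584239)), (.ofNat (nat_lit 843020784)), (.ofNat (nat_lit 6736229129654487334404)), (.ofNat (nat_lit 0)), (.ofNat (nat_lit 211143814789204634107074190848))⟩,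
    ⟨nat_lit 17, nat_lit 16, (.negSucc (nat_lit 234639807)), (.ofNat (nat_lit 843020800)), (.negSucc (nat_lit 234639791)), (.ofNat (nat_lit 843020784)), (.negSucc (nat_lit 6736229129654487334403)), (.ofNat (nat_lit 0)), (.ofNat (nat_lit 31785516881354626700220039168))⟩,
    ⟨nat_lit 18, nat_lit 17, (.negSucc (nat_lit 1057837055)), (.negSucc (nat_lit 234639807)), (.negSucc (nat_lit 1057837039)), (.negSucc (nat_lit 234639823)), (.ofNat (nat_lit 6736229129654487334404)), (.ofNat (nat_lit 0)), (.ofNat (nat_lit 1836893160093865821115851970560))⟩,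
    ⟨nat_lit 19, nat_lit 18, (.negSucc (nat_lit 1262135295)), (.negSucc (nat_lit 1057837055)), (.negSucc (nat_lit 1262135279)), (.negSucc (nat_lit 1057837071)), (.negSucc (nat_lit 6736229129654487334403)), (.ofNat (nat_lit 0)), (.ofNat (nat_lit 10595172293784875566740013056))⟩,
    ⟨nat_lit 19, nat_lit 20, (.negSucc (nat_lit 1262135295)), (.negSucc (nat_lit 622176575)), (.negSucc (nat_lit 1262135279)), (.negSucc (nat_lit 622176591)), (.ofNat (nat_lit 6736229129654487334404)), (.ofNat (nat_lit 0)), (.ofNat (nat_lit 2155272569203198318940365019136))⟩,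
    ⟨nat_lit 20, nat_lit 11, (.negSucc (nat_lit 622176575)), (.ofNat (nat_lit 353899392)), (.negSucc (nat_lit 622176559)), (.ofNat (nat_lit 353899376)), (.negSucc (nat_lit 6736229129654487334403)), (.ofNat (nat_lit 0)), (.ofNat (nat_lit 28253792783426334844640034816))⟩,
    ⟨nat_lit 0, nat_lit 22, (.negSucc (nat_lit 733882623)), (.negSucc (nat_lit 179595903)), (.negSucc (nat_lit 733882607)), (.negSucc (nat_lit 179595919)), (.ofNat (nat_lit 6736221079318194420060)), (.ofNat (nat_lit 0)), (.ofNat (nat_lit 1165286326044433836403255080960))⟩,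
    ⟨nat_lit 21, nat_lit 15, (.negSucc (nat_lit 1318250303)), (.negSucc (nat_lit 125584255)), (.negSucc (nat_lit 1318250287)), (.negSucc (nat_lit 125584271)), (.negSucc (nat_lit 6736229129654487334403)), (.ofNat (nat_lit 0)), (.ofNat (nat_lit 0))⟩]

theorem ok79 : stOK 22 22 S79 = true := by decide +kernel

def S80 : SD where
  vs := [
    ⟨nat_lit 0, nat_lit 0, nat_lit 20, (.ofNat (nat_lit 8)), (.negSucc (nat_lit 733882623)), (.ofNat (nat_lit 5681730983765755780389015101952)), (.negSucc (nat_lit 86231871)), (.ofNat (nat_lit 584409372168965447901526928640)), (.negSucc (nat_lit 733882639)), (.negSucc (nat_lit 733882607)), (.negSucc (nat_lit 6736229129654487334403)), (.ofNat (nat_lit 6736221079318194420060)), (.negSucc (nat_lit 6736229129654487334403)), (.ofNat (nat_lit 6736221079318194420060)), (.ofNat (nat_lit 0))⟩,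
    ⟨nat_lit 2, nat_lit 0, nat_lit 1, (.ofNat (nat_lit 8)), (.negSucc (nat_lit 1418102591)), (.ofNat (nat_lit 10290793463298616955391325281024)), (.negSucc (nat_lit 163654399)), (.ofNat (nat_lit 1105945260574055623875065981952)), (.negSucc (nat_lit 1418102607)), (.negSucc (nat_lit 1418102575)), (.negSucc (nat_lit 6736229129654487334403)), (.ofNat (nat_lit 6736229129654487334404)), (.negSucc (nat_lit 6736229129654487334403)), (.ofNat (nat_lit 6736229129654487334404)), (.ofNat (nat_lit 0))⟩,
    ⟨nat_lit 0, nat_lit 1, nat_lit 2, (.ofNat (nat_lit 8)), (.negSucc (nat_lit 1266731007)), (.ofNat (nat_lit 11310467136841358075907996456960)), (.negSucc (nat_lit 162867967)), (.ofNat (nat_lit 1111242846720948061658435988480)), (.negSucc (nat_lit 1266731023)), (.negSucc (nat_lit 1266730991)), (.ofNat (nat_lit 6736229129654487334404)), (.negSucc (nat_lit 6736229129654487334403)), (.negSucc (nat_lit 6736229129654487334403)), (.ofNat (nat_lit 6736229129654487334404)), (.ofNat (nat_lit 0))⟩,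
    ⟨nat_lit 0, nat_lit 2, nat_lit 3, (.ofNat (nat_lit 8)), (.negSucc (nat_lit 1062432767)), (.ofNat (nat_lit 9934267381416214505386967808000)), (.negSucc (nat_lit 139236095)), (.ofNat (nat_lit 952053142166281812746179464192)), (.negSucc (nat_lit 1062432783)), (.negSucc (nat_lit 1062432751)), (.negSucc (nat_lit 6736229129654487334403)), (.ofNat (nat_lit 6736229129654487334404)), (.negSucc (nat_lit 6736229129654487334403)), (.ofNat (nat_lit 6736229129654487334404)), (.ofNat (nat_lit 0))⟩,
    ⟨nat_lit 1, nat_lit 3, nat_lit 4, (.ofNat (nat_lit 8)), (.negSucc (nat_lit 210465215)), (.ofNat (nat_lit 15673316022719038685494149067008)), (.negSucc (nat_lit 137401087)), (.ofNat (nat_lit 964414176509030834240709479424)), (.negSucc (nat_lit 210465231)), (.negSucc (nat_lit 210465199)), (.ofNat (nat_lit 6736229129654487334404)), (.negSucc (nat_lit 6736229129654487334403)), (.negSucc (nat_lit 6736229129654487334403)), (.ofNat (nat_lit 6736229129654487334404)), (.ofNat (nat_lit 0))⟩,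
    ⟨nat_lit 0, nat_lit 5, nat_lit 4, (.ofNat (nat_lit 8)), (.negSucc (nat_lit 448129471)), (.ofNat (nat_lit 17274276907063899954886698930432)), (.negSucc (nat_lit 164973311)), (.ofNat (nat_lit 1150146994987189401630059473920)), (.negSucc (nat_lit 448129487)), (.negSucc (nat_lit 448129455)), (.ofNat (nat_lit 6736229129654487334404)), (.negSucc (nat_lit 6736229129654487334403)), (.negSucc (nat_lit 6736229129654487334403)), (.ofNat (nat_lit 6736229129654487334404)), (.ofNat (nat_lit 0))⟩,
    ⟨nat_lit 2, nat_lit 6, nat_lit 5, (.ofNat (nat_lit 8)), (.negSucc (nat_lit 1376806911)), (.ofNat (nat_lit 11018492883682942572659968284672)), (.negSucc (nat_lit 167332607)), (.ofNat (nat_lit 1134254236546512088279949454336)), (.negSucc (nat_lit 1376806927)), (.negSucc (nat_lit 1376806895)), (.negSucc (nat_lit 6736229129654487334403)), (.ofNat (nat_lit 6736229129654487334404)), (.negSucc (nat_lit 6736229129654487334403)), (.ofNat (nat_lit 6736229129654487334404)), (.ofNat (nat_lit 0))⟩,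
    ⟨nat_lit 0, nat_lit 7, nat_lit 8, (.ofNat (nat_lit 8)), (.negSucc (nat_lit 1090660351)), (.ofNat (nat_lit 10844003639969672903170218694656)), (.negSucc (nat_lit 148278015)), (.ofNat (nat_lit 1016493311156215606720453684224)), (.negSucc (nat_lit 1090660367)), (.negSucc (nat_lit 1090660335)), (.ofNat (nat_lit 6736229129654487334404)), (.negSucc (nat_lit 6736229129654487334403)), (.negSucc (nat_lit 6736229129654487334403)), (.ofNat (nat_lit 6736229129654487334404)), (.ofNat (nat_lit 0))⟩,
    ⟨nat_lit 0, nat_lit 8, nat_lit 9, (.ofNat (nat_lit 8)), (.ofNat (nat_lit 240959232)), (.ofNat (nat_lit 1873909008610482415197895326720)), (.ofNat (nat_lit 1310720)), (.ofNat (nat_lit 8829310244820729638950010880)), (.ofNat (nat_lit 240959216)), (.ofNat (nat_lit 240959248)), (.negSucc (nat_lit 6736229129654487334403)), (.ofNat (nat_lit 6736229129654487334404)), (.negSucc (nat_lit 6736229129654487334403)), (.ofNat (nat_lit 6736229129654487334404)), (.ofNat (nat_lit 0))⟩,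
    ⟨nat_lit 1, nat_lit 9, nat_lit 10, (.ofNat (nat_lit 8)), (.ofNat (nat_lit 1010744640)), (.ofNat (nat_lit 7059359897563046846942910903552)), (.ofNat (nat_lit 2621440)), (.ofNat (nat_lit 17658620489641459277900021760)), (.ofNat (nat_lit 1010744624)), (.ofNat (nat_lit 1010744656)), (.ofNat (nat_lit 6736229129654487334404)), (.negSucc (nat_lit 6736218941327845918259)), (.negSucc (nat_lit 6736218941327845918259)), (.ofNat (nat_lit 6736229129654487334404)), (.ofNat (nat_lit 0))⟩,
    ⟨nat_lit 0, nat_lit 20, nat_lit 10, (.ofNat (nat_lit 8)), (.ofNat (nat_lit 240686208)), (.ofNat (nat_lit 12246642093130667872695806671872)), (.negSucc (nat_lit 83872639)), (.ofNat (nat_lit 600301680498367470359553922560)), (.ofNat (nat_lit 240686192)), (.ofNat (nat_lit 240686224)), (.ofNat (nat_lit 6736221079318194420060)), (.negSucc (nat_lit 6736218941327845918259)), (.negSucc (nat_lit 6736218941327845918259)), (.ofNat (nat_lit 6736221079318194420060)), (.ofNat (nat_lit 0))⟩,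
    ⟨nat_lit 1, nat_lit 11, nat_lit 19, (.ofNat (nat_lit 8)), (.ofNat (nat_lit 353899392)), (.ofNat (nat_lit 8627739851090923887770794303488)), (.negSucc (nat_lit 47795071)), (.ofNat (nat_lit 350212349043759892115567291904)), (.ofNat (nat_lit 353899376)), (.ofNat (nat_lit 353899408)), (.ofNat (nat_lit 6736229129654487334404)), (.negSucc (nat_lit 6736229129654487334403)), (.negSucc (nat_lit 6736229129654487334403)), (.ofNat (nat_lit 6736229129654487334404)), (.ofNat (nat_lit 0))⟩,
    ⟨nat_lit 0, nat_lit 12, nat_lit 11, (.ofNat (nat_lit 8)), (.negSucc (nat_lit 188541759)), (.ofNat (nat_lit 4973731961865186416127279310080)), (.negSucc (nat_lit 48319359)), (.ofNat (nat_lit 346680624945831600259987287552)), (.negSucc (nat_lit 188541775)), (.negSucc (nat_lit 188541743)), (.negSucc (nat_lit 6736229129654487334403)), (.ofNat (nat_lit 6736229129654487334404)), (.negSucc (nat_lit 6736229129654487334403)), (.ofNat (nat_lit 6736229129654487334404)), (.ofNat (nat_lit 0))⟩,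
    ⟨nat_lit 0, nat_lit 13, nat_lit 12, (.ofNat (nat_lit 8)), (.negSucc (nat_lit 1105704959)), (.ofNat (nat_lit 11151953426352310914108722042880)), (.negSucc (nat_lit 151624447)), (.ofNat (nat_lit 1042567367972951823935477935104)), (.negSucc (nat_lit 1105704975)), (.negSucc (nat_lit 1105704943)), (.ofNat (nat_lit 6736229129654487334404)), (.negSucc (nat_lit 6736229129654487334403)), (.negSucc (nat_lit 6736229129654487334403)), (.ofNat (nat_lit 6736229129654487334404)), (.ofNat (nat_lit 0))⟩,
    ⟨nat_lit 0, nat_lit 6, nat_lit 13, (.ofNat (nat_lit 8)), (.negSucc (nat_lit 1251162111)), (.ofNat (nat_lit 10172120721933330442426244585472)), (.negSucc (nat_lit 152673023)), (.ofNat (nat_lit 1035503919777095240224317926400)), (.negSucc (nat_lit 1251162127)), (.negSucc (nat_lit 1251162095)), (.negSucc (nat_lit 6736229129654487334403)), (.ofNat (nat_lit 6736229129654487334404)), (.negSucc (nat_lit 6736229129654487334403)), (.ofNat (nat_lit 6736229129654487334404)), (.ofNat (nat_lit 0))⟩,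
    ⟨nat_lit 0, nat_lit 21, nat_lit 14, (.ofNat (nat_lit 8)), (.negSucc (nat_lit 125584255)), (.ofNat (nat_lit 1276833801203109339558931270656)), (.negSucc (nat_lit 15672255)), (.ofNat (nat_lit 105571907394602317053537095424)), (.negSucc (nat_lit 125584271)), (.negSucc (nat_lit 125584239)), (.negSucc (nat_lit 6736229129654487334403)), (.ofNat (nat_lit 6736229129654487334404)), (.negSucc (nat_lit 6736229129654487334403)), (.ofNat (nat_lit 6736229129654487334404)), (.ofNat (nat_lit 0))⟩,
    ⟨nat_lit 1, nat_lit 14, nat_lit 15, (.ofNat (nat_lit 8)), (.ofNat (nat_lit 843020800)), (.ofNat (nat_lit 7801579394560925304750608417280)), (.negSucc (nat_lit 13312959)), (.ofNat (nat_lit 121464665835279630403647115008)), (.ofNat (nat_lit 843020784)), (.ofNat (nat_lit 843020816)), (.ofNat (nat_lit 6736229129654487334404)), (.negSucc (nat_lit 6736229129654487334403)), (.negSucc (nat_lit 6736229129654487334403)), (.ofNat (nat_lit 6736229129654487334404)), (.ofNat (nat_lit 0))⟩,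
    ⟨nat_lit 0, nat_lit 16, nat_lit 15, (.ofNat (nat_lit 8)), (.negSucc (nat_lit 234639807)), (.ofNat (nat_lit 15060948174051690955472722374912)), (.negSucc (nat_lit 133985023)), (.ofNat (nat_lit 934339338487610223908036004864)), (.negSucc (nat_lit 234639823)), (.negSucc (nat_lit 234639791)), (.ofNat (nat_lit 6736229129654487334404)), (.negSucc (nat_lit 6736229129654487334403)), (.negSucc (nat_lit 6736229129654487334403)), (.ofNat (nat_lit 6736229129654487334404)), (.ofNat (nat_lit 0))⟩,
    ⟨nat_lit 0, nat_lit 17, nat_lit 16, (.ofNat (nat_lit 8)), (.negSucc (nat_lit 1057837055)), (.ofNat (nat_lit 9515702892622681790940493854720)), (.negSucc (nat_lit 135557887)), (.ofNat (nat_lit 923744166193825348341295991808)), (.negSucc (nat_lit 1057837071)), (.negSucc (nat_lit 1057837039)), (.negSucc (nat_lit 6736229129654487334403)), (.ofNat (nat_lit 6736229129654487334404)), (.negSucc (nat_lit 6736229129654487334403)), (.ofNat (nat_lit 6736229129654487334404)), (.ofNat (nat_lit 0))⟩,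
    ⟨nat_lit 2, nat_lit 17, nat_lit 18, (.ofNat (nat_lit 8)), (.negSucc (nat_lit 1262135295)), (.ofNat (nat_lit 10891902648047825361461522503680)), (.negSucc (nat_lit 159189759)), (.ofNat (nat_lit 1082933870748491597253552516096)), (.negSucc (nat_lit 1262135311)), (.negSucc (nat_lit 1262135279)), (.negSucc (nat_lit 6736229129654487334403)), (.ofNat (nat_lit 6736229129654487334404)), (.negSucc (nat_lit 6736229129654487334403)), (.ofNat (nat_lit 6736229129654487334404)), (.ofNat (nat_lit 0))⟩,
    ⟨nat_lit 0, nat_lit 18, nat_lit 19, (.ofNat (nat_lit 8)), (.negSucc (nat_lit 622176575)), (.ofNat (nat_lit 15202811219488225118242918306560)), (.negSucc (nat_lit 157879039)), (.ofNat (nat_lit 1091763180993312326892502526976)), (.negSucc (nat_lit 622176591)), (.negSucc (nat_lit 622176559)), (.ofNat (nat_lit 6736229129654487334404)), (.negSucc (nat_lit 6736229129654487334403)), (.negSucc (nat_lit 6736229129654487334403)), (.ofNat (nat_lit 6736229129654487334404)), (.ofNat (nat_lit 0))⟩,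
    ⟨nat_lit 2, nat_lit 21, nat_lit 7, (.ofNat (nat_lit 8)), (.negSucc (nat_lit 1318250303)), (.ofNat (nat_lit 9310905575690606354148604386048)), (.negSucc (nat_lit 149588735)), (.ofNat (nat_lit 1007664000911394877081503673344)), (.negSucc (nat_lit 1318250319)), (.negSucc (nat_lit 1318250287)), (.negSucc (nat_lit 6736229129654487334403)), (.ofNat (nat_lit 6736229129654487334404)), (.negSucc (nat_lit 6736229129654487334403)), (.ofNat (nat_lit 6736229129654487334404)), (.ofNat (nat_lit 0))⟩]
  es := [
    ⟨nat_lit 1, nat_lit 0, (.negSucc (nat_lit 1418102591)), (.negSucc (nat_lit 733882623)), (.negSucc (nat_lit 1418102575)), (.negSucc (nat_lit 733882639)), (.negSucc (nat_lit 6736229129654487334403)), (.ofNat (nat_lit 0)), (.ofNat (nat_lit 3531724097928291855580004352))⟩,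
    ⟨nat_lit 1, nat_lit 2, (.negSucc (nat_lit 1418102591)), (.negSucc (nat_lit 1266731007)), (.negSucc (nat_lit 1418102575)), (.negSucc (nat_lit 1266731023)), (.ofNat (nat_lit 6736229129654487334404)), (.ofNat (nat_lit 0)), (.ofNat (nat_lit 2208358797050182955894551959552))⟩,
    ⟨nat_lit 2, nat_lit 3, (.negSucc (nat_lit 1266731007)), (.negSucc (nat_lit 1062432767)), (.negSucc (nat_lit 1266730991)), (.negSucc (nat_lit 1062432783)), (.negSucc (nat_lit 6736229129654487334403)), (.ofNat (nat_lit 0)), (.ofNat (nat_lit 14126896391713167422320017408))⟩,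
    ⟨nat_lit 3, nat_lit 4, (.negSucc (nat_lit 1062432767)), (.negSucc (nat_lit 210465215)), (.negSucc (nat_lit 1062432751)), (.negSucc (nat_lit 210465231)), (.ofNat (nat_lit 6736229129654487334404)), (.ofNat (nat_lit 0)), (.ofNat (nat_lit 1889979387940850458070038910976))⟩,
    ⟨nat_lit 5, nat_lit 4, (.negSucc (nat_lit 448129471)), (.negSucc (nat_lit 210465215)), (.negSucc (nat_lit 448129455)), (.negSucc (nat_lit 210465231)), (.negSucc (nat_lit 6736229129654487334403)), (.ofNat (nat_lit 0)), (.ofNat (nat_lit 38848965077211210411380047872))⟩,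
    ⟨nat_lit 6, nat_lit 5, (.negSucc (nat_lit 1376806911)), (.negSucc (nat_lit 448129471)), (.negSucc (nat_lit 1376806895)), (.negSucc (nat_lit 448129487)), (.ofNat (nat_lit 6736229129654487334404)), (.ofNat (nat_lit 0)), (.ofNat (nat_lit 2261445024897167592848738899968))⟩,
    ⟨nat_lit 6, nat_lit 14, (.negSucc (nat_lit 1376806911)), (.negSucc (nat_lit 1251162111)), (.negSucc (nat_lit 1376806895)), (.negSucc (nat_lit 1251162127)), (.negSucc (nat_lit 6736229129654487334403)), (.ofNat (nat_lit 0)), (.ofNat (nat_lit 7063448195856583711160008704))⟩,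
    ⟨nat_lit 21, nat_lit 7, (.negSucc (nat_lit 1318250303)), (.negSucc (nat_lit 1090660351)), (.negSucc (nat_lit 1318250287)), (.negSucc (nat_lit 1090660367)), (.ofNat (nat_lit 6736229129654487334404)), (.ofNat (nat_lit 0)), (.ofNat (nat_lit 2015328001822789754163007346688))⟩,
    ⟨nat_lit 7, nat_lit 8, (.negSucc (nat_lit 1090660351)), (.ofNat (nat_lit 240959232)), (.negSucc (nat_lit 1090660335)), (.ofNat (nat_lit 240959216)), (.negSucc (nat_lit 6736229129654487334403)), (.ofNat (nat_lit 0)), (.ofNat (nat_lit 17658620489641459277900021760))⟩,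
    ⟨nat_lit 8, nat_lit 9, (.ofNat (nat_lit 240959232)), (.ofNat (nat_lit 1010744640)), (.ofNat (nat_lit 240959248)), (.ofNat (nat_lit 1010744624)), (.ofNat (nat_lit 6736229129654487334404)), (.ofNat (nat_lit 0)), (.ofNat (nat_lit 0))⟩,
    ⟨nat_lit 10, nat_lit 9, (.ofNat (nat_lit 240686208)), (.ofNat (nat_lit 1010744640)), (.ofNat (nat_lit 240686224)), (.ofNat (nat_lit 1010744624)), (.negSucc (nat_lit 6736218941327845918259)), (.ofNat (nat_lit 0)), (.ofNat (nat_lit 35317214271195927681863516160))⟩,
    ⟨nat_lit 12, nat_lit 11, (.negSucc (nat_lit 188541759)), (.ofNat (nat_lit 353899392)), (.negSucc (nat_lit 188541743)), (.ofNat (nat_lit 353899376)), (.ofNat (nat_lit 6736229129654487334404)), (.ofNat (nat_lit 0)), (.ofNat (nat_lit 672170905304093449386494548992))⟩,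
    ⟨nat_lit 13, nat_lit 12, (.negSucc (nat_lit 1105704959)), (.negSucc (nat_lit 188541759)), (.negSucc (nat_lit 1105704943)), (.negSucc (nat_lit 188541775)), (.negSucc (nat_lit 6736229129654487334403)), (.ofNat (nat_lit 0)), (.ofNat (nat_lit 21190344587569751133480026112))⟩,
    ⟨nat_lit 14, nat_lit 13, (.negSucc (nat_lit 1251162111)), (.negSucc (nat_lit 1105704959)), (.negSucc (nat_lit 1251162095)), (.negSucc (nat_lit 1105704975)), (.ofNat (nat_lit 6736229129654487334404)), (.ofNat (nat_lit 0)), (.ofNat (nat_lit 2063944391358333896737475844096))⟩,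
    ⟨nat_lit 15, nat_lit 16, (.negSucc (nat_lit 125584255)), (.ofNat (nat_lit 843020800)), (.negSucc (nat_lit 125584239)), (.ofNat (nat_lit 843020784)), (.ofNat (nat_lit 6736229129654487334404)), (.ofNat (nat_lit 0)), (.ofNat (nat_lit 211143814789204634107074190848))⟩,
    ⟨nat_lit 17, nat_lit 16, (.negSucc (nat_lit 234639807)), (.ofNat (nat_lit 843020800)), (.negSucc (nat_lit 234639791)), (.ofNat (nat_lit 843020784)), (.negSucc (nat_lit 6736229129654487334403)), (.ofNat (nat_lit 0)), (.ofNat (nat_lit 31785516881354626700220039168))⟩,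
    ⟨nat_lit 18, nat_lit 17, (.negSucc (nat_lit 1057837055)), (.negSucc (nat_lit 234639807)), (.negSucc (nat_lit 1057837039)), (.negSucc (nat_lit 234639823)), (.ofNat (nat_lit 6736229129654487334404)), (.ofNat (nat_lit 0)), (.ofNat (nat_lit 1836893160093865821115851970560))⟩,
    ⟨nat_lit 19, nat_lit 18, (.negSucc (nat_lit 1262135295)), (.negSucc (nat_lit 1057837055)), (.negSucc (nat_lit 1262135279)), (.negSucc (nat_lit 1057837071)), (.negSucc (nat_lit 6736229129654487334403)), (.ofNat (nat_lit 0)), (.ofNat (nat_lit 10595172293784875566740013056))⟩,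
    ⟨nat_lit 19, nat_lit 20, (.negSucc (nat_lit 1262135295)), (.negSucc (nat_lit 622176575)), (.negSucc (nat_lit 1262135279)), (.negSucc (nat_lit 622176591)), (.ofNat (nat_lit 6736229129654487334404)), (.ofNat (nat_lit 0)), (.ofNat (nat_lit 2155272569203198318940365019136))⟩,
    ⟨nat_lit 20, nat_lit 11, (.negSucc (nat_lit 622176575)), (.ofNat (nat_lit 353899392)), (.negSucc (nat_lit 622176559)), (.ofNat (nat_lit 353899376)), (.negSucc (nat_lit 6736229129654487334403)), (.ofNat (nat_lit 0)), (.ofNat (nat_lit 28253792783426334844640034816))⟩,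
    ⟨nat_lit 0, nat_lit 10, (.negSucc (nat_lit 733882623)), (.ofNat (nat_lit 240686208)), (.negSucc (nat_lit 733882607)), (.ofNat (nat_lit 240686192)), (.ofNat (nat_lit 6736221079318194420060)), (.ofNat (nat_lit 0)), (.ofNat (nat_lit 1165286326044433836403255080960))⟩,
    ⟨nat_lit 21, nat_lit 15, (.negSucc (nat_lit 1318250303)), (.negSucc (nat_lit 125584255)), (.negSucc (nat_lit 1318250287)), (.negSucc (nat_lit 125584271)), (.negSucc (nat_lit 6736229129654487334403)), (.ofNat (nat_lit 0)), (.ofNat (nat_lit 0))⟩]

theorem ok80 : stOK 21 21 S80 = true := by decide +kernel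

def S81 : SD where
  vs := [
    ⟨nat_lit 0, nat_lit 0, nat_lit 20, (.ofNat (nat_lit 8)), (.negSucc (nat_lit 733882623)), (.ofNat (nat_lit 5770508030387095714457540746752)), (.ofNat (nat_lit 0)), (.ofNat (nat_lit 88777046621339934068525644800)), (.negSucc (nat_lit 733882639)), (.negSucc (nat_lit 733882607)), (.negSucc (nat_lit 6841482709805338699003)), (.ofNat (nat_lit 6841482709805338699004)), (.negSucc (nat_lit 6841482709805338699003)), (.ofNat (nat_lit 6841482709805338699004)), (.ofNat (nat_lit 631537581577694016288))⟩,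
    ⟨nat_lit 2, nat_lit 0, nat_lit 1, (.ofNat (nat_lit 8)), (.negSucc (nat_lit 1418102591)), (.ofNat (nat_lit 10451587111162657845319219258624)), (.ofNat (nat_lit 0)), (.ofNat (nat_lit 160793647864040889927893977600)), (.negSucc (nat_lit 1418102607)), (.negSucc (nat_lit 1418102575)), (.negSucc (nat_lit 6841482709805338699003)), (.ofNat (nat_lit 6841482709805338699004)), (.negSucc (nat_lit 6841482709805338699003)), (.ofNat (nat_lit 6841482709805338699004)), (.ofNat (nat_lit 631521480905108187600))⟩,
    ⟨nat_lit 0, nat_lit 1, nat_lit 2, (.ofNat (nat_lit 8)), (.negSucc (nat_lit 1266731007)), (.ofNat (nat_lit 11487193185854504295843953960960)), (.ofNat (nat_lit 0)), (.ofNat (nat_lit 176726049013146219935957504000)), (.negSucc (nat_lit 1266731023)), (.negSucc (nat_lit 1266730991)), (.ofNat (nat_lit 6841482709805338699004)), (.negSucc (nat_lit 6841482709805338699003)), (.negSucc (nat_lit 6841482709805338699003)), (.ofNat (nat_lit 6841482709805338699004)), (.ofNat (nat_lit 631521480905108187600))⟩,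
    ⟨nat_lit 0, nat_lit 2, nat_lit 3, (.ofNat (nat_lit 8)), (.negSucc (nat_lit 1062432767)), (.ofNat (nat_lit 10089490309250842857033547008000)), (.ofNat (nat_lit 0)), (.ofNat (nat_lit 155222927834628351646579200000)), (.negSucc (nat_lit 1062432783)), (.negSucc (nat_lit 1062432751)), (.negSucc (nat_lit 6841482709805338699003)), (.ofNat (nat_lit 6841482709805338699004)), (.negSucc (nat_lit 6841482709805338699003)), (.ofNat (nat_lit 6841482709805338699004)), (.ofNat (nat_lit 631521480905108187600))⟩,
    ⟨nat_lit 1, nat_lit 3, nat_lit 4, (.ofNat (nat_lit 8)), (.negSucc (nat_lit 210465215)), (.ofNat (nat_lit 15918211585574023664954849726208)), (.ofNat (nat_lit 0)), (.ofNat (nat_lit 244895562854984979460700659200)), (.negSucc (nat_lit 210465231)), (.negSucc (nat_lit 210465199)), (.ofNat (nat_lit 6841482709805338699004)), (.negSucc (nat_lit 6841482709805338699003)), (.negSucc (nat_lit 6841482709805338699003)), (.ofNat (nat_lit 6841482709805338699004)), (.ofNat (nat_lit 631521480905108187600))⟩,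
    ⟨nat_lit 0, nat_lit 5, nat_lit 4, (.ofNat (nat_lit 8)), (.negSucc (nat_lit 448129471)), (.ofNat (nat_lit 17544187483736773391681643327232)), (.ofNat (nat_lit 0)), (.ofNat (nat_lit 269910576672873436794944396800)), (.negSucc (nat_lit 448129487)), (.negSucc (nat_lit 448129455)), (.ofNat (nat_lit 6841482709805338699004)), (.negSucc (nat_lit 6841482709805338699003)), (.negSucc (nat_lit 6841482709805338699003)), (.ofNat (nat_lit 6841482709805338699004)), (.ofNat (nat_lit 631521480905108187600))⟩,
    ⟨nat_lit 2, nat_lit 6, nat_lit 5, (.ofNat (nat_lit 8)), (.negSucc (nat_lit 1376806911)), (.ofNat (nat_lit 11190656834990488550357678057472)), (.ofNat (nat_lit 0)), (.ofNat (nat_lit 172163951307545977697709772800)), (.negSucc (nat_lit 1376806927)), (.negSucc (nat_lit 1376806895)), (.negSucc (nat_lit 6841482709805338699003)), (.ofNat (nat_lit 6841482709805338699004)), (.negSucc (nat_lit 6841482709805338699003)), (.ofNat (nat_lit 6841482709805338699004)), (.ofNat (nat_lit 631521480905108187600))⟩,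
    ⟨nat_lit 0, nat_lit 7, nat_lit 8, (.ofNat (nat_lit 8)), (.negSucc (nat_lit 1090660351)), (.ofNat (nat_lit 11013441196844199042282152749056)), (.ofNat (nat_lit 0)), (.ofNat (nat_lit 169437556874526139111934054400)), (.negSucc (nat_lit 1090660367)), (.negSucc (nat_lit 1090660335)), (.ofNat (nat_lit 6841482709805338699004)), (.negSucc (nat_lit 6841482709805338699003)), (.negSucc (nat_lit 6841482709805338699003)), (.ofNat (nat_lit 6841482709805338699004)), (.ofNat (nat_lit 631521480905108187600))⟩,
    ⟨nat_lit 0, nat_lit 8, nat_lit 9, (.ofNat (nat_lit 8)), (.ofNat (nat_lit 240959232)), (.ofNat (nat_lit 1903188836870021202935345054720)), (.ofNat (nat_lit 0)), (.ofNat (nat_lit 29279828259538787737449728000)), (.ofNat (nat_lit 240959216)), (.ofNat (nat_lit 240959248)), (.negSucc (nat_lit 6841482709805338699003)), (.ofNat (nat_lit 6841482709805338699004)), (.negSucc (nat_lit 6841482709805338699003)), (.ofNat (nat_lit 6841482709805338699004)), (.ofNat (nat_lit 631521480905108187600))⟩,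
    ⟨nat_lit 1, nat_lit 9, nat_lit 10, (.ofNat (nat_lit 8)), (.ofNat (nat_lit 1010744640)), (.ofNat (nat_lit 7169662395962469453926328388352)), (.ofNat (nat_lit 0)), (.ofNat (nat_lit 110302498399422606983417484800)), (.ofNat (nat_lit 1010744624)), (.ofNat (nat_lit 1010744656)), (.ofNat (nat_lit 6841482709805338699004)), (.negSucc (nat_lit 6841482709805338699003)), (.negSucc (nat_lit 6841482709805338699003)), (.ofNat (nat_lit 6841482709805338699004)), (.ofNat (nat_lit 631541857558391019888))⟩,
    ⟨nat_lit 0, nat_lit 20, nat_lit 10, (.ofNat (nat_lit 8)), (.ofNat (nat_lit 240686208)), (.ofNat (nat_lit 12438003844030279597710268590080)), (.ofNat (nat_lit 0)), (.ofNat (nat_lit 191361750899611725014461918208)), (.ofNat (nat_lit 240686192)), (.ofNat (nat_lit 240686224)), (.ofNat (nat_lit 6841482709805338699004)), (.negSucc (nat_lit 6841482709805338699003)), (.negSucc (nat_lit 6841482709805338699003)), (.ofNat (nat_lit 6841482709805338699004)), (.ofNat (nat_lit 631574058903562677264))⟩,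
    ⟨nat_lit 1, nat_lit 11, nat_lit 19, (.ofNat (nat_lit 8)), (.ofNat (nat_lit 353899392)), (.ofNat (nat_lit 8762548286264219573517132914688)), (.ofNat (nat_lit 0)), (.ofNat (nat_lit 134808435173295685746338611200)), (.ofNat (nat_lit 353899376)), (.ofNat (nat_lit 353899408)), (.ofNat (nat_lit 6841482709805338699004)), (.negSucc (nat_lit 6841482709805338699003)), (.negSucc (nat_lit 6841482709805338699003)), (.ofNat (nat_lit 6841482709805338699004)), (.ofNat (nat_lit 631521480905108187600))⟩,
    ⟨nat_lit 0, nat_lit 12, nat_lit 11, (.ofNat (nat_lit 8)), (.negSucc (nat_lit 188541759)), (.ofNat (nat_lit 5051446523769329953879221902080)), (.ofNat (nat_lit 0)), (.ofNat (nat_lit 77714561904143537751942592000)), (.negSucc (nat_lit 188541775)), (.negSucc (nat_lit 188541743)), (.negSucc (nat_lit 6841482709805338699003)), (.ofNat (nat_lit 6841482709805338699004)), (.negSucc (nat_lit 6841482709805338699003)), (.ofNat (nat_lit 6841482709805338699004)), (.ofNat (nat_lit 631521480905108187600))⟩,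
    ⟨nat_lit 0, nat_lit 13, nat_lit 12, (.ofNat (nat_lit 8)), (.negSucc (nat_lit 1105704959)), (.ofNat (nat_lit 11326202698639065772141567354880)), (.ofNat (nat_lit 0)), (.ofNat (nat_lit 174249272286754858032845312000)), (.negSucc (nat_lit 1105704975)), (.negSucc (nat_lit 1105704943)), (.ofNat (nat_lit 6841482709805338699004)), (.negSucc (nat_lit 6841482709805338699003)), (.negSucc (nat_lit 6841482709805338699003)), (.ofNat (nat_lit 6841482709805338699004)), (.ofNat (nat_lit 631521480905108187600))⟩,
    ⟨nat_lit 0, nat_lit 6, nat_lit 13, (.ofNat (nat_lit 8)), (.negSucc (nat_lit 1251162111)), (.ofNat (nat_lit 10331060108213538730589060278272)), (.ofNat (nat_lit 0)), (.ofNat (nat_lit 158939386280208288162815692800)), (.negSucc (nat_lit 1251162127)), (.negSucc (nat_lit 1251162095)), (.negSucc (nat_lit 6841482709805338699003)), (.ofNat (nat_lit 6841482709805338699004)), (.negSucc (nat_lit 6841482709805338699003)), (.ofNat (nat_lit 6841482709805338699004)), (.ofNat (nat_lit 631521480905108187600))⟩,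
    ⟨nat_lit 0, nat_lit 21, nat_lit 14, (.ofNat (nat_lit 8)), (.negSucc (nat_lit 125584255)), (.ofNat (nat_lit 1296784329346907922989527725056)), (.ofNat (nat_lit 0)), (.ofNat (nat_lit 19950528143798583430596454400)), (.negSucc (nat_lit 125584271)), (.negSucc (nat_lit 125584239)), (.negSucc (nat_lit 6841482709805338699003)), (.ofNat (nat_lit 6841482709805338699004)), (.negSucc (nat_lit 6841482709805338699003)), (.ofNat (nat_lit 6841482709805338699004)), (.ofNat (nat_lit 631521480905108187600))⟩,
    ⟨nat_lit 1, nat_lit 14, nat_lit 15, (.ofNat (nat_lit 8)), (.ofNat (nat_lit 843020800)), (.ofNat (nat_lit 7923479072600939762637264289280)), (.ofNat (nat_lit 0)), (.ofNat (nat_lit 121899678040014457886655872000)), (.ofNat (nat_lit 843020784)), (.ofNat (nat_lit 843020816)), (.ofNat (nat_lit 6841482709805338699004)), (.negSucc (nat_lit 6841482709805338699003)), (.negSucc (nat_lit 6841482709805338699003)), (.ofNat (nat_lit 6841482709805338699004)), (.ofNat (nat_lit 631521480905108187600))⟩,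
    ⟨nat_lit 0, nat_lit 16, nat_lit 15, (.ofNat (nat_lit 8)), (.negSucc (nat_lit 234639807)), (.ofNat (nat_lit 15296275489271248626651843923712)), (.ofNat (nat_lit 0)), (.ofNat (nat_lit 235327315219557671179121548800)), (.negSucc (nat_lit 234639823)), (.negSucc (nat_lit 234639791)), (.ofNat (nat_lit 6841482709805338699004)), (.negSucc (nat_lit 6841482709805338699003)), (.negSucc (nat_lit 6841482709805338699003)), (.ofNat (nat_lit 6841482709805338699004)), (.ofNat (nat_lit 631521480905108187600))⟩,
    ⟨nat_lit 0, nat_lit 17, nat_lit 16, (.ofNat (nat_lit 8)), (.negSucc (nat_lit 1057837055)), (.ofNat (nat_lit 9664385750319911193923850782720)), (.ofNat (nat_lit 0)), (.ofNat (nat_lit 148682857697229402983356928000)), (.negSucc (nat_lit 1057837071)), (.negSucc (nat_lit 1057837039)), (.negSucc (nat_lit 6841482709805338699003)), (.ofNat (nat_lit 6841482709805338699004)), (.negSucc (nat_lit 6841482709805338699003)), (.ofNat (nat_lit 6841482709805338699004)), (.ofNat (nat_lit 631521480905108187600))⟩,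
    ⟨nat_lit 2, nat_lit 17, nat_lit 18, (.ofNat (nat_lit 8)), (.negSucc (nat_lit 1262135295)), (.ofNat (nat_lit 11062088626923572632734257735680)), (.ofNat (nat_lit 0)), (.ofNat (nat_lit 170185978875747271272735232000)), (.negSucc (nat_lit 1262135311)), (.negSucc (nat_lit 1262135279)), (.negSucc (nat_lit 6841482709805338699003)), (.ofNat (nat_lit 6841482709805338699004)), (.negSucc (nat_lit 6841482709805338699003)), (.ofNat (nat_lit 6841482709805338699004)), (.ofNat (nat_lit 631521480905108187600))⟩,
    ⟨nat_lit 0, nat_lit 18, nat_lit 19, (.ofNat (nat_lit 8)), (.negSucc (nat_lit 622176575)), (.ofNat (nat_lit 15440355144792728635715322850560)), (.ofNat (nat_lit 0)), (.ofNat (nat_lit 237543925304503517472404544000)), (.negSucc (nat_lit 622176591)), (.negSucc (nat_lit 622176559)), (.ofNat (nat_lit 6841482709805338699004)), (.negSucc (nat_lit 6841482709805338699003)), (.negSucc (nat_lit 6841482709805338699003)), (.ofNat (nat_lit 6841482709805338699004)), (.ofNat (nat_lit 631521480905108187600))⟩,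
    ⟨nat_lit 2, nat_lit 21, nat_lit 7, (.ofNat (nat_lit 8)), (.negSucc (nat_lit 1318250303)), (.ofNat (nat_lit 9456388475310772078432089941248)), (.ofNat (nat_lit 0)), (.ofNat (nat_lit 145482899620165724283485555200)), (.negSucc (nat_lit 1318250319)), (.negSucc (nat_lit 1318250287)), (.negSucc (nat_lit 6841482709805338699003)), (.ofNat (nat_lit 6841482709805338699004)), (.negSucc (nat_lit 6841482709805338699003)), (.ofNat (nat_lit 6841482709805338699004)), (.ofNat (nat_lit 631521480905108187600))⟩]
  es := [
    ⟨nat_lit 1, nat_lit 0, (.negSucc (nat_lit 1418102591)), (.negSucc (nat_lit 733882623)), (.negSucc (nat_lit 1418102575)), (.negSucc (nat_lit 733882639)), (.negSucc (nat_lit 6841482709805338699003)), (.negSucc (nat_lit 105253580150851364599)), (.ofNat (nat_lit 11533273034838818781896934400))⟩,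
    ⟨nat_lit 1, nat_lit 2, (.negSucc (nat_lit 1418102591)), (.negSucc (nat_lit 1266731007)), (.negSucc (nat_lit 1418102575)), (.negSucc (nat_lit 1266731023)), (.ofNat (nat_lit 6841482709805338699004)), (.ofNat (nat_lit 105253580150851364600)), (.ofNat (nat_lit 310054022693242961073891020800))⟩,
    ⟨nat_lit 2, nat_lit 3, (.negSucc (nat_lit 1266731007)), (.negSucc (nat_lit 1062432767)), (.negSucc (nat_lit 1266730991)), (.negSucc (nat_lit 1062432783)), (.negSucc (nat_lit 6841482709805338699003)), (.negSucc (nat_lit 105253580150851364599)), (.ofNat (nat_lit 43398075333049478798023987200))⟩,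
    ⟨nat_lit 3, nat_lit 4, (.negSucc (nat_lit 1062432767)), (.negSucc (nat_lit 210465215)), (.negSucc (nat_lit 1062432751)), (.negSucc (nat_lit 210465231)), (.ofNat (nat_lit 6841482709805338699004)), (.ofNat (nat_lit 105253580150851364600)), (.ofNat (nat_lit 267047780336207224495134412800))⟩,
    ⟨nat_lit 5, nat_lit 4, (.negSucc (nat_lit 448129471)), (.negSucc (nat_lit 210465215)), (.negSucc (nat_lit 448129455)), (.negSucc (nat_lit 210465231)), (.negSucc (nat_lit 6841482709805338699003)), (.negSucc (nat_lit 105253580150851364599)), (.ofNat (nat_lit 222743345373762734426266905600))⟩,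
    ⟨nat_lit 6, nat_lit 5, (.negSucc (nat_lit 1376806911)), (.negSucc (nat_lit 448129471)), (.negSucc (nat_lit 1376806895)), (.negSucc (nat_lit 448129487)), (.ofNat (nat_lit 6841482709805338699004)), (.ofNat (nat_lit 105253580150851364600)), (.ofNat (nat_lit 317077807971984139163621888000))⟩,
    ⟨nat_lit 6, nat_lit 14, (.negSucc (nat_lit 1376806911)), (.negSucc (nat_lit 1251162111)), (.negSucc (nat_lit 1376806895)), (.negSucc (nat_lit 1251162127)), (.negSucc (nat_lit 6841482709805338699003)), (.negSucc (nat_lit 105253580150851364599)), (.ofNat (nat_lit 27250094643107816231797657600))⟩,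
    ⟨nat_lit 21, nat_lit 7, (.negSucc (nat_lit 1318250303)), (.negSucc (nat_lit 1090660351)), (.negSucc (nat_lit 1318250287)), (.negSucc (nat_lit 1090660367)), (.ofNat (nat_lit 6841482709805338699004)), (.ofNat (nat_lit 105253580150851364600)), (.ofNat (nat_lit 284233463651113901526250393600))⟩,
    ⟨nat_lit 7, nat_lit 8, (.negSucc (nat_lit 1090660351)), (.ofNat (nat_lit 240959232)), (.negSucc (nat_lit 1090660335)), (.ofNat (nat_lit 240959216)), (.negSucc (nat_lit 6841482709805338699003)), (.negSucc (nat_lit 105253580150851364599)), (.ofNat (nat_lit 54641650097938376697617715200))⟩,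
    ⟨nat_lit 8, nat_lit 9, (.ofNat (nat_lit 240959232)), (.ofNat (nat_lit 1010744640)), (.ofNat (nat_lit 240959248)), (.ofNat (nat_lit 1010744624)), (.ofNat (nat_lit 6841482709805338699004)), (.ofNat (nat_lit 105253580150851364600)), (.ofNat (nat_lit 3918006421139198777281740800))⟩,
    ⟨nat_lit 10, nat_lit 9, (.ofNat (nat_lit 240686208)), (.ofNat (nat_lit 1010744640)), (.ofNat (nat_lit 240686224)), (.ofNat (nat_lit 1010744624)), (.negSucc (nat_lit 6841482709805338699003)), (.negSucc (nat_lit 105263768477492780743)), (.ofNat (nat_lit 216697288174249395759110696960))⟩,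
    ⟨nat_lit 12, nat_lit 11, (.negSucc (nat_lit 188541759)), (.ofNat (nat_lit 353899392)), (.negSucc (nat_lit 188541743)), (.ofNat (nat_lit 353899376)), (.ofNat (nat_lit 6841482709805338699004)), (.ofNat (nat_lit 105253580150851364600)), (.ofNat (nat_lit 97559257152086119532028288000))⟩,
    ⟨nat_lit 13, nat_lit 12, (.negSucc (nat_lit 1105704959)), (.negSucc (nat_lit 188541759)), (.negSucc (nat_lit 1105704943)), (.negSucc (nat_lit 188541775)), (.negSucc (nat_lit 6841482709805338699003)), (.negSucc (nat_lit 105253580150851364599)), (.ofNat (nat_lit 57869866656200955971856896000))⟩,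
    ⟨nat_lit 14, nat_lit 13, (.negSucc (nat_lit 1251162111)), (.negSucc (nat_lit 1105704959)), (.negSucc (nat_lit 1251162095)), (.negSucc (nat_lit 1105704975)), (.ofNat (nat_lit 6841482709805338699004)), (.ofNat (nat_lit 105253580150851364600)), (.ofNat (nat_lit 290628677917308760093833728000))⟩,
    ⟨nat_lit 15, nat_lit 16, (.negSucc (nat_lit 125584255)), (.ofNat (nat_lit 843020800)), (.negSucc (nat_lit 125584239)), (.ofNat (nat_lit 843020784)), (.ofNat (nat_lit 6841482709805338699004)), (.ofNat (nat_lit 105253580150851364600)), (.ofNat (nat_lit 33168720698379619820472192000))⟩,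
    ⟨nat_lit 17, nat_lit 16, (.negSucc (nat_lit 234639807)), (.ofNat (nat_lit 843020800)), (.negSucc (nat_lit 234639791)), (.ofNat (nat_lit 843020784)), (.negSucc (nat_lit 6841482709805338699003)), (.negSucc (nat_lit 105253580150851364599)), (.ofNat (nat_lit 210630635381649295952839552000))⟩,
    ⟨nat_lit 18, nat_lit 17, (.negSucc (nat_lit 1057837055)), (.negSucc (nat_lit 234639807)), (.negSucc (nat_lit 1057837039)), (.negSucc (nat_lit 234639823)), (.ofNat (nat_lit 6841482709805338699004)), (.ofNat (nat_lit 105253580150851364600)), (.ofNat (nat_lit 260023995057466046405403545600))⟩,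
    ⟨nat_lit 19, nat_lit 18, (.negSucc (nat_lit 1262135295)), (.negSucc (nat_lit 1057837055)), (.negSucc (nat_lit 1262135279)), (.negSucc (nat_lit 1057837071)), (.negSucc (nat_lit 6841482709805338699003)), (.negSucc (nat_lit 105253580150851364599)), (.ofNat (nat_lit 37341720336992759561310310400))⟩,
    ⟨nat_lit 19, nat_lit 20, (.negSucc (nat_lit 1262135295)), (.negSucc (nat_lit 622176575)), (.negSucc (nat_lit 1262135279)), (.negSucc (nat_lit 622176591)), (.ofNat (nat_lit 6841482709805338699004)), (.ofNat (nat_lit 105253580150851364600)), (.ofNat (nat_lit 303030237414501782984160153600))⟩,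
    ⟨nat_lit 20, nat_lit 11, (.negSucc (nat_lit 622176575)), (.ofNat (nat_lit 353899392)), (.negSucc (nat_lit 622176559)), (.ofNat (nat_lit 353899376)), (.negSucc (nat_lit 6841482709805338699003)), (.negSucc (nat_lit 105253580150851364599)), (.ofNat (nat_lit 172057613194505251960648934400))⟩,
    ⟨nat_lit 0, nat_lit 10, (.negSucc (nat_lit 733882623)), (.ofNat (nat_lit 240686208)), (.negSucc (nat_lit 733882607)), (.ofNat (nat_lit 240686192)), (.ofNat (nat_lit 6841482709805338699004)), (.ofNat (nat_lit 105261630487144278944)), (.ofNat (nat_lit 166026728209763775766536313856))⟩,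
    ⟨nat_lit 21, nat_lit 15, (.negSucc (nat_lit 1318250303)), (.negSucc (nat_lit 125584255)), (.negSucc (nat_lit 1318250287)), (.negSucc (nat_lit 125584271)), (.negSucc (nat_lit 6841482709805338699003)), (.negSucc (nat_lit 105253580150851364599)), (.ofNat (nat_lit 6732335589217547040720716800))⟩]

theorem ok81 : stOK 21 21 S81 = true := by decide +kernel

def S82 : SD where
  vs := [
    ⟨nat_lit 0, nat_lit 0, nat_lit 20, (.ofNat (nat_lit 8)), (.negSucc (nat_lit 734406911)), (.ofNat (nat_lit 5777681844961012557289187565056)), (.negSucc (nat_lit 524287)), (.ofNat (nat_lit 7173814573916842831646818304)), (.negSucc (nat_lit 734406927)), (.negSucc (nat_lit 734406895)), (.negSucc (nat_lit 6841482709805338699003)), (.ofNat (nat_lit 6841482709805338699004)), (.negSucc (nat_lit 6841482709805338699003)), (.ofNat (nat_lit 6841482709805338699004)), (.ofNat (nat_lit 0))⟩,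
    ⟨nat_lit 2, nat_lit 0, nat_lit 1, (.ofNat (nat_lit 8)), (.negSucc (nat_lit 1420199743)), (.ofNat (nat_lit 10469521647597449952398336304384)), (.negSucc (nat_lit 2097151)), (.ofNat (nat_lit 17934536434792107079117045760)), (.negSucc (nat_lit 1420199759)), (.negSucc (nat_lit 1420199727)), (.negSucc (nat_lit 6841482709805338699003)), (.ofNat (nat_lit 6841482709805338699004)), (.negSucc (nat_lit 6841482709805338699003)), (.ofNat (nat_lit 6841482709805338699004)), (.ofNat (nat_lit 0))⟩,
    ⟨nat_lit 0, nat_lit 1, nat_lit 2, (.ofNat (nat_lit 8)), (.negSucc (nat_lit 1268041727)), (.ofNat (nat_lit 11510508083219734035046806120448)), (.negSucc (nat_lit 1310719)), (.ofNat (nat_lit 23314897365229739202852159488)), (.negSucc (nat_lit 1268041743)), (.negSucc (nat_lit 1268041711)), (.ofNat (nat_lit 6841482709805338699004)), (.negSucc (nat_lit 6841482709805338699003)), (.negSucc (nat_lit 6841482709805338699003)), (.ofNat (nat_lit 6841482709805338699004)), (.ofNat (nat_lit 0))⟩,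
    ⟨nat_lit 0, nat_lit 2, nat_lit 3, (.ofNat (nat_lit 8)), (.negSucc (nat_lit 1062694911)), (.ofNat (nat_lit 10105631392042155753404752349184)), (.negSucc (nat_lit 262143)), (.ofNat (nat_lit 16141082791312896371205341184)), (.negSucc (nat_lit 1062694927)), (.negSucc (nat_lit 1062694895)), (.negSucc (nat_lit 6841482709805338699003)), (.ofNat (nat_lit 6841482709805338699004)), (.negSucc (nat_lit 6841482709805338699003)), (.ofNat (nat_lit 6841482709805338699004)), (.ofNat (nat_lit 0))⟩,
    ⟨nat_lit 1, nat_lit 3, nat_lit 4, (.ofNat (nat_lit 8)), (.negSucc (nat_lit 92009151)), (.ofNat (nat_lit 16746561235736410400504861332224)), (.ofNat (nat_lit 118456064)), (.ofNat (nat_lit 828349650162386735550011606016)), (.negSucc (nat_lit 92009167)), (.negSucc (nat_lit 92009135)), (.ofNat (nat_lit 6841482709805338699004)), (.negSucc (nat_lit 6841482709805338699003)), (.negSucc (nat_lit 6841482709805338699003)), (.ofNat (nat_lit 6841482709805338699004)), (.ofNat (nat_lit 0))⟩,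
    ⟨nat_lit 0, nat_lit 5, nat_lit 4, (.ofNat (nat_lit 8)), (.negSucc (nat_lit 330984127)), (.ofNat (nat_lit 18381504402116556180771213456128)), (.ofNat (nat_lit 117145344)), (.ofNat (nat_lit 837316918379782789089570128896)), (.negSucc (nat_lit 330984143)), (.negSucc (nat_lit 330984111)), (.ofNat (nat_lit 6841482709805338699004)), (.negSucc (nat_lit 6841482709805338699003)), (.negSucc (nat_lit 6841482709805338699003)), (.ofNat (nat_lit 6841482709805338699004)), (.ofNat (nat_lit 0))⟩,
    ⟨nat_lit 2, nat_lit 6, nat_lit 5, (.ofNat (nat_lit 8)), (.negSucc (nat_lit 1378904063)), (.ofNat (nat_lit 11212178278712239078852618512384)), (.negSucc (nat_lit 2097151)), (.ofNat (nat_lit 21521443721750528494940454912)), (.negSucc (nat_lit 1378904079)), (.negSucc (nat_lit 1378904047)), (.negSucc (nat_lit 6841482709805338699003)), (.ofNat (nat_lit 6841482709805338699004)), (.negSucc (nat_lit 6841482709805338699003)), (.ofNat (nat_lit 6841482709805338699004)), (.ofNat (nat_lit 0))⟩,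
    ⟨nat_lit 0, nat_lit 7, nat_lit 8, (.ofNat (nat_lit 8)), (.negSucc (nat_lit 1090922495)), (.ofNat (nat_lit 11033169186922470360069181499392)), (.negSucc (nat_lit 262143)), (.ofNat (nat_lit 19727990078271317787028750336)), (.negSucc (nat_lit 1090922511)), (.negSucc (nat_lit 1090922479)), (.ofNat (nat_lit 6841482709805338699004)), (.negSucc (nat_lit 6841482709805338699003)), (.negSucc (nat_lit 6841482709805338699003)), (.ofNat (nat_lit 6841482709805338699004)), (.ofNat (nat_lit 0))⟩,
    ⟨nat_lit 0, nat_lit 8, nat_lit 9, (.ofNat (nat_lit 8)), (.ofNat (nat_lit 242269952)), (.ofNat (nat_lit 1912156105087417256474903577600)), (.ofNat (nat_lit 1310720)), (.ofNat (nat_lit 8967268217396053539558522880)), (.ofNat (nat_lit 242269936)), (.ofNat (nat_lit 242269968)), (.negSucc (nat_lit 6841482709805338699003)), (.ofNat (nat_lit 6841482709805338699004)), (.negSucc (nat_lit 6841482709805338699003)), (.ofNat (nat_lit 6841482709805338699004)), (.ofNat (nat_lit 0))⟩,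
    ⟨nat_lit 1, nat_lit 9, nat_lit 10, (.ofNat (nat_lit 8)), (.ofNat (nat_lit 1130249280)), (.ofNat (nat_lit 7987251324263980925228869766912)), (.ofNat (nat_lit 119504640)), (.ofNat (nat_lit 817588928301511471302541378560)), (.ofNat (nat_lit 1130249264)), (.ofNat (nat_lit 1130249296)), (.ofNat (nat_lit 6841482709805338699004)), (.negSucc (nat_lit 6841482709805338699003)), (.negSucc (nat_lit 6841482709805338699003)), (.ofNat (nat_lit 6841482709805338699004)), (.ofNat (nat_lit 0))⟩,
    ⟨nat_lit 0, nat_lit 20, nat_lit 10, (.ofNat (nat_lit 8)), (.ofNat (nat_lit 359404416)), (.ofNat (nat_lit 13260973133262228701136545082368)), (.ofNat (nat_lit 118718208)), (.ofNat (nat_lit 822969289231949103426276492288)), (.ofNat (nat_lit 359404400)), (.ofNat (nat_lit 359404432)), (.ofNat (nat_lit 6841482709805338699004)), (.negSucc (nat_lit 6841482709805338699003)), (.negSucc (nat_lit 6841482709805338699003)), (.ofNat (nat_lit 6841482709805338699004)), (.ofNat (nat_lit 0))⟩,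
    ⟨nat_lit 1, nat_lit 11, nat_lit 19, (.ofNat (nat_lit 8)), (.ofNat (nat_lit 355210112)), (.ofNat (nat_lit 8778689369055532469888338255872)), (.ofNat (nat_lit 1310720)), (.ofNat (nat_lit 16141082791312896371205341184)), (.ofNat (nat_lit 355210096)), (.ofNat (nat_lit 355210128)), (.ofNat (nat_lit 6841482709805338699004)), (.negSucc (nat_lit 6841482709805338699003)), (.negSucc (nat_lit 6841482709805338699003)), (.ofNat (nat_lit 6841482709805338699004)), (.ofNat (nat_lit 0))⟩,
    ⟨nat_lit 0, nat_lit 12, nat_lit 11, (.ofNat (nat_lit 8)), (.negSucc (nat_lit 187493183)), (.ofNat (nat_lit 5065794152917163639542515538688)), (.ofNat (nat_lit 1048576)), (.ofNat (nat_lit 14347629147833685663293636608)), (.negSucc (nat_lit 187493199)), (.negSucc (nat_lit 187493167)), (.negSucc (nat_lit 6841482709805338699003)), (.ofNat (nat_lit 6841482709805338699004)), (.negSucc (nat_lit 6841482709805338699003)), (.ofNat (nat_lit 6841482709805338699004)), (.ofNat (nat_lit 0))⟩,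
    ⟨nat_lit 0, nat_lit 13, nat_lit 12, (.ofNat (nat_lit 8)), (.negSucc (nat_lit 1105967103)), (.ofNat (nat_lit 11349517596004295511344419514368)), (.negSucc (nat_lit 262143)), (.ofNat (nat_lit 23314897365229739202852159488)), (.negSucc (nat_lit 1105967119)), (.negSucc (nat_lit 1105967087)), (.ofNat (nat_lit 6841482709805338699004)), (.negSucc (nat_lit 6841482709805338699003)), (.negSucc (nat_lit 6841482709805338699003)), (.ofNat (nat_lit 6841482709805338699004)), (.ofNat (nat_lit 0))⟩,
    ⟨nat_lit 0, nat_lit 6, nat_lit 13, (.ofNat (nat_lit 8)), (.negSucc (nat_lit 1252472831)), (.ofNat (nat_lit 10347201191004851626960265619456)), (.negSucc (nat_lit 1310719)), (.ofNat (nat_lit 16141082791312896371205341184)), (.negSucc (nat_lit 1252472847)), (.negSucc (nat_lit 1252472815)), (.negSucc (nat_lit 6841482709805338699003)), (.ofNat (nat_lit 6841482709805338699004)), (.negSucc (nat_lit 6841482709805338699003)), (.ofNat (nat_lit 6841482709805338699004)), (.ofNat (nat_lit 0))⟩,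
    ⟨nat_lit 0, nat_lit 21, nat_lit 14, (.ofNat (nat_lit 8)), (.negSucc (nat_lit 125846399)), (.ofNat (nat_lit 1298577782990387133697439429632)), (.negSucc (nat_lit 262143)), (.ofNat (nat_lit 1793453643479210707911704576)), (.negSucc (nat_lit 125846415)), (.negSucc (nat_lit 125846383)), (.negSucc (nat_lit 6841482709805338699003)), (.ofNat (nat_lit 6841482709805338699004)), (.negSucc (nat_lit 6841482709805338699003)), (.ofNat (nat_lit 6841482709805338699004)), (.ofNat (nat_lit 0))⟩,
    ⟨nat_lit 1, nat_lit 14, nat_lit 15, (.ofNat (nat_lit 8)), (.ofNat (nat_lit 844855808)), (.ofNat (nat_lit 7939620155392252659008469630464)), (.ofNat (nat_lit 1835008)), (.ofNat (nat_lit 16141082791312896371205341184)), (.ofNat (nat_lit 844855792)), (.ofNat (nat_lit 844855824)), (.ofNat (nat_lit 6841482709805338699004)), (.negSucc (nat_lit 6841482709805338699003)), (.negSucc (nat_lit 6841482709805338699003)), (.ofNat (nat_lit 6841482709805338699004)), (.ofNat (nat_lit 0))⟩,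
    ⟨nat_lit 0, nat_lit 16, nat_lit 15, (.ofNat (nat_lit 8)), (.negSucc (nat_lit 233591231)), (.ofNat (nat_lit 15317796932992999155146784378624)), (.ofNat (nat_lit 1048576)), (.ofNat (nat_lit 21521443721750528494940454912)), (.negSucc (nat_lit 233591247)), (.negSucc (nat_lit 233591215)), (.ofNat (nat_lit 6841482709805338699004)), (.negSucc (nat_lit 6841482709805338699003)), (.negSucc (nat_lit 6841482709805338699003)), (.ofNat (nat_lit 6841482709805338699004)), (.ofNat (nat_lit 0))⟩,
    ⟨nat_lit 0, nat_lit 17, nat_lit 16, (.ofNat (nat_lit 8)), (.negSucc (nat_lit 1058099199)), (.ofNat (nat_lit 9676939925824265668879232714752)), (.negSucc (nat_lit 262143)), (.ofNat (nat_lit 12554175504354474955381932032)), (.negSucc (nat_lit 1058099215)), (.negSucc (nat_lit 1058099183)), (.negSucc (nat_lit 6841482709805338699003)), (.ofNat (nat_lit 6841482709805338699004)), (.negSucc (nat_lit 6841482709805338699003)), (.ofNat (nat_lit 6841482709805338699004)), (.ofNat (nat_lit 0))⟩,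
    ⟨nat_lit 2, nat_lit 17, nat_lit 18, (.ofNat (nat_lit 8)), (.negSucc (nat_lit 1263446015)), (.ofNat (nat_lit 11081816617001843950521286486016)), (.negSucc (nat_lit 1310719)), (.ofNat (nat_lit 19727990078271317787028750336)), (.negSucc (nat_lit 1263446031)), (.negSucc (nat_lit 1263445999)), (.negSucc (nat_lit 6841482709805338699003)), (.ofNat (nat_lit 6841482709805338699004)), (.negSucc (nat_lit 6841482709805338699003)), (.ofNat (nat_lit 6841482709805338699004)), (.ofNat (nat_lit 0))⟩,
    ⟨nat_lit 0, nat_lit 18, nat_lit 19, (.ofNat (nat_lit 8)), (.negSucc (nat_lit 622438719)), (.ofNat (nat_lit 15467256949444916796333998419200)), (.negSucc (nat_lit 262143)), (.ofNat (nat_lit 26901804652188160618675568640)), (.negSucc (nat_lit 622438735)), (.negSucc (nat_lit 622438703)), (.ofNat (nat_lit 6841482709805338699004)), (.negSucc (nat_lit 6841482709805338699003)), (.negSucc (nat_lit 6841482709805338699003)), (.ofNat (nat_lit 6841482709805338699004)), (.ofNat (nat_lit 0))⟩,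
    ⟨nat_lit 2, nat_lit 21, nat_lit 7, (.ofNat (nat_lit 8)), (.negSucc (nat_lit 1319823167)), (.ofNat (nat_lit 9467149197171647342679560168704)), (.negSucc (nat_lit 1572863)), (.ofNat (nat_lit 10760721860875264247470227456)), (.negSucc (nat_lit 1319823183)), (.negSucc (nat_lit 1319823151)), (.negSucc (nat_lit 6841482709805338699003)), (.ofNat (nat_lit 6841482709805338699004)), (.negSucc (nat_lit 6841482709805338699003)), (.ofNat (nat_lit 6841482709805338699004)), (.ofNat (nat_lit 0))⟩]
  es := [
    ⟨nat_lit 1, nat_lit 0, (.negSucc (nat_lit 1420199743)), (.negSucc (nat_lit 734406911)), (.negSucc (nat_lit 1420199727)), (.negSucc (nat_lit 734406927)), (.negSucc (nat_lit 6841482709805338699003)), (.ofNat (nat_lit 0)), (.ofNat (nat_lit 3586907286958421415823409152))⟩,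
    ⟨nat_lit 1, nat_lit 2, (.negSucc (nat_lit 1420199743)), (.negSucc (nat_lit 1268041727)), (.negSucc (nat_lit 1420199727)), (.negSucc (nat_lit 1268041743)), (.ofNat (nat_lit 6841482709805338699004)), (.ofNat (nat_lit 0)), (.ofNat (nat_lit 32282165582625792742410682368))⟩,
    ⟨nat_lit 2, nat_lit 3, (.negSucc (nat_lit 1268041727)), (.negSucc (nat_lit 1062694911)), (.negSucc (nat_lit 1268041711)), (.negSucc (nat_lit 1062694927)), (.negSucc (nat_lit 6841482709805338699003)), (.ofNat (nat_lit 0)), (.ofNat (nat_lit 14347629147833685663293636608))⟩,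
    ⟨nat_lit 3, nat_lit 4, (.negSucc (nat_lit 1062694911)), (.negSucc (nat_lit 92009151)), (.negSucc (nat_lit 1062694895)), (.negSucc (nat_lit 92009167)), (.ofNat (nat_lit 6841482709805338699004)), (.ofNat (nat_lit 0)), (.ofNat (nat_lit 17934536434792107079117045760))⟩,
    ⟨nat_lit 5, nat_lit 4, (.negSucc (nat_lit 330984127)), (.negSucc (nat_lit 92009151)), (.negSucc (nat_lit 330984111)), (.negSucc (nat_lit 92009167)), (.negSucc (nat_lit 6841482709805338699003)), (.ofNat (nat_lit 0)), (.ofNat (nat_lit 1638764763889981364020906166272))⟩,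
    ⟨nat_lit 6, nat_lit 5, (.negSucc (nat_lit 1378904063)), (.negSucc (nat_lit 330984127)), (.negSucc (nat_lit 1378904047)), (.negSucc (nat_lit 330984143)), (.ofNat (nat_lit 6841482709805338699004)), (.ofNat (nat_lit 0)), (.ofNat (nat_lit 35869072869584214158234091520))⟩,
    ⟨nat_lit 6, nat_lit 14, (.negSucc (nat_lit 1378904063)), (.negSucc (nat_lit 1252472831)), (.negSucc (nat_lit 1378904047)), (.negSucc (nat_lit 1252472847)), (.negSucc (nat_lit 6841482709805338699003)), (.ofNat (nat_lit 0)), (.ofNat (nat_lit 7173814573916842831646818304))⟩,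
    ⟨nat_lit 21, nat_lit 7, (.negSucc (nat_lit 1319823167)), (.negSucc (nat_lit 1090922495)), (.negSucc (nat_lit 1319823151)), (.negSucc (nat_lit 1090922511)), (.ofNat (nat_lit 6841482709805338699004)), (.ofNat (nat_lit 0)), (.ofNat (nat_lit 21521443721750528494940454912))⟩,
    ⟨nat_lit 7, nat_lit 8, (.negSucc (nat_lit 1090922495)), (.ofNat (nat_lit 242269952)), (.negSucc (nat_lit 1090922479)), (.ofNat (nat_lit 242269936)), (.negSucc (nat_lit 6841482709805338699003)), (.ofNat (nat_lit 0)), (.ofNat (nat_lit 17934536434792107079117045760))⟩,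
    ⟨nat_lit 8, nat_lit 9, (.ofNat (nat_lit 242269952)), (.ofNat (nat_lit 1130249280)), (.ofNat (nat_lit 242269968)), (.ofNat (nat_lit 1130249264)), (.ofNat (nat_lit 6841482709805338699004)), (.ofNat (nat_lit 0)), (.ofNat (nat_lit 0))⟩,
    ⟨nat_lit 10, nat_lit 9, (.ofNat (nat_lit 359404416)), (.ofNat (nat_lit 1130249280)), (.ofNat (nat_lit 359404432)), (.ofNat (nat_lit 1130249264)), (.negSucc (nat_lit 6841482709805338699003)), (.ofNat (nat_lit 0)), (.ofNat (nat_lit 1635177856603022942605082757120))⟩,
    ⟨nat_lit 12, nat_lit 11, (.negSucc (nat_lit 187493183)), (.ofNat (nat_lit 355210112)), (.negSucc (nat_lit 187493167)), (.ofNat (nat_lit 355210096)), (.ofNat (nat_lit 6841482709805338699004)), (.ofNat (nat_lit 0)), (.ofNat (nat_lit 7173814573916842831646818304))⟩,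
    ⟨nat_lit 13, nat_lit 12, (.negSucc (nat_lit 1105967103)), (.negSucc (nat_lit 187493183)), (.negSucc (nat_lit 1105967087)), (.negSucc (nat_lit 187493199)), (.negSucc (nat_lit 6841482709805338699003)), (.ofNat (nat_lit 0)), (.ofNat (nat_lit 21521443721750528494940454912))⟩,
    ⟨nat_lit 14, nat_lit 13, (.negSucc (nat_lit 1252472831)), (.negSucc (nat_lit 1105967103)), (.negSucc (nat_lit 1252472815)), (.negSucc (nat_lit 1105967119)), (.ofNat (nat_lit 6841482709805338699004)), (.ofNat (nat_lit 0)), (.ofNat (nat_lit 25108351008708949910763864064))⟩,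
    ⟨nat_lit 15, nat_lit 16, (.negSucc (nat_lit 125846399)), (.ofNat (nat_lit 844855808)), (.negSucc (nat_lit 125846383)), (.ofNat (nat_lit 844855792)), (.ofNat (nat_lit 6841482709805338699004)), (.ofNat (nat_lit 0)), (.ofNat (nat_lit 3586907286958421415823409152))⟩,
    ⟨nat_lit 17, nat_lit 16, (.negSucc (nat_lit 233591231)), (.ofNat (nat_lit 844855808)), (.negSucc (nat_lit 233591215)), (.ofNat (nat_lit 844855792)), (.negSucc (nat_lit 6841482709805338699003)), (.ofNat (nat_lit 0)), (.ofNat (nat_lit 28695258295667371326587273216))⟩,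
    ⟨nat_lit 18, nat_lit 17, (.negSucc (nat_lit 1058099199)), (.negSucc (nat_lit 233591231)), (.negSucc (nat_lit 1058099183)), (.negSucc (nat_lit 233591247)), (.ofNat (nat_lit 6841482709805338699004)), (.ofNat (nat_lit 0)), (.ofNat (nat_lit 14347629147833685663293636608))⟩,
    ⟨nat_lit 19, nat_lit 18, (.negSucc (nat_lit 1263446015)), (.negSucc (nat_lit 1058099199)), (.negSucc (nat_lit 1263445999)), (.negSucc (nat_lit 1058099215)), (.negSucc (nat_lit 6841482709805338699003)), (.ofNat (nat_lit 0)), (.ofNat (nat_lit 10760721860875264247470227456))⟩,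
    ⟨nat_lit 19, nat_lit 20, (.negSucc (nat_lit 1263446015)), (.negSucc (nat_lit 622438719)), (.negSucc (nat_lit 1263445999)), (.negSucc (nat_lit 622438735)), (.ofNat (nat_lit 6841482709805338699004)), (.ofNat (nat_lit 0)), (.ofNat (nat_lit 28695258295667371326587273216))⟩,
    ⟨nat_lit 20, nat_lit 11, (.negSucc (nat_lit 622438719)), (.ofNat (nat_lit 355210112)), (.negSucc (nat_lit 622438703)), (.ofNat (nat_lit 355210096)), (.negSucc (nat_lit 6841482709805338699003)), (.ofNat (nat_lit 0)), (.ofNat (nat_lit 25108351008708949910763864064))⟩,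
    ⟨nat_lit 0, nat_lit 10, (.negSucc (nat_lit 734406911)), (.ofNat (nat_lit 359404416)), (.negSucc (nat_lit 734406895)), (.ofNat (nat_lit 359404400)), (.ofNat (nat_lit 6841482709805338699004)), (.ofNat (nat_lit 0)), (.ofNat (nat_lit 10760721860875264247470227456))⟩,
    ⟨nat_lit 21, nat_lit 15, (.negSucc (nat_lit 1319823167)), (.negSucc (nat_lit 125846399)), (.negSucc (nat_lit 1319823151)), (.negSucc (nat_lit 125846415)), (.negSucc (nat_lit 6841482709805338699003)), (.ofNat (nat_lit 0)), (.ofNat (nat_lit 0))⟩]

theorem ok82 : stOK 21 21 S82 = true := by decide +kernel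

def S83 : SD where
  vs := [
    ⟨nat_lit 0, nat_lit 0, nat_lit 20, (.ofNat (nat_lit 8)), (.negSucc (nat_lit 734406911)), (.ofNat (nat_lit 5867958123701204758594723651456)), (.ofNat (nat_lit 0)), (.ofNat (nat_lit 90276278740192201305536086400)), (.negSucc (nat_lit 734406927)), (.negSucc (nat_lit 734406895)), (.negSucc (nat_lit 6948380877273379476366)), (.ofNat (nat_lit 6948380909456020873382)), (.negSucc (nat_lit 6948380877273379476366)), (.ofNat (nat_lit 6948380909456020873382)), (.ofNat (nat_lit 641389069173527458208))⟩,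
    ⟨nat_lit 2, nat_lit 0, nat_lit 1, (.ofNat (nat_lit 8)), (.negSucc (nat_lit 1420199743)), (.ofNat (nat_lit 10633107923341160107903125652800)), (.ofNat (nat_lit 0)), (.ofNat (nat_lit 163586275743710155504789348416)), (.negSucc (nat_lit 1420199759)), (.negSucc (nat_lit 1420199727)), (.negSucc (nat_lit 6948380877273379476366)), (.ofNat (nat_lit 6948380877146047116175)), (.negSucc (nat_lit 6948380877273379476366)), (.ofNat (nat_lit 6948380877146047116175)), (.ofNat (nat_lit 641389004553579943794))⟩,
    ⟨nat_lit 0, nat_lit 1, nat_lit 2, (.ofNat (nat_lit 8)), (.negSucc (nat_lit 1268041727)), (.ofNat (nat_lit 11690359772020042379342835161600)), (.ofNat (nat_lit 0)), (.ofNat (nat_lit 179851688800308344296029041152)), (.negSucc (nat_lit 1268041743)), (.negSucc (nat_lit 1268041711)), (.ofNat (nat_lit 6948380877146047116175)), (.negSucc (nat_lit 6948380877146047116174)), (.negSucc (nat_lit 6948380877146047116174)), (.ofNat (nat_lit 6948380877146047116175)), (.ofNat (nat_lit 641389004044250503026))⟩,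
    ⟨nat_lit 0, nat_lit 2, nat_lit 3, (.ofNat (nat_lit 8)), (.negSucc (nat_lit 1062694911)), (.ofNat (nat_lit 10263531882542814437050316812800)), (.ofNat (nat_lit 0)), (.ofNat (nat_lit 157900490500658683645564463616)), (.negSucc (nat_lit 1062694927)), (.negSucc (nat_lit 1062694895)), (.negSucc (nat_lit 6948380877146047116174)), (.ofNat (nat_lit 6948380877146047116175)), (.negSucc (nat_lit 6948380877146047116174)), (.ofNat (nat_lit 6948380877146047116175)), (.ofNat (nat_lit 641389004044250503026))⟩,
    ⟨nat_lit 1, nat_lit 3, nat_lit 4, (.ofNat (nat_lit 8)), (.negSucc (nat_lit 92009151)), (.ofNat (nat_lit 17008226255044791813010454980800)), (.ofNat (nat_lit 0)), (.ofNat (nat_lit 261665019308381412505593648576)), (.negSucc (nat_lit 92009167)), (.negSucc (nat_lit 92009135)), (.ofNat (nat_lit 6948380877146047116175)), (.negSucc (nat_lit 6948380877146047116174)), (.negSucc (nat_lit 6948380877146047116174)), (.ofNat (nat_lit 6948380877146047116175)), (.ofNat (nat_lit 641389004044250503026))⟩,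
    ⟨nat_lit 0, nat_lit 5, nat_lit 4, (.ofNat (nat_lit 8)), (.negSucc (nat_lit 330984127)), (.ofNat (nat_lit 18668715408399627371093244817600)), (.ofNat (nat_lit 0)), (.ofNat (nat_lit 287211006283071190322031361472)), (.negSucc (nat_lit 330984143)), (.negSucc (nat_lit 330984111)), (.ofNat (nat_lit 6948380877146047116175)), (.negSucc (nat_lit 6948380877146047116174)), (.negSucc (nat_lit 6948380877146047116174)), (.ofNat (nat_lit 6948380877146047116175)), (.ofNat (nat_lit 641389004044250503026))⟩,
    ⟨nat_lit 2, nat_lit 6, nat_lit 5, (.ofNat (nat_lit 8)), (.negSucc (nat_lit 1378904063)), (.ofNat (nat_lit 11387368564317117814458154252800)), (.ofNat (nat_lit 0)), (.ofNat (nat_lit 175190285604878735605535740416)), (.negSucc (nat_lit 1378904079)), (.negSucc (nat_lit 1378904047)), (.negSucc (nat_lit 6948380877146047116174)), (.ofNat (nat_lit 6948380877146047116175)), (.negSucc (nat_lit 6948380877146047116174)), (.ofNat (nat_lit 6948380877146047116175)), (.ofNat (nat_lit 641389004044250503026))⟩,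
    ⟨nat_lit 0, nat_lit 7, nat_lit 8, (.ofNat (nat_lit 8)), (.negSucc (nat_lit 1090922495)), (.ofNat (nat_lit 11205562455468133959443750566400)), (.ofNat (nat_lit 0)), (.ofNat (nat_lit 172393268545663599374569067008)), (.negSucc (nat_lit 1090922511)), (.negSucc (nat_lit 1090922479)), (.ofNat (nat_lit 6948380877146047116175)), (.negSucc (nat_lit 6948380877146047116174)), (.negSucc (nat_lit 6948380877146047116174)), (.ofNat (nat_lit 6948380877146047116175)), (.ofNat (nat_lit 641389004044250503026))⟩,
    ⟨nat_lit 0, nat_lit 8, nat_lit 9, (.ofNat (nat_lit 8)), (.ofNat (nat_lit 242269952)), (.ofNat (nat_lit 1942033544229408151107061920000)), (.ofNat (nat_lit 0)), (.ofNat (nat_lit 29877439141990894632158342400)), (.ofNat (nat_lit 242269936)), (.ofNat (nat_lit 242269968)), (.negSucc (nat_lit 6948380877146047116174)), (.ofNat (nat_lit 6948380877146047116175)), (.negSucc (nat_lit 6948380877146047116174)), (.ofNat (nat_lit 6948380877146047116175)), (.ofNat (nat_lit 641389004044250503026))⟩,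
    ⟨nat_lit 1, nat_lit 9, nat_lit 10, (.ofNat (nat_lit 8)), (.ofNat (nat_lit 1130249280)), (.ofNat (nat_lit 8112052126205605627184476350400)), (.ofNat (nat_lit 0)), (.ofNat (nat_lit 124800801941624701955606583488)), (.ofNat (nat_lit 1130249264)), (.ofNat (nat_lit 1130249296)), (.ofNat (nat_lit 6948380877146047116175)), (.negSucc (nat_lit 6948380922879881937592)), (.negSucc (nat_lit 6948380922879881937592)), (.ofNat (nat_lit 6948380877146047116175)), (.ofNat (nat_lit 641389095511920145862))⟩,
    ⟨nat_lit 0, nat_lit 20, nat_lit 10, (.ofNat (nat_lit 8)), (.ofNat (nat_lit 359404416)), (.ofNat (nat_lit 13468175873723142707704408922752)), (.ofNat (nat_lit 0)), (.ofNat (nat_lit 207202740460914006567863840384)), (.ofNat (nat_lit 359404400)), (.ofNat (nat_lit 359404432)), (.ofNat (nat_lit 6948380909456020873382)), (.negSucc (nat_lit 6948380922879881937592)), (.negSucc (nat_lit 6948380922879881937592)), (.ofNat (nat_lit 6948380909456020873382)), (.ofNat (nat_lit 641389224751815174690))⟩,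
    ⟨nat_lit 1, nat_lit 11, nat_lit 19, (.ofNat (nat_lit 8)), (.ofNat (nat_lit 355210112)), (.ofNat (nat_lit 8915856390447025164729140582400)), (.ofNat (nat_lit 0)), (.ofNat (nat_lit 137167021391492694840802326528)), (.ofNat (nat_lit 355210096)), (.ofNat (nat_lit 355210128)), (.ofNat (nat_lit 6948380877146047116175)), (.negSucc (nat_lit 6948380877146047116174)), (.negSucc (nat_lit 6948380877146047116174)), (.ofNat (nat_lit 6948380877146047116175)), (.ofNat (nat_lit 641389004044250503026))⟩,
    ⟨nat_lit 0, nat_lit 12, nat_lit 11, (.ofNat (nat_lit 8)), (.negSucc (nat_lit 187493183)), (.ofNat (nat_lit 5144947186556494321409673169600)), (.ofNat (nat_lit 0)), (.ofNat (nat_lit 79153033639330681867157630912)), (.negSucc (nat_lit 187493199)), (.negSucc (nat_lit 187493167)), (.negSucc (nat_lit 6948380877146047116174)), (.ofNat (nat_lit 6948380877146047116175)), (.negSucc (nat_lit 6948380877146047116174)), (.ofNat (nat_lit 6948380877146047116175)), (.ofNat (nat_lit 641389004044250503026))⟩,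
    ⟨nat_lit 0, nat_lit 13, nat_lit 12, (.ofNat (nat_lit 8)), (.negSucc (nat_lit 1105967103)), (.ofNat (nat_lit 11526853808441862628707620825600)), (.ofNat (nat_lit 0)), (.ofNat (nat_lit 177336212437567117363201311232)), (.negSucc (nat_lit 1105967119)), (.negSucc (nat_lit 1105967087)), (.ofNat (nat_lit 6948380877146047116175)), (.negSucc (nat_lit 6948380877146047116174)), (.negSucc (nat_lit 6948380877146047116174)), (.ofNat (nat_lit 6948380877146047116175)), (.ofNat (nat_lit 641389004044250503026))⟩,
    ⟨nat_lit 0, nat_lit 6, nat_lit 13, (.ofNat (nat_lit 8)), (.negSucc (nat_lit 1252472831)), (.ofNat (nat_lit 10508876209614302433630101875200)), (.ofNat (nat_lit 0)), (.ofNat (nat_lit 161675018609450806669836255744)), (.negSucc (nat_lit 1252472847)), (.negSucc (nat_lit 1252472815)), (.negSucc (nat_lit 6948380877146047116174)), (.ofNat (nat_lit 6948380877146047116175)), (.negSucc (nat_lit 6948380877146047116174)), (.ofNat (nat_lit 6948380877146047116175)), (.ofNat (nat_lit 641389004044250503026))⟩,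
    ⟨nat_lit 0, nat_lit 21, nat_lit 14, (.ofNat (nat_lit 8)), (.negSucc (nat_lit 125846399)), (.ofNat (nat_lit 1318868060849611932661283974400)), (.ofNat (nat_lit 0)), (.ofNat (nat_lit 20290277859224798963844544768)), (.negSucc (nat_lit 125846415)), (.negSucc (nat_lit 125846383)), (.negSucc (nat_lit 6948380877146047116174)), (.ofNat (nat_lit 6948380877146047116175)), (.negSucc (nat_lit 6948380877146047116174)), (.ofNat (nat_lit 6948380877146047116175)), (.ofNat (nat_lit 641389004044250503026))⟩,
    ⟨nat_lit 1, nat_lit 14, nat_lit 15, (.ofNat (nat_lit 8)), (.ofNat (nat_lit 844855808)), (.ofNat (nat_lit 8063676720320256606804388988800)), (.ofNat (nat_lit 0)), (.ofNat (nat_lit 124056564928003947795919358336)), (.ofNat (nat_lit 844855792)), (.ofNat (nat_lit 844855824)), (.ofNat (nat_lit 6948380877146047116175)), (.negSucc (nat_lit 6948380877146047116174)), (.negSucc (nat_lit 6948380877146047116174)), (.ofNat (nat_lit 6948380877146047116175)), (.ofNat (nat_lit 641389004044250503026))⟩,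
    ⟨nat_lit 0, nat_lit 16, nat_lit 15, (.ofNat (nat_lit 8)), (.negSucc (nat_lit 233591231)), (.ofNat (nat_lit 15557137510071014766943853860800)), (.ofNat (nat_lit 0)), (.ofNat (nat_lit 239340577078015611797069482176)), (.negSucc (nat_lit 233591247)), (.negSucc (nat_lit 233591215)), (.ofNat (nat_lit 6948380877146047116175)), (.negSucc (nat_lit 6948380877146047116174)), (.negSucc (nat_lit 6948380877146047116174)), (.ofNat (nat_lit 6948380877146047116175)), (.ofNat (nat_lit 641389004044250503026))⟩,
    ⟨nat_lit 0, nat_lit 17, nat_lit 16, (.ofNat (nat_lit 8)), (.negSucc (nat_lit 1058099199)), (.ofNat (nat_lit 9828142112165269819954144678400)), (.ofNat (nat_lit 0)), (.ofNat (nat_lit 151202186341004151074911963648)), (.negSucc (nat_lit 1058099215)), (.negSucc (nat_lit 1058099183)), (.negSucc (nat_lit 6948380877146047116174)), (.ofNat (nat_lit 6948380877146047116175)), (.negSucc (nat_lit 6948380877146047116174)), (.ofNat (nat_lit 6948380877146047116175)), (.ofNat (nat_lit 641389004044250503026))⟩,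
    ⟨nat_lit 2, nat_lit 17, nat_lit 18, (.ofNat (nat_lit 8)), (.negSucc (nat_lit 1263446015)), (.ofNat (nat_lit 11254970001642497762246663027200)), (.ofNat (nat_lit 0)), (.ofNat (nat_lit 173153384640653811725376541184)), (.negSucc (nat_lit 1263446031)), (.negSucc (nat_lit 1263445999)), (.negSucc (nat_lit 6948380877146047116174)), (.ofNat (nat_lit 6948380877146047116175)), (.negSucc (nat_lit 6948380877146047116174)), (.ofNat (nat_lit 6948380877146047116175)), (.ofNat (nat_lit 641389004044250503026))⟩,
    ⟨nat_lit 0, nat_lit 18, nat_lit 19, (.ofNat (nat_lit 8)), (.negSucc (nat_lit 622438719)), (.ofNat (nat_lit 15708932839279993621274597640000)), (.ofNat (nat_lit 0)), (.ofNat (nat_lit 241675889835076824940599220800)), (.negSucc (nat_lit 622438735)), (.negSucc (nat_lit 622438703)), (.ofNat (nat_lit 6948380877146047116175)), (.negSucc (nat_lit 6948380877146047116174)), (.negSucc (nat_lit 6948380877146047116174)), (.ofNat (nat_lit 6948380877146047116175)), (.ofNat (nat_lit 641389004044250503026))⟩,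
    ⟨nat_lit 2, nat_lit 21, nat_lit 7, (.ofNat (nat_lit 8)), (.negSucc (nat_lit 1319823167)), (.ofNat (nat_lit 9615073403377454332407630996800)), (.ofNat (nat_lit 0)), (.ofNat (nat_lit 147924206205806989728070828096)), (.negSucc (nat_lit 1319823183)), (.negSucc (nat_lit 1319823151)), (.negSucc (nat_lit 6948380877146047116174)), (.ofNat (nat_lit 6948380877146047116175)), (.negSucc (nat_lit 6948380877146047116174)), (.ofNat (nat_lit 6948380877146047116175)), (.ofNat (nat_lit 641389004044250503026))⟩]
  es := [
    ⟨nat_lit 1, nat_lit 0, (.negSucc (nat_lit 1420199743)), (.negSucc (nat_lit 734406911)), (.negSucc (nat_lit 1420199727)), (.negSucc (nat_lit 734406927)), (.negSucc (nat_lit 6948380877273379476366)), (.negSucc (nat_lit 106898167468040777362)), (.ofNat (nat_lit 11769525671529515312295753344))⟩,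
    ⟨nat_lit 1, nat_lit 2, (.negSucc (nat_lit 1420199743)), (.negSucc (nat_lit 1268041727)), (.negSucc (nat_lit 1420199727)), (.negSucc (nat_lit 1268041743)), (.ofNat (nat_lit 6948380877146047116175)), (.ofNat (nat_lit 106898167340708417171)), (.ofNat (nat_lit 315403025635053410349688752640))⟩,
    ⟨nat_lit 2, nat_lit 3, (.negSucc (nat_lit 1268041727)), (.negSucc (nat_lit 1062694911)), (.negSucc (nat_lit 1268041711)), (.negSucc (nat_lit 1062694927)), (.negSucc (nat_lit 6948380877146047116174)), (.negSucc (nat_lit 106898167340708417170)), (.ofNat (nat_lit 44300351965563278242369329664))⟩,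
    ⟨nat_lit 3, nat_lit 4, (.negSucc (nat_lit 1062694911)), (.negSucc (nat_lit 92009151)), (.negSucc (nat_lit 1062694895)), (.negSucc (nat_lit 92009167)), (.ofNat (nat_lit 6948380877146047116175)), (.ofNat (nat_lit 106898167340708417171)), (.ofNat (nat_lit 271500629035754089048759597568))⟩,
    ⟨nat_lit 5, nat_lit 4, (.negSucc (nat_lit 330984127)), (.negSucc (nat_lit 92009151)), (.negSucc (nat_lit 330984111)), (.negSucc (nat_lit 92009167)), (.negSucc (nat_lit 6948380877146047116174)), (.negSucc (nat_lit 106898167340708417170)), (.ofNat (nat_lit 251829409581008735962427699584))⟩,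
    ⟨nat_lit 6, nat_lit 5, (.negSucc (nat_lit 1378904063)), (.negSucc (nat_lit 330984127)), (.negSucc (nat_lit 1378904047)), (.negSucc (nat_lit 330984143)), (.ofNat (nat_lit 6948380877146047116175)), (.ofNat (nat_lit 106898167340708417171)), (.ofNat (nat_lit 322592602985133644681635023360))⟩,
    ⟨nat_lit 6, nat_lit 14, (.negSucc (nat_lit 1378904063)), (.negSucc (nat_lit 1252472831)), (.negSucc (nat_lit 1378904047)), (.negSucc (nat_lit 1252472847)), (.negSucc (nat_lit 6948380877146047116174)), (.negSucc (nat_lit 106898167340708417170)), (.ofNat (nat_lit 27787968224623826529436457472))⟩,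
    ⟨nat_lit 21, nat_lit 7, (.negSucc (nat_lit 1319823167)), (.negSucc (nat_lit 1090922495)), (.negSucc (nat_lit 1319823151)), (.negSucc (nat_lit 1090922511)), (.ofNat (nat_lit 6948380877146047116175)), (.ofNat (nat_lit 106898167340708417171)), (.ofNat (nat_lit 289010884078814908242965645824))⟩,
    ⟨nat_lit 7, nat_lit 8, (.negSucc (nat_lit 1090922495)), (.ofNat (nat_lit 242269952)), (.negSucc (nat_lit 1090922479)), (.ofNat (nat_lit 242269936)), (.negSucc (nat_lit 6948380877146047116174)), (.negSucc (nat_lit 106898167340708417170)), (.ofNat (nat_lit 55775653012512290506172488192))⟩,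
    ⟨nat_lit 8, nat_lit 9, (.ofNat (nat_lit 242269952)), (.ofNat (nat_lit 1130249280)), (.ofNat (nat_lit 242269968)), (.ofNat (nat_lit 1130249264)), (.ofNat (nat_lit 6948380877146047116175)), (.ofNat (nat_lit 106898167340708417171)), (.ofNat (nat_lit 3979225271469498758144196608))⟩,
    ⟨nat_lit 10, nat_lit 9, (.ofNat (nat_lit 359404416)), (.ofNat (nat_lit 1130249280)), (.ofNat (nat_lit 359404432)), (.ofNat (nat_lit 1130249264)), (.negSucc (nat_lit 6948380922879881937592)), (.negSucc (nat_lit 106898213074543238588)), (.ofNat (nat_lit 245622430302413783699692049408))⟩,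
    ⟨nat_lit 12, nat_lit 11, (.negSucc (nat_lit 187493183)), (.ofNat (nat_lit 355210112)), (.negSucc (nat_lit 187493167)), (.ofNat (nat_lit 355210096)), (.ofNat (nat_lit 6948380877146047116175)), (.ofNat (nat_lit 106898167340708417171)), (.ofNat (nat_lit 99195711397804915818148693376))⟩,
    ⟨nat_lit 13, nat_lit 12, (.negSucc (nat_lit 1105967103)), (.negSucc (nat_lit 187493183)), (.negSucc (nat_lit 1105967087)), (.negSucc (nat_lit 187493199)), (.negSucc (nat_lit 6948380877146047116174)), (.negSucc (nat_lit 106898167340708417170)), (.ofNat (nat_lit 59110355880856447916166568448))⟩,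
    ⟨nat_lit 14, nat_lit 13, (.negSucc (nat_lit 1252472831)), (.negSucc (nat_lit 1105967103)), (.negSucc (nat_lit 1252472815)), (.negSucc (nat_lit 1105967119)), (.ofNat (nat_lit 6948380877146047116175)), (.ofNat (nat_lit 106898167340708417171)), (.ofNat (nat_lit 295562068994277786810236054016))⟩,
    ⟨nat_lit 15, nat_lit 16, (.negSucc (nat_lit 125846399)), (.ofNat (nat_lit 844855808)), (.negSucc (nat_lit 125846383)), (.ofNat (nat_lit 844855792)), (.ofNat (nat_lit 6948380877146047116175)), (.ofNat (nat_lit 106898167340708417171)), (.ofNat (nat_lit 33743027385650526714513079168))⟩,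
    ⟨nat_lit 17, nat_lit 16, (.negSucc (nat_lit 233591231)), (.ofNat (nat_lit 844855808)), (.negSucc (nat_lit 233591215)), (.ofNat (nat_lit 844855792)), (.negSucc (nat_lit 6948380877146047116174)), (.negSucc (nat_lit 106898167340708417170)), (.ofNat (nat_lit 214370102470357368877325637504))⟩,
    ⟨nat_lit 18, nat_lit 17, (.negSucc (nat_lit 1058099199)), (.negSucc (nat_lit 233591231)), (.negSucc (nat_lit 1058099183)), (.negSucc (nat_lit 233591247)), (.ofNat (nat_lit 6948380877146047116175)), (.ofNat (nat_lit 106898167340708417171)), (.ofNat (nat_lit 264311051685673854716813326848))⟩,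
    ⟨nat_lit 19, nat_lit 18, (.negSucc (nat_lit 1263446015)), (.negSucc (nat_lit 1058099199)), (.negSucc (nat_lit 1263445999)), (.negSucc (nat_lit 1058099215)), (.negSucc (nat_lit 6948380877146047116174)), (.negSucc (nat_lit 106898167340708417170)), (.ofNat (nat_lit 38093320996334447433010600448))⟩,
    ⟨nat_lit 19, nat_lit 20, (.negSucc (nat_lit 1263446015)), (.negSucc (nat_lit 622438719)), (.negSucc (nat_lit 1263445999)), (.negSucc (nat_lit 622438735)), (.ofNat (nat_lit 6948380877146047116175)), (.ofNat (nat_lit 106898167340708417171)), (.ofNat (nat_lit 308213448284973176017742481920))⟩,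
    ⟨nat_lit 20, nat_lit 11, (.negSucc (nat_lit 622438719)), (.ofNat (nat_lit 355210112)), (.negSucc (nat_lit 622438703)), (.ofNat (nat_lit 355210096)), (.negSucc (nat_lit 6948380877146047116174)), (.negSucc (nat_lit 106898167340708417170)), (.ofNat (nat_lit 175138331385180473863455959680))⟩,
    ⟨nat_lit 0, nat_lit 10, (.negSucc (nat_lit 734406911)), (.ofNat (nat_lit 359404416)), (.negSucc (nat_lit 734406895)), (.ofNat (nat_lit 359404400)), (.ofNat (nat_lit 6948380909456020873382)), (.ofNat (nat_lit 106898199650682174378)), (.ofNat (nat_lit 168783055444009175683928587136))⟩,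
    ⟨nat_lit 21, nat_lit 15, (.negSucc (nat_lit 1319823167)), (.negSucc (nat_lit 125846399)), (.negSucc (nat_lit 1319823151)), (.negSucc (nat_lit 125846415)), (.negSucc (nat_lit 6948380877146047116174)), (.negSucc (nat_lit 106898167340708417170)), (.ofNat (nat_lit 6837528332799071213176010368))⟩]

theorem ok83 : stOK 21 21 S83 = true := by decide +kernel

def S84 : SD where
  vs := [
    ⟨nat_lit 0, nat_lit 0, nat_lit 20, (.ofNat (nat_lit 8)), (.negSucc (nat_lit 734669055)), (.ofNat (nat_lit 5873422552727399253426368814976)), (.negSucc (nat_lit 262143)), (.ofNat (nat_lit 5464429026194494831645163520)), (.negSucc (nat_lit 734669071)), (.negSucc (nat_lit 734669039)), (.negSucc (nat_lit 6948380877273379476366)), (.ofNat (nat_lit 6948380909456020873382)), (.negSucc (nat_lit 6948380877273379476366)), (.ofNat (nat_lit 6948380909456020873382)), (.ofNat (nat_lit 0))⟩,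
    ⟨nat_lit 2, nat_lit 0, nat_lit 1, (.ofNat (nat_lit 8)), (.negSucc (nat_lit 1764296127)), (.ofNat (nat_lit 13027663610535180307223016222400)), (.negSucc (nat_lit 344096383)), (.ofNat (nat_lit 2394555687194020199319890569600)), (.negSucc (nat_lit 1764296143)), (.negSucc (nat_lit 1764296111)), (.negSucc (nat_lit 6948380877273379476366)), (.ofNat (nat_lit 6948380877146047116175)), (.negSucc (nat_lit 6948380877273379476366)), (.ofNat (nat_lit 6948380877146047116175)), (.ofNat (nat_lit 0))⟩,
    ⟨nat_lit 0, nat_lit 1, nat_lit 2, (.ofNat (nat_lit 8)), (.negSucc (nat_lit 1611351679)), (.ofNat (nat_lit 14090379888284038298788393468800)), (.negSucc (nat_lit 343309951)), (.ofNat (nat_lit 2400020116263995919445558307200)), (.negSucc (nat_lit 1611351695)), (.negSucc (nat_lit 1611351663)), (.ofNat (nat_lit 6948380877146047116175)), (.negSucc (nat_lit 6948380877146047116174)), (.negSucc (nat_lit 6948380877146047116174)), (.ofNat (nat_lit 6948380877146047116175)), (.ofNat (nat_lit 0))⟩,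
    ⟨nat_lit 0, nat_lit 2, nat_lit 3, (.ofNat (nat_lit 8)), (.negSucc (nat_lit 1404956287)), (.ofNat (nat_lit 12656266093380176062994984803200)), (.negSucc (nat_lit 342261375)), (.ofNat (nat_lit 2392734210837361625944667990400)), (.negSucc (nat_lit 1404956303)), (.negSucc (nat_lit 1404956271)), (.negSucc (nat_lit 6948380877146047116174)), (.ofNat (nat_lit 6948380877146047116175)), (.negSucc (nat_lit 6948380877146047116174)), (.ofNat (nat_lit 6948380877146047116175)), (.ofNat (nat_lit 0))⟩,
    ⟨nat_lit 1, nat_lit 3, nat_lit 4, (.ofNat (nat_lit 8)), (.negSucc (nat_lit 432697663)), (.ofNat (nat_lit 19411889324022104879206458446400)), (.negSucc (nat_lit 340688511)), (.ofNat (nat_lit 2403663068977313066196003465600)), (.negSucc (nat_lit 432697679)), (.negSucc (nat_lit 432697647)), (.ofNat (nat_lit 6948380877146047116175)), (.negSucc (nat_lit 6948380877146047116174)), (.negSucc (nat_lit 6948380877146047116174)), (.ofNat (nat_lit 6948380877146047116175)), (.ofNat (nat_lit 0))⟩,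
    ⟨nat_lit 0, nat_lit 5, nat_lit 4, (.ofNat (nat_lit 8)), (.negSucc (nat_lit 672983359)), (.ofNat (nat_lit 21081485859160233304165361179200)), (.negSucc (nat_lit 341999231)), (.ofNat (nat_lit 2412770450760605933072116361600)), (.negSucc (nat_lit 672983375)), (.negSucc (nat_lit 672983343)), (.ofNat (nat_lit 6948380877146047116175)), (.negSucc (nat_lit 6948380877146047116174)), (.negSucc (nat_lit 6948380877146047116174)), (.ofNat (nat_lit 6948380877146047116175)), (.ofNat (nat_lit 0))⟩,
    ⟨nat_lit 2, nat_lit 6, nat_lit 5, (.ofNat (nat_lit 8)), (.negSucc (nat_lit 1723000447)), (.ofNat (nat_lit 13785567204224455160528489980800)), (.negSucc (nat_lit 344096383)), (.ofNat (nat_lit 2398198639907337346070335728000)), (.negSucc (nat_lit 1723000463)), (.negSucc (nat_lit 1723000431)), (.negSucc (nat_lit 6948380877146047116174)), (.ofNat (nat_lit 6948380877146047116175)), (.negSucc (nat_lit 6948380877146047116174)), (.ofNat (nat_lit 6948380877146047116175)), (.ofNat (nat_lit 0))⟩,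
    ⟨nat_lit 0, nat_lit 7, nat_lit 8, (.ofNat (nat_lit 8)), (.negSucc (nat_lit 1433183871)), (.ofNat (nat_lit 13601939619018812732138863715200)), (.negSucc (nat_lit 342261375)), (.ofNat (nat_lit 2396377163550678772695113148800)), (.negSucc (nat_lit 1433183887)), (.negSucc (nat_lit 1433183855)), (.ofNat (nat_lit 6948380877146047116175)), (.negSucc (nat_lit 6948380877146047116174)), (.negSucc (nat_lit 6948380877146047116174)), (.ofNat (nat_lit 6948380877146047116175)), (.ofNat (nat_lit 0))⟩,
    ⟨nat_lit 0, nat_lit 8, nat_lit 9, (.ofNat (nat_lit 8)), (.ofNat (nat_lit 243580672)), (.ofNat (nat_lit 1951140926012701017983174816000)), (.ofNat (nat_lit 1310720)), (.ofNat (nat_lit 9107381783292866876112896000)), (.ofNat (nat_lit 243580656)), (.ofNat (nat_lit 243580688)), (.negSucc (nat_lit 6948380877146047116174)), (.ofNat (nat_lit 6948380877146047116175)), (.negSucc (nat_lit 6948380877146047116174)), (.ofNat (nat_lit 6948380877146047116175)), (.ofNat (nat_lit 0))⟩,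
    ⟨nat_lit 1, nat_lit 9, nat_lit 10, (.ofNat (nat_lit 8)), (.ofNat (nat_lit 1132608576)), (.ofNat (nat_lit 8128445413415532787561479563200)), (.ofNat (nat_lit 2359296)), (.ofNat (nat_lit 16393287209927160377003212800)), (.ofNat (nat_lit 1132608560)), (.ofNat (nat_lit 1132608592)), (.ofNat (nat_lit 6948380877146047116175)), (.negSucc (nat_lit 6948380922879881937592)), (.negSucc (nat_lit 6948380922879881937592)), (.ofNat (nat_lit 6948380877146047116175)), (.ofNat (nat_lit 0))⟩,
    ⟨nat_lit 0, nat_lit 20, nat_lit 10, (.ofNat (nat_lit 8)), (.ofNat (nat_lit 361239424)), (.ofNat (nat_lit 13488212113670364715622708894336)), (.ofNat (nat_lit 1835008)), (.ofNat (nat_lit 20036239947222007918299971584)), (.ofNat (nat_lit 361239408)), (.ofNat (nat_lit 361239440)), (.ofNat (nat_lit 6948380909456020873382)), (.negSucc (nat_lit 6948380922879881937592)), (.negSucc (nat_lit 6948380922879881937592)), (.ofNat (nat_lit 6948380909456020873382)), (.ofNat (nat_lit 0))⟩,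
    ⟨nat_lit 1, nat_lit 11, nat_lit 19, (.ofNat (nat_lit 8)), (.ofNat (nat_lit 14259456)), (.ofNat (nat_lit 11310412077641045364049031152000)), (.negSucc (nat_lit 340950655)), (.ofNat (nat_lit 2394555687194020199319890569600)), (.ofNat (nat_lit 14259440)), (.ofNat (nat_lit 14259472)), (.ofNat (nat_lit 6948380877146047116175)), (.negSucc (nat_lit 6948380877146047116174)), (.negSucc (nat_lit 6948380877146047116174)), (.ofNat (nat_lit 6948380877146047116175)), (.ofNat (nat_lit 0))⟩,
    ⟨nat_lit 0, nat_lit 12, nat_lit 11, (.ofNat (nat_lit 8)), (.negSucc (nat_lit 528705983)), (.ofNat (nat_lit 7537681397393855947354341160000)), (.negSucc (nat_lit 341212799)), (.ofNat (nat_lit 2392734210837361625944667990400)), (.negSucc (nat_lit 528705999)), (.negSucc (nat_lit 528705967)), (.negSucc (nat_lit 6948380877146047116174)), (.ofNat (nat_lit 6948380877146047116175)), (.negSucc (nat_lit 6948380877146047116174)), (.ofNat (nat_lit 6948380877146047116175)), (.ofNat (nat_lit 0))⟩,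
    ⟨nat_lit 0, nat_lit 13, nat_lit 12, (.ofNat (nat_lit 8)), (.negSucc (nat_lit 1448228479)), (.ofNat (nat_lit 13926873924705858548153179132800)), (.negSucc (nat_lit 342261375)), (.ofNat (nat_lit 2400020116263995919445558307200)), (.negSucc (nat_lit 1448228495)), (.negSucc (nat_lit 1448228463)), (.ofNat (nat_lit 6948380877146047116175)), (.negSucc (nat_lit 6948380877146047116174)), (.negSucc (nat_lit 6948380877146047116174)), (.ofNat (nat_lit 6948380877146047116175)), (.ofNat (nat_lit 0))⟩,
    ⟨nat_lit 0, nat_lit 6, nat_lit 13, (.ofNat (nat_lit 8)), (.negSucc (nat_lit 1595782783)), (.ofNat (nat_lit 12901610420451664059574769865600)), (.negSucc (nat_lit 343309951)), (.ofNat (nat_lit 2392734210837361625944667990400)), (.negSucc (nat_lit 1595782799)), (.negSucc (nat_lit 1595782767)), (.negSucc (nat_lit 6948380877146047116174)), (.ofNat (nat_lit 6948380877146047116175)), (.negSucc (nat_lit 6948380877146047116174)), (.ofNat (nat_lit 6948380877146047116175)), (.ofNat (nat_lit 0))⟩,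
    ⟨nat_lit 0, nat_lit 21, nat_lit 14, (.ofNat (nat_lit 8)), (.negSucc (nat_lit 126108543)), (.ofNat (nat_lit 1320689537206270506036506553600)), (.negSucc (nat_lit 262143)), (.ofNat (nat_lit 1821476356658573375222579200)), (.negSucc (nat_lit 126108559)), (.negSucc (nat_lit 126108527)), (.negSucc (nat_lit 6948380877146047116174)), (.ofNat (nat_lit 6948380877146047116175)), (.negSucc (nat_lit 6948380877146047116174)), (.ofNat (nat_lit 6948380877146047116175)), (.ofNat (nat_lit 0))⟩,
    ⟨nat_lit 1, nat_lit 14, nat_lit 15, (.ofNat (nat_lit 8)), (.ofNat (nat_lit 846690816)), (.ofNat (nat_lit 8080070007530183767181392201600)), (.ofNat (nat_lit 1835008)), (.ofNat (nat_lit 16393287209927160377003212800)), (.ofNat (nat_lit 846690800)), (.ofNat (nat_lit 846690832)), (.ofNat (nat_lit 6948380877146047116175)), (.negSucc (nat_lit 6948380877146047116174)), (.negSucc (nat_lit 6948380877146047116174)), (.ofNat (nat_lit 6948380877146047116175)), (.ofNat (nat_lit 0))⟩,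
    ⟨nat_lit 0, nat_lit 16, nat_lit 15, (.ofNat (nat_lit 8)), (.negSucc (nat_lit 574541887)), (.ofNat (nat_lit 17955336149978352113014189588800)), (.negSucc (nat_lit 340950655)), (.ofNat (nat_lit 2398198639907337346070335728000)), (.negSucc (nat_lit 574541903)), (.negSucc (nat_lit 574541871)), (.ofNat (nat_lit 6948380877146047116175)), (.negSucc (nat_lit 6948380877146047116174)), (.negSucc (nat_lit 6948380877146047116174)), (.ofNat (nat_lit 6948380877146047116175)), (.ofNat (nat_lit 0))⟩,
    ⟨nat_lit 0, nat_lit 17, nat_lit 16, (.ofNat (nat_lit 8)), (.negSucc (nat_lit 1400360575)), (.ofNat (nat_lit 12217233370289314299148367510400)), (.negSucc (nat_lit 342261375)), (.ofNat (nat_lit 2389091258124044479194222832000)), (.negSucc (nat_lit 1400360591)), (.negSucc (nat_lit 1400360559)), (.negSucc (nat_lit 6948380877146047116174)), (.ofNat (nat_lit 6948380877146047116175)), (.negSucc (nat_lit 6948380877146047116174)), (.ofNat (nat_lit 6948380877146047116175)), (.ofNat (nat_lit 0))⟩,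
    ⟨nat_lit 2, nat_lit 17, nat_lit 18, (.ofNat (nat_lit 8)), (.negSucc (nat_lit 1606755967)), (.ofNat (nat_lit 13651347165193176534941776176000)), (.negSucc (nat_lit 343309951)), (.ofNat (nat_lit 2396377163550678772695113148800)), (.negSucc (nat_lit 1606755983)), (.negSucc (nat_lit 1606755951)), (.negSucc (nat_lit 6948380877146047116174)), (.ofNat (nat_lit 6948380877146047116175)), (.negSucc (nat_lit 6948380877146047116174)), (.ofNat (nat_lit 6948380877146047116175)), (.ofNat (nat_lit 0))⟩,
    ⟨nat_lit 0, nat_lit 18, nat_lit 19, (.ofNat (nat_lit 8)), (.negSucc (nat_lit 964700095)), (.ofNat (nat_lit 18112595908257306687470601105600)), (.negSucc (nat_lit 342261375)), (.ofNat (nat_lit 2403663068977313066196003465600)), (.negSucc (nat_lit 964700111)), (.negSucc (nat_lit 964700079)), (.ofNat (nat_lit 6948380877146047116175)), (.negSucc (nat_lit 6948380877146047116174)), (.negSucc (nat_lit 6948380877146047116174)), (.ofNat (nat_lit 6948380877146047116175)), (.ofNat (nat_lit 0))⟩,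
    ⟨nat_lit 2, nat_lit 21, nat_lit 7, (.ofNat (nat_lit 8)), (.negSucc (nat_lit 1663395263)), (.ofNat (nat_lit 12002343185144840238226631249600)), (.negSucc (nat_lit 343572095)), (.ofNat (nat_lit 2387269781767385905819000252800)), (.negSucc (nat_lit 1663395279)), (.negSucc (nat_lit 1663395247)), (.negSucc (nat_lit 6948380877146047116174)), (.ofNat (nat_lit 6948380877146047116175)), (.negSucc (nat_lit 6948380877146047116174)), (.ofNat (nat_lit 6948380877146047116175)), (.ofNat (nat_lit 0))⟩]
  es := [
    ⟨nat_lit 1, nat_lit 0, (.negSucc (nat_lit 1764296127)), (.negSucc (nat_lit 734669055)), (.negSucc (nat_lit 1764296111)), (.negSucc (nat_lit 734669071)), (.negSucc (nat_lit 6948380877273379476366)), (.ofNat (nat_lit 0)), (.ofNat (nat_lit 3642952669502542042192412672))⟩,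
    ⟨nat_lit 1, nat_lit 2, (.negSucc (nat_lit 1764296127)), (.negSucc (nat_lit 1611351679)), (.negSucc (nat_lit 1764296111)), (.negSucc (nat_lit 1611351695)), (.ofNat (nat_lit 6948380877146047116175)), (.ofNat (nat_lit 0)), (.ofNat (nat_lit 4785468421674723251889335980800))⟩,
    ⟨nat_lit 2, nat_lit 3, (.negSucc (nat_lit 1611351679)), (.negSucc (nat_lit 1404956287)), (.negSucc (nat_lit 1611351663)), (.negSucc (nat_lit 1404956303)), (.negSucc (nat_lit 6948380877146047116174)), (.ofNat (nat_lit 0)), (.ofNat (nat_lit 14571810853268587001780633600))⟩,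
    ⟨nat_lit 3, nat_lit 4, (.negSucc (nat_lit 1404956287)), (.negSucc (nat_lit 432697663)), (.negSucc (nat_lit 1404956271)), (.negSucc (nat_lit 432697679)), (.ofNat (nat_lit 6948380877146047116175)), (.ofNat (nat_lit 0)), (.ofNat (nat_lit 4770896610821454664887555347200))⟩,
    ⟨nat_lit 5, nat_lit 4, (.negSucc (nat_lit 672983359)), (.negSucc (nat_lit 432697663)), (.negSucc (nat_lit 672983343)), (.negSucc (nat_lit 432697679)), (.negSucc (nat_lit 6948380877146047116174)), (.ofNat (nat_lit 0)), (.ofNat (nat_lit 36429527133171467504451584000))⟩,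
    ⟨nat_lit 6, nat_lit 5, (.negSucc (nat_lit 1723000447)), (.negSucc (nat_lit 672983359)), (.negSucc (nat_lit 1723000431)), (.negSucc (nat_lit 672983375)), (.ofNat (nat_lit 6948380877146047116175)), (.ofNat (nat_lit 0)), (.ofNat (nat_lit 4789111374388040398639781139200))⟩,
    ⟨nat_lit 6, nat_lit 14, (.negSucc (nat_lit 1723000447)), (.negSucc (nat_lit 1595782783)), (.negSucc (nat_lit 1723000431)), (.negSucc (nat_lit 1595782799)), (.negSucc (nat_lit 6948380877146047116174)), (.ofNat (nat_lit 0)), (.ofNat (nat_lit 7285905426634293500890316800))⟩,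
    ⟨nat_lit 21, nat_lit 7, (.negSucc (nat_lit 1663395263)), (.negSucc (nat_lit 1433183871)), (.negSucc (nat_lit 1663395247)), (.negSucc (nat_lit 1433183887)), (.ofNat (nat_lit 6948380877146047116175)), (.ofNat (nat_lit 0)), (.ofNat (nat_lit 4774539563534771811638000505600))⟩,
    ⟨nat_lit 7, nat_lit 8, (.negSucc (nat_lit 1433183871)), (.ofNat (nat_lit 243580672)), (.negSucc (nat_lit 1433183855)), (.ofNat (nat_lit 243580656)), (.negSucc (nat_lit 6948380877146047116174)), (.ofNat (nat_lit 0)), (.ofNat (nat_lit 18214763566585733752225792000))⟩,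
    ⟨nat_lit 8, nat_lit 9, (.ofNat (nat_lit 243580672)), (.ofNat (nat_lit 1132608576)), (.ofNat (nat_lit 243580688)), (.ofNat (nat_lit 1132608560)), (.ofNat (nat_lit 6948380877146047116175)), (.ofNat (nat_lit 0)), (.ofNat (nat_lit 0))⟩,
    ⟨nat_lit 10, nat_lit 9, (.ofNat (nat_lit 361239424)), (.ofNat (nat_lit 1132608576)), (.ofNat (nat_lit 361239440)), (.ofNat (nat_lit 1132608560)), (.negSucc (nat_lit 6948380922879881937592)), (.ofNat (nat_lit 0)), (.ofNat (nat_lit 32786574527753974312838627328))⟩,
    ⟨nat_lit 12, nat_lit 11, (.negSucc (nat_lit 528705983)), (.ofNat (nat_lit 14259456)), (.negSucc (nat_lit 528705967)), (.ofNat (nat_lit 14259440)), (.ofNat (nat_lit 6948380877146047116175)), (.ofNat (nat_lit 0)), (.ofNat (nat_lit 4763610705394820371386665030400))⟩,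
    ⟨nat_lit 13, nat_lit 12, (.negSucc (nat_lit 1448228479)), (.negSucc (nat_lit 528705983)), (.negSucc (nat_lit 1448228463)), (.negSucc (nat_lit 528705999)), (.negSucc (nat_lit 6948380877146047116174)), (.ofNat (nat_lit 0)), (.ofNat (nat_lit 21857716279902880502670950400))⟩,
    ⟨nat_lit 14, nat_lit 13, (.negSucc (nat_lit 1595782783)), (.negSucc (nat_lit 1448228479)), (.negSucc (nat_lit 1595782767)), (.negSucc (nat_lit 1448228495)), (.ofNat (nat_lit 6948380877146047116175)), (.ofNat (nat_lit 0)), (.ofNat (nat_lit 4778182516248088958388445664000))⟩,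
    ⟨nat_lit 15, nat_lit 16, (.negSucc (nat_lit 126108543)), (.ofNat (nat_lit 846690816)), (.negSucc (nat_lit 126108527)), (.ofNat (nat_lit 846690800)), (.ofNat (nat_lit 6948380877146047116175)), (.ofNat (nat_lit 0)), (.ofNat (nat_lit 3642952713317146750445158400))⟩,
    ⟨nat_lit 17, nat_lit 16, (.negSucc (nat_lit 574541887)), (.ofNat (nat_lit 846690816)), (.negSucc (nat_lit 574541871)), (.ofNat (nat_lit 846690800)), (.negSucc (nat_lit 6948380877146047116174)), (.ofNat (nat_lit 0)), (.ofNat (nat_lit 29143621706537174003561267200))⟩,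
    ⟨nat_lit 18, nat_lit 17, (.negSucc (nat_lit 1400360575)), (.negSucc (nat_lit 574541887)), (.negSucc (nat_lit 1400360559)), (.negSucc (nat_lit 574541903)), (.ofNat (nat_lit 6948380877146047116175)), (.ofNat (nat_lit 0)), (.ofNat (nat_lit 4767253658108137518137110188800))⟩,
    ⟨nat_lit 19, nat_lit 18, (.negSucc (nat_lit 1606755967)), (.negSucc (nat_lit 1400360575)), (.negSucc (nat_lit 1606755951)), (.negSucc (nat_lit 1400360591)), (.negSucc (nat_lit 6948380877146047116174)), (.ofNat (nat_lit 0)), (.ofNat (nat_lit 10928858139951440251335475200))⟩,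
    ⟨nat_lit 19, nat_lit 20, (.negSucc (nat_lit 1606755967)), (.negSucc (nat_lit 964700095)), (.negSucc (nat_lit 1606755951)), (.negSucc (nat_lit 964700111)), (.ofNat (nat_lit 6948380877146047116175)), (.ofNat (nat_lit 0)), (.ofNat (nat_lit 4781825468961406105138890822400))⟩,
    ⟨nat_lit 20, nat_lit 11, (.negSucc (nat_lit 964700095)), (.ofNat (nat_lit 14259456)), (.negSucc (nat_lit 964700079)), (.ofNat (nat_lit 14259440)), (.negSucc (nat_lit 6948380877146047116174)), (.ofNat (nat_lit 0)), (.ofNat (nat_lit 25500668993220027253116108800))⟩,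
    ⟨nat_lit 0, nat_lit 10, (.negSucc (nat_lit 734669055)), (.ofNat (nat_lit 361239424)), (.negSucc (nat_lit 734669039)), (.ofNat (nat_lit 361239408)), (.ofNat (nat_lit 6948380909456020873382)), (.ofNat (nat_lit 0)), (.ofNat (nat_lit 7285905391322933967477014528))⟩,
    ⟨nat_lit 21, nat_lit 15, (.negSucc (nat_lit 1663395263)), (.negSucc (nat_lit 126108543)), (.negSucc (nat_lit 1663395247)), (.negSucc (nat_lit 126108559)), (.negSucc (nat_lit 6948380877146047116174)), (.ofNat (nat_lit 0)), (.ofNat (nat_lit 0))⟩]

theorem ok84 : stOK 21 21 S84 = true := by decide +kernel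

def S85 : SD where
  vs := [
    ⟨nat_lit 0, nat_lit 0, nat_lit 20, (.ofNat (nat_lit 8)), (.negSucc (nat_lit 734669055)), (.ofNat (nat_lit 5965194780246918225162473191040)), (.ofNat (nat_lit 0)), (.ofNat (nat_lit 91772227519518971736104376064)), (.negSucc (nat_lit 734669071)), (.negSucc (nat_lit 734669039)), (.negSucc (nat_lit 7056949328351454102364)), (.ofNat (nat_lit 7056949328351454102365)), (.negSucc (nat_lit 7056949328351454102364)), (.ofNat (nat_lit 7056949328351454102365)), (.ofNat (nat_lit 651410642103164961958))⟩,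
    ⟨nat_lit 2, nat_lit 0, nat_lit 1, (.ofNat (nat_lit 8)), (.negSucc (nat_lit 1764296127)), (.ofNat (nat_lit 13231220854449792499522936416320)), (.ofNat (nat_lit 0)), (.ofNat (nat_lit 203557243914612192299920193920)), (.negSucc (nat_lit 1764296143)), (.negSucc (nat_lit 1764296111)), (.negSucc (nat_lit 7056949328351454102364)), (.ofNat (nat_lit 7056949328351454102365)), (.negSucc (nat_lit 7056949328351454102364)), (.ofNat (nat_lit 7056949328351454102365)), (.ofNat (nat_lit 651410706723112476372))⟩,
    ⟨nat_lit 0, nat_lit 1, nat_lit 2, (.ofNat (nat_lit 8)), (.negSucc (nat_lit 1611351679)), (.ofNat (nat_lit 14310542074038476397206486835840)), (.ofNat (nat_lit 0)), (.ofNat (nat_lit 220162185754438098418093367040)), (.negSucc (nat_lit 1611351695)), (.negSucc (nat_lit 1611351663)), (.ofNat (nat_lit 7056949328351454102365)), (.negSucc (nat_lit 7056949328351454102364)), (.negSucc (nat_lit 7056949328351454102364)), (.ofNat (nat_lit 7056949328351454102365)), (.ofNat (nat_lit 651410707232441917140))⟩,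
    ⟨nat_lit 0, nat_lit 2, nat_lit 3, (.ofNat (nat_lit 8)), (.negSucc (nat_lit 1404956287)), (.ofNat (nat_lit 12854020251089241313978854533760)), (.ofNat (nat_lit 0)), (.ofNat (nat_lit 197754157709065250983869730560)), (.negSucc (nat_lit 1404956303)), (.negSucc (nat_lit 1404956271)), (.negSucc (nat_lit 7056949328351454102364)), (.ofNat (nat_lit 7056949328351454102365)), (.negSucc (nat_lit 7056949328351454102364)), (.ofNat (nat_lit 7056949328351454102365)), (.ofNat (nat_lit 651410707232441917140))⟩,
    ⟨nat_lit 1, nat_lit 3, nat_lit 4, (.ofNat (nat_lit 8)), (.negSucc (nat_lit 432697663)), (.ofNat (nat_lit 19715200094709950267943404579520)), (.ofNat (nat_lit 0)), (.ofNat (nat_lit 303310770687845388736946133120)), (.negSucc (nat_lit 432697679)), (.negSucc (nat_lit 432697647)), (.ofNat (nat_lit 7056949328351454102365)), (.negSucc (nat_lit 7056949328351454102364)), (.negSucc (nat_lit 7056949328351454102364)), (.ofNat (nat_lit 7056949328351454102365)), (.ofNat (nat_lit 651410707232441917140))⟩,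
    ⟨nat_lit 0, nat_lit 5, nat_lit 4, (.ofNat (nat_lit 8)), (.negSucc (nat_lit 672983359)), (.ofNat (nat_lit 21410884075709611949542233850560)), (.ofNat (nat_lit 0)), (.ofNat (nat_lit 329398216549378645376872671360)), (.negSucc (nat_lit 672983375)), (.negSucc (nat_lit 672983343)), (.ofNat (nat_lit 7056949328351454102365)), (.negSucc (nat_lit 7056949328351454102364)), (.negSucc (nat_lit 7056949328351454102364)), (.ofNat (nat_lit 7056949328351454102365)), (.ofNat (nat_lit 651410707232441917140))⟩,
    ⟨nat_lit 2, nat_lit 6, nat_lit 5, (.ofNat (nat_lit 8)), (.negSucc (nat_lit 1723000447)), (.ofNat (nat_lit 14000966691790462272411282637440)), (.ofNat (nat_lit 0)), (.ofNat (nat_lit 215399487566007111882792656640)), (.negSucc (nat_lit 1723000463)), (.negSucc (nat_lit 1723000431)), (.negSucc (nat_lit 7056949328351454102364)), (.ofNat (nat_lit 7056949328351454102365)), (.negSucc (nat_lit 7056949328351454102364)), (.ofNat (nat_lit 7056949328351454102365)), (.ofNat (nat_lit 651410707232441917140))⟩,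
    ⟨nat_lit 0, nat_lit 7, nat_lit 8, (.ofNat (nat_lit 8)), (.negSucc (nat_lit 1433183871)), (.ofNat (nat_lit 13814469925565981681078074655360)), (.ofNat (nat_lit 0)), (.ofNat (nat_lit 212530306547168948939210940160)), (.negSucc (nat_lit 1433183887)), (.negSucc (nat_lit 1433183855)), (.ofNat (nat_lit 7056949328351454102365)), (.negSucc (nat_lit 7056949328351454102364)), (.negSucc (nat_lit 7056949328351454102364)), (.ofNat (nat_lit 7056949328351454102365)), (.ofNat (nat_lit 651410707232441917140))⟩,
    ⟨nat_lit 0, nat_lit 8, nat_lit 9, (.ofNat (nat_lit 8)), (.ofNat (nat_lit 243580672)), (.ofNat (nat_lit 1981627502981649471389096108800)), (.ofNat (nat_lit 0)), (.ofNat (nat_lit 30486576968948453405921292800)), (.ofNat (nat_lit 243580656)), (.ofNat (nat_lit 243580688)), (.negSucc (nat_lit 7056949328351454102364)), (.ofNat (nat_lit 7056949328351454102365)), (.negSucc (nat_lit 7056949328351454102364)), (.ofNat (nat_lit 7056949328351454102365)), (.ofNat (nat_lit 651410707232441917140))⟩,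
    ⟨nat_lit 1, nat_lit 9, nat_lit 10, (.ofNat (nat_lit 8)), (.ofNat (nat_lit 1132608576)), (.ofNat (nat_lit 8255452373000150487366853501760)), (.ofNat (nat_lit 0)), (.ofNat (nat_lit 127006959584617699805373938560)), (.ofNat (nat_lit 1132608560)), (.ofNat (nat_lit 1132608592)), (.ofNat (nat_lit 7056949328351454102365)), (.negSucc (nat_lit 7056949328351454102364)), (.negSucc (nat_lit 7056949328351454102364)), (.ofNat (nat_lit 7056949328351454102365)), (.ofNat (nat_lit 651410615764772274304))⟩,
    ⟨nat_lit 0, nat_lit 20, nat_lit 10, (.ofNat (nat_lit 8)), (.ofNat (nat_lit 361239424)), (.ofNat (nat_lit 13698965392117581196275064746240)), (.ofNat (nat_lit 0)), (.ofNat (nat_lit 210753278447216480652355851904)), (.ofNat (nat_lit 361239408)), (.ofNat (nat_lit 361239440)), (.ofNat (nat_lit 7056949328351454102365)), (.negSucc (nat_lit 7056949328351454102364)), (.negSucc (nat_lit 7056949328351454102364)), (.ofNat (nat_lit 7056949328351454102365)), (.ofNat (nat_lit 651410486524877245476))⟩,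
    ⟨nat_lit 1, nat_lit 11, nat_lit 19, (.ofNat (nat_lit 8)), (.ofNat (nat_lit 14259456)), (.ofNat (nat_lit 11487137266354186697861915753600)), (.ofNat (nat_lit 0)), (.ofNat (nat_lit 176725188713141333812884601600)), (.ofNat (nat_lit 14259440)), (.ofNat (nat_lit 14259472)), (.ofNat (nat_lit 7056949328351454102365)), (.negSucc (nat_lit 7056949328351454102364)), (.negSucc (nat_lit 7056949328351454102364)), (.ofNat (nat_lit 7056949328351454102365)), (.ofNat (nat_lit 651410707232441917140))⟩,
    ⟨nat_lit 0, nat_lit 12, nat_lit 11, (.ofNat (nat_lit 8)), (.negSucc (nat_lit 528705983)), (.ofNat (nat_lit 7655457669228134946531498488000)), (.ofNat (nat_lit 0)), (.ofNat (nat_lit 117776271834278999177157328000)), (.negSucc (nat_lit 528705999)), (.negSucc (nat_lit 528705967)), (.negSucc (nat_lit 7056949328351454102364)), (.ofNat (nat_lit 7056949328351454102365)), (.negSucc (nat_lit 7056949328351454102364)), (.ofNat (nat_lit 7056949328351454102365)), (.ofNat (nat_lit 651410707232441917140))⟩,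
    ⟨nat_lit 0, nat_lit 13, nat_lit 12, (.ofNat (nat_lit 8)), (.negSucc (nat_lit 1448228479)), (.ofNat (nat_lit 14144481329779387587967602791040)), (.ofNat (nat_lit 0)), (.ofNat (nat_lit 217607405073529039814423658240)), (.negSucc (nat_lit 1448228495)), (.negSucc (nat_lit 1448228463)), (.ofNat (nat_lit 7056949328351454102365)), (.negSucc (nat_lit 7056949328351454102364)), (.negSucc (nat_lit 7056949328351454102364)), (.ofNat (nat_lit 7056949328351454102365)), (.ofNat (nat_lit 651410707232441917140))⟩,
    ⟨nat_lit 0, nat_lit 6, nat_lit 13, (.ofNat (nat_lit 8)), (.negSucc (nat_lit 1595782783)), (.ofNat (nat_lit 13103198083271221310505190462080)), (.ofNat (nat_lit 0)), (.ofNat (nat_lit 201587662819557250930420596480)), (.negSucc (nat_lit 1595782799)), (.negSucc (nat_lit 1595782767)), (.negSucc (nat_lit 7056949328351454102364)), (.ofNat (nat_lit 7056949328351454102365)), (.negSucc (nat_lit 7056949328351454102364)), (.ofNat (nat_lit 7056949328351454102365)), (.ofNat (nat_lit 651410707232441917140))⟩,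
    ⟨nat_lit 0, nat_lit 21, nat_lit 14, (.ofNat (nat_lit 8)), (.negSucc (nat_lit 126108543)), (.ofNat (nat_lit 1341325311225118482693282420480)), (.ofNat (nat_lit 0)), (.ofNat (nat_lit 20635774018847976656775866880)), (.negSucc (nat_lit 126108559)), (.negSucc (nat_lit 126108527)), (.negSucc (nat_lit 7056949328351454102364)), (.ofNat (nat_lit 7056949328351454102365)), (.negSucc (nat_lit 7056949328351454102364)), (.ofNat (nat_lit 7056949328351454102365)), (.ofNat (nat_lit 651410707232441917140))⟩,
    ⟨nat_lit 1, nat_lit 14, nat_lit 15, (.ofNat (nat_lit 8)), (.ofNat (nat_lit 846690816)), (.ofNat (nat_lit 8206321101397842888543328906880)), (.ofNat (nat_lit 0)), (.ofNat (nat_lit 126251093867659121361936705280)), (.ofNat (nat_lit 846690800)), (.ofNat (nat_lit 846690832)), (.ofNat (nat_lit 7056949328351454102365)), (.negSucc (nat_lit 7056949328351454102364)), (.negSucc (nat_lit 7056949328351454102364)), (.ofNat (nat_lit 7056949328351454102365)), (.ofNat (nat_lit 651410707232441917140))⟩,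
    ⟨nat_lit 0, nat_lit 16, nat_lit 15, (.ofNat (nat_lit 8)), (.negSucc (nat_lit 574541887)), (.ofNat (nat_lit 18235888277321763864779430651840)), (.ofNat (nat_lit 0)), (.ofNat (nat_lit 280552127343411751765241063040)), (.negSucc (nat_lit 574541903)), (.negSucc (nat_lit 574541871)), (.ofNat (nat_lit 7056949328351454102365)), (.negSucc (nat_lit 7056949328351454102364)), (.negSucc (nat_lit 7056949328351454102364)), (.ofNat (nat_lit 7056949328351454102365)), (.ofNat (nat_lit 651410707232441917140))⟩,
    ⟨nat_lit 0, nat_lit 17, nat_lit 16, (.ofNat (nat_lit 8)), (.negSucc (nat_lit 1400360575)), (.ofNat (nat_lit 12408127641700084835072148654720)), (.ofNat (nat_lit 0)), (.ofNat (nat_lit 190894271410770535923781144320)), (.negSucc (nat_lit 1400360591)), (.negSucc (nat_lit 1400360559)), (.negSucc (nat_lit 7056949328351454102364)), (.ofNat (nat_lit 7056949328351454102365)), (.negSucc (nat_lit 7056949328351454102364)), (.ofNat (nat_lit 7056949328351454102365)), (.ofNat (nat_lit 651410707232441917140))⟩,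
    ⟨nat_lit 2, nat_lit 17, nat_lit 18, (.ofNat (nat_lit 8)), (.negSucc (nat_lit 1606755967)), (.ofNat (nat_lit 13864649464649319918299780956800)), (.ofNat (nat_lit 0)), (.ofNat (nat_lit 213302299456143383358004780800)), (.negSucc (nat_lit 1606755983)), (.negSucc (nat_lit 1606755951)), (.negSucc (nat_lit 7056949328351454102364)), (.ofNat (nat_lit 7056949328351454102365)), (.negSucc (nat_lit 7056949328351454102364)), (.ofNat (nat_lit 7056949328351454102365)), (.ofNat (nat_lit 651410707232441917140))⟩,
    ⟨nat_lit 0, nat_lit 18, nat_lit 19, (.ofNat (nat_lit 8)), (.negSucc (nat_lit 964700095)), (.ofNat (nat_lit 18395605219323827104461718294080)), (.ofNat (nat_lit 0)), (.ofNat (nat_lit 283009311066520416991117188480)), (.negSucc (nat_lit 964700111)), (.negSucc (nat_lit 964700079)), (.ofNat (nat_lit 7056949328351454102365)), (.negSucc (nat_lit 7056949328351454102364)), (.negSucc (nat_lit 7056949328351454102364)), (.ofNat (nat_lit 7056949328351454102365)), (.ofNat (nat_lit 651410707232441917140))⟩,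
    ⟨nat_lit 2, nat_lit 21, nat_lit 7, (.ofNat (nat_lit 8)), (.negSucc (nat_lit 1663395263)), (.ofNat (nat_lit 12189879797412728366948517513280)), (.ofNat (nat_lit 0)), (.ofNat (nat_lit 187536612267888128721886263680)), (.negSucc (nat_lit 1663395279)), (.negSucc (nat_lit 1663395247)), (.negSucc (nat_lit 7056949328351454102364)), (.ofNat (nat_lit 7056949328351454102365)), (.negSucc (nat_lit 7056949328351454102364)), (.ofNat (nat_lit 7056949328351454102365)), (.ofNat (nat_lit 651410707232441917140))⟩]
  es := [
    ⟨nat_lit 1, nat_lit 0, (.negSucc (nat_lit 1764296127)), (.negSucc (nat_lit 734669055)), (.negSucc (nat_lit 1764296111)), (.negSucc (nat_lit 734669071)), (.negSucc (nat_lit 7056949328351454102364)), (.negSucc (nat_lit 108568451078074625997)), (.ofNat (nat_lit 12010346054607703956600658176))⟩,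
    ⟨nat_lit 1, nat_lit 2, (.negSucc (nat_lit 1764296127)), (.negSucc (nat_lit 1611351679)), (.negSucc (nat_lit 1764296111)), (.negSucc (nat_lit 1611351695)), (.ofNat (nat_lit 7056949328351454102365)), (.ofNat (nat_lit 108568451205406986190)), (.ofNat (nat_lit 395104141999268670699086666240))⟩,
    ⟨nat_lit 2, nat_lit 3, (.negSucc (nat_lit 1611351679)), (.negSucc (nat_lit 1404956287)), (.negSucc (nat_lit 1611351663)), (.negSucc (nat_lit 1404956303)), (.negSucc (nat_lit 7056949328351454102364)), (.negSucc (nat_lit 108568451205406986189)), (.ofNat (nat_lit 45220229509607526137100067840))⟩,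
    ⟨nat_lit 3, nat_lit 4, (.negSucc (nat_lit 1404956287)), (.negSucc (nat_lit 432697663)), (.negSucc (nat_lit 1404956271)), (.negSucc (nat_lit 432697679)), (.ofNat (nat_lit 7056949328351454102365)), (.ofNat (nat_lit 108568451205406986190)), (.ofNat (nat_lit 350288085908522975830639393280))⟩,
    ⟨nat_lit 5, nat_lit 4, (.negSucc (nat_lit 672983359)), (.negSucc (nat_lit 432697663)), (.negSucc (nat_lit 672983343)), (.negSucc (nat_lit 432697679)), (.negSucc (nat_lit 7056949328351454102364)), (.negSucc (nat_lit 108568451205406986189)), (.ofNat (nat_lit 256333455467167801643252872960))⟩,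
    ⟨nat_lit 6, nat_lit 5, (.negSucc (nat_lit 1723000447)), (.negSucc (nat_lit 672983359)), (.negSucc (nat_lit 1723000431)), (.negSucc (nat_lit 672983375)), (.ofNat (nat_lit 7056949328351454102365)), (.ofNat (nat_lit 108568451205406986190)), (.ofNat (nat_lit 402462977631589489110492469760))⟩,
    ⟨nat_lit 6, nat_lit 14, (.negSucc (nat_lit 1723000447)), (.negSucc (nat_lit 1595782783)), (.negSucc (nat_lit 1723000431)), (.negSucc (nat_lit 1595782799)), (.negSucc (nat_lit 7056949328351454102364)), (.negSucc (nat_lit 108568451205406986189)), (.ofNat (nat_lit 28335997500424734655092843520))⟩,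
    ⟨nat_lit 21, nat_lit 7, (.negSucc (nat_lit 1663395263)), (.negSucc (nat_lit 1433183871)), (.negSucc (nat_lit 1663395247)), (.negSucc (nat_lit 1433183887)), (.ofNat (nat_lit 7056949328351454102365)), (.ofNat (nat_lit 108568451205406986190)), (.ofNat (nat_lit 368128859822777200742845667840))⟩,
    ⟨nat_lit 7, nat_lit 8, (.negSucc (nat_lit 1433183871)), (.ofNat (nat_lit 243580672)), (.negSucc (nat_lit 1433183855)), (.ofNat (nat_lit 243580656)), (.negSucc (nat_lit 7056949328351454102364)), (.negSucc (nat_lit 108568451205406986189)), (.ofNat (nat_lit 56931753271560697135576212480))⟩,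
    ⟨nat_lit 8, nat_lit 9, (.ofNat (nat_lit 243580672)), (.ofNat (nat_lit 1132608576)), (.ofNat (nat_lit 243580688)), (.ofNat (nat_lit 1132608560)), (.ofNat (nat_lit 7056949328351454102365)), (.ofNat (nat_lit 108568451205406986190)), (.ofNat (nat_lit 4041400666336209676266373120))⟩,
    ⟨nat_lit 10, nat_lit 9, (.ofNat (nat_lit 361239424)), (.ofNat (nat_lit 1132608576)), (.ofNat (nat_lit 361239440)), (.ofNat (nat_lit 1132608560)), (.negSucc (nat_lit 7056949328351454102364)), (.negSucc (nat_lit 108568405471572164771)), (.ofNat (nat_lit 249972466704365657829026223232))⟩,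
    ⟨nat_lit 12, nat_lit 11, (.negSucc (nat_lit 528705983)), (.ofNat (nat_lit 14259456)), (.negSucc (nat_lit 528705967)), (.ofNat (nat_lit 14259440)), (.ofNat (nat_lit 7056949328351454102365)), (.ofNat (nat_lit 108568451205406986190)), (.ofNat (nat_lit 175177061660189685931215688960))⟩,
    ⟨nat_lit 13, nat_lit 12, (.negSucc (nat_lit 1448228479)), (.negSucc (nat_lit 528705983)), (.negSucc (nat_lit 1448228463)), (.negSucc (nat_lit 528705999)), (.negSucc (nat_lit 7056949328351454102364)), (.negSucc (nat_lit 108568451205406986189)), (.ofNat (nat_lit 60375482008368312423098967040))⟩,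
    ⟨nat_lit 14, nat_lit 13, (.negSucc (nat_lit 1595782783)), (.negSucc (nat_lit 1448228479)), (.negSucc (nat_lit 1595782767)), (.negSucc (nat_lit 1448228495)), (.ofNat (nat_lit 7056949328351454102365)), (.ofNat (nat_lit 108568451205406986190)), (.ofNat (nat_lit 374839328138689767205748349440))⟩,
    ⟨nat_lit 15, nat_lit 16, (.negSucc (nat_lit 126108543)), (.ofNat (nat_lit 846690816)), (.negSucc (nat_lit 126108527)), (.ofNat (nat_lit 846690800)), (.ofNat (nat_lit 7056949328351454102365)), (.ofNat (nat_lit 108568451205406986190)), (.ofNat (nat_lit 34327183324696896612624874240))⟩,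
    ⟨nat_lit 17, nat_lit 16, (.negSucc (nat_lit 574541887)), (.ofNat (nat_lit 846690816)), (.negSucc (nat_lit 574541871)), (.ofNat (nat_lit 846690800)), (.negSucc (nat_lit 7056949328351454102364)), (.negSucc (nat_lit 108568451205406986189)), (.ofNat (nat_lit 218175004410621346111248536320))⟩,
    ⟨nat_lit 18, nat_lit 17, (.negSucc (nat_lit 1400360575)), (.negSucc (nat_lit 574541887)), (.negSucc (nat_lit 1400360559)), (.negSucc (nat_lit 574541903)), (.ofNat (nat_lit 7056949328351454102365)), (.ofNat (nat_lit 108568451205406986190)), (.ofNat (nat_lit 342929250276202157419233589760))⟩,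
    ⟨nat_lit 19, nat_lit 18, (.negSucc (nat_lit 1606755967)), (.negSucc (nat_lit 1400360575)), (.negSucc (nat_lit 1606755951)), (.negSucc (nat_lit 1400360591)), (.negSucc (nat_lit 7056949328351454102364)), (.negSucc (nat_lit 108568451205406986189)), (.ofNat (nat_lit 38859292545338914428328698880))⟩,
    ⟨nat_lit 19, nat_lit 20, (.negSucc (nat_lit 1606755967)), (.negSucc (nat_lit 964700095)), (.negSucc (nat_lit 1606755951)), (.negSucc (nat_lit 964700111)), (.ofNat (nat_lit 7056949328351454102365)), (.ofNat (nat_lit 108568451205406986190)), (.ofNat (nat_lit 387745306366947852287680862720))⟩,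
    ⟨nat_lit 20, nat_lit 11, (.negSucc (nat_lit 964700095)), (.ofNat (nat_lit 14259456)), (.negSucc (nat_lit 964700079)), (.ofNat (nat_lit 14259440)), (.negSucc (nat_lit 7056949328351454102364)), (.negSucc (nat_lit 108568451205406986189)), (.ofNat (nat_lit 178273315766092981694553514240))⟩,
    ⟨nat_lit 0, nat_lit 10, (.negSucc (nat_lit 734669055)), (.ofNat (nat_lit 361239424)), (.negSucc (nat_lit 734669039)), (.ofNat (nat_lit 361239408)), (.ofNat (nat_lit 7056949328351454102365)), (.ofNat (nat_lit 108568418895433228983)), (.ofNat (nat_lit 171534085340839464784076826112))⟩,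
    ⟨nat_lit 21, nat_lit 15, (.negSucc (nat_lit 1663395263)), (.negSucc (nat_lit 126108543)), (.negSucc (nat_lit 1663395247)), (.negSucc (nat_lit 126108559)), (.negSucc (nat_lit 7056949328351454102364)), (.negSucc (nat_lit 108568451205406986189)), (.ofNat (nat_lit 6944364712999056700926859520))⟩]

theorem ok85 : stOK 21 21 S85 = true := by decide +kernel

def S86 : SD where
  vs := [
    ⟨nat_lit 0, nat_lit 0, nat_lit 20, (.ofNat (nat_lit 8)), (.negSucc (nat_lit 734931199)), (.ofNat (nat_lit 5970744591021112315915104302720)), (.negSucc (nat_lit 262143)), (.ofNat (nat_lit 5549810774194090752631111680)), (.negSucc (nat_lit 734931215)), (.negSucc (nat_lit 734931183)), (.negSucc (nat_lit 7056949328351454102364)), (.ofNat (nat_lit 7056949328351454102365)), (.negSucc (nat_lit 7056949328351454102364)), (.ofNat (nat_lit 7056949328351454102365)), (.ofNat (nat_lit 0))⟩,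
    ⟨nat_lit 2, nat_lit 0, nat_lit 1, (.ofNat (nat_lit 8)), (.negSucc (nat_lit 1766393279)), (.ofNat (nat_lit 13249720223697106135365040121920)), (.negSucc (nat_lit 2097151)), (.ofNat (nat_lit 18499369247313635842103705600)), (.negSucc (nat_lit 1766393295)), (.negSucc (nat_lit 1766393263)), (.negSucc (nat_lit 7056949328351454102364)), (.ofNat (nat_lit 7056949328351454102365)), (.negSucc (nat_lit 7056949328351454102364)), (.ofNat (nat_lit 7056949328351454102365)), (.ofNat (nat_lit 0))⟩,
    ⟨nat_lit 0, nat_lit 1, nat_lit 2, (.ofNat (nat_lit 8)), (.negSucc (nat_lit 1612662399)), (.ofNat (nat_lit 14334591254059984123801221653120)), (.negSucc (nat_lit 1310719)), (.ofNat (nat_lit 24049180021507726594734817280)), (.negSucc (nat_lit 1612662415)), (.negSucc (nat_lit 1612662383)), (.ofNat (nat_lit 7056949328351454102365)), (.negSucc (nat_lit 7056949328351454102364)), (.negSucc (nat_lit 7056949328351454102364)), (.ofNat (nat_lit 7056949328351454102365)), (.ofNat (nat_lit 0))⟩,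
    ⟨nat_lit 0, nat_lit 2, nat_lit 3, (.ofNat (nat_lit 8)), (.negSucc (nat_lit 1405218431)), (.ofNat (nat_lit 12870669683411823586236747868800)), (.negSucc (nat_lit 262143)), (.ofNat (nat_lit 16649432322582272257893335040)), (.negSucc (nat_lit 1405218447)), (.negSucc (nat_lit 1405218415)), (.negSucc (nat_lit 7056949328351454102364)), (.ofNat (nat_lit 7056949328351454102365)), (.negSucc (nat_lit 7056949328351454102364)), (.ofNat (nat_lit 7056949328351454102365)), (.ofNat (nat_lit 0))⟩,
    ⟨nat_lit 1, nat_lit 3, nat_lit 4, (.ofNat (nat_lit 8)), (.ofNat (nat_lit 161346560)), (.ofNat (nat_lit 23925839451525124655296541274880)), (.ofNat (nat_lit 594044224)), (.ofNat (nat_lit 4210639356815174387353136695360)), (.ofNat (nat_lit 161346544)), (.ofNat (nat_lit 161346576)), (.ofNat (nat_lit 7056949328351454102365)), (.negSucc (nat_lit 7056949328351454102364)), (.negSucc (nat_lit 7056949328351454102364)), (.ofNat (nat_lit 7056949328351454102365)), (.ofNat (nat_lit 0))⟩,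
    ⟨nat_lit 0, nat_lit 5, nat_lit 4, (.ofNat (nat_lit 8)), (.negSucc (nat_lit 80249855)), (.ofNat (nat_lit 25630773117148443154816422398720)), (.ofNat (nat_lit 592733504)), (.ofNat (nat_lit 4219889041438831205274188548160)), (.negSucc (nat_lit 80249871)), (.negSucc (nat_lit 80249839)), (.ofNat (nat_lit 7056949328351454102365)), (.negSucc (nat_lit 7056949328351454102364)), (.negSucc (nat_lit 7056949328351454102364)), (.ofNat (nat_lit 7056949328351454102365)), (.ofNat (nat_lit 0))⟩,
    ⟨nat_lit 2, nat_lit 6, nat_lit 5, (.ofNat (nat_lit 8)), (.negSucc (nat_lit 1725097599)), (.ofNat (nat_lit 14023165934887238635421807084160)), (.negSucc (nat_lit 2097151)), (.ofNat (nat_lit 22199243096776363010524446720)), (.negSucc (nat_lit 1725097615)), (.negSucc (nat_lit 1725097583)), (.negSucc (nat_lit 7056949328351454102364)), (.ofNat (nat_lit 7056949328351454102365)), (.negSucc (nat_lit 7056949328351454102364)), (.ofNat (nat_lit 7056949328351454102365)), (.ofNat (nat_lit 0))⟩,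
    ⟨nat_lit 0, nat_lit 7, nat_lit 8, (.ofNat (nat_lit 8)), (.negSucc (nat_lit 1433446015)), (.ofNat (nat_lit 13834819231738026680504388731520)), (.negSucc (nat_lit 262143)), (.ofNat (nat_lit 20349306172044999426314076160)), (.negSucc (nat_lit 1433446031)), (.negSucc (nat_lit 1433445999)), (.ofNat (nat_lit 7056949328351454102365)), (.negSucc (nat_lit 7056949328351454102364)), (.negSucc (nat_lit 7056949328351454102364)), (.ofNat (nat_lit 7056949328351454102365)), (.ofNat (nat_lit 0))⟩,
    ⟨nat_lit 0, nat_lit 8, nat_lit 9, (.ofNat (nat_lit 8)), (.ofNat (nat_lit 244891392)), (.ofNat (nat_lit 1990877187605306289310147961600)), (.ofNat (nat_lit 1310720)), (.ofNat (nat_lit 9249684623656817921051852800)), (.ofNat (nat_lit 244891376)), (.ofNat (nat_lit 244891408)), (.negSucc (nat_lit 7056949328351454102364)), (.ofNat (nat_lit 7056949328351454102365)), (.negSucc (nat_lit 7056949328351454102364)), (.ofNat (nat_lit 7056949328351454102365)), (.ofNat (nat_lit 0))⟩,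
    ⟨nat_lit 1, nat_lit 9, nat_lit 10, (.ofNat (nat_lit 8)), (.ofNat (nat_lit 1727701376)), (.ofNat (nat_lit 12454992108266936693214727973760)), (.ofNat (nat_lit 595092800)), (.ofNat (nat_lit 4199539735266786205847874472000)), (.ofNat (nat_lit 1727701360)), (.ofNat (nat_lit 1727701392)), (.ofNat (nat_lit 7056949328351454102365)), (.negSucc (nat_lit 7056949328351454102364)), (.negSucc (nat_lit 7056949328351454102364)), (.ofNat (nat_lit 7056949328351454102365)), (.ofNat (nat_lit 0))⟩,
    ⟨nat_lit 0, nat_lit 20, nat_lit 10, (.ofNat (nat_lit 8)), (.ofNat (nat_lit 955807936)), (.ofNat (nat_lit 17902205001233830129291359959360)), (.ofNat (nat_lit 594568512)), (.ofNat (nat_lit 4203239609116248933016295213120)), (.ofNat (nat_lit 955807920)), (.ofNat (nat_lit 955807952)), (.ofNat (nat_lit 7056949328351454102365)), (.negSucc (nat_lit 7056949328351454102364)), (.negSucc (nat_lit 7056949328351454102364)), (.ofNat (nat_lit 7056949328351454102365)), (.ofNat (nat_lit 0))⟩,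
    ⟨nat_lit 1, nat_lit 11, nat_lit 19, (.ofNat (nat_lit 8)), (.ofNat (nat_lit 15308032)), (.ofNat (nat_lit 11505636635601500333704019459200)), (.ofNat (nat_lit 1048576)), (.ofNat (nat_lit 18499369247313635842103705600)), (.ofNat (nat_lit 15308016)), (.ofNat (nat_lit 15308048)), (.ofNat (nat_lit 7056949328351454102365)), (.negSucc (nat_lit 7056949328351454102364)), (.negSucc (nat_lit 7056949328351454102364)), (.ofNat (nat_lit 7056949328351454102365)), (.ofNat (nat_lit 0))⟩,
    ⟨nat_lit 0, nat_lit 12, nat_lit 11, (.ofNat (nat_lit 8)), (.negSucc (nat_lit 527919551)), (.ofNat (nat_lit 7672107101550717218789391823040)), (.ofNat (nat_lit 786432)), (.ofNat (nat_lit 16649432322582272257893335040)), (.negSucc (nat_lit 527919567)), (.negSucc (nat_lit 527919535)), (.negSucc (nat_lit 7056949328351454102364)), (.ofNat (nat_lit 7056949328351454102365)), (.negSucc (nat_lit 7056949328351454102364)), (.ofNat (nat_lit 7056949328351454102365)), (.ofNat (nat_lit 0))⟩,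
    ⟨nat_lit 0, nat_lit 13, nat_lit 12, (.ofNat (nat_lit 8)), (.negSucc (nat_lit 1448490623)), (.ofNat (nat_lit 14168530509800895314562337608320)), (.negSucc (nat_lit 262143)), (.ofNat (nat_lit 24049180021507726594734817280)), (.negSucc (nat_lit 1448490639)), (.negSucc (nat_lit 1448490607)), (.ofNat (nat_lit 7056949328351454102365)), (.negSucc (nat_lit 7056949328351454102364)), (.negSucc (nat_lit 7056949328351454102364)), (.ofNat (nat_lit 7056949328351454102365)), (.ofNat (nat_lit 0))⟩,
    ⟨nat_lit 0, nat_lit 6, nat_lit 13, (.ofNat (nat_lit 8)), (.negSucc (nat_lit 1597093503)), (.ofNat (nat_lit 13119847515593803582763083797120)), (.negSucc (nat_lit 1310719)), (.ofNat (nat_lit 16649432322582272257893335040)), (.negSucc (nat_lit 1597093519)), (.negSucc (nat_lit 1597093487)), (.negSucc (nat_lit 7056949328351454102364)), (.ofNat (nat_lit 7056949328351454102365)), (.negSucc (nat_lit 7056949328351454102364)), (.ofNat (nat_lit 7056949328351454102365)), (.ofNat (nat_lit 0))⟩,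
    ⟨nat_lit 0, nat_lit 21, nat_lit 14, (.ofNat (nat_lit 8)), (.negSucc (nat_lit 126370687)), (.ofNat (nat_lit 1343175248149849846277492791040)), (.negSucc (nat_lit 262143)), (.ofNat (nat_lit 1849936924731363584210370560)), (.negSucc (nat_lit 126370703)), (.negSucc (nat_lit 126370671)), (.negSucc (nat_lit 7056949328351454102364)), (.ofNat (nat_lit 7056949328351454102365)), (.negSucc (nat_lit 7056949328351454102364)), (.ofNat (nat_lit 7056949328351454102365)), (.ofNat (nat_lit 0))⟩,
    ⟨nat_lit 1, nat_lit 14, nat_lit 15, (.ofNat (nat_lit 8)), (.ofNat (nat_lit 1441259328)), (.ofNat (nat_lit 12405860836664629094391203378880)), (.ofNat (nat_lit 594568512)), (.ofNat (nat_lit 4199539735266786205847874472000)), (.ofNat (nat_lit 1441259312)), (.ofNat (nat_lit 1441259344)), (.ofNat (nat_lit 7056949328351454102365)), (.negSucc (nat_lit 7056949328351454102364)), (.negSucc (nat_lit 7056949328351454102364)), (.ofNat (nat_lit 7056949328351454102365)), (.ofNat (nat_lit 0))⟩,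
    ⟨nat_lit 0, nat_lit 16, nat_lit 15, (.ofNat (nat_lit 8)), (.ofNat (nat_lit 19240192)), (.ofNat (nat_lit 22440977823362744161379936235520)), (.ofNat (nat_lit 593782080)), (.ofNat (nat_lit 4205089546040980296600505583680)), (.ofNat (nat_lit 19240176)), (.ofNat (nat_lit 19240208)), (.ofNat (nat_lit 7056949328351454102365)), (.negSucc (nat_lit 7056949328351454102364)), (.negSucc (nat_lit 7056949328351454102364)), (.ofNat (nat_lit 7056949328351454102365)), (.ofNat (nat_lit 0))⟩,
    ⟨nat_lit 0, nat_lit 17, nat_lit 16, (.ofNat (nat_lit 8)), (.negSucc (nat_lit 1400622719)), (.ofNat (nat_lit 12421077200173204380161621248640)), (.negSucc (nat_lit 262143)), (.ofNat (nat_lit 12949558473119545089472593920)), (.negSucc (nat_lit 1400622735)), (.negSucc (nat_lit 1400622703)), (.negSucc (nat_lit 7056949328351454102364)), (.ofNat (nat_lit 7056949328351454102365)), (.negSucc (nat_lit 7056949328351454102364)), (.ofNat (nat_lit 7056949328351454102365)), (.ofNat (nat_lit 0))⟩,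
    ⟨nat_lit 2, nat_lit 17, nat_lit 18, (.ofNat (nat_lit 8)), (.negSucc (nat_lit 1608066687)), (.ofNat (nat_lit 13884998770821364917726095032960)), (.negSucc (nat_lit 1310719)), (.ofNat (nat_lit 20349306172044999426314076160)), (.negSucc (nat_lit 1608066703)), (.negSucc (nat_lit 1608066671)), (.negSucc (nat_lit 7056949328351454102364)), (.ofNat (nat_lit 7056949328351454102365)), (.negSucc (nat_lit 7056949328351454102364)), (.ofNat (nat_lit 7056949328351454102365)), (.ofNat (nat_lit 0))⟩,
    ⟨nat_lit 0, nat_lit 18, nat_lit 19, (.ofNat (nat_lit 8)), (.negSucc (nat_lit 964962239)), (.ofNat (nat_lit 18423354273194797558224873852480)), (.negSucc (nat_lit 262143)), (.ofNat (nat_lit 27749053870970453763155558400)), (.negSucc (nat_lit 964962255)), (.negSucc (nat_lit 964962223)), (.ofNat (nat_lit 7056949328351454102365)), (.negSucc (nat_lit 7056949328351454102364)), (.negSucc (nat_lit 7056949328351454102364)), (.ofNat (nat_lit 7056949328351454102365)), (.ofNat (nat_lit 0))⟩,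
    ⟨nat_lit 2, nat_lit 21, nat_lit 7, (.ofNat (nat_lit 8)), (.negSucc (nat_lit 1664968127)), (.ofNat (nat_lit 12200979418961116548453779736640)), (.negSucc (nat_lit 1572863)), (.ofNat (nat_lit 11099621548388181505262223360)), (.negSucc (nat_lit 1664968143)), (.negSucc (nat_lit 1664968111)), (.negSucc (nat_lit 7056949328351454102364)), (.ofNat (nat_lit 7056949328351454102365)), (.negSucc (nat_lit 7056949328351454102364)), (.ofNat (nat_lit 7056949328351454102365)), (.ofNat (nat_lit 0))⟩]
  es := [
    ⟨nat_lit 1, nat_lit 0, (.negSucc (nat_lit 1766393279)), (.negSucc (nat_lit 734931199)), (.negSucc (nat_lit 1766393263)), (.negSucc (nat_lit 734931215)), (.negSucc (nat_lit 7056949328351454102364)), (.ofNat (nat_lit 0)), (.ofNat (nat_lit 3699873849462727168420741120))⟩,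
    ⟨nat_lit 1, nat_lit 2, (.negSucc (nat_lit 1766393279)), (.negSucc (nat_lit 1612662399)), (.negSucc (nat_lit 1766393263)), (.negSucc (nat_lit 1612662415)), (.ofNat (nat_lit 7056949328351454102365)), (.ofNat (nat_lit 0)), (.ofNat (nat_lit 33298864645164544515786670080))⟩,
    ⟨nat_lit 2, nat_lit 3, (.negSucc (nat_lit 1612662399)), (.negSucc (nat_lit 1405218431)), (.negSucc (nat_lit 1612662383)), (.negSucc (nat_lit 1405218447)), (.negSucc (nat_lit 7056949328351454102364)), (.ofNat (nat_lit 0)), (.ofNat (nat_lit 14799495397850908673682964480))⟩,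
    ⟨nat_lit 3, nat_lit 4, (.negSucc (nat_lit 1405218431)), (.ofNat (nat_lit 161346560)), (.negSucc (nat_lit 1405218415)), (.ofNat (nat_lit 161346544)), (.ofNat (nat_lit 7056949328351454102365)), (.ofNat (nat_lit 0)), (.ofNat (nat_lit 18499369247313635842103705600))⟩,
    ⟨nat_lit 5, nat_lit 4, (.negSucc (nat_lit 80249855)), (.ofNat (nat_lit 161346560)), (.negSucc (nat_lit 80249839)), (.ofNat (nat_lit 161346544)), (.negSucc (nat_lit 7056949328351454102364)), (.ofNat (nat_lit 0)), (.ofNat (nat_lit 8402779344383035138864169685120))⟩,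
    ⟨nat_lit 6, nat_lit 5, (.negSucc (nat_lit 1725097599)), (.negSucc (nat_lit 80249855)), (.negSucc (nat_lit 1725097583)), (.negSucc (nat_lit 80249871)), (.ofNat (nat_lit 7056949328351454102365)), (.ofNat (nat_lit 0)), (.ofNat (nat_lit 36998738494627271684207411200))⟩,
    ⟨nat_lit 6, nat_lit 14, (.negSucc (nat_lit 1725097599)), (.negSucc (nat_lit 1597093503)), (.negSucc (nat_lit 1725097583)), (.negSucc (nat_lit 1597093519)), (.negSucc (nat_lit 7056949328351454102364)), (.ofNat (nat_lit 0)), (.ofNat (nat_lit 7399747698925454336841482240))⟩,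
    ⟨nat_lit 21, nat_lit 7, (.negSucc (nat_lit 1664968127)), (.negSucc (nat_lit 1433446015)), (.negSucc (nat_lit 1664968111)), (.negSucc (nat_lit 1433446031)), (.ofNat (nat_lit 7056949328351454102365)), (.ofNat (nat_lit 0)), (.ofNat (nat_lit 22199243096776363010524446720))⟩,
    ⟨nat_lit 7, nat_lit 8, (.negSucc (nat_lit 1433446015)), (.ofNat (nat_lit 244891392)), (.negSucc (nat_lit 1433445999)), (.ofNat (nat_lit 244891376)), (.negSucc (nat_lit 7056949328351454102364)), (.ofNat (nat_lit 0)), (.ofNat (nat_lit 18499369247313635842103705600))⟩,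
    ⟨nat_lit 8, nat_lit 9, (.ofNat (nat_lit 244891392)), (.ofNat (nat_lit 1727701376)), (.ofNat (nat_lit 244891408)), (.ofNat (nat_lit 1727701360)), (.ofNat (nat_lit 7056949328351454102365)), (.ofNat (nat_lit 0)), (.ofNat (nat_lit 0))⟩,
    ⟨nat_lit 10, nat_lit 9, (.ofNat (nat_lit 955807936)), (.ofNat (nat_lit 1727701376)), (.ofNat (nat_lit 955807952)), (.ofNat (nat_lit 1727701360)), (.negSucc (nat_lit 7056949328351454102364)), (.ofNat (nat_lit 0)), (.ofNat (nat_lit 8399079470533572411695748944000))⟩,
    ⟨nat_lit 12, nat_lit 11, (.negSucc (nat_lit 527919551)), (.ofNat (nat_lit 15308032)), (.negSucc (nat_lit 527919535)), (.ofNat (nat_lit 15308016)), (.ofNat (nat_lit 7056949328351454102365)), (.ofNat (nat_lit 0)), (.ofNat (nat_lit 11099621548388181505262223360))⟩,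
    ⟨nat_lit 13, nat_lit 12, (.negSucc (nat_lit 1448490623)), (.negSucc (nat_lit 527919551)), (.negSucc (nat_lit 1448490607)), (.negSucc (nat_lit 527919567)), (.negSucc (nat_lit 7056949328351454102364)), (.ofNat (nat_lit 0)), (.ofNat (nat_lit 22199243096776363010524446720))⟩,
    ⟨nat_lit 14, nat_lit 13, (.negSucc (nat_lit 1597093503)), (.negSucc (nat_lit 1448490623)), (.negSucc (nat_lit 1597093487)), (.negSucc (nat_lit 1448490639)), (.ofNat (nat_lit 7056949328351454102365)), (.ofNat (nat_lit 0)), (.ofNat (nat_lit 25899116946239090178945187840))⟩,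
    ⟨nat_lit 15, nat_lit 16, (.negSucc (nat_lit 126370687)), (.ofNat (nat_lit 1441259328)), (.negSucc (nat_lit 126370671)), (.ofNat (nat_lit 1441259312)), (.ofNat (nat_lit 7056949328351454102365)), (.ofNat (nat_lit 0)), (.ofNat (nat_lit 3699873849462727168420741120))⟩,
    ⟨nat_lit 17, nat_lit 16, (.ofNat (nat_lit 19240192)), (.ofNat (nat_lit 1441259328)), (.ofNat (nat_lit 19240208)), (.ofNat (nat_lit 1441259312)), (.negSucc (nat_lit 7056949328351454102364)), (.ofNat (nat_lit 0)), (.ofNat (nat_lit 8395379596684109684527328202880))⟩,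
    ⟨nat_lit 18, nat_lit 17, (.negSucc (nat_lit 1400622719)), (.ofNat (nat_lit 19240192)), (.negSucc (nat_lit 1400622703)), (.ofNat (nat_lit 19240176)), (.ofNat (nat_lit 7056949328351454102365)), (.ofNat (nat_lit 0)), (.ofNat (nat_lit 14799495397850908673682964480))⟩,
    ⟨nat_lit 19, nat_lit 18, (.negSucc (nat_lit 1608066687)), (.negSucc (nat_lit 1400622719)), (.negSucc (nat_lit 1608066671)), (.negSucc (nat_lit 1400622735)), (.negSucc (nat_lit 7056949328351454102364)), (.ofNat (nat_lit 0)), (.ofNat (nat_lit 11099621548388181505262223360))⟩,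
    ⟨nat_lit 19, nat_lit 20, (.negSucc (nat_lit 1608066687)), (.negSucc (nat_lit 964962239)), (.negSucc (nat_lit 1608066671)), (.negSucc (nat_lit 964962255)), (.ofNat (nat_lit 7056949328351454102365)), (.ofNat (nat_lit 0)), (.ofNat (nat_lit 29598990795701817347365928960))⟩,
    ⟨nat_lit 20, nat_lit 11, (.negSucc (nat_lit 964962239)), (.ofNat (nat_lit 15308032)), (.negSucc (nat_lit 964962223)), (.ofNat (nat_lit 15308016)), (.negSucc (nat_lit 7056949328351454102364)), (.ofNat (nat_lit 0)), (.ofNat (nat_lit 25899116946239090178945187840))⟩,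
    ⟨nat_lit 0, nat_lit 10, (.negSucc (nat_lit 734931199)), (.ofNat (nat_lit 955807936)), (.negSucc (nat_lit 734931183)), (.ofNat (nat_lit 955807920)), (.ofNat (nat_lit 7056949328351454102365)), (.ofNat (nat_lit 0)), (.ofNat (nat_lit 7399747698925454336841482240))⟩,
    ⟨nat_lit 21, nat_lit 15, (.negSucc (nat_lit 1664968127)), (.negSucc (nat_lit 126370687)), (.negSucc (nat_lit 1664968111)), (.negSucc (nat_lit 126370703)), (.negSucc (nat_lit 7056949328351454102364)), (.ofNat (nat_lit 0)), (.ofNat (nat_lit 0))⟩]

theorem ok86 : stOK 21 21 S86 = true := by decide +kernel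

def S87 : SD where
  vs := [
    ⟨nat_lit 0, nat_lit 0, nat_lit 20, (.ofNat (nat_lit 8)), (.negSucc (nat_lit 734931199)), (.ofNat (nat_lit 6064037475255817195850894427392)), (.ofNat (nat_lit 0)), (.ofNat (nat_lit 93292884234704879935790124672)), (.negSucc (nat_lit 734931215)), (.negSucc (nat_lit 734931183)), (.negSucc (nat_lit 7167214161606945572713)), (.ofNat (nat_lit 7167214161606945572714)), (.negSucc (nat_lit 7167214161606945572713)), (.ofNat (nat_lit 7167214161606945572714)), (.ofNat (nat_lit 661588999532948822094))⟩,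
    ⟨nat_lit 2, nat_lit 0, nat_lit 1, (.ofNat (nat_lit 8)), (.negSucc (nat_lit 1766393279)), (.ofNat (nat_lit 13456747102192373418729268112512)), (.ofNat (nat_lit 0)), (.ofNat (nat_lit 207026878495267283364227990592)), (.negSucc (nat_lit 1766393295)), (.negSucc (nat_lit 1766393263)), (.negSucc (nat_lit 7167214161606945572713)), (.ofNat (nat_lit 7167214161606945572714)), (.negSucc (nat_lit 7167214161606945572713)), (.ofNat (nat_lit 7167214161606945572714)), (.ofNat (nat_lit 661588999532948822094))⟩,
    ⟨nat_lit 0, nat_lit 1, nat_lit 2, (.ofNat (nat_lit 8)), (.negSucc (nat_lit 1612662399)), (.ofNat (nat_lit 14558569242404671375734695320832)), (.ofNat (nat_lit 0)), (.ofNat (nat_lit 223977988344687251933473667712)), (.negSucc (nat_lit 1612662415)), (.negSucc (nat_lit 1612662383)), (.ofNat (nat_lit 7167214161606945572714)), (.negSucc (nat_lit 7167214161606945572713)), (.negSucc (nat_lit 7167214161606945572713)), (.ofNat (nat_lit 7167214161606945572714)), (.ofNat (nat_lit 661588999532948822094))⟩,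
    ⟨nat_lit 0, nat_lit 2, nat_lit 3, (.ofNat (nat_lit 8)), (.negSucc (nat_lit 1405218431)), (.ofNat (nat_lit 13071773897215133329770870631680)), (.ofNat (nat_lit 0)), (.ofNat (nat_lit 201104213803309743534122762880)), (.negSucc (nat_lit 1405218447)), (.negSucc (nat_lit 1405218415)), (.negSucc (nat_lit 7167214161606945572713)), (.ofNat (nat_lit 7167214161606945572714)), (.negSucc (nat_lit 7167214161606945572713)), (.ofNat (nat_lit 7167214161606945572714)), (.ofNat (nat_lit 661588999532948822094))⟩,
    ⟨nat_lit 1, nat_lit 3, nat_lit 4, (.ofNat (nat_lit 8)), (.ofNat (nat_lit 161346560)), (.ofNat (nat_lit 24299680692955204728034013459968)), (.ofNat (nat_lit 0)), (.ofNat (nat_lit 373841241430080072737472185088)), (.ofNat (nat_lit 161346544)), (.ofNat (nat_lit 161346576)), (.ofNat (nat_lit 7167214161606945572714)), (.negSucc (nat_lit 7167214161606945572713)), (.negSucc (nat_lit 7167214161606945572713)), (.ofNat (nat_lit 7167214161606945572714)), (.ofNat (nat_lit 661588999532948822094))⟩,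
    ⟨nat_lit 0, nat_lit 5, nat_lit 4, (.ofNat (nat_lit 8)), (.negSucc (nat_lit 80249855)), (.ofNat (nat_lit 26031253947103887579108783252992)), (.ofNat (nat_lit 0)), (.ofNat (nat_lit 400480829955444424292360854272)), (.negSucc (nat_lit 80249871)), (.negSucc (nat_lit 80249839)), (.ofNat (nat_lit 7167214161606945572714)), (.negSucc (nat_lit 7167214161606945572713)), (.negSucc (nat_lit 7167214161606945572713)), (.ofNat (nat_lit 7167214161606945572714)), (.ofNat (nat_lit 661588999532948822094))⟩,
    ⟨nat_lit 2, nat_lit 6, nat_lit 5, (.ofNat (nat_lit 8)), (.negSucc (nat_lit 1725097599)), (.ofNat (nat_lit 14242277902619851739099372395776)), (.ofNat (nat_lit 0)), (.ofNat (nat_lit 219111967732613103677565311616)), (.negSucc (nat_lit 1725097615)), (.negSucc (nat_lit 1725097583)), (.negSucc (nat_lit 7167214161606945572713)), (.ofNat (nat_lit 7167214161606945572714)), (.negSucc (nat_lit 7167214161606945572713)), (.ofNat (nat_lit 7167214161606945572714)), (.ofNat (nat_lit 661588999532948822094))⟩,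
    ⟨nat_lit 0, nat_lit 7, nat_lit 8, (.ofNat (nat_lit 8)), (.negSucc (nat_lit 1433446015)), (.ofNat (nat_lit 14050988282233933347386381475072)), (.ofNat (nat_lit 0)), (.ofNat (nat_lit 216169050495906666881992743552)), (.negSucc (nat_lit 1433446031)), (.negSucc (nat_lit 1433445999)), (.ofNat (nat_lit 7167214161606945572714)), (.negSucc (nat_lit 7167214161606945572713)), (.negSucc (nat_lit 7167214161606945572713)), (.ofNat (nat_lit 7167214161606945572714)), (.ofNat (nat_lit 661588999532948822094))⟩,
    ⟨nat_lit 0, nat_lit 8, nat_lit 9, (.ofNat (nat_lit 8)), (.ofNat (nat_lit 244891392)), (.ofNat (nat_lit 2021984643661639200080491189760)), (.ofNat (nat_lit 0)), (.ofNat (nat_lit 31107456056332910770343228160)), (.ofNat (nat_lit 244891376)), (.ofNat (nat_lit 244891408)), (.negSucc (nat_lit 7167214161606945572713)), (.ofNat (nat_lit 7167214161606945572714)), (.negSucc (nat_lit 7167214161606945572713)), (.ofNat (nat_lit 7167214161606945572714)), (.ofNat (nat_lit 661588999532948822094))⟩,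
    ⟨nat_lit 1, nat_lit 9, nat_lit 10, (.ofNat (nat_lit 8)), (.ofNat (nat_lit 1727701376)), (.ofNat (nat_lit 12649601359958607579045408366336)), (.ofNat (nat_lit 0)), (.ofNat (nat_lit 194609251691670885830680392576)), (.ofNat (nat_lit 1727701360)), (.ofNat (nat_lit 1727701392)), (.ofNat (nat_lit 7167214161606945572714)), (.negSucc (nat_lit 7167214161606945572713)), (.negSucc (nat_lit 7167214161606945572713)), (.ofNat (nat_lit 7167214161606945572714)), (.ofNat (nat_lit 661588999532948822094))⟩,
    ⟨nat_lit 0, nat_lit 20, nat_lit 10, (.ofNat (nat_lit 8)), (.ofNat (nat_lit 955807936)), (.ofNat (nat_lit 18181926954378108725060387962496)), (.ofNat (nat_lit 0)), (.ofNat (nat_lit 279721953144278595769028003136)), (.ofNat (nat_lit 955807920)), (.ofNat (nat_lit 955807952)), (.ofNat (nat_lit 7167214161606945572714)), (.negSucc (nat_lit 7167214161606945572713)), (.negSucc (nat_lit 7167214161606945572713)), (.ofNat (nat_lit 7167214161606945572714)), (.ofNat (nat_lit 661588999532948822094))⟩,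
    ⟨nat_lit 1, nat_lit 11, nat_lit 19, (.ofNat (nat_lit 8)), (.ofNat (nat_lit 15308032)), (.ofNat (nat_lit 11685412208032773776417405989120)), (.ofNat (nat_lit 0)), (.ofNat (nat_lit 179775572431273442713386529920)), (.ofNat (nat_lit 15308016)), (.ofNat (nat_lit 15308048)), (.ofNat (nat_lit 7167214161606945572714)), (.negSucc (nat_lit 7167214161606945572713)), (.negSucc (nat_lit 7167214161606945572713)), (.ofNat (nat_lit 7167214161606945572714)), (.ofNat (nat_lit 661588999532948822094))⟩,
    ⟨nat_lit 0, nat_lit 12, nat_lit 11, (.ofNat (nat_lit 8)), (.negSucc (nat_lit 527919551)), (.ofNat (nat_lit 7791983775012447175332483446144)), (.ofNat (nat_lit 0)), (.ofNat (nat_lit 119876673461729956543091623104)), (.negSucc (nat_lit 527919567)), (.negSucc (nat_lit 527919535)), (.negSucc (nat_lit 7167214161606945572713)), (.ofNat (nat_lit 7167214161606945572714)), (.negSucc (nat_lit 7167214161606945572713)), (.ofNat (nat_lit 7167214161606945572714)), (.ofNat (nat_lit 661588999532948822094))⟩,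
    ⟨nat_lit 0, nat_lit 13, nat_lit 12, (.ofNat (nat_lit 8)), (.negSucc (nat_lit 1448490623)), (.ofNat (nat_lit 14389913799016534303851464375552)), (.ofNat (nat_lit 0)), (.ofNat (nat_lit 221383289215638989289126767232)), (.negSucc (nat_lit 1448490639)), (.negSucc (nat_lit 1448490607)), (.ofNat (nat_lit 7167214161606945572714)), (.negSucc (nat_lit 7167214161606945572713)), (.negSucc (nat_lit 7167214161606945572713)), (.ofNat (nat_lit 7167214161606945572714)), (.ofNat (nat_lit 661588999532948822094))⟩,
    ⟨nat_lit 0, nat_lit 6, nat_lit 13, (.ofNat (nat_lit 8)), (.negSucc (nat_lit 1597093503)), (.ofNat (nat_lit 13324845133024956763742914559232)), (.ofNat (nat_lit 0)), (.ofNat (nat_lit 204997617431153180979830762112)), (.negSucc (nat_lit 1597093519)), (.negSucc (nat_lit 1597093487)), (.negSucc (nat_lit 7167214161606945572713)), (.ofNat (nat_lit 7167214161606945572714)), (.negSucc (nat_lit 7167214161606945572713)), (.ofNat (nat_lit 7167214161606945572714)), (.ofNat (nat_lit 661588999532948822094))⟩,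
    ⟨nat_lit 0, nat_lit 21, nat_lit 14, (.ofNat (nat_lit 8)), (.negSucc (nat_lit 126370687)), (.ofNat (nat_lit 1364162361402191250125492370944)), (.ofNat (nat_lit 0)), (.ofNat (nat_lit 20987113252341403847999579904)), (.negSucc (nat_lit 126370703)), (.negSucc (nat_lit 126370671)), (.negSucc (nat_lit 7167214161606945572713)), (.ofNat (nat_lit 7167214161606945572714)), (.negSucc (nat_lit 7167214161606945572713)), (.ofNat (nat_lit 7167214161606945572714)), (.ofNat (nat_lit 661588999532948822094))⟩,
    ⟨nat_lit 1, nat_lit 14, nat_lit 15, (.ofNat (nat_lit 8)), (.ofNat (nat_lit 1441259328)), (.ofNat (nat_lit 12599702412237513923990269354368)), (.ofNat (nat_lit 0)), (.ofNat (nat_lit 193841575572884829599065975488)), (.ofNat (nat_lit 1441259312)), (.ofNat (nat_lit 1441259344)), (.ofNat (nat_lit 7167214161606945572714)), (.negSucc (nat_lit 7167214435617122928115)), (.negSucc (nat_lit 7167214435617122928115)), (.ofNat (nat_lit 7167214161606945572714)), (.ofNat (nat_lit 661589547553303532898))⟩,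
    ⟨nat_lit 0, nat_lit 16, nat_lit 15, (.ofNat (nat_lit 8)), (.ofNat (nat_lit 19240192)), (.ofNat (nat_lit 22791618491500502697035573782144)), (.ofNat (nat_lit 0)), (.ofNat (nat_lit 350640668137758535655637546624)), (.ofNat (nat_lit 19240176)), (.ofNat (nat_lit 19240208)), (.ofNat (nat_lit 7167214436073168728821)), (.negSucc (nat_lit 7167214435617122928115)), (.negSucc (nat_lit 7167214435617122928115)), (.ofNat (nat_lit 7167214436073168728821)), (.ofNat (nat_lit 661590645418196157326))⟩,
    ⟨nat_lit 0, nat_lit 17, nat_lit 16, (.ofNat (nat_lit 8)), (.negSucc (nat_lit 1400622719)), (.ofNat (nat_lit 12615156531369215500664450395392)), (.ofNat (nat_lit 0)), (.ofNat (nat_lit 194079331196011120502829146752)), (.negSucc (nat_lit 1400622735)), (.negSucc (nat_lit 1400622703)), (.negSucc (nat_lit 7167214161880249243497)), (.ofNat (nat_lit 7167214436073168728821)), (.negSucc (nat_lit 7167214161880249243497)), (.ofNat (nat_lit 7167214436073168728821)), (.ofNat (nat_lit 661589549558609817444))⟩,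
    ⟨nat_lit 2, nat_lit 17, nat_lit 18, (.ofNat (nat_lit 8)), (.negSucc (nat_lit 1608066687)), (.ofNat (nat_lit 14101951876615448744564673715456)), (.ofNat (nat_lit 0)), (.ofNat (nat_lit 216953105794083826838578682496)), (.negSucc (nat_lit 1608066703)), (.negSucc (nat_lit 1608066671)), (.negSucc (nat_lit 7167214161880249243497)), (.ofNat (nat_lit 7167214161606945572714)), (.negSucc (nat_lit 7167214161880249243497)), (.ofNat (nat_lit 7167214161606945572714)), (.ofNat (nat_lit 661589000626163505230))⟩,
    ⟨nat_lit 0, nat_lit 18, nat_lit 19, (.ofNat (nat_lit 8)), (.negSucc (nat_lit 964962239)), (.ofNat (nat_lit 18711219183713466270070954547328)), (.ofNat (nat_lit 0)), (.ofNat (nat_lit 287864910518668711846080694848)), (.negSucc (nat_lit 964962255)), (.negSucc (nat_lit 964962223)), (.ofNat (nat_lit 7167214161606945572714)), (.negSucc (nat_lit 7167214161606945572713)), (.negSucc (nat_lit 7167214161606945572713)), (.ofNat (nat_lit 7167214161606945572714)), (.ofNat (nat_lit 661588999532948822094))⟩,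
    ⟨nat_lit 2, nat_lit 21, nat_lit 7, (.ofNat (nat_lit 8)), (.negSucc (nat_lit 1664968127)), (.ofNat (nat_lit 12391619722382383994522586623104)), (.ofNat (nat_lit 0)), (.ofNat (nat_lit 190640303421267446068806886464)), (.negSucc (nat_lit 1664968143)), (.negSucc (nat_lit 1664968111)), (.negSucc (nat_lit 7167214161606945572713)), (.ofNat (nat_lit 7167214161606945572714)), (.negSucc (nat_lit 7167214161606945572713)), (.ofNat (nat_lit 7167214161606945572714)), (.ofNat (nat_lit 661588999532948822094))⟩]
  es := [
    ⟨nat_lit 1, nat_lit 0, (.negSucc (nat_lit 1766393279)), (.negSucc (nat_lit 734931199)), (.negSucc (nat_lit 1766393263)), (.negSucc (nat_lit 734931215)), (.negSucc (nat_lit 7167214161606945572713)), (.negSucc (nat_lit 110264833255491470348)), (.ofNat (nat_lit 12255818012446627042435135872))⟩,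
    ⟨nat_lit 1, nat_lit 2, (.negSucc (nat_lit 1766393279)), (.negSucc (nat_lit 1612662399)), (.negSucc (nat_lit 1766393263)), (.negSucc (nat_lit 1612662415)), (.ofNat (nat_lit 7167214161606945572714)), (.ofNat (nat_lit 110264833255491470349)), (.ofNat (nat_lit 401797938978087939686020845312))⟩,
    ⟨nat_lit 2, nat_lit 3, (.negSucc (nat_lit 1612662399)), (.negSucc (nat_lit 1405218431)), (.negSucc (nat_lit 1612662383)), (.negSucc (nat_lit 1405218447)), (.negSucc (nat_lit 7167214161606945572713)), (.negSucc (nat_lit 110264833255491470348)), (.ofNat (nat_lit 46158037711286564180926490112))⟩,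
    ⟨nat_lit 3, nat_lit 4, (.negSucc (nat_lit 1405218431)), (.ofNat (nat_lit 161346560)), (.negSucc (nat_lit 1405218415)), (.ofNat (nat_lit 161346544)), (.ofNat (nat_lit 7167214161606945572714)), (.ofNat (nat_lit 110264833255491470349)), (.ofNat (nat_lit 356050389895332922887319035648))⟩,
    ⟨nat_lit 5, nat_lit 4, (.negSucc (nat_lit 80249855)), (.ofNat (nat_lit 161346560)), (.negSucc (nat_lit 80249839)), (.ofNat (nat_lit 161346544)), (.negSucc (nat_lit 7167214161606945572713)), (.negSucc (nat_lit 110264833255491470348)), (.ofNat (nat_lit 391632092964827222587625334528))⟩,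
    ⟨nat_lit 6, nat_lit 5, (.negSucc (nat_lit 1725097599)), (.negSucc (nat_lit 80249855)), (.negSucc (nat_lit 1725097583)), (.negSucc (nat_lit 80249871)), (.ofNat (nat_lit 7167214161606945572714)), (.ofNat (nat_lit 110264833255491470349)), (.ofNat (nat_lit 409329566946061625997096374016))⟩,
    ⟨nat_lit 6, nat_lit 14, (.negSucc (nat_lit 1725097599)), (.negSucc (nat_lit 1597093503)), (.negSucc (nat_lit 1725097583)), (.negSucc (nat_lit 1597093519)), (.negSucc (nat_lit 7167214161606945572713)), (.negSucc (nat_lit 110264833255491470348)), (.ofNat (nat_lit 28894368519164581358034249216))⟩,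
    ⟨nat_lit 21, nat_lit 7, (.negSucc (nat_lit 1664968127)), (.negSucc (nat_lit 1433446015)), (.negSucc (nat_lit 1664968111)), (.negSucc (nat_lit 1433446031)), (.ofNat (nat_lit 7167214161606945572714)), (.ofNat (nat_lit 110264833255491470349)), (.ofNat (nat_lit 374227736430895225175748923136))⟩,
    ⟨nat_lit 7, nat_lit 8, (.negSucc (nat_lit 1433446015)), (.ofNat (nat_lit 244891392)), (.negSucc (nat_lit 1433445999)), (.ofNat (nat_lit 244891376)), (.negSucc (nat_lit 7167214161606945572713)), (.negSucc (nat_lit 110264833255491470348)), (.ofNat (nat_lit 58110364560918108588236563968))⟩,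
    ⟨nat_lit 8, nat_lit 9, (.ofNat (nat_lit 244891392)), (.ofNat (nat_lit 1727701376)), (.ofNat (nat_lit 244891408)), (.ofNat (nat_lit 1727701360)), (.ofNat (nat_lit 7167214161606945572714)), (.ofNat (nat_lit 110264833255491470349)), (.ofNat (nat_lit 4104547551747712952449892352))⟩,
    ⟨nat_lit 10, nat_lit 9, (.ofNat (nat_lit 955807936)), (.ofNat (nat_lit 1727701376)), (.ofNat (nat_lit 955807952)), (.ofNat (nat_lit 1727701360)), (.negSucc (nat_lit 7167214161606945572713)), (.negSucc (nat_lit 110264833255491470348)), (.ofNat (nat_lit 385113955831594058708910892800))⟩,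
    ⟨nat_lit 12, nat_lit 11, (.negSucc (nat_lit 527919551)), (.ofNat (nat_lit 15308032)), (.negSucc (nat_lit 527919535)), (.ofNat (nat_lit 15308016)), (.ofNat (nat_lit 7167214161606945572714)), (.ofNat (nat_lit 110264833255491470349)), (.ofNat (nat_lit 178087634835323715109556986752))⟩,
    ⟨nat_lit 13, nat_lit 12, (.negSucc (nat_lit 1448490623)), (.negSucc (nat_lit 527919551)), (.negSucc (nat_lit 1448490607)), (.negSucc (nat_lit 527919567)), (.negSucc (nat_lit 7167214161606945572713)), (.negSucc (nat_lit 110264833255491470348)), (.ofNat (nat_lit 61665712088136197976626259456))⟩,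
    ⟨nat_lit 14, nat_lit 13, (.negSucc (nat_lit 1597093503)), (.negSucc (nat_lit 1448490623)), (.negSucc (nat_lit 1597093487)), (.negSucc (nat_lit 1448490639)), (.ofNat (nat_lit 7167214161606945572714)), (.ofNat (nat_lit 110264833255491470349)), (.ofNat (nat_lit 381100866343141780601627275008))⟩,
    ⟨nat_lit 15, nat_lit 16, (.negSucc (nat_lit 126370687)), (.ofNat (nat_lit 1441259328)), (.negSucc (nat_lit 126370671)), (.ofNat (nat_lit 1441259312)), (.ofNat (nat_lit 7167214161606945572714)), (.ofNat (nat_lit 110264833255491470349)), (.ofNat (nat_lit 34921356093043140734134310016))⟩,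
    ⟨nat_lit 17, nat_lit 16, (.ofNat (nat_lit 19240192)), (.ofNat (nat_lit 1441259328)), (.ofNat (nat_lit 19240208)), (.ofNat (nat_lit 1441259312)), (.negSucc (nat_lit 7167214435617122928115)), (.negSucc (nat_lit 110265107265668825750)), (.ofNat (nat_lit 352762189972450598871501330816))⟩,
    ⟨nat_lit 18, nat_lit 17, (.negSucc (nat_lit 1400622719)), (.ofNat (nat_lit 19240192)), (.negSucc (nat_lit 1400622703)), (.ofNat (nat_lit 19240176)), (.ofNat (nat_lit 7167214436073168728821)), (.ofNat (nat_lit 110265107721714626456)), (.ofNat (nat_lit 348519146294292063673415827072))⟩,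
    ⟨nat_lit 19, nat_lit 18, (.negSucc (nat_lit 1608066687)), (.negSucc (nat_lit 1400622719)), (.negSucc (nat_lit 1608066671)), (.negSucc (nat_lit 1400622735)), (.negSucc (nat_lit 7167214161880249243497)), (.negSucc (nat_lit 110264833528795141132)), (.ofNat (nat_lit 39639900138562871606342804992))⟩,
    ⟨nat_lit 19, nat_lit 20, (.negSucc (nat_lit 1608066687)), (.negSucc (nat_lit 964962239)), (.negSucc (nat_lit 1608066671)), (.negSucc (nat_lit 964962255)), (.ofNat (nat_lit 7167214161606945572714)), (.ofNat (nat_lit 110264833255491470349)), (.ofNat (nat_lit 394266311010114253374945316608))⟩,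
    ⟨nat_lit 20, nat_lit 11, (.negSucc (nat_lit 964962239)), (.ofNat (nat_lit 15308032)), (.negSucc (nat_lit 964962223)), (.ofNat (nat_lit 15308016)), (.negSucc (nat_lit 7167214161606945572713)), (.negSucc (nat_lit 110264833255491470348)), (.ofNat (nat_lit 181463510027223170317216073088))⟩,
    ⟨nat_lit 0, nat_lit 10, (.negSucc (nat_lit 734931199)), (.ofNat (nat_lit 955807936)), (.negSucc (nat_lit 734931183)), (.ofNat (nat_lit 955807920)), (.ofNat (nat_lit 7167214161606945572714)), (.ofNat (nat_lit 110264833255491470349)), (.ofNat (nat_lit 174329950456963132829145113472))⟩,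
    ⟨nat_lit 21, nat_lit 15, (.negSucc (nat_lit 1664968127)), (.negSucc (nat_lit 126370687)), (.negSucc (nat_lit 1664968111)), (.negSucc (nat_lit 126370703)), (.negSucc (nat_lit 7167214161606945572713)), (.negSucc (nat_lit 110264833255491470348)), (.ofNat (nat_lit 7052870411639666961864849792))⟩]

theorem ok87 : stOK 21 21 S87 = true := by decide +kernel

def S88 : SD where
  vs := [
    ⟨nat_lit 0, nat_lit 0, nat_lit 20, (.ofNat (nat_lit 8)), (.negSucc (nat_lit 735193343)), (.ofNat (nat_lit 6069674001823358069271535043840)), (.negSucc (nat_lit 262143)), (.ofNat (nat_lit 5636526567540873420640616448)), (.negSucc (nat_lit 735193359)), (.negSucc (nat_lit 735193327)), (.negSucc (nat_lit 7167214161606945572713)), (.ofNat (nat_lit 7167214161606945572714)), (.negSucc (nat_lit 7167214161606945572713)), (.ofNat (nat_lit 7167214161606945572714)), (.ofNat (nat_lit 0))⟩,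
    ⟨nat_lit 2, nat_lit 0, nat_lit 1, (.ofNat (nat_lit 8)), (.negSucc (nat_lit 2557831807)), (.ofNat (nat_lit 19132914212493689119654580315136)), (.negSucc (nat_lit 791438527)), (.ofNat (nat_lit 5676167110301315700925312202624)), (.negSucc (nat_lit 2557831823)), (.negSucc (nat_lit 2557831791)), (.negSucc (nat_lit 7167214161606945572713)), (.ofNat (nat_lit 7167214161606945572714)), (.negSucc (nat_lit 7167214161606945572713)), (.ofNat (nat_lit 7167214161606945572714)), (.ofNat (nat_lit 0))⟩,
    ⟨nat_lit 0, nat_lit 1, nat_lit 2, (.ofNat (nat_lit 8)), (.negSucc (nat_lit 2403314495)), (.ofNat (nat_lit 20240372879273527950080648139904)), (.negSucc (nat_lit 790652095)), (.ofNat (nat_lit 5681803636868856574345952819072)), (.negSucc (nat_lit 2403314511)), (.negSucc (nat_lit 2403314479)), (.ofNat (nat_lit 7167214161606945572714)), (.negSucc (nat_lit 7167214161606945572713)), (.negSucc (nat_lit 7167214161606945572713)), (.ofNat (nat_lit 7167214161606945572714)), (.ofNat (nat_lit 0))⟩,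
    ⟨nat_lit 0, nat_lit 2, nat_lit 3, (.ofNat (nat_lit 8)), (.negSucc (nat_lit 2194821951)), (.ofNat (nat_lit 18746062165327268739555969295488)), (.negSucc (nat_lit 789603519)), (.ofNat (nat_lit 5674288268112135409785098663808)), (.negSucc (nat_lit 2194821967)), (.negSucc (nat_lit 2194821935)), (.negSucc (nat_lit 7167214161606945572713)), (.ofNat (nat_lit 7167214161606945572714)), (.negSucc (nat_lit 7167214161606945572713)), (.ofNat (nat_lit 7167214161606945572714)), (.ofNat (nat_lit 0))⟩,
    ⟨nat_lit 1, nat_lit 3, nat_lit 4, (.ofNat (nat_lit 8)), (.negSucc (nat_lit 626684095)), (.ofNat (nat_lit 29985242014202421884660393356672)), (.negSucc (nat_lit 788030655)), (.ofNat (nat_lit 5685561321247217156626379896704)), (.negSucc (nat_lit 626684111)), (.negSucc (nat_lit 626684079)), (.ofNat (nat_lit 7167214161606945572714)), (.negSucc (nat_lit 7167214161606945572713)), (.negSucc (nat_lit 7167214161606945572713)), (.ofNat (nat_lit 7167214161606945572714)), (.ofNat (nat_lit 0))⟩,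
    ⟨nat_lit 0, nat_lit 5, nat_lit 4, (.ofNat (nat_lit 8)), (.negSucc (nat_lit 869591231)), (.ofNat (nat_lit 31726209479297006191436230843776)), (.negSucc (nat_lit 789341375)), (.ofNat (nat_lit 5694955532193118612327447590784)), (.negSucc (nat_lit 869591247)), (.negSucc (nat_lit 869591215)), (.ofNat (nat_lit 7167214161606945572714)), (.negSucc (nat_lit 7167214161606945572713)), (.negSucc (nat_lit 7167214161606945572713)), (.ofNat (nat_lit 7167214161606945572714)), (.ofNat (nat_lit 0))⟩,
    ⟨nat_lit 2, nat_lit 6, nat_lit 5, (.ofNat (nat_lit 8)), (.negSucc (nat_lit 2516536127)), (.ofNat (nat_lit 19922202697299528022305111676032)), (.negSucc (nat_lit 791438527)), (.ofNat (nat_lit 5679924794679676283205739280256)), (.negSucc (nat_lit 2516536143)), (.negSucc (nat_lit 2516536111)), (.negSucc (nat_lit 7167214161606945572713)), (.ofNat (nat_lit 7167214161606945572714)), (.negSucc (nat_lit 7167214161606945572713)), (.ofNat (nat_lit 7167214161606945572714)), (.ofNat (nat_lit 0))⟩,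
    ⟨nat_lit 0, nat_lit 7, nat_lit 8, (.ofNat (nat_lit 8)), (.negSucc (nat_lit 2223049535)), (.ofNat (nat_lit 19729034234724429339451907216512)), (.negSucc (nat_lit 789603519)), (.ofNat (nat_lit 5678045952490495992065525741440)), (.negSucc (nat_lit 2223049551)), (.negSucc (nat_lit 2223049519)), (.ofNat (nat_lit 7167214161606945572714)), (.negSucc (nat_lit 7167214161606945572713)), (.negSucc (nat_lit 7167214161606945572713)), (.ofNat (nat_lit 7167214161606945572714)), (.ofNat (nat_lit 0))⟩,
    ⟨nat_lit 0, nat_lit 8, nat_lit 9, (.ofNat (nat_lit 8)), (.ofNat (nat_lit 246202112)), (.ofNat (nat_lit 2031378854607540655781558883840)), (.ofNat (nat_lit 1310720)), (.ofNat (nat_lit 9394210945901455701067694080)), (.ofNat (nat_lit 246202096)), (.ofNat (nat_lit 246202128)), (.negSucc (nat_lit 7167214161606945572713)), (.ofNat (nat_lit 7167214161606945572714)), (.negSucc (nat_lit 7167214161606945572713)), (.ofNat (nat_lit 7167214161606945572714)), (.ofNat (nat_lit 0))⟩,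
    ⟨nat_lit 1, nat_lit 9, nat_lit 10, (.ofNat (nat_lit 8)), (.ofNat (nat_lit 1730060672)), (.ofNat (nat_lit 12666510939661230199307330215680)), (.ofNat (nat_lit 2359296)), (.ofNat (nat_lit 16909579702622620261921849344)), (.ofNat (nat_lit 1730060656)), (.ofNat (nat_lit 1730060688)), (.ofNat (nat_lit 7167214161606945572714)), (.negSucc (nat_lit 7167214161606945572713)), (.negSucc (nat_lit 7167214161606945572713)), (.ofNat (nat_lit 7167214161606945572714)), (.ofNat (nat_lit 0))⟩,
    ⟨nat_lit 0, nat_lit 20, nat_lit 10, (.ofNat (nat_lit 8)), (.ofNat (nat_lit 957642944)), (.ofNat (nat_lit 18202594218459091927602736889472)), (.ofNat (nat_lit 1835008)), (.ofNat (nat_lit 20667264080983202542348926976)), (.ofNat (nat_lit 957642928)), (.ofNat (nat_lit 957642960)), (.ofNat (nat_lit 7167214161606945572714)), (.negSucc (nat_lit 7167214161606945572713)), (.negSucc (nat_lit 7167214161606945572713)), (.ofNat (nat_lit 7167214161606945572714)), (.ofNat (nat_lit 0))⟩,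
    ⟨nat_lit 1, nat_lit 11, nat_lit 19, (.ofNat (nat_lit 8)), (.negSucc (nat_lit 773246911)), (.ofNat (nat_lit 17363458160523269768482931730560)), (.negSucc (nat_lit 788554943)), (.ofNat (nat_lit 5678045952490495992065525741440)), (.negSucc (nat_lit 773246927)), (.negSucc (nat_lit 773246895)), (.ofNat (nat_lit 7167214161606945572714)), (.negSucc (nat_lit 7167214161606945572713)), (.negSucc (nat_lit 7167214161606945572713)), (.ofNat (nat_lit 7167214161606945572714)), (.ofNat (nat_lit 0))⟩,
    ⟨nat_lit 0, nat_lit 12, nat_lit 11, (.ofNat (nat_lit 8)), (.negSucc (nat_lit 1316736639)), (.ofNat (nat_lit 13468150885313762876257795648768)), (.negSucc (nat_lit 788817087)), (.ofNat (nat_lit 5676167110301315700925312202624)), (.negSucc (nat_lit 1316736655)), (.negSucc (nat_lit 1316736623)), (.negSucc (nat_lit 7167214161606945572713)), (.ofNat (nat_lit 7167214161606945572714)), (.negSucc (nat_lit 7167214161606945572713)), (.ofNat (nat_lit 7167214161606945572714)), (.ofNat (nat_lit 0))⟩,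
    ⟨nat_lit 0, nat_lit 13, nat_lit 12, (.ofNat (nat_lit 8)), (.negSucc (nat_lit 2238094143)), (.ofNat (nat_lit 20071717435885390878197417194624)), (.negSucc (nat_lit 789603519)), (.ofNat (nat_lit 5681803636868856574345952819072)), (.negSucc (nat_lit 2238094159)), (.negSucc (nat_lit 2238094127)), (.ofNat (nat_lit 7167214161606945572714)), (.negSucc (nat_lit 7167214161606945572713)), (.negSucc (nat_lit 7167214161606945572713)), (.ofNat (nat_lit 7167214161606945572714)), (.ofNat (nat_lit 0))⟩,
    ⟨nat_lit 0, nat_lit 6, nat_lit 13, (.ofNat (nat_lit 8)), (.negSucc (nat_lit 2387745599)), (.ofNat (nat_lit 18999133401137092173528013223040)), (.negSucc (nat_lit 790652095)), (.ofNat (nat_lit 5674288268112135409785098663808)), (.negSucc (nat_lit 2387745615)), (.negSucc (nat_lit 2387745583)), (.negSucc (nat_lit 7167214161606945572713)), (.ofNat (nat_lit 7167214161606945572714)), (.negSucc (nat_lit 7167214161606945572713)), (.ofNat (nat_lit 7167214161606945572714)), (.ofNat (nat_lit 0))⟩,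
    ⟨nat_lit 0, nat_lit 21, nat_lit 14, (.ofNat (nat_lit 8)), (.negSucc (nat_lit 126632831)), (.ofNat (nat_lit 1366041203591371541265705909760)), (.negSucc (nat_lit 262143)), (.ofNat (nat_lit 1878842189180291140213538816)), (.negSucc (nat_lit 126632847)), (.negSucc (nat_lit 126632815)), (.negSucc (nat_lit 7167214161606945572713)), (.ofNat (nat_lit 7167214161606945572714)), (.negSucc (nat_lit 7167214161606945572713)), (.ofNat (nat_lit 7167214161606945572714)), (.ofNat (nat_lit 0))⟩,
    ⟨nat_lit 1, nat_lit 14, nat_lit 15, (.ofNat (nat_lit 8)), (.ofNat (nat_lit 1443094336)), (.ofNat (nat_lit 12616611991940136544252191203712)), (.ofNat (nat_lit 1835008)), (.ofNat (nat_lit 16909579702622620261921849344)), (.ofNat (nat_lit 1443094320)), (.ofNat (nat_lit 1443094352)), (.ofNat (nat_lit 7167214161606945572714)), (.negSucc (nat_lit 7167214435617122928115)), (.negSucc (nat_lit 7167214435617122928115)), (.ofNat (nat_lit 7167214161606945572714)), (.ofNat (nat_lit 0))⟩,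
    ⟨nat_lit 0, nat_lit 16, nat_lit 15, (.ofNat (nat_lit 8)), (.ofNat (nat_lit 20550912)), (.ofNat (nat_lit 22812285755725146147443231712896)), (.ofNat (nat_lit 1310720)), (.ofNat (nat_lit 20667264224643450407657930752)), (.ofNat (nat_lit 20550896)), (.ofNat (nat_lit 20550928)), (.ofNat (nat_lit 7167214436073168728821)), (.negSucc (nat_lit 7167214435617122928115)), (.negSucc (nat_lit 7167214435617122928115)), (.ofNat (nat_lit 7167214436073168728821)), (.ofNat (nat_lit 0))⟩,
    ⟨nat_lit 0, nat_lit 17, nat_lit 16, (.ofNat (nat_lit 8)), (.negSucc (nat_lit 1400622719)), (.ofNat (nat_lit 12626429584288209127355868065024)), (.ofNat (nat_lit 0)), (.ofNat (nat_lit 11273052918993626691417669632)), (.negSucc (nat_lit 1400622735)), (.negSucc (nat_lit 1400622703)), (.negSucc (nat_lit 7167214161880249243497)), (.ofNat (nat_lit 7167214436073168728821)), (.negSucc (nat_lit 7167214161880249243497)), (.ofNat (nat_lit 7167214436073168728821)), (.ofNat (nat_lit 0))⟩,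
    ⟨nat_lit 2, nat_lit 17, nat_lit 18, (.ofNat (nat_lit 8)), (.negSucc (nat_lit 2398718783)), (.ofNat (nat_lit 19779997829105944736630199456896)), (.negSucc (nat_lit 790652095)), (.ofNat (nat_lit 5678045952490495992065525741440)), (.negSucc (nat_lit 2398718799)), (.negSucc (nat_lit 2398718767)), (.negSucc (nat_lit 7167214161880249243497)), (.ofNat (nat_lit 7167214161606945572714)), (.negSucc (nat_lit 7167214161880249243497)), (.ofNat (nat_lit 7167214161606945572714)), (.ofNat (nat_lit 0))⟩,
    ⟨nat_lit 0, nat_lit 18, nat_lit 19, (.ofNat (nat_lit 8)), (.negSucc (nat_lit 1754565759)), (.ofNat (nat_lit 24396780504960683426697334444032)), (.negSucc (nat_lit 789603519)), (.ofNat (nat_lit 5685561321247217156626379896704)), (.negSucc (nat_lit 1754565775)), (.negSucc (nat_lit 1754565743)), (.ofNat (nat_lit 7167214161606945572714)), (.negSucc (nat_lit 7167214161606945572713)), (.negSucc (nat_lit 7167214161606945572713)), (.ofNat (nat_lit 7167214161606945572714)), (.ofNat (nat_lit 0))⟩,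
    ⟨nat_lit 2, nat_lit 21, nat_lit 7, (.ofNat (nat_lit 8)), (.negSucc (nat_lit 2455882367)), (.ofNat (nat_lit 18060271463926978530887044670464)), (.negSucc (nat_lit 790914239)), (.ofNat (nat_lit 5668651741544594536364458047360)), (.negSucc (nat_lit 2455882383)), (.negSucc (nat_lit 2455882351)), (.negSucc (nat_lit 7167214161606945572713)), (.ofNat (nat_lit 7167214161606945572714)), (.negSucc (nat_lit 7167214161606945572713)), (.ofNat (nat_lit 7167214161606945572714)), (.ofNat (nat_lit 0))⟩]
  es := [
    ⟨nat_lit 1, nat_lit 0, (.negSucc (nat_lit 2557831807)), (.negSucc (nat_lit 735193343)), (.negSucc (nat_lit 2557831791)), (.negSucc (nat_lit 735193359)), (.negSucc (nat_lit 7167214161606945572713)), (.ofNat (nat_lit 0)), (.ofNat (nat_lit 3757684378360582280427077632))⟩,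
    ⟨nat_lit 1, nat_lit 2, (.negSucc (nat_lit 2557831807)), (.negSucc (nat_lit 2403314495)), (.negSucc (nat_lit 2557831791)), (.negSucc (nat_lit 2403314511)), (.ofNat (nat_lit 7167214161606945572714)), (.ofNat (nat_lit 0)), (.ofNat (nat_lit 11348576536224270819570197327616))⟩,
    ⟨nat_lit 2, nat_lit 3, (.negSucc (nat_lit 2403314495)), (.negSucc (nat_lit 2194821951)), (.negSucc (nat_lit 2403314479)), (.negSucc (nat_lit 2194821967)), (.negSucc (nat_lit 7167214161606945572713)), (.ofNat (nat_lit 0)), (.ofNat (nat_lit 15030737513442329121708310528))⟩,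
    ⟨nat_lit 3, nat_lit 4, (.negSucc (nat_lit 2194821951)), (.negSucc (nat_lit 626684095)), (.negSucc (nat_lit 2194821935)), (.negSucc (nat_lit 626684111)), (.ofNat (nat_lit 7167214161606945572714)), (.ofNat (nat_lit 0)), (.ofNat (nat_lit 11333545798710828490448489017088))⟩,
    ⟨nat_lit 5, nat_lit 4, (.negSucc (nat_lit 869591231)), (.negSucc (nat_lit 626684095)), (.negSucc (nat_lit 869591215)), (.negSucc (nat_lit 626684111)), (.negSucc (nat_lit 7167214161606945572713)), (.ofNat (nat_lit 0)), (.ofNat (nat_lit 37576843783605822804270776320))⟩,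
    ⟨nat_lit 6, nat_lit 5, (.negSucc (nat_lit 2516536127)), (.negSucc (nat_lit 869591231)), (.negSucc (nat_lit 2516536111)), (.negSucc (nat_lit 869591247)), (.ofNat (nat_lit 7167214161606945572714)), (.ofNat (nat_lit 0)), (.ofNat (nat_lit 11352334220602631401850624405248))⟩,
    ⟨nat_lit 6, nat_lit 14, (.negSucc (nat_lit 2516536127)), (.negSucc (nat_lit 2387745599)), (.negSucc (nat_lit 2516536111)), (.negSucc (nat_lit 2387745615)), (.negSucc (nat_lit 7167214161606945572713)), (.ofNat (nat_lit 0)), (.ofNat (nat_lit 7515368756721164560854155264))⟩,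
    ⟨nat_lit 21, nat_lit 7, (.negSucc (nat_lit 2455882367)), (.negSucc (nat_lit 2223049535)), (.negSucc (nat_lit 2455882351)), (.negSucc (nat_lit 2223049551)), (.ofNat (nat_lit 7167214161606945572714)), (.ofNat (nat_lit 0)), (.ofNat (nat_lit 11337303483089189072728916094720))⟩,
    ⟨nat_lit 7, nat_lit 8, (.negSucc (nat_lit 2223049535)), (.ofNat (nat_lit 246202112)), (.negSucc (nat_lit 2223049519)), (.ofNat (nat_lit 246202096)), (.negSucc (nat_lit 7167214161606945572713)), (.ofNat (nat_lit 0)), (.ofNat (nat_lit 18788421891802911402135388160))⟩,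
    ⟨nat_lit 8, nat_lit 9, (.ofNat (nat_lit 246202112)), (.ofNat (nat_lit 1730060672)), (.ofNat (nat_lit 246202128)), (.ofNat (nat_lit 1730060656)), (.ofNat (nat_lit 7167214161606945572714)), (.ofNat (nat_lit 0)), (.ofNat (nat_lit 0))⟩,
    ⟨nat_lit 10, nat_lit 9, (.ofNat (nat_lit 957642944)), (.ofNat (nat_lit 1730060672)), (.ofNat (nat_lit 957642960)), (.ofNat (nat_lit 1730060656)), (.negSucc (nat_lit 7167214161606945572713)), (.ofNat (nat_lit 0)), (.ofNat (nat_lit 33819159405245240523843698688))⟩,
    ⟨nat_lit 12, nat_lit 11, (.negSucc (nat_lit 1316736639)), (.negSucc (nat_lit 773246911)), (.negSucc (nat_lit 1316736623)), (.negSucc (nat_lit 773246927)), (.ofNat (nat_lit 7167214161606945572714)), (.ofNat (nat_lit 0)), (.ofNat (nat_lit 11329788114332467908168061939456))⟩,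
    ⟨nat_lit 13, nat_lit 12, (.negSucc (nat_lit 2238094143)), (.negSucc (nat_lit 1316736639)), (.negSucc (nat_lit 2238094127)), (.negSucc (nat_lit 1316736655)), (.negSucc (nat_lit 7167214161606945572713)), (.ofNat (nat_lit 0)), (.ofNat (nat_lit 22546106270163493682562465792))⟩,
    ⟨nat_lit 14, nat_lit 13, (.negSucc (nat_lit 2387745599)), (.negSucc (nat_lit 2238094143)), (.negSucc (nat_lit 2387745583)), (.negSucc (nat_lit 2238094159)), (.ofNat (nat_lit 7167214161606945572714)), (.ofNat (nat_lit 0)), (.ofNat (nat_lit 11341061167467549655009343172352))⟩,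
    ⟨nat_lit 15, nat_lit 16, (.negSucc (nat_lit 126632831)), (.ofNat (nat_lit 1443094336)), (.negSucc (nat_lit 126632815)), (.ofNat (nat_lit 1443094320)), (.ofNat (nat_lit 7167214161606945572714)), (.ofNat (nat_lit 0)), (.ofNat (nat_lit 3757684378360582280427077632))⟩,
    ⟨nat_lit 17, nat_lit 16, (.ofNat (nat_lit 20550912)), (.ofNat (nat_lit 1443094336)), (.ofNat (nat_lit 20550928)), (.ofNat (nat_lit 1443094320)), (.negSucc (nat_lit 7167214435617122928115)), (.ofNat (nat_lit 0)), (.ofNat (nat_lit 30061475529695525771998134272))⟩,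
    ⟨nat_lit 18, nat_lit 17, (.negSucc (nat_lit 1400622719)), (.ofNat (nat_lit 20550912)), (.negSucc (nat_lit 1400622703)), (.ofNat (nat_lit 20550896)), (.ofNat (nat_lit 7167214436073168728821)), (.ofNat (nat_lit 0)), (.ofNat (nat_lit 11273052918993626691417669632))⟩,
    ⟨nat_lit 19, nat_lit 18, (.negSucc (nat_lit 2398718783)), (.negSucc (nat_lit 1400622719)), (.negSucc (nat_lit 2398718767)), (.negSucc (nat_lit 1400622735)), (.negSucc (nat_lit 7167214161880249243497)), (.ofNat (nat_lit 0)), (.ofNat (nat_lit 11273052918993626691417669632))⟩,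
    ⟨nat_lit 19, nat_lit 20, (.negSucc (nat_lit 2398718783)), (.negSucc (nat_lit 1754565759)), (.negSucc (nat_lit 2398718767)), (.negSucc (nat_lit 1754565775)), (.ofNat (nat_lit 7167214161606945572714)), (.ofNat (nat_lit 0)), (.ofNat (nat_lit 11344818851845910237289770249984))⟩,
    ⟨nat_lit 20, nat_lit 11, (.negSucc (nat_lit 1754565759)), (.negSucc (nat_lit 773246911)), (.negSucc (nat_lit 1754565743)), (.negSucc (nat_lit 773246927)), (.negSucc (nat_lit 7167214161606945572713)), (.ofNat (nat_lit 0)), (.ofNat (nat_lit 26303790648524075962989543424))⟩,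
    ⟨nat_lit 0, nat_lit 10, (.negSucc (nat_lit 735193343)), (.ofNat (nat_lit 957642944)), (.negSucc (nat_lit 735193327)), (.ofNat (nat_lit 957642928)), (.ofNat (nat_lit 7167214161606945572714)), (.ofNat (nat_lit 0)), (.ofNat (nat_lit 7515368756721164560854155264))⟩,
    ⟨nat_lit 21, nat_lit 15, (.negSucc (nat_lit 2455882367)), (.negSucc (nat_lit 126632831)), (.negSucc (nat_lit 2455882351)), (.negSucc (nat_lit 126632847)), (.negSucc (nat_lit 7167214161606945572713)), (.ofNat (nat_lit 0)), (.ofNat (nat_lit 0))⟩]

theorem ok88 : stOK 21 21 S88 = true := by decide +kernel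

def S89 : SD where
  vs := [
    ⟨nat_lit 0, nat_lit 0, nat_lit 20, (.ofNat (nat_lit 8)), (.negSucc (nat_lit 735193343)), (.ofNat (nat_lit 6164512658101848039103347022720)), (.ofNat (nat_lit 0)), (.ofNat (nat_lit 94838656278489969831811978880)), (.negSucc (nat_lit 735193359)), (.negSucc (nat_lit 735193327)), (.negSucc (nat_lit 7279201882882054097286)), (.ofNat (nat_lit 7279201882882054097287)), (.negSucc (nat_lit 7279201882882054097286)), (.ofNat (nat_lit 7279201882882054097287)), (.ofNat (nat_lit 671926327650651147438))⟩,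
    ⟨nat_lit 2, nat_lit 0, nat_lit 1, (.ofNat (nat_lit 8)), (.negSucc (nat_lit 2557831807)), (.ofNat (nat_lit 19431865997063903012147431269888)), (.ofNat (nat_lit 0)), (.ofNat (nat_lit 298951784570213892492850954752)), (.negSucc (nat_lit 2557831823)), (.negSucc (nat_lit 2557831791)), (.negSucc (nat_lit 7279201882882054097286)), (.ofNat (nat_lit 7279201882882054097287)), (.negSucc (nat_lit 7279201882882054097286)), (.ofNat (nat_lit 7279201882882054097287)), (.ofNat (nat_lit 671926327650651147438))⟩,
    ⟨nat_lit 0, nat_lit 1, nat_lit 2, (.ofNat (nat_lit 8)), (.negSucc (nat_lit 2403314495)), (.ofNat (nat_lit 20556628705512176824298805002432)), (.ofNat (nat_lit 0)), (.ofNat (nat_lit 316255826238648874218156862528)), (.negSucc (nat_lit 2403314511)), (.negSucc (nat_lit 2403314479)), (.ofNat (nat_lit 7279201882882054097287)), (.negSucc (nat_lit 7279201882882054097286)), (.negSucc (nat_lit 7279201882882054097286)), (.ofNat (nat_lit 7279201882882054097287)), (.ofNat (nat_lit 671926327650651147438))⟩,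
    ⟨nat_lit 0, nat_lit 2, nat_lit 3, (.ofNat (nat_lit 8)), (.negSucc (nat_lit 2194821951)), (.ofNat (nat_lit 19038969386660507313609814874304)), (.ofNat (nat_lit 0)), (.ofNat (nat_lit 292907221333238574053845578816)), (.negSucc (nat_lit 2194821967)), (.negSucc (nat_lit 2194821935)), (.negSucc (nat_lit 7279201882882054097286)), (.ofNat (nat_lit 7279201882882054097287)), (.negSucc (nat_lit 7279201882882054097286)), (.ofNat (nat_lit 7279201882882054097287)), (.ofNat (nat_lit 671926327650651147438))⟩,
    ⟨nat_lit 1, nat_lit 3, nat_lit 4, (.ofNat (nat_lit 8)), (.negSucc (nat_lit 626684095)), (.ofNat (nat_lit 30453761420674334726605466470976)), (.ofNat (nat_lit 0)), (.ofNat (nat_lit 468519406471912841945073114304)), (.negSucc (nat_lit 626684111)), (.negSucc (nat_lit 626684079)), (.ofNat (nat_lit 7279201882882054097287)), (.negSucc (nat_lit 7279201882882054097286)), (.negSucc (nat_lit 7279201882882054097286)), (.ofNat (nat_lit 7279201882882054097287)), (.ofNat (nat_lit 671926327650651147438))⟩,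
    ⟨nat_lit 0, nat_lit 5, nat_lit 4, (.ofNat (nat_lit 8)), (.negSucc (nat_lit 869591231)), (.ofNat (nat_lit 32221931502411021913174517011008)), (.ofNat (nat_lit 0)), (.ofNat (nat_lit 495722023114015721738286167232)), (.negSucc (nat_lit 869591247)), (.negSucc (nat_lit 869591215)), (.ofNat (nat_lit 7279201882882054097287)), (.negSucc (nat_lit 7279201882882054097286)), (.negSucc (nat_lit 7279201882882054097286)), (.ofNat (nat_lit 7279201882882054097287)), (.ofNat (nat_lit 671926327650651147438))⟩,
    ⟨nat_lit 2, nat_lit 6, nat_lit 5, (.ofNat (nat_lit 8)), (.negSucc (nat_lit 2516536127)), (.ofNat (nat_lit 20233487114444833147651804913856)), (.ofNat (nat_lit 0)), (.ofNat (nat_lit 311284417145305125346693237824)), (.negSucc (nat_lit 2516536143)), (.negSucc (nat_lit 2516536111)), (.negSucc (nat_lit 7279201882882054097286)), (.ofNat (nat_lit 7279201882882054097287)), (.negSucc (nat_lit 7279201882882054097286)), (.ofNat (nat_lit 7279201882882054097287)), (.ofNat (nat_lit 671926327650651147438))⟩,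
    ⟨nat_lit 0, nat_lit 7, nat_lit 8, (.ofNat (nat_lit 8)), (.negSucc (nat_lit 2223049535)), (.ofNat (nat_lit 20037300394641998547879036821696)), (.ofNat (nat_lit 0)), (.ofNat (nat_lit 308266159917569208427129605184)), (.negSucc (nat_lit 2223049551)), (.negSucc (nat_lit 2223049519)), (.ofNat (nat_lit 7279201882882054097287)), (.negSucc (nat_lit 7279201882882054097286)), (.negSucc (nat_lit 7279201882882054097286)), (.ofNat (nat_lit 7279201882882054097287)), (.ofNat (nat_lit 671926327650651147438))⟩,
    ⟨nat_lit 0, nat_lit 8, nat_lit 9, (.ofNat (nat_lit 8)), (.ofNat (nat_lit 246202112)), (.ofNat (nat_lit 2063119149210783478527959742720)), (.ofNat (nat_lit 0)), (.ofNat (nat_lit 31740294603242822746400858880)), (.ofNat (nat_lit 246202096)), (.ofNat (nat_lit 246202128)), (.negSucc (nat_lit 7279201882882054097286)), (.ofNat (nat_lit 7279201882882054097287)), (.negSucc (nat_lit 7279201882882054097286)), (.ofNat (nat_lit 7279201882882054097287)), (.ofNat (nat_lit 671926327650651147438))⟩,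
    ⟨nat_lit 1, nat_lit 9, nat_lit 10, (.ofNat (nat_lit 8)), (.ofNat (nat_lit 1730060672)), (.ofNat (nat_lit 12864425173093436921170347469440)), (.ofNat (nat_lit 0)), (.ofNat (nat_lit 197914233432206721863017253760)), (.ofNat (nat_lit 1730060656)), (.ofNat (nat_lit 1730060688)), (.ofNat (nat_lit 7279201882882054097287)), (.negSucc (nat_lit 7279201882882054097286)), (.negSucc (nat_lit 7279201882882054097286)), (.ofNat (nat_lit 7279201882882054097287)), (.ofNat (nat_lit 671926327650651147438))⟩,
    ⟨nat_lit 0, nat_lit 20, nat_lit 10, (.ofNat (nat_lit 8)), (.ofNat (nat_lit 957642944)), (.ofNat (nat_lit 18487009753122515238969862973376)), (.ofNat (nat_lit 0)), (.ofNat (nat_lit 284415534663423311367126083904)), (.ofNat (nat_lit 957642928)), (.ofNat (nat_lit 957642960)), (.ofNat (nat_lit 7279201882882054097287)), (.negSucc (nat_lit 7279201882882054097286)), (.negSucc (nat_lit 7279201882882054097286)), (.ofNat (nat_lit 7279201882882054097287)), (.ofNat (nat_lit 671926327650651147438))⟩,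
    ⟨nat_lit 1, nat_lit 11, nat_lit 19, (.ofNat (nat_lit 8)), (.negSucc (nat_lit 773246911)), (.ofNat (nat_lit 17634762194281445858613887692480)), (.ofNat (nat_lit 0)), (.ofNat (nat_lit 271304033758176090130955961920)), (.negSucc (nat_lit 773246927)), (.negSucc (nat_lit 773246895)), (.ofNat (nat_lit 7279201882882054097287)), (.negSucc (nat_lit 7279201882882054097286)), (.negSucc (nat_lit 7279201882882054097286)), (.ofNat (nat_lit 7279201882882054097287)), (.ofNat (nat_lit 671926327650651147438))⟩,
    ⟨nat_lit 0, nat_lit 12, nat_lit 11, (.ofNat (nat_lit 8)), (.negSucc (nat_lit 1316736639)), (.ofNat (nat_lit 13678590742896790421198090524544)), (.ofNat (nat_lit 0)), (.ofNat (nat_lit 210439857583027544940294875776)), (.negSucc (nat_lit 1316736655)), (.negSucc (nat_lit 1316736623)), (.negSucc (nat_lit 7279201882882054097286)), (.ofNat (nat_lit 7279201882882054097287)), (.negSucc (nat_lit 7279201882882054097286)), (.ofNat (nat_lit 7279201882882054097287)), (.ofNat (nat_lit 671926327650651147438))⟩,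
    ⟨nat_lit 0, nat_lit 13, nat_lit 12, (.ofNat (nat_lit 8)), (.negSucc (nat_lit 2238094143)), (.ofNat (nat_lit 20385338020821100110667414016192)), (.ofNat (nat_lit 0)), (.ofNat (nat_lit 313620584935709232469996821568)), (.negSucc (nat_lit 2238094159)), (.negSucc (nat_lit 2238094127)), (.ofNat (nat_lit 7279201882882054097287)), (.negSucc (nat_lit 7279201882882054097286)), (.negSucc (nat_lit 7279201882882054097286)), (.ofNat (nat_lit 7279201882882054097287)), (.ofNat (nat_lit 671926327650651147438))⟩,
    ⟨nat_lit 0, nat_lit 6, nat_lit 13, (.ofNat (nat_lit 8)), (.negSucc (nat_lit 2387745599)), (.ofNat (nat_lit 19295994860529859238737648816320)), (.ofNat (nat_lit 0)), (.ofNat (nat_lit 296861459392767065209635593280)), (.negSucc (nat_lit 2387745615)), (.negSucc (nat_lit 2387745583)), (.negSucc (nat_lit 7279201882882054097286)), (.ofNat (nat_lit 7279201882882054097287)), (.negSucc (nat_lit 7279201882882054097286)), (.ofNat (nat_lit 7279201882882054097287)), (.ofNat (nat_lit 671926327650651147438))⟩,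
    ⟨nat_lit 0, nat_lit 21, nat_lit 14, (.ofNat (nat_lit 8)), (.negSucc (nat_lit 126632831)), (.ofNat (nat_lit 1387385597397486721597857486080)), (.ofNat (nat_lit 0)), (.ofNat (nat_lit 21344393806115180332151576320)), (.negSucc (nat_lit 126632847)), (.negSucc (nat_lit 126632815)), (.negSucc (nat_lit 7279201882882054097286)), (.ofNat (nat_lit 7279201882882054097287)), (.negSucc (nat_lit 7279201882882054097286)), (.ofNat (nat_lit 7279201882882054097287)), (.ofNat (nat_lit 671926327650651147438))⟩,
    ⟨nat_lit 1, nat_lit 14, nat_lit 15, (.ofNat (nat_lit 8)), (.ofNat (nat_lit 1443094336)), (.ofNat (nat_lit 12813746554314201177754976479296)), (.ofNat (nat_lit 0)), (.ofNat (nat_lit 197134562374064633502785275584)), (.ofNat (nat_lit 1443094320)), (.ofNat (nat_lit 1443094352)), (.ofNat (nat_lit 7279201882882054097287)), (.negSucc (nat_lit 7279201882882054097286)), (.negSucc (nat_lit 7279201882882054097286)), (.ofNat (nat_lit 7279201882882054097287)), (.ofNat (nat_lit 671925779630296436634))⟩,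
    ⟨nat_lit 0, nat_lit 16, nat_lit 15, (.ofNat (nat_lit 8)), (.ofNat (nat_lit 20550912)), (.ofNat (nat_lit 23168727324776485401462854569984)), (.ofNat (nat_lit 0)), (.ofNat (nat_lit 356441569051339254019622857088)), (.ofNat (nat_lit 20550896)), (.ofNat (nat_lit 20550928)), (.ofNat (nat_lit 7279201882882054097287)), (.negSucc (nat_lit 7279201882882054097286)), (.negSucc (nat_lit 7279201882882054097286)), (.ofNat (nat_lit 7279201882882054097287)), (.ofNat (nat_lit 671924681765403812206))⟩,
    ⟨nat_lit 0, nat_lit 17, nat_lit 16, (.ofNat (nat_lit 8)), (.negSucc (nat_lit 1400622719)), (.ofNat (nat_lit 12823717546819757952401007433600)), (.ofNat (nat_lit 0)), (.ofNat (nat_lit 197287962531548825045139368576)), (.negSucc (nat_lit 1400622735)), (.negSucc (nat_lit 1400622703)), (.negSucc (nat_lit 7279201882882054097286)), (.ofNat (nat_lit 7279201882882054097287)), (.negSucc (nat_lit 7279201882882054097286)), (.ofNat (nat_lit 7279201882882054097287)), (.ofNat (nat_lit 671925777624990152088))⟩,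
    ⟨nat_lit 2, nat_lit 17, nat_lit 18, (.ofNat (nat_lit 8)), (.negSucc (nat_lit 2398718783)), (.ofNat (nat_lit 20089060295185725123138235211968)), (.ofNat (nat_lit 0)), (.ofNat (nat_lit 309062466079780386508035755072)), (.negSucc (nat_lit 2398718799)), (.negSucc (nat_lit 2398718767)), (.negSucc (nat_lit 7279201882882054097286)), (.ofNat (nat_lit 7279201882882054097287)), (.negSucc (nat_lit 7279201882882054097286)), (.ofNat (nat_lit 7279201882882054097287)), (.ofNat (nat_lit 671926326557436464302))⟩,
    ⟨nat_lit 0, nat_lit 18, nat_lit 19, (.ofNat (nat_lit 8)), (.negSucc (nat_lit 1754565759)), (.ofNat (nat_lit 24777980200350694105237246457856)), (.ofNat (nat_lit 0)), (.ofNat (nat_lit 381199695390010678539912013824)), (.negSucc (nat_lit 1754565775)), (.negSucc (nat_lit 1754565743)), (.ofNat (nat_lit 7279201882882054097287)), (.negSucc (nat_lit 7279201882882054097286)), (.negSucc (nat_lit 7279201882882054097286)), (.ofNat (nat_lit 7279201882882054097287)), (.ofNat (nat_lit 671926327650651147438))⟩,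
    ⟨nat_lit 2, nat_lit 21, nat_lit 7, (.ofNat (nat_lit 8)), (.negSucc (nat_lit 2455882367)), (.ofNat (nat_lit 18342463205550837570430501094912)), (.ofNat (nat_lit 0)), (.ofNat (nat_lit 282191741623859039543456424448)), (.negSucc (nat_lit 2455882383)), (.negSucc (nat_lit 2455882351)), (.negSucc (nat_lit 7279201882882054097286)), (.ofNat (nat_lit 7279201882882054097287)), (.negSucc (nat_lit 7279201882882054097286)), (.ofNat (nat_lit 7279201882882054097287)), (.ofNat (nat_lit 671926327650651147438))⟩]
  es := [
    ⟨nat_lit 1, nat_lit 0, (.negSucc (nat_lit 2557831807)), (.negSucc (nat_lit 735193343)), (.negSucc (nat_lit 2557831791)), (.negSucc (nat_lit 735193359)), (.negSucc (nat_lit 7279201882882054097286)), (.negSucc (nat_lit 111987721275108524572)), (.ofNat (nat_lit 12506028987302989688081936768))⟩,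
    ⟨nat_lit 1, nat_lit 2, (.negSucc (nat_lit 2557831807)), (.negSucc (nat_lit 2403314495)), (.negSucc (nat_lit 2557831791)), (.negSucc (nat_lit 2403314511)), (.ofNat (nat_lit 7279201882882054097287)), (.ofNat (nat_lit 111987721275108524573)), (.ofNat (nat_lit 585397540153124795297619972736))⟩,
    ⟨nat_lit 2, nat_lit 3, (.negSucc (nat_lit 2403314495)), (.negSucc (nat_lit 2194821951)), (.negSucc (nat_lit 2403314479)), (.negSucc (nat_lit 2194821967)), (.negSucc (nat_lit 7279201882882054097286)), (.negSucc (nat_lit 111987721275108524572)), (.ofNat (nat_lit 47114112324172953138693752320))⟩,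
    ⟨nat_lit 3, nat_lit 4, (.negSucc (nat_lit 2194821951)), (.negSucc (nat_lit 626684095)), (.negSucc (nat_lit 2194821935)), (.negSucc (nat_lit 626684111)), (.ofNat (nat_lit 7279201882882054097287)), (.ofNat (nat_lit 111987721275108524573)), (.ofNat (nat_lit 538700330342304194968997405312))⟩,
    ⟨nat_lit 5, nat_lit 4, (.negSucc (nat_lit 869591231)), (.negSucc (nat_lit 626684095)), (.negSucc (nat_lit 869591215)), (.negSucc (nat_lit 626684111)), (.negSucc (nat_lit 7279201882882054097286)), (.negSucc (nat_lit 111987721275108524572)), (.ofNat (nat_lit 398338482601521488921148823296))⟩,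
    ⟨nat_lit 6, nat_lit 5, (.negSucc (nat_lit 2516536127)), (.negSucc (nat_lit 869591231)), (.negSucc (nat_lit 2516536111)), (.negSucc (nat_lit 869591247)), (.ofNat (nat_lit 7279201882882054097287)), (.ofNat (nat_lit 111987721275108524573)), (.ofNat (nat_lit 593105563626509954555423511168))⟩,
    ⟨nat_lit 6, nat_lit 14, (.negSucc (nat_lit 2516536127)), (.negSucc (nat_lit 2387745599)), (.negSucc (nat_lit 2516536111)), (.negSucc (nat_lit 2387745615)), (.negSucc (nat_lit 7279201882882054097286)), (.negSucc (nat_lit 111987721275108524572)), (.ofNat (nat_lit 29463270664100296137962964480))⟩,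
    ⟨nat_lit 21, nat_lit 7, (.negSucc (nat_lit 2455882367)), (.negSucc (nat_lit 2223049535)), (.negSucc (nat_lit 2455882351)), (.negSucc (nat_lit 2223049551)), (.ofNat (nat_lit 7279201882882054097287)), (.ofNat (nat_lit 111987721275108524573)), (.ofNat (nat_lit 557220411735896542328781853312))⟩,
    ⟨nat_lit 7, nat_lit 8, (.negSucc (nat_lit 2223049535)), (.ofNat (nat_lit 246202112)), (.negSucc (nat_lit 2223049519)), (.ofNat (nat_lit 246202096)), (.negSucc (nat_lit 7279201882882054097286)), (.negSucc (nat_lit 111987721275108524572)), (.ofNat (nat_lit 59311908099241874525477357056))⟩,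
    ⟨nat_lit 8, nat_lit 9, (.ofNat (nat_lit 246202112)), (.ofNat (nat_lit 1730060672)), (.ofNat (nat_lit 246202128)), (.ofNat (nat_lit 1730060656)), (.ofNat (nat_lit 7279201882882054097287)), (.ofNat (nat_lit 111987721275108524573)), (.ofNat (nat_lit 4168681107243770967324360704))⟩,
    ⟨nat_lit 10, nat_lit 9, (.ofNat (nat_lit 957642944)), (.ofNat (nat_lit 1730060672)), (.ofNat (nat_lit 957642960)), (.ofNat (nat_lit 1730060656)), (.negSucc (nat_lit 7279201882882054097286)), (.negSucc (nat_lit 111987721275108524572)), (.ofNat (nat_lit 391659785757169672758710146816))⟩,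
    ⟨nat_lit 12, nat_lit 11, (.negSucc (nat_lit 1316736639)), (.negSucc (nat_lit 773246911)), (.negSucc (nat_lit 1316736623)), (.negSucc (nat_lit 773246927)), (.ofNat (nat_lit 7279201882882054097287)), (.ofNat (nat_lit 111987721275108524573)), (.ofNat (nat_lit 357898193416070459221904330496))⟩,
    ⟨nat_lit 13, nat_lit 12, (.negSucc (nat_lit 2238094143)), (.negSucc (nat_lit 1316736639)), (.negSucc (nat_lit 2238094127)), (.negSucc (nat_lit 1316736655)), (.negSucc (nat_lit 7279201882882054097286)), (.negSucc (nat_lit 111987721275108524572)), (.ofNat (nat_lit 62981521749984630658685421056))⟩,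
    ⟨nat_lit 14, nat_lit 13, (.negSucc (nat_lit 2387745599)), (.negSucc (nat_lit 2238094143)), (.negSucc (nat_lit 2387745583)), (.negSucc (nat_lit 2238094159)), (.ofNat (nat_lit 7279201882882054097287)), (.ofNat (nat_lit 111987721275108524573)), (.ofNat (nat_lit 564259648121433834281308222080))⟩,
    ⟨nat_lit 15, nat_lit 16, (.negSucc (nat_lit 126632831)), (.ofNat (nat_lit 1443094336)), (.negSucc (nat_lit 126632815)), (.ofNat (nat_lit 1443094320)), (.ofNat (nat_lit 7279201882882054097287)), (.ofNat (nat_lit 111987721275108524573)), (.ofNat (nat_lit 35525716100408823906172157056))⟩,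
    ⟨nat_lit 17, nat_lit 16, (.ofNat (nat_lit 20550912)), (.ofNat (nat_lit 1443094336)), (.ofNat (nat_lit 20550928)), (.ofNat (nat_lit 1443094320)), (.negSucc (nat_lit 7279201882882054097286)), (.negSucc (nat_lit 111987447264931169170)), (.ofNat (nat_lit 358743013225185495163313191040))⟩,
    ⟨nat_lit 18, nat_lit 17, (.negSucc (nat_lit 1400622719)), (.ofNat (nat_lit 20550912)), (.negSucc (nat_lit 1400622703)), (.ofNat (nat_lit 20550896)), (.ofNat (nat_lit 7279201882882054097287)), (.ofNat (nat_lit 111987446808885368466)), (.ofNat (nat_lit 354140124886865169994190516096))⟩,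
    ⟨nat_lit 19, nat_lit 18, (.negSucc (nat_lit 2398718783)), (.negSucc (nat_lit 1400622719)), (.negSucc (nat_lit 2398718767)), (.negSucc (nat_lit 1400622735)), (.negSucc (nat_lit 7279201882882054097286)), (.negSucc (nat_lit 111987721001804853788)), (.ofNat (nat_lit 40435416135399785821987882496))⟩,
    ⟨nat_lit 19, nat_lit 20, (.negSucc (nat_lit 2398718783)), (.negSucc (nat_lit 1754565759)), (.negSucc (nat_lit 2398718767)), (.negSucc (nat_lit 1754565775)), (.ofNat (nat_lit 7279201882882054097287)), (.ofNat (nat_lit 111987721275108524573)), (.ofNat (nat_lit 577689516679739636039816434304))⟩,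
    ⟨nat_lit 20, nat_lit 11, (.negSucc (nat_lit 1754565759)), (.negSucc (nat_lit 773246911)), (.negSucc (nat_lit 1754565743)), (.negSucc (nat_lit 773246927)), (.negSucc (nat_lit 7279201882882054097286)), (.negSucc (nat_lit 111987721275108524572)), (.ofNat (nat_lit 184709874100281721040007593344))⟩,
    ⟨nat_lit 0, nat_lit 10, (.negSucc (nat_lit 735193343)), (.ofNat (nat_lit 957642944)), (.negSucc (nat_lit 735193327)), (.ofNat (nat_lit 957642928)), (.ofNat (nat_lit 7279201882882054097287)), (.ofNat (nat_lit 111987721275108524573)), (.ofNat (nat_lit 177171283569676949975542020992))⟩,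
    ⟨nat_lit 21, nat_lit 15, (.negSucc (nat_lit 2455882367)), (.negSucc (nat_lit 126632831)), (.negSucc (nat_lit 2455882351)), (.negSucc (nat_lit 126632847)), (.negSucc (nat_lit 7279201882882054097286)), (.negSucc (nat_lit 111987721275108524572)), (.ofNat (nat_lit 7163071511821536758130995584))⟩]

theorem ok89 : stOK 21 21 S89 = true := by decide +kernel

def S90 : SD where
  vs := [
    ⟨nat_lit 0, nat_lit 0, nat_lit 20, (.ofNat (nat_lit 8)), (.negSucc (nat_lit 735193343)), (.ofNat (nat_lit 6260833168384689414714244193920)), (.ofNat (nat_lit 0)), (.ofNat (nat_lit 96320510282841375610897171200)), (.negSucc (nat_lit 735193359)), (.negSucc (nat_lit 735193327)), (.negSucc (nat_lit 7392939412302086192556)), (.ofNat (nat_lit 7392939412302086192557)), (.negSucc (nat_lit 7392939412302086192556)), (.ofNat (nat_lit 7392939412302086192557)), (.ofNat (nat_lit 682425176520192571620))⟩,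
    ⟨nat_lit 2, nat_lit 0, nat_lit 1, (.ofNat (nat_lit 8)), (.negSucc (nat_lit 2557831807)), (.ofNat (nat_lit 19735488903268026496711942906368)), (.ofNat (nat_lit 0)), (.ofNat (nat_lit 303622906204123484564511636480)), (.negSucc (nat_lit 2557831823)), (.negSucc (nat_lit 2557831791)), (.negSucc (nat_lit 7392939412302086192556)), (.ofNat (nat_lit 7392939412302086192557)), (.negSucc (nat_lit 7392939412302086192556)), (.ofNat (nat_lit 7392939412302086192557)), (.ofNat (nat_lit 682425176520192571620))⟩,
    ⟨nat_lit 0, nat_lit 1, nat_lit 2, (.ofNat (nat_lit 8)), (.negSucc (nat_lit 2403314495)), (.ofNat (nat_lit 20877826029035804587178164953152)), (.ofNat (nat_lit 0)), (.ofNat (nat_lit 321197323523627762879359950720)), (.negSucc (nat_lit 2403314511)), (.negSucc (nat_lit 2403314479)), (.ofNat (nat_lit 7392939412302086192557)), (.negSucc (nat_lit 7392939254361738875917)), (.negSucc (nat_lit 7392939254361738875917)), (.ofNat (nat_lit 7392939412302086192557)), (.ofNat (nat_lit 682424860639497938342))⟩,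
    ⟨nat_lit 0, nat_lit 2, nat_lit 3, (.ofNat (nat_lit 8)), (.negSucc (nat_lit 2194821951)), (.ofNat (nat_lit 19336453316256462552674320797760)), (.ofNat (nat_lit 0)), (.ofNat (nat_lit 297483929595955239064505923456)), (.negSucc (nat_lit 2194821967)), (.negSucc (nat_lit 2194821935)), (.negSucc (nat_lit 7392939254361738875917)), (.ofNat (nat_lit 7392939415761519587437)), (.negSucc (nat_lit 7392939254361738875917)), (.ofNat (nat_lit 7392939415761519587437)), (.ofNat (nat_lit 682424551677670094824))⟩,
    ⟨nat_lit 1, nat_lit 3, nat_lit 4, (.ofNat (nat_lit 8)), (.negSucc (nat_lit 626684095)), (.ofNat (nat_lit 30929601481226624485819782512832)), (.ofNat (nat_lit 0)), (.ofNat (nat_lit 475840060552289759214316041856)), (.negSucc (nat_lit 626684111)), (.negSucc (nat_lit 626684079)), (.ofNat (nat_lit 7392939415761519587437)), (.negSucc (nat_lit 7392939254405311685645)), (.negSucc (nat_lit 7392939254405311685645)), (.ofNat (nat_lit 7392939415761519587437)), (.ofNat (nat_lit 682424874564377137318))⟩,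
    ⟨nat_lit 0, nat_lit 5, nat_lit 4, (.ofNat (nat_lit 8)), (.negSucc (nat_lit 869591231)), (.ofNat (nat_lit 32725399182136194130567384682688)), (.ofNat (nat_lit 0)), (.ofNat (nat_lit 503467679725172217392867671680)), (.negSucc (nat_lit 869591247)), (.negSucc (nat_lit 869591215)), (.ofNat (nat_lit 7392939412302086192557)), (.negSucc (nat_lit 7392939254405311685645)), (.negSucc (nat_lit 7392939254405311685645)), (.ofNat (nat_lit 7392939412302086192557)), (.ofNat (nat_lit 682424860726643557798))⟩,
    ⟨nat_lit 2, nat_lit 6, nat_lit 5, (.ofNat (nat_lit 8)), (.negSucc (nat_lit 2516536127)), (.ofNat (nat_lit 20549635350608033665583560343616)), (.ofNat (nat_lit 0)), (.ofNat (nat_lit 316148236163200517931755429760)), (.negSucc (nat_lit 2516536143)), (.negSucc (nat_lit 2516536111)), (.negSucc (nat_lit 7392939412302086192556)), (.ofNat (nat_lit 7392939412302086192557)), (.negSucc (nat_lit 7392939412302086192556)), (.ofNat (nat_lit 7392939412302086192557)), (.ofNat (nat_lit 682425176520192571620))⟩,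
    ⟨nat_lit 0, nat_lit 7, nat_lit 8, (.ofNat (nat_lit 8)), (.negSucc (nat_lit 2223049535)), (.ofNat (nat_lit 20350383213308279775189345697856)), (.ofNat (nat_lit 0)), (.ofNat (nat_lit 313082818666281227310308876160)), (.negSucc (nat_lit 2223049551)), (.negSucc (nat_lit 2223049519)), (.ofNat (nat_lit 7392939412302086192557)), (.negSucc (nat_lit 7392939412302086192556)), (.negSucc (nat_lit 7392939412302086192556)), (.ofNat (nat_lit 7392939412302086192557)), (.ofNat (nat_lit 682425176520192571620))⟩,
    ⟨nat_lit 0, nat_lit 8, nat_lit 9, (.ofNat (nat_lit 8)), (.ofNat (nat_lit 246202112)), (.ofNat (nat_lit 2095355385917201970379928113920)), (.ofNat (nat_lit 0)), (.ofNat (nat_lit 32236236706418491851968371200)), (.ofNat (nat_lit 246202096)), (.ofNat (nat_lit 246202128)), (.negSucc (nat_lit 7392939412302086192556)), (.ofNat (nat_lit 7392939412302086192557)), (.negSucc (nat_lit 7392939412302086192556)), (.ofNat (nat_lit 7392939412302086192557)), (.ofNat (nat_lit 682425176520192571620))⟩,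
    ⟨nat_lit 1, nat_lit 9, nat_lit 10, (.ofNat (nat_lit 8)), (.ofNat (nat_lit 1730060672)), (.ofNat (nat_lit 13065431816423021873063440851840)), (.ofNat (nat_lit 0)), (.ofNat (nat_lit 201006643329584951893093382400)), (.ofNat (nat_lit 1730060656)), (.ofNat (nat_lit 1730060688)), (.ofNat (nat_lit 7392939412302086192557)), (.negSucc (nat_lit 7392939412302086192556)), (.negSucc (nat_lit 7392939412302086192556)), (.ofNat (nat_lit 7392939412302086192557)), (.ofNat (nat_lit 682425176520192571620))⟩,
    ⟨nat_lit 0, nat_lit 20, nat_lit 10, (.ofNat (nat_lit 8)), (.ofNat (nat_lit 957642944)), (.ofNat (nat_lit 18775869280515054539578489302336)), (.ofNat (nat_lit 0)), (.ofNat (nat_lit 288859527392539300608626328960)), (.ofNat (nat_lit 957642928)), (.ofNat (nat_lit 957642960)), (.ofNat (nat_lit 7392939412302086192557)), (.negSucc (nat_lit 7392939412302086192556)), (.negSucc (nat_lit 7392939412302086192556)), (.ofNat (nat_lit 7392939412302086192557)), (.ofNat (nat_lit 682425176520192571620))⟩,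
    ⟨nat_lit 1, nat_lit 11, nat_lit 19, (.ofNat (nat_lit 8)), (.negSucc (nat_lit 773246911)), (.ofNat (nat_lit 17910305353567093450154464713280)), (.ofNat (nat_lit 0)), (.ofNat (nat_lit 275543159285647591540577020800)), (.negSucc (nat_lit 773246927)), (.negSucc (nat_lit 773246895)), (.ofNat (nat_lit 7392939412302086192557)), (.negSucc (nat_lit 7392939412302086192556)), (.negSucc (nat_lit 7392939412302086192556)), (.ofNat (nat_lit 7392939412302086192557)), (.ofNat (nat_lit 682425176520192571620))⟩,
    ⟨nat_lit 0, nat_lit 12, nat_lit 11, (.ofNat (nat_lit 8)), (.negSucc (nat_lit 1316736639)), (.ofNat (nat_lit 13892318723254552771529105158784)), (.ofNat (nat_lit 0)), (.ofNat (nat_lit 213727980357762350331014634240)), (.negSucc (nat_lit 1316736655)), (.negSucc (nat_lit 1316736623)), (.negSucc (nat_lit 7392939412302086192556)), (.ofNat (nat_lit 7392939412302086192557)), (.negSucc (nat_lit 7392939412302086192556)), (.ofNat (nat_lit 7392939412302086192557)), (.ofNat (nat_lit 682425176520192571620))⟩,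
    ⟨nat_lit 0, nat_lit 13, nat_lit 12, (.ofNat (nat_lit 8)), (.negSucc (nat_lit 2238094143)), (.ofNat (nat_lit 20703858927396429799896286056512)), (.ofNat (nat_lit 0)), (.ofNat (nat_lit 318520906575329689228872040320)), (.negSucc (nat_lit 2238094159)), (.negSucc (nat_lit 2238094127)), (.ofNat (nat_lit 7392939412302086192557)), (.negSucc (nat_lit 7392939412302086192556)), (.negSucc (nat_lit 7392939412302086192556)), (.ofNat (nat_lit 7392939412302086192557)), (.ofNat (nat_lit 682425176520192571620))⟩,
    ⟨nat_lit 0, nat_lit 6, nat_lit 13, (.ofNat (nat_lit 8)), (.negSucc (nat_lit 2387745599)), (.ofNat (nat_lit 19597494780225638289342634643520)), (.ofNat (nat_lit 0)), (.ofNat (nat_lit 301499919695779050604985827200)), (.negSucc (nat_lit 2387745615)), (.negSucc (nat_lit 2387745583)), (.negSucc (nat_lit 7392939412302086192556)), (.ofNat (nat_lit 7392939412302086192557)), (.negSucc (nat_lit 7392939412302086192556)), (.ofNat (nat_lit 7392939412302086192557)), (.ofNat (nat_lit 682425176520192571620))⟩,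
    ⟨nat_lit 0, nat_lit 21, nat_lit 14, (.ofNat (nat_lit 8)), (.negSucc (nat_lit 126632831)), (.ofNat (nat_lit 1409063497356822451622803162880)), (.ofNat (nat_lit 0)), (.ofNat (nat_lit 21677899959335730024945676800)), (.negSucc (nat_lit 126632847)), (.negSucc (nat_lit 126632815)), (.negSucc (nat_lit 7392939412302086192556)), (.ofNat (nat_lit 7392939412302086192557)), (.negSucc (nat_lit 7392939412302086192556)), (.ofNat (nat_lit 7392939412302086192557)), (.ofNat (nat_lit 682425176520192571620))⟩,
    ⟨nat_lit 1, nat_lit 14, nat_lit 15, (.ofNat (nat_lit 8)), (.ofNat (nat_lit 1443094336)), (.ofNat (nat_lit 13013961344225360571157205451456)), (.ofNat (nat_lit 0)), (.ofNat (nat_lit 200214789911159393402228972160)), (.ofNat (nat_lit 1443094320)), (.ofNat (nat_lit 1443094352)), (.ofNat (nat_lit 7392939412302086192557)), (.negSucc (nat_lit 7392939412302086192556)), (.negSucc (nat_lit 7392939412302086192556)), (.ofNat (nat_lit 7392939412302086192557)), (.ofNat (nat_lit 682425176520192571620))⟩,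
    ⟨nat_lit 0, nat_lit 16, nat_lit 15, (.ofNat (nat_lit 8)), (.ofNat (nat_lit 20550912)), (.ofNat (nat_lit 23530738689226117985860363546624)), (.ofNat (nat_lit 0)), (.ofNat (nat_lit 362011364449632584397508976640)), (.ofNat (nat_lit 20550896)), (.ofNat (nat_lit 20550928)), (.ofNat (nat_lit 7392939412302086192557)), (.negSucc (nat_lit 7392939412302086192556)), (.negSucc (nat_lit 7392939412302086192556)), (.ofNat (nat_lit 7392939412302086192557)), (.ofNat (nat_lit 682425176520192571620))⟩,
    ⟨nat_lit 0, nat_lit 17, nat_lit 16, (.ofNat (nat_lit 8)), (.negSucc (nat_lit 1400622719)), (.ofNat (nat_lit 13024088133488816670407080489600)), (.ofNat (nat_lit 0)), (.ofNat (nat_lit 200370586669058718006073056000)), (.negSucc (nat_lit 1400622735)), (.negSucc (nat_lit 1400622703)), (.negSucc (nat_lit 7392939412302086192556)), (.ofNat (nat_lit 7392939412302086192557)), (.negSucc (nat_lit 7392939412302086192556)), (.ofNat (nat_lit 7392939412302086192557)), (.ofNat (nat_lit 682425176520192571620))⟩,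
    ⟨nat_lit 2, nat_lit 17, nat_lit 18, (.ofNat (nat_lit 8)), (.negSucc (nat_lit 2398718783)), (.ofNat (nat_lit 20402951862298002078186968285248)), (.ofNat (nat_lit 0)), (.ofNat (nat_lit 313891567112276955048733073280)), (.negSucc (nat_lit 2398718799)), (.negSucc (nat_lit 2398718767)), (.negSucc (nat_lit 7392939412302086192556)), (.ofNat (nat_lit 7392939412302086192557)), (.negSucc (nat_lit 7392939412302086192556)), (.ofNat (nat_lit 7392939412302086192557)), (.ofNat (nat_lit 682425176520192571620))⟩,
    ⟨nat_lit 0, nat_lit 18, nat_lit 19, (.ofNat (nat_lit 8)), (.negSucc (nat_lit 1754565759)), (.ofNat (nat_lit 25165136140981173700631206127616)), (.ofNat (nat_lit 0)), (.ofNat (nat_lit 387155940630479595393959669760)), (.negSucc (nat_lit 1754565775)), (.negSucc (nat_lit 1754565743)), (.ofNat (nat_lit 7392939412302086192557)), (.negSucc (nat_lit 7392939412302086192556)), (.negSucc (nat_lit 7392939412302086192556)), (.ofNat (nat_lit 7392939412302086192557)), (.ofNat (nat_lit 682425176520192571620))⟩,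
    ⟨nat_lit 2, nat_lit 21, nat_lit 7, (.ofNat (nat_lit 8)), (.negSucc (nat_lit 2455882367)), (.ofNat (nat_lit 18629064193137569407468202066432)), (.ofNat (nat_lit 0)), (.ofNat (nat_lit 286600987586731837037700971520)), (.negSucc (nat_lit 2455882383)), (.negSucc (nat_lit 2455882351)), (.negSucc (nat_lit 7392939412302086192556)), (.ofNat (nat_lit 7392939412302086192557)), (.negSucc (nat_lit 7392939412302086192556)), (.ofNat (nat_lit 7392939412302086192557)), (.ofNat (nat_lit 682425176520192571620))⟩]
  es := [
    ⟨nat_lit 1, nat_lit 0, (.negSucc (nat_lit 2557831807)), (.negSucc (nat_lit 735193343)), (.negSucc (nat_lit 2557831791)), (.negSucc (nat_lit 735193359)), (.negSucc (nat_lit 7392939412302086192556)), (.negSucc (nat_lit 113737529420032095269)), (.ofNat (nat_lit 12701435690229598902019288320))⟩,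
    ⟨nat_lit 1, nat_lit 2, (.negSucc (nat_lit 2557831807)), (.negSucc (nat_lit 2403314495)), (.negSucc (nat_lit 2557831791)), (.negSucc (nat_lit 2403314511)), (.ofNat (nat_lit 7392939412302086192557)), (.ofNat (nat_lit 113737529420032095270)), (.ofNat (nat_lit 594544376718017370227003984640))⟩,
    ⟨nat_lit 2, nat_lit 3, (.negSucc (nat_lit 2403314495)), (.negSucc (nat_lit 2194821951)), (.negSucc (nat_lit 2403314479)), (.negSucc (nat_lit 2194821967)), (.negSucc (nat_lit 7392939254361738875917)), (.negSucc (nat_lit 113737371479684778630)), (.ofNat (nat_lit 47850649909564364884926615744))⟩,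
    ⟨nat_lit 3, nat_lit 4, (.negSucc (nat_lit 2194821951)), (.negSucc (nat_lit 626684095)), (.negSucc (nat_lit 2194821935)), (.negSucc (nat_lit 626684111)), (.ofNat (nat_lit 7392939415761519587437)), (.ofNat (nat_lit 113737532879465490150)), (.ofNat (nat_lit 547117563526127866872165696256))⟩,
    ⟨nat_lit 5, nat_lit 4, (.negSucc (nat_lit 869591231)), (.negSucc (nat_lit 626684095)), (.negSucc (nat_lit 869591215)), (.negSucc (nat_lit 626684111)), (.negSucc (nat_lit 7392939254405311685645)), (.negSucc (nat_lit 113737371523257588358)), (.ofNat (nat_lit 404562658697820934478416003392))⟩,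
    ⟨nat_lit 6, nat_lit 5, (.negSucc (nat_lit 2516536127)), (.negSucc (nat_lit 869591231)), (.negSucc (nat_lit 2516536111)), (.negSucc (nat_lit 869591247)), (.ofNat (nat_lit 7392939412302086192557)), (.ofNat (nat_lit 113737529420032095270)), (.ofNat (nat_lit 602372838058174172598248344320))⟩,
    ⟨nat_lit 6, nat_lit 14, (.negSucc (nat_lit 2516536127)), (.negSucc (nat_lit 2387745599)), (.negSucc (nat_lit 2516536111)), (.negSucc (nat_lit 2387745615)), (.negSucc (nat_lit 7392939412302086192556)), (.negSucc (nat_lit 113737529420032095269)), (.ofNat (nat_lit 29923634268226863265262515200))⟩,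
    ⟨nat_lit 21, nat_lit 7, (.negSucc (nat_lit 2455882367)), (.negSucc (nat_lit 2223049535)), (.negSucc (nat_lit 2455882351)), (.negSucc (nat_lit 2223049551)), (.ofNat (nat_lit 7392939412302086192557)), (.ofNat (nat_lit 113737529420032095270)), (.ofNat (nat_lit 565926980669269925805390170880))⟩,
    ⟨nat_lit 7, nat_lit 8, (.negSucc (nat_lit 2223049535)), (.ofNat (nat_lit 246202112)), (.negSucc (nat_lit 2223049519)), (.ofNat (nat_lit 246202096)), (.negSucc (nat_lit 7392939412302086192556)), (.negSucc (nat_lit 113737529420032095269)), (.ofNat (nat_lit 60238656663292528815227581440))⟩,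
    ⟨nat_lit 8, nat_lit 9, (.ofNat (nat_lit 246202112)), (.ofNat (nat_lit 1730060672)), (.ofNat (nat_lit 246202128)), (.ofNat (nat_lit 1730060656)), (.ofNat (nat_lit 7392939412302086192557)), (.ofNat (nat_lit 113737529420032095270)), (.ofNat (nat_lit 4233816749544454888709160960))⟩,
    ⟨nat_lit 10, nat_lit 9, (.ofNat (nat_lit 957642944)), (.ofNat (nat_lit 1730060672)), (.ofNat (nat_lit 957642960)), (.ofNat (nat_lit 1730060656)), (.negSucc (nat_lit 7392939412302086192556)), (.negSucc (nat_lit 113737529420032095269)), (.ofNat (nat_lit 397779469909625448897477603840))⟩,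
    ⟨nat_lit 12, nat_lit 11, (.negSucc (nat_lit 1316736639)), (.negSucc (nat_lit 773246911)), (.negSucc (nat_lit 1316736623)), (.negSucc (nat_lit 773246927)), (.ofNat (nat_lit 7392939412302086192557)), (.ofNat (nat_lit 113737529420032095270)), (.ofNat (nat_lit 363490352688196560148994327040))⟩,
    ⟨nat_lit 13, nat_lit 12, (.negSucc (nat_lit 2238094143)), (.negSucc (nat_lit 1316736639)), (.negSucc (nat_lit 2238094127)), (.negSucc (nat_lit 1316736655)), (.negSucc (nat_lit 7392939412302086192556)), (.negSucc (nat_lit 113737529420032095269)), (.ofNat (nat_lit 63965608027328140513034941440))⟩,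
    ⟨nat_lit 14, nat_lit 13, (.negSucc (nat_lit 2387745599)), (.negSucc (nat_lit 2238094143)), (.negSucc (nat_lit 2387745583)), (.negSucc (nat_lit 2238094159)), (.ofNat (nat_lit 7392939412302086192557)), (.ofNat (nat_lit 113737529420032095270)), (.ofNat (nat_lit 573076205123331237944709139200))⟩,
    ⟨nat_lit 15, nat_lit 16, (.negSucc (nat_lit 126632831)), (.ofNat (nat_lit 1443094336)), (.negSucc (nat_lit 126632815)), (.ofNat (nat_lit 1443094320)), (.ofNat (nat_lit 7392939412302086192557)), (.ofNat (nat_lit 113737529420032095270)), (.ofNat (nat_lit 36080805414477711779879581440))⟩,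
    ⟨nat_lit 17, nat_lit 16, (.ofNat (nat_lit 20550912)), (.ofNat (nat_lit 1443094336)), (.ofNat (nat_lit 20550928)), (.ofNat (nat_lit 1443094320)), (.negSucc (nat_lit 7392939412302086192556)), (.negSucc (nat_lit 113737529420032095269)), (.ofNat (nat_lit 364348774407841075024578362880))⟩,
    ⟨nat_lit 18, nat_lit 17, (.negSucc (nat_lit 1400622719)), (.ofNat (nat_lit 20550912)), (.negSucc (nat_lit 1400622703)), (.ofNat (nat_lit 20550896)), (.ofNat (nat_lit 7392939412302086192557)), (.ofNat (nat_lit 113737529420032095270)), (.ofNat (nat_lit 359673954491424093770439590400))⟩,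
    ⟨nat_lit 19, nat_lit 18, (.negSucc (nat_lit 2398718783)), (.negSucc (nat_lit 1400622719)), (.negSucc (nat_lit 2398718767)), (.negSucc (nat_lit 1400622735)), (.negSucc (nat_lit 7392939412302086192556)), (.negSucc (nat_lit 113737529420032095269)), (.ofNat (nat_lit 41067218846693342241706521600))⟩,
    ⟨nat_lit 19, nat_lit 20, (.negSucc (nat_lit 2398718783)), (.negSucc (nat_lit 1754565759)), (.negSucc (nat_lit 2398718767)), (.negSucc (nat_lit 1754565775)), (.ofNat (nat_lit 7392939412302086192557)), (.ofNat (nat_lit 113737529420032095270)), (.ofNat (nat_lit 586715915377860567855759624960))⟩,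
    ⟨nat_lit 20, nat_lit 11, (.negSucc (nat_lit 1754565759)), (.negSucc (nat_lit 773246911)), (.negSucc (nat_lit 1754565743)), (.negSucc (nat_lit 773246927)), (.negSucc (nat_lit 7392939412302086192556)), (.negSucc (nat_lit 113737529420032095269)), (.ofNat (nat_lit 187595965883098622932159714560))⟩,
    ⟨nat_lit 0, nat_lit 10, (.negSucc (nat_lit 735193343)), (.ofNat (nat_lit 957642944)), (.negSucc (nat_lit 735193327)), (.ofNat (nat_lit 957642928)), (.ofNat (nat_lit 7392939412302086192557)), (.ofNat (nat_lit 113737529420032095270)), (.ofNat (nat_lit 179939584875453152319775054080))⟩,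
    ⟨nat_lit 21, nat_lit 15, (.negSucc (nat_lit 2455882367)), (.negSucc (nat_lit 126632831)), (.negSucc (nat_lit 2455882351)), (.negSucc (nat_lit 126632847)), (.negSucc (nat_lit 7392939412302086192556)), (.negSucc (nat_lit 113737529420032095269)), (.ofNat (nat_lit 7274994504193748270011772160))⟩]

theorem ok90 : stOK 21 21 S90 = true := by decide +kernel

def S91 : SD where
  vs := [
    ⟨nat_lit 0, nat_lit 0, nat_lit 20, (.ofNat (nat_lit 8)), (.negSucc (nat_lit 735455487)), (.ofNat (nat_lit 6266647212512584968962829180544)), (.negSucc (nat_lit 262143)), (.ofNat (nat_lit 5814044127895554248584986624)), (.negSucc (nat_lit 735455503)), (.negSucc (nat_lit 735455471)), (.negSucc (nat_lit 7392939412302086192556)), (.ofNat (nat_lit 7392939412302086192557)), (.negSucc (nat_lit 7392939412302086192556)), (.ofNat (nat_lit 7392939412302086192557)), (.ofNat (nat_lit 0))⟩,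
    ⟨nat_lit 2, nat_lit 0, nat_lit 1, (.ofNat (nat_lit 8)), (.negSucc (nat_lit 3383684927)), (.ofNat (nat_lit 25844847012307267797509785458624)), (.negSucc (nat_lit 825853119)), (.ofNat (nat_lit 6109358109039241300797842552256)), (.negSucc (nat_lit 3383684943)), (.negSucc (nat_lit 3383684911)), (.negSucc (nat_lit 7392939412302086192556)), (.ofNat (nat_lit 7392939412302086192557)), (.negSucc (nat_lit 7392939412302086192556)), (.ofNat (nat_lit 7392939412302086192557)), (.ofNat (nat_lit 0))⟩,
    ⟨nat_lit 0, nat_lit 1, nat_lit 2, (.ofNat (nat_lit 8)), (.negSucc (nat_lit 3228381183)), (.ofNat (nat_lit 26992998182202941442224592492032)), (.negSucc (nat_lit 825066687)), (.ofNat (nat_lit 6115172153167136855046427538880)), (.negSucc (nat_lit 3228381199)), (.negSucc (nat_lit 3228381167)), (.ofNat (nat_lit 7392939412302086192557)), (.negSucc (nat_lit 7392939254361738875917)), (.negSucc (nat_lit 7392939254361738875917)), (.ofNat (nat_lit 7392939412302086192557)), (.ofNat (nat_lit 0))⟩,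
    ⟨nat_lit 0, nat_lit 2, nat_lit 3, (.ofNat (nat_lit 8)), (.negSucc (nat_lit 2194821951)), (.ofNat (nat_lit 19351957564242169959446241117056)), (.ofNat (nat_lit 0)), (.ofNat (nat_lit 15504247985707406771920319296)), (.negSucc (nat_lit 2194821967)), (.negSucc (nat_lit 2194821935)), (.negSucc (nat_lit 7392939254361738875917)), (.ofNat (nat_lit 7392939415761519587437)), (.negSucc (nat_lit 7392939254361738875917)), (.ofNat (nat_lit 7392939415761519587437)), (.ofNat (nat_lit 0))⟩,
    ⟨nat_lit 1, nat_lit 3, nat_lit 4, (.ofNat (nat_lit 8)), (.negSucc (nat_lit 625111231)), (.ofNat (nat_lit 30956733817473564219336077341696)), (.ofNat (nat_lit 1572864)), (.ofNat (nat_lit 27132336246939733516294828864)), (.negSucc (nat_lit 625111247)), (.negSucc (nat_lit 625111215)), (.ofNat (nat_lit 7392939415761519587437)), (.negSucc (nat_lit 7392939254405311685645)), (.negSucc (nat_lit 7392939254405311685645)), (.ofNat (nat_lit 7392939415761519587437)), (.ofNat (nat_lit 0))⟩,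
    ⟨nat_lit 0, nat_lit 5, nat_lit 4, (.ofNat (nat_lit 8)), (.negSucc (nat_lit 1693347199)), (.ofNat (nat_lit 38854137438268420612193843857024)), (.negSucc (nat_lit 823755967)), (.ofNat (nat_lit 6128738256132226481626459174336)), (.negSucc (nat_lit 1693347215)), (.negSucc (nat_lit 1693347183)), (.ofNat (nat_lit 7392939412302086192557)), (.negSucc (nat_lit 7392939254405311685645)), (.negSucc (nat_lit 7392939254405311685645)), (.ofNat (nat_lit 7392939412302086192557)), (.ofNat (nat_lit 0))⟩,
    ⟨nat_lit 2, nat_lit 6, nat_lit 5, (.ofNat (nat_lit 8)), (.negSucc (nat_lit 3342389247)), (.ofNat (nat_lit 26662869489065872002547126220288)), (.negSucc (nat_lit 825853119)), (.ofNat (nat_lit 6113234138457838336963565876672)), (.negSucc (nat_lit 3342389263)), (.negSucc (nat_lit 3342389231)), (.negSucc (nat_lit 7392939412302086192556)), (.ofNat (nat_lit 7392939412302086192557)), (.negSucc (nat_lit 7392939412302086192556)), (.ofNat (nat_lit 7392939412302086192557)), (.ofNat (nat_lit 0))⟩,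
    ⟨nat_lit 0, nat_lit 7, nat_lit 8, (.ofNat (nat_lit 8)), (.negSucc (nat_lit 3047067647)), (.ofNat (nat_lit 26461679337056819594070049912320)), (.negSucc (nat_lit 824018111)), (.ofNat (nat_lit 6111296123748539818880704214464)), (.negSucc (nat_lit 3047067663)), (.negSucc (nat_lit 3047067631)), (.ofNat (nat_lit 7392939412302086192557)), (.negSucc (nat_lit 7392939412302086192556)), (.negSucc (nat_lit 7392939412302086192556)), (.ofNat (nat_lit 7392939412302086192557)), (.ofNat (nat_lit 0))⟩,
    ⟨nat_lit 0, nat_lit 8, nat_lit 9, (.ofNat (nat_lit 8)), (.ofNat (nat_lit 247512832)), (.ofNat (nat_lit 2105045459463694560794236424960)), (.ofNat (nat_lit 1310720)), (.ofNat (nat_lit 9690073546492590414308311040)), (.ofNat (nat_lit 247512816)), (.ofNat (nat_lit 247512848)), (.negSucc (nat_lit 7392939412302086192556)), (.ofNat (nat_lit 7392939412302086192557)), (.negSucc (nat_lit 7392939412302086192556)), (.ofNat (nat_lit 7392939412302086192557)), (.ofNat (nat_lit 0))⟩,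
    ⟨nat_lit 1, nat_lit 9, nat_lit 10, (.ofNat (nat_lit 8)), (.ofNat (nat_lit 1732419968)), (.ofNat (nat_lit 13082873948806708535809195811712)), (.ofNat (nat_lit 2359296)), (.ofNat (nat_lit 17442132383686662745754959872)), (.ofNat (nat_lit 1732419952)), (.ofNat (nat_lit 1732419984)), (.ofNat (nat_lit 7392939412302086192557)), (.negSucc (nat_lit 7392939412302086192556)), (.negSucc (nat_lit 7392939412302086192556)), (.ofNat (nat_lit 7392939412302086192557)), (.ofNat (nat_lit 0))⟩,
    ⟨nat_lit 0, nat_lit 20, nat_lit 10, (.ofNat (nat_lit 8)), (.ofNat (nat_lit 959477952)), (.ofNat (nat_lit 18797187442317338238489967586624)), (.ofNat (nat_lit 1835008)), (.ofNat (nat_lit 21318161802283698911478284288)), (.ofNat (nat_lit 959477936)), (.ofNat (nat_lit 959477968)), (.ofNat (nat_lit 7392939412302086192557)), (.negSucc (nat_lit 7392939412302086192556)), (.negSucc (nat_lit 7392939412302086192556)), (.ofNat (nat_lit 7392939412302086192557)), (.ofNat (nat_lit 0))⟩,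
    ⟨nat_lit 1, nat_lit 11, nat_lit 19, (.ofNat (nat_lit 8)), (.negSucc (nat_lit 1596478591)), (.ofNat (nat_lit 24023539492024931787118030589952)), (.negSucc (nat_lit 823231679)), (.ofNat (nat_lit 6113234138457838336963565876672)), (.negSucc (nat_lit 1596478607)), (.negSucc (nat_lit 1596478575)), (.ofNat (nat_lit 7392939412302086192557)), (.negSucc (nat_lit 7392939412302086192556)), (.negSucc (nat_lit 7392939412302086192556)), (.ofNat (nat_lit 7392939412302086192557)), (.ofNat (nat_lit 0))⟩,
    ⟨nat_lit 0, nat_lit 12, nat_lit 11, (.ofNat (nat_lit 8)), (.negSucc (nat_lit 2140230463)), (.ofNat (nat_lit 20003614847003092590409809373248)), (.negSucc (nat_lit 823493823)), (.ofNat (nat_lit 6111296123748539818880704214464)), (.negSucc (nat_lit 2140230479)), (.negSucc (nat_lit 2140230447)), (.negSucc (nat_lit 7392939412302086192556)), (.ofNat (nat_lit 7392939412302086192557)), (.negSucc (nat_lit 7392939412302086192556)), (.ofNat (nat_lit 7392939412302086192557)), (.ofNat (nat_lit 0))⟩,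
    ⟨nat_lit 0, nat_lit 13, nat_lit 12, (.ofNat (nat_lit 8)), (.negSucc (nat_lit 3062112255)), (.ofNat (nat_lit 26819031080563566654942713595392)), (.negSucc (nat_lit 824018111)), (.ofNat (nat_lit 6115172153167136855046427538880)), (.negSucc (nat_lit 3062112271)), (.negSucc (nat_lit 3062112239)), (.ofNat (nat_lit 7392939412302086192557)), (.negSucc (nat_lit 7392939412302086192556)), (.negSucc (nat_lit 7392939412302086192556)), (.ofNat (nat_lit 7392939412302086192557)), (.ofNat (nat_lit 0))⟩,
    ⟨nat_lit 0, nat_lit 6, nat_lit 13, (.ofNat (nat_lit 8)), (.negSucc (nat_lit 3212812287)), (.ofNat (nat_lit 25704914874555581072057615533568)), (.negSucc (nat_lit 825066687)), (.ofNat (nat_lit 6107420094329942782714980890048)), (.negSucc (nat_lit 3212812303)), (.negSucc (nat_lit 3212812271)), (.negSucc (nat_lit 7392939412302086192556)), (.ofNat (nat_lit 7392939412302086192557)), (.negSucc (nat_lit 7392939412302086192556)), (.ofNat (nat_lit 7392939412302086192557)), (.ofNat (nat_lit 0))⟩,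
    ⟨nat_lit 0, nat_lit 21, nat_lit 14, (.ofNat (nat_lit 8)), (.negSucc (nat_lit 126894975)), (.ofNat (nat_lit 1411001512066120969705664825088)), (.negSucc (nat_lit 262143)), (.ofNat (nat_lit 1938014709298518082861662208)), (.negSucc (nat_lit 126894991)), (.negSucc (nat_lit 126894959)), (.negSucc (nat_lit 7392939412302086192556)), (.ofNat (nat_lit 7392939412302086192557)), (.negSucc (nat_lit 7392939412302086192556)), (.ofNat (nat_lit 7392939412302086192557)), (.ofNat (nat_lit 0))⟩,
    ⟨nat_lit 1, nat_lit 14, nat_lit 15, (.ofNat (nat_lit 8)), (.ofNat (nat_lit 1444929344)), (.ofNat (nat_lit 13031403476609047233902960411328)), (.ofNat (nat_lit 1835008)), (.ofNat (nat_lit 17442132383686662745754959872)), (.ofNat (nat_lit 1444929328)), (.ofNat (nat_lit 1444929360)), (.ofNat (nat_lit 7392939412302086192557)), (.negSucc (nat_lit 7392939412302086192556)), (.negSucc (nat_lit 7392939412302086192556)), (.ofNat (nat_lit 7392939412302086192557)), (.ofNat (nat_lit 0))⟩,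
    ⟨nat_lit 0, nat_lit 16, nat_lit 15, (.ofNat (nat_lit 8)), (.ofNat (nat_lit 21861632)), (.ofNat (nat_lit 23552056851028401684771841830912)), (.ofNat (nat_lit 1310720)), (.ofNat (nat_lit 21318161802283698911478284288)), (.ofNat (nat_lit 21861616)), (.ofNat (nat_lit 21861648)), (.ofNat (nat_lit 7392939412302086192557)), (.negSucc (nat_lit 7392939412302086192556)), (.negSucc (nat_lit 7392939412302086192556)), (.ofNat (nat_lit 7392939412302086192557)), (.ofNat (nat_lit 0))⟩,
    ⟨nat_lit 0, nat_lit 17, nat_lit 16, (.ofNat (nat_lit 8)), (.negSucc (nat_lit 1400622719)), (.ofNat (nat_lit 13035716221744607778904250462848)), (.ofNat (nat_lit 0)), (.ofNat (nat_lit 11628088255791108497169973248)), (.negSucc (nat_lit 1400622735)), (.negSucc (nat_lit 1400622703)), (.negSucc (nat_lit 7392939412302086192556)), (.ofNat (nat_lit 7392939412302086192557)), (.negSucc (nat_lit 7392939412302086192556)), (.ofNat (nat_lit 7392939412302086192557)), (.ofNat (nat_lit 0))⟩,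
    ⟨nat_lit 2, nat_lit 17, nat_lit 18, (.ofNat (nat_lit 8)), (.negSucc (nat_lit 3223785471)), (.ofNat (nat_lit 26514247986046541897067672499712)), (.negSucc (nat_lit 825066687)), (.ofNat (nat_lit 6111296123748539818880704214464)), (.negSucc (nat_lit 3223785487)), (.negSucc (nat_lit 3223785455)), (.negSucc (nat_lit 7392939412302086192556)), (.ofNat (nat_lit 7392939412302086192557)), (.negSucc (nat_lit 7392939412302086192556)), (.ofNat (nat_lit 7392939412302086192557)), (.ofNat (nat_lit 0))⟩,
    ⟨nat_lit 0, nat_lit 18, nat_lit 19, (.ofNat (nat_lit 8)), (.negSucc (nat_lit 2578583871)), (.ofNat (nat_lit 31284184323566907591843356990912)), (.negSucc (nat_lit 824018111)), (.ofNat (nat_lit 6119048182585733891212150863296)), (.negSucc (nat_lit 2578583887)), (.negSucc (nat_lit 2578583855)), (.ofNat (nat_lit 7392939412302086192557)), (.negSucc (nat_lit 7392939412302086192556)), (.negSucc (nat_lit 7392939412302086192556)), (.ofNat (nat_lit 7392939412302086192557)), (.ofNat (nat_lit 0))⟩,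
    ⟨nat_lit 2, nat_lit 21, nat_lit 7, (.ofNat (nat_lit 8)), (.negSucc (nat_lit 3281211199)), (.ofNat (nat_lit 24730670243339616635934597969856)), (.negSucc (nat_lit 825328831)), (.ofNat (nat_lit 6101606050202047228466395903424)), (.negSucc (nat_lit 3281211215)), (.negSucc (nat_lit 3281211183)), (.negSucc (nat_lit 7392939412302086192556)), (.ofNat (nat_lit 7392939412302086192557)), (.negSucc (nat_lit 7392939412302086192556)), (.ofNat (nat_lit 7392939412302086192557)), (.ofNat (nat_lit 0))⟩]
  es := [
    ⟨nat_lit 1, nat_lit 0, (.negSucc (nat_lit 3383684927)), (.negSucc (nat_lit 735455487)), (.negSucc (nat_lit 3383684911)), (.negSucc (nat_lit 735455503)), (.negSucc (nat_lit 7392939412302086192556)), (.ofNat (nat_lit 0)), (.ofNat (nat_lit 3876029418597036165723324416))⟩,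
    ⟨nat_lit 1, nat_lit 2, (.negSucc (nat_lit 3383684927)), (.negSucc (nat_lit 3228381183)), (.negSucc (nat_lit 3383684911)), (.negSucc (nat_lit 3228381199)), (.ofNat (nat_lit 7392939412302086192557)), (.ofNat (nat_lit 0)), (.ofNat (nat_lit 12214840188659885565429961780096))⟩,
    ⟨nat_lit 2, nat_lit 3, (.negSucc (nat_lit 3228381183)), (.negSucc (nat_lit 2194821951)), (.negSucc (nat_lit 3228381167)), (.negSucc (nat_lit 2194821967)), (.negSucc (nat_lit 7392939254361738875917)), (.ofNat (nat_lit 0)), (.ofNat (nat_lit 15504247985707406771920319296))⟩,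
    ⟨nat_lit 3, nat_lit 4, (.negSucc (nat_lit 2194821951)), (.negSucc (nat_lit 625111231)), (.negSucc (nat_lit 2194821935)), (.negSucc (nat_lit 625111247)), (.ofNat (nat_lit 7392939415761519587437)), (.ofNat (nat_lit 0)), (.ofNat (nat_lit 15504247985707406771920319296))⟩,
    ⟨nat_lit 5, nat_lit 4, (.negSucc (nat_lit 1693347199)), (.negSucc (nat_lit 625111231)), (.negSucc (nat_lit 1693347183)), (.negSucc (nat_lit 625111247)), (.negSucc (nat_lit 7392939254405311685645)), (.ofNat (nat_lit 0)), (.ofNat (nat_lit 38760424254380689675426739008))⟩,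
    ⟨nat_lit 6, nat_lit 5, (.negSucc (nat_lit 3342389247)), (.negSucc (nat_lit 1693347199)), (.negSucc (nat_lit 3342389231)), (.negSucc (nat_lit 1693347215)), (.ofNat (nat_lit 7392939412302086192557)), (.ofNat (nat_lit 0)), (.ofNat (nat_lit 12218716218078482601595685104512))⟩,
    ⟨nat_lit 6, nat_lit 14, (.negSucc (nat_lit 3342389247)), (.negSucc (nat_lit 3212812287)), (.negSucc (nat_lit 3342389231)), (.negSucc (nat_lit 3212812303)), (.negSucc (nat_lit 7392939412302086192556)), (.ofNat (nat_lit 0)), (.ofNat (nat_lit 7752058837194072331446648832))⟩,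
    ⟨nat_lit 21, nat_lit 7, (.negSucc (nat_lit 3281211199)), (.negSucc (nat_lit 3047067647)), (.negSucc (nat_lit 3281211183)), (.negSucc (nat_lit 3047067663)), (.ofNat (nat_lit 7392939412302086192557)), (.ofNat (nat_lit 0)), (.ofNat (nat_lit 12203212100404094456932791806848))⟩,
    ⟨nat_lit 7, nat_lit 8, (.negSucc (nat_lit 3047067647)), (.ofNat (nat_lit 247512832)), (.negSucc (nat_lit 3047067631)), (.ofNat (nat_lit 247512816)), (.negSucc (nat_lit 7392939412302086192556)), (.ofNat (nat_lit 0)), (.ofNat (nat_lit 19380147092985180828616622080))⟩,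
    ⟨nat_lit 8, nat_lit 9, (.ofNat (nat_lit 247512832)), (.ofNat (nat_lit 1732419968)), (.ofNat (nat_lit 247512848)), (.ofNat (nat_lit 1732419952)), (.ofNat (nat_lit 7392939412302086192557)), (.ofNat (nat_lit 0)), (.ofNat (nat_lit 0))⟩,
    ⟨nat_lit 10, nat_lit 9, (.ofNat (nat_lit 959477952)), (.ofNat (nat_lit 1732419968)), (.ofNat (nat_lit 959477968)), (.ofNat (nat_lit 1732419952)), (.negSucc (nat_lit 7392939412302086192556)), (.ofNat (nat_lit 0)), (.ofNat (nat_lit 34884264767373325491509919744))⟩,
    ⟨nat_lit 12, nat_lit 11, (.negSucc (nat_lit 2140230463)), (.negSucc (nat_lit 1596478591)), (.negSucc (nat_lit 2140230447)), (.negSucc (nat_lit 1596478607)), (.ofNat (nat_lit 7392939412302086192557)), (.ofNat (nat_lit 0)), (.ofNat (nat_lit 12199336070985497420767068482432))⟩,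
    ⟨nat_lit 13, nat_lit 12, (.negSucc (nat_lit 3062112255)), (.negSucc (nat_lit 2140230463)), (.negSucc (nat_lit 3062112239)), (.negSucc (nat_lit 2140230479)), (.negSucc (nat_lit 7392939412302086192556)), (.ofNat (nat_lit 0)), (.ofNat (nat_lit 23256176511582216994339946496))⟩,
    ⟨nat_lit 14, nat_lit 13, (.negSucc (nat_lit 3212812287)), (.negSucc (nat_lit 3062112255)), (.negSucc (nat_lit 3212812271)), (.negSucc (nat_lit 3062112271)), (.ofNat (nat_lit 7392939412302086192557)), (.ofNat (nat_lit 0)), (.ofNat (nat_lit 12207088129822691493098515131264))⟩,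
    ⟨nat_lit 15, nat_lit 16, (.negSucc (nat_lit 126894975)), (.ofNat (nat_lit 1444929344)), (.negSucc (nat_lit 126894959)), (.ofNat (nat_lit 1444929328)), (.ofNat (nat_lit 7392939412302086192557)), (.ofNat (nat_lit 0)), (.ofNat (nat_lit 3876029418597036165723324416))⟩,
    ⟨nat_lit 17, nat_lit 16, (.ofNat (nat_lit 21861632)), (.ofNat (nat_lit 1444929344)), (.ofNat (nat_lit 21861648)), (.ofNat (nat_lit 1444929328)), (.negSucc (nat_lit 7392939412302086192556)), (.ofNat (nat_lit 0)), (.ofNat (nat_lit 31008235348776289325786595328))⟩,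
    ⟨nat_lit 18, nat_lit 17, (.negSucc (nat_lit 1400622719)), (.ofNat (nat_lit 21861632)), (.negSucc (nat_lit 1400622703)), (.ofNat (nat_lit 21861616)), (.ofNat (nat_lit 7392939412302086192557)), (.ofNat (nat_lit 0)), (.ofNat (nat_lit 11628088255791108497169973248))⟩,
    ⟨nat_lit 19, nat_lit 18, (.negSucc (nat_lit 3223785471)), (.negSucc (nat_lit 1400622719)), (.negSucc (nat_lit 3223785455)), (.negSucc (nat_lit 1400622735)), (.negSucc (nat_lit 7392939412302086192556)), (.ofNat (nat_lit 0)), (.ofNat (nat_lit 11628088255791108497169973248))⟩,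
    ⟨nat_lit 19, nat_lit 20, (.negSucc (nat_lit 3223785471)), (.negSucc (nat_lit 2578583871)), (.negSucc (nat_lit 3223785455)), (.negSucc (nat_lit 2578583887)), (.ofNat (nat_lit 7392939412302086192557)), (.ofNat (nat_lit 0)), (.ofNat (nat_lit 12210964159241288529264238455680))⟩,
    ⟨nat_lit 20, nat_lit 11, (.negSucc (nat_lit 2578583871)), (.negSucc (nat_lit 1596478591)), (.negSucc (nat_lit 2578583855)), (.negSucc (nat_lit 1596478607)), (.negSucc (nat_lit 7392939412302086192556)), (.ofNat (nat_lit 0)), (.ofNat (nat_lit 27132205930179253160063270912))⟩,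
    ⟨nat_lit 0, nat_lit 10, (.negSucc (nat_lit 735455487)), (.ofNat (nat_lit 959477952)), (.negSucc (nat_lit 735455471)), (.ofNat (nat_lit 959477936)), (.ofNat (nat_lit 7392939412302086192557)), (.ofNat (nat_lit 0)), (.ofNat (nat_lit 7752058837194072331446648832))⟩,
    ⟨nat_lit 21, nat_lit 15, (.negSucc (nat_lit 3281211199)), (.negSucc (nat_lit 126894975)), (.negSucc (nat_lit 3281211183)), (.negSucc (nat_lit 126894991)), (.negSucc (nat_lit 7392939412302086192556)), (.ofNat (nat_lit 0)), (.ofNat (nat_lit 0))⟩]

theorem ok91 : stOK 21 21 S91 = true := by decide +kernel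

def S92 : SD where
  vs := [
    ⟨nat_lit 0, nat_lit 0, nat_lit 20, (.ofNat (nat_lit 8)), (.negSucc (nat_lit 735455487)), (.ofNat (nat_lit 6364563575208094109102277380480)), (.ofNat (nat_lit 0)), (.ofNat (nat_lit 97916362695509140139448199936)), (.negSucc (nat_lit 735455503)), (.negSucc (nat_lit 735455471)), (.negSucc (nat_lit 7508454090619306289314)), (.ofNat (nat_lit 7508454090619306289315)), (.negSucc (nat_lit 7508454090619306289314)), (.ofNat (nat_lit 7508454090619306289315)), (.ofNat (nat_lit 693088069903320580548))⟩,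
    ⟨nat_lit 2, nat_lit 0, nat_lit 1, (.ofNat (nat_lit 8)), (.negSucc (nat_lit 3383684927)), (.ofNat (nat_lit 26248672746874568856843417814080)), (.ofNat (nat_lit 0)), (.ofNat (nat_lit 403825734567301059333632355456)), (.negSucc (nat_lit 3383684943)), (.negSucc (nat_lit 3383684911)), (.negSucc (nat_lit 7508454090619306289314)), (.ofNat (nat_lit 7508454090619306289315)), (.negSucc (nat_lit 7508454090619306289314)), (.ofNat (nat_lit 7508454090619306289315)), (.ofNat (nat_lit 693088069903320580548))⟩,
    ⟨nat_lit 0, nat_lit 1, nat_lit 2, (.ofNat (nat_lit 8)), (.negSucc (nat_lit 3228381183)), (.ofNat (nat_lit 27414763778799862402256784509440)), (.ofNat (nat_lit 0)), (.ofNat (nat_lit 421765596596920960032192017408)), (.negSucc (nat_lit 3228381199)), (.negSucc (nat_lit 3228381167)), (.ofNat (nat_lit 7508454090619306289315)), (.negSucc (nat_lit 7508454090619306289314)), (.negSucc (nat_lit 7508454090619306289314)), (.ofNat (nat_lit 7508454090619306289315)), (.ofNat (nat_lit 693088385784015213826))⟩,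
    ⟨nat_lit 0, nat_lit 2, nat_lit 3, (.ofNat (nat_lit 8)), (.negSucc (nat_lit 2194821951)), (.ofNat (nat_lit 19654331735392113789499603303360)), (.ofNat (nat_lit 0)), (.ofNat (nat_lit 302374171149943830053362186304)), (.negSucc (nat_lit 2194821967)), (.negSucc (nat_lit 2194821935)), (.negSucc (nat_lit 7508454090619306289314)), (.ofNat (nat_lit 7508454090619306289315)), (.negSucc (nat_lit 7508454090619306289314)), (.ofNat (nat_lit 7508454090619306289315)), (.ofNat (nat_lit 693088694745843057344))⟩,
    ⟨nat_lit 1, nat_lit 3, nat_lit 4, (.ofNat (nat_lit 8)), (.negSucc (nat_lit 625111231)), (.ofNat (nat_lit 31440432612065090310800780260160)), (.ofNat (nat_lit 0)), (.ofNat (nat_lit 483698794591526091464702918464)), (.negSucc (nat_lit 625111247)), (.negSucc (nat_lit 625111215)), (.ofNat (nat_lit 7508454090619306289315)), (.negSucc (nat_lit 7508454090619306289314)), (.negSucc (nat_lit 7508454090619306289314)), (.ofNat (nat_lit 7508454090619306289315)), (.ofNat (nat_lit 693088371859136014850))⟩,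
    ⟨nat_lit 0, nat_lit 5, nat_lit 4, (.ofNat (nat_lit 8)), (.negSucc (nat_lit 1693347199)), (.ofNat (nat_lit 39461233335741364684255677342080)), (.ofNat (nat_lit 0)), (.ofNat (nat_lit 607095897472944072061833485056)), (.negSucc (nat_lit 1693347215)), (.negSucc (nat_lit 1693347183)), (.ofNat (nat_lit 7508454090619306289315)), (.negSucc (nat_lit 7508454090619306289314)), (.negSucc (nat_lit 7508454090619306289314)), (.ofNat (nat_lit 7508454090619306289315)), (.ofNat (nat_lit 693088385696869594370))⟩,
    ⟨nat_lit 2, nat_lit 6, nat_lit 5, (.ofNat (nat_lit 8)), (.negSucc (nat_lit 3342389247)), (.ofNat (nat_lit 27079476824832526252584389224960)), (.ofNat (nat_lit 0)), (.ofNat (nat_lit 416607335766654250037263004672)), (.negSucc (nat_lit 3342389263)), (.negSucc (nat_lit 3342389231)), (.negSucc (nat_lit 7508454090619306289314)), (.ofNat (nat_lit 7508454090619306289315)), (.negSucc (nat_lit 7508454090619306289314)), (.ofNat (nat_lit 7508454090619306289315)), (.ofNat (nat_lit 693088069903320580548))⟩,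
    ⟨nat_lit 0, nat_lit 7, nat_lit 8, (.ofNat (nat_lit 8)), (.negSucc (nat_lit 3047067647)), (.ofNat (nat_lit 26875143076698332400224877734400)), (.ofNat (nat_lit 0)), (.ofNat (nat_lit 413463739641512806154827822080)), (.negSucc (nat_lit 3047067663)), (.negSucc (nat_lit 3047067631)), (.ofNat (nat_lit 7508454090619306289315)), (.negSucc (nat_lit 7508454090619306289314)), (.negSucc (nat_lit 7508454090619306289314)), (.ofNat (nat_lit 7508454090619306289315)), (.ofNat (nat_lit 693088069903320580548))⟩,
    ⟨nat_lit 0, nat_lit 8, nat_lit 9, (.ofNat (nat_lit 8)), (.ofNat (nat_lit 247512832)), (.ofNat (nat_lit 2137936794767814788306446163200)), (.ofNat (nat_lit 0)), (.ofNat (nat_lit 32891335304120227512209738240)), (.ofNat (nat_lit 247512816)), (.ofNat (nat_lit 247512848)), (.negSucc (nat_lit 7508454090619306289314)), (.ofNat (nat_lit 7508454090619306289315)), (.negSucc (nat_lit 7508454090619306289314)), (.ofNat (nat_lit 7508454090619306289315)), (.ofNat (nat_lit 693088069903320580548))⟩,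
    ⟨nat_lit 1, nat_lit 9, nat_lit 10, (.ofNat (nat_lit 8)), (.ofNat (nat_lit 1732419968)), (.ofNat (nat_lit 13287293854256813356679970215040)), (.ofNat (nat_lit 0)), (.ofNat (nat_lit 204419905450104820870774403328)), (.ofNat (nat_lit 1732419952)), (.ofNat (nat_lit 1732419984)), (.ofNat (nat_lit 7508454090619306289315)), (.negSucc (nat_lit 7508454090619306289314)), (.negSucc (nat_lit 7508454090619306289314)), (.ofNat (nat_lit 7508454090619306289315)), (.ofNat (nat_lit 693088069903320580548))⟩,
    ⟨nat_lit 0, nat_lit 20, nat_lit 10, (.ofNat (nat_lit 8)), (.ofNat (nat_lit 959477952)), (.ofNat (nat_lit 19090893496103546648464585574080)), (.ofNat (nat_lit 0)), (.ofNat (nat_lit 293706053786208409974617987456)), (.ofNat (nat_lit 959477936)), (.ofNat (nat_lit 959477968)), (.ofNat (nat_lit 7508454090619306289315)), (.negSucc (nat_lit 7508454090619306289314)), (.negSucc (nat_lit 7508454090619306289314)), (.ofNat (nat_lit 7508454090619306289315)), (.ofNat (nat_lit 693088069903320580548))⟩,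
    ⟨nat_lit 1, nat_lit 11, nat_lit 19, (.ofNat (nat_lit 8)), (.negSucc (nat_lit 1596478591)), (.ofNat (nat_lit 24398907296587821346289464995840)), (.ofNat (nat_lit 0)), (.ofNat (nat_lit 375367804562889559171434405888)), (.negSucc (nat_lit 1596478607)), (.negSucc (nat_lit 1596478575)), (.ofNat (nat_lit 7508454090619306289315)), (.negSucc (nat_lit 7508454090619306289314)), (.negSucc (nat_lit 7508454090619306289314)), (.ofNat (nat_lit 7508454090619306289315)), (.ofNat (nat_lit 693088069903320580548))⟩,
    ⟨nat_lit 0, nat_lit 12, nat_lit 11, (.ofNat (nat_lit 8)), (.negSucc (nat_lit 2140230463)), (.ofNat (nat_lit 20316171328987515912133060148160)), (.ofNat (nat_lit 0)), (.ofNat (nat_lit 312556481984423321723250774912)), (.negSucc (nat_lit 2140230479)), (.negSucc (nat_lit 2140230447)), (.negSucc (nat_lit 7508454090619306289314)), (.ofNat (nat_lit 7508454090619306289315)), (.negSucc (nat_lit 7508454090619306289314)), (.ofNat (nat_lit 7508454090619306289315)), (.ofNat (nat_lit 693088069903320580548))⟩,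
    ⟨nat_lit 0, nat_lit 13, nat_lit 12, (.ofNat (nat_lit 8)), (.negSucc (nat_lit 3062112255)), (.ofNat (nat_lit 27238078441197372383923642800640)), (.ofNat (nat_lit 0)), (.ofNat (nat_lit 419047360633805728980929205248)), (.negSucc (nat_lit 3062112271)), (.negSucc (nat_lit 3062112239)), (.ofNat (nat_lit 7508454090619306289315)), (.negSucc (nat_lit 7508454090619306289314)), (.negSucc (nat_lit 7508454090619306289314)), (.ofNat (nat_lit 7508454090619306289315)), (.ofNat (nat_lit 693088069903320580548))⟩,
    ⟨nat_lit 0, nat_lit 6, nat_lit 13, (.ofNat (nat_lit 8)), (.negSucc (nat_lit 3212812287)), (.ofNat (nat_lit 26106554169470512026306071042560)), (.ofNat (nat_lit 0)), (.ofNat (nat_lit 401639294914930954248455508992)), (.negSucc (nat_lit 3212812303)), (.negSucc (nat_lit 3212812271)), (.negSucc (nat_lit 7508454090619306289314)), (.ofNat (nat_lit 7508454090619306289315)), (.negSucc (nat_lit 7508454090619306289314)), (.ofNat (nat_lit 7508454090619306289315)), (.ofNat (nat_lit 693088069903320580548))⟩,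
    ⟨nat_lit 0, nat_lit 21, nat_lit 14, (.ofNat (nat_lit 8)), (.negSucc (nat_lit 126894975)), (.ofNat (nat_lit 1433048410692154109857181640960)), (.ofNat (nat_lit 0)), (.ofNat (nat_lit 22046898626033140151516815872)), (.negSucc (nat_lit 126894991)), (.negSucc (nat_lit 126894959)), (.negSucc (nat_lit 7508454090619306289314)), (.ofNat (nat_lit 7508454090619306289315)), (.negSucc (nat_lit 7508454090619306289314)), (.ofNat (nat_lit 7508454090619306289315)), (.ofNat (nat_lit 693088069903320580548))⟩,
    ⟨nat_lit 1, nat_lit 14, nat_lit 15, (.ofNat (nat_lit 8)), (.ofNat (nat_lit 1444929344)), (.ofNat (nat_lit 13235019155931063596931454781760)), (.ofNat (nat_lit 0)), (.ofNat (nat_lit 203615679322016363028494370432)), (.ofNat (nat_lit 1444929328)), (.ofNat (nat_lit 1444929360)), (.ofNat (nat_lit 7508454090619306289315)), (.negSucc (nat_lit 7508454090619306289314)), (.negSucc (nat_lit 7508454090619306289314)), (.ofNat (nat_lit 7508454090619306289315)), (.ofNat (nat_lit 693088069903320580548))⟩,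
    ⟨nat_lit 0, nat_lit 16, nat_lit 15, (.ofNat (nat_lit 8)), (.ofNat (nat_lit 21861632)), (.ofNat (nat_lit 23920057739325720461094161879040)), (.ofNat (nat_lit 0)), (.ofNat (nat_lit 368000888297318776322320048128)), (.ofNat (nat_lit 21861616)), (.ofNat (nat_lit 21861648)), (.ofNat (nat_lit 7508454090619306289315)), (.negSucc (nat_lit 7508454090619306289314)), (.negSucc (nat_lit 7508454090619306289314)), (.ofNat (nat_lit 7508454090619306289315)), (.ofNat (nat_lit 693088069903320580548))⟩,
    ⟨nat_lit 0, nat_lit 17, nat_lit 16, (.ofNat (nat_lit 8)), (.negSucc (nat_lit 1400622719)), (.ofNat (nat_lit 13239399287709367275448389580160)), (.ofNat (nat_lit 0)), (.ofNat (nat_lit 203683065964759496544139117312)), (.negSucc (nat_lit 1400622735)), (.negSucc (nat_lit 1400622703)), (.negSucc (nat_lit 7508454090619306289314)), (.ofNat (nat_lit 7508454090619306289315)), (.negSucc (nat_lit 7508454090619306289314)), (.ofNat (nat_lit 7508454090619306289315)), (.ofNat (nat_lit 693088069903320580548))⟩,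
    ⟨nat_lit 2, nat_lit 17, nat_lit 18, (.ofNat (nat_lit 8)), (.negSucc (nat_lit 3223785471)), (.ofNat (nat_lit 26928533110828519114206833175040)), (.ofNat (nat_lit 0)), (.ofNat (nat_lit 414285124781977217139160675328)), (.negSucc (nat_lit 3223785487)), (.negSucc (nat_lit 3223785455)), (.negSucc (nat_lit 7508454090619306289314)), (.ofNat (nat_lit 7508454090619306289315)), (.negSucc (nat_lit 7508454090619306289314)), (.ofNat (nat_lit 7508454090619306289315)), (.ofNat (nat_lit 693088069903320580548))⟩,
    ⟨nat_lit 0, nat_lit 18, nat_lit 19, (.ofNat (nat_lit 8)), (.negSucc (nat_lit 2578583871)), (.ofNat (nat_lit 31772999703622640522962934079040)), (.ofNat (nat_lit 0)), (.ofNat (nat_lit 488815380055732931119577088128)), (.negSucc (nat_lit 2578583887)), (.negSucc (nat_lit 2578583855)), (.ofNat (nat_lit 7508454090619306289315)), (.negSucc (nat_lit 7508454090619306289314)), (.negSucc (nat_lit 7508454090619306289314)), (.ofNat (nat_lit 7508454090619306289315)), (.ofNat (nat_lit 693088069903320580548))⟩,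
    ⟨nat_lit 2, nat_lit 21, nat_lit 7, (.ofNat (nat_lit 8)), (.negSucc (nat_lit 3281211199)), (.ofNat (nat_lit 25117086965891798145868723987520)), (.ofNat (nat_lit 0)), (.ofNat (nat_lit 386416722552181509934126017664)), (.negSucc (nat_lit 3281211215)), (.negSucc (nat_lit 3281211183)), (.negSucc (nat_lit 7508454090619306289314)), (.ofNat (nat_lit 7508454090619306289315)), (.negSucc (nat_lit 7508454090619306289314)), (.ofNat (nat_lit 7508454090619306289315)), (.ofNat (nat_lit 693088069903320580548))⟩]
  es := [
    ⟨nat_lit 1, nat_lit 0, (.negSucc (nat_lit 3383684927)), (.negSucc (nat_lit 735455487)), (.negSucc (nat_lit 3383684911)), (.negSucc (nat_lit 735455503)), (.negSucc (nat_lit 7508454090619306289314)), (.negSucc (nat_lit 115514678317220096757)), (.ofNat (nat_lit 12960458582555015074886092032))⟩,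
    ⟨nat_lit 1, nat_lit 2, (.negSucc (nat_lit 3383684927)), (.negSucc (nat_lit 3228381183)), (.negSucc (nat_lit 3383684911)), (.negSucc (nat_lit 3228381199)), (.ofNat (nat_lit 7508454090619306289315)), (.ofNat (nat_lit 115514678317220096758)), (.ofNat (nat_lit 794691010552047103592378618880))⟩,
    ⟨nat_lit 2, nat_lit 3, (.negSucc (nat_lit 3228381183)), (.negSucc (nat_lit 2194821951)), (.negSucc (nat_lit 3228381167)), (.negSucc (nat_lit 2194821967)), (.negSucc (nat_lit 7508454090619306289314)), (.negSucc (nat_lit 115514836257567413396)), (.ofNat (nat_lit 48839672750149345009767695360))⟩,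
    ⟨nat_lit 3, nat_lit 4, (.negSucc (nat_lit 2194821951)), (.negSucc (nat_lit 625111231)), (.negSucc (nat_lit 2194821935)), (.negSucc (nat_lit 625111247)), (.ofNat (nat_lit 7508454090619306289315)), (.ofNat (nat_lit 115514674857786701878)), (.ofNat (nat_lit 555908315305956561468876212160))⟩,
    ⟨nat_lit 5, nat_lit 4, (.negSucc (nat_lit 1693347199)), (.negSucc (nat_lit 625111231)), (.negSucc (nat_lit 1693347183)), (.negSucc (nat_lit 625111247)), (.negSucc (nat_lit 7508454090619306289314)), (.negSucc (nat_lit 115514836213994603668)), (.ofNat (nat_lit 411489173011517709123822608256))⟩,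
    ⟨nat_lit 6, nat_lit 5, (.negSucc (nat_lit 3342389247)), (.negSucc (nat_lit 1693347199)), (.negSucc (nat_lit 3342389231)), (.negSucc (nat_lit 1693347215)), (.ofNat (nat_lit 7508454090619306289315)), (.ofNat (nat_lit 115514678317220096758)), (.ofNat (nat_lit 802702354560309434690721862656))⟩,
    ⟨nat_lit 6, nat_lit 14, (.negSucc (nat_lit 3342389247)), (.negSucc (nat_lit 3212812287)), (.negSucc (nat_lit 3342389231)), (.negSucc (nat_lit 3212812303)), (.negSucc (nat_lit 7508454090619306289314)), (.negSucc (nat_lit 115514678317220096757)), (.ofNat (nat_lit 30512316972999065383804146688))⟩,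
    ⟨nat_lit 21, nat_lit 7, (.negSucc (nat_lit 3281211199)), (.negSucc (nat_lit 3047067647)), (.negSucc (nat_lit 3281211183)), (.negSucc (nat_lit 3047067663)), (.ofNat (nat_lit 7508454090619306289315)), (.ofNat (nat_lit 115514678317220096758)), (.ofNat (nat_lit 765444778811041244281559307264))⟩,
    ⟨nat_lit 7, nat_lit 8, (.negSucc (nat_lit 3047067647)), (.ofNat (nat_lit 247512832)), (.negSucc (nat_lit 3047067631)), (.ofNat (nat_lit 247512816)), (.negSucc (nat_lit 7508454090619306289314)), (.negSucc (nat_lit 115514678317220096757)), (.ofNat (nat_lit 61482700471984368028096336896))⟩,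
    ⟨nat_lit 8, nat_lit 9, (.ofNat (nat_lit 247512832)), (.ofNat (nat_lit 1732419968)), (.ofNat (nat_lit 247512848)), (.ofNat (nat_lit 1732419952)), (.ofNat (nat_lit 7508454090619306289315)), (.ofNat (nat_lit 115514678317220096758)), (.ofNat (nat_lit 4299970136256086996323139584))⟩,
    ⟨nat_lit 10, nat_lit 9, (.ofNat (nat_lit 959477952)), (.ofNat (nat_lit 1732419968)), (.ofNat (nat_lit 959477968)), (.ofNat (nat_lit 1732419952)), (.negSucc (nat_lit 7508454090619306289314)), (.negSucc (nat_lit 115514678317220096757)), (.ofNat (nat_lit 404539840763953554745225667072))⟩,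
    ⟨nat_lit 12, nat_lit 11, (.negSucc (nat_lit 2140230463)), (.negSucc (nat_lit 1596478591)), (.negSucc (nat_lit 2140230447)), (.negSucc (nat_lit 1596478607)), (.ofNat (nat_lit 7508454090619306289315)), (.ofNat (nat_lit 115514678317220096758)), (.ofNat (nat_lit 559784515558098028597750010624))⟩,
    ⟨nat_lit 13, nat_lit 12, (.negSucc (nat_lit 3062112255)), (.negSucc (nat_lit 2140230463)), (.negSucc (nat_lit 3062112239)), (.negSucc (nat_lit 2140230479)), (.negSucc (nat_lit 7508454090619306289314)), (.negSucc (nat_lit 115514678317220096757)), (.ofNat (nat_lit 65328448410748614848751539200))⟩,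
    ⟨nat_lit 14, nat_lit 13, (.negSucc (nat_lit 3212812287)), (.negSucc (nat_lit 3062112255)), (.negSucc (nat_lit 3212812271)), (.negSucc (nat_lit 3062112271)), (.ofNat (nat_lit 7508454090619306289315)), (.ofNat (nat_lit 115514678317220096758)), (.ofNat (nat_lit 772766272856862843113106871296))⟩,
    ⟨nat_lit 15, nat_lit 16, (.negSucc (nat_lit 126894975)), (.ofNat (nat_lit 1444929344)), (.negSucc (nat_lit 126894959)), (.ofNat (nat_lit 1444929328)), (.ofNat (nat_lit 7508454090619306289315)), (.ofNat (nat_lit 115514678317220096758)), (.ofNat (nat_lit 36705130958744504716340903680))⟩,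
    ⟨nat_lit 17, nat_lit 16, (.ofNat (nat_lit 21861632)), (.ofNat (nat_lit 1444929344)), (.ofNat (nat_lit 21861648)), (.ofNat (nat_lit 1444929328)), (.negSucc (nat_lit 7508454090619306289314)), (.negSucc (nat_lit 115514678317220096757)), (.ofNat (nat_lit 370526227685288221340647837184))⟩,
    ⟨nat_lit 18, nat_lit 17, (.negSucc (nat_lit 1400622719)), (.ofNat (nat_lit 21861632)), (.negSucc (nat_lit 1400622703)), (.ofNat (nat_lit 21861616)), (.ofNat (nat_lit 7508454090619306289315)), (.ofNat (nat_lit 115514678317220096758)), (.ofNat (nat_lit 365475548909349331303992259072))⟩,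
    ⟨nat_lit 19, nat_lit 18, (.negSucc (nat_lit 3223785471)), (.negSucc (nat_lit 1400622719)), (.negSucc (nat_lit 3223785455)), (.negSucc (nat_lit 1400622735)), (.negSucc (nat_lit 7508454090619306289314)), (.negSucc (nat_lit 115514678317220096757)), (.ofNat (nat_lit 41890583020169661784285975552))⟩,
    ⟨nat_lit 19, nat_lit 20, (.negSucc (nat_lit 3223785471)), (.negSucc (nat_lit 2578583871)), (.negSucc (nat_lit 3223785455)), (.negSucc (nat_lit 2578583887)), (.ofNat (nat_lit 7508454090619306289315)), (.ofNat (nat_lit 115514678317220096758)), (.ofNat (nat_lit 786679666543784772494035375104))⟩,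
    ⟨nat_lit 20, nat_lit 11, (.negSucc (nat_lit 2578583871)), (.negSucc (nat_lit 1596478591)), (.negSucc (nat_lit 2578583855)), (.negSucc (nat_lit 1596478607)), (.negSucc (nat_lit 7508454090619306289314)), (.negSucc (nat_lit 115514678317220096757)), (.ofNat (nat_lit 190951093567681089745118801152))⟩,
    ⟨nat_lit 0, nat_lit 10, (.negSucc (nat_lit 735455487)), (.ofNat (nat_lit 959477952)), (.negSucc (nat_lit 735455471)), (.ofNat (nat_lit 959477936)), (.ofNat (nat_lit 7508454090619306289315)), (.ofNat (nat_lit 115514678317220096758)), (.ofNat (nat_lit 182872266808463265204010307840))⟩,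
    ⟨nat_lit 21, nat_lit 15, (.negSucc (nat_lit 3281211199)), (.negSucc (nat_lit 126894975)), (.negSucc (nat_lit 3281211183)), (.negSucc (nat_lit 126894991)), (.negSucc (nat_lit 7508454090619306289314)), (.negSucc (nat_lit 115514678317220096757)), (.ofNat (nat_lit 7388666293321775586692728064))⟩]

theorem ok92 : stOK 21 21 S92 = true := by decide +kernel

def S93 : SD where
  vs := [
    ⟨nat_lit 0, nat_lit 0, nat_lit 20, (.ofNat (nat_lit 8)), (.negSucc (nat_lit 735717631)), (.ofNat (nat_lit 6370468463775488031385995954560)), (.negSucc (nat_lit 262143)), (.ofNat (nat_lit 5904888567393922283718574080)), (.negSucc (nat_lit 735717647)), (.negSucc (nat_lit 735717615)), (.negSucc (nat_lit 7508454090619306289314)), (.ofNat (nat_lit 7508454090619306289315)), (.negSucc (nat_lit 7508454090619306289314)), (.ofNat (nat_lit 7508454090619306289315)), (.ofNat (nat_lit 0))⟩,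
    ⟨nat_lit 2, nat_lit 0, nat_lit 1, (.ofNat (nat_lit 8)), (.negSucc (nat_lit 4284034047)), (.ofNat (nat_lit 33012839372302324144294455849600)), (.negSucc (nat_lit 900349119)), (.ofNat (nat_lit 6764166625427755287451038035520)), (.negSucc (nat_lit 4284034063)), (.negSucc (nat_lit 4284034031)), (.negSucc (nat_lit 7508454090619306289314)), (.ofNat (nat_lit 7508454090619306289315)), (.negSucc (nat_lit 7508454090619306289314)), (.ofNat (nat_lit 7508454090619306289315)), (.ofNat (nat_lit 0))⟩,
    ⟨nat_lit 0, nat_lit 1, nat_lit 2, (.ofNat (nat_lit 8)), (.negSucc (nat_lit 4127943871)), (.ofNat (nat_lit 34184835292795011611991541119040)), (.negSucc (nat_lit 899562687)), (.ofNat (nat_lit 6770071513995149209734756609600)), (.negSucc (nat_lit 4127943887)), (.negSucc (nat_lit 4127943855)), (.ofNat (nat_lit 7508454090619306289315)), (.negSucc (nat_lit 7508454090619306289314)), (.negSucc (nat_lit 7508454090619306289314)), (.ofNat (nat_lit 7508454090619306289315)), (.ofNat (nat_lit 0))⟩,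
    ⟨nat_lit 0, nat_lit 2, nat_lit 3, (.ofNat (nat_lit 8)), (.negSucc (nat_lit 2194821951)), (.ofNat (nat_lit 19670078104905164248922852834240)), (.ofNat (nat_lit 0)), (.ofNat (nat_lit 15746369513050459423249530880)), (.negSucc (nat_lit 2194821967)), (.negSucc (nat_lit 2194821935)), (.negSucc (nat_lit 7508454090619306289314)), (.ofNat (nat_lit 7508454090619306289315)), (.negSucc (nat_lit 7508454090619306289314)), (.ofNat (nat_lit 7508454090619306289315)), (.ofNat (nat_lit 0))⟩,
    ⟨nat_lit 1, nat_lit 3, nat_lit 4, (.ofNat (nat_lit 8)), (.negSucc (nat_lit 623538367)), (.ofNat (nat_lit 31467988758712928614791466939200)), (.ofNat (nat_lit 1572864)), (.ofNat (nat_lit 27556146647838303990686679040)), (.negSucc (nat_lit 623538383)), (.negSucc (nat_lit 623538351)), (.ofNat (nat_lit 7508454090619306289315)), (.negSucc (nat_lit 7508454090619306289314)), (.negSucc (nat_lit 7508454090619306289314)), (.ofNat (nat_lit 7508454090619306289315)), (.ofNat (nat_lit 0))⟩,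
    ⟨nat_lit 0, nat_lit 5, nat_lit 4, (.ofNat (nat_lit 8)), (.negSucc (nat_lit 2591599167)), (.ofNat (nat_lit 46245082923060433045985777291200)), (.negSucc (nat_lit 898251967)), (.ofNat (nat_lit 6783849587319068361730099949120)), (.negSucc (nat_lit 2591599183)), (.negSucc (nat_lit 2591599151)), (.ofNat (nat_lit 7508454090619306289315)), (.negSucc (nat_lit 7508454090619306289314)), (.negSucc (nat_lit 7508454090619306289314)), (.ofNat (nat_lit 7508454090619306289315)), (.ofNat (nat_lit 0))⟩,
    ⟨nat_lit 2, nat_lit 6, nat_lit 5, (.ofNat (nat_lit 8)), (.negSucc (nat_lit 4242738367)), (.ofNat (nat_lit 33847580042638544154891239643200)), (.negSucc (nat_lit 900349119)), (.ofNat (nat_lit 6768103217806017902306850418240)), (.negSucc (nat_lit 4242738383)), (.negSucc (nat_lit 4242738351)), (.negSucc (nat_lit 7508454090619306289314)), (.ofNat (nat_lit 7508454090619306289315)), (.negSucc (nat_lit 7508454090619306289314)), (.ofNat (nat_lit 7508454090619306289315)), (.ofNat (nat_lit 0))⟩,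
    ⟨nat_lit 0, nat_lit 7, nat_lit 8, (.ofNat (nat_lit 8)), (.negSucc (nat_lit 3047067647)), (.ofNat (nat_lit 26894826038589645474503939648000)), (.ofNat (nat_lit 0)), (.ofNat (nat_lit 19682961891313074279061913600)), (.negSucc (nat_lit 3047067663)), (.negSucc (nat_lit 3047067631)), (.ofNat (nat_lit 7508454090619306289315)), (.negSucc (nat_lit 7508454090619306289314)), (.negSucc (nat_lit 7508454090619306289314)), (.ofNat (nat_lit 7508454090619306289315)), (.ofNat (nat_lit 0))⟩,
    ⟨nat_lit 0, nat_lit 8, nat_lit 9, (.ofNat (nat_lit 8)), (.ofNat (nat_lit 248823552)), (.ofNat (nat_lit 2147778275713471325445977120000)), (.ofNat (nat_lit 1310720)), (.ofNat (nat_lit 9841480945656537139530956800)), (.ofNat (nat_lit 248823536)), (.ofNat (nat_lit 248823568)), (.negSucc (nat_lit 7508454090619306289314)), (.ofNat (nat_lit 7508454090619306289315)), (.negSucc (nat_lit 7508454090619306289314)), (.ofNat (nat_lit 7508454090619306289315)), (.ofNat (nat_lit 0))⟩,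
    ⟨nat_lit 1, nat_lit 9, nat_lit 10, (.ofNat (nat_lit 8)), (.ofNat (nat_lit 1734779264)), (.ofNat (nat_lit 13305008519958995123531125937280)), (.ofNat (nat_lit 2359296)), (.ofNat (nat_lit 17714665702181766851155722240)), (.ofNat (nat_lit 1734779248)), (.ofNat (nat_lit 1734779280)), (.ofNat (nat_lit 7508454090619306289315)), (.negSucc (nat_lit 7508454090619306289314)), (.negSucc (nat_lit 7508454090619306289314)), (.ofNat (nat_lit 7508454090619306289315)), (.ofNat (nat_lit 0))⟩,
    ⟨nat_lit 0, nat_lit 20, nat_lit 10, (.ofNat (nat_lit 8)), (.ofNat (nat_lit 961312960)), (.ofNat (nat_lit 19112544754183991030171553679040)), (.ofNat (nat_lit 1835008)), (.ofNat (nat_lit 21651258080444381706968104960)), (.ofNat (nat_lit 961312944)), (.ofNat (nat_lit 961312976)), (.ofNat (nat_lit 7508454090619306289315)), (.negSucc (nat_lit 7508454090619306289314)), (.negSucc (nat_lit 7508454090619306289314)), (.ofNat (nat_lit 7508454090619306289315)), (.ofNat (nat_lit 0))⟩,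
    ⟨nat_lit 1, nat_lit 11, nat_lit 19, (.ofNat (nat_lit 8)), (.negSucc (nat_lit 2494468415)), (.ofNat (nat_lit 31168978810582970556024221605440)), (.negSucc (nat_lit 897989823)), (.ofNat (nat_lit 6770071513995149209734756609600)), (.negSucc (nat_lit 2494468431)), (.negSucc (nat_lit 2494468399)), (.ofNat (nat_lit 7508454090619306289315)), (.negSucc (nat_lit 7508454090619306289314)), (.negSucc (nat_lit 7508454090619306289314)), (.ofNat (nat_lit 7508454090619306289315)), (.ofNat (nat_lit 0))⟩,
    ⟨nat_lit 0, nat_lit 12, nat_lit 11, (.ofNat (nat_lit 8)), (.negSucc (nat_lit 3038482431)), (.ofNat (nat_lit 27084274546793533814439910566400)), (.negSucc (nat_lit 898251967)), (.ofNat (nat_lit 6768103217806017902306850418240)), (.negSucc (nat_lit 3038482447)), (.negSucc (nat_lit 3038482415)), (.negSucc (nat_lit 7508454090619306289314)), (.ofNat (nat_lit 7508454090619306289315)), (.negSucc (nat_lit 7508454090619306289314)), (.ofNat (nat_lit 7508454090619306289315)), (.ofNat (nat_lit 0))⟩,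
    ⟨nat_lit 0, nat_lit 13, nat_lit 12, (.ofNat (nat_lit 8)), (.negSucc (nat_lit 3960626367)), (.ofNat (nat_lit 34008149955192521593658399410240)), (.negSucc (nat_lit 898514111)), (.ofNat (nat_lit 6770071513995149209734756609600)), (.negSucc (nat_lit 3960626383)), (.negSucc (nat_lit 3960626351)), (.ofNat (nat_lit 7508454090619306289315)), (.negSucc (nat_lit 7508454090619306289314)), (.negSucc (nat_lit 7508454090619306289314)), (.ofNat (nat_lit 7508454090619306289315)), (.ofNat (nat_lit 0))⟩,
    ⟨nat_lit 0, nat_lit 6, nat_lit 13, (.ofNat (nat_lit 8)), (.negSucc (nat_lit 4112374975)), (.ofNat (nat_lit 32868752498709136006329202886720)), (.negSucc (nat_lit 899562687)), (.ofNat (nat_lit 6762198329238623980023131844160)), (.negSucc (nat_lit 4112374991)), (.negSucc (nat_lit 4112374959)), (.negSucc (nat_lit 7508454090619306289314)), (.ofNat (nat_lit 7508454090619306289315)), (.negSucc (nat_lit 7508454090619306289314)), (.ofNat (nat_lit 7508454090619306289315)), (.ofNat (nat_lit 0))⟩,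
    ⟨nat_lit 0, nat_lit 21, nat_lit 14, (.ofNat (nat_lit 8)), (.negSucc (nat_lit 127157119)), (.ofNat (nat_lit 1435016706881285417285087832320)), (.negSucc (nat_lit 262143)), (.ofNat (nat_lit 1968296189131307427906191360)), (.negSucc (nat_lit 127157135)), (.negSucc (nat_lit 127157103)), (.negSucc (nat_lit 7508454090619306289314)), (.ofNat (nat_lit 7508454090619306289315)), (.negSucc (nat_lit 7508454090619306289314)), (.ofNat (nat_lit 7508454090619306289315)), (.ofNat (nat_lit 0))⟩,
    ⟨nat_lit 1, nat_lit 14, nat_lit 15, (.ofNat (nat_lit 8)), (.ofNat (nat_lit 1446764352)), (.ofNat (nat_lit 13252733821633245363782610504000)), (.ofNat (nat_lit 1835008)), (.ofNat (nat_lit 17714665702181766851155722240)), (.ofNat (nat_lit 1446764336)), (.ofNat (nat_lit 1446764368)), (.ofNat (nat_lit 7508454090619306289315)), (.negSucc (nat_lit 7508454090619306289314)), (.negSucc (nat_lit 7508454090619306289314)), (.ofNat (nat_lit 7508454090619306289315)), (.ofNat (nat_lit 0))⟩,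
    ⟨nat_lit 0, nat_lit 16, nat_lit 15, (.ofNat (nat_lit 8)), (.ofNat (nat_lit 23172352)), (.ofNat (nat_lit 23941708997406164842801129984000)), (.ofNat (nat_lit 1310720)), (.ofNat (nat_lit 21651258080444381706968104960)), (.ofNat (nat_lit 23172336)), (.ofNat (nat_lit 23172368)), (.ofNat (nat_lit 7508454090619306289315)), (.negSucc (nat_lit 7508454090619306289314)), (.negSucc (nat_lit 7508454090619306289314)), (.ofNat (nat_lit 7508454090619306289315)), (.ofNat (nat_lit 0))⟩,
    ⟨nat_lit 0, nat_lit 17, nat_lit 16, (.ofNat (nat_lit 8)), (.negSucc (nat_lit 1400622719)), (.ofNat (nat_lit 13251209064844155120015826728320)), (.ofNat (nat_lit 0)), (.ofNat (nat_lit 11809777134787844567437148160)), (.negSucc (nat_lit 1400622735)), (.negSucc (nat_lit 1400622703)), (.negSucc (nat_lit 7508454090619306289314)), (.ofNat (nat_lit 7508454090619306289315)), (.negSucc (nat_lit 7508454090619306289314)), (.ofNat (nat_lit 7508454090619306289315)), (.ofNat (nat_lit 0))⟩,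
    ⟨nat_lit 2, nat_lit 17, nat_lit 18, (.ofNat (nat_lit 8)), (.negSucc (nat_lit 4123348159)), (.ofNat (nat_lit 33694668032445405709085777401920)), (.negSucc (nat_lit 899562687)), (.ofNat (nat_lit 6766134921616886594878944226880)), (.negSucc (nat_lit 4123348175)), (.negSucc (nat_lit 4123348143)), (.negSucc (nat_lit 7508454090619306289314)), (.ofNat (nat_lit 7508454090619306289315)), (.negSucc (nat_lit 7508454090619306289314)), (.ofNat (nat_lit 7508454090619306289315)), (.ofNat (nat_lit 0))⟩,
    ⟨nat_lit 0, nat_lit 18, nat_lit 19, (.ofNat (nat_lit 8)), (.negSucc (nat_lit 3477097983)), (.ofNat (nat_lit 38547007809996052347553503071360)), (.negSucc (nat_lit 898514111)), (.ofNat (nat_lit 6774008106373411824590568992320)), (.negSucc (nat_lit 3477097999)), (.negSucc (nat_lit 3477097967)), (.ofNat (nat_lit 7508454090619306289315)), (.negSucc (nat_lit 7508454090619306289314)), (.negSucc (nat_lit 7508454090619306289314)), (.ofNat (nat_lit 7508454090619306289315)), (.ofNat (nat_lit 0))⟩,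
    ⟨nat_lit 2, nat_lit 21, nat_lit 7, (.ofNat (nat_lit 8)), (.negSucc (nat_lit 3282521919)), (.ofNat (nat_lit 25126928446837454683008254944320)), (.negSucc (nat_lit 1310719)), (.ofNat (nat_lit 9841480945656537139530956800)), (.negSucc (nat_lit 3282521935)), (.negSucc (nat_lit 3282521903)), (.negSucc (nat_lit 7508454090619306289314)), (.ofNat (nat_lit 7508454090619306289315)), (.negSucc (nat_lit 7508454090619306289314)), (.ofNat (nat_lit 7508454090619306289315)), (.ofNat (nat_lit 0))⟩]
  es := [
    ⟨nat_lit 1, nat_lit 0, (.negSucc (nat_lit 4284034047)), (.negSucc (nat_lit 735717631)), (.negSucc (nat_lit 4284034031)), (.negSucc (nat_lit 735717647)), (.negSucc (nat_lit 7508454090619306289314)), (.ofNat (nat_lit 0)), (.ofNat (nat_lit 3936592378262614855812382720))⟩,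
    ⟨nat_lit 1, nat_lit 2, (.negSucc (nat_lit 4284034047)), (.negSucc (nat_lit 4127943871)), (.negSucc (nat_lit 4284034031)), (.negSucc (nat_lit 4127943887)), (.ofNat (nat_lit 7508454090619306289315)), (.ofNat (nat_lit 0)), (.ofNat (nat_lit 13524396658477247960046263688320))⟩,
    ⟨nat_lit 2, nat_lit 3, (.negSucc (nat_lit 4127943871)), (.negSucc (nat_lit 2194821951)), (.negSucc (nat_lit 4127943855)), (.negSucc (nat_lit 2194821967)), (.negSucc (nat_lit 7508454090619306289314)), (.ofNat (nat_lit 0)), (.ofNat (nat_lit 15746369513050459423249530880))⟩,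
    ⟨nat_lit 3, nat_lit 4, (.negSucc (nat_lit 2194821951)), (.negSucc (nat_lit 623538367)), (.negSucc (nat_lit 2194821935)), (.negSucc (nat_lit 623538383)), (.ofNat (nat_lit 7508454090619306289315)), (.ofNat (nat_lit 0)), (.ofNat (nat_lit 15746369513050459423249530880))⟩,
    ⟨nat_lit 5, nat_lit 4, (.negSucc (nat_lit 2591599167)), (.negSucc (nat_lit 623538367)), (.negSucc (nat_lit 2591599151)), (.negSucc (nat_lit 623538383)), (.negSucc (nat_lit 7508454090619306289314)), (.ofNat (nat_lit 0)), (.ofNat (nat_lit 39365923782626148558123827200))⟩,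
    ⟨nat_lit 6, nat_lit 5, (.negSucc (nat_lit 4242738367)), (.negSucc (nat_lit 2591599167)), (.negSucc (nat_lit 4242738351)), (.negSucc (nat_lit 2591599183)), (.ofNat (nat_lit 7508454090619306289315)), (.ofNat (nat_lit 0)), (.ofNat (nat_lit 13528333250855510574902076071040))⟩,
    ⟨nat_lit 6, nat_lit 14, (.negSucc (nat_lit 4242738367)), (.negSucc (nat_lit 4112374975)), (.negSucc (nat_lit 4242738351)), (.negSucc (nat_lit 4112374991)), (.negSucc (nat_lit 7508454090619306289314)), (.ofNat (nat_lit 0)), (.ofNat (nat_lit 7873184756525229711624765440))⟩,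
    ⟨nat_lit 21, nat_lit 7, (.negSucc (nat_lit 3282521919)), (.negSucc (nat_lit 3047067647)), (.negSucc (nat_lit 3282521903)), (.negSucc (nat_lit 3047067663)), (.ofNat (nat_lit 7508454090619306289315)), (.ofNat (nat_lit 0)), (.ofNat (nat_lit 19682961891313074279061913600))⟩,
    ⟨nat_lit 7, nat_lit 8, (.negSucc (nat_lit 3047067647)), (.ofNat (nat_lit 248823552)), (.negSucc (nat_lit 3047067631)), (.ofNat (nat_lit 248823536)), (.negSucc (nat_lit 7508454090619306289314)), (.ofNat (nat_lit 0)), (.ofNat (nat_lit 19682961891313074279061913600))⟩,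
    ⟨nat_lit 8, nat_lit 9, (.ofNat (nat_lit 248823552)), (.ofNat (nat_lit 1734779264)), (.ofNat (nat_lit 248823568)), (.ofNat (nat_lit 1734779248)), (.ofNat (nat_lit 7508454090619306289315)), (.ofNat (nat_lit 0)), (.ofNat (nat_lit 0))⟩,
    ⟨nat_lit 10, nat_lit 9, (.ofNat (nat_lit 961312960)), (.ofNat (nat_lit 1734779264)), (.ofNat (nat_lit 961312976)), (.ofNat (nat_lit 1734779248)), (.negSucc (nat_lit 7508454090619306289314)), (.ofNat (nat_lit 0)), (.ofNat (nat_lit 35429331404363533702311444480))⟩,
    ⟨nat_lit 12, nat_lit 11, (.negSucc (nat_lit 3038482431)), (.negSucc (nat_lit 2494468415)), (.negSucc (nat_lit 3038482415)), (.negSucc (nat_lit 2494468431)), (.ofNat (nat_lit 7508454090619306289315)), (.ofNat (nat_lit 0)), (.ofNat (nat_lit 13512586881342460115478826540160))⟩,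
    ⟨nat_lit 13, nat_lit 12, (.negSucc (nat_lit 3960626367)), (.negSucc (nat_lit 3038482431)), (.negSucc (nat_lit 3960626351)), (.negSucc (nat_lit 3038482447)), (.negSucc (nat_lit 7508454090619306289314)), (.ofNat (nat_lit 0)), (.ofNat (nat_lit 23619554269575689134874296320))⟩,
    ⟨nat_lit 14, nat_lit 13, (.negSucc (nat_lit 4112374975)), (.negSucc (nat_lit 3960626367)), (.negSucc (nat_lit 4112374959)), (.negSucc (nat_lit 3960626383)), (.ofNat (nat_lit 7508454090619306289315)), (.ofNat (nat_lit 0)), (.ofNat (nat_lit 13516523473720722730334638922880))⟩,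
    ⟨nat_lit 15, nat_lit 16, (.negSucc (nat_lit 127157119)), (.ofNat (nat_lit 1446764352)), (.negSucc (nat_lit 127157103)), (.ofNat (nat_lit 1446764336)), (.ofNat (nat_lit 7508454090619306289315)), (.ofNat (nat_lit 0)), (.ofNat (nat_lit 3936592378262614855812382720))⟩,
    ⟨nat_lit 17, nat_lit 16, (.ofNat (nat_lit 23172352)), (.ofNat (nat_lit 1446764352)), (.ofNat (nat_lit 23172368)), (.ofNat (nat_lit 1446764336)), (.negSucc (nat_lit 7508454090619306289314)), (.ofNat (nat_lit 0)), (.ofNat (nat_lit 31492739026100918846499061760))⟩,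
    ⟨nat_lit 18, nat_lit 17, (.negSucc (nat_lit 1400622719)), (.ofNat (nat_lit 23172352)), (.negSucc (nat_lit 1400622703)), (.ofNat (nat_lit 23172336)), (.ofNat (nat_lit 7508454090619306289315)), (.ofNat (nat_lit 0)), (.ofNat (nat_lit 11809777134787844567437148160))⟩,
    ⟨nat_lit 19, nat_lit 18, (.negSucc (nat_lit 4123348159)), (.negSucc (nat_lit 1400622719)), (.negSucc (nat_lit 4123348143)), (.negSucc (nat_lit 1400622735)), (.negSucc (nat_lit 7508454090619306289314)), (.ofNat (nat_lit 0)), (.ofNat (nat_lit 11809777134787844567437148160))⟩,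
    ⟨nat_lit 19, nat_lit 20, (.negSucc (nat_lit 4123348159)), (.negSucc (nat_lit 3477097983)), (.negSucc (nat_lit 4123348143)), (.negSucc (nat_lit 3477097999)), (.ofNat (nat_lit 7508454090619306289315)), (.ofNat (nat_lit 0)), (.ofNat (nat_lit 13520460066098985345190451305600))⟩,
    ⟨nat_lit 20, nat_lit 11, (.negSucc (nat_lit 3477097983)), (.negSucc (nat_lit 2494468415)), (.negSucc (nat_lit 3477097967)), (.negSucc (nat_lit 2494468431)), (.negSucc (nat_lit 7508454090619306289314)), (.ofNat (nat_lit 0)), (.ofNat (nat_lit 27556146647838303990686679040))⟩,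
    ⟨nat_lit 0, nat_lit 10, (.negSucc (nat_lit 735717631)), (.ofNat (nat_lit 961312960)), (.negSucc (nat_lit 735717615)), (.ofNat (nat_lit 961312944)), (.ofNat (nat_lit 7508454090619306289315)), (.ofNat (nat_lit 0)), (.ofNat (nat_lit 7873184756525229711624765440))⟩,
    ⟨nat_lit 21, nat_lit 15, (.negSucc (nat_lit 3282521919)), (.negSucc (nat_lit 127157119)), (.negSucc (nat_lit 3282521903)), (.negSucc (nat_lit 127157135)), (.negSucc (nat_lit 7508454090619306289314)), (.ofNat (nat_lit 0)), (.ofNat (nat_lit 0))⟩]

theorem ok93 : stOK 21 21 S93 = true := by decide +kernel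

def S94 : SD where
  vs := [
    ⟨nat_lit 0, nat_lit 0, nat_lit 20, (.ofNat (nat_lit 8)), (.negSucc (nat_lit 735979775)), (.ofNat (nat_lit 6376373352342881953669714528640)), (.negSucc (nat_lit 262143)), (.ofNat (nat_lit 5904888567393922283718574080)), (.negSucc (nat_lit 735979791)), (.negSucc (nat_lit 735979759)), (.negSucc (nat_lit 7508454090619306289314)), (.ofNat (nat_lit 7508454090619306289315)), (.negSucc (nat_lit 7508454090619306289314)), (.ofNat (nat_lit 7508454090619306289315)), (.ofNat (nat_lit 0))⟩,
    ⟨nat_lit 2, nat_lit 0, nat_lit 1, (.ofNat (nat_lit 8)), (.negSucc (nat_lit 5208012927)), (.ofNat (nat_lit 39954428965862431890728497899520)), (.negSucc (nat_lit 923978879)), (.ofNat (nat_lit 6941589593560107746434042049920)), (.negSucc (nat_lit 5208012943)), (.negSucc (nat_lit 5208012911)), (.negSucc (nat_lit 7508454090619306289314)), (.ofNat (nat_lit 7508454090619306289315)), (.negSucc (nat_lit 7508454090619306289314)), (.ofNat (nat_lit 7508454090619306289315)), (.ofNat (nat_lit 0))⟩,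
    ⟨nat_lit 0, nat_lit 1, nat_lit 2, (.ofNat (nat_lit 8)), (.negSucc (nat_lit 5051136319)), (.ofNat (nat_lit 41132329774922513280709301743040)), (.negSucc (nat_lit 923192447)), (.ofNat (nat_lit 6947494482127501668717760624000)), (.negSucc (nat_lit 5051136335)), (.negSucc (nat_lit 5051136303)), (.ofNat (nat_lit 7508454090619306289315)), (.negSucc (nat_lit 7508454090619306289314)), (.negSucc (nat_lit 7508454090619306289314)), (.ofNat (nat_lit 7508454090619306289315)), (.ofNat (nat_lit 0))⟩,
    ⟨nat_lit 0, nat_lit 2, nat_lit 3, (.ofNat (nat_lit 8)), (.negSucc (nat_lit 2194821951)), (.ofNat (nat_lit 19685824474418214708346102365120)), (.ofNat (nat_lit 0)), (.ofNat (nat_lit 15746369513050459423249530880)), (.negSucc (nat_lit 2194821967)), (.negSucc (nat_lit 2194821935)), (.negSucc (nat_lit 7508454090619306289314)), (.ofNat (nat_lit 7508454090619306289315)), (.negSucc (nat_lit 7508454090619306289314)), (.ofNat (nat_lit 7508454090619306289315)), (.ofNat (nat_lit 0))⟩,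
    ⟨nat_lit 1, nat_lit 3, nat_lit 4, (.ofNat (nat_lit 8)), (.negSucc (nat_lit 621965503)), (.ofNat (nat_lit 31495544905360766918782153618240)), (.ofNat (nat_lit 1572864)), (.ofNat (nat_lit 27556146647838303990686679040)), (.negSucc (nat_lit 621965519)), (.negSucc (nat_lit 621965487)), (.ofNat (nat_lit 7508454090619306289315)), (.negSucc (nat_lit 7508454090619306289314)), (.negSucc (nat_lit 7508454090619306289314)), (.ofNat (nat_lit 7508454090619306289315)), (.ofNat (nat_lit 0))⟩,
    ⟨nat_lit 0, nat_lit 5, nat_lit 4, (.ofNat (nat_lit 8)), (.negSucc (nat_lit 3513480895)), (.ofNat (nat_lit 53206355478511853866698881254720)), (.negSucc (nat_lit 921881727)), (.ofNat (nat_lit 6961272555451420820713103963520)), (.negSucc (nat_lit 3513480911)), (.negSucc (nat_lit 3513480879)), (.ofNat (nat_lit 7508454090619306289315)), (.negSucc (nat_lit 7508454090619306289314)), (.negSucc (nat_lit 7508454090619306289314)), (.ofNat (nat_lit 7508454090619306289315)), (.ofNat (nat_lit 0))⟩,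
    ⟨nat_lit 2, nat_lit 6, nat_lit 5, (.ofNat (nat_lit 8)), (.negSucc (nat_lit 5166717247)), (.ofNat (nat_lit 40793106228576914516181094075840)), (.negSucc (nat_lit 923978879)), (.ofNat (nat_lit 6945526185938370361289854432640)), (.negSucc (nat_lit 5166717263)), (.negSucc (nat_lit 5166717231)), (.negSucc (nat_lit 7508454090619306289314)), (.ofNat (nat_lit 7508454090619306289315)), (.negSucc (nat_lit 7508454090619306289314)), (.ofNat (nat_lit 7508454090619306289315)), (.ofNat (nat_lit 0))⟩,
    ⟨nat_lit 0, nat_lit 7, nat_lit 8, (.ofNat (nat_lit 8)), (.negSucc (nat_lit 3047067647)), (.ofNat (nat_lit 26914509000480958548783001561600)), (.ofNat (nat_lit 0)), (.ofNat (nat_lit 19682961891313074279061913600)), (.negSucc (nat_lit 3047067663)), (.negSucc (nat_lit 3047067631)), (.ofNat (nat_lit 7508454090619306289315)), (.negSucc (nat_lit 7508454090619306289314)), (.negSucc (nat_lit 7508454090619306289314)), (.ofNat (nat_lit 7508454090619306289315)), (.ofNat (nat_lit 0))⟩,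
    ⟨nat_lit 0, nat_lit 8, nat_lit 9, (.ofNat (nat_lit 8)), (.ofNat (nat_lit 250134272)), (.ofNat (nat_lit 2157619756659127862585508076800)), (.ofNat (nat_lit 1310720)), (.ofNat (nat_lit 9841480945656537139530956800)), (.ofNat (nat_lit 250134256)), (.ofNat (nat_lit 250134288)), (.negSucc (nat_lit 7508454090619306289314)), (.ofNat (nat_lit 7508454090619306289315)), (.negSucc (nat_lit 7508454090619306289314)), (.ofNat (nat_lit 7508454090619306289315)), (.ofNat (nat_lit 0))⟩,
    ⟨nat_lit 1, nat_lit 9, nat_lit 10, (.ofNat (nat_lit 8)), (.ofNat (nat_lit 1737138560)), (.ofNat (nat_lit 13322723185661176890382281659520)), (.ofNat (nat_lit 2359296)), (.ofNat (nat_lit 17714665702181766851155722240)), (.ofNat (nat_lit 1737138544)), (.ofNat (nat_lit 1737138576)), (.ofNat (nat_lit 7508454090619306289315)), (.negSucc (nat_lit 7508454090619306289314)), (.negSucc (nat_lit 7508454090619306289314)), (.ofNat (nat_lit 7508454090619306289315)), (.ofNat (nat_lit 0))⟩,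
    ⟨nat_lit 0, nat_lit 20, nat_lit 10, (.ofNat (nat_lit 8)), (.ofNat (nat_lit 963147968)), (.ofNat (nat_lit 19134196012264435411878521784000)), (.ofNat (nat_lit 1835008)), (.ofNat (nat_lit 21651258080444381706968104960)), (.ofNat (nat_lit 963147952)), (.ofNat (nat_lit 963147984)), (.ofNat (nat_lit 7508454090619306289315)), (.negSucc (nat_lit 7508454090619306289314)), (.negSucc (nat_lit 7508454090619306289314)), (.ofNat (nat_lit 7508454090619306289315)), (.ofNat (nat_lit 0))⟩,
    ⟨nat_lit 1, nat_lit 11, nat_lit 19, (.ofNat (nat_lit 8)), (.negSucc (nat_lit 3416350143)), (.ofNat (nat_lit 38118441588899603532169888420800)), (.negSucc (nat_lit 921881727)), (.ofNat (nat_lit 6949462778316632976145666815360)), (.negSucc (nat_lit 3416350159)), (.negSucc (nat_lit 3416350127)), (.ofNat (nat_lit 7508454090619306289315)), (.negSucc (nat_lit 7508454090619306289314)), (.negSucc (nat_lit 7508454090619306289314)), (.ofNat (nat_lit 7508454090619306289315)), (.ofNat (nat_lit 0))⟩,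
    ⟨nat_lit 0, nat_lit 12, nat_lit 11, (.ofNat (nat_lit 8)), (.negSucc (nat_lit 3960626303)), (.ofNat (nat_lit 34031769028921035483157671190400)), (.negSucc (nat_lit 922143871)), (.ofNat (nat_lit 6947494482127501668717760624000)), (.negSucc (nat_lit 3960626319)), (.negSucc (nat_lit 3960626287)), (.negSucc (nat_lit 7508454090619306289314)), (.ofNat (nat_lit 7508454090619306289315)), (.negSucc (nat_lit 7508454090619306289314)), (.ofNat (nat_lit 7508454090619306289315)), (.ofNat (nat_lit 0))⟩,
    ⟨nat_lit 0, nat_lit 13, nat_lit 12, (.ofNat (nat_lit 8)), (.negSucc (nat_lit 3960626367)), (.ofNat (nat_lit 34031769509462097282793273706560)), (.ofNat (nat_lit 0)), (.ofNat (nat_lit 23619554269575689134874296320)), (.negSucc (nat_lit 3960626383)), (.negSucc (nat_lit 3960626351)), (.ofNat (nat_lit 7508454090619306289315)), (.negSucc (nat_lit 7508454090619306289314)), (.negSucc (nat_lit 7508454090619306289314)), (.ofNat (nat_lit 7508454090619306289315)), (.ofNat (nat_lit 0))⟩,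
    ⟨nat_lit 0, nat_lit 6, nat_lit 13, (.ofNat (nat_lit 8)), (.negSucc (nat_lit 4113423551)), (.ofNat (nat_lit 32884498868222186465752452417600)), (.negSucc (nat_lit 1048575)), (.ofNat (nat_lit 15746369513050459423249530880)), (.negSucc (nat_lit 4113423567)), (.negSucc (nat_lit 4113423535)), (.negSucc (nat_lit 7508454090619306289314)), (.ofNat (nat_lit 7508454090619306289315)), (.negSucc (nat_lit 7508454090619306289314)), (.ofNat (nat_lit 7508454090619306289315)), (.ofNat (nat_lit 0))⟩,
    ⟨nat_lit 0, nat_lit 21, nat_lit 14, (.ofNat (nat_lit 8)), (.negSucc (nat_lit 127419263)), (.ofNat (nat_lit 1436985003070416724712994023680)), (.negSucc (nat_lit 262143)), (.ofNat (nat_lit 1968296189131307427906191360)), (.negSucc (nat_lit 127419279)), (.negSucc (nat_lit 127419247)), (.negSucc (nat_lit 7508454090619306289314)), (.ofNat (nat_lit 7508454090619306289315)), (.negSucc (nat_lit 7508454090619306289314)), (.ofNat (nat_lit 7508454090619306289315)), (.ofNat (nat_lit 0))⟩,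
    ⟨nat_lit 1, nat_lit 14, nat_lit 15, (.ofNat (nat_lit 8)), (.ofNat (nat_lit 1448599360)), (.ofNat (nat_lit 13270448487335427130633766226240)), (.ofNat (nat_lit 1835008)), (.ofNat (nat_lit 17714665702181766851155722240)), (.ofNat (nat_lit 1448599344)), (.ofNat (nat_lit 1448599376)), (.ofNat (nat_lit 7508454090619306289315)), (.negSucc (nat_lit 7508454090619306289314)), (.negSucc (nat_lit 7508454090619306289314)), (.ofNat (nat_lit 7508454090619306289315)), (.ofNat (nat_lit 0))⟩,
    ⟨nat_lit 0, nat_lit 16, nat_lit 15, (.ofNat (nat_lit 8)), (.ofNat (nat_lit 24483072)), (.ofNat (nat_lit 23963360255486609224508098088960)), (.ofNat (nat_lit 1310720)), (.ofNat (nat_lit 21651258080444381706968104960)), (.ofNat (nat_lit 24483056)), (.ofNat (nat_lit 24483088)), (.ofNat (nat_lit 7508454090619306289315)), (.negSucc (nat_lit 7508454090619306289314)), (.negSucc (nat_lit 7508454090619306289314)), (.ofNat (nat_lit 7508454090619306289315)), (.ofNat (nat_lit 0))⟩,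
    ⟨nat_lit 0, nat_lit 17, nat_lit 16, (.ofNat (nat_lit 8)), (.negSucc (nat_lit 1400622719)), (.ofNat (nat_lit 13263018841978942964583263876480)), (.ofNat (nat_lit 0)), (.ofNat (nat_lit 11809777134787844567437148160)), (.negSucc (nat_lit 1400622735)), (.negSucc (nat_lit 1400622703)), (.negSucc (nat_lit 7508454090619306289314)), (.ofNat (nat_lit 7508454090619306289315)), (.negSucc (nat_lit 7508454090619306289314)), (.ofNat (nat_lit 7508454090619306289315)), (.ofNat (nat_lit 0))⟩,
    ⟨nat_lit 2, nat_lit 17, nat_lit 18, (.ofNat (nat_lit 8)), (.negSucc (nat_lit 5046540607)), (.ofNat (nat_lit 40638225922194644762947725643200)), (.negSucc (nat_lit 923192447)), (.ofNat (nat_lit 6943557889749239053861948241280)), (.negSucc (nat_lit 5046540623)), (.negSucc (nat_lit 5046540591)), (.negSucc (nat_lit 7508454090619306289314)), (.ofNat (nat_lit 7508454090619306289315)), (.negSucc (nat_lit 7508454090619306289314)), (.ofNat (nat_lit 7508454090619306289315)), (.ofNat (nat_lit 0))⟩,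
    ⟨nat_lit 0, nat_lit 18, nat_lit 19, (.ofNat (nat_lit 8)), (.negSucc (nat_lit 4399241855)), (.ofNat (nat_lit 45498438884501816631127076078080)), (.negSucc (nat_lit 922143871)), (.ofNat (nat_lit 6951431074505764283573573006720)), (.negSucc (nat_lit 4399241871)), (.negSucc (nat_lit 4399241839)), (.ofNat (nat_lit 7508454090619306289315)), (.negSucc (nat_lit 7508454090619306289314)), (.negSucc (nat_lit 7508454090619306289314)), (.ofNat (nat_lit 7508454090619306289315)), (.ofNat (nat_lit 0))⟩,
    ⟨nat_lit 2, nat_lit 21, nat_lit 7, (.ofNat (nat_lit 8)), (.negSucc (nat_lit 3283832639)), (.ofNat (nat_lit 25136769927783111220147785901120)), (.negSucc (nat_lit 1310719)), (.ofNat (nat_lit 9841480945656537139530956800)), (.negSucc (nat_lit 3283832655)), (.negSucc (nat_lit 3283832623)), (.negSucc (nat_lit 7508454090619306289314)), (.ofNat (nat_lit 7508454090619306289315)), (.negSucc (nat_lit 7508454090619306289314)), (.ofNat (nat_lit 7508454090619306289315)), (.ofNat (nat_lit 0))⟩]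
  es := [
    ⟨nat_lit 1, nat_lit 0, (.negSucc (nat_lit 5208012927)), (.negSucc (nat_lit 735979775)), (.negSucc (nat_lit 5208012911)), (.negSucc (nat_lit 735979791)), (.negSucc (nat_lit 7508454090619306289314)), (.ofNat (nat_lit 0)), (.ofNat (nat_lit 3936592378262614855812382720))⟩,
    ⟨nat_lit 1, nat_lit 2, (.negSucc (nat_lit 5208012927)), (.negSucc (nat_lit 5051136319)), (.negSucc (nat_lit 5208012911)), (.negSucc (nat_lit 5051136335)), (.ofNat (nat_lit 7508454090619306289315)), (.ofNat (nat_lit 0)), (.ofNat (nat_lit 13879242594741952878012271717120))⟩,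
    ⟨nat_lit 2, nat_lit 3, (.negSucc (nat_lit 5051136319)), (.negSucc (nat_lit 2194821951)), (.negSucc (nat_lit 5051136303)), (.negSucc (nat_lit 2194821967)), (.negSucc (nat_lit 7508454090619306289314)), (.ofNat (nat_lit 0)), (.ofNat (nat_lit 15746369513050459423249530880))⟩,
    ⟨nat_lit 3, nat_lit 4, (.negSucc (nat_lit 2194821951)), (.negSucc (nat_lit 621965503)), (.negSucc (nat_lit 2194821935)), (.negSucc (nat_lit 621965519)), (.ofNat (nat_lit 7508454090619306289315)), (.ofNat (nat_lit 0)), (.ofNat (nat_lit 15746369513050459423249530880))⟩,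
    ⟨nat_lit 5, nat_lit 4, (.negSucc (nat_lit 3513480895)), (.negSucc (nat_lit 621965503)), (.negSucc (nat_lit 3513480879)), (.negSucc (nat_lit 621965519)), (.negSucc (nat_lit 7508454090619306289314)), (.ofNat (nat_lit 0)), (.ofNat (nat_lit 39365923782626148558123827200))⟩,
    ⟨nat_lit 6, nat_lit 5, (.negSucc (nat_lit 5166717247)), (.negSucc (nat_lit 3513480895)), (.negSucc (nat_lit 5166717231)), (.negSucc (nat_lit 3513480911)), (.ofNat (nat_lit 7508454090619306289315)), (.ofNat (nat_lit 0)), (.ofNat (nat_lit 13883179187120215492868084099840))⟩,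
    ⟨nat_lit 6, nat_lit 14, (.negSucc (nat_lit 5166717247)), (.negSucc (nat_lit 4113423551)), (.negSucc (nat_lit 5166717231)), (.negSucc (nat_lit 4113423567)), (.negSucc (nat_lit 7508454090619306289314)), (.ofNat (nat_lit 0)), (.ofNat (nat_lit 7873184756525229711624765440))⟩,
    ⟨nat_lit 21, nat_lit 7, (.negSucc (nat_lit 3283832639)), (.negSucc (nat_lit 3047067647)), (.negSucc (nat_lit 3283832623)), (.negSucc (nat_lit 3047067663)), (.ofNat (nat_lit 7508454090619306289315)), (.ofNat (nat_lit 0)), (.ofNat (nat_lit 19682961891313074279061913600))⟩,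
    ⟨nat_lit 7, nat_lit 8, (.negSucc (nat_lit 3047067647)), (.ofNat (nat_lit 250134272)), (.negSucc (nat_lit 3047067631)), (.ofNat (nat_lit 250134256)), (.negSucc (nat_lit 7508454090619306289314)), (.ofNat (nat_lit 0)), (.ofNat (nat_lit 19682961891313074279061913600))⟩,
    ⟨nat_lit 8, nat_lit 9, (.ofNat (nat_lit 250134272)), (.ofNat (nat_lit 1737138560)), (.ofNat (nat_lit 250134288)), (.ofNat (nat_lit 1737138544)), (.ofNat (nat_lit 7508454090619306289315)), (.ofNat (nat_lit 0)), (.ofNat (nat_lit 0))⟩,
    ⟨nat_lit 10, nat_lit 9, (.ofNat (nat_lit 963147968)), (.ofNat (nat_lit 1737138560)), (.ofNat (nat_lit 963147984)), (.ofNat (nat_lit 1737138544)), (.negSucc (nat_lit 7508454090619306289314)), (.ofNat (nat_lit 0)), (.ofNat (nat_lit 35429331404363533702311444480))⟩,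
    ⟨nat_lit 12, nat_lit 11, (.negSucc (nat_lit 3960626303)), (.negSucc (nat_lit 3416350143)), (.negSucc (nat_lit 3960626287)), (.negSucc (nat_lit 3416350159)), (.ofNat (nat_lit 7508454090619306289315)), (.ofNat (nat_lit 0)), (.ofNat (nat_lit 13871369409985427648300646951680))⟩,
    ⟨nat_lit 13, nat_lit 12, (.negSucc (nat_lit 3960626367)), (.negSucc (nat_lit 3960626303)), (.negSucc (nat_lit 3960626351)), (.negSucc (nat_lit 3960626319)), (.negSucc (nat_lit 7508454090619306289314)), (.ofNat (nat_lit 0)), (.ofNat (nat_lit 23619554269575689134874296320))⟩,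
    ⟨nat_lit 14, nat_lit 13, (.negSucc (nat_lit 4113423551)), (.negSucc (nat_lit 3960626367)), (.negSucc (nat_lit 4113423535)), (.negSucc (nat_lit 3960626383)), (.ofNat (nat_lit 7508454090619306289315)), (.ofNat (nat_lit 0)), (.ofNat (nat_lit 23619554269575689134874296320))⟩,
    ⟨nat_lit 15, nat_lit 16, (.negSucc (nat_lit 127419263)), (.ofNat (nat_lit 1448599360)), (.negSucc (nat_lit 127419247)), (.ofNat (nat_lit 1448599344)), (.ofNat (nat_lit 7508454090619306289315)), (.ofNat (nat_lit 0)), (.ofNat (nat_lit 3936592378262614855812382720))⟩,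
    ⟨nat_lit 17, nat_lit 16, (.ofNat (nat_lit 24483072)), (.ofNat (nat_lit 1448599360)), (.ofNat (nat_lit 24483088)), (.ofNat (nat_lit 1448599344)), (.negSucc (nat_lit 7508454090619306289314)), (.ofNat (nat_lit 0)), (.ofNat (nat_lit 31492739026100918846499061760))⟩,
    ⟨nat_lit 18, nat_lit 17, (.negSucc (nat_lit 1400622719)), (.ofNat (nat_lit 24483072)), (.negSucc (nat_lit 1400622703)), (.ofNat (nat_lit 24483056)), (.ofNat (nat_lit 7508454090619306289315)), (.ofNat (nat_lit 0)), (.ofNat (nat_lit 11809777134787844567437148160))⟩,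
    ⟨nat_lit 19, nat_lit 18, (.negSucc (nat_lit 5046540607)), (.negSucc (nat_lit 1400622719)), (.negSucc (nat_lit 5046540591)), (.negSucc (nat_lit 1400622735)), (.negSucc (nat_lit 7508454090619306289314)), (.ofNat (nat_lit 0)), (.ofNat (nat_lit 11809777134787844567437148160))⟩,
    ⟨nat_lit 19, nat_lit 20, (.negSucc (nat_lit 5046540607)), (.negSucc (nat_lit 4399241855)), (.negSucc (nat_lit 5046540591)), (.negSucc (nat_lit 4399241871)), (.ofNat (nat_lit 7508454090619306289315)), (.ofNat (nat_lit 0)), (.ofNat (nat_lit 13875306002363690263156459334400))⟩,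
    ⟨nat_lit 20, nat_lit 11, (.negSucc (nat_lit 4399241855)), (.negSucc (nat_lit 3416350143)), (.negSucc (nat_lit 4399241839)), (.negSucc (nat_lit 3416350159)), (.negSucc (nat_lit 7508454090619306289314)), (.ofNat (nat_lit 0)), (.ofNat (nat_lit 27556146647838303990686679040))⟩,
    ⟨nat_lit 0, nat_lit 10, (.negSucc (nat_lit 735979775)), (.ofNat (nat_lit 963147968)), (.negSucc (nat_lit 735979759)), (.ofNat (nat_lit 963147952)), (.ofNat (nat_lit 7508454090619306289315)), (.ofNat (nat_lit 0)), (.ofNat (nat_lit 7873184756525229711624765440))⟩,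
    ⟨nat_lit 21, nat_lit 15, (.negSucc (nat_lit 3283832639)), (.negSucc (nat_lit 127419263)), (.negSucc (nat_lit 3283832623)), (.negSucc (nat_lit 127419279)), (.negSucc (nat_lit 7508454090619306289314)), (.ofNat (nat_lit 0)), (.ofNat (nat_lit 0))⟩]

theorem ok94 : stOK 21 21 S94 = true := by decide +kernel

def S95 : SD where
  vs := [
    ⟨nat_lit 0, nat_lit 0, nat_lit 20, (.ofNat (nat_lit 8)), (.negSucc (nat_lit 735979775)), (.ofNat (nat_lit 6476004186003653279391371958912)), (.ofNat (nat_lit 0)), (.ofNat (nat_lit 99630833660771325721657430272)), (.negSucc (nat_lit 735979791)), (.negSucc (nat_lit 735979759)), (.negSucc (nat_lit 7625773685821046503076)), (.ofNat (nat_lit 7625773685821046503077)), (.negSucc (nat_lit 7625773685821046503076)), (.ofNat (nat_lit 7625773685821046503077)), (.ofNat (nat_lit 703917571210441282572))⟩,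
    ⟨nat_lit 2, nat_lit 0, nat_lit 1, (.ofNat (nat_lit 8)), (.negSucc (nat_lit 5208012927)), (.ofNat (nat_lit 40578716918644605580485385967616)), (.ofNat (nat_lit 0)), (.ofNat (nat_lit 624287952782173689756888068096)), (.negSucc (nat_lit 5208012943)), (.negSucc (nat_lit 5208012911)), (.negSucc (nat_lit 7625773685821046503076)), (.ofNat (nat_lit 7625773685821046503077)), (.negSucc (nat_lit 7625773685821046503076)), (.ofNat (nat_lit 7625773685821046503077)), (.ofNat (nat_lit 703917571210441282572))⟩,
    ⟨nat_lit 0, nat_lit 1, nat_lit 2, (.ofNat (nat_lit 8)), (.negSucc (nat_lit 5051136319)), (.ofNat (nat_lit 41775022427851869050898367290432)), (.ofNat (nat_lit 0)), (.ofNat (nat_lit 642692652929355770189065547392)), (.negSucc (nat_lit 5051136335)), (.negSucc (nat_lit 5051136303)), (.ofNat (nat_lit 7625773685821046503077)), (.negSucc (nat_lit 7625773685821046503076)), (.negSucc (nat_lit 7625773685821046503076)), (.ofNat (nat_lit 7625773685821046503077)), (.ofNat (nat_lit 703917571210441282572))⟩,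
    ⟨nat_lit 0, nat_lit 2, nat_lit 3, (.ofNat (nat_lit 8)), (.negSucc (nat_lit 2194821951)), (.ofNat (nat_lit 19993415481924896047363375980096)), (.ofNat (nat_lit 0)), (.ofNat (nat_lit 307591007506681339017273614976)), (.negSucc (nat_lit 2194821967)), (.negSucc (nat_lit 2194821935)), (.negSucc (nat_lit 7625773685821046503076)), (.ofNat (nat_lit 7625773685821046503077)), (.negSucc (nat_lit 7625773685821046503076)), (.ofNat (nat_lit 7625773685821046503077)), (.ofNat (nat_lit 703917571210441282572))⟩,
    ⟨nat_lit 1, nat_lit 3, nat_lit 4, (.ofNat (nat_lit 8)), (.negSucc (nat_lit 621965503)), (.ofNat (nat_lit 31987662794657255213835887270592)), (.ofNat (nat_lit 0)), (.ofNat (nat_lit 492117889296488295053733652352)), (.negSucc (nat_lit 621965519)), (.negSucc (nat_lit 621965487)), (.ofNat (nat_lit 7625773685821046503077)), (.negSucc (nat_lit 7625773685821046503076)), (.negSucc (nat_lit 7625773685821046503076)), (.ofNat (nat_lit 7625773685821046503077)), (.ofNat (nat_lit 703917571210441282572))⟩,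
    ⟨nat_lit 0, nat_lit 5, nat_lit 4, (.ofNat (nat_lit 8)), (.negSucc (nat_lit 3513480895)), (.ofNat (nat_lit 54037704783117383335030808131776)), (.ofNat (nat_lit 0)), (.ofNat (nat_lit 831349304605529468331926877056)), (.negSucc (nat_lit 3513480911)), (.negSucc (nat_lit 3513480879)), (.ofNat (nat_lit 7625773685821046503077)), (.negSucc (nat_lit 7625773685821046503076)), (.negSucc (nat_lit 7625773685821046503076)), (.ofNat (nat_lit 7625773685821046503077)), (.ofNat (nat_lit 703917571210441282572))⟩,
    ⟨nat_lit 2, nat_lit 6, nat_lit 5, (.ofNat (nat_lit 8)), (.negSucc (nat_lit 5166717247)), (.ofNat (nat_lit 41430498513593002289461431876672)), (.ofNat (nat_lit 0)), (.ofNat (nat_lit 637392285016087773280337800832)), (.negSucc (nat_lit 5166717263)), (.negSucc (nat_lit 5166717231)), (.negSucc (nat_lit 7625773685821046503076)), (.ofNat (nat_lit 7625773685821046503077)), (.negSucc (nat_lit 7625773685821046503076)), (.ofNat (nat_lit 7625773685821046503077)), (.ofNat (nat_lit 703917571210441282572))⟩,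
    ⟨nat_lit 0, nat_lit 7, nat_lit 8, (.ofNat (nat_lit 8)), (.negSucc (nat_lit 3047067647)), (.ofNat (nat_lit 27335048203741849378539453089280)), (.ofNat (nat_lit 0)), (.ofNat (nat_lit 420539203260890829756451527680)), (.negSucc (nat_lit 3047067663)), (.negSucc (nat_lit 3047067631)), (.ofNat (nat_lit 7625773685821046503077)), (.negSucc (nat_lit 7625773685821046503076)), (.negSucc (nat_lit 7625773685821046503076)), (.ofNat (nat_lit 7625773685821046503077)), (.ofNat (nat_lit 703917571210441282572))⟩,
    ⟨nat_lit 0, nat_lit 8, nat_lit 9, (.ofNat (nat_lit 8)), (.ofNat (nat_lit 250134272)), (.ofNat (nat_lit 2191332565367218072184682781440)), (.ofNat (nat_lit 0)), (.ofNat (nat_lit 33712808708090209599174704640)), (.ofNat (nat_lit 250134256)), (.ofNat (nat_lit 250134288)), (.negSucc (nat_lit 7625773685821046503076)), (.ofNat (nat_lit 7625773685821046503077)), (.negSucc (nat_lit 7625773685821046503076)), (.ofNat (nat_lit 7625773685821046503077)), (.ofNat (nat_lit 703917571210441282572))⟩,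
    ⟨nat_lit 1, nat_lit 9, nat_lit 10, (.ofNat (nat_lit 8)), (.ofNat (nat_lit 1737138560)), (.ofNat (nat_lit 13530890735500679022907586975616)), (.ofNat (nat_lit 0)), (.ofNat (nat_lit 208167549839502132525305316096)), (.ofNat (nat_lit 1737138544)), (.ofNat (nat_lit 1737138576)), (.ofNat (nat_lit 7625773685821046503077)), (.negSucc (nat_lit 7625773685821046503076)), (.negSucc (nat_lit 7625773685821046503076)), (.ofNat (nat_lit 7625773685821046503077)), (.ofNat (nat_lit 703917571210441282572))⟩,
    ⟨nat_lit 0, nat_lit 20, nat_lit 10, (.ofNat (nat_lit 8)), (.ofNat (nat_lit 963147968)), (.ofNat (nat_lit 19433167825047332811883684027200)), (.ofNat (nat_lit 0)), (.ofNat (nat_lit 298971812782897400005162243200)), (.ofNat (nat_lit 963147952)), (.ofNat (nat_lit 963147984)), (.ofNat (nat_lit 7625773685821046503077)), (.negSucc (nat_lit 7625773685821046503076)), (.negSucc (nat_lit 7625773685821046503076)), (.ofNat (nat_lit 7625773685821046503077)), (.ofNat (nat_lit 703917571210441282572))⟩,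
    ⟨nat_lit 1, nat_lit 11, nat_lit 19, (.ofNat (nat_lit 8)), (.negSucc (nat_lit 3416350143)), (.ofNat (nat_lit 38714034313120427163169295481024)), (.ofNat (nat_lit 0)), (.ofNat (nat_lit 595592724220823630999407060224)), (.negSucc (nat_lit 3416350159)), (.negSucc (nat_lit 3416350127)), (.ofNat (nat_lit 7625760915449263185093)), (.negSucc (nat_lit 7625781749565456873494)), (.negSucc (nat_lit 7625781749565456873494)), (.ofNat (nat_lit 7625760915449263185093)), (.ofNat (nat_lit 703882617212128751472))⟩,
    ⟨nat_lit 0, nat_lit 12, nat_lit 11, (.ofNat (nat_lit 8)), (.negSucc (nat_lit 3960626303)), (.ofNat (nat_lit 34563514444981617521957508198144)), (.ofNat (nat_lit 0)), (.ofNat (nat_lit 531745416060582038799837007744)), (.negSucc (nat_lit 3960626319)), (.negSucc (nat_lit 3960626287)), (.ofNat (nat_lit 7625760915449263185093)), (.ofNat (nat_lit 7625760915449263185093)), (.ofNat (nat_lit 7625760915449263185093)), (.ofNat (nat_lit 7625760915449263185093)), (.ofNat (nat_lit 60302246374614364106076))⟩,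
    ⟨nat_lit 0, nat_lit 13, nat_lit 12, (.ofNat (nat_lit 8)), (.negSucc (nat_lit 3960626367)), (.ofNat (nat_lit 34563513956932918933204664352192)), (.ofNat (nat_lit 0)), (.ofNat (nat_lit 531744447470821650411390645632)), (.negSucc (nat_lit 3960626383)), (.negSucc (nat_lit 3960626351)), (.ofNat (nat_lit 7625760915449263185093)), (.ofNat (nat_lit 7625760915449263185093)), (.ofNat (nat_lit 7625760915449263185093)), (.ofNat (nat_lit 7625760915449263185093)), (.ofNat (nat_lit 30268430012137138948816))⟩,
    ⟨nat_lit 0, nat_lit 6, nat_lit 13, (.ofNat (nat_lit 8)), (.negSucc (nat_lit 4113423551)), (.ofNat (nat_lit 33398319163195009423647583174080)), (.ofNat (nat_lit 0)), (.ofNat (nat_lit 513820294972822957895130756480)), (.negSucc (nat_lit 4113423567)), (.negSucc (nat_lit 4113423535)), (.negSucc (nat_lit 7625773685821046503076)), (.ofNat (nat_lit 7625760915449263185093)), (.negSucc (nat_lit 7625773685821046503076)), (.ofNat (nat_lit 7625760915449263185093)), (.ofNat (nat_lit 703892030466874646604))⟩,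
    ⟨nat_lit 0, nat_lit 21, nat_lit 14, (.ofNat (nat_lit 8)), (.negSucc (nat_lit 127419263)), (.ofNat (nat_lit 1459437893750246065176531250944)), (.ofNat (nat_lit 0)), (.ofNat (nat_lit 22452890679829340463537227264)), (.negSucc (nat_lit 127419279)), (.negSucc (nat_lit 127419247)), (.negSucc (nat_lit 7625773685821046503076)), (.ofNat (nat_lit 7625773685821046503077)), (.negSucc (nat_lit 7625773685821046503076)), (.ofNat (nat_lit 7625773685821046503077)), (.ofNat (nat_lit 703917571210441282572))⟩,
    ⟨nat_lit 1, nat_lit 14, nat_lit 15, (.ofNat (nat_lit 8)), (.ofNat (nat_lit 1448599360)), (.ofNat (nat_lit 13477799245013340085195956556992)), (.ofNat (nat_lit 0)), (.ofNat (nat_lit 207350757677912954562190330752)), (.ofNat (nat_lit 1448599344)), (.ofNat (nat_lit 1448599376)), (.ofNat (nat_lit 7625773685821046503077)), (.negSucc (nat_lit 7625773685821046503076)), (.negSucc (nat_lit 7625773685821046503076)), (.ofNat (nat_lit 7625773685821046503077)), (.ofNat (nat_lit 703917571210441282572))⟩,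
    ⟨nat_lit 0, nat_lit 16, nat_lit 15, (.ofNat (nat_lit 8)), (.ofNat (nat_lit 24483072)), (.ofNat (nat_lit 24337787759592887063433354375168)), (.ofNat (nat_lit 0)), (.ofNat (nat_lit 374427504106277838925256286208)), (.ofNat (nat_lit 24483056)), (.ofNat (nat_lit 24483088)), (.ofNat (nat_lit 7625773685821046503077)), (.negSucc (nat_lit 7625773685821046503076)), (.negSucc (nat_lit 7625773685821046503076)), (.ofNat (nat_lit 7625773685821046503077)), (.ofNat (nat_lit 703917571210441282572))⟩,
    ⟨nat_lit 0, nat_lit 17, nat_lit 16, (.ofNat (nat_lit 8)), (.negSucc (nat_lit 1400622719)), (.ofNat (nat_lit 13470253511448125416396975853184)), (.ofNat (nat_lit 0)), (.ofNat (nat_lit 207234669469182451813711976704)), (.negSucc (nat_lit 1400622735)), (.negSucc (nat_lit 1400622703)), (.negSucc (nat_lit 7625773685821046503076)), (.ofNat (nat_lit 7625773685821046503077)), (.negSucc (nat_lit 7625773685821046503076)), (.ofNat (nat_lit 7625773685821046503077)), (.ofNat (nat_lit 703917571210441282572))⟩,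
    ⟨nat_lit 2, nat_lit 17, nat_lit 18, (.ofNat (nat_lit 8)), (.negSucc (nat_lit 5046540607)), (.ofNat (nat_lit 41273198202422770828845257194560)), (.ofNat (nat_lit 0)), (.ofNat (nat_lit 634972280228126065897531551360)), (.negSucc (nat_lit 5046540623)), (.negSucc (nat_lit 5046540591)), (.negSucc (nat_lit 7625773685821046503076)), (.ofNat (nat_lit 7625773685821046503077)), (.negSucc (nat_lit 7625773685821046503076)), (.ofNat (nat_lit 7625773685821046503077)), (.ofNat (nat_lit 703917571210441282572))⟩,
    ⟨nat_lit 0, nat_lit 18, nat_lit 19, (.ofNat (nat_lit 8)), (.negSucc (nat_lit 4399241855)), (.ofNat (nat_lit 46209351992289174325620963454464)), (.ofNat (nat_lit 0)), (.ofNat (nat_lit 710913107787357694493887376384)), (.negSucc (nat_lit 4399241871)), (.negSucc (nat_lit 4399241839)), (.ofNat (nat_lit 7625773685821046503077)), (.negSucc (nat_lit 7625781749565456873494)), (.negSucc (nat_lit 7625781749565456873494)), (.ofNat (nat_lit 7625773685821046503077)), (.ofNat (nat_lit 703933698699262023408))⟩,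
    ⟨nat_lit 2, nat_lit 21, nat_lit 7, (.ofNat (nat_lit 8)), (.negSucc (nat_lit 3283832639)), (.ofNat (nat_lit 25529531958024618789806799208896)), (.ofNat (nat_lit 0)), (.ofNat (nat_lit 392762030241507569659013307776)), (.negSucc (nat_lit 3283832655)), (.negSucc (nat_lit 3283832623)), (.negSucc (nat_lit 7625773685821046503076)), (.ofNat (nat_lit 7625773685821046503077)), (.negSucc (nat_lit 7625773685821046503076)), (.ofNat (nat_lit 7625773685821046503077)), (.ofNat (nat_lit 703917571210441282572))⟩]
  es := [
    ⟨nat_lit 1, nat_lit 0, (.negSucc (nat_lit 5208012927)), (.negSucc (nat_lit 735979775)), (.negSucc (nat_lit 5208012911)), (.negSucc (nat_lit 735979791)), (.negSucc (nat_lit 7625773685821046503076)), (.negSucc (nat_lit 117319595201740213761)), (.ofNat (nat_lit 13285984263783888386908552960))⟩,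
    ⟨nat_lit 1, nat_lit 2, (.negSucc (nat_lit 5208012927)), (.negSucc (nat_lit 5051136319)), (.negSucc (nat_lit 5208012911)), (.negSucc (nat_lit 5051136335)), (.ofNat (nat_lit 7625773685821046503077)), (.ofNat (nat_lit 117319595201740213762)), (.ofNat (nat_lit 1235289921300563491126867583232))⟩,
    ⟨nat_lit 2, nat_lit 3, (.negSucc (nat_lit 5051136319)), (.negSucc (nat_lit 2194821951)), (.negSucc (nat_lit 5051136303)), (.negSucc (nat_lit 2194821967)), (.negSucc (nat_lit 7625773685821046503076)), (.negSucc (nat_lit 117319595201740213761)), (.ofNat (nat_lit 50095384558148049251263511552))⟩,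
    ⟨nat_lit 3, nat_lit 4, (.negSucc (nat_lit 2194821951)), (.negSucc (nat_lit 621965503)), (.negSucc (nat_lit 2194821935)), (.negSucc (nat_lit 621965519)), (.ofNat (nat_lit 7625773685821046503077)), (.ofNat (nat_lit 117319595201740213762)), (.ofNat (nat_lit 565086630455214628783283718400))⟩,
    ⟨nat_lit 5, nat_lit 4, (.negSucc (nat_lit 3513480895)), (.negSucc (nat_lit 621965503)), (.negSucc (nat_lit 3513480879)), (.negSucc (nat_lit 621965519)), (.negSucc (nat_lit 7625773685821046503076)), (.negSucc (nat_lit 117319595201740213761)), (.ofNat (nat_lit 419149148137761961324183586304))⟩,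
    ⟨nat_lit 6, nat_lit 5, (.negSucc (nat_lit 5166717247)), (.negSucc (nat_lit 3513480895)), (.negSucc (nat_lit 5166717231)), (.negSucc (nat_lit 3513480911)), (.ofNat (nat_lit 7625773685821046503077)), (.ofNat (nat_lit 117319595201740213762)), (.ofNat (nat_lit 1243549461073296975339670167808))⟩,
    ⟨nat_lit 6, nat_lit 14, (.negSucc (nat_lit 5166717247)), (.negSucc (nat_lit 4113423551)), (.negSucc (nat_lit 5166717231)), (.negSucc (nat_lit 4113423567)), (.negSucc (nat_lit 7625773685821046503076)), (.negSucc (nat_lit 117319595201740213761)), (.ofNat (nat_lit 31235108958878571221005433856))⟩,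
    ⟨nat_lit 21, nat_lit 7, (.negSucc (nat_lit 3283832639)), (.negSucc (nat_lit 3047067647)), (.negSucc (nat_lit 3283832623)), (.negSucc (nat_lit 3047067663)), (.ofNat (nat_lit 7625773685821046503077)), (.ofNat (nat_lit 117319595201740213762)), (.ofNat (nat_lit 778019946276569468411246099456))⟩,
    ⟨nat_lit 7, nat_lit 8, (.negSucc (nat_lit 3047067647)), (.ofNat (nat_lit 250134272)), (.negSucc (nat_lit 3047067631)), (.ofNat (nat_lit 250134256)), (.negSucc (nat_lit 7625773685821046503076)), (.negSucc (nat_lit 117319595201740213761)), (.ofNat (nat_lit 63058460245212191101656955904))⟩,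
    ⟨nat_lit 8, nat_lit 9, (.ofNat (nat_lit 250134272)), (.ofNat (nat_lit 1737138560)), (.ofNat (nat_lit 250134288)), (.ofNat (nat_lit 1737138544)), (.ofNat (nat_lit 7625773685821046503077)), (.ofNat (nat_lit 117319595201740213762)), (.ofNat (nat_lit 4367157170968228096692453376))⟩,
    ⟨nat_lit 10, nat_lit 9, (.ofNat (nat_lit 963147968)), (.ofNat (nat_lit 1737138560)), (.ofNat (nat_lit 963147984)), (.ofNat (nat_lit 1737138544)), (.negSucc (nat_lit 7625773685821046503076)), (.negSucc (nat_lit 117319595201740213761)), (.ofNat (nat_lit 411967942508036036953918178816))⟩,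
    ⟨nat_lit 12, nat_lit 11, (.negSucc (nat_lit 3960626303)), (.negSucc (nat_lit 3416350143)), (.negSucc (nat_lit 3960626287)), (.negSucc (nat_lit 3416350159)), (.ofNat (nat_lit 7625760915449263185093)), (.ofNat (nat_lit 117306824829956895778)), (.ofNat (nat_lit 996353912120829647404370352256))⟩,
    ⟨nat_lit 13, nat_lit 12, (.negSucc (nat_lit 3960626367)), (.negSucc (nat_lit 3960626303)), (.negSucc (nat_lit 3960626351)), (.negSucc (nat_lit 3960626319)), (.ofNat (nat_lit 7625760915449263185093)), (.ofNat (nat_lit 15134215006068569474408)), (.ofNat (nat_lit 60472715459487277926791616635776))⟩,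
    ⟨nat_lit 14, nat_lit 13, (.negSucc (nat_lit 4113423551)), (.negSucc (nat_lit 3960626367)), (.negSucc (nat_lit 4113423535)), (.negSucc (nat_lit 3960626383)), (.ofNat (nat_lit 7625760915449263185093)), (.ofNat (nat_lit 117306824829956895778)), (.ofNat (nat_lit 996352951038706048133165319936))⟩,
    ⟨nat_lit 15, nat_lit 16, (.negSucc (nat_lit 127419263)), (.ofNat (nat_lit 1448599360)), (.negSucc (nat_lit 127419247)), (.ofNat (nat_lit 1448599344)), (.ofNat (nat_lit 7625773685821046503077)), (.ofNat (nat_lit 117319595201740213762)), (.ofNat (nat_lit 37401667153213010020293938432))⟩,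
    ⟨nat_lit 17, nat_lit 16, (.ofNat (nat_lit 24483072)), (.ofNat (nat_lit 1448599360)), (.ofNat (nat_lit 24483088)), (.ofNat (nat_lit 1448599344)), (.negSucc (nat_lit 7625773685821046503076)), (.negSucc (nat_lit 117319595201740213761)), (.ofNat (nat_lit 377299848202612899104086723072))⟩,
    ⟨nat_lit 18, nat_lit 17, (.negSucc (nat_lit 1400622719)), (.ofNat (nat_lit 24483072)), (.negSucc (nat_lit 1400622703)), (.ofNat (nat_lit 24483056)), (.ofNat (nat_lit 7625773685821046503077)), (.ofNat (nat_lit 117319595201740213762)), (.ofNat (nat_lit 371555160009942778746425849344))⟩,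
    ⟨nat_lit 19, nat_lit 18, (.negSucc (nat_lit 5046540607)), (.negSucc (nat_lit 1400622719)), (.negSucc (nat_lit 5046540591)), (.negSucc (nat_lit 1400622735)), (.negSucc (nat_lit 7625773685821046503076)), (.negSucc (nat_lit 117319595201740213761)), (.ofNat (nat_lit 42914178928422124880998104064))⟩,
    ⟨nat_lit 19, nat_lit 20, (.negSucc (nat_lit 5046540607)), (.negSucc (nat_lit 4399241855)), (.negSucc (nat_lit 5046540591)), (.negSucc (nat_lit 4399241871)), (.ofNat (nat_lit 7625773685821046503077)), (.ofNat (nat_lit 117319595201740213762)), (.ofNat (nat_lit 1227030381527830006914064998656))⟩,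
    ⟨nat_lit 20, nat_lit 11, (.negSucc (nat_lit 4399241855)), (.negSucc (nat_lit 3416350143)), (.negSucc (nat_lit 4399241839)), (.negSucc (nat_lit 3416350159)), (.negSucc (nat_lit 7625781749565456873494)), (.negSucc (nat_lit 117327658946150584179)), (.ofNat (nat_lit 194760359684959194490379938304))⟩,
    ⟨nat_lit 0, nat_lit 10, (.negSucc (nat_lit 735979775)), (.ofNat (nat_lit 963147968)), (.negSucc (nat_lit 735979759)), (.ofNat (nat_lit 963147952)), (.ofNat (nat_lit 7625773685821046503077)), (.ofNat (nat_lit 117319595201740213762)), (.ofNat (nat_lit 185975683057758763056406307584))⟩,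
    ⟨nat_lit 21, nat_lit 15, (.negSucc (nat_lit 3283832639)), (.negSucc (nat_lit 127419263)), (.negSucc (nat_lit 3283832623)), (.negSucc (nat_lit 127419279)), (.negSucc (nat_lit 7625773685821046503076)), (.negSucc (nat_lit 117319595201740213761)), (.ofNat (nat_lit 7504114206445670906780516096))⟩]

theorem ok95 : stOK 21 21 S95 = true := by decide +kernel

def S96 : SD where
  vs := [
    ⟨nat_lit 0, nat_lit 0, nat_lit 20, (.ofNat (nat_lit 8)), (.negSucc (nat_lit 832990655)), (.ofNat (nat_lit 7219785303580188268004799670848)), (.negSucc (nat_lit 97010879)), (.ofNat (nat_lit 743781117576534988613427711936)), (.negSucc (nat_lit 832990671)), (.negSucc (nat_lit 832990639)), (.negSucc (nat_lit 7625773685821046503076)), (.ofNat (nat_lit 7625773685821046503077)), (.negSucc (nat_lit 7625773685821046503076)), (.ofNat (nat_lit 7625773685821046503077)), (.ofNat (nat_lit 0))⟩,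
    ⟨nat_lit 2, nat_lit 0, nat_lit 1, (.ofNat (nat_lit 8)), (.negSucc (nat_lit 5865862847)), (.ofNat (nat_lit 45599329629434277901679875405632)), (.negSucc (nat_lit 657849919)), (.ofNat (nat_lit 5020612710789672321194489438016)), (.negSucc (nat_lit 5865862863)), (.negSucc (nat_lit 5865862831)), (.negSucc (nat_lit 7625773685821046503076)), (.ofNat (nat_lit 7625773685821046503077)), (.negSucc (nat_lit 7625773685821046503076)), (.ofNat (nat_lit 7625773685821046503077)), (.ofNat (nat_lit 0))⟩,
    ⟨nat_lit 0, nat_lit 1, nat_lit 2, (.ofNat (nat_lit 8)), (.negSucc (nat_lit 5708199807)), (.ofNat (nat_lit 46801632291092828989336364579712)), (.negSucc (nat_lit 657063487)), (.ofNat (nat_lit 5026609863240959938437997289280)), (.negSucc (nat_lit 5708199823)), (.negSucc (nat_lit 5708199791)), (.ofNat (nat_lit 7625773685821046503077)), (.negSucc (nat_lit 7625773685821046503076)), (.negSucc (nat_lit 7625773685821046503076)), (.ofNat (nat_lit 7625773685821046503077)), (.ofNat (nat_lit 0))⟩,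
    ⟨nat_lit 0, nat_lit 2, nat_lit 3, (.ofNat (nat_lit 8)), (.negSucc (nat_lit 2493535487)), (.ofNat (nat_lit 22287329710889020890833962467072)), (.negSucc (nat_lit 298713535)), (.ofNat (nat_lit 2293914228964124843470586486976)), (.negSucc (nat_lit 2493535503)), (.negSucc (nat_lit 2493535471)), (.negSucc (nat_lit 7625773685821046503076)), (.ofNat (nat_lit 7625773685821046503077)), (.negSucc (nat_lit 7625773685821046503076)), (.ofNat (nat_lit 7625773685821046503077)), (.ofNat (nat_lit 0))⟩,
    ⟨nat_lit 1, nat_lit 3, nat_lit 4, (.ofNat (nat_lit 8)), (.negSucc (nat_lit 919106175)), (.ofNat (nat_lit 34293571328523955291793489460096)), (.negSucc (nat_lit 297140671)), (.ofNat (nat_lit 2305908533866700077957602189504)), (.negSucc (nat_lit 919106191)), (.negSucc (nat_lit 919106159)), (.ofNat (nat_lit 7625773685821046503077)), (.negSucc (nat_lit 7625773685821046503076)), (.negSucc (nat_lit 7625773685821046503076)), (.ofNat (nat_lit 7625773685821046503077)), (.ofNat (nat_lit 0))⟩,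
    ⟨nat_lit 0, nat_lit 5, nat_lit 4, (.ofNat (nat_lit 8)), (.negSucc (nat_lit 4173633791)), (.ofNat (nat_lit 59111862382394658770077814934528)), (.negSucc (nat_lit 660152895)), (.ofNat (nat_lit 5074157599277275435047006802752)), (.negSucc (nat_lit 4173633807)), (.negSucc (nat_lit 4173633775)), (.ofNat (nat_lit 7625773685821046503077)), (.negSucc (nat_lit 7625773685821046503076)), (.negSucc (nat_lit 7625773685821046503076)), (.ofNat (nat_lit 7625773685821046503077)), (.ofNat (nat_lit 0))⟩,
    ⟨nat_lit 2, nat_lit 6, nat_lit 5, (.ofNat (nat_lit 8)), (.negSucc (nat_lit 5828967295)), (.ofNat (nat_lit 46488663706333510745192417742720)), (.negSucc (nat_lit 662250047)), (.ofNat (nat_lit 5058165192740508455730985866048)), (.negSucc (nat_lit 5828967311)), (.negSucc (nat_lit 5828967279)), (.negSucc (nat_lit 7625773685821046503076)), (.ofNat (nat_lit 7625773685821046503077)), (.negSucc (nat_lit 7625773685821046503076)), (.ofNat (nat_lit 7625773685821046503077)), (.ofNat (nat_lit 0))⟩,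
    ⟨nat_lit 0, nat_lit 7, nat_lit 8, (.ofNat (nat_lit 8)), (.negSucc (nat_lit 3459217727)), (.ofNat (nat_lit 30498001946585847284611385056320)), (.negSucc (nat_lit 412150079)), (.ofNat (nat_lit 3162953742843997906071931967040)), (.negSucc (nat_lit 3459217743)), (.negSucc (nat_lit 3459217711)), (.ofNat (nat_lit 7625773685821046503077)), (.negSucc (nat_lit 7625773685821046503076)), (.negSucc (nat_lit 7625773685821046503076)), (.ofNat (nat_lit 7625773685821046503077)), (.ofNat (nat_lit 0))⟩,
    ⟨nat_lit 0, nat_lit 8, nat_lit 9, (.ofNat (nat_lit 8)), (.ofNat (nat_lit 251444992)), (.ofNat (nat_lit 2201327819452697434257195866880)), (.ofNat (nat_lit 1310720)), (.ofNat (nat_lit 9995254085479362072513085440)), (.ofNat (nat_lit 251444976)), (.ofNat (nat_lit 251445008)), (.negSucc (nat_lit 7625773685821046503076)), (.ofNat (nat_lit 7625773685821046503077)), (.negSucc (nat_lit 7625773685821046503076)), (.ofNat (nat_lit 7625773685821046503077)), (.ofNat (nat_lit 0))⟩,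
    ⟨nat_lit 1, nat_lit 9, nat_lit 10, (.ofNat (nat_lit 8)), (.ofNat (nat_lit 1739497856)), (.ofNat (nat_lit 13548882192854541874638110529408)), (.ofNat (nat_lit 2359296)), (.ofNat (nat_lit 17991457353862851730523553792)), (.ofNat (nat_lit 1739497840)), (.ofNat (nat_lit 1739497872)), (.ofNat (nat_lit 7625773685821046503077)), (.negSucc (nat_lit 7625773685821046503076)), (.negSucc (nat_lit 7625773685821046503076)), (.ofNat (nat_lit 7625773685821046503077)), (.ofNat (nat_lit 0))⟩,
    ⟨nat_lit 0, nat_lit 20, nat_lit 10, (.ofNat (nat_lit 8)), (.ofNat (nat_lit 868234240)), (.ofNat (nat_lit 20192941349160634779813132675840)), (.negSucc (nat_lit 94913727)), (.ofNat (nat_lit 759773524113301967929448648640)), (.ofNat (nat_lit 868234224)), (.ofNat (nat_lit 868234256)), (.ofNat (nat_lit 7625773685821046503077)), (.negSucc (nat_lit 7625773685821046503076)), (.negSucc (nat_lit 7625773685821046503076)), (.ofNat (nat_lit 7625773685821046503077)), (.ofNat (nat_lit 0))⟩,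
    ⟨nat_lit 1, nat_lit 11, nat_lit 19, (.ofNat (nat_lit 8)), (.negSucc (nat_lit 3944841407)), (.ofNat (nat_lit 42772174805920676936055907708224)), (.negSucc (nat_lit 528491263)), (.ofNat (nat_lit 4058140492800249772886612227200)), (.negSucc (nat_lit 3944841423)), (.negSucc (nat_lit 3944841391)), (.ofNat (nat_lit 7625760915449263185093)), (.negSucc (nat_lit 7625781749565456873494)), (.negSucc (nat_lit 7625781749565456873494)), (.ofNat (nat_lit 7625760915449263185093)), (.ofNat (nat_lit 0))⟩,
    ⟨nat_lit 0, nat_lit 12, nat_lit 11, (.ofNat (nat_lit 8)), (.negSucc (nat_lit 4489379711)), (.ofNat (nat_lit 38619655890312447763195727405952)), (.negSucc (nat_lit 528753407)), (.ofNat (nat_lit 4056141445330830241238219207808)), (.negSucc (nat_lit 4489379727)), (.negSucc (nat_lit 4489379695)), (.ofNat (nat_lit 7625760915449263185093)), (.ofNat (nat_lit 7625760915449263185093)), (.ofNat (nat_lit 7625760915449263185093)), (.ofNat (nat_lit 7625760915449263185093)), (.ofNat (nat_lit 0))⟩,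
    ⟨nat_lit 0, nat_lit 13, nat_lit 12, (.ofNat (nat_lit 8)), (.negSucc (nat_lit 4489379775)), (.ofNat (nat_lit 38619655402263749174442883560000)), (.negSucc (nat_lit 528753407)), (.ofNat (nat_lit 4056141445330830241238219207808)), (.negSucc (nat_lit 4489379791)), (.negSucc (nat_lit 4489379759)), (.ofNat (nat_lit 7625760915449263185093)), (.ofNat (nat_lit 7625760915449263185093)), (.ofNat (nat_lit 7625760915449263185093)), (.ofNat (nat_lit 7625760915449263185093)), (.ofNat (nat_lit 0))⟩,
    ⟨nat_lit 0, nat_lit 6, nat_lit 13, (.ofNat (nat_lit 8)), (.negSucc (nat_lit 4643225471)), (.ofNat (nat_lit 37446464906696860127045074150272)), (.negSucc (nat_lit 529801919)), (.ofNat (nat_lit 4048145743501850703397490976192)), (.negSucc (nat_lit 4643225487)), (.negSucc (nat_lit 4643225455)), (.negSucc (nat_lit 7625773685821046503076)), (.ofNat (nat_lit 7625760915449263185093)), (.negSucc (nat_lit 7625773685821046503076)), (.ofNat (nat_lit 7625760915449263185093)), (.ofNat (nat_lit 0))⟩,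
    ⟨nat_lit 0, nat_lit 21, nat_lit 14, (.ofNat (nat_lit 8)), (.negSucc (nat_lit 145279935)), (.ofNat (nat_lit 1595639336298926827464736538688)), (.negSucc (nat_lit 17860671)), (.ofNat (nat_lit 136201442548680762288205287744)), (.negSucc (nat_lit 145279951)), (.negSucc (nat_lit 145279919)), (.negSucc (nat_lit 7625773685821046503076)), (.ofNat (nat_lit 7625773685821046503077)), (.negSucc (nat_lit 7625773685821046503076)), (.ofNat (nat_lit 7625773685821046503077)), (.ofNat (nat_lit 0))⟩,
    ⟨nat_lit 1, nat_lit 14, nat_lit 15, (.ofNat (nat_lit 8)), (.ofNat (nat_lit 1432835840)), (.ofNat (nat_lit 13629993094098787826800182781440)), (.negSucc (nat_lit 15763519)), (.ofNat (nat_lit 152193849085447741604226224448)), (.ofNat (nat_lit 1432835824)), (.ofNat (nat_lit 1432835856)), (.ofNat (nat_lit 7625773685821046503077)), (.negSucc (nat_lit 7625773685821046503076)), (.negSucc (nat_lit 7625773685821046503076)), (.ofNat (nat_lit 7625773685821046503077)), (.ofNat (nat_lit 0))⟩,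
    ⟨nat_lit 0, nat_lit 16, nat_lit 15, (.ofNat (nat_lit 8)), (.negSucc (nat_lit 169819199)), (.ofNat (nat_lit 25851477725579264543030912339520)), (.negSucc (nat_lit 194302271)), (.ofNat (nat_lit 1513689965986377479597557964352)), (.negSucc (nat_lit 169819215)), (.negSucc (nat_lit 169819183)), (.ofNat (nat_lit 7625773685821046503077)), (.negSucc (nat_lit 7625773685821046503076)), (.negSucc (nat_lit 7625773685821046503076)), (.ofNat (nat_lit 7625773685821046503077)), (.ofNat (nat_lit 0))⟩,
    ⟨nat_lit 0, nat_lit 17, nat_lit 16, (.ofNat (nat_lit 8)), (.negSucc (nat_lit 1596235711)), (.ofNat (nat_lit 14973948223349023533922020732096)), (.negSucc (nat_lit 195612991)), (.ofNat (nat_lit 1503694711900898117525044878912)), (.negSucc (nat_lit 1596235727)), (.negSucc (nat_lit 1596235695)), (.negSucc (nat_lit 7625773685821046503076)), (.ofNat (nat_lit 7625773685821046503077)), (.negSucc (nat_lit 7625773685821046503076)), (.ofNat (nat_lit 7625773685821046503077)), (.ofNat (nat_lit 0))⟩,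
    ⟨nat_lit 2, nat_lit 17, nat_lit 18, (.ofNat (nat_lit 8)), (.negSucc (nat_lit 5699203967)), (.ofNat (nat_lit 46262255583712894632746758055808)), (.negSucc (nat_lit 652663359)), (.ofNat (nat_lit 4989057381290123803901500861248)), (.negSucc (nat_lit 5699203983)), (.negSucc (nat_lit 5699203951)), (.negSucc (nat_lit 7625773685821046503076)), (.ofNat (nat_lit 7625773685821046503077)), (.negSucc (nat_lit 7625773685821046503076)), (.ofNat (nat_lit 7625773685821046503077)), (.ofNat (nat_lit 0))⟩,
    ⟨nat_lit 0, nat_lit 18, nat_lit 19, (.ofNat (nat_lit 8)), (.negSucc (nat_lit 5050856639)), (.ofNat (nat_lit 51206405576847681619180474784064)), (.negSucc (nat_lit 651614783)), (.ofNat (nat_lit 4997053584558507293559511329600)), (.negSucc (nat_lit 5050856655)), (.negSucc (nat_lit 5050856623)), (.ofNat (nat_lit 7625773685821046503077)), (.negSucc (nat_lit 7625781749565456873494)), (.negSucc (nat_lit 7625781749565456873494)), (.ofNat (nat_lit 7625773685821046503077)), (.ofNat (nat_lit 0))⟩,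
    ⟨nat_lit 2, nat_lit 21, nat_lit 7, (.ofNat (nat_lit 8)), (.negSucc (nat_lit 3697293439)), (.ofNat (nat_lit 28682490446783137333806218090496)), (.negSucc (nat_lit 413460799)), (.ofNat (nat_lit 3152958488758518543999418881600)), (.negSucc (nat_lit 3697293455)), (.negSucc (nat_lit 3697293423)), (.negSucc (nat_lit 7625773685821046503076)), (.ofNat (nat_lit 7625773685821046503077)), (.negSucc (nat_lit 7625773685821046503076)), (.ofNat (nat_lit 7625773685821046503077)), (.ofNat (nat_lit 0))⟩]
  es := [
    ⟨nat_lit 1, nat_lit 0, (.negSucc (nat_lit 5865862847)), (.negSucc (nat_lit 832990655)), (.negSucc (nat_lit 5865862831)), (.negSucc (nat_lit 832990671)), (.negSucc (nat_lit 7625773685821046503076)), (.ofNat (nat_lit 0)), (.ofNat (nat_lit 3998101634191744829005234176))⟩,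
    ⟨nat_lit 1, nat_lit 2, (.negSucc (nat_lit 5865862847)), (.negSucc (nat_lit 5708199807)), (.negSucc (nat_lit 5865862831)), (.negSucc (nat_lit 5708199823)), (.ofNat (nat_lit 7625773685821046503077)), (.ofNat (nat_lit 0)), (.ofNat (nat_lit 10037227319945152897559973641856))⟩,
    ⟨nat_lit 2, nat_lit 3, (.negSucc (nat_lit 5708199807)), (.negSucc (nat_lit 2493535487)), (.negSucc (nat_lit 5708199791)), (.negSucc (nat_lit 2493535503)), (.negSucc (nat_lit 7625773685821046503076)), (.ofNat (nat_lit 0)), (.ofNat (nat_lit 15992406536766979316020936704))⟩,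
    ⟨nat_lit 3, nat_lit 4, (.negSucc (nat_lit 2493535487)), (.negSucc (nat_lit 919106175)), (.negSucc (nat_lit 2493535471)), (.negSucc (nat_lit 919106191)), (.ofNat (nat_lit 7625773685821046503077)), (.ofNat (nat_lit 0)), (.ofNat (nat_lit 4571836051391482707625152037248))⟩,
    ⟨nat_lit 5, nat_lit 4, (.negSucc (nat_lit 4173633791)), (.negSucc (nat_lit 919106175)), (.negSucc (nat_lit 4173633775)), (.negSucc (nat_lit 919106191)), (.negSucc (nat_lit 7625773685821046503076)), (.ofNat (nat_lit 0)), (.ofNat (nat_lit 39981016341917448290052341760))⟩,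
    ⟨nat_lit 6, nat_lit 5, (.negSucc (nat_lit 5828967295)), (.negSucc (nat_lit 4173633791)), (.negSucc (nat_lit 5828967279)), (.negSucc (nat_lit 4173633807)), (.ofNat (nat_lit 7625773685821046503077)), (.ofNat (nat_lit 0)), (.ofNat (nat_lit 10108334182212633421803961263744))⟩,
    ⟨nat_lit 6, nat_lit 14, (.negSucc (nat_lit 5828967295)), (.negSucc (nat_lit 4643225471)), (.negSucc (nat_lit 5828967279)), (.negSucc (nat_lit 4643225487)), (.negSucc (nat_lit 7625773685821046503076)), (.ofNat (nat_lit 0)), (.ofNat (nat_lit 7996203268383489658010468352))⟩,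
    ⟨nat_lit 21, nat_lit 7, (.negSucc (nat_lit 3697293439)), (.negSucc (nat_lit 3459217727)), (.negSucc (nat_lit 3697293423)), (.negSucc (nat_lit 3459217743)), (.ofNat (nat_lit 7625773685821046503077)), (.ofNat (nat_lit 0)), (.ofNat (nat_lit 6305916977517037087998837763200))⟩,
    ⟨nat_lit 7, nat_lit 8, (.negSucc (nat_lit 3459217727)), (.ofNat (nat_lit 251444992)), (.negSucc (nat_lit 3459217711)), (.ofNat (nat_lit 251444976)), (.negSucc (nat_lit 7625773685821046503076)), (.ofNat (nat_lit 0)), (.ofNat (nat_lit 19990508170958724145026170880))⟩,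
    ⟨nat_lit 8, nat_lit 9, (.ofNat (nat_lit 251444992)), (.ofNat (nat_lit 1739497856)), (.ofNat (nat_lit 251445008)), (.ofNat (nat_lit 1739497840)), (.ofNat (nat_lit 7625773685821046503077)), (.ofNat (nat_lit 0)), (.ofNat (nat_lit 0))⟩,
    ⟨nat_lit 10, nat_lit 9, (.ofNat (nat_lit 868234240)), (.ofNat (nat_lit 1739497856)), (.ofNat (nat_lit 868234256)), (.ofNat (nat_lit 1739497840)), (.negSucc (nat_lit 7625773685821046503076)), (.ofNat (nat_lit 0)), (.ofNat (nat_lit 35982914707725703461047107584))⟩,
    ⟨nat_lit 12, nat_lit 11, (.negSucc (nat_lit 4489379711)), (.negSucc (nat_lit 3944841407)), (.negSucc (nat_lit 4489379695)), (.negSucc (nat_lit 3944841423)), (.ofNat (nat_lit 7625760915449263185093)), (.ofNat (nat_lit 0)), (.ofNat (nat_lit 8088288517967828001445077754752))⟩,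
    ⟨nat_lit 13, nat_lit 12, (.negSucc (nat_lit 4489379775)), (.negSucc (nat_lit 4489379711)), (.negSucc (nat_lit 4489379759)), (.negSucc (nat_lit 4489379727)), (.ofNat (nat_lit 7625760915449263185093)), (.ofNat (nat_lit 0)), (.ofNat (nat_lit 8088288517967828001445077754752))⟩,
    ⟨nat_lit 14, nat_lit 13, (.negSucc (nat_lit 4643225471)), (.negSucc (nat_lit 4489379775)), (.negSucc (nat_lit 4643225455)), (.negSucc (nat_lit 4489379791)), (.ofNat (nat_lit 7625760915449263185093)), (.ofNat (nat_lit 0)), (.ofNat (nat_lit 8088288517967828001445077754752))⟩,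
    ⟨nat_lit 15, nat_lit 16, (.negSucc (nat_lit 145279935)), (.ofNat (nat_lit 1432835840)), (.negSucc (nat_lit 145279919)), (.ofNat (nat_lit 1432835824)), (.ofNat (nat_lit 7625773685821046503077)), (.ofNat (nat_lit 0)), (.ofNat (nat_lit 272402885097361524576410575488))⟩,
    ⟨nat_lit 17, nat_lit 16, (.negSucc (nat_lit 169819199)), (.ofNat (nat_lit 1432835840)), (.negSucc (nat_lit 169819183)), (.ofNat (nat_lit 1432835824)), (.negSucc (nat_lit 7625773685821046503076)), (.ofNat (nat_lit 0)), (.ofNat (nat_lit 31984813073533958632041873408))⟩,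
    ⟨nat_lit 18, nat_lit 17, (.negSucc (nat_lit 1596235711)), (.negSucc (nat_lit 169819199)), (.negSucc (nat_lit 1596235695)), (.negSucc (nat_lit 169819215)), (.ofNat (nat_lit 7625773685821046503077)), (.ofNat (nat_lit 0)), (.ofNat (nat_lit 2995395118899221000563074055296))⟩,
    ⟨nat_lit 19, nat_lit 18, (.negSucc (nat_lit 5699203967)), (.negSucc (nat_lit 1596235711)), (.negSucc (nat_lit 5699203951)), (.negSucc (nat_lit 1596235727)), (.negSucc (nat_lit 7625773685821046503076)), (.ofNat (nat_lit 0)), (.ofNat (nat_lit 11994304902575234487015702528))⟩,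
    ⟨nat_lit 19, nat_lit 20, (.negSucc (nat_lit 5699203967)), (.negSucc (nat_lit 5050856639)), (.negSucc (nat_lit 5699203951)), (.negSucc (nat_lit 5050856655)), (.ofNat (nat_lit 7625773685821046503077)), (.ofNat (nat_lit 0)), (.ofNat (nat_lit 9966120457677672373315986019968))⟩,
    ⟨nat_lit 20, nat_lit 11, (.negSucc (nat_lit 5050856639)), (.negSucc (nat_lit 3944841407)), (.negSucc (nat_lit 5050856623)), (.negSucc (nat_lit 3944841423)), (.negSucc (nat_lit 7625781749565456873494)), (.ofNat (nat_lit 0)), (.ofNat (nat_lit 27981456984270019075751579520))⟩,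
    ⟨nat_lit 0, nat_lit 10, (.negSucc (nat_lit 832990655)), (.ofNat (nat_lit 868234240)), (.negSucc (nat_lit 832990639)), (.ofNat (nat_lit 868234224)), (.ofNat (nat_lit 7625773685821046503077)), (.ofNat (nat_lit 0)), (.ofNat (nat_lit 1483564133518878232397850189696))⟩,
    ⟨nat_lit 21, nat_lit 15, (.negSucc (nat_lit 3697293439)), (.negSucc (nat_lit 145279935)), (.negSucc (nat_lit 3697293423)), (.negSucc (nat_lit 145279951)), (.negSucc (nat_lit 7625773685821046503076)), (.ofNat (nat_lit 0)), (.ofNat (nat_lit 0))⟩]

theorem ok96 : stOK 21 21 S96 = true := by decide +kernel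

def S97 : SD where
  vs := [
    ⟨nat_lit 0, nat_lit 0, nat_lit 19, (.ofNat (nat_lit 8)), (.negSucc (nat_lit 832990655)), (.ofNat (nat_lit 7219785303580188268004799670848)), (.negSucc (nat_lit 97010879)), (.ofNat (nat_lit 743781117576534988613427711936)), (.negSucc (nat_lit 832990671)), (.negSucc (nat_lit 832990639)), (.negSucc (nat_lit 7625773685821046503076)), (.ofNat (nat_lit 7625773685821046503077)), (.negSucc (nat_lit 7625773685821046503076)), (.ofNat (nat_lit 7625773685821046503077)), (.ofNat (nat_lit 0))⟩,
    ⟨nat_lit 2, nat_lit 0, nat_lit 1, (.ofNat (nat_lit 8)), (.negSucc (nat_lit 5865862847)), (.ofNat (nat_lit 45599329629434277901679875405632)), (.negSucc (nat_lit 657849919)), (.ofNat (nat_lit 5020612710789672321194489438016)), (.negSucc (nat_lit 5865862863)), (.negSucc (nat_lit 5865862831)), (.negSucc (nat_lit 7625773685821046503076)), (.ofNat (nat_lit 7625773685821046503077)), (.negSucc (nat_lit 7625773685821046503076)), (.ofNat (nat_lit 7625773685821046503077)), (.ofNat (nat_lit 0))⟩,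
    ⟨nat_lit 0, nat_lit 1, nat_lit 2, (.ofNat (nat_lit 8)), (.negSucc (nat_lit 5708199807)), (.ofNat (nat_lit 46801632291092828989336364579712)), (.negSucc (nat_lit 657063487)), (.ofNat (nat_lit 5026609863240959938437997289280)), (.negSucc (nat_lit 5708199823)), (.negSucc (nat_lit 5708199791)), (.ofNat (nat_lit 7625773685821046503077)), (.negSucc (nat_lit 7625773685821046503076)), (.negSucc (nat_lit 7625773685821046503076)), (.ofNat (nat_lit 7625773685821046503077)), (.ofNat (nat_lit 0))⟩,
    ⟨nat_lit 0, nat_lit 2, nat_lit 3, (.ofNat (nat_lit 8)), (.negSucc (nat_lit 2493535487)), (.ofNat (nat_lit 22287329710889020890833962467072)), (.negSucc (nat_lit 298713535)), (.ofNat (nat_lit 2293914228964124843470586486976)), (.negSucc (nat_lit 2493535503)), (.negSucc (nat_lit 2493535471)), (.negSucc (nat_lit 7625773685821046503076)), (.ofNat (nat_lit 7625773685821046503077)), (.negSucc (nat_lit 7625773685821046503076)), (.ofNat (nat_lit 7625773685821046503077)), (.ofNat (nat_lit 0))⟩,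
    ⟨nat_lit 1, nat_lit 3, nat_lit 4, (.ofNat (nat_lit 8)), (.negSucc (nat_lit 919106175)), (.ofNat (nat_lit 34293571328523955291793489460096)), (.negSucc (nat_lit 297140671)), (.ofNat (nat_lit 2305908533866700077957602189504)), (.negSucc (nat_lit 919106191)), (.negSucc (nat_lit 919106159)), (.ofNat (nat_lit 7625773685821046503077)), (.negSucc (nat_lit 7625773685821046503076)), (.negSucc (nat_lit 7625773685821046503076)), (.ofNat (nat_lit 7625773685821046503077)), (.ofNat (nat_lit 0))⟩,
    ⟨nat_lit 0, nat_lit 5, nat_lit 4, (.ofNat (nat_lit 8)), (.negSucc (nat_lit 4173633791)), (.ofNat (nat_lit 59111862382394658770077814934528)), (.negSucc (nat_lit 660152895)), (.ofNat (nat_lit 5074157599277275435047006802752)), (.negSucc (nat_lit 4173633807)), (.negSucc (nat_lit 4173633775)), (.ofNat (nat_lit 7625773685821046503077)), (.negSucc (nat_lit 7625773685821046503076)), (.negSucc (nat_lit 7625773685821046503076)), (.ofNat (nat_lit 7625773685821046503077)), (.ofNat (nat_lit 0))⟩,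
    ⟨nat_lit 2, nat_lit 6, nat_lit 5, (.ofNat (nat_lit 8)), (.negSucc (nat_lit 5828967295)), (.ofNat (nat_lit 46488663706333510745192417742720)), (.negSucc (nat_lit 662250047)), (.ofNat (nat_lit 5058165192740508455730985866048)), (.negSucc (nat_lit 5828967311)), (.negSucc (nat_lit 5828967279)), (.negSucc (nat_lit 7625773685821046503076)), (.ofNat (nat_lit 7625773685821046503077)), (.negSucc (nat_lit 7625773685821046503076)), (.ofNat (nat_lit 7625773685821046503077)), (.ofNat (nat_lit 0))⟩,
    ⟨nat_lit 0, nat_lit 7, nat_lit 8, (.ofNat (nat_lit 8)), (.negSucc (nat_lit 3459217727)), (.ofNat (nat_lit 30498001946585847284611385056320)), (.negSucc (nat_lit 412150079)), (.ofNat (nat_lit 3162953742843997906071931967040)), (.negSucc (nat_lit 3459217743)), (.negSucc (nat_lit 3459217711)), (.ofNat (nat_lit 7625773685821046503077)), (.negSucc (nat_lit 7625773685821046503076)), (.negSucc (nat_lit 7625773685821046503076)), (.ofNat (nat_lit 7625773685821046503077)), (.ofNat (nat_lit 0))⟩,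
    ⟨nat_lit 0, nat_lit 8, nat_lit 9, (.ofNat (nat_lit 8)), (.ofNat (nat_lit 251444992)), (.ofNat (nat_lit 2201327819452697434257195866880)), (.ofNat (nat_lit 1310720)), (.ofNat (nat_lit 9995254085479362072513085440)), (.ofNat (nat_lit 251444976)), (.ofNat (nat_lit 251445008)), (.negSucc (nat_lit 7625773685821046503076)), (.ofNat (nat_lit 7625773685821046503077)), (.negSucc (nat_lit 7625773685821046503076)), (.ofNat (nat_lit 7625773685821046503077)), (.ofNat (nat_lit 0))⟩,
    ⟨nat_lit 1, nat_lit 9, nat_lit 10, (.ofNat (nat_lit 8)), (.ofNat (nat_lit 1739497856)), (.ofNat (nat_lit 13548882192854541874638110529408)), (.ofNat (nat_lit 2359296)), (.ofNat (nat_lit 17991457353862851730523553792)), (.ofNat (nat_lit 1739497840)), (.ofNat (nat_lit 1739497872)), (.ofNat (nat_lit 7625773685821046503077)), (.negSucc (nat_lit 7625773685821046503076)), (.negSucc (nat_lit 7625773685821046503076)), (.ofNat (nat_lit 7625773685821046503077)), (.ofNat (nat_lit 0))⟩,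
    ⟨nat_lit 0, nat_lit 19, nat_lit 10, (.ofNat (nat_lit 8)), (.ofNat (nat_lit 868234240)), (.ofNat (nat_lit 20192941349160634779813132675840)), (.negSucc (nat_lit 94913727)), (.ofNat (nat_lit 759773524113301967929448648640)), (.ofNat (nat_lit 868234224)), (.ofNat (nat_lit 868234256)), (.ofNat (nat_lit 7625773685821046503077)), (.negSucc (nat_lit 7625773685821046503076)), (.negSucc (nat_lit 7625773685821046503076)), (.ofNat (nat_lit 7625773685821046503077)), (.ofNat (nat_lit 0))⟩,
    ⟨nat_lit 1, nat_lit 11, nat_lit 18, (.ofNat (nat_lit 8)), (.negSucc (nat_lit 3944841407)), (.ofNat (nat_lit 42772174805920676936055907708224)), (.negSucc (nat_lit 528491263)), (.ofNat (nat_lit 4058140492800249772886612227200)), (.negSucc (nat_lit 3944841423)), (.negSucc (nat_lit 3944841391)), (.ofNat (nat_lit 7625760915449263185093)), (.negSucc (nat_lit 7625781749565456873494)), (.negSucc (nat_lit 7625781749565456873494)), (.ofNat (nat_lit 7625760915449263185093)), (.ofNat (nat_lit 0))⟩,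
    ⟨nat_lit 0, nat_lit 12, nat_lit 11, (.ofNat (nat_lit 8)), (.negSucc (nat_lit 4489379711)), (.ofNat (nat_lit 38619655890312447763195727405952)), (.negSucc (nat_lit 528753407)), (.ofNat (nat_lit 4056141445330830241238219207808)), (.negSucc (nat_lit 4489379727)), (.negSucc (nat_lit 4489379695)), (.ofNat (nat_lit 7625760915449263185093)), (.ofNat (nat_lit 7625760915449263185093)), (.ofNat (nat_lit 7625760915449263185093)), (.ofNat (nat_lit 7625760915449263185093)), (.ofNat (nat_lit 0))⟩,
    ⟨nat_lit 0, nat_lit 6, nat_lit 12, (.ofNat (nat_lit 8)), (.negSucc (nat_lit 4643225471)), (.ofNat (nat_lit 37446464906696860127045074150272)), (.negSucc (nat_lit 529801919)), (.ofNat (nat_lit 4048145743501850703397490976192)), (.negSucc (nat_lit 4643225487)), (.negSucc (nat_lit 4643225455)), (.negSucc (nat_lit 7625773685821046503076)), (.ofNat (nat_lit 7625760915449263185093)), (.negSucc (nat_lit 7625773685821046503076)), (.ofNat (nat_lit 7625760915449263185093)), (.ofNat (nat_lit 0))⟩,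
    ⟨nat_lit 0, nat_lit 20, nat_lit 13, (.ofNat (nat_lit 8)), (.negSucc (nat_lit 145279935)), (.ofNat (nat_lit 1595639336298926827464736538688)), (.negSucc (nat_lit 17860671)), (.ofNat (nat_lit 136201442548680762288205287744)), (.negSucc (nat_lit 145279951)), (.negSucc (nat_lit 145279919)), (.negSucc (nat_lit 7625773685821046503076)), (.ofNat (nat_lit 7625773685821046503077)), (.negSucc (nat_lit 7625773685821046503076)), (.ofNat (nat_lit 7625773685821046503077)), (.ofNat (nat_lit 0))⟩,
    ⟨nat_lit 1, nat_lit 13, nat_lit 14, (.ofNat (nat_lit 8)), (.ofNat (nat_lit 1432835840)), (.ofNat (nat_lit 13629993094098787826800182781440)), (.negSucc (nat_lit 15763519)), (.ofNat (nat_lit 152193849085447741604226224448)), (.ofNat (nat_lit 1432835824)), (.ofNat (nat_lit 1432835856)), (.ofNat (nat_lit 7625773685821046503077)), (.negSucc (nat_lit 7625773685821046503076)), (.negSucc (nat_lit 7625773685821046503076)), (.ofNat (nat_lit 7625773685821046503077)), (.ofNat (nat_lit 0))⟩,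
    ⟨nat_lit 0, nat_lit 15, nat_lit 14, (.ofNat (nat_lit 8)), (.negSucc (nat_lit 169819199)), (.ofNat (nat_lit 25851477725579264543030912339520)), (.negSucc (nat_lit 194302271)), (.ofNat (nat_lit 1513689965986377479597557964352)), (.negSucc (nat_lit 169819215)), (.negSucc (nat_lit 169819183)), (.ofNat (nat_lit 7625773685821046503077)), (.negSucc (nat_lit 7625773685821046503076)), (.negSucc (nat_lit 7625773685821046503076)), (.ofNat (nat_lit 7625773685821046503077)), (.ofNat (nat_lit 0))⟩,
    ⟨nat_lit 0, nat_lit 16, nat_lit 15, (.ofNat (nat_lit 8)), (.negSucc (nat_lit 1596235711)), (.ofNat (nat_lit 14973948223349023533922020732096)), (.negSucc (nat_lit 195612991)), (.ofNat (nat_lit 1503694711900898117525044878912)), (.negSucc (nat_lit 1596235727)), (.negSucc (nat_lit 1596235695)), (.negSucc (nat_lit 7625773685821046503076)), (.ofNat (nat_lit 7625773685821046503077)), (.negSucc (nat_lit 7625773685821046503076)), (.ofNat (nat_lit 7625773685821046503077)), (.ofNat (nat_lit 0))⟩,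
    ⟨nat_lit 2, nat_lit 16, nat_lit 17, (.ofNat (nat_lit 8)), (.negSucc (nat_lit 5699203967)), (.ofNat (nat_lit 46262255583712894632746758055808)), (.negSucc (nat_lit 652663359)), (.ofNat (nat_lit 4989057381290123803901500861248)), (.negSucc (nat_lit 5699203983)), (.negSucc (nat_lit 5699203951)), (.negSucc (nat_lit 7625773685821046503076)), (.ofNat (nat_lit 7625773685821046503077)), (.negSucc (nat_lit 7625773685821046503076)), (.ofNat (nat_lit 7625773685821046503077)), (.ofNat (nat_lit 0))⟩,
    ⟨nat_lit 0, nat_lit 17, nat_lit 18, (.ofNat (nat_lit 8)), (.negSucc (nat_lit 5050856639)), (.ofNat (nat_lit 51206405576847681619180474784064)), (.negSucc (nat_lit 651614783)), (.ofNat (nat_lit 4997053584558507293559511329600)), (.negSucc (nat_lit 5050856655)), (.negSucc (nat_lit 5050856623)), (.ofNat (nat_lit 7625773685821046503077)), (.negSucc (nat_lit 7625781749565456873494)), (.negSucc (nat_lit 7625781749565456873494)), (.ofNat (nat_lit 7625773685821046503077)), (.ofNat (nat_lit 0))⟩,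
    ⟨nat_lit 2, nat_lit 20, nat_lit 7, (.ofNat (nat_lit 8)), (.negSucc (nat_lit 3697293439)), (.ofNat (nat_lit 28682490446783137333806218090496)), (.negSucc (nat_lit 413460799)), (.ofNat (nat_lit 3152958488758518543999418881600)), (.negSucc (nat_lit 3697293455)), (.negSucc (nat_lit 3697293423)), (.negSucc (nat_lit 7625773685821046503076)), (.ofNat (nat_lit 7625773685821046503077)), (.negSucc (nat_lit 7625773685821046503076)), (.ofNat (nat_lit 7625773685821046503077)), (.ofNat (nat_lit 0))⟩]
  es := [
    ⟨nat_lit 1, nat_lit 0, (.negSucc (nat_lit 5865862847)), (.negSucc (nat_lit 832990655)), (.negSucc (nat_lit 5865862831)), (.negSucc (nat_lit 832990671)), (.negSucc (nat_lit 7625773685821046503076)), (.ofNat (nat_lit 0)), (.ofNat (nat_lit 3998101634191744829005234176))⟩,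
    ⟨nat_lit 1, nat_lit 2, (.negSucc (nat_lit 5865862847)), (.negSucc (nat_lit 5708199807)), (.negSucc (nat_lit 5865862831)), (.negSucc (nat_lit 5708199823)), (.ofNat (nat_lit 7625773685821046503077)), (.ofNat (nat_lit 0)), (.ofNat (nat_lit 10037227319945152897559973641856))⟩,
    ⟨nat_lit 2, nat_lit 3, (.negSucc (nat_lit 5708199807)), (.negSucc (nat_lit 2493535487)), (.negSucc (nat_lit 5708199791)), (.negSucc (nat_lit 2493535503)), (.negSucc (nat_lit 7625773685821046503076)), (.ofNat (nat_lit 0)), (.ofNat (nat_lit 15992406536766979316020936704))⟩,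
    ⟨nat_lit 3, nat_lit 4, (.negSucc (nat_lit 2493535487)), (.negSucc (nat_lit 919106175)), (.negSucc (nat_lit 2493535471)), (.negSucc (nat_lit 919106191)), (.ofNat (nat_lit 7625773685821046503077)), (.ofNat (nat_lit 0)), (.ofNat (nat_lit 4571836051391482707625152037248))⟩,
    ⟨nat_lit 5, nat_lit 4, (.negSucc (nat_lit 4173633791)), (.negSucc (nat_lit 919106175)), (.negSucc (nat_lit 4173633775)), (.negSucc (nat_lit 919106191)), (.negSucc (nat_lit 7625773685821046503076)), (.ofNat (nat_lit 0)), (.ofNat (nat_lit 39981016341917448290052341760))⟩,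
    ⟨nat_lit 6, nat_lit 5, (.negSucc (nat_lit 5828967295)), (.negSucc (nat_lit 4173633791)), (.negSucc (nat_lit 5828967279)), (.negSucc (nat_lit 4173633807)), (.ofNat (nat_lit 7625773685821046503077)), (.ofNat (nat_lit 0)), (.ofNat (nat_lit 10108334182212633421803961263744))⟩,
    ⟨nat_lit 6, nat_lit 13, (.negSucc (nat_lit 5828967295)), (.negSucc (nat_lit 4643225471)), (.negSucc (nat_lit 5828967279)), (.negSucc (nat_lit 4643225487)), (.negSucc (nat_lit 7625773685821046503076)), (.ofNat (nat_lit 0)), (.ofNat (nat_lit 7996203268383489658010468352))⟩,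
    ⟨nat_lit 20, nat_lit 7, (.negSucc (nat_lit 3697293439)), (.negSucc (nat_lit 3459217727)), (.negSucc (nat_lit 3697293423)), (.negSucc (nat_lit 3459217743)), (.ofNat (nat_lit 7625773685821046503077)), (.ofNat (nat_lit 0)), (.ofNat (nat_lit 6305916977517037087998837763200))⟩,
    ⟨nat_lit 7, nat_lit 8, (.negSucc (nat_lit 3459217727)), (.ofNat (nat_lit 251444992)), (.negSucc (nat_lit 3459217711)), (.ofNat (nat_lit 251444976)), (.negSucc (nat_lit 7625773685821046503076)), (.ofNat (nat_lit 0)), (.ofNat (nat_lit 19990508170958724145026170880))⟩,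
    ⟨nat_lit 8, nat_lit 9, (.ofNat (nat_lit 251444992)), (.ofNat (nat_lit 1739497856)), (.ofNat (nat_lit 251445008)), (.ofNat (nat_lit 1739497840)), (.ofNat (nat_lit 7625773685821046503077)), (.ofNat (nat_lit 0)), (.ofNat (nat_lit 0))⟩,
    ⟨nat_lit 10, nat_lit 9, (.ofNat (nat_lit 868234240)), (.ofNat (nat_lit 1739497856)), (.ofNat (nat_lit 868234256)), (.ofNat (nat_lit 1739497840)), (.negSucc (nat_lit 7625773685821046503076)), (.ofNat (nat_lit 0)), (.ofNat (nat_lit 35982914707725703461047107584))⟩,
    ⟨nat_lit 12, nat_lit 11, (.negSucc (nat_lit 4489379711)), (.negSucc (nat_lit 3944841407)), (.negSucc (nat_lit 4489379695)), (.negSucc (nat_lit 3944841423)), (.ofNat (nat_lit 7625760915449263185093)), (.ofNat (nat_lit 0)), (.ofNat (nat_lit 8088288517967828001445077754752))⟩,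
    ⟨nat_lit 13, nat_lit 12, (.negSucc (nat_lit 4643225471)), (.negSucc (nat_lit 4489379711)), (.negSucc (nat_lit 4643225455)), (.negSucc (nat_lit 4489379727)), (.ofNat (nat_lit 7625760915449263185093)), (.ofNat (nat_lit 0)), (.ofNat (nat_lit 8088288517967828001445077754752))⟩,
    ⟨nat_lit 14, nat_lit 15, (.negSucc (nat_lit 145279935)), (.ofNat (nat_lit 1432835840)), (.negSucc (nat_lit 145279919)), (.ofNat (nat_lit 1432835824)), (.ofNat (nat_lit 7625773685821046503077)), (.ofNat (nat_lit 0)), (.ofNat (nat_lit 272402885097361524576410575488))⟩,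
    ⟨nat_lit 16, nat_lit 15, (.negSucc (nat_lit 169819199)), (.ofNat (nat_lit 1432835840)), (.negSucc (nat_lit 169819183)), (.ofNat (nat_lit 1432835824)), (.negSucc (nat_lit 7625773685821046503076)), (.ofNat (nat_lit 0)), (.ofNat (nat_lit 31984813073533958632041873408))⟩,
    ⟨nat_lit 17, nat_lit 16, (.negSucc (nat_lit 1596235711)), (.negSucc (nat_lit 169819199)), (.negSucc (nat_lit 1596235695)), (.negSucc (nat_lit 169819215)), (.ofNat (nat_lit 7625773685821046503077)), (.ofNat (nat_lit 0)), (.ofNat (nat_lit 2995395118899221000563074055296))⟩,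
    ⟨nat_lit 18, nat_lit 17, (.negSucc (nat_lit 5699203967)), (.negSucc (nat_lit 1596235711)), (.negSucc (nat_lit 5699203951)), (.negSucc (nat_lit 1596235727)), (.negSucc (nat_lit 7625773685821046503076)), (.ofNat (nat_lit 0)), (.ofNat (nat_lit 11994304902575234487015702528))⟩,
    ⟨nat_lit 18, nat_lit 19, (.negSucc (nat_lit 5699203967)), (.negSucc (nat_lit 5050856639)), (.negSucc (nat_lit 5699203951)), (.negSucc (nat_lit 5050856655)), (.ofNat (nat_lit 7625773685821046503077)), (.ofNat (nat_lit 0)), (.ofNat (nat_lit 9966120457677672373315986019968))⟩,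
    ⟨nat_lit 19, nat_lit 11, (.negSucc (nat_lit 5050856639)), (.negSucc (nat_lit 3944841407)), (.negSucc (nat_lit 5050856623)), (.negSucc (nat_lit 3944841423)), (.negSucc (nat_lit 7625781749565456873494)), (.ofNat (nat_lit 0)), (.ofNat (nat_lit 27981456984270019075751579520))⟩,
    ⟨nat_lit 0, nat_lit 10, (.negSucc (nat_lit 832990655)), (.ofNat (nat_lit 868234240)), (.negSucc (nat_lit 832990639)), (.ofNat (nat_lit 868234224)), (.ofNat (nat_lit 7625773685821046503077)), (.ofNat (nat_lit 0)), (.ofNat (nat_lit 1483564133518878232397850189696))⟩,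
    ⟨nat_lit 20, nat_lit 14, (.negSucc (nat_lit 3697293439)), (.negSucc (nat_lit 145279935)), (.negSucc (nat_lit 3697293423)), (.negSucc (nat_lit 145279951)), (.negSucc (nat_lit 7625773685821046503076)), (.ofNat (nat_lit 0)), (.ofNat (nat_lit 0))⟩]

theorem ok97 : stOK 20 20 S97 = true := by decide +kernel

def S98 : SD where
  vs := [
    ⟨nat_lit 0, nat_lit 0, nat_lit 18, (.ofNat (nat_lit 8)), (.negSucc (nat_lit 832990655)), (.ofNat (nat_lit 7219785303580188268004799670848)), (.negSucc (nat_lit 97010879)), (.ofNat (nat_lit 743781117576534988613427711936)), (.negSucc (nat_lit 832990671)), (.negSucc (nat_lit 832990639)), (.negSucc (nat_lit 7625773685821046503076)), (.ofNat (nat_lit 7625773685821046503077)), (.negSucc (nat_lit 7625773685821046503076)), (.ofNat (nat_lit 7625773685821046503077)), (.ofNat (nat_lit 0))⟩,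
    ⟨nat_lit 2, nat_lit 0, nat_lit 1, (.ofNat (nat_lit 8)), (.negSucc (nat_lit 5865862847)), (.ofNat (nat_lit 45599329629434277901679875405632)), (.negSucc (nat_lit 657849919)), (.ofNat (nat_lit 5020612710789672321194489438016)), (.negSucc (nat_lit 5865862863)), (.negSucc (nat_lit 5865862831)), (.negSucc (nat_lit 7625773685821046503076)), (.ofNat (nat_lit 7625773685821046503077)), (.negSucc (nat_lit 7625773685821046503076)), (.ofNat (nat_lit 7625773685821046503077)), (.ofNat (nat_lit 0))⟩,
    ⟨nat_lit 0, nat_lit 1, nat_lit 2, (.ofNat (nat_lit 8)), (.negSucc (nat_lit 5708199807)), (.ofNat (nat_lit 46801632291092828989336364579712)), (.negSucc (nat_lit 657063487)), (.ofNat (nat_lit 5026609863240959938437997289280)), (.negSucc (nat_lit 5708199823)), (.negSucc (nat_lit 5708199791)), (.ofNat (nat_lit 7625773685821046503077)), (.negSucc (nat_lit 7625773685821046503076)), (.negSucc (nat_lit 7625773685821046503076)), (.ofNat (nat_lit 7625773685821046503077)), (.ofNat (nat_lit 0))⟩,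
    ⟨nat_lit 0, nat_lit 2, nat_lit 3, (.ofNat (nat_lit 8)), (.negSucc (nat_lit 2493535487)), (.ofNat (nat_lit 22287329710889020890833962467072)), (.negSucc (nat_lit 298713535)), (.ofNat (nat_lit 2293914228964124843470586486976)), (.negSucc (nat_lit 2493535503)), (.negSucc (nat_lit 2493535471)), (.negSucc (nat_lit 7625773685821046503076)), (.ofNat (nat_lit 7625773685821046503077)), (.negSucc (nat_lit 7625773685821046503076)), (.ofNat (nat_lit 7625773685821046503077)), (.ofNat (nat_lit 0))⟩,
    ⟨nat_lit 1, nat_lit 3, nat_lit 4, (.ofNat (nat_lit 8)), (.negSucc (nat_lit 919106175)), (.ofNat (nat_lit 34293571328523955291793489460096)), (.negSucc (nat_lit 297140671)), (.ofNat (nat_lit 2305908533866700077957602189504)), (.negSucc (nat_lit 919106191)), (.negSucc (nat_lit 919106159)), (.ofNat (nat_lit 7625773685821046503077)), (.negSucc (nat_lit 7625773685821046503076)), (.negSucc (nat_lit 7625773685821046503076)), (.ofNat (nat_lit 7625773685821046503077)), (.ofNat (nat_lit 0))⟩,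
    ⟨nat_lit 0, nat_lit 5, nat_lit 4, (.ofNat (nat_lit 8)), (.negSucc (nat_lit 4173633791)), (.ofNat (nat_lit 59111862382394658770077814934528)), (.negSucc (nat_lit 660152895)), (.ofNat (nat_lit 5074157599277275435047006802752)), (.negSucc (nat_lit 4173633807)), (.negSucc (nat_lit 4173633775)), (.ofNat (nat_lit 7625773685821046503077)), (.negSucc (nat_lit 7625773685821046503076)), (.negSucc (nat_lit 7625773685821046503076)), (.ofNat (nat_lit 7625773685821046503077)), (.ofNat (nat_lit 0))⟩,
    ⟨nat_lit 2, nat_lit 6, nat_lit 5, (.ofNat (nat_lit 8)), (.negSucc (nat_lit 5828967295)), (.ofNat (nat_lit 46488663706333510745192417742720)), (.negSucc (nat_lit 662250047)), (.ofNat (nat_lit 5058165192740508455730985866048)), (.negSucc (nat_lit 5828967311)), (.negSucc (nat_lit 5828967279)), (.negSucc (nat_lit 7625773685821046503076)), (.ofNat (nat_lit 7625773685821046503077)), (.negSucc (nat_lit 7625773685821046503076)), (.ofNat (nat_lit 7625773685821046503077)), (.ofNat (nat_lit 0))⟩,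
    ⟨nat_lit 0, nat_lit 7, nat_lit 8, (.ofNat (nat_lit 8)), (.negSucc (nat_lit 3459217727)), (.ofNat (nat_lit 30498001946585847284611385056320)), (.negSucc (nat_lit 412150079)), (.ofNat (nat_lit 3162953742843997906071931967040)), (.negSucc (nat_lit 3459217743)), (.negSucc (nat_lit 3459217711)), (.ofNat (nat_lit 7625773685821046503077)), (.negSucc (nat_lit 7625773685821046503076)), (.negSucc (nat_lit 7625773685821046503076)), (.ofNat (nat_lit 7625773685821046503077)), (.ofNat (nat_lit 0))⟩,
    ⟨nat_lit 0, nat_lit 8, nat_lit 9, (.ofNat (nat_lit 8)), (.ofNat (nat_lit 251444992)), (.ofNat (nat_lit 2201327819452697434257195866880)), (.ofNat (nat_lit 1310720)), (.ofNat (nat_lit 9995254085479362072513085440)), (.ofNat (nat_lit 251444976)), (.ofNat (nat_lit 251445008)), (.negSucc (nat_lit 7625773685821046503076)), (.ofNat (nat_lit 7625773685821046503077)), (.negSucc (nat_lit 7625773685821046503076)), (.ofNat (nat_lit 7625773685821046503077)), (.ofNat (nat_lit 0))⟩,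
    ⟨nat_lit 1, nat_lit 9, nat_lit 10, (.ofNat (nat_lit 8)), (.ofNat (nat_lit 1739497856)), (.ofNat (nat_lit 13548882192854541874638110529408)), (.ofNat (nat_lit 2359296)), (.ofNat (nat_lit 17991457353862851730523553792)), (.ofNat (nat_lit 1739497840)), (.ofNat (nat_lit 1739497872)), (.ofNat (nat_lit 7625773685821046503077)), (.negSucc (nat_lit 7625773685821046503076)), (.negSucc (nat_lit 7625773685821046503076)), (.ofNat (nat_lit 7625773685821046503077)), (.ofNat (nat_lit 0))⟩,
    ⟨nat_lit 0, nat_lit 18, nat_lit 10, (.ofNat (nat_lit 8)), (.ofNat (nat_lit 868234240)), (.ofNat (nat_lit 20192941349160634779813132675840)), (.negSucc (nat_lit 94913727)), (.ofNat (nat_lit 759773524113301967929448648640)), (.ofNat (nat_lit 868234224)), (.ofNat (nat_lit 868234256)), (.ofNat (nat_lit 7625773685821046503077)), (.negSucc (nat_lit 7625773685821046503076)), (.negSucc (nat_lit 7625773685821046503076)), (.ofNat (nat_lit 7625773685821046503077)), (.ofNat (nat_lit 0))⟩,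
    ⟨nat_lit 1, nat_lit 11, nat_lit 17, (.ofNat (nat_lit 8)), (.negSucc (nat_lit 3944841407)), (.ofNat (nat_lit 42772174805920676936055907708224)), (.negSucc (nat_lit 528491263)), (.ofNat (nat_lit 4058140492800249772886612227200)), (.negSucc (nat_lit 3944841423)), (.negSucc (nat_lit 3944841391)), (.ofNat (nat_lit 7625760915449263185093)), (.negSucc (nat_lit 7625781749565456873494)), (.negSucc (nat_lit 7625781749565456873494)), (.ofNat (nat_lit 7625760915449263185093)), (.ofNat (nat_lit 0))⟩,
    ⟨nat_lit 0, nat_lit 6, nat_lit 11, (.ofNat (nat_lit 8)), (.negSucc (nat_lit 4643225471)), (.ofNat (nat_lit 37446464906696860127045074150272)), (.negSucc (nat_lit 529801919)), (.ofNat (nat_lit 4048145743501850703397490976192)), (.negSucc (nat_lit 4643225487)), (.negSucc (nat_lit 4643225455)), (.negSucc (nat_lit 7625773685821046503076)), (.ofNat (nat_lit 7625760915449263185093)), (.negSucc (nat_lit 7625773685821046503076)), (.ofNat (nat_lit 7625760915449263185093)), (.ofNat (nat_lit 0))⟩,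
    ⟨nat_lit 0, nat_lit 19, nat_lit 12, (.ofNat (nat_lit 8)), (.negSucc (nat_lit 145279935)), (.ofNat (nat_lit 1595639336298926827464736538688)), (.negSucc (nat_lit 17860671)), (.ofNat (nat_lit 136201442548680762288205287744)), (.negSucc (nat_lit 145279951)), (.negSucc (nat_lit 145279919)), (.negSucc (nat_lit 7625773685821046503076)), (.ofNat (nat_lit 7625773685821046503077)), (.negSucc (nat_lit 7625773685821046503076)), (.ofNat (nat_lit 7625773685821046503077)), (.ofNat (nat_lit 0))⟩,
    ⟨nat_lit 1, nat_lit 12, nat_lit 13, (.ofNat (nat_lit 8)), (.ofNat (nat_lit 1432835840)), (.ofNat (nat_lit 13629993094098787826800182781440)), (.negSucc (nat_lit 15763519)), (.ofNat (nat_lit 152193849085447741604226224448)), (.ofNat (nat_lit 1432835824)), (.ofNat (nat_lit 1432835856)), (.ofNat (nat_lit 7625773685821046503077)), (.negSucc (nat_lit 7625773685821046503076)), (.negSucc (nat_lit 7625773685821046503076)), (.ofNat (nat_lit 7625773685821046503077)), (.ofNat (nat_lit 0))⟩,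
    ⟨nat_lit 0, nat_lit 14, nat_lit 13, (.ofNat (nat_lit 8)), (.negSucc (nat_lit 169819199)), (.ofNat (nat_lit 25851477725579264543030912339520)), (.negSucc (nat_lit 194302271)), (.ofNat (nat_lit 1513689965986377479597557964352)), (.negSucc (nat_lit 169819215)), (.negSucc (nat_lit 169819183)), (.ofNat (nat_lit 7625773685821046503077)), (.negSucc (nat_lit 7625773685821046503076)), (.negSucc (nat_lit 7625773685821046503076)), (.ofNat (nat_lit 7625773685821046503077)), (.ofNat (nat_lit 0))⟩,
    ⟨nat_lit 0, nat_lit 15, nat_lit 14, (.ofNat (nat_lit 8)), (.negSucc (nat_lit 1596235711)), (.ofNat (nat_lit 14973948223349023533922020732096)), (.negSucc (nat_lit 195612991)), (.ofNat (nat_lit 1503694711900898117525044878912)), (.negSucc (nat_lit 1596235727)), (.negSucc (nat_lit 1596235695)), (.negSucc (nat_lit 7625773685821046503076)), (.ofNat (nat_lit 7625773685821046503077)), (.negSucc (nat_lit 7625773685821046503076)), (.ofNat (nat_lit 7625773685821046503077)), (.ofNat (nat_lit 0))⟩,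
    ⟨nat_lit 2, nat_lit 15, nat_lit 16, (.ofNat (nat_lit 8)), (.negSucc (nat_lit 5699203967)), (.ofNat (nat_lit 46262255583712894632746758055808)), (.negSucc (nat_lit 652663359)), (.ofNat (nat_lit 4989057381290123803901500861248)), (.negSucc (nat_lit 5699203983)), (.negSucc (nat_lit 5699203951)), (.negSucc (nat_lit 7625773685821046503076)), (.ofNat (nat_lit 7625773685821046503077)), (.negSucc (nat_lit 7625773685821046503076)), (.ofNat (nat_lit 7625773685821046503077)), (.ofNat (nat_lit 0))⟩,
    ⟨nat_lit 0, nat_lit 16, nat_lit 17, (.ofNat (nat_lit 8)), (.negSucc (nat_lit 5050856639)), (.ofNat (nat_lit 51206405576847681619180474784064)), (.negSucc (nat_lit 651614783)), (.ofNat (nat_lit 4997053584558507293559511329600)), (.negSucc (nat_lit 5050856655)), (.negSucc (nat_lit 5050856623)), (.ofNat (nat_lit 7625773685821046503077)), (.negSucc (nat_lit 7625781749565456873494)), (.negSucc (nat_lit 7625781749565456873494)), (.ofNat (nat_lit 7625773685821046503077)), (.ofNat (nat_lit 0))⟩,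
    ⟨nat_lit 2, nat_lit 19, nat_lit 7, (.ofNat (nat_lit 8)), (.negSucc (nat_lit 3697293439)), (.ofNat (nat_lit 28682490446783137333806218090496)), (.negSucc (nat_lit 413460799)), (.ofNat (nat_lit 3152958488758518543999418881600)), (.negSucc (nat_lit 3697293455)), (.negSucc (nat_lit 3697293423)), (.negSucc (nat_lit 7625773685821046503076)), (.ofNat (nat_lit 7625773685821046503077)), (.negSucc (nat_lit 7625773685821046503076)), (.ofNat (nat_lit 7625773685821046503077)), (.ofNat (nat_lit 0))⟩]
  es := [
    ⟨nat_lit 1, nat_lit 0, (.negSucc (nat_lit 5865862847)), (.negSucc (nat_lit 832990655)), (.negSucc (nat_lit 5865862831)), (.negSucc (nat_lit 832990671)), (.negSucc (nat_lit 7625773685821046503076)), (.ofNat (nat_lit 0)), (.ofNat (nat_lit 3998101634191744829005234176))⟩,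
    ⟨nat_lit 1, nat_lit 2, (.negSucc (nat_lit 5865862847)), (.negSucc (nat_lit 5708199807)), (.negSucc (nat_lit 5865862831)), (.negSucc (nat_lit 5708199823)), (.ofNat (nat_lit 7625773685821046503077)), (.ofNat (nat_lit 0)), (.ofNat (nat_lit 10037227319945152897559973641856))⟩,
    ⟨nat_lit 2, nat_lit 3, (.negSucc (nat_lit 5708199807)), (.negSucc (nat_lit 2493535487)), (.negSucc (nat_lit 5708199791)), (.negSucc (nat_lit 2493535503)), (.negSucc (nat_lit 7625773685821046503076)), (.ofNat (nat_lit 0)), (.ofNat (nat_lit 15992406536766979316020936704))⟩,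
    ⟨nat_lit 3, nat_lit 4, (.negSucc (nat_lit 2493535487)), (.negSucc (nat_lit 919106175)), (.negSucc (nat_lit 2493535471)), (.negSucc (nat_lit 919106191)), (.ofNat (nat_lit 7625773685821046503077)), (.ofNat (nat_lit 0)), (.ofNat (nat_lit 4571836051391482707625152037248))⟩,
    ⟨nat_lit 5, nat_lit 4, (.negSucc (nat_lit 4173633791)), (.negSucc (nat_lit 919106175)), (.negSucc (nat_lit 4173633775)), (.negSucc (nat_lit 919106191)), (.negSucc (nat_lit 7625773685821046503076)), (.ofNat (nat_lit 0)), (.ofNat (nat_lit 39981016341917448290052341760))⟩,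
    ⟨nat_lit 6, nat_lit 5, (.negSucc (nat_lit 5828967295)), (.negSucc (nat_lit 4173633791)), (.negSucc (nat_lit 5828967279)), (.negSucc (nat_lit 4173633807)), (.ofNat (nat_lit 7625773685821046503077)), (.ofNat (nat_lit 0)), (.ofNat (nat_lit 10108334182212633421803961263744))⟩,
    ⟨nat_lit 6, nat_lit 12, (.negSucc (nat_lit 5828967295)), (.negSucc (nat_lit 4643225471)), (.negSucc (nat_lit 5828967279)), (.negSucc (nat_lit 4643225487)), (.negSucc (nat_lit 7625773685821046503076)), (.ofNat (nat_lit 0)), (.ofNat (nat_lit 7996203268383489658010468352))⟩,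
    ⟨nat_lit 19, nat_lit 7, (.negSucc (nat_lit 3697293439)), (.negSucc (nat_lit 3459217727)), (.negSucc (nat_lit 3697293423)), (.negSucc (nat_lit 3459217743)), (.ofNat (nat_lit 7625773685821046503077)), (.ofNat (nat_lit 0)), (.ofNat (nat_lit 6305916977517037087998837763200))⟩,
    ⟨nat_lit 7, nat_lit 8, (.negSucc (nat_lit 3459217727)), (.ofNat (nat_lit 251444992)), (.negSucc (nat_lit 3459217711)), (.ofNat (nat_lit 251444976)), (.negSucc (nat_lit 7625773685821046503076)), (.ofNat (nat_lit 0)), (.ofNat (nat_lit 19990508170958724145026170880))⟩,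
    ⟨nat_lit 8, nat_lit 9, (.ofNat (nat_lit 251444992)), (.ofNat (nat_lit 1739497856)), (.ofNat (nat_lit 251445008)), (.ofNat (nat_lit 1739497840)), (.ofNat (nat_lit 7625773685821046503077)), (.ofNat (nat_lit 0)), (.ofNat (nat_lit 0))⟩,
    ⟨nat_lit 10, nat_lit 9, (.ofNat (nat_lit 868234240)), (.ofNat (nat_lit 1739497856)), (.ofNat (nat_lit 868234256)), (.ofNat (nat_lit 1739497840)), (.negSucc (nat_lit 7625773685821046503076)), (.ofNat (nat_lit 0)), (.ofNat (nat_lit 35982914707725703461047107584))⟩,
    ⟨nat_lit 12, nat_lit 11, (.negSucc (nat_lit 4643225471)), (.negSucc (nat_lit 3944841407)), (.negSucc (nat_lit 4643225455)), (.negSucc (nat_lit 3944841423)), (.ofNat (nat_lit 7625760915449263185093)), (.ofNat (nat_lit 0)), (.ofNat (nat_lit 8088288517967828001445077754752))⟩,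
    ⟨nat_lit 13, nat_lit 14, (.negSucc (nat_lit 145279935)), (.ofNat (nat_lit 1432835840)), (.negSucc (nat_lit 145279919)), (.ofNat (nat_lit 1432835824)), (.ofNat (nat_lit 7625773685821046503077)), (.ofNat (nat_lit 0)), (.ofNat (nat_lit 272402885097361524576410575488))⟩,
    ⟨nat_lit 15, nat_lit 14, (.negSucc (nat_lit 169819199)), (.ofNat (nat_lit 1432835840)), (.negSucc (nat_lit 169819183)), (.ofNat (nat_lit 1432835824)), (.negSucc (nat_lit 7625773685821046503076)), (.ofNat (nat_lit 0)), (.ofNat (nat_lit 31984813073533958632041873408))⟩,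
    ⟨nat_lit 16, nat_lit 15, (.negSucc (nat_lit 1596235711)), (.negSucc (nat_lit 169819199)), (.negSucc (nat_lit 1596235695)), (.negSucc (nat_lit 169819215)), (.ofNat (nat_lit 7625773685821046503077)), (.ofNat (nat_lit 0)), (.ofNat (nat_lit 2995395118899221000563074055296))⟩,
    ⟨nat_lit 17, nat_lit 16, (.negSucc (nat_lit 5699203967)), (.negSucc (nat_lit 1596235711)), (.negSucc (nat_lit 5699203951)), (.negSucc (nat_lit 1596235727)), (.negSucc (nat_lit 7625773685821046503076)), (.ofNat (nat_lit 0)), (.ofNat (nat_lit 11994304902575234487015702528))⟩,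
    ⟨nat_lit 17, nat_lit 18, (.negSucc (nat_lit 5699203967)), (.negSucc (nat_lit 5050856639)), (.negSucc (nat_lit 5699203951)), (.negSucc (nat_lit 5050856655)), (.ofNat (nat_lit 7625773685821046503077)), (.ofNat (nat_lit 0)), (.ofNat (nat_lit 9966120457677672373315986019968))⟩,
    ⟨nat_lit 18, nat_lit 11, (.negSucc (nat_lit 5050856639)), (.negSucc (nat_lit 3944841407)), (.negSucc (nat_lit 5050856623)), (.negSucc (nat_lit 3944841423)), (.negSucc (nat_lit 7625781749565456873494)), (.ofNat (nat_lit 0)), (.ofNat (nat_lit 27981456984270019075751579520))⟩,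
    ⟨nat_lit 0, nat_lit 10, (.negSucc (nat_lit 832990655)), (.ofNat (nat_lit 868234240)), (.negSucc (nat_lit 832990639)), (.ofNat (nat_lit 868234224)), (.ofNat (nat_lit 7625773685821046503077)), (.ofNat (nat_lit 0)), (.ofNat (nat_lit 1483564133518878232397850189696))⟩,
    ⟨nat_lit 19, nat_lit 13, (.negSucc (nat_lit 3697293439)), (.negSucc (nat_lit 145279935)), (.negSucc (nat_lit 3697293423)), (.negSucc (nat_lit 145279951)), (.negSucc (nat_lit 7625773685821046503076)), (.ofNat (nat_lit 0)), (.ofNat (nat_lit 0))⟩]

theorem ok98 : stOK 19 19 S98 = true := by decide +kernel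

def S99 : SD where
  vs := [
    ⟨nat_lit 0, nat_lit 0, nat_lit 18, (.ofNat (nat_lit 8)), (.negSucc (nat_lit 832990655)), (.ofNat (nat_lit 7332594448948628709691827319488)), (.ofNat (nat_lit 0)), (.ofNat (nat_lit 112809145368440441687027648640)), (.negSucc (nat_lit 832990671)), (.negSucc (nat_lit 832990639)), (.negSucc (nat_lit 7744926399662000354686)), (.ofNat (nat_lit 7744926399662000354687)), (.negSucc (nat_lit 7744926399662000354686)), (.ofNat (nat_lit 7744926399662000354687)), (.ofNat (nat_lit 714916283045723109660))⟩,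
    ⟨nat_lit 2, nat_lit 0, nat_lit 1, (.ofNat (nat_lit 8)), (.negSucc (nat_lit 5865862847)), (.ofNat (nat_lit 46311819154894188493890166483392)), (.ofNat (nat_lit 0)), (.ofNat (nat_lit 712489525459910592210291077760)), (.negSucc (nat_lit 5865862863)), (.negSucc (nat_lit 5865862831)), (.negSucc (nat_lit 7744926399662000354686)), (.ofNat (nat_lit 7744926399662000354687)), (.negSucc (nat_lit 7744926399662000354686)), (.ofNat (nat_lit 7744926399662000354687)), (.ofNat (nat_lit 714916283045723109660))⟩,
    ⟨nat_lit 0, nat_lit 1, nat_lit 2, (.ofNat (nat_lit 8)), (.negSucc (nat_lit 5708199807)), (.ofNat (nat_lit 47532907795641154442291197151872)), (.ofNat (nat_lit 0)), (.ofNat (nat_lit 731275504548325452954832572160)), (.negSucc (nat_lit 5708199823)), (.negSucc (nat_lit 5708199791)), (.ofNat (nat_lit 7744926399662000354687)), (.negSucc (nat_lit 7744926399662000354686)), (.negSucc (nat_lit 7744926399662000354686)), (.ofNat (nat_lit 7744926399662000354687)), (.ofNat (nat_lit 714916283045723109660))⟩,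
    ⟨nat_lit 0, nat_lit 2, nat_lit 3, (.ofNat (nat_lit 8)), (.negSucc (nat_lit 2493535487)), (.ofNat (nat_lit 22635569237621661842251553484032)), (.ofNat (nat_lit 0)), (.ofNat (nat_lit 348239526732640951417591016960)), (.negSucc (nat_lit 2493535503)), (.negSucc (nat_lit 2493535471)), (.negSucc (nat_lit 7744926399662000354686)), (.ofNat (nat_lit 7744926399662000354687)), (.negSucc (nat_lit 7744926399662000354686)), (.ofNat (nat_lit 7744926399662000354687)), (.ofNat (nat_lit 714916283045723109660))⟩,
    ⟨nat_lit 1, nat_lit 3, nat_lit 4, (.ofNat (nat_lit 8)), (.negSucc (nat_lit 919106175)), (.ofNat (nat_lit 34829408380532142093225162869376)), (.ofNat (nat_lit 0)), (.ofNat (nat_lit 535837052008186801431673409280)), (.negSucc (nat_lit 919106191)), (.negSucc (nat_lit 919106159)), (.ofNat (nat_lit 7744926399662000354687)), (.negSucc (nat_lit 7744926399662000354686)), (.negSucc (nat_lit 7744926399662000354686)), (.ofNat (nat_lit 7744926399662000354687)), (.ofNat (nat_lit 714916283045723109660))⟩,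
    ⟨nat_lit 0, nat_lit 5, nat_lit 4, (.ofNat (nat_lit 8)), (.negSucc (nat_lit 4173633791)), (.ofNat (nat_lit 60035485232119575313355799405568)), (.ofNat (nat_lit 0)), (.ofNat (nat_lit 923622849724916543277984471040)), (.negSucc (nat_lit 4173633807)), (.negSucc (nat_lit 4173633775)), (.ofNat (nat_lit 7744926399662000354687)), (.negSucc (nat_lit 7744926399662000354686)), (.negSucc (nat_lit 7744926399662000354686)), (.ofNat (nat_lit 7744926399662000354687)), (.ofNat (nat_lit 714916283045723109660))⟩,
    ⟨nat_lit 2, nat_lit 6, nat_lit 5, (.ofNat (nat_lit 8)), (.negSucc (nat_lit 5828967295)), (.ofNat (nat_lit 47215049076744971850582524872320)), (.ofNat (nat_lit 0)), (.ofNat (nat_lit 726385370411461105390107129600)), (.negSucc (nat_lit 5828967311)), (.negSucc (nat_lit 5828967279)), (.negSucc (nat_lit 7744926399662000354686)), (.ofNat (nat_lit 7744926399662000354687)), (.negSucc (nat_lit 7744926399662000354686)), (.ofNat (nat_lit 7744926399662000354687)), (.ofNat (nat_lit 714916283045723109660))⟩,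
    ⟨nat_lit 0, nat_lit 7, nat_lit 8, (.ofNat (nat_lit 8)), (.negSucc (nat_lit 3459217727)), (.ofNat (nat_lit 30974533227001251148431125833920)), (.ofNat (nat_lit 0)), (.ofNat (nat_lit 476531280415403863819740777600)), (.negSucc (nat_lit 3459217743)), (.negSucc (nat_lit 3459217711)), (.ofNat (nat_lit 7744926399662000354687)), (.negSucc (nat_lit 7744926399662000354686)), (.negSucc (nat_lit 7744926399662000354686)), (.ofNat (nat_lit 7744926399662000354687)), (.ofNat (nat_lit 714916283045723109660))⟩,
    ⟨nat_lit 0, nat_lit 8, nat_lit 9, (.ofNat (nat_lit 8)), (.ofNat (nat_lit 251444992)), (.ofNat (nat_lit 2235723566631645831667297665280)), (.ofNat (nat_lit 0)), (.ofNat (nat_lit 34395747178948397410101798400)), (.ofNat (nat_lit 251444976)), (.ofNat (nat_lit 251445008)), (.negSucc (nat_lit 7744926399662000354686)), (.ofNat (nat_lit 7744926399662000354687)), (.negSucc (nat_lit 7744926399662000354686)), (.ofNat (nat_lit 7744926399662000354687)), (.ofNat (nat_lit 714916283045723109660))⟩,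
    ⟨nat_lit 1, nat_lit 9, nat_lit 10, (.ofNat (nat_lit 8)), (.ofNat (nat_lit 1739497856)), (.ofNat (nat_lit 13760583477117894091428303838848)), (.ofNat (nat_lit 0)), (.ofNat (nat_lit 211701284263352216790193309440)), (.ofNat (nat_lit 1739497840)), (.ofNat (nat_lit 1739497872)), (.ofNat (nat_lit 7744926399662000354687)), (.negSucc (nat_lit 7744926399662000354686)), (.negSucc (nat_lit 7744926399662000354686)), (.ofNat (nat_lit 7744926399662000354687)), (.ofNat (nat_lit 714916283045723109660))⟩,
    ⟨nat_lit 0, nat_lit 18, nat_lit 10, (.ofNat (nat_lit 8)), (.ofNat (nat_lit 868234240)), (.ofNat (nat_lit 20508456057741269698246182007040)), (.ofNat (nat_lit 0)), (.ofNat (nat_lit 315514708580634918433049331200)), (.ofNat (nat_lit 868234224)), (.ofNat (nat_lit 868234256)), (.ofNat (nat_lit 7744926399662000354687)), (.negSucc (nat_lit 7744926399662000354686)), (.negSucc (nat_lit 7744926399662000354686)), (.ofNat (nat_lit 7744926399662000354687)), (.ofNat (nat_lit 714916283045723109660))⟩,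
    ⟨nat_lit 1, nat_lit 11, nat_lit 17, (.ofNat (nat_lit 8)), (.negSucc (nat_lit 3944841407)), (.ofNat (nat_lit 43440499095240834600603063051200)), (.ofNat (nat_lit 0)), (.ofNat (nat_lit 668324289320157664547155342976)), (.negSucc (nat_lit 3944841423)), (.negSucc (nat_lit 3944841391)), (.ofNat (nat_lit 7744926399662000354687)), (.negSucc (nat_lit 7744926399662000354686)), (.negSucc (nat_lit 7744926399662000354686)), (.ofNat (nat_lit 7744926399662000354687)), (.ofNat (nat_lit 714951237044035640760))⟩,
    ⟨nat_lit 0, nat_lit 6, nat_lit 11, (.ofNat (nat_lit 8)), (.negSucc (nat_lit 4643225471)), (.ofNat (nat_lit 38031565920863998566527314543232)), (.ofNat (nat_lit 0)), (.ofNat (nat_lit 585101014167138439482240392960)), (.negSucc (nat_lit 4643225487)), (.negSucc (nat_lit 4643225455)), (.negSucc (nat_lit 7744926399662000354686)), (.ofNat (nat_lit 7744926399662000354687)), (.negSucc (nat_lit 7744926399662000354686)), (.ofNat (nat_lit 7744926399662000354687)), (.ofNat (nat_lit 714941823789289745628))⟩,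
    ⟨nat_lit 0, nat_lit 19, nat_lit 12, (.ofNat (nat_lit 8)), (.negSucc (nat_lit 145279935)), (.ofNat (nat_lit 1620571200928597559143752078528)), (.ofNat (nat_lit 0)), (.ofNat (nat_lit 24931864629670731679015539840)), (.negSucc (nat_lit 145279951)), (.negSucc (nat_lit 145279919)), (.negSucc (nat_lit 7744926399662000354686)), (.ofNat (nat_lit 7744926399662000354687)), (.negSucc (nat_lit 7744926399662000354686)), (.ofNat (nat_lit 7744926399662000354687)), (.ofNat (nat_lit 714916283045723109660))⟩,
    ⟨nat_lit 1, nat_lit 12, nat_lit 13, (.ofNat (nat_lit 8)), (.ofNat (nat_lit 1432835840)), (.ofNat (nat_lit 13842961736194081386592902320640)), (.ofNat (nat_lit 0)), (.ofNat (nat_lit 212968642095293559792719539200)), (.ofNat (nat_lit 1432835824)), (.ofNat (nat_lit 1432835856)), (.ofNat (nat_lit 7744926399662000354687)), (.negSucc (nat_lit 7744926399662000354686)), (.negSucc (nat_lit 7744926399662000354686)), (.ofNat (nat_lit 7744926399662000354687)), (.ofNat (nat_lit 714916283045723109660))⟩,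
    ⟨nat_lit 0, nat_lit 14, nat_lit 13, (.ofNat (nat_lit 8)), (.negSucc (nat_lit 169819199)), (.ofNat (nat_lit 26255407065041440551513810493120)), (.ofNat (nat_lit 0)), (.ofNat (nat_lit 403929339462176008482898153600)), (.negSucc (nat_lit 169819215)), (.negSucc (nat_lit 169819183)), (.ofNat (nat_lit 7744926399662000354687)), (.negSucc (nat_lit 7744926399662000354686)), (.negSucc (nat_lit 7744926399662000354686)), (.ofNat (nat_lit 7744926399662000354687)), (.ofNat (nat_lit 714916283045723109660))⟩,
    ⟨nat_lit 0, nat_lit 15, nat_lit 14, (.ofNat (nat_lit 8)), (.negSucc (nat_lit 1596235711)), (.ofNat (nat_lit 15207916164338852026638417101376)), (.ofNat (nat_lit 0)), (.ofNat (nat_lit 233967940989828492716396369280)), (.negSucc (nat_lit 1596235727)), (.negSucc (nat_lit 1596235695)), (.negSucc (nat_lit 7744926399662000354686)), (.ofNat (nat_lit 7744926399662000354687)), (.negSucc (nat_lit 7744926399662000354686)), (.ofNat (nat_lit 7744926399662000354687)), (.ofNat (nat_lit 714916283045723109660))⟩,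
    ⟨nat_lit 2, nat_lit 15, nat_lit 16, (.ofNat (nat_lit 8)), (.negSucc (nat_lit 5699203967)), (.ofNat (nat_lit 46985103327208408611379918917248)), (.ofNat (nat_lit 0)), (.ofNat (nat_lit 722847743495513978633160861440)), (.negSucc (nat_lit 5699203983)), (.negSucc (nat_lit 5699203951)), (.negSucc (nat_lit 7744926399662000354686)), (.ofNat (nat_lit 7744926399662000354687)), (.negSucc (nat_lit 7744926399662000354686)), (.ofNat (nat_lit 7744926399662000354687)), (.ofNat (nat_lit 714916283045723109660))⟩,
    ⟨nat_lit 0, nat_lit 16, nat_lit 17, (.ofNat (nat_lit 8)), (.negSucc (nat_lit 5050856639)), (.ofNat (nat_lit 52006505663985926644476287643584)), (.ofNat (nat_lit 0)), (.ofNat (nat_lit 800100087138245025295812859520)), (.negSucc (nat_lit 5050856655)), (.negSucc (nat_lit 5050856623)), (.ofNat (nat_lit 7744926399662000354687)), (.negSucc (nat_lit 7744926399662000354686)), (.negSucc (nat_lit 7744926399662000354686)), (.ofNat (nat_lit 7744926399662000354687)), (.ofNat (nat_lit 714900155556902368824))⟩,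
    ⟨nat_lit 2, nat_lit 19, nat_lit 7, (.ofNat (nat_lit 8)), (.negSucc (nat_lit 3697293439)), (.ofNat (nat_lit 29130654360014123854644765771776)), (.ofNat (nat_lit 0)), (.ofNat (nat_lit 448163913230986520838547681280)), (.negSucc (nat_lit 3697293455)), (.negSucc (nat_lit 3697293423)), (.negSucc (nat_lit 7744926399662000354686)), (.ofNat (nat_lit 7744926399662000354687)), (.negSucc (nat_lit 7744926399662000354686)), (.ofNat (nat_lit 7744926399662000354687)), (.ofNat (nat_lit 714916283045723109660))⟩]
  es := [
    ⟨nat_lit 1, nat_lit 0, (.negSucc (nat_lit 5865862847)), (.negSucc (nat_lit 832990655)), (.negSucc (nat_lit 5865862831)), (.negSucc (nat_lit 832990671)), (.negSucc (nat_lit 7744926399662000354686)), (.negSucc (nat_lit 119152713840953851609)), (.ofNat (nat_lit 13556048101884013168687092480))⟩,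
    ⟨nat_lit 1, nat_lit 2, (.negSucc (nat_lit 5865862847)), (.negSucc (nat_lit 5708199807)), (.negSucc (nat_lit 5865862831)), (.negSucc (nat_lit 5708199823)), (.ofNat (nat_lit 7744926399662000354687)), (.ofNat (nat_lit 119152713840953851610)), (.ofNat (nat_lit 1411423002817937171251895063040))⟩,
    ⟨nat_lit 2, nat_lit 3, (.negSucc (nat_lit 5708199807)), (.negSucc (nat_lit 2493535487)), (.negSucc (nat_lit 5708199791)), (.negSucc (nat_lit 2493535503)), (.negSucc (nat_lit 7744926399662000354686)), (.negSucc (nat_lit 119152713840953851609)), (.ofNat (nat_lit 51128006278713734657770081280))⟩,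
    ⟨nat_lit 3, nat_lit 4, (.negSucc (nat_lit 2493535487)), (.negSucc (nat_lit 919106175)), (.negSucc (nat_lit 2493535471)), (.negSucc (nat_lit 919106191)), (.ofNat (nat_lit 7744926399662000354687)), (.ofNat (nat_lit 119152713840953851610)), (.ofNat (nat_lit 645351047186568168177411952640))⟩,
    ⟨nat_lit 5, nat_lit 4, (.negSucc (nat_lit 4173633791)), (.negSucc (nat_lit 919106175)), (.negSucc (nat_lit 4173633775)), (.negSucc (nat_lit 919106191)), (.negSucc (nat_lit 7744926399662000354686)), (.negSucc (nat_lit 119152713840953851609)), (.ofNat (nat_lit 426323056829805434685934865920))⟩,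
    ⟨nat_lit 6, nat_lit 5, (.negSucc (nat_lit 5828967295)), (.negSucc (nat_lit 4173633791)), (.negSucc (nat_lit 5828967279)), (.negSucc (nat_lit 4173633807)), (.ofNat (nat_lit 7744926399662000354687)), (.ofNat (nat_lit 119152713840953851610)), (.ofNat (nat_lit 1420922642620027651870034076160))⟩,
    ⟨nat_lit 6, nat_lit 12, (.negSucc (nat_lit 5828967295)), (.negSucc (nat_lit 4643225471)), (.negSucc (nat_lit 5828967279)), (.negSucc (nat_lit 4643225487)), (.negSucc (nat_lit 7744926399662000354686)), (.negSucc (nat_lit 119152713840953851609)), (.ofNat (nat_lit 31848098202894558910180183040))⟩,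
    ⟨nat_lit 19, nat_lit 7, (.negSucc (nat_lit 3697293439)), (.negSucc (nat_lit 3459217727)), (.negSucc (nat_lit 3697293423)), (.negSucc (nat_lit 3459217743)), (.ofNat (nat_lit 7744926399662000354687)), (.ofNat (nat_lit 119152713840953851610)), (.ofNat (nat_lit 888706460473342399738934119680))⟩,
    ⟨nat_lit 7, nat_lit 8, (.negSucc (nat_lit 3459217727)), (.ofNat (nat_lit 251444992)), (.negSucc (nat_lit 3459217711)), (.ofNat (nat_lit 251444976)), (.negSucc (nat_lit 7744926399662000354686)), (.negSucc (nat_lit 119152713840953851609)), (.ofNat (nat_lit 64356100357465327900547435520))⟩,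
    ⟨nat_lit 8, nat_lit 9, (.ofNat (nat_lit 251444992)), (.ofNat (nat_lit 1739497856)), (.ofNat (nat_lit 251445008)), (.ofNat (nat_lit 1739497840)), (.ofNat (nat_lit 7744926399662000354687)), (.ofNat (nat_lit 119152713840953851610)), (.ofNat (nat_lit 4435394000431466919656161280))⟩,
    ⟨nat_lit 10, nat_lit 9, (.ofNat (nat_lit 868234240)), (.ofNat (nat_lit 1739497856)), (.ofNat (nat_lit 868234256)), (.ofNat (nat_lit 1739497840)), (.negSucc (nat_lit 7744926399662000354686)), (.negSucc (nat_lit 119152713840953851609)), (.ofNat (nat_lit 418967174526272966660730457600))⟩,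
    ⟨nat_lit 12, nat_lit 11, (.negSucc (nat_lit 4643225471)), (.negSucc (nat_lit 3944841407)), (.negSucc (nat_lit 4643225455)), (.negSucc (nat_lit 3944841423)), (.ofNat (nat_lit 7744926399662000354687)), (.ofNat (nat_lit 119165484212737169594)), (.ofNat (nat_lit 1138413225846933532182285091328))⟩,
    ⟨nat_lit 13, nat_lit 14, (.negSucc (nat_lit 145279935)), (.ofNat (nat_lit 1432835840)), (.negSucc (nat_lit 145279919)), (.ofNat (nat_lit 1432835824)), (.ofNat (nat_lit 7744926399662000354687)), (.ofNat (nat_lit 119152713840953851610)), (.ofNat (nat_lit 42242363270710821419869836800))⟩,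
    ⟨nat_lit 15, nat_lit 14, (.negSucc (nat_lit 169819199)), (.ofNat (nat_lit 1432835840)), (.negSucc (nat_lit 169819183)), (.ofNat (nat_lit 1432835824)), (.negSucc (nat_lit 7744926399662000354686)), (.negSucc (nat_lit 119152713840953851609)), (.ofNat (nat_lit 383694920919876298165569241600))⟩,
    ⟨nat_lit 16, nat_lit 15, (.negSucc (nat_lit 1596235711)), (.negSucc (nat_lit 169819199)), (.negSucc (nat_lit 1596235695)), (.negSucc (nat_lit 169819215)), (.ofNat (nat_lit 7744926399662000354687)), (.ofNat (nat_lit 119152713840953851610)), (.ofNat (nat_lit 424163758004475718800227065600))⟩,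
    ⟨nat_lit 17, nat_lit 16, (.negSucc (nat_lit 5699203967)), (.negSucc (nat_lit 1596235711)), (.negSucc (nat_lit 5699203951)), (.negSucc (nat_lit 1596235727)), (.negSucc (nat_lit 7744926399662000354686)), (.negSucc (nat_lit 119152713840953851609)), (.ofNat (nat_lit 43772123975181266632565672960))⟩,
    ⟨nat_lit 17, nat_lit 18, (.negSucc (nat_lit 5699203967)), (.negSucc (nat_lit 5050856639)), (.negSucc (nat_lit 5699203951)), (.negSucc (nat_lit 5050856655)), (.ofNat (nat_lit 7744926399662000354687)), (.ofNat (nat_lit 119152713840953851610)), (.ofNat (nat_lit 1401923363015846690633756049920))⟩,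
    ⟨nat_lit 18, nat_lit 11, (.negSucc (nat_lit 5050856639)), (.negSucc (nat_lit 3944841407)), (.negSucc (nat_lit 5050856623)), (.negSucc (nat_lit 3944841423)), (.negSucc (nat_lit 7744926399662000354686)), (.negSucc (nat_lit 119144650096543481191)), (.ofNat (nat_lit 198317540077641742268484544640))⟩,
    ⟨nat_lit 0, nat_lit 10, (.negSucc (nat_lit 832990655)), (.ofNat (nat_lit 868234240)), (.negSucc (nat_lit 832990639)), (.ofNat (nat_lit 868234224)), (.ofNat (nat_lit 7744926399662000354687)), (.ofNat (nat_lit 119152713840953851610)), (.ofNat (nat_lit 212062242634996870205368204800))⟩,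
    ⟨nat_lit 19, nat_lit 13, (.negSucc (nat_lit 3697293439)), (.negSucc (nat_lit 145279935)), (.negSucc (nat_lit 3697293423)), (.negSucc (nat_lit 145279951)), (.negSucc (nat_lit 7744926399662000354686)), (.negSucc (nat_lit 119152713840953851609)), (.ofNat (nat_lit 7621365988630641938161242880))⟩]

theorem ok99 : stOK 19 19 S99 = true := by decide +kernel

end LCA.CapJ


end

section

set_option maxRecDepth 100000

namespace LCA.CapJ

open LCA

theorem f50 : goOK (.ofNat (nat_lit 1)) S49 S52 = true := by decide +kernel

theorem f51 : goOK (.ofNat (nat_lit 1)) S52 S53 = true := by decide +kernel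

theorem f52 : goOK (.ofNat (nat_lit 1)) S53 S54 = true := by decide +kernel

theorem f53 : goOK (.ofNat (nat_lit 1)) S54 S55 = true := by decide +kernel

theorem f54 : goOK (.ofNat (nat_lit 1)) S55 S56 = true := by decide +kernel

theorem f55 : goOK (.ofNat (nat_lit 1)) S57 S58 = true := by decide +kernel

theorem f56 : mvOK (.ofNat (nat_lit 1)) S57 S58 = true := by decide +kernel

theorem f57 : wdOK S57 S56 = true := by decide +kernel

theorem f58 : goOK (.ofNat (nat_lit 1)) S58 S59 = true := by decide +kernel

theorem f59 : mvOK (.ofNat (nat_lit 1)) S58 S59 = true := by decide +kernel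

theorem f60 : fdS 11 S58 S59 = true := by decide +kernel

theorem f61 : fdOK 23 23 24 24 [nat_lit 0, nat_lit 1, nat_lit 2, nat_lit 3, nat_lit 4, nat_lit 5, nat_lit 6, nat_lit 7, nat_lit 8, nat_lit 9, nat_lit 10, nat_lit 11, nat_lit 12, nat_lit 13, nat_lit 14, nat_lit 15, nat_lit 16, nat_lit 17, nat_lit 18, nat_lit 19, nat_lit 20, nat_lit 21, nat_lit 22, nat_lit 23] [nat_lit 0, nat_lit 1, nat_lit 2, nat_lit 3, nat_lit 4, nat_lit 5, nat_lit 6, nat_lit 7, nat_lit 8, nat_lit 9, nat_lit 10, nat_lit 11, nat_lit 12, nat_lit 13, nat_lit 14, nat_lit 15, nat_lit 16, nat_lit 17, nat_lit 18, nat_lit 19, nat_lit 20, nat_lit 21, nat_lit 22, nat_lit 23, nat_lit 0] [nat_lit 0, nat_lit 1, nat_lit 2, nat_lit 3, nat_lit 4, nat_lit 5, nat_lit 6, nat_lit 7, nat_lit 8, nat_lit 9, nat_lit 10, nat_lit 11, nat_lit 12, nat_lit 13, nat_lit 14, nat_lit 15, nat_lit 16, nat_lit 17, nat_lit 18, nat_lit 19, nat_lit 20, nat_lit 21, nat_lit 22, nat_lit 23] [nat_lit 0, nat_lit 1, nat_lit 2, nat_lit 3, nat_lit 4, nat_lit 5, nat_lit 6, nat_lit 7, nat_lit 8, nat_lit 9, nat_lit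 10, nat_lit 11, nat_lit 12, nat_lit 13, nat_lit 14, nat_lit 15, nat_lit 16, nat_lit 17, nat_lit 18, nat_lit 19, nat_lit 20, nat_lit 21, nat_lit 22, nat_lit 23, nat_lit 0] 11 24 24 S59 S60 = true := by decide +kernel

theorem f62 : goOK (.ofNat (nat_lit 1)) S60 S61 = true := by decide +kernel

theorem f63 : inOK 24 24 25 25 [nat_lit 0, nat_lit 1, nat_lit 2, nat_lit 3, nat_lit 4, nat_lit 5, nat_lit 6, nat_lit 7, nat_lit 8, nat_lit 9, nat_lit 10, nat_lit 11, nat_lit 12, nat_lit 13, nat_lit 14, nat_lit 15, nat_lit 16, nat_lit 17, nat_lit 18, nat_lit 19, nat_lit 20, nat_lit 21, nat_lit 22, nat_lit 23, nat_lit 24] [nat_lit 0, nat_lit 1, nat_lit 2, nat_lit 3, nat_lit 4, nat_lit 5, nat_lit 6, nat_lit 7, nat_lit 8, nat_lit 9, nat_lit 10, nat_lit 11, nat_lit 12, nat_lit 13, nat_lit 14, nat_lit 15, nat_lit 16, nat_lit 17, nat_lit 18, nat_lit 19, nat_lit 20, nat_lit 21, nat_lit 22, nat_lit 23, nat_lit 24, nat_lit 0] [nat_lit 0, nat_lit 1, nat_lit 2, nat_lit 3, nat_lit 4, nat_lit 5, nat_lit 6, nat_lit 7, nat_lit 8, nat_lit 9, nat_lit 10, nat_lit 11,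 nat_lit 12, nat_lit 13, nat_lit 14, nat_lit 15, nat_lit 16, nat_lit 17, nat_lit 18, nat_lit 19, nat_lit 20, nat_lit 21, nat_lit 22, nat_lit 23, nat_lit 24] [nat_lit 0, nat_lit 1, nat_lit 2, nat_lit 3, nat_lit 4, nat_lit 5, nat_lit 6, nat_lit 7, nat_lit 8, nat_lit 9, nat_lit 10, nat_lit 11, nat_lit 12, nat_lit 13, nat_lit 14, nat_lit 15, nat_lit 16, nat_lit 17, nat_lit 18, nat_lit 19, nat_lit 20, nat_lit 21, nat_lit 22, nat_lit 23, nat_lit 24, nat_lit 0] 24 25 25 S61 S62 = true := by decide +kernel

theorem f64 : goOK (.ofNat (nat_lit 1)) S62 S63 = true := by decide +kernel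

theorem f65 : swOK 25 11 S63 S64 = true := by decide +kernel

theorem f66 : goOK (.ofNat (nat_lit 1)) S64 S65 = true := by decide +kernel

theorem f67 : goOK (.ofNat (nat_lit 1)) S65 S66 = true := by decide +kernel

theorem f68 : sdOK 25 25 12 24 13 11 12 24 ⟨(.ofNat (nat_lit 233094912)), (.ofNat (nat_lit 6231162491486520438914833468160)), (.ofNat (nat_lit 842804078886951071615549440)), (.ofNat (nat_lit 0)), (.ofNat (nat_lit 0)), (.ofNat (nat_lit 6430084830375298092770)), (.ofNat (nat_lit 131072)), (.ofNat (nat_lit 8))⟩ S66 S67 S68 S69 = true := by decide +kernel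

theorem f69 : goOK (.ofNat (nat_lit 1)) S67 S70 = true := by decide +kernel

theorem f70 : goOK (.ofNat (nat_lit 1)) S70 S71 = true := by decide +kernel

theorem f71 : goOK (.ofNat (nat_lit 1)) S71 S72 = true := by decide +kernel

theorem f72 : inOK 24 24 25 25 [nat_lit 0, nat_lit 1, nat_lit 2, nat_lit 3, nat_lit 4, nat_lit 5, nat_lit 6, nat_lit 7, nat_lit 8, nat_lit 9, nat_lit 10, nat_lit 11, nat_lit 12, nat_lit 13, nat_lit 14, nat_lit 15, nat_lit 16, nat_lit 17, nat_lit 18, nat_lit 19, nat_lit 20, nat_lit 21, nat_lit 22, nat_lit 23, nat_lit 25] [nat_lit 0, nat_lit 1, nat_lit 2, nat_lit 3, nat_lit 4, nat_lit 5, nat_lit 6, nat_lit 7, nat_lit 8, nat_lit 9, nat_lit 10, nat_lit 11, nat_lit 12, nat_lit 13, nat_lit 14, nat_lit 15, nat_lit 16, nat_lit 17, nat_lit 18, nat_lit 19, nat_lit 20, nat_lit 21, nat_lit 22, nat_lit 23, nat_lit 0, nat_lit 24] [nat_lit 0, nat_lit 1, nat_lit 2, nat_lit 3, nat_lit 4, nat_lit 5, nat_lit 6, nat_lit 7, nat_lit 8, nat_lit 9, nat_lit 10, nat_lit 11, nat_lit 13, nat_lit 14, nat_lit 15, nat_lit 16, nat_lit 17, nat_lit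 18, nat_lit 19, nat_lit 20, nat_lit 21, nat_lit 22, nat_lit 23, nat_lit 24, nat_lit 25] [nat_lit 0, nat_lit 1, nat_lit 2, nat_lit 3, nat_lit 4, nat_lit 5, nat_lit 6, nat_lit 7, nat_lit 8, nat_lit 9, nat_lit 10, nat_lit 11, nat_lit 0, nat_lit 12, nat_lit 13, nat_lit 14, nat_lit 15, nat_lit 16, nat_lit 17, nat_lit 18, nat_lit 19, nat_lit 20, nat_lit 21, nat_lit 22, nat_lit 23, nat_lit 24] 13 24 12 S73 S72 = true := by decide +kernel

theorem f73 : inOK 23 23 24 24 [nat_lit 0, nat_lit 1, nat_lit 2, nat_lit 3, nat_lit 4, nat_lit 5, nat_lit 6, nat_lit 7, nat_lit 8, nat_lit 9, nat_lit 10, nat_lit 11, nat_lit 12, nat_lit 13, nat_lit 14, nat_lit 15, nat_lit 16, nat_lit 17, nat_lit 18, nat_lit 19, nat_lit 20, nat_lit 21, nat_lit 22, nat_lit 23] [nat_lit 0, nat_lit 1, nat_lit 2, nat_lit 3, nat_lit 4, nat_lit 5, nat_lit 6, nat_lit 7, nat_lit 8, nat_lit 9, nat_lit 10, nat_lit 11, nat_lit 12, nat_lit 13, nat_lit 14, nat_lit 15, nat_lit 16, nat_lit 17, nat_lit 18, nat_lit 19, nat_lit 20, nat_lit 21, nat_lit 22, nat_lit 23, nat_lit 0] [nat_lit 0, nat_lit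 1, nat_lit 2, nat_lit 3, nat_lit 4, nat_lit 5, nat_lit 6, nat_lit 7, nat_lit 8, nat_lit 9, nat_lit 10, nat_lit 11, nat_lit 12, nat_lit 13, nat_lit 14, nat_lit 15, nat_lit 16, nat_lit 17, nat_lit 18, nat_lit 19, nat_lit 20, nat_lit 21, nat_lit 22, nat_lit 23] [nat_lit 0, nat_lit 1, nat_lit 2, nat_lit 3, nat_lit 4, nat_lit 5, nat_lit 6, nat_lit 7, nat_lit 8, nat_lit 9, nat_lit 10, nat_lit 11, nat_lit 12, nat_lit 13, nat_lit 14, nat_lit 15, nat_lit 16, nat_lit 17, nat_lit 18, nat_lit 19, nat_lit 20, nat_lit 21, nat_lit 22, nat_lit 23, nat_lit 0] 13 24 24 S74 S73 = true := by decide +kernel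

theorem f74 : goOK (.ofNat (nat_lit 1)) S74 S75 = true := by decide +kernel

end LCA.CapJ


end

section

set_option maxRecDepth 100000

namespace LCA.CapJ

open LCA

theorem f75 : goOK (.ofNat (nat_lit 1)) S75 S76 = true := by decide +kernel

theorem f76 : goOK (.ofNat (nat_lit 1)) S76 S77 = true := by decide +kernel

theorem f77 : goOK (.ofNat (nat_lit 1)) S77 S78 = true := by decide +kernel

theorem f78 : inOK 22 22 23 23 [nat_lit 0, nat_lit 1, nat_lit 2, nat_lit 3, nat_lit 4, nat_lit 5, nat_lit 6, nat_lit 7, nat_lit 8, nat_lit 9, nat_lit 10, nat_lit 11, nat_lit 13, nat_lit 14, nat_lit 15, nat_lit 16, nat_lit 17, nat_lit 18, nat_lit 19, nat_lit 20, nat_lit 21, nat_lit 22, nat_lit 23] [nat_lit 0, nat_lit 1, nat_lit 2, nat_lit 3, nat_lit 4, nat_lit 5, nat_lit 6, nat_lit 7, nat_lit 8, nat_lit 9, nat_lit 10, nat_lit 11, nat_lit 0, nat_lit 12, nat_lit 13, nat_lit 14, nat_lit 15, nat_lit 16, nat_lit 17, nat_lit 18, nat_lit 19, nat_lit 20, nat_lit 21, nat_lit 22] [nat_lit 0, nat_lit 1, nat_lit 2, nat_lit 3, nat_lit 4, nat_lit 5, nat_lit 6,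 nat_lit 7, nat_lit 8, nat_lit 9, nat_lit 10, nat_lit 11, nat_lit 12, nat_lit 13, nat_lit 14, nat_lit 15, nat_lit 16, nat_lit 17, nat_lit 18, nat_lit 19, nat_lit 20, nat_lit 22, nat_lit 23] [nat_lit 0, nat_lit 1, nat_lit 2, nat_lit 3, nat_lit 4, nat_lit 5, nat_lit 6, nat_lit 7, nat_lit 8, nat_lit 9, nat_lit 10, nat_lit 11, nat_lit 12, nat_lit 13, nat_lit 14, nat_lit 15, nat_lit 16, nat_lit 17, nat_lit 18, nat_lit 19, nat_lit 20, nat_lit 0, nat_lit 21, nat_lit 22] 21 12 21 S79 S78 = true := by decide +kernel

theorem f79 : inOK 21 21 22 22 [nat_lit 0, nat_lit 1, nat_lit 2, nat_lit 3, nat_lit 4, nat_lit 5, nat_lit 6, nat_lit 7, nat_lit 8, nat_lit 9, nat_lit 10, nat_lit 12, nat_lit 13, nat_lit 14, nat_lit 15, nat_lit 16, nat_lit 17, nat_lit 18, nat_lit 19, nat_lit 20, nat_lit 21, nat_lit 22] [nat_lit 0, nat_lit 1, nat_lit 2, nat_lit 3, nat_lit 4, nat_lit 5, nat_lit 6, nat_lit 7, nat_lit 8, nat_lit 9, nat_lit 10, nat_lit 0, nat_lit 11, nat_lit 12, nat_lit 13, nat_lit 14, nat_lit 15, nat_lit 16, nat_lit 17, nat_lit 18, nat_lit 19, nat_lit 20,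 nat_lit 21] [nat_lit 0, nat_lit 1, nat_lit 2, nat_lit 3, nat_lit 4, nat_lit 5, nat_lit 6, nat_lit 7, nat_lit 8, nat_lit 9, nat_lit 10, nat_lit 11, nat_lit 12, nat_lit 13, nat_lit 14, nat_lit 15, nat_lit 16, nat_lit 17, nat_lit 18, nat_lit 19, nat_lit 20, nat_lit 21] [nat_lit 0, nat_lit 1, nat_lit 2, nat_lit 3, nat_lit 4, nat_lit 5, nat_lit 6, nat_lit 7, nat_lit 8, nat_lit 9, nat_lit 10, nat_lit 11, nat_lit 12, nat_lit 13, nat_lit 14, nat_lit 15, nat_lit 16, nat_lit 17, nat_lit 18, nat_lit 19, nat_lit 20, nat_lit 21, nat_lit 0] 20 11 22 S80 S79 = true := by decide +kernel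

theorem f80 : goOK (.ofNat (nat_lit 1)) S80 S81 = true := by decide +kernel

theorem f81 : goOK (.ofNat (nat_lit 1)) S81 S82 = true := by decide +kernel

theorem f82 : goOK (.ofNat (nat_lit 1)) S82 S83 = true := by decide +kernel

theorem f83 : goOK (.ofNat (nat_lit 1)) S83 S84 = true := by decide +kernel

theorem f84 : goOK (.ofNat (nat_lit 1)) S84 S85 = true := by decide +kernel

theorem f85 : goOK (.ofNat (nat_lit 1)) S85 S86 = true := by decide +kernel

theorem f86 : goOK (.ofNat (nat_lit 1)) S86 S87 = true := by decide +kernel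

theorem f87 : goOK (.ofNat (nat_lit 1)) S87 S88 = true := by decide +kernel

theorem f88 : goOK (.ofNat (nat_lit 1)) S88 S89 = true := by decide +kernel

theorem f89 : goOK (.ofNat (nat_lit 1)) S89 S90 = true := by decide +kernel

theorem f90 : goOK (.ofNat (nat_lit 1)) S90 S91 = true := by decide +kernel

theorem f91 : goOK (.ofNat (nat_lit 1)) S91 S92 = true := by decide +kernel

theorem f92 : goOK (.ofNat (nat_lit 1)) S92 S93 = true := by decide +kernel

theorem f93 : goOK (.ofNat (nat_lit 1)) S93 S94 = true := by decide +kernel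

theorem f94 : goOK (.ofNat (nat_lit 1)) S94 S95 = true := by decide +kernel

theorem f95 : goOK (.ofNat (nat_lit 1)) S95 S96 = true := by decide +kernel

theorem f96 : inOK 20 20 21 21 [nat_lit 0, nat_lit 1, nat_lit 2, nat_lit 3, nat_lit 4, nat_lit 5, nat_lit 6, nat_lit 7, nat_lit 8, nat_lit 9, nat_lit 10, nat_lit 11, nat_lit 13, nat_lit 14, nat_lit 15, nat_lit 16, nat_lit 17, nat_lit 18, nat_lit 19, nat_lit 20, nat_lit 21] [nat_lit 0, nat_lit 1, nat_lit 2, nat_lit 3, nat_lit 4, nat_lit 5, nat_lit 6, nat_lit 7, nat_lit 8, nat_lit 9, nat_lit 10, nat_lit 11, nat_lit 0, nat_lit 12, nat_lit 13, nat_lit 14, nat_lit 15, nat_lit 16, nat_lit 17, nat_lit 18, nat_lit 19, nat_lit 20] [nat_lit 0, nat_lit 1, nat_lit 2, nat_lit 3, nat_lit 4, nat_lit 5, nat_lit 6, nat_lit 7, nat_lit 8, nat_lit 9, nat_lit 10, nat_lit 11, nat_lit 12, nat_lit 14, nat_lit 15, nat_lit 16, nat_lit 17, nat_lit 18, nat_lit 19, nat_lit 20, nat_lit 21] [nat_lit 0, nat_lit 1, nat_lit 2, nat_lit 3, nat_lit 4, nat_lit 5, nat_lit 6, nat_lit 7, nat_lit 8, nat_lit 9, nat_lit 10, nat_lit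 11, nat_lit 12, nat_lit 0, nat_lit 13, nat_lit 14, nat_lit 15, nat_lit 16, nat_lit 17, nat_lit 18, nat_lit 19, nat_lit 20] 12 12 13 S97 S96 = true := by decide +kernel

theorem f97 : inOK 19 19 20 20 [nat_lit 0, nat_lit 1, nat_lit 2, nat_lit 3, nat_lit 4, nat_lit 5, nat_lit 6, nat_lit 7, nat_lit 8, nat_lit 9, nat_lit 10, nat_lit 12, nat_lit 13, nat_lit 14, nat_lit 15, nat_lit 16, nat_lit 17, nat_lit 18, nat_lit 19, nat_lit 20] [nat_lit 0, nat_lit 1, nat_lit 2, nat_lit 3, nat_lit 4, nat_lit 5, nat_lit 6, nat_lit 7, nat_lit 8, nat_lit 9, nat_lit 10, nat_lit 0, nat_lit 11, nat_lit 12, nat_lit 13, nat_lit 14, nat_lit 15, nat_lit 16, nat_lit 17, nat_lit 18, nat_lit 19] [nat_lit 0, nat_lit 1, nat_lit 2, nat_lit 3, nat_lit 4, nat_lit 5, nat_lit 6, nat_lit 7, nat_lit 8, nat_lit 9, nat_lit 10, nat_lit 11, nat_lit 13, nat_lit 14, nat_lit 15, nat_lit 16, nat_lit 17, nat_lit 18, nat_lit 19, nat_lit 20] [nat_lit 0, nat_lit 1, nat_lit 2, nat_lit 3, nat_lit 4, nat_lit 5, nat_lit 6, nat_lit 7, nat_lit 8, nat_lit 9, nat_lit 10, nat_lit 11, nat_lit 0, nat_lit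 12, nat_lit 13, nat_lit 14, nat_lit 15, nat_lit 16, nat_lit 17, nat_lit 18, nat_lit 19] 11 11 12 S98 S97 = true := by decide +kernel

theorem f98 : goOK (.ofNat (nat_lit 1)) S98 S99 = true := by decide +kernel

theorem f99 : goOK (.ofNat (nat_lit 1)) S99 S100 = true := by decide +kernel

end LCA.CapJ


end

section

set_option maxRecDepth 100000

namespace LCA.CapJ

open LCA

theorem f125 : goOK (.ofNat (nat_lit 1)) S125 S126 = true := by decide +kernel

theorem f126 : goOK (.ofNat (nat_lit 1)) S126 S127 = true := by decide +kernel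

theorem f127 : goOK (.ofNat (nat_lit 1)) S127 S128 = true := by decide +kernel

theorem f128 : goOK (.ofNat (nat_lit 1)) S128 S129 = true := by decide +kernel

theorem f129 : goOK (.ofNat (nat_lit 1)) S129 S130 = true := by decide +kernel

theorem f130 : goOK (.ofNat (nat_lit 1)) S130 S131 = true := by decide +kernel

theorem f131 : goOK (.ofNat (nat_lit 1)) S131 S132 = true := by decide +kernel

theorem f132 : inOK 16 16 17 17 [nat_lit 0, nat_lit 1, nat_lit 3, nat_lit 4, nat_lit 5, nat_lit 6, nat_lit 7, nat_lit 8, nat_lit 9, nat_lit 10, nat_lit 11, nat_lit 12, nat_lit 13, nat_lit 14, nat_lit 15, nat_lit 16, nat_lit 17] [nat_lit 0, nat_lit 1, nat_lit 0, nat_lit 2, nat_lit 3, nat_lit 4, nat_lit 5, nat_lit 6, nat_lit 7, nat_lit 8, nat_lit 9, nat_lit 10, nat_lit 11, nat_lit 12, nat_lit 13, nat_lit 14, nat_lit 15, nat_lit 16] [nat_lit 0, nat_lit 1, nat_lit 3, nat_lit 4, nat_lit 5, nat_lit 6, nat_lit 7, nat_lit 8, nat_lit 9, nat_lit 10, nat_lit 11, nat_lit 12, nat_lit 13, nat_lit 14, nat_lit 15, nat_lit 16, nat_lit 17] [nat_lit 0, nat_lit 1,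 nat_lit 0, nat_lit 2, nat_lit 3, nat_lit 4, nat_lit 5, nat_lit 6, nat_lit 7, nat_lit 8, nat_lit 9, nat_lit 10, nat_lit 11, nat_lit 12, nat_lit 13, nat_lit 14, nat_lit 15, nat_lit 16] 1 2 2 S133 S132 = true := by decide +kernel

theorem f133 : inOK 15 15 16 16 [nat_lit 0, nat_lit 1, nat_lit 3, nat_lit 4, nat_lit 5, nat_lit 6, nat_lit 7, nat_lit 8, nat_lit 9, nat_lit 10, nat_lit 11, nat_lit 12, nat_lit 13, nat_lit 14, nat_lit 15, nat_lit 16] [nat_lit 0, nat_lit 1, nat_lit 0, nat_lit 2, nat_lit 3, nat_lit 4, nat_lit 5, nat_lit 6, nat_lit 7, nat_lit 8, nat_lit 9, nat_lit 10, nat_lit 11, nat_lit 12, nat_lit 13, nat_lit 14, nat_lit 15] [nat_lit 0, nat_lit 1, nat_lit 3, nat_lit 4, nat_lit 5, nat_lit 6, nat_lit 7, nat_lit 8, nat_lit 9, nat_lit 10, nat_lit 11, nat_lit 12, nat_lit 13, nat_lit 14, nat_lit 15, nat_lit 16] [nat_lit 0, nat_lit 1, nat_lit 0, nat_lit 2, nat_lit 3, nat_lit 4, nat_lit 5, nat_lit 6, nat_lit 7, nat_lit 8, nat_lit 9, nat_lit 10, nat_lit 11, nat_lit 12, nat_lit 13, nat_lit 14, nat_lit 15] 1 2 2 S134 S133 = true := by decide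 +kernel

theorem f134 : goOK (.ofNat (nat_lit 1)) S134 S135 = true := by decide +kernel

theorem f135 : goOK (.ofNat (nat_lit 1)) S135 S136 = true := by decide +kernel

theorem f136 : goOK (.ofNat (nat_lit 1)) S136 S137 = true := by decide +kernel

theorem f137 : goOK (.ofNat (nat_lit 1)) S137 S138 = true := by decide +kernel

theorem f138 : goOK (.ofNat (nat_lit 1)) S138 S139 = true := by decide +kernel

theorem f139 : goOK (.ofNat (nat_lit 1)) S139 S140 = true := by decide +kernel

theorem f140 : goOK (.ofNat (nat_lit 1)) S140 S141 = true := by decide +kernel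

theorem f141 : goOK (.ofNat (nat_lit 1)) S141 S142 = true := by decide +kernel

theorem f142 : goOK (.ofNat (nat_lit 1)) S142 S143 = true := by decide +kernel

theorem f143 : goOK (.ofNat (nat_lit 1)) S143 S144 = true := by decide +kernel

theorem f144 : goOK (.ofNat (nat_lit 1)) S144 S145 = true := by decide +kernel

theorem f145 : goOK (.ofNat (nat_lit 1)) S145 S146 = true := by decide +kernel

theorem f146 : goOK (.ofNat (nat_lit 1)) S146 S147 = true := by decide +kernel

theorem f147 : goOK (.ofNat (nat_lit 1)) S147 S148 = true := by decide +kernel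

theorem f148 : inOK 14 14 15 15 [nat_lit 0, nat_lit 1, nat_lit 2, nat_lit 3, nat_lit 4, nat_lit 5, nat_lit 6, nat_lit 7, nat_lit 8, nat_lit 9, nat_lit 10, nat_lit 11, nat_lit 12, nat_lit 13, nat_lit 15] [nat_lit 0, nat_lit 1, nat_lit 2, nat_lit 3, nat_lit 4, nat_lit 5, nat_lit 6, nat_lit 7, nat_lit 8, nat_lit 9, nat_lit 10, nat_lit 11, nat_lit 12, nat_lit 13, nat_lit 0, nat_lit 14] [nat_lit 1, nat_lit 2, nat_lit 3, nat_lit 4, nat_lit 5, nat_lit 6, nat_lit 7, nat_lit 8, nat_lit 9, nat_lit 10, nat_lit 11, nat_lit 12, nat_lit 13, nat_lit 14, nat_lit 15] [nat_lit 0, nat_lit 0, nat_lit 1, nat_lit 2, nat_lit 3, nat_lit 4, nat_lit 5, nat_lit 6, nat_lit 7, nat_lit 8, nat_lit 9, nat_lit 10, nat_lit 11, nat_lit 12, nat_lit 13, nat_lit 14] 0 14 0 S149 S148 = true := by decide +kernel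

theorem f149 : inOK 13 13 14 14 [nat_lit 0, nat_lit 1, nat_lit 2, nat_lit 3, nat_lit 4, nat_lit 5, nat_lit 6, nat_lit 7, nat_lit 9, nat_lit 10, nat_lit 11, nat_lit 12, nat_lit 13, nat_lit 14] [nat_lit 0, nat_lit 1, nat_lit 2, nat_lit 3, nat_lit 4, nat_lit 5, nat_lit 6, nat_lit 7, nat_lit 0, nat_lit 8, nat_lit 9, nat_lit 10, nat_lit 11, nat_lit 12, nat_lit 13] [nat_lit 0, nat_lit 1, nat_lit 2, nat_lit 3, nat_lit 4, nat_lit 5, nat_lit 6, nat_lit 8, nat_lit 9, nat_lit 10, nat_lit 11, nat_lit 12, nat_lit 13, nat_lit 14] [nat_lit 0, nat_lit 1, nat_lit 2, nat_lit 3, nat_lit 4, nat_lit 5, nat_lit 6, nat_lit 0, nat_lit 7, nat_lit 8, nat_lit 9, nat_lit 10, nat_lit 11, nat_lit 12, nat_lit 13] 0 8 7 S150 S149 = true := by decide +kernel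

end LCA.CapJ


end

section

set_option maxRecDepth 100000

namespace LCA.CapJ

open LCA

theorem f150 : goOK (.ofNat (nat_lit 1)) S150 S151 = true := by decide +kernel

theorem f151 : goOK (.ofNat (nat_lit 1)) S151 S152 = true := by decide +kernel

theorem f152 : goOK (.ofNat (nat_lit 1)) S152 S153 = true := by decide +kernel

theorem f153 : goOK (.ofNat (nat_lit 1)) S153 S154 = true := by decide +kernel

theorem f154 : goOK (.ofNat (nat_lit 1)) S154 S155 = true := by decide +kernel

theorem f155 : goOK (.ofNat (nat_lit 1)) S155 S156 = true := by decide +kernel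

theorem f156 : inOK 12 12 13 13 [nat_lit 0, nat_lit 1, nat_lit 2, nat_lit 3, nat_lit 4, nat_lit 5, nat_lit 7, nat_lit 8, nat_lit 9, nat_lit 10, nat_lit 11, nat_lit 12, nat_lit 13] [nat_lit 0, nat_lit 1, nat_lit 2, nat_lit 3, nat_lit 4, nat_lit 5, nat_lit 0, nat_lit 6, nat_lit 7, nat_lit 8, nat_lit 9, nat_lit 10, nat_lit 11, nat_lit 12] [nat_lit 0, nat_lit 1, nat_lit 2, nat_lit 3, nat_lit 5, nat_lit 6, nat_lit 7, nat_lit 8, nat_lit 9, nat_lit 10, nat_lit 11, nat_lit 12, nat_lit 13] [nat_lit 0, nat_lit 1, nat_lit 2, nat_lit 3, nat_lit 0, nat_lit 4, nat_lit 5, nat_lit 6, nat_lit 7, nat_lit 8, nat_lit 9, nat_lit 10, nat_lit 11, nat_lit 12] 5 6 4 S157 S156 = true := by decide +kernel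

theorem f157 : inOK 11 11 12 12 [nat_lit 0, nat_lit 1, nat_lit 2, nat_lit 3, nat_lit 4, nat_lit 5, nat_lit 7, nat_lit 8, nat_lit 9, nat_lit 10, nat_lit 11, nat_lit 12] [nat_lit 0, nat_lit 1, nat_lit 2, nat_lit 3, nat_lit 4, nat_lit 5, nat_lit 0, nat_lit 6, nat_lit 7, nat_lit 8, nat_lit 9, nat_lit 10, nat_lit 11] [nat_lit 0, nat_lit 1, nat_lit 2, nat_lit 3, nat_lit 5, nat_lit 6, nat_lit 7, nat_lit 8, nat_lit 9, nat_lit 10, nat_lit 11, nat_lit 12] [nat_lit 0, nat_lit 1, nat_lit 2, nat_lit 3, nat_lit 0, nat_lit 4, nat_lit 5, nat_lit 6, nat_lit 7, nat_lit 8, nat_lit 9, nat_lit 10, nat_lit 11] 5 6 4 S158 S157 = true := by decide +kernel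

theorem f158 : goOK (.ofNat (nat_lit 1)) S158 S159 = true := by decide +kernel

theorem f159 : goOK (.ofNat (nat_lit 1)) S159 S160 = true := by decide +kernel

theorem f160 : goOK (.ofNat (nat_lit 1)) S160 S161 = true := by decide +kernel

theorem f161 : sdOK 11 11 5 0 6 1 10 0 ⟨(.negSucc (nat_lit 21674270271)), (.ofNat (nat_lit 1206125271791823395620529494945920)), (.ofNat (nat_lit 23563982625788960365892075520)), (.ofNat (nat_lit 0)), (.ofNat (nat_lit 0)), (.ofNat (nat_lit 11236182511229019339510)), (.ofNat (nat_lit 2097152)), (.ofNat (nat_lit 8))⟩ S161 S162 S163 S164 = true := by decide +kernel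

theorem f162 : goOK (.ofNat (nat_lit 1)) S162 S165 = true := by decide +kernel

theorem f163 : goOK (.ofNat (nat_lit 1)) S165 S166 = true := by decide +kernel

theorem f164 : goOK (.ofNat (nat_lit 1)) S166 S167 = true := by decide +kernel

theorem f165 : goOK (.ofNat (nat_lit 1)) S167 S168 = true := by decide +kernel

theorem f166 : goOK (.ofNat (nat_lit 1)) S168 S169 = true := by decide +kernel

theorem f167 : goOK (.ofNat (nat_lit 1)) S169 S170 = true := by decide +kernel

theorem f168 : goOK (.ofNat (nat_lit 1)) S170 S171 = true := by decide +kernel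

theorem f169 : inOK 10 10 11 11 [nat_lit 0, nat_lit 1, nat_lit 2, nat_lit 3, nat_lit 4, nat_lit 5, nat_lit 7, nat_lit 8, nat_lit 9, nat_lit 10, nat_lit 11] [nat_lit 0, nat_lit 1, nat_lit 2, nat_lit 3, nat_lit 4, nat_lit 5, nat_lit 0, nat_lit 6, nat_lit 7, nat_lit 8, nat_lit 9, nat_lit 10] [nat_lit 0, nat_lit 1, nat_lit 2, nat_lit 3, nat_lit 4, nat_lit 5, nat_lit 7, nat_lit 8, nat_lit 9, nat_lit 10, nat_lit 11] [nat_lit 0, nat_lit 1, nat_lit 2, nat_lit 3, nat_lit 4, nat_lit 5, nat_lit 0, nat_lit 6, nat_lit 7, nat_lit 8, nat_lit 9, nat_lit 10] 4 6 6 S172 S171 = true := by decide +kernel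

theorem f170 : inOK 9 9 10 10 [nat_lit 1, nat_lit 2, nat_lit 3, nat_lit 4, nat_lit 5, nat_lit 6, nat_lit 7, nat_lit 8, nat_lit 9, nat_lit 10] [nat_lit 0, nat_lit 0, nat_lit 1, nat_lit 2, nat_lit 3, nat_lit 4, nat_lit 5, nat_lit 6, nat_lit 7, nat_lit 8, nat_lit 9] [nat_lit 0, nat_lit 1, nat_lit 2, nat_lit 3, nat_lit 4, nat_lit 6, nat_lit 7, nat_lit 8, nat_lit 9, nat_lit 10] [nat_lit 0, nat_lit 1, nat_lit 2, nat_lit 3, nat_lit 4, nat_lit 0, nat_lit 5, nat_lit 6, nat_lit 7, nat_lit 8, nat_lit 9] 3 0 5 S173 S172 = true := by decide +kernel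

theorem f171 : goOK (.ofNat (nat_lit 1)) S173 S174 = true := by decide +kernel

theorem f172 : goOK (.ofNat (nat_lit 1)) S174 S175 = true := by decide +kernel

theorem f173 : goOK (.ofNat (nat_lit 1)) S175 S176 = true := by decide +kernel

theorem f174 : goOK (.ofNat (nat_lit 1)) S176 S177 = true := by decide +kernel

end LCA.CapJ


end

section

set_option maxRecDepth 100000

namespace LCA.CapJ

open LCA

theorem f175 : inOK 8 8 9 9 [nat_lit 0, nat_lit 1, nat_lit 2, nat_lit 3, nat_lit 4, nat_lit 5, nat_lit 6, nat_lit 7, nat_lit 9] [nat_lit 0, nat_lit 1, nat_lit 2, nat_lit 3, nat_lit 4, nat_lit 5, nat_lit 6, nat_lit 7, nat_lit 0, nat_lit 8] [nat_lit 0, nat_lit 1, nat_lit 2, nat_lit 3, nat_lit 4, nat_lit 5, nat_lit 6, nat_lit 7, nat_lit 9] [nat_lit 0, nat_lit 1, nat_lit 2, nat_lit 3, nat_lit 4, nat_lit 5, nat_lit 6, nat_lit 7, nat_lit 0, nat_lit 8] 7 8 8 S178 S177 = true := by decide +kernel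

theorem f176 : inOK 7 7 8 8 [nat_lit 1, nat_lit 2, nat_lit 3, nat_lit 4, nat_lit 5, nat_lit 6, nat_lit 7, nat_lit 8] [nat_lit 0, nat_lit 0, nat_lit 1, nat_lit 2, nat_lit 3, nat_lit 4, nat_lit 5, nat_lit 6, nat_lit 7] [nat_lit 1, nat_lit 2, nat_lit 3, nat_lit 4, nat_lit 5, nat_lit 6, nat_lit 7, nat_lit 8] [nat_lit 0, nat_lit 0, nat_lit 1, nat_lit 2, nat_lit 3, nat_lit 4, nat_lit 5, nat_lit 6, nat_lit 7] 6 0 0 S179 S178 = true := by decide +kernel

theorem f177 : goOK (.ofNat (nat_lit 1)) S179 S180 = true := by decide +kernel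

theorem f178 : goOK (.ofNat (nat_lit 1)) S180 S181 = true := by decide +kernel

theorem f179 : goOK (.ofNat (nat_lit 1)) S181 S182 = true := by decide +kernel

theorem f180 : goOK (.ofNat (nat_lit 1)) S183 S184 = true := by decide +kernel

theorem f181 : mvOK (.ofNat (nat_lit 1)) S183 S184 = true := by decide +kernel

theorem f182 : wdOK S183 S182 = true := by decide +kernel

theorem f183 : goOK (.ofNat (nat_lit 1)) S184 S185 = true := by decide +kernel

theorem f184 : swOK 7 2 S185 S186 = true := by decide +kernel

theorem f185 : swOK 7 6 S186 S187 = true := by decide +kernel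

theorem f186 : swOK 7 5 S187 S188 = true := by decide +kernel

theorem f187 : goOK (.ofNat (nat_lit 32)) S188 S189 = true := by decide +kernel

theorem f188 : inOK 7 7 8 8 [nat_lit 0, nat_lit 1, nat_lit 2, nat_lit 3, nat_lit 4, nat_lit 5, nat_lit 6, nat_lit 7] [nat_lit 0, nat_lit 1, nat_lit 2, nat_lit 3, nat_lit 4, nat_lit 5, nat_lit 6, nat_lit 7, nat_lit 0] [nat_lit 0, nat_lit 1, nat_lit 2, nat_lit 3, nat_lit 4, nat_lit 5, nat_lit 6, nat_lit 7] [nat_lit 0, nat_lit 1, nat_lit 2, nat_lit 3, nat_lit 4, nat_lit 5, nat_lit 6, nat_lit 7, nat_lit 0] 1 8 8 S189 S190 = true := by decide +kernel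

theorem f189 : goOK (.ofNat (nat_lit 32)) S190 S191 = true := by decide +kernel

theorem f190 : goOK (.ofNat (nat_lit 64)) S191 S192 = true := by decide +kernel

theorem f191 : goOK (.ofNat (nat_lit 1)) S192 S193 = true := by decide +kernel

theorem f192 : inOK 7 7 8 8 [nat_lit 1, nat_lit 2, nat_lit 3, nat_lit 4, nat_lit 5, nat_lit 6, nat_lit 7, nat_lit 8] [nat_lit 0, nat_lit 0, nat_lit 1, nat_lit 2, nat_lit 3, nat_lit 4, nat_lit 5, nat_lit 6, nat_lit 7] [nat_lit 0, nat_lit 2, nat_lit 3, nat_lit 4, nat_lit 5, nat_lit 6, nat_lit 7, nat_lit 8] [nat_lit 0, nat_lit 0, nat_lit 1, nat_lit 2, nat_lit 3, nat_lit 4, nat_lit 5, nat_lit 6, nat_lit 7] 7 0 1 S194 S193 = true := by decide +kernel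

theorem f193 : inOK 6 6 7 7 [nat_lit 0, nat_lit 1, nat_lit 2, nat_lit 4, nat_lit 5, nat_lit 6, nat_lit 7] [nat_lit 0, nat_lit 1, nat_lit 2, nat_lit 0, nat_lit 3, nat_lit 4, nat_lit 5, nat_lit 6] [nat_lit 0, nat_lit 1, nat_lit 2, nat_lit 4, nat_lit 5, nat_lit 6, nat_lit 7] [nat_lit 0, nat_lit 1, nat_lit 2, nat_lit 0, nat_lit 3, nat_lit 4, nat_lit 5, nat_lit 6] 5 3 3 S195 S194 = true := by decide +kernel

theorem f194 : goOK (.ofNat (nat_lit 63)) S195 S196 = true := by decide +kernel

theorem f195 : goOK (.ofNat (nat_lit 64)) S196 S197 = true := by decide +kernel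

theorem f196 : goOK (.ofNat (nat_lit 32)) S197 S198 = true := by decide +kernel

theorem f197 : inOK 6 6 7 7 [nat_lit 0, nat_lit 1, nat_lit 2, nat_lit 3, nat_lit 4, nat_lit 5, nat_lit 6] [nat_lit 0, nat_lit 1, nat_lit 2, nat_lit 3, nat_lit 4, nat_lit 5, nat_lit 6, nat_lit 0] [nat_lit 0, nat_lit 1, nat_lit 2, nat_lit 3, nat_lit 4, nat_lit 5, nat_lit 6] [nat_lit 0, nat_lit 1, nat_lit 2, nat_lit 3, nat_lit 4, nat_lit 5, nat_lit 6, nat_lit 0] 2 7 7 S198 S199 = true := by decide +kernel

theorem f198 : goOK (.ofNat (nat_lit 32)) S199 S200 = true := by decide +kernel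

theorem f199 : goOK (.ofNat (nat_lit 64)) S200 S201 = true := by decide +kernel

end LCA.CapJ


end

section

set_option maxRecDepth 100000

namespace LCA.CapJ

open LCA

def S225 : SD where
  vs := [
    ⟨nat_lit 1, nat_lit 3, nat_lit 4, (.ofNat (nat_lit 16)), (.ofNat (nat_lit 274877906944000)), (.ofNat (nat_lit 40038015535211920379453781538870006317896102313984000000)), (.ofNat (nat_lit 0)), (.ofNat (nat_lit 0)), (.ofNat (nat_lit 274877906943968)), (.ofNat (nat_lit 274877906944032)), (.negSucc (nat_lit 471294568123434789904310731850907647999999)), (.negSucc (nat_lit 483109066668628536160833811765002239999999)), (.negSucc (nat_lit 483109066668628536160833811765002239999999)), (.negSucc (nat_lit 471294568123434789904310731850907647999999)), (.ofNat (nat_lit 34185470327528200973735763640320000000))⟩,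
    ⟨nat_lit 2, nat_lit 0, nat_lit 1, (.ofNat (nat_lit 16)), (.negSucc (nat_lit 549755813887999)), (.ofNat (nat_lit 120279437284502097135725017355140140065026473984000000)), (.ofNat (nat_lit 0)), (.ofNat (nat_lit 0)), (.negSucc (nat_lit 549755813888031)), (.negSucc (nat_lit 549755813887967)), (.ofNat (nat_lit 1111438011288596870058097147474083840000000)), (.ofNat (nat_lit 0)), (.ofNat (nat_lit 0)), (.ofNat (nat_lit 1111438011288596870058097147474083840000000)), (.ofNat (nat_lit 136741881310112803894943054561280000000))⟩,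
    ⟨nat_lit 1, nat_lit 5, nat_lit 7, (.ofNat (nat_lit 16)), (.ofNat (nat_lit 1099511627776000)), (.ofNat (nat_lit 67927808552784561024915173195144988148358115753984000000)), (.ofNat (nat_lit 0)), (.ofNat (nat_lit 0)), (.ofNat (nat_lit 1099511627775968)), (.ofNat (nat_lit 1099511627776032)), (.ofNat (nat_lit 1111438011288596870058097147474083840000000)), (.ofNat (nat_lit 0)), (.ofNat (nat_lit 0)), (.ofNat (nat_lit 1111438011288596870058097147474083840000000)), (.ofNat (nat_lit 136741881310112803894943054561280000000))⟩,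
    ⟨nat_lit 2, nat_lit 3, nat_lit 2, (.ofNat (nat_lit 16)), (.ofNat (nat_lit 0)), (.ofNat (nat_lit 169586479975058097264423097553044335666778010025984000000)), (.ofNat (nat_lit 0)), (.ofNat (nat_lit 4228573739187226512957421241685896840871936000000000)), (.negSucc (nat_lit 31)), (.ofNat (nat_lit 32)), (.negSucc (nat_lit 471294568123434789904310731850907647999999)), (.negSucc (nat_lit 493756701159975986490786710946840575999999)), (.negSucc (nat_lit 493756701159975986490786710946840575999999)), (.negSucc (nat_lit 471294568123434789904310731850907647999999)), (.ofNat (nat_lit 33045954649943927607944571518976000000))⟩,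
    ⟨nat_lit 0, nat_lit 0, nat_lit 4, (.ofNat (nat_lit 16)), (.negSucc (nat_lit 274877906943999)), (.ofNat (nat_lit 305630033678295854073295012594448202563239211433984000000)), (.ofNat (nat_lit 0)), (.ofNat (nat_lit 9396830531527170028794269425968659646382080000000000)), (.negSucc (nat_lit 274877906944031)), (.negSucc (nat_lit 274877906943967)), (.ofNat (nat_lit 1111438011288596870058097147474083840000000)), (.negSucc (nat_lit 483109066668628536160833811765002239999999)), (.negSucc (nat_lit 483109066668628536160833811765002239999999)), (.ofNat (nat_lit 1111438011288596870058097147474083840000000)), (.ofNat (nat_lit 170927351637641004868678818201600000000))⟩,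
    ⟨nat_lit 0, nat_lit 2, nat_lit 5, (.ofNat (nat_lit 16)), (.ofNat (nat_lit 824633720832000)), (.negSucc (nat_lit 237581945688226790951244114381948074274816069206015999999)), (.ofNat (nat_lit 0)), (.negSucc (nat_lit 9396830531527170028794269425968659646382079999999999)), (.ofNat (nat_lit 824633720831968)), (.ofNat (nat_lit 824633720832032)), (.negSucc (nat_lit 493756701159975986490786710946840575999999)), (.ofNat (nat_lit 1111438011288596870058097147474083840000000)), (.negSucc (nat_lit 493756701159975986490786710946840575999999)), (.ofNat (nat_lit 1111438011288596870058097147474083840000000)), (.ofNat (nat_lit 134462849954944257163360670318592000000))⟩,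
    ⟨nat_lit 0, nat_lit 1, nat_lit 6, (.ofNat (nat_lit 128)), (.negSucc (nat_lit 219902325555199)), (.ofNat (nat_lit 120279437284502097135725017355140140065026473984000000)), (.ofNat (nat_lit 0)), (.ofNat (nat_lit 0)), (.negSucc (nat_lit 219902325555455)), (.negSucc (nat_lit 219902325554943)), (.ofNat (nat_lit 0)), (.ofNat (nat_lit 2187870100961804862319088872980480000000000)), (.ofNat (nat_lit 0)), (.ofNat (nat_lit 2187870100961804862319088872980480000000000)), (.ofNat (nat_lit 0))⟩,
    ⟨nat_lit 1, nat_lit 12, nat_lit 11, (.ofNat (nat_lit 16)), (.ofNat (nat_lit 2199023255552000)), (.ofNat (nat_lit 5292415234793386662314068265722904252982452482473984000000)), (.ofNat (nat_lit 0)), (.ofNat (nat_lit 0)), (.ofNat (nat_lit 2199023255551968)), (.ofNat (nat_lit 2199023255552032)), (.ofNat (nat_lit 2187870100961804862319088872980480000000000)), (.ofNat (nat_lit 2165991399952186813695897984250675200000000)), (.ofNat (nat_lit 2165991399952186813695897984250675200000000)), (.ofNat (nat_lit 2187870100961804862319088872980480000000000)), (.ofNat (nat_lit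 0))⟩,
    ⟨nat_lit 2, nat_lit 8, nat_lit 7, (.ofNat (nat_lit 16)), (.negSucc (nat_lit 213030377881599)), (.ofNat (nat_lit 67927808552784561024915173195144988148358115753984000000)), (.ofNat (nat_lit 0)), (.ofNat (nat_lit 0)), (.negSucc (nat_lit 213030377881631)), (.negSucc (nat_lit 213030377881567)), (.ofNat (nat_lit 2165991399952186813695897984250675200000000)), (.ofNat (nat_lit 0)), (.ofNat (nat_lit 0)), (.ofNat (nat_lit 2165991399952186813695897984250675200000000)), (.ofNat (nat_lit 0))⟩,
    ⟨nat_lit 0, nat_lit 8, nat_lit 9, (.ofNat (nat_lit 16)), (.ofNat (nat_lit 1374389534720000)), (.ofNat (nat_lit 3506265687360702183240853533234781427398146716073984000000)), (.ofNat (nat_lit 0)), (.ofNat (nat_lit 0)), (.ofNat (nat_lit 1374389534719968)), (.ofNat (nat_lit 1374389534720032)), (.ofNat (nat_lit 2165991399952186813695897984250675200000000)), (.ofNat (nat_lit 2165991399952186813695897984250675200000000)), (.ofNat (nat_lit 2165991399952186813695897984250675200000000)), (.ofNat (nat_lit 2165991399952186813695897984250675200000000)), (.ofNat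 (nat_lit 0))⟩,
    ⟨nat_lit 0, nat_lit 9, nat_lit 10, (.ofNat (nat_lit 16)), (.ofNat (nat_lit 1429365116108800)), (.ofNat (nat_lit 3625342323856214481845734515400656282437100433833984000000)), (.ofNat (nat_lit 0)), (.ofNat (nat_lit 0)), (.ofNat (nat_lit 1429365116108768)), (.ofNat (nat_lit 1429365116108832)), (.ofNat (nat_lit 2165991399952186813695897984250675200000000)), (.ofNat (nat_lit 2165991399952186813695897984250675200000000)), (.ofNat (nat_lit 2165991399952186813695897984250675200000000)), (.ofNat (nat_lit 2165991399952186813695897984250675200000000)), (.ofNat (nat_lit 0))⟩,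
    ⟨nat_lit 0, nat_lit 10, nat_lit 11, (.ofNat (nat_lit 16)), (.ofNat (nat_lit 1649267441664000)), (.ofNat (nat_lit 4101648869838263676265258444064155702592915304873984000000)), (.ofNat (nat_lit 0)), (.ofNat (nat_lit 0)), (.ofNat (nat_lit 1649267441663968)), (.ofNat (nat_lit 1649267441664032)), (.ofNat (nat_lit 2165991399952186813695897984250675200000000)), (.ofNat (nat_lit 2165991399952186813695897984250675200000000)), (.ofNat (nat_lit 2165991399952186813695897984250675200000000)), (.ofNat (nat_lit 2165991399952186813695897984250675200000000)), (.ofNat (nat_lit 0))⟩,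
    ⟨nat_lit 0, nat_lit 6, nat_lit 12, (.ofNat (nat_lit 16)), (.ofNat (nat_lit 1374389534720000)), (.ofNat (nat_lit 3488223772740170016785568535936921600877093122473984000000)), (.ofNat (nat_lit 0)), (.ofNat (nat_lit 0)), (.ofNat (nat_lit 1374389534719968)), (.ofNat (nat_lit 1374389534720032)), (.ofNat (nat_lit 2187870100961804862319088872980480000000000)), (.ofNat (nat_lit 2187870100961804862319088872980480000000000)), (.ofNat (nat_lit 2187870100961804862319088872980480000000000)), (.ofNat (nat_lit 2187870100961804862319088872980480000000000)), (.ofNat (nat_lit 0))⟩]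
  es := [
    ⟨nat_lit 1, nat_lit 4, (.negSucc (nat_lit 549755813887999)), (.negSucc (nat_lit 274877906943999)), (.negSucc (nat_lit 549755813887967)), (.negSucc (nat_lit 274877906944031)), (.ofNat (nat_lit 1111438011288596870058097147474083840000000)), (.ofNat (nat_lit 34185470327528200973735763640320000000)), (.ofNat (nat_lit 18793661063054340057588538851937319292764160000000000))⟩,
    ⟨nat_lit 1, nat_lit 6, (.negSucc (nat_lit 549755813887999)), (.negSucc (nat_lit 219902325555199)), (.negSucc (nat_lit 549755813887967)), (.negSucc (nat_lit 219902325555455)), (.ofNat (nat_lit 0)), (.ofNat (nat_lit 0)), (.ofNat (nat_lit 0))⟩,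
    ⟨nat_lit 3, nat_lit 5, (.ofNat (nat_lit 0)), (.ofNat (nat_lit 824633720832000)), (.ofNat (nat_lit 32)), (.ofNat (nat_lit 824633720831968)), (.negSucc (nat_lit 493756701159975986490786710946840575999999)), (.negSucc (nat_lit 16522977324971963803972285759487999999)), (.ofNat (nat_lit 4228573739187226512957421241685896840871936000000000))⟩,
    ⟨nat_lit 3, nat_lit 0, (.ofNat (nat_lit 0)), (.ofNat (nat_lit 274877906944000)), (.ofNat (nat_lit 32)), (.ofNat (nat_lit 274877906943968)), (.negSucc (nat_lit 471294568123434789904310731850907647999999)), (.negSucc (nat_lit 15383461647387690438181093638143999999)), (.ofNat (nat_lit 4228573739187226512957421241685896840871936000000000))⟩,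
    ⟨nat_lit 4, nat_lit 0, (.negSucc (nat_lit 274877906943999)), (.ofNat (nat_lit 274877906944000)), (.negSucc (nat_lit 274877906943967)), (.ofNat (nat_lit 274877906943968)), (.negSucc (nat_lit 483109066668628536160833811765002239999999)), (.negSucc (nat_lit 17092735163764100486867881820159999999)), (.ofNat (nat_lit 4698415265763585014397134712984329823191040000000000))⟩,
    ⟨nat_lit 5, nat_lit 2, (.ofNat (nat_lit 824633720832000)), (.ofNat (nat_lit 1099511627776000)), (.ofNat (nat_lit 824633720832032)), (.ofNat (nat_lit 1099511627775968)), (.ofNat (nat_lit 1111438011288596870058097147474083840000000)), (.ofNat (nat_lit 34185470327528200973735763640320000000)), (.negSucc (nat_lit 37587322126108680115177077703874638585528319999999999))⟩,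
    ⟨nat_lit 6, nat_lit 12, (.negSucc (nat_lit 219902325555199)), (.ofNat (nat_lit 1374389534720000)), (.negSucc (nat_lit 219902325554943)), (.ofNat (nat_lit 1374389534719968)), (.ofNat (nat_lit 2187870100961804862319088872980480000000000)), (.ofNat (nat_lit 0)), (.ofNat (nat_lit 0))⟩,
    ⟨nat_lit 8, nat_lit 2, (.negSucc (nat_lit 213030377881599)), (.ofNat (nat_lit 1099511627776000)), (.negSucc (nat_lit 213030377881567)), (.ofNat (nat_lit 1099511627775968)), (.ofNat (nat_lit 0)), (.ofNat (nat_lit 0)), (.ofNat (nat_lit 0))⟩,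
    ⟨nat_lit 8, nat_lit 9, (.negSucc (nat_lit 213030377881599)), (.ofNat (nat_lit 1374389534720000)), (.negSucc (nat_lit 213030377881567)), (.ofNat (nat_lit 1374389534719968)), (.ofNat (nat_lit 2165991399952186813695897984250675200000000)), (.ofNat (nat_lit 0)), (.ofNat (nat_lit 0))⟩,
    ⟨nat_lit 9, nat_lit 10, (.ofNat (nat_lit 1374389534720000)), (.ofNat (nat_lit 1429365116108800)), (.ofNat (nat_lit 1374389534720032)), (.ofNat (nat_lit 1429365116108768)), (.ofNat (nat_lit 2165991399952186813695897984250675200000000)), (.ofNat (nat_lit 0)), (.ofNat (nat_lit 0))⟩,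
    ⟨nat_lit 10, nat_lit 11, (.ofNat (nat_lit 1429365116108800)), (.ofNat (nat_lit 1649267441664000)), (.ofNat (nat_lit 1429365116108832)), (.ofNat (nat_lit 1649267441663968)), (.ofNat (nat_lit 2165991399952186813695897984250675200000000)), (.ofNat (nat_lit 0)), (.ofNat (nat_lit 0))⟩,
    ⟨nat_lit 11, nat_lit 7, (.ofNat (nat_lit 1649267441664000)), (.ofNat (nat_lit 2199023255552000)), (.ofNat (nat_lit 1649267441664032)), (.ofNat (nat_lit 2199023255551968)), (.ofNat (nat_lit 2165991399952186813695897984250675200000000)), (.ofNat (nat_lit 0)), (.ofNat (nat_lit 0))⟩,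
    ⟨nat_lit 12, nat_lit 7, (.ofNat (nat_lit 1374389534720000)), (.ofNat (nat_lit 2199023255552000)), (.ofNat (nat_lit 1374389534720032)), (.ofNat (nat_lit 2199023255551968)), (.ofNat (nat_lit 2187870100961804862319088872980480000000000)), (.ofNat (nat_lit 0)), (.ofNat (nat_lit 0))⟩]

theorem ok225 : stOK 12 12 S225 = true := by decide +kernel

def S226 : SD where
  vs := [
    ⟨nat_lit 1, nat_lit 3, nat_lit 4, (.ofNat (nat_lit 16)), (.ofNat (nat_lit 274877906944000)), (.ofNat (nat_lit 207602297573404416332913193942743145132181352873984000000)), (.ofNat (nat_lit 0)), (.ofNat (nat_lit 2618191906846757749272803318810517793973207040000000000)), (.ofNat (nat_lit 274877906943968)), (.ofNat (nat_lit 274877906944032)), (.negSucc (nat_lit 167481456228626162210526253226655743999999)), (.negSucc (nat_lit 179405348278867998710165287584399359999999)), (.negSucc (nat_lit 179405348278867998710165287584399359999999)), (.negSucc (nat_lit 167481456228626162210526253226655743999999)), (.ofNat (nat_lit 9497578293745522435528138533371904000000))⟩,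
    ⟨nat_lit 2, nat_lit 0, nat_lit 1, (.ofNat (nat_lit 16)), (.negSucc (nat_lit 549755813887999)), (.ofNat (nat_lit 120279437284502097135725017355140140065026473984000000)), (.ofNat (nat_lit 0)), (.ofNat (nat_lit 0)), (.negSucc (nat_lit 549755813888031)), (.negSucc (nat_lit 549755813887967)), (.ofNat (nat_lit 1113625881389558674920416236347064320000000)), (.ofNat (nat_lit 0)), (.ofNat (nat_lit 0)), (.ofNat (nat_lit 1113625881389558674920416236347064320000000)), (.ofNat (nat_lit 136741881310112803894943054561280000000))⟩,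
    ⟨nat_lit 1, nat_lit 5, nat_lit 7, (.ofNat (nat_lit 16)), (.ofNat (nat_lit 1099511627776000)), (.ofNat (nat_lit 403056372629169552931833998002891265776928616873984000000)), (.ofNat (nat_lit 0)), (.ofNat (nat_lit 5236383813693515498545606637621035587946414080000000000)), (.ofNat (nat_lit 1099511627775968)), (.ofNat (nat_lit 1099511627776032)), (.ofNat (nat_lit 1113625881389558674920416236347064320000000)), (.ofNat (nat_lit 0)), (.ofNat (nat_lit 0)), (.ofNat (nat_lit 1113625881389558674920416236347064320000000)), (.ofNat (nat_lit 136741881310112803894943054561280000000))⟩,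
    ⟨nat_lit 2, nat_lit 3, nat_lit 2, (.ofNat (nat_lit 16)), (.ofNat (nat_lit 0)), (.ofNat (nat_lit 253639249713462327737982078714448802471736439209984000000)), (.ofNat (nat_lit 0)), (.ofNat (nat_lit 1313324527162566101149359080646944793827475456000000000)), (.negSucc (nat_lit 31)), (.ofNat (nat_lit 32)), (.negSucc (nat_lit 167481456228626162210526253226655743999999)), (.negSucc (nat_lit 190016518268532752292412868618354687999999)), (.negSucc (nat_lit 190016518268532752292412868618354687999999)), (.negSucc (nat_lit 167481456228626162210526253226655743999999)), (.ofNat (nat_lit 9496438778067938162162347341250560000000))⟩,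
    ⟨nat_lit 0, nat_lit 0, nat_lit 4, (.ofNat (nat_lit 16)), (.negSucc (nat_lit 274877906943999)), (.ofNat (nat_lit 306231430832313592955137845837710196780607664553984000000)), (.ofNat (nat_lit 0)), (.ofNat (nat_lit 9396830531527170028794269425968659646382080000000000)), (.negSucc (nat_lit 274877906944031)), (.negSucc (nat_lit 274877906943967)), (.ofNat (nat_lit 1113625881389558674920416236347064320000000)), (.negSucc (nat_lit 179405348278867998710165287584399359999999)), (.negSucc (nat_lit 179405348278867998710165287584399359999999)), (.ofNat (nat_lit 1113625881389558674920416236347064320000000)), (.ofNat (nat_lit 9490741199680016795333391380643840000000))⟩,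
    ⟨nat_lit 0, nat_lit 2, nat_lit 5, (.ofNat (nat_lit 16)), (.ofNat (nat_lit 824633720832000)), (.ofNat (nat_lit 96945221234140462073831877182536209136385978793984000000)), (.ofNat (nat_lit 0)), (.ofNat (nat_lit 5226986983161988328516812368195066928300032000000000000)), (.ofNat (nat_lit 824633720831968)), (.ofNat (nat_lit 824633720832032)), (.negSucc (nat_lit 190016518268532752292412868618354687999999)), (.ofNat (nat_lit 1113625881389558674920416236347064320000000)), (.negSucc (nat_lit 190016518268532752292412868618354687999999)), (.ofNat (nat_lit 1113625881389558674920416236347064320000000)), (.ofNat (nat_lit 18915390490060145735450893618249728000000))⟩,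
    ⟨nat_lit 0, nat_lit 1, nat_lit 6, (.ofNat (nat_lit 128)), (.negSucc (nat_lit 219902325555199)), (.ofNat (nat_lit 120279437284502097135725017355140140065026473984000000)), (.ofNat (nat_lit 0)), (.ofNat (nat_lit 0)), (.negSucc (nat_lit 219902325555455)), (.negSucc (nat_lit 219902325554943)), (.ofNat (nat_lit 0)), (.ofNat (nat_lit 2187870100961804862319088872980480000000000)), (.ofNat (nat_lit 0)), (.ofNat (nat_lit 2187870100961804862319088872980480000000000)), (.ofNat (nat_lit 0))⟩,
    ⟨nat_lit 1, nat_lit 12, nat_lit 11, (.ofNat (nat_lit 16)), (.ofNat (nat_lit 2199023255552000)), (.ofNat (nat_lit 5292415234793386662314068265722904252982452482473984000000)), (.ofNat (nat_lit 0)), (.ofNat (nat_lit 0)), (.ofNat (nat_lit 2199023255551968)), (.ofNat (nat_lit 2199023255552032)), (.ofNat (nat_lit 2187870100961804862319088872980480000000000)), (.ofNat (nat_lit 1504160694411240842844373600174080000000000)), (.ofNat (nat_lit 1504160694411240842844373600174080000000000)), (.ofNat (nat_lit 2187870100961804862319088872980480000000000)), (.ofNat (nat_lit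 20682209548154561589110137002393600000000))⟩,
    ⟨nat_lit 2, nat_lit 8, nat_lit 7, (.ofNat (nat_lit 16)), (.negSucc (nat_lit 213030377881599)), (.ofNat (nat_lit 403056372629169552931833998002891265776928616873984000000)), (.ofNat (nat_lit 0)), (.ofNat (nat_lit 5236383813693515498545606637621035587946414080000000000)), (.negSucc (nat_lit 213030377881631)), (.negSucc (nat_lit 213030377881567)), (.ofNat (nat_lit 2182187321478787187352026304479232000000000)), (.ofNat (nat_lit 0)), (.ofNat (nat_lit 0)), (.ofNat (nat_lit 2182187321478787187352026304479232000000000)), (.ofNat (nat_lit 1012245095412523353508020014284800000000))⟩,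
    ⟨nat_lit 0, nat_lit 8, nat_lit 9, (.ofNat (nat_lit 16)), (.ofNat (nat_lit 1374389534720000)), (.ofNat (nat_lit 3867103979771345512346553479191977957819218588073984000000)), (.ofNat (nat_lit 0)), (.ofNat (nat_lit 5638098318916302017276561655581195787829248000000000000)), (.ofNat (nat_lit 1374389534719968)), (.ofNat (nat_lit 1374389534720032)), (.ofNat (nat_lit 2182187321478787187352026304479232000000000)), (.ofNat (nat_lit 2176930750456995838007493428615577600000000)), (.ofNat (nat_lit 2176930750456995838007493428615577600000000)), (.ofNat (nat_lit 2182187321478787187352026304479232000000000)), (.ofNat (nat_lit 670390392137241343770662377881600000000))⟩,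
    ⟨nat_lit 0, nat_lit 9, nat_lit 10, (.ofNat (nat_lit 16)), (.ofNat (nat_lit 1429365116108800)), (.ofNat (nat_lit 3986782013420875549833277294601114807075540758953984000000)), (.ofNat (nat_lit 0)), (.ofNat (nat_lit 5647495149447829187305355925007164447475630080000000000)), (.ofNat (nat_lit 1429365116108768)), (.ofNat (nat_lit 1429365116108832)), (.ofNat (nat_lit 2176930750456995838007493428615577600000000)), (.ofNat (nat_lit 2176930750456995838007493428615577600000000)), (.ofNat (nat_lit 2176930750456995838007493428615577600000000)), (.ofNat (nat_lit 2176930750456995838007493428615577600000000)), (.ofNat (nat_lit 341854703275282009737357636403200000000))⟩,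
    ⟨nat_lit 0, nat_lit 10, nat_lit 11, (.ofNat (nat_lit 16)), (.ofNat (nat_lit 1649267441664000)), (.ofNat (nat_lit 4465494148018995699780172556237662204100829442473984000000)), (.ofNat (nat_lit 0)), (.ofNat (nat_lit 5685082471573937867420533002711039086061158400000000000)), (.ofNat (nat_lit 1649267441663968)), (.ofNat (nat_lit 1649267441664032)), (.ofNat (nat_lit 2176930750456995838007493428615577600000000)), (.ofNat (nat_lit 1504160694411240842844373600174080000000000)), (.ofNat (nat_lit 1504160694411240842844373600174080000000000)), (.ofNat (nat_lit 2176930750456995838007493428615577600000000)), (.ofNat (nat_lit 21365918954705125608584852275200000000000))⟩,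
    ⟨nat_lit 0, nat_lit 6, nat_lit 12, (.ofNat (nat_lit 16)), (.ofNat (nat_lit 1374389534720000)), (.ofNat (nat_lit 3488223772740170016785568535936921600877093122473984000000)), (.ofNat (nat_lit 0)), (.ofNat (nat_lit 0)), (.ofNat (nat_lit 1374389534719968)), (.ofNat (nat_lit 1374389534720032)), (.ofNat (nat_lit 2187870100961804862319088872980480000000000)), (.ofNat (nat_lit 2187870100961804862319088872980480000000000)), (.ofNat (nat_lit 2187870100961804862319088872980480000000000)), (.ofNat (nat_lit 2187870100961804862319088872980480000000000)), (.ofNat (nat_lit 0))⟩]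
  es := [
    ⟨nat_lit 1, nat_lit 4, (.negSucc (nat_lit 549755813887999)), (.negSucc (nat_lit 274877906943999)), (.negSucc (nat_lit 549755813887967)), (.negSucc (nat_lit 274877906944031)), (.ofNat (nat_lit 1113625881389558674920416236347064320000000)), (.ofNat (nat_lit 34185470327528200973735763640320000000)), (.ofNat (nat_lit 18793661063054340057588538851937319292764160000000000))⟩,
    ⟨nat_lit 1, nat_lit 6, (.negSucc (nat_lit 549755813887999)), (.negSucc (nat_lit 219902325555199)), (.negSucc (nat_lit 549755813887967)), (.negSucc (nat_lit 219902325555455)), (.ofNat (nat_lit 0)), (.ofNat (nat_lit 0)), (.ofNat (nat_lit 0))⟩,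
    ⟨nat_lit 3, nat_lit 5, (.ofNat (nat_lit 0)), (.ofNat (nat_lit 824633720832000)), (.ofNat (nat_lit 32)), (.ofNat (nat_lit 824633720831968)), (.negSucc (nat_lit 190016518268532752292412868618354687999999)), (.ofNat (nat_lit 4745940357678800534349591286382592000000)), (.ofNat (nat_lit 1313324527162566101149359080646944793827475456000000000))⟩,
    ⟨nat_lit 3, nat_lit 0, (.ofNat (nat_lit 0)), (.ofNat (nat_lit 274877906944000)), (.ofNat (nat_lit 32)), (.ofNat (nat_lit 274877906943968)), (.negSucc (nat_lit 167481456228626162210526253226655743999999)), (.ofNat (nat_lit 4747079873356384807715382478503936000000)), (.ofNat (nat_lit 1313324527162566101149359080646944793827475456000000000))⟩,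
    ⟨nat_lit 4, nat_lit 0, (.negSucc (nat_lit 274877906943999)), (.ofNat (nat_lit 274877906944000)), (.negSucc (nat_lit 274877906943967)), (.ofNat (nat_lit 274877906943968)), (.negSucc (nat_lit 179405348278867998710165287584399359999999)), (.ofNat (nat_lit 4745370599840008397666695690321920000000)), (.ofNat (nat_lit 1313794368689142459650798794118243226809794560000000000))⟩,
    ⟨nat_lit 5, nat_lit 2, (.ofNat (nat_lit 824633720832000)), (.ofNat (nat_lit 1099511627776000)), (.ofNat (nat_lit 824633720832032)), (.ofNat (nat_lit 1099511627775968)), (.ofNat (nat_lit 1113625881389558674920416236347064320000000)), (.ofNat (nat_lit 34185470327528200973735763640320000000)), (.ofNat (nat_lit 5198796491567406818430429559917160949360885760000000000))⟩,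
    ⟨nat_lit 6, nat_lit 12, (.negSucc (nat_lit 219902325555199)), (.ofNat (nat_lit 1374389534720000)), (.negSucc (nat_lit 219902325554943)), (.ofNat (nat_lit 1374389534719968)), (.ofNat (nat_lit 2187870100961804862319088872980480000000000)), (.ofNat (nat_lit 0)), (.ofNat (nat_lit 0))⟩,
    ⟨nat_lit 8, nat_lit 2, (.negSucc (nat_lit 213030377881599)), (.ofNat (nat_lit 1099511627776000)), (.negSucc (nat_lit 213030377881567)), (.ofNat (nat_lit 1099511627775968)), (.ofNat (nat_lit 0)), (.ofNat (nat_lit 0)), (.ofNat (nat_lit 5236383813693515498545606637621035587946414080000000000))⟩,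
    ⟨nat_lit 8, nat_lit 9, (.negSucc (nat_lit 213030377881599)), (.ofNat (nat_lit 1374389534720000)), (.negSucc (nat_lit 213030377881567)), (.ofNat (nat_lit 1374389534719968)), (.ofNat (nat_lit 2182187321478787187352026304479232000000000)), (.ofNat (nat_lit 253061273853130838377005003571200000000)), (.ofNat (nat_lit 5290293552489647022704306228775862281437184000000000000))⟩,
    ⟨nat_lit 9, nat_lit 10, (.ofNat (nat_lit 1374389534720000)), (.ofNat (nat_lit 1429365116108800)), (.ofNat (nat_lit 1374389534720032)), (.ofNat (nat_lit 1429365116108768)), (.ofNat (nat_lit 2176930750456995838007493428615577600000000)), (.ofNat (nat_lit 170927351637641004868678818201600000000)), (.ofNat (nat_lit 5403177555628122766556704919931979296669696000000000000))⟩,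
    ⟨nat_lit 10, nat_lit 11, (.ofNat (nat_lit 1429365116108800)), (.ofNat (nat_lit 1649267441664000)), (.ofNat (nat_lit 1429365116108832)), (.ofNat (nat_lit 1649267441663968)), (.ofNat (nat_lit 2176930750456995838007493428615577600000000)), (.ofNat (nat_lit 170927351637641004868678818201600000000)), (.ofNat (nat_lit 5403177555628122766556704919931979296669696000000000000))⟩,
    ⟨nat_lit 11, nat_lit 7, (.ofNat (nat_lit 1649267441664000)), (.ofNat (nat_lit 2199023255552000)), (.ofNat (nat_lit 1649267441664032)), (.ofNat (nat_lit 2199023255551968)), (.ofNat (nat_lit 1504160694411240842844373600174080000000000)), (.negSucc (nat_lit 10341104774077280794555068501196799999999)), (.ofNat (nat_lit 22740329886295751469682132010844156344244633600000000000))⟩,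
    ⟨nat_lit 12, nat_lit 7, (.ofNat (nat_lit 1374389534720000)), (.ofNat (nat_lit 2199023255552000)), (.ofNat (nat_lit 1374389534720032)), (.ofNat (nat_lit 2199023255551968)), (.ofNat (nat_lit 2187870100961804862319088872980480000000000)), (.ofNat (nat_lit 0)), (.ofNat (nat_lit 0))⟩]

theorem ok226 : stOK 12 12 S226 = true := by decide +kernel

def S227 : SD where
  vs := [
    ⟨nat_lit 1, nat_lit 3, nat_lit 4, (.ofNat (nat_lit 16)), (.ofNat (nat_lit 274877906944000)), (.ofNat (nat_lit 206098804688360069128306110834588159588760220073984000000)), (.ofNat (nat_lit 0)), (.negSucc (nat_lit 23492076328817925071985673564921649115955199999999999)), (.ofNat (nat_lit 274877906943968)), (.ofNat (nat_lit 274877906944032)), (.negSucc (nat_lit 171200835400261230476468704310722559999999)), (.negSucc (nat_lit 183234120955551157219223693112115199999999)), (.negSucc (nat_lit 183234120955551157219223693112115199999999)), (.negSucc (nat_lit 171200835400261230476468704310722559999999)), (.ofNat (nat_lit 119649146146348703408075172741120000000))⟩,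
    ⟨nat_lit 2, nat_lit 0, nat_lit 1, (.ofNat (nat_lit 16)), (.negSucc (nat_lit 549755813887999)), (.ofNat (nat_lit 120279437284502097135725017355140140065026473984000000)), (.ofNat (nat_lit 0)), (.ofNat (nat_lit 0)), (.negSucc (nat_lit 549755813888031)), (.negSucc (nat_lit 549755813887967)), (.ofNat (nat_lit 1115813751490520479782735325220044800000000)), (.ofNat (nat_lit 0)), (.ofNat (nat_lit 0)), (.ofNat (nat_lit 1115813751490520479782735325220044800000000)), (.ofNat (nat_lit 136741881310112803894943054561280000000))⟩,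
    ⟨nat_lit 1, nat_lit 5, nat_lit 7, (.ofNat (nat_lit 16)), (.ofNat (nat_lit 1099511627776000)), (.ofNat (nat_lit 400049386859080858522619831786581294690086351273984000000)), (.ofNat (nat_lit 0)), (.negSucc (nat_lit 46984152657635850143971347129843298231910399999999999)), (.ofNat (nat_lit 1099511627775968)), (.ofNat (nat_lit 1099511627776032)), (.ofNat (nat_lit 1115813751490520479782735325220044800000000)), (.ofNat (nat_lit 0)), (.ofNat (nat_lit 0)), (.ofNat (nat_lit 1115813751490520479782735325220044800000000)), (.ofNat (nat_lit 136741881310112803894943054561280000000))⟩,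
    ⟨nat_lit 2, nat_lit 3, nat_lit 2, (.ofNat (nat_lit 16)), (.ofNat (nat_lit 0)), (.ofNat (nat_lit 253158131990248136632507812119839207097841676713984000000)), (.ofNat (nat_lit 0)), (.negSucc (nat_lit 7517464425221736023035415540774927717105663999999999)), (.negSucc (nat_lit 31)), (.ofNat (nat_lit 32)), (.negSucc (nat_lit 171200835400261230476468704310722559999999)), (.negSucc (nat_lit 193808826443533214053765955998187519999999)), (.negSucc (nat_lit 193808826443533214053765955998187519999999)), (.negSucc (nat_lit 171200835400261230476468704310722559999999)), (.ofNat (nat_lit 118509630468764430042283980619776000000))⟩,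
    ⟨nat_lit 0, nat_lit 0, nat_lit 4, (.ofNat (nat_lit 16)), (.negSucc (nat_lit 274877906943999)), (.ofNat (nat_lit 306832827986331331836980679080972190997976117673984000000)), (.ofNat (nat_lit 0)), (.ofNat (nat_lit 9396830531527170028794269425968659646382080000000000)), (.negSucc (nat_lit 274877906944031)), (.negSucc (nat_lit 274877906943967)), (.ofNat (nat_lit 1115813751490520479782735325220044800000000)), (.negSucc (nat_lit 183234120955551157219223693112115199999999)), (.negSucc (nat_lit 183234120955551157219223693112115199999999)), (.ofNat (nat_lit 1115813751490520479782735325220044800000000)), (.ofNat (nat_lit 256391027456461507303018227302400000000))⟩,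
    ⟨nat_lit 0, nat_lit 2, nat_lit 5, (.ofNat (nat_lit 16)), (.ofNat (nat_lit 824633720832000)), (.ofNat (nat_lit 93336838310034028782774877722964243832175260073984000000)), (.ofNat (nat_lit 0)), (.negSucc (nat_lit 56380983189163020172765616555811957878292479999999999)), (.ofNat (nat_lit 824633720831968)), (.ofNat (nat_lit 824633720832032)), (.negSucc (nat_lit 193808826443533214053765955998187519999999)), (.ofNat (nat_lit 1115813751490520479782735325220044800000000)), (.negSucc (nat_lit 193808826443533214053765955998187519999999)), (.ofNat (nat_lit 1115813751490520479782735325220044800000000)), (.ofNat (nat_lit 305390201592585262032039488520192000000))⟩,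
    ⟨nat_lit 0, nat_lit 1, nat_lit 6, (.ofNat (nat_lit 128)), (.negSucc (nat_lit 219902325555199)), (.ofNat (nat_lit 120279437284502097135725017355140140065026473984000000)), (.ofNat (nat_lit 0)), (.ofNat (nat_lit 0)), (.negSucc (nat_lit 219902325555455)), (.negSucc (nat_lit 219902325554943)), (.ofNat (nat_lit 0)), (.ofNat (nat_lit 2187870100961804862319088872980480000000000)), (.ofNat (nat_lit 0)), (.ofNat (nat_lit 2187870100961804862319088872980480000000000)), (.ofNat (nat_lit 0))⟩,
    ⟨nat_lit 1, nat_lit 12, nat_lit 11, (.ofNat (nat_lit 16)), (.ofNat (nat_lit 2199023255552000)), (.ofNat (nat_lit 5292415234793386662314068265722904252982452482473984000000)), (.ofNat (nat_lit 0)), (.ofNat (nat_lit 0)), (.ofNat (nat_lit 2199023255551968)), (.ofNat (nat_lit 2199023255552032)), (.ofNat (nat_lit 2187870100961804862319088872980480000000000)), (.ofNat (nat_lit 1505254629461721745275533144610570240000000)), (.ofNat (nat_lit 1505254629461721745275533144610570240000000)), (.ofNat (nat_lit 2187870100961804862319088872980480000000000)), (.ofNat (nat_lit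 34185470327528200973735763640320000000))⟩,
    ⟨nat_lit 2, nat_lit 8, nat_lit 7, (.ofNat (nat_lit 16)), (.negSucc (nat_lit 213030377881599)), (.ofNat (nat_lit 400049386859080858522619831786581294690086351273984000000)), (.ofNat (nat_lit 0)), (.negSucc (nat_lit 46984152657635850143971347129843298231910399999999999)), (.negSucc (nat_lit 213030377881631)), (.negSucc (nat_lit 213030377881567)), (.ofNat (nat_lit 2180293061651114629029672114978816000000000)), (.ofNat (nat_lit 0)), (.ofNat (nat_lit 0)), (.ofNat (nat_lit 2180293061651114629029672114978816000000000)), (.ofNat (nat_lit 118391239229534895147136843776000000000))⟩,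
    ⟨nat_lit 0, nat_lit 8, nat_lit 9, (.ofNat (nat_lit 16)), (.ofNat (nat_lit 1374389534720000)), (.ofNat (nat_lit 3861090008231168123528125146759358015645534056873984000000)), (.ofNat (nat_lit 0)), (.negSucc (nat_lit 93968305315271700287942694259686596463820799999999999)), (.ofNat (nat_lit 1374389534719968)), (.ofNat (nat_lit 1374389534720032)), (.ofNat (nat_lit 2180293061651114629029672114978816000000000)), (.ofNat (nat_lit 2209748801971422910942279761710284800000000)), (.ofNat (nat_lit 2180293061651114629029672114978816000000000)), (.ofNat (nat_lit 2209748801971422910942279761710284800000000)), (.ofNat (nat_lit 1143955349055380924359209752985600000000))⟩,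
    ⟨nat_lit 0, nat_lit 9, nat_lit 10, (.ofNat (nat_lit 16)), (.ofNat (nat_lit 1429365116108800)), (.ofNat (nat_lit 3982572233342751377660377461898280847553961587113984000000)), (.ofNat (nat_lit 0)), (.negSucc (nat_lit 65777813720690190201559885981780617524674559999999999)), (.ofNat (nat_lit 1429365116108768)), (.ofNat (nat_lit 1429365116108832)), (.ofNat (nat_lit 2209748801971422910942279761710284800000000)), (.ofNat (nat_lit 2193339776214209374474886595162931200000000)), (.ofNat (nat_lit 2193339776214209374474886595162931200000000)), (.ofNat (nat_lit 2209748801971422910942279761710284800000000)), (.ofNat (nat_lit 1538346164738769043818109363814400000000))⟩,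
    ⟨nat_lit 0, nat_lit 10, nat_lit 11, (.ofNat (nat_lit 16)), (.ofNat (nat_lit 1649267441664000)), (.ofNat (nat_lit 4464892750864977960898329722994400209883460989353984000000)), (.ofNat (nat_lit 0)), (.negSucc (nat_lit 9396830531527170028794269425968659646382079999999999)), (.ofNat (nat_lit 1649267441663968)), (.ofNat (nat_lit 1649267441664032)), (.ofNat (nat_lit 2193339776214209374474886595162931200000000)), (.ofNat (nat_lit 1505254629461721745275533144610570240000000)), (.ofNat (nat_lit 1505254629461721745275533144610570240000000)), (.ofNat (nat_lit 2193339776214209374474886595162931200000000)), (.ofNat (nat_lit 991378639498317828238337145569280000000))⟩,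
    ⟨nat_lit 0, nat_lit 6, nat_lit 12, (.ofNat (nat_lit 16)), (.ofNat (nat_lit 1374389534720000)), (.ofNat (nat_lit 3488223772740170016785568535936921600877093122473984000000)), (.ofNat (nat_lit 0)), (.ofNat (nat_lit 0)), (.ofNat (nat_lit 1374389534719968)), (.ofNat (nat_lit 1374389534720032)), (.ofNat (nat_lit 2187870100961804862319088872980480000000000)), (.ofNat (nat_lit 2187870100961804862319088872980480000000000)), (.ofNat (nat_lit 2187870100961804862319088872980480000000000)), (.ofNat (nat_lit 2187870100961804862319088872980480000000000)), (.ofNat (nat_lit 0))⟩]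
  es := [
    ⟨nat_lit 1, nat_lit 4, (.negSucc (nat_lit 549755813887999)), (.negSucc (nat_lit 274877906943999)), (.negSucc (nat_lit 549755813887967)), (.negSucc (nat_lit 274877906944031)), (.ofNat (nat_lit 1115813751490520479782735325220044800000000)), (.ofNat (nat_lit 34185470327528200973735763640320000000)), (.ofNat (nat_lit 18793661063054340057588538851937319292764160000000000))⟩,
    ⟨nat_lit 1, nat_lit 6, (.negSucc (nat_lit 549755813887999)), (.negSucc (nat_lit 219902325555199)), (.negSucc (nat_lit 549755813887967)), (.negSucc (nat_lit 219902325555455)), (.ofNat (nat_lit 0)), (.ofNat (nat_lit 0)), (.ofNat (nat_lit 0))⟩,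
    ⟨nat_lit 3, nat_lit 5, (.ofNat (nat_lit 0)), (.ofNat (nat_lit 824633720832000)), (.ofNat (nat_lit 32)), (.ofNat (nat_lit 824633720831968)), (.negSucc (nat_lit 193808826443533214053765955998187519999999)), (.negSucc (nat_lit 59254815234382215021141990309887999999)), (.negSucc (nat_lit 7517464425221736023035415540774927717105663999999999))⟩,
    ⟨nat_lit 3, nat_lit 0, (.ofNat (nat_lit 0)), (.ofNat (nat_lit 274877906944000)), (.ofNat (nat_lit 32)), (.ofNat (nat_lit 274877906943968)), (.negSucc (nat_lit 171200835400261230476468704310722559999999)), (.negSucc (nat_lit 58115299556797941655350798188543999999)), (.negSucc (nat_lit 7517464425221736023035415540774927717105663999999999))⟩,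
    ⟨nat_lit 4, nat_lit 0, (.negSucc (nat_lit 274877906943999)), (.ofNat (nat_lit 274877906944000)), (.negSucc (nat_lit 274877906943967)), (.ofNat (nat_lit 274877906943968)), (.negSucc (nat_lit 183234120955551157219223693112115199999999)), (.negSucc (nat_lit 59824573073174351704037586370559999999)), (.negSucc (nat_lit 7047622898645377521595702069476494734786559999999999))⟩,
    ⟨nat_lit 5, nat_lit 2, (.ofNat (nat_lit 824633720832000)), (.ofNat (nat_lit 1099511627776000)), (.ofNat (nat_lit 824633720832032)), (.ofNat (nat_lit 1099511627775968)), (.ofNat (nat_lit 1115813751490520479782735325220044800000000)), (.ofNat (nat_lit 34185470327528200973735763640320000000)), (.negSucc (nat_lit 84571474783744530259148424833717936817438719999999999))⟩,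
    ⟨nat_lit 6, nat_lit 12, (.negSucc (nat_lit 219902325555199)), (.ofNat (nat_lit 1374389534720000)), (.negSucc (nat_lit 219902325554943)), (.ofNat (nat_lit 1374389534719968)), (.ofNat (nat_lit 2187870100961804862319088872980480000000000)), (.ofNat (nat_lit 0)), (.ofNat (nat_lit 0))⟩,
    ⟨nat_lit 8, nat_lit 2, (.negSucc (nat_lit 213030377881599)), (.ofNat (nat_lit 1099511627776000)), (.negSucc (nat_lit 213030377881567)), (.ofNat (nat_lit 1099511627775968)), (.ofNat (nat_lit 0)), (.ofNat (nat_lit 0)), (.negSucc (nat_lit 46984152657635850143971347129843298231910399999999999))⟩,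
    ⟨nat_lit 8, nat_lit 9, (.negSucc (nat_lit 213030377881599)), (.ofNat (nat_lit 1374389534720000)), (.negSucc (nat_lit 213030377881567)), (.ofNat (nat_lit 1374389534719968)), (.ofNat (nat_lit 2180293061651114629029672114978816000000000)), (.negSucc (nat_lit 29597809807383723786784210943999999999)), (.negSucc (nat_lit 53289385265370531332123346095320104488140799999999999))⟩,
    ⟨nat_lit 9, nat_lit 10, (.ofNat (nat_lit 1374389534720000)), (.ofNat (nat_lit 1429365116108800)), (.ofNat (nat_lit 1374389534720032)), (.ofNat (nat_lit 1429365116108768)), (.ofNat (nat_lit 2209748801971422910942279761710284800000000)), (.ofNat (nat_lit 512782054912923014606036454604800000000)), (.negSucc (nat_lit 798730595179809452447512901207336069942476799999999999))⟩,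
    ⟨nat_lit 10, nat_lit 11, (.ofNat (nat_lit 1429365116108800)), (.ofNat (nat_lit 1649267441664000)), (.ofNat (nat_lit 1429365116108832)), (.ofNat (nat_lit 1649267441663968)), (.ofNat (nat_lit 2193339776214209374474886595162931200000000)), (.ofNat (nat_lit 256391027456461507303018227302400000000)), (.negSucc (nat_lit 432254204450249821324536393594558343733575679999999999))⟩,
    ⟨nat_lit 11, nat_lit 7, (.ofNat (nat_lit 1649267441664000)), (.ofNat (nat_lit 2199023255552000)), (.ofNat (nat_lit 1649267441664032)), (.ofNat (nat_lit 2199023255551968)), (.ofNat (nat_lit 1505254629461721745275533144610570240000000)), (.ofNat (nat_lit 17092735163764100486867881820160000000)), (.negSucc (nat_lit 37587322126108680115177077703874638585528319999999999))⟩,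
    ⟨nat_lit 12, nat_lit 7, (.ofNat (nat_lit 1374389534720000)), (.ofNat (nat_lit 2199023255552000)), (.ofNat (nat_lit 1374389534720032)), (.ofNat (nat_lit 2199023255551968)), (.ofNat (nat_lit 2187870100961804862319088872980480000000000)), (.ofNat (nat_lit 0)), (.ofNat (nat_lit 0))⟩]

theorem ok227 : stOK 12 12 S227 = true := by decide +kernel

def S228 : SD where
  vs := [
    ⟨nat_lit 1, nat_lit 3, nat_lit 4, (.ofNat (nat_lit 16)), (.ofNat (nat_lit 274877906944000)), (.ofNat (nat_lit 37031029765123225970239615322560035231053836713984000000)), (.ofNat (nat_lit 0)), (.negSucc (nat_lit 2641683983175575674344788992375439443089162239999999999)), (.ofNat (nat_lit 274877906943968)), (.ofNat (nat_lit 274877906944032)), (.negSucc (nat_lit 479717868012137738624239224011882495999999)), (.negSucc (nat_lit 491860547072475755610110167256924159999999)), (.negSucc (nat_lit 491860547072475755610110167256924159999999)), (.negSucc (nat_lit 479717868012137738624239224011882495999999)), (.ofNat (nat_lit 9644575816153893699715202317025280000000))⟩,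
    ⟨nat_lit 2, nat_lit 0, nat_lit 1, (.ofNat (nat_lit 16)), (.negSucc (nat_lit 549755813887999)), (.ofNat (nat_lit 120279437284502097135725017355140140065026473984000000)), (.ofNat (nat_lit 0)), (.ofNat (nat_lit 0)), (.negSucc (nat_lit 549755813888031)), (.negSucc (nat_lit 549755813887967)), (.ofNat (nat_lit 1118001621591482284645054414093025280000000)), (.ofNat (nat_lit 0)), (.ofNat (nat_lit 0)), (.ofNat (nat_lit 1118001621591482284645054414093025280000000)), (.ofNat (nat_lit 136741881310112803894943054561280000000))⟩,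
    ⟨nat_lit 1, nat_lit 5, nat_lit 7, (.ofNat (nat_lit 16)), (.ofNat (nat_lit 1099511627776000)), (.ofNat (nat_lit 61913837012607172206486840762525045974673584553984000000)), (.ofNat (nat_lit 0)), (.negSucc (nat_lit 5283367966351151348689577984750878886178324479999999999)), (.ofNat (nat_lit 1099511627775968)), (.ofNat (nat_lit 1099511627776032)), (.ofNat (nat_lit 1118001621591482284645054414093025280000000)), (.ofNat (nat_lit 0)), (.ofNat (nat_lit 0)), (.ofNat (nat_lit 1118001621591482284645054414093025280000000)), (.ofNat (nat_lit 136741881310112803894943054561280000000))⟩,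
    ⟨nat_lit 2, nat_lit 3, nat_lit 2, (.ofNat (nat_lit 16)), (.ofNat (nat_lit 0)), (.ofNat (nat_lit 168894873247937697550303839323293042316804288937984000000)), (.ofNat (nat_lit 0)), (.negSucc (nat_lit 1316613417848600610659437074946033824703709183999999999)), (.negSucc (nat_lit 31)), (.ofNat (nat_lit 32)), (.negSucc (nat_lit 479717868012137738624239224011882495999999)), (.negSucc (nat_lit 502398788058775115696947111995113471999999)), (.negSucc (nat_lit 502398788058775115696947111995113471999999)), (.negSucc (nat_lit 479717868012137738624239224011882495999999)), (.ofNat (nat_lit 9643436300476309426349411124903936000000))⟩,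
    ⟨nat_lit 0, nat_lit 0, nat_lit 4, (.ofNat (nat_lit 16)), (.negSucc (nat_lit 274877906943999)), (.ofNat (nat_lit 307434225140349070718823512324234185215344570793984000000)), (.ofNat (nat_lit 0)), (.ofNat (nat_lit 9396830531527170028794269425968659646382080000000000)), (.negSucc (nat_lit 274877906944031)), (.negSucc (nat_lit 274877906943967)), (.ofNat (nat_lit 1118001621591482284645054414093025280000000)), (.negSucc (nat_lit 491860547072475755610110167256924159999999)), (.negSucc (nat_lit 491860547072475755610110167256924159999999)), (.ofNat (nat_lit 1118001621591482284645054414093025280000000)), (.ofNat (nat_lit 9781317697464006503610145371586560000000))⟩,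
    ⟨nat_lit 0, nat_lit 2, nat_lit 5, (.ofNat (nat_lit 16)), (.ofNat (nat_lit 824633720832000)), (.negSucc (nat_lit 245400108690457396415200946544353999100605959766015999999)), (.ofNat (nat_lit 0)), (.negSucc (nat_lit 5292764796882678518718372254176847545824706559999999999)), (.ofNat (nat_lit 824633720831968)), (.ofNat (nat_lit 824633720832032)), (.negSucc (nat_lit 502398788058775115696947111995113471999999)), (.ofNat (nat_lit 1118001621591482284645054414093025280000000)), (.negSucc (nat_lit 502398788058775115696947111995113471999999)), (.ofNat (nat_lit 1118001621591482284645054414093025280000000)), (.ofNat (nat_lit 19355243541607675254646293777088512000000))⟩,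
    ⟨nat_lit 0, nat_lit 1, nat_lit 6, (.ofNat (nat_lit 128)), (.negSucc (nat_lit 219902325555199)), (.ofNat (nat_lit 120279437284502097135725017355140140065026473984000000)), (.ofNat (nat_lit 0)), (.ofNat (nat_lit 0)), (.negSucc (nat_lit 219902325555455)), (.negSucc (nat_lit 219902325554943)), (.ofNat (nat_lit 0)), (.ofNat (nat_lit 2187870100961804862319088872980480000000000)), (.ofNat (nat_lit 0)), (.ofNat (nat_lit 2187870100961804862319088872980480000000000)), (.ofNat (nat_lit 0))⟩,
    ⟨nat_lit 1, nat_lit 12, nat_lit 11, (.ofNat (nat_lit 16)), (.ofNat (nat_lit 2199023255552000)), (.ofNat (nat_lit 5292415234793386662314068265722904252982452482473984000000)), (.ofNat (nat_lit 0)), (.ofNat (nat_lit 0)), (.ofNat (nat_lit 2199023255551968)), (.ofNat (nat_lit 2199023255552032)), (.ofNat (nat_lit 2187870100961804862319088872980480000000000)), (.ofNat (nat_lit 1509630369663645355000171322356531200000000)), (.ofNat (nat_lit 1509630369663645355000171322356531200000000)), (.ofNat (nat_lit 2187870100961804862319088872980480000000000)), (.ofNat (nat_lit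 136741881310112803894943054561280000000))⟩,
    ⟨nat_lit 2, nat_lit 8, nat_lit 7, (.ofNat (nat_lit 16)), (.negSucc (nat_lit 213030377881599)), (.ofNat (nat_lit 61913837012607172206486840762525045974673584553984000000)), (.ofNat (nat_lit 0)), (.negSucc (nat_lit 5283367966351151348689577984750878886178324479999999999)), (.negSucc (nat_lit 213030377881631)), (.negSucc (nat_lit 213030377881567)), (.ofNat (nat_lit 2165991399952186813695897984250675200000000)), (.ofNat (nat_lit 0)), (.ofNat (nat_lit 0)), (.ofNat (nat_lit 2165991399952186813695897984250675200000000)), (.ofNat (nat_lit 893853856182988458360883170508800000000))⟩,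
    ⟨nat_lit 0, nat_lit 8, nat_lit 9, (.ofNat (nat_lit 16)), (.ofNat (nat_lit 1374389534720000)), (.ofNat (nat_lit 3500251715820524794422425200802161485224462184873984000000)), (.ofNat (nat_lit 0)), (.negSucc (nat_lit 5638098318916302017276561655581195787829247999999999999)), (.ofNat (nat_lit 1374389534719968)), (.ofNat (nat_lit 1374389534720032)), (.ofNat (nat_lit 2165991399952186813695897984250675200000000)), (.ofNat (nat_lit 2209748801971422910942279761710284800000000)), (.ofNat (nat_lit 2165991399952186813695897984250675200000000)), (.ofNat (nat_lit 2209748801971422910942279761710284800000000)), (.ofNat (nat_lit 893853856182988458360883170508800000000))⟩,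
    ⟨nat_lit 0, nat_lit 9, nat_lit 10, (.ofNat (nat_lit 16)), (.ofNat (nat_lit 1429365116108800)), (.ofNat (nat_lit 3621733940932108048554677515941084317132889715113984000000)), (.ofNat (nat_lit 0)), (.negSucc (nat_lit 5638098318916302017276561655581195787829247999999999999)), (.ofNat (nat_lit 1429365116108768)), (.ofNat (nat_lit 1429365116108832)), (.ofNat (nat_lit 2209748801971422910942279761710284800000000)), (.ofNat (nat_lit 3823303001430753996902607805533388800000000)), (.ofNat (nat_lit 2209748801971422910942279761710284800000000)), (.ofNat (nat_lit 3823303001430753996902607805533388800000000)), (.ofNat (nat_lit 50936350788017019450866287824076800000000))⟩,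
    ⟨nat_lit 0, nat_lit 10, nat_lit 11, (.ofNat (nat_lit 16)), (.ofNat (nat_lit 1649267441664000)), (.ofNat (nat_lit 4462487162248907005370958390021352233013987176873984000000)), (.ofNat (nat_lit 0)), (.negSucc (nat_lit 37587322126108680115177077703874638585528319999999999)), (.ofNat (nat_lit 1649267441663968)), (.ofNat (nat_lit 1649267441664032)), (.ofNat (nat_lit 3823303001430753996902607805533388800000000)), (.ofNat (nat_lit 1509630369663645355000171322356531200000000)), (.ofNat (nat_lit 1509630369663645355000171322356531200000000)), (.ofNat (nat_lit 3823303001430753996902607805533388800000000)), (.ofNat (nat_lit 101735959694723926097837632593592320000000))⟩,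
    ⟨nat_lit 0, nat_lit 6, nat_lit 12, (.ofNat (nat_lit 16)), (.ofNat (nat_lit 1374389534720000)), (.ofNat (nat_lit 3488223772740170016785568535936921600877093122473984000000)), (.ofNat (nat_lit 0)), (.ofNat (nat_lit 0)), (.ofNat (nat_lit 1374389534719968)), (.ofNat (nat_lit 1374389534720032)), (.ofNat (nat_lit 2187870100961804862319088872980480000000000)), (.ofNat (nat_lit 2187870100961804862319088872980480000000000)), (.ofNat (nat_lit 2187870100961804862319088872980480000000000)), (.ofNat (nat_lit 2187870100961804862319088872980480000000000)), (.ofNat (nat_lit 0))⟩]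
  es := [
    ⟨nat_lit 1, nat_lit 4, (.negSucc (nat_lit 549755813887999)), (.negSucc (nat_lit 274877906943999)), (.negSucc (nat_lit 549755813887967)), (.negSucc (nat_lit 274877906944031)), (.ofNat (nat_lit 1118001621591482284645054414093025280000000)), (.ofNat (nat_lit 34185470327528200973735763640320000000)), (.ofNat (nat_lit 18793661063054340057588538851937319292764160000000000))⟩,
    ⟨nat_lit 1, nat_lit 6, (.negSucc (nat_lit 549755813887999)), (.negSucc (nat_lit 219902325555199)), (.negSucc (nat_lit 549755813887967)), (.negSucc (nat_lit 219902325555455)), (.ofNat (nat_lit 0)), (.ofNat (nat_lit 0)), (.ofNat (nat_lit 0))⟩,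
    ⟨nat_lit 3, nat_lit 5, (.ofNat (nat_lit 0)), (.ofNat (nat_lit 824633720832000)), (.ofNat (nat_lit 32)), (.ofNat (nat_lit 824633720831968)), (.negSucc (nat_lit 502398788058775115696947111995113471999999)), (.negSucc (nat_lit 4821718150238154713174705562451967999999)), (.negSucc (nat_lit 1316613417848600610659437074946033824703709183999999999))⟩,
    ⟨nat_lit 3, nat_lit 0, (.ofNat (nat_lit 0)), (.ofNat (nat_lit 274877906944000)), (.ofNat (nat_lit 32)), (.ofNat (nat_lit 274877906943968)), (.negSucc (nat_lit 479717868012137738624239224011882495999999)), (.negSucc (nat_lit 4820578634560570439808914370330623999999)), (.negSucc (nat_lit 1316613417848600610659437074946033824703709183999999999))⟩,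
    ⟨nat_lit 4, nat_lit 0, (.negSucc (nat_lit 274877906943999)), (.ofNat (nat_lit 274877906944000)), (.negSucc (nat_lit 274877906943967)), (.ofNat (nat_lit 274877906943968)), (.negSucc (nat_lit 491860547072475755610110167256924159999999)), (.negSucc (nat_lit 4822287908076946849857601158512639999999)), (.negSucc (nat_lit 1316143576322024252157997361474735391721390079999999999))⟩,
    ⟨nat_lit 5, nat_lit 2, (.ofNat (nat_lit 824633720832000)), (.ofNat (nat_lit 1099511627776000)), (.ofNat (nat_lit 824633720832032)), (.ofNat (nat_lit 1099511627775968)), (.ofNat (nat_lit 1118001621591482284645054414093025280000000)), (.ofNat (nat_lit 34185470327528200973735763640320000000)), (.negSucc (nat_lit 5320955288477260028804755062454753524763852799999999999))⟩,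
    ⟨nat_lit 6, nat_lit 12, (.negSucc (nat_lit 219902325555199)), (.ofNat (nat_lit 1374389534720000)), (.negSucc (nat_lit 219902325554943)), (.ofNat (nat_lit 1374389534719968)), (.ofNat (nat_lit 2187870100961804862319088872980480000000000)), (.ofNat (nat_lit 0)), (.ofNat (nat_lit 0))⟩,
    ⟨nat_lit 8, nat_lit 2, (.negSucc (nat_lit 213030377881599)), (.ofNat (nat_lit 1099511627776000)), (.negSucc (nat_lit 213030377881567)), (.ofNat (nat_lit 1099511627775968)), (.ofNat (nat_lit 0)), (.ofNat (nat_lit 0)), (.negSucc (nat_lit 5283367966351151348689577984750878886178324479999999999))⟩,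
    ⟨nat_lit 8, nat_lit 9, (.negSucc (nat_lit 213030377881599)), (.ofNat (nat_lit 1374389534720000)), (.negSucc (nat_lit 213030377881567)), (.ofNat (nat_lit 1374389534719968)), (.ofNat (nat_lit 2165991399952186813695897984250675200000000)), (.negSucc (nat_lit 223463464045747114590220792627199999999)), (.negSucc (nat_lit 5330972472539548191660125576940228773412863999999999999))⟩,
    ⟨nat_lit 9, nat_lit 10, (.ofNat (nat_lit 1374389534720000)), (.ofNat (nat_lit 1429365116108800)), (.ofNat (nat_lit 1374389534720032)), (.ofNat (nat_lit 1429365116108768)), (.ofNat (nat_lit 2209748801971422910942279761710284800000000)), (.ofNat (nat_lit 0)), (.negSucc (nat_lit 5638098318916302017276561655581195787829247999999999999))⟩,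
    ⟨nat_lit 10, nat_lit 11, (.ofNat (nat_lit 1429365116108800)), (.ofNat (nat_lit 1649267441664000)), (.ofNat (nat_lit 1429365116108832)), (.ofNat (nat_lit 1649267441663968)), (.ofNat (nat_lit 3823303001430753996902607805533388800000000)), (.ofNat (nat_lit 25468175394008509725433143912038400000000)), (.negSucc (nat_lit 42041419798052558708825561411783783257913425919999999999))⟩,
    ⟨nat_lit 11, nat_lit 7, (.ofNat (nat_lit 1649267441664000)), (.ofNat (nat_lit 2199023255552000)), (.ofNat (nat_lit 1649267441664032)), (.ofNat (nat_lit 2199023255551968)), (.ofNat (nat_lit 1509630369663645355000171322356531200000000)), (.ofNat (nat_lit 68370940655056401947471527280640000000)), (.negSucc (nat_lit 150349288504434720460708310815498554342113279999999999))⟩,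
    ⟨nat_lit 12, nat_lit 7, (.ofNat (nat_lit 1374389534720000)), (.ofNat (nat_lit 2199023255552000)), (.ofNat (nat_lit 1374389534720032)), (.ofNat (nat_lit 2199023255551968)), (.ofNat (nat_lit 2187870100961804862319088872980480000000000)), (.ofNat (nat_lit 0)), (.ofNat (nat_lit 0))⟩]

theorem ok228 : stOK 12 12 S228 = true := by decide +kernel

def S229 : SD where
  vs := [
    ⟨nat_lit 1, nat_lit 3, nat_lit 4, (.ofNat (nat_lit 16)), (.ofNat (nat_lit 274877906944000)), (.ofNat (nat_lit 31167407513450271872271991200755591611711418793984000000)), (.ofNat (nat_lit 0)), (.negSucc (nat_lit 91619097682389907780744126903194431552225279999999999)), (.ofNat (nat_lit 274877906943968)), (.ofNat (nat_lit 274877906944032)), (.negSucc (nat_lit 491368276299759349516088372260503551999999)), (.negSucc (nat_lit 503620348865145456745075269949194239999999)), (.negSucc (nat_lit 503620348865145456745075269949194239999999)), (.negSucc (nat_lit 491368276299759349516088372260503551999999)), (.ofNat (nat_lit 367493806020928160467659459133440000000))⟩,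
    ⟨nat_lit 2, nat_lit 0, nat_lit 1, (.ofNat (nat_lit 16)), (.negSucc (nat_lit 549755813887999)), (.ofNat (nat_lit 120279437284502097135725017355140140065026473984000000)), (.ofNat (nat_lit 0)), (.ofNat (nat_lit 0)), (.negSucc (nat_lit 549755813888031)), (.negSucc (nat_lit 549755813887967)), (.ofNat (nat_lit 1120189491692444089507373502966005760000000)), (.ofNat (nat_lit 0)), (.ofNat (nat_lit 0)), (.ofNat (nat_lit 1120189491692444089507373502966005760000000)), (.ofNat (nat_lit 136741881310112803894943054561280000000))⟩,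
    ⟨nat_lit 1, nat_lit 5, nat_lit 7, (.ofNat (nat_lit 16)), (.ofNat (nat_lit 1099511627776000)), (.ofNat (nat_lit 50186592509261264010551592518916158735988748713984000000)), (.ofNat (nat_lit 0)), (.negSucc (nat_lit 183238195364779815561488253806388863104450559999999999)), (.ofNat (nat_lit 1099511627775968)), (.ofNat (nat_lit 1099511627776032)), (.ofNat (nat_lit 1120189491692444089507373502966005760000000)), (.ofNat (nat_lit 0)), (.ofNat (nat_lit 0)), (.ofNat (nat_lit 1120189491692444089507373502966005760000000)), (.ofNat (nat_lit 136741881310112803894943054561280000000))⟩,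
    ⟨nat_lit 2, nat_lit 3, nat_lit 2, (.ofNat (nat_lit 16)), (.ofNat (nat_lit 0)), (.ofNat (nat_lit 166233690841409202998149302221858717904948883881984000000)), (.ofNat (nat_lit 0)), (.negSucc (nat_lit 41580975102007727377414642209911318935240703999999999)), (.negSucc (nat_lit 31)), (.ofNat (nat_lit 32)), (.negSucc (nat_lit 491368276299759349516088372260503551999999)), (.negSucc (nat_lit 514122125349762120084206896539500543999999)), (.negSucc (nat_lit 514122125349762120084206896539500543999999)), (.negSucc (nat_lit 491368276299759349516088372260503551999999)), (.ofNat (nat_lit 366354290343343887101868267012096000000))⟩,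
    ⟨nat_lit 0, nat_lit 0, nat_lit 4, (.ofNat (nat_lit 16)), (.negSucc (nat_lit 274877906943999)), (.ofNat (nat_lit 308035622294366809600666345567496179432713023913984000000)), (.ofNat (nat_lit 0)), (.ofNat (nat_lit 9396830531527170028794269425968659646382080000000000)), (.negSucc (nat_lit 274877906944031)), (.negSucc (nat_lit 274877906943967)), (.ofNat (nat_lit 1120189491692444089507373502966005760000000)), (.negSucc (nat_lit 503620348865145456745075269949194239999999)), (.negSucc (nat_lit 503620348865145456745075269949194239999999)), (.ofNat (nat_lit 1120189491692444089507373502966005760000000)), (.ofNat (nat_lit 504235687331040964362602513694720000000))⟩,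
    ⟨nat_lit 0, nat_lit 2, nat_lit 5, (.ofNat (nat_lit 16)), (.ofNat (nat_lit 824633720832000)), (.negSucc (nat_lit 257728750347821043492979028031224880556659248726015999999)), (.ofNat (nat_lit 0)), (.negSucc (nat_lit 192635025896306985590282523232357522750832639999999999)), (.ofNat (nat_lit 824633720831968)), (.ofNat (nat_lit 824633720832032)), (.negSucc (nat_lit 514122125349762120084206896539500543999999)), (.ofNat (nat_lit 1120189491692444089507373502966005760000000)), (.negSucc (nat_lit 514122125349762120084206896539500543999999)), (.ofNat (nat_lit 1120189491692444089507373502966005760000000)), (.ofNat (nat_lit 801079521341744176151208061304832000000))⟩,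
    ⟨nat_lit 0, nat_lit 1, nat_lit 6, (.ofNat (nat_lit 128)), (.negSucc (nat_lit 219902325555199)), (.ofNat (nat_lit 120279437284502097135725017355140140065026473984000000)), (.ofNat (nat_lit 0)), (.ofNat (nat_lit 0)), (.negSucc (nat_lit 219902325555455)), (.negSucc (nat_lit 219902325554943)), (.ofNat (nat_lit 0)), (.ofNat (nat_lit 2187870100961804862319088872980480000000000)), (.ofNat (nat_lit 0)), (.ofNat (nat_lit 2187870100961804862319088872980480000000000)), (.ofNat (nat_lit 0))⟩,
    ⟨nat_lit 1, nat_lit 12, nat_lit 11, (.ofNat (nat_lit 16)), (.ofNat (nat_lit 2199023255552000)), (.ofNat (nat_lit 5283394277483120579086425767073974339721925685673984000000)), (.ofNat (nat_lit 0)), (.negSucc (nat_lit 140952457972907550431914041389529894695731199999999999)), (.ofNat (nat_lit 2199023255551968)), (.ofNat (nat_lit 2199023255552032)), (.ofNat (nat_lit 2176930750456995838007493428615577600000000)), (.ofNat (nat_lit 1504160694411240842844373600174080000000000)), (.ofNat (nat_lit 1504160694411240842844373600174080000000000)), (.ofNat (nat_lit 2176930750456995838007493428615577600000000)),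 (.ofNat (nat_lit 512782054912923014606036454604800000000))⟩,
    ⟨nat_lit 2, nat_lit 8, nat_lit 7, (.ofNat (nat_lit 16)), (.negSucc (nat_lit 213030377881599)), (.ofNat (nat_lit 50186592509261264010551592518916158735988748713984000000)), (.ofNat (nat_lit 0)), (.negSucc (nat_lit 183238195364779815561488253806388863104450559999999999)), (.negSucc (nat_lit 213030377881631)), (.negSucc (nat_lit 213030377881567)), (.ofNat (nat_lit 2165991399952186813695897984250675200000000)), (.ofNat (nat_lit 0)), (.ofNat (nat_lit 0)), (.ofNat (nat_lit 2165991399952186813695897984250675200000000)), (.ofNat (nat_lit 0))⟩,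
    ⟨nat_lit 0, nat_lit 8, nat_lit 9, (.ofNat (nat_lit 16)), (.ofNat (nat_lit 1374389534720000)), (.ofNat (nat_lit 3488524471317178886226489952558552597985777349033984000000)), (.ofNat (nat_lit 0)), (.negSucc (nat_lit 183238195364779815561488253806388863104450559999999999)), (.ofNat (nat_lit 1374389534719968)), (.ofNat (nat_lit 1374389534720032)), (.ofNat (nat_lit 2165991399952186813695897984250675200000000)), (.ofNat (nat_lit 2198809451466613886630684317345382400000000)), (.ofNat (nat_lit 2165991399952186813695897984250675200000000)), (.ofNat (nat_lit 2198809451466613886630684317345382400000000)), (.ofNat (nat_lit 341854703275282009737357636403200000000))⟩,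
    ⟨nat_lit 0, nat_lit 9, nat_lit 10, (.ofNat (nat_lit 16)), (.ofNat (nat_lit 1429365116108800)), (.ofNat (nat_lit 3609405299274744401476899434454213435676836426153984000000)), (.ofNat (nat_lit 0)), (.negSucc (nat_lit 192635025896306985590282523232357522750832639999999999)), (.ofNat (nat_lit 1429365116108768)), (.ofNat (nat_lit 1429365116108832)), (.ofNat (nat_lit 2198809451466613886630684317345382400000000)), (.ofNat (nat_lit 3852018796505877685720545846991257600000000)), (.ofNat (nat_lit 2198809451466613886630684317345382400000000)), (.ofNat (nat_lit 3852018796505877685720545846991257600000000)), (.ofNat (nat_lit 1581078002648179295035279068364800000000))⟩,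
    ⟨nat_lit 0, nat_lit 10, nat_lit 11, (.ofNat (nat_lit 16)), (.ofNat (nat_lit 1649267441664000)), (.ofNat (nat_lit 4456473190708729616552530057588732290840302645673984000000)), (.ofNat (nat_lit 0)), (.negSucc (nat_lit 93968305315271700287942694259686596463820799999999999)), (.ofNat (nat_lit 1649267441663968)), (.ofNat (nat_lit 1649267441664032)), (.ofNat (nat_lit 3852018796505877685720545846991257600000000)), (.ofNat (nat_lit 1504160694411240842844373600174080000000000)), (.ofNat (nat_lit 1504160694411240842844373600174080000000000)), (.ofNat (nat_lit 3852018796505877685720545846991257600000000)), (.ofNat (nat_lit 1965664543832871555989806409318400000000))⟩,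
    ⟨nat_lit 0, nat_lit 6, nat_lit 12, (.ofNat (nat_lit 16)), (.ofNat (nat_lit 1374389534720000)), (.ofNat (nat_lit 3488223772740170016785568535936921600877093122473984000000)), (.ofNat (nat_lit 0)), (.ofNat (nat_lit 0)), (.ofNat (nat_lit 1374389534719968)), (.ofNat (nat_lit 1374389534720032)), (.ofNat (nat_lit 2187870100961804862319088872980480000000000)), (.ofNat (nat_lit 2176930750456995838007493428615577600000000)), (.ofNat (nat_lit 2176930750456995838007493428615577600000000)), (.ofNat (nat_lit 2187870100961804862319088872980480000000000)), (.ofNat (nat_lit 341854703275282009737357636403200000000))⟩]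
  es := [
    ⟨nat_lit 1, nat_lit 4, (.negSucc (nat_lit 549755813887999)), (.negSucc (nat_lit 274877906943999)), (.negSucc (nat_lit 549755813887967)), (.negSucc (nat_lit 274877906944031)), (.ofNat (nat_lit 1120189491692444089507373502966005760000000)), (.ofNat (nat_lit 34185470327528200973735763640320000000)), (.ofNat (nat_lit 18793661063054340057588538851937319292764160000000000))⟩,
    ⟨nat_lit 1, nat_lit 6, (.negSucc (nat_lit 549755813887999)), (.negSucc (nat_lit 219902325555199)), (.negSucc (nat_lit 549755813887967)), (.negSucc (nat_lit 219902325555455)), (.ofNat (nat_lit 0)), (.ofNat (nat_lit 0)), (.ofNat (nat_lit 0))⟩,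
    ⟨nat_lit 3, nat_lit 5, (.ofNat (nat_lit 0)), (.ofNat (nat_lit 824633720832000)), (.ofNat (nat_lit 32)), (.ofNat (nat_lit 824633720831968)), (.negSucc (nat_lit 514122125349762120084206896539500543999999)), (.negSucc (nat_lit 183177145171671943550934133506047999999)), (.negSucc (nat_lit 41580975102007727377414642209911318935240703999999999))⟩,
    ⟨nat_lit 3, nat_lit 0, (.ofNat (nat_lit 0)), (.ofNat (nat_lit 274877906944000)), (.ofNat (nat_lit 32)), (.ofNat (nat_lit 274877906943968)), (.negSucc (nat_lit 491368276299759349516088372260503551999999)), (.negSucc (nat_lit 182037629494087670185142941384703999999)), (.negSucc (nat_lit 41580975102007727377414642209911318935240703999999999))⟩,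
    ⟨nat_lit 4, nat_lit 0, (.negSucc (nat_lit 274877906943999)), (.ofNat (nat_lit 274877906944000)), (.negSucc (nat_lit 274877906943967)), (.ofNat (nat_lit 274877906943968)), (.negSucc (nat_lit 503620348865145456745075269949194239999999)), (.negSucc (nat_lit 183746903010464080233829729566719999999)), (.negSucc (nat_lit 41111133575431368875974928738612885952921599999999999))⟩,
    ⟨nat_lit 5, nat_lit 2, (.ofNat (nat_lit 824633720832000)), (.ofNat (nat_lit 1099511627776000)), (.ofNat (nat_lit 824633720832032)), (.ofNat (nat_lit 1099511627775968)), (.ofNat (nat_lit 1120189491692444089507373502966005760000000)), (.ofNat (nat_lit 34185470327528200973735763640320000000)), (.negSucc (nat_lit 220825517490888495676665331510263501689978879999999999))⟩,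
    ⟨nat_lit 6, nat_lit 12, (.negSucc (nat_lit 219902325555199)), (.ofNat (nat_lit 1374389534720000)), (.negSucc (nat_lit 219902325554943)), (.ofNat (nat_lit 1374389534719968)), (.ofNat (nat_lit 2187870100961804862319088872980480000000000)), (.ofNat (nat_lit 0)), (.ofNat (nat_lit 0))⟩,
    ⟨nat_lit 8, nat_lit 2, (.negSucc (nat_lit 213030377881599)), (.ofNat (nat_lit 1099511627776000)), (.negSucc (nat_lit 213030377881567)), (.ofNat (nat_lit 1099511627775968)), (.ofNat (nat_lit 0)), (.ofNat (nat_lit 0)), (.negSucc (nat_lit 183238195364779815561488253806388863104450559999999999))⟩,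
    ⟨nat_lit 8, nat_lit 9, (.negSucc (nat_lit 213030377881599)), (.ofNat (nat_lit 1374389534720000)), (.negSucc (nat_lit 213030377881567)), (.ofNat (nat_lit 1374389534719968)), (.ofNat (nat_lit 2165991399952186813695897984250675200000000)), (.ofNat (nat_lit 0)), (.negSucc (nat_lit 183238195364779815561488253806388863104450559999999999))⟩,
    ⟨nat_lit 9, nat_lit 10, (.ofNat (nat_lit 1374389534720000)), (.ofNat (nat_lit 1429365116108800)), (.ofNat (nat_lit 1374389534720032)), (.ofNat (nat_lit 1429365116108768)), (.ofNat (nat_lit 2198809451466613886630684317345382400000000)), (.negSucc (nat_lit 170927351637641004868678818201599999999)), (.ofNat (nat_lit 51682567923399435158368481842827628055101440000000000))⟩,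
    ⟨nat_lit 10, nat_lit 11, (.ofNat (nat_lit 1429365116108800)), (.ofNat (nat_lit 1649267441664000)), (.ofNat (nat_lit 1429365116108832)), (.ofNat (nat_lit 1649267441663968)), (.ofNat (nat_lit 3852018796505877685720545846991257600000000)), (.ofNat (nat_lit 448684298048807637780281897779200000000)), (.negSucc (nat_lit 833968709673036340055491411554718543616409599999999999))⟩,
    ⟨nat_lit 11, nat_lit 7, (.ofNat (nat_lit 1649267441664000)), (.ofNat (nat_lit 2199023255552000)), (.ofNat (nat_lit 1649267441664032)), (.ofNat (nat_lit 2199023255551968)), (.ofNat (nat_lit 1504160694411240842844373600174080000000000)), (.negSucc (nat_lit 85463675818820502434339409100799999999)), (.ofNat (nat_lit 46984152657635850143971347129843298231910400000000000))⟩,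
    ⟨nat_lit 12, nat_lit 7, (.ofNat (nat_lit 1374389534720000)), (.ofNat (nat_lit 2199023255552000)), (.ofNat (nat_lit 1374389534720032)), (.ofNat (nat_lit 2199023255551968)), (.ofNat (nat_lit 2176930750456995838007493428615577600000000)), (.negSucc (nat_lit 170927351637641004868678818201599999999)), (.ofNat (nat_lit 234920763288179250719856735649216491159552000000000000))⟩]

theorem ok229 : stOK 12 12 S229 = true := by decide +kernel

def S230 : SD where
  vs := [
    ⟨nat_lit 1, nat_lit 3, nat_lit 4, (.ofNat (nat_lit 16)), (.ofNat (nat_lit 274877906944000)), (.ofNat (nat_lit 31019407432578718944318481457296585222280901033984000000)), (.ofNat (nat_lit 0)), (.negSucc (nat_lit 2349207632881792507198567356492164911595519999999999)), (.ofNat (nat_lit 274877906943968)), (.ofNat (nat_lit 274877906944032)), (.negSucc (nat_lit 492606644962374058596361950298374143999999)), (.negSucc (nat_lit 504966401759291879658416115642531839999999)), (.negSucc (nat_lit 504966401759291879658416115642531839999999)), (.negSucc (nat_lit 492606644962374058596361950298374143999999)),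 (.ofNat (nat_lit 42731837909410251217169704550400000000))⟩,
    ⟨nat_lit 2, nat_lit 0, nat_lit 1, (.ofNat (nat_lit 16)), (.negSucc (nat_lit 549755813887999)), (.ofNat (nat_lit 120279437284502097135725017355140140065026473984000000)), (.ofNat (nat_lit 0)), (.ofNat (nat_lit 0)), (.negSucc (nat_lit 549755813888031)), (.negSucc (nat_lit 549755813887967)), (.ofNat (nat_lit 1122343176323078366168718856075345920000000)), (.ofNat (nat_lit 0)), (.ofNat (nat_lit 0)), (.ofNat (nat_lit 1122343176323078366168718856075345920000000)), (.ofNat (nat_lit 136741881310112803894943054561280000000))⟩,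
    ⟨nat_lit 1, nat_lit 5, nat_lit 7, (.ofNat (nat_lit 16)), (.ofNat (nat_lit 1099511627776000)), (.ofNat (nat_lit 49890592347518158154644573031998145957127713193984000000)), (.ofNat (nat_lit 0)), (.negSucc (nat_lit 4698415265763585014397134712984329823191039999999999)), (.ofNat (nat_lit 1099511627775968)), (.ofNat (nat_lit 1099511627776032)), (.ofNat (nat_lit 1122343176323078366168718856075345920000000)), (.ofNat (nat_lit 0)), (.ofNat (nat_lit 0)), (.ofNat (nat_lit 1122343176323078366168718856075345920000000)), (.ofNat (nat_lit 136741881310112803894943054561280000000))⟩,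
    ⟨nat_lit 2, nat_lit 3, nat_lit 2, (.ofNat (nat_lit 16)), (.ofNat (nat_lit 0)), (.ofNat (nat_lit 166426090946542221804488864888355426211208556969984000000)), (.ofNat (nat_lit 0)), (.ofNat (nat_lit 3053969922746330259358137563439814385074176000000000)), (.negSucc (nat_lit 31)), (.ofNat (nat_lit 32)), (.negSucc (nat_lit 492606644962374058596361950298374143999999)), (.negSucc (nat_lit 515432283500064638386525319681015807999999)), (.negSucc (nat_lit 515432283500064638386525319681015807999999)), (.negSucc (nat_lit 492606644962374058596361950298374143999999)), (.ofNat (nat_lit 41592322231825977851378512429056000000))⟩,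
    ⟨nat_lit 0, nat_lit 0, nat_lit 4, (.ofNat (nat_lit 16)), (.negSucc (nat_lit 274877906943999)), (.ofNat (nat_lit 308627622617853021312480384541332204990435094953984000000)), (.ofNat (nat_lit 0)), (.ofNat (nat_lit 9396830531527170028794269425968659646382080000000000)), (.negSucc (nat_lit 274877906944031)), (.negSucc (nat_lit 274877906943967)), (.ofNat (nat_lit 1122343176323078366168718856075345920000000)), (.negSucc (nat_lit 504966401759291879658416115642531839999999)), (.negSucc (nat_lit 504966401759291879658416115642531839999999)), (.ofNat (nat_lit 1122343176323078366168718856075345920000000)), (.ofNat (nat_lit 179473719219523055112112759111680000000))⟩,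
    ⟨nat_lit 0, nat_lit 2, nat_lit 5, (.ofNat (nat_lit 16)), (.ofNat (nat_lit 824633720832000)), (.negSucc (nat_lit 258616750833050361060700086491978918893242355286015999999)), (.ofNat (nat_lit 0)), (.negSucc (nat_lit 14095245797290755043191404138952989469573119999999999)), (.ofNat (nat_lit 824633720831968)), (.ofNat (nat_lit 824633720832032)), (.negSucc (nat_lit 515432283500064638386525319681015807999999)), (.ofNat (nat_lit 1122343176323078366168718856075345920000000)), (.negSucc (nat_lit 515432283500064638386525319681015807999999)), (.ofNat (nat_lit 1122343176323078366168718856075345920000000)), (.ofNat (nat_lit 151555585118708357650228552138752000000))⟩,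
    ⟨nat_lit 0, nat_lit 1, nat_lit 6, (.ofNat (nat_lit 128)), (.negSucc (nat_lit 219902325555199)), (.ofNat (nat_lit 120279437284502097135725017355140140065026473984000000)), (.ofNat (nat_lit 0)), (.ofNat (nat_lit 0)), (.negSucc (nat_lit 219902325555455)), (.negSucc (nat_lit 219902325554943)), (.ofNat (nat_lit 0)), (.ofNat (nat_lit 2187870100961804862319088872980480000000000)), (.ofNat (nat_lit 0)), (.ofNat (nat_lit 2187870100961804862319088872980480000000000)), (.ofNat (nat_lit 0))⟩,
    ⟨nat_lit 1, nat_lit 12, nat_lit 11, (.ofNat (nat_lit 16)), (.ofNat (nat_lit 2199023255552000)), (.ofNat (nat_lit 5283394277483120579086425767073974339721925685673984000000)), (.ofNat (nat_lit 0)), (.ofNat (nat_lit 0)), (.ofNat (nat_lit 2199023255551968)), (.ofNat (nat_lit 2199023255552032)), (.ofNat (nat_lit 2176930750456995838007493428615577600000000)), (.ofNat (nat_lit 1504699115568899412009709938451415040000000)), (.ofNat (nat_lit 1504699115568899412009709938451415040000000)), (.ofNat (nat_lit 2176930750456995838007493428615577600000000)), (.ofNat (nat_lit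 17092735163764100486867881820160000000))⟩,
    ⟨nat_lit 2, nat_lit 8, nat_lit 7, (.ofNat (nat_lit 16)), (.negSucc (nat_lit 213030377881599)), (.ofNat (nat_lit 49890592347518158154644573031998145957127713193984000000)), (.ofNat (nat_lit 0)), (.negSucc (nat_lit 4698415265763585014397134712984329823191039999999999)), (.negSucc (nat_lit 213030377881631)), (.negSucc (nat_lit 213030377881567)), (.ofNat (nat_lit 2165991399952186813695897984250675200000000)), (.ofNat (nat_lit 0)), (.ofNat (nat_lit 0)), (.ofNat (nat_lit 2165991399952186813695897984250675200000000)), (.ofNat (nat_lit 0))⟩,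
    ⟨nat_lit 0, nat_lit 8, nat_lit 9, (.ofNat (nat_lit 16)), (.ofNat (nat_lit 1374389534720000)), (.ofNat (nat_lit 3488228471155435780370582933071634585206916313513984000000)), (.ofNat (nat_lit 0)), (.negSucc (nat_lit 4698415265763585014397134712984329823191039999999999)), (.ofNat (nat_lit 1374389534719968)), (.ofNat (nat_lit 1374389534720032)), (.ofNat (nat_lit 2165991399952186813695897984250675200000000)), (.ofNat (nat_lit 2198809451466613886630684317345382400000000)), (.ofNat (nat_lit 2165991399952186813695897984250675200000000)), (.ofNat (nat_lit 2198809451466613886630684317345382400000000)), (.ofNat (nat_lit 0))⟩,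
    ⟨nat_lit 0, nat_lit 9, nat_lit 10, (.ofNat (nat_lit 16)), (.ofNat (nat_lit 1429365116108800)), (.ofNat (nat_lit 3609109299113001295620992414967295422897975390633984000000)), (.ofNat (nat_lit 0)), (.negSucc (nat_lit 4698415265763585014397134712984329823191039999999999)), (.ofNat (nat_lit 1429365116108768)), (.ofNat (nat_lit 1429365116108832)), (.ofNat (nat_lit 2198809451466613886630684317345382400000000)), (.ofNat (nat_lit 3852018796505877685720545846991257600000000)), (.ofNat (nat_lit 2198809451466613886630684317345382400000000)), (.ofNat (nat_lit 3852018796505877685720545846991257600000000)), (.ofNat (nat_lit 0))⟩,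
    ⟨nat_lit 0, nat_lit 10, nat_lit 11, (.ofNat (nat_lit 16)), (.ofNat (nat_lit 1649267441664000)), (.ofNat (nat_lit 4456177190546986510696623038101814278061441610153984000000)), (.ofNat (nat_lit 0)), (.negSucc (nat_lit 4698415265763585014397134712984329823191039999999999)), (.ofNat (nat_lit 1649267441663968)), (.ofNat (nat_lit 1649267441664032)), (.ofNat (nat_lit 3852018796505877685720545846991257600000000)), (.ofNat (nat_lit 1504699115568899412009709938451415040000000)), (.ofNat (nat_lit 1504699115568899412009709938451415040000000)), (.ofNat (nat_lit 3852018796505877685720545846991257600000000)), (.ofNat (nat_lit 17092735163764100486867881820160000000))⟩,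
    ⟨nat_lit 0, nat_lit 6, nat_lit 12, (.ofNat (nat_lit 16)), (.ofNat (nat_lit 1374389534720000)), (.ofNat (nat_lit 3488223772740170016785568535936921600877093122473984000000)), (.ofNat (nat_lit 0)), (.ofNat (nat_lit 0)), (.ofNat (nat_lit 1374389534719968)), (.ofNat (nat_lit 1374389534720032)), (.ofNat (nat_lit 2187870100961804862319088872980480000000000)), (.ofNat (nat_lit 2176930750456995838007493428615577600000000)), (.ofNat (nat_lit 2176930750456995838007493428615577600000000)), (.ofNat (nat_lit 2187870100961804862319088872980480000000000)), (.ofNat (nat_lit 0))⟩]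
  es := [
    ⟨nat_lit 1, nat_lit 4, (.negSucc (nat_lit 549755813887999)), (.negSucc (nat_lit 274877906943999)), (.negSucc (nat_lit 549755813887967)), (.negSucc (nat_lit 274877906944031)), (.ofNat (nat_lit 1122343176323078366168718856075345920000000)), (.ofNat (nat_lit 34185470327528200973735763640320000000)), (.ofNat (nat_lit 18793661063054340057588538851937319292764160000000000))⟩,
    ⟨nat_lit 1, nat_lit 6, (.negSucc (nat_lit 549755813887999)), (.negSucc (nat_lit 219902325555199)), (.negSucc (nat_lit 549755813887967)), (.negSucc (nat_lit 219902325555455)), (.ofNat (nat_lit 0)), (.ofNat (nat_lit 0)), (.ofNat (nat_lit 0))⟩,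
    ⟨nat_lit 3, nat_lit 5, (.ofNat (nat_lit 0)), (.ofNat (nat_lit 824633720832000)), (.ofNat (nat_lit 32)), (.ofNat (nat_lit 824633720831968)), (.negSucc (nat_lit 515432283500064638386525319681015807999999)), (.negSucc (nat_lit 20796161115912988925689256214527999999)), (.ofNat (nat_lit 3053969922746330259358137563439814385074176000000000))⟩,
    ⟨nat_lit 3, nat_lit 0, (.ofNat (nat_lit 0)), (.ofNat (nat_lit 274877906944000)), (.ofNat (nat_lit 32)), (.ofNat (nat_lit 274877906943968)), (.negSucc (nat_lit 492606644962374058596361950298374143999999)), (.negSucc (nat_lit 19656645438328715559898064093183999999)), (.ofNat (nat_lit 3053969922746330259358137563439814385074176000000000))⟩,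
    ⟨nat_lit 4, nat_lit 0, (.negSucc (nat_lit 274877906943999)), (.ofNat (nat_lit 274877906944000)), (.negSucc (nat_lit 274877906943967)), (.ofNat (nat_lit 274877906943968)), (.negSucc (nat_lit 504966401759291879658416115642531839999999)), (.negSucc (nat_lit 21365918954705125608584852275199999999)), (.ofNat (nat_lit 3523811449322688760797851034738247367393280000000000))⟩,
    ⟨nat_lit 5, nat_lit 2, (.ofNat (nat_lit 824633720832000)), (.ofNat (nat_lit 1099511627776000)), (.ofNat (nat_lit 824633720832032)), (.ofNat (nat_lit 1099511627775968)), (.ofNat (nat_lit 1122343176323078366168718856075345920000000)), (.ofNat (nat_lit 34185470327528200973735763640320000000)), (.negSucc (nat_lit 42285737391872265129574212416858968408719359999999999))⟩,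
    ⟨nat_lit 6, nat_lit 12, (.negSucc (nat_lit 219902325555199)), (.ofNat (nat_lit 1374389534720000)), (.negSucc (nat_lit 219902325554943)), (.ofNat (nat_lit 1374389534719968)), (.ofNat (nat_lit 2187870100961804862319088872980480000000000)), (.ofNat (nat_lit 0)), (.ofNat (nat_lit 0))⟩,
    ⟨nat_lit 8, nat_lit 2, (.negSucc (nat_lit 213030377881599)), (.ofNat (nat_lit 1099511627776000)), (.negSucc (nat_lit 213030377881567)), (.ofNat (nat_lit 1099511627775968)), (.ofNat (nat_lit 0)), (.ofNat (nat_lit 0)), (.negSucc (nat_lit 4698415265763585014397134712984329823191039999999999))⟩,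
    ⟨nat_lit 8, nat_lit 9, (.negSucc (nat_lit 213030377881599)), (.ofNat (nat_lit 1374389534720000)), (.negSucc (nat_lit 213030377881567)), (.ofNat (nat_lit 1374389534719968)), (.ofNat (nat_lit 2165991399952186813695897984250675200000000)), (.ofNat (nat_lit 0)), (.negSucc (nat_lit 4698415265763585014397134712984329823191039999999999))⟩,
    ⟨nat_lit 9, nat_lit 10, (.ofNat (nat_lit 1374389534720000)), (.ofNat (nat_lit 1429365116108800)), (.ofNat (nat_lit 1374389534720032)), (.ofNat (nat_lit 1429365116108768)), (.ofNat (nat_lit 2198809451466613886630684317345382400000000)), (.ofNat (nat_lit 0)), (.negSucc (nat_lit 4698415265763585014397134712984329823191039999999999))⟩,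
    ⟨nat_lit 10, nat_lit 11, (.ofNat (nat_lit 1429365116108800)), (.ofNat (nat_lit 1649267441664000)), (.ofNat (nat_lit 1429365116108832)), (.ofNat (nat_lit 1649267441663968)), (.ofNat (nat_lit 3852018796505877685720545846991257600000000)), (.ofNat (nat_lit 0)), (.negSucc (nat_lit 4698415265763585014397134712984329823191039999999999))⟩,
    ⟨nat_lit 11, nat_lit 7, (.ofNat (nat_lit 1649267441664000)), (.ofNat (nat_lit 2199023255552000)), (.ofNat (nat_lit 1649267441664032)), (.ofNat (nat_lit 2199023255551968)), (.ofNat (nat_lit 1504699115568899412009709938451415040000000)), (.ofNat (nat_lit 8546367581882050243433940910080000000)), (.negSucc (nat_lit 18793661063054340057588538851937319292764159999999999))⟩,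
    ⟨nat_lit 12, nat_lit 7, (.ofNat (nat_lit 1374389534720000)), (.ofNat (nat_lit 2199023255552000)), (.ofNat (nat_lit 1374389534720032)), (.ofNat (nat_lit 2199023255551968)), (.ofNat (nat_lit 2176930750456995838007493428615577600000000)), (.ofNat (nat_lit 0)), (.ofNat (nat_lit 0))⟩]

theorem ok230 : stOK 12 12 S230 = true := by decide +kernel

def S231 : SD where
  vs := [
    ⟨nat_lit 1, nat_lit 3, nat_lit 4, (.ofNat (nat_lit 16)), (.ofNat (nat_lit 274877906944000)), (.ofNat (nat_lit 31014709017312955359304084322583600892457709993984000000)), (.ofNat (nat_lit 0)), (.ofNat (nat_lit 2349207632881792507198567356492164911595520000000000)), (.ofNat (nat_lit 274877906943968)), (.ofNat (nat_lit 274877906944032)), (.negSucc (nat_lit 492645958253250716027481746426560511999999)), (.negSucc (nat_lit 505009133597201289909633285347082239999999)), (.negSucc (nat_lit 505009133597201289909633285347082239999999)), (.negSucc (nat_lit 492645958253250716027481746426560511999999)), (.ofNat (nat_lit 42731837909410251217169704550400000000))⟩,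
    ⟨nat_lit 2, nat_lit 0, nat_lit 1, (.ofNat (nat_lit 16)), (.negSucc (nat_lit 549755813887999)), (.ofNat (nat_lit 120279437284502097135725017355140140065026473984000000)), (.ofNat (nat_lit 0)), (.ofNat (nat_lit 0)), (.negSucc (nat_lit 549755813888031)), (.negSucc (nat_lit 549755813887967)), (.ofNat (nat_lit 1122411547263733422570666327602626560000000)), (.ofNat (nat_lit 0)), (.ofNat (nat_lit 0)), (.ofNat (nat_lit 1122411547263733422570666327602626560000000)), (.ofNat (nat_lit 136741881310112803894943054561280000000))⟩,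
    ⟨nat_lit 1, nat_lit 5, nat_lit 7, (.ofNat (nat_lit 16)), (.ofNat (nat_lit 1099511627776000)), (.ofNat (nat_lit 49881195516986630984615778762572177297481331113984000000)), (.ofNat (nat_lit 0)), (.ofNat (nat_lit 4698415265763585014397134712984329823191040000000000)), (.ofNat (nat_lit 1099511627775968)), (.ofNat (nat_lit 1099511627776032)), (.ofNat (nat_lit 1122411547263733422570666327602626560000000)), (.ofNat (nat_lit 0)), (.ofNat (nat_lit 0)), (.ofNat (nat_lit 1122411547263733422570666327602626560000000)), (.ofNat (nat_lit 136741881310112803894943054561280000000))⟩,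
    ⟨nat_lit 2, nat_lit 3, nat_lit 2, (.ofNat (nat_lit 16)), (.ofNat (nat_lit 0)), (.ofNat (nat_lit 166432198886387714465007581163482305839978705321984000000)), (.ofNat (nat_lit 0)), (.negSucc (nat_lit 3053969922746330259358137563439814385074175999999999)), (.negSucc (nat_lit 31)), (.ofNat (nat_lit 32)), (.negSucc (nat_lit 492645958253250716027481746426560511999999)), (.negSucc (nat_lit 515473875822296464364376698193444863999999)), (.negSucc (nat_lit 515473875822296464364376698193444863999999)), (.negSucc (nat_lit 492645958253250716027481746426560511999999)), (.ofNat (nat_lit 41592322231825977851378512429056000000))⟩,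
    ⟨nat_lit 0, nat_lit 0, nat_lit 4, (.ofNat (nat_lit 16)), (.negSucc (nat_lit 274877906943999)), (.ofNat (nat_lit 308646416278916075652537973080184142309727859113984000000)), (.ofNat (nat_lit 0)), (.negSucc (nat_lit 9396830531527170028794269425968659646382079999999999)), (.negSucc (nat_lit 274877906944031)), (.negSucc (nat_lit 274877906943967)), (.ofNat (nat_lit 1122411547263733422570666327602626560000000)), (.negSucc (nat_lit 505009133597201289909633285347082239999999)), (.negSucc (nat_lit 505009133597201289909633285347082239999999)), (.ofNat (nat_lit 1122411547263733422570666327602626560000000)), (.ofNat (nat_lit 179473719219523055112112759111680000000))⟩,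
    ⟨nat_lit 0, nat_lit 2, nat_lit 5, (.ofNat (nat_lit 16)), (.ofNat (nat_lit 824633720832000)), (.negSucc (nat_lit 258644941324644942570786469300256824872181501526015999999)), (.ofNat (nat_lit 0)), (.ofNat (nat_lit 14095245797290755043191404138952989469573120000000000)), (.ofNat (nat_lit 824633720831968)), (.ofNat (nat_lit 824633720832032)), (.negSucc (nat_lit 515473875822296464364376698193444863999999)), (.ofNat (nat_lit 1122411547263733422570666327602626560000000)), (.negSucc (nat_lit 515473875822296464364376698193444863999999)), (.ofNat (nat_lit 1122411547263733422570666327602626560000000)), (.ofNat (nat_lit 151555585118708357650228552138752000000))⟩,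
    ⟨nat_lit 0, nat_lit 1, nat_lit 6, (.ofNat (nat_lit 128)), (.negSucc (nat_lit 219902325555199)), (.ofNat (nat_lit 120279437284502097135725017355140140065026473984000000)), (.ofNat (nat_lit 0)), (.ofNat (nat_lit 0)), (.negSucc (nat_lit 219902325555455)), (.negSucc (nat_lit 219902325554943)), (.ofNat (nat_lit 0)), (.ofNat (nat_lit 2187870100961804862319088872980480000000000)), (.ofNat (nat_lit 0)), (.ofNat (nat_lit 2187870100961804862319088872980480000000000)), (.ofNat (nat_lit 0))⟩,
    ⟨nat_lit 1, nat_lit 12, nat_lit 11, (.ofNat (nat_lit 16)), (.ofNat (nat_lit 2199023255552000)), (.ofNat (nat_lit 5283394277483120579086425767073974339721925685673984000000)), (.ofNat (nat_lit 0)), (.ofNat (nat_lit 0)), (.ofNat (nat_lit 2199023255551968)), (.ofNat (nat_lit 2199023255552032)), (.ofNat (nat_lit 2176930750456995838007493428615577600000000)), (.ofNat (nat_lit 1504716208304063176110196806333235200000000)), (.ofNat (nat_lit 1504716208304063176110196806333235200000000)), (.ofNat (nat_lit 2176930750456995838007493428615577600000000)), (.ofNat (nat_lit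 17092735163764100486867881820160000000))⟩,
    ⟨nat_lit 2, nat_lit 8, nat_lit 7, (.ofNat (nat_lit 16)), (.negSucc (nat_lit 213030377881599)), (.ofNat (nat_lit 49881195516986630984615778762572177297481331113984000000)), (.ofNat (nat_lit 0)), (.ofNat (nat_lit 4698415265763585014397134712984329823191040000000000)), (.negSucc (nat_lit 213030377881631)), (.negSucc (nat_lit 213030377881567)), (.ofNat (nat_lit 2165991399952186813695897984250675200000000)), (.ofNat (nat_lit 0)), (.ofNat (nat_lit 0)), (.ofNat (nat_lit 2165991399952186813695897984250675200000000)), (.ofNat (nat_lit 0))⟩,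
    ⟨nat_lit 2, nat_lit 12, nat_lit 9, (.ofNat (nat_lit 16)), (.ofNat (nat_lit 1374604283084800)), (.ofNat (nat_lit 3488691265059113493494501050840863541694500630953984000000)), (.negSucc (nat_lit 214748364799)), (.negSucc (nat_lit 467492318943476708932514903941940817407508479999999999)), (.ofNat (nat_lit 1374604283084768)), (.ofNat (nat_lit 1374604283084832)), (.ofNat (nat_lit 2176930750456995838007493428615577600000000)), (.ofNat (nat_lit 2198809451466613886630684317345382400000000)), (.ofNat (nat_lit 2176930750456995838007493428615577600000000)), (.ofNat (nat_lit 2198809451466613886630684317345382400000000)), (.ofNat (nat_lit 0))⟩,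
    ⟨nat_lit 0, nat_lit 9, nat_lit 10, (.ofNat (nat_lit 16)), (.ofNat (nat_lit 1429365116108800)), (.ofNat (nat_lit 3609099902282469768450963620697869454238329008553984000000)), (.ofNat (nat_lit 0)), (.ofNat (nat_lit 4698415265763585014397134712984329823191040000000000)), (.ofNat (nat_lit 1429365116108768)), (.ofNat (nat_lit 1429365116108832)), (.ofNat (nat_lit 2198809451466613886630684317345382400000000)), (.ofNat (nat_lit 3852018796505877685720545846991257600000000)), (.ofNat (nat_lit 2198809451466613886630684317345382400000000)), (.ofNat (nat_lit 3852018796505877685720545846991257600000000)), (.ofNat (nat_lit 0))⟩,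
    ⟨nat_lit 0, nat_lit 10, nat_lit 11, (.ofNat (nat_lit 16)), (.ofNat (nat_lit 1649267441664000)), (.ofNat (nat_lit 4456167793716454983526594243832388309401795228073984000000)), (.ofNat (nat_lit 0)), (.ofNat (nat_lit 4698415265763585014397134712984329823191040000000000)), (.ofNat (nat_lit 1649267441663968)), (.ofNat (nat_lit 1649267441664032)), (.ofNat (nat_lit 3852018796505877685720545846991257600000000)), (.ofNat (nat_lit 1504716208304063176110196806333235200000000)), (.ofNat (nat_lit 1504716208304063176110196806333235200000000)), (.ofNat (nat_lit 3852018796505877685720545846991257600000000)), (.ofNat (nat_lit 17092735163764100486867881820160000000))⟩,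
    ⟨nat_lit 1, nat_lit 6, nat_lit 8, (.ofNat (nat_lit 16)), (.ofNat (nat_lit 1374174786355200)), (.ofNat (nat_lit 3487753931213593658284128822465623167894774018473984000000)), (.ofNat (nat_lit 214748364800)), (.ofNat (nat_lit 469841526576358501439713471298432982319104000000000000)), (.ofNat (nat_lit 1374174786355168)), (.ofNat (nat_lit 1374174786355232)), (.ofNat (nat_lit 2187870100961804862319088872980480000000000)), (.ofNat (nat_lit 2165991399952186813695897984250675200000000)), (.ofNat (nat_lit 2165991399952186813695897984250675200000000)), (.ofNat (nat_lit 2187870100961804862319088872980480000000000)), (.ofNat (nat_lit 0))⟩]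
  es := [
    ⟨nat_lit 1, nat_lit 4, (.negSucc (nat_lit 549755813887999)), (.negSucc (nat_lit 274877906943999)), (.negSucc (nat_lit 549755813887967)), (.negSucc (nat_lit 274877906944031)), (.ofNat (nat_lit 1122411547263733422570666327602626560000000)), (.negSucc (nat_lit 34185470327528200973735763640319999999)), (.negSucc (nat_lit 18793661063054340057588538851937319292764159999999999))⟩,
    ⟨nat_lit 1, nat_lit 6, (.negSucc (nat_lit 549755813887999)), (.negSucc (nat_lit 219902325555199)), (.negSucc (nat_lit 549755813887967)), (.negSucc (nat_lit 219902325555455)), (.ofNat (nat_lit 0)), (.ofNat (nat_lit 0)), (.ofNat (nat_lit 0))⟩,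
    ⟨nat_lit 3, nat_lit 5, (.ofNat (nat_lit 0)), (.ofNat (nat_lit 824633720832000)), (.ofNat (nat_lit 32)), (.ofNat (nat_lit 824633720831968)), (.negSucc (nat_lit 515473875822296464364376698193444863999999)), (.ofNat (nat_lit 20796161115912988925689256214528000000)), (.negSucc (nat_lit 3053969922746330259358137563439814385074175999999999))⟩,
    ⟨nat_lit 3, nat_lit 0, (.ofNat (nat_lit 0)), (.ofNat (nat_lit 274877906944000)), (.ofNat (nat_lit 32)), (.ofNat (nat_lit 274877906943968)), (.negSucc (nat_lit 492645958253250716027481746426560511999999)), (.ofNat (nat_lit 19656645438328715559898064093184000000)), (.negSucc (nat_lit 3053969922746330259358137563439814385074175999999999))⟩,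
    ⟨nat_lit 4, nat_lit 0, (.negSucc (nat_lit 274877906943999)), (.ofNat (nat_lit 274877906944000)), (.negSucc (nat_lit 274877906943967)), (.ofNat (nat_lit 274877906943968)), (.negSucc (nat_lit 505009133597201289909633285347082239999999)), (.ofNat (nat_lit 21365918954705125608584852275200000000)), (.negSucc (nat_lit 3523811449322688760797851034738247367393279999999999))⟩,
    ⟨nat_lit 5, nat_lit 2, (.ofNat (nat_lit 824633720832000)), (.ofNat (nat_lit 1099511627776000)), (.ofNat (nat_lit 824633720832032)), (.ofNat (nat_lit 1099511627775968)), (.ofNat (nat_lit 1122411547263733422570666327602626560000000)), (.negSucc (nat_lit 34185470327528200973735763640319999999)), (.ofNat (nat_lit 42285737391872265129574212416858968408719360000000000))⟩,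
    ⟨nat_lit 6, nat_lit 12, (.negSucc (nat_lit 219902325555199)), (.ofNat (nat_lit 1374174786355200)), (.negSucc (nat_lit 219902325554943)), (.ofNat (nat_lit 1374174786355168)), (.ofNat (nat_lit 2187870100961804862319088872980480000000000)), (.ofNat (nat_lit 0)), (.ofNat (nat_lit 0))⟩,
    ⟨nat_lit 8, nat_lit 2, (.negSucc (nat_lit 213030377881599)), (.ofNat (nat_lit 1099511627776000)), (.negSucc (nat_lit 213030377881567)), (.ofNat (nat_lit 1099511627775968)), (.ofNat (nat_lit 0)), (.ofNat (nat_lit 0)), (.ofNat (nat_lit 4698415265763585014397134712984329823191040000000000))⟩,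
    ⟨nat_lit 8, nat_lit 12, (.negSucc (nat_lit 213030377881599)), (.ofNat (nat_lit 1374174786355200)), (.negSucc (nat_lit 213030377881567)), (.ofNat (nat_lit 1374174786355168)), (.ofNat (nat_lit 2165991399952186813695897984250675200000000)), (.ofNat (nat_lit 0)), (.ofNat (nat_lit 4698415265763585014397134712984329823191040000000000))⟩,
    ⟨nat_lit 9, nat_lit 10, (.ofNat (nat_lit 1374604283084800)), (.ofNat (nat_lit 1429365116108800)), (.ofNat (nat_lit 1374604283084832)), (.ofNat (nat_lit 1429365116108768)), (.ofNat (nat_lit 2198809451466613886630684317345382400000000)), (.ofNat (nat_lit 0)), (.ofNat (nat_lit 4698415265763585014397134712984329823191040000000000))⟩,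
    ⟨nat_lit 10, nat_lit 11, (.ofNat (nat_lit 1429365116108800)), (.ofNat (nat_lit 1649267441664000)), (.ofNat (nat_lit 1429365116108832)), (.ofNat (nat_lit 1649267441663968)), (.ofNat (nat_lit 3852018796505877685720545846991257600000000)), (.ofNat (nat_lit 0)), (.ofNat (nat_lit 4698415265763585014397134712984329823191040000000000))⟩,
    ⟨nat_lit 11, nat_lit 7, (.ofNat (nat_lit 1649267441664000)), (.ofNat (nat_lit 2199023255552000)), (.ofNat (nat_lit 1649267441664032)), (.ofNat (nat_lit 2199023255551968)), (.ofNat (nat_lit 1504716208304063176110196806333235200000000)), (.negSucc (nat_lit 8546367581882050243433940910079999999)), (.ofNat (nat_lit 18793661063054340057588538851937319292764160000000000))⟩,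
    ⟨nat_lit 9, nat_lit 7, (.ofNat (nat_lit 1374604283084800)), (.ofNat (nat_lit 2199023255552000)), (.ofNat (nat_lit 1374604283084832)), (.ofNat (nat_lit 2199023255551968)), (.ofNat (nat_lit 2176930750456995838007493428615577600000000)), (.ofNat (nat_lit 0)), (.ofNat (nat_lit 0))⟩]

theorem ok231 : stOK 12 12 S231 = true := by decide +kernel

def S232 : SD where
  vs := [
    ⟨nat_lit 1, nat_lit 3, nat_lit 4, (.ofNat (nat_lit 16)), (.ofNat (nat_lit 274877906944000)), (.ofNat (nat_lit 31019407432578718944318481457296585222280901033984000000)), (.ofNat (nat_lit 0)), (.ofNat (nat_lit 2349207632881792507198567356492164911595520000000000)), (.ofNat (nat_lit 274877906943968)), (.ofNat (nat_lit 274877906944032)), (.negSucc (nat_lit 492606644962374058596361950298374143999999)), (.negSucc (nat_lit 504966401759291879658416115642531839999999)), (.negSucc (nat_lit 504966401759291879658416115642531839999999)), (.negSucc (nat_lit 492606644962374058596361950298374143999999)), (.ofNat (nat_lit 42731837909410251217169704550400000000))⟩,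
    ⟨nat_lit 2, nat_lit 0, nat_lit 1, (.ofNat (nat_lit 16)), (.negSucc (nat_lit 549755813887999)), (.ofNat (nat_lit 120279437284502097135725017355140140065026473984000000)), (.ofNat (nat_lit 0)), (.ofNat (nat_lit 0)), (.negSucc (nat_lit 549755813888031)), (.negSucc (nat_lit 549755813887967)), (.ofNat (nat_lit 1122343176323078366168718856075345920000000)), (.ofNat (nat_lit 0)), (.ofNat (nat_lit 0)), (.ofNat (nat_lit 1122343176323078366168718856075345920000000)), (.ofNat (nat_lit 136741881310112803894943054561280000000))⟩,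
    ⟨nat_lit 1, nat_lit 5, nat_lit 7, (.ofNat (nat_lit 16)), (.ofNat (nat_lit 1099511627776000)), (.ofNat (nat_lit 49890592347518158154644573031998145957127713193984000000)), (.ofNat (nat_lit 0)), (.ofNat (nat_lit 4698415265763585014397134712984329823191040000000000)), (.ofNat (nat_lit 1099511627775968)), (.ofNat (nat_lit 1099511627776032)), (.ofNat (nat_lit 1122343176323078366168718856075345920000000)), (.ofNat (nat_lit 0)), (.ofNat (nat_lit 0)), (.ofNat (nat_lit 1122343176323078366168718856075345920000000)), (.ofNat (nat_lit 136741881310112803894943054561280000000))⟩,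
    ⟨nat_lit 2, nat_lit 3, nat_lit 2, (.ofNat (nat_lit 16)), (.ofNat (nat_lit 0)), (.ofNat (nat_lit 166426090946542221804488864888355426211208556969984000000)), (.ofNat (nat_lit 0)), (.negSucc (nat_lit 3053969922746330259358137563439814385074175999999999)), (.negSucc (nat_lit 31)), (.ofNat (nat_lit 32)), (.negSucc (nat_lit 492606644962374058596361950298374143999999)), (.negSucc (nat_lit 515432283500064638386525319681015807999999)), (.negSucc (nat_lit 515432283500064638386525319681015807999999)), (.negSucc (nat_lit 492606644962374058596361950298374143999999)), (.ofNat (nat_lit 41592322231825977851378512429056000000))⟩,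
    ⟨nat_lit 0, nat_lit 0, nat_lit 4, (.ofNat (nat_lit 16)), (.negSucc (nat_lit 274877906943999)), (.ofNat (nat_lit 308627622617853021312480384541332204990435094953984000000)), (.ofNat (nat_lit 0)), (.negSucc (nat_lit 9396830531527170028794269425968659646382079999999999)), (.negSucc (nat_lit 274877906944031)), (.negSucc (nat_lit 274877906943967)), (.ofNat (nat_lit 1122343176323078366168718856075345920000000)), (.negSucc (nat_lit 504966401759291879658416115642531839999999)), (.negSucc (nat_lit 504966401759291879658416115642531839999999)), (.ofNat (nat_lit 1122343176323078366168718856075345920000000)), (.ofNat (nat_lit 179473719219523055112112759111680000000))⟩,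
    ⟨nat_lit 0, nat_lit 2, nat_lit 5, (.ofNat (nat_lit 16)), (.ofNat (nat_lit 824633720832000)), (.negSucc (nat_lit 258616750833050361060700086491978918893242355286015999999)), (.ofNat (nat_lit 0)), (.ofNat (nat_lit 14095245797290755043191404138952989469573120000000000)), (.ofNat (nat_lit 824633720831968)), (.ofNat (nat_lit 824633720832032)), (.negSucc (nat_lit 515432283500064638386525319681015807999999)), (.ofNat (nat_lit 1122343176323078366168718856075345920000000)), (.negSucc (nat_lit 515432283500064638386525319681015807999999)), (.ofNat (nat_lit 1122343176323078366168718856075345920000000)), (.ofNat (nat_lit 151555585118708357650228552138752000000))⟩,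
    ⟨nat_lit 0, nat_lit 1, nat_lit 6, (.ofNat (nat_lit 128)), (.negSucc (nat_lit 219902325555199)), (.ofNat (nat_lit 120279437284502097135725017355140140065026473984000000)), (.ofNat (nat_lit 0)), (.ofNat (nat_lit 0)), (.negSucc (nat_lit 219902325555455)), (.negSucc (nat_lit 219902325554943)), (.ofNat (nat_lit 0)), (.ofNat (nat_lit 2187870100961804862319088872980480000000000)), (.ofNat (nat_lit 0)), (.ofNat (nat_lit 2187870100961804862319088872980480000000000)), (.ofNat (nat_lit 0))⟩,
    ⟨nat_lit 1, nat_lit 12, nat_lit 11, (.ofNat (nat_lit 16)), (.ofNat (nat_lit 2199023255552000)), (.ofNat (nat_lit 5283394277483120579086425767073974339721925685673984000000)), (.ofNat (nat_lit 0)), (.ofNat (nat_lit 0)), (.ofNat (nat_lit 2199023255551968)), (.ofNat (nat_lit 2199023255552032)), (.ofNat (nat_lit 2176930750456995838007493428615577600000000)), (.ofNat (nat_lit 1504699115568899412009709938451415040000000)), (.ofNat (nat_lit 1504699115568899412009709938451415040000000)), (.ofNat (nat_lit 2176930750456995838007493428615577600000000)), (.ofNat (nat_lit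 17092735163764100486867881820160000000))⟩,
    ⟨nat_lit 2, nat_lit 8, nat_lit 7, (.ofNat (nat_lit 16)), (.negSucc (nat_lit 213030377881599)), (.ofNat (nat_lit 49890592347518158154644573031998145957127713193984000000)), (.ofNat (nat_lit 0)), (.ofNat (nat_lit 4698415265763585014397134712984329823191040000000000)), (.negSucc (nat_lit 213030377881631)), (.negSucc (nat_lit 213030377881567)), (.ofNat (nat_lit 2165991399952186813695897984250675200000000)), (.ofNat (nat_lit 0)), (.ofNat (nat_lit 0)), (.ofNat (nat_lit 2165991399952186813695897984250675200000000)), (.ofNat (nat_lit 0))⟩,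
    ⟨nat_lit 0, nat_lit 8, nat_lit 9, (.ofNat (nat_lit 16)), (.ofNat (nat_lit 1374389534720000)), (.ofNat (nat_lit 3488228471155435780370582933071634585206916313513984000000)), (.ofNat (nat_lit 0)), (.ofNat (nat_lit 4698415265763585014397134712984329823191040000000000)), (.ofNat (nat_lit 1374389534719968)), (.ofNat (nat_lit 1374389534720032)), (.ofNat (nat_lit 2165991399952186813695897984250675200000000)), (.ofNat (nat_lit 2198809451466613886630684317345382400000000)), (.ofNat (nat_lit 2165991399952186813695897984250675200000000)), (.ofNat (nat_lit 2198809451466613886630684317345382400000000)), (.ofNat (nat_lit 0))⟩,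
    ⟨nat_lit 0, nat_lit 9, nat_lit 10, (.ofNat (nat_lit 16)), (.ofNat (nat_lit 1429365116108800)), (.ofNat (nat_lit 3609109299113001295620992414967295422897975390633984000000)), (.ofNat (nat_lit 0)), (.ofNat (nat_lit 4698415265763585014397134712984329823191040000000000)), (.ofNat (nat_lit 1429365116108768)), (.ofNat (nat_lit 1429365116108832)), (.ofNat (nat_lit 2198809451466613886630684317345382400000000)), (.ofNat (nat_lit 3852018796505877685720545846991257600000000)), (.ofNat (nat_lit 2198809451466613886630684317345382400000000)), (.ofNat (nat_lit 3852018796505877685720545846991257600000000)), (.ofNat (nat_lit 0))⟩,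
    ⟨nat_lit 0, nat_lit 10, nat_lit 11, (.ofNat (nat_lit 16)), (.ofNat (nat_lit 1649267441664000)), (.ofNat (nat_lit 4456177190546986510696623038101814278061441610153984000000)), (.ofNat (nat_lit 0)), (.ofNat (nat_lit 4698415265763585014397134712984329823191040000000000)), (.ofNat (nat_lit 1649267441663968)), (.ofNat (nat_lit 1649267441664032)), (.ofNat (nat_lit 3852018796505877685720545846991257600000000)), (.ofNat (nat_lit 1504699115568899412009709938451415040000000)), (.ofNat (nat_lit 1504699115568899412009709938451415040000000)), (.ofNat (nat_lit 3852018796505877685720545846991257600000000)), (.ofNat (nat_lit 17092735163764100486867881820160000000))⟩,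
    ⟨nat_lit 0, nat_lit 6, nat_lit 12, (.ofNat (nat_lit 16)), (.ofNat (nat_lit 1374389534720000)), (.ofNat (nat_lit 3488223772740170016785568535936921600877093122473984000000)), (.ofNat (nat_lit 0)), (.ofNat (nat_lit 0)), (.ofNat (nat_lit 1374389534719968)), (.ofNat (nat_lit 1374389534720032)), (.ofNat (nat_lit 2187870100961804862319088872980480000000000)), (.ofNat (nat_lit 2176930750456995838007493428615577600000000)), (.ofNat (nat_lit 2176930750456995838007493428615577600000000)), (.ofNat (nat_lit 2187870100961804862319088872980480000000000)), (.ofNat (nat_lit 0))⟩]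
  es := [
    ⟨nat_lit 1, nat_lit 4, (.negSucc (nat_lit 549755813887999)), (.negSucc (nat_lit 274877906943999)), (.negSucc (nat_lit 549755813887967)), (.negSucc (nat_lit 274877906944031)), (.ofNat (nat_lit 1122343176323078366168718856075345920000000)), (.negSucc (nat_lit 34185470327528200973735763640319999999)), (.negSucc (nat_lit 18793661063054340057588538851937319292764159999999999))⟩,
    ⟨nat_lit 1, nat_lit 6, (.negSucc (nat_lit 549755813887999)), (.negSucc (nat_lit 219902325555199)), (.negSucc (nat_lit 549755813887967)), (.negSucc (nat_lit 219902325555455)), (.ofNat (nat_lit 0)), (.ofNat (nat_lit 0)), (.ofNat (nat_lit 0))⟩,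
    ⟨nat_lit 3, nat_lit 5, (.ofNat (nat_lit 0)), (.ofNat (nat_lit 824633720832000)), (.ofNat (nat_lit 32)), (.ofNat (nat_lit 824633720831968)), (.negSucc (nat_lit 515432283500064638386525319681015807999999)), (.ofNat (nat_lit 20796161115912988925689256214528000000)), (.negSucc (nat_lit 3053969922746330259358137563439814385074175999999999))⟩,
    ⟨nat_lit 3, nat_lit 0, (.ofNat (nat_lit 0)), (.ofNat (nat_lit 274877906944000)), (.ofNat (nat_lit 32)), (.ofNat (nat_lit 274877906943968)), (.negSucc (nat_lit 492606644962374058596361950298374143999999)), (.ofNat (nat_lit 19656645438328715559898064093184000000)), (.negSucc (nat_lit 3053969922746330259358137563439814385074175999999999))⟩,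
    ⟨nat_lit 4, nat_lit 0, (.negSucc (nat_lit 274877906943999)), (.ofNat (nat_lit 274877906944000)), (.negSucc (nat_lit 274877906943967)), (.ofNat (nat_lit 274877906943968)), (.negSucc (nat_lit 504966401759291879658416115642531839999999)), (.ofNat (nat_lit 21365918954705125608584852275200000000)), (.negSucc (nat_lit 3523811449322688760797851034738247367393279999999999))⟩,
    ⟨nat_lit 5, nat_lit 2, (.ofNat (nat_lit 824633720832000)), (.ofNat (nat_lit 1099511627776000)), (.ofNat (nat_lit 824633720832032)), (.ofNat (nat_lit 1099511627775968)), (.ofNat (nat_lit 1122343176323078366168718856075345920000000)), (.negSucc (nat_lit 34185470327528200973735763640319999999)), (.ofNat (nat_lit 42285737391872265129574212416858968408719360000000000))⟩,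
    ⟨nat_lit 6, nat_lit 12, (.negSucc (nat_lit 219902325555199)), (.ofNat (nat_lit 1374389534720000)), (.negSucc (nat_lit 219902325554943)), (.ofNat (nat_lit 1374389534719968)), (.ofNat (nat_lit 2187870100961804862319088872980480000000000)), (.ofNat (nat_lit 0)), (.ofNat (nat_lit 0))⟩,
    ⟨nat_lit 8, nat_lit 2, (.negSucc (nat_lit 213030377881599)), (.ofNat (nat_lit 1099511627776000)), (.negSucc (nat_lit 213030377881567)), (.ofNat (nat_lit 1099511627775968)), (.ofNat (nat_lit 0)), (.ofNat (nat_lit 0)), (.ofNat (nat_lit 4698415265763585014397134712984329823191040000000000))⟩,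
    ⟨nat_lit 8, nat_lit 9, (.negSucc (nat_lit 213030377881599)), (.ofNat (nat_lit 1374389534720000)), (.negSucc (nat_lit 213030377881567)), (.ofNat (nat_lit 1374389534719968)), (.ofNat (nat_lit 2165991399952186813695897984250675200000000)), (.ofNat (nat_lit 0)), (.ofNat (nat_lit 4698415265763585014397134712984329823191040000000000))⟩,
    ⟨nat_lit 9, nat_lit 10, (.ofNat (nat_lit 1374389534720000)), (.ofNat (nat_lit 1429365116108800)), (.ofNat (nat_lit 1374389534720032)), (.ofNat (nat_lit 1429365116108768)), (.ofNat (nat_lit 2198809451466613886630684317345382400000000)), (.ofNat (nat_lit 0)), (.ofNat (nat_lit 4698415265763585014397134712984329823191040000000000))⟩,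
    ⟨nat_lit 10, nat_lit 11, (.ofNat (nat_lit 1429365116108800)), (.ofNat (nat_lit 1649267441664000)), (.ofNat (nat_lit 1429365116108832)), (.ofNat (nat_lit 1649267441663968)), (.ofNat (nat_lit 3852018796505877685720545846991257600000000)), (.ofNat (nat_lit 0)), (.ofNat (nat_lit 4698415265763585014397134712984329823191040000000000))⟩,
    ⟨nat_lit 11, nat_lit 7, (.ofNat (nat_lit 1649267441664000)), (.ofNat (nat_lit 2199023255552000)), (.ofNat (nat_lit 1649267441664032)), (.ofNat (nat_lit 2199023255551968)), (.ofNat (nat_lit 1504699115568899412009709938451415040000000)), (.negSucc (nat_lit 8546367581882050243433940910079999999)), (.ofNat (nat_lit 18793661063054340057588538851937319292764160000000000))⟩,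
    ⟨nat_lit 12, nat_lit 7, (.ofNat (nat_lit 1374389534720000)), (.ofNat (nat_lit 2199023255552000)), (.ofNat (nat_lit 1374389534720032)), (.ofNat (nat_lit 2199023255551968)), (.ofNat (nat_lit 2176930750456995838007493428615577600000000)), (.ofNat (nat_lit 0)), (.ofNat (nat_lit 0))⟩]

theorem ok232 : stOK 12 12 S232 = true := by decide +kernel

def S233 : SD where
  vs := [
    ⟨nat_lit 1, nat_lit 3, nat_lit 4, (.ofNat (nat_lit 16)), (.ofNat (nat_lit 274877906944000)), (.ofNat (nat_lit 31012359809680073566796885755227108727546114473984000000)), (.ofNat (nat_lit 0)), (.ofNat (nat_lit 2349207632881792507198567356492164911595520000000000)), (.ofNat (nat_lit 274877906943968)), (.ofNat (nat_lit 274877906944032)), (.negSucc (nat_lit 492665614898689044743041644490653695999999)), (.negSucc (nat_lit 505030499516155995035241870199357439999999)), (.negSucc (nat_lit 505030499516155995035241870199357439999999)), (.negSucc (nat_lit 492665614898689044743041644490653695999999)), (.ofNat (nat_lit 42731837909410251217169704550400000000))⟩,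
    ⟨nat_lit 2, nat_lit 0, nat_lit 1, (.ofNat (nat_lit 16)), (.negSucc (nat_lit 549755813887999)), (.ofNat (nat_lit 120279437284502097135725017355140140065026473984000000)), (.ofNat (nat_lit 0)), (.ofNat (nat_lit 0)), (.negSucc (nat_lit 549755813888031)), (.negSucc (nat_lit 549755813887967)), (.ofNat (nat_lit 1122445732734060950771640063366266880000000)), (.ofNat (nat_lit 0)), (.ofNat (nat_lit 0)), (.ofNat (nat_lit 1122445732734060950771640063366266880000000)), (.ofNat (nat_lit 136741881310112803894943054561280000000))⟩,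
    ⟨nat_lit 1, nat_lit 5, nat_lit 7, (.ofNat (nat_lit 16)), (.ofNat (nat_lit 1099511627776000)), (.ofNat (nat_lit 49876497101720867399601381627859192967658140073984000000)), (.ofNat (nat_lit 0)), (.ofNat (nat_lit 4698415265763585014397134712984329823191040000000000)), (.ofNat (nat_lit 1099511627775968)), (.ofNat (nat_lit 1099511627776032)), (.ofNat (nat_lit 1122445732734060950771640063366266880000000)), (.ofNat (nat_lit 0)), (.ofNat (nat_lit 0)), (.ofNat (nat_lit 1122445732734060950771640063366266880000000)), (.ofNat (nat_lit 136741881310112803894943054561280000000))⟩,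
    ⟨nat_lit 2, nat_lit 3, nat_lit 2, (.ofNat (nat_lit 16)), (.ofNat (nat_lit 0)), (.ofNat (nat_lit 166435252856310460795266939301045745654363779497984000000)), (.ofNat (nat_lit 0)), (.negSucc (nat_lit 3053969922746330259358137563439814385074175999999999)), (.negSucc (nat_lit 31)), (.ofNat (nat_lit 32)), (.negSucc (nat_lit 492665614898689044743041644490653695999999)), (.negSucc (nat_lit 515494671983412377353302387449659391999999)), (.negSucc (nat_lit 515494671983412377353302387449659391999999)), (.negSucc (nat_lit 492665614898689044743041644490653695999999)), (.ofNat (nat_lit 41592322231825977851378512429056000000))⟩,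
    ⟨nat_lit 0, nat_lit 0, nat_lit 4, (.ofNat (nat_lit 16)), (.negSucc (nat_lit 274877906943999)), (.ofNat (nat_lit 308655813109447602822566767349610110969374241193984000000)), (.ofNat (nat_lit 0)), (.negSucc (nat_lit 9396830531527170028794269425968659646382079999999999)), (.negSucc (nat_lit 274877906944031)), (.negSucc (nat_lit 274877906943967)), (.ofNat (nat_lit 1122445732734060950771640063366266880000000)), (.negSucc (nat_lit 505030499516155995035241870199357439999999)), (.negSucc (nat_lit 505030499516155995035241870199357439999999)), (.ofNat (nat_lit 1122445732734060950771640063366266880000000)), (.ofNat (nat_lit 179473719219523055112112759111680000000))⟩,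
    ⟨nat_lit 0, nat_lit 2, nat_lit 5, (.ofNat (nat_lit 16)), (.ofNat (nat_lit 824633720832000)), (.negSucc (nat_lit 258659036570442233325829660704395777861651074646015999999)), (.ofNat (nat_lit 0)), (.ofNat (nat_lit 14095245797290755043191404138952989469573120000000000)), (.ofNat (nat_lit 824633720831968)), (.ofNat (nat_lit 824633720832032)), (.negSucc (nat_lit 515494671983412377353302387449659391999999)), (.ofNat (nat_lit 1122445732734060950771640063366266880000000)), (.negSucc (nat_lit 515494671983412377353302387449659391999999)), (.ofNat (nat_lit 1122445732734060950771640063366266880000000)), (.ofNat (nat_lit 151555585118708357650228552138752000000))⟩,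
    ⟨nat_lit 0, nat_lit 1, nat_lit 6, (.ofNat (nat_lit 128)), (.negSucc (nat_lit 219902325555199)), (.ofNat (nat_lit 120279437284502097135725017355140140065026473984000000)), (.ofNat (nat_lit 0)), (.ofNat (nat_lit 0)), (.negSucc (nat_lit 219902325555455)), (.negSucc (nat_lit 219902325554943)), (.ofNat (nat_lit 0)), (.ofNat (nat_lit 2187870100961804862319088872980480000000000)), (.ofNat (nat_lit 0)), (.ofNat (nat_lit 2187870100961804862319088872980480000000000)), (.ofNat (nat_lit 0))⟩,
    ⟨nat_lit 1, nat_lit 12, nat_lit 11, (.ofNat (nat_lit 16)), (.ofNat (nat_lit 2199023255552000)), (.ofNat (nat_lit 5283394277483120579086425767073974339721925685673984000000)), (.ofNat (nat_lit 0)), (.ofNat (nat_lit 0)), (.ofNat (nat_lit 2199023255551968)), (.ofNat (nat_lit 2199023255552032)), (.ofNat (nat_lit 2176930750456995838007493428615577600000000)), (.ofNat (nat_lit 1504724754671645058160440240274145280000000)), (.ofNat (nat_lit 1504724754671645058160440240274145280000000)), (.ofNat (nat_lit 2176930750456995838007493428615577600000000)), (.ofNat (nat_lit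 17092735163764100486867881820160000000))⟩,
    ⟨nat_lit 2, nat_lit 8, nat_lit 7, (.ofNat (nat_lit 16)), (.negSucc (nat_lit 213030377881599)), (.ofNat (nat_lit 49876497101720867399601381627859192967658140073984000000)), (.ofNat (nat_lit 0)), (.ofNat (nat_lit 4698415265763585014397134712984329823191040000000000)), (.negSucc (nat_lit 213030377881631)), (.negSucc (nat_lit 213030377881567)), (.ofNat (nat_lit 2165991399952186813695897984250675200000000)), (.ofNat (nat_lit 0)), (.ofNat (nat_lit 0)), (.ofNat (nat_lit 2165991399952186813695897984250675200000000)), (.ofNat (nat_lit 0))⟩,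
    ⟨nat_lit 0, nat_lit 8, nat_lit 9, (.ofNat (nat_lit 16)), (.ofNat (nat_lit 1374389534720000)), (.ofNat (nat_lit 3488214375909638489615539741667495632217446740393984000000)), (.ofNat (nat_lit 0)), (.ofNat (nat_lit 4698415265763585014397134712984329823191040000000000)), (.ofNat (nat_lit 1374389534719968)), (.ofNat (nat_lit 1374389534720032)), (.ofNat (nat_lit 2165991399952186813695897984250675200000000)), (.ofNat (nat_lit 2198809451466613886630684317345382400000000)), (.ofNat (nat_lit 2165991399952186813695897984250675200000000)), (.ofNat (nat_lit 2198809451466613886630684317345382400000000)), (.ofNat (nat_lit 0))⟩,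
    ⟨nat_lit 0, nat_lit 9, nat_lit 10, (.ofNat (nat_lit 16)), (.ofNat (nat_lit 1429365116108800)), (.ofNat (nat_lit 3609095203867204004865949223563156469908505817513984000000)), (.ofNat (nat_lit 0)), (.ofNat (nat_lit 4698415265763585014397134712984329823191040000000000)), (.ofNat (nat_lit 1429365116108768)), (.ofNat (nat_lit 1429365116108832)), (.ofNat (nat_lit 2198809451466613886630684317345382400000000)), (.ofNat (nat_lit 3852018796505877685720545846991257600000000)), (.ofNat (nat_lit 2198809451466613886630684317345382400000000)), (.ofNat (nat_lit 3852018796505877685720545846991257600000000)), (.ofNat (nat_lit 0))⟩,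
    ⟨nat_lit 0, nat_lit 10, nat_lit 11, (.ofNat (nat_lit 16)), (.ofNat (nat_lit 1649267441664000)), (.ofNat (nat_lit 4456163095301189219941579846697675325071972037033984000000)), (.ofNat (nat_lit 0)), (.ofNat (nat_lit 4698415265763585014397134712984329823191040000000000)), (.ofNat (nat_lit 1649267441663968)), (.ofNat (nat_lit 1649267441664032)), (.ofNat (nat_lit 3852018796505877685720545846991257600000000)), (.ofNat (nat_lit 1504724754671645058160440240274145280000000)), (.ofNat (nat_lit 1504724754671645058160440240274145280000000)), (.ofNat (nat_lit 3852018796505877685720545846991257600000000)), (.ofNat (nat_lit 17092735163764100486867881820160000000))⟩,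
    ⟨nat_lit 0, nat_lit 6, nat_lit 12, (.ofNat (nat_lit 16)), (.ofNat (nat_lit 1374389534720000)), (.ofNat (nat_lit 3488223772740170016785568535936921600877093122473984000000)), (.ofNat (nat_lit 0)), (.ofNat (nat_lit 0)), (.ofNat (nat_lit 1374389534719968)), (.ofNat (nat_lit 1374389534720032)), (.ofNat (nat_lit 2187870100961804862319088872980480000000000)), (.ofNat (nat_lit 2176930750456995838007493428615577600000000)), (.ofNat (nat_lit 2176930750456995838007493428615577600000000)), (.ofNat (nat_lit 2187870100961804862319088872980480000000000)), (.ofNat (nat_lit 0))⟩]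
  es := [
    ⟨nat_lit 1, nat_lit 4, (.negSucc (nat_lit 549755813887999)), (.negSucc (nat_lit 274877906943999)), (.negSucc (nat_lit 549755813887967)), (.negSucc (nat_lit 274877906944031)), (.ofNat (nat_lit 1122445732734060950771640063366266880000000)), (.negSucc (nat_lit 34185470327528200973735763640319999999)), (.negSucc (nat_lit 18793661063054340057588538851937319292764159999999999))⟩,
    ⟨nat_lit 1, nat_lit 6, (.negSucc (nat_lit 549755813887999)), (.negSucc (nat_lit 219902325555199)), (.negSucc (nat_lit 549755813887967)), (.negSucc (nat_lit 219902325555455)), (.ofNat (nat_lit 0)), (.ofNat (nat_lit 0)), (.ofNat (nat_lit 0))⟩,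
    ⟨nat_lit 3, nat_lit 5, (.ofNat (nat_lit 0)), (.ofNat (nat_lit 824633720832000)), (.ofNat (nat_lit 32)), (.ofNat (nat_lit 824633720831968)), (.negSucc (nat_lit 515494671983412377353302387449659391999999)), (.ofNat (nat_lit 20796161115912988925689256214528000000)), (.negSucc (nat_lit 3053969922746330259358137563439814385074175999999999))⟩,
    ⟨nat_lit 3, nat_lit 0, (.ofNat (nat_lit 0)), (.ofNat (nat_lit 274877906944000)), (.ofNat (nat_lit 32)), (.ofNat (nat_lit 274877906943968)), (.negSucc (nat_lit 492665614898689044743041644490653695999999)), (.ofNat (nat_lit 19656645438328715559898064093184000000)), (.negSucc (nat_lit 3053969922746330259358137563439814385074175999999999))⟩,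
    ⟨nat_lit 4, nat_lit 0, (.negSucc (nat_lit 274877906943999)), (.ofNat (nat_lit 274877906944000)), (.negSucc (nat_lit 274877906943967)), (.ofNat (nat_lit 274877906943968)), (.negSucc (nat_lit 505030499516155995035241870199357439999999)), (.ofNat (nat_lit 21365918954705125608584852275200000000)), (.negSucc (nat_lit 3523811449322688760797851034738247367393279999999999))⟩,
    ⟨nat_lit 5, nat_lit 2, (.ofNat (nat_lit 824633720832000)), (.ofNat (nat_lit 1099511627776000)), (.ofNat (nat_lit 824633720832032)), (.ofNat (nat_lit 1099511627775968)), (.ofNat (nat_lit 1122445732734060950771640063366266880000000)), (.negSucc (nat_lit 34185470327528200973735763640319999999)), (.ofNat (nat_lit 42285737391872265129574212416858968408719360000000000))⟩,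
    ⟨nat_lit 6, nat_lit 12, (.negSucc (nat_lit 219902325555199)), (.ofNat (nat_lit 1374389534720000)), (.negSucc (nat_lit 219902325554943)), (.ofNat (nat_lit 1374389534719968)), (.ofNat (nat_lit 2187870100961804862319088872980480000000000)), (.ofNat (nat_lit 0)), (.ofNat (nat_lit 0))⟩,
    ⟨nat_lit 8, nat_lit 2, (.negSucc (nat_lit 213030377881599)), (.ofNat (nat_lit 1099511627776000)), (.negSucc (nat_lit 213030377881567)), (.ofNat (nat_lit 1099511627775968)), (.ofNat (nat_lit 0)), (.ofNat (nat_lit 0)), (.ofNat (nat_lit 4698415265763585014397134712984329823191040000000000))⟩,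
    ⟨nat_lit 8, nat_lit 9, (.negSucc (nat_lit 213030377881599)), (.ofNat (nat_lit 1374389534720000)), (.negSucc (nat_lit 213030377881567)), (.ofNat (nat_lit 1374389534719968)), (.ofNat (nat_lit 2165991399952186813695897984250675200000000)), (.ofNat (nat_lit 0)), (.ofNat (nat_lit 4698415265763585014397134712984329823191040000000000))⟩,
    ⟨nat_lit 9, nat_lit 10, (.ofNat (nat_lit 1374389534720000)), (.ofNat (nat_lit 1429365116108800)), (.ofNat (nat_lit 1374389534720032)), (.ofNat (nat_lit 1429365116108768)), (.ofNat (nat_lit 2198809451466613886630684317345382400000000)), (.ofNat (nat_lit 0)), (.ofNat (nat_lit 4698415265763585014397134712984329823191040000000000))⟩,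
    ⟨nat_lit 10, nat_lit 11, (.ofNat (nat_lit 1429365116108800)), (.ofNat (nat_lit 1649267441664000)), (.ofNat (nat_lit 1429365116108832)), (.ofNat (nat_lit 1649267441663968)), (.ofNat (nat_lit 3852018796505877685720545846991257600000000)), (.ofNat (nat_lit 0)), (.ofNat (nat_lit 4698415265763585014397134712984329823191040000000000))⟩,
    ⟨nat_lit 11, nat_lit 7, (.ofNat (nat_lit 1649267441664000)), (.ofNat (nat_lit 2199023255552000)), (.ofNat (nat_lit 1649267441664032)), (.ofNat (nat_lit 2199023255551968)), (.ofNat (nat_lit 1504724754671645058160440240274145280000000)), (.negSucc (nat_lit 8546367581882050243433940910079999999)), (.ofNat (nat_lit 18793661063054340057588538851937319292764160000000000))⟩,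
    ⟨nat_lit 12, nat_lit 7, (.ofNat (nat_lit 1374389534720000)), (.ofNat (nat_lit 2199023255552000)), (.ofNat (nat_lit 1374389534720032)), (.ofNat (nat_lit 2199023255551968)), (.ofNat (nat_lit 2176930750456995838007493428615577600000000)), (.ofNat (nat_lit 0)), (.ofNat (nat_lit 0))⟩]

theorem ok233 : stOK 12 12 S233 = true := by decide +kernel

def S234 : SD where
  vs := [
    ⟨nat_lit 1, nat_lit 3, nat_lit 4, (.ofNat (nat_lit 16)), (.ofNat (nat_lit 274877906944000)), (.ofNat (nat_lit 31021756640211600736825680024653077387192496553984000000)), (.ofNat (nat_lit 0)), (.ofNat (nat_lit 2349207632881792507198567356492164911595520000000000)), (.ofNat (nat_lit 274877906943968)), (.ofNat (nat_lit 274877906944032)), (.negSucc (nat_lit 492586988316935729880802052234280959999999)), (.negSucc (nat_lit 504945035840337174532807530790256639999999)), (.negSucc (nat_lit 504945035840337174532807530790256639999999)), (.negSucc (nat_lit 492586988316935729880802052234280959999999)), (.ofNat (nat_lit 42731837909410251217169704550400000000))⟩,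
    ⟨nat_lit 2, nat_lit 0, nat_lit 1, (.ofNat (nat_lit 16)), (.negSucc (nat_lit 549755813887999)), (.ofNat (nat_lit 120279437284502097135725017355140140065026473984000000)), (.ofNat (nat_lit 0)), (.ofNat (nat_lit 0)), (.negSucc (nat_lit 549755813888031)), (.negSucc (nat_lit 549755813887967)), (.ofNat (nat_lit 1122308990852750837967745120311705600000000)), (.ofNat (nat_lit 0)), (.ofNat (nat_lit 0)), (.ofNat (nat_lit 1122308990852750837967745120311705600000000)), (.ofNat (nat_lit 136741881310112803894943054561280000000))⟩,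
    ⟨nat_lit 1, nat_lit 5, nat_lit 7, (.ofNat (nat_lit 16)), (.ofNat (nat_lit 1099511627776000)), (.ofNat (nat_lit 49895290762783921739658970166711130286950904233984000000)), (.ofNat (nat_lit 0)), (.ofNat (nat_lit 4698415265763585014397134712984329823191040000000000)), (.ofNat (nat_lit 1099511627775968)), (.ofNat (nat_lit 1099511627776032)), (.ofNat (nat_lit 1122308990852750837967745120311705600000000)), (.ofNat (nat_lit 0)), (.ofNat (nat_lit 0)), (.ofNat (nat_lit 1122308990852750837967745120311705600000000)), (.ofNat (nat_lit 136741881310112803894943054561280000000))⟩,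
    ⟨nat_lit 2, nat_lit 3, nat_lit 2, (.ofNat (nat_lit 16)), (.ofNat (nat_lit 0)), (.ofNat (nat_lit 166423036976619475474229506750791986396823482793984000000)), (.ofNat (nat_lit 0)), (.negSucc (nat_lit 3053969922746330259358137563439814385074175999999999)), (.negSucc (nat_lit 31)), (.ofNat (nat_lit 32)), (.negSucc (nat_lit 492586988316935729880802052234280959999999)), (.negSucc (nat_lit 515411487338948725397599630424801279999999)), (.negSucc (nat_lit 515411487338948725397599630424801279999999)), (.negSucc (nat_lit 492586988316935729880802052234280959999999)), (.ofNat (nat_lit 41592322231825977851378512429056000000))⟩,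
    ⟨nat_lit 0, nat_lit 0, nat_lit 4, (.ofNat (nat_lit 16)), (.negSucc (nat_lit 274877906943999)), (.ofNat (nat_lit 308618225787321494142451590271906236330788712873984000000)), (.ofNat (nat_lit 0)), (.negSucc (nat_lit 9396830531527170028794269425968659646382079999999999)), (.negSucc (nat_lit 274877906944031)), (.negSucc (nat_lit 274877906943967)), (.ofNat (nat_lit 1122308990852750837967745120311705600000000)), (.negSucc (nat_lit 504945035840337174532807530790256639999999)), (.negSucc (nat_lit 504945035840337174532807530790256639999999)), (.ofNat (nat_lit 1122308990852750837967745120311705600000000)), (.ofNat (nat_lit 179473719219523055112112759111680000000))⟩,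
    ⟨nat_lit 0, nat_lit 2, nat_lit 5, (.ofNat (nat_lit 16)), (.ofNat (nat_lit 824633720832000)), (.negSucc (nat_lit 258602655587253070305656895087839965903772782166015999999)), (.ofNat (nat_lit 0)), (.ofNat (nat_lit 14095245797290755043191404138952989469573120000000000)), (.ofNat (nat_lit 824633720831968)), (.ofNat (nat_lit 824633720832032)), (.negSucc (nat_lit 515411487338948725397599630424801279999999)), (.ofNat (nat_lit 1122308990852750837967745120311705600000000)), (.negSucc (nat_lit 515411487338948725397599630424801279999999)), (.ofNat (nat_lit 1122308990852750837967745120311705600000000)), (.ofNat (nat_lit 151555585118708357650228552138752000000))⟩,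
    ⟨nat_lit 0, nat_lit 1, nat_lit 6, (.ofNat (nat_lit 128)), (.negSucc (nat_lit 219902325555199)), (.ofNat (nat_lit 120279437284502097135725017355140140065026473984000000)), (.ofNat (nat_lit 0)), (.ofNat (nat_lit 0)), (.negSucc (nat_lit 219902325555455)), (.negSucc (nat_lit 219902325554943)), (.ofNat (nat_lit 0)), (.ofNat (nat_lit 2187870100961804862319088872980480000000000)), (.ofNat (nat_lit 0)), (.ofNat (nat_lit 2187870100961804862319088872980480000000000)), (.ofNat (nat_lit 0))⟩,
    ⟨nat_lit 1, nat_lit 12, nat_lit 11, (.ofNat (nat_lit 16)), (.ofNat (nat_lit 2199023255552000)), (.ofNat (nat_lit 5283394277483120579086425767073974339721925685673984000000)), (.ofNat (nat_lit 0)), (.ofNat (nat_lit 0)), (.ofNat (nat_lit 2199023255551968)), (.ofNat (nat_lit 2199023255552032)), (.ofNat (nat_lit 2176930750456995838007493428615577600000000)), (.ofNat (nat_lit 1504690569201317529959466504510504960000000)), (.ofNat (nat_lit 1504690569201317529959466504510504960000000)), (.ofNat (nat_lit 2176930750456995838007493428615577600000000)), (.ofNat (nat_lit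 17092735163764100486867881820160000000))⟩,
    ⟨nat_lit 2, nat_lit 8, nat_lit 7, (.ofNat (nat_lit 16)), (.negSucc (nat_lit 213030377881599)), (.ofNat (nat_lit 49895290762783921739658970166711130286950904233984000000)), (.ofNat (nat_lit 0)), (.ofNat (nat_lit 4698415265763585014397134712984329823191040000000000)), (.negSucc (nat_lit 213030377881631)), (.negSucc (nat_lit 213030377881567)), (.ofNat (nat_lit 2165991399952186813695897984250675200000000)), (.ofNat (nat_lit 0)), (.ofNat (nat_lit 0)), (.ofNat (nat_lit 2165991399952186813695897984250675200000000)), (.ofNat (nat_lit 0))⟩,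
    ⟨nat_lit 0, nat_lit 8, nat_lit 9, (.ofNat (nat_lit 16)), (.ofNat (nat_lit 1374389534720000)), (.ofNat (nat_lit 3488233169570701543955597330206347569536739504553984000000)), (.ofNat (nat_lit 0)), (.ofNat (nat_lit 4698415265763585014397134712984329823191040000000000)), (.ofNat (nat_lit 1374389534719968)), (.ofNat (nat_lit 1374389534720032)), (.ofNat (nat_lit 2165991399952186813695897984250675200000000)), (.ofNat (nat_lit 2198809451466613886630684317345382400000000)), (.ofNat (nat_lit 2165991399952186813695897984250675200000000)), (.ofNat (nat_lit 2198809451466613886630684317345382400000000)), (.ofNat (nat_lit 0))⟩,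
    ⟨nat_lit 0, nat_lit 9, nat_lit 10, (.ofNat (nat_lit 16)), (.ofNat (nat_lit 1429365116108800)), (.ofNat (nat_lit 3609113997528267059206006812102008407227798581673984000000)), (.ofNat (nat_lit 0)), (.ofNat (nat_lit 4698415265763585014397134712984329823191040000000000)), (.ofNat (nat_lit 1429365116108768)), (.ofNat (nat_lit 1429365116108832)), (.ofNat (nat_lit 2198809451466613886630684317345382400000000)), (.ofNat (nat_lit 3852018796505877685720545846991257600000000)), (.ofNat (nat_lit 2198809451466613886630684317345382400000000)), (.ofNat (nat_lit 3852018796505877685720545846991257600000000)), (.ofNat (nat_lit 0))⟩,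
    ⟨nat_lit 0, nat_lit 10, nat_lit 11, (.ofNat (nat_lit 16)), (.ofNat (nat_lit 1649267441664000)), (.ofNat (nat_lit 4456181888962252274281637435236527262391264801193984000000)), (.ofNat (nat_lit 0)), (.ofNat (nat_lit 4698415265763585014397134712984329823191040000000000)), (.ofNat (nat_lit 1649267441663968)), (.ofNat (nat_lit 1649267441664032)), (.ofNat (nat_lit 3852018796505877685720545846991257600000000)), (.ofNat (nat_lit 1504690569201317529959466504510504960000000)), (.ofNat (nat_lit 1504690569201317529959466504510504960000000)), (.ofNat (nat_lit 3852018796505877685720545846991257600000000)), (.ofNat (nat_lit 17092735163764100486867881820160000000))⟩,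
    ⟨nat_lit 0, nat_lit 6, nat_lit 12, (.ofNat (nat_lit 16)), (.ofNat (nat_lit 1374389534720000)), (.ofNat (nat_lit 3488223772740170016785568535936921600877093122473984000000)), (.ofNat (nat_lit 0)), (.ofNat (nat_lit 0)), (.ofNat (nat_lit 1374389534719968)), (.ofNat (nat_lit 1374389534720032)), (.ofNat (nat_lit 2187870100961804862319088872980480000000000)), (.ofNat (nat_lit 2176930750456995838007493428615577600000000)), (.ofNat (nat_lit 2176930750456995838007493428615577600000000)), (.ofNat (nat_lit 2187870100961804862319088872980480000000000)), (.ofNat (nat_lit 0))⟩]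
  es := [
    ⟨nat_lit 1, nat_lit 4, (.negSucc (nat_lit 549755813887999)), (.negSucc (nat_lit 274877906943999)), (.negSucc (nat_lit 549755813887967)), (.negSucc (nat_lit 274877906944031)), (.ofNat (nat_lit 1122308990852750837967745120311705600000000)), (.negSucc (nat_lit 34185470327528200973735763640319999999)), (.negSucc (nat_lit 18793661063054340057588538851937319292764159999999999))⟩,
    ⟨nat_lit 1, nat_lit 6, (.negSucc (nat_lit 549755813887999)), (.negSucc (nat_lit 219902325555199)), (.negSucc (nat_lit 549755813887967)), (.negSucc (nat_lit 219902325555455)), (.ofNat (nat_lit 0)), (.ofNat (nat_lit 0)), (.ofNat (nat_lit 0))⟩,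
    ⟨nat_lit 3, nat_lit 5, (.ofNat (nat_lit 0)), (.ofNat (nat_lit 824633720832000)), (.ofNat (nat_lit 32)), (.ofNat (nat_lit 824633720831968)), (.negSucc (nat_lit 515411487338948725397599630424801279999999)), (.ofNat (nat_lit 20796161115912988925689256214528000000)), (.negSucc (nat_lit 3053969922746330259358137563439814385074175999999999))⟩,
    ⟨nat_lit 3, nat_lit 0, (.ofNat (nat_lit 0)), (.ofNat (nat_lit 274877906944000)), (.ofNat (nat_lit 32)), (.ofNat (nat_lit 274877906943968)), (.negSucc (nat_lit 492586988316935729880802052234280959999999)), (.ofNat (nat_lit 19656645438328715559898064093184000000)), (.negSucc (nat_lit 3053969922746330259358137563439814385074175999999999))⟩,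
    ⟨nat_lit 4, nat_lit 0, (.negSucc (nat_lit 274877906943999)), (.ofNat (nat_lit 274877906944000)), (.negSucc (nat_lit 274877906943967)), (.ofNat (nat_lit 274877906943968)), (.negSucc (nat_lit 504945035840337174532807530790256639999999)), (.ofNat (nat_lit 21365918954705125608584852275200000000)), (.negSucc (nat_lit 3523811449322688760797851034738247367393279999999999))⟩,
    ⟨nat_lit 5, nat_lit 2, (.ofNat (nat_lit 824633720832000)), (.ofNat (nat_lit 1099511627776000)), (.ofNat (nat_lit 824633720832032)), (.ofNat (nat_lit 1099511627775968)), (.ofNat (nat_lit 1122308990852750837967745120311705600000000)), (.negSucc (nat_lit 34185470327528200973735763640319999999)), (.ofNat (nat_lit 42285737391872265129574212416858968408719360000000000))⟩,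
    ⟨nat_lit 6, nat_lit 12, (.negSucc (nat_lit 219902325555199)), (.ofNat (nat_lit 1374389534720000)), (.negSucc (nat_lit 219902325554943)), (.ofNat (nat_lit 1374389534719968)), (.ofNat (nat_lit 2187870100961804862319088872980480000000000)), (.ofNat (nat_lit 0)), (.ofNat (nat_lit 0))⟩,
    ⟨nat_lit 8, nat_lit 2, (.negSucc (nat_lit 213030377881599)), (.ofNat (nat_lit 1099511627776000)), (.negSucc (nat_lit 213030377881567)), (.ofNat (nat_lit 1099511627775968)), (.ofNat (nat_lit 0)), (.ofNat (nat_lit 0)), (.ofNat (nat_lit 4698415265763585014397134712984329823191040000000000))⟩,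
    ⟨nat_lit 8, nat_lit 9, (.negSucc (nat_lit 213030377881599)), (.ofNat (nat_lit 1374389534720000)), (.negSucc (nat_lit 213030377881567)), (.ofNat (nat_lit 1374389534719968)), (.ofNat (nat_lit 2165991399952186813695897984250675200000000)), (.ofNat (nat_lit 0)), (.ofNat (nat_lit 4698415265763585014397134712984329823191040000000000))⟩,
    ⟨nat_lit 9, nat_lit 10, (.ofNat (nat_lit 1374389534720000)), (.ofNat (nat_lit 1429365116108800)), (.ofNat (nat_lit 1374389534720032)), (.ofNat (nat_lit 1429365116108768)), (.ofNat (nat_lit 2198809451466613886630684317345382400000000)), (.ofNat (nat_lit 0)), (.ofNat (nat_lit 4698415265763585014397134712984329823191040000000000))⟩,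
    ⟨nat_lit 10, nat_lit 11, (.ofNat (nat_lit 1429365116108800)), (.ofNat (nat_lit 1649267441664000)), (.ofNat (nat_lit 1429365116108832)), (.ofNat (nat_lit 1649267441663968)), (.ofNat (nat_lit 3852018796505877685720545846991257600000000)), (.ofNat (nat_lit 0)), (.ofNat (nat_lit 4698415265763585014397134712984329823191040000000000))⟩,
    ⟨nat_lit 11, nat_lit 7, (.ofNat (nat_lit 1649267441664000)), (.ofNat (nat_lit 2199023255552000)), (.ofNat (nat_lit 1649267441664032)), (.ofNat (nat_lit 2199023255551968)), (.ofNat (nat_lit 1504690569201317529959466504510504960000000)), (.negSucc (nat_lit 8546367581882050243433940910079999999)), (.ofNat (nat_lit 18793661063054340057588538851937319292764160000000000))⟩,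
    ⟨nat_lit 12, nat_lit 7, (.ofNat (nat_lit 1374389534720000)), (.ofNat (nat_lit 2199023255552000)), (.ofNat (nat_lit 1374389534720032)), (.ofNat (nat_lit 2199023255551968)), (.ofNat (nat_lit 2176930750456995838007493428615577600000000)), (.ofNat (nat_lit 0)), (.ofNat (nat_lit 0))⟩]

theorem ok234 : stOK 12 12 S234 = true := by decide +kernel

def S235 : SD where
  vs := [
    ⟨nat_lit 1, nat_lit 3, nat_lit 4, (.ofNat (nat_lit 16)), (.ofNat (nat_lit 274877906944000)), (.ofNat (nat_lit 31014709017312955359304084322583600892457709993984000000)), (.ofNat (nat_lit 0)), (.negSucc (nat_lit 2349207632881792507198567356492164911595519999999999)), (.ofNat (nat_lit 274877906943968)), (.ofNat (nat_lit 274877906944032)), (.negSucc (nat_lit 492645958253250716027481746426560511999999)), (.negSucc (nat_lit 505009133597201289909633285347082239999999)), (.negSucc (nat_lit 505009133597201289909633285347082239999999)), (.negSucc (nat_lit 492645958253250716027481746426560511999999)), (.ofNat (nat_lit 42731837909410251217169704550400000000))⟩,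
    ⟨nat_lit 2, nat_lit 0, nat_lit 1, (.ofNat (nat_lit 16)), (.negSucc (nat_lit 549755813887999)), (.ofNat (nat_lit 120279437284502097135725017355140140065026473984000000)), (.ofNat (nat_lit 0)), (.ofNat (nat_lit 0)), (.negSucc (nat_lit 549755813888031)), (.negSucc (nat_lit 549755813887967)), (.ofNat (nat_lit 1122411547263733422570666327602626560000000)), (.ofNat (nat_lit 0)), (.ofNat (nat_lit 0)), (.ofNat (nat_lit 1122411547263733422570666327602626560000000)), (.ofNat (nat_lit 136741881310112803894943054561280000000))⟩,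
    ⟨nat_lit 1, nat_lit 5, nat_lit 7, (.ofNat (nat_lit 16)), (.ofNat (nat_lit 1099511627776000)), (.ofNat (nat_lit 49881195516986630984615778762572177297481331113984000000)), (.ofNat (nat_lit 0)), (.negSucc (nat_lit 4698415265763585014397134712984329823191039999999999)), (.ofNat (nat_lit 1099511627775968)), (.ofNat (nat_lit 1099511627776032)), (.ofNat (nat_lit 1122411547263733422570666327602626560000000)), (.ofNat (nat_lit 0)), (.ofNat (nat_lit 0)), (.ofNat (nat_lit 1122411547263733422570666327602626560000000)), (.ofNat (nat_lit 136741881310112803894943054561280000000))⟩,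
    ⟨nat_lit 2, nat_lit 3, nat_lit 2, (.ofNat (nat_lit 16)), (.ofNat (nat_lit 0)), (.ofNat (nat_lit 166432198886387714465007581163482305839978705321984000000)), (.ofNat (nat_lit 0)), (.ofNat (nat_lit 3053969922746330259358137563439814385074176000000000)), (.negSucc (nat_lit 31)), (.ofNat (nat_lit 32)), (.negSucc (nat_lit 492645958253250716027481746426560511999999)), (.negSucc (nat_lit 515473875822296464364376698193444863999999)), (.negSucc (nat_lit 515473875822296464364376698193444863999999)), (.negSucc (nat_lit 492645958253250716027481746426560511999999)), (.ofNat (nat_lit 41592322231825977851378512429056000000))⟩,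
    ⟨nat_lit 0, nat_lit 0, nat_lit 4, (.ofNat (nat_lit 16)), (.negSucc (nat_lit 274877906943999)), (.ofNat (nat_lit 308646416278916075652537973080184142309727859113984000000)), (.ofNat (nat_lit 0)), (.ofNat (nat_lit 9396830531527170028794269425968659646382080000000000)), (.negSucc (nat_lit 274877906944031)), (.negSucc (nat_lit 274877906943967)), (.ofNat (nat_lit 1122411547263733422570666327602626560000000)), (.negSucc (nat_lit 505009133597201289909633285347082239999999)), (.negSucc (nat_lit 505009133597201289909633285347082239999999)), (.ofNat (nat_lit 1122411547263733422570666327602626560000000)), (.ofNat (nat_lit 179473719219523055112112759111680000000))⟩,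
    ⟨nat_lit 0, nat_lit 2, nat_lit 5, (.ofNat (nat_lit 16)), (.ofNat (nat_lit 824633720832000)), (.negSucc (nat_lit 258644941324644942570786469300256824872181501526015999999)), (.ofNat (nat_lit 0)), (.negSucc (nat_lit 14095245797290755043191404138952989469573119999999999)), (.ofNat (nat_lit 824633720831968)), (.ofNat (nat_lit 824633720832032)), (.negSucc (nat_lit 515473875822296464364376698193444863999999)), (.ofNat (nat_lit 1122411547263733422570666327602626560000000)), (.negSucc (nat_lit 515473875822296464364376698193444863999999)), (.ofNat (nat_lit 1122411547263733422570666327602626560000000)), (.ofNat (nat_lit 151555585118708357650228552138752000000))⟩,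
    ⟨nat_lit 0, nat_lit 1, nat_lit 6, (.ofNat (nat_lit 128)), (.negSucc (nat_lit 219902325555199)), (.ofNat (nat_lit 120279437284502097135725017355140140065026473984000000)), (.ofNat (nat_lit 0)), (.ofNat (nat_lit 0)), (.negSucc (nat_lit 219902325555455)), (.negSucc (nat_lit 219902325554943)), (.ofNat (nat_lit 0)), (.ofNat (nat_lit 2187870100961804862319088872980480000000000)), (.ofNat (nat_lit 0)), (.ofNat (nat_lit 2187870100961804862319088872980480000000000)), (.ofNat (nat_lit 0))⟩,
    ⟨nat_lit 1, nat_lit 12, nat_lit 11, (.ofNat (nat_lit 16)), (.ofNat (nat_lit 2199023255552000)), (.ofNat (nat_lit 5283394277483120579086425767073974339721925685673984000000)), (.ofNat (nat_lit 0)), (.ofNat (nat_lit 0)), (.ofNat (nat_lit 2199023255551968)), (.ofNat (nat_lit 2199023255552032)), (.ofNat (nat_lit 2176930750456995838007493428615577600000000)), (.ofNat (nat_lit 1504716208304063176110196806333235200000000)), (.ofNat (nat_lit 1504716208304063176110196806333235200000000)), (.ofNat (nat_lit 2176930750456995838007493428615577600000000)), (.ofNat (nat_lit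 17092735163764100486867881820160000000))⟩,
    ⟨nat_lit 2, nat_lit 8, nat_lit 7, (.ofNat (nat_lit 16)), (.negSucc (nat_lit 213030377881599)), (.ofNat (nat_lit 49881195516986630984615778762572177297481331113984000000)), (.ofNat (nat_lit 0)), (.negSucc (nat_lit 4698415265763585014397134712984329823191039999999999)), (.negSucc (nat_lit 213030377881631)), (.negSucc (nat_lit 213030377881567)), (.ofNat (nat_lit 2165991399952186813695897984250675200000000)), (.ofNat (nat_lit 0)), (.ofNat (nat_lit 0)), (.ofNat (nat_lit 2165991399952186813695897984250675200000000)), (.ofNat (nat_lit 0))⟩,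
    ⟨nat_lit 2, nat_lit 12, nat_lit 9, (.ofNat (nat_lit 16)), (.ofNat (nat_lit 1374604283084800)), (.ofNat (nat_lit 3488691265059113493494501050840863541694500630953984000000)), (.ofNat (nat_lit 214748364800)), (.ofNat (nat_lit 467492318943476708932514903941940817407508480000000000)), (.ofNat (nat_lit 1374604283084768)), (.ofNat (nat_lit 1374604283084832)), (.ofNat (nat_lit 2176930750456995838007493428615577600000000)), (.ofNat (nat_lit 2198809451466613886630684317345382400000000)), (.ofNat (nat_lit 2176930750456995838007493428615577600000000)), (.ofNat (nat_lit 2198809451466613886630684317345382400000000)), (.ofNat (nat_lit 0))⟩,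
    ⟨nat_lit 0, nat_lit 9, nat_lit 10, (.ofNat (nat_lit 16)), (.ofNat (nat_lit 1429365116108800)), (.ofNat (nat_lit 3609099902282469768450963620697869454238329008553984000000)), (.ofNat (nat_lit 0)), (.negSucc (nat_lit 4698415265763585014397134712984329823191039999999999)), (.ofNat (nat_lit 1429365116108768)), (.ofNat (nat_lit 1429365116108832)), (.ofNat (nat_lit 2198809451466613886630684317345382400000000)), (.ofNat (nat_lit 3852018796505877685720545846991257600000000)), (.ofNat (nat_lit 2198809451466613886630684317345382400000000)), (.ofNat (nat_lit 3852018796505877685720545846991257600000000)), (.ofNat (nat_lit 0))⟩,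
    ⟨nat_lit 0, nat_lit 10, nat_lit 11, (.ofNat (nat_lit 16)), (.ofNat (nat_lit 1649267441664000)), (.ofNat (nat_lit 4456167793716454983526594243832388309401795228073984000000)), (.ofNat (nat_lit 0)), (.negSucc (nat_lit 4698415265763585014397134712984329823191039999999999)), (.ofNat (nat_lit 1649267441663968)), (.ofNat (nat_lit 1649267441664032)), (.ofNat (nat_lit 3852018796505877685720545846991257600000000)), (.ofNat (nat_lit 1504716208304063176110196806333235200000000)), (.ofNat (nat_lit 1504716208304063176110196806333235200000000)), (.ofNat (nat_lit 3852018796505877685720545846991257600000000)), (.ofNat (nat_lit 17092735163764100486867881820160000000))⟩,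
    ⟨nat_lit 1, nat_lit 6, nat_lit 8, (.ofNat (nat_lit 16)), (.ofNat (nat_lit 1374174786355200)), (.ofNat (nat_lit 3487753931213593658284128822465623167894774018473984000000)), (.negSucc (nat_lit 214748364799)), (.negSucc (nat_lit 469841526576358501439713471298432982319103999999999999)), (.ofNat (nat_lit 1374174786355168)), (.ofNat (nat_lit 1374174786355232)), (.ofNat (nat_lit 2187870100961804862319088872980480000000000)), (.ofNat (nat_lit 2165991399952186813695897984250675200000000)), (.ofNat (nat_lit 2165991399952186813695897984250675200000000)), (.ofNat (nat_lit 2187870100961804862319088872980480000000000)), (.ofNat (nat_lit 0))⟩]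
  es := [
    ⟨nat_lit 1, nat_lit 4, (.negSucc (nat_lit 549755813887999)), (.negSucc (nat_lit 274877906943999)), (.negSucc (nat_lit 549755813887967)), (.negSucc (nat_lit 274877906944031)), (.ofNat (nat_lit 1122411547263733422570666327602626560000000)), (.ofNat (nat_lit 34185470327528200973735763640320000000)), (.ofNat (nat_lit 18793661063054340057588538851937319292764160000000000))⟩,
    ⟨nat_lit 1, nat_lit 6, (.negSucc (nat_lit 549755813887999)), (.negSucc (nat_lit 219902325555199)), (.negSucc (nat_lit 549755813887967)), (.negSucc (nat_lit 219902325555455)), (.ofNat (nat_lit 0)), (.ofNat (nat_lit 0)), (.ofNat (nat_lit 0))⟩,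
    ⟨nat_lit 3, nat_lit 5, (.ofNat (nat_lit 0)), (.ofNat (nat_lit 824633720832000)), (.ofNat (nat_lit 32)), (.ofNat (nat_lit 824633720831968)), (.negSucc (nat_lit 515473875822296464364376698193444863999999)), (.negSucc (nat_lit 20796161115912988925689256214527999999)), (.ofNat (nat_lit 3053969922746330259358137563439814385074176000000000))⟩,
    ⟨nat_lit 3, nat_lit 0, (.ofNat (nat_lit 0)), (.ofNat (nat_lit 274877906944000)), (.ofNat (nat_lit 32)), (.ofNat (nat_lit 274877906943968)), (.negSucc (nat_lit 492645958253250716027481746426560511999999)), (.negSucc (nat_lit 19656645438328715559898064093183999999)), (.ofNat (nat_lit 3053969922746330259358137563439814385074176000000000))⟩,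
    ⟨nat_lit 4, nat_lit 0, (.negSucc (nat_lit 274877906943999)), (.ofNat (nat_lit 274877906944000)), (.negSucc (nat_lit 274877906943967)), (.ofNat (nat_lit 274877906943968)), (.negSucc (nat_lit 505009133597201289909633285347082239999999)), (.negSucc (nat_lit 21365918954705125608584852275199999999)), (.ofNat (nat_lit 3523811449322688760797851034738247367393280000000000))⟩,
    ⟨nat_lit 5, nat_lit 2, (.ofNat (nat_lit 824633720832000)), (.ofNat (nat_lit 1099511627776000)), (.ofNat (nat_lit 824633720832032)), (.ofNat (nat_lit 1099511627775968)), (.ofNat (nat_lit 1122411547263733422570666327602626560000000)), (.ofNat (nat_lit 34185470327528200973735763640320000000)), (.negSucc (nat_lit 42285737391872265129574212416858968408719359999999999))⟩,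
    ⟨nat_lit 6, nat_lit 12, (.negSucc (nat_lit 219902325555199)), (.ofNat (nat_lit 1374174786355200)), (.negSucc (nat_lit 219902325554943)), (.ofNat (nat_lit 1374174786355168)), (.ofNat (nat_lit 2187870100961804862319088872980480000000000)), (.ofNat (nat_lit 0)), (.ofNat (nat_lit 0))⟩,
    ⟨nat_lit 8, nat_lit 2, (.negSucc (nat_lit 213030377881599)), (.ofNat (nat_lit 1099511627776000)), (.negSucc (nat_lit 213030377881567)), (.ofNat (nat_lit 1099511627775968)), (.ofNat (nat_lit 0)), (.ofNat (nat_lit 0)), (.negSucc (nat_lit 4698415265763585014397134712984329823191039999999999))⟩,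
    ⟨nat_lit 8, nat_lit 12, (.negSucc (nat_lit 213030377881599)), (.ofNat (nat_lit 1374174786355200)), (.negSucc (nat_lit 213030377881567)), (.ofNat (nat_lit 1374174786355168)), (.ofNat (nat_lit 2165991399952186813695897984250675200000000)), (.ofNat (nat_lit 0)), (.negSucc (nat_lit 4698415265763585014397134712984329823191039999999999))⟩,
    ⟨nat_lit 9, nat_lit 10, (.ofNat (nat_lit 1374604283084800)), (.ofNat (nat_lit 1429365116108800)), (.ofNat (nat_lit 1374604283084832)), (.ofNat (nat_lit 1429365116108768)), (.ofNat (nat_lit 2198809451466613886630684317345382400000000)), (.ofNat (nat_lit 0)), (.negSucc (nat_lit 4698415265763585014397134712984329823191039999999999))⟩,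
    ⟨nat_lit 10, nat_lit 11, (.ofNat (nat_lit 1429365116108800)), (.ofNat (nat_lit 1649267441664000)), (.ofNat (nat_lit 1429365116108832)), (.ofNat (nat_lit 1649267441663968)), (.ofNat (nat_lit 3852018796505877685720545846991257600000000)), (.ofNat (nat_lit 0)), (.negSucc (nat_lit 4698415265763585014397134712984329823191039999999999))⟩,
    ⟨nat_lit 11, nat_lit 7, (.ofNat (nat_lit 1649267441664000)), (.ofNat (nat_lit 2199023255552000)), (.ofNat (nat_lit 1649267441664032)), (.ofNat (nat_lit 2199023255551968)), (.ofNat (nat_lit 1504716208304063176110196806333235200000000)), (.ofNat (nat_lit 8546367581882050243433940910080000000)), (.negSucc (nat_lit 18793661063054340057588538851937319292764159999999999))⟩,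
    ⟨nat_lit 9, nat_lit 7, (.ofNat (nat_lit 1374604283084800)), (.ofNat (nat_lit 2199023255552000)), (.ofNat (nat_lit 1374604283084832)), (.ofNat (nat_lit 2199023255551968)), (.ofNat (nat_lit 2176930750456995838007493428615577600000000)), (.ofNat (nat_lit 0)), (.ofNat (nat_lit 0))⟩]

theorem ok235 : stOK 12 12 S235 = true := by decide +kernel

def S236 : SD where
  vs := [
    ⟨nat_lit 1, nat_lit 3, nat_lit 4, (.ofNat (nat_lit 16)), (.ofNat (nat_lit 274877906944000)), (.ofNat (nat_lit 30866708936441402431350574579124594503027192233984000000)), (.ofNat (nat_lit 0)), (.negSucc (nat_lit 2349207632881792507198567356492164911595519999999999)), (.ofNat (nat_lit 274877906943968)), (.ofNat (nat_lit 274877906944032)), (.negSucc (nat_lit 493884326915865425107755324464431103999999)), (.negSucc (nat_lit 506355186491347712822974131040419839999999)), (.negSucc (nat_lit 506355186491347712822974131040419839999999)), (.negSucc (nat_lit 493884326915865425107755324464431103999999)), (.ofNat (nat_lit 42731837909410251217169704550400000000))⟩,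
    ⟨nat_lit 2, nat_lit 0, nat_lit 1, (.ofNat (nat_lit 16)), (.negSucc (nat_lit 549755813887999)), (.ofNat (nat_lit 120279437284502097135725017355140140065026473984000000)), (.ofNat (nat_lit 0)), (.ofNat (nat_lit 0)), (.negSucc (nat_lit 549755813888031)), (.negSucc (nat_lit 549755813887967)), (.ofNat (nat_lit 1124565231894367699232011680711966720000000)), (.ofNat (nat_lit 0)), (.ofNat (nat_lit 0)), (.ofNat (nat_lit 1124565231894367699232011680711966720000000)), (.ofNat (nat_lit 136741881310112803894943054561280000000))⟩,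
    ⟨nat_lit 1, nat_lit 5, nat_lit 7, (.ofNat (nat_lit 16)), (.ofNat (nat_lit 1099511627776000)), (.ofNat (nat_lit 49585195355243525128708759275654164518620295593984000000)), (.ofNat (nat_lit 0)), (.negSucc (nat_lit 4698415265763585014397134712984329823191039999999999)), (.ofNat (nat_lit 1099511627775968)), (.ofNat (nat_lit 1099511627776032)), (.ofNat (nat_lit 1124565231894367699232011680711966720000000)), (.ofNat (nat_lit 0)), (.ofNat (nat_lit 0)), (.ofNat (nat_lit 1124565231894367699232011680711966720000000)), (.ofNat (nat_lit 136741881310112803894943054561280000000))⟩,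
    ⟨nat_lit 2, nat_lit 3, nat_lit 2, (.ofNat (nat_lit 16)), (.ofNat (nat_lit 0)), (.ofNat (nat_lit 166624598991520733271347143829979014146238378409984000000)), (.ofNat (nat_lit 0)), (.ofNat (nat_lit 3053969922746330259358137563439814385074176000000000)), (.negSucc (nat_lit 31)), (.ofNat (nat_lit 32)), (.negSucc (nat_lit 493884326915865425107755324464431103999999)), (.negSucc (nat_lit 516784033972598982666695121334960127999999)), (.negSucc (nat_lit 516784033972598982666695121334960127999999)), (.negSucc (nat_lit 493884326915865425107755324464431103999999)), (.ofNat (nat_lit 41592322231825977851378512429056000000))⟩,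
    ⟨nat_lit 0, nat_lit 0, nat_lit 4, (.ofNat (nat_lit 16)), (.negSucc (nat_lit 274877906943999)), (.ofNat (nat_lit 309238416602402287364352012054020167867449930153984000000)), (.ofNat (nat_lit 0)), (.ofNat (nat_lit 9396830531527170028794269425968659646382080000000000)), (.negSucc (nat_lit 274877906944031)), (.negSucc (nat_lit 274877906943967)), (.ofNat (nat_lit 1124565231894367699232011680711966720000000)), (.negSucc (nat_lit 506355186491347712822974131040419839999999)), (.negSucc (nat_lit 506355186491347712822974131040419839999999)), (.ofNat (nat_lit 1124565231894367699232011680711966720000000)), (.ofNat (nat_lit 179473719219523055112112759111680000000))⟩,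
    ⟨nat_lit 0, nat_lit 2, nat_lit 5, (.ofNat (nat_lit 16)), (.ofNat (nat_lit 824633720832000)), (.negSucc (nat_lit 259532941809874260138507527761010863208764608086015999999)), (.ofNat (nat_lit 0)), (.negSucc (nat_lit 14095245797290755043191404138952989469573119999999999)), (.ofNat (nat_lit 824633720831968)), (.ofNat (nat_lit 824633720832032)), (.negSucc (nat_lit 516784033972598982666695121334960127999999)), (.ofNat (nat_lit 1124565231894367699232011680711966720000000)), (.negSucc (nat_lit 516784033972598982666695121334960127999999)), (.ofNat (nat_lit 1124565231894367699232011680711966720000000)), (.ofNat (nat_lit 151555585118708357650228552138752000000))⟩,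
    ⟨nat_lit 0, nat_lit 1, nat_lit 6, (.ofNat (nat_lit 128)), (.negSucc (nat_lit 219902325555199)), (.ofNat (nat_lit 120279437284502097135725017355140140065026473984000000)), (.ofNat (nat_lit 0)), (.ofNat (nat_lit 0)), (.negSucc (nat_lit 219902325555455)), (.negSucc (nat_lit 219902325554943)), (.ofNat (nat_lit 0)), (.ofNat (nat_lit 2187870100961804862319088872980480000000000)), (.ofNat (nat_lit 0)), (.ofNat (nat_lit 2187870100961804862319088872980480000000000)), (.ofNat (nat_lit 0))⟩,
    ⟨nat_lit 1, nat_lit 12, nat_lit 11, (.ofNat (nat_lit 16)), (.ofNat (nat_lit 2199023255552000)), (.ofNat (nat_lit 5283394277483120579086425767073974339721925685673984000000)), (.ofNat (nat_lit 0)), (.ofNat (nat_lit 0)), (.ofNat (nat_lit 2199023255551968)), (.ofNat (nat_lit 2199023255552032)), (.ofNat (nat_lit 2176930750456995838007493428615577600000000)), (.ofNat (nat_lit 1505254629461721745275533144610570240000000)), (.ofNat (nat_lit 1505254629461721745275533144610570240000000)), (.ofNat (nat_lit 2176930750456995838007493428615577600000000)), (.ofNat (nat_lit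 17092735163764100486867881820160000000))⟩,
    ⟨nat_lit 2, nat_lit 8, nat_lit 7, (.ofNat (nat_lit 16)), (.negSucc (nat_lit 213030377881599)), (.ofNat (nat_lit 49585195355243525128708759275654164518620295593984000000)), (.ofNat (nat_lit 0)), (.negSucc (nat_lit 4698415265763585014397134712984329823191039999999999)), (.negSucc (nat_lit 213030377881631)), (.negSucc (nat_lit 213030377881567)), (.ofNat (nat_lit 2165991399952186813695897984250675200000000)), (.ofNat (nat_lit 0)), (.ofNat (nat_lit 0)), (.ofNat (nat_lit 2165991399952186813695897984250675200000000)), (.ofNat (nat_lit 0))⟩,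
    ⟨nat_lit 2, nat_lit 12, nat_lit 9, (.ofNat (nat_lit 16)), (.ofNat (nat_lit 1388133430067200)), (.ofNat (nat_lit 3518143281152552526157249489789205813191173665193984000000)), (.ofNat (nat_lit 214748364800)), (.ofNat (nat_lit 467492318943476708932514903941940817407508480000000000)), (.ofNat (nat_lit 1388133430067168)), (.ofNat (nat_lit 1388133430067232)), (.ofNat (nat_lit 2176930750456995838007493428615577600000000)), (.ofNat (nat_lit 2198809451466613886630684317345382400000000)), (.ofNat (nat_lit 2176930750456995838007493428615577600000000)), (.ofNat (nat_lit 2198809451466613886630684317345382400000000)), (.ofNat (nat_lit 0))⟩,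
    ⟨nat_lit 0, nat_lit 9, nat_lit 10, (.ofNat (nat_lit 16)), (.ofNat (nat_lit 1429365116108800)), (.ofNat (nat_lit 3608803902120726662595056601210951441459467973033984000000)), (.ofNat (nat_lit 0)), (.negSucc (nat_lit 4698415265763585014397134712984329823191039999999999)), (.ofNat (nat_lit 1429365116108768)), (.ofNat (nat_lit 1429365116108832)), (.ofNat (nat_lit 2198809451466613886630684317345382400000000)), (.ofNat (nat_lit 3852018796505877685720545846991257600000000)), (.ofNat (nat_lit 2198809451466613886630684317345382400000000)), (.ofNat (nat_lit 3852018796505877685720545846991257600000000)), (.ofNat (nat_lit 0))⟩,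
    ⟨nat_lit 0, nat_lit 10, nat_lit 11, (.ofNat (nat_lit 16)), (.ofNat (nat_lit 1649267441664000)), (.ofNat (nat_lit 4455871793554711877670687224345470296622934192553984000000)), (.ofNat (nat_lit 0)), (.negSucc (nat_lit 4698415265763585014397134712984329823191039999999999)), (.ofNat (nat_lit 1649267441663968)), (.ofNat (nat_lit 1649267441664032)), (.ofNat (nat_lit 3852018796505877685720545846991257600000000)), (.ofNat (nat_lit 1505254629461721745275533144610570240000000)), (.ofNat (nat_lit 1505254629461721745275533144610570240000000)), (.ofNat (nat_lit 3852018796505877685720545846991257600000000)), (.ofNat (nat_lit 17092735163764100486867881820160000000))⟩,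
    ⟨nat_lit 1, nat_lit 6, nat_lit 8, (.ofNat (nat_lit 16)), (.ofNat (nat_lit 1360645639372800)), (.ofNat (nat_lit 3458153915039283072693426873773821890008670466473984000000)), (.negSucc (nat_lit 214748364799)), (.negSucc (nat_lit 469841526576358501439713471298432982319103999999999999)), (.ofNat (nat_lit 1360645639372768)), (.ofNat (nat_lit 1360645639372832)), (.ofNat (nat_lit 2187870100961804862319088872980480000000000)), (.ofNat (nat_lit 2165991399952186813695897984250675200000000)), (.ofNat (nat_lit 2165991399952186813695897984250675200000000)), (.ofNat (nat_lit 2187870100961804862319088872980480000000000)), (.ofNat (nat_lit 0))⟩]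
  es := [
    ⟨nat_lit 1, nat_lit 4, (.negSucc (nat_lit 549755813887999)), (.negSucc (nat_lit 274877906943999)), (.negSucc (nat_lit 549755813887967)), (.negSucc (nat_lit 274877906944031)), (.ofNat (nat_lit 1124565231894367699232011680711966720000000)), (.ofNat (nat_lit 34185470327528200973735763640320000000)), (.ofNat (nat_lit 18793661063054340057588538851937319292764160000000000))⟩,
    ⟨nat_lit 1, nat_lit 6, (.negSucc (nat_lit 549755813887999)), (.negSucc (nat_lit 219902325555199)), (.negSucc (nat_lit 549755813887967)), (.negSucc (nat_lit 219902325555455)), (.ofNat (nat_lit 0)), (.ofNat (nat_lit 0)), (.ofNat (nat_lit 0))⟩,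
    ⟨nat_lit 3, nat_lit 5, (.ofNat (nat_lit 0)), (.ofNat (nat_lit 824633720832000)), (.ofNat (nat_lit 32)), (.ofNat (nat_lit 824633720831968)), (.negSucc (nat_lit 516784033972598982666695121334960127999999)), (.negSucc (nat_lit 20796161115912988925689256214527999999)), (.ofNat (nat_lit 3053969922746330259358137563439814385074176000000000))⟩,
    ⟨nat_lit 3, nat_lit 0, (.ofNat (nat_lit 0)), (.ofNat (nat_lit 274877906944000)), (.ofNat (nat_lit 32)), (.ofNat (nat_lit 274877906943968)), (.negSucc (nat_lit 493884326915865425107755324464431103999999)), (.negSucc (nat_lit 19656645438328715559898064093183999999)), (.ofNat (nat_lit 3053969922746330259358137563439814385074176000000000))⟩,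
    ⟨nat_lit 4, nat_lit 0, (.negSucc (nat_lit 274877906943999)), (.ofNat (nat_lit 274877906944000)), (.negSucc (nat_lit 274877906943967)), (.ofNat (nat_lit 274877906943968)), (.negSucc (nat_lit 506355186491347712822974131040419839999999)), (.negSucc (nat_lit 21365918954705125608584852275199999999)), (.ofNat (nat_lit 3523811449322688760797851034738247367393280000000000))⟩,
    ⟨nat_lit 5, nat_lit 2, (.ofNat (nat_lit 824633720832000)), (.ofNat (nat_lit 1099511627776000)), (.ofNat (nat_lit 824633720832032)), (.ofNat (nat_lit 1099511627775968)), (.ofNat (nat_lit 1124565231894367699232011680711966720000000)), (.ofNat (nat_lit 34185470327528200973735763640320000000)), (.negSucc (nat_lit 42285737391872265129574212416858968408719359999999999))⟩,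
    ⟨nat_lit 6, nat_lit 12, (.negSucc (nat_lit 219902325555199)), (.ofNat (nat_lit 1360645639372800)), (.negSucc (nat_lit 219902325554943)), (.ofNat (nat_lit 1360645639372768)), (.ofNat (nat_lit 2187870100961804862319088872980480000000000)), (.ofNat (nat_lit 0)), (.ofNat (nat_lit 0))⟩,
    ⟨nat_lit 8, nat_lit 2, (.negSucc (nat_lit 213030377881599)), (.ofNat (nat_lit 1099511627776000)), (.negSucc (nat_lit 213030377881567)), (.ofNat (nat_lit 1099511627775968)), (.ofNat (nat_lit 0)), (.ofNat (nat_lit 0)), (.negSucc (nat_lit 4698415265763585014397134712984329823191039999999999))⟩,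
    ⟨nat_lit 8, nat_lit 12, (.negSucc (nat_lit 213030377881599)), (.ofNat (nat_lit 1360645639372800)), (.negSucc (nat_lit 213030377881567)), (.ofNat (nat_lit 1360645639372768)), (.ofNat (nat_lit 2165991399952186813695897984250675200000000)), (.ofNat (nat_lit 0)), (.negSucc (nat_lit 4698415265763585014397134712984329823191039999999999))⟩,
    ⟨nat_lit 9, nat_lit 10, (.ofNat (nat_lit 1388133430067200)), (.ofNat (nat_lit 1429365116108800)), (.ofNat (nat_lit 1388133430067232)), (.ofNat (nat_lit 1429365116108768)), (.ofNat (nat_lit 2198809451466613886630684317345382400000000)), (.ofNat (nat_lit 0)), (.negSucc (nat_lit 4698415265763585014397134712984329823191039999999999))⟩,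
    ⟨nat_lit 10, nat_lit 11, (.ofNat (nat_lit 1429365116108800)), (.ofNat (nat_lit 1649267441664000)), (.ofNat (nat_lit 1429365116108832)), (.ofNat (nat_lit 1649267441663968)), (.ofNat (nat_lit 3852018796505877685720545846991257600000000)), (.ofNat (nat_lit 0)), (.negSucc (nat_lit 4698415265763585014397134712984329823191039999999999))⟩,
    ⟨nat_lit 11, nat_lit 7, (.ofNat (nat_lit 1649267441664000)), (.ofNat (nat_lit 2199023255552000)), (.ofNat (nat_lit 1649267441664032)), (.ofNat (nat_lit 2199023255551968)), (.ofNat (nat_lit 1505254629461721745275533144610570240000000)), (.ofNat (nat_lit 8546367581882050243433940910080000000)), (.negSucc (nat_lit 18793661063054340057588538851937319292764159999999999))⟩,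
    ⟨nat_lit 9, nat_lit 7, (.ofNat (nat_lit 1388133430067200)), (.ofNat (nat_lit 2199023255552000)), (.ofNat (nat_lit 1388133430067232)), (.ofNat (nat_lit 2199023255551968)), (.ofNat (nat_lit 2176930750456995838007493428615577600000000)), (.ofNat (nat_lit 0)), (.ofNat (nat_lit 0))⟩]

theorem ok236 : stOK 12 12 S236 = true := by decide +kernel

def S237 : SD where
  vs := [
    ⟨nat_lit 1, nat_lit 3, nat_lit 4, (.ofNat (nat_lit 16)), (.ofNat (nat_lit 274877906944000)), (.ofNat (nat_lit 13877239335440279019290535456973257862368391593984000000)), (.ofNat (nat_lit 0)), (.negSucc (nat_lit 265460462515642553313438111283614635010293759999999999)), (.ofNat (nat_lit 274877906943968)), (.ofNat (nat_lit 274877906944032)), (.negSucc (nat_lit 525772533637383730976056044788121599999999)), (.negSucc (nat_lit 538352786717914108934390805807759359999999)), (.negSucc (nat_lit 538352786717914108934390805807759359999999)), (.negSucc (nat_lit 525772533637383730976056044788121599999999)), (.ofNat (nat_lit 999925007080199878481771086479360000000))⟩,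
    ⟨nat_lit 2, nat_lit 0, nat_lit 1, (.ofNat (nat_lit 16)), (.negSucc (nat_lit 549755813887999)), (.ofNat (nat_lit 120279437284502097135725017355140140065026473984000000)), (.ofNat (nat_lit 0)), (.ofNat (nat_lit 0)), (.negSucc (nat_lit 549755813888031)), (.negSucc (nat_lit 549755813887967)), (.ofNat (nat_lit 1126753101995329504094330769584947200000000)), (.ofNat (nat_lit 0)), (.ofNat (nat_lit 0)), (.ofNat (nat_lit 1126753101995329504094330769584947200000000)), (.ofNat (nat_lit 136741881310112803894943054561280000000))⟩,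
    ⟨nat_lit 1, nat_lit 5, nat_lit 7, (.ofNat (nat_lit 16)), (.ofNat (nat_lit 1099511627776000)), (.ofNat (nat_lit 15606256153241278304588681031351491237302694313984000000)), (.ofNat (nat_lit 0)), (.negSucc (nat_lit 530920925031285106626876222567229270020587519999999999)), (.ofNat (nat_lit 1099511627775968)), (.ofNat (nat_lit 1099511627776032)), (.ofNat (nat_lit 1126753101995329504094330769584947200000000)), (.ofNat (nat_lit 0)), (.ofNat (nat_lit 0)), (.ofNat (nat_lit 1126753101995329504094330769584947200000000)), (.ofNat (nat_lit 136741881310112803894943054561280000000))⟩,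
    ⟨nat_lit 2, nat_lit 3, nat_lit 2, (.ofNat (nat_lit 16)), (.ofNat (nat_lit 0)), (.ofNat (nat_lit 158400492910328154062146399228371243223724781993984000000)), (.ofNat (nat_lit 0)), (.negSucc (nat_lit 128501657518634050143761634400121420664274943999999999)), (.negSucc (nat_lit 31)), (.ofNat (nat_lit 32)), (.negSucc (nat_lit 525772533637383730976056044788121599999999)), (.negSucc (nat_lit 548745169697482682030406477954416639999999)), (.negSucc (nat_lit 548745169697482682030406477954416639999999)), (.negSucc (nat_lit 525772533637383730976056044788121599999999)), (.ofNat (nat_lit 998785491402615605115979894358016000000))⟩,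
    ⟨nat_lit 0, nat_lit 0, nat_lit 4, (.ofNat (nat_lit 16)), (.negSucc (nat_lit 274877906943999)), (.ofNat (nat_lit 309839813756420026246194845297282162084818383273984000000)), (.ofNat (nat_lit 0)), (.ofNat (nat_lit 9396830531527170028794269425968659646382080000000000)), (.negSucc (nat_lit 274877906944031)), (.negSucc (nat_lit 274877906943967)), (.ofNat (nat_lit 1126753101995329504094330769584947200000000)), (.negSucc (nat_lit 538352786717914108934390805807759359999999)), (.negSucc (nat_lit 538352786717914108934390805807759359999999)), (.ofNat (nat_lit 1126753101995329504094330769584947200000000)), (.ofNat (nat_lit 1136666888390312682376714141040640000000))⟩,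
    ⟨nat_lit 0, nat_lit 2, nat_lit 5, (.ofNat (nat_lit 16)), (.ofNat (nat_lit 824633720832000)), (.negSucc (nat_lit 294113278165894245844470439248575530707450662486015999999)), (.ofNat (nat_lit 0)), (.negSucc (nat_lit 540317755562812276655670491993197929666969599999999999)), (.ofNat (nat_lit 824633720831968)), (.ofNat (nat_lit 824633720832032)), (.negSucc (nat_lit 548745169697482682030406477954416639999999)), (.ofNat (nat_lit 1126753101995329504094330769584947200000000)), (.negSucc (nat_lit 548745169697482682030406477954416639999999)), (.ofNat (nat_lit 1126753101995329504094330769584947200000000)), (.ofNat (nat_lit 2065941923460287612179431315996672000000))⟩,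
    ⟨nat_lit 0, nat_lit 1, nat_lit 6, (.ofNat (nat_lit 128)), (.negSucc (nat_lit 219902325555199)), (.ofNat (nat_lit 120279437284502097135725017355140140065026473984000000)), (.ofNat (nat_lit 0)), (.ofNat (nat_lit 0)), (.negSucc (nat_lit 219902325555455)), (.negSucc (nat_lit 219902325554943)), (.ofNat (nat_lit 0)), (.ofNat (nat_lit 2187870100961804862319088872980480000000000)), (.ofNat (nat_lit 0)), (.ofNat (nat_lit 2187870100961804862319088872980480000000000)), (.ofNat (nat_lit 0))⟩,
    ⟨nat_lit 1, nat_lit 12, nat_lit 11, (.ofNat (nat_lit 16)), (.ofNat (nat_lit 2199023255552000)), (.ofNat (nat_lit 5283394277483120579086425767073974339721925685673984000000)), (.ofNat (nat_lit 0)), (.ofNat (nat_lit 0)), (.ofNat (nat_lit 2199023255551968)), (.ofNat (nat_lit 2199023255552032)), (.ofNat (nat_lit 2176930750456995838007493428615577600000000)), (.ofNat (nat_lit 1505801596986962196491112916828815360000000)), (.ofNat (nat_lit 1505801596986962196491112916828815360000000)), (.ofNat (nat_lit 2176930750456995838007493428615577600000000)), (.ofNat (nat_lit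 17092735163764100486867881820160000000))⟩,
    ⟨nat_lit 2, nat_lit 8, nat_lit 7, (.ofNat (nat_lit 16)), (.negSucc (nat_lit 213030377881599)), (.ofNat (nat_lit 15606256153241278304588681031351491237302694313984000000)), (.ofNat (nat_lit 0)), (.negSucc (nat_lit 530920925031285106626876222567229270020587519999999999)), (.negSucc (nat_lit 213030377881631)), (.negSucc (nat_lit 213030377881567)), (.ofNat (nat_lit 2165991399952186813695897984250675200000000)), (.ofNat (nat_lit 0)), (.ofNat (nat_lit 0)), (.ofNat (nat_lit 2165991399952186813695897984250675200000000)), (.ofNat (nat_lit 0))⟩,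
    ⟨nat_lit 2, nat_lit 12, nat_lit 9, (.ofNat (nat_lit 16)), (.ofNat (nat_lit 1388133430067200)), (.ofNat (nat_lit 3518143281152552526157249489789205813191173665193984000000)), (.ofNat (nat_lit 0)), (.ofNat (nat_lit 0)), (.ofNat (nat_lit 1388133430067168)), (.ofNat (nat_lit 1388133430067232)), (.ofNat (nat_lit 2176930750456995838007493428615577600000000)), (.ofNat (nat_lit 2198809451466613886630684317345382400000000)), (.ofNat (nat_lit 2176930750456995838007493428615577600000000)), (.ofNat (nat_lit 2198809451466613886630684317345382400000000)), (.ofNat (nat_lit 0))⟩,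
    ⟨nat_lit 0, nat_lit 9, nat_lit 10, (.ofNat (nat_lit 16)), (.ofNat (nat_lit 1429365116108800)), (.ofNat (nat_lit 3608803902120726662595056601210951441459467973033984000000)), (.ofNat (nat_lit 0)), (.ofNat (nat_lit 0)), (.ofNat (nat_lit 1429365116108768)), (.ofNat (nat_lit 1429365116108832)), (.ofNat (nat_lit 2198809451466613886630684317345382400000000)), (.ofNat (nat_lit 3850651377692776557681596416445644800000000)), (.ofNat (nat_lit 2198809451466613886630684317345382400000000)), (.ofNat (nat_lit 3850651377692776557681596416445644800000000)), (.ofNat (nat_lit 42731837909410251217169704550400000000))⟩,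
    ⟨nat_lit 0, nat_lit 10, nat_lit 11, (.ofNat (nat_lit 16)), (.ofNat (nat_lit 1649267441664000)), (.ofNat (nat_lit 4455571094977703008229765807723839299514249965993984000000)), (.ofNat (nat_lit 0)), (.negSucc (nat_lit 4698415265763585014397134712984329823191039999999999)), (.ofNat (nat_lit 1649267441663968)), (.ofNat (nat_lit 1649267441664032)), (.ofNat (nat_lit 3850651377692776557681596416445644800000000)), (.ofNat (nat_lit 1505801596986962196491112916828815360000000)), (.ofNat (nat_lit 1505801596986962196491112916828815360000000)), (.ofNat (nat_lit 3850651377692776557681596416445644800000000)), (.ofNat (nat_lit 102556410982584602921207290920960000000))⟩,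
    ⟨nat_lit 1, nat_lit 6, nat_lit 8, (.ofNat (nat_lit 16)), (.negSucc (nat_lit 192414534860799)), (.ofNat (nat_lit 60259994839058390281419049343554561876910338473984000000)), (.negSucc (nat_lit 24266565222399)), (.negSucc (nat_lit 53092092503128510662687622256722927002058751999999999999)), (.negSucc (nat_lit 192414534860831)), (.negSucc (nat_lit 192414534860767)), (.ofNat (nat_lit 2187870100961804862319088872980480000000000)), (.ofNat (nat_lit 2165991399952186813695897984250675200000000)), (.ofNat (nat_lit 2165991399952186813695897984250675200000000)), (.ofNat (nat_lit 2187870100961804862319088872980480000000000)), (.ofNat (nat_lit 0))⟩]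
  es := [
    ⟨nat_lit 1, nat_lit 4, (.negSucc (nat_lit 549755813887999)), (.negSucc (nat_lit 274877906943999)), (.negSucc (nat_lit 549755813887967)), (.negSucc (nat_lit 274877906944031)), (.ofNat (nat_lit 1126753101995329504094330769584947200000000)), (.ofNat (nat_lit 34185470327528200973735763640320000000)), (.ofNat (nat_lit 18793661063054340057588538851937319292764160000000000))⟩,
    ⟨nat_lit 1, nat_lit 6, (.negSucc (nat_lit 549755813887999)), (.negSucc (nat_lit 219902325555199)), (.negSucc (nat_lit 549755813887967)), (.negSucc (nat_lit 219902325555455)), (.ofNat (nat_lit 0)), (.ofNat (nat_lit 0)), (.ofNat (nat_lit 0))⟩,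
    ⟨nat_lit 3, nat_lit 5, (.ofNat (nat_lit 0)), (.ofNat (nat_lit 824633720832000)), (.ofNat (nat_lit 32)), (.ofNat (nat_lit 824633720831968)), (.negSucc (nat_lit 548745169697482682030406477954416639999999)), (.negSucc (nat_lit 499392745701307802557989947179007999999)), (.negSucc (nat_lit 128501657518634050143761634400121420664274943999999999))⟩,
    ⟨nat_lit 3, nat_lit 0, (.ofNat (nat_lit 0)), (.ofNat (nat_lit 274877906944000)), (.ofNat (nat_lit 32)), (.ofNat (nat_lit 274877906943968)), (.negSucc (nat_lit 525772533637383730976056044788121599999999)), (.negSucc (nat_lit 498253230023723529192198755057663999999)), (.negSucc (nat_lit 128501657518634050143761634400121420664274943999999999))⟩,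
    ⟨nat_lit 4, nat_lit 0, (.negSucc (nat_lit 274877906943999)), (.ofNat (nat_lit 274877906944000)), (.negSucc (nat_lit 274877906943967)), (.ofNat (nat_lit 274877906943968)), (.negSucc (nat_lit 538352786717914108934390805807759359999999)), (.negSucc (nat_lit 499962503540099939240885543239679999999)), (.negSucc (nat_lit 128031815992057691642321920928822987681955839999999999))⟩,
    ⟨nat_lit 5, nat_lit 2, (.ofNat (nat_lit 824633720832000)), (.ofNat (nat_lit 1099511627776000)), (.ofNat (nat_lit 824633720832032)), (.ofNat (nat_lit 1099511627775968)), (.ofNat (nat_lit 1126753101995329504094330769584947200000000)), (.ofNat (nat_lit 34185470327528200973735763640320000000)), (.negSucc (nat_lit 568508247157393786742053300271103908606115839999999999))⟩,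
    ⟨nat_lit 6, nat_lit 12, (.negSucc (nat_lit 219902325555199)), (.negSucc (nat_lit 192414534860799)), (.negSucc (nat_lit 219902325554943)), (.negSucc (nat_lit 192414534860831)), (.ofNat (nat_lit 2187870100961804862319088872980480000000000)), (.ofNat (nat_lit 0)), (.ofNat (nat_lit 0))⟩,
    ⟨nat_lit 8, nat_lit 2, (.negSucc (nat_lit 213030377881599)), (.ofNat (nat_lit 1099511627776000)), (.negSucc (nat_lit 213030377881567)), (.ofNat (nat_lit 1099511627775968)), (.ofNat (nat_lit 0)), (.ofNat (nat_lit 0)), (.negSucc (nat_lit 530920925031285106626876222567229270020587519999999999))⟩,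
    ⟨nat_lit 8, nat_lit 12, (.negSucc (nat_lit 213030377881599)), (.negSucc (nat_lit 192414534860799)), (.negSucc (nat_lit 213030377881567)), (.negSucc (nat_lit 192414534860831)), (.ofNat (nat_lit 2165991399952186813695897984250675200000000)), (.ofNat (nat_lit 0)), (.negSucc (nat_lit 530920925031285106626876222567229270020587519999999999))⟩,
    ⟨nat_lit 9, nat_lit 10, (.ofNat (nat_lit 1388133430067200)), (.ofNat (nat_lit 1429365116108800)), (.ofNat (nat_lit 1388133430067232)), (.ofNat (nat_lit 1429365116108768)), (.ofNat (nat_lit 2198809451466613886630684317345382400000000)), (.ofNat (nat_lit 0)), (.ofNat (nat_lit 0))⟩,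
    ⟨nat_lit 10, nat_lit 11, (.ofNat (nat_lit 1429365116108800)), (.ofNat (nat_lit 1649267441664000)), (.ofNat (nat_lit 1429365116108832)), (.ofNat (nat_lit 1649267441663968)), (.ofNat (nat_lit 3850651377692776557681596416445644800000000)), (.negSucc (nat_lit 21365918954705125608584852275199999999)), (.ofNat (nat_lit 30539699227463302593581375634398143850741760000000000))⟩,
    ⟨nat_lit 11, nat_lit 7, (.ofNat (nat_lit 1649267441664000)), (.ofNat (nat_lit 2199023255552000)), (.ofNat (nat_lit 1649267441664032)), (.ofNat (nat_lit 2199023255551968)), (.ofNat (nat_lit 1505801596986962196491112916828815360000000)), (.ofNat (nat_lit 8546367581882050243433940910080000000)), (.negSucc (nat_lit 18793661063054340057588538851937319292764159999999999))⟩,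
    ⟨nat_lit 9, nat_lit 7, (.ofNat (nat_lit 1388133430067200)), (.ofNat (nat_lit 2199023255552000)), (.ofNat (nat_lit 1388133430067232)), (.ofNat (nat_lit 2199023255551968)), (.ofNat (nat_lit 2176930750456995838007493428615577600000000)), (.ofNat (nat_lit 0)), (.ofNat (nat_lit 0))⟩]

theorem ok237 : stOK 12 12 S237 = true := by decide +kernel

def S238 : SD where
  vs := [
    ⟨nat_lit 1, nat_lit 3, nat_lit 4, (.ofNat (nat_lit 16)), (.ofNat (nat_lit 274877906944000)), (.ofNat (nat_lit 24927912040516230973152596301912401606513717673984000000)), (.ofNat (nat_lit 0)), (.ofNat (nat_lit 172666761016811749279094700702174121002270720000000000)), (.ofNat (nat_lit 274877906943968)), (.ofNat (nat_lit 274877906944032)), (.negSucc (nat_lit 506656018630229960991543005760454655999999)), (.negSucc (nat_lit 519345665215808429192993721223741439999999)), (.negSucc (nat_lit 519345665215808429192993721223741439999999)), (.negSucc (nat_lit 506656018630229960991543005760454655999999)), (.ofNat (nat_lit 600809641006308132113406045978624000000))⟩,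
    ⟨nat_lit 2, nat_lit 0, nat_lit 1, (.ofNat (nat_lit 16)), (.negSucc (nat_lit 549755813887999)), (.ofNat (nat_lit 120279437284502097135725017355140140065026473984000000)), (.ofNat (nat_lit 0)), (.ofNat (nat_lit 0)), (.negSucc (nat_lit 549755813888031)), (.negSucc (nat_lit 549755813887967)), (.ofNat (nat_lit 1128940972096291308956649858457927680000000)), (.ofNat (nat_lit 0)), (.ofNat (nat_lit 0)), (.ofNat (nat_lit 1128940972096291308956649858457927680000000)), (.ofNat (nat_lit 136741881310112803894943054561280000000))⟩,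
    ⟨nat_lit 1, nat_lit 5, nat_lit 7, (.ofNat (nat_lit 16)), (.ofNat (nat_lit 1099511627776000)), (.ofNat (nat_lit 37707601563393182212312802721229778725593346473984000000)), (.ofNat (nat_lit 0)), (.ofNat (nat_lit 345333522033623498558189401404348242004541440000000000)), (.ofNat (nat_lit 1099511627775968)), (.ofNat (nat_lit 1099511627776032)), (.ofNat (nat_lit 1128940972096291308956649858457927680000000)), (.ofNat (nat_lit 0)), (.ofNat (nat_lit 0)), (.ofNat (nat_lit 1128940972096291308956649858457927680000000)), (.ofNat (nat_lit 136741881310112803894943054561280000000))⟩,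
    ⟨nat_lit 2, nat_lit 3, nat_lit 2, (.ofNat (nat_lit 16)), (.ofNat (nat_lit 0)), (.ofNat (nat_lit 164196457982174112535906704610308712493613248937984000000)), (.ofNat (nat_lit 0)), (.ofNat (nat_lit 90561954247593101152504771592772957342007296000000000)), (.negSucc (nat_lit 31)), (.ofNat (nat_lit 32)), (.negSucc (nat_lit 506656018630229960991543005760454655999999)), (.negSucc (nat_lit 529701583693694305541304075222515711999999)), (.negSucc (nat_lit 529701583693694305541304075222515711999999)), (.negSucc (nat_lit 506656018630229960991543005760454655999999)), (.ofNat (nat_lit 599670125328723858747614853857280000000))⟩,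
    ⟨nat_lit 0, nat_lit 0, nat_lit 4, (.ofNat (nat_lit 16)), (.negSucc (nat_lit 274877906943999)), (.ofNat (nat_lit 310441210910437765128037678540544156302186836393984000000)), (.ofNat (nat_lit 0)), (.ofNat (nat_lit 9396830531527170028794269425968659646382080000000000)), (.negSucc (nat_lit 274877906944031)), (.negSucc (nat_lit 274877906943967)), (.ofNat (nat_lit 1128940972096291308956649858457927680000000)), (.negSucc (nat_lit 519345665215808429192993721223741439999999)), (.negSucc (nat_lit 519345665215808429192993721223741439999999)), (.ofNat (nat_lit 1128940972096291308956649858457927680000000)), (.ofNat (nat_lit 593972546940802491918658893250560000000))⟩,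
    ⟨nat_lit 0, nat_lit 2, nat_lit 5, (.ofNat (nat_lit 16)), (.ofNat (nat_lit 824633720832000)), (.negSucc (nat_lit 272613329909760080818589150801959237436528463446015999999)), (.ofNat (nat_lit 0)), (.ofNat (nat_lit 335936691502096328529395131978379582358159360000000000)), (.ofNat (nat_lit 824633720831968)), (.ofNat (nat_lit 824633720832032)), (.negSucc (nat_lit 529701583693694305541304075222515711999999)), (.ofNat (nat_lit 1128940972096291308956649858457927680000000)), (.negSucc (nat_lit 529701583693694305541304075222515711999999)), (.ofNat (nat_lit 1128940972096291308956649858457927680000000)), (.ofNat (nat_lit 1121853184581717128621428643463168000000))⟩,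
    ⟨nat_lit 0, nat_lit 1, nat_lit 6, (.ofNat (nat_lit 128)), (.negSucc (nat_lit 219902325555199)), (.ofNat (nat_lit 120279437284502097135725017355140140065026473984000000)), (.ofNat (nat_lit 0)), (.ofNat (nat_lit 0)), (.negSucc (nat_lit 219902325555455)), (.negSucc (nat_lit 219902325554943)), (.ofNat (nat_lit 0)), (.ofNat (nat_lit 2187870100961804862319088872980480000000000)), (.ofNat (nat_lit 0)), (.ofNat (nat_lit 2187870100961804862319088872980480000000000)), (.ofNat (nat_lit 0))⟩,
    ⟨nat_lit 1, nat_lit 12, nat_lit 11, (.ofNat (nat_lit 16)), (.ofNat (nat_lit 2199023255552000)), (.ofNat (nat_lit 5283394277483120579086425767073974339721925685673984000000)), (.ofNat (nat_lit 0)), (.ofNat (nat_lit 0)), (.ofNat (nat_lit 2199023255551968)), (.ofNat (nat_lit 2199023255552032)), (.ofNat (nat_lit 2176930750456995838007493428615577600000000)), (.ofNat (nat_lit 1506348564512202647706692689047060480000000)), (.ofNat (nat_lit 1506348564512202647706692689047060480000000)), (.ofNat (nat_lit 2176930750456995838007493428615577600000000)), (.ofNat (nat_lit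 17092735163764100486867881820160000000))⟩,
    ⟨nat_lit 2, nat_lit 8, nat_lit 7, (.ofNat (nat_lit 16)), (.negSucc (nat_lit 213030377881599)), (.ofNat (nat_lit 37707601563393182212312802721229778725593346473984000000)), (.ofNat (nat_lit 0)), (.ofNat (nat_lit 345333522033623498558189401404348242004541440000000000)), (.negSucc (nat_lit 213030377881631)), (.negSucc (nat_lit 213030377881567)), (.ofNat (nat_lit 1093935050480902431159544436490240000000000)), (.ofNat (nat_lit 0)), (.ofNat (nat_lit 0)), (.ofNat (nat_lit 1093935050480902431159544436490240000000000)), (.ofNat (nat_lit 67003521841955273908522096735027200000000))⟩,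
    ⟨nat_lit 2, nat_lit 12, nat_lit 9, (.ofNat (nat_lit 16)), (.ofNat (nat_lit 1388133430067200)), (.ofNat (nat_lit 3518143281152552526157249489789205813191173665193984000000)), (.ofNat (nat_lit 0)), (.ofNat (nat_lit 0)), (.ofNat (nat_lit 1388133430067168)), (.ofNat (nat_lit 1388133430067232)), (.ofNat (nat_lit 2176930750456995838007493428615577600000000)), (.ofNat (nat_lit 2198809451466613886630684317345382400000000)), (.ofNat (nat_lit 2176930750456995838007493428615577600000000)), (.ofNat (nat_lit 2198809451466613886630684317345382400000000)), (.ofNat (nat_lit 0))⟩,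
    ⟨nat_lit 0, nat_lit 9, nat_lit 10, (.ofNat (nat_lit 16)), (.ofNat (nat_lit 1429365116108800)), (.ofNat (nat_lit 3608803902120726662595056601210951441459467973033984000000)), (.ofNat (nat_lit 0)), (.ofNat (nat_lit 0)), (.ofNat (nat_lit 1429365116108768)), (.ofNat (nat_lit 1429365116108832)), (.ofNat (nat_lit 2198809451466613886630684317345382400000000)), (.ofNat (nat_lit 3849283958879675429642646985900032000000000)), (.ofNat (nat_lit 2198809451466613886630684317345382400000000)), (.ofNat (nat_lit 3849283958879675429642646985900032000000000)), (.ofNat (nat_lit 42731837909410251217169704550400000000))⟩,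
    ⟨nat_lit 0, nat_lit 10, nat_lit 11, (.ofNat (nat_lit 16)), (.ofNat (nat_lit 1649267441664000)), (.ofNat (nat_lit 4455270396400694138788844391102208302405565739433984000000)), (.ofNat (nat_lit 0)), (.negSucc (nat_lit 4698415265763585014397134712984329823191039999999999)), (.ofNat (nat_lit 1649267441663968)), (.ofNat (nat_lit 1649267441664032)), (.ofNat (nat_lit 3849283958879675429642646985900032000000000)), (.ofNat (nat_lit 1506348564512202647706692689047060480000000)), (.ofNat (nat_lit 1506348564512202647706692689047060480000000)), (.ofNat (nat_lit 3849283958879675429642646985900032000000000)), (.ofNat (nat_lit 102556410982584602921207290920960000000))⟩,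
    ⟨nat_lit 1, nat_lit 6, nat_lit 8, (.ofNat (nat_lit 16)), (.negSucc (nat_lit 192414534860799)), (.ofNat (nat_lit 60259994839058390281419049343554561876910338473984000000)), (.ofNat (nat_lit 0)), (.ofNat (nat_lit 0)), (.negSucc (nat_lit 192414534860831)), (.negSucc (nat_lit 192414534860767)), (.ofNat (nat_lit 2187870100961804862319088872980480000000000)), (.ofNat (nat_lit 1093935050480902431159544436490240000000000)), (.ofNat (nat_lit 1093935050480902431159544436490240000000000)), (.ofNat (nat_lit 2187870100961804862319088872980480000000000)), (.ofNat (nat_lit 33501760920977636954261048367513600000000))⟩]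
  es := [
    ⟨nat_lit 1, nat_lit 4, (.negSucc (nat_lit 549755813887999)), (.negSucc (nat_lit 274877906943999)), (.negSucc (nat_lit 549755813887967)), (.negSucc (nat_lit 274877906944031)), (.ofNat (nat_lit 1128940972096291308956649858457927680000000)), (.ofNat (nat_lit 34185470327528200973735763640320000000)), (.ofNat (nat_lit 18793661063054340057588538851937319292764160000000000))⟩,
    ⟨nat_lit 1, nat_lit 6, (.negSucc (nat_lit 549755813887999)), (.negSucc (nat_lit 219902325555199)), (.negSucc (nat_lit 549755813887967)), (.negSucc (nat_lit 219902325555455)), (.ofNat (nat_lit 0)), (.ofNat (nat_lit 0)), (.ofNat (nat_lit 0))⟩,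
    ⟨nat_lit 3, nat_lit 5, (.ofNat (nat_lit 0)), (.ofNat (nat_lit 824633720832000)), (.ofNat (nat_lit 32)), (.ofNat (nat_lit 824633720831968)), (.negSucc (nat_lit 529701583693694305541304075222515711999999)), (.ofNat (nat_lit 297556031309193382642225042685952000000)), (.ofNat (nat_lit 90561954247593101152504771592772957342007296000000000))⟩,
    ⟨nat_lit 3, nat_lit 0, (.ofNat (nat_lit 0)), (.ofNat (nat_lit 274877906944000)), (.ofNat (nat_lit 32)), (.ofNat (nat_lit 274877906943968)), (.negSucc (nat_lit 506656018630229960991543005760454655999999)), (.ofNat (nat_lit 298695546986777656008016234807296000000)), (.ofNat (nat_lit 90561954247593101152504771592772957342007296000000000))⟩,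
    ⟨nat_lit 4, nat_lit 0, (.negSucc (nat_lit 274877906943999)), (.ofNat (nat_lit 274877906944000)), (.negSucc (nat_lit 274877906943967)), (.ofNat (nat_lit 274877906943968)), (.negSucc (nat_lit 519345665215808429192993721223741439999999)), (.ofNat (nat_lit 296986273470401245959329446625280000000)), (.ofNat (nat_lit 91031795774169459653944485064071390324326400000000000))⟩,
    ⟨nat_lit 5, nat_lit 2, (.ofNat (nat_lit 824633720832000)), (.ofNat (nat_lit 1099511627776000)), (.ofNat (nat_lit 824633720832032)), (.ofNat (nat_lit 1099511627775968)), (.ofNat (nat_lit 1128940972096291308956649858457927680000000)), (.ofNat (nat_lit 34185470327528200973735763640320000000)), (.ofNat (nat_lit 307746199907514818443012323700473603419013120000000000))⟩,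
    ⟨nat_lit 6, nat_lit 12, (.negSucc (nat_lit 219902325555199)), (.negSucc (nat_lit 192414534860799)), (.negSucc (nat_lit 219902325554943)), (.negSucc (nat_lit 192414534860831)), (.ofNat (nat_lit 2187870100961804862319088872980480000000000)), (.ofNat (nat_lit 0)), (.ofNat (nat_lit 0))⟩,
    ⟨nat_lit 8, nat_lit 2, (.negSucc (nat_lit 213030377881599)), (.ofNat (nat_lit 1099511627776000)), (.negSucc (nat_lit 213030377881567)), (.ofNat (nat_lit 1099511627775968)), (.ofNat (nat_lit 0)), (.ofNat (nat_lit 0)), (.ofNat (nat_lit 345333522033623498558189401404348242004541440000000000))⟩,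
    ⟨nat_lit 8, nat_lit 12, (.negSucc (nat_lit 213030377881599)), (.negSucc (nat_lit 192414534860799)), (.negSucc (nat_lit 213030377881567)), (.negSucc (nat_lit 192414534860831)), (.ofNat (nat_lit 1093935050480902431159544436490240000000000)), (.negSucc (nat_lit 16750880460488818477130524183756799999999)), (.negSucc (nat_lit 3223112872313819319876434413107250258709053439999999999))⟩,
    ⟨nat_lit 9, nat_lit 10, (.ofNat (nat_lit 1388133430067200)), (.ofNat (nat_lit 1429365116108800)), (.ofNat (nat_lit 1388133430067232)), (.ofNat (nat_lit 1429365116108768)), (.ofNat (nat_lit 2198809451466613886630684317345382400000000)), (.ofNat (nat_lit 0)), (.ofNat (nat_lit 0))⟩,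
    ⟨nat_lit 10, nat_lit 11, (.ofNat (nat_lit 1429365116108800)), (.ofNat (nat_lit 1649267441664000)), (.ofNat (nat_lit 1429365116108832)), (.ofNat (nat_lit 1649267441663968)), (.ofNat (nat_lit 3849283958879675429642646985900032000000000)), (.negSucc (nat_lit 21365918954705125608584852275199999999)), (.ofNat (nat_lit 30539699227463302593581375634398143850741760000000000))⟩,
    ⟨nat_lit 11, nat_lit 7, (.ofNat (nat_lit 1649267441664000)), (.ofNat (nat_lit 2199023255552000)), (.ofNat (nat_lit 1649267441664032)), (.ofNat (nat_lit 2199023255551968)), (.ofNat (nat_lit 1506348564512202647706692689047060480000000)), (.ofNat (nat_lit 8546367581882050243433940910080000000)), (.negSucc (nat_lit 18793661063054340057588538851937319292764159999999999))⟩,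
    ⟨nat_lit 9, nat_lit 7, (.ofNat (nat_lit 1388133430067200)), (.ofNat (nat_lit 2199023255552000)), (.ofNat (nat_lit 1388133430067232)), (.ofNat (nat_lit 2199023255551968)), (.ofNat (nat_lit 2176930750456995838007493428615577600000000)), (.ofNat (nat_lit 0)), (.ofNat (nat_lit 0))⟩]

theorem ok238 : stOK 12 12 S238 = true := by decide +kernel

def S239 : SD where
  vs := [
    ⟨nat_lit 1, nat_lit 3, nat_lit 4, (.ofNat (nat_lit 16)), (.ofNat (nat_lit 274877906944000)), (.ofNat (nat_lit 13651715402683626938599472990750010030855221673984000000)), (.ofNat (nat_lit 0)), (.negSucc (nat_lit 176190572466134438039892551736912368369663999999999999)), (.ofNat (nat_lit 274877906943968)), (.ofNat (nat_lit 274877906944032)), (.negSucc (nat_lit 528151842372179693763828053937487871999999)), (.negSucc (nat_lit 540950882462806252208394723844423679999999)), (.negSucc (nat_lit 540950882462806252208394723844423679999999)), (.negSucc (nat_lit 528151842372179693763828053937487871999999)), (.ofNat (nat_lit 675163038968681969231281331896320000000))⟩,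
    ⟨nat_lit 2, nat_lit 0, nat_lit 1, (.ofNat (nat_lit 16)), (.negSucc (nat_lit 549755813887999)), (.ofNat (nat_lit 120279437284502097135725017355140140065026473984000000)), (.ofNat (nat_lit 0)), (.ofNat (nat_lit 0)), (.negSucc (nat_lit 549755813888031)), (.negSucc (nat_lit 549755813887967)), (.ofNat (nat_lit 1131128842197253113818968947330908160000000)), (.ofNat (nat_lit 0)), (.ofNat (nat_lit 0)), (.ofNat (nat_lit 1131128842197253113818968947330908160000000)), (.ofNat (nat_lit 136741881310112803894943054561280000000))⟩,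
    ⟨nat_lit 1, nat_lit 5, nat_lit 7, (.ofNat (nat_lit 16)), (.ofNat (nat_lit 1099511627776000)), (.ofNat (nat_lit 15155208287727974143206556098904995574276354473984000000)), (.ofNat (nat_lit 0)), (.negSucc (nat_lit 352381144932268876079785103473824736739327999999999999)), (.ofNat (nat_lit 1099511627775968)), (.ofNat (nat_lit 1099511627776032)), (.ofNat (nat_lit 1131128842197253113818968947330908160000000)), (.ofNat (nat_lit 0)), (.ofNat (nat_lit 0)), (.ofNat (nat_lit 1131128842197253113818968947330908160000000)), (.ofNat (nat_lit 136741881310112803894943054561280000000))⟩,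
    ⟨nat_lit 2, nat_lit 3, nat_lit 2, (.ofNat (nat_lit 16)), (.ofNat (nat_lit 0)), (.ofNat (nat_lit 158828988382565793015459417914195414103599804841984000000)), (.ofNat (nat_lit 0)), (.negSucc (nat_lit 83866712493879992506988854626770287343960063999999999)), (.negSucc (nat_lit 31)), (.ofNat (nat_lit 32)), (.negSucc (nat_lit 528151842372179693763828053937487871999999)), (.negSucc (nat_lit 551270336439009431808999759695314943999999)), (.negSucc (nat_lit 551270336439009431808999759695314943999999)), (.negSucc (nat_lit 528151842372179693763828053937487871999999)), (.ofNat (nat_lit 674023523291097695865490139774976000000))⟩,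
    ⟨nat_lit 0, nat_lit 0, nat_lit 4, (.ofNat (nat_lit 16)), (.negSucc (nat_lit 274877906943999)), (.ofNat (nat_lit 311042608064455504009880511783806150519555289513984000000)), (.ofNat (nat_lit 0)), (.ofNat (nat_lit 9396830531527170028794269425968659646382080000000000)), (.negSucc (nat_lit 274877906944031)), (.negSucc (nat_lit 274877906943967)), (.ofNat (nat_lit 1131128842197253113818968947330908160000000)), (.negSucc (nat_lit 540950882462806252208394723844423679999999)), (.negSucc (nat_lit 540950882462806252208394723844423679999999)), (.ofNat (nat_lit 1131128842197253113818968947330908160000000)), (.ofNat (nat_lit 811904920278794773126224386457600000000))⟩,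
    ⟨nat_lit 0, nat_lit 2, nat_lit 5, (.ofNat (nat_lit 16)), (.ofNat (nat_lit 824633720832000)), (.negSucc (nat_lit 295767120339443027769538230667546014805213908566015999999)), (.ofNat (nat_lit 0)), (.negSucc (nat_lit 361777975463796046108579372899793396385710079999999999)), (.ofNat (nat_lit 824633720831968)), (.ofNat (nat_lit 824633720832032)), (.negSucc (nat_lit 551270336439009431808999759695314943999999)), (.ofNat (nat_lit 1131128842197253113818968947330908160000000)), (.negSucc (nat_lit 551270336439009431808999759695314943999999)), (.ofNat (nat_lit 1131128842197253113818968947330908160000000)), (.ofNat (nat_lit 1416417987237251793678451806830592000000))⟩,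
    ⟨nat_lit 0, nat_lit 1, nat_lit 6, (.ofNat (nat_lit 128)), (.negSucc (nat_lit 219902325555199)), (.ofNat (nat_lit 120279437284502097135725017355140140065026473984000000)), (.ofNat (nat_lit 0)), (.ofNat (nat_lit 0)), (.negSucc (nat_lit 219902325555455)), (.negSucc (nat_lit 219902325554943)), (.ofNat (nat_lit 0)), (.ofNat (nat_lit 2187870100961804862319088872980480000000000)), (.ofNat (nat_lit 0)), (.ofNat (nat_lit 2187870100961804862319088872980480000000000)), (.ofNat (nat_lit 0))⟩,
    ⟨nat_lit 1, nat_lit 12, nat_lit 11, (.ofNat (nat_lit 16)), (.ofNat (nat_lit 2199023255552000)), (.ofNat (nat_lit 5283394277483120579086425767073974339721925685673984000000)), (.ofNat (nat_lit 0)), (.ofNat (nat_lit 0)), (.ofNat (nat_lit 2199023255551968)), (.ofNat (nat_lit 2199023255552032)), (.ofNat (nat_lit 2176930750456995838007493428615577600000000)), (.ofNat (nat_lit 1506895532037443098922272461265305600000000)), (.ofNat (nat_lit 1506895532037443098922272461265305600000000)), (.ofNat (nat_lit 2176930750456995838007493428615577600000000)), (.ofNat (nat_lit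 17092735163764100486867881820160000000))⟩,
    ⟨nat_lit 2, nat_lit 8, nat_lit 7, (.ofNat (nat_lit 16)), (.negSucc (nat_lit 213030377881663)), (.ofNat (nat_lit 15155208287727974143206556098904995574276354473984000000)), (.negSucc (nat_lit 0)), (.negSucc (nat_lit 352381144932268876079785103473824736739327999999999999)), (.negSucc (nat_lit 213030377881695)), (.negSucc (nat_lit 213030377881631)), (.ofNat (nat_lit 1093935050480902431159544436490240000000000)), (.ofNat (nat_lit 0)), (.ofNat (nat_lit 0)), (.ofNat (nat_lit 1093935050480902431159544436490240000000000)), (.ofNat (nat_lit 0))⟩,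
    ⟨nat_lit 2, nat_lit 12, nat_lit 9, (.ofNat (nat_lit 16)), (.ofNat (nat_lit 1388133430067200)), (.ofNat (nat_lit 3518143281152552526157249489789205813191173665193984000000)), (.ofNat (nat_lit 0)), (.ofNat (nat_lit 0)), (.ofNat (nat_lit 1388133430067168)), (.ofNat (nat_lit 1388133430067232)), (.ofNat (nat_lit 2176930750456995838007493428615577600000000)), (.ofNat (nat_lit 2198809451466613886630684317345382400000000)), (.ofNat (nat_lit 2176930750456995838007493428615577600000000)), (.ofNat (nat_lit 2198809451466613886630684317345382400000000)), (.ofNat (nat_lit 0))⟩,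
    ⟨nat_lit 0, nat_lit 9, nat_lit 10, (.ofNat (nat_lit 16)), (.ofNat (nat_lit 1429365116108800)), (.ofNat (nat_lit 3608803902120726662595056601210951441459467973033984000000)), (.ofNat (nat_lit 0)), (.ofNat (nat_lit 0)), (.ofNat (nat_lit 1429365116108768)), (.ofNat (nat_lit 1429365116108832)), (.ofNat (nat_lit 2198809451466613886630684317345382400000000)), (.ofNat (nat_lit 3847916540066574301603697555354419200000000)), (.ofNat (nat_lit 2198809451466613886630684317345382400000000)), (.ofNat (nat_lit 3847916540066574301603697555354419200000000)), (.ofNat (nat_lit 42731837909410251217169704550400000000))⟩,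
    ⟨nat_lit 0, nat_lit 10, nat_lit 11, (.ofNat (nat_lit 16)), (.ofNat (nat_lit 1649267441664000)), (.ofNat (nat_lit 4454969697823685269347922974480577305296881512873984000000)), (.ofNat (nat_lit 0)), (.negSucc (nat_lit 4698415265763585014397134712984329823191039999999999)), (.ofNat (nat_lit 1649267441663968)), (.ofNat (nat_lit 1649267441664032)), (.ofNat (nat_lit 3847916540066574301603697555354419200000000)), (.ofNat (nat_lit 1506895532037443098922272461265305600000000)), (.ofNat (nat_lit 1506895532037443098922272461265305600000000)), (.ofNat (nat_lit 3847916540066574301603697555354419200000000)), (.ofNat (nat_lit 102556410982584602921207290920960000000))⟩,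
    ⟨nat_lit 1, nat_lit 6, nat_lit 8, (.ofNat (nat_lit 16)), (.negSucc (nat_lit 213030377881535)), (.ofNat (nat_lit 15155208287867997829668111610093417262147105193984000000)), (.negSucc (nat_lit 322122547198)), (.negSucc (nat_lit 704762289862349882058608402085330384605675519999999999)), (.negSucc (nat_lit 213030377881567)), (.negSucc (nat_lit 213030377881503)), (.ofNat (nat_lit 2187870100961804862319088872980480000000000)), (.ofNat (nat_lit 1093935050480902431159544436490240000000000)), (.ofNat (nat_lit 1093935050480902431159544436490240000000000)), (.ofNat (nat_lit 2187870100961804862319088872980480000000000)), (.ofNat (nat_lit 0))⟩]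
  es := [
    ⟨nat_lit 1, nat_lit 4, (.negSucc (nat_lit 549755813887999)), (.negSucc (nat_lit 274877906943999)), (.negSucc (nat_lit 549755813887967)), (.negSucc (nat_lit 274877906944031)), (.ofNat (nat_lit 1131128842197253113818968947330908160000000)), (.ofNat (nat_lit 34185470327528200973735763640320000000)), (.ofNat (nat_lit 18793661063054340057588538851937319292764160000000000))⟩,
    ⟨nat_lit 1, nat_lit 6, (.negSucc (nat_lit 549755813887999)), (.negSucc (nat_lit 219902325555199)), (.negSucc (nat_lit 549755813887967)), (.negSucc (nat_lit 219902325555455)), (.ofNat (nat_lit 0)), (.ofNat (nat_lit 0)), (.ofNat (nat_lit 0))⟩,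
    ⟨nat_lit 3, nat_lit 5, (.ofNat (nat_lit 0)), (.ofNat (nat_lit 824633720832000)), (.ofNat (nat_lit 32)), (.ofNat (nat_lit 824633720831968)), (.negSucc (nat_lit 551270336439009431808999759695314943999999)), (.negSucc (nat_lit 337011761645548847932745069887487999999)), (.negSucc (nat_lit 83866712493879992506988854626770287343960063999999999))⟩,
    ⟨nat_lit 3, nat_lit 0, (.ofNat (nat_lit 0)), (.ofNat (nat_lit 274877906944000)), (.ofNat (nat_lit 32)), (.ofNat (nat_lit 274877906943968)), (.negSucc (nat_lit 528151842372179693763828053937487871999999)), (.negSucc (nat_lit 335872245967964574566953877766143999999)), (.negSucc (nat_lit 83866712493879992506988854626770287343960063999999999))⟩,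
    ⟨nat_lit 4, nat_lit 0, (.negSucc (nat_lit 274877906943999)), (.ofNat (nat_lit 274877906944000)), (.negSucc (nat_lit 274877906943967)), (.ofNat (nat_lit 274877906943968)), (.negSucc (nat_lit 540950882462806252208394723844423679999999)), (.negSucc (nat_lit 337581519484340984615640665948159999999)), (.negSucc (nat_lit 83396870967303634005549141155471854361640959999999999))⟩,
    ⟨nat_lit 5, nat_lit 2, (.ofNat (nat_lit 824633720832000)), (.ofNat (nat_lit 1099511627776000)), (.ofNat (nat_lit 824633720832032)), (.ofNat (nat_lit 1099511627775968)), (.ofNat (nat_lit 1131128842197253113818968947330908160000000)), (.ofNat (nat_lit 34185470327528200973735763640320000000)), (.negSucc (nat_lit 389968467058377556194962181177699375324856319999999999))⟩,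
    ⟨nat_lit 6, nat_lit 12, (.negSucc (nat_lit 219902325555199)), (.negSucc (nat_lit 213030377881535)), (.negSucc (nat_lit 219902325554943)), (.negSucc (nat_lit 213030377881567)), (.ofNat (nat_lit 2187870100961804862319088872980480000000000)), (.ofNat (nat_lit 0)), (.ofNat (nat_lit 0))⟩,
    ⟨nat_lit 8, nat_lit 2, (.negSucc (nat_lit 213030377881663)), (.ofNat (nat_lit 1099511627776000)), (.negSucc (nat_lit 213030377881631)), (.ofNat (nat_lit 1099511627775968)), (.ofNat (nat_lit 0)), (.ofNat (nat_lit 0)), (.negSucc (nat_lit 352381144932268876079785103473824736739327999999999999))⟩,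
    ⟨nat_lit 8, nat_lit 12, (.negSucc (nat_lit 213030377881663)), (.negSucc (nat_lit 213030377881535)), (.negSucc (nat_lit 213030377881631)), (.negSucc (nat_lit 213030377881567)), (.ofNat (nat_lit 1093935050480902431159544436490240000000000)), (.ofNat (nat_lit 0)), (.negSucc (nat_lit 352381144931174941029304201042665192302837759999999999))⟩,
    ⟨nat_lit 9, nat_lit 10, (.ofNat (nat_lit 1388133430067200)), (.ofNat (nat_lit 1429365116108800)), (.ofNat (nat_lit 1388133430067232)), (.ofNat (nat_lit 1429365116108768)), (.ofNat (nat_lit 2198809451466613886630684317345382400000000)), (.ofNat (nat_lit 0)), (.ofNat (nat_lit 0))⟩,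
    ⟨nat_lit 10, nat_lit 11, (.ofNat (nat_lit 1429365116108800)), (.ofNat (nat_lit 1649267441664000)), (.ofNat (nat_lit 1429365116108832)), (.ofNat (nat_lit 1649267441663968)), (.ofNat (nat_lit 3847916540066574301603697555354419200000000)), (.negSucc (nat_lit 21365918954705125608584852275199999999)), (.ofNat (nat_lit 30539699227463302593581375634398143850741760000000000))⟩,
    ⟨nat_lit 11, nat_lit 7, (.ofNat (nat_lit 1649267441664000)), (.ofNat (nat_lit 2199023255552000)), (.ofNat (nat_lit 1649267441664032)), (.ofNat (nat_lit 2199023255551968)), (.ofNat (nat_lit 1506895532037443098922272461265305600000000)), (.ofNat (nat_lit 8546367581882050243433940910080000000)), (.negSucc (nat_lit 18793661063054340057588538851937319292764159999999999))⟩,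
    ⟨nat_lit 9, nat_lit 7, (.ofNat (nat_lit 1388133430067200)), (.ofNat (nat_lit 2199023255552000)), (.ofNat (nat_lit 1388133430067232)), (.ofNat (nat_lit 2199023255551968)), (.ofNat (nat_lit 2176930750456995838007493428615577600000000)), (.ofNat (nat_lit 0)), (.ofNat (nat_lit 0))⟩]

theorem ok239 : stOK 12 12 S239 = true := by decide +kernel

def S240 : SD where
  vs := [
    ⟨nat_lit 1, nat_lit 3, nat_lit 4, (.ofNat (nat_lit 16)), (.ofNat (nat_lit 274877906944000)), (.ofNat (nat_lit 13651715402683626938599472990750010030855221673984000000)), (.ofNat (nat_lit 0)), (.ofNat (nat_lit 0)), (.ofNat (nat_lit 274877906943968)), (.ofNat (nat_lit 274877906944032)), (.negSucc (nat_lit 529121000455965118261433462836690943999999)), (.negSucc (nat_lit 542027724778123390539067400399093759999999)), (.negSucc (nat_lit 542027724778123390539067400399093759999999)), (.negSucc (nat_lit 529121000455965118261433462836690943999999)), (.ofNat (nat_lit 34185470327528200973735763640320000000))⟩,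
    ⟨nat_lit 2, nat_lit 0, nat_lit 1, (.ofNat (nat_lit 16)), (.negSucc (nat_lit 549755813887999)), (.ofNat (nat_lit 120279437284502097135725017355140140065026473984000000)), (.ofNat (nat_lit 0)), (.ofNat (nat_lit 0)), (.negSucc (nat_lit 549755813888031)), (.negSucc (nat_lit 549755813887967)), (.ofNat (nat_lit 1133282526827887390480314300440248320000000)), (.ofNat (nat_lit 0)), (.ofNat (nat_lit 0)), (.ofNat (nat_lit 1133282526827887390480314300440248320000000)), (.ofNat (nat_lit 136741881310112803894943054561280000000))⟩,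
    ⟨nat_lit 1, nat_lit 5, nat_lit 7, (.ofNat (nat_lit 16)), (.ofNat (nat_lit 1099511627776000)), (.ofNat (nat_lit 15155208287727974143206556098904995574276354473984000000)), (.ofNat (nat_lit 0)), (.ofNat (nat_lit 0)), (.ofNat (nat_lit 1099511627775968)), (.ofNat (nat_lit 1099511627776032)), (.ofNat (nat_lit 1133282526827887390480314300440248320000000)), (.ofNat (nat_lit 0)), (.ofNat (nat_lit 0)), (.ofNat (nat_lit 1133282526827887390480314300440248320000000)), (.ofNat (nat_lit 136741881310112803894943054561280000000))⟩,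
    ⟨nat_lit 2, nat_lit 3, nat_lit 2, (.ofNat (nat_lit 16)), (.ofNat (nat_lit 0)), (.ofNat (nat_lit 159095388528134588285775735452421625604574736809984000000)), (.ofNat (nat_lit 0)), (.ofNat (nat_lit 4228573739187226512957421241685896840871936000000000)), (.negSucc (nat_lit 31)), (.ofNat (nat_lit 32)), (.negSucc (nat_lit 529121000455965118261433462836690943999999)), (.negSucc (nat_lit 552311284010482665528650013698162687999999)), (.negSucc (nat_lit 552311284010482665528650013698162687999999)), (.negSucc (nat_lit 529121000455965118261433462836690943999999)), (.ofNat (nat_lit 33045954649943927607944571518976000000))⟩,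
    ⟨nat_lit 0, nat_lit 0, nat_lit 4, (.ofNat (nat_lit 16)), (.negSucc (nat_lit 274877906943999)), (.ofNat (nat_lit 311634608387941715721694550757642176077277360553984000000)), (.ofNat (nat_lit 0)), (.ofNat (nat_lit 9396830531527170028794269425968659646382080000000000)), (.negSucc (nat_lit 274877906944031)), (.negSucc (nat_lit 274877906943967)), (.ofNat (nat_lit 1133282526827887390480314300440248320000000)), (.negSucc (nat_lit 542027724778123390539067400399093759999999)), (.negSucc (nat_lit 542027724778123390539067400399093759999999)), (.ofNat (nat_lit 1133282526827887390480314300440248320000000)), (.ofNat (nat_lit 170927351637641004868678818201600000000))⟩,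
    ⟨nat_lit 0, nat_lit 2, nat_lit 5, (.ofNat (nat_lit 16)), (.ofNat (nat_lit 824633720832000)), (.negSucc (nat_lit 296359120662929239481352269641382040362935979606015999999)), (.ofNat (nat_lit 0)), (.negSucc (nat_lit 9396830531527170028794269425968659646382079999999999)), (.ofNat (nat_lit 824633720831968)), (.ofNat (nat_lit 824633720832032)), (.negSucc (nat_lit 552311284010482665528650013698162687999999)), (.ofNat (nat_lit 1133282526827887390480314300440248320000000)), (.negSucc (nat_lit 552311284010482665528650013698162687999999)), (.ofNat (nat_lit 1133282526827887390480314300440248320000000)), (.ofNat (nat_lit 134462849954944257163360670318592000000))⟩,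
    ⟨nat_lit 0, nat_lit 1, nat_lit 6, (.ofNat (nat_lit 128)), (.negSucc (nat_lit 219902325555199)), (.ofNat (nat_lit 120279437284502097135725017355140140065026473984000000)), (.ofNat (nat_lit 0)), (.ofNat (nat_lit 0)), (.negSucc (nat_lit 219902325555455)), (.negSucc (nat_lit 219902325554943)), (.ofNat (nat_lit 0)), (.ofNat (nat_lit 2187870100961804862319088872980480000000000)), (.ofNat (nat_lit 0)), (.ofNat (nat_lit 2187870100961804862319088872980480000000000)), (.ofNat (nat_lit 0))⟩,
    ⟨nat_lit 1, nat_lit 12, nat_lit 11, (.ofNat (nat_lit 16)), (.ofNat (nat_lit 2199023255552000)), (.ofNat (nat_lit 5283394277483120579086425767073974339721925685673984000000)), (.ofNat (nat_lit 0)), (.ofNat (nat_lit 0)), (.ofNat (nat_lit 2199023255551968)), (.ofNat (nat_lit 2199023255552032)), (.ofNat (nat_lit 2176930750456995838007493428615577600000000)), (.ofNat (nat_lit 1507433953195101668087608799542640640000000)), (.ofNat (nat_lit 1507433953195101668087608799542640640000000)), (.ofNat (nat_lit 2176930750456995838007493428615577600000000)), (.ofNat (nat_lit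 17092735163764100486867881820160000000))⟩,
    ⟨nat_lit 2, nat_lit 8, nat_lit 7, (.ofNat (nat_lit 16)), (.negSucc (nat_lit 213030377881663)), (.ofNat (nat_lit 15155208287727974143206556098904995574276354473984000000)), (.ofNat (nat_lit 0)), (.ofNat (nat_lit 0)), (.negSucc (nat_lit 213030377881695)), (.negSucc (nat_lit 213030377881631)), (.ofNat (nat_lit 1093935050480902431159544436490240000000000)), (.ofNat (nat_lit 0)), (.ofNat (nat_lit 0)), (.ofNat (nat_lit 1093935050480902431159544436490240000000000)), (.ofNat (nat_lit 0))⟩,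
    ⟨nat_lit 2, nat_lit 12, nat_lit 9, (.ofNat (nat_lit 16)), (.ofNat (nat_lit 1388133430067200)), (.ofNat (nat_lit 3518143281152552526157249489789205813191173665193984000000)), (.ofNat (nat_lit 0)), (.ofNat (nat_lit 0)), (.ofNat (nat_lit 1388133430067168)), (.ofNat (nat_lit 1388133430067232)), (.ofNat (nat_lit 2176930750456995838007493428615577600000000)), (.ofNat (nat_lit 2198809451466613886630684317345382400000000)), (.ofNat (nat_lit 2176930750456995838007493428615577600000000)), (.ofNat (nat_lit 2198809451466613886630684317345382400000000)), (.ofNat (nat_lit 0))⟩,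
    ⟨nat_lit 0, nat_lit 9, nat_lit 10, (.ofNat (nat_lit 16)), (.ofNat (nat_lit 1429365116108800)), (.ofNat (nat_lit 3608803902120726662595056601210951441459467973033984000000)), (.ofNat (nat_lit 0)), (.ofNat (nat_lit 0)), (.ofNat (nat_lit 1429365116108768)), (.ofNat (nat_lit 1429365116108832)), (.ofNat (nat_lit 2198809451466613886630684317345382400000000)), (.ofNat (nat_lit 3846570487172427878690356709661081600000000)), (.ofNat (nat_lit 2198809451466613886630684317345382400000000)), (.ofNat (nat_lit 3846570487172427878690356709661081600000000)), (.ofNat (nat_lit 42731837909410251217169704550400000000))⟩,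
    ⟨nat_lit 0, nat_lit 10, nat_lit 11, (.ofNat (nat_lit 16)), (.ofNat (nat_lit 1649267441664000)), (.ofNat (nat_lit 4454673697661942163492015954993659292518020477353984000000)), (.ofNat (nat_lit 0)), (.negSucc (nat_lit 4698415265763585014397134712984329823191039999999999)), (.ofNat (nat_lit 1649267441663968)), (.ofNat (nat_lit 1649267441664032)), (.ofNat (nat_lit 3846570487172427878690356709661081600000000)), (.ofNat (nat_lit 1507433953195101668087608799542640640000000)), (.ofNat (nat_lit 1507433953195101668087608799542640640000000)), (.ofNat (nat_lit 3846570487172427878690356709661081600000000)), (.ofNat (nat_lit 102556410982584602921207290920960000000))⟩,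
    ⟨nat_lit 1, nat_lit 6, nat_lit 8, (.ofNat (nat_lit 16)), (.negSucc (nat_lit 213030377881535)), (.ofNat (nat_lit 15155208287867997829668111610093417262147105193984000000)), (.ofNat (nat_lit 0)), (.ofNat (nat_lit 0)), (.negSucc (nat_lit 213030377881567)), (.negSucc (nat_lit 213030377881503)), (.ofNat (nat_lit 2187870100961804862319088872980480000000000)), (.ofNat (nat_lit 1093935050480902431159544436490240000000000)), (.ofNat (nat_lit 1093935050480902431159544436490240000000000)), (.ofNat (nat_lit 2187870100961804862319088872980480000000000)), (.ofNat (nat_lit 0))⟩]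
  es := [
    ⟨nat_lit 1, nat_lit 4, (.negSucc (nat_lit 549755813887999)), (.negSucc (nat_lit 274877906943999)), (.negSucc (nat_lit 549755813887967)), (.negSucc (nat_lit 274877906944031)), (.ofNat (nat_lit 1133282526827887390480314300440248320000000)), (.ofNat (nat_lit 34185470327528200973735763640320000000)), (.ofNat (nat_lit 18793661063054340057588538851937319292764160000000000))⟩,
    ⟨nat_lit 1, nat_lit 6, (.negSucc (nat_lit 549755813887999)), (.negSucc (nat_lit 219902325555199)), (.negSucc (nat_lit 549755813887967)), (.negSucc (nat_lit 219902325555455)), (.ofNat (nat_lit 0)), (.ofNat (nat_lit 0)), (.ofNat (nat_lit 0))⟩,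
    ⟨nat_lit 3, nat_lit 5, (.ofNat (nat_lit 0)), (.ofNat (nat_lit 824633720832000)), (.ofNat (nat_lit 32)), (.ofNat (nat_lit 824633720831968)), (.negSucc (nat_lit 552311284010482665528650013698162687999999)), (.negSucc (nat_lit 16522977324971963803972285759487999999)), (.ofNat (nat_lit 4228573739187226512957421241685896840871936000000000))⟩,
    ⟨nat_lit 3, nat_lit 0, (.ofNat (nat_lit 0)), (.ofNat (nat_lit 274877906944000)), (.ofNat (nat_lit 32)), (.ofNat (nat_lit 274877906943968)), (.negSucc (nat_lit 529121000455965118261433462836690943999999)), (.negSucc (nat_lit 15383461647387690438181093638143999999)), (.ofNat (nat_lit 4228573739187226512957421241685896840871936000000000))⟩,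
    ⟨nat_lit 4, nat_lit 0, (.negSucc (nat_lit 274877906943999)), (.ofNat (nat_lit 274877906944000)), (.negSucc (nat_lit 274877906943967)), (.ofNat (nat_lit 274877906943968)), (.negSucc (nat_lit 542027724778123390539067400399093759999999)), (.negSucc (nat_lit 17092735163764100486867881820159999999)), (.ofNat (nat_lit 4698415265763585014397134712984329823191040000000000))⟩,
    ⟨nat_lit 5, nat_lit 2, (.ofNat (nat_lit 824633720832000)), (.ofNat (nat_lit 1099511627776000)), (.ofNat (nat_lit 824633720832032)), (.ofNat (nat_lit 1099511627775968)), (.ofNat (nat_lit 1133282526827887390480314300440248320000000)), (.ofNat (nat_lit 34185470327528200973735763640320000000)), (.negSucc (nat_lit 37587322126108680115177077703874638585528319999999999))⟩,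
    ⟨nat_lit 6, nat_lit 12, (.negSucc (nat_lit 219902325555199)), (.negSucc (nat_lit 213030377881535)), (.negSucc (nat_lit 219902325554943)), (.negSucc (nat_lit 213030377881567)), (.ofNat (nat_lit 2187870100961804862319088872980480000000000)), (.ofNat (nat_lit 0)), (.ofNat (nat_lit 0))⟩,
    ⟨nat_lit 8, nat_lit 2, (.negSucc (nat_lit 213030377881663)), (.ofNat (nat_lit 1099511627776000)), (.negSucc (nat_lit 213030377881631)), (.ofNat (nat_lit 1099511627775968)), (.ofNat (nat_lit 0)), (.ofNat (nat_lit 0)), (.ofNat (nat_lit 0))⟩,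
    ⟨nat_lit 8, nat_lit 12, (.negSucc (nat_lit 213030377881663)), (.negSucc (nat_lit 213030377881535)), (.negSucc (nat_lit 213030377881631)), (.negSucc (nat_lit 213030377881567)), (.ofNat (nat_lit 1093935050480902431159544436490240000000000)), (.ofNat (nat_lit 0)), (.ofNat (nat_lit 0))⟩,
    ⟨nat_lit 9, nat_lit 10, (.ofNat (nat_lit 1388133430067200)), (.ofNat (nat_lit 1429365116108800)), (.ofNat (nat_lit 1388133430067232)), (.ofNat (nat_lit 1429365116108768)), (.ofNat (nat_lit 2198809451466613886630684317345382400000000)), (.ofNat (nat_lit 0)), (.ofNat (nat_lit 0))⟩,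
    ⟨nat_lit 10, nat_lit 11, (.ofNat (nat_lit 1429365116108800)), (.ofNat (nat_lit 1649267441664000)), (.ofNat (nat_lit 1429365116108832)), (.ofNat (nat_lit 1649267441663968)), (.ofNat (nat_lit 3846570487172427878690356709661081600000000)), (.negSucc (nat_lit 21365918954705125608584852275199999999)), (.ofNat (nat_lit 30539699227463302593581375634398143850741760000000000))⟩,
    ⟨nat_lit 11, nat_lit 7, (.ofNat (nat_lit 1649267441664000)), (.ofNat (nat_lit 2199023255552000)), (.ofNat (nat_lit 1649267441664032)), (.ofNat (nat_lit 2199023255551968)), (.ofNat (nat_lit 1507433953195101668087608799542640640000000)), (.ofNat (nat_lit 8546367581882050243433940910080000000)), (.negSucc (nat_lit 18793661063054340057588538851937319292764159999999999))⟩,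
    ⟨nat_lit 9, nat_lit 7, (.ofNat (nat_lit 1388133430067200)), (.ofNat (nat_lit 2199023255552000)), (.ofNat (nat_lit 1388133430067232)), (.ofNat (nat_lit 2199023255551968)), (.ofNat (nat_lit 2176930750456995838007493428615577600000000)), (.ofNat (nat_lit 0)), (.ofNat (nat_lit 0))⟩]

theorem ok240 : stOK 12 12 S240 = true := by decide +kernel

def S241 : SD where
  vs := [
    ⟨nat_lit 1, nat_lit 3, nat_lit 4, (.ofNat (nat_lit 16)), (.ofNat (nat_lit 274877906944000)), (.ofNat (nat_lit 13651715402683626938599472990750010030855221673984000000)), (.ofNat (nat_lit 0)), (.ofNat (nat_lit 0)), (.ofNat (nat_lit 274877906943968)), (.ofNat (nat_lit 274877906944032)), (.negSucc (nat_lit 529121000455965118261433462836690943999999)), (.negSucc (nat_lit 542027724778123390539067400399093759999999)), (.negSucc (nat_lit 542027724778123390539067400399093759999999)), (.negSucc (nat_lit 529121000455965118261433462836690943999999)), (.ofNat (nat_lit 34185470327528200973735763640320000000))⟩,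
    ⟨nat_lit 2, nat_lit 0, nat_lit 1, (.ofNat (nat_lit 16)), (.negSucc (nat_lit 549755813887999)), (.ofNat (nat_lit 120279437284502097135725017355140140065026473984000000)), (.ofNat (nat_lit 0)), (.ofNat (nat_lit 0)), (.negSucc (nat_lit 549755813888031)), (.negSucc (nat_lit 549755813887967)), (.ofNat (nat_lit 1133282526827887390480314300440248320000000)), (.ofNat (nat_lit 0)), (.ofNat (nat_lit 0)), (.ofNat (nat_lit 1133282526827887390480314300440248320000000)), (.ofNat (nat_lit 136741881310112803894943054561280000000))⟩,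
    ⟨nat_lit 1, nat_lit 5, nat_lit 7, (.ofNat (nat_lit 16)), (.ofNat (nat_lit 1099511627776000)), (.ofNat (nat_lit 15155208287727974143206556098904995574276354473984000000)), (.ofNat (nat_lit 0)), (.ofNat (nat_lit 0)), (.ofNat (nat_lit 1099511627775968)), (.ofNat (nat_lit 1099511627776032)), (.ofNat (nat_lit 1133282526827887390480314300440248320000000)), (.ofNat (nat_lit 0)), (.ofNat (nat_lit 0)), (.ofNat (nat_lit 1133282526827887390480314300440248320000000)), (.ofNat (nat_lit 136741881310112803894943054561280000000))⟩,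
    ⟨nat_lit 2, nat_lit 3, nat_lit 2, (.ofNat (nat_lit 16)), (.ofNat (nat_lit 0)), (.ofNat (nat_lit 159095388528134588285775735452421625604574736809984000000)), (.ofNat (nat_lit 0)), (.ofNat (nat_lit 4228573739187226512957421241685896840871936000000000)), (.negSucc (nat_lit 31)), (.ofNat (nat_lit 32)), (.negSucc (nat_lit 529121000455965118261433462836690943999999)), (.negSucc (nat_lit 552311284010482665528650013698162687999999)), (.negSucc (nat_lit 552311284010482665528650013698162687999999)), (.negSucc (nat_lit 529121000455965118261433462836690943999999)), (.ofNat (nat_lit 33045954649943927607944571518976000000))⟩,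
    ⟨nat_lit 0, nat_lit 0, nat_lit 4, (.ofNat (nat_lit 16)), (.negSucc (nat_lit 274877906943999)), (.ofNat (nat_lit 311634608387941715721694550757642176077277360553984000000)), (.ofNat (nat_lit 0)), (.ofNat (nat_lit 9396830531527170028794269425968659646382080000000000)), (.negSucc (nat_lit 274877906944031)), (.negSucc (nat_lit 274877906943967)), (.ofNat (nat_lit 1133282526827887390480314300440248320000000)), (.negSucc (nat_lit 542027724778123390539067400399093759999999)), (.negSucc (nat_lit 542027724778123390539067400399093759999999)), (.ofNat (nat_lit 1133282526827887390480314300440248320000000)), (.ofNat (nat_lit 170927351637641004868678818201600000000))⟩,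
    ⟨nat_lit 0, nat_lit 2, nat_lit 5, (.ofNat (nat_lit 16)), (.ofNat (nat_lit 824633720832000)), (.negSucc (nat_lit 296359120662929239481352269641382040362935979606015999999)), (.ofNat (nat_lit 0)), (.negSucc (nat_lit 9396830531527170028794269425968659646382079999999999)), (.ofNat (nat_lit 824633720831968)), (.ofNat (nat_lit 824633720832032)), (.negSucc (nat_lit 552311284010482665528650013698162687999999)), (.ofNat (nat_lit 1133282526827887390480314300440248320000000)), (.negSucc (nat_lit 552311284010482665528650013698162687999999)), (.ofNat (nat_lit 1133282526827887390480314300440248320000000)), (.ofNat (nat_lit 134462849954944257163360670318592000000))⟩,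
    ⟨nat_lit 0, nat_lit 1, nat_lit 6, (.ofNat (nat_lit 128)), (.negSucc (nat_lit 219902325555199)), (.ofNat (nat_lit 120279437284502097135725017355140140065026473984000000)), (.ofNat (nat_lit 0)), (.ofNat (nat_lit 0)), (.negSucc (nat_lit 219902325555455)), (.negSucc (nat_lit 219902325554943)), (.ofNat (nat_lit 0)), (.ofNat (nat_lit 2187870100961804862319088872980480000000000)), (.ofNat (nat_lit 0)), (.ofNat (nat_lit 2187870100961804862319088872980480000000000)), (.ofNat (nat_lit 0))⟩,
    ⟨nat_lit 1, nat_lit 11, nat_lit 10, (.ofNat (nat_lit 16)), (.ofNat (nat_lit 2199023255552000)), (.ofNat (nat_lit 5283394277483120579086425767073974339721925685673984000000)), (.ofNat (nat_lit 0)), (.ofNat (nat_lit 0)), (.ofNat (nat_lit 2199023255551968)), (.ofNat (nat_lit 2199023255552032)), (.ofNat (nat_lit 2176930750456995838007493428615577600000000)), (.ofNat (nat_lit 1507433953195101668087608799542640640000000)), (.ofNat (nat_lit 1507433953195101668087608799542640640000000)), (.ofNat (nat_lit 2176930750456995838007493428615577600000000)), (.ofNat (nat_lit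 17092735163764100486867881820160000000))⟩,
    ⟨nat_lit 2, nat_lit 11, nat_lit 8, (.ofNat (nat_lit 16)), (.ofNat (nat_lit 1388133430067200)), (.ofNat (nat_lit 3518143281152552526157249489789205813191173665193984000000)), (.ofNat (nat_lit 0)), (.ofNat (nat_lit 0)), (.ofNat (nat_lit 1388133430067168)), (.ofNat (nat_lit 1388133430067232)), (.ofNat (nat_lit 2176930750456995838007493428615577600000000)), (.ofNat (nat_lit 2198809451466613886630684317345382400000000)), (.ofNat (nat_lit 2176930750456995838007493428615577600000000)), (.ofNat (nat_lit 2198809451466613886630684317345382400000000)), (.ofNat (nat_lit 0))⟩,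
    ⟨nat_lit 0, nat_lit 8, nat_lit 9, (.ofNat (nat_lit 16)), (.ofNat (nat_lit 1429365116108800)), (.ofNat (nat_lit 3608803902120726662595056601210951441459467973033984000000)), (.ofNat (nat_lit 0)), (.ofNat (nat_lit 0)), (.ofNat (nat_lit 1429365116108768)), (.ofNat (nat_lit 1429365116108832)), (.ofNat (nat_lit 2198809451466613886630684317345382400000000)), (.ofNat (nat_lit 3846570487172427878690356709661081600000000)), (.ofNat (nat_lit 2198809451466613886630684317345382400000000)), (.ofNat (nat_lit 3846570487172427878690356709661081600000000)), (.ofNat (nat_lit 42731837909410251217169704550400000000))⟩,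
    ⟨nat_lit 0, nat_lit 9, nat_lit 10, (.ofNat (nat_lit 16)), (.ofNat (nat_lit 1649267441664000)), (.ofNat (nat_lit 4454673697661942163492015954993659292518020477353984000000)), (.ofNat (nat_lit 0)), (.negSucc (nat_lit 4698415265763585014397134712984329823191039999999999)), (.ofNat (nat_lit 1649267441663968)), (.ofNat (nat_lit 1649267441664032)), (.ofNat (nat_lit 3846570487172427878690356709661081600000000)), (.ofNat (nat_lit 1507433953195101668087608799542640640000000)), (.ofNat (nat_lit 1507433953195101668087608799542640640000000)), (.ofNat (nat_lit 3846570487172427878690356709661081600000000)), (.ofNat (nat_lit 102556410982584602921207290920960000000))⟩,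
    ⟨nat_lit 0, nat_lit 6, nat_lit 7, (.ofNat (nat_lit 128)), (.negSucc (nat_lit 213030377881599)), (.ofNat (nat_lit 15155208287727974143206556098904995574276354473984000000)), (.ofNat (nat_lit 0)), (.ofNat (nat_lit 0)), (.negSucc (nat_lit 213030377881855)), (.negSucc (nat_lit 213030377881343)), (.ofNat (nat_lit 2187870100961804862319088872980480000000000)), (.ofNat (nat_lit 0)), (.ofNat (nat_lit 0)), (.ofNat (nat_lit 2187870100961804862319088872980480000000000)), (.ofNat (nat_lit 0))⟩]
  es := [
    ⟨nat_lit 1, nat_lit 4, (.negSucc (nat_lit 549755813887999)), (.negSucc (nat_lit 274877906943999)), (.negSucc (nat_lit 549755813887967)), (.negSucc (nat_lit 274877906944031)), (.ofNat (nat_lit 1133282526827887390480314300440248320000000)), (.ofNat (nat_lit 34185470327528200973735763640320000000)), (.ofNat (nat_lit 18793661063054340057588538851937319292764160000000000))⟩,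
    ⟨nat_lit 1, nat_lit 6, (.negSucc (nat_lit 549755813887999)), (.negSucc (nat_lit 219902325555199)), (.negSucc (nat_lit 549755813887967)), (.negSucc (nat_lit 219902325555455)), (.ofNat (nat_lit 0)), (.ofNat (nat_lit 0)), (.ofNat (nat_lit 0))⟩,
    ⟨nat_lit 3, nat_lit 5, (.ofNat (nat_lit 0)), (.ofNat (nat_lit 824633720832000)), (.ofNat (nat_lit 32)), (.ofNat (nat_lit 824633720831968)), (.negSucc (nat_lit 552311284010482665528650013698162687999999)), (.negSucc (nat_lit 16522977324971963803972285759487999999)), (.ofNat (nat_lit 4228573739187226512957421241685896840871936000000000))⟩,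
    ⟨nat_lit 3, nat_lit 0, (.ofNat (nat_lit 0)), (.ofNat (nat_lit 274877906944000)), (.ofNat (nat_lit 32)), (.ofNat (nat_lit 274877906943968)), (.negSucc (nat_lit 529121000455965118261433462836690943999999)), (.negSucc (nat_lit 15383461647387690438181093638143999999)), (.ofNat (nat_lit 4228573739187226512957421241685896840871936000000000))⟩,
    ⟨nat_lit 4, nat_lit 0, (.negSucc (nat_lit 274877906943999)), (.ofNat (nat_lit 274877906944000)), (.negSucc (nat_lit 274877906943967)), (.ofNat (nat_lit 274877906943968)), (.negSucc (nat_lit 542027724778123390539067400399093759999999)), (.negSucc (nat_lit 17092735163764100486867881820159999999)), (.ofNat (nat_lit 4698415265763585014397134712984329823191040000000000))⟩,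
    ⟨nat_lit 5, nat_lit 2, (.ofNat (nat_lit 824633720832000)), (.ofNat (nat_lit 1099511627776000)), (.ofNat (nat_lit 824633720832032)), (.ofNat (nat_lit 1099511627775968)), (.ofNat (nat_lit 1133282526827887390480314300440248320000000)), (.ofNat (nat_lit 34185470327528200973735763640320000000)), (.negSucc (nat_lit 37587322126108680115177077703874638585528319999999999))⟩,
    ⟨nat_lit 6, nat_lit 11, (.negSucc (nat_lit 219902325555199)), (.negSucc (nat_lit 213030377881599)), (.negSucc (nat_lit 219902325554943)), (.negSucc (nat_lit 213030377881855)), (.ofNat (nat_lit 2187870100961804862319088872980480000000000)), (.ofNat (nat_lit 0)), (.ofNat (nat_lit 0))⟩,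
    ⟨nat_lit 11, nat_lit 2, (.negSucc (nat_lit 213030377881599)), (.ofNat (nat_lit 1099511627776000)), (.negSucc (nat_lit 213030377881343)), (.ofNat (nat_lit 1099511627775968)), (.ofNat (nat_lit 0)), (.ofNat (nat_lit 0)), (.ofNat (nat_lit 0))⟩,
    ⟨nat_lit 8, nat_lit 9, (.ofNat (nat_lit 1388133430067200)), (.ofNat (nat_lit 1429365116108800)), (.ofNat (nat_lit 1388133430067232)), (.ofNat (nat_lit 1429365116108768)), (.ofNat (nat_lit 2198809451466613886630684317345382400000000)), (.ofNat (nat_lit 0)), (.ofNat (nat_lit 0))⟩,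
    ⟨nat_lit 9, nat_lit 10, (.ofNat (nat_lit 1429365116108800)), (.ofNat (nat_lit 1649267441664000)), (.ofNat (nat_lit 1429365116108832)), (.ofNat (nat_lit 1649267441663968)), (.ofNat (nat_lit 3846570487172427878690356709661081600000000)), (.negSucc (nat_lit 21365918954705125608584852275199999999)), (.ofNat (nat_lit 30539699227463302593581375634398143850741760000000000))⟩,
    ⟨nat_lit 10, nat_lit 7, (.ofNat (nat_lit 1649267441664000)), (.ofNat (nat_lit 2199023255552000)), (.ofNat (nat_lit 1649267441664032)), (.ofNat (nat_lit 2199023255551968)), (.ofNat (nat_lit 1507433953195101668087608799542640640000000)), (.ofNat (nat_lit 8546367581882050243433940910080000000)), (.negSucc (nat_lit 18793661063054340057588538851937319292764159999999999))⟩,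
    ⟨nat_lit 8, nat_lit 7, (.ofNat (nat_lit 1388133430067200)), (.ofNat (nat_lit 2199023255552000)), (.ofNat (nat_lit 1388133430067232)), (.ofNat (nat_lit 2199023255551968)), (.ofNat (nat_lit 2176930750456995838007493428615577600000000)), (.ofNat (nat_lit 0)), (.ofNat (nat_lit 0))⟩]

theorem ok241 : stOK 11 11 S241 = true := by decide +kernel

def S242 : SD where
  vs := [
    ⟨nat_lit 1, nat_lit 3, nat_lit 4, (.ofNat (nat_lit 16)), (.ofNat (nat_lit 274877906944000)), (.ofNat (nat_lit 13651715402683626938599472990750010030855221673984000000)), (.ofNat (nat_lit 0)), (.ofNat (nat_lit 0)), (.ofNat (nat_lit 274877906943968)), (.ofNat (nat_lit 274877906944032)), (.negSucc (nat_lit 529136383917612505951871643930329087999999)), (.negSucc (nat_lit 542044817513287154639554268280913919999999)), (.negSucc (nat_lit 542044817513287154639554268280913919999999)), (.negSucc (nat_lit 529136383917612505951871643930329087999999)), (.ofNat (nat_lit 34185470327528200973735763640320000000))⟩,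
    ⟨nat_lit 2, nat_lit 0, nat_lit 1, (.ofNat (nat_lit 16)), (.negSucc (nat_lit 549755813887999)), (.ofNat (nat_lit 120279437284502097135725017355140140065026473984000000)), (.ofNat (nat_lit 0)), (.ofNat (nat_lit 0)), (.negSucc (nat_lit 549755813888031)), (.negSucc (nat_lit 549755813887967)), (.ofNat (nat_lit 1133316712298214918681288036203888640000000)), (.ofNat (nat_lit 0)), (.ofNat (nat_lit 0)), (.ofNat (nat_lit 1133316712298214918681288036203888640000000)), (.ofNat (nat_lit 136741881310112803894943054561280000000))⟩,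
    ⟨nat_lit 1, nat_lit 5, nat_lit 7, (.ofNat (nat_lit 16)), (.ofNat (nat_lit 1099511627776000)), (.ofNat (nat_lit 15155208287727974143206556098904995574276354473984000000)), (.ofNat (nat_lit 0)), (.ofNat (nat_lit 0)), (.ofNat (nat_lit 1099511627775968)), (.ofNat (nat_lit 1099511627776032)), (.ofNat (nat_lit 1133316712298214918681288036203888640000000)), (.ofNat (nat_lit 0)), (.ofNat (nat_lit 0)), (.ofNat (nat_lit 1133316712298214918681288036203888640000000)), (.ofNat (nat_lit 136741881310112803894943054561280000000))⟩,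
    ⟨nat_lit 2, nat_lit 3, nat_lit 2, (.ofNat (nat_lit 16)), (.ofNat (nat_lit 0)), (.ofNat (nat_lit 159099617101873775512288692873663311501415608745984000000)), (.ofNat (nat_lit 0)), (.ofNat (nat_lit 4228573739187226512957421241685896840871936000000000)), (.negSucc (nat_lit 31)), (.ofNat (nat_lit 32)), (.negSucc (nat_lit 529136383917612505951871643930329087999999)), (.negSucc (nat_lit 552327806987807637492453985983922175999999)), (.negSucc (nat_lit 552327806987807637492453985983922175999999)), (.negSucc (nat_lit 529136383917612505951871643930329087999999)), (.ofNat (nat_lit 33045954649943927607944571518976000000))⟩,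
    ⟨nat_lit 0, nat_lit 0, nat_lit 4, (.ofNat (nat_lit 16)), (.negSucc (nat_lit 274877906943999)), (.ofNat (nat_lit 311644005218473242891723345027068144736923742633984000000)), (.ofNat (nat_lit 0)), (.ofNat (nat_lit 9396830531527170028794269425968659646382080000000000)), (.negSucc (nat_lit 274877906944031)), (.negSucc (nat_lit 274877906943967)), (.ofNat (nat_lit 1133316712298214918681288036203888640000000)), (.negSucc (nat_lit 542044817513287154639554268280913919999999)), (.negSucc (nat_lit 542044817513287154639554268280913919999999)), (.ofNat (nat_lit 1133316712298214918681288036203888640000000)), (.ofNat (nat_lit 170927351637641004868678818201600000000))⟩,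
    ⟨nat_lit 0, nat_lit 2, nat_lit 5, (.ofNat (nat_lit 16)), (.ofNat (nat_lit 824633720832000)), (.negSucc (nat_lit 296368517493460766651381063910808009022582361686015999999)), (.ofNat (nat_lit 0)), (.negSucc (nat_lit 9396830531527170028794269425968659646382079999999999)), (.ofNat (nat_lit 824633720831968)), (.ofNat (nat_lit 824633720832032)), (.negSucc (nat_lit 552327806987807637492453985983922175999999)), (.ofNat (nat_lit 1133316712298214918681288036203888640000000)), (.negSucc (nat_lit 552327806987807637492453985983922175999999)), (.ofNat (nat_lit 1133316712298214918681288036203888640000000)), (.ofNat (nat_lit 134462849954944257163360670318592000000))⟩,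
    ⟨nat_lit 0, nat_lit 1, nat_lit 6, (.ofNat (nat_lit 128)), (.negSucc (nat_lit 219902325555199)), (.ofNat (nat_lit 120279437284502097135725017355140140065026473984000000)), (.ofNat (nat_lit 0)), (.ofNat (nat_lit 0)), (.negSucc (nat_lit 219902325555455)), (.negSucc (nat_lit 219902325554943)), (.ofNat (nat_lit 0)), (.ofNat (nat_lit 2187870100961804862319088872980480000000000)), (.ofNat (nat_lit 0)), (.ofNat (nat_lit 2187870100961804862319088872980480000000000)), (.ofNat (nat_lit 0))⟩,
    ⟨nat_lit 1, nat_lit 11, nat_lit 10, (.ofNat (nat_lit 16)), (.ofNat (nat_lit 2199023255552000)), (.ofNat (nat_lit 5283394277483120579086425767073974339721925685673984000000)), (.ofNat (nat_lit 0)), (.ofNat (nat_lit 0)), (.ofNat (nat_lit 2199023255551968)), (.ofNat (nat_lit 2199023255552032)), (.ofNat (nat_lit 2176930750456995838007493428615577600000000)), (.ofNat (nat_lit 1507442499562683550137852233483550720000000)), (.ofNat (nat_lit 1507442499562683550137852233483550720000000)), (.ofNat (nat_lit 2176930750456995838007493428615577600000000)), (.ofNat (nat_lit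 17092735163764100486867881820160000000))⟩,
    ⟨nat_lit 2, nat_lit 11, nat_lit 8, (.ofNat (nat_lit 16)), (.ofNat (nat_lit 1388133430067200)), (.ofNat (nat_lit 3518143281152552526157249489789205813191173665193984000000)), (.ofNat (nat_lit 0)), (.ofNat (nat_lit 0)), (.ofNat (nat_lit 1388133430067168)), (.ofNat (nat_lit 1388133430067232)), (.ofNat (nat_lit 2176930750456995838007493428615577600000000)), (.ofNat (nat_lit 2198809451466613886630684317345382400000000)), (.ofNat (nat_lit 2176930750456995838007493428615577600000000)), (.ofNat (nat_lit 2198809451466613886630684317345382400000000)), (.ofNat (nat_lit 0))⟩,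
    ⟨nat_lit 0, nat_lit 8, nat_lit 9, (.ofNat (nat_lit 16)), (.ofNat (nat_lit 1429365116108800)), (.ofNat (nat_lit 3608803902120726662595056601210951441459467973033984000000)), (.ofNat (nat_lit 0)), (.ofNat (nat_lit 0)), (.ofNat (nat_lit 1429365116108768)), (.ofNat (nat_lit 1429365116108832)), (.ofNat (nat_lit 2198809451466613886630684317345382400000000)), (.ofNat (nat_lit 3846549121253473173564748124808806400000000)), (.ofNat (nat_lit 2198809451466613886630684317345382400000000)), (.ofNat (nat_lit 3846549121253473173564748124808806400000000)), (.ofNat (nat_lit 42731837909410251217169704550400000000))⟩,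
    ⟨nat_lit 0, nat_lit 9, nat_lit 10, (.ofNat (nat_lit 16)), (.ofNat (nat_lit 1649267441664000)), (.ofNat (nat_lit 4454668999246676399907001557858946308188197286313984000000)), (.ofNat (nat_lit 0)), (.negSucc (nat_lit 4698415265763585014397134712984329823191039999999999)), (.ofNat (nat_lit 1649267441663968)), (.ofNat (nat_lit 1649267441664032)), (.ofNat (nat_lit 3846549121253473173564748124808806400000000)), (.ofNat (nat_lit 1507442499562683550137852233483550720000000)), (.ofNat (nat_lit 1507442499562683550137852233483550720000000)), (.ofNat (nat_lit 3846549121253473173564748124808806400000000)), (.ofNat (nat_lit 102556410982584602921207290920960000000))⟩,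
    ⟨nat_lit 0, nat_lit 6, nat_lit 7, (.ofNat (nat_lit 128)), (.negSucc (nat_lit 213030377881599)), (.ofNat (nat_lit 15155208287727974143206556098904995574276354473984000000)), (.ofNat (nat_lit 0)), (.ofNat (nat_lit 0)), (.negSucc (nat_lit 213030377881855)), (.negSucc (nat_lit 213030377881343)), (.ofNat (nat_lit 2187870100961804862319088872980480000000000)), (.ofNat (nat_lit 0)), (.ofNat (nat_lit 0)), (.ofNat (nat_lit 2187870100961804862319088872980480000000000)), (.ofNat (nat_lit 0))⟩]
  es := [
    ⟨nat_lit 1, nat_lit 4, (.negSucc (nat_lit 549755813887999)), (.negSucc (nat_lit 274877906943999)), (.negSucc (nat_lit 549755813887967)), (.negSucc (nat_lit 274877906944031)), (.ofNat (nat_lit 1133316712298214918681288036203888640000000)), (.ofNat (nat_lit 34185470327528200973735763640320000000)), (.ofNat (nat_lit 18793661063054340057588538851937319292764160000000000))⟩,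
    ⟨nat_lit 1, nat_lit 6, (.negSucc (nat_lit 549755813887999)), (.negSucc (nat_lit 219902325555199)), (.negSucc (nat_lit 549755813887967)), (.negSucc (nat_lit 219902325555455)), (.ofNat (nat_lit 0)), (.ofNat (nat_lit 0)), (.ofNat (nat_lit 0))⟩,
    ⟨nat_lit 3, nat_lit 5, (.ofNat (nat_lit 0)), (.ofNat (nat_lit 824633720832000)), (.ofNat (nat_lit 32)), (.ofNat (nat_lit 824633720831968)), (.negSucc (nat_lit 552327806987807637492453985983922175999999)), (.negSucc (nat_lit 16522977324971963803972285759487999999)), (.ofNat (nat_lit 4228573739187226512957421241685896840871936000000000))⟩,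
    ⟨nat_lit 3, nat_lit 0, (.ofNat (nat_lit 0)), (.ofNat (nat_lit 274877906944000)), (.ofNat (nat_lit 32)), (.ofNat (nat_lit 274877906943968)), (.negSucc (nat_lit 529136383917612505951871643930329087999999)), (.negSucc (nat_lit 15383461647387690438181093638143999999)), (.ofNat (nat_lit 4228573739187226512957421241685896840871936000000000))⟩,
    ⟨nat_lit 4, nat_lit 0, (.negSucc (nat_lit 274877906943999)), (.ofNat (nat_lit 274877906944000)), (.negSucc (nat_lit 274877906943967)), (.ofNat (nat_lit 274877906943968)), (.negSucc (nat_lit 542044817513287154639554268280913919999999)), (.negSucc (nat_lit 17092735163764100486867881820159999999)), (.ofNat (nat_lit 4698415265763585014397134712984329823191040000000000))⟩,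
    ⟨nat_lit 5, nat_lit 2, (.ofNat (nat_lit 824633720832000)), (.ofNat (nat_lit 1099511627776000)), (.ofNat (nat_lit 824633720832032)), (.ofNat (nat_lit 1099511627775968)), (.ofNat (nat_lit 1133316712298214918681288036203888640000000)), (.ofNat (nat_lit 34185470327528200973735763640320000000)), (.negSucc (nat_lit 37587322126108680115177077703874638585528319999999999))⟩,
    ⟨nat_lit 6, nat_lit 11, (.negSucc (nat_lit 219902325555199)), (.negSucc (nat_lit 213030377881599)), (.negSucc (nat_lit 219902325554943)), (.negSucc (nat_lit 213030377881855)), (.ofNat (nat_lit 2187870100961804862319088872980480000000000)), (.ofNat (nat_lit 0)), (.ofNat (nat_lit 0))⟩,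
    ⟨nat_lit 11, nat_lit 2, (.negSucc (nat_lit 213030377881599)), (.ofNat (nat_lit 1099511627776000)), (.negSucc (nat_lit 213030377881343)), (.ofNat (nat_lit 1099511627775968)), (.ofNat (nat_lit 0)), (.ofNat (nat_lit 0)), (.ofNat (nat_lit 0))⟩,
    ⟨nat_lit 8, nat_lit 9, (.ofNat (nat_lit 1388133430067200)), (.ofNat (nat_lit 1429365116108800)), (.ofNat (nat_lit 1388133430067232)), (.ofNat (nat_lit 1429365116108768)), (.ofNat (nat_lit 2198809451466613886630684317345382400000000)), (.ofNat (nat_lit 0)), (.ofNat (nat_lit 0))⟩,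
    ⟨nat_lit 9, nat_lit 10, (.ofNat (nat_lit 1429365116108800)), (.ofNat (nat_lit 1649267441664000)), (.ofNat (nat_lit 1429365116108832)), (.ofNat (nat_lit 1649267441663968)), (.ofNat (nat_lit 3846549121253473173564748124808806400000000)), (.negSucc (nat_lit 21365918954705125608584852275199999999)), (.ofNat (nat_lit 30539699227463302593581375634398143850741760000000000))⟩,
    ⟨nat_lit 10, nat_lit 7, (.ofNat (nat_lit 1649267441664000)), (.ofNat (nat_lit 2199023255552000)), (.ofNat (nat_lit 1649267441664032)), (.ofNat (nat_lit 2199023255551968)), (.ofNat (nat_lit 1507442499562683550137852233483550720000000)), (.ofNat (nat_lit 8546367581882050243433940910080000000)), (.negSucc (nat_lit 18793661063054340057588538851937319292764159999999999))⟩,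
    ⟨nat_lit 8, nat_lit 7, (.ofNat (nat_lit 1388133430067200)), (.ofNat (nat_lit 2199023255552000)), (.ofNat (nat_lit 1388133430067232)), (.ofNat (nat_lit 2199023255551968)), (.ofNat (nat_lit 2176930750456995838007493428615577600000000)), (.ofNat (nat_lit 0)), (.ofNat (nat_lit 0))⟩]

theorem ok242 : stOK 11 11 S242 = true := by decide +kernel

def S243 : SD where
  vs := [
    ⟨nat_lit 1, nat_lit 3, nat_lit 4, (.ofNat (nat_lit 16)), (.ofNat (nat_lit 274877906944000)), (.ofNat (nat_lit 6134250977461890915564057449975082313749557673984000000)), (.ofNat (nat_lit 0)), (.negSucc (nat_lit 117460381644089625359928367824608245579775999999999999)), (.ofNat (nat_lit 274877906943968)), (.ofNat (nat_lit 274877906944032)), (.negSucc (nat_lit 543795113594056598529409539379298303999999)), (.negSucc (nat_lit 556812940694779337460208118173532159999999)), (.negSucc (nat_lit 556812940694779337460208118173532159999999)), (.negSucc (nat_lit 543795113594056598529409539379298303999999)), (.ofNat (nat_lit 461503849421630713145432809144320000000))⟩,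
    ⟨nat_lit 2, nat_lit 0, nat_lit 1, (.ofNat (nat_lit 16)), (.negSucc (nat_lit 549755813887999)), (.ofNat (nat_lit 120279437284502097135725017355140140065026473984000000)), (.ofNat (nat_lit 0)), (.ofNat (nat_lit 0)), (.negSucc (nat_lit 549755813888031)), (.negSucc (nat_lit 549755813887967)), (.ofNat (nat_lit 1135504582399176723543607125076869120000000)), (.ofNat (nat_lit 0)), (.ofNat (nat_lit 0)), (.ofNat (nat_lit 1135504582399176723543607125076869120000000)), (.ofNat (nat_lit 136741881310112803894943054561280000000))⟩,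
    ⟨nat_lit 1, nat_lit 5, nat_lit 7, (.ofNat (nat_lit 16)), (.ofNat (nat_lit 1099511627776000)), (.ofNat (nat_lit 120279437284502097135725017355140140065026473984000000)), (.ofNat (nat_lit 0)), (.negSucc (nat_lit 234920763288179250719856735649216491159551999999999999)), (.ofNat (nat_lit 1099511627775968)), (.ofNat (nat_lit 1099511627776032)), (.ofNat (nat_lit 1135504582399176723543607125076869120000000)), (.ofNat (nat_lit 0)), (.ofNat (nat_lit 0)), (.ofNat (nat_lit 1135504582399176723543607125076869120000000)), (.ofNat (nat_lit 136741881310112803894943054561280000000))⟩,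
    ⟨nat_lit 2, nat_lit 3, nat_lit 2, (.ofNat (nat_lit 16)), (.ofNat (nat_lit 0)), (.ofNat (nat_lit 155611513608570889997600260062743745040678580649984000000)), (.ofNat (nat_lit 0)), (.negSucc (nat_lit 54501617082857586167006762670618225949016063999999999)), (.negSucc (nat_lit 31)), (.ofNat (nat_lit 32)), (.negSucc (nat_lit 543795113594056598529409539379298303999999)), (.negSucc (nat_lit 567059465667617123565402517728657407999999)), (.negSucc (nat_lit 567059465667617123565402517728657407999999)), (.negSucc (nat_lit 543795113594056598529409539379298303999999)), (.ofNat (nat_lit 460364333744046439779641617022976000000))⟩,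
    ⟨nat_lit 0, nat_lit 0, nat_lit 4, (.ofNat (nat_lit 16)), (.negSucc (nat_lit 274877906943999)), (.ofNat (nat_lit 312245402372490981773566178270330138954292195753984000000)), (.ofNat (nat_lit 0)), (.ofNat (nat_lit 9396830531527170028794269425968659646382080000000000)), (.negSucc (nat_lit 274877906944031)), (.negSucc (nat_lit 274877906943967)), (.ofNat (nat_lit 1135504582399176723543607125076869120000000)), (.negSucc (nat_lit 556812940694779337460208118173532159999999)), (.negSucc (nat_lit 556812940694779337460208118173532159999999)), (.ofNat (nat_lit 1135504582399176723543607125076869120000000)), (.ofNat (nat_lit 598245730731743517040375863705600000000))⟩,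
    ⟨nat_lit 0, nat_lit 2, nat_lit 5, (.ofNat (nat_lit 16)), (.ofNat (nat_lit 824633720832000)), (.negSucc (nat_lit 312004843497921977579294728235619858674162142806015999999)), (.ofNat (nat_lit 0)), (.negSucc (nat_lit 244317593819706420748651005075185150805934079999999999)), (.ofNat (nat_lit 824633720831968)), (.ofNat (nat_lit 824633720832032)), (.negSucc (nat_lit 567059465667617123565402517728657407999999)), (.ofNat (nat_lit 1135504582399176723543607125076869120000000)), (.negSucc (nat_lit 567059465667617123565402517728657407999999)), (.ofNat (nat_lit 1135504582399176723543607125076869120000000)), (.ofNat (nat_lit 989099608143149281506754761326592000000))⟩,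
    ⟨nat_lit 0, nat_lit 1, nat_lit 6, (.ofNat (nat_lit 128)), (.negSucc (nat_lit 219902325555199)), (.ofNat (nat_lit 120279437284502097135725017355140140065026473984000000)), (.ofNat (nat_lit 0)), (.ofNat (nat_lit 0)), (.negSucc (nat_lit 219902325555455)), (.negSucc (nat_lit 219902325554943)), (.ofNat (nat_lit 0)), (.ofNat (nat_lit 0)), (.ofNat (nat_lit 0)), (.ofNat (nat_lit 0)), (.ofNat (nat_lit 68370940655056401947471527280640000000000))⟩,
    ⟨nat_lit 1, nat_lit 11, nat_lit 10, (.ofNat (nat_lit 16)), (.ofNat (nat_lit 2199023255552000)), (.ofNat (nat_lit 5283394277483120579086425767073974339721925685673984000000)), (.ofNat (nat_lit 0)), (.ofNat (nat_lit 0)), (.ofNat (nat_lit 2199023255551968)), (.ofNat (nat_lit 2199023255552032)), (.ofNat (nat_lit 2176930750456995838007493428615577600000000)), (.ofNat (nat_lit 1507989467087924001353432005701795840000000)), (.ofNat (nat_lit 1507989467087924001353432005701795840000000)), (.ofNat (nat_lit 2176930750456995838007493428615577600000000)), (.ofNat (nat_lit 17092735163764100486867881820160000000))⟩,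
    ⟨nat_lit 2, nat_lit 11, nat_lit 8, (.ofNat (nat_lit 16)), (.ofNat (nat_lit 1388133430067200)), (.ofNat (nat_lit 3518143281152552526157249489789205813191173665193984000000)), (.ofNat (nat_lit 0)), (.ofNat (nat_lit 0)), (.ofNat (nat_lit 1388133430067168)), (.ofNat (nat_lit 1388133430067232)), (.ofNat (nat_lit 2176930750456995838007493428615577600000000)), (.ofNat (nat_lit 2198809451466613886630684317345382400000000)), (.ofNat (nat_lit 2176930750456995838007493428615577600000000)), (.ofNat (nat_lit 2198809451466613886630684317345382400000000)), (.ofNat (nat_lit 0))⟩,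
    ⟨nat_lit 0, nat_lit 8, nat_lit 9, (.ofNat (nat_lit 16)), (.ofNat (nat_lit 1429365116108800)), (.ofNat (nat_lit 3608803902120726662595056601210951441459467973033984000000)), (.ofNat (nat_lit 0)), (.ofNat (nat_lit 0)), (.ofNat (nat_lit 1429365116108768)), (.ofNat (nat_lit 1429365116108832)), (.ofNat (nat_lit 2198809451466613886630684317345382400000000)), (.ofNat (nat_lit 3845181702440372045525798694263193600000000)), (.ofNat (nat_lit 2198809451466613886630684317345382400000000)), (.ofNat (nat_lit 3845181702440372045525798694263193600000000)), (.ofNat (nat_lit 42731837909410251217169704550400000000))⟩,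
    ⟨nat_lit 0, nat_lit 9, nat_lit 10, (.ofNat (nat_lit 16)), (.ofNat (nat_lit 1649267441664000)), (.ofNat (nat_lit 4454368300669667530466080141237315311079513059753984000000)), (.ofNat (nat_lit 0)), (.negSucc (nat_lit 4698415265763585014397134712984329823191039999999999)), (.ofNat (nat_lit 1649267441663968)), (.ofNat (nat_lit 1649267441664032)), (.ofNat (nat_lit 3845181702440372045525798694263193600000000)), (.ofNat (nat_lit 1507989467087924001353432005701795840000000)), (.ofNat (nat_lit 1507989467087924001353432005701795840000000)), (.ofNat (nat_lit 3845181702440372045525798694263193600000000)), (.ofNat (nat_lit 102556410982584602921207290920960000000))⟩,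
    ⟨nat_lit 0, nat_lit 6, nat_lit 7, (.ofNat (nat_lit 128)), (.negSucc (nat_lit 213030377881599)), (.ofNat (nat_lit 120279437284502097135725017355140140065026473984000000)), (.ofNat (nat_lit 0)), (.negSucc (nat_lit 234920763288179250719856735649216491159551999999999999)), (.negSucc (nat_lit 213030377881855)), (.negSucc (nat_lit 213030377881343)), (.ofNat (nat_lit 0)), (.ofNat (nat_lit 0)), (.ofNat (nat_lit 0)), (.ofNat (nat_lit 0)), (.ofNat (nat_lit 136741881310112803894943054561280000000000))⟩]
  es := [
    ⟨nat_lit 1, nat_lit 4, (.negSucc (nat_lit 549755813887999)), (.negSucc (nat_lit 274877906943999)), (.negSucc (nat_lit 549755813887967)), (.negSucc (nat_lit 274877906944031)), (.ofNat (nat_lit 1135504582399176723543607125076869120000000)), (.ofNat (nat_lit 34185470327528200973735763640320000000)), (.ofNat (nat_lit 18793661063054340057588538851937319292764160000000000))⟩,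
    ⟨nat_lit 1, nat_lit 6, (.negSucc (nat_lit 549755813887999)), (.negSucc (nat_lit 219902325555199)), (.negSucc (nat_lit 549755813887967)), (.negSucc (nat_lit 219902325555455)), (.ofNat (nat_lit 0)), (.ofNat (nat_lit 0)), (.ofNat (nat_lit 0))⟩,
    ⟨nat_lit 3, nat_lit 5, (.ofNat (nat_lit 0)), (.ofNat (nat_lit 824633720832000)), (.ofNat (nat_lit 32)), (.ofNat (nat_lit 824633720831968)), (.negSucc (nat_lit 567059465667617123565402517728657407999999)), (.negSucc (nat_lit 230182166872023219889820808511487999999)), (.negSucc (nat_lit 54501617082857586167006762670618225949016063999999999))⟩,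
    ⟨nat_lit 3, nat_lit 0, (.ofNat (nat_lit 0)), (.ofNat (nat_lit 274877906944000)), (.ofNat (nat_lit 32)), (.ofNat (nat_lit 274877906943968)), (.negSucc (nat_lit 543795113594056598529409539379298303999999)), (.negSucc (nat_lit 229042651194438946524029616390143999999)), (.negSucc (nat_lit 54501617082857586167006762670618225949016063999999999))⟩,
    ⟨nat_lit 4, nat_lit 0, (.negSucc (nat_lit 274877906943999)), (.ofNat (nat_lit 274877906944000)), (.negSucc (nat_lit 274877906943967)), (.ofNat (nat_lit 274877906943968)), (.negSucc (nat_lit 556812940694779337460208118173532159999999)), (.negSucc (nat_lit 230751924710815356572716404572159999999)), (.negSucc (nat_lit 54031775556281227665567049199319792966696959999999999))⟩,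
    ⟨nat_lit 5, nat_lit 2, (.ofNat (nat_lit 824633720832000)), (.ofNat (nat_lit 1099511627776000)), (.ofNat (nat_lit 824633720832032)), (.ofNat (nat_lit 1099511627775968)), (.ofNat (nat_lit 1135504582399176723543607125076869120000000)), (.ofNat (nat_lit 34185470327528200973735763640320000000)), (.negSucc (nat_lit 272508085414287930835033813353091129745080319999999999))⟩,
    ⟨nat_lit 6, nat_lit 11, (.negSucc (nat_lit 219902325555199)), (.negSucc (nat_lit 213030377881599)), (.negSucc (nat_lit 219902325554943)), (.negSucc (nat_lit 213030377881855)), (.ofNat (nat_lit 0)), (.negSucc (nat_lit 34185470327528200973735763640319999999999)), (.negSucc (nat_lit 7517464425221736023035415540774927717105663999999999999))⟩,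
    ⟨nat_lit 11, nat_lit 2, (.negSucc (nat_lit 213030377881599)), (.ofNat (nat_lit 1099511627776000)), (.negSucc (nat_lit 213030377881343)), (.ofNat (nat_lit 1099511627775968)), (.ofNat (nat_lit 0)), (.ofNat (nat_lit 0)), (.negSucc (nat_lit 234920763288179250719856735649216491159551999999999999))⟩,
    ⟨nat_lit 8, nat_lit 9, (.ofNat (nat_lit 1388133430067200)), (.ofNat (nat_lit 1429365116108800)), (.ofNat (nat_lit 1388133430067232)), (.ofNat (nat_lit 1429365116108768)), (.ofNat (nat_lit 2198809451466613886630684317345382400000000)), (.ofNat (nat_lit 0)), (.ofNat (nat_lit 0))⟩,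
    ⟨nat_lit 9, nat_lit 10, (.ofNat (nat_lit 1429365116108800)), (.ofNat (nat_lit 1649267441664000)), (.ofNat (nat_lit 1429365116108832)), (.ofNat (nat_lit 1649267441663968)), (.ofNat (nat_lit 3845181702440372045525798694263193600000000)), (.negSucc (nat_lit 21365918954705125608584852275199999999)), (.ofNat (nat_lit 30539699227463302593581375634398143850741760000000000))⟩,
    ⟨nat_lit 10, nat_lit 7, (.ofNat (nat_lit 1649267441664000)), (.ofNat (nat_lit 2199023255552000)), (.ofNat (nat_lit 1649267441664032)), (.ofNat (nat_lit 2199023255551968)), (.ofNat (nat_lit 1507989467087924001353432005701795840000000)), (.ofNat (nat_lit 8546367581882050243433940910080000000)), (.negSucc (nat_lit 18793661063054340057588538851937319292764159999999999))⟩,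
    ⟨nat_lit 8, nat_lit 7, (.ofNat (nat_lit 1388133430067200)), (.ofNat (nat_lit 2199023255552000)), (.ofNat (nat_lit 1388133430067232)), (.ofNat (nat_lit 2199023255551968)), (.ofNat (nat_lit 2176930750456995838007493428615577600000000)), (.ofNat (nat_lit 0)), (.ofNat (nat_lit 0))⟩]

theorem ok243 : stOK 11 11 S243 = true := by decide +kernel

def S244 : SD where
  vs := [
    ⟨nat_lit 1, nat_lit 3, nat_lit 4, (.ofNat (nat_lit 16)), (.ofNat (nat_lit 274877906944000)), (.ofNat (nat_lit 6134250977461890915564057449975082313749557673984000000)), (.ofNat (nat_lit 0)), (.ofNat (nat_lit 0)), (.ofNat (nat_lit 274877906943968)), (.ofNat (nat_lit 274877906944032)), (.negSucc (nat_lit 544287384366773004623431334375718911999999)), (.negSucc (nat_lit 557359908220019788675787890391777279999999)), (.negSucc (nat_lit 557359908220019788675787890391777279999999)), (.negSucc (nat_lit 544287384366773004623431334375718911999999)), (.ofNat (nat_lit 34185470327528200973735763640320000000))⟩,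
    ⟨nat_lit 2, nat_lit 0, nat_lit 1, (.ofNat (nat_lit 16)), (.negSucc (nat_lit 549755813887999)), (.ofNat (nat_lit 120279437284502097135725017355140140065026473984000000)), (.ofNat (nat_lit 0)), (.ofNat (nat_lit 0)), (.negSucc (nat_lit 549755813888031)), (.negSucc (nat_lit 549755813887967)), (.ofNat (nat_lit 1136598517449657625974766669513359360000000)), (.ofNat (nat_lit 0)), (.ofNat (nat_lit 0)), (.ofNat (nat_lit 1136598517449657625974766669513359360000000)), (.ofNat (nat_lit 136741881310112803894943054561280000000))⟩,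
    ⟨nat_lit 1, nat_lit 5, nat_lit 7, (.ofNat (nat_lit 16)), (.ofNat (nat_lit 1099511627776000)), (.ofNat (nat_lit 120279437284502097135725017355140140065026473984000000)), (.ofNat (nat_lit 0)), (.ofNat (nat_lit 0)), (.ofNat (nat_lit 1099511627775968)), (.ofNat (nat_lit 1099511627776032)), (.ofNat (nat_lit 1136598517449657625974766669513359360000000)), (.ofNat (nat_lit 0)), (.ofNat (nat_lit 0)), (.ofNat (nat_lit 1136598517449657625974766669513359360000000)), (.ofNat (nat_lit 136741881310112803894943054561280000000))⟩,
    ⟨nat_lit 2, nat_lit 3, nat_lit 2, (.ofNat (nat_lit 16)), (.ofNat (nat_lit 0)), (.ofNat (nat_lit 155746827968224881246014897542477693739586482601984000000)), (.ofNat (nat_lit 0)), (.ofNat (nat_lit 4228573739187226512957421241685896840871936000000000)), (.negSucc (nat_lit 31)), (.ofNat (nat_lit 32)), (.negSucc (nat_lit 544287384366773004623431334375718911999999)), (.negSucc (nat_lit 567588200942016226407129630872961023999999)), (.negSucc (nat_lit 567588200942016226407129630872961023999999)), (.negSucc (nat_lit 544287384366773004623431334375718911999999)),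 (.ofNat (nat_lit 33045954649943927607944571518976000000))⟩,
    ⟨nat_lit 0, nat_lit 0, nat_lit 4, (.ofNat (nat_lit 16)), (.negSucc (nat_lit 274877906943999)), (.ofNat (nat_lit 312546100949499851214487594891961136062976422313984000000)), (.ofNat (nat_lit 0)), (.ofNat (nat_lit 9396830531527170028794269425968659646382080000000000)), (.negSucc (nat_lit 274877906944031)), (.negSucc (nat_lit 274877906943967)), (.ofNat (nat_lit 1136598517449657625974766669513359360000000)), (.negSucc (nat_lit 557359908220019788675787890391777279999999)), (.negSucc (nat_lit 557359908220019788675787890391777279999999)), (.ofNat (nat_lit 1136598517449657625974766669513359360000000)), (.ofNat (nat_lit 170927351637641004868678818201600000000))⟩,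
    ⟨nat_lit 0, nat_lit 2, nat_lit 5, (.ofNat (nat_lit 16)), (.ofNat (nat_lit 824633720832000)), (.negSucc (nat_lit 312305542074930847020216144857250855782846369366015999999)), (.ofNat (nat_lit 0)), (.negSucc (nat_lit 9396830531527170028794269425968659646382079999999999)), (.ofNat (nat_lit 824633720831968)), (.ofNat (nat_lit 824633720832032)), (.negSucc (nat_lit 567588200942016226407129630872961023999999)), (.ofNat (nat_lit 1136598517449657625974766669513359360000000)), (.negSucc (nat_lit 567588200942016226407129630872961023999999)), (.ofNat (nat_lit 1136598517449657625974766669513359360000000)), (.ofNat (nat_lit 134462849954944257163360670318592000000))⟩,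
    ⟨nat_lit 0, nat_lit 1, nat_lit 6, (.ofNat (nat_lit 128)), (.negSucc (nat_lit 219902325555199)), (.ofNat (nat_lit 120279437284502097135725017355140140065026473984000000)), (.ofNat (nat_lit 0)), (.ofNat (nat_lit 0)), (.negSucc (nat_lit 219902325555455)), (.negSucc (nat_lit 219902325554943)), (.ofNat (nat_lit 0)), (.ofNat (nat_lit 0)), (.ofNat (nat_lit 0)), (.ofNat (nat_lit 0)), (.ofNat (nat_lit 0))⟩,
    ⟨nat_lit 1, nat_lit 11, nat_lit 10, (.ofNat (nat_lit 16)), (.ofNat (nat_lit 2199023255552000)), (.ofNat (nat_lit 5283394277483120579086425767073974339721925685673984000000)), (.ofNat (nat_lit 0)), (.ofNat (nat_lit 0)), (.ofNat (nat_lit 2199023255551968)), (.ofNat (nat_lit 2199023255552032)), (.ofNat (nat_lit 2176930750456995838007493428615577600000000)), (.ofNat (nat_lit 1508262950850544226961221891810918400000000)), (.ofNat (nat_lit 1508262950850544226961221891810918400000000)), (.ofNat (nat_lit 2176930750456995838007493428615577600000000)), (.ofNat (nat_lit 17092735163764100486867881820160000000))⟩,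
    ⟨nat_lit 2, nat_lit 11, nat_lit 8, (.ofNat (nat_lit 16)), (.ofNat (nat_lit 1388133430067200)), (.ofNat (nat_lit 3518143281152552526157249489789205813191173665193984000000)), (.ofNat (nat_lit 0)), (.ofNat (nat_lit 0)), (.ofNat (nat_lit 1388133430067168)), (.ofNat (nat_lit 1388133430067232)), (.ofNat (nat_lit 2176930750456995838007493428615577600000000)), (.ofNat (nat_lit 2198809451466613886630684317345382400000000)), (.ofNat (nat_lit 2176930750456995838007493428615577600000000)), (.ofNat (nat_lit 2198809451466613886630684317345382400000000)), (.ofNat (nat_lit 0))⟩,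
    ⟨nat_lit 0, nat_lit 8, nat_lit 9, (.ofNat (nat_lit 16)), (.ofNat (nat_lit 1429365116108800)), (.ofNat (nat_lit 3608803902120726662595056601210951441459467973033984000000)), (.ofNat (nat_lit 0)), (.ofNat (nat_lit 0)), (.ofNat (nat_lit 1429365116108768)), (.ofNat (nat_lit 1429365116108832)), (.ofNat (nat_lit 2198809451466613886630684317345382400000000)), (.ofNat (nat_lit 3844497993033821481506323978990387200000000)), (.ofNat (nat_lit 2198809451466613886630684317345382400000000)), (.ofNat (nat_lit 3844497993033821481506323978990387200000000)), (.ofNat (nat_lit 42731837909410251217169704550400000000))⟩,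
    ⟨nat_lit 0, nat_lit 9, nat_lit 10, (.ofNat (nat_lit 16)), (.ofNat (nat_lit 1649267441664000)), (.ofNat (nat_lit 4454217951381163095745619432926499812525170946473984000000)), (.ofNat (nat_lit 0)), (.negSucc (nat_lit 4698415265763585014397134712984329823191039999999999)), (.ofNat (nat_lit 1649267441663968)), (.ofNat (nat_lit 1649267441664032)), (.ofNat (nat_lit 3844497993033821481506323978990387200000000)), (.ofNat (nat_lit 1508262950850544226961221891810918400000000)), (.ofNat (nat_lit 1508262950850544226961221891810918400000000)), (.ofNat (nat_lit 3844497993033821481506323978990387200000000)), (.ofNat (nat_lit 102556410982584602921207290920960000000))⟩,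
    ⟨nat_lit 0, nat_lit 6, nat_lit 7, (.ofNat (nat_lit 128)), (.negSucc (nat_lit 213030377881599)), (.ofNat (nat_lit 120279437284502097135725017355140140065026473984000000)), (.ofNat (nat_lit 0)), (.ofNat (nat_lit 0)), (.negSucc (nat_lit 213030377881855)), (.negSucc (nat_lit 213030377881343)), (.ofNat (nat_lit 0)), (.ofNat (nat_lit 0)), (.ofNat (nat_lit 0)), (.ofNat (nat_lit 0)), (.ofNat (nat_lit 0))⟩]
  es := [
    ⟨nat_lit 1, nat_lit 4, (.negSucc (nat_lit 549755813887999)), (.negSucc (nat_lit 274877906943999)), (.negSucc (nat_lit 549755813887967)), (.negSucc (nat_lit 274877906944031)), (.ofNat (nat_lit 1136598517449657625974766669513359360000000)), (.ofNat (nat_lit 34185470327528200973735763640320000000)), (.ofNat (nat_lit 18793661063054340057588538851937319292764160000000000))⟩,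
    ⟨nat_lit 1, nat_lit 6, (.negSucc (nat_lit 549755813887999)), (.negSucc (nat_lit 219902325555199)), (.negSucc (nat_lit 549755813887967)), (.negSucc (nat_lit 219902325555455)), (.ofNat (nat_lit 0)), (.ofNat (nat_lit 0)), (.ofNat (nat_lit 0))⟩,
    ⟨nat_lit 3, nat_lit 5, (.ofNat (nat_lit 0)), (.ofNat (nat_lit 824633720832000)), (.ofNat (nat_lit 32)), (.ofNat (nat_lit 824633720831968)), (.negSucc (nat_lit 567588200942016226407129630872961023999999)), (.negSucc (nat_lit 16522977324971963803972285759487999999)), (.ofNat (nat_lit 4228573739187226512957421241685896840871936000000000))⟩,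
    ⟨nat_lit 3, nat_lit 0, (.ofNat (nat_lit 0)), (.ofNat (nat_lit 274877906944000)), (.ofNat (nat_lit 32)), (.ofNat (nat_lit 274877906943968)), (.negSucc (nat_lit 544287384366773004623431334375718911999999)), (.negSucc (nat_lit 15383461647387690438181093638143999999)), (.ofNat (nat_lit 4228573739187226512957421241685896840871936000000000))⟩,
    ⟨nat_lit 4, nat_lit 0, (.negSucc (nat_lit 274877906943999)), (.ofNat (nat_lit 274877906944000)), (.negSucc (nat_lit 274877906943967)), (.ofNat (nat_lit 274877906943968)), (.negSucc (nat_lit 557359908220019788675787890391777279999999)), (.negSucc (nat_lit 17092735163764100486867881820159999999)), (.ofNat (nat_lit 4698415265763585014397134712984329823191040000000000))⟩,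
    ⟨nat_lit 5, nat_lit 2, (.ofNat (nat_lit 824633720832000)), (.ofNat (nat_lit 1099511627776000)), (.ofNat (nat_lit 824633720832032)), (.ofNat (nat_lit 1099511627775968)), (.ofNat (nat_lit 1136598517449657625974766669513359360000000)), (.ofNat (nat_lit 34185470327528200973735763640320000000)), (.negSucc (nat_lit 37587322126108680115177077703874638585528319999999999))⟩,
    ⟨nat_lit 6, nat_lit 11, (.negSucc (nat_lit 219902325555199)), (.negSucc (nat_lit 213030377881599)), (.negSucc (nat_lit 219902325554943)), (.negSucc (nat_lit 213030377881855)), (.ofNat (nat_lit 0)), (.ofNat (nat_lit 0)), (.ofNat (nat_lit 0))⟩,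
    ⟨nat_lit 11, nat_lit 2, (.negSucc (nat_lit 213030377881599)), (.ofNat (nat_lit 1099511627776000)), (.negSucc (nat_lit 213030377881343)), (.ofNat (nat_lit 1099511627775968)), (.ofNat (nat_lit 0)), (.ofNat (nat_lit 0)), (.ofNat (nat_lit 0))⟩,
    ⟨nat_lit 8, nat_lit 9, (.ofNat (nat_lit 1388133430067200)), (.ofNat (nat_lit 1429365116108800)), (.ofNat (nat_lit 1388133430067232)), (.ofNat (nat_lit 1429365116108768)), (.ofNat (nat_lit 2198809451466613886630684317345382400000000)), (.ofNat (nat_lit 0)), (.ofNat (nat_lit 0))⟩,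
    ⟨nat_lit 9, nat_lit 10, (.ofNat (nat_lit 1429365116108800)), (.ofNat (nat_lit 1649267441664000)), (.ofNat (nat_lit 1429365116108832)), (.ofNat (nat_lit 1649267441663968)), (.ofNat (nat_lit 3844497993033821481506323978990387200000000)), (.negSucc (nat_lit 21365918954705125608584852275199999999)), (.ofNat (nat_lit 30539699227463302593581375634398143850741760000000000))⟩,
    ⟨nat_lit 10, nat_lit 7, (.ofNat (nat_lit 1649267441664000)), (.ofNat (nat_lit 2199023255552000)), (.ofNat (nat_lit 1649267441664032)), (.ofNat (nat_lit 2199023255551968)), (.ofNat (nat_lit 1508262950850544226961221891810918400000000)), (.ofNat (nat_lit 8546367581882050243433940910080000000)), (.negSucc (nat_lit 18793661063054340057588538851937319292764159999999999))⟩,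
    ⟨nat_lit 8, nat_lit 7, (.ofNat (nat_lit 1388133430067200)), (.ofNat (nat_lit 2199023255552000)), (.ofNat (nat_lit 1388133430067232)), (.ofNat (nat_lit 2199023255551968)), (.ofNat (nat_lit 2176930750456995838007493428615577600000000)), (.ofNat (nat_lit 0)), (.ofNat (nat_lit 0))⟩]

theorem ok244 : stOK 11 11 S244 = true := by decide +kernel

def S245 : SD where
  vs := [
    ⟨nat_lit 1, nat_lit 3, nat_lit 4, (.ofNat (nat_lit 16)), (.ofNat (nat_lit 274877906944000)), (.ofNat (nat_lit 6134250977461890915564057449975082313749557673984000000)), (.ofNat (nat_lit 0)), (.ofNat (nat_lit 0)), (.ofNat (nat_lit 274877906943968)), (.ofNat (nat_lit 274877906944032)), (.negSucc (nat_lit 544287384366773004623431334375718911999999)), (.negSucc (nat_lit 557359908220019788675787890391777279999999)), (.negSucc (nat_lit 557359908220019788675787890391777279999999)), (.negSucc (nat_lit 544287384366773004623431334375718911999999)), (.ofNat (nat_lit 34185470327528200973735763640320000000))⟩,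
    ⟨nat_lit 2, nat_lit 0, nat_lit 1, (.ofNat (nat_lit 16)), (.negSucc (nat_lit 549755813887999)), (.ofNat (nat_lit 120279437284502097135725017355140140065026473984000000)), (.ofNat (nat_lit 0)), (.ofNat (nat_lit 0)), (.negSucc (nat_lit 549755813888031)), (.negSucc (nat_lit 549755813887967)), (.ofNat (nat_lit 1136598517449657625974766669513359360000000)), (.ofNat (nat_lit 0)), (.ofNat (nat_lit 0)), (.ofNat (nat_lit 1136598517449657625974766669513359360000000)), (.ofNat (nat_lit 136741881310112803894943054561280000000))⟩,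
    ⟨nat_lit 1, nat_lit 5, nat_lit 6, (.ofNat (nat_lit 16)), (.ofNat (nat_lit 1099511627776000)), (.ofNat (nat_lit 120279437284502097135725017355140140065026473984000000)), (.ofNat (nat_lit 0)), (.ofNat (nat_lit 0)), (.ofNat (nat_lit 1099511627775968)), (.ofNat (nat_lit 1099511627776032)), (.ofNat (nat_lit 1136598517449657625974766669513359360000000)), (.ofNat (nat_lit 0)), (.ofNat (nat_lit 0)), (.ofNat (nat_lit 1136598517449657625974766669513359360000000)), (.ofNat (nat_lit 136741881310112803894943054561280000000))⟩,
    ⟨nat_lit 2, nat_lit 3, nat_lit 2, (.ofNat (nat_lit 16)), (.ofNat (nat_lit 0)), (.ofNat (nat_lit 155746827968224881246014897542477693739586482601984000000)), (.ofNat (nat_lit 0)), (.ofNat (nat_lit 4228573739187226512957421241685896840871936000000000)), (.negSucc (nat_lit 31)), (.ofNat (nat_lit 32)), (.negSucc (nat_lit 544287384366773004623431334375718911999999)), (.negSucc (nat_lit 567588200942016226407129630872961023999999)), (.negSucc (nat_lit 567588200942016226407129630872961023999999)), (.negSucc (nat_lit 544287384366773004623431334375718911999999)),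 (.ofNat (nat_lit 33045954649943927607944571518976000000))⟩,
    ⟨nat_lit 0, nat_lit 0, nat_lit 4, (.ofNat (nat_lit 16)), (.negSucc (nat_lit 274877906943999)), (.ofNat (nat_lit 312546100949499851214487594891961136062976422313984000000)), (.ofNat (nat_lit 0)), (.ofNat (nat_lit 9396830531527170028794269425968659646382080000000000)), (.negSucc (nat_lit 274877906944031)), (.negSucc (nat_lit 274877906943967)), (.ofNat (nat_lit 1136598517449657625974766669513359360000000)), (.negSucc (nat_lit 557359908220019788675787890391777279999999)), (.negSucc (nat_lit 557359908220019788675787890391777279999999)), (.ofNat (nat_lit 1136598517449657625974766669513359360000000)), (.ofNat (nat_lit 170927351637641004868678818201600000000))⟩,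
    ⟨nat_lit 0, nat_lit 2, nat_lit 5, (.ofNat (nat_lit 16)), (.ofNat (nat_lit 824633720832000)), (.negSucc (nat_lit 312305542074930847020216144857250855782846369366015999999)), (.ofNat (nat_lit 0)), (.negSucc (nat_lit 9396830531527170028794269425968659646382079999999999)), (.ofNat (nat_lit 824633720831968)), (.ofNat (nat_lit 824633720832032)), (.negSucc (nat_lit 567588200942016226407129630872961023999999)), (.ofNat (nat_lit 1136598517449657625974766669513359360000000)), (.negSucc (nat_lit 567588200942016226407129630872961023999999)), (.ofNat (nat_lit 1136598517449657625974766669513359360000000)), (.ofNat (nat_lit 134462849954944257163360670318592000000))⟩,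
    ⟨nat_lit 0, nat_lit 1, nat_lit 6, (.ofNat (nat_lit 128)), (.negSucc (nat_lit 219902325555199)), (.ofNat (nat_lit 120279437284502097135725017355140140065026473984000000)), (.ofNat (nat_lit 0)), (.ofNat (nat_lit 0)), (.negSucc (nat_lit 219902325555455)), (.negSucc (nat_lit 219902325554943)), (.ofNat (nat_lit 0)), (.ofNat (nat_lit 0)), (.ofNat (nat_lit 0)), (.ofNat (nat_lit 0)), (.ofNat (nat_lit 0))⟩,
    ⟨nat_lit 1, nat_lit 10, nat_lit 9, (.ofNat (nat_lit 16)), (.ofNat (nat_lit 2199023255552000)), (.ofNat (nat_lit 5283394277483120579086425767073974339721925685673984000000)), (.ofNat (nat_lit 0)), (.ofNat (nat_lit 0)), (.ofNat (nat_lit 2199023255551968)), (.ofNat (nat_lit 2199023255552032)), (.ofNat (nat_lit 2176930750456995838007493428615577600000000)), (.ofNat (nat_lit 1508262950850544226961221891810918400000000)), (.ofNat (nat_lit 1508262950850544226961221891810918400000000)), (.ofNat (nat_lit 2176930750456995838007493428615577600000000)), (.ofNat (nat_lit 17092735163764100486867881820160000000))⟩,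
    ⟨nat_lit 2, nat_lit 10, nat_lit 7, (.ofNat (nat_lit 16)), (.ofNat (nat_lit 1388133430067200)), (.ofNat (nat_lit 3518143281152552526157249489789205813191173665193984000000)), (.ofNat (nat_lit 0)), (.ofNat (nat_lit 0)), (.ofNat (nat_lit 1388133430067168)), (.ofNat (nat_lit 1388133430067232)), (.ofNat (nat_lit 2176930750456995838007493428615577600000000)), (.ofNat (nat_lit 2198809451466613886630684317345382400000000)), (.ofNat (nat_lit 2176930750456995838007493428615577600000000)), (.ofNat (nat_lit 2198809451466613886630684317345382400000000)), (.ofNat (nat_lit 0))⟩,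
    ⟨nat_lit 0, nat_lit 7, nat_lit 8, (.ofNat (nat_lit 16)), (.ofNat (nat_lit 1429365116108800)), (.ofNat (nat_lit 3608803902120726662595056601210951441459467973033984000000)), (.ofNat (nat_lit 0)), (.ofNat (nat_lit 0)), (.ofNat (nat_lit 1429365116108768)), (.ofNat (nat_lit 1429365116108832)), (.ofNat (nat_lit 2198809451466613886630684317345382400000000)), (.ofNat (nat_lit 3844497993033821481506323978990387200000000)), (.ofNat (nat_lit 2198809451466613886630684317345382400000000)), (.ofNat (nat_lit 3844497993033821481506323978990387200000000)), (.ofNat (nat_lit 42731837909410251217169704550400000000))⟩,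
    ⟨nat_lit 0, nat_lit 8, nat_lit 9, (.ofNat (nat_lit 16)), (.ofNat (nat_lit 1649267441664000)), (.ofNat (nat_lit 4454217951381163095745619432926499812525170946473984000000)), (.ofNat (nat_lit 0)), (.negSucc (nat_lit 4698415265763585014397134712984329823191039999999999)), (.ofNat (nat_lit 1649267441663968)), (.ofNat (nat_lit 1649267441664032)), (.ofNat (nat_lit 3844497993033821481506323978990387200000000)), (.ofNat (nat_lit 1508262950850544226961221891810918400000000)), (.ofNat (nat_lit 1508262950850544226961221891810918400000000)), (.ofNat (nat_lit 3844497993033821481506323978990387200000000)), (.ofNat (nat_lit 102556410982584602921207290920960000000))⟩]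
  es := [
    ⟨nat_lit 1, nat_lit 4, (.negSucc (nat_lit 549755813887999)), (.negSucc (nat_lit 274877906943999)), (.negSucc (nat_lit 549755813887967)), (.negSucc (nat_lit 274877906944031)), (.ofNat (nat_lit 1136598517449657625974766669513359360000000)), (.ofNat (nat_lit 34185470327528200973735763640320000000)), (.ofNat (nat_lit 18793661063054340057588538851937319292764160000000000))⟩,
    ⟨nat_lit 1, nat_lit 6, (.negSucc (nat_lit 549755813887999)), (.negSucc (nat_lit 219902325555199)), (.negSucc (nat_lit 549755813887967)), (.negSucc (nat_lit 219902325555455)), (.ofNat (nat_lit 0)), (.ofNat (nat_lit 0)), (.ofNat (nat_lit 0))⟩,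
    ⟨nat_lit 3, nat_lit 5, (.ofNat (nat_lit 0)), (.ofNat (nat_lit 824633720832000)), (.ofNat (nat_lit 32)), (.ofNat (nat_lit 824633720831968)), (.negSucc (nat_lit 567588200942016226407129630872961023999999)), (.negSucc (nat_lit 16522977324971963803972285759487999999)), (.ofNat (nat_lit 4228573739187226512957421241685896840871936000000000))⟩,
    ⟨nat_lit 3, nat_lit 0, (.ofNat (nat_lit 0)), (.ofNat (nat_lit 274877906944000)), (.ofNat (nat_lit 32)), (.ofNat (nat_lit 274877906943968)), (.negSucc (nat_lit 544287384366773004623431334375718911999999)), (.negSucc (nat_lit 15383461647387690438181093638143999999)), (.ofNat (nat_lit 4228573739187226512957421241685896840871936000000000))⟩,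
    ⟨nat_lit 4, nat_lit 0, (.negSucc (nat_lit 274877906943999)), (.ofNat (nat_lit 274877906944000)), (.negSucc (nat_lit 274877906943967)), (.ofNat (nat_lit 274877906943968)), (.negSucc (nat_lit 557359908220019788675787890391777279999999)), (.negSucc (nat_lit 17092735163764100486867881820159999999)), (.ofNat (nat_lit 4698415265763585014397134712984329823191040000000000))⟩,
    ⟨nat_lit 5, nat_lit 2, (.ofNat (nat_lit 824633720832000)), (.ofNat (nat_lit 1099511627776000)), (.ofNat (nat_lit 824633720832032)), (.ofNat (nat_lit 1099511627775968)), (.ofNat (nat_lit 1136598517449657625974766669513359360000000)), (.ofNat (nat_lit 34185470327528200973735763640320000000)), (.negSucc (nat_lit 37587322126108680115177077703874638585528319999999999))⟩,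
    ⟨nat_lit 6, nat_lit 2, (.negSucc (nat_lit 219902325555199)), (.ofNat (nat_lit 1099511627776000)), (.negSucc (nat_lit 219902325554943)), (.ofNat (nat_lit 1099511627775968)), (.ofNat (nat_lit 0)), (.ofNat (nat_lit 0)), (.ofNat (nat_lit 0))⟩,
    ⟨nat_lit 8, nat_lit 9, (.ofNat (nat_lit 1388133430067200)), (.ofNat (nat_lit 1429365116108800)), (.ofNat (nat_lit 1388133430067232)), (.ofNat (nat_lit 1429365116108768)), (.ofNat (nat_lit 2198809451466613886630684317345382400000000)), (.ofNat (nat_lit 0)), (.ofNat (nat_lit 0))⟩,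
    ⟨nat_lit 9, nat_lit 10, (.ofNat (nat_lit 1429365116108800)), (.ofNat (nat_lit 1649267441664000)), (.ofNat (nat_lit 1429365116108832)), (.ofNat (nat_lit 1649267441663968)), (.ofNat (nat_lit 3844497993033821481506323978990387200000000)), (.negSucc (nat_lit 21365918954705125608584852275199999999)), (.ofNat (nat_lit 30539699227463302593581375634398143850741760000000000))⟩,
    ⟨nat_lit 10, nat_lit 7, (.ofNat (nat_lit 1649267441664000)), (.ofNat (nat_lit 2199023255552000)), (.ofNat (nat_lit 1649267441664032)), (.ofNat (nat_lit 2199023255551968)), (.ofNat (nat_lit 1508262950850544226961221891810918400000000)), (.ofNat (nat_lit 8546367581882050243433940910080000000)), (.negSucc (nat_lit 18793661063054340057588538851937319292764159999999999))⟩,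
    ⟨nat_lit 8, nat_lit 7, (.ofNat (nat_lit 1388133430067200)), (.ofNat (nat_lit 2199023255552000)), (.ofNat (nat_lit 1388133430067232)), (.ofNat (nat_lit 2199023255551968)), (.ofNat (nat_lit 2176930750456995838007493428615577600000000)), (.ofNat (nat_lit 0)), (.ofNat (nat_lit 0))⟩]

theorem ok245 : stOK 10 10 S245 = true := by decide +kernel

def S246 : SD where
  vs := [
    ⟨nat_lit 1, nat_lit 3, nat_lit 4, (.ofNat (nat_lit 16)), (.ofNat (nat_lit 274877906944000)), (.ofNat (nat_lit 6134250977461890915564057449975082313749557673984000000)), (.ofNat (nat_lit 0)), (.ofNat (nat_lit 0)), (.ofNat (nat_lit 274877906943968)), (.ofNat (nat_lit 274877906944032)), (.negSucc (nat_lit 544287384366773004623431334375718911999999)), (.negSucc (nat_lit 557359908220019788675787890391777279999999)), (.negSucc (nat_lit 557359908220019788675787890391777279999999)), (.negSucc (nat_lit 544287384366773004623431334375718911999999)), (.ofNat (nat_lit 34185470327528200973735763640320000000))⟩,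
    ⟨nat_lit 2, nat_lit 0, nat_lit 1, (.ofNat (nat_lit 16)), (.negSucc (nat_lit 549755813887999)), (.ofNat (nat_lit 120279437284502097135725017355140140065026473984000000)), (.ofNat (nat_lit 0)), (.ofNat (nat_lit 0)), (.negSucc (nat_lit 549755813888031)), (.negSucc (nat_lit 549755813887967)), (.ofNat (nat_lit 1136598517449657625974766669513359360000000)), (.ofNat (nat_lit 0)), (.ofNat (nat_lit 0)), (.ofNat (nat_lit 1136598517449657625974766669513359360000000)), (.ofNat (nat_lit 136741881310112803894943054561280000000))⟩,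
    ⟨nat_lit 1, nat_lit 5, nat_lit 1, (.ofNat (nat_lit 16)), (.ofNat (nat_lit 1099511627776000)), (.ofNat (nat_lit 120279437284502097135725017355140140065026473984000000)), (.ofNat (nat_lit 0)), (.ofNat (nat_lit 0)), (.ofNat (nat_lit 1099511627775968)), (.ofNat (nat_lit 1099511627776032)), (.ofNat (nat_lit 1136598517449657625974766669513359360000000)), (.ofNat (nat_lit 0)), (.ofNat (nat_lit 0)), (.ofNat (nat_lit 1136598517449657625974766669513359360000000)), (.ofNat (nat_lit 136741881310112803894943054561280000000))⟩,
    ⟨nat_lit 2, nat_lit 3, nat_lit 2, (.ofNat (nat_lit 16)), (.ofNat (nat_lit 0)), (.ofNat (nat_lit 155746827968224881246014897542477693739586482601984000000)), (.ofNat (nat_lit 0)), (.ofNat (nat_lit 4228573739187226512957421241685896840871936000000000)), (.negSucc (nat_lit 31)), (.ofNat (nat_lit 32)), (.negSucc (nat_lit 544287384366773004623431334375718911999999)), (.negSucc (nat_lit 567588200942016226407129630872961023999999)), (.negSucc (nat_lit 567588200942016226407129630872961023999999)), (.negSucc (nat_lit 544287384366773004623431334375718911999999)),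 (.ofNat (nat_lit 33045954649943927607944571518976000000))⟩,
    ⟨nat_lit 0, nat_lit 0, nat_lit 4, (.ofNat (nat_lit 16)), (.negSucc (nat_lit 274877906943999)), (.ofNat (nat_lit 312546100949499851214487594891961136062976422313984000000)), (.ofNat (nat_lit 0)), (.ofNat (nat_lit 9396830531527170028794269425968659646382080000000000)), (.negSucc (nat_lit 274877906944031)), (.negSucc (nat_lit 274877906943967)), (.ofNat (nat_lit 1136598517449657625974766669513359360000000)), (.negSucc (nat_lit 557359908220019788675787890391777279999999)), (.negSucc (nat_lit 557359908220019788675787890391777279999999)), (.ofNat (nat_lit 1136598517449657625974766669513359360000000)), (.ofNat (nat_lit 170927351637641004868678818201600000000))⟩,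
    ⟨nat_lit 0, nat_lit 2, nat_lit 5, (.ofNat (nat_lit 16)), (.ofNat (nat_lit 824633720832000)), (.negSucc (nat_lit 312305542074930847020216144857250855782846369366015999999)), (.ofNat (nat_lit 0)), (.negSucc (nat_lit 9396830531527170028794269425968659646382079999999999)), (.ofNat (nat_lit 824633720831968)), (.ofNat (nat_lit 824633720832032)), (.negSucc (nat_lit 567588200942016226407129630872961023999999)), (.ofNat (nat_lit 1136598517449657625974766669513359360000000)), (.negSucc (nat_lit 567588200942016226407129630872961023999999)), (.ofNat (nat_lit 1136598517449657625974766669513359360000000)), (.ofNat (nat_lit 134462849954944257163360670318592000000))⟩,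
    ⟨nat_lit 1, nat_lit 9, nat_lit 8, (.ofNat (nat_lit 16)), (.ofNat (nat_lit 2199023255552000)), (.ofNat (nat_lit 5283394277483120579086425767073974339721925685673984000000)), (.ofNat (nat_lit 0)), (.ofNat (nat_lit 0)), (.ofNat (nat_lit 2199023255551968)), (.ofNat (nat_lit 2199023255552032)), (.ofNat (nat_lit 2176930750456995838007493428615577600000000)), (.ofNat (nat_lit 1508262950850544226961221891810918400000000)), (.ofNat (nat_lit 1508262950850544226961221891810918400000000)), (.ofNat (nat_lit 2176930750456995838007493428615577600000000)), (.ofNat (nat_lit 17092735163764100486867881820160000000))⟩,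
    ⟨nat_lit 2, nat_lit 9, nat_lit 6, (.ofNat (nat_lit 16)), (.ofNat (nat_lit 1388133430067200)), (.ofNat (nat_lit 3518143281152552526157249489789205813191173665193984000000)), (.ofNat (nat_lit 0)), (.ofNat (nat_lit 0)), (.ofNat (nat_lit 1388133430067168)), (.ofNat (nat_lit 1388133430067232)), (.ofNat (nat_lit 2176930750456995838007493428615577600000000)), (.ofNat (nat_lit 2198809451466613886630684317345382400000000)), (.ofNat (nat_lit 2176930750456995838007493428615577600000000)), (.ofNat (nat_lit 2198809451466613886630684317345382400000000)), (.ofNat (nat_lit 0))⟩,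
    ⟨nat_lit 0, nat_lit 6, nat_lit 7, (.ofNat (nat_lit 16)), (.ofNat (nat_lit 1429365116108800)), (.ofNat (nat_lit 3608803902120726662595056601210951441459467973033984000000)), (.ofNat (nat_lit 0)), (.ofNat (nat_lit 0)), (.ofNat (nat_lit 1429365116108768)), (.ofNat (nat_lit 1429365116108832)), (.ofNat (nat_lit 2198809451466613886630684317345382400000000)), (.ofNat (nat_lit 3844497993033821481506323978990387200000000)), (.ofNat (nat_lit 2198809451466613886630684317345382400000000)), (.ofNat (nat_lit 3844497993033821481506323978990387200000000)), (.ofNat (nat_lit 42731837909410251217169704550400000000))⟩,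
    ⟨nat_lit 0, nat_lit 7, nat_lit 8, (.ofNat (nat_lit 16)), (.ofNat (nat_lit 1649267441664000)), (.ofNat (nat_lit 4454217951381163095745619432926499812525170946473984000000)), (.ofNat (nat_lit 0)), (.negSucc (nat_lit 4698415265763585014397134712984329823191039999999999)), (.ofNat (nat_lit 1649267441663968)), (.ofNat (nat_lit 1649267441664032)), (.ofNat (nat_lit 3844497993033821481506323978990387200000000)), (.ofNat (nat_lit 1508262950850544226961221891810918400000000)), (.ofNat (nat_lit 1508262950850544226961221891810918400000000)), (.ofNat (nat_lit 3844497993033821481506323978990387200000000)), (.ofNat (nat_lit 102556410982584602921207290920960000000))⟩]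
  es := [
    ⟨nat_lit 1, nat_lit 4, (.negSucc (nat_lit 549755813887999)), (.negSucc (nat_lit 274877906943999)), (.negSucc (nat_lit 549755813887967)), (.negSucc (nat_lit 274877906944031)), (.ofNat (nat_lit 1136598517449657625974766669513359360000000)), (.ofNat (nat_lit 34185470327528200973735763640320000000)), (.ofNat (nat_lit 18793661063054340057588538851937319292764160000000000))⟩,
    ⟨nat_lit 1, nat_lit 2, (.negSucc (nat_lit 549755813887999)), (.ofNat (nat_lit 1099511627776000)), (.negSucc (nat_lit 549755813887967)), (.ofNat (nat_lit 1099511627775968)), (.ofNat (nat_lit 0)), (.ofNat (nat_lit 0)), (.ofNat (nat_lit 0))⟩,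
    ⟨nat_lit 3, nat_lit 5, (.ofNat (nat_lit 0)), (.ofNat (nat_lit 824633720832000)), (.ofNat (nat_lit 32)), (.ofNat (nat_lit 824633720831968)), (.negSucc (nat_lit 567588200942016226407129630872961023999999)), (.negSucc (nat_lit 16522977324971963803972285759487999999)), (.ofNat (nat_lit 4228573739187226512957421241685896840871936000000000))⟩,
    ⟨nat_lit 3, nat_lit 0, (.ofNat (nat_lit 0)), (.ofNat (nat_lit 274877906944000)), (.ofNat (nat_lit 32)), (.ofNat (nat_lit 274877906943968)), (.negSucc (nat_lit 544287384366773004623431334375718911999999)), (.negSucc (nat_lit 15383461647387690438181093638143999999)), (.ofNat (nat_lit 4228573739187226512957421241685896840871936000000000))⟩,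
    ⟨nat_lit 4, nat_lit 0, (.negSucc (nat_lit 274877906943999)), (.ofNat (nat_lit 274877906944000)), (.negSucc (nat_lit 274877906943967)), (.ofNat (nat_lit 274877906943968)), (.negSucc (nat_lit 557359908220019788675787890391777279999999)), (.negSucc (nat_lit 17092735163764100486867881820159999999)), (.ofNat (nat_lit 4698415265763585014397134712984329823191040000000000))⟩,
    ⟨nat_lit 5, nat_lit 2, (.ofNat (nat_lit 824633720832000)), (.ofNat (nat_lit 1099511627776000)), (.ofNat (nat_lit 824633720832032)), (.ofNat (nat_lit 1099511627775968)), (.ofNat (nat_lit 1136598517449657625974766669513359360000000)), (.ofNat (nat_lit 34185470327528200973735763640320000000)), (.negSucc (nat_lit 37587322126108680115177077703874638585528319999999999))⟩,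
    ⟨nat_lit 7, nat_lit 8, (.ofNat (nat_lit 1388133430067200)), (.ofNat (nat_lit 1429365116108800)), (.ofNat (nat_lit 1388133430067232)), (.ofNat (nat_lit 1429365116108768)), (.ofNat (nat_lit 2198809451466613886630684317345382400000000)), (.ofNat (nat_lit 0)), (.ofNat (nat_lit 0))⟩,
    ⟨nat_lit 8, nat_lit 9, (.ofNat (nat_lit 1429365116108800)), (.ofNat (nat_lit 1649267441664000)), (.ofNat (nat_lit 1429365116108832)), (.ofNat (nat_lit 1649267441663968)), (.ofNat (nat_lit 3844497993033821481506323978990387200000000)), (.negSucc (nat_lit 21365918954705125608584852275199999999)), (.ofNat (nat_lit 30539699227463302593581375634398143850741760000000000))⟩,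
    ⟨nat_lit 9, nat_lit 6, (.ofNat (nat_lit 1649267441664000)), (.ofNat (nat_lit 2199023255552000)), (.ofNat (nat_lit 1649267441664032)), (.ofNat (nat_lit 2199023255551968)), (.ofNat (nat_lit 1508262950850544226961221891810918400000000)), (.ofNat (nat_lit 8546367581882050243433940910080000000)), (.negSucc (nat_lit 18793661063054340057588538851937319292764159999999999))⟩,
    ⟨nat_lit 7, nat_lit 6, (.ofNat (nat_lit 1388133430067200)), (.ofNat (nat_lit 2199023255552000)), (.ofNat (nat_lit 1388133430067232)), (.ofNat (nat_lit 2199023255551968)), (.ofNat (nat_lit 2176930750456995838007493428615577600000000)), (.ofNat (nat_lit 0)), (.ofNat (nat_lit 0))⟩]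

theorem ok246 : stOK 9 9 S246 = true := by decide +kernel

def S247 : SD where
  vs := [
    ⟨nat_lit 1, nat_lit 3, nat_lit 4, (.ofNat (nat_lit 16)), (.ofNat (nat_lit 274877906944000)), (.ofNat (nat_lit 6134250977461890915564057449975082313749557673984000000)), (.ofNat (nat_lit 0)), (.ofNat (nat_lit 0)), (.ofNat (nat_lit 274877906943968)), (.ofNat (nat_lit 274877906944032)), (.negSucc (nat_lit 544779655139489410717453129372139519999999)), (.negSucc (nat_lit 557906875745260239891367662610022399999999)), (.negSucc (nat_lit 557906875745260239891367662610022399999999)), (.negSucc (nat_lit 544779655139489410717453129372139519999999)), (.ofNat (nat_lit 34185470327528200973735763640320000000))⟩,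
    ⟨nat_lit 2, nat_lit 0, nat_lit 1, (.ofNat (nat_lit 16)), (.negSucc (nat_lit 549755813887999)), (.ofNat (nat_lit 120279437284502097135725017355140140065026473984000000)), (.ofNat (nat_lit 0)), (.ofNat (nat_lit 0)), (.negSucc (nat_lit 549755813888031)), (.negSucc (nat_lit 549755813887967)), (.ofNat (nat_lit 1137692452500138528405926213949849600000000)), (.ofNat (nat_lit 0)), (.ofNat (nat_lit 0)), (.ofNat (nat_lit 1137692452500138528405926213949849600000000)), (.ofNat (nat_lit 136741881310112803894943054561280000000))⟩,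
    ⟨nat_lit 1, nat_lit 5, nat_lit 1, (.ofNat (nat_lit 16)), (.ofNat (nat_lit 1099511627776000)), (.ofNat (nat_lit 120279437284502097135725017355140140065026473984000000)), (.ofNat (nat_lit 0)), (.ofNat (nat_lit 0)), (.ofNat (nat_lit 1099511627775968)), (.ofNat (nat_lit 1099511627776032)), (.ofNat (nat_lit 1137692452500138528405926213949849600000000)), (.ofNat (nat_lit 0)), (.ofNat (nat_lit 0)), (.ofNat (nat_lit 1137692452500138528405926213949849600000000)), (.ofNat (nat_lit 136741881310112803894943054561280000000))⟩,
    ⟨nat_lit 2, nat_lit 3, nat_lit 2, (.ofNat (nat_lit 16)), (.ofNat (nat_lit 0)), (.ofNat (nat_lit 155882142327878872494429535022211642438494384553984000000)), (.ofNat (nat_lit 0)), (.ofNat (nat_lit 4228573739187226512957421241685896840871936000000000)), (.negSucc (nat_lit 31)), (.ofNat (nat_lit 32)), (.negSucc (nat_lit 544779655139489410717453129372139519999999)), (.negSucc (nat_lit 568116936216415329248856744017264639999999)), (.negSucc (nat_lit 568116936216415329248856744017264639999999)), (.negSucc (nat_lit 544779655139489410717453129372139519999999)),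 (.ofNat (nat_lit 33045954649943927607944571518976000000))⟩,
    ⟨nat_lit 0, nat_lit 0, nat_lit 4, (.ofNat (nat_lit 16)), (.negSucc (nat_lit 274877906943999)), (.ofNat (nat_lit 312846799526508720655409011513592133171660648873984000000)), (.ofNat (nat_lit 0)), (.ofNat (nat_lit 9396830531527170028794269425968659646382080000000000)), (.negSucc (nat_lit 274877906944031)), (.negSucc (nat_lit 274877906943967)), (.ofNat (nat_lit 1137692452500138528405926213949849600000000)), (.negSucc (nat_lit 557906875745260239891367662610022399999999)), (.negSucc (nat_lit 557906875745260239891367662610022399999999)), (.ofNat (nat_lit 1137692452500138528405926213949849600000000)), (.ofNat (nat_lit 170927351637641004868678818201600000000))⟩,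
    ⟨nat_lit 0, nat_lit 2, nat_lit 5, (.ofNat (nat_lit 16)), (.ofNat (nat_lit 824633720832000)), (.negSucc (nat_lit 312606240651939716461137561478881852891530595926015999999)), (.ofNat (nat_lit 0)), (.negSucc (nat_lit 9396830531527170028794269425968659646382079999999999)), (.ofNat (nat_lit 824633720831968)), (.ofNat (nat_lit 824633720832032)), (.negSucc (nat_lit 568116936216415329248856744017264639999999)), (.ofNat (nat_lit 1137692452500138528405926213949849600000000)), (.negSucc (nat_lit 568116936216415329248856744017264639999999)), (.ofNat (nat_lit 1137692452500138528405926213949849600000000)), (.ofNat (nat_lit 134462849954944257163360670318592000000))⟩,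
    ⟨nat_lit 1, nat_lit 9, nat_lit 8, (.ofNat (nat_lit 16)), (.ofNat (nat_lit 2199023255552000)), (.ofNat (nat_lit 5283394277483120579086425767073974339721925685673984000000)), (.ofNat (nat_lit 0)), (.ofNat (nat_lit 0)), (.ofNat (nat_lit 2199023255551968)), (.ofNat (nat_lit 2199023255552032)), (.ofNat (nat_lit 2176930750456995838007493428615577600000000)), (.ofNat (nat_lit 1508536434613164452569011777920040960000000)), (.ofNat (nat_lit 1508536434613164452569011777920040960000000)), (.ofNat (nat_lit 2176930750456995838007493428615577600000000)), (.ofNat (nat_lit 17092735163764100486867881820160000000))⟩,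
    ⟨nat_lit 2, nat_lit 9, nat_lit 6, (.ofNat (nat_lit 16)), (.ofNat (nat_lit 1388133430067200)), (.ofNat (nat_lit 3518143281152552526157249489789205813191173665193984000000)), (.ofNat (nat_lit 0)), (.ofNat (nat_lit 0)), (.ofNat (nat_lit 1388133430067168)), (.ofNat (nat_lit 1388133430067232)), (.ofNat (nat_lit 2176930750456995838007493428615577600000000)), (.ofNat (nat_lit 2198809451466613886630684317345382400000000)), (.ofNat (nat_lit 2176930750456995838007493428615577600000000)), (.ofNat (nat_lit 2198809451466613886630684317345382400000000)), (.ofNat (nat_lit 0))⟩,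
    ⟨nat_lit 0, nat_lit 6, nat_lit 7, (.ofNat (nat_lit 16)), (.ofNat (nat_lit 1429365116108800)), (.ofNat (nat_lit 3608803902120726662595056601210951441459467973033984000000)), (.ofNat (nat_lit 0)), (.ofNat (nat_lit 0)), (.ofNat (nat_lit 1429365116108768)), (.ofNat (nat_lit 1429365116108832)), (.ofNat (nat_lit 2198809451466613886630684317345382400000000)), (.ofNat (nat_lit 3843814283627270917486849263717580800000000)), (.ofNat (nat_lit 2198809451466613886630684317345382400000000)), (.ofNat (nat_lit 3843814283627270917486849263717580800000000)), (.ofNat (nat_lit 42731837909410251217169704550400000000))⟩,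
    ⟨nat_lit 0, nat_lit 7, nat_lit 8, (.ofNat (nat_lit 16)), (.ofNat (nat_lit 1649267441664000)), (.ofNat (nat_lit 4454067602092658661025158724615684313970828833193984000000)), (.ofNat (nat_lit 0)), (.negSucc (nat_lit 4698415265763585014397134712984329823191039999999999)), (.ofNat (nat_lit 1649267441663968)), (.ofNat (nat_lit 1649267441664032)), (.ofNat (nat_lit 3843814283627270917486849263717580800000000)), (.ofNat (nat_lit 1508536434613164452569011777920040960000000)), (.ofNat (nat_lit 1508536434613164452569011777920040960000000)), (.ofNat (nat_lit 3843814283627270917486849263717580800000000)), (.ofNat (nat_lit 102556410982584602921207290920960000000))⟩]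
  es := [
    ⟨nat_lit 1, nat_lit 4, (.negSucc (nat_lit 549755813887999)), (.negSucc (nat_lit 274877906943999)), (.negSucc (nat_lit 549755813887967)), (.negSucc (nat_lit 274877906944031)), (.ofNat (nat_lit 1137692452500138528405926213949849600000000)), (.ofNat (nat_lit 34185470327528200973735763640320000000)), (.ofNat (nat_lit 18793661063054340057588538851937319292764160000000000))⟩,
    ⟨nat_lit 1, nat_lit 2, (.negSucc (nat_lit 549755813887999)), (.ofNat (nat_lit 1099511627776000)), (.negSucc (nat_lit 549755813887967)), (.ofNat (nat_lit 1099511627775968)), (.ofNat (nat_lit 0)), (.ofNat (nat_lit 0)), (.ofNat (nat_lit 0))⟩,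
    ⟨nat_lit 3, nat_lit 5, (.ofNat (nat_lit 0)), (.ofNat (nat_lit 824633720832000)), (.ofNat (nat_lit 32)), (.ofNat (nat_lit 824633720831968)), (.negSucc (nat_lit 568116936216415329248856744017264639999999)), (.negSucc (nat_lit 16522977324971963803972285759487999999)), (.ofNat (nat_lit 4228573739187226512957421241685896840871936000000000))⟩,
    ⟨nat_lit 3, nat_lit 0, (.ofNat (nat_lit 0)), (.ofNat (nat_lit 274877906944000)), (.ofNat (nat_lit 32)), (.ofNat (nat_lit 274877906943968)), (.negSucc (nat_lit 544779655139489410717453129372139519999999)), (.negSucc (nat_lit 15383461647387690438181093638143999999)), (.ofNat (nat_lit 4228573739187226512957421241685896840871936000000000))⟩,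
    ⟨nat_lit 4, nat_lit 0, (.negSucc (nat_lit 274877906943999)), (.ofNat (nat_lit 274877906944000)), (.negSucc (nat_lit 274877906943967)), (.ofNat (nat_lit 274877906943968)), (.negSucc (nat_lit 557906875745260239891367662610022399999999)), (.negSucc (nat_lit 17092735163764100486867881820159999999)), (.ofNat (nat_lit 4698415265763585014397134712984329823191040000000000))⟩,
    ⟨nat_lit 5, nat_lit 2, (.ofNat (nat_lit 824633720832000)), (.ofNat (nat_lit 1099511627776000)), (.ofNat (nat_lit 824633720832032)), (.ofNat (nat_lit 1099511627775968)), (.ofNat (nat_lit 1137692452500138528405926213949849600000000)), (.ofNat (nat_lit 34185470327528200973735763640320000000)), (.negSucc (nat_lit 37587322126108680115177077703874638585528319999999999))⟩,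
    ⟨nat_lit 7, nat_lit 8, (.ofNat (nat_lit 1388133430067200)), (.ofNat (nat_lit 1429365116108800)), (.ofNat (nat_lit 1388133430067232)), (.ofNat (nat_lit 1429365116108768)), (.ofNat (nat_lit 2198809451466613886630684317345382400000000)), (.ofNat (nat_lit 0)), (.ofNat (nat_lit 0))⟩,
    ⟨nat_lit 8, nat_lit 9, (.ofNat (nat_lit 1429365116108800)), (.ofNat (nat_lit 1649267441664000)), (.ofNat (nat_lit 1429365116108832)), (.ofNat (nat_lit 1649267441663968)), (.ofNat (nat_lit 3843814283627270917486849263717580800000000)), (.negSucc (nat_lit 21365918954705125608584852275199999999)), (.ofNat (nat_lit 30539699227463302593581375634398143850741760000000000))⟩,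
    ⟨nat_lit 9, nat_lit 6, (.ofNat (nat_lit 1649267441664000)), (.ofNat (nat_lit 2199023255552000)), (.ofNat (nat_lit 1649267441664032)), (.ofNat (nat_lit 2199023255551968)), (.ofNat (nat_lit 1508536434613164452569011777920040960000000)), (.ofNat (nat_lit 8546367581882050243433940910080000000)), (.negSucc (nat_lit 18793661063054340057588538851937319292764159999999999))⟩,
    ⟨nat_lit 7, nat_lit 6, (.ofNat (nat_lit 1388133430067200)), (.ofNat (nat_lit 2199023255552000)), (.ofNat (nat_lit 1388133430067232)), (.ofNat (nat_lit 2199023255551968)), (.ofNat (nat_lit 2176930750456995838007493428615577600000000)), (.ofNat (nat_lit 0)), (.ofNat (nat_lit 0))⟩]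

theorem ok247 : stOK 9 9 S247 = true := by decide +kernel

def S248 : SD where
  vs := [
    ⟨nat_lit 1, nat_lit 3, nat_lit 4, (.ofNat (nat_lit 16)), (.ofNat (nat_lit 274877906944000)), (.ofNat (nat_lit 9441935324559454765699640287916050509276049833984000000)), (.ofNat (nat_lit 0)), (.ofNat (nat_lit 103365135846798870316736963685655256110202880000000000)), (.ofNat (nat_lit 274877906943968)), (.ofNat (nat_lit 274877906944032)), (.negSucc (nat_lit 539282631510822876000876418578776063999999)), (.negSucc (nat_lit 552437200492855727735569940427571199999999)), (.negSucc (nat_lit 552437200492855727735569940427571199999999)), (.negSucc (nat_lit 539282631510822876000876418578776063999999)), (.ofNat (nat_lit 345273250308034829834731212767232000000))⟩,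
    ⟨nat_lit 2, nat_lit 0, nat_lit 1, (.ofNat (nat_lit 16)), (.negSucc (nat_lit 549755813887999)), (.ofNat (nat_lit 120279437284502097135725017355140140065026473984000000)), (.ofNat (nat_lit 0)), (.ofNat (nat_lit 0)), (.negSucc (nat_lit 549755813888031)), (.negSucc (nat_lit 549755813887967)), (.ofNat (nat_lit 1138786387550619430837085758386339840000000)), (.ofNat (nat_lit 0)), (.ofNat (nat_lit 0)), (.ofNat (nat_lit 1138786387550619430837085758386339840000000)), (.ofNat (nat_lit 136741881310112803894943054561280000000))⟩,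
    ⟨nat_lit 1, nat_lit 5, nat_lit 1, (.ofNat (nat_lit 16)), (.ofNat (nat_lit 1099511627776000)), (.ofNat (nat_lit 120279437284502097135725017355140140065026473984000000)), (.ofNat (nat_lit 0)), (.ofNat (nat_lit 0)), (.ofNat (nat_lit 1099511627775968)), (.ofNat (nat_lit 1099511627776032)), (.ofNat (nat_lit 1138786387550619430837085758386339840000000)), (.ofNat (nat_lit 0)), (.ofNat (nat_lit 0)), (.ofNat (nat_lit 1138786387550619430837085758386339840000000)), (.ofNat (nat_lit 136741881310112803894943054561280000000))⟩,
    ⟨nat_lit 2, nat_lit 3, nat_lit 2, (.ofNat (nat_lit 16)), (.ofNat (nat_lit 0)), (.ofNat (nat_lit 157678816325506867403934999336456850162882638249984000000)), (.ofNat (nat_lit 0)), (.ofNat (nat_lit 56146062425874840922045759820162741387132928000000000)), (.negSucc (nat_lit 31)), (.ofNat (nat_lit 32)), (.negSucc (nat_lit 539282631510822876000876418578776063999999)), (.negSucc (nat_lit 570660335208783427401302684832104447999999)), (.negSucc (nat_lit 570660335208783427401302684832104447999999)), (.negSucc (nat_lit 539282631510822876000876418578776063999999)),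 (.ofNat (nat_lit 846090390606322974099960150097920000000))⟩,
    ⟨nat_lit 0, nat_lit 0, nat_lit 4, (.ofNat (nat_lit 16)), (.negSucc (nat_lit 274877906943999)), (.ofNat (nat_lit 313147498103517590096330428135223130280344875433984000000)), (.ofNat (nat_lit 0)), (.ofNat (nat_lit 9396830531527170028794269425968659646382080000000000)), (.negSucc (nat_lit 274877906944031)), (.negSucc (nat_lit 274877906943967)), (.ofNat (nat_lit 1138786387550619430837085758386339840000000)), (.negSucc (nat_lit 552437200492855727735569940427571199999999)), (.negSucc (nat_lit 552437200492855727735569940427571199999999)), (.ofNat (nat_lit 1138786387550619430837085758386339840000000)), (.ofNat (nat_lit 341854703275282009737357636403200000000))⟩,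
    ⟨nat_lit 0, nat_lit 2, nat_lit 5, (.ofNat (nat_lit 16)), (.ofNat (nat_lit 824633720832000)), (.negSucc (nat_lit 312906939228948585902058978100512850000214822486015999999)), (.ofNat (nat_lit 0)), (.negSucc (nat_lit 9396830531527170028794269425968659646382079999999999)), (.ofNat (nat_lit 824633720831968)), (.ofNat (nat_lit 824633720832032)), (.negSucc (nat_lit 570660335208783427401302684832104447999999)), (.ofNat (nat_lit 1138786387550619430837085758386339840000000)), (.negSucc (nat_lit 570660335208783427401302684832104447999999)), (.ofNat (nat_lit 1138786387550619430837085758386339840000000)), (.ofNat (nat_lit 386295814701068671003214129135616000000))⟩,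
    ⟨nat_lit 1, nat_lit 9, nat_lit 8, (.ofNat (nat_lit 16)), (.ofNat (nat_lit 2199023255552000)), (.ofNat (nat_lit 5283394277483120579086425767073974339721925685673984000000)), (.ofNat (nat_lit 0)), (.ofNat (nat_lit 0)), (.ofNat (nat_lit 2199023255551968)), (.ofNat (nat_lit 2199023255552032)), (.ofNat (nat_lit 2176930750456995838007493428615577600000000)), (.ofNat (nat_lit 1508673176494474565372906720974602240000000)), (.ofNat (nat_lit 1508673176494474565372906720974602240000000)), (.ofNat (nat_lit 2176930750456995838007493428615577600000000)), (.ofNat (nat_lit 8546367581882050243433940910080000000))⟩,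
    ⟨nat_lit 2, nat_lit 9, nat_lit 6, (.ofNat (nat_lit 16)), (.ofNat (nat_lit 1388133430067200)), (.ofNat (nat_lit 3518143281152552526157249489789205813191173665193984000000)), (.ofNat (nat_lit 0)), (.ofNat (nat_lit 0)), (.ofNat (nat_lit 1388133430067168)), (.ofNat (nat_lit 1388133430067232)), (.ofNat (nat_lit 2176930750456995838007493428615577600000000)), (.ofNat (nat_lit 2198809451466613886630684317345382400000000)), (.ofNat (nat_lit 2176930750456995838007493428615577600000000)), (.ofNat (nat_lit 2198809451466613886630684317345382400000000)), (.ofNat (nat_lit 0))⟩,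
    ⟨nat_lit 0, nat_lit 6, nat_lit 7, (.ofNat (nat_lit 16)), (.ofNat (nat_lit 1429365116108800)), (.ofNat (nat_lit 3608803902120726662595056601210951441459467973033984000000)), (.ofNat (nat_lit 0)), (.ofNat (nat_lit 0)), (.ofNat (nat_lit 1429365116108768)), (.ofNat (nat_lit 1429365116108832)), (.ofNat (nat_lit 2198809451466613886630684317345382400000000)), (.ofNat (nat_lit 3843472428923995635477111906081177600000000)), (.ofNat (nat_lit 2198809451466613886630684317345382400000000)), (.ofNat (nat_lit 3843472428923995635477111906081177600000000)), (.ofNat (nat_lit 21365918954705125608584852275200000000))⟩,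
    ⟨nat_lit 0, nat_lit 7, nat_lit 8, (.ofNat (nat_lit 16)), (.ofNat (nat_lit 1649267441664000)), (.ofNat (nat_lit 4453992427448406443664928370460276564693657776553984000000)), (.ofNat (nat_lit 0)), (.negSucc (nat_lit 2349207632881792507198567356492164911595519999999999)), (.ofNat (nat_lit 1649267441663968)), (.ofNat (nat_lit 1649267441664032)), (.ofNat (nat_lit 3843472428923995635477111906081177600000000)), (.ofNat (nat_lit 1508673176494474565372906720974602240000000)), (.ofNat (nat_lit 1508673176494474565372906720974602240000000)), (.ofNat (nat_lit 3843472428923995635477111906081177600000000)), (.ofNat (nat_lit 51278205491292301460603645460480000000))⟩]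
  es := [
    ⟨nat_lit 1, nat_lit 4, (.negSucc (nat_lit 549755813887999)), (.negSucc (nat_lit 274877906943999)), (.negSucc (nat_lit 549755813887967)), (.negSucc (nat_lit 274877906944031)), (.ofNat (nat_lit 1138786387550619430837085758386339840000000)), (.ofNat (nat_lit 34185470327528200973735763640320000000)), (.ofNat (nat_lit 18793661063054340057588538851937319292764160000000000))⟩,
    ⟨nat_lit 1, nat_lit 2, (.negSucc (nat_lit 549755813887999)), (.ofNat (nat_lit 1099511627776000)), (.negSucc (nat_lit 549755813887967)), (.ofNat (nat_lit 1099511627775968)), (.ofNat (nat_lit 0)), (.ofNat (nat_lit 0)), (.ofNat (nat_lit 0))⟩,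
    ⟨nat_lit 3, nat_lit 5, (.ofNat (nat_lit 0)), (.ofNat (nat_lit 824633720832000)), (.ofNat (nat_lit 32)), (.ofNat (nat_lit 824633720831968)), (.negSucc (nat_lit 570660335208783427401302684832104447999999)), (.negSucc (nat_lit 79481218511503067263935650463743999999)), (.ofNat (nat_lit 56146062425874840922045759820162741387132928000000000))⟩,
    ⟨nat_lit 3, nat_lit 0, (.ofNat (nat_lit 0)), (.ofNat (nat_lit 274877906944000)), (.ofNat (nat_lit 32)), (.ofNat (nat_lit 274877906943968)), (.negSucc (nat_lit 539282631510822876000876418578776063999999)), (.ofNat (nat_lit 171781988395829209893022212292608000000)), (.ofNat (nat_lit 56146062425874840922045759820162741387132928000000000))⟩,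
    ⟨nat_lit 4, nat_lit 0, (.negSucc (nat_lit 274877906943999)), (.ofNat (nat_lit 274877906944000)), (.negSucc (nat_lit 274877906943967)), (.ofNat (nat_lit 274877906943968)), (.negSucc (nat_lit 552437200492855727735569940427571199999999)), (.ofNat (nat_lit 170927351637641004868678818201600000000)), (.ofNat (nat_lit 56380983189163020172765616555811957878292480000000000))⟩,
    ⟨nat_lit 5, nat_lit 2, (.ofNat (nat_lit 824633720832000)), (.ofNat (nat_lit 1099511627776000)), (.ofNat (nat_lit 824633720832032)), (.ofNat (nat_lit 1099511627775968)), (.ofNat (nat_lit 1138786387550619430837085758386339840000000)), (.ofNat (nat_lit 34185470327528200973735763640320000000)), (.negSucc (nat_lit 37587322126108680115177077703874638585528319999999999))⟩,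
    ⟨nat_lit 7, nat_lit 8, (.ofNat (nat_lit 1388133430067200)), (.ofNat (nat_lit 1429365116108800)), (.ofNat (nat_lit 1388133430067232)), (.ofNat (nat_lit 1429365116108768)), (.ofNat (nat_lit 2198809451466613886630684317345382400000000)), (.ofNat (nat_lit 0)), (.ofNat (nat_lit 0))⟩,
    ⟨nat_lit 8, nat_lit 9, (.ofNat (nat_lit 1429365116108800)), (.ofNat (nat_lit 1649267441664000)), (.ofNat (nat_lit 1429365116108832)), (.ofNat (nat_lit 1649267441663968)), (.ofNat (nat_lit 3843472428923995635477111906081177600000000)), (.negSucc (nat_lit 10682959477352562804292426137599999999)), (.ofNat (nat_lit 15269849613731651296790687817199071925370880000000000))⟩,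
    ⟨nat_lit 9, nat_lit 6, (.ofNat (nat_lit 1649267441664000)), (.ofNat (nat_lit 2199023255552000)), (.ofNat (nat_lit 1649267441664032)), (.ofNat (nat_lit 2199023255551968)), (.ofNat (nat_lit 1508673176494474565372906720974602240000000)), (.ofNat (nat_lit 4273183790941025121716970455040000000)), (.negSucc (nat_lit 9396830531527170028794269425968659646382079999999999))⟩,
    ⟨nat_lit 7, nat_lit 6, (.ofNat (nat_lit 1388133430067200)), (.ofNat (nat_lit 2199023255552000)), (.ofNat (nat_lit 1388133430067232)), (.ofNat (nat_lit 2199023255551968)), (.ofNat (nat_lit 2176930750456995838007493428615577600000000)), (.ofNat (nat_lit 0)), (.ofNat (nat_lit 0))⟩]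

theorem ok248 : stOK 9 9 S248 = true := by decide +kernel

def S249 : SD where
  vs := [
    ⟨nat_lit 1, nat_lit 3, nat_lit 4, (.ofNat (nat_lit 16)), (.ofNat (nat_lit 274877906944000)), (.ofNat (nat_lit 9441935324559454765699640287916050509276049833984000000)), (.ofNat (nat_lit 0)), (.ofNat (nat_lit 103365135846798870316736963685655256110202880000000000)), (.ofNat (nat_lit 274877906943968)), (.ofNat (nat_lit 274877906944032)), (.negSucc (nat_lit 539282631510822876000876418578776063999999)), (.negSucc (nat_lit 552437200492855727735569940427571199999999)), (.negSucc (nat_lit 552437200492855727735569940427571199999999)), (.negSucc (nat_lit 539282631510822876000876418578776063999999)), (.ofNat (nat_lit 345273250308034829834731212767232000000))⟩,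
    ⟨nat_lit 2, nat_lit 0, nat_lit 1, (.ofNat (nat_lit 16)), (.negSucc (nat_lit 549755813887999)), (.ofNat (nat_lit 120279437284502097135725017355140140065026473984000000)), (.ofNat (nat_lit 0)), (.ofNat (nat_lit 0)), (.negSucc (nat_lit 549755813888031)), (.negSucc (nat_lit 549755813887967)), (.ofNat (nat_lit 1138786387550619430837085758386339840000000)), (.ofNat (nat_lit 0)), (.ofNat (nat_lit 0)), (.ofNat (nat_lit 1138786387550619430837085758386339840000000)), (.ofNat (nat_lit 136741881310112803894943054561280000000))⟩,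
    ⟨nat_lit 1, nat_lit 5, nat_lit 10, (.ofNat (nat_lit 16)), (.ofNat (nat_lit 1099511627776000)), (.ofNat (nat_lit 120279437284502097135725017355140140065026473984000000)), (.ofNat (nat_lit 0)), (.ofNat (nat_lit 0)), (.ofNat (nat_lit 1099511627775968)), (.ofNat (nat_lit 1099511627776032)), (.ofNat (nat_lit 1138786387550619430837085758386339840000000)), (.ofNat (nat_lit 0)), (.ofNat (nat_lit 0)), (.ofNat (nat_lit 1138786387550619430837085758386339840000000)), (.ofNat (nat_lit 136741881310112803894943054561280000000))⟩,
    ⟨nat_lit 2, nat_lit 3, nat_lit 2, (.ofNat (nat_lit 16)), (.ofNat (nat_lit 0)), (.ofNat (nat_lit 157678816325506867403934999336456850162882638249984000000)), (.ofNat (nat_lit 0)), (.ofNat (nat_lit 56146062425874840922045759820162741387132928000000000)), (.negSucc (nat_lit 31)), (.ofNat (nat_lit 32)), (.negSucc (nat_lit 539282631510822876000876418578776063999999)), (.negSucc (nat_lit 570660335208783427401302684832104447999999)), (.negSucc (nat_lit 570660335208783427401302684832104447999999)), (.negSucc (nat_lit 539282631510822876000876418578776063999999)),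 (.ofNat (nat_lit 846090390606322974099960150097920000000))⟩,
    ⟨nat_lit 0, nat_lit 0, nat_lit 4, (.ofNat (nat_lit 16)), (.negSucc (nat_lit 274877906943999)), (.ofNat (nat_lit 313147498103517590096330428135223130280344875433984000000)), (.ofNat (nat_lit 0)), (.ofNat (nat_lit 9396830531527170028794269425968659646382080000000000)), (.negSucc (nat_lit 274877906944031)), (.negSucc (nat_lit 274877906943967)), (.ofNat (nat_lit 1138786387550619430837085758386339840000000)), (.negSucc (nat_lit 552437200492855727735569940427571199999999)), (.negSucc (nat_lit 552437200492855727735569940427571199999999)), (.ofNat (nat_lit 1138786387550619430837085758386339840000000)), (.ofNat (nat_lit 341854703275282009737357636403200000000))⟩,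
    ⟨nat_lit 0, nat_lit 2, nat_lit 5, (.ofNat (nat_lit 16)), (.ofNat (nat_lit 824633720832000)), (.negSucc (nat_lit 312906939228948585902058978100512850000214822486015999999)), (.ofNat (nat_lit 0)), (.negSucc (nat_lit 9396830531527170028794269425968659646382079999999999)), (.ofNat (nat_lit 824633720831968)), (.ofNat (nat_lit 824633720832032)), (.negSucc (nat_lit 570660335208783427401302684832104447999999)), (.ofNat (nat_lit 1138786387550619430837085758386339840000000)), (.negSucc (nat_lit 570660335208783427401302684832104447999999)), (.ofNat (nat_lit 1138786387550619430837085758386339840000000)), (.ofNat (nat_lit 386295814701068671003214129135616000000))⟩,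
    ⟨nat_lit 1, nat_lit 9, nat_lit 8, (.ofNat (nat_lit 16)), (.ofNat (nat_lit 2199023255552000)), (.ofNat (nat_lit 5283394277483120579086425767073974339721925685673984000000)), (.ofNat (nat_lit 0)), (.ofNat (nat_lit 0)), (.ofNat (nat_lit 2199023255551968)), (.ofNat (nat_lit 2199023255552032)), (.ofNat (nat_lit 2176930750456995838007493428615577600000000)), (.ofNat (nat_lit 1508673176494474565372906720974602240000000)), (.ofNat (nat_lit 1508673176494474565372906720974602240000000)), (.ofNat (nat_lit 2176930750456995838007493428615577600000000)), (.ofNat (nat_lit 8546367581882050243433940910080000000))⟩,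
    ⟨nat_lit 2, nat_lit 9, nat_lit 6, (.ofNat (nat_lit 16)), (.ofNat (nat_lit 1388133430067200)), (.ofNat (nat_lit 3518143281152552526157249489789205813191173665193984000000)), (.ofNat (nat_lit 0)), (.ofNat (nat_lit 0)), (.ofNat (nat_lit 1388133430067168)), (.ofNat (nat_lit 1388133430067232)), (.ofNat (nat_lit 2176930750456995838007493428615577600000000)), (.ofNat (nat_lit 2198809451466613886630684317345382400000000)), (.ofNat (nat_lit 2176930750456995838007493428615577600000000)), (.ofNat (nat_lit 2198809451466613886630684317345382400000000)), (.ofNat (nat_lit 0))⟩,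
    ⟨nat_lit 0, nat_lit 6, nat_lit 7, (.ofNat (nat_lit 16)), (.ofNat (nat_lit 1429365116108800)), (.ofNat (nat_lit 3608803902120726662595056601210951441459467973033984000000)), (.ofNat (nat_lit 0)), (.ofNat (nat_lit 0)), (.ofNat (nat_lit 1429365116108768)), (.ofNat (nat_lit 1429365116108832)), (.ofNat (nat_lit 2198809451466613886630684317345382400000000)), (.ofNat (nat_lit 3843472428923995635477111906081177600000000)), (.ofNat (nat_lit 2198809451466613886630684317345382400000000)), (.ofNat (nat_lit 3843472428923995635477111906081177600000000)), (.ofNat (nat_lit 21365918954705125608584852275200000000))⟩,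
    ⟨nat_lit 0, nat_lit 7, nat_lit 8, (.ofNat (nat_lit 16)), (.ofNat (nat_lit 1649267441664000)), (.ofNat (nat_lit 4453992427448406443664928370460276564693657776553984000000)), (.ofNat (nat_lit 0)), (.negSucc (nat_lit 2349207632881792507198567356492164911595519999999999)), (.ofNat (nat_lit 1649267441663968)), (.ofNat (nat_lit 1649267441664032)), (.ofNat (nat_lit 3843472428923995635477111906081177600000000)), (.ofNat (nat_lit 1508673176494474565372906720974602240000000)), (.ofNat (nat_lit 1508673176494474565372906720974602240000000)), (.ofNat (nat_lit 3843472428923995635477111906081177600000000)), (.ofNat (nat_lit 51278205491292301460603645460480000000))⟩,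
    ⟨nat_lit 0, nat_lit 1, nat_lit 10, (.ofNat (nat_lit 128)), (.ofNat (nat_lit 439804651110336)), (.ofNat (nat_lit 120279437284502097135725017355140140065026473984000000)), (.ofNat (nat_lit 0)), (.ofNat (nat_lit 0)), (.ofNat (nat_lit 439804651110080)), (.ofNat (nat_lit 439804651110592)), (.ofNat (nat_lit 0)), (.ofNat (nat_lit 0)), (.ofNat (nat_lit 0)), (.ofNat (nat_lit 0)), (.ofNat (nat_lit 0))⟩]
  es := [
    ⟨nat_lit 1, nat_lit 4, (.negSucc (nat_lit 549755813887999)), (.negSucc (nat_lit 274877906943999)), (.negSucc (nat_lit 549755813887967)), (.negSucc (nat_lit 274877906944031)), (.ofNat (nat_lit 1138786387550619430837085758386339840000000)), (.ofNat (nat_lit 34185470327528200973735763640320000000)), (.ofNat (nat_lit 18793661063054340057588538851937319292764160000000000))⟩,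
    ⟨nat_lit 1, nat_lit 10, (.negSucc (nat_lit 549755813887999)), (.ofNat (nat_lit 439804651110336)), (.negSucc (nat_lit 549755813887967)), (.ofNat (nat_lit 439804651110080)), (.ofNat (nat_lit 0)), (.ofNat (nat_lit 0)), (.ofNat (nat_lit 0))⟩,
    ⟨nat_lit 3, nat_lit 5, (.ofNat (nat_lit 0)), (.ofNat (nat_lit 824633720832000)), (.ofNat (nat_lit 32)), (.ofNat (nat_lit 824633720831968)), (.negSucc (nat_lit 570660335208783427401302684832104447999999)), (.negSucc (nat_lit 79481218511503067263935650463743999999)), (.ofNat (nat_lit 56146062425874840922045759820162741387132928000000000))⟩,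
    ⟨nat_lit 3, nat_lit 0, (.ofNat (nat_lit 0)), (.ofNat (nat_lit 274877906944000)), (.ofNat (nat_lit 32)), (.ofNat (nat_lit 274877906943968)), (.negSucc (nat_lit 539282631510822876000876418578776063999999)), (.ofNat (nat_lit 171781988395829209893022212292608000000)), (.ofNat (nat_lit 56146062425874840922045759820162741387132928000000000))⟩,
    ⟨nat_lit 4, nat_lit 0, (.negSucc (nat_lit 274877906943999)), (.ofNat (nat_lit 274877906944000)), (.negSucc (nat_lit 274877906943967)), (.ofNat (nat_lit 274877906943968)), (.negSucc (nat_lit 552437200492855727735569940427571199999999)), (.ofNat (nat_lit 170927351637641004868678818201600000000)), (.ofNat (nat_lit 56380983189163020172765616555811957878292480000000000))⟩,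
    ⟨nat_lit 5, nat_lit 2, (.ofNat (nat_lit 824633720832000)), (.ofNat (nat_lit 1099511627776000)), (.ofNat (nat_lit 824633720832032)), (.ofNat (nat_lit 1099511627775968)), (.ofNat (nat_lit 1138786387550619430837085758386339840000000)), (.ofNat (nat_lit 34185470327528200973735763640320000000)), (.negSucc (nat_lit 37587322126108680115177077703874638585528319999999999))⟩,
    ⟨nat_lit 7, nat_lit 8, (.ofNat (nat_lit 1388133430067200)), (.ofNat (nat_lit 1429365116108800)), (.ofNat (nat_lit 1388133430067232)), (.ofNat (nat_lit 1429365116108768)), (.ofNat (nat_lit 2198809451466613886630684317345382400000000)), (.ofNat (nat_lit 0)), (.ofNat (nat_lit 0))⟩,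
    ⟨nat_lit 8, nat_lit 9, (.ofNat (nat_lit 1429365116108800)), (.ofNat (nat_lit 1649267441664000)), (.ofNat (nat_lit 1429365116108832)), (.ofNat (nat_lit 1649267441663968)), (.ofNat (nat_lit 3843472428923995635477111906081177600000000)), (.negSucc (nat_lit 10682959477352562804292426137599999999)), (.ofNat (nat_lit 15269849613731651296790687817199071925370880000000000))⟩,
    ⟨nat_lit 9, nat_lit 6, (.ofNat (nat_lit 1649267441664000)), (.ofNat (nat_lit 2199023255552000)), (.ofNat (nat_lit 1649267441664032)), (.ofNat (nat_lit 2199023255551968)), (.ofNat (nat_lit 1508673176494474565372906720974602240000000)), (.ofNat (nat_lit 4273183790941025121716970455040000000)), (.negSucc (nat_lit 9396830531527170028794269425968659646382079999999999))⟩,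
    ⟨nat_lit 7, nat_lit 6, (.ofNat (nat_lit 1388133430067200)), (.ofNat (nat_lit 2199023255552000)), (.ofNat (nat_lit 1388133430067232)), (.ofNat (nat_lit 2199023255551968)), (.ofNat (nat_lit 2176930750456995838007493428615577600000000)), (.ofNat (nat_lit 0)), (.ofNat (nat_lit 0))⟩,
    ⟨nat_lit 10, nat_lit 2, (.ofNat (nat_lit 439804651110336)), (.ofNat (nat_lit 1099511627776000)), (.ofNat (nat_lit 439804651110592)), (.ofNat (nat_lit 1099511627775968)), (.ofNat (nat_lit 0)), (.ofNat (nat_lit 0)), (.ofNat (nat_lit 0))⟩]

theorem ok249 : stOK 10 10 S249 = true := by decide +kernel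

end LCA.CapJ


end

section

set_option maxRecDepth 100000

namespace LCA.CapJ

open LCA

theorem f225 : inOK 10 10 11 11 [nat_lit 0, nat_lit 1, nat_lit 2, nat_lit 3, nat_lit 4, nat_lit 5, nat_lit 6, nat_lit 7, nat_lit 8, nat_lit 9, nat_lit 10] [nat_lit 0, nat_lit 1, nat_lit 2, nat_lit 3, nat_lit 4, nat_lit 5, nat_lit 6, nat_lit 7, nat_lit 8, nat_lit 9, nat_lit 10, nat_lit 0] [nat_lit 0, nat_lit 1, nat_lit 2, nat_lit 3, nat_lit 4, nat_lit 5, nat_lit 6, nat_lit 7, nat_lit 8, nat_lit 9, nat_lit 10] [nat_lit 0, nat_lit 1, nat_lit 2, nat_lit 3, nat_lit 4, nat_lit 5, nat_lit 6, nat_lit 7, nat_lit 8, nat_lit 9, nat_lit 10, nat_lit 0] 10 11 11 S222 S223 = true := by decide +kernel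

theorem f226 : inOK 11 11 12 12 [nat_lit 0, nat_lit 1, nat_lit 2, nat_lit 3, nat_lit 4, nat_lit 5, nat_lit 6, nat_lit 7, nat_lit 8, nat_lit 9, nat_lit 10, nat_lit 11] [nat_lit 0, nat_lit 1, nat_lit 2, nat_lit 3, nat_lit 4, nat_lit 5, nat_lit 6, nat_lit 7, nat_lit 8, nat_lit 9, nat_lit 10, nat_lit 11, nat_lit 0] [nat_lit 0, nat_lit 1, nat_lit 2, nat_lit 3, nat_lit 4, nat_lit 5, nat_lit 6, nat_lit 7, nat_lit 8, nat_lit 9, nat_lit 10, nat_lit 11] [nat_lit 0, nat_lit 1, nat_lit 2, nat_lit 3, nat_lit 4, nat_lit 5, nat_lit 6, nat_lit 7, nat_lit 8, nat_lit 9, nat_lit 10, nat_lit 11, nat_lit 0] 6 12 12 S223 S224 = true := by decide +kernel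

theorem f227 : goOK (.ofNat (nat_lit 32)) S224 S225 = true := by decide +kernel

theorem f228 : goOK (.ofNat (nat_lit 64)) S225 S226 = true := by decide +kernel

theorem f229 : goOK (.ofNat (nat_lit 64)) S226 S227 = true := by decide +kernel

theorem f230 : goOK (.ofNat (nat_lit 64)) S227 S228 = true := by decide +kernel

theorem f231 : goOK (.ofNat (nat_lit 64)) S228 S229 = true := by decide +kernel

theorem f232 : goOK (.ofNat (nat_lit 63)) S229 S230 = true := by decide +kernel

theorem f233 : sdOK 12 12 12 9 6 9 8 12 ⟨(.ofNat (nat_lit 1374389534720000)), (.ofNat (nat_lit 3488223772740170016785568535936921600877093122473984000000)), (.ofNat (nat_lit 2349207632881792507198567356492164911595520000000000)), (.ofNat (nat_lit 2176930750456995838007493428615577600000000)), (.ofNat (nat_lit 2187870100961804862319088872980480000000000)), (.ofNat (nat_lit 10939350504809024311595444364902400000000)), (.ofNat (nat_lit 214748364800)), (.ofNat (nat_lit 16))⟩ S231 S232 S233 S234 = true := by decide +kernel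

theorem f234 : ngOK S231 S235 = true := by decide +kernel

theorem f235 : ngOK S232 S230 = true := by decide +kernel

theorem f236 : goOK (.ofNat (nat_lit 63)) S235 S236 = true := by decide +kernel

theorem f237 : goOK (.ofNat (nat_lit 64)) S236 S237 = true := by decide +kernel

theorem f238 : goOK (.ofNat (nat_lit 64)) S237 S238 = true := by decide +kernel

theorem f239 : goOK (.ofNat (nat_lit 64)) S238 S239 = true := by decide +kernel

theorem f240 : goOK (.ofNat (nat_lit 63)) S239 S240 = true := by decide +kernel

theorem f241 : goOK (.ofNat (nat_lit 1)) S241 S242 = true := by decide +kernel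

theorem f242 : mvOK (.ofNat (nat_lit 1)) S241 S242 = true := by decide +kernel

theorem f243 : fdS 11 S241 S242 = true := by decide +kernel

theorem f244 : fdOK 11 11 12 12 [nat_lit 0, nat_lit 1, nat_lit 2, nat_lit 3, nat_lit 4, nat_lit 5, nat_lit 6, nat_lit 7, nat_lit 9, nat_lit 10, nat_lit 11, nat_lit 12] [nat_lit 0, nat_lit 1, nat_lit 2, nat_lit 3, nat_lit 4, nat_lit 5, nat_lit 6, nat_lit 7, nat_lit 0, nat_lit 8, nat_lit 9, nat_lit 10, nat_lit 11] [nat_lit 0, nat_lit 1, nat_lit 2, nat_lit 3, nat_lit 4, nat_lit 5, nat_lit 6, nat_lit 7, nat_lit 9, nat_lit 10, nat_lit 11, nat_lit 12] [nat_lit 0, nat_lit 1, nat_lit 2, nat_lit 3, nat_lit 4, nat_lit 5, nat_lit 6, nat_lit 7, nat_lit 0, nat_lit 8, nat_lit 9, nat_lit 10, nat_lit 11] 11 8 8 S241 S240 = true := by decide +kernel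

theorem f245 : goOK (.ofNat (nat_lit 64)) S242 S243 = true := by decide +kernel

theorem f246 : goOK (.ofNat (nat_lit 32)) S243 S244 = true := by decide +kernel

theorem f247 : inOK 10 10 11 11 [nat_lit 0, nat_lit 1, nat_lit 2, nat_lit 3, nat_lit 4, nat_lit 5, nat_lit 6, nat_lit 8, nat_lit 9, nat_lit 10, nat_lit 11] [nat_lit 0, nat_lit 1, nat_lit 2, nat_lit 3, nat_lit 4, nat_lit 5, nat_lit 6, nat_lit 0, nat_lit 7, nat_lit 8, nat_lit 9, nat_lit 10] [nat_lit 0, nat_lit 1, nat_lit 2, nat_lit 3, nat_lit 4, nat_lit 5, nat_lit 6, nat_lit 7, nat_lit 8, nat_lit 9, nat_lit 10] [nat_lit 0, nat_lit 1, nat_lit 2, nat_lit 3, nat_lit 4, nat_lit 5, nat_lit 6, nat_lit 7, nat_lit 8, nat_lit 9, nat_lit 10, nat_lit 0] 6 7 11 S245 S244 = true := by decide +kernel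

theorem f248 : inOK 9 9 10 10 [nat_lit 0, nat_lit 1, nat_lit 2, nat_lit 3, nat_lit 4, nat_lit 5, nat_lit 7, nat_lit 8, nat_lit 9, nat_lit 10] [nat_lit 0, nat_lit 1, nat_lit 2, nat_lit 3, nat_lit 4, nat_lit 5, nat_lit 0, nat_lit 6, nat_lit 7, nat_lit 8, nat_lit 9] [nat_lit 0, nat_lit 1, nat_lit 2, nat_lit 3, nat_lit 4, nat_lit 5, nat_lit 7, nat_lit 8, nat_lit 9, nat_lit 10] [nat_lit 0, nat_lit 1, nat_lit 2, nat_lit 3, nat_lit 4, nat_lit 5, nat_lit 0, nat_lit 6, nat_lit 7, nat_lit 8, nat_lit 9] 1 6 6 S246 S245 = true := by decide +kernel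

theorem f249 : goOK (.ofNat (nat_lit 32)) S246 S247 = true := by decide +kernel

end LCA.CapJ


end

section

set_option maxRecDepth 100000

namespace LCA.CapJ

open LCA

theorem f250 : goOK (.ofNat (nat_lit 32)) S247 S248 = true := by decide +kernel

theorem f251 : inOK 9 9 10 10 [nat_lit 0, nat_lit 1, nat_lit 2, nat_lit 3, nat_lit 4, nat_lit 5, nat_lit 6, nat_lit 7, nat_lit 8, nat_lit 9] [nat_lit 0, nat_lit 1, nat_lit 2, nat_lit 3, nat_lit 4, nat_lit 5, nat_lit 6, nat_lit 7, nat_lit 8, nat_lit 9, nat_lit 0] [nat_lit 0, nat_lit 1, nat_lit 2, nat_lit 3, nat_lit 4, nat_lit 5, nat_lit 6, nat_lit 7, nat_lit 8, nat_lit 9] [nat_lit 0, nat_lit 1, nat_lit 2, nat_lit 3, nat_lit 4, nat_lit 5, nat_lit 6, nat_lit 7, nat_lit 8, nat_lit 9, nat_lit 0] 1 10 10 S248 S249 = true := by decide +kernel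

theorem f252 : inOK 10 10 11 11 [nat_lit 0, nat_lit 1, nat_lit 2, nat_lit 3, nat_lit 4, nat_lit 5, nat_lit 6, nat_lit 7, nat_lit 8, nat_lit 9, nat_lit 10] [nat_lit 0, nat_lit 1, nat_lit 2, nat_lit 3, nat_lit 4, nat_lit 5, nat_lit 6, nat_lit 7, nat_lit 8, nat_lit 9, nat_lit 10, nat_lit 0] [nat_lit 0, nat_lit 1, nat_lit 2, nat_lit 3, nat_lit 4, nat_lit 5, nat_lit 6, nat_lit 7, nat_lit 8, nat_lit 9, nat_lit 10] [nat_lit 0, nat_lit 1, nat_lit 2, nat_lit 3, nat_lit 4, nat_lit 5, nat_lit 6, nat_lit 7, nat_lit 8, nat_lit 9, nat_lit 10, nat_lit 0] 10 11 11 S249 S250 = true := by decide +kernel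

theorem f253 : goOK (.ofNat (nat_lit 32)) S250 S251 = true := by decide +kernel

theorem f254 : goOK (.ofNat (nat_lit 63)) S251 S252 = true := by decide +kernel

theorem f255 : goOK (.ofNat (nat_lit 1)) S252 S253 = true := by decide +kernel

theorem f256 : mvOK (.ofNat (nat_lit 1)) S252 S253 = true := by decide +kernel

theorem f257 : fdS 10 S252 S253 = true := by decide +kernel

theorem f258 : fdOK 11 11 12 12 [nat_lit 0, nat_lit 1, nat_lit 2, nat_lit 3, nat_lit 4, nat_lit 5, nat_lit 6, nat_lit 7, nat_lit 8, nat_lit 9, nat_lit 10, nat_lit 11] [nat_lit 0, nat_lit 1, nat_lit 2, nat_lit 3, nat_lit 4, nat_lit 5, nat_lit 6, nat_lit 7, nat_lit 8, nat_lit 9, nat_lit 10, nat_lit 11, nat_lit 0] [nat_lit 0, nat_lit 1, nat_lit 2, nat_lit 3, nat_lit 4, nat_lit 5, nat_lit 6, nat_lit 7, nat_lit 8, nat_lit 9, nat_lit 10, nat_lit 11] [nat_lit 0, nat_lit 1, nat_lit 2, nat_lit 3, nat_lit 4, nat_lit 5, nat_lit 6, nat_lit 7, nat_lit 8, nat_lit 9, nat_lit 10, nat_lit 11, nat_lit 0] 10 12 12 S253 S254 = true := by decide +kernel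

theorem f259 : swOK 12 12 S254 S255 = true := by decide +kernel

theorem f260 : goOK (.ofNat (nat_lit 64)) S255 S256 = true := by decide +kernel

theorem f261 : goOK (.ofNat (nat_lit 64)) S256 S257 = true := by decide +kernel

theorem f262 : goOK (.ofNat (nat_lit 64)) S257 S258 = true := by decide +kernel

theorem f263 : goOK (.ofNat (nat_lit 63)) S258 S259 = true := by decide +kernel

theorem f264 : sdOK 12 12 0 12 3 12 4 10 ⟨(.ofNat (nat_lit 288621802291200)), (.ofNat (nat_lit 66161204412857453059501850543062880134838284713984000000)), (.ofNat (nat_lit 3230160495212464697398030115176726753443840000000000)), (.negSucc (nat_lit 441676276631664356580666066232934399999999)), (.negSucc (nat_lit 441676276631664356580666066232934399999999)), (.ofNat (nat_lit 6837094065505640194747152728064000000000)), (.ofNat (nat_lit 214748364800)), (.ofNat (nat_lit 16))⟩ S259 S260 S261 S262 = true := by decide +kernel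

theorem f265 : goOK (.ofNat (nat_lit 63)) S260 S263 = true := by decide +kernel

theorem f266 : goOK (.ofNat (nat_lit 64)) S263 S264 = true := by decide +kernel

theorem f267 : goOK (.ofNat (nat_lit 64)) S264 S265 = true := by decide +kernel

theorem f268 : goOK (.ofNat (nat_lit 32)) S265 S266 = true := by decide +kernel

theorem f269 : inOK 11 11 12 12 [nat_lit 0, nat_lit 1, nat_lit 2, nat_lit 3, nat_lit 4, nat_lit 5, nat_lit 6, nat_lit 7, nat_lit 8, nat_lit 9, nat_lit 10, nat_lit 11] [nat_lit 0, nat_lit 1, nat_lit 2, nat_lit 3, nat_lit 4, nat_lit 5, nat_lit 6, nat_lit 7, nat_lit 8, nat_lit 9, nat_lit 10, nat_lit 11, nat_lit 0] [nat_lit 0, nat_lit 1, nat_lit 2, nat_lit 3, nat_lit 4, nat_lit 5, nat_lit 6, nat_lit 7, nat_lit 8, nat_lit 9, nat_lit 10, nat_lit 11] [nat_lit 0, nat_lit 1, nat_lit 2, nat_lit 3, nat_lit 4, nat_lit 5, nat_lit 6, nat_lit 7, nat_lit 8, nat_lit 9, nat_lit 10, nat_lit 11, nat_lit 0] 4 12 12 S267 S266 = true := by decide +kernel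

theorem f270 : inOK 11 11 12 12 [nat_lit 0, nat_lit 1, nat_lit 2, nat_lit 3, nat_lit 4, nat_lit 5, nat_lit 6, nat_lit 7, nat_lit 8, nat_lit 9, nat_lit 10, nat_lit 11] [nat_lit 0, nat_lit 1, nat_lit 2, nat_lit 3, nat_lit 4, nat_lit 5, nat_lit 6, nat_lit 7, nat_lit 8, nat_lit 9, nat_lit 10, nat_lit 11, nat_lit 0] [nat_lit 0, nat_lit 1, nat_lit 2, nat_lit 3, nat_lit 4, nat_lit 5, nat_lit 6, nat_lit 7, nat_lit 8, nat_lit 9, nat_lit 10, nat_lit 11] [nat_lit 0, nat_lit 1, nat_lit 2, nat_lit 3, nat_lit 4, nat_lit 5, nat_lit 6, nat_lit 7, nat_lit 8, nat_lit 9, nat_lit 10, nat_lit 11, nat_lit 0] 4 12 12 S267 S268 = true := by decide +kernel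

theorem f271 : goOK (.ofNat (nat_lit 32)) S268 S269 = true := by decide +kernel

theorem f272 : goOK (.ofNat (nat_lit 64)) S269 S270 = true := by decide +kernel

theorem f273 : goOK (.ofNat (nat_lit 64)) S270 S271 = true := by decide +kernel

theorem f274 : goOK (.ofNat (nat_lit 64)) S271 S272 = true := by decide +kernel

end LCA.CapJ


end

section

set_option maxRecDepth 100000

namespace LCA.CapJ

open LCA

theorem f275 : goOK (.ofNat (nat_lit 64)) S272 S273 = true := by decide +kernel

theorem f276 : goOK (.ofNat (nat_lit 63)) S273 S274 = true := by decide +kernel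

theorem f277 : sdOK 12 12 2 7 5 6 11 9 ⟨(.ofNat (nat_lit 1102260406845440)), (.negSucc (nat_lit 38970535573868525222648435794674483988884426326015999999)), (.negSucc (nat_lit 25371442435123359077744527450115381045231615999999999)), (.ofNat (nat_lit 590724927259687312826153995704729600000000)), (.ofNat (nat_lit 590724927259687312826153995704729600000000)), (.ofNat (nat_lit 590724927259687312826153995704729600000000)), (.ofNat (nat_lit 42949672960)), (.ofNat (nat_lit 16))⟩ S274 S275 S276 S277 = true := by decide +kernel

theorem f278 : goOK (.ofNat (nat_lit 63)) S275 S278 = true := by decide +kernel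

theorem f279 : goOK (.ofNat (nat_lit 64)) S278 S279 = true := by decide +kernel

theorem f280 : goOK (.ofNat (nat_lit 64)) S279 S280 = true := by decide +kernel

theorem f281 : swOK 12 3 S280 S281 = true := by decide +kernel

theorem f282 : goOK (.ofNat (nat_lit 63)) S281 S282 = true := by decide +kernel

theorem f283 : sdOK 12 12 10 3 1 3 12 2 ⟨(.negSucc (nat_lit 2748779069439)), (.ofNat (nat_lit 120279437284502097135725017355140140065026473984000000)), (.ofNat (nat_lit 9631751294815349279514126161617876137541632000000000)), (.negSucc (nat_lit 224256685348584998387706609480499199999999)), (.negSucc (nat_lit 224256685348584998387706609480499199999999)), (.ofNat (nat_lit 224256685348584998387706609480499200000000)), (.ofNat (nat_lit 42949672960)), (.ofNat (nat_lit 16))⟩ S282 S283 S284 S285 = true := by decide +kernel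

theorem f284 : goOK (.ofNat (nat_lit 63)) S283 S286 = true := by decide +kernel

theorem f285 : goOK (.ofNat (nat_lit 64)) S286 S287 = true := by decide +kernel

theorem f286 : goOK (.ofNat (nat_lit 1)) S287 S288 = true := by decide +kernel

theorem f287 : inOK 11 11 12 12 [nat_lit 0, nat_lit 1, nat_lit 3, nat_lit 4, nat_lit 5, nat_lit 6, nat_lit 7, nat_lit 8, nat_lit 9, nat_lit 10, nat_lit 11, nat_lit 12] [nat_lit 0, nat_lit 1, nat_lit 0, nat_lit 2, nat_lit 3, nat_lit 4, nat_lit 5, nat_lit 6, nat_lit 7, nat_lit 8, nat_lit 9, nat_lit 10, nat_lit 11] [nat_lit 0, nat_lit 1, nat_lit 2, nat_lit 3, nat_lit 4, nat_lit 5, nat_lit 6, nat_lit 7, nat_lit 8, nat_lit 9, nat_lit 11, nat_lit 12] [nat_lit 0, nat_lit 1, nat_lit 2, nat_lit 3, nat_lit 4, nat_lit 5, nat_lit 6, nat_lit 7, nat_lit 8, nat_lit 9, nat_lit 0, nat_lit 10, nat_lit 11] 1 2 10 S289 S288 = true := by decide +kernel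

theorem f288 : inOK 10 10 11 11 [nat_lit 0, nat_lit 1, nat_lit 2, nat_lit 3, nat_lit 5, nat_lit 6, nat_lit 7, nat_lit 8, nat_lit 9, nat_lit 10, nat_lit 11] [nat_lit 0, nat_lit 1, nat_lit 2, nat_lit 3, nat_lit 0, nat_lit 4, nat_lit 5, nat_lit 6, nat_lit 7, nat_lit 8, nat_lit 9, nat_lit 10] [nat_lit 0, nat_lit 1, nat_lit 2, nat_lit 3, nat_lit 4, nat_lit 6, nat_lit 7, nat_lit 8, nat_lit 9, nat_lit 10, nat_lit 11] [nat_lit 0, nat_lit 1, nat_lit 2, nat_lit 3, nat_lit 4, nat_lit 0, nat_lit 5, nat_lit 6, nat_lit 7, nat_lit 8, nat_lit 9, nat_lit 10] 1 4 5 S290 S289 = true := by decide +kernel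

theorem f289 : inOK 9 9 10 10 [nat_lit 0, nat_lit 1, nat_lit 2, nat_lit 3, nat_lit 4, nat_lit 5, nat_lit 6, nat_lit 8, nat_lit 9, nat_lit 10] [nat_lit 0, nat_lit 1, nat_lit 2, nat_lit 3, nat_lit 4, nat_lit 5, nat_lit 6, nat_lit 0, nat_lit 7, nat_lit 8, nat_lit 9] [nat_lit 0, nat_lit 1, nat_lit 3, nat_lit 4, nat_lit 5, nat_lit 6, nat_lit 7, nat_lit 8, nat_lit 9, nat_lit 10] [nat_lit 0, nat_lit 1, nat_lit 0, nat_lit 2, nat_lit 3, nat_lit 4, nat_lit 5, nat_lit 6, nat_lit 7, nat_lit 8, nat_lit 9] 1 7 2 S291 S290 = true := by decide +kernel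

theorem f290 : inOK 9 9 10 10 [nat_lit 0, nat_lit 1, nat_lit 2, nat_lit 3, nat_lit 4, nat_lit 5, nat_lit 6, nat_lit 7, nat_lit 8, nat_lit 9] [nat_lit 0, nat_lit 1, nat_lit 2, nat_lit 3, nat_lit 4, nat_lit 5, nat_lit 6, nat_lit 7, nat_lit 8, nat_lit 9, nat_lit 0] [nat_lit 0, nat_lit 1, nat_lit 2, nat_lit 3, nat_lit 4, nat_lit 5, nat_lit 6, nat_lit 7, nat_lit 8, nat_lit 9] [nat_lit 0, nat_lit 1, nat_lit 2, nat_lit 3, nat_lit 4, nat_lit 5, nat_lit 6, nat_lit 7, nat_lit 8, nat_lit 9, nat_lit 0] 8 10 10 S291 S292 = true := by decide +kernel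

theorem f291 : inOK 10 10 11 11 [nat_lit 0, nat_lit 1, nat_lit 2, nat_lit 3, nat_lit 4, nat_lit 5, nat_lit 6, nat_lit 7, nat_lit 8, nat_lit 9, nat_lit 10] [nat_lit 0, nat_lit 1, nat_lit 2, nat_lit 3, nat_lit 4, nat_lit 5, nat_lit 6, nat_lit 7, nat_lit 8, nat_lit 9, nat_lit 10, nat_lit 0] [nat_lit 0, nat_lit 1, nat_lit 2, nat_lit 3, nat_lit 4, nat_lit 5, nat_lit 6, nat_lit 7, nat_lit 8, nat_lit 9, nat_lit 10] [nat_lit 0, nat_lit 1, nat_lit 2, nat_lit 3, nat_lit 4, nat_lit 5, nat_lit 6, nat_lit 7, nat_lit 8, nat_lit 9, nat_lit 10, nat_lit 0] 1 11 11 S292 S293 = true := by decide +kernel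

theorem f292 : goOK (.ofNat (nat_lit 63)) S293 S294 = true := by decide +kernel

theorem f293 : goOK (.ofNat (nat_lit 64)) S294 S295 = true := by decide +kernel

theorem f294 : goOK (.ofNat (nat_lit 64)) S295 S296 = true := by decide +kernel

theorem f295 : goOK (.ofNat (nat_lit 1)) S296 S297 = true := by decide +kernel

theorem f296 : inOK 10 10 11 11 [nat_lit 0, nat_lit 1, nat_lit 2, nat_lit 4, nat_lit 5, nat_lit 6, nat_lit 7, nat_lit 8, nat_lit 9, nat_lit 10, nat_lit 11] [nat_lit 0, nat_lit 1, nat_lit 2, nat_lit 0, nat_lit 3, nat_lit 4, nat_lit 5, nat_lit 6, nat_lit 7, nat_lit 8, nat_lit 9, nat_lit 10] [nat_lit 0, nat_lit 1, nat_lit 2, nat_lit 4, nat_lit 5, nat_lit 6, nat_lit 7, nat_lit 8, nat_lit 9, nat_lit 10, nat_lit 11] [nat_lit 0, nat_lit 1, nat_lit 2, nat_lit 0, nat_lit 3, nat_lit 4, nat_lit 5, nat_lit 6, nat_lit 7, nat_lit 8, nat_lit 9, nat_lit 10] 0 3 3 S298 S297 = true := by decide +kernel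

theorem f297 : inOK 9 9 10 10 [nat_lit 0, nat_lit 1, nat_lit 2, nat_lit 3, nat_lit 4, nat_lit 5, nat_lit 6, nat_lit 7, nat_lit 9, nat_lit 10] [nat_lit 0, nat_lit 1, nat_lit 2, nat_lit 3, nat_lit 4, nat_lit 5, nat_lit 6, nat_lit 7, nat_lit 0, nat_lit 8, nat_lit 9] [nat_lit 0, nat_lit 1, nat_lit 2, nat_lit 3, nat_lit 4, nat_lit 5, nat_lit 6, nat_lit 7, nat_lit 9, nat_lit 10] [nat_lit 0, nat_lit 1, nat_lit 2, nat_lit 3, nat_lit 4, nat_lit 5, nat_lit 6, nat_lit 7, nat_lit 0, nat_lit 8, nat_lit 9] 0 8 8 S299 S298 = true := by decide +kernel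

theorem f298 : inOK 8 8 9 9 [nat_lit 0, nat_lit 1, nat_lit 3, nat_lit 4, nat_lit 5, nat_lit 6, nat_lit 7, nat_lit 8, nat_lit 9] [nat_lit 0, nat_lit 1, nat_lit 0, nat_lit 2, nat_lit 3, nat_lit 4, nat_lit 5, nat_lit 6, nat_lit 7, nat_lit 8] [nat_lit 0, nat_lit 1, nat_lit 3, nat_lit 4, nat_lit 5, nat_lit 6, nat_lit 7, nat_lit 8, nat_lit 9] [nat_lit 0, nat_lit 1, nat_lit 0, nat_lit 2, nat_lit 3, nat_lit 4, nat_lit 5, nat_lit 6, nat_lit 7, nat_lit 8] 0 2 2 S300 S299 = true := by decide +kernel

theorem f299 : inOK 7 7 8 8 [nat_lit 0, nat_lit 1, nat_lit 2, nat_lit 3, nat_lit 4, nat_lit 6, nat_lit 7, nat_lit 8] [nat_lit 0, nat_lit 1, nat_lit 2, nat_lit 3, nat_lit 4, nat_lit 0, nat_lit 5, nat_lit 6, nat_lit 7] [nat_lit 1, nat_lit 2, nat_lit 3, nat_lit 4, nat_lit 5, nat_lit 6, nat_lit 7, nat_lit 8] [nat_lit 0, nat_lit 0, nat_lit 1, nat_lit 2, nat_lit 3, nat_lit 4, nat_lit 5, nat_lit 6, nat_lit 7] 0 5 0 S301 S300 = true := by decide +kernel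

end LCA.CapJ


end

section

set_option maxRecDepth 100000

namespace LCA.CapJ

open LCA

theorem f300 : inOK 6 6 7 7 [nat_lit 0, nat_lit 1, nat_lit 2, nat_lit 3, nat_lit 4, nat_lit 6, nat_lit 7] [nat_lit 0, nat_lit 1, nat_lit 2, nat_lit 3, nat_lit 4, nat_lit 0, nat_lit 5, nat_lit 6] [nat_lit 0, nat_lit 1, nat_lit 2, nat_lit 3, nat_lit 4, nat_lit 6, nat_lit 7] [nat_lit 0, nat_lit 1, nat_lit 2, nat_lit 3, nat_lit 4, nat_lit 0, nat_lit 5, nat_lit 6] 0 5 5 S302 S301 = true := by decide +kernel

theorem f301 : inOK 5 5 6 6 [nat_lit 0, nat_lit 1, nat_lit 3, nat_lit 4, nat_lit 5, nat_lit 6] [nat_lit 0, nat_lit 1, nat_lit 0, nat_lit 2, nat_lit 3, nat_lit 4, nat_lit 5] [nat_lit 0, nat_lit 1, nat_lit 3, nat_lit 4, nat_lit 5, nat_lit 6] [nat_lit 0, nat_lit 1, nat_lit 0, nat_lit 2, nat_lit 3, nat_lit 4, nat_lit 5] 4 2 2 S303 S302 = true := by decide +kernel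

theorem f302 : inOK 4 4 5 5 [nat_lit 0, nat_lit 1, nat_lit 3, nat_lit 4, nat_lit 5] [nat_lit 0, nat_lit 1, nat_lit 0, nat_lit 2, nat_lit 3, nat_lit 4] [nat_lit 0, nat_lit 1, nat_lit 3, nat_lit 4, nat_lit 5] [nat_lit 0, nat_lit 1, nat_lit 0, nat_lit 2, nat_lit 3, nat_lit 4] 3 2 2 S304 S303 = true := by decide +kernel

theorem f303 : inOK 3 3 4 4 [nat_lit 0, nat_lit 1, nat_lit 3, nat_lit 4] [nat_lit 0, nat_lit 1, nat_lit 0, nat_lit 2, nat_lit 3] [nat_lit 0, nat_lit 1, nat_lit 3, nat_lit 4] [nat_lit 0, nat_lit 1, nat_lit 0, nat_lit 2, nat_lit 3] 2 2 2 S305 S304 = true := by decide +kernel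

theorem f304 : swOK 3 1 S305 S306 = true := by decide +kernel

theorem f305 : goOK (.ofNat (nat_lit 63)) S306 S307 = true := by decide +kernel

theorem f306 : goOK (.ofNat (nat_lit 63)) S307 S308 = true := by decide +kernel

theorem f307 : dtOK 0 1 2 3 0 3 1 2 ⟨(.ofNat (nat_lit 681044374192128)), (.ofNat (nat_lit 120279437284502097135725017355140140065026473984000000)), (.ofNat (nat_lit 0)), (.ofNat (nat_lit 0)), (.ofNat (nat_lit 0)), (.ofNat (nat_lit 143410820386318578954390460170240000000000)), (.ofNat (nat_lit 19231252938752)), (.ofNat (nat_lit 16))⟩ S308 = true := by decide +kernel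

end LCA.CapJ


end

section

set_option maxRecDepth 100000

namespace LCA.CapJ

open LCA

theorem beg (sh : Shape) : ∃ Λ : LC.LegKnot, Λ.carrier = (S0.cb 23 23).knot sh (S0.W 23) (S0.Q 23) ∧
    AtD Λ.carrier sh 23 23 S0 1 :=
  rc_beg sh ok0 ok1 f0

theorem r1 (K : Set LC.R3) (sh : Shape) (h : AtD K sh 23 23 S0 1) :
    Rc K sh 23 23 S2 :=
  rc_go1 ok0 ok2 f1 h

theorem r2 (K : Set LC.R3) (sh : Shape) (h : Rc K sh 23 23 S2) :
    Rc K sh 23 23 S4 :=
  rc_wup ok3 ok4 ok2 f2 f3 f4 h

theorem r3 (K : Set LC.R3) (sh : Shape) (h : Rc K sh 23 23 S4) :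
    Rc K sh 24 24 S6 :=
  rc_fld ok4 ok5 ok6 f5 f6 f7 f8 h

theorem r4 (K : Set LC.R3) (sh : Shape) (h : Rc K sh 24 24 S6) :
    Rc K sh 24 24 S7 :=
  rc_go ok6 ok7 f9 h

theorem r5 (K : Set LC.R3) (sh : Shape) (h : Rc K sh 24 24 S7) :
    Rc K sh 25 25 S8 :=
  rc_ins ok7 ok8 f10 h

theorem r6 (K : Set LC.R3) (sh : Shape) (h : Rc K sh 25 25 S8) :
    Rc K sh 25 25 S9 :=
  rc_go ok8 ok9 f11 h

theorem r7 (K : Set LC.R3) (sh : Shape) (h : Rc K sh 25 25 S9) :
    Rc K sh 25 25 S10 :=
  rc_swp ok9 ok10 f12 h

theorem r8 (K : Set LC.R3) (sh : Shape) (h : Rc K sh 25 25 S10) :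
    Rc K sh 25 25 S11 :=
  rc_go ok10 ok11 f13 h

theorem r9 (K : Set LC.R3) (sh : Shape) (h : Rc K sh 25 25 S11) :
    Rc K sh 25 25 S12 :=
  rc_go ok11 ok12 f14 h

theorem r10 (K : Set LC.R3) (sh : Shape) (h : Rc K sh 25 25 S12) :
    Rc K sh 25 25 S13 :=
  rc_sdp ok12 ok13 ok14 ok15 f15 h

theorem r11 (K : Set LC.R3) (sh : Shape) (h : Rc K sh 25 25 S13) :
    Rc K sh 25 25 S16 :=
  rc_go ok13 ok16 f16 h

theorem r12 (K : Set LC.R3) (sh : Shape) (h : Rc K sh 25 25 S16) :
    Rc K sh 25 25 S17 :=
  rc_go ok16 ok17 f17 h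

theorem r13 (K : Set LC.R3) (sh : Shape) (h : Rc K sh 25 25 S17) :
    Rc K sh 25 25 S18 :=
  rc_go ok17 ok18 f18 h

theorem r14 (K : Set LC.R3) (sh : Shape) (h : Rc K sh 25 25 S18) :
    Rc K sh 24 24 S19 :=
  rc_del ok19 ok18 f19 h

theorem r15 (K : Set LC.R3) (sh : Shape) (h : Rc K sh 24 24 S19) :
    Rc K sh 23 23 S20 :=
  rc_del ok20 ok19 f20 h

theorem r16 (K : Set LC.R3) (sh : Shape) (h : Rc K sh 23 23 S20) :
    Rc K sh 23 23 S21 :=
  rc_go ok20 ok21 f21 h

theorem r17 (K : Set LC.R3) (sh : Shape) (h : Rc K sh 23 23 S21) :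
    Rc K sh 23 23 S22 :=
  rc_go ok21 ok22 f22 h

theorem r18 (K : Set LC.R3) (sh : Shape) (h : Rc K sh 23 23 S22) :
    Rc K sh 23 23 S23 :=
  rc_go ok22 ok23 f23 h

theorem r19 (K : Set LC.R3) (sh : Shape) (h : Rc K sh 23 23 S23) :
    Rc K sh 23 23 S24 :=
  rc_go ok23 ok24 f24 h

theorem r20 (K : Set LC.R3) (sh : Shape) (h : Rc K sh 23 23 S24) :
    Rc K sh 23 23 S25 :=
  rc_go ok24 ok25 f25 h

theorem r21 (K : Set LC.R3) (sh : Shape) (h : Rc K sh 23 23 S25) :
    Rc K sh 23 23 S26 :=
  rc_go ok25 ok26 f26 h

theorem r22 (K : Set LC.R3) (sh : Shape) (h : Rc K sh 23 23 S26) :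
    Rc K sh 23 23 S27 :=
  rc_go ok26 ok27 f27 h

theorem r23 (K : Set LC.R3) (sh : Shape) (h : Rc K sh 23 23 S27) :
    Rc K sh 23 23 S28 :=
  rc_go ok27 ok28 f28 h

theorem r24 (K : Set LC.R3) (sh : Shape) (h : Rc K sh 23 23 S28) :
    Rc K sh 23 23 S29 :=
  rc_go ok28 ok29 f29 h

theorem r25 (K : Set LC.R3) (sh : Shape) (h : Rc K sh 23 23 S29) :
    Rc K sh 23 23 S30 :=
  rc_go ok29 ok30 f30 h

theorem r26 (K : Set LC.R3) (sh : Shape) (h : Rc K sh 23 23 S30) :
    Rc K sh 23 23 S31 :=
  rc_go ok30 ok31 f31 h

theorem r27 (K : Set LC.R3) (sh : Shape) (h : Rc K sh 23 23 S31) :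
    Rc K sh 23 23 S32 :=
  rc_go ok31 ok32 f32 h

theorem r28 (K : Set LC.R3) (sh : Shape) (h : Rc K sh 23 23 S32) :
    Rc K sh 23 23 S33 :=
  rc_go ok32 ok33 f33 h

theorem r29 (K : Set LC.R3) (sh : Shape) (h : Rc K sh 23 23 S33) :
    Rc K sh 23 23 S34 :=
  rc_go ok33 ok34 f34 h

theorem r30 (K : Set LC.R3) (sh : Shape) (h : Rc K sh 23 23 S34) :
    Rc K sh 23 23 S35 :=
  rc_go ok34 ok35 f35 h

theorem r31 (K : Set LC.R3) (sh : Shape) (h : Rc K sh 23 23 S35) :
    Rc K sh 23 23 S36 :=
  rc_go ok35 ok36 f36 h

theorem r32 (K : Set LC.R3) (sh : Shape) (h : Rc K sh 23 23 S36) :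
    Rc K sh 23 23 S37 :=
  rc_go ok36 ok37 f37 h

theorem r33 (K : Set LC.R3) (sh : Shape) (h : Rc K sh 23 23 S37) :
    Rc K sh 23 23 S38 :=
  rc_go ok37 ok38 f38 h

theorem r34 (K : Set LC.R3) (sh : Shape) (h : Rc K sh 23 23 S38) :
    Rc K sh 23 23 S39 :=
  rc_go ok38 ok39 f39 h

theorem r35 (K : Set LC.R3) (sh : Shape) (h : Rc K sh 23 23 S39) :
    Rc K sh 23 23 S40 :=
  rc_go ok39 ok40 f40 h

theorem r36 (K : Set LC.R3) (sh : Shape) (h : Rc K sh 23 23 S40) :
    Rc K sh 23 23 S41 :=
  rc_go ok40 ok41 f41 h

theorem r37 (K : Set LC.R3) (sh : Shape) (h : Rc K sh 23 23 S41) :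
    Rc K sh 23 23 S42 :=
  rc_go ok41 ok42 f42 h

theorem r38 (K : Set LC.R3) (sh : Shape) (h : Rc K sh 23 23 S42) :
    Rc K sh 23 23 S43 :=
  rc_go ok42 ok43 f43 h

theorem r39 (K : Set LC.R3) (sh : Shape) (h : Rc K sh 23 23 S43) :
    Rc K sh 23 23 S44 :=
  rc_go ok43 ok44 f44 h

theorem r40 (K : Set LC.R3) (sh : Shape) (h : Rc K sh 23 23 S44) :
    Rc K sh 23 23 S45 :=
  rc_go ok44 ok45 f45 h

theorem r41 (K : Set LC.R3) (sh : Shape) (h : Rc K sh 23 23 S45) :
    Rc K sh 23 23 S46 :=
  rc_go ok45 ok46 f46 h

theorem r42 (K : Set LC.R3) (sh : Shape) (h : Rc K sh 23 23 S46) :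
    Rc K sh 23 23 S47 :=
  rc_go ok46 ok47 f47 h

theorem r43 (K : Set LC.R3) (sh : Shape) (h : Rc K sh 23 23 S47) :
    Rc K sh 23 23 S48 :=
  rc_go ok47 ok48 f48 h

theorem r44 (K : Set LC.R3) (sh : Shape) (h : Rc K sh 23 23 S48) :
    Rc K sh 23 23 S49 :=
  rc_sdp ok48 ok49 ok50 ok51 f49 h

theorem r45 (K : Set LC.R3) (sh : Shape) (h : Rc K sh 23 23 S49) :
    Rc K sh 23 23 S52 :=
  rc_go ok49 ok52 f50 h

theorem r46 (K : Set LC.R3) (sh : Shape) (h : Rc K sh 23 23 S52) :
    Rc K sh 23 23 S53 :=
  rc_go ok52 ok53 f51 h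

theorem r47 (K : Set LC.R3) (sh : Shape) (h : Rc K sh 23 23 S53) :
    Rc K sh 23 23 S54 :=
  rc_go ok53 ok54 f52 h

theorem r48 (K : Set LC.R3) (sh : Shape) (h : Rc K sh 23 23 S54) :
    Rc K sh 23 23 S55 :=
  rc_go ok54 ok55 f53 h

theorem r49 (K : Set LC.R3) (sh : Shape) (h : Rc K sh 23 23 S55) :
    Rc K sh 23 23 S56 :=
  rc_go ok55 ok56 f54 h

theorem r50 (K : Set LC.R3) (sh : Shape) (h : Rc K sh 23 23 S56) :
    Rc K sh 23 23 S58 :=
  rc_wup ok57 ok58 ok56 f55 f56 f57 h

theorem r51 (K : Set LC.R3) (sh : Shape) (h : Rc K sh 23 23 S58) :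
    Rc K sh 24 24 S60 :=
  rc_fld ok58 ok59 ok60 f58 f59 f60 f61 h

theorem r52 (K : Set LC.R3) (sh : Shape) (h : Rc K sh 24 24 S60) :
    Rc K sh 24 24 S61 :=
  rc_go ok60 ok61 f62 h

theorem r53 (K : Set LC.R3) (sh : Shape) (h : Rc K sh 24 24 S61) :
    Rc K sh 25 25 S62 :=
  rc_ins ok61 ok62 f63 h

theorem r54 (K : Set LC.R3) (sh : Shape) (h : Rc K sh 25 25 S62) :
    Rc K sh 25 25 S63 :=
  rc_go ok62 ok63 f64 h

theorem r55 (K : Set LC.R3) (sh : Shape) (h : Rc K sh 25 25 S63) :
    Rc K sh 25 25 S64 :=
  rc_swp ok63 ok64 f65 h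

theorem r56 (K : Set LC.R3) (sh : Shape) (h : Rc K sh 25 25 S64) :
    Rc K sh 25 25 S65 :=
  rc_go ok64 ok65 f66 h

theorem r57 (K : Set LC.R3) (sh : Shape) (h : Rc K sh 25 25 S65) :
    Rc K sh 25 25 S66 :=
  rc_go ok65 ok66 f67 h

theorem r58 (K : Set LC.R3) (sh : Shape) (h : Rc K sh 25 25 S66) :
    Rc K sh 25 25 S67 :=
  rc_sdp ok66 ok67 ok68 ok69 f68 h

theorem r59 (K : Set LC.R3) (sh : Shape) (h : Rc K sh 25 25 S67) :
    Rc K sh 25 25 S70 :=
  rc_go ok67 ok70 f69 h

theorem r60 (K : Set LC.R3) (sh : Shape) (h : Rc K sh 25 25 S70) :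
    Rc K sh 25 25 S71 :=
  rc_go ok70 ok71 f70 h

theorem r61 (K : Set LC.R3) (sh : Shape) (h : Rc K sh 25 25 S71) :
    Rc K sh 25 25 S72 :=
  rc_go ok71 ok72 f71 h

theorem r62 (K : Set LC.R3) (sh : Shape) (h : Rc K sh 25 25 S72) :
    Rc K sh 24 24 S73 :=
  rc_del ok73 ok72 f72 h

theorem r63 (K : Set LC.R3) (sh : Shape) (h : Rc K sh 24 24 S73) :
    Rc K sh 23 23 S74 :=
  rc_del ok74 ok73 f73 h

theorem r64 (K : Set LC.R3) (sh : Shape) (h : Rc K sh 23 23 S74) :
    Rc K sh 23 23 S75 :=
  rc_go ok74 ok75 f74 h

theorem r65 (K : Set LC.R3) (sh : Shape) (h : Rc K sh 23 23 S75) :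
    Rc K sh 23 23 S76 :=
  rc_go ok75 ok76 f75 h

theorem r66 (K : Set LC.R3) (sh : Shape) (h : Rc K sh 23 23 S76) :
    Rc K sh 23 23 S77 :=
  rc_go ok76 ok77 f76 h

theorem r67 (K : Set LC.R3) (sh : Shape) (h : Rc K sh 23 23 S77) :
    Rc K sh 23 23 S78 :=
  rc_go ok77 ok78 f77 h

theorem r68 (K : Set LC.R3) (sh : Shape) (h : Rc K sh 23 23 S78) :
    Rc K sh 22 22 S79 :=
  rc_del ok79 ok78 f78 h

theorem r69 (K : Set LC.R3) (sh : Shape) (h : Rc K sh 22 22 S79) :
    Rc K sh 21 21 S80 :=
  rc_del ok80 ok79 f79 h

theorem r70 (K : Set LC.R3) (sh : Shape) (h : Rc K sh 21 21 S80) :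
    Rc K sh 21 21 S81 :=
  rc_go ok80 ok81 f80 h

theorem r71 (K : Set LC.R3) (sh : Shape) (h : Rc K sh 21 21 S81) :
    Rc K sh 21 21 S82 :=
  rc_go ok81 ok82 f81 h

theorem r72 (K : Set LC.R3) (sh : Shape) (h : Rc K sh 21 21 S82) :
    Rc K sh 21 21 S83 :=
  rc_go ok82 ok83 f82 h

theorem r73 (K : Set LC.R3) (sh : Shape) (h : Rc K sh 21 21 S83) :
    Rc K sh 21 21 S84 :=
  rc_go ok83 ok84 f83 h

theorem r74 (K : Set LC.R3) (sh : Shape) (h : Rc K sh 21 21 S84) :
    Rc K sh 21 21 S85 :=
  rc_go ok84 ok85 f84 h

theorem r75 (K : Set LC.R3) (sh : Shape) (h : Rc K sh 21 21 S85) :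
    Rc K sh 21 21 S86 :=
  rc_go ok85 ok86 f85 h

theorem r76 (K : Set LC.R3) (sh : Shape) (h : Rc K sh 21 21 S86) :
    Rc K sh 21 21 S87 :=
  rc_go ok86 ok87 f86 h

theorem r77 (K : Set LC.R3) (sh : Shape) (h : Rc K sh 21 21 S87) :
    Rc K sh 21 21 S88 :=
  rc_go ok87 ok88 f87 h

theorem r78 (K : Set LC.R3) (sh : Shape) (h : Rc K sh 21 21 S88) :
    Rc K sh 21 21 S89 :=
  rc_go ok88 ok89 f88 h

theorem r79 (K : Set LC.R3) (sh : Shape) (h : Rc K sh 21 21 S89) :
    Rc K sh 21 21 S90 :=
  rc_go ok89 ok90 f89 h

theorem r80 (K : Set LC.R3) (sh : Shape) (h : Rc K sh 21 21 S90) :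
    Rc K sh 21 21 S91 :=
  rc_go ok90 ok91 f90 h

theorem r81 (K : Set LC.R3) (sh : Shape) (h : Rc K sh 21 21 S91) :
    Rc K sh 21 21 S92 :=
  rc_go ok91 ok92 f91 h

theorem r82 (K : Set LC.R3) (sh : Shape) (h : Rc K sh 21 21 S92) :
    Rc K sh 21 21 S93 :=
  rc_go ok92 ok93 f92 h

theorem r83 (K : Set LC.R3) (sh : Shape) (h : Rc K sh 21 21 S93) :
    Rc K sh 21 21 S94 :=
  rc_go ok93 ok94 f93 h

theorem r84 (K : Set LC.R3) (sh : Shape) (h : Rc K sh 21 21 S94) :
    Rc K sh 21 21 S95 :=
  rc_go ok94 ok95 f94 h

theorem r85 (K : Set LC.R3) (sh : Shape) (h : Rc K sh 21 21 S95) :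
    Rc K sh 21 21 S96 :=
  rc_go ok95 ok96 f95 h

theorem r86 (K : Set LC.R3) (sh : Shape) (h : Rc K sh 21 21 S96) :
    Rc K sh 20 20 S97 :=
  rc_del ok97 ok96 f96 h

theorem r87 (K : Set LC.R3) (sh : Shape) (h : Rc K sh 20 20 S97) :
    Rc K sh 19 19 S98 :=
  rc_del ok98 ok97 f97 h

theorem r88 (K : Set LC.R3) (sh : Shape) (h : Rc K sh 19 19 S98) :
    Rc K sh 19 19 S99 :=
  rc_go ok98 ok99 f98 h

theorem r89 (K : Set LC.R3) (sh : Shape) (h : Rc K sh 19 19 S99) :
    Rc K sh 19 19 S100 :=
  rc_go ok99 ok100 f99 h

theorem r90 (K : Set LC.R3) (sh : Shape) (h : Rc K sh 19 19 S100) :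
    Rc K sh 19 19 S101 :=
  rc_go ok100 ok101 f100 h

theorem r91 (K : Set LC.R3) (sh : Shape) (h : Rc K sh 19 19 S101) :
    Rc K sh 19 19 S102 :=
  rc_go ok101 ok102 f101 h

theorem r92 (K : Set LC.R3) (sh : Shape) (h : Rc K sh 19 19 S102) :
    Rc K sh 19 19 S103 :=
  rc_go ok102 ok103 f102 h

theorem r93 (K : Set LC.R3) (sh : Shape) (h : Rc K sh 19 19 S103) :
    Rc K sh 19 19 S104 :=
  rc_go ok103 ok104 f103 h

theorem r94 (K : Set LC.R3) (sh : Shape) (h : Rc K sh 19 19 S104) :
    Rc K sh 19 19 S105 :=
  rc_go ok104 ok105 f104 h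

theorem r95 (K : Set LC.R3) (sh : Shape) (h : Rc K sh 19 19 S105) :
    Rc K sh 19 19 S106 :=
  rc_go ok105 ok106 f105 h

theorem r96 (K : Set LC.R3) (sh : Shape) (h : Rc K sh 19 19 S106) :
    Rc K sh 19 19 S107 :=
  rc_go ok106 ok107 f106 h

theorem r97 (K : Set LC.R3) (sh : Shape) (h : Rc K sh 19 19 S107) :
    Rc K sh 19 19 S108 :=
  rc_go ok107 ok108 f107 h

theorem r98 (K : Set LC.R3) (sh : Shape) (h : Rc K sh 19 19 S108) :
    Rc K sh 19 19 S109 :=
  rc_go ok108 ok109 f108 h

theorem r99 (K : Set LC.R3) (sh : Shape) (h : Rc K sh 19 19 S109) :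
    Rc K sh 19 19 S110 :=
  rc_go ok109 ok110 f109 h

theorem r100 (K : Set LC.R3) (sh : Shape) (h : Rc K sh 19 19 S110) :
    Rc K sh 19 19 S111 :=
  rc_go ok110 ok111 f110 h

theorem r101 (K : Set LC.R3) (sh : Shape) (h : Rc K sh 19 19 S111) :
    Rc K sh 19 19 S112 :=
  rc_go ok111 ok112 f111 h

theorem r102 (K : Set LC.R3) (sh : Shape) (h : Rc K sh 19 19 S112) :
    Rc K sh 19 19 S113 :=
  rc_go ok112 ok113 f112 h

theorem r103 (K : Set LC.R3) (sh : Shape) (h : Rc K sh 19 19 S113) :
    Rc K sh 19 19 S114 :=
  rc_go ok113 ok114 f113 h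

theorem r104 (K : Set LC.R3) (sh : Shape) (h : Rc K sh 19 19 S114) :
    Rc K sh 19 19 S115 :=
  rc_go ok114 ok115 f114 h

theorem r105 (K : Set LC.R3) (sh : Shape) (h : Rc K sh 19 19 S115) :
    Rc K sh 19 19 S116 :=
  rc_go ok115 ok116 f115 h

theorem r106 (K : Set LC.R3) (sh : Shape) (h : Rc K sh 19 19 S116) :
    Rc K sh 18 18 S117 :=
  rc_del ok117 ok116 f116 h

theorem r107 (K : Set LC.R3) (sh : Shape) (h : Rc K sh 18 18 S117) :
    Rc K sh 17 17 S118 :=
  rc_del ok118 ok117 f117 h

theorem r108 (K : Set LC.R3) (sh : Shape) (h : Rc K sh 17 17 S118) :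
    Rc K sh 17 17 S119 :=
  rc_go ok118 ok119 f118 h

theorem r109 (K : Set LC.R3) (sh : Shape) (h : Rc K sh 17 17 S119) :
    Rc K sh 17 17 S120 :=
  rc_go ok119 ok120 f119 h

theorem r110 (K : Set LC.R3) (sh : Shape) (h : Rc K sh 17 17 S120) :
    Rc K sh 17 17 S121 :=
  rc_go ok120 ok121 f120 h

theorem r111 (K : Set LC.R3) (sh : Shape) (h : Rc K sh 17 17 S121) :
    Rc K sh 17 17 S122 :=
  rc_go ok121 ok122 f121 h

theorem r112 (K : Set LC.R3) (sh : Shape) (h : Rc K sh 17 17 S122) :
    Rc K sh 17 17 S123 :=
  rc_go ok122 ok123 f122 h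

theorem r113 (K : Set LC.R3) (sh : Shape) (h : Rc K sh 17 17 S123) :
    Rc K sh 17 17 S124 :=
  rc_go ok123 ok124 f123 h

theorem r114 (K : Set LC.R3) (sh : Shape) (h : Rc K sh 17 17 S124) :
    Rc K sh 17 17 S125 :=
  rc_go ok124 ok125 f124 h

theorem r115 (K : Set LC.R3) (sh : Shape) (h : Rc K sh 17 17 S125) :
    Rc K sh 17 17 S126 :=
  rc_go ok125 ok126 f125 h

theorem r116 (K : Set LC.R3) (sh : Shape) (h : Rc K sh 17 17 S126) :
    Rc K sh 17 17 S127 :=
  rc_go ok126 ok127 f126 h

theorem r117 (K : Set LC.R3) (sh : Shape) (h : Rc K sh 17 17 S127) :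
    Rc K sh 17 17 S128 :=
  rc_go ok127 ok128 f127 h

theorem r118 (K : Set LC.R3) (sh : Shape) (h : Rc K sh 17 17 S128) :
    Rc K sh 17 17 S129 :=
  rc_go ok128 ok129 f128 h

theorem r119 (K : Set LC.R3) (sh : Shape) (h : Rc K sh 17 17 S129) :
    Rc K sh 17 17 S130 :=
  rc_go ok129 ok130 f129 h

theorem r120 (K : Set LC.R3) (sh : Shape) (h : Rc K sh 17 17 S130) :
    Rc K sh 17 17 S131 :=
  rc_go ok130 ok131 f130 h

theorem r121 (K : Set LC.R3) (sh : Shape) (h : Rc K sh 17 17 S131) :
    Rc K sh 17 17 S132 :=
  rc_go ok131 ok132 f131 h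

theorem r122 (K : Set LC.R3) (sh : Shape) (h : Rc K sh 17 17 S132) :
    Rc K sh 16 16 S133 :=
  rc_del ok133 ok132 f132 h

theorem r123 (K : Set LC.R3) (sh : Shape) (h : Rc K sh 16 16 S133) :
    Rc K sh 15 15 S134 :=
  rc_del ok134 ok133 f133 h

theorem r124 (K : Set LC.R3) (sh : Shape) (h : Rc K sh 15 15 S134) :
    Rc K sh 15 15 S135 :=
  rc_go ok134 ok135 f134 h

theorem r125 (K : Set LC.R3) (sh : Shape) (h : Rc K sh 15 15 S135) :
    Rc K sh 15 15 S136 :=
  rc_go ok135 ok136 f135 h

theorem r126 (K : Set LC.R3) (sh : Shape) (h : Rc K sh 15 15 S136) :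
    Rc K sh 15 15 S137 :=
  rc_go ok136 ok137 f136 h

theorem r127 (K : Set LC.R3) (sh : Shape) (h : Rc K sh 15 15 S137) :
    Rc K sh 15 15 S138 :=
  rc_go ok137 ok138 f137 h

theorem r128 (K : Set LC.R3) (sh : Shape) (h : Rc K sh 15 15 S138) :
    Rc K sh 15 15 S139 :=
  rc_go ok138 ok139 f138 h

theorem r129 (K : Set LC.R3) (sh : Shape) (h : Rc K sh 15 15 S139) :
    Rc K sh 15 15 S140 :=
  rc_go ok139 ok140 f139 h

theorem r130 (K : Set LC.R3) (sh : Shape) (h : Rc K sh 15 15 S140) :
    Rc K sh 15 15 S141 :=
  rc_go ok140 ok141 f140 h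

theorem r131 (K : Set LC.R3) (sh : Shape) (h : Rc K sh 15 15 S141) :
    Rc K sh 15 15 S142 :=
  rc_go ok141 ok142 f141 h

theorem r132 (K : Set LC.R3) (sh : Shape) (h : Rc K sh 15 15 S142) :
    Rc K sh 15 15 S143 :=
  rc_go ok142 ok143 f142 h

theorem r133 (K : Set LC.R3) (sh : Shape) (h : Rc K sh 15 15 S143) :
    Rc K sh 15 15 S144 :=
  rc_go ok143 ok144 f143 h

theorem r134 (K : Set LC.R3) (sh : Shape) (h : Rc K sh 15 15 S144) :
    Rc K sh 15 15 S145 :=
  rc_go ok144 ok145 f144 h

theorem r135 (K : Set LC.R3) (sh : Shape) (h : Rc K sh 15 15 S145) :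
    Rc K sh 15 15 S146 :=
  rc_go ok145 ok146 f145 h

theorem r136 (K : Set LC.R3) (sh : Shape) (h : Rc K sh 15 15 S146) :
    Rc K sh 15 15 S147 :=
  rc_go ok146 ok147 f146 h

theorem r137 (K : Set LC.R3) (sh : Shape) (h : Rc K sh 15 15 S147) :
    Rc K sh 15 15 S148 :=
  rc_go ok147 ok148 f147 h

theorem r138 (K : Set LC.R3) (sh : Shape) (h : Rc K sh 15 15 S148) :
    Rc K sh 14 14 S149 :=
  rc_del ok149 ok148 f148 h

theorem r139 (K : Set LC.R3) (sh : Shape) (h : Rc K sh 14 14 S149) :
    Rc K sh 13 13 S150 :=
  rc_del ok150 ok149 f149 h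

theorem r140 (K : Set LC.R3) (sh : Shape) (h : Rc K sh 13 13 S150) :
    Rc K sh 13 13 S151 :=
  rc_go ok150 ok151 f150 h

theorem r141 (K : Set LC.R3) (sh : Shape) (h : Rc K sh 13 13 S151) :
    Rc K sh 13 13 S152 :=
  rc_go ok151 ok152 f151 h

theorem r142 (K : Set LC.R3) (sh : Shape) (h : Rc K sh 13 13 S152) :
    Rc K sh 13 13 S153 :=
  rc_go ok152 ok153 f152 h

theorem r143 (K : Set LC.R3) (sh : Shape) (h : Rc K sh 13 13 S153) :
    Rc K sh 13 13 S154 :=
  rc_go ok153 ok154 f153 h

theorem r144 (K : Set LC.R3) (sh : Shape) (h : Rc K sh 13 13 S154) :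
    Rc K sh 13 13 S155 :=
  rc_go ok154 ok155 f154 h

theorem r145 (K : Set LC.R3) (sh : Shape) (h : Rc K sh 13 13 S155) :
    Rc K sh 13 13 S156 :=
  rc_go ok155 ok156 f155 h

theorem r146 (K : Set LC.R3) (sh : Shape) (h : Rc K sh 13 13 S156) :
    Rc K sh 12 12 S157 :=
  rc_del ok157 ok156 f156 h

theorem r147 (K : Set LC.R3) (sh : Shape) (h : Rc K sh 12 12 S157) :
    Rc K sh 11 11 S158 :=
  rc_del ok158 ok157 f157 h

theorem r148 (K : Set LC.R3) (sh : Shape) (h : Rc K sh 11 11 S158) :
    Rc K sh 11 11 S159 :=
  rc_go ok158 ok159 f158 h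

theorem r149 (K : Set LC.R3) (sh : Shape) (h : Rc K sh 11 11 S159) :
    Rc K sh 11 11 S160 :=
  rc_go ok159 ok160 f159 h

theorem r150 (K : Set LC.R3) (sh : Shape) (h : Rc K sh 11 11 S160) :
    Rc K sh 11 11 S161 :=
  rc_go ok160 ok161 f160 h

theorem r151 (K : Set LC.R3) (sh : Shape) (h : Rc K sh 11 11 S161) :
    Rc K sh 11 11 S162 :=
  rc_sdp ok161 ok162 ok163 ok164 f161 h

theorem r152 (K : Set LC.R3) (sh : Shape) (h : Rc K sh 11 11 S162) :
    Rc K sh 11 11 S165 :=
  rc_go ok162 ok165 f162 h

theorem r153 (K : Set LC.R3) (sh : Shape) (h : Rc K sh 11 11 S165) :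
    Rc K sh 11 11 S166 :=
  rc_go ok165 ok166 f163 h

theorem r154 (K : Set LC.R3) (sh : Shape) (h : Rc K sh 11 11 S166) :
    Rc K sh 11 11 S167 :=
  rc_go ok166 ok167 f164 h

theorem r155 (K : Set LC.R3) (sh : Shape) (h : Rc K sh 11 11 S167) :
    Rc K sh 11 11 S168 :=
  rc_go ok167 ok168 f165 h

theorem r156 (K : Set LC.R3) (sh : Shape) (h : Rc K sh 11 11 S168) :
    Rc K sh 11 11 S169 :=
  rc_go ok168 ok169 f166 h

theorem r157 (K : Set LC.R3) (sh : Shape) (h : Rc K sh 11 11 S169) :
    Rc K sh 11 11 S170 :=
  rc_go ok169 ok170 f167 h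

theorem r158 (K : Set LC.R3) (sh : Shape) (h : Rc K sh 11 11 S170) :
    Rc K sh 11 11 S171 :=
  rc_go ok170 ok171 f168 h

theorem r159 (K : Set LC.R3) (sh : Shape) (h : Rc K sh 11 11 S171) :
    Rc K sh 10 10 S172 :=
  rc_del ok172 ok171 f169 h

theorem r160 (K : Set LC.R3) (sh : Shape) (h : Rc K sh 10 10 S172) :
    Rc K sh 9 9 S173 :=
  rc_del ok173 ok172 f170 h

theorem r161 (K : Set LC.R3) (sh : Shape) (h : Rc K sh 9 9 S173) :
    Rc K sh 9 9 S174 :=
  rc_go ok173 ok174 f171 h

theorem r162 (K : Set LC.R3) (sh : Shape) (h : Rc K sh 9 9 S174) :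
    Rc K sh 9 9 S175 :=
  rc_go ok174 ok175 f172 h

theorem r163 (K : Set LC.R3) (sh : Shape) (h : Rc K sh 9 9 S175) :
    Rc K sh 9 9 S176 :=
  rc_go ok175 ok176 f173 h

theorem r164 (K : Set LC.R3) (sh : Shape) (h : Rc K sh 9 9 S176) :
    Rc K sh 9 9 S177 :=
  rc_go ok176 ok177 f174 h

theorem r165 (K : Set LC.R3) (sh : Shape) (h : Rc K sh 9 9 S177) :
    Rc K sh 8 8 S178 :=
  rc_del ok178 ok177 f175 h

theorem r166 (K : Set LC.R3) (sh : Shape) (h : Rc K sh 8 8 S178) :
    Rc K sh 7 7 S179 :=
  rc_del ok179 ok178 f176 h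

theorem r167 (K : Set LC.R3) (sh : Shape) (h : Rc K sh 7 7 S179) :
    Rc K sh 7 7 S180 :=
  rc_go ok179 ok180 f177 h

theorem r168 (K : Set LC.R3) (sh : Shape) (h : Rc K sh 7 7 S180) :
    Rc K sh 7 7 S181 :=
  rc_go ok180 ok181 f178 h

theorem r169 (K : Set LC.R3) (sh : Shape) (h : Rc K sh 7 7 S181) :
    Rc K sh 7 7 S182 :=
  rc_go ok181 ok182 f179 h

theorem r170 (K : Set LC.R3) (sh : Shape) (h : Rc K sh 7 7 S182) :
    Rc K sh 7 7 S184 :=
  rc_wup ok183 ok184 ok182 f180 f181 f182 h

theorem r171 (K : Set LC.R3) (sh : Shape) (h : Rc K sh 7 7 S184) :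
    Rc K sh 7 7 S185 :=
  rc_go ok184 ok185 f183 h

theorem r172 (K : Set LC.R3) (sh : Shape) (h : Rc K sh 7 7 S185) :
    Rc K sh 7 7 S186 :=
  rc_swp ok185 ok186 f184 h

theorem r173 (K : Set LC.R3) (sh : Shape) (h : Rc K sh 7 7 S186) :
    Rc K sh 7 7 S187 :=
  rc_swp ok186 ok187 f185 h

theorem r174 (K : Set LC.R3) (sh : Shape) (h : Rc K sh 7 7 S187) :
    Rc K sh 7 7 S188 :=
  rc_swp ok187 ok188 f186 h

theorem r175 (K : Set LC.R3) (sh : Shape) (h : Rc K sh 7 7 S188) :
    Rc K sh 7 7 S189 :=
  rc_go ok188 ok189 f187 h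

theorem r176 (K : Set LC.R3) (sh : Shape) (h : Rc K sh 7 7 S189) :
    Rc K sh 8 8 S190 :=
  rc_ins ok189 ok190 f188 h

theorem r177 (K : Set LC.R3) (sh : Shape) (h : Rc K sh 8 8 S190) :
    Rc K sh 8 8 S191 :=
  rc_go ok190 ok191 f189 h

theorem r178 (K : Set LC.R3) (sh : Shape) (h : Rc K sh 8 8 S191) :
    Rc K sh 8 8 S192 :=
  rc_go ok191 ok192 f190 h

theorem r179 (K : Set LC.R3) (sh : Shape) (h : Rc K sh 8 8 S192) :
    Rc K sh 8 8 S193 :=
  rc_go ok192 ok193 f191 h

theorem r180 (K : Set LC.R3) (sh : Shape) (h : Rc K sh 8 8 S193) :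
    Rc K sh 7 7 S194 :=
  rc_del ok194 ok193 f192 h

theorem r181 (K : Set LC.R3) (sh : Shape) (h : Rc K sh 7 7 S194) :
    Rc K sh 6 6 S195 :=
  rc_del ok195 ok194 f193 h

theorem r182 (K : Set LC.R3) (sh : Shape) (h : Rc K sh 6 6 S195) :
    Rc K sh 6 6 S196 :=
  rc_go ok195 ok196 f194 h

theorem r183 (K : Set LC.R3) (sh : Shape) (h : Rc K sh 6 6 S196) :
    Rc K sh 6 6 S197 :=
  rc_go ok196 ok197 f195 h

theorem r184 (K : Set LC.R3) (sh : Shape) (h : Rc K sh 6 6 S197) :
    Rc K sh 6 6 S198 :=
  rc_go ok197 ok198 f196 h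

theorem r185 (K : Set LC.R3) (sh : Shape) (h : Rc K sh 6 6 S198) :
    Rc K sh 7 7 S199 :=
  rc_ins ok198 ok199 f197 h

theorem r186 (K : Set LC.R3) (sh : Shape) (h : Rc K sh 7 7 S199) :
    Rc K sh 7 7 S200 :=
  rc_go ok199 ok200 f198 h

theorem r187 (K : Set LC.R3) (sh : Shape) (h : Rc K sh 7 7 S200) :
    Rc K sh 7 7 S201 :=
  rc_go ok200 ok201 f199 h

theorem r188 (K : Set LC.R3) (sh : Shape) (h : Rc K sh 7 7 S201) :
    Rc K sh 7 7 S202 :=
  rc_go ok201 ok202 f200 h

theorem r189 (K : Set LC.R3) (sh : Shape) (h : Rc K sh 7 7 S202) :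
    Rc K sh 7 7 S203 :=
  rc_go ok202 ok203 f201 h

theorem r190 (K : Set LC.R3) (sh : Shape) (h : Rc K sh 7 7 S203) :
    Rc K sh 6 6 S205 :=
  rc_unf ok204 ok205 ok203 f202 f203 f204 f205 h

theorem r191 (K : Set LC.R3) (sh : Shape) (h : Rc K sh 6 6 S205) :
    Rc K sh 6 6 S206 :=
  rc_go ok205 ok206 f206 h

theorem r192 (K : Set LC.R3) (sh : Shape) (h : Rc K sh 6 6 S206) :
    Rc K sh 6 6 S207 :=
  rc_go ok206 ok207 f207 h

theorem r193 (K : Set LC.R3) (sh : Shape) (h : Rc K sh 6 6 S207) :
    Rc K sh 5 5 S208 :=
  rc_del ok208 ok207 f208 h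

theorem r194 (K : Set LC.R3) (sh : Shape) (h : Rc K sh 5 5 S208) :
    Rc K sh 5 5 S209 :=
  rc_go ok208 ok209 f209 h

theorem r195 (K : Set LC.R3) (sh : Shape) (h : Rc K sh 5 5 S209) :
    Rc K sh 5 5 S210 :=
  rc_go ok209 ok210 f210 h

theorem r196 (K : Set LC.R3) (sh : Shape) (h : Rc K sh 5 5 S210) :
    Rc K sh 6 6 S211 :=
  rc_ins ok210 ok211 f211 h

theorem r197 (K : Set LC.R3) (sh : Shape) (h : Rc K sh 6 6 S211) :
    Rc K sh 7 7 S212 :=
  rc_ins ok211 ok212 f212 h

theorem r198 (K : Set LC.R3) (sh : Shape) (h : Rc K sh 7 7 S212) :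
    Rc K sh 7 7 S213 :=
  rc_go ok212 ok213 f213 h

theorem r199 (K : Set LC.R3) (sh : Shape) (h : Rc K sh 7 7 S213) :
    Rc K sh 7 7 S214 :=
  rc_go ok213 ok214 f214 h

theorem r200 (K : Set LC.R3) (sh : Shape) (h : Rc K sh 7 7 S214) :
    Rc K sh 8 8 S216 :=
  rc_fld ok214 ok215 ok216 f215 f216 f217 f218 h

theorem r201 (K : Set LC.R3) (sh : Shape) (h : Rc K sh 8 8 S216) :
    Rc K sh 8 8 S217 :=
  rc_go ok216 ok217 f219 h

theorem r202 (K : Set LC.R3) (sh : Shape) (h : Rc K sh 8 8 S217) :
    Rc K sh 8 8 S218 :=
  rc_go ok217 ok218 f220 h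

theorem r203 (K : Set LC.R3) (sh : Shape) (h : Rc K sh 8 8 S218) :
    Rc K sh 8 8 S219 :=
  rc_go ok218 ok219 f221 h

theorem r204 (K : Set LC.R3) (sh : Shape) (h : Rc K sh 8 8 S219) :
    Rc K sh 8 8 S220 :=
  rc_go ok219 ok220 f222 h

theorem r205 (K : Set LC.R3) (sh : Shape) (h : Rc K sh 8 8 S220) :
    Rc K sh 9 9 S221 :=
  rc_ins ok220 ok221 f223 h

theorem r206 (K : Set LC.R3) (sh : Shape) (h : Rc K sh 9 9 S221) :
    Rc K sh 10 10 S222 :=
  rc_ins ok221 ok222 f224 h

theorem r207 (K : Set LC.R3) (sh : Shape) (h : Rc K sh 10 10 S222) :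
    Rc K sh 11 11 S223 :=
  rc_ins ok222 ok223 f225 h

theorem r208 (K : Set LC.R3) (sh : Shape) (h : Rc K sh 11 11 S223) :
    Rc K sh 12 12 S224 :=
  rc_ins ok223 ok224 f226 h

theorem r209 (K : Set LC.R3) (sh : Shape) (h : Rc K sh 12 12 S224) :
    Rc K sh 12 12 S225 :=
  rc_go ok224 ok225 f227 h

theorem r210 (K : Set LC.R3) (sh : Shape) (h : Rc K sh 12 12 S225) :
    Rc K sh 12 12 S226 :=
  rc_go ok225 ok226 f228 h

theorem r211 (K : Set LC.R3) (sh : Shape) (h : Rc K sh 12 12 S226) :
    Rc K sh 12 12 S227 :=
  rc_go ok226 ok227 f229 h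

theorem r212 (K : Set LC.R3) (sh : Shape) (h : Rc K sh 12 12 S227) :
    Rc K sh 12 12 S228 :=
  rc_go ok227 ok228 f230 h

theorem r213 (K : Set LC.R3) (sh : Shape) (h : Rc K sh 12 12 S228) :
    Rc K sh 12 12 S229 :=
  rc_go ok228 ok229 f231 h

theorem r214 (K : Set LC.R3) (sh : Shape) (h : Rc K sh 12 12 S229) :
    Rc K sh 12 12 S230 :=
  rc_go ok229 ok230 f232 h

theorem r215 (K : Set LC.R3) (sh : Shape) (h : Rc K sh 12 12 S230) :
    Rc K sh 12 12 S235 :=
  rc_sdm ok231 ok232 ok233 ok234 ok235 ok230 f233 f234 f235 h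

theorem r216 (K : Set LC.R3) (sh : Shape) (h : Rc K sh 12 12 S235) :
    Rc K sh 12 12 S236 :=
  rc_go ok235 ok236 f236 h

theorem r217 (K : Set LC.R3) (sh : Shape) (h : Rc K sh 12 12 S236) :
    Rc K sh 12 12 S237 :=
  rc_go ok236 ok237 f237 h

theorem r218 (K : Set LC.R3) (sh : Shape) (h : Rc K sh 12 12 S237) :
    Rc K sh 12 12 S238 :=
  rc_go ok237 ok238 f238 h

theorem r219 (K : Set LC.R3) (sh : Shape) (h : Rc K sh 12 12 S238) :
    Rc K sh 12 12 S239 :=
  rc_go ok238 ok239 f239 h

theorem r220 (K : Set LC.R3) (sh : Shape) (h : Rc K sh 12 12 S239) :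
    Rc K sh 12 12 S240 :=
  rc_go ok239 ok240 f240 h

theorem r221 (K : Set LC.R3) (sh : Shape) (h : Rc K sh 12 12 S240) :
    Rc K sh 11 11 S242 :=
  rc_unf ok241 ok242 ok240 f241 f242 f243 f244 h

theorem r222 (K : Set LC.R3) (sh : Shape) (h : Rc K sh 11 11 S242) :
    Rc K sh 11 11 S243 :=
  rc_go ok242 ok243 f245 h

theorem r223 (K : Set LC.R3) (sh : Shape) (h : Rc K sh 11 11 S243) :
    Rc K sh 11 11 S244 :=
  rc_go ok243 ok244 f246 h

theorem r224 (K : Set LC.R3) (sh : Shape) (h : Rc K sh 11 11 S244) :
    Rc K sh 10 10 S245 :=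
  rc_del ok245 ok244 f247 h

theorem r225 (K : Set LC.R3) (sh : Shape) (h : Rc K sh 10 10 S245) :
    Rc K sh 9 9 S246 :=
  rc_del ok246 ok245 f248 h

theorem r226 (K : Set LC.R3) (sh : Shape) (h : Rc K sh 9 9 S246) :
    Rc K sh 9 9 S247 :=
  rc_go ok246 ok247 f249 h

theorem r227 (K : Set LC.R3) (sh : Shape) (h : Rc K sh 9 9 S247) :
    Rc K sh 9 9 S248 :=
  rc_go ok247 ok248 f250 h

theorem r228 (K : Set LC.R3) (sh : Shape) (h : Rc K sh 9 9 S248) :
    Rc K sh 10 10 S249 :=
  rc_ins ok248 ok249 f251 h

theorem r229 (K : Set LC.R3) (sh : Shape) (h : Rc K sh 10 10 S249) :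
    Rc K sh 11 11 S250 :=
  rc_ins ok249 ok250 f252 h

theorem r230 (K : Set LC.R3) (sh : Shape) (h : Rc K sh 11 11 S250) :
    Rc K sh 11 11 S251 :=
  rc_go ok250 ok251 f253 h

theorem r231 (K : Set LC.R3) (sh : Shape) (h : Rc K sh 11 11 S251) :
    Rc K sh 11 11 S252 :=
  rc_go ok251 ok252 f254 h

theorem r232 (K : Set LC.R3) (sh : Shape) (h : Rc K sh 11 11 S252) :
    Rc K sh 12 12 S254 :=
  rc_fld ok252 ok253 ok254 f255 f256 f257 f258 h

theorem r233 (K : Set LC.R3) (sh : Shape) (h : Rc K sh 12 12 S254) :
    Rc K sh 12 12 S255 :=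
  rc_swp ok254 ok255 f259 h

theorem r234 (K : Set LC.R3) (sh : Shape) (h : Rc K sh 12 12 S255) :
    Rc K sh 12 12 S256 :=
  rc_go ok255 ok256 f260 h

theorem r235 (K : Set LC.R3) (sh : Shape) (h : Rc K sh 12 12 S256) :
    Rc K sh 12 12 S257 :=
  rc_go ok256 ok257 f261 h

theorem r236 (K : Set LC.R3) (sh : Shape) (h : Rc K sh 12 12 S257) :
    Rc K sh 12 12 S258 :=
  rc_go ok257 ok258 f262 h

theorem r237 (K : Set LC.R3) (sh : Shape) (h : Rc K sh 12 12 S258) :
    Rc K sh 12 12 S259 :=
  rc_go ok258 ok259 f263 h

theorem r238 (K : Set LC.R3) (sh : Shape) (h : Rc K sh 12 12 S259) :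
    Rc K sh 12 12 S260 :=
  rc_sdp ok259 ok260 ok261 ok262 f264 h

theorem r239 (K : Set LC.R3) (sh : Shape) (h : Rc K sh 12 12 S260) :
    Rc K sh 12 12 S263 :=
  rc_go ok260 ok263 f265 h

theorem r240 (K : Set LC.R3) (sh : Shape) (h : Rc K sh 12 12 S263) :
    Rc K sh 12 12 S264 :=
  rc_go ok263 ok264 f266 h

theorem r241 (K : Set LC.R3) (sh : Shape) (h : Rc K sh 12 12 S264) :
    Rc K sh 12 12 S265 :=
  rc_go ok264 ok265 f267 h

theorem r242 (K : Set LC.R3) (sh : Shape) (h : Rc K sh 12 12 S265) :
    Rc K sh 12 12 S266 :=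
  rc_go ok265 ok266 f268 h

theorem r243 (K : Set LC.R3) (sh : Shape) (h : Rc K sh 12 12 S266) :
    Rc K sh 11 11 S267 :=
  rc_del ok267 ok266 f269 h

theorem r244 (K : Set LC.R3) (sh : Shape) (h : Rc K sh 11 11 S267) :
    Rc K sh 12 12 S268 :=
  rc_ins ok267 ok268 f270 h

theorem r245 (K : Set LC.R3) (sh : Shape) (h : Rc K sh 12 12 S268) :
    Rc K sh 12 12 S269 :=
  rc_go ok268 ok269 f271 h

theorem r246 (K : Set LC.R3) (sh : Shape) (h : Rc K sh 12 12 S269) :
    Rc K sh 12 12 S270 :=
  rc_go ok269 ok270 f272 h

theorem r247 (K : Set LC.R3) (sh : Shape) (h : Rc K sh 12 12 S270) :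
    Rc K sh 12 12 S271 :=
  rc_go ok270 ok271 f273 h

theorem r248 (K : Set LC.R3) (sh : Shape) (h : Rc K sh 12 12 S271) :
    Rc K sh 12 12 S272 :=
  rc_go ok271 ok272 f274 h

theorem r249 (K : Set LC.R3) (sh : Shape) (h : Rc K sh 12 12 S272) :
    Rc K sh 12 12 S273 :=
  rc_go ok272 ok273 f275 h

theorem r250 (K : Set LC.R3) (sh : Shape) (h : Rc K sh 12 12 S273) :
    Rc K sh 12 12 S274 :=
  rc_go ok273 ok274 f276 h

theorem r251 (K : Set LC.R3) (sh : Shape) (h : Rc K sh 12 12 S274) :
    Rc K sh 12 12 S275 :=
  rc_sdp ok274 ok275 ok276 ok277 f277 h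

theorem r252 (K : Set LC.R3) (sh : Shape) (h : Rc K sh 12 12 S275) :
    Rc K sh 12 12 S278 :=
  rc_go ok275 ok278 f278 h

theorem r253 (K : Set LC.R3) (sh : Shape) (h : Rc K sh 12 12 S278) :
    Rc K sh 12 12 S279 :=
  rc_go ok278 ok279 f279 h

theorem r254 (K : Set LC.R3) (sh : Shape) (h : Rc K sh 12 12 S279) :
    Rc K sh 12 12 S280 :=
  rc_go ok279 ok280 f280 h

theorem r255 (K : Set LC.R3) (sh : Shape) (h : Rc K sh 12 12 S280) :
    Rc K sh 12 12 S281 :=
  rc_swp ok280 ok281 f281 h

theorem r256 (K : Set LC.R3) (sh : Shape) (h : Rc K sh 12 12 S281) :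
    Rc K sh 12 12 S282 :=
  rc_go ok281 ok282 f282 h

theorem r257 (K : Set LC.R3) (sh : Shape) (h : Rc K sh 12 12 S282) :
    Rc K sh 12 12 S283 :=
  rc_sdp ok282 ok283 ok284 ok285 f283 h

theorem r258 (K : Set LC.R3) (sh : Shape) (h : Rc K sh 12 12 S283) :
    Rc K sh 12 12 S286 :=
  rc_go ok283 ok286 f284 h

theorem r259 (K : Set LC.R3) (sh : Shape) (h : Rc K sh 12 12 S286) :
    Rc K sh 12 12 S287 :=
  rc_go ok286 ok287 f285 h

theorem r260 (K : Set LC.R3) (sh : Shape) (h : Rc K sh 12 12 S287) :
    Rc K sh 12 12 S288 :=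
  rc_go ok287 ok288 f286 h

theorem r261 (K : Set LC.R3) (sh : Shape) (h : Rc K sh 12 12 S288) :
    Rc K sh 11 11 S289 :=
  rc_del ok289 ok288 f287 h

theorem r262 (K : Set LC.R3) (sh : Shape) (h : Rc K sh 11 11 S289) :
    Rc K sh 10 10 S290 :=
  rc_del ok290 ok289 f288 h

theorem r263 (K : Set LC.R3) (sh : Shape) (h : Rc K sh 10 10 S290) :
    Rc K sh 9 9 S291 :=
  rc_del ok291 ok290 f289 h

theorem r264 (K : Set LC.R3) (sh : Shape) (h : Rc K sh 9 9 S291) :
    Rc K sh 10 10 S292 :=
  rc_ins ok291 ok292 f290 h

theorem r265 (K : Set LC.R3) (sh : Shape) (h : Rc K sh 10 10 S292) :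
    Rc K sh 11 11 S293 :=
  rc_ins ok292 ok293 f291 h

theorem r266 (K : Set LC.R3) (sh : Shape) (h : Rc K sh 11 11 S293) :
    Rc K sh 11 11 S294 :=
  rc_go ok293 ok294 f292 h

theorem r267 (K : Set LC.R3) (sh : Shape) (h : Rc K sh 11 11 S294) :
    Rc K sh 11 11 S295 :=
  rc_go ok294 ok295 f293 h

theorem r268 (K : Set LC.R3) (sh : Shape) (h : Rc K sh 11 11 S295) :
    Rc K sh 11 11 S296 :=
  rc_go ok295 ok296 f294 h

theorem r269 (K : Set LC.R3) (sh : Shape) (h : Rc K sh 11 11 S296) :
    Rc K sh 11 11 S297 :=
  rc_go ok296 ok297 f295 h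

theorem r270 (K : Set LC.R3) (sh : Shape) (h : Rc K sh 11 11 S297) :
    Rc K sh 10 10 S298 :=
  rc_del ok298 ok297 f296 h

theorem r271 (K : Set LC.R3) (sh : Shape) (h : Rc K sh 10 10 S298) :
    Rc K sh 9 9 S299 :=
  rc_del ok299 ok298 f297 h

theorem r272 (K : Set LC.R3) (sh : Shape) (h : Rc K sh 9 9 S299) :
    Rc K sh 8 8 S300 :=
  rc_del ok300 ok299 f298 h

theorem r273 (K : Set LC.R3) (sh : Shape) (h : Rc K sh 8 8 S300) :
    Rc K sh 7 7 S301 :=
  rc_del ok301 ok300 f299 h

theorem r274 (K : Set LC.R3) (sh : Shape) (h : Rc K sh 7 7 S301) :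
    Rc K sh 6 6 S302 :=
  rc_del ok302 ok301 f300 h

theorem r275 (K : Set LC.R3) (sh : Shape) (h : Rc K sh 6 6 S302) :
    Rc K sh 5 5 S303 :=
  rc_del ok303 ok302 f301 h

theorem r276 (K : Set LC.R3) (sh : Shape) (h : Rc K sh 5 5 S303) :
    Rc K sh 4 4 S304 :=
  rc_del ok304 ok303 f302 h

theorem r277 (K : Set LC.R3) (sh : Shape) (h : Rc K sh 4 4 S304) :
    Rc K sh 3 3 S305 :=
  rc_del ok305 ok304 f303 h

theorem r278 (K : Set LC.R3) (sh : Shape) (h : Rc K sh 3 3 S305) :
    Rc K sh 3 3 S306 :=
  rc_swp ok305 ok306 f304 h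

theorem r279 (K : Set LC.R3) (sh : Shape) (h : Rc K sh 3 3 S306) :
    Rc K sh 3 3 S307 :=
  rc_go ok306 ok307 f305 h

theorem r280 (K : Set LC.R3) (sh : Shape) (h : Rc K sh 3 3 S307) :
    Rc K sh 3 3 S308 :=
  rc_go ok307 ok308 f306 h

theorem r281 (K : Set LC.R3) (sh : Shape) (h : Rc K sh 3 3 S308) : Capped K :=
  rc_dth ok308 f307 h

theorem capped (sh : Shape) : ∃ Λ : LC.LegKnot, Λ.carrier = (S0.cb 23 23).knot sh (S0.W 23) (S0.Q 23) ∧
    ∃ L, LC.IsExactCap Λ L := by
  obtain ⟨Λ, hΛ, h⟩ := beg sh
  refine ⟨Λ, hΛ, ?_⟩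
  replace h := r1 _ sh h
  replace h := r2 _ sh h
  replace h := r3 _ sh h
  replace h := r4 _ sh h
  replace h := r5 _ sh h
  replace h := r6 _ sh h
  replace h := r7 _ sh h
  replace h := r8 _ sh h
  replace h := r9 _ sh h
  replace h := r10 _ sh h
  replace h := r11 _ sh h
  replace h := r12 _ sh h
  replace h := r13 _ sh h
  replace h := r14 _ sh h
  replace h := r15 _ sh h
  replace h := r16 _ sh h
  replace h := r17 _ sh h
  replace h := r18 _ sh h
  replace h := r19 _ sh h
  replace h := r20 _ sh h
  replace h := r21 _ sh h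
  replace h := r22 _ sh h
  replace h := r23 _ sh h
  replace h := r24 _ sh h
  replace h := r25 _ sh h
  replace h := r26 _ sh h
  replace h := r27 _ sh h
  replace h := r28 _ sh h
  replace h := r29 _ sh h
  replace h := r30 _ sh h
  replace h := r31 _ sh h
  replace h := r32 _ sh h
  replace h := r33 _ sh h
  replace h := r34 _ sh h
  replace h := r35 _ sh h
  replace h := r36 _ sh h
  replace h := r37 _ sh h
  replace h := r38 _ sh h
  replace h := r39 _ sh h
  replace h := r40 _ sh h
  replace h := r41 _ sh h
  replace h := r42 _ sh h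
  replace h := r43 _ sh h
  replace h := r44 _ sh h
  replace h := r45 _ sh h
  replace h := r46 _ sh h
  replace h := r47 _ sh h
  replace h := r48 _ sh h
  replace h := r49 _ sh h
  replace h := r50 _ sh h
  replace h := r51 _ sh h
  replace h := r52 _ sh h
  replace h := r53 _ sh h
  replace h := r54 _ sh h
  replace h := r55 _ sh h
  replace h := r56 _ sh h
  replace h := r57 _ sh h
  replace h := r58 _ sh h
  replace h := r59 _ sh h
  replace h := r60 _ sh h
  replace h := r61 _ sh h
  replace h := r62 _ sh h
  replace h := r63 _ sh h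
  replace h := r64 _ sh h
  replace h := r65 _ sh h
  replace h := r66 _ sh h
  replace h := r67 _ sh h
  replace h := r68 _ sh h
  replace h := r69 _ sh h
  replace h := r70 _ sh h
  replace h := r71 _ sh h
  replace h := r72 _ sh h
  replace h := r73 _ sh h
  replace h := r74 _ sh h
  replace h := r75 _ sh h
  replace h := r76 _ sh h
  replace h := r77 _ sh h
  replace h := r78 _ sh h
  replace h := r79 _ sh h
  replace h := r80 _ sh h
  replace h := r81 _ sh h
  replace h := r82 _ sh h
  replace h := r83 _ sh h
  replace h := r84 _ sh h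
  replace h := r85 _ sh h
  replace h := r86 _ sh h
  replace h := r87 _ sh h
  replace h := r88 _ sh h
  replace h := r89 _ sh h
  replace h := r90 _ sh h
  replace h := r91 _ sh h
  replace h := r92 _ sh h
  replace h := r93 _ sh h
  replace h := r94 _ sh h
  replace h := r95 _ sh h
  replace h := r96 _ sh h
  replace h := r97 _ sh h
  replace h := r98 _ sh h
  replace h := r99 _ sh h
  replace h := r100 _ sh h
  replace h := r101 _ sh h
  replace h := r102 _ sh h
  replace h := r103 _ sh h
  replace h := r104 _ sh h
  replace h := r105 _ sh h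
  replace h := r106 _ sh h
  replace h := r107 _ sh h
  replace h := r108 _ sh h
  replace h := r109 _ sh h
  replace h := r110 _ sh h
  replace h := r111 _ sh h
  replace h := r112 _ sh h
  replace h := r113 _ sh h
  replace h := r114 _ sh h
  replace h := r115 _ sh h
  replace h := r116 _ sh h
  replace h := r117 _ sh h
  replace h := r118 _ sh h
  replace h := r119 _ sh h
  replace h := r120 _ sh h
  replace h := r121 _ sh h
  replace h := r122 _ sh h
  replace h := r123 _ sh h
  replace h := r124 _ sh h
  replace h := r125 _ sh h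
  replace h := r126 _ sh h
  replace h := r127 _ sh h
  replace h := r128 _ sh h
  replace h := r129 _ sh h
  replace h := r130 _ sh h
  replace h := r131 _ sh h
  replace h := r132 _ sh h
  replace h := r133 _ sh h
  replace h := r134 _ sh h
  replace h := r135 _ sh h
  replace h := r136 _ sh h
  replace h := r137 _ sh h
  replace h := r138 _ sh h
  replace h := r139 _ sh h
  replace h := r140 _ sh h
  replace h := r141 _ sh h
  replace h := r142 _ sh h
  replace h := r143 _ sh h
  replace h := r144 _ sh h
  replace h := r145 _ sh h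
  replace h := r146 _ sh h
  replace h := r147 _ sh h
  replace h := r148 _ sh h
  replace h := r149 _ sh h
  replace h := r150 _ sh h
  replace h := r151 _ sh h
  replace h := r152 _ sh h
  replace h := r153 _ sh h
  replace h := r154 _ sh h
  replace h := r155 _ sh h
  replace h := r156 _ sh h
  replace h := r157 _ sh h
  replace h := r158 _ sh h
  replace h := r159 _ sh h
  replace h := r160 _ sh h
  replace h := r161 _ sh h
  replace h := r162 _ sh h
  replace h := r163 _ sh h
  replace h := r164 _ sh h
  replace h := r165 _ sh h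
  replace h := r166 _ sh h
  replace h := r167 _ sh h
  replace h := r168 _ sh h
  replace h := r169 _ sh h
  replace h := r170 _ sh h
  replace h := r171 _ sh h
  replace h := r172 _ sh h
  replace h := r173 _ sh h
  replace h := r174 _ sh h
  replace h := r175 _ sh h
  replace h := r176 _ sh h
  replace h := r177 _ sh h
  replace h := r178 _ sh h
  replace h := r179 _ sh h
  replace h := r180 _ sh h
  replace h := r181 _ sh h
  replace h := r182 _ sh h
  replace h := r183 _ sh h
  replace h := r184 _ sh h
  replace h := r185 _ sh h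
  replace h := r186 _ sh h
  replace h := r187 _ sh h
  replace h := r188 _ sh h
  replace h := r189 _ sh h
  replace h := r190 _ sh h
  replace h := r191 _ sh h
  replace h := r192 _ sh h
  replace h := r193 _ sh h
  replace h := r194 _ sh h
  replace h := r195 _ sh h
  replace h := r196 _ sh h
  replace h := r197 _ sh h
  replace h := r198 _ sh h
  replace h := r199 _ sh h
  replace h := r200 _ sh h
  replace h := r201 _ sh h
  replace h := r202 _ sh h
  replace h := r203 _ sh h
  replace h := r204 _ sh h
  replace h := r205 _ sh h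
  replace h := r206 _ sh h
  replace h := r207 _ sh h
  replace h := r208 _ sh h
  replace h := r209 _ sh h
  replace h := r210 _ sh h
  replace h := r211 _ sh h
  replace h := r212 _ sh h
  replace h := r213 _ sh h
  replace h := r214 _ sh h
  replace h := r215 _ sh h
  replace h := r216 _ sh h
  replace h := r217 _ sh h
  replace h := r218 _ sh h
  replace h := r219 _ sh h
  replace h := r220 _ sh h
  replace h := r221 _ sh h
  replace h := r222 _ sh h
  replace h := r223 _ sh h
  replace h := r224 _ sh h
  replace h := r225 _ sh h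
  replace h := r226 _ sh h
  replace h := r227 _ sh h
  replace h := r228 _ sh h
  replace h := r229 _ sh h
  replace h := r230 _ sh h
  replace h := r231 _ sh h
  replace h := r232 _ sh h
  replace h := r233 _ sh h
  replace h := r234 _ sh h
  replace h := r235 _ sh h
  replace h := r236 _ sh h
  replace h := r237 _ sh h
  replace h := r238 _ sh h
  replace h := r239 _ sh h
  replace h := r240 _ sh h
  replace h := r241 _ sh h
  replace h := r242 _ sh h
  replace h := r243 _ sh h
  replace h := r244 _ sh h
  replace h := r245 _ sh h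
  replace h := r246 _ sh h
  replace h := r247 _ sh h
  replace h := r248 _ sh h
  replace h := r249 _ sh h
  replace h := r250 _ sh h
  replace h := r251 _ sh h
  replace h := r252 _ sh h
  replace h := r253 _ sh h
  replace h := r254 _ sh h
  replace h := r255 _ sh h
  replace h := r256 _ sh h
  replace h := r257 _ sh h
  replace h := r258 _ sh h
  replace h := r259 _ sh h
  replace h := r260 _ sh h
  replace h := r261 _ sh h
  replace h := r262 _ sh h
  replace h := r263 _ sh h
  replace h := r264 _ sh h
  replace h := r265 _ sh h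
  replace h := r266 _ sh h
  replace h := r267 _ sh h
  replace h := r268 _ sh h
  replace h := r269 _ sh h
  replace h := r270 _ sh h
  replace h := r271 _ sh h
  replace h := r272 _ sh h
  replace h := r273 _ sh h
  replace h := r274 _ sh h
  replace h := r275 _ sh h
  replace h := r276 _ sh h
  replace h := r277 _ sh h
  replace h := r278 _ sh h
  replace h := r279 _ sh h
  replace h := r280 _ sh h
  replace h := r281 _ sh h
  exact rc_fin h

end LCA.CapJ


end
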