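import Mathlib
import Pool.Agent.NDM.C03

/-! Parts: LH.OPG, LH.RFL, LH.RTL, LHE.CUS -/

section

/-!
# OPG: goodness is an open condition
-/

namespace LH

open Set LG

namespace OPG

open Filter

variable {N : ℕ}

/-- Periodic conditions hold eventually for all indices. -/
theorem ev_all {l : Filter ℝ} (hN : 0 < N) (A : ℝ → ℤ → Prop)
    (hA : ∀ t i k, A t i → A t (i + k * N)) (h : ∀ i, ∀ᶠ t in l, A t i) :
    ∀ᶠ t in l, ∀ i, A t i := by
  have h1 : ∀ᶠ t in l, ∀ i ∈ Finset.Ico (0 : ℤ) N, A t i :=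
    (Filter.eventually_all_finset _).2 fun i _ => h i
  filter_upwards [h1] with t ht i
  have h2 := ht (i % N) (Finset.mem_Ico.2
    ⟨Int.emod_nonneg _ (by omega), Int.emod_lt_of_pos _ (by omega)⟩)
  have h3 := hA t _ (i / N) h2
  have h4 : i % N + i / N * N = i := by
    have := Int.emod_add_mul_ediv i N
    rw [mul_comm] at this
    exact this
  rwa [h4] at h3

/-- Same signs. -/
def Sg (P P' : Pg N) (a : ℝ) : Prop :=
  ∀ i, (P.x i < a ↔ P'.x i < a) ∧ (a < P.x i ↔ a < P'.x i)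

theorem Sg.symm {P P' : Pg N} {a : ℝ} (h : Sg P P' a) : Sg P' P a := fun i =>
  ⟨(h i).1.symm, (h i).2.symm⟩

theorem sg_ev (G : P_PGB) (F : ℝ → Pg N) (t₀ : ℝ) (hN : 0 < N) (hF : CtA F t₀) (a : ℝ)
    (ha : ∀ i, (F t₀).x i ≠ a) : ∀ᶠ t in nhdsWithin t₀ (Icc 0 1), Sg (F t) (F t₀) a := by
  refine ev_all hN (fun t i => ((F t).x i < a ↔ (F t₀).x i < a) ∧
    (a < (F t).x i ↔ a < (F t₀).x i)) ?_ ?_
  · intro t i k h
    rw [(G.sh (F t) i k).1, (G.sh (F t₀) i k).1]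
    exact h
  · intro i
    rcases lt_or_gt_of_ne (ha i) with h | h
    · filter_upwards [(hF i).1.eventually_lt (tendsto_const_nhds (x := a)) h] with t ht
      exact ⟨⟨fun _ => h, fun _ => ht⟩, ⟨fun h2 => absurd h2 ht.not_gt,
        fun h2 => absurd h2 h.not_gt⟩⟩
    · filter_upwards [(tendsto_const_nhds (x := a)).eventually_lt (hF i).1 h] with t ht
      exact ⟨⟨fun h2 => absurd h2 ht.not_gt, fun h2 => absurd h2 h.not_gt⟩,
        ⟨fun _ => h, fun _ => ht⟩⟩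

theorem comp_of {P P' : Pg N} {a b : ℝ} (ha : Sg P P' a) (hb : Sg P P' b) {p q : ℤ}
    (h : Comp P a b p q) : Comp P' a b p q where
  le := h.le
  ins i h1 h2 := ⟨(ha i).2.1 (h.ins i h1 h2).1, (hb i).1.1 (h.ins i h1 h2).2⟩
  fst := h.fst.imp (ha _).1.1 (hb _).2.1
  lst := h.lst.imp (ha _).1.1 (hb _).2.1
  one e := (h.one e).imp (fun h => ⟨(ha _).1.1 h.1, (hb _).2.1 h.2⟩)
    (fun h => ⟨(ha _).1.1 h.1, (hb _).2.1 h.2⟩)

/-! ### shifts -/

theorem mono_sh {f : ℤ → ℝ} {c : ℤ} (hf : ∀ i, f (i + c) = f i) {p q : ℤ}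
    (h : StrictMonoOn f (Icc p q)) : StrictMonoOn f (Icc (p + c) (q + c)) := by
  intro i hi j hj hij
  have e1 := hf (i - c)
  have e2 := hf (j - c)
  rw [sub_add_cancel] at e1 e2
  rw [e1, e2]
  exact h ⟨by linarith [hi.1], by linarith [hi.2]⟩ ⟨by linarith [hj.1], by linarith [hj.2]⟩
    (by linarith)

theorem anti_sh {f : ℤ → ℝ} {c : ℤ} (hf : ∀ i, f (i + c) = f i) {p q : ℤ}
    (h : StrictAntiOn f (Icc p q)) : StrictAntiOn f (Icc (p + c) (q + c)) := by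
  intro i hi j hj hij
  have e1 := hf (i - c)
  have e2 := hf (j - c)
  rw [sub_add_cancel] at e1 e2
  rw [e1, e2]
  exact h ⟨by linarith [hi.1], by linarith [hi.2]⟩ ⟨by linarith [hj.1], by linarith [hj.2]⟩
    (by linarith)

theorem ty_sh (G : P_PGB) {P : Pg N} {p q : ℤ} (k : ℤ) (h : Ty P p q) :
    Ty P (p + k * N) (q + k * N) := by
  have e1 : ∀ i, P.x (i + k * N) = P.x i := fun i => (G.sh P i k).1
  have e2 : ∀ i, P.y (i + k * N) = P.y i := fun i => (G.sh P i k).2.1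
  have e3 : q + k * N + 1 = q + 1 + k * N := by ring
  unfold Ty
  rw [e3]
  exact h.imp (Or.imp (mono_sh e1) (anti_sh e1)) (Or.imp (mono_sh e2) (anti_sh e2))

theorem sep_sh (G : P_PGB) {P : Pg N} {p q p' q' : ℤ} {s : ℝ} (k : ℤ) (h : Sep P p q p' q' s) :
    Sep P (p + k * N) (q + k * N) (p' + k * N) (q' + k * N) s := by
  have e1 : ∀ i, P.l i s = P.l (i - k * N) s := by
    intro i
    have := (G.sh P (i - k * N) k).2.2.2 s
    rw [sub_add_cancel] at this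
    exact this
  have m : ∀ {p q i : ℤ}, i ∈ Icc (p + k * N) (q + k * N) → i - k * N ∈ Icc p q := by
    intro p q i hi
    exact ⟨by linarith [hi.1], by linarith [hi.2]⟩
  refine h.imp ?_ ?_
  · intro h i hi j hj
    rw [e1 i, e1 j]
    exact h _ (m hi) _ (m hj)
  · intro h i hi j hj
    rw [e1 i, e1 j]
    exact h _ (m hi) _ (m hj)

/-! ### openness -/

theorem mono_ev {l : Filter ℝ} (f : ℝ → ℤ → ℝ) (g : ℤ → ℝ)
    (h : ∀ i, Tendsto (fun t => f t i) l (nhds (g i))) (p q : ℤ) (hm : StrictMonoOn g (Icc p q)) :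
    ∀ᶠ t in l, StrictMonoOn (f t) (Icc p q) := by
  have h1 : ∀ᶠ t in l, ∀ i ∈ Icc p q, ∀ j ∈ Icc p q, i < j → f t i < f t j := by
    refine (Filter.eventually_all_finite (finite_Icc p q)).2 fun i hi => ?_
    refine (Filter.eventually_all_finite (finite_Icc p q)).2 fun j hj => ?_
    by_cases hij : i < j
    · filter_upwards [(h i).eventually_lt (h j) (hm hi hj hij)] with t ht _
      exact ht
    · exact Filter.Eventually.of_forall fun t h2 => absurd h2 hij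
  filter_upwards [h1] with t ht i hi j hj hij
  exact ht i hi j hj hij

theorem anti_ev {l : Filter ℝ} (f : ℝ → ℤ → ℝ) (g : ℤ → ℝ)
    (h : ∀ i, Tendsto (fun t => f t i) l (nhds (g i))) (p q : ℤ) (hm : StrictAntiOn g (Icc p q)) :
    ∀ᶠ t in l, StrictAntiOn (f t) (Icc p q) := by
  have h1 : ∀ᶠ t in l, ∀ i ∈ Icc p q, ∀ j ∈ Icc p q, i < j → f t j < f t i := by
    refine (Filter.eventually_all_finite (finite_Icc p q)).2 fun i hi => ?_
    refine (Filter.eventually_all_finite (finite_Icc p q)).2 fun j hj => ?_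
    by_cases hij : i < j
    · filter_upwards [(h j).eventually_lt (h i) (hm hi hj hij)] with t ht _
      exact ht
    · exact Filter.Eventually.of_forall fun t h2 => absurd h2 hij
  filter_upwards [h1] with t ht i hi j hj hij
  exact ht i hi j hj hij

theorem ty_ev (F : ℝ → Pg N) (t₀ : ℝ) (hF : CtA F t₀) (p q : ℤ) (h : Ty (F t₀) p q) :
    ∀ᶠ t in nhdsWithin t₀ (Icc 0 1), Ty (F t) p q := by
  rcases h with (h | h) | (h | h)
  · exact (mono_ev (fun t => (F t).x) (F t₀).x (fun i => (hF i).1) _ _ h).mono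
      fun t ht => Or.inl (Or.inl ht)
  · exact (anti_ev (fun t => (F t).x) (F t₀).x (fun i => (hF i).1) _ _ h).mono
      fun t ht => Or.inl (Or.inr ht)
  · exact (mono_ev (fun t => (F t).y) (F t₀).y (fun i => (hF i).2.1) _ _ h).mono
      fun t ht => Or.inr (Or.inl ht)
  · exact (anti_ev (fun t => (F t).y) (F t₀).y (fun i => (hF i).2.1) _ _ h).mono
      fun t ht => Or.inr (Or.inr ht)

theorem l_tendsto (F : ℝ → Pg N) (t₀ : ℝ) (hF : CtA F t₀) (i : ℤ) (s : ℝ) :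
    Tendsto (fun t => (F t).l i s) (nhdsWithin t₀ (Icc 0 1)) (nhds ((F t₀).l i s)) := by
  obtain ⟨h1, h2, h3⟩ := hF i
  exact h3.add (h2.mul (continuousWithinAt_const.sub h1))

theorem sep_ev (F : ℝ → Pg N) (t₀ : ℝ) (hF : CtA F t₀) (p q p' q' : ℤ) (s : ℝ)
    (h : Sep (F t₀) p q p' q' s) :
    ∀ᶠ t in nhdsWithin t₀ (Icc 0 1), Sep (F t) p q p' q' s := by
  rcases h with h | h
  · have h1 : ∀ᶠ t in nhdsWithin t₀ (Icc 0 1), ∀ i ∈ Icc p q, ∀ j ∈ Icc p' q',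
        (F t).l i s < (F t).l j s := by
      refine (Filter.eventually_all_finite (finite_Icc p q)).2 fun i hi => ?_
      refine (Filter.eventually_all_finite (finite_Icc p' q')).2 fun j hj => ?_
      exact (l_tendsto F t₀ hF i s).eventually_lt (l_tendsto F t₀ hF j s) (h i hi j hj)
    exact h1.mono fun t ht => Or.inl ht
  · have h1 : ∀ᶠ t in nhdsWithin t₀ (Icc 0 1), ∀ i ∈ Icc p q, ∀ j ∈ Icc p' q',
        (F t).l j s < (F t).l i s := by
      refine (Filter.eventually_all_finite (finite_Icc p q)).2 fun i hi => ?_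
      refine (Filter.eventually_all_finite (finite_Icc p' q')).2 fun j hj => ?_
      exact (l_tendsto F t₀ hF j s).eventually_lt (l_tendsto F t₀ hF i s) (h i hi j hj)
    exact h1.mono fun t ht => Or.inr ht

theorem ev_imp {l : Filter ℝ} {A : Prop} {B : ℝ → Prop} (h : A → ∀ᶠ t in l, B t) :
    ∀ᶠ t in l, A → B t := by
  by_cases hA : A
  · exact (h hA).mono fun t ht _ => ht
  · exact Filter.Eventually.of_forall fun t h2 => absurd h2 hA

theorem good_ev (G : P_PGB) (C : P_CMP) (F : ℝ → Pg N) (t₀ : ℝ) (hN : 0 < N) (hF : CtA F t₀)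
    (a b : ℝ) (hg : Good (F t₀) a b) :
    ∀ᶠ t in nhdsWithin t₀ (Icc 0 1), Good (F t) a b := by
  have s1 := sg_ev G F t₀ hN hF a fun i => (hg.av i).1
  have s2 := sg_ev G F t₀ hN hF b fun i => (hg.av i).2
  have s3 : ∀ᶠ t in nhdsWithin t₀ (Icc 0 1), ∀ p ∈ Finset.Ico (0 : ℤ) N,
      ∀ q ∈ Finset.Ico (0 : ℤ) (2 * N), Comp (F t₀) a b p q → Ty (F t) p q := by
    refine (Filter.eventually_all_finset _).2 fun p _ => ?_
    refine (Filter.eventually_all_finset _).2 fun q _ => ?_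
    exact ev_imp fun h => ty_ev F t₀ hF p q (hg.ty p q h)
  have s4 : ∀ᶠ t in nhdsWithin t₀ (Icc 0 1), ∀ p ∈ Finset.Ico (0 : ℤ) N,
      ∀ q ∈ Finset.Ico (0 : ℤ) (2 * N), ∀ p' ∈ Finset.Ico (0 : ℤ) (2 * N),
      ∀ q' ∈ Finset.Ico (0 : ℤ) (2 * N), Comp (F t₀) a b p q ∧ Comp (F t₀) a b p' q' ∧ q < p' ∧
        q' < p + N → Sep (F t) p q p' q' a ∧ Sep (F t) p q p' q' b := by
    refine (Filter.eventually_all_finset _).2 fun p _ => ?_
    refine (Filter.eventually_all_finset _).2 fun q _ => ?_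
    refine (Filter.eventually_all_finset _).2 fun p' _ => ?_
    refine (Filter.eventually_all_finset _).2 fun q' _ => ?_
    refine ev_imp fun h => ?_
    have h2 := hg.sep p q p' q' h.1 h.2.1 h.2.2.1 h.2.2.2
    exact (sep_ev F t₀ hF p q p' q' a h2.1).and (sep_ev F t₀ hF p q p' q' b h2.2)
  filter_upwards [s1, s2, s3, s4] with t h1 h2 h3 h4
  -- reduction of an index modulo the period
  have red : ∀ p : ℤ, 0 ≤ p + -(p / N) * N ∧ p + -(p / N) * N < N := by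
    intro p
    have e : p + -(p / N) * N = p % N := by
      have := Int.emod_add_mul_ediv p N
      linarith
    rw [e]
    exact ⟨Int.emod_nonneg _ (by omega), Int.emod_lt_of_pos _ (by omega)⟩
  refine ⟨hg.lt, ?_, ?_, ?_, ?_⟩
  · intro i
    obtain ⟨e1, e2⟩ := hg.av i
    constructor
    · rcases lt_or_gt_of_ne e1 with h | h
      · exact ((h1 i).1.2 h).ne
      · exact ((h1 i).2.2 h).ne'
    · rcases lt_or_gt_of_ne e2 with h | h
      · exact ((h2 i).1.2 h).ne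
      · exact ((h2 i).2.2 h).ne'
  · obtain ⟨i, hi⟩ := hg.out
    exact ⟨i, hi.imp (h1 i).1.2 (h2 i).2.2⟩
  · intro p q hc
    have hc0 : Comp (F t₀) a b p q := comp_of h1 h2 hc
    obtain ⟨r1, r2⟩ := red p
    have hc1 := C.sh (F t₀) a b p q (-(p / N)) hc0
    have hln := C.ln (F t₀) a b _ _ hN hg hc1
    have hle := hc1.le
    have h5 := h3 _ (Finset.mem_Ico.2 ⟨r1, r2⟩) (q + -(p / N) * N)
      (Finset.mem_Ico.2 ⟨by linarith, by linarith⟩) hc1
    have h6 := ty_sh G (p / N) h5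
    have e1 : p + -(p / N) * N + p / N * N = p := by ring
    have e2 : q + -(p / N) * N + p / N * N = q := by ring
    rwa [e1, e2] at h6
  · intro p q p' q' hc hc' hq hq'
    have hc0 : Comp (F t₀) a b p q := comp_of h1 h2 hc
    have hc0' : Comp (F t₀) a b p' q' := comp_of h1 h2 hc'
    obtain ⟨r1, r2⟩ := red p
    have hc1 := C.sh (F t₀) a b p q (-(p / N)) hc0
    have hc1' := C.sh (F t₀) a b p' q' (-(p / N)) hc0'
    have hle := hc1.le
    have hle' := hc1'.le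
    have h5 := h4 _ (Finset.mem_Ico.2 ⟨r1, r2⟩) (q + -(p / N) * N)
      (Finset.mem_Ico.2 ⟨by linarith, by linarith⟩) (p' + -(p / N) * N)
      (Finset.mem_Ico.2 ⟨by linarith, by linarith⟩) (q' + -(p / N) * N)
      (Finset.mem_Ico.2 ⟨by linarith, by linarith⟩)
      ⟨hc1, hc1', by linarith, by linarith⟩
    have e : ∀ r : ℤ, r + -(p / N) * N + p / N * N = r := fun r => by ring
    have h6 := sep_sh G (p / N) h5.1
    have h7 := sep_sh G (p / N) h5.2
    rw [e, e, e, e] at h6 h7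
    exact ⟨h6, h7⟩

end OPG

theorem t_OPG : Stmt_OPG := by
  intro G C N F t₀ X hN hF hX
  obtain ⟨a, ha, hlo⟩ := hX.lo
  obtain ⟨b, hb, hhi⟩ := hX.hi
  have s1 := OPG.sg_ev G F t₀ hN hF a fun i => (hlo i).ne'
  have s2 := OPG.sg_ev G F t₀ hN hF b fun i => (hhi i).ne
  have s3 : ∀ᶠ t in nhdsWithin t₀ (Icc 0 1), ∀ a ∈ X, ∀ b ∈ X, AdjX X a b → Good (F t) a b := by
    refine (Filter.eventually_all_finset _).2 fun a _ => ?_
    refine (Filter.eventually_all_finset _).2 fun b _ => ?_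
    exact OPG.ev_imp fun h => OPG.good_ev G C F t₀ hN hF a b (hX.gd a b h)
  filter_upwards [s1, s2, s3] with t h1 h2 h3
  exact ⟨⟨a, ha, fun i => (h1 i).2.2 (hlo i)⟩, ⟨b, hb, fun i => (h2 i).1.2 (hhi i)⟩,
    fun a b h => h3 a h.1 b h.2.1 h⟩

end LH


end

section

/-!
# Module RFL: reflection of a situation
-/

namespace LH

open Set LG

namespace RFL

variable {N : ℕ}

theorem rf_l (P : Pg N) (i : ℤ) (t : ℝ) : P.rf.l i t = -P.l i t := by
  simp only [Pg.l, Pg.rf]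
  ring

theorem comp_iff (P : Pg N) (a b : ℝ) (p q : ℤ) : Comp P.rf a b p q ↔ Comp P a b p q :=
  ⟨fun h => ⟨h.le, h.ins, h.fst, h.lst, h.one⟩, fun h => ⟨h.le, h.ins, h.fst, h.lst, h.one⟩⟩

theorem mono_rf (P : Pg N) (A : Set ℤ) (h : StrictMonoOn P.y A) : StrictAntiOn P.rf.y A := by
  intro i hi j hj hij
  have h1 := h hi hj hij
  show -P.y j < -P.y i
  linarith

theorem anti_rf (P : Pg N) (A : Set ℤ) (h : StrictAntiOn P.y A) : StrictMonoOn P.rf.y A := by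
  intro i hi j hj hij
  have h1 := h hi hj hij
  show -P.y i < -P.y j
  linarith

theorem ty_rf (P : Pg N) (p q : ℤ) (h : Ty P p q) : Ty P.rf p q := by
  rcases h with (h | h) | h | h
  · exact Or.inl (Or.inl h)
  · exact Or.inl (Or.inr h)
  · exact Or.inr (Or.inr (mono_rf P _ h))
  · exact Or.inr (Or.inl (anti_rf P _ h))

theorem ym_rf (P : Pg N) (p q : ℤ) (h : YM P p q) : YM P.rf p q := by
  rcases h with h | h
  · exact Or.inr (mono_rf P _ h)
  · exact Or.inl (anti_rf P _ h)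

theorem sep_rf (P : Pg N) (p q p' q' : ℤ) (t : ℝ) (h : Sep P p q p' q' t) :
    Sep P.rf p q p' q' t := by
  rcases h with h | h
  · right
    intro i hi j hj
    have h1 := h i hi j hj
    rw [rf_l, rf_l]
    linarith
  · left
    intro i hi j hj
    have h1 := h i hi j hj
    rw [rf_l, rf_l]
    linarith

theorem good_rf (P : Pg N) (a b : ℝ) (h : Good P a b) : Good P.rf a b where
  lt := h.lt
  av := h.av
  out := h.out
  ty p q hC := ty_rf P p q (h.ty p q ((comp_iff P a b p q).1 hC))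
  sep p q p' q' hC hC' h1 h2 := by
    have h3 := h.sep p q p' q' ((comp_iff P a b p q).1 hC) ((comp_iff P a b p' q').1 hC') h1 h2
    exact ⟨sep_rf P p q p' q' a h3.1, sep_rf P p q p' q' b h3.2⟩

theorem lnk_rf (P : Pg N) (X : Finset ℝ) (i j : It) (h : Lnk P X i j) : Lnk P.rf X i j :=
  ⟨h.le, h.tl, h.adj, h.ins, h.dir⟩

theorem sq_rf (P : Pg N) (X : Finset ℝ) (w : List It) (W : ℤ → It) (h : Sq P X w W) :
    Sq P.rf X w W where
  ne := h.ne
  per := h.per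
  lnk n := lnk_rf P X _ _ (h.lnk n)
  ok := h.ok
  get := h.get

theorem yf_rf (P : Pg N) (a b : ℝ) (w : List It) (h : YF P a b w) : YF P.rf a b w := by
  intro i hi hk h1 h2
  obtain ⟨p, q, hC, h3, h4, h5⟩ := h i hi hk h1 h2
  exact ⟨p, q, (comp_iff P a b p q).2 hC, h3, h4, ym_rf P p q h5⟩

theorem ki_rf (P : Pg N) (W : ℤ → It) (a : ℝ) (n : ℤ) (h : ℝ) (hh : h ∈ KI P W a n) :
    -h ∈ KI P.rf W a n := by
  rcases hh with ⟨j, hj, h1, h2⟩ | ⟨h1, h2⟩
  · left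
    exact ⟨j, hj, h1, by rw [rf_l, h2]⟩
  · right
    exact ⟨h1, by rw [rf_l, h2]⟩

theorem ri_rf (P : Pg N) (W : ℤ → It) (d : ℝ) (n : ℤ) (h : ℝ) (hh : h ∈ RI P W d n) :
    -h ∈ RI P.rf W d n := by
  rcases hh with ⟨j, hj, h1, h2⟩ | ⟨h1, h2⟩
  · left
    exact ⟨j, hj, h1, by rw [rf_l, h2]⟩
  · right
    exact ⟨h1, by rw [rf_l, h2]⟩

end RFL

open _root_.LH.RFL in
/-- RFL -/
theorem t_RFL : Stmt_RFL := by
  intro N P a b s d Y w W
  refine ⟨fun h => ⟨good_rf P a b h.gd, h.l, h.r, h.db, sq_rf P Y w W h.sq, yf_rf P a b w h.yf⟩, ?_⟩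
  intro n n' hD hl
  have h1 : P.rf.l (W n').e s ≤ P.rf.l (W n).e s := by
    rw [rf_l, rf_l]
    linarith
  rcases hD h1 with h2 | h2
  · left
    intro x hx y hy
    have h3 := h2 _ (ki_rf P W a n y hy) _ (ki_rf P W a n' x hx)
    linarith
  · right
    intro x hx y hy
    have h3 := h2 _ (ri_rf P W d n y hy) _ (ri_rf P W d n' x hx)
    linarith

end LH


end

section

/-!
# RTL: retraction of a finger to the left
-/

namespace LH

open Set LG

namespace RTL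

/-! ### lists -/

theorem cp_cons {α : Type*} (a : α) (l : List α) : cp (a :: l) = (a :: l).zip (l ++ [a]) := by
  unfold cp
  rw [show (1 : ℕ) = 0 + 1 from rfl, List.rotate_cons_succ, List.rotate_zero]

theorem zip_chain {α : Type*} (R : α → α → Prop) (l : List α) : ∀ a b : α,
    (∀ p ∈ (a :: l).zip (l ++ [b]), R p.1 p.2) ↔ List.IsChain R (a :: (l ++ [b])) := by
  induction l with
  | nil => intro a b; simp
  | cons x l ih =>
    intro a b
    have h := ih x b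
    rw [List.cons_append, List.zip_cons_cons, List.isChain_cons_cons, ← h]
    simp only [List.mem_cons, forall_eq_or_imp]

/-- The relation between consecutive entries. -/
def AR (a b : En) : Prop := a.isLeft = !b.isLeft

theorem alt_cons (a : En) (l : List En) : Alt (a :: l) ↔ List.IsChain AR (a :: (l ++ [a])) := by
  unfold Alt
  rw [cp_cons, ← zip_chain]
  constructor
  · intro h p hp
    exact h.2 p hp
  · intro h
    exact ⟨by simp, fun p hp => h p hp⟩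

theorem cp_mem {α : Type*} {l : List α} {a b : α} (h : (a, b) ∈ cp l) : a ∈ l ∧ b ∈ l := by
  unfold cp at h
  have := List.of_mem_zip h
  exact ⟨this.1, List.mem_rotate.1 this.2⟩

theorem mk_mem {W : List En} {c r : Q} (h : Mk W c r) : Sum.inl c ∈ W ∧ Sum.inr r ∈ W := by
  rcases h with h | h
  · exact cp_mem h
  · exact (cp_mem h).symm

theorem inl_ent {c : Q} {p : Pt} (h : Sum.inl c ∈ ent p) : p.k ≠ .L ∧ p.c = c := by
  unfold ent at h
  cases hk : p.k <;> simp [hk] at h <;> simp [h]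

theorem inr_ent {r : Q} {p : Pt} (h : Sum.inr r ∈ ent p) : p.k ≠ .R ∧ p.r = r := by
  unfold ent at h
  cases hk : p.k <;> simp [hk] at h <;> simp [h]

theorem inl_ents {c : Q} {w : List Pt} (h : Sum.inl c ∈ ents w) :
    ∃ x ∈ w, x.k ≠ .L ∧ x.c = c := by
  unfold ents at h
  obtain ⟨x, hx, hx'⟩ := List.mem_flatMap.1 h
  exact ⟨x, hx, inl_ent hx'⟩

theorem inr_ents {r : Q} {w : List Pt} (h : Sum.inr r ∈ ents w) :
    ∃ x ∈ w, x.k ≠ .R ∧ x.r = r := by
  unfold ents at h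
  obtain ⟨x, hx, hx'⟩ := List.mem_flatMap.1 h
  exact ⟨x, hx, inr_ent hx'⟩

theorem btw_symm {α : Type*} [LT α] {a b x : α} (h : Btw a b x) : Btw b a x := by
  unfold Btw at *
  tauto

theorem c_lt_of_t {p q : Pt} (h : p.t < q.t) : p.c < q.c := by
  unfold Pt.c
  rw [Prod.Lex.lt_iff]
  exact Or.inl h

theorem r_lt_of_t {p q : Pt} (h : p.t < q.t) : q.r < p.r := by
  unfold Pt.r
  rw [Prod.Lex.lt_iff]
  exact Or.inl (neg_lt_neg h)

theorem c_lt_of_h {p q : Pt} (ht : p.t = q.t) (h : p.h < q.h) : p.c < q.c := by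
  unfold Pt.c
  rw [Prod.Lex.lt_iff]
  exact Or.inr ⟨ht, h⟩

theorem r_lt_of_h {p q : Pt} (ht : p.t = q.t) (h : p.h < q.h) : p.r < q.r := by
  unfold Pt.r
  rw [Prod.Lex.lt_iff]
  exact Or.inr ⟨by simp [ht], h⟩

theorem main (web : P_WEB) (cwa : P_CWA) (dc1 : P_DC1) (dr1 : P_DR1) (s₂ u s₃ q p : Pt)
    (B : List Pt) (hw : CW (s₂ :: u :: s₃ :: q :: (B ++ [p])))
    (hw' : CW (⟨.L, s₂.t, s₂.h⟩ :: q :: (B ++ [p]))) (k₂ : s₂.k = .lt) (ku : u.k = .L)
    (k₃ : s₃.k = .rt) (ht : s₂.t = s₃.t)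
    (hc : ∀ x ∈ s₂ :: u :: s₃ :: q :: (B ++ [p]), x.k ≠ .L → ¬ Btw s₂.c s₃.c x.c)
    (hr : ∀ x ∈ s₂ :: u :: s₃ :: q :: (B ++ [p]), x.k ≠ .R → ¬ Btw s₂.r s₃.r x.r)
    (hh : s₃.h < s₂.h ∧ q.c < p.c ∨ s₂.h < s₃.h ∧ p.c < q.c) :
    WE (ents (s₂ :: u :: s₃ :: q :: (B ++ [p]))) (ents (⟨.L, s₂.t, s₂.h⟩ :: q :: (B ++ [p]))) := by
  -- the steps
  have hst := hw.st
  have st1 : Stp s₂ u := hst (s₂, u) (by rw [cp_cons]; simp)
  have st3 : Stp s₃ q := hst (s₃, q) (by rw [cp_cons]; simp)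
  have st4 : Stp p s₂ := by
    apply hst (p, s₂)
    rw [cp_cons]
    have : s₂ :: u :: s₃ :: q :: (B ++ [p]) = (s₂ :: u :: s₃ :: q :: B) ++ [p] := by simp
    rw [this]
    have e2 : (u :: s₃ :: q :: (B ++ [p])) ++ [s₂] = (u :: s₃ :: q :: (B ++ [p])) ++ [s₂] := rfl
    rw [List.zip_append (by simp)]
    simp
  have hu : u.t < s₂.t := by
    unfold Stp at st1
    simp only [k₂, ku, Kd.fw, Kd.ar] at st1
    tauto
  have hq : q.k.ar ∧ s₃.t < q.t := by
    unfold Stp at st3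
    simp only [k₃, Kd.fw] at st3
    tauto
  have hp : ¬ p.k.fw ∧ s₂.t < p.t := by
    unfold Stp at st4
    simp only [k₂, Kd.ar] at st4
    tauto
  obtain ⟨Tq, hTq⟩ : ∃ Tq, ent q = .inl q.c :: Tq := by
    unfold ent
    cases hk : q.k
    · exact ⟨_, rfl⟩
    · exact absurd hq.1 (by rw [hk]; simp [Kd.ar])
    · exact ⟨_, rfl⟩
    · exact absurd hq.1 (by rw [hk]; simp [Kd.ar])
  obtain ⟨Ip, hIp⟩ : ∃ Ip, ent p = Ip ++ [.inl p.c] := by
    unfold ent
    cases hk : p.k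
    · exact absurd hp.1 (by rw [hk]; simp [Kd.fw])
    · exact ⟨[.inr p.r], rfl⟩
    · exact ⟨[], rfl⟩
    · exact absurd hp.1 (by rw [hk]; simp [Kd.fw])
  have e2 : ent s₂ = [.inr s₂.r, .inl s₂.c] := by unfold ent; rw [k₂]
  have eu : ent u = [.inr u.r] := by unfold ent; rw [ku]
  have e3 : ent s₃ = [.inl s₃.c, .inr s₃.r] := by unfold ent; rw [k₃]
  have eL : ent ⟨.L, s₂.t, s₂.h⟩ = [.inr s₂.r] := rfl
  obtain ⟨M, hM⟩ : ∃ M : List En, M = Tq ++ (ents B ++ Ip) := ⟨_, rfl⟩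
  have hqp : ents (q :: (B ++ [p])) = .inl q.c :: (M ++ [.inl p.c]) := by
    unfold ents at *
    simp [hTq, hIp, hM]
  have hE : ents (s₂ :: u :: s₃ :: q :: (B ++ [p])) =
      .inr s₂.r :: .inl s₂.c :: .inr u.r :: .inl s₃.c :: .inr s₃.r :: .inl q.c ::
        (M ++ [.inl p.c]) := by
    have : ents (s₂ :: u :: s₃ :: q :: (B ++ [p])) =
        ent s₂ ++ (ent u ++ (ent s₃ ++ ents (q :: (B ++ [p])))) := by
      unfold ents; simp
    rw [this, hqp, e2, eu, e3]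
    rfl
  have hE' : ents (⟨.L, s₂.t, s₂.h⟩ :: q :: (B ++ [p])) =
      .inr s₂.r :: .inl q.c :: (M ++ [.inl p.c]) := by
    have : ents (⟨.L, s₂.t, s₂.h⟩ :: q :: (B ++ [p])) =
        ent ⟨.L, s₂.t, s₂.h⟩ ++ ents (q :: (B ++ [p])) := by
      unfold ents; simp
    rw [this, hqp, eL]
    rfl
  -- rotation of the first walk
  have hR := cwa.rot [s₂] (u :: s₃ :: q :: (B ++ [p])) hw
  have hER : ents (u :: s₃ :: q :: (B ++ [p]) ++ [s₂]) =
      .inr u.r :: .inl s₃.c :: .inr s₃.r ::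
        ((.inl q.c :: (M ++ [.inl p.c])) ++ [.inr s₂.r, .inl s₂.c]) := by
    have : ents (u :: s₃ :: q :: (B ++ [p]) ++ [s₂]) =
        ent u ++ (ent s₃ ++ (ents (q :: (B ++ [p])) ++ ent s₂)) := by
      unfold ents; simp
    rw [this, hqp, e2, eu, e3]
    simp
  have hA0 := cwa.alt _ hR.1
  have hN0 := hR.1.nd
  rw [hER] at hA0 hN0
  have hW0 := hR.2
  rw [hER] at hW0
  -- all entries
  have hmem : ∀ x : En, x ∈ (.inr u.r :: .inl s₃.c :: .inr s₃.r ::
        ((.inl q.c :: (M ++ [.inl p.c])) ++ [.inr s₂.r, .inl s₂.c]) : List En) →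
      x ∈ ents (s₂ :: u :: s₃ :: q :: (B ++ [p])) := by
    intro x hx
    rw [hE]
    simp only [List.mem_cons, List.mem_append, List.not_mem_nil, or_false] at hx ⊢
    tauto
  have hcol : ∀ c : Q, Sum.inl c ∈ ents (s₂ :: u :: s₃ :: q :: (B ++ [p])) →
      ¬ Btw s₂.c s₃.c c := by
    intro c h
    obtain ⟨x, hx, hk, rfl⟩ := inl_ents h
    exact hc x hx hk
  have hrow : ∀ r : Q, Sum.inr r ∈ ents (s₂ :: u :: s₃ :: q :: (B ++ [p])) →
      ¬ Btw s₂.r s₃.r r := by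
    intro c h
    obtain ⟨x, hx, hk, rfl⟩ := inr_ents h
    exact hr x hx hk
  have r2u : s₂.r < u.r := r_lt_of_t hu
  have r3u : s₃.r < u.r := r_lt_of_t (by rw [← ht]; exact hu)
  have c2q : s₂.c < q.c := c_lt_of_t (by rw [ht]; exact hq.2)
  have c2p : s₂.c < p.c := c_lt_of_t hp.2
  -- removal of the row of `u`
  have hD1 := dr1 u.r s₃.c s₃.r s₂.r s₂.c (.inl q.c :: (M ++ [.inl p.c])) hA0 hN0
    (by
      intro c r h hb
      exact absurd (btw_symm hb) (hcol c (hmem _ (mk_mem h).1)))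
    (by
      rcases hh with ⟨h1, -⟩ | ⟨h1, -⟩
      · exact Or.inl ⟨c_lt_of_h ht.symm h1, Or.inr (Or.inl ⟨r_lt_of_h ht.symm h1, r2u⟩)⟩
      · exact Or.inr ⟨c_lt_of_h ht h1, Or.inr (Or.inl ⟨r_lt_of_h ht h1, r3u⟩)⟩)
  -- the intermediate list
  have hA' := cwa.alt _ hw'
  rw [hE', alt_cons] at hA'
  have hA2 : Alt (.inl s₂.c :: .inr s₃.r :: .inl q.c :: (M ++ [.inl p.c, .inr s₂.r])) := by
    rw [alt_cons]
    have h1 : List.IsChain AR ((Sum.inl q.c :: (M ++ [.inl p.c, .inr s₂.r]) : List En)) := by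
      have h2 := (List.isChain_cons_cons.1 hA').2
      simpa using h2
    refine List.isChain_cons_cons.2 ⟨rfl, ?_⟩
    have e : ((Sum.inr s₃.r :: .inl q.c :: (M ++ [.inl p.c, .inr s₂.r]) : List En)) ++
        [.inl s₂.c] = .inr s₃.r :: .inl q.c :: ((M ++ [.inl p.c, .inr s₂.r]) ++ [.inl s₂.c]) := by
      simp
    have e' : ((Sum.inl q.c :: ((M ++ [.inl p.c, .inr s₂.r]) ++ [.inl s₂.c]) : List En)) =
        (Sum.inl q.c :: (M ++ [.inl p.c, .inr s₂.r])) ++ [.inl s₂.c] := by simp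
    refine List.isChain_cons_cons.2 ⟨rfl, ?_⟩
    show List.IsChain AR ((Sum.inl q.c :: (M ++ [.inl p.c, .inr s₂.r])) ++ [.inl s₂.c])
    rw [List.isChain_append]
    refine ⟨h1, List.isChain_singleton _, ?_⟩
    intro x hx y hy
    have e3 : (Sum.inl q.c :: (M ++ [.inl p.c, .inr s₂.r]) : List En) =
        (Sum.inl q.c :: (M ++ [.inl p.c])) ++ [.inr s₂.r] := by simp
    rw [e3, List.getLast?_append] at hx
    simp at hx hy
    subst hx
    subst hy
    rfl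
  have hN1 : (Sum.inr s₃.r :: ((Sum.inl q.c :: (M ++ [.inl p.c])) ++ [.inr s₂.r, .inl s₂.c]) :
      List En).Nodup := (List.nodup_cons.1 (List.nodup_cons.1 hN0).2).2
  have hEq : (Sum.inr s₃.r :: ((Sum.inl q.c :: (M ++ [.inl p.c])) ++ [.inr s₂.r, .inl s₂.c]) :
      List En) = (.inr s₃.r :: .inl q.c :: (M ++ [.inl p.c, .inr s₂.r])) ++ [.inl s₂.c] := by
    simp
  have hN2 : ((.inl s₂.c :: .inr s₃.r :: .inl q.c :: (M ++ [.inl p.c, .inr s₂.r])) :
      List En).Nodup := by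
    rw [hEq] at hN1
    have := List.nodup_append_comm.1 hN1
    simpa using this
  have hW1 : WE (.inr s₃.r :: ((.inl q.c :: (M ++ [.inl p.c])) ++ [.inr s₂.r, .inl s₂.c]))
      (.inl s₂.c :: .inr s₃.r :: .inl q.c :: (M ++ [.inl p.c, .inr s₂.r])) := by
    rw [hEq]
    apply web.symm
    have h := web.rot [.inl s₂.c]
      ((Sum.inr s₃.r :: Sum.inl q.c :: (M ++ [Sum.inl p.c, Sum.inr s₂.r])) : List En)
      (by rw [List.singleton_append]; exact hA2) (by rw [List.singleton_append]; exact hN2)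
    rw [List.singleton_append] at h
    exact h
  -- removal of the column of `s₂`
  have hmem2 : ∀ x : En, x ∈ ((.inl s₂.c :: .inr s₃.r :: .inl q.c ::
        (M ++ [.inl p.c, .inr s₂.r])) : List En) →
      x ∈ ents (s₂ :: u :: s₃ :: q :: (B ++ [p])) := by
    intro x hx
    rw [hE]
    simp only [List.mem_cons, List.mem_append, List.not_mem_nil, or_false] at hx ⊢
    tauto
  have hD2 := dc1 s₂.c s₃.r q.c p.c s₂.r M hA2 hN2
    (by
      intro c r h hb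
      exact absurd (btw_symm hb) (hrow r (hmem2 _ (mk_mem h).2)))
    (by
      rcases hh with ⟨h1, h2⟩ | ⟨h1, h2⟩
      · exact Or.inl ⟨r_lt_of_h ht.symm h1, Or.inr (Or.inr ⟨c2q, h2⟩)⟩
      · exact Or.inr ⟨r_lt_of_h ht h1, Or.inr (Or.inr ⟨c2p, h2⟩)⟩)
  -- rotation of the second walk
  have hR' := (cwa.rot [⟨.L, s₂.t, s₂.h⟩] (q :: (B ++ [p])) hw').2
  have hER' : ents (q :: (B ++ [p]) ++ [⟨.L, s₂.t, s₂.h⟩]) =
      .inl q.c :: (M ++ [.inl p.c, .inr s₂.r]) := by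
    have : ents (q :: (B ++ [p]) ++ [⟨.L, s₂.t, s₂.h⟩]) =
        ents (q :: (B ++ [p])) ++ ent ⟨.L, s₂.t, s₂.h⟩ := by
      unfold ents; simp
    rw [this, hqp, eL]
    simp
  rw [hER'] at hR'
  exact web.trans _ _ _ hW0 (web.trans _ _ _ hD1 (web.trans _ _ _ hW1
    (web.trans _ _ _ hD2 (web.symm _ _ hR'))))

end RTL

theorem t_RTL : Stmt_RTL := by
  intro web cwa dc1 dr1 _ s₂ u s₃ q p B hw hw' k₂ ku k₃ ht hc hr hh
  exact RTL.main web cwa dc1 dr1 s₂ u s₃ q p B hw hw' k₂ ku k₃ ht hc hr hh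

end LH


end

section

/-!
# The order of the two arcs at a cusp
-/

namespace LHE

open Set LG LH

namespace CUS

theorem local_y (Y : ℝ → ℝ) (m c : ℝ) (hY : HasDerivAt Y m c) (hm : 0 < m) :
    ∃ ε > 0, (∀ u, c - ε < u → u < c → Y u < Y c) ∧ ∀ u, c < u → u < c + ε → Y c < Y u := by
  have h1 : ∀ᶠ u in nhdsWithin c {c}ᶜ, 0 < slope Y c u :=
    (hasDerivAt_iff_tendsto_slope.1 hY).eventually (lt_mem_nhds hm)
  rw [eventually_nhdsWithin_iff, Metric.eventually_nhds_iff] at h1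
  obtain ⟨ε, hε, h⟩ := h1
  refine ⟨ε, hε, fun u hu hu' => ?_, fun u hu hu' => ?_⟩
  · have h2 : 0 < slope Y c u := by
      refine h ?_ hu'.ne
      rw [Real.dist_eq, abs_lt]
      constructor <;> linarith
    rw [slope_def_field] at h2
    by_contra hcon
    have h3 : (Y u - Y c) / (u - c) ≤ 0 :=
      div_nonpos_of_nonneg_of_nonpos (by linarith) (by linarith)
    linarith
  · have h2 : 0 < slope Y c u := by
      refine h ?_ hu.ne'
      rw [Real.dist_eq, abs_lt]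
      constructor <;> linarith
    rw [slope_def_field] at h2
    by_contra hcon
    have h3 : (Y u - Y c) / (u - c) ≤ 0 :=
      div_nonpos_of_nonpos_of_nonneg (by linarith) (by linarith)
    linarith

theorem mono (X X' : ℝ → ℝ) (a c : ℝ) (hX : ∀ u, HasDerivAt X (X' u) u)
    (h1 : ∀ u ∈ Ioo a c, 0 < X' u) : StrictMonoOn X (Icc a c) := by
  refine strictMonoOn_of_deriv_pos (convex_Icc a c)
    (fun u _ => (hX u).continuousAt.continuousWithinAt) fun u hu => ?_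
  rw [interior_Icc] at hu
  rw [(hX u).deriv]
  exact h1 u hu

theorem anti (X X' : ℝ → ℝ) (a c : ℝ) (hX : ∀ u, HasDerivAt X (X' u) u)
    (h1 : ∀ u ∈ Ioo a c, X' u < 0) : StrictAntiOn X (Icc a c) := by
  refine strictAntiOn_of_deriv_neg (convex_Icc a c)
    (fun u _ => (hX u).continuousAt.continuousWithinAt) fun u hu => ?_
  rw [interior_Icc] at hu
  rw [(hX u).deriv]
  exact h1 u hu

theorem core (X Y Z X' : ℝ → ℝ) (m a c d : ℝ) (hX : ∀ u, HasDerivAt X (X' u) u)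
    (hZ : ∀ u, HasDerivAt Z (Y u * X' u) u) (hY : HasDerivAt Y m c) (hm : 0 < m)
    (h1 : ∀ u ∈ Ioo a c, 0 < X' u) (h2 : ∀ u ∈ Ioo c d, X' u < 0)
    (hinj : ∀ u ∈ Icc a d, ∀ v ∈ Icc a d, X u = X v → Z u = Z v → u = v) :
    ∀ u₁ ∈ Icc a c, ∀ u₂ ∈ Icc c d, X u₁ = X u₂ → u₁ ≠ c → Z u₂ < Z u₁ := by
  intro u₁ hu₁ u₂ hu₂ hx hne
  have hXc : Continuous X := continuous_iff_continuousAt.2 fun u => (hX u).continuousAt
  have hZc : Continuous Z := continuous_iff_continuousAt.2 fun u => (hZ u).continuousAt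
  have hmo := mono X X' a c hX h1
  have han := anti X X' c d hX h2
  have hu1c : u₁ < c := lt_of_le_of_ne hu₁.2 hne
  have hac : a ≤ c := hu₁.1.trans hu₁.2
  have hcd : c ≤ d := hu₂.1.trans hu₂.2
  have hXu1 : X u₁ < X c := hmo hu₁ (right_mem_Icc.2 hac) hu1c
  have hu2c : c < u₂ := by
    rcases hu₂.1.lt_or_eq with h | h
    · exact h
    · rw [← h] at hx
      exact absurd hx hXu1.ne
  -- the local pair
  obtain ⟨ε, hε, hy1, hy2⟩ := local_y Y m c hY hm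
  obtain ⟨v, hv, w, hw, hvw, hzz⟩ : ∃ v ∈ Ico u₁ c, ∃ w ∈ Ioc c u₂, X v = X w ∧ Z w < Z v := by
    set v' := max u₁ (c - ε / 2) with hv'
    set w' := min u₂ (c + ε / 2) with hw'
    have hv1 : u₁ ≤ v' := le_max_left _ _
    have hv2 : c - ε / 2 ≤ v' := le_max_right _ _
    have hv3 : v' < c := max_lt hu1c (by linarith)
    have hw1 : w' ≤ u₂ := min_le_left _ _
    have hw2 : w' ≤ c + ε / 2 := min_le_right _ _
    have hw3 : c < w' := lt_min hu2c (by linarith)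
    have hG : ∀ u, HasDerivAt (fun u => Z u - Y c * X u) (Y u * X' u - Y c * X' u) u :=
      fun u => (hZ u).sub ((hX u).const_mul (Y c))
    have hG1 := anti (fun u => Z u - Y c * X u) (fun u => Y u * X' u - Y c * X' u) v' c hG
      (fun u hu => by
        have e1 := hy1 u (by linarith [hu.1]) hu.2
        have e2 := h1 u ⟨by linarith [hu.1, hu₁.1], hu.2⟩
        nlinarith)
    have hG2 := anti (fun u => Z u - Y c * X u) (fun u => Y u * X' u - Y c * X' u) c w' hG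
      (fun u hu => by
        have e1 := hy2 u hu.1 (by linarith [hu.2])
        have e2 := h2 u ⟨hu.1, by linarith [hu.2, hu₂.2]⟩
        nlinarith)
    have key : ∀ v w, v' ≤ v → v < c → c < w → w ≤ w' → X v = X w → Z w < Z v := by
      intro v w a1 a2 a3 a4 a5
      have e1 := hG1 ⟨a1, a2.le⟩ (right_mem_Icc.2 hv3.le) a2
      have e2 := hG2 (left_mem_Icc.2 hw3.le) ⟨a3.le, a4⟩ a3
      have e3 : Z w - Y c * X w < Z v - Y c * X v := lt_trans e2 e1
      rw [a5] at e3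
      linarith
    have hXv' : X v' < X c := hmo ⟨hu₁.1.trans hv1, hv3.le⟩ (right_mem_Icc.2 hac) hv3
    have hXw' : X w' < X c := han (left_mem_Icc.2 hcd) ⟨hw3.le, hw1.trans hu₂.2⟩ hw3
    rcases le_total (X v') (X w') with hle | hle
    · obtain ⟨v, hv, hXv⟩ := intermediate_value_Icc hv3.le hXc.continuousOn ⟨hle, hXw'.le⟩
      have hvc : v < c := by
        rcases hv.2.lt_or_eq with h | h
        · exact h
        · rw [h] at hXv
          exact absurd hXv hXw'.ne'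
      exact ⟨v, ⟨hv1.trans hv.1, hvc⟩, w', ⟨hw3, hw1⟩, hXv, key v w' hv.1 hvc hw3 le_rfl hXv⟩
    · obtain ⟨w, hw, hXw⟩ := intermediate_value_Icc' hw3.le hXc.continuousOn ⟨hle, hXv'.le⟩
      have hwc : c < w := by
        rcases hw.1.lt_or_eq with h | h
        · exact h
        · rw [← h] at hXw
          exact absurd hXw hXv'.ne'
      exact ⟨v', ⟨hv1, hv3⟩, w, ⟨hwc, hw.2.trans hw1⟩, hXw.symm,
        key v' w le_rfl hv3 hwc hw.2 hXw.symm⟩
  -- connectedness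
  by_contra hcon
  have hcomp : IsCompact (Icc u₁ v ×ˢ Icc c u₂) := isCompact_Icc.prod isCompact_Icc
  have hcl1 : IsClosed {p : ℝ × ℝ | X p.1 = X p.2 ∧ Z p.1 ≤ Z p.2} :=
    (isClosed_eq (hXc.comp continuous_fst) (hXc.comp continuous_snd)).inter
      (isClosed_le (hZc.comp continuous_fst) (hZc.comp continuous_snd))
  have hcl2 : IsClosed {p : ℝ × ℝ | X p.1 = X p.2 ∧ Z p.2 ≤ Z p.1} :=
    (isClosed_eq (hXc.comp continuous_fst) (hXc.comp continuous_snd)).inter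
      (isClosed_le (hZc.comp continuous_snd) (hZc.comp continuous_fst))
  have hD1 : IsClosed (Prod.fst '' ((Icc u₁ v ×ˢ Icc c u₂) ∩
      {p : ℝ × ℝ | X p.1 = X p.2 ∧ Z p.1 ≤ Z p.2})) :=
    ((hcomp.inter_right hcl1).image continuous_fst).isClosed
  have hD2 : IsClosed (Prod.fst '' ((Icc u₁ v ×ˢ Icc c u₂) ∩
      {p : ℝ × ℝ | X p.1 = X p.2 ∧ Z p.2 ≤ Z p.1})) :=
    ((hcomp.inter_right hcl2).image continuous_fst).isClosed
  have hpre : IsPreconnected (Icc u₁ v) := isPreconnected_Icc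
  rw [isPreconnected_closed_iff] at hpre
  obtain ⟨r, hr, ⟨⟨r1, w1⟩, ⟨⟨hr1, hw1⟩, hx1, hz1⟩, e1⟩, ⟨⟨r2, w2⟩, ⟨⟨hr2, hw2⟩, hx2, hz2⟩, e2⟩⟩ :=
    hpre _ _ hD1 hD2 (by
      intro r hr
      have hra : r ∈ Icc a c := ⟨hu₁.1.trans hr.1, hr.2.trans hv.2.le⟩
      have e1 : X u₁ ≤ X r := hmo.monotoneOn hu₁ hra hr.1
      have e2 : X r ≤ X c := hmo.monotoneOn hra (right_mem_Icc.2 hac) hra.2
      obtain ⟨w, hw, hXw⟩ := intermediate_value_Icc' hu2c.le hXc.continuousOn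
        (show X r ∈ Icc (X u₂) (X c) from ⟨by rw [← hx]; exact e1, e2⟩)
      rcases le_total (Z r) (Z w) with h | h
      · exact Or.inl ⟨(r, w), ⟨⟨hr, hw⟩, hXw.symm, h⟩, rfl⟩
      · exact Or.inr ⟨(r, w), ⟨⟨hr, hw⟩, hXw.symm, h⟩, rfl⟩)
      ⟨u₁, left_mem_Icc.2 hv.1, (u₁, u₂), ⟨⟨left_mem_Icc.2 hv.1, right_mem_Icc.2 hu2c.le⟩, hx,
        not_lt.1 hcon⟩, rfl⟩
      ⟨v, right_mem_Icc.2 hv.1, (v, w), ⟨⟨right_mem_Icc.2 hv.1, ⟨hw.1.le, hw.2⟩⟩, hvw, hzz.le⟩, rfl⟩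
  change r1 = r at e1
  change r2 = r at e2
  subst e1
  subst e2
  change X r2 = X w1 at hx1
  change X r2 = X w2 at hx2
  change Z r2 ≤ Z w1 at hz1
  change Z w2 ≤ Z r2 at hz2
  have hw1' : w1 ∈ Icc c d := ⟨hw1.1, hw1.2.trans hu₂.2⟩
  have hw2' : w2 ∈ Icc c d := ⟨hw2.1, hw2.2.trans hu₂.2⟩
  have hww : w1 = w2 := han.injOn hw1' hw2' (hx1.symm.trans hx2)
  subst hww
  have hzeq : Z r2 = Z w1 := le_antisymm hz1 hz2
  have hrc : r2 < c := lt_of_le_of_lt hr.2 hv.2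
  have := hinj r2 ⟨hu₁.1.trans hr.1, hrc.le.trans hcd⟩ w1 ⟨hac.trans hw1.1, hw1'.2⟩ hx1 hzeq
  rw [this] at hrc
  exact absurd hw1.1 (not_le.2 hrc)

theorem hasDeriv (Λ : LC.LegKnot) (u : ℝ) : HasDerivAt Λ.γ (deriv Λ.γ u) u :=
  ((Λ.smooth.differentiable (by simp)) u).hasDerivAt

theorem hx (Λ : LC.LegKnot) (u : ℝ) : HasDerivAt Λ.x (deriv Λ.γ u).1 u := by
  have h := (hasFDerivAt_fst (𝕜 := ℝ) (E := ℝ) (F := ℝ × ℝ) (p := Λ.γ u)).comp_hasDerivAt u
    (hasDeriv Λ u)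
  exact h

theorem h2 (Λ : LC.LegKnot) (u : ℝ) : HasDerivAt (fun v => (Λ.γ v).2) (deriv Λ.γ u).2 u := by
  have h := (hasFDerivAt_snd (𝕜 := ℝ) (E := ℝ) (F := ℝ × ℝ) (p := Λ.γ u)).comp_hasDerivAt u
    (hasDeriv Λ u)
  exact h

theorem hy (Λ : LC.LegKnot) (u : ℝ) : HasDerivAt Λ.y (deriv Λ.γ u).2.1 u := by
  have h := (hasFDerivAt_fst (𝕜 := ℝ) (E := ℝ) (F := ℝ) (p := (Λ.γ u).2)).comp_hasDerivAt u
    (h2 Λ u)
  exact h

theorem hz (Λ : LC.LegKnot) (u : ℝ) : HasDerivAt (zz Λ) (Λ.y u * deriv Λ.x u) u := by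
  have h := (hasFDerivAt_snd (𝕜 := ℝ) (E := ℝ) (F := ℝ) (p := (Λ.γ u).2)).comp_hasDerivAt u
    (h2 Λ u)
  have h3 : HasDerivAt (zz Λ) (deriv Λ.γ u).2.2 u := h
  have h4 := Λ.legendrian u
  unfold LC.alpha at h4
  have h5 : (deriv Λ.γ u).2.2 - Λ.y u * (deriv Λ.γ u).1 = 0 := h4
  rw [(hx Λ u).deriv]
  rw [sub_eq_zero] at h5
  rw [← h5]
  exact h3

end CUS

theorem t_CUS : Stmt_CUS := by
  intro Λ s o a c d _ _ h1 h2 hinj hpos
  have hX : ∀ u, HasDerivAt (fun u => sn s * Λ.x u) (sn s * deriv Λ.x u) u := fun u => by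
    have h := (CUS.hx Λ u).const_mul (sn s)
    rw [(CUS.hx Λ u).deriv]
    exact h
  have hZ : ∀ u, HasDerivAt (fun u => sn o * zz Λ u)
      (sn o * (sn s * Λ.y u) * (sn s * deriv Λ.x u)) u := fun u => by
    have h := (CUS.hz Λ u).const_mul (sn o)
    have e : sn o * (sn s * Λ.y u) * (sn s * deriv Λ.x u) = sn o * (Λ.y u * deriv Λ.x u) := by
      have := sn_sq s
      calc sn o * (sn s * Λ.y u) * (sn s * deriv Λ.x u) =
          (sn s * sn s) * (sn o * (Λ.y u * deriv Λ.x u)) := by ring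
        _ = _ := by rw [this, one_mul]
    rw [e]
    exact h
  have hY : HasDerivAt (fun u => sn o * (sn s * Λ.y u)) (sn o * (sn s * deriv Λ.y c)) c := by
    have h := ((CUS.hy Λ c).const_mul (sn s)).const_mul (sn o)
    rw [(CUS.hy Λ c).deriv]
    exact h
  intro u₁ hu₁ u₂ hu₂ hx hne
  refine CUS.core (fun u => sn s * Λ.x u) (fun u => sn o * (sn s * Λ.y u))
    (fun u => sn o * zz Λ u) (fun u => sn s * deriv Λ.x u) _ a c d hX hZ hY hpos h1 h2 ?_
    u₁ hu₁ u₂ hu₂ (congrArg (fun t => sn s * t) hx) hne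
  intro u hu v hv hxe hze
  have hs : sn s ≠ 0 := by rcases sn_or s with h | h <;> rw [h] <;> norm_num
  have ho : sn o ≠ 0 := by rcases sn_or o with h | h <;> rw [h] <;> norm_num
  have e1 : Λ.x u = Λ.x v := mul_left_cancel₀ hs hxe
  have e2 : zz Λ u = zz Λ v := mul_left_cancel₀ ho hze
  refine hinj hu hv ?_
  exact Prod.ext e1 e2

end LHE


end
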