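import Mathlib
import Pool.Agent.NDM.C02

/-! Parts: LG.DD, LG.EPS, LG.LCOL, LG.PC, LG.PT2, LG.SB0, LG.WT1 -/

section

/-!
# DD: the square of the differential vanishes
-/

namespace LG.DD

open Equiv Finset Function

section Sums

variable {ι R : Type} [Fintype ι] [DecidableEq ι] [CommRing R]

theorem a1 (A : ι → ι → ι → R) :
    ∑ k, ∑ l, ∑ i, ∑ j, (if i = k then A i j l else 0) = ∑ p, ∑ q, ∑ r, A p q r := by
  refine Finset.sum_congr rfl fun k _ => ?_
  rw [Finset.sum_comm (f := fun q r => A k q r)]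
  refine Finset.sum_congr rfl fun l _ => ?_
  rw [Finset.sum_eq_single k]
  · simp
  · intro b _ hb
    simp [hb]
  · simp

theorem a2 (A : ι → ι → ι → R) :
    ∑ k, ∑ l, ∑ i, ∑ j, (if i = l then A i j k else 0) = ∑ p, ∑ q, ∑ r, A p q r := by
  rw [Finset.sum_comm, ← a1 A]

theorem a3 (A : ι → ι → ι → R) :
    ∑ k, ∑ l, ∑ i, ∑ j, (if j = k then A j i l else 0) = ∑ p, ∑ q, ∑ r, A p q r := by
  rw [← a1 A]
  refine Finset.sum_congr rfl fun k _ => Finset.sum_congr rfl fun l _ => ?_
  rw [Finset.sum_comm]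

theorem a4 (A : ι → ι → ι → R) :
    ∑ k, ∑ l, ∑ i, ∑ j, (if j = l then A j i k else 0) = ∑ p, ∑ q, ∑ r, A p q r := by
  rw [Finset.sum_comm, ← a3 A]

theorem a5 (A : ι → ι → R) :
    ∑ k, ∑ l, ∑ i, ∑ j, (if i = k ∧ j = l then A i j else 0) = ∑ p, ∑ q, A p q := by
  refine Finset.sum_congr rfl fun k _ => Finset.sum_congr rfl fun l _ => ?_
  rw [Finset.sum_eq_single k]
  · rw [Finset.sum_eq_single l]
    · simp
    · intro b _ hb
      simp [hb]
    · simp
  · intro b _ hb
    simp [hb]
  · simp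

theorem a6 (A : ι → ι → R) :
    ∑ k, ∑ l, ∑ i, ∑ j, (if i = l ∧ j = k then A i j else 0) = ∑ p, ∑ q, A p q := by
  rw [Finset.sum_comm, ← a5 A]

theorem pt (T : ι → ι → ι → ι → R) (h1 : ∀ i k l, T i i k l = 0) (h2 : ∀ i j k, T i j k k = 0)
    (i j k l : ι) :
    T i j k l = (if i ≠ k ∧ i ≠ l ∧ j ≠ k ∧ j ≠ l then T i j k l else 0) +
      ((if i = k then (if j ≠ l then T i j i l else 0) else 0) +
      (if i = l then (if j ≠ k then T i j k i else 0) else 0) +
      (if j = k then (if i ≠ l then T i j j l else 0) else 0) +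
      (if j = l then (if i ≠ k then T i j k j else 0) else 0)) +
      ((if i = k ∧ j = l then T i j i j else 0) + (if i = l ∧ j = k then T i j j i else 0)) := by
  by_cases hij : i = j
  · subst hij
    simp [h1]
  by_cases hkl : k = l
  · subst hkl
    rw [h2]
    by_cases hik : i = k
    · subst hik
      have : ¬ j = i := fun h => hij h.symm
      simp [h2, this]
    · by_cases hjk : j = k
      · subst hjk
        simp [h2, hij]
      · simp [hik, hjk]
  by_cases hik : i = k
  · subst hik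
    have h3 : ¬ j = i := fun h => hij h.symm
    by_cases hjl : j = l
    · subst hjl
      simp [hkl, h3]
    · simp [hkl, hjl, h3]
  by_cases hil : i = l
  · subst hil
    have h3 : ¬ j = i := fun h => hij h.symm
    by_cases hjk : j = k
    · subst hjk
      simp [hik, h3]
    · simp [hik, hjk, h3]
  by_cases hjk : j = k
  · subst hjk
    simp [hij, hil, hkl]
  by_cases hjl : j = l
  · subst hjl
    simp [hij, hik, hjk]
  simp [hik, hil, hjk, hjl]

theorem split (T : ι → ι → ι → ι → R) (h1 : ∀ i k l, T i i k l = 0) (h2 : ∀ i j k, T i j k k = 0) :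
    ∑ k, ∑ l, ∑ i, ∑ j, T i j k l =
      (∑ k, ∑ l, ∑ i, ∑ j, if i ≠ k ∧ i ≠ l ∧ j ≠ k ∧ j ≠ l then T i j k l else 0) +
      (∑ p, ∑ q, ∑ r, if q ≠ r then T p q p r + T p q r p + T q p p r + T q p r p else 0) +
      ∑ p, ∑ q, (T p q p q + T p q q p) := by
  have e : ∀ k l i j, T i j k l = _ := fun k l i j => pt T h1 h2 i j k l
  have e1 := a1 fun p q r => if q ≠ r then T p q p r else 0
  have e2 := a2 fun p q r => if q ≠ r then T p q r p else 0
  have e3 := a3 fun p q r => if q ≠ r then T q p p r else 0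
  have e4 := a4 fun p q r => if q ≠ r then T q p r p else 0
  have e5 := a5 fun p q => T p q p q
  have e6 := a6 fun p q => T p q q p
  calc ∑ k, ∑ l, ∑ i, ∑ j, T i j k l
      = ∑ k, ∑ l, ∑ i, ∑ j, ((if i ≠ k ∧ i ≠ l ∧ j ≠ k ∧ j ≠ l then T i j k l else 0) +
      ((if i = k then (if j ≠ l then T i j i l else 0) else 0) +
      (if i = l then (if j ≠ k then T i j k i else 0) else 0) +
      (if j = k then (if i ≠ l then T i j j l else 0) else 0) +
      (if j = l then (if i ≠ k then T i j k j else 0) else 0)) +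
      ((if i = k ∧ j = l then T i j i j else 0) + (if i = l ∧ j = k then T i j j i else 0))) :=
        Finset.sum_congr rfl fun k _ => Finset.sum_congr rfl fun l _ =>
          Finset.sum_congr rfl fun i _ => Finset.sum_congr rfl fun j _ => pt T h1 h2 i j k l
    _ = _ := by
      simp only [Finset.sum_add_distrib]
      rw [e1, e2, e3, e4, e5, e6]
      have : ∀ p q r : ι, (if q ≠ r then T p q p r + T p q r p + T q p p r + T q p r p else 0) =
        (if q ≠ r then T p q p r else 0) + (if q ≠ r then T p q r p else 0) +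
          (if q ≠ r then T q p p r else 0) + (if q ≠ r then T q p r p else 0) := by
        intro p q r
        split_ifs <;> ring
      simp only [this, Finset.sum_add_distrib]

theorem disj (h2 : (2 : R) = 0) (T : ι → ι → ι → ι → R)
    (h : ∀ i j k l, i ≠ k → i ≠ l → j ≠ k → j ≠ l → T i j k l = T k l i j) :
    (∑ k, ∑ l, ∑ i, ∑ j, if i ≠ k ∧ i ≠ l ∧ j ≠ k ∧ j ≠ l then T i j k l else 0) = 0 := by
  have e : (∑ k, ∑ l, ∑ i, ∑ j, if i ≠ k ∧ i ≠ l ∧ j ≠ k ∧ j ≠ l then T i j k l else 0) =
      ∑ a : (ι × ι) × (ι × ι), if a.2.1 ≠ a.1.1 ∧ a.2.1 ≠ a.1.2 ∧ a.2.2 ≠ a.1.1 ∧ a.2.2 ≠ a.1.2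
        then T a.2.1 a.2.2 a.1.1 a.1.2 else 0 := by
    simp only [Fintype.sum_prod_type]
  rw [e]
  refine Finset.sum_involution (fun a _ => (a.2, a.1)) ?_ ?_ ?_ ?_
  · rintro ⟨⟨k, l⟩, ⟨i, j⟩⟩ _
    by_cases hc : i ≠ k ∧ i ≠ l ∧ j ≠ k ∧ j ≠ l
    · obtain ⟨c1, c2, c3, c4⟩ := hc
      simp only [ne_eq, c1, c2, c3, c4, c1.symm, c2.symm, c3.symm, c4.symm, not_false_eq_true,
        and_self, if_true]
      rw [h i j k l c1 c2 c3 c4]
      linear_combination (T k l i j) * h2
    · have hc' : ¬ (k ≠ i ∧ k ≠ j ∧ l ≠ i ∧ l ≠ j) := fun hh =>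
        hc ⟨hh.1.symm, hh.2.2.1.symm, hh.2.1.symm, hh.2.2.2.symm⟩
      simp only [hc, hc', if_false, add_zero]
  · rintro ⟨⟨k, l⟩, ⟨i, j⟩⟩ _ hne heq
    simp only [Prod.mk.injEq] at heq
    apply hne
    rw [if_neg]
    intro hc
    exact hc.1 heq.1.1
  · intro a _
    exact Finset.mem_univ _
  · intro a _
    rfl

theorem cycl (F : ι → ι → ι → R) :
    ∑ p, ∑ q, ∑ r, F q r p = ∑ p, ∑ q, ∑ r, F p q r := by
  rw [Finset.sum_comm]
  refine Finset.sum_congr rfl fun q _ => ?_
  rw [Finset.sum_comm]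

theorem trip (h2 : (2 : R) = 0) (K : ι → ι → ι → R)
    (h0 : ∀ p q r, p = q ∨ p = r → K p q r = 0)
    (h : ∀ p q r, p ≠ q → q ≠ r → p ≠ r → K p q r + K q r p + K r p q = 0) :
    (∑ p, ∑ q, ∑ r, if q ≠ r then K p q r else 0) = 0 := by
  have c1 := cycl fun p q r => if q ≠ r then K p q r else 0
  have c2 := cycl fun p q r => if p ≠ q then K r p q else 0
  have e : (∑ p, ∑ q, ∑ r, ((if q ≠ r then K p q r else 0) + (if r ≠ p then K q r p else 0) +
      (if p ≠ q then K r p q else 0))) = 0 := by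
    refine Finset.sum_eq_zero fun p _ => Finset.sum_eq_zero fun q _ =>
      Finset.sum_eq_zero fun r _ => ?_
    by_cases hpq : p = q
    · subst hpq
      by_cases hpr : p = r
      · subst hpr
        simp
      · simp [h0 p p r (Or.inl rfl), h0 p r p (Or.inr rfl)]
    · by_cases hqr : q = r
      · subst hqr
        simp [h0 q q p (Or.inl rfl), h0 q p q (Or.inr rfl)]
      · by_cases hpr : p = r
        · subst hpr
          simp [h0 p q p (Or.inr rfl), h0 p p q (Or.inl rfl)]
        · have hrp : r ≠ p := fun hh => hpr hh.symm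
          simp only [ne_eq, hpq, hqr, hrp, not_false_eq_true, if_true]
          exact h p q r hpq hqr hpr
  simp only [Finset.sum_add_distrib] at e
  rw [c1, ← c2] at e
  linear_combination e - (∑ p, ∑ q, ∑ r, if q ≠ r then K p q r else 0) * h2

end Sums

theorem wt_self {ι M α β R : Type} [Fintype ι] [DecidableEq ι] [Fintype M] [LinearOrder α]
    [LinearOrder β] [CommRing R] (G : MG ι M α β R) (x : Perm ι) (i : ι) : Wt G x i i = 0 := by
  unfold Wt
  rw [if_neg]
  exact fun h => h.1 rfl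

theorem sw1 {ι : Type} [DecidableEq ι] (p q r : ι) (h1 : p ≠ q) (h2 : q ≠ r) (h3 : p ≠ r) :
    swap p r * swap p q = swap q p * swap q r := by
  ext a
  simp only [Perm.mul_apply, swap_apply_def]
  split_ifs <;> simp_all

end LG.DD

theorem LG.DD.swc {ι : Type} [DecidableEq ι] (i j k l : ι) (a : i ≠ k) (b : i ≠ l) (c : j ≠ k)
    (d : j ≠ l) : Equiv.swap k l * Equiv.swap i j = Equiv.swap i j * Equiv.swap k l := by
  ext t
  simp only [Equiv.Perm.mul_apply, Equiv.swap_apply_def]
  split_ifs <;> simp_all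

theorem LG.t_DD : LG.Stmt_DD := by
  intro w0 w1 w2 ι M α β R _ _ _ _ _ _ G h2 hu hv hc hr f
  funext z
  set T : ι → ι → ι → ι → R := fun i j k l =>
    f (z * Equiv.swap k l * Equiv.swap i j) *
      LG.Wt G (z * Equiv.swap k l * Equiv.swap i j) i j * LG.Wt G (z * Equiv.swap k l) k l with hT
  have e : LG.del G (LG.del G f) z = ∑ k, ∑ l, ∑ i, ∑ j, T i j k l := by
    simp only [LG.del, hT, Finset.sum_mul]
  have key : ∀ (x : Equiv.Perm ι) (i j : ι), x * Equiv.swap i j * Equiv.swap i j = x := by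
    intro x i j
    rw [mul_assoc, Equiv.swap_mul_self, mul_one]
  have h1 : ∀ i k l, T i i k l = 0 := by
    intro i k l
    simp only [hT, LG.DD.wt_self, mul_zero, zero_mul]
  have h3 : ∀ i j k, T i j k k = 0 := by
    intro i j k
    simp only [hT, LG.DD.wt_self, mul_zero]
  rw [e, LG.DD.split T h1 h3]
  have s0 := LG.DD.disj h2 T (by
    intro i j k l a b c d
    have hcm := LG.DD.swc i j k l a b c d
    have hx : z * Equiv.swap k l * Equiv.swap i j = z * Equiv.swap i j * Equiv.swap k l := by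
      rw [mul_assoc, hcm, ← mul_assoc]
    have hw := w0 ι M α β R G hu hv (z * Equiv.swap k l * Equiv.swap i j) i j k l a b c d
    rw [key] at hw
    have hw2 : z * Equiv.swap k l * Equiv.swap i j * Equiv.swap k l = z * Equiv.swap i j := by
      rw [hx, key]
    rw [hw2] at hw
    simp only [hT]
    rw [← hx]
    linear_combination f (z * Equiv.swap k l * Equiv.swap i j) * hw)
  have s2 : ∑ p, ∑ q, (T p q p q + T p q q p) = 0 := by
    refine Finset.sum_eq_zero fun p _ => Finset.sum_eq_zero fun q _ => ?_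
    have hx := w2 ι M α β R G hu hv hc hr z p q
    simp only [hT, Equiv.swap_comm q p, key]
    rw [mul_assoc, hx.1, mul_assoc, hx.2]
    simp
  have hK : ∀ p q r, T p q p r + T p q r p + T q p p r + T q p r p =
      f (z * (Equiv.swap p r * Equiv.swap p q)) *
        (LG.W2 G (z * (Equiv.swap p r * Equiv.swap p q)) p q *
        LG.W2 G (z * (Equiv.swap p r * Equiv.swap p q) * Equiv.swap p q) p r) := by
    intro p q r
    have e1 : z * (Equiv.swap p r * Equiv.swap p q) = z * Equiv.swap p r * Equiv.swap p q := by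
      rw [mul_assoc]
    rw [e1, key]
    simp only [hT, LG.W2, Equiv.swap_comm q p, Equiv.swap_comm r p]
    ring
  have s1 := LG.DD.trip h2 (fun p q r => T p q p r + T p q r p + T q p p r + T q p r p)
    (by
      rintro p q r (rfl | rfl)
      · simp only [h1, add_zero]
      · simp only [h3, add_zero])
    (by
      intro p q r a b c
      have w := w1 ι M α β R G h2 hu hv (z * (Equiv.swap p r * Equiv.swap p q)) p q r a b c
      simp only [hK]
      have g1 := LG.DD.sw1 p q r a b c
      have g2 := LG.DD.sw1 q r p b c.symm a.symm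
      rw [← g2, ← g1]
      rw [← mul_add, ← mul_add, w, mul_zero])
  rw [s0, s1, s2]
  simp


end

section

/-!
# EPS: commutation with the map through one mark, by dual numbers
-/

namespace LG

open Equiv Finset Function

namespace EPS

section

set_option linter.unusedSectionVars false

variable {ι κ α β : Type} [Fintype ι] [DecidableEq ι] [Fintype κ] [DecidableEq κ]
  [LinearOrder α] [LinearOrder β]

/-- The indicator of the rectangles whose set of marks is exactly `S`. -/
def E (c : ι → α) (r : ι → β) (a : κ → α) (b : κ → β) (S : Finset (ι ⊕ κ)) (x : Perm ι)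
    (i j : ι) : ZMod 2 :=
  if i ≠ j ∧ Emp (gm c r a b) x i j ∧
    (univ.filter fun m => Ins (gm c r a b) x i j m) = S then 1 else 0

theorem bdS_eq (c : ι → α) (r : ι → β) (a : κ → α) (b : κ → β) (S : Finset (ι ⊕ κ))
    (f : Perm ι → ZMod 2) (y : Perm ι) :
    bdS c r a b S f y = ∑ i, ∑ j, f (y * Equiv.swap i j) * E c r a b S (y * Equiv.swap i j) i j := rfl

/-- The weighted grid with the weight `ε` at the mark `m`. -/
def G1 (c : ι → α) (r : ι → β) (a : κ → α) (b : κ → β) (m : ι ⊕ κ) :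
    MG ι (ι ⊕ κ) α β (DualNumber (ZMod 2)) where
  u := c
  v := r
  p := Sum.elim c a
  q := Sum.elim r b
  w := fun m' => if m' = m then DualNumber.eps else 0

theorem emp_iff (c : ι → α) (r : ι → β) (a : κ → α) (b : κ → β) (m : ι ⊕ κ) (x : Perm ι)
    (i j : ι) : Emp (G1 c r a b m) x i j ↔ Emp (gm c r a b) x i j := Iff.rfl

theorem ins_iff (c : ι → α) (r : ι → β) (a : κ → α) (b : κ → β) (m : ι ⊕ κ) (x : Perm ι)
    (i j : ι) (m' : ι ⊕ κ) : Ins (G1 c r a b m) x i j m' ↔ Ins (gm c r a b) x i j m' := Iff.rfl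

theorem wt_eq (c : ι → α) (r : ι → β) (a : κ → α) (b : κ → β) (m : ι ⊕ κ) (x : Perm ι)
    (i j : ι) : Wt (G1 c r a b m) x i j =
      TrivSqZeroExt.inl (E c r a b ∅ x i j) + TrivSqZeroExt.inr (E c r a b {m} x i j) := by
  unfold Wt E
  simp only [emp_iff, ins_iff]
  by_cases h : i ≠ j ∧ Emp (gm c r a b) x i j
  · rw [if_pos h, ← Finset.prod_filter]
    by_cases h0 : (univ.filter fun m' => Ins (gm c r a b) x i j m') = ∅
    · have h1 : ¬ (univ.filter fun m' => Ins (gm c r a b) x i j m') = {m} := by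
        rw [h0]; exact (Finset.singleton_ne_empty m).symm
      rw [if_pos ⟨h.1, h.2, h0⟩, if_neg (fun hh => h1 hh.2.2), h0, Finset.prod_empty]
      ext <;> simp
    · rw [if_neg (fun hh => h0 hh.2.2)]
      by_cases h1 : (univ.filter fun m' => Ins (gm c r a b) x i j m') = {m}
      · rw [if_pos ⟨h.1, h.2, h1⟩, h1, Finset.prod_singleton]
        ext <;> simp [G1]
      · rw [if_neg (fun hh => h1 hh.2.2)]
        have h2 : ∃ m' ∈ (univ.filter fun m' => Ins (gm c r a b) x i j m'), m' ≠ m := by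
          by_contra hc
          push Not at hc
          apply h1
          obtain ⟨m₀, hm₀⟩ := Finset.nonempty_iff_ne_empty.mpr h0
          apply Finset.eq_singleton_iff_unique_mem.mpr
          refine ⟨?_, hc⟩
          have := hc m₀ hm₀
          rwa [this] at hm₀
        obtain ⟨m', hm', hne⟩ := h2
        rw [Finset.prod_eq_zero hm' (by simp [G1, hne])]
        ext <;> simp
  · rw [if_neg h, if_neg (fun hh => h ⟨hh.1, hh.2.1⟩), if_neg (fun hh => h ⟨hh.1, hh.2.1⟩)]
    ext <;> simp

theorem fst_sum {s : Type} (t : Finset s) (f : s → DualNumber (ZMod 2)) :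
    TrivSqZeroExt.fst (∑ i ∈ t, f i) = ∑ i ∈ t, TrivSqZeroExt.fst (f i) := by
  classical
  induction t using Finset.induction_on with
  | empty => simp
  | insert a t ha ih => rw [Finset.sum_insert ha, Finset.sum_insert ha, TrivSqZeroExt.fst_add, ih]

theorem snd_sum {s : Type} (t : Finset s) (f : s → DualNumber (ZMod 2)) :
    TrivSqZeroExt.snd (∑ i ∈ t, f i) = ∑ i ∈ t, TrivSqZeroExt.snd (f i) := by
  classical
  induction t using Finset.induction_on with
  | empty => simp
  | insert a t ha ih => rw [Finset.sum_insert ha, Finset.sum_insert ha, TrivSqZeroExt.snd_add, ih]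

theorem fst_del (c : ι → α) (r : ι → β) (a : κ → α) (b : κ → β) (m : ι ⊕ κ)
    (F : Perm ι → DualNumber (ZMod 2)) (y : Perm ι) :
    TrivSqZeroExt.fst (del (G1 c r a b m) F y) =
      bdS c r a b ∅ (fun x => TrivSqZeroExt.fst (F x)) y := by
  rw [bdS_eq]
  unfold del
  rw [fst_sum]
  refine Finset.sum_congr rfl fun i _ => ?_
  rw [fst_sum]
  refine Finset.sum_congr rfl fun j _ => ?_
  rw [wt_eq, TrivSqZeroExt.fst_mul]
  simp

theorem snd_del (c : ι → α) (r : ι → β) (a : κ → α) (b : κ → β) (m : ι ⊕ κ)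
    (F : Perm ι → DualNumber (ZMod 2)) (y : Perm ι) :
    TrivSqZeroExt.snd (del (G1 c r a b m) F y) =
      bdS c r a b {m} (fun x => TrivSqZeroExt.fst (F x)) y +
        bdS c r a b ∅ (fun x => TrivSqZeroExt.snd (F x)) y := by
  rw [bdS_eq, bdS_eq]
  unfold del
  rw [snd_sum, ← Finset.sum_add_distrib]
  refine Finset.sum_congr rfl fun i _ => ?_
  rw [snd_sum, ← Finset.sum_add_distrib]
  refine Finset.sum_congr rfl fun j _ => ?_
  rw [wt_eq, TrivSqZeroExt.snd_mul]
  simp [mul_comm]

theorem bdS_zero (c : ι → α) (r : ι → β) (a : κ → α) (b : κ → β) (S : Finset (ι ⊕ κ)) :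
    bdS c r a b S (fun _ => 0) = fun _ => 0 := by
  funext y
  rw [bdS_eq]
  simp

theorem colZero (c : ι → α) (r : ι → β) (a : κ → α) (b : κ → β) (h : Gd c r a b) (m : ι ⊕ κ) :
    ColZero (G1 c r a b m) := by
  intro i j _ _
  by_cases hm : m = Sum.inl i
  · obtain ⟨n, hn⟩ := h.ca i
    refine Finset.prod_eq_zero (Finset.mem_univ (Sum.inr n : ι ⊕ κ)) ?_
    have h1 : ico ((G1 c r a b m).u i) ((G1 c r a b m).p (Sum.inr n)) ((G1 c r a b m).u j) :=
      Or.inl hn.symm
    rw [if_pos h1]
    subst hm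
    simp [G1]
  · refine Finset.prod_eq_zero (Finset.mem_univ (Sum.inl i : ι ⊕ κ)) ?_
    have h1 : ico ((G1 c r a b m).u i) ((G1 c r a b m).p (Sum.inl i)) ((G1 c r a b m).u j) :=
      Or.inl rfl
    rw [if_pos h1]
    have h2 : (Sum.inl i : ι ⊕ κ) ≠ m := fun e => hm e.symm
    simp [G1, h2]

theorem rowZero (c : ι → α) (r : ι → β) (a : κ → α) (b : κ → β) (h : Gd c r a b) (m : ι ⊕ κ) :
    RowZero (G1 c r a b m) := by
  intro i j _ _
  by_cases hm : m = Sum.inl i
  · obtain ⟨n, hn⟩ := h.rb i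
    refine Finset.prod_eq_zero (Finset.mem_univ (Sum.inr n : ι ⊕ κ)) ?_
    have h1 : ico ((G1 c r a b m).v i) ((G1 c r a b m).q (Sum.inr n)) ((G1 c r a b m).v j) :=
      Or.inl hn.symm
    rw [if_pos h1]
    subst hm
    simp [G1]
  · refine Finset.prod_eq_zero (Finset.mem_univ (Sum.inl i : ι ⊕ κ)) ?_
    have h1 : ico ((G1 c r a b m).v i) ((G1 c r a b m).q (Sum.inl i)) ((G1 c r a b m).v j) :=
      Or.inl rfl
    rw [if_pos h1]
    have h2 : (Sum.inl i : ι ⊕ κ) ≠ m := fun e => hm e.symm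
    simp [G1, h2]

theorem two_eq_zero : (2 : DualNumber (ZMod 2)) = 0 := by
  have h : (1 : ZMod 2) + 1 = 0 := by decide
  have h' : (2 : DualNumber (ZMod 2)) = 1 + 1 := one_add_one_eq_two.symm
  refine h'.trans ?_
  ext
  · rw [TrivSqZeroExt.fst_add, TrivSqZeroExt.fst_one, TrivSqZeroExt.fst_zero]; exact h
  · simp

theorem eq_of_add_eq_zero {x y : ZMod 2} (h : x + y = 0) : x = y := by
  revert x y; decide

theorem comm (hDD : P_DD) (c : ι → α) (r : ι → β) (a : κ → α) (b : κ → β) (h : Gd c r a b)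
    (m : ι ⊕ κ) (f : Perm ι → ZMod 2) :
    bdS c r a b {m} (bdS c r a b ∅ f) = bdS c r a b ∅ (bdS c r a b {m} f) := by
  have h0 := hDD ι (ι ⊕ κ) α β (DualNumber (ZMod 2)) (G1 c r a b m) two_eq_zero h.ci h.ri
    (colZero c r a b h m) (rowZero c r a b h m) (fun x => TrivSqZeroExt.inl (f x))
  funext y
  have h1 := congrArg TrivSqZeroExt.snd (congrFun h0 y)
  rw [snd_del] at h1
  have h2 : (fun x => TrivSqZeroExt.fst
      (del (G1 c r a b m) (fun x => (TrivSqZeroExt.inl (f x) : DualNumber (ZMod 2))) x)) =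
      bdS c r a b ∅ f := by
    funext x
    rw [fst_del]
    simp only [TrivSqZeroExt.fst_inl]
  have h3 : (fun x => TrivSqZeroExt.snd
      (del (G1 c r a b m) (fun x => (TrivSqZeroExt.inl (f x) : DualNumber (ZMod 2))) x)) =
      bdS c r a b {m} f := by
    funext x
    rw [snd_del]
    simp only [TrivSqZeroExt.fst_inl, TrivSqZeroExt.snd_inl]
    rw [bdS_zero, add_zero]
  rw [h2, h3] at h1
  exact eq_of_add_eq_zero h1

theorem bdS_empty (c : ι → α) (r : ι → β) (a : κ → α) (b : κ → β) (f : Perm ι → ZMod 2) :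
    bdS c r a b ∅ f = bd c r a b f := by
  funext y
  rw [bdS_eq]
  unfold bd del
  refine Finset.sum_congr rfl fun i _ => Finset.sum_congr rfl fun j _ => ?_
  have h1 : E c r a b ∅ (y * Equiv.swap i j) i j = Wt (gm c r a b) (y * Equiv.swap i j) i j := by
    unfold E Wt
    by_cases h : i ≠ j ∧ Emp (gm c r a b) (y * Equiv.swap i j) i j
    · rw [if_pos h, ← Finset.prod_filter]
      by_cases h0 : (univ.filter fun m' => Ins (gm c r a b) (y * Equiv.swap i j) i j m') = ∅
      · rw [if_pos ⟨h.1, h.2, h0⟩, h0, Finset.prod_empty]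
      · rw [if_neg (fun hh => h0 hh.2.2)]
        obtain ⟨m₀, hm₀⟩ := Finset.nonempty_iff_ne_empty.mpr h0
        rw [Finset.prod_eq_zero hm₀ rfl]
    · rw [if_neg h, if_neg (fun hh => h ⟨hh.1, hh.2.1⟩)]
  rw [h1]

end

end EPS

theorem t_EPS : Stmt_EPS := by
  intro hDD ι κ α β _ _ _ _ _ _ c r a b h m f
  exact ⟨EPS.comm hDD c r a b h m f, EPS.bdS_empty c r a b f⟩

end LG


end

section

/-! LG_LCOL: the column move for lists. -/

namespace LG

open Equiv Finset Function

namespace LCOL

theorem unl_symm {a b c d : ℝ} (hab : a ≠ b) (hcd : c ≠ d) (h : Unl a b c d) : Unl b a d c := by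
  unfold Unl cyc at *; grind

theorem unl_swap {a b c d : ℝ} (hab : a ≠ b) (hcd : c ≠ d) (h : Unl a b c d) : Unl d c b a := by
  unfold Unl cyc at *; grind

/-- order isomorphic column families. -/
theorem iso (hR : Stmt_REL) {ι : Type} [Fintype ι] [DecidableEq ι] (σ : ι → ι)
    (C C' R : ι → ℝ) (h : ∀ i j, C i < C j ↔ C' i < C' j) :
    V C R (fun i => C (σ i)) R ↔ V C' R (fun i => C' (σ i)) R := by
  have key : ∀ (D : ι → ℝ) (x : ι ⊕ ι),
      Sum.elim D (fun i => D (σ i)) x = D (Sum.elim id σ x) := by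
    intro D x
    cases x <;> rfl
  apply hR ι ι ι ι ℝ ℝ ℝ ℝ C R (fun i => C (σ i)) R C' R (fun i => C' (σ i)) R
    (Equiv.refl ι) (Equiv.refl ι)
  · intro x y z
    simp only [Equiv.sumCongr_refl, Equiv.coe_refl, id_eq, key]
    unfold cyc
    simp only [h]
  · intro x y
    simp only [Equiv.sumCongr_refl, Equiv.coe_refl, id_eq, key]
    have h1 := h (Sum.elim id σ x) (Sum.elim id σ y)
    have h2 := h (Sum.elim id σ y) (Sum.elim id σ x)
    constructor
    · intro he
      have n1 : ¬ C (Sum.elim id σ x) < C (Sum.elim id σ y) := by rw [he]; exact lt_irrefl _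
      have n2 : ¬ C (Sum.elim id σ y) < C (Sum.elim id σ x) := by rw [he]; exact lt_irrefl _
      rw [h1] at n1
      rw [h2] at n2
      exact le_antisymm (not_lt.mp n2) (not_lt.mp n1)
    · intro he
      have n1 : ¬ C' (Sum.elim id σ x) < C' (Sum.elim id σ y) := by rw [he]; exact lt_irrefl _
      have n2 : ¬ C' (Sum.elim id σ y) < C' (Sum.elim id σ x) := by rw [he]; exact lt_irrefl _
      rw [← h1] at n1
      rw [← h2] at n2
      exact le_antisymm (not_lt.mp n2) (not_lt.mp n1)
  · intro x y z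
    simp only [Equiv.sumCongr_refl, Equiv.coe_refl, id_eq]
  · intro x y
    simp only [Equiv.sumCongr_refl, Equiv.coe_refl, id_eq]

/-- `x` is strictly between `a` and `b`. -/
def bw (a x b : ℝ) : Prop := a < x ∧ x < b ∨ b < x ∧ x < a

noncomputable instance (a x b : ℝ) : Decidable (bw a x b) := by unfold bw; infer_instance

theorem gd {ι : Type} [Fintype ι] (σ : ι → ι) (hσ : Injective σ) (hf : ∀ i, σ i ≠ i)
    (C R : ι → ℝ) (hC : Injective C) (hRi : Injective R) :
    Gd C R (fun i => C (σ i)) R where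
  ci := hC
  ri := hRi
  ai := hC.comp hσ
  bi := hRi
  ac := fun m => ⟨σ m, rfl⟩
  ca := fun k => by
    obtain ⟨m, hm⟩ := (Finite.injective_iff_surjective.mp hσ) k
    exact ⟨m, by rw [hm]⟩
  br := fun m => ⟨m, rfl⟩
  rb := fun m => ⟨m, rfl⟩
  ne := fun k m h => by
    have h1 := hC h.1
    have h2 := hRi h.2
    subst h2
    exact hf k h1.symm

/-- exchange of two neighbouring columns. -/
theorem exch (hP : P_COL) {ι : Type} [Fintype ι] [DecidableEq ι] (σ : ι → ι)
    (hσ : Injective σ) (hf : ∀ i, σ i ≠ i) (C R : ι → ℝ) (hC : Injective C) (hRi : Injective R)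
    (i0 k m0 m : ι) (hk : k ≠ i0) (hm0 : σ m0 = i0) (hm : σ m = k)
    (hn : ∀ i, ¬ bw (C i0) (C i) (C k)) (hu : Unl (R m0) (R i0) (R m) (R k)) :
    V C R (fun i => C (σ i)) R ↔
      V (fun i => swap (C i0) (C k) (C i)) R (fun i => swap (C i0) (C k) (C (σ i))) R := by
  have hne : C k ≠ C i0 := fun h => hk (hC h)
  have n1 : R m0 ≠ R i0 := fun h => hf m0 (by rw [hm0]; exact (hRi h).symm)
  have n2 : R m ≠ R k := fun h => hf m (by rw [hm]; exact (hRi h).symm)
  have hg := gd σ hσ hf C R hC hRi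
  rcases lt_or_gt_of_ne hne with h | h
  · have h1 := hP ι ι ℝ ℝ C R (fun i => C (σ i)) R hg k i0 m m0 hk
      (by
        intro i hi
        apply hn i
        unfold cyc at hi
        unfold bw
        rcases hi with hi | hi | hi
        · right; exact hi
        · exact absurd (lt_trans hi.2 h) (lt_irrefl _)
        · exact absurd (lt_trans hi.1 h) (lt_irrefl _))
      (by simp only [hm]) (by simp only [hm0])
      (unl_swap n1 n2 hu)
    rw [h1, swap_comm (C k) (C i0)]
    rfl
  · have h1 := hP ι ι ℝ ℝ C R (fun i => C (σ i)) R hg i0 k m0 m (Ne.symm hk)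
      (by
        intro i hi
        apply hn i
        unfold cyc at hi
        unfold bw
        rcases hi with hi | hi | hi
        · left; exact hi
        · exact absurd (lt_trans hi.2 h) (lt_irrefl _)
        · exact absurd (lt_trans hi.1 h) (lt_irrefl _))
      (by simp only [hm0]) (by simp only [hm])
      (unl_symm n1 n2 hu)
    rw [h1]
    rfl

/-- the move for families. -/
theorem fam (hP : P_COL) (hR : Stmt_REL) {ι : Type} [Fintype ι] [DecidableEq ι] (σ : ι → ι)
    (hσ : Injective σ) (hf : ∀ i, σ i ≠ i) (R : ι → ℝ) (hRi : Injective R)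
    (i0 m0 : ι) (hm0 : σ m0 = i0) (t : ℝ) (N : ℕ) :
    ∀ C : ι → ℝ, Injective C → (∀ i, C i ≠ t) →
      (∀ m, bw (C i0) (C (σ m)) t → Unl (R m0) (R i0) (R m) (R (σ m))) →
      (univ.filter fun i => bw (C i0) (C i) t).card = N →
      (V C R (fun i => C (σ i)) R ↔
        V (update C i0 t) R (fun i => update C i0 t (σ i)) R) := by
  induction N with
  | zero =>
    intro C hC ht _ hc
    have hno : ∀ i, ¬ bw (C i0) (C i) t := by
      intro i hi
      have : i ∈ (univ.filter fun i => bw (C i0) (C i) t) := by simp [hi]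
      rw [Finset.card_eq_zero] at hc
      rw [hc] at this
      simp at this
    apply iso hR σ
    intro i j
    by_cases hi : i = i0
    · subst hi
      by_cases hj : j = i
      · subst hj; simp
      · rw [update_self, update_of_ne hj]
        have h1 := hno j
        have h2 := ht j
        have h3 : C j ≠ C i := fun h => hj (hC h)
        unfold bw at h1
        grind
    · by_cases hj : j = i0
      · subst hj
        rw [update_self, update_of_ne hi]
        have h1 := hno i
        have h2 := ht i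
        have h3 : C i ≠ C j := fun h => hi (hC h)
        unfold bw at h1
        grind
      · rw [update_of_ne hi, update_of_ne hj]
  | succ N ih =>
    intro C hC ht hu hc
    set S := univ.filter fun i => bw (C i0) (C i) t with hS
    have hSn : S.Nonempty := by
      rw [← Finset.card_pos, hc]; exact Nat.succ_pos N
    obtain ⟨k, hkS, hkmin⟩ := Finset.exists_min_image S (fun i => |C i - C i0|) hSn
    have hkb : bw (C i0) (C k) t := by
      rw [hS, Finset.mem_filter] at hkS; exact hkS.2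
    have hk : k ≠ i0 := by
      rintro rfl
      unfold bw at hkb
      grind
    obtain ⟨m, hm⟩ := (Finite.injective_iff_surjective.mp hσ) k
    have hn : ∀ i, ¬ bw (C i0) (C i) (C k) := by
      intro i hi
      have hiS : i ∈ S := by
        rw [hS, Finset.mem_filter]
        refine ⟨Finset.mem_univ _, ?_⟩
        unfold bw at *
        grind
      have h1 := hkmin i hiS
      unfold bw at hi
      rcases hi with hi | hi
      · rw [abs_of_pos (by linarith), abs_of_pos (by linarith)] at h1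
        linarith
      · rw [abs_of_neg (by linarith), abs_of_neg (by linarith)] at h1
        linarith
    have hum := hu m (by rw [hm]; exact hkb)
    rw [hm] at hum
    rw [exch hP σ hσ hf C R hC hRi i0 k m0 m hk hm0 hm hn hum]
    set C' : ι → ℝ := fun i => swap (C i0) (C k) (C i) with hC'
    have hC'i : Injective C' := (swap (C i0) (C k)).injective.comp hC
    have e0 : C' i0 = C k := by simp [hC']
    have e1 : C' k = C i0 := by simp [hC']
    have e2 : ∀ i, i ≠ i0 → i ≠ k → C' i = C i := by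
      intro i h1 h2
      simp only [hC']
      exact swap_apply_of_ne_of_ne (fun h => h1 (hC h)) (fun h => h2 (hC h))
    have ht' : ∀ i, C' i ≠ t := by
      intro i
      by_cases h1 : i = i0
      · rw [h1, e0]; exact ht k
      · by_cases h2 : i = k
        · rw [h2, e1]; exact ht i0
        · rw [e2 i h1 h2]; exact ht i
    have hsub : ∀ i, bw (C' i0) (C' i) t → i ≠ i0 ∧ i ≠ k ∧ bw (C i0) (C i) t := by
      intro i hi
      have a1 : i ≠ i0 := by
        rintro rfl
        unfold bw at hi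
        grind
      have a2 : i ≠ k := by
        rintro rfl
        rw [e0, e1] at hi
        unfold bw at *
        grind
      refine ⟨a1, a2, ?_⟩
      rw [e0, e2 i a1 a2] at hi
      unfold bw at *
      grind
    have hfil : (univ.filter fun i => bw (C' i0) (C' i) t) = S.erase k := by
      ext i
      simp only [Finset.mem_filter, Finset.mem_univ, true_and, Finset.mem_erase, hS]
      constructor
      · intro hi
        obtain ⟨_, b, c⟩ := hsub i hi
        exact ⟨b, c⟩
      · rintro ⟨b, d⟩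
        have a1 : i ≠ i0 := by
          rintro rfl
          unfold bw at d
          grind
        have hne : C i ≠ C k := fun h => b (hC h)
        have hn' := hn i
        rw [e0, e2 i a1 b]
        unfold bw at *
        grind
    have hcard : (univ.filter fun i => bw (C' i0) (C' i) t).card = N := by
      rw [hfil, Finset.card_erase_of_mem hkS, hc]; rfl
    have hih := ih C' hC'i ht'
      (by
        intro m' hm'
        obtain ⟨_, _, c⟩ := hsub _ hm'
        exact hu m' c)
      hcard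
    have hshow : V C' R (fun i => C' (σ i)) R ↔
        V (update C' i0 t) R (fun i => update C' i0 t (σ i)) R := hih
    refine Iff.trans hshow ?_
    apply iso hR σ
    have f : ∀ i, i ≠ i0 → i ≠ k → (C' i = C i ∧ C i ≠ C k ∧ C i ≠ C i0 ∧
        ¬ bw (C i0) (C i) (C k)) := by
      intro i h1 h2
      exact ⟨e2 i h1 h2, fun h => h2 (hC h), fun h => h1 (hC h), hn i⟩
    intro i j
    by_cases hi : i = i0
    · rw [hi, update_self, update_self]
      by_cases hj : j = i0
      · rw [hj, update_self, update_self]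
      · rw [update_of_ne hj, update_of_ne hj]
        by_cases hj' : j = k
        · rw [hj', e1]
          unfold bw at hkb
          grind
        · rw [e2 j hj hj']
    · rw [update_of_ne hi, update_of_ne hi]
      by_cases hi' : i = k
      · rw [hi', e1]
        by_cases hj : j = i0
        · rw [hj, update_self, update_self]
          unfold bw at hkb
          grind
        · rw [update_of_ne hj, update_of_ne hj]
          by_cases hj' : j = k
          · rw [hj', e1]
            simp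
          · obtain ⟨q1, q2, q3, q4⟩ := f j hj hj'
            rw [q1]
            unfold bw at q4
            grind
      · obtain ⟨p1, p2, p3, p4⟩ := f i hi hi'
        rw [p1]
        by_cases hj : j = i0
        · rw [hj, update_self, update_self]
        · rw [update_of_ne hj, update_of_ne hj]
          by_cases hj' : j = k
          · rw [hj', e1]
            unfold bw at p4
            grind
          · rw [e2 j hj hj']

/-- positions of a list with a given first column. -/
theorem get_cons (c r : ℝ) (T : List (ℝ × ℝ)) :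
    (fun i : Fin (T.length + 1) => (((c, r) :: T).get i).1) =
      update (fun i : Fin (T.length + 1) => (((0, r) :: T).get i).1) 0 c := by
  funext i
  refine Fin.cases ?_ (fun j => ?_) i
  · rw [update_self]; rfl
  · rw [update_of_ne (Fin.succ_ne_zero j)]; rfl

end LCOL

open _root_.LG.LCOL in
theorem t_LCOL : Stmt_LCOL := by
  intro hP hR c r t B z hnd ht hu
  set T : List (ℝ × ℝ) := B ++ [z] with hT
  have hTl : T.length = B.length + 1 := by rw [hT]; simp
  unfold Inv VL
  set σ : Fin (T.length + 1) → Fin (T.length + 1) := fun i => nx ((c, r) :: T) i with hσd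
  have hσv : ∀ i : Fin (T.length + 1), (σ i).1 = (i.1 + 1) % (T.length + 1) := fun i => rfl
  have hσ : Injective σ := by
    intro i j hij
    have h1 : (i.1 + 1) % (T.length + 1) = (j.1 + 1) % (T.length + 1) := by
      rw [← hσv, ← hσv, hij]
    apply Fin.ext
    have hi := i.2
    have hj := j.2
    by_cases a : i.1 + 1 < T.length + 1
    · by_cases b : j.1 + 1 < T.length + 1
      · rw [Nat.mod_eq_of_lt a, Nat.mod_eq_of_lt b] at h1
        omega
      · have b' : j.1 + 1 = T.length + 1 := by omega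
        rw [Nat.mod_eq_of_lt a, b', Nat.mod_self] at h1
        omega
    · have a' : i.1 + 1 = T.length + 1 := by omega
      by_cases b : j.1 + 1 < T.length + 1
      · rw [Nat.mod_eq_of_lt b, a', Nat.mod_self] at h1
        omega
      · omega
  have hf : ∀ i, σ i ≠ i := by
    intro i hi
    have h1 : (i.1 + 1) % (T.length + 1) = i.1 := by rw [← hσv, hi]
    have hi2 := i.2
    by_cases a : i.1 + 1 < T.length + 1
    · rw [Nat.mod_eq_of_lt a] at h1
      omega
    · have a' : i.1 + 1 = T.length + 1 := by omega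
      rw [a', Nat.mod_self] at h1
      omega
  set C : Fin (T.length + 1) → ℝ := fun i => (((c, r) :: T).get i).1 with hC
  set R : Fin (T.length + 1) → ℝ := fun i => (((c, r) :: T).get i).2 with hRd
  have hCi : Injective C := by
    have h1 := hnd.1
    intro i j hij
    have h2 := (List.nodup_iff_injective_get.mp h1)
    have h3 : (⟨i.1, by rw [List.length_map]; exact i.2⟩ : Fin (((c, r) :: T).map Prod.fst).length)
        = ⟨j.1, by rw [List.length_map]; exact j.2⟩ := by
      apply h2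
      simp only [List.get_eq_getElem, List.getElem_map]
      exact hij
    exact Fin.ext (Fin.mk.inj_iff.mp h3)
  have hRi : Injective R := by
    have h1 := hnd.2
    intro i j hij
    have h2 := (List.nodup_iff_injective_get.mp h1)
    have h3 : (⟨i.1, by rw [List.length_map]; exact i.2⟩ : Fin (((c, r) :: T).map Prod.snd).length)
        = ⟨j.1, by rw [List.length_map]; exact j.2⟩ := by
      apply h2
      simp only [List.get_eq_getElem, List.getElem_map]
      exact hij
    exact Fin.ext (Fin.mk.inj_iff.mp h3)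
  have hCt : ∀ i, C i ≠ t := by
    intro i hi
    apply ht
    rw [← hi, List.mem_map]
    exact ⟨((c, r) :: T).get i, List.get_mem _ _, rfl⟩
  have hupd : update C 0 t = fun i : Fin (T.length + 1) => (((t, r) :: T).get i).1 := by
    funext i
    refine Fin.cases ?_ (fun j => ?_) i
    · rw [update_self]; rfl
    · rw [update_of_ne (Fin.succ_ne_zero j)]; rfl
  have hR' : (fun i : Fin (T.length + 1) => (((t, r) :: T).get i).2) = R := by
    funext i
    refine Fin.cases ?_ (fun j => ?_) i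
    · rfl
    · rfl
  have main := fam hP hR σ hσ hf R hRi 0 ⟨T.length, Nat.lt_succ_self _⟩
    (Fin.ext (by rw [hσv]; exact Nat.mod_self _)) t _ C hCi hCt
    (by
      intro m hm
      have hC0 : C 0 = c := rfl
      have hR0 : R 0 = r := rfl
      have hRl : R ⟨T.length, Nat.lt_succ_self _⟩ = z.2 := by
        simp only [hRd, List.get_eq_getElem]
        have : ((c, r) :: T)[T.length]'(Nat.lt_succ_self _) = z := by
          have h9 : (c, r) :: T = ((c, r) :: B) ++ [z] := by rw [hT]; rfl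
          have h10 : T.length = ((c, r) :: B).length := by rw [hTl]; rfl
          simp [hT, List.getElem_cons, List.getElem_append]
        rw [this]
      rw [hRl, hR0]
      have hmlt : m.1 + 1 < T.length + 1 := by
        by_contra hcon
        have h1 : m.1 + 1 = T.length + 1 := by
          have := m.2
          omega
        have h2 : σ m = 0 := by
          apply Fin.ext
          rw [hσv, h1]
          exact Nat.mod_self _
        rw [h2] at hm
        unfold bw at hm
        grind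
      have hσm : σ m = ⟨m.1 + 1, hmlt⟩ := by
        apply Fin.ext
        rw [hσv]
        exact Nat.mod_eq_of_lt hmlt
      have hdec : (c, r) :: T = ((c, r) :: T).take m.1 ++
          ((c, r) :: T).get m :: ((c, r) :: T).get ⟨m.1 + 1, hmlt⟩ ::
            ((c, r) :: T).drop (m.1 + 2) := by
        conv_lhs => rw [← List.take_append_drop m.1 ((c, r) :: T)]
        congr 1
        rw [List.drop_eq_getElem_cons (i := m.1) (by exact m.2)]
        congr 1
        rw [List.drop_eq_getElem_cons (l := (c, r) :: T) (i := m.1 + 1) hmlt]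
        rfl
      rw [hσm] at hm ⊢
      exact hu _ _ _ _ hdec hm) rfl
  rw [hupd] at main
  refine Iff.trans main ?_
  rw [← hR']
  rfl

end LG


end

section

/-!
# PC: the pentagon map is a chain map (assembly)
-/

namespace LG

open Equiv Finset Function

namespace PC

variable {ι M α β R : Type} [Fintype ι] [DecidableEq ι] [Fintype M] [LinearOrder α]
  [LinearOrder β] [CommRing R]

omit [Fintype ι] in
theorem sum_pair (E : Finset ι) (p : ι) (hp : p ∈ E) (g : ι → ι → R) :
    ∑ i ∈ E, ∑ j ∈ E, g i j = g p p + ∑ q ∈ E.erase p, (g p q + g q p) +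
      ∑ k ∈ E.erase p, ∑ l ∈ E.erase p, g k l := by
  have h1 : ∀ h : ι → R, ∑ i ∈ E, h i = h p + ∑ i ∈ E.erase p, h i :=
    fun h => (Finset.add_sum_erase E h hp).symm
  rw [h1, h1 (fun j => g p j)]
  have h2 : ∀ k, ∑ j ∈ E, g k j = g k p + ∑ l ∈ E.erase p, g k l := fun k => h1 _
  simp only [h2]
  rw [Finset.sum_add_distrib, Finset.sum_add_distrib]
  ring

omit [Fintype ι] in
theorem sum_diag (E : Finset ι) (g : ι → ι → R) :
    ∑ q ∈ E, ∑ r ∈ E, g q r = ∑ q ∈ E, g q q + ∑ q ∈ E, ∑ r ∈ E.erase q, g q r := by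
  rw [← Finset.sum_add_distrib]
  refine Finset.sum_congr rfl fun q hq => ?_
  exact (Finset.add_sum_erase E (g q) hq).symm

omit [Fintype ι] in
theorem sum_symm (E : Finset ι) (H : ι → ι → R) :
    ∑ q ∈ E, ∑ r ∈ E.erase q, H q r = ∑ q ∈ E, ∑ r ∈ E.erase q, H r q := by
  rw [Finset.sum_comm' (t' := E) (s' := fun r => E.erase r)]
  intro x y
  simp only [Finset.mem_erase]
  tauto

theorem Wt_self (G : MG ι M α β R) (x : Perm ι) (i : ι) : Wt G x i i = 0 := by
  simp [Wt]

theorem Pw_self {G : MG ι M α β R} (D : PD G) (x : Perm ι) (i : ι) : Pw D x i i = 0 := by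
  simp [Pw]

theorem Pw_off {G : MG ι M α β R} (D : PD G) (x : Perm ι) (i j : ι) (hi : i ≠ D.i0)
    (hj : j ≠ D.i0) : Pw D x i j = 0 := by
  simp [Pw, hi, hj]

theorem del_eq (G : MG ι M α β R) (p : ι) (f : Perm ι → R) (y : Perm ι) :
    del G f y = ∑ r ∈ univ.erase p, f (y * swap p r) * W2 G (y * swap p r) p r +
      ∑ k ∈ univ.erase p, ∑ l ∈ univ.erase p,
        f (y * swap k l) * Wt G (y * swap k l) k l := by
  unfold del
  rw [sum_pair univ p (mem_univ p) (fun i j => f (y * swap i j) * Wt G (y * swap i j) i j)]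
  simp only [Wt_self, mul_zero, zero_add]
  congr 1
  refine Finset.sum_congr rfl fun q _ => ?_
  rw [swap_comm q p, W2]
  ring

theorem pent_eq {G : MG ι M α β R} (D : PD G) (f : Perm ι → R) (y : Perm ι) :
    pent D f y = ∑ q ∈ univ.erase D.i0,
      f (y * swap D.i0 q) * P2 D (y * swap D.i0 q) D.i0 q := by
  unfold pent
  rw [sum_pair univ D.i0 (mem_univ _) (fun i j => f (y * swap i j) * Pw D (y * swap i j) i j)]
  simp only [Pw_self, mul_zero, zero_add]
  rw [Finset.sum_eq_zero (s := univ.erase D.i0)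
    (f := fun k => ∑ l ∈ univ.erase D.i0, f (y * swap k l) * Pw D (y * swap k l) k l), add_zero]
  · refine Finset.sum_congr rfl fun q _ => ?_
    rw [swap_comm q D.i0, P2]
    ring
  · intro k hk
    refine Finset.sum_eq_zero fun l hl => ?_
    rw [Pw_off D _ k l (Finset.ne_of_mem_erase hk) (Finset.ne_of_mem_erase hl), mul_zero]

omit [Fintype ι] in
theorem swap_disj {p q k l : ι} (hkp : k ≠ p) (hlp : l ≠ p) (hkq : k ≠ q) (hlq : l ≠ q) :
    swap k l * swap p q = swap p q * swap k l := by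
  rw [mul_swap_eq_swap_mul, swap_apply_of_ne_of_ne hkp.symm hlp.symm,
    swap_apply_of_ne_of_ne hkq.symm hlq.symm]

omit [Fintype ι] in
theorem swap_t1 {p q r : ι} (hqr : r ≠ q) (hpr : r ≠ p) :
    swap p q * swap q r = swap p r * swap p q := by
  rw [mul_swap_eq_swap_mul, swap_apply_right, swap_apply_of_ne_of_ne hpr hqr]

omit [Fintype ι] in
theorem swap_t2 {p q r : ι} (hqp : q ≠ p) (hqr : r ≠ q) (hpr : r ≠ p) :
    swap r q * swap p r = swap p r * swap p q := by
  rw [mul_swap_eq_swap_mul, swap_apply_left, swap_apply_of_ne_of_ne hpr.symm hqp.symm,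
    swap_comm r q, swap_t1 hqr hpr]

end PC

theorem t_PC : Stmt_PC := by
  intro hP0 hP1 hP2 ι M α β R _ _ _ _ _ _ G D h2 hu hv f
  funext z
  set p := D.i0 with hp
  set E : Finset ι := univ.erase p with hE
  -- expansions
  have T1 : del D.G' (pent D f) z =
      ∑ r ∈ E, ∑ q ∈ E, f (z * swap p r * swap p q) * P2 D (z * swap p r * swap p q) p q *
        W2 D.G' (z * swap p r) p r +
      ∑ k ∈ E, ∑ l ∈ E, ∑ q ∈ E, f (z * swap k l * swap p q) *
        P2 D (z * swap k l * swap p q) p q * Wt D.G' (z * swap k l) k l := by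
    rw [PC.del_eq D.G' p]
    congr 1
    · refine Finset.sum_congr rfl fun r _ => ?_
      rw [PC.pent_eq, Finset.sum_mul]
    · refine Finset.sum_congr rfl fun k _ => Finset.sum_congr rfl fun l _ => ?_
      rw [PC.pent_eq, Finset.sum_mul]
  have T2 : pent D (del G f) z =
      ∑ q ∈ E, ∑ r ∈ E, f (z * swap p q * swap p r) * W2 G (z * swap p q * swap p r) p r *
        P2 D (z * swap p q) p q +
      ∑ q ∈ E, ∑ k ∈ E, ∑ l ∈ E, f (z * swap p q * swap k l) *
        Wt G (z * swap p q * swap k l) k l * P2 D (z * swap p q) p q := by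
    rw [PC.pent_eq, ← Finset.sum_add_distrib]
    refine Finset.sum_congr rfl fun q _ => ?_
    rw [PC.del_eq G p, add_mul, Finset.sum_mul, Finset.sum_mul]
    congr 1
    refine Finset.sum_congr rfl fun k _ => ?_
    rw [Finset.sum_mul]
  -- rearrangement of the second sums
  have B1 : ∑ k ∈ E, ∑ l ∈ E, ∑ q ∈ E, f (z * swap k l * swap p q) *
        P2 D (z * swap k l * swap p q) p q * Wt D.G' (z * swap k l) k l =
      ∑ q ∈ E, ∑ r ∈ E.erase q, f (z * swap q r * swap p q) *
        P2 D (z * swap q r * swap p q) p q * W2 D.G' (z * swap q r) q r +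
      ∑ q ∈ E, ∑ k ∈ E.erase q, ∑ l ∈ E.erase q, f (z * swap k l * swap p q) *
        P2 D (z * swap k l * swap p q) p q * Wt D.G' (z * swap k l) k l := by
    have e1 : ∑ k ∈ E, ∑ l ∈ E, ∑ q ∈ E, f (z * swap k l * swap p q) *
        P2 D (z * swap k l * swap p q) p q * Wt D.G' (z * swap k l) k l =
        ∑ q ∈ E, ∑ k ∈ E, ∑ l ∈ E, f (z * swap k l * swap p q) *
        P2 D (z * swap k l * swap p q) p q * Wt D.G' (z * swap k l) k l := by
      have : ∀ k ∈ E, ∑ l ∈ E, ∑ q ∈ E, f (z * swap k l * swap p q) *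
        P2 D (z * swap k l * swap p q) p q * Wt D.G' (z * swap k l) k l =
        ∑ q ∈ E, ∑ l ∈ E, f (z * swap k l * swap p q) *
        P2 D (z * swap k l * swap p q) p q * Wt D.G' (z * swap k l) k l :=
        fun k _ => Finset.sum_comm
      rw [Finset.sum_congr rfl this, Finset.sum_comm]
    rw [e1, ← Finset.sum_add_distrib]
    refine Finset.sum_congr rfl fun q hq => ?_
    rw [PC.sum_pair E q hq (fun k l => f (z * swap k l * swap p q) *
        P2 D (z * swap k l * swap p q) p q * Wt D.G' (z * swap k l) k l)]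
    simp only [PC.Wt_self, mul_zero, zero_add]
    congr 1
    refine Finset.sum_congr rfl fun r _ => ?_
    rw [swap_comm r q, W2]
    ring
  have B2 : ∑ q ∈ E, ∑ k ∈ E, ∑ l ∈ E, f (z * swap p q * swap k l) *
        Wt G (z * swap p q * swap k l) k l * P2 D (z * swap p q) p q =
      ∑ q ∈ E, ∑ r ∈ E.erase q, f (z * swap p q * swap q r) *
        W2 G (z * swap p q * swap q r) q r * P2 D (z * swap p q) p q +
      ∑ q ∈ E, ∑ k ∈ E.erase q, ∑ l ∈ E.erase q, f (z * swap p q * swap k l) *
        Wt G (z * swap p q * swap k l) k l * P2 D (z * swap p q) p q := by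
    rw [← Finset.sum_add_distrib]
    refine Finset.sum_congr rfl fun q hq => ?_
    rw [PC.sum_pair E q hq (fun k l => f (z * swap p q * swap k l) *
        Wt G (z * swap p q * swap k l) k l * P2 D (z * swap p q) p q)]
    simp only [PC.Wt_self, mul_zero, zero_add, zero_mul]
    congr 1
    refine Finset.sum_congr rfl fun r _ => ?_
    rw [swap_comm r q, W2]
    ring
  -- disjoint pairs
  have B3 : ∑ q ∈ E, ∑ k ∈ E.erase q, ∑ l ∈ E.erase q, f (z * swap k l * swap p q) *
        P2 D (z * swap k l * swap p q) p q * Wt D.G' (z * swap k l) k l =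
      ∑ q ∈ E, ∑ k ∈ E.erase q, ∑ l ∈ E.erase q, f (z * swap p q * swap k l) *
        Wt G (z * swap p q * swap k l) k l * P2 D (z * swap p q) p q := by
    refine Finset.sum_congr rfl fun q hq => Finset.sum_congr rfl fun k hk =>
      Finset.sum_congr rfl fun l hl => ?_
    have hqp : q ≠ p := Finset.ne_of_mem_erase hq
    have hkq : k ≠ q := Finset.ne_of_mem_erase hk
    have hkp : k ≠ p := Finset.ne_of_mem_erase (Finset.mem_of_mem_erase hk)
    have hlq : l ≠ q := Finset.ne_of_mem_erase hl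
    have hlp : l ≠ p := Finset.ne_of_mem_erase (Finset.mem_of_mem_erase hl)
    have hc : z * swap k l * swap p q = z * swap p q * swap k l := by
      rw [mul_assoc, mul_assoc, PC.swap_disj hkp hlp hkq hlq]
    set x := z * swap k l * swap p q with hx
    have x1 : z * swap k l = x * swap p q := by rw [hx, mul_assoc _ (swap p q), swap_mul_self, mul_one]
    have x2 : z * swap p q = x * swap k l := by rw [hc, mul_assoc _ (swap k l), swap_mul_self, mul_one]
    rw [← hc, x1, x2]
    have e1 := hP0 ι M α β R G D hu hv x p q k l hkp.symm hlp.symm hkq.symm hlq.symm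
    have e2 := hP0 ι M α β R G D hu hv x q p k l hkq.symm hlq.symm hkp.symm hlp.symm
    rw [swap_comm q p] at e2
    have e3 : P2 D x p q * Wt D.G' (x * swap p q) k l = Wt G x k l * P2 D (x * swap k l) p q := by
      rw [P2, P2, add_mul, mul_add, e1, e2]
    rw [mul_assoc (f x), mul_assoc (f x), e3]
  -- first sums
  have A1 : ∑ r ∈ E, ∑ q ∈ E, f (z * swap p r * swap p q) * P2 D (z * swap p r * swap p q) p q *
        W2 D.G' (z * swap p r) p r =
      ∑ q ∈ E, f z * (P2 D z p q * W2 D.G' (z * swap p q) p q) +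
      ∑ q ∈ E, ∑ r ∈ E.erase q, f (z * swap p r * swap p q) *
        P2 D (z * swap p r * swap p q) p q * W2 D.G' (z * swap p r) p r := by
    rw [Finset.sum_comm, PC.sum_diag]
    congr 1
    refine Finset.sum_congr rfl fun q _ => ?_
    rw [mul_assoc z, swap_mul_self, mul_one, mul_assoc]
  have A2 : ∑ q ∈ E, ∑ r ∈ E, f (z * swap p q * swap p r) * W2 G (z * swap p q * swap p r) p r *
        P2 D (z * swap p q) p q =
      ∑ q ∈ E, f z * (W2 G z p q * P2 D (z * swap p q) p q) +
      ∑ q ∈ E, ∑ r ∈ E.erase q, f (z * swap p r * swap p q) *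
        W2 G (z * swap p r * swap p q) p q * P2 D (z * swap p r) p r := by
    rw [Finset.sum_comm, PC.sum_diag]
    congr 1
    refine Finset.sum_congr rfl fun q _ => ?_
    rw [mul_assoc z, swap_mul_self, mul_one, mul_assoc]
  have D0 : ∑ q ∈ E, f z * (P2 D z p q * W2 D.G' (z * swap p q) p q) +
      ∑ q ∈ E, f z * (W2 G z p q * P2 D (z * swap p q) p q) = 0 := by
    rw [← Finset.sum_add_distrib]
    have := hP2 ι M α β R G D h2 hu hv z
    rw [← hp, ← hE] at this
    calc _ = f z * ∑ q ∈ E, (P2 D z p q * W2 D.G' (z * swap p q) p q +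
          W2 G z p q * P2 D (z * swap p q) p q) := by
          rw [Finset.mul_sum]
          exact Finset.sum_congr rfl fun q _ => by ring
      _ = 0 := by rw [this, mul_zero]
  -- the triples
  have S4 : ∑ q ∈ E, ∑ r ∈ E.erase q, f (z * swap q r * swap p q) *
        P2 D (z * swap q r * swap p q) p q * W2 D.G' (z * swap q r) q r =
      ∑ q ∈ E, ∑ r ∈ E.erase q, f (z * swap r q * swap p r) *
        P2 D (z * swap r q * swap p r) p r * W2 D.G' (z * swap r q) r q :=
    PC.sum_symm E (fun q r => f (z * swap q r * swap p q) *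
        P2 D (z * swap q r * swap p q) p q * W2 D.G' (z * swap q r) q r)
  have D1 : ∑ q ∈ E, ∑ r ∈ E.erase q, f (z * swap p r * swap p q) *
        P2 D (z * swap p r * swap p q) p q * W2 D.G' (z * swap p r) p r +
      ∑ q ∈ E, ∑ r ∈ E.erase q, f (z * swap p r * swap p q) *
        W2 G (z * swap p r * swap p q) p q * P2 D (z * swap p r) p r +
      ∑ q ∈ E, ∑ r ∈ E.erase q, f (z * swap p q * swap q r) *
        W2 G (z * swap p q * swap q r) q r * P2 D (z * swap p q) p q +
      ∑ q ∈ E, ∑ r ∈ E.erase q, f (z * swap r q * swap p r) *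
        P2 D (z * swap r q * swap p r) p r * W2 D.G' (z * swap r q) r q = 0 := by
    rw [← Finset.sum_add_distrib, ← Finset.sum_add_distrib, ← Finset.sum_add_distrib]
    refine Finset.sum_eq_zero fun q hq => ?_
    rw [← Finset.sum_add_distrib, ← Finset.sum_add_distrib, ← Finset.sum_add_distrib]
    refine Finset.sum_eq_zero fun r hr => ?_
    have hqp : q ≠ p := Finset.ne_of_mem_erase hq
    have hrq : r ≠ q := Finset.ne_of_mem_erase hr
    have hrp : r ≠ p := Finset.ne_of_mem_erase (Finset.mem_of_mem_erase hr)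
    have c1 : z * swap p q * swap q r = z * swap p r * swap p q := by
      rw [mul_assoc, mul_assoc, PC.swap_t1 hrq hrp]
    have c2 : z * swap r q * swap p r = z * swap p r * swap p q := by
      rw [mul_assoc, mul_assoc, PC.swap_t2 hqp hrq hrp]
    rw [c1, c2]
    set x := z * swap p r * swap p q with hx
    have x1 : z * swap p r = x * swap p q := by rw [hx, mul_assoc _ (swap p q), swap_mul_self, mul_one]
    have x2 : z * swap p q = x * swap q r := by rw [← c1, mul_assoc _ (swap q r), swap_mul_self, mul_one]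
    have x3 : z * swap r q = x * swap r p := by
      rw [← c2, swap_comm r p, mul_assoc _ (swap p r), swap_mul_self, mul_one]
    have e := hP1 ι M α β R G D h2 hu hv x p q r hp hqp.symm hrq.symm hrp.symm
    have s1 : ∀ y a b, P2 D y a b = P2 D y b a := fun y a b => add_comm _ _
    rw [s1 _ q p, s1 _ r p] at e
    rw [x1, x2, x3]
    calc _ = f x * (P2 D x p q * W2 D.G' (x * swap p q) p r + W2 G x p q * P2 D (x * swap p q) p r +
        W2 G x q r * P2 D (x * swap q r) p q + P2 D x p r * W2 D.G' (x * swap r p) r q) := by ring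
      _ = 0 := by rw [e, mul_zero]
  have key : del D.G' (pent D f) z + pent D (del G f) z = 0 := by
    rw [T1, T2, A1, A2, B1, B2, B3, S4]
    linear_combination D0 + D1 + (∑ q ∈ E, ∑ k ∈ E.erase q, ∑ l ∈ E.erase q,
      f (z * swap p q * swap k l) * Wt G (z * swap p q * swap k l) k l *
        P2 D (z * swap p q) p q) * h2
  linear_combination key - pent D (del G f) z * h2

end LG


end

section

/-!
# PT2: a pentagon and a rectangle with the same vertical circles
-/

namespace LG

open Equiv Finset Function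

namespace PT2

/-! ### cyclic order -/

section Cyc

variable {α : Type*} [LinearOrder α]

theorem in1 {a b c p : α} (h1 : ¬ cyc a c b) (h2 : c ≠ b) (h3 : a ≠ b) (h : ico a p b) :
    ico c p b := by
  unfold ico cyc at *; grind

theorem in2 {a b c p : α} (h1 : ¬ cyc b c a) (h2 : c ≠ b) (h3 : a ≠ b) (h : ico b p a) :
    ico b p c := by
  unfold ico cyc at *; grind

theorem ncompl {a b p : α} (h : a ≠ b) (h' : ico a p b) : ¬ ico b p a := by
  unfold ico cyc at *; grind

theorem c1 {s a t q : α} (h : cyc s a t) (h' : ico s q a) : ico s q t := by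
  unfold ico cyc at *; grind

theorem c2 {s a t q : α} (h : cyc s a t) (hq : q ≠ a) :
    cyc a q s ↔ cyc a q t ∨ ico t q s := by
  unfold ico cyc at *; grind

theorem c3 {s a t q : α} (h : cyc s a t) : ¬ (cyc a q t ∧ ico t q s) := by
  unfold ico cyc at *; grind

theorem c4 {s a t q : α} (h : cyc t a s) (hq : q ≠ a) :
    ico s q a ↔ ico s q t ∨ ico t q a := by
  unfold ico cyc at *; grind

theorem c5 {s a t q : α} (h : cyc t a s) : ¬ (ico s q t ∧ ico t q a) := by
  unfold ico cyc at *; grind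

theorem tot {s a t : α} (h1 : s ≠ a) (h2 : t ≠ a) (h3 : s ≠ t) : cyc s a t ∨ cyc t a s := by
  unfold cyc at *; grind

theorem asy {s a t : α} (h : cyc s a t) : ¬ cyc t a s := by
  unfold cyc at *; grind

theorem nb1 {a b c : α} (h1 : ¬ cyc a c b) (h2 : c ≠ b) (h3 : a ≠ b) (h4 : a ≠ c) :
    cyc c a b := by
  unfold cyc at *; grind

theorem nb2 {a b c : α} (h1 : ¬ cyc b c a) (h2 : c ≠ b) (h3 : a ≠ b) (h4 : a ≠ c) :
    cyc b a c := by
  unfold cyc at *; grind

end Cyc

variable {ι M α β R : Type} [Fintype ι] [DecidableEq ι] [Fintype M] [LinearOrder α]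
  [LinearOrder β] [CommRing R] {G : MG ι M α β R}

/-! ### positions of the marks -/

theorem K1 (D : PD G) (hu : Injective G.u) {j : ι} (hj : j ≠ D.i0) {m : M} (h : D.K m) :
    ico (G.u D.i0) (G.p m) (G.u j) :=
  in2 (D.adj2 j) (fun e => hj (hu e)) (fun e => D.n2 (hu e)) ((D.hK m).1 h)

theorem K2 (D : PD G) (hu : Injective G.u) {j : ι} (hj : j ≠ D.i0) {m : M} (h : D.K m) :
    ico (G.u j) (D.p' m) (G.u D.i0) :=
  in1 (D.adj1 j) (fun e => hj (hu e)) (fun e => D.n1 (hu e)) (D.mK m h)

theorem L1 (D : PD G) (hu : Injective G.u) {j : ι} (hj : j ≠ D.i0) {m : M} (h : D.L m) :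
    ico (G.u j) (G.p m) (G.u D.i0) :=
  in1 (D.adj1 j) (fun e => hj (hu e)) (fun e => D.n1 (hu e)) ((D.hL m).1 h)

theorem L2 (D : PD G) (hu : Injective G.u) {j : ι} (hj : j ≠ D.i0) {m : M} (h : D.L m) :
    ico (G.u D.i0) (D.p' m) (G.u j) :=
  in2 (D.adj2 j) (fun e => hj (hu e)) (fun e => D.n2 (hu e)) (D.mL m h)

theorem neJ (D : PD G) (hu : Injective G.u) {j : ι} (hj : j ≠ D.i0) : G.u j ≠ G.u D.i0 :=
  fun e => hj (hu e)

theorem K1n (D : PD G) (hu : Injective G.u) {j : ι} (hj : j ≠ D.i0) {m : M} (h : D.K m) :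
    ¬ ico (G.u j) (G.p m) (G.u D.i0) := ncompl (neJ D hu hj).symm (K1 D hu hj h)

theorem K2n (D : PD G) (hu : Injective G.u) {j : ι} (hj : j ≠ D.i0) {m : M} (h : D.K m) :
    ¬ ico (G.u D.i0) (D.p' m) (G.u j) := ncompl (neJ D hu hj) (K2 D hu hj h)

theorem L1n (D : PD G) (hu : Injective G.u) {j : ι} (hj : j ≠ D.i0) {m : M} (h : D.L m) :
    ¬ ico (G.u D.i0) (G.p m) (G.u j) := ncompl (neJ D hu hj) (L1 D hu hj h)

theorem L2n (D : PD G) (hu : Injective G.u) {j : ι} (hj : j ≠ D.i0) {m : M} (h : D.L m) :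
    ¬ ico (G.u j) (D.p' m) (G.u D.i0) := ncompl (neJ D hu hj).symm (L2 D hu hj h)


/-! ### complementary column intervals -/

theorem hh (D : PD G) (hu : Injective G.u) (x : Perm ι) (i j : ι) (hij : i ≠ j)
    (ho : i = D.i0 ∨ j = D.i0) :
    Pw D x i j * Wt D.G' (x * swap i j) j i = Wt G x i j * Pw D (x * swap i j) j i := by
  have e1 : (x * swap i j) i = x j := by simp
  have e2 : (x * swap i j) j = x i := by simp
  have hE : Emp D.G' (x * swap i j) j i ↔ Emp G (x * swap i j) j i := Iff.rfl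
  have hji : j ≠ i := hij.symm
  by_cases hE1 : Emp G x i j
  swap
  · have h1 : Pw D x i j = 0 := by
      unfold Pw; rw [if_neg]; tauto
    have h2 : Wt G x i j = 0 := by
      unfold Wt; rw [if_neg]; tauto
    rw [h1, h2, zero_mul, zero_mul]
  by_cases hE2 : Emp G (x * swap i j) j i
  swap
  · have h1 : Wt D.G' (x * swap i j) j i = 0 := by
      unfold Wt; rw [if_neg]; tauto
    have h2 : Pw D (x * swap i j) j i = 0 := by
      unfold Pw; rw [if_neg]; tauto
    rw [h1, h2, mul_zero, mul_zero]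
  by_cases hC : cyc (G.v (x i)) D.a (G.v (x j))
  swap
  · have h1 : Pw D x i j = 0 := by
      unfold Pw; rw [if_neg]; tauto
    have h2 : Pw D (x * swap i j) j i = 0 := by
      unfold Pw; rw [if_neg]; rw [e1, e2]; tauto
    rw [h1, h2, zero_mul, mul_zero]
  unfold Pw Wt
  rw [if_pos ⟨hij, ho, hE1, hC⟩, if_pos ⟨hji, hE.2 hE2⟩, if_pos ⟨hij, hE1⟩,
    if_pos ⟨hji, ho.symm, hE2, by rw [e1, e2]; exact hC⟩, ← prod_mul_distrib,
    ← prod_mul_distrib]
  apply prod_congr rfl
  intro m _
  have hG1 : D.G'.p = D.p' := rfl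
  have hG2 : D.G'.q = G.q := rfl
  have hG3 : D.G'.u = G.u := rfl
  have hG4 : D.G'.v = G.v := rfl
  have hG5 : D.G'.w = G.w := rfl
  by_cases hK : D.K m
  · simp only [PIns, Ins, if_pos hK, e1, e2, hG1, hG2, hG3, hG4, hG5]
    rcases ho with rfl | rfl
    · simp only [K2 D hu hji hK, K1 D hu hji hK, true_and]
      ring
    · simp only [K2n D hu hij hK, K1n D hu hij hK, false_and, if_false]
      ring
  by_cases hL : D.L m
  · simp only [PIns, Ins, if_neg hK, if_pos hL, e1, e2, hG1, hG2, hG3, hG4, hG5]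
    rcases ho with rfl | rfl
    · simp only [L2n D hu hji hL, L1n D hu hji hL, false_and, if_false]
      ring
    · simp only [L2 D hu hij hL, L1 D hu hij hL, true_and]
      ring
  · simp only [PIns, Ins, if_neg hK, if_neg hL, e1, e2, hG1, hG2, hG3, hG4, hG5, D.mO m hL hK]

/-! ### equal column intervals -/

/-- The common value. -/
def T (D : PD G) (x : Perm ι) : R :=
  ∏ m, (if D.K m then (if ico (G.v (x D.i0)) (G.q m) D.a then G.w m else 1)
    else if D.L m then (if cyc D.a (G.q m) (G.v (x D.i0)) then G.w m else 1) else 1)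

theorem v1 (D : PD G) (hu : Injective G.u) (hv : Injective G.v) (x : Perm ι) (j : ι)
    (hj : j ≠ D.i0) :
    Pw D x D.i0 j * Wt D.G' (x * swap D.i0 j) D.i0 j +
      Wt G x D.i0 j * Pw D (x * swap D.i0 j) D.i0 j = if j = D.i2 then T D x else 0 := by
  have e1 : (x * swap D.i0 j) D.i0 = x j := by simp
  have e2 : (x * swap D.i0 j) j = x D.i0 := by simp
  have hE : Emp D.G' (x * swap D.i0 j) D.i0 j ↔ Emp G (x * swap D.i0 j) D.i0 j := Iff.rfl
  have hst : G.v (x D.i0) ≠ G.v (x j) := fun e => hj (x.injective (hv e)).symm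
  by_cases h2 : j = D.i2
  swap
  · rw [if_neg h2]
    have hc : cyc (G.u D.i0) (G.u D.i2) (G.u j) :=
      nb2 (D.adj2 j) (fun e => hj (hu e)) (fun e => D.n2 (hu e)) (fun e => h2 (hu e).symm)
    have e3 : (x * swap D.i0 j) D.i2 = x D.i2 := by
      simp [swap_apply_of_ne_of_ne D.n2 (fun e => h2 e.symm)]
    have hn : ¬ (Emp G x D.i0 j ∧ Emp G (x * swap D.i0 j) D.i0 j) := by
      rintro ⟨hA, hB⟩
      have hA' := hA D.i2
      have hB' := hB D.i2
      rw [e1, e2, e3] at hB'
      rcases tot (s := G.v (x D.i0)) (a := G.v (x D.i2)) (t := G.v (x j))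
        (fun e => D.n2 (x.injective (hv e)).symm) (fun e => h2 (x.injective (hv e))) hst with h | h
      · exact hA' ⟨hc, h⟩
      · exact hB' ⟨hc, h⟩
    by_cases hE1 : Emp G x D.i0 j
    · have hE2 : ¬ Emp G (x * swap D.i0 j) D.i0 j := fun h => hn ⟨hE1, h⟩
      have h1 : Wt D.G' (x * swap D.i0 j) D.i0 j = 0 := by
        unfold Wt; rw [if_neg]; tauto
      have h2 : Pw D (x * swap D.i0 j) D.i0 j = 0 := by
        unfold Pw; rw [if_neg]; tauto
      rw [h1, h2, mul_zero, mul_zero, add_zero]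
    · have h1 : Pw D x D.i0 j = 0 := by
        unfold Pw; rw [if_neg]; tauto
      have h2 : Wt G x D.i0 j = 0 := by
        unfold Wt; rw [if_neg]; tauto
      rw [h1, h2, zero_mul, zero_mul, add_zero]
  rw [if_pos h2]
  have hno : ∀ k, ¬ cyc (G.u D.i0) (G.u k) (G.u j) := by rw [h2]; exact D.adj2
  have hE1 : Emp G x D.i0 j := fun k h => hno k h.1
  have hE2 : Emp G (x * swap D.i0 j) D.i0 j := fun k h => hno k h.1
  have hE2' : Emp D.G' (x * swap D.i0 j) D.i0 j := hE2
  have hG1 : D.G'.p = D.p' := rfl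
  have hG2 : D.G'.q = G.q := rfl
  have hG3 : D.G'.u = G.u := rfl
  have hG4 : D.G'.v = G.v := rfl
  have hG5 : D.G'.w = G.w := rfl
  rcases tot (s := G.v (x D.i0)) (a := D.a) (t := G.v (x j)) (D.av _) (D.av _) hst with hC | hC
  · have hz : Pw D (x * swap D.i0 j) D.i0 j = 0 := by
      unfold Pw; rw [if_neg]; rw [e1, e2]; exact fun h => asy hC h.2.2.2
    rw [hz, mul_zero, add_zero]
    unfold Pw Wt T
    rw [if_pos ⟨hj.symm, Or.inl rfl, hE1, hC⟩, if_pos ⟨hj.symm, hE2'⟩, ← prod_mul_distrib]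
    apply prod_congr rfl
    intro m _
    by_cases hK : D.K m
    · simp only [PIns, Ins, if_pos hK, e1, e2, hG1, hG2, hG3, hG4, hG5, K2n D hu hj hK,
        false_and, if_false, mul_one]
    by_cases hL : D.L m
    · simp only [PIns, Ins, if_neg hK, if_pos hL, e1, e2, hG1, hG2, hG3, hG4, hG5, L2 D hu hj hL,
        true_and]
      have h3 := c2 (q := G.q m) hC (D.aq m)
      have h4 := c3 (q := G.q m) hC
      by_cases ha : cyc D.a (G.q m) (G.v (x j)) <;>
        by_cases hb : ico (G.v (x j)) (G.q m) (G.v (x D.i0)) <;> simp_all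
    · have h5 : ¬ ico (G.u D.i0) (G.p m) (G.u j) := by rw [h2]; exact fun h => hK ((D.hK m).2 h)
      simp only [PIns, Ins, if_neg hK, if_neg hL, e1, e2, hG1, hG2, hG3, hG4, hG5, D.mO m hL hK,
        h5, false_and, if_false, mul_one]
  · have hz : Pw D x D.i0 j = 0 := by
      unfold Pw; rw [if_neg]; exact fun h => asy hC h.2.2.2
    rw [hz, zero_mul, zero_add]
    unfold Pw Wt T
    rw [if_pos ⟨hj.symm, hE1⟩, if_pos ⟨hj.symm, Or.inl rfl, hE2, by rw [e1, e2]; exact hC⟩,
      ← prod_mul_distrib]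
    apply prod_congr rfl
    intro m _
    by_cases hK : D.K m
    · simp only [PIns, Ins, if_pos hK, e1, e2, K1 D hu hj hK, true_and]
      have h3 := c4 (q := G.q m) hC (D.aq m)
      have h4 := c5 (q := G.q m) hC
      by_cases ha : ico (G.v (x D.i0)) (G.q m) (G.v (x j)) <;>
        by_cases hb : ico (G.v (x j)) (G.q m) D.a <;> simp_all
    by_cases hL : D.L m
    · simp only [PIns, Ins, if_neg hK, if_pos hL, e1, e2, L1n D hu hj hL, false_and, if_false,
        one_mul]
    · have h5 : ¬ ico (G.u D.i0) (G.p m) (G.u j) := by rw [h2]; exact fun h => hK ((D.hK m).2 h)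
      simp only [PIns, Ins, if_neg hK, if_neg hL, e1, e2, h5, false_and, if_false, mul_one]

theorem v2 (D : PD G) (hu : Injective G.u) (hv : Injective G.v) (x : Perm ι) (j : ι)
    (hj : j ≠ D.i0) :
    Pw D x j D.i0 * Wt D.G' (x * swap D.i0 j) j D.i0 +
      Wt G x j D.i0 * Pw D (x * swap D.i0 j) j D.i0 = if j = D.i1 then T D x else 0 := by
  have e1 : (x * swap D.i0 j) D.i0 = x j := by simp
  have e2 : (x * swap D.i0 j) j = x D.i0 := by simp
  have hE : Emp D.G' (x * swap D.i0 j) j D.i0 ↔ Emp G (x * swap D.i0 j) j D.i0 := Iff.rfl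
  have hst : G.v (x D.i0) ≠ G.v (x j) := fun e => hj (x.injective (hv e)).symm
  by_cases h2 : j = D.i1
  swap
  · rw [if_neg h2]
    have hc : cyc (G.u j) (G.u D.i1) (G.u D.i0) :=
      nb1 (D.adj1 j) (fun e => hj (hu e)) (fun e => D.n1 (hu e)) (fun e => h2 (hu e).symm)
    have e3 : (x * swap D.i0 j) D.i1 = x D.i1 := by
      simp [swap_apply_of_ne_of_ne D.n1 (fun e => h2 e.symm)]
    have hn : ¬ (Emp G x j D.i0 ∧ Emp G (x * swap D.i0 j) j D.i0) := by
      rintro ⟨hA, hB⟩
      have hA' := hA D.i1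
      have hB' := hB D.i1
      rw [e1, e2, e3] at hB'
      rcases tot (s := G.v (x D.i0)) (a := G.v (x D.i1)) (t := G.v (x j))
        (fun e => D.n1 (x.injective (hv e)).symm) (fun e => h2 (x.injective (hv e))) hst with h | h
      · exact hB' ⟨hc, h⟩
      · exact hA' ⟨hc, h⟩
    by_cases hE1 : Emp G x j D.i0
    · have hE2 : ¬ Emp G (x * swap D.i0 j) j D.i0 := fun h => hn ⟨hE1, h⟩
      have h1 : Wt D.G' (x * swap D.i0 j) j D.i0 = 0 := by
        unfold Wt; rw [if_neg]; tauto
      have h2 : Pw D (x * swap D.i0 j) j D.i0 = 0 := by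
        unfold Pw; rw [if_neg]; tauto
      rw [h1, h2, mul_zero, mul_zero, add_zero]
    · have h1 : Pw D x j D.i0 = 0 := by
        unfold Pw; rw [if_neg]; tauto
      have h2 : Wt G x j D.i0 = 0 := by
        unfold Wt; rw [if_neg]; tauto
      rw [h1, h2, zero_mul, zero_mul, add_zero]
  rw [if_pos h2]
  have hno : ∀ k, ¬ cyc (G.u j) (G.u k) (G.u D.i0) := by rw [h2]; exact D.adj1
  have hE1 : Emp G x j D.i0 := fun k h => hno k h.1
  have hE2 : Emp G (x * swap D.i0 j) j D.i0 := fun k h => hno k h.1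
  have hE2' : Emp D.G' (x * swap D.i0 j) j D.i0 := hE2
  have hG1 : D.G'.p = D.p' := rfl
  have hG2 : D.G'.q = G.q := rfl
  have hG3 : D.G'.u = G.u := rfl
  have hG4 : D.G'.v = G.v := rfl
  have hG5 : D.G'.w = G.w := rfl
  rcases tot (s := G.v (x D.i0)) (a := D.a) (t := G.v (x j)) (D.av _) (D.av _) hst with hC | hC
  · have hz : Pw D x j D.i0 = 0 := by
      unfold Pw; rw [if_neg]; exact fun h => asy hC h.2.2.2
    rw [hz, zero_mul, zero_add]
    unfold Pw Wt T
    rw [if_pos ⟨hj, hE1⟩, if_pos ⟨hj, Or.inr rfl, hE2, by rw [e1, e2]; exact hC⟩,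
      ← prod_mul_distrib]
    apply prod_congr rfl
    intro m _
    by_cases hK : D.K m
    · simp only [PIns, Ins, if_pos hK, e1, e2, K1n D hu hj hK,
        false_and, if_false, one_mul]
    by_cases hL : D.L m
    · simp only [PIns, Ins, if_neg hK, if_pos hL, e1, e2, L1 D hu hj hL,
        true_and]
      have h3 := c2 (q := G.q m) hC (D.aq m)
      have h4 := c3 (q := G.q m) hC
      by_cases ha : cyc D.a (G.q m) (G.v (x j)) <;>
        by_cases hb : ico (G.v (x j)) (G.q m) (G.v (x D.i0)) <;> simp_all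
    · have h5 : ¬ ico (G.u j) (G.p m) (G.u D.i0) := by rw [h2]; exact fun h => hL ((D.hL m).2 h)
      simp only [PIns, Ins, if_neg hK, if_neg hL, e1, e2, h5, false_and, if_false, mul_one]
  · have hz : Pw D (x * swap D.i0 j) j D.i0 = 0 := by
      unfold Pw; rw [if_neg]; rw [e1, e2]; exact fun h => asy hC h.2.2.2
    rw [hz, mul_zero, add_zero]
    unfold Pw Wt T
    rw [if_pos ⟨hj, Or.inr rfl, hE1, hC⟩, if_pos ⟨hj, hE2'⟩, ← prod_mul_distrib]
    apply prod_congr rfl
    intro m _
    by_cases hK : D.K m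
    · simp only [PIns, Ins, if_pos hK, e1, e2, hG1, hG2, hG3, hG4, hG5, K2 D hu hj hK, true_and]
      have h3 := c4 (q := G.q m) hC (D.aq m)
      have h4 := c5 (q := G.q m) hC
      by_cases ha : ico (G.v (x D.i0)) (G.q m) (G.v (x j)) <;>
        by_cases hb : ico (G.v (x j)) (G.q m) D.a <;> simp_all
    by_cases hL : D.L m
    · simp only [PIns, Ins, if_neg hK, if_pos hL, e1, e2, hG1, hG2, hG3, hG4, hG5,
        L2n D hu hj hL, false_and, if_false, mul_one]
    · have h5 : ¬ ico (G.u j) (G.p m) (G.u D.i0) := by rw [h2]; exact fun h => hL ((D.hL m).2 h)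
      simp only [PIns, Ins, if_neg hK, if_neg hL, e1, e2, hG1, hG2, hG3, hG4, hG5, D.mO m hL hK,
        h5, false_and, if_false, mul_one]

end PT2

theorem t_PT2 : Stmt_PT2 := by
  intro ι M α β R _ _ _ _ _ _ G D h2 hu hv x
  have key : ∀ j ∈ univ.erase D.i0, (P2 D x D.i0 j * W2 D.G' (x * swap D.i0 j) D.i0 j +
        W2 G x D.i0 j * P2 D (x * swap D.i0 j) D.i0 j) =
      (if j = D.i1 then PT2.T D x else 0) + (if j = D.i2 then PT2.T D x else 0) := by
    intro j hj
    have hj' : j ≠ D.i0 := (Finset.mem_erase.1 hj).1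
    have a1 := PT2.hh D hu x D.i0 j hj'.symm (Or.inl rfl)
    have a2 := PT2.hh D hu x j D.i0 hj' (Or.inr rfl)
    rw [swap_comm] at a2
    have a3 := PT2.v1 D hu hv x j hj'
    have a4 := PT2.v2 D hu hv x j hj'
    rw [← a3, ← a4]
    unfold P2 W2
    rw [add_mul, mul_add, mul_add, add_mul, mul_add, mul_add, a1, a2]
    linear_combination (Wt G x D.i0 j * Pw D (x * swap D.i0 j) j D.i0 +
      Wt G x j D.i0 * Pw D (x * swap D.i0 j) D.i0 j) * h2
  rw [sum_congr rfl key, sum_add_distrib, sum_ite_eq' , sum_ite_eq',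
    if_pos (Finset.mem_erase.2 ⟨D.n1, mem_univ _⟩), if_pos (Finset.mem_erase.2 ⟨D.n2, mem_univ _⟩)]
  linear_combination PT2.T D x * h2

end LG


end

section

/-!
# Part D, SB0: the block structure of the differential for a stabilisation
-/

namespace LG

open Equiv Finset Function

namespace SB0

section Order

variable {α : Type*} [LinearOrder α]

/-- The predecessor `l` of `k` lies in every interval `[i, j)` which contains `k` unless it starts
at `k`. -/
theorem pre {l i k j : α} (h : ¬ cyc l i k) (_hlk : l ≠ k) (hik : i ≠ k) (h2 : ico i k j) :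
    ico i l j := by
  unfold ico cyc at *; grind

/-- The predecessor `l` of `k` lies in every interval `[i, k)` with `i ≠ k`. -/
theorem pre' {l i k : α} (h : ¬ cyc l i k) (hlk : l ≠ k) (hik : i ≠ k) : ico i l k := by
  unfold ico cyc at *; grind

/-- The successor `k` of `l` lies in every interval `[s, t)` which contains `l` unless it ends at
`k`. -/
theorem suc {l k s t : α} (_h1 : ¬ cyc l s k) (h2 : ¬ cyc l t k) (hlk : l ≠ k) (htk : t ≠ k)
    (hst : s ≠ t) (h : ico s l t) : ico s k t := by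
  unfold ico cyc at *; grind

end Order

section Gen

variable {ι κ α β : Type} [Fintype ι] [DecidableEq ι] [Fintype κ] [DecidableEq κ] [LinearOrder α]
  [LinearOrder β] {c : ι → α} {r : ι → β} {a : κ → α} {b : κ → β} {l k : ι} {m : κ}

theorem ins_inl {x : Perm ι} {i j n : ι} :
    Ins (gm c r a b) x i j (Sum.inl n) ↔ ico (c i) (c n) (c j) ∧ ico (r (x i)) (r n) (r (x j)) :=
  Iff.rfl

theorem ins_inr {x : Perm ι} {i j : ι} {n : κ} :
    Ins (gm c r a b) x i j (Sum.inr n) ↔ ico (c i) (a n) (c j) ∧ ico (r (x i)) (b n) (r (x j)) :=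
  Iff.rfl

theorem mem_iff {x : Perm ι} {i j : ι} {S : Finset (ι ⊕ κ)}
    (h : (univ.filter fun m' => Ins (gm c r a b) x i j m') = S) (n : ι ⊕ κ) :
    Ins (gm c r a b) x i j n ↔ n ∈ S := by
  rw [← h]; simp

end Gen

end SB0

open _root_.LG.SB0

theorem t_SB0 : Stmt_SB0 := by
  intro ι κ α β _ _ _ _ _ _ c r a b l k m B x i j hij _
  have hlk : l ≠ k := B.ne
  have ci := B.gd.ci
  have ri := B.gd.ri
  have hclk : c l ≠ c k := fun h => hlk (ci h)
  have hrlk : r l ≠ r k := fun h => hlk (ri h)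
  refine ⟨fun h hx => ?_, fun h => ?_, fun h => ?_⟩
  · -- no marks
    have h0 := mem_iff h
    have hik : k ≠ i := by
      rintro rfl
      have := (h0 (Sum.inl k)).1 (ins_inl.2 ⟨Or.inl rfl, Or.inl (by rw [hx])⟩)
      simp at this
    have hjk : k ≠ j := by
      rintro rfl
      have hxi : x i ≠ k := fun h' => hij (x.injective (h'.trans hx.symm))
      have := (h0 (Sum.inl l)).1 (ins_inl.2 ⟨pre' (B.ca i) hclk (fun h' => hij (ci h')), by
        rw [hx]; exact pre' (B.ra (x i)) hrlk (fun h' => hxi (ri h'))⟩)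
      simp at this
    rw [Perm.mul_apply, swap_apply_of_ne_of_ne hik hjk, hx]
  · -- only the mark `X_k`
    have h0 := mem_iff h
    have h1 := ins_inl.1 ((h0 (Sum.inl k)).2 (by simp))
    have h2 : ¬ Ins (gm c r a b) x i j (Sum.inr m) := fun h' => by
      have := (h0 (Sum.inr m)).1 h'
      simp at this
    rw [ins_inr, B.am, B.bm] at h2
    have h3 : ¬ ico (r (x i)) (r l) (r (x j)) := fun h' => h2 ⟨h1.1, h'⟩
    have hxi : x i = k := by
      by_contra hne
      exact h3 (pre (B.ra (x i)) hrlk (fun h' => hne (ri h')) h1.2)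
    have hjk : j ≠ k := by
      rintro rfl
      rcases h1.1 with h' | h'
      · exact hij (ci h').symm
      · exact (cyc_ne h').2.1 rfl
    intro h'
    have h4 : (x * swap i j) j = k := by
      rw [Perm.mul_apply, swap_apply_right, hxi]
    exact hjk ((x * swap i j).injective (h4.trans h'.symm))
  · -- only the mark `O_m`
    have h0 := mem_iff h
    have h1 := ins_inr.1 ((h0 (Sum.inr m)).2 (by simp))
    rw [B.am, B.bm] at h1
    have h2 : ¬ Ins (gm c r a b) x i j (Sum.inl k) := fun h' => by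
      have := (h0 (Sum.inl k)).1 h'
      simp at this
    have h3 : ¬ Ins (gm c r a b) x i j (Sum.inl l) := fun h' => by
      have := (h0 (Sum.inl l)).1 h'
      simp at this
    rw [ins_inl] at h2 h3
    have hxij : r (x i) ≠ r (x j) := fun h' => hij (x.injective (ri h'))
    have hxj : x j = k := by
      by_contra hne
      exact h2 ⟨h1.1, suc (B.ra (x i)) (B.ra (x j)) hrlk (fun h' => hne (ri h')) hxij h1.2⟩
    have hi : i = k := by
      by_contra hne
      exact h3 ⟨pre (B.ca i) hclk (fun h' => hne (ci h')) h1.1, h1.2⟩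
    subst hi
    refine ⟨fun h' => hij (x.injective (h'.trans hxj.symm)), ?_⟩
    rw [Perm.mul_apply, swap_apply_left, hxj]

end LG


end

section

/-!
# WT1: composites of two rectangles with exactly one common vertical circle

Every rectangle between two of the three columns `p, q, r` is a product of blocks between adjacent
columns and adjacent rows; the twelve products cancel in pairs.
-/

set_option autoImplicit false

namespace LG

open Equiv Finset Function

namespace WT1

variable {ι M α β R : Type} [Fintype ι] [DecidableEq ι] [Fintype M] [LinearOrder α]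
  [LinearOrder β] [CommRing R]

/-- The block of the columns `[u i, u j)` and of the rows `[v a, v b)`; the points of `x` over
`p, q, r` are ignored. -/
noncomputable def Rb (G : MG ι M α β R) (x : Perm ι) (p q r i j a b : ι) : R :=
  if ∀ k, k ≠ p → k ≠ q → k ≠ r → ¬ (cyc (G.u i) (G.u k) (G.u j) ∧ cyc (G.v a) (G.v (x k)) (G.v b)) then
    ∏ m, (if ico (G.u i) (G.p m) (G.u j) ∧ ico (G.v a) (G.q m) (G.v b) then G.w m else 1) else 0

theorem Rb_col (G : MG ι M α β R) (hu : Injective G.u) (x : Perm ι) (p q r i t j a b : ι)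
    (ht : t = p ∨ t = q ∨ t = r) (h : cyc (G.u i) (G.u t) (G.u j)) :
    Rb G x p q r i j a b = Rb G x p q r i t a b * Rb G x p q r t j a b := by
  unfold Rb
  have hE : (∀ k, k ≠ p → k ≠ q → k ≠ r →
      ¬ (cyc (G.u i) (G.u k) (G.u j) ∧ cyc (G.v a) (G.v (x k)) (G.v b))) ↔
      (∀ k, k ≠ p → k ≠ q → k ≠ r →
      ¬ (cyc (G.u i) (G.u k) (G.u t) ∧ cyc (G.v a) (G.v (x k)) (G.v b))) ∧
      (∀ k, k ≠ p → k ≠ q → k ≠ r →
      ¬ (cyc (G.u t) (G.u k) (G.u j) ∧ cyc (G.v a) (G.v (x k)) (G.v b))) := by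
    have key : ∀ k, k ≠ p → k ≠ q → k ≠ r →
        (cyc (G.u i) (G.u k) (G.u j) ↔ cyc (G.u i) (G.u k) (G.u t) ∨ cyc (G.u t) (G.u k) (G.u j)) := by
      intro k h1 h2 h3
      have hkt : G.u k ≠ G.u t := by
        intro e
        have := hu e
        subst this
        rcases ht with e | e | e
        · exact h1 e
        · exact h2 e
        · exact h3 e
      rw [cyc_split h]
      tauto
    constructor
    · intro H
      refine ⟨fun k h1 h2 h3 hk => H k h1 h2 h3 ⟨(key k h1 h2 h3).2 (Or.inl hk.1), hk.2⟩,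
        fun k h1 h2 h3 hk => H k h1 h2 h3 ⟨(key k h1 h2 h3).2 (Or.inr hk.1), hk.2⟩⟩
    · intro H k h1 h2 h3 hk
      rcases (key k h1 h2 h3).1 hk.1 with h' | h'
      · exact H.1 k h1 h2 h3 ⟨h', hk.2⟩
      · exact H.2 k h1 h2 h3 ⟨h', hk.2⟩
  have hP : (∏ m, (if ico (G.u i) (G.p m) (G.u j) ∧ ico (G.v a) (G.q m) (G.v b) then G.w m else 1)) =
      (∏ m, (if ico (G.u i) (G.p m) (G.u t) ∧ ico (G.v a) (G.q m) (G.v b) then G.w m else 1)) *
      (∏ m, (if ico (G.u t) (G.p m) (G.u j) ∧ ico (G.v a) (G.q m) (G.v b) then G.w m else 1)) := by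
    rw [← Finset.prod_mul_distrib]
    refine Finset.prod_congr rfl fun m _ => ?_
    have h1 := ico_split h (x := G.p m)
    have h2 := ico_disj h (x := G.p m)
    by_cases c1 : ico (G.u i) (G.p m) (G.u t) <;> by_cases c2 : ico (G.u t) (G.p m) (G.u j) <;>
      by_cases c3 : ico (G.v a) (G.q m) (G.v b) <;> simp_all
  by_cases e1 : (∀ k, k ≠ p → k ≠ q → k ≠ r →
      ¬ (cyc (G.u i) (G.u k) (G.u t) ∧ cyc (G.v a) (G.v (x k)) (G.v b))) <;>
  by_cases e2 : (∀ k, k ≠ p → k ≠ q → k ≠ r →
      ¬ (cyc (G.u t) (G.u k) (G.u j) ∧ cyc (G.v a) (G.v (x k)) (G.v b)))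
  · rw [if_pos (hE.2 ⟨e1, e2⟩), if_pos e1, if_pos e2, hP]
  · rw [if_neg (fun H => e2 (hE.1 H).2), if_pos e1, if_neg e2, mul_zero]
  · rw [if_neg (fun H => e1 (hE.1 H).1), if_neg e1, zero_mul]
  · rw [if_neg (fun H => e1 (hE.1 H).1), if_neg e1, zero_mul]

theorem Rb_row (G : MG ι M α β R) (hv : Injective G.v) (x : Perm ι) (p q r i j a c b : ι)
    (ht : c = x p ∨ c = x q ∨ c = x r) (h : cyc (G.v a) (G.v c) (G.v b)) :
    Rb G x p q r i j a b = Rb G x p q r i j a c * Rb G x p q r i j c b := by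
  unfold Rb
  have hE : (∀ k, k ≠ p → k ≠ q → k ≠ r →
      ¬ (cyc (G.u i) (G.u k) (G.u j) ∧ cyc (G.v a) (G.v (x k)) (G.v b))) ↔
      (∀ k, k ≠ p → k ≠ q → k ≠ r →
      ¬ (cyc (G.u i) (G.u k) (G.u j) ∧ cyc (G.v a) (G.v (x k)) (G.v c))) ∧
      (∀ k, k ≠ p → k ≠ q → k ≠ r →
      ¬ (cyc (G.u i) (G.u k) (G.u j) ∧ cyc (G.v c) (G.v (x k)) (G.v b))) := by
    have key : ∀ k, k ≠ p → k ≠ q → k ≠ r →
        (cyc (G.v a) (G.v (x k)) (G.v b) ↔
          cyc (G.v a) (G.v (x k)) (G.v c) ∨ cyc (G.v c) (G.v (x k)) (G.v b)) := by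
      intro k h1 h2 h3
      have hkt : G.v (x k) ≠ G.v c := by
        intro e
        have := hv e
        rcases ht with e | e | e
        · exact h1 (x.injective (this.trans e))
        · exact h2 (x.injective (this.trans e))
        · exact h3 (x.injective (this.trans e))
      rw [cyc_split h]
      tauto
    constructor
    · intro H
      refine ⟨fun k h1 h2 h3 hk => H k h1 h2 h3 ⟨hk.1, (key k h1 h2 h3).2 (Or.inl hk.2)⟩,
        fun k h1 h2 h3 hk => H k h1 h2 h3 ⟨hk.1, (key k h1 h2 h3).2 (Or.inr hk.2)⟩⟩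
    · intro H k h1 h2 h3 hk
      rcases (key k h1 h2 h3).1 hk.2 with h' | h'
      · exact H.1 k h1 h2 h3 ⟨hk.1, h'⟩
      · exact H.2 k h1 h2 h3 ⟨hk.1, h'⟩
  have hP : (∏ m, (if ico (G.u i) (G.p m) (G.u j) ∧ ico (G.v a) (G.q m) (G.v b) then G.w m else 1)) =
      (∏ m, (if ico (G.u i) (G.p m) (G.u j) ∧ ico (G.v a) (G.q m) (G.v c) then G.w m else 1)) *
      (∏ m, (if ico (G.u i) (G.p m) (G.u j) ∧ ico (G.v c) (G.q m) (G.v b) then G.w m else 1)) := by
    rw [← Finset.prod_mul_distrib]
    refine Finset.prod_congr rfl fun m _ => ?_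
    have h1 := ico_split h (x := G.q m)
    have h2 := ico_disj h (x := G.q m)
    by_cases c1 : ico (G.v a) (G.q m) (G.v c) <;> by_cases c2 : ico (G.v c) (G.q m) (G.v b) <;>
      by_cases c3 : ico (G.u i) (G.p m) (G.u j) <;> simp_all
  by_cases e1 : (∀ k, k ≠ p → k ≠ q → k ≠ r →
      ¬ (cyc (G.u i) (G.u k) (G.u j) ∧ cyc (G.v a) (G.v (x k)) (G.v c))) <;>
  by_cases e2 : (∀ k, k ≠ p → k ≠ q → k ≠ r →
      ¬ (cyc (G.u i) (G.u k) (G.u j) ∧ cyc (G.v c) (G.v (x k)) (G.v b)))
  · rw [if_pos (hE.2 ⟨e1, e2⟩), if_pos e1, if_pos e2, hP]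
  · rw [if_neg (fun H => e2 (hE.1 H).2), if_pos e1, if_neg e2, mul_zero]
  · rw [if_neg (fun H => e1 (hE.1 H).1), if_neg e1, zero_mul]
  · rw [if_neg (fun H => e1 (hE.1 H).1), if_neg e1, zero_mul]

/-- The rectangle `(i, j)` of the state `y`, with the third point at `t`. -/
theorem Wt_eq (G : MG ι M α β R) (hu : Injective G.u) (hv : Injective G.v) (x y : Perm ι)
    (p q r i t j : ι) (hxy : ∀ k, k ≠ p → k ≠ q → k ≠ r → y k = x k)
    (hi : i = p ∨ i = q ∨ i = r) (htt : t = p ∨ t = q ∨ t = r) (hj : j = p ∨ j = q ∨ j = r)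
    (hit : i ≠ t) (hij : i ≠ j) (htj : t ≠ j)
    (hyt : y t = x p ∨ y t = x q ∨ y t = x r) (hpqr : ∀ k, k = p ∨ k = q ∨ k = r → k = i ∨ k = t ∨ k = j) :
    Wt G y i j =
      if cyc (G.u i) (G.u t) (G.u j) then
        (if cyc (G.v (y i)) (G.v (y t)) (G.v (y j)) then 0
          else Rb G x p q r i t (y i) (y j) * Rb G x p q r t j (y i) (y j))
      else
        (if cyc (G.v (y i)) (G.v (y t)) (G.v (y j)) then
          Rb G x p q r i j (y i) (y t) * Rb G x p q r i j (y t) (y j)
          else Rb G x p q r i j (y i) (y j)) := by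
  have hE : Emp G y i j ↔ (¬ (cyc (G.u i) (G.u t) (G.u j) ∧ cyc (G.v (y i)) (G.v (y t)) (G.v (y j)))) ∧
      (∀ k, k ≠ p → k ≠ q → k ≠ r →
        ¬ (cyc (G.u i) (G.u k) (G.u j) ∧ cyc (G.v (y i)) (G.v (x k)) (G.v (y j)))) := by
    unfold Emp
    constructor
    · intro H
      refine ⟨H t, fun k h1 h2 h3 => ?_⟩
      rw [← hxy k h1 h2 h3]
      exact H k
    · rintro ⟨H1, H2⟩ k
      by_cases hk : k = p ∨ k = q ∨ k = r
      · rcases hpqr k hk with e | e | e
        · subst e
          intro h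
          exact (cyc_ne h.1).1 rfl
        · subst e
          exact H1
        · subst e
          intro h
          exact (cyc_ne h.1).2.1 rfl
      · push Not at hk
        rw [hxy k hk.1 hk.2.1 hk.2.2]
        exact H2 k hk.1 hk.2.1 hk.2.2
  have hW : Wt G y i j = if cyc (G.u i) (G.u t) (G.u j) ∧ cyc (G.v (y i)) (G.v (y t)) (G.v (y j)) then 0
      else Rb G x p q r i j (y i) (y j) := by
    unfold Wt Rb Ins
    by_cases c : cyc (G.u i) (G.u t) (G.u j) ∧ cyc (G.v (y i)) (G.v (y t)) (G.v (y j))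
    · rw [if_pos c, if_neg]
      rintro ⟨_, h⟩
      exact (hE.1 h).1 c
    · rw [if_neg c]
      by_cases d : (∀ k, k ≠ p → k ≠ q → k ≠ r →
        ¬ (cyc (G.u i) (G.u k) (G.u j) ∧ cyc (G.v (y i)) (G.v (x k)) (G.v (y j))))
      · rw [if_pos d, if_pos ⟨hij, hE.2 ⟨c, d⟩⟩]
      · rw [if_neg d, if_neg]
        rintro ⟨_, h⟩
        exact d (hE.1 h).2
  rw [hW]
  by_cases c1 : cyc (G.u i) (G.u t) (G.u j) <;>
    by_cases c2 : cyc (G.v (y i)) (G.v (y t)) (G.v (y j))
  · simp [c1, c2]
  · rw [if_neg (fun h => c2 h.2), if_pos c1, if_neg c2]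
    exact Rb_col G hu x p q r i t j _ _ htt c1
  · rw [if_neg (fun h => c1 h.1), if_neg c1, if_pos c2]
    exact Rb_row G hv x p q r i j _ _ _ hyt c2
  · simp [c1, c2]

end WT1

open _root_.LG.WT1 in
theorem t_WT1 : Stmt_WT1 := by
  intro ι M α β R _ _ _ _ _ _ G h2 hu hv x p q r hpq hqr hpr
  have hqp := hpq.symm
  have hrq := hqr.symm
  have hrp := hpr.symm
  -- values of the three swaps
  have a1 : (x * swap p q) p = x q := by simp
  have a2 : (x * swap p q) q = x p := by simp
  have a3 : (x * swap p q) r = x r := by simp [swap_apply_of_ne_of_ne hrp hrq]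
  have b1 : (x * swap q r) p = x p := by simp [swap_apply_of_ne_of_ne hpq hpr]
  have b2 : (x * swap q r) q = x r := by simp
  have b3 : (x * swap q r) r = x q := by simp
  have c1 : (x * swap r p) p = x r := by simp
  have c2 : (x * swap r p) q = x q := by simp [swap_apply_of_ne_of_ne hqr hqp]
  have c3 : (x * swap r p) r = x p := by simp
  have o1 : ∀ k, k ≠ p → k ≠ q → k ≠ r → (x * swap p q) k = x k := fun k h h' _ => by
    simp [swap_apply_of_ne_of_ne h h']
  have o2 : ∀ k, k ≠ p → k ≠ q → k ≠ r → (x * swap q r) k = x k := fun k _ h h' => by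
    simp [swap_apply_of_ne_of_ne h h']
  have o3 : ∀ k, k ≠ p → k ≠ q → k ≠ r → (x * swap r p) k = x k := fun k h _ h' => by
    simp [swap_apply_of_ne_of_ne h' h]
  have w0 := Wt_eq G hu hv x x p q r p r q (fun k _ _ _ => rfl) (Or.inl rfl) (Or.inr (Or.inr rfl)) (Or.inr (Or.inl rfl)) hpr hpq hrq (Or.inr (Or.inr rfl))
    (by rintro k (e | e | e) <;> simp [e])
  have w1 := Wt_eq G hu hv x x p q r q r p (fun k _ _ _ => rfl) (Or.inr (Or.inl rfl)) (Or.inr (Or.inr rfl)) (Or.inl rfl) hqr hqp hrp (Or.inr (Or.inr rfl))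
    (by rintro k (e | e | e) <;> simp [e])
  have w2 := Wt_eq G hu hv x (x * swap p q) p q r p q r o1 (Or.inl rfl) (Or.inr (Or.inl rfl)) (Or.inr (Or.inr rfl)) hpq hpr hqr (Or.inl a2)
    (by rintro k (e | e | e) <;> simp [e])
  have w3 := Wt_eq G hu hv x (x * swap p q) p q r r q p o1 (Or.inr (Or.inr rfl)) (Or.inr (Or.inl rfl)) (Or.inl rfl) hrq hrp hqp (Or.inl a2)
    (by rintro k (e | e | e) <;> simp [e])
  have w4 := Wt_eq G hu hv x x p q r q p r (fun k _ _ _ => rfl) (Or.inr (Or.inl rfl)) (Or.inl rfl) (Or.inr (Or.inr rfl)) hqp hqr hpr (Or.inl rfl)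
    (by rintro k (e | e | e) <;> simp [e])
  have w5 := Wt_eq G hu hv x x p q r r p q (fun k _ _ _ => rfl) (Or.inr (Or.inr rfl)) (Or.inl rfl) (Or.inr (Or.inl rfl)) hrp hrq hpq (Or.inl rfl)
    (by rintro k (e | e | e) <;> simp [e])
  have w6 := Wt_eq G hu hv x (x * swap q r) p q r q r p o2 (Or.inr (Or.inl rfl)) (Or.inr (Or.inr rfl)) (Or.inl rfl) hqr hqp hrp (Or.inr (Or.inl b3))
    (by rintro k (e | e | e) <;> simp [e])
  have w7 := Wt_eq G hu hv x (x * swap q r) p q r p r q o2 (Or.inl rfl) (Or.inr (Or.inr rfl)) (Or.inr (Or.inl rfl)) hpr hpq hrq (Or.inr (Or.inl b3))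
    (by rintro k (e | e | e) <;> simp [e])
  have w8 := Wt_eq G hu hv x x p q r r q p (fun k _ _ _ => rfl) (Or.inr (Or.inr rfl)) (Or.inr (Or.inl rfl)) (Or.inl rfl) hrq hrp hqp (Or.inr (Or.inl rfl))
    (by rintro k (e | e | e) <;> simp [e])
  have w9 := Wt_eq G hu hv x x p q r p q r (fun k _ _ _ => rfl) (Or.inl rfl) (Or.inr (Or.inl rfl)) (Or.inr (Or.inr rfl)) hpq hpr hqr (Or.inr (Or.inl rfl))
    (by rintro k (e | e | e) <;> simp [e])
  have w10 := Wt_eq G hu hv x (x * swap r p) p q r r p q o3 (Or.inr (Or.inr rfl)) (Or.inl rfl) (Or.inr (Or.inl rfl)) hrp hrq hpq (Or.inr (Or.inr c1))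
    (by rintro k (e | e | e) <;> simp [e])
  have w11 := Wt_eq G hu hv x (x * swap r p) p q r q p r o3 (Or.inr (Or.inl rfl)) (Or.inl rfl) (Or.inr (Or.inr rfl)) hqp hqr hpr (Or.inr (Or.inr c1))
    (by rintro k (e | e | e) <;> simp [e])
  simp only [a1, a2, a3, b1, b2, b3, c1, c2, c3] at w0 w1 w2 w3 w4 w5 w6 w7 w8 w9 w10 w11
  have hup : G.u p ≠ G.u q := fun e => hpq (hu e)
  have huq : G.u q ≠ G.u r := fun e => hqr (hu e)
  have hur : G.u p ≠ G.u r := fun e => hpr (hu e)
  have hvp : G.v (x p) ≠ G.v (x q) := fun e => hpq (x.injective (hv e))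
  have hvq : G.v (x q) ≠ G.v (x r) := fun e => hqr (x.injective (hv e))
  have hvr : G.v (x p) ≠ G.v (x r) := fun e => hpr (x.injective (hv e))
  unfold W2
  rw [w0, w1, w2, w3, w4, w5, w6, w7, w8, w9, w10, w11]
  clear w0 w1 w2 w3 w4 w5 w6 w7 w8 w9 w10 w11
  rcases cyc_total hup huq hur with hc | hc <;> rcases cyc_total hvp hvq hvr with hr | hr
  · have P0 : cyc (G.u p) (G.u q) (G.u r) := by unfold cyc at *; grind
    have P1 : cyc (G.u q) (G.u r) (G.u p) := by unfold cyc at *; grind
    have P2 : cyc (G.u r) (G.u p) (G.u q) := by unfold cyc at *; grind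
    have N0 : ¬ cyc (G.u p) (G.u r) (G.u q) := by unfold cyc at *; grind
    have N1 : ¬ cyc (G.u q) (G.u p) (G.u r) := by unfold cyc at *; grind
    have N2 : ¬ cyc (G.u r) (G.u q) (G.u p) := by unfold cyc at *; grind
    have Q0 : cyc (G.v (x p)) (G.v (x q)) (G.v (x r)) := by unfold cyc at *; grind
    have Q1 : cyc (G.v (x q)) (G.v (x r)) (G.v (x p)) := by unfold cyc at *; grind
    have Q2 : cyc (G.v (x r)) (G.v (x p)) (G.v (x q)) := by unfold cyc at *; grind
    have O0 : ¬ cyc (G.v (x p)) (G.v (x r)) (G.v (x q)) := by unfold cyc at *; grind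
    have O1 : ¬ cyc (G.v (x q)) (G.v (x p)) (G.v (x r)) := by unfold cyc at *; grind
    have O2 : ¬ cyc (G.v (x r)) (G.v (x q)) (G.v (x p)) := by unfold cyc at *; grind
    simp only [if_pos P0, if_pos P1, if_pos P2, if_neg N0, if_neg N1, if_neg N2, if_pos Q0, if_pos Q1,
      if_pos Q2, if_neg O0, if_neg O1, if_neg O2]
    linear_combination ((Rb G x p q r p q (x p) (x q)) * (Rb G x p q r p q (x q) (x r)) * (Rb G x p q r q r (x q) (x r)) +
      (Rb G x p q r p q (x p) (x q)) * (Rb G x p q r r p (x p) (x q)) * (Rb G x p q r r p (x r) (x p)) +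
      (Rb G x p q r q r (x q) (x r)) * (Rb G x p q r q r (x r) (x p)) * (Rb G x p q r r p (x r) (x p))) * h2
  · have P0 : cyc (G.u p) (G.u q) (G.u r) := by unfold cyc at *; grind
    have P1 : cyc (G.u q) (G.u r) (G.u p) := by unfold cyc at *; grind
    have P2 : cyc (G.u r) (G.u p) (G.u q) := by unfold cyc at *; grind
    have N0 : ¬ cyc (G.u p) (G.u r) (G.u q) := by unfold cyc at *; grind
    have N1 : ¬ cyc (G.u q) (G.u p) (G.u r) := by unfold cyc at *; grind
    have N2 : ¬ cyc (G.u r) (G.u q) (G.u p) := by unfold cyc at *; grind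
    have Q0 : cyc (G.v (x p)) (G.v (x r)) (G.v (x q)) := by unfold cyc at *; grind
    have Q1 : cyc (G.v (x r)) (G.v (x q)) (G.v (x p)) := by unfold cyc at *; grind
    have Q2 : cyc (G.v (x q)) (G.v (x p)) (G.v (x r)) := by unfold cyc at *; grind
    have O0 : ¬ cyc (G.v (x p)) (G.v (x q)) (G.v (x r)) := by unfold cyc at *; grind
    have O1 : ¬ cyc (G.v (x r)) (G.v (x p)) (G.v (x q)) := by unfold cyc at *; grind
    have O2 : ¬ cyc (G.v (x q)) (G.v (x r)) (G.v (x p)) := by unfold cyc at *; grind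
    simp only [if_pos P0, if_pos P1, if_pos P2, if_neg N0, if_neg N1, if_neg N2, if_pos Q0, if_pos Q1,
      if_pos Q2, if_neg O0, if_neg O1, if_neg O2]
    linear_combination ((Rb G x p q r p q (x p) (x r)) * (Rb G x p q r p q (x r) (x q)) * (Rb G x p q r r p (x r) (x q)) +
      (Rb G x p q r q r (x q) (x p)) * (Rb G x p q r r p (x q) (x p)) * (Rb G x p q r r p (x r) (x q)) +
      (Rb G x p q r p q (x p) (x r)) * (Rb G x p q r q r (x p) (x r)) * (Rb G x p q r q r (x q) (x p))) * h2
  · have P0 : cyc (G.u p) (G.u r) (G.u q) := by unfold cyc at *; grind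
    have P1 : cyc (G.u r) (G.u q) (G.u p) := by unfold cyc at *; grind
    have P2 : cyc (G.u q) (G.u p) (G.u r) := by unfold cyc at *; grind
    have N0 : ¬ cyc (G.u p) (G.u q) (G.u r) := by unfold cyc at *; grind
    have N1 : ¬ cyc (G.u r) (G.u p) (G.u q) := by unfold cyc at *; grind
    have N2 : ¬ cyc (G.u q) (G.u r) (G.u p) := by unfold cyc at *; grind
    have Q0 : cyc (G.v (x p)) (G.v (x q)) (G.v (x r)) := by unfold cyc at *; grind
    have Q1 : cyc (G.v (x q)) (G.v (x r)) (G.v (x p)) := by unfold cyc at *; grind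
    have Q2 : cyc (G.v (x r)) (G.v (x p)) (G.v (x q)) := by unfold cyc at *; grind
    have O0 : ¬ cyc (G.v (x p)) (G.v (x r)) (G.v (x q)) := by unfold cyc at *; grind
    have O1 : ¬ cyc (G.v (x q)) (G.v (x p)) (G.v (x r)) := by unfold cyc at *; grind
    have O2 : ¬ cyc (G.v (x r)) (G.v (x q)) (G.v (x p)) := by unfold cyc at *; grind
    simp only [if_pos P0, if_pos P1, if_pos P2, if_neg N0, if_neg N1, if_neg N2, if_pos Q0, if_pos Q1,
      if_pos Q2, if_neg O0, if_neg O1, if_neg O2]
    linear_combination ((Rb G x p q r p r (x p) (x q)) * (Rb G x p q r p r (x q) (x r)) * (Rb G x p q r r q (x p) (x q)) +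
      (Rb G x p q r p r (x q) (x r)) * (Rb G x p q r q p (x q) (x r)) * (Rb G x p q r q p (x r) (x p)) +
      (Rb G x p q r q p (x r) (x p)) * (Rb G x p q r r q (x p) (x q)) * (Rb G x p q r r q (x r) (x p))) * h2
  · have P0 : cyc (G.u p) (G.u r) (G.u q) := by unfold cyc at *; grind
    have P1 : cyc (G.u r) (G.u q) (G.u p) := by unfold cyc at *; grind
    have P2 : cyc (G.u q) (G.u p) (G.u r) := by unfold cyc at *; grind
    have N0 : ¬ cyc (G.u p) (G.u q) (G.u r) := by unfold cyc at *; grind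
    have N1 : ¬ cyc (G.u r) (G.u p) (G.u q) := by unfold cyc at *; grind
    have N2 : ¬ cyc (G.u q) (G.u r) (G.u p) := by unfold cyc at *; grind
    have Q0 : cyc (G.v (x p)) (G.v (x r)) (G.v (x q)) := by unfold cyc at *; grind
    have Q1 : cyc (G.v (x r)) (G.v (x q)) (G.v (x p)) := by unfold cyc at *; grind
    have Q2 : cyc (G.v (x q)) (G.v (x p)) (G.v (x r)) := by unfold cyc at *; grind
    have O0 : ¬ cyc (G.v (x p)) (G.v (x q)) (G.v (x r)) := by unfold cyc at *; grind
    have O1 : ¬ cyc (G.v (x r)) (G.v (x p)) (G.v (x q)) := by unfold cyc at *; grind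
    have O2 : ¬ cyc (G.v (x q)) (G.v (x r)) (G.v (x p)) := by unfold cyc at *; grind
    simp only [if_pos P0, if_pos P1, if_pos P2, if_neg N0, if_neg N1, if_neg N2, if_pos Q0, if_pos Q1,
      if_pos Q2, if_neg O0, if_neg O1, if_neg O2]
    linear_combination ((Rb G x p q r p r (x p) (x r)) * (Rb G x p q r p r (x q) (x p)) * (Rb G x p q r q p (x q) (x p)) +
      (Rb G x p q r q p (x q) (x p)) * (Rb G x p q r q p (x r) (x q)) * (Rb G x p q r r q (x r) (x q)) +
      (Rb G x p q r p r (x p) (x r)) * (Rb G x p q r r q (x p) (x r)) * (Rb G x p q r r q (x r) (x q))) * h2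

end LG


end
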