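import Mathlib
import Pool.Agent.NDM.C02
import Pool.Agent.NDM.C03
import Pool.Agent.NDM.C05
import Pool.Agent.NDM.C06
import Pool.Agent.NDM.C07
import Pool.Agent.NDM.C08
import Pool.Agent.NDM.C09
import Pool.Agent.NDM.C10
import Pool.Agent.NDM.C13
import Pool.Agent.NDM.C14
import Pool.Agent.NDM.C21
import Pool.Agent.NDM.C22

/-! Parts: LG.PT0, LG.STB, LG.All, LH.DC2 -/

section

/-!
# Part D: a pentagon and a rectangle without common vertical circles
-/

set_option linter.unusedVariables false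
set_option linter.unusedSectionVars false

namespace LG

open Equiv Finset Function

namespace PT0

section Four

variable {α β : Type} [LinearOrder α] [LinearOrder β]

lemma key1 {i j k l : α} {a b c d : β} (h1 : i ≠ j) (h2 : k ≠ l) (h3 : i ≠ k) (h4 : i ≠ l)
    (h5 : j ≠ k) (h6 : j ≠ l) (g1 : a ≠ b) (g2 : c ≠ d) (g3 : a ≠ c) (g4 : a ≠ d)
    (g5 : b ≠ c) (g6 : b ≠ d)
    (e1 : ¬ (cyc i k j ∧ cyc a c b)) (e2 : ¬ (cyc i l j ∧ cyc a d b))
    (e3 : ¬ (cyc k i l ∧ cyc c b d)) (e4 : ¬ (cyc k j l ∧ cyc c a d)) :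
    ¬ (cyc k i l ∧ cyc c a d) := by
  unfold cyc at *
  grind

lemma key2 {i j k l : α} {a b c d : β} (h1 : i ≠ j) (h2 : k ≠ l) (h3 : i ≠ k) (h4 : i ≠ l)
    (h5 : j ≠ k) (h6 : j ≠ l) (g1 : a ≠ b) (g2 : c ≠ d) (g3 : a ≠ c) (g4 : a ≠ d)
    (g5 : b ≠ c) (g6 : b ≠ d)
    (e1 : ¬ (cyc i k j ∧ cyc a c b)) (e2 : ¬ (cyc i l j ∧ cyc a d b))
    (e3 : ¬ (cyc k i l ∧ cyc c b d)) (e4 : ¬ (cyc k j l ∧ cyc c a d)) :
    ¬ (cyc k j l ∧ cyc c b d) := by
  unfold cyc at *
  grind

lemma key3 {i j k l : α} {a b c d : β} (h1 : i ≠ j) (h2 : k ≠ l) (h3 : i ≠ k) (h4 : i ≠ l)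
    (h5 : j ≠ k) (h6 : j ≠ l) (g1 : a ≠ b) (g2 : c ≠ d) (g3 : a ≠ c) (g4 : a ≠ d)
    (g5 : b ≠ c) (g6 : b ≠ d)
    (e1 : ¬ (cyc i k j ∧ cyc a c b)) (e2 : ¬ (cyc i l j ∧ cyc a d b))
    (e3 : ¬ (cyc k i l ∧ cyc c b d)) (e4 : ¬ (cyc k j l ∧ cyc c a d)) :
    ¬ (cyc i k j ∧ cyc a d b) := by
  unfold cyc at *
  grind

lemma key4 {i j k l : α} {a b c d : β} (h1 : i ≠ j) (h2 : k ≠ l) (h3 : i ≠ k) (h4 : i ≠ l)
    (h5 : j ≠ k) (h6 : j ≠ l) (g1 : a ≠ b) (g2 : c ≠ d) (g3 : a ≠ c) (g4 : a ≠ d)
    (g5 : b ≠ c) (g6 : b ≠ d)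
    (e1 : ¬ (cyc i k j ∧ cyc a c b)) (e2 : ¬ (cyc i l j ∧ cyc a d b))
    (e3 : ¬ (cyc k i l ∧ cyc c b d)) (e4 : ¬ (cyc k j l ∧ cyc c a d)) :
    ¬ (cyc i l j ∧ cyc a c b) := by
  unfold cyc at *
  grind

/-- The marks of the columns adjacent to `z`: `y` before, `t` after. -/
lemma cols {y z t k l p q : α} (h1 : y ≠ z) (h2 : t ≠ z) (h3 : k ≠ z) (h4 : l ≠ z) (h5 : k ≠ l)
    (a1 : ¬ cyc y k z) (a2 : ¬ cyc y l z) (a3 : ¬ cyc z k t) (a4 : ¬ cyc z l t)
    (hp : ico y p z) (hq : ico z q t) : ico k p l ↔ ico k q l := by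
  unfold ico cyc at *
  grind

end Four

section Grid

variable {ι M α β R : Type} [Fintype ι] [DecidableEq ι] [Fintype M] [LinearOrder α]
  [LinearOrder β] [CommRing R]

lemma emp_of (G : MG ι M α β R) (hu : Injective G.u) (hv : Injective G.v) (x : Perm ι)
    (i j k l : ι) (h1 : i ≠ j) (h2 : k ≠ l) (h3 : i ≠ k) (h4 : i ≠ l) (h5 : j ≠ k) (h6 : j ≠ l)
    (e : Emp G x i j) (e' : Emp G (x * swap i j) k l) :
    Emp G x k l ∧ Emp G (x * swap k l) i j := by
  have U : ∀ {s t : ι}, s ≠ t → G.u s ≠ G.u t := fun h h' => h (hu h')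
  have V : ∀ {s t : ι}, s ≠ t → G.v (x s) ≠ G.v (x t) := fun h h' => h (x.injective (hv h'))
  have xk : (x * swap i j) k = x k := by
    rw [Perm.mul_apply, swap_apply_of_ne_of_ne h3.symm h5.symm]
  have xl : (x * swap i j) l = x l := by
    rw [Perm.mul_apply, swap_apply_of_ne_of_ne h4.symm h6.symm]
  have xi : (x * swap i j) i = x j := by rw [Perm.mul_apply, swap_apply_left]
  have xj : (x * swap i j) j = x i := by rw [Perm.mul_apply, swap_apply_right]
  have yi : (x * swap k l) i = x i := by rw [Perm.mul_apply, swap_apply_of_ne_of_ne h3 h4]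
  have yj : (x * swap k l) j = x j := by rw [Perm.mul_apply, swap_apply_of_ne_of_ne h5 h6]
  have yk : (x * swap k l) k = x l := by rw [Perm.mul_apply, swap_apply_left]
  have yl : (x * swap k l) l = x k := by rw [Perm.mul_apply, swap_apply_right]
  have e1 := e k
  have e2 := e l
  have e3 := e' i
  have e4 := e' j
  rw [xk, xl, xi] at e3
  rw [xk, xl, xj] at e4
  have f1 := key1 (U h1) (U h2) (U h3) (U h4) (U h5) (U h6) (V h1) (V h2) (V h3) (V h4) (V h5)
    (V h6) e1 e2 e3 e4
  have f2 := key2 (U h1) (U h2) (U h3) (U h4) (U h5) (U h6) (V h1) (V h2) (V h3) (V h4) (V h5)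
    (V h6) e1 e2 e3 e4
  have f3 := key3 (U h1) (U h2) (U h3) (U h4) (U h5) (U h6) (V h1) (V h2) (V h3) (V h4) (V h5)
    (V h6) e1 e2 e3 e4
  have f4 := key4 (U h1) (U h2) (U h3) (U h4) (U h5) (U h6) (V h1) (V h2) (V h3) (V h4) (V h5)
    (V h6) e1 e2 e3 e4
  constructor
  · intro t
    by_cases ti : t = i
    · rw [ti]
      exact f1
    · by_cases tj : t = j
      · rw [tj]
        exact f2
      · have h := e' t
        rw [xk, xl, Perm.mul_apply, swap_apply_of_ne_of_ne ti tj] at h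
        exact h
  · intro t
    rw [yi, yj]
    by_cases tk : t = k
    · rw [tk, yk]
      exact f3
    · by_cases tl : t = l
      · rw [tl, yl]
        exact f4
      · rw [Perm.mul_apply, swap_apply_of_ne_of_ne tk tl]
        exact e t

lemma ins_iff (G : MG ι M α β R) (D : PD G) (hu : Injective G.u) (x : Perm ι) (i j k l : ι)
    (h : i = D.i0 ∨ j = D.i0) (h2 : k ≠ l) (h3 : i ≠ k) (h4 : i ≠ l) (h5 : j ≠ k)
    (h6 : j ≠ l) (m : M) : Ins D.G' (x * swap i j) k l m ↔ Ins G x k l m := by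
  have U : ∀ {s t : ι}, s ≠ t → G.u s ≠ G.u t := fun h h' => h (hu h')
  have xk : (x * swap i j) k = x k := by
    rw [Perm.mul_apply, swap_apply_of_ne_of_ne h3.symm h5.symm]
  have xl : (x * swap i j) l = x l := by
    rw [Perm.mul_apply, swap_apply_of_ne_of_ne h4.symm h6.symm]
  have k0 : k ≠ D.i0 := by
    rcases h with h | h
    · rw [← h]
      exact h3.symm
    · rw [← h]
      exact h5.symm
  have l0 : l ≠ D.i0 := by
    rcases h with h | h
    · rw [← h]
      exact h4.symm
    · rw [← h]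
      exact h6.symm
  have hcol : ico (G.u k) (D.p' m) (G.u l) ↔ ico (G.u k) (G.p m) (G.u l) := by
    by_cases hL : D.L m
    · exact (cols (U D.n1) (U D.n2) (U k0) (U l0) (U h2) (D.adj1 k) (D.adj1 l) (D.adj2 k)
        (D.adj2 l) ((D.hL m).1 hL) (D.mL m hL)).symm
    · by_cases hK : D.K m
      · exact cols (U D.n1) (U D.n2) (U k0) (U l0) (U h2) (D.adj1 k) (D.adj1 l) (D.adj2 k)
          (D.adj2 l) (D.mK m hK) ((D.hK m).1 hK)
      · rw [D.mO m hL hK]
  unfold Ins
  rw [xk, xl]
  exact and_congr hcol Iff.rfl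

lemma pins_iff (G : MG ι M α β R) (D : PD G) (x : Perm ι) (i j k l : ι)
    (h3 : i ≠ k) (h4 : i ≠ l) (h5 : j ≠ k) (h6 : j ≠ l) (m : M) :
    PIns D (x * swap k l) i j m ↔ PIns D x i j m := by
  have yi : (x * swap k l) i = x i := by rw [Perm.mul_apply, swap_apply_of_ne_of_ne h3 h4]
  have yj : (x * swap k l) j = x j := by rw [Perm.mul_apply, swap_apply_of_ne_of_ne h5 h6]
  unfold PIns Ins
  rw [yi, yj]

end Grid

end PT0

theorem t_PT0 : Stmt_PT0 := by
  intro ι M α β R _ _ _ _ _ _ G D hu hv x i j k l h3 h4 h5 h6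
  have yi : (x * Equiv.swap k l) i = x i := by rw [Perm.mul_apply, swap_apply_of_ne_of_ne h3 h4]
  have yj : (x * Equiv.swap k l) j = x j := by rw [Perm.mul_apply, swap_apply_of_ne_of_ne h5 h6]
  by_cases h1 : i = j
  · have z1 : ∀ y : Perm ι, Pw D y i j = 0 := fun y => if_neg fun h => h.1 h1
    rw [z1, z1, zero_mul, mul_zero]
  by_cases h2 : k = l
  · have z1 : Wt D.G' (x * Equiv.swap i j) k l = 0 := if_neg fun h => h.1 h2
    have z2 : Wt G x k l = 0 := if_neg fun h => h.1 h2
    rw [z1, z2, zero_mul, mul_zero]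
  by_cases h0 : i = D.i0 ∨ j = D.i0
  swap
  · have z1 : ∀ y : Perm ι, Pw D y i j = 0 := fun y => if_neg fun h => h0 h.2.1
    rw [z1, z1, zero_mul, mul_zero]
  by_cases hc : cyc (G.v (x i)) D.a (G.v (x j))
  swap
  · have z1 : Pw D x i j = 0 := if_neg fun h => hc h.2.2.2
    have z2 : Pw D (x * Equiv.swap k l) i j = 0 := if_neg fun h => hc (by
      have := h.2.2.2
      rwa [yi, yj] at this)
    rw [z1, z2, zero_mul, mul_zero]
  have hE : (Emp G x i j ∧ Emp G (x * Equiv.swap i j) k l) ↔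
      (Emp G x k l ∧ Emp G (x * Equiv.swap k l) i j) :=
    ⟨fun h => PT0.emp_of G hu hv x i j k l h1 h2 h3 h4 h5 h6 h.1 h.2,
      fun h => PT0.emp_of G hu hv x k l i j h2 h1 h3.symm h5.symm h4.symm h6.symm h.1 h.2⟩
  by_cases e : Emp G x i j ∧ Emp G (x * Equiv.swap i j) k l
  · have e' := hE.1 e
    have w1 : Pw D x i j = ∏ m, (if PIns D x i j m then G.w m else 1) :=
      if_pos ⟨h1, h0, e.1, hc⟩
    have w2 : Wt D.G' (x * Equiv.swap i j) k l =
        ∏ m, (if Ins D.G' (x * Equiv.swap i j) k l m then G.w m else 1) := if_pos ⟨h2, e.2⟩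
    have w3 : Wt G x k l = ∏ m, (if Ins G x k l m then G.w m else 1) := if_pos ⟨h2, e'.1⟩
    have w4 : Pw D (x * Equiv.swap k l) i j =
        ∏ m, (if PIns D (x * Equiv.swap k l) i j m then G.w m else 1) :=
      if_pos ⟨h1, h0, e'.2, by rw [yi, yj]; exact hc⟩
    rw [w1, w2, w3, w4, mul_comm]
    congr 1
    · exact prod_congr rfl fun m _ => by
        rw [if_congr (PT0.ins_iff G D hu x i j k l h0 h2 h3 h4 h5 h6 m) rfl rfl]
    · exact prod_congr rfl fun m _ => by
        rw [if_congr (PT0.pins_iff G D x i j k l h3 h4 h5 h6 m) rfl rfl]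
  · have e' := fun h => e (hE.2 h)
    have z1 : Pw D x i j * Wt D.G' (x * Equiv.swap i j) k l = 0 := by
      by_cases e1 : Emp G x i j
      · have z : Wt D.G' (x * Equiv.swap i j) k l = 0 := if_neg fun h => e ⟨e1, h.2⟩
        rw [z, mul_zero]
      · have z : Pw D x i j = 0 := if_neg fun h => e1 h.2.2.1
        rw [z, zero_mul]
    have z2 : Wt G x k l * Pw D (x * Equiv.swap k l) i j = 0 := by
      by_cases e1 : Emp G x k l
      · have z : Pw D (x * Equiv.swap k l) i j = 0 := if_neg fun h => e' ⟨e1, h.2.2.1⟩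
        rw [z, mul_zero]
      · have z : Wt G x k l = 0 := if_neg fun h => e1 h.2
        rw [z, zero_mul]
    rw [z1, z2]

end LG


end

section

/-!
# Part D: invariance under destabilisation
-/

namespace LG

open Equiv Finset Function

namespace STB

variable {ι κ α β : Type} [Fintype ι] [DecidableEq ι] [Fintype κ] [DecidableEq κ]
  [LinearOrder α] [LinearOrder β]

theorem bdS_add (c : ι → α) (r : ι → β) (a : κ → α) (b : κ → β) (S : Finset (ι ⊕ κ))
    (f g : Perm ι → ZMod 2) :
    bdS c r a b S (f + g) = bdS c r a b S f + bdS c r a b S g := by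
  funext y
  simp only [bdS, Pi.add_apply, add_mul, Finset.sum_add_distrib]

/-- If every admissible rectangle into `y` starts at a zero of `f`, then the value is zero. -/
theorem bdS_zero (c : ι → α) (r : ι → β) (a : κ → α) (b : κ → β) (S : Finset (ι ⊕ κ))
    (f : Perm ι → ZMod 2) (y : Perm ι)
    (h : ∀ i j, i ≠ j → Emp (gm c r a b) (y * Equiv.swap i j) i j →
      (univ.filter fun m => Ins (gm c r a b) (y * Equiv.swap i j) i j m) = S →
      f (y * Equiv.swap i j) = 0) : bdS c r a b S f y = 0 := by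
  unfold bdS
  refine Finset.sum_eq_zero fun i _ => Finset.sum_eq_zero fun j _ => ?_
  split_ifs with hc
  · rw [h i j hc.1 hc.2.1 hc.2.2, zero_mul]
  · rw [mul_zero]

end STB

theorem t_STB : Stmt_STB := by
  intro hE h0 h1 h2 ι κ α β _ _ _ _ _ _ c r a b l k m hB
  rw [h2 ι κ α β c r a b l k m hB]
  have hD : ∀ f, bdS c r a b ∅ f = bd c r a b f := fun f =>
    (hE ι κ α β c r a b hB.gd (Sum.inr m) f).2
  have s0 := h0 ι κ α β c r a b l k m hB
  have back : ∀ (y : Perm ι) (i j : ι), y * Equiv.swap i j * Equiv.swap i j = y := fun y i j => by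
    rw [mul_assoc, Equiv.swap_mul_self, mul_one]
  -- the differential preserves the support
  have supD : ∀ f : Perm ι → ZMod 2, (∀ x, x k ≠ k → f x = 0) →
      ∀ y : Perm ι, y k ≠ k → bdS c r a b ∅ f y = 0 := by
    intro f hf y hy
    refine STB.bdS_zero c r a b ∅ f y fun i j hij he hm => ?_
    by_contra hne
    have hx : (y * Equiv.swap i j) k = k := by
      by_contra hx
      exact hne (hf _ hx)
    have := (s0 (y * Equiv.swap i j) i j hij he).1 hm hx
    rw [back] at this
    exact hy this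
  have supB : ∀ f : Perm ι → ZMod 2, ∀ y : Perm ι, y k ≠ k →
      bdS c r a b {Sum.inr m} f y = 0 := by
    intro f y hy
    refine STB.bdS_zero c r a b {Sum.inr m} f y fun i j hij he hm => ?_
    have := ((s0 (y * Equiv.swap i j) i j hij he).2.2 hm).2
    rw [back] at this
    exact absurd this hy
  have single0 : ∀ y : Perm ι, y k ≠ k → (Pi.single 1 1 : Perm ι → ZMod 2) y = 0 := by
    intro y hy
    refine Pi.single_eq_of_ne ?_ _
    rintro rfl
    exact hy rfl
  constructor
  · rintro ⟨f, hf⟩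
    set fI : Perm ι → ZMod 2 := fun x => if x k = k then f x else 0 with hfI
    set fN : Perm ι → ZMod 2 := fun x => if x k = k then 0 else f x with hfN
    have hsum : fI + fN = f := by
      funext x
      simp only [hfI, hfN, Pi.add_apply]
      split_ifs <;> simp
    have hI0 : ∀ x : Perm ι, x k ≠ k → fI x = 0 := by
      intro x hx
      simp only [hfI, if_neg hx]
    have hDf : bdS c r a b ∅ fI + bdS c r a b ∅ fN = Pi.single 1 1 := by
      rw [← STB.bdS_add, hsum, hD, hf]
    have hN0 : ∀ y : Perm ι, y k ≠ k → bdS c r a b ∅ fN y = 0 := by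
      intro y hy
      have e := congrFun hDf y
      rw [Pi.add_apply, supD fI hI0 y hy, single0 y hy, zero_add] at e
      exact e
    refine ⟨fI + bdS c r a b {Sum.inr m} (bdS c r a b {Sum.inl k} fN), ?_, ?_⟩
    · intro x hx
      rw [Pi.add_apply, hI0 x hx, supB _ x hx, zero_add]
    · intro y _
      have e1 : bdS c r a b ∅ (bdS c r a b {Sum.inr m} (bdS c r a b {Sum.inl k} fN)) =
          bdS c r a b ∅ fN := by
        rw [← (hE ι κ α β c r a b hB.gd (Sum.inr m) _).1,
          ← (hE ι κ α β c r a b hB.gd (Sum.inl k) _).1,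
          h1 ι κ α β c r a b l k m hB _ hN0]
      rw [← hD, STB.bdS_add, e1, hDf]
  · rintro ⟨f, hf, hb⟩
    refine ⟨f, ?_⟩
    funext y
    by_cases hy : y k = k
    · exact hb y hy
    · rw [← hD, supD f hf y hy, single0 y hy]

end LG


end

section

/-!
# Part D: assembly
-/

namespace LG

theorem p_DD : P_DD := t_DD t_WT0 t_WT1 t_WT2

theorem p_PC : P_PC := t_PC t_PT0 t_PT1 t_PT2

theorem p_COL : P_COL := t_COL p_PC

theorem p_ROW : P_ROW := t_ROW p_COL t_TRN

theorem p_EPS : P_EPS := t_EPS p_DD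

theorem p_STB : P_STB := t_STB p_EPS t_SB0 t_SB1 t_SB2

theorem p_SR : P_SR := by
  intro ι κ α β _ _ _ _ _ _ c r a b l k m n h h'
  rcases h' with ⟨h1, h2⟩ | ⟨h1, h2⟩
  · exact t_SR1 p_ROW p_STB t_REL ι κ α β c r a b l k m n h h1 h2
  · exact t_SR2 p_ROW p_STB t_REL t_TRN ι κ α β c r a b l k m n h h1 h2

theorem p_WR : P_WR := t_WR p_ROW t_BLK

theorem p_LTRN : ∀ L : List (ℝ × ℝ), VL L ↔ VL (L.map Prod.swap).reverse := t_LTRN t_TRN t_REL

theorem p_MV (L L' : List (ℝ × ℝ)) (h : Mv L L') : Inv L L' := by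
  cases h with
  | rot A B => exact t_LROT t_REL A B
  | iso L f g h hf hg =>
    have hc : ∀ p ∈ L, ∀ q ∈ L, (f p.1 < f q.1 ↔ p.1 < q.1) := by
      intro p hp q hq
      refine ⟨fun hlt => ?_, hf p hp q hq⟩
      by_contra hn
      rcases lt_or_eq_of_le (not_lt.1 hn) with h1 | h1
      · exact absurd (hf q hq p hp h1) (not_lt.2 hlt.le)
      · rw [h1] at hlt; exact lt_irrefl _ hlt
    have hr : ∀ p ∈ L, ∀ q ∈ L, (g p.2 < g q.2 ↔ p.2 < q.2) := by
      intro p hp q hq
      refine ⟨fun hlt => ?_, hg p hp q hq⟩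
      by_contra hn
      rcases lt_or_eq_of_le (not_lt.1 hn) with h1 | h1
      · exact absurd (hg q hq p hp h1) (not_lt.2 hlt.le)
      · rw [h1] at hlt; exact lt_irrefl _ hlt
    have key : ∀ i : Fin L.length,
        (L.map fun p => (f p.1, g p.2)).get (i.cast (by simp)) = (f (L.get i).1, g (L.get i).2) := by
      intro i; simp
    refine t_LISO t_REL L _ h ?_ (by simp) ?_ ?_
    · constructor
      · rw [List.map_map]
        have := h.1
        rw [List.nodup_map_iff_inj_on (List.Nodup.of_map _ this)] at this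
        rw [List.nodup_map_iff_inj_on (List.Nodup.of_map _ h.1)]
        intro x hx y hy hxy
        refine this x hx y hy ?_
        have h1 := hc x hx y hy
        have h2 := hc y hy x hx
        simp only [Function.comp_apply] at hxy
        rw [hxy] at h1 h2
        simp only [lt_self_iff_false, false_iff, not_lt] at h1 h2
        exact le_antisymm h2 h1
      · rw [List.map_map]
        have := h.2
        rw [List.nodup_map_iff_inj_on (List.Nodup.of_map _ this)] at this
        rw [List.nodup_map_iff_inj_on (List.Nodup.of_map _ h.2)]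
        intro x hx y hy hxy
        refine this x hx y hy ?_
        have h1 := hr x hx y hy
        have h2 := hr y hy x hx
        simp only [Function.comp_apply] at hxy
        rw [hxy] at h1 h2
        simp only [lt_self_iff_false, false_iff, not_lt] at h1 h2
        exact le_antisymm h2 h1
    · intro i j k
      rw [key i, key j, key k]
      unfold cyc
      simp only [hc _ (List.get_mem L i) _ (List.get_mem L j),
        hc _ (List.get_mem L j) _ (List.get_mem L k), hc _ (List.get_mem L k) _ (List.get_mem L i)]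
    · intro i j k
      rw [key i, key j, key k]
      unfold cyc
      simp only [hr _ (List.get_mem L i) _ (List.get_mem L j),
        hr _ (List.get_mem L j) _ (List.get_mem L k), hr _ (List.get_mem L k) _ (List.get_mem L i)]
  | col c r t B z h ht hu => exact t_LCOL p_COL t_REL c r t B z h ht hu
  | row c r t z B h ht hu =>
    exact t_LROW t_LCOL p_COL t_REL t_TRN t_LTRN t_LROT c r t z B h ht hu
  | srow c₁ r₁ c₂ r₂ B z h ha => exact t_LSR p_SR t_REL c₁ r₁ c₂ r₂ B z h ha
  | scol c₁ r₁ c₂ r₂ z B h ha =>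
    exact t_LSC t_LSR p_SR t_REL t_TRN t_LTRN t_LROT c₁ r₁ c₂ r₂ z B h ha

theorem p_LEQ : P_LEQ := t_LEQ p_MV t_LNEG

end LG


end

section

/-!
# Part C: a short column, second direction of the walk
-/

namespace LH

open Set LG

namespace DC2

/-! ### alternating lists -/

/-- The alternation as a relation. -/
abbrev Rl (a b : En) : Prop := a.isLeft = !b.isLeft

theorem chain_zip {α : Type*} {R : α → α → Prop} : ∀ (l : List α) (x : α),
    (∀ p ∈ l.zip (l.tail ++ [x]), R p.1 p.2) → List.IsChain R (l ++ [x])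
  | [], x, _ => by simp
  | [a], x, h => by
    have := h (a, x) (by simp)
    simpa using this
  | a :: b :: t, x, h => by
    have h1 : R a b := h (a, b) (by simp)
    have ih := chain_zip (b :: t) x (fun p hp => h p (by
      simp only [List.tail_cons, List.cons_append, List.zip_cons_cons] at hp ⊢
      exact List.mem_cons_of_mem _ hp))
    simp only [List.cons_append] at ih ⊢
    exact List.IsChain.cons_cons h1 ih

theorem alt_chain {x : En} {t : List En} (h : Alt (x :: t)) :
    List.IsChain Rl ((x :: t) ++ [x]) := by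
  refine chain_zip (x :: t) x fun p hp => h.2 p ?_
  simpa [cp] using hp

theorem alt_congr {x y : En} {t : List En} (hxy : x.isLeft = y.isLeft) (h : Alt (x :: t)) :
    Alt (y :: t) := by
  have key : ∀ l : List En, Alt l ↔ l ≠ [] ∧
      ∀ p ∈ cp (l.map Sum.isLeft), p.1 = !p.2 := by
    intro l
    unfold Alt cp
    rw [← List.map_rotate, List.zip_map]
    constructor
    · rintro ⟨h1, h2⟩
      refine ⟨h1, fun p hp => ?_⟩
      obtain ⟨q, hq, rfl⟩ := List.mem_map.1 hp
      exact h2 q hq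
    · rintro ⟨h1, h2⟩
      exact ⟨h1, fun p hp => h2 _ (List.mem_map_of_mem hp)⟩
  rw [key] at h ⊢
  refine ⟨by simp, ?_⟩
  have : (y :: t).map Sum.isLeft = (x :: t).map Sum.isLeft := by simp [hxy]
  rw [this]
  exact h.2

theorem exists_fl : ∀ (n : ℕ) (l : List En), l.length ≤ n → List.IsChain Rl l →
    (∀ a, l.head? = some a → a.isLeft = true) → (∀ a, l.getLast? = some a → a.isLeft = false) →
    ∃ L : List (Q × Q), fl L = l
  | _, [], _, _, _, _ => ⟨[], rfl⟩
  | _, [a], _, _, h1, h2 => by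
    have e1 := h1 a rfl
    have e2 := h2 a rfl
    rw [e1] at e2
    cases e2
  | 0, _ :: _ :: _, hl, _, _, _ => by simp at hl
  | n + 1, a :: b :: t, hl, hc, h1, h2 => by
    have e1 := h1 a rfl
    rw [List.isChain_cons_cons] at hc
    have e2 : b.isLeft = false := by
      have := hc.1
      rw [Rl, e1] at this
      simpa using this.symm
    obtain ⟨x, rfl⟩ : ∃ x, a = Sum.inl x := by
      cases a with
      | inl x => exact ⟨x, rfl⟩
      | inr x => simp at e1
    obtain ⟨y, rfl⟩ : ∃ y, b = Sum.inr y := by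
      cases b with
      | inr x => exact ⟨x, rfl⟩
      | inl x => simp at e2
    have hc' : List.IsChain Rl t := hc.2.tail
    obtain ⟨L, hL⟩ := exists_fl n t (by simp only [List.length_cons] at hl; omega) hc'
      (fun c hcc => by
        cases t with
        | nil => simp at hcc
        | cons d t' =>
          simp only [List.head?_cons, Option.some.injEq] at hcc
          subst hcc
          have := (List.isChain_cons_cons.1 hc.2).1
          rw [Rl] at this
          simpa using this)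
      (fun c hcc => by
        refine h2 c ?_
        cases t with
        | nil => simp at hcc
        | cons d t' =>
          rw [List.getLast?_cons_cons, List.getLast?_cons_cons]
          exact hcc)
    exact ⟨(x, y) :: L, by rw [← hL]; rfl⟩

theorem fl_cons {α β : Type*} (p : α × β) (K : List (α × β)) :
    fl (p :: K) = Sum.inl p.1 :: Sum.inr p.2 :: fl K := rfl

theorem fl_map {α β γ δ : Type*} (f : α → γ) (g : β → δ) :
    ∀ K : List (α × β), fl (K.map (Prod.map f g)) = (fl K).map (Sum.map f g)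
  | [] => rfl
  | p :: K => by
    rw [List.map_cons, fl_cons, fl_cons, List.map_cons, List.map_cons, fl_map f g K]
    rfl

theorem mem_fl_inl {α β : Type*} {a : α} :
    ∀ {K : List (α × β)}, a ∈ K.map Prod.fst → Sum.inl a ∈ fl K
  | [], h => by simp at h
  | p :: K, h => by
    rw [List.map_cons, List.mem_cons] at h
    rw [fl_cons]
    rcases h with rfl | h
    · simp
    · exact List.mem_cons_of_mem _ (List.mem_cons_of_mem _ (mem_fl_inl h))

theorem mem_fl_inr {α β : Type*} {a : β} :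
    ∀ {K : List (α × β)}, a ∈ K.map Prod.snd → Sum.inr a ∈ fl K
  | [], h => by simp at h
  | p :: K, h => by
    rw [List.map_cons, List.mem_cons] at h
    rw [fl_cons]
    rcases h with rfl | h
    · simp
    · exact List.mem_cons_of_mem _ (List.mem_cons_of_mem _ (mem_fl_inr h))

theorem nodup_fst {α β : Type*} : ∀ {K : List (α × β)}, (fl K).Nodup → (K.map Prod.fst).Nodup
  | [], _ => by simp
  | p :: K, h => by
    rw [fl_cons, List.nodup_cons, List.nodup_cons] at h
    rw [List.map_cons, List.nodup_cons]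
    exact ⟨fun hm => h.1 (List.mem_cons_of_mem _ (mem_fl_inl hm)), nodup_fst h.2.2⟩

theorem nodup_snd {α β : Type*} : ∀ {K : List (α × β)}, (fl K).Nodup → (K.map Prod.snd).Nodup
  | [], _ => by simp
  | p :: K, h => by
    rw [fl_cons, List.nodup_cons, List.nodup_cons] at h
    rw [List.map_cons, List.nodup_cons]
    exact ⟨fun hm => h.2.1 (mem_fl_inr hm), nodup_snd h.2.2⟩

/-! ### heights next to a given one -/

theorem below (s : Finset Q) (a b : Q) (h : a < b) :
    ∃ x, a < x ∧ x < b ∧ ∀ r ∈ s, r < b → r < x := by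
  obtain ⟨m, hm, hmax⟩ := (insert a (s.filter (· < b))).exists_max_image id
    ⟨a, Finset.mem_insert_self _ _⟩
  have hmb : m < b := by
    rw [Finset.mem_insert, Finset.mem_filter] at hm
    rcases hm with rfl | hm
    · exact h
    · exact hm.2
  obtain ⟨x, h1, h2⟩ := exists_between hmb
  refine ⟨x, lt_of_le_of_lt (hmax a (Finset.mem_insert_self _ _)) h1, h2, fun r hr hrb => ?_⟩
  exact lt_of_le_of_lt (hmax r (Finset.mem_insert_of_mem (Finset.mem_filter.2 ⟨hr, hrb⟩))) h1

theorem above (s : Finset Q) (a b : Q) (h : b < a) :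
    ∃ x, x < a ∧ b < x ∧ ∀ r ∈ s, b < r → x < r := by
  obtain ⟨m, hm, hmin⟩ := (insert a (s.filter (b < ·))).exists_min_image id
    ⟨a, Finset.mem_insert_self _ _⟩
  have hmb : b < m := by
    rw [Finset.mem_insert, Finset.mem_filter] at hm
    rcases hm with rfl | hm
    · exact h
    · exact hm.2
  obtain ⟨x, h1, h2⟩ := exists_between hmb
  refine ⟨x, lt_of_lt_of_le h2 (hmin a (Finset.mem_insert_self _ _)), h1, fun r hr hrb => ?_⟩
  exact lt_of_lt_of_le h2 (hmin r (Finset.mem_insert_of_mem (Finset.mem_filter.2 ⟨hr, hrb⟩)))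

/-! ### the short column -/

theorem core (hR : Stmt_RPE) (c₁ b' c₂ c₀ b₀ : Q) (B : List En)
    (hA : Alt (.inr b' :: .inl c₁ :: .inr b₀ :: .inl c₀ :: (B ++ [.inl c₂])))
    (hN : (Sum.inr b' :: .inl c₁ :: .inr b₀ :: .inl c₀ :: (B ++ [.inl c₂])).Nodup)
    (hb : ∀ r, Sum.inr r ∈ B → ¬ Btw b' b₀ r)
    (hc : b' < b₀ ∧ cyc c₂ c₀ c₁ ∨ b₀ < b' ∧ cyc c₀ c₂ c₁) :
    WE (.inr b' :: .inl c₁ :: .inr b₀ :: .inl c₀ :: (B ++ [.inl c₂]))
      (.inr b₀ :: .inl c₀ :: (B ++ [.inl c₂])) := by
  obtain ⟨M, -, f, g, hf, hg, -⟩ := hR _ hA hN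
  -- the list of pairs
  have hch := alt_chain hA
  obtain ⟨L, hL⟩ : ∃ L : List (Q × Q), fl L = Sum.inl c₀ :: B := by
    have h1 : List.IsChain Rl (Sum.inl c₀ :: (B ++ [Sum.inl c₂])) := by
      have h2 := hch
      simp only [List.cons_append, List.append_assoc] at h2
      have h3 := h2.tail.tail.tail
      simp only [List.tail_cons] at h3
      have h4 : List.IsChain Rl ((Sum.inl c₀ :: (B ++ [Sum.inl c₂])) ++ [Sum.inr b']) := by
        simpa using h3
      exact (List.isChain_append.1 h4).1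
    have h5 : List.IsChain Rl ((Sum.inl c₀ :: B) ++ [Sum.inl c₂]) := by simpa using h1
    have h6 := List.isChain_append.1 h5
    refine exists_fl _ _ le_rfl h6.1 (fun a ha => ?_) (fun a ha => ?_)
    · simp only [List.head?_cons, Option.some.injEq] at ha
      subst ha
      rfl
    · have := h6.2.2 a ha (Sum.inl c₂) (by simp)
      rw [Rl] at this
      simpa using this
  obtain ⟨p, L', rfl⟩ : ∃ p L', L = p :: L' := by
    cases L with
    | nil => simp [fl] at hL
    | cons p L' => exact ⟨p, L', rfl⟩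
  have hp : p.1 = c₀ := by
    rw [fl_cons] at hL
    have := (List.cons.inj hL).1
    exact Sum.inl.inj this
  set K : List (Q × Q) := (c₂, b') :: (c₁, b₀) :: p :: L' with hK
  have hKf : fl K = Sum.inl c₂ :: Sum.inr b' :: Sum.inl c₁ :: Sum.inr b₀ :: Sum.inl c₀ :: B := by
    rw [hK, fl_cons, fl_cons, hL]
  have hrot : (fl K).IsRotated
      (Sum.inr b' :: .inl c₁ :: .inr b₀ :: .inl c₀ :: (B ++ [.inl c₂])) := by
    rw [hKf]
    refine ⟨1, ?_⟩
    simp
  have hKN : (fl K).Nodup := (hrot.perm.nodup_iff).2 hN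
  have memW : ∀ x, x ∈ fl K ↔
      x ∈ (Sum.inr b' :: .inl c₁ :: .inr b₀ :: .inl c₀ :: (B ++ [.inl c₂]) : List En) := fun x =>
    hrot.perm.mem_iff
  have injf : ∀ x ∈ K.map Prod.fst, ∀ y ∈ K.map Prod.fst, f x = f y → x = y := by
    intro x hx y hy hxy
    have h1 := (memW _).1 (mem_fl_inl hx)
    have h2 := (memW _).1 (mem_fl_inl hy)
    rcases lt_trichotomy x y with h | h | h
    · exact absurd hxy (ne_of_gt (hf x y h1 h2 h))
    · exact h
    · exact absurd hxy (ne_of_lt (hf y x h2 h1 h))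
  have injg : ∀ x ∈ K.map Prod.snd, ∀ y ∈ K.map Prod.snd, g x = g y → x = y := by
    intro x hx y hy hxy
    have h1 := (memW _).1 (mem_fl_inr hx)
    have h2 := (memW _).1 (mem_fl_inr hy)
    rcases lt_trichotomy x y with h | h | h
    · exact absurd hxy (ne_of_lt (hg x y h1 h2 h))
    · exact h
    · exact absurd hxy (ne_of_gt (hg y x h2 h1 h))
  have hNd : Nd (K.map (Prod.map f g)) := by
    constructor
    · have e : (K.map (Prod.map f g)).map Prod.fst = (K.map Prod.fst).map f := by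
        simp [List.map_map, Function.comp_def]
      rw [e]
      exact List.Nodup.map_on injf (nodup_fst hKN)
    · have e : (K.map (Prod.map f g)).map Prod.snd = (K.map Prod.snd).map g := by
        simp [List.map_map, Function.comp_def]
      rw [e]
      exact List.Nodup.map_on injg (nodup_snd hKN)
  -- memberships
  have mc₀ : Sum.inl c₀ ∈ (Sum.inr b' :: .inl c₁ :: .inr b₀ :: .inl c₀ :: (B ++ [.inl c₂]) :
      List En) := by simp
  have mc₁ : Sum.inl c₁ ∈ (Sum.inr b' :: .inl c₁ :: .inr b₀ :: .inl c₀ :: (B ++ [.inl c₂]) :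
      List En) := by simp
  have mc₂ : Sum.inl c₂ ∈ (Sum.inr b' :: .inl c₁ :: .inr b₀ :: .inl c₀ :: (B ++ [.inl c₂]) :
      List En) := by simp
  have mb' : Sum.inr b' ∈ (Sum.inr b' :: .inl c₁ :: .inr b₀ :: .inl c₀ :: (B ++ [.inl c₂]) :
      List En) := by simp
  have mb₀ : Sum.inr b₀ ∈ (Sum.inr b' :: .inl c₁ :: .inr b₀ :: .inl c₀ :: (B ++ [.inl c₂]) :
      List En) := by simp
  have mB : ∀ r, Sum.inr r ∈ B → Sum.inr r ∈ (Sum.inr b' :: .inl c₁ :: .inr b₀ :: .inl c₀ ::
      (B ++ [.inl c₂]) : List En) := fun r hr => by simp [hr]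
  have nb' : Sum.inr b' ∉ B := by
    intro h
    have := (List.nodup_cons.1 hN).1
    exact this (by simp [h])
  have nb₀ : Sum.inr b₀ ∉ B := by
    intro h
    have := (List.nodup_cons.1 (List.nodup_cons.1 (List.nodup_cons.1 hN).2).2).1
    exact this (by simp [h])
  have hbb : b' ≠ b₀ := by
    rcases hc with h | h
    · exact ne_of_lt h.1
    · exact ne_of_gt h.1
  -- the rows of the list
  have rows : ∀ d ∈ (K.map (Prod.map f g)).map Prod.snd, d = g b' ∨ d = g b₀ ∨
      ∃ r, Sum.inr r ∈ B ∧ d = g r := by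
    intro d hd
    have e : (K.map (Prod.map f g)).map Prod.snd = (K.map Prod.snd).map g := by
      simp [List.map_map, Function.comp_def]
    rw [e, List.mem_map] at hd
    obtain ⟨r, hr, rfl⟩ := hd
    have h1 := mem_fl_inr hr
    rw [hKf] at h1
    simp only [List.mem_cons, Sum.inr.injEq, reduceCtorEq, false_or] at h1
    rcases h1 with h1 | h1 | h1
    · exact Or.inl (by rw [h1])
    · exact Or.inr (Or.inl (by rw [h1]))
    · exact Or.inr (Or.inr ⟨r, h1, rfl⟩)
  have cycf : ∀ a b c : Q, Sum.inl a ∈ (Sum.inr b' :: .inl c₁ :: .inr b₀ :: .inl c₀ ::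
      (B ++ [.inl c₂]) : List En) → Sum.inl b ∈ (Sum.inr b' :: .inl c₁ :: .inr b₀ :: .inl c₀ ::
      (B ++ [.inl c₂]) : List En) → Sum.inl c ∈ (Sum.inr b' :: .inl c₁ :: .inr b₀ :: .inl c₀ ::
      (B ++ [.inl c₂]) : List En) → cyc a b c → cyc (f c) (f b) (f a) := by
    intro a b c ha hb hc h
    rcases h with h | h | h
    · exact Or.inl ⟨hf b c hb hc h.2, hf a b ha hb h.1⟩
    · exact Or.inr (Or.inr ⟨hf c a hc ha h.2, hf b c hb hc h.1⟩)
    · exact Or.inr (Or.inl ⟨hf a b ha hb h.2, hf c a hc ha h.1⟩)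
  have hMv : Mv (K.map (Prod.map f g)) ((f c₂, g b') :: (p :: L').map (Prod.map f g)) := by
    have e1 : K.map (Prod.map f g) = (f c₂, g b') :: (f c₁, g b₀) :: (f p.1, g p.2) ::
        L'.map (Prod.map f g) := rfl
    rw [e1] at hNd rows ⊢
    refine Mv.scol (f c₂) (g b') (f c₁) (g b₀) (f p.1, g p.2) (L'.map (Prod.map f g)) hNd ?_
    rcases hc with ⟨h1, h2⟩ | ⟨h1, h2⟩
    · left
      refine ⟨fun d hd hcy => ?_, ?_⟩
      · have hlt := hg b' b₀ mb' mb₀ h1
        have h3 : g b' < d ∧ d < g b₀ := by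
          rcases hcy with h | h | h
          · exact h
          · exact absurd hlt (lt_asymm h.2)
          · exact absurd hlt (lt_asymm h.1)
        rcases rows d hd with rfl | rfl | ⟨r, hr, rfl⟩
        · exact lt_irrefl _ h3.1
        · exact lt_irrefl _ h3.2
        · refine hb r hr (Or.inl ⟨?_, ?_⟩)
          · rcases lt_trichotomy b' r with h | h | h
            · exact h
            · exact absurd h3.1 (by rw [h]; exact lt_irrefl _)
            · exact absurd h3.1 (lt_asymm (hg r b' (mB r hr) mb' h))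
          · rcases lt_trichotomy r b₀ with h | h | h
            · exact h
            · exact absurd h3.2 (by rw [h]; exact lt_irrefl _)
            · exact absurd h3.2 (lt_asymm (hg b₀ r mb₀ (mB r hr) h))
      · rw [hp]
        have := cycf c₂ c₀ c₁ mc₂ mc₀ mc₁ h2
        rw [cyc_rot] at this
        exact this
    · right
      refine ⟨fun d hd hcy => ?_, ?_⟩
      · have hlt := hg b₀ b' mb₀ mb' h1
        have h3 : g b₀ < d ∧ d < g b' := by
          rcases hcy with h | h | h
          · exact h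
          · exact absurd hlt (lt_asymm h.2)
          · exact absurd hlt (lt_asymm h.1)
        rcases rows d hd with rfl | rfl | ⟨r, hr, rfl⟩
        · exact lt_irrefl _ h3.2
        · exact lt_irrefl _ h3.1
        · refine hb r hr (Or.inr ⟨?_, ?_⟩)
          · rcases lt_trichotomy b₀ r with h | h | h
            · exact h
            · exact absurd h3.1 (by rw [h]; exact lt_irrefl _)
            · exact absurd h3.1 (lt_asymm (hg r b₀ (mB r hr) mb₀ h))
          · rcases lt_trichotomy r b' with h | h | h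
            · exact h
            · exact absurd h3.2 (by rw [h]; exact lt_irrefl _)
            · exact absurd h3.2 (lt_asymm (hg b' r mb' (mB r hr) h))
      · rw [hp]
        exact cycf c₀ c₂ c₁ mc₀ mc₂ mc₁ h2
  refine ⟨K.map (Prod.map f g), (f c₂, g b') :: (p :: L').map (Prod.map f g),
    ⟨hN, f, g, hf, hg, ?_⟩, ⟨?_, f, fun q => if q = b₀ then g b' else g q, ?_, ?_, ?_⟩,
    Relation.EqvGen.rel _ _ hMv⟩
  · rw [fl_map]
    exact hrot.map _
  · exact (List.nodup_cons.1 (List.nodup_cons.1 hN).2).2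
  · intro a b ha hb hab
    refine hf a b ?_ ?_ hab
    · exact List.mem_cons_of_mem _ (List.mem_cons_of_mem _ ha)
    · exact List.mem_cons_of_mem _ (List.mem_cons_of_mem _ hb)
  · have mem' : ∀ r, Sum.inr r ∈ (Sum.inr b₀ :: .inl c₀ :: (B ++ [.inl c₂]) : List En) →
        r = b₀ ∨ Sum.inr r ∈ B := by
      intro r hr
      simpa using hr
    intro a b ha hb' hab
    rcases mem' a ha with rfl | ha'
    · have hbn : b ≠ a := ne_of_gt hab
      have hbB : Sum.inr b ∈ B := by
        rcases mem' b hb' with h | h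
        · exact absurd h hbn
        · exact h
      simp only [if_true, if_neg hbn]
      refine hg b' b mb' (mB b hbB) ?_
      rcases lt_trichotomy b' b with h | h | h
      · exact h
      · exact absurd (h ▸ hbB) nb'
      · exact absurd (Or.inr ⟨hab, h⟩) (hb b hbB)
    · have han : a ≠ b₀ := fun h => nb₀ (h ▸ ha')
      rcases mem' b hb' with rfl | hbB
      · simp only [if_true, if_neg han]
        refine hg a b' (mB a ha') mb' ?_
        rcases lt_trichotomy a b' with h | h | h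
        · exact h
        · exact absurd (h ▸ ha') nb'
        · exact absurd (Or.inl ⟨h, hab⟩) (hb a ha')
      · have hbn : b ≠ b₀ := fun h => nb₀ (h ▸ hbB)
        simp only [if_neg han, if_neg hbn]
        exact hg a b (mB a ha') (mB b hbB) hab
  · rw [fl_cons, fl_map, hL]
    have e : B.map (Sum.map f fun q => if q = b₀ then g b' else g q) = B.map (Sum.map f g) := by
      refine List.map_congr_left fun x hx => ?_
      cases x with
      | inl x => rfl
      | inr x =>
        have : x ≠ b₀ := fun h => nb₀ (h ▸ hx)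
        simp [this]
    refine ⟨1, ?_⟩
    simp only [List.map_cons, List.map_append, Sum.map_inl, Sum.map_inr, if_true, List.map_nil, e]
    simp

end DC2

theorem t_DC2 : Stmt_DC2 := by
  intro hW hR hRM c₁ b₁ c₂ c₀ b₀ B hA hN hm hc
  -- the rows
  classical
  set s : Finset Q := (B.filterMap Sum.getRight?).toFinset with hs
  have hms : ∀ r, Sum.inr r ∈ B → r ∈ s := by
    intro r hr
    rw [hs, List.mem_toFinset, List.mem_filterMap]
    exact ⟨_, hr, rfl⟩
  obtain ⟨b', h1, h2, h3, h4⟩ : ∃ b', b' ≠ b₁ ∧ b' ≠ b₀ ∧ (∀ r, Sum.inr r ∈ B →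
      r ≠ b' ∧ ¬ Btw b' b₀ r) ∧ (∀ r, Btw b₁ b' r → Btw b₁ b₀ r) ∧
      (b' < b₀ ∧ cyc c₂ c₀ c₁ ∨ b₀ < b' ∧ cyc c₀ c₂ c₁) := by
    rcases hc with ⟨h, h'⟩ | ⟨h, h'⟩
    · obtain ⟨x, e1, e2, e3⟩ := DC2.below s b₁ b₀ h
      refine ⟨x, ne_of_gt e1, ne_of_lt e2, fun r hr => ⟨?_, ?_⟩, fun r hr => ?_, Or.inl ⟨e2, h'⟩⟩
      · rintro rfl
        exact lt_irrefl _ (e3 r (hms r hr) e2)
      · rintro (h5 | h5)
        · exact lt_asymm h5.1 (e3 r (hms r hr) h5.2)
        · exact lt_asymm e2 (lt_trans h5.1 h5.2)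
      · rcases hr with h5 | h5
        · exact Or.inl ⟨h5.1, lt_trans h5.2 e2⟩
        · exact absurd (lt_trans h5.1 h5.2) (lt_asymm e1)
    · obtain ⟨x, e1, e2, e3⟩ := DC2.above s b₁ b₀ h
      refine ⟨x, ne_of_lt e1, ne_of_gt e2, fun r hr => ⟨?_, ?_⟩, fun r hr => ?_, Or.inr ⟨e2, h'⟩⟩
      · rintro rfl
        exact lt_irrefl _ (e3 r (hms r hr) e2)
      · rintro (h5 | h5)
        · exact lt_asymm e2 (lt_trans h5.1 h5.2)
        · exact lt_asymm h5.2 (e3 r (hms r hr) h5.1)
      · rcases hr with h5 | h5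
        · exact absurd (lt_trans h5.1 h5.2) (lt_asymm e1)
        · exact Or.inr ⟨lt_trans e2 h5.1, h5.2⟩
  have hnB : Sum.inr b' ∉ (Sum.inr b₀ :: .inl c₀ :: B : List En) := by
    intro h
    simp only [List.mem_cons, Sum.inr.injEq, reduceCtorEq, false_or] at h
    rcases h with h | h
    · exact h2 h
    · exact (h3 b' h).1 rfl
  have hWE1 : WE (.inr b₁ :: .inl c₁ :: .inr b₀ :: .inl c₀ :: (B ++ [.inl c₂]))
      (.inr b' :: .inl c₁ :: .inr b₀ :: .inl c₀ :: (B ++ [.inl c₂])) := by
    have := hRM b₁ b' c₂ c₁ (.inr b₀ :: .inl c₀ :: B) hA hN hnB h1 (fun c r hmk hbt => by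
      rw [uIcc_comm]
      exact hm c r hmk (h4.1 r hbt))
    exact this
  have hA' := DC2.alt_congr (x := Sum.inr b₁) (y := Sum.inr b') rfl hA
  have hN' : (Sum.inr b' :: .inl c₁ :: .inr b₀ :: .inl c₀ :: (B ++ [.inl c₂])).Nodup := by
    rw [List.nodup_cons] at hN ⊢
    refine ⟨fun h => ?_, hN.2⟩
    simp only [List.mem_cons, Sum.inr.injEq, reduceCtorEq, false_or, List.mem_append,
      List.not_mem_nil, or_false] at h
    rcases h with h | h
    · exact h2 h
    · exact (h3 b' h).1 rfl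
  exact hW.trans _ _ _ hWE1
    (DC2.core hR c₁ b' c₂ c₀ b₀ B hA' hN' (fun r hr => (h3 r hr).2) h4.2)

end LH


end
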