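import Mathlib
import Pool.Agent.NDM.C03
import Pool.Agent.NDM.C04
import Pool.Agent.NDM.C05
import Pool.Agent.NDM.C06
import Pool.Agent.NDM.C07
import Pool.Agent.NDM.C08
import Pool.Agent.NDM.C09
import Pool.Agent.NDM.C10
import Pool.Agent.NDM.C12
import Pool.Agent.NDM.C13
import Pool.Agent.NDM.C14
import Pool.Agent.NDM.C16
import Pool.Agent.NDM.C17
import Pool.Agent.NDM.C19
import Pool.Agent.NDM.C20
import Pool.Agent.NDM.C23

/-! Parts: LH.CWA, LH.CWG, LH.DEL, LH.EGX, LH.EXW, LH.FLM, LH.LEN, LH.LOC, LH.MK, LH.PER, LH.RED, LH.RPE, LH.RPU, LH.SQO, LH.TEX, LH.TRL, LH.WEB, LH.WON, LH.ZR1, LH.ZSH, LH.All, LHS.SGM, LHS.HLN, LHS.YMO, LHS.TYP, LHS.SEP, LHS.EMB, LHS.FPE, LHS.SMT, LHS.RVF, LHS.CAR, LHS.All, LHJ.Fin, LHE.ZMO, LHE.ZGS, LHE.MSH, LHE.WRG, LHE.TSF, LHE.AllS -/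

section

/-!
# Elementary properties of closed walks
-/

namespace LH

open Set LG

namespace CWA

variable {α : Type*}

/-- The cyclically consecutive pairs of a rotated list. -/
theorem cp_rotate (w : List α) (n : ℕ) : cp (w.rotate n) = (cp w).rotate n := by
  unfold cp
  rw [List.rotate_rotate, Nat.add_comm, ← List.rotate_rotate]
  exact (List.zipWith_rotate_distrib Prod.mk w (w.rotate 1) n (by simp)).symm

theorem mem_cp_comm (A B : List α) (x : α × α) : x ∈ cp (A ++ B) ↔ x ∈ cp (B ++ A) := by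
  have h : B ++ A = (A ++ B).rotate A.length := by simp
  rw [h, cp_rotate, List.mem_rotate]

theorem mem_cp_iff (w : List α) (p q : α) :
    (p, q) ∈ cp w ↔ ∃ (i : ℕ) (h : i < w.length), w[i] = p ∧
      w[(i + 1) % w.length]'(Nat.mod_lt _ (Nat.lt_of_le_of_lt (Nat.zero_le _) h)) = q := by
  unfold cp
  constructor
  · intro h
    obtain ⟨i, hi, he⟩ := List.mem_iff_getElem.1 h
    have hi' : i < w.length := by
      simp only [List.length_zip, List.length_rotate] at hi
      omega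
    refine ⟨i, hi', ?_⟩
    rw [List.getElem_zip, List.getElem_rotate] at he
    exact Prod.mk.inj he
  · rintro ⟨i, hi, h1, h2⟩
    refine List.mem_iff_getElem.2 ⟨i, by simp [List.length_zip, hi], ?_⟩
    rw [List.getElem_zip, List.getElem_rotate, h1, h2]

theorem succ_unique {w : List α} (hw : w.Nodup) {p q q' : α} (h : (p, q) ∈ cp w)
    (h' : (p, q') ∈ cp w) : q = q' := by
  obtain ⟨i, hi, h1, h2⟩ := (mem_cp_iff w p q).1 h
  obtain ⟨j, hj, h3, h4⟩ := (mem_cp_iff w p q').1 h'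
  have hij : i = j := (hw.getElem_inj_iff).1 (h1.trans h3.symm)
  subst hij
  exact h2.symm.trans h4

theorem pred_unique {w : List α} (hw : w.Nodup) {p p' q : α} (h : (p, q) ∈ cp w)
    (h' : (p', q) ∈ cp w) : p = p' := by
  obtain ⟨i, hi, h1, h2⟩ := (mem_cp_iff w p q).1 h
  obtain ⟨j, hj, h3, h4⟩ := (mem_cp_iff w p' q).1 h'
  have hij : (i + 1) % w.length = (j + 1) % w.length :=
    (hw.getElem_inj_iff).1 (h2.trans h4.symm)
  have hij' : i = j := by
    rcases Nat.lt_or_ge (i + 1) w.length with h5 | h5 <;>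
    rcases Nat.lt_or_ge (j + 1) w.length with h6 | h6
    · rw [Nat.mod_eq_of_lt h5, Nat.mod_eq_of_lt h6] at hij
      omega
    · have h7 : j + 1 = w.length := by omega
      rw [Nat.mod_eq_of_lt h5, h7, Nat.mod_self] at hij
      omega
    · have h7 : i + 1 = w.length := by omega
      rw [Nat.mod_eq_of_lt h6, h7, Nat.mod_self] at hij
      omega
    · omega
  subst hij'
  exact h1.symm.trans h3

/-- A cyclic relation as a chain. -/
theorem chain_iff_zip (R : α → α → Prop) (l : List α) (a : α) :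
    List.IsChain R (a :: l) ↔ ∀ x ∈ List.zip (a :: l) l, R x.1 x.2 := by
  induction l generalizing a with
  | nil => simp
  | cons b l ih =>
    rw [List.isChain_cons_cons, ih b]
    simp [List.zip_cons_cons]

theorem cp_iff_chain (R : α → α → Prop) (a : α) (T : List α) :
    (∀ x ∈ cp (a :: T), R x.1 x.2) ↔ List.IsChain R (a :: (T ++ [a])) := by
  rw [chain_iff_zip]
  have h1 : cp (a :: T) = List.zip (a :: T) (T ++ [a]) := by
    unfold cp
    simp [List.rotate_cons_succ]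
  have h2 : List.zip (a :: (T ++ [a])) (T ++ [a]) = List.zip (a :: T) (T ++ [a]) := by
    have h3 : a :: (T ++ [a]) = (a :: T) ++ [a] := rfl
    have h4 : T ++ [a] = (T ++ [a]) ++ [] := by simp
    conv_lhs => rw [h3, h4]
    rw [List.zip_append (by simp)]
    simp
  rw [h1, h2]

/-- A column follows a row and a row follows a column. -/
def Ra (x y : En) : Prop := x.isLeft = !y.isLeft

theorem chain_ents : ∀ (T : List Pt) (p : Pt), List.IsChain Stp (p :: T) →
    List.IsChain Ra (ent p ++ ents T)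
  | [], p, _ => by
    obtain ⟨k, t, h⟩ := p
    cases k <;> simp [ents, ent, Ra]
  | q :: T, p, hc => by
    rw [List.isChain_cons_cons] at hc
    have ih := chain_ents T q hc.2
    have hs := hc.1
    have he : ents (q :: T) = ent q ++ ents T := by simp [ents]
    rw [he]
    obtain ⟨k, t, h⟩ := p
    obtain ⟨k', t', h'⟩ := q
    cases k <;> cases k' <;> simp_all [ent, Ra, Stp, Kd.fw, Kd.ar]

theorem alt_of (w : List Pt) (hw : w ≠ []) (hs : ∀ x ∈ cp w, Stp x.1 x.2) : Alt (ents w) := by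
  obtain ⟨a, T, rfl⟩ := List.exists_cons_of_ne_nil hw
  rw [cp_iff_chain] at hs
  have h1 := chain_ents (T ++ [a]) a hs
  have h2 : ent a ++ ents (T ++ [a]) = ents (a :: T) ++ ent a := by simp [ents]
  rw [h2] at h1
  obtain ⟨e, r, he⟩ : ∃ e r, ent a = e :: r := by
    obtain ⟨k, t, h⟩ := a
    cases k <;> simp [ent]
  have h3 : ents (a :: T) = e :: (r ++ ents T) := by simp [ents, he]
  refine ⟨by rw [h3]; simp, ?_⟩
  rw [h3]
  refine (cp_iff_chain Ra e (r ++ ents T)).2 ?_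
  rw [h3, he] at h1
  have h4 : e :: (r ++ ents T) ++ e :: r = (e :: (r ++ ents T ++ [e])) ++ r := by simp
  rw [h4] at h1
  exact h1.left_of_append

theorem nd_of (w : List Pt) (h : (ents w).Nodup) : w.Nodup := by
  unfold ents at h
  rw [List.nodup_flatMap] at h
  refine h.2.imp ?_
  intro a b hab heq
  subst heq
  obtain ⟨k, t, h⟩ := a
  cases k <;> simp [ent, Function.onFun] at hab

theorem ne_nil_of {w : List Pt} (h : CW w) : w ≠ [] := by
  rintro rfl
  have := h.len
  simp [ents] at this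

theorem ents_append (A B : List Pt) : ents (A ++ B) = ents A ++ ents B := by
  simp [ents]

end CWA

open _root_.LH.CWA

/-- CWA: elementary properties of closed walks. -/
theorem t_CWA : Stmt_CWA := by
  intro hW
  have hlk : ∀ w, CW w → ∀ p q, Lk w p q →
      ((p, q) ∈ cp w ∧ p.k.fw ∧ q.k.ar) ∨ ((q, p) ∈ cp w ∧ ¬ q.k.fw ∧ ¬ p.k.ar) := by
    intro w hw p q h
    obtain ⟨ht, h1 | h1⟩ := h
    · rcases hw.st _ h1 with h2 | h2
      · exact Or.inl ⟨h1, h2.1, h2.2.1⟩
      · exact absurd h2.2.2 (not_lt.2 ht.le)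
    · rcases hw.st _ h1 with h2 | h2
      · exact absurd h2.2.2 (not_lt.2 ht.le)
      · exact Or.inr ⟨h1, h2.1, h2.2.1⟩
  have halt : ∀ w, CW w → Alt (ents w) := fun w hw => alt_of w (ne_nil_of hw) hw.st
  refine ⟨halt, ?_, ?_, fun w hw => nd_of w hw.nd, ?_, ?_, ?_⟩
  · intro A B h
    refine ⟨⟨?_, ?_, ?_⟩, ?_⟩
    · have := h.nd
      rw [ents_append] at this ⊢
      exact List.nodup_append_comm.1 this
    · intro x hx
      exact h.st x ((mem_cp_comm A B x).2 hx)
    · have := h.len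
      rw [ents_append, List.length_append] at this ⊢
      omega
    · have h1 := halt _ h
      have h2 := h.nd
      rw [ents_append] at h1 h2
      rw [ents_append, ents_append]
      exact hW.rot _ _ h1 h2
  · intro A B p q
    unfold Lk
    rw [mem_cp_comm A B, mem_cp_comm A B]
  · intro w hw p p' q h h' hq
    have hn := nd_of w hw.nd
    rcases hlk w hw p q h with h1 | h1 <;> rcases hlk w hw p' q h' with h2 | h2
    · exact pred_unique hn h1.1 h2.1
    · obtain ⟨k, t, hh⟩ := q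
      cases k <;> simp_all [Kd.fw, Kd.ar]
    · obtain ⟨k, t, hh⟩ := q
      cases k <;> simp_all [Kd.fw, Kd.ar]
    · exact succ_unique hn h1.1 h2.1
  · intro w hw p q q' h h' hp
    have hn := nd_of w hw.nd
    rcases hlk w hw p q h with h1 | h1 <;> rcases hlk w hw p q' h' with h2 | h2
    · exact succ_unique hn h1.1 h2.1
    · obtain ⟨k, t, hh⟩ := p
      cases k <;> simp_all [Kd.fw, Kd.ar]
    · obtain ⟨k, t, hh⟩ := p
      cases k <;> simp_all [Kd.fw, Kd.ar]
    · exact pred_unique hn h1.1 h2.1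
  · intro w hw p q h
    rcases hlk w hw p q h with h1 | h1
    · obtain ⟨-, h2, h3⟩ := h1
      constructor
      · intro hk; rw [hk] at h2; exact h2
      · intro hk; rw [hk] at h3; exact h3
    · obtain ⟨-, h2, h3⟩ := h1
      constructor
      · intro hk; rw [hk] at h3; exact h3 trivial
      · intro hk; rw [hk] at h2; exact h2 trivial

end LH


end

section

/-!
# CWG: the walk of points for a good set of lines
-/

namespace LH

open Set LG

namespace CWG

/-! ### entries -/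

theorem inl_mem {p : Pt} {c : Q} : Sum.inl c ∈ ent p ↔ p.k ≠ .L ∧ c = p.c := by
  unfold ent
  cases h : p.k <;> simp

theorem inr_mem {p : Pt} {r : Q} : Sum.inr r ∈ ent p ↔ p.k ≠ .R ∧ r = p.r := by
  unfold ent
  cases h : p.k <;> simp

theorem ent_nodup (p : Pt) : (ent p).Nodup := by
  unfold ent
  cases h : p.k <;> simp

theorem c_eq {p q : Pt} (h : p.c = q.c) : p.t = q.t ∧ p.h = q.h := by
  unfold Pt.c at h
  have h1 := toLex.injective h
  exact ⟨congrArg Prod.fst h1, congrArg Prod.snd h1⟩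

theorem r_eq {p q : Pt} (h : p.r = q.r) : p.t = q.t ∧ p.h = q.h := by
  unfold Pt.r at h
  have h1 := toLex.injective h
  have h2 : -p.t = -q.t := congrArg Prod.fst h1
  exact ⟨by linarith, congrArg Prod.snd h1⟩

/-! ### adjacency -/

theorem adj_left {X : Finset ℝ} {a a' s : ℝ} (h : AdjX X a s) (h' : AdjX X a' s) : a = a' := by
  obtain ⟨h1, _, h3, h4⟩ := h
  obtain ⟨h1', _, h3', h4'⟩ := h'
  rcases lt_trichotomy a a' with h5 | h5 | h5
  · exact absurd ⟨h5, h3'⟩ (h4 a' h1')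
  · exact h5
  · exact absurd ⟨h5, h3⟩ (h4' a h1)

theorem adj_right {X : Finset ℝ} {s b b' : ℝ} (h : AdjX X s b) (h' : AdjX X s b') : b = b' := by
  obtain ⟨_, h2, h3, h4⟩ := h
  obtain ⟨_, h2', h3', h4'⟩ := h'
  rcases lt_trichotomy b b' with h5 | h5 | h5
  · exact absurd ⟨h3, h5⟩ (h4' b h2)
  · exact h5
  · exact absurd ⟨h3', h5⟩ (h4 b' h2')

theorem av {N : ℕ} {P : Pg N} {X : Finset ℝ} (hX : GoodX P X) : ∀ s ∈ X, ∀ i, P.x i ≠ s := by
  intro s hs i
  obtain ⟨a0, ha0, h1⟩ := hX.lo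
  by_cases h2 : a0 < s
  · have hne : (X.filter fun t => t < s).Nonempty := ⟨a0, Finset.mem_filter.mpr ⟨ha0, h2⟩⟩
    have hm := Finset.mem_filter.mp (Finset.max'_mem _ hne)
    have hadj : AdjX X ((X.filter fun t => t < s).max' hne) s := by
      refine ⟨hm.1, hs, hm.2, ?_⟩
      intro t ht h3
      have h5 : t ∈ X.filter fun t => t < s := Finset.mem_filter.mpr ⟨ht, h3.2⟩
      have h4 := Finset.le_max' _ t h5
      exact absurd h3.1 (not_lt.mpr h4)
    exact ((hX.gd _ _ hadj).av i).2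
  · intro h3
    have h4 := h1 i
    rw [h3] at h4
    exact h2 h4

/-! ### sequences -/

theorem per {N : ℕ} {P : Pg N} {X : Finset ℝ} {w : List It} {W : ℤ → It} (h : Sq P X w W)
    (n c : ℤ) : (W (n + c * w.length)).k = (W n).k ∧ (W (n + c * w.length)).t = (W n).t ∧
      (W (n + c * w.length)).e = (W n).e + c * N := by
  induction c using Int.induction_on with
  | zero => simp
  | succ i ih =>
    have h1 : n + ((i : ℤ) + 1) * w.length = (n + (i : ℤ) * w.length) + w.length := by ring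
    rw [h1, h.per]
    refine ⟨ih.1, ih.2.1, ?_⟩
    change (W (n + (i : ℤ) * w.length)).e + N = _
    rw [ih.2.2]
    ring
  | pred i ih =>
    have h1 : n + (-(i : ℤ)) * w.length = (n + (-(i : ℤ) - 1) * w.length) + w.length := by ring
    rw [h1, h.per] at ih
    refine ⟨ih.1, ih.2.1, ?_⟩
    have h2 : (W (n + (-(i : ℤ) - 1) * w.length)).e + N = (W n).e + (-(i : ℤ)) * N := ih.2.2
    linear_combination h2

/-- The item touches the cell `(a, b)` at the line `s`. -/
def Tch {N : ℕ} (P : Pg N) (a b s : ℝ) (i : It) : Prop :=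
  (i.k = .rt ∨ i.k = .lt) ∧
      (P.x i.e < s ∧ s < P.x (i.e + 1) ∨ P.x (i.e + 1) < s ∧ s < P.x i.e) ∨
    (i.k = .R ∨ i.k = .L) ∧ a < P.x (i.e + 1) ∧ P.x (i.e + 1) < b

theorem Tch.mts {N : ℕ} {P : Pg N} {a b s : ℝ} {i : It} (h : Tch P a b s i) (hs : a ≤ s)
    (hs' : s ≤ b) : Mts P a b i.e := by
  rcases h with ⟨-, ⟨h1, h2⟩ | ⟨h1, h2⟩⟩ | ⟨-, h1, h2⟩
  · exact ⟨fun h3 => by linarith [h3.2], fun h3 => by linarith [h3.1]⟩
  · exact ⟨fun h3 => by linarith [h3.1], fun h3 => by linarith [h3.2]⟩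
  · exact ⟨fun h3 => by linarith [h3.2], fun h3 => by linarith [h3.2]⟩

theorem ym_shift (hPGB : P_PGB) {N : ℕ} {P : Pg N} {p q : ℤ} (h : YM P p q) (k : ℤ) :
    YM P (p + k * N) (q + k * N) := by
  have hy : ∀ i, P.y i = P.y (i - k * N) := by
    intro i
    have h1 := (hPGB.sh P (i - k * N) k).2.1
    rw [← h1]
    congr 1
    ring
  have hm : ∀ i, i ∈ Icc (p + k * N) (q + k * N) → i - k * N ∈ Icc p q := by
    intro i hi
    exact ⟨by linarith [hi.1], by linarith [hi.2]⟩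
  rcases h with h | h
  · left
    intro i hi j hj hij
    rw [hy i, hy j]
    exact h (hm i hi) (hm j hj) (by linarith)
  · right
    intro i hi j hj hij
    rw [hy i, hy j]
    exact h (hm i hi) (hm j hj) (by linarith)

/-- A turn which touches the cell belongs to a component which is monotone in `y`. -/
theorem turn_ym (hPGB : P_PGB) (hCMP : P_CMP) (hSEQ : P_SEQ) {N : ℕ} {P : Pg N} {X : Finset ℝ}
    {w : List It} {W : ℤ → It} (h : Sq P X w W) {a b : ℝ} (hYF : YF P a b w) (n : ℤ)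
    (hk : (W n).k = .R ∨ (W n).k = .L) (h1 : a < P.x ((W n).e + 1)) (h2 : P.x ((W n).e + 1) < b)
    {p q : ℤ} (hC : Comp P a b p q) (hp : p ≤ (W n).e) (hq : (W n).e ≤ q) : YM P p q := by
  obtain ⟨i, hi, k, hk1, -, hk3⟩ := hSEQ.mem P X w W h n
  have hx : P.x ((W n).e + 1) = P.x (i.e + 1) := by
    rw [hk3]
    have h3 := (hPGB.sh P (i.e + 1) k).1
    rw [← h3]
    congr 1
    ring
  rw [hk1] at hk
  rw [hx] at h1 h2
  obtain ⟨p', q', hC', hp', hq', hY⟩ := hYF i hi hk h1 h2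
  have hC2 := hCMP.sh P a b p' q' k hC'
  obtain ⟨e1, e2⟩ := hCMP.un P a b p q (p' + k * N) (q' + k * N) (W n).e hC hC2 hp hq
    (by rw [hk3]; linarith) (by rw [hk3]; linarith)
  rw [e1, e2]
  exact ym_shift hPGB hY k

/-- The heights of two edges of a component monotone in `y` are different at the ends of the
cell. -/
theorem ym_ne (hPGB : P_PGB) {N : ℕ} {P : Pg N} {a b s : ℝ} (hs : s = a ∨ s = b) {p q : ℤ}
    (hC : Comp P a b p q) (hY : YM P p q) {i j : ℤ} (hpi : p ≤ i) (hij : i < j) (hjq : j ≤ q) :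
    P.l i s ≠ P.l j s := by
  have hsub : Icc i j ⊆ Icc p q := Icc_subset_Icc hpi hjq
  have hins : ∀ m, i < m → m ≤ j → a < P.x m ∧ P.x m < b := fun m h1 h2 =>
    hC.ins m (by omega) (by omega)
  rcases hY with hY | hY
  · rcases hs with rfl | rfl
    · exact (hPGB.m2 P i j _ hij (hY.mono hsub) (fun m h1 h2 => (hins m h1 h2).1)).ne'
    · exact (hPGB.m1 P i j _ hij (hY.mono hsub) (fun m h1 h2 => (hins m h1 h2).2)).ne
  · rcases hs with rfl | rfl
    · exact (hPGB.m4 P i j _ hij (hY.mono hsub) (fun m h1 h2 => (hins m h1 h2).1)).ne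
    · exact (hPGB.m3 P i j _ hij (hY.mono hsub) (fun m h1 h2 => (hins m h1 h2).2)).ne'

/-- Two different edges of a strictly increasing component do not cross the same line. -/
theorem cross_mono {N : ℕ} {P : Pg N} {s : ℝ} {p q : ℤ}
    (hM : StrictMonoOn P.x (Icc p (q + 1)) ∨ StrictAntiOn P.x (Icc p (q + 1))) {i j : ℤ}
    (hpi : p ≤ i) (hij : i < j) (hjq : j ≤ q)
    (hi : P.x i < s ∧ s < P.x (i + 1) ∨ P.x (i + 1) < s ∧ s < P.x i)
    (hj : P.x j < s ∧ s < P.x (j + 1) ∨ P.x (j + 1) < s ∧ s < P.x j) : False := by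
  have m1 : i ∈ Icc p (q + 1) := ⟨hpi, by omega⟩
  have m2 : i + 1 ∈ Icc p (q + 1) := ⟨by omega, by omega⟩
  have m3 : j ∈ Icc p (q + 1) := ⟨by omega, by omega⟩
  have m4 : j + 1 ∈ Icc p (q + 1) := ⟨by omega, by omega⟩
  rcases hM with hM | hM
  · have a1 := hM m1 m2 (by omega)
    have a2 := hM m3 m4 (by omega)
    have a3 : P.x (i + 1) ≤ P.x j := hM.monotoneOn m2 m3 (by omega)
    rcases hi with hi | hi
    · rcases hj with hj | hj
      · linarith
      · linarith
    · linarith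
  · have a1 := hM m1 m2 (by omega)
    have a2 := hM m3 m4 (by omega)
    have a3 : P.x j ≤ P.x (i + 1) := hM.antitoneOn m2 m3 (by omega)
    rcases hi with hi | hi
    · linarith
    · rcases hj with hj | hj
      · linarith
      · linarith

/-- Two items of the same line which touch a cell have different heights. -/
theorem main (hPGB : P_PGB) (hCMP : P_CMP) (hSEQ : P_SEQ) {N : ℕ} {P : Pg N} {X : Finset ℝ}
    {w : List It} {W : ℤ → It} (hN : 0 < N) (h : Sq P X w W) {a b s : ℝ} (hG : Good P a b)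
    (hYF : YF P a b w) (hs : s = a ∨ s = b) (n n' : ℤ) (ht : (W n).t = s) (ht' : (W n').t = s)
    (hT : Tch P a b s (W n)) (hT' : Tch P a b s (W n'))
    (hne : ¬ ∃ k : ℤ, n' = n + k * w.length) : P.l (W n).e s ≠ P.l (W n').e s := by
  have hs1 : a ≤ s := by
    rcases hs with rfl | rfl
    · exact le_rfl
    · exact hG.lt.le
  have hs2 : s ≤ b := by
    rcases hs with rfl | rfl
    · exact hG.lt.le
    · exact le_rfl
  obtain ⟨p, q, hC, hp, hq⟩ := hCMP.ex P a b hN hG (W n).e (hT.mts hs1 hs2)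
  obtain ⟨p', q', hC', hp', hq'⟩ := hCMP.ex P a b hN hG (W n').e (hT'.mts hs1 hs2)
  rcases hCMP.sep P a b p q p' q' hN hG hC hC' with ⟨k, rfl, rfl⟩ | ⟨hSa, hSb⟩
  · -- the same component
    obtain ⟨hk1, hk2, hk3⟩ := per h n' (-k)
    have hl : P.l (W (n' + -k * w.length)).e s = P.l (W n').e s := by
      rw [hk3]
      exact (hPGB.sh P (W n').e (-k)).2.2.2 s
    rw [← hl]
    have hpm : p ≤ (W (n' + -k * w.length)).e := by
      rw [hk3]
      linarith
    have hqm : (W (n' + -k * w.length)).e ≤ q := by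
      rw [hk3]
      linarith
    have hx0 : P.x (W (n' + -k * w.length)).e = P.x (W n').e := by
      rw [hk3]
      exact (hPGB.sh P (W n').e (-k)).1
    have hx1 : P.x ((W (n' + -k * w.length)).e + 1) = P.x ((W n').e + 1) := by
      rw [hk3]
      have h3 := (hPGB.sh P ((W n').e + 1) (-k)).1
      rw [← h3]
      congr 1
      ring
    have hT2 : Tch P a b s (W (n' + -k * w.length)) := by
      unfold Tch
      rw [hk1, hx0, hx1]
      exact hT'
    have ht2 : (W (n' + -k * w.length)).t = s := by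
      rw [hk2, ht']
    have hnn : n ≠ n' + -k * w.length := by
      intro h3
      exact hne ⟨k, by linear_combination -h3⟩
    have hee : (W n).e ≠ (W (n' + -k * w.length)).e := by
      rcases lt_or_gt_of_ne hnn with h3 | h3
      · exact (hSEQ.lt P X w W h _ _ h3 (ht.trans ht2.symm)).ne
      · exact (hSEQ.lt P X w W h _ _ h3 (ht2.trans ht.symm)).ne'
    have hfin : YM P p q → P.l (W n).e s ≠ P.l (W (n' + -k * w.length)).e s := by
      intro hY
      rcases lt_or_gt_of_ne hee with h3 | h3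
      · exact ym_ne hPGB hs hC hY hp h3 hqm
      · exact (ym_ne hPGB hs hC hY hpm h3 hq).symm
    rcases hG.ty p q hC with hM | hY
    · rcases hT with ⟨-, hc⟩ | ⟨hk, h4, h5⟩
      · rcases hT2 with ⟨-, hc2⟩ | ⟨hk, h4, h5⟩
        · exfalso
          rcases lt_or_gt_of_ne hee with h3 | h3
          · exact cross_mono hM hp h3 hqm hc hc2
          · exact cross_mono hM hpm h3 hq hc2 hc
        · exact hfin (turn_ym hPGB hCMP hSEQ h hYF _ hk h4 h5 hC hpm hqm)
      · exact hfin (turn_ym hPGB hCMP hSEQ h hYF _ hk h4 h5 hC hp hq)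
    · exact hfin hY
  · have hS : Sep P p q p' q' s := by
      rcases hs with rfl | rfl
      · exact hSa
      · exact hSb
    rcases hS with hS | hS
    · exact (hS _ ⟨hp, hq⟩ _ ⟨hp', hq'⟩).ne
    · exact (hS _ ⟨hp, hq⟩ _ ⟨hp', hq'⟩).ne'

/-! ### the cells of the items -/

theorem lk_fw {N : ℕ} {P : Pg N} {X : Finset ℝ} {i j : It} (h : Lnk P X i j) (hf : i.k.fw) :
    AdjX X i.t j.t := by
  rcases h.dir with ⟨-, -, h1⟩ | ⟨h1, -, -⟩
  · rcases h.adj with h2 | h2
    · exact h2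
    · exact absurd h1 (not_lt.mpr h2.2.2.1.le)
  · exact absurd hf h1

theorem lk_nfw {N : ℕ} {P : Pg N} {X : Finset ℝ} {i j : It} (h : Lnk P X i j) (hf : ¬ i.k.fw) :
    AdjX X j.t i.t := by
  rcases h.dir with ⟨h1, -, -⟩ | ⟨-, -, h1⟩
  · exact absurd h1 hf
  · rcases h.adj with h2 | h2
    · exact absurd h1 (not_lt.mpr h2.2.2.1.le)
    · exact h2

theorem lk_ar {N : ℕ} {P : Pg N} {X : Finset ℝ} {i j : It} (h : Lnk P X i j) (hf : j.k.ar) :
    AdjX X i.t j.t := by
  rcases h.dir with ⟨h1, -, -⟩ | ⟨-, h1, -⟩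
  · exact lk_fw h h1
  · exact absurd hf h1

theorem lk_nar {N : ℕ} {P : Pg N} {X : Finset ℝ} {i j : It} (h : Lnk P X i j) (hf : ¬ j.k.ar) :
    AdjX X j.t i.t := by
  rcases h.dir with ⟨-, h1, -⟩ | ⟨h1, -, -⟩
  · exact absurd h1 hf
  · exact lk_nfw h h1

theorem col_cell {N : ℕ} {P : Pg N} {X : Finset ℝ} {w : List It} {W : ℤ → It} (h : Sq P X w W)
    (n : ℤ) (hk : (W n).k ≠ .L) : ∃ a, AdjX X a (W n).t ∧ Tch P a (W n).t (W n).t (W n) := by
  have hL := h.lnk (n - 1)
  rw [sub_add_cancel] at hL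
  have hL' := h.lnk n
  have hok := h.ok n
  cases hc : (W n).k with
  | rt =>
    refine ⟨_, lk_ar hL (by rw [hc]; trivial), Or.inl ⟨Or.inl hc, Or.inl (hok.1 hc)⟩⟩
  | lt =>
    refine ⟨_, lk_nfw hL' (by rw [hc]; exact fun h => h), Or.inl ⟨Or.inr hc, Or.inr (hok.2 hc)⟩⟩
  | R =>
    have h1 := lk_nfw hL' (by rw [hc]; exact fun h => h)
    refine ⟨_, h1, Or.inr ⟨Or.inl hc, ?_⟩⟩
    have h2 := hL'.tl (Or.inl hc)
    rcases hL'.ins ((W n).e + 1) (by omega) (by omega) with h3 | h3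
    · exact absurd (h3.1.trans h3.2) (not_lt.mpr h1.2.2.1.le)
    · exact h3
  | L => exact absurd hc hk

theorem row_cell {N : ℕ} {P : Pg N} {X : Finset ℝ} {w : List It} {W : ℤ → It} (h : Sq P X w W)
    (n : ℤ) (hk : (W n).k ≠ .R) : ∃ b, AdjX X (W n).t b ∧ Tch P (W n).t b (W n).t (W n) := by
  have hL := h.lnk (n - 1)
  rw [sub_add_cancel] at hL
  have hL' := h.lnk n
  have hok := h.ok n
  cases hc : (W n).k with
  | rt =>
    refine ⟨_, lk_fw hL' (by rw [hc]; trivial), Or.inl ⟨Or.inl hc, Or.inl (hok.1 hc)⟩⟩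
  | lt =>
    refine ⟨_, lk_nar hL (by rw [hc]; exact fun h => h), Or.inl ⟨Or.inr hc, Or.inr (hok.2 hc)⟩⟩
  | L =>
    have h1 := lk_fw hL' (by rw [hc]; trivial)
    refine ⟨_, h1, Or.inr ⟨Or.inr hc, ?_⟩⟩
    have h2 := hL'.tl (Or.inr hc)
    rcases hL'.ins ((W n).e + 1) (by omega) (by omega) with h3 | h3
    · exact h3
    · exact absurd (h3.1.trans h3.2) (not_lt.mpr h1.2.2.1.le)
  | R => exact absurd hc hk

end CWG

open _root_.LH.CWG in
theorem t_CWG : Stmt_CWG := by
  intro hPGB hCMP hSEQ hLEN hGYF N P X w hX hw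
  have hN : 0 < N := hSEQ.pos P X w hw.1
  obtain ⟨W, hW⟩ := hSEQ.ex P X w hw.1
  have hYX : YX P X w := hGYF P X X w hX (Finset.Subset.refl _) (av hX) hw
  refine ⟨?_, ?_, hLEN P X X w hX (Finset.Subset.refl _) hw.1⟩
  · unfold ents
    rw [List.nodup_flatMap]
    refine ⟨fun p _ => ent_nodup p, ?_⟩
    rw [List.pairwise_map, List.pairwise_iff_getElem]
    intro i j hi hj hij
    have gi : w[i] = W i := hW.get i hi
    have gj : w[j] = W j := hW.get j hj
    have hne : ¬ ∃ k : ℤ, (j : ℤ) = i + k * w.length := by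
      rintro ⟨k, hk⟩
      rcases lt_or_ge k 1 with h1 | h1
      · have h2 : k * (w.length : ℤ) ≤ 0 :=
          mul_nonpos_of_nonpos_of_nonneg (by omega) (by omega)
        omega
      · have h2 : (w.length : ℤ) ≤ k * w.length := le_mul_of_one_le_left (by omega) h1
        omega
    change List.Disjoint (ent (pt P w[i])) (ent (pt P w[j]))
    intro x hx hy
    rw [gi] at hx
    rw [gj] at hy
    rcases x with c | r
    · obtain ⟨k1, e1⟩ := inl_mem.mp hx
      obtain ⟨k2, e2⟩ := inl_mem.mp hy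
      obtain ⟨ht, hh⟩ := c_eq (e1.symm.trans e2)
      have ht' : (W i).t = (W j).t := ht
      have hh' : P.l (W i).e (W i).t = P.l (W j).e (W j).t := hh
      obtain ⟨a, ha, hTa⟩ := col_cell hW i k1
      obtain ⟨a', ha', hTa'⟩ := col_cell hW j k2
      rw [← ht'] at ha' hTa' hh'
      have haa := adj_left ha ha'
      subst haa
      exact main hPGB hCMP hSEQ hN hW (hX.gd _ _ ha) (hYX _ _ ha) (Or.inr rfl) i j rfl ht'.symm
        hTa hTa' hne hh'
    · obtain ⟨k1, e1⟩ := inr_mem.mp hx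
      obtain ⟨k2, e2⟩ := inr_mem.mp hy
      obtain ⟨ht, hh⟩ := r_eq (e1.symm.trans e2)
      have ht' : (W i).t = (W j).t := ht
      have hh' : P.l (W i).e (W i).t = P.l (W j).e (W j).t := hh
      obtain ⟨a, ha, hTa⟩ := row_cell hW i k1
      obtain ⟨a', ha', hTa'⟩ := row_cell hW j k2
      rw [← ht'] at ha' hTa' hh'
      have haa := adj_right ha ha'
      subst haa
      exact main hPGB hCMP hSEQ hN hW (hX.gd _ _ ha) (hYX _ _ ha) (Or.inl rfl) i j rfl ht'.symm
        hTa hTa' hne hh'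
  · intro x hx
    obtain ⟨n, rfl⟩ := (hSEQ.cp P X w W hW x).mp hx
    exact (hW.lnk n).dir

end LH


end

section

/-!
# DEL: removal of a passing point
-/

namespace LH

open Set LG

namespace DEL

theorem cp_cons {α : Type*} (a : α) (T : List α) : cp (a :: T) = (a :: T).zip (T ++ [a]) := by
  simp [cp, List.rotate_cons_succ]

/-- The pair with the first entry `u` is the first one. -/
theorem hd {α : Type*} {u g : α} {T : List α} (hu : u ∉ T) (hg : g ≠ u)
    (h : (u, g) ∈ cp (u :: T)) : ∃ T', T = g :: T' := by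
  rw [cp_cons] at h
  cases T with
  | nil => simp at h; exact absurd h hg
  | cons a T' =>
    rw [List.cons_append, List.zip_cons_cons, List.mem_cons] at h
    rcases h with h | h
    · exact ⟨T', by rw [Prod.mk.injEq] at h; rw [h.2]⟩
    · exact absurd (List.of_mem_zip h).1 hu

/-- The pair with the second entry `u` is the last one. -/
theorem lt {α : Type*} {u x : α} {T : List α} (hu : u ∉ T) (hx : x ≠ u)
    (h : (x, u) ∈ cp (u :: T)) : ∃ T', T = T' ++ [x] := by
  rw [cp_cons] at h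
  rcases List.eq_nil_or_concat T with h0 | ⟨T', z, h0⟩
  · subst h0; simp at h; exact absurd h hx
  · rw [List.concat_eq_append] at h0
    subst h0
    rw [← List.cons_append, List.zip_append (by simp), List.mem_append] at h
    rcases h with h | h
    · exact absurd (List.of_mem_zip h).2 hu
    · simp at h
      exact ⟨T', by rw [h]⟩

theorem cp_last {α : Type*} (u o l : α) (T : List α) : (o, l) ∈ cp (u :: (T ++ [o, l])) := by
  rw [cp_cons]
  have h1 : u :: (T ++ [o, l]) = (u :: T) ++ [o, l] := by simp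
  have h2 : T ++ [o, l] ++ [u] = (T ++ [o]) ++ [l, u] := by simp
  rw [h1, h2, List.zip_append (by simp)]
  simp

theorem cp_first {α : Type*} (u o l : α) (T : List α) : (l, o) ∈ cp (u :: l :: o :: T) := by
  rw [cp_cons]
  simp

theorem c_lt {p q : Pt} (h : p.t < q.t) : p.c < q.c := by
  unfold Pt.c; rw [Prod.Lex.toLex_lt_toLex]; exact Or.inl h

theorem r_lt {p q : Pt} (h : p.t < q.t) : q.r < p.r := by
  unfold Pt.r; rw [Prod.Lex.toLex_lt_toLex]; exact Or.inl (by simpa using h)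

theorem ents_cons (u : Pt) (T : List Pt) : ents (u :: T) = ent u ++ ents T := by
  simp [ents]

theorem ents_app (A B : List Pt) : ents (A ++ B) = ents A ++ ents B := by
  simp [ents]

/-- The first entry when the walk arrives from the left. -/
theorem ent_ar {g : Pt} (h : g.k.ar) : ∃ E, ent g = .inl g.c :: E := by
  cases hk : g.k <;> simp [hk, Kd.ar] at h <;> simp [ent, hk]

theorem ent_nar {g : Pt} (h : ¬ g.k.ar) : ∃ E, ent g = .inr g.r :: E := by
  cases hk : g.k <;> simp [hk, Kd.ar] at h <;> simp [ent, hk]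

theorem ent_fw {g : Pt} (h : g.k.fw) : ∃ E, ent g = E ++ [.inr g.r] := by
  cases hk : g.k <;> simp [hk, Kd.fw] at h
  · exact ⟨[.inl g.c], by simp [ent, hk]⟩
  · exact ⟨[], by simp [ent, hk]⟩

theorem ent_nfw {g : Pt} (h : ¬ g.k.fw) : ∃ E, ent g = E ++ [.inl g.c] := by
  cases hk : g.k <;> simp [hk, Kd.fw] at h
  · exact ⟨[.inr g.r], by simp [ent, hk]⟩
  · exact ⟨[], by simp [ent, hk]⟩

theorem marks (hMK : Stmt_MK) {u : Pt} {T : List Pt} {l g : Pt} (hw : CW (u :: T))
    (hug : u.t < g.t)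
    (h1 : ∀ x y, Lk (u :: T) x y → Btw u.r l.r x.r → y.c < u.c ∨ g.c < y.c)
    (h2 : ∀ x ∈ T, (x.k = .rt ∨ x.k = .lt) → Btw u.r l.r x.r → x.c < u.c ∨ g.c < x.c) :
    ∀ c r, Mk (ents (u :: T)) c r → Btw u.r l.r r → c ∉ uIcc u.c g.c := by
  intro c r hm hb
  have hlt : u.c < g.c := c_lt hug
  rw [uIcc_of_le hlt.le, mem_Icc]
  rw [hMK (u :: T) (by simp) hw.st c r] at hm
  have key : c < u.c ∨ g.c < c := by
    rcases hm with ⟨p, q, hl, hc, hr⟩ | ⟨p, hp, hk, hc, hr⟩
    · rw [hc]; exact h1 p q hl (hr ▸ hb)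
    · rcases List.mem_cons.1 hp with hp | hp
      · exfalso
        rw [hr, hp] at hb
        rcases hb with hb | hb
        · exact lt_irrefl _ hb.1
        · exact lt_irrefl _ hb.2
      · rw [hc]; exact h2 p hp hk (hr ▸ hb)
  rintro ⟨ha, hb'⟩
  rcases key with h | h
  · exact absurd h (not_lt.2 ha)
  · exact absurd h (not_lt.2 hb')

end DEL

open _root_.LH.DEL in
/-- DEL -/
theorem t_DEL : Stmt_DEL := by
  intro _ hA hD1 hD2 hMK u T l g hw hT hk hlu hug h1 h2 h3
  have hm := marks hMK hw hug.1 h1 h2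
  have halt := hA.alt _ hw
  have hnd := hw.nd
  have hn := hA.nd _ hw
  have hu : u ∉ T := (List.nodup_cons.1 hn).1
  have hst := hw.st
  have hlen := hT.len
  have hlt1 : l.t < u.t := hlu.1
  have hlt2 : u.t < g.t := hug.1
  have hl_ne : l ≠ u := fun h => by rw [h] at hlt1; exact lt_irrefl _ hlt1
  have hg_ne : g ≠ u := fun h => by rw [h] at hlt2; exact lt_irrefl _ hlt2
  have hr : u.r < l.r := r_lt hlt1
  have hc : u.c < g.c := c_lt hlt2
  have hc' : l.c < u.c := c_lt hlt1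
  rcases hk with hk | hk
  · -- walking to the right
    have hlu' : (l, u) ∈ cp (u :: T) := by
      rcases hlu.2 with h | h
      · exact h
      · exfalso
        rcases hst _ h with h | h
        · exact absurd h.2.2 (not_lt.2 hlt1.le)
        · exact h.1 (by simp [hk, Kd.fw])
    have hug' : (u, g) ∈ cp (u :: T) := by
      rcases hug.2 with h | h
      · exact h
      · exfalso
        rcases hst _ h with h | h
        · exact absurd h.2.2 (not_lt.2 hlt2.le)
        · exact h.2.1 (by simp [hk, Kd.ar])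
    have sg : g.k.ar := by
      rcases hst _ hug' with h | h
      · exact h.2.1
      · exact absurd (by simp [hk, Kd.fw]) h.1
    have sl : l.k.fw := by
      rcases hst _ hlu' with h | h
      · exact h.1
      · exact absurd (by simp [hk, Kd.ar]) h.2.1
    obtain ⟨T₁, hT₁⟩ := hd hu hg_ne hug'
    obtain ⟨T₂, hT₂⟩ := DEL.lt hu hl_ne hlu'
    obtain ⟨E, hE⟩ := ent_ar sg
    -- the last two entries
    have hlast : ∃ (c₀ : Q) (F : List En), ents T = F ++ [.inl c₀, .inr l.r] ∧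
        (c₀ < u.c ∨ g.c < c₀) := by
      cases hkl : l.k with
      | rt =>
        refine ⟨l.c, ents T₂, ?_, Or.inl hc'⟩
        rw [hT₂, ents_app]
        simp [ents, ent, hkl]
      | lt => simp [hkl, Kd.fw] at sl
      | R => simp [hkl, Kd.fw] at sl
      | L =>
        rcases List.eq_nil_or_concat T₂ with h0 | ⟨T₄, o, h0⟩
        · exfalso
          rw [hT₂, h0] at hlen
          simp [ents, ent, hkl] at hlen
        · rw [List.concat_eq_append] at h0
          have hT' : T = T₄ ++ [o, l] := by rw [hT₂, h0]; simp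
          have hol : (o, l) ∈ cp (u :: T) := by rw [hT']; exact cp_last u o l T₄
          have so : ¬ o.k.fw ∧ l.t < o.t := by
            rcases hst _ hol with h | h
            · exact absurd h.2.1 (by simp [hkl, Kd.ar])
            · exact ⟨h.1, h.2.2⟩
          obtain ⟨F, hF⟩ := ent_nfw so.1
          refine ⟨o.c, ents T₄ ++ F, ?_, ?_⟩
          · rw [hT', ents_app]
            have : ents [o, l] = ent o ++ ent l := by simp [ents]
            rw [this, hF]
            simp [ent, hkl]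
          · refine h3 hkl o ⟨so.2, Or.inr hol⟩ ?_
            rintro rfl
            exact hu (by rw [hT']; simp)
    obtain ⟨c₀, F, hF, hc0⟩ := hlast
    have hfst : ents T = .inl g.c :: (E ++ ents T₁) := by
      rw [hT₁, ents_cons, hE]; simp
    cases F with
    | nil =>
      exfalso
      rw [hF] at hlen
      simp at hlen
    | cons a B =>
      have ha : a = .inl g.c := by
        rw [hF] at hfst
        simp only [List.cons_append, List.cons.injEq] at hfst
        exact hfst.1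
      subst ha
      rw [List.cons_append] at hF
      have hU : ents (u :: T) =
          .inl u.c :: .inr u.r :: .inl g.c :: (B ++ [.inl c₀, .inr l.r]) := by
        rw [ents_cons, hF]; simp [ent, hk]
      rw [hU] at halt hnd hm
      rw [hU, hF]
      refine hD1 u.c u.r g.c c₀ l.r B halt hnd hm (Or.inl ⟨hr, ?_⟩)
      unfold cyc
      rcases hc0 with h | h
      · exact Or.inr (Or.inl ⟨h, hc⟩)
      · exact Or.inr (Or.inr ⟨hc, h⟩)
  · -- walking to the left
    have hul' : (u, l) ∈ cp (u :: T) := by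
      rcases hlu.2 with h | h
      · exfalso
        rcases hst _ h with h | h
        · exact absurd h.2.1 (by simp [hk, Kd.ar])
        · exact absurd h.2.2 (not_lt.2 hlt1.le)
      · exact h
    have hgu' : (g, u) ∈ cp (u :: T) := by
      rcases hug.2 with h | h
      · exfalso
        rcases hst _ h with h | h
        · exact absurd h.1 (by simp [hk, Kd.fw])
        · exact absurd h.2.2 (not_lt.2 hlt2.le)
      · exact h
    have sg : ¬ g.k.fw := by
      rcases hst _ hgu' with h | h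
      · exact absurd h.2.1 (by simp [hk, Kd.ar])
      · exact h.1
    have sl : ¬ l.k.ar := by
      rcases hst _ hul' with h | h
      · exact absurd h.1 (by simp [hk, Kd.fw])
      · exact h.2.1
    obtain ⟨T₁, hT₁⟩ := hd hu hl_ne hul'
    obtain ⟨T₂, hT₂⟩ := DEL.lt hu hg_ne hgu'
    obtain ⟨E, hE⟩ := ent_nfw sg
    have hfst : ∃ (c₀ : Q) (F : List En), ents T = .inr l.r :: .inl c₀ :: F ∧
        (c₀ < u.c ∨ g.c < c₀) := by
      cases hkl : l.k with
      | lt =>
        refine ⟨l.c, ents T₁, ?_, Or.inl hc'⟩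
        rw [hT₁, ents_cons]
        simp [ent, hkl]
      | rt => exact absurd (by simp [hkl, Kd.ar]) sl
      | R => exact absurd (by simp [hkl, Kd.ar]) sl
      | L =>
        cases T₁ with
        | nil =>
          exfalso
          rw [hT₁] at hlen
          simp [ents, ent, hkl] at hlen
        | cons o T₄ =>
          have hlo : (l, o) ∈ cp (u :: T) := by rw [hT₁]; exact cp_first u o l T₄
          have so : o.k.ar ∧ l.t < o.t := by
            rcases hst _ hlo with h | h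
            · exact h.2
            · exact absurd (by simp [hkl, Kd.fw]) h.1
          obtain ⟨F, hF⟩ := ent_ar so.1
          refine ⟨o.c, F ++ ents T₄, ?_, ?_⟩
          · rw [hT₁, ents_cons, ents_cons, hF]
            simp [ent, hkl]
          · refine h3 hkl o ⟨so.2, Or.inl hlo⟩ ?_
            rintro rfl
            exact hu (by rw [hT₁]; simp)
    obtain ⟨c₀, F, hF, hc0⟩ := hfst
    have hlst : ents T = ents T₂ ++ E ++ [.inl g.c] := by
      rw [hT₂, ents_app]
      have : ents [g] = ent g := by simp [ents]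
      rw [this, hE]; simp
    rcases List.eq_nil_or_concat F with h0 | ⟨B, a, h0⟩
    · exfalso
      rw [hF, h0] at hlen
      simp at hlen
    · rw [List.concat_eq_append] at h0
      have ha : a = .inl g.c := by
        have h := hF
        rw [hlst, h0] at h
        have h' : ents T₂ ++ E ++ [.inl g.c] = (.inr l.r :: .inl c₀ :: B) ++ [a] := by
          rw [h]; simp
        have := (List.append_inj' h' (by simp)).2
        simpa using this.symm
      subst ha
      rw [h0] at hF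
      have hU : ents (u :: T) =
          .inr u.r :: .inl u.c :: .inr l.r :: .inl c₀ :: (B ++ [.inl g.c]) := by
        rw [ents_cons, hF]; simp [ent, hk]
      rw [hU] at halt hnd hm
      rw [hU, hF]
      refine hD2 u.c u.r g.c c₀ l.r B halt hnd hm (Or.inl ⟨hr, ?_⟩)
      unfold cyc
      rcases hc0 with h | h
      · exact Or.inr (Or.inl ⟨h, hc⟩)
      · exact Or.inr (Or.inr ⟨hc, h⟩)

end LH


end

section

/-!
# Part C: good sets of lines
-/

namespace LH

open Set LG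

theorem t_EGX : Stmt_EGX := by
  intro hEV hFG N P hN hE F hF
  classical
  have hfin := hEV P hN
  have hx : ∀ i, P.x i ∈ Ev P := fun i => Or.inl ⟨i, rfl⟩
  have hg : ∀ s t : ℝ, ∃ g : ℝ, s < t → s < g ∧ g < t ∧ g ∉ Ev P := by
    intro s t
    by_cases h : s < t
    · obtain ⟨g, hg1, hg2⟩ := ((Ioo_infinite h).sdiff hfin).nonempty
      exact ⟨g, fun _ => ⟨hg1.1, hg1.2, hg2⟩⟩
    · exact ⟨0, fun h' => absurd h' h⟩
  choose g hg using hg
  have hne : hfin.toFinset.Nonempty := ⟨P.x 0, hfin.mem_toFinset.2 (hx 0)⟩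
  obtain ⟨E, hEdef⟩ : ∃ E, E = hfin.toFinset := ⟨_, rfl⟩
  rw [← hEdef] at hne
  have hmE : ∀ t, t ∈ E ↔ t ∈ Ev P := fun t => by rw [hEdef, hfin.mem_toFinset]
  obtain ⟨a, ha⟩ : ∃ a, a = E.min' hne - 1 := ⟨_, rfl⟩
  obtain ⟨b, hb⟩ : ∃ b, b = E.max' hne + 1 := ⟨_, rfl⟩
  have ha' : ∀ t ∈ Ev P, a < t := fun t ht => by
    have := E.min'_le t ((hmE t).2 ht)
    linarith
  have hb' : ∀ t ∈ Ev P, t < b := fun t ht => by
    have := E.le_max' t ((hmE t).2 ht)
    linarith
  obtain ⟨G, hG⟩ : ∃ G, G = ((E ×ˢ E).filter fun p => p.1 < p.2).image fun p => g p.1 p.2 :=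
    ⟨_, rfl⟩
  have hmG : ∀ s ∈ Ev P, ∀ t ∈ Ev P, s < t → g s t ∈ G := by
    intro s hs t ht hst
    rw [hG, Finset.mem_image]
    exact ⟨(s, t), Finset.mem_filter.2 ⟨Finset.mem_product.2 ⟨(hmE s).2 hs, (hmE t).2 ht⟩, hst⟩,
      rfl⟩
  obtain ⟨X, hX⟩ : ∃ X, X = F ∪ insert a (insert b G) := ⟨_, rfl⟩
  have hFX : F ⊆ X := by
    rw [hX]
    exact Finset.subset_union_left
  have haX : a ∈ X := by
    rw [hX]
    exact Finset.mem_union_right _ (Finset.mem_insert_self _ _)
  have hbX : b ∈ X := by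
    rw [hX]
    exact Finset.mem_union_right _ (Finset.mem_insert_of_mem (Finset.mem_insert_self _ _))
  have hGX : ∀ s ∈ G, s ∈ X := by
    intro s hs
    rw [hX]
    exact Finset.mem_union_right _ (Finset.mem_insert_of_mem (Finset.mem_insert_of_mem hs))
  have hXE : ∀ s ∈ X, s ∉ Ev P := by
    intro s hs
    rw [hX, Finset.mem_union, Finset.mem_insert, Finset.mem_insert] at hs
    rcases hs with hs | rfl | rfl | hs
    · exact hF s hs
    · exact fun h => lt_irrefl _ (ha' _ h)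
    · exact fun h => lt_irrefl _ (hb' _ h)
    · rw [hG, Finset.mem_image] at hs
      obtain ⟨p, hp, rfl⟩ := hs
      exact (hg p.1 p.2 (Finset.mem_filter.1 hp).2).2.2
  refine ⟨X, hFX, ⟨⟨a, haX, fun i => ha' _ (hx i)⟩, ⟨b, hbX, fun i => hb' _ (hx i)⟩, ?_⟩, hXE, ?_⟩
  · rintro s t ⟨hs, ht, hst, hn⟩
    refine hFG P s t hN hE hst (hXE s hs) (hXE t ht) ?_
    intro u v hu hv h1 h2 h3 h4
    rcases lt_trichotomy u v with h | h | h
    · have h5 := hg u v h
      exact absurd ⟨h1.trans h5.1, h5.2.1.trans h4⟩ (hn _ (hGX _ (hmG u hu v hv h)))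
    · exact h
    · have h5 := hg v u h
      exact absurd ⟨h3.trans h5.1, h5.2.1.trans h2⟩ (hn _ (hGX _ (hmG v hv u hu h)))
  · obtain ⟨i, hi⟩ := hE.nc
    rcases lt_or_gt_of_ne hi with h | h
    · have h5 := hg _ _ h
      exact ⟨_, hGX _ (hmG _ (hx i) _ (hx 0) h), i, 0, h5.1, h5.2.1⟩
    · have h5 := hg _ _ h
      exact ⟨_, hGX _ (hmG _ (hx 0) _ (hx i) h), 0, i, h5.1, h5.2.1⟩

end LH


end

section

/-!
# EXW: walks exist
-/

namespace LH

open Set LG

namespace EXW

variable {N : ℕ} {P : Pg N} {Y : Finset ℝ}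

/-- Linked items with the conditions of a walk. -/
def RR (P : Pg N) (Y : Finset ℝ) (u v : It) : Prop :=
  ItOK P u ∧ Lnk P Y u v ∧ ¬ ((u.k = .R ∨ u.k = .L) ∧ (v.k = .R ∨ v.k = .L))

/-- A crossing. -/
def Cr (P : Pg N) (Y : Finset ℝ) (u : It) : Prop :=
  u.t ∈ Y ∧ (u.k = .rt ∧ P.x u.e < u.t ∧ u.t < P.x (u.e + 1) ∨
    u.k = .lt ∧ P.x (u.e + 1) < u.t ∧ u.t < P.x u.e)

/-- The order of the crossings. -/
noncomputable def key (u : It) : ℤ ×ₗ ℝ := toLex (u.e, if u.k = .rt then u.t else -u.t)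

theorem klt {u v : It} : key u < key v ↔ u.e < v.e ∨ u.e = v.e ∧
    (if u.k = .rt then u.t else -u.t) < (if v.k = .rt then v.t else -v.t) :=
  Prod.Lex.toLex_lt_toLex

theorem nxt_up (t : ℝ) (h : ∃ b ∈ Y, t < b) :
    ∃ b ∈ Y, t < b ∧ ∀ y ∈ Y, ¬ (t < y ∧ y < b) := by
  classical
  obtain ⟨b₀, hb₀, hb₀'⟩ := h
  obtain ⟨b, hb, hm⟩ := Finset.exists_min_image (Y.filter (fun y => t < y)) id
    ⟨b₀, Finset.mem_filter.mpr ⟨hb₀, hb₀'⟩⟩
  rw [Finset.mem_filter] at hb
  refine ⟨b, hb.1, hb.2, ?_⟩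
  rintro y hy ⟨h1, h2⟩
  exact absurd (hm y (Finset.mem_filter.mpr ⟨hy, h1⟩)) (not_le.mpr h2)

theorem nxt_dn (t : ℝ) (h : ∃ b ∈ Y, b < t) :
    ∃ b ∈ Y, b < t ∧ ∀ y ∈ Y, ¬ (b < y ∧ y < t) := by
  classical
  obtain ⟨b₀, hb₀, hb₀'⟩ := h
  obtain ⟨b, hb, hm⟩ := Finset.exists_max_image (Y.filter (fun y => y < t)) id
    ⟨b₀, Finset.mem_filter.mpr ⟨hb₀, hb₀'⟩⟩
  rw [Finset.mem_filter] at hb
  refine ⟨b, hb.1, hb.2, ?_⟩
  rintro y hy ⟨h1, h2⟩
  exact absurd (hm y (Finset.mem_filter.mpr ⟨hy, h2⟩)) (not_le.mpr h1)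

theorem step_rt (hY : ∀ s ∈ Y, ∀ i, P.x i ≠ s) (hhi : ∃ b ∈ Y, ∀ i, P.x i < b) {i j : It}
    (hiY : i.t ∈ Y) (hk : i.k = .rt) (h1 : P.x i.e < i.t) (h2 : i.t < P.x (i.e + 1))
    (hj : Cr P Y j) (hlt : key i < key j)
    (hno : ∀ u, Cr P Y u → key i < key u → key u < key j → False) :
    Relation.TransGen (RR P Y) i j := by
  obtain ⟨b, hbY, hb⟩ := hhi
  obtain ⟨t', ht', h3, h4⟩ := nxt_up (Y := Y) i.t ⟨b, hbY, h2.trans (hb _)⟩
  have hv : ∀ m, i.e + 1 ≤ m → m ≤ j.e → i.t < P.x m ∧ P.x m < t' := by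
    intro m hm
    induction m, hm using Int.le_induction with
    | base =>
      intro hmj
      refine ⟨h2, ?_⟩
      by_contra hc
      have hc' : t' < P.x (i.e + 1) := lt_of_le_of_ne (not_lt.mp hc) (hY _ ht' _).symm
      refine hno ⟨.rt, t', i.e⟩ ⟨ht', Or.inl ⟨rfl, h1.trans h3, hc'⟩⟩ ?_ ?_
      · rw [klt]
        right
        simp [hk, h3]
      · rw [klt]
        left
        change i.e < j.e
        omega
    | succ m hm ih =>
      intro hmj
      obtain ⟨a1, a2⟩ := ih (by omega)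
      constructor
      · by_contra hc
        have hc' : P.x (m + 1) < i.t := lt_of_le_of_ne (not_lt.mp hc) (hY _ hiY _)
        refine hno ⟨.lt, i.t, m⟩ ⟨hiY, Or.inr ⟨rfl, hc', a1⟩⟩ ?_ ?_
        · rw [klt]
          left
          change i.e < m
          omega
        · rw [klt]
          left
          change m < j.e
          omega
      · by_contra hc
        have hc' : t' < P.x (m + 1) := lt_of_le_of_ne (not_lt.mp hc) (hY _ ht' _).symm
        refine hno ⟨.rt, t', m⟩ ⟨ht', Or.inl ⟨rfl, a2, hc'⟩⟩ ?_ ?_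
        · rw [klt]
          left
          change i.e < m
          omega
        · rw [klt]
          left
          change m < j.e
          omega
  have hij : i.e ≤ j.e := by
    rcases klt.mp hlt with h | h
    · exact h.le
    · exact h.1.le
  have hadj : AdjX Y i.t t' := ⟨hiY, ht', h3, h4⟩
  rcases hj with ⟨hjY, ⟨hjk, g1, g2⟩ | ⟨hjk, g1, g2⟩⟩
  · -- the next crossing goes to the right
    have e1 : i.t < j.t := by
      rcases klt.mp hlt with h | h
      · exact (hv j.e (by omega) (le_refl _)).1.trans g1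
      · have := h.2
        rwa [if_pos hk, if_pos hjk] at this
    have e2 : t' ≤ j.t := by
      by_contra hc
      exact h4 j.t hjY ⟨e1, not_le.mp hc⟩
    have e3 : P.x j.e < t' := by
      rcases hij.lt_or_eq with h | h
      · exact (hv j.e (by omega) (le_refl _)).2
      · rw [← h]
        exact h1.trans h3
    have e4 : j.t = t' := by
      by_contra hc
      have hc' : t' < j.t := lt_of_le_of_ne e2 (Ne.symm hc)
      refine hno ⟨.rt, t', j.e⟩ ⟨ht', Or.inl ⟨rfl, e3, hc'.trans g2⟩⟩ ?_ ?_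
      · rw [klt]
        rcases hij.lt_or_eq with h | h
        · left
          exact h
        · right
          refine ⟨h, ?_⟩
          simp [hk, h3]
      · rw [klt]
        right
        simp [hjk, hc']
    apply Relation.TransGen.single
    refine ⟨⟨fun _ => ⟨h1, h2⟩, fun h => absurd (hk.symm.trans h) (by decide)⟩, ?_, ?_⟩
    · refine ⟨hij, ?_, ?_, ?_, ?_⟩
      · rintro (h | h)
        · exact absurd (hk.symm.trans h) (by decide)
        · exact absurd (hk.symm.trans h) (by decide)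
      · rw [e4]
        exact Or.inl hadj
      · intro m hm hm'
        rw [e4]
        exact Or.inl (hv m (by omega) hm')
      · left
        rw [hk, hjk, e4]
        exact ⟨trivial, trivial, h3⟩
    · rintro ⟨h | h, _⟩
      · exact absurd (hk.symm.trans h) (by decide)
      · exact absurd (hk.symm.trans h) (by decide)
  · -- the next crossing goes to the left
    have hne : i.e < j.e := by
      rcases hij.lt_or_eq with h | h
      · exact h
      · rw [← h] at g1 g2
        exact absurd (h1.trans h2) (not_lt.mpr (g1.trans g2).le)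
    have hvj := hv j.e (by omega) (le_refl _)
    have e1 : j.t ≤ i.t := by
      by_contra hc
      exact h4 j.t hjY ⟨not_le.mp hc, g2.trans hvj.2⟩
    have e4 : j.t = i.t := by
      by_contra hc
      have hc' : j.t < i.t := lt_of_le_of_ne e1 hc
      refine hno ⟨.lt, i.t, j.e⟩ ⟨hiY, Or.inr ⟨rfl, g1.trans hc', hvj.1⟩⟩ ?_ ?_
      · rw [klt]
        left
        exact hne
      · rw [klt]
        right
        simp [hjk, hc']
    refine Relation.TransGen.head (b := ⟨.R, t', i.e⟩) ?_ (Relation.TransGen.single ?_)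
    · refine ⟨⟨fun _ => ⟨h1, h2⟩, fun h => absurd (hk.symm.trans h) (by decide)⟩, ?_, ?_⟩
      · refine ⟨le_refl _, ?_, Or.inl hadj, ?_, ?_⟩
        · rintro (h | h)
          · exact absurd (hk.symm.trans h) (by decide)
          · exact absurd (hk.symm.trans h) (by decide)
        · intro m hm hm'
          exact absurd (lt_of_lt_of_le hm hm') (lt_irrefl _)
        · left
          rw [hk]
          exact ⟨trivial, trivial, h3⟩
      · rintro ⟨h | h, _⟩
        · exact absurd (hk.symm.trans h) (by decide)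
        · exact absurd (hk.symm.trans h) (by decide)
    · refine ⟨⟨fun h => absurd h (by simp), fun h => absurd h (by simp)⟩, ?_, ?_⟩
      · refine ⟨hij, fun _ => hne, ?_, ?_, ?_⟩
        · right
          rw [e4]
          exact hadj
        · intro m hm hm'
          right
          rw [e4]
          exact hv m (Int.add_one_le_of_lt hm) hm'
        · right
          rw [hjk, e4]
          exact ⟨fun h => h, fun h => h, h3⟩
      · rintro ⟨_, h | h⟩
        · exact absurd (hjk.symm.trans h) (by decide)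
        · exact absurd (hjk.symm.trans h) (by decide)

theorem step_lt (hY : ∀ s ∈ Y, ∀ i, P.x i ≠ s) (hlo : ∃ b ∈ Y, ∀ i, b < P.x i) {i j : It}
    (hiY : i.t ∈ Y) (hk : i.k = .lt) (h1 : i.t < P.x i.e) (h2 : P.x (i.e + 1) < i.t)
    (hj : Cr P Y j) (hlt : key i < key j)
    (hno : ∀ u, Cr P Y u → key i < key u → key u < key j → False) :
    Relation.TransGen (RR P Y) i j := by
  obtain ⟨b, hbY, hb⟩ := hlo
  obtain ⟨t', ht', h3, h4⟩ := nxt_dn (Y := Y) i.t ⟨b, hbY, (hb _).trans h2⟩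
  have hv : ∀ m, i.e + 1 ≤ m → m ≤ j.e → t' < P.x m ∧ P.x m < i.t := by
    intro m hm
    induction m, hm using Int.le_induction with
    | base =>
      intro hmj
      refine ⟨?_, h2⟩
      by_contra hc
      have hc' : P.x (i.e + 1) < t' := lt_of_le_of_ne (not_lt.mp hc) (hY _ ht' _)
      refine hno ⟨.lt, t', i.e⟩ ⟨ht', Or.inr ⟨rfl, hc', h3.trans h1⟩⟩ ?_ ?_
      · rw [klt]
        right
        simp [hk, h3]
      · rw [klt]
        left
        change i.e < j.e
        omega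
    | succ m hm ih =>
      intro hmj
      obtain ⟨a1, a2⟩ := ih (by omega)
      constructor
      · by_contra hc
        have hc' : P.x (m + 1) < t' := lt_of_le_of_ne (not_lt.mp hc) (hY _ ht' _)
        refine hno ⟨.lt, t', m⟩ ⟨ht', Or.inr ⟨rfl, hc', a1⟩⟩ ?_ ?_
        · rw [klt]
          left
          change i.e < m
          omega
        · rw [klt]
          left
          change m < j.e
          omega
      · by_contra hc
        have hc' : i.t < P.x (m + 1) := lt_of_le_of_ne (not_lt.mp hc) (hY _ hiY _).symm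
        refine hno ⟨.rt, i.t, m⟩ ⟨hiY, Or.inl ⟨rfl, a2, hc'⟩⟩ ?_ ?_
        · rw [klt]
          left
          change i.e < m
          omega
        · rw [klt]
          left
          change m < j.e
          omega
  have hij : i.e ≤ j.e := by
    rcases klt.mp hlt with h | h
    · exact h.le
    · exact h.1.le
  have hkn : ¬ i.k = .rt := by rw [hk]; decide
  have hadj : AdjX Y t' i.t := ⟨ht', hiY, h3, h4⟩
  rcases hj with ⟨hjY, ⟨hjk, g1, g2⟩ | ⟨hjk, g1, g2⟩⟩
  · -- the next crossing goes to the right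
    have hne : i.e < j.e := by
      rcases hij.lt_or_eq with h | h
      · exact h
      · rw [← h] at g1 g2
        exact absurd (g1.trans g2) (not_lt.mpr (h2.trans h1).le)
    have hvj := hv j.e (by omega) (le_refl _)
    have e1 : i.t ≤ j.t := by
      by_contra hc
      exact h4 j.t hjY ⟨hvj.1.trans g1, not_le.mp hc⟩
    have e4 : j.t = i.t := by
      by_contra hc
      have hc' : i.t < j.t := lt_of_le_of_ne e1 (Ne.symm hc)
      refine hno ⟨.rt, i.t, j.e⟩ ⟨hiY, Or.inl ⟨rfl, hvj.2, hc'.trans g2⟩⟩ ?_ ?_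
      · rw [klt]
        left
        exact hne
      · rw [klt]
        right
        simp [hjk, hc']
    refine Relation.TransGen.head (b := ⟨.L, t', i.e⟩) ?_ (Relation.TransGen.single ?_)
    · refine ⟨⟨fun h => absurd h hkn, fun _ => ⟨h2, h1⟩⟩, ?_, ?_⟩
      · refine ⟨le_refl _, ?_, Or.inr hadj, ?_, ?_⟩
        · rintro (h | h)
          · exact absurd (hk.symm.trans h) (by decide)
          · exact absurd (hk.symm.trans h) (by decide)
        · intro m hm hm'
          exact absurd (lt_of_lt_of_le hm hm') (lt_irrefl _)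
        · right
          rw [hk]
          exact ⟨fun h => h, fun h => h, h3⟩
      · rintro ⟨h | h, _⟩
        · exact absurd (hk.symm.trans h) (by decide)
        · exact absurd (hk.symm.trans h) (by decide)
    · refine ⟨⟨fun h => absurd h (by simp), fun h => absurd h (by simp)⟩, ?_, ?_⟩
      · refine ⟨hij, fun _ => hne, ?_, ?_, ?_⟩
        · left
          rw [e4]
          exact hadj
        · intro m hm hm'
          left
          rw [e4]
          exact hv m (Int.add_one_le_of_lt hm) hm'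
        · left
          rw [hjk, e4]
          exact ⟨trivial, trivial, h3⟩
      · rintro ⟨_, h | h⟩
        · exact absurd (hjk.symm.trans h) (by decide)
        · exact absurd (hjk.symm.trans h) (by decide)
  · -- the next crossing goes to the left
    have hjn : ¬ j.k = .rt := by rw [hjk]; decide
    have e1 : j.t < i.t := by
      rcases klt.mp hlt with h | h
      · exact g2.trans (hv j.e (by omega) (le_refl _)).2
      · have := h.2
        rw [if_neg hkn, if_neg hjn] at this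
        linarith
    have e2 : j.t ≤ t' := by
      by_contra hc
      exact h4 j.t hjY ⟨not_le.mp hc, e1⟩
    have e3 : t' < P.x j.e := by
      rcases hij.lt_or_eq with h | h
      · exact (hv j.e (by omega) (le_refl _)).1
      · rw [← h]
        exact h3.trans h1
    have e4 : j.t = t' := by
      by_contra hc
      have hc' : j.t < t' := lt_of_le_of_ne e2 hc
      refine hno ⟨.lt, t', j.e⟩ ⟨ht', Or.inr ⟨rfl, g1.trans hc', e3⟩⟩ ?_ ?_
      · rw [klt]
        rcases hij.lt_or_eq with h | h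
        · left
          exact h
        · right
          refine ⟨h, ?_⟩
          simp [hk, h3]
      · rw [klt]
        right
        simp [hjk, hc']
    apply Relation.TransGen.single
    refine ⟨⟨fun h => absurd h hkn, fun _ => ⟨h2, h1⟩⟩, ?_, ?_⟩
    · refine ⟨hij, ?_, ?_, ?_, ?_⟩
      · rintro (h | h)
        · exact absurd (hk.symm.trans h) (by decide)
        · exact absurd (hk.symm.trans h) (by decide)
      · rw [e4]
        exact Or.inr hadj
      · intro m hm hm'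
        rw [e4]
        exact Or.inr (hv m (by omega) hm')
      · right
        rw [hk, hjk, e4]
        exact ⟨fun h => h, fun h => h, h3⟩
    · rintro ⟨h | h, _⟩
      · exact absurd (hk.symm.trans h) (by decide)
      · exact absurd (hk.symm.trans h) (by decide)

theorem fin (i j : It) : {u | Cr P Y u ∧ key i < key u ∧ key u < key j}.Finite := by
  classical
  have h : ({u | Cr P Y u ∧ key i < key u ∧ key u < key j} : Set It) ⊆
      (fun q : Kd × ℝ × ℤ => (⟨q.1, q.2.1, q.2.2⟩ : It)) ''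
        (((({Kd.rt, Kd.lt} : Finset Kd) ×ˢ (Y ×ˢ Finset.Icc i.e j.e)) :
          Finset (Kd × ℝ × ℤ)) : Set (Kd × ℝ × ℤ)) := by
    rintro u ⟨hc, h1, h2⟩
    refine ⟨(u.k, u.t, u.e), ?_, rfl⟩
    rw [Finset.mem_coe, Finset.mem_product, Finset.mem_product, Finset.mem_Icc]
    refine ⟨?_, hc.1, ?_, ?_⟩
    · rcases hc.2 with h | h
      · simp [h.1]
      · simp [h.1]
    · rcases klt.mp h1 with h | h
      · exact h.le
      · exact h.1.le
    · rcases klt.mp h2 with h | h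
      · exact h.le
      · exact h.1.le
  exact (Set.Finite.image _ (Finset.finite_toSet _)).subset h

theorem reach (hY : ∀ s ∈ Y, ∀ i, P.x i ≠ s) (hlo : ∃ a ∈ Y, ∀ i, a < P.x i)
    (hhi : ∃ b ∈ Y, ∀ i, P.x i < b) (n : ℕ) : ∀ i j : It, Cr P Y i → Cr P Y j → key i < key j →
    {u | Cr P Y u ∧ key i < key u ∧ key u < key j}.ncard = n →
    Relation.TransGen (RR P Y) i j := by
  induction n using Nat.strong_induction_on with
  | _ n ih =>
    intro i j hi hj hlt hn
    by_cases hex : ∃ u, Cr P Y u ∧ key i < key u ∧ key u < key j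
    · obtain ⟨u, hu, hu1, hu2⟩ := hex
      have s1 : {v | Cr P Y v ∧ key i < key v ∧ key v < key u}.ncard < n := by
        rw [← hn]
        apply Set.ncard_lt_ncard _ (fin i j)
        refine ⟨fun v hv => ⟨hv.1, hv.2.1, hv.2.2.trans hu2⟩, fun h => ?_⟩
        exact absurd (h ⟨hu, hu1, hu2⟩).2.2 (lt_irrefl _)
      have s2 : {v | Cr P Y v ∧ key u < key v ∧ key v < key j}.ncard < n := by
        rw [← hn]
        apply Set.ncard_lt_ncard _ (fin i j)
        refine ⟨fun v hv => ⟨hv.1, hu1.trans hv.2.1, hv.2.2⟩, fun h => ?_⟩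
        exact absurd (h ⟨hu, hu1, hu2⟩).2.1 (lt_irrefl _)
      exact (ih _ s1 i u hi hu hu1 rfl).trans (ih _ s2 u j hu hj hu2 rfl)
    · have hno : ∀ u, Cr P Y u → key i < key u → key u < key j → False :=
        fun u h1 h2 h3 => hex ⟨u, h1, h2, h3⟩
      rcases hi with ⟨hiY, ⟨hk, h1, h2⟩ | ⟨hk, h1, h2⟩⟩
      · exact step_rt hY hhi hiY hk h1 h2 hj hlt hno
      · exact step_lt hY hlo hiY hk h2 h1 hj hlt hno

theorem to_list {a b : It} (h : Relation.TransGen (RR P Y) a b) :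
    ∃ w', List.IsChain (RR P Y) (a :: w' ++ [b]) := by
  induction h using Relation.TransGen.head_induction_on with
  | single h => exact ⟨[], by simpa using h⟩
  | @head a c h _ ih =>
    obtain ⟨w', hw⟩ := ih
    refine ⟨c :: w', ?_⟩
    exact List.IsChain.cons_cons h hw

theorem ok_of (l : List It) (b : It) (h : List.IsChain (RR P Y) (l ++ [b])) :
    ∀ u ∈ l, ItOK P u := by
  induction l with
  | nil => simp
  | cons u l ih =>
    intro v hv
    have h' : List.IsChain (RR P Y) (u :: (l ++ [b])) := h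
    rcases List.mem_cons.mp hv with rfl | hv
    · cases l with
      | nil =>
        rw [List.nil_append, List.isChain_cons_cons] at h'
        exact h'.1.1
      | cons c l =>
        rw [List.cons_append, List.isChain_cons_cons] at h'
        exact h'.1.1
    · exact ih h'.tail v hv

theorem zip_of (a : It) (ha : ¬ (a.k = .R ∨ a.k = .L)) (l : List It) (c b : It)
    (h : List.IsChain (RR P Y) (c :: l ++ [b])) :
    ∀ x ∈ (c :: l).zip (l ++ [a]), ¬ ((x.1.k = .R ∨ x.1.k = .L) ∧ (x.2.k = .R ∨ x.2.k = .L)) := by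
  induction l generalizing c with
  | nil =>
    intro x hx
    rw [List.nil_append, List.zip_cons_cons, List.zip_nil_left, List.mem_singleton] at hx
    rw [hx]
    exact fun h => ha h.2
  | cons d l ih =>
    intro x hx
    have h' : List.IsChain (RR P Y) (c :: d :: (l ++ [b])) := h
    rw [List.isChain_cons_cons] at h'
    rw [List.cons_append, List.zip_cons_cons, List.mem_cons] at hx
    rcases hx with rfl | hx
    · exact h'.1.2.2
    · exact ih d h'.2 x hx

theorem exists_start (hN : 0 < N) {s : ℝ} (hs : ∀ i, P.x i ≠ s) {i j : ℤ} (hi : P.x i < s)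
    (hj : s < P.x j) : ∃ m, P.x m < s ∧ s < P.x (m + 1) := by
  by_contra hc
  push Not at hc
  have h1 : ∀ m, i ≤ m → P.x m < s := by
    intro m hm
    induction m, hm using Int.le_induction with
    | base => exact hi
    | succ m _ ih => exact lt_of_le_of_ne (hc m ih) (hs _)
  have h2 : ∀ k : ℕ, P.x (j + k * N) = P.x j := by
    intro k
    induction k with
    | zero => simp
    | succ k ih =>
      have := P.px (j + k * N)
      rw [← ih, ← this]
      congr 1
      push_cast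
      ring
  have h3 := h1 (j + (i - j).natAbs * N) (by
    have h4 : ((i - j).natAbs : ℤ) ≤ ((i - j).natAbs : ℤ) * (N : ℤ) := by
      have : (1 : ℤ) ≤ N := by exact_mod_cast hN
      nlinarith [Int.natCast_nonneg (i - j).natAbs]
    have h5 : i - j ≤ ((i - j).natAbs : ℤ) := Int.le_natAbs
    omega)
  rw [h2] at h3
  exact absurd h3 (not_lt.mpr hj.le)

end EXW

open _root_.LH.EXW in
/-- EXW -/
theorem t_EXW : Stmt_EXW := by
  intro N P Y hN hY hlo hhi hmid
  obtain ⟨s, hsY, i, j, hi, hj⟩ := hmid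
  obtain ⟨m, hm1, hm2⟩ := exists_start hN (hY s hsY) hi hj
  have c1 : Cr P Y ⟨.rt, s, m⟩ := ⟨hsY, Or.inl ⟨rfl, hm1, hm2⟩⟩
  have c2 : Cr P Y (It.sh N ⟨.rt, s, m⟩) := by
    refine ⟨hsY, Or.inl ⟨rfl, ?_, ?_⟩⟩
    · change P.x (m + N) < s
      rw [P.px]
      exact hm1
    · change s < P.x (m + N + 1)
      have : m + (N : ℤ) + 1 = (m + 1) + N := by ring
      rw [this, P.px]
      exact hm2
  have c3 : key ⟨.rt, s, m⟩ < key (It.sh N ⟨.rt, s, m⟩) := by
    rw [klt]
    left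
    change m < m + (N : ℤ)
    omega
  obtain ⟨w', hw⟩ := to_list (reach hY hlo hhi _ _ _ c1 c2 c3 rfl)
  refine ⟨⟨.rt, s, m⟩ :: w', ⟨_, w', rfl, ok_of _ _ hw, hw.imp fun _ _ h => h.2.1⟩, ?_⟩
  have e : cp ((⟨.rt, s, m⟩ : It) :: w') = ((⟨.rt, s, m⟩ : It) :: w').zip (w' ++ [⟨.rt, s, m⟩]) := by
    rw [cp, List.rotate_cons_succ, List.rotate_zero]
  rw [e]
  exact zip_of _ (by simp) w' _ _ hw

end LH


end

section

/-!
# FLM: a left turn moves
-/

namespace LH

open Set LG

namespace FLM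

theorem zip_head {α : Type*} (u q : α) (T : List α) (hn : (u :: T).Nodup)
    (h : (u, q) ∈ cp (u :: T)) (hT : T ≠ []) : ∃ T', T = q :: T' := by
  cases T with
  | nil => exact absurd rfl hT
  | cons a T' =>
    rw [cp, List.rotate_cons_succ, List.rotate_zero, List.cons_append, List.zip_cons_cons] at h
    rcases List.mem_cons.1 h with h | h
    · rw [Prod.mk.injEq] at h
      exact ⟨T', by rw [h.2]⟩
    · exact absurd (List.of_mem_zip h).1 (List.nodup_cons.1 hn).1

theorem zip_last {α : Type*} (u p : α) (T : List α) (hn : (u :: T).Nodup)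
    (h : (p, u) ∈ cp (u :: T)) (hT : T ≠ []) : ∃ T', T = T' ++ [p] := by
  obtain ⟨T', a, rfl⟩ : ∃ T' a, T = T' ++ [a] :=
    ⟨T.dropLast, T.getLast hT, (List.dropLast_append_getLast hT).symm⟩
  refine ⟨T', ?_⟩
  have e : cp (u :: (T' ++ [a])) = ((u :: T').zip (T' ++ [a])) ++ [(a, u)] := by
    rw [cp, List.rotate_cons_succ, List.rotate_zero, ← List.cons_append, List.zip_append]
    · rfl
    · simp
  rw [e, List.mem_append] at h
  rcases h with h | h
  · exact absurd (List.of_mem_zip h).2 (List.nodup_cons.1 hn).1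
  · rw [List.mem_singleton, Prod.mk.injEq] at h
    rw [h.1]

theorem ents_cons (u : Pt) (T : List Pt) : ents (u :: T) = ent u ++ ents T := by
  simp [ents]

theorem ents_append (A B : List Pt) : ents (A ++ B) = ents A ++ ents B := by
  simp [ents]

end FLM

open _root_.LH.FLM in
/-- FLM -/
theorem t_FLM : Stmt_FLM := by
  intro hW hC hR hM u u' T p q hw hw' hk hk' hp hq h₁ h₂
  have hn : (u :: T).Nodup := hC.nd _ hw
  have hT : T ≠ [] := by
    rintro rfl
    have := hw.len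
    simp [ents, ent, hk] at this
  have sp : Stp p u := hw.st (p, u) hp
  have sq : Stp u q := hw.st (u, q) hq
  obtain ⟨T₁, e₁⟩ := zip_head u q T hn hq hT
  obtain ⟨T₂, e₂⟩ := zip_last u p T hn hp hT
  -- the first entry
  have f₁ : ∃ B₁, ents T = Sum.inl q.c :: B₁ := by
    rw [e₁, ents_cons]
    have hqk : q.k = .rt ∨ q.k = .R := by
      rcases sq with ⟨_, h, _⟩ | ⟨h, _, _⟩
      · revert h
        cases q.k <;> simp [Kd.ar]
      · exact absurd (by rw [hk]; trivial) h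
    rcases hqk with h | h <;> simp [ent, h]
  have f₂ : ∃ B₂, ents T = B₂ ++ [Sum.inl p.c] := by
    rw [e₂, ents_append]
    have hpk : p.k = .lt ∨ p.k = .R := by
      rcases sp with ⟨_, h, _⟩ | ⟨h, _, _⟩
      · rw [hk] at h
        exact absurd h (by simp [Kd.ar])
      · revert h
        cases p.k <;> simp [Kd.fw]
    rcases hpk with h | h
    · exact ⟨ents T₂ ++ [Sum.inr p.r], by simp [ents, ent, h]⟩
    · exact ⟨ents T₂, by simp [ents, ent, h]⟩
  obtain ⟨B₁, g₁⟩ := f₁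
  obtain ⟨B₂, g₂⟩ := f₂
  have eu : ents (u :: T) = Sum.inr u.r :: ents T := by simp [ents, ent, hk]
  have eu' : ents (u' :: T) = Sum.inr u'.r :: ents T := by simp [ents, ent, hk']
  have hl := hw.len
  obtain ⟨B, hB⟩ : ∃ B, ents T = Sum.inl q.c :: (B ++ [Sum.inl p.c]) := by
    cases B₂ with
    | nil =>
      rw [eu, g₂] at hl
      simp at hl
    | cons a B =>
      rw [g₂, List.cons_append] at g₁
      refine ⟨B, ?_⟩
      rw [g₂, List.cons_append]
      rw [List.cons.injEq] at g₁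
      rw [g₁.1]
  rw [eu, eu', hB]
  by_cases hb : u'.r = u.r
  · rw [hb]
    have := hW.refl _ (hC.alt _ hw) hw.nd
    rw [eu, hB] at this
    exact this
  refine hR u.r u'.r p.c q.c B ?_ ?_ ?_ hb ?_
  · have := hC.alt _ hw
    rwa [eu, hB] at this
  · have := hw.nd
    rwa [eu, hB] at this
  · have := hw'.nd
    rw [eu', hB, List.nodup_cons] at this
    intro h
    exact this.1 (by simp [h])
  · intro c r hm hbt
    rw [← hB, ← eu, hM (u :: T) (by simp) hw.st] at hm
    rcases hm with ⟨x, y, hl, rfl, rfl⟩ | ⟨x, hx, hxk, rfl, rfl⟩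
    · exact h₁ x y hl hbt
    · rcases List.mem_cons.1 hx with rfl | hx
      · rw [hk] at hxk
        rcases hxk with h | h <;> exact absurd h (by decide)
      · exact h₂ x hx hxk hbt

end LH


end

section

/-!
# A walk has at least four entries
-/

namespace LH

open Set LG

namespace LEN

/-- The number of the entries of a walk. -/
theorem len_ents {N : ℕ} (P : Pg N) (w : List It) :
    (ents (w.map (pt P))).length = w.countP (fun i => decide (i.k = .R)) +
      w.countP (fun i => decide (i.k = .L)) +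
      2 * w.countP (fun i => decide (i.k = .rt ∨ i.k = .lt)) := by
  induction w with
  | nil => rfl
  | cons i w ih =>
    have h1 : ents ((i :: w).map (pt P)) = ent (pt P i) ++ ents (w.map (pt P)) := by
      unfold ents
      rw [List.map_cons, List.flatMap_cons]
    rw [h1, List.length_append, ih, List.countP_cons, List.countP_cons, List.countP_cons]
    obtain ⟨k, t, e⟩ := i
    cases k <;> simp [ent, pt] <;> omega

theorem adj_pred {Y : Finset ℝ} {a a' t : ℝ} (h : AdjX Y a t) (h' : AdjX Y a' t) : a = a' := by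
  obtain ⟨ha, ht, hlt, hn⟩ := h
  obtain ⟨ha', ht', hlt', hn'⟩ := h'
  rcases lt_trichotomy a a' with h1 | h1 | h1
  · exact absurd ⟨h1, hlt'⟩ (hn a' ha')
  · exact h1
  · exact absurd ⟨h1, hlt⟩ (hn' a ha)

theorem adj_succ {Y : Finset ℝ} {a t t' : ℝ} (h : AdjX Y a t) (h' : AdjX Y a t') : t = t' := by
  obtain ⟨ha, ht, hlt, hn⟩ := h
  obtain ⟨ha', ht', hlt', hn'⟩ := h'
  rcases lt_trichotomy t t' with h1 | h1 | h1
  · exact absurd ⟨hlt, h1⟩ (hn' t ht)
  · exact h1
  · exact absurd ⟨hlt', h1⟩ (hn t' ht')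

/-- The kinds and the lines of an item that is followed by another one. -/
theorem link_R {N : ℕ} {P : Pg N} {Y : Finset ℝ} {i j : It} (h : Lnk P Y i j) (hi : i.k = .R) :
    (j.k = .lt ∨ j.k = .L) ∧ AdjX Y j.t i.t := by
  obtain ⟨hle, htl, hadj, hins, hdir⟩ := h
  rcases hdir with ⟨h1, h2, h3⟩ | ⟨h1, h2, h3⟩
  · rw [hi] at h1; exact absurd h1 id
  · refine ⟨?_, ?_⟩
    · cases hk : j.k with
      | rt => rw [hk] at h2; exact absurd trivial h2
      | lt => exact Or.inl rfl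
      | R => rw [hk] at h2; exact absurd trivial h2
      | L => exact Or.inr rfl
    · rcases hadj with h4 | h4
      · exact absurd h4.2.2.1 (not_lt.mpr h3.le)
      · exact h4

theorem link_L {N : ℕ} {P : Pg N} {Y : Finset ℝ} {i j : It} (h : Lnk P Y i j) (hi : i.k = .L) :
    (j.k = .rt ∨ j.k = .R) ∧ AdjX Y i.t j.t := by
  obtain ⟨hle, htl, hadj, hins, hdir⟩ := h
  rcases hdir with ⟨h1, h2, h3⟩ | ⟨h1, h2, h3⟩
  · refine ⟨?_, ?_⟩
    · cases hk : j.k with
      | rt => exact Or.inl rfl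
      | lt => rw [hk] at h2; exact absurd h2 id
      | R => exact Or.inr rfl
      | L => rw [hk] at h2; exact absurd h2 id
    · rcases hadj with h4 | h4
      · exact h4
      · exact absurd h4.2.2.1 (not_lt.mpr h3.le)
  · rw [hi] at h1; exact absurd trivial h1

theorem link_R' {N : ℕ} {P : Pg N} {Y : Finset ℝ} {i j : It} (h : Lnk P Y i j) (hj : j.k = .R) :
    (i.k = .rt ∨ i.k = .L) ∧ AdjX Y i.t j.t := by
  obtain ⟨hle, htl, hadj, hins, hdir⟩ := h
  rcases hdir with ⟨h1, h2, h3⟩ | ⟨h1, h2, h3⟩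
  · refine ⟨?_, ?_⟩
    · cases hk : i.k with
      | rt => exact Or.inl rfl
      | lt => rw [hk] at h1; exact absurd h1 id
      | R => rw [hk] at h1; exact absurd h1 id
      | L => exact Or.inr rfl
    · rcases hadj with h4 | h4
      · exact h4
      · exact absurd h4.2.2.1 (not_lt.mpr h3.le)
  · rw [hj] at h2; exact absurd trivial h2

theorem link_L' {N : ℕ} {P : Pg N} {Y : Finset ℝ} {i j : It} (h : Lnk P Y i j) (hj : j.k = .L) :
    (i.k = .lt ∨ i.k = .R) ∧ AdjX Y j.t i.t := by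
  obtain ⟨hle, htl, hadj, hins, hdir⟩ := h
  rcases hdir with ⟨h1, h2, h3⟩ | ⟨h1, h2, h3⟩
  · rw [hj] at h2; exact absurd h2 id
  · refine ⟨?_, ?_⟩
    · cases hk : i.k with
      | rt => rw [hk] at h1; exact absurd trivial h1
      | lt => exact Or.inl rfl
      | R => exact Or.inr rfl
      | L => rw [hk] at h1; exact absurd trivial h1
    · rcases hadj with h4 | h4
      · exact absurd h4.2.2.1 (not_lt.mpr h3.le)
      · exact h4

/-- A walk has a right turn. -/
theorem ex_R {N : ℕ} {P : Pg N} {Y : Finset ℝ} {w : List It} {W : ℤ → It} (hS : P_SEQ)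
    (h : Sq P Y w W) : ∃ n, (W n).k = .R := by
  obtain ⟨k, hk, hmax⟩ := (Finset.range w.length).exists_max_image (fun k : ℕ => (W k).t)
    ⟨0, Finset.mem_range.mpr h.ne⟩
  have hm : ∀ n, (W n).t ≤ (W k).t := by
    intro n
    obtain ⟨i, hi, -, -, ht, -⟩ := hS.mem P Y w W h n
    obtain ⟨l, hl, rfl⟩ := List.getElem_of_mem hi
    rw [ht, h.get l hl]
    exact hmax l (Finset.mem_range.mpr hl)
  refine ⟨k, ?_⟩
  have h1 := (h.lnk k).dir
  have h2 := (h.lnk ((k : ℤ) - 1)).dir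
  rw [sub_add_cancel] at h2
  cases hk' : (W k).k with
  | rt =>
    rcases h1 with ⟨-, -, h3⟩ | ⟨h3, -, -⟩
    · exact absurd h3 (not_lt.mpr (hm _))
    · rw [hk'] at h3; exact absurd trivial h3
  | lt =>
    rcases h2 with ⟨-, h3, -⟩ | ⟨-, -, h3⟩
    · rw [hk'] at h3; exact absurd h3 id
    · exact absurd h3 (not_lt.mpr (hm _))
  | R => rfl
  | L =>
    rcases h1 with ⟨-, -, h3⟩ | ⟨h3, -, -⟩
    · exact absurd h3 (not_lt.mpr (hm _))
    · rw [hk'] at h3; exact absurd trivial h3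

/-- A walk has a left turn. -/
theorem ex_L {N : ℕ} {P : Pg N} {Y : Finset ℝ} {w : List It} {W : ℤ → It} (hS : P_SEQ)
    (h : Sq P Y w W) : ∃ n, (W n).k = .L := by
  obtain ⟨k, hk, hmin⟩ := (Finset.range w.length).exists_min_image (fun k : ℕ => (W k).t)
    ⟨0, Finset.mem_range.mpr h.ne⟩
  have hm : ∀ n, (W k).t ≤ (W n).t := by
    intro n
    obtain ⟨i, hi, -, -, ht, -⟩ := hS.mem P Y w W h n
    obtain ⟨l, hl, rfl⟩ := List.getElem_of_mem hi
    rw [ht, h.get l hl]
    exact hmin l (Finset.mem_range.mpr hl)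
  refine ⟨k, ?_⟩
  have h1 := (h.lnk k).dir
  have h2 := (h.lnk ((k : ℤ) - 1)).dir
  rw [sub_add_cancel] at h2
  cases hk' : (W k).k with
  | rt =>
    rcases h2 with ⟨-, -, h3⟩ | ⟨-, h3, -⟩
    · exact absurd h3 (not_lt.mpr (hm _))
    · rw [hk'] at h3; exact absurd trivial h3
  | lt =>
    rcases h1 with ⟨h3, -, -⟩ | ⟨-, -, h3⟩
    · rw [hk'] at h3; exact absurd h3 id
    · exact absurd h3 (not_lt.mpr (hm _))
  | R =>
    rcases h1 with ⟨h3, -, -⟩ | ⟨-, -, h3⟩
    · rw [hk'] at h3; exact absurd h3 id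
    · exact absurd h3 (not_lt.mpr (hm _))
  | L => rfl

/-- A strictly increasing sequence of integers passes every integer. -/
theorem ex_step {e : ℤ → ℤ} (he : ∀ n, e n < e (n + 1)) (m : ℤ) :
    ∃ n, e n < m ∧ m ≤ e (n + 1) := by
  have h1 : ∀ j : ℕ, e 0 + j ≤ e j ∧ e (-j) ≤ e 0 - j := by
    intro j
    induction j with
    | zero => simp
    | succ j ih =>
      have h2 := he j
      have h3 := he (-(j : ℤ) - 1)
      rw [sub_add_cancel] at h3
      have h4 : (-((j + 1 : ℕ) : ℤ)) = -(j : ℤ) - 1 := by push_cast; ring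
      rw [h4]
      push_cast
      constructor
      · linarith [ih.1]
      · linarith [ih.2]
  have hb : ∃ b : ℤ, ∀ z, e z < m → z ≤ b := by
    refine ⟨max (m - e 0) 0, fun z hz => ?_⟩
    rcases le_or_gt z 0 with h | h
    · exact h.trans (le_max_right _ _)
    · have h5 := (h1 z.toNat).1
      rw [Int.toNat_of_nonneg h.le] at h5
      exact le_trans (by linarith) (le_max_left _ _)
  have hi : ∃ z, e z < m := by
    refine ⟨-((e 0 - m).toNat + 1 : ℕ), ?_⟩
    have h5 := (h1 ((e 0 - m).toNat + 1)).2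
    have h6 := Int.self_le_toNat (e 0 - m)
    refine lt_of_le_of_lt h5 ?_
    push_cast
    linarith
  obtain ⟨n, hn, hn'⟩ := Int.exists_greatest_of_bdd hb hi
  refine ⟨n, hn, ?_⟩
  by_contra h
  have := hn' (n + 1) (not_le.mp h)
  linarith

/-- A walk has a passing item. -/
theorem ex_pass {N : ℕ} {P : Pg N} {X Y : Finset ℝ} {w : List It} {W : ℤ → It} (hS : P_SEQ)
    (hX : GoodX P X) (hXY : X ⊆ Y) (h : Sq P Y w W) : ∃ n, (W n).k = .rt ∨ (W n).k = .lt := by
  by_contra hno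
  have hRL : ∀ n, (W n).k = .R ∨ (W n).k = .L := by
    intro n
    cases hk : (W n).k with
    | rt => exact absurd ⟨n, Or.inl hk⟩ hno
    | lt => exact absurd ⟨n, Or.inr hk⟩ hno
    | R => exact Or.inl rfl
    | L => exact Or.inr rfl
  obtain ⟨n0, hn0⟩ := ex_R hS h
  have hR : ∀ n, (W n).k = .R → (W (n + 1)).k = .L ∧ AdjX Y (W (n + 1)).t (W n).t := by
    intro n hn
    have h1 := link_R (h.lnk n) hn
    refine ⟨?_, h1.2⟩
    rcases hRL (n + 1) with h2 | h2
    · rcases h1.1 with h3 | h3 <;> rw [h3] at h2 <;> cases h2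
    · exact h2
  have hL : ∀ n, (W n).k = .L → (W (n + 1)).k = .R ∧ AdjX Y (W n).t (W (n + 1)).t := by
    intro n hn
    have h1 := link_L (h.lnk n) hn
    refine ⟨?_, h1.2⟩
    rcases hRL (n + 1) with h2 | h2
    · exact h2
    · rcases h1.1 with h3 | h3 <;> rw [h3] at h2 <;> cases h2
  have hR' : ∀ n, (W n).k = .R → (W (n - 1)).k = .L ∧ AdjX Y (W (n - 1)).t (W n).t := by
    intro n hn
    have h0 := h.lnk (n - 1)
    rw [sub_add_cancel] at h0
    have h1 := link_R' h0 hn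
    refine ⟨?_, h1.2⟩
    rcases hRL (n - 1) with h2 | h2
    · rcases h1.1 with h3 | h3 <;> rw [h3] at h2 <;> cases h2
    · exact h2
  have hL' : ∀ n, (W n).k = .L → (W (n - 1)).k = .R ∧ AdjX Y (W n).t (W (n - 1)).t := by
    intro n hn
    have h0 := h.lnk (n - 1)
    rw [sub_add_cancel] at h0
    have h1 := link_L' h0 hn
    refine ⟨?_, h1.2⟩
    rcases hRL (n - 1) with h2 | h2
    · exact h2
    · rcases h1.1 with h3 | h3 <;> rw [h3] at h2 <;> cases h2
  have hadj : AdjX Y (W (n0 + 1)).t (W n0).t := (hR n0 hn0).2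
  -- the two lines
  have key : ∀ j : ℕ, (((W (n0 + j)).k = .R ∧ (W (n0 + j)).t = (W n0).t) ∨
      ((W (n0 + j)).k = .L ∧ (W (n0 + j)).t = (W (n0 + 1)).t)) ∧
      (((W (n0 - j)).k = .R ∧ (W (n0 - j)).t = (W n0).t) ∨
      ((W (n0 - j)).k = .L ∧ (W (n0 - j)).t = (W (n0 + 1)).t)) := by
    intro j
    induction j with
    | zero =>
      rw [Nat.cast_zero, add_zero, sub_zero]
      exact ⟨Or.inl ⟨hn0, rfl⟩, Or.inl ⟨hn0, rfl⟩⟩
    | succ j ih =>
      have e1 : n0 + ((j + 1 : ℕ) : ℤ) = n0 + j + 1 := by push_cast; ring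
      have e2 : n0 - ((j + 1 : ℕ) : ℤ) = n0 - j - 1 := by push_cast; ring
      rw [e1, e2]
      constructor
      · rcases ih.1 with ⟨h1, h2⟩ | ⟨h1, h2⟩
        · obtain ⟨h3, h4⟩ := hR _ h1
          rw [h2] at h4
          exact Or.inr ⟨h3, adj_pred h4 hadj⟩
        · obtain ⟨h3, h4⟩ := hL _ h1
          rw [h2] at h4
          exact Or.inl ⟨h3, adj_succ h4 hadj⟩
      · rcases ih.2 with ⟨h1, h2⟩ | ⟨h1, h2⟩
        · obtain ⟨h3, h4⟩ := hR' _ h1
          rw [h2] at h4
          exact Or.inr ⟨h3, adj_pred h4 hadj⟩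
        · obtain ⟨h3, h4⟩ := hL' _ h1
          rw [h2] at h4
          exact Or.inl ⟨h3, adj_succ h4 hadj⟩
  have hall : ∀ n, ((W n).k = .R ∧ (W n).t = (W n0).t) ∨
      ((W n).k = .L ∧ (W n).t = (W (n0 + 1)).t) := by
    intro n
    rcases le_total n0 n with hn | hn
    · have h1 := (key (n - n0).toNat).1
      rw [Int.toNat_of_nonneg (by linarith)] at h1
      have e1 : n0 + (n - n0) = n := by ring
      rwa [e1] at h1
    · have h1 := (key (n0 - n).toNat).2
      rw [Int.toNat_of_nonneg (by linarith)] at h1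
      have e1 : n0 - (n0 - n) = n := by ring
      rwa [e1] at h1
  have hin : ∀ m, (W (n0 + 1)).t < P.x m ∧ P.x m < (W n0).t := by
    intro m
    obtain ⟨n, hn1, hn2⟩ := ex_step (e := fun n => (W n).e)
      (fun n => (h.lnk n).tl (hRL n)) m
    have h1 := (h.lnk n).ins m hn1 hn2
    rcases hall n with ⟨h2, h3⟩ | ⟨h2, h3⟩
    · have h4 := (hR n h2).1
      rcases hall (n + 1) with ⟨h5, h6⟩ | ⟨h5, h6⟩
      · rw [h5] at h4; cases h4
      · rw [h3, h6] at h1
        rcases h1 with ⟨h7, h8⟩ | ⟨h7, h8⟩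
        · exact absurd (h7.trans h8) (not_lt.mpr hadj.2.2.1.le)
        · exact ⟨h7, h8⟩
    · have h4 := (hL n h2).1
      rcases hall (n + 1) with ⟨h5, h6⟩ | ⟨h5, h6⟩
      · rw [h3, h6] at h1
        rcases h1 with ⟨h7, h8⟩ | ⟨h7, h8⟩
        · exact ⟨h7, h8⟩
        · exact absurd (h7.trans h8) (not_lt.mpr hadj.2.2.1.le)
      · rw [h5] at h4; cases h4
  -- the cell of `X`
  obtain ⟨a0, ha0, ha0'⟩ := hX.lo
  obtain ⟨b0, hb0, hb0'⟩ := hX.hi
  have hno2 : ∀ t ∈ X, t ≤ (W (n0 + 1)).t ∨ (W n0).t ≤ t := by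
    intro t ht
    by_contra hc
    rw [not_or, not_le, not_le] at hc
    exact hadj.2.2.2 t (hXY ht) hc
  have hA : (X.filter fun t => t ≤ (W (n0 + 1)).t).Nonempty := by
    refine ⟨a0, Finset.mem_filter.mpr ⟨ha0, ?_⟩⟩
    rcases hno2 a0 ha0 with h1 | h1
    · exact h1
    · exact absurd (ha0' 0) (not_lt.mpr ((hin 0).2.le.trans h1))
  have hB : (X.filter fun t => (W n0).t ≤ t).Nonempty := by
    refine ⟨b0, Finset.mem_filter.mpr ⟨hb0, ?_⟩⟩
    rcases hno2 b0 hb0 with h1 | h1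
    · exact absurd (hb0' 0) (not_lt.mpr (h1.trans (hin 0).1.le))
    · exact h1
  obtain ⟨a, haM, ha⟩ := Finset.exists_max_image _ id hA
  obtain ⟨b, hbM, hb⟩ := Finset.exists_min_image _ id hB
  rw [Finset.mem_filter] at haM hbM
  have hab : AdjX X a b := by
    refine ⟨haM.1, hbM.1, lt_of_le_of_lt haM.2 (lt_of_lt_of_le hadj.2.2.1 hbM.2), ?_⟩
    rintro t ht ⟨h1, h2⟩
    rcases hno2 t ht with h3 | h3
    · exact absurd h1 (not_lt.mpr (ha t (Finset.mem_filter.mpr ⟨ht, h3⟩)))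
    · exact absurd h2 (not_lt.mpr (hb t (Finset.mem_filter.mpr ⟨ht, h3⟩)))
  obtain ⟨i, hi⟩ := (hX.gd a b hab).out
  rcases hi with h1 | h1
  · exact absurd h1 (not_lt.mpr (haM.2.trans (hin i).1.le))
  · exact absurd h1 (not_lt.mpr ((hin i).2.le.trans hbM.2))

end LEN

open _root_.LH.LEN in
theorem t_LEN : Stmt_LEN := by
  intro hS N P X Y w hX hXY hw
  obtain ⟨W, hW⟩ := hS.ex P Y w hw
  have hc : ∀ p : Kd → Prop, ∀ _ : DecidablePred p, (∃ n, p (W n).k) →
      0 < w.countP (fun i => decide (p i.k)) := by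
    rintro p hp ⟨n, hn⟩
    obtain ⟨i, hi, -, hk, -, -⟩ := hS.mem P Y w W hW n
    rw [List.countP_pos_iff]
    refine ⟨i, hi, ?_⟩
    rw [hk] at hn
    exact decide_eq_true hn
  have h1 := hc (fun k => k = .R) (fun _ => inferInstance) (ex_R hS hW)
  have h2 := hc (fun k => k = .L) (fun _ => inferInstance) (ex_L hS hW)
  have h3 := hc (fun k => k = .rt ∨ k = .lt) (fun _ => inferInstance) (ex_pass hS hX hXY hW)
  rw [len_ents]
  omega

end LH


end

section

/-!
# LOC: the cyclic list does not change locally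
-/

namespace LH

open Set LG

namespace LOC

variable {N : ℕ}

theorem ent_c {p : Pt} (h : p.k ≠ .L) : (Sum.inl p.c : En) ∈ ent p := by
  unfold ent
  cases hk : p.k
  · simp
  · simp
  · simp
  · exact absurd hk h

theorem ent_r {p : Pt} (h : p.k ≠ .R) : (Sum.inr p.r : En) ∈ ent p := by
  unfold ent
  cases hk : p.k
  · simp
  · simp
  · exact absurd hk h
  · simp

theorem inl_ent {c : Q} {p : Pt} (h : Sum.inl c ∈ ent p) : p.k ≠ .L ∧ p.c = c := by
  unfold ent at h
  cases hk : p.k <;> simp [hk] at h <;> simp [h]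

theorem inr_ent {r : Q} {p : Pt} (h : Sum.inr r ∈ ent p) : p.k ≠ .R ∧ p.r = r := by
  unfold ent at h
  cases hk : p.k <;> simp [hk] at h <;> simp [h]

theorem lst_eq (P : Pg N) (w : List It) : lst P w = w.flatMap fun i => ent (pt P i) := by
  unfold lst ents
  rw [List.flatMap_map]

theorem inl_lst {P : Pg N} {w : List It} {c : Q} (h : Sum.inl c ∈ lst P w) :
    ∃ i ∈ w, i.k ≠ .L ∧ (pt P i).c = c := by
  rw [lst_eq] at h
  obtain ⟨i, hi, hi'⟩ := List.mem_flatMap.1 h
  exact ⟨i, hi, inl_ent hi'⟩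

theorem inr_lst {P : Pg N} {w : List It} {r : Q} (h : Sum.inr r ∈ lst P w) :
    ∃ i ∈ w, i.k ≠ .R ∧ (pt P i).r = r := by
  rw [lst_eq] at h
  obtain ⟨i, hi, hi'⟩ := List.mem_flatMap.1 h
  exact ⟨i, hi, inr_ent hi'⟩

theorem disj {P : Pg N} {w : List It} (h : (lst P w).Nodup) {i j : It} (hi : i ∈ w) (hj : j ∈ w)
    {x : En} (h1 : x ∈ ent (pt P i)) (h2 : x ∈ ent (pt P j)) : i = j := by
  rw [lst_eq, List.nodup_flatMap] at h
  by_contra hne
  have : Std.Symm (Function.onFun List.Disjoint fun i => ent (pt P i)) :=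
    ⟨fun a b hab => List.Disjoint.symm hab⟩
  have := h.2.forall hi hj hne
  exact this h1 h2

theorem uniq_c {P : Pg N} {w : List It} (h : (lst P w).Nodup) {i j : It} (hi : i ∈ w) (hj : j ∈ w)
    (ki : i.k ≠ .L) (kj : j.k ≠ .L) (he : (pt P i).c = (pt P j).c) : i = j := by
  refine disj h hi hj (x := Sum.inl (pt P i).c) (ent_c ki) ?_
  rw [he]
  exact ent_c kj

theorem uniq_r {P : Pg N} {w : List It} (h : (lst P w).Nodup) {i j : It} (hi : i ∈ w) (hj : j ∈ w)
    (ki : i.k ≠ .R) (kj : j.k ≠ .R) (he : (pt P i).r = (pt P j).r) : i = j := by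
  refine disj h hi hj (x := Sum.inr (pt P i).r) (ent_r ki) ?_
  rw [he]
  exact ent_r kj

/-- The induced map on columns. -/
theorem exC (P P' : Pg N) (w : List It) (h : (lst P w).Nodup) :
    ∃ φ : Q → Q, ∀ i ∈ w, i.k ≠ .L → φ (pt P i).c = (pt P' i).c := by
  classical
  refine ⟨fun c => if hc : ∃ i ∈ w, i.k ≠ .L ∧ (pt P i).c = c then (pt P' hc.choose).c else c, ?_⟩
  intro i hi ki
  have hc : ∃ j ∈ w, j.k ≠ .L ∧ (pt P j).c = (pt P i).c := ⟨i, hi, ki, rfl⟩
  simp only [hc, dite_true]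
  have hs := hc.choose_spec
  rw [uniq_c h hs.1 hi hs.2.1 ki hs.2.2]

/-- The induced map on rows. -/
theorem exR (P P' : Pg N) (w : List It) (h : (lst P w).Nodup) :
    ∃ ψ : Q → Q, ∀ i ∈ w, i.k ≠ .R → ψ (pt P i).r = (pt P' i).r := by
  classical
  refine ⟨fun c => if hc : ∃ i ∈ w, i.k ≠ .R ∧ (pt P i).r = c then (pt P' hc.choose).r else c, ?_⟩
  intro i hi ki
  have hc : ∃ j ∈ w, j.k ≠ .R ∧ (pt P j).r = (pt P i).r := ⟨i, hi, ki, rfl⟩
  simp only [hc, dite_true]
  have hs := hc.choose_spec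
  rw [uniq_r h hs.1 hi hs.2.1 ki hs.2.2]

theorem c_lt (P : Pg N) (i j : It) : (pt P i).c < (pt P j).c ↔
    i.t < j.t ∨ i.t = j.t ∧ P.l i.e i.t < P.l j.e j.t := by
  unfold Pt.c
  rw [Prod.Lex.lt_iff]
  rfl

theorem r_lt (P : Pg N) (i j : It) : (pt P i).r < (pt P j).r ↔
    j.t < i.t ∨ i.t = j.t ∧ P.l i.e i.t < P.l j.e j.t := by
  unfold Pt.r
  rw [Prod.Lex.lt_iff]
  constructor
  · rintro (h | ⟨h1, h2⟩)
    · exact Or.inl (neg_lt_neg_iff.1 h)
    · exact Or.inr ⟨neg_inj.1 h1, h2⟩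
  · rintro (h | ⟨h1, h2⟩)
    · exact Or.inl (neg_lt_neg_iff.2 h)
    · exact Or.inr ⟨neg_inj.2 h1, h2⟩

theorem iso_main (web : P_WEB) (w : List It) (P P' : Pg N) (hA : Alt (lst P w))
    (hN : (lst P w).Nodup)
    (hO : ∀ i ∈ w, ∀ j ∈ w, i.t = j.t → P.l i.e i.t < P.l j.e j.t → P'.l i.e i.t < P'.l j.e j.t) :
    WE (lst P w) (lst P' w) := by
  obtain ⟨φ, hφ⟩ := exC P P' w hN
  obtain ⟨ψ, hψ⟩ := exR P P' w hN
  have h := web.iso (lst P w) φ ψ hA hN
    (by
      intro a b ha hb hab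
      obtain ⟨i, hi, ki, rfl⟩ := inl_lst ha
      obtain ⟨j, hj, kj, rfl⟩ := inl_lst hb
      rw [hφ i hi ki, hφ j hj kj, c_lt]
      rcases (c_lt P i j).1 hab with h | ⟨h1, h2⟩
      · exact Or.inl h
      · exact Or.inr ⟨h1, hO i hi j hj h1 h2⟩)
    (by
      intro a b ha hb hab
      obtain ⟨i, hi, ki, rfl⟩ := inr_lst ha
      obtain ⟨j, hj, kj, rfl⟩ := inr_lst hb
      rw [hψ i hi ki, hψ j hj kj, r_lt]
      rcases (r_lt P i j).1 hab with h | ⟨h1, h2⟩
      · exact Or.inl h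
      · exact Or.inr ⟨h1, hO i hi j hj h1 h2⟩)
  have he : (lst P w).map (Sum.map φ ψ) = lst P' w := by
    rw [lst_eq, lst_eq, List.map_flatMap]
    apply List.flatMap_congr
    intro i hi
    have e1 := hφ i hi
    have e2 := hψ i hi
    unfold ent
    have k1 : (pt P i).k = i.k := rfl
    have k2 : (pt P' i).k = i.k := rfl
    rw [k1, k2]
    cases hk : i.k
    · simp [e1 (by rw [hk]; decide), e2 (by rw [hk]; decide)]
    · simp [e1 (by rw [hk]; decide), e2 (by rw [hk]; decide)]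
    · simp [e1 (by rw [hk]; decide)]
    · simp [e2 (by rw [hk]; decide)]
  rw [he] at h
  exact h

theorem cont_l (F : ℝ → Pg N) (t₀ : ℝ) (h : CtA F t₀) (e : ℤ) (s : ℝ) :
    ContinuousWithinAt (fun t => (F t).l e s) (Icc 0 1) t₀ := by
  unfold Pg.l
  exact (h e).2.2.add ((h e).2.1.mul (continuousWithinAt_const.sub (h e).1))

theorem order (F : ℝ → Pg N) (t₀ : ℝ) (h : CtA F t₀) (w : List It) :
    ∀ᶠ t in nhdsWithin t₀ (Icc 0 1), ∀ i ∈ w, ∀ j ∈ w, i.t = j.t →
      (F t₀).l i.e i.t < (F t₀).l j.e j.t → (F t).l i.e i.t < (F t).l j.e j.t := by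
  have h1 := Filter.eventually_all_finite (List.finite_toSet w)
    (l := nhdsWithin t₀ (Icc 0 1)) (p := fun i t => ∀ j ∈ w, i.t = j.t →
      (F t₀).l i.e i.t < (F t₀).l j.e j.t → (F t).l i.e i.t < (F t).l j.e j.t)
  refine h1.2 ?_
  intro i _
  have h2 := Filter.eventually_all_finite (List.finite_toSet w)
    (l := nhdsWithin t₀ (Icc 0 1)) (p := fun j t => i.t = j.t →
      (F t₀).l i.e i.t < (F t₀).l j.e j.t → (F t).l i.e i.t < (F t).l j.e j.t)
  refine h2.2 ?_
  intro j _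
  by_cases hlt : (F t₀).l i.e i.t < (F t₀).l j.e j.t
  · have := (cont_l F t₀ h i.e i.t).eventually_lt (cont_l F t₀ h j.e j.t) hlt
    filter_upwards [this] with t ht _ _
    exact ht
  · exact Filter.Eventually.of_forall fun t _ h' => absurd h' hlt

end LOC

theorem t_LOC : Stmt_LOC := by
  intro web cwa N F t₀ w _ hF hw
  have hA := cwa.alt _ hw
  have hN := hw.nd
  filter_upwards [LOC.order F t₀ hF w] with t ht
  exact LOC.iso_main web w (F t₀) (F t) hA hN ht

end LH


end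

section

/-!
# Marks of a walk (MK)
-/

namespace LH

open Set LG

namespace MK

/-- The first element of `l` followed by `z`. -/
def nx {α : Type*} : List α → α → α
  | [], z => z
  | a :: _, _ => a

/-- The consecutive pairs of `l` followed by `z`. -/
def lpm {α : Type*} : List α → α → List (α × α)
  | [], _ => []
  | a :: l, z => (a, nx l z) :: lpm l z

theorem lpm_cons {α : Type*} (a : α) (l : List α) (z : α) :
    lpm (a :: l) z = (a, nx l z) :: lpm l z := rfl

theorem nx_cons {α : Type*} (a : α) (l : List α) (z : α) : nx (a :: l) z = a := rfl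

theorem lpm_eq {α : Type*} (l : List α) (z : α) : lpm l z = l.zip (l.tail ++ [z]) := by
  induction l with
  | nil => rfl
  | cons a l ih =>
    cases l with
    | nil => rfl
    | cons b l =>
      rw [lpm, ih]
      simp [nx]

theorem cp_eq {α : Type*} (a : α) (l : List α) : cp (a :: l) = lpm (a :: l) a := by
  rw [lpm_eq, cp]
  simp

/-- The first entry of a point. -/
def hd (p : Pt) : En :=
  match p.k with
  | .rt => Sum.inl p.c
  | .lt => Sum.inr p.r
  | .R => Sum.inl p.c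
  | .L => Sum.inr p.r

/-- The last entry of a point. -/
def ls (p : Pt) : En :=
  match p.k with
  | .rt => Sum.inr p.r
  | .lt => Sum.inl p.c
  | .R => Sum.inl p.c
  | .L => Sum.inr p.r

theorem nx_ents (w : List Pt) (z : Pt) : nx (ents w) (hd z) = hd (nx w z) := by
  cases w with
  | nil => rfl
  | cons p w =>
    rcases p with ⟨k, t, h⟩
    cases k <;> rfl

theorem flat (w : List Pt) (z : Pt) (x y : En) : (x, y) ∈ lpm (ents w) (hd z) ↔
    (∃ p ∈ w, (p.k = .rt ∧ x = Sum.inl p.c ∧ y = Sum.inr p.r) ∨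
      (p.k = .lt ∧ x = Sum.inr p.r ∧ y = Sum.inl p.c)) ∨
    ∃ p q, (p, q) ∈ lpm w z ∧ x = ls p ∧ y = hd q := by
  induction w with
  | nil => simp [ents, lpm]
  | cons p w ih =>
    have h1 := nx_ents w z
    have key : (x, y) ∈ lpm (ents (p :: w)) (hd z) ↔
        ((p.k = .rt ∧ x = Sum.inl p.c ∧ y = Sum.inr p.r) ∨
          (p.k = .lt ∧ x = Sum.inr p.r ∧ y = Sum.inl p.c)) ∨
        (x = ls p ∧ y = hd (nx w z)) ∨ (x, y) ∈ lpm (ents w) (hd z) := by
      have e : ents (p :: w) = ent p ++ ents w := rfl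
      rw [e]
      rcases p with ⟨k, t, h⟩
      cases k
      · have e2 : ent ⟨.rt, t, h⟩ = [Sum.inl (Pt.c ⟨.rt, t, h⟩), Sum.inr (Pt.r ⟨.rt, t, h⟩)] := rfl
        rw [e2]
        simp only [List.cons_append, List.nil_append, lpm_cons, nx_cons, List.mem_cons, Prod.mk.injEq,
          h1, ls]
        simp
      · have e2 : ent ⟨.lt, t, h⟩ = [Sum.inr (Pt.r ⟨.lt, t, h⟩), Sum.inl (Pt.c ⟨.lt, t, h⟩)] := rfl
        rw [e2]
        simp only [List.cons_append, List.nil_append, lpm_cons, nx_cons, List.mem_cons, Prod.mk.injEq,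
          h1, ls]
        simp
      · have e2 : ent ⟨.R, t, h⟩ = [Sum.inl (Pt.c ⟨.R, t, h⟩)] := rfl
        rw [e2]
        simp only [List.cons_append, List.nil_append, lpm_cons, nx_cons, List.mem_cons, Prod.mk.injEq,
          h1, ls]
        simp
      · have e2 : ent ⟨.L, t, h⟩ = [Sum.inr (Pt.r ⟨.L, t, h⟩)] := rfl
        rw [e2]
        simp only [List.cons_append, List.nil_append, lpm_cons, nx_cons, List.mem_cons, Prod.mk.injEq,
          h1, ls]
        simp
    rw [key, ih]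
    constructor
    · rintro (h | ⟨ha, hb⟩ | ⟨q, hq, h⟩ | ⟨a, b, hab, ha, hb⟩)
      · exact Or.inl ⟨p, List.mem_cons_self, h⟩
      · exact Or.inr ⟨p, nx w z, List.mem_cons_self, ha, hb⟩
      · exact Or.inl ⟨q, List.mem_cons_of_mem _ hq, h⟩
      · exact Or.inr ⟨a, b, List.mem_cons_of_mem _ hab, ha, hb⟩
    · rintro (⟨q, hq, h⟩ | ⟨a, b, hab, ha, hb⟩)
      · rcases List.mem_cons.mp hq with hq | hq
        · subst hq; exact Or.inl h
        · exact Or.inr (Or.inr (Or.inl ⟨q, hq, h⟩))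
      · rcases List.mem_cons.mp hab with hq | hq
        · obtain ⟨rfl, rfl⟩ := Prod.mk.inj hq
          exact Or.inr (Or.inl ⟨ha, hb⟩)
        · exact Or.inr (Or.inr (Or.inr ⟨a, b, hq, ha, hb⟩))

theorem ents_cons (a : Pt) (l : List Pt) : ∃ L, ents (a :: l) = hd a :: L := by
  have e : ents (a :: l) = ent a ++ ents l := rfl
  rw [e]
  rcases a with ⟨k, t, h⟩
  cases k
  · exact ⟨_, rfl⟩
  · exact ⟨_, rfl⟩
  · exact ⟨_, rfl⟩
  · exact ⟨_, rfl⟩

theorem cp_ents (w : List Pt) (hw : w ≠ []) (x y : En) : (x, y) ∈ cp (ents w) ↔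
    (∃ p ∈ w, (p.k = .rt ∧ x = Sum.inl p.c ∧ y = Sum.inr p.r) ∨
      (p.k = .lt ∧ x = Sum.inr p.r ∧ y = Sum.inl p.c)) ∨
    ∃ p q, (p, q) ∈ cp w ∧ x = ls p ∧ y = hd q := by
  cases w with
  | nil => exact absurd rfl hw
  | cons a l =>
    obtain ⟨L, hL⟩ := ents_cons a l
    have h1 := flat (a :: l) a x y
    rw [cp_eq, ← h1, hL, cp_eq]

theorem ls_fw (p : Pt) (h : p.k.fw) : ls p = Sum.inr p.r := by
  rcases p with ⟨k, t, h'⟩
  cases k
  · rfl
  · exact absurd h (by simp [Kd.fw])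
  · exact absurd h (by simp [Kd.fw])
  · rfl

theorem ls_nfw (p : Pt) (h : ¬ p.k.fw) : ls p = Sum.inl p.c := by
  rcases p with ⟨k, t, h'⟩
  cases k
  · exact absurd trivial h
  · rfl
  · rfl
  · exact absurd trivial h

theorem hd_ar (p : Pt) (h : p.k.ar) : hd p = Sum.inl p.c := by
  rcases p with ⟨k, t, h'⟩
  cases k
  · rfl
  · exact absurd h (by simp [Kd.ar])
  · rfl
  · exact absurd h (by simp [Kd.ar])

theorem hd_nar (p : Pt) (h : ¬ p.k.ar) : hd p = Sum.inr p.r := by
  rcases p with ⟨k, t, h'⟩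
  cases k
  · exact absurd trivial h
  · rfl
  · exact absurd trivial h
  · rfl

end MK

theorem t_MK : Stmt_MK := by
  intro w hw hst c r
  unfold Mk
  rw [MK.cp_ents w hw, MK.cp_ents w hw]
  constructor
  · rintro ((⟨p, hp, ⟨hk, h1, h2⟩ | ⟨hk, h1, h2⟩⟩ | ⟨p, q, hpq, h1, h2⟩) |
      (⟨p, hp, ⟨hk, h1, h2⟩ | ⟨hk, h1, h2⟩⟩ | ⟨p, q, hpq, h1, h2⟩))
    · exact Or.inr ⟨p, hp, Or.inl hk, Sum.inl.inj h1, Sum.inr.inj h2⟩
    · exact absurd h1 (by simp)
    · rcases hst (p, q) hpq with ⟨a, b, d⟩ | ⟨a, b, d⟩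
      · rw [MK.ls_fw p a] at h1
        exact absurd h1 (by simp)
      · rw [MK.ls_nfw p a] at h1
        rw [MK.hd_nar q b] at h2
        exact Or.inl ⟨q, p, ⟨d, Or.inr hpq⟩, Sum.inl.inj h1, Sum.inr.inj h2⟩
    · exact absurd h1 (by simp)
    · exact Or.inr ⟨p, hp, Or.inr hk, Sum.inl.inj h2, Sum.inr.inj h1⟩
    · rcases hst (p, q) hpq with ⟨a, b, d⟩ | ⟨a, b, d⟩
      · rw [MK.ls_fw p a] at h1
        rw [MK.hd_ar q b] at h2
        exact Or.inl ⟨p, q, ⟨d, Or.inl hpq⟩, Sum.inl.inj h2, Sum.inr.inj h1⟩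
      · rw [MK.ls_nfw p a] at h1
        exact absurd h1 (by simp)
  · rintro (⟨p, q, ⟨hlt, hpq | hqp⟩, rfl, rfl⟩ | ⟨p, hp, hk | hk, rfl, rfl⟩)
    · rcases hst (p, q) hpq with ⟨a, b, d⟩ | ⟨a, b, d⟩
      · exact Or.inr (Or.inr ⟨p, q, hpq, (MK.ls_fw p a).symm, (MK.hd_ar q b).symm⟩)
      · exact absurd hlt (not_lt.mpr d.le)
    · rcases hst (q, p) hqp with ⟨a, b, d⟩ | ⟨a, b, d⟩
      · exact absurd hlt (not_lt.mpr d.le)
      · exact Or.inl (Or.inr ⟨q, p, hqp, (MK.ls_nfw q a).symm, (MK.hd_nar p b).symm⟩)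
    · exact Or.inl (Or.inl ⟨p, hp, Or.inl ⟨hk, rfl, rfl⟩⟩)
    · exact Or.inr (Or.inl ⟨p, hp, Or.inr ⟨hk, rfl, rfl⟩⟩)

end LH


end

section

/-!
# PER: the lines can be made generic
-/

namespace LH

open Set LG

namespace PER

theorem near (E : Set ℝ) (hE : E.Finite) (ε : ℝ) (hε : 0 < ε) (t : ℝ) :
    ∃ s, |s - t| < ε ∧ s ∉ E := by
  have h1 : (Ioo (t - ε) (t + ε)).Infinite := Ioo_infinite (by linarith)
  obtain ⟨s, hs, hsE⟩ := h1.exists_notMem_finite hE
  refine ⟨s, ?_, hsE⟩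
  rw [abs_lt]
  constructor
  · linarith [hs.1]
  · linarith [hs.2]

end PER

theorem t_PER : Stmt_PER := by
  intro seq evf pea N P X w hX hw
  have hN : 0 < N := seq.pos P X w hw.1
  obtain ⟨ε, hε, hσ⟩ := pea P X w hN hX hw
  choose σ h1 h2 using PER.near (Ev P) (evf P hN) ε hε
  obtain ⟨-, hg, hgw, hwe⟩ := hσ σ (fun t _ => h1 t)
  refine ⟨X.image σ, w.map fun i => ⟨i.k, σ i.t, i.e⟩, hg, ?_, hgw, hwe⟩
  intro s hs
  obtain ⟨t, -, rfl⟩ := Finset.mem_image.1 hs
  refine ⟨fun i hi => h2 t (Or.inl ⟨i, hi⟩), fun i j hij hl => h2 t (Or.inr ⟨i, j, hij, hl⟩)⟩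

end LH


end

section

/-!
# RED: removal of many lines
-/

namespace LH

open Set LG

namespace RED

variable {N : ℕ}

/-- Below all vertices there are no items, provided there is a further line below the vertices. -/
theorem low {P : Pg N} {Y : Finset ℝ} {w : List It} {W : ℤ → It} (h : Sq P Y w W) {a s : ℝ}
    (ha : a ∈ Y) (hx : ∀ i, a < P.x i) (hs : s < a) (n : ℤ) : (W n).t ≠ s := by
  intro ht
  have hok := h.ok n
  rcases hk : (W n).k with _ | _ | _ | _
  · have h1 := hok.1 hk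
    have h2 := hx (W n).e
    rw [ht] at h1
    linarith [h1.1]
  · have h1 := hok.2 hk
    have h2 := hx ((W n).e + 1)
    rw [ht] at h1
    linarith [h1.1]
  · have hl := h.lnk (n - 1)
    rw [sub_add_cancel] at hl
    rcases hl.dir with ⟨h1, _, h3⟩ | ⟨_, h2, _⟩
    · rw [ht] at h3
      rcases hk' : (W (n - 1)).k with _ | _ | _ | _
      · have h4 := (h.ok (n - 1)).1 hk'
        have h5 := hx (W (n - 1)).e
        linarith [h4.1]
      · rw [hk'] at h1
        exact h1
      · rw [hk'] at h1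
        exact h1
      · have h4 := hl.tl (Or.inr hk')
        have h5 := hl.ins (W n).e h4 le_rfl
        have h6 := hx (W n).e
        rw [ht] at h5
        rcases h5 with h5 | h5
        · linarith [h5.2]
        · linarith [h5.1, h5.2]
    · rw [hk] at h2
      exact h2 trivial
  · have hl := h.lnk n
    have h4 := hl.tl (Or.inr hk)
    have h5 := hl.ins (W (n + 1)).e h4 le_rfl
    have h6 := hx (W (n + 1)).e
    rcases hl.dir with ⟨_, _, h3⟩ | ⟨h1, _, _⟩
    · rw [ht] at h3 h5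
      have h7 : (W (n + 1)).t ≤ a := by
        rcases hl.adj with h8 | h8
        · rw [ht] at h8
          by_contra h9
          exact h8.2.2.2 a ha ⟨hs, not_le.mp h9⟩
        · rw [ht] at h8
          exact absurd h8.2.2.1 (not_lt.mpr h3.le)
      rcases h5 with h5 | h5
      · linarith [h5.2]
      · linarith [h5.1, h5.2]
    · rw [hk] at h1
      exact h1 trivial

/-- Above all vertices there are no items, provided there is a further line above the vertices. -/
theorem high {P : Pg N} {Y : Finset ℝ} {w : List It} {W : ℤ → It} (h : Sq P Y w W) {b s : ℝ}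
    (hb : b ∈ Y) (hx : ∀ i, P.x i < b) (hs : b < s) (n : ℤ) : (W n).t ≠ s := by
  intro ht
  have hok := h.ok n
  rcases hk : (W n).k with _ | _ | _ | _
  · have h1 := hok.1 hk
    have h2 := hx ((W n).e + 1)
    rw [ht] at h1
    linarith [h1.2]
  · have h1 := hok.2 hk
    have h2 := hx (W n).e
    rw [ht] at h1
    linarith [h1.2]
  · have hl := h.lnk n
    have h4 := hl.tl (Or.inl hk)
    have h5 := hl.ins (W (n + 1)).e h4 le_rfl
    have h6 := hx (W (n + 1)).e
    rcases hl.dir with ⟨h1, _, _⟩ | ⟨_, _, h3⟩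
    · rw [hk] at h1
      exact h1
    · rw [ht] at h3 h5
      have h7 : b ≤ (W (n + 1)).t := by
        rcases hl.adj with h8 | h8
        · rw [ht] at h8
          exact absurd h8.2.2.1 (not_lt.mpr h3.le)
        · rw [ht] at h8
          by_contra h9
          exact h8.2.2.2 b hb ⟨not_le.mp h9, hs⟩
      rcases h5 with h5 | h5
      · linarith [h5.1, h5.2]
      · linarith [h5.1]
  · have hl := h.lnk (n - 1)
    rw [sub_add_cancel] at hl
    rcases hl.dir with ⟨_, h2, _⟩ | ⟨h1, _, h3⟩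
    · rw [hk] at h2
      exact h2
    · rw [ht] at h3
      rcases hk' : (W (n - 1)).k with _ | _ | _ | _
      · rw [hk'] at h1
        exact h1 trivial
      · have h4 := (h.ok (n - 1)).2 hk'
        have h5 := hx (W (n - 1)).e
        linarith [h4.2]
      · have h4 := hl.tl (Or.inl hk')
        have h5 := hl.ins (W n).e h4 le_rfl
        have h6 := hx (W n).e
        rw [ht] at h5
        rcases h5 with h5 | h5
        · linarith [h5.1, h5.2]
        · linarith [h5.1]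
      · rw [hk'] at h1
        exact h1 trivial

theorem adj_erase {Y : Finset ℝ} {a b s : ℝ} (h : AdjX Y a b) (ha : a ≠ s) (hb : b ≠ s) :
    AdjX (Y.erase s) a b :=
  ⟨Finset.mem_erase.mpr ⟨ha, h.1⟩, Finset.mem_erase.mpr ⟨hb, h.2.1⟩, h.2.2.1,
    fun t ht => h.2.2.2 t (Finset.mem_of_mem_erase ht)⟩

theorem sq_erase {P : Pg N} {Y : Finset ℝ} {w : List It} {W : ℤ → It} (h : Sq P Y w W) {s : ℝ}
    (hs : ∀ n, (W n).t ≠ s) : Sq P (Y.erase s) w W where
  ne := h.ne
  per := h.per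
  lnk n :=
    { le := (h.lnk n).le
      tl := (h.lnk n).tl
      adj := (h.lnk n).adj.imp (fun h1 => adj_erase h1 (hs n) (hs (n + 1)))
        (fun h1 => adj_erase h1 (hs (n + 1)) (hs n))
      ins := (h.lnk n).ins
      dir := (h.lnk n).dir }
  ok := h.ok
  get := h.get

/-- The next element of a finite set above `a`. -/
theorem next {Y : Finset ℝ} {a c : ℝ} (ha : a ∈ Y) (hc : c ∈ Y) (hac : a < c) :
    ∃ s, AdjX Y a s ∧ s ≤ c := by
  have hne : (Y.filter (fun t => a < t)).Nonempty := ⟨c, Finset.mem_filter.mpr ⟨hc, hac⟩⟩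
  refine ⟨(Y.filter (fun t => a < t)).min' hne, ⟨ha, ?_, ?_, ?_⟩, ?_⟩
  · exact (Finset.mem_filter.mp (Finset.min'_mem _ hne)).1
  · exact (Finset.mem_filter.mp (Finset.min'_mem _ hne)).2
  · rintro t ht ⟨h1, h2⟩
    exact absurd (Finset.min'_le _ t (Finset.mem_filter.mpr ⟨ht, h1⟩)) (not_le.mpr h2)
  · exact Finset.min'_le _ c (Finset.mem_filter.mpr ⟨hc, hac⟩)

/-- The cell which contains a point outside the set. -/
theorem cell {X : Finset ℝ} {a₀ b₀ s : ℝ} (ha : a₀ ∈ X) (hb : b₀ ∈ X) (h1 : a₀ < s) (h2 : s < b₀)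
    (hs : s ∉ X) : ∃ a b, AdjX X a b ∧ a < s ∧ s < b := by
  have hA : (X.filter (fun t => t < s)).Nonempty := ⟨a₀, Finset.mem_filter.mpr ⟨ha, h1⟩⟩
  have hB : (X.filter (fun t => s < t)).Nonempty := ⟨b₀, Finset.mem_filter.mpr ⟨hb, h2⟩⟩
  have h3 := Finset.mem_filter.mp (Finset.max'_mem _ hA)
  have h4 := Finset.mem_filter.mp (Finset.min'_mem _ hB)
  refine ⟨(X.filter (fun t => t < s)).max' hA, (X.filter (fun t => s < t)).min' hB,
    ⟨h3.1, h4.1, h3.2.trans h4.2, ?_⟩, h3.2, h4.2⟩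
  rintro t ht ⟨h5, h6⟩
  rcases lt_trichotomy t s with h7 | h7 | h7
  · exact absurd (Finset.le_max' _ t (Finset.mem_filter.mpr ⟨ht, h7⟩)) (not_le.mpr h5)
  · exact hs (h7 ▸ ht)
  · exact absurd (Finset.min'_le _ t (Finset.mem_filter.mpr ⟨ht, h7⟩)) (not_le.mpr h6)

end RED

open _root_.LH.RED in
theorem t_RED : Stmt_RED := by
  intro hS hW hC hP N P X Y
  induction Y using Finset.strongInduction with
  | H Y ih =>
    intro w hG hXY hgen hE hyx hcw
    by_cases hsub : Y ⊆ X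
    · have hYX : Y = X := Finset.Subset.antisymm hsub hXY
      rw [hYX] at hE
      exact ⟨w, hE, hyx, hcw, hW.refl _ (hC.alt _ hcw) hcw.nd⟩
    · obtain ⟨s, hsY, hsX⟩ := Finset.not_subset.mp hsub
      obtain ⟨a₀, ha₀, hxa⟩ := hG.lo
      obtain ⟨b₀, hb₀, hxb⟩ := hG.hi
      obtain ⟨W, hsq⟩ := hS.ex P Y w hE
      have hgen' : ∀ r, Gen P (Y.erase r) := fun r t ht => hgen t (Finset.mem_of_mem_erase ht)
      have hXe : ∀ r, r ∉ X → X ⊆ Y.erase r := fun r hr t ht =>
        Finset.mem_erase.mpr ⟨fun h => hr (h ▸ ht), hXY ht⟩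
      rcases lt_trichotomy s a₀ with h1 | h1 | h1
      · exact ih (Y.erase s) (Finset.erase_ssubset hsY) w hG (hXe s hsX) (hgen' s)
          (hS.ew P _ w W (sq_erase hsq (low hsq (hXY ha₀) hxa h1))) hyx hcw
      · exact absurd (h1 ▸ ha₀) hsX
      · rcases lt_trichotomy s b₀ with h2 | h2 | h2
        · obtain ⟨a, b, hab, has, hsb⟩ := cell ha₀ hb₀ h1 h2 hsX
          obtain ⟨s', hs', hs'le⟩ := next (hXY hab.1) hsY has
          have hs'b : s' < b := lt_of_le_of_lt hs'le hsb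
          have hs'X : s' ∉ X := fun h => hab.2.2.2 s' h ⟨hs'.2.2.1, hs'b⟩
          obtain ⟨d, hd, hdb⟩ := next hs'.2.1 (hXY hab.2.1) hs'b
          have hsit : Sit P a b s' d Y w W :=
            { gd := hG.gd a b hab, l := hs', r := hd, db := hdb, sq := hsq, yf := hyx a b hab }
          obtain ⟨w₁, hE₁, hyx₁, hcw₁, hwe₁⟩ :=
            hP P a b s' d X Y w W hsit hgen hG hXY hs'X hyx hcw
          obtain ⟨w', hE', hyx', hcw', hwe'⟩ :=
            ih (Y.erase s') (Finset.erase_ssubset hs'.2.1) w₁ hG (hXe s' hs'X) (hgen' s') hE₁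
              hyx₁ hcw₁
          exact ⟨w', hE', hyx', hcw', hW.trans _ _ _ hwe₁ hwe'⟩
        · exact absurd (h2 ▸ hb₀) hsX
        · exact ih (Y.erase s) (Finset.erase_ssubset hsY) w hG (hXe s hsX) (hgen' s)
            (hS.ew P _ w W (sq_erase hsq (high hsq (hXY hb₀) hxb h2))) hyx hcw

end LH


end

section

/-!
# RPE: representations exist
-/

namespace LH

open Set LG

namespace RPE

/-- Two entries of different kinds. -/
def R {α β : Type*} (p q : α ⊕ β) : Prop := p.isLeft = !q.isLeft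

theorem chain_of_zip {α : Type*} (S : α → α → Prop) (y : α) :
    ∀ (t : List α) (x : α), (∀ p ∈ (x :: t).zip (t ++ [y]), S p.1 p.2) →
      List.IsChain S (x :: (t ++ [y])) := by
  intro t
  induction t with
  | nil =>
      intro x h
      have := h (x, y) (by simp)
      simpa using this
  | cons z t ih =>
      intro x h
      have h1 : S x z := h (x, z) (by simp)
      have h2 : List.IsChain S (z :: (t ++ [y])) :=
        ih z (fun p hp => h p (by
          simp only [List.cons_append, List.zip_cons_cons, List.mem_cons]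
          exact Or.inr hp))
      simpa [List.isChain_cons_cons] using And.intro h1 h2

theorem exists_fl {α β : Type*} : ∀ (n : ℕ) (W : List (α ⊕ β)), W.length ≤ n →
    List.IsChain R W →
    (∀ x ∈ W.head?, x.isLeft = true) → (∀ x ∈ W.getLast?, x.isLeft = false) →
    ∃ L : List (α × β), W = fl L := by
  intro n
  induction n with
  | zero =>
      intro W hW _ _ _
      have : W = [] := List.length_eq_zero_iff.mp (by omega)
      exact ⟨[], by simp [this, fl]⟩
  | succ n ih =>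
      intro W hW hc hh hl
      rcases W with _ | ⟨x, _ | ⟨y, t⟩⟩
      · exact ⟨[], by simp [fl]⟩
      · have h1 := hh x (by simp)
        have h2 := hl x (by simp)
        rw [h1] at h2
        cases h2
      · have hx := hh x (by simp)
        rw [List.isChain_cons_cons] at hc
        obtain ⟨hxy, hc⟩ := hc
        have hy : y.isLeft = false := by
          unfold R at hxy
          rw [hx] at hxy
          cases h : y.isLeft with
          | true => rw [h] at hxy; cases hxy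
          | false => rfl
        rcases x with a | a
        swap
        · cases hx
        rcases y with b | b
        · cases hy
        rcases t with _ | ⟨z, t⟩
        · exact ⟨[(a, b)], by simp [fl]⟩
        · rw [List.isChain_cons_cons] at hc
          obtain ⟨hyz, hc⟩ := hc
          have hz : z.isLeft = true := by
            unfold R at hyz
            cases h : z.isLeft with
            | true => rfl
            | false => rw [h] at hyz; cases hyz
          obtain ⟨L, hL⟩ := ih (z :: t) (by simp only [List.length_cons] at hW ⊢; omega) hc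
            (by intro u hu; simp only [List.head?_cons, Option.mem_def, Option.some.injEq] at hu
                rw [← hu]; exact hz)
            (by intro u hu
                apply hl u
                simpa [List.getLast?_cons_cons] using hu)
          exact ⟨(a, b) :: L, by rw [hL]; simp [fl]⟩

theorem exists_rot {α β : Type*} (W : List (α ⊕ β)) (h0 : W ≠ [])
    (hW : ∀ p ∈ cp W, p.1.isLeft = !p.2.isLeft) :
    ∃ L : List (α × β), (fl L).IsRotated W := by
  rcases W with _ | ⟨x, t⟩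
  · exact absurd rfl h0
  have hz : ∀ p ∈ (x :: t).zip (t ++ [x]), R p.1 p.2 := by
    intro p hp
    apply hW p
    unfold cp
    simpa [List.rotate_cons_succ] using hp
  have hc := chain_of_zip R x t x hz
  by_cases hx : x.isLeft = true
  · have hc1 : List.IsChain R (x :: t) := by
      have : List.IsChain R ((x :: t) ++ [x]) := by simpa using hc
      exact this.left_of_append
    have hlast : ∀ y ∈ (x :: t).getLast?, y.isLeft = false := by
      intro y hy
      have h3 : List.IsChain R ((x :: t) ++ [x]) := by simpa using hc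
      rw [List.isChain_append] at h3
      have h4 := h3.2.2 y hy x (by simp)
      unfold R at h4
      rw [hx] at h4
      simpa using h4
    obtain ⟨L, hL⟩ := exists_fl _ (x :: t) le_rfl hc1
      (by intro u hu; simp only [List.head?_cons, Option.mem_def, Option.some.injEq] at hu
          rw [← hu]; exact hx) hlast
    exact ⟨L, by rw [← hL]⟩
  · have hx' : x.isLeft = false := by simpa using hx
    rcases t with _ | ⟨z, t⟩
    · have := hz (x, x) (by simp)
      unfold R at this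
      simp [hx'] at this
    · have hc' : List.IsChain R (x :: z :: (t ++ [x])) := by simpa using hc
      rw [List.isChain_cons_cons] at hc'
      obtain ⟨hxz, hc2⟩ := hc'
      have hzl : z.isLeft = true := by
        unfold R at hxz
        rw [hx'] at hxz
        cases h : z.isLeft with
        | true => rfl
        | false => rw [h] at hxz; cases hxz
      obtain ⟨L, hL⟩ := exists_fl _ (z :: (t ++ [x])) le_rfl hc2
        (by intro u hu; simp only [List.head?_cons, Option.mem_def, Option.some.injEq] at hu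
            rw [← hu]; exact hzl)
        (by
          intro u hu
          have : (z :: (t ++ [x])).getLast? = some x := by
            rw [← List.cons_append]
            exact List.getLast?_concat
          rw [this] at hu
          simp only [Option.mem_def, Option.some.injEq] at hu
          rw [← hu]; exact hx')
      refine ⟨L, ?_⟩
      rw [← hL]
      have h5 : (z :: (t ++ [x])) = (x :: z :: t).rotate 1 := by
        simp [List.rotate_cons_succ]
      rw [h5]
      exact (List.IsRotated.forall _ _)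

theorem fl_map {α β γ δ : Type*} (f : α → γ) (g : β → δ) (L : List (α × β)) :
    fl (L.map fun p => (f p.1, g p.2)) = (fl L).map (Sum.map f g) := by
  induction L with
  | nil => simp [fl]
  | cons p L ih =>
      have h1 : fl (p :: L) = Sum.inl p.1 :: Sum.inr p.2 :: fl L := by simp [fl]
      have h2 : fl ((f p.1, g p.2) :: L.map fun p => (f p.1, g p.2)) =
          Sum.inl (f p.1) :: Sum.inr (g p.2) :: fl (L.map fun p => (f p.1, g p.2)) := by
        simp [fl]
      rw [List.map_cons, h2, h1, ih]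
      simp

open Classical in
/-- The number of entries of `W` that are images of points below `a`. -/
noncomputable def cnt (i : Q → En) (W : List En) (a : Q) : ℕ :=
  (W.toFinset.filter fun e => ∃ c, e = i c ∧ c < a).card

theorem cnt_lt (i : Q → En) (hi : Function.Injective i) (W : List En) (a b : Q) (ha : i a ∈ W)
    (hab : a < b) : cnt i W a < cnt i W b := by
  classical
  unfold cnt
  apply Finset.card_lt_card
  rw [Finset.ssubset_iff_of_subset]
  · refine ⟨i a, ?_, ?_⟩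
    · simp only [Finset.mem_filter, List.mem_toFinset]
      exact ⟨ha, a, rfl, hab⟩
    · simp only [Finset.mem_filter, List.mem_toFinset]
      rintro ⟨_, c, hc, hca⟩
      rw [← hi hc] at hca
      exact lt_irrefl _ hca
  · intro e he
    simp only [Finset.mem_filter, List.mem_toFinset] at he ⊢
    obtain ⟨h1, c, hc, hca⟩ := he
    exact ⟨h1, c, hc, hca.trans hab⟩

end RPE

theorem t_RPE : Stmt_RPE := by
  intro W hW hnd
  obtain ⟨L, hL⟩ := RPE.exists_rot W hW.1 hW.2
  refine ⟨L.map fun p => ((-(RPE.cnt Sum.inl W p.1 : ℝ)), ((RPE.cnt Sum.inr W p.2 : ℕ) : ℝ)),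
    hnd, fun a => -(RPE.cnt Sum.inl W a : ℝ), fun b => ((RPE.cnt Sum.inr W b : ℕ) : ℝ),
    ?_, ?_, ?_⟩
  · intro a b ha _ hab
    have := RPE.cnt_lt Sum.inl Sum.inl_injective W a b ha hab
    have h2 : (RPE.cnt Sum.inl W a : ℝ) < (RPE.cnt Sum.inl W b : ℝ) := by exact_mod_cast this
    simpa using h2
  · intro a b ha _ hab
    have := RPE.cnt_lt Sum.inr Sum.inr_injective W a b ha hab
    have h2 : (RPE.cnt Sum.inr W a : ℝ) < (RPE.cnt Sum.inr W b : ℝ) := by exact_mod_cast this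
    exact h2
  · have := RPE.fl_map (fun a => -(RPE.cnt Sum.inl W a : ℝ))
      (fun b => ((RPE.cnt Sum.inr W b : ℕ) : ℝ)) L
    rw [this]
    exact hL.map _

end LH


end

section

/-!
# Module RPU: representations are unique up to Legendrian equivalence
-/

namespace LH

open Set LG

namespace RPU

theorem fl_cons {α β : Type*} (p : α × β) (L : List (α × β)) :
    fl (p :: L) = Sum.inl p.1 :: Sum.inr p.2 :: fl L := by
  simp [fl]

theorem fl_nil {α β : Type*} : fl ([] : List (α × β)) = [] := rfl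

theorem fl_append {α β : Type*} (L L' : List (α × β)) : fl (L ++ L') = fl L ++ fl L' := by
  simp [fl]

theorem fl_inj {α β : Type*} : ∀ L L' : List (α × β), fl L = fl L' → L = L'
  | [], [], _ => rfl
  | [], p :: L', h => by rw [fl_cons, fl_nil] at h; simp at h
  | p :: L, [], h => by rw [fl_cons, fl_nil] at h; simp at h
  | p :: L, q :: L', h => by
      rw [fl_cons, fl_cons] at h
      simp only [List.cons.injEq, Sum.inl.injEq, Sum.inr.injEq] at h
      rw [fl_inj L L' h.2.2, Prod.ext h.1 h.2.1]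

theorem fl_split (f g : Q → ℝ) : ∀ (M : List (ℝ × ℝ)) (W : List En),
    fl M = W.map (Sum.map f g) → ∃ L : List (Q × Q), W = fl L ∧ M = L.map (Prod.map f g)
  | [], W, h => by
      rw [fl_nil] at h
      have : W = [] := by simpa using h.symm
      exact ⟨[], by simp [this, fl_nil], rfl⟩
  | p :: M, W, h => by
      rw [fl_cons] at h
      match W, h with
      | [], h => simp at h
      | [x], h => simp at h
      | x :: y :: W, h =>
        simp only [List.map_cons, List.cons.injEq] at h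
        obtain ⟨h1, h2, h3⟩ := h
        obtain ⟨L, hL, hM⟩ := fl_split f g M W h3
        match x, y, h1, h2 with
        | Sum.inl a, Sum.inr b, h1, h2 =>
          refine ⟨(a, b) :: L, by rw [fl_cons, hL], ?_⟩
          simp only [Sum.map_inl, Sum.inl.injEq] at h1
          simp only [Sum.map_inr, Sum.inr.injEq] at h2
          rw [List.map_cons, ← hM]
          rw [Prod.map_apply, ← h1, ← h2]
        | Sum.inr a, _, h1, _ => simp at h1
        | Sum.inl a, Sum.inl b, _, h2 => simp at h2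

theorem rot_even {α β : Type*} : ∀ (k : ℕ) (L L' : List (α × β)), fl L' = (fl L).rotate k →
    ∃ j, L' = L.rotate j
  | 0, L, L', h => ⟨0, by rw [List.rotate_zero] at h ⊢; exact fl_inj _ _ h⟩
  | 1, L, L', h => by
      match L, L', h with
      | [], L', h =>
        refine ⟨0, ?_⟩
        rw [fl_nil, List.rotate_nil] at h
        rw [List.rotate_zero]
        exact fl_inj _ _ h
      | p :: L, [], h =>
        have := congrArg List.length h
        simp [fl_cons, fl_nil] at this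
      | p :: L, q :: L', h =>
        rw [fl_cons, fl_cons, List.rotate_cons_succ, List.rotate_zero] at h
        simp at h
  | k + 2, L, L', h => by
      have h2 : (fl L).rotate 2 = fl (L.rotate 1) := by
        match L with
        | [] => rfl
        | p :: L =>
          rw [fl_cons, List.rotate_cons_succ, List.cons_append, List.rotate_cons_succ,
            List.rotate_zero, List.rotate_cons_succ, List.rotate_zero, fl_append, fl_cons]
          simp [fl_nil]
      rw [show k + 2 = 2 + k by omega, ← List.rotate_rotate, h2] at h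
      obtain ⟨j, hj⟩ := rot_even k _ _ h
      exact ⟨1 + j, by rw [hj, List.rotate_rotate]⟩

theorem mem_fl_fst {α β : Type*} {L : List (α × β)} {p : α × β} (h : p ∈ L) :
    Sum.inl p.1 ∈ fl L := by
  unfold fl
  rw [List.mem_flatMap]
  exact ⟨p, h, by simp⟩

theorem mem_fl_snd {α β : Type*} {L : List (α × β)} {p : α × β} (h : p ∈ L) :
    Sum.inr p.2 ∈ fl L := by
  unfold fl
  rw [List.mem_flatMap]
  exact ⟨p, h, by simp⟩

theorem fl_nodup {α β : Type*} : ∀ {L : List (α × β)}, (fl L).Nodup →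
    (L.map Prod.fst).Nodup ∧ (L.map Prod.snd).Nodup
  | [], _ => by simp
  | p :: L, h => by
      rw [fl_cons, List.nodup_cons, List.nodup_cons] at h
      obtain ⟨h1, h2, h3⟩ := h
      obtain ⟨i1, i2⟩ := fl_nodup h3
      rw [List.map_cons, List.map_cons, List.nodup_cons, List.nodup_cons]
      refine ⟨⟨fun hm => h1 ?_, i1⟩, ⟨fun hm => h2 ?_, i2⟩⟩
      · obtain ⟨q, hq, he⟩ := List.mem_map.1 hm
        rw [← he]
        exact List.mem_cons_of_mem _ (mem_fl_fst hq)
      · obtain ⟨q, hq, he⟩ := List.mem_map.1 hm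
        rw [← he]
        exact mem_fl_snd hq

theorem rot_LEq (L : List (ℝ × ℝ)) (j : ℕ) : LEq L (L.rotate j) := by
  rcases Nat.eq_zero_or_pos L.length with h | h
  · have hL : L = [] := List.length_eq_zero_iff.1 h
    subst hL
    rw [List.rotate_nil]
    exact Relation.EqvGen.refl _
  · rw [← List.rotate_mod]
    have hj : j % L.length ≤ L.length := (Nat.mod_lt _ h).le
    rw [List.rotate_eq_drop_append_take hj]
    have := Mv.rot (L.take (j % L.length)) (L.drop (j % L.length))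
    rw [List.take_append_drop] at this
    exact Relation.EqvGen.rel _ _ this

/-- Change of the representing functions. -/
theorem iso_LEq (L : List (Q × Q)) (hN : (fl L).Nodup) (f g f' g' : Q → ℝ)
    (hf : ∀ a b, Sum.inl a ∈ fl L → Sum.inl b ∈ fl L → a < b → f b < f a)
    (hg : ∀ a b, Sum.inr a ∈ fl L → Sum.inr b ∈ fl L → a < b → g a < g b)
    (hf' : ∀ a b, Sum.inl a ∈ fl L → Sum.inl b ∈ fl L → a < b → f' b < f' a)
    (hg' : ∀ a b, Sum.inr a ∈ fl L → Sum.inr b ∈ fl L → a < b → g' a < g' b) :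
    LEq (L.map (Prod.map f g)) (L.map (Prod.map f' g')) := by
  classical
  obtain ⟨hn1, hn2⟩ := fl_nodup hN
  have hfi : Set.InjOn f {a | Sum.inl a ∈ fl L} := by
    intro a ha b hb hab
    rcases lt_trichotomy a b with h | h | h
    · exact absurd hab (hf a b ha hb h).ne'
    · exact h
    · exact absurd hab (hf b a hb ha h).ne
  have hgi : Set.InjOn g {a | Sum.inr a ∈ fl L} := by
    intro a ha b hb hab
    rcases lt_trichotomy a b with h | h | h
    · exact absurd hab (hg a b ha hb h).ne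
    · exact h
    · exact absurd hab (hg b a hb ha h).ne'
  set F : ℝ → ℝ := fun x => f' (Function.invFunOn f {a | Sum.inl a ∈ fl L} x) with hF
  set G : ℝ → ℝ := fun x => g' (Function.invFunOn g {a | Sum.inr a ∈ fl L} x) with hG
  have hFf : ∀ a, Sum.inl a ∈ fl L → F (f a) = f' a := by
    intro a ha
    simp only [hF]
    rw [hfi.leftInvOn_invFunOn ha]
  have hGg : ∀ a, Sum.inr a ∈ fl L → G (g a) = g' a := by
    intro a ha
    simp only [hG]
    rw [hgi.leftInvOn_invFunOn ha]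
  have hmap : L.map (Prod.map f' g') =
      (L.map (Prod.map f g)).map (fun p => (F p.1, G p.2)) := by
    rw [List.map_map]
    apply List.map_congr_left
    intro p hp
    simp only [Function.comp_apply, Prod.map_fst, Prod.map_snd]
    rw [hFf _ (mem_fl_fst hp), hGg _ (mem_fl_snd hp)]
    rfl
  have hNd : Nd (L.map (Prod.map f g)) := by
    unfold Nd
    rw [List.map_map, List.map_map]
    constructor
    · have : Prod.fst ∘ Prod.map f g = f ∘ (Prod.fst : Q × Q → Q) := rfl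
      rw [this, ← List.map_map]
      apply List.Nodup.map_on _ hn1
      intro x hx y hy hxy
      obtain ⟨p, hp, rfl⟩ := List.mem_map.1 hx
      obtain ⟨q, hq, rfl⟩ := List.mem_map.1 hy
      exact hfi (mem_fl_fst hp) (mem_fl_fst hq) hxy
    · have : Prod.snd ∘ Prod.map f g = g ∘ (Prod.snd : Q × Q → Q) := rfl
      rw [this, ← List.map_map]
      apply List.Nodup.map_on _ hn2
      intro x hx y hy hxy
      obtain ⟨p, hp, rfl⟩ := List.mem_map.1 hx
      obtain ⟨q, hq, rfl⟩ := List.mem_map.1 hy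
      exact hgi (mem_fl_snd hp) (mem_fl_snd hq) hxy
  rw [hmap]
  apply Relation.EqvGen.rel
  apply Mv.iso _ F G hNd
  · intro x hx y hy hxy
    obtain ⟨p, hp, rfl⟩ := List.mem_map.1 hx
    obtain ⟨q, hq, rfl⟩ := List.mem_map.1 hy
    simp only [Prod.map_fst] at hxy ⊢
    rw [hFf _ (mem_fl_fst hp), hFf _ (mem_fl_fst hq)]
    rcases lt_trichotomy p.1 q.1 with h | h | h
    · exact absurd hxy (hf _ _ (mem_fl_fst hp) (mem_fl_fst hq) h).not_gt
    · rw [h] at hxy; exact absurd hxy (lt_irrefl _)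
    · exact hf' _ _ (mem_fl_fst hq) (mem_fl_fst hp) h
  · intro x hx y hy hxy
    obtain ⟨p, hp, rfl⟩ := List.mem_map.1 hx
    obtain ⟨q, hq, rfl⟩ := List.mem_map.1 hy
    simp only [Prod.map_snd] at hxy ⊢
    rw [hGg _ (mem_fl_snd hp), hGg _ (mem_fl_snd hq)]
    rcases lt_trichotomy p.2 q.2 with h | h | h
    · exact hg' _ _ (mem_fl_snd hp) (mem_fl_snd hq) h
    · rw [h] at hxy; exact absurd hxy (lt_irrefl _)
    · exact absurd hxy (hg _ _ (mem_fl_snd hq) (mem_fl_snd hp) h).not_gt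

end RPU

open _root_.LH.RPU in
theorem t_RPU : Stmt_RPU := by
  intro W M M' ⟨hN, f, g, hf, hg, hr⟩ ⟨_, f', g', hf', hg', hr'⟩
  obtain ⟨n, hn⟩ := hr.symm
  obtain ⟨n', hn'⟩ := hr'.symm
  rw [← List.map_rotate] at hn hn'
  obtain ⟨L, hL, hM⟩ := fl_split f g M _ hn.symm
  obtain ⟨L', hL', hM'⟩ := fl_split f' g' M' _ hn'.symm
  have hrot : (W.rotate n).IsRotated (W.rotate n') :=
    (List.IsRotated.forall W n).trans (List.IsRotated.forall W n').symm
  rw [hL, hL'] at hrot
  obtain ⟨k, hk⟩ := hrot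
  obtain ⟨j, hj⟩ := rot_even k L L' hk.symm
  have hmem : ∀ x, x ∈ fl L → x ∈ W := by
    intro x hx
    rw [← hL] at hx
    exact List.mem_rotate.1 hx
  have hNL : (fl L).Nodup := by
    rw [← hL]
    exact List.nodup_rotate.2 hN
  have h1 := iso_LEq L hNL f g f' g'
    (fun a b ha hb => hf a b (hmem _ ha) (hmem _ hb))
    (fun a b ha hb => hg a b (hmem _ ha) (hmem _ hb))
    (fun a b ha hb => hf' a b (hmem _ ha) (hmem _ hb))
    (fun a b ha hb => hg' a b (hmem _ ha) (hmem _ hb))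
  have h2 := rot_LEq (L.map (Prod.map f' g')) j
  rw [← List.map_rotate, ← hj, ← hM'] at h2
  rw [← hM] at h1
  exact Relation.EqvGen.trans _ _ _ h1 h2

end LH


end

section

/-!
# SQO: order of the edges
-/

namespace LH

open Set LG

namespace SQO

variable {N : ℕ} {P : Pg N} {X : Finset ℝ} {w : List It} {W : ℤ → It}

theorem mo (h : Sq P X w W) (n n' : ℤ) (hn : n ≤ n') : (W n).e ≤ (W n').e := by
  induction n', hn using Int.le_induction with
  | base => exact le_refl _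
  | succ m _ ih => exact ih.trans (h.lnk m).le

theorem notturn (h : Sq P X w W) {n n' : ℤ} (he : (W n).e = (W n').e) (m : ℤ) (h1 : n ≤ m)
    (h2 : m < n') : (W m).k = .rt ∨ (W m).k = .lt := by
  have a1 := mo h n m h1
  have a2 := mo h (m + 1) n' (by omega)
  have a3 : ¬ ((W m).k = .R ∨ (W m).k = .L) := by
    intro hk
    have := (h.lnk m).tl hk
    omega
  revert a3
  cases (W m).k <;> simp

theorem step_rt (h : Sq P X w W) {m : ℤ} (hk : (W m).k = .rt) :
    (W (m + 1)).k.ar ∧ (W m).t < (W (m + 1)).t := by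
  rcases (h.lnk m).dir with ⟨_, h2, h3⟩ | ⟨h1, _, _⟩
  · exact ⟨h2, h3⟩
  · rw [hk] at h1
    exact absurd trivial h1

theorem step_lt (h : Sq P X w W) {m : ℤ} (hk : (W m).k = .lt) :
    ¬ (W (m + 1)).k.ar ∧ (W (m + 1)).t < (W m).t := by
  rcases (h.lnk m).dir with ⟨h1, _, _⟩ | ⟨_, h2, h3⟩
  · rw [hk] at h1
    exact h1.elim
  · exact ⟨h2, h3⟩

theorem all_rt (h : Sq P X w W) {n n' : ℤ} (he : (W n).e = (W n').e)
    (hk : (W n).k = .rt) (m : ℤ) (h1 : n ≤ m) (h2 : m < n') : (W m).k = .rt := by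
  induction m, h1 using Int.le_induction with
  | base => exact hk
  | succ m hm ih =>
    have a1 := ih (by omega)
    have a2 := (step_rt h a1).1
    rcases notturn h he (m + 1) (by omega) h2 with a3 | a3
    · exact a3
    · rw [a3] at a2
      exact a2.elim

theorem all_lt (h : Sq P X w W) {n n' : ℤ} (he : (W n).e = (W n').e)
    (hk : (W n).k = .lt) (m : ℤ) (h1 : n ≤ m) (h2 : m < n') : (W m).k = .lt := by
  induction m, h1 using Int.le_induction with
  | base => exact hk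
  | succ m hm ih =>
    have a1 := ih (by omega)
    have a2 := (step_lt h a1).1
    rcases notturn h he (m + 1) (by omega) h2 with a3 | a3
    · rw [a3] at a2
      exact absurd trivial a2
    · exact a3

theorem eq (h : Sq P X w W) (n n' : ℤ) (hn : n < n') (he : (W n).e = (W n').e) :
    (∀ m, n ≤ m → m < n' → (W m).k = .rt ∧ (W m).t < (W (m + 1)).t) ∨
      ∀ m, n ≤ m → m < n' → (W m).k = .lt ∧ (W (m + 1)).t < (W m).t := by
  rcases notturn h he n (le_refl _) hn with hk | hk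
  · left
    intro m h1 h2
    have := all_rt h he hk m h1 h2
    exact ⟨this, (step_rt h this).2⟩
  · right
    intro m h1 h2
    have := all_lt h he hk m h1 h2
    exact ⟨this, (step_lt h this).2⟩

theorem mono_up {n n' : ℤ} (hn : n < n') (hs : ∀ m, n ≤ m → m < n' → (W m).t < (W (m + 1)).t) :
    (W n).t < (W n').t := by
  have key : ∀ m, n + 1 ≤ m → m ≤ n' → (W n).t < (W m).t := by
    intro m hm
    induction m, hm using Int.le_induction with
    | base => intro h2; exact hs n (le_refl _) (by omega)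
    | succ m hm ih =>
      intro h2
      exact (ih (by omega)).trans (hs m (by omega) (by omega))
  exact key n' (by omega) (le_refl _)

theorem mono_dn {n n' : ℤ} (hn : n < n') (hs : ∀ m, n ≤ m → m < n' → (W (m + 1)).t < (W m).t) :
    (W n').t < (W n).t := by
  have key : ∀ m, n + 1 ≤ m → m ≤ n' → (W m).t < (W n).t := by
    intro m hm
    induction m, hm using Int.le_induction with
    | base => intro h2; exact hs n (le_refl _) (by omega)
    | succ m hm ih =>
      intro h2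
      exact (hs m (by omega) (by omega)).trans (ih (by omega))
  exact key n' (by omega) (le_refl _)

theorem lt (h : Sq P X w W) (n n' : ℤ) (hn : n < n') (ht : (W n).t = (W n').t) :
    (W n).e < (W n').e := by
  rcases (mo h n n' hn.le).lt_or_eq with h1 | h1
  · exact h1
  · exfalso
    rcases eq h n n' hn h1 with h2 | h2
    · exact absurd ht (mono_up hn (fun m a b => (h2 m a b).2)).ne
    · exact absurd ht (mono_dn hn (fun m a b => (h2 m a b).2)).ne'

theorem pos (h : Sq P X w W) : 0 < N := by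
  have h1 := h.per 0
  have h2 := lt h 0 (0 + w.length) (by have := h.ne; omega) (by rw [h1]; rfl)
  rw [h1] at h2
  have h3 : ((W 0).sh N).e = (W 0).e + N := rfl
  rw [h3] at h2
  omega

end SQO

/-- SQO -/
theorem t_SQO : Stmt_SQO :=
  ⟨fun _ _ _ _ h => SQO.lt h, fun _ _ _ _ h => SQO.mo h, fun _ _ _ _ h => SQO.eq h,
    fun _ _ _ ⟨_, h⟩ => SQO.pos h⟩

end LH


end

section

/-! Module LH_TEX: good sets of lines with small mesh. -/

open Set LG

namespace LH

theorem TEX.pick (E : Set ℝ) (hE : E.Finite) (a b : ℝ) (hab : a < b) :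
    ∃ s, a < s ∧ s < b ∧ s ∉ E := by
  obtain ⟨s, hs, hsE⟩ := (Set.Ioo_infinite hab).exists_notMem_finite hE
  exact ⟨s, hs.1, hs.2, hsE⟩

theorem TEX.mesh (E : Set ℝ) (hE : E.Finite) (δ : ℝ) (hδ : 0 < δ) :
    ∃ f : ℤ → ℝ, StrictMono f ∧ (∀ k, f k ∉ E) ∧ ∀ k : ℤ, k * δ < f k ∧ f k < (k + 1) * δ := by
  have h1 : ∀ k : ℤ, ∃ s, (k : ℝ) * δ < s ∧ s < ((k : ℝ) + 1) * δ ∧ s ∉ E := fun k =>
    TEX.pick E hE _ _ (by nlinarith)
  choose f hf1 hf2 hf3 using h1
  refine ⟨f, ?_, hf3, fun k => ⟨hf1 k, hf2 k⟩⟩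
  intro j k hjk
  have h2 : (j : ℝ) + 1 ≤ k := by exact_mod_cast hjk
  have h3 : ((j : ℝ) + 1) * δ ≤ k * δ := mul_le_mul_of_nonneg_right h2 hδ.le
  linarith [hf2 j, hf1 k]

theorem t_TEX : Stmt_TEX := by
  intro hEVF hEGX hEXW N P hN hP ε hε
  have hfin := hEVF P hN
  obtain ⟨f, hfm, hfE, hfb⟩ := TEX.mesh (Ev P) hfin (ε / 2) (by linarith)
  obtain ⟨A, hA⟩ := hfin.bddBelow
  obtain ⟨B, hB⟩ := hfin.bddAbove
  have hxE : ∀ i, P.x i ∈ Ev P := fun i => Or.inl ⟨i, rfl⟩
  obtain ⟨K1, hK1⟩ := exists_int_lt (A / (ε / 2) - 1)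
  obtain ⟨K2, hK2⟩ := exists_int_gt (B / (ε / 2))
  have he2 : 0 < ε / 2 := by linarith
  have hf1 : f K1 < A := by
    have h1 := (hfb K1).2
    have h2 : ((K1 : ℝ) + 1) < A / (ε / 2) := by linarith
    have h3 : ((K1 : ℝ) + 1) * (ε / 2) < A := by
      rwa [lt_div_iff₀ he2] at h2
    linarith
  have hf2 : B < f K2 := by
    have h1 := (hfb K2).1
    have h3 : B < (K2 : ℝ) * (ε / 2) := by
      rwa [div_lt_iff₀ he2] at hK2
    linarith
  have hA' : ∀ i, f K1 < P.x i := fun i => lt_of_lt_of_le hf1 (hA (hxE i))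
  have hB' : ∀ i, P.x i < f K2 := fun i => lt_of_le_of_lt (hB (hxE i)) hf2
  obtain ⟨X, hFX, hGX, hXE, s, hsX, i0, j0, hs1, hs2⟩ :=
    hEGX P hN hP ((Finset.Icc K1 K2).image f) (by
      intro s hs
      obtain ⟨k, _, rfl⟩ := Finset.mem_image.1 hs
      exact hfE k)
  have hK : f K1 ≤ f K2 := ((hA' 0).trans (hB' 0)).le
  have hK12 : K1 ≤ K2 := hfm.le_iff_le.1 hK
  have hmem : ∀ k, K1 ≤ k → k ≤ K2 →
      f k ∈ X.filter (fun t => f K1 ≤ t ∧ t ≤ f K2) := by
    intro k h1 h2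
    rw [Finset.mem_filter]
    exact ⟨hFX (Finset.mem_image.2 ⟨k, Finset.mem_Icc.2 ⟨h1, h2⟩, rfl⟩),
      hfm.monotone h1, hfm.monotone h2⟩
  have hlo : ∃ a ∈ X.filter (fun t => f K1 ≤ t ∧ t ≤ f K2), ∀ i, a < P.x i :=
    ⟨f K1, hmem K1 le_rfl hK12, hA'⟩
  have hhi : ∃ b ∈ X.filter (fun t => f K1 ≤ t ∧ t ≤ f K2), ∀ i, P.x i < b :=
    ⟨f K2, hmem K2 hK12 le_rfl, hB'⟩
  have hG : GoodX P (X.filter (fun t => f K1 ≤ t ∧ t ≤ f K2)) := by
    refine ⟨hlo, hhi, ?_⟩
    intro a b hab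
    refine hGX.gd a b ⟨(Finset.mem_filter.1 hab.1).1, (Finset.mem_filter.1 hab.2.1).1,
      hab.2.2.1, ?_⟩
    intro t ht htab
    refine hab.2.2.2 t ?_ htab
    rw [Finset.mem_filter]
    exact ⟨ht, (Finset.mem_filter.1 hab.1).2.1.trans htab.1.le,
      htab.2.le.trans (Finset.mem_filter.1 hab.2.1).2.2⟩
  obtain ⟨w, hw⟩ := hEXW P (X.filter (fun t => f K1 ≤ t ∧ t ≤ f K2)) hN
    (by
      intro t ht i hti
      exact hXE t (Finset.mem_filter.1 ht).1 (Or.inl ⟨i, hti⟩))
    hlo hhi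
    ⟨s, Finset.mem_filter.2 ⟨hsX, (hA' i0).le.trans hs1.le, hs2.le.trans (hB' j0).le⟩,
      i0, j0, hs1, hs2⟩
  refine ⟨_, w, hG, hw, ?_⟩
  intro a b hab
  by_contra hcon
  have hcon' : ε ≤ b - a := not_lt.1 hcon
  have ha := (Finset.mem_filter.1 hab.1).2
  have hb := (Finset.mem_filter.1 hab.2.1).2
  have hk1 : a / (ε / 2) < ((⌊a / (ε / 2)⌋ + 1 : ℤ) : ℝ) := by
    push_cast
    exact Int.lt_floor_add_one _
  have hk2 : ((⌊a / (ε / 2)⌋ + 1 : ℤ) : ℝ) ≤ a / (ε / 2) + 1 := by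
    push_cast
    linarith [Int.floor_le (a / (ε / 2))]
  generalize (⌊a / (ε / 2)⌋ + 1 : ℤ) = k at hk1 hk2
  have h1 : a < k * (ε / 2) := by
    rwa [div_lt_iff₀ he2] at hk1
  have h2 : ((k : ℝ) + 1) * (ε / 2) ≤ a + ε := by
    have h3 : ((k : ℝ) - 1) ≤ a / (ε / 2) := by linarith
    rw [le_div_iff₀ he2] at h3
    linarith
  have h3 := hfb k
  have h4 : a < f k := by linarith
  have h5 : f k < b := by linarith
  have h6 : K1 ≤ k := (hfm.lt_iff_lt.1 (lt_of_le_of_lt ha.1 h4)).le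
  have h7 : k ≤ K2 := (hfm.lt_iff_lt.1 (lt_of_lt_of_le h5 hb.2)).le
  exact hab.2.2.2 (f k) (hmem k h6 h7) ⟨h4, h5⟩

end LH


end

section

/-!
# Part C: TRL, removal of a line
-/

namespace LH

open Set LG

namespace TRL

open Classical in
/-- The number of the points of the line `s`. -/
noncomputable def cnt (s : ℝ) (w : List Pt) : ℕ := w.countP fun p => decide (p.t = s)

theorem rm1_ne {a s d : ℝ} {el er : Pt → ℝ} {p : Pt} (h : p.t ≠ s) : rm1 a s d el er p = some p := by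
  unfold rm1
  rw [if_neg h]

theorem rmv_append (a s d : ℝ) (el er : Pt → ℝ) (A B : List Pt) :
    rmv a s d el er (A ++ B) = rmv a s d el er A ++ rmv a s d el er B := by
  unfold rmv
  exact List.filterMap_append

theorem rmv_cons (a s d : ℝ) (el er : Pt → ℝ) (u : Pt) (B : List Pt) :
    rmv a s d el er (u :: B) = (rm1 a s d el er u).toList ++ rmv a s d el er B := by
  unfold rmv
  rw [List.filterMap_cons]
  cases rm1 a s d el er u <;> rfl

theorem rm1_t {a s d : ℝ} (h₁ : a < s) (h₂ : s < d) {el er : Pt → ℝ} {u v : Pt} (h : u.t = s)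
    (hv : v ∈ (rm1 a s d el er u).toList) : v.t ≠ s := by
  unfold rm1 at hv
  rw [if_pos h] at hv
  rcases u with ⟨k, t, ht⟩
  cases k
  · simp at hv
  · simp at hv
  · simp at hv
    subst hv
    exact h₂.ne'
  · simp at hv
    subst hv
    exact h₁.ne

theorem rmv_id (a s d : ℝ) (el er : Pt → ℝ) (L : List Pt) (h : ∀ v ∈ L, v.t ≠ s) :
    rmv a s d el er L = L := by
  induction L with
  | nil => rfl
  | cons u L ih =>
    rw [rmv_cons, rm1_ne (h u (by simp)), ih fun v hv => h v (by simp [hv])]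
    rfl

theorem cnt_append (s : ℝ) (A B : List Pt) : cnt s (A ++ B) = cnt s A + cnt s B := by
  unfold cnt
  exact List.countP_append

theorem cnt_zero (s : ℝ) (A : List Pt) (h : ∀ v ∈ A, v.t ≠ s) : cnt s A = 0 := by
  unfold cnt
  rw [List.countP_eq_zero]
  intro v hv
  simpa using h v hv

theorem cnt_cons (s : ℝ) (u : Pt) (A : List Pt) (h : u.t = s) : cnt s (u :: A) = cnt s A + 1 := by
  unfold cnt
  rw [List.countP_cons]
  simp [h]

theorem main (hWEB : P_WEB) (hCWA : P_CWA) (hA : P_TRA) (hB : P_TRB) (hC : P_TRC) (N : ℕ) :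
    ∀ (w : List Pt) (a s d : ℝ) (el er : Pt → ℝ), Rem w a s d el er → cnt s w = N →
    WE (ents w) (ents (rmv a s d el er w)) ∧ CW (rmv a s d el er w) := by
  induction N with
  | zero =>
    intro w a s d el er hR hN
    have h0 : ∀ v ∈ w, v.t ≠ s := by
      intro v hv
      have := hN
      unfold cnt at this
      rw [List.countP_eq_zero] at this
      simpa using this v hv
    rw [rmv_id a s d el er w h0]
    exact ⟨hWEB.refl _ (hCWA.alt w hR.cw) hR.cw.nd, hR.cw⟩
  | succ N ih =>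
    intro w a s d el er hR hN
    have hex : {p | p ∈ w ∧ p.t = s}.Nonempty := by
      by_contra hne
      have h0 : cnt s w = 0 := cnt_zero s w fun v hv hvs => hne ⟨v, hv, hvs⟩
      omega
    obtain ⟨u, ⟨huw, hus⟩, hmax⟩ := Set.exists_max_image {p | p ∈ w ∧ p.t = s} (fun p => p.h)
      (w.finite_toSet.subset fun p hp => hp.1) hex
    obtain ⟨A, B, rfl⟩ := List.append_of_mem huw
    have hR' : Rem (u :: (B ++ A)) a s d el er := by
      have := hC A (u :: B) a s d el er hR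
      simpa using this
    have hrot : WE (ents (A ++ u :: B)) (ents (u :: (B ++ A))) := by
      have := (hCWA.rot A (u :: B) hR.cw).2
      simpa using this
    have hm : ∀ v ∈ B ++ A, v.t = s → v.h ≤ u.h := by
      intro v hv hvs
      refine hmax v ⟨?_, hvs⟩
      simp only [List.mem_append, List.mem_cons] at hv ⊢
      tauto
    have hRn := hB u (B ++ A) a s d el er hR' hus hm
    have hWn := hA u (B ++ A) a s d el er hR' hus hm hRn.cw
    have hto : ∀ v ∈ (rm1 a s d el er u).toList, v.t ≠ s := fun v hv =>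
      rm1_t hR.lt₁ hR.lt₂ hus hv
    have hcn : cnt s ((rm1 a s d el er u).toList ++ (B ++ A)) = N := by
      rw [cnt_append, cnt_append, cnt_zero s _ hto]
      rw [cnt_append, cnt_cons s u B hus] at hN
      omega
    obtain ⟨h1, h2⟩ := ih _ a s d el er hRn hcn
    have hrm : rmv a s d el er ((rm1 a s d el er u).toList ++ (B ++ A)) =
        rmv a s d el er (u :: B) ++ rmv a s d el er A := by
      rw [rmv_append, rmv_id a s d el er _ hto, rmv_append, rmv_cons, List.append_assoc]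
    rw [hrm] at h1 h2
    obtain ⟨h3, h4⟩ := hCWA.rot _ _ h2
    rw [rmv_append]
    exact ⟨hWEB.trans _ _ _ (hWEB.trans _ _ _ (hWEB.trans _ _ _ hrot hWn) h1) h4, h3⟩

end TRL

theorem t_TRL : Stmt_TRL := by
  intro hWEB hCWA hA hB hC w a s d el er hR
  exact TRL.main hWEB hCWA hA hB hC _ w a s d el er hR rfl

end LH


end

section

/-!
# WEB: elementary properties of `WE`
-/

namespace LH

open Set LG

namespace WEB

theorem inv_exists {α : Type} [LinearOrder α] (P : α → Prop) (φ : α → α) (f : α → ℝ)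
    (hφ : ∀ a b, P a → P b → a < b → φ a < φ b) :
    ∃ f' : α → ℝ, ∀ a, P a → f' (φ a) = f a := by
  classical
  refine ⟨fun x => if h : ∃ a, P a ∧ φ a = x then f h.choose else 0, fun a ha => ?_⟩
  have h : ∃ b, P b ∧ φ b = φ a := ⟨a, ha, rfl⟩
  have h1 := h.choose_spec
  have h2 : h.choose = a := by
    rcases lt_trichotomy h.choose a with h3 | h3 | h3
    · exact absurd (hφ _ _ h1.1 ha h3) (by rw [h1.2]; exact lt_irrefl _)
    · exact h3
    · exact absurd (hφ _ _ ha h1.1 h3) (by rw [h1.2]; exact lt_irrefl _)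
  have h3 : (if h : ∃ b, P b ∧ φ b = φ a then f h.choose else 0) = f a := by
    rw [dif_pos h, h2]
  exact h3

theorem inj_on {α : Type} [LinearOrder α] (P : α → Prop) (φ : α → α)
    (hφ : ∀ a b, P a → P b → a < b → φ a < φ b) (a b : α) (ha : P a) (hb : P b)
    (h : φ a = φ b) : a = b := by
  rcases lt_trichotomy a b with h3 | h3 | h3
  · exact absurd (hφ _ _ ha hb h3) (by rw [h]; exact lt_irrefl _)
  · exact h3
  · exact absurd (hφ _ _ hb ha h3) (by rw [h]; exact lt_irrefl _)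

theorem lt_of_image {α : Type} [LinearOrder α] (P : α → Prop) (φ : α → α)
    (hφ : ∀ a b, P a → P b → a < b → φ a < φ b) (a b : α) (ha : P a) (hb : P b)
    (h : φ a < φ b) : a < b := by
  rcases lt_trichotomy a b with h3 | h3 | h3
  · exact h3
  · rw [h3] at h
    exact absurd h (lt_irrefl _)
  · exact absurd h (not_lt.2 (hφ _ _ hb ha h3).le)

theorem rp_iso (W : List En) (φ ψ : Q → Q)
    (hφ : ∀ a b, Sum.inl a ∈ W → Sum.inl b ∈ W → a < b → φ a < φ b)
    (hψ : ∀ a b, Sum.inr a ∈ W → Sum.inr b ∈ W → a < b → ψ a < ψ b) (M : List (ℝ × ℝ))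
    (h : Rp W M) : Rp (W.map (Sum.map φ ψ)) M := by
  obtain ⟨hn, f, g, hf, hg, hr⟩ := h
  obtain ⟨f', hf'⟩ := inv_exists (fun a => (Sum.inl a : En) ∈ W) φ f hφ
  obtain ⟨g', hg'⟩ := inv_exists (fun a => (Sum.inr a : En) ∈ W) ψ g hψ
  have hl : ∀ x, (Sum.inl x : En) ∈ W.map (Sum.map φ ψ) → ∃ a, (Sum.inl a : En) ∈ W ∧ φ a = x := by
    intro x hx
    obtain ⟨e, he, hex⟩ := List.mem_map.1 hx
    rcases e with a | b
    · exact ⟨a, he, by simpa using hex⟩
    · simp at hex
  have hrr : ∀ x, (Sum.inr x : En) ∈ W.map (Sum.map φ ψ) → ∃ a, (Sum.inr a : En) ∈ W ∧ ψ a = x := by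
    intro x hx
    obtain ⟨e, he, hex⟩ := List.mem_map.1 hx
    rcases e with a | b
    · simp at hex
    · exact ⟨b, he, by simpa using hex⟩
  refine ⟨?_, f', g', ?_, ?_, ?_⟩
  · refine List.Nodup.map_on ?_ hn
    intro x hx y hy hxy
    rcases x with a | b <;> rcases y with c | d
    · have h1 : φ a = φ c := by simpa using hxy
      rw [inj_on (fun a => (Sum.inl a : En) ∈ W) φ hφ a c hx hy h1]
    · simp at hxy
    · simp at hxy
    · have h1 : ψ b = ψ d := by simpa using hxy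
      rw [inj_on (fun a => (Sum.inr a : En) ∈ W) ψ hψ b d hx hy h1]
  · intro x y hx hy hxy
    obtain ⟨a, ha, rfl⟩ := hl x hx
    obtain ⟨b, hb, rfl⟩ := hl y hy
    rw [hf' a ha, hf' b hb]
    exact hf a b ha hb (lt_of_image (fun a => (Sum.inl a : En) ∈ W) φ hφ a b ha hb hxy)
  · intro x y hx hy hxy
    obtain ⟨a, ha, rfl⟩ := hrr x hx
    obtain ⟨b, hb, rfl⟩ := hrr y hy
    rw [hg' a ha, hg' b hb]
    exact hg a b ha hb (lt_of_image (fun a => (Sum.inr a : En) ∈ W) ψ hψ a b ha hb hxy)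
  · have h1 : (W.map (Sum.map φ ψ)).map (Sum.map f' g') = W.map (Sum.map f g) := by
      rw [List.map_map]
      refine List.map_congr_left fun e he => ?_
      rcases e with a | b
      · simp [hf' a he]
      · simp [hg' b he]
    rw [h1]
    exact hr

theorem rp_rot (A B : List En) (M : List (ℝ × ℝ)) (h : Rp (A ++ B) M) : Rp (B ++ A) M := by
  obtain ⟨hn, f, g, hf, hg, hr⟩ := h
  have hm : ∀ e, e ∈ B ++ A → e ∈ A ++ B := fun e he =>
    List.mem_append.2 (List.mem_append.1 he).symm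
  refine ⟨(List.perm_append_comm.nodup_iff).1 hn, f, g,
    fun a b ha hb => hf a b (hm _ ha) (hm _ hb), fun a b ha hb => hg a b (hm _ ha) (hm _ hb), ?_⟩
  refine hr.trans ?_
  rw [List.map_append, List.map_append]
  exact List.isRotated_append

end WEB

theorem t_WEB : Stmt_WEB := by
  intro hE hU
  refine ⟨?_, ?_, ?_, ?_, ?_, ?_⟩
  · intro W hA hn
    obtain ⟨M, hM⟩ := hE W hA hn
    exact ⟨M, M, hM, hM, Relation.EqvGen.refl _⟩
  · rintro W W' ⟨M, M', h1, h2, h3⟩
    exact ⟨M', M, h2, h1, Relation.EqvGen.symm _ _ h3⟩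
  · rintro W W' W'' ⟨M, M', h1, h2, h3⟩ ⟨N, N', k1, k2, k3⟩
    exact ⟨M, N', h1, k2, Relation.EqvGen.trans _ _ _ h3
      (Relation.EqvGen.trans _ _ _ (hU W' M' N h2 k1) k3)⟩
  · intro A B hA hn
    obtain ⟨M, hM⟩ := hE (A ++ B) hA hn
    exact ⟨M, M, hM, WEB.rp_rot A B M hM, Relation.EqvGen.refl _⟩
  · intro W φ ψ hA hn hφ hψ
    obtain ⟨M, hM⟩ := hE W hA hn
    exact ⟨M, M, hM, WEB.rp_iso W φ ψ hφ hψ M hM, Relation.EqvGen.refl _⟩
  · rintro W W' M M' ⟨N, N', k1, k2, k3⟩ h1 h2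
    exact Relation.EqvGen.trans _ _ _ (hU W M N h1 k1)
      (Relation.EqvGen.trans _ _ _ k3 (hU W' N' M' k2 h2))

end LH


end

section

/-!
# WON: every crossing is an item of the list, up to periods
-/

namespace LH

open Set LG

namespace WON

theorem aux {N : ℕ} {w : List It} {k : Kd} {t : ℝ} {e : ℤ} {I : It} (h : I = ⟨k, t, e⟩)
    (hm : ∃ i ∈ w, ∃ k : ℤ, I.k = i.k ∧ I.t = i.t ∧ I.e = i.e + k * N) :
    ∃ j : ℤ, (⟨k, t, e + j * N⟩ : It) ∈ w := by
  obtain ⟨i, hi, m, h1, h2, h3⟩ := hm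
  rw [h] at h1 h2 h3
  refine ⟨-m, ?_⟩
  have : (⟨k, t, e + -m * N⟩ : It) = i := by
    cases i
    simp only at h1 h2 h3
    subst h1
    subst h2
    rw [h3]
    ring_nf
  rw [this]
  exact hi

end WON

theorem t_WON : Stmt_WON := by
  intro sq N P X w hw t ht e
  obtain ⟨W, hW⟩ := sq.ex P X w hw
  have hc := sq.cov P X w W hW t ht e
  have hm := sq.mem P X w W hW
  constructor
  · intro h1 h2
    obtain ⟨n, hn⟩ := hc.1 h1 h2
    exact WON.aux hn (hm n)
  · intro h1 h2
    obtain ⟨n, hn⟩ := hc.2 h1 h2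
    exact WON.aux hn (hm n)

end LH


end

section

/-!
# ZR1: removal of a zigzag, walking to the right
-/

namespace LH

open Set LG

namespace ZR1

theorem ents_cons (u : Pt) (T : List Pt) : ents (u :: T) = ent u ++ ents T := by
  simp [ents]

theorem ents_append (A B : List Pt) : ents (A ++ B) = ents A ++ ents B := by
  simp [ents]

theorem cp_split {α : Type*} (a : α) (T : List α) (q : α) :
    cp (a :: (T ++ [q])) = ((a :: T).zip (T ++ [q])) ++ [(q, a)] := by
  rw [cp, List.rotate_cons_succ, List.rotate_zero, ← List.cons_append, List.zip_append]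
  · rfl
  · simp

theorem cp_last {α : Type*} (a : α) (T : List α) (q : α) : (q, a) ∈ cp (a :: (T ++ [q])) := by
  rw [cp_split]
  simp

theorem cp_prev {α : Type*} (a : α) (T : List α) (o q : α) :
    (o, q) ∈ cp (a :: ((T ++ [o]) ++ [q])) := by
  have e : (a :: (T ++ [o])).zip ((T ++ [o]) ++ [q]) =
      (a :: T).zip (T ++ [o]) ++ [(o, q)] := by
    rw [← List.cons_append, List.zip_append]
    · rfl
    · simp
  rw [cp_split, e]
  simp

theorem btw_symm {a b x : Q} (h : Btw a b x) : Btw b a x := by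
  rcases h with h | h
  · exact Or.inr h
  · exact Or.inl h

end ZR1

open _root_.LH.ZR1 in
/-- ZR1 -/
theorem t_ZR1 : Stmt_ZR1 := by
  intro hW hC hD hM u v q p B hw hw' hku hkv hb hc
  have hvq : (v, q) ∈ cp (u :: v :: q :: (B ++ [p])) := by
    simp [cp]
  have hpu : (p, u) ∈ cp (u :: v :: q :: (B ++ [p])) := cp_last u (v :: q :: B) p
  have svq : Stp v q := hw.st (v, q) hvq
  have spu : Stp p u := hw.st (p, u) hpu
  have hqk : q.k = .rt ∨ q.k = .R := by
    rcases svq with ⟨_, h, _⟩ | ⟨h, _, _⟩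
    · revert h
      cases q.k <;> simp [Kd.ar]
    · rw [hkv] at h
      exact absurd trivial h
  have hpk : p.k = .rt ∨ p.k = .L := by
    rcases spu with ⟨h, _, _⟩ | ⟨_, h, _⟩
    · revert h
      cases p.k <;> simp [Kd.fw]
    · rw [hku] at h
      exact absurd trivial h
  -- the beginning of the list
  obtain ⟨B₂, g₂⟩ : ∃ B₂, ent q = Sum.inl q.c :: B₂ := by
    rcases hqk with h | h
    · exact ⟨[Sum.inr q.r], by simp [ent, h]⟩
    · exact ⟨[], by simp [ent, h]⟩
  have hl := hw'.len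
  -- the end of the list
  have key : ∃ c₀ B', ents (q :: (B ++ [p])) = Sum.inl q.c :: (B' ++ [Sum.inl c₀, Sum.inr p.r]) ∧
      (v.r < p.r ∧ cyc q.c c₀ u.c ∨ p.r < v.r ∧ cyc c₀ q.c u.c) := by
    rcases hpk with h | h
    · refine ⟨p.c, B₂ ++ ents B, ?_, hc p.c (Or.inl ⟨h, rfl⟩)⟩
      rw [ents_cons, ents_append, g₂]
      simp [ents, ent, h]
    · rcases List.eq_nil_or_concat B with rfl | ⟨B₁, o, rfl⟩
      · exfalso
        have hqp : (q, p) ∈ cp (q :: ([] ++ [p])) := by simp [cp]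
        have h2 : Stp q p := hw'.st (q, p) hqp
        have hqR : q.k = .R := by
          rcases hqk with h' | h'
          · rcases h2 with ⟨_, h3, _⟩ | ⟨h3, _, _⟩
            · rw [h] at h3
              exact absurd h3 (by simp [Kd.ar])
            · rw [h'] at h3
              exact absurd trivial h3
          · exact h'
        simp [ents, ent, h, hqR] at hl
      · rw [List.concat_eq_append] at *
        have hop : (o, p) ∈ cp (u :: v :: q :: (B₁ ++ [o] ++ [p])) :=
          cp_prev u (v :: q :: B₁) o p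
        have sop : Stp o p := hw.st (o, p) hop
        have hok : o.k = .lt ∨ o.k = .R := by
          rcases sop with ⟨_, h', _⟩ | ⟨h', _, _⟩
          · rw [h] at h'
            exact absurd h' (by simp [Kd.ar])
          · revert h'
            cases o.k <;> simp [Kd.fw]
        obtain ⟨B₃, g₃⟩ : ∃ B₃, ent o = B₃ ++ [Sum.inl o.c] := by
          rcases hok with h' | h'
          · exact ⟨[Sum.inr o.r], by simp [ent, h']⟩
          · exact ⟨[], by simp [ent, h']⟩
        refine ⟨o.c, B₂ ++ (ents B₁ ++ B₃), ?_, hc o.c (Or.inr ⟨h, o, hop, rfl⟩)⟩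
        rw [ents_cons, ents_append, ents_append, g₂]
        have e1 : ents [o] = B₃ ++ [Sum.inl o.c] := by rw [← g₃]; simp [ents]
        have e2 : ents [p] = [Sum.inr p.r] := by simp [ents, ent, h]
        rw [e1, e2]
        simp
  obtain ⟨c₀, B', e, hcyc⟩ := key
  have e' : ents (u :: v :: q :: (B ++ [p])) =
      Sum.inl u.c :: Sum.inr v.r :: Sum.inl q.c :: (B' ++ [Sum.inl c₀, Sum.inr p.r]) := by
    rw [ents_cons, ents_cons, e]
    simp [ent, hku, hkv]
  have ha := hC.alt _ hw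
  have hn := hw.nd
  have hm := hM (u :: v :: q :: (B ++ [p])) (by simp) hw.st
  rw [e'] at ha hn
  rw [e, e']
  refine hD u.c v.r q.c c₀ p.r B' ha hn ?_ hcyc
  intro c r hmk hbt
  exfalso
  rw [← e', hm] at hmk
  rcases hmk with ⟨x, y, hl, rfl, rfl⟩ | ⟨x, hx, hxk, rfl, rfl⟩
  · refine hb x ?_ (hC.kl _ hw x y hl).1 (btw_symm hbt)
    rcases hl.2 with h | h
    · exact (List.of_mem_zip h).1
    · exact List.mem_rotate.1 (List.of_mem_zip h).2
  · refine hb x hx ?_ (btw_symm hbt)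
    rcases hxk with h | h <;> rw [h] <;> decide

end LH


end

section

/-!
# ZSH: the heights may be changed by a constant
-/

namespace LH

open Set LG

namespace ZSH

/-- The shift of the heights. -/
noncomputable def sf (c : ℝ) (q : Q) : Q := toLex ((ofLex q).1, (ofLex q).2 + c)

theorem sf_lt (c : ℝ) {a b : Q} (h : a < b) : sf c a < sf c b := by
  unfold sf
  rw [Prod.Lex.toLex_lt_toLex]
  rw [Prod.Lex.lt_iff] at h
  rcases h with h | ⟨h1, h2⟩
  · left
    exact h
  · right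
    exact ⟨h1, by simpa using h2⟩

theorem sf_inj (c : ℝ) : Function.Injective (sf c) := by
  intro a b hab
  rcases lt_trichotomy a b with h | h | h
  · exact absurd hab (sf_lt c h).ne
  · exact h
  · exact absurd hab (sf_lt c h).ne'

theorem zc {N : ℕ} (P P' : Pg N) (hx : P.x = P'.x) (hy : P.y = P'.y) :
    ∃ c : ℝ, ∀ i, P'.z i = P.z i + c := by
  refine ⟨P'.z 0 - P.z 0, ?_⟩
  have hs : ∀ i, P'.z (i + 1) - P.z (i + 1) = P'.z i - P.z i := by
    intro i
    rw [P'.cl i, P.cl i, hx, hy]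
    ring
  intro i
  induction i using Int.induction_on with
  | zero => ring
  | succ i ih =>
    have := hs i
    linarith
  | pred i ih =>
    have := hs (-(i : ℤ) - 1)
    rw [sub_add_cancel] at this
    linarith

theorem lc {N : ℕ} (P P' : Pg N) (hx : P.x = P'.x) (hy : P.y = P'.y) {c : ℝ}
    (hz : ∀ i, P'.z i = P.z i + c) (i : ℤ) (t : ℝ) : P'.l i t = P.l i t + c := by
  unfold Pg.l
  rw [hz, hx, hy]
  ring

theorem ent_map {N : ℕ} (P P' : Pg N) {c : ℝ} (hl : ∀ i t, P'.l i t = P.l i t + c) (i : It) :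
    ent (pt P' i) = (ent (pt P i)).map (Sum.map (sf c) (sf c)) := by
  have h1 : (pt P' i).c = sf c (pt P i).c := by
    unfold pt Pt.c sf
    rw [hl]
    rfl
  have h2 : (pt P' i).r = sf c (pt P i).r := by
    unfold pt Pt.r sf
    rw [hl]
    rfl
  have h3 : (pt P' i).k = (pt P i).k := rfl
  unfold ent
  rw [h3, h1, h2]
  cases (pt P i).k <;> rfl

theorem ents_map {N : ℕ} (P P' : Pg N) {c : ℝ} (hl : ∀ i t, P'.l i t = P.l i t + c)
    (w : List It) :
    ents (w.map (pt P')) = (ents (w.map (pt P))).map (Sum.map (sf c) (sf c)) := by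
  unfold ents
  induction w with
  | nil => rfl
  | cons i w ih =>
    rw [List.map_cons, List.map_cons, List.flatMap_cons, List.flatMap_cons, List.map_append,
      ← ent_map P P' hl, ih]

theorem comp {N : ℕ} (P P' : Pg N) (hx : P.x = P'.x) {a b : ℝ} {p q : ℤ} (h : Comp P' a b p q) :
    Comp P a b p q :=
  ⟨h.le, by rw [hx]; exact h.ins, by rw [hx]; exact h.fst, by rw [hx]; exact h.lst,
    by rw [hx]; exact h.one⟩

theorem compE {N : ℕ} (P P' : Pg N) (hx : P.x = P'.x) {e : ℝ} {p q : ℤ} (h : CompE P' e p q) :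
    CompE P e p q :=
  ⟨h.le, by rw [hx]; exact h.ins, by rw [hx]; exact h.fst, by rw [hx]; exact h.lst,
    by rw [hx]; exact h.one⟩

theorem tyy {N : ℕ} (P P' : Pg N) (hx : P.x = P'.x) (hy : P.y = P'.y) {p q : ℤ} (h : Ty P p q) :
    Ty P' p q := by
  unfold Ty at h ⊢
  rw [hx, hy] at h
  exact h

theorem sep {N : ℕ} (P P' : Pg N) {c : ℝ} (hl : ∀ i t, P'.l i t = P.l i t + c)
    {p q p' q' : ℤ} {t : ℝ} (h : Sep P p q p' q' t) : Sep P' p q p' q' t := by
  unfold Sep at h ⊢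
  simp only [hl, add_lt_add_iff_right]
  exact h

theorem good {N : ℕ} (P P' : Pg N) (hx : P.x = P'.x) (hy : P.y = P'.y) {c : ℝ}
    (hl : ∀ i t, P'.l i t = P.l i t + c) {a b : ℝ} (h : Good P a b) : Good P' a b := by
  refine ⟨h.lt, ?_, ?_, ?_, ?_⟩
  · rw [← hx]
    exact h.av
  · rw [← hx]
    exact h.out
  · intro p q hc
    exact tyy P P' hx hy (h.ty p q (comp P P' hx hc))
  · intro p q p' q' hc hc' h1 h2
    have h3 := h.sep p q p' q' (comp P P' hx hc) (comp P P' hx hc') h1 h2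
    exact ⟨sep P P' hl h3.1, sep P P' hl h3.2⟩

theorem goodX {N : ℕ} (P P' : Pg N) (hx : P.x = P'.x) (hy : P.y = P'.y) {c : ℝ}
    (hl : ∀ i t, P'.l i t = P.l i t + c) {X : Finset ℝ} (h : GoodX P X) : GoodX P' X := by
  refine ⟨?_, ?_, ?_⟩
  · rw [← hx]
    exact h.lo
  · rw [← hx]
    exact h.hi
  · intro a b hab
    exact good P P' hx hy hl (h.gd a b hab)

theorem emb {N : ℕ} (P P' : Pg N) (hx : P.x = P'.x) (hy : P.y = P'.y) {c : ℝ}
    (hl : ∀ i t, P'.l i t = P.l i t + c) (h : Emb P) : Emb P' := by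
  refine ⟨?_, ?_, ?_⟩
  · rw [← hx]
    exact h.nc
  · intro e p q hc
    exact tyy P P' hx hy (h.ty e p q (compE P P' hx hc))
  · intro e p q p' q' hc hc' h1 h2 h3
    rw [← hy]
    apply h.sep e p q p' q' (compE P P' hx hc) (compE P P' hx hc') h1 h2
    rw [hl, hl] at h3
    exact add_right_cancel h3

theorem itOK {N : ℕ} (P P' : Pg N) (hx : P.x = P'.x) {i : It} (h : ItOK P i) : ItOK P' i := by
  unfold ItOK at h ⊢
  rw [← hx]
  exact h

theorem lnk {N : ℕ} (P P' : Pg N) (hx : P.x = P'.x) {X : Finset ℝ} {i j : It}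
    (h : Lnk P X i j) : Lnk P' X i j :=
  ⟨h.le, h.tl, h.adj, by rw [← hx]; exact h.ins, h.dir⟩

theorem gw {N : ℕ} (P P' : Pg N) (hx : P.x = P'.x) {X : Finset ℝ} {w : List It}
    (h : GW P X w) : GW P' X w := by
  obtain ⟨⟨i, w', hw, h1, h2⟩, h3⟩ := h
  exact ⟨⟨i, w', hw, fun j hj => itOK P P' hx (h1 j hj), h2.imp fun a b hab => lnk P P' hx hab⟩,
    h3⟩

theorem cw {N : ℕ} (P P' : Pg N) {c : ℝ} (hl : ∀ i t, P'.l i t = P.l i t + c) {w : List It}
    (h : CW (w.map (pt P))) : CW (w.map (pt P')) := by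
  refine ⟨?_, ?_, ?_⟩
  · rw [ents_map P P' hl]
    exact h.nd.map (Sum.map_injective.mpr ⟨sf_inj c, sf_inj c⟩)
  · have h1 : ∀ R : Pg N, cp (w.map (pt R)) = (cp w).map (Prod.map (pt R) (pt R)) := by
      intro R
      unfold cp
      rw [← List.map_rotate, List.zip_map]
    intro x hx
    rw [h1, List.mem_map] at hx
    obtain ⟨y, hy, rfl⟩ := hx
    have h2 := h.st (Prod.map (pt P) (pt P) y) (by rw [h1]; exact List.mem_map_of_mem hy)
    exact h2
  · rw [ents_map P P' hl, List.length_map]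
    exact h.len

end ZSH

open _root_.LH.ZSH in
theorem t_ZSH : Stmt_ZSH := by
  intro _ hW hC N P P' w hx hy hw
  obtain ⟨c, hz⟩ := zc P P' hx hy
  have hl := lc P P' hx hy hz
  refine ⟨?_, cw P P' hl hw, fun X h => goodX P P' hx hy hl h, fun X h => gw P P' hx h,
    fun h => emb P P' hx hy hl h⟩
  unfold lst
  rw [ents_map P P' hl]
  exact hW.iso _ (sf c) (sf c) (hC.alt _ hw) hw.nd (fun a b _ _ h => sf_lt c h)
    (fun a b _ _ h => sf_lt c h)

end LH


end

section

/-!
# Part C: assembly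
-/

namespace LH

open LG

theorem p_WEB : P_WEB := t_WEB t_RPE t_RPU

theorem p_RM : P_RM := t_RM p_WEB t_RPE

theorem p_CM : P_CM := t_CM p_WEB t_RPE

theorem p_DC1 : P_DC1 := t_DC1 p_WEB t_RPE p_RM

theorem p_DC2 : P_DC2 := t_DC2 p_WEB t_RPE p_RM

theorem p_DR1 : P_DR1 := t_DR1 p_WEB t_RPE p_CM

theorem p_DR2 : P_DR2 := t_DR2 p_WEB t_RPE p_CM

theorem p_CWA : P_CWA := t_CWA p_WEB

theorem p_DEL : P_DEL := t_DEL p_WEB p_CWA p_DC1 p_DC2 t_MK

theorem p_FRM : P_FRM := t_FRM p_WEB p_CWA p_CM t_MK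

theorem p_FLM : P_FLM := t_FLM p_WEB p_CWA p_RM t_MK

theorem p_ZR1 : P_ZR1 := t_ZR1 p_WEB p_CWA p_DC1 t_MK

theorem p_ZR2 : P_ZR2 := t_ZR2 p_WEB p_CWA p_DC2 t_MK

theorem p_RTR : P_RTR := t_RTR p_WEB p_CWA p_DC1 p_DR1 t_MK

theorem p_RTL : P_RTL := t_RTL p_WEB p_CWA p_DC1 p_DR1 t_MK

theorem p_LWR : P_LWR := t_LWR p_WR

theorem p_LWP : P_LWP := t_LWP p_LWR

theorem p_WZR : P_WZR := t_WZR p_LEQ p_LWR p_LWP p_WEB p_CWA p_DC1 p_DR2 t_MK

theorem p_WZL : P_WZL := t_WZL p_LEQ p_LWR p_LWP p_WEB p_CWA p_DC2 p_DR2 t_MK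

theorem p_TRA : P_TRA := t_TRA p_WEB p_CWA p_DEL p_FRM p_FLM

theorem p_TRB : P_TRB := t_TRB p_CWA

theorem p_TRC : P_TRC := t_TRC p_CWA

theorem p_TRL : P_TRL := t_TRL p_WEB p_CWA p_TRA p_TRB p_TRC

theorem p_PGB : P_PGB := t_PGB

theorem p_INC : P_INC := t_INC p_PGB

theorem p_CMP : P_CMP := t_CMP p_PGB

theorem p_SEQ : P_SEQ where
  ex := (t_SEQ p_PGB).1
  ew := (t_SEQ p_PGB).2.1
  rot := (t_SEQ p_PGB).2.2.1
  pos := fun P X w h => t_SQO.2.2.2 P X w ((t_SEQ p_PGB).1 P X w h)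
  cp := (t_SEQ p_PGB).2.2.2.1
  mem := (t_SEQ p_PGB).2.2.2.2
  lt := t_SQO.1
  mo := t_SQO.2.1
  eq := t_SQO.2.2.1
  cov := t_COV

theorem p_WON : P_WON := t_WON p_SEQ

theorem p_ITM : P_ITM := t_ITM p_PGB p_INC p_CMP p_SEQ

theorem p_STD : P_STD := t_STD p_PGB p_CMP p_SEQ p_ITM

theorem p_STI : P_STI := t_STI p_PGB p_INC p_CMP p_SEQ

theorem p_STA : P_STA := t_STA p_PGB p_CMP p_SEQ p_ITM p_STD p_STI t_RFL

theorem p_RMP : P_RMP := t_RMP p_PGB p_CMP p_SEQ p_CWA p_STA

theorem p_EWP : P_EWP := t_EWP p_SEQ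

theorem p_LEN : P_LEN := t_LEN p_SEQ

theorem p_PH1 : P_PH1 := t_PH1 p_SEQ p_TRL p_RMP p_EWP p_LEN

theorem p_RED : P_RED := t_RED p_SEQ p_WEB p_CWA p_PH1

theorem p_ZRM : P_ZRM := t_ZRM p_PGB p_CMP p_SEQ p_WEB p_CWA p_ZR1 p_ZR2 p_LEN

theorem p_ZAL : P_ZAL := t_ZAL p_WEB p_CWA p_ZRM

theorem p_GYF : P_GYF := t_GYF p_PGB p_CMP p_SEQ

theorem p_CWG : P_CWG := t_CWG p_PGB p_CMP p_SEQ p_LEN p_GYF

theorem p_CWP : P_CWP := t_CWP p_PGB p_CMP p_SEQ p_LEN

theorem p_NXT : P_NXT := t_NXT p_SEQ p_LEN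

theorem p_UNI : P_UNI := t_UNI p_PGB p_CMP p_SEQ p_WEB p_CWA p_CWG p_GYF p_NXT

theorem p_EXW : P_EXW := t_EXW

theorem p_EVF : P_EVF := t_EVF p_PGB

theorem p_FGC : P_FGC := t_FGC p_PGB

theorem p_EGX : P_EGX := t_EGX p_EVF p_FGC

theorem p_TEX : P_TEX := t_TEX p_EVF p_EGX p_EXW

theorem p_PEA : P_PEA := t_PEA p_PGB p_CMP p_SEQ p_WEB p_CWA p_CWG

theorem p_PER : P_PER := t_PER p_SEQ p_EVF p_PEA

theorem p_IN1 : P_IN1 :=
  t_IN1 p_SEQ p_WEB p_CWA p_EXW p_CWP p_GYF p_RED p_ZAL p_UNI p_PER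

theorem p_OPG : P_OPG := t_OPG p_PGB p_CMP

theorem p_OPW : P_OPW := t_OPW p_PGB

theorem p_LOC : P_LOC := t_LOC p_WEB p_CWA

theorem p_ZSH : P_ZSH := t_ZSH p_PGB p_WEB p_CWA

theorem inv : T_INV :=
  t_INV p_SEQ p_WEB p_CWA p_EXW p_EGX p_IN1 p_OPG p_OPW p_LOC p_ZSH p_CWG

end LH


end

section

/-!
# The distance of far pairs of points of the knots of a family
-/

namespace LHS

open Set LH LC Filter
open scoped ContDiff Topology

namespace SGM

theorem shift (Λ : LegKnot) (u : ℝ) (k : ℤ) : Λ.γ (u + k) = Λ.γ u := by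
  have hp : Function.Periodic Λ.γ 1 := Λ.periodic
  have h := hp.int_mul k u
  rwa [mul_one] at h

/-- The distance of two points. -/
noncomputable def g (K : ℝ → LegKnot) (q : ℝ × ℝ × ℝ) : ℝ :=
  ‖(K q.1).γ q.2.1 - (K q.1).γ (q.2.1 + q.2.2)‖

theorem g_cont (K : ℝ → LegKnot)
    (hK : ContinuousOn (fun q : ℝ × ℝ => (K q.1).γ q.2) (Icc 0 1 ×ˢ univ)) (ρ : ℝ) :
    ContinuousOn (g K) (Icc (0 : ℝ) 1 ×ˢ (Icc (0 : ℝ) 1 ×ˢ Icc ρ (1 - ρ))) := by
  unfold g
  refine ContinuousOn.norm (ContinuousOn.sub ?_ ?_)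
  · have h1 : ContinuousOn (fun q : ℝ × ℝ × ℝ => ((q.1, q.2.1) : ℝ × ℝ))
        (Icc (0 : ℝ) 1 ×ˢ (Icc (0 : ℝ) 1 ×ˢ Icc ρ (1 - ρ))) := by fun_prop
    exact hK.comp h1 fun q hq => ⟨hq.1, mem_univ _⟩
  · have h1 : ContinuousOn (fun q : ℝ × ℝ × ℝ => ((q.1, q.2.1 + q.2.2) : ℝ × ℝ))
        (Icc (0 : ℝ) 1 ×ˢ (Icc (0 : ℝ) 1 ×ˢ Icc ρ (1 - ρ))) := by fun_prop
    exact hK.comp h1 fun q hq => ⟨hq.1, mem_univ _⟩

theorem g_pos (K : ℝ → LegKnot) {ρ t u d : ℝ} (hρ : 0 < ρ) (hd : ρ ≤ d) (hd' : d ≤ 1 - ρ) :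
    0 < g K (t, u, d) := by
  unfold g
  rw [norm_pos_iff, sub_ne_zero]
  intro h
  obtain ⟨k, hk⟩ := (K t).injective _ _ h
  have hk' : (k : ℝ) = d := by
    have h' : u + d = u + k := hk
    linarith
  have h1 : (0 : ℝ) < k := by rw [hk']; linarith
  have h2 : (k : ℝ) < 1 := by rw [hk']; linarith
  have h3 : 0 < k := by exact_mod_cast h1
  have h4 : k < 1 := by exact_mod_cast h2
  omega

end SGM

theorem t_SGM : Stmt_SGM := by
  intro _ hC K hK ρ hρ
  have hcont := (hC K hK).1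
  by_cases hr : 1 - ρ < ρ
  · refine ⟨1, one_pos, fun t _ u v h1 h2 => ?_⟩
    linarith
  rw [not_lt] at hr
  have hcomp : IsCompact (Icc (0 : ℝ) 1 ×ˢ (Icc (0 : ℝ) 1 ×ˢ Icc ρ (1 - ρ))) :=
    isCompact_Icc.prod (isCompact_Icc.prod isCompact_Icc)
  have hne : (Icc (0 : ℝ) 1 ×ˢ (Icc (0 : ℝ) 1 ×ˢ Icc ρ (1 - ρ))).Nonempty :=
    ⟨(0, 0, ρ), ⟨left_mem_Icc.2 zero_le_one, left_mem_Icc.2 zero_le_one, left_mem_Icc.2 hr⟩⟩
  obtain ⟨⟨t0, u0, d0⟩, hq0, hmin⟩ := hcomp.exists_isMinOn hne (SGM.g_cont K hcont ρ)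
  refine ⟨SGM.g K (t0, u0, d0), SGM.g_pos K hρ hq0.2.2.1 hq0.2.2.2, fun t ht u v h1 h2 => ?_⟩
  have hmem : ((t, Int.fract u, v - u) : ℝ × ℝ × ℝ) ∈
      Icc (0 : ℝ) 1 ×ˢ (Icc (0 : ℝ) 1 ×ˢ Icc ρ (1 - ρ)) :=
    ⟨ht, ⟨Int.fract_nonneg u, (Int.fract_lt_one u).le⟩, ⟨h1, h2⟩⟩
  have hle : SGM.g K (t0, u0, d0) ≤ SGM.g K (t, Int.fract u, v - u) := hmin hmem
  have e1 : (K t).γ (Int.fract u) = (K t).γ u := by
    rw [← SGM.shift (K t) (Int.fract u) ⌊u⌋, add_comm, Int.floor_add_fract]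
  have e2 : (K t).γ (Int.fract u + (v - u)) = (K t).γ v := by
    rw [← SGM.shift (K t) (Int.fract u + (v - u)) ⌊u⌋]
    have : Int.fract u + (v - u) + (⌊u⌋ : ℝ) = v := by
      have := Int.floor_add_fract u
      linarith
    rw [this]
  have e3 : SGM.g K (t, Int.fract u, v - u) =
      max |(K t).x u - (K t).x v| (max |(K t).y u - (K t).y v| |zc (K t) u - zc (K t) v|) := by
    unfold SGM.g
    change ‖(K t).γ (Int.fract u) - (K t).γ (Int.fract u + (v - u))‖ = _
    rw [e1, e2]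
    rfl
  rw [e3, le_max_iff, le_max_iff] at hle
  exact hle

end LHS


end

section

/-! Module LHS_HLN: the edges of a component over `e` have the same height at `e`. -/

open Set LH LC Filter
open scoped ContDiff Topology

namespace LHS

theorem HLN.aux {N : ℕ} (P : Pg N) (e : ℝ) (p q : ℤ) (h : CompE P e p q) :
    ∀ k : ℕ, p + 1 + k ≤ q → P.z (p + 1 + k) = P.z (p + 1) := by
  intro k
  induction k with
  | zero =>
    intro _
    simp
  | succ k ih =>
    intro hk
    push_cast at hk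
    have h1 := ih (by omega)
    have h2 := P.cl (p + 1 + k)
    have h3 : P.x (p + 1 + k) = e := h.ins _ (by omega) (by omega)
    have h4 : P.x (p + 1 + k + 1) = e := h.ins _ (by omega) (by omega)
    rw [h3, h4, sub_self, mul_zero, add_zero, h1] at h2
    push_cast
    rw [← add_assoc]
    exact h2

theorem t_HLN : Stmt_HLN := by
  intro N P e p q h i hi
  rcases eq_or_lt_of_le hi.1 with h0 | h0
  · rw [h0]
  · have h1 : P.x i = e := h.ins i h0 hi.2
    have h2 : P.x (p + 1) = e := h.ins (p + 1) (by omega) (by have := hi.2; omega)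
    have h3 := P.cl p
    have h4 : P.z i = P.z (p + 1) := by
      have h5 := HLN.aux P e p q h (i - (p + 1)).toNat (by have := hi.2; omega)
      have h6 : p + 1 + ((i - (p + 1)).toNat : ℤ) = i := by omega
      rw [h6] at h5
      exact h5
    unfold Pg.l
    rw [h1, sub_self, mul_zero, add_zero, h4, h3, h2]

end LHS


end

section

/-!
# YMO: the slopes are strictly monotone where `|x'|` is small
-/

namespace LHS

open Set LH LC Filter
open scoped ContDiff Topology

namespace YMO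

/-- A continuous function of absolute value at least `η` on an interval has a constant sign. -/
theorem sign {f : ℝ → ℝ} (hf : Continuous f) {a b η : ℝ} (hη : 0 < η)
    (h : ∀ u ∈ Icc a b, η ≤ |f u|) :
    (∀ u ∈ Icc a b, η ≤ f u) ∨ ∀ u ∈ Icc a b, f u ≤ -η := by
  by_contra hc
  rw [not_or] at hc
  obtain ⟨h1, h2⟩ := hc
  push Not at h1 h2
  obtain ⟨u, hu, hu2⟩ := h1
  obtain ⟨v, hv, hv2⟩ := h2
  have h3 : f u ≤ -η := by
    rcases le_abs.mp (h u hu) with h4 | h4 <;> linarith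
  have h4 : η ≤ f v := by
    rcases le_abs.mp (h v hv) with h5 | h5 <;> linarith
  have h5 := isPreconnected_Icc.intermediate_value hu hv hf.continuousOn
  obtain ⟨w, hw, hw2⟩ := h5 ⟨(by linarith : f u ≤ 0), (by linarith : (0 : ℝ) ≤ f v)⟩
  have h6 := h w hw
  rw [hw2, abs_zero] at h6
  linarith

theorem mean {f f' : ℝ → ℝ} (hf : ∀ u, HasDerivAt f (f' u) u) {a b : ℝ} (hab : a < b) :
    ∃ ξ ∈ Ioo a b, f b - f a = f' ξ * (b - a) := by
  obtain ⟨ξ, hξ, h⟩ := exists_hasDerivAt_eq_slope f f' hab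
    (fun u _ => (hf u).continuousAt.continuousWithinAt) (fun u _ => hf u)
  refine ⟨ξ, hξ, ?_⟩
  rw [h, div_mul_cancel₀]
  linarith

/-- The variation of the differences of the vertices. -/
theorem diffs {Λ : LegKnot} {M η c : ℝ} (hB : Bd Λ M η c) (hx : ∀ u, HasDerivAt Λ.x (deriv Λ.x u) u)
    (hM : 0 ≤ M) {N : ℕ} (hN : 1 ≤ N) (i : ℤ) :
    |(x0 Λ N (i + 1 + 1) - x0 Λ N (i + 1)) - (x0 Λ N (i + 1) - x0 Λ N i)| ≤
      2 * M / (N : ℝ) ^ 2 := by
  have hn : (0 : ℝ) < N := by exact_mod_cast hN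
  have e1 : (i : ℝ) / N < ((i : ℝ) + 1) / N := by
    apply div_lt_div_of_pos_right _ hn
    linarith
  have e2 : ((i : ℝ) + 1) / N < ((i : ℝ) + 1 + 1) / N := by
    apply div_lt_div_of_pos_right _ hn
    linarith
  obtain ⟨ξ, hξ, h1⟩ := mean hx e1
  obtain ⟨ζ, hζ, h2⟩ := mean hx e2
  have l1 : ((i : ℝ) + 1) / N - (i : ℝ) / N = 1 / N := by ring
  have l2 : ((i : ℝ) + 1 + 1) / N - ((i : ℝ) + 1) / N = 1 / N := by ring
  rw [l1] at h1
  rw [l2] at h2
  have h3 : (x0 Λ N (i + 1 + 1) - x0 Λ N (i + 1)) - (x0 Λ N (i + 1) - x0 Λ N i) =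
      (deriv Λ.x ζ - deriv Λ.x ξ) * (1 / N) := by
    unfold x0
    push_cast
    rw [h1, h2]
    ring
  rw [h3, abs_mul, abs_of_pos (by positivity : (0 : ℝ) < 1 / N)]
  have h4 : |ζ - ξ| ≤ 2 / N := by
    rw [abs_le]
    have h5 : ((i : ℝ) + 1 + 1) / N - (i : ℝ) / N = 2 / N := by ring
    have h6 : (0 : ℝ) < 2 / N := by positivity
    constructor
    · linarith [hξ.2, hζ.1]
    · linarith [hξ.1, hζ.2]
  calc |deriv Λ.x ζ - deriv Λ.x ξ| * (1 / N) ≤ (M * |ζ - ξ|) * (1 / N) :=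
        mul_le_mul_of_nonneg_right (hB.xd ζ ξ) (by positivity)
    _ ≤ (M * (2 / N)) * (1 / N) := by
        apply mul_le_mul_of_nonneg_right _ (by positivity)
        exact mul_le_mul_of_nonneg_left h4 hM
    _ = 2 * M / (N : ℝ) ^ 2 := by
        field_simp

end YMO

theorem t_YMO : Stmt_YMO := by
  intro hBAS hMUB hSTM Λ M η c σ N hB hN P hP p q hx
  obtain ⟨-, hyc, -, -, -, -, hxd, hyd, -, -, -⟩ := hBAS Λ
  obtain ⟨-, hmu⟩ := hMUB Λ M η c hN.M1 hN.c0 hB N hN.n1 hN.n2
  have hn : (0 : ℝ) < N := by exact_mod_cast hN.n1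
  have hM : (0 : ℝ) < M := by linarith [hN.M1]
  have hη := hN.η0
  have hc := hN.c0
  have hyc' : Continuous (deriv Λ.y) := hyc.continuous_deriv (by simp)
  have hsign := YMO.sign hyc' hη (a := (p : ℝ) / N) (b := ((q : ℝ) + 1) / N) (fun u hu => by
    rcases hB.im u with h | h
    · exact absurd (hx u hu) (not_lt.mpr h)
    · exact h)
  -- the correction
  have hcor : ∀ i : ℤ, |mu Λ N * ((x0 Λ N (i + 1 + 1) - x0 Λ N (i + 1)) -
      (x0 Λ N (i + 1) - x0 Λ N i))| < η * (1 / N) := by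
    intro i
    rw [abs_mul]
    calc |mu Λ N| * |(x0 Λ N (i + 1 + 1) - x0 Λ N (i + 1)) - (x0 Λ N (i + 1) - x0 Λ N i)|
        ≤ (4 * M ^ 2 / c ^ 2) * (2 * M / (N : ℝ) ^ 2) :=
          mul_le_mul hmu (YMO.diffs hB hxd hM.le hN.n1 i) (abs_nonneg _) (by positivity)
      _ = (2 * (4 * M ^ 2 / c ^ 2) * M) * (1 / (N : ℝ) ^ 2) := by ring
      _ < (η * N) * (1 / (N : ℝ) ^ 2) := mul_lt_mul_of_pos_right hN.n3 (by positivity)
      _ = η * (1 / N) := by
          field_simp
  -- the steps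
  have hstep : ∀ i : ℤ, p ≤ i → i < q → ∃ ξ ∈ Icc ((p : ℝ) / N) (((q : ℝ) + 1) / N),
      P.y (i + 1) - P.y i = deriv Λ.y ξ * (1 / N) - mu Λ N *
        ((x0 Λ N (i + 1 + 1) - x0 Λ N (i + 1)) - (x0 Λ N (i + 1) - x0 Λ N i)) := by
    intro i hi hi2
    have e1 : ((i : ℝ) + 1 / 2) / N < ((i : ℝ) + 1 + 1 / 2) / N := by
      apply div_lt_div_of_pos_right _ hn
      linarith
    obtain ⟨ξ, hξ, h1⟩ := YMO.mean hyd e1
    have l1 : ((i : ℝ) + 1 + 1 / 2) / N - ((i : ℝ) + 1 / 2) / N = 1 / N := by ring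
    rw [l1] at h1
    refine ⟨ξ, ⟨?_, ?_⟩, ?_⟩
    · have h2 : (p : ℝ) / N ≤ ((i : ℝ) + 1 / 2) / N := by
        apply div_le_div_of_nonneg_right _ hn.le
        have h3 : (p : ℝ) ≤ i := by exact_mod_cast hi
        linarith
      linarith [hξ.1]
    · have h2 : ((i : ℝ) + 1 + 1 / 2) / N ≤ ((q : ℝ) + 1) / N := by
        apply div_le_div_of_nonneg_right _ hn.le
        have h3 : (i : ℝ) + 1 ≤ q := by exact_mod_cast hi2
        linarith
      linarith [hξ.2]
    · rw [hP.2.1]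
      unfold y1
      have h2 : y0 Λ N (i + 1) - y0 Λ N i = deriv Λ.y ξ * (1 / N) := by
        unfold y0
        push_cast
        exact h1
      linear_combination h2
  obtain ⟨hS1, hS2⟩ := hSTM P.y p q
  rcases hsign with hs | hs
  · left
    refine hS1 fun i hi hi2 => ?_
    obtain ⟨ξ, hξ, h1⟩ := hstep i hi hi2
    have h2 := hs ξ hξ
    have h3 : η * (1 / N) ≤ deriv Λ.y ξ * (1 / N) :=
      mul_le_mul_of_nonneg_right h2 (by positivity)
    have h4 := (abs_lt.mp (hcor i)).2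
    linarith
  · right
    refine hS2 fun i hi hi2 => ?_
    obtain ⟨ξ, hξ, h1⟩ := hstep i hi hi2
    have h2 := hs ξ hξ
    have h3 : deriv Λ.y ξ * (1 / N) ≤ -η * (1 / N) :=
      mul_le_mul_of_nonneg_right h2 (by positivity)
    have h4 := (abs_lt.mp (hcor i)).1
    linarith

end LHS


end

section

/-!
# Module TYP: the components of the polygons are monotone
-/

namespace LHS

open Set LH LC Filter
open scoped ContDiff Topology

/-- TYP -/
theorem t_TYP : Stmt_TYP := by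
  intro hZ hY Λ M η c σ N hB hN P hP e p q hC
  rcases hZ Λ M η c hB N hN.n1 P hP e p q hC with h | h
  · exact Or.inl h
  · right
    refine hY Λ M η c σ N hB hN P hP p q ?_
    intro u hu
    have h1 := h u hu
    have hM := hN.M1
    have hn : (1 : ℝ) ≤ (N : ℝ) := by exact_mod_cast hN.n1
    have hn0 : (0 : ℝ) < (N : ℝ) := by linarith
    have h4 := hN.n4
    have h2 : 2 * M / (N : ℝ) < η := by
      rw [div_lt_iff₀ hn0]
      nlinarith
    linarith

end LHS


end

section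

namespace LHS

open Set LH LC Filter
open scoped ContDiff Topology

namespace SEP

theorem py_shift {N : ℕ} (P : Pg N) (i : ℤ) : P.y (i + N) = P.y i := P.py i

/-- near components in the order `q < p'` -/
theorem near (hYMO : P_YMO) (hNEA : P_NEA) {Λ : LegKnot} {M η c σ : ℝ} {N : ℕ}
    (hb : Bd Λ M η c) (hN : NL M η c σ N) {P : Pg N} (hP : IsPN Λ N P) {e : ℝ} {p q p' q' : ℤ}
    (h : CompE P e p q) (h' : CompE P e p' q') (hq : q < p') {i j : ℤ} (hi : i ∈ Icc p q)
    (hj : j ∈ Icc p' q') (hij : (j : ℝ) - i ≤ η / (4 * M) * N) :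
    (∀ i ∈ Icc p q, ∀ j ∈ Icc p' q', P.y i < P.y j) ∨
      ∀ i ∈ Icc p q, ∀ j ∈ Icc p' q', P.y j < P.y i := by
  have hz := hNEA Λ M η c σ N hb hN P hP e p q p' q' h h' hq i hi j hj hij
  rcases hYMO Λ M η c σ N hb hN P hP p q' hz with hm | hm
  · left
    intro i hi j hj
    exact hm ⟨hi.1, by have := h'.le; have := hi.2; omega⟩
      ⟨by have := h.le; have := hj.1; omega, hj.2⟩ (by have := hi.2; have := hj.1; omega)
  · right
    intro i hi j hj
    exact hm ⟨hi.1, by have := h'.le; have := hi.2; omega⟩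
      ⟨by have := h.le; have := hj.1; omega, hj.2⟩ (by have := hi.2; have := hj.1; omega)

end SEP

open _root_.LHS.SEP in
theorem t_SEP : Stmt_SEP := by
  intro hSHF hYMO hNEA hFAR Λ M η c σ N hb hN hS P hP e p q p' q' h h' hq hq' hl
  by_cases hnear : ∃ i ∈ Icc p q, ∃ j ∈ Icc p' q', (j : ℝ) - i < η / (4 * M) * N
  · obtain ⟨i, hi, j, hj, hij⟩ := hnear
    exact near hYMO hNEA hb hN hP h h' hq hi hj hij.le
  by_cases hnear' : ∃ i ∈ Icc p q, ∃ j ∈ Icc p' q', (1 - η / (4 * M)) * N < (j : ℝ) - i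
  · obtain ⟨i, hi, j, hj, hij⟩ := hnear'
    have hs := hSHF N P e p q h
    have := near hYMO hNEA hb hN hP h' hs hq' (i := j) (j := i + N) hj
      ⟨by have := hi.1; omega, by have := hi.2; omega⟩ (by push_cast; nlinarith)
    rcases this with hm | hm
    · right
      intro i hi j hj
      have := hm j hj (i + N) ⟨by have := hi.1; omega, by have := hi.2; omega⟩
      rwa [py_shift] at this
    · left
      intro i hi j hj
      have := hm j hj (i + N) ⟨by have := hi.1; omega, by have := hi.2; omega⟩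
      rwa [py_shift] at this
  · push Not at hnear hnear'
    exact hFAR Λ M η c (η / (4 * M)) σ N hb hN hS P hP e p q p' q' h h' hl
      (fun i hi j hj => ⟨hnear i hi j hj, hnear' i hi j hj⟩)

end LHS


end

section

/-!
# EMB: the polygons are embedded
-/

namespace LHS

open Set LH LC Filter
open scoped ContDiff Topology

theorem t_EMB : Stmt_EMB := by
  intro hM hT hS Λ M η c σ N hB hN hG P hP
  refine { nc := ?_, ty := ?_, sep := ?_ }
  · by_contra hcon
    push Not at hcon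
    have h1 := (hM Λ M η c hN.M1 hN.c0 hB N hN.n1 hN.n2).1
    have h2 : ∑ i ∈ Finset.range N, (x0 Λ N ((i : ℤ) + 1) - x0 Λ N (i : ℤ)) ^ 2 = 0 := by
      refine Finset.sum_eq_zero fun i _ => ?_
      rw [← hP.1, hcon ((i : ℤ) + 1), hcon (i : ℤ), sub_self]
      norm_num
    rw [h2] at h1
    exact lt_irrefl _ h1
  · exact hT Λ M η c σ N hB hN P hP
  · exact hS Λ M η c σ N hB hN hG P hP

end LHS


end

section

/-!
# FPE: the ends of a family are joined by a path for large `N`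
-/

namespace LHS

open Set LH LC Filter
open scoped ContDiff Topology

namespace FPE

theorem legKnot_ext {Λ Λ' : LegKnot} (h : Λ.γ = Λ'.γ) : Λ = Λ' := by
  cases Λ
  cases Λ'
  simp only at h
  subst h
  rfl

theorem exists_nl {M η c σ : ℝ} (hM : 1 ≤ M) (hη : 0 < η) (hc : 0 < c) (hσ : 0 < σ) :
    ∃ N₀ : ℕ, ∀ N ≥ N₀, NL M η c σ N := by
  obtain ⟨N₀, hN₀⟩ := exists_nat_gt (max 1 (max (2 * M / c) (max (2 * (4 * M ^ 2 / c ^ 2) * M / η)
    (max (12 * M / η) ((6 + 4 * (4 * M ^ 2 / c ^ 2)) * M ^ 2 / σ)))))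
  refine ⟨N₀, fun N hN => ?_⟩
  have hN' : (N₀ : ℝ) ≤ N := by exact_mod_cast hN
  have h := lt_of_lt_of_le hN₀ hN'
  simp only [max_lt_iff] at h
  obtain ⟨h1, h2, h3, h4, h5⟩ := h
  rw [div_lt_iff₀ hc] at h2
  rw [div_lt_iff₀ hη] at h3 h4
  rw [div_lt_iff₀ hσ] at h5
  refine ⟨hM, hη, hc, ?_, ?_, ?_, ?_, ?_⟩
  · have : (1 : ℝ) < (N : ℝ) := h1
    have h6 : 1 < N := by exact_mod_cast this
    omega
  · linarith [mul_comm c (N : ℝ)]
  · linarith [mul_comm η (N : ℝ)]
  · linarith [mul_comm η (N : ℝ)]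
  · linarith [mul_comm σ (N : ℝ)]

end FPE

theorem t_FPE : Stmt_FPE := by
  intro hBD1 hBD2 hBD3 hSGM hMUB hEMB hPTH Λ Λ' hFP
  obtain ⟨K, hK, h0, h1⟩ := hFP
  obtain ⟨M, hM, hb1⟩ := hBD1 K hK
  obtain ⟨η, hη, hb2⟩ := hBD2 K hK
  obtain ⟨c, hc, hb3⟩ := hBD3 K hK
  have hρ : 0 < η / (4 * M) := by positivity
  obtain ⟨σ, hσ, hs⟩ := hSGM K hK (η / (4 * M)) hρ
  obtain ⟨N₀, hN₀⟩ := FPE.exists_nl hM hη hc hσ
  have hBd : ∀ t ∈ Icc (0 : ℝ) 1, Bd (K t) M η c := fun t ht =>
    ⟨(hb1 t ht).1, (hb1 t ht).2.1, (hb1 t ht).2.2.1, (hb1 t ht).2.2.2, hb2 t ht, hb3 t ht⟩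
  refine ⟨N₀, fun N hN P P' hP hP' => ?_⟩
  have hNL := hN₀ N hN
  have e0 : K 0 = Λ := FPE.legKnot_ext h0
  have e1 : K 1 = Λ' := FPE.legKnot_ext h1
  refine hPTH K N hK hNL.n1 ?_ ?_ P P' ?_ ?_
  · intro t ht
    exact (hMUB (K t) M η c hM hc (hBd t ht) N hNL.n1 hNL.n2).1
  · intro t ht Q hQ
    exact hEMB (K t) M η c σ N (hBd t ht) hNL (hs t ht) Q hQ
  · rw [e0]; exact hP
  · rw [e1]; exact hP'

end LHS


end

section

/-!
# The change of the parameter is smooth
-/

namespace LHS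

open Set LH LC Filter
open scoped ContDiff Topology

namespace SMT

theorem local_smooth (f g φ : ℝ → ℝ) (u0 : ℝ) (hf : ContDiff ℝ ∞ f) (hg : ContDiff ℝ ∞ g)
    (hφ : Continuous φ) (h : ∀ u, g u = f (φ u)) (hd : deriv f (φ u0) ≠ 0) :
    ContDiffAt ℝ ∞ φ u0 := by
  have hn : (∞ : WithTop ℕ∞) ≠ 0 := by simp
  have hfa : ContDiffAt ℝ ∞ f (φ u0) := hf.contDiffAt
  have hder : HasDerivAt f (deriv f (φ u0)) (φ u0) :=
    ((hf.differentiable hn) (φ u0)).hasDerivAt
  have hf' := hder.hasFDerivAt_equiv hd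
  have h1 : ContDiffAt ℝ ∞ (hfa.localInverse hf' hn) (f (φ u0)) := hfa.to_localInverse hf' hn
  rw [← h u0] at h1
  have h2 : ContDiffAt ℝ ∞ (fun u => hfa.localInverse hf' hn (g u)) u0 :=
    h1.comp u0 hg.contDiffAt
  have h3 : ∀ᶠ x in 𝓝 (φ u0), hfa.localInverse hf' hn (f x) = x :=
    HasStrictFDerivAt.eventually_left_inverse (hfa.hasStrictFDerivAt' hf' hn)
  have h4 : ∀ᶠ u in 𝓝 u0, hfa.localInverse hf' hn (f (φ u)) = φ u := hφ.continuousAt.eventually h3
  refine h2.congr_of_eventuallyEq ?_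
  filter_upwards [h4] with u hu
  rw [h u]
  exact hu.symm

end SMT

theorem t_SMT : Stmt_SMT := by
  intro hB Λ Λ' φ hφ h
  obtain ⟨hx, hy, -⟩ := hB Λ
  obtain ⟨hx', hy', -, -, -, -, -, -, -, him', -⟩ := hB Λ'
  have hs : ContDiff ℝ ∞ φ := by
    rw [contDiff_iff_contDiffAt]
    intro u
    rcases him' (φ u) with hd | hd
    · exact SMT.local_smooth Λ'.x Λ.x φ u hx' hx hφ (fun v => congrArg Prod.fst (h v)) hd
    · exact SMT.local_smooth Λ'.y Λ.y φ u hy' hy hφ
        (fun v => congrArg (fun p : R3 => p.2.1) (h v)) hd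
  refine ⟨hs, fun u hu => ?_⟩
  have h1 : HasDerivAt φ (deriv φ u) u := ((hs.differentiable (by simp)) u).hasDerivAt
  have h2 : HasDerivAt Λ'.γ (deriv Λ'.γ (φ u)) (φ u) :=
    ((Λ'.smooth.differentiable (by simp)) (φ u)).hasDerivAt
  have h3 : HasDerivAt (fun v => Λ'.γ (φ v)) (deriv φ u • deriv Λ'.γ (φ u)) u :=
    HasDerivAt.scomp u h2 h1
  have h4 : (fun v => Λ'.γ (φ v)) = Λ.γ := funext fun v => (h v).symm
  rw [h4, hu, zero_smul] at h3
  exact Λ.immersion u h3.deriv

end LHS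


end

section

/-!
# RVF: the reverse of a family
-/

set_option autoImplicit false

namespace LHS

open Set LH LC Filter
open scoped ContDiff Topology

theorem t_RVF : Stmt_RVF := by
  intro hX Λ Λ' Λ₁ Λ₁' hF h h'
  obtain ⟨K, hK, h0, h1⟩ := hF
  choose r hr using hX
  refine ⟨fun t => r (K t), ?_, ?_, ?_⟩
  · have hm : MapsTo (fun q : ℝ × ℝ => (q.1, -q.2)) (Icc 0 1 ×ˢ univ) (Icc 0 1 ×ˢ univ) :=
      fun q hq => ⟨hq.1, mem_univ _⟩
    have hc : ContDiffOn ℝ ∞ (fun q : ℝ × ℝ => (q.1, -q.2)) (Icc 0 1 ×ˢ univ) :=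
      (contDiff_fst.prodMk contDiff_snd.neg).contDiffOn
    have hcomp := ContDiffOn.comp hK hc hm
    refine hcomp.congr fun q _ => ?_
    exact hr (K q.1) q.2
  · funext u
    show (r (K 0)).γ u = Λ₁.γ u
    rw [hr (K 0) u, h u, h0]
  · funext u
    show (r (K 1)).γ u = Λ₁'.γ u
    rw [hr (K 1) u, h' u, h1]

end LHS


end

section

/-!
# CAR: knots with the same carrier
-/

namespace LHS

open Set LH LC Filter
open scoped ContDiff Topology

namespace CAR

/-- The derivative of the reversed parameter change. -/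
theorem deriv_rev (φ : ℝ → ℝ) (u : ℝ) : deriv (fun v => φ (-v)) u = -deriv φ (-u) :=
  deriv_comp_neg φ u

theorem contDiff_rev {φ : ℝ → ℝ} (h : ContDiff ℝ ∞ φ) : ContDiff ℝ ∞ fun v => φ (-v) :=
  h.comp contDiff_neg

end CAR

/-- CAR: knots with the same carrier. -/
theorem t_CAR : Stmt_CAR := by
  intro hL hS hD Λ Λ' hc
  obtain ⟨φ, hφ, hγ⟩ := hL Λ Λ' hc
  obtain ⟨h1, h2⟩ := hS Λ Λ' φ hφ hγ
  rcases hD Λ Λ' φ h1 h2 hγ with ⟨h3, h4⟩ | ⟨h3, h4⟩
  · exact Or.inl ⟨φ, h1, h3, h4, hγ⟩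
  · refine Or.inr fun Λ₁ hr => ⟨fun v => φ (-v), CAR.contDiff_rev h1, ?_, ?_, ?_⟩
    · intro u
      rw [CAR.deriv_rev]
      exact neg_pos.2 (h3 (-u))
    · intro u
      have h5 := h4 (-(u + 1))
      have h6 : -(u + 1) + 1 = -u := by ring
      rw [h6] at h5
      change φ (-(u + 1)) = φ (-u) + 1
      rw [h5]
      ring
    · intro u
      rw [hr u]
      exact hγ (-u)

end LHS


end

section

/-!
# Part C, smooth side: the theorem `LH.T_SM`
-/

namespace LHS

theorem p_MID : P_MID := t_MID t_BAS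

theorem p_MUB : P_MUB := t_MUB t_BAS p_MID

theorem p_ZAP : P_ZAP := t_ZAP t_BAS p_MID p_MUB

theorem p_CRS : P_CRS := t_CRS t_BAS

theorem p_ZON : P_ZON := t_ZON t_BAS

theorem p_YMO : P_YMO := t_YMO t_BAS p_MUB t_STM

theorem p_TYP : P_TYP := t_TYP p_ZON p_YMO

theorem p_NEA : P_NEA := t_NEA t_BAS p_CRS p_ZON

theorem p_FAR : P_FAR := t_FAR t_BAS p_MUB p_ZAP t_HLN p_CRS t_SGN

theorem p_SEP : P_SEP := t_SEP t_SHF p_YMO p_NEA p_FAR

theorem p_EMB : P_EMB := t_EMB p_MUB p_TYP p_SEP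

theorem p_FPE : P_FPE :=
  t_FPE (t_BD1 t_BAS t_CTN) (t_BD2 t_BAS t_CTN) (t_BD3 t_BAS t_CTN) (t_SGM t_BAS t_CTN) p_MUB
    p_EMB (t_PTH t_CTN t_PEX)

theorem p_CAR : P_CAR := t_CAR t_LFT (t_SMT t_BAS) t_DEG

/-- `T_SM`. -/
theorem main : LH.T_SM := t_FIN t_RVX t_RVS (t_RVF t_RVX) t_PSF p_CAR t_PEX p_FPE

end LHS


end

section

/-!
# Knots with nonvanishing invariants are not destabilizable
-/

namespace LHJ

open Set LG LH

/-- Polygons with the same `x` and `y`. -/
theorem emb_of {N : ℕ} (P Q : Pg N) (hx : P.x = Q.x) (hy : P.y = Q.y) (h : Emb P) : Emb Q := by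
  have hz : ∀ i, Q.z i = P.z i + (Q.z 0 - P.z 0) := by
    intro i
    induction i using Int.induction_on with
    | zero => ring
    | succ k ih => rw [P.cl, Q.cl, ih, hx, hy]; ring
    | pred k ih =>
      have h1 := P.cl (-(k : ℤ) - 1)
      have h2 := Q.cl (-(k : ℤ) - 1)
      rw [sub_add_cancel] at h1 h2
      rw [h1, h2, hx, hy] at ih
      linarith
  have hl : ∀ i t, Q.l i t = P.l i t + (Q.z 0 - P.z 0) := by
    intro i t
    unfold Pg.l
    rw [hz i, hx, hy]; ring
  have hc : ∀ e p q, CompE Q e p q → CompE P e p q := by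
    intro e p q h'
    refine ⟨h'.le, ?_, ?_, ?_, ?_⟩
    · rw [hx]; exact h'.ins
    · rw [hx]; exact h'.fst
    · rw [hx]; exact h'.lst
    · rw [hx]; exact h'.one
  refine ⟨?_, ?_, ?_⟩
  · rw [← hx]; exact h.nc
  · intro e p q h'
    have := h.ty e p q (hc e p q h')
    unfold Ty at *
    rwa [hx, hy] at this
  · intro e p q p' q' h1 h2 h3 h4 h5
    have := h.sep e p q p' q' (hc _ _ _ h1) (hc _ _ _ h2) h3 h4
      (by rw [hl, hl] at h5; exact add_right_cancel h5)
    rwa [hy] at this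

theorem emb_l {N : ℕ} {P Q : Pg N} (h : EPath P Q) : Emb P := by
  obtain ⟨F, hF, -, -, -, h1, h2, -, -⟩ := h
  exact emb_of _ _ h1 h2 (hF 0 ⟨le_rfl, zero_le_one⟩)

theorem emb_r {N : ℕ} {P Q : Pg N} (h : EPath P Q) : Emb Q := by
  obtain ⟨F, hF, -, -, -, -, -, h1, h2⟩ := h
  exact emb_of _ _ h1 h2 (hF 1 ⟨zero_le_one, le_rfl⟩)

/-- The walks of polygons joined by a sequence of paths are equivalent. -/
theorem inv_trans {N : ℕ} (hN : 0 < N) {P Q : Pg N} (h : Relation.TransGen EPath P Q) :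
    Emb Q ∧ ∀ X X' w w', GoodX P X → GW P X w → GoodX Q X' → GW Q X' w' →
      WE (lst P w) (lst Q w') := by
  induction h with
  | single h => exact ⟨emb_r h, fun X X' w w' a b c d => inv _ _ _ h X X' w w' a b c d⟩
  | tail _ h ih =>
    refine ⟨emb_r h, fun X X' w w' a b c d => ?_⟩
    obtain ⟨Y, v, hY, hv, -⟩ := p_TEX _ hN (emb_l h) 1 one_pos
    exact p_WEB.trans _ _ _ (ih.2 X Y w v a b hY hv) (inv _ _ _ h Y X' v w' hY hv c d)

/-- A knot whose polygons have nonvanishing invariants is not destabilizable. -/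
theorem not_dest (hS : T_S) (Λ : LC.LegKnot) (hJ : ∃ N₀ : ℕ, ∀ N ≥ N₀, ∀ P : Pg N, IsPN Λ N P →
    ∃ X w, GoodX P X ∧ GW P X w ∧ ∃ M, Rp (lst P w) M ∧ ¬ VL M ∧ ¬ VP M) :
    ¬ LC.Destabilizable Λ := by
  rintro ⟨Λ', Λ'', hst, hiso⟩
  obtain ⟨Λ₁, Λ₂, hst', N₁, h1⟩ := LHS.main Λ Λ' Λ'' hiso hst
  obtain ⟨N₂, h2⟩ := hS Λ₁ Λ₂ hst'
  obtain ⟨N₃, h3⟩ := hJ
  obtain ⟨P, P₁, hP, hP₁, hpp⟩ := h1 (max N₁ (max N₂ (max N₃ 1))) (by omega)
  have hi := inv_trans (by omega) hpp
  obtain ⟨X, w, hX, hw, M, hM, hL, hR⟩ := h3 _ (by omega) P hP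
  obtain ⟨X₁, w₁, hX₁, hw₁, M₁, hM₁, hV⟩ := h2 _ (by omega) P₁ hP₁ hi.1
  have hE := p_WEB.all _ _ M M₁ (hi.2 X X₁ w w₁ hX hw hX₁ hw₁) hM hM₁
  have hQ := p_LEQ _ _ hE
  rcases hV with hV | hV
  · exact hL (hQ.1.2 hV)
  · exact hR (hQ.2.2 hV)

end LHJ


end

section

/-!
# ZMO: the signs of the derivative of `x` on the three arcs of a zigzag
-/

namespace LHE

open Set LG LH
open scoped ContDiff Topology

namespace ZMO

theorem xs (Λ : LC.LegKnot) : ContDiff ℝ ∞ Λ.x := contDiff_fst.comp Λ.smooth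

theorem xd (Λ : LC.LegKnot) : Differentiable ℝ Λ.x := (xs Λ).differentiable (by simp)

theorem dxs (Λ : LC.LegKnot) : ContDiff ℝ ∞ (deriv Λ.x) := by
  have h := (contDiff_infty_iff_deriv (𝕜 := ℝ) (f := Λ.x)).mp (xs Λ)
  exact h.2

theorem dxc (Λ : LC.LegKnot) : Continuous (deriv Λ.x) := (dxs Λ).continuous

theorem dxd (Λ : LC.LegKnot) : Differentiable ℝ (deriv Λ.x) :=
  (dxs Λ).differentiable (by simp)

theorem xp (Λ : LC.LegKnot) (u : ℝ) : Λ.x (u + 1) = Λ.x u := by
  unfold LC.LegKnot.x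
  rw [Λ.periodic u]

theorem dxp (Λ : LC.LegKnot) (u : ℝ) : deriv Λ.x (u + 1) = deriv Λ.x u := by
  have h : (fun v => Λ.x (v + 1)) = Λ.x := funext fun v => xp Λ v
  rw [← deriv_comp_add_const, h]

/-- The sign of a continuous function without zeros on a preconnected set is constant. -/
theorem sgn {f : ℝ → ℝ} (hf : Continuous f) {I : Set ℝ} (hI : IsPreconnected I)
    (h0 : ∀ u ∈ I, f u ≠ 0) {u v : ℝ} (hu : u ∈ I) (hv : v ∈ I) (hp : 0 < f u) : 0 < f v := by
  by_contra hn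
  have h := hI.intermediate_value hv hu hf.continuousOn
  obtain ⟨w, hw, hw0⟩ := h ⟨not_lt.mp hn, hp.le⟩
  exact h0 w hw hw0

/-- A simple zero is a change of sign. -/
theorem chg {f : ℝ → ℝ} (hf : Continuous f) {a c d : ℝ} (hac : a < c) (hcd : c < d)
    (hdf : DifferentiableAt ℝ f c) (hc : f c = 0) (hc' : deriv f c ≠ 0)
    (hl : ∀ u ∈ Ioo a c, 0 < f u) (hr : ∀ u ∈ Ioo c d, f u ≠ 0) : ∀ u ∈ Ioo c d, f u < 0 := by
  have ht : Filter.Tendsto (slope f c) (𝓝[≠] c) (𝓝 (deriv f c)) :=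
    hasDerivAt_iff_tendsto_slope.mp hdf.hasDerivAt
  have hle : 𝓝[<] c ≤ 𝓝[≠] c := nhdsWithin_mono c fun x (hx : x < c) => ne_of_lt hx
  have hge : 𝓝[>] c ≤ 𝓝[≠] c := nhdsWithin_mono c fun x (hx : c < x) => ne_of_gt hx
  have hneg : deriv f c < 0 := by
    rcases lt_or_gt_of_ne hc' with h | h
    · exact h
    · exfalso
      have h1 : ∀ᶠ u in 𝓝[<] c, 0 < slope f c u := hle (ht.eventually (lt_mem_nhds h))
      obtain ⟨u, hu1, hu2⟩ := (h1.and (Ioo_mem_nhdsLT hac)).exists
      have h2 := hl u hu2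
      rw [slope_def_field, hc, sub_zero] at hu1
      have h3 : f u / (u - c) < 0 := div_neg_of_pos_of_neg h2 (by linarith [hu2.2])
      linarith
  have h1 : ∀ᶠ u in 𝓝[>] c, slope f c u < 0 := hge (ht.eventually (gt_mem_nhds hneg))
  obtain ⟨w, hw1, hw2⟩ := (h1.and (Ioo_mem_nhdsGT hcd)).exists
  have hw : f w < 0 := by
    rw [slope_def_field, hc, sub_zero] at hw1
    by_contra hn
    have h3 : 0 ≤ f w / (w - c) := div_nonneg (not_lt.mp hn) (by linarith [hw2.1])
    linarith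
  intro u hu
  have h4 : 0 < (fun v => -f v) u :=
    ZMO.sgn (f := fun v => -f v) hf.neg isPreconnected_Ioo (fun v hv => neg_ne_zero.mpr (hr v hv))
      hw2 hu (neg_pos.mpr hw)
  have h5 : 0 < -f u := h4
  linarith

theorem dag {f g : ℝ → ℝ} (hf : Differentiable ℝ f) (hg : Differentiable ℝ g) {p q : ℝ}
    (hpq : p < q) (h : ∀ u ∈ Icc p q, f u = g u) {u : ℝ} (hu : u ∈ Icc p q) :
    deriv f u = deriv g u := by
  have h1 := (hf u).derivWithin (uniqueDiffOn_Icc hpq u hu)
  have h2 := (hg u).derivWithin (uniqueDiffOn_Icc hpq u hu)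
  rw [← h1, ← h2]
  exact derivWithin_congr h (h u hu)

end ZMO

open _root_.LHE.ZMO in
/-- The signs of the derivative of `x` on the three arcs of a zigzag. -/
theorem t_ZMO : Stmt_ZMO := by
  intro Λ' Λ a c d b D h
  have hac := h.ac
  have hcd := h.cd
  have hdb := h.db
  have hba := h.ba
  have hx : ∀ u ∈ Icc b (a + 1), Λ'.x u = Λ.x u := fun u hu => by
    unfold LC.LegKnot.x
    rw [h.out u hu]
  -- the derivative does not vanish at `a`
  have ha0 : deriv Λ'.x a ≠ 0 := by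
    intro h0
    rcases (h.cr a ⟨le_refl a, by linarith⟩).mp h0 with h1 | h1 <;> linarith
  obtain ⟨s, hs⟩ : ∃ s : Bool, 0 < sn s * deriv Λ'.x a := by
    rcases lt_or_gt_of_ne ha0 with h1 | h1
    · exact ⟨false, by rw [sn_false]; linarith⟩
    · exact ⟨true, by rw [sn_true]; linarith⟩
  have hsn : sn s ≠ 0 := by
    intro h0
    rw [h0, zero_mul] at hs
    exact lt_irrefl _ hs
  have hfc : Continuous (fun u => sn s * deriv Λ'.x u) := continuous_const.mul (dxc Λ')
  have hf0 : ∀ u ∈ Icc a b, u ≠ c → u ≠ d → sn s * deriv Λ'.x u ≠ 0 := by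
    intro u hu huc hud
    refine mul_ne_zero hsn fun h0 => ?_
    rcases (h.cr u hu).mp h0 with h1 | h1
    · exact huc h1
    · exact hud h1
  have hc0 : deriv Λ'.x c = 0 := (h.cr c ⟨hac.le, by linarith⟩).mpr (Or.inl rfl)
  have hd0 : deriv Λ'.x d = 0 := (h.cr d ⟨by linarith, hdb.le⟩).mpr (Or.inr rfl)
  -- the first arc
  have h1 : ∀ u ∈ Ico a c, 0 < sn s * deriv Λ'.x u := by
    intro u hu
    exact ZMO.sgn (f := fun v => sn s * deriv Λ'.x v) hfc isPreconnected_Ico
      (fun v hv => hf0 v ⟨hv.1, by linarith [hv.2]⟩ (ne_of_lt hv.2)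
        (ne_of_lt (by linarith [hv.2])))
      (⟨le_refl a, hac⟩ : a ∈ Ico a c) hu hs
  -- the second arc
  have hdf : ∀ v, DifferentiableAt ℝ (fun u => sn s * deriv Λ'.x u) v := fun v =>
    (dxd Λ' v).const_mul (sn s)
  have hdv : ∀ v, deriv (fun u => sn s * deriv Λ'.x u) v = sn s * deriv (deriv Λ'.x) v := fun v =>
    deriv_const_mul (sn s) (dxd Λ' v)
  have h2 : ∀ u ∈ Ioo c d, sn s * deriv Λ'.x u < 0 :=
    ZMO.chg (f := fun u => sn s * deriv Λ'.x u) hfc hac hcd (hdf c)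
      (by show sn s * deriv Λ'.x c = 0; rw [hc0, mul_zero])
      (by rw [hdv c]; exact mul_ne_zero hsn h.c2)
      (fun u hu => h1 u ⟨hu.1.le, hu.2⟩)
      (fun u hu => hf0 u ⟨by linarith [hu.1], by linarith [hu.2]⟩ (ne_of_gt hu.1) (ne_of_lt hu.2))
  -- the third arc
  have h3 : ∀ u ∈ Ioo d b, 0 < sn s * deriv Λ'.x u := by
    intro u hu
    have h4 := ZMO.chg (f := fun u => -(sn s * deriv Λ'.x u)) hfc.neg hcd hdb (hdf d).neg
      (by show -(sn s * deriv Λ'.x d) = 0; rw [hd0, mul_zero, neg_zero])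
      (by
        have h5 : deriv (fun u => -(sn s * deriv Λ'.x u)) d
            = -deriv (fun u => sn s * deriv Λ'.x u) d := deriv.fun_neg
        rw [h5, hdv d]
        exact neg_ne_zero.mpr (mul_ne_zero hsn h.d2))
      (fun v hv => neg_pos.mpr (h2 v hv))
      (fun v hv => neg_ne_zero.mpr
        (hf0 v ⟨by linarith [hv.1], by linarith [hv.2]⟩ (ne_of_gt (by linarith [hv.1]))
          (ne_of_gt hv.1))) u hu
    have h6 : -(sn s * deriv Λ'.x u) < 0 := h4
    linarith
  have h3' : ∀ u ∈ Ioc d b, 0 < sn s * deriv Λ'.x u := by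
    intro u hu
    have hm : (d + b) / 2 ∈ Ioo d b := ⟨by linarith, by linarith⟩
    exact ZMO.sgn (f := fun v => sn s * deriv Λ'.x v) hfc isPreconnected_Ioc
      (fun v hv => hf0 v ⟨by linarith [hv.1], hv.2⟩ (ne_of_gt (by linarith [hv.1]))
        (ne_of_gt hv.1))
      (⟨hm.1, hm.2.le⟩ : (d + b) / 2 ∈ Ioc d b) hu (h3 _ hm)
  refine ⟨s, h1, h2, h3', ?_⟩
  -- the chord of the old arc
  have hda : deriv Λ.x a = deriv Λ'.x a := by
    rw [← dxp Λ a, ← dxp Λ' a]
    exact (dag (xd Λ') (xd Λ) hba hx ⟨hba.le, le_refl _⟩).symm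
  have hgc : Continuous (fun u => sn s * deriv Λ.x u) := continuous_const.mul (dxc Λ)
  have hg0 : ∀ u ∈ Ico a b, sn s * deriv Λ.x u ≠ 0 := by
    intro u hu
    rcases eq_or_lt_of_le hu.1 with h4 | h4
    · rw [← h4, hda]
      exact ne_of_gt hs
    · exact mul_ne_zero hsn (h.inD u ⟨h4, hu.2⟩).2
  have hab : a < b := by linarith
  have hg : ∀ u ∈ Ico a b, 0 < sn s * deriv Λ.x u := by
    intro u hu
    refine ZMO.sgn (f := fun v => sn s * deriv Λ.x v) hgc isPreconnected_Ico hg0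
      (⟨le_refl a, hab⟩ : a ∈ Ico a b) hu ?_
    show 0 < sn s * deriv Λ.x a
    rw [hda]
    exact hs
  have hmono : StrictMonoOn (fun u => sn s * Λ.x u) (Icc a b) := by
    refine strictMonoOn_of_deriv_pos (convex_Icc a b)
      (continuous_const.mul (xd Λ).continuous).continuousOn ?_
    intro u hu
    rw [interior_Icc] at hu
    rw [deriv_const_mul (sn s) (xd Λ u)]
    exact hg u ⟨hu.1.le, hu.2⟩
  have hlt : sn s * Λ.x a < sn s * Λ.x b :=
    hmono ⟨le_refl a, hab.le⟩ ⟨hab.le, le_refl b⟩ hab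
  have hxa : Λ'.x a = Λ.x a := by
    rw [← xp Λ' a, ← xp Λ a]
    exact hx (a + 1) ⟨hba.le, le_refl _⟩
  have hxb : Λ'.x b = Λ.x b := hx b ⟨le_refl b, hba.le⟩
  rw [hxa, hxb]
  exact hlt

end LHE


end

section

/-!
# ZGS: a stabilised knot has a zigzag
-/

namespace LHE

open Set LG LH

namespace ZGS

theorem diff_x (Λ : LC.LegKnot) : Differentiable ℝ Λ.x := by
  have h : Differentiable ℝ Λ.γ := Λ.smooth.differentiable (by simp)
  exact h.fst

theorem deriv_sx (Λ : LC.LegKnot) (s : Bool) (u : ℝ) :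
    deriv (fun u => sn s * Λ.x u) u = sn s * deriv Λ.x u := by
  have h : deriv (fun y => sn s * Λ.x y) u = sn s * deriv Λ.x u :=
    deriv_const_mul (sn s) (diff_x Λ u)
  exact h

theorem mono (Λ : LC.LegKnot) (s : Bool) (a b : ℝ)
    (h : ∀ u ∈ Ioo a b, 0 < sn s * deriv Λ.x u) :
    StrictMonoOn (fun u => sn s * Λ.x u) (Icc a b) := by
  refine strictMonoOn_of_deriv_pos (convex_Icc a b) ?_ ?_
  · exact ((diff_x Λ).const_mul (sn s)).continuous.continuousOn
  · intro u hu
    rw [interior_Icc] at hu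
    rw [deriv_sx]
    exact h u hu

theorem anti (Λ : LC.LegKnot) (s : Bool) (a b : ℝ)
    (h : ∀ u ∈ Ioo a b, sn s * deriv Λ.x u < 0) :
    StrictAntiOn (fun u => sn s * Λ.x u) (Icc a b) := by
  refine strictAntiOn_of_deriv_neg (convex_Icc a b) ?_ ?_
  · exact ((diff_x Λ).const_mul (sn s)).continuous.continuousOn
  · intro u hu
    rw [interior_Icc] at hu
    rw [deriv_sx]
    exact h u hu

/-- Vertical convexity. -/
theorem vert {D : Set (ℝ × ℝ)} (hD : Convex ℝ D) {x z z₁ z₂ : ℝ} (h₁ : (x, z₁) ∈ D)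
    (h₂ : (x, z₂) ∈ D) (h : z ∈ uIcc z₁ z₂) : (x, z) ∈ D := by
  rw [← segment_eq_uIcc, segment_eq_image] at h
  obtain ⟨θ, hθ, rfl⟩ := h
  have h3 := hD.segment_subset h₁ h₂
  apply h3
  rw [segment_eq_image]
  refine ⟨θ, hθ, ?_⟩
  simp only [Prod.smul_mk, Prod.mk_add_mk, smul_eq_mul, Prod.mk.injEq, and_true]
  ring

theorem per (Λ : LC.LegKnot) (u : ℝ) : Λ.γ (u - 1) = Λ.γ u := by
  have := Λ.periodic (u - 1)
  rw [sub_add_cancel] at this
  exact this.symm

theorem not_uIcc {o : Bool} {z z₁ z₂ : ℝ} (h₁ : sn o * z < sn o * z₁) (h₂ : sn o * z < sn o * z₂) :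
    z ∉ uIcc z₁ z₂ := by
  intro h
  rw [mem_uIcc] at h
  rcases sn_or o with ho | ho <;> rw [ho] at h₁ h₂ <;> rcases h with h | h <;> linarith [h.1, h.2]

theorem not_uIcc' {o : Bool} {z z₁ z₂ : ℝ} (h₁ : sn o * z₁ < sn o * z) (h₂ : sn o * z₂ < sn o * z) :
    z ∉ uIcc z₁ z₂ := by
  intro h
  rw [mem_uIcc] at h
  rcases sn_or o with ho | ho <;> rw [ho] at h₁ h₂ <;> rcases h with h | h <;> linarith [h.1, h.2]

end ZGS

open _root_.LHE.ZGS in
theorem t_ZGS : Stmt_ZGS := by
  intro hZ hC Λ' Λ hst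
  obtain ⟨a, c, d, b, D, hac, hcd, hdb, hba, hout, hop, hcv, houtD, hinD, hinD', hinj, hcr, hc2,
    hd2, hzz⟩ := hst
  obtain ⟨s, p1, p2, p3, pab⟩ := hZ Λ' Λ a c d b D
    ⟨hac, hcd, hdb, hba, hout, hop, hcv, houtD, hinD, hinD', hinj, hcr, hc2, hd2, hzz⟩
  have hns : sn (!s) = -sn s := sn_not s
  have hs2 := sn_sq s
  -- the choice of the order
  obtain ⟨o, ho⟩ : ∃ o : Bool, 0 < sn o * (sn s * deriv Λ'.y c) := by
    have hy : deriv Λ'.y c ≠ 0 := by
      intro h
      rw [h, zero_mul] at hzz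
      exact lt_irrefl _ hzz
    have hsy : sn s * deriv Λ'.y c ≠ 0 := by
      intro h
      rcases mul_eq_zero.1 h with h | h
      · rw [h] at hs2
        simp at hs2
      · exact hy h
    rcases lt_or_gt_of_ne hsy with h | h
    · exact ⟨false, by rw [sn_false]; linarith⟩
    · exact ⟨true, by rw [sn_true]; linarith⟩
  have ho2 := sn_sq o
  have ho' : 0 < sn o * (sn (!s) * deriv Λ'.y d) := by
    rw [hns]
    have h1 : (sn o * (sn s * deriv Λ'.y c)) * (sn o * (-sn s * deriv Λ'.y d)) =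
        -(deriv Λ'.y c * deriv Λ'.y d) := by
      have : (sn o * (sn s * deriv Λ'.y c)) * (sn o * (-sn s * deriv Λ'.y d)) =
        -((sn o * sn o) * (sn s * sn s) * (deriv Λ'.y c * deriv Λ'.y d)) := by ring
      rw [this, ho2, hs2]
      ring
    by_contra hcon
    have h2 : (sn o * (sn s * deriv Λ'.y c)) * (sn o * (-sn s * deriv Λ'.y d)) ≤ 0 :=
      mul_nonpos_of_nonneg_of_nonpos ho.le (not_lt.1 hcon)
    linarith
  -- monotonicity
  have m1 : StrictMonoOn (fun u => sn s * Λ'.x u) (Icc a c) :=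
    mono Λ' s a c fun u hu => p1 u ⟨hu.1.le, hu.2⟩
  have m2 : StrictAntiOn (fun u => sn s * Λ'.x u) (Icc c d) := anti Λ' s c d p2
  have m3 : StrictMonoOn (fun u => sn s * Λ'.x u) (Icc d b) :=
    mono Λ' s d b fun u hu => p3 u ⟨hu.1, hu.2.le⟩
  have m2' : StrictMonoOn (fun u => sn (!s) * Λ'.x u) (Icc c d) := by
    intro u hu v hv huv
    have := m2 hu hv huv
    simp only [hns] at this ⊢
    linarith
  have m3' : StrictAntiOn (fun u => sn (!s) * Λ'.x u) (Icc d b) := by
    intro u hu v hv huv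
    have := m3 hu hv huv
    simp only [hns] at this ⊢
    linarith
  -- order of the arcs
  have od1 : ∀ u₁ ∈ Icc a c, ∀ u₂ ∈ Icc c d, Λ'.x u₁ = Λ'.x u₂ → u₁ ≠ c →
      sn o * zz Λ' u₂ < sn o * zz Λ' u₁ :=
    hC Λ' s o a c d hac hcd (fun u hu => p1 u ⟨hu.1.le, hu.2⟩) p2
      (hinj.mono (Icc_subset_Icc_right hdb.le)) ho
  have od2 : ∀ u₁ ∈ Icc c d, ∀ u₂ ∈ Icc d b, Λ'.x u₁ = Λ'.x u₂ → u₁ ≠ d →
      sn o * zz Λ' u₂ < sn o * zz Λ' u₁ :=
    hC Λ' (!s) o c d b hcd hdb
      (fun u hu => by have := p2 u hu; rw [hns]; linarith)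
      (fun u hu => by have := p3 u ⟨hu.1, hu.2.le⟩; rw [hns]; linarith)
      (hinj.mono (Icc_subset_Icc_left hac.le)) ho'
  -- positions
  have xac : sn s * Λ'.x a < sn s * Λ'.x c := m1 ⟨le_rfl, hac.le⟩ ⟨hac.le, le_rfl⟩ hac
  have xdc : sn s * Λ'.x d < sn s * Λ'.x c := m2 ⟨le_rfl, hcd.le⟩ ⟨hcd.le, le_rfl⟩ hcd
  have xdb : sn s * Λ'.x d < sn s * Λ'.x b := m3 ⟨le_rfl, hdb.le⟩ ⟨hdb.le, le_rfl⟩ hdb
  obtain ⟨ξ₁, h1a, h1b⟩ := exists_between (show max (sn s * Λ'.x a) (sn s * Λ'.x d) <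
    min (sn s * Λ'.x c) (sn s * Λ'.x b) from
      max_lt (lt_min xac pab) (lt_min xdc xdb))
  obtain ⟨ξ₂, h2a, h2b⟩ := exists_between h1b
  have a1 := (max_lt_iff.1 h1a).1
  have a2 := (max_lt_iff.1 h1a).2
  have b1 := (lt_min_iff.1 h2b).1
  have b2 := (lt_min_iff.1 h2b).2
  have fr : ∀ u, LC.front (Λ'.γ u) = (Λ'.x u, zz Λ' u) := fun u => rfl
  -- a point of the front between two points of the arcs is not outside
  have key : ∀ u₁ u₂ u, u₁ ∈ Ioo a b → u₂ ∈ Ioo a b → u ∈ Icc b (a + 1) → Λ'.x u₁ = Λ'.x u →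
      Λ'.x u₂ = Λ'.x u → zz Λ' u ∉ uIcc (zz Λ' u₁) (zz Λ' u₂) := by
    intro u₁ u₂ u h₁ h₂ hu hx₁ hx₂ hz
    have e1 := hinD' u₁ h₁
    have e2 := hinD' u₂ h₂
    rw [fr, hx₁] at e1
    rw [fr, hx₂] at e2
    have e3 := vert hcv e1 e2 hz
    rw [← fr, hout u hu] at e3
    exact houtD u hu e3
  refine ⟨s, a, c, d, b, ξ₁, ξ₂, o, ?_, ?_, ⟨ho, od1⟩, ⟨ho', od2⟩, hba, h2a⟩
  · refine ⟨hac, hcd, hdb.trans hba, m1, m2, a1, a2, ?_⟩
    intro u₁ h₁ u₂ h₂ u hu hx₁ hx₂ hτ hz
    have n1 : u₁ ≠ a := by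
      rintro rfl
      rw [← hx₁] at hτ
      linarith
    have n2 : u₂ ≠ d := by
      rintro rfl
      rw [← hx₂] at hτ
      linarith
    have i1 : a < u₁ := lt_of_le_of_ne h₁.1 (Ne.symm n1)
    have i2 : u₂ < d := lt_of_le_of_ne h₂.2 n2
    have hub : u < b := by
      by_contra hcon
      exact key u₁ u₂ u ⟨i1, by linarith [h₁.2]⟩ ⟨by linarith [h₂.1], by linarith⟩
        ⟨not_lt.1 hcon, hu.2⟩ hx₁ hx₂ hz
    by_cases hc1 : u₁ = c
    · subst hc1
      have h3 : u₂ = u₁ := by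
        refine m2.injOn h₂ ⟨le_rfl, hcd.le⟩ ?_
        show sn s * Λ'.x u₂ = sn s * Λ'.x u₁
        rw [hx₂, hx₁]
      rw [h3, uIcc_self, mem_singleton_iff] at hz
      have h4 : u = u₁ := by
        refine hinj ⟨by linarith [hu.1], hub.le⟩ ⟨hac.le, by linarith⟩ ?_
        simp only [fr]
        rw [hz, hx₁]
      linarith [hu.1]
    · have h5 := od1 u₁ h₁ u₂ h₂ (hx₁.trans hx₂.symm) hc1
      have h6 := od2 u₂ h₂ u ⟨hu.1, hub.le⟩ hx₂ n2
      exact not_uIcc (h6.trans h5) h6 hz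
  · refine ⟨hcd, hdb, by linarith, m2', m3', by rw [hns]; linarith, by rw [hns]; linarith, ?_⟩
    intro u₁ h₁ u₂ h₂ u hu hx₁ hx₂ hτ hz
    rw [hns] at hτ
    have n1 : u₁ ≠ c := by
      rintro rfl
      rw [← hx₁] at hτ
      linarith
    have n2 : u₂ ≠ b := by
      rintro rfl
      rw [← hx₂] at hτ
      linarith
    have i1 : c < u₁ := lt_of_le_of_ne h₁.1 (Ne.symm n1)
    have i2 : u₂ < b := lt_of_le_of_ne h₂.2 n2
    have hua : a + 1 < u := by
      by_contra hcon
      exact key u₁ u₂ u ⟨by linarith, by linarith [h₁.2]⟩ ⟨by linarith [h₂.1], i2⟩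
        ⟨hu.1, not_lt.1 hcon⟩ hx₁ hx₂ hz
    have pg := per Λ' u
    have px : Λ'.x (u - 1) = Λ'.x u := congrArg Prod.fst pg
    have pz : zz Λ' (u - 1) = zz Λ' u := congrArg (fun q => q.2.2) pg
    have n3 : u - 1 ≠ c := by
      intro h
      rw [← px, h] at hτ
      linarith
    have v1 : u - 1 ∈ Icc a c := ⟨by linarith, by linarith [hu.2]⟩
    have h5 := od1 (u - 1) v1 u₁ h₁ (by rw [px, hx₁]) n3
    rw [pz] at h5
    by_cases hd1 : u₁ = d
    · subst hd1
      have h3 : u₂ = u₁ := by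
        refine m3.injOn h₂ ⟨le_rfl, hdb.le⟩ ?_
        show sn s * Λ'.x u₂ = sn s * Λ'.x u₁
        rw [hx₂, hx₁]
      rw [h3, uIcc_self, mem_singleton_iff] at hz
      rw [hz] at h5
      exact lt_irrefl _ h5
    · have h6 := od2 u₁ h₁ u₂ h₂ (hx₁.trans hx₂.symm) hd1
      exact not_uIcc' h5 (h6.trans h5) hz

end LHE


end

section

/-!
# There is a line of the mesh in an interval
-/

namespace LHE

open Set LG LH

namespace MSH

theorem exists_line (X : Finset ℝ) (L R a b : ℝ) (ha : a ∈ X) (hb : b ∈ X) (haL : a ≤ L)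
    (hRb : R ≤ b) (hLR : L < R) (hm : ∀ a b, AdjX X a b → b - a < R - L) :
    ∃ t ∈ X, L < t ∧ t < R := by
  have h1 : (X.filter fun t => t ≤ L).Nonempty := ⟨a, by simp [ha, haL]⟩
  have h2 : (X.filter fun t => L < t).Nonempty := ⟨b, by
    simp only [Finset.mem_filter]; exact ⟨hb, by linarith⟩⟩
  have m1 := Finset.max'_mem _ h1
  have m2 := Finset.min'_mem _ h2
  set p := (X.filter fun t => t ≤ L).max' h1 with hp
  set q := (X.filter fun t => L < t).min' h2 with hq
  simp only [Finset.mem_filter] at m1 m2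
  have hadj : AdjX X p q := by
    refine ⟨m1.1, m2.1, by linarith [m1.2, m2.2], fun t ht hh => ?_⟩
    rcases le_or_gt t L with h | h
    · have := Finset.le_max' (X.filter fun t => t ≤ L) t (by simp [ht, h])
      rw [← hp] at this
      linarith [hh.1]
    · have := Finset.min'_le (X.filter fun t => L < t) t (by simp [ht, h])
      rw [← hq] at this
      linarith [hh.2]
  have := hm p q hadj
  exact ⟨q, m2.1, m2.2, by linarith [m1.2]⟩

end MSH

theorem t_MSH : Stmt_MSH := by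
  intro N P X s ξ₁ ξ₂ i j hX hM hlt hi hj
  obtain ⟨a, ha, ha'⟩ := hX.lo
  obtain ⟨b, hb, hb'⟩ := hX.hi
  cases s with
  | true =>
    simp only [sn_true, one_mul] at hi hj ⊢
    exact MSH.exists_line X ξ₁ ξ₂ a b ha hb (by linarith [ha' i]) (by linarith [hb' j]) hlt hM
  | false =>
    simp only [sn_false] at hi hj ⊢
    obtain ⟨t, ht, h1, h2⟩ := MSH.exists_line X (-ξ₂) (-ξ₁) a b ha hb (by linarith [ha' j])
      (by linarith [hb' i]) (by linarith) (fun a b h => by have := hM a b h; linarith)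
    exact ⟨t, ht, by linarith, by linarith⟩

end LHE


end

section

/-!
# A zigzag of two short fingers kills one of the two classes
-/

namespace LHE

open Set LG LH

namespace WRG

/-- Two points of a walk with a common entry are equal. -/
theorem eq_of_ent {w : List Pt} (h : (ents w).Nodup) {x y : Pt} (hx : x ∈ w) (hy : y ∈ w)
    {e : En} (h1 : e ∈ ent x) (h2 : e ∈ ent y) : x = y := by
  unfold ents at h
  rw [List.nodup_flatMap] at h
  by_contra hne
  have h3 : ∀ ⦃a : Pt⦄, a ∈ w → ∀ ⦃b : Pt⦄, b ∈ w → a ≠ b → (Function.onFun List.Disjoint ent) a b :=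
    haveI : Std.Symm (Function.onFun List.Disjoint ent) := ⟨fun a b h => List.Disjoint.symm h⟩
    List.Pairwise.forall h.2
  exact h3 hx hy hne h1 h2

theorem col_mem {x : Pt} (h : x.k ≠ .L) : Sum.inl x.c ∈ ent x := by
  obtain ⟨k, t, hh⟩ := x
  cases k <;> simp_all [ent]

theorem row_mem {x : Pt} (h : x.k ≠ .R) : Sum.inr x.r ∈ ent x := by
  obtain ⟨k, t, hh⟩ := x
  cases k <;> simp_all [ent]

/-- A position strictly between two positions of the same line. -/
theorem btw_lex {ξ h₁ h₃ t h : ℝ} (hb : LH.Btw (toLex (ξ, h₁) : Q) (toLex (ξ, h₃)) (toLex (t, h))) :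
    t = ξ ∧ LH.Btw h₁ h₃ h := by
  unfold LH.Btw at hb ⊢
  rcases hb with ⟨h1, h2⟩ | ⟨h1, h2⟩
  · rw [Prod.Lex.toLex_lt_toLex] at h1 h2
    simp only at h1 h2
    rcases h1 with h1 | h1
    · rcases h2 with h2 | h2
      · exact absurd (h1.trans h2) (lt_irrefl _)
      · rw [h2.1] at h1
        exact absurd h1 (lt_irrefl _)
    · rcases h2 with h2 | h2
      · rw [h1.1] at h2
        exact absurd h2 (lt_irrefl _)
      · exact ⟨h2.1, Or.inl ⟨h1.2, h2.2⟩⟩
  · rw [Prod.Lex.toLex_lt_toLex] at h1 h2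
    simp only at h1 h2
    rcases h1 with h1 | h1
    · rcases h2 with h2 | h2
      · exact absurd (h1.trans h2) (lt_irrefl _)
      · rw [h2.1] at h1
        exact absurd h1 (lt_irrefl _)
    · rcases h2 with h2 | h2
      · rw [h1.1] at h2
        exact absurd h2 (lt_irrefl _)
      · exact ⟨h2.1, Or.inr ⟨h1.2, h2.2⟩⟩

/-- The height strictly between the two outer heights is the middle one. -/
theorem mid {w : List Pt} {o : Bool} {ξ h₁ h₂ h₃ : ℝ} (ha : AO w o ξ h₁ h₂)
    (hb : AO w o ξ h₂ h₃) {x : Pt} (hx : x ∈ w) (ht : x.t = ξ) (h : LH.Btw h₁ h₃ x.h) :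
    x.h = h₂ := by
  have h1 := ha.1 x hx ht
  have h2 := hb.1 x hx ht
  have h3 := ha.2
  have h4 := hb.2
  unfold LH.Btw at h h1 h2
  rcases sn_or o with ho | ho
  · rw [ho] at h3 h4
    by_contra hne
    rcases lt_or_gt_of_ne hne with h5 | h5
    · rcases h with h6 | h6
      · linarith [h6.1, h6.2]
      · exact h2 (Or.inr ⟨h6.1, h5⟩)
    · rcases h with h6 | h6
      · linarith [h6.1, h6.2]
      · exact h1 (Or.inr ⟨h5, h6.2⟩)
  · rw [ho] at h3 h4
    by_contra hne
    rcases lt_or_gt_of_ne hne with h5 | h5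
    · rcases h with h6 | h6
      · exact h1 (Or.inl ⟨h6.1, h5⟩)
      · linarith [h6.1, h6.2]
    · rcases h with h6 | h6
      · exact h2 (Or.inl ⟨h5, h6.2⟩)
      · linarith [h6.1, h6.2]

theorem tri {w : List Pt} {o : Bool} {ξ h₁ h₂ h₃ : ℝ} {k₁ k₂ k₃ : Kd} (hw : CW w)
    (hk : k₂ ≠ .L ∧ k₂ ≠ .R) (hm : (⟨k₂, ξ, h₂⟩ : Pt) ∈ w) (ha : AO w o ξ h₁ h₂)
    (hb : AO w o ξ h₂ h₃) : Tri w ⟨k₁, ξ, h₁⟩ ⟨k₂, ξ, h₂⟩ ⟨k₃, ξ, h₃⟩ where
  t₂ := rfl
  t₃ := rfl
  col := by
    intro x hx hxk hxb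
    obtain ⟨ht, hh⟩ := btw_lex hxb
    have h1 := mid ha hb hx ht hh
    have h2 : x.c = (⟨k₂, ξ, h₂⟩ : Pt).c := by
      change (toLex (x.t, x.h) : Q) = toLex (ξ, h₂)
      rw [ht, h1]
    refine eq_of_ent hw.nd hx hm (col_mem hxk) ?_
    rw [h2]
    exact col_mem hk.1
  row := by
    intro x hx hxk hxb
    obtain ⟨ht, hh⟩ := btw_lex hxb
    have ht' : x.t = ξ := neg_injective ht
    have h1 := mid ha hb hx ht' hh
    have h2 : x.r = (⟨k₂, ξ, h₂⟩ : Pt).r := by
      change (toLex (-x.t, x.h) : Q) = toLex (-ξ, h₂)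
      rw [ht', h1]
    refine eq_of_ent hw.nd hx hm (row_mem hxk) ?_
    rw [h2]
    exact row_mem hk.2

end WRG

/-- WRG: from the statements for the right and for the left. -/
theorem t_WRG : Stmt_WRG := by
  intro hR hL hE hC s o ξ t' t'' h₁ h₂ h₃ h' h'' r w hw hcw ha hb
  obtain ⟨M, hM⟩ := hE (ents w) (hC.alt w hcw) hcw.nd
  refine ⟨M, hM, ?_⟩
  have hm : (⟨pass (!s), ξ, h₂⟩ : Pt) ∈ w := by rw [hw]; simp
  have hkey : (h₃ < h₂ → h₂ < h₁ → VL M) ∧ (h₁ < h₂ → h₂ < h₃ → VP M) := by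
    cases s with
    | true =>
      have ht := WRG.tri (k₁ := .rt) (k₃ := .rt) hcw (k₂ := .lt) (by decide) hm ha hb
      subst hw
      exact hR ⟨.rt, ξ, h₁⟩ ⟨.R, t', h'⟩ ⟨.lt, ξ, h₂⟩ ⟨.L, t'', h''⟩ ⟨.rt, ξ, h₃⟩ r
        ⟨hcw, rfl, rfl, rfl, rfl, rfl, ht⟩ M hM
    | false =>
      have ht := WRG.tri (k₁ := .lt) (k₃ := .lt) hcw (k₂ := .rt) (by decide) hm ha hb
      subst hw
      exact hL ⟨.lt, ξ, h₁⟩ ⟨.L, t', h'⟩ ⟨.rt, ξ, h₂⟩ ⟨.R, t'', h''⟩ ⟨.lt, ξ, h₃⟩ r
        ⟨hcw, rfl, rfl, rfl, rfl, rfl, ht⟩ M hM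
  have h1 := ha.2
  have h2 := hb.2
  rcases sn_or o with ho | ho
  · rw [ho] at h1 h2
    exact Or.inl (hkey.1 (by linarith) (by linarith))
  · rw [ho] at h1 h2
    exact Or.inr (hkey.2 (by linarith) (by linarith))

end LHE


end

section

/-!
# The polygons of a stabilised knot: assembly
-/

namespace LHE

open Set LG LH

namespace TSF

theorem Rp_rot (A B : List En) (M : List (ℝ × ℝ)) (h : Rp (A ++ B) M) : Rp (B ++ A) M := by
  obtain ⟨hn, f, g, hf, hg, hr⟩ := h
  have hm : ∀ x, x ∈ B ++ A → x ∈ A ++ B := fun x hx => List.perm_append_comm.mem_iff.1 hx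
  refine ⟨List.nodup_append_comm.1 hn, f, g, fun a b ha hb => hf a b (hm _ ha) (hm _ hb),
    fun a b ha hb => hg a b (hm _ ha) (hm _ hb), ?_⟩
  rw [List.map_append] at hr ⊢
  exact hr.trans List.isRotated_append

end TSF

open _root_.LHE.TSF in
theorem t_TSF : Stmt_TSF := by
  intro hZ hT hC hE hW hA _ Λ₁ Λ₂ hS
  obtain ⟨s, ξ₁, ξ₂, δ, o, N₀, hN₀, hP⟩ := hZ Λ₁ Λ₂ hS
  refine ⟨N₀, fun N hN P hPN hEm => ?_⟩
  obtain ⟨A, C, D, B, hZig⟩ := hP N hN P hPN
  obtain ⟨X, w, hX, hw, hmesh⟩ := hT P (by omega) hEm (min δ (ξ₂ - ξ₁))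
    (lt_min hZig.dpos (sub_pos.2 hZig.lt))
  have hcw := hC P X w hX hw
  obtain ⟨w', ξ, h₁, h₂, h₃, F, G, r, hrot, hTF⟩ := hE N P X s A C D B ξ₁ ξ₂ δ o w hZig hX hw
    (fun a b h => (hmesh a b h).trans_le (min_le_left _ _))
    (fun a b h => (hmesh a b h).trans_le (min_le_right _ _))
  refine ⟨X, w, hX, hw, ?_⟩
  obtain ⟨n, hn, e⟩ := List.isRotated_iff_mod.1 hrot.symm
  rw [List.rotate_eq_drop_append_take hn] at e
  have e' := List.take_append_drop n (w.map (pt P))
  have hcw' : CW w' := by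
    rw [← e]
    refine (hA.rot _ _ ?_).1
    rw [e']
    exact hcw
  obtain ⟨M, hM, hV⟩ := hW w' s o ξ h₁ h₂ h₃ F G r hcw' hTF
  refine ⟨M, ?_, hV⟩
  unfold lst
  rw [← e']
  rw [← e] at hM
  unfold ents at hM ⊢
  rw [List.flatMap_append] at hM ⊢
  exact Rp_rot _ _ M hM

end LHE


end

section

/-!
# The polygons of a stabilised knot: assembly
-/

namespace LHE

open LG LH

theorem p_ZGS : P_ZGS := t_ZGS t_ZMO t_CUS

theorem p_FGP : P_FGP := t_FGP t_EST

theorem p_FGO : P_FGO := t_FGO t_EST p_PGB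

theorem p_ZPN : P_ZPN := t_ZPN t_EST p_ZGS p_FGP p_FGO t_IDX

theorem p_EXT : P_EXT := t_EXT p_WON t_MSH t_CRE t_ROT t_FNG t_ADJ

theorem p_RET : P_RET := t_RET p_RTR p_RTL p_WEB p_CWA

theorem p_FRT : P_FRT := t_FRT p_RET p_WEB p_CWA

theorem p_WRG : P_WRG := t_WRG p_WZR p_WZL t_RPE p_CWA

theorem p_TWF : P_TWF := t_TWF p_FRT p_WRG p_LEQ p_WEB p_CWA t_RPE

theorem t_TS : T_S := t_TSF p_ZPN p_TEX p_CWG p_EXT p_TWF p_CWA p_WEB

end LHE


end
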