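import Mathlib
import Pool.Agent.NDM.C03
import Pool.Agent.NDM.C07

/-! Parts: LHE.KNP, LHE.VXU, LHE.VLS, LHE.ARD, LHE.THT, LHE.TSP, LHE.SPA -/

section

/-! # KNP: the knot of a cyclic polygon with its parametrisation -/

namespace LHE

open Set Filter LCA
open scoped ContDiff Topology

namespace KNP

/-- A knot from local parametrizations. -/
theorem knot_of_local' {n : ℕ} (hn : 0 < n) (G : ℤ → ℝ → LC.R3)
    (hs : ∀ k, ContDiff ℝ ∞ (G k)) (hp : ∀ k, G (k + n) = G k)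
    (hov : ∀ k t, 1 / 4 ≤ t → t ≤ 3 / 4 → G k t = G (k + 1) (t - 1))
    (him : ∀ k t, deriv (G k) t ≠ 0) (hleg : ∀ k t, LC.alpha (G k t) (deriv (G k) t) = 0)
    (hinj : ∀ k t k' t', |t| ≤ 1 / 2 → |t'| ≤ 1 / 2 → G k t = G k' t' →
      ∃ m : ℤ, (k' : ℝ) + t' = k + t + m * n) :
    ∃ Λ : LC.LegKnot, (∀ r, r ∈ Λ.carrier ↔ ∃ (k : ℤ) (t : ℝ), |t| ≤ 1 / 2 ∧ G k t = r) ∧
      ∀ (k : ℤ) (t : ℝ), |t| ≤ 3 / 4 → Λ.γ ((k + t) / n) = G k t := by
  have hn0 : (0 : ℝ) < n := by exact_mod_cast hn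
  set g : ℝ → LC.R3 := fun θ => G (round θ) (θ - round θ) with hgdef
  have hg : ∀ (k : ℤ) (θ : ℝ), |θ - k| ≤ 3 / 4 → g θ = G k (θ - k) := by
    intro k θ h
    have h1 := abs_sub_round θ
    rw [abs_le] at h h1
    have h2 : (round θ : ℝ) - k < 2 := by linarith
    have h3 : (-2 : ℝ) < round θ - k := by linarith
    have h2' : round θ - k < 2 := by exact_mod_cast h2
    have h3' : -2 < round θ - k := by exact_mod_cast h3
    have h4 : round θ = k ∨ round θ = k + 1 ∨ round θ = k - 1 := by omega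
    rcases h4 with h4 | h4 | h4
    · simp only [hgdef, h4]
    · have hr : (round θ : ℝ) = k + 1 := by rw [h4]; push_cast; ring
      have := hov k (θ - k) (by linarith) (by linarith)
      rw [this]
      simp only [hgdef, h4]
      congr 1
      push_cast; ring
    · have hr : (round θ : ℝ) = k - 1 := by rw [h4]; push_cast; ring
      have := hov (k - 1) (θ - (k - 1)) (by linarith) (by linarith)
      simp only [hgdef, h4]
      have e : k - 1 + 1 = k := by ring
      rw [e] at this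
      have e2 : θ - ((k - 1 : ℤ) : ℝ) = θ - (k - 1) := by push_cast; ring
      rw [e2, this]
      congr 1
      ring
  set γ : ℝ → LC.R3 := fun u => g (n * u) with hγ
  have hnear : ∀ u₀ : ℝ, γ =ᶠ[𝓝 u₀] fun u => G (round (n * u₀)) (n * u - round (n * u₀)) := by
    intro u₀
    have hc : ContinuousAt (fun u : ℝ => (n : ℝ) * u) u₀ := by fun_prop
    have h1 := abs_sub_round ((n : ℝ) * u₀)
    have : ∀ᶠ u in 𝓝 u₀, |(n : ℝ) * u - n * u₀| < 1 / 4 := by
      have := (Metric.tendsto_nhds.1 hc.tendsto) (1 / 4) (by norm_num)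
      filter_upwards [this] with u hu
      rwa [Real.dist_eq] at hu
    filter_upwards [this] with u hu
    apply hg
    rw [abs_le] at h1 ⊢
    rw [abs_lt] at hu
    constructor <;> linarith
  have hder : ∀ u₀ : ℝ, deriv γ u₀ =
      (n : ℝ) • deriv (G (round (n * u₀))) (n * u₀ - round (n * u₀)) := by
    intro u₀
    rw [(hnear u₀).deriv_eq]
    have d1 : HasDerivAt (fun u : ℝ => (n : ℝ) * u - round (n * u₀)) (n : ℝ) u₀ := by
      have := ((hasDerivAt_id u₀).const_mul (n : ℝ)).sub_const (round (n * u₀) : ℝ)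
      simpa using this
    have d2 : HasDerivAt (G (round (n * u₀)))
        (deriv (G (round (n * u₀))) (n * u₀ - round (n * u₀))) (n * u₀ - round (n * u₀)) :=
      ((hs _).differentiable (by simp)).differentiableAt.hasDerivAt
    exact (HasDerivAt.scomp u₀ d2 d1).deriv
  have hval : ∀ u₀ : ℝ, γ u₀ = G (round (n * u₀)) (n * u₀ - round (n * u₀)) := fun u₀ => rfl
  refine ⟨⟨γ, ?_, ?_, ?_, ?_, ?_⟩, ?_, ?_⟩
  · rw [contDiff_iff_contDiffAt]
    intro u₀
    refine ContDiffAt.congr_of_eventuallyEq ?_ (hnear u₀)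
    exact ((hs _).comp (by fun_prop)).contDiffAt
  · intro u
    rw [hval, hval]
    have e : (n : ℝ) * (u + 1) = n * u + (n : ℕ) := by ring
    have e2 : round ((n : ℝ) * (u + 1)) = round ((n : ℝ) * u) + n := by
      rw [e, round_add_natCast]
    rw [e2, hp]
    congr 1
    rw [e]
    push_cast
    ring
  · intro u
    rw [hder]
    exact smul_ne_zero hn0.ne' (him _ _)
  · intro u v huv
    rw [hval, hval] at huv
    obtain ⟨m, hm⟩ := hinj _ _ _ _ (abs_sub_round _) (abs_sub_round _) huv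
    refine ⟨m, ?_⟩
    have : (n : ℝ) * v = n * (u + m) := by linarith
    exact mul_left_cancel₀ hn0.ne' this
  · intro u
    rw [hder, hval]
    have := hleg (round (n * u)) (n * u - round (n * u))
    simp only [LC.alpha, Prod.smul_snd, Prod.smul_fst, smul_eq_mul] at this ⊢
    linear_combination (n : ℝ) * this
  · intro r
    constructor
    · rintro ⟨u, rfl⟩
      exact ⟨round (n * u), n * u - round (n * u), abs_sub_round _, rfl⟩
    · rintro ⟨k, t, ht, rfl⟩
      refine ⟨(k + t) / n, ?_⟩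
      have e : (n : ℝ) * ((k + t) / n) = k + t := by field_simp
      change g (n * ((k + t) / n)) = _
      rw [e, hg k (k + t) (by simpa using ht.trans (by norm_num))]
      congr 1
      ring
  · intro k t ht
    have e : (n : ℝ) * ((k + t) / n) = k + t := by field_simp
    change g (n * ((k + t) / n)) = _
    rw [e, hg k (k + t) (by simpa using ht)]
    congr 1
    ring

end KNP

theorem t_KNP : Stmt_KNP := by
  intro hPST hCER hVLN hPIN n _ sh c w Q hV hC hw hCert hL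
  have _ := @hPIN
  have hn : 0 < n := Nat.pos_of_ne_zero (NeZero.ne n)
  have hlen : ∀ e, Q.1 (c.lf e) < Q.1 (c.rt e) := by
    intro e
    have h1 := hL e
    have h2 := hw (c.lf e)
    have h3 := hw (c.rt e)
    linarith
  have hP : ∀ i, ProfOK univ (c.ty i) (fun _ => c.dl Q i) (sh.st (c.ty i)) := fun i =>
    hPST sh univ (c.ty i) (fun _ => c.dl Q i) (fun _ _ h => hCert.tip i h)
  have hB : ∀ i, ProfBd (c.ty i) 0 (c.sp sh i) := fun i => (hP i).bd 0 (mem_univ _)
  have hAdm := hCER c w (c.sp sh) 0 Q (0, Q.2) hV hw hB hCert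
  have cls := KNT.classify sh c w Q hVLN hV hB hC hw hlen hL
  have hD := KNT.Dk_mono sh c w Q hC hw hL
  have hDr : ∀ (l : ℤ) (r : ℝ), 1 / 4 < r → r < 3 / 4 → 2 * KNT.wk w l < KNT.Dk sh c w Q l r ∧
      KNT.Dk sh c w Q l r < KNT.Ln c Q l - 2 * KNT.wk w (l + 1) := by
    intro l r h1 h2
    rw [← KNT.Dk_quarter sh c w Q l, ← KNT.Dk_three sh c w Q l]
    exact ⟨hD l h1, hD l h2⟩
  have e8 : ∀ (k : ℤ) (t : ℝ), |t| ≤ 1 / 4 → |KNT.ek c k * (8 * t)| ≤ 2 := by
    intro k t ht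
    rw [abs_le] at ht ⊢
    rcases KNT.ek_sq c k with h | h <;> rw [h] <;> constructor <;> linarith
  have meetV : ∀ i j u v, KNT.Vc sh c w Q i u = KNT.Vc sh c w Q j v →
      Meet (c.vp w (c.sp sh) 0 Q (0, Q.2) i u) (c.vp w (c.sp sh) 0 Q (0, Q.2) j v) := by
    intro i j u v h
    exact ⟨congrArg (fun r : LC.R3 => r.1) h, congrArg (fun r : LC.R3 => r.2.1) h,
      congrArg (fun r : LC.R3 => r.2.2) h⟩
  have meetE : ∀ i j u v, KNT.Ec c Q i u = KNT.Ec c Q j v →
      Meet (c.ept Q (0, Q.2) i u) (c.ept Q (0, Q.2) j v) := by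
    intro i j u v h
    exact ⟨congrArg (fun r : LC.R3 => r.1) h, congrArg (fun r : LC.R3 => r.2.1) h,
      congrArg (fun r : LC.R3 => r.2.2) h⟩
  obtain ⟨Λ, hΛ, hprm⟩ := KNP.knot_of_local' hn (KNT.Gk sh c w Q)
    (by
      intro k
      have h1 := KNT.Vc_smooth sh c w Q (KNT.idx n k)
      have h2 := KNT.Uk_smooth sh c w Q k
      exact h1.comp (contDiff_const.mul h2))
    (by
      intro k
      have e1 : KNT.idx n (k + n) = KNT.idx n k := KNT.idx_add k
      have e2 : KNT.idx n (k + n + 1) = KNT.idx n (k + 1) := by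
        rw [show k + n + 1 = k + 1 + n by ring]; exact KNT.idx_add (k + 1)
      have e3 : KNT.idx n (k + n - 1) = KNT.idx n (k - 1) := by
        rw [show k + n - 1 = k - 1 + n by ring]; exact KNT.idx_add (k - 1)
      have e4 : KNT.idx n (k + n - 1 + 1) = KNT.idx n (k - 1 + 1) := by
        rw [show k + n - 1 + 1 = k - 1 + 1 + n by ring]; exact KNT.idx_add (k - 1 + 1)
      funext t
      unfold KNT.Gk KNT.Ak KNT.Uk KNT.ek KNT.Dk KNT.wk KNT.Ln
      rw [e1, e2, e3, e4])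
    (by
      intro k t h1 h2
      rw [KNT.Gk_edge sh c w Q hVLN hV hB hC hw hlen hL k t h1,
        KNT.Gk_edge' sh c w Q hVLN hV hB hC hw hlen hL k t h2])
    (by
      intro k t
      obtain ⟨d, hd0, hd⟩ := KNT.Uk_deriv sh c w Q hC hw hL k t
      have h1 := (KNT.Vc_deriv sh c w Q (KNT.idx n k) (hP _)
        (KNT.ek c k * KNT.Uk sh c w Q k t)).scomp t (hd.const_mul (KNT.ek c k))
      have h2 := h1.deriv
      have h3 : KNT.Gk sh c w Q k = (KNT.Vc sh c w Q (KNT.idx n k)) ∘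
        (fun t => KNT.ek c k * KNT.Uk sh c w Q k t) := rfl
      rw [h3, h2]
      apply smul_ne_zero
      · apply mul_ne_zero _ hd0
        rcases KNT.ek_sq c k with h | h <;> rw [h] <;> norm_num
      · intro h0
        rcases KNT.Vc_imm sh c w Q (KNT.idx n k) (hw _) (hP _)
          (KNT.ek c k * KNT.Uk sh c w Q k t) with h | h
        · exact h (congrArg (fun r : LC.R3 => r.1) h0)
        · exact h (congrArg (fun r : LC.R3 => r.2.1) h0))
    (by
      intro k t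
      obtain ⟨d, hd0, hd⟩ := KNT.Uk_deriv sh c w Q hC hw hL k t
      have h1 := (KNT.Vc_deriv sh c w Q (KNT.idx n k) (hP _)
        (KNT.ek c k * KNT.Uk sh c w Q k t)).scomp t (hd.const_mul (KNT.ek c k))
      have h2 := h1.deriv
      have h3 : KNT.Gk sh c w Q k = (KNT.Vc sh c w Q (KNT.idx n k)) ∘
        (fun t => KNT.ek c k * KNT.Uk sh c w Q k t) := rfl
      rw [h3, h2]
      have h4 : (KNT.Vc sh c w Q (KNT.idx n k) (KNT.ek c k * KNT.Uk sh c w Q k t)).2.1 =
          c.pe Q (c.ea (KNT.idx n k)) + c.dl Q (KNT.idx n k) *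
            sh.τ (KNT.ek c k * KNT.Uk sh c w Q k t) := by
        rw [KNT.Vc, KNT.vp_eq]; rfl
      simp only [LC.alpha, Prod.smul_snd, Prod.smul_fst, smul_eq_mul, Function.comp]
      rw [h4]
      ring)
    (by
      intro k t k' t' ht ht' heq
      rcases cls k t ht with ⟨a1, a2⟩ | ⟨l, r, a1, a2, a3, a4⟩
      · rcases cls k' t' ht' with ⟨b1, b2⟩ | ⟨l', r', b1, b2, b3, b4⟩
        · rw [a2, b2] at heq
          have hidx : KNT.idx n k = KNT.idx n k' := by
            by_contra hne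
            exact hAdm.vv _ _ hne _ _ (e8 k t a1) (e8 k' t' b1) (meetV _ _ _ _ heq)
          obtain ⟨m, hm⟩ := KNT.idx_eq hidx
          have hek : KNT.ek c k' = KNT.ek c k := by unfold KNT.ek; rw [hidx]
          rw [← hidx, hek] at heq
          have hu : KNT.ek c k * (8 * t) = KNT.ek c k * (8 * t') := by
            have hwi := hw (KNT.idx n k)
            have hm2 := meetV _ _ _ _ heq
            rw [Meet, KNT.vp_eq, KNT.vp_eq] at hm2
            refine (hP (KNT.idx n k)).inj 0 (mem_univ _) _ _ (e8 k t a1) ?_ ?_ ?_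
            · have := e8 k' t' b1; rwa [hek] at this
            · have h1 := hm2.1
              have h2 : w (KNT.idx n k) * (sh.st (c.ty (KNT.idx n k))).X 0 (KNT.ek c k * (8 * t)) =
                w (KNT.idx n k) * (sh.st (c.ty (KNT.idx n k))).X 0 (KNT.ek c k * (8 * t')) := by
                  linarith only [hm2]
              exact mul_left_cancel₀ hwi.ne' h2
            · have h1 := hm2.2.1
              have h2 : c.dl Q (KNT.idx n k) * sh.τ (KNT.ek c k * (8 * t)) =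
                c.dl Q (KNT.idx n k) * sh.τ (KNT.ek c k * (8 * t')) := by
                  simp only at h1; linarith
              exact h2
          have ht2 : t = t' := by
            rcases KNT.ek_sq c k with h | h <;> rw [h] at hu <;> linarith
          refine ⟨m, ?_⟩
          rw [hm, ht2]; push_cast; ring
        · exfalso
          rw [a2, b4] at heq
          obtain ⟨c1, c2⟩ := hDr l' r' b1 b2
          exact KNT.no_ve sh c w Q hC hw hlen hB hV hAdm.ve _ _ (e8 k t a1) l' _ c1 c2 heq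
      · rcases cls k' t' ht' with ⟨b1, b2⟩ | ⟨l', r', b1, b2, b3, b4⟩
        · exfalso
          rw [b2, a4] at heq
          obtain ⟨c1, c2⟩ := hDr l r a1 a2
          exact KNT.no_ve sh c w Q hC hw hlen hB hV hAdm.ve _ _ (e8 k' t' b1) l _ c1 c2 heq.symm
        · rw [a4, b4] at heq
          obtain ⟨c1, c2⟩ := hDr l r a1 a2
          obtain ⟨d1, d2⟩ := hDr l' r' b1 b2
          have hidx : KNT.idx n l = KNT.idx n l' := by
            by_contra hne
            exact hAdm.ee _ _ hne _ ((KNT.rg_iff c w Q hC hlen l _).2 ⟨c1.le, c2.le⟩) _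
              ((KNT.rg_iff c w Q hC hlen l' _).2 ⟨d1.le, d2.le⟩) (meetE _ _ _ _ heq)
          obtain ⟨m, hm⟩ := KNT.idx_eq hidx
          have hx := (meetE _ _ _ _ heq).1
          simp only [Comb.ept] at hx
          have g1 : KNT.xk Q l' = KNT.xk Q l := by unfold KNT.xk; rw [hidx]
          have g2 : KNT.sk c l' = KNT.sk c l := by unfold KNT.sk; rw [hidx]
          have g3 : KNT.Dk sh c w Q l' = KNT.Dk sh c w Q l := by
            funext t
            unfold KNT.Dk KNT.wk KNT.Ln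
            rw [KNT.idx_succ, KNT.idx_succ, hidx]
          rw [g1, g2, g3] at hx
          have hr : r = r' := by
            apply (hD l).injective
            rcases KNT.sk_sq c l with h | h <;> rw [h] at hx <;> (first | linarith only [hx] | linarith)
          refine ⟨m, ?_⟩
          rw [← b3, ← a3, hm, hr]; push_cast; ring)
  refine ⟨Λ, ?_, hprm⟩
  ext r
  rw [hΛ r, KNT.mem_knot]
  constructor
  · rintro ⟨k, t, ht, rfl⟩
    rcases cls k t ht with ⟨a1, a2⟩ | ⟨l, r, a1, a2, a3, a4⟩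
    · exact Or.inr ⟨_, _, e8 k t a1, a2⟩
    · obtain ⟨c1, c2⟩ := hDr l r a1 a2
      exact Or.inl ⟨_, _, (KNT.rg_iff c w Q hC hlen l _).2 ⟨c1.le, c2.le⟩, a4⟩
  · rintro (⟨e, x, hx, rfl⟩ | ⟨i, u, hu, rfl⟩)
    · obtain ⟨k, rfl⟩ := KNT.idx_surj e
      -- the distance
      obtain ⟨d, rfl⟩ : ∃ d, x = KNT.xk Q k + KNT.sk c k * d := by
        refine ⟨KNT.sk c k * (x - KNT.xk Q k), ?_⟩
        rcases KNT.sk_sq c k with h | h <;> rw [h] <;> ring
      rw [KNT.rg_iff c w Q hC hlen k d, ← KNT.Dk_quarter sh c w Q k,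
        ← KNT.Dk_three sh c w Q k] at hx
      have hcont : ContinuousOn (KNT.Dk sh c w Q k) (Icc (1 / 4) (3 / 4)) :=
        (KNT.D_smooth sh _ _ _).continuous.continuousOn
      obtain ⟨t, ht, htd⟩ := intermediate_value_Icc (by norm_num) hcont hx
      rcases le_or_gt t (1 / 2) with h | h
      · refine ⟨k, t, by rw [abs_le]; constructor <;> linarith [ht.1], ?_⟩
        rw [KNT.Gk_edge sh c w Q hVLN hV hB hC hw hlen hL k t ht.1, htd]
      · refine ⟨k + 1, t - 1, by rw [abs_le]; constructor <;> linarith [ht.2], ?_⟩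
        rw [KNT.Gk_edge' sh c w Q hVLN hV hB hC hw hlen hL k t ht.2, htd]
    · obtain ⟨k, rfl⟩ := KNT.idx_surj i
      have hek : KNT.ek c k * KNT.ek c k = 1 := by
        rcases KNT.ek_sq c k with h | h <;> rw [h] <;> norm_num
      have h4 : |KNT.ek c k * u / 8| ≤ 1 / 4 := by
        rw [abs_le] at hu ⊢
        rcases KNT.ek_sq c k with h | h <;> rw [h] <;> constructor <;> linarith
      refine ⟨k, KNT.ek c k * u / 8, h4.trans (by norm_num), ?_⟩
      rw [KNT.Gk_mid sh c w Q hw k _ h4]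
      congr 1
      have : KNT.ek c k * (8 * (KNT.ek c k * u / 8)) = (KNT.ek c k * KNT.ek c k) * u := by ring
      rw [this, hek, one_mul]

end LHE


end

section

/-!
# VXU: the parameter function `Uk`
-/

namespace LHE

open Set LG LH LCA
open scoped ContDiff

namespace VXU

variable {n : ℕ} [NeZero n] {sh : Shape} {c : Comb n n} {w : Fin n → ℝ} {Q : St n}
  {X₀ P₀ w₀ : ℝ} {M Z σ p ℓ : ℤ → ℤ}

theorem hw (h : Cfg c w Q X₀ P₀ w₀ M Z σ p ℓ) (i : Fin n) : 0 < w i := by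
  rw [h.w i]
  exact h.w0

theorem wk_eq (h : Cfg c w Q X₀ P₀ w₀ M Z σ p ℓ) (k : ℤ) : KNT.wk w k = w₀ := h.w _

theorem Ln_eq (h : Cfg c w Q X₀ P₀ w₀ M Z σ p ℓ) (k : ℤ) : KNT.Ln c Q k = X₀ * ℓ k := by
  have h1 := KNT.xk_succ c Q h.cyc h.len k
  have h2 : KNT.xk Q (k + 1) = X₀ * M (k + 1) := h.pos (k + 1)
  have h3 : KNT.xk Q k = X₀ * M k := h.pos k
  have h4 : (M (k + 1) : ℝ) = M k + σ k * ℓ k := by
    rw [h.M1 k]
    push_cast
    ring
  rw [h2, h3, h4] at h1
  have h5 : X₀ * ((σ k : ℝ) * ℓ k) = KNT.sk c k * KNT.Ln c Q k := by linarith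
  have hL : 0 < KNT.Ln c Q k := sub_pos.2 (h.len _)
  have hX := h.X0
  have hl : (1 : ℝ) ≤ ℓ k := by exact_mod_cast h.l1 k
  have hXl : 0 < X₀ * ℓ k := mul_pos hX (by linarith)
  rcases KNT.sk_sq c k with hs | hs <;> rcases h.s1 k with hσ | hσ
  · rw [hs, hσ] at h5
    push_cast at h5
    linarith
  · rw [hs, hσ] at h5
    push_cast at h5
    nlinarith
  · rw [hs, hσ] at h5
    push_cast at h5
    nlinarith
  · rw [hs, hσ] at h5
    push_cast at h5
    linarith

theorem hL (h : Cfg c w Q X₀ P₀ w₀ M Z σ p ℓ) (e : Fin n) :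
    6 * (w (c.lf e) + w (c.rt e)) < Q.1 (c.rt e) - Q.1 (c.lf e) := by
  obtain ⟨k, rfl⟩ := KNT.idx_surj e
  have h1 := Ln_eq h k
  have h2 : KNT.Ln c Q k = Q.1 (c.rt (KNT.idx n k)) - Q.1 (c.lf (KNT.idx n k)) := rfl
  rw [← h2, h1, h.w, h.w]
  have hl : (1 : ℝ) ≤ ℓ k := by exact_mod_cast h.l1 k
  have h3 : X₀ * 1 ≤ X₀ * ℓ k := mul_le_mul_of_nonneg_left hl h.X0.le
  have := h.wX
  have := h.w0
  linarith

theorem der (sh : Shape) (h : Cfg c w Q X₀ P₀ w₀ M Z σ p ℓ) (k : ℤ) (t : ℝ) :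
    ∃ d : ℝ, 0 < d ∧ HasDerivAt (KNT.Uk sh c w Q k) d t := by
  have hw := hw h
  have hL := hL h
  have hC := h.cyc
  have hwk := KNT.wk_pos w hw k
  have hd : HasDerivAt (KNT.Uk sh c w Q k)
      ((KNT.dDk sh c w Q k t + KNT.dDk sh c w Q (k - 1) (t + 1)) / KNT.wk w k - 8) t := by
    have h1 : HasDerivAt (KNT.Dk sh c w Q k) (KNT.dDk sh c w Q k t) t := KNT.D_deriv sh _ _ _ t
    have h2 : HasDerivAt (KNT.Dk sh c w Q (k - 1)) (KNT.dDk sh c w Q (k - 1) (t + 1)) (t + 1) :=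
      KNT.D_deriv sh _ _ _ (t + 1)
    have h3 : HasDerivAt (fun t => KNT.Dk sh c w Q (k - 1) (t + 1))
        (KNT.dDk sh c w Q (k - 1) (t + 1)) t :=
      h2.comp_add_const t 1
    have h4 : HasDerivAt (fun t : ℝ => 8 * t) 8 t := by
      simpa using (hasDerivAt_id t).const_mul 8
    exact (((h1.add h3).sub_const _).div_const _).sub h4
  refine ⟨_, ?_, hd⟩
  rcases le_or_gt t (1 / 4) with h' | h'
  · have h1 : KNT.dDk sh c w Q k t = 8 * KNT.wk w k := by unfold KNT.dDk; rw [KNT.dD_low sh h']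
    have h2 : 0 < KNT.dDk sh c w Q (k - 1) (t + 1) :=
      KNT.dD_pos sh (KNT.wk_pos w hw _) (KNT.wk_pos w hw _) (KNT.Ln_big c w Q hC hL (k - 1)) _
    rw [h1]
    have : (8 * KNT.wk w k + KNT.dDk sh c w Q (k - 1) (t + 1)) / KNT.wk w k - 8 =
        KNT.dDk sh c w Q (k - 1) (t + 1) / KNT.wk w k := by field_simp; ring
    rw [this]
    positivity
  · have h1 : KNT.dDk sh c w Q (k - 1) (t + 1) = 8 * KNT.wk w k := by
      unfold KNT.dDk; rw [KNT.dD_high sh (by linarith), sub_add_cancel]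
    have h2 : 0 < KNT.dDk sh c w Q k t :=
      KNT.dD_pos sh (KNT.wk_pos w hw _) (KNT.wk_pos w hw _) (KNT.Ln_big c w Q hC hL k) _
    rw [h1]
    have : (KNT.dDk sh c w Q k t + 8 * KNT.wk w k) / KNT.wk w k - 8 =
        KNT.dDk sh c w Q k t / KNT.wk w k := by field_simp; ring
    rw [this]
    positivity

end VXU

theorem t_VXU : Stmt_VXU := by
  intro n _ sh c w Q X₀ P₀ w₀ M Z σ p ℓ h k
  have hw := VXU.hw h
  have hL := VXU.hL h
  have h0 := h.w0
  refine ⟨?_, VXU.der sh h k, ?_, ?_⟩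
  · rw [KNT.Uk_mid sh c w Q hw (by norm_num)]
    norm_num
  · intro t ht0 ht1
    rw [KNT.Uk_ge sh c w Q hw (by linarith), VXU.wk_eq h]
    have h1 : KNT.Dk sh c w Q k t ≤ KNT.Dk sh c w Q k (3 / 4) :=
      (KNT.Dk_mono sh c w Q h.cyc hw hL k).monotone ht1
    rw [KNT.Dk_three, VXU.wk_eq h, VXU.Ln_eq h] at h1
    exact div_le_div_of_nonneg_right (by linarith) h0.le
  · intro t ht0 ht1
    rw [KNT.Uk_le sh c w Q hw (by linarith), VXU.wk_eq h, VXU.Ln_eq h]
    have h1 : KNT.Dk sh c w Q (k - 1) (1 / 4) ≤ KNT.Dk sh c w Q (k - 1) (t + 1) :=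
      (KNT.Dk_mono sh c w Q h.cyc hw hL (k - 1)).monotone (by linarith)
    rw [KNT.Dk_quarter, VXU.wk_eq h] at h1
    rw [← neg_div]
    exact div_le_div_of_nonneg_right (by linarith) h0.le

end LHE


end

section

/-!
# VLS: from vertices to lattice points
-/

namespace LHE

open Set LG LH LCA
open scoped ContDiff

namespace VLS

variable {n L : ℕ} {M Z σ p ℓ m z jx : ℤ → ℤ}

/-! ### the indices -/

theorem jx_mono (V : Ver n L M Z σ p ℓ m z jx) : StrictMono jx :=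
  strictMono_int_of_lt_succ (fun k => by
    have h1 := V.js k
    have h2 := V.l1 k
    omega)

theorem jx_add (V : Ver n L M Z σ p ℓ m z jx) (a : ℤ) (e : ℕ) : jx a + e ≤ jx (a + e) := by
  induction e with
  | zero => simp
  | succ e ih =>
    have h1 := V.js (a + e)
    have h2 := V.l1 (a + e)
    have h3 : a + ((e + 1 : ℕ) : ℤ) = a + e + 1 := by push_cast; ring
    rw [h3, h1]
    push_cast
    omega

theorem ex_kd (V : Ver n L M Z σ p ℓ m z jx) (i : ℤ) :
    ∃ k d, i = jx k + d ∧ 0 ≤ d ∧ d < ℓ k := by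
  obtain ⟨k, hk, hk'⟩ := Int.exists_greatest_of_bdd (P := fun k => jx k ≤ i)
    ⟨|i - jx 0|, fun k hk => by
      rcases le_or_gt k 0 with h | h
      · exact h.trans (abs_nonneg _)
      · have h1 := jx_add V 0 k.toNat
        have h2 : ((k.toNat : ℕ) : ℤ) = k := Int.toNat_of_nonneg h.le
        rw [h2, zero_add] at h1
        have h3 := le_abs_self (i - jx 0)
        have hk1 : jx k ≤ i := hk
        omega⟩
    ⟨-|i - jx 0|, by
      have h0 := abs_nonneg (i - jx 0)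
      have h1 := jx_add V (-|i - jx 0|) (|i - jx 0|).toNat
      have h2 : (((|i - jx 0|).toNat : ℕ) : ℤ) = |i - jx 0| := Int.toNat_of_nonneg h0
      rw [h2, neg_add_cancel] at h1
      have h3 := neg_abs_le (i - jx 0)
      change jx (-|i - jx 0|) ≤ i
      omega⟩
  refine ⟨k, i - jx k, by ring, by omega, ?_⟩
  by_contra hc
  have h1 := V.js k
  have h2 : k + 1 ≤ k := hk' (k + 1) (by omega)
  omega

theorem uq_kd (V : Ver n L M Z σ p ℓ m z jx) {k k' d d' : ℤ} (h : jx k + d = jx k' + d')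
    (h0 : 0 ≤ d) (h1 : d < ℓ k) (h0' : 0 ≤ d') (h1' : d' < ℓ k') : k = k' ∧ d = d' := by
  have hm := (jx_mono V).monotone
  have hk : k = k' := by
    rcases lt_trichotomy k k' with hl | hl | hl
    · have h2 := hm (show k + 1 ≤ k' by omega)
      have h3 := V.js k
      omega
    · exact hl
    · have h2 := hm (show k' + 1 ≤ k by omega)
      have h3 := V.js k'
      omega
  subst hk
  exact ⟨rfl, by omega⟩

theorem l_per (V : Ver n L M Z σ p ℓ m z jx) (k : ℤ) : ℓ (k + n) = ℓ k := by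
  have h1 := V.js (k + n)
  have h2 := V.js k
  have h3 := V.jp k
  have h4 := V.jp (k + 1)
  have h5 : k + 1 + (n : ℤ) = k + n + 1 := by ring
  rw [h5] at h4
  omega

theorem M_jx (V : Ver n L M Z σ p ℓ m z jx) (k : ℤ) : m (jx k) = M k := by
  have h := V.mm k 0 le_rfl (by have := V.l1 k; omega)
  simpa using h

theorem Z_jx (V : Ver n L M Z σ p ℓ m z jx) (k : ℤ) : z (jx k) = Z k := by
  have h := V.zz k 0 le_rfl (by have := V.l1 k; omega)
  simpa using h

theorem M_succ (V : Ver n L M Z σ p ℓ m z jx) (k : ℤ) : M (k + 1) = M k + σ k * ℓ k := by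
  have h := V.mm k (ℓ k) (by have := V.l1 k; omega) le_rfl
  rw [← V.js k, M_jx V] at h
  exact h

theorem sq1 (V : Ver n L M Z σ p ℓ m z jx) (k : ℤ) : σ k * σ k = 1 := by
  rcases V.s1 k with h | h <;> simp [h]

theorem sg_eq (V : Ver n L M Z σ p ℓ m z jx) {k d : ℤ} (h0 : 0 ≤ d) (h1 : d < ℓ k) :
    sg m (jx k + d) = σ k := by
  unfold sg
  have h2 := V.mm k d h0 h1.le
  have h3 := V.mm k (d + 1) (by omega) (by omega)
  rw [add_assoc, h3, h2]
  ring

theorem sl_eq (V : Ver n L M Z σ p ℓ m z jx) {k d : ℤ} (h0 : 0 ≤ d) (h1 : d < ℓ k) :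
    sl m z (jx k + d) = p k := by
  unfold sl
  have h2 := V.mm k d h0 h1.le
  have h3 := V.mm k (d + 1) (by omega) (by omega)
  have h4 := V.zz k d h0 h1.le
  have h5 := V.zz k (d + 1) (by omega) (by omega)
  rw [add_assoc, h3, h2, h4, h5]
  have h6 := sq1 V k
  calc (Z k + σ k * p k * (d + 1) - (Z k + σ k * p k * d)) *
        (M k + σ k * (d + 1) - (M k + σ k * d)) = p k * (σ k * σ k) := by ring
    _ = p k := by rw [h6, mul_one]

/-! ### the parameters -/

variable {Λ : LC.LegKnot} {X₀ P₀ w : ℝ}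

theorem x_smooth (Λ : LC.LegKnot) : ContDiff ℝ ∞ Λ.x := contDiff_fst.comp Λ.smooth

theorem x_per (Λ : LC.LegKnot) (u : ℝ) : Λ.x (u + 1) = Λ.x u := by
  change (Λ.γ (u + 1)).1 = (Λ.γ u).1
  rw [Λ.periodic]

theorem smon (T : VtS Λ X₀ P₀ w n M Z σ p) (k : ℤ) :
    StrictMonoOn (fun u => (σ k : ℝ) * Λ.x u) (Icc ((k : ℝ) / n) (((k : ℝ) + 1) / n)) := by
  apply strictMonoOn_of_deriv_pos (convex_Icc _ _)
  · exact (continuous_const.mul (x_smooth Λ).continuous).continuousOn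
  · intro u hu
    rw [interior_Icc] at hu
    have h1 : DifferentiableAt ℝ Λ.x u := (x_smooth Λ).differentiable (by simp) u
    rw [deriv_const_mul _ h1]
    exact T.dx k u hu

theorem scast (V : Ver n L M Z σ p ℓ m z jx) (k : ℤ) : (σ k : ℝ) = 1 ∨ (σ k : ℝ) = -1 := by
  rcases V.s1 k with h | h
  · left; rw [h]; norm_num
  · right; rw [h]; norm_num

theorem ssq (V : Ver n L M Z σ p ℓ m z jx) (k : ℤ) : (σ k : ℝ) * σ k = 1 := by
  rcases scast V k with h | h <;> rw [h] <;> norm_num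

/-- The parameter of a point of the path. -/
def R (Λ : LC.LegKnot) (X₀ : ℝ) (n : ℕ) (ℓ m jx : ℤ → ℤ) (i : ℤ) (u : ℝ) : Prop :=
  ∃ k d : ℤ, i = jx k + d ∧ 0 ≤ d ∧ d < ℓ k ∧ (d = 0 → u = (k : ℝ) / n) ∧
    (0 < d → (k : ℝ) / n < u ∧ u < ((k : ℝ) + 1) / n ∧ Λ.x u = X₀ * m i)

theorem kn_lt (T : VtS Λ X₀ P₀ w n M Z σ p) (k : ℤ) : (k : ℝ) / n < ((k : ℝ) + 1) / n := by
  have hn : (0 : ℝ) < n := by exact_mod_cast T.n0
  exact div_lt_div_of_pos_right (by linarith) hn

theorem ex_R (T : VtS Λ X₀ P₀ w n M Z σ p) (V : Ver n L M Z σ p ℓ m z jx) (i : ℤ) :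
    ∃ u, R Λ X₀ n ℓ m jx i u := by
  obtain ⟨k, d, hi, h0, h1⟩ := ex_kd V i
  rcases h0.eq_or_lt with hd | hd
  · exact ⟨(k : ℝ) / n, k, d, hi, h0, h1, fun _ => rfl, fun h => absurd hd.symm h.ne'⟩
  · have hX := T.X0
    have hw := T.w0
    have hwX := T.wX
    have hM : (M (k + 1) : ℝ) = M k + σ k * ℓ k := by exact_mod_cast M_succ V k
    have hm : (m i : ℝ) = M k + σ k * d := by
      have h := V.mm k d h0 h1.le
      rw [← hi] at h
      exact_mod_cast h
    have hs := ssq V k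
    have ha := abs_le.1 (T.tb k)
    have hb := abs_le.1 (T.tb (k + 1))
    have hk1 : ((k + 1 : ℤ) : ℝ) = (k : ℝ) + 1 := by push_cast; ring
    rw [hk1] at hb
    have hd1 : (1 : ℝ) ≤ d := by exact_mod_cast hd
    have hd2 : (d : ℝ) + 1 ≤ ℓ k := by exact_mod_cast h1
    have hc : ContinuousOn (fun u => (σ k : ℝ) * Λ.x u) (Icc ((k : ℝ) / n) (((k : ℝ) + 1) / n)) :=
      (continuous_const.mul (x_smooth Λ).continuous).continuousOn
    have hI := intermediate_value_Ioo (kn_lt T k).le hc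
    have hv : (σ k : ℝ) * (X₀ * m i) ∈ Ioo ((σ k : ℝ) * Λ.x ((k : ℝ) / n))
        ((σ k : ℝ) * Λ.x (((k : ℝ) + 1) / n)) := by
      rw [hm]
      have e1 : (σ k : ℝ) * (X₀ * ((M k : ℝ) + σ k * d)) = σ k * (X₀ * M k) + X₀ * d := by
        calc (σ k : ℝ) * (X₀ * ((M k : ℝ) + σ k * d))
            = σ k * (X₀ * M k) + (σ k * σ k) * (X₀ * d) := by ring
          _ = _ := by rw [hs, one_mul]
      have e2 : (σ k : ℝ) * (X₀ * M (k + 1)) = σ k * (X₀ * M k) + X₀ * ℓ k := by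
        rw [hM]
        calc (σ k : ℝ) * (X₀ * ((M k : ℝ) + σ k * ℓ k))
            = σ k * (X₀ * M k) + (σ k * σ k) * (X₀ * ℓ k) := by ring
          _ = _ := by rw [hs, one_mul]
      have f1 : X₀ * 1 ≤ X₀ * d := mul_le_mul_of_nonneg_left hd1 hX.le
      have f2 : X₀ * ((d : ℝ) + 1) ≤ X₀ * ℓ k := mul_le_mul_of_nonneg_left hd2 hX.le
      rw [e1]
      rcases scast V k with h | h
      · rw [h] at e2 ⊢
        constructor <;> (first | linarith only [hw, hwX, ha, f1] | linarith only [hw, hwX, hb, e2, f2] | linarith [ha.1, ha.2, hb.1, hb.2])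
      · rw [h] at e2 ⊢
        constructor <;> (first | linarith only [hw, hwX, ha, f1] | linarith only [hw, hwX, hb, e2, f2] | linarith [ha.1, ha.2, hb.1, hb.2])
    obtain ⟨u, hu, hxu⟩ := hI hv
    refine ⟨u, k, d, hi, h0, h1, fun h => absurd h hd.ne', fun _ => ⟨hu.1, hu.2, ?_⟩⟩
    have h2 : (σ k : ℝ) * Λ.x u = σ k * (X₀ * m i) := hxu
    rcases scast V k with h | h
    · rw [h] at h2; linarith only [h2]
    · rw [h] at h2; linarith only [h2]

/-- What is known about the parameters. -/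
structure Sp (Λ : LC.LegKnot) (X₀ : ℝ) (n : ℕ) (ℓ m jx : ℤ → ℤ) (ν : ℤ → ℝ) : Prop where
  z : ∀ k, ν (jx k) = (k : ℝ) / n
  i : ∀ k d, 0 < d → d < ℓ k → (k : ℝ) / n < ν (jx k + d) ∧ ν (jx k + d) < ((k : ℝ) + 1) / n ∧
    Λ.x (ν (jx k + d)) = X₀ * m (jx k + d)

theorem ex_nu (T : VtS Λ X₀ P₀ w n M Z σ p) (V : Ver n L M Z σ p ℓ m z jx) :
    ∃ ν, Sp Λ X₀ n ℓ m jx ν := by
  choose ν hν using ex_R T V
  refine ⟨ν, fun k => ?_, fun k d h0 h1 => ?_⟩
  · obtain ⟨k', d', hi, h0', h1', hz, -⟩ := hν (jx k)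
    have hl := V.l1 k
    obtain ⟨rfl, hd⟩ := uq_kd V (k := k) (d := 0) (by rw [add_zero]; exact hi) le_rfl (by omega)
      h0' h1'
    exact hz hd.symm
  · obtain ⟨k', d', hi, h0', h1', -, hp⟩ := hν (jx k + d)
    obtain ⟨rfl, hd⟩ := uq_kd V hi h0.le h1 h0' h1'
    exact hp (by omega)

variable {ν : ℤ → ℝ}

theorem end_eq (V : Ver n L M Z σ p ℓ m z jx) (S : Sp Λ X₀ n ℓ m jx ν) (k : ℤ) :
    ν (jx k + ℓ k) = ((k : ℝ) + 1) / n := by
  rw [← V.js k, S.z (k + 1)]
  push_cast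
  ring

theorem in_Icc (T : VtS Λ X₀ P₀ w n M Z σ p) (V : Ver n L M Z σ p ℓ m z jx)
    (S : Sp Λ X₀ n ℓ m jx ν) {k d : ℤ} (h0 : 0 ≤ d) (h1 : d ≤ ℓ k) :
    ν (jx k + d) ∈ Icc ((k : ℝ) / n) (((k : ℝ) + 1) / n) := by
  have h := kn_lt T k
  rcases h0.eq_or_lt with hd | hd
  · rw [← hd, add_zero, S.z k]
    exact ⟨le_rfl, h.le⟩
  · rcases h1.eq_or_lt with he | he
    · rw [he, end_eq V S k]
      exact ⟨h.le, le_rfl⟩
    · obtain ⟨a, b, -⟩ := S.i k d hd he
      exact ⟨a.le, b.le⟩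

theorem nu_lt (T : VtS Λ X₀ P₀ w n M Z σ p) (V : Ver n L M Z σ p ℓ m z jx)
    (S : Sp Λ X₀ n ℓ m jx ν) {k d : ℤ} (h0 : 0 ≤ d) (h1 : d < ℓ k) :
    ν (jx k + d) < ν (jx k + (d + 1)) := by
  have h := kn_lt T k
  rcases h0.eq_or_lt with hd | hd
  · rw [← hd, add_zero, S.z k, zero_add]
    rcases (show (1 : ℤ) ≤ ℓ k by omega).eq_or_lt with he | he
    · rw [he, end_eq V S k]
      exact h
    · exact (S.i k 1 one_pos he).1
  · obtain ⟨a, b, c⟩ := S.i k d hd h1
    rcases (show d + 1 ≤ ℓ k by omega).eq_or_lt with he | he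
    · rw [he, end_eq V S k]
      exact b
    · obtain ⟨a', b', c'⟩ := S.i k (d + 1) (by omega) he
      by_contra hc
      rw [not_lt] at hc
      have h2 := (smon T k).monotoneOn ⟨a'.le, b'.le⟩ ⟨a.le, b.le⟩ hc
      have h3 : (σ k : ℝ) * Λ.x (ν (jx k + (d + 1))) ≤ σ k * Λ.x (ν (jx k + d)) := h2
      rw [c, c'] at h3
      have e1 : (m (jx k + d) : ℝ) = M k + σ k * d := by
        exact_mod_cast V.mm k d h0 h1.le
      have e2 : (m (jx k + (d + 1)) : ℝ) = M k + σ k * ((d : ℝ) + 1) := by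
        exact_mod_cast V.mm k (d + 1) (by omega) he.le
      rw [e1, e2] at h3
      have hs := ssq V k
      have hX := T.X0
      have e3 : (σ k : ℝ) * (X₀ * ((M k : ℝ) + σ k * ((d : ℝ) + 1))) =
          σ k * (X₀ * ((M k : ℝ) + σ k * d)) + X₀ * (σ k * σ k) := by ring
      rw [e3, hs] at h3
      linarith only [h3, hX]

/-- The line through the vertex is the line through the point. -/
theorem line (T : VtS Λ X₀ P₀ w n M Z σ p) (V : Ver n L M Z σ p ℓ m z jx) {k d : ℤ}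
    (h0 : 0 ≤ d) (h1 : d ≤ ℓ k) {u : ℝ} (hu : u ∈ Icc ((k : ℝ) / n) (((k : ℝ) + 1) / n))
    (ha : w ≤ (σ k : ℝ) * (Λ.x u - X₀ * m (jx k + d)) + X₀ * d)
    (hb : w ≤ X₀ * (ℓ k - d) - (σ k : ℝ) * (Λ.x u - X₀ * m (jx k + d))) (t : ℝ) :
    TL Λ u t = X₀ * P₀ * z (jx k + d) + P₀ * p k * (t - X₀ * m (jx k + d)) := by
  have hs := ssq V k
  have e1 : (m (jx k + d) : ℝ) = M k + σ k * d := by exact_mod_cast V.mm k d h0 h1
  have e2 : (z (jx k + d) : ℝ) = Z k + σ k * p k * d := by exact_mod_cast V.zz k d h0 h1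
  have hM : (M (k + 1) : ℝ) = M k + σ k * ℓ k := by exact_mod_cast M_succ V k
  have h2 := T.zi k u hu
    (by
      rw [e1] at ha
      have e3 : (σ k : ℝ) * (Λ.x u - X₀ * ((M k : ℝ) + σ k * d)) + X₀ * d =
          (σ k : ℝ) * (Λ.x u - X₀ * M k) + X₀ * d * (1 - σ k * σ k) := by ring
      rw [e3, hs, sub_self, mul_zero, add_zero] at ha
      exact ha)
    (by
      rw [e1] at hb
      rw [hM]
      have e3 : X₀ * ((ℓ k : ℝ) - d) - (σ k : ℝ) * (Λ.x u - X₀ * ((M k : ℝ) + σ k * d)) =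
          (σ k : ℝ) * (X₀ * ((M k : ℝ) + σ k * ℓ k) - Λ.x u) +
            X₀ * ((ℓ k : ℝ) - d) * (1 - σ k * σ k) := by ring
      rw [e3, hs, sub_self, mul_zero, add_zero] at hb
      exact hb) t
  rw [h2, e1, e2]
  ring

/-- The previous point of a vertex. -/
theorem prev (V : Ver n L M Z σ p ℓ m z jx) (k : ℤ) :
    jx k - 1 = jx (k - 1) + (ℓ (k - 1) - 1) := by
  have h := V.js (k - 1)
  rw [sub_add_cancel] at h
  omega

theorem per_nu (T : VtS Λ X₀ P₀ w n M Z σ p) (V : Ver n L M Z σ p ℓ m z jx)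
    (S : Sp Λ X₀ n ℓ m jx ν) (i : ℤ) : ν (i + L) = ν i + 1 := by
  obtain ⟨k, d, rfl, h0, h1⟩ := ex_kd V i
  have hn : (0 : ℝ) < n := by exact_mod_cast T.n0
  have e : jx k + d + (L : ℤ) = jx (k + n) + d := by rw [V.jp k]; ring
  have hk : ((k + n : ℤ) : ℝ) / n = (k : ℝ) / n + 1 := by
    push_cast
    rw [add_div, div_self hn.ne']
  have hk' : (((k + n : ℤ) : ℝ) + 1) / n = ((k : ℝ) + 1) / n + 1 := by
    push_cast
    field_simp
    ring
  rcases h0.eq_or_lt with hd | hd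
  · rw [e, ← hd, add_zero, add_zero, S.z k, S.z (k + n), hk]
  · obtain ⟨a, b, c⟩ := S.i k d hd h1
    obtain ⟨a', b', c'⟩ := S.i (k + n) d hd (by rw [l_per V k]; exact h1)
    have hx : Λ.x (ν (jx k + d + (L : ℤ))) = Λ.x (ν (jx k + d) + 1) := by
      rw [x_per, c, e, c', ← e, V.mp]
    rw [e] at hx ⊢
    refine (smon T (k + n)).injOn ⟨a'.le, b'.le⟩ ⟨?_, ?_⟩ ?_
    · rw [hk]; linarith
    · rw [hk']; linarith
    · rw [hx]

end VLS

open _root_.LHE.VLS in
theorem t_VLS : Stmt_VLS := by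
  intro Λ X₀ P₀ w n L M Z σ p ℓ m z jx _ T V
  obtain ⟨ν, S⟩ := ex_nu T V
  have hX := T.X0
  have hP := T.P0
  have hw := T.w0
  have hwX := T.wX
  -- the point `i` in the edge `k`
  have hIccE : ∀ (k d : ℤ), 0 ≤ d → d < ℓ k → ∀ u, u ∈ Icc (ν (jx k + d)) (ν (jx k + d + 1)) →
      u ∈ Icc ((k : ℝ) / n) (((k : ℝ) + 1) / n) := by
    intro k d h0 h1 u hu
    have h2 := in_Icc T V S h0 h1.le
    have h3 := in_Icc T V S (k := k) (d := d + 1) (by omega) (by omega)
    rw [← add_assoc] at h3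
    exact ⟨h2.1.trans hu.1, hu.2.trans h3.2⟩
  have hprev : ∀ (k : ℤ) (f : ℤ → ℝ), f (jx k - 1) = f (jx (k - 1) + (ℓ (k - 1) - 1)) := by
    intro k f
    rw [prev V k]
  have hsp : ∀ k, sg m (jx k - 1) = σ (k - 1) ∧ sl m z (jx k - 1) = p (k - 1) := by
    intro k
    have hl := V.l1 (k - 1)
    rw [prev V k]
    exact ⟨sg_eq V (by omega) (by omega), sl_eq V (by omega) (by omega)⟩
  have hs0 : ∀ k, sg m (jx k) = σ k ∧ sl m z (jx k) = p k := by
    intro k
    have hl := V.l1 k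
    have h1 := sg_eq V (k := k) (d := 0) le_rfl (by omega)
    have h2 := sl_eq V (k := k) (d := 0) le_rfl (by omega)
    rw [add_zero] at h1 h2
    exact ⟨h1, h2⟩
  have hsd : ∀ k d, 0 < d → d < ℓ k → sg m (jx k + d - 1) = σ k ∧ sl m z (jx k + d - 1) = p k ∧
      sg m (jx k + d) = σ k ∧ sl m z (jx k + d) = p k := by
    intro k d h0 h1
    have e : jx k + d - 1 = jx k + (d - 1) := by ring
    rw [e]
    exact ⟨sg_eq V (by omega) (by omega), sl_eq V (by omega) (by omega),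
      sg_eq V h0.le h1, sl_eq V h0.le h1⟩
  have hlow : ∀ k : ℤ, ((k : ℝ) - 1) / n ≤ ν (jx k - 1) := by
    intro k
    have hl := V.l1 (k - 1)
    have h := (in_Icc T V S (k := k - 1) (d := ℓ (k - 1) - 1) (by omega) (by omega)).1
    rw [prev V k]
    have e : ((k - 1 : ℤ) : ℝ) = (k : ℝ) - 1 := by push_cast; ring
    rw [e] at h
    exact h
  have hupp : ∀ k : ℤ, ν (jx k + 1) ≤ ((k : ℝ) + 1) / n := by
    intro k
    have hl := V.l1 k
    exact (in_Icc T V S (k := k) (d := 1) (by omega) hl).2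
  -- interior points
  have hint : ∀ k d, 0 < d → d < ℓ k → ∀ u ∈ Icc (ν (jx k + d - 1)) (ν (jx k + d + 1)),
      |Λ.x u - X₀ * m (jx k + d)| ≤ 3 / 4 * X₀ → ∀ t, TL Λ u t =
        X₀ * P₀ * z (jx k + d) + P₀ * p k * (t - X₀ * m (jx k + d)) := by
    intro k d h0 h1 u hu hxu t
    have hl : u ∈ Icc ((k : ℝ) / n) (((k : ℝ) + 1) / n) := by
      have h2 := in_Icc T V S (k := k) (d := d - 1) (by omega) (by omega)
      have h3 := in_Icc T V S (k := k) (d := d + 1) (by omega) (by omega)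
      have e : jx k + d - 1 = jx k + (d - 1) := by ring
      have e' : jx k + d + 1 = jx k + (d + 1) := by ring
      rw [e, e'] at hu
      exact ⟨h2.1.trans hu.1, hu.2.trans h3.2⟩
    have hd1 : (1 : ℝ) ≤ d := by exact_mod_cast h0
    have hd2 : (1 : ℝ) ≤ (ℓ k : ℝ) - d := by
      have : (d : ℝ) + 1 ≤ ℓ k := by exact_mod_cast h1
      linarith
    have f1 : X₀ * 1 ≤ X₀ * d := mul_le_mul_of_nonneg_left hd1 hX.le
    have f2 : X₀ * 1 ≤ X₀ * ((ℓ k : ℝ) - d) := mul_le_mul_of_nonneg_left hd2 hX.le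
    have ha := abs_le.1 hxu
    refine line T V h0.le h1.le hl ?_ ?_ t
    · rcases scast V k with h | h <;> rw [h] <;> linarith [ha.1, ha.2]
    · rcases scast V k with h | h <;> rw [h] <;> linarith [ha.1, ha.2]
  refine ⟨ν, hX, hP, hw, hwX, ?_, per_nu T V S, ?_, ?_, ?_, ?_, ?_, ?_, ?_, ?_, ?_, ?_⟩
  · -- mono
    intro i
    obtain ⟨k, d, rfl, h0, h1⟩ := ex_kd V i
    have h := nu_lt T V S h0 h1
    rw [← add_assoc] at h
    exact h
  · -- dx
    intro i u hu
    obtain ⟨k, d, rfl, h0, h1⟩ := ex_kd V i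
    rw [sg_eq V h0 h1]
    have h2 := in_Icc T V S h0 h1.le
    have h3 := in_Icc T V S (k := k) (d := d + 1) (by omega) (by omega)
    rw [← add_assoc] at h3
    exact T.dx k u ⟨lt_of_le_of_lt h2.1 hu.1, lt_of_lt_of_le hu.2 h3.2⟩
  · -- vx
    intro i hi
    obtain ⟨k, d, rfl, h0, h1⟩ := ex_kd V i
    rcases h0.eq_or_lt with hd | hd
    · subst hd
      rw [add_zero] at hi ⊢
      rw [(hsp k).1, (hs0 k).1] at hi
      rw [S.z k, M_jx V, (hs0 k).1]
      exact T.vx k hi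
    · obtain ⟨a, b, c⟩ := S.i k d hd h1
      rw [(hsd k d hd h1).2.2.1]
      exact ⟨c, T.dx k _ ⟨a, b⟩⟩
  · -- tx
    intro i hi
    obtain ⟨k, d, rfl, h0, h1⟩ := ex_kd V i
    rcases h0.eq_or_lt with hd | hd
    · subst hd
      rw [add_zero] at hi ⊢
      rw [(hsp k).1, (hs0 k).1] at hi
      rw [S.z k, M_jx V, (hs0 k).1]
      exact T.tx k hi
    · exact absurd ((hsd k d hd h1).1.trans (hsd k d hd h1).2.2.1.symm) hi
  · -- tb
    intro i
    obtain ⟨k, d, rfl, h0, h1⟩ := ex_kd V i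
    rcases h0.eq_or_lt with hd | hd
    · subst hd
      rw [add_zero, S.z k, M_jx V]
      exact T.tb k
    · rw [(S.i k d hd h1).2.2, sub_self, abs_zero]
      positivity
  · -- zs
    intro i hi hi' u hu hxu t
    obtain ⟨k, d, rfl, h0, h1⟩ := ex_kd V i
    rcases h0.eq_or_lt with hd | hd
    · subst hd
      rw [add_zero, (hsp k).2, (hs0 k).2] at hi'
      exact absurd hi' (V.alt k)
    · rw [(hsd k d hd h1).2.2.2]
      exact hint k d hd h1 u hu hxu t
  · -- zb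
    intro i u hu hxu t ht
    obtain ⟨k, d, rfl, h0, h1⟩ := ex_kd V i
    rcases h0.eq_or_lt with hd | hd
    · subst hd
      rw [add_zero] at hu hxu ht ⊢
      rw [M_jx V] at hxu ht
      rw [Z_jx V]
      exact T.zb k u ⟨(hlow k).trans hu.1, hu.2.trans (hupp k)⟩ hxu t ht
    · rw [hint k d hd h1 u hu hxu t, add_sub_cancel_left, abs_mul, abs_mul, abs_of_pos hP]
      have hp : |(p k : ℝ)| = 1 := by
        rcases V.p1 k with h | h <;> rw [h] <;> norm_num
      rw [hp, mul_one]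
      calc P₀ * |t - X₀ * m (jx k + d)| ≤ P₀ * (51 / 100 * X₀) :=
            mul_le_mul_of_nonneg_left ht hP.le
        _ ≤ 5 / 8 * (X₀ * P₀) := by
            have := mul_pos hX hP
            linarith only [this]
  · -- zi
    intro i u hu ha hb t
    obtain ⟨k, d, hi, h0, h1⟩ := ex_kd V (i - 1)
    have hi' : i = jx k + (d + 1) := by omega
    have hu' : u ∈ Icc ((k : ℝ) / n) (((k : ℝ) + 1) / n) := by
      refine hIccE k d h0 h1 u ?_
      rw [← hi, sub_add_cancel]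
      exact hu
    rw [hi, sg_eq V h0 h1] at ha hb
    rw [hi, sl_eq V h0 h1]
    have hd1 : (0 : ℝ) ≤ d := by exact_mod_cast h0
    have hd2 : (0 : ℝ) ≤ (ℓ k : ℝ) - ((d + 1 : ℤ) : ℝ) := by
      have : ((d + 1 : ℤ) : ℝ) ≤ ℓ k := by exact_mod_cast h1
      linarith
    have f1 : 0 ≤ X₀ * d := mul_nonneg hX.le hd1
    have f2 : 0 ≤ X₀ * ((ℓ k : ℝ) - ((d + 1 : ℤ) : ℝ)) := mul_nonneg hX.le hd2
    have e : X₀ * ((d + 1 : ℤ) : ℝ) = X₀ * d + X₀ := by push_cast; ring
    rw [hi'] at ha hb ⊢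
    refine line T V (by omega) (by omega) hu' ?_ ?_ t
    · rw [e]; linarith
    · linarith
  · -- zo
    intro i u hu ha hb t
    obtain ⟨k, d, rfl, h0, h1⟩ := ex_kd V i
    have hu' := hIccE k d h0 h1 u hu
    rw [sg_eq V h0 h1] at ha hb
    rw [sl_eq V h0 h1]
    have hd1 : (0 : ℝ) ≤ d := by exact_mod_cast h0
    have hd2 : (1 : ℝ) ≤ (ℓ k : ℝ) - d := by
      have : (d : ℝ) + 1 ≤ ℓ k := by exact_mod_cast h1
      linarith
    have f1 : 0 ≤ X₀ * d := mul_nonneg hX.le hd1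
    have f2 : X₀ * 1 ≤ X₀ * ((ℓ k : ℝ) - d) := mul_le_mul_of_nonneg_left hd2 hX.le
    refine line T V h0 h1.le hu' ?_ ?_ t
    · linarith
    · linarith
  · -- ym
    intro i hi u hu hxu
    obtain ⟨k, d, rfl, h0, h1⟩ := ex_kd V i
    rcases h0.eq_or_lt with hd | hd
    · subst hd
      rw [add_zero] at hi hu hxu ⊢
      rw [(hsp k).1, (hs0 k).1] at hi
      rw [M_jx V] at hxu
      rw [(hsp k).2, (hs0 k).2]
      exact T.ym k hi u ⟨lt_of_le_of_lt (hlow k) hu.1, lt_of_lt_of_le hu.2 (hupp k)⟩ hxu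
    · exact absurd ((hsd k d hd h1).1.trans (hsd k d hd h1).2.2.1.symm) hi
  · -- yt
    intro i hi u hu hxu
    obtain ⟨k, d, rfl, h0, h1⟩ := ex_kd V i
    rcases h0.eq_or_lt with hd | hd
    · subst hd
      rw [add_zero] at hi hu hxu
      rw [(hsp k).1, (hs0 k).1] at hi
      rw [M_jx V, (hs0 k).1] at hxu
      exact T.yt k hi u ⟨lt_of_le_of_lt (hlow k) hu.1, lt_of_lt_of_le hu.2 (hupp k)⟩ hxu
    · exact absurd ((hsd k d hd h1).1.trans (hsd k d hd h1).2.2.1.symm) hi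

end LHE


end

section

/-!
# The combinatorial data of the arcs of a lattice path
-/

namespace LHE

open Set LG LH

namespace ARD

/-- The start of the arc `k`. -/
theorem st_code (m : ℤ → ℤ) (k : ℤ) :
    cs m k = if gd m k = true then ca m k else ca m k + 1 := by
  unfold cs gd ca
  rcases (show k % 3 = 0 ∨ k % 3 = 1 ∨ k % 3 = 2 by omega) with h | h | h
  · rw [if_pos h, if_neg (show ¬ k % 3 = 2 by omega), if_pos h]
    by_cases h1 : sg m (k / 3 - 1) = 1
    · rw [if_pos h1, if_pos (decide_eq_true h1), if_pos h1]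
    · rw [if_neg h1, if_neg (fun h' => h1 (of_decide_eq_true h')), if_neg h1]
      ring
  · rw [if_neg (show ¬ k % 3 = 0 by omega), if_pos h, if_neg (show ¬ k % 3 = 2 by omega),
      if_neg (show ¬ k % 3 = 0 by omega), if_pos h]
    by_cases h1 : sg m (k / 3 - 1) = 1
    · rw [if_pos h1, if_pos (decide_eq_true h1)]
    · rw [if_neg h1, if_neg (fun h' => h1 (of_decide_eq_true h'))]
  · rw [if_neg (show ¬ k % 3 = 0 by omega), if_neg (show ¬ k % 3 = 1 by omega), if_pos h,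
      if_neg (show ¬ k % 3 = 0 by omega), if_neg (show ¬ k % 3 = 1 by omega)]
    by_cases h1 : sg m (k / 3) = 1
    · rw [if_pos h1, if_pos (decide_eq_true h1), if_pos h1]
    · rw [if_neg h1, if_neg (fun h' => h1 (of_decide_eq_true h')), if_neg h1]
      ring

/-- The end of the arc `k`. -/
theorem en_code (m : ℤ → ℤ) (dm : ∀ i, m (i + 1) = m i + 1 ∨ m (i + 1) = m i - 1) (k : ℤ) :
    cs m (k + 1) = if gd m (k + 1) = true then ca m k + 1 else ca m k := by
  unfold cs gd ca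
  rcases (show k % 3 = 0 ∨ k % 3 = 1 ∨ k % 3 = 2 by omega) with h | h | h
  · have e : (k + 1) / 3 = k / 3 := by omega
    rw [if_neg (show ¬ (k + 1) % 3 = 0 by omega), if_pos (show (k + 1) % 3 = 1 by omega),
      if_neg (show ¬ (k + 1) % 3 = 2 by omega), if_pos h, e]
    by_cases h1 : sg m (k / 3 - 1) = 1
    · rw [if_pos h1, if_pos (decide_eq_true h1), if_pos h1]
      ring
    · rw [if_neg h1, if_neg (fun h' => h1 (of_decide_eq_true h')), if_neg h1]
  · have e : (k + 1) / 3 = k / 3 := by omega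
    rw [if_neg (show ¬ (k + 1) % 3 = 0 by omega), if_neg (show ¬ (k + 1) % 3 = 1 by omega),
      if_pos (show (k + 1) % 3 = 2 by omega), if_neg (show ¬ k % 3 = 0 by omega), if_pos h, e]
    by_cases h1 : sg m (k / 3) = 1
    · rw [if_pos h1, if_pos (decide_eq_true h1)]
    · rw [if_neg h1, if_neg (fun h' => h1 (of_decide_eq_true h'))]
  · have e : (k + 1) / 3 = k / 3 + 1 := by omega
    rw [if_pos (show (k + 1) % 3 = 0 by omega), if_neg (show ¬ (k + 1) % 3 = 2 by omega),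
      if_neg (show ¬ k % 3 = 0 by omega), if_neg (show ¬ k % 3 = 1 by omega), e,
      add_sub_cancel_right]
    by_cases h1 : sg m (k / 3) = 1
    · rw [if_pos h1, if_pos (decide_eq_true h1), if_pos h1]
      unfold sg at h1
      omega
    · rw [if_neg h1, if_neg (fun h' => h1 (of_decide_eq_true h')), if_neg h1]
      unfold sg at h1
      rcases dm (k / 3) with h2 | h2 <;> omega

theorem sg_per {L : ℕ} {m : ℤ → ℤ} (pm : ∀ i, m (i + L) = m i) (i : ℤ) :
    sg m (i + L) = sg m i := by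
  unfold sg
  rw [pm i, show i + (L : ℤ) + 1 = i + 1 + L by ring, pm (i + 1)]

theorem kdiv (L : ℕ) (k : ℤ) : (k + ((3 * L : ℕ) : ℤ)) / 3 = k / 3 + L := by
  push_cast
  omega

theorem kmod (L : ℕ) (k : ℤ) : (k + ((3 * L : ℕ) : ℤ)) % 3 = k % 3 := by
  push_cast
  omega

theorem cs_per {L : ℕ} {m : ℤ → ℤ} (pm : ∀ i, m (i + L) = m i) (k : ℤ) :
    cs m (k + ((3 * L : ℕ) : ℤ)) = cs m k := by
  unfold cs
  rw [kdiv, kmod, pm, show k / 3 + (L : ℤ) - 1 = k / 3 - 1 + L by ring, sg_per pm, sg_per pm]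

theorem ca_per {L : ℕ} {m : ℤ → ℤ} (pm : ∀ i, m (i + L) = m i) (k : ℤ) :
    ca m (k + ((3 * L : ℕ) : ℤ)) = ca m k := by
  unfold ca
  rw [kdiv, kmod, pm, show k / 3 + (L : ℤ) - 1 = k / 3 - 1 + L by ring, sg_per pm, sg_per pm]

theorem gd_per {L : ℕ} {m : ℤ → ℤ} (pm : ∀ i, m (i + L) = m i) (k : ℤ) :
    gd m (k + ((3 * L : ℕ) : ℤ)) = gd m k := by
  unfold gd
  rw [kdiv, kmod, show k / 3 + (L : ℤ) - 1 = k / 3 - 1 + L by ring, sg_per pm, sg_per pm]

theorem ca_rng {m : ℤ → ℤ} {lo hi : ℤ} (h : Rng m lo hi) (k : ℤ) :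
    lo ≤ ca m k ∧ ca m k + 1 ≤ hi := by
  have h1 := h (k / 3)
  unfold ca
  split_ifs <;> omega

end ARD

theorem t_ARD : Stmt_ARD := by
  intro hN X₀ w ε L m z lo hi hX hw hwX hD hR
  obtain ⟨-, hadj⟩ := hN X₀ w ε hX hw hwX
  refine ⟨by have := hD.Lpos; omega, fun k => ?_, fun k => ?_, fun k => ?_, fun k => ?_,
    fun k => ?_, fun k => ?_, fun k => ?_, ⟨0, ?_⟩⟩
  · unfold sR
    rw [ARD.cs_per hD.pm]
  · unfold aR
    rw [ARD.ca_per hD.pm]
  · unfold bR
    rw [ARD.ca_per hD.pm]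
  · exact ARD.gd_per hD.pm k
  · obtain ⟨h1, h2⟩ := ARD.ca_rng hR k
    exact (hadj lo hi _ _).2 ⟨ca m k, h1, h2, rfl, rfl⟩
  · unfold sR aR bR
    rw [ARD.st_code m k]
    by_cases h : gd m k = true
    · rw [if_pos h, if_pos h]
    · rw [if_neg h, if_neg h]
  · unfold sR aR bR
    rw [ARD.en_code m hD.dm k]
    by_cases h : gd m (k + 1) = true
    · rw [if_pos h, if_pos h]
    · rw [if_neg h, if_neg h]
  · unfold gd
    simp

end LHE


end

section

/-!
# THT: the parameters of the arcs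
-/

set_option autoImplicit false

namespace LHE

open Set LG LH

namespace THT

theorem diff_x (Λ : LC.LegKnot) : Differentiable ℝ Λ.x := by
  have h : Differentiable ℝ Λ.γ := Λ.smooth.differentiable (by simp)
  intro u
  exact (h u).fst

theorem x_per (Λ : LC.LegKnot) (u : ℝ) : Λ.x (u + 1) = Λ.x u := by
  unfold LC.LegKnot.x
  rw [Λ.periodic]

/-- The edge on which the arc `k` starts. -/
def eg (k : ℤ) : ℤ := if k % 3 = 2 then k / 3 else k / 3 - 1

theorem sg_or {L : ℕ} {m z : ℤ → ℤ} (h : LatD L m z) (i : ℤ) : sg m i = 1 ∨ sg m i = -1 := by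
  unfold sg
  rcases h.dm i with e | e <;> rw [e]
  · left; ring
  · right; ring

theorem sg_per {L : ℕ} {m z : ℤ → ℤ} (h : LatD L m z) (i : ℤ) : sg m (i + L) = sg m i := by
  unfold sg
  rw [show i + (L : ℤ) + 1 = (i + 1) + L from by ring, h.pm, h.pm]

variable {Λ : LC.LegKnot} {X₀ P₀ w ε : ℝ} {L : ℕ} {m z : ℤ → ℤ} {ν : ℤ → ℝ}

theorem edge_start (hS : LatS Λ X₀ P₀ w L m z ν) (j : ℤ) :
    (sg m j : ℝ) * Λ.x (ν j) ≤ sg m j * (X₀ * m j) := by
  by_cases h : sg m (j - 1) = sg m j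
  · rw [(hS.vx j h).1]
  · exact hS.tx j h

theorem edge_end (hD : LatD L m z) (hS : LatS Λ X₀ P₀ w L m z ν) (j : ℤ) :
    (sg m j : ℝ) * (X₀ * m (j + 1)) ≤ sg m j * Λ.x (ν (j + 1)) := by
  by_cases h : sg m (j + 1 - 1) = sg m (j + 1)
  · rw [(hS.vx (j + 1) h).1]
  · have h1 := hS.tx (j + 1) h
    have h2 : sg m (j + 1) = -sg m j := by
      rw [show j + 1 - 1 = j from by ring] at h
      rcases sg_or hD j with a | a <;> rcases sg_or hD (j + 1) with b | b <;>
        rw [a, b] at h <;> rw [a, b] <;> simp at h ⊢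
    rw [h2] at h1
    push_cast at h1
    linarith

theorem edge_mono (hS : LatS Λ X₀ P₀ w L m z ν) (j : ℤ) :
    StrictMonoOn (fun u => (sg m j : ℝ) * Λ.x u) (Icc (ν j) (ν (j + 1))) := by
  have hd : Differentiable ℝ (fun u => (sg m j : ℝ) * Λ.x u) := (diff_x Λ).const_mul _
  refine strictMonoOn_of_deriv_pos (convex_Icc _ _) hd.continuous.continuousOn ?_
  intro u hu
  rw [interior_Icc] at hu
  have h1 : deriv (fun u => (sg m j : ℝ) * Λ.x u) u = (sg m j : ℝ) * deriv Λ.x u := by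
    have := ((diff_x Λ) u).hasDerivAt.const_mul (sg m j : ℝ)
    exact this.deriv
  rw [h1]
  exact hS.dx j u hu

theorem edge_ex (hD : LatD L m z) (hS : LatS Λ X₀ P₀ w L m z ν) (j : ℤ) {t : ℝ}
    (h1 : (sg m j : ℝ) * (X₀ * m j) < sg m j * t)
    (h2 : (sg m j : ℝ) * t < sg m j * (X₀ * m (j + 1))) :
    ∃ u, ν j < u ∧ u < ν (j + 1) ∧ Λ.x u = t := by
  have hc : ContinuousOn (fun u => (sg m j : ℝ) * Λ.x u) (Icc (ν j) (ν (j + 1))) :=
    ((diff_x Λ).const_mul _).continuous.continuousOn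
  have hle : ν j ≤ ν (j + 1) := (hS.mono j).le
  have hm : (sg m j : ℝ) * t ∈ Ioo ((fun u => (sg m j : ℝ) * Λ.x u) (ν j))
      ((fun u => (sg m j : ℝ) * Λ.x u) (ν (j + 1))) :=
    ⟨lt_of_le_of_lt (edge_start hS j) h1, lt_of_lt_of_le h2 (edge_end hD hS j)⟩
  obtain ⟨u, hu, hu'⟩ := intermediate_value_Ioo hle hc hm
  refine ⟨u, hu.1, hu.2, ?_⟩
  have hne : (sg m j : ℝ) ≠ 0 := by
    rcases sg_or hD j with a | a <;> rw [a] <;> norm_num
  exact mul_left_cancel₀ hne hu'

theorem edge_uniq (hD : LatD L m z) (hS : LatS Λ X₀ P₀ w L m z ν) (j : ℤ) {u v : ℝ}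
    (hu : ν j < u) (hu' : u < ν (j + 1)) (hv : ν j < v) (hv' : v < ν (j + 1))
    (h : Λ.x u = Λ.x v) : u = v :=
  (edge_mono hS j).injOn ⟨hu.le, hu'.le⟩ ⟨hv.le, hv'.le⟩ (by simp only [h])

theorem edge_lt (hS : LatS Λ X₀ P₀ w L m z ν) (j : ℤ) {u v : ℝ}
    (hu : ν j < u) (hu' : u < ν (j + 1)) (hv : ν j < v) (hv' : v < ν (j + 1))
    (h : (sg m j : ℝ) * Λ.x u < sg m j * Λ.x v) : u < v := by
  have := (edge_mono hS j).lt_iff_lt (a := u) (b := v) ⟨hu.le, hu'.le⟩ ⟨hv.le, hv'.le⟩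
  exact this.1 h

/-! ### the lines -/

theorem ln0 (X₀ w ε : ℝ) (n : ℤ) : ln X₀ w ε (3 * n) = X₀ * n - 7 / 8 * w + ε := by
  unfold ln
  rw [show (3 * n) / 3 = n from by omega, if_pos (by omega)]
  ring

theorem ln1 (X₀ w ε : ℝ) (n : ℤ) : ln X₀ w ε (3 * n + 1) = X₀ * n + 7 / 8 * w + ε := by
  unfold ln
  rw [show (3 * n + 1) / 3 = n from by omega, if_neg (by omega), if_pos (by omega)]

theorem ln2 (X₀ w ε : ℝ) (n : ℤ) : ln X₀ w ε (3 * n + 2) = X₀ * n + X₀ / 2 + ε := by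
  unfold ln
  rw [show (3 * n + 2) / 3 = n from by omega, if_neg (by omega), if_neg (by omega)]

/-- The three lines of the point `i`. -/
theorem s0 (i : ℤ) : sR X₀ w ε m (3 * i) =
    (if sg m (i - 1) = 1 then X₀ * m i - X₀ / 2 + ε else X₀ * m i + X₀ / 2 + ε) := by
  unfold sR cs
  rw [if_pos (by omega), show (3 * i) / 3 = i from by omega]
  split_ifs with h
  · rw [show 3 * m i - 1 = 3 * (m i - 1) + 2 from by ring, ln2]
    push_cast
    ring
  · rw [ln2]

theorem s1 (i : ℤ) : sR X₀ w ε m (3 * i + 1) =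
    (if sg m (i - 1) = 1 then X₀ * m i - 7 / 8 * w + ε else X₀ * m i + 7 / 8 * w + ε) := by
  unfold sR cs
  rw [if_neg (by omega), if_pos (by omega), show (3 * i + 1) / 3 = i from by omega]
  split_ifs with h
  · rw [ln0]
  · rw [ln1]

theorem s2 (i : ℤ) : sR X₀ w ε m (3 * i + 2) =
    (if sg m i = 1 then X₀ * m i + 7 / 8 * w + ε else X₀ * m i - 7 / 8 * w + ε) := by
  unfold sR cs
  rw [if_neg (by omega), if_neg (by omega), show (3 * i + 2) / 3 = i from by omega]
  split_ifs with h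
  · rw [ln1]
  · rw [ln0]

theorem m_succ (hD : LatD L m z) (i : ℤ) : (m (i + 1) : ℝ) = m i + sg m i := by
  unfold sg
  push_cast
  ring

theorem in0 (hD : LatD L m z) (hS : LatS Λ X₀ P₀ w L m z ν) (he : 0 < ε) (hw : ε < w / 16)
    (i : ℤ) :
    (sg m (i - 1) : ℝ) * (X₀ * m (i - 1)) < sg m (i - 1) * sR X₀ w ε m (3 * i) ∧
    (sg m (i - 1) : ℝ) * sR X₀ w ε m (3 * i) < sg m (i - 1) * sR X₀ w ε m (3 * i + 1) ∧
    (sg m (i - 1) : ℝ) * sR X₀ w ε m (3 * i + 1) < sg m (i - 1) * (X₀ * m (i - 1 + 1)) := by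
  have h := m_succ hD (i - 1)
  rw [show i - 1 + 1 = i from by ring] at h ⊢
  have hX := hS.X0
  have h0 := hS.w0
  have hwX := hS.wX
  rw [s0, s1]
  rcases sg_or hD (i - 1) with a | a
  · rw [a] at h ⊢
    rw [if_pos rfl, if_pos rfl, h]
    push_cast
    refine ⟨?_, ?_, ?_⟩ <;> nlinarith
  · rw [a] at h ⊢
    rw [if_neg (by norm_num), if_neg (by norm_num), h]
    push_cast
    refine ⟨?_, ?_, ?_⟩ <;> nlinarith

theorem in2 (hD : LatD L m z) (hS : LatS Λ X₀ P₀ w L m z ν) (he : 0 < ε) (hw : ε < w / 16)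
    (i : ℤ) :
    (sg m i : ℝ) * (X₀ * m i) < sg m i * sR X₀ w ε m (3 * i + 2) ∧
    (sg m i : ℝ) * sR X₀ w ε m (3 * i + 2) < sg m i * sR X₀ w ε m (3 * (i + 1)) := by
  have h := m_succ hD i
  have hX := hS.X0
  have h0 := hS.w0
  have hwX := hS.wX
  rw [s2, s0, show i + 1 - 1 = i from by ring]
  rcases sg_or hD i with a | a
  · rw [a] at h ⊢
    rw [if_pos rfl, if_pos rfl, h]
    push_cast
    refine ⟨?_, ?_⟩ <;> nlinarith
  · rw [a] at h ⊢
    rw [if_neg (by norm_num), if_neg (by norm_num), h]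
    push_cast
    refine ⟨?_, ?_⟩ <;> nlinarith

/-- Each line is met on its edge. -/
theorem hit_ex (hD : LatD L m z) (hS : LatS Λ X₀ P₀ w L m z ν) (he : 0 < ε) (hw : ε < w / 16)
    (k : ℤ) : ∃ u, ν (eg k) < u ∧ u < ν (eg k + 1) ∧ Λ.x u = sR X₀ w ε m k := by
  have hk : k % 3 = 0 ∨ k % 3 = 1 ∨ k % 3 = 2 := by omega
  rcases hk with hk | hk | hk
  · have e : k = 3 * (k / 3) := by omega
    have e' : eg k = k / 3 - 1 := by unfold eg; rw [if_neg (by omega)]
    rw [e', e]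
    have e'' : 3 * (k / 3) / 3 = k / 3 := by omega
    rw [e'']
    obtain ⟨h1, h2, h3⟩ := in0 hD hS he hw (k / 3)
    exact edge_ex hD hS _ h1 (h2.trans h3)
  · have e : k = 3 * (k / 3) + 1 := by omega
    have e' : eg k = k / 3 - 1 := by unfold eg; rw [if_neg (by omega)]
    rw [e', e]
    have e'' : (3 * (k / 3) + 1) / 3 = k / 3 := by omega
    rw [e'']
    obtain ⟨h1, h2, h3⟩ := in0 hD hS he hw (k / 3)
    exact edge_ex hD hS _ (h1.trans h2) h3
  · have e : k = 3 * (k / 3) + 2 := by omega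
    have e' : eg k = k / 3 := by unfold eg; rw [if_pos (by omega)]
    rw [e', e]
    have e'' : (3 * (k / 3) + 2) / 3 = k / 3 := by omega
    rw [e'']
    obtain ⟨h1, h2⟩ := in2 hD hS he hw (k / 3)
    obtain ⟨h3, h4, h5⟩ := in0 hD hS he hw (k / 3 + 1)
    rw [show k / 3 + 1 - 1 = k / 3 from by ring] at h3 h4 h5
    exact edge_ex hD hS _ h1 (h2.trans (h4.trans h5))

end THT

open _root_.LHE.THT

theorem t_THT : Stmt_THT := by
  intro Λ X₀ P₀ w ε L m z ν hD hS he hw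
  choose θ h1 h2 h3 using fun k => hit_ex hD hS he hw k
  have e0 : ∀ i : ℤ, eg (3 * i) = i - 1 := by
    intro i; unfold eg; rw [if_neg (by omega)]; omega
  have e1 : ∀ i : ℤ, eg (3 * i + 1) = i - 1 := by
    intro i; unfold eg; rw [if_neg (by omega)]; omega
  have e2 : ∀ i : ℤ, eg (3 * i + 2) = i := by
    intro i; unfold eg; rw [if_pos (by omega)]; omega
  have e3 : ∀ k : ℤ, eg (k + (3 * L : ℕ)) = eg k + L := by
    intro k
    have h : (k + ((3 * L : ℕ) : ℤ)) / 3 = k / 3 + L := by push_cast; omega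
    have h' : (k + ((3 * L : ℕ) : ℤ)) % 3 = k % 3 := by push_cast; omega
    unfold eg
    rw [h, h']
    split_ifs <;> ring
  have ec : ∀ k : ℤ, cs m (k + (3 * L : ℕ)) = cs m k := by
    intro k
    have h : (k + ((3 * L : ℕ) : ℤ)) / 3 = k / 3 + L := by push_cast; omega
    have h' : (k + ((3 * L : ℕ) : ℤ)) % 3 = k % 3 := by push_cast; omega
    unfold cs
    rw [h, h', show k / 3 + (L : ℤ) - 1 = (k / 3 - 1) + L from by ring, sg_per hD, sg_per hD,
      hD.pm]
  refine ⟨θ, ⟨?_, ?_, ?_, ?_, ?_, ?_, h3⟩⟩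
  · intro k
    have a1 := h1 (k + (3 * L : ℕ))
    have a2 := h2 (k + (3 * L : ℕ))
    rw [e3, hS.pν] at a1
    rw [e3, show eg k + (L : ℤ) + 1 = (eg k + 1) + L from by ring, hS.pν] at a2
    have a3 : Λ.x (θ (k + (3 * L : ℕ)) - 1) = Λ.x (θ k) := by
      have := x_per Λ (θ (k + (3 * L : ℕ)) - 1)
      rw [sub_add_cancel] at this
      rw [← this, h3, h3]
      unfold sR
      rw [ec]
    have := edge_uniq hD hS (eg k) (u := θ (k + (3 * L : ℕ)) - 1) (v := θ k) (by linarith)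
      (by linarith) (h1 k) (h2 k) a3
    linarith
  · intro i
    have := h1 (3 * i)
    rwa [e0] at this
  · intro i
    have a1 := h1 (3 * i)
    have a2 := h2 (3 * i)
    have b1 := h1 (3 * i + 1)
    have b2 := h2 (3 * i + 1)
    rw [e0] at a1 a2
    rw [e1] at b1 b2
    refine edge_lt hS (i - 1) a1 a2 b1 b2 ?_
    rw [h3, h3]
    exact (in0 hD hS he hw i).2.1
  · intro i
    have := h2 (3 * i + 1)
    rwa [e1, show i - 1 + 1 = i from by ring] at this
  · intro i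
    have := h1 (3 * i + 2)
    rwa [e2] at this
  · intro i
    have a1 := h1 (3 * i + 2)
    have a2 := h2 (3 * i + 2)
    have b1 := h1 (3 * (i + 1))
    have b2 := h2 (3 * (i + 1))
    rw [e2] at a1 a2
    rw [e0, show i + 1 - 1 = i from by ring] at b1 b2
    rw [show 3 * i + 3 = 3 * (i + 1) from by ring]
    refine edge_lt hS i a1 a2 b1 b2 ?_
    rw [h3, h3]
    exact (in2 hD hS he hw i).2

end LHE


end

section

/-!
# TSP: the two sides of a tip are separated
-/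

set_option autoImplicit false

namespace LHE

open Set LG LH

namespace TSP

theorem x_diff (Λ : LC.LegKnot) : Differentiable ℝ Λ.x := by
  have h : ContDiff ℝ (⊤ : ℕ∞) (fun u => (Λ.γ u).1) := (Λ.smooth).fst
  exact h.differentiable (by simp)

theorem y_diff (Λ : LC.LegKnot) : Differentiable ℝ Λ.y := by
  have h : ContDiff ℝ (⊤ : ℕ∞) (fun u => (Λ.γ u).2.1) := (Λ.smooth).snd.fst
  exact h.differentiable (by simp)

theorem z_diff (Λ : LC.LegKnot) : Differentiable ℝ (zz Λ) := by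
  have h : ContDiff ℝ (⊤ : ℕ∞) (fun u => (Λ.γ u).2.2) := (Λ.smooth).snd.snd
  exact h.differentiable (by simp)

theorem γ_diff (Λ : LC.LegKnot) : Differentiable ℝ Λ.γ :=
  Λ.smooth.differentiable (by simp)

theorem z_deriv (Λ : LC.LegKnot) (u : ℝ) : deriv (zz Λ) u = Λ.y u * deriv Λ.x u := by
  have h1 : HasDerivAt Λ.γ (deriv Λ.γ u) u := (γ_diff Λ u).hasDerivAt
  have hx : HasDerivAt Λ.x (deriv Λ.γ u).1 u := h1.fst
  have hz : HasDerivAt (zz Λ) (deriv Λ.γ u).2.2 u := h1.snd.snd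
  have h4 := Λ.legendrian u
  rw [hx.deriv, hz.deriv]
  simp only [LC.alpha] at h4
  simp only [LC.LegKnot.y]
  linarith

theorem TL_deriv (Λ : LC.LegKnot) (c t u : ℝ) :
    HasDerivAt (fun u => c * TL Λ u t) (c * (deriv Λ.y u * (t - Λ.x u))) u := by
  have hz : HasDerivAt (zz Λ) (Λ.y u * deriv Λ.x u) u := by
    rw [← z_deriv]
    exact (z_diff Λ u).hasDerivAt
  have hx := (x_diff Λ u).hasDerivAt
  have hy := (y_diff Λ u).hasDerivAt
  have h := (hz.add (hy.mul (hx.const_sub t))).const_mul c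
  have e : c * (Λ.y u * deriv Λ.x u + (deriv Λ.y u * (t - Λ.x u) + Λ.y u * (-deriv Λ.x u))) =
      c * (deriv Λ.y u * (t - Λ.x u)) := by ring
  rw [e] at h
  exact h

theorem TL_cont (Λ : LC.LegKnot) (c t : ℝ) : Continuous (fun u => c * TL Λ u t) :=
  continuous_iff_continuousAt.2 fun u => (TL_deriv Λ c t u).continuousAt

theorem sg_or {L : ℕ} {m z : ℤ → ℤ} (h : LatD L m z) (i : ℤ) : sg m i = 1 ∨ sg m i = -1 := by
  rcases h.dm i with h | h
  · left; simp only [sg]; omega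
  · right; simp only [sg]; omega

theorem sl_or {L : ℕ} {m z : ℤ → ℤ} (h : LatD L m z) (i : ℤ) : sl m z i = 1 ∨ sl m z i = -1 := by
  have h1 : z (i + 1) - z i = 1 ∨ z (i + 1) - z i = -1 := by
    rcases h.dz i with h | h
    · left; omega
    · right; omega
  have h2 : m (i + 1) - m i = 1 ∨ m (i + 1) - m i = -1 := by
    rcases h.dm i with h | h
    · left; omega
    · right; omega
  simp only [sl]
  rcases h1 with h1 | h1 <;> rcases h2 with h2 | h2 <;> rw [h1, h2] <;> simp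

theorem smono {Λ : LC.LegKnot} {X₀ P₀ w : ℝ} {L : ℕ} {m z : ℤ → ℤ} {ν : ℤ → ℝ}
    (S : LatS Λ X₀ P₀ w L m z ν) (i : ℤ) :
    StrictMonoOn (fun u => (sg m i : ℝ) * Λ.x u) (Icc (ν i) (ν (i + 1))) := by
  apply strictMonoOn_of_deriv_pos (convex_Icc _ _)
  · exact (continuous_const.mul (x_diff Λ).continuous).continuousOn
  · intro u hu
    rw [interior_Icc] at hu
    rw [deriv_const_mul _ (x_diff Λ u)]
    exact S.dx i u hu

/-- The core: everything with real constants. -/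
theorem core (Λ : LC.LegKnot) (s p q c P z₀ w r na nb nc α β β' α' a b : ℝ)
    (hs : s = 1 ∨ s = -1) (hp : p = 1 ∨ p = -1) (hq : q = -p) (hP : 0 < P) (hw : 0 < w)
    (hwr : w ≤ r)
    (h1 : na < α) (h2 : α < β) (h3 : β < nb) (h4 : nb < β') (h5 : β' < α') (h6 : α' < nc)
    (xa : Λ.x α = a) (xa' : Λ.x α' = a) (xb : Λ.x β = b) (xb' : Λ.x β' = b)
    (m1 : StrictMonoOn (fun u => -s * Λ.x u) (Icc na nb))
    (m2 : StrictMonoOn (fun u => s * Λ.x u) (Icc nb nc))
    (hn : |Λ.x nb - c| ≤ 3 / 4 * w)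
    (ha : s * (a - c) ≤ 3 / 4 * r) (hb : 0 < s * (b - c)) (hab : s * b ≤ s * a)
    (zα : ∀ t, TL Λ α t = z₀ + P * q * (t - c)) (zα' : ∀ t, TL Λ α' t = z₀ + P * p * (t - c))
    (hy : ∀ u ∈ Ioo na nc, |Λ.x u - c| ≤ 3 / 4 * r → 0 ≤ (p - q) * deriv Λ.y u) :
    ∀ u ∈ Icc α β, ∀ v ∈ Icc β' α', ∀ t, t = a ∨ t = b → 0 < (s * p) * (TL Λ v t - TL Λ u t) := by
  -- bounds for s * x
  have bu : ∀ u ∈ Icc α β, s * b ≤ s * Λ.x u ∧ s * Λ.x u ≤ s * a := by
    intro u hu
    have e1 := m1.monotoneOn (show u ∈ Icc na nb from ⟨by linarith only [h1, hu.1], by linarith only [h3, hu.2]⟩)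
      (show β ∈ Icc na nb from ⟨by linarith, by linarith⟩) hu.2
    have e2 := m1.monotoneOn (show α ∈ Icc na nb from ⟨by linarith, by linarith⟩)
      (show u ∈ Icc na nb from ⟨by linarith [hu.1], by linarith [hu.2]⟩) hu.1
    simp only [xa, xb] at e1 e2
    constructor <;> linarith
  have bv : ∀ v ∈ Icc β' α', s * b ≤ s * Λ.x v ∧ s * Λ.x v ≤ s * a := by
    intro v hv
    have e1 := m2.monotoneOn (show v ∈ Icc nb nc from ⟨by linarith [hv.1], by linarith [hv.2]⟩)
      (show α' ∈ Icc nb nc from ⟨by linarith, by linarith⟩) hv.2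
    have e2 := m2.monotoneOn (show β' ∈ Icc nb nc from ⟨by linarith, by linarith⟩)
      (show v ∈ Icc nb nc from ⟨by linarith [hv.1], by linarith [hv.2]⟩) hv.1
    simp only [xa', xb'] at e1 e2
    constructor <;> linarith
  have hn1 : -(3 / 4 * w) ≤ s * (Λ.x nb - c) ∧ s * (Λ.x nb - c) ≤ 3 / 4 * w := by
    rw [abs_le] at hn
    rcases hs with hs | hs <;> subst hs <;> constructor <;> (first | linarith only [hn] | linarith [hn.1, hn.2])
  have ab : ∀ x : ℝ, -(3 / 4 * r) ≤ s * (x - c) → s * (x - c) ≤ 3 / 4 * r →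
      |x - c| ≤ 3 / 4 * r := by
    intro x g1 g2
    rw [abs_le]
    rcases hs with hs | hs <;> subst hs <;> constructor <;> (first | linarith only [g1] | linarith only [g2] | linarith)
  have yu : ∀ u ∈ Icc α β, 0 ≤ (p - q) * deriv Λ.y u := by
    intro u hu
    obtain ⟨g1, g2⟩ := bu u hu
    refine hy u ⟨by linarith only [h1, hu.1], by linarith [hu.2]⟩ (ab _ ?_ ?_)
    · have : s * (Λ.x u - c) = s * Λ.x u - s * b + s * (b - c) := by ring
      linarith
    · have : s * (Λ.x u - c) = s * Λ.x u - s * a + s * (a - c) := by ring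
      linarith
  have yv : ∀ v ∈ Icc β' α', 0 ≤ (p - q) * deriv Λ.y v := by
    intro u hu
    obtain ⟨g1, g2⟩ := bv u hu
    refine hy u ⟨by linarith [hu.1], by linarith [hu.2]⟩ (ab _ ?_ ?_)
    · have : s * (Λ.x u - c) = s * Λ.x u - s * b + s * (b - c) := by ring
      linarith
    · have : s * (Λ.x u - c) = s * Λ.x u - s * a + s * (a - c) := by ring
      linarith
  -- the part between β and β'
  have ym : ∀ u ∈ Icc β β', 0 ≤ (p - q) * deriv Λ.y u := by
    intro u hu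
    refine hy u ⟨by linarith [hu.1], by linarith [hu.2]⟩ ?_
    rcases le_total u nb with hh | hh
    · have e1 := m1.monotoneOn (show u ∈ Icc na nb from ⟨by linarith [hu.1], hh⟩)
        (show nb ∈ Icc na nb from ⟨by linarith, le_refl _⟩) hh
      have e2 := m1.monotoneOn (show β ∈ Icc na nb from ⟨by linarith, by linarith⟩)
        (show u ∈ Icc na nb from ⟨by linarith [hu.1], hh⟩) hu.1
      simp only [xb] at e1 e2
      refine ab _ ?_ ?_
      · have : s * (Λ.x u - c) = (s * Λ.x u - s * Λ.x nb) + s * (Λ.x nb - c) := by ring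
        linarith only [hwr, hn1, e1]
      · have : s * (Λ.x u - c) = (s * Λ.x u - s * b) + (s * b - s * a) + s * (a - c) := by ring
        linarith
    · have e1 := m2.monotoneOn (show nb ∈ Icc nb nc from ⟨le_refl _, by linarith⟩)
        (show u ∈ Icc nb nc from ⟨hh, by linarith [hu.2]⟩) hh
      have e2 := m2.monotoneOn (show u ∈ Icc nb nc from ⟨hh, by linarith [hu.2]⟩)
        (show β' ∈ Icc nb nc from ⟨by linarith, by linarith only [h5, h6]⟩) hu.2
      simp only [xb'] at e1 e2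
      refine ab _ ?_ ?_
      · have : s * (Λ.x u - c) = (s * Λ.x u - s * Λ.x nb) + s * (Λ.x nb - c) := by ring
        linarith [hn1.1]
      · have : s * (Λ.x u - c) = (s * Λ.x u - s * b) + (s * b - s * a) + s * (a - c) := by ring
        linarith
  have hpq : p - q = 2 * p := by rw [hq]; ring
  have hpp : p * p = 1 := by rcases hp with hp | hp <;> subst hp <;> norm_num
  have hss : s * s = 1 := by rcases hs with hs | hs <;> subst hs <;> norm_num
  -- at b
  have A1 : AntitoneOn (fun u => (s * p) * TL Λ u b) (Icc α β) := by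
    apply antitoneOn_of_deriv_nonpos (convex_Icc _ _) (TL_cont Λ _ b).continuousOn
    · intro u _
      exact (TL_deriv Λ (s * p) b u).differentiableAt.differentiableWithinAt
    · intro u hu
      rw [interior_Icc] at hu
      have hu' : u ∈ Icc α β := ⟨hu.1.le, hu.2.le⟩
      rw [(TL_deriv Λ (s * p) b u).deriv]
      have g := yu u hu'
      rw [hpq] at g
      have g2 := (bu u hu').1
      have : s * p * (deriv Λ.y u * (b - Λ.x u)) = (p * deriv Λ.y u) * (s * b - s * Λ.x u) := by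
        ring
      rw [this]
      exact mul_nonpos_of_nonneg_of_nonpos (by linarith) (by linarith)
  have A2 : AntitoneOn (fun u => (s * p) * TL Λ u b) (Icc β' α') := by
    apply antitoneOn_of_deriv_nonpos (convex_Icc _ _) (TL_cont Λ _ b).continuousOn
    · intro u _
      exact (TL_deriv Λ (s * p) b u).differentiableAt.differentiableWithinAt
    · intro u hu
      rw [interior_Icc] at hu
      have hu' : u ∈ Icc β' α' := ⟨hu.1.le, hu.2.le⟩
      rw [(TL_deriv Λ (s * p) b u).deriv]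
      have g := yv u hu'
      rw [hpq] at g
      have g2 := (bv u hu').1
      have : s * p * (deriv Λ.y u * (b - Λ.x u)) = (p * deriv Λ.y u) * (s * b - s * Λ.x u) := by
        ring
      rw [this]
      exact mul_nonpos_of_nonneg_of_nonpos (by linarith) (by linarith)
  have B1 : MonotoneOn (fun u => (s * p) * TL Λ u a) (Icc α β) := by
    apply monotoneOn_of_deriv_nonneg (convex_Icc _ _) (TL_cont Λ _ a).continuousOn
    · intro u _
      exact (TL_deriv Λ (s * p) a u).differentiableAt.differentiableWithinAt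
    · intro u hu
      rw [interior_Icc] at hu
      have hu' : u ∈ Icc α β := ⟨hu.1.le, hu.2.le⟩
      rw [(TL_deriv Λ (s * p) a u).deriv]
      have g := yu u hu'
      rw [hpq] at g
      have g2 := (bu u hu').2
      have : s * p * (deriv Λ.y u * (a - Λ.x u)) = (p * deriv Λ.y u) * (s * a - s * Λ.x u) := by
        ring
      rw [this]
      exact mul_nonneg (by linarith) (by linarith)
  have B2 : MonotoneOn (fun u => (s * p) * TL Λ u a) (Icc β' α') := by
    apply monotoneOn_of_deriv_nonneg (convex_Icc _ _) (TL_cont Λ _ a).continuousOn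
    · intro u _
      exact (TL_deriv Λ (s * p) a u).differentiableAt.differentiableWithinAt
    · intro u hu
      rw [interior_Icc] at hu
      have hu' : u ∈ Icc β' α' := ⟨hu.1.le, hu.2.le⟩
      rw [(TL_deriv Λ (s * p) a u).deriv]
      have g := yv u hu'
      rw [hpq] at g
      have g2 := (bv u hu').2
      have : s * p * (deriv Λ.y u * (a - Λ.x u)) = (p * deriv Λ.y u) * (s * a - s * Λ.x u) := by
        ring
      rw [this]
      exact mul_nonneg (by linarith) (by linarith)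
  have Y : MonotoneOn (fun u => p * Λ.y u) (Icc β β') := by
    have hc : Continuous (fun u => p * Λ.y u) := continuous_const.mul (y_diff Λ).continuous
    apply monotoneOn_of_deriv_nonneg (convex_Icc _ _) hc.continuousOn
    · intro u _
      exact ((y_diff Λ u).const_mul p).differentiableWithinAt
    · intro u hu
      rw [interior_Icc] at hu
      rw [deriv_const_mul _ (y_diff Λ u)]
      have g := ym u ⟨hu.1.le, hu.2.le⟩
      rw [hpq] at g
      linarith
  -- the first part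
  have C : ∀ u ∈ Icc α β, ∀ v ∈ Icc β' α', 0 < (s * p) * (TL Λ v b - TL Λ u b) := by
    intro u hu v hv
    have e1 := A1 (left_mem_Icc.2 h2.le) hu hu.1
    have e2 := A2 hv (right_mem_Icc.2 h5.le) hv.2
    simp only [zα, zα'] at e1 e2
    have e3 : s * p * (z₀ + P * p * (b - c)) - s * p * (z₀ + P * q * (b - c)) =
        2 * P * (p * p) * (s * (b - c)) := by rw [hq]; ring
    rw [hpp] at e3
    have e4 : 0 < 2 * P * 1 * (s * (b - c)) := by positivity
    have e5 : s * p * (TL Λ v b - TL Λ u b) = s * p * TL Λ v b - s * p * TL Λ u b := by ring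
    rw [e5]
    linarith
  intro u hu v hv t ht
  rcases ht with ht | ht
  · subst ht
    have e1 := B1 hu (right_mem_Icc.2 h2.le) hu.2
    have e2 := B2 (left_mem_Icc.2 h5.le) hv hv.1
    have e3 := C β (right_mem_Icc.2 h2.le) β' (left_mem_Icc.2 h5.le)
    have e4 := Y (left_mem_Icc.2 (by linarith)) (right_mem_Icc.2 (by linarith)) (by linarith)
    simp only at e1 e2 e4
    have e5 : s * p * (TL Λ β' t - TL Λ β t) = s * p * (TL Λ β' b - TL Λ β b) +
        (p * Λ.y β' - p * Λ.y β) * (s * t - s * b) := by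
      simp only [TL, xb, xb']
      ring
    have e6 : 0 ≤ (p * Λ.y β' - p * Λ.y β) * (s * t - s * b) :=
      mul_nonneg (by linarith) (by linarith)
    have e7 : s * p * (TL Λ v t - TL Λ u t) = (s * p * TL Λ v t - s * p * TL Λ β' t) +
      (s * p * (TL Λ β' t - TL Λ β t)) + (s * p * TL Λ β t - s * p * TL Λ u t) := by ring
    rw [e7, e5]
    linarith
  · subst ht
    exact C u hu v hv

end TSP

/-- TSP: the two sides of a tip are separated. -/
theorem t_TSP : Stmt_TSP := by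
  intro Λ X₀ P₀ w L m z ν hL hS i htip α β β' α' a b h1 h2 h3 h4 h5 h6 xa xa' xb xb' ha1 ha2 hb hab
  have hs := TSP.sg_or hL i
  have hs' := TSP.sg_or hL (i - 1)
  have hp := TSP.sl_or hL i
  have hp' := TSP.sl_or hL (i - 1)
  have hn := hL.nb i htip
  have hsr : (sg m i : ℝ) = 1 ∨ (sg m i : ℝ) = -1 := by
    rcases hs with hs | hs <;> rw [hs] <;> simp
  have hpr : (sl m z i : ℝ) = 1 ∨ (sl m z i : ℝ) = -1 := by
    rcases hp with hp | hp <;> rw [hp] <;> simp
  have hq : sl m z (i - 1) = -sl m z i := by omega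
  have hsq : sg m (i - 1) = -sg m i := by omega
  have hqr : (sl m z (i - 1) : ℝ) = -(sl m z i : ℝ) := by rw [hq]; push_cast; ring
  have hsqr : (sg m (i - 1) : ℝ) = -(sg m i : ℝ) := by rw [hsq]; push_cast; ring
  have e : i - 1 + 1 = i := by ring
  have M1 := TSP.smono hS (i - 1)
  rw [e] at M1
  have M2 := TSP.smono hS i
  refine TSP.core Λ (sg m i) (sl m z i) (sl m z (i - 1)) (X₀ * m i) P₀ (X₀ * P₀ * z i) w X₀
    (ν (i - 1)) (ν i) (ν (i + 1)) α β β' α' a b hsr hpr hqr hS.P0 hS.w0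
    (by linarith [hS.wX, hS.w0]) h1 h2 h3 h4 h5 h6 xa xa' xb xb' ?_ M2 (hS.tb i) ha2 hb hab ?_ ?_
    (hS.ym i htip)
  · rw [← hsqr]
    exact M1
  · refine hS.zi i α ⟨h1.le, by linarith⟩ ?_ ?_
    · rw [hsqr, neg_neg, xa]
      exact ha1
    · rw [hsqr, neg_neg, xa]
      exact ha2
  · refine hS.zo i α' ⟨by linarith, h6.le⟩ ?_ ?_
    · rw [xa']
      exact ha1
    · rw [xa']
      exact ha2

end LHE


end

section

/-!
# The arcs of a knot along a lattice path are separated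
-/

namespace LHE

open Set LG LH

namespace SPA

theorem cs0 (m : ℤ → ℤ) (i : ℤ) :
    cs m (3 * i) = if sg m (i - 1) = 1 then 3 * m i - 1 else 3 * m i + 2 := by
  unfold cs
  have h1 : (3 * i) % 3 = 0 := by omega
  have h2 : (3 * i) / 3 = i := by omega
  rw [h1, h2, if_pos rfl]

theorem cs1 (m : ℤ → ℤ) (i : ℤ) :
    cs m (3 * i + 1) = if sg m (i - 1) = 1 then 3 * m i else 3 * m i + 1 := by
  unfold cs
  have h1 : (3 * i + 1) % 3 = 1 := by omega
  have h2 : (3 * i + 1) / 3 = i := by omega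
  rw [h1, h2, if_neg (by norm_num), if_pos rfl]

theorem cs2 (m : ℤ → ℤ) (i : ℤ) :
    cs m (3 * i + 2) = if sg m i = 1 then 3 * m i + 1 else 3 * m i := by
  unfold cs
  have h1 : (3 * i + 2) % 3 = 2 := by omega
  have h2 : (3 * i + 2) / 3 = i := by omega
  rw [h1, h2, if_neg (by norm_num), if_neg (by norm_num)]

theorem ca0 (m : ℤ → ℤ) (i : ℤ) :
    ca m (3 * i) = if sg m (i - 1) = 1 then 3 * m i - 1 else 3 * m i + 1 := by
  unfold ca
  have h1 : (3 * i) % 3 = 0 := by omega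
  have h2 : (3 * i) / 3 = i := by omega
  rw [h1, h2, if_pos rfl]

theorem ca1 (m : ℤ → ℤ) (i : ℤ) : ca m (3 * i + 1) = 3 * m i := by
  unfold ca
  have h1 : (3 * i + 1) % 3 = 1 := by omega
  have h2 : (3 * i + 1) / 3 = i := by omega
  rw [h1, h2, if_neg (by norm_num), if_pos rfl]

theorem ca2 (m : ℤ → ℤ) (i : ℤ) :
    ca m (3 * i + 2) = if sg m i = 1 then 3 * m i + 1 else 3 * m i - 1 := by
  unfold ca
  have h1 : (3 * i + 2) % 3 = 2 := by omega
  have h2 : (3 * i + 2) / 3 = i := by omega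
  rw [h1, h2, if_neg (by norm_num), if_neg (by norm_num)]

theorem lnA (X₀ w ε : ℝ) (a : ℤ) : ln X₀ w ε (3 * a - 1) = X₀ * a - X₀ / 2 + ε := by
  unfold ln
  have h1 : (3 * a - 1) % 3 = 2 := by omega
  have h2 : (3 * a - 1) / 3 = a - 1 := by omega
  rw [h1, h2, if_neg (by norm_num), if_neg (by norm_num)]
  push_cast
  ring

theorem lnB (X₀ w ε : ℝ) (a : ℤ) : ln X₀ w ε (3 * a) = X₀ * a - 7 / 8 * w + ε := by
  unfold ln
  have h1 : (3 * a) % 3 = 0 := by omega
  have h2 : (3 * a) / 3 = a := by omega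
  rw [h1, h2, if_pos rfl]
  ring

theorem lnC (X₀ w ε : ℝ) (a : ℤ) : ln X₀ w ε (3 * a + 1) = X₀ * a + 7 / 8 * w + ε := by
  unfold ln
  have h1 : (3 * a + 1) % 3 = 1 := by omega
  have h2 : (3 * a + 1) / 3 = a := by omega
  rw [h1, h2, if_neg (by norm_num), if_pos rfl]

theorem lnD (X₀ w ε : ℝ) (a : ℤ) : ln X₀ w ε (3 * a + 2) = X₀ * a + X₀ / 2 + ε := by
  unfold ln
  have h1 : (3 * a + 2) % 3 = 2 := by omega
  have h2 : (3 * a + 2) / 3 = a := by omega
  rw [h1, h2, if_neg (by norm_num), if_neg (by norm_num)]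

/-- The code belongs to a line near `X₀ a`. -/
def In3 (a n : ℤ) : Prop := 3 * a - 1 ≤ n ∧ n ≤ 3 * a + 2

theorem bnd {X₀ w ε : ℝ} (hw : 0 < w) (hwX : 100 * w ≤ X₀) (hε : 0 < ε) (hε' : ε < w / 16)
    {a n : ℤ} (h : In3 a n) : |ln X₀ w ε n - X₀ * a| ≤ 51 / 100 * X₀ ∧ ln X₀ w ε n - X₀ * a ≠ 0 := by
  obtain ⟨h1, h2⟩ := h
  have h3 : n = 3 * a - 1 ∨ n = 3 * a ∨ n = 3 * a + 1 ∨ n = 3 * a + 2 := by omega
  rcases h3 with rfl | rfl | rfl | rfl
  · rw [lnA, abs_le]
    refine ⟨⟨by linarith only [hwX, hε, hε'], by linarith⟩, ?_⟩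
    have : X₀ * a - X₀ / 2 + ε - X₀ * a < 0 := by linarith
    exact this.ne
  · rw [lnB, abs_le]
    refine ⟨⟨by linarith, by linarith⟩, ?_⟩
    have : X₀ * a - 7 / 8 * w + ε - X₀ * a < 0 := by linarith
    exact this.ne
  · rw [lnC, abs_le]
    refine ⟨⟨by linarith only [hwX, hε, hε'], by linarith⟩, ?_⟩
    have : 0 < X₀ * a + 7 / 8 * w + ε - X₀ * a := by linarith
    exact this.ne'
  · rw [lnD, abs_le]
    refine ⟨⟨by linarith, by linarith⟩, ?_⟩
    have : 0 < X₀ * a + X₀ / 2 + ε - X₀ * a := by linarith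
    exact this.ne'

theorem sg_or {L : ℕ} {m z : ℤ → ℤ} (hD : LatD L m z) (i : ℤ) : sg m i = 1 ∨ sg m i = -1 := by
  unfold sg
  rcases hD.dm i with h | h <;> rw [h] <;> omega

/-- The residue of the number of an arc. -/
theorem res (k : ℤ) : k = 3 * (k / 3) ∨ k = 3 * (k / 3) + 1 ∨ k = 3 * (k / 3) + 2 := by omega

theorem in3_cs {L : ℕ} {m z : ℤ → ℤ} (hD : LatD L m z) (k : ℤ) : In3 (m (k / 3)) (cs m k) ∧
    In3 (m (k / 3)) (cs m (k + 1)) ∧ In3 (m (k / 3)) (ca m k) ∧ In3 (m (k / 3)) (ca m k + 1) := by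
  unfold In3
  have hs := sg_or hD (k / 3)
  have hm : m (k / 3 + 1) = m (k / 3) + sg m (k / 3) := by unfold sg; omega
  generalize hi : k / 3 = i at *
  rcases res k with h | h | h
  · rw [hi] at h
    subst h
    rw [cs0, cs1, ca0]
    split <;> omega
  · rw [hi] at h
    subst h
    have e : 3 * i + 1 + 1 = 3 * i + 2 := by ring
    rw [e, cs1, cs2, ca1]
    split <;> split <;> omega
  · rw [hi] at h
    subst h
    have e : 3 * i + 2 + 1 = 3 * (i + 1) := by ring
    rw [e, cs2, cs0, ca2]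
    have e2 : i + 1 - 1 = i := by ring
    rw [e2, hm]
    rcases hs with h | h
    · rw [h, if_pos rfl, if_pos rfl, if_pos rfl]; omega
    · rw [h, if_neg (by norm_num), if_neg (by norm_num), if_neg (by norm_num)]; omega

theorem ca_m {L : ℕ} {m z : ℤ → ℤ} (hD : LatD L m z) (k : ℤ) :
    3 * m (k / 3) - 1 ≤ ca m k ∧ ca m k ≤ 3 * m (k / 3) + 1 := by
  have h := (in3_cs hD k).2.2
  unfold In3 at h
  omega

theorem ends {Λ : LC.LegKnot} {X₀ w ε : ℝ} {L : ℕ} {m : ℤ → ℤ} {ν θ : ℤ → ℝ}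
    (hT : Tht Λ X₀ w ε L m ν θ) (k : ℤ) : ν (k / 3 - 1) < θ k ∧ θ (k + 1) < ν (k / 3 + 1) := by
  have h3 : ∀ i : ℤ, θ (3 * i + 3) < ν (i + 1) := by
    intro i
    have e : 3 * i + 3 = 3 * (i + 1) := by ring
    rw [e]
    exact (hT.h₁ (i + 1)).trans (hT.h₂ (i + 1))
  generalize hi : k / 3 = i
  have a0 := hT.h₀ i
  have a1 := hT.h₁ i
  have a2 := hT.h₂ i
  have a3 := hT.h₃ i
  have a4 := hT.h₄ i
  have a5 := h3 i
  rcases res k with h | h | h
  · rw [hi] at h
    subst h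
    constructor <;> linarith
  · rw [hi] at h
    subst h
    have e : 3 * i + 1 + 1 = 3 * i + 2 := by ring
    rw [e]
    constructor <;> linarith
  · rw [hi] at h
    subst h
    have e : 3 * i + 2 + 1 = 3 * i + 3 := by ring
    rw [e]
    constructor <;> linarith

theorem tl_shift (Λ : LC.LegKnot) (u t : ℝ) (q : ℤ) : TL Λ (u - q) t = TL Λ u t := by
  have h : Λ.γ (u - q) = Λ.γ u := by
    have hp : Function.Periodic Λ.γ 1 := Λ.periodic
    have h := hp.int_mul q (u - q)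
    rw [mul_one, sub_add_cancel] at h
    exact h.symm
  unfold TL zz LC.LegKnot.x LC.LegKnot.y
  rw [h]

theorem th_shift {Λ : LC.LegKnot} {X₀ w ε : ℝ} {L : ℕ} {m : ℤ → ℤ} {ν θ : ℤ → ℝ}
    (hT : Tht Λ X₀ w ε L m ν θ) (k q : ℤ) : θ (k + q * (3 * L : ℕ)) = θ k + q := by
  induction q using Int.induction_on with
  | zero => simp
  | succ q ih =>
    have e : k + ((q : ℤ) + 1) * (3 * L : ℕ) = k + (q : ℤ) * (3 * L : ℕ) + (3 * L : ℕ) := by ring
    rw [e, hT.pθ, ih]
    push_cast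
    ring
  | pred q ih =>
    have h := hT.pθ (k + (-(q : ℤ) - 1) * (3 * L : ℕ))
    have e : k + (-(q : ℤ) - 1) * (3 * L : ℕ) + (3 * L : ℕ) = k + (-(q : ℤ)) * (3 * L : ℕ) := by ring
    rw [e, ih] at h
    push_cast at h ⊢
    linarith

theorem m_shift {L : ℕ} {m : ℤ → ℤ} (hm : ∀ i, m (i + L) = m i) (i q : ℤ) :
    m (i + q * L) = m i := by
  induction q using Int.induction_on with
  | zero => simp
  | succ q ih =>
    have e : i + ((q : ℤ) + 1) * L = i + (q : ℤ) * L + L := by ring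
    rw [e, hm, ih]
  | pred q ih =>
    have h := hm (i + (-(q : ℤ) - 1) * L)
    have e : i + (-(q : ℤ) - 1) * L + L = i + (-(q : ℤ)) * L := by ring
    rw [e, ih] at h
    exact h.symm

/-- The two arcs at a tip. -/
theorem tip (hTSP : P_TSP) {Λ : LC.LegKnot} {X₀ P₀ w ε : ℝ} {L : ℕ} {m z : ℤ → ℤ} {ν θ : ℤ → ℝ}
    (hD : LatD L m z) (hS : LatS Λ X₀ P₀ w L m z ν) (hε : 0 < ε) (hε' : ε < w / 16)
    (hT : Tht Λ X₀ w ε L m ν θ) (i : ℤ) (hc : ca m (3 * i) = ca m (3 * i + 2)) (n : ℤ)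
    (hn : n = ca m (3 * i) ∨ n = ca m (3 * i) + 1) :
    (∀ u ∈ Icc (θ (3 * i)) (θ (3 * i + 1)), ∀ v ∈ Icc (θ (3 * i + 2)) (θ (3 * i + 3)),
      TL Λ u (ln X₀ w ε n) < TL Λ v (ln X₀ w ε n)) ∨
    ∀ u ∈ Icc (θ (3 * i)) (θ (3 * i + 1)), ∀ v ∈ Icc (θ (3 * i + 2)) (θ (3 * i + 3)),
      TL Λ v (ln X₀ w ε n) < TL Λ u (ln X₀ w ε n) := by
  have hw := hS.w0
  have hwX := hS.wX
  have a5 : θ (3 * i + 3) < ν (i + 1) := by
    have e : 3 * i + 3 = 3 * (i + 1) := by ring
    rw [e]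
    exact (hT.h₁ (i + 1)).trans (hT.h₂ (i + 1))
  have hm : m (i + 1) = m i + sg m i := by unfold sg; omega
  have x0 := hT.hit (3 * i)
  have x1 := hT.hit (3 * i + 1)
  have x2 := hT.hit (3 * i + 2)
  have x3 := hT.hit (3 * (i + 1))
  unfold sR at x0 x1 x2 x3
  rw [cs0] at x0 x3
  rw [cs1] at x1
  rw [cs2] at x2
  have e2 : i + 1 - 1 = i := by ring
  rw [e2, hm] at x3
  have e3 : 3 * (i + 1) = 3 * i + 3 := by ring
  rw [e3] at x3
  rw [ca0, ca2] at hc
  rw [ca0] at hn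
  have key : ∀ a b : ℝ, sg m (i - 1) ≠ sg m i → Λ.x (θ (3 * i)) = a → Λ.x (θ (3 * i + 3)) = a →
      Λ.x (θ (3 * i + 1)) = b → Λ.x (θ (3 * i + 2)) = b →
      w ≤ (sg m i : ℝ) * (a - X₀ * m i) → (sg m i : ℝ) * (a - X₀ * m i) ≤ 3 / 4 * X₀ →
      0 < (sg m i : ℝ) * (b - X₀ * m i) → (sg m i : ℝ) * b ≤ sg m i * a → ∀ t, t = a ∨ t = b →
      (∀ u ∈ Icc (θ (3 * i)) (θ (3 * i + 1)), ∀ v ∈ Icc (θ (3 * i + 2)) (θ (3 * i + 3)),
        TL Λ u t < TL Λ v t) ∨
      ∀ u ∈ Icc (θ (3 * i)) (θ (3 * i + 1)), ∀ v ∈ Icc (θ (3 * i + 2)) (θ (3 * i + 3)),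
        TL Λ v t < TL Λ u t := by
    intro a b h1 h2 h3 h4 h5 h6 h7 h8 h9 t ht
    have h := hTSP Λ X₀ P₀ w L m z ν hD hS i h1 (θ (3 * i)) (θ (3 * i + 1)) (θ (3 * i + 2))
      (θ (3 * i + 3)) a b (hT.h₀ i) (hT.h₁ i) (hT.h₂ i) (hT.h₃ i) (hT.h₄ i) a5 h2 h3 h4 h5 h6 h7
      h8 h9
    rcases le_or_gt ((sg m i : ℝ) * sl m z i) 0 with hs | hs
    · right
      intro u hu v hv
      have h' := h u hu v hv t ht
      by_contra hcon
      rw [not_lt] at hcon
      nlinarith [mul_nonneg (neg_nonneg.2 hs) (sub_nonneg.2 hcon)]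
    · left
      intro u hu v hv
      have h' := h u hu v hv t ht
      by_contra hcon
      rw [not_lt] at hcon
      nlinarith [mul_nonneg hs.le (sub_nonneg.2 hcon)]
  rcases sg_or hD (i - 1) with h1 | h1 <;> rcases sg_or hD i with h2 | h2
  · rw [h1, h2, if_pos rfl, if_pos rfl] at hc
    omega
  · rw [h1, if_pos rfl] at x0 x1 hn
    rw [h2, if_neg (by norm_num)] at x2 x3
    have e4 : 3 * (m i + -1) + 2 = 3 * m i - 1 := by ring
    rw [e4, lnA] at x3
    rw [lnA] at x0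
    rw [lnB] at x1 x2
    refine key _ _ (by rw [h1, h2]; norm_num) x0 x3 x1 x2 ?_ ?_ ?_ ?_ _ ?_
    · rw [h2]; push_cast; linarith only [hε, hε', hwX]
    · rw [h2]; push_cast; linarith only [hε, hε', hwX]
    · rw [h2]; push_cast; linarith only [hε, hε']
    · rw [h2]; push_cast; linarith
    · rcases hn with rfl | rfl
      · left; rw [lnA]
      · right
        have e5 : 3 * m i - 1 + 1 = 3 * m i := by ring
        rw [e5, lnB]
  · rw [h1, if_neg (by norm_num)] at x0 x1 hn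
    rw [h2, if_pos rfl] at x2 x3
    have e4 : 3 * (m i + 1) - 1 = 3 * m i + 2 := by ring
    rw [e4, lnD] at x3
    rw [lnD] at x0
    rw [lnC] at x1 x2
    refine key _ _ (by rw [h1, h2]; norm_num) x0 x3 x1 x2 ?_ ?_ ?_ ?_ _ ?_
    · rw [h2]; push_cast; linarith
    · rw [h2]; push_cast; linarith only [hε, hε', hwX]
    · rw [h2]; push_cast; linarith only [hε, hε']
    · rw [h2]; push_cast; linarith only [hε, hε', hwX]
    · rcases hn with rfl | rfl
      · right; rw [lnC]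
      · left
        have e5 : 3 * m i + 1 + 1 = 3 * m i + 2 := by ring
        rw [e5, lnD]
  · rw [h1, h2, if_neg (by norm_num), if_neg (by norm_num)] at hc
    omega

end SPA

open _root_.LHE.SPA in
theorem t_SPA : Stmt_SPA := by
  intro _ hTHI hTSP hLHD Λ X₀ P₀ w ε L m z ν θ hD hS hε hε' hT k l hkl hca n hn
  obtain ⟨-, -, hins, -⟩ := hTHI Λ X₀ P₀ w ε L m z ν θ hD hS hε hε' hT
  have hw := hS.w0
  have hwX := hS.wX
  have hX0 := hS.X0
  have hP0 := hS.P0
  -- the position of the arcs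
  have arc : ∀ k, ∀ u ∈ Icc (θ k) (θ (k + 1)), u ∈ Icc (ν (k / 3 - 1)) (ν (k / 3 + 1)) ∧
      |Λ.x u - X₀ * m (k / 3)| ≤ 3 / 4 * X₀ := by
    intro k u hu
    obtain ⟨e1, e2⟩ := ends hT k
    refine ⟨⟨e1.le.trans hu.1, hu.2.trans e2.le⟩, ?_⟩
    obtain ⟨c1, c2, c3, c4⟩ := in3_cs hD k
    have b1 := abs_le.1 (bnd hw hwX hε hε' c1).1
    have b2 := abs_le.1 (bnd hw hwX hε hε' c2).1
    have b3 := abs_le.1 (bnd hw hwX hε hε' c3).1
    have b4 := abs_le.1 (bnd hw hwX hε hε' c4).1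
    rw [abs_le]
    rcases hu.1.lt_or_eq with h1 | h1
    · rcases hu.2.lt_or_eq with h2 | h2
      · obtain ⟨i1, i2⟩ := hins k u ⟨h1, h2⟩
        unfold aR at i1
        unfold bR at i2
        constructor <;> linarith
      · have h := hT.hit (k + 1)
        unfold sR at h
        rw [h2, h]
        constructor <;> (first | linarith only [b2] | linarith)
    · have h := hT.hit k
      unfold sR at h
      rw [← h1, h]
      constructor <;> (first | linarith only [b1] | linarith)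
  have hmm : m (k / 3) = m (l / 3) := by
    have h1 := ca_m hD k
    have h2 := ca_m hD l
    omega
  have hIn : In3 (m (k / 3)) n := by
    rcases hn with rfl | rfl
    · exact (in3_cs hD k).2.2.1
    · exact (in3_cs hD k).2.2.2
  obtain ⟨hb1, hb2⟩ := bnd hw hwX hε hε' hIn
  by_cases hC : Cg L (k / 3) (l / 3)
  · -- the same point
    obtain ⟨q, hq⟩ := hC
    set l' : ℤ := l - q * (3 * L : ℕ) with hl'
    have hl : l = l' + q * (3 * L : ℕ) := by rw [hl']; ring
    have hd : l' / 3 = k / 3 := by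
      have e : l' = l + (-(q * L)) * 3 := by rw [hl']; push_cast; ring
      rw [e, Int.add_mul_ediv_right _ _ (by norm_num), hq]
      ring
    have hr : l' % 3 = l % 3 := by
      have e : l' = l + (-(q * L)) * 3 := by rw [hl']; push_cast; ring
      rw [e, Int.add_mul_emod_self_right]
    have hne : k ≠ l' := by
      intro h
      exact hkl ⟨q, by rw [h]; exact hl⟩
    have msh := m_shift hD.pm
    have hsg : ∀ i, sg m (i + q * L) = sg m i := by
      intro i
      unfold sg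
      have e : i + q * L + 1 = i + 1 + q * L := by ring
      rw [e, msh, msh]
    have hca' : ca m l' = ca m k := by
      rw [hca]
      unfold ca
      rw [hr, hd]
      have e1 : l / 3 = k / 3 + q * L := hq
      have e2 : k / 3 + q * L - 1 = k / 3 - 1 + q * L := by ring
      rw [e1, e2, msh, hsg, hsg]
    have ht0 : θ l = θ l' + q := by rw [hl]; exact th_shift hT l' q
    have ht1 : θ (l + 1) = θ (l' + 1) + q := by
      have e : l + 1 = l' + 1 + q * (3 * L : ℕ) := by rw [hl]; ring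
      rw [e]; exact th_shift hT (l' + 1) q
    -- reduction to `l'`
    have red : ((∀ u ∈ Icc (θ k) (θ (k + 1)), ∀ v ∈ Icc (θ l') (θ (l' + 1)),
        TL Λ u (ln X₀ w ε n) < TL Λ v (ln X₀ w ε n)) ∨
        ∀ u ∈ Icc (θ k) (θ (k + 1)), ∀ v ∈ Icc (θ l') (θ (l' + 1)),
          TL Λ v (ln X₀ w ε n) < TL Λ u (ln X₀ w ε n)) →
        ((∀ u ∈ Icc (θ k) (θ (k + 1)), ∀ v ∈ Icc (θ l) (θ (l + 1)),
        TL Λ u (ln X₀ w ε n) < TL Λ v (ln X₀ w ε n)) ∨
        ∀ u ∈ Icc (θ k) (θ (k + 1)), ∀ v ∈ Icc (θ l) (θ (l + 1)),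
          TL Λ v (ln X₀ w ε n) < TL Λ u (ln X₀ w ε n)) := by
      intro h
      refine h.imp (fun h u hu v hv => ?_) (fun h u hu v hv => ?_)
      · rw [ht0, ht1] at hv
        rw [← tl_shift Λ v _ q]
        exact h u hu _ ⟨by linarith [hv.1], by linarith [hv.2]⟩
      · rw [ht0, ht1] at hv
        rw [← tl_shift Λ v _ q]
        exact h u hu _ ⟨by linarith [hv.1], by linarith [hv.2]⟩
    apply red
    generalize hi : k / 3 = i at *
    have hk := res k
    have hl2 := res l'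
    rw [hi] at hk
    rw [hd] at hl2
    have hs0 := sg_or hD (i - 1)
    have hs1 := sg_or hD i
    have c0 := ca0 m i
    have c1 := ca1 m i
    have c2 := ca2 m i
    have b0 : ca m (3 * i) = 3 * m i - 1 ∨ ca m (3 * i) = 3 * m i + 1 := by
      rw [c0]; split <;> simp
    have b2 : ca m (3 * i + 2) = 3 * m i - 1 ∨ ca m (3 * i + 2) = 3 * m i + 1 := by
      rw [c2]; split <;> simp
    rcases hk with hk | hk | hk <;> rcases hl2 with hl2 | hl2 | hl2
    · exact absurd (hk.trans hl2.symm) hne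
    · rw [hk, hl2] at hca'
      rw [c1] at hca'
      omega
    · rw [hk, hl2] at hca'
      rw [hk] at hn
      rw [hk, hl2]
      have e : 3 * i + 2 + 1 = 3 * i + 3 := by ring
      rw [e]
      exact tip hTSP hD hS hε hε' hT i hca'.symm n hn
    · rw [hk, hl2] at hca'
      rw [c1] at hca'
      omega
    · exact absurd (hk.trans hl2.symm) hne
    · rw [hk, hl2] at hca'
      rw [c1] at hca'
      omega
    · rw [hk, hl2] at hca'
      rw [hk, ← hca'] at hn
      rw [hk, hl2]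
      have e : 3 * i + 2 + 1 = 3 * i + 3 := by ring
      rw [e]
      rcases tip hTSP hD hS hε hε' hT i hca' n hn with h | h
      · exact Or.inr fun u hu v hv => h v hv u hu
      · exact Or.inl fun u hu v hv => h v hv u hu
    · rw [hk, hl2] at hca'
      rw [c1] at hca'
      omega
    · exact absurd (hk.trans hl2.symm) hne
  · by_cases hz : z (k / 3) = z (l / 3)
    · -- a crossing
      obtain ⟨d1, d2, d3, d4, d5⟩ := hD.dis (k / 3) (l / 3) hC hmm hz
      have E1 : ∀ u ∈ Icc (θ k) (θ (k + 1)), TL Λ u (ln X₀ w ε n) =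
          X₀ * P₀ * z (k / 3) + P₀ * sl m z (k / 3) * (ln X₀ w ε n - X₀ * m (k / 3)) := by
        intro u hu
        obtain ⟨a1, a2⟩ := arc k u hu
        exact hS.zs (k / 3) d1 d2 u a1 a2 _
      have E2 : ∀ v ∈ Icc (θ l) (θ (l + 1)), TL Λ v (ln X₀ w ε n) =
          X₀ * P₀ * z (k / 3) + P₀ * sl m z (l / 3) * (ln X₀ w ε n - X₀ * m (k / 3)) := by
        intro v hv
        obtain ⟨a1, a2⟩ := arc l v hv
        rw [hS.zs (l / 3) d3 d4 v a1 a2 _, hz, hmm]
      have hne : P₀ * ((sl m z (k / 3) : ℝ) - sl m z (l / 3)) *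
          (ln X₀ w ε n - X₀ * m (k / 3)) ≠ 0 := by
        refine mul_ne_zero (mul_ne_zero hP0.ne' ?_) hb2
        rw [sub_ne_zero]
        exact_mod_cast d5
      rcases lt_or_gt_of_ne hne with h | h
      · left
        intro u hu v hv
        rw [E1 u hu, E2 v hv]
        linarith only [h]
      · right
        intro u hu v hv
        rw [E1 u hu, E2 v hv]
        linarith
    · -- different heights
      obtain ⟨hpar, -⟩ := hLHD L m z hD
      have hp := hpar (k / 3) (l / 3) hmm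
      have E1 : ∀ u ∈ Icc (θ k) (θ (k + 1)),
          |TL Λ u (ln X₀ w ε n) - X₀ * P₀ * z (k / 3)| ≤ 5 / 8 * (X₀ * P₀) := by
        intro u hu
        obtain ⟨a1, a2⟩ := arc k u hu
        exact hS.zb (k / 3) u a1 a2 _ hb1
      have E2 : ∀ v ∈ Icc (θ l) (θ (l + 1)),
          |TL Λ v (ln X₀ w ε n) - X₀ * P₀ * z (l / 3)| ≤ 5 / 8 * (X₀ * P₀) := by
        intro v hv
        obtain ⟨a1, a2⟩ := arc l v hv
        exact hS.zb (l / 3) v a1 a2 _ (by rw [← hmm]; exact hb1)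
      have hXP : 0 < X₀ * P₀ := mul_pos hX0 hP0
      rcases lt_or_gt_of_ne hz with h | h
      · left
        intro u hu v hv
        have h1 := (abs_le.1 (E1 u hu)).2
        have h2 := (abs_le.1 (E2 v hv)).1
        have h3 : z (k / 3) + 2 ≤ z (l / 3) := by omega
        have h4 : (z (k / 3) : ℝ) + 2 ≤ z (l / 3) := by exact_mod_cast h3
        linarith only [hXP, h1, h2, mul_le_mul_of_nonneg_left h4 hXP.le]
      · right
        intro u hu v hv
        have h1 := (abs_le.1 (E1 u hu)).1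
        have h2 := (abs_le.1 (E2 v hv)).2
        have h3 : z (l / 3) + 2 ≤ z (k / 3) := by omega
        have h4 : (z (l / 3) : ℝ) + 2 ≤ z (k / 3) := by exact_mod_cast h3
        linarith only [hXP, h1, h2, mul_le_mul_of_nonneg_left h4 hXP.le]

end LHE


end
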