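import Mathlib
import Pool.Agent.NDM.C03
import Pool.Agent.NDM.C04
import Pool.Agent.NDM.C05
import Pool.Agent.NDM.C06
import Pool.Agent.NDM.C07
import Pool.Agent.NDM.C09
import Pool.Agent.NDM.C10
import Pool.Agent.NDM.C12
import Pool.Agent.NDM.C14
import Pool.Agent.NDM.C15
import Pool.Agent.NDM.C17
import Pool.Agent.NDM.C25
import Pool.Agent.NDM.C26

/-! Parts: LHJ.Rep, LHE.JDA, LHE.SHX, LHE.VXX, LHE.AR2, LHE.AR4, LHE.ORE, LHE.CMB, LHE.SGM, LHE.LNM, LHE.JSX -/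

section

/-!
# The list `M0` represents the walk of the lattice path of `J`
-/

namespace LHJ

open Set LG LH LHE

theorem rpJ : Rp (ents (cPts 120 mJ zJ)) (cst M0) := by
  rw [t_IEN, eJ]
  exact t_RPC EJ M0 _ TJ rJ

end LHJ


end

section

/-!
# The lattice path of the knot `J`
-/

namespace LHE

open LHJ (mJ zJ)

/-- The index of the vertex `k` of the polygon as a point of the lattice path. -/
def jJ (k : ℤ) : ℤ :=
  120 * (k / 24) + [0, 8, 12, 16, 23, 28, 38, 41, 46, 53, 57, 60, 62, 66, 69, 76, 79, 83, 90, 92,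
    98, 102, 106, 113].getD (k % 24).toNat 0

/-- The `x`-coordinate of the vertex `k`. -/
def MJ (k : ℤ) : ℤ :=
  [-2, -10, -6, -2, 5, 0, -10, -7, -2, 5, 9, 6, 4, 8, 5, -2, -5, -1, 6, 4, -2, -6, -2, 5].getD
    (k % 24).toNat 0

/-- The `z`-coordinate of the vertex `k`. -/
def ZJ (k : ℤ) : ℤ :=
  [2, 10, 14, 10, 17, 22, 12, 9, 14, 7, 11, 14, 12, 8, 5, 12, 9, 5, 12, 14, 8, 12, 16, 9].getD
    (k % 24).toNat 0

/-- The direction of the edge `k`. -/
def sJ (k : ℤ) : ℤ :=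
  [-1, 1, 1, 1, -1, -1, 1, 1, 1, 1, -1, -1, 1, -1, -1, -1, 1, 1, -1, -1, -1, 1, 1, -1].getD
    (k % 24).toNat 0

/-- The slope of the edge `k`. -/
def pJ (k : ℤ) : ℤ :=
  [-1, 1, -1, 1, -1, 1, -1, 1, -1, 1, -1, 1, -1, 1, -1, 1, -1, 1, -1, 1, -1, 1, -1, 1].getD
    (k % 24).toNat 0

/-- The length of the edge `k`. -/
def lJ (k : ℤ) : ℤ :=
  [8, 4, 4, 7, 5, 10, 3, 5, 7, 4, 3, 2, 4, 3, 7, 3, 4, 7, 2, 6, 4, 4, 7, 7].getD (k % 24).toNat 0

namespace JDA

theorem res120 (i : ℤ) : ∃ (r : Fin 120) (q : ℤ), i = ((r : ℕ) : ℤ) + 120 * q := by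
  refine ⟨⟨(i % 120).toNat, by omega⟩, i / 120, ?_⟩
  simp only
  omega

theorem res24 (i : ℤ) : ∃ (r : Fin 24) (q : ℤ), i = ((r : ℕ) : ℤ) + 24 * q := by
  refine ⟨⟨(i % 24).toNat, by omega⟩, i / 24, ?_⟩
  simp only
  omega

theorem mp (i q : ℤ) : mJ (i + 120 * q) = mJ i := by
  unfold LHJ.mJ; rw [Int.add_mul_emod_self_left]

theorem zp (i q : ℤ) : zJ (i + 120 * q) = zJ i := by
  unfold LHJ.zJ; rw [Int.add_mul_emod_self_left]

theorem Mp (i q : ℤ) : MJ (i + 24 * q) = MJ i := by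
  unfold MJ; rw [Int.add_mul_emod_self_left]

theorem Zp (i q : ℤ) : ZJ (i + 24 * q) = ZJ i := by
  unfold ZJ; rw [Int.add_mul_emod_self_left]

theorem sp (i q : ℤ) : sJ (i + 24 * q) = sJ i := by
  unfold sJ; rw [Int.add_mul_emod_self_left]

theorem pp (i q : ℤ) : pJ (i + 24 * q) = pJ i := by
  unfold pJ; rw [Int.add_mul_emod_self_left]

theorem lp (i q : ℤ) : lJ (i + 24 * q) = lJ i := by
  unfold lJ; rw [Int.add_mul_emod_self_left]

theorem jp (i q : ℤ) : jJ (i + 24 * q) = jJ i + 120 * q := by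
  unfold jJ
  rw [Int.add_mul_emod_self_left, Int.add_mul_ediv_left _ _ (by norm_num)]
  ring

theorem d1 : ∀ r : Fin 120, (mJ (((r : ℕ) : ℤ) + 1) = mJ ((r : ℕ) : ℤ) + 1 ∨
      mJ (((r : ℕ) : ℤ) + 1) = mJ ((r : ℕ) : ℤ) - 1) ∧
    (zJ (((r : ℕ) : ℤ) + 1) = zJ ((r : ℕ) : ℤ) + 1 ∨
      zJ (((r : ℕ) : ℤ) + 1) = zJ ((r : ℕ) : ℤ) - 1) := by
  decide +kernel

theorem d2 : ∀ r : Fin 120, sg mJ (((r : ℕ) : ℤ) - 1) ≠ sg mJ ((r : ℕ) : ℤ) →
    sl mJ zJ (((r : ℕ) : ℤ) - 1) ≠ sl mJ zJ ((r : ℕ) : ℤ) := by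
  decide +kernel

theorem d3 : ∀ r s : Fin 120, r ≠ s → mJ ((r : ℕ) : ℤ) = mJ ((s : ℕ) : ℤ) →
    zJ ((r : ℕ) : ℤ) = zJ ((s : ℕ) : ℤ) →
    sg mJ (((r : ℕ) : ℤ) - 1) = sg mJ ((r : ℕ) : ℤ) ∧
    sl mJ zJ (((r : ℕ) : ℤ) - 1) = sl mJ zJ ((r : ℕ) : ℤ) ∧
    sg mJ (((s : ℕ) : ℤ) - 1) = sg mJ ((s : ℕ) : ℤ) ∧
    sl mJ zJ (((s : ℕ) : ℤ) - 1) = sl mJ zJ ((s : ℕ) : ℤ) ∧
    sl mJ zJ ((r : ℕ) : ℤ) ≠ sl mJ zJ ((s : ℕ) : ℤ) := by
  decide +kernel

theorem e1 : ∀ r : Fin 24, (jJ (((r : ℕ) : ℤ) + 1) = jJ ((r : ℕ) : ℤ) + lJ ((r : ℕ) : ℤ)) ∧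
    (1 ≤ lJ ((r : ℕ) : ℤ)) ∧ (lJ ((r : ℕ) : ℤ) ≤ 10) ∧
    (sJ ((r : ℕ) : ℤ) = 1 ∨ sJ ((r : ℕ) : ℤ) = -1) ∧
    (pJ ((r : ℕ) : ℤ) = 1 ∨ pJ ((r : ℕ) : ℤ) = -1) ∧
    (pJ (((r : ℕ) : ℤ) - 1) ≠ pJ ((r : ℕ) : ℤ)) ∧
    (MJ (((r : ℕ) : ℤ) + 1) = MJ ((r : ℕ) : ℤ) + sJ ((r : ℕ) : ℤ) * lJ ((r : ℕ) : ℤ)) ∧
    (ZJ (((r : ℕ) : ℤ) + 1) =
      ZJ ((r : ℕ) : ℤ) + sJ ((r : ℕ) : ℤ) * pJ ((r : ℕ) : ℤ) * lJ ((r : ℕ) : ℤ)) := by
  decide +kernel

theorem e2 : ∀ (r : Fin 24) (d : Fin 11), ((d : ℕ) : ℤ) ≤ lJ ((r : ℕ) : ℤ) →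
    mJ (jJ ((r : ℕ) : ℤ) + ((d : ℕ) : ℤ)) = MJ ((r : ℕ) : ℤ) + sJ ((r : ℕ) : ℤ) * ((d : ℕ) : ℤ) ∧
    zJ (jJ ((r : ℕ) : ℤ) + ((d : ℕ) : ℤ)) =
      ZJ ((r : ℕ) : ℤ) + sJ ((r : ℕ) : ℤ) * pJ ((r : ℕ) : ℤ) * ((d : ℕ) : ℤ) := by
  decide +kernel

theorem sgp (r q : ℤ) : sg mJ (r + 120 * q) = sg mJ r := by
  unfold sg
  rw [show r + 120 * q + 1 = (r + 1) + 120 * q by ring, mp, mp]

theorem slp (r q : ℤ) : sl mJ zJ (r + 120 * q) = sl mJ zJ r := by
  unfold sl
  rw [show r + 120 * q + 1 = (r + 1) + 120 * q by ring, mp, mp, zp, zp]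

end JDA

/-- The lattice path of `J`. -/
theorem latD_J : LatD 120 mJ zJ where
  Lpos := by norm_num
  pm i := by
    have := JDA.mp i 1
    simpa using this
  pz i := by
    have := JDA.zp i 1
    simpa using this
  dm i := by
    obtain ⟨r, q, rfl⟩ := JDA.res120 i
    rw [show ((r : ℕ) : ℤ) + 120 * q + 1 = (((r : ℕ) : ℤ) + 1) + 120 * q by ring, JDA.mp, JDA.mp]
    exact (JDA.d1 r).1
  dz i := by
    obtain ⟨r, q, rfl⟩ := JDA.res120 i
    rw [show ((r : ℕ) : ℤ) + 120 * q + 1 = (((r : ℕ) : ℤ) + 1) + 120 * q by ring, JDA.zp, JDA.zp]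
    exact (JDA.d1 r).2
  nb i := by
    obtain ⟨r, q, rfl⟩ := JDA.res120 i
    rw [show ((r : ℕ) : ℤ) + 120 * q - 1 = (((r : ℕ) : ℤ) - 1) + 120 * q by ring, JDA.sgp,
      JDA.sgp, JDA.slp, JDA.slp]
    exact JDA.d2 r
  dis i j := by
    obtain ⟨r, q, rfl⟩ := JDA.res120 i
    obtain ⟨s, q', rfl⟩ := JDA.res120 j
    intro h
    rw [show ((r : ℕ) : ℤ) + 120 * q - 1 = (((r : ℕ) : ℤ) - 1) + 120 * q by ring,
      show ((s : ℕ) : ℤ) + 120 * q' - 1 = (((s : ℕ) : ℤ) - 1) + 120 * q' by ring]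
    simp only [JDA.mp, JDA.zp, JDA.sgp, JDA.slp]
    apply JDA.d3 r s
    rintro rfl
    exact h ⟨q' - q, by push_cast; ring⟩

/-- The vertices of `J` are points of the lattice path. -/
theorem ver_J : Ver 24 120 MJ ZJ sJ pJ lJ mJ zJ jJ where
  jp k := by
    have := JDA.jp k 1
    simpa using this
  js k := by
    obtain ⟨r, q, rfl⟩ := JDA.res24 k
    rw [show ((r : ℕ) : ℤ) + 24 * q + 1 = (((r : ℕ) : ℤ) + 1) + 24 * q by ring]
    simp only [JDA.jp, JDA.lp]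
    rw [(JDA.e1 r).1]
    ring
  l1 k := by
    obtain ⟨r, q, rfl⟩ := JDA.res24 k
    rw [JDA.lp]
    exact (JDA.e1 r).2.1
  s1 k := by
    obtain ⟨r, q, rfl⟩ := JDA.res24 k
    rw [JDA.sp]
    exact (JDA.e1 r).2.2.2.1
  p1 k := by
    obtain ⟨r, q, rfl⟩ := JDA.res24 k
    rw [JDA.pp]
    exact (JDA.e1 r).2.2.2.2.1
  alt k := by
    obtain ⟨r, q, rfl⟩ := JDA.res24 k
    rw [show ((r : ℕ) : ℤ) + 24 * q - 1 = (((r : ℕ) : ℤ) - 1) + 24 * q by ring, JDA.pp, JDA.pp]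
    exact (JDA.e1 r).2.2.2.2.2.1
  mp i := by
    have := JDA.mp i 1
    simpa using this
  mm k d h0 h1 := by
    obtain ⟨r, q, rfl⟩ := JDA.res24 k
    rw [JDA.lp] at h1
    rw [JDA.jp, JDA.Mp, JDA.sp, show jJ ((r : ℕ) : ℤ) + 120 * q + d =
      (jJ ((r : ℕ) : ℤ) + d) + 120 * q by ring, JDA.mp]
    have h2 := (JDA.e1 r).2.2.1
    have h3 := (JDA.e2 r ⟨d.toNat, by omega⟩ (by simp only; omega)).1
    simp only [Int.toNat_of_nonneg h0] at h3
    exact h3
  zz k d h0 h1 := by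
    obtain ⟨r, q, rfl⟩ := JDA.res24 k
    rw [JDA.lp] at h1
    rw [JDA.jp, JDA.Zp, JDA.sp, JDA.pp, show jJ ((r : ℕ) : ℤ) + 120 * q + d =
      (jJ ((r : ℕ) : ℤ) + d) + 120 * q by ring, JDA.zp]
    have h2 := (JDA.e1 r).2.2.1
    have h3 := (JDA.e2 r ⟨d.toNat, by omega⟩ (by simp only; omega)).2
    simp only [Int.toNat_of_nonneg h0] at h3
    exact h3

end LHE


end

section

/-!
# SHX: a shape with a strictly monotone tip
-/

namespace LHE

open Set LG LH LCA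
open scoped ContDiff

namespace SHX

/-- The shape of `LCA/SHP.lean`. -/
noncomputable def shp : Shape where
  τ := SHP.tau
  ξ := SHP.xi
  ΘP := SHP.thP
  ΘR := SHP.thR
  τ_smooth := SHP.tau_smooth
  ξ_smooth := SHP.xi_smooth
  ΘP_smooth := SHP.smooth_of_deriv SHP.thP_hasDeriv SHP.tau_smooth
  ΘR_smooth := by
    refine SHP.smooth_of_deriv SHP.thR_hasDeriv (SHP.tau_smooth.mul ?_)
    exact (contDiff_infty_iff_deriv.1 SHP.xi_smooth).2
  τ_low := fun _ h => SHP.tau_low h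
  τ_high := fun _ h => SHP.tau_high h
  τ_mem := fun u => ⟨SHP.tau_nonneg u, SHP.tau_le_one u⟩
  τ_deriv := fun _ h0 h1 => SHP.tau_deriv_pos h0 h1
  τ_symm := SHP.tau_symm
  ξ_out := by
    intro u h
    rcases le_total 0 u with h0 | h0
    · rw [abs_of_nonneg h0] at h ⊢
      exact SHP.xi_high h
    · rw [abs_of_nonpos h0] at h ⊢
      rw [← SHP.xi_even]
      exact SHP.xi_high h
  ξ_in := fun _ h => SHP.xi_in h
  ξ_even := SHP.xi_even
  ξ_anti := SHP.xi_anti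
  ΘP_deriv := SHP.thP_hasDeriv
  ΘP_low := fun _ h => SHP.thP_low h
  ΘP_high := fun _ h => SHP.thP_high h
  ΘR_deriv := SHP.thR_hasDeriv
  ΘR_low := fun _ h => SHP.thR_low h
  ΘR_high := fun _ h => SHP.thR_high h
  ΘP_bd := fun _ h => SHP.thP_bd h
  ΘR_bd := fun _ h => SHP.thR_bd h

theorem xi_deriv_neg {u : ℝ} (h : 0 < u) : deriv SHP.xi u < 0 := by
  rw [(SHP.xi_hasDeriv u).deriv]
  have h1 := SHP.sg_pos h
  have h2 := SHP.tau_deriv_nonneg u
  have h3 := SHP.ka_nonneg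
  have h4 : 0 ≤ u * (2 * deriv SHP.tau u) := by positivity
  have h5 : 0 ≤ SHP.ka * (2 * SHP.sg u * (2 * deriv SHP.tau u)) := by positivity
  linarith

end SHX

theorem t_SHX : Stmt_SHX := by
  refine ⟨SHX.shp, ?_, ?_, ?_⟩
  · show 0 ≤ SHP.xi 0
    rw [SHP.xi_zero]
    exact SHP.ka_nonneg
  · show SHP.xi 0 ≤ 3 / 4
    rw [SHP.xi_zero]
    exact SHP.ka_le
  · intro u hu
    exact SHX.xi_deriv_neg hu

end LHE


end

section

/-! # VXX: the `x`-coordinate of the knot of a grid polygon -/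

namespace LHE

open Set LG LH LCA
open scoped ContDiff

namespace VXX

theorem xi_neg (sh : Shape) (u : ℝ) : deriv sh.ξ (-u) = -deriv sh.ξ u := by
  have h1 : (fun x => sh.ξ (-x)) = sh.ξ := funext fun x => sh.ξ_even x
  have h2 := deriv_comp_neg sh.ξ u
  rw [h1] at h2
  linarith

/-- The derivative of the profile. -/
noncomputable def dchi (sh : Shape) (σ : ℤ → ℤ) (k : ℤ) (U : ℝ) : ℝ :=
  if σ (k - 1) = σ k then (σ k : ℝ) else -(σ k : ℝ) * deriv sh.ξ U

theorem chi_deriv (sh : Shape) (σ : ℤ → ℤ) (k : ℤ) (U : ℝ) :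
    HasDerivAt (chi sh σ k) (dchi sh σ k U) U := by
  unfold dchi
  split_ifs with h
  · have : chi sh σ k = fun U => (σ k : ℝ) * U := by
      funext U; simp [chi, h]
    rw [this]
    simpa using (hasDerivAt_id U).const_mul (σ k : ℝ)
  · have : chi sh σ k = fun U => -(σ k : ℝ) * sh.ξ U := by
      funext U; simp [chi, h]
    rw [this]
    have h2 : HasDerivAt sh.ξ (deriv sh.ξ U) U :=
      ((sh.ξ_smooth.differentiable (by simp)).differentiableAt).hasDerivAt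
    exact h2.const_mul _

theorem chi_pass (sh : Shape) (σ : ℤ → ℤ) (k : ℤ) (h : σ (k - 1) = σ k) (U : ℝ) :
    chi sh σ k U = σ k * U := by simp [chi, h]

theorem chi_tip (sh : Shape) (σ : ℤ → ℤ) (k : ℤ) (h : σ (k - 1) ≠ σ k) (U : ℝ) :
    chi sh σ k U = -(σ k : ℝ) * sh.ξ U := by simp [chi, h]

section main

variable {n : ℕ} [NeZero n] (Λ : LC.LegKnot) (sh : Shape) (c : Comb n n) (w : Fin n → ℝ) (Q : St n)
    (X₀ P₀ w₀ : ℝ) (M Z σ p ℓ : ℤ → ℤ)

theorem xf (hF : P_VXF) (hc : Cfg c w Q X₀ P₀ w₀ M Z σ p ℓ) (hP : Prm Λ sh c w Q) (k : ℤ) (t : ℝ)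
    (ht : |t| ≤ 3 / 4) :
    Λ.x ((k + t) / n) = X₀ * M k + w₀ * chi sh σ k (KNT.Uk sh c w Q k t) := by
  obtain ⟨Ψ, h, -⟩ := hF sh c w Q X₀ P₀ w₀ M Z σ p ℓ hc k (KNT.Uk sh c w Q k t)
  unfold LC.LegKnot.x
  rw [hP k t ht, KNT.Gk, h]

theorem xd (hF : P_VXF) (hU : P_VXU) (hc : Cfg c w Q X₀ P₀ w₀ M Z σ p ℓ) (hP : Prm Λ sh c w Q)
    (k : ℤ) (t : ℝ) (ht : |t| < 3 / 4) :
    ∃ r : ℝ, 0 < r ∧ deriv Λ.x ((k + t) / n) = r * dchi sh σ k (KNT.Uk sh c w Q k t) := by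
  have hn : (0 : ℝ) < n := by exact_mod_cast Nat.pos_of_ne_zero (NeZero.ne n)
  obtain ⟨d, hd, hd'⟩ := (hU sh c w Q X₀ P₀ w₀ M Z σ p ℓ hc k).2.1 t
  refine ⟨w₀ * (d * n), mul_pos hc.w0 (mul_pos hd hn), ?_⟩
  have hev : Λ.x =ᶠ[nhds (((k : ℝ) + t) / n)]
      fun u => X₀ * M k + w₀ * chi sh σ k (KNT.Uk sh c w Q k (n * u - k)) := by
    have hcont : ContinuousAt (fun u : ℝ => |n * u - k|) (((k : ℝ) + t) / n) := by fun_prop
    have hlt : (fun u : ℝ => |n * u - k|) (((k : ℝ) + t) / n) < 3 / 4 := by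
      have : (n : ℝ) * (((k : ℝ) + t) / n) - k = t := by field_simp; ring
      simp only [this]; exact ht
    filter_upwards [hcont.eventually (Iio_mem_nhds hlt)] with u hu
    have := xf Λ sh c w Q X₀ P₀ w₀ M Z σ p ℓ hF hc hP k (n * u - k) (le_of_lt hu)
    rw [← this]
    congr 1
    field_simp
    ring
  rw [hev.deriv_eq]
  apply HasDerivAt.deriv
  have e : (n : ℝ) * (((k : ℝ) + t) / n) - k = t := by field_simp; ring
  have h1 : HasDerivAt (fun u : ℝ => n * u - k) (n : ℝ) (((k : ℝ) + t) / n) := by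
    simpa using ((hasDerivAt_id (((k : ℝ) + t) / n)).const_mul (n : ℝ)).sub_const (k : ℝ)
  have h2 : HasDerivAt (fun u : ℝ => KNT.Uk sh c w Q k (n * u - k)) (d * n)
      (((k : ℝ) + t) / n) := by
    have hd2 : HasDerivAt (KNT.Uk sh c w Q k) d ((fun u : ℝ => n * u - k) (((k : ℝ) + t) / n)) := by
      simp only [e]; exact hd'
    exact hd2.comp (((k : ℝ) + t) / n) h1
  have h3 : HasDerivAt (fun u : ℝ => chi sh σ k (KNT.Uk sh c w Q k (n * u - k)))
      (dchi sh σ k (KNT.Uk sh c w Q k t) * (d * n)) (((k : ℝ) + t) / n) := by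
    have hd3 : HasDerivAt (chi sh σ k) (dchi sh σ k (KNT.Uk sh c w Q k t))
        ((fun u : ℝ => KNT.Uk sh c w Q k (n * u - k)) (((k : ℝ) + t) / n)) := by
      simp only [e]; exact chi_deriv sh σ k _
    exact hd3.comp (((k : ℝ) + t) / n) h2
  have h4 := (h3.const_mul w₀).const_add (X₀ * M k)
  refine h4.congr_deriv ?_
  ring

theorem Umono (hU : P_VXU) (hc : Cfg c w Q X₀ P₀ w₀ M Z σ p ℓ) (k : ℤ) :
    StrictMono (KNT.Uk sh c w Q k) := by
  apply strictMono_of_deriv_pos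
  intro t
  obtain ⟨d, hd, hd'⟩ := (hU sh c w Q X₀ P₀ w₀ M Z σ p ℓ hc k).2.1 t
  rw [hd'.deriv]; exact hd

theorem sq1 {s : ℤ} (h : s = 1 ∨ s = -1) : (s : ℝ) * s = 1 := by
  rcases h with h | h <;> rw [h] <;> norm_num

end main

end VXX

open _root_.LHE.VXX in
theorem t_VXX : Stmt_VXX := by
  intro hF hU n _ Λ sh c w Q X₀ P₀ w₀ M Z σ p ℓ hc hP hS
  have hn : (0 : ℝ) < n := by exact_mod_cast Nat.pos_of_ne_zero (NeZero.ne n)
  have hU0 : ∀ k, KNT.Uk sh c w Q k 0 = 0 := fun k =>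
    (hU sh c w Q X₀ P₀ w₀ M Z σ p ℓ hc k).1
  have hmo := fun k => Umono sh c w Q X₀ P₀ w₀ M Z σ p ℓ hU hc k
  have hx0 : ∀ k : ℤ, Λ.x (k / n) = X₀ * M k + w₀ * chi sh σ k 0 := by
    intro k
    have := xf Λ sh c w Q X₀ P₀ w₀ M Z σ p ℓ hF hc hP k 0 (by norm_num)
    rw [hU0, add_zero] at this
    exact this
  refine ⟨?_, ?_, ?_, ?_⟩
  · intro k u hu
    have h1 : (k : ℝ) < n * u := by
      have := hu.1; rw [div_lt_iff₀ hn] at this; linarith
    have h2 : (n : ℝ) * u < k + 1 := by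
      have := hu.2; rw [lt_div_iff₀ hn] at this; linarith
    have hsk := sq1 (hc.s1 k)
    rcases le_or_gt (n * u - k) (1 / 2) with h | h
    · obtain ⟨r, hr, hr'⟩ := xd Λ sh c w Q X₀ P₀ w₀ M Z σ p ℓ hF hU hc hP k (n * u - k)
        (by rw [abs_lt]; constructor <;> linarith)
      have e : ((k : ℝ) + (n * u - k)) / n = u := by field_simp; ring
      rw [e] at hr'
      rw [hr']
      have hp : 0 < KNT.Uk sh c w Q k (n * u - k) := by
        rw [← hU0 k]; exact hmo k (by linarith)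
      unfold dchi
      split_ifs with h3
      · have : (σ k : ℝ) * (r * σ k) = r := by linear_combination r * hsk
        rw [this]; exact hr
      · have := hS.d _ hp
        have e2 : (σ k : ℝ) * (r * (-(σ k : ℝ) * deriv sh.ξ (KNT.Uk sh c w Q k (n * u - k)))) =
            r * -deriv sh.ξ (KNT.Uk sh c w Q k (n * u - k)) := by
          linear_combination -(r * deriv sh.ξ (KNT.Uk sh c w Q k (n * u - k))) * hsk
        rw [e2]
        exact mul_pos hr (by linarith)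
    · obtain ⟨r, hr, hr'⟩ := xd Λ sh c w Q X₀ P₀ w₀ M Z σ p ℓ hF hU hc hP (k + 1) (n * u - (k + 1))
        (by rw [abs_lt]; constructor <;> linarith)
      have e : (((k + 1 : ℤ) : ℝ) + (n * u - (k + 1))) / n = u := by push_cast; field_simp; ring
      rw [e] at hr'
      rw [hr']
      have hp : KNT.Uk sh c w Q (k + 1) (n * u - (k + 1)) < 0 := by
        rw [← hU0 (k + 1)]; exact hmo (k + 1) (by linarith)
      have e0 : k + 1 - 1 = k := by ring
      unfold dchi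
      rw [e0]
      split_ifs with h3
      · have : (σ k : ℝ) * (r * σ (k + 1)) = r := by
          rw [← h3]; linear_combination r * hsk
        rw [this]; exact hr
      · have h4 : σ (k + 1) = -σ k := by
          rcases hc.s1 k with h5 | h5 <;> rcases hc.s1 (k + 1) with h6 | h6 <;>
            rw [h5, h6] at h3 ⊢ <;> simp at h3 ⊢
        have h5 := hS.d (-KNT.Uk sh c w Q (k + 1) (n * u - (k + 1))) (by linarith)
        rw [xi_neg] at h5
        have e2 : (σ k : ℝ) * (r * (-(σ (k + 1) : ℝ) *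
            deriv sh.ξ (KNT.Uk sh c w Q (k + 1) (n * u - (k + 1))))) =
            r * deriv sh.ξ (KNT.Uk sh c w Q (k + 1) (n * u - (k + 1))) := by
          rw [h4]; push_cast
          linear_combination (r * deriv sh.ξ (KNT.Uk sh c w Q (k + 1) (n * u - (k + 1)))) * hsk
        rw [e2]
        exact mul_pos hr (by linarith)
  · intro k hk
    constructor
    · rw [hx0, chi_pass sh σ k hk]; ring
    · obtain ⟨r, hr, hr'⟩ := xd Λ sh c w Q X₀ P₀ w₀ M Z σ p ℓ hF hU hc hP k 0 (by norm_num)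
      rw [add_zero] at hr'
      rw [hr']
      have hsk := sq1 (hc.s1 k)
      unfold dchi
      rw [if_pos hk]
      have : (σ k : ℝ) * (r * σ k) = r := by linear_combination r * hsk
      rw [this]; exact hr
  · intro k hk
    rw [hx0, chi_tip sh σ k hk]
    have hsk := sq1 (hc.s1 k)
    have : (σ k : ℝ) * (X₀ * M k + w₀ * (-(σ k : ℝ) * sh.ξ 0)) =
        σ k * (X₀ * M k) - w₀ * sh.ξ 0 := by linear_combination -(w₀ * sh.ξ 0) * hsk
    rw [this]
    have := mul_nonneg hc.w0.le hS.h0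
    linarith
  · intro k
    rw [hx0]
    have e : X₀ * M k + w₀ * chi sh σ k 0 - X₀ * M k = w₀ * chi sh σ k 0 := by ring
    rw [e, abs_mul, abs_of_pos hc.w0, mul_comm]
    apply mul_le_mul_of_nonneg_right _ hc.w0.le
    by_cases hk : σ (k - 1) = σ k
    · rw [chi_pass sh σ k hk]; norm_num
    · rw [chi_tip sh σ k hk, abs_mul, abs_neg]
      have h1 : |(σ k : ℝ)| = 1 := by
        rcases hc.s1 k with h | h <;> rw [h] <;> norm_num
      rw [h1, one_mul, abs_of_nonneg hS.h0]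
      exact hS.h1

end LHE


end

section

/-!
# The arcs of the polygons are monotone
-/

namespace LHE

open Set LG LH
open scoped ContDiff

namespace AR2

/-- A continuous function which is positive at `a` and has no zero on `[a, b]` is bounded below on
a neighbourhood. -/
theorem pos_nhds {f : ℝ → ℝ} (hf : Continuous f) {a b : ℝ} (hab : a ≤ b) (h0 : 0 < f a)
    (hn : ∀ u ∈ Icc a b, f u ≠ 0) :
    ∃ ε > (0 : ℝ), ∃ η > (0 : ℝ), ∀ u ∈ Icc (a - ε) (b + ε), η ≤ f u := by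
  have hpos : ∀ u ∈ Icc a b, 0 < f u := by
    intro u hu
    by_contra hneg
    push Not at hneg
    have h1 : (0 : ℝ) ∈ f '' Icc a u :=
      intermediate_value_Icc' hu.1 hf.continuousOn ⟨hneg, h0.le⟩
    obtain ⟨v, hv, hv0⟩ := h1
    exact hn v ⟨hv.1, hv.2.trans hu.2⟩ hv0
  obtain ⟨m, hm, hmin⟩ := isCompact_Icc.exists_isMinOn (nonempty_Icc.mpr hab) hf.continuousOn
  have hm0 := hpos m hm
  have hev : ∀ c ∈ Icc a b, ∃ δ > (0 : ℝ), ∀ u, |u - c| < δ → f m / 2 ≤ f u := by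
    intro c hc
    obtain ⟨δ, hδ, h⟩ := Metric.continuousAt_iff.mp (hf.continuousAt (x := c)) (f m / 2)
      (by linarith)
    refine ⟨δ, hδ, fun u hu => ?_⟩
    have h1 := h (x := u) (by rw [Real.dist_eq]; exact hu)
    rw [Real.dist_eq, abs_lt] at h1
    have h2 : f m ≤ f c := hmin hc
    linarith [h1.1]
  obtain ⟨δ₁, hδ₁, h₁⟩ := hev a ⟨le_rfl, hab⟩
  obtain ⟨δ₂, hδ₂, h₂⟩ := hev b ⟨hab, le_rfl⟩
  refine ⟨min δ₁ δ₂ / 2, by positivity, f m / 2, by linarith, fun u hu => ?_⟩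
  have hmin1 : min δ₁ δ₂ ≤ δ₁ := min_le_left _ _
  have hmin2 : min δ₁ δ₂ ≤ δ₂ := min_le_right _ _
  have hp : 0 < min δ₁ δ₂ := lt_min hδ₁ hδ₂
  obtain ⟨hu1, hu2⟩ := hu
  by_cases hua : u < a
  · refine h₁ u ?_
    rw [abs_lt]
    constructor <;> linarith only [hmin1, hu1, hua]
  · by_cases hub : b < u
    · refine h₂ u ?_
      rw [abs_lt]
      constructor <;> linarith only [hmin2, hu2, hub]
    · have h3 : f m ≤ f u := hmin ⟨not_lt.mp hua, not_lt.mp hub⟩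
      linarith only [hm0, h3]

/-- The same with a sign. -/
theorem sign_nhds {f : ℝ → ℝ} (hf : Continuous f) {a b : ℝ} (hab : a ≤ b)
    (hn : ∀ u ∈ Icc a b, f u ≠ 0) :
    ∃ (s : Bool), ∃ ε > (0 : ℝ), ∃ η > (0 : ℝ), ∀ u ∈ Icc (a - ε) (b + ε), η ≤ sn s * f u := by
  rcases lt_or_gt_of_ne (hn a ⟨le_rfl, hab⟩) with h | h
  · refine ⟨false, ?_⟩
    have h1 := pos_nhds (f := fun u => sn false * f u) (continuous_const.mul hf) hab
      (by simp only [sn_false]; linarith)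
      (fun u hu h0 => hn u hu (by simpa [sn_false] using h0))
    exact h1
  · refine ⟨true, ?_⟩
    have h1 := pos_nhds (f := fun u => sn true * f u) (continuous_const.mul hf) hab
      (by simp only [sn_true]; linarith)
      (fun u hu h0 => hn u hu (by simpa [sn_true] using h0))
    exact h1

theorem smooth_x (Λ : LC.LegKnot) : ContDiff ℝ ∞ Λ.x :=
  contDiff_fst.comp Λ.smooth

theorem smooth_y (Λ : LC.LegKnot) : ContDiff ℝ ∞ Λ.y :=
  contDiff_fst.comp (contDiff_snd.comp Λ.smooth)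

theorem cont_deriv {f : ℝ → ℝ} (h : ContDiff ℝ ∞ f) : Continuous (deriv f) :=
  h.continuous_deriv (by simp)

theorem diff_of {f : ℝ → ℝ} (h : ContDiff ℝ ∞ f) : Differentiable ℝ f :=
  h.differentiable (by simp)

theorem step_mono {f : ℤ → ℝ} {p q : ℤ} (h : ∀ i, p ≤ i → i < q → f i < f (i + 1)) :
    StrictMonoOn f (Icc p q) := by
  intro i hi j hj hij
  have key : ∀ n : ℕ, i + 1 + n ≤ q → f i < f (i + 1 + n) := by
    intro n
    induction n with
    | zero =>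
      intro hq
      simp only [Nat.cast_zero, add_zero] at hq ⊢
      exact h i hi.1 (by omega)
    | succ n ih =>
      intro hq
      push_cast at hq ⊢
      have h1 := ih (by omega)
      have h2 := h (i + 1 + n) (by have := hi.1; omega) (by omega)
      have h3 : i + 1 + (n : ℤ) + 1 = i + 1 + (n + 1) := by ring
      rw [h3] at h2
      exact h1.trans h2
  have h4 := key (j - (i + 1)).toNat (by have := hj.2; omega)
  have h5 : i + 1 + ((j - (i + 1)).toNat : ℤ) = j := by omega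
  rwa [h5] at h4

/-- A large enough number. -/
theorem exists_large (c : ℝ) : ∃ n : ℕ, 0 < n ∧ ∀ N : ℕ, n ≤ N → c < N := by
  obtain ⟨n, hn⟩ := exists_nat_gt c
  refine ⟨n + 1, Nat.succ_pos n, fun N hN => ?_⟩
  have : (n : ℝ) + 1 ≤ N := by exact_mod_cast hN
  linarith

theorem floor_bounds {N : ℕ} (_ : 0 < N) (θ : ℝ) :
    (⌊(N : ℝ) * θ⌋ : ℝ) ≤ N * θ ∧ N * θ < (⌊(N : ℝ) * θ⌋ : ℝ) + 1 :=
  ⟨Int.floor_le _, Int.lt_floor_add_one _⟩

theorem case_x (Λ : LC.LegKnot) (t t' : ℝ) (htt : t ≤ t')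
    (hd : ∀ u ∈ Icc t t', deriv Λ.x u ≠ 0) :
    ∃ N₀ : ℕ, 0 < N₀ ∧ ∀ N ≥ N₀, ∀ P : Pg N, IsPN Λ N P →
      StrictMonoOn P.x (Icc ⌊N * t⌋ (⌊N * t'⌋ + 1)) ∨
        StrictAntiOn P.x (Icc ⌊N * t⌋ (⌊N * t'⌋ + 1)) := by
  obtain ⟨s, ε, hε, η, hη, hb⟩ := sign_nhds (cont_deriv (smooth_x Λ)) htt hd
  obtain ⟨N₀, hN₀, hlarge⟩ := exists_large (1 / ε)
  refine ⟨N₀, hN₀, fun N hN P hP => ?_⟩
  have hNpos : 0 < N := lt_of_lt_of_le hN₀ hN
  have hNr : (0 : ℝ) < N := by exact_mod_cast hNpos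
  have hNε : 1 < N * ε := by
    have := hlarge N hN
    rwa [div_lt_iff₀ hε] at this
  have hmem : ∀ i : ℤ, i ∈ Icc ⌊N * t⌋ (⌊N * t'⌋ + 1) → (i : ℝ) / N ∈ Icc (t - ε) (t' + ε) := by
    intro i hi
    obtain ⟨h1, h2⟩ := hi
    have h1' : (⌊(N : ℝ) * t⌋ : ℝ) ≤ i := by exact_mod_cast h1
    have h2' : (i : ℝ) ≤ (⌊(N : ℝ) * t'⌋ : ℝ) + 1 := by exact_mod_cast h2
    have h3 := (floor_bounds hNpos t).2
    have h4 := (floor_bounds hNpos t').1
    constructor
    · rw [le_div_iff₀ hNr]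
      nlinarith
    · rw [div_le_iff₀ hNr]
      nlinarith
  have hlt : ∀ i j : ℤ, i < j → (i : ℝ) / N < (j : ℝ) / N := by
    intro i j hij
    have : (i : ℝ) < j := by exact_mod_cast hij
    exact div_lt_div_of_pos_right this hNr
  have hxc : Continuous Λ.x := (diff_of (smooth_x Λ)).continuous
  have hPx : ∀ i : ℤ, P.x i = Λ.x (i / N) := by
    intro i
    rw [hP.1]
    rfl
  cases s
  · right
    have hs : StrictAntiOn Λ.x (Icc (t - ε) (t' + ε)) := by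
      refine strictAntiOn_of_deriv_neg (convex_Icc _ _) hxc.continuousOn fun u hu => ?_
      have := hb u (interior_subset hu)
      rw [sn_false] at this
      linarith
    intro i hi j hj hij
    rw [hPx, hPx]
    exact hs (hmem i hi) (hmem j hj) (hlt i j hij)
  · left
    have hs : StrictMonoOn Λ.x (Icc (t - ε) (t' + ε)) := by
      refine strictMonoOn_of_deriv_pos (convex_Icc _ _) hxc.continuousOn fun u hu => ?_
      have := hb u (interior_subset hu)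
      rw [sn_true] at this
      linarith
    intro i hi j hj hij
    rw [hPx, hPx]
    exact hs (hmem i hi) (hmem j hj) (hlt i j hij)

theorem case_y (hE : Stmt_EST) (Λ : LC.LegKnot) (t t' : ℝ) (htt : t ≤ t')
    (hd : ∀ u ∈ Icc t t', deriv Λ.y u ≠ 0) :
    ∃ N₀ : ℕ, 0 < N₀ ∧ ∀ N ≥ N₀, ∀ P : Pg N, IsPN Λ N P →
      StrictMonoOn P.y (Icc ⌊N * t⌋ ⌊N * t'⌋) ∨ StrictAntiOn P.y (Icc ⌊N * t⌋ ⌊N * t'⌋) := by
  obtain ⟨s, ε, hε, η, hη, hb⟩ := sign_nhds (cont_deriv (smooth_y Λ)) htt hd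
  obtain ⟨K, hK, N₁, hN₁, hest⟩ := hE Λ
  obtain ⟨N₂, hN₂, hlarge⟩ := exists_large (1 / ε + K * K / η)
  refine ⟨max N₁ N₂, lt_max_of_lt_left hN₁, fun N hN P hP => ?_⟩
  have hN1 : N₁ ≤ N := (le_max_left _ _).trans hN
  have hN2 : N₂ ≤ N := (le_max_right _ _).trans hN
  have hNpos : 0 < N := lt_of_lt_of_le hN₁ hN1
  have hNr : (0 : ℝ) < N := by exact_mod_cast hNpos
  have hL := hlarge N hN2
  have hNε : 1 < N * ε := by
    have h1 : 1 / ε < N := lt_of_le_of_lt (le_add_of_nonneg_right (by positivity)) hL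
    rwa [div_lt_iff₀ hε] at h1
  have hNK : K * K < N * η := by
    have h1 : K * K / η < N := lt_of_le_of_lt (le_add_of_nonneg_left (by positivity)) hL
    rwa [div_lt_iff₀ hη] at h1
  obtain ⟨hmu, hall⟩ := hest N hN1 P hP
  have hstep : ∀ i : ℤ, ⌊N * t⌋ ≤ i → i < ⌊N * t'⌋ → 0 < sn s * (P.y (i + 1) - P.y i) := by
    intro i h1 h2
    have h1' : (⌊(N : ℝ) * t⌋ : ℝ) ≤ i := by exact_mod_cast h1
    have h2' : (i : ℝ) + 1 ≤ (⌊(N : ℝ) * t'⌋ : ℝ) := by exact_mod_cast h2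
    have h3 := (floor_bounds hNpos t).2
    have h4 := (floor_bounds hNpos t').1
    set u₀ : ℝ := ((i : ℝ) + 1 / 2) / N with hu₀
    set u₁ : ℝ := (((i + 1 : ℤ) : ℝ) + 1 / 2) / N with hu₁
    have hdiff : u₁ - u₀ = 1 / N := by
      rw [hu₀, hu₁]
      push_cast
      field_simp
      ring
    have hlt : u₀ < u₁ := by
      have : 0 < 1 / (N : ℝ) := by positivity
      linarith only [hdiff, this]
    obtain ⟨ξ, hξ, hξd⟩ := exists_deriv_eq_slope Λ.y hlt
      ((diff_of (smooth_y Λ)).continuous.continuousOn)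
      (fun x _ => ((diff_of (smooth_y Λ)) x).differentiableWithinAt)
    have hm : ξ ∈ Icc (t - ε) (t' + ε) := by
      constructor
      · refine le_trans ?_ hξ.1.le
        rw [hu₀, le_div_iff₀ hNr]
        linarith only [hNε, h1', h3]
      · refine le_trans hξ.2.le ?_
        rw [hu₁, div_le_iff₀ hNr]
        push_cast
        linarith only [hNε, h2', h4]
    have hbd := hb ξ hm
    have hslope : Λ.y u₁ - Λ.y u₀ = deriv Λ.y ξ * (1 / N) := by
      rw [hξd, hdiff]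
      field_simp
    have h2nd := (hall i).2.2.2.1
    have hx : ∀ j : ℤ, P.x j = x0 Λ N j := fun j => by rw [hP.1]
    have hx0 : P.x (i + 2) - 2 * P.x (i + 1) + P.x i =
        (x0 Λ N (i + 1 + 1) - x0 Λ N (i + 1)) - (x0 Λ N (i + 1) - x0 Λ N i) := by
      rw [hx, hx, hx]
      have : i + 1 + 1 = i + 2 := by ring
      rw [this]
      ring
    have hcast : (fun j : ℤ => x0 Λ N j) = fun j => x0 Λ N j := rfl
    have hy : P.y (i + 1) - P.y i = (Λ.y u₁ - Λ.y u₀) -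
        mu Λ N * (P.x (i + 2) - 2 * P.x (i + 1) + P.x i) := by
      rw [hP.2.1, hx0]
      unfold y1 y0
      rw [← hu₀, ← hu₁]
      ring
    have hprod : |mu Λ N * (P.x (i + 2) - 2 * P.x (i + 1) + P.x i)| ≤ K * (K / N ^ 2) := by
      rw [abs_mul]
      exact mul_le_mul hmu h2nd (abs_nonneg _) hK.le
    have hsm : K * (K / N ^ 2) < η * (1 / N) := by
      rw [show K * (K / (N : ℝ) ^ 2) = (K * K) * (1 / N) * (1 / N) by field_simp]
      rw [show η * (1 / (N : ℝ)) = (N * η) * (1 / N) * (1 / N) by field_simp]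
      have : 0 < 1 / (N : ℝ) := by positivity
      exact mul_lt_mul_of_pos_right (mul_lt_mul_of_pos_right hNK this) this
    have hmain : η * (1 / N) ≤ sn s * (Λ.y u₁ - Λ.y u₀) := by
      rw [hslope, ← mul_assoc]
      exact mul_le_mul_of_nonneg_right hbd (by positivity)
    rw [hy]
    rw [abs_le] at hprod
    rcases sn_or s with h | h
    · rw [h] at hmain ⊢
      linarith only [hprod, hsm, hmain]
    · rw [h] at hmain ⊢
      linarith only [hprod, hsm, hmain]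
  cases s
  · right
    have h1 : StrictMonoOn (fun i => -P.y i) (Icc ⌊(N : ℝ) * t⌋ ⌊(N : ℝ) * t'⌋) := by
      refine step_mono fun i hi hi' => ?_
      have := hstep i hi hi'
      rw [sn_false] at this
      linarith
    intro i hi j hj hij
    have := h1 hi hj hij
    simp only at this
    linarith
  · left
    refine step_mono fun i hi hi' => ?_
    have := hstep i hi hi'
    rw [sn_true] at this
    linarith

theorem ty_shift {N : ℕ} (P : Pg N) (p q j : ℤ) (h : Ty P p q) : Ty P (p + j * N) (q + j * N) := by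
  have hx : ∀ i, P.x (i - j * N) = P.x i := fun i =>
    (Function.Periodic.int_mul (f := P.x) (c := (N : ℤ)) P.px j).sub_eq i
  have hy : ∀ i, P.y (i - j * N) = P.y i := fun i =>
    (Function.Periodic.int_mul (f := P.y) (c := (N : ℤ)) P.py j).sub_eq i
  have hm : ∀ {a b i : ℤ}, i ∈ Icc (a + j * N) (b + j * N) → i - j * N ∈ Icc a b := by
    intro a b i hi
    exact ⟨by have := hi.1; linarith, by have := hi.2; linarith⟩
  have hq : q + j * N + 1 = (q + 1) + j * N := by ring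
  rcases h with (h | h) | h | h
  · left; left
    rw [hq]
    intro i hi i' hi' hii
    rw [← hx i, ← hx i']
    exact h (hm hi) (hm hi') (by linarith)
  · left; right
    rw [hq]
    intro i hi i' hi' hii
    rw [← hx i, ← hx i']
    exact h (hm hi) (hm hi') (by linarith)
  · right; left
    intro i hi i' hi' hii
    rw [← hy i, ← hy i']
    exact h (hm hi) (hm hi') (by linarith)
  · right; right
    intro i hi i' hi' hii
    rw [← hy i, ← hy i']
    exact h (hm hi) (hm hi') (by linarith)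

end AR2

theorem t_AR2 : Stmt_AR2 := by
  intro hE Λ K θ s a b g X hA
  have hone : ∀ k : ℤ, ∃ N₀ : ℕ, 0 < N₀ ∧ ∀ N ≥ N₀, ∀ P : Pg N, IsPN Λ N P →
      Ty P ⌊N * θ k⌋ ⌊N * θ (k + 1)⌋ := by
    intro k
    rcases hA.ty k with h | h
    · obtain ⟨N₀, hN₀, h1⟩ := AR2.case_x Λ (θ k) (θ (k + 1)) (hA.mono k).le h
      exact ⟨N₀, hN₀, fun N hN P hP => Or.inl (h1 N hN P hP)⟩
    · obtain ⟨N₀, hN₀, h1⟩ := AR2.case_y hE Λ (θ k) (θ (k + 1)) (hA.mono k).le h
      exact ⟨N₀, hN₀, fun N hN P hP => Or.inr (h1 N hN P hP)⟩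
  choose N₀ hpos hN₀ using hone
  refine ⟨1 + ∑ r ∈ Finset.range K, N₀ r, by omega, fun N hN P hP k => ?_⟩
  have hK := hA.d.Kpos
  have hKz : (0 : ℤ) < K := by exact_mod_cast hK
  set r : ℤ := k % K with hr
  set j : ℤ := k / K with hj
  have hk : k = r + j * K := by
    have := Int.emod_add_mul_ediv k K
    rw [hr, hj]
    linarith only [this]
  have hr0 : 0 ≤ r := Int.emod_nonneg _ (by omega)
  have hrK : r < K := Int.emod_lt_of_pos _ hKz
  have hθ : ∀ i : ℤ, θ (i + j * K) = θ i + j := by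
    have h1 : ∀ n : ℕ, ∀ i : ℤ, θ (i + n * K) = θ i + n := by
      intro n
      induction n with
      | zero => intro i; simp
      | succ n ih =>
        intro i
        have : i + ((n + 1 : ℕ) : ℤ) * K = (i + n * K) + K := by push_cast; ring
        rw [this, hA.pθ, ih]
        push_cast
        ring
    intro i
    rcases Int.eq_nat_or_neg j with ⟨n, hn | hn⟩
    · rw [hn]
      exact_mod_cast h1 n i
    · have h2 := h1 n (i + j * K)
      have h3 : i + j * K + n * K = i := by rw [hn]; ring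
      rw [h3] at h2
      rw [h2, hn]
      push_cast
      ring
  have hfl : ∀ i : ℤ, ⌊(N : ℝ) * θ (i + j * K)⌋ = ⌊(N : ℝ) * θ i⌋ + j * N := by
    intro i
    rw [hθ]
    have : (N : ℝ) * (θ i + j) = N * θ i + ((j * N : ℤ) : ℝ) := by
      push_cast
      ring
    rw [this, Int.floor_add_intCast]
  have hk1 : k + 1 = (r + 1) + j * K := by rw [hk]; ring
  rw [hk1, hk, hfl, hfl]
  apply AR2.ty_shift
  obtain ⟨n, hn⟩ := Int.eq_ofNat_of_zero_le hr0
  have hnK : n < K := by rw [hn] at hrK; exact_mod_cast hrK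
  have hle : N₀ r ≤ N := by
    have h1 : N₀ (n : ℤ) ≤ ∑ r ∈ Finset.range K, N₀ r :=
      Finset.single_le_sum (f := fun r : ℕ => N₀ (r : ℤ)) (fun _ _ => Nat.zero_le _)
        (Finset.mem_range.mpr hnK)
    rw [hn]
    omega
  exact hN₀ r N hle P hP

end LHE


end

section

/-!
# Heights of the points of the walk of arcs
-/

namespace LHE

open Set LG LH

namespace AR4

theorem shift (f : ℝ → ℝ) (hp : ∀ u, f (u + 1) = f u) (u : ℝ) (k : ℤ) : f (u - k) = f u := by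
  have hp' : Function.Periodic f 1 := hp
  have h := hp'.int_mul k (u - k)
  rw [mul_one, sub_add_cancel] at h
  exact h.symm

theorem uc (f : ℝ → ℝ) (hf : Continuous f) (hp : ∀ u, f (u + 1) = f u) (η : ℝ) (hη : 0 < η) :
    ∃ δ > 0, ∀ u v, |u - v| < δ → |f u - f v| < η := by
  have hu : UniformContinuousOn f (Icc (-1) 2) :=
    isCompact_Icc.uniformContinuousOn_of_continuous hf.continuousOn
  obtain ⟨δ, hδ, h⟩ := Metric.uniformContinuousOn_iff.1 hu η hη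
  refine ⟨min δ 1, lt_min hδ one_pos, fun u v huv => ?_⟩
  have h1 := Int.floor_le u
  have h2 := Int.lt_floor_add_one u
  have h3 := lt_of_lt_of_le huv (min_le_left _ _)
  have h4 := abs_lt.1 (lt_of_lt_of_le huv (min_le_right _ _))
  have h5 := h (u - ⌊u⌋) ⟨by linarith, by linarith⟩ (v - ⌊u⌋)
    ⟨by linarith [h4.2], by linarith [h4.1]⟩ (by
      rw [Real.dist_eq, sub_sub_sub_cancel_right]; exact h3)
  rw [Real.dist_eq, shift f hp, shift f hp] at h5
  exact h5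

theorem xcont (Λ : LC.LegKnot) : Continuous Λ.x := continuous_fst.comp Λ.smooth.continuous

theorem ycont (Λ : LC.LegKnot) : Continuous Λ.y :=
  continuous_fst.comp (continuous_snd.comp Λ.smooth.continuous)

theorem zcont (Λ : LC.LegKnot) : Continuous (zz Λ) :=
  continuous_snd.comp (continuous_snd.comp Λ.smooth.continuous)

theorem xper (Λ : LC.LegKnot) (u : ℝ) : Λ.x (u + 1) = Λ.x u := by
  unfold LC.LegKnot.x
  rw [Λ.periodic u]

theorem yper (Λ : LC.LegKnot) (u : ℝ) : Λ.y (u + 1) = Λ.y u := by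
  unfold LC.LegKnot.y
  rw [Λ.periodic u]

theorem zper (Λ : LC.LegKnot) (u : ℝ) : zz Λ (u + 1) = zz Λ u := by
  unfold zz
  rw [Λ.periodic u]

theorem main (hE : Stmt_EST) (Λ : LC.LegKnot) (D : ℝ) (hD : 0 ≤ D) (ε : ℝ) (hε : 0 < ε) :
    ∃ N₀ : ℕ, 0 < N₀ ∧ ∀ N ≥ N₀, ∀ P : Pg N, IsPN Λ N P → ∀ θ t : ℝ, |t - Λ.x θ| ≤ D →
      |P.l ⌊N * θ⌋ t - (TL Λ θ t - zz Λ 0)| < ε := by
  obtain ⟨K, hK, N₁, hN₁, hEst⟩ := hE Λ
  have hpos : 0 < 3 * (1 + K + D) := by positivity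
  set η : ℝ := ε / (3 * (1 + K + D)) with hη
  have hη0 : 0 < η := div_pos hε hpos
  obtain ⟨δ₁, hδ₁, hx⟩ := uc Λ.x (xcont Λ) (xper Λ) η hη0
  obtain ⟨δ₂, hδ₂, hy⟩ := uc Λ.y (ycont Λ) (yper Λ) η hη0
  obtain ⟨δ₃, hδ₃, hz⟩ := uc (zz Λ) (zcont Λ) (zper Λ) η hη0
  obtain ⟨n₁, hn₁⟩ := exists_nat_gt (1 / δ₁)
  obtain ⟨n₂, hn₂⟩ := exists_nat_gt (1 / δ₂)
  obtain ⟨n₃, hn₃⟩ := exists_nat_gt (1 / δ₃)
  obtain ⟨n₄, hn₄⟩ := exists_nat_gt (3 * (K * (1 + D)) / ε)
  refine ⟨N₁ + n₁ + n₂ + n₃ + n₄, by omega, fun N hN P hP θ t ht => ?_⟩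
  have hNN₁ : N₁ ≤ N := by omega
  have hN0 : (0 : ℝ) < N := by
    have : 0 < N := by omega
    exact_mod_cast this
  have inv_lt : ∀ (n : ℕ) (δ : ℝ), 0 < δ → 1 / δ < n → n ≤ N → 1 / (N : ℝ) < δ := by
    intro n δ hδ h1 h2
    have h3 : 1 / δ < N := lt_of_lt_of_le h1 (by exact_mod_cast h2)
    rw [div_lt_iff₀ hδ] at h3
    rw [div_lt_iff₀ hN0]
    linarith only [h3]
  have i1 := inv_lt n₁ δ₁ hδ₁ hn₁ (by omega)
  have i2 := inv_lt n₂ δ₂ hδ₂ hn₂ (by omega)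
  have i3 := inv_lt n₃ δ₃ hδ₃ hn₃ (by omega)
  have i4 : K * (1 + D) / N ≤ ε / 3 := by
    have h3 : 3 * (K * (1 + D)) / ε < N :=
      lt_of_lt_of_le hn₄ (by exact_mod_cast (show n₄ ≤ N by omega))
    rw [div_lt_iff₀ hε] at h3
    rw [div_le_iff₀ hN0]
    linarith only [h3]
  obtain ⟨-, hall⟩ := hEst N hNN₁ P hP
  obtain ⟨h1, h2, -, -, h5⟩ := hall ⌊(N : ℝ) * θ⌋
  have f1 := Int.floor_le ((N : ℝ) * θ)
  have f2 := Int.lt_floor_add_one ((N : ℝ) * θ)
  generalize ⌊(N : ℝ) * θ⌋ = e at *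
  have g1 : (e : ℝ) / N ≤ θ := by
    rw [div_le_iff₀ hN0]; linarith only [f1]
  have g2 : θ < (e : ℝ) / N + 1 / N := by
    rw [← add_div, lt_div_iff₀ hN0]; linarith
  have hmid : ((e : ℝ) + 1 / 2) / N = (e : ℝ) / N + 1 / N / 2 := by
    rw [add_div]; ring
  have hinv : 0 < 1 / (N : ℝ) := by positivity
  have a1 : |Λ.x θ - Λ.x ((e : ℝ) / N)| < η := hx _ _ (by
    rw [abs_lt]; constructor <;> linarith only [i1, g1, g2])
  have a2 : |Λ.y (((e : ℝ) + 1 / 2) / N) - Λ.y θ| < η := hy _ _ (by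
    rw [hmid, abs_lt]; constructor <;> (first | linarith only [i2, g1, g2] | linarith))
  have a3 : |zz Λ ((e : ℝ) / N) - zz Λ θ| < η := hz _ _ (by
    rw [abs_lt]; constructor <;> (first | linarith only [i3, g2] | linarith only [i3, g1, g2] | linarith))
  have hPx : P.x e = Λ.x ((e : ℝ) / N) := by rw [hP.1]; rfl
  have key : P.l e t - (TL Λ θ t - zz Λ 0) =
      (P.z e - (zz Λ ((e : ℝ) / N) - zz Λ 0)) + (zz Λ ((e : ℝ) / N) - zz Λ θ) +
        P.y e * (Λ.x θ - Λ.x ((e : ℝ) / N)) +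
        ((P.y e - Λ.y (((e : ℝ) + 1 / 2) / N)) + (Λ.y (((e : ℝ) + 1 / 2) / N) - Λ.y θ)) *
          (t - Λ.x θ) := by
    unfold Pg.l TL
    rw [hPx]
    ring
  have b3 : |P.y e * (Λ.x θ - Λ.x ((e : ℝ) / N))| ≤ K * η := by
    rw [abs_mul]
    exact mul_le_mul h5 a1.le (abs_nonneg _) hK.le
  have b4 : |((P.y e - Λ.y (((e : ℝ) + 1 / 2) / N)) + (Λ.y (((e : ℝ) + 1 / 2) / N) - Λ.y θ)) *
      (t - Λ.x θ)| ≤ (K / N + η) * D := by
    rw [abs_mul]
    refine mul_le_mul ((abs_add_le _ _).trans (add_le_add h1 a2.le)) ht (abs_nonneg _) ?_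
    positivity
  have hsum : η * (1 + K + D) = ε / 3 := by
    rw [hη]
    field_simp
  have hKD : K / N + K / N * D = K * (1 + D) / N := by ring
  rw [key]
  refine lt_of_le_of_lt (abs_add_le _ _) ?_
  refine lt_of_le_of_lt (add_le_add ((abs_add_le _ _).trans (add_le_add (abs_add_le _ _) b3)) b4) ?_
  linarith only [hε, i4, h2, a3, hsum, hKD]

end AR4

theorem t_AR4 : Stmt_AR4 := by
  intro hE Λ K θ s a b g X hA ε hε
  obtain ⟨N₀, hN₀, h⟩ := AR4.main hE Λ (∑ t ∈ X, 2 * |t|)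
    (Finset.sum_nonneg fun t _ => by positivity) ε hε
  refine ⟨N₀, hN₀, fun N hN P hP k => ?_⟩
  have hX : ∀ t ∈ X, ∀ t' ∈ X, |t - t'| ≤ ∑ t ∈ X, 2 * |t| := by
    intro t ht t' ht'
    by_cases htt : t = t'
    · rw [htt, sub_self, abs_zero]
      exact Finset.sum_nonneg fun t _ => by positivity
    · have h1 := Finset.single_le_sum (f := fun t : ℝ => |t|) (fun i _ => abs_nonneg i) ht
      have h2 := Finset.single_le_sum (f := fun t : ℝ => |t|) (fun i _ => abs_nonneg i) ht'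
      rw [← Finset.mul_sum]
      have h3 := abs_sub t t'
      linarith [abs_sub t t']
  obtain ⟨haX, hbX, -, -⟩ := hA.d.adj k
  have hs : s k ∈ X := by
    rw [hA.d.st k]
    split
    · exact haX
    · exact hbX
  have ho : oL a b g k ∈ X := by
    unfold oL
    split
    · exact hbX
    · exact haX
  constructor
  · have h1 := h N hN P hP (θ k) (s k) (by rw [hA.hit k, sub_self, abs_zero]
                                           exact Finset.sum_nonneg fun t _ => by positivity)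
    have h2 : TL Λ (θ k) (s k) = zz Λ (θ k) := by
      unfold TL
      rw [hA.hit k, sub_self, mul_zero, add_zero]
    rwa [h2] at h1
  · exact h N hN P hP (θ k) (oL a b g k) (by rw [hA.hit k]; exact hX _ ho _ hs)

end LHE


end

section

/-!
# ORE: lists with the same order have the same representations
-/

namespace LHE

open Set LG LH

namespace ORE

open Classical in
/-- The position in `w` of the point with the position `q` in `w'`. -/
noncomputable def pick (w w' : List Pt) (P : Pt → Prop) (c : Pt → Q) (q : Q) : Q :=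
  if h : ∃ i, ∃ (h : i < w.length) (h' : i < w'.length), P w[i] ∧ c w'[i] = q then
    c (w[h.choose]'h.choose_spec.choose) else q

theorem pick_eq {w w' : List Pt} {P : Pt → Prop} {c : Pt → Q}
    (H : ∀ i j (_ : i < w.length) (_ : i < w'.length) (_ : j < w.length) (_ : j < w'.length),
      P w[i] → P w[j] → (c w[i] < c w[j] ↔ c w'[i] < c w'[j]))
    (i : ℕ) (h : i < w.length) (h' : i < w'.length) (hp : P w[i]) :
    pick w w' P c (c w'[i]) = c w[i] := by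
  have hex : ∃ j, ∃ (_ : j < w.length) (_ : j < w'.length), P w[j] ∧ c w'[j] = c w'[i] :=
    ⟨i, h, h', hp, rfl⟩
  unfold pick
  rw [dif_pos hex]
  obtain ⟨h1, h2⟩ := hex.choose_spec
  obtain ⟨h2, h3, h4⟩ := h2
  rcases lt_trichotomy (c (w[hex.choose]'h1)) (c w[i]) with h5 | h5 | h5
  · have := (H _ _ h1 h2 h h' h3 hp).1 h5
    rw [h4] at this
    exact absurd this (lt_irrefl _)
  · exact h5
  · have := (H _ _ h h' h1 h2 hp h3).1 h5
    rw [h4] at this
    exact absurd this (lt_irrefl _)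

theorem flat {w w' : List Pt} {φ : En → En}
    (h : List.Forall₂ (fun p q => ent p = (ent q).map φ) w w') : ents w = (ents w').map φ := by
  unfold ents
  induction h with
  | nil => simp
  | cons h1 _ ih =>
    rw [List.flatMap_cons, List.flatMap_cons, List.map_append, h1, ih]

theorem ent_eq {p q : Pt} {α β : Q → Q} (hk : p.k = q.k) (hα : hc p → α q.c = p.c)
    (hβ : hr p → β q.r = p.r) : ent p = (ent q).map (Sum.map α β) := by
  unfold ent
  rw [← hk]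
  unfold hc at hα
  unfold hr at hβ
  rcases hp : p.k with _ | _ | _ | _
  · simp only [List.map_cons, Sum.map_inl, Sum.map_inr, List.map_nil]
    rw [hα (by rw [hp]; decide), hβ (by rw [hp]; decide)]
  · simp only [List.map_cons, Sum.map_inl, Sum.map_inr, List.map_nil]
    rw [hα (by rw [hp]; decide), hβ (by rw [hp]; decide)]
  · simp only [List.map_cons, Sum.map_inl, List.map_nil]
    rw [hα (by rw [hp]; decide)]
  · simp only [List.map_cons, Sum.map_inr, List.map_nil]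
    rw [hβ (by rw [hp]; decide)]

theorem mem_inl {w : List Pt} {a : Q} (h : (Sum.inl a : En) ∈ ents w) :
    ∃ i, ∃ (h : i < w.length), hc w[i] ∧ (w[i]).c = a := by
  unfold ents at h
  rw [List.mem_flatMap] at h
  obtain ⟨p, hp, hpa⟩ := h
  obtain ⟨i, hi, rfl⟩ := List.mem_iff_getElem.mp hp
  refine ⟨i, hi, ?_⟩
  unfold ent at hpa
  unfold hc
  rcases hk : (w[i]).k with _ | _ | _ | _ <;> rw [hk] at hpa <;> simp at hpa ⊢ <;> exact hpa.symm

theorem mem_inr {w : List Pt} {a : Q} (h : (Sum.inr a : En) ∈ ents w) :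
    ∃ i, ∃ (h : i < w.length), hr w[i] ∧ (w[i]).r = a := by
  unfold ents at h
  rw [List.mem_flatMap] at h
  obtain ⟨p, hp, hpa⟩ := h
  obtain ⟨i, hi, rfl⟩ := List.mem_iff_getElem.mp hp
  refine ⟨i, hi, ?_⟩
  unfold ent at hpa
  unfold hr
  rcases hk : (w[i]).k with _ | _ | _ | _ <;> rw [hk] at hpa <;> simp at hpa ⊢ <;> exact hpa.symm

theorem inl_mem {w : List Pt} {i : ℕ} (h : i < w.length) (hp : hc w[i]) :
    (Sum.inl (w[i]).c : En) ∈ ents w := by
  unfold ents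
  rw [List.mem_flatMap]
  refine ⟨w[i], List.getElem_mem h, ?_⟩
  unfold hc at hp
  unfold ent
  rcases hk : (w[i]).k with _ | _ | _ | _
  · simp
  · simp
  · simp
  · exact absurd hk hp

theorem inr_mem {w : List Pt} {i : ℕ} (h : i < w.length) (hp : hr w[i]) :
    (Sum.inr (w[i]).r : En) ∈ ents w := by
  unfold ents
  rw [List.mem_flatMap]
  refine ⟨w[i], List.getElem_mem h, ?_⟩
  unfold hr at hp
  unfold ent
  rcases hk : (w[i]).k with _ | _ | _ | _
  · simp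
  · simp
  · exact absurd hk hp
  · simp

end ORE

open _root_.LHE.ORE in
theorem t_ORE : Stmt_ORE := by
  intro w w' h M hM
  obtain ⟨hnd, f, g, hf, hg, hrot⟩ := hM
  set α := pick w w' hc Pt.c with hαd
  set β := pick w w' hr Pt.r with hβd
  have hα : ∀ i (hi : i < w.length) (hi' : i < w'.length), hc w[i] → α (w'[i]).c = (w[i]).c :=
    fun i hi hi' hp => pick_eq (fun i j a b c d e f => h.c i j a b c d e f) i hi hi' hp
  have hβ : ∀ i (hi : i < w.length) (hi' : i < w'.length), hr w[i] → β (w'[i]).r = (w[i]).r :=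
    fun i hi hi' hp => pick_eq (fun i j a b c d e f => h.r i j a b c d e f) i hi hi' hp
  have hents : ents w = (ents w').map (Sum.map α β) := by
    apply flat
    rw [List.forall₂_iff_get]
    refine ⟨h.len, ?_⟩
    intro i hi hi'
    exact ent_eq (h.k i hi hi') (hα i hi hi') (hβ i hi hi')
  refine ⟨?_, f ∘ α, g ∘ β, ?_, ?_, ?_⟩
  · rw [hents] at hnd
    exact hnd.of_map _
  · intro a b ha hb hab
    obtain ⟨i, hi', hci, rfl⟩ := mem_inl ha
    obtain ⟨j, hj', hcj, rfl⟩ := mem_inl hb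
    have hi : i < w.length := by rw [h.len]; exact hi'
    have hj : j < w.length := by rw [h.len]; exact hj'
    have h1 : hc w[i] := by unfold hc at hci ⊢; rw [h.k i hi hi']; exact hci
    have h2 : hc w[j] := by unfold hc at hcj ⊢; rw [h.k j hj hj']; exact hcj
    simp only [Function.comp_apply]
    rw [hα i hi hi' h1, hα j hj hj' h2]
    exact hf _ _ (inl_mem hi h1) (inl_mem hj h2) ((h.c i j hi hi' hj hj' h1 h2).2 hab)
  · intro a b ha hb hab
    obtain ⟨i, hi', hci, rfl⟩ := mem_inr ha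
    obtain ⟨j, hj', hcj, rfl⟩ := mem_inr hb
    have hi : i < w.length := by rw [h.len]; exact hi'
    have hj : j < w.length := by rw [h.len]; exact hj'
    have h1 : hr w[i] := by unfold hr at hci ⊢; rw [h.k i hi hi']; exact hci
    have h2 : hr w[j] := by unfold hr at hcj ⊢; rw [h.k j hj hj']; exact hcj
    simp only [Function.comp_apply]
    rw [hβ i hi hi' h1, hβ j hj hj' h2]
    exact hg _ _ (inr_mem hi h1) (inr_mem hj h2) ((h.r i j hi hi' hj hj' h1 h2).2 hab)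
  · rw [hents, List.map_map, Sum.map_comp_map] at hrot
    exact hrot

end LHE


end

section

/-!
# CMB: comparison of the two lists of points
-/

namespace LHE

open Set LG LH

namespace CMB

/-- The labels of the points of the arc `k`. -/
def ix (g : ℤ → Bool) (k : ℤ) : List (ℤ × Bool) :=
  if g k = g (k + 1) then [(k, false)] else [(k, false), (k, true)]

/-- The labels of the points. -/
def ixs (K : ℕ) (g : ℤ → Bool) : List (ℤ × Bool) :=
  (List.range K).flatMap fun k => ix g k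

/-- The point with a given label. -/
def ptx (s o : ℤ → ℝ) (g : ℤ → Bool) (H V : ℤ → ℝ) (x : ℤ × Bool) : Pt :=
  if x.2 then ⟨turn (g x.1), o x.1, V x.1⟩ else ⟨pass (g x.1), s x.1, H x.1⟩

theorem aPt_eq (s o : ℤ → ℝ) (g : ℤ → Bool) (H V : ℤ → ℝ) (k : ℤ) :
    aPt s o g H V k = (ix g k).map (ptx s o g H V) := by
  unfold aPt ix
  split <;> rfl

theorem aPts_eq (K : ℕ) (s o : ℤ → ℝ) (g : ℤ → Bool) (H V : ℤ → ℝ) :
    aPts K s o g H V = (ixs K g).map (ptx s o g H V) := by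
  unfold aPts ixs
  rw [List.map_flatMap]
  have : (fun k : ℤ => aPt s o g H V k) = fun k : ℤ => (ix g k).map (ptx s o g H V) :=
    funext fun k => aPt_eq s o g H V k
  rw [this]

theorem mem_ixs {K : ℕ} {g : ℤ → Bool} {x : ℤ × Bool} (h : x ∈ ixs K g) :
    0 ≤ x.1 ∧ x.1 < K ∧ (x.2 = true → g x.1 ≠ g (x.1 + 1)) := by
  unfold ixs at h
  rw [List.mem_flatMap] at h
  obtain ⟨m, hm, hx⟩ := h
  obtain ⟨k, hk, rfl⟩ : ∃ k : ℕ, k < K ∧ m = k := by
    simpa [eq_comm] using hm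
  unfold ix at hx
  split at hx
  · rw [List.mem_singleton] at hx
    subst hx
    refine ⟨by simp, Int.ofNat_lt.2 hk, ?_⟩
    intro h
    simp at h
  · rename_i hg
    rw [List.mem_cons, List.mem_singleton] at hx
    rcases hx with rfl | rfl
    · refine ⟨by simp, Int.ofNat_lt.2 hk, ?_⟩
      intro h
      simp at h
    · exact ⟨by simp, Int.ofNat_lt.2 hk, fun _ => hg⟩

theorem not_cg {K : ℕ} {k l : ℤ} (hk : 0 ≤ k) (hk' : k < K) (hl : 0 ≤ l) (hl' : l < K)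
    (h : k ≠ l) : ¬ Cg K k l := by
  rintro ⟨j, hj⟩
  rcases lt_trichotomy j 0 with hj0 | hj0 | hj0
  · have h1 : j * (K : ℤ) ≤ -1 * K := mul_le_mul_of_nonneg_right (by omega) (by omega)
    omega
  · subst hj0
    omega
  · have h1 : 1 * (K : ℤ) ≤ j * K := mul_le_mul_of_nonneg_right (by omega) (by omega)
    omega

theorem lex_iff {t t₁ h h₁ h' h₁' : ℝ} (H : t = t₁ → (h < h₁ ↔ h' < h₁')) :
    ((toLex (t, h) : Q) < toLex (t₁, h₁)) ↔ (toLex (t, h') : Q) < toLex (t₁, h₁') := by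
  rw [Prod.Lex.toLex_lt_toLex, Prod.Lex.toLex_lt_toLex]
  constructor
  · rintro (h0 | ⟨h0, h1⟩)
    · exact Or.inl h0
    · exact Or.inr ⟨h0, (H h0).1 h1⟩
  · rintro (h0 | ⟨h0, h1⟩)
    · exact Or.inl h0
    · exact Or.inr ⟨h0, (H h0).2 h1⟩

/-- The comparison of the heights of two points on the same line. -/
theorem key {K : ℕ} {s a b : ℤ → ℝ} {g : ℤ → Bool} {H V H' V' : ℤ → ℝ}
    (h1 : ∀ k l, ¬ Cg K k l → s k = s l → (H k < H l ↔ H' k < H' l))
    (h2 : ∀ k l, g k ≠ g (k + 1) → s l = oL a b g k →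
      (V k < H l ↔ V' k < H' l) ∧ (H l < V k ↔ H' l < V' k))
    (h3 : ∀ k l, ¬ Cg K k l → g k ≠ g (k + 1) → g l ≠ g (l + 1) → g k = g l →
      oL a b g k = oL a b g l → (V k < V l ↔ V' k < V' l))
    {x y : ℤ × Bool} (hx : x ∈ ixs K g) (hy : y ∈ ixs K g)
    (hg : x.2 = true → y.2 = true → g x.1 = g y.1)
    (ht : (ptx s (oL a b g) g H V x).t = (ptx s (oL a b g) g H V y).t) :
    ((ptx s (oL a b g) g H V x).h < (ptx s (oL a b g) g H V y).h ↔
      (ptx s (oL a b g) g H' V' x).h < (ptx s (oL a b g) g H' V' y).h) := by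
  obtain ⟨k, p⟩ := x
  obtain ⟨l, q⟩ := y
  obtain ⟨hk, hk', hkg⟩ := mem_ixs hx
  obtain ⟨hl, hl', hlg⟩ := mem_ixs hy
  simp only at hk hk' hkg hl hl' hlg hg
  cases p <;> cases q
  · show H k < H l ↔ H' k < H' l
    have ht' : s k = s l := ht
    by_cases hkl : k = l
    · subst hkl
      simp
    · exact h1 k l (not_cg hk hk' hl hl' hkl) ht'
  · exact (h2 l k (hlg rfl) ht).2
  · exact (h2 k l (hkg rfl) ht.symm).1
  · show V k < V l ↔ V' k < V' l
    have ht' : oL a b g k = oL a b g l := ht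
    by_cases hkl : k = l
    · subst hkl
      simp
    · exact h3 k l (not_cg hk hk' hl hl' hkl) (hkg rfl) (hlg rfl) (hg rfl rfl) ht'

theorem ptx_k (s o : ℤ → ℝ) (g : ℤ → Bool) (H V H' V' : ℤ → ℝ) (x : ℤ × Bool) :
    (ptx s o g H V x).k = (ptx s o g H' V' x).k := by
  unfold ptx
  split <;> rfl

theorem ptx_t (s o : ℤ → ℝ) (g : ℤ → Bool) (H V H' V' : ℤ → ℝ) (x : ℤ × Bool) :
    (ptx s o g H V x).t = (ptx s o g H' V' x).t := by
  unfold ptx
  split <;> rfl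

theorem hc_turn {s o : ℤ → ℝ} {g : ℤ → Bool} {H V : ℤ → ℝ} {x : ℤ × Bool}
    (h : hc (ptx s o g H V x)) (hx : x.2 = true) : g x.1 = true := by
  unfold hc ptx at h
  rw [if_pos hx] at h
  unfold turn at h
  by_contra hg
  rw [if_neg hg] at h
  exact h rfl

theorem hr_turn {s o : ℤ → ℝ} {g : ℤ → Bool} {H V : ℤ → ℝ} {x : ℤ × Bool}
    (h : hr (ptx s o g H V x)) (hx : x.2 = true) : g x.1 = false := by
  unfold hr ptx at h
  rw [if_pos hx] at h
  unfold turn at h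
  by_contra hg
  rw [if_pos (by simpa using hg)] at h
  exact h rfl

end CMB

open _root_.LHE.CMB in
/-- CMB: comparison of the two lists of points. -/
theorem t_CMB : Stmt_CMB := by
  intro K s a b g X H V H' V' _ h1 h2 h3
  rw [aPts_eq, aPts_eq]
  refine ⟨by simp, ?_, ?_, ?_⟩
  · intro i h h'
    rw [List.getElem_map, List.getElem_map]
    exact ptx_k _ _ _ _ _ _ _ _
  · intro i j h h' l l' ci cj
    rw [List.getElem_map] at ci cj
    rw [List.getElem_map, List.getElem_map, List.getElem_map, List.getElem_map]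
    have hi : i < (ixs K g).length := by simpa using h
    have hj : j < (ixs K g).length := by simpa using l
    have mi := List.getElem_mem hi
    have mj := List.getElem_mem hj
    unfold Pt.c
    rw [ptx_t s (oL a b g) g H' V' H V, ptx_t s (oL a b g) g H' V' H V]
    refine lex_iff fun ht => key h1 h2 h3 mi mj (fun e1 e2 => ?_) ht
    rw [hc_turn ci e1, hc_turn cj e2]
  · intro i j h h' l l' ci cj
    rw [List.getElem_map] at ci cj
    rw [List.getElem_map, List.getElem_map, List.getElem_map, List.getElem_map]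
    have hi : i < (ixs K g).length := by simpa using h
    have hj : j < (ixs K g).length := by simpa using l
    have mi := List.getElem_mem hi
    have mj := List.getElem_mem hj
    unfold Pt.r
    rw [ptx_t s (oL a b g) g H' V' H V, ptx_t s (oL a b g) g H' V' H V]
    refine lex_iff fun ht => key h1 h2 h3 mi mj (fun e1 e2 => ?_) (neg_injective ht)
    rw [hr_turn ci e1, hr_turn cj e2]

end LHE


end

section

/-!
# SGM: the polygons of a knot with a decomposition into arcs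
-/

namespace LHE

open Set LG LH

namespace SGM

/-- A finite set of reals has a gap. -/
theorem exists_gap (F : Finset ℝ) : ∃ γ > (0 : ℝ), ∀ x ∈ F, ∀ y ∈ F, x ≠ y → γ ≤ |x - y| := by
  classical
  set D := ((F ×ˢ F).filter (fun p => p.1 ≠ p.2)).image (fun p => |p.1 - p.2|) with hD
  by_cases hne : D.Nonempty
  · refine ⟨D.min' hne, ?_, ?_⟩
    · obtain ⟨p, hp, hpe⟩ := Finset.mem_image.mp (Finset.min'_mem D hne)
      rw [Finset.mem_filter] at hp
      rw [gt_iff_lt]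
      have : 0 < |p.1 - p.2| := abs_pos.mpr (sub_ne_zero.mpr hp.2)
      rw [hpe] at this
      exact this
    · intro x hx y hy hxy
      apply Finset.min'_le
      rw [hD, Finset.mem_image]
      exact ⟨(x, y), by simp [hx, hy, hxy], rfl⟩
  · refine ⟨1, one_pos, ?_⟩
    intro x hx y hy hxy
    exfalso
    apply hne
    refine ⟨|x - y|, ?_⟩
    rw [hD, Finset.mem_image]
    exact ⟨(x, y), by simp [hx, hy, hxy], rfl⟩

/-- A periodic function takes its values on a period. -/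
theorem per_mem {K : ℕ} (hK : 0 < K) (f : ℤ → ℝ) (hf : ∀ k, f (k + K) = f k) (k : ℤ) :
    f k ∈ (Finset.range K).image (fun i : ℕ => f i) := by
  have hp : Function.Periodic f (K : ℤ) := hf
  have h0 : (0 : ℤ) ≤ k % K := Int.emod_nonneg _ (by exact_mod_cast hK.ne')
  have h1 : k % K < K := Int.emod_lt_of_pos _ (by exact_mod_cast hK)
  rw [Finset.mem_image]
  refine ⟨(k % K).toNat, ?_, ?_⟩
  · rw [Finset.mem_range]
    omega
  · have e1 : (((k % K).toNat : ℕ) : ℤ) = k % K := Int.toNat_of_nonneg h0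
    show f (((k % K).toNat : ℕ) : ℤ) = f k
    rw [e1]
    have e2 : k = k % K + (k / K) * K := by
      have := Int.emod_add_mul_ediv k K
      linarith
    have e3 : f (k % K + (k / K) * K) = f (k % K) := hp.int_mul (k / K) (k % K)
    rw [← e2] at e3
    exact e3.symm

theorem lt_iff_of_close {x y x' y' c γ : ℝ} (hx : |x' - (x - c)| < γ / 2)
    (hy : |y' - (y - c)| < γ / 2) (hxy : γ ≤ |x - y|) : (x < y ↔ x' < y') := by
  rw [abs_lt] at hx hy
  rcases le_abs.mp hxy with h | h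
  · constructor
    · intro hh; linarith
    · intro hh; linarith
  · constructor
    · intro _; linarith
    · intro _; linarith

theorem ne_of_close {x y x' y' c γ : ℝ} (_hγ : 0 < γ) (_hx : |x' - (x - c)| < γ / 2)
    (_hy : |y' - (y - c)| < γ / 2) (hxy : γ ≤ |x - y|) : x ≠ y := by
  intro h
  rw [h, sub_self, abs_zero] at hxy
  linarith

theorem map_aIts {N : ℕ} (P : Pg N) (K : ℕ) (s o : ℤ → ℝ) (g : ℤ → Bool) (e : ℤ → ℤ) :
    (aIts K s o g e).map (pt P) =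
      aPts K s o g (fun k => P.l (e k) (s k)) (fun k => P.l (e k) (o k)) := by
  unfold aIts aPts
  rw [List.map_flatMap]
  congr 1
  funext k
  unfold aIt aPt
  split_ifs <;> simp [pt]

end SGM

open _root_.LHE.SGM

/-- SGM: assembly. -/
theorem t_SGM : Stmt_SGM := by
  intro h1 h2 h3 h4 hGDX hGWA hORE hDST hCMB Λ K θ s a b g X hA
  obtain ⟨N₁, hN₁, H1⟩ := h1 Λ K θ s a b g X hA
  obtain ⟨N₂, _, H2⟩ := h2 Λ K θ s a b g X hA
  obtain ⟨N₃, _, H3⟩ := h3 Λ K θ s a b g X hA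
  obtain ⟨D1, D2, D3⟩ := hDST Λ K θ s a b g X hA
  set H : ℤ → ℝ := fun k => zz Λ (θ k) with hH
  set V : ℤ → ℝ := fun k => TL Λ (θ k) (oL a b g k) with hV
  have pH : ∀ k, H (k + K) = H k := by
    intro k
    simp only [hH, zz, hA.pθ k, Λ.periodic]
  have po : ∀ k, oL a b g (k + K) = oL a b g k := by
    intro k
    unfold oL
    rw [hA.d.pg, hA.d.pa, hA.d.pb]
  have pV : ∀ k, V (k + K) = V k := by
    intro k
    simp only [hV, po k]
    simp only [TL, zz, LC.LegKnot.x, LC.LegKnot.y, hA.pθ k, Λ.periodic]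
  obtain ⟨γ, hγ, hgap⟩ := exists_gap ((Finset.range K).image (fun i : ℕ => H i) ∪
    (Finset.range K).image (fun i : ℕ => V i))
  have mH : ∀ k, H k ∈ (Finset.range K).image (fun i : ℕ => H i) ∪
      (Finset.range K).image (fun i : ℕ => V i) := fun k =>
    Finset.mem_union_left _ (per_mem hA.d.Kpos H pH k)
  have mV : ∀ k, V k ∈ (Finset.range K).image (fun i : ℕ => H i) ∪
      (Finset.range K).image (fun i : ℕ => V i) := fun k =>
    Finset.mem_union_right _ (per_mem hA.d.Kpos V pV k)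
  obtain ⟨N₄, _, H4⟩ := h4 Λ K θ s a b g X hA (γ / 2) (by positivity)
  refine ⟨max (max N₁ N₂) (max N₃ N₄), lt_of_lt_of_le hN₁ (le_trans (le_max_left _ _)
    (le_max_left _ _)), ?_⟩
  intro N hN P hP
  have g1 : N ≥ N₁ := le_trans (le_trans (le_max_left _ _) (le_max_left _ _)) hN
  have g2 : N ≥ N₂ := le_trans (le_trans (le_max_right _ _) (le_max_left _ _)) hN
  have g3 : N ≥ N₃ := le_trans (le_trans (le_max_left _ _) (le_max_right _ _)) hN
  have g4 : N ≥ N₄ := le_trans (le_trans (le_max_right _ _) (le_max_right _ _)) hN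
  obtain ⟨m1, m2, m3, m4, m5, m6, m7⟩ := H1 N g1 P hP
  have hAP : ArcP P K (fun k => ⌊(N : ℝ) * θ k⌋) s a b g X :=
    { d := hA.d
      mono := m1
      pe := m2
      crs := m3
      ins := m4
      ty := H2 N g2 P hP
      sep := H3 N g3 P hP
      lo := m5
      hi := m6
      sm := m7 }
  have H4' := H4 N g4 P hP
  refine ⟨aIts K s (oL a b g) g (fun k => ⌊(N : ℝ) * θ k⌋), hGDX _ _ _ _ _ _ _ _ _ hAP,
    hGWA _ _ _ _ _ _ _ _ _ hAP, ?_⟩
  intro M hM
  unfold lst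
  rw [map_aIts]
  refine hORE _ _ ?_ M hM
  apply hCMB K s a b g X _ _ _ _ hA.d
  · intro k l hkl hsl
    exact lt_iff_of_close (H4' k).1 (H4' l).1 (hgap _ (mH k) _ (mH l) (D1 k l hkl hsl))
  · intro k l hk hsl
    have hne := D2 k l hk hsl
    exact ⟨lt_iff_of_close (H4' k).2 (H4' l).1 (hgap _ (mV k) _ (mH l) hne),
      lt_iff_of_close (H4' l).1 (H4' k).2 (hgap _ (mH l) _ (mV k) hne.symm)⟩
  · intro k l hkl hk hl hg ho
    exact lt_iff_of_close (H4' k).2 (H4' l).2 (hgap _ (mV k) _ (mV l) (D3 k l hkl hk hl hg ho))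

end LHE


end

section

/-!
# LNM: the lines and their adjacency
-/

namespace LHE

open Set LG LH

namespace LNM

theorem lt_succ (X₀ w ε : ℝ) (hX : 0 < X₀) (hw : 0 < w) (h : 100 * w ≤ X₀) (n : ℤ) :
    ln X₀ w ε n < ln X₀ w ε (n + 1) := by
  unfold ln
  have h3 : n % 3 = 0 ∨ n % 3 = 1 ∨ n % 3 = 2 := by omega
  rcases h3 with h0 | h1 | h2
  · have e1 : (n + 1) % 3 = 1 := by omega
    have e2 : (n + 1) / 3 = n / 3 := by omega
    rw [e1, e2, h0, if_pos rfl, if_neg (by norm_num), if_pos rfl]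
    linarith
  · have e1 : (n + 1) % 3 = 2 := by omega
    have e2 : (n + 1) / 3 = n / 3 := by omega
    rw [e1, e2, h1, if_neg (by norm_num), if_pos rfl, if_neg (by norm_num),
      if_neg (by norm_num)]
    linarith
  · have e1 : (n + 1) % 3 = 0 := by omega
    have e2 : (n + 1) / 3 = n / 3 + 1 := by omega
    rw [e1, e2, h2, if_neg (by norm_num), if_neg (by norm_num), if_pos rfl]
    push_cast
    linarith

end LNM

theorem t_LNM : Stmt_LNM := by
  intro X₀ w ε hX hw h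
  have hm : StrictMono (ln X₀ w ε) :=
    strictMono_int_of_lt_succ (LNM.lt_succ X₀ w ε hX hw h)
  refine ⟨hm, fun lo hi c d => ⟨?_, ?_⟩⟩
  · rintro ⟨hc, hd, hcd, hn⟩
    unfold XL at hc hd hn
    obtain ⟨n, hn1, rfl⟩ := Finset.mem_image.1 hc
    obtain ⟨k, hk1, rfl⟩ := Finset.mem_image.1 hd
    rw [Finset.mem_Icc] at hn1 hk1
    have hnk : n < k := hm.lt_iff_lt.1 hcd
    have hk : k = n + 1 := by
      by_contra hne
      have h1 : n + 1 < k := by omega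
      exact hn (ln X₀ w ε (n + 1))
        (Finset.mem_image.2 ⟨n + 1, Finset.mem_Icc.2 ⟨by omega, by omega⟩, rfl⟩)
        ⟨hm (by omega), hm h1⟩
    subst hk
    exact ⟨n, hn1.1, hk1.2, rfl, rfl⟩
  · rintro ⟨n, h1, h2, rfl, rfl⟩
    refine ⟨Finset.mem_image.2 ⟨n, Finset.mem_Icc.2 ⟨h1, by omega⟩, rfl⟩,
      Finset.mem_image.2 ⟨n + 1, Finset.mem_Icc.2 ⟨by omega, h2⟩, rfl⟩, hm (by omega), ?_⟩
    rintro t ht ⟨ha, hb⟩
    obtain ⟨k, hk1, rfl⟩ := Finset.mem_image.1 ht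
    have h3 : n < k := hm.lt_iff_lt.1 ha
    have h4 : k < n + 1 := hm.lt_iff_lt.1 hb
    omega

end LHE


end

section

/-!
# The polygons of the knot `J` (T_J, analytic part)
-/

namespace LHE

open Set LG LH LCA LCA.CapJ
open LHJ (mJ zJ)

/-- The polygons of a knot with a decomposition into arcs. -/
theorem p_SGM : P_SGM :=
  t_SGM (t_AR1 t_EST) (t_AR2 t_EST) (t_AR3 t_EST) (t_AR4 t_EST) t_GDX t_GWA t_ORE t_DST t_CMB

theorem p_ARD : P_ARD := t_ARD t_LNM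

theorem p_THI : P_THI := t_THI t_LNM

theorem p_SPA : P_SPA := t_SPA t_LNM p_THI t_TSP t_LHD

theorem p_HOR : P_HOR := t_HOR t_LNM p_THI t_TSP t_LHD

/-- The polygons of a knot along a lattice path. -/
theorem p_LAT : P_LAT :=
  t_LAT t_LNM p_ARD t_THT p_THI p_SPA p_HOR t_EPC t_CDM t_CMB t_ORE p_SGM

theorem p_VXX : P_VXX := t_VXX t_VXF t_VXU

theorem p_VXT : P_VXT := t_VXT t_VXF t_VXU p_VXX

theorem p_VXY : P_VXY := t_VXY t_VXF t_VXU p_VXX

/-- A knot along a grid polygon. -/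
theorem vtS_of {n : ℕ} [NeZero n] (Λ : LC.LegKnot) (sh : Shape) (c : Comb n n) (w : Fin n → ℝ)
    (Q : St n) (X₀ P₀ w₀ : ℝ) (M Z σ p ℓ : ℤ → ℤ) (hC : Cfg c w Q X₀ P₀ w₀ M Z σ p ℓ)
    (hP : Prm Λ sh c w Q) (hs : SHok sh) : VtS Λ X₀ P₀ w₀ n M Z σ p := by
  obtain ⟨h1, h2, h3, h4⟩ := p_VXX Λ sh c w Q X₀ P₀ w₀ M Z σ p ℓ hC hP hs
  obtain ⟨h5, h6⟩ := p_VXT Λ sh c w Q X₀ P₀ w₀ M Z σ p ℓ hC hP hs
  obtain ⟨h7, h8⟩ := p_VXY Λ sh c w Q X₀ P₀ w₀ M Z σ p ℓ hC hP hs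
  exact ⟨Nat.pos_of_ne_zero (NeZero.ne n), hC.X0, hC.P0, hC.w0, hC.wX, h1, h2, h3, h4, h5, h6, h7,
    h8⟩

/-- The facts from the check of the beginning of a program. -/
theorem beg_facts {n : ℕ} {A A' : SD} (hA : stOK n n A = true) (hA' : stOK n n A' = true)
    (hbg : bgOK n A A' = true) :
    (A.cb n n).Valid ∧ (A.cb n n).Cyc ∧ (∀ i, 0 < A.W n i) ∧
      (A.cb n n).Cert (A.W n) (A.Q n) (0, (A.Q n).2) ∧
      (∀ e, 6 * (A.W n ((A.cb n n).lf e) + A.W n ((A.cb n n).rt e)) <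
        (A.Q n).1 ((A.cb n n).rt e) - (A.Q n).1 ((A.cb n n).lf e)) := by
  obtain ⟨hbnd, hbor, hilt, hieq, -, -, -, hallL, hallI, -, -, -⟩ := p_CBL
  obtain ⟨-, -, hnif, -, -⟩ := t_CB2 p_CBL
  have FA := p_STF n n A hA
  have VA := p_SVL n n A FA
  unfold bgOK at hbg
  simp only [hbnd] at hbg
  obtain ⟨hgo, hv, -, hE, hV⟩ := hbg
  rw [hallL VS vs0] at hv
  rw [hallI ES es0] at hE
  rw [hallI VS vs0] at hV
  obtain ⟨go, -, -⟩ := p_GOK n n 1 A A' hA hA' hgo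
  obtain ⟨-, h2⟩ := p_GOC _ _ _ _ _ _ _ go
  have hcert : (A.cb n n).Cert (A.W n) (A.Q n) (A.V n) := by
    have h3 := h2 0 ⟨le_refl _, zero_le_one⟩
    rw [sub_zero, one_smul, zero_smul, add_zero] at h3
    exact h3
  have hvel : A.V n = (0, (A.Q n).2) := by
    apply STB.vel
    intro i hi
    have h3 := hv i (by rw [FA.lenV]; exact hi)
    simp only [hbnd, hieq] at h3
    exact h3
  have hE' : ∀ k < n + 1, ((((A.e k).lf = k ∧ (A.e k).rt = if k = n then 0 else k + 1) ∨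
      ((A.e k).rt = k ∧ (A.e k).lf = if k = n then 0 else k + 1)) ∧
      3 * ((A.e k).il - (A.e k).xl) + 3 * ((A.e k).xr - (A.e k).ir) <
        (A.e k).xr - (A.e k).xl) := by
    intro k hk
    have h3 := hE k (by rw [FA.lenE]; exact hk)
    simp only [hbnd, hbor, hilt, hnif, Nat.beq_eq] at h3
    exact h3
  have hV' : ∀ k < n + 1, ((A.v k).ea = (if k = 0 then n else k - 1) ∧ (A.v k).eb = k) ∨
      ((A.v k).eb = (if k = 0 then n else k - 1) ∧ (A.v k).ea = k) := by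
    intro k hk
    have h3 := hV k (by rw [FA.lenV]; exact hk)
    simp only [hbnd, hbor, hnif, Nat.beq_eq] at h3
    exact h3
  rw [hvel] at hcert
  exact ⟨VA.valid, STB.cyc VA (fun k hk => (hE' k hk).1) hV', VA.wpos, hcert,
    STB.len6 VA (fun k hk => (hE' k hk).2)⟩

namespace JSX

theorem facts : (S0.cb 23 23).Valid ∧ (S0.cb 23 23).Cyc ∧ (∀ i, 0 < S0.W 23 i) ∧
    (S0.cb 23 23).Cert (S0.W 23) (S0.Q 23) (0, (S0.Q 23).2) ∧
    (∀ e, 6 * (S0.W 23 ((S0.cb 23 23).lf e) + S0.W 23 ((S0.cb 23 23).rt e)) <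
      (S0.Q 23).1 ((S0.cb 23 23).rt e) - (S0.Q 23).1 ((S0.cb 23 23).lf e)) :=
  beg_facts ok0 ok1 f0

theorem dat : ∀ r : Fin 24, (S0.v (r : ℕ)).w = 8 ∧
    (S0.v (r : ℕ)).x = 2 ^ 24 * MJ ((r : ℕ) : ℤ) ∧
    (S0.v (r : ℕ)).F = 2 ^ 24 * 2 ^ 70 * ZJ ((r : ℕ) : ℤ) := by
  decide +kernel

theorem idx_res (r : Fin (23 + 1)) (q : ℤ) :
    KNT.idx (23 + 1) (((r : ℕ) : ℤ) + 24 * q) = r := by
  apply Fin.ext
  have h := KNT.idx_val (n := 23 + 1) (((r : ℕ) : ℤ) + 24 * q)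
  have hr := r.2
  have h2 : (((23 + 1 : ℕ)) : ℤ) = 24 := by norm_num
  rw [h2] at h
  omega

end JSX

/-- The data of the knot `J`. -/
theorem cfg_J : Cfg (n := 23 + 1) (S0.cb 23 23) (S0.W 23) (S0.Q 23) (2 ^ 24) (2 ^ 70) 8
    MJ ZJ sJ pJ lJ where
  valid := JSX.facts.1
  cyc := JSX.facts.2.1
  len e := by
    have h1 := JSX.facts.2.2.2.2 e
    have h2 := JSX.facts.2.2.1 ((S0.cb 23 23).lf e)
    have h3 := JSX.facts.2.2.1 ((S0.cb 23 23).rt e)
    linarith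
  X0 := by norm_num
  P0 := by norm_num
  w0 := by norm_num
  wX := by norm_num
  w i := by
    have h := (JSX.dat i).1
    show (((S0.v (i : ℕ)).w : ℤ) : ℝ) = 8
    rw [h]; norm_num
  pos k := by
    obtain ⟨r, q, rfl⟩ := JDA.res24 k
    rw [JDA.Mp]
    have h := (JSX.dat r).2.1
    have h2 := JSX.idx_res r q
    rw [h2]
    show (((S0.v (r : ℕ)).x : ℤ) : ℝ) = _
    rw [h]; push_cast; ring
  hgt k := by
    obtain ⟨r, q, rfl⟩ := JDA.res24 k
    rw [JDA.Zp]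
    have h := (JSX.dat r).2.2
    have h2 := JSX.idx_res r q
    rw [h2]
    show (((S0.v (r : ℕ)).F : ℤ) : ℝ) = _
    rw [h]; push_cast; ring
  s1 := ver_J.s1
  p1 := ver_J.p1
  l1 := ver_J.l1
  M1 k := by
    obtain ⟨r, q, rfl⟩ := JDA.res24 k
    rw [show ((r : ℕ) : ℤ) + 24 * q + 1 = (((r : ℕ) : ℤ) + 1) + 24 * q by ring]
    simp only [JDA.Mp, JDA.sp, JDA.lp]
    exact (JDA.e1 r).2.2.2.2.2.2.1
  Z1 k := by
    obtain ⟨r, q, rfl⟩ := JDA.res24 k
    rw [show ((r : ℕ) : ℤ) + 24 * q + 1 = (((r : ℕ) : ℤ) + 1) + 24 * q by ring]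
    simp only [JDA.Zp, JDA.sp, JDA.lp, JDA.pp]
    exact (JDA.e1 r).2.2.2.2.2.2.2
  alt := ver_J.alt

/-- T_J, analytic part: the knot `J` and the walks of its polygons. -/
theorem t_TJ1 : ∃ (sh : Shape) (Λ : LC.LegKnot),
    Λ.carrier = (S0.cb 23 23).knot sh (S0.W 23) (S0.Q 23) ∧
    ∃ N₀ : ℕ, 0 < N₀ ∧ ∀ N ≥ N₀, ∀ P : Pg N, IsPN Λ N P → ∃ X w, GoodX P X ∧ GW P X w ∧
      ∀ M, Rp (ents (cPts 120 mJ zJ)) M → Rp (lst P w) M := by
  obtain ⟨sh, hs⟩ := t_SHX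
  obtain ⟨Λ, hc, hP⟩ := t_KNP p_PST p_CER p_VLN p_PIN sh (S0.cb 23 23) (S0.W 23) (S0.Q 23)
    JSX.facts.1 JSX.facts.2.1 JSX.facts.2.2.1 JSX.facts.2.2.2.1 JSX.facts.2.2.2.2
  have hV := vtS_of Λ sh (S0.cb 23 23) (S0.W 23) (S0.Q 23) _ _ _ _ _ _ _ _ cfg_J hP hs
  obtain ⟨ν, hL⟩ := t_VLS Λ _ _ _ 24 120 MJ ZJ sJ pJ lJ mJ zJ jJ (by norm_num) hV ver_J
  obtain ⟨N₀, h0, hN⟩ := p_LAT Λ _ _ _ 120 mJ zJ ν latD_J hL
  exact ⟨sh, Λ, hc, N₀, h0, hN⟩

end LHE


end
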