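import Mathlib
import Pool.Agent.NDM.C11

/-! Parts: LHJ.K4 -/

section

/-!
# The path, part 4
-/

set_option maxRecDepth 100000

namespace LHJ

/-- Program 21. -/
def O21 : List Op :=
   [.sr, .rot 42, .row 37, .rot 131, .sc, .rot 15, .col 354, .rot 130, .sr, .rot 105, .sc, .rot 94,
    .row 219, .rot 128, .sc, .rot 59, .row 345, .rot 127, .sc, .rot 6, .col 332, .rot 126, .sr, .rot 106,
    .row 72, .rot 125, .sc, .rot 16, .row 345, .rot 124, .sc, .rot 24, .col 189, .rot 123, .sr, .rot 76,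
    .sc, .rot 23, .row 335, .rot 121, .sc, .rot 37, .sc, .rot 64, .sc, .rot 84, .col 170, .sr,
    .rot 24, .sc, .rot 108, .col 328, .sr, .rot 64, .col 320, .sr, .rot 83, .row 315, .sc, .rot 82,
    .row 347, .rot 113, .sc, .rot 65, .sr, .rot 25, .col 320, .sr, .rot 93, .col 268, .sr, .rot 29,
    .col 61, .rot 109]

theorem r21 : run O21 M21 = some M22 := by decide +kernel

/-- Program 22. -/
def O22 : List Op :=
   [.sr, .rot 33, .row 40, .rot 108, .sc, .rot 87, .col 270, .sr, .rot 65, .col 397, .rot 106, .sr,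
    .rot 37, .col 385, .sr, .rot 75, .col 172, .sr, .rot 69, .col 278, .rot 103, .sr, .rot 15, .col 151,
    .rot 102, .sr, .rot 49, .row 392, .rot 101, .sc, .rot 98, .row 353, .sc, .rot 40, .col 400, .rot 99,
    .sr, .rot 57, .sr, .rot 22, .sr, .rot 48, .col 268, .sr, .rot 14, .sc, .rot 92, .row 228,
    .rot 94, .sc, .rot 14, .row 223, .sc, .rot 17, .row 72, .sc, .rot 45, .row 325, .rot 91, .sc,
    .rot 14, .col 116, .rot 90, .sr, .rot 34, .col 136, .rot 89, .sr, .rot 29, .col 101, .rot 88, .sr,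
    .rot 8, .col 174, .rot 87, .sr, .rot 78, .row 127, .sc, .rot 77, .col 318, .rot 85, .sr, .rot 11,
    .col 69, .sr, .rot 53, .row 204, .rot 83, .sc, .rot 56, .col 222, .sr, .rot 70]

theorem r22 : run O22 M22 = some M23 := by decide +kernel

/-- Program 23. -/
def O23 : List Op :=
   [.sr, .rot 76, .col 276, .sr, .rot 7, .col 237, .sr, .rot 75, .col 379, .sr, .rot 24, .row 352,
    .sc, .rot 21, .col 32, .sr, .rot 34, .row 349, .rot 75, .sc, .rot 52, .col 398, .sr, .rot 6,
    .col 192, .rot 73, .sr, .rot 12, .col 320, .sr, .rot 56, .row 230, .sc, .rot 14, .row 243, .rot 70,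
    .sc, .rot 55, .row 317, .rot 69, .sc, .rot 20, .row 349, .rot 68, .sc, .rot 50, .sr, .rot 56,
    .col 1, .rot 66, .sr, .rot 24, .col 320, .sr, .rot 36, .sr, .rot 14, .col 273, .rot 63, .sr,
    .rot 18, .row 349, .rot 62, .sc, .rot 15, .col 170, .sr, .rot 21, .row 40, .sc, .rot 38, .row 245,
    .rot 59, .sc, .rot 11, .row 273, .rot 58, .sc, .rot 12, .row 42, .rot 57, .sc, .rot 10, .row 128,
    .sc, .rot 24, .sr, .rot 9, .col 271, .sr, .rot 19, .row 197, .sc, .rot 3, .row 130, .sc,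
    .rot 7, .row 334, .rot 51, .sc, .rot 17, .row 164, .rot 50, .sc, .rot 19, .col 219, .sr, .rot 25,
    .row 334, .rot 48, .sc, .rot 46, .sc, .rot 18, .row 66, .sc, .rot 1, .sc, .rot 35, .sc,
    .rot 15, .col 271, .sr, .rot 33, .sr, .rot 20, .row 234, .rot 41, .sc, .rot 7, .row 115, .rot 40,
    .sc, .rot 6, .col 149, .sr, .rot 16, .row 232, .rot 38, .sc, .rot 27, .col 426, .rot 37, .sr,
    .rot 33, .col 274, .rot 36, .sr, .rot 23, .col 115, .rot 35, .sr, .rot 21, .col 184, .sr]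

theorem r23 : run O23 M23 = some M24 := by decide +kernel

/-- Program 24. -/
def O24 : List Op :=
   [.rot 8, .row 198, .sc, .rot 21, .row 280, .sc, .rot 23, .row 115, .sc, .rot 19, .row 129, .sc,
    .rot 20, .sr, .rot 23, .sr, .rot 7, .col 175, .rot 27, .sr, .rot 1, .sr, .rot 14, .sr,
    .rot 21, .col 152, .rot 24, .sr, .row 232, .sc, .rot 1, .row 351, .sc, .rot 14, .sc, .rot 18,
    .row 86, .sc, .rot 8, .row 164, .rot 19, .sc, .row 147, .rot 18, .sc, .rot 2, .col 142, .sr,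
    .rot 4, .row 239, .rot 16, .sc, .rot 1, .row 459, .sc, .rot 6, .col 207, .rot 14, .sr, .rot 7,
    .row 400, .rot 13, .sc, .rot 5, .col 217, .rot 12, .sr]

theorem r24 : run O24 M24 = some M25 := by decide +kernel

end LHJ


end
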