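import Mathlib
import Pool.Agent.NDM.C11

/-! Parts: LHJ.K3 -/

section

/-!
# The path, part 3
-/

set_option maxRecDepth 100000

namespace LHJ

/-- Program 14. -/
def O14 : List Op :=
   [.rot 236, .sr, .rot 232, .row 4, .sc, .rot 186, .row 438, .sc, .rot 190, .sc, .rot 95, .col 20,
    .rot 232, .sr, .rot 137, .row 468, .sc, .rot 135, .col 367, .rot 230, .sr, .rot 43, .row 284, .rot 229,
    .sc, .rot 99, .sc, .rot 4, .row 411, .sc, .rot 158, .row 142, .sc, .rot 44, .col 148, .sr,
    .rot 65, .row 88, .sc]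

theorem r14 : run O14 M14 = some M15 := by decide +kernel

/-- Program 15. -/
def O15 : List Op :=
   [.rot 100, .col 315, .sr, .rot 139, .row 158, .rot 222, .sc, .rot 114, .col 465, .sr, .rot 220, .row 390,
    .rot 220, .sc, .rot 132, .col 366, .rot 219, .sr, .rot 53, .sr, .rot 204, .col 260, .sr, .rot 85,
    .row 224, .sc, .rot 24, .col 286, .sr, .rot 35, .row 46, .rot 214, .sc, .rot 153, .col 56, .rot 213,
    .sr, .rot 69, .row 95, .rot 212, .sc, .rot 204]

theorem r15 : run O15 M15 = some M16 := by decide +kernel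

/-- Program 16. -/
def O16 : List Op :=
   [.row 60, .rot 211, .sc, .rot 59, .col 95, .rot 210, .sr, .rot 95, .col 123, .rot 209, .sr, .rot 155,
    .col 187, .sr, .rot 152, .col 210, .rot 207, .sr, .rot 3, .col 178, .rot 206, .sr, .rot 198, .col 322,
    .rot 205, .sr, .rot 78, .col 403, .sr, .rot 126, .col 333, .rot 203, .sr, .rot 18, .col 41, .rot 202,
    .sr, .rot 102, .row 451, .sc, .rot 52, .sc, .rot 12, .row 245]

theorem r16 : run O16 M16 = some M17 := by decide +kernel

/-- Program 17. -/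
def O17 : List Op :=
   [.rot 199, .sc, .rot 102, .row 413, .rot 198, .sc, .rot 34, .row 469, .sc, .rot 195, .col 283, .rot 196,
    .sr, .col 226, .rot 195, .sr, .rot 164, .sr, .rot 115, .col 262, .rot 193, .sr, .rot 112, .col 465,
    .sr, .rot 144, .sr, .rot 138, .col 43, .sr, .rot 61, .sc, .rot 64, .col 138, .rot 188, .sr,
    .rot 170, .col 350, .sr, .rot 81, .sr, .rot 1, .row 104, .sc, .rot 129, .col 30, .rot 184]

theorem r17 : run O17 M17 = some M18 := by decide +kernel

/-- Program 18. -/
def O18 : List Op :=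
   [.sr, .rot 120, .col 352, .sr, .rot 77, .row 16, .rot 182, .sc, .rot 102, .row 437, .sc, .rot 154,
    .row 319, .rot 180, .sc, .rot 167, .col 354, .sr, .rot 9, .col 348, .sr, .rot 101, .col 6, .rot 177,
    .sr, .rot 86, .row 221, .rot 176, .sc, .rot 43, .col 93, .sr, .rot 12, .col 412, .sr, .rot 38,
    .row 74, .rot 173, .sc, .rot 48, .col 133, .sr, .rot 85, .row 413, .sc, .rot 9, .col 286, .sr,
    .rot 120, .col 180, .sr]

theorem r18 : run O18 M18 = some M19 := by decide +kernel

/-- Program 19. -/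
def O19 : List Op :=
   [.rot 65, .sc, .rot 40, .col 388, .rot 167, .sr, .rot 61, .row 100, .rot 166, .sc, .rot 160, .col 154,
    .sr, .rot 15, .col 448, .rot 164, .sr, .rot 156, .row 100, .rot 163, .sc, .rot 143, .col 412, .sr,
    .rot 28, .row 415, .rot 161, .sc, .rot 14, .col 197, .sr, .rot 70, .col 296, .rot 159, .sr, .rot 51,
    .col 348, .sr, .rot 86, .row 25, .sc, .rot 94, .col 452, .sr, .rot 51, .row 98, .sc, .rot 19,
    .col 141, .sr, .rot 90, .row 286, .sc, .rot 24, .col 452, .rot 152]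

theorem r19 : run O19 M19 = some M20 := by decide +kernel

/-- Program 20. -/
def O20 : List Op :=
   [.sr, .rot 71, .col 107, .rot 151, .sr, .rot 34, .row 275, .rot 150, .sc, .rot 68, .col 137, .rot 149,
    .sr, .rot 21, .col 208, .sr, .rot 137, .sc, .rot 26, .col 401, .rot 146, .sr, .rot 57, .row 185,
    .rot 145, .sc, .rot 143, .sc, .rot 113, .row 216, .sc, .rot 41, .col 298, .sr, .rot 134, .row 228,
    .rot 141, .sc, .rot 138, .row 126, .rot 140, .sc, .rot 22, .sr, .rot 8, .row 463, .sc, .rot 36,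
    .row 20, .rot 137, .sc, .rot 61, .col 315, .sr, .rot 24, .sr, .rot 84, .row 76, .sc, .rot 66,
    .sr, .rot 125, .col 67]

theorem r20 : run O20 M20 = some M21 := by decide +kernel

end LHJ


end
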