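import Mathlib
import Pool.Agent.NDM.C11

/-! Parts: LHJ.K1 -/

section

/-!
# The path, part 1
-/

set_option maxRecDepth 100000

namespace LHJ

/-- Program 0. -/
def O0 : List Op :=
   [.rot 4, .col 343, .sr, .rot 179, .row 66, .sc, .rot 252, .col 65, .rot 362, .sr, .rot 107, .row 34,
    .sc, .rot 203, .col 475, .sr, .rot 173, .col 19, .sr, .rot 145, .sc, .rot 204, .row 106, .rot 357,
    .sc]

theorem r0 : run O0 M0 = some M1 := by decide +kernel

/-- Program 1. -/
def O1 : List Op :=
   [.rot 353, .row 65, .sc, .rot 166, .col 181, .sr, .rot 183, .row 12, .sc, .rot 285, .col 433, .rot 353,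
    .sr, .rot 78, .col 81, .sr, .rot 271, .col 406, .rot 351, .sr, .rot 94, .col 24, .sr, .rot 158,
    .col 311, .sr]

theorem r1 : run O1 M1 = some M2 := by decide +kernel

/-- Program 2. -/
def O2 : List Op :=
   [.rot 100, .col 428, .rot 348, .sr, .rot 323, .row 182, .sc, .rot 286, .col 445, .sr, .rot 68, .col 235,
    .rot 345, .sr, .rot 3, .row 308, .sc, .rot 281, .row 477, .sc, .rot 69, .col 359, .rot 342, .sr,
    .rot 326, .row 192, .sc]

theorem r2 : run O2 M2 = some M3 := by decide +kernel

/-- Program 3. -/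
def O3 : List Op :=
   [.rot 337, .col 89, .rot 340, .sr, .rot 93, .row 18, .sc, .rot 174, .col 253, .sr, .rot 37, .row 416,
    .rot 337, .sc, .rot 317, .col 445, .sr, .rot 73, .col 360, .rot 335, .sr, .rot 250, .row 281, .rot 334,
    .sc, .rot 229, .col 251]

theorem r3 : run O3 M3 = some M4 := by decide +kernel

/-- Program 4. -/
def O4 : List Op :=
   [.rot 333, .sr, .rot 122, .row 454, .rot 332, .sc, .rot 315, .row 259, .rot 331, .sc, .rot 175, .sc,
    .rot 124, .row 265, .rot 329, .sc, .rot 219, .row 122, .rot 328, .sc, .rot 132, .col 143, .sr, .rot 22,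
    .col 451, .sr, .rot 320, .row 373]

theorem r4 : run O4 M4 = some M5 := by decide +kernel

/-- Program 5. -/
def O5 : List Op :=
   [.rot 325, .sc, .rot 156, .sr, .rot 177, .col 486, .sr, .rot 293, .row 82, .sc, .rot 193, .row 69,
    .rot 321, .sc, .rot 199, .row 132, .rot 320, .sc, .rot 283, .col 484, .rot 319, .sr, .rot 75, .sr,
    .rot 300, .row 329, .sc, .rot 180]

theorem r5 : run O5 M5 = some M6 := by decide +kernel

/-- Program 6. -/
def O6 : List Op :=
   [.row 243, .rot 316, .sc, .rot 137, .row 339, .sc, .rot 251, .row 408, .rot 314, .sc, .rot 223, .sc,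
    .rot 92, .col 459, .sr, .rot 2, .sc, .rot 77, .row 456, .sc, .rot 294, .col 346, .rot 309, .sr,
    .rot 90, .row 22, .rot 308, .sc, .rot 141]

theorem r6 : run O6 M6 = some M7 := by decide +kernel

end LHJ


end
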